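import Pool.Agent.Helper25.S1T.Wt_1_1
import Pool.Agent.Helper25.S1T.Wt_1_m1
import Pool.Agent.Helper25.S1T.Wt_m1_1
import Pool.Agent.Helper25.S1T.Wt_m1_m1

set_option autoImplicit false
set_option linter.all false

/-!
# The trees of `S1` without tokens
-/

namespace Helper25.S1T

open Helper25.KG Helper25.KW Helper55.KE Helper11.CT

theorem a_Wt_1_1 {p a b c J l q : ℤ} {D dl : ℝ} {Cl : ℤ → ℤ → ℤ → ℤ → ℝ → Prop}
    (W : World p a b c J 1 l q D dl Cl) (hc : -a < c) (hA : Aux p a b 1 D Cl)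
    {N X R : ℤ} {I : ℝ} (hK : KGF p a b 1 D (P1 l p) Cl N X R I)
    (hM : KMW p a b 1 (P1 l p) Cl N (a + (1 : ℤ) * (X + (1 : ℤ) * I + R)))
    (hG : KGe p a b 1 D (P1 l p) Cl)
    (h0 : 1 ≤ (c : ℝ))
    (h1 : 1 ≤ 2 * (a : ℝ) - (b : ℝ))
    (h2 : 0 < -(a : ℝ) - (X : ℝ) - (R : ℝ) + D - I)
    (h3 : 0 < (b : ℝ) + (X : ℝ) - D + I) : False := by
  have kz := KF.of hK
  obtain ⟨Ne, Xe, Ie, he⟩ := hA.ecl 1 (by
    intro h
    have h2 := W.ha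
    have h3 := W.h2a
    have h1 := Int.le_of_dvd (by omega) h
    omega)
  exact Helper25.S1T.Wt_1_1.closed W (G0.of W.toBase hc) (KCl.of hK) kz he
    (kok_W (Or.inl rfl) hM hG kz.s1 kz.s2 (by simp [xv] <;> ring) (by simp [xv] <;> ring) (by simp [xv] <;> ring) (by simp [xv] <;> ring) (by simp [xv] <;> ring))
    h0 h1 h2 h3

theorem a_Wt_1_m1 {p a b c J l q : ℤ} {D dl : ℝ} {Cl : ℤ → ℤ → ℤ → ℤ → ℝ → Prop}
    (W : World p a b c J (-1) l q D dl Cl) (hc : -a < c) (hA : Aux p a b (-1) D Cl)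
    {N X R : ℤ} {I : ℝ} (hK : KGF p a b (-1) D (P1 l p) Cl N X R I)
    (hM : KMW p a b (-1) (P1 l p) Cl N (a + (-1 : ℤ) * (X + (-1 : ℤ) * I + R)))
    (hG : KGe p a b (-1) D (P1 l p) Cl)
    (h0 : 1 ≤ (c : ℝ))
    (h1 : 1 ≤ 2 * (a : ℝ) - (b : ℝ))
    (h2 : 0 < -(a : ℝ) + (X : ℝ) + (R : ℝ) + D - I)
    (h3 : 0 < (b : ℝ) - (X : ℝ) - D + I) : False := by
  have kz := KF.of hK
  obtain ⟨Ne, Xe, Ie, he⟩ := hA.ecl 1 (by
    intro h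
    have h2 := W.ha
    have h3 := W.h2a
    have h1 := Int.le_of_dvd (by omega) h
    omega)
  exact Helper25.S1T.Wt_1_m1.closed W (G0.of W.toBase hc) (KCl.of hK) kz he
    (kok_W (Or.inr rfl) hM hG kz.s1 kz.s2 (by simp [xv] <;> ring) (by simp [xv] <;> ring) (by simp [xv] <;> ring) (by simp [xv] <;> ring) (by simp [xv] <;> ring))
    h0 h1 h2 h3

theorem a_Wt_m1_1 {p a b c J l q : ℤ} {D dl : ℝ} {Cl : ℤ → ℤ → ℤ → ℤ → ℝ → Prop}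
    (W : World p a b c J 1 l q D dl Cl) (hc : -a < c) (hA : Aux p a b 1 D Cl)
    {N X R : ℤ} {I : ℝ} (hK : KGF p a b 1 D (P1 l p) Cl N X R I)
    (hM : KMW p a b 1 (P1 l p) Cl N (a + (1 : ℤ) * (X + (1 : ℤ) * I + R)))
    (hG : KGe p a b 1 D (P1 l p) Cl)
    (h0 : 1 ≤ -(c : ℝ))
    (h1 : 1 ≤ 2 * (a : ℝ) - (b : ℝ))
    (h2 : 0 < -(a : ℝ) - (X : ℝ) - (R : ℝ) + D - I)
    (h3 : 0 < (b : ℝ) + (X : ℝ) - D + I) : False := by
  have kz := KF.of hK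
  obtain ⟨Ne, Xe, Ie, he⟩ := hA.ecl 1 (by
    intro h
    have h2 := W.ha
    have h3 := W.h2a
    have h1 := Int.le_of_dvd (by omega) h
    omega)
  exact Helper25.S1T.Wt_m1_1.closed W (G0.of W.toBase hc) (KCl.of hK) kz he
    (kok_W (Or.inl rfl) hM hG kz.s1 kz.s2 (by simp [xv] <;> ring) (by simp [xv] <;> ring) (by simp [xv] <;> ring) (by simp [xv] <;> ring) (by simp [xv] <;> ring))
    h0 h1 h2 h3

theorem a_Wt_m1_m1 {p a b c J l q : ℤ} {D dl : ℝ} {Cl : ℤ → ℤ → ℤ → ℤ → ℝ → Prop}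
    (W : World p a b c J (-1) l q D dl Cl) (hc : -a < c) (hA : Aux p a b (-1) D Cl)
    {N X R : ℤ} {I : ℝ} (hK : KGF p a b (-1) D (P1 l p) Cl N X R I)
    (hM : KMW p a b (-1) (P1 l p) Cl N (a + (-1 : ℤ) * (X + (-1 : ℤ) * I + R)))
    (hG : KGe p a b (-1) D (P1 l p) Cl)
    (h0 : 1 ≤ -(c : ℝ))
    (h1 : 1 ≤ 2 * (a : ℝ) - (b : ℝ))
    (h2 : 0 < -(a : ℝ) + (X : ℝ) + (R : ℝ) + D - I)
    (h3 : 0 < (b : ℝ) - (X : ℝ) - D + I) : False := by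
  have kz := KF.of hK
  exact Helper25.S1T.Wt_m1_m1.closed W (G0.of W.toBase hc) (KCl.of hK) kz
    (kok_W (Or.inr rfl) hM hG kz.s1 kz.s2 (by simp [xv] <;> ring) (by simp [xv] <;> ring) (by simp [xv] <;> ring) (by simp [xv] <;> ring) (by simp [xv] <;> ring))
    h0 h1 h2 h3

end Helper25.S1T
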