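import Pool.Agent.Helper25.KW.S1I
import Pool.Agent.Helper25.S1T.AW

set_option autoImplicit false

/-!
# The class `W`, `b < 2 a`
-/

namespace Helper25.S1T

open Helper25.KG Helper25.KW Helper55.KE Helper11.CT

theorem cw_1_1 : CW 1 1 := by
  intro p a b c J l q D dl Cl W hc h0 h1 N X R I g1 g2 g3 g4 g5 hA _ _
  have c1 : (1 : ℝ) ≤ c := by exact_mod_cast (by omega : 1 ≤ c)
  have b1 : 1 ≤ 2 * (a : ℝ) - b := by exact_mod_cast (by omega : 1 ≤ 2 * a - b)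
  refine a_Wt_1_1 W hc hA g1 g2 g5 c1 b1 ?_ ?_
  all_goals push_cast at g3 g4 ⊢
  all_goals linarith

theorem cw_1_m1 : CW 1 (-1) := by
  intro p a b c J l q D dl Cl W hc h0 h1 N X R I g1 g2 g3 g4 g5 hA _ _
  have c1 : (1 : ℝ) ≤ c := by exact_mod_cast (by omega : 1 ≤ c)
  have b1 : 1 ≤ 2 * (a : ℝ) - b := by exact_mod_cast (by omega : 1 ≤ 2 * a - b)
  refine a_Wt_1_m1 W hc hA g1 g2 g5 c1 b1 ?_ ?_
  all_goals push_cast at g3 g4 ⊢
  all_goals linarith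

theorem cw_m1_1 : CW (-1) 1 := by
  intro p a b c J l q D dl Cl W hc h0 h1 N X R I g1 g2 g3 g4 g5 hA _ _
  have c1 : (1 : ℝ) ≤ -c := by exact_mod_cast (by omega : 1 ≤ -c)
  have b1 : 1 ≤ 2 * (a : ℝ) - b := by exact_mod_cast (by omega : 1 ≤ 2 * a - b)
  refine a_Wt_m1_1 W hc hA g1 g2 g5 c1 b1 ?_ ?_
  all_goals push_cast at g3 g4 ⊢
  all_goals linarith

theorem cw_m1_m1 : CW (-1) (-1) := by
  intro p a b c J l q D dl Cl W hc h0 h1 N X R I g1 g2 g3 g4 g5 hA _ _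
  have c1 : (1 : ℝ) ≤ -c := by exact_mod_cast (by omega : 1 ≤ -c)
  have b1 : 1 ≤ 2 * (a : ℝ) - b := by exact_mod_cast (by omega : 1 ≤ 2 * a - b)
  refine a_Wt_m1_m1 W hc hA g1 g2 g5 c1 b1 ?_ ?_
  all_goals push_cast at g3 g4 ⊢
  all_goals linarith

end Helper25.S1T
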