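import Pool.Agent.Helper25.S1T.Ymm_2P2_p0
import Pool.Agent.Helper25.S1T.Ymm_2P2_p1

set_option autoImplicit false
set_option linter.all false

namespace Helper25.S1T.Ymm_2P2

open Helper25.KG Helper25.KW Helper55.KE Helper11.CT

noncomputable def t5 : Tre :=
  .I [1,-1,0,0,0,0,0,-1] t3 t4

theorem ok5 : chk K t5 r5 = true :=
  chk_I (e' := [0,1,0,0,0,0,0,1]) (by decide +kernel) (by decide +kernel) ok3 ok4

noncomputable def t6 : Tre :=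
  .Q [0,-1,0,-1,0,0,-1,-1,0,-1,1] (.p true [0,0,1] [1] (⟨0,[(16,0)]⟩,⟨0,[(15,0)]⟩) .k 1 (⟨0,[]⟩,⟨0,
  []⟩) .k .k) t2 t5

theorem ok6 : chk K t6 l4 = true :=
  chk_Q (e' := [0,1,0,1,0,0,1,1,0,1,-1]) (by decide +kernel) (by decide +kernel) ok2 ok5

noncomputable def t8 : Tre :=
  .Q [0,0,0,0,0,0,1,0,0,0,-1] (.p false [0,0,1] [] (⟨0,[(15,0)]⟩,⟨0,[(14,0)]⟩) .k 0 (⟨0,[]⟩,⟨0,[]⟩)
  .k .k) t6 t7

theorem ok8 : chk K t8 r3 = true :=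
  chk_Q (e' := [0,0,0,0,0,0,-1,0,0,0,1]) (by decide +kernel) (by decide +kernel) ok6 ok7

noncomputable def t9 : Tre :=
  .Q [0,0,0,0,0,-1,0,0,0,1,-1] (.ed true [0,1,1] .k) t1 t8

theorem ok9 : chk K t9 l2 = true :=
  chk_Q (e' := [0,0,0,0,0,1,0,0,0,-1,1]) (by decide +kernel) (by decide +kernel) ok1 ok8

noncomputable def t11 : Tre :=
  .I [0,0,0,0,0,0,0,-1] t9 t10

theorem ok11 : chk K t11 l1 = true :=
  chk_I (e' := [1,0,0,0,0,0,0,1]) (by decide +kernel) (by decide +kernel) ok9 ok10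

noncomputable def t20 : Tre :=
  .Q [0,0,0,-2,0,0,-1,-1,0,-2,1] (.p true [-1,1,1] [1] (⟨0,[(2,0)]⟩,⟨0,[(20,0),(4,0)]⟩) .k 1 (⟨0,
  []⟩,⟨0,[]⟩) .k .k) t18 t19

theorem ok20 : chk K t20 r14 = true :=
  chk_Q (e' := [0,0,0,2,0,0,1,1,0,2,-1]) (by decide +kernel) (by decide +kernel) ok18 ok19

noncomputable def t21 : Tre :=
  .Q [0,0,-1,1,0,0,1,0,0,1,-1] (.p false [0,0,1] [1] (⟨0,[(20,0)]⟩,⟨0,[(19,0)]⟩) .k 1 (⟨0,[]⟩,⟨0,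
  []⟩) .k .k) t17 t20

theorem ok21 : chk K t21 r13 = true :=
  chk_Q (e' := [0,0,1,-1,0,0,-1,0,0,-1,1]) (by decide +kernel) (by decide +kernel) ok17 ok20

noncomputable def t22 : Tre :=
  .Q [0,0,2,0,0,0,-1,0,0,-1,1] (.p true [0,0,1] [1] (⟨0,[(19,0)]⟩,⟨0,[(18,0)]⟩) .k 1 (⟨0,[]⟩,⟨0,
  []⟩) .k .k) t16 t21

theorem ok22 : chk K t22 r12 = true :=
  chk_Q (e' := [0,0,-2,0,0,0,1,0,0,1,-1]) (by decide +kernel) (by decide +kernel) ok16 ok21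

noncomputable def t23 : Tre :=
  .Q [0,0,0,0,0,-1,0,0,0,1,-1] (.ed true [0,1,1] .k) t15 t22

theorem ok23 : chk K t23 l11 = true :=
  chk_Q (e' := [0,0,0,0,0,1,0,0,0,-1,1]) (by decide +kernel) (by decide +kernel) ok15 ok22

noncomputable def t25 : Tre :=
  .Q [0,0,1,1,0,0,0,1,0,1] (.pp false [-1,1]) t23 t24

theorem ok25 : chk K t25 r10 = true :=
  chk_Q (e' := [0,0,-1,-1,0,0,0,-1,0,-1]) (by decide +kernel) (by decide +kernel) ok23 ok24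

noncomputable def t26 : Tre :=
  .Q [0,1,0,0,-1,0,1,1,0,1,-1] (.p false [0,0,1] [1] (⟨0,[(16,0)]⟩,⟨0,[(15,0)]⟩) .k 1 (⟨0,[]⟩,⟨0,
  []⟩) .k .k) t14 t25

theorem ok26 : chk K t26 r9 = true :=
  chk_Q (e' := [0,-1,0,0,1,0,-1,-1,0,-1,1]) (by decide +kernel) (by decide +kernel) ok14 ok25

noncomputable def t27 : Tre :=
  .Q [0,0,1,0,0,0,0,0,0,-1] (.pp true [-1,1]) t13 t26

theorem ok27 : chk K t27 l8 = true :=
  chk_Q (e' := [0,0,-1,0,0,0,0,0,0,1]) (by decide +kernel) (by decide +kernel) ok13 ok26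

noncomputable def t29 : Tre :=
  .Q [0,1,0,2,0,0,1,1,0,1,-1] (.p false [0,0,1] [1] (⟨0,[(14,0)]⟩,⟨0,[(13,0)]⟩) .k 1 (⟨0,[]⟩,⟨0,
  []⟩) .k .k) t27 t28

theorem ok29 : chk K t29 r7 = true :=
  chk_Q (e' := [0,-1,0,-2,0,0,-1,-1,0,-1,1]) (by decide +kernel) (by decide +kernel) ok27 ok28

noncomputable def t30 : Tre :=
  .Q [0,0,0,0,0,0,-1,0,0,0,1] (.p true [0,0,1] [] (⟨0,[(13,0)]⟩,⟨0,[(12,0)]⟩) .k 0 (⟨0,[]⟩,⟨0,[]⟩)
  .k .k) t12 t29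

theorem ok30 : chk K t30 r1 = true :=
  chk_Q (e' := [0,0,0,0,0,0,1,0,0,0,-1]) (by decide +kernel) (by decide +kernel) ok12 ok29

noncomputable def t31 : Tre :=
  .Q [0,-1,0,-1,0,0,-1,-1,0,0,1] (.p true [0,0,1] [] (⟨0,[(12,0)]⟩,⟨0,[(11,0)]⟩) .k 0 (⟨0,[]⟩,⟨0,
  []⟩) .k .k) t11 t30

theorem ok31 : chk K t31 r0 = true :=
  chk_Q (e' := [0,1,0,1,0,0,1,1,0,0,-1]) (by decide +kernel) (by decide +kernel) ok11 ok30

noncomputable def t32 : Tre :=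
  .I [1,1,-2,-2,-1] t0 t31

theorem ok32 : chk K t32 base = true :=
  chk_I (e' := [0,-1,2,2,1]) (by decide +kernel) (by decide +kernel) ok0 ok31

theorem closed {p a b c J l q : ℤ} {D dl : ℝ} {Cl : ℤ → ℤ → ℤ → ℤ → ℝ → Prop}
    (W : World p a b c J (-1) l q D dl Cl) (g : G0 p a b c J D)
    {N X R : ℤ} {I : ℝ} (hk : KCl p l Cl N X R I) (kz : KF a b D (X + (-1 : ℤ) * I) (X + (-1 : ℤ) * I + R) I)
    {Ne Xe : ℤ} {Ie : ℝ} (he : EFac p (-1) D Cl (a) Ne Xe Ie)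
    (hkf : ∀ kf ∈ (kfY (-1) [0,0,0,0,0,0,1,0,0,0,-1]), KOk p l Cl (-1)
      (xv [1, a, b, c, p, J, X, R, Xe] [D, I, Ie]) N kf)
    (h0 : 1 ≤ -(c : ℝ))
    (h1 : 1 ≤ (a : ℝ) - (b : ℝ))
    (h2 : 1 ≤ 1 - (a : ℝ) + (b : ℝ) - (c : ℝ))
    (h3 : 0 < 1 + 2 * (p : ℝ) - 5 * D)
    (h4 : 1 ≤ 2 * (a : ℝ) - (b : ℝ))
    (h5 : 1 ≤ -1 + (J : ℝ))
    (h6 : 1 ≤ 3 - (J : ℝ))
    (h7 : 0 < -(b : ℝ) + (X : ℝ) + D - I)
    (h8 : 0 < 2 * (X : ℝ) + D - 2 * I) : False := by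
  have g1 := g.a2
  have g2 := g.b2
  have g3 := g.pa
  have g4 := g.pb
  have g5 := g.J1
  have g6 := g.JD
  have g7 := g.D2
  have g8 := g.ca
  have g9 := g.ca'
  have k1 := kz.I0
  have k2 := kz.ID
  have k3 := kz.z1
  have k4 := kz.z2
  have k5 := kz.s1
  have k6 := kz.s2
  have e1 := he.I0
  have e2 := he.ID
  have e3 := he.x0
  have e4 := he.xp
  push_cast at *
  refine (val_E W.toBase hk he (row := [0,1]) (by simp) (by simp) (kfY (-1) [0,0,0,0,0,0,1,0,0,0,-1])).sound W rfl (Nk := N)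
    (fun kf _ _ => ⟨_, rfl⟩) hkf ?_ ok32
  · simp only [base, List.forall_mem_cons, List.not_mem_nil, false_imp_iff, implies_true,
      and_true, hld, xv, evg_cons, evg_nil, List.map_cons, List.map_nil, List.cons_append,
      List.nil_append, if_true, if_false, Bool.false_eq_true]
    push_cast
    refine ⟨?_, ?_, ?_, ?_, ?_, ?_, ?_, ?_, ?_, ?_, ?_, ?_, ?_, ?_, ?_, ?_, ?_, ?_, ?_, ?_, ?_, ?_, ?_, ?_, ?_, ?_, ?_⟩ <;> linarith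

end Helper25.S1T.Ymm_2P2
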