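import Pool.Agent.Helper25.S1T.Ymm_2P3_p0
import Pool.Agent.Helper25.S1T.Ymm_2P3_p1
import Pool.Agent.Helper25.S1T.Ymm_2P3_p2

set_option autoImplicit false
set_option linter.all false

namespace Helper25.S1T.Ymm_2P3

open Helper25.KG Helper25.KW Helper55.KE Helper11.CT

noncomputable def t11 : Tre :=
  .Q [0,0,0,-2,0,0,-1,-1,0,-1,1] (.p true [0,0,1] [1] (⟨0,[(27,0)]⟩,⟨0,[(26,0)]⟩) .k 1 (⟨0,[]⟩,⟨0,
  []⟩) .k .k) t9 t10

theorem ok11 : chk K t11 r15 = true :=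
  chk_Q (e' := [0,0,0,2,0,0,1,1,0,1,-1]) (by decide +kernel) (by decide +kernel) ok9 ok10

noncomputable def t12 : Tre :=
  .I [1,1,-2,-1,-1,0,0,-2] t8 t11

theorem ok12 : chk K t12 l14 = true :=
  chk_I (e' := [0,-1,2,1,1,0,0,2]) (by decide +kernel) (by decide +kernel) ok8 ok11

noncomputable def t14 : Tre :=
  .I [1,1,2,1,-2,0,0,-1] t12 t13

theorem ok14 : chk K t14 l13 = true :=
  chk_I (e' := [0,-1,-2,-1,2,0,0,1]) (by decide +kernel) (by decide +kernel) ok12 ok13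

noncomputable def t16 : Tre :=
  .Q [0,1,0,-1,0,0,0,0,0,-1] (.pp true [-1,1]) t14 t15

theorem ok16 : chk K t16 l12 = true :=
  chk_Q (e' := [0,-1,0,1,0,0,0,0,0,1]) (by decide +kernel) (by decide +kernel) ok14 ok15

noncomputable def t18 : Tre :=
  .I [0,0,1,1,-1,0,0,-1] t16 t17

theorem ok18 : chk K t18 l11 = true :=
  chk_I (e' := [1,0,-1,-1,1,0,0,1]) (by decide +kernel) (by decide +kernel) ok16 ok17

noncomputable def t20 : Tre :=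
  .I [1,0,1,1,-1,0,0,-1] t18 t19

theorem ok20 : chk K t20 r10 = true :=
  chk_I (e' := [0,0,-1,-1,1,0,0,1]) (by decide +kernel) (by decide +kernel) ok18 ok19

noncomputable def t21 : Tre :=
  .Q [0,0,0,0,0,1,0,0,0,0,-1] (.ed true [1,-1,1] .k) t7 t20

theorem ok21 : chk K t21 r9 = true :=
  chk_Q (e' := [0,0,0,0,0,-1,0,0,0,0,1]) (by decide +kernel) (by decide +kernel) ok7 ok20

noncomputable def t22 : Tre :=
  .Q [0,0,0,-2,0,0,1,1,0,0,-1] (.p false [0,0,1] [] (⟨0,[(20,0)]⟩,⟨0,[(19,0)]⟩) .k 0 (⟨0,[]⟩,⟨0,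
  []⟩) .k .k) t6 t21

theorem ok22 : chk K t22 r8 = true :=
  chk_Q (e' := [0,0,0,2,0,0,-1,-1,0,0,1]) (by decide +kernel) (by decide +kernel) ok6 ok21

noncomputable def t23 : Tre :=
  .Q [0,0,0,0,0,2,0,0,0,-1] (.pp true [-1,1]) t5 t22

theorem ok23 : chk K t23 l7 = true :=
  chk_Q (e' := [0,0,0,0,0,-2,0,0,0,1]) (by decide +kernel) (by decide +kernel) ok5 ok22

noncomputable def t25 : Tre :=
  .Q [0,0,0,1,0,0,-1,-1,0,0,1] (.p true [0,0,1] [] (⟨0,[(18,0)]⟩,⟨0,[(17,0)]⟩) .k 0 (⟨0,[]⟩,⟨0,[]⟩)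
  .k .k) t23 t24

theorem ok25 : chk K t25 r6 = true :=
  chk_Q (e' := [0,0,0,-1,0,0,1,1,0,0,-1]) (by decide +kernel) (by decide +kernel) ok23 ok24

noncomputable def t26 : Tre :=
  .Q [0,-1,0,-1,0,0,-1,-1,0,0,1] (.p true [0,0,1] [] (⟨0,[(17,0)]⟩,⟨0,[(16,0)]⟩) .k 0 (⟨0,[]⟩,⟨0,
  []⟩) .k .k) t4 t25

theorem ok26 : chk K t26 r5 = true :=
  chk_Q (e' := [0,1,0,1,0,0,1,1,0,0,-1]) (by decide +kernel) (by decide +kernel) ok4 ok25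

noncomputable def t27 : Tre :=
  .I [1,0,-1,0,1,0,0,1] t3 t26

theorem ok27 : chk K t27 r4 = true :=
  chk_I (e' := [0,0,1,0,-1,0,0,-1]) (by decide +kernel) (by decide +kernel) ok3 ok26

noncomputable def t28 : Tre :=
  .I [0,1,-1,-2,-1,0,0,-1] t2 t27

theorem ok28 : chk K t28 r3 = true :=
  chk_I (e' := [1,-1,1,2,1,0,0,1]) (by decide +kernel) (by decide +kernel) ok2 ok27

noncomputable def t29 : Tre :=
  .Q [0,0,0,0,0,1,0,0,0,-1,1] (.ed false [0,1,1] .k) t1 t28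

theorem ok29 : chk K t29 r2 = true :=
  chk_Q (e' := [0,0,0,0,0,-1,0,0,0,1,-1]) (by decide +kernel) (by decide +kernel) ok1 ok28

noncomputable def t30 : Tre :=
  .Q [0,0,0,-1,0,0,-1,-1,0,-1,1] (.p true [0,0,1] [1] (⟨0,[(13,0)]⟩,⟨0,[(12,0)]⟩) .k 1 (⟨0,[]⟩,⟨0,
  []⟩) .k .k) t0 t29

theorem ok30 : chk K t30 l1 = true :=
  chk_Q (e' := [0,0,0,1,0,0,1,1,0,1,-1]) (by decide +kernel) (by decide +kernel) ok0 ok29

noncomputable def t41 : Tre :=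
  .I [1,-1,-2,-1,2,0,0,2] t39 t40

theorem ok41 : chk K t41 r29 = true :=
  chk_I (e' := [0,1,2,1,-2,0,0,-2]) (by decide +kernel) (by decide +kernel) ok39 ok40

noncomputable def t42 : Tre :=
  .I [1,0,-2,-1,1,0,0,1] t38 t41

theorem ok42 : chk K t42 r28 = true :=
  chk_I (e' := [0,0,2,1,-1,0,0,-1]) (by decide +kernel) (by decide +kernel) ok38 ok41

noncomputable def t43 : Tre :=
  .Q [0,-1,0,-1,0,0,1,1,0,1,-1] (.p false [0,0,1] [1] (⟨0,[(24,0)]⟩,⟨0,[(23,0)]⟩) .k 1 (⟨0,[]⟩,⟨0,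
  []⟩) .k .k) t37 t42

theorem ok43 : chk K t43 r27 = true :=
  chk_Q (e' := [0,1,0,1,0,0,-1,-1,0,-1,1]) (by decide +kernel) (by decide +kernel) ok37 ok42

noncomputable def t44 : Tre :=
  .Q [0,0,0,0,0,1,0,0,0,0,-1] (.ed true [1,-1,1] .k) t36 t43

theorem ok44 : chk K t44 r26 = true :=
  chk_Q (e' := [0,0,0,0,0,-1,0,0,0,0,1]) (by decide +kernel) (by decide +kernel) ok36 ok43

noncomputable def t45 : Tre :=
  .Q [0,0,-1,0,1,0,-1,0,0,-1,1] (.p true [0,0,1] [1] (⟨0,[(22,0)]⟩,⟨0,[(21,0)]⟩) .k 1 (⟨0,[]⟩,⟨0,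
  []⟩) .k .k) t35 t44

theorem ok45 : chk K t45 r25 = true :=
  chk_Q (e' := [0,0,1,0,-1,0,1,0,0,1,-1]) (by decide +kernel) (by decide +kernel) ok35 ok44

noncomputable def t46 : Tre :=
  .Q [0,0,0,-1,0,0,1,1,0,0,-1] (.p false [0,0,1] [] (⟨0,[(21,0)]⟩,⟨0,[(20,0)]⟩) .k 0 (⟨0,[]⟩,⟨0,
  []⟩) .k .k) t34 t45

theorem ok46 : chk K t46 l24 = true :=
  chk_Q (e' := [0,0,0,1,0,0,-1,-1,0,0,1]) (by decide +kernel) (by decide +kernel) ok34 ok45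

noncomputable def t48 : Tre :=
  .Q [0,0,0,0,0,0,-1,-1,0,0,1] (.p true [0,0,1] [] (⟨0,[(20,0)]⟩,⟨0,[(19,0)]⟩) .k 0 (⟨0,[]⟩,⟨0,[]⟩)
  .k .k) t46 t47

theorem ok48 : chk K t48 r23 = true :=
  chk_Q (e' := [0,0,0,0,0,0,1,1,0,0,-1]) (by decide +kernel) (by decide +kernel) ok46 ok47

noncomputable def t49 : Tre :=
  .I [1,0,-1,-1,0,0,0,-1] t33 t48

theorem ok49 : chk K t49 r22 = true :=
  chk_I (e' := [0,0,1,1,0,0,0,1]) (by decide +kernel) (by decide +kernel) ok33 ok48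

noncomputable def t50 : Tre :=
  .I [0,0,-1,-1,0,0,0,-1] t32 t49

theorem ok50 : chk K t50 l21 = true :=
  chk_I (e' := [1,0,1,1,0,0,0,1]) (by decide +kernel) (by decide +kernel) ok32 ok49

noncomputable def t52 : Tre :=
  .Q [0,1,0,1,0,0,1,1,0,0,-1] (.p false [0,0,1] [] (⟨0,[(17,0)]⟩,⟨0,[(16,0)]⟩) .k 0 (⟨0,[]⟩,⟨0,[]⟩)
  .k .k) t50 t51

theorem ok52 : chk K t52 l20 = true :=
  chk_Q (e' := [0,-1,0,-1,0,0,-1,-1,0,0,1]) (by decide +kernel) (by decide +kernel) ok50 ok51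

noncomputable def t54 : Tre :=
  .Q [0,0,0,0,0,0,1,0,0,0,-1] (.p false [0,0,1] [] (⟨0,[(16,0)]⟩,⟨0,[(15,0)]⟩) .k 0 (⟨0,[]⟩,⟨0,[]⟩)
  .k .k) t52 t53

theorem ok54 : chk K t54 r19 = true :=
  chk_Q (e' := [0,0,0,0,0,0,-1,0,0,0,1]) (by decide +kernel) (by decide +kernel) ok52 ok53

noncomputable def t55 : Tre :=
  .Q [0,-1,0,-2,0,0,-1,-1,0,-1,1] (.p true [0,0,1] [1] (⟨0,[(15,0)]⟩,⟨0,[(14,0)]⟩) .k 1 (⟨0,[]⟩,⟨0,
  []⟩) .k .k) t31 t54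

theorem ok55 : chk K t55 l18 = true :=
  chk_Q (e' := [0,1,0,2,0,0,1,1,0,1,-1]) (by decide +kernel) (by decide +kernel) ok31 ok54

noncomputable def t57 : Tre :=
  .Q [0,0,0,0,0,-1,0,0,0,1,-1] (.ed true [0,1,1] .k) t55 t56

theorem ok57 : chk K t57 l17 = true :=
  chk_Q (e' := [0,0,0,0,0,1,0,0,0,-1,1]) (by decide +kernel) (by decide +kernel) ok55 ok56

noncomputable def t59 : Tre :=
  .I [0,0,2,1] t57 t58

theorem ok59 : chk K t59 r1 = true :=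
  chk_I (e' := [1,0,-2,-1]) (by decide +kernel) (by decide +kernel) ok57 ok58

noncomputable def t60 : Tre :=
  .I [0,0,-1,0,0,0,0,-1] t30 t59

theorem ok60 : chk K t60 l0 = true :=
  chk_I (e' := [1,0,1,0,0,0,0,1]) (by decide +kernel) (by decide +kernel) ok30 ok59

noncomputable def t74 : Tre :=
  .Q [0,0,1,1,0,0,-1,0,0,0,1] (.p true [0,0,1] [] (⟨0,[(27,0)]⟩,⟨0,[(26,0)]⟩) .k 0 (⟨0,[]⟩,⟨0,[]⟩)
  .k .k) t72 t73

theorem ok74 : chk K t74 r45 = true :=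
  chk_Q (e' := [0,0,-1,-1,0,0,1,0,0,0,-1]) (by decide +kernel) (by decide +kernel) ok72 ok73

noncomputable def t75 : Tre :=
  .Q [0,-1,0,-2,1,0,-1,-1,0,-1,1] (.p true [0,0,1] [1] (⟨0,[(26,0)]⟩,⟨0,[(25,0)]⟩) .k 1 (⟨0,[]⟩,⟨0,
  []⟩) .k .k) t71 t74

theorem ok75 : chk K t75 r44 = true :=
  chk_Q (e' := [0,1,0,2,-1,0,1,1,0,1,-1]) (by decide +kernel) (by decide +kernel) ok71 ok74

noncomputable def t76 : Tre :=
  .Q [0,0,-2,0,0,0,1,0,0,1,-1] (.p false [0,0,1] [1] (⟨0,[(25,0)]⟩,⟨0,[(24,0)]⟩) .k 1 (⟨0,[]⟩,⟨0,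
  []⟩) .k .k) t70 t75

theorem ok76 : chk K t76 r43 = true :=
  chk_Q (e' := [0,0,2,0,0,0,-1,0,0,-1,1]) (by decide +kernel) (by decide +kernel) ok70 ok75

noncomputable def t77 : Tre :=
  .I [0,-1,-1,-1,1,0,0,1] t69 t76

theorem ok77 : chk K t77 r42 = true :=
  chk_I (e' := [1,1,1,1,-1,0,0,-1]) (by decide +kernel) (by decide +kernel) ok69 ok76

noncomputable def t78 : Tre :=
  .Q [0,0,0,0,0,1,0,0,0,0,-1] (.ed true [1,-1,1] .k) t68 t77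

theorem ok78 : chk K t78 r41 = true :=
  chk_Q (e' := [0,0,0,0,0,-1,0,0,0,0,1]) (by decide +kernel) (by decide +kernel) ok68 ok77

noncomputable def t79 : Tre :=
  .I [0,1,-1,-1,0,0,0,1] t67 t78

theorem ok79 : chk K t79 l40 = true :=
  chk_I (e' := [1,-1,1,1,0,0,0,-1]) (by decide +kernel) (by decide +kernel) ok67 ok78

noncomputable def t81 : Tre :=
  .I [1,0,0,0,0,0,0,-1] t79 t80

theorem ok81 : chk K t81 r39 = true :=
  chk_I (e' := [0,0,0,0,0,0,0,1]) (by decide +kernel) (by decide +kernel) ok79 ok80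

noncomputable def t82 : Tre :=
  .Q [0,0,0,0,0,1,0,0,0,-1,1] (.ed false [0,1,1] .k) t66 t81

theorem ok82 : chk K t82 l38 = true :=
  chk_Q (e' := [0,0,0,0,0,-1,0,0,0,1,-1]) (by decide +kernel) (by decide +kernel) ok66 ok81

noncomputable def t84 : Tre :=
  .Q [0,1,0,1,0,0,-1,-1,0,0,1] (.p true [0,0,1] [] (⟨0,[(19,0)]⟩,⟨0,[(18,0)]⟩) .k 0 (⟨0,[]⟩,⟨0,[]⟩)
  .k .k) t82 t83

theorem ok84 : chk K t84 r37 = true :=
  chk_Q (e' := [0,-1,0,-1,0,0,1,1,0,0,-1]) (by decide +kernel) (by decide +kernel) ok82 ok83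

noncomputable def t85 : Tre :=
  .Q [0,-1,0,-1,1,0,-1,-1,0,-1,1] (.p true [0,0,1] [1] (⟨0,[(18,0)]⟩,⟨0,[(17,0)]⟩) .k 1 (⟨0,[]⟩,⟨0,
  []⟩) .k .k) t65 t84

theorem ok85 : chk K t85 l36 = true :=
  chk_Q (e' := [0,1,0,1,-1,0,1,1,0,1,-1]) (by decide +kernel) (by decide +kernel) ok65 ok84

noncomputable def t95 : Tre :=
  .Q [0,0,2,0,-1,0,1,0,0,0,-1] (.p false [0,0,1] [] (⟨0,[(25,0)]⟩,⟨0,[(24,0)]⟩) .k 0 (⟨0,[]⟩,⟨0,
  []⟩) .k .k) t93 t94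

theorem ok95 : chk K t95 r53 = true :=
  chk_Q (e' := [0,0,-2,0,1,0,-1,0,0,0,1]) (by decide +kernel) (by decide +kernel) ok93 ok94

noncomputable def t96 : Tre :=
  .Q [0,0,-1,0,1,0,-1,0,0,-1,1] (.p true [0,0,1] [1] (⟨0,[(24,0)]⟩,⟨0,[(23,0)]⟩) .k 1 (⟨0,[]⟩,⟨0,
  []⟩) .k .k) t92 t95

theorem ok96 : chk K t96 r52 = true :=
  chk_Q (e' := [0,0,1,0,-1,0,1,0,0,1,-1]) (by decide +kernel) (by decide +kernel) ok92 ok95

noncomputable def t97 : Tre :=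
  .Q [0,0,0,0,0,1,0,0,0,0,-1] (.ed true [1,-1,1] .k) t91 t96

theorem ok97 : chk K t97 r51 = true :=
  chk_Q (e' := [0,0,0,0,0,-1,0,0,0,0,1]) (by decide +kernel) (by decide +kernel) ok91 ok96

noncomputable def t98 : Tre :=
  .Q [0,0,0,0,0,2,0,0,0,-1] (.pp true [-1,1]) t90 t97

theorem ok98 : chk K t98 r50 = true :=
  chk_Q (e' := [0,0,0,0,0,-2,0,0,0,1]) (by decide +kernel) (by decide +kernel) ok90 ok97

noncomputable def t99 : Tre :=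
  .I [0,-1,-1,-1,1,0,0,-1] t89 t98

theorem ok99 : chk K t99 r49 = true :=
  chk_I (e' := [1,1,1,1,-1,0,0,1]) (by decide +kernel) (by decide +kernel) ok89 ok98

noncomputable def t100 : Tre :=
  .Q [0,-1,0,-1,0,0,1,1,0,0,-1] (.p false [0,0,1] [] (⟨0,[(20,0)]⟩,⟨0,[(19,0)]⟩) .k 0 (⟨0,[]⟩,⟨0,
  []⟩) .k .k) t88 t99

theorem ok100 : chk K t100 r48 = true :=
  chk_Q (e' := [0,1,0,1,0,0,-1,-1,0,0,1]) (by decide +kernel) (by decide +kernel) ok88 ok99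

noncomputable def t101 : Tre :=
  .I [0,1,-1,-1,0,0,0,-1] t87 t100

theorem ok101 : chk K t101 r47 = true :=
  chk_I (e' := [1,-1,1,1,0,0,0,1]) (by decide +kernel) (by decide +kernel) ok87 ok100

noncomputable def t102 : Tre :=
  .Q [0,0,0,0,0,1,0,0,0,-1,1] (.ed false [0,1,1] .k) t86 t101

theorem ok102 : chk K t102 r36 = true :=
  chk_Q (e' := [0,0,0,0,0,-1,0,0,0,1,-1]) (by decide +kernel) (by decide +kernel) ok86 ok101

noncomputable def t103 : Tre :=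
  .I [0,0,0,-1,0,0,0,-1] t85 t102

theorem ok103 : chk K t103 r35 = true :=
  chk_I (e' := [1,0,0,1,0,0,0,1]) (by decide +kernel) (by decide +kernel) ok85 ok102

noncomputable def t104 : Tre :=
  .I [1,0,-1,-1,0,0,0,-1] t64 t103

theorem ok104 : chk K t104 l34 = true :=
  chk_I (e' := [0,0,1,1,0,0,0,1]) (by decide +kernel) (by decide +kernel) ok64 ok103

noncomputable def t107 : Tre :=
  .I [0,0,0,0,0,0,0,1] t105 t106

theorem ok107 : chk K t107 l55 = true :=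
  chk_I (e' := [1,0,0,0,0,0,0,-1]) (by decide +kernel) (by decide +kernel) ok105 ok106

noncomputable def t109 : Tre :=
  .Q [0,0,0,0,0,0,1,1,0,0,-1] (.p false [0,0,1] [] (⟨0,[(16,0)]⟩,⟨0,[(15,0)]⟩) .k 0 (⟨0,[]⟩,⟨0,[]⟩)
  .k .k) t107 t108

theorem ok109 : chk K t109 r34 = true :=
  chk_Q (e' := [0,0,0,0,0,0,-1,-1,0,0,1]) (by decide +kernel) (by decide +kernel) ok107 ok108

noncomputable def t110 : Tre :=
  .Q [0,1,0,0,-1,0,1,1,0,1,-1] (.p false [0,0,1] [1] (⟨0,[(15,0)]⟩,⟨0,[(14,0)]⟩) .k 1 (⟨0,[]⟩,⟨0,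
  []⟩) .k .k) t104 t109

theorem ok110 : chk K t110 r33 = true :=
  chk_Q (e' := [0,-1,0,0,1,0,-1,-1,0,-1,1]) (by decide +kernel) (by decide +kernel) ok104 ok109

noncomputable def t111 : Tre :=
  .Q [0,1,-1,-1,0,0,0,-1,0,-1] (.pp true [-1,1]) t63 t110

theorem ok111 : chk K t111 r32 = true :=
  chk_Q (e' := [0,-1,1,1,0,0,0,1,0,1]) (by decide +kernel) (by decide +kernel) ok63 ok110

noncomputable def t112 : Tre :=
  .I [1,0,-1,0,0,0,0,-1] t62 t111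

theorem ok112 : chk K t112 r31 = true :=
  chk_I (e' := [0,0,1,0,0,0,0,1]) (by decide +kernel) (by decide +kernel) ok62 ok111

noncomputable def t113 : Tre :=
  .Q [0,0,0,0,0,0,-1,0,0,0,1] (.p true [0,0,1] [] (⟨0,[(12,0)]⟩,⟨0,[(11,0)]⟩) .k 0 (⟨0,[]⟩,⟨0,[]⟩)
  .k .k) t61 t112

theorem ok113 : chk K t113 r0 = true :=
  chk_Q (e' := [0,0,0,0,0,0,1,0,0,0,-1]) (by decide +kernel) (by decide +kernel) ok61 ok112

noncomputable def t114 : Tre :=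
  .Q [0,1,0,0,0,0,-1,-1,0,-1,1] (.p true [0,0,1] [1] (⟨0,[(11,0)]⟩,⟨0,[(10,0)]⟩) .k 1 (⟨0,[]⟩,⟨0,
  []⟩) .k .k) t60 t113

theorem ok114 : chk K t114 base = true :=
  chk_Q (e' := [0,-1,0,0,0,0,1,1,0,1,-1]) (by decide +kernel) (by decide +kernel) ok60 ok113

theorem closed {p a b c J l q : ℤ} {D dl : ℝ} {Cl : ℤ → ℤ → ℤ → ℤ → ℝ → Prop}
    (W : World p a b c J (-1) l q D dl Cl) (g : G0 p a b c J D)
    {N X R : ℤ} {I : ℝ} (hk : KCl p l Cl N X R I) (kz : KF a b D (X + (-1 : ℤ) * I) (X + (-1 : ℤ) * I + R) I)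
    {Ne Xe : ℤ} {Ie : ℝ} (he : EFac p (-1) D Cl (a) Ne Xe Ie)
    (hkf : ∀ kf ∈ (kfY (-1) [0,0,0,0,0,0,1,0,0,0,-1]), KOk p l Cl (-1)
      (xv [1, a, b, c, p, J, X, R, Xe] [D, I, Ie]) N kf)
    (h0 : 1 ≤ -(c : ℝ))
    (h1 : 1 ≤ (a : ℝ) - (b : ℝ))
    (h2 : 1 ≤ 1 - (a : ℝ) + (b : ℝ) - (c : ℝ))
    (h3 : 0 < -1 + (p : ℝ) - 2 * D)
    (h4 : 0 < 3 - (p : ℝ) + 2 * D)
    (h5 : 0 < 1 + 3 * (J : ℝ) - D)
    (h6 : 1 ≤ 2 * (a : ℝ) - (b : ℝ))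
    (h7 : 1 ≤ -2 + (J : ℝ))
    (h8 : 0 < -(b : ℝ) + (X : ℝ) + D - I)
    (h9 : 0 < 2 * (X : ℝ) + D - 2 * I) : False := by
  have g1 := g.a2
  have g2 := g.b2
  have g3 := g.pa
  have g4 := g.pb
  have g5 := g.J1
  have g6 := g.JD
  have g7 := g.D2
  have g8 := g.ca
  have g9 := g.ca'
  have k1 := kz.I0
  have k2 := kz.ID
  have k3 := kz.z1
  have k4 := kz.z2
  have k5 := kz.s1
  have k6 := kz.s2
  have e1 := he.I0
  have e2 := he.ID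
  have e3 := he.x0
  have e4 := he.xp
  push_cast at *
  refine (val_E W.toBase hk he (row := [0,1]) (by simp) (by simp) (kfY (-1) [0,0,0,0,0,0,1,0,0,0,-1])).sound W rfl (Nk := N)
    (fun kf _ _ => ⟨_, rfl⟩) hkf ?_ ok114
  · simp only [base, List.forall_mem_cons, List.not_mem_nil, false_imp_iff, implies_true,
      and_true, hld, xv, evg_cons, evg_nil, List.map_cons, List.map_nil, List.cons_append,
      List.nil_append, if_true, if_false, Bool.false_eq_true]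
    push_cast
    refine ⟨?_, ?_, ?_, ?_, ?_, ?_, ?_, ?_, ?_, ?_, ?_, ?_, ?_, ?_, ?_, ?_, ?_, ?_, ?_, ?_, ?_, ?_, ?_, ?_, ?_, ?_, ?_, ?_⟩ <;> linarith

end Helper25.S1T.Ymm_2P3
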