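import Pool.Agent.Helper25.S1T.Ymm_2L2
import Pool.Agent.Helper25.S1T.Ymm_2P1
import Pool.Agent.Helper25.S1T.Ymm_2P2
import Pool.Agent.Helper25.S1T.Ymm_2P3
import Pool.Agent.Helper25.S1T.Ymm_2P4b
import Pool.Agent.Helper25.S1T.Ymm_2P4a
import Pool.Agent.Helper25.S1T.Ymm_2P4c
import Pool.Agent.Helper25.S1T.Ymm_2P4dL
import Pool.Agent.Helper25.KG.S1F
import Pool.Agent.Helper25.KW.S1O

set_option autoImplicit false
set_option linter.all false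

namespace Helper25.S1T

open Helper25.KG Helper25.KW Helper55.KE Helper11.CT

theorem a_Ymm_2L2 {p a b c J l q : ℤ} {D dl : ℝ} {Cl : ℤ → ℤ → ℤ → ℤ → ℝ → Prop}
    (W : World p a b c J (-1) l q D dl Cl) (hc : -a < c) (hA : Aux p a b (-1) D Cl)
    {N X R : ℤ} {I : ℝ} (hK : KGF p a b (-1) D (P1 l p) Cl N X R I)
    (hM : KMY p a b (-1) (P1 l p) Cl N (b + (-1 : ℤ) * (X + (-1 : ℤ) * I)))
    (h0 : 1 ≤ -(c : ℝ))
    (h1 : 1 ≤ (a : ℝ) - (b : ℝ))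
    (h2 : 1 ≤ 1 - (a : ℝ) + (b : ℝ) - (c : ℝ))
    (h3 : 0 < 1 - (p : ℝ) + 2 * D)
    (h4 : 1 ≤ 2 * (a : ℝ) - (b : ℝ))
    (h5 : 1 ≤ 2 - (J : ℝ))
    (h6 : 0 < -(b : ℝ) + (X : ℝ) + D - I)
    (h7 : 0 < 2 * (X : ℝ) + D - 2 * I) : False := by
  have kz := KF.of hK
  obtain ⟨Ne, Xe, Ie, he⟩ := hA.ecl (a) (by
    intro h
    have h2 := W.ha
    have h3 := W.h2a
    have h1 := Int.le_of_dvd (by omega) h
    omega)
  exact Helper25.S1T.Ymm_2L2.closed W (G0.of W.toBase hc) (KCl.of hK) kz he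
    (kok_Y (R := R) (Or.inr rfl) hM kz.z1 kz.z2 (by simp [xv] <;> ring) (by simp [xv] <;> ring) (by simp [xv] <;> ring))
    h0 h1 h2 h3 h4 h5 h6 h7

theorem a_Ymm_2P1 {p a b c J l q : ℤ} {D dl : ℝ} {Cl : ℤ → ℤ → ℤ → ℤ → ℝ → Prop}
    (W : World p a b c J (-1) l q D dl Cl) (hc : -a < c) (hA : Aux p a b (-1) D Cl)
    {N X R : ℤ} {I : ℝ} (hK : KGF p a b (-1) D (P1 l p) Cl N X R I)
    (hM : KMY p a b (-1) (P1 l p) Cl N (b + (-1 : ℤ) * (X + (-1 : ℤ) * I)))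
    (h0 : 1 ≤ -(c : ℝ))
    (h1 : 1 ≤ (a : ℝ) - (b : ℝ))
    (h2 : 1 ≤ 1 - (a : ℝ) + (b : ℝ) - (c : ℝ))
    (h3 : 0 < 1 + (p : ℝ) - 3 * D)
    (h4 : 1 ≤ 2 * (a : ℝ) - (b : ℝ))
    (h5 : 1 ≤ 2 - (J : ℝ))
    (h6 : 0 < -(b : ℝ) + (X : ℝ) + D - I)
    (h7 : 0 < 2 * (X : ℝ) + D - 2 * I) : False := by
  have kz := KF.of hK
  obtain ⟨Ne, Xe, Ie, he⟩ := hA.ecl (a) (by
    intro h
    have h2 := W.ha
    have h3 := W.h2a
    have h1 := Int.le_of_dvd (by omega) h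
    omega)
  exact Helper25.S1T.Ymm_2P1.closed W (G0.of W.toBase hc) (KCl.of hK) kz he
    (kok_Y (R := R) (Or.inr rfl) hM kz.z1 kz.z2 (by simp [xv] <;> ring) (by simp [xv] <;> ring) (by simp [xv] <;> ring))
    h0 h1 h2 h3 h4 h5 h6 h7

theorem a_Ymm_2P2 {p a b c J l q : ℤ} {D dl : ℝ} {Cl : ℤ → ℤ → ℤ → ℤ → ℝ → Prop}
    (W : World p a b c J (-1) l q D dl Cl) (hc : -a < c) (hA : Aux p a b (-1) D Cl)
    {N X R : ℤ} {I : ℝ} (hK : KGF p a b (-1) D (P1 l p) Cl N X R I)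
    (hM : KMY p a b (-1) (P1 l p) Cl N (b + (-1 : ℤ) * (X + (-1 : ℤ) * I)))
    (h0 : 1 ≤ -(c : ℝ))
    (h1 : 1 ≤ (a : ℝ) - (b : ℝ))
    (h2 : 1 ≤ 1 - (a : ℝ) + (b : ℝ) - (c : ℝ))
    (h3 : 0 < 1 + 2 * (p : ℝ) - 5 * D)
    (h4 : 1 ≤ 2 * (a : ℝ) - (b : ℝ))
    (h5 : 1 ≤ -1 + (J : ℝ))
    (h6 : 1 ≤ 3 - (J : ℝ))
    (h7 : 0 < -(b : ℝ) + (X : ℝ) + D - I)
    (h8 : 0 < 2 * (X : ℝ) + D - 2 * I) : False := by
  have kz := KF.of hK
  obtain ⟨Ne, Xe, Ie, he⟩ := hA.ecl (a) (by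
    intro h
    have h2 := W.ha
    have h3 := W.h2a
    have h1 := Int.le_of_dvd (by omega) h
    omega)
  exact Helper25.S1T.Ymm_2P2.closed W (G0.of W.toBase hc) (KCl.of hK) kz he
    (kok_Y (R := R) (Or.inr rfl) hM kz.z1 kz.z2 (by simp [xv] <;> ring) (by simp [xv] <;> ring) (by simp [xv] <;> ring))
    h0 h1 h2 h3 h4 h5 h6 h7 h8

theorem a_Ymm_2P3 {p a b c J l q : ℤ} {D dl : ℝ} {Cl : ℤ → ℤ → ℤ → ℤ → ℝ → Prop}
    (W : World p a b c J (-1) l q D dl Cl) (hc : -a < c) (hA : Aux p a b (-1) D Cl)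
    {N X R : ℤ} {I : ℝ} (hK : KGF p a b (-1) D (P1 l p) Cl N X R I)
    (hM : KMY p a b (-1) (P1 l p) Cl N (b + (-1 : ℤ) * (X + (-1 : ℤ) * I)))
    (h0 : 1 ≤ -(c : ℝ))
    (h1 : 1 ≤ (a : ℝ) - (b : ℝ))
    (h2 : 1 ≤ 1 - (a : ℝ) + (b : ℝ) - (c : ℝ))
    (h3 : 0 < -1 + (p : ℝ) - 2 * D)
    (h4 : 0 < 3 - (p : ℝ) + 2 * D)
    (h5 : 0 < 1 + 3 * (J : ℝ) - D)
    (h6 : 1 ≤ 2 * (a : ℝ) - (b : ℝ))
    (h7 : 1 ≤ -2 + (J : ℝ))
    (h8 : 0 < -(b : ℝ) + (X : ℝ) + D - I)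
    (h9 : 0 < 2 * (X : ℝ) + D - 2 * I) : False := by
  have kz := KF.of hK
  obtain ⟨Ne, Xe, Ie, he⟩ := hA.ecl (a) (by
    intro h
    have h2 := W.ha
    have h3 := W.h2a
    have h1 := Int.le_of_dvd (by omega) h
    omega)
  exact Helper25.S1T.Ymm_2P3.closed W (G0.of W.toBase hc) (KCl.of hK) kz he
    (kok_Y (R := R) (Or.inr rfl) hM kz.z1 kz.z2 (by simp [xv] <;> ring) (by simp [xv] <;> ring) (by simp [xv] <;> ring))
    h0 h1 h2 h3 h4 h5 h6 h7 h8 h9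

theorem a_Ymm_2P4b {p a b c J l q : ℤ} {D dl : ℝ} {Cl : ℤ → ℤ → ℤ → ℤ → ℝ → Prop}
    (W : World p a b c J (-1) l q D dl Cl) (hc : -a < c) (hA : Aux p a b (-1) D Cl)
    {N X R : ℤ} {I : ℝ} (hK : KGF p a b (-1) D (P1 l p) Cl N X R I)
    (hM : KMY p a b (-1) (P1 l p) Cl N (b + (-1 : ℤ) * (X + (-1 : ℤ) * I)))
    (h0 : 1 ≤ -(c : ℝ))
    (h1 : 1 ≤ (a : ℝ) - (b : ℝ))
    (h2 : 1 ≤ 1 - (a : ℝ) + (b : ℝ) - (c : ℝ))
    (h3 : 1 ≤ 2 * (a : ℝ) - (b : ℝ))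
    (h4 : 0 < -(b : ℝ) + (X : ℝ) + D - I)
    (h5 : 0 < (J : ℝ) - I)
    (h6 : 0 < -(J : ℝ) + D - I)
    (h7 : 0 < 2 * (X : ℝ) + D - 2 * I) : False := by
  have kz := KF.of hK
  obtain ⟨Nu, Xu, Iu, hu⟩ := hA.ecl (a + 1) (by
    intro h
    have h2 := W.ha
    have h3 := W.h2a
    have h1 := Int.le_of_dvd (by omega) h
    omega)
  obtain ⟨Ne, Xe, Ie, he⟩ := hA.ecl 1 (by
    intro h
    have h2 := W.ha
    have h3 := W.h2a
    have h1 := Int.le_of_dvd (by omega) h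
    omega)
  exact Helper25.S1T.Ymm_2P4b.closed W (G0.of W.toBase hc) (KCl.of hK) kz hu he
    (kok_Y (R := R) (Or.inr rfl) hM kz.z1 kz.z2 (by simp [xv] <;> ring) (by simp [xv] <;> ring) (by simp [xv] <;> ring))
    h0 h1 h2 h3 h4 h5 h6 h7

theorem a_Ymm_2P4a {p a b c J l q : ℤ} {D dl : ℝ} {Cl : ℤ → ℤ → ℤ → ℤ → ℝ → Prop}
    (W : World p a b c J (-1) l q D dl Cl) (hc : -a < c) (hA : Aux p a b (-1) D Cl)
    {N X R : ℤ} {I : ℝ} (hK : KGF p a b (-1) D (P1 l p) Cl N X R I)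
    (hM : KMY p a b (-1) (P1 l p) Cl N (b + (-1 : ℤ) * (X + (-1 : ℤ) * I)))
    (h0 : 1 ≤ -(c : ℝ))
    (h1 : 1 ≤ (a : ℝ) - (b : ℝ))
    (h2 : 1 ≤ 1 - (a : ℝ) + (b : ℝ) - (c : ℝ))
    (h3 : 1 ≤ 2 * (a : ℝ) - (b : ℝ))
    (h4 : 0 < -(b : ℝ) + (X : ℝ) + D - I)
    (h5 : 0 < (J : ℝ) - I)
    (h6 : 0 < (J : ℝ) - D + I)
    (h7 : 0 < 2 * (X : ℝ) + D - 2 * I) : False := by
  have kz := KF.of hK
  obtain ⟨Nu, Xu, Iu, hu⟩ := hA.ecl (a + 1) (by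
    intro h
    have h2 := W.ha
    have h3 := W.h2a
    have h1 := Int.le_of_dvd (by omega) h
    omega)
  obtain ⟨Ne, Xe, Ie, he⟩ := hA.ecl 1 (by
    intro h
    have h2 := W.ha
    have h3 := W.h2a
    have h1 := Int.le_of_dvd (by omega) h
    omega)
  exact Helper25.S1T.Ymm_2P4a.closed W (G0.of W.toBase hc) (KCl.of hK) kz hu he
    (kok_Y (R := R) (Or.inr rfl) hM kz.z1 kz.z2 (by simp [xv] <;> ring) (by simp [xv] <;> ring) (by simp [xv] <;> ring))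
    h0 h1 h2 h3 h4 h5 h6 h7

theorem a_Ymm_2P4c {p a b c J l q : ℤ} {D dl : ℝ} {Cl : ℤ → ℤ → ℤ → ℤ → ℝ → Prop}
    (W : World p a b c J (-1) l q D dl Cl) (hc : -a < c) (hA : Aux p a b (-1) D Cl)
    {N X R : ℤ} {I : ℝ} (hK : KGF p a b (-1) D (P1 l p) Cl N X R I)
    (hM : KMY p a b (-1) (P1 l p) Cl N (b + (-1 : ℤ) * (X + (-1 : ℤ) * I)))
    (h0 : 1 ≤ -(c : ℝ))
    (h1 : 1 ≤ (a : ℝ) - (b : ℝ))
    (h2 : 1 ≤ 1 - (a : ℝ) + (b : ℝ) - (c : ℝ))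
    (h3 : 1 ≤ 2 * (a : ℝ) - (b : ℝ))
    (h4 : 0 < -(b : ℝ) + (X : ℝ) + D - I)
    (h5 : 0 < -(J : ℝ) + I)
    (h6 : 0 < -(J : ℝ) + D - I)
    (h7 : 0 < 2 * (X : ℝ) + D - 2 * I) : False := by
  have kz := KF.of hK
  obtain ⟨Ne, Xe, Ie, he⟩ := hA.ecl (a) (by
    intro h
    have h2 := W.ha
    have h3 := W.h2a
    have h1 := Int.le_of_dvd (by omega) h
    omega)
  exact Helper25.S1T.Ymm_2P4c.closed W (G0.of W.toBase hc) (KCl.of hK) kz he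
    (kok_Y (R := R) (Or.inr rfl) hM kz.z1 kz.z2 (by simp [xv] <;> ring) (by simp [xv] <;> ring) (by simp [xv] <;> ring))
    h0 h1 h2 h3 h4 h5 h6 h7

theorem a_Ymm_2P4dL {p a b c J l q : ℤ} {D dl : ℝ} {Cl : ℤ → ℤ → ℤ → ℤ → ℝ → Prop}
    (W : World p a b c J (-1) l q D dl Cl) (hc : -a < c) (hA : Aux p a b (-1) D Cl)
    {N X R : ℤ} {I : ℝ} (hK : KGF p a b (-1) D (P1 l p) Cl N X R I)
    (hM : KMY p a b (-1) (P1 l p) Cl N (b + (-1 : ℤ) * (X + (-1 : ℤ) * I)))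
    (h0 : 1 ≤ -(c : ℝ))
    (h1 : 1 ≤ (a : ℝ) - (b : ℝ))
    (h2 : 1 ≤ 1 - (a : ℝ) + (b : ℝ) - (c : ℝ))
    (h3 : 0 < 2 * (b : ℝ) - D)
    (h4 : 1 ≤ 2 * (a : ℝ) - (b : ℝ))
    (h5 : 0 < -(b : ℝ) + (X : ℝ) + D - I)
    (h6 : 0 < -(J : ℝ) + I)
    (h7 : 0 < (J : ℝ) - D + I)
    (h8 : 0 < 2 * (X : ℝ) + D - 2 * I) : False := by
  have kz := KF.of hK
  obtain ⟨Ne, Xe, Ie, he⟩ := hA.ecl (a) (by
    intro h
    have h2 := W.ha
    have h3 := W.h2a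
    have h1 := Int.le_of_dvd (by omega) h
    omega)
  exact Helper25.S1T.Ymm_2P4dL.closed W (G0.of W.toBase hc) (KCl.of hK) kz he
    (kok_Y (R := R) (Or.inr rfl) hM kz.z1 kz.z2 (by simp [xv] <;> ring) (by simp [xv] <;> ring) (by simp [xv] <;> ring))
    h0 h1 h2 h3 h4 h5 h6 h7 h8

theorem csd_mm2_1 : CSd (-1) (-1) (Q2 (-1)) true := by
  intro p a b c J l q D dl Cl W hc h0 h1 N X R I g1 g2 g3 hA hP hN hS hX hQ hd
  have m1 : D < 2 * (b : ℝ) := hd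
  have kz := KF.of g1
  have k3 := kz.z1
  have k4 := kz.z2
  have k5 := kz.s1
  have k6 := kz.s2
  have c1 : (1 : ℝ) ≤ -c := by exact_mod_cast (by omega : 1 ≤ -c)
  have b1 : 1 ≤ 2 * (a : ℝ) - b := by exact_mod_cast (by omega : 1 ≤ 2 * a - b)
  have g4 := g3
  push_cast at g4 k3 k4 k5 k6
  have hk := KCl.of g1
  have G := G0.of W.toBase hc
  have G1 := G.a2
  have G2 := G.b2
  have G3 := G.pa
  have G4 := G.pb
  have G5 := G.J1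
  have G6 := G.JD
  have G7 := G.D2
  have G8 := G.ca
  have G9 := G.ca'
  have i1 := kz.I0
  have i2 := kz.ID
  obtain ⟨hQ1, hQ2⟩ := hQ
  have q1 : (b : ℝ) + 1 ≤ a := by exact_mod_cast (by omega : b + 1 ≤ a)
  have q2 : (a : ℝ) ≤ b - c := by exact_mod_cast (by omega : a ≤ b - c)
  rcases hP with ⟨j1, hL⟩ | ⟨p1, p2⟩
  · have j2 : (J : ℝ) = 1 := by exact_mod_cast j1
    exact a_Ymm_2L2 W hc hA g1 g2 (by linarith) (by linarith) (by linarith) (by linarith) (by linarith) (by linarith) (by linarith) (by linarith)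
  · by_cases j1 : J = 1
    · have j2 : (J : ℝ) = 1 := by exact_mod_cast j1
      rw [j2] at p2
      exact a_Ymm_2P1 W hc hA g1 g2 (by linarith) (by linarith) (by linarith) (by linarith) (by linarith) (by linarith) (by linarith) (by linarith)
    by_cases j3 : J = 2
    · have j2 : (J : ℝ) = 2 := by exact_mod_cast j3
      rw [j2] at p2
      exact a_Ymm_2P2 W hc hA g1 g2 (by linarith) (by linarith) (by linarith) (by linarith) (by linarith) (by linarith) (by linarith) (by linarith) (by linarith)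
    have j0 := W.hJ
    have j4 : (3 : ℝ) ≤ J := by exact_mod_cast (by omega : 3 ≤ J)
    rcases lt_or_gt_of_ne (show (p : ℝ) - 2 * D ≠ 3 from fun h => hN (p - 3) (by push_cast; linarith)) with j5 | j5
    · have j6 : D - 1 < 3 * J := by
        have h := mul_lt_mul_of_pos_left j5 (show (0 : ℝ) < J by linarith)
        linarith
      exact a_Ymm_2P3 W hc hA g1 g2 (by linarith) (by linarith) (by linarith) (by linarith) (by linarith) (by linarith) (by linarith) (by linarith) (by linarith) (by linarith)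
    · rcases lt_or_gt_of_ne (fun h => ne_iJ W hk 0 (by push_cast; linarith) : I ≠ (J : ℝ)) with s2 | s2
      · rcases lt_or_gt_of_ne (fun h => ne_iJD W hk 0 (by push_cast; linarith) : I + (J : ℝ) ≠ D) with s3 | s3
        · exact a_Ymm_2P4b W hc hA g1 g2 (by linarith) (by linarith) (by linarith) (by linarith) (by linarith) (by linarith) (by linarith) (by linarith)
        · exact a_Ymm_2P4a W hc hA g1 g2 (by linarith) (by linarith) (by linarith) (by linarith) (by linarith) (by linarith) (by linarith) (by linarith)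
      · rcases lt_or_gt_of_ne (fun h => ne_iJD W hk 0 (by push_cast; linarith) : I + (J : ℝ) ≠ D) with s4 | s4
        · exact a_Ymm_2P4c W hc hA g1 g2 (by linarith) (by linarith) (by linarith) (by linarith) (by linarith) (by linarith) (by linarith) (by linarith)
        · exact a_Ymm_2P4dL W hc hA g1 g2 (by linarith) (by linarith) (by linarith) (by linarith) (by linarith) (by linarith) (by linarith) (by linarith) (by linarith)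

end Helper25.S1T
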