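import Pool.Agent.Helper25.S1T.Ypm_2
import Pool.Agent.Helper25.KG.S1F
import Pool.Agent.Helper25.KW.S1J

set_option autoImplicit false
set_option linter.all false

namespace Helper25.S1T

open Helper25.KG Helper25.KW Helper55.KE Helper11.CT

theorem a_Ypm_2 {p a b c J l q : ℤ} {D dl : ℝ} {Cl : ℤ → ℤ → ℤ → ℤ → ℝ → Prop}
    (W : World p a b c J (-1) l q D dl Cl) (hc : -a < c) (hA : Aux p a b (-1) D Cl)
    {N X R : ℤ} {I : ℝ} (hK : KGF p a b (-1) D (P1 l p) Cl N X R I)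
    (hM : KMY p a b (-1) (P1 l p) Cl N (b + (-1 : ℤ) * (X + (-1 : ℤ) * I)))
    (h0 : 1 ≤ (c : ℝ))
    (h1 : 1 ≤ (a : ℝ) - (b : ℝ))
    (h2 : 1 ≤ 1 - (a : ℝ) + (b : ℝ) + (c : ℝ))
    (h3 : 1 ≤ 2 * (a : ℝ) - (b : ℝ))
    (h4 : 0 < -(b : ℝ) + (X : ℝ) + D - I)
    (h5 : 0 < 2 * (X : ℝ) + D - 2 * I) : False := by
  have kz := KF.of hK
  obtain ⟨Ne, Xe, Ie, he⟩ := hA.ecl 1 (by
    intro h
    have h2 := W.ha
    have h3 := W.h2a
    have h1 := Int.le_of_dvd (by omega) h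
    omega)
  exact Helper25.S1T.Ypm_2.closed W (G0.of W.toBase hc) (KCl.of hK) kz he
    (kok_Y (R := R) (Or.inr rfl) hM kz.z1 kz.z2 (by simp [xv] <;> ring) (by simp [xv] <;> ring) (by simp [xv] <;> ring))
    h0 h1 h2 h3 h4 h5

theorem cys_1_m1_2 : CYs 1 (-1) (Q2 1) := by
  intro p a b c J l q D dl Cl W hc h0 h1 N X R I g1 g2 g3 hA hP hN hQ
  have kz := KF.of g1
  have k3 := kz.z1
  have k4 := kz.z2
  have k5 := kz.s1
  have k6 := kz.s2
  have c1 : (1 : ℝ) ≤ c := by exact_mod_cast (by omega : 1 ≤ c)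
  have b1 : 1 ≤ 2 * (a : ℝ) - b := by exact_mod_cast (by omega : 1 ≤ 2 * a - b)
  have g4 := g3
  push_cast at g4 k3 k4 k5 k6
  have hk := KCl.of g1
  have G := G0.of W.toBase hc
  have G1 := G.a2
  have G2 := G.b2
  have G3 := G.pa
  have G4 := G.pb
  have G5 := G.J1
  have G6 := G.JD
  have G7 := G.D2
  have G8 := G.ca
  have G9 := G.ca'
  have i1 := kz.I0
  have i2 := kz.ID
  obtain ⟨hQ1, hQ2⟩ := hQ
  have q1 : (b : ℝ) + 1 ≤ a := by exact_mod_cast (by omega : b + 1 ≤ a)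
  have q2 : (a : ℝ) ≤ b + c := by exact_mod_cast (by omega : a ≤ b + c)
  exact a_Ypm_2 W hc hA g1 g2 (by linarith) (by linarith) (by linarith) (by linarith) (by linarith) (by linarith)

end Helper25.S1T
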