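import Pool.Agent.Helper25.S1T.Ypm_35a_p0
import Pool.Agent.Helper25.S1T.Ypm_35a_p1
import Pool.Agent.Helper25.S1T.Ypm_35a_p2

set_option autoImplicit false
set_option linter.all false

namespace Helper25.S1T.Ypm_35a

open Helper25.KG Helper25.KW Helper55.KE Helper11.CT

noncomputable def t4 : Tre :=
  .Q [0,0,0,0,0,-1,0,0,0,0,1] (.ed false [1,-1,1] .k) t2 t3

theorem ok4 : chk K t4 l5 = true :=
  chk_Q (e' := [0,0,0,0,0,1,0,0,0,0,-1]) (by decide +kernel) (by decide +kernel) ok2 ok3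

noncomputable def t6 : Tre :=
  .Q [0,0,0,0,0,0,-1,-1,0,0,1] (.p true [0,0,1] [] (⟨0,[(17,0)]⟩,⟨0,[(16,0)]⟩) .k 0 (⟨0,[]⟩,⟨0,[]⟩)
  .k .k) t4 t5

theorem ok6 : chk K t6 r4 = true :=
  chk_Q (e' := [0,0,0,0,0,0,1,1,0,0,-1]) (by decide +kernel) (by decide +kernel) ok4 ok5

noncomputable def t7 : Tre :=
  .Q [0,-1,0,1,0,0,-1,-1,0,0,1] (.p true [0,0,1] [] (⟨0,[(16,0)]⟩,⟨0,[(15,0)]⟩) .k 0 (⟨0,[]⟩,⟨0,
  []⟩) .k .k) t1 t6

theorem ok7 : chk K t7 l3 = true :=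
  chk_Q (e' := [0,1,0,-1,0,0,1,1,0,0,-1]) (by decide +kernel) (by decide +kernel) ok1 ok6

noncomputable def t9 : Tre :=
  .I [0,0,1,1,-1,0,0,-1] t7 t8

theorem ok9 : chk K t9 l2 = true :=
  chk_I (e' := [1,0,-1,-1,1,0,0,1]) (by decide +kernel) (by decide +kernel) ok7 ok8

noncomputable def t13 : Tre :=
  .Q [0,-1,-1,-1,1,0,-1,0,0,0,1] (.p true [0,0,1] [] (⟨0,[(18,0)]⟩,⟨0,[(17,0)]⟩) .k 0 (⟨0,[]⟩,⟨0,
  []⟩) .k .k) t11 t12

theorem ok13 : chk K t13 r9 = true :=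
  chk_Q (e' := [0,1,1,1,-1,0,1,0,0,0,-1]) (by decide +kernel) (by decide +kernel) ok11 ok12

noncomputable def t14 : Tre :=
  .I [1,0,0,1,0,0,0,1] t10 t13

theorem ok14 : chk K t14 l8 = true :=
  chk_I (e' := [0,0,0,-1,0,0,0,-1]) (by decide +kernel) (by decide +kernel) ok10 ok13

noncomputable def t24 : Tre :=
  .Q [0,-1,0,2,0,0,-1,-1,0,0,1] (.p true [0,0,1] [] (⟨0,[(29,0)]⟩,⟨0,[(28,0)]⟩) .k 0 (⟨0,[]⟩,⟨0,
  []⟩) .k .k) t22 t23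

theorem ok24 : chk K t24 r22 = true :=
  chk_Q (e' := [0,1,0,-2,0,0,1,1,0,0,-1]) (by decide +kernel) (by decide +kernel) ok22 ok23

noncomputable def t25 : Tre :=
  .Q [0,0,-2,0,1,0,-1,0,0,0,1] (.p true [0,0,1] [] (⟨0,[(28,0)]⟩,⟨0,[(27,0)]⟩) .k 0 (⟨0,[]⟩,⟨0,[]⟩)
  .k .k) t21 t24

theorem ok25 : chk K t25 r21 = true :=
  chk_Q (e' := [0,0,2,0,-1,0,1,0,0,0,-1]) (by decide +kernel) (by decide +kernel) ok21 ok24

noncomputable def t26 : Tre :=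
  .I [0,-1,0,1,0,0,0,-1] t20 t25

theorem ok26 : chk K t26 r20 = true :=
  chk_I (e' := [1,1,0,-1,0,0,0,1]) (by decide +kernel) (by decide +kernel) ok20 ok25

noncomputable def t27 : Tre :=
  .Q [0,-1,0,1,0,0,1,1,0,1,-1] (.p false [0,0,1] [1] (⟨0,[(26,0)]⟩,⟨0,[(25,0)]⟩) .k 1 (⟨0,[]⟩,⟨0,
  []⟩) .k .k) t19 t26

theorem ok27 : chk K t27 l19 = true :=
  chk_Q (e' := [0,1,0,-1,0,0,-1,-1,0,-1,1]) (by decide +kernel) (by decide +kernel) ok19 ok26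

noncomputable def t29 : Tre :=
  .Q [0,0,1,0,-1,0,1,0,0,1,-1] (.p false [0,0,1] [1] (⟨0,[(25,0)]⟩,⟨0,[(24,0)]⟩) .k 1 (⟨0,[]⟩,⟨0,
  []⟩) .k .k) t27 t28

theorem ok29 : chk K t29 r18 = true :=
  chk_Q (e' := [0,0,-1,0,1,0,-1,0,0,-1,1]) (by decide +kernel) (by decide +kernel) ok27 ok28

noncomputable def t30 : Tre :=
  .Q [0,-1,0,-1,1,0,0,0,0,-1] (.pp true [-1,1]) t18 t29

theorem ok30 : chk K t30 r17 = true :=
  chk_Q (e' := [0,1,0,1,-1,0,0,0,0,1]) (by decide +kernel) (by decide +kernel) ok18 ok29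

noncomputable def t31 : Tre :=
  .I [0,-1,-1,0,1,0,0,1] t17 t30

theorem ok31 : chk K t31 r16 = true :=
  chk_I (e' := [1,1,1,0,-1,0,0,-1]) (by decide +kernel) (by decide +kernel) ok17 ok30

noncomputable def t32 : Tre :=
  .Q [0,0,0,1,0,0,1,1,0,0,-1] (.p false [0,0,1] [] (⟨0,[(22,0)]⟩,⟨0,[(21,0)]⟩) .k 0 (⟨0,[]⟩,⟨0,[]⟩)
  .k .k) t16 t31

theorem ok32 : chk K t32 l15 = true :=
  chk_Q (e' := [0,0,0,-1,0,0,-1,-1,0,0,1]) (by decide +kernel) (by decide +kernel) ok16 ok31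

noncomputable def t34 : Tre :=
  .I [0,1,-2,-2,1] t32 t33

theorem ok34 : chk K t34 l14 = true :=
  chk_I (e' := [1,-1,2,2,-1]) (by decide +kernel) (by decide +kernel) ok32 ok33

noncomputable def t36 : Tre :=
  .Q [0,1,0,-1,0,0,1,1,0,0,-1] (.p false [0,0,1] [] (⟨0,[(20,0)]⟩,⟨0,[(19,0)]⟩) .k 0 (⟨0,[]⟩,⟨0,
  []⟩) .k .k) t34 t35

theorem ok36 : chk K t36 r13 = true :=
  chk_Q (e' := [0,-1,0,1,0,0,-1,-1,0,0,1]) (by decide +kernel) (by decide +kernel) ok34 ok35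

noncomputable def t37 : Tre :=
  .Q [0,0,1,0,0,0,0,0,0,-1] (.pp true [-1,1]) t15 t36

theorem ok37 : chk K t37 l12 = true :=
  chk_Q (e' := [0,0,-1,0,0,0,0,0,0,1]) (by decide +kernel) (by decide +kernel) ok15 ok36

noncomputable def t39 : Tre :=
  .I [1,0,1,0,0,0,0,1] t37 t38

theorem ok39 : chk K t39 l11 = true :=
  chk_I (e' := [0,0,-1,0,0,0,0,-1]) (by decide +kernel) (by decide +kernel) ok37 ok38

noncomputable def t42 : Tre :=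
  .I [1,1,2,1,-1,0,0,-1] t40 t41

theorem ok42 : chk K t42 l28 = true :=
  chk_I (e' := [0,-1,-2,-1,1,0,0,1]) (by decide +kernel) (by decide +kernel) ok40 ok41

noncomputable def t44 : Tre :=
  .I [1,-1,-2,-1,1] t42 t43

theorem ok44 : chk K t44 l27 = true :=
  chk_I (e' := [0,1,2,1,-1]) (by decide +kernel) (by decide +kernel) ok42 ok43

noncomputable def t46 : Tre :=
  .Q [0,0,-2,0,1,0,-1,0,0,0,1] (.p true [0,0,1] [] (⟨0,[(21,0)]⟩,⟨0,[(20,0)]⟩) .k 0 (⟨0,[]⟩,⟨0,[]⟩)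
  .k .k) t44 t45

theorem ok46 : chk K t46 l26 = true :=
  chk_Q (e' := [0,0,2,0,-1,0,1,0,0,0,-1]) (by decide +kernel) (by decide +kernel) ok44 ok45

noncomputable def t48 : Tre :=
  .Q [0,0,0,-1,0,0,1,1,0,0,-1] (.p false [0,0,1] [] (⟨0,[(20,0)]⟩,⟨0,[(19,0)]⟩) .k 0 (⟨0,[]⟩,⟨0,
  []⟩) .k .k) t46 t47

theorem ok48 : chk K t48 l25 = true :=
  chk_Q (e' := [0,0,0,1,0,0,-1,-1,0,0,1]) (by decide +kernel) (by decide +kernel) ok46 ok47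

noncomputable def t50 : Tre :=
  .Q [0,1,0,-1,0,0,1,1,0,0,-1] (.p false [0,0,1] [] (⟨0,[(19,0)]⟩,⟨0,[(18,0)]⟩) .k 0 (⟨0,[]⟩,⟨0,
  []⟩) .k .k) t48 t49

theorem ok50 : chk K t50 l24 = true :=
  chk_Q (e' := [0,-1,0,1,0,0,-1,-1,0,0,1]) (by decide +kernel) (by decide +kernel) ok48 ok49

noncomputable def t52 : Tre :=
  .Q [0,1,-1,-1,0,0,1,0,0,0,-1] (.p false [0,0,1] [] (⟨0,[(18,0)]⟩,⟨0,[(17,0)]⟩) .k 0 (⟨0,[]⟩,⟨0,
  []⟩) .k .k) t50 t51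

theorem ok52 : chk K t52 r11 = true :=
  chk_Q (e' := [0,-1,1,1,0,0,-1,0,0,0,1]) (by decide +kernel) (by decide +kernel) ok50 ok51

noncomputable def t53 : Tre :=
  .Q [0,0,0,0,0,-1,0,0,0,1,-1] (.ed true [0,1,1] .k) t39 t52

theorem ok53 : chk K t53 r8 = true :=
  chk_Q (e' := [0,0,0,0,0,1,0,0,0,-1,1]) (by decide +kernel) (by decide +kernel) ok39 ok52

noncomputable def t54 : Tre :=
  .Q [0,0,0,0,0,1,0,0,0,0,-1] (.ed true [1,-1,1] .k) t14 t53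

theorem ok54 : chk K t54 l7 = true :=
  chk_Q (e' := [0,0,0,0,0,-1,0,0,0,0,1]) (by decide +kernel) (by decide +kernel) ok14 ok53

noncomputable def t56 : Tre :=
  .Q [0,0,0,0,0,0,1,0,0,0,-1] (.p false [0,0,1] [] (⟨0,[(15,0)]⟩,⟨0,[(14,0)]⟩) .k 0 (⟨0,[]⟩,⟨0,[]⟩)
  .k .k) t54 t55

theorem ok56 : chk K t56 r2 = true :=
  chk_Q (e' := [0,0,0,0,0,0,-1,0,0,0,1]) (by decide +kernel) (by decide +kernel) ok54 ok55

noncomputable def t57 : Tre :=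
  .I [1,0,1,1,-1,0,0,-1] t9 t56

theorem ok57 : chk K t57 l1 = true :=
  chk_I (e' := [0,0,-1,-1,1,0,0,1]) (by decide +kernel) (by decide +kernel) ok9 ok56

noncomputable def t61 : Tre :=
  .Q [0,0,0,0,0,-1,0,0,0,0,1] (.ed false [1,-1,1] .k) t59 t60

theorem ok61 : chk K t61 r31 = true :=
  chk_Q (e' := [0,0,0,0,0,1,0,0,0,0,-1]) (by decide +kernel) (by decide +kernel) ok59 ok60

noncomputable def t62 : Tre :=
  .I [1,0,1,1,-1,0,0,1] t58 t61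

theorem ok62 : chk K t62 l30 = true :=
  chk_I (e' := [0,0,-1,-1,1,0,0,-1]) (by decide +kernel) (by decide +kernel) ok58 ok61

noncomputable def t64 : Tre :=
  .I [0,0,0,0,0,0,0,1] t62 t63

theorem ok64 : chk K t64 r1 = true :=
  chk_I (e' := [1,0,0,0,0,0,0,-1]) (by decide +kernel) (by decide +kernel) ok62 ok63

noncomputable def t65 : Tre :=
  .I [0,0,0,0,0,0,0,-1] t57 t64

theorem ok65 : chk K t65 r0 = true :=
  chk_I (e' := [1,0,0,0,0,0,0,1]) (by decide +kernel) (by decide +kernel) ok57 ok64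

noncomputable def t66 : Tre :=
  .I [1,-1,1,1,-1,0,0,-1] t0 t65

theorem ok66 : chk K t66 base = true :=
  chk_I (e' := [0,1,-1,-1,1,0,0,1]) (by decide +kernel) (by decide +kernel) ok0 ok65

theorem closed {p a b c J l q : ℤ} {D dl : ℝ} {Cl : ℤ → ℤ → ℤ → ℤ → ℝ → Prop}
    (W : World p a b c J (-1) l q D dl Cl) (g : G0 p a b c J D)
    {N X R : ℤ} {I : ℝ} (hk : KCl p l Cl N X R I) (kz : KF a b D (X + (-1 : ℤ) * I) (X + (-1 : ℤ) * I + R) I)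
    {Ne Xe : ℤ} {Ie : ℝ} (he : EFac p (-1) D Cl 1 Ne Xe Ie)
    (hkf : ∀ kf ∈ (kfY (-1) [0,0,0,0,0,0,1,0,0,0,-1]), KOk p l Cl (-1)
      (xv [1, a, b, c, p, J, X, R, Xe] [D, I, Ie]) N kf)
    (h0 : 1 ≤ (c : ℝ))
    (h1 : 1 ≤ 1 - (a : ℝ) + (b : ℝ))
    (h2 : 1 ≤ 2 * (a : ℝ) - (b : ℝ))
    (h3 : 1 ≤ 2 * (a : ℝ) - (b : ℝ))
    (h4 : 0 < -(b : ℝ) + (X : ℝ) + D - I)
    (h5 : 0 < -1 + (p : ℝ) - 2 * D)
    (h6 : 0 < 2 * (X : ℝ) + D - 2 * I) : False := by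
  have g1 := g.a2
  have g2 := g.b2
  have g3 := g.pa
  have g4 := g.pb
  have g5 := g.J1
  have g6 := g.JD
  have g7 := g.D2
  have g8 := g.ca
  have g9 := g.ca'
  have k1 := kz.I0
  have k2 := kz.ID
  have k3 := kz.z1
  have k4 := kz.z2
  have k5 := kz.s1
  have k6 := kz.s2
  have e1 := he.I0
  have e2 := he.ID
  have e3 := he.x0
  have e4 := he.xp
  push_cast at *
  refine (val_E W.toBase hk he (row := [1]) (by simp) (by simp) (kfY (-1) [0,0,0,0,0,0,1,0,0,0,-1])).sound W rfl (Nk := N)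
    (fun kf _ _ => ⟨_, rfl⟩) hkf ?_ ok66
  · simp only [base, List.forall_mem_cons, List.not_mem_nil, false_imp_iff, implies_true,
      and_true, hld, xv, evg_cons, evg_nil, List.map_cons, List.map_nil, List.cons_append,
      List.nil_append, if_true, if_false, Bool.false_eq_true]
    push_cast
    refine ⟨?_, ?_, ?_, ?_, ?_, ?_, ?_, ?_, ?_, ?_, ?_, ?_, ?_, ?_, ?_, ?_, ?_, ?_, ?_, ?_, ?_, ?_, ?_, ?_, ?_⟩ <;> linarith

end Helper25.S1T.Ypm_35a
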