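import Pool.Agent.Helper25.S1T.Zmm1C
import Pool.Agent.Helper25.KW.S1K2

set_option autoImplicit false
set_option linter.all false

namespace Helper25.S1T

open Helper25.KG Helper25.KW Helper55.KE Helper11.CT

theorem g_Zmm1C {p a b c J l q : ℤ} {D dl : ℝ} {Cl : ℤ → ℤ → ℤ → ℤ → ℝ → Prop}
    (W : World p a b c J (-1) l q D dl Cl) (hc : -a < c) (hA : Aux p a b (-1) D Cl)
    {N X R : ℤ} {I : ℝ} (hK : KGF p a b (-1) D (P1 l p) Cl N X R I)
    (hN0 : KNo p a b l (-1) Cl (fun X R I => Zx (-1) X R I ∧ Zy b (-1) D X R I))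
    (h0 : 1 ≤ -(c : ℝ))
    (h1 : 1 ≤ (a : ℝ) - (b : ℝ) + (c : ℝ))
    (h2 : 0 < 2 * (b : ℝ) - D)
    (h3 : 1 ≤ 2 * (a : ℝ) - (b : ℝ))
    (h4 : 0 < (X : ℝ) - I)
    (h5 : 0 < -(b : ℝ) + (X : ℝ) + D - I)
    (h6 : 0 < (J : ℝ) - D + I) : False := by
  have kz := KF.of hK
  obtain ⟨Ne, Xe, Ie, he⟩ := hA.ecl (a) (by
    first
      | have x1 : b + 1 ≤ a := by exact_mod_cast (by linarith : (b : ℝ) + 1 ≤ a)
      | skip
    first
      | have x2 : 1 ≤ c := by exact_mod_cast (by linarith : (1 : ℝ) ≤ c)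
      | have x2 : 1 ≤ -c := by exact_mod_cast (by linarith : (1 : ℝ) ≤ -c)
      | skip
    rintro ⟨w, hw⟩
    have h2 := W.ha
    have h3 := W.h2a
    have h4 := W.hb
    have h5 := W.h2b
    have h6 := hc
    have h7 := W.hca'
    have h8 : w < 1 := by
      by_contra hcon
      have : p * 1 ≤ p * w := mul_le_mul_of_nonneg_left (not_lt.mp hcon) (by omega)
      omega
    have h9 : -1 < w := by
      by_contra hcon
      have : p * w ≤ p * (-1) := mul_le_mul_of_nonneg_left (not_lt.mp hcon) (by omega)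
      omega
    have h10 : w = 0 := by omega
    subst h10
    omega)
  refine Helper25.S1T.Zmm1C.closed W (G0.of W.toBase hc) (KCl.of hK) kz he hN0
    h0 h1 h2 h3 h4 h5 h6

alias z_Zmm1C := g_Zmm1C

end Helper25.S1T
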