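import Pool.Agent.Helper81.PC.C3N
import Pool.Agent.Helper25.KG.C3
import Pool.Agent.Helper25.KG.Cfg3

set_option autoImplicit false
set_option linter.all false

namespace Helper25.S1T.Zpm1I1_r16

open Helper25.KG Helper11.CT

noncomputable def K : Cls :=
  dE (-1) [1]

noncomputable def KFs : List KF3 :=
  [(1, (0, 0, -1, [0,0,0,0,0,0,0,0,0,0,1]) :: (bx3 ++ [(1, 0, 0, []), (1, 0, 0, [0,0,-1,0,0,0,0,0,0,1])])),
    (0, bx3 ++ [(-1, 0, 0, []), (1, 0, 0, [0,0,-1,0,0,0,0,0,0,1])]),
    (0, bx3 ++ [(0, 0, -1, [0,0,0,0,0,-1,0,0,0,1]), (1, 0, 0, [0,0,-1,0,0,0,0,0,0,1])]),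
    (0, bx3 ++ [(0, 0, -1, [0,0,0,0,0,1]), (1, 0, 0, [0,0,-1,0,0,0,0,0,0,1])])]

noncomputable def base : List Con :=
  [(false,[0,0,-2,0,0,0,1,0,0,1,-1]),
  (false,[0,0,0,0,0,0,-1,-1,0,-1,1]),
  (false,[0,0,0,0,1,0,-1,0,0,-2,1]),
  (true,[0,0,0,1,0,0,0,-1]),
  (true,[1,-1,-2,-1,1]),
  (false,[0,-1,0,-2,1,0,0,0,0,-1]),
  (true,[0,1,-1,0,0,0,0,-1]),
  (true,[0,0,1,1,0,0,0,1]),
  (false,[0,-1,0,1,0,0,0,0,0,1]),
  (false,[0,0,0,0,0,2,0,0,0,-1]),
  (false,[0,0,-1,0,0,0,1,0,0,1,-1]),
  (false,[0,0,0,0,0,0,1,0,0,0,-1]),
  (false,[0,0,0,0,0,1,0,0,0,-1,1]),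
  (false,[0,0,0,0,0,-1,0,0,0,0,1]),
  (false,[0,0,0,0,1,0,0,0,-1,0,0,1]),
  (false,[0,0,0,0,0,0,0,0,1,0,0,-1]),
  (false,[0,0,0,0,0,0,0,0,0,1,0,-1]),
  (false,[0,0,0,0,0,0,0,0,0,0,0,1]),
  (false,[0,1,0,0,0,0,1,1,0,0,-1]),
  (false,[0,1,0,0,0,0,-1,-1,0,0,1]),
  (false,[0,0,1,0,0,0,1,0,0,0,-1]),
  (false,[0,0,1,0,0,0,-1,0,0,0,1]),
  (false,[0,0,0,0,0,0,0,0,0,1,-1]),
  (false,[0,0,0,0,0,0,0,0,0,0,1]),
  (false,[0,0,0,0,1,0,0,0,0,-2]),
  (false,[0,0,0,0,0,-1,0,0,0,1]),
  (true,[0,0,0,0,0,1]),
  (true,[0,2,-1]),
  (false,[0,0,2,0,0,0,0,0,0,-1]),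
  (true,[0,1,-1,-1]),
  (true,[0,1,0,-1]),
  (true,[0,0,0,1]),
  (true,[0,0,-2,0,1]),
  (true,[0,-2,0,0,1]),
  (true,[-1,0,1]),
  (true,[-1,1])]

open Helper55.PC in
noncomputable def t0n : Helper55.PC.Ten :=
  (i 324478944413463240949628005122056 (r
  24499617720032514345616335364102733342098849134217239310867026053498223638378843282522692871858525021379032238981912700602839755826454113229724732995409054994190357675520217095965023036401699452569829168524002662598070605530622403134943871379867827262650686453668667467436128747306691616258908154777373324678929655771610411157185290097235976198950395738778479782013446041341379597298802644476969710347979043306344078248836177931057113904996032)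
  (q 29644697177811245897075394634204666873789277214187552628700543492229739208376332 (k
  2569052791438865311706330135089102716247975718418062757638527860534250788155399038626415813732999245800830365164285487435342222694067900449971211264612314633064693577677088573062142812035813259815159774348329)
  (q 29644810256023444369818322243849756106310614949576641629705588689110744531337196 (q
  3435948116351960425414377728340042161594376621852373155852 (r
  4199356506767497830592026138717441002277308141250562953315865107115549854633092376773418352312161818984739212017186854380887566401123871667602066137332544274997992246504542093196866510009179009061660916029345588240419926345728031951409321472193329629736905362612610055845592027828457343127239634802467974933497925044678635989225452155721650710638543046479261631349554447501674280431842302053090442420787560579306136871994100506425610709217352542123379253085662190643438040378181460489242486332684132163936)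
  (q 29645036412447841315304177463116549117908324537947760604027628659718170555580396 (r
  2341290947661663673941839080486328536679425404266239242884450963968420018484512992094364678612103716463660121667313815903557809497335066693539905090212537391930428692417087364923096855424152708989046820467741270900373906054903185668369908306444483214983112644061218462108776937963586521565392353106279043669845769065632802301213781491185567465094520906863233487125266227737698173221067385162872221380613282117262296847410924040700521044234192770099556269632238729500988790189318426633596587529976130607544421376613139501458198894953727546934714176)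
  (r
  1447990085905934275680506324620006354954344708072282541391484534120061848855144312247751540199667566851260289469418538189068922138528579208925228803284284635624977071121640858888283123236258477397160145654858802986218521393684934755317121420688576116698528216648412143094267429100080878929151848574462023504387965097576145796696493586384447805907116702972559165370587173263131528441331739501050991609878377170709211104677986235891099098016677180197631466396950425038826601595398071692824664871462634207256112125939192631459877266429236510135779833301166203744)))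
  (q 29644923334235642842561249853483152612109469743762201116866608746480848748019692 (r
  1226493229988819110756115413283909484192136392252914977672755103291181241270788862575845490591085095956852097517535545442936484279372462668487404013416565745511822868213728667188378412160413239664231627020848552261007983911970103225519940300682468896452496762434445513355345338273453744276396878934233086400506011943714696477396941989939084536054898683942034438613395829307186103216158420165661948395214289718467408820269468959144618409519738278750395794536815926522286036223689512644564897165029511302601196494936634929277685533005046400)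
  (r
  5267748311567384526361779484648672413606898493480910142623236588605858168191084899810062030660176426637710309233370445272554580294939505038509871963610635546668712246587494229035932913895018888621610959274084120949119874127742635697275679790991785720742007017105077252147583428933880900559497669429360476798875470609348285673903556832662739570842416892535309805432969135699757139940656670046095583604291740731184174322426641265336632397262292791266592587088234065582501174821547715298692925246942853218443646896219382782786973836883565981677118080)))))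

noncomputable def t0 : Tre := Helper55.PC.toT t0n

theorem ok0 : chk3 K KFs t0 base = true :=
  Helper81.PC.chk3N_sound K KFs t0n base (by decide +kernel)

open Helper25.KW Helper55.KE in
theorem closed {p a b c J l q : ℤ} {D dl : ℝ} {Cl : ℤ → ℤ → ℤ → ℤ → ℝ → Prop}
    (W : World p a b c J (-1) l q D dl Cl) (g : G0 p a b c J D)
    {N X R : ℤ} {I : ℝ} (hk : KCl p l Cl N X R I) (kz : KF a b D (X + (-1 : ℤ) * I) (X + (-1 : ℤ) * I + R) I)
    {Ne Xe : ℤ} {Ie : ℝ} (he : EFac p (-1) D Cl 1 Ne Xe Ie)
    (hE : KZ p a b l (-1) Cl (fun X R I => Zp (-1) X R I ∧ Zy b (-1) D X R I) N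
      (fun _ _ I => I) I)
    (hN0 : KNo p a b l (-1) Cl (fun X R I => Zx (-1) X R I ∧ Zy b (-1) D X R I))
    (hN1 : KNo p a b l (-1) Cl (fun X R I => ZiD D J X R I ∧ Zy b (-1) D X R I))
    (hN2 : KNo p a b l (-1) Cl (fun X R I => Zi J X R I ∧ Zy b (-1) D X R I))
    (h0 : 1 ≤ (c : ℝ))
    (h1 : 1 ≤ (a : ℝ) - (b : ℝ) - (c : ℝ))
    (h2 : 0 < 2 * (b : ℝ) - D)
    (h3 : 1 ≤ 2 * (a : ℝ) - (b : ℝ))
    (h4 : 0 < -(J : ℝ) + I)
    (h5 : 0 < (J : ℝ) - D + I)
    (h6 : 0 < (X : ℝ) - I)
    (h7 : 0 < -(b : ℝ) + (X : ℝ) + D - I)
    (h8 : 0 < 2 * (J : ℝ) - D)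
    (h9 : 0 < -(a : ℝ) + (c : ℝ) + D)
    (h10 : 1 ≤ (b : ℝ) + (c : ℝ) + (R : ℝ))
    (h11 : 1 ≤ (a : ℝ) - (b : ℝ) - (R : ℝ))
    (h12 : 0 < -(a : ℝ) - 2 * (c : ℝ) + (p : ℝ) - D)
    (h13 : 1 ≤ 1 - (a : ℝ) - 2 * (b : ℝ) - (c : ℝ) + (p : ℝ))
    (h14 : 1 ≤ (c : ℝ) - (R : ℝ))
    (h15 : 0 < (p : ℝ) - (X : ℝ) - 2 * D + I)
    (h16 : 0 < -(X : ℝ) - (R : ℝ) - D + I)
    (h17 : 0 < -2 * (b : ℝ) + (X : ℝ) + D - I) : False := by
  have g1 := g.a2
  have g2 := g.b2
  have g3 := g.pa
  have g4 := g.pb
  have g5 := g.J1
  have g6 := g.JD
  have g7 := g.D2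
  have g8 := g.ca
  have g9 := g.ca'
  have k1 := kz.I0
  have k2 := kz.ID
  have k3 := kz.z1
  have k4 := kz.z2
  have k5 := kz.s1
  have k6 := kz.s2
  have e1 := he.I0
  have e2 := he.ID
  have e3 := he.x0
  have e4 := he.xp
  have hkf : ∀ kf ∈ KFs, KOk3 p l Cl (-1) (xv [1, a, b, c, p, J, X, R, Xe] [D, I, Ie]) N kf := by
    have hA : evg (xv [1, a, b, c, p, J, X, R, Xe] [D, I, Ie]) [0, 1] = a := by
      simp only [evg_cons, evg_nil, xv, List.map_cons, List.map_nil, List.cons_append, List.nil_append]
      push_cast
      ring
    have hB : evg (xv [1, a, b, c, p, J, X, R, Xe] [D, I, Ie]) [0, 0, 1] = b := by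
      simp only [evg_cons, evg_nil, xv, List.map_cons, List.map_nil, List.cons_append, List.nil_append]
      push_cast
      ring
    simp only [KFs, List.forall_mem_cons]
    refine ⟨kok3_ex hA hB hE ?_ ?_, kok3_no hA hB N hN0 ?_, kok3_no hA hB N hN1 ?_, kok3_no hA hB N hN2 ?_, fun _ h => absurd h (by simp)⟩
    · intro X' R' I' hg
      simp only [evg_cons, evg_nil, xv, List.map_cons, List.map_nil, List.cons_append, List.nil_append] at hg ⊢
      push_cast at hg ⊢
      linarith
    · intro X' R' I' _ hg
      simp only [List.forall_mem_cons, List.not_mem_nil, false_imp_iff, implies_true, and_true,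
        evg_cons, evg_nil, xv, List.map_cons, List.map_nil, List.cons_append, List.nil_append] at hg
      push_cast at hg
      simp only [Zx, Zp, Zs, Zsp, Zi, ZiD, Zy]
      push_cast
      refine ⟨?_, ?_⟩ <;> linarith [hg.1, hg.2]
    · intro X' R' I' _ hg
      simp only [List.forall_mem_cons, List.not_mem_nil, false_imp_iff, implies_true, and_true,
        evg_cons, evg_nil, xv, List.map_cons, List.map_nil, List.cons_append, List.nil_append] at hg
      push_cast at hg
      simp only [Zx, Zp, Zs, Zsp, Zi, ZiD, Zy]
      push_cast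
      refine ⟨?_, ?_⟩ <;> linarith [hg.1, hg.2]
    · intro X' R' I' _ hg
      simp only [List.forall_mem_cons, List.not_mem_nil, false_imp_iff, implies_true, and_true,
        evg_cons, evg_nil, xv, List.map_cons, List.map_nil, List.cons_append, List.nil_append] at hg
      push_cast at hg
      simp only [Zx, Zp, Zs, Zsp, Zi, ZiD, Zy]
      push_cast
      refine ⟨?_, ?_⟩ <;> linarith [hg.1, hg.2]
    · intro X' R' I' _ hg
      simp only [List.forall_mem_cons, List.not_mem_nil, false_imp_iff, implies_true, and_true,
        evg_cons, evg_nil, xv, List.map_cons, List.map_nil, List.cons_append, List.nil_append] at hg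
      push_cast at hg
      simp only [Zx, Zp, Zs, Zsp, Zi, ZiD, Zy]
      push_cast
      refine ⟨?_, ?_⟩ <;> linarith [hg.1, hg.2]
  push_cast at *
  refine sound3 (val_E W.toBase hk he (row := [1]) (by simp) (by simp) []) W rfl (Nk := N)
    (fun kf _ _ => ⟨_, rfl⟩) hkf ok0 ?_
  · simp only [base, List.forall_mem_cons, List.not_mem_nil, false_imp_iff, implies_true,
      and_true, hld, xv, evg_cons, evg_nil, List.map_cons, List.map_nil, List.cons_append,
      List.nil_append, if_true, if_false, Bool.false_eq_true]
    push_cast
    refine ⟨?_, ?_, ?_, ?_, ?_, ?_, ?_, ?_, ?_, ?_, ?_, ?_, ?_, ?_, ?_, ?_, ?_, ?_, ?_, ?_, ?_, ?_, ?_, ?_, ?_, ?_, ?_, ?_, ?_, ?_, ?_, ?_, ?_, ?_, ?_, ?_⟩ <;> linarith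

end Helper25.S1T.Zpm1I1_r16
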