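import Pool.Agent.Helper81.PC.C3N
import Pool.Agent.Helper25.KG.C3
import Pool.Agent.Helper25.KG.Cfg3

set_option autoImplicit false
set_option linter.all false

namespace Helper25.S1T.Zpm1I1_r3

open Helper25.KG Helper11.CT

noncomputable def K : Cls :=
  dE (-1) [0,1]

noncomputable def KFs : List KF3 :=
  [(1, (0, 0, -1, [0,0,0,0,0,0,0,0,0,0,1]) :: (bx3 ++ [(1, 0, 0, []), (1, 0, 0, [0,0,-1,0,0,0,0,0,0,1])])),
    (0, bx3 ++ [(-1, 0, 0, []), (1, 0, 0, [0,0,-1,0,0,0,0,0,0,1])]),
    (0, bx3 ++ [(0, 0, -1, [0,0,0,0,0,-1,0,0,0,1]), (1, 0, 0, [0,0,-1,0,0,0,0,0,0,1])]),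
    (0, bx3 ++ [(0, 0, -1, [0,0,0,0,0,1]), (1, 0, 0, [0,0,-1,0,0,0,0,0,0,1])])]

noncomputable def base : List Con :=
  [(false,[0,0,0,2,-1,0,-1,-1,0,0,1]),
  (true,[1,1,-1,0,0,0,0,1]),
  (false,[0,0,0,0,0,0,-1,-1,0,-1,1]),
  (true,[0,0,0,1,0,0,0,-1]),
  (false,[0,0,0,0,1,0,-1,0,0,-2,1]),
  (false,[0,1,0,1,-1,0,0,0,0,1]),
  (false,[0,1,0,2,-1,0,0,0,0,1]),
  (true,[0,1,-1,0,0,0,0,-1]),
  (true,[0,0,1,1,0,0,0,1]),
  (false,[0,-1,0,1,0,0,0,0,0,1]),
  (false,[0,0,0,0,0,2,0,0,0,-1]),
  (false,[0,0,-1,0,0,0,1,0,0,1,-1]),
  (false,[0,0,0,0,0,0,1,0,0,0,-1]),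
  (false,[0,0,0,0,0,1,0,0,0,-1,1]),
  (false,[0,0,0,0,0,-1,0,0,0,0,1]),
  (false,[0,0,0,0,1,0,0,0,-1,0,0,1]),
  (false,[0,0,0,0,0,0,0,0,1,0,0,-1]),
  (false,[0,0,0,0,0,0,0,0,0,1,0,-1]),
  (false,[0,0,0,0,0,0,0,0,0,0,0,1]),
  (false,[0,1,0,0,0,0,1,1,0,0,-1]),
  (false,[0,1,0,0,0,0,-1,-1,0,0,1]),
  (false,[0,0,1,0,0,0,1,0,0,0,-1]),
  (false,[0,0,1,0,0,0,-1,0,0,0,1]),
  (false,[0,0,0,0,0,0,0,0,0,1,-1]),
  (false,[0,0,0,0,0,0,0,0,0,0,1]),
  (false,[0,0,0,0,1,0,0,0,0,-2]),
  (false,[0,0,0,0,0,-1,0,0,0,1]),
  (true,[0,0,0,0,0,1]),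
  (true,[0,2,-1]),
  (false,[0,0,2,0,0,0,0,0,0,-1]),
  (true,[0,1,-1,-1]),
  (true,[0,1,0,-1]),
  (true,[0,0,0,1]),
  (true,[0,0,-2,0,1]),
  (true,[0,-2,0,0,1]),
  (true,[-1,0,1]),
  (true,[-1,1])]

open Helper55.PC in
noncomputable def t0n : Helper55.PC.Ten :=
  (q 29644697177811245897075394634216359600511760155391082142544568631775826833965068 (r
  260230795269246519174904963985852450440858166778248144820365382089726759933303723463180956404687921089521458869640481350876688357925370601209759675085840268510428807270618013369166035196836135085394147373527613457578432086192754912980432752195147269107983358223453331142168497202421898)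
  (q
  926769100909131105524076085796988580395342832416068902246898994433435209661676688720658555711060533024605544418456634916218789672670893613121548
  (r
  137759396214193550523973154950670744966807377544382491449066938152260679237726501196586827740889416905121629576274607964786908291085971357204154605701288357020492676433975967993317558143591621958868634520542163775025948950779238469037053990124144131149130181860005696276528315891439449812481926698696058291460501181417747555963727483736185699287047979938330976489)
  (q
  628498190078419043120711967033448912563089089126221191361202263675110511954980381729275170675792541519815556266003617466394185063370014443072298975625228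
  (r
  529186634418343714554515274308230507501130927455213260100523400569208333360695356044050641739944260527709176576198593856383838593081717134298001999566594619774434102946462990186887328432845749743354565328050242314420752977114596583498179426748451679389695268241797872589751215461735376874877080745352462436066601095797198716473793349017579932505479061737)
  (q 29645036412447841315304177463104856391185841596744231090183603520172082929991692 (q
  3435948116351960425414377728340042161594376621852373155852 (q
  21662473649968687662568527775516660993286468695221847631786410200095645514232291507630109829081018463960623753487769545629368332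
  (k
  723212325074622367825815995098138233285816223979132647865521062976952418346248245657831119282177053247806227274431606620836761336324781401821427440584644259082010184526008405503554317428208959690162615806520432263789841451)
  (r
  634013233611227074907068896259616913408008776435558953976138472719004829114192469823773570960523268573716456951313275872254053000820037849557133006519822697101411307712694068731277704730805164673373850503488997930587738193464128649896813641510496586761531605772850836394294852230123115615620374173257912565213605426057676725190025385591538795098469744478696797228284681282204115025358468710732334002217538887059224230323411866581760665873264380407303426812674737052228121779315185195326812576702172082481322753453978245323354651207088723933465819250281862896154811146969408))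
  (k
  57443193106118454567830388708749918838442207063978790231059525062795258387453453646572310396844239446872871508519080649706240008627782176701142663845713226735107115337370225672549842186135815667854924452593720091066191353614645099562))
  (r
  4133337075720956602050679644803748102273511001006094356323665853804526873180286483381390274500591365457174174583781030126276794361095537084424212795474891646248701653455222689347150570970790060561144207513122088992824867426326606319544250939038005053152575111929255112882613304885251145020470937889952791846764724121943791644535976413050187257506060991139205346033050137750246071797411928484325143534747558896403187409459993809000106725285854124169451498549109432301962838275456818840225091128036923938991840202718446453896656663402903873456112578488743423092615912024750047808327277927515648795001774242)))))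

noncomputable def t0 : Tre := Helper55.PC.toT t0n

theorem ok0 : chk3 K KFs t0 base = true :=
  Helper81.PC.chk3N_sound K KFs t0n base (by decide +kernel)

open Helper25.KW Helper55.KE in
theorem closed {p a b c J l q : ℤ} {D dl : ℝ} {Cl : ℤ → ℤ → ℤ → ℤ → ℝ → Prop}
    (W : World p a b c J (-1) l q D dl Cl) (g : G0 p a b c J D)
    {N X R : ℤ} {I : ℝ} (hk : KCl p l Cl N X R I) (kz : KF a b D (X + (-1 : ℤ) * I) (X + (-1 : ℤ) * I + R) I)
    {Ne Xe : ℤ} {Ie : ℝ} (he : EFac p (-1) D Cl (a) Ne Xe Ie)
    (hE : KZ p a b l (-1) Cl (fun X R I => Zp (-1) X R I ∧ Zy b (-1) D X R I) N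
      (fun _ _ I => I) I)
    (hN0 : KNo p a b l (-1) Cl (fun X R I => Zx (-1) X R I ∧ Zy b (-1) D X R I))
    (hN1 : KNo p a b l (-1) Cl (fun X R I => ZiD D J X R I ∧ Zy b (-1) D X R I))
    (hN2 : KNo p a b l (-1) Cl (fun X R I => Zi J X R I ∧ Zy b (-1) D X R I))
    (h0 : 1 ≤ (c : ℝ))
    (h1 : 1 ≤ (a : ℝ) - (b : ℝ) - (c : ℝ))
    (h2 : 0 < 2 * (b : ℝ) - D)
    (h3 : 1 ≤ 2 * (a : ℝ) - (b : ℝ))
    (h4 : 0 < -(J : ℝ) + I)
    (h5 : 0 < (J : ℝ) - D + I)
    (h6 : 0 < (X : ℝ) - I)
    (h7 : 0 < -(b : ℝ) + (X : ℝ) + D - I)
    (h8 : 0 < 2 * (J : ℝ) - D)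
    (h9 : 0 < -(a : ℝ) + (c : ℝ) + D)
    (h10 : 1 ≤ (b : ℝ) + (c : ℝ) + (R : ℝ))
    (h11 : 1 ≤ (a : ℝ) - (b : ℝ) - (R : ℝ))
    (h12 : 0 < (a : ℝ) + 2 * (c : ℝ) - (p : ℝ) + D)
    (h13 : 0 < (a : ℝ) + (c : ℝ) - (p : ℝ) + D)
    (h14 : 0 < (p : ℝ) - (X : ℝ) - 2 * D + I)
    (h15 : 1 ≤ (c : ℝ) - (R : ℝ))
    (h16 : 0 < -(X : ℝ) - (R : ℝ) - D + I)
    (h17 : 1 ≤ 1 + (a : ℝ) - (b : ℝ) + (R : ℝ))
    (h18 : 0 < 2 * (c : ℝ) - (p : ℝ) - (X : ℝ) - (R : ℝ) + I) : False := by
  have g1 := g.a2
  have g2 := g.b2
  have g3 := g.pa
  have g4 := g.pb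
  have g5 := g.J1
  have g6 := g.JD
  have g7 := g.D2
  have g8 := g.ca
  have g9 := g.ca'
  have k1 := kz.I0
  have k2 := kz.ID
  have k3 := kz.z1
  have k4 := kz.z2
  have k5 := kz.s1
  have k6 := kz.s2
  have e1 := he.I0
  have e2 := he.ID
  have e3 := he.x0
  have e4 := he.xp
  have hkf : ∀ kf ∈ KFs, KOk3 p l Cl (-1) (xv [1, a, b, c, p, J, X, R, Xe] [D, I, Ie]) N kf := by
    have hA : evg (xv [1, a, b, c, p, J, X, R, Xe] [D, I, Ie]) [0, 1] = a := by
      simp only [evg_cons, evg_nil, xv, List.map_cons, List.map_nil, List.cons_append, List.nil_append]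
      push_cast
      ring
    have hB : evg (xv [1, a, b, c, p, J, X, R, Xe] [D, I, Ie]) [0, 0, 1] = b := by
      simp only [evg_cons, evg_nil, xv, List.map_cons, List.map_nil, List.cons_append, List.nil_append]
      push_cast
      ring
    simp only [KFs, List.forall_mem_cons]
    refine ⟨kok3_ex hA hB hE ?_ ?_, kok3_no hA hB N hN0 ?_, kok3_no hA hB N hN1 ?_, kok3_no hA hB N hN2 ?_, fun _ h => absurd h (by simp)⟩
    · intro X' R' I' hg
      simp only [evg_cons, evg_nil, xv, List.map_cons, List.map_nil, List.cons_append, List.nil_append] at hg ⊢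
      push_cast at hg ⊢
      linarith
    · intro X' R' I' _ hg
      simp only [List.forall_mem_cons, List.not_mem_nil, false_imp_iff, implies_true, and_true,
        evg_cons, evg_nil, xv, List.map_cons, List.map_nil, List.cons_append, List.nil_append] at hg
      push_cast at hg
      simp only [Zx, Zp, Zs, Zsp, Zi, ZiD, Zy]
      push_cast
      refine ⟨?_, ?_⟩ <;> linarith [hg.1, hg.2]
    · intro X' R' I' _ hg
      simp only [List.forall_mem_cons, List.not_mem_nil, false_imp_iff, implies_true, and_true,
        evg_cons, evg_nil, xv, List.map_cons, List.map_nil, List.cons_append, List.nil_append] at hg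
      push_cast at hg
      simp only [Zx, Zp, Zs, Zsp, Zi, ZiD, Zy]
      push_cast
      refine ⟨?_, ?_⟩ <;> linarith [hg.1, hg.2]
    · intro X' R' I' _ hg
      simp only [List.forall_mem_cons, List.not_mem_nil, false_imp_iff, implies_true, and_true,
        evg_cons, evg_nil, xv, List.map_cons, List.map_nil, List.cons_append, List.nil_append] at hg
      push_cast at hg
      simp only [Zx, Zp, Zs, Zsp, Zi, ZiD, Zy]
      push_cast
      refine ⟨?_, ?_⟩ <;> linarith [hg.1, hg.2]
    · intro X' R' I' _ hg
      simp only [List.forall_mem_cons, List.not_mem_nil, false_imp_iff, implies_true, and_true,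
        evg_cons, evg_nil, xv, List.map_cons, List.map_nil, List.cons_append, List.nil_append] at hg
      push_cast at hg
      simp only [Zx, Zp, Zs, Zsp, Zi, ZiD, Zy]
      push_cast
      refine ⟨?_, ?_⟩ <;> linarith [hg.1, hg.2]
  push_cast at *
  refine sound3 (val_E W.toBase hk he (row := [0,1]) (by simp) (by simp) []) W rfl (Nk := N)
    (fun kf _ _ => ⟨_, rfl⟩) hkf ok0 ?_
  · simp only [base, List.forall_mem_cons, List.not_mem_nil, false_imp_iff, implies_true,
      and_true, hld, xv, evg_cons, evg_nil, List.map_cons, List.map_nil, List.cons_append,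
      List.nil_append, if_true, if_false, Bool.false_eq_true]
    push_cast
    refine ⟨?_, ?_, ?_, ?_, ?_, ?_, ?_, ?_, ?_, ?_, ?_, ?_, ?_, ?_, ?_, ?_, ?_, ?_, ?_, ?_, ?_, ?_, ?_, ?_, ?_, ?_, ?_, ?_, ?_, ?_, ?_, ?_, ?_, ?_, ?_, ?_, ?_⟩ <;> linarith

end Helper25.S1T.Zpm1I1_r3
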