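import Pool.Agent.Helper81.PC.C3N
import Pool.Agent.Helper25.KG.C3
import Pool.Agent.Helper25.KG.Cfg3

set_option autoImplicit false
set_option linter.all false

namespace Helper25.S1T.Zpm1I1_r8

open Helper25.KG Helper11.CT

noncomputable def K : Cls :=
  dE (-1) [1]

noncomputable def KFs : List KF3 :=
  [(1, (0, 0, -1, [0,0,0,0,0,0,0,0,0,0,1]) :: (bx3 ++ [(1, 0, 0, []), (1, 0, 0, [0,0,-1,0,0,0,0,0,0,1])])),
    (0, bx3 ++ [(-1, 0, 0, []), (1, 0, 0, [0,0,-1,0,0,0,0,0,0,1])]),
    (0, bx3 ++ [(0, 0, -1, [0,0,0,0,0,-1,0,0,0,1]), (1, 0, 0, [0,0,-1,0,0,0,0,0,0,1])]),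
    (0, bx3 ++ [(0, 0, -1, [0,0,0,0,0,1]), (1, 0, 0, [0,0,-1,0,0,0,0,0,0,1])])]

noncomputable def base : List Con :=
  [(false,[0,1,0,2,-1,0,-1,-1,0,0,1]),
  (false,[0,1,0,0,0,0,-1,-1,0,-1,1]),
  (true,[1,1,1,1,-1,0,0,1]),
  (true,[1,0,0,0,0,0,0,1]),
  (false,[0,0,-2,0,0,0,1,0,0,1,-1]),
  (false,[0,0,0,0,0,0,1,1,0,0,-1]),
  (false,[0,0,0,0,0,0,1,1,0,1,-1]),
  (true,[0,0,0,1,0,0,0,-1]),
  (false,[0,0,0,0,1,0,-1,0,0,-2,1]),
  (false,[0,1,0,1,-1,0,0,0,0,1]),
  (false,[0,1,0,2,-1,0,0,0,0,1]),
  (true,[0,1,-1,0,0,0,0,-1]),
  (true,[0,0,1,1,0,0,0,1]),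
  (false,[0,-1,0,1,0,0,0,0,0,1]),
  (false,[0,0,0,0,0,2,0,0,0,-1]),
  (false,[0,0,-1,0,0,0,1,0,0,1,-1]),
  (false,[0,0,0,0,0,0,1,0,0,0,-1]),
  (false,[0,0,0,0,0,1,0,0,0,-1,1]),
  (false,[0,0,0,0,0,-1,0,0,0,0,1]),
  (false,[0,0,0,0,1,0,0,0,-1,0,0,1]),
  (false,[0,0,0,0,0,0,0,0,1,0,0,-1]),
  (false,[0,0,0,0,0,0,0,0,0,1,0,-1]),
  (false,[0,0,0,0,0,0,0,0,0,0,0,1]),
  (false,[0,1,0,0,0,0,1,1,0,0,-1]),
  (false,[0,1,0,0,0,0,-1,-1,0,0,1]),
  (false,[0,0,1,0,0,0,1,0,0,0,-1]),
  (false,[0,0,1,0,0,0,-1,0,0,0,1]),
  (false,[0,0,0,0,0,0,0,0,0,1,-1]),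
  (false,[0,0,0,0,0,0,0,0,0,0,1]),
  (false,[0,0,0,0,1,0,0,0,0,-2]),
  (false,[0,0,0,0,0,-1,0,0,0,1]),
  (true,[0,0,0,0,0,1]),
  (true,[0,2,-1]),
  (false,[0,0,2,0,0,0,0,0,0,-1]),
  (true,[0,1,-1,-1]),
  (true,[0,1,0,-1]),
  (true,[0,0,0,1]),
  (true,[0,0,-2,0,1]),
  (true,[0,-2,0,0,1]),
  (true,[-1,0,1]),
  (true,[-1,1])]

open Helper55.PC in
noncomputable def t0n : Helper55.PC.Ten :=
  (i 324478944413463240949628005384200 (r
  1233097771555907444068044800078597936626324027874599706783615309409481074601962698840267860521313817488836252458486793881676521096501337205152374578304060197903254209536456282341429645179149590641890882718475232791115957926286602195609573204256147692280665853192241466091072581602184137729456499629512501036003031873945810171694762011650625013930636152124371155709147642930340552211775857996243036778674022583662340605006079957439424293894740276698848)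
  (q 29645262568872238260790032682383342129506034126318879578349668918538376249737196 (r
  6164722542602515856957478792517605537967005411902204647252017721433934772755043071795132523273059656676262656720467925191057169399358069205282309866272645270179159009857874951533017152866616367302765833586872673098077891351386836251180733809842015724804014756193023367050745103097300084460021663400003303399407309257799047835521555835707526594869497374944226893780375784904283398474100725145277455446621141652092021087572471424809575194560201814225041506944973054852873248547839422992636603569063349683544154242)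
  (q
  146331963304579777150979036318285414824341010894775990162303238582562223215756151003826714568409907920792736064825428836236479921770294302081004
  (r
  1619576283531021499131817584542219969208909367873917291717628311376976837911670381560930747999974073203012792005816977260197248004832073037949165947016080440880157601030536907116778718256730543707762467043940524212594971088200471231313292393336625029218202044966335318898538738234219299274779643899153204852201040364041937097)
  (q 84808766990286784008355399673201931386583052127278334070334266346439573516 (r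
  8165932090970345086321808157797073614833053127895019571612051858744580216442784656133785963020676199878325215362983455551760074860735394611809300150505060553469868055660864282453001151512698099997213832885088161662126603816880632313206460851842349057595297708125779709086645517077211272216926473012075293164401878638103896599879720514878570621638085591779090963483275724247863596099800255915358085764252259705791754489126284067908843283172824722969374289858538780706134765579996796490653548613921018465713547217907191377464478819356453346150677796962407851107777968350587938367282602624)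
  (q 29645601803508833679018815511283531646902598508875558039832729090595908046946316 (q
  29645714881721032151761743120916928152701453303061117526993749147948417930100716 (r
  169632842760013905939574338637202135443873339807992310568802544308698579666606829308666667055585912386702916293867349656738282577182059210200580665636520954468486270316462262538725791780625144506530675056732570970286546891170889226385268293548437260412587649720401866161727305100721799830546772707165030036380133757207420840752055973371457714817732634687950093630170877481534502033720326803387257657587049464196332760260557511245112378779288713755847227622011007677505140218411357029117910834634745843418451162386371756450260655041253402090150939830232703650424066860383133703836492910325702245894999293025707614848)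
  (r
  2141067486318050055803328212322363870422644355131025069290180704681049582359309338277315824733446264201142505397525473118524028349474176600036005494773117962136592844984428025358699806066161214300413192478770311187831138161753069793233675037771366267867196768376933966432418526133814704438430591248431778575726433476411106113327216353902421622920286296173133869857262774897966778526317197743063312955933659097907387802024790037060289680787146021640249146863415229837214740574200284915177828883974388890793312629088151470058029488452750046553263242537702410470803063921836122178813944448))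
  (k
  3106173284260065079185442222299874513715812367088817281485485917130419423981734845833605687199082462258012482650370423454773079219609595178640420220296591441698656417185568865460843645874805317416962866085518266255796431940834329641))))))

noncomputable def t0 : Tre := Helper55.PC.toT t0n

theorem ok0 : chk3 K KFs t0 base = true :=
  Helper81.PC.chk3N_sound K KFs t0n base (by decide +kernel)

open Helper25.KW Helper55.KE in
theorem closed {p a b c J l q : ℤ} {D dl : ℝ} {Cl : ℤ → ℤ → ℤ → ℤ → ℝ → Prop}
    (W : World p a b c J (-1) l q D dl Cl) (g : G0 p a b c J D)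
    {N X R : ℤ} {I : ℝ} (hk : KCl p l Cl N X R I) (kz : KF a b D (X + (-1 : ℤ) * I) (X + (-1 : ℤ) * I + R) I)
    {Ne Xe : ℤ} {Ie : ℝ} (he : EFac p (-1) D Cl 1 Ne Xe Ie)
    (hE : KZ p a b l (-1) Cl (fun X R I => Zp (-1) X R I ∧ Zy b (-1) D X R I) N
      (fun _ _ I => I) I)
    (hN0 : KNo p a b l (-1) Cl (fun X R I => Zx (-1) X R I ∧ Zy b (-1) D X R I))
    (hN1 : KNo p a b l (-1) Cl (fun X R I => ZiD D J X R I ∧ Zy b (-1) D X R I))
    (hN2 : KNo p a b l (-1) Cl (fun X R I => Zi J X R I ∧ Zy b (-1) D X R I))
    (h0 : 1 ≤ (c : ℝ))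
    (h1 : 1 ≤ (a : ℝ) - (b : ℝ) - (c : ℝ))
    (h2 : 0 < 2 * (b : ℝ) - D)
    (h3 : 1 ≤ 2 * (a : ℝ) - (b : ℝ))
    (h4 : 0 < -(J : ℝ) + I)
    (h5 : 0 < (J : ℝ) - D + I)
    (h6 : 0 < (X : ℝ) - I)
    (h7 : 0 < -(b : ℝ) + (X : ℝ) + D - I)
    (h8 : 0 < 2 * (J : ℝ) - D)
    (h9 : 0 < -(a : ℝ) + (c : ℝ) + D)
    (h10 : 1 ≤ (b : ℝ) + (c : ℝ) + (R : ℝ))
    (h11 : 1 ≤ (a : ℝ) - (b : ℝ) - (R : ℝ))
    (h12 : 0 < (a : ℝ) + 2 * (c : ℝ) - (p : ℝ) + D)
    (h13 : 0 < (a : ℝ) + (c : ℝ) - (p : ℝ) + D)
    (h14 : 0 < (p : ℝ) - (X : ℝ) - 2 * D + I)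
    (h15 : 1 ≤ (c : ℝ) - (R : ℝ))
    (h16 : 0 < (X : ℝ) + (R : ℝ) + D - I)
    (h17 : 0 < (X : ℝ) + (R : ℝ) - I)
    (h18 : 0 < -2 * (b : ℝ) + (X : ℝ) + D - I)
    (h19 : 1 ≤ 1 + (R : ℝ))
    (h20 : 1 ≤ 1 + (a : ℝ) + (b : ℝ) + (c : ℝ) - (p : ℝ) + (R : ℝ))
    (h21 : 0 < (a : ℝ) - (X : ℝ) - (R : ℝ) - D + I)
    (h22 : 0 < (a : ℝ) + 2 * (c : ℝ) - (p : ℝ) - (X : ℝ) - (R : ℝ) + I) : False := by
  have g1 := g.a2
  have g2 := g.b2
  have g3 := g.pa
  have g4 := g.pb
  have g5 := g.J1
  have g6 := g.JD
  have g7 := g.D2
  have g8 := g.ca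
  have g9 := g.ca'
  have k1 := kz.I0
  have k2 := kz.ID
  have k3 := kz.z1
  have k4 := kz.z2
  have k5 := kz.s1
  have k6 := kz.s2
  have e1 := he.I0
  have e2 := he.ID
  have e3 := he.x0
  have e4 := he.xp
  have hkf : ∀ kf ∈ KFs, KOk3 p l Cl (-1) (xv [1, a, b, c, p, J, X, R, Xe] [D, I, Ie]) N kf := by
    have hA : evg (xv [1, a, b, c, p, J, X, R, Xe] [D, I, Ie]) [0, 1] = a := by
      simp only [evg_cons, evg_nil, xv, List.map_cons, List.map_nil, List.cons_append, List.nil_append]
      push_cast
      ring
    have hB : evg (xv [1, a, b, c, p, J, X, R, Xe] [D, I, Ie]) [0, 0, 1] = b := by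
      simp only [evg_cons, evg_nil, xv, List.map_cons, List.map_nil, List.cons_append, List.nil_append]
      push_cast
      ring
    simp only [KFs, List.forall_mem_cons]
    refine ⟨kok3_ex hA hB hE ?_ ?_, kok3_no hA hB N hN0 ?_, kok3_no hA hB N hN1 ?_, kok3_no hA hB N hN2 ?_, fun _ h => absurd h (by simp)⟩
    · intro X' R' I' hg
      simp only [evg_cons, evg_nil, xv, List.map_cons, List.map_nil, List.cons_append, List.nil_append] at hg ⊢
      push_cast at hg ⊢
      linarith
    · intro X' R' I' _ hg
      simp only [List.forall_mem_cons, List.not_mem_nil, false_imp_iff, implies_true, and_true,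
        evg_cons, evg_nil, xv, List.map_cons, List.map_nil, List.cons_append, List.nil_append] at hg
      push_cast at hg
      simp only [Zx, Zp, Zs, Zsp, Zi, ZiD, Zy]
      push_cast
      refine ⟨?_, ?_⟩ <;> linarith [hg.1, hg.2]
    · intro X' R' I' _ hg
      simp only [List.forall_mem_cons, List.not_mem_nil, false_imp_iff, implies_true, and_true,
        evg_cons, evg_nil, xv, List.map_cons, List.map_nil, List.cons_append, List.nil_append] at hg
      push_cast at hg
      simp only [Zx, Zp, Zs, Zsp, Zi, ZiD, Zy]
      push_cast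
      refine ⟨?_, ?_⟩ <;> linarith [hg.1, hg.2]
    · intro X' R' I' _ hg
      simp only [List.forall_mem_cons, List.not_mem_nil, false_imp_iff, implies_true, and_true,
        evg_cons, evg_nil, xv, List.map_cons, List.map_nil, List.cons_append, List.nil_append] at hg
      push_cast at hg
      simp only [Zx, Zp, Zs, Zsp, Zi, ZiD, Zy]
      push_cast
      refine ⟨?_, ?_⟩ <;> linarith [hg.1, hg.2]
    · intro X' R' I' _ hg
      simp only [List.forall_mem_cons, List.not_mem_nil, false_imp_iff, implies_true, and_true,
        evg_cons, evg_nil, xv, List.map_cons, List.map_nil, List.cons_append, List.nil_append] at hg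
      push_cast at hg
      simp only [Zx, Zp, Zs, Zsp, Zi, ZiD, Zy]
      push_cast
      refine ⟨?_, ?_⟩ <;> linarith [hg.1, hg.2]
  push_cast at *
  refine sound3 (val_E W.toBase hk he (row := [1]) (by simp) (by simp) []) W rfl (Nk := N)
    (fun kf _ _ => ⟨_, rfl⟩) hkf ok0 ?_
  · simp only [base, List.forall_mem_cons, List.not_mem_nil, false_imp_iff, implies_true,
      and_true, hld, xv, evg_cons, evg_nil, List.map_cons, List.map_nil, List.cons_append,
      List.nil_append, if_true, if_false, Bool.false_eq_true]
    push_cast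
    refine ⟨?_, ?_, ?_, ?_, ?_, ?_, ?_, ?_, ?_, ?_, ?_, ?_, ?_, ?_, ?_, ?_, ?_, ?_, ?_, ?_, ?_, ?_, ?_, ?_, ?_, ?_, ?_, ?_, ?_, ?_, ?_, ?_, ?_, ?_, ?_, ?_, ?_, ?_, ?_, ?_, ?_⟩ <;> linarith

end Helper25.S1T.Zpm1I1_r8
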