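import Pool.Agent.Helper25.S1T.G_Zpm1A
import Pool.Agent.Helper25.S1T.G_Zpm1Ag
import Pool.Agent.Helper25.S1T.G_Zpm1B
import Pool.Agent.Helper25.S1T.G_Zpm1Bg
import Pool.Agent.Helper25.S1T.G_Zpm1I0
import Pool.Agent.Helper25.S1T.G_Zpm1I1
import Pool.Agent.Helper25.S1T.G_Zpm1C0g
import Pool.Agent.Helper25.S1T.G_Zpm1SPp
import Pool.Agent.Helper25.S1T.G_Zpm1SPm
import Pool.Agent.Helper25.S1T.G_Zpm1Vg
import Pool.Agent.Helper25.KG.S1F
import Pool.Agent.Helper25.KW.S1O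
import Pool.Agent.Helper25.KW.S1Q
import Pool.Agent.Helper25.KW.S1R
import Pool.Agent.Helper25.KW.S1A

set_option autoImplicit false
set_option linter.all false

namespace Helper25.S1T

open Helper25.KG Helper25.KW Helper55.KE Helper11.CT

theorem zc_pm1_A1 : ZCellX 1 (-1) (Q1 1) (FA (-1) true) := by
  intro p a b c J l q D dl Cl W hc h0 h1 hQ hA hP hN hS hX N X R I hk hF
  obtain ⟨f1, f2, f3, hE⟩ := hF
  have kz := KF.of hk
  have k3 := kz.z1
  have k4 := kz.z2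
  have k5 := kz.s1
  have k6 := kz.s2
  have c1 : (1 : ℝ) ≤ c := by exact_mod_cast (by omega : 1 ≤ c)
  have b1 : 1 ≤ 2 * (a : ℝ) - b := by exact_mod_cast (by omega : 1 ≤ 2 * a - b)
  have hkc := KCl.of hk
  have G := G0.of W.toBase hc
  have G1 := G.a2
  have G2 := G.b2
  have G3 := G.pa
  have G4 := G.pb
  have G5 := G.J1
  have G6 := G.JD
  have G7 := G.D2
  have G8 := G.ca
  have G9 := G.ca'
  have i1 := kz.I0
  have i2 := kz.ID
  unfold Q1 at hQ
  have q1 : (b : ℝ) + c + 1 ≤ a := by exact_mod_cast (by omega : b + c + 1 ≤ a)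
  have m1 : D < 2 * (b : ℝ) := f1
  have m2 : (X : ℝ) + (-1 : ℤ) * I < 0 := f2
  have m3 : (b : ℝ) + (-1 : ℤ) * ((X : ℝ) + (-1 : ℤ) * I) < D := f3
  push_cast at m2 m3 k3 k4 k5 k6
  exact z_Zpm1A W hc hA hk hE
    (by linarith) (by linarith) (by linarith) (by linarith) (by linarith) (by linarith)

theorem zc_pm1_A2 : ZCellX 1 (-1) (Q1 1) (FA (-1) false) := by
  intro p a b c J l q D dl Cl W hc h0 h1 hQ hA hP hN hS hX N X R I hk hF
  obtain ⟨f1, f2, f3, hE⟩ := hF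
  have kz := KF.of hk
  have k3 := kz.z1
  have k4 := kz.z2
  have k5 := kz.s1
  have k6 := kz.s2
  have c1 : (1 : ℝ) ≤ c := by exact_mod_cast (by omega : 1 ≤ c)
  have b1 : 1 ≤ 2 * (a : ℝ) - b := by exact_mod_cast (by omega : 1 ≤ 2 * a - b)
  have hkc := KCl.of hk
  have G := G0.of W.toBase hc
  have G1 := G.a2
  have G2 := G.b2
  have G3 := G.pa
  have G4 := G.pb
  have G5 := G.J1
  have G6 := G.JD
  have G7 := G.D2
  have G8 := G.ca
  have G9 := G.ca'
  have i1 := kz.I0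
  have i2 := kz.ID
  unfold Q1 at hQ
  have q1 : (b : ℝ) + c + 1 ≤ a := by exact_mod_cast (by omega : b + c + 1 ≤ a)
  have m1 : 2 * (b : ℝ) < D := f1
  have m2 : (X : ℝ) + (-1 : ℤ) * I < 0 := f2
  have m3 : (b : ℝ) + (-1 : ℤ) * ((X : ℝ) + (-1 : ℤ) * I) < D := f3
  push_cast at m2 m3 k3 k4 k5 k6
  exact z_Zpm1Ag W hc hA hk (hE.mono (Z' := (fun X R I => Zx (-1) X R I)) (fun X' R' I' hb' h' => by
      obtain ⟨b1, b2, b3, b4⟩ := hb'
      obtain n0 := h'
      simp only [Zx, Zp, Zs, Zsp, Zi, ZiD, Zy] at *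
      push_cast at *
      refine ⟨?_, ?_⟩ <;> linarith))
    (by linarith) (by linarith) (by linarith) (by linarith) (by linarith)

theorem zc_pm1_B1 : ZCellX 1 (-1) (Q1 1) (FB (-1) true) := by
  intro p a b c J l q D dl Cl W hc h0 h1 hQ hA hP hN hS hX N X R I hk hF
  obtain ⟨f1, f2, f3, f4, hN1⟩ := hF
  have kz := KF.of hk
  have k3 := kz.z1
  have k4 := kz.z2
  have k5 := kz.s1
  have k6 := kz.s2
  have c1 : (1 : ℝ) ≤ c := by exact_mod_cast (by omega : 1 ≤ c)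
  have b1 : 1 ≤ 2 * (a : ℝ) - b := by exact_mod_cast (by omega : 1 ≤ 2 * a - b)
  have hkc := KCl.of hk
  have G := G0.of W.toBase hc
  have G1 := G.a2
  have G2 := G.b2
  have G3 := G.pa
  have G4 := G.pb
  have G5 := G.J1
  have G6 := G.JD
  have G7 := G.D2
  have G8 := G.ca
  have G9 := G.ca'
  have i1 := kz.I0
  have i2 := kz.ID
  unfold Q1 at hQ
  have q1 : (b : ℝ) + c + 1 ≤ a := by exact_mod_cast (by omega : b + c + 1 ≤ a)
  have m1 : D < 2 * (b : ℝ) := f1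
  have m2 : 0 < (X : ℝ) + (-1 : ℤ) * I := f2
  have m3 : (b : ℝ) + (-1 : ℤ) * ((X : ℝ) + (-1 : ℤ) * I) < D := f3
  push_cast at m2 m3 k3 k4 k5 k6
  exact z_Zpm1B W hc hA hk hN1
    (by linarith) (by linarith) (by linarith) (by linarith) (by linarith) (by linarith) (by linarith)

theorem zc_pm1_B2 : ZCellX 1 (-1) (Q1 1) (FB (-1) false) := by
  intro p a b c J l q D dl Cl W hc h0 h1 hQ hA hP hN hS hX N X R I hk hF
  obtain ⟨f1, f2, f3, f4, hN1⟩ := hF
  have kz := KF.of hk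
  have k3 := kz.z1
  have k4 := kz.z2
  have k5 := kz.s1
  have k6 := kz.s2
  have c1 : (1 : ℝ) ≤ c := by exact_mod_cast (by omega : 1 ≤ c)
  have b1 : 1 ≤ 2 * (a : ℝ) - b := by exact_mod_cast (by omega : 1 ≤ 2 * a - b)
  have hkc := KCl.of hk
  have G := G0.of W.toBase hc
  have G1 := G.a2
  have G2 := G.b2
  have G3 := G.pa
  have G4 := G.pb
  have G5 := G.J1
  have G6 := G.JD
  have G7 := G.D2
  have G8 := G.ca
  have G9 := G.ca'
  have i1 := kz.I0
  have i2 := kz.ID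
  unfold Q1 at hQ
  have q1 : (b : ℝ) + c + 1 ≤ a := by exact_mod_cast (by omega : b + c + 1 ≤ a)
  have m1 : 2 * (b : ℝ) < D := f1
  have m2 : 0 < (X : ℝ) + (-1 : ℤ) * I := f2
  have m3 : (b : ℝ) + (-1 : ℤ) * ((X : ℝ) + (-1 : ℤ) * I) < D := f3
  push_cast at m2 m3 k3 k4 k5 k6
  exact z_Zpm1Bg W hc hA hk (hN1.mono (Z' := (fun X R I => Zx (-1) X R I)) (fun X' R' I' hb' h' => by
      obtain ⟨b1, b2, b3, b4⟩ := hb'
      obtain n0 := h'
      simp only [Zx, Zp, Zs, Zsp, Zi, ZiD, Zy] at *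
      push_cast at *
      refine ⟨?_, ?_⟩ <;> linarith))
    (by linarith) (by linarith) (by linarith) (by linarith) (by linarith) (by linarith)

theorem zc_pm1_C10 : ZCellX 1 (-1) (Q1 1) (FI0 (-1) true) := by
  intro p a b c J l q D dl Cl W hc h0 h1 hQ hA hP hN hS hX N X R I hk hF
  obtain ⟨⟨f1, f2, f3, f4, hE, hN1, hN2⟩, f5⟩ := hF
  have kz := KF.of hk
  have k3 := kz.z1
  have k4 := kz.z2
  have k5 := kz.s1
  have k6 := kz.s2
  have c1 : (1 : ℝ) ≤ c := by exact_mod_cast (by omega : 1 ≤ c)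
  have b1 : 1 ≤ 2 * (a : ℝ) - b := by exact_mod_cast (by omega : 1 ≤ 2 * a - b)
  have hkc := KCl.of hk
  have G := G0.of W.toBase hc
  have G1 := G.a2
  have G2 := G.b2
  have G3 := G.pa
  have G4 := G.pb
  have G5 := G.J1
  have G6 := G.JD
  have G7 := G.D2
  have G8 := G.ca
  have G9 := G.ca'
  have i1 := kz.I0
  have i2 := kz.ID
  unfold Q1 at hQ
  have q1 : (b : ℝ) + c + 1 ≤ a := by exact_mod_cast (by omega : b + c + 1 ≤ a)
  have m1 : D < 2 * (b : ℝ) := f1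
  have m2 : 0 < (X : ℝ) + (-1 : ℤ) * I := f2
  have m3 : (b : ℝ) + (-1 : ℤ) * ((X : ℝ) + (-1 : ℤ) * I) < D := f3
  push_cast at m2 m3 k3 k4 k5 k6
  exact z_Zpm1I0 W hc hA hk (hE.mono (Z' := (fun X R I => Zp (-1) X R I ∧ Zy b (-1) D X R I)) (fun X' R' I' hb' h' => by
      obtain ⟨b1, b2, b3, b4⟩ := hb'
      obtain ⟨n0, n1⟩ := h'
      simp only [Zx, Zp, Zs, Zsp, Zi, ZiD, Zy] at *
      push_cast at *
      linarith)) hN1 hN2
    (by linarith) (by linarith) (by linarith) (by linarith) (by linarith) (by linarith) (by linarith) (by linarith)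

theorem zc_pm1_C11 : ZCellX 1 (-1) (Q1 1) (FI1 (-1) true) := by
  intro p a b c J l q D dl Cl W hc h0 h1 hQ hA hP hN hS hX N X R I hk hF
  obtain ⟨⟨f1, f2, f3, f4, hE, hN1, hN2⟩, f5, hN3⟩ := hF
  have kz := KF.of hk
  have k3 := kz.z1
  have k4 := kz.z2
  have k5 := kz.s1
  have k6 := kz.s2
  have c1 : (1 : ℝ) ≤ c := by exact_mod_cast (by omega : 1 ≤ c)
  have b1 : 1 ≤ 2 * (a : ℝ) - b := by exact_mod_cast (by omega : 1 ≤ 2 * a - b)
  have hkc := KCl.of hk
  have G := G0.of W.toBase hc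
  have G1 := G.a2
  have G2 := G.b2
  have G3 := G.pa
  have G4 := G.pb
  have G5 := G.J1
  have G6 := G.JD
  have G7 := G.D2
  have G8 := G.ca
  have G9 := G.ca'
  have i1 := kz.I0
  have i2 := kz.ID
  unfold Q1 at hQ
  have q1 : (b : ℝ) + c + 1 ≤ a := by exact_mod_cast (by omega : b + c + 1 ≤ a)
  have m1 : D < 2 * (b : ℝ) := f1
  have m2 : 0 < (X : ℝ) + (-1 : ℤ) * I := f2
  have m3 : (b : ℝ) + (-1 : ℤ) * ((X : ℝ) + (-1 : ℤ) * I) < D := f3
  push_cast at m2 m3 k3 k4 k5 k6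
  exact z_Zpm1I1 W hc hA hk (hE.mono (Z' := (fun X R I => Zp (-1) X R I ∧ Zy b (-1) D X R I)) (fun X' R' I' hb' h' => by
      obtain ⟨b1, b2, b3, b4⟩ := hb'
      obtain ⟨n0, n1⟩ := h'
      simp only [Zx, Zp, Zs, Zsp, Zi, ZiD, Zy] at *
      push_cast at *
      linarith)) hN1 hN2 hN3
    (by linarith) (by linarith) (by linarith) (by linarith) (by linarith) (by linarith) (by linarith) (by linarith)

theorem zc_pm1_C20 : ZCellX 1 (-1) (Q1 1) (FI0 (-1) false) := by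
  intro p a b c J l q D dl Cl W hc h0 h1 hQ hA hP hN hS hX N X R I hk hF
  obtain ⟨⟨f1, f2, f3, f4, hE, hN1, hN2⟩, f5⟩ := hF
  have kz := KF.of hk
  have k3 := kz.z1
  have k4 := kz.z2
  have k5 := kz.s1
  have k6 := kz.s2
  have c1 : (1 : ℝ) ≤ c := by exact_mod_cast (by omega : 1 ≤ c)
  have b1 : 1 ≤ 2 * (a : ℝ) - b := by exact_mod_cast (by omega : 1 ≤ 2 * a - b)
  have hkc := KCl.of hk
  have G := G0.of W.toBase hc
  have G1 := G.a2
  have G2 := G.b2
  have G3 := G.pa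
  have G4 := G.pb
  have G5 := G.J1
  have G6 := G.JD
  have G7 := G.D2
  have G8 := G.ca
  have G9 := G.ca'
  have i1 := kz.I0
  have i2 := kz.ID
  unfold Q1 at hQ
  have q1 : (b : ℝ) + c + 1 ≤ a := by exact_mod_cast (by omega : b + c + 1 ≤ a)
  have m1 : 2 * (b : ℝ) < D := f1
  have m2 : 0 < (X : ℝ) + (-1 : ℤ) * I := f2
  have m3 : (b : ℝ) + (-1 : ℤ) * ((X : ℝ) + (-1 : ℤ) * I) < D := f3
  push_cast at m2 m3 k3 k4 k5 k6
  exact z_Zpm1C0g W hc hA hk (hN1.mono (Z' := (fun X R I => Zx (-1) X R I)) (fun X' R' I' hb' h' => by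
      obtain ⟨b1, b2, b3, b4⟩ := hb'
      obtain n0 := h'
      simp only [Zx, Zp, Zs, Zsp, Zi, ZiD, Zy] at *
      push_cast at *
      refine ⟨?_, ?_⟩ <;> linarith))
    (by linarith) (by linarith) (by linarith) (by linarith) (by linarith) (by linarith) (by linarith) (by linarith)

theorem zc_pm1_C2U : ZCellA 1 (-1) (Q1 1) (FU (-1) false) := by
  intro p a b c J l q D dl Cl W hc h0 h1 hQ hA hP hN hS hX hXA N X R I hk hF
  obtain ⟨f1, f2, f3, f4, f5, hU, hN1, hN2, hN3⟩ := hF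
  have kz := KF.of hk
  have k3 := kz.z1
  have k4 := kz.z2
  have k5 := kz.s1
  have k6 := kz.s2
  have c1 : (1 : ℝ) ≤ c := by exact_mod_cast (by omega : 1 ≤ c)
  have b1 : 1 ≤ 2 * (a : ℝ) - b := by exact_mod_cast (by omega : 1 ≤ 2 * a - b)
  have hkc := KCl.of hk
  have G := G0.of W.toBase hc
  have G1 := G.a2
  have G2 := G.b2
  have G3 := G.pa
  have G4 := G.pb
  have G5 := G.J1
  have G6 := G.JD
  have G7 := G.D2
  have G8 := G.ca
  have G9 := G.ca'
  have i1 := kz.I0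
  have i2 := kz.ID
  unfold Q1 at hQ
  have q1 : (b : ℝ) + c + 1 ≤ a := by exact_mod_cast (by omega : b + c + 1 ≤ a)
  have m1 : 2 * (b : ℝ) < D := f1
  have m2 : 0 < (X : ℝ) + (-1 : ℤ) * I := f2
  have m3 : (b : ℝ) + (-1 : ℤ) * ((X : ℝ) + (-1 : ℤ) * I) < D := f3
  push_cast at m2 m3 k3 k4 k5 k6
  have hT : KU p a b l (-1) Cl (fun _ _ _ => True) N := (hU.mono (Z' := fun _ _ _ => True) (fun X' R' I' hb' _ => by
      obtain ⟨b1, b2, b3, b4⟩ := hb'
      simp only [Zx, Zp, Zs, Zsp, Zi, ZiD, Zy] at *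
      push_cast at *
      linarith))
  have y8i : R + b + 1 ≤ a := rk_lt hXA.ct hT hk (by exact_mod_cast (by linarith : (b : ℝ) ≤ a)) (by linarith) (by push_cast; linarith)
  have y8 : (R : ℝ) + b + 1 ≤ a := by exact_mod_cast y8i
  refine sw_split_lt W.toBase hS hk hT (ex1 W.toBase hA hS (by linarith) hk (by linarith) (by linarith)) ?_ ?_
  · intro Nw Xw Rw Iw w
    have y1 := w.I0
    have y2 := w.ID
    have y3 := w.x1
    have y4 := w.x2
    have y5 := w.s1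
    have y6 := w.s2
    have y7 := w.z
    simp only [Zp, Zx] at y7
    push_cast at y3 y4 y5 y6 y7
    rcases lt_trichotomy ((X : ℝ) + (-1 : ℤ) * I + R) 0 with y0 | y0 | y0
    · push_cast at y0
      exact z_Zpm1SPm W hc hA hk w.w w.ne hT (hN1.mono (Z' := (fun X R I => Zx (-1) X R I)) (fun X' R' I' hb' h' => by
      obtain ⟨b1, b2, b3, b4⟩ := hb'
      obtain n0 := h'
      simp only [Zx, Zp, Zs, Zsp, Zi, ZiD, Zy] at *
      push_cast at *
      refine ⟨?_, ?_⟩ <;> linarith)) (by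
      refine @StK.toN _ _ _ _ _ _ _ _ _ _ w.st ?_
      intro X' R' I' h
      simp only [Zp, Zx]
      push_cast at *
      exact ⟨by linarith [h.1], by linarith [h.2]⟩)
        (by linarith) (by linarith) (by linarith) (by linarith) (by linarith) (by linarith) (by linarith) (by linarith) (by linarith) (by linarith) (by linarith) (by linarith) (by linarith) (by linarith)
    · exact absurd (show (X : ℝ) + (-1 : ℤ) * I = ((-R : ℤ) : ℝ) by push_cast at y0 ⊢; linarith) (ne_i0 W.toBase hk.cl hk.N0 hk.Np (-R))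
    · push_cast at y0
      exact z_Zpm1SPp W hc hA hk w.w w.ne hT (hN1.mono (Z' := (fun X R I => Zx (-1) X R I)) (fun X' R' I' hb' h' => by
      obtain ⟨b1, b2, b3, b4⟩ := hb'
      obtain n0 := h'
      simp only [Zx, Zp, Zs, Zsp, Zi, ZiD, Zy] at *
      push_cast at *
      refine ⟨?_, ?_⟩ <;> linarith)) (by
      refine @StK.toN _ _ _ _ _ _ _ _ _ _ w.st ?_
      intro X' R' I' h
      simp only [Zp, Zx]
      push_cast at *
      exact ⟨by linarith [h.1], by linarith [h.2]⟩)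
        (by linarith) (by linarith) (by linarith) (by linarith) (by linarith) (by linarith) (by linarith) (by linarith) (by linarith) (by linarith) (by linarith) (by linarith) (by linarith) (by linarith) (by linarith)
  · intro hn Nw Xw Rw Iw w hlt
    have y1 := w.I0
    have y2 := w.ID
    have y3 := w.x1
    have y4 := w.x2
    have y5 := w.s1
    have y6 := w.s2
    have y7 := w.z
    simp only [Zp, Zx] at y7
    push_cast at y3 y4 y5 y6 y7
    exact nx_false W.toBase hS hA hXA.ar hXA.av (by exact_mod_cast (by linarith : (b : ℝ) < a)) (by linarith) hT hk (by linarith) (by linarith) (by push_cast; linarith) hn w hlt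

theorem zc_pm1_C2V : ZCellX 1 (-1) (Q1 1) (FV (-1) false) := by
  intro p a b c J l q D dl Cl W hc h0 h1 hQ hA hP hN hS hX N X R I hk hF
  obtain ⟨f1, f2, f3, f4, f5, f6, Nw, Xw, Rw, Iw, hw, hne, w1, w2, w3, w4, w5, w6, hU, hN1, hN2, hN3⟩ := hF
  have kz := KF.of hk
  have k3 := kz.z1
  have k4 := kz.z2
  have k5 := kz.s1
  have k6 := kz.s2
  have c1 : (1 : ℝ) ≤ c := by exact_mod_cast (by omega : 1 ≤ c)
  have b1 : 1 ≤ 2 * (a : ℝ) - b := by exact_mod_cast (by omega : 1 ≤ 2 * a - b)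
  have hkc := KCl.of hk
  have G := G0.of W.toBase hc
  have G1 := G.a2
  have G2 := G.b2
  have G3 := G.pa
  have G4 := G.pb
  have G5 := G.J1
  have G6 := G.JD
  have G7 := G.D2
  have G8 := G.ca
  have G9 := G.ca'
  have i1 := kz.I0
  have i2 := kz.ID
  unfold Q1 at hQ
  have q1 : (b : ℝ) + c + 1 ≤ a := by exact_mod_cast (by omega : b + c + 1 ≤ a)
  have m1 : 2 * (b : ℝ) < D := f1
  have m2 : 0 < (X : ℝ) + (-1 : ℤ) * I := f2
  have m3 : (b : ℝ) + (-1 : ℤ) * ((X : ℝ) + (-1 : ℤ) * I) < D := f3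
  push_cast at m2 m3 k3 k4 k5 k6
  have kw := KF.of hw
  have w7 := kw.z1
  have w8 := kw.z2
  have w9 := kw.s1
  have w10 := kw.s2
  have w11 := kw.I0
  have w12 := kw.ID
  have m6 : (X : ℝ) + (-1 : ℤ) * I + R < 0 := f6
  have u1 : 0 < (Xw : ℝ) + (-1 : ℤ) * Iw := w1
  have u2 : (b : ℝ) + (-1 : ℤ) * ((Xw : ℝ) + (-1 : ℤ) * Iw) < D := w2
  have u5 : 0 < (Xw : ℝ) + (-1 : ℤ) * Iw + Rw := w5
  push_cast at m6 u1 u2 u5 w6 w7 w8 w9 w10
  exact z_Zpm1Vg W hc hA hk hw hne (hU.mono (Z' := fun _ _ _ => True) (fun X' R' I' hb' _ => by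
      obtain ⟨b1, b2, b3, b4⟩ := hb'
      simp only [Zx, Zp, Zs, Zsp, Zi, ZiD, Zy] at *
      push_cast at *
      linarith)) (hN1.mono (Z' := (fun X R I => Zx (-1) X R I)) (fun X' R' I' hb' h' => by
      obtain ⟨b1, b2, b3, b4⟩ := hb'
      obtain n0 := h'
      simp only [Zx, Zp, Zs, Zsp, Zi, ZiD, Zy] at *
      push_cast at *
      refine ⟨?_, ?_⟩ <;> linarith))
    (by linarith) (by linarith) (by linarith) (by linarith) (by linarith) (by linarith) (by linarith) (by linarith) (by linarith) (by linarith) (by linarith) (by linarith) (by linarith) (by linarith) (by linarith) (by linarith) (by linarith)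

theorem zc_pm1_C1 : ZCellX 1 (-1) (Q1 1) (FC (-1) true) :=
  zcellx_C (zcellx_I zc_pm1_C10 zc_pm1_C11)

theorem zc_pm1_C2 : ZCellA 1 (-1) (Q1 1) (FC (-1) false) :=
  zcella_C (zcella_I zc_pm1_C20.a (zcella_U (Or.inr rfl) zc_pm1_C2U zc_pm1_C2V.a))

theorem cxsa_pm1 : CXsA 1 (-1) (Q1 1) :=
  cxsa_of zc_pm1_A1.a zc_pm1_A2.a zc_pm1_B1.a zc_pm1_B2.a zc_pm1_C1.a zc_pm1_C2

end Helper25.S1T
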