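import Pool.Agent.Helper81.PC.C4N
import Pool.Agent.Helper25.KG.C4
import Pool.Agent.Helper25.KG.C4d

set_option autoImplicit false
set_option linter.all false

namespace Helper25.S1T.Zpp1Ca_r12

open Helper25.KG Helper11.CT

noncomputable def K : Cls :=
  dU 1 false

noncomputable def KFs : List KF3 :=
  [(3, bx3 ++ [(-1, 0, 0, [0,0,-1,0,0,0,0,0,0,1])]),
    (0, bx3 ++ [(-1, 0, 0, []), (-1, 0, 0, [0,0,-1,0,0,0,0,0,0,1])]),
    (0, bx3 ++ [(0, 0, -1, [0,0,0,0,0,-1,0,0,0,1]), (-1, 0, 0, [0,0,-1,0,0,0,0,0,0,1])])]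

noncomputable def base : List Con :=
  [(false,[0,0,-1,0,0,0,-2,0,0,1,-2]),
  (false,[0,-1,0,0,1,0,-2,-2,0,1,-2]),
  (false,[0,0,0,1,0,0,-1,-1,0,-1,-1]),
  (false,[0,-1,0,1,0,0,1,1,0,-1,1]),
  (true,[1,1,-2,-1,0,0,0,1]),
  (false,[0,0,0,1,0,0,-1,-1,0,0,-1]),
  (true,[0,-1,2,1]),
  (false,[0,0,0,1,0,0,0,0,0,-1]),
  (true,[0,0,0,1,0,0,0,1]),
  (true,[0,0,1,1,0,0,0,-1]),
  (false,[0,0,0,0,0,0,1,1,0,0,1]),
  (false,[0,0,0,0,0,0,0,0,0,-1,2]),
  (false,[0,0,-1,0,0,0,-1,0,0,1,-1]),
  (false,[0,0,0,0,0,0,1,0,0,0,1]),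
  (false,[0,0,0,0,0,1,0,0,0,-1,1]),
  (false,[0,0,0,0,0,1,0,0,0,0,-1]),
  (true,[0,0,0,0,1,0,0,0,-2]),
  (true,[0,0,0,0,1,0,0,0,2]),
  (false,[0,0,0,0,0,0,0,0,0,1,0,-2]),
  (false,[0,0,0,0,0,0,0,0,0,0,0,1]),
  (false,[0,1,0,0,0,0,1,1,0,0,1]),
  (false,[0,1,0,0,0,0,-1,-1,0,0,-1]),
  (false,[0,0,1,0,0,0,1,0,0,0,1]),
  (false,[0,0,1,0,0,0,-1,0,0,0,-1]),
  (false,[0,0,0,0,0,0,0,0,0,1,-1]),
  (false,[0,0,0,0,0,0,0,0,0,0,1]),
  (false,[0,0,0,0,1,0,0,0,0,-2]),
  (false,[0,0,0,0,0,-1,0,0,0,1]),
  (true,[0,0,0,0,0,1]),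
  (true,[0,2,-1]),
  (false,[0,0,2,0,0,0,0,0,0,-1]),
  (true,[0,1,-1,-1]),
  (true,[0,1,0,-1]),
  (true,[0,0,0,1]),
  (true,[0,0,-2,0,1]),
  (true,[0,-2,0,0,1]),
  (true,[-1,0,1]),
  (true,[-1,1])]

open Helper55.PC in
noncomputable def t0n : Helper55.PC.Ten :=
  (i 2659429507621562062502147652793270281 (i 2658131591863253384123690215798865929 (q
  170720996355938079122622865966268214950099862988457127788731776154401857798980185912224456123930284582808124199349149009471636539180654583480332
  (q
  170720996355938165768550807241732576775686461123322239646866057954857796488741499467315041911176329128510338868456555464142179690181693513531404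
  (k
  92752674529235545959930918492717441672947157633806375568561649400739393296133688507163990880313035804180951911851019252116488636196637487705514977906009881788745758159242272)
  (r
  27284352617854540004349162376468317116855181417881623019050460111915061818359792940228533385123152687386265844794853944450182605113129663099584717580111292351269637098528274134217658193939637118514164026673120328627191805893705324398820736013140339476152700494108046235867990477228485718867002996806795649080726043033599017857579280182261063099346129405398287398051165152157511155762489221258))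
  (r
  14938353671878944105585371655549885830723825597366392605404377634717423499958815506457246269141913544543359180333528561019669875035660108416147735196648561601077363281057589831926919224636636499547501306191012665585732969888421280524726457512269193430537761363819499464980647376115320524133741191365169818081239662302899776695381903190555648138))
  (r
  170192744383607525678866448781928841236257559595800884258910590326709266695607416409452983484507670839566193796682397462316755670794977400433530241586490060940819779295562844533234318870113174497394440459075805117614662480974487235488145483689902969043292313137840743903638475134886443273019669916061918936815618474968183262676295997183568701935848475965540632987366667200046211984487644158902866552335169836610900931053622444302273218163411396553693806585225709892107650679350608478167784845657164658528600083484379370451095957253366459594454735348395102694552321181410158517691104))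
  (q
  1990221489625268968507517368461240373012678173140646142975747361823347335799995314361605079694703986828539077610386758201503934549524231260754207912099852
  (i 2658131591863253384123655027131809801 (k
  2068448501022824128789747783451860624888172309298679867736402949644546423565480882681723051566982252762137489455498163800959423897685862851772522228444188593113062030318712754932008598769427686122789705743151578317856)
  (n 1013279724936142966160609747725580333969748383932033421090445996475822479650692)) (r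
  283075730721161559395537589174657697497412219705412736588089068887739104396977621539557696040280922407460803505437051357850184676725350706710118789796462111913400484568943930969289310070165630798828380224223832460650682721830572375860971403635455590041380050776077258897123193616485063490833664891540128073171329507897209081233346945230612555869065065654937726407343740908323365829563216935413785976412727041702103795759678683469346615565948938826733665070358684283708096)))

noncomputable def t0 : Tre := Helper55.PC.toT t0n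

theorem ok0 : chk4 K KFs t0 base = true :=
  Helper81.PC.chk4N_sound K KFs t0n base (by decide +kernel)

open Helper25.KW Helper55.KE in
theorem closed {p a b c J l q : ℤ} {D dl : ℝ} {Cl : ℤ → ℤ → ℤ → ℤ → ℝ → Prop}
    (W : World p a b c J 1 l q D dl Cl) (g : G0 p a b c J D)
    {N X R : ℤ} {I : ℝ} (hk : KCl p l Cl N X R I) (kz : KF a b D (X + (1 : ℤ) * I) (X + (1 : ℤ) * I + R) I)
    {Nu Ru : ℤ} {Iu : ℝ} (hu : VFac p D Cl Nu Ru Iu)
    (hU : KU p a b l 1 Cl (fun X R I => Zy b 1 D X R I) N)
    (hN0 : KNo p a b l 1 Cl (fun X R I => Zx 1 X R I ∧ Zy b 1 D X R I))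
    (hN1 : KNo p a b l 1 Cl (fun X R I => ZiD D J X R I ∧ Zy b 1 D X R I))
    (h0 : 1 ≤ (c : ℝ))
    (h1 : 1 ≤ (a : ℝ) - (b : ℝ) - (c : ℝ))
    (h2 : 0 < 2 * (b : ℝ) - D)
    (h3 : 1 ≤ 2 * (a : ℝ) - (b : ℝ))
    (h4 : 0 < (J : ℝ) - I)
    (h5 : 0 < (J : ℝ) - D + I)
    (h6 : 0 < (X : ℝ) + I)
    (h7 : 0 < -(b : ℝ) - (X : ℝ) + D - I)
    (h8 : 0 < -D + 2 * I)
    (h9 : 0 < (X : ℝ) + (R : ℝ) + I)
    (h10 : 1 ≤ (b : ℝ) + (c : ℝ) - (R : ℝ))
    (h11 : 1 ≤ (c : ℝ) + (R : ℝ))
    (h12 : 0 < (c : ℝ) - D)
    (h13 : 1 ≤ -(a : ℝ) + 2 * (b : ℝ) + (c : ℝ))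
    (h14 : 0 < (c : ℝ) - (X : ℝ) - (R : ℝ) - I)
    (h15 : 1 ≤ 1 + (a : ℝ) - 2 * (b : ℝ) - (c : ℝ) + (R : ℝ))
    (h16 : 0 < -(a : ℝ) + (c : ℝ) + (X : ℝ) + (R : ℝ) - D + I)
    (h17 : 0 < (c : ℝ) - (X : ℝ) - (R : ℝ) - D - I)
    (h18 : 0 < -(a : ℝ) + (p : ℝ) - 2 * (X : ℝ) - 2 * (R : ℝ) + D - 2 * I)
    (h19 : 0 < -(b : ℝ) - 2 * (X : ℝ) + D - 2 * I) : False := by
  have g1 := g.a2
  have g2 := g.b2
  have g3 := g.pa
  have g4 := g.pb
  have g5 := g.J1
  have g6 := g.JD
  have g7 := g.D2
  have g8 := g.ca
  have g9 := g.ca'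
  have k1 := kz.I0
  have k2 := kz.ID
  have k3 := kz.z1
  have k4 := kz.z2
  have k5 := kz.s1
  have k6 := kz.s2
  have i1 := hu.I0
  have i2 := hu.ID
  have i3 : -(p : ℝ) + 1 ≤ 2 * Ru := by exact_mod_cast (by have := hu.R1; omega : -p + 1 ≤ 2 * Ru)
  have i4 : 2 * (Ru : ℝ) + 1 ≤ p := by exact_mod_cast (by have := hu.R2; omega : 2 * Ru + 1 ≤ p)
  have hkf : ∀ M : ℤ, ∀ kf ∈ KFs, KOk4 p l Cl 1 (xv [1, a, b, c, p, J, X, R, Ru] [D, I, Iu]) N M kf := by
    intro M
    have hA1 : evg (xv [1, a, b, c, p, J, X, R, Ru] [D, I, Iu]) [0, 1] = a := by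
      simp only [evg_cons, evg_nil, xv, List.map_cons, List.map_nil, List.cons_append, List.nil_append]
      push_cast
      ring
    have hB1 : evg (xv [1, a, b, c, p, J, X, R, Ru] [D, I, Iu]) [0, 0, 1] = b := by
      simp only [evg_cons, evg_nil, xv, List.map_cons, List.map_nil, List.cons_append, List.nil_append]
      push_cast
      ring
    simp only [KFs, List.forall_mem_cons]
    refine ⟨kok4_u hA1 hB1 M hU ?_, kok4_no hA1 hB1 N M hN0 ?_, kok4_no hA1 hB1 N M hN1 ?_, fun _ h => absurd h (by simp)⟩
    · intro X' R' I' _ hg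
      simp only [List.forall_mem_cons, List.not_mem_nil, false_imp_iff, implies_true, and_true,
        evg_cons, evg_nil, xv, List.map_cons, List.map_nil, List.cons_append, List.nil_append] at hg
      push_cast at hg
      simp only [Zx, Zp, Zs, Zsp, Zi, ZiD, Zy]
      push_cast
      linarith
    · intro X' R' I' _ hg
      simp only [List.forall_mem_cons, List.not_mem_nil, false_imp_iff, implies_true, and_true,
        evg_cons, evg_nil, xv, List.map_cons, List.map_nil, List.cons_append, List.nil_append] at hg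
      push_cast at hg
      simp only [Zx, Zp, Zs, Zsp, Zi, ZiD, Zy]
      push_cast
      refine ⟨?_, ?_⟩ <;> linarith [hg.1, hg.2]
    · intro X' R' I' _ hg
      simp only [List.forall_mem_cons, List.not_mem_nil, false_imp_iff, implies_true, and_true,
        evg_cons, evg_nil, xv, List.map_cons, List.map_nil, List.cons_append, List.nil_append] at hg
      push_cast at hg
      simp only [Zx, Zp, Zs, Zsp, Zi, ZiD, Zy]
      push_cast
      refine ⟨?_, ?_⟩ <;> linarith [hg.1, hg.2]
  push_cast at *
  refine sound4 (val_U W.toBase hk (UV.ofV hu) []) W rfl (Nk := N)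
    (fun kf _ _ => ⟨_, rfl⟩) (fun _ _ _ => rfl) (hkf _) ok0 ?_
  · simp only [base, List.forall_mem_cons, List.not_mem_nil, false_imp_iff, implies_true,
      and_true, hld, xv, evg_cons, evg_nil, List.map_cons, List.map_nil, List.cons_append,
      List.nil_append, if_true, if_false, Bool.false_eq_true]
    push_cast
    refine ⟨?_, ?_, ?_, ?_, ?_, ?_, ?_, ?_, ?_, ?_, ?_, ?_, ?_, ?_, ?_, ?_, ?_, ?_, ?_, ?_, ?_, ?_, ?_, ?_, ?_, ?_, ?_, ?_, ?_, ?_, ?_, ?_, ?_, ?_, ?_, ?_, ?_, ?_⟩ <;> linarith

end Helper25.S1T.Zpp1Ca_r12
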