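import Pool.Agent.Helper81.PC.C4N
import Pool.Agent.Helper25.KG.C4
import Pool.Agent.Helper25.KG.C4d

set_option autoImplicit false
set_option linter.all false

namespace Helper25.S1T.Zpp1Ca_r27

open Helper25.KG Helper11.CT

noncomputable def K : Cls :=
  dU 1 false

noncomputable def KFs : List KF3 :=
  [(3, bx3 ++ [(-1, 0, 0, [0,0,-1,0,0,0,0,0,0,1])]),
    (0, bx3 ++ [(-1, 0, 0, []), (-1, 0, 0, [0,0,-1,0,0,0,0,0,0,1])]),
    (0, bx3 ++ [(0, 0, -1, [0,0,0,0,0,-1,0,0,0,1]), (-1, 0, 0, [0,0,-1,0,0,0,0,0,0,1])])]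

noncomputable def base : List Con :=
  [(true,[1,1,-1,-1,0,0,0,-1]),
  (false,[0,0,0,-1,0,0,0,0,0,1]),
  (false,[0,0,-1,0,0,0,-2,0,0,1,-2]),
  (false,[0,1,0,0,-1,0,2,2,0,-1,2]),
  (true,[0,1,-2,-1]),
  (false,[0,0,0,1,0,0,2,1,0,-2,2]),
  (false,[0,1,0,1,0,0,-1,-1,0,-1,-1]),
  (false,[0,0,-1,0,1,0,1,0,0,-2,1]),
  (true,[0,0,-1,-1,0,0,0,1]),
  (true,[1,0,-1,-1,0,0,0,1]),
  (false,[0,0,0,0,0,0,1,1,0,0,1]),
  (false,[0,0,0,0,0,0,0,0,0,-1,2]),
  (false,[0,0,-1,0,0,0,-1,0,0,1,-1]),
  (false,[0,0,0,0,0,0,1,0,0,0,1]),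
  (false,[0,0,0,0,0,1,0,0,0,-1,1]),
  (false,[0,0,0,0,0,1,0,0,0,0,-1]),
  (true,[0,0,0,0,1,0,0,0,-2]),
  (true,[0,0,0,0,1,0,0,0,2]),
  (false,[0,0,0,0,0,0,0,0,0,1,0,-2]),
  (false,[0,0,0,0,0,0,0,0,0,0,0,1]),
  (false,[0,1,0,0,0,0,1,1,0,0,1]),
  (false,[0,1,0,0,0,0,-1,-1,0,0,-1]),
  (false,[0,0,1,0,0,0,1,0,0,0,1]),
  (false,[0,0,1,0,0,0,-1,0,0,0,-1]),
  (false,[0,0,0,0,0,0,0,0,0,1,-1]),
  (false,[0,0,0,0,0,0,0,0,0,0,1]),
  (false,[0,0,0,0,1,0,0,0,0,-2]),
  (false,[0,0,0,0,0,-1,0,0,0,1]),
  (true,[0,0,0,0,0,1]),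
  (true,[0,2,-1]),
  (false,[0,0,2,0,0,0,0,0,0,-1]),
  (true,[0,1,-1,-1]),
  (true,[0,1,0,-1]),
  (true,[0,0,0,1]),
  (true,[0,0,-2,0,1]),
  (true,[0,-2,0,0,1]),
  (true,[-1,0,1]),
  (true,[-1,1])]

open Helper55.PC in
noncomputable def t0n : Helper55.PC.Ten :=
  (i 324637400738491769642409426550792 (r
  347525325692991169723504173673752964501621070313118303596314385684511049665600780222412363942242365335112015206208429061353059207592199441169990204635461996685925157900965336997568509845301441493842768959814528974542541475065121720659739592286769856610317245637700729501294094524332395279420997306737367477907603065344933839736587906673712497074348942330013075219959810912866562884612302283532553133051921163964244249624792613882461006227234208170787531987915749972899552254645201657720703568773714005135408462426695270196311564439972187229397184)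
  (q
  308480363176942489140735875686624087742316881241728892245458476731349270982315253931739840557855176047227830230335960297528354040620373843370945413132
  (i 2658131591863253384123690215798865929 (k
  135557840963042075802396496379914896545618546302474148962264143987541182245409272969431777772812777518940783226303230574460848538915949465767361570664869281631646295742097035632333574099812124013422411755252432308486112288)
  (k
  7348605283478327156602104110722325231466154840002236811833062350866429657342693704669495138782067387078185180975296389439946309914155258283111607492264519741547858000339269949105876540495056059300414496))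
  (q 1422889379122137203203529244545091504545268771414684429240352740637836073584951308 (k
  10739998653902060971546800783070419809987887423379032339424798438457518972335800192548529385726290563238645888634695166128729531506576708972643727317200110056913318273998871479367174690964017871880247706524690557964607817435536112340649081616725017632)
  (q 3978631423738428579327691700407153913070936896147030596874595637493237889109498110541836 (k
  7121396220169791487592758747033684913345829012249639614101687381230358251658005289217543119468174900707621440432169911477582548417720028470617617891748835084563540336265445630966638867722197735032851268567155655218583801513089204162694517291931182055175352183065335535232184454390040259652674060604157241855159542457020774159806012359712)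
  (r
  22751203835223998321291969029908343593728845078922359297172512602575726750283027795936852409574036464785056182500965252790904343794016461796976971427894699804356341731688710219692931647303613889074815199209950248853215589765525781541585885284963076849685480765169198167458908414851682698669600195313371317079051148083700490192552636442103004636465260318767888113179471098235298280163327414780102713847683939931670742403387957302913807076556145876306820937414032621664510220384413179429638155677745775981857510153947626143825832862668444053851902059542735334090396701907384768263300647463252861050142643289695693862346976)))))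

noncomputable def t0 : Tre := Helper55.PC.toT t0n

theorem ok0 : chk4 K KFs t0 base = true :=
  Helper81.PC.chk4N_sound K KFs t0n base (by decide +kernel)

open Helper25.KW Helper55.KE in
theorem closed {p a b c J l q : ℤ} {D dl : ℝ} {Cl : ℤ → ℤ → ℤ → ℤ → ℝ → Prop}
    (W : World p a b c J 1 l q D dl Cl) (g : G0 p a b c J D)
    {N X R : ℤ} {I : ℝ} (hk : KCl p l Cl N X R I) (kz : KF a b D (X + (1 : ℤ) * I) (X + (1 : ℤ) * I + R) I)
    {Nu Ru : ℤ} {Iu : ℝ} (hu : VFac p D Cl Nu Ru Iu)
    (hU : KU p a b l 1 Cl (fun X R I => Zy b 1 D X R I) N)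
    (hN0 : KNo p a b l 1 Cl (fun X R I => Zx 1 X R I ∧ Zy b 1 D X R I))
    (hN1 : KNo p a b l 1 Cl (fun X R I => ZiD D J X R I ∧ Zy b 1 D X R I))
    (h0 : 1 ≤ (c : ℝ))
    (h1 : 1 ≤ (a : ℝ) - (b : ℝ) - (c : ℝ))
    (h2 : 0 < 2 * (b : ℝ) - D)
    (h3 : 1 ≤ 2 * (a : ℝ) - (b : ℝ))
    (h4 : 0 < (J : ℝ) - I)
    (h5 : 0 < (J : ℝ) - D + I)
    (h6 : 0 < (X : ℝ) + I)
    (h7 : 0 < -(b : ℝ) - (X : ℝ) + D - I)
    (h8 : 0 < -D + 2 * I)
    (h9 : 0 < (X : ℝ) + (R : ℝ) + I)
    (h10 : 1 ≤ 1 - (b : ℝ) - (c : ℝ) + (R : ℝ))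
    (h11 : 1 ≤ -(b : ℝ) - (c : ℝ) + (R : ℝ))
    (h12 : 0 < -(b : ℝ) + (p : ℝ) + (X : ℝ) - 2 * D + I)
    (h13 : 0 < (a : ℝ) + (c : ℝ) - (X : ℝ) - (R : ℝ) - D - I)
    (h14 : 0 < (c : ℝ) + 2 * (X : ℝ) + (R : ℝ) - 2 * D + 2 * I)
    (h15 : 1 ≤ (a : ℝ) - 2 * (b : ℝ) - (c : ℝ))
    (h16 : 0 < (a : ℝ) - (p : ℝ) + 2 * (X : ℝ) + 2 * (R : ℝ) - D + 2 * I)
    (h17 : 0 < -(b : ℝ) - 2 * (X : ℝ) + D - 2 * I)
    (h18 : 0 < -(c : ℝ) + D)
    (h19 : 1 ≤ 1 + (a : ℝ) - (b : ℝ) - (c : ℝ) - (R : ℝ)) : False := by
  have g1 := g.a2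
  have g2 := g.b2
  have g3 := g.pa
  have g4 := g.pb
  have g5 := g.J1
  have g6 := g.JD
  have g7 := g.D2
  have g8 := g.ca
  have g9 := g.ca'
  have k1 := kz.I0
  have k2 := kz.ID
  have k3 := kz.z1
  have k4 := kz.z2
  have k5 := kz.s1
  have k6 := kz.s2
  have i1 := hu.I0
  have i2 := hu.ID
  have i3 : -(p : ℝ) + 1 ≤ 2 * Ru := by exact_mod_cast (by have := hu.R1; omega : -p + 1 ≤ 2 * Ru)
  have i4 : 2 * (Ru : ℝ) + 1 ≤ p := by exact_mod_cast (by have := hu.R2; omega : 2 * Ru + 1 ≤ p)
  have hkf : ∀ M : ℤ, ∀ kf ∈ KFs, KOk4 p l Cl 1 (xv [1, a, b, c, p, J, X, R, Ru] [D, I, Iu]) N M kf := by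
    intro M
    have hA1 : evg (xv [1, a, b, c, p, J, X, R, Ru] [D, I, Iu]) [0, 1] = a := by
      simp only [evg_cons, evg_nil, xv, List.map_cons, List.map_nil, List.cons_append, List.nil_append]
      push_cast
      ring
    have hB1 : evg (xv [1, a, b, c, p, J, X, R, Ru] [D, I, Iu]) [0, 0, 1] = b := by
      simp only [evg_cons, evg_nil, xv, List.map_cons, List.map_nil, List.cons_append, List.nil_append]
      push_cast
      ring
    simp only [KFs, List.forall_mem_cons]
    refine ⟨kok4_u hA1 hB1 M hU ?_, kok4_no hA1 hB1 N M hN0 ?_, kok4_no hA1 hB1 N M hN1 ?_, fun _ h => absurd h (by simp)⟩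
    · intro X' R' I' _ hg
      simp only [List.forall_mem_cons, List.not_mem_nil, false_imp_iff, implies_true, and_true,
        evg_cons, evg_nil, xv, List.map_cons, List.map_nil, List.cons_append, List.nil_append] at hg
      push_cast at hg
      simp only [Zx, Zp, Zs, Zsp, Zi, ZiD, Zy]
      push_cast
      linarith
    · intro X' R' I' _ hg
      simp only [List.forall_mem_cons, List.not_mem_nil, false_imp_iff, implies_true, and_true,
        evg_cons, evg_nil, xv, List.map_cons, List.map_nil, List.cons_append, List.nil_append] at hg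
      push_cast at hg
      simp only [Zx, Zp, Zs, Zsp, Zi, ZiD, Zy]
      push_cast
      refine ⟨?_, ?_⟩ <;> linarith [hg.1, hg.2]
    · intro X' R' I' _ hg
      simp only [List.forall_mem_cons, List.not_mem_nil, false_imp_iff, implies_true, and_true,
        evg_cons, evg_nil, xv, List.map_cons, List.map_nil, List.cons_append, List.nil_append] at hg
      push_cast at hg
      simp only [Zx, Zp, Zs, Zsp, Zi, ZiD, Zy]
      push_cast
      refine ⟨?_, ?_⟩ <;> linarith [hg.1, hg.2]
  push_cast at *
  refine sound4 (val_U W.toBase hk (UV.ofV hu) []) W rfl (Nk := N)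
    (fun kf _ _ => ⟨_, rfl⟩) (fun _ _ _ => rfl) (hkf _) ok0 ?_
  · simp only [base, List.forall_mem_cons, List.not_mem_nil, false_imp_iff, implies_true,
      and_true, hld, xv, evg_cons, evg_nil, List.map_cons, List.map_nil, List.cons_append,
      List.nil_append, if_true, if_false, Bool.false_eq_true]
    push_cast
    refine ⟨?_, ?_, ?_, ?_, ?_, ?_, ?_, ?_, ?_, ?_, ?_, ?_, ?_, ?_, ?_, ?_, ?_, ?_, ?_, ?_, ?_, ?_, ?_, ?_, ?_, ?_, ?_, ?_, ?_, ?_, ?_, ?_, ?_, ?_, ?_, ?_, ?_, ?_⟩ <;> linarith

end Helper25.S1T.Zpp1Ca_r27
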