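import Pool.Agent.Helper81.PC.C4N
import Pool.Agent.Helper25.KG.C4
import Pool.Agent.Helper25.KG.C4d

set_option autoImplicit false
set_option linter.all false

namespace Helper25.S1T.Zpp1Ca_r4

open Helper25.KG Helper11.CT

noncomputable def K : Cls :=
  dK 1

noncomputable def KFs : List KF3 :=
  [(3, bx3 ++ [(-1, 0, 0, [0,0,-1,0,0,0,0,0,1])]),
    (0, bx3 ++ [(-1, 0, 0, []), (-1, 0, 0, [0,0,-1,0,0,0,0,0,1])]),
    (0, bx3 ++ [(0, 0, -1, [0,0,0,0,0,-1,0,0,1]), (-1, 0, 0, [0,0,-1,0,0,0,0,0,1])])]

noncomputable def base : List Con :=
  [(false,[0,1,0,1,0,0,2,1,-2,2]),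
  (false,[0,0,-1,0,0,0,-2,0,1,-2]),
  (true,[1,1,-2,-1,0,0,0,1]),
  (true,[0,1,-1,-1,0,0,0,1]),
  (false,[0,0,0,1,0,0,-1,-1,-1,-1]),
  (false,[0,0,-2,0,1,0,0,0,-1]),
  (false,[0,1,0,-1,0,0,2,2,0,2]),
  (true,[0,1,-1,0,0,0,0,1]),
  (false,[0,0,0,0,0,0,-1,-1,0,-1]),
  (false,[0,0,0,0,0,0,0,0,-1,2]),
  (false,[0,0,-1,0,0,0,-1,0,1,-1]),
  (false,[0,0,0,0,0,0,1,0,0,1]),
  (false,[0,0,0,0,0,1,0,0,-1,1]),
  (false,[0,0,0,0,0,1,0,0,0,-1]),
  (false,[0,1,0,0,0,0,1,1,0,1]),
  (false,[0,1,0,0,0,0,-1,-1,0,-1]),
  (false,[0,0,1,0,0,0,1,0,0,1]),
  (false,[0,0,1,0,0,0,-1,0,0,-1]),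
  (false,[0,0,0,0,0,0,0,0,1,-1]),
  (false,[0,0,0,0,0,0,0,0,0,1]),
  (false,[0,0,0,0,1,0,0,0,-2]),
  (false,[0,0,0,0,0,-1,0,0,1]),
  (true,[0,0,0,0,0,1]),
  (true,[0,2,-1]),
  (false,[0,0,2,0,0,0,0,0,-1]),
  (true,[0,1,-1,-1]),
  (true,[0,1,0,-1]),
  (true,[0,0,0,1]),
  (true,[0,0,-2,0,1]),
  (true,[0,-2,0,0,1]),
  (true,[-1,0,1]),
  (true,[-1,1])]

open Helper55.PC in
noncomputable def t0n : Helper55.PC.Ten :=
  (q
  178710201133262141393985888439587864261571160430554584275438862299793943289204208842468059620824182745720289779070899138683338762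
  (k
  99407576718749741356256462810447228449167325916916542750139576577884374215239538232951361282442924612166442588587409689385520197591724505295421859902355332074376148886608117141171648146090614561244039216072830756176127241516284600563337136228885184999607756642161193444206229159835255466765130304600)
  (q
  178710242449260190784523322934362967894910743159293070580317652446667350456536807548580469170884220502917995500586969289116221450
  (k
  7979509596922623218788032801201267511107004732320951339320413659406743454121643475955323014782310105963828252000092441294055668604236399048244084562894640038860923269754339092271428327781196504825686012628687366194708323702372288642441708689222129482401978211777877061339187381767239583467020257947025448043641177275138617281624)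
  (q
  163037477384129072522816609724854953841097418183060520569171490866788640020743429999873743883868415349485181645342142048953840378509370596323733331992236887551267088891159980758787873351965891695773004988426
  (r
  390392055656229787560674421433058493520908354234012328021800540602228868044718168426130872258521067577987161989617438870232430339826515435306188530939709570639230422493812992809083828030717311662263498823283142341987865932918464833377113413173982452829566606303031425127961650626858722612919960439776883880491333350846870591690612071817849609640521926186557971198527644369483620602831944244593148448391623862523223984737452690303653291635625429339669488202474661421791904114481873116185871407502622142628521948957426348279689125645736318114546709686331208952844042680598157056562394527553305605242371891434190357580932552455590615963280447421056295470620864)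
  (q
  86182724129210359219189112824348050916792303506062621395267930651545057251414375687224398399362415190435241111328722915559911036333063416163414202957409730811652278047754968798623173730244000889874212928995362471946
  (r
  4376446303701313616491420326381337447537242901321659963658205186322114501118250818486755537840138681278090203500447152278702071533302225157716347281868227154083315590782447350031734851639775005074648322668611479215386197119486121718331305370687362713267703482991094603747871886747731235936517299620074420886052795229794511992984276220128087441049501709648747852257721689224840940885174558398978314514151213958403813469923449715363323196741867864601277308776146275626289100357998009905367628050798860448358671252875219970066281929124852352176068800709964543423737977914672975878811251508780047335523650409626084032)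
  (r
  4481481014990145143287214414212074671852887237779878741134527494648964069542066640966108835212270831407640094971808732295609279194973614560726485756384540711943196151808683372610398491111106433153735559069757278803222397947587496508941422305586402310237231231201922568507503967888921778226739023469387360747500394520764436110392211563449613946891594143125417100149602503459458712093914829356088445405012293603072806700345070126668243243540215494563654736021860189552818989826731466291288918333547130633020743164097013598671425987742513480311084253011260235451887073241942214353150799189965510733307116700286473478848)))))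

noncomputable def t0 : Tre := Helper55.PC.toT t0n

theorem ok0 : chk4 K KFs t0 base = true :=
  Helper81.PC.chk4N_sound K KFs t0n base (by decide +kernel)

open Helper25.KW Helper55.KE in
theorem closed {p a b c J l q : ℤ} {D dl : ℝ} {Cl : ℤ → ℤ → ℤ → ℤ → ℝ → Prop}
    (W : World p a b c J 1 l q D dl Cl) (g : G0 p a b c J D)
    {N X R : ℤ} {I : ℝ} (hk : KCl p l Cl N X R I) (kz : KF a b D (X + (1 : ℤ) * I) (X + (1 : ℤ) * I + R) I)
    (hU : KU p a b l 1 Cl (fun X R I => Zy b 1 D X R I) N)
    (hN0 : KNo p a b l 1 Cl (fun X R I => Zx 1 X R I ∧ Zy b 1 D X R I))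
    (hN1 : KNo p a b l 1 Cl (fun X R I => ZiD D J X R I ∧ Zy b 1 D X R I))
    (h0 : 1 ≤ (c : ℝ))
    (h1 : 1 ≤ (a : ℝ) - (b : ℝ) - (c : ℝ))
    (h2 : 0 < 2 * (b : ℝ) - D)
    (h3 : 1 ≤ 2 * (a : ℝ) - (b : ℝ))
    (h4 : 0 < (J : ℝ) - I)
    (h5 : 0 < (J : ℝ) - D + I)
    (h6 : 0 < (X : ℝ) + I)
    (h7 : 0 < -(b : ℝ) - (X : ℝ) + D - I)
    (h8 : 0 < -D + 2 * I)
    (h9 : 0 < -(X : ℝ) - (R : ℝ) - I)
    (h10 : 1 ≤ (a : ℝ) - (b : ℝ) + (R : ℝ))
    (h11 : 0 < (a : ℝ) - (c : ℝ) + 2 * (X : ℝ) + 2 * (R : ℝ) + 2 * I)
    (h12 : 0 < -2 * (b : ℝ) + (p : ℝ) - D)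
    (h13 : 0 < (c : ℝ) - (X : ℝ) - (R : ℝ) - D - I)
    (h14 : 1 ≤ (a : ℝ) - (b : ℝ) - (c : ℝ) + (R : ℝ))
    (h15 : 1 ≤ 1 + (a : ℝ) - 2 * (b : ℝ) - (c : ℝ) + (R : ℝ))
    (h16 : 0 < -(b : ℝ) - 2 * (X : ℝ) + D - 2 * I)
    (h17 : 0 < (a : ℝ) + (c : ℝ) + 2 * (X : ℝ) + (R : ℝ) - 2 * D + 2 * I) : False := by
  have g1 := g.a2
  have g2 := g.b2
  have g3 := g.pa
  have g4 := g.pb
  have g5 := g.J1
  have g6 := g.JD
  have g7 := g.D2
  have g8 := g.ca
  have g9 := g.ca'
  have k1 := kz.I0
  have k2 := kz.ID
  have k3 := kz.z1
  have k4 := kz.z2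
  have k5 := kz.s1
  have k6 := kz.s2
  have hkf : ∀ M : ℤ, ∀ kf ∈ KFs, KOk4 p l Cl 1 (xv [1, a, b, c, p, J, X, R] [D, I]) N M kf := by
    intro M
    have hA1 : evg (xv [1, a, b, c, p, J, X, R] [D, I]) [0, 1] = a := by
      simp only [evg_cons, evg_nil, xv, List.map_cons, List.map_nil, List.cons_append, List.nil_append]
      push_cast
      ring
    have hB1 : evg (xv [1, a, b, c, p, J, X, R] [D, I]) [0, 0, 1] = b := by
      simp only [evg_cons, evg_nil, xv, List.map_cons, List.map_nil, List.cons_append, List.nil_append]
      push_cast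
      ring
    simp only [KFs, List.forall_mem_cons]
    refine ⟨kok4_u hA1 hB1 M hU ?_, kok4_no hA1 hB1 N M hN0 ?_, kok4_no hA1 hB1 N M hN1 ?_, fun _ h => absurd h (by simp)⟩
    · intro X' R' I' _ hg
      simp only [List.forall_mem_cons, List.not_mem_nil, false_imp_iff, implies_true, and_true,
        evg_cons, evg_nil, xv, List.map_cons, List.map_nil, List.cons_append, List.nil_append] at hg
      push_cast at hg
      simp only [Zx, Zp, Zs, Zsp, Zi, ZiD, Zy]
      push_cast
      linarith
    · intro X' R' I' _ hg
      simp only [List.forall_mem_cons, List.not_mem_nil, false_imp_iff, implies_true, and_true,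
        evg_cons, evg_nil, xv, List.map_cons, List.map_nil, List.cons_append, List.nil_append] at hg
      push_cast at hg
      simp only [Zx, Zp, Zs, Zsp, Zi, ZiD, Zy]
      push_cast
      refine ⟨?_, ?_⟩ <;> linarith [hg.1, hg.2]
    · intro X' R' I' _ hg
      simp only [List.forall_mem_cons, List.not_mem_nil, false_imp_iff, implies_true, and_true,
        evg_cons, evg_nil, xv, List.map_cons, List.map_nil, List.cons_append, List.nil_append] at hg
      push_cast at hg
      simp only [Zx, Zp, Zs, Zsp, Zi, ZiD, Zy]
      push_cast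
      refine ⟨?_, ?_⟩ <;> linarith [hg.1, hg.2]
  push_cast at *
  refine sound4 (val_K W.toBase hk []) W rfl (Nk := N)
    (fun kf _ _ => ⟨_, rfl⟩) (fun _ _ _ => rfl) (hkf _) ok0 ?_
  · simp only [base, List.forall_mem_cons, List.not_mem_nil, false_imp_iff, implies_true,
      and_true, hld, xv, evg_cons, evg_nil, List.map_cons, List.map_nil, List.cons_append,
      List.nil_append, if_true, if_false, Bool.false_eq_true]
    push_cast
    refine ⟨?_, ?_, ?_, ?_, ?_, ?_, ?_, ?_, ?_, ?_, ?_, ?_, ?_, ?_, ?_, ?_, ?_, ?_, ?_, ?_, ?_, ?_, ?_, ?_, ?_, ?_, ?_, ?_, ?_, ?_, ?_, ?_⟩ <;> linarith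

end Helper25.S1T.Zpp1Ca_r4
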