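import Pool.Agent.Helper81.PC.C4N
import Pool.Agent.Helper25.KG.C4
import Pool.Agent.Helper25.KG.C4d

set_option autoImplicit false
set_option linter.all false

namespace Helper25.S1T.Zpp1Ca_r6

open Helper25.KG Helper11.CT

noncomputable def K : Cls :=
  dU 1 false

noncomputable def KFs : List KF3 :=
  [(3, bx3 ++ [(-1, 0, 0, [0,0,-1,0,0,0,0,0,0,1])]),
    (0, bx3 ++ [(-1, 0, 0, []), (-1, 0, 0, [0,0,-1,0,0,0,0,0,0,1])]),
    (0, bx3 ++ [(0, 0, -1, [0,0,0,0,0,-1,0,0,0,1]), (-1, 0, 0, [0,0,-1,0,0,0,0,0,0,1])])]

noncomputable def base : List Con :=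
  [(true,[1,1,-2,-1,0,0,0,1]),
  (false,[0,0,0,1,0,0,-1,-1,0,-1,-1]),
  (true,[1,1,-1,-1,0,0,0,1]),
  (false,[0,0,0,-1,0,0,0,0,0,1]),
  (false,[0,0,-1,0,0,0,-2,0,0,1,-2]),
  (false,[0,-1,0,1,0,0,-2,-2,0,0,-2]),
  (true,[0,1,-1,0,0,0,0,1]),
  (false,[0,0,0,0,0,0,-1,-1,0,0,-1]),
  (false,[0,0,0,0,0,0,0,0,0,-1,2]),
  (false,[0,0,-1,0,0,0,-1,0,0,1,-1]),
  (false,[0,0,0,0,0,0,1,0,0,0,1]),
  (false,[0,0,0,0,0,1,0,0,0,-1,1]),
  (false,[0,0,0,0,0,1,0,0,0,0,-1]),
  (true,[0,0,0,0,1,0,0,0,-2]),
  (true,[0,0,0,0,1,0,0,0,2]),
  (false,[0,0,0,0,0,0,0,0,0,1,0,-2]),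
  (false,[0,0,0,0,0,0,0,0,0,0,0,1]),
  (false,[0,1,0,0,0,0,1,1,0,0,1]),
  (false,[0,1,0,0,0,0,-1,-1,0,0,-1]),
  (false,[0,0,1,0,0,0,1,0,0,0,1]),
  (false,[0,0,1,0,0,0,-1,0,0,0,-1]),
  (false,[0,0,0,0,0,0,0,0,0,1,-1]),
  (false,[0,0,0,0,0,0,0,0,0,0,1]),
  (false,[0,0,0,0,1,0,0,0,0,-2]),
  (false,[0,0,0,0,0,-1,0,0,0,1]),
  (true,[0,0,0,0,0,1]),
  (true,[0,2,-1]),
  (false,[0,0,2,0,0,0,0,0,0,-1]),
  (true,[0,1,-1,-1]),
  (true,[0,1,0,-1]),
  (true,[0,0,0,1]),
  (true,[0,0,-2,0,1]),
  (true,[0,-2,0,0,1]),
  (true,[-1,0,1]),
  (true,[-1,1])]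

open Helper55.PC in
noncomputable def t0n : Helper55.PC.Ten :=
  (q
  170720996355937645892983159588946340063977960291296843878933391192380060867660745886576270375129590436499219944605784355457817357509189083201548
  (q
  170720996355937732538911100864410701889564558426161955737067672992835999557422059441666856162387327708836815905404995538414831126873474745892876
  (q
  4948818903907091370875735335490840948544458777303955840054748823028903094930280398973280484693810645044104758240411281534302389516314934037199444822838496093667340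
  (q 1422889378901281320003387168514603939317718383026414535569479379558766933115273228 (r
  2803446249584295304827914299177590589480023223197500580118873256203695295697314955034418578241484405224625897175562054903353323906426855691369016130715502396218444919488139609468943109576625939087316656172780043210863743654415140209689981754046517414366969978273791885323105544446987801383089585962386960485895925856939654849933748592811274089511720125562192978032411268910501738550556464219972580479850077535906004445495825767738791868549908059364073444446099610264763031328528887657968001433215712)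
  (r
  51714455490482367944977732445164195512470228365011310296236815860250333225249488053969482268156408642773924832506944724233116370644849120054419888294802144441630193074951923036605023774394416531878989399399972920760961100499368047531809358510777595223001254679691729032388520416086473872449188423885310662728434389977366799030812878432537701163902567528152269344267498766884274714942569510452314633192681196708229232279203386612724946751304224558974215664177902801202052204438742667372527445519143705467216123586683616))
  (k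
  46127591062744974529921561191449548273296216806440998460271938334137652540723013422111524541683879010559589189007360894711461250534837759935275780688463774039539601547514540092077767466373034516399907390841634724331894450476034442828054016101590899154993906720))
  (i 2658131591863253384123690215798865929 (k
  582212051862698896010923362202240539341120795559444230028053015812197906479018750275982322433773294652833903122254612558276691820099739873462780596346717676433907012288799944274122937808739650731249070355181066784074408788210320416)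
  (k
  38155849030873925218796855027407041257055763004906199008321339416588507985712600118486538184268368736386171426134321535165245565617283077058313757040899487541911398756057530749213923486905292131407727710709940357714873099032534476489760)))
  (i 2658131591863253384123655027131809801 (r
  62518940485596815222717857151403918628005431450140671766203229491440020488387796671557037157722466840436662799514535368102809716652603376486324295719280955917806466572591018634785494784530055832261112487985079357358307310918191971816094993937011098651664366540198969574801936344496821400593671073283060462200071700828058215883349208352757988868449905435372609055814828940922223565427773086452105155879546377609772163195000985771034348255420182074549956675438969049158088946726485680031336113911284835207691059493553728353255069320594272821952)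
  (k
  163877706987820958168708334800616360550763480137268635860886485102912197793109795276685650985527672138232500281893639239295326265052808355058380142111696560711717876928186638347531645881472116374212572117974098734623841460902429805955608202019872)))

noncomputable def t0 : Tre := Helper55.PC.toT t0n

theorem ok0 : chk4 K KFs t0 base = true :=
  Helper81.PC.chk4N_sound K KFs t0n base (by decide +kernel)

open Helper25.KW Helper55.KE in
theorem closed {p a b c J l q : ℤ} {D dl : ℝ} {Cl : ℤ → ℤ → ℤ → ℤ → ℝ → Prop}
    (W : World p a b c J 1 l q D dl Cl) (g : G0 p a b c J D)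
    {N X R : ℤ} {I : ℝ} (hk : KCl p l Cl N X R I) (kz : KF a b D (X + (1 : ℤ) * I) (X + (1 : ℤ) * I + R) I)
    {Nu Ru : ℤ} {Iu : ℝ} (hu : VFac p D Cl Nu Ru Iu)
    (hU : KU p a b l 1 Cl (fun X R I => Zy b 1 D X R I) N)
    (hN0 : KNo p a b l 1 Cl (fun X R I => Zx 1 X R I ∧ Zy b 1 D X R I))
    (hN1 : KNo p a b l 1 Cl (fun X R I => ZiD D J X R I ∧ Zy b 1 D X R I))
    (h0 : 1 ≤ (c : ℝ))
    (h1 : 1 ≤ (a : ℝ) - (b : ℝ) - (c : ℝ))
    (h2 : 0 < 2 * (b : ℝ) - D)
    (h3 : 1 ≤ 2 * (a : ℝ) - (b : ℝ))
    (h4 : 0 < (J : ℝ) - I)
    (h5 : 0 < (J : ℝ) - D + I)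
    (h6 : 0 < (X : ℝ) + I)
    (h7 : 0 < -(b : ℝ) - (X : ℝ) + D - I)
    (h8 : 0 < -D + 2 * I)
    (h9 : 0 < -(X : ℝ) - (R : ℝ) - I)
    (h10 : 1 ≤ (a : ℝ) - (b : ℝ) + (R : ℝ))
    (h11 : 0 < -(a : ℝ) + (c : ℝ) - 2 * (X : ℝ) - 2 * (R : ℝ) - 2 * I)
    (h12 : 0 < -(b : ℝ) - 2 * (X : ℝ) + D - 2 * I)
    (h13 : 0 < -(c : ℝ) + D)
    (h14 : 1 ≤ 1 + (a : ℝ) - (b : ℝ) - (c : ℝ) + (R : ℝ))
    (h15 : 0 < (c : ℝ) - (X : ℝ) - (R : ℝ) - D - I)
    (h16 : 1 ≤ 1 + (a : ℝ) - 2 * (b : ℝ) - (c : ℝ) + (R : ℝ)) : False := by
  have g1 := g.a2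
  have g2 := g.b2
  have g3 := g.pa
  have g4 := g.pb
  have g5 := g.J1
  have g6 := g.JD
  have g7 := g.D2
  have g8 := g.ca
  have g9 := g.ca'
  have k1 := kz.I0
  have k2 := kz.ID
  have k3 := kz.z1
  have k4 := kz.z2
  have k5 := kz.s1
  have k6 := kz.s2
  have i1 := hu.I0
  have i2 := hu.ID
  have i3 : -(p : ℝ) + 1 ≤ 2 * Ru := by exact_mod_cast (by have := hu.R1; omega : -p + 1 ≤ 2 * Ru)
  have i4 : 2 * (Ru : ℝ) + 1 ≤ p := by exact_mod_cast (by have := hu.R2; omega : 2 * Ru + 1 ≤ p)
  have hkf : ∀ M : ℤ, ∀ kf ∈ KFs, KOk4 p l Cl 1 (xv [1, a, b, c, p, J, X, R, Ru] [D, I, Iu]) N M kf := by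
    intro M
    have hA1 : evg (xv [1, a, b, c, p, J, X, R, Ru] [D, I, Iu]) [0, 1] = a := by
      simp only [evg_cons, evg_nil, xv, List.map_cons, List.map_nil, List.cons_append, List.nil_append]
      push_cast
      ring
    have hB1 : evg (xv [1, a, b, c, p, J, X, R, Ru] [D, I, Iu]) [0, 0, 1] = b := by
      simp only [evg_cons, evg_nil, xv, List.map_cons, List.map_nil, List.cons_append, List.nil_append]
      push_cast
      ring
    simp only [KFs, List.forall_mem_cons]
    refine ⟨kok4_u hA1 hB1 M hU ?_, kok4_no hA1 hB1 N M hN0 ?_, kok4_no hA1 hB1 N M hN1 ?_, fun _ h => absurd h (by simp)⟩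
    · intro X' R' I' _ hg
      simp only [List.forall_mem_cons, List.not_mem_nil, false_imp_iff, implies_true, and_true,
        evg_cons, evg_nil, xv, List.map_cons, List.map_nil, List.cons_append, List.nil_append] at hg
      push_cast at hg
      simp only [Zx, Zp, Zs, Zsp, Zi, ZiD, Zy]
      push_cast
      linarith
    · intro X' R' I' _ hg
      simp only [List.forall_mem_cons, List.not_mem_nil, false_imp_iff, implies_true, and_true,
        evg_cons, evg_nil, xv, List.map_cons, List.map_nil, List.cons_append, List.nil_append] at hg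
      push_cast at hg
      simp only [Zx, Zp, Zs, Zsp, Zi, ZiD, Zy]
      push_cast
      refine ⟨?_, ?_⟩ <;> linarith [hg.1, hg.2]
    · intro X' R' I' _ hg
      simp only [List.forall_mem_cons, List.not_mem_nil, false_imp_iff, implies_true, and_true,
        evg_cons, evg_nil, xv, List.map_cons, List.map_nil, List.cons_append, List.nil_append] at hg
      push_cast at hg
      simp only [Zx, Zp, Zs, Zsp, Zi, ZiD, Zy]
      push_cast
      refine ⟨?_, ?_⟩ <;> linarith [hg.1, hg.2]
  push_cast at *
  refine sound4 (val_U W.toBase hk (UV.ofV hu) []) W rfl (Nk := N)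
    (fun kf _ _ => ⟨_, rfl⟩) (fun _ _ _ => rfl) (hkf _) ok0 ?_
  · simp only [base, List.forall_mem_cons, List.not_mem_nil, false_imp_iff, implies_true,
      and_true, hld, xv, evg_cons, evg_nil, List.map_cons, List.map_nil, List.cons_append,
      List.nil_append, if_true, if_false, Bool.false_eq_true]
    push_cast
    refine ⟨?_, ?_, ?_, ?_, ?_, ?_, ?_, ?_, ?_, ?_, ?_, ?_, ?_, ?_, ?_, ?_, ?_, ?_, ?_, ?_, ?_, ?_, ?_, ?_, ?_, ?_, ?_, ?_, ?_, ?_, ?_, ?_, ?_, ?_, ?_⟩ <;> linarith

end Helper25.S1T.Zpp1Ca_r6
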