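import Pool.Agent.Helper25.S1T.Zpp1Ca_r1
import Pool.Agent.Helper25.S1T.Zpp1Ca_r2
import Pool.Agent.Helper25.S1T.Zpp1Ca_r3
import Pool.Agent.Helper25.S1T.Zpp1Ca_r4
import Pool.Agent.Helper25.S1T.Zpp1Ca_r5
import Pool.Agent.Helper25.S1T.Zpp1Ca_r6
import Pool.Agent.Helper25.S1T.Zpp1Ca_r7
import Pool.Agent.Helper25.S1T.Zpp1Ca_r8
import Pool.Agent.Helper25.S1T.Zpp1Ca_r9
import Pool.Agent.Helper25.S1T.Zpp1Ca_r10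
import Pool.Agent.Helper25.S1T.Zpp1Ca_r11
import Pool.Agent.Helper25.S1T.Zpp1Ca_r12
import Pool.Agent.Helper25.S1T.Zpp1Ca_r13
import Pool.Agent.Helper25.S1T.Zpp1Ca_r14
import Pool.Agent.Helper25.S1T.Zpp1Ca_r15
import Pool.Agent.Helper25.S1T.Zpp1Ca_r16
import Pool.Agent.Helper25.S1T.Zpp1Ca_r17
import Pool.Agent.Helper25.S1T.Zpp1Ca_r18
import Pool.Agent.Helper25.S1T.Zpp1Ca_r19
import Pool.Agent.Helper25.S1T.Zpp1Ca_r20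
import Pool.Agent.Helper25.S1T.Zpp1Ca_r21
import Pool.Agent.Helper25.S1T.Zpp1Ca_r22
import Pool.Agent.Helper25.S1T.Zpp1Ca_r23
import Pool.Agent.Helper25.S1T.Zpp1Ca_r24
import Pool.Agent.Helper25.S1T.Zpp1Ca_r25
import Pool.Agent.Helper25.S1T.Zpp1Ca_r26
import Pool.Agent.Helper25.S1T.Zpp1Ca_r27
import Pool.Agent.Helper25.S1T.Zpp1Ca_r28
import Pool.Agent.Helper25.S1T.Zpp1Ca_r29
import Pool.Agent.Helper25.S1T.Zpp1Ca_r30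
import Pool.Agent.Helper25.S1T.Zpp1Ca_r31
import Pool.Agent.Helper25.KG.C4
import Pool.Agent.Helper25.KW.S1K2
import Pool.Agent.Helper25.KW.S1K3

set_option autoImplicit false
set_option linter.all false

namespace Helper25.S1T

open Helper25.KG Helper25.KW Helper55.KE Helper11.CT

theorem g_Zpp1Ca_r2 {p a b c J l q : ℤ} {D dl : ℝ} {Cl : ℤ → ℤ → ℤ → ℤ → ℝ → Prop}
    (W : World p a b c J 1 l q D dl Cl) (hc : -a < c) (hA : Aux p a b 1 D Cl) (hX : UVB p D Cl)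
    {N X R : ℤ} {I : ℝ} (hK : KGF p a b 1 D (P1 l p) Cl N X R I)
    (hU : KU p a b l 1 Cl (fun X R I => Zy b 1 D X R I) N)
    (hN0 : KNo p a b l 1 Cl (fun X R I => Zx 1 X R I ∧ Zy b 1 D X R I))
    (hN1 : KNo p a b l 1 Cl (fun X R I => ZiD D J X R I ∧ Zy b 1 D X R I))
    (h0 : 1 ≤ (c : ℝ))
    (h1 : 1 ≤ (a : ℝ) - (b : ℝ) - (c : ℝ))
    (h2 : 0 < 2 * (b : ℝ) - D)
    (h3 : 1 ≤ 2 * (a : ℝ) - (b : ℝ))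
    (h4 : 0 < (J : ℝ) - I)
    (h5 : 0 < (J : ℝ) - D + I)
    (h6 : 0 < (X : ℝ) + I)
    (h7 : 0 < -(b : ℝ) - (X : ℝ) + D - I)
    (h8 : 0 < -D + 2 * I)
    (h9 : 0 < -(X : ℝ) - (R : ℝ) - I)
    (h10 : 1 ≤ 1 - (a : ℝ) + (b : ℝ) - (R : ℝ))
    (h11 : 0 < (a : ℝ) + (c : ℝ) - D)
    (h12 : 0 < -(a : ℝ) + (b : ℝ) + (c : ℝ) - (R : ℝ) - D)
    (h13 : 0 < (c : ℝ) - D)
    (h14 : 0 < -(a : ℝ) - 2 * (X : ℝ) - (R : ℝ) + D - 2 * I)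
    (h15 : 1 ≤ 1 - 2 * (b : ℝ) - (c : ℝ) - (R : ℝ))
    (h16 : 0 < -(p : ℝ) - 2 * (X : ℝ) - 2 * (R : ℝ) + D - 2 * I)
    (h17 : 0 < -(a : ℝ) - (b : ℝ) - 2 * (X : ℝ) - (R : ℝ) + D - 2 * I)
    (h18 : 0 < -(b : ℝ) - 2 * (X : ℝ) + D - 2 * I)
    (h19 : 0 < (c : ℝ) + (p : ℝ) + 2 * (X : ℝ) + 2 * (R : ℝ) - 2 * D + 2 * I)
    (h20 : 1 ≤ -(a : ℝ) - (R : ℝ))
    (h21 : 0 < (a : ℝ) - (p : ℝ) - 2 * (X : ℝ) - (R : ℝ) + D - 2 * I)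
    (h22 : 1 ≤ 1 + (a : ℝ) - (p : ℝ) - (R : ℝ)) : False := by
  have kz := KF.of hK
  refine Helper25.S1T.Zpp1Ca_r2.closed W (G0.of W.toBase hc) (KCl.of hK) kz hU hN0 hN1
    h0 h1 h2 h3 h4 h5 h6 h7 h8 h9 h10 h11 h12 h13 h14 h15 h16 h17 h18 h19 h20 h21 h22

theorem g_Zpp1Ca_r3 {p a b c J l q : ℤ} {D dl : ℝ} {Cl : ℤ → ℤ → ℤ → ℤ → ℝ → Prop}
    (W : World p a b c J 1 l q D dl Cl) (hc : -a < c) (hA : Aux p a b 1 D Cl) (hX : UVB p D Cl)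
    {N X R : ℤ} {I : ℝ} (hK : KGF p a b 1 D (P1 l p) Cl N X R I)
    (hU : KU p a b l 1 Cl (fun X R I => Zy b 1 D X R I) N)
    (hN0 : KNo p a b l 1 Cl (fun X R I => Zx 1 X R I ∧ Zy b 1 D X R I))
    (hN1 : KNo p a b l 1 Cl (fun X R I => ZiD D J X R I ∧ Zy b 1 D X R I))
    (h0 : 1 ≤ (c : ℝ))
    (h1 : 1 ≤ (a : ℝ) - (b : ℝ) - (c : ℝ))
    (h2 : 0 < 2 * (b : ℝ) - D)
    (h3 : 1 ≤ 2 * (a : ℝ) - (b : ℝ))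
    (h4 : 0 < (J : ℝ) - I)
    (h5 : 0 < (J : ℝ) - D + I)
    (h6 : 0 < (X : ℝ) + I)
    (h7 : 0 < -(b : ℝ) - (X : ℝ) + D - I)
    (h8 : 0 < -D + 2 * I)
    (h9 : 0 < -(X : ℝ) - (R : ℝ) - I)
    (h10 : 1 ≤ 1 - (a : ℝ) + (b : ℝ) - (R : ℝ))
    (h11 : 0 < (a : ℝ) + (c : ℝ) - D)
    (h12 : 0 < -(a : ℝ) + (b : ℝ) + (c : ℝ) - (R : ℝ) - D)
    (h13 : 0 < (c : ℝ) - D)
    (h14 : 0 < -(a : ℝ) - 2 * (X : ℝ) - (R : ℝ) + D - 2 * I)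
    (h15 : 1 ≤ 1 - 2 * (b : ℝ) - (c : ℝ) - (R : ℝ))
    (h16 : 0 < (p : ℝ) + 2 * (X : ℝ) + 2 * (R : ℝ) - D + 2 * I) : False := by
  have kz := KF.of hK
  obtain ⟨Ne, Xe, Ie, he⟩ := hA.ecl 1 (by
    first
      | have x1 : b + 1 ≤ a := by exact_mod_cast (by linarith : (b : ℝ) + 1 ≤ a)
      | skip
    first
      | have x2 : 1 ≤ c := by exact_mod_cast (by linarith : (1 : ℝ) ≤ c)
      | have x2 : 1 ≤ -c := by exact_mod_cast (by linarith : (1 : ℝ) ≤ -c)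
      | skip
    rintro ⟨w, hw⟩
    have h2 := W.ha
    have h3 := W.h2a
    have h4 := W.hb
    have h5 := W.h2b
    have h6 := hc
    have h7 := W.hca'
    have h8 : w < 1 := by
      by_contra hcon
      have : p * 1 ≤ p * w := mul_le_mul_of_nonneg_left (not_lt.mp hcon) (by omega)
      omega
    have h9 : -1 < w := by
      by_contra hcon
      have : p * w ≤ p * (-1) := mul_le_mul_of_nonneg_left (not_lt.mp hcon) (by omega)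
      omega
    have h10 : w = 0 := by omega
    subst h10
    omega)
  refine Helper25.S1T.Zpp1Ca_r3.closed W (G0.of W.toBase hc) (KCl.of hK) kz he hU hN0 hN1
    h0 h1 h2 h3 h4 h5 h6 h7 h8 h9 h10 h11 h12 h13 h14 h15 h16

theorem g_Zpp1Ca_r4 {p a b c J l q : ℤ} {D dl : ℝ} {Cl : ℤ → ℤ → ℤ → ℤ → ℝ → Prop}
    (W : World p a b c J 1 l q D dl Cl) (hc : -a < c) (hA : Aux p a b 1 D Cl) (hX : UVB p D Cl)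
    {N X R : ℤ} {I : ℝ} (hK : KGF p a b 1 D (P1 l p) Cl N X R I)
    (hU : KU p a b l 1 Cl (fun X R I => Zy b 1 D X R I) N)
    (hN0 : KNo p a b l 1 Cl (fun X R I => Zx 1 X R I ∧ Zy b 1 D X R I))
    (hN1 : KNo p a b l 1 Cl (fun X R I => ZiD D J X R I ∧ Zy b 1 D X R I))
    (h0 : 1 ≤ (c : ℝ))
    (h1 : 1 ≤ (a : ℝ) - (b : ℝ) - (c : ℝ))
    (h2 : 0 < 2 * (b : ℝ) - D)
    (h3 : 1 ≤ 2 * (a : ℝ) - (b : ℝ))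
    (h4 : 0 < (J : ℝ) - I)
    (h5 : 0 < (J : ℝ) - D + I)
    (h6 : 0 < (X : ℝ) + I)
    (h7 : 0 < -(b : ℝ) - (X : ℝ) + D - I)
    (h8 : 0 < -D + 2 * I)
    (h9 : 0 < -(X : ℝ) - (R : ℝ) - I)
    (h10 : 1 ≤ (a : ℝ) - (b : ℝ) + (R : ℝ))
    (h11 : 0 < (a : ℝ) - (c : ℝ) + 2 * (X : ℝ) + 2 * (R : ℝ) + 2 * I)
    (h12 : 0 < -2 * (b : ℝ) + (p : ℝ) - D)
    (h13 : 0 < (c : ℝ) - (X : ℝ) - (R : ℝ) - D - I)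
    (h14 : 1 ≤ (a : ℝ) - (b : ℝ) - (c : ℝ) + (R : ℝ))
    (h15 : 1 ≤ 1 + (a : ℝ) - 2 * (b : ℝ) - (c : ℝ) + (R : ℝ))
    (h16 : 0 < -(b : ℝ) - 2 * (X : ℝ) + D - 2 * I)
    (h17 : 0 < (a : ℝ) + (c : ℝ) + 2 * (X : ℝ) + (R : ℝ) - 2 * D + 2 * I) : False := by
  have kz := KF.of hK
  refine Helper25.S1T.Zpp1Ca_r4.closed W (G0.of W.toBase hc) (KCl.of hK) kz hU hN0 hN1
    h0 h1 h2 h3 h4 h5 h6 h7 h8 h9 h10 h11 h12 h13 h14 h15 h16 h17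

theorem g_Zpp1Ca_r7_uvw {p a b c J l q : ℤ} {D dl : ℝ} {Cl : ℤ → ℤ → ℤ → ℤ → ℝ → Prop}
    (W : World p a b c J 1 l q D dl Cl) (hc : -a < c) (hA : Aux p a b 1 D Cl) (hX : UVB p D Cl)
    {N X R : ℤ} {I : ℝ} (hK : KGF p a b 1 D (P1 l p) Cl N X R I)
    (hU : KU p a b l 1 Cl (fun X R I => Zy b 1 D X R I) N)
    (hN0 : KNo p a b l 1 Cl (fun X R I => Zx 1 X R I ∧ Zy b 1 D X R I))
    (hN1 : KNo p a b l 1 Cl (fun X R I => ZiD D J X R I ∧ Zy b 1 D X R I))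
    (h0 : 1 ≤ (c : ℝ))
    (h1 : 1 ≤ (a : ℝ) - (b : ℝ) - (c : ℝ))
    (h2 : 0 < 2 * (b : ℝ) - D)
    (h3 : 1 ≤ 2 * (a : ℝ) - (b : ℝ))
    (h4 : 0 < (J : ℝ) - I)
    (h5 : 0 < (J : ℝ) - D + I)
    (h6 : 0 < (X : ℝ) + I)
    (h7 : 0 < -(b : ℝ) - (X : ℝ) + D - I)
    (h8 : 0 < -D + 2 * I)
    (h9 : 0 < -(X : ℝ) - (R : ℝ) - I)
    (h10 : 1 ≤ (a : ℝ) - (b : ℝ) + (R : ℝ))
    (h11 : 0 < -(a : ℝ) + (c : ℝ) - 2 * (X : ℝ) - 2 * (R : ℝ) - 2 * I)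
    (h12 : 0 < -(b : ℝ) - 2 * (X : ℝ) + D - 2 * I)
    (h13 : 0 < -(c : ℝ) + D)
    (h14 : 1 ≤ 1 + (a : ℝ) - (b : ℝ) - (c : ℝ) + (R : ℝ))
    (h15 : 0 < (c : ℝ) - (X : ℝ) - (R : ℝ) - D - I)
    (h16 : 1 ≤ 1 + (a : ℝ) - 2 * (b : ℝ) - (c : ℝ) + (R : ℝ)) : False := by
  have kz := KF.of hK
  have ha_ := W.ha
  have h2a_ := W.h2a
  have h2b_ := W.h2b
  have hb_ := W.hb
  have hJ_ := W.hJ
  have h2J_ : 2 * J < p := by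
    have h1 := W.hJD
    have h2 := W.hD
    have : ((2 * J : ℤ) : ℝ) < (p : ℝ) := by push_cast; linarith
    exact_mod_cast this
  rcases hX with hUx_ | ⟨Nu, Ru, Iu, hu⟩ | ⟨⟨Nu, Ru, Iu, hu⟩, -⟩
  · obtain ⟨Nu, Ru, Iu, hu⟩ := hUx_ 1 (by omega) (by omega) (by omega)
    exact Helper25.S1T.Zpp1Ca_r7.closed W (G0.of W.toBase hc) (KCl.of hK) kz hu hU hN0 hN1
      h0 h1 h2 h3 h4 h5 h6 h7 h8 h9 h10 h11 h12 h13 h14 h15 h16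
  · exact Helper25.S1T.Zpp1Ca_r6.closed W (G0.of W.toBase hc) (KCl.of hK) kz hu hU hN0 hN1
      h0 h1 h2 h3 h4 h5 h6 h7 h8 h9 h10 h11 h12 h13 h14 h15 h16
  · have e1_ : 2 * (Ru : ℝ) = p := by exact_mod_cast hu.R2
    have e2_ := hu.ID
    exact Helper25.S1T.Zpp1Ca_r5.closed W (G0.of W.toBase hc) (KCl.of hK) kz hu hU hN0 hN1
      h0 h1 (by push_cast; linarith) h3 h4 (by push_cast; linarith) h6 (by push_cast; linarith) (by push_cast; linarith) h9 h10 h11 (by push_cast; linarith) (by push_cast; linarith) h14 (by push_cast; linarith) h16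

theorem g_Zpp1Ca_r10_uvw {p a b c J l q : ℤ} {D dl : ℝ} {Cl : ℤ → ℤ → ℤ → ℤ → ℝ → Prop}
    (W : World p a b c J 1 l q D dl Cl) (hc : -a < c) (hA : Aux p a b 1 D Cl) (hX : UVB p D Cl)
    {N X R : ℤ} {I : ℝ} (hK : KGF p a b 1 D (P1 l p) Cl N X R I)
    (hU : KU p a b l 1 Cl (fun X R I => Zy b 1 D X R I) N)
    (hN0 : KNo p a b l 1 Cl (fun X R I => Zx 1 X R I ∧ Zy b 1 D X R I))
    (hN1 : KNo p a b l 1 Cl (fun X R I => ZiD D J X R I ∧ Zy b 1 D X R I))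
    (h0 : 1 ≤ (c : ℝ))
    (h1 : 1 ≤ (a : ℝ) - (b : ℝ) - (c : ℝ))
    (h2 : 0 < 2 * (b : ℝ) - D)
    (h3 : 1 ≤ 2 * (a : ℝ) - (b : ℝ))
    (h4 : 0 < (J : ℝ) - I)
    (h5 : 0 < (J : ℝ) - D + I)
    (h6 : 0 < (X : ℝ) + I)
    (h7 : 0 < -(b : ℝ) - (X : ℝ) + D - I)
    (h8 : 0 < -D + 2 * I)
    (h9 : 0 < -(X : ℝ) - (R : ℝ) - I)
    (h10 : 1 ≤ (a : ℝ) - (b : ℝ) + (R : ℝ))
    (h11 : 0 < -(a : ℝ) + (c : ℝ) - 2 * (X : ℝ) - 2 * (R : ℝ) - 2 * I)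
    (h12 : 0 < -(b : ℝ) - 2 * (X : ℝ) + D - 2 * I)
    (h13 : 0 < (c : ℝ) - D) : False := by
  have kz := KF.of hK
  have ha_ := W.ha
  have h2a_ := W.h2a
  have h2b_ := W.h2b
  have hb_ := W.hb
  have hJ_ := W.hJ
  have h2J_ : 2 * J < p := by
    have h1 := W.hJD
    have h2 := W.hD
    have : ((2 * J : ℤ) : ℝ) < (p : ℝ) := by push_cast; linarith
    exact_mod_cast this
  rcases hX with hUx_ | ⟨Nu, Ru, Iu, hu⟩ | ⟨⟨Nu, Ru, Iu, hu⟩, -⟩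
  · obtain ⟨Nu, Ru, Iu, hu⟩ := hUx_ 1 (by omega) (by omega) (by omega)
    exact Helper25.S1T.Zpp1Ca_r10.closed W (G0.of W.toBase hc) (KCl.of hK) kz hu hU hN0 hN1
      h0 h1 h2 h3 h4 h5 h6 h7 h8 h9 h10 h11 h12 h13
  · exact Helper25.S1T.Zpp1Ca_r9.closed W (G0.of W.toBase hc) (KCl.of hK) kz hu hU hN0 hN1
      h0 h1 h2 h3 h4 h5 h6 h7 h8 h9 h10 h11 h12 h13
  · have e1_ : 2 * (Ru : ℝ) = p := by exact_mod_cast hu.R2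
    have e2_ := hu.ID
    exact Helper25.S1T.Zpp1Ca_r8.closed W (G0.of W.toBase hc) (KCl.of hK) kz hu hU hN0 hN1
      h0 h1 (by push_cast; linarith) h3 h4 (by push_cast; linarith) h6 (by push_cast; linarith) (by push_cast; linarith) h9 h10 h11 (by push_cast; linarith) (by push_cast; linarith)

theorem g_Zpp1Ca_r13_uvw {p a b c J l q : ℤ} {D dl : ℝ} {Cl : ℤ → ℤ → ℤ → ℤ → ℝ → Prop}
    (W : World p a b c J 1 l q D dl Cl) (hc : -a < c) (hA : Aux p a b 1 D Cl) (hX : UVB p D Cl)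
    {N X R : ℤ} {I : ℝ} (hK : KGF p a b 1 D (P1 l p) Cl N X R I)
    (hU : KU p a b l 1 Cl (fun X R I => Zy b 1 D X R I) N)
    (hN0 : KNo p a b l 1 Cl (fun X R I => Zx 1 X R I ∧ Zy b 1 D X R I))
    (hN1 : KNo p a b l 1 Cl (fun X R I => ZiD D J X R I ∧ Zy b 1 D X R I))
    (h0 : 1 ≤ (c : ℝ))
    (h1 : 1 ≤ (a : ℝ) - (b : ℝ) - (c : ℝ))
    (h2 : 0 < 2 * (b : ℝ) - D)
    (h3 : 1 ≤ 2 * (a : ℝ) - (b : ℝ))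
    (h4 : 0 < (J : ℝ) - I)
    (h5 : 0 < (J : ℝ) - D + I)
    (h6 : 0 < (X : ℝ) + I)
    (h7 : 0 < -(b : ℝ) - (X : ℝ) + D - I)
    (h8 : 0 < -D + 2 * I)
    (h9 : 0 < (X : ℝ) + (R : ℝ) + I)
    (h10 : 1 ≤ (b : ℝ) + (c : ℝ) - (R : ℝ))
    (h11 : 1 ≤ (c : ℝ) + (R : ℝ))
    (h12 : 0 < (c : ℝ) - D)
    (h13 : 1 ≤ -(a : ℝ) + 2 * (b : ℝ) + (c : ℝ))
    (h14 : 0 < (c : ℝ) - (X : ℝ) - (R : ℝ) - I)
    (h15 : 1 ≤ 1 + (a : ℝ) - 2 * (b : ℝ) - (c : ℝ) + (R : ℝ))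
    (h16 : 0 < -(a : ℝ) + (c : ℝ) + (X : ℝ) + (R : ℝ) - D + I)
    (h17 : 0 < (c : ℝ) - (X : ℝ) - (R : ℝ) - D - I)
    (h18 : 0 < -(a : ℝ) + (p : ℝ) - 2 * (X : ℝ) - 2 * (R : ℝ) + D - 2 * I)
    (h19 : 0 < -(b : ℝ) - 2 * (X : ℝ) + D - 2 * I) : False := by
  have kz := KF.of hK
  have ha_ := W.ha
  have h2a_ := W.h2a
  have h2b_ := W.h2b
  have hb_ := W.hb
  have hJ_ := W.hJ
  have h2J_ : 2 * J < p := by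
    have h1 := W.hJD
    have h2 := W.hD
    have : ((2 * J : ℤ) : ℝ) < (p : ℝ) := by push_cast; linarith
    exact_mod_cast this
  rcases hX with hUx_ | ⟨Nu, Ru, Iu, hu⟩ | ⟨⟨Nu, Ru, Iu, hu⟩, -⟩
  · obtain ⟨Nu, Ru, Iu, hu⟩ := hUx_ 1 (by omega) (by omega) (by omega)
    exact Helper25.S1T.Zpp1Ca_r13.closed W (G0.of W.toBase hc) (KCl.of hK) kz hu hU hN0 hN1
      h0 h1 h2 h3 h4 h5 h6 h7 h8 h9 h10 h11 h12 h13 h14 h15 h16 h17 h18 h19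
  · exact Helper25.S1T.Zpp1Ca_r12.closed W (G0.of W.toBase hc) (KCl.of hK) kz hu hU hN0 hN1
      h0 h1 h2 h3 h4 h5 h6 h7 h8 h9 h10 h11 h12 h13 h14 h15 h16 h17 h18 h19
  · have e1_ : 2 * (Ru : ℝ) = p := by exact_mod_cast hu.R2
    have e2_ := hu.ID
    exact Helper25.S1T.Zpp1Ca_r11.closed W (G0.of W.toBase hc) (KCl.of hK) kz hu hU hN0 hN1
      h0 h1 (by push_cast; linarith) h3 h4 (by push_cast; linarith) h6 (by push_cast; linarith) (by push_cast; linarith) h9 h10 h11 (by push_cast; linarith) h13 h14 h15 (by push_cast; linarith) (by push_cast; linarith) (by push_cast; linarith) (by push_cast; linarith)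

theorem g_Zpp1Ca_r14 {p a b c J l q : ℤ} {D dl : ℝ} {Cl : ℤ → ℤ → ℤ → ℤ → ℝ → Prop}
    (W : World p a b c J 1 l q D dl Cl) (hc : -a < c) (hA : Aux p a b 1 D Cl) (hX : UVB p D Cl)
    {N X R : ℤ} {I : ℝ} (hK : KGF p a b 1 D (P1 l p) Cl N X R I)
    (hU : KU p a b l 1 Cl (fun X R I => Zy b 1 D X R I) N)
    (hN0 : KNo p a b l 1 Cl (fun X R I => Zx 1 X R I ∧ Zy b 1 D X R I))
    (hN1 : KNo p a b l 1 Cl (fun X R I => ZiD D J X R I ∧ Zy b 1 D X R I))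
    (h0 : 1 ≤ (c : ℝ))
    (h1 : 1 ≤ (a : ℝ) - (b : ℝ) - (c : ℝ))
    (h2 : 0 < 2 * (b : ℝ) - D)
    (h3 : 1 ≤ 2 * (a : ℝ) - (b : ℝ))
    (h4 : 0 < (J : ℝ) - I)
    (h5 : 0 < (J : ℝ) - D + I)
    (h6 : 0 < (X : ℝ) + I)
    (h7 : 0 < -(b : ℝ) - (X : ℝ) + D - I)
    (h8 : 0 < -D + 2 * I)
    (h9 : 0 < (X : ℝ) + (R : ℝ) + I)
    (h10 : 1 ≤ (b : ℝ) + (c : ℝ) - (R : ℝ))
    (h11 : 1 ≤ (c : ℝ) + (R : ℝ))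
    (h12 : 0 < (c : ℝ) - D)
    (h13 : 1 ≤ -(a : ℝ) + 2 * (b : ℝ) + (c : ℝ))
    (h14 : 0 < (c : ℝ) - (X : ℝ) - (R : ℝ) - I)
    (h15 : 1 ≤ 1 + (a : ℝ) - 2 * (b : ℝ) - (c : ℝ) + (R : ℝ))
    (h16 : 0 < -(a : ℝ) + (c : ℝ) + (X : ℝ) + (R : ℝ) - D + I)
    (h17 : 0 < (c : ℝ) - (X : ℝ) - (R : ℝ) - D - I)
    (h18 : 0 < (a : ℝ) - (p : ℝ) + 2 * (X : ℝ) + 2 * (R : ℝ) - D + 2 * I)
    (h19 : 0 < -(b : ℝ) - 2 * (X : ℝ) + D - 2 * I) : False := by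
  have kz := KF.of hK
  refine Helper25.S1T.Zpp1Ca_r14.closed W (G0.of W.toBase hc) (KCl.of hK) kz hU hN0 hN1
    h0 h1 h2 h3 h4 h5 h6 h7 h8 h9 h10 h11 h12 h13 h14 h15 h16 h17 h18 h19

theorem g_Zpp1Ca_r17_uvw {p a b c J l q : ℤ} {D dl : ℝ} {Cl : ℤ → ℤ → ℤ → ℤ → ℝ → Prop}
    (W : World p a b c J 1 l q D dl Cl) (hc : -a < c) (hA : Aux p a b 1 D Cl) (hX : UVB p D Cl)
    {N X R : ℤ} {I : ℝ} (hK : KGF p a b 1 D (P1 l p) Cl N X R I)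
    (hU : KU p a b l 1 Cl (fun X R I => Zy b 1 D X R I) N)
    (hN0 : KNo p a b l 1 Cl (fun X R I => Zx 1 X R I ∧ Zy b 1 D X R I))
    (hN1 : KNo p a b l 1 Cl (fun X R I => ZiD D J X R I ∧ Zy b 1 D X R I))
    (h0 : 1 ≤ (c : ℝ))
    (h1 : 1 ≤ (a : ℝ) - (b : ℝ) - (c : ℝ))
    (h2 : 0 < 2 * (b : ℝ) - D)
    (h3 : 1 ≤ 2 * (a : ℝ) - (b : ℝ))
    (h4 : 0 < (J : ℝ) - I)
    (h5 : 0 < (J : ℝ) - D + I)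
    (h6 : 0 < (X : ℝ) + I)
    (h7 : 0 < -(b : ℝ) - (X : ℝ) + D - I)
    (h8 : 0 < -D + 2 * I)
    (h9 : 0 < (X : ℝ) + (R : ℝ) + I)
    (h10 : 1 ≤ (b : ℝ) + (c : ℝ) - (R : ℝ))
    (h11 : 1 ≤ (c : ℝ) + (R : ℝ))
    (h12 : 0 < (c : ℝ) - D)
    (h13 : 1 ≤ 1 + (a : ℝ) - 2 * (b : ℝ) - (c : ℝ))
    (h14 : 0 < 2 * (X : ℝ) + (R : ℝ) - D + 2 * I)
    (h15 : 0 < -(a : ℝ) + (p : ℝ) - 2 * (X : ℝ) - 2 * (R : ℝ) + D - 2 * I)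
    (h16 : 0 < -(b : ℝ) - 2 * (X : ℝ) + D - 2 * I) : False := by
  have kz := KF.of hK
  have ha_ := W.ha
  have h2a_ := W.h2a
  have h2b_ := W.h2b
  have hb_ := W.hb
  have hJ_ := W.hJ
  have h2J_ : 2 * J < p := by
    have h1 := W.hJD
    have h2 := W.hD
    have : ((2 * J : ℤ) : ℝ) < (p : ℝ) := by push_cast; linarith
    exact_mod_cast this
  rcases hX with hUx_ | ⟨Nu, Ru, Iu, hu⟩ | ⟨⟨Nu, Ru, Iu, hu⟩, -⟩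
  · obtain ⟨Nu, Ru, Iu, hu⟩ := hUx_ 1 (by omega) (by omega) (by omega)
    exact Helper25.S1T.Zpp1Ca_r17.closed W (G0.of W.toBase hc) (KCl.of hK) kz hu hU hN0 hN1
      h0 h1 h2 h3 h4 h5 h6 h7 h8 h9 h10 h11 h12 h13 h14 h15 h16
  · exact Helper25.S1T.Zpp1Ca_r16.closed W (G0.of W.toBase hc) (KCl.of hK) kz hu hU hN0 hN1
      h0 h1 h2 h3 h4 h5 h6 h7 h8 h9 h10 h11 h12 h13 h14 h15 h16
  · have e1_ : 2 * (Ru : ℝ) = p := by exact_mod_cast hu.R2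
    have e2_ := hu.ID
    exact Helper25.S1T.Zpp1Ca_r15.closed W (G0.of W.toBase hc) (KCl.of hK) kz hu hU hN0 hN1
      h0 h1 (by push_cast; linarith) h3 h4 (by push_cast; linarith) h6 (by push_cast; linarith) (by push_cast; linarith) h9 h10 h11 (by push_cast; linarith) h13 (by push_cast; linarith) (by push_cast; linarith) (by push_cast; linarith)

theorem g_Zpp1Ca_r18 {p a b c J l q : ℤ} {D dl : ℝ} {Cl : ℤ → ℤ → ℤ → ℤ → ℝ → Prop}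
    (W : World p a b c J 1 l q D dl Cl) (hc : -a < c) (hA : Aux p a b 1 D Cl) (hX : UVB p D Cl)
    {N X R : ℤ} {I : ℝ} (hK : KGF p a b 1 D (P1 l p) Cl N X R I)
    (hU : KU p a b l 1 Cl (fun X R I => Zy b 1 D X R I) N)
    (hN0 : KNo p a b l 1 Cl (fun X R I => Zx 1 X R I ∧ Zy b 1 D X R I))
    (hN1 : KNo p a b l 1 Cl (fun X R I => ZiD D J X R I ∧ Zy b 1 D X R I))
    (h0 : 1 ≤ (c : ℝ))
    (h1 : 1 ≤ (a : ℝ) - (b : ℝ) - (c : ℝ))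
    (h2 : 0 < 2 * (b : ℝ) - D)
    (h3 : 1 ≤ 2 * (a : ℝ) - (b : ℝ))
    (h4 : 0 < (J : ℝ) - I)
    (h5 : 0 < (J : ℝ) - D + I)
    (h6 : 0 < (X : ℝ) + I)
    (h7 : 0 < -(b : ℝ) - (X : ℝ) + D - I)
    (h8 : 0 < -D + 2 * I)
    (h9 : 0 < (X : ℝ) + (R : ℝ) + I)
    (h10 : 1 ≤ (b : ℝ) + (c : ℝ) - (R : ℝ))
    (h11 : 1 ≤ (c : ℝ) + (R : ℝ))
    (h12 : 0 < (c : ℝ) - D)
    (h13 : 1 ≤ 1 + (a : ℝ) - 2 * (b : ℝ) - (c : ℝ))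
    (h14 : 0 < 2 * (X : ℝ) + (R : ℝ) - D + 2 * I)
    (h15 : 0 < (a : ℝ) - (p : ℝ) + 2 * (X : ℝ) + 2 * (R : ℝ) - D + 2 * I)
    (h16 : 0 < -(b : ℝ) - 2 * (X : ℝ) + D - 2 * I) : False := by
  have kz := KF.of hK
  refine Helper25.S1T.Zpp1Ca_r18.closed W (G0.of W.toBase hc) (KCl.of hK) kz hU hN0 hN1
    h0 h1 h2 h3 h4 h5 h6 h7 h8 h9 h10 h11 h12 h13 h14 h15 h16

theorem g_Zpp1Ca_r19 {p a b c J l q : ℤ} {D dl : ℝ} {Cl : ℤ → ℤ → ℤ → ℤ → ℝ → Prop}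
    (W : World p a b c J 1 l q D dl Cl) (hc : -a < c) (hA : Aux p a b 1 D Cl) (hX : UVB p D Cl)
    {N X R : ℤ} {I : ℝ} (hK : KGF p a b 1 D (P1 l p) Cl N X R I)
    (hU : KU p a b l 1 Cl (fun X R I => Zy b 1 D X R I) N)
    (hN0 : KNo p a b l 1 Cl (fun X R I => Zx 1 X R I ∧ Zy b 1 D X R I))
    (hN1 : KNo p a b l 1 Cl (fun X R I => ZiD D J X R I ∧ Zy b 1 D X R I))
    (h0 : 1 ≤ (c : ℝ))
    (h1 : 1 ≤ (a : ℝ) - (b : ℝ) - (c : ℝ))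
    (h2 : 0 < 2 * (b : ℝ) - D)
    (h3 : 1 ≤ 2 * (a : ℝ) - (b : ℝ))
    (h4 : 0 < (J : ℝ) - I)
    (h5 : 0 < (J : ℝ) - D + I)
    (h6 : 0 < (X : ℝ) + I)
    (h7 : 0 < -(b : ℝ) - (X : ℝ) + D - I)
    (h8 : 0 < -D + 2 * I)
    (h9 : 0 < (X : ℝ) + (R : ℝ) + I)
    (h10 : 1 ≤ (b : ℝ) + (c : ℝ) - (R : ℝ))
    (h11 : 1 ≤ (c : ℝ) + (R : ℝ))
    (h12 : 0 < (c : ℝ) - D)
    (h13 : 1 ≤ 1 + (a : ℝ) - 2 * (b : ℝ) - (c : ℝ))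
    (h14 : 0 < -2 * (X : ℝ) - (R : ℝ) + D - 2 * I)
    (h15 : 0 < -(c : ℝ) - 2 * (X : ℝ) - (R : ℝ) + 2 * D - 2 * I)
    (h16 : 0 < (c : ℝ) + 2 * (X : ℝ) + 2 * (R : ℝ) - 2 * D + 2 * I)
    (h17 : 0 < 2 * (X : ℝ) + 2 * (R : ℝ) - D + 2 * I)
    (h18 : 0 < -(b : ℝ) - 2 * (X : ℝ) + D - 2 * I)
    (h19 : 1 ≤ (a : ℝ) - (b : ℝ) - (c : ℝ) - (R : ℝ)) : False := by
  have kz := KF.of hK
  obtain ⟨Ne, Xe, Ie, he⟩ := hA.ecl (a) (by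
    first
      | have x1 : b + 1 ≤ a := by exact_mod_cast (by linarith : (b : ℝ) + 1 ≤ a)
      | skip
    first
      | have x2 : 1 ≤ c := by exact_mod_cast (by linarith : (1 : ℝ) ≤ c)
      | have x2 : 1 ≤ -c := by exact_mod_cast (by linarith : (1 : ℝ) ≤ -c)
      | skip
    rintro ⟨w, hw⟩
    have h2 := W.ha
    have h3 := W.h2a
    have h4 := W.hb
    have h5 := W.h2b
    have h6 := hc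
    have h7 := W.hca'
    have h8 : w < 1 := by
      by_contra hcon
      have : p * 1 ≤ p * w := mul_le_mul_of_nonneg_left (not_lt.mp hcon) (by omega)
      omega
    have h9 : -1 < w := by
      by_contra hcon
      have : p * w ≤ p * (-1) := mul_le_mul_of_nonneg_left (not_lt.mp hcon) (by omega)
      omega
    have h10 : w = 0 := by omega
    subst h10
    omega)
  refine Helper25.S1T.Zpp1Ca_r19.closed W (G0.of W.toBase hc) (KCl.of hK) kz he hU hN0 hN1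
    h0 h1 h2 h3 h4 h5 h6 h7 h8 h9 h10 h11 h12 h13 h14 h15 h16 h17 h18 h19

theorem g_Zpp1Ca_r20 {p a b c J l q : ℤ} {D dl : ℝ} {Cl : ℤ → ℤ → ℤ → ℤ → ℝ → Prop}
    (W : World p a b c J 1 l q D dl Cl) (hc : -a < c) (hA : Aux p a b 1 D Cl) (hX : UVB p D Cl)
    {N X R : ℤ} {I : ℝ} (hK : KGF p a b 1 D (P1 l p) Cl N X R I)
    (hU : KU p a b l 1 Cl (fun X R I => Zy b 1 D X R I) N)
    (hN0 : KNo p a b l 1 Cl (fun X R I => Zx 1 X R I ∧ Zy b 1 D X R I))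
    (hN1 : KNo p a b l 1 Cl (fun X R I => ZiD D J X R I ∧ Zy b 1 D X R I))
    (h0 : 1 ≤ (c : ℝ))
    (h1 : 1 ≤ (a : ℝ) - (b : ℝ) - (c : ℝ))
    (h2 : 0 < 2 * (b : ℝ) - D)
    (h3 : 1 ≤ 2 * (a : ℝ) - (b : ℝ))
    (h4 : 0 < (J : ℝ) - I)
    (h5 : 0 < (J : ℝ) - D + I)
    (h6 : 0 < (X : ℝ) + I)
    (h7 : 0 < -(b : ℝ) - (X : ℝ) + D - I)
    (h8 : 0 < -D + 2 * I)
    (h9 : 0 < (X : ℝ) + (R : ℝ) + I)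
    (h10 : 1 ≤ (b : ℝ) + (c : ℝ) - (R : ℝ))
    (h11 : 1 ≤ (c : ℝ) + (R : ℝ))
    (h12 : 0 < (c : ℝ) - D)
    (h13 : 1 ≤ 1 + (a : ℝ) - 2 * (b : ℝ) - (c : ℝ))
    (h14 : 0 < -2 * (X : ℝ) - (R : ℝ) + D - 2 * I)
    (h15 : 0 < (c : ℝ) + 2 * (X : ℝ) + (R : ℝ) - 2 * D + 2 * I)
    (h16 : 1 ≤ (a : ℝ) - (b : ℝ) - (c : ℝ) - (R : ℝ))
    (h17 : 0 < -2 * (X : ℝ) - 2 * (R : ℝ) + D - 2 * I)
    (h18 : 1 ≤ 1 - (R : ℝ))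
    (h19 : 0 < -(b : ℝ) - 2 * (X : ℝ) - (R : ℝ) + D - 2 * I)
    (h20 : 1 ≤ -(R : ℝ))
    (h21 : 0 < -(b : ℝ) - 2 * (X : ℝ) + D - 2 * I) : False := by
  have kz := KF.of hK
  refine Helper25.S1T.Zpp1Ca_r20.closed W (G0.of W.toBase hc) (KCl.of hK) kz hU hN0 hN1
    h0 h1 h2 h3 h4 h5 h6 h7 h8 h9 h10 h11 h12 h13 h14 h15 h16 h17 h18 h19 h20 h21

theorem g_Zpp1Ca_r21 {p a b c J l q : ℤ} {D dl : ℝ} {Cl : ℤ → ℤ → ℤ → ℤ → ℝ → Prop}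
    (W : World p a b c J 1 l q D dl Cl) (hc : -a < c) (hA : Aux p a b 1 D Cl) (hX : UVB p D Cl)
    {N X R : ℤ} {I : ℝ} (hK : KGF p a b 1 D (P1 l p) Cl N X R I)
    (hU : KU p a b l 1 Cl (fun X R I => Zy b 1 D X R I) N)
    (hN0 : KNo p a b l 1 Cl (fun X R I => Zx 1 X R I ∧ Zy b 1 D X R I))
    (hN1 : KNo p a b l 1 Cl (fun X R I => ZiD D J X R I ∧ Zy b 1 D X R I))
    (h0 : 1 ≤ (c : ℝ))
    (h1 : 1 ≤ (a : ℝ) - (b : ℝ) - (c : ℝ))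
    (h2 : 0 < 2 * (b : ℝ) - D)
    (h3 : 1 ≤ 2 * (a : ℝ) - (b : ℝ))
    (h4 : 0 < (J : ℝ) - I)
    (h5 : 0 < (J : ℝ) - D + I)
    (h6 : 0 < (X : ℝ) + I)
    (h7 : 0 < -(b : ℝ) - (X : ℝ) + D - I)
    (h8 : 0 < -D + 2 * I)
    (h9 : 0 < (X : ℝ) + (R : ℝ) + I)
    (h10 : 1 ≤ (b : ℝ) + (c : ℝ) - (R : ℝ))
    (h11 : 1 ≤ (c : ℝ) + (R : ℝ))
    (h12 : 0 < (c : ℝ) - D)
    (h13 : 1 ≤ 1 + (a : ℝ) - 2 * (b : ℝ) - (c : ℝ))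
    (h14 : 0 < -2 * (X : ℝ) - (R : ℝ) + D - 2 * I)
    (h15 : 0 < (c : ℝ) + 2 * (X : ℝ) + (R : ℝ) - 2 * D + 2 * I)
    (h16 : 1 ≤ (a : ℝ) - (b : ℝ) - (c : ℝ) - (R : ℝ))
    (h17 : 0 < 2 * (X : ℝ) + 2 * (R : ℝ) - D + 2 * I)
    (h18 : 0 < -(b : ℝ) - 2 * (X : ℝ) + D - 2 * I) : False := by
  have kz := KF.of hK
  obtain ⟨Ne, Xe, Ie, he⟩ := hA.ecl (a) (by
    first
      | have x1 : b + 1 ≤ a := by exact_mod_cast (by linarith : (b : ℝ) + 1 ≤ a)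
      | skip
    first
      | have x2 : 1 ≤ c := by exact_mod_cast (by linarith : (1 : ℝ) ≤ c)
      | have x2 : 1 ≤ -c := by exact_mod_cast (by linarith : (1 : ℝ) ≤ -c)
      | skip
    rintro ⟨w, hw⟩
    have h2 := W.ha
    have h3 := W.h2a
    have h4 := W.hb
    have h5 := W.h2b
    have h6 := hc
    have h7 := W.hca'
    have h8 : w < 1 := by
      by_contra hcon
      have : p * 1 ≤ p * w := mul_le_mul_of_nonneg_left (not_lt.mp hcon) (by omega)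
      omega
    have h9 : -1 < w := by
      by_contra hcon
      have : p * w ≤ p * (-1) := mul_le_mul_of_nonneg_left (not_lt.mp hcon) (by omega)
      omega
    have h10 : w = 0 := by omega
    subst h10
    omega)
  refine Helper25.S1T.Zpp1Ca_r21.closed W (G0.of W.toBase hc) (KCl.of hK) kz he hU hN0 hN1
    h0 h1 h2 h3 h4 h5 h6 h7 h8 h9 h10 h11 h12 h13 h14 h15 h16 h17 h18

theorem g_Zpp1Ca_r22 {p a b c J l q : ℤ} {D dl : ℝ} {Cl : ℤ → ℤ → ℤ → ℤ → ℝ → Prop}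
    (W : World p a b c J 1 l q D dl Cl) (hc : -a < c) (hA : Aux p a b 1 D Cl) (hX : UVB p D Cl)
    {N X R : ℤ} {I : ℝ} (hK : KGF p a b 1 D (P1 l p) Cl N X R I)
    (hU : KU p a b l 1 Cl (fun X R I => Zy b 1 D X R I) N)
    (hN0 : KNo p a b l 1 Cl (fun X R I => Zx 1 X R I ∧ Zy b 1 D X R I))
    (hN1 : KNo p a b l 1 Cl (fun X R I => ZiD D J X R I ∧ Zy b 1 D X R I))
    (h0 : 1 ≤ (c : ℝ))
    (h1 : 1 ≤ (a : ℝ) - (b : ℝ) - (c : ℝ))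
    (h2 : 0 < 2 * (b : ℝ) - D)
    (h3 : 1 ≤ 2 * (a : ℝ) - (b : ℝ))
    (h4 : 0 < (J : ℝ) - I)
    (h5 : 0 < (J : ℝ) - D + I)
    (h6 : 0 < (X : ℝ) + I)
    (h7 : 0 < -(b : ℝ) - (X : ℝ) + D - I)
    (h8 : 0 < -D + 2 * I)
    (h9 : 0 < (X : ℝ) + (R : ℝ) + I)
    (h10 : 1 ≤ 1 - (b : ℝ) - (c : ℝ) + (R : ℝ))
    (h11 : 1 ≤ -(b : ℝ) - (c : ℝ) + (R : ℝ))
    (h12 : 0 < -(b : ℝ) + (p : ℝ) + (X : ℝ) - 2 * D + I)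
    (h13 : 0 < (a : ℝ) + (c : ℝ) - (X : ℝ) - (R : ℝ) - D - I)
    (h14 : 0 < -(c : ℝ) - 2 * (X : ℝ) - (R : ℝ) + 2 * D - 2 * I)
    (h15 : 1 ≤ 1 - 2 * (b : ℝ) - (c : ℝ) + (R : ℝ))
    (h16 : 1 ≤ 1 + (a : ℝ) - 2 * (b : ℝ) - (c : ℝ) - (R : ℝ))
    (h17 : 1 ≤ 1 + (a : ℝ) - 2 * (b : ℝ) - (c : ℝ) - 2 * (R : ℝ)) : False := by
  have kz := KF.of hK
  refine Helper25.S1T.Zpp1Ca_r22.closed W (G0.of W.toBase hc) (KCl.of hK) kz hU hN0 hN1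
    h0 h1 h2 h3 h4 h5 h6 h7 h8 h9 h10 h11 h12 h13 h14 h15 h16 h17

theorem g_Zpp1Ca_r23 {p a b c J l q : ℤ} {D dl : ℝ} {Cl : ℤ → ℤ → ℤ → ℤ → ℝ → Prop}
    (W : World p a b c J 1 l q D dl Cl) (hc : -a < c) (hA : Aux p a b 1 D Cl) (hX : UVB p D Cl)
    {N X R : ℤ} {I : ℝ} (hK : KGF p a b 1 D (P1 l p) Cl N X R I)
    (hU : KU p a b l 1 Cl (fun X R I => Zy b 1 D X R I) N)
    (hN0 : KNo p a b l 1 Cl (fun X R I => Zx 1 X R I ∧ Zy b 1 D X R I))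
    (hN1 : KNo p a b l 1 Cl (fun X R I => ZiD D J X R I ∧ Zy b 1 D X R I))
    (h0 : 1 ≤ (c : ℝ))
    (h1 : 1 ≤ (a : ℝ) - (b : ℝ) - (c : ℝ))
    (h2 : 0 < 2 * (b : ℝ) - D)
    (h3 : 1 ≤ 2 * (a : ℝ) - (b : ℝ))
    (h4 : 0 < (J : ℝ) - I)
    (h5 : 0 < (J : ℝ) - D + I)
    (h6 : 0 < (X : ℝ) + I)
    (h7 : 0 < -(b : ℝ) - (X : ℝ) + D - I)
    (h8 : 0 < -D + 2 * I)
    (h9 : 0 < (X : ℝ) + (R : ℝ) + I)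
    (h10 : 1 ≤ 1 - (b : ℝ) - (c : ℝ) + (R : ℝ))
    (h11 : 1 ≤ -(b : ℝ) - (c : ℝ) + (R : ℝ))
    (h12 : 0 < -(b : ℝ) + (p : ℝ) + (X : ℝ) - 2 * D + I)
    (h13 : 0 < (a : ℝ) + (c : ℝ) - (X : ℝ) - (R : ℝ) - D - I)
    (h14 : 0 < (c : ℝ) + 2 * (X : ℝ) + (R : ℝ) - 2 * D + 2 * I)
    (h15 : 1 ≤ (a : ℝ) - 2 * (b : ℝ) - (c : ℝ))
    (h16 : 0 < -(a : ℝ) + (p : ℝ) - 2 * (X : ℝ) - 2 * (R : ℝ) + D - 2 * I)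
    (h17 : 0 < -(b : ℝ) - 2 * (X : ℝ) + D - 2 * I)
    (h18 : 0 < (a : ℝ) - (c : ℝ) - (p : ℝ) + 2 * (X : ℝ) + 2 * (R : ℝ) + 2 * I)
    (h19 : 1 ≤ 1 - (a : ℝ) - 2 * (b : ℝ) - (c : ℝ) + (p : ℝ) - (R : ℝ))
    (h20 : 0 < (c : ℝ) + (X : ℝ) + (R : ℝ) - 2 * D + I)
    (h21 : 1 ≤ 1 + (a : ℝ) - (b : ℝ) - (c : ℝ) - (R : ℝ)) : False := by
  have kz := KF.of hK
  refine Helper25.S1T.Zpp1Ca_r23.closed W (G0.of W.toBase hc) (KCl.of hK) kz hU hN0 hN1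
    h0 h1 h2 h3 h4 h5 h6 h7 h8 h9 h10 h11 h12 h13 h14 h15 h16 h17 h18 h19 h20 h21

theorem g_Zpp1Ca_r24 {p a b c J l q : ℤ} {D dl : ℝ} {Cl : ℤ → ℤ → ℤ → ℤ → ℝ → Prop}
    (W : World p a b c J 1 l q D dl Cl) (hc : -a < c) (hA : Aux p a b 1 D Cl) (hX : UVB p D Cl)
    {N X R : ℤ} {I : ℝ} (hK : KGF p a b 1 D (P1 l p) Cl N X R I)
    (hU : KU p a b l 1 Cl (fun X R I => Zy b 1 D X R I) N)
    (hN0 : KNo p a b l 1 Cl (fun X R I => Zx 1 X R I ∧ Zy b 1 D X R I))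
    (hN1 : KNo p a b l 1 Cl (fun X R I => ZiD D J X R I ∧ Zy b 1 D X R I))
    (h0 : 1 ≤ (c : ℝ))
    (h1 : 1 ≤ (a : ℝ) - (b : ℝ) - (c : ℝ))
    (h2 : 0 < 2 * (b : ℝ) - D)
    (h3 : 1 ≤ 2 * (a : ℝ) - (b : ℝ))
    (h4 : 0 < (J : ℝ) - I)
    (h5 : 0 < (J : ℝ) - D + I)
    (h6 : 0 < (X : ℝ) + I)
    (h7 : 0 < -(b : ℝ) - (X : ℝ) + D - I)
    (h8 : 0 < -D + 2 * I)
    (h9 : 0 < (X : ℝ) + (R : ℝ) + I)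
    (h10 : 1 ≤ 1 - (b : ℝ) - (c : ℝ) + (R : ℝ))
    (h11 : 1 ≤ -(b : ℝ) - (c : ℝ) + (R : ℝ))
    (h12 : 0 < -(b : ℝ) + (p : ℝ) + (X : ℝ) - 2 * D + I)
    (h13 : 0 < (a : ℝ) + (c : ℝ) - (X : ℝ) - (R : ℝ) - D - I)
    (h14 : 0 < (c : ℝ) + 2 * (X : ℝ) + (R : ℝ) - 2 * D + 2 * I)
    (h15 : 1 ≤ (a : ℝ) - 2 * (b : ℝ) - (c : ℝ))
    (h16 : 0 < -(a : ℝ) + (p : ℝ) - 2 * (X : ℝ) - 2 * (R : ℝ) + D - 2 * I)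
    (h17 : 0 < -(b : ℝ) - 2 * (X : ℝ) + D - 2 * I)
    (h18 : 0 < -(a : ℝ) + (c : ℝ) + (p : ℝ) - 2 * (X : ℝ) - 2 * (R : ℝ) - 2 * I)
    (h19 : 0 < -(c : ℝ) + D)
    (h20 : 1 ≤ 1 - 2 * (b : ℝ) - (c : ℝ) + (R : ℝ)) : False := by
  have kz := KF.of hK
  refine Helper25.S1T.Zpp1Ca_r24.closed W (G0.of W.toBase hc) (KCl.of hK) kz hU hN0 hN1
    h0 h1 h2 h3 h4 h5 h6 h7 h8 h9 h10 h11 h12 h13 h14 h15 h16 h17 h18 h19 h20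

theorem g_Zpp1Ca_r25 {p a b c J l q : ℤ} {D dl : ℝ} {Cl : ℤ → ℤ → ℤ → ℤ → ℝ → Prop}
    (W : World p a b c J 1 l q D dl Cl) (hc : -a < c) (hA : Aux p a b 1 D Cl) (hX : UVB p D Cl)
    {N X R : ℤ} {I : ℝ} (hK : KGF p a b 1 D (P1 l p) Cl N X R I)
    (hU : KU p a b l 1 Cl (fun X R I => Zy b 1 D X R I) N)
    (hN0 : KNo p a b l 1 Cl (fun X R I => Zx 1 X R I ∧ Zy b 1 D X R I))
    (hN1 : KNo p a b l 1 Cl (fun X R I => ZiD D J X R I ∧ Zy b 1 D X R I))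
    (h0 : 1 ≤ (c : ℝ))
    (h1 : 1 ≤ (a : ℝ) - (b : ℝ) - (c : ℝ))
    (h2 : 0 < 2 * (b : ℝ) - D)
    (h3 : 1 ≤ 2 * (a : ℝ) - (b : ℝ))
    (h4 : 0 < (J : ℝ) - I)
    (h5 : 0 < (J : ℝ) - D + I)
    (h6 : 0 < (X : ℝ) + I)
    (h7 : 0 < -(b : ℝ) - (X : ℝ) + D - I)
    (h8 : 0 < -D + 2 * I)
    (h9 : 0 < (X : ℝ) + (R : ℝ) + I)
    (h10 : 1 ≤ 1 - (b : ℝ) - (c : ℝ) + (R : ℝ))
    (h11 : 1 ≤ -(b : ℝ) - (c : ℝ) + (R : ℝ))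
    (h12 : 0 < -(b : ℝ) + (p : ℝ) + (X : ℝ) - 2 * D + I)
    (h13 : 0 < (a : ℝ) + (c : ℝ) - (X : ℝ) - (R : ℝ) - D - I)
    (h14 : 0 < (c : ℝ) + 2 * (X : ℝ) + (R : ℝ) - 2 * D + 2 * I)
    (h15 : 1 ≤ (a : ℝ) - 2 * (b : ℝ) - (c : ℝ))
    (h16 : 0 < -(a : ℝ) + (p : ℝ) - 2 * (X : ℝ) - 2 * (R : ℝ) + D - 2 * I)
    (h17 : 0 < -(b : ℝ) - 2 * (X : ℝ) + D - 2 * I)
    (h18 : 0 < -(a : ℝ) + (c : ℝ) + (p : ℝ) - 2 * (X : ℝ) - 2 * (R : ℝ) - 2 * I)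
    (h19 : 0 < (c : ℝ) - D) : False := by
  have kz := KF.of hK
  refine Helper25.S1T.Zpp1Ca_r25.closed W (G0.of W.toBase hc) (KCl.of hK) kz hU hN0 hN1
    h0 h1 h2 h3 h4 h5 h6 h7 h8 h9 h10 h11 h12 h13 h14 h15 h16 h17 h18 h19

theorem g_Zpp1Ca_r28_uvw {p a b c J l q : ℤ} {D dl : ℝ} {Cl : ℤ → ℤ → ℤ → ℤ → ℝ → Prop}
    (W : World p a b c J 1 l q D dl Cl) (hc : -a < c) (hA : Aux p a b 1 D Cl) (hX : UVB p D Cl)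
    {N X R : ℤ} {I : ℝ} (hK : KGF p a b 1 D (P1 l p) Cl N X R I)
    (hU : KU p a b l 1 Cl (fun X R I => Zy b 1 D X R I) N)
    (hN0 : KNo p a b l 1 Cl (fun X R I => Zx 1 X R I ∧ Zy b 1 D X R I))
    (hN1 : KNo p a b l 1 Cl (fun X R I => ZiD D J X R I ∧ Zy b 1 D X R I))
    (h0 : 1 ≤ (c : ℝ))
    (h1 : 1 ≤ (a : ℝ) - (b : ℝ) - (c : ℝ))
    (h2 : 0 < 2 * (b : ℝ) - D)
    (h3 : 1 ≤ 2 * (a : ℝ) - (b : ℝ))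
    (h4 : 0 < (J : ℝ) - I)
    (h5 : 0 < (J : ℝ) - D + I)
    (h6 : 0 < (X : ℝ) + I)
    (h7 : 0 < -(b : ℝ) - (X : ℝ) + D - I)
    (h8 : 0 < -D + 2 * I)
    (h9 : 0 < (X : ℝ) + (R : ℝ) + I)
    (h10 : 1 ≤ 1 - (b : ℝ) - (c : ℝ) + (R : ℝ))
    (h11 : 1 ≤ -(b : ℝ) - (c : ℝ) + (R : ℝ))
    (h12 : 0 < -(b : ℝ) + (p : ℝ) + (X : ℝ) - 2 * D + I)
    (h13 : 0 < (a : ℝ) + (c : ℝ) - (X : ℝ) - (R : ℝ) - D - I)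
    (h14 : 0 < (c : ℝ) + 2 * (X : ℝ) + (R : ℝ) - 2 * D + 2 * I)
    (h15 : 1 ≤ (a : ℝ) - 2 * (b : ℝ) - (c : ℝ))
    (h16 : 0 < (a : ℝ) - (p : ℝ) + 2 * (X : ℝ) + 2 * (R : ℝ) - D + 2 * I)
    (h17 : 0 < -(b : ℝ) - 2 * (X : ℝ) + D - 2 * I)
    (h18 : 0 < -(c : ℝ) + D)
    (h19 : 1 ≤ 1 + (a : ℝ) - (b : ℝ) - (c : ℝ) - (R : ℝ)) : False := by
  have kz := KF.of hK
  have ha_ := W.ha
  have h2a_ := W.h2a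
  have h2b_ := W.h2b
  have hb_ := W.hb
  have hJ_ := W.hJ
  have h2J_ : 2 * J < p := by
    have h1 := W.hJD
    have h2 := W.hD
    have : ((2 * J : ℤ) : ℝ) < (p : ℝ) := by push_cast; linarith
    exact_mod_cast this
  rcases hX with hUx_ | ⟨Nu, Ru, Iu, hu⟩ | ⟨⟨Nu, Ru, Iu, hu⟩, -⟩
  · obtain ⟨Nu, Ru, Iu, hu⟩ := hUx_ 1 (by omega) (by omega) (by omega)
    exact Helper25.S1T.Zpp1Ca_r28.closed W (G0.of W.toBase hc) (KCl.of hK) kz hu hU hN0 hN1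
      h0 h1 h2 h3 h4 h5 h6 h7 h8 h9 h10 h11 h12 h13 h14 h15 h16 h17 h18 h19
  · exact Helper25.S1T.Zpp1Ca_r27.closed W (G0.of W.toBase hc) (KCl.of hK) kz hu hU hN0 hN1
      h0 h1 h2 h3 h4 h5 h6 h7 h8 h9 h10 h11 h12 h13 h14 h15 h16 h17 h18 h19
  · have e1_ : 2 * (Ru : ℝ) = p := by exact_mod_cast hu.R2
    have e2_ := hu.ID
    exact Helper25.S1T.Zpp1Ca_r26.closed W (G0.of W.toBase hc) (KCl.of hK) kz hu hU hN0 hN1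
      h0 h1 (by push_cast; linarith) h3 h4 (by push_cast; linarith) h6 (by push_cast; linarith) (by push_cast; linarith) h9 h10 h11 (by push_cast; linarith) (by push_cast; linarith) (by push_cast; linarith) h15 (by push_cast; linarith) (by push_cast; linarith) (by push_cast; linarith) h19

theorem g_Zpp1Ca_r31_uvw {p a b c J l q : ℤ} {D dl : ℝ} {Cl : ℤ → ℤ → ℤ → ℤ → ℝ → Prop}
    (W : World p a b c J 1 l q D dl Cl) (hc : -a < c) (hA : Aux p a b 1 D Cl) (hX : UVB p D Cl)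
    {N X R : ℤ} {I : ℝ} (hK : KGF p a b 1 D (P1 l p) Cl N X R I)
    (hU : KU p a b l 1 Cl (fun X R I => Zy b 1 D X R I) N)
    (hN0 : KNo p a b l 1 Cl (fun X R I => Zx 1 X R I ∧ Zy b 1 D X R I))
    (hN1 : KNo p a b l 1 Cl (fun X R I => ZiD D J X R I ∧ Zy b 1 D X R I))
    (h0 : 1 ≤ (c : ℝ))
    (h1 : 1 ≤ (a : ℝ) - (b : ℝ) - (c : ℝ))
    (h2 : 0 < 2 * (b : ℝ) - D)
    (h3 : 1 ≤ 2 * (a : ℝ) - (b : ℝ))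
    (h4 : 0 < (J : ℝ) - I)
    (h5 : 0 < (J : ℝ) - D + I)
    (h6 : 0 < (X : ℝ) + I)
    (h7 : 0 < -(b : ℝ) - (X : ℝ) + D - I)
    (h8 : 0 < -D + 2 * I)
    (h9 : 0 < (X : ℝ) + (R : ℝ) + I)
    (h10 : 1 ≤ 1 - (b : ℝ) - (c : ℝ) + (R : ℝ))
    (h11 : 1 ≤ -(b : ℝ) - (c : ℝ) + (R : ℝ))
    (h12 : 0 < -(b : ℝ) + (p : ℝ) + (X : ℝ) - 2 * D + I)
    (h13 : 0 < (a : ℝ) + (c : ℝ) - (X : ℝ) - (R : ℝ) - D - I)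
    (h14 : 0 < (c : ℝ) + 2 * (X : ℝ) + (R : ℝ) - 2 * D + 2 * I)
    (h15 : 1 ≤ (a : ℝ) - 2 * (b : ℝ) - (c : ℝ))
    (h16 : 0 < (a : ℝ) - (p : ℝ) + 2 * (X : ℝ) + 2 * (R : ℝ) - D + 2 * I)
    (h17 : 0 < -(b : ℝ) - 2 * (X : ℝ) + D - 2 * I)
    (h18 : 0 < (c : ℝ) - D) : False := by
  have kz := KF.of hK
  have ha_ := W.ha
  have h2a_ := W.h2a
  have h2b_ := W.h2b
  have hb_ := W.hb
  have hJ_ := W.hJ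
  have h2J_ : 2 * J < p := by
    have h1 := W.hJD
    have h2 := W.hD
    have : ((2 * J : ℤ) : ℝ) < (p : ℝ) := by push_cast; linarith
    exact_mod_cast this
  rcases hX with hUx_ | ⟨Nu, Ru, Iu, hu⟩ | ⟨⟨Nu, Ru, Iu, hu⟩, -⟩
  · obtain ⟨Nu, Ru, Iu, hu⟩ := hUx_ 1 (by omega) (by omega) (by omega)
    exact Helper25.S1T.Zpp1Ca_r31.closed W (G0.of W.toBase hc) (KCl.of hK) kz hu hU hN0 hN1
      h0 h1 h2 h3 h4 h5 h6 h7 h8 h9 h10 h11 h12 h13 h14 h15 h16 h17 h18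
  · exact Helper25.S1T.Zpp1Ca_r30.closed W (G0.of W.toBase hc) (KCl.of hK) kz hu hU hN0 hN1
      h0 h1 h2 h3 h4 h5 h6 h7 h8 h9 h10 h11 h12 h13 h14 h15 h16 h17 h18
  · have e1_ : 2 * (Ru : ℝ) = p := by exact_mod_cast hu.R2
    have e2_ := hu.ID
    exact Helper25.S1T.Zpp1Ca_r29.closed W (G0.of W.toBase hc) (KCl.of hK) kz hu hU hN0 hN1
      h0 h1 (by push_cast; linarith) h3 h4 (by push_cast; linarith) h6 (by push_cast; linarith) (by push_cast; linarith) h9 h10 h11 (by push_cast; linarith) (by push_cast; linarith) (by push_cast; linarith) h15 (by push_cast; linarith) (by push_cast; linarith) (by push_cast; linarith)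

theorem g_Zpp1Ca_r1 {p a b c J l q : ℤ} {D dl : ℝ} {Cl : ℤ → ℤ → ℤ → ℤ → ℝ → Prop}
    (W : World p a b c J 1 l q D dl Cl) (hc : -a < c) (hA : Aux p a b 1 D Cl) (hX : UVB p D Cl)
    {N X R : ℤ} {I : ℝ} (hK : KGF p a b 1 D (P1 l p) Cl N X R I)
    (hU : KU p a b l 1 Cl (fun X R I => Zy b 1 D X R I) N)
    (hN0 : KNo p a b l 1 Cl (fun X R I => Zx 1 X R I ∧ Zy b 1 D X R I))
    (hN1 : KNo p a b l 1 Cl (fun X R I => ZiD D J X R I ∧ Zy b 1 D X R I))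
    (h0 : 1 ≤ (c : ℝ))
    (h1 : 1 ≤ (a : ℝ) - (b : ℝ) - (c : ℝ))
    (h2 : 0 < 2 * (b : ℝ) - D)
    (h3 : 1 ≤ 2 * (a : ℝ) - (b : ℝ))
    (h4 : 0 < (J : ℝ) - I)
    (h5 : 0 < (J : ℝ) - D + I)
    (h6 : 0 < (X : ℝ) + I)
    (h7 : 0 < -(b : ℝ) - (X : ℝ) + D - I)
    (h8 : 0 < -D + 2 * I) : False := by
  have kz := KF.of hK
  refine Helper25.S1T.Zpp1Ca_r1.closed W (G0.of W.toBase hc) (KCl.of hK) kz hU hN0 hN1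
    h0 h1 h2 h3 h4 h5 h6 h7 h8 ?_ ?_ ?_ ?_ ?_ ?_ ?_ ?_ ?_ ?_ ?_ ?_ ?_ ?_ ?_ ?_ ?_ ?_
  · intro p0 p1 p2 p3 p4 p5 p6 p7 p8 p9 p10 p11 p12 p13
    exact g_Zpp1Ca_r2 W hc hA hX hK hU hN0 hN1 
      h0 h1 h2 h3 h4 h5 h6 h7 h8 p0 p1 p2 p3 p4 p5 p6 p7 p8 p9 p10 p11 p12 p13
  · intro p0 p1 p2 p3 p4 p5 p6 p7
    exact g_Zpp1Ca_r3 W hc hA hX hK hU hN0 hN1 
      h0 h1 h2 h3 h4 h5 h6 h7 h8 p0 p1 p2 p3 p4 p5 p6 p7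
  · intro p0 p1 p2 p3 p4 p5 p6 p7 p8
    exact g_Zpp1Ca_r4 W hc hA hX hK hU hN0 hN1 
      h0 h1 h2 h3 h4 h5 h6 h7 h8 p0 p1 p2 p3 p4 p5 p6 p7 p8
  · intro p0 p1 p2 p3 p4 p5 p6 p7
    exact g_Zpp1Ca_r7_uvw W hc hA hX hK hU hN0 hN1 
      h0 h1 h2 h3 h4 h5 h6 h7 h8 p0 p1 p2 p3 p4 p5 p6 p7
  · intro p0 p1 p2 p3 p4
    exact g_Zpp1Ca_r10_uvw W hc hA hX hK hU hN0 hN1 
      h0 h1 h2 h3 h4 h5 h6 h7 h8 p0 p1 p2 p3 p4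
  · intro p0 p1 p2 p3 p4 p5 p6 p7 p8 p9 p10
    exact g_Zpp1Ca_r13_uvw W hc hA hX hK hU hN0 hN1 
      h0 h1 h2 h3 h4 h5 h6 h7 h8 p0 p1 p2 p3 p4 p5 p6 p7 p8 p9 p10
  · intro p0 p1 p2 p3 p4 p5 p6 p7 p8 p9 p10
    exact g_Zpp1Ca_r14 W hc hA hX hK hU hN0 hN1 
      h0 h1 h2 h3 h4 h5 h6 h7 h8 p0 p1 p2 p3 p4 p5 p6 p7 p8 p9 p10
  · intro p0 p1 p2 p3 p4 p5 p6 p7
    exact g_Zpp1Ca_r17_uvw W hc hA hX hK hU hN0 hN1 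
      h0 h1 h2 h3 h4 h5 h6 h7 h8 p0 p1 p2 p3 p4 p5 p6 p7
  · intro p0 p1 p2 p3 p4 p5 p6 p7
    exact g_Zpp1Ca_r18 W hc hA hX hK hU hN0 hN1 
      h0 h1 h2 h3 h4 h5 h6 h7 h8 p0 p1 p2 p3 p4 p5 p6 p7
  · intro p0 p1 p2 p3 p4 p5 p6 p7 p8 p9 p10
    exact g_Zpp1Ca_r19 W hc hA hX hK hU hN0 hN1 
      h0 h1 h2 h3 h4 h5 h6 h7 h8 p0 p1 p2 p3 p4 p5 p6 p7 p8 p9 p10
  · intro p0 p1 p2 p3 p4 p5 p6 p7 p8 p9 p10 p11 p12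
    exact g_Zpp1Ca_r20 W hc hA hX hK hU hN0 hN1 
      h0 h1 h2 h3 h4 h5 h6 h7 h8 p0 p1 p2 p3 p4 p5 p6 p7 p8 p9 p10 p11 p12
  · intro p0 p1 p2 p3 p4 p5 p6 p7 p8 p9
    exact g_Zpp1Ca_r21 W hc hA hX hK hU hN0 hN1 
      h0 h1 h2 h3 h4 h5 h6 h7 h8 p0 p1 p2 p3 p4 p5 p6 p7 p8 p9
  · intro p0 p1 p2 p3 p4 p5 p6 p7 p8
    exact g_Zpp1Ca_r22 W hc hA hX hK hU hN0 hN1 
      h0 h1 h2 h3 h4 h5 h6 h7 h8 p0 p1 p2 p3 p4 p5 p6 p7 p8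
  · intro p0 p1 p2 p3 p4 p5 p6 p7 p8 p9 p10 p11 p12
    exact g_Zpp1Ca_r23 W hc hA hX hK hU hN0 hN1 
      h0 h1 h2 h3 h4 h5 h6 h7 h8 p0 p1 p2 p3 p4 p5 p6 p7 p8 p9 p10 p11 p12
  · intro p0 p1 p2 p3 p4 p5 p6 p7 p8 p9 p10 p11
    exact g_Zpp1Ca_r24 W hc hA hX hK hU hN0 hN1 
      h0 h1 h2 h3 h4 h5 h6 h7 h8 p0 p1 p2 p3 p4 p5 p6 p7 p8 p9 p10 p11
  · intro p0 p1 p2 p3 p4 p5 p6 p7 p8 p9 p10
    exact g_Zpp1Ca_r25 W hc hA hX hK hU hN0 hN1 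
      h0 h1 h2 h3 h4 h5 h6 h7 h8 p0 p1 p2 p3 p4 p5 p6 p7 p8 p9 p10
  · intro p0 p1 p2 p3 p4 p5 p6 p7 p8 p9 p10
    exact g_Zpp1Ca_r28_uvw W hc hA hX hK hU hN0 hN1 
      h0 h1 h2 h3 h4 h5 h6 h7 h8 p0 p1 p2 p3 p4 p5 p6 p7 p8 p9 p10
  · intro p0 p1 p2 p3 p4 p5 p6 p7 p8 p9
    exact g_Zpp1Ca_r31_uvw W hc hA hX hK hU hN0 hN1 
      h0 h1 h2 h3 h4 h5 h6 h7 h8 p0 p1 p2 p3 p4 p5 p6 p7 p8 p9

alias z_Zpp1Ca := g_Zpp1Ca_r1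

end Helper25.S1T
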