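import Pool.Agent.Helper25.S1T.Zpp1W2g
import Pool.Agent.Helper25.KG.C4
import Pool.Agent.Helper25.KW.S1K2

set_option autoImplicit false
set_option linter.all false

namespace Helper25.S1T

open Helper25.KG Helper25.KW Helper55.KE Helper11.CT

theorem g_Zpp1W2g {p a b c J l q : ℤ} {D dl : ℝ} {Cl : ℤ → ℤ → ℤ → ℤ → ℝ → Prop}
    (W : World p a b c J 1 l q D dl Cl) (hc : -a < c) (hA : Aux p a b 1 D Cl)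
    {N X R : ℤ} {I : ℝ} (hK : KGF p a b 1 D (P1 l p) Cl N X R I)
    {Nw Xw Rw : ℤ} {Iw : ℝ} (hK2 : KGF p a b 1 D (P1 l p) Cl Nw Xw Rw Iw) (hne : N ≠ Nw)
    (hU : KU2 p a b l 1 Cl (fun _ _ _ => True) N Nw)
    (hN0 : KNo p a b l 1 Cl (fun X R I => Zx 1 X R I))
    (hN1 : KNo p a b l 1 Cl (fun X R I => ZiD D J X R I))
    (h0 : 1 ≤ (c : ℝ))
    (h1 : 1 ≤ (a : ℝ) - (b : ℝ) - (c : ℝ))
    (h2 : 0 < -2 * (b : ℝ) + D)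
    (h3 : 1 ≤ 2 * (a : ℝ) - (b : ℝ))
    (h4 : 0 < Iw)
    (h5 : 0 < D - Iw)
    (h6 : 0 < (J : ℝ) - I)
    (h7 : 0 < (J : ℝ) - D + I)
    (h8 : 0 < (Xw : ℝ) + Iw)
    (h9 : 0 < (b : ℝ) - (Xw : ℝ) - Iw)
    (h10 : 0 < -(Rw : ℝ) - (Xw : ℝ) - Iw)
    (h11 : 0 < (a : ℝ) + (Rw : ℝ) + (Xw : ℝ) + Iw)
    (h12 : 0 < (J : ℝ) - D + Iw)
    (h13 : 0 < -D + 2 * Iw)
    (h14 : 0 < (X : ℝ) + I)
    (h15 : 0 < (X : ℝ) + (R : ℝ) + I)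
    (h16 : 0 < -D + 2 * I)
    (h17 : 0 < -(a : ℝ) + (X : ℝ) + (R : ℝ) - (Rw : ℝ) - (Xw : ℝ) + I - Iw)
    (h18 : 0 < -I + Iw) : False := by
  have kz := KF.of hK
  refine Helper25.S1T.Zpp1W2g.closed W (G0.of W.toBase hc) (KCl.of hK) kz (KCl.of hK2) hne hU hN0 hN1
    h0 h1 h2 h3 h4 h5 h6 h7 h8 h9 h10 h11 h12 h13 h14 h15 h16 h17 h18

alias z_Zpp1W2g := g_Zpp1W2g

end Helper25.S1T
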