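import Pool.Agent.Helper25.S1T.G_Zpp1A
import Pool.Agent.Helper25.S1T.G_Zpp1Ag
import Pool.Agent.Helper25.S1T.G_Zpp1B
import Pool.Agent.Helper25.S1T.G_Zpp1Bg
import Pool.Agent.Helper25.S1T.G_Zpp1Ca
import Pool.Agent.Helper25.S1T.G_Zpp1W1
import Pool.Agent.Helper25.S1T.G_Zpp1W2
import Pool.Agent.Helper25.S1T.G_Zpp1H
import Pool.Agent.Helper25.S1T.G_Zpp1U
import Pool.Agent.Helper25.S1T.G_Zpp1V
import Pool.Agent.Helper25.S1T.G_Zpp1aPp
import Pool.Agent.Helper25.S1T.G_Zpp1aP1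
import Pool.Agent.Helper25.S1T.G_Zpp1aP2
import Pool.Agent.Helper25.S1T.G_Zpp1aP3
import Pool.Agent.Helper25.S1T.G_Zpp1aP4
import Pool.Agent.Helper25.S1T.G_Zpp1a5
import Pool.Agent.Helper25.S1T.G_Zpp1aNp
import Pool.Agent.Helper25.S1T.G_Zpp1aN1
import Pool.Agent.Helper25.S1T.G_Zpp1aN2
import Pool.Agent.Helper25.S1T.G_Zpp1aN3
import Pool.Agent.Helper25.S1T.G_Zpp1aN4
import Pool.Agent.Helper25.S1T.G_Zpp1W1g
import Pool.Agent.Helper25.S1T.G_Zpp1W2g
import Pool.Agent.Helper25.S1T.G_Zpp1Hg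
import Pool.Agent.Helper25.S1T.G_Zpp1SPp
import Pool.Agent.Helper25.S1T.G_Zpp1SM1
import Pool.Agent.Helper25.S1T.G_Zpp1SM2
import Pool.Agent.Helper25.S1T.G_Zpp1SM3
import Pool.Agent.Helper25.S1T.G_Zpp1SM4
import Pool.Agent.Helper25.S1T.G_Zpp1SM5
import Pool.Agent.Helper25.S1T.G_Zpp1Vg
import Pool.Agent.Helper25.KG.S1F
import Pool.Agent.Helper25.KW.S1O
import Pool.Agent.Helper25.KW.S1Q
import Pool.Agent.Helper25.KW.S1R
import Pool.Agent.Helper25.KW.S1A

set_option autoImplicit false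
set_option linter.all false

namespace Helper25.S1T

open Helper25.KG Helper25.KW Helper55.KE Helper11.CT

theorem zc_pp1_A1 : ZCellX 1 1 (Q1 1) (FA 1 true) := by
  intro p a b c J l q D dl Cl W hc h0 h1 hQ hA hP hN hS hX N X R I hk hF
  obtain ⟨f1, f2, f3, hE⟩ := hF
  have kz := KF.of hk
  have k3 := kz.z1
  have k4 := kz.z2
  have k5 := kz.s1
  have k6 := kz.s2
  have c1 : (1 : ℝ) ≤ c := by exact_mod_cast (by omega : 1 ≤ c)
  have b1 : 1 ≤ 2 * (a : ℝ) - b := by exact_mod_cast (by omega : 1 ≤ 2 * a - b)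
  have hkc := KCl.of hk
  have G := G0.of W.toBase hc
  have G1 := G.a2
  have G2 := G.b2
  have G3 := G.pa
  have G4 := G.pb
  have G5 := G.J1
  have G6 := G.JD
  have G7 := G.D2
  have G8 := G.ca
  have G9 := G.ca'
  have i1 := kz.I0
  have i2 := kz.ID
  unfold Q1 at hQ
  have q1 : (b : ℝ) + c + 1 ≤ a := by exact_mod_cast (by omega : b + c + 1 ≤ a)
  have m1 : D < 2 * (b : ℝ) := f1
  have m2 : (X : ℝ) + (1 : ℤ) * I < 0 := f2
  have m3 : (b : ℝ) + (1 : ℤ) * ((X : ℝ) + (1 : ℤ) * I) < D := f3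
  push_cast at m2 m3 k3 k4 k5 k6
  exact z_Zpp1A W hc hA hk hE
    (by linarith) (by linarith) (by linarith) (by linarith) (by linarith) (by linarith)

theorem zc_pp1_A2 : ZCellX 1 1 (Q1 1) (FA 1 false) := by
  intro p a b c J l q D dl Cl W hc h0 h1 hQ hA hP hN hS hX N X R I hk hF
  obtain ⟨f1, f2, f3, hE⟩ := hF
  have kz := KF.of hk
  have k3 := kz.z1
  have k4 := kz.z2
  have k5 := kz.s1
  have k6 := kz.s2
  have c1 : (1 : ℝ) ≤ c := by exact_mod_cast (by omega : 1 ≤ c)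
  have b1 : 1 ≤ 2 * (a : ℝ) - b := by exact_mod_cast (by omega : 1 ≤ 2 * a - b)
  have hkc := KCl.of hk
  have G := G0.of W.toBase hc
  have G1 := G.a2
  have G2 := G.b2
  have G3 := G.pa
  have G4 := G.pb
  have G5 := G.J1
  have G6 := G.JD
  have G7 := G.D2
  have G8 := G.ca
  have G9 := G.ca'
  have i1 := kz.I0
  have i2 := kz.ID
  unfold Q1 at hQ
  have q1 : (b : ℝ) + c + 1 ≤ a := by exact_mod_cast (by omega : b + c + 1 ≤ a)
  have m1 : 2 * (b : ℝ) < D := f1
  have m2 : (X : ℝ) + (1 : ℤ) * I < 0 := f2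
  have m3 : (b : ℝ) + (1 : ℤ) * ((X : ℝ) + (1 : ℤ) * I) < D := f3
  push_cast at m2 m3 k3 k4 k5 k6
  exact z_Zpp1Ag W hc hA hk (hE.mono (Z' := (fun X R I => Zx 1 X R I)) (fun X' R' I' hb' h' => by
      obtain ⟨b1, b2, b3, b4⟩ := hb'
      obtain n0 := h'
      simp only [Zx, Zp, Zs, Zsp, Zi, ZiD, Zy] at *
      push_cast at *
      refine ⟨?_, ?_⟩ <;> linarith))
    (by linarith) (by linarith) (by linarith) (by linarith) (by linarith)

theorem zc_pp1_B1 : ZCellX 1 1 (Q1 1) (FB 1 true) := by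
  intro p a b c J l q D dl Cl W hc h0 h1 hQ hA hP hN hS hX N X R I hk hF
  obtain ⟨f1, f2, f3, f4, hN1⟩ := hF
  have kz := KF.of hk
  have k3 := kz.z1
  have k4 := kz.z2
  have k5 := kz.s1
  have k6 := kz.s2
  have c1 : (1 : ℝ) ≤ c := by exact_mod_cast (by omega : 1 ≤ c)
  have b1 : 1 ≤ 2 * (a : ℝ) - b := by exact_mod_cast (by omega : 1 ≤ 2 * a - b)
  have hkc := KCl.of hk
  have G := G0.of W.toBase hc
  have G1 := G.a2
  have G2 := G.b2
  have G3 := G.pa
  have G4 := G.pb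
  have G5 := G.J1
  have G6 := G.JD
  have G7 := G.D2
  have G8 := G.ca
  have G9 := G.ca'
  have i1 := kz.I0
  have i2 := kz.ID
  unfold Q1 at hQ
  have q1 : (b : ℝ) + c + 1 ≤ a := by exact_mod_cast (by omega : b + c + 1 ≤ a)
  have m1 : D < 2 * (b : ℝ) := f1
  have m2 : 0 < (X : ℝ) + (1 : ℤ) * I := f2
  have m3 : (b : ℝ) + (1 : ℤ) * ((X : ℝ) + (1 : ℤ) * I) < D := f3
  push_cast at m2 m3 k3 k4 k5 k6
  exact z_Zpp1B W hc hA hk hN1
    (by linarith) (by linarith) (by linarith) (by linarith) (by linarith) (by linarith) (by linarith)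

theorem zc_pp1_B2 : ZCellX 1 1 (Q1 1) (FB 1 false) := by
  intro p a b c J l q D dl Cl W hc h0 h1 hQ hA hP hN hS hX N X R I hk hF
  obtain ⟨f1, f2, f3, f4, hN1⟩ := hF
  have kz := KF.of hk
  have k3 := kz.z1
  have k4 := kz.z2
  have k5 := kz.s1
  have k6 := kz.s2
  have c1 : (1 : ℝ) ≤ c := by exact_mod_cast (by omega : 1 ≤ c)
  have b1 : 1 ≤ 2 * (a : ℝ) - b := by exact_mod_cast (by omega : 1 ≤ 2 * a - b)
  have hkc := KCl.of hk
  have G := G0.of W.toBase hc
  have G1 := G.a2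
  have G2 := G.b2
  have G3 := G.pa
  have G4 := G.pb
  have G5 := G.J1
  have G6 := G.JD
  have G7 := G.D2
  have G8 := G.ca
  have G9 := G.ca'
  have i1 := kz.I0
  have i2 := kz.ID
  unfold Q1 at hQ
  have q1 : (b : ℝ) + c + 1 ≤ a := by exact_mod_cast (by omega : b + c + 1 ≤ a)
  have m1 : 2 * (b : ℝ) < D := f1
  have m2 : 0 < (X : ℝ) + (1 : ℤ) * I := f2
  have m3 : (b : ℝ) + (1 : ℤ) * ((X : ℝ) + (1 : ℤ) * I) < D := f3
  push_cast at m2 m3 k3 k4 k5 k6
  exact z_Zpp1Bg W hc hA hk (hN1.mono (Z' := (fun X R I => Zx 1 X R I)) (fun X' R' I' hb' h' => by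
      obtain ⟨b1, b2, b3, b4⟩ := hb'
      obtain n0 := h'
      simp only [Zx, Zp, Zs, Zsp, Zi, ZiD, Zy] at *
      push_cast at *
      refine ⟨?_, ?_⟩ <;> linarith))
    (by linarith) (by linarith) (by linarith) (by linarith) (by linarith) (by linarith)

theorem zc_pp1_C1U0 : ZCellX 1 1 (Q1 1) (FU0 1 true) := by
  intro p a b c J l q D dl Cl W hc h0 h1 hQ hA hP hN hS hX N X R I hk hF
  obtain ⟨f1, f2, f3, f4, f5, f6, hU, hN1, hN2⟩ := hF
  have kz := KF.of hk
  have k3 := kz.z1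
  have k4 := kz.z2
  have k5 := kz.s1
  have k6 := kz.s2
  have c1 : (1 : ℝ) ≤ c := by exact_mod_cast (by omega : 1 ≤ c)
  have b1 : 1 ≤ 2 * (a : ℝ) - b := by exact_mod_cast (by omega : 1 ≤ 2 * a - b)
  have hkc := KCl.of hk
  have G := G0.of W.toBase hc
  have G1 := G.a2
  have G2 := G.b2
  have G3 := G.pa
  have G4 := G.pb
  have G5 := G.J1
  have G6 := G.JD
  have G7 := G.D2
  have G8 := G.ca
  have G9 := G.ca'
  have i1 := kz.I0
  have i2 := kz.ID
  unfold Q1 at hQ
  have q1 : (b : ℝ) + c + 1 ≤ a := by exact_mod_cast (by omega : b + c + 1 ≤ a)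
  have m1 : D < 2 * (b : ℝ) := f1
  have m2 : 0 < (X : ℝ) + (1 : ℤ) * I := f2
  have m3 : (b : ℝ) + (1 : ℤ) * ((X : ℝ) + (1 : ℤ) * I) < D := f3
  push_cast at m2 m3 k3 k4 k5 k6
  exact z_Zpp1Ca W hc hA hX hk hU hN1 hN2
    (by linarith) (by linarith) (by linarith) (by linarith) (by linarith) (by linarith) (by linarith) (by linarith) (by linarith)

theorem zc_pp1_C1Vt : ZCellX 1 1 (Q1 1) (FV0 1 true true) := by
  intro p a b c J l q D dl Cl W hc h0 h1 hQ hA hP hN hS hX N X R I hk hF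
  obtain ⟨f1, f2, f3, f4, f5, f6, Nw, Xw, Rw, Iw, hw, hne, w1, w2, w3, w4, w13, ⟨w14, w5, w6⟩, hU, hN1, hN2⟩ := hF
  have kz := KF.of hk
  have k3 := kz.z1
  have k4 := kz.z2
  have k5 := kz.s1
  have k6 := kz.s2
  have c1 : (1 : ℝ) ≤ c := by exact_mod_cast (by omega : 1 ≤ c)
  have b1 : 1 ≤ 2 * (a : ℝ) - b := by exact_mod_cast (by omega : 1 ≤ 2 * a - b)
  have hkc := KCl.of hk
  have G := G0.of W.toBase hc
  have G1 := G.a2
  have G2 := G.b2
  have G3 := G.pa
  have G4 := G.pb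
  have G5 := G.J1
  have G6 := G.JD
  have G7 := G.D2
  have G8 := G.ca
  have G9 := G.ca'
  have i1 := kz.I0
  have i2 := kz.ID
  unfold Q1 at hQ
  have q1 : (b : ℝ) + c + 1 ≤ a := by exact_mod_cast (by omega : b + c + 1 ≤ a)
  have m1 : D < 2 * (b : ℝ) := f1
  have m2 : 0 < (X : ℝ) + (1 : ℤ) * I := f2
  have m3 : (b : ℝ) + (1 : ℤ) * ((X : ℝ) + (1 : ℤ) * I) < D := f3
  push_cast at m2 m3 k3 k4 k5 k6
  have kw := KF.of hw
  have w7 := kw.z1
  have w8 := kw.z2
  have w9 := kw.s1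
  have w10 := kw.s2
  have w11 := kw.I0
  have w12 := kw.ID
  unfold Zs at w14
  unfold Zsp at w5
  have u1 : 0 < (Xw : ℝ) + (1 : ℤ) * Iw := w1
  have u2 : (b : ℝ) + (1 : ℤ) * ((Xw : ℝ) + (1 : ℤ) * Iw) < D := w2
  push_cast at u1 u2 w14 w5 w6 w7 w8 w9 w10
  exact z_Zpp1W1 W hc hA hk hw hne hU hN1 hN2
    (by linarith) (by linarith) (by linarith) (by linarith) (by linarith) (by linarith) (by linarith) (by linarith) (by linarith) (by linarith) (by linarith) (by linarith) (by linarith) (by linarith) (by linarith) (by linarith) (by linarith) (by linarith) (by linarith) (by linarith) (by linarith)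

theorem zc_pp1_C1Vf : ZCellX 1 1 (Q1 1) (FV0 1 true false) := by
  intro p a b c J l q D dl Cl W hc h0 h1 hQ hA hP hN hS hX N X R I hk hF
  obtain ⟨f1, f2, f3, f4, f5, f6, Nw, Xw, Rw, Iw, hw, hne, w1, w2, w3, w4, w13, ⟨w14, w5, w6⟩, hU, hN1, hN2⟩ := hF
  have kz := KF.of hk
  have k3 := kz.z1
  have k4 := kz.z2
  have k5 := kz.s1
  have k6 := kz.s2
  have c1 : (1 : ℝ) ≤ c := by exact_mod_cast (by omega : 1 ≤ c)
  have b1 : 1 ≤ 2 * (a : ℝ) - b := by exact_mod_cast (by omega : 1 ≤ 2 * a - b)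
  have hkc := KCl.of hk
  have G := G0.of W.toBase hc
  have G1 := G.a2
  have G2 := G.b2
  have G3 := G.pa
  have G4 := G.pb
  have G5 := G.J1
  have G6 := G.JD
  have G7 := G.D2
  have G8 := G.ca
  have G9 := G.ca'
  have i1 := kz.I0
  have i2 := kz.ID
  unfold Q1 at hQ
  have q1 : (b : ℝ) + c + 1 ≤ a := by exact_mod_cast (by omega : b + c + 1 ≤ a)
  have m1 : D < 2 * (b : ℝ) := f1
  have m2 : 0 < (X : ℝ) + (1 : ℤ) * I := f2
  have m3 : (b : ℝ) + (1 : ℤ) * ((X : ℝ) + (1 : ℤ) * I) < D := f3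
  push_cast at m2 m3 k3 k4 k5 k6
  have kw := KF.of hw
  have w7 := kw.z1
  have w8 := kw.z2
  have w9 := kw.s1
  have w10 := kw.s2
  have w11 := kw.I0
  have w12 := kw.ID
  unfold Zs at w5
  unfold Zsp at w14
  have u1 : 0 < (Xw : ℝ) + (1 : ℤ) * Iw := w1
  have u2 : (b : ℝ) + (1 : ℤ) * ((Xw : ℝ) + (1 : ℤ) * Iw) < D := w2
  push_cast at u1 u2 w14 w5 w6 w7 w8 w9 w10
  exact z_Zpp1W2 W hc hA hk hw hne hU hN1 hN2
    (by linarith) (by linarith) (by linarith) (by linarith) (by linarith) (by linarith) (by linarith) (by linarith) (by linarith) (by linarith) (by linarith) (by linarith) (by linarith) (by linarith) (by linarith) (by linarith) (by linarith) (by linarith) (by linarith) (by linarith) (by linarith)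

theorem zc_pp1_C1Ih : ZCellX 1 1 (Q1 1) (FIh 1 true) := by
  intro p a b c J l q D dl Cl W hc h0 h1 hQ hA hP hN hS hX N X R I hk hF
  obtain ⟨⟨⟨f1, f2, f3, f4, hE, hN1, hN2⟩, f5⟩, f6⟩ := hF
  have kz := KF.of hk
  have k3 := kz.z1
  have k4 := kz.z2
  have k5 := kz.s1
  have k6 := kz.s2
  have c1 : (1 : ℝ) ≤ c := by exact_mod_cast (by omega : 1 ≤ c)
  have b1 : 1 ≤ 2 * (a : ℝ) - b := by exact_mod_cast (by omega : 1 ≤ 2 * a - b)
  have hkc := KCl.of hk
  have G := G0.of W.toBase hc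
  have G1 := G.a2
  have G2 := G.b2
  have G3 := G.pa
  have G4 := G.pb
  have G5 := G.J1
  have G6 := G.JD
  have G7 := G.D2
  have G8 := G.ca
  have G9 := G.ca'
  have i1 := kz.I0
  have i2 := kz.ID
  unfold Q1 at hQ
  have q1 : (b : ℝ) + c + 1 ≤ a := by exact_mod_cast (by omega : b + c + 1 ≤ a)
  have m1 : D < 2 * (b : ℝ) := f1
  have m2 : 0 < (X : ℝ) + (1 : ℤ) * I := f2
  have m3 : (b : ℝ) + (1 : ℤ) * ((X : ℝ) + (1 : ℤ) * I) < D := f3
  push_cast at m2 m3 k3 k4 k5 k6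
  exact z_Zpp1H W hc hA hk (hE.mono (Z' := (fun X R I => Zp 1 X R I ∧ Zy b 1 D X R I)) (fun X' R' I' hb' h' => by
      obtain ⟨b1, b2, b3, b4⟩ := hb'
      obtain ⟨n0, n1⟩ := h'
      simp only [Zx, Zp, Zs, Zsp, Zi, ZiD, Zy] at *
      push_cast at *
      linarith)) hN1 hN2
    (by linarith) (by linarith) (by linarith) (by linarith) (by linarith) (by linarith) (by linarith) (by linarith) (by linarith)

theorem zc_pp1_C1U : ZCellX 1 1 (Q1 1) (FU 1 true) := by
  intro p a b c J l q D dl Cl W hc h0 h1 hQ hA hP hN hS hX N X R I hk hF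
  obtain ⟨f1, f2, f3, f4, f5, hU, hN1, hN2, hN3⟩ := hF
  have kz := KF.of hk
  have k3 := kz.z1
  have k4 := kz.z2
  have k5 := kz.s1
  have k6 := kz.s2
  have c1 : (1 : ℝ) ≤ c := by exact_mod_cast (by omega : 1 ≤ c)
  have b1 : 1 ≤ 2 * (a : ℝ) - b := by exact_mod_cast (by omega : 1 ≤ 2 * a - b)
  have hkc := KCl.of hk
  have G := G0.of W.toBase hc
  have G1 := G.a2
  have G2 := G.b2
  have G3 := G.pa
  have G4 := G.pb
  have G5 := G.J1
  have G6 := G.JD
  have G7 := G.D2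
  have G8 := G.ca
  have G9 := G.ca'
  have i1 := kz.I0
  have i2 := kz.ID
  unfold Q1 at hQ
  have q1 : (b : ℝ) + c + 1 ≤ a := by exact_mod_cast (by omega : b + c + 1 ≤ a)
  have m1 : D < 2 * (b : ℝ) := f1
  have m2 : 0 < (X : ℝ) + (1 : ℤ) * I := f2
  have m3 : (b : ℝ) + (1 : ℤ) * ((X : ℝ) + (1 : ℤ) * I) < D := f3
  push_cast at m2 m3 k3 k4 k5 k6
  exact z_Zpp1U W hc hA hk hU hN1 hN3 hN2
    (by linarith) (by linarith) (by linarith) (by linarith) (by linarith) (by linarith) (by linarith) (by linarith)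

theorem zc_pp1_C1V : ZCellX 1 1 (Q1 1) (FV 1 true) := by
  intro p a b c J l q D dl Cl W hc h0 h1 hQ hA hP hN hS hX N X R I hk hF
  obtain ⟨f1, f2, f3, f4, f5, f6, Nw, Xw, Rw, Iw, hw, hne, w1, w2, w3, w4, w5, w6, hU, hN1, hN2, hN3⟩ := hF
  have kz := KF.of hk
  have k3 := kz.z1
  have k4 := kz.z2
  have k5 := kz.s1
  have k6 := kz.s2
  have c1 : (1 : ℝ) ≤ c := by exact_mod_cast (by omega : 1 ≤ c)
  have b1 : 1 ≤ 2 * (a : ℝ) - b := by exact_mod_cast (by omega : 1 ≤ 2 * a - b)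
  have hkc := KCl.of hk
  have G := G0.of W.toBase hc
  have G1 := G.a2
  have G2 := G.b2
  have G3 := G.pa
  have G4 := G.pb
  have G5 := G.J1
  have G6 := G.JD
  have G7 := G.D2
  have G8 := G.ca
  have G9 := G.ca'
  have i1 := kz.I0
  have i2 := kz.ID
  unfold Q1 at hQ
  have q1 : (b : ℝ) + c + 1 ≤ a := by exact_mod_cast (by omega : b + c + 1 ≤ a)
  have m1 : D < 2 * (b : ℝ) := f1
  have m2 : 0 < (X : ℝ) + (1 : ℤ) * I := f2
  have m3 : (b : ℝ) + (1 : ℤ) * ((X : ℝ) + (1 : ℤ) * I) < D := f3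
  push_cast at m2 m3 k3 k4 k5 k6
  have kw := KF.of hw
  have w7 := kw.z1
  have w8 := kw.z2
  have w9 := kw.s1
  have w10 := kw.s2
  have w11 := kw.I0
  have w12 := kw.ID
  have m6 : (X : ℝ) + (1 : ℤ) * I + R < 0 := f6
  have u1 : 0 < (Xw : ℝ) + (1 : ℤ) * Iw := w1
  have u2 : (b : ℝ) + (1 : ℤ) * ((Xw : ℝ) + (1 : ℤ) * Iw) < D := w2
  have u5 : 0 < (Xw : ℝ) + (1 : ℤ) * Iw + Rw := w5
  push_cast at m6 u1 u2 u5 w6 w7 w8 w9 w10
  exact z_Zpp1V W hc hA hk hw hne hU hN1 hN3 hN2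
    (by linarith) (by linarith) (by linarith) (by linarith) (by linarith) (by linarith) (by linarith) (by linarith) (by linarith) (by linarith) (by linarith) (by linarith) (by linarith) (by linarith) (by linarith) (by linarith) (by linarith) (by linarith) (by linarith)

theorem zc_pp1_C2U0 : ZCellX 1 1 (Q1 1) (FU0 1 false) := by
  intro p a b c J l q D dl Cl W hc h0 h1 hQ hA hP hN hS hX N X R I hk hF
  obtain ⟨f1, f2, f3, f4, f5, f6, hU, hN1, hN2⟩ := hF
  have kz := KF.of hk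
  have k3 := kz.z1
  have k4 := kz.z2
  have k5 := kz.s1
  have k6 := kz.s2
  have c1 : (1 : ℝ) ≤ c := by exact_mod_cast (by omega : 1 ≤ c)
  have b1 : 1 ≤ 2 * (a : ℝ) - b := by exact_mod_cast (by omega : 1 ≤ 2 * a - b)
  have hkc := KCl.of hk
  have G := G0.of W.toBase hc
  have G1 := G.a2
  have G2 := G.b2
  have G3 := G.pa
  have G4 := G.pb
  have G5 := G.J1
  have G6 := G.JD
  have G7 := G.D2
  have G8 := G.ca
  have G9 := G.ca'
  have i1 := kz.I0
  have i2 := kz.ID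
  unfold Q1 at hQ
  have q1 : (b : ℝ) + c + 1 ≤ a := by exact_mod_cast (by omega : b + c + 1 ≤ a)
  have m1 : 2 * (b : ℝ) < D := f1
  have m2 : 0 < (X : ℝ) + (1 : ℤ) * I := f2
  have m3 : (b : ℝ) + (1 : ℤ) * ((X : ℝ) + (1 : ℤ) * I) < D := f3
  push_cast at m2 m3 k3 k4 k5 k6
  have hT : KU p a b l 1 Cl (fun _ _ _ => True) N := (hU.mono (Z' := fun _ _ _ => True) (fun X' R' I' hb' _ => by
      obtain ⟨b1, b2, b3, b4⟩ := hb'
      simp only [Zx, Zp, Zs, Zsp, Zi, ZiD, Zy] at *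
      push_cast at *
      linarith))
  refine sw_split_lt W.toBase hS hk hT (ex0 W.toBase hA hS (by linarith) hk (by linarith) (by linarith)) ?_ ?_
  · intro Nw Xw Rw Iw w
    have y1 := w.I0
    have y2 := w.ID
    have y3 := w.x1
    have y4 := w.x2
    have y5 := w.s1
    have y6 := w.s2
    have y7 := w.z
    simp only [Zp, Zx] at y7
    push_cast at y3 y4 y5 y6 y7
    rcases lt_trichotomy ((X : ℝ) + (1 : ℤ) * I + R) 0 with y0 | y0 | y0
    · push_cast at y0
      rcases (show (1 ≤ R + b + c) ∨ (0 ≤ R + b + c ∧ R + b + c ≤ 0) ∨ (R + b + c ≤ -1 ∧ 1 ≤ R + 2 * b + c) ∨ (R + 2 * b + c ≤ 0 ∧ 1 ≤ R + a) ∨ (R + 2 * b + c ≤ 0 ∧ R + a ≤ 0) by omega) with z1 | ⟨z1, z2⟩ | ⟨z1, z2⟩ | ⟨z1, z2⟩ | ⟨z1, z2⟩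
      · have v0 : 1 ≤ (R : ℝ) + b + c := by exact_mod_cast z1
        exact z_Zpp1aP1 W hc hA hk w.w w.ne hT (hN1.mono (Z' := (fun X R I => Zx 1 X R I)) (fun X' R' I' hb' h' => by
      obtain ⟨b1, b2, b3, b4⟩ := hb'
      obtain n0 := h'
      simp only [Zx, Zp, Zs, Zsp, Zi, ZiD, Zy] at *
      push_cast at *
      refine ⟨?_, ?_⟩ <;> linarith)) (hN2.mono (Z' := (fun X R I => ZiD D J X R I)) (fun X' R' I' hb' h' => by
      obtain ⟨b1, b2, b3, b4⟩ := hb'
      obtain n0 := h'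
      simp only [Zx, Zp, Zs, Zsp, Zi, ZiD, Zy] at *
      push_cast at *
      refine ⟨?_, ?_⟩ <;> linarith)) (by
      refine @StK.toN _ _ _ _ _ _ _ _ _ _ w.st ?_
      intro X' R' I' h
      simp only [Zp, Zx]
      push_cast at *
      exact ⟨by linarith [h.1], by linarith [h.2]⟩)
          (by linarith) (by linarith) (by linarith) (by linarith) (by linarith) (by linarith) (by linarith) (by linarith) (by linarith) (by linarith) (by linarith) (by linarith) (by linarith) (by linarith) (by linarith) (by linarith)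
      · have v0 : 0 ≤ (R : ℝ) + b + c := by exact_mod_cast z1
        have v1 : (R : ℝ) + b + c ≤ 0 := by exact_mod_cast z2
        exact z_Zpp1aP2 W hc hA hk w.w w.ne hT (hN1.mono (Z' := (fun X R I => Zx 1 X R I)) (fun X' R' I' hb' h' => by
      obtain ⟨b1, b2, b3, b4⟩ := hb'
      obtain n0 := h'
      simp only [Zx, Zp, Zs, Zsp, Zi, ZiD, Zy] at *
      push_cast at *
      refine ⟨?_, ?_⟩ <;> linarith)) (hN2.mono (Z' := (fun X R I => ZiD D J X R I)) (fun X' R' I' hb' h' => by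
      obtain ⟨b1, b2, b3, b4⟩ := hb'
      obtain n0 := h'
      simp only [Zx, Zp, Zs, Zsp, Zi, ZiD, Zy] at *
      push_cast at *
      refine ⟨?_, ?_⟩ <;> linarith)) (by
      refine @StK.toN _ _ _ _ _ _ _ _ _ _ w.st ?_
      intro X' R' I' h
      simp only [Zp, Zx]
      push_cast at *
      exact ⟨by linarith [h.1], by linarith [h.2]⟩)
          (by linarith) (by linarith) (by linarith) (by linarith) (by linarith) (by linarith) (by linarith) (by linarith) (by linarith) (by linarith) (by linarith) (by linarith) (by linarith) (by linarith) (by linarith) (by linarith) (by linarith)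
      · have v0 : (R : ℝ) + b + c ≤ -1 := by exact_mod_cast z1
        have v1 : 1 ≤ (R : ℝ) + 2 * b + c := by exact_mod_cast z2
        exact z_Zpp1aP3 W hc hA hk w.w w.ne hT (hN1.mono (Z' := (fun X R I => Zx 1 X R I)) (fun X' R' I' hb' h' => by
      obtain ⟨b1, b2, b3, b4⟩ := hb'
      obtain n0 := h'
      simp only [Zx, Zp, Zs, Zsp, Zi, ZiD, Zy] at *
      push_cast at *
      refine ⟨?_, ?_⟩ <;> linarith)) (hN2.mono (Z' := (fun X R I => ZiD D J X R I)) (fun X' R' I' hb' h' => by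
      obtain ⟨b1, b2, b3, b4⟩ := hb'
      obtain n0 := h'
      simp only [Zx, Zp, Zs, Zsp, Zi, ZiD, Zy] at *
      push_cast at *
      refine ⟨?_, ?_⟩ <;> linarith)) (by
      refine @StK.toN _ _ _ _ _ _ _ _ _ _ w.st ?_
      intro X' R' I' h
      simp only [Zp, Zx]
      push_cast at *
      exact ⟨by linarith [h.1], by linarith [h.2]⟩)
          (by linarith) (by linarith) (by linarith) (by linarith) (by linarith) (by linarith) (by linarith) (by linarith) (by linarith) (by linarith) (by linarith) (by linarith) (by linarith) (by linarith) (by linarith) (by linarith) (by linarith)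
      · have v0 : (R : ℝ) + 2 * b + c ≤ 0 := by exact_mod_cast z1
        have v1 : 1 ≤ (R : ℝ) + a := by exact_mod_cast z2
        exact z_Zpp1aP4 W hc hA hk w.w w.ne hT (hN1.mono (Z' := (fun X R I => Zx 1 X R I)) (fun X' R' I' hb' h' => by
      obtain ⟨b1, b2, b3, b4⟩ := hb'
      obtain n0 := h'
      simp only [Zx, Zp, Zs, Zsp, Zi, ZiD, Zy] at *
      push_cast at *
      refine ⟨?_, ?_⟩ <;> linarith)) (hN2.mono (Z' := (fun X R I => ZiD D J X R I)) (fun X' R' I' hb' h' => by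
      obtain ⟨b1, b2, b3, b4⟩ := hb'
      obtain n0 := h'
      simp only [Zx, Zp, Zs, Zsp, Zi, ZiD, Zy] at *
      push_cast at *
      refine ⟨?_, ?_⟩ <;> linarith)) (by
      refine @StK.toN _ _ _ _ _ _ _ _ _ _ w.st ?_
      intro X' R' I' h
      simp only [Zp, Zx]
      push_cast at *
      exact ⟨by linarith [h.1], by linarith [h.2]⟩)
          (by linarith) (by linarith) (by linarith) (by linarith) (by linarith) (by linarith) (by linarith) (by linarith) (by linarith) (by linarith) (by linarith) (by linarith) (by linarith) (by linarith) (by linarith) (by linarith) (by linarith)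
      · have v0 : (R : ℝ) + 2 * b + c ≤ 0 := by exact_mod_cast z1
        have v1 : (R : ℝ) + a ≤ 0 := by exact_mod_cast z2
        exact z_Zpp1a5 W hc hA hk hT (hN1.mono (Z' := (fun X R I => Zx 1 X R I)) (fun X' R' I' hb' h' => by
      obtain ⟨b1, b2, b3, b4⟩ := hb'
      obtain n0 := h'
      simp only [Zx, Zp, Zs, Zsp, Zi, ZiD, Zy] at *
      push_cast at *
      refine ⟨?_, ?_⟩ <;> linarith)) (hN2.mono (Z' := (fun X R I => ZiD D J X R I)) (fun X' R' I' hb' h' => by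
      obtain ⟨b1, b2, b3, b4⟩ := hb'
      obtain n0 := h'
      simp only [Zx, Zp, Zs, Zsp, Zi, ZiD, Zy] at *
      push_cast at *
      refine ⟨?_, ?_⟩ <;> linarith))
          (by linarith) (by linarith) (by linarith) (by linarith) (by linarith) (by linarith) (by linarith) (by linarith) (by linarith) (by linarith) (by linarith)
    · exact absurd (show (X : ℝ) + (1 : ℤ) * I = ((-R : ℤ) : ℝ) by push_cast at y0 ⊢; linarith) (ne_i0 W.toBase hk.cl hk.N0 hk.Np (-R))
    · push_cast at y0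
      exact z_Zpp1aPp W hc hA hk w.w w.ne hT (hN1.mono (Z' := (fun X R I => Zx 1 X R I)) (fun X' R' I' hb' h' => by
      obtain ⟨b1, b2, b3, b4⟩ := hb'
      obtain n0 := h'
      simp only [Zx, Zp, Zs, Zsp, Zi, ZiD, Zy] at *
      push_cast at *
      refine ⟨?_, ?_⟩ <;> linarith)) (hN2.mono (Z' := (fun X R I => ZiD D J X R I)) (fun X' R' I' hb' h' => by
      obtain ⟨b1, b2, b3, b4⟩ := hb'
      obtain n0 := h'
      simp only [Zx, Zp, Zs, Zsp, Zi, ZiD, Zy] at *
      push_cast at *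
      refine ⟨?_, ?_⟩ <;> linarith)) (by
      refine @StK.toN _ _ _ _ _ _ _ _ _ _ w.st ?_
      intro X' R' I' h
      simp only [Zp, Zx]
      push_cast at *
      exact ⟨by linarith [h.1], by linarith [h.2]⟩)
        (by linarith) (by linarith) (by linarith) (by linarith) (by linarith) (by linarith) (by linarith) (by linarith) (by linarith) (by linarith) (by linarith) (by linarith) (by linarith) (by linarith) (by linarith)
  · intro hn Nw Xw Rw Iw w hlt
    have y1 := w.I0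
    have y2 := w.ID
    have y3 := w.x1
    have y4 := w.x2
    have y5 := w.s1
    have y6 := w.s2
    have y7 := w.z
    simp only [Zp, Zx] at y7
    push_cast at y3 y4 y5 y6 y7
    rcases lt_trichotomy ((X : ℝ) + (1 : ℤ) * I + R) 0 with y0 | y0 | y0
    · push_cast at y0
      rcases (show (1 ≤ R + b + c) ∨ (0 ≤ R + b + c ∧ R + b + c ≤ 0) ∨ (R + b + c ≤ -1 ∧ 1 ≤ R + 2 * b + c) ∨ (R + 2 * b + c ≤ 0 ∧ 1 ≤ R + a) ∨ (R + 2 * b + c ≤ 0 ∧ R + a ≤ 0) by omega) with z1 | ⟨z1, z2⟩ | ⟨z1, z2⟩ | ⟨z1, z2⟩ | ⟨z1, z2⟩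
      · have v0 : 1 ≤ (R : ℝ) + b + c := by exact_mod_cast z1
        exact z_Zpp1aN1 W hc hA hk w.w w.ne hT (hN1.mono (Z' := (fun X R I => Zx 1 X R I)) (fun X' R' I' hb' h' => by
      obtain ⟨b1, b2, b3, b4⟩ := hb'
      obtain n0 := h'
      simp only [Zx, Zp, Zs, Zsp, Zi, ZiD, Zy] at *
      push_cast at *
      refine ⟨?_, ?_⟩ <;> linarith)) (hN2.mono (Z' := (fun X R I => ZiD D J X R I)) (fun X' R' I' hb' h' => by
      obtain ⟨b1, b2, b3, b4⟩ := hb'
      obtain n0 := h'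
      simp only [Zx, Zp, Zs, Zsp, Zi, ZiD, Zy] at *
      push_cast at *
      refine ⟨?_, ?_⟩ <;> linarith)) (by
      refine @stN_mono _ _ _ _ _ _ _ _ Nw hn ?_
      intro X' R' I' h
      simp only [Zp, Zx]
      push_cast at *
      linarith [h]) (by
      refine @StK.toN _ _ _ _ _ _ _ _ _ _ w.st ?_
      intro X' R' I' h
      simp only [Zp, Zx]
      push_cast at *
      exact ⟨by linarith [h.1], by linarith [h.2]⟩)
          (by linarith) (by linarith) (by linarith) (by linarith) (by linarith) (by linarith) (by linarith) (by linarith) (by linarith) (by linarith) (by linarith) (by linarith) (by linarith) (by linarith) (by linarith) (by linarith) (by linarith)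
      · have v0 : 0 ≤ (R : ℝ) + b + c := by exact_mod_cast z1
        have v1 : (R : ℝ) + b + c ≤ 0 := by exact_mod_cast z2
        exact z_Zpp1aN2 W hc hA hk w.w w.ne hT (hN1.mono (Z' := (fun X R I => Zx 1 X R I)) (fun X' R' I' hb' h' => by
      obtain ⟨b1, b2, b3, b4⟩ := hb'
      obtain n0 := h'
      simp only [Zx, Zp, Zs, Zsp, Zi, ZiD, Zy] at *
      push_cast at *
      refine ⟨?_, ?_⟩ <;> linarith)) (hN2.mono (Z' := (fun X R I => ZiD D J X R I)) (fun X' R' I' hb' h' => by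
      obtain ⟨b1, b2, b3, b4⟩ := hb'
      obtain n0 := h'
      simp only [Zx, Zp, Zs, Zsp, Zi, ZiD, Zy] at *
      push_cast at *
      refine ⟨?_, ?_⟩ <;> linarith)) (by
      refine @stN_mono _ _ _ _ _ _ _ _ Nw hn ?_
      intro X' R' I' h
      simp only [Zp, Zx]
      push_cast at *
      linarith [h]) (by
      refine @StK.toN _ _ _ _ _ _ _ _ _ _ w.st ?_
      intro X' R' I' h
      simp only [Zp, Zx]
      push_cast at *
      exact ⟨by linarith [h.1], by linarith [h.2]⟩)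
          (by linarith) (by linarith) (by linarith) (by linarith) (by linarith) (by linarith) (by linarith) (by linarith) (by linarith) (by linarith) (by linarith) (by linarith) (by linarith) (by linarith) (by linarith) (by linarith) (by linarith) (by linarith)
      · have v0 : (R : ℝ) + b + c ≤ -1 := by exact_mod_cast z1
        have v1 : 1 ≤ (R : ℝ) + 2 * b + c := by exact_mod_cast z2
        exact z_Zpp1aN3 W hc hA hk w.w w.ne hT (hN1.mono (Z' := (fun X R I => Zx 1 X R I)) (fun X' R' I' hb' h' => by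
      obtain ⟨b1, b2, b3, b4⟩ := hb'
      obtain n0 := h'
      simp only [Zx, Zp, Zs, Zsp, Zi, ZiD, Zy] at *
      push_cast at *
      refine ⟨?_, ?_⟩ <;> linarith)) (hN2.mono (Z' := (fun X R I => ZiD D J X R I)) (fun X' R' I' hb' h' => by
      obtain ⟨b1, b2, b3, b4⟩ := hb'
      obtain n0 := h'
      simp only [Zx, Zp, Zs, Zsp, Zi, ZiD, Zy] at *
      push_cast at *
      refine ⟨?_, ?_⟩ <;> linarith)) (by
      refine @stN_mono _ _ _ _ _ _ _ _ Nw hn ?_
      intro X' R' I' h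
      simp only [Zp, Zx]
      push_cast at *
      linarith [h]) (by
      refine @StK.toN _ _ _ _ _ _ _ _ _ _ w.st ?_
      intro X' R' I' h
      simp only [Zp, Zx]
      push_cast at *
      exact ⟨by linarith [h.1], by linarith [h.2]⟩)
          (by linarith) (by linarith) (by linarith) (by linarith) (by linarith) (by linarith) (by linarith) (by linarith) (by linarith) (by linarith) (by linarith) (by linarith) (by linarith) (by linarith) (by linarith) (by linarith) (by linarith) (by linarith)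
      · have v0 : (R : ℝ) + 2 * b + c ≤ 0 := by exact_mod_cast z1
        have v1 : 1 ≤ (R : ℝ) + a := by exact_mod_cast z2
        exact z_Zpp1aN4 W hc hA hk w.w w.ne hT (hN1.mono (Z' := (fun X R I => Zx 1 X R I)) (fun X' R' I' hb' h' => by
      obtain ⟨b1, b2, b3, b4⟩ := hb'
      obtain n0 := h'
      simp only [Zx, Zp, Zs, Zsp, Zi, ZiD, Zy] at *
      push_cast at *
      refine ⟨?_, ?_⟩ <;> linarith)) (hN2.mono (Z' := (fun X R I => ZiD D J X R I)) (fun X' R' I' hb' h' => by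
      obtain ⟨b1, b2, b3, b4⟩ := hb'
      obtain n0 := h'
      simp only [Zx, Zp, Zs, Zsp, Zi, ZiD, Zy] at *
      push_cast at *
      refine ⟨?_, ?_⟩ <;> linarith)) (by
      refine @stN_mono _ _ _ _ _ _ _ _ Nw hn ?_
      intro X' R' I' h
      simp only [Zp, Zx]
      push_cast at *
      linarith [h]) (by
      refine @StK.toN _ _ _ _ _ _ _ _ _ _ w.st ?_
      intro X' R' I' h
      simp only [Zp, Zx]
      push_cast at *
      exact ⟨by linarith [h.1], by linarith [h.2]⟩)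
          (by linarith) (by linarith) (by linarith) (by linarith) (by linarith) (by linarith) (by linarith) (by linarith) (by linarith) (by linarith) (by linarith) (by linarith) (by linarith) (by linarith) (by linarith) (by linarith) (by linarith) (by linarith)
      · have v0 : (R : ℝ) + 2 * b + c ≤ 0 := by exact_mod_cast z1
        have v1 : (R : ℝ) + a ≤ 0 := by exact_mod_cast z2
        exact z_Zpp1a5 W hc hA hk hT (hN1.mono (Z' := (fun X R I => Zx 1 X R I)) (fun X' R' I' hb' h' => by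
      obtain ⟨b1, b2, b3, b4⟩ := hb'
      obtain n0 := h'
      simp only [Zx, Zp, Zs, Zsp, Zi, ZiD, Zy] at *
      push_cast at *
      refine ⟨?_, ?_⟩ <;> linarith)) (hN2.mono (Z' := (fun X R I => ZiD D J X R I)) (fun X' R' I' hb' h' => by
      obtain ⟨b1, b2, b3, b4⟩ := hb'
      obtain n0 := h'
      simp only [Zx, Zp, Zs, Zsp, Zi, ZiD, Zy] at *
      push_cast at *
      refine ⟨?_, ?_⟩ <;> linarith))
          (by linarith) (by linarith) (by linarith) (by linarith) (by linarith) (by linarith) (by linarith) (by linarith) (by linarith) (by linarith) (by linarith)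
    · exact absurd (show (X : ℝ) + (1 : ℤ) * I = ((-R : ℤ) : ℝ) by push_cast at y0 ⊢; linarith) (ne_i0 W.toBase hk.cl hk.N0 hk.Np (-R))
    · push_cast at y0
      exact z_Zpp1aNp W hc hA hk w.w w.ne hT (hN1.mono (Z' := (fun X R I => Zx 1 X R I)) (fun X' R' I' hb' h' => by
      obtain ⟨b1, b2, b3, b4⟩ := hb'
      obtain n0 := h'
      simp only [Zx, Zp, Zs, Zsp, Zi, ZiD, Zy] at *
      push_cast at *
      refine ⟨?_, ?_⟩ <;> linarith)) (hN2.mono (Z' := (fun X R I => ZiD D J X R I)) (fun X' R' I' hb' h' => by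
      obtain ⟨b1, b2, b3, b4⟩ := hb'
      obtain n0 := h'
      simp only [Zx, Zp, Zs, Zsp, Zi, ZiD, Zy] at *
      push_cast at *
      refine ⟨?_, ?_⟩ <;> linarith)) (by
      refine @stN_mono _ _ _ _ _ _ _ _ Nw hn ?_
      intro X' R' I' h
      simp only [Zp, Zx]
      push_cast at *
      linarith [h]) (by
      refine @StK.toN _ _ _ _ _ _ _ _ _ _ w.st ?_
      intro X' R' I' h
      simp only [Zp, Zx]
      push_cast at *
      exact ⟨by linarith [h.1], by linarith [h.2]⟩)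
        (by linarith) (by linarith) (by linarith) (by linarith) (by linarith) (by linarith) (by linarith) (by linarith) (by linarith) (by linarith) (by linarith) (by linarith) (by linarith) (by linarith) (by linarith) (by linarith)

theorem zc_pp1_C2Vt : ZCellX 1 1 (Q1 1) (FV0 1 false true) := by
  intro p a b c J l q D dl Cl W hc h0 h1 hQ hA hP hN hS hX N X R I hk hF
  obtain ⟨f1, f2, f3, f4, f5, f6, Nw, Xw, Rw, Iw, hw, hne, w1, w2, w3, w4, w13, ⟨w14, w5, w6⟩, hU, hN1, hN2⟩ := hF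
  have kz := KF.of hk
  have k3 := kz.z1
  have k4 := kz.z2
  have k5 := kz.s1
  have k6 := kz.s2
  have c1 : (1 : ℝ) ≤ c := by exact_mod_cast (by omega : 1 ≤ c)
  have b1 : 1 ≤ 2 * (a : ℝ) - b := by exact_mod_cast (by omega : 1 ≤ 2 * a - b)
  have hkc := KCl.of hk
  have G := G0.of W.toBase hc
  have G1 := G.a2
  have G2 := G.b2
  have G3 := G.pa
  have G4 := G.pb
  have G5 := G.J1
  have G6 := G.JD
  have G7 := G.D2
  have G8 := G.ca
  have G9 := G.ca'
  have i1 := kz.I0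
  have i2 := kz.ID
  unfold Q1 at hQ
  have q1 : (b : ℝ) + c + 1 ≤ a := by exact_mod_cast (by omega : b + c + 1 ≤ a)
  have m1 : 2 * (b : ℝ) < D := f1
  have m2 : 0 < (X : ℝ) + (1 : ℤ) * I := f2
  have m3 : (b : ℝ) + (1 : ℤ) * ((X : ℝ) + (1 : ℤ) * I) < D := f3
  push_cast at m2 m3 k3 k4 k5 k6
  have kw := KF.of hw
  have w7 := kw.z1
  have w8 := kw.z2
  have w9 := kw.s1
  have w10 := kw.s2
  have w11 := kw.I0
  have w12 := kw.ID
  unfold Zs at w14
  unfold Zsp at w5
  have u1 : 0 < (Xw : ℝ) + (1 : ℤ) * Iw := w1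
  have u2 : (b : ℝ) + (1 : ℤ) * ((Xw : ℝ) + (1 : ℤ) * Iw) < D := w2
  push_cast at u1 u2 w14 w5 w6 w7 w8 w9 w10
  exact z_Zpp1W1g W hc hA hk hw hne (hU.mono (Z' := fun _ _ _ => True) (fun X' R' I' hb' _ => by
      obtain ⟨b1, b2, b3, b4⟩ := hb'
      simp only [Zx, Zp, Zs, Zsp, Zi, ZiD, Zy] at *
      push_cast at *
      linarith)) (hN1.mono (Z' := (fun X R I => Zx 1 X R I)) (fun X' R' I' hb' h' => by
      obtain ⟨b1, b2, b3, b4⟩ := hb'
      obtain n0 := h'
      simp only [Zx, Zp, Zs, Zsp, Zi, ZiD, Zy] at *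
      push_cast at *
      refine ⟨?_, ?_⟩ <;> linarith)) (hN2.mono (Z' := (fun X R I => ZiD D J X R I)) (fun X' R' I' hb' h' => by
      obtain ⟨b1, b2, b3, b4⟩ := hb'
      obtain n0 := h'
      simp only [Zx, Zp, Zs, Zsp, Zi, ZiD, Zy] at *
      push_cast at *
      refine ⟨?_, ?_⟩ <;> linarith))
    (by linarith) (by linarith) (by linarith) (by linarith) (by linarith) (by linarith) (by linarith) (by linarith) (by linarith) (by linarith) (by linarith) (by linarith) (by linarith) (by linarith) (by linarith) (by linarith) (by linarith) (by linarith) (by linarith)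

theorem zc_pp1_C2Vf : ZCellX 1 1 (Q1 1) (FV0 1 false false) := by
  intro p a b c J l q D dl Cl W hc h0 h1 hQ hA hP hN hS hX N X R I hk hF
  obtain ⟨f1, f2, f3, f4, f5, f6, Nw, Xw, Rw, Iw, hw, hne, w1, w2, w3, w4, w13, ⟨w14, w5, w6⟩, hU, hN1, hN2⟩ := hF
  have kz := KF.of hk
  have k3 := kz.z1
  have k4 := kz.z2
  have k5 := kz.s1
  have k6 := kz.s2
  have c1 : (1 : ℝ) ≤ c := by exact_mod_cast (by omega : 1 ≤ c)
  have b1 : 1 ≤ 2 * (a : ℝ) - b := by exact_mod_cast (by omega : 1 ≤ 2 * a - b)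
  have hkc := KCl.of hk
  have G := G0.of W.toBase hc
  have G1 := G.a2
  have G2 := G.b2
  have G3 := G.pa
  have G4 := G.pb
  have G5 := G.J1
  have G6 := G.JD
  have G7 := G.D2
  have G8 := G.ca
  have G9 := G.ca'
  have i1 := kz.I0
  have i2 := kz.ID
  unfold Q1 at hQ
  have q1 : (b : ℝ) + c + 1 ≤ a := by exact_mod_cast (by omega : b + c + 1 ≤ a)
  have m1 : 2 * (b : ℝ) < D := f1
  have m2 : 0 < (X : ℝ) + (1 : ℤ) * I := f2
  have m3 : (b : ℝ) + (1 : ℤ) * ((X : ℝ) + (1 : ℤ) * I) < D := f3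
  push_cast at m2 m3 k3 k4 k5 k6
  have kw := KF.of hw
  have w7 := kw.z1
  have w8 := kw.z2
  have w9 := kw.s1
  have w10 := kw.s2
  have w11 := kw.I0
  have w12 := kw.ID
  unfold Zs at w5
  unfold Zsp at w14
  have u1 : 0 < (Xw : ℝ) + (1 : ℤ) * Iw := w1
  have u2 : (b : ℝ) + (1 : ℤ) * ((Xw : ℝ) + (1 : ℤ) * Iw) < D := w2
  push_cast at u1 u2 w14 w5 w6 w7 w8 w9 w10
  exact z_Zpp1W2g W hc hA hk hw hne (hU.mono (Z' := fun _ _ _ => True) (fun X' R' I' hb' _ => by
      obtain ⟨b1, b2, b3, b4⟩ := hb'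
      simp only [Zx, Zp, Zs, Zsp, Zi, ZiD, Zy] at *
      push_cast at *
      linarith)) (hN1.mono (Z' := (fun X R I => Zx 1 X R I)) (fun X' R' I' hb' h' => by
      obtain ⟨b1, b2, b3, b4⟩ := hb'
      obtain n0 := h'
      simp only [Zx, Zp, Zs, Zsp, Zi, ZiD, Zy] at *
      push_cast at *
      refine ⟨?_, ?_⟩ <;> linarith)) (hN2.mono (Z' := (fun X R I => ZiD D J X R I)) (fun X' R' I' hb' h' => by
      obtain ⟨b1, b2, b3, b4⟩ := hb'
      obtain n0 := h'
      simp only [Zx, Zp, Zs, Zsp, Zi, ZiD, Zy] at *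
      push_cast at *
      refine ⟨?_, ?_⟩ <;> linarith))
    (by linarith) (by linarith) (by linarith) (by linarith) (by linarith) (by linarith) (by linarith) (by linarith) (by linarith) (by linarith) (by linarith) (by linarith) (by linarith) (by linarith) (by linarith) (by linarith) (by linarith) (by linarith) (by linarith)

theorem zc_pp1_C2Ih : ZCellX 1 1 (Q1 1) (FIh 1 false) := by
  intro p a b c J l q D dl Cl W hc h0 h1 hQ hA hP hN hS hX N X R I hk hF
  obtain ⟨⟨⟨f1, f2, f3, f4, hE, hN1, hN2⟩, f5⟩, f6⟩ := hF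
  have kz := KF.of hk
  have k3 := kz.z1
  have k4 := kz.z2
  have k5 := kz.s1
  have k6 := kz.s2
  have c1 : (1 : ℝ) ≤ c := by exact_mod_cast (by omega : 1 ≤ c)
  have b1 : 1 ≤ 2 * (a : ℝ) - b := by exact_mod_cast (by omega : 1 ≤ 2 * a - b)
  have hkc := KCl.of hk
  have G := G0.of W.toBase hc
  have G1 := G.a2
  have G2 := G.b2
  have G3 := G.pa
  have G4 := G.pb
  have G5 := G.J1
  have G6 := G.JD
  have G7 := G.D2
  have G8 := G.ca
  have G9 := G.ca'
  have i1 := kz.I0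
  have i2 := kz.ID
  unfold Q1 at hQ
  have q1 : (b : ℝ) + c + 1 ≤ a := by exact_mod_cast (by omega : b + c + 1 ≤ a)
  have m1 : 2 * (b : ℝ) < D := f1
  have m2 : 0 < (X : ℝ) + (1 : ℤ) * I := f2
  have m3 : (b : ℝ) + (1 : ℤ) * ((X : ℝ) + (1 : ℤ) * I) < D := f3
  push_cast at m2 m3 k3 k4 k5 k6
  exact z_Zpp1Hg W hc hA hk (hE.mono (Z' := (fun X R I => Zp 1 X R I)) (fun X' R' I' hb' h' => by
      obtain ⟨b1, b2, b3, b4⟩ := hb'
      obtain n0 := h'
      simp only [Zx, Zp, Zs, Zsp, Zi, ZiD, Zy] at *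
      push_cast at *
      linarith)) (hN1.mono (Z' := (fun X R I => Zx 1 X R I)) (fun X' R' I' hb' h' => by
      obtain ⟨b1, b2, b3, b4⟩ := hb'
      obtain n0 := h'
      simp only [Zx, Zp, Zs, Zsp, Zi, ZiD, Zy] at *
      push_cast at *
      refine ⟨?_, ?_⟩ <;> linarith)) (hN2.mono (Z' := (fun X R I => ZiD D J X R I)) (fun X' R' I' hb' h' => by
      obtain ⟨b1, b2, b3, b4⟩ := hb'
      obtain n0 := h'
      simp only [Zx, Zp, Zs, Zsp, Zi, ZiD, Zy] at *
      push_cast at *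
      refine ⟨?_, ?_⟩ <;> linarith))
    (by linarith) (by linarith) (by linarith) (by linarith) (by linarith) (by linarith) (by linarith) (by linarith)

theorem zc_pp1_C2U : ZCellA 1 1 (Q1 1) (FU 1 false) := by
  intro p a b c J l q D dl Cl W hc h0 h1 hQ hA hP hN hS hX hXA N X R I hk hF
  obtain ⟨f1, f2, f3, f4, f5, hU, hN1, hN2, hN3⟩ := hF
  have kz := KF.of hk
  have k3 := kz.z1
  have k4 := kz.z2
  have k5 := kz.s1
  have k6 := kz.s2
  have c1 : (1 : ℝ) ≤ c := by exact_mod_cast (by omega : 1 ≤ c)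
  have b1 : 1 ≤ 2 * (a : ℝ) - b := by exact_mod_cast (by omega : 1 ≤ 2 * a - b)
  have hkc := KCl.of hk
  have G := G0.of W.toBase hc
  have G1 := G.a2
  have G2 := G.b2
  have G3 := G.pa
  have G4 := G.pb
  have G5 := G.J1
  have G6 := G.JD
  have G7 := G.D2
  have G8 := G.ca
  have G9 := G.ca'
  have i1 := kz.I0
  have i2 := kz.ID
  unfold Q1 at hQ
  have q1 : (b : ℝ) + c + 1 ≤ a := by exact_mod_cast (by omega : b + c + 1 ≤ a)
  have m1 : 2 * (b : ℝ) < D := f1
  have m2 : 0 < (X : ℝ) + (1 : ℤ) * I := f2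
  have m3 : (b : ℝ) + (1 : ℤ) * ((X : ℝ) + (1 : ℤ) * I) < D := f3
  push_cast at m2 m3 k3 k4 k5 k6
  have hT : KU p a b l 1 Cl (fun _ _ _ => True) N := (hU.mono (Z' := fun _ _ _ => True) (fun X' R' I' hb' _ => by
      obtain ⟨b1, b2, b3, b4⟩ := hb'
      simp only [Zx, Zp, Zs, Zsp, Zi, ZiD, Zy] at *
      push_cast at *
      linarith))
  have y8i : R + b + 1 ≤ a := rk_lt hXA.ct hT hk (by exact_mod_cast (by linarith : (b : ℝ) ≤ a)) (by linarith) (by push_cast; linarith)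
  have y8 : (R : ℝ) + b + 1 ≤ a := by exact_mod_cast y8i
  refine sw_split_lt W.toBase hS hk hT (ex1 W.toBase hA hS (by linarith) hk (by linarith) (by linarith)) ?_ ?_
  · intro Nw Xw Rw Iw w
    have y1 := w.I0
    have y2 := w.ID
    have y3 := w.x1
    have y4 := w.x2
    have y5 := w.s1
    have y6 := w.s2
    have y7 := w.z
    simp only [Zp, Zx] at y7
    push_cast at y3 y4 y5 y6 y7
    rcases lt_trichotomy ((X : ℝ) + (1 : ℤ) * I + R) 0 with y0 | y0 | y0
    · push_cast at y0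
      rcases (show (1 ≤ R + b + c) ∨ (0 ≤ R + b + c ∧ R + b + c ≤ 0) ∨ (R + b + c ≤ -1 ∧ 1 ≤ R + 2 * b + c) ∨ (R + 2 * b + c ≤ 0 ∧ 1 ≤ R + a) ∨ (R + 2 * b + c ≤ 0 ∧ R + a ≤ 0) by omega) with z1 | ⟨z1, z2⟩ | ⟨z1, z2⟩ | ⟨z1, z2⟩ | ⟨z1, z2⟩
      · have v0 : 1 ≤ (R : ℝ) + b + c := by exact_mod_cast z1
        exact z_Zpp1SM1 W hc hA hk w.w w.ne hT (hN1.mono (Z' := (fun X R I => Zx 1 X R I)) (fun X' R' I' hb' h' => by
      obtain ⟨b1, b2, b3, b4⟩ := hb'
      obtain n0 := h'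
      simp only [Zx, Zp, Zs, Zsp, Zi, ZiD, Zy] at *
      push_cast at *
      refine ⟨?_, ?_⟩ <;> linarith)) (by
      refine @StK.toN _ _ _ _ _ _ _ _ _ _ w.st ?_
      intro X' R' I' h
      simp only [Zp, Zx]
      push_cast at *
      exact ⟨by linarith [h.1], by linarith [h.2]⟩)
          (by linarith) (by linarith) (by linarith) (by linarith) (by linarith) (by linarith) (by linarith) (by linarith) (by linarith) (by linarith) (by linarith) (by linarith) (by linarith) (by linarith) (by linarith) (by linarith)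
      · have v0 : 0 ≤ (R : ℝ) + b + c := by exact_mod_cast z1
        have v1 : (R : ℝ) + b + c ≤ 0 := by exact_mod_cast z2
        exact z_Zpp1SM2 W hc hA hk w.w w.ne hT (hN1.mono (Z' := (fun X R I => Zx 1 X R I)) (fun X' R' I' hb' h' => by
      obtain ⟨b1, b2, b3, b4⟩ := hb'
      obtain n0 := h'
      simp only [Zx, Zp, Zs, Zsp, Zi, ZiD, Zy] at *
      push_cast at *
      refine ⟨?_, ?_⟩ <;> linarith)) (by
      refine @StK.toN _ _ _ _ _ _ _ _ _ _ w.st ?_
      intro X' R' I' h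
      simp only [Zp, Zx]
      push_cast at *
      exact ⟨by linarith [h.1], by linarith [h.2]⟩)
          (by linarith) (by linarith) (by linarith) (by linarith) (by linarith) (by linarith) (by linarith) (by linarith) (by linarith) (by linarith) (by linarith) (by linarith) (by linarith) (by linarith) (by linarith) (by linarith) (by linarith)
      · have v0 : (R : ℝ) + b + c ≤ -1 := by exact_mod_cast z1
        have v1 : 1 ≤ (R : ℝ) + 2 * b + c := by exact_mod_cast z2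
        exact z_Zpp1SM3 W hc hA hk w.w w.ne hT (hN1.mono (Z' := (fun X R I => Zx 1 X R I)) (fun X' R' I' hb' h' => by
      obtain ⟨b1, b2, b3, b4⟩ := hb'
      obtain n0 := h'
      simp only [Zx, Zp, Zs, Zsp, Zi, ZiD, Zy] at *
      push_cast at *
      refine ⟨?_, ?_⟩ <;> linarith)) (by
      refine @StK.toN _ _ _ _ _ _ _ _ _ _ w.st ?_
      intro X' R' I' h
      simp only [Zp, Zx]
      push_cast at *
      exact ⟨by linarith [h.1], by linarith [h.2]⟩)
          (by linarith) (by linarith) (by linarith) (by linarith) (by linarith) (by linarith) (by linarith) (by linarith) (by linarith) (by linarith) (by linarith) (by linarith) (by linarith) (by linarith) (by linarith) (by linarith) (by linarith)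
      · have v0 : (R : ℝ) + 2 * b + c ≤ 0 := by exact_mod_cast z1
        have v1 : 1 ≤ (R : ℝ) + a := by exact_mod_cast z2
        exact z_Zpp1SM4 W hc hA hk w.w w.ne hT (hN1.mono (Z' := (fun X R I => Zx 1 X R I)) (fun X' R' I' hb' h' => by
      obtain ⟨b1, b2, b3, b4⟩ := hb'
      obtain n0 := h'
      simp only [Zx, Zp, Zs, Zsp, Zi, ZiD, Zy] at *
      push_cast at *
      refine ⟨?_, ?_⟩ <;> linarith)) (by
      refine @StK.toN _ _ _ _ _ _ _ _ _ _ w.st ?_
      intro X' R' I' h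
      simp only [Zp, Zx]
      push_cast at *
      exact ⟨by linarith [h.1], by linarith [h.2]⟩)
          (by linarith) (by linarith) (by linarith) (by linarith) (by linarith) (by linarith) (by linarith) (by linarith) (by linarith) (by linarith) (by linarith) (by linarith) (by linarith) (by linarith) (by linarith) (by linarith) (by linarith)
      · have v0 : (R : ℝ) + 2 * b + c ≤ 0 := by exact_mod_cast z1
        have v1 : (R : ℝ) + a ≤ 0 := by exact_mod_cast z2
        exact z_Zpp1SM5 W hc hA hk hT (hN1.mono (Z' := (fun X R I => Zx 1 X R I)) (fun X' R' I' hb' h' => by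
      obtain ⟨b1, b2, b3, b4⟩ := hb'
      obtain n0 := h'
      simp only [Zx, Zp, Zs, Zsp, Zi, ZiD, Zy] at *
      push_cast at *
      refine ⟨?_, ?_⟩ <;> linarith))
          (by linarith) (by linarith) (by linarith) (by linarith) (by linarith) (by linarith) (by linarith) (by linarith) (by linarith) (by linarith) (by linarith)
    · exact absurd (show (X : ℝ) + (1 : ℤ) * I = ((-R : ℤ) : ℝ) by push_cast at y0 ⊢; linarith) (ne_i0 W.toBase hk.cl hk.N0 hk.Np (-R))
    · push_cast at y0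
      exact z_Zpp1SPp W hc hA hk w.w w.ne hT (hN1.mono (Z' := (fun X R I => Zx 1 X R I)) (fun X' R' I' hb' h' => by
      obtain ⟨b1, b2, b3, b4⟩ := hb'
      obtain n0 := h'
      simp only [Zx, Zp, Zs, Zsp, Zi, ZiD, Zy] at *
      push_cast at *
      refine ⟨?_, ?_⟩ <;> linarith)) (by
      refine @StK.toN _ _ _ _ _ _ _ _ _ _ w.st ?_
      intro X' R' I' h
      simp only [Zp, Zx]
      push_cast at *
      exact ⟨by linarith [h.1], by linarith [h.2]⟩)
        (by linarith) (by linarith) (by linarith) (by linarith) (by linarith) (by linarith) (by linarith) (by linarith) (by linarith) (by linarith) (by linarith) (by linarith) (by linarith) (by linarith)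
  · intro hn Nw Xw Rw Iw w hlt
    have y1 := w.I0
    have y2 := w.ID
    have y3 := w.x1
    have y4 := w.x2
    have y5 := w.s1
    have y6 := w.s2
    have y7 := w.z
    simp only [Zp, Zx] at y7
    push_cast at y3 y4 y5 y6 y7
    exact nx_false W.toBase hS hA hXA.ar hXA.av (by exact_mod_cast (by linarith : (b : ℝ) < a)) (by linarith) hT hk (by linarith) (by linarith) (by push_cast; linarith) hn w hlt

theorem zc_pp1_C2V : ZCellX 1 1 (Q1 1) (FV 1 false) := by
  intro p a b c J l q D dl Cl W hc h0 h1 hQ hA hP hN hS hX N X R I hk hF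
  obtain ⟨f1, f2, f3, f4, f5, f6, Nw, Xw, Rw, Iw, hw, hne, w1, w2, w3, w4, w5, w6, hU, hN1, hN2, hN3⟩ := hF
  have kz := KF.of hk
  have k3 := kz.z1
  have k4 := kz.z2
  have k5 := kz.s1
  have k6 := kz.s2
  have c1 : (1 : ℝ) ≤ c := by exact_mod_cast (by omega : 1 ≤ c)
  have b1 : 1 ≤ 2 * (a : ℝ) - b := by exact_mod_cast (by omega : 1 ≤ 2 * a - b)
  have hkc := KCl.of hk
  have G := G0.of W.toBase hc
  have G1 := G.a2
  have G2 := G.b2
  have G3 := G.pa
  have G4 := G.pb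
  have G5 := G.J1
  have G6 := G.JD
  have G7 := G.D2
  have G8 := G.ca
  have G9 := G.ca'
  have i1 := kz.I0
  have i2 := kz.ID
  unfold Q1 at hQ
  have q1 : (b : ℝ) + c + 1 ≤ a := by exact_mod_cast (by omega : b + c + 1 ≤ a)
  have m1 : 2 * (b : ℝ) < D := f1
  have m2 : 0 < (X : ℝ) + (1 : ℤ) * I := f2
  have m3 : (b : ℝ) + (1 : ℤ) * ((X : ℝ) + (1 : ℤ) * I) < D := f3
  push_cast at m2 m3 k3 k4 k5 k6
  have kw := KF.of hw
  have w7 := kw.z1
  have w8 := kw.z2
  have w9 := kw.s1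
  have w10 := kw.s2
  have w11 := kw.I0
  have w12 := kw.ID
  have m6 : (X : ℝ) + (1 : ℤ) * I + R < 0 := f6
  have u1 : 0 < (Xw : ℝ) + (1 : ℤ) * Iw := w1
  have u2 : (b : ℝ) + (1 : ℤ) * ((Xw : ℝ) + (1 : ℤ) * Iw) < D := w2
  have u5 : 0 < (Xw : ℝ) + (1 : ℤ) * Iw + Rw := w5
  push_cast at m6 u1 u2 u5 w6 w7 w8 w9 w10
  exact z_Zpp1Vg W hc hA hk hw hne (hU.mono (Z' := fun _ _ _ => True) (fun X' R' I' hb' _ => by
      obtain ⟨b1, b2, b3, b4⟩ := hb'
      simp only [Zx, Zp, Zs, Zsp, Zi, ZiD, Zy] at *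
      push_cast at *
      linarith)) (hN1.mono (Z' := (fun X R I => Zx 1 X R I)) (fun X' R' I' hb' h' => by
      obtain ⟨b1, b2, b3, b4⟩ := hb'
      obtain n0 := h'
      simp only [Zx, Zp, Zs, Zsp, Zi, ZiD, Zy] at *
      push_cast at *
      refine ⟨?_, ?_⟩ <;> linarith))
    (by linarith) (by linarith) (by linarith) (by linarith) (by linarith) (by linarith) (by linarith) (by linarith) (by linarith) (by linarith) (by linarith) (by linarith) (by linarith) (by linarith) (by linarith) (by linarith) (by linarith)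

theorem zc_pp1_C1 : ZCellX 1 1 (Q1 1) (FC 1 true) :=
  zcellx_C (zcellx_I (zcellx_I0 zc_pp1_C1U0 zc_pp1_C1Vt zc_pp1_C1Vf zc_pp1_C1Ih) (zcellx_U (Or.inl rfl) zc_pp1_C1U zc_pp1_C1V))

theorem zc_pp1_C2 : ZCellA 1 1 (Q1 1) (FC 1 false) :=
  zcella_C (zcella_I (zcellx_I0 zc_pp1_C2U0 zc_pp1_C2Vt zc_pp1_C2Vf zc_pp1_C2Ih).a (zcella_U (Or.inr rfl) zc_pp1_C2U zc_pp1_C2V.a))

theorem cxsa_pp1 : CXsA 1 1 (Q1 1) :=
  cxsa_of zc_pp1_A1.a zc_pp1_A2.a zc_pp1_B1.a zc_pp1_B2.a zc_pp1_C1.a zc_pp1_C2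

end Helper25.S1T
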