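import Pool.Agent.Helper81.PC.C4N
import Pool.Agent.Helper25.KG.C4
import Pool.Agent.Helper25.KG.C4d

set_option autoImplicit false
set_option linter.all false

namespace Helper25.S1T.Zpp2Ca_r20

open Helper25.KG Helper11.CT

noncomputable def K : Cls :=
  dU 1 false

noncomputable def KFs : List KF3 :=
  [(3, bx3 ++ [(-1, 0, 0, [0,0,-1,0,0,0,0,0,0,1])]),
    (0, bx3 ++ [(-1, 0, 0, []), (-1, 0, 0, [0,0,-1,0,0,0,0,0,0,1])]),
    (0, bx3 ++ [(0, 0, -1, [0,0,0,0,0,-1,0,0,0,1]), (-1, 0, 0, [0,0,-1,0,0,0,0,0,0,1])])]

noncomputable def base : List Con :=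
  [(false,[0,-1,0,1,0,0,-1,-1,0,-1,-1]),
  (true,[0,0,-2,-2,1]),
  (true,[1,0,-2,-2,1]),
  (false,[0,-1,0,1,0,0,0,-1,0,-1]),
  (true,[1,0,-1,0,0,0,0,-1]),
  (false,[0,0,0,1,0,0,1,1,0,-1,1]),
  (false,[0,0,0,1,0,0,0,0,0,-1]),
  (false,[0,0,-2,0,1,0,-1,0,0,-1,-1]),
  (false,[0,1,1,1,-1,0,1,0,0,0,1]),
  (false,[0,0,0,0,0,0,-1,-1,0,0,-1]),
  (true,[1,-1,-1,0,1,0,0,1]),
  (false,[0,-1,0,1,1,0,-1,-1,0,-1,-1]),
  (true,[1,0,-1,-1,1,0,0,1]),
  (false,[0,0,0,0,0,0,0,0,0,-1,2]),
  (false,[0,0,-1,0,0,0,-1,0,0,1,-1]),
  (false,[0,0,0,0,0,0,1,0,0,0,1]),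
  (false,[0,0,0,0,0,1,0,0,0,-1,1]),
  (false,[0,0,0,0,0,1,0,0,0,0,-1]),
  (true,[0,0,0,0,1,0,0,0,-2]),
  (true,[0,0,0,0,1,0,0,0,2]),
  (false,[0,0,0,0,0,0,0,0,0,1,0,-2]),
  (false,[0,0,0,0,0,0,0,0,0,0,0,1]),
  (false,[0,1,0,0,0,0,1,1,0,0,1]),
  (false,[0,1,0,0,0,0,-1,-1,0,0,-1]),
  (false,[0,0,1,0,0,0,1,0,0,0,1]),
  (false,[0,0,1,0,0,0,-1,0,0,0,-1]),
  (false,[0,0,0,0,0,0,0,0,0,1,-1]),
  (false,[0,0,0,0,0,0,0,0,0,0,1]),
  (false,[0,0,0,0,1,0,0,0,0,-2]),
  (false,[0,0,0,0,0,-1,0,0,0,1]),
  (true,[0,0,0,0,0,1]),
  (true,[0,2,-1]),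
  (false,[0,0,2,0,0,0,0,0,0,-1]),
  (true,[1,-1,1,1]),
  (true,[0,1,-1]),
  (true,[0,1,0,-1]),
  (true,[0,0,0,1]),
  (true,[0,0,-2,0,1]),
  (true,[0,-2,0,0,1]),
  (true,[-1,0,1]),
  (true,[-1,1])]

open Helper55.PC in
noncomputable def t0n : Helper55.PC.Ten :=
  (q
  310540359604813818555492886468450772189893395357897791083621645362640199242102693481737850450453735693474466414732388019672971345931
  (q
  310540359609978318311666703648322546719444888677185204766862867531305288974207524334835329376929113169079352289559702886645963292683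
  (r
  133092060206897939538093889686432881196025208535980870665300959475342181964278202520761185594098235196794928318600283212382252291871441076303119747328446028418981972503303968268687151299405100578338832685785341674679099681832349500731911815389418305578093135030719671394522358662171249324945492329042650444219555067859253937874726834428813166926043890913692589985250717726026190920286308664199289924584334218070013268376229483373984970744668300993659895162907059540830784088886979976012149509837253888080750270206637477429305051717824)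
  (r
  273238222657932167168351203148279069159040135525551286145077384815294498660751327864260513902424580810489316728155688667053537362391903011119530271785599006865197104902798918533661771218861258205826406239866295154699030671755645953160335297923476266003914352195540689836930505918123501847410814787601202003973611743909992199852833920827854173299648574613531716267726650710237727730482345952665514752434578422023129969277449859430540738604107257369007041454284405637920884479569431371968))
  (q
  103896620709305002885740161413026118067007765238046031093163314093848042309391353902029208347778360620820962201383848158349460021156176432179465027596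
  (i 2658131591863253384123690215798865929 (k
  8883963849576591514191982300455458339831910599308554302635330480460605341837763948991577127996616863932187167811209379762832737101608329001164947168098228784335235438046152187504030680404225983756856478935480393352942583907360)
  (k
  64093380706959426366189215065495293515670387999852255062405323793318758932672540692069823842557542860330274482138199891774318694544306122936386526750390690867552961394794114077367936496692867048288583726930006311847287917557300688983892012762716849791048603424998501217941317597514088641356457388196427240718719026712555591454747767374880))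
  (i 2658131512635090870003450213849497641 (i 2659429507621562062358032464717414409 (q
  58969512610029996802688364615731851318195032204219081813687758083520205500745778821484768250243960399393157766552893511568865421185308771890368510709760201598114856972
  (k
  481603094741375395335043549233585556922181231509452816589459709554802175725868920582442826133044337362971867344410527196573815800425531933540015057405375995707549020948632958062744974891379118804565360739360)
  (r
  2898355686339633952884548426422088456468388447851840865295588304578224037862512337541920701824904967928131281977174268239419946980245392555871687989857172534309371589377740395434979209351302279305844600151357180783593356345288479341635184766801403983469227050778998037874559127114755853511197028990750873028071524955602386667367797042425379389678937061516871385213377550793142691190665180335102778161120185613935812685667311786211750561915892825411736083186779357168226316322454403816410318797386838295483459088197463926101131046641721173046076052713471223347864079806767808))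
  (r
  160891060821693056626185126397470360225732529048970195320978558432007526664018600777852480896311817650656546793424358814065886951152854647352505866870124592554448830715286700737419393970263754821474779866244751551516009388410549878353621306142809240677588103979658691162249400752386878583310655283235971037860587274089662936575201115196512057944604923270161212679009284646508162468820482008581609561624100644715355451406598859661429496793236063829647564871187607756418692019769724044289053614667755075884792005617596937946573508595894037581735944209594852032))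
  (k
  12983927712145785449605860443964520574456226980414463455633019951751867851494922046014912963427450915904533317470023147669577709781716284088036507038932422340932996614060922931527651805330110262888567381051628988536909941060247446118923791880319784019847055879119910646940704))))

noncomputable def t0 : Tre := Helper55.PC.toT t0n

theorem ok0 : chk4 K KFs t0 base = true :=
  Helper81.PC.chk4N_sound K KFs t0n base (by decide +kernel)

open Helper25.KW Helper55.KE in
theorem closed {p a b c J l q : ℤ} {D dl : ℝ} {Cl : ℤ → ℤ → ℤ → ℤ → ℝ → Prop}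
    (W : World p a b c J 1 l q D dl Cl) (g : G0 p a b c J D)
    {N X R : ℤ} {I : ℝ} (hk : KCl p l Cl N X R I) (kz : KF a b D (X + (1 : ℤ) * I) (X + (1 : ℤ) * I + R) I)
    {Nu Ru : ℤ} {Iu : ℝ} (hu : VFac p D Cl Nu Ru Iu)
    (hU : KU p a b l 1 Cl (fun X R I => Zy b 1 D X R I) N)
    (hN0 : KNo p a b l 1 Cl (fun X R I => Zx 1 X R I ∧ Zy b 1 D X R I))
    (hN1 : KNo p a b l 1 Cl (fun X R I => ZiD D J X R I ∧ Zy b 1 D X R I))
    (h0 : 1 ≤ (c : ℝ))
    (h1 : 1 ≤ (a : ℝ) - (b : ℝ))
    (h2 : 1 ≤ 1 - (a : ℝ) + (b : ℝ) + (c : ℝ))
    (h3 : 0 < 2 * (b : ℝ) - D)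
    (h4 : 1 ≤ 2 * (a : ℝ) - (b : ℝ))
    (h5 : 0 < (J : ℝ) - I)
    (h6 : 0 < (J : ℝ) - D + I)
    (h7 : 0 < (X : ℝ) + I)
    (h8 : 0 < -(b : ℝ) - (X : ℝ) + D - I)
    (h9 : 0 < -D + 2 * I)
    (h10 : 1 ≤ 1 - (b : ℝ) - (c : ℝ) + (p : ℝ) + (R : ℝ))
    (h11 : 0 < -(a : ℝ) + (c : ℝ) + (p : ℝ) - (X : ℝ) - (R : ℝ) - D - I)
    (h12 : 1 ≤ 1 - (a : ℝ) - (b : ℝ) + (p : ℝ) + (R : ℝ))
    (h13 : 0 < -(X : ℝ) - (R : ℝ) - I)
    (h14 : 0 < (a : ℝ) + (b : ℝ) + (c : ℝ) - (p : ℝ) + (X : ℝ) + I)
    (h15 : 0 < -2 * (b : ℝ) + (p : ℝ) - (X : ℝ) - D - I)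
    (h16 : 0 < (c : ℝ) - D)
    (h17 : 0 < (c : ℝ) + (X : ℝ) + (R : ℝ) - D + I)
    (h18 : 1 ≤ 1 - (b : ℝ) - (R : ℝ))
    (h19 : 0 < -(a : ℝ) + (c : ℝ) - (R : ℝ) - D)
    (h20 : 1 ≤ 1 - 2 * (b : ℝ) - 2 * (c : ℝ) + (p : ℝ))
    (h21 : 1 ≤ -2 * (b : ℝ) - 2 * (c : ℝ) + (p : ℝ))
    (h22 : 0 < -(a : ℝ) + (c : ℝ) - (X : ℝ) - (R : ℝ) - D - I) : False := by
  have g1 := g.a2
  have g2 := g.b2
  have g3 := g.pa
  have g4 := g.pb
  have g5 := g.J1
  have g6 := g.JD
  have g7 := g.D2
  have g8 := g.ca
  have g9 := g.ca'
  have k1 := kz.I0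
  have k2 := kz.ID
  have k3 := kz.z1
  have k4 := kz.z2
  have k5 := kz.s1
  have k6 := kz.s2
  have i1 := hu.I0
  have i2 := hu.ID
  have i3 : -(p : ℝ) + 1 ≤ 2 * Ru := by exact_mod_cast (by have := hu.R1; omega : -p + 1 ≤ 2 * Ru)
  have i4 : 2 * (Ru : ℝ) + 1 ≤ p := by exact_mod_cast (by have := hu.R2; omega : 2 * Ru + 1 ≤ p)
  have hkf : ∀ M : ℤ, ∀ kf ∈ KFs, KOk4 p l Cl 1 (xv [1, a, b, c, p, J, X, R, Ru] [D, I, Iu]) N M kf := by
    intro M
    have hA1 : evg (xv [1, a, b, c, p, J, X, R, Ru] [D, I, Iu]) [0, 1] = a := by
      simp only [evg_cons, evg_nil, xv, List.map_cons, List.map_nil, List.cons_append, List.nil_append]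
      push_cast
      ring
    have hB1 : evg (xv [1, a, b, c, p, J, X, R, Ru] [D, I, Iu]) [0, 0, 1] = b := by
      simp only [evg_cons, evg_nil, xv, List.map_cons, List.map_nil, List.cons_append, List.nil_append]
      push_cast
      ring
    simp only [KFs, List.forall_mem_cons]
    refine ⟨kok4_u hA1 hB1 M hU ?_, kok4_no hA1 hB1 N M hN0 ?_, kok4_no hA1 hB1 N M hN1 ?_, fun _ h => absurd h (by simp)⟩
    · intro X' R' I' _ hg
      simp only [List.forall_mem_cons, List.not_mem_nil, false_imp_iff, implies_true, and_true,
        evg_cons, evg_nil, xv, List.map_cons, List.map_nil, List.cons_append, List.nil_append] at hg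
      push_cast at hg
      simp only [Zx, Zp, Zs, Zsp, Zi, ZiD, Zy]
      push_cast
      linarith
    · intro X' R' I' _ hg
      simp only [List.forall_mem_cons, List.not_mem_nil, false_imp_iff, implies_true, and_true,
        evg_cons, evg_nil, xv, List.map_cons, List.map_nil, List.cons_append, List.nil_append] at hg
      push_cast at hg
      simp only [Zx, Zp, Zs, Zsp, Zi, ZiD, Zy]
      push_cast
      refine ⟨?_, ?_⟩ <;> linarith [hg.1, hg.2]
    · intro X' R' I' _ hg
      simp only [List.forall_mem_cons, List.not_mem_nil, false_imp_iff, implies_true, and_true,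
        evg_cons, evg_nil, xv, List.map_cons, List.map_nil, List.cons_append, List.nil_append] at hg
      push_cast at hg
      simp only [Zx, Zp, Zs, Zsp, Zi, ZiD, Zy]
      push_cast
      refine ⟨?_, ?_⟩ <;> linarith [hg.1, hg.2]
  push_cast at *
  refine sound4 (val_U W.toBase hk (UV.ofV hu) []) W rfl (Nk := N)
    (fun kf _ _ => ⟨_, rfl⟩) (fun _ _ _ => rfl) (hkf _) ok0 ?_
  · simp only [base, List.forall_mem_cons, List.not_mem_nil, false_imp_iff, implies_true,
      and_true, hld, xv, evg_cons, evg_nil, List.map_cons, List.map_nil, List.cons_append,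
      List.nil_append, if_true, if_false, Bool.false_eq_true]
    push_cast
    refine ⟨?_, ?_, ?_, ?_, ?_, ?_, ?_, ?_, ?_, ?_, ?_, ?_, ?_, ?_, ?_, ?_, ?_, ?_, ?_, ?_, ?_, ?_, ?_, ?_, ?_, ?_, ?_, ?_, ?_, ?_, ?_, ?_, ?_, ?_, ?_, ?_, ?_, ?_, ?_, ?_, ?_⟩ <;> linarith

end Helper25.S1T.Zpp2Ca_r20
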