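import Pool.Agent.Helper25.S1T.Zpp2Ca_r1
import Pool.Agent.Helper25.S1T.Zpp2Ca_r8
import Pool.Agent.Helper25.S1T.Zpp2Ca_r9
import Pool.Agent.Helper25.S1T.Zpp2Ca_r10
import Pool.Agent.Helper25.S1T.Zpp2Ca_r21
import Pool.Agent.Helper25.S1T.Zpp2Ca_r20
import Pool.Agent.Helper25.S1T.Zpp2Ca_r18
import Pool.Agent.Helper25.S1T.Zpp2Ca_r31
import Pool.Agent.Helper25.S1T.Zpp2Ca_r28
import Pool.Agent.Helper25.S1T.Zpp2Ca_r29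
import Pool.Agent.Helper25.KG.C4
import Pool.Agent.Helper25.KW.S1K2
import Pool.Agent.Helper25.KW.S1K3

set_option autoImplicit false
set_option linter.all false

namespace Helper25.S1T

open Helper25.KG Helper25.KW Helper55.KE Helper11.CT

theorem g_Zpp2Ca_r10_uvw {p a b c J l q : ℤ} {D dl : ℝ} {Cl : ℤ → ℤ → ℤ → ℤ → ℝ → Prop}
    (W : World p a b c J 1 l q D dl Cl) (hc : -a < c) (hA : Aux p a b 1 D Cl) (hX : UVB p D Cl)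
    {N X R : ℤ} {I : ℝ} (hK : KGF p a b 1 D (P1 l p) Cl N X R I)
    (hU : KU p a b l 1 Cl (fun X R I => Zy b 1 D X R I) N)
    (hN0 : KNo p a b l 1 Cl (fun X R I => Zx 1 X R I ∧ Zy b 1 D X R I))
    (hN1 : KNo p a b l 1 Cl (fun X R I => ZiD D J X R I ∧ Zy b 1 D X R I))
    (h0 : 1 ≤ (c : ℝ))
    (h1 : 1 ≤ (a : ℝ) - (b : ℝ))
    (h2 : 1 ≤ 1 - (a : ℝ) + (b : ℝ) + (c : ℝ))
    (h3 : 0 < 2 * (b : ℝ) - D)
    (h4 : 1 ≤ 2 * (a : ℝ) - (b : ℝ))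
    (h5 : 0 < (J : ℝ) - I)
    (h6 : 0 < (J : ℝ) - D + I)
    (h7 : 0 < (X : ℝ) + I)
    (h8 : 0 < -(b : ℝ) - (X : ℝ) + D - I)
    (h9 : 0 < -D + 2 * I)
    (h10 : 1 ≤ 1 - (b : ℝ) - (c : ℝ) + (p : ℝ) + (R : ℝ))
    (h11 : 0 < -(a : ℝ) + (c : ℝ) + (p : ℝ) - (X : ℝ) - (R : ℝ) - D - I)
    (h12 : 1 ≤ 1 - (a : ℝ) - (b : ℝ) + (p : ℝ) + (R : ℝ))
    (h13 : 0 < -(X : ℝ) - (R : ℝ) - I)
    (h14 : 0 < -(a : ℝ) - (b : ℝ) - (c : ℝ) + (p : ℝ) - (X : ℝ) - I)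
    (h15 : 0 < (c : ℝ) - D) : False := by
  have kz := KF.of hK
  have ha_ := W.ha
  have h2a_ := W.h2a
  have h2b_ := W.h2b
  have hb_ := W.hb
  have hJ_ := W.hJ
  have h2J_ : 2 * J < p := by
    have h1 := W.hJD
    have h2 := W.hD
    have : ((2 * J : ℤ) : ℝ) < (p : ℝ) := by push_cast; linarith
    exact_mod_cast this
  rcases hX with hUx_ | ⟨Nu, Ru, Iu, hu⟩ | ⟨⟨Nu, Ru, Iu, hu⟩, -⟩
  · obtain ⟨Nu, Ru, Iu, hu⟩ := hUx_ 1 (by omega) (by omega) (by omega)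
    exact Helper25.S1T.Zpp2Ca_r10.closed W (G0.of W.toBase hc) (KCl.of hK) kz hu hU hN0 hN1
      h0 h1 h2 h3 h4 h5 h6 h7 h8 h9 h10 h11 h12 h13 h14 h15
  · exact Helper25.S1T.Zpp2Ca_r9.closed W (G0.of W.toBase hc) (KCl.of hK) kz hu hU hN0 hN1
      h0 h1 h2 h3 h4 h5 h6 h7 h8 h9 h10 h11 h12 h13 h14 h15
  · have e1_ : 2 * (Ru : ℝ) = p := by exact_mod_cast hu.R2
    have e2_ := hu.ID
    exact Helper25.S1T.Zpp2Ca_r8.closed W (G0.of W.toBase hc) (KCl.of hK) kz hu hU hN0 hN1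
      h0 h1 h2 (by push_cast; linarith) h4 h5 (by push_cast; linarith) h7 (by push_cast; linarith) (by push_cast; linarith) (by push_cast; linarith) (by push_cast; linarith) (by push_cast; linarith) h13 (by push_cast; linarith) (by push_cast; linarith)

theorem g_Zpp2Ca_r18_uvw {p a b c J l q : ℤ} {D dl : ℝ} {Cl : ℤ → ℤ → ℤ → ℤ → ℝ → Prop}
    (W : World p a b c J 1 l q D dl Cl) (hc : -a < c) (hA : Aux p a b 1 D Cl) (hX : UVB p D Cl)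
    {N X R : ℤ} {I : ℝ} (hK : KGF p a b 1 D (P1 l p) Cl N X R I)
    (hU : KU p a b l 1 Cl (fun X R I => Zy b 1 D X R I) N)
    (hN0 : KNo p a b l 1 Cl (fun X R I => Zx 1 X R I ∧ Zy b 1 D X R I))
    (hN1 : KNo p a b l 1 Cl (fun X R I => ZiD D J X R I ∧ Zy b 1 D X R I))
    (h0 : 1 ≤ (c : ℝ))
    (h1 : 1 ≤ (a : ℝ) - (b : ℝ))
    (h2 : 1 ≤ 1 - (a : ℝ) + (b : ℝ) + (c : ℝ))
    (h3 : 0 < 2 * (b : ℝ) - D)
    (h4 : 1 ≤ 2 * (a : ℝ) - (b : ℝ))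
    (h5 : 0 < (J : ℝ) - I)
    (h6 : 0 < (J : ℝ) - D + I)
    (h7 : 0 < (X : ℝ) + I)
    (h8 : 0 < -(b : ℝ) - (X : ℝ) + D - I)
    (h9 : 0 < -D + 2 * I)
    (h10 : 1 ≤ 1 - (b : ℝ) - (c : ℝ) + (p : ℝ) + (R : ℝ))
    (h11 : 0 < -(a : ℝ) + (c : ℝ) + (p : ℝ) - (X : ℝ) - (R : ℝ) - D - I)
    (h12 : 1 ≤ 1 - (a : ℝ) - (b : ℝ) + (p : ℝ) + (R : ℝ))
    (h13 : 0 < -(X : ℝ) - (R : ℝ) - I)
    (h14 : 0 < (a : ℝ) + (b : ℝ) + (c : ℝ) - (p : ℝ) + (X : ℝ) + I)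
    (h15 : 0 < -2 * (b : ℝ) + (p : ℝ) - (X : ℝ) - D - I)
    (h16 : 0 < (c : ℝ) - D)
    (h17 : 0 < (c : ℝ) + (X : ℝ) + (R : ℝ) - D + I)
    (h18 : 1 ≤ 1 - (b : ℝ) - (R : ℝ))
    (h19 : 0 < -(a : ℝ) + (c : ℝ) - (R : ℝ) - D)
    (h20 : 1 ≤ 1 - 2 * (b : ℝ) - 2 * (c : ℝ) + (p : ℝ))
    (h21 : 1 ≤ -2 * (b : ℝ) - 2 * (c : ℝ) + (p : ℝ))
    (h22 : 0 < -(a : ℝ) + (c : ℝ) - (X : ℝ) - (R : ℝ) - D - I) : False := by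
  have kz := KF.of hK
  have ha_ := W.ha
  have h2a_ := W.h2a
  have h2b_ := W.h2b
  have hb_ := W.hb
  have hJ_ := W.hJ
  have h2J_ : 2 * J < p := by
    have h1 := W.hJD
    have h2 := W.hD
    have : ((2 * J : ℤ) : ℝ) < (p : ℝ) := by push_cast; linarith
    exact_mod_cast this
  rcases hX with hUx_ | ⟨Nu, Ru, Iu, hu⟩ | ⟨⟨Nu, Ru, Iu, hu⟩, -⟩
  · obtain ⟨Nu, Ru, Iu, hu⟩ := hUx_ 1 (by omega) (by omega) (by omega)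
    exact Helper25.S1T.Zpp2Ca_r18.closed W (G0.of W.toBase hc) (KCl.of hK) kz hu hU hN0 hN1
      h0 h1 h2 h3 h4 h5 h6 h7 h8 h9 h10 h11 h12 h13 h14 h15 h16 h17 h18 h19 h20 h21 h22
  · exact Helper25.S1T.Zpp2Ca_r20.closed W (G0.of W.toBase hc) (KCl.of hK) kz hu hU hN0 hN1
      h0 h1 h2 h3 h4 h5 h6 h7 h8 h9 h10 h11 h12 h13 h14 h15 h16 h17 h18 h19 h20 h21 h22
  · have e1_ : 2 * (Ru : ℝ) = p := by exact_mod_cast hu.R2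
    have e2_ := hu.ID
    exact Helper25.S1T.Zpp2Ca_r21.closed W (G0.of W.toBase hc) (KCl.of hK) kz hu hU hN0 hN1
      h0 h1 h2 (by push_cast; linarith) h4 h5 (by push_cast; linarith) h7 (by push_cast; linarith) (by push_cast; linarith) (by push_cast; linarith) (by push_cast; linarith) (by push_cast; linarith) h13 (by push_cast; linarith) (by push_cast; linarith) (by push_cast; linarith) (by push_cast; linarith) h18 (by push_cast; linarith) (by push_cast; linarith) (by push_cast; linarith) (by push_cast; linarith)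

theorem g_Zpp2Ca_r29_uvw {p a b c J l q : ℤ} {D dl : ℝ} {Cl : ℤ → ℤ → ℤ → ℤ → ℝ → Prop}
    (W : World p a b c J 1 l q D dl Cl) (hc : -a < c) (hA : Aux p a b 1 D Cl) (hX : UVB p D Cl)
    {N X R : ℤ} {I : ℝ} (hK : KGF p a b 1 D (P1 l p) Cl N X R I)
    (hU : KU p a b l 1 Cl (fun X R I => Zy b 1 D X R I) N)
    (hN0 : KNo p a b l 1 Cl (fun X R I => Zx 1 X R I ∧ Zy b 1 D X R I))
    (hN1 : KNo p a b l 1 Cl (fun X R I => ZiD D J X R I ∧ Zy b 1 D X R I))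
    (h0 : 1 ≤ (c : ℝ))
    (h1 : 1 ≤ (a : ℝ) - (b : ℝ))
    (h2 : 1 ≤ 1 - (a : ℝ) + (b : ℝ) + (c : ℝ))
    (h3 : 0 < 2 * (b : ℝ) - D)
    (h4 : 1 ≤ 2 * (a : ℝ) - (b : ℝ))
    (h5 : 0 < (J : ℝ) - I)
    (h6 : 0 < (J : ℝ) - D + I)
    (h7 : 0 < (X : ℝ) + I)
    (h8 : 0 < -(b : ℝ) - (X : ℝ) + D - I)
    (h9 : 0 < -D + 2 * I)
    (h10 : 1 ≤ 1 - (b : ℝ) - (c : ℝ) + (p : ℝ) + (R : ℝ))
    (h11 : 0 < -(a : ℝ) + (c : ℝ) + (p : ℝ) - (X : ℝ) - (R : ℝ) - D - I)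
    (h12 : 1 ≤ 1 - (a : ℝ) - (b : ℝ) + (p : ℝ) + (R : ℝ))
    (h13 : 0 < (X : ℝ) + (R : ℝ) + I)
    (h14 : 1 ≤ 1 - (a : ℝ) - (b : ℝ) - (c : ℝ) + (p : ℝ) + (R : ℝ))
    (h15 : 0 < (c : ℝ) - D)
    (h16 : 1 ≤ 1 - (b : ℝ) + (R : ℝ))
    (h17 : 0 < -(a : ℝ) + (c : ℝ) + (X : ℝ) + (R : ℝ) - D + I)
    (h18 : 0 < (c : ℝ) - (X : ℝ) - (R : ℝ) - I) : False := by
  have kz := KF.of hK
  have ha_ := W.ha
  have h2a_ := W.h2a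
  have h2b_ := W.h2b
  have hb_ := W.hb
  have hJ_ := W.hJ
  have h2J_ : 2 * J < p := by
    have h1 := W.hJD
    have h2 := W.hD
    have : ((2 * J : ℤ) : ℝ) < (p : ℝ) := by push_cast; linarith
    exact_mod_cast this
  rcases hX with hUx_ | ⟨Nu, Ru, Iu, hu⟩ | ⟨⟨Nu, Ru, Iu, hu⟩, -⟩
  · obtain ⟨Nu, Ru, Iu, hu⟩ := hUx_ 1 (by omega) (by omega) (by omega)
    exact Helper25.S1T.Zpp2Ca_r29.closed W (G0.of W.toBase hc) (KCl.of hK) kz hu hU hN0 hN1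
      h0 h1 h2 h3 h4 h5 h6 h7 h8 h9 h10 h11 h12 h13 h14 h15 h16 h17 h18
  · exact Helper25.S1T.Zpp2Ca_r28.closed W (G0.of W.toBase hc) (KCl.of hK) kz hu hU hN0 hN1
      h0 h1 h2 h3 h4 h5 h6 h7 h8 h9 h10 h11 h12 h13 h14 h15 h16 h17 h18
  · have e1_ : 2 * (Ru : ℝ) = p := by exact_mod_cast hu.R2
    have e2_ := hu.ID
    exact Helper25.S1T.Zpp2Ca_r31.closed W (G0.of W.toBase hc) (KCl.of hK) kz hu hU hN0 hN1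
      h0 h1 h2 (by push_cast; linarith) h4 h5 (by push_cast; linarith) h7 (by push_cast; linarith) (by push_cast; linarith) (by push_cast; linarith) (by push_cast; linarith) (by push_cast; linarith) h13 (by push_cast; linarith) (by push_cast; linarith) h16 (by push_cast; linarith) h18

theorem g_Zpp2Ca_r1 {p a b c J l q : ℤ} {D dl : ℝ} {Cl : ℤ → ℤ → ℤ → ℤ → ℝ → Prop}
    (W : World p a b c J 1 l q D dl Cl) (hc : -a < c) (hA : Aux p a b 1 D Cl) (hX : UVB p D Cl)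
    {N X R : ℤ} {I : ℝ} (hK : KGF p a b 1 D (P1 l p) Cl N X R I)
    (hU : KU p a b l 1 Cl (fun X R I => Zy b 1 D X R I) N)
    (hN0 : KNo p a b l 1 Cl (fun X R I => Zx 1 X R I ∧ Zy b 1 D X R I))
    (hN1 : KNo p a b l 1 Cl (fun X R I => ZiD D J X R I ∧ Zy b 1 D X R I))
    (h0 : 1 ≤ (c : ℝ))
    (h1 : 1 ≤ (a : ℝ) - (b : ℝ))
    (h2 : 1 ≤ 1 - (a : ℝ) + (b : ℝ) + (c : ℝ))
    (h3 : 0 < 2 * (b : ℝ) - D)
    (h4 : 1 ≤ 2 * (a : ℝ) - (b : ℝ))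
    (h5 : 0 < (J : ℝ) - I)
    (h6 : 0 < (J : ℝ) - D + I)
    (h7 : 0 < (X : ℝ) + I)
    (h8 : 0 < -(b : ℝ) - (X : ℝ) + D - I)
    (h9 : 0 < -D + 2 * I) : False := by
  have kz := KF.of hK
  refine Helper25.S1T.Zpp2Ca_r1.closed W (G0.of W.toBase hc) (KCl.of hK) kz hU hN0 hN1
    h0 h1 h2 h3 h4 h5 h6 h7 h8 h9 ?_ ?_ ?_
  · intro p0 p1 p2 p3 p4 p5
    exact g_Zpp2Ca_r10_uvw W hc hA hX hK hU hN0 hN1 
      h0 h1 h2 h3 h4 h5 h6 h7 h8 h9 p0 p1 p2 p3 p4 p5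
  · intro p0 p1 p2 p3 p4 p5 p6 p7 p8 p9 p10 p11 p12
    exact g_Zpp2Ca_r18_uvw W hc hA hX hK hU hN0 hN1 
      h0 h1 h2 h3 h4 h5 h6 h7 h8 h9 p0 p1 p2 p3 p4 p5 p6 p7 p8 p9 p10 p11 p12
  · intro p0 p1 p2 p3 p4 p5 p6 p7 p8
    exact g_Zpp2Ca_r29_uvw W hc hA hX hK hU hN0 hN1 
      h0 h1 h2 h3 h4 h5 h6 h7 h8 h9 p0 p1 p2 p3 p4 p5 p6 p7 p8

alias z_Zpp2Ca := g_Zpp2Ca_r1

end Helper25.S1T
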