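import Pool.Agent.Helper25.S1T.G_Zpp2A
import Pool.Agent.Helper25.S1T.G_Zpp2B
import Pool.Agent.Helper25.S1T.G_Zpp2Ca
import Pool.Agent.Helper25.S1T.G_Zpp2W1
import Pool.Agent.Helper25.S1T.G_Zpp2W2
import Pool.Agent.Helper25.S1T.G_Zpp2H
import Pool.Agent.Helper25.S1T.G_Zpp2I1
import Pool.Agent.Helper25.S1T.G_Zpp2aPp
import Pool.Agent.Helper25.S1T.G_Zpp2aPm
import Pool.Agent.Helper25.S1T.G_Zpp2aNp
import Pool.Agent.Helper25.S1T.G_Zpp2aNm
import Pool.Agent.Helper25.KG.S1F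
import Pool.Agent.Helper25.KW.S1O
import Pool.Agent.Helper25.KW.S1Q

set_option autoImplicit false
set_option linter.all false

namespace Helper25.S1T

open Helper25.KG Helper25.KW Helper55.KE Helper11.CT

theorem zc_pp2_A1 : ZCellX 1 1 (Q2 1) (FA 1 true) := by
  intro p a b c J l q D dl Cl W hc h0 h1 hQ hA hP hN hS hX N X R I hk hF
  obtain ⟨f1, f2, f3, hE⟩ := hF
  have kz := KF.of hk
  have k3 := kz.z1
  have k4 := kz.z2
  have k5 := kz.s1
  have k6 := kz.s2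
  have c1 : (1 : ℝ) ≤ c := by exact_mod_cast (by omega : 1 ≤ c)
  have b1 : 1 ≤ 2 * (a : ℝ) - b := by exact_mod_cast (by omega : 1 ≤ 2 * a - b)
  have hkc := KCl.of hk
  have G := G0.of W.toBase hc
  have G1 := G.a2
  have G2 := G.b2
  have G3 := G.pa
  have G4 := G.pb
  have G5 := G.J1
  have G6 := G.JD
  have G7 := G.D2
  have G8 := G.ca
  have G9 := G.ca'
  have i1 := kz.I0
  have i2 := kz.ID
  obtain ⟨hQ1, hQ2⟩ := hQ
  have q1 : (b : ℝ) + 1 ≤ a := by exact_mod_cast (by omega : b + 1 ≤ a)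
  have q2 : (a : ℝ) ≤ b + c := by exact_mod_cast (by omega : a ≤ b + c)
  have m1 : D < 2 * (b : ℝ) := f1
  have m2 : (X : ℝ) + (1 : ℤ) * I < 0 := f2
  have m3 : (b : ℝ) + (1 : ℤ) * ((X : ℝ) + (1 : ℤ) * I) < D := f3
  push_cast at m2 m3 k3 k4 k5 k6
  exact z_Zpp2A W hc hA hk hE
    (by linarith) (by linarith) (by linarith) (by linarith) (by linarith) (by linarith)

theorem zc_pp2_B1 : ZCellX 1 1 (Q2 1) (FB 1 true) := by
  intro p a b c J l q D dl Cl W hc h0 h1 hQ hA hP hN hS hX N X R I hk hF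
  obtain ⟨f1, f2, f3, f4, hN1⟩ := hF
  have kz := KF.of hk
  have k3 := kz.z1
  have k4 := kz.z2
  have k5 := kz.s1
  have k6 := kz.s2
  have c1 : (1 : ℝ) ≤ c := by exact_mod_cast (by omega : 1 ≤ c)
  have b1 : 1 ≤ 2 * (a : ℝ) - b := by exact_mod_cast (by omega : 1 ≤ 2 * a - b)
  have hkc := KCl.of hk
  have G := G0.of W.toBase hc
  have G1 := G.a2
  have G2 := G.b2
  have G3 := G.pa
  have G4 := G.pb
  have G5 := G.J1
  have G6 := G.JD
  have G7 := G.D2
  have G8 := G.ca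
  have G9 := G.ca'
  have i1 := kz.I0
  have i2 := kz.ID
  obtain ⟨hQ1, hQ2⟩ := hQ
  have q1 : (b : ℝ) + 1 ≤ a := by exact_mod_cast (by omega : b + 1 ≤ a)
  have q2 : (a : ℝ) ≤ b + c := by exact_mod_cast (by omega : a ≤ b + c)
  have m1 : D < 2 * (b : ℝ) := f1
  have m2 : 0 < (X : ℝ) + (1 : ℤ) * I := f2
  have m3 : (b : ℝ) + (1 : ℤ) * ((X : ℝ) + (1 : ℤ) * I) < D := f3
  push_cast at m2 m3 k3 k4 k5 k6
  exact z_Zpp2B W hc hA hk hN1
    (by linarith) (by linarith) (by linarith) (by linarith) (by linarith) (by linarith) (by linarith)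

theorem zc_pp2_C1U0 : ZCellX 1 1 (Q2 1) (FU0 1 true) := by
  intro p a b c J l q D dl Cl W hc h0 h1 hQ hA hP hN hS hX N X R I hk hF
  obtain ⟨f1, f2, f3, f4, f5, f6, hU, hN1, hN2⟩ := hF
  have kz := KF.of hk
  have k3 := kz.z1
  have k4 := kz.z2
  have k5 := kz.s1
  have k6 := kz.s2
  have c1 : (1 : ℝ) ≤ c := by exact_mod_cast (by omega : 1 ≤ c)
  have b1 : 1 ≤ 2 * (a : ℝ) - b := by exact_mod_cast (by omega : 1 ≤ 2 * a - b)
  have hkc := KCl.of hk
  have G := G0.of W.toBase hc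
  have G1 := G.a2
  have G2 := G.b2
  have G3 := G.pa
  have G4 := G.pb
  have G5 := G.J1
  have G6 := G.JD
  have G7 := G.D2
  have G8 := G.ca
  have G9 := G.ca'
  have i1 := kz.I0
  have i2 := kz.ID
  obtain ⟨hQ1, hQ2⟩ := hQ
  have q1 : (b : ℝ) + 1 ≤ a := by exact_mod_cast (by omega : b + 1 ≤ a)
  have q2 : (a : ℝ) ≤ b + c := by exact_mod_cast (by omega : a ≤ b + c)
  have m1 : D < 2 * (b : ℝ) := f1
  have m2 : 0 < (X : ℝ) + (1 : ℤ) * I := f2
  have m3 : (b : ℝ) + (1 : ℤ) * ((X : ℝ) + (1 : ℤ) * I) < D := f3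
  push_cast at m2 m3 k3 k4 k5 k6
  exact z_Zpp2Ca W hc hA hX hk hU hN1 hN2
    (by linarith) (by linarith) (by linarith) (by linarith) (by linarith) (by linarith) (by linarith) (by linarith) (by linarith) (by linarith)

theorem zc_pp2_C1Vt : ZCellX 1 1 (Q2 1) (FV0 1 true true) := by
  intro p a b c J l q D dl Cl W hc h0 h1 hQ hA hP hN hS hX N X R I hk hF
  obtain ⟨f1, f2, f3, f4, f5, f6, Nw, Xw, Rw, Iw, hw, hne, w1, w2, w3, w4, w13, ⟨w14, w5, w6⟩, hU, hN1, hN2⟩ := hF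
  have kz := KF.of hk
  have k3 := kz.z1
  have k4 := kz.z2
  have k5 := kz.s1
  have k6 := kz.s2
  have c1 : (1 : ℝ) ≤ c := by exact_mod_cast (by omega : 1 ≤ c)
  have b1 : 1 ≤ 2 * (a : ℝ) - b := by exact_mod_cast (by omega : 1 ≤ 2 * a - b)
  have hkc := KCl.of hk
  have G := G0.of W.toBase hc
  have G1 := G.a2
  have G2 := G.b2
  have G3 := G.pa
  have G4 := G.pb
  have G5 := G.J1
  have G6 := G.JD
  have G7 := G.D2
  have G8 := G.ca
  have G9 := G.ca'
  have i1 := kz.I0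
  have i2 := kz.ID
  obtain ⟨hQ1, hQ2⟩ := hQ
  have q1 : (b : ℝ) + 1 ≤ a := by exact_mod_cast (by omega : b + 1 ≤ a)
  have q2 : (a : ℝ) ≤ b + c := by exact_mod_cast (by omega : a ≤ b + c)
  have m1 : D < 2 * (b : ℝ) := f1
  have m2 : 0 < (X : ℝ) + (1 : ℤ) * I := f2
  have m3 : (b : ℝ) + (1 : ℤ) * ((X : ℝ) + (1 : ℤ) * I) < D := f3
  push_cast at m2 m3 k3 k4 k5 k6
  have kw := KF.of hw
  have w7 := kw.z1
  have w8 := kw.z2
  have w9 := kw.s1
  have w10 := kw.s2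
  have w11 := kw.I0
  have w12 := kw.ID
  unfold Zs at w14
  unfold Zsp at w5
  have u1 : 0 < (Xw : ℝ) + (1 : ℤ) * Iw := w1
  have u2 : (b : ℝ) + (1 : ℤ) * ((Xw : ℝ) + (1 : ℤ) * Iw) < D := w2
  push_cast at u1 u2 w14 w5 w6 w7 w8 w9 w10
  exact z_Zpp2W1 W hc hA hk hw hne hU hN1 hN2
    (by linarith) (by linarith) (by linarith) (by linarith) (by linarith) (by linarith) (by linarith) (by linarith) (by linarith) (by linarith) (by linarith) (by linarith) (by linarith) (by linarith) (by linarith) (by linarith) (by linarith) (by linarith) (by linarith) (by linarith) (by linarith)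

theorem zc_pp2_C1Vf : ZCellX 1 1 (Q2 1) (FV0 1 true false) := by
  intro p a b c J l q D dl Cl W hc h0 h1 hQ hA hP hN hS hX N X R I hk hF
  obtain ⟨f1, f2, f3, f4, f5, f6, Nw, Xw, Rw, Iw, hw, hne, w1, w2, w3, w4, w13, ⟨w14, w5, w6⟩, hU, hN1, hN2⟩ := hF
  have kz := KF.of hk
  have k3 := kz.z1
  have k4 := kz.z2
  have k5 := kz.s1
  have k6 := kz.s2
  have c1 : (1 : ℝ) ≤ c := by exact_mod_cast (by omega : 1 ≤ c)
  have b1 : 1 ≤ 2 * (a : ℝ) - b := by exact_mod_cast (by omega : 1 ≤ 2 * a - b)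
  have hkc := KCl.of hk
  have G := G0.of W.toBase hc
  have G1 := G.a2
  have G2 := G.b2
  have G3 := G.pa
  have G4 := G.pb
  have G5 := G.J1
  have G6 := G.JD
  have G7 := G.D2
  have G8 := G.ca
  have G9 := G.ca'
  have i1 := kz.I0
  have i2 := kz.ID
  obtain ⟨hQ1, hQ2⟩ := hQ
  have q1 : (b : ℝ) + 1 ≤ a := by exact_mod_cast (by omega : b + 1 ≤ a)
  have q2 : (a : ℝ) ≤ b + c := by exact_mod_cast (by omega : a ≤ b + c)
  have m1 : D < 2 * (b : ℝ) := f1
  have m2 : 0 < (X : ℝ) + (1 : ℤ) * I := f2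
  have m3 : (b : ℝ) + (1 : ℤ) * ((X : ℝ) + (1 : ℤ) * I) < D := f3
  push_cast at m2 m3 k3 k4 k5 k6
  have kw := KF.of hw
  have w7 := kw.z1
  have w8 := kw.z2
  have w9 := kw.s1
  have w10 := kw.s2
  have w11 := kw.I0
  have w12 := kw.ID
  unfold Zs at w5
  unfold Zsp at w14
  have u1 : 0 < (Xw : ℝ) + (1 : ℤ) * Iw := w1
  have u2 : (b : ℝ) + (1 : ℤ) * ((Xw : ℝ) + (1 : ℤ) * Iw) < D := w2
  push_cast at u1 u2 w14 w5 w6 w7 w8 w9 w10
  exact z_Zpp2W2 W hc hA hk hw hne hU hN1 hN2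
    (by linarith) (by linarith) (by linarith) (by linarith) (by linarith) (by linarith) (by linarith) (by linarith) (by linarith) (by linarith) (by linarith) (by linarith) (by linarith) (by linarith) (by linarith) (by linarith) (by linarith) (by linarith) (by linarith) (by linarith) (by linarith)

theorem zc_pp2_C1Ih : ZCellX 1 1 (Q2 1) (FIh 1 true) := by
  intro p a b c J l q D dl Cl W hc h0 h1 hQ hA hP hN hS hX N X R I hk hF
  obtain ⟨⟨⟨f1, f2, f3, f4, hE, hN1, hN2⟩, f5⟩, f6⟩ := hF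
  have kz := KF.of hk
  have k3 := kz.z1
  have k4 := kz.z2
  have k5 := kz.s1
  have k6 := kz.s2
  have c1 : (1 : ℝ) ≤ c := by exact_mod_cast (by omega : 1 ≤ c)
  have b1 : 1 ≤ 2 * (a : ℝ) - b := by exact_mod_cast (by omega : 1 ≤ 2 * a - b)
  have hkc := KCl.of hk
  have G := G0.of W.toBase hc
  have G1 := G.a2
  have G2 := G.b2
  have G3 := G.pa
  have G4 := G.pb
  have G5 := G.J1
  have G6 := G.JD
  have G7 := G.D2
  have G8 := G.ca
  have G9 := G.ca'
  have i1 := kz.I0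
  have i2 := kz.ID
  obtain ⟨hQ1, hQ2⟩ := hQ
  have q1 : (b : ℝ) + 1 ≤ a := by exact_mod_cast (by omega : b + 1 ≤ a)
  have q2 : (a : ℝ) ≤ b + c := by exact_mod_cast (by omega : a ≤ b + c)
  have m1 : D < 2 * (b : ℝ) := f1
  have m2 : 0 < (X : ℝ) + (1 : ℤ) * I := f2
  have m3 : (b : ℝ) + (1 : ℤ) * ((X : ℝ) + (1 : ℤ) * I) < D := f3
  push_cast at m2 m3 k3 k4 k5 k6
  exact z_Zpp2H W hc hA hk (hE.mono (Z' := (fun X R I => Zp 1 X R I ∧ Zy b 1 D X R I)) (fun X' R' I' hb' h' => by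
      obtain ⟨b1, b2, b3, b4⟩ := hb'
      obtain ⟨n0, n1⟩ := h'
      simp only [Zx, Zp, Zs, Zsp, Zi, ZiD, Zy] at *
      push_cast at *
      linarith)) hN1 hN2
    (by linarith) (by linarith) (by linarith) (by linarith) (by linarith) (by linarith) (by linarith) (by linarith) (by linarith)

theorem zc_pp2_C11 : ZCellX 1 1 (Q2 1) (FI1 1 true) := by
  intro p a b c J l q D dl Cl W hc h0 h1 hQ hA hP hN hS hX N X R I hk hF
  obtain ⟨⟨f1, f2, f3, f4, hE, hN1, hN2⟩, f5, hN3⟩ := hF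
  have kz := KF.of hk
  have k3 := kz.z1
  have k4 := kz.z2
  have k5 := kz.s1
  have k6 := kz.s2
  have c1 : (1 : ℝ) ≤ c := by exact_mod_cast (by omega : 1 ≤ c)
  have b1 : 1 ≤ 2 * (a : ℝ) - b := by exact_mod_cast (by omega : 1 ≤ 2 * a - b)
  have hkc := KCl.of hk
  have G := G0.of W.toBase hc
  have G1 := G.a2
  have G2 := G.b2
  have G3 := G.pa
  have G4 := G.pb
  have G5 := G.J1
  have G6 := G.JD
  have G7 := G.D2
  have G8 := G.ca
  have G9 := G.ca'
  have i1 := kz.I0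
  have i2 := kz.ID
  obtain ⟨hQ1, hQ2⟩ := hQ
  have q1 : (b : ℝ) + 1 ≤ a := by exact_mod_cast (by omega : b + 1 ≤ a)
  have q2 : (a : ℝ) ≤ b + c := by exact_mod_cast (by omega : a ≤ b + c)
  have m1 : D < 2 * (b : ℝ) := f1
  have m2 : 0 < (X : ℝ) + (1 : ℤ) * I := f2
  have m3 : (b : ℝ) + (1 : ℤ) * ((X : ℝ) + (1 : ℤ) * I) < D := f3
  push_cast at m2 m3 k3 k4 k5 k6
  exact z_Zpp2I1 W hc hA hk (hE.mono (Z' := (fun X R I => Zp 1 X R I ∧ Zy b 1 D X R I)) (fun X' R' I' hb' h' => by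
      obtain ⟨b1, b2, b3, b4⟩ := hb'
      obtain ⟨n0, n1⟩ := h'
      simp only [Zx, Zp, Zs, Zsp, Zi, ZiD, Zy] at *
      push_cast at *
      linarith)) hN1 hN2 hN3
    (by linarith) (by linarith) (by linarith) (by linarith) (by linarith) (by linarith) (by linarith) (by linarith)

theorem zc_pp2_A2 : ZCellX 1 1 (Q2 1) (FA 1 false) := by
  intro p a b c J l q D dl Cl W hc h0 h1 hQ hA hP hN hS hX N X R I hk hF
  obtain ⟨f1, f2, f3, hE⟩ := hF
  have kz := KF.of hk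
  have k3 := kz.z1
  have k4 := kz.z2
  have k5 := kz.s1
  have k6 := kz.s2
  have c1 : (1 : ℝ) ≤ c := by exact_mod_cast (by omega : 1 ≤ c)
  have b1 : 1 ≤ 2 * (a : ℝ) - b := by exact_mod_cast (by omega : 1 ≤ 2 * a - b)
  have hkc := KCl.of hk
  have G := G0.of W.toBase hc
  have G1 := G.a2
  have G2 := G.b2
  have G3 := G.pa
  have G4 := G.pb
  have G5 := G.J1
  have G6 := G.JD
  have G7 := G.D2
  have G8 := G.ca
  have G9 := G.ca'
  have i1 := kz.I0
  have i2 := kz.ID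
  obtain ⟨hQ1, hQ2⟩ := hQ
  have q1 : (b : ℝ) + 1 ≤ a := by exact_mod_cast (by omega : b + 1 ≤ a)
  have q2 : (a : ℝ) ≤ b + c := by exact_mod_cast (by omega : a ≤ b + c)
  have m1 : 2 * (b : ℝ) < D := f1
  have m2 : (X : ℝ) + (1 : ℤ) * I < 0 := f2
  have m3 : (b : ℝ) + (1 : ℤ) * ((X : ℝ) + (1 : ℤ) * I) < D := f3
  push_cast at m2 m3 k3 k4 k5 k6
  exact z_Zpp2A W hc hA hk hE
    (by linarith) (by linarith) (by linarith) (by linarith) (by linarith) (by linarith)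

theorem zc_pp2_B2 : ZCellX 1 1 (Q2 1) (FB 1 false) := by
  intro p a b c J l q D dl Cl W hc h0 h1 hQ hA hP hN hS hX N X R I hk hF
  obtain ⟨f1, f2, f3, f4, hN1⟩ := hF
  have kz := KF.of hk
  have k3 := kz.z1
  have k4 := kz.z2
  have k5 := kz.s1
  have k6 := kz.s2
  have c1 : (1 : ℝ) ≤ c := by exact_mod_cast (by omega : 1 ≤ c)
  have b1 : 1 ≤ 2 * (a : ℝ) - b := by exact_mod_cast (by omega : 1 ≤ 2 * a - b)
  have hkc := KCl.of hk
  have G := G0.of W.toBase hc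
  have G1 := G.a2
  have G2 := G.b2
  have G3 := G.pa
  have G4 := G.pb
  have G5 := G.J1
  have G6 := G.JD
  have G7 := G.D2
  have G8 := G.ca
  have G9 := G.ca'
  have i1 := kz.I0
  have i2 := kz.ID
  obtain ⟨hQ1, hQ2⟩ := hQ
  have q1 : (b : ℝ) + 1 ≤ a := by exact_mod_cast (by omega : b + 1 ≤ a)
  have q2 : (a : ℝ) ≤ b + c := by exact_mod_cast (by omega : a ≤ b + c)
  have m1 : 2 * (b : ℝ) < D := f1
  have m2 : 0 < (X : ℝ) + (1 : ℤ) * I := f2
  have m3 : (b : ℝ) + (1 : ℤ) * ((X : ℝ) + (1 : ℤ) * I) < D := f3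
  push_cast at m2 m3 k3 k4 k5 k6
  exact z_Zpp2B W hc hA hk hN1
    (by linarith) (by linarith) (by linarith) (by linarith) (by linarith) (by linarith) (by linarith)

theorem zc_pp2_C2U0 : ZCellX 1 1 (Q2 1) (FU0 1 false) := by
  intro p a b c J l q D dl Cl W hc h0 h1 hQ hA hP hN hS hX N X R I hk hF
  obtain ⟨f1, f2, f3, f4, f5, f6, hU, hN1, hN2⟩ := hF
  have kz := KF.of hk
  have k3 := kz.z1
  have k4 := kz.z2
  have k5 := kz.s1
  have k6 := kz.s2
  have c1 : (1 : ℝ) ≤ c := by exact_mod_cast (by omega : 1 ≤ c)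
  have b1 : 1 ≤ 2 * (a : ℝ) - b := by exact_mod_cast (by omega : 1 ≤ 2 * a - b)
  have hkc := KCl.of hk
  have G := G0.of W.toBase hc
  have G1 := G.a2
  have G2 := G.b2
  have G3 := G.pa
  have G4 := G.pb
  have G5 := G.J1
  have G6 := G.JD
  have G7 := G.D2
  have G8 := G.ca
  have G9 := G.ca'
  have i1 := kz.I0
  have i2 := kz.ID
  obtain ⟨hQ1, hQ2⟩ := hQ
  have q1 : (b : ℝ) + 1 ≤ a := by exact_mod_cast (by omega : b + 1 ≤ a)
  have q2 : (a : ℝ) ≤ b + c := by exact_mod_cast (by omega : a ≤ b + c)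
  have m1 : 2 * (b : ℝ) < D := f1
  have m2 : 0 < (X : ℝ) + (1 : ℤ) * I := f2
  have m3 : (b : ℝ) + (1 : ℤ) * ((X : ℝ) + (1 : ℤ) * I) < D := f3
  push_cast at m2 m3 k3 k4 k5 k6
  have hT : KU p a b l 1 Cl (fun _ _ _ => True) N := (hU.mono (Z' := fun _ _ _ => True) (fun X' R' I' hb' _ => by
      obtain ⟨b1, b2, b3, b4⟩ := hb'
      simp only [Zx, Zp, Zs, Zsp, Zi, ZiD, Zy] at *
      push_cast at *
      linarith))
  refine sw_split_lt W.toBase hS hk hT (ex0 W.toBase hA hS (by linarith) hk (by linarith) (by linarith)) ?_ ?_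
  · intro Nw Xw Rw Iw w
    have y1 := w.I0
    have y2 := w.ID
    have y3 := w.x1
    have y4 := w.x2
    have y5 := w.s1
    have y6 := w.s2
    have y7 := w.z
    simp only [Zp, Zx] at y7
    push_cast at y3 y4 y5 y6 y7
    rcases lt_trichotomy ((X : ℝ) + (1 : ℤ) * I + R) 0 with y0 | y0 | y0
    · push_cast at y0
      exact z_Zpp2aPm W hc hA hk w.w w.ne hT (hN1.mono (Z' := (fun X R I => Zx 1 X R I)) (fun X' R' I' hb' h' => by
      obtain ⟨b1, b2, b3, b4⟩ := hb'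
      obtain n0 := h'
      simp only [Zx, Zp, Zs, Zsp, Zi, ZiD, Zy] at *
      push_cast at *
      refine ⟨?_, ?_⟩ <;> linarith)) (hN2.mono (Z' := (fun X R I => ZiD D J X R I)) (fun X' R' I' hb' h' => by
      obtain ⟨b1, b2, b3, b4⟩ := hb'
      obtain n0 := h'
      simp only [Zx, Zp, Zs, Zsp, Zi, ZiD, Zy] at *
      push_cast at *
      refine ⟨?_, ?_⟩ <;> linarith)) (by
      refine @StK.toN _ _ _ _ _ _ _ _ _ _ w.st ?_
      intro X' R' I' h
      simp only [Zp, Zx]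
      push_cast at *
      exact ⟨by linarith [h.1], by linarith [h.2]⟩)
        (by linarith) (by linarith) (by linarith) (by linarith) (by linarith) (by linarith) (by linarith) (by linarith) (by linarith) (by linarith) (by linarith) (by linarith) (by linarith) (by linarith) (by linarith) (by linarith)
    · exact absurd (show (X : ℝ) + (1 : ℤ) * I = ((-R : ℤ) : ℝ) by push_cast at y0 ⊢; linarith) (ne_i0 W.toBase hk.cl hk.N0 hk.Np (-R))
    · push_cast at y0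
      exact z_Zpp2aPp W hc hA hk w.w w.ne hT (hN1.mono (Z' := (fun X R I => Zx 1 X R I)) (fun X' R' I' hb' h' => by
      obtain ⟨b1, b2, b3, b4⟩ := hb'
      obtain n0 := h'
      simp only [Zx, Zp, Zs, Zsp, Zi, ZiD, Zy] at *
      push_cast at *
      refine ⟨?_, ?_⟩ <;> linarith)) (hN2.mono (Z' := (fun X R I => ZiD D J X R I)) (fun X' R' I' hb' h' => by
      obtain ⟨b1, b2, b3, b4⟩ := hb'
      obtain n0 := h'
      simp only [Zx, Zp, Zs, Zsp, Zi, ZiD, Zy] at *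
      push_cast at *
      refine ⟨?_, ?_⟩ <;> linarith)) (by
      refine @StK.toN _ _ _ _ _ _ _ _ _ _ w.st ?_
      intro X' R' I' h
      simp only [Zp, Zx]
      push_cast at *
      exact ⟨by linarith [h.1], by linarith [h.2]⟩)
        (by linarith) (by linarith) (by linarith) (by linarith) (by linarith) (by linarith) (by linarith) (by linarith) (by linarith) (by linarith) (by linarith) (by linarith) (by linarith) (by linarith) (by linarith) (by linarith)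
  · intro hn Nw Xw Rw Iw w hlt
    have y1 := w.I0
    have y2 := w.ID
    have y3 := w.x1
    have y4 := w.x2
    have y5 := w.s1
    have y6 := w.s2
    have y7 := w.z
    simp only [Zp, Zx] at y7
    push_cast at y3 y4 y5 y6 y7
    rcases lt_trichotomy ((X : ℝ) + (1 : ℤ) * I + R) 0 with y0 | y0 | y0
    · push_cast at y0
      exact z_Zpp2aNm W hc hA hk w.w w.ne hT (hN1.mono (Z' := (fun X R I => Zx 1 X R I)) (fun X' R' I' hb' h' => by
      obtain ⟨b1, b2, b3, b4⟩ := hb'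
      obtain n0 := h'
      simp only [Zx, Zp, Zs, Zsp, Zi, ZiD, Zy] at *
      push_cast at *
      refine ⟨?_, ?_⟩ <;> linarith)) (hN2.mono (Z' := (fun X R I => ZiD D J X R I)) (fun X' R' I' hb' h' => by
      obtain ⟨b1, b2, b3, b4⟩ := hb'
      obtain n0 := h'
      simp only [Zx, Zp, Zs, Zsp, Zi, ZiD, Zy] at *
      push_cast at *
      refine ⟨?_, ?_⟩ <;> linarith)) (by
      refine @stN_mono _ _ _ _ _ _ _ _ Nw hn ?_
      intro X' R' I' h
      simp only [Zp, Zx]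
      push_cast at *
      linarith [h]) (by
      refine @StK.toN _ _ _ _ _ _ _ _ _ _ w.st ?_
      intro X' R' I' h
      simp only [Zp, Zx]
      push_cast at *
      exact ⟨by linarith [h.1], by linarith [h.2]⟩)
        (by linarith) (by linarith) (by linarith) (by linarith) (by linarith) (by linarith) (by linarith) (by linarith) (by linarith) (by linarith) (by linarith) (by linarith) (by linarith) (by linarith) (by linarith) (by linarith) (by linarith)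
    · exact absurd (show (X : ℝ) + (1 : ℤ) * I = ((-R : ℤ) : ℝ) by push_cast at y0 ⊢; linarith) (ne_i0 W.toBase hk.cl hk.N0 hk.Np (-R))
    · push_cast at y0
      exact z_Zpp2aNp W hc hA hk w.w w.ne hT (hN1.mono (Z' := (fun X R I => Zx 1 X R I)) (fun X' R' I' hb' h' => by
      obtain ⟨b1, b2, b3, b4⟩ := hb'
      obtain n0 := h'
      simp only [Zx, Zp, Zs, Zsp, Zi, ZiD, Zy] at *
      push_cast at *
      refine ⟨?_, ?_⟩ <;> linarith)) (hN2.mono (Z' := (fun X R I => ZiD D J X R I)) (fun X' R' I' hb' h' => by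
      obtain ⟨b1, b2, b3, b4⟩ := hb'
      obtain n0 := h'
      simp only [Zx, Zp, Zs, Zsp, Zi, ZiD, Zy] at *
      push_cast at *
      refine ⟨?_, ?_⟩ <;> linarith)) (by
      refine @stN_mono _ _ _ _ _ _ _ _ Nw hn ?_
      intro X' R' I' h
      simp only [Zp, Zx]
      push_cast at *
      linarith [h]) (by
      refine @StK.toN _ _ _ _ _ _ _ _ _ _ w.st ?_
      intro X' R' I' h
      simp only [Zp, Zx]
      push_cast at *
      exact ⟨by linarith [h.1], by linarith [h.2]⟩)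
        (by linarith) (by linarith) (by linarith) (by linarith) (by linarith) (by linarith) (by linarith) (by linarith) (by linarith) (by linarith) (by linarith) (by linarith) (by linarith) (by linarith) (by linarith) (by linarith) (by linarith)

theorem zc_pp2_C2Vt : ZCellX 1 1 (Q2 1) (FV0 1 false true) := by
  intro p a b c J l q D dl Cl W hc h0 h1 hQ hA hP hN hS hX N X R I hk hF
  obtain ⟨f1, f2, f3, f4, f5, f6, Nw, Xw, Rw, Iw, hw, hne, w1, w2, w3, w4, w13, ⟨w14, w5, w6⟩, hU, hN1, hN2⟩ := hF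
  have kz := KF.of hk
  have k3 := kz.z1
  have k4 := kz.z2
  have k5 := kz.s1
  have k6 := kz.s2
  have c1 : (1 : ℝ) ≤ c := by exact_mod_cast (by omega : 1 ≤ c)
  have b1 : 1 ≤ 2 * (a : ℝ) - b := by exact_mod_cast (by omega : 1 ≤ 2 * a - b)
  have hkc := KCl.of hk
  have G := G0.of W.toBase hc
  have G1 := G.a2
  have G2 := G.b2
  have G3 := G.pa
  have G4 := G.pb
  have G5 := G.J1
  have G6 := G.JD
  have G7 := G.D2
  have G8 := G.ca
  have G9 := G.ca'
  have i1 := kz.I0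
  have i2 := kz.ID
  obtain ⟨hQ1, hQ2⟩ := hQ
  have q1 : (b : ℝ) + 1 ≤ a := by exact_mod_cast (by omega : b + 1 ≤ a)
  have q2 : (a : ℝ) ≤ b + c := by exact_mod_cast (by omega : a ≤ b + c)
  have m1 : 2 * (b : ℝ) < D := f1
  have m2 : 0 < (X : ℝ) + (1 : ℤ) * I := f2
  have m3 : (b : ℝ) + (1 : ℤ) * ((X : ℝ) + (1 : ℤ) * I) < D := f3
  push_cast at m2 m3 k3 k4 k5 k6
  have kw := KF.of hw
  have w7 := kw.z1
  have w8 := kw.z2
  have w9 := kw.s1
  have w10 := kw.s2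
  have w11 := kw.I0
  have w12 := kw.ID
  unfold Zs at w14
  unfold Zsp at w5
  have u1 : 0 < (Xw : ℝ) + (1 : ℤ) * Iw := w1
  have u2 : (b : ℝ) + (1 : ℤ) * ((Xw : ℝ) + (1 : ℤ) * Iw) < D := w2
  push_cast at u1 u2 w14 w5 w6 w7 w8 w9 w10
  exact z_Zpp2W1 W hc hA hk hw hne hU hN1 hN2
    (by linarith) (by linarith) (by linarith) (by linarith) (by linarith) (by linarith) (by linarith) (by linarith) (by linarith) (by linarith) (by linarith) (by linarith) (by linarith) (by linarith) (by linarith) (by linarith) (by linarith) (by linarith) (by linarith) (by linarith) (by linarith)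

theorem zc_pp2_C2Vf : ZCellX 1 1 (Q2 1) (FV0 1 false false) := by
  intro p a b c J l q D dl Cl W hc h0 h1 hQ hA hP hN hS hX N X R I hk hF
  obtain ⟨f1, f2, f3, f4, f5, f6, Nw, Xw, Rw, Iw, hw, hne, w1, w2, w3, w4, w13, ⟨w14, w5, w6⟩, hU, hN1, hN2⟩ := hF
  have kz := KF.of hk
  have k3 := kz.z1
  have k4 := kz.z2
  have k5 := kz.s1
  have k6 := kz.s2
  have c1 : (1 : ℝ) ≤ c := by exact_mod_cast (by omega : 1 ≤ c)
  have b1 : 1 ≤ 2 * (a : ℝ) - b := by exact_mod_cast (by omega : 1 ≤ 2 * a - b)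
  have hkc := KCl.of hk
  have G := G0.of W.toBase hc
  have G1 := G.a2
  have G2 := G.b2
  have G3 := G.pa
  have G4 := G.pb
  have G5 := G.J1
  have G6 := G.JD
  have G7 := G.D2
  have G8 := G.ca
  have G9 := G.ca'
  have i1 := kz.I0
  have i2 := kz.ID
  obtain ⟨hQ1, hQ2⟩ := hQ
  have q1 : (b : ℝ) + 1 ≤ a := by exact_mod_cast (by omega : b + 1 ≤ a)
  have q2 : (a : ℝ) ≤ b + c := by exact_mod_cast (by omega : a ≤ b + c)
  have m1 : 2 * (b : ℝ) < D := f1
  have m2 : 0 < (X : ℝ) + (1 : ℤ) * I := f2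
  have m3 : (b : ℝ) + (1 : ℤ) * ((X : ℝ) + (1 : ℤ) * I) < D := f3
  push_cast at m2 m3 k3 k4 k5 k6
  have kw := KF.of hw
  have w7 := kw.z1
  have w8 := kw.z2
  have w9 := kw.s1
  have w10 := kw.s2
  have w11 := kw.I0
  have w12 := kw.ID
  unfold Zs at w5
  unfold Zsp at w14
  have u1 : 0 < (Xw : ℝ) + (1 : ℤ) * Iw := w1
  have u2 : (b : ℝ) + (1 : ℤ) * ((Xw : ℝ) + (1 : ℤ) * Iw) < D := w2
  push_cast at u1 u2 w14 w5 w6 w7 w8 w9 w10
  exact z_Zpp2W2 W hc hA hk hw hne hU hN1 hN2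
    (by linarith) (by linarith) (by linarith) (by linarith) (by linarith) (by linarith) (by linarith) (by linarith) (by linarith) (by linarith) (by linarith) (by linarith) (by linarith) (by linarith) (by linarith) (by linarith) (by linarith) (by linarith) (by linarith) (by linarith) (by linarith)

theorem zc_pp2_C2Ih : ZCellX 1 1 (Q2 1) (FIh 1 false) := by
  intro p a b c J l q D dl Cl W hc h0 h1 hQ hA hP hN hS hX N X R I hk hF
  obtain ⟨⟨⟨f1, f2, f3, f4, hE, hN1, hN2⟩, f5⟩, f6⟩ := hF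
  have kz := KF.of hk
  have k3 := kz.z1
  have k4 := kz.z2
  have k5 := kz.s1
  have k6 := kz.s2
  have c1 : (1 : ℝ) ≤ c := by exact_mod_cast (by omega : 1 ≤ c)
  have b1 : 1 ≤ 2 * (a : ℝ) - b := by exact_mod_cast (by omega : 1 ≤ 2 * a - b)
  have hkc := KCl.of hk
  have G := G0.of W.toBase hc
  have G1 := G.a2
  have G2 := G.b2
  have G3 := G.pa
  have G4 := G.pb
  have G5 := G.J1
  have G6 := G.JD
  have G7 := G.D2
  have G8 := G.ca
  have G9 := G.ca'
  have i1 := kz.I0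
  have i2 := kz.ID
  obtain ⟨hQ1, hQ2⟩ := hQ
  have q1 : (b : ℝ) + 1 ≤ a := by exact_mod_cast (by omega : b + 1 ≤ a)
  have q2 : (a : ℝ) ≤ b + c := by exact_mod_cast (by omega : a ≤ b + c)
  have m1 : 2 * (b : ℝ) < D := f1
  have m2 : 0 < (X : ℝ) + (1 : ℤ) * I := f2
  have m3 : (b : ℝ) + (1 : ℤ) * ((X : ℝ) + (1 : ℤ) * I) < D := f3
  push_cast at m2 m3 k3 k4 k5 k6
  exact z_Zpp2H W hc hA hk (hE.mono (Z' := (fun X R I => Zp 1 X R I ∧ Zy b 1 D X R I)) (fun X' R' I' hb' h' => by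
      obtain ⟨b1, b2, b3, b4⟩ := hb'
      obtain ⟨n0, n1⟩ := h'
      simp only [Zx, Zp, Zs, Zsp, Zi, ZiD, Zy] at *
      push_cast at *
      linarith)) hN1 hN2
    (by linarith) (by linarith) (by linarith) (by linarith) (by linarith) (by linarith) (by linarith) (by linarith) (by linarith)

theorem zc_pp2_C21 : ZCellX 1 1 (Q2 1) (FI1 1 false) := by
  intro p a b c J l q D dl Cl W hc h0 h1 hQ hA hP hN hS hX N X R I hk hF
  obtain ⟨⟨f1, f2, f3, f4, hE, hN1, hN2⟩, f5, hN3⟩ := hF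
  have kz := KF.of hk
  have k3 := kz.z1
  have k4 := kz.z2
  have k5 := kz.s1
  have k6 := kz.s2
  have c1 : (1 : ℝ) ≤ c := by exact_mod_cast (by omega : 1 ≤ c)
  have b1 : 1 ≤ 2 * (a : ℝ) - b := by exact_mod_cast (by omega : 1 ≤ 2 * a - b)
  have hkc := KCl.of hk
  have G := G0.of W.toBase hc
  have G1 := G.a2
  have G2 := G.b2
  have G3 := G.pa
  have G4 := G.pb
  have G5 := G.J1
  have G6 := G.JD
  have G7 := G.D2
  have G8 := G.ca
  have G9 := G.ca'
  have i1 := kz.I0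
  have i2 := kz.ID
  obtain ⟨hQ1, hQ2⟩ := hQ
  have q1 : (b : ℝ) + 1 ≤ a := by exact_mod_cast (by omega : b + 1 ≤ a)
  have q2 : (a : ℝ) ≤ b + c := by exact_mod_cast (by omega : a ≤ b + c)
  have m1 : 2 * (b : ℝ) < D := f1
  have m2 : 0 < (X : ℝ) + (1 : ℤ) * I := f2
  have m3 : (b : ℝ) + (1 : ℤ) * ((X : ℝ) + (1 : ℤ) * I) < D := f3
  push_cast at m2 m3 k3 k4 k5 k6
  exact z_Zpp2I1 W hc hA hk (hE.mono (Z' := (fun X R I => Zp 1 X R I ∧ Zy b 1 D X R I)) (fun X' R' I' hb' h' => by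
      obtain ⟨b1, b2, b3, b4⟩ := hb'
      obtain ⟨n0, n1⟩ := h'
      simp only [Zx, Zp, Zs, Zsp, Zi, ZiD, Zy] at *
      push_cast at *
      linarith)) hN1 hN2 hN3
    (by linarith) (by linarith) (by linarith) (by linarith) (by linarith) (by linarith) (by linarith) (by linarith)

theorem zc_pp2_C1 : ZCellX 1 1 (Q2 1) (FC 1 true) :=
  zcellx_C (zcellx_I (zcellx_I0 zc_pp2_C1U0 zc_pp2_C1Vt zc_pp2_C1Vf zc_pp2_C1Ih) zc_pp2_C11)

theorem zc_pp2_C2 : ZCellX 1 1 (Q2 1) (FC 1 false) :=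
  zcellx_C (zcellx_I (zcellx_I0 zc_pp2_C2U0 zc_pp2_C2Vt zc_pp2_C2Vf zc_pp2_C2Ih) zc_pp2_C21)

theorem cxs_pp2 : CXs 1 1 (Q2 1) :=
  cxs_of zc_pp2_A1 zc_pp2_A2 zc_pp2_B1 zc_pp2_B2 zc_pp2_C1 zc_pp2_C2

end Helper25.S1T
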