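import Pool.Agent.Helper25.S1T.AYpp35
import Pool.Agent.Helper25.S1T.AYpm35
import Pool.Agent.Helper25.S1T.AYmp35
import Pool.Agent.Helper25.S1T.AYmm35
import Pool.Agent.Helper25.S1T.AYpm2
import Pool.Agent.Helper25.S1T.AYmp2
import Pool.Agent.Helper25.S1T.AYmm2L
import Pool.Agent.Helper25.S1T.ZCmm2g
import Pool.Agent.Helper25.S1T.ZCpp2
import Pool.Agent.Helper25.S1T.ZCpp1
import Pool.Agent.Helper25.S1T.ZCpm1
import Pool.Agent.Helper25.S1T.ZCmp1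
import Pool.Agent.Helper25.S1T.ZCmm1

set_option autoImplicit false

namespace Helper25.S1T

open Helper25.KW

theorem cx_1_1 : CXA 1 1 := cxa_of cys_1_1_35.z.x.a cxs_pp2.a cxsa_pp1

theorem cx_1_m1 : CXA 1 (-1) := cxa_of cys_1_m1_35.z.x.a cys_1_m1_2.z.x.a cxsa_pm1

theorem cx_m1_1 : CXA (-1) 1 := cxa_of cys_m1_1_35.z.x.a cys_m1_1_2.z.x.a cxsa_mp1

theorem cx_m1_m1 : CXA (-1) (-1) :=
  cxa_of cys_m1_m1_35.z.x.a (cxs_sd csd_mm2_1 csd_mm2_2).a cxs_mm1.a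

end Helper25.S1T
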