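import Pool.Agent.Helper25.S1T.Ypp_35_P2_m1n1_CC_p0
import Pool.Agent.Helper25.S1T.Ypp_35_P2_m1n1_CC_p1

set_option autoImplicit false
set_option linter.all false

namespace Helper25.S1T.Ypp_35_P2_m1n1_CC

open Helper25.KG Helper25.KW Helper55.KE Helper11.CT

noncomputable def t3 : Tre :=
  .I [0,1,0,1,0,0,0,-1] t1 t2

theorem ok3 : chk K t3 l2 = true :=
  chk_I (e' := [1,-1,0,-1,0,0,0,1]) (by decide +kernel) (by decide +kernel) ok1 ok2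

noncomputable def t9 : Tre :=
  .I [1,0,2,1,-1] t7 t8

theorem ok9 : chk K t9 r8 = true :=
  chk_I (e' := [0,0,-2,-1,1]) (by decide +kernel) (by decide +kernel) ok7 ok8

noncomputable def t10 : Tre :=
  .Q [0,-1,-1,-1,0,0,-1,0,0,1,-1] (.p false [0,0,1] [1] (⟨0,[(20,0)]⟩,⟨0,[(19,0)]⟩) .k 1 (⟨0,[]⟩,⟨0,
  []⟩) .k .k) t6 t9

theorem ok10 : chk K t10 l7 = true :=
  chk_Q (e' := [0,1,1,1,0,0,1,0,0,-1,1]) (by decide +kernel) (by decide +kernel) ok6 ok9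

noncomputable def t12 : Tre :=
  .Q [0,0,0,-1,0,0,-1,-1,0,0,-1] (.p false [0,0,1] [] (⟨0,[(19,0)]⟩,⟨0,[(18,0)]⟩) .k 0 (⟨0,[]⟩,⟨0,
  []⟩) .k .k) t10 t11

theorem ok12 : chk K t12 r6 = true :=
  chk_Q (e' := [0,0,0,1,0,0,1,1,0,0,1]) (by decide +kernel) (by decide +kernel) ok10 ok11

noncomputable def t13 : Tre :=
  .Q [0,-1,-1,-1,1,0,1,0,0,0,1] (.p true [0,0,1] [] (⟨0,[(18,0)]⟩,⟨0,[(17,0)]⟩) .k 0 (⟨0,[]⟩,⟨0,
  []⟩) .k .k) t5 t12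

theorem ok13 : chk K t13 l5 = true :=
  chk_Q (e' := [0,1,1,1,-1,0,-1,0,0,0,-1]) (by decide +kernel) (by decide +kernel) ok5 ok12

noncomputable def t15 : Tre :=
  .I [1,0,1,0,0,0,0,-2] t13 t14

theorem ok15 : chk K t15 r4 = true :=
  chk_I (e' := [0,0,-1,0,0,0,0,2]) (by decide +kernel) (by decide +kernel) ok13 ok14

noncomputable def t16 : Tre :=
  .I [0,0,0,1,0,0,0,-1] t4 t15

theorem ok16 : chk K t16 r2 = true :=
  chk_I (e' := [1,0,0,-1,0,0,0,1]) (by decide +kernel) (by decide +kernel) ok4 ok15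

noncomputable def t17 : Tre :=
  .Q [0,0,0,0,0,0,1,1,0,0,1] (.p true [0,0,1] [] (⟨0,[(15,0)]⟩,⟨0,[(14,0)]⟩) .k 0 (⟨0,[]⟩,⟨0,[]⟩)
  .k .k) t3 t16

theorem ok17 : chk K t17 l1 = true :=
  chk_Q (e' := [0,0,0,0,0,0,-1,-1,0,0,-1]) (by decide +kernel) (by decide +kernel) ok3 ok16

noncomputable def t19 : Tre :=
  .I [0,1,0,0,0,0,0,1] t17 t18

theorem ok19 : chk K t19 r0 = true :=
  chk_I (e' := [1,-1,0,0,0,0,0,-1]) (by decide +kernel) (by decide +kernel) ok17 ok18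

noncomputable def t20 : Tre :=
  .I [0,1,0,2,-1] t0 t19

theorem ok20 : chk K t20 base = true :=
  chk_I (e' := [1,-1,0,-2,1]) (by decide +kernel) (by decide +kernel) ok0 ok19

theorem closed {p a b c J l q : ℤ} {D dl : ℝ} {Cl : ℤ → ℤ → ℤ → ℤ → ℝ → Prop}
    (W : World p a b c J 1 l q D dl Cl) (g : G0 p a b c J D)
    {N X R : ℤ} {I : ℝ} (hk : KCl p l Cl N X R I) (kz : KF a b D (X + (1 : ℤ) * I) (X + (1 : ℤ) * I + R) I)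
    {Ne Xe : ℤ} {Ie : ℝ} (he : EFac p 1 D Cl 1 Ne Xe Ie)
    (hkf : ∀ kf ∈ (kfY 1 [0,0,0,0,0,0,1,0,0,0,1]), KOk p l Cl 1
      (xv [1, a, b, c, p, J, X, R, Xe] [D, I, Ie]) N kf)
    (h0 : 1 ≤ (c : ℝ))
    (h1 : 1 ≤ 1 - (a : ℝ) + (b : ℝ))
    (h2 : 1 ≤ 2 * (a : ℝ) - (b : ℝ))
    (h3 : 0 < 1 + 2 * (p : ℝ) - 5 * D)
    (h4 : 1 ≤ -(a : ℝ) + (b : ℝ))
    (h5 : 1 ≤ 2 * (a : ℝ) - (b : ℝ))
    (h6 : 1 ≤ -1 + (J : ℝ))
    (h7 : 1 ≤ 3 - (J : ℝ))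
    (h8 : 0 < -(b : ℝ) - (X : ℝ) + D - I)
    (h9 : 0 < -(J : ℝ) + I)
    (h10 : 0 < -(J : ℝ) + D - I)
    (h11 : 0 < -2 * (X : ℝ) + D - 2 * I) : False := by
  have g1 := g.a2
  have g2 := g.b2
  have g3 := g.pa
  have g4 := g.pb
  have g5 := g.J1
  have g6 := g.JD
  have g7 := g.D2
  have g8 := g.ca
  have g9 := g.ca'
  have k1 := kz.I0
  have k2 := kz.ID
  have k3 := kz.z1
  have k4 := kz.z2
  have k5 := kz.s1
  have k6 := kz.s2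
  have e1 := he.I0
  have e2 := he.ID
  have e3 := he.x0
  have e4 := he.xp
  push_cast at *
  refine (val_E W.toBase hk he (row := [1]) (by simp) (by simp) (kfY 1 [0,0,0,0,0,0,1,0,0,0,1])).sound W rfl (Nk := N)
    (fun kf _ _ => ⟨_, rfl⟩) hkf ?_ ok20
  · simp only [base, List.forall_mem_cons, List.not_mem_nil, false_imp_iff, implies_true,
      and_true, hld, xv, evg_cons, evg_nil, List.map_cons, List.map_nil, List.cons_append,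
      List.nil_append, if_true, if_false, Bool.false_eq_true]
    push_cast
    refine ⟨?_, ?_, ?_, ?_, ?_, ?_, ?_, ?_, ?_, ?_, ?_, ?_, ?_, ?_, ?_, ?_, ?_, ?_, ?_, ?_, ?_, ?_, ?_, ?_, ?_, ?_, ?_, ?_, ?_, ?_⟩ <;> linarith

end Helper25.S1T.Ypp_35_P2_m1n1_CC
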