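import Pool.Agent.Helper25.S1T.Ypp_35_P3_m1n1_K1_p0
import Pool.Agent.Helper25.S1T.Ypp_35_P3_m1n1_K1_p1

set_option autoImplicit false
set_option linter.all false

namespace Helper25.S1T.Ypp_35_P3_m1n1_K1

open Helper25.KG Helper25.KW Helper55.KE Helper11.CT

noncomputable def t7 : Tre :=
  .I [0,0,2,0,-2,2,-1] t5 t6

theorem ok7 : chk K t7 r8 = true :=
  chk_I (e' := [1,0,-2,0,2,-2,1]) (by decide +kernel) (by decide +kernel) ok5 ok6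

noncomputable def t8 : Tre :=
  .Q [0,0,0,0,1,0,2,0,0,0,-1,2] (.p true [0,0,1] [1,0,-1] (⟨0,[(24,0)]⟩,⟨0,[(23,0)]⟩) .k 2 (⟨0,[(23,
  0)]⟩,⟨0,[(24,0)]⟩) .k (.r (-1) ⟨0,[(18,1),(0,1),(7,0),(4,1)]⟩ ⟨0,[(1,1)]⟩)) t4 t7

theorem ok8 : chk K t8 r7 = true :=
  chk_Q (e' := [0,0,0,0,-1,0,-2,0,0,0,1,-2]) (by decide +kernel) (by decide +kernel) ok4 ok7

noncomputable def t9 : Tre :=
  .Q [0,-1,-1,-1,2,0,2,1,0,0,-1,2] (.p true [0,0,1] [1,0,-1] (⟨0,[(23,0)]⟩,⟨0,[(22,0)]⟩) .k 2 (⟨0,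
  [(22,0)]⟩,⟨0,[(23,0)]⟩) .k (.r (-1) ⟨0,[(17,1),(0,1),(7,0),(4,1)]⟩ ⟨0,[(0,1)]⟩)) t3 t8

theorem ok9 : chk K t9 l6 = true :=
  chk_Q (e' := [0,1,1,1,-2,0,-2,-1,0,0,1,-2]) (by decide +kernel) (by decide +kernel) ok3 ok8

noncomputable def t11 : Tre :=
  .I [0,0,0,0,0,0,0,-1] t9 t10

theorem ok11 : chk K t11 r5 = true :=
  chk_I (e' := [1,0,0,0,0,0,0,1]) (by decide +kernel) (by decide +kernel) ok9 ok10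

noncomputable def t12 : Tre :=
  .Q [0,-1,0,2,0,0,-1,-1,0,0,0,-1] (.p false [0,0,1] [] (⟨0,[(21,0)]⟩,⟨0,[(20,0)]⟩) .k 0 (⟨0,[]⟩,⟨0,
  []⟩) .k .k) t2 t11

theorem ok12 : chk K t12 r4 = true :=
  chk_Q (e' := [0,1,0,-2,0,0,1,1,0,0,0,1]) (by decide +kernel) (by decide +kernel) ok2 ok11

noncomputable def t13 : Tre :=
  .Q [0,0,0,0,0,2,0,0,0,0,0,-1] (.p false [0,0,1] [] (⟨0,[(20,0)]⟩,⟨0,[(19,0)]⟩) .k 0 (⟨0,[]⟩,⟨0,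
  []⟩) .k .k) t1 t12

theorem ok13 : chk K t13 l3 = true :=
  chk_Q (e' := [0,0,0,0,0,-2,0,0,0,0,0,1]) (by decide +kernel) (by decide +kernel) ok1 ok12

noncomputable def t15 : Tre :=
  .Q [0,0,-1,-1,0,0,-1,0,0,0,1,-1] (.p false [0,0,1] [1] (⟨0,[(19,0)]⟩,⟨0,[(18,0)]⟩) .k 1 (⟨0,[]⟩,
  ⟨0,[]⟩) .k .k) t13 t14

theorem ok15 : chk K t15 l2 = true :=
  chk_Q (e' := [0,0,1,1,0,0,1,0,0,0,-1,1]) (by decide +kernel) (by decide +kernel) ok13 ok14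

noncomputable def t23 : Tre :=
  .Q [0,-1,-1,-1,0,0,-2,-1,0,0,1,-2] (.p false [0,0,1] [1,0,-1] (⟨0,[(25,0)]⟩,⟨0,[(24,0)]⟩) .k 2
  (⟨0,[(24,0)]⟩,⟨0,[(25,0)]⟩) .k (.r 0 ⟨0,[(6,1),(26,1)]⟩ ⟨4,[(1,1),(1,1),(3,5),(14,9),(5,1),(13,
  4)]⟩)) t21 t22

theorem ok23 : chk K t23 l15 = true :=
  chk_Q (e' := [0,1,1,1,0,0,2,1,0,0,-1,2]) (by decide +kernel) (by decide +kernel) ok21 ok22

noncomputable def t25 : Tre :=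
  .I [0,0,-2,-2,1,0,0,1] t23 t24

theorem ok25 : chk K t25 r14 = true :=
  chk_I (e' := [1,0,2,2,-1,0,0,-1]) (by decide +kernel) (by decide +kernel) ok23 ok24

noncomputable def t26 : Tre :=
  .Q [0,-1,0,2,1,0,1,1,0,0,-1,1] (.p true [0,0,1] [1] (⟨0,[(23,0)]⟩,⟨0,[(22,0)]⟩) .k 1 (⟨0,[]⟩,⟨0,
  []⟩) .k .k) t20 t25

theorem ok26 : chk K t26 r13 = true :=
  chk_Q (e' := [0,1,0,-2,-1,0,-1,-1,0,0,1,-1]) (by decide +kernel) (by decide +kernel) ok20 ok25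

noncomputable def t27 : Tre :=
  .Q [0,-1,0,1,1,0,1,1,0,0,-1,1] (.p true [0,0,1] [1] (⟨0,[(22,0)]⟩,⟨0,[(21,0)]⟩) .k 1 (⟨0,[]⟩,⟨0,
  []⟩) .k .k) t19 t26

theorem ok27 : chk K t27 r12 = true :=
  chk_Q (e' := [0,1,0,-1,-1,0,-1,-1,0,0,1,-1]) (by decide +kernel) (by decide +kernel) ok19 ok26

noncomputable def t28 : Tre :=
  .Q [0,1,0,1,0,0,1,1,0,0,-1,1] (.p true [0,0,1] [1] (⟨0,[(21,0)]⟩,⟨0,[(20,0)]⟩) .k 1 (⟨0,[]⟩,⟨0,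
  []⟩) .k .k) t18 t27

theorem ok28 : chk K t28 r11 = true :=
  chk_Q (e' := [0,-1,0,-1,0,0,-1,-1,0,0,1,-1]) (by decide +kernel) (by decide +kernel) ok18 ok27

noncomputable def t29 : Tre :=
  .Q [0,0,0,0,0,2,0,0,0,0,-1,1] (.p true [0,0,1] [1] (⟨0,[(20,0)]⟩,⟨0,[(19,0)]⟩) .k 1 (⟨0,[]⟩,⟨0,
  []⟩) .k .k) t17 t28

theorem ok29 : chk K t29 r10 = true :=
  chk_Q (e' := [0,0,0,0,0,-2,0,0,0,0,1,-1]) (by decide +kernel) (by decide +kernel) ok17 ok28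

noncomputable def t30 : Tre :=
  .Q [0,1,0,0,0,0,1,1,0,0,-1,1] (.p true [0,0,1] [1] (⟨0,[(19,0)]⟩,⟨0,[(18,0)]⟩) .k 1 (⟨0,[]⟩,⟨0,
  []⟩) .k .k) t16 t29

theorem ok30 : chk K t30 r2 = true :=
  chk_Q (e' := [0,-1,0,0,0,0,-1,-1,0,0,1,-1]) (by decide +kernel) (by decide +kernel) ok16 ok29

noncomputable def t31 : Tre :=
  .I [1,-1,1,0,0,0,0,-1] t15 t30

theorem ok31 : chk K t31 l1 = true :=
  chk_I (e' := [0,1,-1,0,0,0,0,1]) (by decide +kernel) (by decide +kernel) ok15 ok30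

noncomputable def t38 : Tre :=
  .Q [0,0,1,1,-1,0,-2,-1,0,0,1,-2] (.p false [0,0,1] [1,0,-1] (⟨0,[(24,0)]⟩,⟨0,[(23,0)]⟩) .k 2 (⟨0,
  [(23,0)]⟩,⟨0,[(24,0)]⟩) .k (.r 0 ⟨0,[(6,1),(11,1),(8,0),(3,0),(0,1),(7,1)]⟩ ⟨1,[(0,0),(3,2)]⟩))
  t36 t37

theorem ok38 : chk K t38 r22 = true :=
  chk_Q (e' := [0,0,-1,-1,1,0,2,1,0,0,-1,2]) (by decide +kernel) (by decide +kernel) ok36 ok37

noncomputable def t39 : Tre :=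
  .I [1,0,3,3,-2,0,0,1] t35 t38

theorem ok39 : chk K t39 r21 = true :=
  chk_I (e' := [0,0,-3,-3,2,0,0,-1]) (by decide +kernel) (by decide +kernel) ok35 ok38

noncomputable def t40 : Tre :=
  .I [1,0,1,1,-1,0,0,1] t34 t39

theorem ok40 : chk K t40 r20 = true :=
  chk_I (e' := [0,0,-1,-1,1,0,0,-1]) (by decide +kernel) (by decide +kernel) ok34 ok39

noncomputable def t41 : Tre :=
  .Q [0,0,0,2,0,0,-1,-1,0,0,0,-1] (.p false [0,0,1] [] (⟨0,[(21,0)]⟩,⟨0,[(20,0)]⟩) .k 0 (⟨0,[]⟩,⟨0,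
  []⟩) .k .k) t33 t40

theorem ok41 : chk K t41 r19 = true :=
  chk_Q (e' := [0,0,0,-2,0,0,1,1,0,0,0,1]) (by decide +kernel) (by decide +kernel) ok33 ok40

noncomputable def t42 : Tre :=
  .Q [0,0,0,0,0,2,0,0,0,0,0,-1] (.p false [0,0,1] [] (⟨0,[(20,0)]⟩,⟨0,[(19,0)]⟩) .k 0 (⟨0,[]⟩,⟨0,
  []⟩) .k .k) t32 t41

theorem ok42 : chk K t42 l18 = true :=
  chk_Q (e' := [0,0,0,0,0,-2,0,0,0,0,0,1]) (by decide +kernel) (by decide +kernel) ok32 ok41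

noncomputable def t50 : Tre :=
  .Q [0,0,1,1,0,0,2,1,0,0,-1,2] (.p true [0,0,1] [1,0,-1] (⟨0,[(25,0)]⟩,⟨0,[(24,0)]⟩) .k 2 (⟨0,[(24,
  0)]⟩,⟨0,[(25,0)]⟩) .k (.r 1 ⟨0,[(5,1),(26,0),(0,1),(7,1)]⟩ ⟨0,[(21,1),(0,1),(19,0),(0,0)]⟩)) t48
  t49

theorem ok50 : chk K t50 r28 = true :=
  chk_Q (e' := [0,0,-1,-1,0,0,-2,-1,0,0,1,-2]) (by decide +kernel) (by decide +kernel) ok48 ok49

noncomputable def t51 : Tre :=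
  .Q [0,0,0,2,0,0,1,1,0,0,-1,1] (.p true [0,0,1] [1] (⟨0,[(24,0)]⟩,⟨0,[(23,0)]⟩) .k 1 (⟨0,[]⟩,⟨0,
  []⟩) .k .k) t47 t50

theorem ok51 : chk K t51 r27 = true :=
  chk_Q (e' := [0,0,0,-2,0,0,-1,-1,0,0,1,-1]) (by decide +kernel) (by decide +kernel) ok47 ok50

noncomputable def t52 : Tre :=
  .Q [0,0,0,1,0,0,1,1,0,0,-1,1] (.p true [0,0,1] [1] (⟨0,[(23,0)]⟩,⟨0,[(22,0)]⟩) .k 1 (⟨0,[]⟩,⟨0,
  []⟩) .k .k) t46 t51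

theorem ok52 : chk K t52 r26 = true :=
  chk_Q (e' := [0,0,0,-1,0,0,-1,-1,0,0,1,-1]) (by decide +kernel) (by decide +kernel) ok46 ok51

noncomputable def t53 : Tre :=
  .I [1,0,3,3,-1,0,0,-1] t45 t52

theorem ok53 : chk K t53 r25 = true :=
  chk_I (e' := [0,0,-3,-3,1,0,0,1]) (by decide +kernel) (by decide +kernel) ok45 ok52

noncomputable def t54 : Tre :=
  .I [1,0,1,1,0,0,0,-1] t44 t53

theorem ok54 : chk K t54 r24 = true :=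
  chk_I (e' := [0,0,-1,-1,0,0,0,1]) (by decide +kernel) (by decide +kernel) ok44 ok53

noncomputable def t55 : Tre :=
  .Q [0,0,0,0,0,2,0,0,0,0,-1,1] (.p true [0,0,1] [1] (⟨0,[(20,0)]⟩,⟨0,[(19,0)]⟩) .k 1 (⟨0,[]⟩,⟨0,
  []⟩) .k .k) t43 t54

theorem ok55 : chk K t55 r18 = true :=
  chk_Q (e' := [0,0,0,0,0,-2,0,0,0,0,1,-1]) (by decide +kernel) (by decide +kernel) ok43 ok54

noncomputable def t56 : Tre :=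
  .I [0,0,1,1,0,0,0,-1] t42 t55

theorem ok56 : chk K t56 l17 = true :=
  chk_I (e' := [1,0,-1,-1,0,0,0,1]) (by decide +kernel) (by decide +kernel) ok42 ok55

noncomputable def t58 : Tre :=
  .Q [0,0,-1,-1,0,0,-1,0,0,0,1,-1] (.p false [0,0,1] [1] (⟨0,[(18,0)]⟩,⟨0,[(17,0)]⟩) .k 1 (⟨0,[]⟩,
  ⟨0,[]⟩) .k .k) t56 t57

theorem ok58 : chk K t58 r1 = true :=
  chk_Q (e' := [0,0,1,1,0,0,1,0,0,0,-1,1]) (by decide +kernel) (by decide +kernel) ok56 ok57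

noncomputable def t59 : Tre :=
  .Q [0,0,0,1,0,0,-1,-1,0,0,0,-1] (.p false [0,0,1] [] (⟨0,[(17,0)]⟩,⟨0,[(16,0)]⟩) .k 0 (⟨0,[]⟩,⟨0,
  []⟩) .k .k) t31 t58

theorem ok59 : chk K t59 r0 = true :=
  chk_Q (e' := [0,0,0,-1,0,0,1,1,0,0,0,1]) (by decide +kernel) (by decide +kernel) ok31 ok58

noncomputable def t60 : Tre :=
  .Q [0,-1,0,1,0,0,-1,-1,0,0,0,-1] (.p false [0,0,1] [] (⟨0,[(16,0)]⟩,⟨0,[(15,0)]⟩) .k 0 (⟨0,[]⟩,⟨0,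
  []⟩) .k .k) t0 t59

theorem ok60 : chk K t60 base = true :=
  chk_Q (e' := [0,1,0,-1,0,0,1,1,0,0,0,1]) (by decide +kernel) (by decide +kernel) ok0 ok59

theorem closed {p a b c J l q : ℤ} {D dl : ℝ} {Cl : ℤ → ℤ → ℤ → ℤ → ℝ → Prop}
    (W : World p a b c J 1 l q D dl Cl) (g : G0 p a b c J D)
    {N X R : ℤ} {I : ℝ} (hk : KCl p l Cl N X R I) (kz : KF a b D (X + (1 : ℤ) * I) (X + (1 : ℤ) * I + R) I)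
    {Ne Xe Re : ℤ} {Ie : ℝ} (he : EFac p 1 D Cl Re Ne Xe Ie)
    (hkf : ∀ kf ∈ (kfY 1 [0,0,0,0,0,0,1,0,0,0,0,1]), KOk p l Cl 1
      (xv [1, a, b, c, p, J, X, R, Xe, Re] [D, I, Ie]) N kf)
    (h0 : 1 ≤ (c : ℝ))
    (h1 : 1 ≤ 1 - (a : ℝ) + (b : ℝ))
    (h2 : 1 ≤ 2 * (a : ℝ) - (b : ℝ))
    (h3 : 0 < -1 + (p : ℝ) - 2 * D)
    (h4 : 0 < 3 - (p : ℝ) + 2 * D)
    (h5 : 0 < 1 + 3 * (J : ℝ) - D)
    (h6 : 1 ≤ 1 + (a : ℝ) - (b : ℝ))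
    (h7 : 1 ≤ 1 - (a : ℝ) + (b : ℝ))
    (h8 : 1 ≤ 2 + 2 * (a : ℝ) - (p : ℝ))
    (h9 : 1 ≤ 2 * (a : ℝ) - (b : ℝ))
    (h10 : 1 ≤ -2 + (J : ℝ))
    (h11 : 1 ≤ 2 - (c : ℝ))
    (h12 : 0 < -(b : ℝ) - (X : ℝ) + D - I)
    (h13 : 1 ≤ (Re : ℝ))
    (h14 : 1 ≤ (p : ℝ) - (Re : ℝ))
    (h15 : 0 < -(J : ℝ) + I)
    (h16 : 0 < -(J : ℝ) + D - I)
    (h17 : 0 < -2 * (X : ℝ) + D - 2 * I)
    (h18 : 0 < 1 - 2 * Ie) : False := by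
  have g1 := g.a2
  have g2 := g.b2
  have g3 := g.pa
  have g4 := g.pb
  have g5 := g.J1
  have g6 := g.JD
  have g7 := g.D2
  have g8 := g.ca
  have g9 := g.ca'
  have k1 := kz.I0
  have k2 := kz.ID
  have k3 := kz.z1
  have k4 := kz.z2
  have k5 := kz.s1
  have k6 := kz.s2
  have e1 := he.I0
  have e2 := he.ID
  have e3 := he.x0
  have e4 := he.xp
  push_cast at *
  refine (val_R W.toBase hk he (kfY 1 [0,0,0,0,0,0,1,0,0,0,0,1])).sound W rfl (Nk := N)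
    (fun kf _ _ => ⟨_, rfl⟩) hkf ?_ ok60
  · simp only [base, List.forall_mem_cons, List.not_mem_nil, false_imp_iff, implies_true,
      and_true, hld, xv, evg_cons, evg_nil, List.map_cons, List.map_nil, List.cons_append,
      List.nil_append, if_true, if_false, Bool.false_eq_true]
    push_cast
    refine ⟨?_, ?_, ?_, ?_, ?_, ?_, ?_, ?_, ?_, ?_, ?_, ?_, ?_, ?_, ?_, ?_, ?_, ?_, ?_, ?_, ?_, ?_, ?_, ?_, ?_, ?_, ?_, ?_, ?_, ?_, ?_, ?_, ?_, ?_, ?_, ?_, ?_⟩ <;> linarith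

end Helper25.S1T.Ypp_35_P3_m1n1_K1
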