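import Pool.Agent.Helper25.S1T.Ypp_35_P4_m1n1_K1_p0
import Pool.Agent.Helper25.S1T.Ypp_35_P4_m1n1_K1_p1
import Pool.Agent.Helper25.S1T.Ypp_35_P4_m1n1_K1_p2

set_option autoImplicit false
set_option linter.all false

namespace Helper25.S1T.Ypp_35_P4_m1n1_K1

open Helper25.KG Helper25.KW Helper55.KE Helper11.CT

noncomputable def t10 : Tre :=
  .Q [0,0,0,0,1,0,0,0,-1,-1,0,0,-1] (.p false [0,0,0,0,1] [] (⟨0,[(21,0)]⟩,⟨0,[(20,0)]⟩) .k 0 (⟨0,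
  []⟩,⟨0,[]⟩) .k .k) t8 t9

theorem ok10 : chk K t10 l13 = true :=
  chk_Q (e' := [0,0,0,0,-1,0,0,0,1,1,0,0,1]) (by decide +kernel) (by decide +kernel) ok8 ok9

noncomputable def t12 : Tre :=
  .I [0,0,1,1,-1,0,0,0,0,1] t10 t11

theorem ok12 : chk K t12 r12 = true :=
  chk_I (e' := [1,0,-1,-1,1,0,0,0,0,-1]) (by decide +kernel) (by decide +kernel) ok10 ok11

noncomputable def t13 : Tre :=
  .Q [0,-1,0,2,1,0,1,1,0,0,-1,1] (.p true [0,0,1] [1] (⟨0,[(28,0)]⟩,⟨0,[(27,0)]⟩) .k 1 (⟨0,[]⟩,⟨0,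
  []⟩) .k .k) t7 t12

theorem ok13 : chk K t13 r11 = true :=
  chk_Q (e' := [0,1,0,-2,-1,0,-1,-1,0,0,1,-1]) (by decide +kernel) (by decide +kernel) ok7 ok12

noncomputable def t14 : Tre :=
  .I [1,0,2,2,-1,0,0,0,0,-1] t6 t13

theorem ok14 : chk K t14 r10 = true :=
  chk_I (e' := [0,0,-2,-2,1,0,0,0,0,1]) (by decide +kernel) (by decide +kernel) ok6 ok13

noncomputable def t15 : Tre :=
  .Q [0,0,1,0,-1,0,0,0,1,0,0,0,1] (.p true [0,0,0,0,1] [] (⟨0,[(17,0)]⟩,⟨0,[(16,0)]⟩) .k 0 (⟨0,[]⟩,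
  ⟨0,[]⟩) .k .k) t5 t14

theorem ok15 : chk K t15 r9 = true :=
  chk_Q (e' := [0,0,-1,0,1,0,0,0,-1,0,0,0,-1]) (by decide +kernel) (by decide +kernel) ok5 ok14

noncomputable def t16 : Tre :=
  .Q [0,-1,0,1,1,0,1,1,0,0,-1,1] (.p true [0,0,1] [1] (⟨0,[(25,0)]⟩,⟨0,[(24,0)]⟩) .k 1 (⟨0,[]⟩,⟨0,
  []⟩) .k .k) t4 t15

theorem ok16 : chk K t16 r8 = true :=
  chk_Q (e' := [0,1,0,-1,-1,0,-1,-1,0,0,1,-1]) (by decide +kernel) (by decide +kernel) ok4 ok15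

noncomputable def t17 : Tre :=
  .I [1,0,0,0,0,0,0,-1] t3 t16

theorem ok17 : chk K t17 l7 = true :=
  chk_I (e' := [0,0,0,0,0,0,0,1]) (by decide +kernel) (by decide +kernel) ok3 ok16

noncomputable def t19 : Tre :=
  .Q [0,-1,0,-1,0,0,-1,-1,0,0,1,-1] (.p false [0,0,1] [1] (⟨0,[(23,0)]⟩,⟨0,[(22,0)]⟩) .k 1 (⟨0,[]⟩,
  ⟨0,[]⟩) .k .k) t17 t18

theorem ok19 : chk K t19 r6 = true :=
  chk_Q (e' := [0,1,0,1,0,0,1,1,0,0,-1,1]) (by decide +kernel) (by decide +kernel) ok17 ok18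

noncomputable def t20 : Tre :=
  .Q [0,0,0,0,0,2,0,0,0,0,-1,1] (.p true [0,0,1] [1] (⟨0,[(22,0)]⟩,⟨0,[(21,0)]⟩) .k 1 (⟨0,[]⟩,⟨0,
  []⟩) .k .k) t2 t19

theorem ok20 : chk K t20 l5 = true :=
  chk_Q (e' := [0,0,0,0,0,-2,0,0,0,0,1,-1]) (by decide +kernel) (by decide +kernel) ok2 ok19

noncomputable def t31 : Tre :=
  .Q [0,0,0,0,0,2,0,0,0,0,-1,1] (.p true [0,0,1] [1] (⟨0,[(30,0)]⟩,⟨0,[(29,0)]⟩) .k 1 (⟨0,[]⟩,⟨0,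
  []⟩) .k .k) t29 t30

theorem ok31 : chk K t31 r22 = true :=
  chk_Q (e' := [0,0,0,0,0,-2,0,0,0,0,1,-1]) (by decide +kernel) (by decide +kernel) ok29 ok30

noncomputable def t32 : Tre :=
  .Q [0,0,-1,-1,1,0,2,1,0,0,-1,2] (.p true [0,0,1] [1,0,-1] (⟨0,[(29,0)]⟩,⟨0,[(28,0)]⟩) .k 2 (⟨0,
  [(28,0)]⟩,⟨0,[(29,0)]⟩) .k (.r 0 ⟨1,[(5,1),(4,1),(12,1),(8,0),(3,0)]⟩ ⟨0,[(8,1),(27,0),(0,1),(5,
  1)]⟩)) t28 t31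

theorem ok32 : chk K t32 r21 = true :=
  chk_Q (e' := [0,0,1,1,-1,0,-2,-1,0,0,1,-2]) (by decide +kernel) (by decide +kernel) ok28 ok31

noncomputable def t33 : Tre :=
  .I [1,0,3,3,-2,0,0,1] t27 t32

theorem ok33 : chk K t33 r20 = true :=
  chk_I (e' := [0,0,-3,-3,2,0,0,-1]) (by decide +kernel) (by decide +kernel) ok27 ok32

noncomputable def t34 : Tre :=
  .Q [0,0,0,0,0,0,1,1,-1,0,0,1,-1] (.p false [1,0,-1,0,1] [1] (⟨0,[(18,0),(7,0)]⟩,⟨5,[(11,2),(2,0),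
  (12,4),(1,0)]⟩) .k 1 (⟨0,[]⟩,⟨0,[]⟩) .k (.i 1 ⟨0,[(18,0),(7,0)]⟩ ⟨5,[(11,2),(2,0),(12,4),(1,
  0)]⟩)) t26 t33

theorem ok34 : chk K t34 r19 = true :=
  chk_Q (e' := [0,0,0,0,0,0,-1,-1,1,0,0,-1,1]) (by decide +kernel) (by decide +kernel) ok26 ok33

noncomputable def t35 : Tre :=
  .Q [0,1,0,0,0,0,1,1,-1,-1,0,1,-1] (.p false [1,0,-1,0,1] [1] (⟨0,[(17,0),(7,0)]⟩,⟨5,[(10,2),(2,0),
  (12,4),(1,0)]⟩) .k 1 (⟨0,[]⟩,⟨0,[]⟩) .k (.i 1 ⟨0,[(17,0),(7,0)]⟩ ⟨5,[(10,2),(2,0),(12,4),(1,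
  0)]⟩)) t25 t34

theorem ok35 : chk K t35 r18 = true :=
  chk_Q (e' := [0,-1,0,0,0,0,-1,-1,1,1,0,-1,1]) (by decide +kernel) (by decide +kernel) ok25 ok34

noncomputable def t36 : Tre :=
  .I [1,0,1,1,-1,0,0,1] t24 t35

theorem ok36 : chk K t36 r17 = true :=
  chk_I (e' := [0,0,-1,-1,1,0,0,-1]) (by decide +kernel) (by decide +kernel) ok24 ok35

noncomputable def t37 : Tre :=
  .Q [0,0,0,2,0,0,-1,-1,0,0,0,-1] (.p false [0,0,1] [] (⟨0,[(24,0)]⟩,⟨0,[(23,0)]⟩) .k 0 (⟨0,[]⟩,⟨0,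
  []⟩) .k .k) t23 t36

theorem ok37 : chk K t37 r16 = true :=
  chk_Q (e' := [0,0,0,-2,0,0,1,1,0,0,0,1]) (by decide +kernel) (by decide +kernel) ok23 ok36

noncomputable def t38 : Tre :=
  .Q [0,0,0,1,0,0,-1,-1,0,0,0,-1] (.p false [0,0,1] [] (⟨0,[(23,0)]⟩,⟨0,[(22,0)]⟩) .k 0 (⟨0,[]⟩,⟨0,
  []⟩) .k .k) t22 t37

theorem ok38 : chk K t38 r15 = true :=
  chk_Q (e' := [0,0,0,-1,0,0,1,1,0,0,0,1]) (by decide +kernel) (by decide +kernel) ok22 ok37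

noncomputable def t39 : Tre :=
  .Q [0,0,0,0,0,2,0,0,0,0,0,-1] (.p false [0,0,1] [] (⟨0,[(22,0)]⟩,⟨0,[(21,0)]⟩) .k 0 (⟨0,[]⟩,⟨0,
  []⟩) .k .k) t21 t38

theorem ok39 : chk K t39 r5 = true :=
  chk_Q (e' := [0,0,0,0,0,-2,0,0,0,0,0,1]) (by decide +kernel) (by decide +kernel) ok21 ok38

noncomputable def t40 : Tre :=
  .Q [0,0,0,0,0,0,-1,-1,0,0,0,-1] (.p false [0,0,1] [] (⟨0,[(21,0)]⟩,⟨0,[(20,0)]⟩) .k 0 (⟨0,[]⟩,⟨0,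
  []⟩) .k .k) t20 t39

theorem ok40 : chk K t40 l4 = true :=
  chk_Q (e' := [0,0,0,0,0,0,1,1,0,0,0,1]) (by decide +kernel) (by decide +kernel) ok20 ok39

noncomputable def t50 : Tre :=
  .Q [0,0,1,0,0,0,1,0,-1,0,0,1,-1] (.p false [1,0,-1,0,1] [1] (⟨0,[(19,0),(7,0)]⟩,⟨5,[(12,2),(2,0),
  (12,4),(1,0)]⟩) .k 1 (⟨0,[]⟩,⟨0,[]⟩) .k (.i 1 ⟨0,[(19,0),(7,0)]⟩ ⟨5,[(12,2),(2,0),(12,4),(1,
  0)]⟩)) t48 t49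

theorem ok50 : chk K t50 r30 = true :=
  chk_Q (e' := [0,0,-1,0,0,0,-1,0,1,0,0,-1,1]) (by decide +kernel) (by decide +kernel) ok48 ok49

noncomputable def t51 : Tre :=
  .Q [0,0,0,0,-1,0,-1,-1,0,1,1,-1] (.p false [0,0,1] [1] (⟨0,[(27,0)]⟩,⟨0,[(26,0)]⟩) .k 1 (⟨0,[]⟩,
  ⟨0,[]⟩) .k .k) t47 t50

theorem ok51 : chk K t51 r29 = true :=
  chk_Q (e' := [0,0,0,0,1,0,1,1,0,-1,-1,1]) (by decide +kernel) (by decide +kernel) ok47 ok50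

noncomputable def t52 : Tre :=
  .Q [0,0,0,0,-1,0,-1,-1,1,1,0,-1,1] (.p true [1,0,-1,0,1] [1] (⟨0,[(17,0),(7,0)]⟩,⟨5,[(10,2),(2,0),
  (12,4),(1,0)]⟩) .k 1 (⟨0,[]⟩,⟨0,[]⟩) .k (.i 1 ⟨0,[(17,0),(7,0)]⟩ ⟨5,[(10,2),(2,0),(12,4),(1,
  0)]⟩)) t46 t51

theorem ok52 : chk K t52 r28 = true :=
  chk_Q (e' := [0,0,0,0,1,0,1,1,-1,-1,0,1,-1]) (by decide +kernel) (by decide +kernel) ok46 ok51

noncomputable def t53 : Tre :=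
  .I [0,0,-1,0,1,0,0,0,0,-1] t45 t52

theorem ok53 : chk K t53 r27 = true :=
  chk_I (e' := [1,0,1,0,-1,0,0,0,0,1]) (by decide +kernel) (by decide +kernel) ok45 ok52

noncomputable def t54 : Tre :=
  .Q [0,0,0,2,0,0,1,1,0,0,-1,1] (.p true [0,0,1] [1] (⟨0,[(24,0)]⟩,⟨0,[(23,0)]⟩) .k 1 (⟨0,[]⟩,⟨0,
  []⟩) .k .k) t44 t53

theorem ok54 : chk K t54 r26 = true :=
  chk_Q (e' := [0,0,0,-2,0,0,-1,-1,0,0,1,-1]) (by decide +kernel) (by decide +kernel) ok44 ok53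

noncomputable def t55 : Tre :=
  .I [1,0,1,1,0,0,0,-1] t43 t54

theorem ok55 : chk K t55 r25 = true :=
  chk_I (e' := [0,0,-1,-1,0,0,0,1]) (by decide +kernel) (by decide +kernel) ok43 ok54

noncomputable def t56 : Tre :=
  .Q [0,0,0,1,0,0,1,1,0,0,-1,1] (.p true [0,0,1] [1] (⟨0,[(22,0)]⟩,⟨0,[(21,0)]⟩) .k 1 (⟨0,[]⟩,⟨0,
  []⟩) .k .k) t42 t55

theorem ok56 : chk K t56 r24 = true :=
  chk_Q (e' := [0,0,0,-1,0,0,-1,-1,0,0,1,-1]) (by decide +kernel) (by decide +kernel) ok42 ok55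

noncomputable def t57 : Tre :=
  .Q [0,0,0,0,0,2,0,0,0,0,-1,1] (.p true [0,0,1] [1] (⟨0,[(21,0)]⟩,⟨0,[(20,0)]⟩) .k 1 (⟨0,[]⟩,⟨0,
  []⟩) .k .k) t41 t56

theorem ok57 : chk K t57 r4 = true :=
  chk_Q (e' := [0,0,0,0,0,-2,0,0,0,0,1,-1]) (by decide +kernel) (by decide +kernel) ok41 ok56

noncomputable def t58 : Tre :=
  .I [1,0,-1,-1,1,0,0,-1] t40 t57

theorem ok58 : chk K t58 l3 = true :=
  chk_I (e' := [0,0,1,1,-1,0,0,1]) (by decide +kernel) (by decide +kernel) ok40 ok57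

noncomputable def t60 : Tre :=
  .Q [0,0,1,0,-1,0,-1,0,0,0,1,-1] (.p false [0,0,1] [1] (⟨0,[(19,0)]⟩,⟨0,[(18,0)]⟩) .k 1 (⟨0,[]⟩,⟨0,
  []⟩) .k .k) t58 t59

theorem ok60 : chk K t60 l2 = true :=
  chk_Q (e' := [0,0,-1,0,1,0,1,0,0,0,-1,1]) (by decide +kernel) (by decide +kernel) ok58 ok59

noncomputable def t67 : Tre :=
  .Q [0,0,0,0,1,0,2,0,0,0,-1,2] (.p true [0,0,1] [1,0,-1] (⟨0,[(24,0)]⟩,⟨0,[(23,0)]⟩) .k 2 (⟨0,[(23,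
  0)]⟩,⟨0,[(24,0)]⟩) .k (.r (-1) ⟨0,[(3,0),(14,0),(0,1),(7,0),(12,0)]⟩ ⟨0,[(5,1),(26,1),(5,1)]⟩))
  t65 t66

theorem ok67 : chk K t67 l36 = true :=
  chk_Q (e' := [0,0,0,0,-1,0,-2,0,0,0,1,-2]) (by decide +kernel) (by decide +kernel) ok65 ok66

noncomputable def t73 : Tre :=
  .I [1,0,4,4,-2,0,0,1] t71 t72

theorem ok73 : chk K t73 r42 = true :=
  chk_I (e' := [0,0,-4,-4,2,0,0,-1]) (by decide +kernel) (by decide +kernel) ok71 ok72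

noncomputable def t74 : Tre :=
  .Q [0,0,0,2,-1,0,-2,-2,0,0,1,-2] (.p false [0,0,1] [1,0,-1] (⟨0,[(28,0)]⟩,⟨0,[(27,0)]⟩) .k 2 (⟨0,
  [(27,0)]⟩,⟨0,[(28,0)]⟩) .k (.r (-1) ⟨0,[(1,0),(11,0)]⟩ ⟨0,[(9,1),(26,1),(5,1)]⟩)) t70 t73

theorem ok74 : chk K t74 r41 = true :=
  chk_Q (e' := [0,0,0,-2,1,0,2,2,0,0,-1,2]) (by decide +kernel) (by decide +kernel) ok70 ok73

noncomputable def t75 : Tre :=
  .Q [0,0,0,1,-1,0,-2,-2,0,0,1,-2] (.p false [0,0,1] [1,0,-1] (⟨0,[(27,0)]⟩,⟨0,[(26,0)]⟩) .k 2 (⟨0,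
  [(26,0)]⟩,⟨0,[(27,0)]⟩) .k (.r (-1) ⟨0,[(0,0),(11,0)]⟩ ⟨0,[(8,1),(26,1),(5,1)]⟩)) t69 t74

theorem ok75 : chk K t75 r40 = true :=
  chk_Q (e' := [0,0,0,-1,1,0,2,2,0,0,-1,2]) (by decide +kernel) (by decide +kernel) ok69 ok74

noncomputable def t76 : Tre :=
  .Q [0,0,0,0,-1,0,-2,-2,0,0,1,-2] (.p false [0,0,1] [1,0,-1] (⟨0,[(26,0)]⟩,⟨0,[(25,0)]⟩) .k 2 (⟨0,
  [(25,0)]⟩,⟨0,[(26,0)]⟩) .k (.r (-1) ⟨0,[(5,0),(14,0),(0,1),(7,0),(12,0)]⟩ ⟨0,[(7,1),(26,1),(5,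
  1)]⟩)) t68 t75

theorem ok76 : chk K t76 l39 = true :=
  chk_Q (e' := [0,0,0,0,1,0,2,2,0,0,-1,2]) (by decide +kernel) (by decide +kernel) ok68 ok75

noncomputable def t78 : Tre :=
  .Q [0,0,0,0,0,2,0,0,0,0,-1,1] (.p true [0,0,1] [1] (⟨0,[(25,0)]⟩,⟨0,[(24,0)]⟩) .k 1 (⟨0,[]⟩,⟨0,
  []⟩) .k .k) t76 t77

theorem ok78 : chk K t78 l38 = true :=
  chk_Q (e' := [0,0,0,0,0,-2,0,0,0,0,1,-1]) (by decide +kernel) (by decide +kernel) ok76 ok77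

noncomputable def t80 : Tre :=
  .Q [0,0,0,0,-1,0,-1,-1,1,1,1,-1,1] (.p true [1,0,-1,0,1] [] (⟨0,[(15,0),(7,0)]⟩,⟨11,[(2,0),(5,5),
  (15,10),(1,1)]⟩) .k 0 (⟨0,[]⟩,⟨0,[]⟩) .k (.i 0 ⟨0,[(15,0),(7,0)]⟩ ⟨11,[(2,0),(5,5),(15,10),(1,
  1)]⟩)) t78 t79

theorem ok80 : chk K t80 r36 = true :=
  chk_Q (e' := [0,0,0,0,1,0,1,1,-1,-1,-1,1,-1]) (by decide +kernel) (by decide +kernel) ok78 ok79

noncomputable def t81 : Tre :=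
  .Q [0,1,1,1,-2,0,-2,-1,0,0,1,-2] (.p false [0,0,1] [1,0,-1] (⟨0,[(23,0)]⟩,⟨0,[(22,0)]⟩) .k 2 (⟨0,
  [(22,0)]⟩,⟨0,[(23,0)]⟩) .k (.r (-1) ⟨0,[(2,0),(14,0),(0,1),(7,0),(12,0)]⟩ ⟨0,[(4,1),(26,1),(5,
  1)]⟩)) t67 t80

theorem ok81 : chk K t81 r35 = true :=
  chk_Q (e' := [0,-1,-1,-1,2,0,2,1,0,0,-1,2]) (by decide +kernel) (by decide +kernel) ok67 ok80

noncomputable def t82 : Tre :=
  .I [1,0,2,2,-1,0,0,1] t64 t81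

theorem ok82 : chk K t82 r34 = true :=
  chk_I (e' := [0,0,-2,-2,1,0,0,-1]) (by decide +kernel) (by decide +kernel) ok64 ok81

noncomputable def t83 : Tre :=
  .Q [0,0,0,0,0,2,0,0,0,0,0,-1] (.p false [0,0,1] [] (⟨0,[(21,0)]⟩,⟨0,[(20,0)]⟩) .k 0 (⟨0,[]⟩,⟨0,
  []⟩) .k .k) t63 t82

theorem ok83 : chk K t83 r33 = true :=
  chk_Q (e' := [0,0,0,0,0,-2,0,0,0,0,0,1]) (by decide +kernel) (by decide +kernel) ok63 ok82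

noncomputable def t84 : Tre :=
  .Q [0,0,-1,0,1,0,1,0,0,0,-1,1] (.p true [0,0,1] [1] (⟨0,[(20,0)]⟩,⟨0,[(19,0)]⟩) .k 1 (⟨0,[]⟩,⟨0,
  []⟩) .k .k) t62 t83

theorem ok84 : chk K t84 r32 = true :=
  chk_Q (e' := [0,0,1,0,-1,0,-1,0,0,0,1,-1]) (by decide +kernel) (by decide +kernel) ok62 ok83

noncomputable def t85 : Tre :=
  .Q [0,-1,0,2,0,0,-1,-1,0,0,0,-1] (.p false [0,0,1] [] (⟨0,[(19,0)]⟩,⟨0,[(18,0)]⟩) .k 0 (⟨0,[]⟩,⟨0,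
  []⟩) .k .k) t61 t84

theorem ok85 : chk K t85 r2 = true :=
  chk_Q (e' := [0,1,0,-2,0,0,1,1,0,0,0,1]) (by decide +kernel) (by decide +kernel) ok61 ok84

noncomputable def t86 : Tre :=
  .I [0,-1,1,1,0,0,0,1] t60 t85

theorem ok86 : chk K t86 r1 = true :=
  chk_I (e' := [1,1,-1,-1,0,0,0,-1]) (by decide +kernel) (by decide +kernel) ok60 ok85

noncomputable def t87 : Tre :=
  .Q [0,0,0,0,0,0,1,1,0,0,-1,1] (.p true [0,0,1] [1] (⟨0,[(17,0)]⟩,⟨0,[(16,0)]⟩) .k 1 (⟨0,[]⟩,⟨0,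
  []⟩) .k .k) t1 t86

theorem ok87 : chk K t87 r0 = true :=
  chk_Q (e' := [0,0,0,0,0,0,-1,-1,0,0,1,-1]) (by decide +kernel) (by decide +kernel) ok1 ok86

noncomputable def t88 : Tre :=
  .Q [0,-1,0,1,0,0,-1,-1,0,0,0,-1] (.p false [0,0,1] [] (⟨0,[(16,0)]⟩,⟨0,[(15,0)]⟩) .k 0 (⟨0,[]⟩,⟨0,
  []⟩) .k .k) t0 t87

theorem ok88 : chk K t88 base = true :=
  chk_Q (e' := [0,1,0,-1,0,0,1,1,0,0,0,1]) (by decide +kernel) (by decide +kernel) ok0 ok87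

theorem closed {p a b c J l q : ℤ} {D dl : ℝ} {Cl : ℤ → ℤ → ℤ → ℤ → ℝ → Prop}
    (W : World p a b c J 1 l q D dl Cl) (g : G0 p a b c J D)
    {N X R : ℤ} {I : ℝ} (hk : KCl p l Cl N X R I) (kz : KF a b D (X + (1 : ℤ) * I) (X + (1 : ℤ) * I + R) I)
    {Ne Xe Re : ℤ} {Ie : ℝ} (he : EFac p 1 D Cl Re Ne Xe Ie)
    (hkf : ∀ kf ∈ (kfY 1 [0,0,0,0,0,0,1,0,0,0,0,1]), KOk p l Cl 1
      (xv [1, a, b, c, p, J, X, R, Xe, Re] [D, I, Ie]) N kf)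
    (h0 : 1 ≤ (c : ℝ))
    (h1 : 1 ≤ 1 - (a : ℝ) + (b : ℝ))
    (h2 : 1 ≤ 2 * (a : ℝ) - (b : ℝ))
    (h3 : 0 < -3 + (p : ℝ) - 2 * D)
    (h4 : 1 ≤ 1 + (a : ℝ) - (b : ℝ))
    (h5 : 1 ≤ 1 - (a : ℝ) + (b : ℝ))
    (h6 : 1 ≤ 2 + 2 * (a : ℝ) - (p : ℝ))
    (h7 : 1 ≤ 2 * (a : ℝ) - (b : ℝ))
    (h8 : 1 ≤ -2 + (J : ℝ))
    (h9 : 1 ≤ 2 - (c : ℝ))
    (h10 : 0 < -(b : ℝ) - (X : ℝ) + D - I)
    (h11 : 1 ≤ (Re : ℝ))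
    (h12 : 1 ≤ (p : ℝ) - (Re : ℝ))
    (h13 : 0 < -(J : ℝ) + I)
    (h14 : 0 < -(J : ℝ) + D - I)
    (h15 : 0 < -2 * (X : ℝ) + D - 2 * I)
    (h16 : 0 < 1 - 2 * Ie) : False := by
  have g1 := g.a2
  have g2 := g.b2
  have g3 := g.pa
  have g4 := g.pb
  have g5 := g.J1
  have g6 := g.JD
  have g7 := g.D2
  have g8 := g.ca
  have g9 := g.ca'
  have k1 := kz.I0
  have k2 := kz.ID
  have k3 := kz.z1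
  have k4 := kz.z2
  have k5 := kz.s1
  have k6 := kz.s2
  have e1 := he.I0
  have e2 := he.ID
  have e3 := he.x0
  have e4 := he.xp
  push_cast at *
  refine (val_R W.toBase hk he (kfY 1 [0,0,0,0,0,0,1,0,0,0,0,1])).sound W rfl (Nk := N)
    (fun kf _ _ => ⟨_, rfl⟩) hkf ?_ ok88
  · simp only [base, List.forall_mem_cons, List.not_mem_nil, false_imp_iff, implies_true,
      and_true, hld, xv, evg_cons, evg_nil, List.map_cons, List.map_nil, List.cons_append,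
      List.nil_append, if_true, if_false, Bool.false_eq_true]
    push_cast
    refine ⟨?_, ?_, ?_, ?_, ?_, ?_, ?_, ?_, ?_, ?_, ?_, ?_, ?_, ?_, ?_, ?_, ?_, ?_, ?_, ?_, ?_, ?_, ?_, ?_, ?_, ?_, ?_, ?_, ?_, ?_, ?_, ?_, ?_, ?_, ?_⟩ <;> linarith

end Helper25.S1T.Ypp_35_P4_m1n1_K1
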