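import Pool.Agent.Helper25.S1T.Ypp_35_L2_m0n1
import Pool.Agent.Helper25.S1T.Ypp_35_P1_m0n1
import Pool.Agent.Helper25.S1T.Ypp_35_P2_m0n1
import Pool.Agent.Helper25.S1T.Ypp_35_P3_m0n1
import Pool.Agent.Helper25.S1T.Ypp_35_P4_m0n1
import Pool.Agent.Helper25.S1T.Ypp_35_L2_m0n0
import Pool.Agent.Helper25.S1T.Ypp_35_P1_m0n0
import Pool.Agent.Helper25.S1T.Ypp_35_P2_m0n0
import Pool.Agent.Helper25.S1T.Ypp_35_P3_m0n0
import Pool.Agent.Helper25.S1T.Ypp_35_P4_m0n0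
import Pool.Agent.Helper25.S1T.Ypp_35_L2_m1n1_K1
import Pool.Agent.Helper25.S1T.Ypp_35_L2_m1n1_K2
import Pool.Agent.Helper25.S1T.Ypp_35_L2_m1n1_CB
import Pool.Agent.Helper25.S1T.Ypp_35_L2_m1n1_CC
import Pool.Agent.Helper25.S1T.Ypp_35_P1_m1n1_K1
import Pool.Agent.Helper25.S1T.Ypp_35_P1_m1n1_K2
import Pool.Agent.Helper25.S1T.Ypp_35_P1_m1n1_CB
import Pool.Agent.Helper25.S1T.Ypp_35_P1_m1n1_CC
import Pool.Agent.Helper25.S1T.Ypp_35_P2_m1n1_K1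
import Pool.Agent.Helper25.S1T.Ypp_35_P2_m1n1_K2
import Pool.Agent.Helper25.S1T.Ypp_35_P2_m1n1_CB
import Pool.Agent.Helper25.S1T.Ypp_35_P2_m1n1_CC
import Pool.Agent.Helper25.S1T.Ypp_35_P3_m1n1_K1
import Pool.Agent.Helper25.S1T.Ypp_35_P3_m1n1_K2
import Pool.Agent.Helper25.S1T.Ypp_35_P3_m1n1_CB
import Pool.Agent.Helper25.S1T.Ypp_35_P3_m1n1_CC
import Pool.Agent.Helper25.S1T.Ypp_35_P4_m1n1_K1
import Pool.Agent.Helper25.S1T.Ypp_35_P4_m1n1_K2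
import Pool.Agent.Helper25.S1T.Ypp_35_P4_m1n1_CB
import Pool.Agent.Helper25.S1T.Ypp_35_P4_m1n1_CC
import Pool.Agent.Helper25.S1T.Ypp_35_L2_m1n0
import Pool.Agent.Helper25.S1T.Ypp_35_P1_m1n0
import Pool.Agent.Helper25.S1T.Ypp_35_P2_m1n0
import Pool.Agent.Helper25.S1T.Ypp_35_P3_m1n0
import Pool.Agent.Helper25.S1T.Ypp_35_P4_m1n0
import Pool.Agent.Helper48.KY.One
import Pool.Agent.Helper25.KG.S1F
import Pool.Agent.Helper25.KW.S1J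

set_option autoImplicit false
set_option linter.all false

namespace Helper25.S1T

open Helper25.KG Helper25.KW Helper55.KE Helper11.CT

theorem a_Ypp_35_L2_m0n1 {p a b c J l q : ℤ} {D dl : ℝ} {Cl : ℤ → ℤ → ℤ → ℤ → ℝ → Prop}
    (W : World p a b c J 1 l q D dl Cl) (hc : -a < c) (hA : Aux p a b 1 D Cl)
    {N X R : ℤ} {I : ℝ} (hK : KGF p a b 1 D (P1 l p) Cl N X R I)
    (hM : KMY p a b 1 (P1 l p) Cl N (b + (1 : ℤ) * (X + (1 : ℤ) * I)))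
    (h0 : 1 ≤ (c : ℝ))
    (h1 : 1 ≤ 1 - (a : ℝ) + (b : ℝ))
    (h2 : 1 ≤ 2 * (a : ℝ) - (b : ℝ))
    (h3 : 0 < 1 - (p : ℝ) + 2 * D)
    (h4 : 1 ≤ 2 * (a : ℝ) - (b : ℝ))
    (h5 : 1 ≤ 2 - (J : ℝ))
    (h6 : 0 < -(b : ℝ) - (X : ℝ) + D - I)
    (h7 : 0 < (J : ℝ) - I)
    (h8 : 0 < -(J : ℝ) + D - I)
    (h9 : 0 < -2 * (X : ℝ) + D - 2 * I) : False := by
  have kz := KF.of hK
  obtain ⟨Ne, Xe, Ie, he⟩ := hA.ecl 1 (by
    intro h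
    have h2 := W.ha
    have h3 := W.h2a
    have h1 := Int.le_of_dvd (by omega) h
    omega)
  exact Helper25.S1T.Ypp_35_L2_m0n1.closed W (G0.of W.toBase hc) (KCl.of hK) kz he
    (kok_Y (R := R) (Or.inl rfl) hM kz.z1 kz.z2 (by simp [xv] <;> ring) (by simp [xv] <;> ring) (by simp [xv] <;> ring))
    h0 h1 h2 h3 h4 h5 h6 h7 h8 h9

theorem a_Ypp_35_P1_m0n1 {p a b c J l q : ℤ} {D dl : ℝ} {Cl : ℤ → ℤ → ℤ → ℤ → ℝ → Prop}
    (W : World p a b c J 1 l q D dl Cl) (hc : -a < c) (hA : Aux p a b 1 D Cl)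
    {N X R : ℤ} {I : ℝ} (hK : KGF p a b 1 D (P1 l p) Cl N X R I)
    (hM : KMY p a b 1 (P1 l p) Cl N (b + (1 : ℤ) * (X + (1 : ℤ) * I)))
    (h0 : 1 ≤ (c : ℝ))
    (h1 : 1 ≤ 1 - (a : ℝ) + (b : ℝ))
    (h2 : 1 ≤ 2 * (a : ℝ) - (b : ℝ))
    (h3 : 0 < 1 + (p : ℝ) - 3 * D)
    (h4 : 1 ≤ 2 * (a : ℝ) - (b : ℝ))
    (h5 : 1 ≤ 2 - (J : ℝ))
    (h6 : 0 < -(b : ℝ) - (X : ℝ) + D - I)
    (h7 : 0 < (J : ℝ) - I)
    (h8 : 0 < -(J : ℝ) + D - I)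
    (h9 : 0 < -2 * (X : ℝ) + D - 2 * I) : False := by
  have kz := KF.of hK
  obtain ⟨Ne, Xe, Ie, he⟩ := hA.ecl 1 (by
    intro h
    have h2 := W.ha
    have h3 := W.h2a
    have h1 := Int.le_of_dvd (by omega) h
    omega)
  exact Helper25.S1T.Ypp_35_P1_m0n1.closed W (G0.of W.toBase hc) (KCl.of hK) kz he
    (kok_Y (R := R) (Or.inl rfl) hM kz.z1 kz.z2 (by simp [xv] <;> ring) (by simp [xv] <;> ring) (by simp [xv] <;> ring))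
    h0 h1 h2 h3 h4 h5 h6 h7 h8 h9

theorem a_Ypp_35_P2_m0n1 {p a b c J l q : ℤ} {D dl : ℝ} {Cl : ℤ → ℤ → ℤ → ℤ → ℝ → Prop}
    (W : World p a b c J 1 l q D dl Cl) (hc : -a < c) (hA : Aux p a b 1 D Cl)
    {N X R : ℤ} {I : ℝ} (hK : KGF p a b 1 D (P1 l p) Cl N X R I)
    (hM : KMY p a b 1 (P1 l p) Cl N (b + (1 : ℤ) * (X + (1 : ℤ) * I)))
    (h0 : 1 ≤ (c : ℝ))
    (h1 : 1 ≤ 1 - (a : ℝ) + (b : ℝ))
    (h2 : 1 ≤ 2 * (a : ℝ) - (b : ℝ))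
    (h3 : 0 < 1 + 2 * (p : ℝ) - 5 * D)
    (h4 : 1 ≤ 2 * (a : ℝ) - (b : ℝ))
    (h5 : 1 ≤ -1 + (J : ℝ))
    (h6 : 1 ≤ 3 - (J : ℝ))
    (h7 : 0 < -(b : ℝ) - (X : ℝ) + D - I)
    (h8 : 0 < (J : ℝ) - I)
    (h9 : 0 < -(J : ℝ) + D - I)
    (h10 : 0 < -2 * (X : ℝ) + D - 2 * I) : False := by
  have kz := KF.of hK
  obtain ⟨Ne, Xe, Ie, he⟩ := hA.ecl 1 (by
    intro h
    have h2 := W.ha
    have h3 := W.h2a
    have h1 := Int.le_of_dvd (by omega) h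
    omega)
  exact Helper25.S1T.Ypp_35_P2_m0n1.closed W (G0.of W.toBase hc) (KCl.of hK) kz he
    (kok_Y (R := R) (Or.inl rfl) hM kz.z1 kz.z2 (by simp [xv] <;> ring) (by simp [xv] <;> ring) (by simp [xv] <;> ring))
    h0 h1 h2 h3 h4 h5 h6 h7 h8 h9 h10

theorem a_Ypp_35_P3_m0n1 {p a b c J l q : ℤ} {D dl : ℝ} {Cl : ℤ → ℤ → ℤ → ℤ → ℝ → Prop}
    (W : World p a b c J 1 l q D dl Cl) (hc : -a < c) (hA : Aux p a b 1 D Cl)
    {N X R : ℤ} {I : ℝ} (hK : KGF p a b 1 D (P1 l p) Cl N X R I)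
    (hM : KMY p a b 1 (P1 l p) Cl N (b + (1 : ℤ) * (X + (1 : ℤ) * I)))
    (h0 : 1 ≤ (c : ℝ))
    (h1 : 1 ≤ 1 - (a : ℝ) + (b : ℝ))
    (h2 : 1 ≤ 2 * (a : ℝ) - (b : ℝ))
    (h3 : 0 < -1 + (p : ℝ) - 2 * D)
    (h4 : 0 < 3 - (p : ℝ) + 2 * D)
    (h5 : 0 < 1 + 3 * (J : ℝ) - D)
    (h6 : 1 ≤ 2 * (a : ℝ) - (b : ℝ))
    (h7 : 1 ≤ -2 + (J : ℝ))
    (h8 : 0 < -(b : ℝ) - (X : ℝ) + D - I)
    (h9 : 0 < (J : ℝ) - I)
    (h10 : 0 < -(J : ℝ) + D - I)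
    (h11 : 0 < -2 * (X : ℝ) + D - 2 * I) : False := by
  have kz := KF.of hK
  obtain ⟨Ne, Xe, Ie, he⟩ := hA.ecl 1 (by
    intro h
    have h2 := W.ha
    have h3 := W.h2a
    have h1 := Int.le_of_dvd (by omega) h
    omega)
  exact Helper25.S1T.Ypp_35_P3_m0n1.closed W (G0.of W.toBase hc) (KCl.of hK) kz he
    (kok_Y (R := R) (Or.inl rfl) hM kz.z1 kz.z2 (by simp [xv] <;> ring) (by simp [xv] <;> ring) (by simp [xv] <;> ring))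
    h0 h1 h2 h3 h4 h5 h6 h7 h8 h9 h10 h11

theorem a_Ypp_35_P4_m0n1 {p a b c J l q : ℤ} {D dl : ℝ} {Cl : ℤ → ℤ → ℤ → ℤ → ℝ → Prop}
    (W : World p a b c J 1 l q D dl Cl) (hc : -a < c) (hA : Aux p a b 1 D Cl)
    {N X R : ℤ} {I : ℝ} (hK : KGF p a b 1 D (P1 l p) Cl N X R I)
    (hM : KMY p a b 1 (P1 l p) Cl N (b + (1 : ℤ) * (X + (1 : ℤ) * I)))
    (h0 : 1 ≤ (c : ℝ))
    (h1 : 1 ≤ 1 - (a : ℝ) + (b : ℝ))
    (h2 : 1 ≤ 2 * (a : ℝ) - (b : ℝ))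
    (h3 : 0 < -3 + (p : ℝ) - 2 * D)
    (h4 : 1 ≤ 2 * (a : ℝ) - (b : ℝ))
    (h5 : 1 ≤ -2 + (J : ℝ))
    (h6 : 0 < -(b : ℝ) - (X : ℝ) + D - I)
    (h7 : 0 < (J : ℝ) - I)
    (h8 : 0 < -(J : ℝ) + D - I)
    (h9 : 0 < -2 * (X : ℝ) + D - 2 * I) : False := by
  have kz := KF.of hK
  obtain ⟨Ne, Xe, Ie, he⟩ := hA.ecl 1 (by
    intro h
    have h2 := W.ha
    have h3 := W.h2a
    have h1 := Int.le_of_dvd (by omega) h
    omega)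
  exact Helper25.S1T.Ypp_35_P4_m0n1.closed W (G0.of W.toBase hc) (KCl.of hK) kz he
    (kok_Y (R := R) (Or.inl rfl) hM kz.z1 kz.z2 (by simp [xv] <;> ring) (by simp [xv] <;> ring) (by simp [xv] <;> ring))
    h0 h1 h2 h3 h4 h5 h6 h7 h8 h9

theorem a_Ypp_35_L2_m0n0 {p a b c J l q : ℤ} {D dl : ℝ} {Cl : ℤ → ℤ → ℤ → ℤ → ℝ → Prop}
    (W : World p a b c J 1 l q D dl Cl) (hc : -a < c) (hA : Aux p a b 1 D Cl)
    {N X R : ℤ} {I : ℝ} (hK : KGF p a b 1 D (P1 l p) Cl N X R I)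
    (hM : KMY p a b 1 (P1 l p) Cl N (b + (1 : ℤ) * (X + (1 : ℤ) * I)))
    (h0 : 1 ≤ (c : ℝ))
    (h1 : 1 ≤ 1 - (a : ℝ) + (b : ℝ))
    (h2 : 1 ≤ 2 * (a : ℝ) - (b : ℝ))
    (h3 : 0 < 1 - (p : ℝ) + 2 * D)
    (h4 : 1 ≤ 2 * (a : ℝ) - (b : ℝ))
    (h5 : 1 ≤ 2 - (J : ℝ))
    (h6 : 0 < -(b : ℝ) - (X : ℝ) + D - I)
    (h7 : 0 < (J : ℝ) - I)
    (h8 : 0 < (J : ℝ) - D + I)
    (h9 : 0 < -2 * (X : ℝ) + D - 2 * I) : False := by
  have kz := KF.of hK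
  obtain ⟨Ne, Xe, Ie, he⟩ := hA.ecl 1 (by
    intro h
    have h2 := W.ha
    have h3 := W.h2a
    have h1 := Int.le_of_dvd (by omega) h
    omega)
  exact Helper25.S1T.Ypp_35_L2_m0n0.closed W (G0.of W.toBase hc) (KCl.of hK) kz he
    (kok_Y (R := R) (Or.inl rfl) hM kz.z1 kz.z2 (by simp [xv] <;> ring) (by simp [xv] <;> ring) (by simp [xv] <;> ring))
    h0 h1 h2 h3 h4 h5 h6 h7 h8 h9

theorem a_Ypp_35_P1_m0n0 {p a b c J l q : ℤ} {D dl : ℝ} {Cl : ℤ → ℤ → ℤ → ℤ → ℝ → Prop}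
    (W : World p a b c J 1 l q D dl Cl) (hc : -a < c) (hA : Aux p a b 1 D Cl)
    {N X R : ℤ} {I : ℝ} (hK : KGF p a b 1 D (P1 l p) Cl N X R I)
    (hM : KMY p a b 1 (P1 l p) Cl N (b + (1 : ℤ) * (X + (1 : ℤ) * I)))
    (h0 : 1 ≤ (c : ℝ))
    (h1 : 1 ≤ 1 - (a : ℝ) + (b : ℝ))
    (h2 : 1 ≤ 2 * (a : ℝ) - (b : ℝ))
    (h3 : 0 < 1 + (p : ℝ) - 3 * D)
    (h4 : 1 ≤ 2 * (a : ℝ) - (b : ℝ))
    (h5 : 1 ≤ 2 - (J : ℝ))
    (h6 : 0 < -(b : ℝ) - (X : ℝ) + D - I)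
    (h7 : 0 < (J : ℝ) - I)
    (h8 : 0 < (J : ℝ) - D + I)
    (h9 : 0 < -2 * (X : ℝ) + D - 2 * I) : False := by
  have kz := KF.of hK
  obtain ⟨Ne, Xe, Ie, he⟩ := hA.ecl 1 (by
    intro h
    have h2 := W.ha
    have h3 := W.h2a
    have h1 := Int.le_of_dvd (by omega) h
    omega)
  exact Helper25.S1T.Ypp_35_P1_m0n0.closed W (G0.of W.toBase hc) (KCl.of hK) kz he
    (kok_Y (R := R) (Or.inl rfl) hM kz.z1 kz.z2 (by simp [xv] <;> ring) (by simp [xv] <;> ring) (by simp [xv] <;> ring))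
    h0 h1 h2 h3 h4 h5 h6 h7 h8 h9

theorem a_Ypp_35_P2_m0n0 {p a b c J l q : ℤ} {D dl : ℝ} {Cl : ℤ → ℤ → ℤ → ℤ → ℝ → Prop}
    (W : World p a b c J 1 l q D dl Cl) (hc : -a < c) (hA : Aux p a b 1 D Cl)
    {N X R : ℤ} {I : ℝ} (hK : KGF p a b 1 D (P1 l p) Cl N X R I)
    (hM : KMY p a b 1 (P1 l p) Cl N (b + (1 : ℤ) * (X + (1 : ℤ) * I)))
    (h0 : 1 ≤ (c : ℝ))
    (h1 : 1 ≤ 1 - (a : ℝ) + (b : ℝ))
    (h2 : 1 ≤ 2 * (a : ℝ) - (b : ℝ))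
    (h3 : 0 < 1 + 2 * (p : ℝ) - 5 * D)
    (h4 : 1 ≤ 2 * (a : ℝ) - (b : ℝ))
    (h5 : 1 ≤ -1 + (J : ℝ))
    (h6 : 1 ≤ 3 - (J : ℝ))
    (h7 : 0 < -(b : ℝ) - (X : ℝ) + D - I)
    (h8 : 0 < (J : ℝ) - I)
    (h9 : 0 < (J : ℝ) - D + I)
    (h10 : 0 < -2 * (X : ℝ) + D - 2 * I) : False := by
  have kz := KF.of hK
  obtain ⟨Ne, Xe, Ie, he⟩ := hA.ecl 1 (by
    intro h
    have h2 := W.ha
    have h3 := W.h2a
    have h1 := Int.le_of_dvd (by omega) h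
    omega)
  exact Helper25.S1T.Ypp_35_P2_m0n0.closed W (G0.of W.toBase hc) (KCl.of hK) kz he
    (kok_Y (R := R) (Or.inl rfl) hM kz.z1 kz.z2 (by simp [xv] <;> ring) (by simp [xv] <;> ring) (by simp [xv] <;> ring))
    h0 h1 h2 h3 h4 h5 h6 h7 h8 h9 h10

theorem a_Ypp_35_P3_m0n0 {p a b c J l q : ℤ} {D dl : ℝ} {Cl : ℤ → ℤ → ℤ → ℤ → ℝ → Prop}
    (W : World p a b c J 1 l q D dl Cl) (hc : -a < c) (hA : Aux p a b 1 D Cl)
    {N X R : ℤ} {I : ℝ} (hK : KGF p a b 1 D (P1 l p) Cl N X R I)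
    (hM : KMY p a b 1 (P1 l p) Cl N (b + (1 : ℤ) * (X + (1 : ℤ) * I)))
    (h0 : 1 ≤ (c : ℝ))
    (h1 : 1 ≤ 1 - (a : ℝ) + (b : ℝ))
    (h2 : 1 ≤ 2 * (a : ℝ) - (b : ℝ))
    (h3 : 0 < -1 + (p : ℝ) - 2 * D)
    (h4 : 0 < 3 - (p : ℝ) + 2 * D)
    (h5 : 0 < 1 + 3 * (J : ℝ) - D)
    (h6 : 1 ≤ 2 * (a : ℝ) - (b : ℝ))
    (h7 : 1 ≤ -2 + (J : ℝ))
    (h8 : 0 < -(b : ℝ) - (X : ℝ) + D - I)
    (h9 : 0 < (J : ℝ) - I)
    (h10 : 0 < (J : ℝ) - D + I)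
    (h11 : 0 < -2 * (X : ℝ) + D - 2 * I) : False := by
  have kz := KF.of hK
  obtain ⟨Ne, Xe, Ie, he⟩ := hA.ecl 1 (by
    intro h
    have h2 := W.ha
    have h3 := W.h2a
    have h1 := Int.le_of_dvd (by omega) h
    omega)
  exact Helper25.S1T.Ypp_35_P3_m0n0.closed W (G0.of W.toBase hc) (KCl.of hK) kz he
    (kok_Y (R := R) (Or.inl rfl) hM kz.z1 kz.z2 (by simp [xv] <;> ring) (by simp [xv] <;> ring) (by simp [xv] <;> ring))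
    h0 h1 h2 h3 h4 h5 h6 h7 h8 h9 h10 h11

theorem a_Ypp_35_P4_m0n0 {p a b c J l q : ℤ} {D dl : ℝ} {Cl : ℤ → ℤ → ℤ → ℤ → ℝ → Prop}
    (W : World p a b c J 1 l q D dl Cl) (hc : -a < c) (hA : Aux p a b 1 D Cl)
    {N X R : ℤ} {I : ℝ} (hK : KGF p a b 1 D (P1 l p) Cl N X R I)
    (hM : KMY p a b 1 (P1 l p) Cl N (b + (1 : ℤ) * (X + (1 : ℤ) * I)))
    (h0 : 1 ≤ (c : ℝ))
    (h1 : 1 ≤ 1 - (a : ℝ) + (b : ℝ))
    (h2 : 1 ≤ 2 * (a : ℝ) - (b : ℝ))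
    (h3 : 0 < -3 + (p : ℝ) - 2 * D)
    (h4 : 1 ≤ 2 * (a : ℝ) - (b : ℝ))
    (h5 : 1 ≤ -2 + (J : ℝ))
    (h6 : 0 < -(b : ℝ) - (X : ℝ) + D - I)
    (h7 : 0 < (J : ℝ) - I)
    (h8 : 0 < (J : ℝ) - D + I)
    (h9 : 0 < -2 * (X : ℝ) + D - 2 * I) : False := by
  have kz := KF.of hK
  obtain ⟨Ne, Xe, Ie, he⟩ := hA.ecl 1 (by
    intro h
    have h2 := W.ha
    have h3 := W.h2a
    have h1 := Int.le_of_dvd (by omega) h
    omega)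
  exact Helper25.S1T.Ypp_35_P4_m0n0.closed W (G0.of W.toBase hc) (KCl.of hK) kz he
    (kok_Y (R := R) (Or.inl rfl) hM kz.z1 kz.z2 (by simp [xv] <;> ring) (by simp [xv] <;> ring) (by simp [xv] <;> ring))
    h0 h1 h2 h3 h4 h5 h6 h7 h8 h9

theorem a_Ypp_35_L2_m1n1_K1 {p a b c J l q : ℤ} {D dl : ℝ} {Cl : ℤ → ℤ → ℤ → ℤ → ℝ → Prop}
    (W : World p a b c J 1 l q D dl Cl) (hc : -a < c) (hA : Aux p a b 1 D Cl)
    {N X R : ℤ} {I : ℝ} (hK : KGF p a b 1 D (P1 l p) Cl N X R I)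
    (hM : KMY p a b 1 (P1 l p) Cl N (b + (1 : ℤ) * (X + (1 : ℤ) * I)))
    (h0 : 1 ≤ (c : ℝ))
    (h1 : 1 ≤ 1 - (a : ℝ) + (b : ℝ))
    (h2 : 1 ≤ 2 * (a : ℝ) - (b : ℝ))
    (h3 : 0 < 1 - (p : ℝ) + 2 * D)
    (h4 : 1 ≤ 1 + (a : ℝ) - (b : ℝ))
    (h5 : 1 ≤ 1 - (a : ℝ) + (b : ℝ))
    (h6 : 1 ≤ 2 + 2 * (a : ℝ) - (p : ℝ))
    (h7 : 1 ≤ 2 * (a : ℝ) - (b : ℝ))
    (h8 : 1 ≤ 2 - (J : ℝ))
    (h9 : 1 ≤ 2 - (c : ℝ))
    (h10 : 0 < -(b : ℝ) - (X : ℝ) + D - I)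
    (h13 : 0 < -(J : ℝ) + I)
    (h14 : 0 < -(J : ℝ) + D - I)
    (h15 : 0 < -2 * (X : ℝ) + D - 2 * I) : False := by
  have kz := KF.of hK
  obtain ⟨Xe, Re, Ie, he, q1, q2, q3⟩ := Helper48.KY.oneE W hA
  have r1 : (1 : ℝ) ≤ Re := by exact_mod_cast q1
  have r2 : (1 : ℝ) ≤ p - Re := by exact_mod_cast (by omega : 1 ≤ p - Re)
  exact Helper25.S1T.Ypp_35_L2_m1n1_K1.closed W (G0.of W.toBase hc) (KCl.of hK) kz he
    (kok_Y (R := R) (Or.inl rfl) hM kz.z1 kz.z2 (by simp [xv] <;> ring) (by simp [xv] <;> ring) (by simp [xv] <;> ring))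
    h0 h1 h2 h3 h4 h5 h6 h7 h8 h9 h10 (by linarith) (by linarith) h13 h14 h15 (by linarith)

theorem a_Ypp_35_L2_m1n1_K2 {p a b c J l q : ℤ} {D dl : ℝ} {Cl : ℤ → ℤ → ℤ → ℤ → ℝ → Prop}
    (W : World p a b c J 1 l q D dl Cl) (hc : -a < c) (hA : Aux p a b 1 D Cl)
    {N X R : ℤ} {I : ℝ} (hK : KGF p a b 1 D (P1 l p) Cl N X R I)
    (hM : KMY p a b 1 (P1 l p) Cl N (b + (1 : ℤ) * (X + (1 : ℤ) * I)))
    (h0 : 1 ≤ (c : ℝ))
    (h1 : 1 ≤ 1 - (a : ℝ) + (b : ℝ))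
    (h2 : 1 ≤ 2 * (a : ℝ) - (b : ℝ))
    (h3 : 0 < 1 - (p : ℝ) + 2 * D)
    (h4 : 1 ≤ 1 + (a : ℝ) - (b : ℝ))
    (h5 : 1 ≤ 1 - (a : ℝ) + (b : ℝ))
    (h6 : 1 ≤ 2 + 2 * (a : ℝ) - (p : ℝ))
    (h7 : 1 ≤ 2 * (a : ℝ) - (b : ℝ))
    (h8 : 1 ≤ 2 - (J : ℝ))
    (h9 : 1 ≤ -1 + (c : ℝ))
    (h10 : 0 < -(b : ℝ) - (X : ℝ) + D - I)
    (h11 : 0 < -(J : ℝ) + I)
    (h12 : 0 < -(J : ℝ) + D - I)
    (h13 : 0 < -2 * (X : ℝ) + D - 2 * I) : False := by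
  have kz := KF.of hK
  obtain ⟨Ne, Xe, Ie, he⟩ := hA.ecl 1 (by
    intro h
    have h2 := W.ha
    have h3 := W.h2a
    have h1 := Int.le_of_dvd (by omega) h
    omega)
  exact Helper25.S1T.Ypp_35_L2_m1n1_K2.closed W (G0.of W.toBase hc) (KCl.of hK) kz he
    (kok_Y (R := R) (Or.inl rfl) hM kz.z1 kz.z2 (by simp [xv] <;> ring) (by simp [xv] <;> ring) (by simp [xv] <;> ring))
    h0 h1 h2 h3 h4 h5 h6 h7 h8 h9 h10 h11 h12 h13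

theorem a_Ypp_35_L2_m1n1_CB {p a b c J l q : ℤ} {D dl : ℝ} {Cl : ℤ → ℤ → ℤ → ℤ → ℝ → Prop}
    (W : World p a b c J 1 l q D dl Cl) (hc : -a < c) (hA : Aux p a b 1 D Cl)
    {N X R : ℤ} {I : ℝ} (hK : KGF p a b 1 D (P1 l p) Cl N X R I)
    (hM : KMY p a b 1 (P1 l p) Cl N (b + (1 : ℤ) * (X + (1 : ℤ) * I)))
    (h0 : 1 ≤ (c : ℝ))
    (h1 : 1 ≤ 1 - (a : ℝ) + (b : ℝ))
    (h2 : 1 ≤ 2 * (a : ℝ) - (b : ℝ))
    (h3 : 0 < 1 - (p : ℝ) + 2 * D)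
    (h4 : 1 ≤ 1 + (a : ℝ) - (b : ℝ))
    (h5 : 1 ≤ 1 - (a : ℝ) + (b : ℝ))
    (h6 : 1 ≤ -1 - 2 * (a : ℝ) + (p : ℝ))
    (h7 : 1 ≤ 2 * (a : ℝ) - (b : ℝ))
    (h8 : 1 ≤ 2 - (J : ℝ))
    (h9 : 0 < -(b : ℝ) - (X : ℝ) + D - I)
    (h10 : 0 < -(J : ℝ) + I)
    (h11 : 0 < -(J : ℝ) + D - I)
    (h12 : 0 < -2 * (X : ℝ) + D - 2 * I) : False := by
  have kz := KF.of hK
  obtain ⟨Ne, Xe, Ie, he⟩ := hA.ecl 1 (by
    intro h
    have h2 := W.ha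
    have h3 := W.h2a
    have h1 := Int.le_of_dvd (by omega) h
    omega)
  exact Helper25.S1T.Ypp_35_L2_m1n1_CB.closed W (G0.of W.toBase hc) (KCl.of hK) kz he
    (kok_Y (R := R) (Or.inl rfl) hM kz.z1 kz.z2 (by simp [xv] <;> ring) (by simp [xv] <;> ring) (by simp [xv] <;> ring))
    h0 h1 h2 h3 h4 h5 h6 h7 h8 h9 h10 h11 h12

theorem a_Ypp_35_L2_m1n1_CC {p a b c J l q : ℤ} {D dl : ℝ} {Cl : ℤ → ℤ → ℤ → ℤ → ℝ → Prop}
    (W : World p a b c J 1 l q D dl Cl) (hc : -a < c) (hA : Aux p a b 1 D Cl)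
    {N X R : ℤ} {I : ℝ} (hK : KGF p a b 1 D (P1 l p) Cl N X R I)
    (hM : KMY p a b 1 (P1 l p) Cl N (b + (1 : ℤ) * (X + (1 : ℤ) * I)))
    (h0 : 1 ≤ (c : ℝ))
    (h1 : 1 ≤ 1 - (a : ℝ) + (b : ℝ))
    (h2 : 1 ≤ 2 * (a : ℝ) - (b : ℝ))
    (h3 : 0 < 1 - (p : ℝ) + 2 * D)
    (h4 : 1 ≤ -(a : ℝ) + (b : ℝ))
    (h5 : 1 ≤ 2 * (a : ℝ) - (b : ℝ))
    (h6 : 1 ≤ 2 - (J : ℝ))
    (h7 : 0 < -(b : ℝ) - (X : ℝ) + D - I)
    (h8 : 0 < -(J : ℝ) + I)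
    (h9 : 0 < -(J : ℝ) + D - I)
    (h10 : 0 < -2 * (X : ℝ) + D - 2 * I) : False := by
  have kz := KF.of hK
  obtain ⟨Ne, Xe, Ie, he⟩ := hA.ecl 1 (by
    intro h
    have h2 := W.ha
    have h3 := W.h2a
    have h1 := Int.le_of_dvd (by omega) h
    omega)
  exact Helper25.S1T.Ypp_35_L2_m1n1_CC.closed W (G0.of W.toBase hc) (KCl.of hK) kz he
    (kok_Y (R := R) (Or.inl rfl) hM kz.z1 kz.z2 (by simp [xv] <;> ring) (by simp [xv] <;> ring) (by simp [xv] <;> ring))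
    h0 h1 h2 h3 h4 h5 h6 h7 h8 h9 h10

theorem a_Ypp_35_P1_m1n1_K1 {p a b c J l q : ℤ} {D dl : ℝ} {Cl : ℤ → ℤ → ℤ → ℤ → ℝ → Prop}
    (W : World p a b c J 1 l q D dl Cl) (hc : -a < c) (hA : Aux p a b 1 D Cl)
    {N X R : ℤ} {I : ℝ} (hK : KGF p a b 1 D (P1 l p) Cl N X R I)
    (hM : KMY p a b 1 (P1 l p) Cl N (b + (1 : ℤ) * (X + (1 : ℤ) * I)))
    (h0 : 1 ≤ (c : ℝ))
    (h1 : 1 ≤ 1 - (a : ℝ) + (b : ℝ))
    (h2 : 1 ≤ 2 * (a : ℝ) - (b : ℝ))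
    (h3 : 1 ≤ 1 + (a : ℝ) - (b : ℝ))
    (h4 : 1 ≤ 1 - (a : ℝ) + (b : ℝ))
    (h5 : 1 ≤ 2 + 2 * (a : ℝ) - (p : ℝ))
    (h6 : 0 < 1 + (p : ℝ) - 3 * D)
    (h7 : 1 ≤ 2 * (a : ℝ) - (b : ℝ))
    (h8 : 1 ≤ 2 - (J : ℝ))
    (h9 : 1 ≤ 2 - (c : ℝ))
    (h10 : 0 < -(b : ℝ) - (X : ℝ) + D - I)
    (h13 : 0 < -(J : ℝ) + I)
    (h14 : 0 < -(J : ℝ) + D - I)
    (h15 : 0 < -2 * (X : ℝ) + D - 2 * I) : False := by
  have kz := KF.of hK
  obtain ⟨Xe, Re, Ie, he, q1, q2, q3⟩ := Helper48.KY.oneE W hA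
  have r1 : (1 : ℝ) ≤ Re := by exact_mod_cast q1
  have r2 : (1 : ℝ) ≤ p - Re := by exact_mod_cast (by omega : 1 ≤ p - Re)
  exact Helper25.S1T.Ypp_35_P1_m1n1_K1.closed W (G0.of W.toBase hc) (KCl.of hK) kz he
    (kok_Y (R := R) (Or.inl rfl) hM kz.z1 kz.z2 (by simp [xv] <;> ring) (by simp [xv] <;> ring) (by simp [xv] <;> ring))
    h0 h1 h2 h3 h4 h5 h6 h7 h8 h9 h10 (by linarith) (by linarith) h13 h14 h15 (by linarith)

theorem a_Ypp_35_P1_m1n1_K2 {p a b c J l q : ℤ} {D dl : ℝ} {Cl : ℤ → ℤ → ℤ → ℤ → ℝ → Prop}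
    (W : World p a b c J 1 l q D dl Cl) (hc : -a < c) (hA : Aux p a b 1 D Cl)
    {N X R : ℤ} {I : ℝ} (hK : KGF p a b 1 D (P1 l p) Cl N X R I)
    (hM : KMY p a b 1 (P1 l p) Cl N (b + (1 : ℤ) * (X + (1 : ℤ) * I)))
    (h0 : 1 ≤ (c : ℝ))
    (h1 : 1 ≤ 1 - (a : ℝ) + (b : ℝ))
    (h2 : 1 ≤ 2 * (a : ℝ) - (b : ℝ))
    (h3 : 0 < 1 + (p : ℝ) - 3 * D)
    (h4 : 1 ≤ 1 + (a : ℝ) - (b : ℝ))
    (h5 : 1 ≤ 1 - (a : ℝ) + (b : ℝ))
    (h6 : 1 ≤ 2 + 2 * (a : ℝ) - (p : ℝ))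
    (h7 : 1 ≤ 2 * (a : ℝ) - (b : ℝ))
    (h8 : 1 ≤ 2 - (J : ℝ))
    (h9 : 1 ≤ -1 + (c : ℝ))
    (h10 : 0 < -(b : ℝ) - (X : ℝ) + D - I)
    (h11 : 0 < -(J : ℝ) + I)
    (h12 : 0 < -(J : ℝ) + D - I)
    (h13 : 0 < -2 * (X : ℝ) + D - 2 * I) : False := by
  have kz := KF.of hK
  obtain ⟨Ne, Xe, Ie, he⟩ := hA.ecl 1 (by
    intro h
    have h2 := W.ha
    have h3 := W.h2a
    have h1 := Int.le_of_dvd (by omega) h
    omega)
  exact Helper25.S1T.Ypp_35_P1_m1n1_K2.closed W (G0.of W.toBase hc) (KCl.of hK) kz he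
    (kok_Y (R := R) (Or.inl rfl) hM kz.z1 kz.z2 (by simp [xv] <;> ring) (by simp [xv] <;> ring) (by simp [xv] <;> ring))
    h0 h1 h2 h3 h4 h5 h6 h7 h8 h9 h10 h11 h12 h13

theorem a_Ypp_35_P1_m1n1_CB {p a b c J l q : ℤ} {D dl : ℝ} {Cl : ℤ → ℤ → ℤ → ℤ → ℝ → Prop}
    (W : World p a b c J 1 l q D dl Cl) (hc : -a < c) (hA : Aux p a b 1 D Cl)
    {N X R : ℤ} {I : ℝ} (hK : KGF p a b 1 D (P1 l p) Cl N X R I)
    (hM : KMY p a b 1 (P1 l p) Cl N (b + (1 : ℤ) * (X + (1 : ℤ) * I)))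
    (h0 : 1 ≤ (c : ℝ))
    (h1 : 1 ≤ 1 - (a : ℝ) + (b : ℝ))
    (h2 : 1 ≤ 2 * (a : ℝ) - (b : ℝ))
    (h3 : 0 < 1 + (p : ℝ) - 3 * D)
    (h4 : 1 ≤ 1 + (a : ℝ) - (b : ℝ))
    (h5 : 1 ≤ 1 - (a : ℝ) + (b : ℝ))
    (h6 : 1 ≤ -1 - 2 * (a : ℝ) + (p : ℝ))
    (h7 : 1 ≤ 2 * (a : ℝ) - (b : ℝ))
    (h8 : 1 ≤ 2 - (J : ℝ))
    (h9 : 0 < -(b : ℝ) - (X : ℝ) + D - I)
    (h10 : 0 < -(J : ℝ) + I)
    (h11 : 0 < -(J : ℝ) + D - I)
    (h12 : 0 < -2 * (X : ℝ) + D - 2 * I) : False := by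
  have kz := KF.of hK
  obtain ⟨Ne, Xe, Ie, he⟩ := hA.ecl 1 (by
    intro h
    have h2 := W.ha
    have h3 := W.h2a
    have h1 := Int.le_of_dvd (by omega) h
    omega)
  exact Helper25.S1T.Ypp_35_P1_m1n1_CB.closed W (G0.of W.toBase hc) (KCl.of hK) kz he
    (kok_Y (R := R) (Or.inl rfl) hM kz.z1 kz.z2 (by simp [xv] <;> ring) (by simp [xv] <;> ring) (by simp [xv] <;> ring))
    h0 h1 h2 h3 h4 h5 h6 h7 h8 h9 h10 h11 h12

theorem a_Ypp_35_P1_m1n1_CC {p a b c J l q : ℤ} {D dl : ℝ} {Cl : ℤ → ℤ → ℤ → ℤ → ℝ → Prop}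
    (W : World p a b c J 1 l q D dl Cl) (hc : -a < c) (hA : Aux p a b 1 D Cl)
    {N X R : ℤ} {I : ℝ} (hK : KGF p a b 1 D (P1 l p) Cl N X R I)
    (hM : KMY p a b 1 (P1 l p) Cl N (b + (1 : ℤ) * (X + (1 : ℤ) * I)))
    (h0 : 1 ≤ (c : ℝ))
    (h1 : 1 ≤ 1 - (a : ℝ) + (b : ℝ))
    (h2 : 1 ≤ 2 * (a : ℝ) - (b : ℝ))
    (h3 : 0 < 1 + (p : ℝ) - 3 * D)
    (h4 : 1 ≤ -(a : ℝ) + (b : ℝ))
    (h5 : 1 ≤ 2 * (a : ℝ) - (b : ℝ))
    (h6 : 1 ≤ 2 - (J : ℝ))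
    (h7 : 0 < -(b : ℝ) - (X : ℝ) + D - I)
    (h8 : 0 < -(J : ℝ) + I)
    (h9 : 0 < -(J : ℝ) + D - I)
    (h10 : 0 < -2 * (X : ℝ) + D - 2 * I) : False := by
  have kz := KF.of hK
  obtain ⟨Ne, Xe, Ie, he⟩ := hA.ecl 1 (by
    intro h
    have h2 := W.ha
    have h3 := W.h2a
    have h1 := Int.le_of_dvd (by omega) h
    omega)
  exact Helper25.S1T.Ypp_35_P1_m1n1_CC.closed W (G0.of W.toBase hc) (KCl.of hK) kz he
    (kok_Y (R := R) (Or.inl rfl) hM kz.z1 kz.z2 (by simp [xv] <;> ring) (by simp [xv] <;> ring) (by simp [xv] <;> ring))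
    h0 h1 h2 h3 h4 h5 h6 h7 h8 h9 h10

theorem a_Ypp_35_P2_m1n1_K1 {p a b c J l q : ℤ} {D dl : ℝ} {Cl : ℤ → ℤ → ℤ → ℤ → ℝ → Prop}
    (W : World p a b c J 1 l q D dl Cl) (hc : -a < c) (hA : Aux p a b 1 D Cl)
    {N X R : ℤ} {I : ℝ} (hK : KGF p a b 1 D (P1 l p) Cl N X R I)
    (hM : KMY p a b 1 (P1 l p) Cl N (b + (1 : ℤ) * (X + (1 : ℤ) * I)))
    (h0 : 1 ≤ (c : ℝ))
    (h1 : 1 ≤ 1 - (a : ℝ) + (b : ℝ))
    (h2 : 1 ≤ 2 * (a : ℝ) - (b : ℝ))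
    (h3 : 1 ≤ 1 + (a : ℝ) - (b : ℝ))
    (h4 : 1 ≤ 1 - (a : ℝ) + (b : ℝ))
    (h5 : 1 ≤ 2 + 2 * (a : ℝ) - (p : ℝ))
    (h6 : 0 < 1 + 2 * (p : ℝ) - 5 * D)
    (h7 : 1 ≤ 2 * (a : ℝ) - (b : ℝ))
    (h8 : 1 ≤ -1 + (J : ℝ))
    (h9 : 1 ≤ 3 - (J : ℝ))
    (h10 : 1 ≤ 2 - (c : ℝ))
    (h11 : 0 < -(b : ℝ) - (X : ℝ) + D - I)
    (h14 : 0 < -(J : ℝ) + I)
    (h15 : 0 < -(J : ℝ) + D - I)
    (h16 : 0 < -2 * (X : ℝ) + D - 2 * I) : False := by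
  have kz := KF.of hK
  obtain ⟨Xe, Re, Ie, he, q1, q2, q3⟩ := Helper48.KY.oneE W hA
  have r1 : (1 : ℝ) ≤ Re := by exact_mod_cast q1
  have r2 : (1 : ℝ) ≤ p - Re := by exact_mod_cast (by omega : 1 ≤ p - Re)
  exact Helper25.S1T.Ypp_35_P2_m1n1_K1.closed W (G0.of W.toBase hc) (KCl.of hK) kz he
    (kok_Y (R := R) (Or.inl rfl) hM kz.z1 kz.z2 (by simp [xv] <;> ring) (by simp [xv] <;> ring) (by simp [xv] <;> ring))
    h0 h1 h2 h3 h4 h5 h6 h7 h8 h9 h10 h11 (by linarith) (by linarith) h14 h15 h16 (by linarith)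

theorem a_Ypp_35_P2_m1n1_K2 {p a b c J l q : ℤ} {D dl : ℝ} {Cl : ℤ → ℤ → ℤ → ℤ → ℝ → Prop}
    (W : World p a b c J 1 l q D dl Cl) (hc : -a < c) (hA : Aux p a b 1 D Cl)
    {N X R : ℤ} {I : ℝ} (hK : KGF p a b 1 D (P1 l p) Cl N X R I)
    (hM : KMY p a b 1 (P1 l p) Cl N (b + (1 : ℤ) * (X + (1 : ℤ) * I)))
    (h0 : 1 ≤ (c : ℝ))
    (h1 : 1 ≤ 1 - (a : ℝ) + (b : ℝ))
    (h2 : 1 ≤ 2 * (a : ℝ) - (b : ℝ))
    (h3 : 0 < 1 + 2 * (p : ℝ) - 5 * D)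
    (h4 : 1 ≤ 1 + (a : ℝ) - (b : ℝ))
    (h5 : 1 ≤ 1 - (a : ℝ) + (b : ℝ))
    (h6 : 1 ≤ 2 + 2 * (a : ℝ) - (p : ℝ))
    (h7 : 1 ≤ 2 * (a : ℝ) - (b : ℝ))
    (h8 : 1 ≤ -1 + (J : ℝ))
    (h9 : 1 ≤ 3 - (J : ℝ))
    (h10 : 1 ≤ -1 + (c : ℝ))
    (h11 : 0 < -(b : ℝ) - (X : ℝ) + D - I)
    (h12 : 0 < -(J : ℝ) + I)
    (h13 : 0 < -(J : ℝ) + D - I)
    (h14 : 0 < -2 * (X : ℝ) + D - 2 * I) : False := by
  have kz := KF.of hK
  obtain ⟨Ne, Xe, Ie, he⟩ := hA.ecl 1 (by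
    intro h
    have h2 := W.ha
    have h3 := W.h2a
    have h1 := Int.le_of_dvd (by omega) h
    omega)
  exact Helper25.S1T.Ypp_35_P2_m1n1_K2.closed W (G0.of W.toBase hc) (KCl.of hK) kz he
    (kok_Y (R := R) (Or.inl rfl) hM kz.z1 kz.z2 (by simp [xv] <;> ring) (by simp [xv] <;> ring) (by simp [xv] <;> ring))
    h0 h1 h2 h3 h4 h5 h6 h7 h8 h9 h10 h11 h12 h13 h14

theorem a_Ypp_35_P2_m1n1_CB {p a b c J l q : ℤ} {D dl : ℝ} {Cl : ℤ → ℤ → ℤ → ℤ → ℝ → Prop}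
    (W : World p a b c J 1 l q D dl Cl) (hc : -a < c) (hA : Aux p a b 1 D Cl)
    {N X R : ℤ} {I : ℝ} (hK : KGF p a b 1 D (P1 l p) Cl N X R I)
    (hM : KMY p a b 1 (P1 l p) Cl N (b + (1 : ℤ) * (X + (1 : ℤ) * I)))
    (h0 : 1 ≤ (c : ℝ))
    (h1 : 1 ≤ 1 - (a : ℝ) + (b : ℝ))
    (h2 : 1 ≤ 2 * (a : ℝ) - (b : ℝ))
    (h3 : 0 < 1 + 2 * (p : ℝ) - 5 * D)
    (h4 : 1 ≤ 1 + (a : ℝ) - (b : ℝ))
    (h5 : 1 ≤ 1 - (a : ℝ) + (b : ℝ))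
    (h6 : 1 ≤ -1 - 2 * (a : ℝ) + (p : ℝ))
    (h7 : 1 ≤ 2 * (a : ℝ) - (b : ℝ))
    (h8 : 1 ≤ -1 + (J : ℝ))
    (h9 : 1 ≤ 3 - (J : ℝ))
    (h10 : 0 < -(b : ℝ) - (X : ℝ) + D - I)
    (h11 : 0 < -(J : ℝ) + I)
    (h12 : 0 < -(J : ℝ) + D - I)
    (h13 : 0 < -2 * (X : ℝ) + D - 2 * I) : False := by
  have kz := KF.of hK
  obtain ⟨Ne, Xe, Ie, he⟩ := hA.ecl 1 (by
    intro h
    have h2 := W.ha
    have h3 := W.h2a
    have h1 := Int.le_of_dvd (by omega) h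
    omega)
  exact Helper25.S1T.Ypp_35_P2_m1n1_CB.closed W (G0.of W.toBase hc) (KCl.of hK) kz he
    (kok_Y (R := R) (Or.inl rfl) hM kz.z1 kz.z2 (by simp [xv] <;> ring) (by simp [xv] <;> ring) (by simp [xv] <;> ring))
    h0 h1 h2 h3 h4 h5 h6 h7 h8 h9 h10 h11 h12 h13

theorem a_Ypp_35_P2_m1n1_CC {p a b c J l q : ℤ} {D dl : ℝ} {Cl : ℤ → ℤ → ℤ → ℤ → ℝ → Prop}
    (W : World p a b c J 1 l q D dl Cl) (hc : -a < c) (hA : Aux p a b 1 D Cl)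
    {N X R : ℤ} {I : ℝ} (hK : KGF p a b 1 D (P1 l p) Cl N X R I)
    (hM : KMY p a b 1 (P1 l p) Cl N (b + (1 : ℤ) * (X + (1 : ℤ) * I)))
    (h0 : 1 ≤ (c : ℝ))
    (h1 : 1 ≤ 1 - (a : ℝ) + (b : ℝ))
    (h2 : 1 ≤ 2 * (a : ℝ) - (b : ℝ))
    (h3 : 0 < 1 + 2 * (p : ℝ) - 5 * D)
    (h4 : 1 ≤ -(a : ℝ) + (b : ℝ))
    (h5 : 1 ≤ 2 * (a : ℝ) - (b : ℝ))
    (h6 : 1 ≤ -1 + (J : ℝ))
    (h7 : 1 ≤ 3 - (J : ℝ))
    (h8 : 0 < -(b : ℝ) - (X : ℝ) + D - I)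
    (h9 : 0 < -(J : ℝ) + I)
    (h10 : 0 < -(J : ℝ) + D - I)
    (h11 : 0 < -2 * (X : ℝ) + D - 2 * I) : False := by
  have kz := KF.of hK
  obtain ⟨Ne, Xe, Ie, he⟩ := hA.ecl 1 (by
    intro h
    have h2 := W.ha
    have h3 := W.h2a
    have h1 := Int.le_of_dvd (by omega) h
    omega)
  exact Helper25.S1T.Ypp_35_P2_m1n1_CC.closed W (G0.of W.toBase hc) (KCl.of hK) kz he
    (kok_Y (R := R) (Or.inl rfl) hM kz.z1 kz.z2 (by simp [xv] <;> ring) (by simp [xv] <;> ring) (by simp [xv] <;> ring))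
    h0 h1 h2 h3 h4 h5 h6 h7 h8 h9 h10 h11

theorem a_Ypp_35_P3_m1n1_K1 {p a b c J l q : ℤ} {D dl : ℝ} {Cl : ℤ → ℤ → ℤ → ℤ → ℝ → Prop}
    (W : World p a b c J 1 l q D dl Cl) (hc : -a < c) (hA : Aux p a b 1 D Cl)
    {N X R : ℤ} {I : ℝ} (hK : KGF p a b 1 D (P1 l p) Cl N X R I)
    (hM : KMY p a b 1 (P1 l p) Cl N (b + (1 : ℤ) * (X + (1 : ℤ) * I)))
    (h0 : 1 ≤ (c : ℝ))
    (h1 : 1 ≤ 1 - (a : ℝ) + (b : ℝ))
    (h2 : 1 ≤ 2 * (a : ℝ) - (b : ℝ))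
    (h3 : 0 < -1 + (p : ℝ) - 2 * D)
    (h4 : 0 < 3 - (p : ℝ) + 2 * D)
    (h5 : 0 < 1 + 3 * (J : ℝ) - D)
    (h6 : 1 ≤ 1 + (a : ℝ) - (b : ℝ))
    (h7 : 1 ≤ 1 - (a : ℝ) + (b : ℝ))
    (h8 : 1 ≤ 2 + 2 * (a : ℝ) - (p : ℝ))
    (h9 : 1 ≤ 2 * (a : ℝ) - (b : ℝ))
    (h10 : 1 ≤ -2 + (J : ℝ))
    (h11 : 1 ≤ 2 - (c : ℝ))
    (h12 : 0 < -(b : ℝ) - (X : ℝ) + D - I)
    (h15 : 0 < -(J : ℝ) + I)
    (h16 : 0 < -(J : ℝ) + D - I)
    (h17 : 0 < -2 * (X : ℝ) + D - 2 * I) : False := by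
  have kz := KF.of hK
  obtain ⟨Xe, Re, Ie, he, q1, q2, q3⟩ := Helper48.KY.oneE W hA
  have r1 : (1 : ℝ) ≤ Re := by exact_mod_cast q1
  have r2 : (1 : ℝ) ≤ p - Re := by exact_mod_cast (by omega : 1 ≤ p - Re)
  exact Helper25.S1T.Ypp_35_P3_m1n1_K1.closed W (G0.of W.toBase hc) (KCl.of hK) kz he
    (kok_Y (R := R) (Or.inl rfl) hM kz.z1 kz.z2 (by simp [xv] <;> ring) (by simp [xv] <;> ring) (by simp [xv] <;> ring))
    h0 h1 h2 h3 h4 h5 h6 h7 h8 h9 h10 h11 h12 (by linarith) (by linarith) h15 h16 h17 (by linarith)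

theorem a_Ypp_35_P3_m1n1_K2 {p a b c J l q : ℤ} {D dl : ℝ} {Cl : ℤ → ℤ → ℤ → ℤ → ℝ → Prop}
    (W : World p a b c J 1 l q D dl Cl) (hc : -a < c) (hA : Aux p a b 1 D Cl)
    {N X R : ℤ} {I : ℝ} (hK : KGF p a b 1 D (P1 l p) Cl N X R I)
    (hM : KMY p a b 1 (P1 l p) Cl N (b + (1 : ℤ) * (X + (1 : ℤ) * I)))
    (h0 : 1 ≤ (c : ℝ))
    (h1 : 1 ≤ 1 - (a : ℝ) + (b : ℝ))
    (h2 : 1 ≤ 2 * (a : ℝ) - (b : ℝ))
    (h3 : 0 < -1 + (p : ℝ) - 2 * D)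
    (h4 : 0 < 3 - (p : ℝ) + 2 * D)
    (h5 : 0 < 1 + 3 * (J : ℝ) - D)
    (h6 : 1 ≤ 1 + (a : ℝ) - (b : ℝ))
    (h7 : 1 ≤ 1 - (a : ℝ) + (b : ℝ))
    (h8 : 1 ≤ 2 + 2 * (a : ℝ) - (p : ℝ))
    (h9 : 1 ≤ 2 * (a : ℝ) - (b : ℝ))
    (h10 : 1 ≤ -2 + (J : ℝ))
    (h11 : 1 ≤ -1 + (c : ℝ))
    (h12 : 0 < -(b : ℝ) - (X : ℝ) + D - I)
    (h13 : 0 < -(J : ℝ) + I)
    (h14 : 0 < -(J : ℝ) + D - I)
    (h15 : 0 < -2 * (X : ℝ) + D - 2 * I) : False := by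
  have kz := KF.of hK
  obtain ⟨Ne, Xe, Ie, he⟩ := hA.ecl 1 (by
    intro h
    have h2 := W.ha
    have h3 := W.h2a
    have h1 := Int.le_of_dvd (by omega) h
    omega)
  exact Helper25.S1T.Ypp_35_P3_m1n1_K2.closed W (G0.of W.toBase hc) (KCl.of hK) kz he
    (kok_Y (R := R) (Or.inl rfl) hM kz.z1 kz.z2 (by simp [xv] <;> ring) (by simp [xv] <;> ring) (by simp [xv] <;> ring))
    h0 h1 h2 h3 h4 h5 h6 h7 h8 h9 h10 h11 h12 h13 h14 h15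

theorem a_Ypp_35_P3_m1n1_CB {p a b c J l q : ℤ} {D dl : ℝ} {Cl : ℤ → ℤ → ℤ → ℤ → ℝ → Prop}
    (W : World p a b c J 1 l q D dl Cl) (hc : -a < c) (hA : Aux p a b 1 D Cl)
    {N X R : ℤ} {I : ℝ} (hK : KGF p a b 1 D (P1 l p) Cl N X R I)
    (hM : KMY p a b 1 (P1 l p) Cl N (b + (1 : ℤ) * (X + (1 : ℤ) * I)))
    (h0 : 1 ≤ (c : ℝ))
    (h1 : 1 ≤ 1 - (a : ℝ) + (b : ℝ))
    (h2 : 1 ≤ 2 * (a : ℝ) - (b : ℝ))
    (h3 : 0 < -1 + (p : ℝ) - 2 * D)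
    (h4 : 0 < 3 - (p : ℝ) + 2 * D)
    (h5 : 0 < 1 + 3 * (J : ℝ) - D)
    (h6 : 1 ≤ 1 + (a : ℝ) - (b : ℝ))
    (h7 : 1 ≤ 1 - (a : ℝ) + (b : ℝ))
    (h8 : 1 ≤ -1 - 2 * (a : ℝ) + (p : ℝ))
    (h9 : 1 ≤ 2 * (a : ℝ) - (b : ℝ))
    (h10 : 1 ≤ -2 + (J : ℝ))
    (h11 : 0 < -(b : ℝ) - (X : ℝ) + D - I)
    (h12 : 0 < -(J : ℝ) + I)
    (h13 : 0 < -(J : ℝ) + D - I)
    (h14 : 0 < -2 * (X : ℝ) + D - 2 * I) : False := by
  have kz := KF.of hK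
  obtain ⟨Ne, Xe, Ie, he⟩ := hA.ecl 1 (by
    intro h
    have h2 := W.ha
    have h3 := W.h2a
    have h1 := Int.le_of_dvd (by omega) h
    omega)
  exact Helper25.S1T.Ypp_35_P3_m1n1_CB.closed W (G0.of W.toBase hc) (KCl.of hK) kz he
    (kok_Y (R := R) (Or.inl rfl) hM kz.z1 kz.z2 (by simp [xv] <;> ring) (by simp [xv] <;> ring) (by simp [xv] <;> ring))
    h0 h1 h2 h3 h4 h5 h6 h7 h8 h9 h10 h11 h12 h13 h14

theorem a_Ypp_35_P3_m1n1_CC {p a b c J l q : ℤ} {D dl : ℝ} {Cl : ℤ → ℤ → ℤ → ℤ → ℝ → Prop}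
    (W : World p a b c J 1 l q D dl Cl) (hc : -a < c) (hA : Aux p a b 1 D Cl)
    {N X R : ℤ} {I : ℝ} (hK : KGF p a b 1 D (P1 l p) Cl N X R I)
    (hM : KMY p a b 1 (P1 l p) Cl N (b + (1 : ℤ) * (X + (1 : ℤ) * I)))
    (h0 : 1 ≤ (c : ℝ))
    (h1 : 1 ≤ 1 - (a : ℝ) + (b : ℝ))
    (h2 : 1 ≤ 2 * (a : ℝ) - (b : ℝ))
    (h3 : 0 < -1 + (p : ℝ) - 2 * D)
    (h4 : 0 < 3 - (p : ℝ) + 2 * D)
    (h5 : 0 < 1 + 3 * (J : ℝ) - D)
    (h6 : 1 ≤ -(a : ℝ) + (b : ℝ))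
    (h7 : 1 ≤ 2 * (a : ℝ) - (b : ℝ))
    (h8 : 1 ≤ -2 + (J : ℝ))
    (h9 : 0 < -(b : ℝ) - (X : ℝ) + D - I)
    (h10 : 0 < -(J : ℝ) + I)
    (h11 : 0 < -(J : ℝ) + D - I)
    (h12 : 0 < -2 * (X : ℝ) + D - 2 * I) : False := by
  have kz := KF.of hK
  obtain ⟨Ne, Xe, Ie, he⟩ := hA.ecl 1 (by
    intro h
    have h2 := W.ha
    have h3 := W.h2a
    have h1 := Int.le_of_dvd (by omega) h
    omega)
  exact Helper25.S1T.Ypp_35_P3_m1n1_CC.closed W (G0.of W.toBase hc) (KCl.of hK) kz he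
    (kok_Y (R := R) (Or.inl rfl) hM kz.z1 kz.z2 (by simp [xv] <;> ring) (by simp [xv] <;> ring) (by simp [xv] <;> ring))
    h0 h1 h2 h3 h4 h5 h6 h7 h8 h9 h10 h11 h12

theorem a_Ypp_35_P4_m1n1_K1 {p a b c J l q : ℤ} {D dl : ℝ} {Cl : ℤ → ℤ → ℤ → ℤ → ℝ → Prop}
    (W : World p a b c J 1 l q D dl Cl) (hc : -a < c) (hA : Aux p a b 1 D Cl)
    {N X R : ℤ} {I : ℝ} (hK : KGF p a b 1 D (P1 l p) Cl N X R I)
    (hM : KMY p a b 1 (P1 l p) Cl N (b + (1 : ℤ) * (X + (1 : ℤ) * I)))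
    (h0 : 1 ≤ (c : ℝ))
    (h1 : 1 ≤ 1 - (a : ℝ) + (b : ℝ))
    (h2 : 1 ≤ 2 * (a : ℝ) - (b : ℝ))
    (h3 : 0 < -3 + (p : ℝ) - 2 * D)
    (h4 : 1 ≤ 1 + (a : ℝ) - (b : ℝ))
    (h5 : 1 ≤ 1 - (a : ℝ) + (b : ℝ))
    (h6 : 1 ≤ 2 + 2 * (a : ℝ) - (p : ℝ))
    (h7 : 1 ≤ 2 * (a : ℝ) - (b : ℝ))
    (h8 : 1 ≤ -2 + (J : ℝ))
    (h9 : 1 ≤ 2 - (c : ℝ))
    (h10 : 0 < -(b : ℝ) - (X : ℝ) + D - I)
    (h13 : 0 < -(J : ℝ) + I)
    (h14 : 0 < -(J : ℝ) + D - I)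
    (h15 : 0 < -2 * (X : ℝ) + D - 2 * I) : False := by
  have kz := KF.of hK
  obtain ⟨Xe, Re, Ie, he, q1, q2, q3⟩ := Helper48.KY.oneE W hA
  have r1 : (1 : ℝ) ≤ Re := by exact_mod_cast q1
  have r2 : (1 : ℝ) ≤ p - Re := by exact_mod_cast (by omega : 1 ≤ p - Re)
  exact Helper25.S1T.Ypp_35_P4_m1n1_K1.closed W (G0.of W.toBase hc) (KCl.of hK) kz he
    (kok_Y (R := R) (Or.inl rfl) hM kz.z1 kz.z2 (by simp [xv] <;> ring) (by simp [xv] <;> ring) (by simp [xv] <;> ring))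
    h0 h1 h2 h3 h4 h5 h6 h7 h8 h9 h10 (by linarith) (by linarith) h13 h14 h15 (by linarith)

theorem a_Ypp_35_P4_m1n1_K2 {p a b c J l q : ℤ} {D dl : ℝ} {Cl : ℤ → ℤ → ℤ → ℤ → ℝ → Prop}
    (W : World p a b c J 1 l q D dl Cl) (hc : -a < c) (hA : Aux p a b 1 D Cl)
    {N X R : ℤ} {I : ℝ} (hK : KGF p a b 1 D (P1 l p) Cl N X R I)
    (hM : KMY p a b 1 (P1 l p) Cl N (b + (1 : ℤ) * (X + (1 : ℤ) * I)))
    (h0 : 1 ≤ (c : ℝ))
    (h1 : 1 ≤ 1 - (a : ℝ) + (b : ℝ))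
    (h2 : 1 ≤ 2 * (a : ℝ) - (b : ℝ))
    (h3 : 0 < -3 + (p : ℝ) - 2 * D)
    (h4 : 1 ≤ 1 + (a : ℝ) - (b : ℝ))
    (h5 : 1 ≤ 1 - (a : ℝ) + (b : ℝ))
    (h6 : 1 ≤ 2 + 2 * (a : ℝ) - (p : ℝ))
    (h7 : 1 ≤ 2 * (a : ℝ) - (b : ℝ))
    (h8 : 1 ≤ -2 + (J : ℝ))
    (h9 : 1 ≤ -1 + (c : ℝ))
    (h10 : 0 < -(b : ℝ) - (X : ℝ) + D - I)
    (h11 : 0 < -(J : ℝ) + I)
    (h12 : 0 < -(J : ℝ) + D - I)
    (h13 : 0 < -2 * (X : ℝ) + D - 2 * I) : False := by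
  have kz := KF.of hK
  obtain ⟨Ne, Xe, Ie, he⟩ := hA.ecl 1 (by
    intro h
    have h2 := W.ha
    have h3 := W.h2a
    have h1 := Int.le_of_dvd (by omega) h
    omega)
  exact Helper25.S1T.Ypp_35_P4_m1n1_K2.closed W (G0.of W.toBase hc) (KCl.of hK) kz he
    (kok_Y (R := R) (Or.inl rfl) hM kz.z1 kz.z2 (by simp [xv] <;> ring) (by simp [xv] <;> ring) (by simp [xv] <;> ring))
    h0 h1 h2 h3 h4 h5 h6 h7 h8 h9 h10 h11 h12 h13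

theorem a_Ypp_35_P4_m1n1_CB {p a b c J l q : ℤ} {D dl : ℝ} {Cl : ℤ → ℤ → ℤ → ℤ → ℝ → Prop}
    (W : World p a b c J 1 l q D dl Cl) (hc : -a < c) (hA : Aux p a b 1 D Cl)
    {N X R : ℤ} {I : ℝ} (hK : KGF p a b 1 D (P1 l p) Cl N X R I)
    (hM : KMY p a b 1 (P1 l p) Cl N (b + (1 : ℤ) * (X + (1 : ℤ) * I)))
    (h0 : 1 ≤ (c : ℝ))
    (h1 : 1 ≤ 1 - (a : ℝ) + (b : ℝ))
    (h2 : 1 ≤ 2 * (a : ℝ) - (b : ℝ))
    (h3 : 0 < -3 + (p : ℝ) - 2 * D)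
    (h4 : 1 ≤ 1 + (a : ℝ) - (b : ℝ))
    (h5 : 1 ≤ 1 - (a : ℝ) + (b : ℝ))
    (h6 : 1 ≤ -1 - 2 * (a : ℝ) + (p : ℝ))
    (h7 : 1 ≤ 2 * (a : ℝ) - (b : ℝ))
    (h8 : 1 ≤ -2 + (J : ℝ))
    (h9 : 0 < -(b : ℝ) - (X : ℝ) + D - I)
    (h10 : 0 < -(J : ℝ) + I)
    (h11 : 0 < -(J : ℝ) + D - I)
    (h12 : 0 < -2 * (X : ℝ) + D - 2 * I) : False := by
  have kz := KF.of hK
  obtain ⟨Ne, Xe, Ie, he⟩ := hA.ecl 1 (by
    intro h
    have h2 := W.ha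
    have h3 := W.h2a
    have h1 := Int.le_of_dvd (by omega) h
    omega)
  exact Helper25.S1T.Ypp_35_P4_m1n1_CB.closed W (G0.of W.toBase hc) (KCl.of hK) kz he
    (kok_Y (R := R) (Or.inl rfl) hM kz.z1 kz.z2 (by simp [xv] <;> ring) (by simp [xv] <;> ring) (by simp [xv] <;> ring))
    h0 h1 h2 h3 h4 h5 h6 h7 h8 h9 h10 h11 h12

theorem a_Ypp_35_P4_m1n1_CC {p a b c J l q : ℤ} {D dl : ℝ} {Cl : ℤ → ℤ → ℤ → ℤ → ℝ → Prop}
    (W : World p a b c J 1 l q D dl Cl) (hc : -a < c) (hA : Aux p a b 1 D Cl)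
    {N X R : ℤ} {I : ℝ} (hK : KGF p a b 1 D (P1 l p) Cl N X R I)
    (hM : KMY p a b 1 (P1 l p) Cl N (b + (1 : ℤ) * (X + (1 : ℤ) * I)))
    (h0 : 1 ≤ (c : ℝ))
    (h1 : 1 ≤ 1 - (a : ℝ) + (b : ℝ))
    (h2 : 1 ≤ 2 * (a : ℝ) - (b : ℝ))
    (h3 : 0 < -3 + (p : ℝ) - 2 * D)
    (h4 : 1 ≤ -(a : ℝ) + (b : ℝ))
    (h5 : 1 ≤ 2 * (a : ℝ) - (b : ℝ))
    (h6 : 1 ≤ -2 + (J : ℝ))
    (h7 : 0 < -(b : ℝ) - (X : ℝ) + D - I)
    (h8 : 0 < -(J : ℝ) + I)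
    (h9 : 0 < -(J : ℝ) + D - I)
    (h10 : 0 < -2 * (X : ℝ) + D - 2 * I) : False := by
  have kz := KF.of hK
  obtain ⟨Ne, Xe, Ie, he⟩ := hA.ecl 1 (by
    intro h
    have h2 := W.ha
    have h3 := W.h2a
    have h1 := Int.le_of_dvd (by omega) h
    omega)
  exact Helper25.S1T.Ypp_35_P4_m1n1_CC.closed W (G0.of W.toBase hc) (KCl.of hK) kz he
    (kok_Y (R := R) (Or.inl rfl) hM kz.z1 kz.z2 (by simp [xv] <;> ring) (by simp [xv] <;> ring) (by simp [xv] <;> ring))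
    h0 h1 h2 h3 h4 h5 h6 h7 h8 h9 h10

theorem a_Ypp_35_L2_m1n0 {p a b c J l q : ℤ} {D dl : ℝ} {Cl : ℤ → ℤ → ℤ → ℤ → ℝ → Prop}
    (W : World p a b c J 1 l q D dl Cl) (hc : -a < c) (hA : Aux p a b 1 D Cl)
    {N X R : ℤ} {I : ℝ} (hK : KGF p a b 1 D (P1 l p) Cl N X R I)
    (hM : KMY p a b 1 (P1 l p) Cl N (b + (1 : ℤ) * (X + (1 : ℤ) * I)))
    (h0 : 1 ≤ (c : ℝ))
    (h1 : 1 ≤ 1 - (a : ℝ) + (b : ℝ))
    (h2 : 1 ≤ 2 * (a : ℝ) - (b : ℝ))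
    (h3 : 0 < 1 - (p : ℝ) + 2 * D)
    (h4 : 1 ≤ 2 * (a : ℝ) - (b : ℝ))
    (h5 : 1 ≤ 2 - (J : ℝ))
    (h6 : 0 < -(b : ℝ) - (X : ℝ) + D - I)
    (h7 : 0 < -(J : ℝ) + I)
    (h8 : 0 < (J : ℝ) - D + I)
    (h9 : 0 < -2 * (X : ℝ) + D - 2 * I) : False := by
  have kz := KF.of hK
  obtain ⟨Ne, Xe, Ie, he⟩ := hA.ecl 1 (by
    intro h
    have h2 := W.ha
    have h3 := W.h2a
    have h1 := Int.le_of_dvd (by omega) h
    omega)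
  exact Helper25.S1T.Ypp_35_L2_m1n0.closed W (G0.of W.toBase hc) (KCl.of hK) kz he
    (kok_Y (R := R) (Or.inl rfl) hM kz.z1 kz.z2 (by simp [xv] <;> ring) (by simp [xv] <;> ring) (by simp [xv] <;> ring))
    h0 h1 h2 h3 h4 h5 h6 h7 h8 h9

theorem a_Ypp_35_P1_m1n0 {p a b c J l q : ℤ} {D dl : ℝ} {Cl : ℤ → ℤ → ℤ → ℤ → ℝ → Prop}
    (W : World p a b c J 1 l q D dl Cl) (hc : -a < c) (hA : Aux p a b 1 D Cl)
    {N X R : ℤ} {I : ℝ} (hK : KGF p a b 1 D (P1 l p) Cl N X R I)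
    (hM : KMY p a b 1 (P1 l p) Cl N (b + (1 : ℤ) * (X + (1 : ℤ) * I)))
    (h0 : 1 ≤ (c : ℝ))
    (h1 : 1 ≤ 1 - (a : ℝ) + (b : ℝ))
    (h2 : 1 ≤ 2 * (a : ℝ) - (b : ℝ))
    (h3 : 0 < 1 + (p : ℝ) - 3 * D)
    (h4 : 1 ≤ 2 * (a : ℝ) - (b : ℝ))
    (h5 : 1 ≤ 2 - (J : ℝ))
    (h6 : 0 < -(b : ℝ) - (X : ℝ) + D - I)
    (h7 : 0 < -(J : ℝ) + I)
    (h8 : 0 < (J : ℝ) - D + I)
    (h9 : 0 < -2 * (X : ℝ) + D - 2 * I) : False := by
  have kz := KF.of hK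
  obtain ⟨Ne, Xe, Ie, he⟩ := hA.ecl 1 (by
    intro h
    have h2 := W.ha
    have h3 := W.h2a
    have h1 := Int.le_of_dvd (by omega) h
    omega)
  exact Helper25.S1T.Ypp_35_P1_m1n0.closed W (G0.of W.toBase hc) (KCl.of hK) kz he
    (kok_Y (R := R) (Or.inl rfl) hM kz.z1 kz.z2 (by simp [xv] <;> ring) (by simp [xv] <;> ring) (by simp [xv] <;> ring))
    h0 h1 h2 h3 h4 h5 h6 h7 h8 h9

theorem a_Ypp_35_P2_m1n0 {p a b c J l q : ℤ} {D dl : ℝ} {Cl : ℤ → ℤ → ℤ → ℤ → ℝ → Prop}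
    (W : World p a b c J 1 l q D dl Cl) (hc : -a < c) (hA : Aux p a b 1 D Cl)
    {N X R : ℤ} {I : ℝ} (hK : KGF p a b 1 D (P1 l p) Cl N X R I)
    (hM : KMY p a b 1 (P1 l p) Cl N (b + (1 : ℤ) * (X + (1 : ℤ) * I)))
    (h0 : 1 ≤ (c : ℝ))
    (h1 : 1 ≤ 1 - (a : ℝ) + (b : ℝ))
    (h2 : 1 ≤ 2 * (a : ℝ) - (b : ℝ))
    (h3 : 0 < 1 + 2 * (p : ℝ) - 5 * D)
    (h4 : 1 ≤ 2 * (a : ℝ) - (b : ℝ))
    (h5 : 1 ≤ -1 + (J : ℝ))
    (h6 : 1 ≤ 3 - (J : ℝ))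
    (h7 : 0 < -(b : ℝ) - (X : ℝ) + D - I)
    (h8 : 0 < -(J : ℝ) + I)
    (h9 : 0 < (J : ℝ) - D + I)
    (h10 : 0 < -2 * (X : ℝ) + D - 2 * I) : False := by
  have kz := KF.of hK
  obtain ⟨Ne, Xe, Ie, he⟩ := hA.ecl 1 (by
    intro h
    have h2 := W.ha
    have h3 := W.h2a
    have h1 := Int.le_of_dvd (by omega) h
    omega)
  exact Helper25.S1T.Ypp_35_P2_m1n0.closed W (G0.of W.toBase hc) (KCl.of hK) kz he
    (kok_Y (R := R) (Or.inl rfl) hM kz.z1 kz.z2 (by simp [xv] <;> ring) (by simp [xv] <;> ring) (by simp [xv] <;> ring))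
    h0 h1 h2 h3 h4 h5 h6 h7 h8 h9 h10

theorem a_Ypp_35_P3_m1n0 {p a b c J l q : ℤ} {D dl : ℝ} {Cl : ℤ → ℤ → ℤ → ℤ → ℝ → Prop}
    (W : World p a b c J 1 l q D dl Cl) (hc : -a < c) (hA : Aux p a b 1 D Cl)
    {N X R : ℤ} {I : ℝ} (hK : KGF p a b 1 D (P1 l p) Cl N X R I)
    (hM : KMY p a b 1 (P1 l p) Cl N (b + (1 : ℤ) * (X + (1 : ℤ) * I)))
    (h0 : 1 ≤ (c : ℝ))
    (h1 : 1 ≤ 1 - (a : ℝ) + (b : ℝ))
    (h2 : 1 ≤ 2 * (a : ℝ) - (b : ℝ))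
    (h3 : 0 < -1 + (p : ℝ) - 2 * D)
    (h4 : 0 < 3 - (p : ℝ) + 2 * D)
    (h5 : 0 < 1 + 3 * (J : ℝ) - D)
    (h6 : 1 ≤ 2 * (a : ℝ) - (b : ℝ))
    (h7 : 1 ≤ -2 + (J : ℝ))
    (h8 : 0 < -(b : ℝ) - (X : ℝ) + D - I)
    (h9 : 0 < -(J : ℝ) + I)
    (h10 : 0 < (J : ℝ) - D + I)
    (h11 : 0 < -2 * (X : ℝ) + D - 2 * I) : False := by
  have kz := KF.of hK
  obtain ⟨Ne, Xe, Ie, he⟩ := hA.ecl 1 (by
    intro h
    have h2 := W.ha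
    have h3 := W.h2a
    have h1 := Int.le_of_dvd (by omega) h
    omega)
  exact Helper25.S1T.Ypp_35_P3_m1n0.closed W (G0.of W.toBase hc) (KCl.of hK) kz he
    (kok_Y (R := R) (Or.inl rfl) hM kz.z1 kz.z2 (by simp [xv] <;> ring) (by simp [xv] <;> ring) (by simp [xv] <;> ring))
    h0 h1 h2 h3 h4 h5 h6 h7 h8 h9 h10 h11

theorem a_Ypp_35_P4_m1n0 {p a b c J l q : ℤ} {D dl : ℝ} {Cl : ℤ → ℤ → ℤ → ℤ → ℝ → Prop}
    (W : World p a b c J 1 l q D dl Cl) (hc : -a < c) (hA : Aux p a b 1 D Cl)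
    {N X R : ℤ} {I : ℝ} (hK : KGF p a b 1 D (P1 l p) Cl N X R I)
    (hM : KMY p a b 1 (P1 l p) Cl N (b + (1 : ℤ) * (X + (1 : ℤ) * I)))
    (h0 : 1 ≤ (c : ℝ))
    (h1 : 1 ≤ 1 - (a : ℝ) + (b : ℝ))
    (h2 : 1 ≤ 2 * (a : ℝ) - (b : ℝ))
    (h3 : 0 < -3 + (p : ℝ) - 2 * D)
    (h4 : 1 ≤ 2 * (a : ℝ) - (b : ℝ))
    (h5 : 1 ≤ -2 + (J : ℝ))
    (h6 : 0 < -(b : ℝ) - (X : ℝ) + D - I)
    (h7 : 0 < -(J : ℝ) + I)
    (h8 : 0 < (J : ℝ) - D + I)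
    (h9 : 0 < -2 * (X : ℝ) + D - 2 * I) : False := by
  have kz := KF.of hK
  obtain ⟨Ne, Xe, Ie, he⟩ := hA.ecl 1 (by
    intro h
    have h2 := W.ha
    have h3 := W.h2a
    have h1 := Int.le_of_dvd (by omega) h
    omega)
  exact Helper25.S1T.Ypp_35_P4_m1n0.closed W (G0.of W.toBase hc) (KCl.of hK) kz he
    (kok_Y (R := R) (Or.inl rfl) hM kz.z1 kz.z2 (by simp [xv] <;> ring) (by simp [xv] <;> ring) (by simp [xv] <;> ring))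
    h0 h1 h2 h3 h4 h5 h6 h7 h8 h9

theorem cys_1_1_35 : CYs 1 1 (Q35 1) := by
  intro p a b c J l q D dl Cl W hc h0 h1 N X R I g1 g2 g3 hA hP hN hQ
  have kz := KF.of g1
  have k3 := kz.z1
  have k4 := kz.z2
  have k5 := kz.s1
  have k6 := kz.s2
  have c1 : (1 : ℝ) ≤ c := by exact_mod_cast (by omega : 1 ≤ c)
  have b1 : 1 ≤ 2 * (a : ℝ) - b := by exact_mod_cast (by omega : 1 ≤ 2 * a - b)
  have g4 := g3
  push_cast at g4 k3 k4 k5 k6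
  have hk := KCl.of g1
  have G := G0.of W.toBase hc
  have G1 := G.a2
  have G2 := G.b2
  have G3 := G.pa
  have G4 := G.pb
  have G5 := G.J1
  have G6 := G.JD
  have G7 := G.D2
  have G8 := G.ca
  have G9 := G.ca'
  have i1 := kz.I0
  have i2 := kz.ID
  unfold Q35 at hQ
  have q1 : (a : ℝ) ≤ b := by exact_mod_cast hQ
  rcases lt_or_gt_of_ne (fun h => ne_iJ W hk 0 (by push_cast; linarith) : I ≠ (J : ℝ)) with s1 | s1
  · rcases lt_or_gt_of_ne (fun h => ne_iJD W hk 0 (by push_cast; linarith) : I + (J : ℝ) ≠ D) with s2 | s2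
    · rcases hP with ⟨j1, hL⟩ | ⟨p1, p2⟩
      · have j2 : (J : ℝ) = 1 := by exact_mod_cast j1
        exact a_Ypp_35_L2_m0n1 W hc hA g1 g2 (by linarith) (by linarith) (by linarith) (by linarith) (by linarith) (by linarith) (by linarith) (by linarith) (by linarith) (by linarith)
      · by_cases j1 : J = 1
        · have j2 : (J : ℝ) = 1 := by exact_mod_cast j1
          rw [j2] at p2
          exact a_Ypp_35_P1_m0n1 W hc hA g1 g2 (by linarith) (by linarith) (by linarith) (by linarith) (by linarith) (by linarith) (by linarith) (by linarith) (by linarith) (by linarith)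
        by_cases j3 : J = 2
        · have j2 : (J : ℝ) = 2 := by exact_mod_cast j3
          rw [j2] at p2
          exact a_Ypp_35_P2_m0n1 W hc hA g1 g2 (by linarith) (by linarith) (by linarith) (by linarith) (by linarith) (by linarith) (by linarith) (by linarith) (by linarith) (by linarith) (by linarith)
        have j0 := W.hJ
        have j4 : (3 : ℝ) ≤ J := by exact_mod_cast (by omega : 3 ≤ J)
        rcases lt_or_gt_of_ne (show (p : ℝ) - 2 * D ≠ 3 from fun h => hN (p - 3) (by push_cast; linarith)) with j5 | j5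
        · have j6 : D - 1 < 3 * J := by
            have h := mul_lt_mul_of_pos_left j5 (show (0 : ℝ) < J by linarith)
            linarith
          exact a_Ypp_35_P3_m0n1 W hc hA g1 g2 (by linarith) (by linarith) (by linarith) (by linarith) (by linarith) (by linarith) (by linarith) (by linarith) (by linarith) (by linarith) (by linarith) (by linarith)
        · exact a_Ypp_35_P4_m0n1 W hc hA g1 g2 (by linarith) (by linarith) (by linarith) (by linarith) (by linarith) (by linarith) (by linarith) (by linarith) (by linarith) (by linarith)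
    · rcases hP with ⟨j1, hL⟩ | ⟨p1, p2⟩
      · have j2 : (J : ℝ) = 1 := by exact_mod_cast j1
        exact a_Ypp_35_L2_m0n0 W hc hA g1 g2 (by linarith) (by linarith) (by linarith) (by linarith) (by linarith) (by linarith) (by linarith) (by linarith) (by linarith) (by linarith)
      · by_cases j1 : J = 1
        · have j2 : (J : ℝ) = 1 := by exact_mod_cast j1
          rw [j2] at p2
          exact a_Ypp_35_P1_m0n0 W hc hA g1 g2 (by linarith) (by linarith) (by linarith) (by linarith) (by linarith) (by linarith) (by linarith) (by linarith) (by linarith) (by linarith)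
        by_cases j3 : J = 2
        · have j2 : (J : ℝ) = 2 := by exact_mod_cast j3
          rw [j2] at p2
          exact a_Ypp_35_P2_m0n0 W hc hA g1 g2 (by linarith) (by linarith) (by linarith) (by linarith) (by linarith) (by linarith) (by linarith) (by linarith) (by linarith) (by linarith) (by linarith)
        have j0 := W.hJ
        have j4 : (3 : ℝ) ≤ J := by exact_mod_cast (by omega : 3 ≤ J)
        rcases lt_or_gt_of_ne (show (p : ℝ) - 2 * D ≠ 3 from fun h => hN (p - 3) (by push_cast; linarith)) with j5 | j5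
        · have j6 : D - 1 < 3 * J := by
            have h := mul_lt_mul_of_pos_left j5 (show (0 : ℝ) < J by linarith)
            linarith
          exact a_Ypp_35_P3_m0n0 W hc hA g1 g2 (by linarith) (by linarith) (by linarith) (by linarith) (by linarith) (by linarith) (by linarith) (by linarith) (by linarith) (by linarith) (by linarith) (by linarith)
        · exact a_Ypp_35_P4_m0n0 W hc hA g1 g2 (by linarith) (by linarith) (by linarith) (by linarith) (by linarith) (by linarith) (by linarith) (by linarith) (by linarith) (by linarith)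
  · rcases lt_or_gt_of_ne (fun h => ne_iJD W hk 0 (by push_cast; linarith) : I + (J : ℝ) ≠ D) with s5 | s5
    · rcases hP with ⟨j1, hL⟩ | ⟨p1, p2⟩
      · have j2 : (J : ℝ) = 1 := by exact_mod_cast j1
        by_cases s7 : b ≤ a
        · have r7 : (b : ℝ) ≤ (a : ℝ) := by exact_mod_cast (by omega : b ≤ a)
          by_cases s8 : p ≤ 2 * a + 1
          · have r8 : (p : ℝ) ≤ 2 * (a : ℝ) + 1 := by exact_mod_cast (by omega : p ≤ 2 * a + 1)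
            by_cases s9 : c ≤ 1
            · have r9 : (c : ℝ) ≤ 1 := by exact_mod_cast (by omega : c ≤ 1)
              exact a_Ypp_35_L2_m1n1_K1 W hc hA g1 g2 (by linarith) (by linarith) (by linarith) (by linarith) (by linarith) (by linarith) (by linarith) (by linarith) (by linarith) (by linarith) (by linarith) (by linarith) (by linarith) (by linarith)
            · have r9 : 2 ≤ (c : ℝ) := by exact_mod_cast (by omega : 2 ≤ c)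
              exact a_Ypp_35_L2_m1n1_K2 W hc hA g1 g2 (by linarith) (by linarith) (by linarith) (by linarith) (by linarith) (by linarith) (by linarith) (by linarith) (by linarith) (by linarith) (by linarith) (by linarith) (by linarith) (by linarith)
          · have r8 : 2 * (a : ℝ) + 2 ≤ (p : ℝ) := by exact_mod_cast (by omega : 2 * a + 2 ≤ p)
            exact a_Ypp_35_L2_m1n1_CB W hc hA g1 g2 (by linarith) (by linarith) (by linarith) (by linarith) (by linarith) (by linarith) (by linarith) (by linarith) (by linarith) (by linarith) (by linarith) (by linarith) (by linarith)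
        · have r7 : (a : ℝ) + 1 ≤ (b : ℝ) := by exact_mod_cast (by omega : a + 1 ≤ b)
          exact a_Ypp_35_L2_m1n1_CC W hc hA g1 g2 (by linarith) (by linarith) (by linarith) (by linarith) (by linarith) (by linarith) (by linarith) (by linarith) (by linarith) (by linarith) (by linarith)
      · by_cases j1 : J = 1
        · have j2 : (J : ℝ) = 1 := by exact_mod_cast j1
          rw [j2] at p2
          by_cases s10 : b ≤ a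
          · have r10 : (b : ℝ) ≤ (a : ℝ) := by exact_mod_cast (by omega : b ≤ a)
            by_cases s11 : p ≤ 2 * a + 1
            · have r11 : (p : ℝ) ≤ 2 * (a : ℝ) + 1 := by exact_mod_cast (by omega : p ≤ 2 * a + 1)
              by_cases s12 : c ≤ 1
              · have r12 : (c : ℝ) ≤ 1 := by exact_mod_cast (by omega : c ≤ 1)
                exact a_Ypp_35_P1_m1n1_K1 W hc hA g1 g2 (by linarith) (by linarith) (by linarith) (by linarith) (by linarith) (by linarith) (by linarith) (by linarith) (by linarith) (by linarith) (by linarith) (by linarith) (by linarith) (by linarith)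
              · have r12 : 2 ≤ (c : ℝ) := by exact_mod_cast (by omega : 2 ≤ c)
                exact a_Ypp_35_P1_m1n1_K2 W hc hA g1 g2 (by linarith) (by linarith) (by linarith) (by linarith) (by linarith) (by linarith) (by linarith) (by linarith) (by linarith) (by linarith) (by linarith) (by linarith) (by linarith) (by linarith)
            · have r11 : 2 * (a : ℝ) + 2 ≤ (p : ℝ) := by exact_mod_cast (by omega : 2 * a + 2 ≤ p)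
              exact a_Ypp_35_P1_m1n1_CB W hc hA g1 g2 (by linarith) (by linarith) (by linarith) (by linarith) (by linarith) (by linarith) (by linarith) (by linarith) (by linarith) (by linarith) (by linarith) (by linarith) (by linarith)
          · have r10 : (a : ℝ) + 1 ≤ (b : ℝ) := by exact_mod_cast (by omega : a + 1 ≤ b)
            exact a_Ypp_35_P1_m1n1_CC W hc hA g1 g2 (by linarith) (by linarith) (by linarith) (by linarith) (by linarith) (by linarith) (by linarith) (by linarith) (by linarith) (by linarith) (by linarith)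
        by_cases j3 : J = 2
        · have j2 : (J : ℝ) = 2 := by exact_mod_cast j3
          rw [j2] at p2
          by_cases s13 : b ≤ a
          · have r13 : (b : ℝ) ≤ (a : ℝ) := by exact_mod_cast (by omega : b ≤ a)
            by_cases s14 : p ≤ 2 * a + 1
            · have r14 : (p : ℝ) ≤ 2 * (a : ℝ) + 1 := by exact_mod_cast (by omega : p ≤ 2 * a + 1)
              by_cases s15 : c ≤ 1
              · have r15 : (c : ℝ) ≤ 1 := by exact_mod_cast (by omega : c ≤ 1)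
                exact a_Ypp_35_P2_m1n1_K1 W hc hA g1 g2 (by linarith) (by linarith) (by linarith) (by linarith) (by linarith) (by linarith) (by linarith) (by linarith) (by linarith) (by linarith) (by linarith) (by linarith) (by linarith) (by linarith) (by linarith)
              · have r15 : 2 ≤ (c : ℝ) := by exact_mod_cast (by omega : 2 ≤ c)
                exact a_Ypp_35_P2_m1n1_K2 W hc hA g1 g2 (by linarith) (by linarith) (by linarith) (by linarith) (by linarith) (by linarith) (by linarith) (by linarith) (by linarith) (by linarith) (by linarith) (by linarith) (by linarith) (by linarith) (by linarith)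
            · have r14 : 2 * (a : ℝ) + 2 ≤ (p : ℝ) := by exact_mod_cast (by omega : 2 * a + 2 ≤ p)
              exact a_Ypp_35_P2_m1n1_CB W hc hA g1 g2 (by linarith) (by linarith) (by linarith) (by linarith) (by linarith) (by linarith) (by linarith) (by linarith) (by linarith) (by linarith) (by linarith) (by linarith) (by linarith) (by linarith)
          · have r13 : (a : ℝ) + 1 ≤ (b : ℝ) := by exact_mod_cast (by omega : a + 1 ≤ b)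
            exact a_Ypp_35_P2_m1n1_CC W hc hA g1 g2 (by linarith) (by linarith) (by linarith) (by linarith) (by linarith) (by linarith) (by linarith) (by linarith) (by linarith) (by linarith) (by linarith) (by linarith)
        have j0 := W.hJ
        have j4 : (3 : ℝ) ≤ J := by exact_mod_cast (by omega : 3 ≤ J)
        rcases lt_or_gt_of_ne (show (p : ℝ) - 2 * D ≠ 3 from fun h => hN (p - 3) (by push_cast; linarith)) with j5 | j5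
        · have j6 : D - 1 < 3 * J := by
            have h := mul_lt_mul_of_pos_left j5 (show (0 : ℝ) < J by linarith)
            linarith
          by_cases s16 : b ≤ a
          · have r16 : (b : ℝ) ≤ (a : ℝ) := by exact_mod_cast (by omega : b ≤ a)
            by_cases s17 : p ≤ 2 * a + 1
            · have r17 : (p : ℝ) ≤ 2 * (a : ℝ) + 1 := by exact_mod_cast (by omega : p ≤ 2 * a + 1)
              by_cases s18 : c ≤ 1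
              · have r18 : (c : ℝ) ≤ 1 := by exact_mod_cast (by omega : c ≤ 1)
                exact a_Ypp_35_P3_m1n1_K1 W hc hA g1 g2 (by linarith) (by linarith) (by linarith) (by linarith) (by linarith) (by linarith) (by linarith) (by linarith) (by linarith) (by linarith) (by linarith) (by linarith) (by linarith) (by linarith) (by linarith) (by linarith)
              · have r18 : 2 ≤ (c : ℝ) := by exact_mod_cast (by omega : 2 ≤ c)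
                exact a_Ypp_35_P3_m1n1_K2 W hc hA g1 g2 (by linarith) (by linarith) (by linarith) (by linarith) (by linarith) (by linarith) (by linarith) (by linarith) (by linarith) (by linarith) (by linarith) (by linarith) (by linarith) (by linarith) (by linarith) (by linarith)
            · have r17 : 2 * (a : ℝ) + 2 ≤ (p : ℝ) := by exact_mod_cast (by omega : 2 * a + 2 ≤ p)
              exact a_Ypp_35_P3_m1n1_CB W hc hA g1 g2 (by linarith) (by linarith) (by linarith) (by linarith) (by linarith) (by linarith) (by linarith) (by linarith) (by linarith) (by linarith) (by linarith) (by linarith) (by linarith) (by linarith) (by linarith)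
          · have r16 : (a : ℝ) + 1 ≤ (b : ℝ) := by exact_mod_cast (by omega : a + 1 ≤ b)
            exact a_Ypp_35_P3_m1n1_CC W hc hA g1 g2 (by linarith) (by linarith) (by linarith) (by linarith) (by linarith) (by linarith) (by linarith) (by linarith) (by linarith) (by linarith) (by linarith) (by linarith) (by linarith)
        · by_cases s19 : b ≤ a
          · have r19 : (b : ℝ) ≤ (a : ℝ) := by exact_mod_cast (by omega : b ≤ a)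
            by_cases s20 : p ≤ 2 * a + 1
            · have r20 : (p : ℝ) ≤ 2 * (a : ℝ) + 1 := by exact_mod_cast (by omega : p ≤ 2 * a + 1)
              by_cases s21 : c ≤ 1
              · have r21 : (c : ℝ) ≤ 1 := by exact_mod_cast (by omega : c ≤ 1)
                exact a_Ypp_35_P4_m1n1_K1 W hc hA g1 g2 (by linarith) (by linarith) (by linarith) (by linarith) (by linarith) (by linarith) (by linarith) (by linarith) (by linarith) (by linarith) (by linarith) (by linarith) (by linarith) (by linarith)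
              · have r21 : 2 ≤ (c : ℝ) := by exact_mod_cast (by omega : 2 ≤ c)
                exact a_Ypp_35_P4_m1n1_K2 W hc hA g1 g2 (by linarith) (by linarith) (by linarith) (by linarith) (by linarith) (by linarith) (by linarith) (by linarith) (by linarith) (by linarith) (by linarith) (by linarith) (by linarith) (by linarith)
            · have r20 : 2 * (a : ℝ) + 2 ≤ (p : ℝ) := by exact_mod_cast (by omega : 2 * a + 2 ≤ p)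
              exact a_Ypp_35_P4_m1n1_CB W hc hA g1 g2 (by linarith) (by linarith) (by linarith) (by linarith) (by linarith) (by linarith) (by linarith) (by linarith) (by linarith) (by linarith) (by linarith) (by linarith) (by linarith)
          · have r19 : (a : ℝ) + 1 ≤ (b : ℝ) := by exact_mod_cast (by omega : a + 1 ≤ b)
            exact a_Ypp_35_P4_m1n1_CC W hc hA g1 g2 (by linarith) (by linarith) (by linarith) (by linarith) (by linarith) (by linarith) (by linarith) (by linarith) (by linarith) (by linarith) (by linarith)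
    · rcases hP with ⟨j1, hL⟩ | ⟨p1, p2⟩
      · have j2 : (J : ℝ) = 1 := by exact_mod_cast j1
        exact a_Ypp_35_L2_m1n0 W hc hA g1 g2 (by linarith) (by linarith) (by linarith) (by linarith) (by linarith) (by linarith) (by linarith) (by linarith) (by linarith) (by linarith)
      · by_cases j1 : J = 1
        · have j2 : (J : ℝ) = 1 := by exact_mod_cast j1
          rw [j2] at p2
          exact a_Ypp_35_P1_m1n0 W hc hA g1 g2 (by linarith) (by linarith) (by linarith) (by linarith) (by linarith) (by linarith) (by linarith) (by linarith) (by linarith) (by linarith)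
        by_cases j3 : J = 2
        · have j2 : (J : ℝ) = 2 := by exact_mod_cast j3
          rw [j2] at p2
          exact a_Ypp_35_P2_m1n0 W hc hA g1 g2 (by linarith) (by linarith) (by linarith) (by linarith) (by linarith) (by linarith) (by linarith) (by linarith) (by linarith) (by linarith) (by linarith)
        have j0 := W.hJ
        have j4 : (3 : ℝ) ≤ J := by exact_mod_cast (by omega : 3 ≤ J)
        rcases lt_or_gt_of_ne (show (p : ℝ) - 2 * D ≠ 3 from fun h => hN (p - 3) (by push_cast; linarith)) with j5 | j5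
        · have j6 : D - 1 < 3 * J := by
            have h := mul_lt_mul_of_pos_left j5 (show (0 : ℝ) < J by linarith)
            linarith
          exact a_Ypp_35_P3_m1n0 W hc hA g1 g2 (by linarith) (by linarith) (by linarith) (by linarith) (by linarith) (by linarith) (by linarith) (by linarith) (by linarith) (by linarith) (by linarith) (by linarith)
        · exact a_Ypp_35_P4_m1n0 W hc hA g1 g2 (by linarith) (by linarith) (by linarith) (by linarith) (by linarith) (by linarith) (by linarith) (by linarith) (by linarith) (by linarith)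

end Helper25.S1T
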