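import Pool.Agent.Helper81.PC.C3N
import Pool.Agent.Helper25.KG.C3
import Pool.Agent.Helper25.KG.Cfg3

set_option autoImplicit false
set_option linter.all false

namespace Helper25.S1T.Zmp1Hs_r17

open Helper25.KG Helper11.CT

noncomputable def K : Cls :=
  dK 1

noncomputable def KFs : List KF3 :=
  [(1, (0, 0, -1, [0,0,0,0,0,0,0,0,0,1]) :: (bx3 ++ [(1, 0, 0, []), (0, 0, -2, [0,0,0,0,0,0,0,0,1])])),
    (0, bx3 ++ [(-1, 0, 0, [])]),
    (0, bx3 ++ [(0, 0, -1, [0,0,0,0,0,-1,0,0,1])])]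

noncomputable def base : List Con :=
  [(true,[0,-1,-1,-1,0,0,0,1]),
  (true,[0,0,-1,-1,0,0,0,1]),
  (true,[0,0,0,-1,0,0,0,1]),
  (false,[0,0,0,1,1,0,-1,-1,-1,-1]),
  (false,[0,0,0,0,0,0,1,1,0,1]),
  (false,[0,0,0,2,1,0,0,0,-1]),
  (false,[0,0,0,0,0,0,0,0,1,-2]),
  (false,[0,0,0,0,0,0,1,0,0,1]),
  (false,[0,0,0,0,0,1,0,0,-1,1]),
  (false,[0,0,0,0,0,1,0,0,0,-1]),
  (false,[0,1,0,0,0,0,1,1,0,1]),
  (false,[0,1,0,0,0,0,-1,-1,0,-1]),
  (false,[0,0,1,0,0,0,1,0,0,1]),
  (false,[0,0,1,0,0,0,-1,0,0,-1]),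
  (false,[0,0,0,0,0,0,0,0,1,-1]),
  (false,[0,0,0,0,0,0,0,0,0,1]),
  (false,[0,0,0,0,1,0,0,0,-2]),
  (false,[0,0,0,0,0,-1,0,0,1]),
  (true,[0,0,0,0,0,1]),
  (true,[0,2,-1]),
  (false,[0,0,-2,0,0,0,0,0,1]),
  (true,[0,1,-1,1]),
  (true,[0,1,0,1]),
  (true,[0,0,0,-1]),
  (true,[0,0,-2,0,1]),
  (true,[0,-2,0,0,1]),
  (true,[-1,0,1]),
  (true,[-1,1])]

noncomputable def l0 : List Con := (false, [0,0,0,1,0,0,1,2,-1,1]) :: base

noncomputable def r0 : List Con := (false, [0,0,0,-1,0,0,-1,-2,1,-1]) :: base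

noncomputable def l1 : List Con := (true, [0,1,2,1,0,0,0,-1]) :: r0

noncomputable def r1 : List Con := (true, [1,-1,-2,-1,0,0,0,1]) :: r0

noncomputable def l2 : List Con := (true, [0,-1,1,0,0,0,0,2]) :: r1

noncomputable def r2 : List Con := (true, [1,1,-1,0,0,0,0,-2]) :: r1

noncomputable def l3 : List Con := (false, [0,0,1,0,0,0,-2,0,0,-2]) :: l2

noncomputable def r3 : List Con := (false, [0,0,-1,0,0,0,2,0,0,2]) :: l2

noncomputable def l4 : List Con := (true, [1,1,0,0,0,0,0,-2]) :: r3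

noncomputable def r4 : List Con := (true, [0,-1,0,0,0,0,0,2]) :: r3

noncomputable def l5 : List Con := (false, [0,0,-1,0,1,0,1,0,-2,1]) :: r4

noncomputable def r5 : List Con := (false, [0,0,1,0,-1,0,-1,0,2,-1]) :: r4

noncomputable def l6 : List Con := (true, [1,1,0,0,-1,0,0,2]) :: l5

noncomputable def r6 : List Con := (true, [0,-1,0,0,1,0,0,-2]) :: l5

noncomputable def l7 : List Con := (false, [0,1,0,0,0,0,1,1,-1,1]) :: r6

noncomputable def r7 : List Con := (false, [0,-1,0,0,0,0,-1,-1,1,-1]) :: r6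

def HH (Q : List Con) : Prop := Q = r7

open Helper55.PC in
noncomputable def t0n : Helper55.PC.Ten :=
  (i 324637400738491769642405131845672 (r
  346293098612685185165765136878006483093473795419905295990879611172031709486575257841123581651218497454038534009281468425663760363907305690243510724991636522256101627887509340929718730129267012575617773758589500736630538697658243768889213271746846031522173625323682119741383706785912810474287771156208957411330058318112973646973376834832010160991245269001301903321410748390126416753519024022894697362198093613130174752730313756532673880031070502555554215507860119958406585953627744744877397677728879281364303442878656)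
  (q 822753848343106776540508036834803443523051601305147843391913994 (r
  8368689538017212635160246338278594156371207685745205243585215109464329916524216567785833739372617099152321781323766141754533385513905607515005226791517426734293980109216691041302936962167512027121319666373701126027666353946433608531699921563562677607875184322789610446649988082299879108766273733700056668647867635643981014878009591183402124041207502311907872508748518597301633650348071557535321902323227524780881925918291926633230385138258292876605214191171691373722795385471469891124862315958808128102531209660603327936329725379137544528240880743688941788530338756540462491729235064711815872)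
  (r
  25252299769958930445876257388953958331077692322798667522829831353197170557988212644524906124412988204704813362330761978063987601408425114448131056223107065225324601094572992815643483572076644479684448019765755406010775217416633637001820109028061570124092050318478824007279714542650980506740686441128398392605141448235180027531346364490774512890839433187752419237607743828742232584641657809502328450291686771321814110890269495394560854551048870661022278257358224287179086880427807820193908452939083335251129514336448)))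

noncomputable def t0 : Tre := Helper55.PC.toT t0n

theorem ok0 : chk3 K KFs t0 l0 = true :=
  Helper81.PC.chk3N_sound K KFs t0n l0 (by decide +kernel)

open Helper55.PC in
noncomputable def t1n : Helper55.PC.Ten :=
  (q 190310890042104825079960630884517311021065 (r
  1703685227285654816286810965022693071985644546005382665646638333990361417841658272272516809839280777419377188004875747426420193946213215422603848625397126980568856184852281209017994463187546271794473712058113325788647629447870765185782773347944842940453310427944166027057693796179957720271828586516249615878412999259846623899889471340565975502824875998965756858565713112689191818114125007197295411325873808371123673301911563115291222752)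
  (r
  399281758805099360264308682627806221325137647871956315512427269958172225165156359854831989723892685663288811786978905360343883307299696493210210147658286862653667339146170182579721947118533084167073036200616252797170747312166258579026735376963158232120028704081727959688997568400517671699729943324941536242495562796746863724100060073116706974247594134883095434825348832114792287516237423089501575975953008972281466700559600380067824415777874904847365724964739381321132218825101938353694884783492923335527851305269970171338106182836416))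

noncomputable def t1 : Tre := Helper55.PC.toT t1n

theorem ok1 : chk3 K KFs t1 l1 = true :=
  Helper81.PC.chk3N_sound K KFs t1n l1 (by decide +kernel)

noncomputable def t2 : Tre :=
  (.R ⟨0,false,false,true,[1,0,-2],[1,0,-1],[0,0,0,-1,0,0,0,-2],(⟨0,[(10,0)]⟩,⟨0,[(19,1)]⟩),(⟨0,
  [(18,0)]⟩,⟨0,[(19,0)]⟩),⟨0,[(12,0),(6,0)]⟩,.k,.k,(.r (-1) ⟨1,[(3,1),(7,1),(8,0),(7,0)]⟩ ⟨0,[(1,0),
  (24,0)]⟩),.k,.k,.k,⟨false,1,⟨9,[(2,1),(0,5),(7,5),(8,2),(6,1),(0,2),(0,3)]⟩,⟨3,[(1,1),(21,0),(1,
  0),(0,2)]⟩⟩,⟨true,0,⟨0,[(11,0)]⟩,⟨0,[(17,0)]⟩⟩,⟨true,0,⟨0,[(27,0)]⟩,⟨0,[(26,0)]⟩⟩,⟨false,0,⟨0,[(8,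
  0)]⟩,⟨10,[(0,1),(2,3),(3,3),(6,0),(13,0),(0,5)]⟩⟩,⟨false,0,⟨0,[]⟩,⟨0,[]⟩⟩,⟨false,0,⟨0,[]⟩,⟨0,[]⟩⟩,
  [.o ⟨false,0,⟨0,[(15,0)]⟩,⟨1,[(8,1),(11,0),(8,0)]⟩⟩,.e ⟨false,1,⟨3,[(2,1),(0,3),(3,1),(3,5),(8,0),
  (8,0)]⟩,⟨1,[(1,1),(21,0),(1,0),(0,0)]⟩⟩ ⟨false,1,⟨2,[(3,0),(3,0),(3,3),(4,0),(11,1)]⟩,⟨25,[(0,12),
  (0,9),(0,5),(20,4),(1,5)]⟩⟩,.a ⟨true,0,⟨1,[(0,1),(20,0),(0,0),(1,0)]⟩,⟨0,[(11,1)]⟩⟩ ⟨false,1,⟨1,
  [(3,1),(7,1),(8,0),(8,0)]⟩,⟨0,[(1,0),(23,0)]⟩⟩ ⟨true,0,⟨0,[(11,1),(3,0)]⟩,⟨25,[(0,12),(0,9),(0,5),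
  (20,4),(1,5)]⟩⟩,.o ⟨false,0,⟨0,[(0,0)]⟩,⟨1,[(11,3),(8,0),(7,0)]⟩⟩]⟩)

theorem ok2 : chk3 K KFs t2 l3 = true := by decide +kernel

open Helper55.PC in
noncomputable def t3n : Helper55.PC.Ten :=
  (q 190310890042104825079960630884517311021065 (r
  530804647301317241084761426912154519195618677448635650562433333716869405819912042899448182624613731895865695116207378886354779694204854948781525162585589389957959884298321454401757372659461768379561602209752772299563663713095623292020594190374387533380951233833795375012835980797846649560266503388829783300137686019245884878229892065074991737851874743988685955066185980068736071915120395287504188957875269604453909627692602353780891636245006677852771538520357150878167488031610667503153718457726311601191473369244791896168625897724524448705644865581707161654151292935872)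
  (r
  15989341667180511931727009155843814515652362371316005670490470827368824823960891247800529027517570262044835308802766423828193673376453104881929132296044450380982370437802202121371335575967555827736843980106580443478530610422167285478542446094428271120874059581785650520297723832456884167935112767223392202516897835088754446568494686243925013147896986015265235179513718755053545535517134208647190954790207972187037634274205463743117181891628993923869070505208286044440284166408052842248463660035789444256339865579863330867840953841484589597743741700865055725611552288313199595941080898815010359372668505694400))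

noncomputable def t3 : Tre := Helper55.PC.toT t3n

theorem ok3 : chk3 K KFs t3 l4 = true :=
  Helper81.PC.chk3N_sound K KFs t3n l4 (by decide +kernel)

open Helper55.PC in
noncomputable def t4n : Helper55.PC.Ten :=
  (q 1079863935544271434757369538668635321422721985280608688813244426 (r
  85218465342958266534551521279240973045064186191102352578916529767237726471144156062294477340823397186814610322963603481321065650635888062351325276178175724926157380965524020110981063035430996894877454762419967122519182301527260235210771245782660882616269684989278736066372777128612458966714184327049712307152789397752274701796271060330428104262772994288837243644586675698702349088788877913816419636930811208762890361678832842057489856491212938945228385474964321956392961955017060300326334501846279477469937176789962025869504)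
  (r
  1759099401394373341780230757985819081362174444882578885245914996208226369379376086163638149370057065443038052321621023042830025396558399001347169282769183063652479464618934108705469954069871373825932742096116323625226869218569674570696337476986188897838728980104187890401974863257634384750576941730189005821387206604381168375407661635250833961741612987449960550214582566179782996530186727065547501071248809363650550889027399384894830207538553355222947372748052110994818393769532936047053941050953897487856936708090448119771992214847950908653370617778783081129503887645196363801112255185909411750080))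

noncomputable def t4 : Tre := Helper55.PC.toT t4n

theorem ok4 : chk3 K KFs t4 l6 = true :=
  Helper81.PC.chk3N_sound K KFs t4n l6 (by decide +kernel)

noncomputable def t5 : Tre :=
  (.R ⟨0,false,false,false,[1,0,-2],[1,0,-1],[1,1],(⟨0,[(14,0)]⟩,⟨0,[(23,1)]⟩),(⟨0,[(22,0)]⟩,⟨0,
  [(23,0)]⟩),⟨0,[(16,0),(6,0)]⟩,.k,.k,(.r (-1) ⟨18,[(1,5),(0,7),(1,0),(2,15),(10,5),(12,2),(0,4)]⟩
  ⟨0,[(5,0),(24,0)]⟩),.k,.k,.k,⟨false,0,⟨10,[(3,4),(2,0),(20,7),(1,0)]⟩,⟨9,[(1,5),(16,1),(2,1),(10,
  0),(0,2)]⟩⟩,⟨true,0,⟨0,[(15,0)]⟩,⟨0,[(21,0)]⟩⟩,⟨false,0,⟨1,[(3,0),(1,0),(21,0)]⟩,⟨0,[(1,0)]⟩⟩,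
  ⟨true,0,⟨0,[(12,0)]⟩,⟨0,[(19,0)]⟩⟩,⟨false,0,⟨0,[]⟩,⟨0,[]⟩⟩,⟨false,0,⟨0,[]⟩,⟨0,[]⟩⟩,[.e ⟨false,0,
  ⟨11,[(4,0),(1,1),(12,1),(7,4),(1,1)]⟩,⟨4,[(1,0),(16,1),(2,1),(10,0),(0,2)]⟩⟩ ⟨false,1,⟨6,[(1,4),
  (2,1),(13,2),(8,0),(4,1)]⟩,⟨0,[(3,0),(15,0)]⟩⟩,.o ⟨false,1,⟨5,[(7,1),(3,1),(9,1),(10,0),(0,2)]⟩,
  ⟨0,[(0,0)]⟩⟩,.e ⟨false,0,⟨0,[]⟩,⟨4,[(1,0),(16,1),(2,1),(10,0),(0,2)]⟩⟩ ⟨false,1,⟨8,[(1,5),(2,1),
  (13,2),(1,1),(12,2)]⟩,⟨0,[(3,0),(15,0)]⟩⟩,.a ⟨true,0,⟨1,[(21,3),(3,0),(0,0),(1,0)]⟩,⟨0,[(4,0)]⟩⟩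
  ⟨true,0,⟨11,[(4,0),(1,1),(12,1),(7,4),(1,1)]⟩,⟨1,[(20,0),(0,0)]⟩⟩ ⟨false,1,⟨3,[(1,1),(2,1),(27,0),
  (0,0)]⟩,⟨3,[(3,0),(1,0),(15,3),(5,0)]⟩⟩]⟩)

theorem ok5 : chk3 K KFs t5 l7 = true := by decide +kernel

noncomputable def t6 : Tre :=
  (.R ⟨0,false,false,true,[-1,1,1],[0,1],[1,1,1,1],(⟨0,[(14,0)]⟩,⟨0,[(20,0),(2,0)]⟩),(⟨0,[(24,0)]⟩,
  ⟨0,[(23,0)]⟩),⟨0,[(20,0)]⟩,.k,.k,.k,.k,.k,.k,⟨true,0,⟨0,[]⟩,⟨1,[(18,0),(0,0)]⟩⟩,⟨false,0,⟨0,[(19,
  0),(6,0)]⟩,⟨1,[(18,1),(3,0),(7,0)]⟩⟩,⟨true,0,⟨2,[(2,0),(14,2),(0,0)]⟩,⟨3,[(1,0),(1,0),(21,0)]⟩⟩,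
  ⟨false,0,⟨9,[(0,3),(4,3),(3,1),(1,0),(14,0),(3,0)]⟩,⟨5,[(2,1),(0,1),(12,1),(5,2),(8,2)]⟩⟩,⟨false,
  0,⟨0,[]⟩,⟨0,[]⟩⟩,⟨false,0,⟨0,[]⟩,⟨0,[]⟩⟩,[.e ⟨false,0,⟨0,[(28,0)]⟩,⟨1,[(29,1),(0,0),(0,0)]⟩⟩
  ⟨false,0,⟨3,[(0,2),(10,1),(7,0),(5,1),(4,0)]⟩,⟨21,[(2,11),(1,3),(0,1),(16,11),(6,15),(0,0),(0,
  8)]⟩⟩,.o ⟨false,1,⟨5,[(9,1),(1,1),(4,1),(5,0),(8,0)]⟩,⟨0,[(29,0)]⟩⟩,.a ⟨true,1,⟨5,[(2,1),(15,1),
  (3,2),(7,2)]⟩,⟨0,[(0,0)]⟩⟩ ⟨true,0,⟨1,[(18,0),(0,0),(8,1)]⟩,⟨4,[(2,0),(1,1),(12,1),(11,2)]⟩⟩
  ⟨false,0,⟨5,[(0,4),(8,1),(1,1),(4,1),(2,0),(11,0)]⟩,⟨21,[(2,11),(1,3),(0,1),(16,11),(6,15),(0,0),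
  (0,8)]⟩⟩,.o ⟨false,1,⟨2,[(2,0),(15,0),(3,2)]⟩,⟨1,[(0,0),(18,0),(10,0)]⟩⟩]⟩)

theorem ok6 : chk3 K KFs t6 r5 = true := by decide +kernel

open Helper55.PC in
noncomputable def t7n : Helper55.PC.Ten :=
  (q
  105943547311147551546584665809782050176730442540263604389305085010146941634913348595275153977387485428339946606873293544342120810793783429038090
  (r
  820188186583045940685917982582296628042377523876615015904222585042916493562299897419913478834107849096687070180161081647823130574464796671501343970122194632012493512027663221919556155613588938538121239193061075063801329985457456370735606525353979736207361412225340895254627853249334320278224939008819165413591429035484579861616588011817456807757807277898766008815553534568911694292035838602504288045453829980593704752488574772345540344283272468585484517066428477797265679368933441913061160510410203328)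
  (r
  1541197436536870014014086184625910611551282362589764119974070793182176915127797083701007705942670109034805767881177046313764052839390494510818217082879327182470965470803968303691940478049765857619071909680250452866901027788480464508262254173374967234917467563589909704379392772993180790865375348070057225907725344823860389105147226768071838331126308030454383742291943293770248326062482930388885702975347653575930068878655005337545270877744740257624602526054472772683953685617530755653160307561811654765862200000))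

noncomputable def t7 : Tre := Helper55.PC.toT t7n

theorem ok7 : chk3 K KFs t7 r2 = true :=
  Helper81.PC.chk3N_sound K KFs t7n r2 (by decide +kernel)

theorem cl0 : Clo3 K KFs HH r6 :=
  .q [0,1,0,0,0,0,1,1,-1,1] (e' := [0,-1,0,0,0,0,-1,-1,1,-1]) (.p true [0,0,1] [1] (⟨0,[(22,0)]⟩,⟨0,
  [(21,0)]⟩) .k 1 (⟨0,[]⟩,⟨0,[]⟩) .k .k) (by decide +kernel) (by decide +kernel) (.t t5 ok5) (.h
  (rfl))

theorem cl1 : Clo3 K KFs HH l5 :=
  .i [1,1,0,0,-1,0,0,2] (e' := [0,-1,0,0,1,0,0,-2]) (by decide +kernel) (by decide +kernel) (.t t4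
  ok4) cl0

theorem cl2 : Clo3 K KFs HH r4 :=
  .q [0,0,-1,0,1,0,1,0,-2,1] (e' := [0,0,1,0,-1,0,-1,0,2,-1]) (.p true [-1,1,1] [1] (⟨0,[(13,0)]⟩,
  ⟨0,[(19,0),(2,0)]⟩) .k 1 (⟨0,[]⟩,⟨0,[]⟩) .k .k) (by decide +kernel) (by decide +kernel) cl1 (.t
  t6 ok6)

theorem cl3 : Clo3 K KFs HH r3 :=
  .i [1,1,0,0,0,0,0,-2] (e' := [0,-1,0,0,0,0,0,2]) (by decide +kernel) (by decide +kernel) (.t t3
  ok3) cl2

theorem cl4 : Clo3 K KFs HH l2 :=
  .q [0,0,1,0,0,0,-2,0,0,-2] (e' := [0,0,-1,0,0,0,2,0,0,2]) (.p false [0,0,2] [] (⟨0,[(18,1)]⟩,⟨0,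
  [(9,0)]⟩) .k 0 (⟨0,[]⟩,⟨0,[]⟩) .k (.r 0 ⟨12,[(0,11),(0,1),(20,5),(1,1)]⟩ ⟨2,[(2,1),(3,1),(3,1),(4,
  1),(11,0)]⟩)) (by decide +kernel) (by decide +kernel) (.t t2 ok2) cl3

theorem cl5 : Clo3 K KFs HH r1 :=
  .i [0,-1,1,0,0,0,0,2] (e' := [1,1,-1,0,0,0,0,-2]) (by decide +kernel) (by decide +kernel) cl4 (.t
  t7 ok7)

theorem cl6 : Clo3 K KFs HH r0 :=
  .i [0,1,2,1,0,0,0,-1] (e' := [1,-1,-2,-1,0,0,0,1]) (by decide +kernel) (by decide +kernel) (.t t1
  ok1) cl5

theorem cl7 : Clo3 K KFs HH base :=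
  .q [0,0,0,1,0,0,1,2,-1,1] (e' := [0,0,0,-1,0,0,-1,-2,1,-1]) (.p true [0,0,1] [1] (⟨0,[(15,0)]⟩,⟨0,
  [(14,0)]⟩) .k 1 (⟨0,[]⟩,⟨0,[]⟩) .k .k) (by decide +kernel) (by decide +kernel) (.t t0 ok0) cl6

open Helper25.KW Helper55.KE in
theorem closed {p a b c J l q : ℤ} {D dl : ℝ} {Cl : ℤ → ℤ → ℤ → ℤ → ℝ → Prop}
    (W : World p a b c J 1 l q D dl Cl) (g : G0 p a b c J D)
    {N X R : ℤ} {I : ℝ} (hk : KCl p l Cl N X R I) (kz : KF a b D (X + (1 : ℤ) * I) (X + (1 : ℤ) * I + R) I)
    (hE : KZ p a b l 1 Cl (fun X R I => Zp 1 X R I) N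
      (fun _ _ I => I) I)
    (hN0 : KNo p a b l 1 Cl (fun X R I => Zx 1 X R I))
    (hN1 : KNo p a b l 1 Cl (fun X R I => ZiD D J X R I))
    (h0 : 1 ≤ -(c : ℝ))
    (h1 : 1 ≤ (a : ℝ) - (b : ℝ) + (c : ℝ))
    (h2 : 0 < -2 * (b : ℝ) + D)
    (h3 : 1 ≤ 2 * (a : ℝ) - (b : ℝ))
    (h4 : 0 < (J : ℝ) - I)
    (h5 : 0 < (J : ℝ) - D + I)
    (h6 : 0 < (X : ℝ) + I)
    (h7 : 0 < D - 2 * I)
    (h8 : 0 < 2 * (c : ℝ) + (p : ℝ) - D)
    (h9 : 0 < (X : ℝ) + (R : ℝ) + I)
    (h10 : 0 < (c : ℝ) + (p : ℝ) - (X : ℝ) - (R : ℝ) - D - I)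
    (h11 : 1 ≤ -(c : ℝ) + (R : ℝ))
    (h12 : 1 ≤ -(b : ℝ) - (c : ℝ) + (R : ℝ))
    (h13 : 1 ≤ -(a : ℝ) - (b : ℝ) - (c : ℝ) + (R : ℝ))
    (H0 : 0 < -(c : ℝ) - (X : ℝ) - 2 * (R : ℝ) + D - I → 1 ≤ 1 - (a : ℝ) - 2 * (b : ℝ) - (c : ℝ) + (R : ℝ) → 1 ≤ -(a : ℝ) + (b : ℝ) + 2 * (R : ℝ) → 0 < -(b : ℝ) + 2 * (X : ℝ) + 2 * I → 1 ≤ -(a : ℝ) + 2 * (R : ℝ) → 0 < -(b : ℝ) + (p : ℝ) + (X : ℝ) - 2 * D + I → 1 ≤ -(a : ℝ) + (p : ℝ) - 2 * (R : ℝ) → 0 < -(a : ℝ) - (X : ℝ) - (R : ℝ) + D - I → False) : False := by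
  have g1 := g.a2
  have g2 := g.b2
  have g3 := g.pa
  have g4 := g.pb
  have g5 := g.J1
  have g6 := g.JD
  have g7 := g.D2
  have g8 := g.ca
  have g9 := g.ca'
  have k1 := kz.I0
  have k2 := kz.ID
  have k3 := kz.z1
  have k4 := kz.z2
  have k5 := kz.s1
  have k6 := kz.s2
  have hkf : ∀ kf ∈ KFs, KOk3 p l Cl 1 (xv [1, a, b, c, p, J, X, R] [D, I]) N kf := by
    have hA1 : evg (xv [1, a, b, c, p, J, X, R] [D, I]) [0, 1] = a := by
      simp only [evg_cons, evg_nil, xv, List.map_cons, List.map_nil, List.cons_append, List.nil_append]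
      push_cast
      ring
    have hB1 : evg (xv [1, a, b, c, p, J, X, R] [D, I]) [0, 0, 1] = b := by
      simp only [evg_cons, evg_nil, xv, List.map_cons, List.map_nil, List.cons_append, List.nil_append]
      push_cast
      ring
    simp only [KFs, List.forall_mem_cons]
    refine ⟨kok3_ex hA1 hB1 hE ?_ ?_, kok3_no hA1 hB1 N hN0 ?_, kok3_no hA1 hB1 N hN1 ?_, fun _ h => absurd h (by simp)⟩
    · intro X' R' I' hg
      simp only [evg_cons, evg_nil, xv, List.map_cons, List.map_nil, List.cons_append, List.nil_append] at hg ⊢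
      push_cast at hg ⊢
      linarith
    · intro X' R' I' _ hg
      simp only [List.forall_mem_cons, List.not_mem_nil, false_imp_iff, implies_true, and_true,
        evg_cons, evg_nil, xv, List.map_cons, List.map_nil, List.cons_append, List.nil_append] at hg
      push_cast at hg
      simp only [Zx, Zp, Zs, Zsp, Zi, ZiD, Zy]
      push_cast
      linarith [hg.1, hg.2]
    · intro X' R' I' _ hg
      simp only [List.forall_mem_cons, List.not_mem_nil, false_imp_iff, implies_true, and_true,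
        evg_cons, evg_nil, xv, List.map_cons, List.map_nil, List.cons_append, List.nil_append] at hg
      push_cast at hg
      simp only [Zx, Zp, Zs, Zsp, Zi, ZiD, Zy]
      push_cast
      linarith
    · intro X' R' I' _ hg
      simp only [List.forall_mem_cons, List.not_mem_nil, false_imp_iff, implies_true, and_true,
        evg_cons, evg_nil, xv, List.map_cons, List.map_nil, List.cons_append, List.nil_append] at hg
      push_cast at hg
      simp only [Zx, Zp, Zs, Zsp, Zi, ZiD, Zy]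
      push_cast
      linarith
  push_cast at *
  refine closed3 (val_K W.toBase hk []) W rfl (Nk := N)
    (fun kf _ _ => ⟨_, rfl⟩) hkf (H := HH) ?_ cl7 ?_
  · rintro Q rfl hQ
    · simp only [r7, r6, l5, r4, r3, l2, r1, r0, List.forall_mem_cons, hld, xv, evg_cons, evg_nil, List.map_cons,
        List.map_nil, List.cons_append, List.nil_append, if_true, if_false, Bool.false_eq_true] at hQ
      push_cast at hQ
      obtain ⟨p7, p6, p5, p4, p3, p2, p1, p0, -⟩ := hQ
      exact H0 (by linarith) (by linarith) (by linarith) (by linarith) (by linarith) (by linarith) (by linarith) (by linarith)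
  · simp only [base, List.forall_mem_cons, List.not_mem_nil, false_imp_iff, implies_true,
      and_true, hld, xv, evg_cons, evg_nil, List.map_cons, List.map_nil, List.cons_append,
      List.nil_append, if_true, if_false, Bool.false_eq_true]
    push_cast
    refine ⟨?_, ?_, ?_, ?_, ?_, ?_, ?_, ?_, ?_, ?_, ?_, ?_, ?_, ?_, ?_, ?_, ?_, ?_, ?_, ?_, ?_, ?_, ?_, ?_, ?_, ?_, ?_, ?_⟩ <;> linarith

end Helper25.S1T.Zmp1Hs_r17
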