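import Pool.Agent.Helper25.S1T.Zmp1Hs_r1
import Pool.Agent.Helper25.S1T.Zmp1Hs_r3
import Pool.Agent.Helper25.S1T.Zmp1Hs_r7
import Pool.Agent.Helper25.S1T.Zmp1Hs_r12
import Pool.Agent.Helper25.S1T.Zmp1Hs_r17
import Pool.Agent.Helper25.S1T.Zmp1Hs_r33
import Pool.Agent.Helper25.KW.S1K2

set_option autoImplicit false
set_option linter.all false

namespace Helper25.S1T

open Helper25.KG Helper25.KW Helper55.KE Helper11.CT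

theorem g_Zmp1Hs_r3 {p a b c J l q : ℤ} {D dl : ℝ} {Cl : ℤ → ℤ → ℤ → ℤ → ℝ → Prop}
    (W : World p a b c J 1 l q D dl Cl) (hc : -a < c) (hA : Aux p a b 1 D Cl)
    {N X R : ℤ} {I : ℝ} (hK : KGF p a b 1 D (P1 l p) Cl N X R I)
    (hE : KZ p a b l 1 Cl (fun X R I => Zp 1 X R I) N
      (fun _ _ I => I) I)
    (hN0 : KNo p a b l 1 Cl (fun X R I => Zx 1 X R I))
    (hN1 : KNo p a b l 1 Cl (fun X R I => ZiD D J X R I))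
    (h0 : 1 ≤ -(c : ℝ))
    (h1 : 1 ≤ (a : ℝ) - (b : ℝ) + (c : ℝ))
    (h2 : 0 < -2 * (b : ℝ) + D)
    (h3 : 1 ≤ 2 * (a : ℝ) - (b : ℝ))
    (h4 : 0 < (J : ℝ) - I)
    (h5 : 0 < (J : ℝ) - D + I)
    (h6 : 0 < (X : ℝ) + I)
    (h7 : 0 < D - 2 * I)
    (h8 : 0 < 2 * (c : ℝ) + (p : ℝ) - D)
    (h9 : 0 < -(X : ℝ) - (R : ℝ) - I)
    (h10 : 1 ≤ (a : ℝ) - (c : ℝ) + (R : ℝ))
    (h11 : 1 ≤ 1 + (c : ℝ) - (R : ℝ))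
    (h12 : 0 < (a : ℝ) + (c : ℝ) - D) : False := by
  have kz := KF.of hK
  refine Helper25.S1T.Zmp1Hs_r3.closed W (G0.of W.toBase hc) (KCl.of hK) kz hE hN0 hN1
    h0 h1 h2 h3 h4 h5 h6 h7 h8 h9 h10 h11 h12

theorem g_Zmp1Hs_r7 {p a b c J l q : ℤ} {D dl : ℝ} {Cl : ℤ → ℤ → ℤ → ℤ → ℝ → Prop}
    (W : World p a b c J 1 l q D dl Cl) (hc : -a < c) (hA : Aux p a b 1 D Cl)
    {N X R : ℤ} {I : ℝ} (hK : KGF p a b 1 D (P1 l p) Cl N X R I)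
    (hE : KZ p a b l 1 Cl (fun X R I => Zp 1 X R I) N
      (fun _ _ I => I) I)
    (hN0 : KNo p a b l 1 Cl (fun X R I => Zx 1 X R I))
    (hN1 : KNo p a b l 1 Cl (fun X R I => ZiD D J X R I))
    (h0 : 1 ≤ -(c : ℝ))
    (h1 : 1 ≤ (a : ℝ) - (b : ℝ) + (c : ℝ))
    (h2 : 0 < -2 * (b : ℝ) + D)
    (h3 : 1 ≤ 2 * (a : ℝ) - (b : ℝ))
    (h4 : 0 < (J : ℝ) - I)
    (h5 : 0 < (J : ℝ) - D + I)
    (h6 : 0 < (X : ℝ) + I)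
    (h7 : 0 < D - 2 * I)
    (h8 : 0 < 2 * (c : ℝ) + (p : ℝ) - D)
    (h9 : 0 < -(X : ℝ) - (R : ℝ) - I)
    (h10 : 1 ≤ (a : ℝ) - (c : ℝ) + (R : ℝ))
    (h11 : 1 ≤ -(c : ℝ) + (R : ℝ)) : False := by
  have kz := KF.of hK
  refine Helper25.S1T.Zmp1Hs_r7.closed W (G0.of W.toBase hc) (KCl.of hK) kz hE hN0 hN1
    h0 h1 h2 h3 h4 h5 h6 h7 h8 h9 h10 h11

theorem g_Zmp1Hs_r12 {p a b c J l q : ℤ} {D dl : ℝ} {Cl : ℤ → ℤ → ℤ → ℤ → ℝ → Prop}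
    (W : World p a b c J 1 l q D dl Cl) (hc : -a < c) (hA : Aux p a b 1 D Cl)
    {N X R : ℤ} {I : ℝ} (hK : KGF p a b 1 D (P1 l p) Cl N X R I)
    (hE : KZ p a b l 1 Cl (fun X R I => Zp 1 X R I) N
      (fun _ _ I => I) I)
    (hN0 : KNo p a b l 1 Cl (fun X R I => Zx 1 X R I))
    (hN1 : KNo p a b l 1 Cl (fun X R I => ZiD D J X R I))
    (h0 : 1 ≤ -(c : ℝ))
    (h1 : 1 ≤ (a : ℝ) - (b : ℝ) + (c : ℝ))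
    (h2 : 0 < -2 * (b : ℝ) + D)
    (h3 : 1 ≤ 2 * (a : ℝ) - (b : ℝ))
    (h4 : 0 < (J : ℝ) - I)
    (h5 : 0 < (J : ℝ) - D + I)
    (h6 : 0 < (X : ℝ) + I)
    (h7 : 0 < D - 2 * I)
    (h8 : 0 < 2 * (c : ℝ) + (p : ℝ) - D)
    (h9 : 0 < (X : ℝ) + (R : ℝ) + I)
    (h10 : 0 < (c : ℝ) + (p : ℝ) - (X : ℝ) - (R : ℝ) - D - I)
    (h11 : 1 ≤ -(c : ℝ) + (R : ℝ))
    (h12 : 1 ≤ -(b : ℝ) - (c : ℝ) + (R : ℝ))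
    (h13 : 1 ≤ 1 + (a : ℝ) + (b : ℝ) + (c : ℝ) - (R : ℝ)) : False := by
  have kz := KF.of hK
  refine Helper25.S1T.Zmp1Hs_r12.closed W (G0.of W.toBase hc) (KCl.of hK) kz hE hN0 hN1
    h0 h1 h2 h3 h4 h5 h6 h7 h8 h9 h10 h11 h12 h13

theorem g_Zmp1Hs_r33 {p a b c J l q : ℤ} {D dl : ℝ} {Cl : ℤ → ℤ → ℤ → ℤ → ℝ → Prop}
    (W : World p a b c J 1 l q D dl Cl) (hc : -a < c) (hA : Aux p a b 1 D Cl)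
    {N X R : ℤ} {I : ℝ} (hK : KGF p a b 1 D (P1 l p) Cl N X R I)
    (hE : KZ p a b l 1 Cl (fun X R I => Zp 1 X R I) N
      (fun _ _ I => I) I)
    (hN0 : KNo p a b l 1 Cl (fun X R I => Zx 1 X R I))
    (hN1 : KNo p a b l 1 Cl (fun X R I => ZiD D J X R I))
    (h0 : 1 ≤ -(c : ℝ))
    (h1 : 1 ≤ (a : ℝ) - (b : ℝ) + (c : ℝ))
    (h2 : 0 < -2 * (b : ℝ) + D)
    (h3 : 1 ≤ 2 * (a : ℝ) - (b : ℝ))
    (h4 : 0 < (J : ℝ) - I)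
    (h5 : 0 < (J : ℝ) - D + I)
    (h6 : 0 < (X : ℝ) + I)
    (h7 : 0 < D - 2 * I)
    (h8 : 0 < 2 * (c : ℝ) + (p : ℝ) - D)
    (h9 : 0 < (X : ℝ) + (R : ℝ) + I)
    (h10 : 0 < (c : ℝ) + (p : ℝ) - (X : ℝ) - (R : ℝ) - D - I)
    (h11 : 1 ≤ -(c : ℝ) + (R : ℝ))
    (h12 : 1 ≤ -(b : ℝ) - (c : ℝ) + (R : ℝ))
    (h13 : 1 ≤ -(a : ℝ) - (b : ℝ) - (c : ℝ) + (R : ℝ))
    (h14 : 0 < -(c : ℝ) - (X : ℝ) - 2 * (R : ℝ) + D - I)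
    (h15 : 1 ≤ 1 - (a : ℝ) - 2 * (b : ℝ) - (c : ℝ) + (R : ℝ))
    (h16 : 1 ≤ -(a : ℝ) + (b : ℝ) + 2 * (R : ℝ))
    (h17 : 0 < -(b : ℝ) + 2 * (X : ℝ) + 2 * I)
    (h18 : 1 ≤ -(a : ℝ) + 2 * (R : ℝ))
    (h19 : 0 < -(b : ℝ) + (p : ℝ) + (X : ℝ) - 2 * D + I)
    (h20 : 1 ≤ -(a : ℝ) + (p : ℝ) - 2 * (R : ℝ))
    (h21 : 0 < -(a : ℝ) - (X : ℝ) - (R : ℝ) + D - I) : False := by
  have kz := KF.of hK
  obtain ⟨Ne, Xe, Ie, he⟩ := hA.ecl (a) (by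
    first
      | have x1 : b + 1 ≤ a := by exact_mod_cast (by linarith : (b : ℝ) + 1 ≤ a)
      | skip
    first
      | have x2 : 1 ≤ c := by exact_mod_cast (by linarith : (1 : ℝ) ≤ c)
      | have x2 : 1 ≤ -c := by exact_mod_cast (by linarith : (1 : ℝ) ≤ -c)
      | skip
    rintro ⟨w, hw⟩
    have h2 := W.ha
    have h3 := W.h2a
    have h4 := W.hb
    have h5 := W.h2b
    have h6 := hc
    have h7 := W.hca'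
    have h8 : w < 1 := by
      by_contra hcon
      have : p * 1 ≤ p * w := mul_le_mul_of_nonneg_left (not_lt.mp hcon) (by omega)
      omega
    have h9 : -1 < w := by
      by_contra hcon
      have : p * w ≤ p * (-1) := mul_le_mul_of_nonneg_left (not_lt.mp hcon) (by omega)
      omega
    have h10 : w = 0 := by omega
    subst h10
    omega)
  refine Helper25.S1T.Zmp1Hs_r33.closed W (G0.of W.toBase hc) (KCl.of hK) kz he hE hN0 hN1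
    h0 h1 h2 h3 h4 h5 h6 h7 h8 h9 h10 h11 h12 h13 h14 h15 h16 h17 h18 h19 h20 h21

theorem g_Zmp1Hs_r17 {p a b c J l q : ℤ} {D dl : ℝ} {Cl : ℤ → ℤ → ℤ → ℤ → ℝ → Prop}
    (W : World p a b c J 1 l q D dl Cl) (hc : -a < c) (hA : Aux p a b 1 D Cl)
    {N X R : ℤ} {I : ℝ} (hK : KGF p a b 1 D (P1 l p) Cl N X R I)
    (hE : KZ p a b l 1 Cl (fun X R I => Zp 1 X R I) N
      (fun _ _ I => I) I)
    (hN0 : KNo p a b l 1 Cl (fun X R I => Zx 1 X R I))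
    (hN1 : KNo p a b l 1 Cl (fun X R I => ZiD D J X R I))
    (h0 : 1 ≤ -(c : ℝ))
    (h1 : 1 ≤ (a : ℝ) - (b : ℝ) + (c : ℝ))
    (h2 : 0 < -2 * (b : ℝ) + D)
    (h3 : 1 ≤ 2 * (a : ℝ) - (b : ℝ))
    (h4 : 0 < (J : ℝ) - I)
    (h5 : 0 < (J : ℝ) - D + I)
    (h6 : 0 < (X : ℝ) + I)
    (h7 : 0 < D - 2 * I)
    (h8 : 0 < 2 * (c : ℝ) + (p : ℝ) - D)
    (h9 : 0 < (X : ℝ) + (R : ℝ) + I)
    (h10 : 0 < (c : ℝ) + (p : ℝ) - (X : ℝ) - (R : ℝ) - D - I)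
    (h11 : 1 ≤ -(c : ℝ) + (R : ℝ))
    (h12 : 1 ≤ -(b : ℝ) - (c : ℝ) + (R : ℝ))
    (h13 : 1 ≤ -(a : ℝ) - (b : ℝ) - (c : ℝ) + (R : ℝ)) : False := by
  have kz := KF.of hK
  refine Helper25.S1T.Zmp1Hs_r17.closed W (G0.of W.toBase hc) (KCl.of hK) kz hE hN0 hN1
    h0 h1 h2 h3 h4 h5 h6 h7 h8 h9 h10 h11 h12 h13 ?_
  · intro p0 p1 p2 p3 p4 p5 p6 p7
    exact g_Zmp1Hs_r33 W hc hA hK hE hN0 hN1 
      h0 h1 h2 h3 h4 h5 h6 h7 h8 h9 h10 h11 h12 h13 p0 p1 p2 p3 p4 p5 p6 p7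

theorem g_Zmp1Hs_r1 {p a b c J l q : ℤ} {D dl : ℝ} {Cl : ℤ → ℤ → ℤ → ℤ → ℝ → Prop}
    (W : World p a b c J 1 l q D dl Cl) (hc : -a < c) (hA : Aux p a b 1 D Cl)
    {N X R : ℤ} {I : ℝ} (hK : KGF p a b 1 D (P1 l p) Cl N X R I)
    (hE : KZ p a b l 1 Cl (fun X R I => Zp 1 X R I) N
      (fun _ _ I => I) I)
    (hN0 : KNo p a b l 1 Cl (fun X R I => Zx 1 X R I))
    (hN1 : KNo p a b l 1 Cl (fun X R I => ZiD D J X R I))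
    (h0 : 1 ≤ -(c : ℝ))
    (h1 : 1 ≤ (a : ℝ) - (b : ℝ) + (c : ℝ))
    (h2 : 0 < -2 * (b : ℝ) + D)
    (h3 : 1 ≤ 2 * (a : ℝ) - (b : ℝ))
    (h4 : 0 < (J : ℝ) - I)
    (h5 : 0 < (J : ℝ) - D + I)
    (h6 : 0 < (X : ℝ) + I)
    (h7 : 0 < D - 2 * I) : False := by
  have kz := KF.of hK
  refine Helper25.S1T.Zmp1Hs_r1.closed W (G0.of W.toBase hc) (KCl.of hK) kz hE hN0 hN1
    h0 h1 h2 h3 h4 h5 h6 h7 ?_ ?_ ?_ ?_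
  · intro p0 p1 p2 p3 p4
    exact g_Zmp1Hs_r3 W hc hA hK hE hN0 hN1 
      h0 h1 h2 h3 h4 h5 h6 h7 p0 p1 p2 p3 p4
  · intro p0 p1 p2 p3
    exact g_Zmp1Hs_r7 W hc hA hK hE hN0 hN1 
      h0 h1 h2 h3 h4 h5 h6 h7 p0 p1 p2 p3
  · intro p0 p1 p2 p3 p4 p5
    exact g_Zmp1Hs_r12 W hc hA hK hE hN0 hN1 
      h0 h1 h2 h3 h4 h5 h6 h7 p0 p1 p2 p3 p4 p5
  · intro p0 p1 p2 p3 p4 p5
    exact g_Zmp1Hs_r17 W hc hA hK hE hN0 hN1 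
      h0 h1 h2 h3 h4 h5 h6 h7 p0 p1 p2 p3 p4 p5

alias z_Zmp1Hs := g_Zmp1Hs_r1

end Helper25.S1T
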