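import Pool.Agent.Helper25.S1T.Zmp1aN2
import Pool.Agent.Helper25.KG.C4s
import Pool.Agent.Helper25.KW.S1K2

set_option autoImplicit false
set_option linter.all false

namespace Helper25.S1T

open Helper25.KG Helper25.KW Helper55.KE Helper11.CT

theorem g_Zmp1aN2 {p a b c J l q : ℤ} {D dl : ℝ} {Cl : ℤ → ℤ → ℤ → ℤ → ℝ → Prop}
    (W : World p a b c J 1 l q D dl Cl) (hc : -a < c) (hA : Aux p a b 1 D Cl)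
    {N X R : ℤ} {I : ℝ} (hK : KGF p a b 1 D (P1 l p) Cl N X R I)
    {Nw Xw Rw : ℤ} {Iw : ℝ} (hw : KCl p l Cl Nw Xw Rw Iw) (hne : N ≠ Nw)
    (hU : KU p a b l 1 Cl (fun _ _ _ => True) N)
    (hN0 : KNo p a b l 1 Cl (fun X R I => Zx 1 X R I))
    (hN1 : KNo p a b l 1 Cl (fun X R I => ZiD D J X R I))
    (hW0 : StN p b l 1 Cl (fun X' R' I' => 0 < ((X' : ℝ) + (1 : ℤ) * I')) N Nw)
    (hW1 : StN p b l 1 Cl (fun X' R' I' => 0 < (-1) * ((X' : ℝ) + (1 : ℤ) * I') ∧ 0 < (-1) * I' + (Iw)) N Nw)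
    (h0 : 1 ≤ -(c : ℝ))
    (h1 : 1 ≤ (a : ℝ) - (b : ℝ) + (c : ℝ))
    (h2 : 0 < -2 * (b : ℝ) + D)
    (h3 : 1 ≤ 2 * (a : ℝ) - (b : ℝ))
    (h4 : 0 < Iw)
    (h5 : 0 < D - Iw)
    (h6 : 0 < (J : ℝ) - I)
    (h7 : 0 < (J : ℝ) - D + I)
    (h8 : 0 < -(Xw : ℝ) - Iw)
    (h9 : 0 < (b : ℝ) + (Xw : ℝ) + Iw)
    (h10 : 0 < -(a : ℝ) + (Rw : ℝ) + (Xw : ℝ) + Iw)
    (h11 : 0 < -(a : ℝ) + (p : ℝ) - (Rw : ℝ) - (Xw : ℝ) - Iw)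
    (h12 : 0 < (X : ℝ) + I)
    (h13 : 0 < -D + 2 * I)
    (h14 : 0 < -(X : ℝ) - (R : ℝ) - I)
    (h15 : 1 ≤ 1 + (b : ℝ) + (c : ℝ) + (R : ℝ))
    (h16 : 1 ≤ 1 - (b : ℝ) - (c : ℝ) - (R : ℝ))
    (h17 : 0 < I - Iw) : False := by
  have kz := KF.of hK
  refine Helper25.S1T.Zmp1aN2.closed W (G0.of W.toBase hc) (KCl.of hK) kz hw hne hU hN0 hN1 hW0 hW1
    h0 h1 h2 h3 h4 h5 h6 h7 h8 h9 h10 h11 h12 h13 h14 h15 h16 h17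

alias z_Zmp1aN2 := g_Zmp1aN2

end Helper25.S1T
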