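import Pool.Agent.Helper25.S1T.Wt_1_1_p1

set_option autoImplicit false
set_option linter.all false

namespace Helper25.S1T.Wt_1_1

open Helper25.KG Helper25.KW Helper55.KE Helper11.CT

noncomputable def t25 : Tre :=
  .I [0,0,-2,-2,1,0,0,-1] t23 t24

theorem ok25 : chk K t25 r13 = true :=
  chk_I (e' := [1,0,2,2,-1,0,0,1]) (by decide +kernel) (by decide +kernel) ok23 ok24

noncomputable def t26 : Tre :=
  .I [0,0,-2,-2,0,0,0,-1] t22 t25

theorem ok26 : chk K t26 r2 = true :=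
  chk_I (e' := [1,0,2,2,0,0,0,1]) (by decide +kernel) (by decide +kernel) ok22 ok25

noncomputable def t27 : Tre :=
  .Q [0,0,0,0,0,1,0,0,0,-1,1] (.ed false [0,1,1] .k) t21 t26

theorem ok27 : chk K t27 l1 = true :=
  chk_Q (e' := [0,0,0,0,0,-1,0,0,0,1,-1]) (by decide +kernel) (by decide +kernel) ok21 ok26

noncomputable def t28 : Tre :=
  (.N [0,-1,1] (-1) ⟨0,[(1,0)]⟩ ⟨0,[(0,0)]⟩ .k)

theorem ok28 : chk K t28 r1 = true := by decide +kernel

noncomputable def t29 : Tre :=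
  .I [0,0,-1,-1,1,0,0,1] t27 t28

theorem ok29 : chk K t29 r0 = true :=
  chk_I (e' := [1,0,1,1,-1,0,0,-1]) (by decide +kernel) (by decide +kernel) ok27 ok28

noncomputable def t30 : Tre :=
  .I [0,0,1,1,-1,0,0,-1] t0 t29

theorem ok30 : chk K t30 base = true :=
  chk_I (e' := [1,0,-1,-1,1,0,0,1]) (by decide +kernel) (by decide +kernel) ok0 ok29

theorem closed {p a b c J l q : ℤ} {D dl : ℝ} {Cl : ℤ → ℤ → ℤ → ℤ → ℝ → Prop}
    (W : World p a b c J 1 l q D dl Cl) (g : G0 p a b c J D)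
    {N X R : ℤ} {I : ℝ} (hk : KCl p l Cl N X R I) (kz : KF a b D (X + (1 : ℤ) * I) (X + (1 : ℤ) * I + R) I)
    {Ne Xe : ℤ} {Ie : ℝ} (he : EFac p 1 D Cl 1 Ne Xe Ie)
    (hkf : ∀ kf ∈ (kfW 1 [0,0,0,0,0,0,1,1,0,0,1] [0,0,0,0,0,0,0,0,0,1]), KOk p l Cl 1
      (xv [1, a, b, c, p, J, X, R, Xe] [D, I, Ie]) N kf)
    (h0 : 1 ≤ (c : ℝ))
    (h1 : 1 ≤ 2 * (a : ℝ) - (b : ℝ))
    (h2 : 0 < -(a : ℝ) - (X : ℝ) - (R : ℝ) + D - I)
    (h3 : 0 < (b : ℝ) + (X : ℝ) - D + I) : False := by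
  have g1 := g.a2
  have g2 := g.b2
  have g3 := g.pa
  have g4 := g.pb
  have g5 := g.J1
  have g6 := g.JD
  have g7 := g.D2
  have g8 := g.ca
  have g9 := g.ca'
  have k1 := kz.I0
  have k2 := kz.ID
  have k3 := kz.z1
  have k4 := kz.z2
  have k5 := kz.s1
  have k6 := kz.s2
  have e1 := he.I0
  have e2 := he.ID
  have e3 := he.x0
  have e4 := he.xp
  push_cast at *
  refine (val_E W.toBase hk he (row := [1]) (by simp) (by simp) (kfW 1 [0,0,0,0,0,0,1,1,0,0,1] [0,0,0,0,0,0,0,0,0,1])).sound W rfl (Nk := N)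
    (fun kf _ _ => ⟨_, rfl⟩) hkf ?_ ok30
  · simp only [base, List.forall_mem_cons, List.not_mem_nil, false_imp_iff, implies_true,
      and_true, hld, xv, evg_cons, evg_nil, List.map_cons, List.map_nil, List.cons_append,
      List.nil_append, if_true, if_false, Bool.false_eq_true]
    push_cast
    refine ⟨?_, ?_, ?_, ?_, ?_, ?_, ?_, ?_, ?_, ?_, ?_, ?_, ?_, ?_, ?_, ?_, ?_, ?_, ?_, ?_, ?_, ?_⟩ <;> linarith

end Helper25.S1T.Wt_1_1
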