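import Pool.Agent.Helper25.S1T.Ymm_1a_q

set_option autoImplicit false
set_option linter.all false

namespace Helper25.S1T.Ymm_1a

open Helper25.KG Helper25.KW Helper55.KE Helper11.CT

noncomputable def t14 : Tre :=
  (.Q [0,0,-1,-1,0,0,1,0,0,0,-1] (.p false [0,0,1] [] (⟨0,[(15,0)]⟩,⟨0,[(14,0)]⟩) .k 0 (⟨0,[]⟩,⟨0,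
  []⟩) .k .k) (.I [1,0,1,1] (.I [0,0,2,2] (.R ⟨0,false,false,true,[1,0,-1],[1,-1],[0,1],(⟨0,[(17,
  0)]⟩,⟨0,[(18,0)]⟩),(⟨0,[(20,0)]⟩,⟨0,[(21,0)]⟩),⟨0,[(6,0)]⟩,.k,.k,.k,.k,.k,.k,⟨true,0,⟨1,[(0,0)]⟩,
  ⟨0,[(25,0)]⟩⟩,⟨false,0,⟨1,[(0,0),(1,1)]⟩,⟨0,[(16,0),(9,0)]⟩⟩,⟨false,1,⟨1,[(13,1),(2,1),(9,0),(0,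
  0)]⟩,⟨0,[(3,0)]⟩⟩,⟨true,0,⟨0,[(13,0),(11,0)]⟩,⟨0,[(3,0),(12,0),(6,0)]⟩⟩,⟨false,0,⟨0,[]⟩,⟨0,[]⟩⟩,
  ⟨false,0,⟨0,[]⟩,⟨0,[]⟩⟩,[.e ⟨false,0,⟨0,[(23,0),(1,0)]⟩,⟨1,[(8,0),(0,0),(17,0)]⟩⟩ ⟨false,0,⟨3,[(2,
  2),(12,0),(6,1),(2,0)]⟩,⟨0,[(16,0),(6,0),(3,0)]⟩⟩,.e ⟨false,1,⟨1,[(8,0),(0,0),(16,0)]⟩,⟨0,[]⟩⟩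
  ⟨false,0,⟨0,[(2,0)]⟩,⟨1,[(0,0),(15,1),(9,1)]⟩⟩,.o ⟨false,1,⟨1,[(16,1),(2,0),(6,0)]⟩,⟨1,[(0,0),(1,
  1)]⟩⟩,.a ⟨true,0,⟨0,[(16,0)]⟩,⟨0,[(12,0)]⟩⟩ ⟨true,0,⟨0,[(23,0),(1,0)]⟩,⟨1,[(15,0),(0,0)]⟩⟩ ⟨false,
  0,⟨0,[(2,0)]⟩,⟨1,[(0,0),(15,1),(9,0),(0,0)]⟩⟩]⟩) (.N [0,1] 0 ⟨0,[(1,0)]⟩ ⟨1,[(0,0)]⟩ .k)) (.Q [0,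
  0,0,0,0,0,-1,0,0,1,1] (.p true [1,-1,1] [] (⟨0,[(17,0),(1,0)]⟩,⟨0,[(6,0)]⟩) .k 0 (⟨0,[]⟩,⟨0,[]⟩)
  .k .k) (.Q [0,0,-1,-1,0,0,-1,0,0,0,1] (.p true [0,0,1] [] (⟨0,[(18,0)]⟩,⟨0,[(17,0)]⟩) .k 0 (⟨0,
  []⟩,⟨0,[]⟩) .k .k) (.R ⟨0,false,false,true,[0,1,-1],[0,1],[1],(⟨0,[(8,0)]⟩,⟨0,[(19,0),(1,0)]⟩),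
  (⟨0,[(22,0)]⟩,⟨0,[(21,0)]⟩),⟨0,[(19,0)]⟩,.k,.k,.k,.k,.k,.k,⟨false,1,⟨1,[(0,0),(2,0),(23,0),(0,
  0)]⟩,⟨1,[(16,0),(0,0),(7,1)]⟩⟩,⟨true,0,⟨0,[(4,0),(9,0)]⟩,⟨0,[(17,0)]⟩⟩,⟨false,1,⟨0,[(0,0),(13,0),
  (13,0)]⟩,⟨1,[(4,1),(11,0),(0,0),(7,1)]⟩⟩,⟨true,0,⟨0,[(14,0)]⟩,⟨3,[(0,0),(3,1),(0,0),(9,0),(1,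
  0)]⟩⟩,⟨false,0,⟨0,[]⟩,⟨0,[]⟩⟩,⟨false,0,⟨0,[]⟩,⟨0,[]⟩⟩,[.o ⟨false,0,⟨0,[(25,0)]⟩,⟨1,[(20,0),(5,1),
  (1,0)]⟩⟩,.e ⟨false,1,⟨1,[(27,0),(0,0)]⟩,⟨0,[(30,0)]⟩⟩ ⟨false,1,⟨3,[(6,1),(2,0),(0,0),(9,0),(4,3),
  (2,1)]⟩,⟨0,[(0,0)]⟩⟩,.e ⟨true,0,⟨0,[]⟩,⟨0,[(30,0)]⟩⟩ ⟨true,0,⟨0,[(16,0),(8,0)]⟩,⟨0,[(0,0)]⟩⟩,.a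
  ⟨true,0,⟨0,[(1,0)]⟩,⟨0,[(4,0),(9,0)]⟩⟩ ⟨false,1,⟨1,[(27,0),(0,0)]⟩,⟨1,[(16,0),(0,0)]⟩⟩ ⟨true,0,⟨0,
  [(16,0),(7,0)]⟩,⟨1,[(0,0),(16,0),(8,0)]⟩⟩]⟩) (.Q [0,0,1,0,0,0,1,0,0,-1,-1] (.p false [1,-1,1] []
  (⟨0,[(19,0),(1,0)]⟩,⟨0,[(8,0)]⟩) .k 0 (⟨0,[]⟩,⟨0,[]⟩) .k .k) (.Q [0,0,0,-1,0,0,0,0,0,-1] (.pp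
  true [-1,1]) (.R ⟨0,false,false,true,[0,1,-1],[0,1],[0,0,1],(⟨0,[(10,0)]⟩,⟨0,[(21,0),(1,0)]⟩),(⟨0,
  [(24,0)]⟩,⟨0,[(23,0)]⟩),⟨0,[(21,0)]⟩,.k,.k,.k,.k,.k,.k,⟨false,1,⟨1,[(28,1),(0,0),(0,0)]⟩,⟨0,[(27,
  0)]⟩⟩,⟨true,0,⟨1,[(2,0),(2,0)]⟩,⟨0,[(19,0)]⟩⟩,⟨false,1,⟨0,[(0,0),(2,0),(12,0),(13,0)]⟩,⟨2,[(2,0),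
  (3,1),(0,0),(18,0)]⟩⟩,⟨true,0,⟨0,[(16,0)]⟩,⟨1,[(0,0),(2,0),(2,0),(0,0)]⟩⟩,⟨false,0,⟨0,[]⟩,⟨0,[]⟩⟩,
  ⟨false,0,⟨0,[]⟩,⟨0,[]⟩⟩,[.o ⟨false,0,⟨0,[(27,0)]⟩,⟨1,[(22,0),(5,1),(1,0)]⟩⟩,.o ⟨false,1,⟨1,[(11,
  0),(0,0),(14,1),(2,0)]⟩,⟨0,[(0,0)]⟩⟩,.o ⟨false,1,⟨1,[(3,1),(18,0),(6,0)]⟩,⟨0,[(1,0)]⟩⟩,.a ⟨true,0,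
  ⟨0,[(3,0)]⟩,⟨1,[(2,0),(2,0)]⟩⟩ ⟨false,1,⟨1,[(11,0),(0,0),(17,0)]⟩,⟨0,[]⟩⟩ ⟨true,0,⟨6,[(1,0),(0,3),
  (5,0),(16,1),(0,2)]⟩,⟨0,[(0,0),(2,0)]⟩⟩]⟩) (.R ⟨2,true,false,false,[0,1],[1,-1],[0,1,1],(⟨0,[]⟩,
  ⟨0,[]⟩),(⟨0,[(23,0)]⟩,⟨0,[(24,0)]⟩),⟨0,[]⟩,.k,.k,.k,(.r (-1) ⟨1,[(2,1),(8,0),(0,0),(6,1),(7,1),(2,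
  0)]⟩ ⟨0,[(4,1)]⟩),.k,.k,⟨false,0,⟨1,[(2,0),(16,0),(7,0),(4,0)]⟩,⟨1,[(4,1),(24,0),(0,0)]⟩⟩,⟨true,0,
  ⟨0,[(1,0),(17,0)]⟩,⟨0,[(0,0),(3,0)]⟩⟩,⟨false,0,⟨0,[(28,0)]⟩,⟨0,[(27,0),(2,0)]⟩⟩,⟨true,0,⟨0,[(1,0),
  (2,1),(14,0)]⟩,⟨0,[(0,0),(26,0)]⟩⟩,⟨true,0,⟨0,[(32,0)]⟩,⟨0,[]⟩⟩,⟨false,1,⟨1,[(22,0),(5,1),(1,0)]⟩,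
  ⟨0,[(0,0)]⟩⟩,[]⟩)) (.R ⟨0,false,false,true,[0,1,-1],[0,1],[0,0,1],(⟨0,[(9,0)]⟩,⟨0,[(20,0),(1,
  0)]⟩),(⟨0,[(23,0)]⟩,⟨0,[(22,0)]⟩),⟨0,[(20,0)]⟩,.k,.k,.k,.k,.k,.k,⟨false,1,⟨1,[(27,1),(0,0),(0,
  0)]⟩,⟨0,[(26,0)]⟩⟩,⟨true,0,⟨1,[(1,0),(2,0)]⟩,⟨0,[(18,0)]⟩⟩,⟨false,1,⟨0,[(3,0),(11,0),(2,0),(10,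
  0)]⟩,⟨2,[(1,0),(3,1),(0,0),(18,0)]⟩⟩,⟨true,0,⟨0,[(15,0)]⟩,⟨1,[(3,0),(1,0),(0,0),(11,0)]⟩⟩,⟨false,
  0,⟨0,[]⟩,⟨0,[]⟩⟩,⟨false,0,⟨0,[]⟩,⟨0,[]⟩⟩,[.o ⟨false,0,⟨0,[(26,0)]⟩,⟨1,[(21,0),(5,1),(1,0)]⟩⟩,.a
  ⟨true,0,⟨0,[(0,0),(0,0)]⟩,⟨0,[(27,0)]⟩⟩ ⟨false,1,⟨1,[(10,0),(0,0),(17,0)]⟩,⟨2,[(3,0),(20,0),(0,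
  0)]⟩⟩ ⟨true,0,⟨0,[(1,0)]⟩,⟨0,[(3,0),(14,0)]⟩⟩,.a ⟨true,0,⟨0,[(0,0)]⟩,⟨0,[(17,0)]⟩⟩ ⟨true,0,⟨1,
  [(17,0),(0,0)]⟩,⟨2,[(3,0),(20,0),(0,0)]⟩⟩ ⟨false,0,⟨0,[(1,0)]⟩,⟨1,[(0,1),(20,0),(5,1),(1,0)]⟩⟩,.a
  ⟨true,0,⟨0,[(2,0)]⟩,⟨1,[(1,0),(2,0)]⟩⟩ ⟨false,1,⟨1,[(10,0),(0,0),(17,0)]⟩,⟨0,[]⟩⟩ ⟨true,0,⟨5,[(1,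
  4),(2,0),(19,1),(0,1)]⟩,⟨0,[(3,0),(14,0)]⟩⟩]⟩))) (.Q [0,1,0,-1,-1,0,-1,-1,0,-1,1] (.p true [0,0,
  1] [1] (⟨0,[(18,0)]⟩,⟨0,[(17,0)]⟩) .k 1 (⟨0,[]⟩,⟨0,[]⟩) .k .k) (.R ⟨0,false,false,false,[1,0,-1],
  [0,1],[1,0,1],(⟨0,[(18,0)]⟩,⟨0,[(19,0)]⟩),(⟨0,[(22,0)]⟩,⟨0,[(21,0)]⟩),⟨0,[(7,0)]⟩,.k,.k,.k,.k,.k,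
  .k,⟨false,0,⟨0,[(2,0)]⟩,⟨1,[(9,0),(0,0),(14,1),(2,0)]⟩⟩,⟨true,0,⟨0,[(13,0)]⟩,⟨0,[(1,0),(15,1)]⟩⟩,
  ⟨false,1,⟨0,[(14,0),(2,0),(10,0)]⟩,⟨4,[(0,0),(2,0),(0,2),(0,0),(7,0),(10,0),(2,0)]⟩⟩,⟨true,1,⟨0,
  [(14,0),(3,0),(0,0),(5,0),(2,0)]⟩,⟨0,[(0,0)]⟩⟩,⟨false,0,⟨0,[]⟩,⟨0,[]⟩⟩,⟨false,0,⟨0,[]⟩,⟨0,[]⟩⟩,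
  [.o ⟨false,1,⟨1,[(9,0),(0,0),(14,1),(2,0)]⟩,⟨0,[(0,0),(13,0),(13,0)]⟩⟩,.o ⟨false,1,⟨0,[(25,0),(2,
  0)]⟩,⟨2,[(0,0),(13,0),(5,0),(5,1),(3,0)]⟩⟩,.o ⟨false,1,⟨1,[(17,1),(2,0),(6,0)]⟩,⟨2,[(1,0),(4,
  0)]⟩⟩,.a ⟨true,0,⟨0,[(17,0)]⟩,⟨0,[(13,0)]⟩⟩ ⟨true,0,⟨0,[]⟩,⟨0,[(30,0)]⟩⟩ ⟨false,1,⟨0,[(13,0),(11,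
  0),(2,0)]⟩,⟨0,[(0,0),(13,0),(2,0),(10,0)]⟩⟩]⟩) (.R ⟨0,false,false,false,[1,0,-1],[0,1],[0,1,1],
  (⟨0,[(18,0)]⟩,⟨0,[(19,0)]⟩),(⟨0,[(22,0)]⟩,⟨0,[(21,0)]⟩),⟨0,[(7,0)]⟩,.k,.k,.k,.k,.k,.k,⟨false,0,⟨1,
  [(2,0),(20,0),(2,0)]⟩,⟨0,[(25,0),(2,0)]⟩⟩,⟨true,0,⟨0,[(13,0)]⟩,⟨0,[(1,0),(15,1)]⟩⟩,⟨true,0,⟨0,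
  [(14,0),(2,0)]⟩,⟨2,[(2,0),(0,0),(0,1),(0,0),(18,0)]⟩⟩,⟨false,1,⟨0,[(0,0)]⟩,⟨1,[(1,1),(0,2),(1,0),
  (0,0),(11,2)]⟩⟩,⟨false,0,⟨0,[]⟩,⟨0,[]⟩⟩,⟨false,0,⟨0,[]⟩,⟨0,[]⟩⟩,[.o ⟨false,1,⟨2,[(0,1),(4,0),(9,
  0),(4,0)]⟩,⟨0,[(1,0),(0,0),(14,0)]⟩⟩,.o ⟨false,1,⟨0,[(25,0),(2,0)]⟩,⟨1,[(1,1),(0,0),(14,1),(5,0),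
  (2,0)]⟩⟩,.o ⟨false,1,⟨1,[(17,1),(2,0),(6,0)]⟩,⟨2,[(1,0),(4,0)]⟩⟩,.a ⟨true,0,⟨0,[(17,0)]⟩,⟨0,[(13,
  0)]⟩⟩ ⟨true,0,⟨0,[(30,0)]⟩,⟨0,[]⟩⟩ ⟨false,1,⟨9,[(0,6),(3,5),(0,0),(0,0),(6,1),(10,1),(2,2)]⟩,⟨0,
  [(1,0),(0,0),(14,1)]⟩⟩]⟩)))) (.R ⟨0,false,false,true,[1,0,-1],[1,-1],[0,1],(⟨0,[(15,0)]⟩,⟨0,[(16,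
  0)]⟩),(⟨0,[(18,0)]⟩,⟨0,[(19,0)]⟩),⟨0,[(4,0)]⟩,.k,.k,.k,.k,.k,.k,⟨true,0,⟨0,[(0,0),(0,0),(9,0)]⟩,
  ⟨0,[(23,0)]⟩⟩,⟨false,0,⟨0,[(1,0),(9,0)]⟩,⟨0,[(14,0),(9,0)]⟩⟩,⟨false,1,⟨1,[(11,1),(2,1),(9,0),(0,
  0)]⟩,⟨0,[(1,0)]⟩⟩,⟨true,0,⟨0,[(11,0),(11,0)]⟩,⟨0,[(1,0),(12,0),(6,0)]⟩⟩,⟨false,0,⟨0,[]⟩,⟨0,[]⟩⟩,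
  ⟨false,0,⟨0,[]⟩,⟨0,[]⟩⟩,[.e ⟨false,0,⟨0,[(21,0),(1,0)]⟩,⟨1,[(6,0),(0,0),(17,0)]⟩⟩ ⟨false,0,⟨0,[(1,
  0),(9,0),(9,0),(1,1)]⟩,⟨1,[(0,1),(23,0),(0,0)]⟩⟩,.a ⟨true,0,⟨0,[(23,0)]⟩,⟨0,[(0,0),(9,0)]⟩⟩
  ⟨false,1,⟨1,[(6,0),(0,0),(16,0)]⟩,⟨0,[]⟩⟩ ⟨true,0,⟨0,[(1,0),(9,0),(11,0)]⟩,⟨0,[(0,0)]⟩⟩,.o ⟨false,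
  1,⟨1,[(14,1),(2,0),(6,0)]⟩,⟨0,[(1,0),(9,0)]⟩⟩,.e ⟨true,0,⟨0,[(21,0),(1,0)]⟩,⟨1,[(13,0),(0,0)]⟩⟩
  ⟨true,0,⟨0,[(1,0),(9,0),(9,0),(1,1)]⟩,⟨0,[(0,0)]⟩⟩]⟩))

theorem ok14 : chk K t14 r1 = true := by decide +kernel


end Helper25.S1T.Ymm_1a
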