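import Pool.Agent.Helper25.S1T.Ymm_1a_p0
import Pool.Agent.Helper25.S1T.Ymm_1a_p1

set_option autoImplicit false
set_option linter.all false

namespace Helper25.S1T.Ymm_1a

open Helper25.KG Helper25.KW Helper55.KE Helper11.CT

noncomputable def t4 : Tre :=
  .Q [0,0,0,-1,0,0,-1,-1,0,-1,1] (.p true [0,0,1] [1] (⟨0,[(18,0)]⟩,⟨0,[(17,0)]⟩) .k 1 (⟨0,[]⟩,⟨0,
  []⟩) .k .k) t2 t3

theorem ok4 : chk K t4 r4 = true :=
  chk_Q (e' := [0,0,0,1,0,0,1,1,0,1,-1]) (by decide +kernel) (by decide +kernel) ok2 ok3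

noncomputable def t5 : Tre :=
  .Q [0,0,-2,0,0,0,-1,0,0,1,1] (.p true [1,-1,1] [] (⟨0,[(17,0),(1,0)]⟩,⟨0,[(6,0)]⟩) .k 0 (⟨0,[]⟩,
  ⟨0,[]⟩) .k .k) t1 t4

theorem ok5 : chk K t5 l3 = true :=
  chk_Q (e' := [0,0,2,0,0,0,1,0,0,-1,-1]) (by decide +kernel) (by decide +kernel) ok1 ok4

noncomputable def t7 : Tre :=
  .Q [0,-1,0,0,1,0,0,1,0,-1] (.pp true [-1,1]) t5 t6

theorem ok7 : chk K t7 l2 = true :=
  chk_Q (e' := [0,1,0,0,-1,0,0,-1,0,1]) (by decide +kernel) (by decide +kernel) ok5 ok6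

noncomputable def t10 : Tre :=
  .Q [0,0,0,0,0,0,1,1,0,1,-1] (.p false [0,0,1] [1] (⟨0,[(17,0)]⟩,⟨0,[(16,0)]⟩) .k 1 (⟨0,[]⟩,⟨0,
  []⟩) .k .k) t8 t9

theorem ok10 : chk K t10 l6 = true :=
  chk_Q (e' := [0,0,0,0,0,0,-1,-1,0,-1,1]) (by decide +kernel) (by decide +kernel) ok8 ok9

noncomputable def t12 : Tre :=
  .I [1,0,1,1] t10 t11

theorem ok12 : chk K t12 r2 = true :=
  chk_I (e' := [0,0,-1,-1]) (by decide +kernel) (by decide +kernel) ok10 ok11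

noncomputable def t13 : Tre :=
  .I [0,0,-2,-2,0,0,0,1] t7 t12

theorem ok13 : chk K t13 l1 = true :=
  chk_I (e' := [1,0,2,2,0,0,0,-1]) (by decide +kernel) (by decide +kernel) ok7 ok12

noncomputable def t15 : Tre :=
  .I [0,1,0,0,0,0,0,1] t13 t14

theorem ok15 : chk K t15 r0 = true :=
  chk_I (e' := [1,-1,0,0,0,0,0,-1]) (by decide +kernel) (by decide +kernel) ok13 ok14

noncomputable def t16 : Tre :=
  .Q [0,-1,0,-1,0,0,1,1,0,0,-1] (.p false [0,0,1] [] (⟨0,[(13,0)]⟩,⟨0,[(12,0)]⟩) .k 0 (⟨0,[]⟩,⟨0,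
  []⟩) .k .k) t0 t15

theorem ok16 : chk K t16 base = true :=
  chk_Q (e' := [0,1,0,1,0,0,-1,-1,0,0,1]) (by decide +kernel) (by decide +kernel) ok0 ok15

theorem closed {p a b c J l q : ℤ} {D dl : ℝ} {Cl : ℤ → ℤ → ℤ → ℤ → ℝ → Prop}
    (W : World p a b c J (-1) l q D dl Cl) (g : G0 p a b c J D)
    {N X R : ℤ} {I : ℝ} (hk : KCl p l Cl N X R I) (kz : KF a b D (X + (-1 : ℤ) * I) (X + (-1 : ℤ) * I + R) I)
    {Ne Xe : ℤ} {Ie : ℝ} (he : EFac p (-1) D Cl 1 Ne Xe Ie)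
    (hkf : ∀ kf ∈ (kfY (-1) [0,0,0,0,0,0,1,0,0,0,-1]), KOk p l Cl (-1)
      (xv [1, a, b, c, p, J, X, R, Xe] [D, I, Ie]) N kf)
    (h0 : 1 ≤ -(c : ℝ))
    (h1 : 1 ≤ (a : ℝ) - (b : ℝ) + (c : ℝ))
    (h2 : 1 ≤ 2 * (a : ℝ) - (b : ℝ))
    (h3 : 0 < -(b : ℝ) + (X : ℝ) + D - I)
    (h4 : 0 < (J : ℝ) - I)
    (h5 : 0 < (J : ℝ) - D + I)
    (h6 : 0 < 2 * (X : ℝ) + D - 2 * I) : False := by
  have g1 := g.a2
  have g2 := g.b2
  have g3 := g.pa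
  have g4 := g.pb
  have g5 := g.J1
  have g6 := g.JD
  have g7 := g.D2
  have g8 := g.ca
  have g9 := g.ca'
  have k1 := kz.I0
  have k2 := kz.ID
  have k3 := kz.z1
  have k4 := kz.z2
  have k5 := kz.s1
  have k6 := kz.s2
  have e1 := he.I0
  have e2 := he.ID
  have e3 := he.x0
  have e4 := he.xp
  push_cast at *
  refine (val_E W.toBase hk he (row := [1]) (by simp) (by simp) (kfY (-1) [0,0,0,0,0,0,1,0,0,0,-1])).sound W rfl (Nk := N)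
    (fun kf _ _ => ⟨_, rfl⟩) hkf ?_ ok16
  · simp only [base, List.forall_mem_cons, List.not_mem_nil, false_imp_iff, implies_true,
      and_true, hld, xv, evg_cons, evg_nil, List.map_cons, List.map_nil, List.cons_append,
      List.nil_append, if_true, if_false, Bool.false_eq_true]
    push_cast
    refine ⟨?_, ?_, ?_, ?_, ?_, ?_, ?_, ?_, ?_, ?_, ?_, ?_, ?_, ?_, ?_, ?_, ?_, ?_, ?_, ?_, ?_, ?_, ?_, ?_, ?_⟩ <;> linarith

end Helper25.S1T.Ymm_1a
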