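import Pool.Agent.Helper25.S1T.Ymm_1a_q

set_option autoImplicit false
set_option linter.all false

namespace Helper25.S1T.Ymm_1a

open Helper25.KG Helper25.KW Helper55.KE Helper11.CT

noncomputable def t0 : Tre :=
  (.Q [0,0,0,0,0,0,-1,0,0,0,1] (.p true [0,0,1] [] (⟨0,[(14,0)]⟩,⟨0,[(13,0)]⟩) .k 0 (⟨0,[]⟩,⟨0,[]⟩)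
  .k .k) (.R ⟨2,true,false,false,[0,1],[0,0,1],[0,0,1],(⟨0,[]⟩,⟨0,[]⟩),(⟨0,[(15,0)]⟩,⟨0,[(14,0)]⟩),
  ⟨0,[]⟩,.k,.k,.k,.k,.k,.k,⟨false,1,⟨3,[(2,1),(2,0),(0,0),(4,3),(4,0),(7,1)]⟩,⟨0,[(0,0),(0,0),(18,
  0)]⟩⟩,⟨true,0,⟨0,[(12,0)]⟩,⟨0,[(0,0)]⟩⟩,⟨true,0,⟨0,[(22,0)]⟩,⟨0,[(21,0)]⟩⟩,⟨false,0,⟨0,[(1,0)]⟩,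
  ⟨0,[(11,0),(9,0),(2,0)]⟩⟩,⟨false,1,⟨1,[(5,0),(0,0),(17,0)]⟩,⟨0,[]⟩⟩,⟨true,0,⟨0,[(1,0),(19,0)]⟩,⟨0,
  [(11,0)]⟩⟩,[]⟩) (.I [1,0,-1,0,0,0,0,1] (.I [1,0,1,1] (.Q [0,0,0,1,0,0,0,0,0,1] (.pp false [-1,1])
  (.R ⟨0,false,false,true,[0,0,1],[0,1],[0,1,1],(⟨0,[(18,0)]⟩,⟨0,[(17,0)]⟩),(⟨0,[(21,0)]⟩,⟨0,[(20,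
  0)]⟩),⟨0,[(7,0)]⟩,.k,.k,.k,.k,.k,.k,⟨true,0,⟨0,[(25,0)]⟩,⟨0,[(1,0)]⟩⟩,⟨false,1,⟨1,[(2,1),(11,1),
  (11,0),(0,0)]⟩,⟨0,[(15,0)]⟩⟩,⟨true,0,⟨0,[(14,0),(0,0)]⟩,⟨0,[(2,0)]⟩⟩,⟨false,1,⟨0,[(14,0),(9,0),(2,
  0)]⟩,⟨0,[(4,0)]⟩⟩,⟨false,0,⟨0,[]⟩,⟨0,[]⟩⟩,⟨false,0,⟨0,[]⟩,⟨0,[]⟩⟩,[.o ⟨false,0,⟨0,[(24,0)]⟩,⟨1,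
  [(19,0),(5,1),(1,0)]⟩⟩,.a ⟨true,0,⟨0,[(0,0)]⟩,⟨0,[(25,0)]⟩⟩ ⟨true,0,⟨1,[(15,0),(0,0)]⟩,⟨0,[]⟩⟩
  ⟨false,1,⟨1,[(16,1),(6,1),(2,0),(0,0)]⟩,⟨0,[(3,0),(21,0)]⟩⟩,.o ⟨false,0,⟨0,[(3,0)]⟩,⟨1,[(16,1),(2,
  0),(6,0)]⟩⟩,.o ⟨false,0,⟨0,[(15,0)]⟩,⟨1,[(2,1),(11,1),(4,0),(7,0)]⟩⟩]⟩) (.R ⟨0,false,false,false,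
  [1,0,-1],[1,-1],[1],(⟨0,[(17,0)]⟩,⟨0,[(18,0)]⟩),(⟨0,[(20,0)]⟩,⟨0,[(21,0)]⟩),⟨0,[(6,0)]⟩,.k,.k,.k,
  .k,.k,.k,⟨true,0,⟨0,[(1,0)]⟩,⟨0,[(25,0)]⟩⟩,⟨false,0,⟨0,[(3,0)]⟩,⟨0,[(16,0),(9,0)]⟩⟩,⟨true,0,⟨4,
  [(1,0),(0,2),(1,0),(8,0),(2,1)]⟩,⟨0,[(3,0),(10,0)]⟩⟩,⟨false,0,⟨0,[(4,0)]⟩,⟨0,[(14,0),(9,0),(2,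
  0)]⟩⟩,⟨false,0,⟨0,[]⟩,⟨0,[]⟩⟩,⟨false,0,⟨0,[]⟩,⟨0,[]⟩⟩,[.o ⟨false,0,⟨0,[(0,0)]⟩,⟨1,[(8,0),(0,0),
  (14,1),(2,0)]⟩⟩,.o ⟨false,1,⟨1,[(19,0),(5,1),(1,0)]⟩,⟨0,[(24,0)]⟩⟩,.o ⟨false,1,⟨1,[(16,1),(2,0),
  (6,0)]⟩,⟨0,[(3,0)]⟩⟩,.a ⟨true,0,⟨0,[(16,0)]⟩,⟨0,[(12,0)]⟩⟩ ⟨false,1,⟨1,[(26,0),(0,0)]⟩,⟨1,[(15,0),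
  (0,0)]⟩⟩ ⟨true,0,⟨0,[(0,0),(11,0)]⟩,⟨0,[(16,0),(7,0)]⟩⟩]⟩)) (.I [0,1,1,1,0,0,0,-1] (.I [0,0,2,1]
  (.Q [0,0,0,-1,0,0,0,0,0,-1] (.pp true [-1,1]) (.R ⟨0,false,false,false,[1,0,-1],[1,-1],[1,0,-1,
  -1],(⟨0,[(19,0)]⟩,⟨0,[(20,0)]⟩),(⟨0,[(22,0)]⟩,⟨0,[(23,0)]⟩),⟨0,[(8,0)]⟩,.k,.k,.k,.k,.k,.k,⟨true,0,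
  ⟨0,[]⟩,⟨1,[(1,0),(25,0)]⟩⟩,⟨false,0,⟨0,[(5,0)]⟩,⟨0,[(18,0),(9,0)]⟩⟩,⟨true,0,⟨0,[(4,0),(22,0)]⟩,⟨0,
  [(2,0)]⟩⟩,⟨false,0,⟨0,[(6,0)]⟩,⟨0,[(16,0),(9,0),(2,0)]⟩⟩,⟨false,0,⟨0,[]⟩,⟨0,[]⟩⟩,⟨false,0,⟨0,[]⟩,
  ⟨0,[]⟩⟩,[.o ⟨false,0,⟨0,[(0,0)]⟩,⟨0,[(1,0),(26,0)]⟩⟩,.o ⟨false,1,⟨1,[(21,0),(5,1),(1,0)]⟩,⟨0,[(26,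
  0)]⟩⟩,.o ⟨false,1,⟨1,[(18,1),(2,0),(6,0)]⟩,⟨0,[(5,0)]⟩⟩,.a ⟨true,0,⟨0,[(18,0)]⟩,⟨0,[(14,0)]⟩⟩
  ⟨false,1,⟨1,[(3,1),(24,0),(0,0)]⟩,⟨0,[(1,0)]⟩⟩ ⟨true,0,⟨0,[(0,0),(13,0)]⟩,⟨0,[(18,0),(7,0)]⟩⟩]⟩)
  (.R ⟨0,false,false,true,[0,0,1],[0,1],[1,1],(⟨0,[(20,0)]⟩,⟨0,[(19,0)]⟩),(⟨0,[(23,0)]⟩,⟨0,[(22,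
  0)]⟩),⟨0,[(9,0)]⟩,.k,.k,.k,.k,.k,.k,⟨true,0,⟨0,[(3,0)]⟩,⟨0,[(1,0)]⟩⟩,⟨false,1,⟨1,[(4,1),(11,1),
  (11,0),(0,0)]⟩,⟨0,[(17,0)]⟩⟩,⟨true,0,⟨0,[(5,0),(10,0)]⟩,⟨5,[(1,0),(2,3),(1,0),(8,0),(2,1)]⟩⟩,
  ⟨false,1,⟨0,[(16,0),(9,0),(2,0)]⟩,⟨0,[(6,0)]⟩⟩,⟨false,0,⟨0,[]⟩,⟨0,[]⟩⟩,⟨false,0,⟨0,[]⟩,⟨0,[]⟩⟩,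
  [.o ⟨false,0,⟨0,[(26,0)]⟩,⟨1,[(21,0),(5,1),(1,0)]⟩⟩,.a ⟨true,0,⟨0,[(0,0)]⟩,⟨0,[(27,0)]⟩⟩ ⟨true,0,
  ⟨0,[]⟩,⟨1,[(1,0),(25,0)]⟩⟩ ⟨false,1,⟨1,[(18,1),(6,1),(2,0),(0,0)]⟩,⟨0,[(5,0),(21,0)]⟩⟩,.o ⟨false,
  0,⟨0,[(5,0)]⟩,⟨1,[(18,1),(2,0),(6,0)]⟩⟩,.o ⟨false,0,⟨0,[(17,0)]⟩,⟨1,[(4,1),(11,1),(4,0),(7,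
  0)]⟩⟩]⟩)) (.Q [0,0,0,0,0,0,-1,0,0,1,1] (.p true [1,-1,1] [] (⟨0,[(19,0),(1,0)]⟩,⟨0,[(8,0)]⟩) .k 0
  (⟨0,[]⟩,⟨0,[]⟩) .k .k) (.R ⟨0,false,false,true,[0,1,-1],[0,1],[1],(⟨0,[(9,0)]⟩,⟨0,[(20,0),(1,
  0)]⟩),(⟨0,[(23,0)]⟩,⟨0,[(22,0)]⟩),⟨0,[(20,0)]⟩,.k,.k,.k,.k,.k,.k,⟨false,1,⟨1,[(1,0),(25,0),(0,0),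
  (0,0)]⟩,⟨1,[(17,0),(0,0),(7,1)]⟩⟩,⟨true,0,⟨0,[(5,0)]⟩,⟨0,[(18,0)]⟩⟩,⟨true,0,⟨0,[(4,0),(22,0)]⟩,⟨0,
  [(2,0)]⟩⟩,⟨false,0,⟨0,[(6,0),(19,0)]⟩,⟨0,[(16,0),(12,0)]⟩⟩,⟨false,0,⟨0,[]⟩,⟨0,[]⟩⟩,⟨false,0,⟨0,
  []⟩,⟨0,[]⟩⟩,[.o ⟨false,0,⟨0,[(26,0)]⟩,⟨1,[(21,0),(5,1),(1,0)]⟩⟩,.e ⟨false,1,⟨1,[(28,0),(0,0)]⟩,⟨0,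
  [(31,0)]⟩⟩ ⟨false,1,⟨3,[(7,1),(2,0),(0,0),(9,0),(4,3),(2,1)]⟩,⟨0,[(1,0),(16,0)]⟩⟩,.e ⟨true,0,⟨0,
  []⟩,⟨0,[(31,0)]⟩⟩ ⟨true,0,⟨0,[(17,0),(8,0)]⟩,⟨0,[(1,0),(16,0)]⟩⟩,.a ⟨true,0,⟨0,[(0,0)]⟩,⟨0,[(5,
  0)]⟩⟩ ⟨false,1,⟨1,[(28,0),(0,0)]⟩,⟨1,[(17,0),(0,0)]⟩⟩ ⟨true,0,⟨0,[(5,0),(20,0)]⟩,⟨1,[(1,0),(16,1),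
  (8,0)]⟩⟩]⟩) (.Q [0,0,0,-1,0,0,-1,-1,0,-1,1] (.p true [0,0,1] [1] (⟨0,[(20,0)]⟩,⟨0,[(19,0)]⟩) .k 1
  (⟨0,[]⟩,⟨0,[]⟩) .k .k) (.R ⟨0,false,false,true,[1,0,-1],[0,1],[1,1,1],(⟨0,[(20,0)]⟩,⟨0,[(21,0)]⟩),
  (⟨0,[(24,0)]⟩,⟨0,[(23,0)]⟩),⟨0,[(9,0)]⟩,.k,.k,.k,.k,.k,.k,⟨false,0,⟨1,[(2,0),(25,0)]⟩,⟨1,[(11,0),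
  (0,0),(14,1),(2,0)]⟩⟩,⟨true,0,⟨0,[(15,0)]⟩,⟨0,[(1,0),(17,1)]⟩⟩,⟨false,0,⟨0,[(7,0),(11,0),(7,0)]⟩,
  ⟨0,[(2,0),(0,0),(26,0)]⟩⟩,⟨true,0,⟨0,[(5,0),(2,0),(10,0),(7,0)]⟩,⟨0,[(0,0)]⟩⟩,⟨false,0,⟨0,[]⟩,⟨0,
  []⟩⟩,⟨false,0,⟨0,[]⟩,⟨0,[]⟩⟩,[.o ⟨false,0,⟨0,[(27,0)]⟩,⟨1,[(22,0),(5,1),(1,0)]⟩⟩,.o ⟨false,1,⟨1,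
  [(11,0),(0,0),(14,1),(2,0)]⟩,⟨6,[(0,4),(0,1),(3,0),(1,1),(8,1),(2,0)]⟩⟩,.o ⟨false,1,⟨1,[(19,1),(2,
  0),(6,0)]⟩,⟨0,[(6,0)]⟩⟩,.a ⟨true,0,⟨0,[(19,0)]⟩,⟨0,[(15,0)]⟩⟩ ⟨false,0,⟨0,[]⟩,⟨1,[(11,0),(0,0),
  (17,0)]⟩⟩ ⟨true,0,⟨0,[(15,0),(11,0)]⟩,⟨6,[(0,4),(0,1),(3,0),(1,1),(8,1),(2,7)]⟩⟩]⟩) (.R ⟨0,false,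
  false,true,[1,0,-1],[0,1],[0,0,1],(⟨0,[(20,0)]⟩,⟨0,[(21,0)]⟩),(⟨0,[(24,0)]⟩,⟨0,[(23,0)]⟩),⟨0,[(9,
  0)]⟩,.k,.k,.k,.k,.k,.k,⟨false,1,⟨1,[(28,1),(0,0),(0,0)]⟩,⟨0,[(27,0)]⟩⟩,⟨true,0,⟨0,[(15,0)]⟩,⟨0,
  [(1,0),(17,1)]⟩⟩,⟨true,0,⟨6,[(0,1),(0,1),(3,0),(1,1),(8,1),(2,7)]⟩,⟨0,[(2,0),(0,0)]⟩⟩,⟨false,0,⟨0,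
  [(0,0)]⟩,⟨1,[(1,1),(0,0),(14,1),(1,1),(8,0),(1,1)]⟩⟩,⟨false,0,⟨0,[]⟩,⟨0,[]⟩⟩,⟨false,0,⟨0,[]⟩,⟨0,
  []⟩⟩,[.o ⟨false,0,⟨0,[(27,0)]⟩,⟨1,[(22,0),(5,1),(1,0)]⟩⟩,.o ⟨false,1,⟨1,[(11,0),(0,0),(14,1),(2,
  0)]⟩,⟨1,[(1,1),(0,0),(16,1),(8,0)]⟩⟩,.o ⟨false,1,⟨1,[(19,1),(2,0),(6,0)]⟩,⟨0,[(6,0)]⟩⟩,.a ⟨true,0,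
  ⟨0,[(19,0)]⟩,⟨0,[(15,0)]⟩⟩ ⟨false,1,⟨1,[(11,0),(0,0),(17,0)]⟩,⟨0,[]⟩⟩ ⟨true,0,⟨6,[(0,1),(2,1),(11,
  4),(9,0),(0,2)]⟩,⟨1,[(1,1),(0,0),(16,3),(8,0)]⟩⟩]⟩)))) (.Q [0,0,0,0,-1,0,2,2,0,1,-2] (.p false [0,
  0,1] [1,0,-1] (⟨0,[(18,0)]⟩,⟨0,[(17,0)]⟩) .k 2 (⟨0,[(17,0)]⟩,⟨0,[(18,0)]⟩) .k (.r 0 ⟨0,[(2,0),(1,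
  0),(11,0),(7,0)]⟩ ⟨0,[(3,1),(10,1),(12,0)]⟩)) (.Q [0,-1,1,1,0,0,0,1,0,1] (.pp false [-1,1]) (.I
  [0,-1,1,0,0,0,0,1] (.R ⟨0,false,false,true,[0,0,1],[1,0,-1],[0,0,1],(⟨0,[(21,0)]⟩,⟨0,[(20,0)]⟩),
  (⟨0,[(20,0)]⟩,⟨0,[(21,0)]⟩),⟨0,[(10,0)]⟩,.k,.k,.k,.k,.k,.k,⟨true,0,⟨0,[(0,0)]⟩,⟨0,[(6,0),(10,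
  0)]⟩⟩,⟨false,1,⟨1,[(3,1),(13,1),(1,1),(2,0),(3,1),(3,0)]⟩,⟨0,[(8,0)]⟩⟩,⟨false,1,⟨0,[(17,0),(0,0),
  (11,0)]⟩,⟨0,[(5,0)]⟩⟩,⟨true,1,⟨1,[(17,3),(4,0),(7,0)]⟩,⟨0,[(2,0)]⟩⟩,⟨false,0,⟨0,[]⟩,⟨0,[]⟩⟩,
  ⟨false,0,⟨0,[]⟩,⟨0,[]⟩⟩,[.a ⟨true,0,⟨0,[(17,0)]⟩,⟨1,[(1,0),(5,0),(7,0)]⟩⟩ ⟨true,0,⟨1,[(18,0),(0,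
  0)]⟩,⟨0,[]⟩⟩ ⟨false,1,⟨1,[(5,1),(11,3),(4,0),(7,0)]⟩,⟨1,[(2,0),(5,0),(21,0)]⟩⟩,.o ⟨false,1,⟨1,
  [(17,1),(4,0),(7,0)]⟩,⟨5,[(2,1),(13,1),(5,0),(7,0)]⟩⟩,.o ⟨false,0,⟨0,[(6,0)]⟩,⟨1,[(19,1),(2,0),(6,
  0)]⟩⟩,.o ⟨false,0,⟨0,[(18,0)]⟩,⟨1,[(5,1),(11,1),(4,0),(7,0)]⟩⟩]⟩) (.R ⟨0,false,false,false,[1,0,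
  -1],[0,0,1],[0,0,1,0,0,0,0,1],(⟨0,[(20,0)]⟩,⟨0,[(21,0)]⟩),(⟨0,[(21,0)]⟩,⟨0,[(20,0)]⟩),⟨0,[(9,0)]⟩,
  .k,.k,.k,.k,.k,.k,⟨true,0,⟨1,[(18,0),(0,0)]⟩,⟨0,[]⟩⟩,⟨false,0,⟨0,[(6,0),(8,0)]⟩,⟨1,[(5,1),(11,1),
  (1,1),(2,0),(7,0)]⟩⟩,⟨false,0,⟨1,[(1,0),(0,0),(0,0),(15,1),(2,0)]⟩,⟨1,[(0,2),(16,0),(0,0),(11,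
  1)]⟩⟩,⟨true,(-1),⟨0,[(2,0)]⟩,⟨1,[(17,3),(4,0),(7,0)]⟩⟩,⟨false,0,⟨0,[]⟩,⟨0,[]⟩⟩,⟨false,0,⟨0,[]⟩,⟨0,
  []⟩⟩,[.o ⟨false,0,⟨5,[(2,1),(13,1),(5,0),(7,0)]⟩,⟨1,[(17,1),(4,0),(7,0)]⟩⟩,.e ⟨false,1,⟨9,[(1,1),
  (1,1),(12,5),(2,5),(2,0),(6,2),(0,5)]⟩,⟨0,[(0,0)]⟩⟩ ⟨false,0,⟨0,[(0,0),(1,0),(27,0)]⟩,⟨1,[(17,1),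
  (1,1),(2,0),(6,0)]⟩⟩,.o ⟨false,1,⟨1,[(19,1),(2,0),(6,0)]⟩,⟨0,[(6,0)]⟩⟩,.a ⟨true,0,⟨0,[(19,0)]⟩,⟨0,
  [(15,0)]⟩⟩ ⟨true,0,⟨9,[(1,0),(0,0),(0,0),(1,3),(10,1),(2,3),(2,0)]⟩,⟨1,[(0,0),(16,0),(0,0)]⟩⟩
  ⟨false,0,⟨0,[(0,0),(1,0),(27,0)]⟩,⟨1,[(17,1),(1,1),(2,0),(7,0)]⟩⟩]⟩)) (.I [0,0,0,-1,0,0,0,-1] (.R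
  ⟨2,true,false,false,[0,1],[1,0,-1],[0,0,1,0,0,0,0,-1],(⟨0,[]⟩,⟨0,[]⟩),(⟨0,[(20,0)]⟩,⟨0,[(21,0)]⟩),
  ⟨0,[]⟩,.k,.k,.k,.k,.k,.k,⟨true,0,⟨1,[(18,0),(0,0)]⟩,⟨0,[]⟩⟩,⟨false,1,⟨1,[(19,1),(2,0),(6,0)]⟩,⟨0,
  [(15,0)]⟩⟩,⟨true,0,⟨0,[(0,0)]⟩,⟨11,[(2,1),(2,5),(10,1),(2,5),(2,0),(4,11),(2,0)]⟩⟩,⟨false,1,⟨0,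
  [(1,0),(17,0),(10,0)]⟩,⟨1,[(2,0),(17,0),(0,0),(5,1),(2,0)]⟩⟩,⟨false,1,⟨0,[(0,0),(26,0),(2,0)]⟩,
  ⟨11,[(2,1),(2,5),(10,1),(2,5),(2,0),(7,0)]⟩⟩,⟨true,1,⟨1,[(17,1),(4,0),(7,0)]⟩,⟨0,[(2,0),(14,0)]⟩⟩,
  []⟩) (.I [0,-1,1,0,0,0,0,1] (.R ⟨0,false,false,true,[0,0,1],[1,0,-1],[0,0,1],(⟨0,[(22,0)]⟩,⟨0,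
  [(21,0)]⟩),(⟨0,[(21,0)]⟩,⟨0,[(22,0)]⟩),⟨0,[(11,0)]⟩,.k,.k,.k,.k,.k,.k,⟨true,0,⟨0,[(0,0)]⟩,⟨0,[(7,
  0),(10,0)]⟩⟩,⟨false,1,⟨1,[(1,1),(2,1),(13,3),(4,0),(7,0)]⟩,⟨0,[(9,0)]⟩⟩,⟨false,1,⟨0,[(18,0),(0,0),
  (11,0)]⟩,⟨0,[(6,0)]⟩⟩,⟨true,1,⟨1,[(18,3),(4,0),(7,0)]⟩,⟨0,[(3,0)]⟩⟩,⟨false,0,⟨0,[]⟩,⟨0,[]⟩⟩,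
  ⟨false,0,⟨0,[]⟩,⟨0,[]⟩⟩,[.a ⟨true,0,⟨0,[(18,0)]⟩,⟨1,[(3,0),(17,0),(0,0),(8,0)]⟩⟩ ⟨true,0,⟨1,[(19,
  0),(0,0)]⟩,⟨0,[]⟩⟩ ⟨false,1,⟨1,[(6,1),(11,3),(4,0),(7,0)]⟩,⟨1,[(3,0),(5,0),(21,0)]⟩⟩,.o ⟨false,1,
  ⟨1,[(18,1),(4,0),(7,0)]⟩,⟨5,[(3,1),(13,1),(5,0),(7,0)]⟩⟩,.o ⟨false,0,⟨0,[(7,0)]⟩,⟨1,[(20,1),(2,0),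
  (6,0)]⟩⟩,.o ⟨false,0,⟨0,[(19,0)]⟩,⟨1,[(6,1),(11,1),(4,0),(7,0)]⟩⟩]⟩) (.R ⟨0,false,false,false,[1,
  0,-1],[0,0,1],[1,0,0,0,0,0,0,1],(⟨0,[(21,0)]⟩,⟨0,[(22,0)]⟩),(⟨0,[(22,0)]⟩,⟨0,[(21,0)]⟩),⟨0,[(10,
  0)]⟩,.k,.k,.k,.k,.k,.k,⟨true,0,⟨0,[]⟩,⟨1,[(19,0),(0,0)]⟩⟩,⟨false,0,⟨0,[(7,0),(8,0)]⟩,⟨1,[(6,1),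
  (11,1),(1,1),(2,0),(7,0)]⟩⟩,⟨false,0,⟨1,[(1,1),(2,0),(3,0),(11,0)]⟩,⟨0,[(0,0),(17,0),(0,0),(11,
  0)]⟩⟩,⟨true,(-1),⟨0,[(3,0)]⟩,⟨1,[(18,3),(4,0),(7,0)]⟩⟩,⟨false,0,⟨0,[]⟩,⟨0,[]⟩⟩,⟨false,0,⟨0,[]⟩,⟨0,
  []⟩⟩,[.o ⟨false,0,⟨5,[(3,1),(13,1),(5,0),(7,0)]⟩,⟨1,[(18,1),(4,0),(7,0)]⟩⟩,.e ⟨false,1,⟨2,[(6,1),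
  (10,0),(2,0),(9,0),(0,1)]⟩,⟨1,[(0,0),(17,0),(0,0)]⟩⟩ ⟨false,0,⟨0,[(0,0),(2,0),(27,0)]⟩,⟨1,[(18,1),
  (1,1),(2,0),(6,0)]⟩⟩,.o ⟨false,1,⟨1,[(20,1),(2,0),(6,0)]⟩,⟨0,[(7,0)]⟩⟩,.a ⟨true,0,⟨0,[(20,0)]⟩,⟨0,
  [(16,0)]⟩⟩ ⟨true,0,⟨0,[(6,0)]⟩,⟨0,[(18,0),(0,0)]⟩⟩ ⟨false,0,⟨0,[(0,0),(2,0),(27,0)]⟩,⟨1,[(18,1),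
  (1,1),(2,0),(7,0)]⟩⟩]⟩)))) (.I [0,-1,1,1,1,0,0,-1] (.Q [0,1,0,-1,0,0,0,0,0,-1] (.pp true [-1,1])
  (.Q [0,0,0,0,0,0,-1,0,0,1,1] (.p true [1,-1,1] [] (⟨0,[(21,0),(1,0)]⟩,⟨0,[(10,0)]⟩) .k 0 (⟨0,[]⟩,
  ⟨0,[]⟩) .k .k) (.R ⟨0,false,false,false,[0,1,-1],[0,1],[1,1],(⟨0,[(11,0)]⟩,⟨0,[(22,0),(1,0)]⟩),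
  (⟨0,[(25,0)]⟩,⟨0,[(24,0)]⟩),⟨0,[(22,0)]⟩,.k,.k,.k,.k,.k,.k,⟨false,0,⟨2,[(5,3),(20,0),(0,0)]⟩,⟨1,
  [(19,0),(0,0),(7,1),(2,1)]⟩⟩,⟨true,0,⟨0,[(7,0)]⟩,⟨0,[(20,0)]⟩⟩,⟨false,0,⟨4,[(0,0),(0,0),(2,3),(12,
  0),(8,0)]⟩,⟨0,[(2,0)]⟩⟩,⟨true,0,⟨0,[(8,0),(19,0)]⟩,⟨0,[(18,0)]⟩⟩,⟨false,0,⟨0,[]⟩,⟨0,[]⟩⟩,⟨false,0,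
  ⟨0,[]⟩,⟨0,[]⟩⟩,[.e ⟨false,0,⟨2,[(5,0),(20,0),(0,0)]⟩,⟨1,[(12,0),(0,0),(17,0)]⟩⟩ ⟨false,1,⟨9,[(2,
  5),(6,1),(7,5),(5,0),(3,3),(2,0),(0,1)]⟩,⟨0,[(4,0),(13,0)]⟩⟩,.o ⟨false,1,⟨0,[(28,0),(2,0)]⟩,⟨0,
  [(1,0)]⟩⟩,.e ⟨false,0,⟨0,[]⟩,⟨1,[(12,0),(0,0),(17,0)]⟩⟩ ⟨false,1,⟨0,[(19,0),(8,0),(2,0)]⟩,⟨0,[(4,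
  0),(13,0)]⟩⟩,.a ⟨true,0,⟨0,[(0,0)]⟩,⟨0,[(7,0)]⟩⟩ ⟨true,0,⟨2,[(5,0),(20,0),(0,0)]⟩,⟨1,[(19,0),(0,
  0)]⟩⟩ ⟨false,1,⟨0,[(7,0),(20,0),(2,0)]⟩,⟨1,[(4,0),(13,0),(1,0),(8,0)]⟩⟩]⟩) (.Q [0,0,0,1,0,0,1,1,0,
  1,-1] (.p false [0,0,1] [1] (⟨0,[(22,0)]⟩,⟨0,[(21,0)]⟩) .k 1 (⟨0,[]⟩,⟨0,[]⟩) .k .k) (.R ⟨0,false,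
  false,false,[1,0,-1],[0,1],[0,1],(⟨0,[(22,0)]⟩,⟨0,[(23,0)]⟩),(⟨0,[(26,0)]⟩,⟨0,[(25,0)]⟩),⟨0,[(11,
  0)]⟩,.k,.k,.k,.k,.k,.k,⟨false,0,⟨2,[(6,3),(20,0),(0,0)]⟩,⟨3,[(0,1),(2,1),(17,1),(2,0),(7,0)]⟩⟩,
  ⟨true,0,⟨0,[(17,0)]⟩,⟨0,[(1,0),(19,1)]⟩⟩,⟨false,0,⟨6,[(0,0),(0,0),(5,3),(1,0),(8,0),(2,3)]⟩,⟨1,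
  [(4,0),(5,0),(21,0)]⟩⟩,⟨true,0,⟨0,[(0,0)]⟩,⟨1,[(1,1),(3,0),(13,2),(1,0),(8,0)]⟩⟩,⟨false,0,⟨0,[]⟩,
  ⟨0,[]⟩⟩,⟨false,0,⟨0,[]⟩,⟨0,[]⟩⟩,[.o ⟨false,1,⟨3,[(0,3),(3,1),(8,0),(0,0),(9,0)]⟩,⟨1,[(1,1),(3,0),
  (13,0),(1,0),(8,0)]⟩⟩,.o ⟨false,1,⟨0,[(29,0),(2,0)]⟩,⟨0,[(2,0)]⟩⟩,.o ⟨false,1,⟨1,[(21,1),(2,0),(6,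
  0)]⟩,⟨0,[(8,0)]⟩⟩,.a ⟨true,0,⟨0,[(21,0)]⟩,⟨0,[(17,0)]⟩⟩ ⟨true,0,⟨2,[(6,0),(20,0),(0,0)]⟩,⟨1,[(20,
  0),(0,0)]⟩⟩ ⟨false,1,⟨5,[(0,1),(2,1),(13,3),(10,1),(2,0),(0,2)]⟩,⟨1,[(1,1),(3,0),(13,0),(1,2),(8,
  0)]⟩⟩]⟩) (.R ⟨0,false,false,false,[1,0,-1],[0,1],[1,0,1],(⟨0,[(22,0)]⟩,⟨0,[(23,0)]⟩),(⟨0,[(26,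
  0)]⟩,⟨0,[(25,0)]⟩),⟨0,[(11,0)]⟩,.k,.k,.k,.k,.k,.k,⟨false,0,⟨0,[(6,0)]⟩,⟨1,[(13,0),(0,0),(14,1),(2,
  0)]⟩⟩,⟨true,0,⟨0,[(17,0)]⟩,⟨0,[(1,0),(19,1)]⟩⟩,⟨true,0,⟨0,[(9,0),(11,0),(7,0)]⟩,⟨2,[(0,0),(0,0),
  (15,1),(1,1),(8,0)]⟩⟩,⟨false,1,⟨0,[(7,0),(2,0),(10,0),(7,0),(2,0)]⟩,⟨0,[(0,0)]⟩⟩,⟨false,0,⟨0,[]⟩,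
  ⟨0,[]⟩⟩,⟨false,0,⟨0,[]⟩,⟨0,[]⟩⟩,[.o ⟨false,1,⟨1,[(13,0),(0,0),(14,1),(2,0)]⟩,⟨5,[(0,1),(0,1),(0,
  1),(2,0),(3,0),(11,0)]⟩⟩,.o ⟨false,1,⟨0,[(29,0),(2,0)]⟩,⟨0,[(2,0)]⟩⟩,.o ⟨false,1,⟨1,[(21,1),(2,0),
  (6,0)]⟩,⟨0,[(8,0)]⟩⟩,.a ⟨true,0,⟨0,[(21,0)]⟩,⟨0,[(17,0)]⟩⟩ ⟨true,0,⟨0,[]⟩,⟨0,[(34,0)]⟩⟩ ⟨false,1,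
  ⟨0,[(17,0),(11,0),(2,0)]⟩,⟨5,[(0,1),(0,1),(0,1),(2,0),(3,0),(11,6)]⟩⟩]⟩))) (.I [0,1,2,1,0,0,0,-1]
  (.R ⟨0,false,false,false,[0,0,1],[1,-1,1],[0,1,1],(⟨0,[(22,0)]⟩,⟨0,[(21,0)]⟩),(⟨0,[(22,0),(1,0)]⟩,
  ⟨0,[(11,0)]⟩),⟨0,[(11,0)]⟩,.k,.k,.k,.k,.k,.k,⟨true,0,⟨0,[(0,0)]⟩,⟨0,[(4,0)]⟩⟩,⟨false,1,⟨1,[(12,0),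
  (0,0),(9,0)]⟩,⟨4,[(1,1),(2,1),(11,1),(1,1),(2,0),(0,0),(3,0)]⟩⟩,⟨true,0,⟨0,[(18,0),(0,0)]⟩,⟨0,[(6,
  0)]⟩⟩,⟨false,1,⟨1,[(23,0),(5,1),(1,0)]⟩,⟨12,[(0,0),(0,11),(7,0),(7,0),(2,2),(5,4)]⟩⟩,⟨false,0,⟨0,
  []⟩,⟨0,[]⟩⟩,⟨false,0,⟨0,[]⟩,⟨0,[]⟩⟩,[.e ⟨false,0,⟨7,[(0,0),(16,0),(2,0),(5,2),(2,0)]⟩,⟨1,[(30,0),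
  (0,0)]⟩⟩ ⟨false,1,⟨1,[(4,0),(12,0),(2,0),(2,0),(5,0),(0,0)]⟩,⟨0,[(1,0),(5,0),(10,0)]⟩⟩,.a ⟨true,0,
  ⟨0,[(8,0)]⟩,⟨6,[(0,0),(0,5),(16,5),(1,0),(0,0),(0,0),(3,2)]⟩⟩ ⟨true,0,⟨2,[(0,0),(7,0),(11,0)]⟩,⟨0,
  []⟩⟩ ⟨false,1,⟨1,[(4,1),(7,0),(0,0),(9,0)]⟩,⟨2,[(0,0),(0,0),(14,1),(1,1),(9,0)]⟩⟩,.o ⟨false,0,⟨0,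
  [(7,0)]⟩,⟨1,[(20,1),(2,0),(6,0)]⟩⟩,.o ⟨false,0,⟨0,[(19,0)]⟩,⟨2,[(3,0),(2,1),(13,0),(2,0),(6,
  0)]⟩⟩]⟩) (.Q [-1,-1,1,0,1,0,0,0,-1,-1,0,1] (.p true [0,0,0,0,1] [1] (⟨0,[(15,0)]⟩,⟨0,[(14,0)]⟩)
  .k 1 (⟨0,[]⟩,⟨0,[]⟩) .k .k) (.R ⟨0,false,false,true,[1,-1],[0,0,0,0,1],[2,1],(⟨0,[(25,0)]⟩,⟨0,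
  [(26,0)]⟩),(⟨0,[(16,0)]⟩,⟨0,[(15,0)]⟩),⟨0,[(11,0),(0,0)]⟩,.k,.k,(.r 0 ⟨0,[(6,1)]⟩ ⟨2,[(2,1),(0,1),
  (14,1),(1,0),(0,2),(2,0),(4,1)]⟩),(.r 0 ⟨0,[(1,0),(6,0),(10,0),(13,0)]⟩ ⟨3,[(3,1),(9,0),(0,0),(3,
  1),(2,1),(7,1),(2,0)]⟩),.k,.k,⟨true,0,⟨0,[]⟩,⟨1,[(20,0),(0,0)]⟩⟩,⟨false,0,⟨6,[(1,3),(0,2),(11,6),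
  (2,3),(1,3),(7,0),(0,0)]⟩,⟨0,[(0,0),(33,0)]⟩⟩,⟨true,0,⟨1,[(20,0),(0,0),(7,1)]⟩,⟨0,[(1,0),(6,0),
  (10,0),(13,0)]⟩⟩,⟨false,0,⟨5,[(2,4),(7,0),(3,5),(6,1),(5,1),(1,0)]⟩,⟨0,[(0,0),(5,0)]⟩⟩,⟨false,0,
  ⟨0,[]⟩,⟨0,[]⟩⟩,⟨false,0,⟨0,[]⟩,⟨0,[]⟩⟩,[.e ⟨false,0,⟨2,[(6,0),(20,0),(0,0)]⟩,⟨4,[(13,1),(0,1),(17,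
  2),(1,0)]⟩⟩ ⟨false,0,⟨6,[(1,2),(0,2),(11,6),(2,2),(1,2),(2,0),(0,0),(3,4)]⟩,⟨0,[(0,0)]⟩⟩,.o
  ⟨false,0,⟨0,[(14,0)]⟩,⟨2,[(0,2),(5,0),(20,0),(0,0)]⟩⟩,.e ⟨false,0,⟨0,[]⟩,⟨4,[(13,1),(0,1),(17,2),
  (1,0)]⟩⟩ ⟨false,0,⟨6,[(1,1),(0,1),(11,6),(2,1),(1,1),(2,2),(0,2),(3,0)]⟩,⟨0,[(0,0)]⟩⟩,.a ⟨true,0,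
  ⟨0,[(20,0),(0,0)]⟩,⟨6,[(1,3),(0,2),(14,3),(1,3),(7,0),(0,0)]⟩⟩ ⟨true,0,⟨2,[(6,0),(20,0),(0,0)]⟩,
  ⟨0,[(33,0)]⟩⟩ ⟨false,0,⟨6,[(1,3),(0,2),(11,6),(2,3),(1,3),(7,0),(0,0)]⟩,⟨1,[(0,1),(19,0),(0,
  0)]⟩⟩]⟩) (.Q [0,0,0,0,1,0,-1,0,0,-2,1] (.p true [-1,1,1] [1] (⟨0,[(11,0)]⟩,⟨0,[(22,0),(2,0)]⟩) .k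
  1 (⟨0,[]⟩,⟨0,[]⟩) .k .k) (.Q [-1,-1,0,-1,1,0,0,0,-1,-1,0,1] (.p true [0,0,0,0,1] [1] (⟨0,[(17,
  0)]⟩,⟨0,[(16,0)]⟩) .k 1 (⟨0,[]⟩,⟨0,[]⟩) .k .k) (.R ⟨2,true,false,false,[0,1],[1,0,0,0,-1],[],(⟨0,
  []⟩,⟨0,[]⟩),(⟨0,[(17,0)]⟩,⟨0,[(18,0)]⟩),⟨0,[]⟩,.k,.k,.k,(.r (-1) ⟨3,[(5,1),(9,0),(0,0),(3,1),(2,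
  1),(7,1),(2,0)]⟩ ⟨0,[(3,0),(6,0),(10,0),(13,0)]⟩),.k,.k,⟨true,0,⟨0,[]⟩,⟨1,[(22,0),(0,0)]⟩⟩,⟨false,
  1,⟨0,[(0,0),(30,0)]⟩,⟨3,[(2,1),(13,1),(7,1),(0,1),(7,0),(0,0)]⟩⟩,⟨true,0,⟨0,[(8,0)]⟩,⟨1,[(22,0),
  (0,0),(7,1)]⟩⟩,⟨false,1,⟨0,[(0,0)]⟩,⟨3,[(2,0),(1,2),(0,0),(10,2),(3,0),(2,0),(5,0)]⟩⟩,⟨false,1,⟨1,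
  [(33,0),(0,0)]⟩,⟨1,[(22,0),(0,0)]⟩⟩,⟨true,1,⟨0,[(0,0),(30,0)]⟩,⟨1,[(2,1),(19,0),(0,0)]⟩⟩,[]⟩) (.I
  [0,-1,1,0,0,0,0,1] (.R ⟨0,false,false,false,[-1,1,1],[0,0,1],[0,0,1,0,0,0,0,1],(⟨0,[(14,0)]⟩,⟨0,
  [(25,0),(2,0)]⟩),(⟨0,[(26,0)]⟩,⟨0,[(25,0)]⟩),⟨0,[(25,0)]⟩,.k,.k,.k,.k,.k,.k,⟨true,0,⟨1,[(23,0),(0,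
  0)]⟩,⟨0,[]⟩⟩,⟨false,1,⟨1,[(16,0),(0,0),(9,0)]⟩,⟨3,[(3,0),(0,0),(0,0),(10,0),(3,0),(1,0),(5,0),(0,
  0)]⟩⟩,⟨true,0,⟨0,[(33,0)]⟩,⟨0,[(32,0)]⟩⟩,⟨false,1,⟨1,[(27,0),(5,1),(1,0)]⟩,⟨4,[(1,1),(3,2),(10,1),
  (20,0)]⟩⟩,⟨false,0,⟨0,[]⟩,⟨0,[]⟩⟩,⟨false,0,⟨0,[]⟩,⟨0,[]⟩⟩,[.o ⟨false,0,⟨2,[(0,0),(10,0),(0,0),(8,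
  0),(9,0)]⟩,⟨3,[(7,1),(8,0),(0,0),(9,0)]⟩⟩,.a ⟨true,0,⟨0,[(0,0),(19,0)]⟩,⟨0,[(22,0)]⟩⟩ ⟨true,0,⟨0,
  [(0,0)]⟩,⟨0,[(11,0),(10,0)]⟩⟩ ⟨false,1,⟨5,[(0,1),(1,1),(7,1),(10,1),(5,0),(7,2)]⟩,⟨0,[(20,0),(1,
  0)]⟩⟩,.o ⟨false,0,⟨0,[(20,0)]⟩,⟨1,[(2,1),(20,0),(0,0)]⟩⟩,.o ⟨false,0,⟨1,[(13,0),(11,0),(0,0)]⟩,⟨0,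
  [(2,0)]⟩⟩]⟩) (.I [0,0,1,1,0,0,0,1] (.Q [1,0,0,0,-1,0,0,0,1,1,0,-1] (.p false [0,0,0,0,1] [1] (⟨0,
  [(20,0)]⟩,⟨0,[(19,0)]⟩) .k 1 (⟨0,[]⟩,⟨0,[]⟩) .k .k) (.Q [-1,-1,0,0,1,0,1,1,-1,0,-1,1] (.p false
  [0,0,1] [0,0,0,0,1] (⟨0,[(28,0)]⟩,⟨0,[(27,0)]⟩) .k 2 (⟨0,[(21,0)]⟩,⟨0,[(20,0)]⟩) .k (.r 0 ⟨12,[(1,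
  5),(8,5),(12,0),(2,0),(5,0),(6,2)]⟩ ⟨1,[(9,0),(5,0),(2,0),(0,0)]⟩)) (.Q [-1,0,0,-1,2,0,-1,-1,-1,
  -2,1,1] (.p true [-1,1,1] [1,0,0,0,-1] (⟨0,[(17,0)]⟩,⟨0,[(28,0),(2,0)]⟩) .k 2 (⟨0,[(21,0)]⟩,⟨0,
  [(22,0)]⟩) .k (.r 0 ⟨3,[(2,0),(8,0),(1,0),(10,0),(2,0)]⟩ ⟨17,[(9,3),(0,6),(5,6),(2,4),(0,4),(15,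
  3),(0,1),(2,3)]⟩)) (.R ⟨0,false,false,true,[-1,1,1],[1,0,0,0,-1],[1,1],(⟨0,[(18,0)]⟩,⟨0,[(29,0),
  (2,0)]⟩),(⟨0,[(22,0)]⟩,⟨0,[(23,0)]⟩),⟨0,[(29,0)]⟩,.k,.k,.k,(.r 0 ⟨0,[(3,0)]⟩ ⟨1,[(11,0),(5,0),(19,
  1),(0,0)]⟩),.k,.k,⟨true,0,⟨0,[]⟩,⟨0,[(40,0)]⟩⟩,⟨false,2,⟨0,[(6,0),(13,0)]⟩,⟨4,[(2,4),(6,0),(3,1),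
  (3,0),(6,2),(10,0),(4,0)]⟩⟩,⟨true,0,⟨0,[(4,0),(32,0)]⟩,⟨0,[(3,0)]⟩⟩,⟨false,2,⟨0,[(0,0)]⟩,⟨0,[(5,
  0),(3,0),(6,0)]⟩⟩,⟨false,0,⟨0,[]⟩,⟨0,[]⟩⟩,⟨false,0,⟨0,[]⟩,⟨0,[]⟩⟩,[.e ⟨false,0,⟨6,[(4,0),(3,0),
  (25,2),(0,0)]⟩,⟨1,[(20,0),(0,0),(17,0)]⟩⟩ ⟨false,2,⟨1,[(0,0),(2,0),(2,0),(13,0),(13,0)]⟩,⟨0,[(2,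
  0),(1,0),(4,0),(6,0)]⟩⟩,.a ⟨true,1,⟨0,[(1,0),(24,0)]⟩,⟨0,[(2,0)]⟩⟩ ⟨true,0,⟨0,[]⟩,⟨1,[(27,0),(0,
  0)]⟩⟩ ⟨false,2,⟨2,[(0,0),(0,0),(4,1),(13,0),(7,0),(6,0)]⟩,⟨0,[(2,0),(21,0)]⟩⟩,.o ⟨false,0,⟨0,[(24,
  0)]⟩,⟨1,[(6,1),(20,0),(0,0)]⟩⟩,.o ⟨false,0,⟨1,[(17,0),(11,0),(0,0)]⟩,⟨0,[(6,0)]⟩⟩]⟩) (.R ⟨0,false,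
  false,true,[0,0,1],[0,0,0,0,1],[0,1,1],(⟨0,[(30,0)]⟩,⟨0,[(29,0)]⟩),(⟨0,[(23,0)]⟩,⟨0,[(22,0)]⟩),⟨0,
  [(19,0)]⟩,.k,.k,.k,.k,.k,.k,⟨true,0,⟨0,[(40,0)]⟩,⟨0,[]⟩⟩,⟨false,0,⟨1,[(3,0),(3,0),(0,0),(2,0),(9,
  0)]⟩,⟨1,[(1,0),(2,0),(15,0),(6,0)]⟩⟩,⟨true,0,⟨0,[(26,0),(0,0)]⟩,⟨0,[(14,0)]⟩⟩,⟨false,0,⟨1,[(2,0),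
  (8,0),(9,0)]⟩,⟨0,[(1,0)]⟩⟩,⟨false,0,⟨0,[]⟩,⟨0,[]⟩⟩,⟨false,0,⟨0,[]⟩,⟨0,[]⟩⟩,[.o ⟨false,(-1),⟨0,[(0,
  0),(25,0),(4,0),(5,0)]⟩,⟨3,[(1,3),(9,1),(8,0),(0,0),(9,0)]⟩⟩,.a ⟨true,(-1),⟨0,[(2,0)]⟩,⟨0,[(1,0),
  (24,0)]⟩⟩ ⟨true,0,⟨1,[(27,0),(0,0)]⟩,⟨0,[]⟩⟩ ⟨false,0,⟨1,[(2,0),(8,0),(2,1),(6,0)]⟩,⟨4,[(1,2),(2,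
  2),(15,1),(6,1),(12,0)]⟩⟩,.o ⟨false,0,⟨0,[(15,0)]⟩,⟨3,[(6,1),(13,0),(0,0),(6,1),(9,0)]⟩⟩,.o
  ⟨false,0,⟨0,[(27,0)]⟩,⟨4,[(6,1),(4,0),(2,1),(13,0),(9,1)]⟩⟩]⟩)) (.Q [-1,0,0,0,1,0,0,0,-1,0,0,1]
  (.p true [0,0,0,0,1] [] (⟨0,[(22,0)]⟩,⟨0,[(21,0)]⟩) .k 0 (⟨0,[]⟩,⟨0,[]⟩) .k .k) (.R ⟨0,false,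
  false,true,[0,0,1],[1,0,0,0,-1],[-1,1,1],(⟨0,[(30,0)]⟩,⟨0,[(29,0)]⟩),(⟨0,[(22,0)]⟩,⟨0,[(23,0)]⟩),
  ⟨0,[(19,0)]⟩,.k,.k,.k,.k,.k,.k,⟨true,0,⟨1,[(27,0),(0,0)]⟩,⟨0,[]⟩⟩,⟨false,2,⟨4,[(6,1),(4,0),(2,1),
  (5,4),(7,0),(9,1)]⟩,⟨10,[(1,1),(0,8),(5,1),(0,0),(5,10),(1,0),(17,0),(4,4)]⟩⟩,⟨true,0,⟨3,[(4,0),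
  (21,2),(0,2),(12,1)]⟩,⟨0,[(14,0)]⟩⟩,⟨false,2,⟨3,[(0,3),(10,1),(8,0),(0,0),(9,0)]⟩,⟨5,[(1,3),(1,1),
  (1,1),(2,0),(0,3),(5,2),(0,6)]⟩⟩,⟨false,0,⟨0,[]⟩,⟨0,[]⟩⟩,⟨false,0,⟨0,[]⟩,⟨0,[]⟩⟩,[.e ⟨false,0,⟨0,
  [(41,0)]⟩,⟨1,[(38,0),(0,0)]⟩⟩ ⟨false,2,⟨1,[(6,0),(13,1),(7,0),(5,0),(3,0)]⟩,⟨0,[(1,0),(7,0),(5,0),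
  (0,0)]⟩⟩,.a ⟨true,1,⟨0,[(0,0)]⟩,⟨0,[(2,0)]⟩⟩ ⟨true,0,⟨0,[(40,0)]⟩,⟨0,[]⟩⟩ ⟨false,2,⟨4,[(0,2),(5,
  1),(4,0),(2,1),(5,1),(7,0),(9,1)]⟩,⟨0,[(2,0),(12,0)]⟩⟩,.o ⟨false,0,⟨0,[(15,0)]⟩,⟨3,[(6,1),(13,0),
  (0,0),(6,1),(9,0)]⟩⟩,.o ⟨false,0,⟨0,[(27,0)]⟩,⟨4,[(6,1),(4,0),(2,1),(13,0),(9,1)]⟩⟩]⟩) (.R ⟨2,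
  false,false,false,[0,1],[1,0,0,0,-1],[1],(⟨0,[]⟩,⟨0,[]⟩),(⟨0,[(22,0)]⟩,⟨0,[(23,0)]⟩),⟨0,[]⟩,.k,.k,
  .k,(.r (-1) ⟨4,[(3,1),(6,2),(9,1),(0,1),(3,0),(2,0),(5,0)]⟩ ⟨0,[(4,0),(3,0),(31,1)]⟩),.k,.k,⟨true,
  0,⟨0,[]⟩,⟨0,[(40,0)]⟩⟩,⟨false,2,⟨1,[(20,2),(0,0),(9,0)]⟩,⟨2,[(0,0),(1,1),(6,0),(3,1),(21,0)]⟩⟩,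
  ⟨true,0,⟨0,[(13,0)]⟩,⟨1,[(27,0),(0,0),(7,1)]⟩⟩,⟨false,2,⟨1,[(20,1),(10,0),(5,1),(1,0)]⟩,⟨1,[(0,0),
  (4,0),(3,0)]⟩⟩,⟨false,1,⟨1,[(38,0),(0,0)]⟩,⟨1,[(27,0),(0,0)]⟩⟩,⟨false,2,⟨10,[(4,0),(3,0),(0,0),
  (10,10),(10,5),(7,4),(0,2)]⟩,⟨0,[(2,0)]⟩⟩,[.o ⟨false,2,⟨9,[(20,12),(0,2),(9,4),(7,1),(1,3)]⟩,⟨0,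
  [(0,0)]⟩⟩,.o ⟨false,2,⟨10,[(4,0),(3,0),(0,0),(10,10),(10,5),(7,4),(0,2)]⟩,⟨1,[(0,0),(0,0),(23,
  0)]⟩⟩,.a ⟨true,0,⟨3,[(7,0),(0,0),(0,0),(10,0),(3,0),(1,0),(5,0),(0,0)]⟩,⟨1,[(27,0),(0,0)]⟩⟩ ⟨true,
  0,⟨0,[]⟩,⟨0,[(41,0)]⟩⟩ ⟨false,2,⟨7,[(6,3),(13,7),(6,4),(0,0),(10,3),(0,1)]⟩,⟨3,[(0,0),(0,0),(0,0),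
  (4,0),(0,0),(0,0),(14,0)]⟩⟩,.e ⟨false,1,⟨1,[(38,0),(0,0)]⟩,⟨1,[(27,0),(0,0)]⟩⟩ ⟨false,2,⟨10,[(4,
  0),(3,0),(0,0),(10,10),(10,5),(7,4),(0,2)]⟩,⟨0,[(2,0)]⟩⟩]⟩))) (.Q [1,-1,1,0,0,0,0,0,1,0,0,-1] (.p
  false [0,0,0,0,1] [] (⟨0,[(21,0)]⟩,⟨0,[(20,0)]⟩) .k 0 (⟨0,[]⟩,⟨0,[]⟩) .k .k) (.R ⟨0,false,false,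
  true,[1,-1],[1,0,0,0,-1],[1,1],(⟨0,[(31,0)]⟩,⟨0,[(32,0)]⟩),(⟨0,[(21,0)]⟩,⟨0,[(22,0)]⟩),⟨0,[(17,0),
  (0,0)]⟩,.k,.k,(.r 0 ⟨0,[(12,1)]⟩ ⟨0,[(2,0),(6,0),(30,0)]⟩),(.r 0 ⟨0,[(12,0)]⟩ ⟨4,[(2,1),(6,2),(9,
  1),(0,1),(3,0),(2,0),(5,0)]⟩),.k,.k,⟨true,0,⟨0,[]⟩,⟨0,[(39,0)]⟩⟩,⟨false,1,⟨6,[(1,1),(1,3),(3,3),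
  (0,1),(10,4),(14,1)]⟩,⟨0,[(0,0),(39,0)]⟩⟩,⟨true,0,⟨1,[(26,0),(0,0),(7,1)]⟩,⟨0,[(12,0)]⟩⟩,⟨false,1,
  ⟨1,[(1,0),(6,0),(10,0),(15,0)]⟩,⟨0,[(0,0),(11,0)]⟩⟩,⟨false,0,⟨0,[]⟩,⟨0,[]⟩⟩,⟨false,0,⟨0,[]⟩,⟨0,
  []⟩⟩,[.e ⟨false,0,⟨6,[(3,0),(3,0),(25,2),(0,0)]⟩,⟨1,[(19,0),(0,0),(17,0)]⟩⟩ ⟨false,1,⟨8,[(3,2),(3,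
  2),(4,1),(6,8),(13,1),(0,4)]⟩,⟨0,[(0,0)]⟩⟩,.o ⟨false,1,⟨0,[(1,0)]⟩,⟨0,[(20,0)]⟩⟩,.e ⟨false,0,⟨0,
  []⟩,⟨1,[(19,0),(0,0),(17,0)]⟩⟩ ⟨false,1,⟨10,[(1,2),(1,0),(3,0),(0,2),(3,4),(6,7),(14,2)]⟩,⟨0,[(0,
  0)]⟩⟩,.a ⟨true,0,⟨0,[(26,0),(0,0)]⟩,⟨6,[(3,0),(3,3),(0,3),(14,2),(1,2),(7,1)]⟩⟩ ⟨true,0,⟨6,[(3,0),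
  (3,0),(25,2),(0,0)]⟩,⟨1,[(26,0),(0,0)]⟩⟩ ⟨false,1,⟨10,[(1,3),(1,4),(3,4),(0,3),(3,2),(6,6),(14,
  3)]⟩,⟨1,[(0,1),(25,0),(0,0)]⟩⟩]⟩) (.R ⟨2,true,false,false,[0,1],[0,0,0,0,1],[0,0,1],(⟨0,[]⟩,⟨0,
  []⟩),(⟨0,[(22,0)]⟩,⟨0,[(21,0)]⟩),⟨0,[]⟩,.k,.k,.k,(.r (-1) ⟨4,[(2,1),(6,2),(9,1),(0,1),(3,0),(2,0),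
  (5,0)]⟩ ⟨0,[(12,0)]⟩),.k,.k,⟨true,0,⟨0,[(39,0)]⟩,⟨0,[]⟩⟩,⟨false,0,⟨0,[(20,0)]⟩,⟨3,[(0,1),(18,1),
  (17,0),(0,0)]⟩⟩,⟨true,0,⟨0,[(36,0)]⟩,⟨0,[(35,0)]⟩⟩,⟨false,0,⟨0,[(4,0),(5,0),(4,1)]⟩,⟨1,[(1,0),(6,
  0),(10,0),(15,0)]⟩⟩,⟨false,1,⟨1,[(19,0),(0,0),(17,0)]⟩,⟨0,[]⟩⟩,⟨true,0,⟨0,[(20,0)]⟩,⟨1,[(0,1),(25,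
  0),(0,0)]⟩⟩,[]⟩))) (.I [0,0,-1,-1,0,0,0,-1] (.R ⟨0,false,false,true,[1,0,-1],[0,1],[1,1,1,1],(⟨0,
  [(27,0)]⟩,⟨0,[(28,0)]⟩),(⟨0,[(31,0)]⟩,⟨0,[(30,0)]⟩),⟨0,[(16,0)]⟩,.k,.k,.k,.k,.k,.k,⟨true,0,⟨0,[]⟩,
  ⟨1,[(25,0),(0,0)]⟩⟩,⟨false,0,⟨5,[(2,1),(3,1),(0,0),(5,0),(8,4),(10,0)]⟩,⟨3,[(4,1),(13,1),(0,1),(5,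
  0),(0,2)]⟩⟩,⟨true,0,⟨0,[(14,0),(11,0),(7,1)]⟩,⟨0,[(0,0)]⟩⟩,⟨false,0,⟨0,[(7,0),(15,0)]⟩,⟨0,[(9,0),
  (4,0)]⟩⟩,⟨false,0,⟨0,[]⟩,⟨0,[]⟩⟩,⟨false,0,⟨0,[]⟩,⟨0,[]⟩⟩,[.o ⟨false,0,⟨0,[(34,0)]⟩,⟨1,[(29,0),(5,
  1),(1,0)]⟩⟩,.e ⟨false,1,⟨1,[(18,0),(0,0),(14,1),(2,0)]⟩,⟨0,[(11,0)]⟩⟩ ⟨false,0,⟨1,[(7,0),(5,0),(8,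
  0),(10,0)]⟩,⟨3,[(4,1),(13,0),(0,0),(6,1),(8,3),(0,0)]⟩⟩,.o ⟨false,1,⟨3,[(4,1),(13,0),(0,0),(6,1),
  (9,0)]⟩,⟨0,[(13,0)]⟩⟩,.a ⟨true,0,⟨0,[(26,0)]⟩,⟨0,[(22,0)]⟩⟩ ⟨true,0,⟨0,[(34,0)]⟩,⟨0,[(35,0)]⟩⟩
  ⟨false,0,⟨1,[(7,0),(5,0),(8,0),(10,0)]⟩,⟨3,[(4,1),(20,0),(0,2),(8,3),(1,1)]⟩⟩]⟩) (.N [0,1,1] 0 ⟨0,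
  [(0,0)]⟩ ⟨0,[(1,0)]⟩ .k))))) (.R ⟨0,false,false,true,[-1,1,1],[0,1],[1,1,1,1],(⟨0,[(12,0)]⟩,⟨0,
  [(23,0),(2,0)]⟩),(⟨0,[(27,0)]⟩,⟨0,[(26,0)]⟩),⟨0,[(23,0)]⟩,.k,.k,.k,.k,.k,.k,⟨true,0,⟨0,[]⟩,⟨1,
  [(21,0),(0,0)]⟩⟩,⟨false,1,⟨2,[(5,0),(2,1),(13,0),(2,0),(6,0)]⟩,⟨2,[(0,0),(10,0),(2,0),(0,0)]⟩⟩,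
  ⟨true,0,⟨0,[(9,0),(10,0)]⟩,⟨1,[(8,0),(1,0),(11,0),(7,0)]⟩⟩,⟨false,1,⟨3,[(5,1),(8,0),(0,0),(9,0)]⟩,
  ⟨7,[(0,1),(2,3),(2,0),(3,2),(8,3),(2,0),(10,1)]⟩⟩,⟨false,0,⟨0,[]⟩,⟨0,[]⟩⟩,⟨false,0,⟨0,[]⟩,⟨0,[]⟩⟩,
  [.o ⟨false,0,⟨0,[(30,0)]⟩,⟨1,[(25,0),(5,1),(1,0)]⟩⟩,.e ⟨false,1,⟨1,[(14,0),(0,0),(14,1),(2,0)]⟩,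
  ⟨0,[(7,0)]⟩⟩ ⟨false,1,⟨3,[(3,0),(1,0),(2,1),(13,1),(2,1),(4,2),(2,0)]⟩,⟨0,[(18,0),(12,0)]⟩⟩,.o
  ⟨false,0,⟨0,[(18,0)]⟩,⟨0,[(22,0),(2,0)]⟩⟩,.a ⟨true,(-1),⟨0,[(0,0)]⟩,⟨1,[(22,1),(2,0),(6,0)]⟩⟩
  ⟨true,0,⟨0,[(30,0)]⟩,⟨0,[(31,0)]⟩⟩ ⟨false,1,⟨3,[(3,0),(1,0),(2,1),(13,1),(2,1),(4,2),(2,0)]⟩,⟨3,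
  [(0,1),(4,0),(4,1),(0,0),(19,1),(1,0)]⟩⟩]⟩))))) (.Q [0,0,0,-1,0,0,0,0,0,-1] (.pp true [-1,1]) (.Q
  [0,0,-1,0,0,0,-1,0,0,1,1] (.p true [1,-1,1] [] (⟨0,[(21,0),(1,0)]⟩,⟨0,[(10,0)]⟩) .k 0 (⟨0,[]⟩,⟨0,
  []⟩) .k .k) (.R ⟨0,false,false,false,[0,1,-1],[0,1],[0,0,1],(⟨0,[(11,0)]⟩,⟨0,[(22,0),(1,0)]⟩),(⟨0,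
  [(25,0)]⟩,⟨0,[(24,0)]⟩),⟨0,[(22,0)]⟩,.k,.k,.k,.k,.k,.k,⟨false,0,⟨0,[(5,0)]⟩,⟨1,[(12,0),(0,0),(14,
  1),(2,0)]⟩⟩,⟨true,0,⟨0,[(7,0)]⟩,⟨0,[(20,0)]⟩⟩,⟨false,0,⟨1,[(4,0),(3,0),(11,0)]⟩,⟨1,[(3,0),(5,0),
  (18,1),(2,0)]⟩⟩,⟨true,0,⟨0,[(8,0),(19,0)]⟩,⟨0,[(18,0)]⟩⟩,⟨false,0,⟨0,[]⟩,⟨0,[]⟩⟩,⟨false,0,⟨0,[]⟩,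
  ⟨0,[]⟩⟩,[.o ⟨false,1,⟨1,[(12,0),(0,0),(14,1),(2,0)]⟩,⟨0,[(1,0)]⟩⟩,.o ⟨false,1,⟨0,[(28,0),(2,0)]⟩,
  ⟨0,[(1,0),(31,0)]⟩⟩,.a ⟨true,0,⟨0,[(0,0)]⟩,⟨0,[(19,0)]⟩⟩ ⟨true,0,⟨1,[(19,0),(0,0)]⟩,⟨2,[(5,0),(20,
  0),(0,0)]⟩⟩ ⟨false,1,⟨0,[(19,0),(8,0),(2,0)]⟩,⟨2,[(0,0),(1,0),(0,0),(0,0),(24,0)]⟩⟩,.e ⟨false,1,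
  ⟨1,[(12,0),(0,0),(17,0)]⟩,⟨0,[]⟩⟩ ⟨false,1,⟨0,[(7,0),(20,0),(2,0)]⟩,⟨5,[(0,0),(1,0),(0,0),(0,0),
  (15,2),(8,3)]⟩⟩]⟩) (.Q [0,0,0,0,0,0,-1,0,0,1,1] (.p true [1,-1,1] [] (⟨0,[(22,0),(1,0)]⟩,⟨0,[(11,
  0)]⟩) .k 0 (⟨0,[]⟩,⟨0,[]⟩) .k .k) (.R ⟨0,false,false,false,[0,1,-1],[0,1],[1,0,1],(⟨0,[(12,0)]⟩,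
  ⟨0,[(23,0),(1,0)]⟩),(⟨0,[(26,0)]⟩,⟨0,[(25,0)]⟩),⟨0,[(23,0)]⟩,.k,.k,.k,.k,.k,.k,⟨false,0,⟨0,[(6,
  0)]⟩,⟨1,[(13,0),(0,0),(14,1),(2,0)]⟩⟩,⟨true,0,⟨0,[(8,0)]⟩,⟨0,[(21,0)]⟩⟩,⟨false,0,⟨1,[(5,0),(3,0),
  (11,0)]⟩,⟨1,[(4,0),(5,0),(18,1),(2,0)]⟩⟩,⟨true,0,⟨0,[(9,0),(19,0)]⟩,⟨0,[(19,0)]⟩⟩,⟨false,0,⟨0,[]⟩,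
  ⟨0,[]⟩⟩,⟨false,0,⟨0,[]⟩,⟨0,[]⟩⟩,[.o ⟨false,1,⟨1,[(13,0),(0,0),(14,1),(2,0)]⟩,⟨0,[(2,0)]⟩⟩,.o
  ⟨false,1,⟨0,[(29,0),(2,0)]⟩,⟨0,[(2,0),(31,0)]⟩⟩,.o ⟨false,1,⟨1,[(0,1),(23,0),(6,0)]⟩,⟨0,[(1,0)]⟩⟩,
  .a ⟨true,0,⟨0,[(0,0)]⟩,⟨0,[(8,0)]⟩⟩ ⟨true,0,⟨0,[]⟩,⟨0,[(34,0)]⟩⟩ ⟨false,1,⟨2,[(1,0),(8,0),(17,0),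
  (0,1),(2,2)]⟩,⟨4,[(0,0),(2,0),(0,0),(0,0),(15,1),(8,2)]⟩⟩]⟩) (.Q [0,0,0,-1,0,0,-1,-1,0,-1,1] (.p
  true [0,0,1] [1] (⟨0,[(23,0)]⟩,⟨0,[(22,0)]⟩) .k 1 (⟨0,[]⟩,⟨0,[]⟩) .k .k) (.R ⟨0,false,false,true,
  [1,0,-1],[0,1],[1,1,1],(⟨0,[(23,0)]⟩,⟨0,[(24,0)]⟩),(⟨0,[(27,0)]⟩,⟨0,[(26,0)]⟩),⟨0,[(12,0)]⟩,.k,.k,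
  .k,.k,.k,.k,⟨false,0,⟨0,[(7,0)]⟩,⟨1,[(14,0),(0,0),(14,1),(2,0)]⟩⟩,⟨true,0,⟨0,[(18,0)]⟩,⟨0,[(1,0),
  (20,1)]⟩⟩,⟨false,0,⟨0,[(10,0),(11,0),(7,0)]⟩,⟨4,[(0,0),(0,0),(3,1),(12,3),(10,0),(3,2)]⟩⟩,⟨true,0,
  ⟨0,[(8,0),(2,0),(10,0),(7,0)]⟩,⟨0,[(0,0)]⟩⟩,⟨false,0,⟨0,[]⟩,⟨0,[]⟩⟩,⟨false,0,⟨0,[]⟩,⟨0,[]⟩⟩,[.o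
  ⟨false,0,⟨0,[(30,0)]⟩,⟨1,[(25,0),(5,1),(1,0)]⟩⟩,.o ⟨false,1,⟨1,[(14,0),(0,0),(14,1),(2,0)]⟩,⟨0,
  [(3,0)]⟩⟩,.o ⟨false,1,⟨1,[(22,1),(2,0),(6,0)]⟩,⟨0,[(9,0)]⟩⟩,.a ⟨true,0,⟨0,[(22,0)]⟩,⟨0,[(18,0)]⟩⟩
  ⟨false,0,⟨0,[]⟩,⟨1,[(14,0),(0,0),(17,0)]⟩⟩ ⟨true,0,⟨0,[(18,0),(11,0)]⟩,⟨0,[(3,0),(18,0)]⟩⟩]⟩) (.R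
  ⟨0,false,false,true,[1,0,-1],[0,1],[],(⟨0,[(23,0)]⟩,⟨0,[(24,0)]⟩),(⟨0,[(27,0)]⟩,⟨0,[(26,0)]⟩),⟨0,
  [(12,0)]⟩,.k,.k,.k,.k,.k,.k,⟨false,1,⟨1,[(7,1),(24,0),(0,0)]⟩,⟨1,[(21,0),(0,0),(7,1)]⟩⟩,⟨true,0,
  ⟨0,[(18,0)]⟩,⟨0,[(1,0),(20,1)]⟩⟩,⟨true,0,⟨5,[(0,1),(3,0),(3,1),(1,0),(11,2),(2,0)]⟩,⟨2,[(1,0),(9,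
  0),(8,2)]⟩⟩,⟨false,0,⟨0,[(0,0)]⟩,⟨0,[(5,0),(4,0)]⟩⟩,⟨false,0,⟨0,[]⟩,⟨0,[]⟩⟩,⟨false,0,⟨0,[]⟩,⟨0,
  []⟩⟩,[.o ⟨false,0,⟨0,[(30,0)]⟩,⟨1,[(25,0),(5,1),(1,0)]⟩⟩,.o ⟨false,1,⟨3,[(0,3),(4,1),(8,0),(0,0),
  (9,0)]⟩,⟨0,[(3,0)]⟩⟩,.o ⟨false,1,⟨1,[(22,1),(2,0),(6,0)]⟩,⟨0,[(9,0)]⟩⟩,.a ⟨true,0,⟨0,[(22,0)]⟩,⟨0,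
  [(18,0)]⟩⟩ ⟨false,1,⟨1,[(32,0),(0,0)]⟩,⟨1,[(21,0),(0,0)]⟩⟩ ⟨true,0,⟨0,[(18,0),(11,0)]⟩,⟨0,[(3,0),
  (18,0)]⟩⟩]⟩)))) (.R ⟨0,false,false,true,[1,0,-1],[0,1,-1],[1,1,1,1,0,0,0,-1],(⟨0,[(20,0)]⟩,⟨0,
  [(21,0)]⟩),(⟨0,[(10,0)]⟩,⟨0,[(21,0),(1,0)]⟩),⟨0,[(9,0)]⟩,.k,.k,.k,.k,.k,.k,⟨true,0,⟨0,[]⟩,⟨1,[(18,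
  0),(0,0)]⟩⟩,⟨false,0,⟨0,[(0,1),(0,0),(0,0),(0,0),(2,1)]⟩,⟨1,[(11,0),(0,0),(5,0),(0,0),(2,0)]⟩⟩,
  ⟨true,0,⟨1,[(18,0),(0,0),(7,1)]⟩,⟨0,[(4,0)]⟩⟩,⟨false,0,⟨0,[(0,0)]⟩,⟨1,[(22,0),(5,1),(1,0)]⟩⟩,
  ⟨false,0,⟨0,[]⟩,⟨0,[]⟩⟩,⟨false,0,⟨0,[]⟩,⟨0,[]⟩⟩,[.e ⟨false,1,⟨1,[(2,0),(5,0),(2,0),(0,0),(14,1)]⟩,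
  ⟨0,[(1,0),(28,0)]⟩⟩ ⟨false,0,⟨0,[(0,1),(0,0),(0,0),(3,1)]⟩,⟨1,[(3,0),(3,0),(3,0),(0,0),(6,0),(2,
  0)]⟩⟩,.o ⟨false,1,⟨3,[(0,1),(1,1),(8,0),(0,0),(14,1),(2,0)]⟩,⟨1,[(1,0),(5,0),(10,0),(3,0)]⟩⟩,.o
  ⟨false,1,⟨1,[(19,1),(2,0),(6,0)]⟩,⟨0,[(6,0)]⟩⟩,.a ⟨true,0,⟨0,[(19,0)]⟩,⟨0,[(15,0)]⟩⟩ ⟨false,1,⟨1,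
  [(2,0),(5,0),(18,1),(2,0)]⟩,⟨1,[(3,0),(3,0),(11,0)]⟩⟩ ⟨true,0,⟨0,[(0,1),(0,0),(0,0),(3,1)]⟩,⟨1,
  [(1,0),(5,0),(10,0),(0,1),(2,0)]⟩⟩]⟩)))))) (.R ⟨2,true,false,false,[0,1],[0,0,1],[0,0,1],(⟨0,[]⟩,
  ⟨0,[]⟩),(⟨0,[(16,0)]⟩,⟨0,[(15,0)]⟩),⟨0,[]⟩,.k,.k,.k,.k,.k,.k,⟨true,0,⟨0,[(0,0)]⟩,⟨0,[(2,0),(11,0),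
  (6,0)]⟩⟩,⟨false,0,⟨0,[(1,0)]⟩,⟨0,[(14,0),(9,0)]⟩⟩,⟨true,0,⟨0,[(23,0)]⟩,⟨0,[(22,0)]⟩⟩,⟨false,0,⟨0,
  [(2,0)]⟩,⟨0,[(12,0),(9,0),(2,0)]⟩⟩,⟨false,1,⟨1,[(6,0),(0,0),(17,0)]⟩,⟨0,[]⟩⟩,⟨true,0,⟨0,[(2,0),
  (19,0)]⟩,⟨0,[(12,0)]⟩⟩,[]⟩)))

theorem ok0 : chk K t0 l0 = true := by decide +kernel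

noncomputable def t1 : Tre :=
  (.Q [0,0,0,0,0,0,-1,0,0,0,1] (.p true [0,0,1] [] (⟨0,[(18,0)]⟩,⟨0,[(17,0)]⟩) .k 0 (⟨0,[]⟩,⟨0,[]⟩)
  .k .k) (.Q [0,0,0,0,0,0,-1,-1,0,0,1] (.p true [0,0,1] [] (⟨0,[(19,0)]⟩,⟨0,[(18,0)]⟩) .k 0 (⟨0,[]⟩,
  ⟨0,[]⟩) .k .k) (.Q [0,0,0,-1,0,0,1,1,0,0,-1] (.p false [0,0,1] [] (⟨0,[(20,0)]⟩,⟨0,[(19,0)]⟩) .k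
  0 (⟨0,[]⟩,⟨0,[]⟩) .k .k) (.R ⟨2,true,false,false,[0,1],[0,0,1],[0,1,1],(⟨0,[]⟩,⟨0,[]⟩),(⟨0,[(21,
  0)]⟩,⟨0,[(20,0)]⟩),⟨0,[]⟩,.k,.k,.k,.k,.k,.k,⟨false,0,⟨3,[(1,4),(3,0),(12,4),(6,0),(0,1)]⟩,⟨1,[(3,
  0),(0,0),(11,0),(13,0)]⟩⟩,⟨true,0,⟨0,[(18,0)]⟩,⟨0,[(2,0)]⟩⟩,⟨false,0,⟨0,[(28,0)]⟩,⟨0,[(27,0),(2,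
  0)]⟩⟩,⟨true,0,⟨0,[(0,0)]⟩,⟨0,[(7,0)]⟩⟩,⟨true,0,⟨0,[(32,0)]⟩,⟨0,[]⟩⟩,⟨false,1,⟨0,[(16,0),(13,0)]⟩,
  ⟨0,[(1,0)]⟩⟩,[]⟩) (.R ⟨2,false,false,true,[0,1],[0,1,-1],[0,0,1],(⟨0,[]⟩,⟨0,[]⟩),(⟨0,[(10,0)]⟩,⟨0,
  [(21,0),(1,0)]⟩),⟨0,[]⟩,.k,.k,.k,.k,.k,.k,⟨false,1,⟨3,[(5,1),(0,1),(4,0),(0,0),(17,2)]⟩,⟨0,[(1,0),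
  (16,0),(7,0)]⟩⟩,⟨true,0,⟨0,[(2,0)]⟩,⟨0,[(18,0)]⟩⟩,⟨true,0,⟨0,[(28,0)]⟩,⟨0,[(27,0)]⟩⟩,⟨false,0,⟨0,
  [(1,0)]⟩,⟨0,[(16,0),(13,0)]⟩⟩,⟨false,1,⟨1,[(11,0),(0,0),(17,0)]⟩,⟨0,[]⟩⟩,⟨false,0,⟨0,[(0,0)]⟩,⟨0,
  [(16,0),(11,0),(1,0)]⟩⟩,[.o ⟨false,0,⟨0,[(7,0)]⟩,⟨3,[(4,1),(0,1),(12,3),(3,0),(7,0)]⟩⟩,.o ⟨false,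
  0,⟨0,[(0,0)]⟩,⟨7,[(4,3),(3,1),(2,0),(0,0),(3,3),(5,2),(5,7)]⟩⟩,.a ⟨true,0,⟨4,[(3,2),(4,1),(10,
  0)]⟩,⟨1,[(18,0),(0,0)]⟩⟩ ⟨true,0,⟨1,[(18,0),(0,0)]⟩,⟨3,[(1,0),(3,0),(12,0),(6,0),(0,1)]⟩⟩ ⟨false,
  0,⟨1,[(0,1),(17,0),(0,0)]⟩,⟨3,[(4,1),(0,1),(2,1),(2,0),(0,0),(17,0)]⟩⟩,.e ⟨false,1,⟨1,[(11,0),(0,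
  0),(17,0)]⟩,⟨0,[]⟩⟩ ⟨false,0,⟨0,[(0,0)]⟩,⟨0,[(16,0),(11,0),(1,0)]⟩⟩]⟩)) (.Q [0,-1,0,0,1,0,-1,-1,0,
  -1,1] (.p true [0,0,1] [1] (⟨0,[(20,0)]⟩,⟨0,[(19,0)]⟩) .k 1 (⟨0,[]⟩,⟨0,[]⟩) .k .k) (.R ⟨2,false,
  false,true,[0,1],[0,0,1],[0,0,1],(⟨0,[]⟩,⟨0,[]⟩),(⟨0,[(21,0)]⟩,⟨0,[(20,0)]⟩),⟨0,[]⟩,.k,.k,.k,.k,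
  .k,.k,⟨false,1,⟨1,[(0,0),(7,0),(8,0),(12,0)]⟩,⟨3,[(1,0),(0,0),(2,0),(0,1),(19,1)]⟩⟩,⟨true,0,⟨0,
  [(18,0)]⟩,⟨0,[(2,0)]⟩⟩,⟨true,0,⟨0,[(28,0)]⟩,⟨0,[(27,0)]⟩⟩,⟨false,0,⟨3,[(1,1),(3,1),(12,2),(0,0)]⟩,
  ⟨0,[(7,0),(22,0)]⟩⟩,⟨false,1,⟨1,[(11,0),(0,0),(17,0)]⟩,⟨0,[]⟩⟩,⟨false,0,⟨0,[(1,0)]⟩,⟨0,[(17,0),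
  (12,0)]⟩⟩,[.o ⟨false,0,⟨0,[(16,0)]⟩,⟨0,[(0,0)]⟩⟩,.o ⟨false,0,⟨0,[(1,0)]⟩,⟨3,[(0,1),(10,0),(0,0),
  (4,1),(4,0)]⟩⟩,.a ⟨true,0,⟨4,[(3,2),(4,1),(10,0)]⟩,⟨1,[(18,0),(0,0)]⟩⟩ ⟨true,0,⟨1,[(18,0),(0,0)]⟩,
  ⟨2,[(5,0),(11,0),(0,0),(7,1)]⟩⟩ ⟨false,0,⟨1,[(1,1),(16,0),(0,0)]⟩,⟨2,[(0,1),(2,0),(11,0),(1,0),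
  (12,0)]⟩⟩,.e ⟨false,1,⟨1,[(11,0),(0,0),(17,0)]⟩,⟨0,[]⟩⟩ ⟨false,0,⟨0,[(1,0)]⟩,⟨0,[(17,0),(12,
  0)]⟩⟩]⟩) (.Q [0,0,1,1,0,0,-1,0,0,0,1] (.p true [0,0,1] [] (⟨0,[(21,0)]⟩,⟨0,[(20,0)]⟩) .k 0 (⟨0,
  []⟩,⟨0,[]⟩) .k .k) (.Q [0,0,0,1,0,0,-1,0,0,0,1] (.p true [0,0,1] [] (⟨0,[(22,0)]⟩,⟨0,[(21,0)]⟩)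
  .k 0 (⟨0,[]⟩,⟨0,[]⟩) .k .k) (.I [0,-1,0,-1,1,0,0,-1] (.R ⟨0,false,false,false,[-1,1,1],[0,1],[0,0,
  1],(⟨0,[(12,0)]⟩,⟨0,[(23,0),(2,0)]⟩),(⟨0,[(27,0)]⟩,⟨0,[(26,0)]⟩),⟨0,[(23,0)]⟩,.k,.k,.k,.k,.k,.k,
  ⟨true,0,⟨0,[(31,0)]⟩,⟨0,[(1,0),(19,0)]⟩⟩,⟨false,1,⟨1,[(5,1),(19,0),(6,0)]⟩,⟨4,[(6,0),(4,3),(10,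
  1)]⟩⟩,⟨false,1,⟨0,[(0,0)]⟩,⟨0,[(1,0),(2,0)]⟩⟩,⟨true,1,⟨1,[(0,0),(4,0),(4,0),(14,0)]⟩,⟨0,[(3,0)]⟩⟩,
  ⟨false,0,⟨0,[]⟩,⟨0,[]⟩⟩,⟨false,0,⟨0,[]⟩,⟨0,[]⟩⟩,[.a ⟨true,0,⟨0,[(2,0),(15,0)]⟩,⟨0,[(31,0)]⟩⟩
  ⟨true,0,⟨1,[(21,0),(0,0)]⟩,⟨0,[]⟩⟩ ⟨false,1,⟨0,[(7,0),(2,0)]⟩,⟨0,[(18,0),(12,0)]⟩⟩,.e ⟨false,1,⟨1,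
  [(14,0),(0,0),(17,0)]⟩,⟨7,[(3,0),(4,1),(2,0),(8,2),(4,0),(3,3)]⟩⟩ ⟨false,1,⟨1,[(1,1),(23,0),(7,
  0)]⟩,⟨4,[(0,2),(2,2),(4,0),(2,0),(6,0),(1,0),(7,1)]⟩⟩,.o ⟨false,0,⟨0,[(18,0)]⟩,⟨0,[(22,0),(2,
  0)]⟩⟩,.o ⟨false,0,⟨4,[(6,0),(4,3),(10,1)]⟩,⟨0,[(5,0),(19,0)]⟩⟩]⟩) (.Q [0,0,-2,-1,0,0,1,1,0,0,-1]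
  (.p false [0,0,1] [] (⟨0,[(24,0)]⟩,⟨0,[(23,0)]⟩) .k 0 (⟨0,[]⟩,⟨0,[]⟩) .k .k) (.R ⟨0,false,false,
  false,[1,-1],[1,-1,1],[1,1],(⟨0,[(27,0)]⟩,⟨0,[(28,0)]⟩),(⟨0,[(25,0),(1,0)]⟩,⟨0,[(14,0)]⟩),⟨0,[(13,
  0),(0,0)]⟩,.k,.k,(.r (-1) ⟨0,[(32,1),(0,0)]⟩ ⟨2,[(1,1),(1,1),(7,1),(10,3),(11,1)]⟩),.k,.k,.k,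
  ⟨true,0,⟨0,[(11,0),(10,0)]⟩,⟨0,[(1,0),(30,1),(1,0)]⟩⟩,⟨false,1,⟨3,[(12,1),(2,0),(0,0),(9,0),(6,
  1)]⟩,⟨0,[(6,0)]⟩⟩,⟨false,0,⟨2,[(1,0),(1,0),(7,0),(10,1),(11,0)]⟩,⟨1,[(32,1),(0,0),(0,0)]⟩⟩,⟨true,
  0,⟨0,[(5,0)]⟩,⟨0,[(21,0)]⟩⟩,⟨false,0,⟨0,[]⟩,⟨0,[]⟩⟩,⟨false,0,⟨0,[]⟩,⟨0,[]⟩⟩,[.e ⟨false,0,⟨2,[(0,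
  0),(10,0),(17,0)]⟩,⟨1,[(15,0),(0,0),(17,0)]⟩⟩ ⟨false,0,⟨0,[(0,0)]⟩,⟨1,[(11,1),(3,0),(0,0),(5,0),
  (0,0),(10,0)]⟩⟩,.o ⟨false,1,⟨3,[(8,1),(0,1),(12,3),(3,0),(7,0)]⟩,⟨0,[(11,0)]⟩⟩,.a ⟨true,0,⟨1,[(22,
  0),(0,0)]⟩,⟨4,[(7,2),(4,1),(10,0)]⟩⟩ ⟨false,0,⟨0,[]⟩,⟨1,[(15,0),(0,0),(17,0)]⟩⟩ ⟨true,0,⟨2,[(0,0),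
  (4,0),(3,0),(12,0)]⟩,⟨1,[(11,1),(10,0),(0,0)]⟩⟩,.e ⟨true,0,⟨2,[(0,0),(10,0),(17,0)]⟩,⟨1,[(22,0),
  (0,0)]⟩⟩ ⟨true,0,⟨0,[(0,0)]⟩,⟨0,[(11,0),(10,0),(0,0)]⟩⟩]⟩) (.Q [0,1,0,1,-2,0,2,2,0,2,-2] (.p
  false [0,0,1] [2,-1,-1] (⟨0,[(25,0)]⟩,⟨0,[(24,0)]⟩) .k 2 (⟨0,[(24,0),(2,0)]⟩,⟨0,[(13,0)]⟩) .k (.r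
  1 ⟨0,[(1,1),(30,1),(1,0)]⟩ ⟨1,[(12,1),(2,0),(0,0),(4,3),(4,0),(7,1)]⟩)) (.R ⟨0,false,false,false,
  [-1,1,1],[1,0,-1],[1,1],(⟨0,[(14,0)]⟩,⟨0,[(25,0),(2,0)]⟩),(⟨0,[(25,0)]⟩,⟨0,[(26,0)]⟩),⟨0,[(25,
  0)]⟩,.k,.k,.k,(.r 1 ⟨1,[(2,3),(20,0),(0,0),(8,1),(1,1)]⟩ ⟨1,[(13,1),(8,3),(4,0),(5,1),(0,0),(0,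
  1)]⟩),.k,.k,⟨true,(-1),⟨0,[(2,0),(30,0)]⟩,⟨0,[(22,0),(0,0),(11,0)]⟩⟩,⟨false,1,⟨0,[(7,1),(19,0)]⟩,
  ⟨4,[(8,2),(4,6),(10,0)]⟩⟩,⟨false,1,⟨1,[(20,1),(1,1),(4,0),(5,1),(1,0)]⟩,⟨1,[(2,1),(20,0),(0,0),
  (10,1)]⟩⟩,⟨true,2,⟨0,[(22,1),(4,0),(5,0),(1,0)]⟩,⟨0,[(0,0)]⟩⟩,⟨false,0,⟨0,[]⟩,⟨0,[]⟩⟩,⟨false,0,⟨0,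
  []⟩,⟨0,[]⟩⟩,[.o ⟨false,1,⟨1,[(22,1),(4,0),(7,0)]⟩,⟨0,[(6,0)]⟩⟩,.a ⟨true,1,⟨0,[(22,0),(12,0)]⟩,⟨0,
  [(5,0)]⟩⟩ ⟨true,0,⟨0,[]⟩,⟨1,[(23,0),(0,0)]⟩⟩ ⟨false,2,⟨0,[(7,0),(14,0),(4,0),(7,0)]⟩,⟨0,[(5,0),
  (14,0)]⟩⟩,.o ⟨false,0,⟨0,[(20,0)]⟩,⟨0,[(24,0),(2,0)]⟩⟩,.o ⟨false,0,⟨4,[(8,0),(4,3),(10,1)]⟩,⟨0,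
  [(7,0),(19,0)]⟩⟩]⟩) (.K ⟨0,[-1,1,1],0,(-1),(⟨0,[(14,0)]⟩,⟨0,[(25,0),(2,0)]⟩),.k,.k,(.r 0 ⟨1,[(2,
  0),(1,2),(4,0),(3,0),(9,0)]⟩ ⟨0,[(0,0),(1,0),(17,1),(12,1)]⟩),.k,.k,[⟨4,[(8,2),(4,1),(10,0)]⟩,⟨1,
  [(1,1),(0,1),(24,0),(5,3),(1,0)]⟩,⟨1,[(0,0),(32,0),(3,2)]⟩,⟨1,[(2,0),(0,0),(1,0),(7,0)]⟩]⟩))))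
  (.R ⟨0,false,false,false,[1,0,-1],[1,-1],[1,1],(⟨0,[(22,0)]⟩,⟨0,[(23,0)]⟩),(⟨0,[(25,0)]⟩,⟨0,[(26,
  0)]⟩),⟨0,[(11,0)]⟩,.k,.k,.k,.k,.k,.k,⟨false,0,⟨0,[(29,0)]⟩,⟨1,[(30,1),(0,0),(0,0)]⟩⟩,⟨true,0,⟨0,
  [(20,0)]⟩,⟨0,[(4,0)]⟩⟩,⟨false,0,⟨4,[(1,1),(0,1),(3,1),(0,0)]⟩,⟨0,[(0,0),(8,0),(22,0)]⟩⟩,⟨true,0,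
  ⟨7,[(2,1),(3,1),(0,3),(12,6),(0,0)]⟩,⟨0,[(9,0)]⟩⟩,⟨false,0,⟨0,[]⟩,⟨0,[]⟩⟩,⟨false,0,⟨0,[]⟩,⟨0,[]⟩⟩,
  [.a ⟨true,0,⟨0,[(30,0)]⟩,⟨0,[(1,0),(15,0)]⟩⟩ ⟨false,0,⟨5,[(0,0),(6,0),(11,0),(7,0),(0,2)]⟩,⟨1,
  [(13,0),(0,0),(17,0)]⟩⟩ ⟨true,0,⟨0,[(0,0)]⟩,⟨0,[(1,0)]⟩⟩,.o ⟨false,1,⟨1,[(24,0),(5,1),(1,0)]⟩,⟨0,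
  [(29,0)]⟩⟩,.a ⟨true,0,⟨0,[(4,0)]⟩,⟨4,[(5,0),(4,3),(10,1)]⟩⟩ ⟨false,0,⟨0,[]⟩,⟨1,[(13,0),(0,0),(17,
  0)]⟩⟩ ⟨true,0,⟨0,[(0,0)]⟩,⟨2,[(1,0),(2,0),(3,0),(0,0),(18,0)]⟩⟩,.a ⟨true,0,⟨0,[(21,0)]⟩,⟨0,[(17,
  0)]⟩⟩ ⟨true,0,⟨5,[(0,0),(6,0),(11,0),(7,0),(0,2)]⟩,⟨1,[(20,0),(0,0)]⟩⟩ ⟨false,1,⟨1,[(0,1),(30,0),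
  (0,0)]⟩,⟨0,[(1,0)]⟩⟩]⟩)) (.R ⟨0,false,false,false,[1,0,-1],[1,-1],[1,1],(⟨0,[(21,0)]⟩,⟨0,[(22,
  0)]⟩),(⟨0,[(24,0)]⟩,⟨0,[(25,0)]⟩),⟨0,[(10,0)]⟩,.k,.k,.k,.k,.k,.k,⟨false,0,⟨0,[(28,0)]⟩,⟨1,[(29,1),
  (0,0),(0,0)]⟩⟩,⟨true,0,⟨0,[(19,0)]⟩,⟨0,[(3,0)]⟩⟩,⟨false,0,⟨1,[(1,0),(1,0),(1,0)]⟩,⟨1,[(0,0),(7,0),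
  (9,0),(0,0),(11,1)]⟩⟩,⟨true,0,⟨7,[(1,1),(3,1),(0,3),(12,6),(0,0)]⟩,⟨0,[(8,0)]⟩⟩,⟨false,0,⟨0,[]⟩,
  ⟨0,[]⟩⟩,⟨false,0,⟨0,[]⟩,⟨0,[]⟩⟩,[.e ⟨false,0,⟨6,[(0,0),(5,0),(1,0),(17,1),(0,1)]⟩,⟨1,[(12,0),(0,
  0),(17,0)]⟩⟩ ⟨false,0,⟨0,[(0,0)]⟩,⟨0,[(7,0),(0,0),(22,0)]⟩⟩,.o ⟨false,1,⟨1,[(23,0),(5,1),(1,0)]⟩,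
  ⟨0,[(28,0)]⟩⟩,.a ⟨true,0,⟨0,[(3,0)]⟩,⟨4,[(4,0),(4,3),(10,1)]⟩⟩ ⟨false,0,⟨0,[]⟩,⟨1,[(12,0),(0,0),
  (17,0)]⟩⟩ ⟨true,0,⟨1,[(0,0),(18,0),(9,0)]⟩,⟨0,[(3,0),(24,0)]⟩⟩,.e ⟨true,0,⟨6,[(0,0),(5,0),(1,0),
  (17,1),(0,1)]⟩,⟨1,[(19,0),(0,0)]⟩⟩ ⟨true,0,⟨0,[(0,0)]⟩,⟨0,[(20,0),(7,0)]⟩⟩]⟩)))) (.I [1,0,-1,-1,0,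
  0,0,1] (.Q [0,0,-1,-1,0,0,-1,0,0,0,1] (.p true [0,0,1] [] (⟨0,[(20,0)]⟩,⟨0,[(19,0)]⟩) .k 0 (⟨0,
  []⟩,⟨0,[]⟩) .k .k) (.Q [0,0,0,0,0,0,-1,-1,0,0,1] (.p true [0,0,1] [] (⟨0,[(21,0)]⟩,⟨0,[(20,0)]⟩)
  .k 0 (⟨0,[]⟩,⟨0,[]⟩) .k .k) (.Q [0,0,-2,-1,0,0,1,1,0,0,-1] (.p false [0,0,1] [] (⟨0,[(22,0)]⟩,⟨0,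
  [(21,0)]⟩) .k 0 (⟨0,[]⟩,⟨0,[]⟩) .k .k) (.R ⟨0,false,false,false,[1,-1],[1,-1,1],[1,1],(⟨0,[(25,
  0)]⟩,⟨0,[(26,0)]⟩),(⟨0,[(23,0),(1,0)]⟩,⟨0,[(12,0)]⟩),⟨0,[(11,0),(0,0)]⟩,.k,.k,(.r 0 ⟨0,[(1,0),(2,
  0),(2,0)]⟩ ⟨0,[(20,0),(0,0),(7,1),(2,0)]⟩),.k,.k,.k,⟨false,0,⟨0,[(4,0),(4,0)]⟩,⟨3,[(7,1),(0,1),(4,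
  0),(0,0),(17,2)]⟩⟩,⟨true,0,⟨0,[(4,0)]⟩,⟨0,[(21,0)]⟩⟩,⟨true,0,⟨1,[(20,0),(0,0),(7,1)]⟩,⟨1,[(1,0),
  (2,0),(2,0)]⟩⟩,⟨false,1,⟨0,[(18,0),(13,0)]⟩,⟨0,[(1,0)]⟩⟩,⟨false,0,⟨0,[]⟩,⟨0,[]⟩⟩,⟨false,0,⟨0,[]⟩,
  ⟨0,[]⟩⟩,[.e ⟨false,0,⟨2,[(0,0),(8,0),(17,0)]⟩,⟨1,[(13,0),(0,0),(17,0)]⟩⟩ ⟨false,0,⟨0,[(0,0)]⟩,⟨1,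
  [(9,1),(3,0),(0,0),(5,0),(0,0),(10,0)]⟩⟩,.o ⟨false,1,⟨3,[(6,1),(0,1),(12,3),(3,0),(7,0)]⟩,⟨0,[(9,
  0)]⟩⟩,.a ⟨true,0,⟨1,[(20,0),(0,0)]⟩,⟨4,[(5,2),(4,1),(10,0)]⟩⟩ ⟨false,0,⟨0,[]⟩,⟨1,[(13,0),(0,0),
  (17,0)]⟩⟩ ⟨true,0,⟨1,[(0,0),(2,0),(16,0)]⟩,⟨1,[(9,1),(10,0),(0,0)]⟩⟩,.e ⟨true,0,⟨2,[(0,0),(8,0),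
  (17,0)]⟩,⟨1,[(20,0),(0,0)]⟩⟩ ⟨true,0,⟨0,[(0,0)]⟩,⟨0,[(9,0),(10,0),(0,0)]⟩⟩]⟩) (.R ⟨0,false,false,
  false,[1,-1],[1,-1,1],[1,1],(⟨0,[(25,0)]⟩,⟨0,[(26,0)]⟩),(⟨0,[(23,0),(1,0)]⟩,⟨0,[(12,0)]⟩),⟨0,[(11,
  0),(0,0)]⟩,.k,.k,(.r 0 ⟨0,[(1,0),(2,0),(2,0)]⟩ ⟨0,[(0,0),(17,0),(10,0),(2,0)]⟩),.k,.k,.k,⟨false,0,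
  ⟨0,[(4,0),(4,0)]⟩,⟨3,[(7,1),(0,1),(4,0),(0,0),(17,2)]⟩⟩,⟨true,0,⟨0,[(4,0)]⟩,⟨0,[(21,0)]⟩⟩,⟨true,0,
  ⟨1,[(0,0),(17,0),(10,0)]⟩,⟨1,[(1,0),(2,0),(2,0)]⟩⟩,⟨false,1,⟨0,[(18,0),(13,0)]⟩,⟨0,[(1,0)]⟩⟩,
  ⟨false,0,⟨0,[]⟩,⟨0,[]⟩⟩,⟨false,0,⟨0,[]⟩,⟨0,[]⟩⟩,[.a ⟨true,0,⟨0,[(3,0),(16,0)]⟩,⟨0,[(0,0),(3,0),(0,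
  0)]⟩⟩ ⟨false,0,⟨4,[(4,0),(2,0),(11,0),(7,0),(0,1)]⟩,⟨1,[(13,0),(0,0),(17,0)]⟩⟩ ⟨true,0,⟨0,[(3,0),
  (0,0)]⟩,⟨0,[(0,0)]⟩⟩,.o ⟨false,1,⟨3,[(6,1),(0,1),(12,3),(3,0),(7,0)]⟩,⟨0,[(9,0)]⟩⟩,.a ⟨true,0,⟨1,
  [(20,0),(0,0)]⟩,⟨4,[(5,2),(4,1),(10,0)]⟩⟩ ⟨false,0,⟨0,[]⟩,⟨1,[(13,0),(0,0),(17,0)]⟩⟩ ⟨true,0,⟨0,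
  [(3,0),(0,0)]⟩,⟨2,[(0,1),(8,0),(17,0)]⟩⟩,.a ⟨true,0,⟨0,[(20,0),(0,0)]⟩,⟨0,[(4,0),(0,0)]⟩⟩ ⟨true,0,
  ⟨4,[(4,0),(2,0),(11,0),(7,0),(0,1)]⟩,⟨1,[(20,0),(0,0)]⟩⟩ ⟨false,1,⟨3,[(6,1),(0,1),(9,3),(6,0),(7,
  0)]⟩,⟨0,[(0,0)]⟩⟩]⟩)) (.R ⟨0,false,false,true,[0,1,-1],[0,1],[1],(⟨0,[(11,0)]⟩,⟨0,[(22,0),(1,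
  0)]⟩),(⟨0,[(25,0)]⟩,⟨0,[(24,0)]⟩),⟨0,[(22,0)]⟩,.k,.k,.k,.k,.k,.k,⟨false,1,⟨1,[(1,1),(14,1),(6,0),
  (7,0)]⟩,⟨1,[(19,0),(0,0),(7,1)]⟩⟩,⟨true,0,⟨0,[(3,0)]⟩,⟨0,[(20,0)]⟩⟩,⟨true,0,⟨0,[(2,0)]⟩,⟨0,[(8,0),
  (10,0)]⟩⟩,⟨false,0,⟨0,[(0,0)]⟩,⟨0,[(18,0),(12,0)]⟩⟩,⟨false,0,⟨0,[]⟩,⟨0,[]⟩⟩,⟨false,0,⟨0,[]⟩,⟨0,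
  []⟩⟩,[.o ⟨false,0,⟨0,[(28,0)]⟩,⟨1,[(23,0),(5,1),(1,0)]⟩⟩,.e ⟨false,1,⟨1,[(30,0),(0,0)]⟩,⟨0,[(33,
  0)]⟩⟩ ⟨false,1,⟨3,[(9,1),(2,0),(0,0),(9,0),(4,3),(2,1)]⟩,⟨0,[(1,0)]⟩⟩,.e ⟨true,0,⟨0,[]⟩,⟨0,[(33,
  0)]⟩⟩ ⟨true,0,⟨0,[(19,0),(8,0)]⟩,⟨0,[(1,0)]⟩⟩,.a ⟨true,0,⟨4,[(4,2),(4,1),(10,5)]⟩,⟨0,[(3,0)]⟩⟩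
  ⟨false,1,⟨1,[(30,0),(0,0)]⟩,⟨1,[(19,0),(0,0)]⟩⟩ ⟨true,0,⟨0,[(3,0),(24,0)]⟩,⟨1,[(1,0),(18,0),(8,
  0)]⟩⟩]⟩)) (.Q [0,0,-2,-1,0,0,1,1,0,0,-1] (.p false [0,0,1] [] (⟨0,[(21,0)]⟩,⟨0,[(20,0)]⟩) .k 0
  (⟨0,[]⟩,⟨0,[]⟩) .k .k) (.R ⟨0,false,false,false,[1,-1],[1,-1,1],[0,1,1],(⟨0,[(24,0)]⟩,⟨0,[(25,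
  0)]⟩),(⟨0,[(22,0),(1,0)]⟩,⟨0,[(11,0)]⟩),⟨0,[(10,0),(0,0)]⟩,.k,.k,(.x (-1) ⟨0,[(19,0),(0,0),(2,0),
  (0,1)]⟩ ⟨0,[(3,0),(0,0),(5,0),(0,0)]⟩),.k,.k,.k,⟨false,0,⟨0,[(1,0),(16,0)]⟩,⟨3,[(4,0),(0,0),(0,1),
  (10,0),(12,0),(0,1)]⟩⟩,⟨true,0,⟨0,[(3,0)]⟩,⟨0,[(20,0)]⟩⟩,⟨false,0,⟨0,[(1,0),(18,0)]⟩,⟨0,[(0,0),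
  (17,0),(12,0)]⟩⟩,⟨true,0,⟨0,[(1,0),(0,0)]⟩,⟨0,[(18,0)]⟩⟩,⟨false,0,⟨0,[]⟩,⟨0,[]⟩⟩,⟨false,0,⟨0,[]⟩,
  ⟨0,[]⟩⟩,[.e ⟨false,0,⟨0,[(33,0)]⟩,⟨1,[(30,0),(0,0)]⟩⟩ ⟨false,0,⟨0,[(0,0)]⟩,⟨1,[(1,0),(6,0),(3,0),
  (0,0),(4,0),(1,0),(10,0)]⟩⟩,.o ⟨false,1,⟨3,[(5,1),(0,1),(12,3),(3,0),(7,0)]⟩,⟨0,[(8,0)]⟩⟩,.a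
  ⟨true,0,⟨1,[(19,0),(0,0)]⟩,⟨4,[(4,2),(4,1),(10,0)]⟩⟩ ⟨false,0,⟨1,[(19,0),(0,0)]⟩,⟨1,[(30,0),(0,
  0)]⟩⟩ ⟨true,0,⟨1,[(0,0),(1,0),(16,0)]⟩,⟨1,[(1,0),(6,0),(9,0),(1,0)]⟩⟩,.e ⟨true,0,⟨0,[(33,0)]⟩,⟨0,
  []⟩⟩ ⟨true,0,⟨0,[(0,0)]⟩,⟨0,[(1,0),(16,0),(1,0)]⟩⟩]⟩) (.R ⟨0,false,false,true,[0,1,-1],[0,1],[1],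
  (⟨0,[(11,0)]⟩,⟨0,[(22,0),(1,0)]⟩),(⟨0,[(25,0)]⟩,⟨0,[(24,0)]⟩),⟨0,[(22,0)]⟩,.k,.k,.k,.k,.k,.k,
  ⟨false,1,⟨3,[(3,3),(0,1),(1,1),(11,1),(4,0),(7,2)]⟩,⟨1,[(0,0),(16,0),(10,0)]⟩⟩,⟨true,0,⟨0,[(3,
  0)]⟩,⟨0,[(20,0)]⟩⟩,⟨true,0,⟨0,[(2,0)]⟩,⟨0,[(1,0),(16,0)]⟩⟩,⟨false,0,⟨0,[(1,0),(0,0)]⟩,⟨0,[(18,0),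
  (12,0)]⟩⟩,⟨false,0,⟨0,[]⟩,⟨0,[]⟩⟩,⟨false,0,⟨0,[]⟩,⟨0,[]⟩⟩,[.o ⟨false,0,⟨0,[(28,0)]⟩,⟨1,[(23,0),(5,
  1),(1,0)]⟩⟩,.a ⟨true,0,⟨4,[(1,4),(2,3),(4,0),(10,2)]⟩,⟨0,[(29,0)]⟩⟩ ⟨false,1,⟨1,[(30,0),(0,0)]⟩,
  ⟨0,[(33,0)]⟩⟩ ⟨true,0,⟨0,[(1,0)]⟩,⟨0,[(0,0),(5,0)]⟩⟩,.a ⟨true,0,⟨4,[(4,3),(4,0),(10,2)]⟩,⟨0,[(19,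
  0)]⟩⟩ ⟨true,0,⟨0,[]⟩,⟨0,[(33,0)]⟩⟩ ⟨false,0,⟨0,[(1,0)]⟩,⟨3,[(6,1),(11,1),(1,1),(9,0),(0,2)]⟩⟩,.a
  ⟨true,0,⟨4,[(4,2),(4,1),(10,5)]⟩,⟨0,[(3,0)]⟩⟩ ⟨false,1,⟨1,[(30,0),(0,0)]⟩,⟨1,[(19,0),(0,0)]⟩⟩
  ⟨true,0,⟨2,[(1,1),(1,0),(22,0),(0,0)]⟩,⟨0,[(0,0),(5,0)]⟩⟩]⟩))) (.I [1,0,-2,-1] (.R ⟨0,false,false,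
  true,[0,1,-1],[0,1],[1],(⟨0,[(10,0)]⟩,⟨0,[(21,0),(1,0)]⟩),(⟨0,[(24,0)]⟩,⟨0,[(23,0)]⟩),⟨0,[(21,
  0)]⟩,.k,.k,.k,.k,.k,.k,⟨false,1,⟨1,[(0,0),(27,0),(0,0),(0,0)]⟩,⟨1,[(18,0),(0,0),(7,1)]⟩⟩,⟨true,0,
  ⟨0,[(2,0)]⟩,⟨0,[(19,0)]⟩⟩,⟨false,1,⟨3,[(5,1),(0,1),(4,0),(0,0),(17,2)]⟩,⟨0,[(1,0)]⟩⟩,⟨true,0,⟨0,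
  [(16,0)]⟩,⟨0,[(0,0),(0,0),(17,0)]⟩⟩,⟨false,0,⟨0,[]⟩,⟨0,[]⟩⟩,⟨false,0,⟨0,[]⟩,⟨0,[]⟩⟩,[.o ⟨false,0,
  ⟨0,[(27,0)]⟩,⟨1,[(22,0),(5,1),(1,0)]⟩⟩,.e ⟨false,1,⟨1,[(29,0),(0,0)]⟩,⟨0,[(32,0)]⟩⟩ ⟨false,1,⟨3,
  [(8,1),(2,0),(0,0),(9,0),(4,3),(2,1)]⟩,⟨0,[(0,0),(18,0)]⟩⟩,.e ⟨true,0,⟨0,[]⟩,⟨0,[(32,0)]⟩⟩ ⟨true,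
  0,⟨0,[(18,0),(8,0)]⟩,⟨0,[(0,0),(18,0)]⟩⟩,.a ⟨true,0,⟨4,[(3,2),(4,1),(10,5)]⟩,⟨0,[(2,0)]⟩⟩ ⟨false,
  1,⟨1,[(29,0),(0,0)]⟩,⟨1,[(18,0),(0,0)]⟩⟩ ⟨true,0,⟨0,[(2,0),(24,0)]⟩,⟨1,[(0,0),(18,1),(8,0)]⟩⟩]⟩)
  (.R ⟨0,false,false,true,[0,0,1],[0,1],[1,1],(⟨0,[(21,0)]⟩,⟨0,[(20,0)]⟩),(⟨0,[(24,0)]⟩,⟨0,[(23,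
  0)]⟩),⟨0,[(10,0)]⟩,.k,.k,.k,.k,.k,.k,⟨true,0,⟨0,[(1,0),(3,0)]⟩,⟨0,[(0,0)]⟩⟩,⟨false,1,⟨1,[(3,0),(0,
  0),(12,0),(11,0)]⟩,⟨0,[(18,0)]⟩⟩,⟨false,0,⟨0,[(1,1),(3,0)]⟩,⟨0,[(6,0),(23,0)]⟩⟩,⟨true,0,⟨0,[(7,
  0)]⟩,⟨0,[(0,0),(1,0),(2,0)]⟩⟩,⟨false,0,⟨0,[]⟩,⟨0,[]⟩⟩,⟨false,0,⟨0,[]⟩,⟨0,[]⟩⟩,[.o ⟨false,0,⟨0,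
  [(27,0)]⟩,⟨1,[(22,0),(5,1),(1,0)]⟩⟩,.a ⟨true,0,⟨0,[(0,0),(1,0),(0,0)]⟩,⟨0,[(28,0)]⟩⟩ ⟨true,0,⟨0,
  []⟩,⟨1,[(0,0),(27,0)]⟩⟩ ⟨false,1,⟨1,[(0,0),(2,0),(0,0),(2,0),(21,0)]⟩,⟨0,[(2,0),(25,0)]⟩⟩,.o
  ⟨false,0,⟨0,[(2,0)]⟩,⟨0,[(4,0),(12,0)]⟩⟩,.o ⟨false,0,⟨0,[(18,0)]⟩,⟨1,[(3,0),(0,0),(12,0),(4,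
  0)]⟩⟩]⟩))))

theorem ok1 : chk K t1 l4 = true := by decide +kernel

noncomputable def t2 : Tre :=
  (.Q [0,1,0,1,0,0,1,1,0,1,-1] (.p false [0,0,1] [1] (⟨0,[(19,0)]⟩,⟨0,[(18,0)]⟩) .k 1 (⟨0,[]⟩,⟨0,
  []⟩) .k .k) (.Q [0,0,0,0,0,0,1,0,0,0,-1] (.p false [0,0,1] [] (⟨0,[(20,0)]⟩,⟨0,[(19,0)]⟩) .k 0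
  (⟨0,[]⟩,⟨0,[]⟩) .k .k) (.Q [0,0,2,0,0,0,-1,0,0,-1,1] (.p true [0,0,1] [1] (⟨0,[(21,0)]⟩,⟨0,[(20,
  0)]⟩) .k 1 (⟨0,[]⟩,⟨0,[]⟩) .k .k) (.Q [0,0,1,0,0,0,0,0,0,-1] (.pp true [-1,1]) (.I [1,0,1,1,0,0,0,
  -1] (.R ⟨0,false,false,true,[1,0,-1],[0,1],[],(⟨0,[(23,0)]⟩,⟨0,[(24,0)]⟩),(⟨0,[(27,0)]⟩,⟨0,[(26,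
  0)]⟩),⟨0,[(12,0)]⟩,.k,.k,.k,.k,.k,.k,⟨false,1,⟨5,[(5,1),(2,1),(9,1),(13,2),(0,2)]⟩,⟨3,[(2,0),(1,
  1),(1,0),(3,1)]⟩⟩,⟨true,0,⟨0,[(18,0)]⟩,⟨0,[(2,0)]⟩⟩,⟨false,1,⟨0,[(9,0),(23,0)]⟩,⟨1,[(0,0),(4,0),
  (12,0)]⟩⟩,⟨true,0,⟨0,[(4,0)]⟩,⟨0,[(5,0)]⟩⟩,⟨false,0,⟨0,[]⟩,⟨0,[]⟩⟩,⟨false,0,⟨0,[]⟩,⟨0,[]⟩⟩,[.o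
  ⟨false,0,⟨0,[(30,0)]⟩,⟨1,[(25,0),(5,1),(1,0)]⟩⟩,.o ⟨false,1,⟨3,[(4,1),(5,1),(3,0),(0,0),(9,0),(7,
  1)]⟩,⟨2,[(1,1),(1,0),(1,0),(2,0)]⟩⟩,.o ⟨false,1,⟨0,[(7,0),(12,0)]⟩,⟨0,[(3,0)]⟩⟩,.a ⟨true,0,⟨0,
  [(22,0)]⟩,⟨0,[(18,0)]⟩⟩ ⟨false,1,⟨1,[(32,0),(0,0)]⟩,⟨1,[(21,0),(0,0)]⟩⟩ ⟨true,0,⟨3,[(4,0),(5,0),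
  (0,0),(6,1),(10,1)]⟩,⟨3,[(2,2),(2,0),(2,0),(22,0)]⟩⟩]⟩) (.I [1,1,0,1,0,0,0,1] (.R ⟨0,false,false,
  true,[1,0,-1],[0,1],[0,1,0,-1,0,0,0,-1],(⟨0,[(24,0)]⟩,⟨0,[(25,0)]⟩),(⟨0,[(28,0)]⟩,⟨0,[(27,0)]⟩),
  ⟨0,[(13,0)]⟩,.k,.k,.k,.k,.k,.k,⟨false,0,⟨2,[(6,3),(2,0),(9,3)]⟩,⟨1,[(0,0),(2,0),(1,0),(25,1),(2,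
  1)]⟩⟩,⟨true,0,⟨0,[(19,0)]⟩,⟨0,[(3,0)]⟩⟩,⟨false,0,⟨0,[(32,0)]⟩,⟨0,[(31,0),(2,0)]⟩⟩,⟨true,0,⟨0,[(5,
  0)]⟩,⟨0,[(6,0)]⟩⟩,⟨false,0,⟨0,[]⟩,⟨0,[]⟩⟩,⟨false,0,⟨0,[]⟩,⟨0,[]⟩⟩,[.o ⟨false,0,⟨0,[(31,0)]⟩,⟨1,
  [(26,0),(5,1),(1,0)]⟩⟩,.o ⟨false,1,⟨3,[(5,1),(5,1),(3,0),(0,0),(9,0),(7,1)]⟩,⟨2,[(2,1),(1,0),(1,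
  0),(2,0)]⟩⟩,.o ⟨false,1,⟨0,[(8,0),(12,0)]⟩,⟨0,[(4,0)]⟩⟩,.a ⟨true,0,⟨0,[(23,0)]⟩,⟨0,[(19,0)]⟩⟩
  ⟨false,0,⟨0,[(6,0),(12,0)]⟩,⟨1,[(0,0),(2,0),(1,0),(28,1)]⟩⟩ ⟨true,0,⟨3,[(5,0),(5,0),(0,0),(6,1),
  (10,1)]⟩,⟨3,[(3,2),(2,0),(2,0),(22,0)]⟩⟩]⟩) (.R ⟨0,false,false,true,[1,0,-1],[0,1],[0,0,1],(⟨0,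
  [(24,0)]⟩,⟨0,[(25,0)]⟩),(⟨0,[(28,0)]⟩,⟨0,[(27,0)]⟩),⟨0,[(13,0)]⟩,.k,.k,.k,.k,.k,.k,⟨false,1,⟨1,
  [(32,1),(0,0),(0,0)]⟩,⟨0,[(31,0)]⟩⟩,⟨true,0,⟨0,[(19,0)]⟩,⟨0,[(3,0)]⟩⟩,⟨false,1,⟨1,[(3,0),(1,0),(4,
  0),(21,0),(1,1)]⟩,⟨0,[(0,0),(29,0)]⟩⟩,⟨true,0,⟨0,[(5,0)]⟩,⟨0,[(6,0)]⟩⟩,⟨false,0,⟨0,[]⟩,⟨0,[]⟩⟩,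
  ⟨false,0,⟨0,[]⟩,⟨0,[]⟩⟩,[.o ⟨false,0,⟨0,[(31,0)]⟩,⟨1,[(26,0),(5,1),(1,0)]⟩⟩,.o ⟨false,1,⟨3,[(5,1),
  (5,1),(3,0),(0,0),(9,0),(7,1)]⟩,⟨2,[(2,1),(1,0),(1,0),(2,0)]⟩⟩,.o ⟨false,1,⟨0,[(8,0),(12,0)]⟩,⟨0,
  [(4,0)]⟩⟩,.a ⟨true,0,⟨0,[(23,0)]⟩,⟨0,[(19,0)]⟩⟩ ⟨false,1,⟨1,[(15,0),(0,0),(17,0)]⟩,⟨0,[]⟩⟩ ⟨true,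
  0,⟨3,[(5,0),(5,0),(0,0),(6,1),(10,1)]⟩,⟨3,[(3,2),(2,0),(2,0),(22,0)]⟩⟩]⟩))) (.K ⟨0,[-1,1,1],0,0,
  (⟨0,[(11,0)]⟩,⟨0,[(22,0),(2,0)]⟩),.k,.k,(.r (-1) ⟨0,[(1,0),(1,0),(25,0),(2,0)]⟩ ⟨2,[(4,3),(2,0),
  (9,3)]⟩),.k,.k,[⟨0,[(0,0)]⟩,⟨0,[(1,0)]⟩,⟨9,[(1,0),(2,7),(0,0),(13,1),(7,3),(2,1)]⟩,⟨0,[(3,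
  0)]⟩]⟩)) (.Q [0,0,-1,-1,0,0,1,1,0,0,-1] (.p false [0,0,1] [] (⟨0,[(22,0)]⟩,⟨0,[(21,0)]⟩) .k 0 (⟨0,
  []⟩,⟨0,[]⟩) .k .k) (.I [0,0,0,0,0,0,0,-1] (.Q [0,0,0,0,0,0,2,2,0,1,-2] (.p false [0,0,1] [1,0,-1]
  (⟨0,[(24,0)]⟩,⟨0,[(23,0)]⟩) .k 2 (⟨0,[(23,0)]⟩,⟨0,[(24,0)]⟩) .k (.r (-1) ⟨0,[(9,1),(23,0)]⟩ ⟨0,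
  [(0,1)]⟩)) (.I [1,-1,0,1,1,0,0,1] (.R ⟨0,false,false,false,[1,0,-1],[0,0,1],[1,0,0,0,0,0,0,1],(⟨0,
  [(25,0)]⟩,⟨0,[(26,0)]⟩),(⟨0,[(26,0)]⟩,⟨0,[(25,0)]⟩),⟨0,[(14,0)]⟩,.k,.k,.k,.k,.k,.k,⟨true,0,⟨0,[]⟩,
  ⟨1,[(23,0),(0,0)]⟩⟩,⟨false,0,⟨1,[(4,0),(0,0),(7,0)]⟩,⟨2,[(0,0),(6,0),(1,1),(0,0),(1,1),(9,0),(1,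
  1)]⟩⟩,⟨false,1,⟨2,[(0,1),(0,0),(7,0),(0,0),(13,1)]⟩,⟨0,[(2,1)]⟩⟩,⟨true,0,⟨0,[(1,0)]⟩,⟨0,[(7,0),(4,
  0)]⟩⟩,⟨false,0,⟨0,[]⟩,⟨0,[]⟩⟩,⟨false,0,⟨0,[]⟩,⟨0,[]⟩⟩,[.e ⟨false,1,⟨9,[(0,3),(9,1),(0,3),(4,2),(0,
  2),(16,2)]⟩,⟨0,[(2,0)]⟩⟩ ⟨false,0,⟨1,[(1,0),(2,0),(0,0)]⟩,⟨0,[(0,0),(6,0),(14,0)]⟩⟩,.o ⟨false,1,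
  ⟨3,[(1,1),(14,0),(0,0),(9,0),(7,1)]⟩,⟨0,[(7,0),(24,0)]⟩⟩,.o ⟨false,1,⟨0,[(9,0),(12,0)]⟩,⟨0,[(5,
  0)]⟩⟩,.a ⟨true,0,⟨0,[(24,0)]⟩,⟨0,[(20,0)]⟩⟩ ⟨false,1,⟨5,[(0,3),(9,1),(23,0),(0,0)]⟩,⟨1,[(2,1),(20,
  0),(0,0)]⟩⟩ ⟨true,0,⟨1,[(1,0),(2,0),(0,0)]⟩,⟨0,[(7,0),(16,0),(7,0)]⟩⟩]⟩) (.R ⟨2,true,false,false,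
  [0,1],[1,0,-1],[0,0,1,0,0,0,0,-1],(⟨0,[]⟩,⟨0,[]⟩),(⟨0,[(25,0)]⟩,⟨0,[(26,0)]⟩),⟨0,[]⟩,.k,.k,.k,.k,
  .k,.k,⟨true,0,⟨1,[(23,0),(0,0)]⟩,⟨0,[]⟩⟩,⟨false,1,⟨0,[(9,0),(12,0)]⟩,⟨0,[(20,0)]⟩⟩,⟨false,0,⟨0,
  [(0,0),(34,0)]⟩,⟨5,[(6,3),(2,3),(2,1),(11,1),(9,0),(0,0)]⟩⟩,⟨true,0,⟨0,[(7,0)]⟩,⟨0,[(6,0)]⟩⟩,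
  ⟨true,0,⟨0,[(2,0)]⟩,⟨0,[(11,0)]⟩⟩,⟨false,1,⟨3,[(7,1),(4,1),(14,0),(7,2)]⟩,⟨1,[(1,0),(23,0),(0,
  0)]⟩⟩,[]⟩)) (.Q [0,0,-2,-1,0,0,1,1,0,0,-1] (.p false [0,0,1] [] (⟨0,[(25,0)]⟩,⟨0,[(24,0)]⟩) .k 0
  (⟨0,[]⟩,⟨0,[]⟩) .k .k) (.R ⟨0,false,false,false,[1,-1],[1,-1,1],[1,1],(⟨0,[(28,0)]⟩,⟨0,[(29,0)]⟩),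
  (⟨0,[(26,0),(1,0)]⟩,⟨0,[(15,0)]⟩),⟨0,[(14,0),(0,0)]⟩,.k,.k,(.r 0 ⟨2,[(7,1),(2,1),(9,1)]⟩ ⟨2,[(6,
  1),(1,1),(3,1),(11,1),(7,1),(2,2)]⟩),.k,.k,.k,⟨false,0,⟨4,[(2,1),(5,0),(3,2),(0,0),(17,1)]⟩,⟨3,
  [(10,1),(0,1),(4,0),(0,0),(17,2)]⟩⟩,⟨true,0,⟨0,[(5,0)]⟩,⟨0,[(24,0)]⟩⟩,⟨true,0,⟨2,[(6,0),(1,0),(3,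
  0),(11,0),(7,0)]⟩,⟨2,[(7,0),(2,0),(9,0)]⟩⟩,⟨false,1,⟨0,[(21,0),(13,0)]⟩,⟨1,[(1,0),(23,0),(0,0)]⟩⟩,
  ⟨false,0,⟨0,[]⟩,⟨0,[]⟩⟩,⟨false,0,⟨0,[]⟩,⟨0,[]⟩⟩,[.e ⟨false,0,⟨14,[(0,0),(0,0),(2,0),(5,0),(19,5),
  (0,2)]⟩,⟨1,[(16,0),(0,0),(17,0)]⟩⟩ ⟨false,0,⟨0,[(0,0)]⟩,⟨5,[(6,1),(1,1),(3,3),(3,0),(0,0),(4,3),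
  (1,1),(10,4)]⟩⟩,.o ⟨false,1,⟨5,[(8,1),(0,3),(0,1),(2,1),(13,0),(5,1),(1,0)]⟩,⟨0,[(12,0)]⟩⟩,.a
  ⟨true,0,⟨1,[(23,0),(0,0)]⟩,⟨0,[(4,0),(19,0)]⟩⟩ ⟨false,0,⟨0,[]⟩,⟨1,[(16,0),(0,0),(17,0)]⟩⟩ ⟨true,0,
  ⟨0,[(3,0)]⟩,⟨1,[(12,1),(10,0),(0,0)]⟩⟩,.e ⟨true,0,⟨14,[(0,0),(0,0),(2,0),(5,0),(19,5),(0,2)]⟩,⟨1,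
  [(23,0),(0,0)]⟩⟩ ⟨true,0,⟨0,[(0,0)]⟩,⟨0,[(12,0),(10,0),(0,0)]⟩⟩]⟩) (.Q [0,0,-2,0,0,0,0,0,0,1]
  (.pp false [-1,1]) (.R ⟨0,false,false,false,[1,-1],[1,-1,1],[1,1],(⟨0,[(29,0)]⟩,⟨0,[(30,0)]⟩),(⟨0,
  [(27,0),(1,0)]⟩,⟨0,[(16,0)]⟩),⟨0,[(15,0),(0,0)]⟩,.k,.k,(.r 0 ⟨2,[(8,1),(2,1),(9,1)]⟩ ⟨1,[(1,1),(5,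
  1),(20,0),(7,0)]⟩),.k,.k,.k,⟨false,0,⟨4,[(3,1),(5,0),(3,2),(0,0),(17,1)]⟩,⟨3,[(11,1),(0,1),(4,0),
  (0,0),(17,2)]⟩⟩,⟨true,0,⟨0,[(6,0)]⟩,⟨0,[(25,0)]⟩⟩,⟨true,0,⟨10,[(1,3),(5,1),(1,1),(2,1),(18,0),(1,
  4)]⟩,⟨2,[(8,0),(2,0),(9,0)]⟩⟩,⟨false,1,⟨0,[(22,0),(13,0)]⟩,⟨2,[(0,0),(0,0),(0,0),(31,0)]⟩⟩,⟨false,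
  0,⟨0,[]⟩,⟨0,[]⟩⟩,⟨false,0,⟨0,[]⟩,⟨0,[]⟩⟩,[.a ⟨true,0,⟨1,[(4,1),(19,0),(0,0)]⟩,⟨0,[(0,0),(0,0)]⟩⟩
  ⟨false,0,⟨10,[(5,0),(2,0),(2,0),(19,3),(0,2)]⟩,⟨1,[(17,0),(0,0),(17,0)]⟩⟩ ⟨true,0,⟨0,[(4,0)]⟩,⟨0,
  [(1,0)]⟩⟩,.o ⟨false,1,⟨5,[(9,1),(0,3),(0,1),(2,1),(13,0),(5,1),(1,0)]⟩,⟨0,[(13,0)]⟩⟩,.a ⟨true,0,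
  ⟨1,[(24,0),(0,0)]⟩,⟨1,[(0,0),(25,0),(0,0)]⟩⟩ ⟨false,0,⟨0,[]⟩,⟨1,[(17,0),(0,0),(17,0)]⟩⟩ ⟨true,0,
  ⟨0,[(4,0)]⟩,⟨2,[(1,1),(11,0),(17,0)]⟩⟩,.a ⟨true,0,⟨0,[(24,0),(0,0)]⟩,⟨0,[(0,0)]⟩⟩ ⟨true,0,⟨10,[(5,
  0),(2,0),(2,0),(19,3),(0,2)]⟩,⟨1,[(24,0),(0,0)]⟩⟩ ⟨false,1,⟨1,[(4,1),(30,0),(0,0)]⟩,⟨0,[(1,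
  0)]⟩⟩]⟩) (.Q [0,1,0,2,0,0,0,0,0,1] (.pp false [-1,1]) (.R ⟨2,false,false,false,[0,1],[1,-1],[0,1,
  1],(⟨0,[]⟩,⟨0,[]⟩),(⟨0,[(30,0)]⟩,⟨0,[(31,0)]⟩),⟨0,[]⟩,.k,.k,.k,(.r (-1) ⟨1,[(2,1),(5,1),(20,0),(7,
  0)]⟩ ⟨2,[(9,1),(2,1),(9,1)]⟩),.k,.k,⟨false,0,⟨10,[(2,3),(5,1),(1,1),(2,1),(18,0),(1,4)]⟩,⟨5,[(9,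
  1),(2,1),(9,1),(13,2),(0,2)]⟩⟩,⟨true,0,⟨0,[(1,0)]⟩,⟨0,[(6,0),(19,0)]⟩⟩,⟨false,0,⟨0,[(35,0)]⟩,⟨3,
  [(0,1),(28,0),(7,2)]⟩⟩,⟨true,0,⟨1,[(9,0),(0,0),(1,0),(22,0)]⟩,⟨0,[(0,0)]⟩⟩,⟨true,0,⟨0,[(39,0)]⟩,
  ⟨0,[]⟩⟩,⟨true,0,⟨1,[(1,0),(1,0),(1,1)]⟩,⟨2,[(0,0),(7,0),(15,0),(2,0),(0,0)]⟩⟩,[.o ⟨false,0,⟨1,[(1,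
  0),(1,0),(1,1)]⟩,⟨3,[(0,1),(17,1),(0,1),(9,0),(7,0)]⟩⟩,.o ⟨false,1,⟨1,[(29,0),(5,1),(1,0)]⟩,⟨0,
  [(34,0)]⟩⟩,.a ⟨true,0,⟨0,[(6,0),(19,0)]⟩,⟨1,[(25,0),(0,0)]⟩⟩ ⟨false,0,⟨1,[(25,0),(0,0)]⟩,⟨1,[(36,
  0),(0,0)]⟩⟩ ⟨true,0,⟨3,[(1,1),(7,0),(0,0),(1,0),(22,0)]⟩,⟨3,[(0,2),(5,0),(5,0),(11,0)]⟩⟩,.e ⟨true,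
  0,⟨0,[(39,0)]⟩,⟨0,[]⟩⟩ ⟨true,0,⟨1,[(1,0),(1,0),(1,1)]⟩,⟨2,[(0,0),(7,0),(15,0),(2,0),(0,0)]⟩⟩]⟩)
  (.R ⟨2,true,false,false,[0,1],[1,-1],[1,0,1,1],(⟨0,[]⟩,⟨0,[]⟩),(⟨0,[(30,0)]⟩,⟨0,[(31,0)]⟩),⟨0,[]⟩,
  .k,.k,.k,(.r (-1) ⟨1,[(2,1),(5,1),(20,0),(7,0)]⟩ ⟨2,[(9,1),(2,1),(9,1)]⟩),.k,.k,⟨false,1,⟨3,[(2,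
  1),(5,1),(20,0),(4,3),(2,2)]⟩,⟨2,[(9,1),(2,1),(9,1)]⟩⟩,⟨true,0,⟨0,[(1,0)]⟩,⟨0,[(6,0),(19,0)]⟩⟩,
  ⟨true,0,⟨0,[]⟩,⟨0,[(39,0)]⟩⟩,⟨false,0,⟨0,[(0,0)]⟩,⟨0,[(8,0),(5,0),(22,0)]⟩⟩,⟨false,1,⟨0,[(34,0),
  (2,0)]⟩,⟨0,[(35,0)]⟩⟩,⟨true,0,⟨4,[(0,2),(8,0),(0,0),(2,0),(19,1)]⟩,⟨1,[(8,0),(5,0),(12,0),(0,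
  0)]⟩⟩,[]⟩))))) (.R ⟨0,false,false,false,[0,1,-1],[0,1],[1,1],(⟨0,[(13,0)]⟩,⟨0,[(24,0),(1,0)]⟩),
  (⟨0,[(27,0)]⟩,⟨0,[(26,0)]⟩),⟨0,[(24,0)]⟩,.k,.k,.k,.k,.k,.k,⟨false,0,⟨10,[(2,3),(2,3),(2,3),(19,4),
  (0,0)]⟩,⟨2,[(4,0),(1,0),(3,0),(11,0),(7,0),(2,2)]⟩⟩,⟨true,0,⟨0,[(3,0)]⟩,⟨0,[(22,0)]⟩⟩,⟨false,0,⟨1,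
  [(0,0),(7,0)]⟩,⟨0,[(10,0),(10,0),(11,0)]⟩⟩,⟨true,0,⟨0,[(0,0),(2,0)]⟩,⟨0,[(20,0)]⟩⟩,⟨false,0,⟨0,
  []⟩,⟨0,[]⟩⟩,⟨false,0,⟨0,[]⟩,⟨0,[]⟩⟩,[.o ⟨false,1,⟨3,[(4,1),(5,1),(3,0),(0,0),(9,0),(7,1)]⟩,⟨0,[(0,
  0),(2,0),(1,0)]⟩⟩,.o ⟨false,1,⟨0,[(30,0),(2,0)]⟩,⟨13,[(5,6),(0,6),(1,3),(0,2),(18,4),(0,0)]⟩⟩,.e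
  ⟨false,0,⟨0,[]⟩,⟨1,[(14,0),(0,0),(17,0)]⟩⟩ ⟨false,1,⟨3,[(4,0),(1,1),(3,0),(0,0),(18,1),(2,3)]⟩,⟨0,
  [(0,0),(1,0),(2,0),(16,0)]⟩⟩,.a ⟨true,0,⟨0,[(2,0),(19,1)]⟩,⟨0,[(3,0)]⟩⟩ ⟨true,0,⟨10,[(2,0),(2,0),
  (2,0),(19,3),(0,2)]⟩,⟨1,[(21,0),(0,0)]⟩⟩ ⟨false,1,⟨2,[(6,0),(4,0),(17,1),(0,0),(2,2)]⟩,⟨2,[(5,0),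
  (2,0),(13,1),(0,0),(0,0)]⟩⟩]⟩)) (.R ⟨0,false,false,true,[0,1,-1],[0,1],[1],(⟨0,[(12,0)]⟩,⟨0,[(23,
  0),(1,0)]⟩),(⟨0,[(26,0)]⟩,⟨0,[(25,0)]⟩),⟨0,[(23,0)]⟩,.k,.k,.k,.k,.k,.k,⟨false,1,⟨5,[(4,1),(2,1),
  (9,1),(13,2),(0,2)]⟩,⟨2,[(3,0),(1,0),(3,0),(11,0),(7,0)]⟩⟩,⟨true,0,⟨0,[(2,0)]⟩,⟨0,[(21,0)]⟩⟩,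
  ⟨false,1,⟨3,[(7,1),(0,1),(4,0),(0,0),(17,2)]⟩,⟨0,[(0,0),(1,0)]⟩⟩,⟨true,0,⟨0,[(18,0)]⟩,⟨2,[(0,2),
  (3,0),(2,0),(9,0)]⟩⟩,⟨false,0,⟨0,[]⟩,⟨0,[]⟩⟩,⟨false,0,⟨0,[]⟩,⟨0,[]⟩⟩,[.o ⟨false,0,⟨0,[(29,0)]⟩,⟨1,
  [(24,0),(5,1),(1,0)]⟩⟩,.e ⟨false,1,⟨1,[(31,0),(0,0)]⟩,⟨0,[(34,0)]⟩⟩ ⟨false,1,⟨1,[(3,0),(5,0),(0,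
  0),(13,0),(7,0)]⟩,⟨0,[(0,0),(6,0)]⟩⟩,.e ⟨true,0,⟨0,[]⟩,⟨0,[(34,0)]⟩⟩ ⟨true,0,⟨3,[(3,0),(1,1),(3,
  0),(0,0),(18,1)]⟩,⟨0,[(0,0),(6,0)]⟩⟩,.a ⟨true,0,⟨0,[(1,0),(19,1)]⟩,⟨0,[(2,0)]⟩⟩ ⟨false,1,⟨1,[(31,
  0),(0,0)]⟩,⟨1,[(20,0),(0,0)]⟩⟩ ⟨true,0,⟨2,[(5,0),(4,0),(17,1),(0,0)]⟩,⟨2,[(4,0),(2,0),(13,1),(0,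
  0),(0,0)]⟩⟩]⟩))) (.K ⟨0,[-1,1,1],0,0,(⟨0,[(9,0)]⟩,⟨0,[(20,0),(2,0)]⟩),.k,.k,(.r (-1) ⟨0,[(0,1),(0,
  0),(1,0),(23,0),(2,0)]⟩ ⟨2,[(2,3),(2,0),(9,3)]⟩),.k,.k,[⟨0,[(0,0),(14,0)]⟩,⟨0,[(0,1),(2,0)]⟩,⟨6,
  [(2,5),(0,0),(2,0),(10,1),(7,1),(2,0)]⟩,⟨0,[(1,0)]⟩]⟩)) (.Q [0,0,1,0,0,0,0,0,0,-1] (.pp true [-1,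
  1]) (.R ⟨0,false,false,true,[1,0,-1],[0,1],[1,1,1],(⟨0,[(20,0)]⟩,⟨0,[(21,0)]⟩),(⟨0,[(24,0)]⟩,⟨0,
  [(23,0)]⟩),⟨0,[(9,0)]⟩,.k,.k,.k,.k,.k,.k,⟨false,0,⟨2,[(2,0),(2,0),(9,0)]⟩,⟨1,[(11,0),(0,0),(14,1),
  (2,0)]⟩⟩,⟨true,0,⟨0,[(15,0)]⟩,⟨0,[(0,0),(18,0)]⟩⟩,⟨true,0,⟨1,[(6,1),(11,0),(0,0)]⟩,⟨3,[(1,2),(5,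
  0),(0,0),(6,1),(10,1)]⟩⟩,⟨false,1,⟨1,[(6,1),(1,0),(11,0),(0,0),(5,1),(2,1)]⟩,⟨0,[(1,0)]⟩⟩,⟨false,
  0,⟨0,[]⟩,⟨0,[]⟩⟩,⟨false,0,⟨0,[]⟩,⟨0,[]⟩⟩,[.o ⟨false,0,⟨0,[(27,0)]⟩,⟨1,[(22,0),(5,1),(1,0)]⟩⟩,.o
  ⟨false,1,⟨1,[(11,0),(0,0),(14,1),(2,0)]⟩,⟨4,[(0,0),(0,0),(0,0),(0,1),(1,1),(20,0)]⟩⟩,.o ⟨false,1,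
  ⟨0,[(4,0),(12,0)]⟩,⟨0,[(0,0),(14,0)]⟩⟩,.a ⟨true,0,⟨0,[(19,0)]⟩,⟨0,[(15,0)]⟩⟩ ⟨false,0,⟨0,[]⟩,⟨1,
  [(11,0),(0,0),(17,0)]⟩⟩ ⟨true,0,⟨0,[(15,0),(11,0)]⟩,⟨5,[(0,2),(1,1),(0,0),(1,1),(13,4)]⟩⟩]⟩) (.Q
  [0,0,2,0,0,0,-1,0,0,-1,1] (.p true [0,0,1] [1] (⟨0,[(21,0)]⟩,⟨0,[(20,0)]⟩) .k 1 (⟨0,[]⟩,⟨0,[]⟩)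
  .k .k) (.R ⟨0,false,false,true,[1,-1],[0,0,1],[1,1],(⟨0,[(24,0)]⟩,⟨0,[(25,0)]⟩),(⟨0,[(22,0)]⟩,⟨0,
  [(21,0)]⟩),⟨0,[(10,0),(0,0)]⟩,.k,.k,(.r 0 ⟨2,[(3,1),(2,1),(9,1)]⟩ ⟨0,[(19,0),(0,0),(7,1),(2,0)]⟩),
  .k,.k,.k,⟨false,0,⟨3,[(2,2),(5,0),(0,0),(6,1),(10,1)]⟩,⟨1,[(7,1),(4,0),(0,0),(17,0)]⟩⟩,⟨true,0,⟨0,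
  [(16,0)]⟩,⟨0,[(0,0)]⟩⟩,⟨true,0,⟨1,[(19,0),(0,0),(7,1)]⟩,⟨2,[(3,0),(2,0),(9,0)]⟩⟩,⟨false,1,⟨2,[(1,
  0),(5,2),(1,1),(10,0),(7,2),(2,2)]⟩,⟨0,[(2,0)]⟩⟩,⟨false,0,⟨0,[]⟩,⟨0,[]⟩⟩,⟨false,0,⟨0,[]⟩,⟨0,[]⟩⟩,
  [.o ⟨false,0,⟨0,[(17,0)]⟩,⟨3,[(3,1),(4,1),(14,0),(7,2)]⟩⟩,.o ⟨false,1,⟨1,[(12,0),(0,0),(3,1),(13,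
  0)]⟩,⟨7,[(0,0),(1,5),(1,0),(3,1),(18,3)]⟩⟩,.a ⟨true,0,⟨1,[(19,0),(0,0)]⟩,⟨0,[(1,0)]⟩⟩ ⟨false,0,⟨0,
  []⟩,⟨1,[(12,0),(0,0),(17,0)]⟩⟩ ⟨true,0,⟨0,[(1,0),(15,0)]⟩,⟨3,[(0,0),(1,1),(1,0),(3,1)]⟩⟩,.o
  ⟨false,0,⟨1,[(0,0),(3,0)]⟩,⟨0,[(30,0)]⟩⟩]⟩) (.I [0,0,1,1,0,0,0,-1] (.R ⟨0,false,false,true,[0,1,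
  -1],[0,1],[1],(⟨0,[(12,0)]⟩,⟨0,[(23,0),(1,0)]⟩),(⟨0,[(26,0)]⟩,⟨0,[(25,0)]⟩),⟨0,[(23,0)]⟩,.k,.k,.k,
  .k,.k,.k,⟨false,1,⟨5,[(4,1),(2,1),(9,1),(13,2),(0,2)]⟩,⟨1,[(20,0),(0,0),(7,1)]⟩⟩,⟨true,0,⟨1,[(1,
  0),(3,0)]⟩,⟨0,[(21,0)]⟩⟩,⟨false,1,⟨3,[(7,1),(0,1),(4,0),(0,0),(17,2)]⟩,⟨0,[(0,0)]⟩⟩,⟨true,0,⟨0,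
  [(18,0)]⟩,⟨4,[(0,0),(1,1),(0,1),(5,0),(9,0),(1,0)]⟩⟩,⟨false,0,⟨0,[]⟩,⟨0,[]⟩⟩,⟨false,0,⟨0,[]⟩,⟨0,
  []⟩⟩,[.o ⟨false,0,⟨0,[(29,0)]⟩,⟨1,[(24,0),(5,1),(1,0)]⟩⟩,.o ⟨false,1,⟨1,[(13,0),(0,0),(14,1),(2,
  0)]⟩,⟨7,[(3,2),(0,0),(0,3),(1,2),(0,0),(19,1)]⟩⟩,.e ⟨true,0,⟨0,[]⟩,⟨0,[(34,0)]⟩⟩ ⟨true,0,⟨0,[(20,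
  0),(8,0)]⟩,⟨5,[(2,1),(0,1),(3,2),(1,0),(11,2),(6,0)]⟩⟩,.a ⟨true,0,⟨0,[(2,0),(18,0)]⟩,⟨1,[(1,0),(3,
  0)]⟩⟩ ⟨false,1,⟨1,[(31,0),(0,0)]⟩,⟨1,[(20,0),(0,0)]⟩⟩ ⟨true,0,⟨2,[(5,0),(4,0),(17,1),(0,0)]⟩,⟨6,
  [(2,0),(0,0),(3,1),(11,0),(1,4),(8,1)]⟩⟩]⟩) (.Q [0,0,-2,0,0,0,0,0,0,1] (.pp false [-1,1]) (.R ⟨0,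
  false,false,true,[0,1,-1],[0,1],[1,1],(⟨0,[(13,0)]⟩,⟨0,[(24,0),(1,0)]⟩),(⟨0,[(27,0)]⟩,⟨0,[(26,
  0)]⟩),⟨0,[(24,0)]⟩,.k,.k,.k,.k,.k,.k,⟨false,0,⟨6,[(2,2),(1,1),(0,0),(2,2),(20,1)]⟩,⟨1,[(14,0),(0,
  0),(5,0),(0,0),(7,1),(2,0)]⟩⟩,⟨true,0,⟨1,[(2,0),(3,0)]⟩,⟨0,[(22,0)]⟩⟩,⟨false,0,⟨0,[(1,0)]⟩,⟨0,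
  [(10,0),(10,0),(11,0)]⟩⟩,⟨true,0,⟨0,[(19,0)]⟩,⟨5,[(3,1),(0,2),(5,2),(0,0),(10,1)]⟩⟩,⟨false,0,⟨0,
  []⟩,⟨0,[]⟩⟩,⟨false,0,⟨0,[]⟩,⟨0,[]⟩⟩,[.o ⟨false,0,⟨0,[(30,0)]⟩,⟨1,[(25,0),(5,1),(1,0)]⟩⟩,.o ⟨false,
  1,⟨1,[(14,0),(0,0),(14,1),(2,0)]⟩,⟨3,[(1,0),(2,0),(0,0),(0,1),(1,0),(20,0)]⟩⟩,.a ⟨true,0,⟨0,[(0,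
  0),(21,0)]⟩,⟨0,[(21,0)]⟩⟩ ⟨false,0,⟨0,[]⟩,⟨1,[(14,0),(0,0),(17,0)]⟩⟩ ⟨true,0,⟨0,[(21,0),(8,0)]⟩,
  ⟨3,[(0,0),(3,0),(3,1),(1,0),(11,1)]⟩⟩,.e ⟨true,0,⟨10,[(2,0),(2,0),(2,0),(19,3),(0,2)]⟩,⟨1,[(21,0),
  (0,0)]⟩⟩ ⟨true,0,⟨2,[(6,0),(4,0),(17,1),(0,0)]⟩,⟨6,[(3,0),(0,0),(3,1),(11,0),(1,4),(8,1)]⟩⟩]⟩)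
  (.R ⟨2,true,false,false,[0,1],[1,-1],[1,0,1,1],(⟨0,[]⟩,⟨0,[]⟩),(⟨0,[(26,0)]⟩,⟨0,[(27,0)]⟩),⟨0,[]⟩,
  .k,.k,.k,(.r (-1) ⟨1,[(0,0),(10,0),(10,1),(7,3),(2,1)]⟩ ⟨2,[(5,1),(2,1),(9,1)]⟩),.k,.k,⟨false,1,
  ⟨3,[(0,0),(10,0),(10,1),(7,7),(2,3)]⟩,⟨2,[(5,1),(2,1),(9,1)]⟩⟩,⟨true,0,⟨0,[(0,0)]⟩,⟨0,[(3,0)]⟩⟩,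
  ⟨true,0,⟨0,[]⟩,⟨0,[(35,0)]⟩⟩,⟨false,0,⟨1,[(0,0),(0,1),(2,1),(6,0)]⟩,⟨2,[(3,1),(7,0),(10,1),(7,5),
  (2,2)]⟩⟩,⟨false,1,⟨0,[(30,0),(2,0)]⟩,⟨0,[(31,0)]⟩⟩,⟨true,0,⟨6,[(0,0),(3,1),(0,0),(0,2),(1,2),(20,
  1)]⟩,⟨2,[(3,1),(7,0),(10,1),(7,2)]⟩⟩,[]⟩))))))

theorem ok2 : chk K t2 l5 = true := by decide +kernel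

noncomputable def t3 : Tre :=
  (.I [1,0,2,1] (.I [0,1,0,0,0,0,0,-1] (.I [0,0,0,0,0,0,0,1] (.Q [0,0,0,1,0,0,0,0,0,1] (.pp false
  [-1,1]) (.I [1,0,-1,0,0,0,0,1] (.I [0,0,2,1] (.Q [0,-1,1,1,0,0,1,1,0,1,-1] (.p false [0,0,1] [1]
  (⟨0,[(25,0)]⟩,⟨0,[(24,0)]⟩) .k 1 (⟨0,[]⟩,⟨0,[]⟩) .k .k) (.I [1,-1,0,-1,0,0,0,1] (.I [0,0,1,1] (.R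
  ⟨0,false,false,true,[-1,1,1],[0,1],[1,1,1,1],(⟨0,[(16,0)]⟩,⟨0,[(27,0),(2,0)]⟩),(⟨0,[(31,0)]⟩,⟨0,
  [(30,0)]⟩),⟨0,[(27,0)]⟩,.k,.k,.k,.k,.k,.k,⟨true,0,⟨0,[]⟩,⟨1,[(8,0),(26,0)]⟩⟩,⟨false,1,⟨3,[(11,1),
  (0,1),(1,3),(14,0),(7,0)]⟩,⟨1,[(15,0),(11,0),(0,0)]⟩⟩,⟨true,0,⟨0,[(7,0)]⟩,⟨0,[(6,0)]⟩⟩,⟨false,1,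
  ⟨1,[(24,1),(4,0),(7,0)]⟩,⟨1,[(1,0),(0,0),(19,0)]⟩⟩,⟨false,0,⟨0,[]⟩,⟨0,[]⟩⟩,⟨false,0,⟨0,[]⟩,⟨0,
  []⟩⟩,[.o ⟨false,0,⟨0,[(34,0)]⟩,⟨1,[(29,0),(5,1),(1,0)]⟩⟩,.a ⟨true,0,⟨0,[(5,0)]⟩,⟨0,[(35,0)]⟩⟩
  ⟨true,0,⟨0,[(0,0)]⟩,⟨0,[(35,0)]⟩⟩ ⟨false,1,⟨0,[(11,0),(2,0)]⟩,⟨0,[(22,0),(12,0)]⟩⟩,.o ⟨false,0,⟨0,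
  [(22,0)]⟩,⟨0,[(26,0),(2,0)]⟩⟩,.o ⟨false,0,⟨1,[(15,0),(11,0),(0,0)]⟩,⟨0,[(1,0),(12,0),(14,0)]⟩⟩]⟩)
  (.K ⟨0,[-1,1,1],0,0,(⟨0,[(16,0)]⟩,⟨0,[(27,0),(2,0)]⟩),.k,.k,(.r 0 ⟨0,[(1,0),(0,0),(1,0),(5,0),(3,
  1)]⟩ ⟨0,[(7,1),(4,0),(24,0)]⟩),.k,.k,[⟨0,[(0,0),(4,0)]⟩,⟨0,[(1,1),(8,0),(3,1)]⟩,⟨0,[(0,1),(0,0),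
  (8,0),(3,1)]⟩,⟨6,[(8,0),(0,5),(3,1),(1,0),(8,0),(7,1)]⟩]⟩)) (.I [0,0,2,2] (.Q [0,-1,1,1,0,0,0,1,0,
  1] (.pp false [-1,1]) (.Q [0,0,0,0,1,0,-1,0,0,-2,1] (.p true [-1,1,1] [1] (⟨0,[(17,0)]⟩,⟨0,[(28,
  0),(2,0)]⟩) .k 1 (⟨0,[]⟩,⟨0,[]⟩) .k .k) (.Q [0,-1,0,0,0,0,1,1,0,1,-1] (.p false [0,0,1] [1] (⟨0,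
  [(30,0)]⟩,⟨0,[(29,0)]⟩) .k 1 (⟨0,[]⟩,⟨0,[]⟩) .k .k) (.R ⟨0,false,false,true,[-1,1,1],[0,1],[1,1,1,
  1],(⟨0,[(19,0)]⟩,⟨0,[(30,0),(2,0)]⟩),(⟨0,[(34,0)]⟩,⟨0,[(33,0)]⟩),⟨0,[(30,0)]⟩,.k,.k,.k,.k,.k,.k,
  ⟨true,0,⟨0,[]⟩,⟨1,[(11,0),(26,0)]⟩⟩,⟨false,1,⟨6,[(1,3),(0,0),(12,1),(1,2),(21,1),(0,0)]⟩,⟨1,[(0,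
  0),(17,0),(8,0)]⟩⟩,⟨true,0,⟨0,[(10,0)]⟩,⟨0,[(9,0)]⟩⟩,⟨false,1,⟨1,[(27,1),(4,0),(7,0)]⟩,⟨0,[(0,
  0)]⟩⟩,⟨false,0,⟨0,[]⟩,⟨0,[]⟩⟩,⟨false,0,⟨0,[]⟩,⟨0,[]⟩⟩,[.o ⟨false,0,⟨0,[(37,0)]⟩,⟨1,[(32,0),(5,1),
  (1,0)]⟩⟩,.a ⟨true,0,⟨0,[(8,0)]⟩,⟨0,[(38,0)]⟩⟩ ⟨true,0,⟨1,[(3,0)]⟩,⟨0,[(38,0)]⟩⟩ ⟨false,1,⟨5,[(1,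
  3),(0,1),(0,0),(13,1),(21,1)]⟩,⟨0,[(25,0),(12,0)]⟩⟩,.o ⟨false,0,⟨0,[(25,0)]⟩,⟨6,[(1,5),(11,1),(7,
  0),(0,0),(6,2)]⟩⟩,.o ⟨false,0,⟨1,[(0,0),(17,0),(8,0)]⟩,⟨0,[(1,0)]⟩⟩]⟩) (.Q [0,0,0,0,0,0,-1,0,0,0,
  1] (.p true [0,0,1] [] (⟨0,[(31,0)]⟩,⟨0,[(30,0)]⟩) .k 0 (⟨0,[]⟩,⟨0,[]⟩) .k .k) (.K ⟨0,[-1,1,1],0,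
  0,(⟨0,[(20,0)]⟩,⟨0,[(31,0),(2,0)]⟩),.k,.k,(.r 0 ⟨0,[(4,0),(5,0)]⟩ ⟨0,[(11,1),(4,0),(24,0)]⟩),.k,
  .k,[⟨0,[(0,0),(25,0)]⟩,⟨0,[(0,1),(13,0)]⟩,⟨0,[(1,0),(37,0)]⟩,⟨5,[(3,0),(8,0),(0,3),(3,0),(1,0),
  (16,2)]⟩]⟩) (.Q [0,0,1,-1,0,0,-1,0,0,-1,1] (.p true [0,0,1] [1] (⟨0,[(32,0)]⟩,⟨0,[(31,0)]⟩) .k 1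
  (⟨0,[]⟩,⟨0,[]⟩) .k .k) (.R ⟨0,false,false,true,[1,0,-1],[0,1],[1,0,1],(⟨0,[(32,0)]⟩,⟨0,[(33,0)]⟩),
  (⟨0,[(36,0)]⟩,⟨0,[(35,0)]⟩),⟨0,[(21,0)]⟩,.k,.k,.k,.k,.k,.k,⟨false,1,⟨1,[(40,1),(0,0),(0,0)]⟩,⟨0,
  [(39,0)]⟩⟩,⟨true,0,⟨0,[(27,0)]⟩,⟨1,[(0,1),(4,0)]⟩⟩,⟨true,0,⟨1,[(0,0),(3,0),(23,0)]⟩,⟨0,[(2,0),(24,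
  0)]⟩⟩,⟨false,0,⟨0,[(14,0)]⟩,⟨0,[(2,0),(37,0),(1,0)]⟩⟩,⟨false,0,⟨0,[]⟩,⟨0,[]⟩⟩,⟨false,0,⟨0,[]⟩,⟨0,
  []⟩⟩,[.o ⟨false,0,⟨0,[(39,0)]⟩,⟨1,[(34,0),(5,1),(1,0)]⟩⟩,.a ⟨true,0,⟨0,[(10,0)]⟩,⟨0,[(40,0)]⟩⟩
  ⟨false,1,⟨1,[(23,0),(0,0),(17,0)]⟩,⟨6,[(2,0),(14,0),(9,0),(9,1),(0,1)]⟩⟩ ⟨true,0,⟨1,[(5,0),(21,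
  1)]⟩,⟨0,[(0,0)]⟩⟩,.o ⟨false,1,⟨3,[(3,1),(19,0),(0,0),(6,1),(9,0)]⟩,⟨0,[(1,0)]⟩⟩,.e ⟨true,0,⟨0,[]⟩,
  ⟨0,[(44,0)]⟩⟩ ⟨true,0,⟨4,[(6,1),(7,1),(12,2),(9,0),(0,0)]⟩,⟨0,[(0,0)]⟩⟩]⟩) (.Q [0,0,2,0,0,0,-1,0,
  0,-1,1] (.p true [0,0,1] [1] (⟨0,[(33,0)]⟩,⟨0,[(32,0)]⟩) .k 1 (⟨0,[]⟩,⟨0,[]⟩) .k .k) (.R ⟨0,false,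
  false,true,[1,0,-1],[0,1],[1,0,1],(⟨0,[(33,0)]⟩,⟨0,[(34,0)]⟩),(⟨0,[(37,0)]⟩,⟨0,[(36,0)]⟩),⟨0,[(22,
  0)]⟩,.k,.k,.k,.k,.k,.k,⟨false,1,⟨1,[(41,1),(0,0),(0,0)]⟩,⟨0,[(40,0)]⟩⟩,⟨true,0,⟨0,[(28,0)]⟩,⟨0,
  [(0,0)]⟩⟩,⟨true,0,⟨6,[(0,2),(4,2),(12,0),(10,2),(11,0)]⟩,⟨0,[(3,0),(24,0)]⟩⟩,⟨false,0,⟨0,[(15,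
  0)]⟩,⟨0,[(3,0),(37,0),(1,0)]⟩⟩,⟨false,0,⟨0,[]⟩,⟨0,[]⟩⟩,⟨false,0,⟨0,[]⟩,⟨0,[]⟩⟩,[.o ⟨false,0,⟨0,
  [(40,0)]⟩,⟨1,[(35,0),(5,1),(1,0)]⟩⟩,.e ⟨false,1,⟨1,[(24,0),(0,0),(17,0)]⟩,⟨5,[(1,0),(1,0),(14,0),
  (19,1),(0,0)]⟩⟩ ⟨false,0,⟨0,[(1,0)]⟩,⟨5,[(0,1),(3,1),(13,1),(5,2),(0,2),(4,1),(10,1),(1,0)]⟩⟩,.o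
  ⟨false,1,⟨3,[(4,1),(19,0),(0,0),(6,1),(9,0)]⟩,⟨0,[(2,0)]⟩⟩,.a ⟨true,0,⟨0,[(32,0)]⟩,⟨0,[(28,0)]⟩⟩
  ⟨true,0,⟨0,[]⟩,⟨0,[(45,0)]⟩⟩ ⟨false,0,⟨0,[(1,0)]⟩,⟨11,[(0,7),(3,1),(13,1),(5,2),(0,2),(4,1),(10,
  7),(1,6)]⟩⟩]⟩) (.Q [0,0,-2,-1,0,0,1,1,0,0,-1] (.p false [0,0,1] [] (⟨0,[(34,0)]⟩,⟨0,[(33,0)]⟩) .k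
  0 (⟨0,[]⟩,⟨0,[]⟩) .k .k) (.R ⟨0,false,false,false,[1,-1],[1,-1,1],[0,1,1],(⟨0,[(37,0)]⟩,⟨0,[(38,
  0)]⟩),(⟨0,[(35,0),(1,0)]⟩,⟨0,[(24,0)]⟩),⟨0,[(23,0),(0,0)]⟩,.k,.k,(.r (-1) ⟨0,[(42,1),(0,0)]⟩ ⟨0,
  [(7,0)]⟩),.k,.k,.k,⟨false,0,⟨1,[(7,0),(6,1)]⟩,⟨9,[(6,1),(11,1),(0,5),(23,4),(0,2)]⟩⟩,⟨true,0,⟨0,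
  [(3,0)]⟩,⟨0,[(33,0)]⟩⟩,⟨false,0,⟨0,[(10,0)]⟩,⟨3,[(1,0),(2,0),(9,0),(4,1),(23,0),(0,2)]⟩⟩,⟨true,0,
  ⟨3,[(0,0),(8,0),(1,0),(5,0),(12,0)]⟩,⟨0,[(31,0)]⟩⟩,⟨false,0,⟨0,[]⟩,⟨0,[]⟩⟩,⟨false,0,⟨0,[]⟩,⟨0,
  []⟩⟩,[.e ⟨false,0,⟨0,[(46,0)]⟩,⟨1,[(43,0),(0,0)]⟩⟩ ⟨false,0,⟨0,[(0,0)]⟩,⟨1,[(7,0),(17,0),(0,0),(4,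
  1),(12,0)]⟩⟩,.o ⟨false,1,⟨5,[(17,1),(0,3),(0,1),(2,1),(13,0),(5,1),(1,0)]⟩,⟨0,[(21,0)]⟩⟩,.a ⟨true,
  0,⟨1,[(15,0),(26,0)]⟩,⟨0,[(1,0),(31,0)]⟩⟩ ⟨false,0,⟨1,[(15,0),(26,0)]⟩,⟨1,[(43,0),(0,0)]⟩⟩ ⟨true,
  0,⟨24,[(0,9),(8,2),(7,4),(1,8),(2,1),(7,2)]⟩,⟨1,[(7,0),(23,1)]⟩⟩,.e ⟨true,0,⟨0,[(46,0)]⟩,⟨0,[]⟩⟩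
  ⟨true,0,⟨0,[(0,0)]⟩,⟨0,[(15,0),(15,0)]⟩⟩]⟩) (.R ⟨0,false,false,false,[0,1,-1],[0,1],[1,1],(⟨0,
  [(24,0)]⟩,⟨0,[(35,0),(1,0)]⟩),(⟨0,[(38,0)]⟩,⟨0,[(37,0)]⟩),⟨0,[(35,0)]⟩,.k,.k,.k,.k,.k,.k,⟨false,0,
  ⟨7,[(1,2),(2,2),(9,0),(4,3),(19,1)]⟩,⟨1,[(7,0),(17,0),(0,0),(17,0)]⟩⟩,⟨true,0,⟨0,[(3,0)]⟩,⟨0,[(33,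
  0)]⟩⟩,⟨false,0,⟨1,[(13,0),(5,0)]⟩,⟨5,[(0,3),(7,1),(13,1),(13,0),(6,0),(0,3)]⟩⟩,⟨true,0,⟨14,[(9,1),
  (1,9),(5,4),(1,0),(2,2),(7,1)]⟩,⟨0,[(31,0)]⟩⟩,⟨false,0,⟨0,[]⟩,⟨0,[]⟩⟩,⟨false,0,⟨0,[]⟩,⟨0,[]⟩⟩,[.a
  ⟨true,0,⟨0,[(12,0)]⟩,⟨0,[(42,0)]⟩⟩ ⟨false,0,⟨8,[(1,0),(2,0),(14,0),(19,2),(0,1)]⟩,⟨1,[(25,0),(0,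
  0),(17,0)]⟩⟩ ⟨true,0,⟨3,[(2,1),(4,0),(9,1)]⟩,⟨0,[(0,0),(18,0)]⟩⟩,.o ⟨false,1,⟨1,[(7,0),(35,0),(0,
  0)]⟩,⟨11,[(4,4),(12,6),(1,5),(0,0),(10,1),(7,1)]⟩⟩,.a ⟨true,0,⟨0,[(0,0),(0,0),(2,0),(1,0),(12,
  0)]⟩,⟨0,[(32,0)]⟩⟩ ⟨false,0,⟨0,[]⟩,⟨1,[(25,0),(0,0),(17,0)]⟩⟩ ⟨true,0,⟨3,[(2,1),(4,0),(9,1)]⟩,⟨4,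
  [(19,2),(0,0),(0,0),(9,2),(1,0)]⟩⟩,.a ⟨true,0,⟨2,[(0,1),(0,0),(4,1),(12,1),(11,1)]⟩,⟨0,[(3,0)]⟩⟩
  ⟨true,0,⟨8,[(1,0),(2,0),(14,0),(19,2),(0,1)]⟩,⟨1,[(15,0),(26,0)]⟩⟩ ⟨false,1,⟨5,[(2,1),(4,1),(14,
  1),(13,1),(6,0),(0,2)]⟩,⟨0,[(0,0),(18,0)]⟩⟩]⟩)))))) (.R ⟨0,false,false,false,[0,0,1],[1,-1],[1],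
  (⟨0,[(30,0)]⟩,⟨0,[(29,0)]⟩),(⟨0,[(32,0)]⟩,⟨0,[(33,0)]⟩),⟨0,[(19,0)]⟩,.k,.k,.k,.k,.k,.k,⟨true,0,⟨1,
  [(2,0)]⟩,⟨0,[(37,0)]⟩⟩,⟨false,1,⟨0,[(13,0),(12,0)]⟩,⟨0,[(24,0)]⟩⟩,⟨false,1,⟨0,[(9,0),(29,0)]⟩,⟨0,
  [(8,0)]⟩⟩,⟨true,1,⟨1,[(26,1),(4,0),(5,1),(1,0)]⟩,⟨0,[(0,0),(5,1),(5,0),(3,0)]⟩⟩,⟨false,0,⟨0,[]⟩,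
  ⟨0,[]⟩⟩,⟨false,0,⟨0,[]⟩,⟨0,[]⟩⟩,[.a ⟨true,0,⟨0,[(37,0)]⟩,⟨0,[(7,0)]⟩⟩ ⟨true,0,⟨0,[]⟩,⟨1,[(10,0),
  (26,0)]⟩⟩ ⟨false,1,⟨3,[(13,1),(0,1),(11,3),(4,0),(7,0)]⟩,⟨1,[(2,0),(21,1)]⟩⟩,.o ⟨false,1,⟨1,[(31,
  0),(5,1),(1,0)]⟩,⟨0,[(36,0)]⟩⟩,.o ⟨false,0,⟨0,[(0,0),(30,0)]⟩,⟨0,[(13,0),(12,0)]⟩⟩,.o ⟨false,0,⟨0,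
  [(27,0)]⟩,⟨3,[(13,1),(0,1),(1,3),(14,0),(7,0)]⟩⟩]⟩)) (.Q [0,0,1,0,0,0,0,0,0,-1] (.pp true [-1,1])
  (.R ⟨0,false,false,true,[1,0,-1],[2,-1,-1],[1,1,1],(⟨0,[(29,0)]⟩,⟨0,[(30,0)]⟩),(⟨0,[(29,0),(2,
  0)]⟩,⟨0,[(18,0)]⟩),⟨0,[(18,0)]⟩,.k,.k,.k,.k,.k,.k,⟨false,0,⟨1,[(2,0),(5,1)]⟩,⟨7,[(1,3),(12,1),(2,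
  1),(6,1),(1,5),(11,2),(0,4)]⟩⟩,⟨true,0,⟨0,[(0,0)]⟩,⟨0,[(29,0),(0,0)]⟩⟩,⟨false,0,⟨7,[(4,1),(3,2),
  (3,1),(1,0),(0,1),(12,3)]⟩,⟨1,[(1,0),(14,0),(7,0),(14,1)]⟩⟩,⟨true,0,⟨9,[(0,0),(0,5),(10,2),(1,1),
  (0,3),(12,2)]⟩,⟨0,[(7,0)]⟩⟩,⟨false,0,⟨0,[]⟩,⟨0,[]⟩⟩,⟨false,0,⟨0,[]⟩,⟨0,[]⟩⟩,[.e ⟨false,0,⟨0,[(41,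
  0)]⟩,⟨1,[(38,0),(0,0)]⟩⟩ ⟨false,0,⟨0,[(1,0)]⟩,⟨0,[(7,0),(7,0),(23,0)]⟩⟩,.o ⟨false,1,⟨1,[(1,1),(26,
  1),(2,0),(7,0)]⟩,⟨0,[(11,0)]⟩⟩,.o ⟨false,1,⟨0,[(13,0),(12,0)]⟩,⟨0,[(1,0),(2,0)]⟩⟩,.a ⟨true,0,⟨0,
  [(28,0)]⟩,⟨0,[(24,0)]⟩⟩ ⟨false,0,⟨0,[]⟩,⟨1,[(20,0),(0,0),(17,0)]⟩⟩ ⟨true,0,⟨0,[(1,0)]⟩,⟨0,[(11,0),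
  (16,0)]⟩⟩]⟩) (.Q [0,0,-2,-1,0,0,1,1,0,0,-1] (.p false [0,0,1] [] (⟨0,[(30,0)]⟩,⟨0,[(29,0)]⟩) .k 0
  (⟨0,[]⟩,⟨0,[]⟩) .k .k) (.R ⟨0,false,false,false,[1,-1],[1,-1,1],[0,1,1],(⟨0,[(33,0)]⟩,⟨0,[(34,
  0)]⟩),(⟨0,[(31,0),(1,0)]⟩,⟨0,[(20,0)]⟩),⟨0,[(19,0),(0,0)]⟩,.k,.k,(.r (-1) ⟨0,[(38,1),(0,0)]⟩ ⟨0,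
  [(3,0)]⟩),.k,.k,.k,⟨false,0,⟨1,[(3,0),(6,1)]⟩,⟨7,[(7,1),(7,3),(0,1),(22,2),(0,4)]⟩⟩,⟨true,0,⟨0,
  [(2,0),(2,0)]⟩,⟨0,[(29,0)]⟩⟩,⟨false,0,⟨0,[(6,0)]⟩,⟨2,[(1,0),(0,0),(12,0),(23,0),(0,1)]⟩⟩,⟨true,0,
  ⟨3,[(0,0),(4,0),(1,0),(5,0),(12,0)]⟩,⟨0,[(27,0)]⟩⟩,⟨false,0,⟨0,[]⟩,⟨0,[]⟩⟩,⟨false,0,⟨0,[]⟩,⟨0,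
  []⟩⟩,[.e ⟨false,0,⟨0,[(42,0)]⟩,⟨1,[(39,0),(0,0)]⟩⟩ ⟨false,0,⟨0,[(0,0)]⟩,⟨1,[(3,0),(17,0),(0,0),(4,
  1),(12,0)]⟩⟩,.o ⟨false,1,⟨5,[(13,1),(0,3),(0,1),(2,1),(13,0),(5,1),(1,0)]⟩,⟨0,[(17,0)]⟩⟩,.a ⟨true,
  0,⟨1,[(11,0),(26,0)]⟩,⟨0,[(1,0)]⟩⟩ ⟨false,0,⟨1,[(11,0),(26,0)]⟩,⟨1,[(39,0),(0,0)]⟩⟩ ⟨true,0,⟨24,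
  [(0,9),(4,2),(7,4),(1,8),(2,1),(7,2)]⟩,⟨1,[(3,0),(23,1)]⟩⟩,.e ⟨true,0,⟨0,[(42,0)]⟩,⟨0,[]⟩⟩ ⟨true,
  0,⟨0,[(0,0)]⟩,⟨0,[(11,0),(15,0)]⟩⟩]⟩) (.Q [0,0,1,-1,0,0,-1,0,0,-1,1] (.p true [0,0,1] [1] (⟨0,
  [(31,0)]⟩,⟨0,[(30,0)]⟩) .k 1 (⟨0,[]⟩,⟨0,[]⟩) .k .k) (.K ⟨0,[-1,1,1],0,0,(⟨0,[(20,0)]⟩,⟨0,[(31,0),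
  (2,0)]⟩),.k,.k,(.r 0 ⟨0,[(4,0),(5,0)]⟩ ⟨3,[(3,1),(12,1),(2,1),(8,3),(10,1),(0,0),(0,2)]⟩),.k,.k,
  [⟨0,[(2,0)]⟩,⟨1,[(0,1),(3,0)]⟩,⟨1,[(0,0),(2,0),(24,0)]⟩,⟨5,[(1,0),(11,4),(3,1),(1,0),(16,1)]⟩]⟩)
  (.Q [0,0,2,0,0,0,-1,0,0,-1,1] (.p true [0,0,1] [1] (⟨0,[(32,0)]⟩,⟨0,[(31,0)]⟩) .k 1 (⟨0,[]⟩,⟨0,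
  []⟩) .k .k) (.K ⟨0,[-1,1,1],0,0,(⟨0,[(21,0)]⟩,⟨0,[(32,0),(2,0)]⟩),.k,.k,(.r 0 ⟨7,[(0,1),(4,6),(1,
  1),(1,3),(8,1)]⟩ ⟨3,[(4,1),(12,1),(2,1),(8,3),(10,1),(0,0),(0,2)]⟩),.k,.k,[⟨0,[(3,0)]⟩,⟨0,[(0,
  0)]⟩,⟨2,[(0,0),(1,0),(1,1),(12,0),(11,0)]⟩,⟨5,[(2,0),(11,4),(3,1),(1,0),(16,1)]⟩]⟩) (.R ⟨0,false,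
  false,false,[0,1,-1],[0,1],[1,1],(⟨0,[(22,0)]⟩,⟨0,[(33,0),(1,0)]⟩),(⟨0,[(36,0)]⟩,⟨0,[(35,0)]⟩),⟨0,
  [(33,0)]⟩,.k,.k,.k,.k,.k,.k,⟨false,0,⟨3,[(0,0),(3,0),(12,1),(1,0),(17,0)]⟩,⟨1,[(5,0),(17,0),(0,0),
  (17,0)]⟩⟩,⟨true,0,⟨1,[(0,0),(14,0)]⟩,⟨0,[(31,0)]⟩⟩,⟨false,0,⟨1,[(11,0),(5,0)]⟩,⟨5,[(2,3),(3,1),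
  (13,1),(13,0),(6,0),(0,3)]⟩⟩,⟨true,0,⟨14,[(7,1),(1,9),(5,4),(1,0),(2,2),(7,1)]⟩,⟨0,[(29,0)]⟩⟩,
  ⟨false,0,⟨0,[]⟩,⟨0,[]⟩⟩,⟨false,0,⟨0,[]⟩,⟨0,[]⟩⟩,[.a ⟨true,0,⟨0,[(10,0)]⟩,⟨0,[(40,0)]⟩⟩ ⟨false,0,
  ⟨15,[(0,0),(3,0),(12,1),(1,0),(17,4),(0,3)]⟩,⟨1,[(23,0),(0,0),(17,0)]⟩⟩ ⟨true,0,⟨3,[(1,1),(3,0),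
  (9,1)]⟩,⟨0,[(2,0),(14,0)]⟩⟩,.o ⟨false,1,⟨1,[(5,0),(35,0),(0,0)]⟩,⟨10,[(4,6),(4,0),(5,3),(1,1),(0,
  3),(12,3)]⟩⟩,.a ⟨true,0,⟨0,[(0,0),(1,1),(6,0),(7,0)]⟩,⟨0,[(30,0)]⟩⟩ ⟨false,0,⟨0,[]⟩,⟨1,[(23,0),(0,
  0),(17,0)]⟩⟩ ⟨true,0,⟨3,[(1,1),(3,0),(9,1)]⟩,⟨4,[(17,2),(0,0),(0,0),(9,2),(1,0)]⟩⟩,.a ⟨true,0,⟨0,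
  [(3,0),(27,0)]⟩,⟨1,[(0,0),(14,0)]⟩⟩ ⟨true,0,⟨15,[(0,0),(3,0),(12,1),(1,0),(17,4),(0,3)]⟩,⟨1,[(13,
  0),(26,0)]⟩⟩ ⟨false,1,⟨5,[(1,1),(3,1),(14,1),(13,1),(6,0),(0,2)]⟩,⟨0,[(2,0),(14,0)]⟩⟩]⟩)))))) (.I
  [1,0,1,1] (.N [0,1] 0 ⟨0,[(0,0)]⟩ ⟨1,[(1,0)]⟩ .k) (.Q [0,0,0,0,1,0,-1,0,0,-2,1] (.p true [-1,1,1]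
  [1] (⟨0,[(17,0)]⟩,⟨0,[(28,0),(2,0)]⟩) .k 1 (⟨0,[]⟩,⟨0,[]⟩) .k .k) (.R ⟨0,false,false,true,[-1,1,
  1],[0,1],[0,1,2,1],(⟨0,[(18,0)]⟩,⟨0,[(29,0),(2,0)]⟩),(⟨0,[(33,0)]⟩,⟨0,[(32,0)]⟩),⟨0,[(29,0)]⟩,.k,
  .k,.k,.k,.k,.k,⟨true,0,⟨1,[(10,0),(26,0)]⟩,⟨0,[]⟩⟩,⟨false,1,⟨5,[(0,2),(5,0),(7,0),(1,1),(11,0),(9,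
  1),(0,0)]⟩,⟨1,[(17,0),(11,0),(0,0)]⟩⟩,⟨true,0,⟨0,[(26,0),(0,0)]⟩,⟨0,[(6,0)]⟩⟩,⟨false,1,⟨1,[(26,1),
  (4,0),(7,0)]⟩,⟨1,[(2,0),(1,1)]⟩⟩,⟨false,0,⟨0,[]⟩,⟨0,[]⟩⟩,⟨false,0,⟨0,[]⟩,⟨0,[]⟩⟩,[.o ⟨false,0,⟨0,
  [(36,0)]⟩,⟨1,[(31,0),(5,1),(1,0)]⟩⟩,.a ⟨true,0,⟨0,[(7,0)]⟩,⟨0,[(37,0)]⟩⟩ ⟨true,0,⟨0,[(5,0)]⟩,⟨1,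
  [(2,0)]⟩⟩ ⟨false,1,⟨0,[(13,0),(2,0)]⟩,⟨0,[(24,0),(12,0)]⟩⟩,.o ⟨false,0,⟨0,[(24,0)]⟩,⟨6,[(0,5),(11,
  1),(7,0),(0,0),(6,2)]⟩⟩,.o ⟨false,0,⟨1,[(17,0),(11,0),(0,0)]⟩,⟨0,[(0,0)]⟩⟩]⟩) (.R ⟨0,false,false,
  true,[-1,1,1],[0,1],[1,1,1,1],(⟨0,[(18,0)]⟩,⟨0,[(29,0),(2,0)]⟩),(⟨0,[(33,0)]⟩,⟨0,[(32,0)]⟩),⟨0,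
  [(29,0)]⟩,.k,.k,.k,.k,.k,.k,⟨true,0,⟨0,[]⟩,⟨1,[(10,0),(26,0)]⟩⟩,⟨false,1,⟨3,[(13,1),(0,1),(1,3),
  (14,0),(7,0)]⟩,⟨2,[(0,0),(16,0),(2,0),(0,0)]⟩⟩,⟨true,0,⟨0,[(9,0)]⟩,⟨0,[(8,0)]⟩⟩,⟨false,1,⟨1,[(26,
  1),(4,0),(7,0)]⟩,⟨1,[(2,0),(1,1)]⟩⟩,⟨false,0,⟨0,[]⟩,⟨0,[]⟩⟩,⟨false,0,⟨0,[]⟩,⟨0,[]⟩⟩,[.o ⟨false,0,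
  ⟨0,[(36,0)]⟩,⟨1,[(31,0),(5,1),(1,0)]⟩⟩,.e ⟨false,1,⟨0,[(10,0),(27,0)]⟩,⟨0,[(1,0)]⟩⟩ ⟨false,1,⟨0,
  [(13,0),(2,0)]⟩,⟨5,[(0,1),(1,2),(14,1),(2,1),(0,1)]⟩⟩,.o ⟨false,0,⟨0,[(24,0)]⟩,⟨0,[(28,0),(2,
  0)]⟩⟩,.a ⟨true,(-1),⟨0,[(0,0)]⟩,⟨0,[(13,0),(12,0)]⟩⟩ ⟨true,0,⟨0,[(36,0)]⟩,⟨0,[(37,0)]⟩⟩ ⟨false,1,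
  ⟨0,[(13,0),(2,0)]⟩,⟨5,[(0,2),(1,0),(9,0),(4,0),(19,3),(1,2)]⟩⟩]⟩))))) (.Q [0,0,0,0,0,0,-1,0,0,0,
  1] (.p true [0,0,1] [] (⟨0,[(26,0)]⟩,⟨0,[(25,0)]⟩) .k 0 (⟨0,[]⟩,⟨0,[]⟩) .k .k) (.R ⟨0,false,false,
  true,[0,0,1],[-1,1,1],[1,0,0,0,0,0,0,1],(⟨0,[(27,0)]⟩,⟨0,[(26,0)]⟩),(⟨0,[(15,0)]⟩,⟨0,[(26,0),(2,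
  0)]⟩),⟨0,[(16,0)]⟩,.k,.k,.k,.k,.k,.k,⟨false,1,⟨2,[(1,0),(9,0),(9,0),(13,0),(0,1)]⟩,⟨2,[(7,1),(23,
  0),(1,0)]⟩⟩,⟨true,0,⟨0,[(0,0),(20,0)]⟩,⟨0,[(0,0),(8,0)]⟩⟩,⟨true,0,⟨0,[]⟩,⟨0,[(38,0)]⟩⟩,⟨false,0,
  ⟨0,[(4,0)]⟩,⟨1,[(28,0),(5,1),(1,0)]⟩⟩,⟨false,0,⟨0,[]⟩,⟨0,[]⟩⟩,⟨false,0,⟨0,[]⟩,⟨0,[]⟩⟩,[.e ⟨false,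
  0,⟨0,[(3,0)]⟩,⟨1,[(6,1),(10,0),(0,0),(17,0)]⟩⟩ ⟨false,0,⟨2,[(3,1),(0,2),(7,0),(18,0)]⟩,⟨4,[(1,3),
  (4,0),(2,1),(4,0),(19,0),(1,4)]⟩⟩,.o ⟨false,0,⟨0,[(8,0)]⟩,⟨3,[(1,2),(7,0),(13,0),(1,0),(2,1),(5,
  0),(1,1)]⟩⟩,.a ⟨true,0,⟨1,[(14,0),(11,0),(0,0)]⟩,⟨0,[(0,0)]⟩⟩ ⟨true,0,⟨0,[(5,0)]⟩,⟨0,[(6,0)]⟩⟩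
  ⟨false,0,⟨1,[(3,0),(0,0),(3,0),(16,0)]⟩,⟨4,[(1,3),(4,0),(2,1),(4,0),(19,0),(1,4)]⟩⟩,.o ⟨false,0,
  ⟨0,[(24,0)]⟩,⟨2,[(0,0),(0,0),(8,1),(2,0),(21,0)]⟩⟩]⟩) (.I [0,0,-2,-2] (.R ⟨0,false,false,false,[1,
  -1],[1,-1,1],[0,1,1],(⟨0,[(30,0)]⟩,⟨0,[(31,0)]⟩),(⟨0,[(28,0),(1,0)]⟩,⟨0,[(17,0)]⟩),⟨0,[(16,0),(0,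
  0)]⟩,.k,.k,(.r 0 ⟨0,[(0,0)]⟩ ⟨0,[(8,1),(27,0)]⟩),.k,.k,.k,⟨false,0,⟨3,[(7,0),(0,0),(1,0),(3,2),(0,
  0)]⟩,⟨7,[(4,1),(7,3),(0,1),(22,2),(0,4)]⟩⟩,⟨true,0,⟨0,[(1,0)]⟩,⟨0,[(26,0)]⟩⟩,⟨false,0,⟨0,[(3,0)]⟩,
  ⟨1,[(0,0),(35,0),(0,0)]⟩⟩,⟨true,0,⟨6,[(4,3),(4,1),(0,2),(1,0),(2,0)]⟩,⟨0,[(24,0)]⟩⟩,⟨false,0,⟨0,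
  []⟩,⟨0,[]⟩⟩,⟨false,0,⟨0,[]⟩,⟨0,[]⟩⟩,[.o ⟨false,0,⟨1,[(0,0),(3,1),(5,1)]⟩,⟨1,[(14,1),(3,0),(0,0),
  (17,0)]⟩⟩,.o ⟨false,1,⟨5,[(10,1),(0,3),(0,1),(2,1),(13,0),(5,1),(1,0)]⟩,⟨0,[(14,0)]⟩⟩,.a ⟨true,0,
  ⟨1,[(8,0),(26,0)]⟩,⟨1,[(0,0),(4,1)]⟩⟩ ⟨false,0,⟨1,[(8,0),(26,0)]⟩,⟨1,[(36,0),(0,0)]⟩⟩ ⟨true,0,⟨3,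
  [(1,0),(2,1),(5,0),(1,1),(2,0)]⟩,⟨1,[(8,0),(5,0),(9,0)]⟩⟩,.e ⟨true,0,⟨0,[(39,0)]⟩,⟨0,[]⟩⟩ ⟨true,0,
  ⟨1,[(0,0),(0,1),(2,1)]⟩,⟨0,[(8,0),(15,0)]⟩⟩]⟩) (.Q [0,0,1,-1,0,0,-1,0,0,-1,1] (.p true [0,0,1]
  [1] (⟨0,[(28,0)]⟩,⟨0,[(27,0)]⟩) .k 1 (⟨0,[]⟩,⟨0,[]⟩) .k .k) (.R ⟨0,false,false,true,[1,0,-1],[0,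
  1],[1,0,1],(⟨0,[(28,0)]⟩,⟨0,[(29,0)]⟩),(⟨0,[(32,0)]⟩,⟨0,[(31,0)]⟩),⟨0,[(17,0)]⟩,.k,.k,.k,.k,.k,.k,
  ⟨false,1,⟨1,[(36,1),(0,0),(0,0)]⟩,⟨0,[(35,0)]⟩⟩,⟨true,0,⟨0,[(23,0)]⟩,⟨1,[(0,1),(0,0)]⟩⟩,⟨true,0,
  ⟨0,[(0,0),(9,0)]⟩,⟨1,[(2,0),(0,0),(11,0),(7,0)]⟩⟩,⟨false,0,⟨0,[(10,0)]⟩,⟨1,[(0,0),(2,0),(4,0),(29,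
  1)]⟩⟩,⟨false,0,⟨0,[]⟩,⟨0,[]⟩⟩,⟨false,0,⟨0,[]⟩,⟨0,[]⟩⟩,[.o ⟨false,0,⟨0,[(35,0)]⟩,⟨1,[(30,0),(5,1),
  (1,0)]⟩⟩,.a ⟨true,0,⟨0,[(6,0)]⟩,⟨0,[(36,0)]⟩⟩ ⟨false,1,⟨1,[(19,0),(0,0),(17,0)]⟩,⟨9,[(3,0),(9,0),
  (9,0),(9,2),(0,2)]⟩⟩ ⟨true,0,⟨1,[(1,0),(21,1)]⟩,⟨0,[(0,0)]⟩⟩,.o ⟨false,1,⟨0,[(12,0),(12,0)]⟩,⟨0,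
  [(2,0)]⟩⟩,.e ⟨true,0,⟨0,[]⟩,⟨0,[(40,0)]⟩⟩ ⟨true,0,⟨6,[(10,1),(4,1),(0,1),(6,2),(9,0),(0,2)]⟩,⟨0,
  [(0,0)]⟩⟩]⟩) (.I [0,0,2,2] (.Q [0,0,2,0,0,0,-1,0,0,-1,1] (.p true [0,0,1] [1] (⟨0,[(30,0)]⟩,⟨0,
  [(29,0)]⟩) .k 1 (⟨0,[]⟩,⟨0,[]⟩) .k .k) (.R ⟨0,false,false,true,[1,0,-1],[0,1],[1,0,1],(⟨0,[(30,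
  0)]⟩,⟨0,[(31,0)]⟩),(⟨0,[(34,0)]⟩,⟨0,[(33,0)]⟩),⟨0,[(19,0)]⟩,.k,.k,.k,.k,.k,.k,⟨false,1,⟨1,[(38,1),
  (0,0),(0,0)]⟩,⟨0,[(37,0)]⟩⟩,⟨true,0,⟨0,[(25,0)]⟩,⟨0,[(0,0)]⟩⟩,⟨true,0,⟨3,[(0,2),(11,2),(2,0),(22,
  0)]⟩,⟨1,[(2,0),(2,0),(4,0)]⟩⟩,⟨false,0,⟨0,[(12,0)]⟩,⟨5,[(0,0),(4,3),(7,0),(13,1),(10,1),(1,5)]⟩⟩,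
  ⟨false,0,⟨0,[]⟩,⟨0,[]⟩⟩,⟨false,0,⟨0,[]⟩,⟨0,[]⟩⟩,[.o ⟨false,0,⟨0,[(37,0)]⟩,⟨1,[(32,0),(5,1),(1,
  0)]⟩⟩,.e ⟨false,1,⟨1,[(21,0),(0,0),(17,0)]⟩,⟨8,[(2,0),(2,0),(9,0),(19,2),(0,1)]⟩⟩ ⟨false,0,⟨0,[(2,
  0)]⟩,⟨3,[(0,1),(14,1),(5,1),(0,1),(4,1),(4,0),(7,0)]⟩⟩,.o ⟨false,1,⟨0,[(14,0),(12,0)]⟩,⟨0,[(4,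
  0)]⟩⟩,.a ⟨true,0,⟨0,[(29,0)]⟩,⟨0,[(25,0)]⟩⟩ ⟨true,0,⟨0,[]⟩,⟨0,[(42,0)]⟩⟩ ⟨false,0,⟨0,[(2,0)]⟩,⟨7,
  [(0,5),(14,1),(5,1),(0,1),(4,1),(4,0),(5,3),(1,4)]⟩⟩]⟩) (.Q [0,0,0,1,0,0,1,0,0,0,-1] (.p false [0,
  0,1] [] (⟨0,[(31,0)]⟩,⟨0,[(30,0)]⟩) .k 0 (⟨0,[]⟩,⟨0,[]⟩) .k .k) (.R ⟨0,false,false,false,[1,-1],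
  [1,-1,1],[0,1,1],(⟨0,[(34,0)]⟩,⟨0,[(35,0)]⟩),(⟨0,[(32,0),(1,0)]⟩,⟨0,[(21,0)]⟩),⟨0,[(20,0),(0,0)]⟩,
  .k,.k,(.r (-1) ⟨0,[(39,1),(0,0)]⟩ ⟨0,[(2,0)]⟩),.k,.k,.k,⟨false,0,⟨1,[(4,0),(6,1)]⟩,⟨7,[(8,1),(7,
  3),(0,1),(22,2),(0,4)]⟩⟩,⟨true,0,⟨0,[(5,0)]⟩,⟨0,[(30,0)]⟩⟩,⟨false,0,⟨0,[(7,0)]⟩,⟨21,[(1,3),(4,5),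
  (9,7),(2,1),(8,1),(11,6),(0,14)]⟩⟩,⟨true,0,⟨6,[(8,3),(4,1),(0,2),(1,0),(2,0)]⟩,⟨0,[(28,0)]⟩⟩,
  ⟨false,0,⟨0,[]⟩,⟨0,[]⟩⟩,⟨false,0,⟨0,[]⟩,⟨0,[]⟩⟩,[.e ⟨false,0,⟨0,[(43,0)]⟩,⟨1,[(40,0),(0,0)]⟩⟩
  ⟨false,0,⟨0,[(0,0),(15,0)]⟩,⟨1,[(4,0),(17,0),(0,0),(4,1),(12,0)]⟩⟩,.o ⟨false,1,⟨5,[(14,1),(0,3),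
  (0,1),(2,1),(13,0),(5,1),(1,0)]⟩,⟨0,[(18,0)]⟩⟩,.a ⟨true,0,⟨1,[(12,0),(26,0)]⟩,⟨0,[(1,0),(28,0)]⟩⟩
  ⟨false,0,⟨1,[(12,0),(26,0)]⟩,⟨1,[(40,0),(0,0)]⟩⟩ ⟨true,0,⟨6,[(0,0),(7,2),(5,1),(1,3),(2,1)]⟩,⟨1,
  [(4,0),(23,1)]⟩⟩,.e ⟨true,0,⟨0,[(43,0)]⟩,⟨0,[]⟩⟩ ⟨true,0,⟨0,[(0,0),(15,0)]⟩,⟨0,[(12,0),(15,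
  0)]⟩⟩]⟩) (.Q [0,0,0,1,0,0,-1,-1,0,1,1] (.p true [1,-1,1] [] (⟨0,[(32,0),(1,0)]⟩,⟨0,[(21,0)]⟩) .k
  0 (⟨0,[]⟩,⟨0,[]⟩) .k .k) (.R ⟨0,false,false,false,[0,1,-1],[0,1],[1,1],(⟨0,[(22,0)]⟩,⟨0,[(33,0),
  (1,0)]⟩),(⟨0,[(36,0)]⟩,⟨0,[(35,0)]⟩),⟨0,[(33,0)]⟩,.k,.k,.k,.k,.k,.k,⟨false,0,⟨2,[(2,0),(4,0),(9,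
  0),(19,0)]⟩,⟨1,[(5,0),(17,0),(0,0),(17,0)]⟩⟩,⟨true,0,⟨0,[(6,0)]⟩,⟨0,[(31,0)]⟩⟩,⟨false,0,⟨1,[(11,
  0),(5,0)]⟩,⟨1,[(5,0),(6,1),(29,1)]⟩⟩,⟨true,0,⟨6,[(9,3),(4,1),(0,2),(1,0),(2,0)]⟩,⟨0,[(29,0)]⟩⟩,
  ⟨false,0,⟨0,[]⟩,⟨0,[]⟩⟩,⟨false,0,⟨0,[]⟩,⟨0,[]⟩⟩,[.a ⟨true,0,⟨0,[(10,0)]⟩,⟨0,[(40,0)]⟩⟩ ⟨false,0,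
  ⟨11,[(2,0),(4,0),(9,0),(19,3),(0,2)]⟩,⟨1,[(23,0),(0,0),(17,0)]⟩⟩ ⟨true,0,⟨3,[(4,1),(0,0),(9,1)]⟩,
  ⟨0,[(1,0)]⟩⟩,.o ⟨false,1,⟨1,[(5,0),(35,0),(0,0)]⟩,⟨12,[(1,0),(5,5),(7,6),(1,2),(0,2),(18,1)]⟩⟩,.a
  ⟨true,0,⟨7,[(0,6),(8,1),(4,0),(2,3),(13,1)]⟩,⟨0,[(30,0)]⟩⟩ ⟨false,0,⟨0,[]⟩,⟨1,[(23,0),(0,0),(17,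
  0)]⟩⟩ ⟨true,0,⟨3,[(4,1),(0,0),(9,1)]⟩,⟨2,[(1,1),(15,0),(1,0),(17,0)]⟩⟩,.a ⟨true,0,⟨1,[(0,0),(0,1),
  (12,0)]⟩,⟨0,[(6,0)]⟩⟩ ⟨true,0,⟨11,[(2,0),(4,0),(9,0),(19,3),(0,2)]⟩,⟨1,[(13,0),(26,0)]⟩⟩ ⟨false,1,
  ⟨5,[(4,1),(0,1),(14,1),(13,1),(6,0),(0,2)]⟩,⟨0,[(1,0)]⟩⟩]⟩) (.Q [0,0,-2,-1,0,0,1,1,0,0,-1] (.p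
  false [0,0,1] [] (⟨0,[(33,0)]⟩,⟨0,[(32,0)]⟩) .k 0 (⟨0,[]⟩,⟨0,[]⟩) .k .k) (.R ⟨0,false,false,false,
  [1,-1],[1,-1,1],[0,1,1],(⟨0,[(36,0)]⟩,⟨0,[(37,0)]⟩),(⟨0,[(34,0),(1,0)]⟩,⟨0,[(23,0)]⟩),⟨0,[(22,0),
  (0,0)]⟩,.k,.k,(.r (-1) ⟨0,[(41,1),(0,0)]⟩ ⟨0,[(4,0)]⟩),.k,.k,.k,⟨false,0,⟨1,[(6,0),(6,1)]⟩,⟨7,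
  [(10,1),(7,3),(0,1),(22,2),(0,4)]⟩⟩,⟨true,0,⟨0,[(7,0)]⟩,⟨0,[(32,0)]⟩⟩,⟨false,0,⟨0,[(9,0)]⟩,⟨21,
  [(3,3),(4,5),(9,7),(2,1),(8,1),(11,6),(0,14)]⟩⟩,⟨true,0,⟨1,[(1,0),(13,0)]⟩,⟨0,[(30,0)]⟩⟩,⟨false,0,
  ⟨0,[]⟩,⟨0,[]⟩⟩,⟨false,0,⟨0,[]⟩,⟨0,[]⟩⟩,[.o ⟨false,0,⟨0,[(1,0)]⟩,⟨1,[(20,1),(3,0),(0,0),(17,0)]⟩⟩,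
  .o ⟨false,1,⟨5,[(16,1),(0,3),(0,1),(2,1),(13,0),(5,1),(1,0)]⟩,⟨0,[(20,0)]⟩⟩,.a ⟨true,0,⟨1,[(14,0),
  (26,0)]⟩,⟨1,[(2,0),(0,0),(7,0)]⟩⟩ ⟨false,0,⟨1,[(14,0),(26,0)]⟩,⟨1,[(42,0),(0,0)]⟩⟩ ⟨true,0,⟨5,[(0,
  0),(0,1),(13,0),(2,1),(2,0)]⟩,⟨1,[(6,0),(23,1)]⟩⟩,.e ⟨true,0,⟨0,[(45,0)]⟩,⟨0,[]⟩⟩ ⟨true,0,⟨0,[(0,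
  0)]⟩,⟨0,[(14,0),(15,0)]⟩⟩]⟩) (.R ⟨0,false,false,false,[1,-1],[1,-1,1],[0,1,1],(⟨0,[(36,0)]⟩,⟨0,
  [(37,0)]⟩),(⟨0,[(34,0),(1,0)]⟩,⟨0,[(23,0)]⟩),⟨0,[(22,0),(0,0)]⟩,.k,.k,(.r (-1) ⟨0,[(41,1),(0,0)]⟩
  ⟨0,[(4,0)]⟩),.k,.k,.k,⟨false,0,⟨1,[(6,0),(6,1)]⟩,⟨7,[(10,1),(7,3),(0,1),(22,2),(0,4)]⟩⟩,⟨true,0,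
  ⟨0,[(7,0)]⟩,⟨0,[(32,0)]⟩⟩,⟨false,0,⟨0,[(9,0)]⟩,⟨21,[(3,3),(4,5),(9,7),(2,1),(8,1),(11,6),(0,
  14)]⟩⟩,⟨true,0,⟨1,[(1,0),(13,0)]⟩,⟨0,[(30,0)]⟩⟩,⟨false,0,⟨0,[]⟩,⟨0,[]⟩⟩,⟨false,0,⟨0,[]⟩,⟨0,[]⟩⟩,
  [.o ⟨false,0,⟨0,[(1,0)]⟩,⟨0,[(0,0),(41,0)]⟩⟩,.o ⟨false,1,⟨5,[(16,1),(0,3),(0,1),(2,1),(13,0),(5,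
  1),(1,0)]⟩,⟨0,[(20,0)]⟩⟩,.a ⟨true,0,⟨1,[(14,0),(26,0)]⟩,⟨1,[(2,0),(0,0),(7,0)]⟩⟩ ⟨false,0,⟨1,[(14,
  0),(26,0)]⟩,⟨1,[(42,0),(0,0)]⟩⟩ ⟨true,0,⟨15,[(1,6),(1,1),(11,2),(2,5),(2,1)]⟩,⟨2,[(0,1),(19,0),
  (17,0)]⟩⟩,.o ⟨false,0,⟨0,[(0,0),(0,0)]⟩,⟨0,[(42,0)]⟩⟩]⟩))))) (.N [0,1] 0 ⟨1,[(2,0)]⟩ ⟨1,[(0,0)]⟩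
  .k)))))) (.R ⟨0,false,false,false,[0,1,-1],[0,1],[1,1],(⟨0,[(14,0)]⟩,⟨0,[(25,0),(1,0)]⟩),(⟨0,[(28,
  0)]⟩,⟨0,[(27,0)]⟩),⟨0,[(25,0)]⟩,.k,.k,.k,.k,.k,.k,⟨false,0,⟨4,[(0,2),(3,0),(4,0),(19,1)]⟩,⟨1,[(5,
  1),(27,0),(0,0)]⟩⟩,⟨true,0,⟨0,[(0,0),(1,0),(4,0)]⟩,⟨0,[(23,0)]⟩⟩,⟨false,0,⟨1,[(3,0),(5,0)]⟩,⟨3,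
  [(4,0),(0,0),(1,0),(3,2),(0,0),(21,3)]⟩⟩,⟨true,0,⟨6,[(1,3),(4,1),(0,2),(1,0),(2,0)]⟩,⟨0,[(21,
  0)]⟩⟩,⟨false,0,⟨0,[]⟩,⟨0,[]⟩⟩,⟨false,0,⟨0,[]⟩,⟨0,[]⟩⟩,[.e ⟨false,0,⟨4,[(0,0),(28,1),(0,0)]⟩,⟨1,
  [(15,0),(0,0),(17,0)]⟩⟩ ⟨false,1,⟨7,[(5,3),(0,1),(4,1),(0,3),(13,2),(6,3),(0,0)]⟩,⟨0,[(0,0),(22,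
  0)]⟩⟩,.o ⟨false,1,⟨3,[(6,1),(4,1),(14,0),(7,2)]⟩,⟨0,[(7,0),(1,0),(1,0)]⟩⟩,.e ⟨false,0,⟨0,[]⟩,⟨1,
  [(15,0),(0,0),(17,0)]⟩⟩ ⟨false,1,⟨7,[(5,3),(0,1),(4,1),(0,3),(13,2),(7,4)]⟩,⟨0,[(0,0),(22,0)]⟩⟩,
  .a ⟨true,0,⟨1,[(0,0),(1,0),(20,1),(0,0),(0,0)]⟩,⟨0,[(0,0),(1,0),(4,0)]⟩⟩ ⟨true,0,⟨4,[(0,0),(28,1),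
  (0,0)]⟩,⟨1,[(5,0),(26,0)]⟩⟩ ⟨false,1,⟨9,[(5,1),(1,1),(4,3),(13,0),(3,7),(3,8)]⟩,⟨1,[(0,0),(22,1),
  (8,0)]⟩⟩]⟩)) (.Q [0,0,-1,-1,0,0,-1,0,0,0,1] (.p true [0,0,1] [] (⟨0,[(24,0)]⟩,⟨0,[(23,0)]⟩) .k 0
  (⟨0,[]⟩,⟨0,[]⟩) .k .k) (.Q [0,0,0,0,0,0,1,0,0,0,-1] (.p false [0,0,1] [] (⟨0,[(25,0)]⟩,⟨0,[(24,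
  0)]⟩) .k 0 (⟨0,[]⟩,⟨0,[]⟩) .k .k) (.R ⟨0,false,false,false,[0,1,-1],[0,1],[0,1,1,0,0,0,0,-1],(⟨0,
  [(15,0)]⟩,⟨0,[(26,0),(1,0)]⟩),(⟨0,[(29,0)]⟩,⟨0,[(28,0)]⟩),⟨0,[(26,0)]⟩,.k,.k,.k,.k,.k,.k,⟨false,0,
  ⟨0,[(0,0),(0,0),(3,0)]⟩,⟨0,[(3,0),(5,0)]⟩⟩,⟨true,0,⟨0,[(0,0)]⟩,⟨0,[(24,0)]⟩⟩,⟨false,0,⟨0,[(33,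
  0)]⟩,⟨3,[(7,1),(4,1),(14,0),(7,2)]⟩⟩,⟨true,0,⟨0,[(0,0),(3,0)]⟩,⟨0,[(22,0)]⟩⟩,⟨false,0,⟨0,[]⟩,⟨0,
  []⟩⟩,⟨false,0,⟨0,[]⟩,⟨0,[]⟩⟩,[.e ⟨false,0,⟨0,[(5,0)]⟩,⟨3,[(1,1),(5,1),(1,1),(24,0),(0,0)]⟩⟩
  ⟨false,1,⟨7,[(6,3),(0,1),(4,1),(0,3),(13,2),(6,3),(0,0)]⟩,⟨0,[(1,0)]⟩⟩,.o ⟨false,1,⟨3,[(7,1),(4,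
  1),(14,0),(7,2)]⟩,⟨0,[(8,0),(1,0),(1,0)]⟩⟩,.e ⟨false,0,⟨0,[(2,0)]⟩,⟨3,[(1,1),(5,1),(1,1),(24,0),
  (0,0)]⟩⟩ ⟨false,1,⟨7,[(6,3),(0,1),(4,1),(0,3),(13,2),(7,4)]⟩,⟨0,[(1,0)]⟩⟩,.a ⟨true,0,⟨1,[(1,0),(1,
  0),(20,0),(0,0),(0,0)]⟩,⟨0,[(0,0)]⟩⟩ ⟨true,0,⟨0,[(5,0)]⟩,⟨0,[(4,0)]⟩⟩ ⟨false,1,⟨9,[(6,1),(1,1),(4,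
  3),(13,0),(3,7),(3,8)]⟩,⟨1,[(1,0),(22,0),(8,0)]⟩⟩]⟩) (.Q [0,1,0,0,0,0,-1,-1,0,-1,1] (.p true [0,0,
  1] [1] (⟨0,[(26,0)]⟩,⟨0,[(25,0)]⟩) .k 1 (⟨0,[]⟩,⟨0,[]⟩) .k .k) (.R ⟨0,false,false,false,[0,0,1],
  [-1,1,1],[1,1,1],(⟨0,[(27,0)]⟩,⟨0,[(26,0)]⟩),(⟨0,[(15,0)]⟩,⟨0,[(26,0),(2,0)]⟩),⟨0,[(16,0)]⟩,.k,.k,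
  .k,.k,.k,.k,⟨false,0,⟨1,[(0,0),(2,0),(2,0),(4,0),(9,0)]⟩,⟨0,[(4,0),(5,0)]⟩⟩,⟨true,0,⟨1,[(2,0),(1,
  0),(16,0)]⟩,⟨0,[(1,0),(7,0)]⟩⟩,⟨false,0,⟨0,[(3,0)]⟩,⟨9,[(1,3),(6,3),(1,3),(0,1),(23,2),(0,2)]⟩⟩,
  ⟨true,0,⟨0,[(4,0)]⟩,⟨11,[(0,4),(8,6),(1,5),(0,0),(10,1),(7,1)]⟩⟩,⟨false,0,⟨0,[]⟩,⟨0,[]⟩⟩,⟨false,0,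
  ⟨0,[]⟩,⟨0,[]⟩⟩,[.o ⟨false,0,⟨0,[(8,0)]⟩,⟨0,[(2,0),(0,0),(24,0)]⟩⟩,.e ⟨false,0,⟨0,[]⟩,⟨1,[(17,0),
  (0,0),(16,0)]⟩⟩ ⟨false,1,⟨1,[(1,1),(6,1),(26,0),(0,0)]⟩,⟨1,[(0,1),(2,0),(5,0),(1,0),(9,0)]⟩⟩,.a
  ⟨true,0,⟨1,[(14,0),(11,0),(0,0)]⟩,⟨0,[(1,0)]⟩⟩ ⟨false,0,⟨1,[(7,0),(26,0)]⟩,⟨1,[(35,0),(0,0)]⟩⟩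
  ⟨true,0,⟨0,[(1,0),(6,0)]⟩,⟨1,[(0,1),(2,0),(5,0),(1,0),(9,0)]⟩⟩,.o ⟨false,0,⟨0,[(24,0)]⟩,⟨1,[(1,1),
  (26,0),(6,0)]⟩⟩]⟩) (.R ⟨0,false,false,true,[1,0,-1],[0,1],[1],(⟨0,[(26,0)]⟩,⟨0,[(27,0)]⟩),(⟨0,
  [(30,0)]⟩,⟨0,[(29,0)]⟩),⟨0,[(15,0)]⟩,.k,.k,.k,.k,.k,.k,⟨false,1,⟨1,[(2,1),(18,1),(6,0),(7,0)]⟩,⟨2,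
  [(7,1),(23,0),(1,0)]⟩⟩,⟨true,0,⟨0,[(21,0)]⟩,⟨0,[(1,1),(7,0)]⟩⟩,⟨true,0,⟨0,[(5,0)]⟩,⟨0,[(6,0)]⟩⟩,
  ⟨false,0,⟨0,[(8,0)]⟩,⟨1,[(2,1),(0,1),(24,0),(7,0)]⟩⟩,⟨false,0,⟨0,[]⟩,⟨0,[]⟩⟩,⟨false,0,⟨0,[]⟩,⟨0,
  []⟩⟩,[.o ⟨false,0,⟨0,[(33,0)]⟩,⟨1,[(28,0),(5,1),(1,0)]⟩⟩,.a ⟨true,0,⟨0,[(4,0)]⟩,⟨0,[(34,0)]⟩⟩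
  ⟨false,1,⟨1,[(35,0),(0,0)]⟩,⟨0,[(38,0)]⟩⟩ ⟨true,0,⟨0,[(0,0),(2,0),(28,0)]⟩,⟨0,[(1,0),(0,0),(6,
  0)]⟩⟩,.a ⟨true,0,⟨0,[(1,0)]⟩,⟨1,[(14,0),(11,0),(0,0)]⟩⟩ ⟨true,0,⟨0,[]⟩,⟨0,[(38,0)]⟩⟩ ⟨false,0,⟨0,
  [(0,0),(2,0),(28,0)]⟩,⟨1,[(2,0),(22,0),(2,0),(5,0),(1,0)]⟩⟩,.a ⟨true,0,⟨0,[(25,0)]⟩,⟨0,[(21,0)]⟩⟩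
  ⟨false,1,⟨1,[(35,0),(0,0)]⟩,⟨1,[(7,0),(26,0)]⟩⟩ ⟨true,0,⟨6,[(8,1),(4,1),(0,1),(6,2),(9,0),(0,2)]⟩,
  ⟨0,[(1,0),(0,0),(6,0)]⟩⟩]⟩))) (.Q [0,0,0,0,0,0,1,0,0,0,-1] (.p false [0,0,1] [] (⟨0,[(25,0)]⟩,⟨0,
  [(24,0)]⟩) .k 0 (⟨0,[]⟩,⟨0,[]⟩) .k .k) (.I [1,0,1,1] (.R ⟨0,false,false,true,[0,0,1],[0,1],[0,1,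
  1],(⟨0,[(27,0)]⟩,⟨0,[(26,0)]⟩),(⟨0,[(30,0)]⟩,⟨0,[(29,0)]⟩),⟨0,[(16,0)]⟩,.k,.k,.k,.k,.k,.k,⟨true,0,
  ⟨0,[(34,0)]⟩,⟨0,[(0,0)]⟩⟩,⟨false,1,⟨2,[(4,0),(5,0),(0,1),(1,2),(21,0),(0,0)]⟩,⟨0,[(24,0)]⟩⟩,
  ⟨false,0,⟨0,[(3,0)]⟩,⟨5,[(4,3),(5,3),(0,1),(23,0),(0,0)]⟩⟩,⟨true,0,⟨0,[(13,0)]⟩,⟨1,[(8,0),(0,0),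
  (1,0),(22,0)]⟩⟩,⟨false,0,⟨0,[]⟩,⟨0,[]⟩⟩,⟨false,0,⟨0,[]⟩,⟨0,[]⟩⟩,[.o ⟨false,0,⟨0,[(33,0)]⟩,⟨1,[(28,
  0),(5,1),(1,0)]⟩⟩,.a ⟨true,0,⟨0,[(4,0)]⟩,⟨0,[(34,0)]⟩⟩ ⟨true,0,⟨1,[(7,0),(26,0)]⟩,⟨0,[]⟩⟩ ⟨false,
  1,⟨5,[(4,3),(5,3),(0,1),(1,5),(21,0),(0,0)]⟩,⟨3,[(1,0),(1,1),(5,0),(1,1),(2,0)]⟩⟩,.o ⟨false,0,⟨0,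
  [(1,0)]⟩,⟨0,[(10,0),(12,0)]⟩⟩,.o ⟨false,0,⟨0,[(24,0)]⟩,⟨3,[(10,1),(0,1),(1,3),(14,0),(7,0)]⟩⟩]⟩)
  (.I [0,0,2,1,0,0,0,-1] (.R ⟨0,false,false,true,[0,0,1],[0,1],[1,1,0,0,0,0,0,1],(⟨0,[(28,0)]⟩,⟨0,
  [(27,0)]⟩),(⟨0,[(31,0)]⟩,⟨0,[(30,0)]⟩),⟨0,[(17,0)]⟩,.k,.k,.k,.k,.k,.k,⟨true,0,⟨1,[(6,0),(5,0)]⟩,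
  ⟨0,[(0,0)]⟩⟩,⟨false,1,⟨2,[(5,0),(5,0),(0,1),(1,2),(21,0),(0,0)]⟩,⟨0,[(25,0)]⟩⟩,⟨false,0,⟨0,[]⟩,⟨1,
  [(18,0),(0,0),(17,0)]⟩⟩,⟨true,0,⟨0,[(14,0)]⟩,⟨1,[(9,0),(0,0),(1,0),(22,0)]⟩⟩,⟨false,0,⟨0,[]⟩,⟨0,
  []⟩⟩,⟨false,0,⟨0,[]⟩,⟨0,[]⟩⟩,[.o ⟨false,0,⟨0,[(34,0)]⟩,⟨1,[(29,0),(5,1),(1,0)]⟩⟩,.a ⟨true,0,⟨0,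
  [(5,0)]⟩,⟨0,[(35,0)]⟩⟩ ⟨true,0,⟨0,[(6,0)]⟩,⟨0,[(4,0)]⟩⟩ ⟨false,1,⟨5,[(5,3),(5,3),(0,1),(1,5),(21,
  0),(0,0)]⟩,⟨2,[(1,0),(2,0),(5,0),(1,0),(2,0)]⟩⟩,.o ⟨false,0,⟨0,[(2,0)]⟩,⟨0,[(11,0),(12,0)]⟩⟩,.o
  ⟨false,0,⟨0,[(25,0)]⟩,⟨3,[(11,1),(0,1),(1,3),(14,0),(7,0)]⟩⟩]⟩) (.R ⟨0,false,false,false,[1,-1],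
  [1,-1,1],[0,1,1],(⟨0,[(30,0)]⟩,⟨0,[(31,0)]⟩),(⟨0,[(28,0),(1,0)]⟩,⟨0,[(17,0)]⟩),⟨0,[(16,0),(0,0)]⟩,
  .k,.k,(.r 0 ⟨0,[(1,1)]⟩ ⟨0,[(8,1),(27,0)]⟩),.k,.k,.k,⟨false,0,⟨2,[(3,0),(3,1),(0,0),(5,0)]⟩,⟨2,
  [(0,0),(11,0),(0,0),(22,0),(0,1)]⟩⟩,⟨true,0,⟨0,[(2,0)]⟩,⟨0,[(26,0)]⟩⟩,⟨false,0,⟨0,[(3,0),(22,0)]⟩,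
  ⟨1,[(1,1),(34,0),(0,0)]⟩⟩,⟨true,0,⟨1,[(0,0),(8,0),(0,0)]⟩,⟨0,[(24,0)]⟩⟩,⟨false,0,⟨0,[]⟩,⟨0,[]⟩⟩,
  ⟨false,0,⟨0,[]⟩,⟨0,[]⟩⟩,[.o ⟨false,0,⟨0,[(0,0),(9,0)]⟩,⟨1,[(14,1),(3,0),(0,0),(17,0)]⟩⟩,.o ⟨false,
  1,⟨5,[(10,1),(0,3),(0,1),(2,1),(13,0),(5,1),(1,0)]⟩,⟨0,[(14,0)]⟩⟩,.a ⟨true,0,⟨1,[(8,0),(26,0)]⟩,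
  ⟨0,[(1,0),(3,0)]⟩⟩ ⟨false,0,⟨1,[(8,0),(26,0)]⟩,⟨1,[(36,0),(0,0)]⟩⟩ ⟨true,0,⟨7,[(0,4),(8,0),(0,2),
  (1,1),(2,1)]⟩,⟨1,[(8,0),(5,0),(9,0)]⟩⟩,.e ⟨true,0,⟨0,[(39,0)]⟩,⟨0,[]⟩⟩ ⟨true,0,⟨0,[(0,0),(1,0)]⟩,
  ⟨0,[(8,0),(15,0)]⟩⟩]⟩))) (.R ⟨0,false,false,false,[1,0,-1],[1,-1],[1,1],(⟨0,[(25,0)]⟩,⟨0,[(26,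
  0)]⟩),(⟨0,[(28,0)]⟩,⟨0,[(29,0)]⟩),⟨0,[(14,0)]⟩,.k,.k,.k,.k,.k,.k,⟨false,0,⟨0,[(32,0)]⟩,⟨1,[(33,1),
  (0,0),(0,0)]⟩⟩,⟨true,0,⟨0,[(23,0)]⟩,⟨0,[(0,0)]⟩⟩,⟨false,0,⟨0,[(4,0)]⟩,⟨0,[(5,0),(29,0)]⟩⟩,⟨true,0,
  ⟨1,[(7,0),(0,0),(1,0),(22,0)]⟩,⟨0,[(12,0)]⟩⟩,⟨false,0,⟨0,[]⟩,⟨0,[]⟩⟩,⟨false,0,⟨0,[]⟩,⟨0,[]⟩⟩,[.a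
  ⟨true,0,⟨0,[(33,0)]⟩,⟨0,[(3,0)]⟩⟩ ⟨false,0,⟨4,[(5,0),(4,0),(19,0),(0,1)]⟩,⟨1,[(16,0),(0,0),(17,
  0)]⟩⟩ ⟨true,0,⟨1,[(2,0),(5,0),(1,0),(9,0)]⟩,⟨0,[(0,1),(0,0)]⟩⟩,.o ⟨false,1,⟨1,[(27,0),(5,1),(1,
  0)]⟩,⟨0,[(32,0)]⟩⟩,.a ⟨true,0,⟨0,[(0,0)]⟩,⟨1,[(13,0),(11,0),(0,0)]⟩⟩ ⟨false,0,⟨0,[]⟩,⟨1,[(16,0),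
  (0,0),(17,0)]⟩⟩ ⟨true,0,⟨1,[(2,0),(5,0),(1,0),(9,0)]⟩,⟨0,[(0,0),(31,0)]⟩⟩,.a ⟨true,0,⟨0,[(24,0)]⟩,
  ⟨0,[(20,0)]⟩⟩ ⟨true,0,⟨4,[(5,0),(4,0),(19,0),(0,1)]⟩,⟨1,[(6,0),(26,0)]⟩⟩ ⟨false,1,⟨3,[(5,1),(4,1),
  (2,1),(13,0),(7,2)]⟩,⟨0,[(0,1),(0,0)]⟩⟩]⟩)))) (.Q [0,0,1,0,0,0,0,0,0,-1] (.pp true [-1,1]) (.R ⟨0,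
  false,false,true,[1,0,-1],[0,1],[],(⟨0,[(23,0)]⟩,⟨0,[(24,0)]⟩),(⟨0,[(27,0)]⟩,⟨0,[(26,0)]⟩),⟨0,
  [(12,0)]⟩,.k,.k,.k,.k,.k,.k,⟨false,1,⟨3,[(1,1),(6,1),(1,1),(7,1),(13,0),(0,2)]⟩,⟨2,[(4,1),(23,0),
  (1,0)]⟩⟩,⟨true,0,⟨0,[(18,0)]⟩,⟨0,[(0,0),(21,0)]⟩⟩,⟨true,0,⟨0,[(2,0)]⟩,⟨0,[(3,0)]⟩⟩,⟨false,0,⟨0,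
  [(5,0)]⟩,⟨0,[(1,0),(18,0),(12,0)]⟩⟩,⟨false,0,⟨0,[]⟩,⟨0,[]⟩⟩,⟨false,0,⟨0,[]⟩,⟨0,[]⟩⟩,[.o ⟨false,0,
  ⟨0,[(30,0)]⟩,⟨1,[(25,0),(5,1),(1,0)]⟩⟩,.o ⟨false,1,⟨0,[(4,0),(27,0)]⟩,⟨0,[(1,0)]⟩⟩,.o ⟨false,1,⟨0,
  [(7,0),(12,0)]⟩,⟨0,[(0,0),(17,0)]⟩⟩,.a ⟨true,0,⟨0,[(22,0)]⟩,⟨0,[(18,0)]⟩⟩ ⟨false,1,⟨1,[(32,0),(0,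
  0)]⟩,⟨1,[(4,0),(26,0)]⟩⟩ ⟨true,0,⟨6,[(5,1),(4,1),(0,1),(6,2),(9,0),(0,2)]⟩,⟨0,[(1,0),(20,0)]⟩⟩]⟩)
  (.R ⟨2,false,false,false,[0,1],[1,-1],[0,1,1],(⟨0,[]⟩,⟨0,[]⟩),(⟨0,[(26,0)]⟩,⟨0,[(27,0)]⟩),⟨0,[]⟩,
  .k,.k,.k,(.r (-1) ⟨0,[(4,1),(27,0)]⟩ ⟨0,[(0,1),(0,1)]⟩),.k,.k,⟨false,0,⟨2,[(4,1),(23,0),(1,0)]⟩,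
  ⟨3,[(1,1),(6,1),(1,1),(7,1),(13,0),(0,2)]⟩⟩,⟨true,0,⟨0,[(1,0),(2,0)]⟩,⟨0,[(0,0)]⟩⟩,⟨false,0,⟨0,
  [(31,0)]⟩,⟨3,[(5,1),(4,1),(14,0),(7,2)]⟩⟩,⟨true,0,⟨0,[(1,0),(29,0)]⟩,⟨0,[(5,0),(4,0)]⟩⟩,⟨true,0,
  ⟨0,[(35,0)]⟩,⟨0,[]⟩⟩,⟨true,0,⟨0,[(1,0)]⟩,⟨0,[(5,0),(14,0)]⟩⟩,[.o ⟨false,0,⟨0,[(1,0)]⟩,⟨0,[(4,0),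
  (27,0)]⟩⟩,.o ⟨false,1,⟨1,[(25,0),(5,1),(1,0)]⟩,⟨0,[(30,0)]⟩⟩,.a ⟨true,0,⟨0,[(0,0)]⟩,⟨1,[(4,0),(26,
  0)]⟩⟩ ⟨false,0,⟨1,[(4,0),(26,0)]⟩,⟨1,[(32,0),(0,0)]⟩⟩ ⟨true,0,⟨2,[(1,1),(4,0),(15,0),(8,0)]⟩,⟨4,
  [(0,2),(4,1),(4,1),(17,0),(0,0)]⟩⟩,.e ⟨true,0,⟨0,[(35,0)]⟩,⟨0,[]⟩⟩ ⟨true,0,⟨0,[(1,0)]⟩,⟨0,[(5,0),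
  (14,0)]⟩⟩]⟩))) (.Q [0,0,-1,1,0,0,1,0,0,1,-1] (.p false [0,0,1] [1] (⟨0,[(22,0)]⟩,⟨0,[(21,0)]⟩) .k
  1 (⟨0,[]⟩,⟨0,[]⟩) .k .k) (.R ⟨0,false,false,true,[1,0,-1],[0,1],[0,1],(⟨0,[(22,0)]⟩,⟨0,[(23,0)]⟩),
  (⟨0,[(26,0)]⟩,⟨0,[(25,0)]⟩),⟨0,[(11,0)]⟩,.k,.k,.k,.k,.k,.k,⟨true,0,⟨1,[(1,0),(5,0)]⟩,⟨0,[(3,0)]⟩⟩,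
  ⟨false,0,⟨1,[(0,1),(0,0),(5,0)]⟩,⟨1,[(13,0),(0,0),(6,1),(2,0)]⟩⟩,⟨true,0,⟨0,[(8,0)]⟩,⟨0,[(1,0)]⟩⟩,
  ⟨false,0,⟨0,[(4,0)]⟩,⟨1,[(1,2),(5,0),(13,1),(2,0),(7,0)]⟩⟩,⟨false,0,⟨0,[]⟩,⟨0,[]⟩⟩,⟨false,0,⟨0,
  []⟩,⟨0,[]⟩⟩,[.o ⟨false,0,⟨0,[(29,0)]⟩,⟨1,[(24,0),(5,1),(1,0)]⟩⟩,.e ⟨false,1,⟨1,[(13,0),(0,0),(16,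
  0)]⟩,⟨0,[]⟩⟩ ⟨false,0,⟨0,[(0,0)]⟩,⟨5,[(7,1),(5,1),(0,1),(4,1),(1,3),(2,2),(5,1),(1,0)]⟩⟩,.o
  ⟨false,1,⟨0,[(6,0),(12,0)]⟩,⟨3,[(0,1),(0,0),(3,1),(1,0)]⟩⟩,.a ⟨true,0,⟨0,[(21,0)]⟩,⟨0,[(17,0)]⟩⟩
  ⟨true,0,⟨4,[(2,0),(4,0),(19,0),(0,1)]⟩,⟨1,[(3,0),(26,0)]⟩⟩ ⟨false,0,⟨0,[(0,0)]⟩,⟨1,[(21,1),(2,0),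
  (5,1),(1,0)]⟩⟩]⟩) (.Q [0,0,0,0,0,0,-1,-1,0,0,1] (.p true [0,0,1] [] (⟨0,[(23,0)]⟩,⟨0,[(22,0)]⟩)
  .k 0 (⟨0,[]⟩,⟨0,[]⟩) .k .k) (.R ⟨0,false,false,true,[-1,1,1],[0,0,1],[0,1,1,0,0,0,0,1],(⟨0,[(12,
  0)]⟩,⟨0,[(23,0),(2,0)]⟩),(⟨0,[(24,0)]⟩,⟨0,[(23,0)]⟩),⟨0,[(23,0)]⟩,.k,.k,.k,.k,.k,.k,⟨true,0,⟨3,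
  [(1,0),(2,0),(6,0),(10,0)]⟩,⟨0,[]⟩⟩,⟨false,1,⟨1,[(14,0),(0,0),(9,0)]⟩,⟨2,[(0,2),(4,1),(2,0),(9,
  0)]⟩⟩,⟨false,0,⟨0,[(31,0)]⟩,⟨3,[(5,1),(4,1),(14,0),(7,2)]⟩⟩,⟨true,0,⟨1,[(1,0),(1,0),(2,0),(1,0),
  (20,0)]⟩,⟨0,[(0,0),(4,0)]⟩⟩,⟨false,0,⟨0,[]⟩,⟨0,[]⟩⟩,⟨false,0,⟨0,[]⟩,⟨0,[]⟩⟩,[.o ⟨false,0,⟨0,[(19,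
  0)]⟩,⟨1,[(0,1),(24,0),(7,0)]⟩⟩,.a ⟨true,0,⟨0,[(5,0),(25,0)]⟩,⟨0,[(0,0)]⟩⟩ ⟨true,0,⟨0,[(1,0),(3,
  0)]⟩,⟨0,[(2,0)]⟩⟩ ⟨false,1,⟨3,[(7,1),(1,1),(4,0),(0,0),(9,0)]⟩,⟨0,[(0,0),(17,0)]⟩⟩,.o ⟨false,0,⟨0,
  [(18,0)]⟩,⟨0,[(22,0),(2,0)]⟩⟩,.o ⟨false,0,⟨1,[(11,0),(11,0),(0,0)]⟩,⟨1,[(0,0),(0,0),(5,0),(17,0),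
  (3,0)]⟩⟩]⟩) (.Q [0,0,-1,0,0,0,0,0,0,1] (.pp false [-1,1]) (.R ⟨2,false,false,false,[0,1],[1,0,-1],
  [0,0,1],(⟨0,[]⟩,⟨0,[]⟩),(⟨0,[(24,0)]⟩,⟨0,[(25,0)]⟩),⟨0,[]⟩,.k,.k,.k,.k,.k,.k,⟨true,0,⟨0,[(2,0),(3,
  0)]⟩,⟨0,[(3,0)]⟩⟩,⟨false,1,⟨0,[(8,0),(12,0)]⟩,⟨0,[(19,0)]⟩⟩,⟨true,0,⟨0,[(32,0)]⟩,⟨0,[(31,0)]⟩⟩,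
  ⟨false,1,⟨3,[(2,1),(0,2),(5,0),(11,1),(4,0),(7,2)]⟩,⟨0,[(6,0)]⟩⟩,⟨false,1,⟨1,[(15,0),(0,0),(17,
  0)]⟩,⟨0,[]⟩⟩,⟨false,1,⟨0,[(2,0),(0,0),(26,0),(3,0)]⟩,⟨0,[(6,0),(25,0)]⟩⟩,[.o ⟨false,1,⟨1,[(21,1),
  (4,0),(7,0)]⟩,⟨0,[(1,0)]⟩⟩,.o ⟨false,1,⟨0,[(2,0),(0,0),(26,0),(3,0)]⟩,⟨0,[(20,0)]⟩⟩,.a ⟨true,0,⟨0,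
  [(0,0)]⟩,⟨3,[(2,0),(2,0),(6,0),(10,0)]⟩⟩ ⟨true,0,⟨3,[(2,0),(2,0),(6,0),(10,0)]⟩,⟨4,[(4,0),(4,0),
  (19,0),(0,1)]⟩⟩ ⟨false,1,⟨7,[(2,3),(0,1),(3,1),(3,3),(9,1),(4,0),(7,6)]⟩,⟨2,[(6,1),(2,0),(9,0)]⟩⟩,
  .e ⟨false,1,⟨1,[(15,0),(0,0),(17,0)]⟩,⟨0,[]⟩⟩ ⟨false,1,⟨0,[(2,0),(0,0),(26,0),(3,0)]⟩,⟨0,[(6,0),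
  (25,0)]⟩⟩]⟩) (.R ⟨0,false,false,true,[1,0,-1],[0,1],[0,0,1],(⟨0,[(24,0)]⟩,⟨0,[(25,0)]⟩),(⟨0,[(28,
  0)]⟩,⟨0,[(27,0)]⟩),⟨0,[(13,0)]⟩,.k,.k,.k,.k,.k,.k,⟨false,1,⟨1,[(32,1),(0,0),(0,0)]⟩,⟨0,[(31,0)]⟩⟩,
  ⟨true,0,⟨0,[(19,0)]⟩,⟨0,[(0,0),(22,0)]⟩⟩,⟨true,0,⟨0,[(2,0),(3,0)]⟩,⟨3,[(3,2),(0,1),(4,0),(20,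
  1)]⟩⟩,⟨false,0,⟨0,[(6,0)]⟩,⟨3,[(2,1),(0,2),(5,0),(11,1),(4,0),(7,2)]⟩⟩,⟨false,0,⟨0,[]⟩,⟨0,[]⟩⟩,
  ⟨false,0,⟨0,[]⟩,⟨0,[]⟩⟩,[.o ⟨false,0,⟨0,[(31,0)]⟩,⟨1,[(26,0),(5,1),(1,0)]⟩⟩,.o ⟨false,1,⟨0,[(5,0),
  (27,0)]⟩,⟨1,[(0,1),(2,0),(5,0)]⟩⟩,.o ⟨false,1,⟨0,[(8,0),(12,0)]⟩,⟨0,[(0,0),(18,0)]⟩⟩,.a ⟨true,0,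
  ⟨0,[(23,0)]⟩,⟨0,[(19,0)]⟩⟩ ⟨false,1,⟨1,[(15,0),(0,0),(17,0)]⟩,⟨0,[]⟩⟩ ⟨true,0,⟨6,[(6,1),(4,1),(0,
  1),(6,2),(9,0),(0,2)]⟩,⟨0,[(2,0)]⟩⟩]⟩))))) (.R ⟨0,false,false,false,[0,1,-1],[0,1],[1,0,1],(⟨0,
  [(10,0)]⟩,⟨0,[(21,0),(1,0)]⟩),(⟨0,[(24,0)]⟩,⟨0,[(23,0)]⟩),⟨0,[(21,0)]⟩,.k,.k,.k,.k,.k,.k,⟨true,0,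
  ⟨0,[(28,0)]⟩,⟨3,[(0,2),(0,0),(1,0),(3,2),(0,0)]⟩⟩,⟨false,1,⟨3,[(8,1),(2,0),(0,0),(9,0),(6,1)]⟩,⟨0,
  [(0,0),(16,0)]⟩⟩,⟨false,0,⟨0,[(0,0),(27,0)]⟩,⟨3,[(7,3),(0,1),(2,0),(0,0),(9,0),(7,1)]⟩⟩,⟨true,0,
  ⟨8,[(0,4),(2,1),(1,0),(2,1),(7,2),(9,1)]⟩,⟨0,[(17,0)]⟩⟩,⟨false,0,⟨0,[]⟩,⟨0,[]⟩⟩,⟨false,0,⟨0,[]⟩,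
  ⟨0,[]⟩⟩,[.a ⟨true,0,⟨2,[(0,1),(0,0),(5,1),(7,1),(4,0),(0,0)]⟩,⟨0,[(28,0)]⟩⟩ ⟨false,0,⟨0,[]⟩,⟨1,
  [(11,0),(0,0),(16,0)]⟩⟩ ⟨true,0,⟨0,[(0,0),(2,0),(3,0),(7,0)]⟩,⟨0,[(0,0),(16,0),(10,0)]⟩⟩,.o
  ⟨false,1,⟨3,[(2,1),(4,1),(14,0),(7,2)]⟩,⟨0,[(3,0),(1,0),(1,0)]⟩⟩,.e ⟨true,0,⟨1,[(1,0),(26,0)]⟩,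
  ⟨10,[(3,0),(1,2),(2,0),(8,2),(7,0),(0,5)]⟩⟩ ⟨true,0,⟨0,[(0,0),(2,0),(3,0),(7,0)]⟩,⟨4,[(5,2),(0,0),
  (0,0),(9,2),(1,0)]⟩⟩,.o ⟨false,0,⟨0,[(0,0),(16,0)]⟩,⟨3,[(8,1),(2,0),(0,0),(9,2)]⟩⟩]⟩)) (.Q [0,0,2,
  0,0,0,0,0,0,-1] (.pp true [-1,1]) (.Q [0,0,-1,0,0,0,0,0,0,1] (.pp false [-1,1]) (.R ⟨2,false,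
  false,false,[0,1],[1,-1],[0,1,1],(⟨0,[]⟩,⟨0,[]⟩),(⟨0,[(24,0)]⟩,⟨0,[(25,0)]⟩),⟨0,[]⟩,.k,.k,.k,(.r
  (-1) ⟨1,[(1,1),(1,1),(4,1),(3,0),(0,0),(17,0)]⟩ ⟨0,[(2,0),(26,0)]⟩),.k,.k,⟨false,0,⟨1,[(1,0),(1,
  0),(14,0),(9,0)]⟩,⟨1,[(2,0),(26,0),(0,0),(0,0)]⟩⟩,⟨true,0,⟨0,[(1,0)]⟩,⟨0,[(0,0)]⟩⟩,⟨false,0,⟨0,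
  [(29,0)]⟩,⟨3,[(3,1),(4,1),(14,0),(7,2)]⟩⟩,⟨true,0,⟨0,[(1,0),(0,0),(26,0)]⟩,⟨0,[(3,0),(4,0)]⟩⟩,
  ⟨true,0,⟨0,[(33,0)]⟩,⟨0,[]⟩⟩,⟨true,0,⟨0,[(1,0),(0,0)]⟩,⟨0,[(3,0),(14,0)]⟩⟩,[.o ⟨false,0,⟨0,[(1,0),
  (0,0)]⟩,⟨3,[(3,1),(4,1),(3,1),(0,1),(9,0),(7,0)]⟩⟩,.o ⟨false,1,⟨1,[(23,0),(5,1),(1,0)]⟩,⟨0,[(28,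
  0)]⟩⟩,.a ⟨true,0,⟨0,[(0,0)]⟩,⟨3,[(1,0),(7,0),(10,1)]⟩⟩ ⟨false,0,⟨3,[(1,0),(7,0),(10,1)]⟩,⟨1,[(30,
  0),(0,0)]⟩⟩ ⟨true,0,⟨1,[(1,1),(0,0),(26,0)]⟩,⟨4,[(0,2),(2,1),(4,1),(17,0),(0,0)]⟩⟩,.e ⟨true,0,⟨0,
  [(33,0)]⟩,⟨0,[]⟩⟩ ⟨true,0,⟨0,[(1,0),(0,0)]⟩,⟨0,[(3,0),(14,0)]⟩⟩]⟩) (.R ⟨0,false,false,true,[1,0,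
  -1],[0,1],[0,0,1],(⟨0,[(21,0)]⟩,⟨0,[(22,0)]⟩),(⟨0,[(25,0)]⟩,⟨0,[(24,0)]⟩),⟨0,[(10,0)]⟩,.k,.k,.k,
  .k,.k,.k,⟨false,1,⟨1,[(29,1),(0,0),(0,0)]⟩,⟨0,[(28,0)]⟩⟩,⟨true,0,⟨0,[(16,0)]⟩,⟨0,[(0,0),(19,0)]⟩⟩,
  ⟨true,0,⟨2,[(0,0),(0,0),(1,1),(2,0),(13,1)]⟩,⟨5,[(2,4),(1,1),(3,4),(0,1),(8,0)]⟩⟩,⟨false,0,⟨0,[(3,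
  0)]⟩,⟨0,[(1,0),(0,0),(15,0),(12,0)]⟩⟩,⟨false,0,⟨0,[]⟩,⟨0,[]⟩⟩,⟨false,0,⟨0,[]⟩,⟨0,[]⟩⟩,[.o ⟨false,
  0,⟨0,[(28,0)]⟩,⟨1,[(23,0),(5,1),(1,0)]⟩⟩,.o ⟨false,1,⟨3,[(3,1),(4,1),(3,1),(0,1),(9,0),(7,0)]⟩,⟨0,
  [(1,0),(0,0)]⟩⟩,.o ⟨false,1,⟨0,[(5,0),(12,0)]⟩,⟨0,[(0,0),(15,0)]⟩⟩,.a ⟨true,0,⟨0,[(20,0)]⟩,⟨0,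
  [(16,0)]⟩⟩ ⟨false,1,⟨1,[(12,0),(0,0),(17,0)]⟩,⟨0,[]⟩⟩ ⟨true,0,⟨6,[(3,1),(4,1),(0,1),(6,2),(9,0),
  (0,2)]⟩,⟨0,[(1,0),(0,0),(17,0)]⟩⟩]⟩)) (.R ⟨0,false,false,true,[1,-1],[0,1],[1],(⟨0,[(23,0)]⟩,⟨0,
  [(24,0)]⟩),(⟨0,[(24,0)]⟩,⟨0,[(23,0)]⟩),⟨0,[(9,0),(0,0)]⟩,.k,.k,(.r 0 ⟨0,[(1,0),(26,0)]⟩ ⟨10,[(2,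
  9),(0,7),(0,1),(2,11),(3,3),(0,3),(6,5),(10,4)]⟩),(.r 0 ⟨0,[(1,0),(26,0)]⟩ ⟨10,[(2,9),(0,7),(0,1),
  (2,11),(3,3),(0,3),(6,5),(10,4)]⟩),.k,.k,⟨false,1,⟨1,[(1,0),(26,0),(0,0),(0,0)]⟩,⟨2,[(2,0),(0,0),
  (13,0),(1,0),(7,1)]⟩⟩,⟨true,0,⟨0,[(0,0)]⟩,⟨0,[(3,0),(15,0)]⟩⟩,⟨false,1,⟨10,[(2,4),(0,3),(0,0),(2,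
  5),(3,1),(0,1),(6,2),(10,7)]⟩,⟨1,[(1,0),(26,0)]⟩⟩,⟨true,0,⟨0,[(2,0),(4,0)]⟩,⟨1,[(1,2),(1,1),(15,
  1),(8,0)]⟩⟩,⟨false,0,⟨0,[]⟩,⟨0,[]⟩⟩,⟨false,0,⟨0,[]⟩,⟨0,[]⟩⟩,[.o ⟨false,0,⟨0,[(27,0)]⟩,⟨1,[(22,0),
  (5,1),(1,0)]⟩⟩,.e ⟨false,1,⟨1,[(29,0),(0,0)]⟩,⟨0,[(32,0)]⟩⟩ ⟨false,1,⟨2,[(0,0),(1,1),(4,0),(9,0),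
  (11,1),(0,0)]⟩,⟨0,[(1,0),(1,0),(15,0)]⟩⟩,.e ⟨true,0,⟨0,[]⟩,⟨0,[(32,0)]⟩⟩ ⟨true,0,⟨4,[(0,1),(1,2),
  (4,1),(9,0),(7,0)]⟩,⟨0,[(1,0),(1,0),(15,0)]⟩⟩,.a ⟨true,0,⟨0,[(18,0),(0,0)]⟩,⟨0,[(0,0)]⟩⟩ ⟨false,1,
  ⟨1,[(29,0),(0,0)]⟩,⟨1,[(18,0),(0,0)]⟩⟩ ⟨true,0,⟨6,[(0,4),(1,1),(4,1),(17,0),(0,2)]⟩,⟨1,[(1,0),(1,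
  1),(15,1),(8,0)]⟩⟩]⟩)))

theorem ok3 : chk K t3 r5 = true := by decide +kernel

noncomputable def t6 : Tre :=
  (.Q [0,0,-1,-1,0,0,1,0,0,0,-1] (.p false [0,0,1] [] (⟨0,[(17,0)]⟩,⟨0,[(16,0)]⟩) .k 0 (⟨0,[]⟩,⟨0,
  []⟩) .k .k) (.Q [0,0,0,0,0,0,1,0,0,0,-1] (.p false [0,0,1] [] (⟨0,[(18,0)]⟩,⟨0,[(17,0)]⟩) .k 0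
  (⟨0,[]⟩,⟨0,[]⟩) .k .k) (.Q [0,-1,0,-1,1,0,-1,-1,0,-2,1] (.p true [-1,1,1] [1] (⟨0,[(7,0)]⟩,⟨0,
  [(18,0),(2,0)]⟩) .k 1 (⟨0,[]⟩,⟨0,[]⟩) .k .k) (.I [0,0,2,1,0,0,0,-1] (.Q [0,1,0,-1,0,0,1,1,0,-1,
  -1] (.p false [1,-1,1] [] (⟨0,[(21,0),(1,0)]⟩,⟨0,[(10,0)]⟩) .k 0 (⟨0,[]⟩,⟨0,[]⟩) .k .k) (.I [0,0,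
  1,1,0,0,0,-1] (.Q [0,0,-1,0,0,0,0,0,0,1] (.pp false [-1,1]) (.Q [0,0,-1,-1,0,0,-1,0,0,0,1] (.p
  true [0,0,1] [] (⟨0,[(24,0)]⟩,⟨0,[(23,0)]⟩) .k 0 (⟨0,[]⟩,⟨0,[]⟩) .k .k) (.R ⟨0,false,false,true,
  [0,1,-1],[0,1],[1],(⟨0,[(14,0)]⟩,⟨0,[(25,0),(1,0)]⟩),(⟨0,[(28,0)]⟩,⟨0,[(27,0)]⟩),⟨0,[(25,0)]⟩,.k,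
  .k,.k,.k,.k,.k,⟨false,1,⟨2,[(1,0),(3,0),(3,0),(9,0),(13,0),(0,0)]⟩,⟨1,[(4,0),(5,0),(20,0)]⟩⟩,
  ⟨true,0,⟨0,[(6,0)]⟩,⟨0,[(23,0)]⟩⟩,⟨false,1,⟨3,[(9,1),(0,1),(4,0),(0,0),(17,2)]⟩,⟨0,[(2,0)]⟩⟩,
  ⟨true,0,⟨0,[(20,0)]⟩,⟨0,[(0,0),(1,0)]⟩⟩,⟨false,0,⟨0,[]⟩,⟨0,[]⟩⟩,⟨false,0,⟨0,[]⟩,⟨0,[]⟩⟩,[.o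
  ⟨false,0,⟨0,[(31,0)]⟩,⟨5,[(3,1),(1,1),(9,0),(0,0),(15,1),(1,2)]⟩⟩,.e ⟨false,1,⟨1,[(33,0),(0,0)]⟩,
  ⟨0,[(36,0)]⟩⟩ ⟨false,1,⟨3,[(12,1),(2,0),(0,0),(9,0),(4,3),(2,1)]⟩,⟨0,[(0,0)]⟩⟩,.e ⟨true,0,⟨0,[]⟩,
  ⟨0,[(36,0)]⟩⟩ ⟨true,0,⟨1,[(4,0),(1,0),(13,0),(10,0)]⟩,⟨0,[(0,0)]⟩⟩,.a ⟨true,0,⟨0,[(1,0),(21,0)]⟩,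
  ⟨0,[(6,0)]⟩⟩ ⟨false,1,⟨1,[(33,0),(0,0)]⟩,⟨1,[(22,0),(0,0)]⟩⟩ ⟨true,0,⟨0,[(6,0),(24,0)]⟩,⟨1,[(0,0),
  (22,0),(8,0)]⟩⟩]⟩) (.R ⟨0,false,false,false,[1,0,-1],[1,-1,1],[1,0,-1,-1,0,0,0,1],(⟨0,[(24,0)]⟩,
  ⟨0,[(25,0)]⟩),(⟨0,[(25,0),(1,0)]⟩,⟨0,[(14,0)]⟩),⟨0,[(13,0)]⟩,.k,.k,.k,(.r 0 ⟨2,[(2,3),(2,0),(2,0),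
  (10,0)]⟩ ⟨3,[(9,1),(0,5),(4,0),(0,0),(17,2)]⟩),.k,.k,⟨true,0,⟨0,[]⟩,⟨1,[(22,0),(0,0)]⟩⟩,⟨false,0,
  ⟨0,[(6,1)]⟩,⟨1,[(9,0),(1,0),(11,2),(6,0),(2,0),(0,0)]⟩⟩,⟨false,1,⟨0,[(0,1),(8,1),(13,1),(6,0),(3,
  0)]⟩,⟨2,[(2,3),(2,0),(2,0),(10,0)]⟩⟩,⟨true,0,⟨0,[(0,2),(8,1),(13,0)]⟩,⟨1,[(5,0),(2,1),(2,0),(11,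
  1),(6,1),(3,0)]⟩⟩,⟨false,0,⟨0,[]⟩,⟨0,[]⟩⟩,⟨false,0,⟨0,[]⟩,⟨0,[]⟩⟩,[.e ⟨false,1,⟨3,[(9,1),(0,1),(4,
  0),(0,0),(16,1),(0,0)]⟩,⟨0,[(2,0)]⟩⟩ ⟨false,0,⟨0,[(0,0),(5,0),(2,0)]⟩,⟨1,[(11,1),(11,1),(9,0),(0,
  0)]⟩⟩,.o ⟨false,1,⟨0,[(3,0),(30,0)]⟩,⟨0,[(11,0)]⟩⟩,.o ⟨false,1,⟨1,[(23,1),(2,0),(6,0)]⟩,⟨0,[(6,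
  0)]⟩⟩,.a ⟨true,0,⟨0,[(23,0)]⟩,⟨0,[(19,0)]⟩⟩ ⟨false,1,⟨5,[(9,3),(0,1),(19,1),(2,0),(0,4)]⟩,⟨0,[(4,
  0)]⟩⟩ ⟨true,0,⟨0,[(0,0),(5,0),(2,0)]⟩,⟨0,[(11,0),(11,0)]⟩⟩]⟩)) (.Q [0,0,0,0,0,0,-1,0,0,1,1] (.p
  true [1,-1,1] [] (⟨0,[(24,0),(1,0)]⟩,⟨0,[(13,0)]⟩) .k 0 (⟨0,[]⟩,⟨0,[]⟩) .k .k) (.K ⟨0,[1,-1,1],0,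
  0,(⟨0,[(25,0),(1,0)]⟩,⟨0,[(14,0)]⟩),.k,(.r 0 ⟨0,[(9,0)]⟩ ⟨1,[(4,1),(10,0),(0,0),(14,1),(2,0)]⟩),
  .k,.k,.k,[⟨0,[(1,0)]⟩,⟨0,[(0,0)]⟩,⟨2,[(0,1),(10,2),(0,0)]⟩,⟨0,[(3,0)]⟩]⟩) (.Q [0,1,0,-1,-1,0,-1,
  -1,0,-1,1] (.p true [0,0,1] [1] (⟨0,[(25,0)]⟩,⟨0,[(24,0)]⟩) .k 1 (⟨0,[]⟩,⟨0,[]⟩) .k .k) (.R ⟨0,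
  false,false,false,[1,0,-1],[0,1],[1,0,1],(⟨0,[(25,0)]⟩,⟨0,[(26,0)]⟩),(⟨0,[(29,0)]⟩,⟨0,[(28,0)]⟩),
  ⟨0,[(14,0)]⟩,.k,.k,.k,.k,.k,.k,⟨false,0,⟨4,[(6,0),(2,0),(0,1),(9,0)]⟩,⟨1,[(16,0),(0,0),(14,1),(2,
  0)]⟩⟩,⟨true,0,⟨0,[(20,0)]⟩,⟨0,[(2,0),(21,0)]⟩⟩,⟨false,1,⟨1,[(11,1),(11,0),(0,0),(10,1)]⟩,⟨5,[(0,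
  3),(2,1),(16,3),(10,1),(2,0),(0,2)]⟩⟩,⟨true,1,⟨1,[(11,1),(1,0),(11,0),(0,0),(5,1),(2,1)]⟩,⟨0,[(0,
  0)]⟩⟩,⟨false,0,⟨0,[]⟩,⟨0,[]⟩⟩,⟨false,0,⟨0,[]⟩,⟨0,[]⟩⟩,[.o ⟨false,1,⟨1,[(16,0),(0,0),(14,1),(2,
  0)]⟩,⟨6,[(0,0),(1,3),(3,0),(1,0),(1,1),(12,0)]⟩⟩,.o ⟨false,1,⟨0,[(32,0),(2,0)]⟩,⟨7,[(0,0),(3,4),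
  (1,0),(15,2),(10,0)]⟩⟩,.o ⟨false,1,⟨1,[(24,1),(2,0),(6,0)]⟩,⟨0,[(7,0)]⟩⟩,.a ⟨true,0,⟨0,[(24,0)]⟩,
  ⟨0,[(20,0)]⟩⟩ ⟨true,0,⟨0,[]⟩,⟨0,[(37,0)]⟩⟩ ⟨false,1,⟨0,[(20,0),(11,0),(2,0)]⟩,⟨8,[(0,0),(1,5),(3,
  0),(3,1),(13,6),(8,2)]⟩⟩]⟩) (.R ⟨2,true,false,false,[0,1],[0,0,1],[1,0,0,0,0,0,0,1],(⟨0,[]⟩,⟨0,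
  []⟩),(⟨0,[(26,0)]⟩,⟨0,[(25,0)]⟩),⟨0,[]⟩,.k,.k,.k,.k,.k,.k,⟨true,0,⟨0,[]⟩,⟨1,[(23,0),(0,0)]⟩⟩,
  ⟨false,0,⟨0,[(7,0)]⟩,⟨0,[(24,0),(9,0)]⟩⟩,⟨false,1,⟨2,[(0,1),(5,0),(3,1),(13,0)]⟩,⟨0,[(3,0)]⟩⟩,
  ⟨true,0,⟨0,[(0,0),(1,1),(6,0),(0,0)]⟩,⟨0,[(12,0)]⟩⟩,⟨true,1,⟨1,[(11,1),(22,0),(0,0)]⟩,⟨0,[(2,0),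
  (6,0)]⟩⟩,⟨false,1,⟨1,[(0,0),(3,0),(30,0)]⟩,⟨3,[(2,1),(3,0),(2,3),(0,0),(13,2),(6,2),(3,2)]⟩⟩,
  []⟩)))) (.Q [0,0,0,-1,0,0,0,0,0,-1] (.pp true [-1,1]) (.R ⟨0,false,false,true,[0,1,-1],[0,1],[1,
  1],(⟨0,[(13,0)]⟩,⟨0,[(24,0),(1,0)]⟩),(⟨0,[(27,0)]⟩,⟨0,[(26,0)]⟩),⟨0,[(24,0)]⟩,.k,.k,.k,.k,.k,.k,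
  ⟨false,0,⟨0,[(0,0),(0,0),(5,0),(21,0),(3,0)]⟩,⟨1,[(3,0),(5,0),(4,0),(0,0),(14,0),(2,0)]⟩⟩,⟨true,0,
  ⟨0,[(5,0)]⟩,⟨0,[(22,0)]⟩⟩,⟨false,0,⟨0,[(1,0)]⟩,⟨1,[(3,1),(28,0),(0,0)]⟩⟩,⟨true,0,⟨0,[(19,0)]⟩,⟨0,
  [(0,0),(6,0),(14,0),(6,0),(3,0)]⟩⟩,⟨false,0,⟨0,[]⟩,⟨0,[]⟩⟩,⟨false,0,⟨0,[]⟩,⟨0,[]⟩⟩,[.o ⟨false,0,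
  ⟨0,[(30,0)]⟩,⟨5,[(2,1),(1,1),(9,0),(0,0),(15,1),(1,2)]⟩⟩,.o ⟨false,1,⟨1,[(14,0),(0,0),(14,1),(2,
  0)]⟩,⟨0,[(0,0)]⟩⟩,.a ⟨true,0,⟨0,[(1,0),(5,0),(14,0),(6,0),(3,0)]⟩,⟨0,[(21,0)]⟩⟩ ⟨false,0,⟨0,[]⟩,
  ⟨1,[(14,0),(0,0),(17,0)]⟩⟩ ⟨true,0,⟨1,[(3,0),(1,0),(13,0),(10,0)]⟩,⟨0,[(0,0),(0,0),(5,0),(14,0),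
  (6,0),(3,0)]⟩⟩,.e ⟨true,0,⟨24,[(4,0),(1,0),(0,1),(0,2),(19,7),(0,7),(2,0)]⟩,⟨1,[(21,0),(0,0)]⟩⟩
  ⟨true,0,⟨0,[(5,0),(24,0)]⟩,⟨9,[(4,0),(2,1),(0,3),(11,0),(1,7),(8,0),(1,0)]⟩⟩]⟩) (.R ⟨0,false,
  false,false,[0,0,1],[1,-1,1],[0,0,1],(⟨0,[(24,0)]⟩,⟨0,[(23,0)]⟩),(⟨0,[(24,0),(1,0)]⟩,⟨0,[(13,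
  0)]⟩),⟨0,[(13,0)]⟩,.k,.k,.k,.k,.k,.k,⟨true,0,⟨0,[(3,0)]⟩,⟨0,[(1,0)]⟩⟩,⟨false,1,⟨1,[(14,0),(0,0),
  (9,0)]⟩,⟨5,[(0,3),(6,1),(0,1),(23,0),(0,0)]⟩⟩,⟨true,0,⟨15,[(3,7),(0,2),(2,3),(3,1),(8,0),(10,4),
  (1,0)]⟩,⟨1,[(1,0),(7,0),(19,0)]⟩⟩,⟨false,1,⟨5,[(2,1),(1,1),(9,0),(0,0),(15,1),(1,2)]⟩,⟨0,[(0,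
  0)]⟩⟩,⟨false,0,⟨0,[]⟩,⟨0,[]⟩⟩,⟨false,0,⟨0,[]⟩,⟨0,[]⟩⟩,[.a ⟨true,0,⟨0,[(1,0),(19,0)]⟩,⟨0,[(7,0),
  (14,0),(6,0),(3,0)]⟩⟩ ⟨true,0,⟨1,[(21,0),(0,0)]⟩,⟨0,[]⟩⟩ ⟨false,1,⟨3,[(8,1),(0,1),(4,0),(0,0),(9,
  1),(7,0)]⟩,⟨3,[(0,0),(2,0),(3,1),(2,0),(7,0),(10,0),(3,1)]⟩⟩,.o ⟨false,1,⟨0,[(2,0),(30,0)]⟩,⟨0,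
  [(10,0)]⟩⟩,.o ⟨false,0,⟨0,[(5,0)]⟩,⟨1,[(22,1),(2,0),(6,0)]⟩⟩,.o ⟨false,0,⟨0,[(21,0)]⟩,⟨5,[(1,1),
  (2,1),(17,3),(2,0),(3,3),(2,1),(0,0)]⟩⟩]⟩))) (.Q [0,0,1,1,0,0,-1,-1,0,0,1] (.p true [0,0,1] []
  (⟨0,[(22,0)]⟩,⟨0,[(21,0)]⟩) .k 0 (⟨0,[]⟩,⟨0,[]⟩) .k .k) (.R ⟨0,false,false,true,[0,1,-1],[0,1],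
  [1],(⟨0,[(12,0)]⟩,⟨0,[(23,0),(1,0)]⟩),(⟨0,[(26,0)]⟩,⟨0,[(25,0)]⟩),⟨0,[(23,0)]⟩,.k,.k,.k,.k,.k,.k,
  ⟨false,1,⟨23,[(1,1),(1,5),(3,9),(9,9),(1,1),(11,8),(0,8)]⟩,⟨1,[(2,0),(5,0),(20,0)]⟩⟩,⟨true,0,⟨0,
  [(4,0)]⟩,⟨0,[(21,0)]⟩⟩,⟨false,1,⟨3,[(7,1),(0,1),(4,0),(0,0),(17,2)]⟩,⟨0,[(0,0),(3,0)]⟩⟩,⟨true,0,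
  ⟨0,[(18,0)]⟩,⟨10,[(1,2),(1,2),(2,2),(0,0),(1,1),(9,0),(1,1)]⟩⟩,⟨false,0,⟨0,[]⟩,⟨0,[]⟩⟩,⟨false,0,
  ⟨0,[]⟩,⟨0,[]⟩⟩,[.o ⟨false,0,⟨0,[(29,0)]⟩,⟨1,[(24,0),(5,1),(1,0)]⟩⟩,.e ⟨false,1,⟨1,[(31,0),(0,0)]⟩,
  ⟨0,[(34,0)]⟩⟩ ⟨false,1,⟨3,[(10,1),(2,0),(0,0),(9,0),(4,3),(2,1)]⟩,⟨0,[(0,0),(6,0)]⟩⟩,.e ⟨true,0,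
  ⟨0,[]⟩,⟨0,[(34,0)]⟩⟩ ⟨true,0,⟨1,[(2,0),(1,0),(13,0),(10,0)]⟩,⟨0,[(0,0),(6,0)]⟩⟩,.a ⟨true,0,⟨8,[(1,
  3),(5,1),(0,2),(10,0),(1,3),(0,4),(0,4)]⟩,⟨0,[(4,0)]⟩⟩ ⟨false,1,⟨1,[(31,0),(0,0)]⟩,⟨1,[(20,0),(0,
  0)]⟩⟩ ⟨true,0,⟨0,[(4,0),(24,0)]⟩,⟨10,[(1,0),(1,0),(2,0),(0,3),(11,0),(1,7),(8,2)]⟩⟩]⟩) (.I [1,0,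
  -1,-1,0,0,0,1] (.R ⟨0,false,false,false,[0,0,1],[1,-1,1],[0,0,1],(⟨0,[(24,0)]⟩,⟨0,[(23,0)]⟩),(⟨0,
  [(24,0),(1,0)]⟩,⟨0,[(13,0)]⟩),⟨0,[(13,0)]⟩,.k,.k,.k,.k,.k,.k,⟨true,0,⟨0,[(3,0)]⟩,⟨0,[(0,0)]⟩⟩,
  ⟨false,1,⟨1,[(14,0),(0,0),(9,0)]⟩,⟨8,[(2,3),(5,1),(0,2),(8,4),(1,0)]⟩⟩,⟨true,0,⟨15,[(3,7),(0,2),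
  (2,3),(3,1),(8,0),(10,4),(1,0)]⟩,⟨1,[(0,0),(8,0),(19,0)]⟩⟩,⟨false,1,⟨1,[(25,0),(5,1),(1,0)]⟩,⟨0,
  [(2,0),(16,0)]⟩⟩,⟨false,0,⟨0,[]⟩,⟨0,[]⟩⟩,⟨false,0,⟨0,[]⟩,⟨0,[]⟩⟩,[.a ⟨true,0,⟨0,[(0,0),(20,0)]⟩,
  ⟨5,[(2,4),(6,1),(0,0),(0,0),(8,1)]⟩⟩ ⟨true,0,⟨1,[(21,0),(0,0)]⟩,⟨0,[]⟩⟩ ⟨false,1,⟨3,[(8,1),(0,1),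
  (4,0),(0,0),(9,1),(7,0)]⟩,⟨1,[(2,0),(7,0),(0,0)]⟩⟩,.o ⟨false,1,⟨1,[(0,1),(20,1),(3,0),(7,0)]⟩,⟨0,
  [(10,0)]⟩⟩,.o ⟨false,0,⟨0,[(5,0)]⟩,⟨1,[(22,1),(2,0),(6,0)]⟩⟩,.o ⟨false,0,⟨0,[(21,0)]⟩,⟨2,[(0,1),
  (1,0),(7,0),(11,0),(2,1),(6,0)]⟩⟩]⟩) (.R ⟨0,false,false,false,[0,0,1],[1,-1,1],[1],(⟨0,[(24,0)]⟩,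
  ⟨0,[(23,0)]⟩),(⟨0,[(24,0),(1,0)]⟩,⟨0,[(13,0)]⟩),⟨0,[(13,0)]⟩,.k,.k,.k,.k,.k,.k,⟨true,0,⟨0,[(0,
  0)]⟩,⟨0,[(1,0),(20,0)]⟩⟩,⟨false,1,⟨1,[(14,0),(0,0),(9,0)]⟩,⟨8,[(2,3),(5,1),(0,2),(8,4),(1,0)]⟩⟩,
  ⟨true,0,⟨2,[(0,0),(3,0),(2,0),(10,0)]⟩,⟨0,[(9,0)]⟩⟩,⟨false,1,⟨1,[(25,0),(5,1),(1,0)]⟩,⟨0,[(2,0),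
  (16,0)]⟩⟩,⟨false,0,⟨0,[]⟩,⟨0,[]⟩⟩,⟨false,0,⟨0,[]⟩,⟨0,[]⟩⟩,[.a ⟨true,0,⟨1,[(1,1),(19,0),(0,0)]⟩,⟨5,
  [(2,4),(6,1),(0,0),(0,0),(8,1)]⟩⟩ ⟨true,0,⟨0,[]⟩,⟨1,[(21,0),(0,0)]⟩⟩ ⟨false,1,⟨3,[(8,1),(0,1),(4,
  0),(0,0),(9,1),(7,0)]⟩,⟨1,[(2,0),(7,0),(0,0)]⟩⟩,.o ⟨false,1,⟨1,[(1,1),(19,0),(0,0),(2,0),(7,0)]⟩,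
  ⟨0,[(10,0)]⟩⟩,.o ⟨false,0,⟨0,[(5,0)]⟩,⟨1,[(22,1),(2,0),(6,0)]⟩⟩,.o ⟨false,0,⟨0,[(21,0)]⟩,⟨2,[(2,
  0),(5,0),(13,1),(2,1),(3,0),(2,0)]⟩⟩]⟩)))) (.Q [0,0,0,0,0,0,-1,-1,0,0,1] (.p true [0,0,1] [] (⟨0,
  [(21,0)]⟩,⟨0,[(20,0)]⟩) .k 0 (⟨0,[]⟩,⟨0,[]⟩) .k .k) (.R ⟨0,false,false,false,[1,-1],[1,-1,1],[1,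
  1],(⟨0,[(24,0)]⟩,⟨0,[(25,0)]⟩),(⟨0,[(22,0),(1,0)]⟩,⟨0,[(11,0)]⟩),⟨0,[(10,0),(0,0)]⟩,.k,.k,(.r 0
  ⟨4,[(2,1),(2,1),(0,3),(9,1)]⟩ ⟨0,[(19,0),(0,0),(7,1),(2,0)]⟩),.k,.k,.k,⟨false,0,⟨0,[(3,0),(4,0)]⟩,
  ⟨3,[(6,1),(0,1),(4,0),(0,0),(17,2)]⟩⟩,⟨true,0,⟨0,[(3,0)]⟩,⟨0,[(20,0)]⟩⟩,⟨true,0,⟨1,[(19,0),(0,0),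
  (7,1)]⟩,⟨4,[(2,0),(2,0),(0,1),(9,0)]⟩⟩,⟨false,1,⟨0,[(17,0),(13,0)]⟩,⟨0,[(0,0)]⟩⟩,⟨false,0,⟨0,[]⟩,
  ⟨0,[]⟩⟩,⟨false,0,⟨0,[]⟩,⟨0,[]⟩⟩,[.e ⟨false,0,⟨21,[(1,2),(0,0),(1,0),(0,1),(20,7),(0,4),(2,0)]⟩,⟨1,
  [(12,0),(0,0),(17,0)]⟩⟩ ⟨false,0,⟨0,[(1,0),(1,0)]⟩,⟨1,[(8,1),(3,0),(0,0),(5,0),(0,0),(10,0)]⟩⟩,.o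
  ⟨false,1,⟨1,[(1,1),(17,2),(0,0),(2,0),(7,0)]⟩,⟨0,[(8,0)]⟩⟩,.a ⟨true,0,⟨1,[(19,0),(0,0)]⟩,⟨2,[(1,
  0),(3,0),(15,1),(0,1),(4,0),(3,0)]⟩⟩ ⟨false,0,⟨0,[]⟩,⟨1,[(12,0),(0,0),(17,0)]⟩⟩ ⟨true,0,⟨0,[(1,0),
  (17,0)]⟩,⟨1,[(8,1),(10,0),(0,0)]⟩⟩,.e ⟨true,0,⟨21,[(1,2),(0,0),(1,0),(0,1),(20,7),(0,4),(2,0)]⟩,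
  ⟨1,[(19,0),(0,0)]⟩⟩ ⟨true,0,⟨0,[(1,0),(1,0)]⟩,⟨0,[(8,0),(10,0),(0,0)]⟩⟩]⟩) (.R ⟨2,true,false,
  false,[0,1],[1,-1],[0,0,0,-1],(⟨0,[]⟩,⟨0,[]⟩),(⟨0,[(24,0)]⟩,⟨0,[(25,0)]⟩),⟨0,[]⟩,.k,.k,.k,(.r
  (-1) ⟨0,[(19,0),(0,0),(7,1),(2,0)]⟩ ⟨4,[(2,1),(2,1),(0,3),(9,1)]⟩),.k,.k,⟨true,0,⟨1,[(19,0),(0,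
  0)]⟩,⟨0,[]⟩⟩,⟨false,1,⟨1,[(12,0),(0,0),(5,0),(0,0),(2,0)]⟩,⟨2,[(1,1),(3,1),(15,0),(0,0),(4,1),(3,
  1)]⟩⟩,⟨false,0,⟨0,[(0,1),(0,0),(0,0),(2,1),(14,0),(10,0)]⟩,⟨1,[(19,0),(0,0),(7,3),(2,1)]⟩⟩,⟨true,
  0,⟨3,[(0,5),(1,3),(2,3),(0,1),(12,0),(0,2)]⟩,⟨0,[(0,0),(4,0),(14,0),(6,0),(0,0),(2,0)]⟩⟩,⟨true,0,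
  ⟨4,[(2,0),(2,0),(0,1),(9,0)]⟩,⟨1,[(19,0),(0,0),(7,1)]⟩⟩,⟨false,1,⟨1,[(23,0),(5,1),(1,0)]⟩,⟨0,[(0,
  0),(4,0),(14,0),(6,0),(3,0)]⟩⟩,[]⟩))) (.I [0,0,1,1,0,0,0,-2] (.Q [0,0,-2,0,0,0,1,0,0,1,-1] (.p
  false [0,0,1] [1] (⟨0,[(21,0)]⟩,⟨0,[(20,0)]⟩) .k 1 (⟨0,[]⟩,⟨0,[]⟩) .k .k) (.Q [0,0,-1,1,0,0,1,0,0,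
  1,-1] (.p false [0,0,1] [1] (⟨0,[(22,0)]⟩,⟨0,[(21,0)]⟩) .k 1 (⟨0,[]⟩,⟨0,[]⟩) .k .k) (.R ⟨0,false,
  false,true,[1,0,-1],[0,1],[1,1,1,1],(⟨0,[(22,0)]⟩,⟨0,[(23,0)]⟩),(⟨0,[(26,0)]⟩,⟨0,[(25,0)]⟩),⟨0,
  [(11,0)]⟩,.k,.k,.k,.k,.k,.k,⟨true,0,⟨0,[]⟩,⟨1,[(20,0),(0,0)]⟩⟩,⟨false,0,⟨0,[(1,0)]⟩,⟨1,[(13,0),(0,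
  0),(6,1),(2,0)]⟩⟩,⟨true,0,⟨0,[(3,0),(17,0),(2,0)]⟩,⟨0,[(2,0),(4,0)]⟩⟩,⟨false,0,⟨1,[(3,1),(20,0),
  (7,0)]⟩,⟨1,[(2,1),(4,1),(13,1),(2,0),(7,0)]⟩⟩,⟨false,0,⟨0,[]⟩,⟨0,[]⟩⟩,⟨false,0,⟨0,[]⟩,⟨0,[]⟩⟩,[.o
  ⟨false,0,⟨0,[(29,0)]⟩,⟨1,[(24,0),(5,1),(1,0)]⟩⟩,.e ⟨false,1,⟨1,[(13,0),(0,0),(14,1),(2,0)]⟩,⟨2,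
  [(2,0),(4,1)]⟩⟩ ⟨false,0,⟨0,[(0,0)]⟩,⟨5,[(7,1),(5,1),(0,1),(4,1),(1,3),(2,2),(5,1),(1,0)]⟩⟩,.o
  ⟨false,1,⟨1,[(21,1),(2,0),(6,0)]⟩,⟨0,[(4,0)]⟩⟩,.a ⟨true,0,⟨0,[(21,0)]⟩,⟨0,[(17,0)]⟩⟩ ⟨true,0,⟨0,
  [(29,0)]⟩,⟨0,[(30,0)]⟩⟩ ⟨false,0,⟨0,[(0,0)]⟩,⟨1,[(21,1),(2,0),(5,1),(1,0)]⟩⟩]⟩) (.R ⟨0,false,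
  false,true,[1,0,-1],[0,1],[1,1,1,1],(⟨0,[(22,0)]⟩,⟨0,[(23,0)]⟩),(⟨0,[(26,0)]⟩,⟨0,[(25,0)]⟩),⟨0,
  [(11,0)]⟩,.k,.k,.k,.k,.k,.k,⟨true,0,⟨0,[]⟩,⟨1,[(20,0),(0,0)]⟩⟩,⟨false,0,⟨0,[(1,0)]⟩,⟨1,[(13,0),(0,
  0),(6,1),(2,0)]⟩⟩,⟨true,0,⟨0,[(3,0),(17,0),(2,0)]⟩,⟨0,[(2,0),(4,0)]⟩⟩,⟨false,0,⟨1,[(3,1),(20,0),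
  (7,0)]⟩,⟨3,[(0,1),(1,1),(4,1),(11,1),(4,0),(7,2)]⟩⟩,⟨false,0,⟨0,[]⟩,⟨0,[]⟩⟩,⟨false,0,⟨0,[]⟩,⟨0,
  []⟩⟩,[.o ⟨false,0,⟨0,[(29,0)]⟩,⟨1,[(24,0),(5,1),(1,0)]⟩⟩,.a ⟨true,0,⟨1,[(3,0),(5,0),(22,0)]⟩,⟨0,
  [(30,0)]⟩⟩ ⟨false,1,⟨1,[(13,0),(0,0),(14,1),(2,0)]⟩,⟨2,[(2,0),(4,1)]⟩⟩ ⟨true,0,⟨7,[(2,1),(0,3),(6,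
  1),(13,0),(3,1),(3,2)]⟩,⟨0,[(0,0)]⟩⟩,.o ⟨false,1,⟨1,[(21,1),(2,0),(6,0)]⟩,⟨0,[(4,0)]⟩⟩,.e ⟨true,0,
  ⟨0,[(29,0)]⟩,⟨0,[(30,0)]⟩⟩ ⟨true,0,⟨3,[(3,0),(5,0),(0,1),(17,1),(2,0)]⟩,⟨0,[(0,0)]⟩⟩]⟩)) (.K ⟨0,
  [-1,1,1],0,0,(⟨0,[(10,0)]⟩,⟨0,[(21,0),(2,0)]⟩),.k,.k,(.r (-1) ⟨3,[(0,3),(1,1),(9,0),(0,0),(3,1),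
  (10,5),(2,4)]⟩ ⟨2,[(1,3),(4,4)]⟩),.k,.k,[⟨5,[(2,1),(2,1),(0,1),(1,1),(21,0),(0,2)]⟩,⟨0,[(0,0)]⟩,
  ⟨5,[(0,2),(0,1),(3,2),(0,3),(11,2),(4,2)]⟩,⟨3,[(2,1),(9,0),(0,0),(3,1),(10,1),(2,0)]⟩]⟩)) (.R ⟨0,
  false,false,true,[1,0,-1],[0,1,-1],[1,1,1,1,0,0,0,-1],(⟨0,[(20,0)]⟩,⟨0,[(21,0)]⟩),(⟨0,[(10,0)]⟩,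
  ⟨0,[(21,0),(1,0)]⟩),⟨0,[(9,0)]⟩,.k,.k,.k,.k,.k,.k,⟨true,0,⟨0,[]⟩,⟨1,[(18,0),(0,0)]⟩⟩,⟨false,0,⟨2,
  [(0,0),(3,2),(0,0),(20,2),(3,2)]⟩,⟨1,[(11,0),(0,0),(5,0),(0,0),(2,0)]⟩⟩,⟨true,0,⟨1,[(18,0),(0,0),
  (7,1)]⟩,⟨3,[(4,1),(0,1),(16,0),(7,0)]⟩⟩,⟨false,0,⟨1,[(1,0),(5,0),(22,0)]⟩,⟨1,[(22,0),(5,1),(1,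
  0)]⟩⟩,⟨false,0,⟨0,[]⟩,⟨0,[]⟩⟩,⟨false,0,⟨0,[]⟩,⟨0,[]⟩⟩,[.o ⟨false,0,⟨0,[(7,0)]⟩,⟨5,[(0,1),(4,1),
  (12,5),(3,2),(7,2)]⟩⟩,.e ⟨false,1,⟨3,[(7,3),(0,1),(2,0),(0,0),(9,0),(7,1)]⟩,⟨2,[(0,0),(4,0)]⟩⟩
  ⟨false,0,⟨0,[(4,0),(21,0),(3,0)]⟩,⟨3,[(0,1),(10,1),(0,1),(5,0),(0,0),(2,1),(5,1)]⟩⟩,.o ⟨false,1,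
  ⟨1,[(19,1),(2,0),(6,0)]⟩,⟨0,[(2,0)]⟩⟩,.a ⟨true,0,⟨0,[(19,0)]⟩,⟨0,[(15,0)]⟩⟩ ⟨true,0,⟨0,[(2,0),(4,
  0)]⟩,⟨3,[(0,1),(17,0),(0,0),(8,1)]⟩⟩ ⟨false,0,⟨0,[(4,0),(21,0),(3,0)]⟩,⟨3,[(0,1),(17,2),(0,2),(2,
  1),(5,1),(1,1)]⟩⟩]⟩))) (.Q [0,0,0,1,0,0,-1,-1,0,0,1] (.p true [0,0,1] [] (⟨0,[(19,0)]⟩,⟨0,[(18,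
  0)]⟩) .k 0 (⟨0,[]⟩,⟨0,[]⟩) .k .k) (.R ⟨0,false,false,false,[1,0,-1],[1,-1],[1,1],(⟨0,[(19,0)]⟩,⟨0,
  [(20,0)]⟩),(⟨0,[(22,0)]⟩,⟨0,[(23,0)]⟩),⟨0,[(8,0)]⟩,.k,.k,.k,.k,.k,.k,⟨false,0,⟨0,[(26,0)]⟩,⟨1,
  [(27,1),(0,0),(0,0)]⟩⟩,⟨true,0,⟨0,[(17,0)]⟩,⟨0,[(1,0)]⟩⟩,⟨true,0,⟨0,[(5,0)]⟩,⟨1,[(3,1),(17,0),(7,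
  0)]⟩⟩,⟨false,1,⟨0,[(15,0),(11,0),(1,0)]⟩,⟨0,[(0,0)]⟩⟩,⟨false,0,⟨0,[]⟩,⟨0,[]⟩⟩,⟨false,0,⟨0,[]⟩,⟨0,
  []⟩⟩,[.e ⟨false,0,⟨6,[(2,0),(1,0),(1,0),(17,1),(0,1)]⟩,⟨1,[(10,0),(0,0),(17,0)]⟩⟩ ⟨false,0,⟨0,[(2,
  0)]⟩,⟨0,[(5,0),(0,0),(22,0)]⟩⟩,.o ⟨false,1,⟨1,[(21,0),(5,1),(1,0)]⟩,⟨0,[(26,0)]⟩⟩,.a ⟨true,0,⟨0,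
  [(1,0)]⟩,⟨1,[(7,0),(11,0),(0,0)]⟩⟩ ⟨false,0,⟨0,[]⟩,⟨1,[(10,0),(0,0),(17,0)]⟩⟩ ⟨true,0,⟨1,[(2,0),
  (14,0),(9,0)]⟩,⟨0,[(1,0),(24,0)]⟩⟩,.e ⟨true,0,⟨6,[(2,0),(1,0),(1,0),(17,1),(0,1)]⟩,⟨1,[(17,0),(0,
  0)]⟩⟩ ⟨true,0,⟨0,[(2,0)]⟩,⟨0,[(18,0),(7,0)]⟩⟩]⟩) (.R ⟨2,true,false,false,[0,1],[0,0,1],[0,1,1],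
  (⟨0,[]⟩,⟨0,[]⟩),(⟨0,[(20,0)]⟩,⟨0,[(19,0)]⟩),⟨0,[]⟩,.k,.k,.k,.k,.k,.k,⟨false,0,⟨2,[(3,0),(3,0),(8,
  1),(4,0)]⟩,⟨0,[(0,0),(0,0),(23,0),(3,0)]⟩⟩,⟨true,0,⟨0,[(17,0)]⟩,⟨0,[(1,0)]⟩⟩,⟨false,0,⟨0,[(27,
  0)]⟩,⟨0,[(26,0),(2,0)]⟩⟩,⟨true,0,⟨0,[(0,0)]⟩,⟨0,[(6,0)]⟩⟩,⟨true,0,⟨0,[(31,0)]⟩,⟨0,[]⟩⟩,⟨false,1,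
  ⟨0,[(15,0),(13,0)]⟩,⟨1,[(1,1),(1,1),(17,0),(7,0)]⟩⟩,[]⟩))) (.Q [0,0,0,-1,0,0,1,1,0,0,-1] (.p
  false [0,0,1] [] (⟨0,[(18,0)]⟩,⟨0,[(17,0)]⟩) .k 0 (⟨0,[]⟩,⟨0,[]⟩) .k .k) (.R ⟨2,true,false,false,
  [0,1],[0,0,1],[0,1,1],(⟨0,[]⟩,⟨0,[]⟩),(⟨0,[(19,0)]⟩,⟨0,[(18,0)]⟩),⟨0,[]⟩,.k,.k,.k,.k,.k,.k,⟨false,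
  0,⟨2,[(2,0),(3,0),(8,1),(4,0)]⟩,⟨2,[(0,0),(0,0),(1,0),(0,0),(19,1),(3,2)]⟩⟩,⟨true,0,⟨0,[(16,0)]⟩,
  ⟨3,[(1,3),(0,1),(0,1),(16,0),(7,0)]⟩⟩,⟨false,0,⟨0,[(26,0)]⟩,⟨0,[(25,0),(2,0)]⟩⟩,⟨true,0,⟨0,[(0,
  0)]⟩,⟨0,[(5,0)]⟩⟩,⟨true,0,⟨0,[(30,0)]⟩,⟨0,[]⟩⟩,⟨false,1,⟨0,[(14,0),(13,0)]⟩,⟨3,[(1,3),(0,5),(0,1),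
  (16,2),(7,2)]⟩⟩,[]⟩) (.K ⟨0,[0,1,-1],0,0,(⟨0,[(8,0)]⟩,⟨0,[(19,0),(1,0)]⟩),.k,.k,(.r (-1) ⟨3,[(1,
  1),(3,3),(3,0),(0,0),(5,5),(8,1),(2,2)]⟩ ⟨0,[(3,0)]⟩),(.r 0 ⟨1,[(0,1),(1,1),(13,1),(3,0),(7,0)]⟩
  ⟨3,[(3,1),(0,5),(4,0),(0,0),(17,2)]⟩),.k,[⟨0,[(0,0),(0,0),(1,0)]⟩,⟨1,[(16,2),(0,0)]⟩,⟨0,[(14,0),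
  (11,0)]⟩,⟨0,[(5,0)]⟩]⟩)))

theorem ok6 : chk K t6 r3 = true := by decide +kernel

noncomputable def t8 : Tre :=
  (.Q [0,-1,0,0,1,0,-1,-1,0,-1,1] (.p true [0,0,1] [1] (⟨0,[(18,0)]⟩,⟨0,[(17,0)]⟩) .k 1 (⟨0,[]⟩,⟨0,
  []⟩) .k .k) (.Q [0,-1,0,1,0,0,0,0,0,1] (.pp false [-1,1]) (.I [0,0,0,-1,0,0,0,-1] (.I [1,1,2,1,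
  -1] (.R ⟨0,false,false,true,[1,-1],[0,1],[],(⟨0,[(24,0)]⟩,⟨0,[(25,0)]⟩),(⟨0,[(25,0)]⟩,⟨0,[(24,
  0)]⟩),⟨0,[(10,0),(0,0)]⟩,.k,.k,(.r (-1) ⟨0,[(29,1),(0,0)]⟩ ⟨0,[(0,1),(1,3),(20,1),(3,1),(1,5)]⟩),
  (.r (-1) ⟨0,[(29,1),(0,0)]⟩ ⟨0,[(0,1),(1,3),(20,1),(3,1),(1,5)]⟩),.k,.k,⟨true,1,⟨1,[(29,1),(0,0),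
  (0,0)]⟩,⟨0,[(0,0)]⟩⟩,⟨false,1,⟨0,[(2,0),(24,0),(1,1),(0,0)]⟩,⟨1,[(0,1),(22,0),(5,1),(1,0)]⟩⟩,
  ⟨true,0,⟨0,[(0,0),(1,1),(20,0),(3,0),(1,2)]⟩,⟨0,[(27,0),(1,1)]⟩⟩,⟨false,0,⟨0,[(2,0),(25,0)]⟩,⟨1,
  [(23,0),(5,3),(1,0)]⟩⟩,⟨false,0,⟨0,[]⟩,⟨0,[]⟩⟩,⟨false,0,⟨0,[]⟩,⟨0,[]⟩⟩,[.o ⟨false,0,⟨0,[(28,0)]⟩,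
  ⟨1,[(23,0),(5,1),(1,0)]⟩⟩,.a ⟨true,0,⟨1,[(2,0),(1,0),(3,0)]⟩,⟨0,[(29,0)]⟩⟩ ⟨false,1,⟨1,[(30,0),(0,
  0)]⟩,⟨0,[(33,0)]⟩⟩ ⟨true,0,⟨0,[(2,0),(24,0),(1,0)]⟩,⟨1,[(0,1),(22,0),(5,3),(1,0)]⟩⟩,.e ⟨false,1,
  ⟨1,[(12,0),(0,0),(17,0)]⟩,⟨0,[]⟩⟩ ⟨false,0,⟨0,[(2,0),(24,0),(1,0)]⟩,⟨1,[(19,0),(0,0),(2,0),(5,1),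
  (1,0)]⟩⟩,.o ⟨false,0,⟨1,[(0,1),(22,0),(5,1),(1,0)]⟩,⟨0,[(30,0)]⟩⟩]⟩) (.Q [0,0,0,0,0,0,-1,0,0,0,1]
  (.p true [0,0,1] [] (⟨0,[(22,0)]⟩,⟨0,[(21,0)]⟩) .k 0 (⟨0,[]⟩,⟨0,[]⟩) .k .k) (.I [1,0,1,1,0,0,0,1]
  (.R ⟨0,false,false,false,[-1,1,1],[0,1],[0,0,1],(⟨0,[(12,0)]⟩,⟨0,[(23,0),(2,0)]⟩),(⟨0,[(27,0)]⟩,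
  ⟨0,[(26,0)]⟩),⟨0,[(23,0)]⟩,.k,.k,.k,.k,.k,.k,⟨true,0,⟨0,[(31,0)]⟩,⟨0,[(7,0)]⟩⟩,⟨false,1,⟨1,[(1,1),
  (23,0),(6,0)]⟩,⟨4,[(3,0),(0,0),(1,1),(4,1),(8,0)]⟩⟩,⟨true,0,⟨0,[(3,0)]⟩,⟨1,[(0,0),(8,0),(19,0)]⟩⟩,
  ⟨false,1,⟨0,[(5,0)]⟩,⟨0,[(6,0)]⟩⟩,⟨false,0,⟨0,[]⟩,⟨0,[]⟩⟩,⟨false,0,⟨0,[]⟩,⟨0,[]⟩⟩,[.a ⟨true,0,⟨1,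
  [(4,0),(1,0),(3,0)]⟩,⟨0,[(31,0)]⟩⟩ ⟨true,0,⟨1,[(21,0),(0,0)]⟩,⟨0,[]⟩⟩ ⟨false,1,⟨2,[(0,1),(0,0),(3,
  0),(4,0),(14,0),(6,0)]⟩,⟨0,[(18,0),(12,0)]⟩⟩,.e ⟨false,1,⟨1,[(14,0),(0,0),(17,0)]⟩,⟨0,[(29,0),(1,
  0)]⟩⟩ ⟨false,1,⟨0,[(1,0),(2,0),(20,0)]⟩,⟨1,[(3,0),(2,0),(11,0),(9,0),(2,0)]⟩⟩,.o ⟨false,0,⟨0,[(18,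
  0)]⟩,⟨0,[(22,0),(2,0)]⟩⟩,.o ⟨false,0,⟨4,[(3,0),(0,0),(1,1),(4,1),(8,0)]⟩,⟨0,[(1,0),(23,0)]⟩⟩]⟩)
  (.R ⟨0,false,false,false,[-1,1,1],[0,1],[1,0,1,1],(⟨0,[(12,0)]⟩,⟨0,[(23,0),(2,0)]⟩),(⟨0,[(27,0)]⟩,
  ⟨0,[(26,0)]⟩),⟨0,[(23,0)]⟩,.k,.k,.k,.k,.k,.k,⟨true,0,⟨0,[]⟩,⟨1,[(21,0),(0,0)]⟩⟩,⟨false,1,⟨1,[(1,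
  1),(23,0),(6,0)]⟩,⟨4,[(3,0),(0,0),(1,1),(4,1),(8,0)]⟩⟩,⟨true,0,⟨2,[(0,1),(7,0)]⟩,⟨0,[(9,0)]⟩⟩,
  ⟨false,1,⟨0,[(5,0)]⟩,⟨0,[(6,0)]⟩⟩,⟨false,0,⟨0,[]⟩,⟨0,[]⟩⟩,⟨false,0,⟨0,[]⟩,⟨0,[]⟩⟩,[.a ⟨true,0,⟨1,
  [(4,0),(1,0),(3,0)]⟩,⟨0,[(31,0)]⟩⟩ ⟨true,0,⟨0,[(7,0)]⟩,⟨0,[(31,0)]⟩⟩ ⟨false,1,⟨1,[(1,1),(23,0),(4,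
  1),(2,0)]⟩,⟨0,[(0,0),(5,0)]⟩⟩,.e ⟨false,1,⟨0,[(30,0),(2,0)]⟩,⟨0,[(0,0),(8,0)]⟩⟩ ⟨false,1,⟨0,[(1,
  0),(2,0),(20,0)]⟩,⟨1,[(0,0),(2,0),(2,1),(21,0)]⟩⟩,.o ⟨false,0,⟨0,[(18,0)]⟩,⟨0,[(22,0),(2,0)]⟩⟩,.o
  ⟨false,0,⟨4,[(3,0),(0,0),(1,1),(4,1),(8,0)]⟩,⟨0,[(1,0),(23,0)]⟩⟩]⟩)) (.I [1,0,-1,0,0,0,0,-1] (.R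
  ⟨0,false,false,false,[1,0,-1],[2,-1,-1],[1,0,0,0,0,0,0,-1],(⟨0,[(23,0)]⟩,⟨0,[(24,0)]⟩),(⟨0,[(23,
  0),(2,0)]⟩,⟨0,[(12,0)]⟩),⟨0,[(12,0)]⟩,.k,.k,.k,.k,.k,.k,⟨true,0,⟨0,[(7,0)]⟩,⟨0,[(31,0)]⟩⟩,⟨false,
  1,⟨1,[(14,0),(0,0),(9,0)]⟩,⟨0,[(0,0),(3,0),(4,0),(21,0)]⟩⟩,⟨true,0,⟨0,[]⟩,⟨0,[(35,0)]⟩⟩,⟨false,1,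
  ⟨1,[(25,0),(5,1),(1,0)]⟩,⟨1,[(4,0),(1,0),(3,0)]⟩⟩,⟨false,0,⟨0,[]⟩,⟨0,[]⟩⟩,⟨false,0,⟨0,[]⟩,⟨0,[]⟩⟩,
  [.o ⟨false,1,⟨0,[(0,0),(21,0),(2,0),(5,0)]⟩,⟨0,[(4,0),(14,0)]⟩⟩,.e ⟨false,1,⟨0,[(5,0),(12,0)]⟩,⟨0,
  [(9,0)]⟩⟩ ⟨false,1,⟨1,[(0,1),(24,0),(5,1),(1,0)]⟩,⟨1,[(4,0),(1,0),(2,1),(0,0)]⟩⟩,.o ⟨false,1,⟨0,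
  [(5,0),(3,0)]⟩,⟨0,[(1,0)]⟩⟩,.a ⟨true,0,⟨0,[(22,0)]⟩,⟨0,[(18,0)]⟩⟩ ⟨true,0,⟨0,[(0,0)]⟩,⟨1,[(9,1),
  (11,0),(0,0)]⟩⟩ ⟨false,1,⟨1,[(0,1),(24,0),(5,1),(1,0)]⟩,⟨1,[(4,0),(1,0),(0,0),(1,0),(12,0)]⟩⟩]⟩)
  (.Q [0,0,-1,0,1,0,-1,0,0,-1,1] (.p true [0,0,1] [1] (⟨0,[(24,0)]⟩,⟨0,[(23,0)]⟩) .k 1 (⟨0,[]⟩,⟨0,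
  []⟩) .k .k) (.R ⟨0,false,false,false,[0,0,1],[1,-1],[0,0,0,-1],(⟨0,[(25,0)]⟩,⟨0,[(24,0)]⟩),(⟨0,
  [(27,0)]⟩,⟨0,[(28,0)]⟩),⟨0,[(14,0)]⟩,.k,.k,.k,.k,.k,.k,⟨true,0,⟨1,[(22,0),(0,0)]⟩,⟨0,[]⟩⟩,⟨false,
  1,⟨7,[(0,3),(0,3),(4,1),(8,0),(0,0),(4,1),(4,0)]⟩,⟨0,[(19,0)]⟩⟩,⟨true,0,⟨0,[(4,0)]⟩,⟨0,[(1,0),(28,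
  0)]⟩⟩,⟨false,1,⟨0,[(6,0),(25,0)]⟩,⟨0,[(5,0),(14,0)]⟩⟩,⟨false,0,⟨0,[]⟩,⟨0,[]⟩⟩,⟨false,0,⟨0,[]⟩,⟨0,
  []⟩⟩,[.a ⟨true,0,⟨0,[(32,0)]⟩,⟨1,[(5,0),(1,0),(3,0)]⟩⟩ ⟨true,0,⟨0,[(32,0)]⟩,⟨0,[(8,0)]⟩⟩ ⟨false,1,
  ⟨0,[(0,0),(31,0)]⟩,⟨1,[(5,0),(6,0),(18,0)]⟩⟩,.o ⟨false,1,⟨1,[(26,0),(5,1),(1,0)]⟩,⟨0,[(31,0)]⟩⟩,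
  .o ⟨false,0,⟨0,[(2,0)]⟩,⟨7,[(0,3),(0,3),(4,1),(8,0),(0,0),(4,1),(4,0)]⟩⟩,.o ⟨false,0,⟨0,[(22,0)]⟩,
  ⟨0,[(0,0)]⟩⟩]⟩) (.R ⟨0,false,false,true,[1,0,-1],[0,1,-1],[0,1],(⟨0,[(24,0)]⟩,⟨0,[(25,0)]⟩),(⟨0,
  [(14,0)]⟩,⟨0,[(25,0),(1,0)]⟩),⟨0,[(13,0)]⟩,.k,.k,.k,.k,.k,.k,⟨false,1,⟨0,[(3,0),(6,0)]⟩,⟨3,[(0,0),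
  (3,0),(1,0),(2,1),(20,0)]⟩⟩,⟨true,0,⟨0,[(5,0),(24,0),(1,1)]⟩,⟨0,[(0,0),(22,0),(2,0)]⟩⟩,⟨true,0,⟨0,
  [(10,0)]⟩,⟨1,[(0,0),(3,0),(1,0),(23,0)]⟩⟩,⟨false,0,⟨1,[(5,0),(1,0),(3,0)]⟩,⟨1,[(26,0),(5,1),(1,
  0)]⟩⟩,⟨false,0,⟨0,[]⟩,⟨0,[]⟩⟩,⟨false,0,⟨0,[]⟩,⟨0,[]⟩⟩,[.o ⟨false,0,⟨0,[(11,0)]⟩,⟨0,[(0,0),(0,0),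
  (1,0),(22,0)]⟩⟩,.e ⟨false,1,⟨1,[(15,0),(0,0),(16,0)]⟩,⟨0,[]⟩⟩ ⟨false,0,⟨0,[(4,0),(0,0),(24,0)]⟩,
  ⟨5,[(1,3),(1,1),(6,1),(4,0),(0,0),(9,2),(5,3)]⟩⟩,.o ⟨false,1,⟨0,[(6,0),(3,0)]⟩,⟨0,[(2,0)]⟩⟩,.a
  ⟨true,0,⟨0,[(23,0)]⟩,⟨0,[(19,0)]⟩⟩ ⟨true,0,⟨0,[(30,0),(1,0)]⟩,⟨1,[(22,0),(0,0)]⟩⟩ ⟨false,0,⟨0,[(4,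
  0),(0,0),(24,0)]⟩,⟨1,[(1,1),(24,0),(5,1),(1,0)]⟩⟩]⟩))))) (.Q [0,0,0,0,0,0,1,0,0,0,-1] (.p false
  [0,0,1] [] (⟨0,[(21,0)]⟩,⟨0,[(20,0)]⟩) .k 0 (⟨0,[]⟩,⟨0,[]⟩) .k .k) (.R ⟨0,false,false,true,[0,0,
  1],[1,-1],[0,1,0,-1],(⟨0,[(22,0)]⟩,⟨0,[(21,0)]⟩),(⟨0,[(24,0)]⟩,⟨0,[(25,0)]⟩),⟨0,[(11,0)]⟩,.k,.k,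
  .k,.k,.k,.k,⟨true,0,⟨1,[(19,0),(0,0)]⟩,⟨0,[]⟩⟩,⟨false,1,⟨0,[(3,0),(3,0)]⟩,⟨0,[(16,0)]⟩⟩,⟨true,0,
  ⟨0,[(0,0),(17,0),(10,0)]⟩,⟨0,[(1,0)]⟩⟩,⟨false,1,⟨3,[(3,1),(8,0),(0,0),(4,1),(4,0),(5,3)]⟩,⟨0,[(0,
  0),(0,0),(0,0),(26,0)]⟩⟩,⟨false,0,⟨0,[]⟩,⟨0,[]⟩⟩,⟨false,0,⟨0,[]⟩,⟨0,[]⟩⟩,[.e ⟨false,0,⟨0,[(27,0),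
  (1,1)]⟩,⟨4,[(1,0),(4,1),(0,0),(22,1),(0,2)]⟩⟩ ⟨false,1,⟨0,[(1,0),(1,0),(22,0),(2,1)]⟩,⟨0,[(0,0),
  (1,0)]⟩⟩,.a ⟨true,0,⟨0,[(29,0)]⟩,⟨1,[(2,0),(1,0),(3,0)]⟩⟩ ⟨true,0,⟨0,[(29,0)]⟩,⟨0,[(5,0)]⟩⟩
  ⟨false,1,⟨0,[(1,0),(1,0),(23,0),(1,2)]⟩,⟨1,[(2,0),(6,0),(18,0)]⟩⟩,.o ⟨false,0,⟨0,[(0,0)]⟩,⟨0,[(3,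
  0),(3,0)]⟩⟩,.o ⟨false,0,⟨0,[(19,0)]⟩,⟨0,[(1,0),(1,0),(23,0),(1,1)]⟩⟩]⟩) (.Q [0,0,0,0,0,0,-1,-1,0,
  0,1] (.p true [0,0,1] [] (⟨0,[(22,0)]⟩,⟨0,[(21,0)]⟩) .k 0 (⟨0,[]⟩,⟨0,[]⟩) .k .k) (.R ⟨0,false,
  false,true,[-1,1,1],[0,0,1],[0,1,1],(⟨0,[(11,0)]⟩,⟨0,[(22,0),(2,0)]⟩),(⟨0,[(23,0)]⟩,⟨0,[(22,0)]⟩),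
  ⟨0,[(22,0)]⟩,.k,.k,.k,.k,.k,.k,⟨true,0,⟨0,[(0,0),(19,0)]⟩,⟨0,[(2,0),(27,0)]⟩⟩,⟨false,1,⟨1,[(13,0),
  (0,0),(9,0)]⟩,⟨0,[(1,0),(15,0)]⟩⟩,⟨true,0,⟨0,[(0,0),(19,0),(7,0),(1,1)]⟩,⟨0,[(2,0)]⟩⟩,⟨false,1,⟨1,
  [(13,0),(0,0),(9,0),(5,1)]⟩,⟨0,[(3,0)]⟩⟩,⟨false,0,⟨0,[]⟩,⟨0,[]⟩⟩,⟨false,0,⟨0,[]⟩,⟨0,[]⟩⟩,[.o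
  ⟨false,0,⟨0,[(18,0)]⟩,⟨0,[(4,0)]⟩⟩,.a ⟨true,0,⟨0,[(5,0)]⟩,⟨0,[(0,0)]⟩⟩ ⟨true,0,⟨1,[(20,0),(0,0)]⟩,
  ⟨0,[]⟩⟩ ⟨false,1,⟨1,[(8,1),(15,0),(7,0)]⟩,⟨0,[(0,0),(16,0)]⟩⟩,.o ⟨false,0,⟨0,[(17,0)]⟩,⟨0,[(21,0),
  (2,0)]⟩⟩,.o ⟨false,0,⟨3,[(3,0),(1,0),(4,1),(8,0),(10,0)]⟩,⟨0,[(1,0),(22,0)]⟩⟩]⟩) (.R ⟨2,false,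
  false,true,[0,1],[0,0,1],[0,0,1],(⟨0,[]⟩,⟨0,[]⟩),(⟨0,[(23,0)]⟩,⟨0,[(22,0)]⟩),⟨0,[]⟩,.k,.k,.k,.k,
  .k,.k,⟨false,1,⟨1,[(4,0),(5,0),(8,0),(12,0)]⟩,⟨0,[(2,0),(25,0),(1,1)]⟩⟩,⟨true,0,⟨0,[(20,0)]⟩,⟨0,
  [(1,0)]⟩⟩,⟨true,0,⟨0,[(30,0)]⟩,⟨0,[(29,0)]⟩⟩,⟨false,0,⟨0,[(0,0),(29,0)]⟩,⟨0,[(9,0),(22,0)]⟩⟩,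
  ⟨false,1,⟨1,[(13,0),(0,0),(17,0)]⟩,⟨0,[]⟩⟩,⟨false,0,⟨0,[(0,0)]⟩,⟨0,[(19,0),(12,0)]⟩⟩,[.o ⟨false,0,
  ⟨0,[(18,0)]⟩,⟨0,[(4,0)]⟩⟩,.o ⟨false,0,⟨0,[(0,0)]⟩,⟨3,[(4,1),(8,0),(0,0),(4,1),(4,0)]⟩⟩,.a ⟨true,0,
  ⟨0,[(1,0),(15,0)]⟩,⟨1,[(20,0),(0,0)]⟩⟩ ⟨true,0,⟨1,[(20,0),(0,0)]⟩,⟨0,[(28,0),(1,0)]⟩⟩ ⟨false,0,⟨1,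
  [(0,1),(19,0),(0,0)]⟩,⟨0,[(1,0),(2,0),(12,0)]⟩⟩,.e ⟨false,1,⟨1,[(13,0),(0,0),(17,0)]⟩,⟨0,[]⟩⟩
  ⟨false,0,⟨0,[(0,0)]⟩,⟨0,[(19,0),(12,0)]⟩⟩]⟩)))) (.I [0,0,1,1] (.Q [0,0,-1,-1,1,0,-1,0,0,-1,1] (.p
  true [0,0,1] [1] (⟨0,[(21,0)]⟩,⟨0,[(20,0)]⟩) .k 1 (⟨0,[]⟩,⟨0,[]⟩) .k .k) (.I [1,0,0,0,0,0,0,-1]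
  (.Q [0,0,0,1,0,0,0,0,0,1] (.pp false [-1,1]) (.Q [0,0,0,0,1,0,-1,0,0,-2,1] (.p true [-1,1,1] [1]
  (⟨0,[(12,0)]⟩,⟨0,[(23,0),(2,0)]⟩) .k 1 (⟨0,[]⟩,⟨0,[]⟩) .k .k) (.Q [0,0,-1,0,1,0,-1,0,0,-1,1] (.p
  true [0,0,1] [1] (⟨0,[(25,0)]⟩,⟨0,[(24,0)]⟩) .k 1 (⟨0,[]⟩,⟨0,[]⟩) .k .k) (.R ⟨0,false,false,false,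
  [-1,1,1],[0,1],[1,0,1,1],(⟨0,[(14,0)]⟩,⟨0,[(25,0),(2,0)]⟩),(⟨0,[(29,0)]⟩,⟨0,[(28,0)]⟩),⟨0,[(25,
  0)]⟩,.k,.k,.k,.k,.k,.k,⟨true,0,⟨0,[]⟩,⟨1,[(23,0),(0,0)]⟩⟩,⟨false,1,⟨0,[(0,0)]⟩,⟨1,[(2,0),(10,0),
  (19,0)]⟩⟩,⟨true,0,⟨0,[(3,0)]⟩,⟨0,[(11,0)]⟩⟩,⟨false,1,⟨0,[(7,0)]⟩,⟨0,[(8,0)]⟩⟩,⟨false,0,⟨0,[]⟩,⟨0,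
  []⟩⟩,⟨false,0,⟨0,[]⟩,⟨0,[]⟩⟩,[.a ⟨true,0,⟨0,[(2,0)]⟩,⟨0,[(33,0)]⟩⟩ ⟨true,0,⟨0,[(9,0)]⟩,⟨0,[(33,
  0)]⟩⟩ ⟨false,1,⟨0,[(0,0),(4,0)]⟩,⟨0,[(20,0),(12,0)]⟩⟩,.o ⟨false,1,⟨1,[(2,1),(24,0),(7,0)]⟩,⟨0,[(6,
  0)]⟩⟩,.o ⟨false,0,⟨0,[(20,0)]⟩,⟨0,[(24,0),(2,0)]⟩⟩,.o ⟨false,0,⟨1,[(2,0),(10,0),(19,0)]⟩,⟨0,[(1,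
  0)]⟩⟩]⟩) (.R ⟨0,false,false,false,[-1,1,1],[0,1],[0,0,1,1],(⟨0,[(14,0)]⟩,⟨0,[(25,0),(2,0)]⟩),(⟨0,
  [(29,0)]⟩,⟨0,[(28,0)]⟩),⟨0,[(25,0)]⟩,.k,.k,.k,.k,.k,.k,⟨false,1,⟨1,[(16,0),(0,0),(16,0)]⟩,⟨0,[]⟩⟩,
  ⟨true,1,⟨3,[(1,1),(0,0),(1,0),(11,0),(0,0),(6,0)]⟩,⟨0,[(0,0)]⟩⟩,⟨true,0,⟨0,[(0,0),(6,0),(23,0),(1,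
  0)]⟩,⟨0,[(11,0)]⟩⟩,⟨false,1,⟨0,[(7,0)]⟩,⟨0,[(8,0)]⟩⟩,⟨false,0,⟨0,[]⟩,⟨0,[]⟩⟩,⟨false,0,⟨0,[]⟩,⟨0,
  []⟩⟩,[.a ⟨true,0,⟨0,[(2,0)]⟩,⟨0,[(33,0)]⟩⟩ ⟨true,0,⟨0,[(5,0)]⟩,⟨0,[(33,0)]⟩⟩ ⟨false,1,⟨0,[(1,0),
  (0,0)]⟩,⟨0,[(20,0),(12,0)]⟩⟩,.o ⟨false,1,⟨1,[(2,1),(24,0),(7,0)]⟩,⟨0,[(6,0)]⟩⟩,.o ⟨false,0,⟨0,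
  [(20,0)]⟩,⟨0,[(24,0),(2,0)]⟩⟩,.o ⟨false,0,⟨5,[(0,0),(7,1),(4,1),(6,0),(1,1),(12,0)]⟩,⟨0,[(1,
  0)]⟩⟩]⟩)) (.I [1,0,-1,0,0,0,0,-1] (.Q [0,0,-1,0,0,0,0,0,0,1] (.pp false [-1,1]) (.R ⟨0,false,
  false,true,[-1,1,1],[0,0,1],[0,1,1,0,0,0,0,1],(⟨0,[(15,0)]⟩,⟨0,[(26,0),(2,0)]⟩),(⟨0,[(27,0)]⟩,⟨0,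
  [(26,0)]⟩),⟨0,[(26,0)]⟩,.k,.k,.k,.k,.k,.k,⟨true,0,⟨1,[(24,0),(0,0)]⟩,⟨0,[]⟩⟩,⟨false,1,⟨1,[(17,0),
  (0,0),(9,0)]⟩,⟨0,[(0,0)]⟩⟩,⟨false,0,⟨0,[(34,0)]⟩,⟨1,[(3,1),(24,0),(7,0)]⟩⟩,⟨true,0,⟨0,[(7,0)]⟩,⟨0,
  [(3,0)]⟩⟩,⟨false,0,⟨0,[]⟩,⟨0,[]⟩⟩,⟨false,0,⟨0,[]⟩,⟨0,[]⟩⟩,[.o ⟨false,0,⟨0,[(22,0)]⟩,⟨0,[(8,0)]⟩⟩,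
  .e ⟨false,1,⟨1,[(12,1),(4,0),(0,0),(17,0)]⟩,⟨0,[(1,0)]⟩⟩ ⟨false,1,⟨1,[(12,1),(15,0),(7,0)]⟩,⟨3,
  [(0,0),(0,1),(0,0),(18,0),(1,1),(12,0)]⟩⟩,.o ⟨false,0,⟨0,[(21,0)]⟩,⟨0,[(25,0),(2,0)]⟩⟩,.a ⟨true,
  (-1),⟨0,[(2,0)]⟩,⟨0,[(8,0),(3,0)]⟩⟩ ⟨true,0,⟨0,[(12,0)]⟩,⟨0,[(4,0)]⟩⟩ ⟨false,1,⟨1,[(12,1),(15,0),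
  (7,0)]⟩,⟨0,[(2,0),(5,0)]⟩⟩]⟩) (.R ⟨0,false,false,true,[-1,1,1],[0,1],[0,1,1,0,0,0,0,1],(⟨0,[(15,
  0)]⟩,⟨0,[(26,0),(2,0)]⟩),(⟨0,[(30,0)]⟩,⟨0,[(29,0)]⟩),⟨0,[(26,0)]⟩,.k,.k,.k,.k,.k,.k,⟨false,1,⟨0,
  [(5,0),(3,0)]⟩,⟨0,[(1,0),(4,0)]⟩⟩,⟨true,1,⟨0,[(8,0),(3,0)]⟩,⟨0,[(0,0),(1,0)]⟩⟩,⟨false,0,⟨0,[(34,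
  0)]⟩,⟨1,[(3,1),(24,0),(7,0)]⟩⟩,⟨true,0,⟨1,[(0,0),(0,1),(5,0),(17,1),(6,0)]⟩,⟨0,[(9,0)]⟩⟩,⟨false,0,
  ⟨0,[]⟩,⟨0,[]⟩⟩,⟨false,0,⟨0,[]⟩,⟨0,[]⟩⟩,[.o ⟨false,0,⟨0,[(33,0)]⟩,⟨1,[(28,0),(5,1),(1,0)]⟩⟩,.e
  ⟨false,1,⟨1,[(12,1),(4,0),(0,0),(17,0)]⟩,⟨0,[(1,0)]⟩⟩ ⟨false,1,⟨1,[(25,1),(2,0),(3,1),(3,0)]⟩,⟨0,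
  [(21,0),(12,0)]⟩⟩,.o ⟨false,0,⟨0,[(21,0)]⟩,⟨0,[(25,0),(2,0)]⟩⟩,.a ⟨true,(-1),⟨0,[(2,0)]⟩,⟨0,[(8,
  0),(3,0)]⟩⟩ ⟨true,0,⟨0,[(12,0)]⟩,⟨0,[(4,0)]⟩⟩ ⟨false,1,⟨1,[(25,1),(2,0),(3,1),(3,0)]⟩,⟨1,[(2,1),
  (25,0),(5,1),(1,0)]⟩⟩]⟩)) (.Q [0,0,-1,0,1,0,-1,0,0,-1,1] (.p true [0,0,1] [1] (⟨0,[(26,0)]⟩,⟨0,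
  [(25,0)]⟩) .k 1 (⟨0,[]⟩,⟨0,[]⟩) .k .k) (.R ⟨0,false,false,false,[0,0,1],[1,-1],[1],(⟨0,[(27,0)]⟩,
  ⟨0,[(26,0)]⟩),(⟨0,[(29,0)]⟩,⟨0,[(30,0)]⟩),⟨0,[(16,0)]⟩,.k,.k,.k,.k,.k,.k,⟨true,0,⟨0,[(10,0)]⟩,⟨0,
  [(34,0)]⟩⟩,⟨false,1,⟨2,[(0,0),(0,0),(3,1),(5,0)]⟩,⟨0,[(21,0)]⟩⟩,⟨true,0,⟨0,[(4,0)]⟩,⟨0,[(12,0)]⟩⟩,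
  ⟨false,1,⟨0,[(8,0),(25,0)]⟩,⟨1,[(1,1),(0,1),(25,0),(3,1),(3,0)]⟩⟩,⟨false,0,⟨0,[]⟩,⟨0,[]⟩⟩,⟨false,
  0,⟨0,[]⟩,⟨0,[]⟩⟩,[.a ⟨true,0,⟨0,[(34,0)]⟩,⟨0,[(3,0)]⟩⟩ ⟨true,0,⟨0,[]⟩,⟨1,[(24,0),(0,0)]⟩⟩ ⟨false,
  1,⟨0,[(5,0)]⟩,⟨3,[(2,0),(6,0),(1,0),(2,0),(17,1),(3,0)]⟩⟩,.o ⟨false,1,⟨1,[(28,0),(5,1),(1,0)]⟩,⟨0,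
  [(33,0)]⟩⟩,.o ⟨false,0,⟨0,[(2,0),(25,0)]⟩,⟨2,[(0,0),(0,0),(3,1),(5,0)]⟩⟩,.o ⟨false,0,⟨0,[(24,0)]⟩,
  ⟨0,[(0,0)]⟩⟩]⟩) (.R ⟨0,false,false,false,[0,0,1],[1,-1],[],(⟨0,[(27,0)]⟩,⟨0,[(26,0)]⟩),(⟨0,[(29,
  0)]⟩,⟨0,[(30,0)]⟩),⟨0,[(16,0)]⟩,.k,.k,.k,.k,.k,.k,⟨true,0,⟨0,[(6,0)]⟩,⟨0,[(34,0)]⟩⟩,⟨false,1,⟨3,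
  [(1,1),(1,0),(1,1),(2,0),(4,0),(14,0)]⟩,⟨0,[(21,0)]⟩⟩,⟨true,0,⟨0,[(0,0),(7,0),(23,0),(1,0)]⟩,⟨0,
  [(12,0)]⟩⟩,⟨false,1,⟨0,[(8,0),(25,0)]⟩,⟨1,[(0,0),(0,0),(7,0),(22,1),(3,0)]⟩⟩,⟨false,0,⟨0,[]⟩,⟨0,
  []⟩⟩,⟨false,0,⟨0,[]⟩,⟨0,[]⟩⟩,[.e ⟨false,1,⟨1,[(17,0),(0,0),(16,0)]⟩,⟨0,[]⟩⟩ ⟨false,1,⟨0,[(5,0)]⟩,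
  ⟨3,[(2,0),(6,0),(1,0),(2,0),(17,1),(3,0)]⟩⟩,.o ⟨false,1,⟨1,[(28,0),(5,1),(1,0)]⟩,⟨0,[(33,0)]⟩⟩,.o
  ⟨false,0,⟨1,[(0,0),(20,0),(6,0)]⟩,⟨3,[(1,1),(1,0),(1,1),(2,0),(4,0),(14,0)]⟩⟩,.a ⟨true,(-1),⟨0,
  [(0,0)]⟩,⟨0,[(3,0),(1,0)]⟩⟩ ⟨false,1,⟨1,[(35,0),(0,0)]⟩,⟨1,[(24,0),(0,0)]⟩⟩ ⟨true,1,⟨0,[(5,0)]⟩,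
  ⟨0,[(0,0),(32,0)]⟩⟩]⟩)))) (.R ⟨0,false,false,false,[1,0,-1],[1,-1],[],(⟨0,[(23,0)]⟩,⟨0,[(24,0)]⟩),
  (⟨0,[(26,0)]⟩,⟨0,[(27,0)]⟩),⟨0,[(12,0)]⟩,.k,.k,.k,.k,.k,.k,⟨true,0,⟨0,[(3,0)]⟩,⟨0,[(31,0)]⟩⟩,
  ⟨false,0,⟨0,[(0,0),(2,0),(14,0)]⟩,⟨0,[(22,0),(9,0)]⟩⟩,⟨false,1,⟨0,[(9,0),(23,0)]⟩,⟨0,[(1,0)]⟩⟩,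
  ⟨true,0,⟨0,[(0,0),(5,0)]⟩,⟨0,[(10,0)]⟩⟩,⟨false,0,⟨0,[]⟩,⟨0,[]⟩⟩,⟨false,0,⟨0,[]⟩,⟨0,[]⟩⟩,[.o
  ⟨false,0,⟨0,[(0,0)]⟩,⟨3,[(8,1),(0,1),(4,0),(0,0),(16,1),(0,0)]⟩⟩,.o ⟨false,1,⟨1,[(25,0),(5,1),(1,
  0)]⟩,⟨0,[(30,0)]⟩⟩,.o ⟨false,1,⟨0,[(5,0),(3,0)]⟩,⟨0,[(0,0),(2,0),(14,0)]⟩⟩,.a ⟨true,0,⟨0,[(22,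
  0)]⟩,⟨0,[(18,0)]⟩⟩ ⟨false,1,⟨1,[(32,0),(0,0)]⟩,⟨1,[(21,0),(0,0)]⟩⟩ ⟨true,0,⟨0,[(0,0),(17,0)]⟩,⟨1,
  [(3,0),(5,0),(0,0),(11,0)]⟩⟩]⟩)) (.Q [0,-1,0,0,0,0,1,1,0,1,-1] (.p false [0,0,1] [1] (⟨0,[(23,
  0)]⟩,⟨0,[(22,0)]⟩) .k 1 (⟨0,[]⟩,⟨0,[]⟩) .k .k) (.I [0,0,1,1,0,0,0,-1] (.Q [0,0,1,1,0,0,-1,0,0,0,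
  1] (.p true [0,0,1] [] (⟨0,[(25,0)]⟩,⟨0,[(24,0)]⟩) .k 0 (⟨0,[]⟩,⟨0,[]⟩) .k .k) (.Q [0,0,0,0,0,0,1,
  0,0,0,-1] (.p false [0,0,1] [] (⟨0,[(26,0)]⟩,⟨0,[(25,0)]⟩) .k 0 (⟨0,[]⟩,⟨0,[]⟩) .k .k) (.R ⟨0,
  false,false,false,[1,0,-1],[1,-1],[0,0,0,0,0,0,0,-1],(⟨0,[(26,0)]⟩,⟨0,[(27,0)]⟩),(⟨0,[(29,0)]⟩,⟨0,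
  [(30,0)]⟩),⟨0,[(15,0)]⟩,.k,.k,.k,.k,.k,.k,⟨true,0,⟨0,[(2,0)]⟩,⟨0,[(4,0),(29,0)]⟩⟩,⟨false,0,⟨0,[(0,
  0)]⟩,⟨0,[(25,0),(9,0)]⟩⟩,⟨false,1,⟨1,[(17,0),(0,0),(17,0)]⟩,⟨0,[]⟩⟩,⟨true,0,⟨0,[(3,0),(3,0)]⟩,⟨0,
  [(13,0)]⟩⟩,⟨false,0,⟨0,[]⟩,⟨0,[]⟩⟩,⟨false,0,⟨0,[]⟩,⟨0,[]⟩⟩,[.a ⟨true,0,⟨0,[(34,0)]⟩,⟨0,[(3,0),(9,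
  0)]⟩⟩ ⟨false,1,⟨1,[(8,0),(5,0),(8,0),(11,0)]⟩,⟨0,[(4,0)]⟩⟩ ⟨true,0,⟨0,[(0,0),(33,0)]⟩,⟨0,[(1,
  0)]⟩⟩,.o ⟨false,1,⟨1,[(28,0),(5,1),(1,0)]⟩,⟨0,[(33,0)]⟩⟩,.o ⟨false,1,⟨3,[(1,1),(3,1),(11,0),(0,0),
  (9,0)]⟩,⟨0,[(0,0)]⟩⟩,.e ⟨false,1,⟨0,[(8,0),(12,0)]⟩,⟨1,[(4,1),(19,0),(0,0)]⟩⟩ ⟨false,1,⟨1,[(21,1),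
  (6,0),(5,1),(1,0)]⟩,⟨0,[(1,0)]⟩⟩]⟩) (.R ⟨0,false,false,true,[-1,1,1],[0,1],[1,1,1,1],(⟨0,[(15,
  0)]⟩,⟨0,[(26,0),(2,0)]⟩),(⟨0,[(30,0)]⟩,⟨0,[(29,0)]⟩),⟨0,[(26,0)]⟩,.k,.k,.k,.k,.k,.k,⟨true,0,⟨0,
  []⟩,⟨1,[(24,0),(0,0)]⟩⟩,⟨false,1,⟨1,[(4,0),(0,0),(2,0),(23,0)]⟩,⟨1,[(3,0),(10,0),(8,0)]⟩⟩,⟨true,0,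
  ⟨1,[(2,0),(4,0),(13,0),(1,0)]⟩,⟨0,[(4,0)]⟩⟩,⟨false,1,⟨3,[(8,1),(8,0),(0,0),(4,1),(4,0)]⟩,⟨0,[(3,
  0)]⟩⟩,⟨false,0,⟨0,[]⟩,⟨0,[]⟩⟩,⟨false,0,⟨0,[]⟩,⟨0,[]⟩⟩,[.o ⟨false,0,⟨0,[(33,0)]⟩,⟨1,[(28,0),(5,1),
  (1,0)]⟩⟩,.a ⟨true,0,⟨0,[(3,0),(9,0)]⟩,⟨0,[(34,0)]⟩⟩ ⟨true,0,⟨0,[(10,0)]⟩,⟨0,[(34,0)]⟩⟩ ⟨false,1,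
  ⟨1,[(1,1),(26,0),(6,0)]⟩,⟨0,[(21,0),(12,0)]⟩⟩,.o ⟨false,0,⟨0,[(21,0)]⟩,⟨0,[(25,0),(2,0)]⟩⟩,.o
  ⟨false,0,⟨1,[(3,0),(10,0),(8,0)]⟩,⟨0,[(0,0),(27,0)]⟩⟩]⟩)) (.R ⟨0,false,false,false,[1,0,-1],[1,
  -1],[0,0,0,0,0,0,0,-1],(⟨0,[(25,0)]⟩,⟨0,[(26,0)]⟩),(⟨0,[(28,0)]⟩,⟨0,[(29,0)]⟩),⟨0,[(14,0)]⟩,.k,.k,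
  .k,.k,.k,.k,⟨true,0,⟨0,[(1,0)]⟩,⟨0,[(3,0),(29,0)]⟩⟩,⟨false,0,⟨0,[(0,0),(4,0)]⟩,⟨0,[(24,0),(9,
  0)]⟩⟩,⟨false,1,⟨1,[(16,0),(0,0),(17,0)]⟩,⟨0,[]⟩⟩,⟨true,0,⟨0,[(2,0),(3,0)]⟩,⟨0,[(12,0)]⟩⟩,⟨false,0,
  ⟨0,[]⟩,⟨0,[]⟩⟩,⟨false,0,⟨0,[]⟩,⟨0,[]⟩⟩,[.e ⟨false,1,⟨1,[(7,0),(5,0),(8,0),(11,0)]⟩,⟨0,[(3,0)]⟩⟩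
  ⟨false,0,⟨0,[(0,0)]⟩,⟨0,[(11,0),(0,0),(22,0)]⟩⟩,.o ⟨false,1,⟨1,[(27,0),(5,1),(1,0)]⟩,⟨0,[(32,
  0)]⟩⟩,.o ⟨false,1,⟨0,[(7,0),(3,0)]⟩,⟨0,[(0,0),(4,0)]⟩⟩,.a ⟨true,0,⟨0,[(24,0)]⟩,⟨0,[(20,0)]⟩⟩
  ⟨false,1,⟨0,[(7,0),(12,0)]⟩,⟨1,[(3,1),(19,0),(0,0)]⟩⟩ ⟨true,0,⟨0,[(0,0)]⟩,⟨1,[(5,0),(5,0),(0,0),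
  (11,0)]⟩⟩]⟩)) (.Q [0,0,0,1,0,0,-1,0,0,0,1] (.p true [0,0,1] [] (⟨0,[(25,0)]⟩,⟨0,[(24,0)]⟩) .k 0
  (⟨0,[]⟩,⟨0,[]⟩) .k .k) (.R ⟨0,false,false,true,[0,0,1],[0,1],[0,1,2,1],(⟨0,[(26,0)]⟩,⟨0,[(25,
  0)]⟩),(⟨0,[(29,0)]⟩,⟨0,[(28,0)]⟩),⟨0,[(15,0)]⟩,.k,.k,.k,.k,.k,.k,⟨true,0,⟨1,[(23,0),(0,0)]⟩,⟨0,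
  []⟩⟩,⟨false,1,⟨3,[(0,1),(0,1),(20,1),(11,2),(0,0)]⟩,⟨0,[(23,0)]⟩⟩,⟨false,0,⟨0,[(10,0),(22,0)]⟩,⟨1,
  [(1,1),(32,0),(0,0)]⟩⟩,⟨true,0,⟨0,[(12,0)]⟩,⟨0,[(2,0),(3,0)]⟩⟩,⟨false,0,⟨0,[]⟩,⟨0,[]⟩⟩,⟨false,0,
  ⟨0,[]⟩,⟨0,[]⟩⟩,[.o ⟨false,0,⟨0,[(32,0)]⟩,⟨1,[(27,0),(5,1),(1,0)]⟩⟩,.a ⟨true,0,⟨0,[(2,0),(9,0)]⟩,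
  ⟨0,[(33,0)]⟩⟩ ⟨false,0,⟨0,[(5,0)]⟩,⟨0,[(4,0),(15,0)]⟩⟩ ⟨true,0,⟨0,[(0,0)]⟩,⟨0,[(23,0),(9,0)]⟩⟩,.e
  ⟨false,0,⟨1,[(5,1),(17,0),(0,0)]⟩,⟨0,[(1,0),(5,0),(12,0)]⟩⟩ ⟨false,0,⟨0,[(0,0)]⟩,⟨1,[(4,0),(8,0),
  (9,0),(9,0),(1,0)]⟩⟩,.o ⟨false,0,⟨0,[(23,0)]⟩,⟨3,[(0,1),(3,1),(22,0),(6,0)]⟩⟩]⟩) (.Q [0,0,0,0,1,0,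
  -1,0,0,-2,1] (.p true [-1,1,1] [1] (⟨0,[(14,0)]⟩,⟨0,[(25,0),(2,0)]⟩) .k 1 (⟨0,[]⟩,⟨0,[]⟩) .k .k)
  (.R ⟨0,false,false,true,[-1,1,1],[0,1],[1,1,1,1],(⟨0,[(15,0)]⟩,⟨0,[(26,0),(2,0)]⟩),(⟨0,[(30,0)]⟩,
  ⟨0,[(29,0)]⟩),⟨0,[(26,0)]⟩,.k,.k,.k,.k,.k,.k,⟨true,0,⟨0,[]⟩,⟨1,[(24,0),(0,0)]⟩⟩,⟨false,1,⟨2,[(0,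
  0),(1,0),(1,0),(3,0),(4,0),(21,0)]⟩,⟨1,[(3,0),(10,0),(8,0)]⟩⟩,⟨true,0,⟨0,[(1,0),(11,0)]⟩,⟨0,[(4,
  0)]⟩⟩,⟨false,1,⟨3,[(8,1),(8,0),(0,0),(4,1),(4,0)]⟩,⟨0,[(3,0)]⟩⟩,⟨false,0,⟨0,[]⟩,⟨0,[]⟩⟩,⟨false,0,
  ⟨0,[]⟩,⟨0,[]⟩⟩,[.o ⟨false,0,⟨0,[(33,0)]⟩,⟨1,[(28,0),(5,1),(1,0)]⟩⟩,.a ⟨true,0,⟨0,[(3,0),(9,0)]⟩,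
  ⟨0,[(34,0)]⟩⟩ ⟨true,0,⟨0,[(10,0)]⟩,⟨0,[(34,0)]⟩⟩ ⟨false,1,⟨1,[(0,0),(3,0),(8,0),(19,0),(2,0)]⟩,⟨0,
  [(21,0),(12,0)]⟩⟩,.o ⟨false,0,⟨0,[(21,0)]⟩,⟨0,[(25,0),(2,0)]⟩⟩,.o ⟨false,0,⟨1,[(3,0),(10,0),(8,
  0)]⟩,⟨0,[(0,0)]⟩⟩]⟩) (.R ⟨0,false,false,false,[0,0,1],[1,-1],[0,0,0,-1],(⟨0,[(27,0)]⟩,⟨0,[(26,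
  0)]⟩),(⟨0,[(29,0)]⟩,⟨0,[(30,0)]⟩),⟨0,[(16,0)]⟩,.k,.k,.k,.k,.k,.k,⟨true,0,⟨1,[(24,0),(0,0)]⟩,⟨0,
  []⟩⟩,⟨false,1,⟨0,[(8,0),(3,0)]⟩,⟨0,[(21,0)]⟩⟩,⟨true,0,⟨0,[(0,0),(6,0),(0,0)]⟩,⟨0,[(4,0),(28,0)]⟩⟩,
  ⟨false,1,⟨0,[(8,0),(25,0)]⟩,⟨0,[(3,0),(29,0)]⟩⟩,⟨false,0,⟨0,[]⟩,⟨0,[]⟩⟩,⟨false,0,⟨0,[]⟩,⟨0,[]⟩⟩,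
  [.a ⟨true,0,⟨0,[(34,0)]⟩,⟨0,[(3,0),(9,0)]⟩⟩ ⟨true,0,⟨0,[(34,0)]⟩,⟨0,[(10,0)]⟩⟩ ⟨false,1,⟨0,[(5,
  0)]⟩,⟨4,[(3,0),(5,0),(1,1),(9,2),(10,0)]⟩⟩,.o ⟨false,1,⟨1,[(28,0),(5,1),(1,0)]⟩,⟨0,[(33,0)]⟩⟩,.o
  ⟨false,0,⟨0,[(0,0),(27,0)]⟩,⟨0,[(8,0),(3,0)]⟩⟩,.o ⟨false,0,⟨0,[(24,0)]⟩,⟨1,[(4,0),(0,0),(2,0),(23,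
  0)]⟩⟩]⟩)))) (.Q [0,0,1,0,0,0,-2,0,0,-1,2] (.p true [0,0,1] [1,0,-1] (⟨0,[(24,0)]⟩,⟨0,[(23,0)]⟩)
  .k 2 (⟨0,[(23,0)]⟩,⟨0,[(24,0)]⟩) .k (.r 0 ⟨0,[(1,1)]⟩ ⟨0,[(5,0),(5,0),(8,0)]⟩)) (.K ⟨0,[-1,1,1],0,
  0,(⟨0,[(13,0)]⟩,⟨0,[(24,0),(2,0)]⟩),.k,.k,(.r 0 ⟨0,[(2,0),(1,1)]⟩ ⟨1,[(1,0),(1,0),(2,0),(12,2),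
  (12,2)]⟩),.k,.k,[⟨0,[(0,0),(18,1)]⟩,⟨0,[(0,0),(21,0)]⟩,⟨0,[(1,0),(30,0)]⟩,⟨0,[(7,0),(23,0)]⟩]⟩)
  (.Q [0,0,0,0,0,0,1,0,0,0,-1] (.p false [0,0,1] [] (⟨0,[(25,0)]⟩,⟨0,[(24,0)]⟩) .k 0 (⟨0,[]⟩,⟨0,
  []⟩) .k .k) (.Q [0,0,0,1,0,0,0,0,0,1] (.pp false [-1,1]) (.Q [0,0,1,-1,0,0,-1,0,0,-1,1] (.p true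
  [0,0,1] [1] (⟨0,[(27,0)]⟩,⟨0,[(26,0)]⟩) .k 1 (⟨0,[]⟩,⟨0,[]⟩) .k .k) (.R ⟨0,false,false,false,[1,0,
  -1],[0,1],[1,1,1],(⟨0,[(27,0)]⟩,⟨0,[(28,0)]⟩),(⟨0,[(31,0)]⟩,⟨0,[(30,0)]⟩),⟨0,[(16,0)]⟩,.k,.k,.k,
  .k,.k,.k,⟨false,0,⟨0,[(33,0),(1,1)]⟩,⟨0,[(34,0),(2,0)]⟩⟩,⟨true,0,⟨0,[(22,0)]⟩,⟨0,[(0,0),(6,0)]⟩⟩,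
  ⟨false,0,⟨1,[(0,0),(4,0),(1,0),(2,0)]⟩,⟨0,[(9,0),(12,0)]⟩⟩,⟨true,0,⟨1,[(1,0),(1,0),(1,1),(1,0)]⟩,
  ⟨0,[(4,0),(30,0)]⟩⟩,⟨false,0,⟨0,[]⟩,⟨0,[]⟩⟩,⟨false,0,⟨0,[]⟩,⟨0,[]⟩⟩,[.a ⟨true,0,⟨0,[(1,0)]⟩,⟨0,
  [(35,0)]⟩⟩ ⟨false,0,⟨0,[(39,0)]⟩,⟨1,[(36,0),(0,0)]⟩⟩ ⟨true,0,⟨1,[(1,0),(1,0),(3,0)]⟩,⟨0,[(0,0)]⟩⟩,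
  .o ⟨false,1,⟨0,[(34,0),(2,0)]⟩,⟨0,[(8,0)]⟩⟩,.o ⟨false,1,⟨0,[(9,0),(3,0)]⟩,⟨0,[(2,0)]⟩⟩,.e ⟨false,
  0,⟨0,[]⟩,⟨1,[(18,0),(0,0),(17,0)]⟩⟩ ⟨false,1,⟨4,[(1,1),(1,1),(6,0),(1,0),(20,0),(2,1),(0,2)]⟩,⟨0,
  [(0,0)]⟩⟩]⟩) (.Q [0,0,2,0,0,0,-1,0,0,-1,1] (.p true [0,0,1] [1] (⟨0,[(28,0)]⟩,⟨0,[(27,0)]⟩) .k 1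
  (⟨0,[]⟩,⟨0,[]⟩) .k .k) (.R ⟨0,false,false,false,[1,0,-1],[0,1],[1,1,1],(⟨0,[(28,0)]⟩,⟨0,[(29,
  0)]⟩),(⟨0,[(32,0)]⟩,⟨0,[(31,0)]⟩),⟨0,[(17,0)]⟩,.k,.k,.k,.k,.k,.k,⟨false,0,⟨0,[(34,0),(1,1)]⟩,⟨0,
  [(35,0),(2,0)]⟩⟩,⟨true,0,⟨0,[(23,0)]⟩,⟨0,[(0,0)]⟩⟩,⟨false,0,⟨1,[(0,0),(5,0),(4,0)]⟩,⟨0,[(10,0),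
  (12,0)]⟩⟩,⟨true,0,⟨1,[(1,0),(4,0),(1,0),(2,0)]⟩,⟨0,[(5,0),(30,0)]⟩⟩,⟨false,0,⟨0,[]⟩,⟨0,[]⟩⟩,
  ⟨false,0,⟨0,[]⟩,⟨0,[]⟩⟩,[.e ⟨false,0,⟨0,[(40,0)]⟩,⟨1,[(37,0),(0,0)]⟩⟩ ⟨false,0,⟨0,[(1,0)]⟩,⟨2,[(0,
  0),(6,1),(11,0),(0,0),(15,0)]⟩⟩,.o ⟨false,1,⟨0,[(35,0),(2,0)]⟩,⟨0,[(9,0)]⟩⟩,.o ⟨false,1,⟨2,[(0,0),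
  (6,1),(27,1),(2,0)]⟩,⟨0,[(3,0)]⟩⟩,.a ⟨true,0,⟨0,[(27,0)]⟩,⟨0,[(23,0)]⟩⟩ ⟨false,0,⟨0,[]⟩,⟨1,[(19,
  0),(0,0),(17,0)]⟩⟩ ⟨true,0,⟨0,[(1,0)]⟩,⟨0,[(9,0),(17,0)]⟩⟩]⟩) (.I [0,0,1,0,0,0,0,-1] (.R ⟨0,false,
  false,true,[0,0,1],[0,1],[0,1,1],(⟨0,[(30,0)]⟩,⟨0,[(29,0)]⟩),(⟨0,[(33,0)]⟩,⟨0,[(32,0)]⟩),⟨0,[(19,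
  0)]⟩,.k,.k,.k,.k,.k,.k,⟨true,0,⟨0,[(37,0)]⟩,⟨0,[(13,0)]⟩⟩,⟨false,1,⟨1,[(1,1),(5,1),(0,0),(2,0),(4,
  0),(11,0)]⟩,⟨0,[(27,0)]⟩⟩,⟨false,0,⟨0,[(0,0)]⟩,⟨1,[(7,1),(30,0),(0,0)]⟩⟩,⟨true,0,⟨0,[(16,0)]⟩,⟨0,
  [(4,0),(2,0),(29,0)]⟩⟩,⟨false,0,⟨0,[]⟩,⟨0,[]⟩⟩,⟨false,0,⟨0,[]⟩,⟨0,[]⟩⟩,[.o ⟨false,0,⟨0,[(36,0)]⟩,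
  ⟨1,[(31,0),(5,1),(1,0)]⟩⟩,.a ⟨true,0,⟨0,[(3,0)]⟩,⟨0,[(37,0)]⟩⟩ ⟨true,0,⟨1,[(27,0),(0,0)]⟩,⟨0,[]⟩⟩
  ⟨false,1,⟨1,[(7,1),(8,1),(21,0),(0,0)]⟩,⟨0,[(4,0),(32,0)]⟩⟩,.o ⟨false,0,⟨0,[(4,0)]⟩,⟨0,[(11,0),(3,
  0)]⟩⟩,.o ⟨false,0,⟨0,[(27,0)]⟩,⟨1,[(7,0),(0,0),(2,0),(23,0)]⟩⟩]⟩) (.Q [0,0,0,1,0,0,1,0,0,0,-1]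
  (.p false [0,0,1] [] (⟨0,[(30,0)]⟩,⟨0,[(29,0)]⟩) .k 0 (⟨0,[]⟩,⟨0,[]⟩) .k .k) (.Q [0,0,-1,0,0,0,-1,
  0,0,1,1] (.p true [1,-1,1] [] (⟨0,[(31,0),(1,0)]⟩,⟨0,[(20,0)]⟩) .k 0 (⟨0,[]⟩,⟨0,[]⟩) .k .k) (.R
  ⟨0,false,false,false,[0,1,-1],[0,1],[1,1],(⟨0,[(21,0)]⟩,⟨0,[(32,0),(1,0)]⟩),(⟨0,[(35,0)]⟩,⟨0,[(34,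
  0)]⟩),⟨0,[(32,0)]⟩,.k,.k,.k,.k,.k,.k,⟨false,0,⟨2,[(0,0),(1,0),(0,1),(4,0),(3,1),(26,0)]⟩,⟨3,[(16,
  1),(0,1),(4,0),(0,0),(17,2)]⟩⟩,⟨true,0,⟨0,[(6,0)]⟩,⟨0,[(30,0)]⟩⟩,⟨false,0,⟨0,[(2,0),(36,0)]⟩,⟨3,
  [(13,0),(2,1),(2,0),(2,0),(0,0),(4,0),(12,1)]⟩⟩,⟨true,0,⟨0,[(6,0),(2,0)]⟩,⟨0,[(28,0)]⟩⟩,⟨false,0,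
  ⟨0,[]⟩,⟨0,[]⟩⟩,⟨false,0,⟨0,[]⟩,⟨0,[]⟩⟩,[.e ⟨false,0,⟨4,[(2,0),(0,0),(4,0),(27,1)]⟩,⟨1,[(22,0),(0,
  0),(17,0)]⟩⟩ ⟨false,0,⟨0,[(1,0)]⟩,⟨3,[(0,0),(9,2),(3,1),(13,1),(10,0),(1,0)]⟩⟩,.o ⟨false,1,⟨0,
  [(38,0),(2,0)]⟩,⟨0,[(12,0)]⟩⟩,.a ⟨true,0,⟨0,[(0,0)]⟩,⟨0,[(29,0)]⟩⟩ ⟨false,0,⟨0,[]⟩,⟨1,[(22,0),(0,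
  0),(17,0)]⟩⟩ ⟨true,0,⟨1,[(1,0),(9,0),(17,0)]⟩,⟨0,[(0,0),(11,0)]⟩⟩,.e ⟨true,0,⟨4,[(2,0),(0,0),(4,
  0),(27,1)]⟩,⟨1,[(29,0),(0,0)]⟩⟩ ⟨true,0,⟨0,[(1,0)]⟩,⟨2,[(0,0),(11,0),(4,0),(10,0),(1,0),(8,
  1)]⟩⟩]⟩) (.R ⟨0,false,false,false,[0,1,-1],[0,1],[1,1,1],(⟨0,[(21,0)]⟩,⟨0,[(32,0),(1,0)]⟩),(⟨0,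
  [(35,0)]⟩,⟨0,[(34,0)]⟩),⟨0,[(32,0)]⟩,.k,.k,.k,.k,.k,.k,⟨false,0,⟨4,[(2,0),(0,0),(4,0),(27,1),(2,
  4)]⟩,⟨0,[(38,0),(2,0)]⟩⟩,⟨true,0,⟨0,[(6,0)]⟩,⟨0,[(30,0)]⟩⟩,⟨false,0,⟨0,[(9,0),(29,0)]⟩,⟨4,[(3,0),
  (9,1),(2,1),(1,0),(0,0),(20,0),(0,1)]⟩⟩,⟨true,0,⟨1,[(0,0),(1,0),(11,0)]⟩,⟨0,[(28,0)]⟩⟩,⟨false,0,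
  ⟨0,[]⟩,⟨0,[]⟩⟩,⟨false,0,⟨0,[]⟩,⟨0,[]⟩⟩,[.e ⟨false,0,⟨0,[(43,0)]⟩,⟨1,[(40,0),(0,0)]⟩⟩ ⟨false,0,⟨0,
  [(1,0)]⟩,⟨4,[(3,1),(6,3),(3,1),(13,1),(1,2),(8,0),(1,0)]⟩⟩,.o ⟨false,1,⟨0,[(38,0),(2,0)]⟩,⟨0,[(12,
  0)]⟩⟩,.o ⟨false,1,⟨0,[(5,0),(4,0)]⟩,⟨0,[(0,0)]⟩⟩,.a ⟨true,0,⟨0,[(3,0),(26,1)]⟩,⟨0,[(6,0)]⟩⟩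
  ⟨false,0,⟨0,[]⟩,⟨1,[(22,0),(0,0),(17,0)]⟩⟩ ⟨true,0,⟨0,[(1,0)]⟩,⟨2,[(2,0),(14,0),(10,1),(1,0),(8,
  2)]⟩⟩]⟩)) (.R ⟨0,false,false,false,[0,1,-1],[0,1],[1,1],(⟨0,[(20,0)]⟩,⟨0,[(31,0),(1,0)]⟩),(⟨0,
  [(34,0)]⟩,⟨0,[(33,0)]⟩),⟨0,[(31,0)]⟩,.k,.k,.k,.k,.k,.k,⟨false,0,⟨9,[(0,4),(0,2),(0,7),(4,2),(3,4),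
  (23,0)]⟩,⟨3,[(15,1),(0,1),(4,0),(0,0),(17,2)]⟩⟩,⟨true,0,⟨0,[(5,0)]⟩,⟨0,[(29,0)]⟩⟩,⟨false,0,⟨0,[(1,
  0),(36,0)]⟩,⟨3,[(12,0),(2,1),(2,0),(2,0),(0,0),(4,0),(12,1)]⟩⟩,⟨true,0,⟨0,[(5,0),(2,0)]⟩,⟨0,[(27,
  0)]⟩⟩,⟨false,0,⟨0,[]⟩,⟨0,[]⟩⟩,⟨false,0,⟨0,[]⟩,⟨0,[]⟩⟩,[.a ⟨true,0,⟨0,[(4,0)]⟩,⟨0,[(38,0)]⟩⟩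
  ⟨false,0,⟨4,[(1,0),(0,0),(4,0),(27,1)]⟩,⟨1,[(21,0),(0,0),(17,0)]⟩⟩ ⟨true,0,⟨0,[(5,0),(4,0)]⟩,⟨0,
  [(0,0)]⟩⟩,.o ⟨false,1,⟨0,[(37,0),(2,0)]⟩,⟨0,[(11,0)]⟩⟩,.a ⟨true,0,⟨0,[(0,1),(0,0),(0,0),(12,0)]⟩,
  ⟨0,[(28,0)]⟩⟩ ⟨false,0,⟨0,[]⟩,⟨1,[(21,0),(0,0),(17,0)]⟩⟩ ⟨true,0,⟨0,[(5,0),(4,0)]⟩,⟨4,[(0,4),(0,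
  0),(0,0),(4,0),(27,1)]⟩⟩,.a ⟨true,0,⟨0,[(0,0),(3,0)]⟩,⟨0,[(5,0)]⟩⟩ ⟨true,0,⟨4,[(1,0),(0,0),(4,0),
  (27,1)]⟩,⟨1,[(28,0),(0,0)]⟩⟩ ⟨false,1,⟨13,[(3,5),(9,3),(1,3),(2,1),(13,5),(6,0),(0,6)]⟩,⟨0,[(0,
  0)]⟩⟩]⟩))))) (.R ⟨0,false,false,false,[1,0,-1],[0,1],[0,1,1],(⟨0,[(26,0)]⟩,⟨0,[(27,0)]⟩),(⟨0,[(30,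
  0)]⟩,⟨0,[(29,0)]⟩),⟨0,[(15,0)]⟩,.k,.k,.k,.k,.k,.k,⟨false,0,⟨0,[(32,0),(1,1)]⟩,⟨0,[(33,0),(2,0)]⟩⟩,
  ⟨true,0,⟨0,[(21,0)]⟩,⟨0,[(0,0),(5,0),(18,0)]⟩⟩,⟨false,0,⟨1,[(4,1),(19,0),(0,0)]⟩,⟨0,[(8,0),(12,
  0)]⟩⟩,⟨true,0,⟨0,[(4,0),(1,0),(14,0)]⟩,⟨0,[(3,0),(30,0)]⟩⟩,⟨false,0,⟨0,[]⟩,⟨0,[]⟩⟩,⟨false,0,⟨0,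
  []⟩,⟨0,[]⟩⟩,[.o ⟨false,1,⟨3,[(11,1),(0,1),(4,0),(0,0),(16,1),(0,0)]⟩,⟨0,[(0,0)]⟩⟩,.o ⟨false,1,⟨0,
  [(33,0),(2,0)]⟩,⟨0,[(7,0)]⟩⟩,.o ⟨false,1,⟨0,[(8,0),(3,0)]⟩,⟨0,[(1,0)]⟩⟩,.a ⟨true,0,⟨0,[(25,0)]⟩,
  ⟨0,[(21,0)]⟩⟩ ⟨true,0,⟨0,[(38,0)]⟩,⟨0,[]⟩⟩ ⟨false,1,⟨2,[(9,0),(1,0),(9,1),(10,0),(2,0),(0,1)]⟩,⟨0,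
  [(0,0),(24,0)]⟩⟩]⟩)) (.Q [0,0,2,0,0,0,-1,0,0,-1,1] (.p true [0,0,1] [1] (⟨0,[(26,0)]⟩,⟨0,[(25,
  0)]⟩) .k 1 (⟨0,[]⟩,⟨0,[]⟩) .k .k) (.K ⟨0,[-1,1,1],0,0,(⟨0,[(15,0)]⟩,⟨0,[(26,0),(2,0)]⟩),.k,.k,(.r
  0 ⟨0,[(4,0),(1,1)]⟩ ⟨1,[(3,0),(1,0),(2,0),(12,2),(12,2)]⟩),.k,.k,[⟨0,[(1,0),(19,0)]⟩,⟨0,[(0,0)]⟩,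
  ⟨0,[(3,0),(30,0)]⟩,⟨0,[(9,0),(23,0)]⟩]⟩) (.Q [0,0,0,0,0,0,1,1,0,0,-1] (.p false [0,0,1] [] (⟨0,
  [(27,0)]⟩,⟨0,[(26,0)]⟩) .k 0 (⟨0,[]⟩,⟨0,[]⟩) .k .k) (.R ⟨2,false,false,false,[0,1],[0,0,1],[0,1,
  1],(⟨0,[]⟩,⟨0,[]⟩),(⟨0,[(28,0)]⟩,⟨0,[(27,0)]⟩),⟨0,[]⟩,.k,.k,.k,.k,.k,.k,⟨false,0,⟨1,[(4,0),(10,0),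
  (8,0)]⟩,⟨1,[(5,1),(30,0),(0,0)]⟩⟩,⟨true,0,⟨0,[(25,0)]⟩,⟨0,[(2,0)]⟩⟩,⟨false,0,⟨0,[(35,0)]⟩,⟨0,[(34,
  0),(2,0)]⟩⟩,⟨true,0,⟨0,[(0,0),(34,0)]⟩,⟨0,[(14,0)]⟩⟩,⟨true,0,⟨0,[(39,0)]⟩,⟨0,[]⟩⟩,⟨true,0,⟨0,[(0,
  0)]⟩,⟨0,[(24,0)]⟩⟩,[.o ⟨false,0,⟨0,[(0,0)]⟩,⟨3,[(9,1),(8,0),(0,0),(4,1),(4,0)]⟩⟩,.o ⟨false,1,⟨1,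
  [(10,1),(18,0),(7,0)]⟩,⟨0,[(4,0)]⟩⟩,.a ⟨true,0,⟨0,[(2,0),(19,0)]⟩,⟨1,[(25,0),(0,0)]⟩⟩ ⟨false,0,⟨1,
  [(25,0),(0,0)]⟩,⟨1,[(36,0),(0,0)]⟩⟩ ⟨true,0,⟨0,[(5,0),(19,0)]⟩,⟨1,[(1,0),(0,0),(1,0),(19,0)]⟩⟩,.e
  ⟨true,0,⟨0,[(39,0)]⟩,⟨0,[]⟩⟩ ⟨true,0,⟨0,[(0,0)]⟩,⟨0,[(24,0)]⟩⟩]⟩) (.Q [0,0,0,-1,0,0,1,1,0,0,-1]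
  (.p false [0,0,1] [] (⟨0,[(28,0)]⟩,⟨0,[(27,0)]⟩) .k 0 (⟨0,[]⟩,⟨0,[]⟩) .k .k) (.R ⟨2,true,false,
  false,[0,1],[0,0,1],[0,1,1],(⟨0,[]⟩,⟨0,[]⟩),(⟨0,[(29,0)]⟩,⟨0,[(28,0)]⟩),⟨0,[]⟩,.k,.k,.k,.k,.k,.k,
  ⟨false,0,⟨1,[(5,0),(10,0),(8,0)]⟩,⟨1,[(6,1),(30,0),(0,0)]⟩⟩,⟨true,0,⟨0,[(26,0)]⟩,⟨0,[(3,0)]⟩⟩,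
  ⟨false,0,⟨0,[(36,0)]⟩,⟨0,[(35,0),(2,0)]⟩⟩,⟨true,0,⟨0,[(0,0)]⟩,⟨0,[(15,0)]⟩⟩,⟨true,0,⟨0,[(40,0)]⟩,
  ⟨0,[]⟩⟩,⟨false,1,⟨1,[(11,1),(18,0),(7,0)]⟩,⟨0,[(1,0)]⟩⟩,[]⟩) (.R ⟨0,false,false,true,[1,-1],[1,-1,
  1],[1,1],(⟨0,[(31,0)]⟩,⟨0,[(32,0)]⟩),(⟨0,[(29,0),(1,0)]⟩,⟨0,[(18,0)]⟩),⟨0,[(17,0),(0,0)]⟩,.k,.k,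
  (.r (-1) ⟨0,[(7,0),(15,0),(12,0)]⟩ ⟨0,[(8,1)]⟩),.k,.k,.k,⟨true,0,⟨0,[(0,0),(25,0)]⟩,⟨0,[(6,0),(29,
  0)]⟩⟩,⟨false,1,⟨3,[(16,1),(2,0),(0,0),(9,0),(6,1)]⟩,⟨0,[(3,0)]⟩⟩,⟨false,0,⟨0,[(12,0)]⟩,⟨1,[(7,0),
  (15,0),(12,0),(1,0)]⟩⟩,⟨true,0,⟨0,[(24,0)]⟩,⟨0,[(1,0)]⟩⟩,⟨false,0,⟨0,[]⟩,⟨0,[]⟩⟩,⟨false,0,⟨0,[]⟩,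
  ⟨0,[]⟩⟩,[.e ⟨false,0,⟨3,[(2,0),(0,0),(5,0),(23,0),(0,0)]⟩,⟨1,[(19,0),(0,0),(17,0)]⟩⟩ ⟨false,0,⟨0,
  [(2,0),(3,0),(2,0)]⟩,⟨5,[(13,1),(1,1),(3,0),(0,0),(4,1),(1,1),(10,4)]⟩⟩,.o ⟨false,1,⟨0,[(11,0),
  (18,0),(5,0)]⟩,⟨0,[(0,0)]⟩⟩,.a ⟨true,0,⟨1,[(26,0),(0,0)]⟩,⟨0,[(3,0),(19,0)]⟩⟩ ⟨false,0,⟨0,[]⟩,⟨1,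
  [(19,0),(0,0),(17,0)]⟩⟩ ⟨true,0,⟨1,[(2,0),(3,0),(2,1),(1,0)]⟩,⟨2,[(0,0),(0,0),(11,0),(13,0)]⟩⟩,.e
  ⟨true,0,⟨3,[(2,0),(0,0),(5,0),(23,0),(0,0)]⟩,⟨1,[(26,0),(0,0)]⟩⟩ ⟨true,0,⟨0,[(2,0),(3,0),(2,0)]⟩,
  ⟨2,[(1,0),(11,1),(13,1),(8,0)]⟩⟩]⟩)))))))) (.R ⟨0,false,false,false,[0,0,1],[1,-1],[],(⟨0,[(22,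
  0)]⟩,⟨0,[(21,0)]⟩),(⟨0,[(24,0)]⟩,⟨0,[(25,0)]⟩),⟨0,[(11,0)]⟩,.k,.k,.k,.k,.k,.k,⟨true,0,⟨0,[(1,0)]⟩,
  ⟨0,[(29,0)]⟩⟩,⟨false,1,⟨0,[(3,0),(3,0)]⟩,⟨0,[(16,0)]⟩⟩,⟨true,0,⟨0,[(0,0),(2,0),(23,0),(1,1)]⟩,⟨0,
  [(7,0)]⟩⟩,⟨false,1,⟨0,[(3,0),(25,0)]⟩,⟨1,[(0,0),(3,0),(2,0),(19,0),(3,0)]⟩⟩,⟨false,0,⟨0,[]⟩,⟨0,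
  []⟩⟩,⟨false,0,⟨0,[]⟩,⟨0,[]⟩⟩,[.a ⟨true,0,⟨0,[(29,0)]⟩,⟨2,[(0,0),(19,0),(0,1),(0,1),(4,1),(3,0)]⟩⟩
  ⟨false,1,⟨1,[(12,0),(0,0),(16,0)]⟩,⟨0,[]⟩⟩ ⟨true,1,⟨0,[(3,0),(3,0),(21,0)]⟩,⟨0,[(0,0)]⟩⟩,.o
  ⟨false,1,⟨1,[(23,0),(5,1),(1,0)]⟩,⟨0,[(28,0)]⟩⟩,.o ⟨false,0,⟨1,[(0,0),(15,0),(6,0),(5,0)]⟩,⟨0,[(3,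
  0),(3,0)]⟩⟩,.e ⟨false,1,⟨1,[(30,0),(0,0)]⟩,⟨1,[(19,0),(0,0)]⟩⟩ ⟨false,2,⟨1,[(3,1),(3,1),(21,1),(0,
  0),(0,0)]⟩,⟨0,[(0,0)]⟩⟩]⟩)) (.N [0,1] 0 ⟨0,[(4,0)]⟩ ⟨0,[(0,0)]⟩ .k))) (.I [1,1,2,1,-1] (.Q [0,0,
  -1,1,0,0,0,0,0,1] (.pp false [-1,1]) (.R ⟨0,false,false,true,[1,-1],[0,1],[],(⟨0,[(23,0)]⟩,⟨0,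
  [(24,0)]⟩),(⟨0,[(24,0)]⟩,⟨0,[(23,0)]⟩),⟨0,[(9,0),(0,0)]⟩,.k,.k,(.r (-1) ⟨0,[(28,1),(0,0)]⟩ ⟨0,[(1,
  1),(24,1),(1,1),(1,1)]⟩),(.r (-1) ⟨0,[(28,1),(0,0)]⟩ ⟨0,[(1,1),(24,1),(1,1),(1,1)]⟩),.k,.k,⟨true,
  1,⟨1,[(28,1),(0,0),(0,0)]⟩,⟨0,[(1,0)]⟩⟩,⟨false,1,⟨0,[(0,0),(27,0),(0,0)]⟩,⟨1,[(1,1),(20,0),(5,1),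
  (1,0)]⟩⟩,⟨true,0,⟨0,[(1,0),(24,0),(1,0),(1,0)]⟩,⟨0,[(26,0),(1,1)]⟩⟩,⟨false,0,⟨0,[(0,0),(3,0)]⟩,⟨1,
  [(22,0),(5,3),(1,0)]⟩⟩,⟨false,0,⟨0,[]⟩,⟨0,[]⟩⟩,⟨false,0,⟨0,[]⟩,⟨0,[]⟩⟩,[.o ⟨false,0,⟨0,[(27,0)]⟩,
  ⟨1,[(22,0),(5,1),(1,0)]⟩⟩,.a ⟨true,0,⟨6,[(0,4),(2,0),(1,0),(2,0),(10,2)]⟩,⟨0,[(28,0)]⟩⟩ ⟨false,1,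
  ⟨1,[(29,0),(0,0)]⟩,⟨0,[(32,0)]⟩⟩ ⟨true,0,⟨0,[(0,0)]⟩,⟨1,[(1,1),(20,0),(5,3),(1,0)]⟩⟩,.e ⟨false,1,
  ⟨1,[(11,0),(0,0),(17,0)]⟩,⟨0,[]⟩⟩ ⟨false,0,⟨0,[(0,0)]⟩,⟨1,[(18,0),(0,0),(2,0),(5,1),(1,0)]⟩⟩,.o
  ⟨false,0,⟨1,[(1,1),(20,0),(5,1),(1,0)]⟩,⟨0,[(29,0)]⟩⟩]⟩) (.Q [0,0,1,0,0,0,0,0,0,-1] (.pp true [-1,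
  1]) (.Q [0,-1,0,-1,1,0,-1,-1,0,-1,1] (.p true [0,0,1] [1] (⟨0,[(22,0)]⟩,⟨0,[(21,0)]⟩) .k 1 (⟨0,
  []⟩,⟨0,[]⟩) .k .k) (.R ⟨0,false,false,true,[1,-1],[0,0,1],[0,1,-1,-1],(⟨0,[(25,0)]⟩,⟨0,[(26,0)]⟩),
  (⟨0,[(23,0)]⟩,⟨0,[(22,0)]⟩),⟨0,[(11,0),(0,0)]⟩,.k,.k,(.r (-1) ⟨0,[(30,1),(0,0)]⟩ ⟨0,[(3,1),(24,1),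
  (1,1),(1,1)]⟩),.k,.k,.k,⟨false,1,⟨0,[(0,0),(16,0),(10,0),(1,0)]⟩,⟨0,[(1,0),(2,0),(16,0),(6,0),(3,
  0)]⟩⟩,⟨true,0,⟨0,[(17,0)]⟩,⟨0,[(1,0),(19,0)]⟩⟩,⟨true,0,⟨0,[(34,0)]⟩,⟨0,[]⟩⟩,⟨false,0,⟨1,[(4,0),(0,
  0),(0,0),(21,0),(3,0)]⟩,⟨0,[(0,0)]⟩⟩,⟨false,0,⟨0,[]⟩,⟨0,[]⟩⟩,⟨false,0,⟨0,[]⟩,⟨0,[]⟩⟩,[.a ⟨true,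
  (-1),⟨0,[(4,0)]⟩,⟨0,[(19,0),(12,0)]⟩⟩ ⟨true,0,⟨0,[(28,0),(1,1)]⟩,⟨0,[(3,0),(28,0)]⟩⟩ ⟨false,0,⟨0,
  [(4,0),(26,0)]⟩,⟨5,[(0,3),(6,1),(13,1),(2,0),(7,0)]⟩⟩,.o ⟨false,0,⟨1,[(4,1),(19,0),(7,0)]⟩,⟨3,[(0,
  1),(8,1),(3,0),(0,0),(9,0)]⟩⟩,.o ⟨false,0,⟨0,[(1,0)]⟩,⟨1,[(13,0),(0,0),(16,0)]⟩⟩,.o ⟨false,0,⟨9,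
  [(2,7),(0,3),(3,1),(0,1),(15,0),(7,2)]⟩,⟨0,[(31,0)]⟩⟩]⟩) (.I [1,-1,-1,0,1,0,0,1] (.I [0,1,2,2,-1]
  (.R ⟨0,false,false,false,[1,-1],[0,0,1],[0,1,1],(⟨0,[(27,0)]⟩,⟨0,[(28,0)]⟩),(⟨0,[(25,0)]⟩,⟨0,[(24,
  0)]⟩),⟨0,[(13,0),(0,0)]⟩,.k,.k,(.r (-1) ⟨0,[(32,1),(0,0)]⟩ ⟨1,[(0,0),(8,0),(0,0),(23,0)]⟩),.k,.k,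
  .k,⟨false,0,⟨0,[(4,0),(6,0),(7,0)]⟩,⟨0,[(1,0)]⟩⟩,⟨true,0,⟨0,[(19,0)]⟩,⟨0,[(3,0),(19,0)]⟩⟩,⟨true,
  (-1),⟨0,[(0,0),(31,0)]⟩,⟨0,[(32,0),(0,0)]⟩⟩,⟨false,0,⟨0,[(2,0),(31,0)]⟩,⟨1,[(21,1),(4,0),(5,1),(1,
  0)]⟩⟩,⟨false,0,⟨0,[]⟩,⟨0,[]⟩⟩,⟨false,0,⟨0,[]⟩,⟨0,[]⟩⟩,[.o ⟨false,0,⟨1,[(6,1),(19,0),(7,0)]⟩,⟨1,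
  [(21,1),(4,0),(7,0)]⟩⟩,.a ⟨true,0,⟨0,[(6,0),(27,0)]⟩,⟨0,[(21,0)]⟩⟩ ⟨true,0,⟨1,[(22,0),(0,0)]⟩,⟨0,
  []⟩⟩ ⟨false,1,⟨0,[(1,0),(17,0)]⟩,⟨0,[(4,0),(6,0)]⟩⟩,.o ⟨false,0,⟨0,[(3,0)]⟩,⟨1,[(15,0),(0,0),(16,
  0)]⟩⟩,.o ⟨false,0,⟨2,[(1,0),(2,2),(0,0),(3,0)]⟩,⟨0,[(33,0)]⟩⟩]⟩) (.R ⟨0,false,false,false,[1,-1],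
  [0,1],[0,0,1],(⟨0,[(27,0)]⟩,⟨0,[(28,0)]⟩),(⟨0,[(28,0)]⟩,⟨0,[(27,0)]⟩),⟨0,[(13,0),(0,0)]⟩,.k,.k,
  (.r (-1) ⟨0,[(0,0),(35,0)]⟩ ⟨0,[(5,1),(24,1),(1,1),(1,1)]⟩),(.r (-1) ⟨0,[(0,0),(35,0)]⟩ ⟨0,[(5,1),
  (24,1),(1,1),(1,1)]⟩),.k,.k,⟨true,0,⟨0,[(32,0)]⟩,⟨0,[(8,0)]⟩⟩,⟨false,1,⟨2,[(0,2),(0,0),(0,1),(8,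
  2),(7,0),(10,0),(3,0)]⟩,⟨2,[(1,0),(2,2),(0,0),(3,0)]⟩⟩,⟨false,0,⟨0,[(5,0),(28,0)]⟩,⟨7,[(0,3),(14,
  0),(0,0),(12,1),(3,2)]⟩⟩,⟨true,0,⟨0,[(2,0),(8,0),(22,0)]⟩,⟨1,[(0,0),(3,2),(1,0),(14,0),(8,0)]⟩⟩,
  ⟨false,0,⟨0,[]⟩,⟨0,[]⟩⟩,⟨false,0,⟨0,[]⟩,⟨0,[]⟩⟩,[.a ⟨true,0,⟨1,[(2,0),(8,0),(12,0),(0,0),(8,0)]⟩,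
  ⟨0,[(32,0)]⟩⟩ ⟨true,0,⟨1,[(22,0),(0,0)]⟩,⟨0,[]⟩⟩ ⟨false,1,⟨0,[(1,0),(9,0),(7,0)]⟩,⟨0,[(4,0)]⟩⟩,.o
  ⟨false,1,⟨3,[(1,1),(7,1),(23,0),(0,0)]⟩,⟨3,[(0,0),(3,4),(1,0),(14,0),(8,2)]⟩⟩,.o ⟨false,0,⟨0,[(3,
  0)]⟩,⟨1,[(15,0),(0,0),(16,0)]⟩⟩,.o ⟨false,0,⟨2,[(1,0),(2,2),(0,0),(3,0)]⟩,⟨0,[(33,0)]⟩⟩]⟩)) (.R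
  ⟨0,false,false,true,[1,-1],[0,0,1],[0,1,0,0,0,0,0,1],(⟨0,[(26,0)]⟩,⟨0,[(27,0)]⟩),(⟨0,[(24,0)]⟩,⟨0,
  [(23,0)]⟩),⟨0,[(12,0),(0,0)]⟩,.k,.k,(.r (-1) ⟨0,[(31,1),(0,0)]⟩ ⟨0,[(0,1),(0,1),(0,1),(19,1),(6,
  3),(1,3),(1,3)]⟩),.k,.k,.k,⟨false,1,⟨1,[(14,0),(0,0),(16,0)]⟩,⟨0,[]⟩⟩,⟨true,0,⟨0,[(18,0)]⟩,⟨0,[(2,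
  0),(19,0)]⟩⟩,⟨false,0,⟨1,[(1,1),(20,1),(2,0),(7,0)]⟩,⟨0,[(0,0),(30,0),(0,0),(0,0)]⟩⟩,⟨true,(-1),
  ⟨0,[(1,0)]⟩,⟨1,[(20,1),(4,0),(5,1),(1,0)]⟩⟩,⟨false,0,⟨0,[]⟩,⟨0,[]⟩⟩,⟨false,0,⟨0,[]⟩,⟨0,[]⟩⟩,[.a
  ⟨true,(-1),⟨0,[(5,0)]⟩,⟨0,[(20,0),(12,0)]⟩⟩ ⟨true,0,⟨0,[(9,0)]⟩,⟨0,[(0,0),(32,0)]⟩⟩ ⟨false,0,⟨0,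
  [(5,0),(26,0)]⟩,⟨0,[(3,0),(6,0),(22,0)]⟩⟩,.o ⟨false,0,⟨1,[(5,1),(19,0),(7,0)]⟩,⟨1,[(20,1),(4,0),
  (7,0)]⟩⟩,.o ⟨false,0,⟨0,[(2,0)]⟩,⟨1,[(14,0),(0,0),(16,0)]⟩⟩,.o ⟨false,0,⟨9,[(3,7),(0,3),(3,1),(0,
  1),(15,0),(7,2)]⟩,⟨0,[(32,0)]⟩⟩]⟩))) (.R ⟨0,false,false,true,[1,-1],[0,1],[],(⟨0,[(24,0)]⟩,⟨0,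
  [(25,0)]⟩),(⟨0,[(25,0)]⟩,⟨0,[(24,0)]⟩),⟨0,[(10,0),(0,0)]⟩,.k,.k,(.r (-1) ⟨0,[(29,1),(0,0)]⟩ ⟨0,
  [(2,1),(24,1),(1,1),(1,1)]⟩),(.r (-1) ⟨0,[(29,1),(0,0)]⟩ ⟨0,[(2,1),(24,1),(1,1),(1,1)]⟩),.k,.k,
  ⟨true,1,⟨1,[(29,1),(0,0),(0,0)]⟩,⟨0,[(2,0)]⟩⟩,⟨false,1,⟨0,[(0,0),(29,0)]⟩,⟨9,[(1,7),(0,3),(3,1),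
  (0,1),(15,0),(7,2)]⟩⟩,⟨true,0,⟨0,[(2,0),(24,0),(1,0),(1,0)]⟩,⟨0,[(27,0),(1,1)]⟩⟩,⟨false,0,⟨0,[(0,
  0),(1,0),(24,0),(3,0)]⟩,⟨1,[(23,0),(5,3),(1,0)]⟩⟩,⟨false,0,⟨0,[]⟩,⟨0,[]⟩⟩,⟨false,0,⟨0,[]⟩,⟨0,[]⟩⟩,
  [.o ⟨false,0,⟨0,[(28,0)]⟩,⟨1,[(23,0),(5,1),(1,0)]⟩⟩,.e ⟨false,1,⟨1,[(30,0),(0,0)]⟩,⟨0,[(33,0)]⟩⟩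
  ⟨false,1,⟨1,[(0,1),(27,1),(1,0),(0,0)]⟩,⟨0,[(1,0)]⟩⟩,.a ⟨true,0,⟨1,[(19,0),(0,0)]⟩,⟨0,[(0,0)]⟩⟩
  ⟨false,1,⟨1,[(12,0),(0,0),(17,0)]⟩,⟨0,[]⟩⟩ ⟨true,0,⟨0,[(0,0),(27,0)]⟩,⟨0,[(1,0)]⟩⟩,.o ⟨false,0,⟨9,
  [(1,7),(0,3),(3,1),(0,1),(15,0),(7,2)]⟩,⟨0,[(30,0)]⟩⟩]⟩))) (.Q [0,-1,0,1,1,0,-1,0,0,-1,1] (.p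
  true [0,0,1] [1] (⟨0,[(20,0)]⟩,⟨0,[(19,0)]⟩) .k 1 (⟨0,[]⟩,⟨0,[]⟩) .k .k) (.R ⟨0,false,false,false,
  [-1,1,1],[0,1],[0,0,1],(⟨0,[(9,0)]⟩,⟨0,[(20,0),(2,0)]⟩),(⟨0,[(24,0)]⟩,⟨0,[(23,0)]⟩),⟨0,[(20,0)]⟩,
  .k,.k,.k,.k,.k,.k,⟨true,0,⟨0,[(28,0)]⟩,⟨0,[(4,0)]⟩⟩,⟨false,1,⟨0,[(0,0),(25,0),(1,1)]⟩,⟨1,[(8,0),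
  (11,0),(0,0)]⟩⟩,⟨false,1,⟨0,[(1,0),(3,0),(22,1)]⟩,⟨0,[(0,0),(1,0)]⟩⟩,⟨true,1,⟨1,[(17,1),(4,0),(7,
  0)]⟩,⟨0,[(2,0)]⟩⟩,⟨false,0,⟨0,[]⟩,⟨0,[]⟩⟩,⟨false,0,⟨0,[]⟩,⟨0,[]⟩⟩,[.a ⟨true,0,⟨0,[(2,0),(4,0),(22,
  0)]⟩,⟨0,[(28,0)]⟩⟩ ⟨true,0,⟨1,[(18,0),(0,0)]⟩,⟨0,[]⟩⟩ ⟨false,1,⟨10,[(0,8),(4,0),(0,2),(4,0),(0,0),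
  (4,1),(4,0),(2,1)]⟩,⟨0,[(15,0),(12,0)]⟩⟩,.e ⟨false,1,⟨1,[(11,0),(0,0),(17,0)]⟩,⟨0,[(26,0),(1,
  0)]⟩⟩ ⟨false,1,⟨0,[(0,0)]⟩,⟨4,[(3,0),(4,0),(6,2),(1,0),(7,1),(2,4)]⟩⟩,.o ⟨false,0,⟨0,[(15,0)]⟩,⟨0,
  [(19,0),(2,0)]⟩⟩,.e ⟨false,1,⟨1,[(11,0),(0,0),(17,0)]⟩,⟨0,[]⟩⟩ ⟨false,1,⟨0,[(0,0)]⟩,⟨1,[(8,0),(11,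
  0),(0,0),(6,1)]⟩⟩]⟩) (.I [0,0,-1,-1,0,0,0,-2] (.Q [0,0,-1,0,0,0,-1,0,0,1,1] (.p true [1,-1,1] []
  (⟨0,[(22,0),(1,0)]⟩,⟨0,[(11,0)]⟩) .k 0 (⟨0,[]⟩,⟨0,[]⟩) .k .k) (.R ⟨0,false,false,true,[0,0,1],[0,
  1],[0,1,1],(⟨0,[(23,0)]⟩,⟨0,[(22,0)]⟩),(⟨0,[(26,0)]⟩,⟨0,[(25,0)]⟩),⟨0,[(12,0)]⟩,.k,.k,.k,.k,.k,.k,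
  ⟨true,0,⟨0,[(30,0)]⟩,⟨0,[(6,0)]⟩⟩,⟨false,1,⟨1,[(0,1),(23,0),(6,0)]⟩,⟨0,[(20,0)]⟩⟩,⟨false,0,⟨9,[(1,
  3),(5,1),(12,4),(0,4)]⟩,⟨0,[(0,0),(3,0),(19,0),(7,0)]⟩⟩,⟨true,0,⟨0,[(9,0)]⟩,⟨1,[(4,1),(19,0),(5,
  1),(1,0)]⟩⟩,⟨false,0,⟨0,[]⟩,⟨0,[]⟩⟩,⟨false,0,⟨0,[]⟩,⟨0,[]⟩⟩,[.o ⟨false,0,⟨0,[(29,0)]⟩,⟨1,[(24,0),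
  (5,1),(1,0)]⟩⟩,.a ⟨true,0,⟨9,[(0,4),(3,1),(0,1),(1,3),(9,0),(10,1),(3,1)]⟩,⟨0,[(30,0)]⟩⟩ ⟨true,0,
  ⟨1,[(20,0),(0,0)]⟩,⟨0,[]⟩⟩ ⟨false,1,⟨1,[(0,1),(23,0),(4,1),(2,0)]⟩,⟨1,[(2,1),(21,0),(7,0)]⟩⟩,.o
  ⟨false,0,⟨9,[(1,3),(2,9),(2,1),(16,4),(7,4)]⟩,⟨1,[(21,1),(2,0),(6,0)]⟩⟩,.o ⟨false,0,⟨0,[(20,0)]⟩,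
  ⟨0,[(0,0),(23,0)]⟩⟩]⟩) (.Q [0,-1,0,-1,1,0,-1,-1,0,-1,1] (.p true [0,0,1] [1] (⟨0,[(23,0)]⟩,⟨0,
  [(22,0)]⟩) .k 1 (⟨0,[]⟩,⟨0,[]⟩) .k .k) (.R ⟨2,true,false,false,[0,1],[1,0,-1],[0,0,1],(⟨0,[]⟩,⟨0,
  []⟩),(⟨0,[(23,0)]⟩,⟨0,[(24,0)]⟩),⟨0,[]⟩,.k,.k,.k,.k,.k,.k,⟨true,0,⟨1,[(5,1),(16,1),(2,0),(7,0)]⟩,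
  ⟨4,[(2,1),(5,0)]⟩⟩,⟨false,1,⟨1,[(22,1),(2,0),(6,0)]⟩,⟨0,[(18,0)]⟩⟩,⟨true,0,⟨0,[(31,0)]⟩,⟨0,[(30,
  0)]⟩⟩,⟨false,1,⟨0,[(0,0)]⟩,⟨1,[(5,0),(0,0),(0,0),(21,0),(3,0)]⟩⟩,⟨false,1,⟨1,[(14,0),(0,0),(17,
  0)]⟩,⟨0,[]⟩⟩,⟨true,1,⟨3,[(0,1),(9,1),(3,0),(0,0),(9,0)]⟩,⟨0,[(5,0)]⟩⟩,[]⟩) (.R ⟨0,false,false,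
  true,[1,0,-1],[0,1,-1],[0,1],(⟨0,[(23,0)]⟩,⟨0,[(24,0)]⟩),(⟨0,[(13,0)]⟩,⟨0,[(24,0),(1,0)]⟩),⟨0,
  [(12,0)]⟩,.k,.k,.k,.k,.k,.k,⟨false,1,⟨0,[(4,0),(4,0)]⟩,⟨4,[(2,0),(5,2)]⟩⟩,⟨true,0,⟨5,[(0,4),(1,1),
  (1,3),(5,0),(11,3),(0,0),(0,0),(8,0)]⟩,⟨0,[(1,0),(20,0)]⟩⟩,⟨true,0,⟨0,[(9,0)]⟩,⟨4,[(2,1),(5,0)]⟩⟩,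
  ⟨false,0,⟨1,[(0,0),(9,0),(12,0),(0,0),(8,0)]⟩,⟨1,[(25,0),(5,1),(1,0)]⟩⟩,⟨false,0,⟨0,[]⟩,⟨0,[]⟩⟩,
  ⟨false,0,⟨0,[]⟩,⟨0,[]⟩⟩,[.o ⟨false,0,⟨0,[(10,0)]⟩,⟨0,[(5,0),(19,0),(5,0),(1,0)]⟩⟩,.e ⟨false,1,⟨1,
  [(14,0),(0,0),(16,0)]⟩,⟨0,[]⟩⟩ ⟨false,0,⟨0,[(0,0),(1,0),(19,0),(6,0),(3,0)]⟩,⟨1,[(9,1),(15,0),(5,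
  1),(1,0)]⟩⟩,.o ⟨false,1,⟨1,[(22,1),(2,0),(6,0)]⟩,⟨1,[(1,0),(16,0)]⟩⟩,.a ⟨true,0,⟨0,[(22,0)]⟩,⟨0,
  [(18,0)]⟩⟩ ⟨true,0,⟨0,[(29,0),(1,0)]⟩,⟨1,[(21,0),(0,0)]⟩⟩ ⟨false,0,⟨0,[(0,0),(1,0),(19,0),(6,0),
  (3,0)]⟩,⟨0,[(5,0),(16,0),(2,0),(5,0),(1,0)]⟩⟩]⟩))) (.Q [0,0,0,0,0,0,1,0,0,0,-1] (.p false [0,0,1]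
  [] (⟨0,[(22,0)]⟩,⟨0,[(21,0)]⟩) .k 0 (⟨0,[]⟩,⟨0,[]⟩) .k .k) (.I [0,0,1,0,0,0,0,-1] (.Q [0,0,-1,0,1,
  0,-1,0,0,-1,1] (.p true [0,0,1] [1] (⟨0,[(24,0)]⟩,⟨0,[(23,0)]⟩) .k 1 (⟨0,[]⟩,⟨0,[]⟩) .k .k) (.R
  ⟨0,false,false,true,[0,0,1],[0,1],[0,1,1],(⟨0,[(25,0)]⟩,⟨0,[(24,0)]⟩),(⟨0,[(28,0)]⟩,⟨0,[(27,0)]⟩),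
  ⟨0,[(14,0)]⟩,.k,.k,.k,.k,.k,.k,⟨true,0,⟨0,[(32,0)]⟩,⟨0,[(8,0)]⟩⟩,⟨false,1,⟨0,[(5,0),(17,0),(6,
  0)]⟩,⟨0,[(22,0)]⟩⟩,⟨false,0,⟨0,[(1,0)]⟩,⟨3,[(3,1),(1,1),(27,0),(0,0)]⟩⟩,⟨true,0,⟨0,[(11,0)]⟩,⟨1,
  [(6,1),(19,0),(5,1),(1,0)]⟩⟩,⟨false,0,⟨0,[]⟩,⟨0,[]⟩⟩,⟨false,0,⟨0,[]⟩,⟨0,[]⟩⟩,[.o ⟨false,0,⟨0,[(31,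
  0)]⟩,⟨1,[(26,0),(5,1),(1,0)]⟩⟩,.a ⟨true,0,⟨0,[(6,0),(4,0),(22,0)]⟩,⟨0,[(32,0)]⟩⟩ ⟨true,0,⟨1,[(22,
  0),(0,0)]⟩,⟨0,[]⟩⟩ ⟨false,1,⟨3,[(3,1),(1,1),(5,3),(21,0),(0,0)]⟩,⟨1,[(4,1),(21,0),(7,0)]⟩⟩,.o
  ⟨false,0,⟨0,[(2,0)]⟩,⟨3,[(0,1),(14,0),(0,0),(6,1),(2,0)]⟩⟩,.o ⟨false,0,⟨0,[(22,0)]⟩,⟨0,[(0,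
  0)]⟩⟩]⟩) (.I [0,1,-1,-1,0,0,0,-1] (.R ⟨0,false,false,true,[-1,1,1],[0,1],[0,1],(⟨0,[(14,0)]⟩,⟨0,
  [(25,0),(2,0)]⟩),(⟨0,[(29,0)]⟩,⟨0,[(28,0)]⟩),⟨0,[(25,0)]⟩,.k,.k,.k,.k,.k,.k,⟨false,1,⟨4,[(6,3),(9,
  0),(0,0),(12,1),(2,0)]⟩,⟨0,[(9,0)]⟩⟩,⟨true,1,⟨1,[(24,1),(2,0),(6,0)]⟩,⟨0,[(1,0)]⟩⟩,⟨true,0,⟨0,[(0,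
  0)]⟩,⟨4,[(4,2),(5,0)]⟩⟩,⟨false,1,⟨1,[(22,1),(4,0),(7,0)]⟩,⟨0,[(7,0),(27,0)]⟩⟩,⟨false,0,⟨0,[]⟩,⟨0,
  []⟩⟩,⟨false,0,⟨0,[]⟩,⟨0,[]⟩⟩,[.o ⟨false,0,⟨0,[(32,0)]⟩,⟨1,[(27,0),(5,1),(1,0)]⟩⟩,.e ⟨false,1,⟨1,
  [(16,0),(0,0),(16,0)]⟩,⟨0,[]⟩⟩ ⟨false,1,⟨1,[(24,1),(2,0),(3,1),(3,0)]⟩,⟨6,[(5,3),(0,2),(1,0),(4,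
  0),(6,0),(1,0),(12,0)]⟩⟩,.o ⟨false,0,⟨0,[(20,0)]⟩,⟨0,[(24,0),(2,0)]⟩⟩,.a ⟨true,(-1),⟨0,[(1,1),(4,
  0),(17,0),(6,0)]⟩,⟨1,[(24,1),(2,0),(6,0)]⟩⟩ ⟨true,0,⟨0,[(31,0),(1,0)]⟩,⟨1,[(23,0),(0,0)]⟩⟩ ⟨false,
  1,⟨1,[(24,1),(2,0),(3,1),(3,0)]⟩,⟨0,[(5,0),(29,0)]⟩⟩]⟩) (.R ⟨0,false,false,false,[-1,1,1],[0,1],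
  [0,0,1,1],(⟨0,[(14,0)]⟩,⟨0,[(25,0),(2,0)]⟩),(⟨0,[(29,0)]⟩,⟨0,[(28,0)]⟩),⟨0,[(25,0)]⟩,.k,.k,.k,.k,
  .k,.k,⟨false,1,⟨1,[(16,0),(0,0),(16,0)]⟩,⟨0,[]⟩⟩,⟨true,1,⟨1,[(24,1),(2,0),(6,0)]⟩,⟨0,[(1,0)]⟩⟩,
  ⟨false,1,⟨1,[(2,1),(31,0),(0,0)]⟩,⟨0,[(0,0),(30,0),(1,1)]⟩⟩,⟨true,1,⟨1,[(22,1),(4,0),(7,0)]⟩,⟨0,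
  [(7,0)]⟩⟩,⟨false,0,⟨0,[]⟩,⟨0,[]⟩⟩,⟨false,0,⟨0,[]⟩,⟨0,[]⟩⟩,[.a ⟨true,0,⟨1,[(0,0),(11,0),(7,0),(4,
  0),(0,0)]⟩,⟨0,[(33,0)]⟩⟩ ⟨true,0,⟨0,[(0,1),(0,1),(4,0),(5,1),(14,0),(3,0),(1,2)]⟩,⟨0,[(33,0)]⟩⟩
  ⟨false,1,⟨5,[(0,0),(3,1),(1,1),(5,4),(11,0),(2,2),(7,0)]⟩,⟨6,[(5,3),(0,2),(1,0),(4,0),(6,0),(1,0),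
  (12,0)]⟩⟩,.a ⟨true,0,⟨0,[(0,0),(0,0),(4,0),(5,0)]⟩,⟨0,[(33,0),(3,0)]⟩⟩ ⟨false,1,⟨9,[(4,1),(5,3),
  (23,4),(0,4)]⟩,⟨0,[(31,0),(1,1)]⟩⟩ ⟨true,1,⟨1,[(0,0),(11,0),(11,0),(2,0),(7,0)]⟩,⟨0,[(5,0)]⟩⟩,.o
  ⟨false,0,⟨0,[(20,0)]⟩,⟨0,[(24,0),(2,0)]⟩⟩,.a ⟨true,(-1),⟨3,[(0,0),(0,5),(4,3),(0,1),(4,2),(11,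
  0)]⟩,⟨1,[(24,1),(2,0),(6,0)]⟩⟩ ⟨false,1,⟨9,[(4,1),(5,3),(23,4),(0,4)]⟩,⟨0,[(33,0)]⟩⟩ ⟨true,1,⟨5,
  [(0,0),(3,1),(1,1),(5,4),(11,0),(2,2),(7,0)]⟩,⟨0,[(5,0)]⟩⟩]⟩))) (.R ⟨0,false,false,false,[0,0,1],
  [1,-1],[1],(⟨0,[(24,0)]⟩,⟨0,[(23,0)]⟩),(⟨0,[(26,0)]⟩,⟨0,[(27,0)]⟩),⟨0,[(13,0)]⟩,.k,.k,.k,.k,.k,.k,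
  ⟨true,0,⟨0,[(7,0)]⟩,⟨0,[(31,0)]⟩⟩,⟨false,1,⟨1,[(22,1),(2,0),(6,0)]⟩,⟨0,[(18,0)]⟩⟩,⟨false,1,⟨0,[(1,
  0),(18,0),(12,0)]⟩,⟨2,[(0,0),(1,0),(28,0)]⟩⟩,⟨true,1,⟨1,[(20,1),(4,0),(5,1),(1,0)]⟩,⟨0,[(0,1),(2,
  0),(4,0)]⟩⟩,⟨false,0,⟨0,[]⟩,⟨0,[]⟩⟩,⟨false,0,⟨0,[]⟩,⟨0,[]⟩⟩,[.a ⟨true,0,⟨0,[(31,0)]⟩,⟨0,[(5,0),(4,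
  0),(22,0)]⟩⟩ ⟨true,0,⟨0,[]⟩,⟨1,[(21,0),(0,0)]⟩⟩ ⟨false,1,⟨1,[(0,0),(3,0),(15,0),(1,0),(2,0),(5,
  0)]⟩,⟨4,[(2,0),(5,1),(9,4)]⟩⟩,.o ⟨false,1,⟨1,[(25,0),(5,1),(1,0)]⟩,⟨0,[(30,0)]⟩⟩,.o ⟨false,0,⟨0,
  [(1,0)]⟩,⟨1,[(22,1),(2,0),(6,0)]⟩⟩,.o ⟨false,0,⟨0,[(21,0)]⟩,⟨1,[(0,0),(3,0),(5,0),(11,0),(2,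
  0)]⟩⟩]⟩)) (.R ⟨0,false,false,false,[-1,1,1],[0,1],[1,0,1,1],(⟨0,[(11,0)]⟩,⟨0,[(22,0),(2,0)]⟩),(⟨0,
  [(26,0)]⟩,⟨0,[(25,0)]⟩),⟨0,[(22,0)]⟩,.k,.k,.k,.k,.k,.k,⟨true,0,⟨0,[]⟩,⟨1,[(20,0),(0,0)]⟩⟩,⟨false,
  1,⟨1,[(0,1),(23,0),(6,0)]⟩,⟨8,[(2,1),(2,2),(1,0),(2,1),(6,1),(1,1),(12,1)]⟩⟩,⟨false,1,⟨3,[(2,1),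
  (0,1),(3,1),(11,1),(4,0),(7,2)]⟩,⟨1,[(0,1),(3,1),(19,0),(7,0)]⟩⟩,⟨true,1,⟨1,[(19,1),(4,0),(7,0)]⟩,
  ⟨0,[(4,0)]⟩⟩,⟨false,0,⟨0,[]⟩,⟨0,[]⟩⟩,⟨false,0,⟨0,[]⟩,⟨0,[]⟩⟩,[.a ⟨true,0,⟨4,[(0,4),(0,0),(5,1),(9,
  4)]⟩,⟨0,[(30,0)]⟩⟩ ⟨true,0,⟨0,[(6,0)]⟩,⟨0,[(30,0)]⟩⟩ ⟨false,1,⟨5,[(0,1),(0,1),(7,3),(14,2),(6,0),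
  (0,1)]⟩,⟨6,[(2,3),(0,2),(1,0),(4,0),(6,0),(1,0),(12,0)]⟩⟩,.o ⟨false,1,⟨9,[(1,1),(5,3),(23,4),(0,
  4)]⟩,⟨0,[(0,0),(1,0),(21,0)]⟩⟩,.o ⟨false,0,⟨0,[(17,0)]⟩,⟨0,[(21,0),(2,0)]⟩⟩,.o ⟨false,0,⟨8,[(2,1),
  (2,2),(1,0),(2,1),(6,1),(1,1),(12,1)]⟩,⟨0,[(0,0),(23,0)]⟩⟩]⟩))))))

theorem ok8 : chk K t8 l7 = true := by decide +kernel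

noncomputable def t9 : Tre :=
  (.Q [0,0,0,0,0,0,-1,0,0,0,1] (.p true [0,0,1] [] (⟨0,[(18,0)]⟩,⟨0,[(17,0)]⟩) .k 0 (⟨0,[]⟩,⟨0,[]⟩)
  .k .k) (.R ⟨2,false,false,true,[0,1],[0,0,1],[0,1,1],(⟨0,[]⟩,⟨0,[]⟩),(⟨0,[(19,0)]⟩,⟨0,[(18,0)]⟩),
  ⟨0,[]⟩,.k,.k,.k,.k,.k,.k,⟨false,0,⟨2,[(1,1),(1,0),(9,1),(12,1)]⟩,⟨1,[(4,1),(22,0),(0,0)]⟩⟩,⟨true,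
  0,⟨0,[(16,0)]⟩,⟨0,[(0,0)]⟩⟩,⟨false,0,⟨0,[(26,0)]⟩,⟨0,[(25,0),(2,0)]⟩⟩,⟨true,0,⟨0,[(14,0),(11,0)]⟩,
  ⟨0,[(0,0),(0,0),(0,0),(10,0)]⟩⟩,⟨true,0,⟨0,[(30,0)]⟩,⟨0,[]⟩⟩,⟨true,0,⟨0,[(14,0)]⟩,⟨0,[(1,0),(16,
  0),(0,0)]⟩⟩,[.o ⟨false,0,⟨0,[(14,0)]⟩,⟨3,[(1,1),(13,1),(4,0),(7,2)]⟩⟩,.o ⟨false,1,⟨1,[(9,0),(0,0),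
  (3,1),(13,0)]⟩,⟨0,[(1,0)]⟩⟩,.a ⟨true,0,⟨0,[(0,0),(12,0)]⟩,⟨1,[(16,0),(0,0)]⟩⟩ ⟨false,0,⟨1,[(16,0),
  (0,0)]⟩,⟨1,[(27,0),(0,0)]⟩⟩ ⟨true,0,⟨0,[(4,0),(11,0)]⟩,⟨0,[(0,0),(0,0),(11,0)]⟩⟩,.e ⟨true,0,⟨0,
  [(30,0)]⟩,⟨0,[]⟩⟩ ⟨true,0,⟨0,[(14,0)]⟩,⟨0,[(1,0),(16,0),(0,0)]⟩⟩]⟩) (.Q [0,0,0,1,0,0,0,0,0,1]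
  (.pp false [-1,1]) (.Q [0,0,1,-1,0,0,-1,0,0,-1,1] (.p true [0,0,1] [1] (⟨0,[(20,0)]⟩,⟨0,[(19,
  0)]⟩) .k 1 (⟨0,[]⟩,⟨0,[]⟩) .k .k) (.R ⟨0,false,false,true,[1,0,-1],[0,1],[1,0,1],(⟨0,[(20,0)]⟩,⟨0,
  [(21,0)]⟩),(⟨0,[(24,0)]⟩,⟨0,[(23,0)]⟩),⟨0,[(9,0)]⟩,.k,.k,.k,.k,.k,.k,⟨false,1,⟨1,[(28,1),(0,0),(0,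
  0)]⟩,⟨0,[(27,0)]⟩⟩,⟨true,0,⟨0,[(15,0)]⟩,⟨0,[(0,0),(3,0)]⟩⟩,⟨false,1,⟨1,[(6,1),(11,0),(0,0),(10,
  1)]⟩,⟨0,[(3,0),(11,0)]⟩⟩,⟨true,0,⟨0,[(1,0),(14,0)]⟩,⟨0,[(3,0),(24,0)]⟩⟩,⟨false,0,⟨0,[]⟩,⟨0,[]⟩⟩,
  ⟨false,0,⟨0,[]⟩,⟨0,[]⟩⟩,[.o ⟨false,0,⟨0,[(27,0)]⟩,⟨1,[(22,0),(5,1),(1,0)]⟩⟩,.a ⟨true,0,⟨0,[(1,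
  0)]⟩,⟨0,[(28,0)]⟩⟩ ⟨false,1,⟨1,[(11,0),(0,0),(17,0)]⟩,⟨0,[(26,0),(1,0)]⟩⟩ ⟨true,0,⟨0,[(1,0),(0,
  0)]⟩,⟨0,[(0,0)]⟩⟩,.o ⟨false,1,⟨1,[(19,1),(2,0),(6,0)]⟩,⟨0,[(2,0)]⟩⟩,.e ⟨true,0,⟨0,[]⟩,⟨0,[(32,
  0)]⟩⟩ ⟨true,0,⟨4,[(1,1),(6,1),(6,0),(9,0),(0,2)]⟩,⟨0,[(0,0)]⟩⟩]⟩) (.Q [0,0,2,0,0,0,-1,0,0,-1,1]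
  (.p true [0,0,1] [1] (⟨0,[(21,0)]⟩,⟨0,[(20,0)]⟩) .k 1 (⟨0,[]⟩,⟨0,[]⟩) .k .k) (.R ⟨0,false,false,
  true,[1,0,-1],[0,1],[1,0,1],(⟨0,[(21,0)]⟩,⟨0,[(22,0)]⟩),(⟨0,[(25,0)]⟩,⟨0,[(24,0)]⟩),⟨0,[(10,0)]⟩,
  .k,.k,.k,.k,.k,.k,⟨false,1,⟨1,[(29,1),(0,0),(0,0)]⟩,⟨0,[(28,0)]⟩⟩,⟨true,0,⟨0,[(16,0)]⟩,⟨0,[(0,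
  0)]⟩⟩,⟨false,1,⟨1,[(7,1),(11,0),(0,0),(10,1)]⟩,⟨0,[(4,0),(11,0)]⟩⟩,⟨true,0,⟨0,[(2,0),(14,0)]⟩,⟨0,
  [(4,0),(24,0)]⟩⟩,⟨false,0,⟨0,[]⟩,⟨0,[]⟩⟩,⟨false,0,⟨0,[]⟩,⟨0,[]⟩⟩,[.o ⟨false,0,⟨0,[(28,0)]⟩,⟨1,
  [(23,0),(5,1),(1,0)]⟩⟩,.e ⟨false,1,⟨1,[(12,0),(0,0),(17,0)]⟩,⟨0,[(27,0),(1,0)]⟩⟩ ⟨false,0,⟨0,[(1,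
  0)]⟩,⟨1,[(20,1),(2,0),(5,1),(0,0)]⟩⟩,.o ⟨false,1,⟨1,[(20,1),(2,0),(6,0)]⟩,⟨0,[(3,0)]⟩⟩,.a ⟨true,0,
  ⟨0,[(20,0)]⟩,⟨0,[(16,0)]⟩⟩ ⟨true,0,⟨0,[]⟩,⟨0,[(33,0)]⟩⟩ ⟨false,0,⟨0,[(1,0)]⟩,⟨1,[(20,1),(2,0),(5,
  1),(1,0)]⟩⟩]⟩) (.I [0,-1,1,0,0,0,0,-1] (.R ⟨0,false,false,false,[0,0,1],[0,1],[0,0,1],(⟨0,[(23,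
  0)]⟩,⟨0,[(22,0)]⟩),(⟨0,[(26,0)]⟩,⟨0,[(25,0)]⟩),⟨0,[(12,0)]⟩,.k,.k,.k,.k,.k,.k,⟨true,0,⟨0,[(30,
  0)]⟩,⟨0,[(6,0)]⟩⟩,⟨false,1,⟨1,[(1,1),(3,1),(2,1),(12,1),(9,0),(0,0)]⟩,⟨0,[(20,0)]⟩⟩,⟨false,0,⟨0,
  [(0,0)]⟩,⟨1,[(8,1),(22,0),(0,0)]⟩⟩,⟨true,0,⟨0,[(3,0),(1,0)]⟩,⟨0,[(18,0),(11,0)]⟩⟩,⟨false,0,⟨0,[]⟩,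
  ⟨0,[]⟩⟩,⟨false,0,⟨0,[]⟩,⟨0,[]⟩⟩,[.a ⟨true,0,⟨0,[(3,0)]⟩,⟨0,[(30,0)]⟩⟩ ⟨true,0,⟨1,[(20,0),(0,0)]⟩,
  ⟨0,[]⟩⟩ ⟨false,1,⟨1,[(21,1),(6,1),(2,0),(0,0)]⟩,⟨0,[(4,0),(25,0)]⟩⟩,.o ⟨false,1,⟨0,[(29,0),(2,
  0)]⟩,⟨0,[(5,0),(12,0),(11,0)]⟩⟩,.o ⟨false,0,⟨0,[(4,0)]⟩,⟨1,[(21,1),(2,0),(6,0)]⟩⟩,.o ⟨false,0,⟨0,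
  [(20,0)]⟩,⟨1,[(5,1),(2,1),(22,0),(0,0)]⟩⟩]⟩) (.I [0,0,2,2] (.Q [0,-1,-2,-1,1,0,1,1,0,0,-1] (.p
  false [0,0,1] [] (⟨0,[(24,0)]⟩,⟨0,[(23,0)]⟩) .k 0 (⟨0,[]⟩,⟨0,[]⟩) .k .k) (.R ⟨0,false,false,false,
  [1,-1],[1,-1,1],[1],(⟨0,[(27,0)]⟩,⟨0,[(28,0)]⟩),(⟨0,[(25,0),(1,0)]⟩,⟨0,[(14,0)]⟩),⟨0,[(13,0),(0,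
  0)]⟩,.k,.k,(.r (-1) ⟨0,[(0,0),(20,0),(10,0)]⟩ ⟨0,[(1,0)]⟩),.k,.k,.k,⟨false,0,⟨1,[(3,0),(3,0),(1,
  0)]⟩,⟨3,[(0,2),(9,1),(4,0),(0,0),(4,0),(1,1),(8,0)]⟩⟩,⟨true,0,⟨0,[(6,0)]⟩,⟨0,[(23,0)]⟩⟩,⟨true,0,
  ⟨0,[(8,0)]⟩,⟨4,[(2,0),(0,0),(3,0),(21,1),(2,4)]⟩⟩,⟨false,1,⟨0,[(20,0),(13,0)]⟩,⟨0,[(7,0),(16,0),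
  (0,0)]⟩⟩,⟨false,0,⟨0,[]⟩,⟨0,[]⟩⟩,⟨false,0,⟨0,[]⟩,⟨0,[]⟩⟩,[.o ⟨false,1,⟨1,[(20,1),(5,0),(5,1),(1,
  0)]⟩,⟨0,[(5,0),(1,0)]⟩⟩,.e ⟨false,1,⟨1,[(33,0),(0,0)]⟩,⟨0,[(36,0)]⟩⟩ ⟨false,1,⟨0,[(0,0)]⟩,⟨1,[(1,
  0),(19,1)]⟩⟩,.a ⟨true,0,⟨1,[(22,0),(0,0)]⟩,⟨0,[(3,0),(19,0)]⟩⟩ ⟨true,0,⟨0,[]⟩,⟨0,[(36,0)]⟩⟩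
  ⟨false,1,⟨1,[(0,0),(19,0),(11,0),(1,0)]⟩,⟨2,[(5,0),(1,1),(1,0),(13,0),(0,0),(0,0)]⟩⟩,.e ⟨false,1,
  ⟨1,[(33,0),(0,0)]⟩,⟨1,[(22,0),(0,0)]⟩⟩ ⟨false,1,⟨0,[(0,0)]⟩,⟨2,[(7,0),(1,1),(13,1),(0,0),(0,0),(6,
  0)]⟩⟩]⟩) (.Q [0,0,0,-1,0,0,-1,0,0,0,1] (.p true [0,0,1] [] (⟨0,[(25,0)]⟩,⟨0,[(24,0)]⟩) .k 0 (⟨0,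
  []⟩,⟨0,[]⟩) .k .k) (.R ⟨0,false,false,true,[0,1,-1],[0,1],[1],(⟨0,[(15,0)]⟩,⟨0,[(26,0),(1,0)]⟩),
  (⟨0,[(29,0)]⟩,⟨0,[(28,0)]⟩),⟨0,[(26,0)]⟩,.k,.k,.k,.k,.k,.k,⟨false,1,⟨1,[(0,1),(3,1),(22,0),(7,
  0)]⟩,⟨1,[(2,0),(34,1)]⟩⟩,⟨true,0,⟨0,[(7,0)]⟩,⟨0,[(24,0)]⟩⟩,⟨false,1,⟨0,[(3,0),(29,0),(1,0)]⟩,⟨8,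
  [(1,0),(6,2),(1,3),(2,1),(6,0),(1,0),(12,0)]⟩⟩,⟨true,0,⟨0,[(21,0)]⟩,⟨2,[(0,0),(0,0),(2,0),(3,0),
  (13,0),(12,0)]⟩⟩,⟨false,0,⟨0,[]⟩,⟨0,[]⟩⟩,⟨false,0,⟨0,[]⟩,⟨0,[]⟩⟩,[.o ⟨false,0,⟨0,[(32,0)]⟩,⟨1,
  [(27,0),(5,1),(1,0)]⟩⟩,.a ⟨true,0,⟨0,[(6,0)]⟩,⟨0,[(33,0)]⟩⟩ ⟨false,1,⟨1,[(34,0),(0,0)]⟩,⟨0,[(37,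
  0)]⟩⟩ ⟨true,0,⟨1,[(2,0),(4,1)]⟩,⟨0,[(0,0)]⟩⟩,.a ⟨true,0,⟨0,[(0,0),(0,0),(1,0),(0,0),(30,0)]⟩,⟨0,
  [(23,0)]⟩⟩ ⟨true,0,⟨0,[]⟩,⟨0,[(37,0)]⟩⟩ ⟨false,0,⟨1,[(2,0),(4,1)]⟩,⟨1,[(0,1),(33,0),(0,0)]⟩⟩,.a
  ⟨true,0,⟨0,[(0,0),(5,0)]⟩,⟨0,[(7,0)]⟩⟩ ⟨false,1,⟨1,[(34,0),(0,0)]⟩,⟨1,[(23,0),(0,0)]⟩⟩ ⟨true,0,⟨0,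
  [(7,0),(24,0)]⟩,⟨0,[(0,0)]⟩⟩]⟩) (.Q [0,-1,0,-1,1,0,1,1,0,-1,-1] (.p false [1,-1,1] [] (⟨0,[(26,0),
  (1,0)]⟩,⟨0,[(15,0)]⟩) .k 0 (⟨0,[]⟩,⟨0,[]⟩) .k .k) (.R ⟨0,false,false,true,[1,0,-1],[0,1,-1],[0,1],
  (⟨0,[(26,0)]⟩,⟨0,[(27,0)]⟩),(⟨0,[(16,0)]⟩,⟨0,[(27,0),(1,0)]⟩),⟨0,[(15,0)]⟩,.k,.k,.k,.k,.k,.k,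
  ⟨false,1,⟨1,[(4,1),(29,1),(0,0),(0,0)]⟩,⟨8,[(2,0),(6,2),(1,3),(2,1),(6,0),(1,0),(12,0)]⟩⟩,⟨true,0,
  ⟨0,[(5,0),(19,0)]⟩,⟨0,[(0,0),(1,0)]⟩⟩,⟨true,0,⟨0,[(12,0)]⟩,⟨5,[(2,0),(6,3),(4,1),(6,1),(1,0),(10,
  0),(1,0)]⟩⟩,⟨false,0,⟨0,[(7,0)]⟩,⟨1,[(28,0),(5,1),(1,0)]⟩⟩,⟨false,0,⟨0,[]⟩,⟨0,[]⟩⟩,⟨false,0,⟨0,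
  []⟩,⟨0,[]⟩⟩,[.o ⟨false,0,⟨0,[(13,0)]⟩,⟨0,[(0,0)]⟩⟩,.o ⟨false,0,⟨0,[(7,0),(1,0)]⟩,⟨0,[(0,0),(37,
  0)]⟩⟩,.o ⟨false,1,⟨1,[(25,1),(2,0),(6,0)]⟩,⟨0,[(8,0)]⟩⟩,.a ⟨true,0,⟨0,[(25,0)]⟩,⟨0,[(21,0)]⟩⟩
  ⟨true,0,⟨4,[(4,0),(0,0),(3,0),(21,1)]⟩,⟨1,[(24,0),(0,0)]⟩⟩ ⟨false,0,⟨1,[(2,0),(2,1),(7,0),(22,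
  0)]⟩,⟨0,[(0,0),(24,0)]⟩⟩]⟩) (.R ⟨0,false,false,true,[0,1,-1],[0,1],[1],(⟨0,[(16,0)]⟩,⟨0,[(27,0),
  (1,0)]⟩),(⟨0,[(30,0)]⟩,⟨0,[(29,0)]⟩),⟨0,[(27,0)]⟩,.k,.k,.k,.k,.k,.k,⟨false,1,⟨3,[(4,1),(0,1),(3,
  1),(24,3),(0,0),(0,2)]⟩,⟨1,[(3,0),(34,1)]⟩⟩,⟨true,0,⟨0,[(8,0)]⟩,⟨0,[(25,0)]⟩⟩,⟨false,1,⟨0,[(4,0),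
  (29,0),(1,0)]⟩,⟨17,[(0,0),(1,0),(6,5),(1,7),(2,4),(8,1),(12,1)]⟩⟩,⟨true,0,⟨0,[(22,0)]⟩,⟨2,[(0,0),
  (8,0),(13,0),(10,0),(1,0)]⟩⟩,⟨false,0,⟨0,[]⟩,⟨0,[]⟩⟩,⟨false,0,⟨0,[]⟩,⟨0,[]⟩⟩,[.o ⟨false,0,⟨0,[(33,
  0)]⟩,⟨1,[(28,0),(5,1),(1,0)]⟩⟩,.e ⟨false,1,⟨1,[(35,0),(0,0)]⟩,⟨0,[(38,0)]⟩⟩ ⟨false,0,⟨0,[(1,0)]⟩,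
  ⟨0,[(25,0),(8,0),(0,0)]⟩⟩,.a ⟨true,0,⟨0,[(0,0),(3,0),(29,0),(1,0)]⟩,⟨0,[(24,0)]⟩⟩ ⟨true,0,⟨0,[]⟩,
  ⟨0,[(38,0)]⟩⟩ ⟨false,0,⟨3,[(1,1),(1,0),(20,1)]⟩,⟨2,[(0,0),(3,1),(4,0),(15,0),(8,3),(0,0),(0,2)]⟩⟩,
  .e ⟨false,1,⟨1,[(35,0),(0,0)]⟩,⟨1,[(24,0),(0,0)]⟩⟩ ⟨false,0,⟨0,[(1,0)]⟩,⟨1,[(25,1),(8,1),(0,0),(0,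
  0)]⟩⟩]⟩)))) (.N [0,1] 0 ⟨0,[(7,0)]⟩ ⟨1,[(0,0)]⟩ .k))))) (.R ⟨0,false,false,true,[1,0,-1],[0,1],[0,
  0,1],(⟨0,[(19,0)]⟩,⟨0,[(20,0)]⟩),(⟨0,[(23,0)]⟩,⟨0,[(22,0)]⟩),⟨0,[(8,0)]⟩,.k,.k,.k,.k,.k,.k,⟨false,
  1,⟨1,[(27,1),(0,0),(0,0)]⟩,⟨0,[(26,0)]⟩⟩,⟨true,0,⟨0,[(14,0)]⟩,⟨0,[(0,0),(2,0),(14,0)]⟩⟩,⟨false,1,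
  ⟨1,[(5,1),(11,0),(0,0),(10,1)]⟩,⟨0,[(2,0),(11,0)]⟩⟩,⟨true,0,⟨0,[(3,0),(1,0),(8,0)]⟩,⟨0,[(2,0),(24,
  0)]⟩⟩,⟨false,0,⟨0,[]⟩,⟨0,[]⟩⟩,⟨false,0,⟨0,[]⟩,⟨0,[]⟩⟩,[.o ⟨false,0,⟨0,[(26,0)]⟩,⟨1,[(21,0),(5,1),
  (1,0)]⟩⟩,.o ⟨false,1,⟨3,[(4,1),(0,1),(4,0),(0,0),(16,1),(0,0)]⟩,⟨0,[(0,0)]⟩⟩,.o ⟨false,1,⟨1,[(18,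
  1),(2,0),(6,0)]⟩,⟨0,[(1,0)]⟩⟩,.a ⟨true,0,⟨0,[(18,0)]⟩,⟨0,[(14,0)]⟩⟩ ⟨false,1,⟨1,[(10,0),(0,0),(17,
  0)]⟩,⟨0,[]⟩⟩ ⟨true,0,⟨0,[(14,0),(11,0)]⟩,⟨0,[(0,0),(17,0)]⟩⟩]⟩)))

theorem ok9 : chk K t9 r7 = true := by decide +kernel

noncomputable def t11 : Tre :=
  (.Q [0,0,1,0,0,0,2,0,0,0,-2] (.p false [0,0,1] [0,1,-1] (⟨0,[(17,0)]⟩,⟨0,[(16,0)]⟩) .k 2 (⟨0,[(6,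
  0)]⟩,⟨0,[(17,0),(1,0)]⟩) .k (.r (-1) ⟨0,[(2,1),(23,0)]⟩ ⟨0,[(0,3),(0,1)]⟩)) (.I [2,0,1,1] (.I [0,
  0,-1,0,-1,1,0,0,1] (.N [0,1,0,0,1] 0 ⟨0,[(1,0)]⟩ ⟨0,[(3,0)]⟩ (.x 1 ⟨0,[(0,0)]⟩ ⟨1,[(10,1),(1,1),
  (4,0),(0,0),(2,1),(0,1)]⟩)) (.Q [0,0,0,1,0,0,1,0,0,1,-1] (.p false [0,0,1] [1] (⟨0,[(20,0)]⟩,⟨0,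
  [(19,0)]⟩) .k 1 (⟨0,[]⟩,⟨0,[]⟩) .k .k) (.Q [0,1,0,-1,0,0,-1,-1,0,-1,1] (.p true [0,0,1] [1] (⟨0,
  [(21,0)]⟩,⟨0,[(20,0)]⟩) .k 1 (⟨0,[]⟩,⟨0,[]⟩) .k .k) (.Q [0,1,-1,0,0,0,0,1,0,1] (.pp false [-1,1])
  (.Q [0,-1,0,-1,1,0,2,2,0,0,-2] (.p false [0,0,1] [0,1,-1] (⟨0,[(23,0)]⟩,⟨0,[(22,0)]⟩) .k 2 (⟨0,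
  [(12,0)]⟩,⟨0,[(23,0),(1,0)]⟩) .k (.r (-1) ⟨0,[(8,1),(23,0)]⟩ ⟨0,[(6,3),(0,1)]⟩)) (.I [0,0,1,0,1,
  -1,0,0,-1] (.I [0,0,-1,0,0,1,0,0,1] (.N [0,1,0,0,1] 0 ⟨0,[(7,0)]⟩ ⟨0,[(9,0)]⟩ (.x 0 ⟨0,[(0,0)]⟩
  ⟨0,[(1,0)]⟩)) (.Q [0,0,0,1,0,0,0,0,0,1] (.pp false [-1,1]) (.R ⟨2,true,false,false,[0,1],[1,-1],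
  [0,1],(⟨0,[]⟩,⟨0,[]⟩),(⟨0,[(29,0)]⟩,⟨0,[(30,0)]⟩),⟨0,[]⟩,.k,.k,.k,(.r (-1) ⟨8,[(3,1),(0,5),(6,9),
  (5,1),(0,1),(6,3),(2,2),(7,1)]⟩ ⟨0,[(10,1)]⟩),.k,.k,⟨false,0,⟨0,[(33,0)]⟩,⟨1,[(34,1),(0,0),(0,
  0)]⟩⟩,⟨true,0,⟨0,[(1,1),(13,0),(0,0),(1,1),(1,1)]⟩,⟨0,[(0,0),(9,0)]⟩⟩,⟨false,0,⟨0,[(10,0)]⟩,⟨17,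
  [(3,1),(0,5),(6,9),(5,1),(0,1),(6,3),(2,2),(7,10)]⟩⟩,⟨true,0,⟨0,[(1,1),(8,1),(4,0),(0,0),(1,1),(1,
  1)]⟩,⟨0,[(0,0),(32,0)]⟩⟩,⟨true,0,⟨2,[(10,0),(20,0),(0,0)]⟩,⟨1,[(24,0),(0,0)]⟩⟩,⟨false,1,⟨1,[(28,
  0),(5,1),(1,0)]⟩,⟨0,[(0,0)]⟩⟩,[]⟩) (.Q [0,0,0,-1,0,0,1,1,0,0,-1] (.p false [0,0,1] [] (⟨0,[(27,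
  0)]⟩,⟨0,[(26,0)]⟩) .k 0 (⟨0,[]⟩,⟨0,[]⟩) .k .k) (.R ⟨0,false,false,false,[1,0,-1],[1,-1],[1,0,-1,
  -1],(⟨0,[(27,0)]⟩,⟨0,[(28,0)]⟩),(⟨0,[(30,0)]⟩,⟨0,[(31,0)]⟩),⟨0,[(16,0)]⟩,.k,.k,.k,.k,.k,.k,⟨true,
  0,⟨0,[]⟩,⟨1,[(25,0),(0,0)]⟩⟩,⟨false,0,⟨0,[(1,0),(5,0)]⟩,⟨0,[(26,0),(9,0)]⟩⟩,⟨false,1,⟨0,[(1,0),(3,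
  0),(31,0)]⟩,⟨0,[(11,0),(0,0)]⟩⟩,⟨true,0,⟨0,[(0,0)]⟩,⟨0,[(14,0)]⟩⟩,⟨false,0,⟨0,[]⟩,⟨0,[]⟩⟩,⟨false,
  0,⟨0,[]⟩,⟨0,[]⟩⟩,[.o ⟨false,0,⟨0,[(1,0)]⟩,⟨5,[(4,1),(0,1),(6,1),(1,3),(14,0),(6,0),(0,1)]⟩⟩,.o
  ⟨false,1,⟨7,[(1,1),(2,1),(1,3),(22,0),(7,4)]⟩,⟨0,[(34,0)]⟩⟩,.o ⟨false,1,⟨1,[(26,1),(2,0),(6,0)]⟩,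
  ⟨0,[(1,0),(5,0)]⟩⟩,.a ⟨true,0,⟨0,[(26,0)]⟩,⟨0,[(22,0)]⟩⟩ ⟨false,1,⟨1,[(11,1),(24,0),(0,0)]⟩,⟨3,
  [(9,3),(15,0),(0,0),(11,1)]⟩⟩ ⟨true,0,⟨0,[(1,0),(20,0)]⟩,⟨1,[(9,0),(3,0),(0,0),(11,0)]⟩⟩]⟩) (.Q
  [0,0,1,0,0,0,0,0,0,-1] (.pp true [-1,1]) (.R ⟨0,false,false,true,[1,0,-1],[0,1],[0,0,1],(⟨0,[(28,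
  0)]⟩,⟨0,[(29,0)]⟩),(⟨0,[(32,0)]⟩,⟨0,[(31,0)]⟩),⟨0,[(17,0)]⟩,.k,.k,.k,.k,.k,.k,⟨false,1,⟨1,[(36,1),
  (0,0),(0,0)]⟩,⟨0,[(35,0)]⟩⟩,⟨true,0,⟨0,[(23,0)]⟩,⟨0,[(0,0),(26,0)]⟩⟩,⟨false,1,⟨9,[(5,3),(0,1),(6,
  1),(0,1),(12,7),(2,0),(7,4)]⟩,⟨0,[(1,0),(0,0),(20,0)]⟩⟩,⟨true,0,⟨2,[(6,0),(1,1),(1,0),(3,0),(9,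
  0)]⟩,⟨0,[(1,0),(0,0),(33,0)]⟩⟩,⟨false,0,⟨0,[]⟩,⟨0,[]⟩⟩,⟨false,0,⟨0,[]⟩,⟨0,[]⟩⟩,[.o ⟨false,0,⟨0,
  [(35,0)]⟩,⟨7,[(2,1),(2,1),(1,3),(22,0),(7,4)]⟩⟩,.o ⟨false,1,⟨5,[(5,1),(0,1),(6,1),(1,3),(14,0),(6,
  0),(0,1)]⟩,⟨0,[(2,0)]⟩⟩,.o ⟨false,1,⟨1,[(27,1),(2,0),(6,0)]⟩,⟨0,[(0,0),(22,0)]⟩⟩,.a ⟨true,0,⟨0,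
  [(27,0)]⟩,⟨0,[(23,0)]⟩⟩ ⟨false,1,⟨1,[(19,0),(0,0),(17,0)]⟩,⟨0,[]⟩⟩ ⟨true,0,⟨2,[(8,1),(14,0),(9,0),
  (0,0)]⟩,⟨0,[(2,0),(24,0)]⟩⟩]⟩) (.R ⟨0,false,false,true,[1,0,-1],[0,1,-1],[0,0,0,0,0,0,0,-1],(⟨0,
  [(28,0)]⟩,⟨0,[(29,0)]⟩),(⟨0,[(18,0)]⟩,⟨0,[(29,0),(1,0)]⟩),⟨0,[(17,0)]⟩,.k,.k,.k,.k,.k,.k,⟨false,1,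
  ⟨1,[(12,1),(24,0),(0,0)]⟩,⟨1,[(13,0),(0,0),(25,0)]⟩⟩,⟨true,0,⟨0,[(0,0)]⟩,⟨3,[(2,3),(7,3),(15,0),
  (0,0),(11,1)]⟩⟩,⟨false,1,⟨1,[(19,0),(0,0),(17,0)]⟩,⟨0,[]⟩⟩,⟨true,0,⟨2,[(6,1),(1,0),(4,0),(11,0)]⟩,
  ⟨0,[(2,0)]⟩⟩,⟨false,0,⟨0,[]⟩,⟨0,[]⟩⟩,⟨false,0,⟨0,[]⟩,⟨0,[]⟩⟩,[.o ⟨false,0,⟨0,[(15,0)]⟩,⟨3,[(2,1),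
  (2,1),(24,0),(7,0)]⟩⟩,.o ⟨false,0,⟨0,[(1,0)]⟩,⟨2,[(5,1),(1,0),(22,0),(9,0)]⟩⟩,.o ⟨false,1,⟨1,[(27,
  1),(2,0),(6,0)]⟩,⟨0,[(2,0),(5,0)]⟩⟩,.a ⟨true,0,⟨0,[(27,0)]⟩,⟨0,[(23,0)]⟩⟩ ⟨true,0,⟨0,[(1,0),(0,0),
  (20,0)]⟩,⟨1,[(14,1),(11,0),(0,0)]⟩⟩ ⟨false,0,⟨0,[(1,0),(21,0)]⟩,⟨3,[(2,1),(2,1),(21,3),(2,0),(7,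
  0)]⟩⟩]⟩))))) (.Q [0,0,0,0,0,0,1,0,0,0,-1] (.p false [0,0,1] [] (⟨0,[(25,0)]⟩,⟨0,[(24,0)]⟩) .k 0
  (⟨0,[]⟩,⟨0,[]⟩) .k .k) (.Q [0,0,0,-1,0,0,1,1,0,0,-1] (.p false [0,0,1] [] (⟨0,[(26,0)]⟩,⟨0,[(25,
  0)]⟩) .k 0 (⟨0,[]⟩,⟨0,[]⟩) .k .k) (.Q [0,0,0,1,0,0,0,0,0,1] (.pp false [-1,1]) (.R ⟨0,false,false,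
  true,[0,0,1],[0,1],[1,1],(⟨0,[(28,0)]⟩,⟨0,[(27,0)]⟩),(⟨0,[(31,0)]⟩,⟨0,[(30,0)]⟩),⟨0,[(17,0)]⟩,.k,
  .k,.k,.k,.k,.k,⟨true,0,⟨0,[(11,0)]⟩,⟨3,[(9,3),(15,0),(0,0),(11,1)]⟩⟩,⟨false,1,⟨1,[(11,1),(14,1),
  (6,1),(2,0),(0,0)]⟩,⟨0,[(25,0)]⟩⟩,⟨false,0,⟨0,[(11,1),(0,0)]⟩,⟨0,[(13,0),(23,0)]⟩⟩,⟨true,0,⟨0,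
  [(14,0)]⟩,⟨0,[(1,0)]⟩⟩,⟨false,0,⟨0,[]⟩,⟨0,[]⟩⟩,⟨false,0,⟨0,[]⟩,⟨0,[]⟩⟩,[.o ⟨false,0,⟨0,[(34,0)]⟩,
  ⟨1,[(29,0),(5,1),(1,0)]⟩⟩,.a ⟨true,0,⟨0,[(0,0)]⟩,⟨0,[(35,0)]⟩⟩ ⟨true,0,⟨0,[]⟩,⟨1,[(25,0),(0,0)]⟩⟩
  ⟨false,1,⟨1,[(26,1),(6,1),(2,0),(0,0)]⟩,⟨1,[(10,0),(0,0),(23,0)]⟩⟩,.o ⟨false,0,⟨0,[(2,0)]⟩,⟨1,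
  [(26,1),(2,0),(6,0)]⟩⟩,.o ⟨false,0,⟨0,[(25,0)]⟩,⟨1,[(11,1),(14,1),(2,0),(3,1),(3,0)]⟩⟩]⟩) (.R ⟨0,
  false,false,false,[1,0,-1],[1,-1],[1,0,-1,-1],(⟨0,[(27,0)]⟩,⟨0,[(28,0)]⟩),(⟨0,[(30,0)]⟩,⟨0,[(31,
  0)]⟩),⟨0,[(16,0)]⟩,.k,.k,.k,.k,.k,.k,⟨true,0,⟨0,[]⟩,⟨1,[(25,0),(0,0)]⟩⟩,⟨false,0,⟨0,[(2,0)]⟩,⟨0,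
  [(26,0),(9,0)]⟩⟩,⟨false,1,⟨0,[(0,0),(4,0),(31,0)]⟩,⟨0,[(11,0),(0,0)]⟩⟩,⟨true,0,⟨0,[(1,0)]⟩,⟨0,
  [(14,0)]⟩⟩,⟨false,0,⟨0,[]⟩,⟨0,[]⟩⟩,⟨false,0,⟨0,[]⟩,⟨0,[]⟩⟩,[.o ⟨false,0,⟨0,[(0,0)]⟩,⟨5,[(4,1),(0,
  1),(6,1),(1,3),(14,0),(6,0),(0,1)]⟩⟩,.o ⟨false,1,⟨7,[(0,1),(3,1),(1,3),(22,0),(7,4)]⟩,⟨0,[(34,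
  0)]⟩⟩,.o ⟨false,1,⟨1,[(26,1),(2,0),(6,0)]⟩,⟨0,[(2,0)]⟩⟩,.a ⟨true,0,⟨0,[(26,0)]⟩,⟨0,[(22,0)]⟩⟩
  ⟨false,1,⟨1,[(11,1),(24,0),(0,0)]⟩,⟨3,[(9,3),(15,0),(0,0),(11,1)]⟩⟩ ⟨true,0,⟨0,[(0,0),(21,0)]⟩,⟨1,
  [(9,0),(3,0),(0,0),(11,0)]⟩⟩]⟩)) (.Q [0,-1,-2,-1,1,0,1,1,0,0,-1] (.p false [0,0,1] [] (⟨0,[(27,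
  0)]⟩,⟨0,[(26,0)]⟩) .k 0 (⟨0,[]⟩,⟨0,[]⟩) .k .k) (.Q [0,0,-1,0,0,0,0,0,0,1] (.pp false [-1,1]) (.R
  ⟨0,false,false,false,[1,-1],[1,-1,1],[0,0,1],(⟨0,[(31,0)]⟩,⟨0,[(32,0)]⟩),(⟨0,[(29,0),(1,0)]⟩,⟨0,
  [(18,0)]⟩),⟨0,[(17,0),(0,0)]⟩,.k,.k,(.r 0 ⟨0,[(12,1)]⟩ ⟨8,[(5,1),(0,5),(6,9),(5,1),(0,1),(6,3),(2,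
  2),(7,1)]⟩),.k,.k,.k,⟨false,0,⟨2,[(2,1),(8,0),(1,0),(22,0)]⟩,⟨3,[(1,1),(4,1),(5,1),(14,1),(2,0),
  (6,0)]⟩⟩,⟨true,0,⟨0,[(3,0)]⟩,⟨0,[(27,0)]⟩⟩,⟨true,0,⟨3,[(10,3),(15,0),(0,0),(11,1)]⟩,⟨2,[(12,3),
  (20,0),(0,0)]⟩⟩,⟨false,1,⟨1,[(5,0),(29,0),(2,0)]⟩,⟨0,[(2,0),(33,0)]⟩⟩,⟨false,0,⟨0,[]⟩,⟨0,[]⟩⟩,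
  ⟨false,0,⟨0,[]⟩,⟨0,[]⟩⟩,[.o ⟨false,1,⟨2,[(5,1),(1,0),(22,0),(9,0)]⟩,⟨0,[(2,0)]⟩⟩,.e ⟨false,1,⟨1,
  [(19,0),(0,0),(17,0)]⟩,⟨2,[(12,0),(20,0),(0,0)]⟩⟩ ⟨false,1,⟨0,[(1,0)]⟩,⟨4,[(13,1),(0,0),(0,0),(9,
  2),(1,0)]⟩⟩,.a ⟨true,0,⟨1,[(26,0),(0,0)]⟩,⟨0,[(0,0)]⟩⟩ ⟨true,0,⟨1,[(26,0),(0,0)]⟩,⟨2,[(12,0),(20,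
  0),(0,0)]⟩⟩ ⟨false,1,⟨5,[(1,2),(3,1),(19,0),(10,0),(1,0)]⟩,⟨2,[(2,1),(10,0),(13,0),(8,0)]⟩⟩,.e
  ⟨false,1,⟨1,[(19,0),(0,0),(17,0)]⟩,⟨0,[]⟩⟩ ⟨false,1,⟨0,[(1,0)]⟩,⟨2,[(2,0),(10,1),(13,1),(8,
  1)]⟩⟩]⟩) (.R ⟨0,false,false,true,[1,0,-1],[0,1],[0,0,1],(⟨0,[(28,0)]⟩,⟨0,[(29,0)]⟩),(⟨0,[(32,0)]⟩,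
  ⟨0,[(31,0)]⟩),⟨0,[(17,0)]⟩,.k,.k,.k,.k,.k,.k,⟨false,1,⟨1,[(1,0),(23,0),(10,0),(1,0)]⟩,⟨0,[(35,
  0)]⟩⟩,⟨true,0,⟨0,[(23,0)]⟩,⟨0,[(0,0),(26,0)]⟩⟩,⟨false,1,⟨9,[(5,3),(0,1),(6,1),(0,1),(12,7),(2,0),
  (7,4)]⟩,⟨0,[(2,0),(0,0),(8,0)]⟩⟩,⟨true,0,⟨2,[(6,0),(1,1),(1,0),(3,0),(9,0)]⟩,⟨0,[(0,0),(1,0),(9,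
  0),(23,0)]⟩⟩,⟨false,0,⟨0,[]⟩,⟨0,[]⟩⟩,⟨false,0,⟨0,[]⟩,⟨0,[]⟩⟩,[.o ⟨false,0,⟨0,[(35,0)]⟩,⟨1,[(30,0),
  (5,1),(1,0)]⟩⟩,.o ⟨false,1,⟨5,[(5,1),(0,1),(6,1),(1,3),(14,0),(6,0),(0,1)]⟩,⟨0,[(0,0),(11,0)]⟩⟩,
  .o ⟨false,1,⟨1,[(27,1),(2,0),(6,0)]⟩,⟨0,[(3,0)]⟩⟩,.a ⟨true,0,⟨0,[(27,0)]⟩,⟨0,[(23,0)]⟩⟩ ⟨false,1,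
  ⟨1,[(19,0),(0,0),(17,0)]⟩,⟨0,[]⟩⟩ ⟨true,0,⟨2,[(8,1),(14,0),(9,0),(0,0)]⟩,⟨0,[(0,0),(11,0),(14,
  0)]⟩⟩]⟩)) (.Q [0,0,0,1,0,0,0,0,0,1] (.pp false [-1,1]) (.R ⟨0,false,false,false,[0,0,1],[1,-1],[0,
  0,1],(⟨0,[(29,0)]⟩,⟨0,[(28,0)]⟩),(⟨0,[(31,0)]⟩,⟨0,[(32,0)]⟩),⟨0,[(18,0)]⟩,.k,.k,.k,.k,.k,.k,⟨true,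
  0,⟨3,[(1,0),(3,0),(4,1),(2,0),(13,0),(11,0)]⟩,⟨0,[(12,0)]⟩⟩,⟨false,1,⟨1,[(27,1),(2,0),(6,0)]⟩,⟨0,
  [(23,0)]⟩⟩,⟨false,0,⟨0,[(1,0),(1,0),(8,0),(25,0)]⟩,⟨1,[(6,1),(23,0),(7,0)]⟩⟩,⟨true,0,⟨1,[(1,1),
  (10,3),(17,0),(7,0)]⟩,⟨0,[(0,0),(23,0)]⟩⟩,⟨false,0,⟨0,[]⟩,⟨0,[]⟩⟩,⟨false,0,⟨0,[]⟩,⟨0,[]⟩⟩,[.a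
  ⟨true,0,⟨0,[(36,0)]⟩,⟨0,[(0,0)]⟩⟩ ⟨true,0,⟨1,[(26,0),(0,0)]⟩,⟨0,[]⟩⟩ ⟨false,1,⟨1,[(12,1),(14,1),
  (2,0),(6,0)]⟩,⟨0,[(8,0)]⟩⟩,.o ⟨false,1,⟨1,[(30,0),(5,1),(1,0)]⟩,⟨0,[(35,0)]⟩⟩,.o ⟨false,0,⟨0,[(3,
  0)]⟩,⟨1,[(27,1),(2,0),(6,0)]⟩⟩,.o ⟨false,0,⟨0,[(26,0)]⟩,⟨1,[(12,1),(14,1),(2,0),(3,1),(3,0)]⟩⟩]⟩)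
  (.R ⟨0,false,false,true,[1,0,-1],[0,1],[0,0,1],(⟨0,[(28,0)]⟩,⟨0,[(29,0)]⟩),(⟨0,[(32,0)]⟩,⟨0,[(31,
  0)]⟩),⟨0,[(17,0)]⟩,.k,.k,.k,.k,.k,.k,⟨false,1,⟨1,[(36,1),(0,0),(0,0)]⟩,⟨0,[(35,0)]⟩⟩,⟨true,0,⟨0,
  [(23,0)]⟩,⟨2,[(0,2),(0,0),(8,1),(3,0),(12,1),(10,0)]⟩⟩,⟨false,1,⟨9,[(5,3),(0,1),(6,1),(0,1),(12,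
  7),(2,0),(7,4)]⟩,⟨0,[(0,0),(1,0),(20,0)]⟩⟩,⟨true,0,⟨2,[(6,0),(1,1),(1,0),(3,0),(9,0)]⟩,⟨2,[(0,1),
  (0,0),(0,0),(4,0),(4,1),(25,0)]⟩⟩,⟨false,0,⟨0,[]⟩,⟨0,[]⟩⟩,⟨false,0,⟨0,[]⟩,⟨0,[]⟩⟩,[.o ⟨false,0,⟨0,
  [(35,0)]⟩,⟨7,[(0,1),(4,1),(1,3),(22,0),(7,4)]⟩⟩,.o ⟨false,1,⟨5,[(5,1),(0,1),(6,1),(1,3),(14,0),(6,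
  0),(0,1)]⟩,⟨0,[(0,0)]⟩⟩,.o ⟨false,1,⟨1,[(27,1),(2,0),(6,0)]⟩,⟨0,[(3,0)]⟩⟩,.a ⟨true,0,⟨0,[(27,0)]⟩,
  ⟨0,[(23,0)]⟩⟩ ⟨false,1,⟨1,[(19,0),(0,0),(17,0)]⟩,⟨0,[]⟩⟩ ⟨true,0,⟨2,[(8,1),(14,0),(9,0),(0,0)]⟩,
  ⟨0,[(0,0),(26,0)]⟩⟩]⟩)))) (.Q [0,0,-1,0,0,0,-2,-1,0,0,2] (.p true [0,0,1] [0,1,-1] (⟨0,[(26,0)]⟩,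
  ⟨0,[(25,0)]⟩) .k 2 (⟨0,[(15,0)]⟩,⟨0,[(26,0),(1,0)]⟩) .k (.r (-1) ⟨0,[(11,1),(23,0)]⟩ ⟨0,[(9,3),(0,
  1)]⟩)) (.R ⟨0,false,false,false,[0,1,-1],[0,0,1],[0,1],(⟨0,[(16,0)]⟩,⟨0,[(27,0),(1,0)]⟩),(⟨0,[(27,
  0)]⟩,⟨0,[(26,0)]⟩),⟨0,[(27,0)]⟩,.k,.k,.k,(.r 0 ⟨1,[(0,2),(8,2),(1,0)]⟩ ⟨0,[(0,0),(2,0),(8,0)]⟩),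
  .k,.k,⟨false,0,⟨1,[(0,0),(4,0),(3,0),(11,0),(10,0)]⟩,⟨0,[(12,0),(23,0)]⟩⟩,⟨true,0,⟨0,[(9,0)]⟩,⟨0,
  [(1,1)]⟩⟩,⟨true,0,⟨0,[(10,0),(1,0)]⟩,⟨1,[(0,0),(8,0),(1,0)]⟩⟩,⟨false,1,⟨0,[(3,0)]⟩,⟨1,[(0,2),(8,
  0),(1,0)]⟩⟩,⟨false,0,⟨0,[]⟩,⟨0,[]⟩⟩,⟨false,0,⟨0,[]⟩,⟨0,[]⟩⟩,[.e ⟨false,0,⟨2,[(10,0),(20,0),(0,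
  0)]⟩,⟨1,[(17,0),(0,0),(17,0)]⟩⟩ ⟨false,1,⟨5,[(3,3),(7,1),(2,1),(13,0),(2,1),(3,0)]⟩,⟨0,[(0,0)]⟩⟩,
  .e ⟨false,1,⟨1,[(17,0),(0,0),(16,0)]⟩,⟨0,[]⟩⟩ ⟨false,1,⟨1,[(3,0),(5,0),(22,0),(3,0)]⟩,⟨4,[(0,3),
  (11,0),(10,1),(7,0)]⟩⟩,.a ⟨true,0,⟨0,[(1,1),(19,0)]⟩,⟨0,[(24,0)]⟩⟩ ⟨true,0,⟨0,[(38,0)]⟩,⟨0,[]⟩⟩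
  ⟨false,1,⟨25,[(3,19),(5,5),(1,9),(2,1),(8,3),(4,0),(7,4)]⟩,⟨0,[(0,0)]⟩⟩,.o ⟨false,0,⟨0,[(1,0)]⟩,
  ⟨25,[(3,3),(7,1),(2,11),(8,5),(4,18),(6,1),(0,0)]⟩⟩]⟩) (.R ⟨2,true,false,false,[0,1],[0,0,1],[0,1,
  1],(⟨0,[]⟩,⟨0,[]⟩),(⟨0,[(27,0)]⟩,⟨0,[(26,0)]⟩),⟨0,[]⟩,.k,.k,.k,.k,.k,.k,⟨false,0,⟨1,[(5,0),(7,0),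
  (0,0)]⟩,⟨0,[(0,0),(0,1),(8,0),(21,0),(3,0)]⟩⟩,⟨true,0,⟨0,[(24,0)]⟩,⟨0,[(1,0)]⟩⟩,⟨false,0,⟨0,[(34,
  0)]⟩,⟨0,[(33,0),(2,0)]⟩⟩,⟨true,0,⟨0,[(0,0),(0,0),(8,0)]⟩,⟨0,[(13,0)]⟩⟩,⟨true,0,⟨0,[(38,0)]⟩,⟨0,
  []⟩⟩,⟨false,1,⟨1,[(3,0),(29,0),(2,0)]⟩,⟨0,[(1,0),(8,1),(0,0)]⟩⟩,[]⟩)))) (.Q [0,0,0,0,0,0,-1,0,0,0,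
  1] (.p true [0,0,1] [] (⟨0,[(24,0)]⟩,⟨0,[(23,0)]⟩) .k 0 (⟨0,[]⟩,⟨0,[]⟩) .k .k) (.R ⟨0,false,false,
  false,[0,1,-1],[0,0,1],[1,0,1],(⟨0,[(14,0)]⟩,⟨0,[(25,0),(1,0)]⟩),(⟨0,[(25,0)]⟩,⟨0,[(24,0)]⟩),⟨0,
  [(25,0)]⟩,.k,.k,.k,(.r 0 ⟨9,[(1,5),(1,3),(3,1),(1,3),(2,5),(13,0),(7,4)]⟩ ⟨0,[(8,0),(1,1),(23,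
  0)]⟩),.k,.k,⟨false,0,⟨15,[(1,5),(1,3),(3,1),(0,1),(3,5),(13,0),(7,4)]⟩,⟨1,[(2,1),(23,0),(7,0)]⟩⟩,
  ⟨true,0,⟨0,[(7,0)]⟩,⟨0,[(0,1)]⟩⟩,⟨false,1,⟨0,[(10,0),(21,0),(1,0)]⟩,⟨1,[(1,0),(5,0),(22,0),(3,
  0)]⟩⟩,⟨true,1,⟨0,[(20,1),(11,0),(1,0)]⟩,⟨0,[(1,0)]⟩⟩,⟨false,0,⟨0,[]⟩,⟨0,[]⟩⟩,⟨false,0,⟨0,[]⟩,⟨0,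
  []⟩⟩,[.e ⟨false,0,⟨0,[]⟩,⟨1,[(15,0),(0,0),(16,0)]⟩⟩ ⟨false,1,⟨3,[(12,1),(2,0),(0,0),(3,3),(5,0),
  (7,1)]⟩,⟨3,[(0,3),(0,1),(6,1),(24,0),(0,0)]⟩⟩,.o ⟨false,1,⟨0,[(20,0),(13,0)]⟩,⟨16,[(1,4),(1,6),(5,
  0),(0,0),(15,4),(2,1)]⟩⟩,.a ⟨true,0,⟨0,[(0,1),(18,0)]⟩,⟨0,[(22,0)]⟩⟩ ⟨true,0,⟨1,[(22,0),(0,0)]⟩,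
  ⟨2,[(8,0),(20,0),(0,0)]⟩⟩ ⟨false,1,⟨0,[(20,0),(1,0),(11,0)]⟩,⟨3,[(0,3),(0,1),(6,1),(24,0),(0,
  0)]⟩⟩,.o ⟨false,0,⟨0,[(0,0)]⟩,⟨3,[(12,1),(2,0),(0,0),(9,2)]⟩⟩]⟩) (.I [0,-1,2,1,0,0,0,-1] (.Q [0,0,
  0,1,0,0,0,0,0,1] (.pp false [-1,1]) (.Q [0,0,0,-1,0,0,-1,-1,0,-1,1] (.p true [0,0,1] [1] (⟨0,[(27,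
  0)]⟩,⟨0,[(26,0)]⟩) .k 1 (⟨0,[]⟩,⟨0,[]⟩) .k .k) (.R ⟨0,false,false,false,[0,0,1],[1,-1],[0,0,1],
  (⟨0,[(28,0)]⟩,⟨0,[(27,0)]⟩),(⟨0,[(30,0)]⟩,⟨0,[(31,0)]⟩),⟨0,[(17,0)]⟩,.k,.k,.k,.k,.k,.k,⟨true,0,⟨3,
  [(9,3),(15,0),(0,0),(11,1)]⟩,⟨0,[(11,0)]⟩⟩,⟨false,1,⟨1,[(26,1),(2,0),(6,0)]⟩,⟨0,[(22,0)]⟩⟩,⟨false,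
  0,⟨0,[(2,0),(8,0)]⟩,⟨1,[(5,1),(23,0),(7,0)]⟩⟩,⟨true,0,⟨0,[(0,0)]⟩,⟨2,[(5,0),(1,1),(1,0),(3,0),(9,
  0)]⟩⟩,⟨false,0,⟨0,[]⟩,⟨0,[]⟩⟩,⟨false,0,⟨0,[]⟩,⟨0,[]⟩⟩,[.a ⟨true,0,⟨0,[(35,0)]⟩,⟨0,[(1,0)]⟩⟩ ⟨true,
  0,⟨1,[(25,0),(0,0)]⟩,⟨0,[]⟩⟩ ⟨false,1,⟨1,[(0,1),(4,1),(23,0),(7,0)]⟩,⟨0,[(7,0)]⟩⟩,.o ⟨false,1,⟨1,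
  [(29,0),(5,1),(1,0)]⟩,⟨0,[(34,0)]⟩⟩,.o ⟨false,0,⟨0,[(3,0)]⟩,⟨1,[(26,1),(2,0),(6,0)]⟩⟩,.o ⟨false,0,
  ⟨0,[(25,0)]⟩,⟨3,[(4,1),(0,1),(5,1),(1,1),(15,2),(7,2)]⟩⟩]⟩) (.R ⟨0,false,false,true,[1,0,-1],[0,
  1],[0,1],(⟨0,[(27,0)]⟩,⟨0,[(28,0)]⟩),(⟨0,[(31,0)]⟩,⟨0,[(30,0)]⟩),⟨0,[(16,0)]⟩,.k,.k,.k,.k,.k,.k,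
  ⟨true,0,⟨0,[(11,0)]⟩,⟨1,[(9,1),(15,0),(0,0)]⟩⟩,⟨false,0,⟨2,[(0,1),(2,1),(0,0),(6,3),(10,0),(10,0),
  (3,0)]⟩,⟨1,[(18,0),(0,0),(6,1),(2,0)]⟩⟩,⟨true,0,⟨0,[(13,0)]⟩,⟨15,[(4,5),(1,3),(3,1),(0,1),(3,5),
  (13,0),(7,4)]⟩⟩,⟨false,0,⟨0,[(0,0)]⟩,⟨0,[(6,0),(30,0)]⟩⟩,⟨false,0,⟨0,[]⟩,⟨0,[]⟩⟩,⟨false,0,⟨0,[]⟩,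
  ⟨0,[]⟩⟩,[.o ⟨false,0,⟨0,[(34,0)]⟩,⟨1,[(29,0),(5,1),(1,0)]⟩⟩,.e ⟨false,1,⟨1,[(18,0),(0,0),(16,0)]⟩,
  ⟨0,[]⟩⟩ ⟨false,0,⟨2,[(0,1),(2,1),(0,0),(6,0),(10,0),(10,0),(3,0)]⟩,⟨1,[(5,0),(0,0),(19,0),(2,0),
  (5,0),(1,0)]⟩⟩,.o ⟨false,1,⟨1,[(26,1),(2,0),(6,0)]⟩,⟨0,[(3,0)]⟩⟩,.a ⟨true,0,⟨0,[(26,0)]⟩,⟨0,[(22,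
  0)]⟩⟩ ⟨true,0,⟨2,[(11,0),(20,0),(0,0)]⟩,⟨1,[(25,0),(0,0)]⟩⟩ ⟨false,0,⟨2,[(0,1),(2,1),(0,0),(6,0),
  (10,0),(10,0),(3,0)]⟩,⟨1,[(26,1),(2,0),(5,1),(1,0)]⟩⟩]⟩)) (.Q [0,0,2,0,0,0,-1,0,0,-1,1] (.p true
  [0,0,1] [1] (⟨0,[(27,0)]⟩,⟨0,[(26,0)]⟩) .k 1 (⟨0,[]⟩,⟨0,[]⟩) .k .k) (.R ⟨0,false,false,true,[1,0,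
  -1],[0,1],[0,0,1],(⟨0,[(27,0)]⟩,⟨0,[(28,0)]⟩),(⟨0,[(31,0)]⟩,⟨0,[(30,0)]⟩),⟨0,[(16,0)]⟩,.k,.k,.k,
  .k,.k,.k,⟨false,1,⟨1,[(35,1),(0,0),(0,0)]⟩,⟨0,[(34,0)]⟩⟩,⟨true,0,⟨0,[(22,0)]⟩,⟨0,[(0,0)]⟩⟩,⟨false,
  1,⟨3,[(0,2),(4,2),(4,0),(12,0),(13,3)]⟩,⟨3,[(1,1),(2,1),(17,3),(6,0),(7,0)]⟩⟩,⟨true,0,⟨2,[(5,0),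
  (1,1),(1,0),(3,0),(9,0)]⟩,⟨2,[(1,1),(2,0),(1,0),(28,0),(1,0)]⟩⟩,⟨false,0,⟨0,[]⟩,⟨0,[]⟩⟩,⟨false,0,
  ⟨0,[]⟩,⟨0,[]⟩⟩,[.o ⟨false,0,⟨0,[(34,0)]⟩,⟨1,[(29,0),(5,1),(1,0)]⟩⟩,.o ⟨false,1,⟨3,[(5,1),(6,1),(5,
  0),(0,0),(9,0),(6,0),(0,0)]⟩,⟨0,[(1,0)]⟩⟩,.o ⟨false,1,⟨1,[(26,1),(2,0),(6,0)]⟩,⟨0,[(3,0)]⟩⟩,.a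
  ⟨true,0,⟨0,[(26,0)]⟩,⟨0,[(22,0)]⟩⟩ ⟨false,1,⟨1,[(18,0),(0,0),(17,0)]⟩,⟨0,[]⟩⟩ ⟨true,0,⟨2,[(7,1),
  (14,0),(9,0),(0,0)]⟩,⟨0,[(0,0),(10,0)]⟩⟩]⟩) (.R ⟨0,false,false,true,[0,1,-1],[0,1],[1,1,1,0,0,0,0,
  -1],(⟨0,[(17,0)]⟩,⟨0,[(28,0),(1,0)]⟩),(⟨0,[(31,0)]⟩,⟨0,[(30,0)]⟩),⟨0,[(28,0)]⟩,.k,.k,.k,.k,.k,.k,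
  ⟨false,0,⟨1,[(0,0),(1,0),(3,0),(4,1)]⟩,⟨6,[(5,5),(3,5),(3,0),(15,2),(4,0),(2,3)]⟩⟩,⟨true,0,⟨0,[(3,
  0)]⟩,⟨0,[(26,0)]⟩⟩,⟨false,0,⟨0,[(35,0)]⟩,⟨0,[(34,0),(2,0)]⟩⟩,⟨true,0,⟨0,[(23,0)]⟩,⟨2,[(4,0),(19,
  0),(10,0),(1,0)]⟩⟩,⟨false,0,⟨0,[]⟩,⟨0,[]⟩⟩,⟨false,0,⟨0,[]⟩,⟨0,[]⟩⟩,[.o ⟨false,0,⟨0,[(34,0)]⟩,⟨1,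
  [(29,0),(5,1),(1,0)]⟩⟩,.o ⟨false,1,⟨3,[(5,1),(6,1),(5,0),(0,0),(9,0),(6,0),(0,0)]⟩,⟨0,[(1,0)]⟩⟩,
  .o ⟨false,1,⟨0,[(26,0),(9,0)]⟩,⟨1,[(0,0),(0,2),(0,0),(0,0),(5,1),(3,0)]⟩⟩,.a ⟨true,0,⟨0,[(0,0),
  (25,1)]⟩,⟨0,[(3,0)]⟩⟩ ⟨false,0,⟨1,[(0,0),(1,0),(3,0)]⟩,⟨0,[(13,0),(23,0)]⟩⟩ ⟨true,0,⟨1,[(10,0),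
  (22,0),(0,0)]⟩,⟨0,[(11,0),(14,0)]⟩⟩]⟩))) (.Q [0,0,-1,0,0,0,0,0,0,1] (.pp false [-1,1]) (.R ⟨0,
  false,false,true,[1,-1],[1,-1,1],[0,1,1],(⟨0,[(29,0)]⟩,⟨0,[(30,0)]⟩),(⟨0,[(27,0),(1,0)]⟩,⟨0,[(16,
  0)]⟩),⟨0,[(15,0),(0,0)]⟩,.k,.k,(.r 0 ⟨0,[(10,1)]⟩ ⟨1,[(11,1),(0,1),(4,0),(0,0),(17,0)]⟩),.k,.k,.k,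
  ⟨false,0,⟨29,[(3,5),(1,3),(3,1),(1,13),(2,5),(13,0),(7,4)]⟩,⟨1,[(1,1),(15,0),(0,0),(17,0)]⟩⟩,
  ⟨true,0,⟨0,[(2,0)]⟩,⟨0,[(25,0)]⟩⟩,⟨false,0,⟨3,[(8,3),(15,0),(0,0),(11,1)]⟩,⟨1,[(10,1),(24,0),(0,
  0)]⟩⟩,⟨true,0,⟨0,[(22,0)]⟩,⟨2,[(3,0),(19,0),(10,0),(1,0)]⟩⟩,⟨false,0,⟨0,[]⟩,⟨0,[]⟩⟩,⟨false,0,⟨0,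
  []⟩,⟨0,[]⟩⟩,[.e ⟨false,0,⟨0,[(38,0)]⟩,⟨1,[(35,0),(0,0)]⟩⟩ ⟨false,0,⟨0,[(1,0),(0,0)]⟩,⟨5,[(11,1),
  (1,1),(3,0),(0,0),(4,1),(1,1),(10,4)]⟩⟩,.o ⟨false,1,⟨1,[(22,1),(5,0),(5,1),(1,0)]⟩,⟨4,[(3,1),(4,
  0),(4,0),(18,0),(3,1)]⟩⟩,.a ⟨true,0,⟨1,[(24,0),(0,0)]⟩,⟨0,[(0,0)]⟩⟩ ⟨false,0,⟨1,[(24,0),(0,0)]⟩,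
  ⟨1,[(35,0),(0,0)]⟩⟩ ⟨true,0,⟨2,[(1,1),(7,0),(12,0),(11,0)]⟩,⟨8,[(3,1),(7,2),(1,0),(9,0),(1,2),(10,
  1)]⟩⟩,.e ⟨true,0,⟨0,[(38,0)]⟩,⟨0,[]⟩⟩ ⟨true,0,⟨0,[(1,0),(0,0)]⟩,⟨8,[(3,0),(7,5),(11,0),(1,5),(8,
  3),(1,0)]⟩⟩]⟩) (.R ⟨0,false,false,true,[1,0,-1],[0,1],[0,1,0,-1,0,0,0,-1],(⟨0,[(26,0)]⟩,⟨0,[(27,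
  0)]⟩),(⟨0,[(30,0)]⟩,⟨0,[(29,0)]⟩),⟨0,[(15,0)]⟩,.k,.k,.k,.k,.k,.k,⟨false,0,⟨15,[(3,5),(1,3),(3,1),
  (0,33),(3,5),(13,0),(7,4)]⟩,⟨6,[(4,5),(3,12),(3,0),(15,2),(4,0),(2,3)]⟩⟩,⟨true,0,⟨0,[(21,0)]⟩,⟨0,
  [(0,0),(24,0)]⟩⟩,⟨false,0,⟨0,[(34,0)]⟩,⟨0,[(33,0),(2,0)]⟩⟩,⟨true,0,⟨2,[(4,0),(1,1),(1,0),(3,0),(9,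
  0)]⟩,⟨2,[(0,1),(2,0),(1,0),(4,1),(23,0),(1,0)]⟩⟩,⟨false,0,⟨0,[]⟩,⟨0,[]⟩⟩,⟨false,0,⟨0,[]⟩,⟨0,[]⟩⟩,
  [.o ⟨false,0,⟨0,[(33,0)]⟩,⟨1,[(28,0),(5,1),(1,0)]⟩⟩,.o ⟨false,1,⟨3,[(4,1),(6,1),(5,0),(0,0),(9,0),
  (6,0),(0,0)]⟩,⟨0,[(0,0),(9,0)]⟩⟩,.o ⟨false,1,⟨1,[(25,1),(2,0),(6,0)]⟩,⟨0,[(2,0)]⟩⟩,.a ⟨true,0,⟨0,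
  [(25,0)]⟩,⟨0,[(21,0)]⟩⟩ ⟨false,0,⟨15,[(3,5),(1,3),(3,1),(0,17),(3,5),(13,0),(7,4)]⟩,⟨0,[(8,0),(3,
  0),(23,0)]⟩⟩ ⟨true,0,⟨2,[(6,1),(14,0),(9,0),(0,0)]⟩,⟨0,[(0,0),(9,0),(14,0)]⟩⟩]⟩))))) (.R ⟨0,false,
  false,true,[1,0,-1],[0,1],[0,0,1],(⟨0,[(22,0)]⟩,⟨0,[(23,0)]⟩),(⟨0,[(26,0)]⟩,⟨0,[(25,0)]⟩),⟨0,[(11,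
  0)]⟩,.k,.k,.k,.k,.k,.k,⟨false,1,⟨1,[(30,1),(0,0),(0,0)]⟩,⟨0,[(29,0)]⟩⟩,⟨true,0,⟨0,[(17,0)]⟩,⟨0,
  [(0,0),(7,0),(12,0)]⟩⟩,⟨false,1,⟨1,[(8,1),(11,0),(0,0),(10,1)]⟩,⟨0,[(0,0),(5,0),(15,0),(0,0),(4,
  0)]⟩⟩,⟨true,0,⟨0,[(2,0),(5,0)]⟩,⟨2,[(0,1),(0,0),(4,2),(14,1),(6,0)]⟩⟩,⟨false,0,⟨0,[]⟩,⟨0,[]⟩⟩,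
  ⟨false,0,⟨0,[]⟩,⟨0,[]⟩⟩,[.o ⟨false,0,⟨0,[(29,0)]⟩,⟨1,[(24,0),(5,1),(1,0)]⟩⟩,.o ⟨false,1,⟨3,[(7,1),
  (0,1),(4,0),(0,0),(16,1),(0,0)]⟩,⟨0,[(0,0),(5,0),(1,0)]⟩⟩,.o ⟨false,1,⟨1,[(21,1),(2,0),(6,0)]⟩,⟨1,
  [(0,0),(16,0),(0,0)]⟩⟩,.a ⟨true,0,⟨0,[(21,0)]⟩,⟨0,[(17,0)]⟩⟩ ⟨false,1,⟨1,[(13,0),(0,0),(17,0)]⟩,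
  ⟨0,[]⟩⟩ ⟨true,0,⟨2,[(2,1),(14,0),(9,0),(0,0)]⟩,⟨0,[(0,0),(5,0),(1,0),(12,0)]⟩⟩]⟩)) (.Q [0,0,0,0,0,
  0,1,0,0,0,-1] (.p false [0,0,1] [] (⟨0,[(22,0)]⟩,⟨0,[(21,0)]⟩) .k 0 (⟨0,[]⟩,⟨0,[]⟩) .k .k) (.R ⟨0,
  false,false,true,[1,0,-1],[0,1],[0,1],(⟨0,[(22,0)]⟩,⟨0,[(23,0)]⟩),(⟨0,[(26,0)]⟩,⟨0,[(25,0)]⟩),⟨0,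
  [(11,0)]⟩,.k,.k,.k,.k,.k,.k,⟨true,0,⟨0,[(6,0)]⟩,⟨1,[(4,1),(15,0),(0,0)]⟩⟩,⟨false,0,⟨1,[(1,0),(4,
  3),(0,0),(9,0),(10,0)]⟩,⟨1,[(13,0),(0,0),(6,1),(2,0)]⟩⟩,⟨true,0,⟨0,[(8,0)]⟩,⟨0,[(6,1),(0,0)]⟩⟩,
  ⟨false,0,⟨1,[(1,0),(0,0),(5,0)]⟩,⟨1,[(6,5),(0,1),(13,1),(2,0),(7,0)]⟩⟩,⟨false,0,⟨0,[]⟩,⟨0,[]⟩⟩,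
  ⟨false,0,⟨0,[]⟩,⟨0,[]⟩⟩,[.o ⟨false,0,⟨0,[(29,0)]⟩,⟨1,[(24,0),(5,1),(1,0)]⟩⟩,.e ⟨false,1,⟨1,[(13,
  0),(0,0),(16,0)]⟩,⟨0,[]⟩⟩ ⟨false,0,⟨1,[(1,0),(4,1),(0,0),(9,0),(10,0)]⟩,⟨1,[(21,1),(2,0),(5,1),(0,
  0)]⟩⟩,.o ⟨false,1,⟨1,[(21,1),(2,0),(6,0)]⟩,⟨0,[(0,0)]⟩⟩,.a ⟨true,0,⟨0,[(21,0)]⟩,⟨0,[(17,0)]⟩⟩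
  ⟨true,0,⟨2,[(6,0),(20,0),(0,0)]⟩,⟨1,[(20,0),(0,0)]⟩⟩ ⟨false,0,⟨1,[(1,0),(4,1),(0,0),(9,0),(10,
  0)]⟩,⟨1,[(21,1),(2,0),(5,1),(1,0)]⟩⟩]⟩) (.Q [0,0,0,1,0,0,-1,-1,0,0,1] (.p true [0,0,1] [] (⟨0,
  [(23,0)]⟩,⟨0,[(22,0)]⟩) .k 0 (⟨0,[]⟩,⟨0,[]⟩) .k .k) (.R ⟨2,false,false,true,[0,1],[0,1,-1],[0,0,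
  1],(⟨0,[]⟩,⟨0,[]⟩),(⟨0,[(13,0)]⟩,⟨0,[(24,0),(1,0)]⟩),⟨0,[]⟩,.k,.k,.k,.k,.k,.k,⟨false,1,⟨0,[(7,0),
  (1,0),(23,0)]⟩,⟨1,[(0,1),(5,0),(21,0)]⟩⟩,⟨true,0,⟨0,[(1,0)]⟩,⟨0,[(21,0)]⟩⟩,⟨true,0,⟨0,[(31,0)]⟩,
  ⟨0,[(30,0)]⟩⟩,⟨false,0,⟨0,[(0,0),(30,0)]⟩,⟨0,[(19,0),(13,0)]⟩⟩,⟨false,1,⟨1,[(14,0),(0,0),(17,0)]⟩,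
  ⟨0,[]⟩⟩,⟨false,0,⟨0,[(0,0)]⟩,⟨0,[(19,0),(11,0),(1,0)]⟩⟩,[.o ⟨false,0,⟨0,[(10,0)]⟩,⟨0,[(2,0),(22,
  0),(5,1)]⟩⟩,.o ⟨false,0,⟨0,[(0,0)]⟩,⟨1,[(19,1),(5,0),(5,1),(1,0)]⟩⟩,.a ⟨true,0,⟨0,[(1,0),(16,0)]⟩,
  ⟨1,[(21,0),(0,0)]⟩⟩ ⟨true,0,⟨1,[(21,0),(0,0)]⟩,⟨2,[(7,0),(20,0),(0,0)]⟩⟩ ⟨false,0,⟨2,[(0,1),(7,0),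
  (13,0),(8,0)]⟩,⟨0,[(7,0),(11,0),(13,0)]⟩⟩,.e ⟨false,1,⟨1,[(14,0),(0,0),(17,0)]⟩,⟨0,[]⟩⟩ ⟨false,0,
  ⟨0,[(0,0)]⟩,⟨0,[(19,0),(11,0),(1,0)]⟩⟩]⟩) (.R ⟨2,true,false,false,[0,1],[0,0,1],[0,1,1],(⟨0,[]⟩,
  ⟨0,[]⟩),(⟨0,[(24,0)]⟩,⟨0,[(23,0)]⟩),⟨0,[]⟩,.k,.k,.k,.k,.k,.k,⟨false,0,⟨1,[(6,0),(0,0),(2,0),(9,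
  0)]⟩,⟨3,[(0,1),(0,3),(0,1),(22,0),(6,1),(0,0)]⟩⟩,⟨true,0,⟨0,[(21,0)]⟩,⟨0,[(1,0)]⟩⟩,⟨false,0,⟨0,
  [(31,0)]⟩,⟨0,[(30,0),(2,0)]⟩⟩,⟨true,0,⟨0,[(0,0)]⟩,⟨0,[(10,0)]⟩⟩,⟨true,0,⟨0,[(35,0)]⟩,⟨0,[]⟩⟩,
  ⟨false,1,⟨0,[(19,0),(13,0)]⟩,⟨0,[(1,0),(5,1),(0,0)]⟩⟩,[]⟩)))) (.R ⟨0,false,false,true,[1,0,-1],[0,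
  1],[1],(⟨0,[(20,0)]⟩,⟨0,[(21,0)]⟩),(⟨0,[(24,0)]⟩,⟨0,[(23,0)]⟩),⟨0,[(9,0)]⟩,.k,.k,.k,.k,.k,.k,
  ⟨false,1,⟨1,[(4,1),(24,0),(0,0)]⟩,⟨1,[(5,0),(0,0),(25,0)]⟩⟩,⟨true,0,⟨0,[(15,0)]⟩,⟨3,[(0,3),(1,3),
  (15,0),(0,0),(11,1)]⟩⟩,⟨false,1,⟨0,[(6,0),(23,0)]⟩,⟨0,[(4,1),(0,0)]⟩⟩,⟨true,0,⟨0,[(2,0),(3,0),(8,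
  0)]⟩,⟨0,[(0,0),(3,1),(0,0)]⟩⟩,⟨false,0,⟨0,[]⟩,⟨0,[]⟩⟩,⟨false,0,⟨0,[]⟩,⟨0,[]⟩⟩,[.o ⟨false,0,⟨0,
  [(27,0)]⟩,⟨1,[(22,0),(5,1),(1,0)]⟩⟩,.e ⟨false,1,⟨1,[(29,0),(0,0)]⟩,⟨0,[(32,0)]⟩⟩ ⟨false,1,⟨3,[(5,
  1),(0,1),(4,0),(0,0),(2,3),(13,1),(0,0)]⟩,⟨0,[(0,0)]⟩⟩,.e ⟨true,0,⟨0,[]⟩,⟨0,[(32,0)]⟩⟩ ⟨true,0,⟨2,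
  [(5,0),(0,1),(0,0),(0,0),(6,1)]⟩,⟨0,[(0,0)]⟩⟩,.a ⟨true,0,⟨0,[(19,0)]⟩,⟨0,[(15,0)]⟩⟩ ⟨false,1,⟨1,
  [(29,0),(0,0)]⟩,⟨1,[(18,0),(0,0)]⟩⟩ ⟨true,0,⟨0,[(15,0),(11,0)]⟩,⟨1,[(0,1),(17,0),(0,0)]⟩⟩]⟩)))
  (.Q [0,0,0,0,0,0,-1,0,0,0,1] (.p true [0,0,1] [] (⟨0,[(19,0)]⟩,⟨0,[(18,0)]⟩) .k 0 (⟨0,[]⟩,⟨0,[]⟩)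
  .k .k) (.Q [0,-1,0,1,0,0,-2,-2,0,0,2] (.p true [0,0,1] [0,1,-1] (⟨0,[(20,0)]⟩,⟨0,[(19,0)]⟩) .k 2
  (⟨0,[(9,0)]⟩,⟨0,[(20,0),(1,0)]⟩) .k (.r (-1) ⟨0,[(5,1),(23,0)]⟩ ⟨0,[(1,3),(2,1)]⟩)) (.R ⟨0,false,
  false,true,[0,1,-1],[0,0,1],[1,1,1],(⟨0,[(10,0)]⟩,⟨0,[(21,0),(1,0)]⟩),(⟨0,[(21,0)]⟩,⟨0,[(20,0)]⟩),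
  ⟨0,[(21,0)]⟩,.k,.k,.k,(.r 0 ⟨2,[(0,1),(2,2),(3,0),(9,0)]⟩ ⟨0,[(2,0),(3,1),(23,0)]⟩),.k,.k,⟨false,
  0,⟨9,[(0,3),(1,3),(0,4),(13,1),(7,0)]⟩,⟨1,[(6,1),(22,0),(0,0)]⟩⟩,⟨true,0,⟨0,[(3,0)]⟩,⟨0,[(1,1)]⟩⟩,
  ⟨true,0,⟨0,[(6,0),(21,0)]⟩,⟨1,[(0,0),(2,0),(22,0)]⟩⟩,⟨false,1,⟨0,[(16,1),(11,0),(1,0)]⟩,⟨0,[(0,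
  0)]⟩⟩,⟨false,0,⟨0,[]⟩,⟨0,[]⟩⟩,⟨false,0,⟨0,[]⟩,⟨0,[]⟩⟩,[.o ⟨false,0,⟨0,[(16,0)]⟩,⟨5,[(0,1),(16,1),
  (4,2),(5,1),(1,2)]⟩⟩,.e ⟨false,0,⟨0,[]⟩,⟨1,[(11,0),(0,0),(16,0)]⟩⟩ ⟨false,1,⟨3,[(8,1),(2,0),(0,0),
  (3,3),(5,0),(7,1)]⟩,⟨5,[(0,2),(0,5),(0,3),(22,0),(0,0)]⟩⟩,.a ⟨true,0,⟨0,[(1,1),(13,0)]⟩,⟨0,[(18,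
  0)]⟩⟩ ⟨false,0,⟨1,[(18,0),(0,0)]⟩,⟨1,[(29,0),(0,0)]⟩⟩ ⟨true,0,⟨0,[(16,0),(1,0)]⟩,⟨5,[(0,2),(0,5),
  (0,3),(22,0),(0,0)]⟩⟩,.o ⟨false,0,⟨0,[(1,0)]⟩,⟨3,[(8,1),(2,0),(0,0),(9,2)]⟩⟩]⟩) (.Q [0,0,0,1,0,0,
  -2,-1,0,0,2] (.p true [0,0,1] [0,1,-1] (⟨0,[(21,0)]⟩,⟨0,[(20,0)]⟩) .k 2 (⟨0,[(10,0)]⟩,⟨0,[(21,0),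
  (1,0)]⟩) .k (.r (-1) ⟨0,[(6,1),(23,0)]⟩ ⟨0,[(2,3),(2,1)]⟩)) (.R ⟨0,false,false,true,[0,1,-1],[0,0,
  1],[],(⟨0,[(11,0)]⟩,⟨0,[(22,0),(1,0)]⟩),(⟨0,[(22,0)]⟩,⟨0,[(21,0)]⟩),⟨0,[(22,0)]⟩,.k,.k,.k,(.r 0
  ⟨0,[(3,2),(2,1)]⟩ ⟨0,[(3,0),(3,1),(23,0)]⟩),.k,.k,⟨false,1,⟨3,[(3,5),(2,1),(1,1),(7,1),(6,0),(7,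
  2)]⟩,⟨0,[(7,0)]⟩⟩,⟨true,0,⟨0,[(4,0)]⟩,⟨0,[(2,1)]⟩⟩,⟨false,1,⟨0,[(3,0),(3,0),(23,0)]⟩,⟨0,[(3,0),(2,
  0)]⟩⟩,⟨true,0,⟨0,[(1,0)]⟩,⟨0,[(0,0),(2,1),(2,0)]⟩⟩,⟨false,0,⟨0,[]⟩,⟨0,[]⟩⟩,⟨false,0,⟨0,[]⟩,⟨0,
  []⟩⟩,[.o ⟨false,0,⟨0,[(17,0)]⟩,⟨1,[(0,0),(2,1),(2,0),(16,0),(5,0),(1,0)]⟩⟩,.e ⟨false,1,⟨1,[(30,0),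
  (0,0)]⟩,⟨10,[(1,1),(4,0),(0,0),(10,3),(7,1)]⟩⟩ ⟨false,1,⟨5,[(1,3),(4,1),(2,1),(2,0),(0,0),(9,0),
  (6,1),(0,1)]⟩,⟨0,[(0,0),(2,0)]⟩⟩,.a ⟨true,0,⟨0,[(2,1),(13,0)]⟩,⟨0,[(19,0)]⟩⟩ ⟨false,1,⟨1,[(12,0),
  (0,0),(17,0)]⟩,⟨0,[]⟩⟩ ⟨true,0,⟨15,[(1,11),(2,4),(1,5),(11,1),(7,0)]⟩,⟨0,[(0,0),(2,0)]⟩⟩,.o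
  ⟨false,0,⟨0,[(2,0)]⟩,⟨3,[(9,1),(2,0),(0,0),(9,2)]⟩⟩]⟩) (.R ⟨2,true,false,false,[0,1],[0,0,1],[0,1,
  1],(⟨0,[]⟩,⟨0,[]⟩),(⟨0,[(22,0)]⟩,⟨0,[(21,0)]⟩),⟨0,[]⟩,.k,.k,.k,.k,.k,.k,⟨false,0,⟨1,[(3,0),(0,0),
  (3,0),(9,0)]⟩,⟨0,[(0,0),(1,1),(24,0),(3,0)]⟩⟩,⟨true,0,⟨0,[(19,0)]⟩,⟨0,[(2,0)]⟩⟩,⟨false,0,⟨0,[(29,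
  0)]⟩,⟨0,[(28,0),(2,0)]⟩⟩,⟨true,0,⟨0,[(0,0),(1,0)]⟩,⟨0,[(8,0)]⟩⟩,⟨true,0,⟨10,[(1,1),(4,0),(0,0),
  (10,3),(7,1)]⟩,⟨0,[]⟩⟩,⟨false,1,⟨1,[(1,0),(26,0),(2,1)]⟩,⟨0,[(2,0),(0,1),(2,0)]⟩⟩,[]⟩))) (.Q [0,0,
  0,1,0,0,-2,-2,0,0,2] (.p true [0,0,1] [0,1,-1] (⟨0,[(20,0)]⟩,⟨0,[(19,0)]⟩) .k 2 (⟨0,[(9,0)]⟩,⟨0,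
  [(20,0),(1,0)]⟩) .k (.r (-1) ⟨0,[(5,1),(23,0)]⟩ ⟨0,[(1,3),(2,1)]⟩)) (.Q [0,0,0,0,0,0,-1,0,0,1,1]
  (.p true [1,-1,1] [] (⟨0,[(21,0),(1,0)]⟩,⟨0,[(10,0)]⟩) .k 0 (⟨0,[]⟩,⟨0,[]⟩) .k .k) (.Q [0,0,-1,-1,
  0,0,-1,0,0,0,1] (.p true [0,0,1] [] (⟨0,[(22,0)]⟩,⟨0,[(21,0)]⟩) .k 0 (⟨0,[]⟩,⟨0,[]⟩) .k .k) (.R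
  ⟨0,false,false,true,[0,1,-1],[0,1],[1],(⟨0,[(12,0)]⟩,⟨0,[(23,0),(1,0)]⟩),(⟨0,[(26,0)]⟩,⟨0,[(25,
  0)]⟩),⟨0,[(23,0)]⟩,.k,.k,.k,.k,.k,.k,⟨false,1,⟨1,[(4,1),(26,0),(0,0)]⟩,⟨1,[(7,0),(0,0),(25,0)]⟩⟩,
  ⟨true,0,⟨0,[(3,0)]⟩,⟨0,[(21,0)]⟩⟩,⟨false,1,⟨0,[(4,0),(3,0),(23,0)]⟩,⟨2,[(2,0),(2,0),(1,0)]⟩⟩,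
  ⟨true,0,⟨0,[(18,0)]⟩,⟨1,[(2,0),(27,0)]⟩⟩,⟨false,0,⟨0,[]⟩,⟨0,[]⟩⟩,⟨false,0,⟨0,[]⟩,⟨0,[]⟩⟩,[.o
  ⟨false,0,⟨0,[(29,0)]⟩,⟨1,[(24,0),(5,1),(1,0)]⟩⟩,.e ⟨false,1,⟨1,[(31,0),(0,0)]⟩,⟨0,[(34,0)]⟩⟩
  ⟨false,1,⟨7,[(7,3),(2,1),(2,0),(0,0),(3,3),(5,0),(6,3),(0,1)]⟩,⟨0,[(0,0)]⟩⟩,.e ⟨true,0,⟨0,[]⟩,⟨0,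
  [(34,0)]⟩⟩ ⟨true,0,⟨3,[(5,0),(1,1),(10,1),(8,0)]⟩,⟨0,[(0,0)]⟩⟩,.a ⟨true,0,⟨0,[(1,0)]⟩,⟨0,[(3,
  0)]⟩⟩ ⟨false,1,⟨1,[(31,0),(0,0)]⟩,⟨1,[(20,0),(0,0)]⟩⟩ ⟨true,0,⟨1,[(5,0),(22,0),(0,0)]⟩,⟨1,[(0,0),
  (20,0),(8,0)]⟩⟩]⟩) (.Q [0,0,-1,0,0,0,-1,0,0,1,1] (.p true [1,-1,1] [] (⟨0,[(23,0),(1,0)]⟩,⟨0,[(12,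
  0)]⟩) .k 0 (⟨0,[]⟩,⟨0,[]⟩) .k .k) (.R ⟨0,false,false,true,[0,1,-1],[0,1],[1],(⟨0,[(13,0)]⟩,⟨0,
  [(24,0),(1,0)]⟩),(⟨0,[(27,0)]⟩,⟨0,[(26,0)]⟩),⟨0,[(24,0)]⟩,.k,.k,.k,.k,.k,.k,⟨false,1,⟨1,[(5,1),
  (26,0),(0,0)]⟩,⟨1,[(8,0),(0,0),(25,0)]⟩⟩,⟨true,0,⟨0,[(4,0)]⟩,⟨0,[(22,0)]⟩⟩,⟨false,1,⟨0,[(5,0),(3,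
  0),(23,0)]⟩,⟨2,[(3,0),(2,0),(1,0)]⟩⟩,⟨true,0,⟨0,[(19,0)]⟩,⟨1,[(3,0),(27,0)]⟩⟩,⟨false,0,⟨0,[]⟩,⟨0,
  []⟩⟩,⟨false,0,⟨0,[]⟩,⟨0,[]⟩⟩,[.o ⟨false,0,⟨0,[(30,0)]⟩,⟨1,[(25,0),(5,1),(1,0)]⟩⟩,.a ⟨true,0,⟨0,
  [(0,0),(0,0)]⟩,⟨0,[(31,0)]⟩⟩ ⟨false,1,⟨1,[(32,0),(0,0)]⟩,⟨0,[(35,0)]⟩⟩ ⟨true,0,⟨0,[(1,0)]⟩,⟨0,[(5,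
  0),(16,0)]⟩⟩,.a ⟨true,0,⟨0,[(0,0)]⟩,⟨0,[(21,0)]⟩⟩ ⟨true,0,⟨0,[]⟩,⟨0,[(35,0)]⟩⟩ ⟨false,0,⟨0,[(1,
  0)]⟩,⟨1,[(0,1),(24,0),(5,1),(1,0)]⟩⟩,.a ⟨true,0,⟨0,[(2,0)]⟩,⟨0,[(4,0)]⟩⟩ ⟨false,1,⟨1,[(32,0),(0,
  0)]⟩,⟨1,[(21,0),(0,0)]⟩⟩ ⟨true,0,⟨1,[(6,0),(22,0),(0,0)]⟩,⟨0,[(5,0),(16,0)]⟩⟩]⟩) (.Q [0,0,-1,0,0,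
  0,0,0,0,1] (.pp false [-1,1]) (.R ⟨0,false,false,false,[1,-1],[1,-1,1],[0,0,-1,-2],(⟨0,[(27,0)]⟩,
  ⟨0,[(28,0)]⟩),(⟨0,[(25,0),(1,0)]⟩,⟨0,[(14,0)]⟩),⟨0,[(13,0),(0,0)]⟩,.k,.k,(.r 0 ⟨0,[(6,1)]⟩ ⟨1,[(9,
  1),(0,1),(4,0),(0,0),(17,0)]⟩),.k,.k,.k,⟨false,0,⟨1,[(4,0),(1,2),(0,0)]⟩,⟨0,[(10,0),(20,0),(2,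
  0)]⟩⟩,⟨true,0,⟨0,[(5,0)]⟩,⟨0,[(23,0)]⟩⟩,⟨true,0,⟨0,[(32,0)]⟩,⟨0,[(31,0)]⟩⟩,⟨false,1,⟨0,[(20,0),
  (13,0)]⟩,⟨1,[(4,0),(27,0)]⟩⟩,⟨false,0,⟨0,[]⟩,⟨0,[]⟩⟩,⟨false,0,⟨0,[]⟩,⟨0,[]⟩⟩,[.e ⟨false,0,⟨0,[(6,
  1)]⟩,⟨1,[(9,1),(0,1),(22,0),(0,0)]⟩⟩ ⟨false,1,⟨1,[(6,1),(13,1),(12,0),(0,0)]⟩,⟨2,[(4,0),(4,0),(13,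
  0)]⟩⟩,.o ⟨false,1,⟨0,[(1,0),(4,0),(3,0),(23,0)]⟩,⟨0,[(11,0)]⟩⟩,.a ⟨true,0,⟨1,[(22,0),(0,0)]⟩,⟨0,
  [(0,0)]⟩⟩ ⟨true,0,⟨0,[(6,0),(25,0)]⟩,⟨0,[(2,0),(20,0),(6,0)]⟩⟩ ⟨false,1,⟨0,[(6,0),(13,0),(13,0)]⟩,
  ⟨2,[(4,0),(4,0),(13,0)]⟩⟩,.o ⟨false,0,⟨0,[(1,0),(21,0)]⟩,⟨0,[(33,0)]⟩⟩]⟩) (.K ⟨0,[1,-1,1],0,0,(⟨0,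
  [(25,0),(1,0)]⟩,⟨0,[(14,0)]⟩),.k,(.r (-1) ⟨1,[(6,1),(3,1),(21,1),(0,0),(0,0)]⟩ ⟨1,[(0,0),(1,2),(0,
  0),(0,0)]⟩),.k,.k,.k,[⟨0,[(0,0)]⟩,⟨0,[(3,0)]⟩,⟨2,[(3,1),(7,2),(0,0)]⟩,⟨0,[(1,0),(4,0),(3,
  0)]⟩]⟩)))) (.Q [0,1,0,-1,-1,0,-1,-1,0,-1,1] (.p true [0,0,1] [1] (⟨0,[(22,0)]⟩,⟨0,[(21,0)]⟩) .k 1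
  (⟨0,[]⟩,⟨0,[]⟩) .k .k) (.R ⟨0,false,false,false,[1,0,-1],[0,1],[1,0,1],(⟨0,[(22,0)]⟩,⟨0,[(23,
  0)]⟩),(⟨0,[(26,0)]⟩,⟨0,[(25,0)]⟩),⟨0,[(11,0)]⟩,.k,.k,.k,.k,.k,.k,⟨false,0,⟨0,[(4,0)]⟩,⟨3,[(7,1),
  (0,1),(4,0),(0,0),(16,1),(0,0)]⟩⟩,⟨true,0,⟨0,[(17,0)]⟩,⟨0,[(1,0),(19,1)]⟩⟩,⟨false,1,⟨1,[(8,1),(11,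
  0),(0,0),(10,1)]⟩,⟨1,[(1,0),(0,0),(1,0),(12,0)]⟩⟩,⟨true,1,⟨3,[(7,1),(0,5),(4,0),(0,0),(2,3),(14,
  2)]⟩,⟨0,[(0,0)]⟩⟩,⟨false,0,⟨0,[]⟩,⟨0,[]⟩⟩,⟨false,0,⟨0,[]⟩,⟨0,[]⟩⟩,[.o ⟨false,1,⟨3,[(7,1),(0,1),(4,
  0),(0,0),(16,1),(0,0)]⟩,⟨1,[(0,0),(0,0),(6,0),(21,0),(1,0)]⟩⟩,.o ⟨false,1,⟨0,[(29,0),(2,0)]⟩,⟨2,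
  [(0,0),(17,0),(5,0),(5,1),(3,0)]⟩⟩,.o ⟨false,1,⟨1,[(21,1),(2,0),(6,0)]⟩,⟨0,[(3,0)]⟩⟩,.a ⟨true,0,
  ⟨0,[(21,0)]⟩,⟨0,[(17,0)]⟩⟩ ⟨true,0,⟨0,[]⟩,⟨0,[(34,0)]⟩⟩ ⟨false,1,⟨0,[(17,0),(11,0),(2,0)]⟩,⟨1,[(0,
  0),(0,0),(6,0),(12,1),(8,0),(1,0)]⟩⟩]⟩) (.R ⟨0,false,false,false,[1,0,-1],[0,1],[0,1],(⟨0,[(22,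
  0)]⟩,⟨0,[(23,0)]⟩),(⟨0,[(26,0)]⟩,⟨0,[(25,0)]⟩),⟨0,[(11,0)]⟩,.k,.k,.k,.k,.k,.k,⟨false,0,⟨2,[(4,3),
  (22,0),(0,0)]⟩,⟨5,[(0,1),(6,1),(5,0),(0,0),(6,1),(2,0),(7,1)]⟩⟩,⟨true,0,⟨0,[(17,0)]⟩,⟨0,[(1,0),
  (19,1)]⟩⟩,⟨true,0,⟨0,[(8,0)]⟩,⟨1,[(2,0),(1,0),(0,0)]⟩⟩,⟨false,1,⟨0,[(0,0)]⟩,⟨1,[(1,1),(0,0),(1,1),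
  (16,1),(8,0)]⟩⟩,⟨false,0,⟨0,[]⟩,⟨0,[]⟩⟩,⟨false,0,⟨0,[]⟩,⟨0,[]⟩⟩,[.o ⟨false,1,⟨2,[(0,1),(8,0),(9,
  0),(4,0)]⟩,⟨0,[(1,0),(2,0),(16,0)]⟩⟩,.o ⟨false,1,⟨17,[(0,5),(1,1),(4,1),(13,1),(2,2),(3,5),(3,
  8)]⟩,⟨1,[(1,1),(2,0),(3,0),(10,0),(1,0),(8,0)]⟩⟩,.o ⟨false,1,⟨1,[(21,1),(2,0),(6,0)]⟩,⟨0,[(3,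
  0)]⟩⟩,.a ⟨true,0,⟨0,[(21,0)]⟩,⟨0,[(17,0)]⟩⟩ ⟨true,0,⟨2,[(4,0),(22,0),(0,0)]⟩,⟨1,[(20,0),(0,0)]⟩⟩
  ⟨false,1,⟨3,[(0,0),(6,0),(9,2),(10,0),(2,0),(0,1)]⟩,⟨0,[(1,0),(2,0),(16,1)]⟩⟩]⟩))) (.Q [0,0,0,1,0,
  0,0,0,0,1] (.pp false [-1,1]) (.R ⟨0,false,false,true,[0,0,1],[0,1],[1,1],(⟨0,[(22,0)]⟩,⟨0,[(21,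
  0)]⟩),(⟨0,[(25,0)]⟩,⟨0,[(24,0)]⟩),⟨0,[(11,0)]⟩,.k,.k,.k,.k,.k,.k,⟨true,0,⟨0,[(3,0)]⟩,⟨2,[(1,0),(4,
  1),(13,1)]⟩⟩,⟨false,1,⟨1,[(3,1),(16,1),(6,1),(2,0),(0,0)]⟩,⟨0,[(19,0)]⟩⟩,⟨false,0,⟨0,[(3,1),(2,
  0)]⟩,⟨0,[(7,0),(23,0)]⟩⟩,⟨true,0,⟨0,[(8,0)]⟩,⟨1,[(1,0),(27,0)]⟩⟩,⟨false,0,⟨0,[]⟩,⟨0,[]⟩⟩,⟨false,0,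
  ⟨0,[]⟩,⟨0,[]⟩⟩,[.o ⟨false,0,⟨0,[(28,0)]⟩,⟨1,[(23,0),(5,1),(1,0)]⟩⟩,.a ⟨true,0,⟨0,[(0,0)]⟩,⟨0,[(29,
  0)]⟩⟩ ⟨true,0,⟨0,[]⟩,⟨1,[(19,0),(0,0)]⟩⟩ ⟨false,1,⟨1,[(20,1),(6,1),(2,0),(0,0)]⟩,⟨1,[(3,0),(0,0),
  (24,0)]⟩⟩,.o ⟨false,0,⟨0,[(2,0)]⟩,⟨1,[(20,1),(2,0),(6,0)]⟩⟩,.o ⟨false,0,⟨0,[(19,0)]⟩,⟨1,[(3,1),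
  (16,1),(2,0),(3,1),(3,0)]⟩⟩]⟩) (.R ⟨0,false,false,false,[1,0,-1],[1,-1],[1,0,-1,-1],(⟨0,[(21,0)]⟩,
  ⟨0,[(22,0)]⟩),(⟨0,[(24,0)]⟩,⟨0,[(25,0)]⟩),⟨0,[(10,0)]⟩,.k,.k,.k,.k,.k,.k,⟨true,0,⟨0,[]⟩,⟨1,[(19,
  0),(0,0)]⟩⟩,⟨false,0,⟨0,[(2,0)]⟩,⟨0,[(20,0),(9,0)]⟩⟩,⟨false,1,⟨0,[(3,0),(3,0),(23,0)]⟩,⟨0,[(3,0),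
  (2,0)]⟩⟩,⟨true,0,⟨1,[(1,0),(27,0)]⟩,⟨0,[(8,0)]⟩⟩,⟨false,0,⟨0,[]⟩,⟨0,[]⟩⟩,⟨false,0,⟨0,[]⟩,⟨0,[]⟩⟩,
  [.o ⟨false,0,⟨0,[(0,0)]⟩,⟨3,[(6,1),(0,1),(4,0),(0,0),(16,1),(0,0)]⟩⟩,.o ⟨false,1,⟨1,[(23,0),(5,1),
  (1,0)]⟩,⟨0,[(28,0)]⟩⟩,.o ⟨false,1,⟨1,[(20,1),(2,0),(6,0)]⟩,⟨0,[(2,0)]⟩⟩,.a ⟨true,0,⟨0,[(20,0)]⟩,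
  ⟨0,[(16,0)]⟩⟩ ⟨false,1,⟨1,[(3,1),(26,0),(0,0)]⟩,⟨2,[(1,0),(4,1),(13,1)]⟩⟩ ⟨true,0,⟨0,[(2,0),(0,
  0)]⟩,⟨0,[(20,0),(7,0)]⟩⟩]⟩))))) (.I [0,0,-2,0,0,2,-1] (.K ⟨0,[0,1,-1],0,0,(⟨0,[(8,0)]⟩,⟨0,[(19,0),
  (1,0)]⟩),.k,.k,(.x 0 ⟨0,[(0,0)]⟩ ⟨1,[(16,2),(0,0),(1,1),(0,1),(0,3)]⟩),(.r 0 ⟨0,[(2,2),(0,1)]⟩ ⟨0,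
  [(2,0),(1,1),(23,0)]⟩),.k,[⟨0,[(1,0)]⟩,⟨1,[(16,2),(0,0)]⟩,⟨0,[(14,0),(11,0)]⟩,⟨0,[(5,0)]⟩]⟩) (.Q
  [0,0,0,0,0,0,1,1,0,1,-1] (.p false [0,0,1] [1] (⟨0,[(19,0)]⟩,⟨0,[(18,0)]⟩) .k 1 (⟨0,[]⟩,⟨0,[]⟩)
  .k .k) (.Q [0,-1,0,2,1,0,1,1,0,1,-1] (.p false [0,0,1] [1] (⟨0,[(20,0)]⟩,⟨0,[(19,0)]⟩) .k 1 (⟨0,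
  []⟩,⟨0,[]⟩) .k .k) (.I [0,0,2,1] (.Q [0,1,0,0,0,0,-1,-1,0,-1,1] (.p true [0,0,1] [1] (⟨0,[(22,
  0)]⟩,⟨0,[(21,0)]⟩) .k 1 (⟨0,[]⟩,⟨0,[]⟩) .k .k) (.R ⟨0,false,false,true,[-1,1,1],[0,1],[1,1],(⟨0,
  [(11,0)]⟩,⟨0,[(22,0),(2,0)]⟩),(⟨0,[(26,0)]⟩,⟨0,[(25,0)]⟩),⟨0,[(22,0)]⟩,.k,.k,.k,.k,.k,.k,⟨true,0,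
  ⟨0,[(6,0)]⟩,⟨0,[(1,0)]⟩⟩,⟨false,1,⟨5,[(5,1),(15,1),(2,2),(6,2)]⟩,⟨1,[(10,0),(11,0),(0,0)]⟩⟩,
  ⟨false,0,⟨0,[(6,2),(0,0)]⟩,⟨3,[(2,1),(0,1),(0,3),(0,3),(5,1),(0,5),(11,0),(7,0)]⟩⟩,⟨true,0,⟨0,[(0,
  0)]⟩,⟨0,[(3,0)]⟩⟩,⟨false,0,⟨0,[]⟩,⟨0,[]⟩⟩,⟨false,0,⟨0,[]⟩,⟨0,[]⟩⟩,[.o ⟨false,0,⟨0,[(29,0)]⟩,⟨1,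
  [(24,0),(5,1),(1,0)]⟩⟩,.a ⟨true,0,⟨1,[(3,0),(1,0),(1,0),(9,0)]⟩,⟨0,[(30,0)]⟩⟩ ⟨true,0,⟨0,[]⟩,⟨1,
  [(20,0),(0,0)]⟩⟩ ⟨false,1,⟨2,[(2,0),(2,0),(3,0),(11,0),(2,1)]⟩,⟨0,[(17,0),(12,0)]⟩⟩,.o ⟨false,0,
  ⟨0,[(17,0)]⟩,⟨0,[(21,0),(2,0)]⟩⟩,.o ⟨false,0,⟨1,[(10,0),(11,0),(0,0)]⟩,⟨2,[(5,0),(15,0),(2,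
  2)]⟩⟩]⟩) (.R ⟨0,false,false,false,[-1,1,1],[0,1],[1],(⟨0,[(11,0)]⟩,⟨0,[(22,0),(2,0)]⟩),(⟨0,[(26,
  0)]⟩,⟨0,[(25,0)]⟩),⟨0,[(22,0)]⟩,.k,.k,.k,.k,.k,.k,⟨true,0,⟨0,[(6,0)]⟩,⟨0,[(1,0)]⟩⟩,⟨false,1,⟨5,
  [(5,1),(15,1),(2,2),(6,2)]⟩,⟨1,[(0,0),(9,0),(8,0)]⟩⟩,⟨true,0,⟨0,[(6,2),(0,0)]⟩,⟨5,[(0,0),(0,3),(2,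
  1),(0,3),(5,0),(0,2),(5,4),(9,1)]⟩⟩,⟨false,1,⟨1,[(5,0),(0,2),(0,1),(16,0),(5,0),(1,0)]⟩,⟨0,[(3,
  0)]⟩⟩,⟨false,0,⟨0,[]⟩,⟨0,[]⟩⟩,⟨false,0,⟨0,[]⟩,⟨0,[]⟩⟩,[.a ⟨true,0,⟨0,[(0,0),(8,0)]⟩,⟨0,[(30,0)]⟩⟩
  ⟨true,0,⟨0,[]⟩,⟨1,[(20,0),(0,0)]⟩⟩ ⟨false,1,⟨2,[(2,0),(2,0),(3,0),(11,0),(2,1)]⟩,⟨0,[(17,0),(12,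
  0)]⟩⟩,.o ⟨false,1,⟨5,[(2,1),(6,1),(14,0),(7,2)]⟩,⟨0,[(4,1),(0,0),(0,1),(4,0),(0,2),(15,0)]⟩⟩,.o
  ⟨false,0,⟨0,[(17,0)]⟩,⟨0,[(21,0),(2,0)]⟩⟩,.o ⟨false,0,⟨1,[(0,0),(9,0),(8,0)]⟩,⟨2,[(5,0),(15,0),(2,
  2)]⟩⟩]⟩)) (.R ⟨2,false,false,true,[0,1],[0,1,-1],[0,0,1],(⟨0,[]⟩,⟨0,[]⟩),(⟨0,[(11,0)]⟩,⟨0,[(22,0),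
  (1,0)]⟩),⟨0,[]⟩,.k,.k,.k,.k,.k,.k,⟨false,1,⟨1,[(0,0),(6,1),(21,0),(1,1)]⟩,⟨6,[(0,4),(5,5),(11,0),
  (0,0),(6,2)]⟩⟩,⟨true,0,⟨2,[(4,0),(15,0)]⟩,⟨0,[(19,0)]⟩⟩,⟨true,0,⟨0,[(29,0)]⟩,⟨0,[(28,0)]⟩⟩,⟨false,
  0,⟨3,[(0,2),(3,1),(1,3),(22,4)]⟩,⟨1,[(2,1),(20,0),(7,0)]⟩⟩,⟨false,1,⟨1,[(12,0),(0,0),(17,0)]⟩,⟨0,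
  []⟩⟩,⟨false,0,⟨3,[(0,2),(3,1),(1,3),(22,0)]⟩,⟨1,[(2,1),(20,0),(5,1),(1,0)]⟩⟩,[.o ⟨false,0,⟨0,[(8,
  0)]⟩,⟨0,[(0,2),(0,0),(1,3),(0,1),(5,1),(0,5)]⟩⟩,.o ⟨false,0,⟨3,[(0,2),(3,1),(1,3),(22,0)]⟩,⟨0,[(2,
  0),(20,0),(5,0)]⟩⟩,.a ⟨true,0,⟨2,[(4,0),(11,1),(4,0),(0,0)]⟩,⟨1,[(19,0),(0,0)]⟩⟩ ⟨true,0,⟨1,[(19,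
  0),(0,0)]⟩,⟨4,[(0,0),(25,1),(0,0)]⟩⟩ ⟨false,0,⟨3,[(0,0),(3,1),(1,3),(22,2)]⟩,⟨1,[(0,0),(1,1),(20,
  0),(5,0),(1,0)]⟩⟩,.e ⟨false,1,⟨1,[(12,0),(0,0),(17,0)]⟩,⟨0,[]⟩⟩ ⟨false,0,⟨3,[(0,2),(3,1),(1,3),
  (22,0)]⟩,⟨1,[(2,1),(20,0),(5,1),(1,0)]⟩⟩]⟩)) (.I [0,0,2,2,0,0,0,-1] (.K ⟨0,[0,1,-1],0,0,(⟨0,[(11,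
  0)]⟩,⟨0,[(22,0),(1,0)]⟩),.k,.k,(.r 0 ⟨0,[(0,0)]⟩ ⟨1,[(5,1),(1,1),(21,1),(0,0),(0,0)]⟩),(.r 0 ⟨7,
  [(1,5),(4,9),(9,5),(13,2),(0,2)]⟩ ⟨0,[(5,0),(1,1),(23,0)]⟩),.k,[⟨0,[(4,0)]⟩,⟨1,[(19,2),(0,0)]⟩,⟨0,
  [(17,0),(11,0)]⟩,⟨0,[(8,0)]⟩]⟩) (.Q [0,0,0,0,0,0,-2,-1,0,-1,2] (.p true [0,0,1] [1,0,-1] (⟨0,[(22,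
  0)]⟩,⟨0,[(21,0)]⟩) .k 2 (⟨0,[(21,0)]⟩,⟨0,[(22,0)]⟩) .k (.r (-1) ⟨0,[(7,1),(23,0)]⟩ ⟨1,[(1,1),(4,
  1),(9,1),(13,0),(0,0)]⟩)) (.I [1,1,-1,0,0,0,0,1] (.R ⟨0,false,false,false,[0,0,1],[1,0,-1],[0,0,1,
  0,0,0,0,-1],(⟨0,[(24,0)]⟩,⟨0,[(23,0)]⟩),(⟨0,[(23,0)]⟩,⟨0,[(24,0)]⟩),⟨0,[(13,0)]⟩,.k,.k,.k,.k,.k,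
  .k,⟨true,0,⟨1,[(21,0),(0,0)]⟩,⟨0,[]⟩⟩,⟨false,1,⟨5,[(6,3),(15,3),(2,2),(6,2)]⟩,⟨0,[(11,0)]⟩⟩,
  ⟨false,0,⟨0,[(3,0),(4,0),(9,0),(14,0)]⟩,⟨0,[(0,0),(8,0),(23,0)]⟩⟩,⟨true,0,⟨3,[(1,3),(1,1),(4,1),
  (9,1),(13,0),(0,0)]⟩,⟨0,[(4,0),(14,0)]⟩⟩,⟨false,0,⟨0,[]⟩,⟨0,[]⟩⟩,⟨false,0,⟨0,[]⟩,⟨0,[]⟩⟩,[.a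
  ⟨true,0,⟨2,[(3,0),(2,0),(1,0),(9,0),(1,0),(12,0)]⟩,⟨0,[(4,0)]⟩⟩ ⟨false,0,⟨3,[(3,1),(4,1),(9,1),
  (13,0),(0,0)]⟩,⟨1,[(9,1),(22,0),(0,0)]⟩⟩ ⟨true,0,⟨0,[(1,0)]⟩,⟨0,[(4,0),(16,0)]⟩⟩,.o ⟨false,1,⟨2,
  [(3,0),(6,1),(14,0),(7,2)]⟩,⟨0,[(19,0)]⟩⟩,.e ⟨true,0,⟨5,[(3,1),(4,1),(2,1),(8,1),(0,0),(0,0),(10,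
  1)]⟩,⟨0,[(0,0)]⟩⟩ ⟨true,0,⟨0,[(1,0)]⟩,⟨1,[(4,0),(6,0),(7,0),(15,0)]⟩⟩,.o ⟨false,0,⟨0,[(21,0)]⟩,⟨5,
  [(6,1),(15,1),(2,2),(6,2)]⟩⟩]⟩) (.R ⟨0,false,false,false,[0,0,1],[1,0,-1],[0,1],(⟨0,[(24,0)]⟩,⟨0,
  [(23,0)]⟩),(⟨0,[(23,0)]⟩,⟨0,[(24,0)]⟩),⟨0,[(13,0)]⟩,.k,.k,.k,.k,.k,.k,⟨true,0,⟨0,[(9,0)]⟩,⟨0,[(0,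
  0)]⟩⟩,⟨false,1,⟨5,[(6,3),(15,3),(2,2),(6,2)]⟩,⟨0,[(11,0)]⟩⟩,⟨false,0,⟨5,[(0,2),(2,0),(6,1),(7,2),
  (6,0)]⟩,⟨0,[(9,0),(23,0)]⟩⟩,⟨true,0,⟨3,[(0,2),(0,2),(1,0),(6,0),(18,0),(2,0)]⟩,⟨0,[(4,0),(14,
  0)]⟩⟩,⟨false,0,⟨0,[]⟩,⟨0,[]⟩⟩,⟨false,0,⟨0,[]⟩,⟨0,[]⟩⟩,[.a ⟨true,0,⟨4,[(0,1),(0,0),(4,0),(11,0),(1,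
  1)]⟩,⟨0,[(4,0)]⟩⟩ ⟨false,0,⟨12,[(2,0),(0,0),(14,0),(9,3),(0,3),(2,0)]⟩,⟨1,[(14,0),(0,0),(17,0)]⟩⟩
  ⟨true,0,⟨0,[(1,0)]⟩,⟨0,[(4,0),(16,0)]⟩⟩,.o ⟨false,1,⟨5,[(0,1),(0,1),(18,1),(4,1),(6,0),(0,2)]⟩,⟨0,
  [(19,0)]⟩⟩,.e ⟨true,0,⟨0,[(35,0)]⟩,⟨0,[]⟩⟩ ⟨true,0,⟨0,[(1,0)]⟩,⟨1,[(4,0),(6,0),(7,0),(15,0)]⟩⟩,.o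
  ⟨false,0,⟨0,[(21,0)]⟩,⟨5,[(6,1),(15,1),(2,2),(6,2)]⟩⟩]⟩)) (.R ⟨0,false,false,false,[0,0,1],[1,0,
  -1],[0,0,1,0,0,0,0,-1],(⟨0,[(23,0)]⟩,⟨0,[(22,0)]⟩),(⟨0,[(22,0)]⟩,⟨0,[(23,0)]⟩),⟨0,[(12,0)]⟩,.k,.k,
  .k,.k,.k,.k,⟨true,0,⟨1,[(20,0),(0,0)]⟩,⟨0,[]⟩⟩,⟨false,1,⟨5,[(5,3),(15,3),(2,2),(6,2)]⟩,⟨0,[(10,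
  0)]⟩⟩,⟨false,0,⟨0,[(2,0),(4,0),(9,0),(14,0)]⟩,⟨1,[(0,1),(4,1),(2,1),(15,0),(7,0)]⟩⟩,⟨true,0,⟨12,
  [(2,13),(2,3),(1,6),(1,4),(7,0),(10,8),(3,13)]⟩,⟨0,[(0,0),(7,0)]⟩⟩,⟨false,0,⟨0,[]⟩,⟨0,[]⟩⟩,⟨false,
  0,⟨0,[]⟩,⟨0,[]⟩⟩,[.e ⟨false,0,⟨3,[(2,1),(4,1),(9,1),(13,0),(0,0)]⟩,⟨1,[(8,1),(22,0),(0,0)]⟩⟩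
  ⟨false,1,⟨11,[(2,1),(2,5),(3,3),(9,5),(4,4),(6,2),(0,5)]⟩,⟨0,[(0,0)]⟩⟩,.o ⟨false,1,⟨2,[(2,0),(6,
  1),(14,0),(7,2)]⟩,⟨0,[(18,0)]⟩⟩,.a ⟨true,0,⟨1,[(10,0),(11,0),(0,0)]⟩,⟨2,[(5,0),(15,0)]⟩⟩ ⟨true,0,
  ⟨5,[(2,1),(4,1),(2,1),(8,1),(0,0),(0,0),(10,1)]⟩,⟨1,[(0,0),(0,0),(2,1),(0,1),(5,0),(0,2),(15,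
  1)]⟩⟩ ⟨false,1,⟨23,[(2,5),(2,13),(1,5),(11,11),(1,1),(2,8),(7,20)]⟩,⟨0,[(0,0)]⟩⟩,.o ⟨false,0,⟨0,
  [(20,0)]⟩,⟨5,[(5,1),(15,1),(2,2),(6,2)]⟩⟩]⟩)))) (.R ⟨2,false,false,true,[0,1],[0,0,1],[0,1,1],(⟨0,
  []⟩,⟨0,[]⟩),(⟨0,[(20,0)]⟩,⟨0,[(19,0)]⟩),⟨0,[]⟩,.k,.k,.k,.k,.k,.k,⟨false,0,⟨2,[(0,1),(3,0),(9,1),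
  (12,1)]⟩,⟨1,[(5,1),(22,0),(0,0)]⟩⟩,⟨true,0,⟨0,[(17,0)]⟩,⟨2,[(2,0),(15,0)]⟩⟩,⟨false,0,⟨0,[(27,0)]⟩,
  ⟨0,[(26,0),(2,0)]⟩⟩,⟨true,0,⟨0,[(15,0),(11,0)]⟩,⟨1,[(0,0),(1,0),(1,0),(9,0)]⟩⟩,⟨true,0,⟨0,[(31,
  0)]⟩,⟨0,[]⟩⟩,⟨true,0,⟨0,[(15,0)]⟩,⟨1,[(0,0),(1,0),(1,0),(9,0),(12,1)]⟩⟩,[.o ⟨false,0,⟨0,[(15,0)]⟩,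
  ⟨3,[(0,1),(15,1),(4,0),(7,2)]⟩⟩,.o ⟨false,1,⟨1,[(10,0),(0,0),(3,1),(13,0)]⟩,⟨0,[(0,0)]⟩⟩,.a ⟨true,
  0,⟨2,[(2,0),(11,1),(4,0),(0,0)]⟩,⟨1,[(17,0),(0,0)]⟩⟩ ⟨false,0,⟨1,[(17,0),(0,0)]⟩,⟨1,[(28,0),(0,
  0)]⟩⟩ ⟨true,0,⟨0,[(5,0),(11,0)]⟩,⟨5,[(0,4),(1,2),(1,0),(9,4),(12,1)]⟩⟩,.e ⟨true,0,⟨0,[(31,0)]⟩,⟨0,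
  []⟩⟩ ⟨true,0,⟨0,[(15,0)]⟩,⟨1,[(0,0),(1,0),(1,0),(9,0),(12,1)]⟩⟩]⟩))))

theorem ok11 : chk K t11 r6 = true := by decide +kernel


end Helper25.S1T.Ymm_1a
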