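import Pool.Agent.Helper25.KG.S1b
import Pool.Agent.Helper11.CT.Cut

set_option autoImplicit false
set_option linter.all false

namespace Helper25.S1T.Ymm_1b

open Helper25.KG Helper25.KW Helper55.KE Helper11.CT

noncomputable def K : Cls :=
  cE (-1) [1] (kfY (-1) [0,0,0,0,0,0,1,0,0,0,-1])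

noncomputable def base : List Con :=
  [(false,[0,0,0,0,0,0,2,0,0,1,-2]),
  (false,[0,0,0,0,0,-1,0,0,0,1,-1]),
  (false,[0,0,0,0,0,1,0,0,0,0,-1]),
  (false,[0,0,0,0,1,0,0,0,-1,0,0,1]),
  (false,[0,0,0,0,0,0,0,0,1,0,0,-1]),
  (false,[0,0,0,0,0,0,0,0,0,1,0,-1]),
  (false,[0,0,0,0,0,0,0,0,0,0,0,1]),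
  (false,[0,0,-1,0,0,0,1,0,0,1,-1]),
  (false,[0,1,0,0,0,0,1,1,0,0,-1]),
  (false,[0,1,0,0,0,0,-1,-1,0,0,1]),
  (false,[0,0,1,0,0,0,1,0,0,0,-1]),
  (false,[0,0,1,0,0,0,-1,0,0,0,1]),
  (false,[0,0,0,0,0,0,0,0,0,1,-1]),
  (false,[0,0,0,0,0,0,0,0,0,0,1]),
  (false,[0,0,0,0,1,0,0,0,0,-2]),
  (false,[0,0,0,0,0,-1,0,0,0,1]),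
  (true,[0,0,0,0,0,1]),
  (true,[0,2,-1]),
  (true,[0,1,-1,1]),
  (true,[0,1,0,1]),
  (true,[0,0,0,-1]),
  (true,[0,0,-2,0,1]),
  (true,[0,-2,0,0,1]),
  (true,[-1,0,1]),
  (true,[-1,1])]

noncomputable def l0 : List Con := (false, [0,0,0,0,0,0,1,0,0,0,-1]) :: base

noncomputable def r0 : List Con := (false, [0,0,0,0,0,0,-1,0,0,0,1]) :: base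

noncomputable def t0 : Tre :=
  (.Q [0,1,0,1,0,0,1,1,0,0,-1] (.p false [0,0,1] [] (⟨0,[(14,0)]⟩,⟨0,[(13,0)]⟩) .k 0 (⟨0,[]⟩,⟨0,
  []⟩) .k .k) (.Q [0,0,0,-1,0,0,-1,-1,0,0,1] (.p true [0,0,1] [] (⟨0,[(15,0)]⟩,⟨0,[(14,0)]⟩) .k 0
  (⟨0,[]⟩,⟨0,[]⟩) .k .k) (.Q [0,0,0,0,0,0,-1,-1,0,0,1] (.p true [0,0,1] [] (⟨0,[(16,0)]⟩,⟨0,[(15,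
  0)]⟩) .k 0 (⟨0,[]⟩,⟨0,[]⟩) .k .k) (.I [1,0,1,0,-1,0,0,-1] (.Q [0,0,0,1,0,0,1,1,0,1,-1] (.p false
  [0,0,1] [1] (⟨0,[(18,0)]⟩,⟨0,[(17,0)]⟩) .k 1 (⟨0,[]⟩,⟨0,[]⟩) .k .k) (.Q [0,0,2,0,-1,0,1,0,0,0,-1]
  (.p false [0,0,1] [] (⟨0,[(19,0)]⟩,⟨0,[(18,0)]⟩) .k 0 (⟨0,[]⟩,⟨0,[]⟩) .k .k) (.R ⟨0,false,false,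
  true,[0,0,1],[0,1],[1,0,1],(⟨0,[(20,0)]⟩,⟨0,[(19,0)]⟩),(⟨0,[(23,0)]⟩,⟨0,[(22,0)]⟩),⟨0,[(9,0)]⟩,.k,
  .k,.k,.k,.k,.k,⟨false,1,⟨1,[(27,1),(0,0),(0,0)]⟩,⟨0,[(26,0)]⟩⟩,⟨true,1,⟨0,[(18,0),(9,0)]⟩,⟨0,[(0,
  0)]⟩⟩,⟨true,(-1),⟨0,[(2,0)]⟩,⟨0,[(15,0),(2,0),(9,0)]⟩⟩,⟨false,0,⟨1,[(2,0),(0,0),(14,0),(6,1),(3,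
  0)]⟩,⟨0,[(15,0),(11,0),(1,0)]⟩⟩,⟨false,0,⟨0,[]⟩,⟨0,[]⟩⟩,⟨false,0,⟨0,[]⟩,⟨0,[]⟩⟩,[.o ⟨false,0,⟨0,
  [(26,0)]⟩,⟨1,[(21,0),(5,1),(1,0)]⟩⟩,.e ⟨false,1,⟨1,[(10,0),(0,0),(17,0)]⟩,⟨0,[(25,0),(1,0)]⟩⟩
  ⟨false,1,⟨1,[(18,1),(6,1),(2,0),(0,0)]⟩,⟨0,[(6,0),(20,0)]⟩⟩,.o ⟨false,0,⟨0,[(6,0)]⟩,⟨1,[(18,1),(2,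
  0),(6,0)]⟩⟩,.a ⟨true,(-1),⟨0,[(1,0),(0,0),(24,0)]⟩,⟨0,[(18,0),(9,0)]⟩⟩ ⟨true,0,⟨0,[]⟩,⟨0,[(31,
  0)]⟩⟩ ⟨false,1,⟨1,[(18,1),(6,1),(2,0),(0,0)]⟩,⟨1,[(0,0),(5,0),(20,1),(1,0)]⟩⟩]⟩) (.R ⟨0,false,
  false,false,[0,0,1],[0,1,-1],[0,1],(⟨0,[(20,0)]⟩,⟨0,[(19,0)]⟩),(⟨0,[(9,0)]⟩,⟨0,[(20,0),(1,0)]⟩),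
  ⟨0,[(9,0)]⟩,.k,.k,.k,(.r (-2) ⟨0,[(0,0),(14,1),(2,0),(8,0),(1,0)]⟩ ⟨9,[(2,15),(0,3),(3,1),(13,0),
  (3,5),(0,3),(2,4)]⟩),.k,.k,⟨false,1,⟨0,[(0,0),(14,0),(11,0)]⟩,⟨0,[(2,0),(23,0),(2,0)]⟩⟩,⟨true,1,
  ⟨0,[(0,0),(17,0)]⟩,⟨0,[(2,1),(12,1),(13,0)]⟩⟩,⟨true,(-1),⟨0,[(2,0),(22,0),(1,0)]⟩,⟨5,[(0,1),(9,0),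
  (0,0),(3,5),(2,3),(10,2)]⟩⟩,⟨false,0,⟨0,[(0,0),(1,1),(15,0),(6,0),(3,0)]⟩,⟨0,[(15,1),(11,0),(1,
  0)]⟩⟩,⟨false,0,⟨0,[]⟩,⟨0,[]⟩⟩,⟨false,0,⟨0,[]⟩,⟨0,[]⟩⟩,[.o ⟨false,0,⟨1,[(2,0),(0,0),(14,0),(6,1),
  (3,0)]⟩,⟨1,[(15,1),(5,0),(5,1),(1,0)]⟩⟩,.e ⟨false,1,⟨1,[(10,0),(0,0),(16,0)]⟩,⟨0,[]⟩⟩ ⟨false,1,⟨0,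
  [(0,0),(1,0),(15,0),(6,0),(3,0)]⟩,⟨0,[(6,0),(8,0),(11,0)]⟩⟩,.o ⟨false,0,⟨0,[(6,0)]⟩,⟨5,[(0,1),(9,
  0),(0,0),(6,3),(2,2)]⟩⟩,.a ⟨true,(-1),⟨0,[(1,0),(0,0),(24,0)]⟩,⟨2,[(0,1),(9,0),(0,0),(6,0)]⟩⟩
  ⟨true,0,⟨0,[(25,0),(1,0)]⟩,⟨1,[(17,0),(0,0)]⟩⟩ ⟨false,1,⟨0,[(0,0),(1,0),(15,0),(6,0),(3,0)]⟩,⟨0,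
  [(2,0),(12,1),(11,0),(1,0)]⟩⟩]⟩)) (.S ⟨1,0,[0,0,0,-1,0,0,0,-1],[1,0,-1],[1,1,0,0,0,0,0,-1],(⟨0,
  [(18,0)]⟩,⟨0,[(19,0)]⟩),⟨0,[(7,0)]⟩,.k,.k,⟨false,0,⟨0,[]⟩,⟨1,[(9,0),(0,0),(17,0)]⟩⟩,⟨true,0,⟨0,
  [(26,0)]⟩,⟨0,[(25,0)]⟩⟩,⟨true,0,⟨0,[(25,0)]⟩,⟨0,[(26,0)]⟩⟩,⟨false,1,⟨1,[(9,0),(0,0),(17,0)]⟩,⟨0,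
  []⟩⟩,[.o ⟨false,0,⟨0,[(0,0)]⟩,⟨1,[(4,1),(4,0),(0,0),(17,0)]⟩⟩,.o ⟨false,1,⟨1,[(3,1),(16,0),(7,
  0)]⟩,⟨0,[(4,0)]⟩⟩,.o ⟨false,1,⟨1,[(17,1),(2,0),(6,0)]⟩,⟨0,[(5,0)]⟩⟩,.a ⟨true,0,⟨0,[(17,0)]⟩,⟨0,
  [(13,0)]⟩⟩ ⟨false,0,⟨0,[(1,0),(25,0)]⟩,⟨0,[(14,0),(2,0),(10,0)]⟩⟩ ⟨true,0,⟨0,[(0,0),(12,0)]⟩,⟨0,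
  [(4,0),(12,0)]⟩⟩]⟩)) (.Q [0,-1,-1,-1,1,0,-1,0,0,0,1] (.p true [0,0,1] [] (⟨0,[(18,0)]⟩,⟨0,[(17,
  0)]⟩) .k 0 (⟨0,[]⟩,⟨0,[]⟩) .k .k) (.I [0,0,-1,-1,0,0,0,-1] (.I [1,-1,0,1,1,0,0,1] (.S ⟨1,0,[0,0,0,
  -1,0,0,0,-1],[1,0,-1],[0,1,0,-1,0,0,0,-1],(⟨0,[(20,0)]⟩,⟨0,[(21,0)]⟩),⟨0,[(9,0)]⟩,.k,.k,⟨false,0,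
  ⟨0,[(28,0)]⟩,⟨0,[(27,0),(2,0)]⟩⟩,⟨true,0,⟨0,[(28,0)]⟩,⟨0,[(27,0)]⟩⟩,⟨true,0,⟨0,[(32,0)]⟩,⟨0,[]⟩⟩,
  ⟨false,1,⟨1,[(11,0),(0,0),(17,0)]⟩,⟨0,[]⟩⟩,[.e ⟨false,0,⟨3,[(1,2),(3,0),(12,0),(6,1)]⟩,⟨0,[(0,
  0)]⟩⟩ ⟨false,0,⟨0,[(1,0)]⟩,⟨0,[(0,0),(31,0)]⟩⟩,.o ⟨false,1,⟨1,[(5,1),(16,0),(7,0)]⟩,⟨0,[(6,0)]⟩⟩,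
  .o ⟨false,1,⟨7,[(0,0),(1,1),(0,0),(13,1),(1,3),(2,3),(3,0)]⟩,⟨0,[(7,0)]⟩⟩,.a ⟨true,0,⟨0,[(19,0)]⟩,
  ⟨0,[(15,0)]⟩⟩ ⟨false,0,⟨0,[(1,0)]⟩,⟨1,[(0,1),(17,0),(0,0)]⟩⟩ ⟨true,0,⟨0,[(1,0)]⟩,⟨0,[(6,0),(12,
  0)]⟩⟩]⟩) (.I [0,-1,0,0,1,0,0,1] (.S ⟨1,0,[0,0,0,-1,0,0,0,-1],[1,0,-1],[1,1,0,0,0,0,0,-1],(⟨0,[(21,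
  0)]⟩,⟨0,[(22,0)]⟩),⟨0,[(10,0)]⟩,.k,.k,⟨false,0,⟨0,[]⟩,⟨1,[(12,0),(0,0),(17,0)]⟩⟩,⟨true,0,⟨0,[(29,
  0)]⟩,⟨0,[(28,0)]⟩⟩,⟨true,0,⟨0,[(28,0)]⟩,⟨0,[(29,0)]⟩⟩,⟨false,1,⟨1,[(12,0),(0,0),(17,0)]⟩,⟨0,[]⟩⟩,
  [.e ⟨false,0,⟨8,[(1,0),(0,3),(2,0),(3,1),(8,2),(4,0),(3,4)]⟩,⟨0,[(0,0)]⟩⟩ ⟨false,0,⟨0,[(2,0)]⟩,⟨0,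
  [(0,0),(27,0)]⟩⟩,.o ⟨false,1,⟨1,[(6,1),(16,0),(7,0)]⟩,⟨0,[(7,0)]⟩⟩,.o ⟨false,1,⟨1,[(3,0),(16,0),
  (2,0),(4,0)]⟩,⟨0,[(8,0)]⟩⟩,.a ⟨true,0,⟨0,[(20,0)]⟩,⟨0,[(16,0)]⟩⟩ ⟨false,0,⟨0,[(1,0),(25,0),(3,
  0)]⟩,⟨1,[(0,1),(18,0),(0,0)]⟩⟩ ⟨true,0,⟨0,[(2,0)]⟩,⟨0,[(7,0),(12,0)]⟩⟩]⟩) (.Q [0,0,-1,0,1,0,-1,0,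
  0,-1,1] (.p true [0,0,1] [1] (⟨0,[(22,0)]⟩,⟨0,[(21,0)]⟩) .k 1 (⟨0,[]⟩,⟨0,[]⟩) .k .k) (.Q [0,1,0,1,
  -1,0,-1,-1,0,1,1] (.p true [1,-1,1] [] (⟨0,[(23,0),(1,0)]⟩,⟨0,[(12,0)]⟩) .k 0 (⟨0,[]⟩,⟨0,[]⟩) .k
  .k) (.R ⟨0,false,false,true,[0,0,1],[0,1],[0,1,1],(⟨0,[(24,0)]⟩,⟨0,[(23,0)]⟩),(⟨0,[(27,0)]⟩,⟨0,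
  [(26,0)]⟩),⟨0,[(13,0)]⟩,.k,.k,.k,.k,.k,.k,⟨true,0,⟨0,[(31,0)]⟩,⟨0,[(2,0),(6,0),(12,0),(10,0)]⟩⟩,
  ⟨false,1,⟨0,[(5,0),(23,0)]⟩,⟨0,[(21,0)]⟩⟩,⟨true,(-1),⟨1,[(2,1),(18,0),(0,0)]⟩,⟨0,[(6,0)]⟩⟩,⟨false,
  0,⟨1,[(0,1),(24,0),(7,0)]⟩,⟨0,[(19,0),(11,0),(1,0)]⟩⟩,⟨false,0,⟨0,[]⟩,⟨0,[]⟩⟩,⟨false,0,⟨0,[]⟩,⟨0,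
  []⟩⟩,[.o ⟨false,0,⟨0,[(30,0)]⟩,⟨1,[(25,0),(5,1),(1,0)]⟩⟩,.a ⟨true,0,⟨1,[(0,0),(8,0),(13,0),(0,0),
  (8,0)]⟩,⟨0,[(31,0)]⟩⟩ ⟨true,0,⟨1,[(21,0),(0,0)]⟩,⟨0,[]⟩⟩ ⟨false,1,⟨1,[(0,0),(0,0),(4,0),(23,0),(2,
  0)]⟩,⟨0,[(10,0),(20,0)]⟩⟩,.o ⟨false,0,⟨0,[(10,0)]⟩,⟨7,[(1,1),(4,1),(13,1),(1,3),(2,2),(7,0)]⟩⟩,.o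
  ⟨false,0,⟨0,[(21,0)]⟩,⟨0,[(1,0)]⟩⟩]⟩) (.Q [0,0,0,-1,0,0,-1,-1,0,-1,1] (.p true [0,0,1] [1] (⟨0,
  [(24,0)]⟩,⟨0,[(23,0)]⟩) .k 1 (⟨0,[]⟩,⟨0,[]⟩) .k .k) (.S ⟨1,0,[0,0,0,-1,0,0,0,-1],[1,0,-1],[1,1,0,
  0,0,0,0,-1],(⟨0,[(24,0)]⟩,⟨0,[(25,0)]⟩),⟨0,[(13,0)]⟩,.k,.k,⟨false,0,⟨0,[]⟩,⟨1,[(15,0),(0,0),(17,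
  0)]⟩⟩,⟨true,0,⟨0,[(32,0)]⟩,⟨0,[(31,0)]⟩⟩,⟨true,0,⟨0,[(31,0)]⟩,⟨0,[(32,0)]⟩⟩,⟨false,1,⟨1,[(15,0),
  (0,0),(17,0)]⟩,⟨0,[]⟩⟩,[.o ⟨false,0,⟨0,[(0,0)]⟩,⟨1,[(7,0),(2,0),(11,0),(8,0),(2,0)]⟩⟩,.o ⟨false,1,
  ⟨1,[(9,1),(16,0),(7,0)]⟩,⟨0,[(10,0)]⟩⟩,.o ⟨false,1,⟨7,[(2,1),(4,1),(13,1),(1,3),(2,2),(7,0)]⟩,⟨0,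
  [(11,0)]⟩⟩,.a ⟨true,0,⟨0,[(23,0)]⟩,⟨0,[(19,0)]⟩⟩ ⟨false,0,⟨1,[(3,0),(1,0),(24,0),(3,0)]⟩,⟨0,[(20,
  0),(2,0),(10,0)]⟩⟩ ⟨true,0,⟨0,[(5,0)]⟩,⟨0,[(10,0),(12,0)]⟩⟩]⟩) (.R ⟨0,false,false,true,[0,0,1],[0,
  1],[0,1,1],(⟨0,[(25,0)]⟩,⟨0,[(24,0)]⟩),(⟨0,[(28,0)]⟩,⟨0,[(27,0)]⟩),⟨0,[(14,0)]⟩,.k,.k,.k,.k,.k,.k,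
  ⟨true,0,⟨0,[(32,0)]⟩,⟨1,[(0,1),(2,1),(19,1),(2,0),(7,0)]⟩⟩,⟨false,1,⟨0,[(6,0),(23,0)]⟩,⟨0,[(22,
  0)]⟩⟩,⟨true,(-1),⟨1,[(3,1),(18,0),(0,0)]⟩,⟨0,[(7,0)]⟩⟩,⟨false,0,⟨0,[(3,0),(19,0),(6,0),(3,0)]⟩,⟨2,
  [(0,0),(0,1),(4,0),(5,0),(10,0),(8,0)]⟩⟩,⟨false,0,⟨0,[]⟩,⟨0,[]⟩⟩,⟨false,0,⟨0,[]⟩,⟨0,[]⟩⟩,[.o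
  ⟨false,0,⟨0,[(31,0)]⟩,⟨3,[(1,1),(7,1),(16,0),(7,0)]⟩⟩,.a ⟨true,0,⟨0,[(0,0),(7,0)]⟩,⟨0,[(32,0)]⟩⟩
  ⟨true,0,⟨1,[(22,0),(0,0)]⟩,⟨0,[]⟩⟩ ⟨false,1,⟨1,[(6,0),(16,0),(6,1),(0,0),(2,0)]⟩,⟨2,[(1,0),(2,0),
  (7,0),(19,0)]⟩⟩,.o ⟨false,0,⟨0,[(11,0)]⟩,⟨7,[(2,1),(4,1),(13,1),(1,3),(2,2),(7,0)]⟩⟩,.o ⟨false,0,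
  ⟨0,[(22,0)]⟩,⟨0,[(2,0)]⟩⟩]⟩))) (.R ⟨0,false,false,true,[0,1,-1],[0,1],[1,1,1,0,0,0,0,-1],(⟨0,[(12,
  0)]⟩,⟨0,[(23,0),(1,0)]⟩),(⟨0,[(26,0)]⟩,⟨0,[(25,0)]⟩),⟨0,[(23,0)]⟩,.k,.k,.k,.k,.k,.k,⟨false,0,⟨0,
  [(3,0)]⟩,⟨1,[(5,0),(2,0),(12,0),(7,0),(2,0)]⟩⟩,⟨true,0,⟨0,[(9,0)]⟩,⟨0,[(21,0)]⟩⟩,⟨false,0,⟨0,[(30,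
  0)]⟩,⟨0,[(29,0),(2,0)]⟩⟩,⟨true,0,⟨0,[(18,0)]⟩,⟨0,[(6,0)]⟩⟩,⟨false,0,⟨0,[]⟩,⟨0,[]⟩⟩,⟨false,0,⟨0,
  []⟩,⟨0,[]⟩⟩,[.o ⟨false,0,⟨0,[(29,0)]⟩,⟨1,[(24,0),(5,1),(1,0)]⟩⟩,.e ⟨false,0,⟨5,[(1,1),(4,3),(3,1),
  (13,0),(7,0)]⟩,⟨0,[(5,0)]⟩⟩ ⟨false,0,⟨1,[(0,1),(23,0),(3,1),(3,0)]⟩,⟨0,[(4,0),(29,0)]⟩⟩,.o ⟨false,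
  1,⟨0,[(4,0),(24,0)]⟩,⟨0,[(0,0),(23,0)]⟩⟩,.a ⟨true,0,⟨0,[(0,0),(3,0),(16,0),(6,0)]⟩,⟨0,[(9,0)]⟩⟩
  ⟨true,(-1),⟨0,[(1,0)]⟩,⟨1,[(5,1),(14,0),(0,0)]⟩⟩ ⟨false,0,⟨1,[(0,1),(23,0),(3,1),(3,0)]⟩,⟨1,[(4,
  1),(15,0),(0,0)]⟩⟩]⟩)))) (.Q [0,0,-1,0,1,0,-1,0,0,-1,1] (.p true [0,0,1] [1] (⟨0,[(20,0)]⟩,⟨0,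
  [(19,0)]⟩) .k 1 (⟨0,[]⟩,⟨0,[]⟩) .k .k) (.R ⟨0,false,false,false,[0,0,1],[1,-1],[1],(⟨0,[(21,0)]⟩,
  ⟨0,[(20,0)]⟩),(⟨0,[(23,0)]⟩,⟨0,[(24,0)]⟩),⟨0,[(10,0)]⟩,.k,.k,.k,.k,.k,.k,⟨true,0,⟨0,[(1,0),(2,0),
  (2,0)]⟩,⟨0,[(28,0)]⟩⟩,⟨false,1,⟨7,[(0,1),(2,1),(13,1),(1,3),(2,2),(7,0)]⟩,⟨0,[(15,0)]⟩⟩,⟨true,0,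
  ⟨0,[(4,0),(2,0)]⟩,⟨0,[(1,0),(24,0),(1,1)]⟩⟩,⟨false,1,⟨1,[(5,1),(16,0),(7,0)]⟩,⟨0,[(1,0),(13,0)]⟩⟩,
  ⟨false,0,⟨0,[]⟩,⟨0,[]⟩⟩,⟨false,0,⟨0,[]⟩,⟨0,[]⟩⟩,[.a ⟨true,0,⟨0,[(28,0)]⟩,⟨0,[(1,0),(2,0),(10,
  0)]⟩⟩ ⟨true,0,⟨0,[]⟩,⟨1,[(18,0),(0,0)]⟩⟩ ⟨false,1,⟨0,[(0,0),(27,0)]⟩,⟨0,[(1,0),(2,0),(2,0),(7,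
  0)]⟩⟩,.o ⟨false,1,⟨1,[(22,0),(5,1),(1,0)]⟩,⟨0,[(27,0)]⟩⟩,.o ⟨false,0,⟨0,[(7,0)]⟩,⟨7,[(0,1),(2,1),
  (13,1),(1,3),(2,2),(7,0)]⟩⟩,.o ⟨false,0,⟨0,[(18,0)]⟩,⟨0,[(0,0)]⟩⟩]⟩) (.R ⟨0,false,false,true,[0,1,
  -1],[0,1],[1,0,1],(⟨0,[(10,0)]⟩,⟨0,[(21,0),(1,0)]⟩),(⟨0,[(24,0)]⟩,⟨0,[(23,0)]⟩),⟨0,[(21,0)]⟩,.k,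
  .k,.k,.k,.k,.k,⟨false,1,⟨0,[(2,0),(4,0)]⟩,⟨0,[(27,0)]⟩⟩,⟨true,0,⟨0,[(7,0)]⟩,⟨0,[(19,0)]⟩⟩,⟨false,
  1,⟨1,[(1,0),(0,0),(13,0),(11,1),(1,0)]⟩,⟨1,[(0,1),(3,1),(17,0),(3,1),(3,0)]⟩⟩,⟨true,0,⟨0,[(16,
  0)]⟩,⟨0,[(4,0)]⟩⟩,⟨false,0,⟨0,[]⟩,⟨0,[]⟩⟩,⟨false,0,⟨0,[]⟩,⟨0,[]⟩⟩,[.o ⟨false,0,⟨0,[(27,0)]⟩,⟨1,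
  [(22,0),(5,1),(1,0)]⟩⟩,.e ⟨false,1,⟨1,[(11,0),(0,0),(17,0)]⟩,⟨0,[(26,0),(1,0)]⟩⟩ ⟨false,0,⟨1,[(0,
  1),(21,0),(3,1),(3,0)]⟩,⟨0,[(2,0),(29,0)]⟩⟩,.o ⟨false,1,⟨0,[(2,0),(24,0)]⟩,⟨0,[(0,0),(21,0)]⟩⟩,.a
  ⟨true,0,⟨0,[(0,0),(1,0),(16,0),(6,0)]⟩,⟨0,[(7,0)]⟩⟩ ⟨true,0,⟨0,[]⟩,⟨0,[(32,0)]⟩⟩ ⟨false,0,⟨1,[(0,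
  1),(21,0),(3,1),(3,0)]⟩,⟨1,[(2,1),(15,0),(0,0)]⟩⟩]⟩))) (.Q [0,0,0,0,0,0,-1,0,0,1,1] (.p true [1,
  -1,1] [] (⟨0,[(19,0),(1,0)]⟩,⟨0,[(8,0)]⟩) .k 0 (⟨0,[]⟩,⟨0,[]⟩) .k .k) (.R ⟨0,false,false,true,[0,
  1,-1],[0,1],[0,1],(⟨0,[(9,0)]⟩,⟨0,[(20,0),(1,0)]⟩),(⟨0,[(23,0)]⟩,⟨0,[(22,0)]⟩),⟨0,[(20,0)]⟩,.k,.k,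
  .k,.k,.k,.k,⟨false,1,⟨0,[(27,0),(0,0)]⟩,⟨1,[(1,0),(16,0),(7,0),(2,0)]⟩⟩,⟨true,0,⟨0,[(6,0)]⟩,⟨0,
  [(18,0)]⟩⟩,⟨false,1,⟨0,[(2,0),(24,0)]⟩,⟨0,[(1,0),(1,0),(25,0)]⟩⟩,⟨true,0,⟨0,[(15,0)]⟩,⟨0,[(3,
  0)]⟩⟩,⟨false,0,⟨0,[]⟩,⟨0,[]⟩⟩,⟨false,0,⟨0,[]⟩,⟨0,[]⟩⟩,[.o ⟨false,0,⟨0,[(26,0)]⟩,⟨1,[(21,0),(5,1),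
  (1,0)]⟩⟩,.e ⟨false,1,⟨1,[(10,0),(0,0),(16,0)]⟩,⟨0,[]⟩⟩ ⟨false,0,⟨5,[(1,3),(12,1),(6,0),(3,1),(3,
  2)]⟩,⟨0,[(2,0),(1,0)]⟩⟩,.o ⟨false,1,⟨1,[(0,1),(20,0),(6,0)]⟩,⟨1,[(1,1),(19,0),(5,1),(1,0)]⟩⟩,.a
  ⟨true,0,⟨0,[(0,0)]⟩,⟨0,[(6,0)]⟩⟩ ⟨true,0,⟨0,[(25,0),(1,0)]⟩,⟨1,[(17,0),(0,0)]⟩⟩ ⟨false,0,⟨5,[(1,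
  3),(12,1),(6,0),(3,1),(3,2)]⟩,⟨1,[(2,0),(1,0),(13,0),(8,0),(1,0)]⟩⟩]⟩) (.Q [0,0,0,1,0,0,0,0,0,1]
  (.pp false [-1,1]) (.R ⟨0,false,false,true,[0,1,-1],[0,1],[1,1],(⟨0,[(10,0)]⟩,⟨0,[(21,0),(1,0)]⟩),
  (⟨0,[(24,0)]⟩,⟨0,[(23,0)]⟩),⟨0,[(21,0)]⟩,.k,.k,.k,.k,.k,.k,⟨false,1,⟨0,[(28,0),(0,0)]⟩,⟨1,[(2,0),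
  (16,0),(7,0),(2,0)]⟩⟩,⟨true,0,⟨0,[(7,0)]⟩,⟨0,[(19,0)]⟩⟩,⟨false,1,⟨0,[(3,0),(24,0)]⟩,⟨0,[(2,0),(1,
  0),(25,0)]⟩⟩,⟨true,0,⟨0,[(16,0)]⟩,⟨0,[(4,0)]⟩⟩,⟨false,0,⟨0,[]⟩,⟨0,[]⟩⟩,⟨false,0,⟨0,[]⟩,⟨0,[]⟩⟩,
  [.o ⟨false,0,⟨0,[(27,0)]⟩,⟨1,[(22,0),(5,1),(1,0)]⟩⟩,.a ⟨true,0,⟨0,[(0,0)]⟩,⟨0,[(28,0)]⟩⟩ ⟨true,0,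
  ⟨0,[]⟩,⟨1,[(18,0),(0,0)]⟩⟩ ⟨false,0,⟨5,[(1,0),(0,2),(5,0),(17,2),(3,2)]⟩,⟨0,[(3,0),(1,0)]⟩⟩,.o
  ⟨false,1,⟨0,[(3,0),(0,0)]⟩,⟨1,[(1,1),(16,0),(0,0)]⟩⟩,.o ⟨false,1,⟨3,[(3,1),(7,0),(0,0),(4,1),(1,
  1),(10,0)]⟩,⟨0,[(1,0)]⟩⟩]⟩) (.S ⟨1,0,[0,0,0,-1,0,0,0,-1],[1,0,-1],[0,1,0,-1,0,0,0,-1],(⟨0,[(20,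
  0)]⟩,⟨0,[(21,0)]⟩),⟨0,[(9,0)]⟩,.k,.k,⟨false,0,⟨0,[(28,0)]⟩,⟨0,[(27,0),(2,0)]⟩⟩,⟨true,0,⟨0,[(28,
  0)]⟩,⟨0,[(27,0)]⟩⟩,⟨true,0,⟨0,[(32,0)]⟩,⟨0,[]⟩⟩,⟨false,1,⟨1,[(11,0),(0,0),(17,0)]⟩,⟨0,[]⟩⟩,[.o
  ⟨false,0,⟨0,[(0,0),(3,0)]⟩,⟨1,[(3,0),(2,0),(11,0),(8,0),(2,0)]⟩⟩,.o ⟨false,1,⟨1,[(5,1),(16,0),(7,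
  0)]⟩,⟨0,[(6,0)]⟩⟩,.o ⟨false,1,⟨1,[(3,0),(0,0),(14,0),(2,0)]⟩,⟨0,[(7,0)]⟩⟩,.a ⟨true,0,⟨0,[(19,0)]⟩,
  ⟨0,[(15,0)]⟩⟩ ⟨false,0,⟨0,[(0,0),(3,0),(10,0)]⟩,⟨0,[(6,0),(12,0),(10,0)]⟩⟩ ⟨true,0,⟨0,[(0,0),(3,
  0),(10,0)]⟩,⟨0,[(6,0),(12,0)]⟩⟩]⟩))))) (.R ⟨2,true,false,false,[0,1],[0,1,1],[0,1,1],(⟨0,[]⟩,⟨0,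
  []⟩),(⟨0,[(17,0),(2,0)]⟩,⟨0,[(5,0)]⟩),⟨0,[]⟩,.k,.k,.k,.k,.k,.k,⟨false,0,⟨0,[(1,0),(1,0),(18,0),(1,
  0)]⟩,⟨0,[(0,0),(14,0),(6,0),(3,0)]⟩⟩,⟨true,0,⟨0,[(3,0)]⟩,⟨0,[(15,0)]⟩⟩,⟨false,0,⟨0,[(24,0)]⟩,⟨0,
  [(23,0),(2,0)]⟩⟩,⟨true,0,⟨0,[(0,0)]⟩,⟨0,[(13,0)]⟩⟩,⟨true,0,⟨0,[(28,0)]⟩,⟨0,[]⟩⟩,⟨false,1,⟨0,[(2,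
  0),(23,0)]⟩,⟨0,[(1,0)]⟩⟩,[]⟩)) (.Q [0,1,0,1,-1,0,1,1,0,1,-1] (.p false [0,0,1] [1] (⟨0,[(16,0)]⟩,
  ⟨0,[(15,0)]⟩) .k 1 (⟨0,[]⟩,⟨0,[]⟩) .k .k) (.I [1,1,-1,0,0,0,0,-1] (.I [0,0,0,0,0,0,0,1] (.S ⟨1,0,
  [0,0,0,-1,0,0,0,-1],[1,0,-1],[1,1,0,0,0,0,0,-1],(⟨0,[(18,0)]⟩,⟨0,[(19,0)]⟩),⟨0,[(7,0)]⟩,.k,.k,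
  ⟨false,0,⟨0,[]⟩,⟨1,[(9,0),(0,0),(17,0)]⟩⟩,⟨true,0,⟨0,[(26,0)]⟩,⟨0,[(25,0)]⟩⟩,⟨true,0,⟨0,[(25,0)]⟩,
  ⟨0,[(26,0)]⟩⟩,⟨false,1,⟨1,[(9,0),(0,0),(17,0)]⟩,⟨0,[]⟩⟩,[.o ⟨false,1,⟨1,[(15,1),(4,0),(5,1),(1,
  0)]⟩,⟨0,[(3,0)]⟩⟩,.e ⟨false,1,⟨5,[(1,1),(4,1),(8,3),(4,0),(6,1),(0,2)]⟩,⟨0,[(0,0)]⟩⟩ ⟨false,1,⟨0,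
  [(1,0),(24,0),(1,0)]⟩,⟨0,[(0,0),(24,0)]⟩⟩,.o ⟨false,1,⟨1,[(17,1),(2,0),(6,0)]⟩,⟨0,[(5,0)]⟩⟩,.a
  ⟨true,0,⟨0,[(17,0)]⟩,⟨0,[(13,0)]⟩⟩ ⟨true,0,⟨0,[(1,0)]⟩,⟨1,[(0,1),(15,0),(0,0)]⟩⟩ ⟨false,1,⟨0,[(1,
  0),(24,0),(1,0)]⟩,⟨0,[(3,0),(13,0)]⟩⟩]⟩) (.Q [0,0,1,0,-1,0,1,0,0,1,-1] (.p false [0,0,1] [1] (⟨0,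
  [(19,0)]⟩,⟨0,[(18,0)]⟩) .k 1 (⟨0,[]⟩,⟨0,[]⟩) .k .k) (.Q [0,0,-1,-1,1,0,-1,0,0,-1,1] (.p true [0,0,
  1] [1] (⟨0,[(20,0)]⟩,⟨0,[(19,0)]⟩) .k 1 (⟨0,[]⟩,⟨0,[]⟩) .k .k) (.R ⟨0,false,false,false,[0,0,1],
  [1,-1],[0,0,0,0,0,0,0,1],(⟨0,[(21,0)]⟩,⟨0,[(20,0)]⟩),(⟨0,[(23,0)]⟩,⟨0,[(24,0)]⟩),⟨0,[(10,0)]⟩,.k,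
  .k,.k,.k,.k,.k,⟨true,0,⟨0,[(5,0),(13,0)]⟩,⟨0,[(2,0),(25,0)]⟩⟩,⟨false,1,⟨3,[(0,1),(18,1),(2,0),(4,
  1),(2,0)]⟩,⟨0,[(15,0)]⟩⟩,⟨false,1,⟨1,[(11,0),(0,0),(17,0)]⟩,⟨0,[]⟩⟩,⟨true,1,⟨1,[(17,1),(4,0),(5,
  1),(1,0)]⟩,⟨0,[(4,0)]⟩⟩,⟨false,0,⟨0,[]⟩,⟨0,[]⟩⟩,⟨false,0,⟨0,[]⟩,⟨0,[]⟩⟩,[.e ⟨false,1,⟨1,[(0,0),(3,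
  0),(11,0),(2,0),(9,0),(0,0)]⟩,⟨0,[(2,0)]⟩⟩ ⟨false,1,⟨0,[(0,0)]⟩,⟨1,[(1,0),(13,0),(11,1),(2,0)]⟩⟩,
  .o ⟨false,1,⟨1,[(22,0),(5,1),(1,0)]⟩,⟨0,[(27,0)]⟩⟩,.o ⟨false,0,⟨0,[(7,0)]⟩,⟨3,[(0,1),(18,1),(2,0),
  (4,1),(2,0)]⟩⟩,.a ⟨true,(-1),⟨0,[(1,0)]⟩,⟨0,[(19,0),(9,0)]⟩⟩ ⟨false,1,⟨0,[(0,0),(3,0),(25,0)]⟩,⟨1,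
  [(2,1),(15,0),(0,0)]⟩⟩ ⟨true,1,⟨0,[(0,0)]⟩,⟨0,[(1,0),(25,0)]⟩⟩]⟩) (.I [1,1,1,0,-1,0,0,-1] (.Q [0,
  0,2,0,-1,0,1,0,0,0,-1] (.p false [0,0,1] [] (⟨0,[(22,0)]⟩,⟨0,[(21,0)]⟩) .k 0 (⟨0,[]⟩,⟨0,[]⟩) .k
  .k) (.R ⟨0,false,false,true,[0,0,1],[0,1],[1,0,1],(⟨0,[(23,0)]⟩,⟨0,[(22,0)]⟩),(⟨0,[(26,0)]⟩,⟨0,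
  [(25,0)]⟩),⟨0,[(12,0)]⟩,.k,.k,.k,.k,.k,.k,⟨false,1,⟨1,[(30,1),(0,0),(0,0)]⟩,⟨0,[(29,0)]⟩⟩,⟨true,1,
  ⟨0,[(21,0),(9,0)]⟩,⟨0,[(0,0)]⟩⟩,⟨false,0,⟨0,[(1,0),(30,0)]⟩,⟨0,[(7,0),(13,0),(8,0),(0,0)]⟩⟩,⟨true,
  0,⟨0,[(4,0),(16,0),(6,0)]⟩,⟨0,[(7,0),(22,1)]⟩⟩,⟨false,0,⟨0,[]⟩,⟨0,[]⟩⟩,⟨false,0,⟨0,[]⟩,⟨0,[]⟩⟩,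
  [.o ⟨false,0,⟨0,[(29,0)]⟩,⟨1,[(24,0),(5,1),(1,0)]⟩⟩,.e ⟨false,1,⟨1,[(13,0),(0,0),(17,0)]⟩,⟨0,[(28,
  0),(1,0)]⟩⟩ ⟨false,1,⟨1,[(21,1),(6,1),(2,0),(0,0)]⟩,⟨0,[(9,0),(20,0)]⟩⟩,.o ⟨false,0,⟨0,[(9,0)]⟩,
  ⟨1,[(21,1),(2,0),(6,0)]⟩⟩,.a ⟨true,(-1),⟨0,[(3,0)]⟩,⟨0,[(21,0),(9,0)]⟩⟩ ⟨true,0,⟨0,[]⟩,⟨0,[(34,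
  0)]⟩⟩ ⟨false,1,⟨1,[(21,1),(6,1),(2,0),(0,0)]⟩,⟨1,[(0,0),(8,0),(20,1),(1,0)]⟩⟩]⟩) (.R ⟨0,false,
  false,false,[0,0,1],[0,1,-1],[],(⟨0,[(23,0)]⟩,⟨0,[(22,0)]⟩),(⟨0,[(12,0)]⟩,⟨0,[(23,0),(1,0)]⟩),⟨0,
  [(12,0)]⟩,.k,.k,.k,(.r (-1) ⟨0,[(0,0),(6,1),(13,0),(8,2)]⟩ ⟨1,[(2,1),(1,1),(14,1),(4,0),(7,0)]⟩),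
  .k,.k,⟨false,1,⟨0,[(0,0),(6,0),(22,1)]⟩,⟨1,[(2,1),(16,1),(4,0),(7,0)]⟩⟩,⟨true,1,⟨0,[(0,0),(20,
  0)]⟩,⟨0,[(3,1),(20,0)]⟩⟩,⟨true,0,⟨0,[(1,0),(26,0),(1,0),(1,0)]⟩,⟨2,[(0,0),(5,1),(11,0),(2,1),(2,
  0),(5,1)]⟩⟩,⟨false,1,⟨0,[(0,0),(0,1),(19,0),(6,0),(3,1)]⟩,⟨0,[(7,1),(22,2)]⟩⟩,⟨false,0,⟨0,[]⟩,⟨0,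
  []⟩⟩,⟨false,0,⟨0,[]⟩,⟨0,[]⟩⟩,[.e ⟨false,1,⟨1,[(13,0),(0,0),(16,0)]⟩,⟨0,[]⟩⟩ ⟨false,1,⟨0,[(0,0),(0,
  0),(19,0),(6,0),(3,0)]⟩,⟨0,[(7,0),(1,0),(20,1)]⟩⟩,.o ⟨false,1,⟨0,[(4,0),(16,0),(6,0),(3,0)]⟩,⟨0,
  [(6,0),(17,0),(5,1)]⟩⟩,.o ⟨false,0,⟨0,[(9,0)]⟩,⟨5,[(0,1),(12,0),(0,0),(6,3),(2,2)]⟩⟩,.a ⟨true,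
  (-1),⟨0,[(3,0)]⟩,⟨2,[(0,1),(12,0),(0,0),(6,0)]⟩⟩ ⟨false,1,⟨1,[(31,0),(0,0)]⟩,⟨1,[(20,0),(0,0)]⟩⟩
  ⟨true,1,⟨0,[(0,0),(0,0),(19,0),(6,0),(3,0)]⟩,⟨0,[(3,0),(2,0),(17,0),(5,1)]⟩⟩]⟩)) (.R ⟨0,false,
  false,false,[0,0,1],[1,-1],[0,0,0,0,0,0,0,1],(⟨0,[(22,0)]⟩,⟨0,[(21,0)]⟩),(⟨0,[(24,0)]⟩,⟨0,[(25,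
  0)]⟩),⟨0,[(11,0)]⟩,.k,.k,.k,.k,.k,.k,⟨true,0,⟨0,[(6,0),(13,0)]⟩,⟨0,[(3,0),(25,0)]⟩⟩,⟨false,1,⟨1,
  [(0,0),(17,0),(1,0),(2,0)]⟩,⟨0,[(16,0)]⟩⟩,⟨false,1,⟨1,[(12,0),(0,0),(17,0)]⟩,⟨0,[]⟩⟩,⟨true,1,⟨1,
  [(18,1),(4,0),(5,1),(1,0)]⟩,⟨0,[(5,0)]⟩⟩,⟨false,0,⟨0,[]⟩,⟨0,[]⟩⟩,⟨false,0,⟨0,[]⟩,⟨0,[]⟩⟩,[.a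
  ⟨true,0,⟨0,[(29,0)]⟩,⟨0,[(5,0),(12,0),(12,0)]⟩⟩ ⟨false,1,⟨5,[(0,4),(11,0),(0,0),(3,0),(2,0),(5,
  1)]⟩,⟨0,[(3,0)]⟩⟩ ⟨true,1,⟨1,[(0,0),(17,0),(1,0),(2,0),(5,1)]⟩,⟨0,[(1,0)]⟩⟩,.o ⟨false,1,⟨1,[(23,
  0),(5,1),(1,0)]⟩,⟨0,[(28,0)]⟩⟩,.o ⟨false,0,⟨0,[(8,0)]⟩,⟨1,[(0,0),(17,0),(1,0),(2,0)]⟩⟩,.e ⟨false,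
  1,⟨0,[(0,0)]⟩,⟨1,[(3,1),(15,0),(0,0)]⟩⟩ ⟨false,2,⟨1,[(0,1),(17,1),(4,0),(5,1),(1,0)]⟩,⟨0,[(1,
  0)]⟩⟩]⟩))) (.Q [0,-1,-1,0,1,0,-2,-1,0,0,2] (.p true [0,0,1] [0,1,-1] (⟨0,[(20,0)]⟩,⟨0,[(19,0)]⟩)
  .k 2 (⟨0,[(9,0)]⟩,⟨0,[(20,0),(1,0)]⟩) .k (.x 0 ⟨0,[(6,1),(13,1)]⟩ ⟨0,[(0,0),(7,0),(0,0),(8,0)]⟩))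
  (.R ⟨0,false,false,true,[0,0,1],[0,1],[0,1,1],(⟨0,[(21,0)]⟩,⟨0,[(20,0)]⟩),(⟨0,[(24,0)]⟩,⟨0,[(23,
  0)]⟩),⟨0,[(10,0)]⟩,.k,.k,.k,.k,.k,.k,⟨true,0,⟨0,[(28,0)]⟩,⟨0,[(2,0),(2,0),(13,0)]⟩⟩,⟨false,1,⟨1,
  [(0,0),(0,0),(2,0),(23,0),(0,0)]⟩,⟨0,[(18,0)]⟩⟩,⟨false,0,⟨1,[(2,1),(15,0),(0,0)]⟩,⟨0,[(1,0),(2,0),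
  (23,0),(1,0)]⟩⟩,⟨true,0,⟨0,[(2,0),(16,0),(6,0)]⟩,⟨0,[(5,0),(22,1)]⟩⟩,⟨false,0,⟨0,[]⟩,⟨0,[]⟩⟩,
  ⟨false,0,⟨0,[]⟩,⟨0,[]⟩⟩,[.o ⟨false,0,⟨0,[(27,0)]⟩,⟨1,[(22,0),(5,1),(1,0)]⟩⟩,.a ⟨true,0,⟨6,[(0,2),
  (1,1),(1,4),(3,1),(10,2),(7,1),(2,1)]⟩,⟨0,[(28,0)]⟩⟩ ⟨true,0,⟨1,[(18,0),(0,0)]⟩,⟨0,[]⟩⟩ ⟨false,1,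
  ⟨0,[(0,0),(5,0)]⟩,⟨0,[(7,0),(20,0)]⟩⟩,.o ⟨false,0,⟨0,[(7,0)]⟩,⟨3,[(1,1),(9,0),(0,0),(6,1),(2,
  0)]⟩⟩,.o ⟨false,0,⟨0,[(18,0)]⟩,⟨0,[(1,0)]⟩⟩]⟩) (.Q [0,0,1,0,-1,0,2,0,0,1,-2] (.p false [0,0,1] [1,
  0,-1] (⟨0,[(21,0)]⟩,⟨0,[(20,0)]⟩) .k 2 (⟨0,[(20,0)]⟩,⟨0,[(21,0)]⟩) .k (.x 0 ⟨0,[(7,1),(13,1)]⟩ ⟨0,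
  [(1,0),(7,0),(0,0),(8,0)]⟩)) (.R ⟨0,false,false,true,[0,0,1],[1,0,-1],[1],(⟨0,[(22,0)]⟩,⟨0,[(21,
  0)]⟩),(⟨0,[(21,0)]⟩,⟨0,[(22,0)]⟩),⟨0,[(11,0)]⟩,.k,.k,.k,.k,.k,.k,⟨false,1,⟨0,[(2,0),(2,0),(23,0),
  (1,0)]⟩,⟨1,[(4,0),(13,0),(0,0)]⟩⟩,⟨true,1,⟨0,[(2,0),(17,0)]⟩,⟨0,[(0,0)]⟩⟩,⟨true,0,⟨0,[(3,0)]⟩,⟨1,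
  [(2,0),(2,0),(11,0),(2,0),(8,0)]⟩⟩,⟨false,1,⟨0,[(2,0),(0,1),(16,0)]⟩,⟨0,[(5,0),(0,0),(22,1),(1,
  0)]⟩⟩,⟨false,0,⟨0,[]⟩,⟨0,[]⟩⟩,⟨false,0,⟨0,[]⟩,⟨0,[]⟩⟩,[.a ⟨true,0,⟨0,[(18,0)]⟩,⟨0,[(5,0),(23,0),
  (1,0)]⟩⟩ ⟨true,0,⟨0,[]⟩,⟨1,[(19,0),(0,0)]⟩⟩ ⟨false,1,⟨0,[(2,0),(15,0)]⟩,⟨1,[(1,0),(3,0),(10,0),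
  (12,0),(1,1)]⟩⟩,.o ⟨false,1,⟨1,[(18,1),(4,0),(7,0)]⟩,⟨0,[(6,0),(22,0)]⟩⟩,.o ⟨false,0,⟨0,[(8,0)]⟩,
  ⟨3,[(2,1),(9,0),(0,0),(6,1),(2,0)]⟩⟩,.o ⟨false,0,⟨0,[(19,0)]⟩,⟨0,[(2,0)]⟩⟩]⟩) (.R ⟨0,false,false,
  true,[0,0,1],[0,1],[0,1,1],(⟨0,[(22,0)]⟩,⟨0,[(21,0)]⟩),(⟨0,[(25,0)]⟩,⟨0,[(24,0)]⟩),⟨0,[(11,0)]⟩,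
  .k,.k,.k,.k,.k,.k,⟨true,0,⟨0,[(29,0)]⟩,⟨0,[(3,0),(2,0),(13,0)]⟩⟩,⟨false,1,⟨0,[(0,0),(15,0)]⟩,⟨0,
  [(19,0)]⟩⟩,⟨false,0,⟨1,[(3,1),(15,0),(0,0)]⟩,⟨3,[(0,1),(4,1),(0,1),(22,3),(0,0),(0,2)]⟩⟩,⟨true,0,
  ⟨0,[(3,0),(16,0),(6,0)]⟩,⟨0,[(6,0),(22,1)]⟩⟩,⟨false,0,⟨0,[]⟩,⟨0,[]⟩⟩,⟨false,0,⟨0,[]⟩,⟨0,[]⟩⟩,[.o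
  ⟨false,0,⟨0,[(28,0)]⟩,⟨1,[(23,0),(5,1),(1,0)]⟩⟩,.a ⟨true,0,⟨0,[(5,0),(12,0),(12,0)]⟩,⟨0,[(29,
  0)]⟩⟩ ⟨true,0,⟨1,[(19,0),(0,0)]⟩,⟨0,[]⟩⟩ ⟨false,1,⟨2,[(0,1),(4,0),(10,0),(1,0),(9,1),(2,1)]⟩,⟨0,
  [(8,0),(20,0)]⟩⟩,.o ⟨false,0,⟨0,[(8,0)]⟩,⟨2,[(0,0),(11,0),(0,0),(6,0),(2,0)]⟩⟩,.o ⟨false,0,⟨0,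
  [(19,0)]⟩,⟨0,[(2,0)]⟩⟩]⟩))))) (.I [0,-1,-1,-1,1,0,0,-1] (.S ⟨1,0,[0,0,1,0,0,0,0,1],[0,1,1],[1,1,1,
  1,0,0,0,1],(⟨0,[(19,0),(2,0)]⟩,⟨0,[(7,0)]⟩),⟨0,[(19,0)]⟩,.k,.k,⟨false,0,⟨0,[]⟩,⟨1,[(9,0),(0,0),
  (17,0)]⟩⟩,⟨true,0,⟨0,[(26,0)]⟩,⟨0,[(25,0)]⟩⟩,⟨true,0,⟨0,[(25,0)]⟩,⟨0,[(26,0)]⟩⟩,⟨false,1,⟨1,[(9,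
  0),(0,0),(17,0)]⟩,⟨0,[]⟩⟩,[.o ⟨false,0,⟨0,[(3,0),(22,0)]⟩,⟨1,[(15,1),(4,0),(7,0)]⟩⟩,.a ⟨true,0,⟨0,
  [(1,0),(11,0)]⟩,⟨0,[(15,0)]⟩⟩ ⟨false,0,⟨0,[(1,0),(22,0)]⟩,⟨0,[(0,0),(29,0)]⟩⟩ ⟨true,0,⟨0,[(1,0)]⟩,
  ⟨0,[(5,0),(9,0)]⟩⟩,.e ⟨false,0,⟨0,[(1,0),(23,0)]⟩,⟨0,[(0,0)]⟩⟩ ⟨false,0,⟨0,[(1,0)]⟩,⟨0,[(0,0),(24,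
  0)]⟩⟩,.o ⟨false,0,⟨0,[(5,0)]⟩,⟨1,[(17,1),(2,0),(6,0)]⟩⟩]⟩) (.Q [0,0,-1,0,1,0,-1,0,0,-1,1] (.p
  true [0,0,1] [1] (⟨0,[(19,0)]⟩,⟨0,[(18,0)]⟩) .k 1 (⟨0,[]⟩,⟨0,[]⟩) .k .k) (.R ⟨0,false,false,false,
  [0,0,1],[1,-1],[1],(⟨0,[(20,0)]⟩,⟨0,[(19,0)]⟩),(⟨0,[(22,0)]⟩,⟨0,[(23,0)]⟩),⟨0,[(9,0)]⟩,.k,.k,.k,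
  .k,.k,.k,⟨true,0,⟨0,[(1,0),(4,0),(9,0),(12,0)]⟩,⟨0,[(27,0)]⟩⟩,⟨false,1,⟨3,[(0,1),(9,0),(0,0),(6,
  1),(2,0)]⟩,⟨0,[(14,0)]⟩⟩,⟨false,1,⟨0,[(6,0),(9,0),(12,0)]⟩,⟨1,[(1,0),(0,0),(24,0),(0,0)]⟩⟩,⟨true,
  1,⟨1,[(16,1),(4,0),(5,1),(1,0)]⟩,⟨0,[(3,0)]⟩⟩,⟨false,0,⟨0,[]⟩,⟨0,[]⟩⟩,⟨false,0,⟨0,[]⟩,⟨0,[]⟩⟩,[.a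
  ⟨true,0,⟨0,[(27,0)]⟩,⟨0,[(3,0),(12,0),(12,0)]⟩⟩ ⟨true,0,⟨0,[]⟩,⟨1,[(17,0),(0,0)]⟩⟩ ⟨false,1,⟨0,
  [(0,0),(26,0)]⟩,⟨0,[(3,0),(2,0),(9,0),(12,0)]⟩⟩,.o ⟨false,1,⟨1,[(21,0),(5,1),(1,0)]⟩,⟨0,[(26,
  0)]⟩⟩,.o ⟨false,0,⟨0,[(6,0)]⟩,⟨3,[(0,1),(9,0),(0,0),(6,1),(2,0)]⟩⟩,.o ⟨false,0,⟨0,[(17,0)]⟩,⟨0,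
  [(0,0)]⟩⟩]⟩) (.Q [0,-1,-2,1,1,0,0,0,0,1] (.pp false [-1,1]) (.Q [0,0,0,0,0,0,-1,0,0,1,1] (.p true
  [1,-1,1] [] (⟨0,[(21,0),(1,0)]⟩,⟨0,[(10,0)]⟩) .k 0 (⟨0,[]⟩,⟨0,[]⟩) .k .k) (.R ⟨0,false,false,true,
  [0,1,-1],[0,1],[1,0,1],(⟨0,[(11,0)]⟩,⟨0,[(22,0),(1,0)]⟩),(⟨0,[(25,0)]⟩,⟨0,[(24,0)]⟩),⟨0,[(22,0)]⟩,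
  .k,.k,.k,.k,.k,.k,⟨false,1,⟨1,[(29,1),(0,0),(0,0)]⟩,⟨0,[(28,0)]⟩⟩,⟨true,0,⟨0,[(8,0)]⟩,⟨0,[(20,
  0)]⟩⟩,⟨true,0,⟨1,[(3,0),(0,0),(24,2),(0,0)]⟩,⟨1,[(2,1),(15,1),(4,0),(3,1),(3,0)]⟩⟩,⟨false,0,⟨0,
  [(6,0),(22,0)]⟩,⟨0,[(18,0),(12,0)]⟩⟩,⟨false,0,⟨0,[]⟩,⟨0,[]⟩⟩,⟨false,0,⟨0,[]⟩,⟨0,[]⟩⟩,[.o ⟨false,0,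
  ⟨0,[(28,0)]⟩,⟨1,[(23,0),(5,1),(1,0)]⟩⟩,.e ⟨false,1,⟨1,[(12,0),(0,0),(17,0)]⟩,⟨0,[(27,0),(1,0)]⟩⟩
  ⟨false,0,⟨1,[(2,1),(20,0),(3,1),(3,0)]⟩,⟨1,[(0,1),(22,0),(5,1),(0,0)]⟩⟩,.o ⟨false,1,⟨1,[(0,1),(22,
  0),(6,0)]⟩,⟨0,[(2,0),(20,0)]⟩⟩,.a ⟨true,0,⟨0,[(0,0)]⟩,⟨0,[(8,0)]⟩⟩ ⟨true,0,⟨0,[]⟩,⟨0,[(33,0)]⟩⟩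
  ⟨false,0,⟨1,[(2,1),(20,0),(3,1),(3,0)]⟩,⟨1,[(0,1),(22,0),(5,1),(1,0)]⟩⟩]⟩) (.R ⟨0,false,false,
  true,[0,1,-1],[0,1],[0,1,1,1,0,0,0,-1],(⟨0,[(11,0)]⟩,⟨0,[(22,0),(1,0)]⟩),(⟨0,[(25,0)]⟩,⟨0,[(24,
  0)]⟩),⟨0,[(22,0)]⟩,.k,.k,.k,.k,.k,.k,⟨false,1,⟨5,[(0,1),(8,1),(8,5),(11,2),(0,2)]⟩,⟨1,[(3,0),(0,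
  0),(24,0),(0,0)]⟩⟩,⟨true,0,⟨0,[(8,0)]⟩,⟨0,[(20,0)]⟩⟩,⟨true,0,⟨0,[(33,0)]⟩,⟨0,[]⟩⟩,⟨false,0,⟨5,[(0,
  1),(3,2),(0,0),(10,0),(0,1),(11,0),(0,0)]⟩,⟨0,[(18,0),(12,0)]⟩⟩,⟨false,0,⟨0,[]⟩,⟨0,[]⟩⟩,⟨false,0,
  ⟨0,[]⟩,⟨0,[]⟩⟩,[.o ⟨false,0,⟨0,[(28,0)]⟩,⟨1,[(23,0),(5,1),(1,0)]⟩⟩,.a ⟨true,0,⟨1,[(1,0),(0,0),(17,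
  0),(7,0)]⟩,⟨0,[(29,0)]⟩⟩ ⟨true,0,⟨3,[(0,2),(1,2),(0,1),(14,5),(8,0),(0,0),(2,4)]⟩,⟨1,[(3,0),(0,0),
  (24,2),(0,0)]⟩⟩ ⟨false,0,⟨1,[(0,0),(1,0),(24,0),(0,0),(2,0)]⟩,⟨0,[(20,0),(8,0),(0,0)]⟩⟩,.o ⟨false,
  1,⟨0,[(20,0),(9,0)]⟩,⟨0,[(2,0),(20,0)]⟩⟩,.o ⟨false,1,⟨1,[(12,0),(0,0),(6,1),(9,0)]⟩,⟨0,[(0,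
  0)]⟩⟩]⟩)) (.Q [0,0,0,0,0,0,-1,0,0,1,1] (.p true [1,-1,1] [] (⟨0,[(21,0),(1,0)]⟩,⟨0,[(10,0)]⟩) .k
  0 (⟨0,[]⟩,⟨0,[]⟩) .k .k) (.K ⟨0,[1,-1,1],0,0,(⟨0,[(22,0),(1,0)]⟩,⟨0,[(11,0)]⟩),.k,(.r (-1) ⟨1,[(3,
  0),(0,0),(24,4),(0,2)]⟩ ⟨0,[(2,1),(0,0),(14,1),(4,0),(3,0),(3,1)]⟩),.k,.k,.k,[⟨0,[(1,0),(25,0),(3,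
  0)]⟩,⟨0,[(0,0)]⟩,⟨1,[(0,0),(1,0),(15,1),(8,0),(0,0),(2,0)]⟩,⟨0,[(5,0),(17,0),(5,1)]⟩]⟩) (.R ⟨0,
  false,false,false,[0,1,-1],[0,1],[1],(⟨0,[(11,0)]⟩,⟨0,[(22,0),(1,0)]⟩),(⟨0,[(25,0)]⟩,⟨0,[(24,
  0)]⟩),⟨0,[(22,0)]⟩,.k,.k,.k,.k,.k,.k,⟨false,1,⟨0,[(29,0),(0,0)]⟩,⟨3,[(2,1),(0,1),(14,1),(4,0),(4,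
  1),(2,2)]⟩⟩,⟨true,0,⟨0,[(8,0)]⟩,⟨0,[(20,0)]⟩⟩,⟨false,1,⟨0,[(4,0),(24,0),(0,0)]⟩,⟨3,[(0,2),(1,2),
  (0,1),(14,5),(8,0),(0,0),(2,4)]⟩⟩,⟨true,0,⟨5,[(0,1),(3,2),(0,0),(10,0),(0,1),(11,0),(0,0)]⟩,⟨0,
  [(18,0)]⟩⟩,⟨false,0,⟨0,[]⟩,⟨0,[]⟩⟩,⟨false,0,⟨0,[]⟩,⟨0,[]⟩⟩,[.a ⟨true,0,⟨0,[(5,0),(12,0),(12,0)]⟩,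
  ⟨0,[(29,0)]⟩⟩ ⟨true,0,⟨0,[]⟩,⟨1,[(19,0),(0,0)]⟩⟩ ⟨false,0,⟨1,[(0,0),(1,0),(24,0),(0,0),(2,0)]⟩,⟨0,
  [(20,0),(8,0),(0,0)]⟩⟩,.o ⟨false,1,⟨0,[(28,0),(2,0)]⟩,⟨0,[(1,0),(28,0)]⟩⟩,.o ⟨false,1,⟨0,[(20,0),
  (9,0)]⟩,⟨0,[(2,0),(20,0)]⟩⟩,.o ⟨false,1,⟨1,[(12,0),(0,0),(6,1),(9,0)]⟩,⟨0,[(0,0)]⟩⟩]⟩)))))) (.Q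
  [0,0,-1,0,0,0,0,0,0,1] (.pp false [-1,1]) (.R ⟨2,false,false,true,[0,1],[0,1,1],[0,0,1],(⟨0,[]⟩,
  ⟨0,[]⟩),(⟨0,[(18,0),(2,0)]⟩,⟨0,[(6,0)]⟩),⟨0,[]⟩,.k,.k,.k,.k,.k,.k,⟨false,1,⟨0,[(1,0),(10,0)]⟩,⟨0,
  [(2,0),(13,0),(6,0),(1,0)]⟩⟩,⟨true,0,⟨0,[(4,0)]⟩,⟨0,[(16,0)]⟩⟩,⟨true,0,⟨0,[(25,0)]⟩,⟨0,[(24,0)]⟩⟩,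
  ⟨false,0,⟨0,[(2,0),(22,0)]⟩,⟨0,[(14,0),(12,0)]⟩⟩,⟨false,1,⟨1,[(8,0),(0,0),(17,0)]⟩,⟨0,[]⟩⟩,⟨false,
  0,⟨0,[(2,0)]⟩,⟨2,[(0,1),(0,2),(3,0),(10,1)]⟩⟩,[.o ⟨false,0,⟨0,[(3,0)]⟩,⟨0,[(1,0)]⟩⟩,.o ⟨false,0,
  ⟨0,[(2,0)]⟩,⟨0,[(1,0),(27,0)]⟩⟩,.a ⟨true,0,⟨0,[(0,0)]⟩,⟨1,[(15,0),(0,0)]⟩⟩ ⟨true,0,⟨1,[(15,0),(0,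
  0)]⟩,⟨0,[(23,0),(1,0)]⟩⟩ ⟨false,0,⟨1,[(2,1),(12,0),(0,0)]⟩,⟨0,[(0,0),(0,0)]⟩⟩,.e ⟨false,1,⟨1,[(8,
  0),(0,0),(17,0)]⟩,⟨0,[]⟩⟩ ⟨false,0,⟨0,[(2,0)]⟩,⟨2,[(0,1),(0,2),(3,0),(10,1)]⟩⟩]⟩) (.I [1,1,-1,0,0,
  0,0,-1] (.S ⟨1,0,[0,0,0,-1,0,0,0,-1],[1,0,-1],[1,1,0,0,0,0,0,-1],(⟨0,[(18,0)]⟩,⟨0,[(19,0)]⟩),⟨0,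
  [(7,0)]⟩,.k,.k,⟨false,0,⟨0,[]⟩,⟨1,[(9,0),(0,0),(17,0)]⟩⟩,⟨true,0,⟨0,[(26,0)]⟩,⟨0,[(25,0)]⟩⟩,⟨true,
  0,⟨0,[(25,0)]⟩,⟨0,[(26,0)]⟩⟩,⟨false,1,⟨1,[(9,0),(0,0),(17,0)]⟩,⟨0,[]⟩⟩,[.o ⟨false,1,⟨0,[(2,0),(27,
  0)]⟩,⟨0,[(3,0)]⟩⟩,.o ⟨false,1,⟨0,[(2,0)]⟩,⟨0,[(4,0)]⟩⟩,.o ⟨false,1,⟨1,[(17,1),(2,0),(6,0)]⟩,⟨0,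
  [(5,0)]⟩⟩,.a ⟨true,0,⟨0,[(17,0)]⟩,⟨0,[(13,0)]⟩⟩ ⟨true,0,⟨0,[(0,0)]⟩,⟨0,[(3,0),(13,0),(8,0)]⟩⟩
  ⟨false,1,⟨0,[(2,0),(10,0)]⟩,⟨0,[(3,0),(13,0)]⟩⟩]⟩) (.S ⟨1,0,[0,0,1,0,0,0,0,1],[0,1,1],[1,1,1,1,0,
  0,0,1],(⟨0,[(19,0),(2,0)]⟩,⟨0,[(7,0)]⟩),⟨0,[(19,0)]⟩,.k,.k,⟨false,0,⟨0,[]⟩,⟨1,[(9,0),(0,0),(17,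
  0)]⟩⟩,⟨true,0,⟨0,[(26,0)]⟩,⟨0,[(25,0)]⟩⟩,⟨true,0,⟨0,[(25,0)]⟩,⟨0,[(26,0)]⟩⟩,⟨false,1,⟨1,[(9,0),(0,
  0),(17,0)]⟩,⟨0,[]⟩⟩,[.o ⟨false,0,⟨0,[(3,0),(22,0)]⟩,⟨1,[(15,1),(4,0),(7,0)]⟩⟩,.a ⟨true,0,⟨0,[(0,
  0),(12,0)]⟩,⟨0,[(15,0)]⟩⟩ ⟨false,0,⟨0,[(0,0),(23,0)]⟩,⟨1,[(2,0),(3,0),(8,0),(10,0),(0,0)]⟩⟩ ⟨true,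
  0,⟨0,[(0,0)]⟩,⟨0,[(5,0),(9,0)]⟩⟩,.e ⟨false,0,⟨0,[(0,0),(24,0)]⟩,⟨0,[(2,0),(10,0)]⟩⟩ ⟨false,0,⟨0,
  [(0,0)]⟩,⟨3,[(2,1),(3,1),(8,1),(8,1),(2,0),(0,0)]⟩⟩,.o ⟨false,0,⟨0,[(5,0)]⟩,⟨1,[(17,1),(2,0),(6,
  0)]⟩⟩]⟩))))) (.R ⟨2,true,false,true,[0,1],[0,1,1],[0,1,1],(⟨0,[]⟩,⟨0,[]⟩),(⟨0,[(15,0),(2,0)]⟩,⟨0,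
  [(3,0)]⟩),⟨0,[]⟩,.k,.k,.k,.k,.k,.k,⟨false,0,⟨0,[(0,0),(0,0),(18,0),(1,0)]⟩,⟨0,[(10,0),(2,0),(6,0),
  (3,0)]⟩⟩,⟨true,0,⟨0,[(1,0)]⟩,⟨0,[(13,0)]⟩⟩,⟨false,0,⟨0,[(22,0)]⟩,⟨0,[(21,0),(2,0)]⟩⟩,⟨true,0,⟨0,
  [(10,0)]⟩,⟨0,[(0,0),(20,0)]⟩⟩,⟨true,0,⟨0,[(26,0)]⟩,⟨0,[]⟩⟩,⟨false,1,⟨0,[(10,0),(10,0),(2,0)]⟩,⟨0,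
  [(0,0)]⟩⟩,[]⟩))

theorem ok0 : chk K t0 l0 = true := by decide +kernel

noncomputable def t1 : Tre :=
  (.Q [0,1,0,1,0,0,-1,-1,0,0,1] (.p true [0,0,1] [] (⟨0,[(14,0)]⟩,⟨0,[(13,0)]⟩) .k 0 (⟨0,[]⟩,⟨0,
  []⟩) .k .k) (.I [1,-1,0,1,1,0,0,1] (.I [0,0,-1,-1,1,0,0,2] (.I [1,0,0,0,0,0,0,-1] (.I [1,0,-1,0,0,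
  0,0,-1] (.Q [0,0,0,1,0,0,-1,-1,0,0,1] (.p true [0,0,1] [] (⟨0,[(19,0)]⟩,⟨0,[(18,0)]⟩) .k 0 (⟨0,
  []⟩,⟨0,[]⟩) .k .k) (.Q [0,-1,0,-1,1,0,1,1,0,-1,-1] (.p false [1,-1,1] [] (⟨0,[(20,0),(1,0)]⟩,⟨0,
  [(9,0)]⟩) .k 0 (⟨0,[]⟩,⟨0,[]⟩) .k .k) (.R ⟨2,false,false,true,[0,1],[0,1,-1],[0,0,1],(⟨0,[]⟩,⟨0,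
  []⟩),(⟨0,[(10,0)]⟩,⟨0,[(21,0),(1,0)]⟩),⟨0,[]⟩,.k,.k,.k,.k,.k,.k,⟨false,1,⟨0,[(0,0),(6,1),(7,0)]⟩,
  ⟨0,[(3,0),(23,0)]⟩⟩,⟨true,0,⟨0,[(7,0)]⟩,⟨0,[(18,0)]⟩⟩,⟨true,0,⟨0,[(28,0)]⟩,⟨0,[(27,0)]⟩⟩,⟨false,0,
  ⟨0,[(3,0),(3,0)]⟩,⟨6,[(0,1),(3,0),(0,2),(2,1),(9,0),(11,0)]⟩⟩,⟨false,1,⟨1,[(11,0),(0,0),(17,0)]⟩,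
  ⟨0,[]⟩⟩,⟨false,0,⟨0,[(1,0)]⟩,⟨4,[(0,0),(3,1),(3,0),(9,1),(9,1),(1,1)]⟩⟩,[.o ⟨false,0,⟨0,[(6,0)]⟩,
  ⟨0,[(0,0)]⟩⟩,.o ⟨false,0,⟨0,[(1,0)]⟩,⟨0,[(0,0),(31,0)]⟩⟩,.a ⟨true,0,⟨0,[(7,0),(7,0)]⟩,⟨1,[(18,0),
  (0,0)]⟩⟩ ⟨true,0,⟨1,[(18,0),(0,0)]⟩,⟨0,[(26,0),(1,0)]⟩⟩ ⟨false,0,⟨1,[(1,1),(16,0),(0,0)]⟩,⟨0,[(0,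
  0),(6,0),(7,0)]⟩⟩,.e ⟨false,1,⟨1,[(11,0),(0,0),(17,0)]⟩,⟨0,[]⟩⟩ ⟨false,0,⟨0,[(1,0)]⟩,⟨4,[(0,0),(3,
  1),(3,0),(9,1),(9,1),(1,1)]⟩⟩]⟩) (.Q [0,0,1,0,0,0,2,0,0,0,-2] (.p false [0,0,1] [0,1,-1] (⟨0,[(21,
  0)]⟩,⟨0,[(20,0)]⟩) .k 2 (⟨0,[(10,0)]⟩,⟨0,[(21,0),(1,0)]⟩) .k (.r (-1) ⟨1,[(4,0),(0,0),(10,0),(2,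
  0)]⟩ ⟨0,[(2,1),(28,1)]⟩)) (.Q [0,-1,0,1,0,0,-2,-2,0,0,2] (.p true [0,0,1] [0,1,-1] (⟨0,[(22,0)]⟩,
  ⟨0,[(21,0)]⟩) .k 2 (⟨0,[(11,0)]⟩,⟨0,[(22,0),(1,0)]⟩) .k (.r (-1) ⟨1,[(5,0),(0,0),(10,0),(2,0)]⟩
  ⟨0,[(3,1),(28,1)]⟩)) (.R ⟨0,false,false,true,[0,1,-1],[0,0,1],[1,1,1],(⟨0,[(12,0)]⟩,⟨0,[(23,0),(1,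
  0)]⟩),(⟨0,[(23,0)]⟩,⟨0,[(22,0)]⟩),⟨0,[(23,0)]⟩,.k,.k,.k,(.r 0 ⟨2,[(0,1),(0,2),(6,0),(10,0)]⟩ ⟨0,
  [(6,0)]⟩),.k,.k,⟨false,0,⟨0,[(5,0)]⟩,⟨11,[(6,3),(0,3),(5,0),(0,0),(12,1),(3,2)]⟩⟩,⟨true,0,⟨0,[(1,
  0)]⟩,⟨0,[(9,1)]⟩⟩,⟨true,0,⟨0,[(9,0),(8,0),(11,0)]⟩,⟨1,[(0,0),(0,0),(26,0)]⟩⟩,⟨false,1,⟨0,[(1,0),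
  (4,0)]⟩,⟨0,[(0,0)]⟩⟩,⟨false,0,⟨0,[]⟩,⟨0,[]⟩⟩,⟨false,0,⟨0,[]⟩,⟨0,[]⟩⟩,[.o ⟨false,0,⟨0,[(18,0)]⟩,⟨5,
  [(0,1),(18,1),(4,2),(5,1),(1,2)]⟩⟩,.e ⟨false,0,⟨0,[]⟩,⟨1,[(13,0),(0,0),(16,0)]⟩⟩ ⟨false,1,⟨11,[(1,
  5),(4,3),(0,3),(2,5),(2,0),(0,0),(9,2),(2,1)]⟩,⟨0,[(4,0),(4,1)]⟩⟩,.a ⟨true,0,⟨0,[(9,1),(7,0)]⟩,⟨0,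
  [(20,0)]⟩⟩ ⟨false,0,⟨1,[(20,0),(0,0)]⟩,⟨1,[(31,0),(0,0)]⟩⟩ ⟨true,0,⟨0,[(18,0),(1,0)]⟩,⟨0,[(4,0),
  (4,1)]⟩⟩,.o ⟨false,0,⟨0,[(9,0)]⟩,⟨3,[(10,1),(2,0),(0,0),(9,2)]⟩⟩]⟩) (.R ⟨0,false,false,true,[0,1,
  -1],[0,0,1],[],(⟨0,[(12,0)]⟩,⟨0,[(23,0),(1,0)]⟩),(⟨0,[(23,0)]⟩,⟨0,[(22,0)]⟩),⟨0,[(23,0)]⟩,.k,.k,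
  .k,(.r 0 ⟨0,[(3,0),(1,0),(14,0)]⟩ ⟨0,[(6,0)]⟩),.k,.k,⟨false,1,⟨1,[(5,1),(25,0),(0,0)]⟩,⟨1,[(0,0),
  (8,1),(19,0)]⟩⟩,⟨true,0,⟨0,[(1,0)]⟩,⟨0,[(9,1)]⟩⟩,⟨false,1,⟨0,[(0,0),(3,0),(4,1),(22,0)]⟩,⟨0,[(3,
  0),(16,0)]⟩⟩,⟨true,0,⟨0,[(0,0)]⟩,⟨0,[(3,0),(1,0),(3,0)]⟩⟩,⟨false,0,⟨0,[]⟩,⟨0,[]⟩⟩,⟨false,0,⟨0,[]⟩,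
  ⟨0,[]⟩⟩,[.o ⟨false,0,⟨0,[(18,0)]⟩,⟨1,[(5,1),(3,1),(14,0),(7,0)]⟩⟩,.e ⟨false,1,⟨1,[(31,0),(0,0)]⟩,
  ⟨0,[(34,0)]⟩⟩ ⟨false,1,⟨2,[(0,0),(6,0),(2,1),(2,0),(0,0),(9,0)]⟩,⟨0,[(4,0),(4,1)]⟩⟩,.a ⟨true,0,⟨0,
  [(9,1),(7,0)]⟩,⟨0,[(20,0)]⟩⟩ ⟨false,1,⟨1,[(13,0),(0,0),(17,0)]⟩,⟨0,[]⟩⟩ ⟨true,0,⟨1,[(0,0),(19,1),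
  (8,0)]⟩,⟨0,[(4,0),(4,1)]⟩⟩,.o ⟨false,0,⟨0,[(9,0)]⟩,⟨3,[(10,1),(2,0),(0,0),(9,2)]⟩⟩]⟩)) (.I [0,0,2,
  2,0,0,0,-1] (.K ⟨0,[0,1,-1],0,0,(⟨0,[(12,0)]⟩,⟨0,[(23,0),(1,0)]⟩),.k,.k,(.r 0 ⟨0,[(0,0)]⟩ ⟨0,[(4,
  0),(1,0),(23,0)]⟩),(.r 0 ⟨1,[(0,0),(4,2)]⟩ ⟨0,[(6,0)]⟩),.k,[⟨0,[(1,0)]⟩,⟨1,[(20,2),(0,0)]⟩,⟨0,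
  [(18,0),(11,0)]⟩,⟨0,[(8,0)]⟩]⟩) (.R ⟨0,false,false,false,[0,1,-1],[1,0,-1],[1,0,0,0,0,0,0,-1],(⟨0,
  [(12,0)]⟩,⟨0,[(23,0),(1,0)]⟩),(⟨0,[(22,0)]⟩,⟨0,[(23,0)]⟩),⟨0,[(23,0)]⟩,.k,.k,.k,.k,.k,.k,⟨true,0,
  ⟨0,[]⟩,⟨1,[(20,0),(0,0)]⟩⟩,⟨false,1,⟨1,[(13,0),(0,0),(9,0)]⟩,⟨14,[(0,1),(1,6),(3,2),(10,7),(1,0),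
  (12,3)]⟩⟩,⟨true,0,⟨2,[(0,0),(3,0),(25,0)]⟩,⟨1,[(20,0),(0,0),(7,1)]⟩⟩,⟨false,1,⟨1,[(24,0),(5,1),(1,
  0)]⟩,⟨10,[(2,6),(3,0),(0,4),(2,3),(10,0),(10,0)]⟩⟩,⟨false,0,⟨0,[]⟩,⟨0,[]⟩⟩,⟨false,0,⟨0,[]⟩,⟨0,
  []⟩⟩,[.e ⟨false,0,⟨0,[(4,0)]⟩,⟨1,[(6,0),(0,0),(11,0),(0,0)]⟩⟩ ⟨false,1,⟨2,[(5,0),(4,0),(8,1),(4,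
  1),(7,0)]⟩,⟨0,[(0,0),(1,0),(4,0),(12,0)]⟩⟩,.o ⟨false,1,⟨5,[(1,1),(3,5),(15,1),(2,2),(7,2)]⟩,⟨0,
  [(18,0)]⟩⟩,.a ⟨true,0,⟨14,[(0,3),(1,13),(3,5),(10,0),(1,1),(12,7)]⟩,⟨0,[(20,0)]⟩⟩ ⟨true,0,⟨0,[(5,
  0)]⟩,⟨2,[(1,0),(16,2),(2,0)]⟩⟩ ⟨false,1,⟨1,[(5,1),(14,0),(0,0),(2,0),(7,0)]⟩,⟨0,[(0,0),(1,0),(4,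
  0),(12,0)]⟩⟩,.o ⟨false,0,⟨0,[(9,0)]⟩,⟨3,[(10,1),(2,0),(0,0),(9,2)]⟩⟩]⟩)))) (.R ⟨2,true,false,
  false,[0,1],[0,0,1],[0,1,1],(⟨0,[]⟩,⟨0,[]⟩),(⟨0,[(20,0)]⟩,⟨0,[(19,0)]⟩),⟨0,[]⟩,.k,.k,.k,.k,.k,.k,
  ⟨false,0,⟨2,[(2,1),(13,0),(0,0),(6,0)]⟩,⟨0,[(0,0),(0,0),(2,0),(1,0)]⟩⟩,⟨true,0,⟨0,[(17,0)]⟩,⟨0,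
  [(6,0)]⟩⟩,⟨false,0,⟨0,[(27,0)]⟩,⟨0,[(26,0),(2,0)]⟩⟩,⟨true,0,⟨0,[(0,0)]⟩,⟨0,[(5,0)]⟩⟩,⟨true,0,⟨0,
  [(31,0)]⟩,⟨0,[]⟩⟩,⟨false,1,⟨6,[(0,1),(2,0),(0,2),(2,1),(9,0),(3,0),(7,1)]⟩,⟨0,[(2,0),(3,0)]⟩⟩,
  []⟩)) (.S ⟨1,0,[0,1,1,0,0,0,0,1],[0,1,1],[0,0,1,0,0,0,0,1],(⟨0,[(19,0),(2,0)]⟩,⟨0,[(7,0)]⟩),⟨0,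
  [(19,0)]⟩,.k,.k,⟨true,0,⟨0,[(26,0)]⟩,⟨0,[(25,0)]⟩⟩,⟨false,0,⟨0,[(26,0)]⟩,⟨0,[(25,0),(2,0)]⟩⟩,
  ⟨false,1,⟨1,[(9,0),(0,0),(17,0)]⟩,⟨0,[]⟩⟩,⟨true,0,⟨0,[(30,0)]⟩,⟨0,[]⟩⟩,[.o ⟨false,0,⟨0,[(14,0)]⟩,
  ⟨1,[(1,1),(3,1),(14,0),(7,0)]⟩⟩,.a ⟨true,0,⟨0,[(0,0),(12,0)]⟩,⟨0,[(1,0),(3,0)]⟩⟩ ⟨false,1,⟨7,[(0,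
  1),(1,1),(0,1),(5,0),(0,0),(17,2)]⟩,⟨0,[(1,0),(22,0),(1,0)]⟩⟩ ⟨true,0,⟨0,[(0,0)]⟩,⟨0,[(1,0)]⟩⟩,.a
  ⟨true,0,⟨0,[(13,0)]⟩,⟨0,[(17,0)]⟩⟩ ⟨true,0,⟨0,[(0,0)]⟩,⟨0,[(1,0),(22,0),(1,0)]⟩⟩ ⟨false,0,⟨0,[(0,
  0)]⟩,⟨1,[(1,1),(25,0),(0,0)]⟩⟩,.a ⟨true,0,⟨1,[(6,0),(11,0),(0,0)]⟩,⟨0,[(5,0)]⟩⟩ ⟨false,1,⟨7,[(0,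
  1),(1,1),(0,1),(5,0),(0,0),(17,2)]⟩,⟨0,[(1,0)]⟩⟩ ⟨true,0,⟨0,[(5,0),(8,0)]⟩,⟨0,[(1,0)]⟩⟩]⟩)) (.Q
  [0,0,-1,0,0,0,-2,0,0,0,2] (.p true [0,0,1] [0,1,-1] (⟨0,[(18,0)]⟩,⟨0,[(17,0)]⟩) .k 2 (⟨0,[(7,0)]⟩,
  ⟨0,[(18,0),(1,0)]⟩) .k (.i 0 ⟨0,[(18,1)]⟩ ⟨0,[(6,0),(0,0)]⟩)) (.I [0,0,-2,-2,0,0,0,1] (.I [0,0,1,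
  1,1,0,0,-2] (.K ⟨0,[0,1,-1],0,0,(⟨0,[(10,0)]⟩,⟨0,[(21,0),(1,0)]⟩),.k,.k,(.r (-1) ⟨3,[(5,1),(0,5),
  (11,6),(0,0),(10,1)]⟩ ⟨0,[(1,0)]⟩),(.r (-1) ⟨0,[(0,0)]⟩ ⟨1,[(1,0),(1,2)]⟩),.k,[⟨0,[(2,0)]⟩,⟨1,
  [(18,2),(0,0)]⟩,⟨0,[(16,0),(11,0)]⟩,⟨0,[(6,0)]⟩]⟩) (.Q [0,0,-1,-1,0,0,-1,0,0,0,1] (.p true [0,0,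
  1] [] (⟨0,[(21,0)]⟩,⟨0,[(20,0)]⟩) .k 0 (⟨0,[]⟩,⟨0,[]⟩) .k .k) (.R ⟨0,false,false,true,[0,1,-1],[0,
  1],[1,1,1],(⟨0,[(11,0)]⟩,⟨0,[(22,0),(1,0)]⟩),(⟨0,[(25,0)]⟩,⟨0,[(24,0)]⟩),⟨0,[(22,0)]⟩,.k,.k,.k,.k,
  .k,.k,⟨true,0,⟨0,[(29,0)]⟩,⟨0,[(1,0),(5,1),(11,1),(11,0)]⟩⟩,⟨false,1,⟨3,[(9,1),(2,0),(0,0),(9,0),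
  (6,1)]⟩,⟨0,[(8,0)]⟩⟩,⟨true,(-1),⟨0,[(1,0),(16,0),(0,0)]⟩,⟨9,[(6,1),(0,7),(1,5),(8,3),(4,2),(7,
  4)]⟩⟩,⟨false,0,⟨13,[(1,4),(4,2),(2,3),(7,0),(1,4),(3,1),(4,1)]⟩,⟨0,[(18,0),(12,0)]⟩⟩,⟨false,0,⟨0,
  []⟩,⟨0,[]⟩⟩,⟨false,0,⟨0,[]⟩,⟨0,[]⟩⟩,[.o ⟨false,0,⟨0,[(28,0)]⟩,⟨1,[(23,0),(5,1),(1,0)]⟩⟩,.e ⟨false,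
  0,⟨0,[]⟩,⟨1,[(12,0),(0,0),(16,0)]⟩⟩ ⟨false,1,⟨4,[(6,2),(0,1),(1,3),(8,0),(4,1)]⟩,⟨0,[(0,0)]⟩⟩,.a
  ⟨true,0,⟨2,[(3,1),(12,0),(4,1),(0,1)]⟩,⟨0,[(19,0)]⟩⟩ ⟨false,0,⟨1,[(19,0),(0,0)]⟩,⟨1,[(30,0),(0,
  0)]⟩⟩ ⟨true,0,⟨0,[(19,0),(8,0)]⟩,⟨0,[(0,0)]⟩⟩,.o ⟨false,0,⟨0,[(8,0)]⟩,⟨3,[(9,1),(2,0),(0,0),(9,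
  2)]⟩⟩]⟩) (.R ⟨0,false,false,true,[0,1,-1],[0,1],[1,1,1],(⟨0,[(11,0)]⟩,⟨0,[(22,0),(1,0)]⟩),(⟨0,
  [(25,0)]⟩,⟨0,[(24,0)]⟩),⟨0,[(22,0)]⟩,.k,.k,.k,.k,.k,.k,⟨true,0,⟨0,[(29,0)]⟩,⟨2,[(0,2),(2,0),(16,
  0)]⟩⟩,⟨false,1,⟨3,[(9,1),(2,0),(0,0),(9,0),(6,1)]⟩,⟨0,[(8,0)]⟩⟩,⟨true,(-1),⟨0,[(1,0),(16,0),(0,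
  0)]⟩,⟨9,[(6,1),(0,7),(1,5),(8,3),(4,2),(7,4)]⟩⟩,⟨false,0,⟨15,[(0,1),(0,4),(4,2),(2,3),(7,2),(1,2),
  (3,1)]⟩,⟨0,[(18,0),(12,0)]⟩⟩,⟨false,0,⟨0,[]⟩,⟨0,[]⟩⟩,⟨false,0,⟨0,[]⟩,⟨0,[]⟩⟩,[.o ⟨false,0,⟨0,[(28,
  0)]⟩,⟨1,[(23,0),(5,1),(1,0)]⟩⟩,.a ⟨true,0,⟨2,[(0,2),(2,1),(12,0),(4,1),(0,1)]⟩,⟨0,[(29,0)]⟩⟩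
  ⟨false,0,⟨0,[]⟩,⟨1,[(12,0),(0,0),(16,0)]⟩⟩ ⟨true,0,⟨0,[(0,0)]⟩,⟨2,[(3,0),(16,0),(8,2)]⟩⟩,.e
  ⟨false,0,⟨1,[(19,0),(0,0)]⟩,⟨1,[(30,0),(0,0)]⟩⟩ ⟨false,0,⟨0,[(0,0)]⟩,⟨5,[(2,1),(0,0),(1,0),(12,3),
  (10,0),(1,4)]⟩⟩,.o ⟨false,0,⟨0,[(8,0)]⟩,⟨3,[(9,1),(2,0),(0,0),(9,2)]⟩⟩]⟩))) (.I [1,0,0,1,0,0,0,1]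
  (.I [1,0,-1,-1,0,0,0,1] (.I [0,0,-2,0,0,2,-1] (.K ⟨0,[0,1,-1],0,0,(⟨0,[(12,0)]⟩,⟨0,[(23,0),(1,
  0)]⟩),.k,.k,(.x 0 ⟨0,[(0,0)]⟩ ⟨1,[(20,2),(0,0),(1,1),(0,1),(0,3)]⟩),(.r (-1) ⟨1,[(3,1),(13,1),(1,
  1),(4,0),(5,1),(1,0)]⟩ ⟨0,[(1,0),(3,0)]⟩),.k,[⟨0,[(4,0)]⟩,⟨1,[(20,2),(0,0)]⟩,⟨0,[(18,0),(11,0)]⟩,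
  ⟨0,[(8,0)]⟩]⟩) (.I [0,0,2,0,0,-2,1] (.K ⟨0,[0,1,-1],0,0,(⟨0,[(13,0)]⟩,⟨0,[(24,0),(1,0)]⟩),.k,.k,
  (.x (-1) ⟨12,[(5,4),(1,0),(0,0),(4,12),(6,2),(6,12),(4,9),(0,0)]⟩ ⟨0,[(0,0)]⟩),(.r (-1) ⟨1,[(4,1),
  (13,1),(1,1),(4,0),(5,1),(1,0)]⟩ ⟨0,[(2,0),(3,0)]⟩),.k,[⟨0,[(5,0)]⟩,⟨1,[(21,2),(0,0)]⟩,⟨0,[(19,0),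
  (11,0)]⟩,⟨0,[(9,0)]⟩]⟩) (.I [0,0,2,2,0,0,0,-1] (.K ⟨0,[0,1,-1],0,0,(⟨0,[(14,0)]⟩,⟨0,[(25,0),(1,
  0)]⟩),.k,.k,(.r 0 ⟨0,[(0,0)]⟩ ⟨2,[(3,0),(4,0),(23,3),(0,1)]⟩),(.r (-1) ⟨1,[(5,1),(13,1),(1,1),(4,
  0),(5,1),(1,0)]⟩ ⟨0,[(3,0),(3,0)]⟩),.k,[⟨0,[(6,0)]⟩,⟨1,[(22,2),(0,0)]⟩,⟨0,[(20,0),(11,0)]⟩,⟨0,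
  [(10,0)]⟩]⟩) (.I [1,1,-1,-1,0,0,0,-1] (.Q [0,0,0,1,0,0,0,-1,0,1] (.pp false [-1,1]) (.R ⟨0,false,
  false,false,[0,0,1],[1,-1,1],[0,0,0,-1,0,0,0,1],(⟨0,[(27,0)]⟩,⟨0,[(26,0)]⟩),(⟨0,[(27,0),(1,0)]⟩,
  ⟨0,[(16,0)]⟩),⟨0,[(16,0)]⟩,.k,.k,.k,.k,.k,.k,⟨true,0,⟨1,[(24,0),(0,0)]⟩,⟨0,[]⟩⟩,⟨false,1,⟨1,[(17,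
  0),(0,0),(9,0)]⟩,⟨2,[(8,0),(12,1),(4,0),(0,0)]⟩⟩,⟨true,0,⟨0,[(34,0)]⟩,⟨0,[(33,0)]⟩⟩,⟨false,1,⟨1,
  [(28,0),(5,1),(1,0)]⟩,⟨1,[(0,0),(5,0),(19,0),(0,0)]⟩⟩,⟨false,0,⟨0,[]⟩,⟨0,[]⟩⟩,⟨false,0,⟨0,[]⟩,⟨0,
  []⟩⟩,[.e ⟨false,0,⟨1,[(2,0),(6,0)]⟩,⟨7,[(7,3),(6,1),(2,0),(0,0),(4,3),(4,0),(6,3),(0,1)]⟩⟩ ⟨false,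
  1,⟨17,[(1,1),(0,3),(7,7),(17,8),(7,0)]⟩,⟨0,[(0,0)]⟩⟩,.o ⟨false,1,⟨1,[(2,0),(6,0),(14,1),(3,0),(7,
  0)]⟩,⟨0,[(12,0)]⟩⟩,.a ⟨true,0,⟨1,[(14,0),(11,0),(0,0)]⟩,⟨0,[(13,0)]⟩⟩ ⟨true,0,⟨0,[(9,0),(24,0)]⟩,
  ⟨1,[(1,0),(5,0),(24,0)]⟩⟩ ⟨false,1,⟨1,[(9,1),(18,0),(5,1),(1,0)]⟩,⟨0,[(0,0)]⟩⟩,.o ⟨false,0,⟨0,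
  [(24,0)]⟩,⟨25,[(8,9),(1,1),(0,1),(11,5),(4,12),(6,6),(0,1)]⟩⟩]⟩) (.R ⟨0,false,false,false,[0,0,1],
  [1,-1,1],[0,0,0,-1,0,0,0,1],(⟨0,[(27,0)]⟩,⟨0,[(26,0)]⟩),(⟨0,[(27,0),(1,0)]⟩,⟨0,[(16,0)]⟩),⟨0,[(16,
  0)]⟩,.k,.k,.k,.k,.k,.k,⟨true,0,⟨1,[(24,0),(0,0)]⟩,⟨0,[]⟩⟩,⟨false,1,⟨1,[(17,0),(0,0),(9,0)]⟩,⟨2,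
  [(8,0),(12,1),(4,0),(0,0)]⟩⟩,⟨true,0,⟨0,[(34,0)]⟩,⟨0,[(33,0)]⟩⟩,⟨false,1,⟨1,[(28,0),(5,1),(1,0)]⟩,
  ⟨8,[(6,2),(0,2),(0,1),(12,3),(4,4),(0,4)]⟩⟩,⟨false,0,⟨0,[]⟩,⟨0,[]⟩⟩,⟨false,0,⟨0,[]⟩,⟨0,[]⟩⟩,[.a
  ⟨true,0,⟨1,[(2,0),(6,0),(14,1)]⟩,⟨0,[(7,0),(0,0),(12,0),(12,0)]⟩⟩ ⟨false,0,⟨1,[(2,0),(6,0)]⟩,⟨7,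
  [(7,3),(6,1),(2,0),(0,0),(4,3),(4,0),(6,3),(0,1)]⟩⟩ ⟨true,0,⟨0,[(0,0)]⟩,⟨2,[(7,2),(0,0),(12,1),(4,
  0),(0,0),(6,2)]⟩⟩,.o ⟨false,1,⟨13,[(0,7),(1,1),(7,1),(3,3),(9,5),(3,4),(7,6)]⟩,⟨0,[(12,0)]⟩⟩,.e
  ⟨true,0,⟨0,[(9,0),(24,0)]⟩,⟨1,[(1,0),(5,0),(24,0)]⟩⟩ ⟨true,0,⟨0,[(0,0)]⟩,⟨2,[(7,0),(13,1),(1,1),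
  (2,0),(0,0),(5,0)]⟩⟩,.o ⟨false,0,⟨0,[(24,0)]⟩,⟨25,[(8,9),(1,1),(0,1),(11,5),(4,12),(6,6),(0,
  1)]⟩⟩]⟩)) (.I [1,-1,0,1,1,0,0,-1] (.R ⟨0,false,false,true,[0,0,1],[0,1],[0,1,0,-1,0,0,0,1],(⟨0,
  [(27,0)]⟩,⟨0,[(26,0)]⟩),(⟨0,[(30,0)]⟩,⟨0,[(29,0)]⟩),⟨0,[(16,0)]⟩,.k,.k,.k,.k,.k,.k,⟨true,0,⟨1,[(2,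
  0),(6,0),(24,1)]⟩,⟨0,[(7,0)]⟩⟩,⟨false,1,⟨6,[(0,0),(7,2),(1,0),(12,0),(11,4)]⟩,⟨0,[(24,0)]⟩⟩,
  ⟨false,0,⟨0,[(34,0)]⟩,⟨1,[(0,0),(10,0)]⟩⟩,⟨true,0,⟨0,[(12,0)]⟩,⟨3,[(1,0),(0,1),(19,0),(1,2),(9,
  0)]⟩⟩,⟨false,0,⟨0,[]⟩,⟨0,[]⟩⟩,⟨false,0,⟨0,[]⟩,⟨0,[]⟩⟩,[.o ⟨false,0,⟨0,[(33,0)]⟩,⟨1,[(28,0),(5,1),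
  (1,0)]⟩⟩,.a ⟨true,0,⟨8,[(6,2),(0,2),(0,1),(12,3),(4,4),(0,4)]⟩,⟨0,[(34,0)]⟩⟩ ⟨false,0,⟨1,[(2,0),
  (6,0)]⟩,⟨27,[(0,19),(6,3),(6,1),(2,6),(0,6),(4,3),(4,0),(2,7)]⟩⟩ ⟨true,0,⟨3,[(1,0),(5,0),(0,1),
  (23,0)]⟩,⟨0,[(24,0),(9,0)]⟩⟩,.e ⟨false,0,⟨0,[(9,0),(24,0)]⟩,⟨0,[(0,0)]⟩⟩ ⟨false,0,⟨3,[(1,0),(5,0),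
  (0,1),(23,0)]⟩,⟨3,[(14,1),(2,0),(0,0),(9,0),(5,3),(1,1)]⟩⟩,.o ⟨false,0,⟨0,[(24,0)]⟩,⟨13,[(0,1),(7,
  5),(1,1),(12,1),(4,6),(6,2)]⟩⟩]⟩) (.R ⟨0,false,false,true,[0,1,-1],[0,1],[],(⟨0,[(16,0)]⟩,⟨0,[(27,
  0),(1,0)]⟩),(⟨0,[(30,0)]⟩,⟨0,[(29,0)]⟩),⟨0,[(27,0)]⟩,.k,.k,.k,.k,.k,.k,⟨true,1,⟨1,[(34,1),(0,0),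
  (0,0)]⟩,⟨0,[(0,0),(6,0)]⟩⟩,⟨false,1,⟨3,[(14,1),(2,0),(0,0),(9,0),(6,1)]⟩,⟨0,[(13,0)]⟩⟩,⟨true,0,⟨9,
  [(0,0),(0,0),(0,4),(3,0),(3,0)]⟩,⟨6,[(0,0),(6,3),(6,1),(8,3),(4,0),(2,0)]⟩⟩,⟨false,0,⟨12,[(0,2),
  (0,3),(0,1),(3,2),(7,5),(7,0),(5,2)]⟩,⟨0,[(23,0),(12,0)]⟩⟩,⟨false,0,⟨0,[]⟩,⟨0,[]⟩⟩,⟨false,0,⟨0,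
  []⟩,⟨0,[]⟩⟩,[.o ⟨false,0,⟨0,[(33,0)]⟩,⟨1,[(28,0),(5,1),(1,0)]⟩⟩,.a ⟨true,0,⟨8,[(6,2),(0,2),(0,1),
  (12,3),(4,4),(0,4)]⟩,⟨0,[(34,0)]⟩⟩ ⟨false,1,⟨1,[(35,0),(0,0)]⟩,⟨0,[(38,0)]⟩⟩ ⟨true,0,⟨1,[(0,1),(6,
  1),(13,1),(6,0),(7,0)]⟩,⟨2,[(8,0),(16,0),(8,2)]⟩⟩,.e ⟨false,1,⟨1,[(17,0),(0,0),(17,0)]⟩,⟨0,[]⟩⟩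
  ⟨false,0,⟨1,[(0,1),(6,1),(13,1),(6,0),(7,0)]⟩,⟨5,[(2,1),(5,0),(1,0),(12,3),(10,0),(1,4)]⟩⟩,.o
  ⟨false,0,⟨0,[(13,0)]⟩,⟨3,[(14,1),(2,0),(0,0),(9,2)]⟩⟩]⟩)))))) (.I [0,0,-1,0,0,1,-2] (.K ⟨0,[0,1,
  -1],0,0,(⟨0,[(12,0)]⟩,⟨0,[(23,0),(1,0)]⟩),.k,.k,(.r 0 ⟨0,[(1,1),(3,0)]⟩ ⟨1,[(4,0),(1,0),(10,1),(6,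
  0),(5,2)]⟩),(.x 0 ⟨0,[(0,0)]⟩ ⟨3,[(10,1),(2,0),(0,0),(5,3),(2,7),(0,2),(0,3)]⟩),.k,[⟨0,[(4,0)]⟩,
  ⟨1,[(20,2),(0,0)]⟩,⟨0,[(18,0),(11,0)]⟩,⟨0,[(8,0)]⟩]⟩) (.Q [0,0,0,-1,0,0,1,1,0,0,-1] (.p false [0,
  0,1] [] (⟨0,[(23,0)]⟩,⟨0,[(22,0)]⟩) .k 0 (⟨0,[]⟩,⟨0,[]⟩) .k .k) (.R ⟨0,false,false,true,[0,0,1],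
  [0,1],[1,1,1],(⟨0,[(24,0)]⟩,⟨0,[(23,0)]⟩),(⟨0,[(27,0)]⟩,⟨0,[(26,0)]⟩),⟨0,[(13,0)]⟩,.k,.k,.k,.k,.k,
  .k,⟨true,0,⟨0,[(31,0)]⟩,⟨6,[(0,0),(2,1),(0,2),(17,0)]⟩⟩,⟨false,1,⟨12,[(5,4),(1,0),(0,0),(11,2),
  (11,9),(0,0)]⟩,⟨0,[(21,0)]⟩⟩,⟨false,0,⟨0,[(2,0),(28,0)]⟩,⟨13,[(0,3),(2,5),(1,1),(1,1),(24,4),(0,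
  6)]⟩⟩,⟨true,0,⟨0,[(9,0)]⟩,⟨0,[(0,0)]⟩⟩,⟨false,0,⟨0,[]⟩,⟨0,[]⟩⟩,⟨false,0,⟨0,[]⟩,⟨0,[]⟩⟩,[.o ⟨false,
  0,⟨0,[(30,0)]⟩,⟨1,[(25,0),(5,1),(1,0)]⟩⟩,.a ⟨true,0,⟨8,[(3,2),(0,2),(0,1),(12,3),(4,4),(0,4)]⟩,⟨0,
  [(31,0)]⟩⟩ ⟨false,0,⟨0,[]⟩,⟨1,[(14,0),(0,0),(16,0)]⟩⟩ ⟨true,0,⟨1,[(2,0),(0,0),(1,0)]⟩,⟨0,[(21,0),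
  (9,0)]⟩⟩,.e ⟨false,0,⟨1,[(21,0),(0,0)]⟩,⟨1,[(32,0),(0,0)]⟩⟩ ⟨false,0,⟨1,[(2,0),(0,0),(1,0)]⟩,⟨3,
  [(11,1),(2,0),(0,0),(9,0),(5,3),(1,1)]⟩⟩,.o ⟨false,0,⟨0,[(21,0)]⟩,⟨25,[(5,9),(1,1),(0,1),(11,5),
  (4,12),(6,6),(0,1)]⟩⟩]⟩) (.Q [0,0,1,0,0,0,2,1,0,0,-2] (.p false [0,0,1] [0,1,-1] (⟨0,[(24,0)]⟩,⟨0,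
  [(23,0)]⟩) .k 2 (⟨0,[(13,0)]⟩,⟨0,[(24,0),(1,0)]⟩) .k (.r 0 ⟨0,[(6,1)]⟩ ⟨1,[(0,1),(10,1),(8,1),(4,
  0),(5,1),(1,0)]⟩)) (.R ⟨0,false,false,true,[0,1,-1],[0,1],[1,1,1],(⟨0,[(14,0)]⟩,⟨0,[(25,0),(1,
  0)]⟩),(⟨0,[(28,0)]⟩,⟨0,[(27,0)]⟩),⟨0,[(25,0)]⟩,.k,.k,.k,.k,.k,.k,⟨true,0,⟨0,[(32,0)]⟩,⟨10,[(0,0),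
  (3,2),(0,3),(17,1)]⟩⟩,⟨false,1,⟨3,[(12,1),(2,0),(0,0),(9,0),(6,1)]⟩,⟨0,[(11,0)]⟩⟩,⟨false,0,⟨0,[(7,
  0),(24,0)]⟩,⟨1,[(3,1),(29,0),(0,0)]⟩⟩,⟨true,0,⟨0,[(20,0)]⟩,⟨0,[(1,0),(30,0)]⟩⟩,⟨false,0,⟨0,[]⟩,⟨0,
  []⟩⟩,⟨false,0,⟨0,[]⟩,⟨0,[]⟩⟩,[.o ⟨false,0,⟨0,[(31,0)]⟩,⟨1,[(26,0),(5,1),(1,0)]⟩⟩,.a ⟨true,0,⟨8,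
  [(4,2),(0,2),(0,1),(12,3),(4,4),(0,4)]⟩,⟨0,[(32,0)]⟩⟩ ⟨false,0,⟨0,[]⟩,⟨1,[(15,0),(0,0),(16,0)]⟩⟩
  ⟨true,0,⟨0,[(0,0),(0,0)]⟩,⟨2,[(6,0),(16,0),(8,2)]⟩⟩,.e ⟨false,0,⟨1,[(22,0),(0,0)]⟩,⟨1,[(33,0),(0,
  0)]⟩⟩ ⟨false,0,⟨0,[(0,0),(0,0)]⟩,⟨7,[(6,2),(1,0),(12,1),(10,6),(0,1),(0,4)]⟩⟩,.o ⟨false,0,⟨0,[(11,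
  0)]⟩,⟨3,[(12,1),(2,0),(0,0),(9,2)]⟩⟩]⟩) (.Q [0,-1,0,1,0,0,0,-1,0,1] (.pp false [-1,1]) (.R ⟨0,
  false,false,true,[0,0,1],[1,-1,1],[0,1],(⟨0,[(26,0)]⟩,⟨0,[(25,0)]⟩),(⟨0,[(26,0),(1,0)]⟩,⟨0,[(15,
  0)]⟩),⟨0,[(15,0)]⟩,.k,.k,.k,.k,.k,.k,⟨true,0,⟨0,[(4,0)]⟩,⟨0,[(8,0),(24,0)]⟩⟩,⟨false,1,⟨1,[(16,0),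
  (0,0),(9,0)]⟩,⟨2,[(7,0),(12,1),(4,0),(0,0)]⟩⟩,⟨true,0,⟨0,[(4,0),(26,0),(1,1)]⟩,⟨0,[(8,0)]⟩⟩,
  ⟨false,1,⟨1,[(16,0),(0,0),(9,0),(5,1)]⟩,⟨0,[(0,0),(7,0)]⟩⟩,⟨false,0,⟨0,[]⟩,⟨0,[]⟩⟩,⟨false,0,⟨0,
  []⟩,⟨0,[]⟩⟩,[.e ⟨false,0,⟨0,[(31,0),(1,0)]⟩,⟨1,[(16,0),(0,0),(17,0)]⟩⟩ ⟨false,1,⟨1,[(9,0),(17,0),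
  (2,0),(2,0)]⟩,⟨0,[(0,0)]⟩⟩,.o ⟨false,1,⟨2,[(8,0),(0,0),(3,0),(9,0),(3,1),(5,1)]⟩,⟨0,[(2,0)]⟩⟩,.a
  ⟨true,0,⟨1,[(13,0),(11,0),(0,0)]⟩,⟨0,[(12,0)]⟩⟩ ⟨true,0,⟨0,[(37,0)]⟩,⟨0,[]⟩⟩ ⟨false,1,⟨3,[(9,1),
  (13,0),(0,0),(2,1),(5,1)]⟩,⟨0,[(0,0)]⟩⟩,.o ⟨false,0,⟨0,[(23,0)]⟩,⟨25,[(7,9),(1,1),(0,1),(11,5),(4,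
  12),(6,6),(0,1)]⟩⟩]⟩) (.R ⟨0,false,false,true,[0,1,-1],[0,1,1],[1,1,1,1,0,0,0,1],(⟨0,[(15,0)]⟩,⟨0,
  [(26,0),(1,0)]⟩),(⟨0,[(26,0),(2,0)]⟩,⟨0,[(14,0)]⟩),⟨0,[(26,0)]⟩,.k,.k,.k,.k,.k,.k,⟨true,0,⟨0,[]⟩,
  ⟨1,[(23,0),(0,0)]⟩⟩,⟨false,1,⟨1,[(13,1),(13,0),(6,0)]⟩,⟨2,[(7,1),(16,1)]⟩⟩,⟨false,0,⟨0,[(8,1)]⟩,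
  ⟨1,[(1,1),(2,1),(8,1),(13,0),(5,1),(1,0)]⟩⟩,⟨true,0,⟨0,[(0,0),(4,0),(7,0)]⟩,⟨0,[(1,0),(2,0),(28,
  0)]⟩⟩,⟨false,0,⟨0,[]⟩,⟨0,[]⟩⟩,⟨false,0,⟨0,[]⟩,⟨0,[]⟩⟩,[.o ⟨false,0,⟨1,[(5,0),(15,0),(1,0),(7,0)]⟩,
  ⟨1,[(1,0),(2,0),(22,0),(5,2),(1,0)]⟩⟩,.e ⟨false,0,⟨0,[(5,0)]⟩,⟨2,[(1,0),(11,1),(8,1),(4,0),(5,2),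
  (0,0),(0,0)]⟩⟩ ⟨false,1,⟨6,[(5,0),(4,3),(2,5),(7,1),(5,2),(4,1)]⟩,⟨0,[(1,0),(31,0)]⟩⟩,.a ⟨true,0,
  ⟨2,[(7,1),(12,0),(4,1),(0,1)]⟩,⟨0,[(23,0)]⟩⟩ ⟨false,0,⟨1,[(5,1),(17,0),(0,0)]⟩,⟨1,[(1,1),(11,1),
  (13,0),(5,1),(1,0)]⟩⟩ ⟨true,0,⟨1,[(5,0),(15,0),(1,2),(7,0)]⟩,⟨0,[(1,0),(31,0)]⟩⟩,.o ⟨false,0,⟨0,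
  [(12,0)]⟩,⟨3,[(13,1),(2,0),(0,0),(9,2)]⟩⟩]⟩)))))) (.S ⟨1,0,[0,0,0,-1,0,0,0,-1],[1,0,-1],[0,1,0,-1,
  0,0,0,-1],(⟨0,[(20,0)]⟩,⟨0,[(21,0)]⟩),⟨0,[(9,0)]⟩,.k,.k,⟨false,0,⟨0,[(28,0)]⟩,⟨2,[(1,0),(3,0),(23,
  0),(0,0)]⟩⟩,⟨true,0,⟨0,[(28,0)]⟩,⟨0,[(27,0)]⟩⟩,⟨true,0,⟨0,[(32,0)]⟩,⟨0,[]⟩⟩,⟨false,1,⟨1,[(11,0),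
  (0,0),(17,0)]⟩,⟨0,[]⟩⟩,[.a ⟨true,0,⟨2,[(0,2),(1,0),(16,0)]⟩,⟨1,[(1,0),(1,2),(11,1)]⟩⟩ ⟨false,0,⟨0,
  [(0,0),(25,0),(1,0)]⟩,⟨0,[(5,0)]⟩⟩ ⟨true,0,⟨0,[(0,0)]⟩,⟨1,[(1,0),(1,2)]⟩⟩,.o ⟨false,1,⟨5,[(0,5),
  (1,1),(16,1),(2,2),(7,2)]⟩,⟨0,[(3,0),(14,0),(7,0)]⟩⟩,.a ⟨true,0,⟨0,[(7,0)]⟩,⟨1,[(8,0),(11,0),(0,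
  0)]⟩⟩ ⟨false,0,⟨0,[(0,0)]⟩,⟨0,[(5,0)]⟩⟩ ⟨true,0,⟨0,[(0,0)]⟩,⟨0,[(3,0),(23,0)]⟩⟩,.a ⟨true,0,⟨0,
  [(19,0)]⟩,⟨0,[(15,0)]⟩⟩ ⟨true,0,⟨0,[(0,0),(25,0),(1,0)]⟩,⟨1,[(1,0),(1,2)]⟩⟩ ⟨false,1,⟨1,[(0,1),
  (28,0),(0,0)]⟩,⟨1,[(1,0),(1,2)]⟩⟩]⟩))) (.I [0,0,-1,-1,0,0,0,-1] (.S ⟨1,0,[0,0,0,-1,0,0,0,-1],[1,0,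
  -1],[1,1],(⟨0,[(19,0)]⟩,⟨0,[(20,0)]⟩),⟨0,[(8,0)]⟩,.k,.k,⟨false,0,⟨0,[(2,0)]⟩,⟨9,[(0,1),(0,1),(3,
  1),(1,1),(8,5),(4,0),(7,8)]⟩⟩,⟨true,0,⟨0,[(27,0)]⟩,⟨0,[(26,0)]⟩⟩,⟨true,0,⟨0,[(2,0),(23,0)]⟩,⟨2,
  [(0,2),(0,0),(16,1)]⟩⟩,⟨false,1,⟨1,[(10,0),(0,0),(17,0)]⟩,⟨0,[]⟩⟩,[.e ⟨false,0,⟨2,[(0,0),(1,0),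
  (21,0),(0,0)]⟩,⟨1,[(10,0),(0,0),(17,0)]⟩⟩ ⟨false,0,⟨0,[(0,0)]⟩,⟨0,[(4,0),(26,0)]⟩⟩,.o ⟨false,1,⟨1,
  [(0,1),(17,1),(2,0),(7,0)]⟩,⟨1,[(1,0),(0,1),(22,0),(0,0)]⟩⟩,.a ⟨true,0,⟨0,[(6,0)]⟩,⟨1,[(7,0),(11,
  0),(0,0)]⟩⟩ ⟨false,0,⟨0,[]⟩,⟨1,[(10,0),(0,0),(17,0)]⟩⟩ ⟨true,0,⟨2,[(0,2),(0,0),(16,1)]⟩,⟨0,[(2,0),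
  (23,0)]⟩⟩,.e ⟨true,0,⟨2,[(0,0),(1,0),(21,0),(0,0)]⟩,⟨2,[(1,0),(16,1)]⟩⟩ ⟨true,0,⟨0,[(0,0)]⟩,⟨2,
  [(1,0),(0,2),(15,1),(7,2)]⟩⟩]⟩) (.I [1,-1,0,-1,0,0,0,1] (.Q [0,0,1,1,0,0,1,0,0,0,-1] (.p false [0,
  0,1] [] (⟨0,[(21,0)]⟩,⟨0,[(20,0)]⟩) .k 0 (⟨0,[]⟩,⟨0,[]⟩) .k .k) (.R ⟨0,false,false,false,[0,1,-1],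
  [0,1],[1,0,1],(⟨0,[(11,0)]⟩,⟨0,[(22,0),(1,0)]⟩),(⟨0,[(25,0)]⟩,⟨0,[(24,0)]⟩),⟨0,[(22,0)]⟩,.k,.k,.k,
  .k,.k,.k,⟨true,0,⟨0,[(29,0)]⟩,⟨0,[(0,0),(7,0)]⟩⟩,⟨false,1,⟨3,[(9,1),(2,0),(0,0),(9,0),(6,1)]⟩,⟨0,
  [(8,0)]⟩⟩,⟨false,0,⟨0,[(1,0)]⟩,⟨9,[(6,1),(0,7),(1,5),(8,3),(4,2),(7,4)]⟩⟩,⟨true,0,⟨1,[(1,0),(1,0),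
  (0,0),(22,0)]⟩,⟨0,[(18,0)]⟩⟩,⟨false,0,⟨0,[]⟩,⟨0,[]⟩⟩,⟨false,0,⟨0,[]⟩,⟨0,[]⟩⟩,[.a ⟨true,0,⟨0,[(0,
  0),(7,1),(7,0)]⟩,⟨0,[(29,0)]⟩⟩ ⟨false,0,⟨0,[]⟩,⟨1,[(12,0),(0,0),(16,0)]⟩⟩ ⟨true,0,⟨0,[(0,0)]⟩,⟨0,
  [(1,0),(16,0)]⟩⟩,.e ⟨false,1,⟨1,[(12,0),(0,0),(17,0)]⟩,⟨0,[(27,0),(1,0)]⟩⟩ ⟨false,1,⟨1,[(0,1),(29,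
  0),(0,0)]⟩,⟨0,[(1,0),(16,0),(8,0),(1,0)]⟩⟩,.e ⟨true,0,⟨2,[(3,0),(16,1)]⟩,⟨0,[(27,0),(1,0)]⟩⟩
  ⟨true,0,⟨0,[(0,0)]⟩,⟨0,[(1,0),(16,0),(8,0),(1,0)]⟩⟩,.o ⟨false,0,⟨0,[(8,0)]⟩,⟨3,[(9,1),(2,0),(0,0),
  (9,2)]⟩⟩]⟩) (.R ⟨0,false,false,false,[0,1,-1],[0,0,1],[],(⟨0,[(11,0)]⟩,⟨0,[(22,0),(1,0)]⟩),(⟨0,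
  [(22,0)]⟩,⟨0,[(21,0)]⟩),⟨0,[(22,0)]⟩,.k,.k,.k,(.r (-1) ⟨0,[(3,0),(3,0),(10,0),(12,0)]⟩ ⟨1,[(1,2),
  (2,0),(21,0),(0,0)]⟩),.k,.k,⟨false,1,⟨1,[(16,1),(1,1),(4,0),(7,0)]⟩,⟨0,[(4,0)]⟩⟩,⟨true,0,⟨0,[(3,
  0)]⟩,⟨0,[(8,1)]⟩⟩,⟨true,0,⟨3,[(0,1),(0,3),(1,0),(22,0),(0,1)]⟩,⟨2,[(3,1),(3,2),(12,0)]⟩⟩,⟨false,0,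
  ⟨0,[(1,1),(1,0),(23,0)]⟩,⟨0,[(7,0),(10,0),(12,0)]⟩⟩,⟨false,0,⟨0,[]⟩,⟨0,[]⟩⟩,⟨false,0,⟨0,[]⟩,⟨0,
  []⟩⟩,[.o ⟨false,0,⟨1,[(1,0),(1,0),(0,0),(22,0)]⟩,⟨1,[(18,1),(4,0),(7,0)]⟩⟩,.e ⟨false,1,⟨1,[(30,0),
  (0,0)]⟩,⟨0,[(33,0)]⟩⟩ ⟨false,1,⟨1,[(1,0),(4,0),(2,1),(13,0)]⟩,⟨0,[(0,0),(6,0)]⟩⟩,.a ⟨true,0,⟨0,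
  [(8,1),(7,0)]⟩,⟨0,[(19,0)]⟩⟩ ⟨false,1,⟨1,[(12,0),(0,0),(17,0)]⟩,⟨0,[]⟩⟩ ⟨true,0,⟨0,[(3,0),(0,0)]⟩,
  ⟨0,[(0,0),(6,0)]⟩⟩,.o ⟨false,0,⟨0,[(8,0)]⟩,⟨3,[(9,1),(2,0),(0,0),(9,2)]⟩⟩]⟩)) (.I [1,0,0,1,0,0,0,
  1] (.I [0,1,1,0,-1,0,0,1] (.S ⟨1,0,[0,0,1,0,0,0,0,1],[0,1,1],[0,1,1,0,0,0,0,1],(⟨0,[(23,0),(2,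
  0)]⟩,⟨0,[(11,0)]⟩),⟨0,[(23,0)]⟩,.k,.k,⟨false,0,⟨0,[(30,0)]⟩,⟨1,[(2,0),(4,0),(24,0)]⟩⟩,⟨true,0,⟨0,
  [(30,0)]⟩,⟨0,[(29,0)]⟩⟩,⟨true,0,⟨0,[(34,0)]⟩,⟨0,[]⟩⟩,⟨false,1,⟨1,[(13,0),(0,0),(17,0)]⟩,⟨0,[]⟩⟩,
  [.o ⟨false,0,⟨1,[(0,1),(16,1),(6,0),(7,0)]⟩,⟨1,[(19,1),(4,0),(7,0)]⟩⟩,.a ⟨true,0,⟨0,[(0,0),(16,0),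
  (14,0)]⟩,⟨0,[(19,0)]⟩⟩ ⟨false,0,⟨0,[(5,0)]⟩,⟨1,[(17,1),(1,1),(4,0),(7,0)]⟩⟩ ⟨true,0,⟨0,[(0,0),(31,
  0)]⟩,⟨0,[(2,0),(27,0)]⟩⟩,.a ⟨true,0,⟨0,[(17,0)]⟩,⟨0,[(21,0)]⟩⟩ ⟨true,(-1),⟨0,[(0,0)]⟩,⟨1,[(17,1),
  (1,1),(4,0),(7,0)]⟩⟩ ⟨false,0,⟨0,[(0,0),(31,0)]⟩,⟨1,[(17,1),(1,1),(4,0),(7,0)]⟩⟩,.a ⟨true,0,⟨1,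
  [(10,0),(11,0),(0,0)]⟩,⟨0,[(9,0)]⟩⟩ ⟨false,0,⟨0,[(5,0)]⟩,⟨0,[(2,0),(27,0),(1,0)]⟩⟩ ⟨true,0,⟨0,[(5,
  0)]⟩,⟨0,[(2,0),(27,0)]⟩⟩]⟩) (.Q [0,0,0,0,0,0,1,1,0,0,-1] (.p false [0,0,1] [] (⟨0,[(23,0)]⟩,⟨0,
  [(22,0)]⟩) .k 0 (⟨0,[]⟩,⟨0,[]⟩) .k .k) (.Q [0,-1,0,0,1,0,-1,-1,0,-1,1] (.p true [0,0,1] [1] (⟨0,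
  [(24,0)]⟩,⟨0,[(23,0)]⟩) .k 1 (⟨0,[]⟩,⟨0,[]⟩) .k .k) (.R ⟨2,false,false,true,[0,1],[0,0,1],[0,0,1],
  (⟨0,[]⟩,⟨0,[]⟩),(⟨0,[(25,0)]⟩,⟨0,[(24,0)]⟩),⟨0,[]⟩,.k,.k,.k,.k,.k,.k,⟨false,1,⟨2,[(2,0),(3,0),(14,
  1),(12,1)]⟩,⟨0,[(7,0),(22,0),(1,0)]⟩⟩,⟨true,0,⟨0,[(22,0)]⟩,⟨0,[(11,0)]⟩⟩,⟨true,0,⟨0,[(32,0)]⟩,⟨0,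
  [(31,0)]⟩⟩,⟨false,0,⟨0,[(1,0),(30,0)]⟩,⟨0,[(10,0),(23,0)]⟩⟩,⟨false,1,⟨1,[(15,0),(0,0),(17,0)]⟩,⟨0,
  []⟩⟩,⟨false,0,⟨0,[(1,0)]⟩,⟨0,[(21,0),(12,0)]⟩⟩,[.o ⟨false,0,⟨0,[(20,0)]⟩,⟨0,[(0,0)]⟩⟩,.o ⟨false,0,
  ⟨0,[(1,0)]⟩,⟨3,[(0,1),(14,0),(0,0),(4,1),(4,0)]⟩⟩,.a ⟨true,0,⟨0,[(11,0),(7,0)]⟩,⟨2,[(6,0),(16,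
  1)]⟩⟩ ⟨true,0,⟨2,[(6,0),(16,1)]⟩,⟨0,[(30,0),(1,0)]⟩⟩ ⟨false,0,⟨2,[(1,2),(4,0),(16,1)]⟩,⟨0,[(2,0),
  (8,0)]⟩⟩,.e ⟨false,1,⟨1,[(15,0),(0,0),(17,0)]⟩,⟨0,[]⟩⟩ ⟨false,0,⟨0,[(1,0)]⟩,⟨0,[(21,0),(12,
  0)]⟩⟩]⟩) (.Q [0,-1,0,1,1,0,-2,-2,0,0,2] (.p true [0,0,1] [0,1,-1] (⟨0,[(25,0)]⟩,⟨0,[(24,0)]⟩) .k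
  2 (⟨0,[(14,0)]⟩,⟨0,[(25,0),(1,0)]⟩) .k (.r 0 ⟨0,[(7,1)]⟩ ⟨2,[(2,1),(3,1),(14,3),(12,0)]⟩)) (.I [0,
  0,1,1,0,0,0,-2] (.R ⟨0,false,false,true,[0,1,-1],[0,0,1],[1,0,1],(⟨0,[(16,0)]⟩,⟨0,[(27,0),(1,
  0)]⟩),(⟨0,[(27,0)]⟩,⟨0,[(26,0)]⟩),⟨0,[(27,0)]⟩,.k,.k,.k,(.r 0 ⟨0,[(0,0)]⟩ ⟨0,[(10,0)]⟩),.k,.k,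
  ⟨false,1,⟨8,[(1,3),(2,2),(3,3),(1,0),(23,2),(1,0)]⟩,⟨1,[(2,1),(10,1),(14,0),(6,0)]⟩⟩,⟨true,0,⟨0,
  [(8,0)]⟩,⟨0,[(13,1)]⟩⟩,⟨true,0,⟨0,[(9,0),(24,0)]⟩,⟨0,[(6,0)]⟩⟩,⟨false,0,⟨0,[(3,1),(30,0)]⟩,⟨0,[(1,
  0)]⟩⟩,⟨false,0,⟨0,[]⟩,⟨0,[]⟩⟩,⟨false,0,⟨0,[]⟩,⟨0,[]⟩⟩,[.e ⟨false,0,⟨0,[]⟩,⟨6,[(1,1),(8,1),(3,1),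
  (13,0),(2,0),(3,1)]⟩⟩ ⟨false,0,⟨1,[(3,1),(4,0),(22,0)]⟩,⟨0,[(4,0),(8,1)]⟩⟩,.o ⟨false,0,⟨0,[(3,
  0)]⟩,⟨9,[(1,3),(6,0),(1,0),(12,3),(4,4),(5,2)]⟩⟩,.a ⟨true,0,⟨0,[(13,1),(7,0)]⟩,⟨0,[(24,0)]⟩⟩
  ⟨true,0,⟨2,[(8,0),(16,1)]⟩,⟨0,[(32,0),(1,0)]⟩⟩ ⟨false,0,⟨2,[(3,2),(4,1),(16,0)]⟩,⟨0,[(4,0),(8,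
  1)]⟩⟩,.o ⟨false,0,⟨0,[(13,0)]⟩,⟨13,[(1,1),(6,2),(1,1),(3,5),(13,9),(2,0)]⟩⟩]⟩) (.I [0,0,-1,-1,0,0,
  0,2] (.R ⟨0,false,false,true,[0,1,-1],[0,0,1],[1,0,1],(⟨0,[(17,0)]⟩,⟨0,[(28,0),(1,0)]⟩),(⟨0,[(28,
  0)]⟩,⟨0,[(27,0)]⟩),⟨0,[(28,0)]⟩,.k,.k,.k,(.r (-1) ⟨7,[(2,5),(6,8),(2,1),(11,5),(7,0)]⟩ ⟨0,[(0,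
  0)]⟩),.k,.k,⟨false,1,⟨8,[(2,3),(2,2),(3,3),(1,0),(23,2),(1,0)]⟩,⟨4,[(0,1),(5,0),(25,1),(0,0)]⟩⟩,
  ⟨true,0,⟨0,[(9,0)]⟩,⟨0,[(14,1)]⟩⟩,⟨true,0,⟨5,[(0,2),(8,0),(16,1),(8,2)]⟩,⟨0,[(7,0)]⟩⟩,⟨false,0,⟨0,
  [(0,0),(8,0)]⟩,⟨0,[(2,0)]⟩⟩,⟨false,0,⟨0,[]⟩,⟨0,[]⟩⟩,⟨false,0,⟨0,[]⟩,⟨0,[]⟩⟩,[.e ⟨false,0,⟨0,[]⟩,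
  ⟨6,[(2,1),(8,1),(3,1),(13,0),(2,0),(3,1)]⟩⟩ ⟨false,0,⟨1,[(4,1),(4,0),(22,0)]⟩,⟨0,[(5,0),(8,1)]⟩⟩,
  .o ⟨false,0,⟨0,[(4,0)]⟩,⟨9,[(2,3),(6,0),(1,0),(12,3),(4,4),(5,2)]⟩⟩,.a ⟨true,0,⟨0,[(14,1),(7,0)]⟩,
  ⟨0,[(25,0)]⟩⟩ ⟨true,0,⟨2,[(9,0),(16,1)]⟩,⟨0,[(33,0),(1,0)]⟩⟩ ⟨false,0,⟨2,[(0,0),(7,0),(0,2)]⟩,⟨0,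
  [(5,0),(8,1)]⟩⟩,.o ⟨false,0,⟨0,[(14,0)]⟩,⟨13,[(2,1),(6,2),(1,1),(3,5),(13,9),(2,0)]⟩⟩]⟩) (.Q [0,0,
  0,-1,0,0,1,0,0,0,-1] (.p false [0,0,1] [] (⟨0,[(28,0)]⟩,⟨0,[(27,0)]⟩) .k 0 (⟨0,[]⟩,⟨0,[]⟩) .k .k)
  (.R ⟨0,false,false,true,[0,0,1],[0,1],[1,1,1],(⟨0,[(29,0)]⟩,⟨0,[(28,0)]⟩),(⟨0,[(32,0)]⟩,⟨0,[(31,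
  0)]⟩),⟨0,[(18,0)]⟩,.k,.k,.k,.k,.k,.k,⟨true,0,⟨0,[(36,0)]⟩,⟨0,[(1,0),(9,1)]⟩⟩,⟨false,1,⟨0,[(15,0),
  (21,0)]⟩,⟨0,[(26,0)]⟩⟩,⟨false,0,⟨1,[(0,0),(0,0),(25,0)]⟩,⟨2,[(2,0),(10,0),(23,0),(0,0)]⟩⟩,⟨true,0,
  ⟨0,[(14,0)]⟩,⟨5,[(0,2),(1,2),(7,1),(16,0)]⟩⟩,⟨false,0,⟨0,[]⟩,⟨0,[]⟩⟩,⟨false,0,⟨0,[]⟩,⟨0,[]⟩⟩,[.o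
  ⟨false,0,⟨0,[(35,0)]⟩,⟨1,[(30,0),(5,1),(1,0)]⟩⟩,.e ⟨false,0,⟨0,[]⟩,⟨6,[(3,1),(8,1),(3,1),(13,0),
  (2,0),(3,1)]⟩⟩ ⟨false,1,⟨8,[(3,3),(8,2),(0,1),(1,0),(18,5)]⟩,⟨0,[(0,0)]⟩⟩,.a ⟨true,0,⟨1,[(16,0),
  (11,0),(0,0)]⟩,⟨0,[(15,0)]⟩⟩ ⟨false,0,⟨2,[(10,0),(16,1)]⟩,⟨1,[(37,0),(0,0)]⟩⟩ ⟨true,0,⟨3,[(7,0),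
  (1,0),(4,1),(0,1),(17,0)]⟩,⟨0,[(0,0)]⟩⟩,.o ⟨false,0,⟨0,[(26,0)]⟩,⟨1,[(15,1),(14,0),(6,0)]⟩⟩]⟩)
  (.R ⟨0,false,false,true,[0,0,1],[0,1],[1,1,1],(⟨0,[(29,0)]⟩,⟨0,[(28,0)]⟩),(⟨0,[(32,0)]⟩,⟨0,[(31,
  0)]⟩),⟨0,[(18,0)]⟩,.k,.k,.k,.k,.k,.k,⟨true,0,⟨0,[(36,0)]⟩,⟨0,[(0,1),(0,0),(2,1),(25,0),(5,1),(1,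
  0)]⟩⟩,⟨false,1,⟨0,[(15,0),(21,0)]⟩,⟨0,[(26,0)]⟩⟩,⟨false,0,⟨5,[(1,2),(8,0),(16,1),(8,2)]⟩,⟨2,[(2,
  0),(10,0),(23,0),(0,0)]⟩⟩,⟨true,0,⟨0,[(14,0)]⟩,⟨1,[(2,0),(7,0),(25,0)]⟩⟩,⟨false,0,⟨0,[]⟩,⟨0,[]⟩⟩,
  ⟨false,0,⟨0,[]⟩,⟨0,[]⟩⟩,[.o ⟨false,0,⟨0,[(35,0)]⟩,⟨1,[(30,0),(5,1),(1,0)]⟩⟩,.a ⟨true,0,⟨3,[(0,0),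
  (2,1),(0,2),(8,0),(2,0)]⟩,⟨0,[(36,0)]⟩⟩ ⟨false,0,⟨0,[]⟩,⟨6,[(3,1),(8,1),(3,1),(13,0),(2,0),(3,
  1)]⟩⟩ ⟨true,0,⟨0,[(0,0)]⟩,⟨2,[(10,1),(16,0),(8,2)]⟩⟩,.e ⟨false,0,⟨2,[(10,0),(16,1)]⟩,⟨1,[(37,0),
  (0,0)]⟩⟩ ⟨false,0,⟨0,[(0,0)]⟩,⟨17,[(3,1),(2,5),(3,10),(1,4),(23,14),(1,4)]⟩⟩,.o ⟨false,0,⟨0,[(26,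
  0)]⟩,⟨1,[(15,1),(14,0),(6,0)]⟩⟩]⟩)))) (.R ⟨0,false,false,true,[0,1,-1],[0,0,1],[1,1,1,1,0,0,0,-1],
  (⟨0,[(15,0)]⟩,⟨0,[(26,0),(1,0)]⟩),(⟨0,[(26,0)]⟩,⟨0,[(25,0)]⟩),⟨0,[(26,0)]⟩,.k,.k,.k,(.r (-1) ⟨2,
  [(5,2),(1,1),(14,2),(1,0),(10,2)]⟩ ⟨1,[(0,1),(11,3),(21,0),(0,0)]⟩),.k,.k,⟨false,1,⟨2,[(3,0),(1,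
  2),(1,0),(14,1),(12,1)]⟩,⟨1,[(0,1),(11,3),(21,0),(0,0)]⟩⟩,⟨true,0,⟨0,[(7,0)]⟩,⟨0,[(12,1)]⟩⟩,
  ⟨false,0,⟨0,[]⟩,⟨1,[(16,0),(0,0),(17,0)]⟩⟩,⟨true,(-1),⟨0,[(0,0)]⟩,⟨0,[(11,0),(10,0),(12,0)]⟩⟩,
  ⟨false,0,⟨0,[]⟩,⟨0,[]⟩⟩,⟨false,0,⟨0,[]⟩,⟨0,[]⟩⟩,[.e ⟨false,0,⟨0,[(5,0)]⟩,⟨7,[(0,1),(8,1),(2,3),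
  (20,3),(0,2),(0,4)]⟩⟩ ⟨false,0,⟨5,[(0,0),(6,0),(5,1),(7,3),(5,0),(3,0)]⟩,⟨0,[(3,0),(8,1)]⟩⟩,.o
  ⟨false,0,⟨0,[(2,0)]⟩,⟨1,[(22,1),(4,0),(7,0)]⟩⟩,.a ⟨true,0,⟨0,[(12,1),(7,0)]⟩,⟨0,[(23,0)]⟩⟩ ⟨true,
  0,⟨2,[(5,2),(1,0),(16,1)]⟩,⟨0,[(0,0),(2,0),(8,1)]⟩⟩ ⟨false,0,⟨8,[(0,1),(5,2),(0,6),(1,0),(25,0)]⟩,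
  ⟨0,[(3,0),(8,1)]⟩⟩,.o ⟨false,0,⟨0,[(12,0)]⟩,⟨11,[(3,2),(3,5),(1,0),(0,0),(5,0),(0,0),(9,5),(2,
  1)]⟩⟩]⟩))) (.R ⟨0,false,false,true,[0,1,-1],[0,1],[1,1,1],(⟨0,[(13,0)]⟩,⟨0,[(24,0),(1,0)]⟩),(⟨0,
  [(27,0)]⟩,⟨0,[(26,0)]⟩),⟨0,[(24,0)]⟩,.k,.k,.k,.k,.k,.k,⟨true,0,⟨0,[(31,0)]⟩,⟨1,[(0,1),(1,0),(1,0),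
  (0,0)]⟩⟩,⟨false,1,⟨7,[(1,2),(5,0),(0,0),(2,3),(13,1),(2,1),(3,0)]⟩,⟨0,[(10,0)]⟩⟩,⟨false,0,⟨0,[(6,
  0),(24,0)]⟩,⟨0,[(3,0),(29,0)]⟩⟩,⟨true,0,⟨0,[(19,0)]⟩,⟨0,[(0,0)]⟩⟩,⟨false,0,⟨0,[]⟩,⟨0,[]⟩⟩,⟨false,
  0,⟨0,[]⟩,⟨0,[]⟩⟩,[.o ⟨false,0,⟨0,[(30,0)]⟩,⟨1,[(25,0),(5,1),(1,0)]⟩⟩,.a ⟨true,0,⟨0,[(0,0),(3,0),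
  (13,0)]⟩,⟨0,[(31,0)]⟩⟩ ⟨false,0,⟨0,[]⟩,⟨5,[(1,2),(5,0),(0,0),(5,0),(0,0),(12,1)]⟩⟩ ⟨true,0,⟨0,[(0,
  0),(1,0),(2,0)]⟩,⟨0,[(10,0),(20,0)]⟩⟩,.e ⟨false,0,⟨2,[(5,0),(16,1)]⟩,⟨1,[(32,0),(0,0)]⟩⟩ ⟨false,0,
  ⟨0,[(0,0),(1,0),(2,0)]⟩,⟨1,[(10,1),(20,1),(0,0),(0,0)]⟩⟩,.o ⟨false,0,⟨0,[(10,0)]⟩,⟨11,[(1,2),(3,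
  5),(1,0),(0,0),(5,0),(0,0),(9,5),(2,1)]⟩⟩]⟩))) (.S ⟨1,0,[0,0,0,-1,0,0,0,-1],[1,0,-1],[0,1,0,-1,0,
  0,0,-1],(⟨0,[(21,0)]⟩,⟨0,[(22,0)]⟩),⟨0,[(10,0)]⟩,.k,.k,⟨false,0,⟨0,[(29,0)]⟩,⟨1,[(1,0),(4,0),(24,
  0)]⟩⟩,⟨true,0,⟨0,[(29,0)]⟩,⟨0,[(28,0)]⟩⟩,⟨true,0,⟨0,[(33,0)]⟩,⟨0,[]⟩⟩,⟨false,1,⟨1,[(12,0),(0,0),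
  (17,0)]⟩,⟨0,[]⟩⟩,[.a ⟨true,0,⟨0,[(0,0),(7,0)]⟩,⟨0,[(2,0),(13,0)]⟩⟩ ⟨false,0,⟨0,[(0,0),(26,0),(1,
  0)]⟩,⟨0,[(6,0)]⟩⟩ ⟨true,0,⟨0,[(0,0)]⟩,⟨0,[(2,0)]⟩⟩,.o ⟨false,1,⟨1,[(0,1),(7,1),(14,0),(7,0)]⟩,⟨2,
  [(2,0),(0,0),(0,0),(12,0),(9,1)]⟩⟩,.a ⟨true,0,⟨0,[(8,0)]⟩,⟨1,[(9,0),(11,0),(0,0)]⟩⟩ ⟨false,0,⟨0,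
  [(0,0)]⟩,⟨0,[(6,0)]⟩⟩ ⟨true,0,⟨0,[(0,0)]⟩,⟨2,[(2,1),(1,0),(21,0),(0,0)]⟩⟩,.a ⟨true,0,⟨0,[(20,0)]⟩,
  ⟨0,[(16,0)]⟩⟩ ⟨true,0,⟨0,[(0,0),(26,0),(1,0)]⟩,⟨0,[(2,0)]⟩⟩ ⟨false,1,⟨1,[(0,1),(29,0),(0,0)]⟩,⟨0,
  [(2,0)]⟩⟩]⟩)))))) (.Q [0,0,0,-1,0,0,1,0,0,0,-1] (.p false [0,0,1] [] (⟨0,[(17,0)]⟩,⟨0,[(16,0)]⟩)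
  .k 0 (⟨0,[]⟩,⟨0,[]⟩) .k .k) (.R ⟨0,false,false,true,[0,0,1],[0,1],[1,1,1],(⟨0,[(18,0)]⟩,⟨0,[(17,
  0)]⟩),(⟨0,[(21,0)]⟩,⟨0,[(20,0)]⟩),⟨0,[(7,0)]⟩,.k,.k,.k,.k,.k,.k,⟨true,0,⟨0,[(25,0)]⟩,⟨1,[(1,0),(0,
  0),(10,0),(2,0)]⟩⟩,⟨false,1,⟨0,[(4,0),(21,0)]⟩,⟨0,[(15,0)]⟩⟩,⟨true,(-1),⟨0,[(1,0),(2,0),(8,0),(11,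
  0)]⟩,⟨1,[(2,0),(1,0),(8,0),(11,0),(0,0)]⟩⟩,⟨false,0,⟨2,[(1,0),(1,0),(0,1),(18,0),(3,0)]⟩,⟨0,[(0,
  0),(1,0),(22,0)]⟩⟩,⟨false,0,⟨0,[]⟩,⟨0,[]⟩⟩,⟨false,0,⟨0,[]⟩,⟨0,[]⟩⟩,[.o ⟨false,0,⟨0,[(24,0)]⟩,⟨1,
  [(19,0),(5,1),(1,0)]⟩⟩,.e ⟨false,0,⟨0,[]⟩,⟨1,[(8,0),(0,0),(16,0)]⟩⟩ ⟨false,1,⟨1,[(2,0),(0,0),(0,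
  0),(21,0)]⟩,⟨0,[(0,0)]⟩⟩,.a ⟨true,0,⟨1,[(5,0),(11,0),(0,0)]⟩,⟨0,[(4,0)]⟩⟩ ⟨false,0,⟨1,[(15,0),(0,
  0)]⟩,⟨1,[(26,0),(0,0)]⟩⟩ ⟨true,0,⟨0,[(4,0),(19,0)]⟩,⟨0,[(0,0)]⟩⟩,.o ⟨false,0,⟨0,[(15,0)]⟩,⟨1,[(4,
  1),(14,0),(6,0)]⟩⟩]⟩) (.R ⟨0,false,false,true,[0,0,1],[0,1],[1,1,1],(⟨0,[(18,0)]⟩,⟨0,[(17,0)]⟩),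
  (⟨0,[(21,0)]⟩,⟨0,[(20,0)]⟩),⟨0,[(7,0)]⟩,.k,.k,.k,.k,.k,.k,⟨true,0,⟨0,[(25,0)]⟩,⟨0,[(0,0),(14,
  0)]⟩⟩,⟨false,1,⟨0,[(4,0),(21,0)]⟩,⟨0,[(15,0)]⟩⟩,⟨true,(-1),⟨0,[(1,0),(2,0),(8,0),(11,0)]⟩,⟨1,[(2,
  0),(1,0),(8,0),(11,0),(0,0)]⟩⟩,⟨false,0,⟨5,[(0,3),(0,1),(12,1),(11,0),(0,0)]⟩,⟨0,[(13,0),(11,0),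
  (1,0)]⟩⟩,⟨false,0,⟨0,[]⟩,⟨0,[]⟩⟩,⟨false,0,⟨0,[]⟩,⟨0,[]⟩⟩,[.o ⟨false,0,⟨0,[(24,0)]⟩,⟨1,[(19,0),(5,
  1),(1,0)]⟩⟩,.a ⟨true,0,⟨1,[(0,1),(4,0),(11,0),(0,0)]⟩,⟨0,[(25,0)]⟩⟩ ⟨false,0,⟨0,[]⟩,⟨1,[(8,0),(0,
  0),(16,0)]⟩⟩ ⟨true,0,⟨0,[(0,0)]⟩,⟨0,[(15,0),(9,0)]⟩⟩,.e ⟨false,0,⟨1,[(15,0),(0,0)]⟩,⟨1,[(26,0),(0,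
  0)]⟩⟩ ⟨false,0,⟨0,[(0,0)]⟩,⟨3,[(5,1),(2,0),(0,0),(9,0),(5,3),(1,1)]⟩⟩,.o ⟨false,0,⟨0,[(15,0)]⟩,⟨1,
  [(4,1),(14,0),(6,0)]⟩⟩]⟩))) (.S ⟨1,1,[],[1,0,-1],[1,1],(⟨0,[(15,0)]⟩,⟨0,[(16,0)]⟩),⟨0,[(4,0)]⟩,.k,
  .k,⟨true,0,⟨0,[(2,0),(8,0)]⟩,⟨2,[(0,1),(0,0),(11,0),(7,0),(3,1)]⟩⟩,⟨false,1,⟨0,[(11,0),(13,0)]⟩,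
  ⟨1,[(0,0),(0,0),(0,0),(22,0)]⟩⟩,⟨false,1,⟨0,[(2,0),(8,0),(10,0),(2,0)]⟩,⟨0,[(0,0),(24,0)]⟩⟩,⟨true,
  1,⟨0,[(11,0),(10,0),(2,0)]⟩,⟨0,[(0,0),(1,0)]⟩⟩,[.fo,.o ⟨false,1,⟨1,[(17,0),(7,0)]⟩,⟨0,[(27,0)]⟩⟩,
  .e ⟨false,0,⟨0,[]⟩,⟨1,[(6,0),(0,0),(17,0)]⟩⟩ ⟨false,1,⟨3,[(3,1),(2,0),(0,0),(9,0),(7,1)]⟩,⟨0,[(2,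
  0)]⟩⟩,.a ⟨true,0,⟨0,[(14,0)]⟩,⟨0,[(10,0)]⟩⟩ ⟨true,0,⟨2,[(0,0),(1,0),(8,0),(9,0),(2,0)]⟩,⟨1,[(13,
  0),(0,0)]⟩⟩ ⟨false,1,⟨1,[(10,1),(6,0),(7,0)]⟩,⟨0,[(14,0)]⟩⟩]⟩)) (.R ⟨2,true,false,false,[0,1],[0,
  0,1],[0,0,1],(⟨0,[]⟩,⟨0,[]⟩),(⟨0,[(15,0)]⟩,⟨0,[(14,0)]⟩),⟨0,[]⟩,.k,.k,.k,.k,.k,.k,⟨false,1,⟨3,[(2,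
  1),(2,0),(0,0),(4,3),(4,0),(7,1)]⟩,⟨0,[(0,0),(0,0),(18,0)]⟩⟩,⟨true,0,⟨0,[(12,0)]⟩,⟨0,[(1,0)]⟩⟩,
  ⟨true,0,⟨0,[(22,0)]⟩,⟨0,[(21,0)]⟩⟩,⟨false,0,⟨0,[(0,0)]⟩,⟨0,[(11,0),(9,0),(2,0)]⟩⟩,⟨false,1,⟨1,[(5,
  0),(0,0),(17,0)]⟩,⟨0,[]⟩⟩,⟨true,0,⟨0,[(0,0),(20,0)]⟩,⟨0,[(11,0)]⟩⟩,[]⟩))

theorem ok1 : chk K t1 r0 = true := by decide +kernel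

noncomputable def t2 : Tre :=
  .Q [0,0,0,0,0,0,1,0,0,0,-1] (.p false [0,0,1] [] (⟨0,[(13,0)]⟩,⟨0,[(12,0)]⟩) .k 0 (⟨0,[]⟩,⟨0,[]⟩)
  .k .k) t0 t1

theorem ok2 : chk K t2 base = true :=
  chk_Q (e' := [0,0,0,0,0,0,-1,0,0,0,1]) (by decide +kernel) (by decide +kernel) ok0 ok1

theorem closed {p a b c J l q : ℤ} {D dl : ℝ} {Cl : ℤ → ℤ → ℤ → ℤ → ℝ → Prop}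
    (W : World p a b c J (-1) l q D dl Cl) (g : G0 p a b c J D)
    {N X R : ℤ} {I : ℝ} (hk : KCl p l Cl N X R I) (kz : KF a b D (X + (-1 : ℤ) * I) (X + (-1 : ℤ) * I + R) I)
    {Ne Xe : ℤ} {Ie : ℝ} (he : EFac p (-1) D Cl 1 Ne Xe Ie)
    (hkf : ∀ kf ∈ (kfY (-1) [0,0,0,0,0,0,1,0,0,0,-1]), KOk p l Cl (-1)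
      (xv [1, a, b, c, p, J, X, R, Xe] [D, I, Ie]) N kf)
    (h0 : 1 ≤ -(c : ℝ))
    (h1 : 1 ≤ (a : ℝ) - (b : ℝ) + (c : ℝ))
    (h2 : 1 ≤ 2 * (a : ℝ) - (b : ℝ))
    (h3 : 0 < -(b : ℝ) + (X : ℝ) + D - I)
    (h4 : 0 < (J : ℝ) - I)
    (h5 : 0 < -(J : ℝ) + D - I)
    (h6 : 0 < 2 * (X : ℝ) + D - 2 * I) : False := by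
  have g1 := g.a2
  have g2 := g.b2
  have g3 := g.pa
  have g4 := g.pb
  have g5 := g.J1
  have g6 := g.JD
  have g7 := g.D2
  have g8 := g.ca
  have g9 := g.ca'
  have k1 := kz.I0
  have k2 := kz.ID
  have k3 := kz.z1
  have k4 := kz.z2
  have k5 := kz.s1
  have k6 := kz.s2
  have e1 := he.I0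
  have e2 := he.ID
  have e3 := he.x0
  have e4 := he.xp
  push_cast at *
  refine (val_E W.toBase hk he (row := [1]) (by simp) (by simp) (kfY (-1) [0,0,0,0,0,0,1,0,0,0,-1])).sound W rfl (Nk := N)
    (fun kf _ _ => ⟨_, rfl⟩) hkf ?_ ok2
  · simp only [base, List.forall_mem_cons, List.not_mem_nil, false_imp_iff, implies_true,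
      and_true, hld, xv, evg_cons, evg_nil, List.map_cons, List.map_nil, List.cons_append,
      List.nil_append, if_true, if_false, Bool.false_eq_true]
    push_cast
    refine ⟨?_, ?_, ?_, ?_, ?_, ?_, ?_, ?_, ?_, ?_, ?_, ?_, ?_, ?_, ?_, ?_, ?_, ?_, ?_, ?_, ?_, ?_, ?_, ?_, ?_⟩ <;> linarith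

end Helper25.S1T.Ymm_1b
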