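import Pool.Agent.Helper25.S1T.Ymm_1c_q

set_option autoImplicit false
set_option linter.all false

namespace Helper25.S1T.Ymm_1c

open Helper25.KG Helper25.KW Helper55.KE Helper11.CT

noncomputable def t30 : Tre :=
  (.Q [0,1,0,-1,-1,0,1,1,0,1,-1] (.p false [0,0,1] [1] (⟨0,[(25,0)]⟩,⟨0,[(24,0)]⟩) .k 1 (⟨0,[]⟩,⟨0,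
  []⟩) .k .k) (.I [0,0,2,2,0,0,0,-1] (.Q [0,-1,0,0,1,0,-1,-1,0,-1,1] (.p true [0,0,1] [1] (⟨0,[(27,
  0)]⟩,⟨0,[(26,0)]⟩) .k 1 (⟨0,[]⟩,⟨0,[]⟩) .k .k) (.I [1,0,0,0,0,0,0,-1] (.R ⟨2,true,false,false,[0,
  1],[1,1,-1],[1,0,1,1,0,0,0,-1],(⟨0,[]⟩,⟨0,[]⟩),(⟨0,[(28,0),(3,0)]⟩,⟨0,[(18,0)]⟩),⟨0,[]⟩,.k,.k,.k,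
  .k,.k,.k,⟨true,0,⟨0,[]⟩,⟨1,[(26,0),(0,0)]⟩⟩,⟨false,1,⟨0,[(1,0),(2,0),(1,0),(27,0)]⟩,⟨1,[(16,0),
  (11,0),(0,0)]⟩⟩,⟨true,0,⟨0,[(0,0)]⟩,⟨1,[(4,0),(1,1),(26,0)]⟩⟩,⟨false,1,⟨0,[(1,0)]⟩,⟨4,[(3,3),(4,
  1),(4,0),(5,0),(4,0),(13,1)]⟩⟩,⟨false,1,⟨0,[(9,0)]⟩,⟨0,[(4,0),(1,0)]⟩⟩,⟨true,1,⟨14,[(1,6),(3,0),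
  (2,4),(16,7),(4,3),(3,2)]⟩,⟨0,[(3,0)]⟩⟩,[]⟩) (.R ⟨2,true,false,false,[0,1],[1,1,-1],[1,0,1,1],(⟨0,
  []⟩,⟨0,[]⟩),(⟨0,[(28,0),(3,0)]⟩,⟨0,[(18,0)]⟩),⟨0,[]⟩,.k,.k,.k,.k,.k,.k,⟨true,0,⟨0,[(0,0)]⟩,⟨0,[(2,
  0),(1,0)]⟩⟩,⟨false,1,⟨5,[(0,5),(0,3),(2,0),(5,0),(14,1),(4,0),(3,2)]⟩,⟨1,[(16,0),(11,0),(0,0)]⟩⟩,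
  ⟨true,0,⟨0,[]⟩,⟨0,[(40,0)]⟩⟩,⟨false,1,⟨0,[(1,0)]⟩,⟨4,[(3,3),(4,1),(4,0),(5,0),(4,0),(13,1)]⟩⟩,
  ⟨false,1,⟨3,[(8,1),(10,0),(0,0),(17,0)]⟩,⟨0,[(36,0)]⟩⟩,⟨true,1,⟨14,[(1,6),(3,0),(2,4),(16,7),(4,
  3),(3,2)]⟩,⟨0,[(3,0)]⟩⟩,[]⟩)) (.Q [0,0,0,2,0,0,0,0,0,1] (.pp false [-1,1]) (.S ⟨1,0,[0,1,-1,-2],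
  [1,-1],[1,0,-1,-1],(⟨0,[(31,0)]⟩,⟨0,[(32,0)]⟩),⟨0,[(17,0),(0,0)]⟩,.k,(.r (-1) ⟨3,[(4,2),(5,1),(8,
  1),(0,1),(12,0)]⟩ ⟨5,[(5,3),(2,1),(10,0),(0,0),(17,0)]⟩),⟨true,0,⟨0,[]⟩,⟨0,[(40,0)]⟩⟩,⟨false,0,⟨0,
  [(36,0)]⟩,⟨3,[(8,1),(10,0),(0,0),(17,0)]⟩⟩,⟨false,1,⟨3,[(8,1),(10,0),(0,0),(17,0)]⟩,⟨0,[(36,0)]⟩⟩,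
  ⟨true,0,⟨0,[(40,0)]⟩,⟨0,[]⟩⟩,[.o ⟨false,0,⟨2,[(3,0),(0,2),(0,0),(19,0),(4,1),(5,0)]⟩,⟨0,[(8,0)]⟩⟩,
  .a ⟨true,0,⟨0,[(36,1)]⟩,⟨0,[(0,0)]⟩⟩ ⟨false,1,⟨0,[(10,0)]⟩,⟨3,[(5,0),(0,0),(7,0),(4,0),(0,0),(12,
  0)]⟩⟩ ⟨true,0,⟨0,[(4,0)]⟩,⟨5,[(5,3),(2,1),(10,0),(0,0),(17,0)]⟩⟩,.e ⟨false,1,⟨2,[(4,0),(5,0),(8,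
  0),(0,0),(17,0)]⟩,⟨11,[(5,3),(2,1),(10,0),(0,0),(17,0)]⟩⟩ ⟨false,0,⟨0,[(4,0)]⟩,⟨2,[(5,0),(2,1),
  (10,0),(0,0),(17,0)]⟩⟩,.o ⟨false,0,⟨1,[(4,1),(0,1),(24,0),(7,0)]⟩,⟨0,[(37,0)]⟩⟩]⟩) (.Q [0,0,-1,0,
  0,0,0,0,0,1] (.pp false [-1,1]) (.R ⟨2,true,false,false,[0,1],[1,-1],[0,1,1],(⟨0,[]⟩,⟨0,[]⟩),(⟨0,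
  [(32,0)]⟩,⟨0,[(33,0)]⟩),⟨0,[]⟩,.k,.k,.k,(.r 0 ⟨5,[(6,3),(2,1),(10,0),(0,0),(17,0)]⟩ ⟨3,[(5,2),(5,
  1),(8,1),(0,1),(12,0)]⟩),.k,.k,⟨false,0,⟨3,[(6,0),(0,0),(7,0),(4,0),(0,0),(12,0)]⟩,⟨0,[(11,0)]⟩⟩,
  ⟨true,0,⟨3,[(1,1),(4,1),(20,0),(0,0),(2,0),(7,0)]⟩,⟨0,[(0,0)]⟩⟩,⟨false,0,⟨0,[(37,0)]⟩,⟨3,[(9,1),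
  (10,0),(0,0),(17,0)]⟩⟩,⟨true,0,⟨0,[(1,0)]⟩,⟨1,[(0,1),(5,0),(2,0),(24,0)]⟩⟩,⟨true,0,⟨0,[(41,0)]⟩,
  ⟨0,[]⟩⟩,⟨false,1,⟨3,[(1,1),(18,0),(0,0),(9,0),(7,1)]⟩,⟨11,[(0,10),(5,2),(2,2),(7,0),(10,1)]⟩⟩,
  []⟩) (.Q [0,0,0,1,0,0,0,0,0,1] (.pp false [-1,1]) (.R ⟨2,false,false,false,[0,1],[1,-1],[],(⟨0,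
  []⟩,⟨0,[]⟩),(⟨0,[(33,0)]⟩,⟨0,[(34,0)]⟩),⟨0,[]⟩,.k,.k,.k,(.r 0 ⟨5,[(7,3),(2,1),(10,0),(0,0),(17,
  0)]⟩ ⟨3,[(6,2),(5,1),(8,1),(0,1),(12,0)]⟩),.k,.k,⟨true,0,⟨11,[(7,3),(2,1),(10,0),(0,0),(17,0)]⟩,
  ⟨0,[(38,0)]⟩⟩,⟨false,0,⟨0,[(1,0)]⟩,⟨1,[(0,0),(11,0),(2,0),(5,0),(17,0)]⟩⟩,⟨false,1,⟨2,[(6,0),(5,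
  0),(8,0),(0,0),(17,0)]⟩,⟨11,[(7,3),(2,1),(10,0),(0,0),(17,0)]⟩⟩,⟨true,0,⟨0,[(2,0)]⟩,⟨0,[(0,0),(36,
  0)]⟩⟩,⟨false,1,⟨1,[(39,0),(0,0)]⟩,⟨1,[(28,0),(0,0)]⟩⟩,⟨false,1,⟨3,[(2,1),(18,0),(0,0),(9,0),(7,
  1)]⟩,⟨0,[(0,0)]⟩⟩,[.a ⟨true,0,⟨0,[(38,0)]⟩,⟨0,[(0,0)]⟩⟩ ⟨false,1,⟨1,[(21,0),(0,0),(16,0)]⟩,⟨0,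
  []⟩⟩ ⟨true,0,⟨7,[(2,5),(4,1),(20,0),(0,0),(2,0),(7,0)]⟩,⟨0,[(0,0)]⟩⟩,.o ⟨false,1,⟨3,[(2,1),(18,0),
  (0,0),(9,0),(7,1)]⟩,⟨0,[(37,0)]⟩⟩,.o ⟨false,1,⟨1,[(21,0),(0,0),(16,0)]⟩,⟨0,[(1,0)]⟩⟩,.e ⟨false,1,
  ⟨1,[(39,0),(0,0)]⟩,⟨1,[(28,0),(0,0)]⟩⟩ ⟨false,1,⟨3,[(2,1),(18,0),(0,0),(9,0),(7,1)]⟩,⟨0,[(0,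
  0)]⟩⟩]⟩) (.R ⟨2,true,false,false,[0,1],[0,0,1],[0,0,1],(⟨0,[]⟩,⟨0,[]⟩),(⟨0,[(31,0)]⟩,⟨0,[(30,
  0)]⟩),⟨0,[]⟩,.k,.k,.k,.k,.k,.k,⟨true,0,⟨0,[(4,0),(1,0)]⟩,⟨0,[(0,0),(2,0),(25,0),(6,0),(3,0)]⟩⟩,
  ⟨false,0,⟨0,[(13,0)]⟩,⟨0,[(29,0),(9,0)]⟩⟩,⟨true,0,⟨0,[(38,0)]⟩,⟨0,[(37,0)]⟩⟩,⟨false,0,⟨0,[(0,0),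
  (2,0),(36,0)]⟩,⟨3,[(10,1),(10,0),(0,0),(4,3),(12,0)]⟩⟩,⟨false,1,⟨1,[(21,0),(0,0),(17,0)]⟩,⟨0,[]⟩⟩,
  ⟨true,0,⟨1,[(0,0),(2,0),(13,0),(22,0)]⟩,⟨0,[(27,0)]⟩⟩,[]⟩))))) (.S ⟨1,0,[0,0,1,0,0,0,0,1],[0,1,1],
  [1,1,1,1,0,0,0,1],(⟨0,[(27,0),(2,0)]⟩,⟨0,[(15,0)]⟩),⟨0,[(27,0)]⟩,.k,.k,⟨false,0,⟨0,[]⟩,⟨1,[(17,0),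
  (0,0),(17,0)]⟩⟩,⟨true,0,⟨0,[(34,0)]⟩,⟨0,[(33,0)]⟩⟩,⟨true,0,⟨0,[(33,0)]⟩,⟨0,[(34,0)]⟩⟩,⟨false,1,⟨1,
  [(17,0),(0,0),(17,0)]⟩,⟨0,[]⟩⟩,[.o ⟨false,0,⟨2,[(0,0),(3,1),(4,2)]⟩,⟨1,[(23,1),(4,0),(7,0)]⟩⟩,.a
  ⟨true,0,⟨0,[(0,0),(2,0),(17,0),(14,0)]⟩,⟨0,[(23,0)]⟩⟩ ⟨false,0,⟨0,[(0,0),(2,0),(28,0),(3,0)]⟩,⟨19,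
  [(2,11),(4,7),(0,3),(5,5),(2,4),(0,4),(4,11),(4,2)]⟩⟩ ⟨true,0,⟨0,[(0,0),(2,0),(32,0)]⟩,⟨0,[(9,0),
  (13,0)]⟩⟩,.e ⟨false,0,⟨0,[(5,0)]⟩,⟨0,[(2,0),(4,0)]⟩⟩ ⟨false,0,⟨0,[(0,0),(2,0),(32,0)]⟩,⟨6,[(7,2),
  (0,2),(5,1),(8,3),(4,0),(2,0)]⟩⟩,.o ⟨false,0,⟨0,[(9,0)]⟩,⟨1,[(25,1),(2,0),(6,0)]⟩⟩]⟩)) (.Q [0,0,0,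
  0,0,0,-1,-1,0,0,1] (.p true [0,0,1] [] (⟨0,[(26,0)]⟩,⟨0,[(25,0)]⟩) .k 0 (⟨0,[]⟩,⟨0,[]⟩) .k .k)
  (.R ⟨1,false,false,false,[0,0,1],[1,-1],[1],(⟨0,[(27,0)]⟩,⟨0,[(26,0)]⟩),(⟨0,[(29,0)]⟩,⟨0,[(30,
  0)]⟩),⟨0,[(16,0)]⟩,.k,.k,.k,.k,.k,.k,⟨true,0,⟨11,[(3,3),(2,1),(10,0),(0,0),(17,0)]⟩,⟨0,[(34,0)]⟩⟩,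
  ⟨false,1,⟨1,[(25,1),(2,0),(6,0)]⟩,⟨0,[(21,0)]⟩⟩,⟨true,0,⟨0,[(0,0),(8,0)]⟩,⟨1,[(2,0),(1,1),(26,
  0)]⟩⟩,⟨false,1,⟨0,[(1,0),(32,1)]⟩,⟨0,[(4,0),(16,0)]⟩⟩,⟨false,1,⟨0,[(7,0)]⟩,⟨0,[(2,0),(1,0)]⟩⟩,
  ⟨false,1,⟨0,[(1,0),(32,0)]⟩,⟨3,[(2,1),(1,3),(9,0),(6,1),(4,0),(0,0)]⟩⟩,[.a ⟨true,0,⟨0,[(34,0)]⟩,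
  ⟨0,[(0,0),(3,0),(16,0)]⟩⟩ ⟨true,0,⟨0,[]⟩,⟨1,[(24,0),(0,0)]⟩⟩ ⟨false,1,⟨1,[(2,0),(5,0),(16,1),(2,
  0),(3,0)]⟩,⟨7,[(3,1),(2,1),(7,0),(6,5),(4,0),(0,0)]⟩⟩,.o ⟨false,1,⟨1,[(28,0),(5,1),(1,0)]⟩,⟨0,
  [(33,0)]⟩⟩,.o ⟨false,0,⟨0,[(9,0)]⟩,⟨1,[(25,1),(2,0),(6,0)]⟩⟩,.o ⟨false,0,⟨0,[(24,0)]⟩,⟨3,[(1,1),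
  (0,2),(1,1),(3,0),(16,1),(2,0),(3,2)]⟩⟩]⟩) (.S ⟨1,0,[0,1,1,0,0,0,0,1],[0,1,1],[1,0,1,1,0,0,0,1],
  (⟨0,[(27,0),(2,0)]⟩,⟨0,[(15,0)]⟩),⟨0,[(27,0)]⟩,.k,.k,⟨true,0,⟨0,[]⟩,⟨0,[(38,0)]⟩⟩,⟨false,0,⟨0,
  [(34,0)]⟩,⟨3,[(6,1),(10,0),(0,0),(17,0)]⟩⟩,⟨false,1,⟨3,[(6,1),(10,0),(0,0),(17,0)]⟩,⟨0,[(34,0)]⟩⟩,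
  ⟨true,0,⟨0,[(38,0)]⟩,⟨0,[]⟩⟩,[.o ⟨false,0,⟨0,[(22,0)]⟩,⟨0,[(1,0),(32,0)]⟩⟩,.o ⟨false,0,⟨0,[(0,
  0)]⟩,⟨1,[(23,1),(4,0),(7,0)]⟩⟩,.a ⟨true,0,⟨0,[(21,0)]⟩,⟨0,[(25,0)]⟩⟩ ⟨true,0,⟨0,[(5,0)]⟩,⟨1,[(1,
  0),(0,2),(0,0),(5,0),(11,0),(1,0),(8,0)]⟩⟩ ⟨false,0,⟨0,[(4,0),(29,0)]⟩,⟨1,[(1,0),(0,0),(4,0),(13,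
  0)]⟩⟩,.o ⟨false,0,⟨0,[(9,0)]⟩,⟨1,[(25,1),(2,0),(6,0)]⟩⟩]⟩)))

theorem ok30 : chk K t30 r22 = true := by decide +kernel

noncomputable def t32 : Tre :=
  (.S ⟨1,0,[0,0,1,0,0,0,0,1],[0,1,1],[0,1,1,0,0,0,0,1],(⟨0,[(26,0),(2,0)]⟩,⟨0,[(14,0)]⟩),⟨0,[(26,
  0)]⟩,.k,.k,⟨false,0,⟨0,[(33,0)]⟩,⟨3,[(5,1),(10,0),(0,0),(17,0)]⟩⟩,⟨true,0,⟨0,[(33,0)]⟩,⟨0,[(32,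
  0)]⟩⟩,⟨true,0,⟨0,[(37,0)]⟩,⟨0,[]⟩⟩,⟨false,1,⟨1,[(16,0),(0,0),(17,0)]⟩,⟨0,[]⟩⟩,[.o ⟨false,0,⟨0,[(0,
  0),(7,0)]⟩,⟨1,[(22,1),(4,0),(7,0)]⟩⟩,.e ⟨false,0,⟨0,[(0,0)]⟩,⟨43,[(2,11),(3,23),(6,9),(2,2),(0,2),
  (4,19),(4,4),(2,7)]⟩⟩ ⟨false,1,⟨1,[(0,1),(15,0),(0,0),(17,0)]⟩,⟨0,[(1,0)]⟩⟩,.a ⟨true,0,⟨0,[(20,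
  0)]⟩,⟨0,[(24,0)]⟩⟩ ⟨false,0,⟨1,[(0,1),(22,0),(0,0)]⟩,⟨0,[(1,0),(33,0)]⟩⟩ ⟨true,0,⟨1,[(0,1),(22,0),
  (0,0)]⟩,⟨0,[(1,0)]⟩⟩,.o ⟨false,0,⟨0,[(8,0)]⟩,⟨1,[(24,1),(2,0),(6,0)]⟩⟩]⟩)

theorem ok32 : chk K t32 l25 = true := by decide +kernel

noncomputable def t33 : Tre :=
  (.Q [0,0,-1,0,1,0,-1,0,0,-1,1] (.p true [0,0,1] [1] (⟨0,[(27,0)]⟩,⟨0,[(26,0)]⟩) .k 1 (⟨0,[]⟩,⟨0,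
  []⟩) .k .k) (.Q [0,-1,0,-1,0,0,1,1,0,1,-1] (.p false [0,0,1] [1] (⟨0,[(28,0)]⟩,⟨0,[(27,0)]⟩) .k 1
  (⟨0,[]⟩,⟨0,[]⟩) .k .k) (.S ⟨1,0,[0,0,0,-1,0,0,0,1],[0,0,1],[1,1],(⟨0,[(29,0)]⟩,⟨0,[(28,0)]⟩),⟨0,
  [(18,0)]⟩,.k,.k,⟨false,0,⟨0,[(3,0)]⟩,⟨3,[(0,1),(0,1),(4,1),(12,0),(0,0),(17,0)]⟩⟩,⟨true,0,⟨0,[(36,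
  0)]⟩,⟨0,[(35,0)]⟩⟩,⟨true,0,⟨1,[(3,0),(10,0),(19,0)]⟩,⟨0,[(2,0)]⟩⟩,⟨false,1,⟨1,[(19,0),(0,0),(17,
  0)]⟩,⟨0,[]⟩⟩,[.o ⟨false,0,⟨0,[(2,0),(8,0)]⟩,⟨2,[(1,0),(1,2),(4,0),(18,1),(2,0),(3,0)]⟩⟩,.a ⟨true,
  0,⟨0,[(0,0)]⟩,⟨0,[(3,0),(23,0),(6,0)]⟩⟩ ⟨true,0,⟨0,[]⟩,⟨1,[(26,0),(0,0)]⟩⟩ ⟨false,1,⟨0,[(0,0),(0,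
  0)]⟩,⟨1,[(3,0),(10,0),(19,0)]⟩⟩,.o ⟨false,0,⟨0,[(11,0)]⟩,⟨3,[(1,1),(17,0),(0,0),(6,1),(2,0)]⟩⟩,.o
  ⟨false,0,⟨0,[(26,0)]⟩,⟨0,[(1,0)]⟩⟩]⟩) (.Q [0,0,0,0,0,0,1,1,0,0,-1] (.p false [0,0,1] [] (⟨0,[(29,
  0)]⟩,⟨0,[(28,0)]⟩) .k 0 (⟨0,[]⟩,⟨0,[]⟩) .k .k) (.S ⟨1,0,[0,0,1,0,0,0,0,1],[0,1,1],[1,1,1,1,0,0,0,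
  1],(⟨0,[(30,0),(2,0)]⟩,⟨0,[(18,0)]⟩),⟨0,[(30,0)]⟩,.k,.k,⟨false,0,⟨0,[]⟩,⟨1,[(20,0),(0,0),(17,
  0)]⟩⟩,⟨true,0,⟨0,[(37,0)]⟩,⟨0,[(36,0)]⟩⟩,⟨true,0,⟨0,[(36,0)]⟩,⟨0,[(37,0)]⟩⟩,⟨false,1,⟨1,[(20,0),
  (0,0),(17,0)]⟩,⟨0,[]⟩⟩,[.o ⟨false,0,⟨0,[(0,0)]⟩,⟨1,[(26,1),(4,0),(7,0)]⟩⟩,.o ⟨false,1,⟨0,[(25,0),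
  (13,0)]⟩,⟨0,[(1,0),(35,0)]⟩⟩,.a ⟨true,0,⟨0,[(24,0)]⟩,⟨0,[(28,0)]⟩⟩ ⟨false,0,⟨0,[(8,0)]⟩,⟨2,[(4,0),
  (1,0),(3,1),(26,2)]⟩⟩ ⟨true,0,⟨3,[(3,1),(3,1),(19,0),(0,0)]⟩,⟨0,[(5,0)]⟩⟩,.o ⟨false,0,⟨0,[(12,
  0)]⟩,⟨3,[(2,1),(17,0),(0,0),(6,1),(2,0)]⟩⟩]⟩) (.R ⟨1,false,false,false,[0,0,1],[1,-1],[1],(⟨0,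
  [(30,0)]⟩,⟨0,[(29,0)]⟩),(⟨0,[(32,0)]⟩,⟨0,[(33,0)]⟩),⟨0,[(19,0)]⟩,.k,.k,.k,.k,.k,.k,⟨true,0,⟨0,[(4,
  0),(2,0)]⟩,⟨0,[(37,0)]⟩⟩,⟨false,1,⟨3,[(2,1),(17,0),(0,0),(6,1),(2,0)]⟩,⟨0,[(24,0)]⟩⟩,⟨true,0,⟨0,
  [(4,0)]⟩,⟨1,[(3,0),(3,0),(26,0)]⟩⟩,⟨false,1,⟨1,[(0,1),(30,0),(5,1),(1,0)]⟩,⟨0,[(7,0),(16,0)]⟩⟩,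
  ⟨false,1,⟨0,[(10,0)]⟩,⟨0,[(3,0)]⟩⟩,⟨false,1,⟨1,[(0,1),(30,0),(7,0)]⟩,⟨3,[(3,1),(3,1),(9,0),(6,1),
  (4,0),(0,0)]⟩⟩,[.a ⟨true,0,⟨0,[(37,0)]⟩,⟨0,[(0,0),(6,0),(16,0)]⟩⟩ ⟨true,0,⟨0,[]⟩,⟨1,[(27,0),(0,
  0)]⟩⟩ ⟨false,1,⟨2,[(2,0),(0,0),(2,0),(19,0),(1,0),(2,0)]⟩,⟨0,[(4,0),(2,0),(16,0)]⟩⟩,.o ⟨false,1,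
  ⟨1,[(31,0),(5,1),(1,0)]⟩,⟨0,[(36,0)]⟩⟩,.o ⟨false,0,⟨0,[(12,0)]⟩,⟨3,[(2,1),(17,0),(0,0),(6,1),(2,
  0)]⟩⟩,.o ⟨false,0,⟨0,[(27,0)]⟩,⟨0,[(2,0)]⟩⟩]⟩))) (.Q [0,-1,0,1,0,0,1,1,0,1,-1] (.p false [0,0,1]
  [1] (⟨0,[(28,0)]⟩,⟨0,[(27,0)]⟩) .k 1 (⟨0,[]⟩,⟨0,[]⟩) .k .k) (.R ⟨1,false,false,false,[1,-1],[0,-1,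
  1],[1,0,-1,-1],(⟨0,[(31,0)]⟩,⟨0,[(32,0)]⟩),(⟨0,[(18,0)]⟩,⟨0,[(28,0),(3,0)]⟩),⟨0,[(17,0),(0,0)]⟩,
  .k,.k,(.r (-1) ⟨6,[(5,3),(13,2),(0,2),(12,1),(2,5)]⟩ ⟨0,[(3,1),(2,1)]⟩),.k,.k,.k,⟨true,0,⟨0,[(3,
  0)]⟩,⟨3,[(2,1),(3,1),(19,0),(0,0)]⟩⟩,⟨false,0,⟨0,[(23,0)]⟩,⟨1,[(27,1),(2,0),(6,0)]⟩⟩,⟨true,0,⟨0,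
  []⟩,⟨0,[(40,0)]⟩⟩,⟨false,0,⟨31,[(0,18),(0,8),(0,12),(2,2),(7,1),(2,1),(2,1),(18,5)]⟩,⟨1,[(25,1),
  (4,0),(7,0)]⟩⟩,⟨false,1,⟨3,[(8,1),(10,0),(0,0),(17,0)]⟩,⟨0,[(36,0)]⟩⟩,⟨false,0,⟨0,[(0,0)]⟩,⟨1,
  [(25,1),(4,0),(5,1),(1,0)]⟩⟩,[.o ⟨false,0,⟨0,[(2,0),(8,0)]⟩,⟨1,[(3,1),(23,1),(2,0),(3,1),(3,0)]⟩⟩,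
  .a ⟨true,0,⟨15,[(0,2),(0,8),(0,12),(2,2),(7,1),(2,1),(2,1),(18,5)]⟩,⟨0,[(3,0),(23,0),(6,0)]⟩⟩
  ⟨false,1,⟨0,[(10,0)]⟩,⟨6,[(6,2),(7,3),(9,0),(2,0),(5,0)]⟩⟩ ⟨true,0,⟨1,[(0,0),(0,0),(0,0),(2,0)]⟩,
  ⟨0,[(1,0),(1,0),(23,1),(2,0),(3,0)]⟩⟩,.e ⟨false,1,⟨2,[(5,0),(13,0),(0,0),(15,0),(1,0)]⟩,⟨0,[(3,0),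
  (2,0)]⟩⟩ ⟨false,0,⟨1,[(0,0),(0,0),(0,0),(2,0)]⟩,⟨3,[(3,0),(4,0),(0,0),(4,0),(10,0),(1,2),(2,1)]⟩⟩,
  .o ⟨false,0,⟨0,[(1,0),(25,0),(2,0)]⟩,⟨0,[(37,0)]⟩⟩]⟩) (.R ⟨2,true,false,true,[0,1],[1,0,-1],[0,1,
  1],(⟨0,[]⟩,⟨0,[]⟩),(⟨0,[(28,0)]⟩,⟨0,[(29,0)]⟩),⟨0,[]⟩,.k,.k,.k,.k,.k,.k,⟨true,0,⟨3,[(2,1),(3,1),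
  (19,0),(0,0)]⟩,⟨0,[(3,0)]⟩⟩,⟨false,1,⟨1,[(27,1),(2,0),(6,0)]⟩,⟨0,[(23,0)]⟩⟩,⟨false,0,⟨0,[(36,0)]⟩,
  ⟨3,[(8,1),(10,0),(0,0),(17,0)]⟩⟩,⟨true,0,⟨0,[(0,0)]⟩,⟨0,[(6,0),(16,0)]⟩⟩,⟨true,0,⟨0,[(40,0)]⟩,⟨0,
  []⟩⟩,⟨false,1,⟨1,[(25,1),(4,0),(7,0)]⟩,⟨3,[(1,2),(3,1),(0,3),(16,0),(14,0)]⟩⟩,[]⟩)))

theorem ok33 : chk K t33 l26 = true := by decide +kernel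

noncomputable def t34 : Tre :=
  (.I [1,1,-1,0,0,0,0,1] (.Q [0,0,0,-1,0,0,1,1,0,0,-1] (.p false [0,0,1] [] (⟨0,[(29,0)]⟩,⟨0,[(28,
  0)]⟩) .k 0 (⟨0,[]⟩,⟨0,[]⟩) .k .k) (.R ⟨1,false,false,false,[1,0,-1],[1,-1],[],(⟨0,[(29,0)]⟩,⟨0,
  [(30,0)]⟩),(⟨0,[(32,0)]⟩,⟨0,[(33,0)]⟩),⟨0,[(18,0)]⟩,.k,.k,.k,.k,.k,.k,⟨true,0,⟨3,[(3,1),(3,1),(19,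
  0),(0,0)]⟩,⟨0,[(37,0)]⟩⟩,⟨false,0,⟨0,[(12,0)]⟩,⟨0,[(28,0),(9,0)]⟩⟩,⟨false,1,⟨3,[(0,0),(0,1),(5,0),
  (12,0),(0,0),(6,0),(10,2)]⟩,⟨0,[(4,0)]⟩⟩,⟨true,0,⟨0,[(0,0)]⟩,⟨0,[(2,0),(33,0)]⟩⟩,⟨false,1,⟨7,[(1,
  3),(5,3),(1,1),(10,0),(0,0),(17,4)]⟩,⟨0,[(4,0),(32,0)]⟩⟩,⟨false,1,⟨0,[(25,0),(13,0)]⟩,⟨0,[(2,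
  0)]⟩⟩,[.a ⟨true,0,⟨0,[(37,0)]⟩,⟨0,[(2,0),(4,0),(16,0)]⟩⟩ ⟨false,1,⟨1,[(20,0),(0,0),(16,0)]⟩,⟨0,
  []⟩⟩ ⟨true,0,⟨0,[(12,0),(24,0)]⟩,⟨0,[(2,0),(4,0)]⟩⟩,.o ⟨false,1,⟨1,[(31,0),(5,1),(1,0)]⟩,⟨0,[(36,
  0)]⟩⟩,.o ⟨false,1,⟨1,[(28,1),(2,0),(6,0)]⟩,⟨0,[(12,0)]⟩⟩,.e ⟨false,1,⟨1,[(38,0),(0,0)]⟩,⟨1,[(27,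
  0),(0,0)]⟩⟩ ⟨false,1,⟨7,[(6,3),(10,1),(2,0),(0,0),(5,3),(3,0),(7,1)]⟩,⟨0,[(2,0),(4,0)]⟩⟩]⟩) (.Q
  [0,0,0,-2,0,0,1,1,0,0,-1] (.p false [0,0,1] [] (⟨0,[(30,0)]⟩,⟨0,[(29,0)]⟩) .k 0 (⟨0,[]⟩,⟨0,[]⟩)
  .k .k) (.R ⟨1,false,false,true,[0,0,1],[0,1],[0,1,1],(⟨0,[(31,0)]⟩,⟨0,[(30,0)]⟩),(⟨0,[(34,0)]⟩,⟨0,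
  [(33,0)]⟩),⟨0,[(20,0)]⟩,.k,.k,.k,.k,(.r (-1) ⟨4,[(0,1),(1,2),(4,2),(13,1),(0,1),(6,1)]⟩ ⟨1,[(1,2),
  (6,0),(19,2)]⟩),.k,⟨true,0,⟨0,[(38,0)]⟩,⟨1,[(1,0),(6,0),(19,0)]⟩⟩,⟨false,1,⟨8,[(1,3),(0,3),(4,2),
  (2,0),(18,4),(9,4)]⟩,⟨0,[(28,0)]⟩⟩,⟨false,0,⟨0,[(3,0),(24,0)]⟩,⟨0,[(2,0),(37,0)]⟩⟩,⟨false,0,⟨0,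
  [(1,0)]⟩,⟨3,[(0,3),(9,1),(10,0),(0,0),(17,0)]⟩⟩,⟨false,0,⟨0,[(1,0),(26,0)]⟩,⟨2,[(0,0),(1,1),(9,0),
  (16,0),(10,1)]⟩⟩,⟨true,0,⟨0,[(1,0),(35,0)]⟩,⟨0,[(0,0)]⟩⟩,[.o ⟨false,0,⟨0,[(37,0)]⟩,⟨1,[(0,0),(2,
  0),(28,0),(7,0)]⟩⟩,.a ⟨true,0,⟨1,[(1,0),(6,0),(16,0),(4,0),(0,0)]⟩,⟨0,[(38,0)]⟩⟩ ⟨true,0,⟨1,[(28,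
  0),(0,0)]⟩,⟨0,[]⟩⟩ ⟨false,1,⟨2,[(1,0),(0,0),(7,0),(18,1),(9,1)]⟩,⟨1,[(0,0),(4,0),(7,0)]⟩⟩,.o
  ⟨false,0,⟨0,[(13,0)]⟩,⟨1,[(29,1),(2,0),(6,0)]⟩⟩,.o ⟨false,0,⟨0,[(28,0)]⟩,⟨17,[(1,7),(0,7),(4,5),
  (2,1),(18,9),(2,8),(6,0)]⟩⟩]⟩) (.Q [0,1,0,0,0,0,-1,-1,0,-1,1] (.p true [0,0,1] [1] (⟨0,[(31,0)]⟩,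
  ⟨0,[(30,0)]⟩) .k 1 (⟨0,[]⟩,⟨0,[]⟩) .k .k) (.Q [0,0,0,0,0,2,0,0,0,0,-1] (.p false [0,0,1] [] (⟨0,
  [(32,0)]⟩,⟨0,[(31,0)]⟩) .k 0 (⟨0,[]⟩,⟨0,[]⟩) .k .k) (.Q [0,0,-2,0,1,0,-1,0,0,-1,1] (.p true [0,0,
  1] [1] (⟨0,[(33,0)]⟩,⟨0,[(32,0)]⟩) .k 1 (⟨0,[]⟩,⟨0,[]⟩) .k .k) (.R ⟨0,false,false,false,[0,-1,1],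
  [1,-1],[0,0,0,-1],(⟨0,[(23,0)]⟩,⟨1,[(1,0),(31,1),(0,0)]⟩),(⟨0,[(36,0)]⟩,⟨0,[(37,0)]⟩),⟨0,[(1,0)]⟩,
  .k,.k,(.r (-1) ⟨0,[(10,0),(18,0),(2,0)]⟩ ⟨1,[(3,1),(27,2),(0,0)]⟩),.k,.k,.k,⟨true,0,⟨1,[(31,0),(0,
  0)]⟩,⟨0,[]⟩⟩,⟨false,1,⟨5,[(0,3),(23,0),(0,0),(6,1),(2,0)]⟩,⟨1,[(21,0),(11,0),(0,0)]⟩⟩,⟨true,0,⟨0,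
  [(6,0),(24,0)]⟩,⟨0,[(5,0)]⟩⟩,⟨false,1,⟨1,[(6,1),(28,0),(7,0)]⟩,⟨0,[(11,0),(16,0),(12,0)]⟩⟩,⟨false,
  0,⟨0,[]⟩,⟨0,[]⟩⟩,⟨false,0,⟨0,[]⟩,⟨0,[]⟩⟩,[.a ⟨true,0,⟨0,[(41,0)]⟩,⟨2,[(3,0),(7,0),(16,0),(4,1),(0,
  1)]⟩⟩ ⟨true,0,⟨0,[(41,0)]⟩,⟨5,[(3,1),(7,1),(19,2),(0,0)]⟩⟩ ⟨false,1,⟨0,[(0,0),(40,0)]⟩,⟨2,[(3,0),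
  (7,0),(9,2),(10,1)]⟩⟩,.o ⟨false,1,⟨1,[(35,0),(5,1),(1,0)]⟩,⟨0,[(40,0)]⟩⟩,.o ⟨false,0,⟨0,[(31,0)]⟩,
  ⟨5,[(0,3),(23,0),(0,0),(6,1),(2,0)]⟩⟩,.o ⟨false,0,⟨1,[(31,2),(0,0)]⟩,⟨0,[(0,0)]⟩⟩]⟩) (.R ⟨0,false,
  false,false,[0,-1,1],[1,-1],[1,0,-1,-1],(⟨0,[(23,0)]⟩,⟨1,[(1,0),(31,1),(0,0)]⟩),(⟨0,[(36,0)]⟩,⟨0,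
  [(37,0)]⟩),⟨0,[(1,0)]⟩,.k,.k,(.r (-1) ⟨0,[(10,0),(18,0),(2,0)]⟩ ⟨24,[(0,17),(2,12),(9,5),(0,2),(4,
  8),(12,4),(2,8)]⟩),.k,.k,.k,⟨true,0,⟨0,[]⟩,⟨1,[(31,0),(0,0)]⟩⟩,⟨false,1,⟨5,[(3,1),(1,1),(4,1),(21,
  3),(2,2),(6,0)]⟩,⟨6,[(0,0),(17,1),(2,1),(2,1),(3,1),(14,0)]⟩⟩,⟨true,0,⟨0,[(8,0)]⟩,⟨1,[(5,0),(23,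
  0),(2,0)]⟩⟩,⟨false,1,⟨1,[(6,1),(28,0),(7,0)]⟩,⟨4,[(0,1),(4,0),(4,1),(0,3),(6,0),(2,0),(2,0),(3,
  0)]⟩⟩,⟨false,0,⟨0,[]⟩,⟨0,[]⟩⟩,⟨false,0,⟨0,[]⟩,⟨0,[]⟩⟩,[.e ⟨false,1,⟨7,[(10,3),(13,2),(0,2),(12,1),
  (3,0)]⟩,⟨23,[(0,5),(2,3),(7,6),(1,2),(5,2),(12,1),(2,2)]⟩⟩ ⟨false,1,⟨0,[(2,0),(7,0),(0,0)]⟩,⟨9,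
  [(0,3),(10,0),(1,3),(4,2),(0,0),(1,2),(2,2)]⟩⟩,.o ⟨false,1,⟨1,[(35,0),(5,1),(1,0)]⟩,⟨0,[(40,0)]⟩⟩,
  .o ⟨false,0,⟨0,[(31,0)]⟩,⟨5,[(3,1),(1,1),(4,1),(21,3),(2,2),(6,0)]⟩⟩,.a ⟨true,(-1),⟨0,[(0,0)]⟩,⟨2,
  [(3,0),(1,0),(4,0),(21,1),(9,1)]⟩⟩ ⟨false,1,⟨0,[(15,0)]⟩,⟨3,[(0,1),(10,0),(1,0),(5,0),(12,1),(2,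
  0)]⟩⟩ ⟨true,1,⟨0,[(2,0),(7,0),(0,0)]⟩,⟨0,[(0,0),(39,0)]⟩⟩]⟩)) (.I [1,-1,2,2,0,0,0,-1] (.Q [0,0,-2,
  0,1,0,-1,0,0,-1,1] (.p true [0,0,1] [1] (⟨0,[(34,0)]⟩,⟨0,[(33,0)]⟩) .k 1 (⟨0,[]⟩,⟨0,[]⟩) .k .k)
  (.S ⟨1,0,[0,0,-1,-2,0,0,0,1],[0,-1,1],[0,1,-1,-2,0,0,0,1],(⟨0,[(24,0)]⟩,⟨0,[(34,0),(3,0)]⟩),⟨0,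
  [(2,0)]⟩,.k,(.r (-1) ⟨0,[(11,0),(18,0),(2,0)]⟩ ⟨4,[(1,2),(10,0),(7,2)]⟩),⟨false,0,⟨0,[(42,0)]⟩,⟨3,
  [(14,1),(10,0),(0,0),(17,0)]⟩⟩,⟨true,0,⟨0,[(42,0)]⟩,⟨0,[(41,0)]⟩⟩,⟨true,0,⟨0,[(46,0)]⟩,⟨0,[]⟩⟩,
  ⟨false,1,⟨1,[(25,0),(0,0),(17,0)]⟩,⟨0,[]⟩⟩,[.a ⟨true,0,⟨0,[(12,0),(16,0),(12,2)]⟩,⟨0,[(4,0)]⟩⟩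
  ⟨true,0,⟨0,[(6,0),(35,1)]⟩,⟨0,[(1,0)]⟩⟩ ⟨false,1,⟨0,[(11,0),(18,0),(2,0)]⟩,⟨12,[(1,7),(2,2),(5,3),
  (9,0),(0,2)]⟩⟩,.e ⟨false,1,⟨0,[(11,0),(18,0),(2,0)]⟩,⟨12,[(1,7),(2,2),(5,3),(9,0),(0,2)]⟩⟩ ⟨false,
  1,⟨0,[(11,0),(0,0),(29,0)]⟩,⟨12,[(1,1),(2,3),(5,0),(9,9),(0,3)]⟩⟩,.o ⟨false,0,⟨0,[(32,0)]⟩,⟨5,[(0,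
  3),(24,0),(0,0),(6,1),(2,0)]⟩⟩,.o ⟨false,0,⟨1,[(32,2),(0,0)]⟩,⟨0,[(0,0)]⟩⟩]⟩) (.S ⟨1,0,[0,0,-1,-2,
  0,0,0,1],[0,-1,1],[0,1,-1,-2,0,0,0,1],(⟨0,[(24,0)]⟩,⟨0,[(34,0),(3,0)]⟩),⟨0,[(2,0)]⟩,.k,(.r (-1)
  ⟨0,[(11,0),(18,0),(2,0)]⟩ ⟨4,[(1,2),(10,0),(7,2)]⟩),⟨false,0,⟨0,[(42,0)]⟩,⟨3,[(14,1),(10,0),(0,0),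
  (17,0)]⟩⟩,⟨true,0,⟨0,[(42,0)]⟩,⟨0,[(41,0)]⟩⟩,⟨true,0,⟨0,[(46,0)]⟩,⟨0,[]⟩⟩,⟨false,1,⟨1,[(25,0),(0,
  0),(17,0)]⟩,⟨0,[]⟩⟩,[.a ⟨true,0,⟨0,[(0,0),(10,0),(18,0),(2,0)]⟩,⟨0,[(4,0)]⟩⟩ ⟨true,0,⟨0,[(6,0),
  (35,1)]⟩,⟨0,[(1,0)]⟩⟩ ⟨false,1,⟨0,[(11,0),(18,0),(2,0)]⟩,⟨12,[(1,7),(2,2),(5,3),(9,0),(0,2)]⟩⟩,.e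
  ⟨false,1,⟨0,[(11,0),(18,0),(2,0)]⟩,⟨12,[(1,7),(2,2),(5,3),(9,0),(0,2)]⟩⟩ ⟨false,1,⟨0,[(11,0),(0,
  0),(29,0)]⟩,⟨12,[(1,1),(2,3),(5,0),(9,9),(0,3)]⟩⟩,.o ⟨false,0,⟨0,[(32,0)]⟩,⟨5,[(4,1),(1,1),(4,1),
  (21,3),(2,2),(6,0)]⟩⟩,.e ⟨false,1,⟨0,[(11,0),(18,0),(2,0)]⟩,⟨0,[(1,0)]⟩⟩ ⟨false,1,⟨0,[(11,0),(0,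
  0),(29,0)]⟩,⟨4,[(1,2),(10,0),(7,2)]⟩⟩]⟩)) (.Q [0,0,0,0,0,1,0,0,0,0,0,-1] (.ed true [1,-1,0,0,1]
  .k) (.Q [0,-1,-1,0,1,0,1,0,-1,0,-1,1] (.p false [0,0,1] [0,0,0,0,1] (⟨0,[(35,0)]⟩,⟨0,[(34,0)]⟩)
  .k 2 (⟨0,[(28,0)]⟩,⟨0,[(27,0)]⟩) .k (.r (-1) ⟨2,[(1,0),(10,1),(12,0),(0,0),(17,1)]⟩ ⟨1,[(10,0),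
  (20,0),(0,0)]⟩)) (.Q [0,0,1,0,0,0,0,0,-1,0,0,1] (.p true [0,0,0,0,1] [] (⟨0,[(29,0)]⟩,⟨0,[(28,
  0)]⟩) .k 0 (⟨0,[]⟩,⟨0,[]⟩) .k .k) (.R ⟨0,false,false,true,[0,0,0,0,1],[0,1],[1,1,1,1],(⟨0,[(30,
  0)]⟩,⟨0,[(29,0)]⟩),(⟨0,[(40,0)]⟩,⟨0,[(39,0)]⟩),⟨0,[(2,0)]⟩,.k,.k,(.r 0 ⟨3,[(3,1),(8,0),(20,0),(0,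
  0)]⟩ ⟨3,[(14,1),(7,1),(4,0),(0,0),(17,2)]⟩),(.r 0 ⟨3,[(3,1),(8,0),(20,0),(0,0)]⟩ ⟨3,[(14,1),(7,1),
  (4,0),(0,0),(17,2)]⟩),.k,.k,⟨true,0,⟨0,[]⟩,⟨1,[(34,0),(0,0)]⟩⟩,⟨false,1,⟨2,[(1,1),(1,1),(2,1),(20,
  0)]⟩,⟨1,[(28,1),(5,0),(0,0)]⟩⟩,⟨true,0,⟨5,[(6,1),(7,1),(19,2),(0,0)]⟩,⟨3,[(3,1),(8,0),(20,0),(0,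
  0)]⟩⟩,⟨false,1,⟨16,[(0,5),(0,6),(4,6),(6,1),(0,6),(12,3),(18,3)]⟩,⟨0,[(28,0),(15,0)]⟩⟩,⟨false,0,
  ⟨0,[]⟩,⟨0,[]⟩⟩,⟨false,0,⟨0,[]⟩,⟨0,[]⟩⟩,[.o ⟨false,0,⟨0,[(43,0)]⟩,⟨1,[(38,0),(5,1),(1,0)]⟩⟩,.a
  ⟨true,0,⟨2,[(6,0),(7,0),(16,0),(4,1),(0,1)]⟩,⟨0,[(44,0)]⟩⟩ ⟨true,0,⟨5,[(6,1),(7,1),(19,2),(0,0)]⟩,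
  ⟨0,[(44,0)]⟩⟩ ⟨false,1,⟨1,[(1,0),(4,0),(1,0),(18,0)]⟩,⟨0,[(28,0),(15,0)]⟩⟩,.o ⟨false,0,⟨0,[(28,
  0)]⟩,⟨5,[(0,2),(0,0),(1,0),(2,0),(20,1),(10,2)]⟩⟩,.o ⟨false,0,⟨1,[(28,1),(5,0),(0,0)]⟩,⟨1,[(0,0),
  (0,0),(1,0),(2,0),(31,0)]⟩⟩]⟩) (.R ⟨1,false,false,false,[1,0,0,0,-1],[1,-1],[1],(⟨0,[(29,0)]⟩,⟨0,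
  [(30,0)]⟩),(⟨0,[(39,0)]⟩,⟨0,[(40,0)]⟩),⟨1,[(2,0),(1,0),(20,0),(3,0)]⟩,.k,.k,(.r (-1) ⟨2,[(13,0),
  (13,0),(0,0),(15,0),(1,0)]⟩ ⟨6,[(14,2),(7,3),(9,0),(2,0),(5,0)]⟩),(.r (-1) ⟨3,[(14,1),(7,1),(4,0),
  (0,0),(17,2)]⟩ ⟨3,[(3,1),(8,0),(20,0),(0,0)]⟩),.k,.k,⟨true,0,⟨5,[(6,1),(7,1),(19,2),(0,0)]⟩,⟨0,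
  [(44,0)]⟩⟩,⟨false,0,⟨0,[(28,0)]⟩,⟨2,[(1,0),(1,0),(2,0),(20,1)]⟩⟩,⟨false,0,⟨0,[]⟩,⟨1,[(27,0),(0,0),
  (17,0)]⟩⟩,⟨false,0,⟨0,[(28,0),(15,0)]⟩,⟨2,[(1,2),(4,0),(7,0),(20,1)]⟩⟩,⟨true,0,⟨0,[(43,0)]⟩,⟨0,
  [(44,0)]⟩⟩,⟨false,0,⟨0,[(28,0)]⟩,⟨0,[(1,0),(33,0)]⟩⟩,[.a ⟨true,0,⟨0,[(44,0)]⟩,⟨2,[(6,0),(7,0),(16,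
  0),(4,1),(0,1)]⟩⟩ ⟨true,0,⟨0,[]⟩,⟨1,[(34,0),(0,0)]⟩⟩ ⟨false,0,⟨0,[(0,0),(43,0)]⟩,⟨5,[(1,0),(4,1),
  (7,0),(8,0),(3,4)]⟩⟩,.o ⟨false,1,⟨1,[(38,0),(5,1),(1,0)]⟩,⟨0,[(43,0)]⟩⟩,.o ⟨false,1,⟨0,[(1,0),(3,
  0),(8,0),(29,0)]⟩,⟨0,[(28,0)]⟩⟩,.o ⟨false,1,⟨1,[(1,1),(3,1),(8,1),(19,0),(0,0),(8,1)]⟩,⟨0,[(0,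
  0)]⟩⟩]⟩)) (.Q [0,0,0,1,1,0,1,1,-1,0,-1,1] (.p false [0,0,1] [0,0,0,0,1] (⟨0,[(36,0)]⟩,⟨0,[(35,
  0)]⟩) .k 2 (⟨0,[(29,0)]⟩,⟨0,[(28,0)]⟩) .k (.r (-1) ⟨2,[(2,0),(10,1),(12,0),(0,0),(17,1)]⟩ ⟨1,[(11,
  0),(20,0),(0,0)]⟩)) (.Q [0,1,0,1,0,0,-1,-1,0,-1,1] (.p true [0,0,1] [1] (⟨0,[(37,0)]⟩,⟨0,[(36,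
  0)]⟩) .k 1 (⟨0,[]⟩,⟨0,[]⟩) .k .k) (.I [0,-1,2,1,0,0,0,-1] (.S ⟨1,0,[0,0,-1,-2,0,0,0,1],[0,-1,1],
  [1,1,-1,-1,0,0,0,1],(⟨0,[(28,0)]⟩,⟨0,[(38,0),(3,0)]⟩),⟨0,[(6,0)]⟩,.k,(.r (-1) ⟨1,[(5,1),(23,0),(0,
  0),(17,0)]⟩ ⟨12,[(0,8),(7,2),(7,1),(7,5),(0,2)]⟩),⟨false,0,⟨0,[]⟩,⟨1,[(29,0),(0,0),(17,0)]⟩⟩,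
  ⟨true,0,⟨0,[(46,0)]⟩,⟨0,[(45,0)]⟩⟩,⟨true,0,⟨0,[(45,0)]⟩,⟨0,[(46,0)]⟩⟩,⟨false,1,⟨1,[(29,0),(0,0),
  (17,0)]⟩,⟨0,[]⟩⟩,[.a ⟨true,0,⟨0,[(16,0),(16,0),(12,2)]⟩,⟨0,[(8,0)]⟩⟩ ⟨true,0,⟨7,[(5,4),(10,1),(17,
  0),(2,0),(5,0)]⟩,⟨0,[(0,0)]⟩⟩ ⟨false,1,⟨1,[(5,1),(23,0),(0,0),(17,0)]⟩,⟨8,[(0,3),(7,2),(3,3),(11,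
  0),(0,2)]⟩⟩,.e ⟨false,1,⟨3,[(5,3),(12,1),(10,0),(0,0),(17,0)]⟩,⟨2,[(0,0),(11,0),(11,0)]⟩⟩ ⟨false,
  1,⟨0,[(5,0),(42,0)]⟩,⟨8,[(0,0),(7,2),(3,0),(11,6),(0,2)]⟩⟩,.o ⟨false,0,⟨0,[(36,0)]⟩,⟨5,[(8,1),(1,
  1),(4,1),(21,3),(2,2),(6,0)]⟩⟩,.o ⟨false,0,⟨1,[(36,2),(0,0)]⟩,⟨5,[(5,2),(2,4),(6,2),(0,1),(20,0),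
  (2,2)]⟩⟩]⟩) (.Q [0,1,0,1,-1,0,0,0,1,0,0,-1] (.p false [0,0,0,0,1] [] (⟨0,[(32,0)]⟩,⟨0,[(31,0)]⟩)
  .k 0 (⟨0,[]⟩,⟨0,[]⟩) .k .k) (.Q [0,0,0,0,1,0,0,0,-1,-1,0,1] (.p true [0,0,0,0,1] [1] (⟨0,[(33,
  0)]⟩,⟨0,[(32,0)]⟩) .k 1 (⟨0,[]⟩,⟨0,[]⟩) .k .k) (.R ⟨1,false,false,true,[1,0,-1],[1,0,0,0,-1],[1,0,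
  0,0,0,0,0,-1],(⟨0,[(40,0)]⟩,⟨0,[(41,0)]⟩),(⟨0,[(33,0)]⟩,⟨0,[(34,0)]⟩),⟨0,[(29,0)]⟩,.k,.k,.k,.k,
  (.r 0 ⟨0,[(16,0),(31,0)]⟩ ⟨1,[(18,1),(12,0),(0,0),(17,0)]⟩),.k,⟨true,0,⟨0,[(15,0)]⟩,⟨0,[(18,0),
  (29,0)]⟩⟩,⟨false,1,⟨0,[(0,0),(34,0)]⟩,⟨3,[(5,2),(14,0),(1,1),(9,0),(6,0)]⟩⟩,⟨true,0,⟨0,[]⟩,⟨0,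
  [(52,0)]⟩⟩,⟨true,1,⟨0,[(4,0),(43,0)]⟩,⟨0,[(1,0),(11,0),(34,0)]⟩⟩,⟨false,1,⟨3,[(20,1),(10,0),(0,0),
  (17,0)]⟩,⟨0,[(48,0)]⟩⟩,⟨true,1,⟨0,[(4,0)]⟩,⟨0,[(1,0),(11,0),(34,1)]⟩⟩,[.o ⟨false,1,⟨0,[(0,0)]⟩,⟨0,
  [(32,0)]⟩⟩,.o ⟨false,2,⟨1,[(31,1),(10,0),(7,0)]⟩,⟨0,[(1,0),(46,0)]⟩⟩,.o ⟨false,1,⟨1,[(39,1),(2,0),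
  (6,0)]⟩,⟨0,[(23,0)]⟩⟩,.a ⟨true,0,⟨0,[(39,0)]⟩,⟨0,[(35,0)]⟩⟩ ⟨false,1,⟨2,[(15,0),(1,0),(3,1)]⟩,⟨0,
  [(18,0),(29,0)]⟩⟩ ⟨true,1,⟨0,[(0,0),(34,0)]⟩,⟨0,[(5,0)]⟩⟩]⟩) (.I [0,2,1,0,-1] (.Q [0,0,-1,0,-1,0,
  0,0,1,1,0,-1] (.p false [0,0,0,0,1] [1] (⟨0,[(35,0)]⟩,⟨0,[(34,0)]⟩) .k 1 (⟨0,[]⟩,⟨0,[]⟩) .k .k)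
  (.S ⟨1,0,[0,0,0,-1],[1,0,0,0,-1],[1,-1],(⟨0,[(35,0)]⟩,⟨0,[(36,0)]⟩),⟨1,[(8,0),(1,0),(20,0),(3,
  0)]⟩,.k,(.r (-1) ⟨2,[(19,0),(13,0),(0,0),(15,0),(1,0)]⟩ ⟨8,[(7,0),(12,3),(7,4),(4,0),(4,0),(8,
  0)]⟩),⟨true,0,⟨0,[]⟩,⟨0,[(54,0)]⟩⟩,⟨false,0,⟨0,[(50,0)]⟩,⟨3,[(22,1),(10,0),(0,0),(17,0)]⟩⟩,⟨false,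
  1,⟨3,[(22,1),(10,0),(0,0),(17,0)]⟩,⟨0,[(50,0)]⟩⟩,⟨true,0,⟨0,[(54,0)]⟩,⟨0,[]⟩⟩,[.a ⟨true,1,⟨0,[(33,
  0),(16,0)]⟩,⟨2,[(0,0),(1,1),(9,0),(7,0),(4,0)]⟩⟩ ⟨false,1,⟨1,[(51,0),(0,0)]⟩,⟨0,[(54,0)]⟩⟩ ⟨true,
  0,⟨0,[(50,0)]⟩,⟨5,[(12,1),(7,1),(19,2),(0,0)]⟩⟩,.o ⟨false,2,⟨1,[(33,1),(10,0),(5,1),(1,0)]⟩,⟨0,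
  [(3,0)]⟩⟩,.a ⟨true,1,⟨0,[(33,0)]⟩,⟨0,[(2,0)]⟩⟩ ⟨false,1,⟨0,[(52,0)]⟩,⟨0,[(54,0)]⟩⟩ ⟨true,0,⟨0,
  [(50,0)]⟩,⟨0,[(49,0)]⟩⟩,.a ⟨true,1,⟨1,[(33,1),(6,0),(0,0)]⟩,⟨0,[(0,0)]⟩⟩ ⟨true,1,⟨1,[(51,0),(0,
  0)]⟩,⟨0,[(1,0)]⟩⟩ ⟨false,1,⟨2,[(19,0),(13,0),(0,0),(15,0),(1,0)]⟩,⟨5,[(12,1),(7,1),(19,2),(0,
  0)]⟩⟩]⟩) (.Q [0,-2,0,-1,2,0,0,0,-1,-1,0,1] (.p true [0,0,0,0,1] [1] (⟨0,[(36,0)]⟩,⟨0,[(35,0)]⟩)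
  .k 1 (⟨0,[]⟩,⟨0,[]⟩) .k .k) (.S ⟨1,0,[0,-1,0,-1],[1,0,0,0,-1],[1],(⟨0,[(36,0)]⟩,⟨0,[(37,0)]⟩),⟨1,
  [(9,0),(1,0),(20,0),(3,0)]⟩,.k,(.r (-1) ⟨1,[(0,0),(24,0),(2,0)]⟩ ⟨8,[(8,0),(12,3),(7,4),(4,0),(4,
  0),(8,0)]⟩),⟨false,0,⟨0,[]⟩,⟨1,[(34,0),(0,0),(17,0)]⟩⟩,⟨true,0,⟨0,[(51,0)]⟩,⟨0,[(50,0)]⟩⟩,⟨true,0,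
  ⟨0,[(50,0)]⟩,⟨0,[(51,0)]⟩⟩,⟨false,1,⟨1,[(34,0),(0,0),(17,0)]⟩,⟨0,[]⟩⟩,[.o ⟨false,2,⟨0,[(0,0),(54,
  0)]⟩,⟨0,[(4,0)]⟩⟩,.o ⟨false,2,⟨0,[(0,0)]⟩,⟨8,[(2,0),(1,6),(3,0),(20,0),(0,0),(4,0),(12,2)]⟩⟩,.a
  ⟨true,1,⟨0,[(34,0)]⟩,⟨0,[(3,0)]⟩⟩ ⟨true,0,⟨0,[]⟩,⟨0,[(55,0)]⟩⟩ ⟨false,1,⟨0,[(0,0),(2,0)]⟩,⟨0,[(50,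
  0)]⟩⟩,.o ⟨false,1,⟨0,[(1,0)]⟩,⟨8,[(4,3),(15,2),(2,0),(11,4)]⟩⟩]⟩) (.Q [0,-2,0,-2,2,0,0,0,-1,-1,0,
  1] (.p true [0,0,0,0,1] [1] (⟨0,[(37,0)]⟩,⟨0,[(36,0)]⟩) .k 1 (⟨0,[]⟩,⟨0,[]⟩) .k .k) (.R ⟨1,false,
  false,true,[1,0,0,0,-1],[0,1],[1,1,1],(⟨0,[(37,0)]⟩,⟨0,[(38,0)]⟩),(⟨0,[(48,0)]⟩,⟨0,[(47,0)]⟩),⟨1,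
  [(10,0),(1,0),(20,0),(3,0)]⟩,.k,.k,(.r (-1) ⟨5,[(0,1),(25,1),(2,1),(23,0),(0,0)]⟩ ⟨8,[(9,0),(12,
  3),(7,4),(4,0),(4,0),(8,0)]⟩),(.r (-1) ⟨5,[(0,1),(25,1),(2,1),(23,0),(0,0)]⟩ ⟨8,[(9,0),(12,3),(7,
  4),(4,0),(4,0),(8,0)]⟩),(.r (-1) ⟨2,[(0,0),(20,1),(7,0)]⟩ ⟨0,[(22,0),(7,0)]⟩),.k,⟨true,0,⟨0,[(52,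
  0)]⟩,⟨5,[(14,1),(7,1),(19,2),(0,0)]⟩⟩,⟨false,0,⟨2,[(21,1),(2,0),(3,1),(0,0)]⟩,⟨0,[(2,0)]⟩⟩,⟨true,
  (-1),⟨0,[(3,0)]⟩,⟨1,[(53,0),(0,0)]⟩⟩,⟨true,(-2),⟨0,[(1,0)]⟩,⟨9,[(0,6),(1,2),(21,1),(10,0),(0,0),
  (12,2)]⟩⟩,⟨true,(-1),⟨0,[(1,0),(0,0)]⟩,⟨5,[(0,1),(25,1),(2,1),(23,0),(0,0)]⟩⟩,⟨false,(-1),⟨1,[(1,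
  0),(22,0),(3,0)]⟩,⟨0,[(0,0)]⟩⟩,[.o ⟨false,0,⟨0,[(51,0)]⟩,⟨1,[(0,0),(3,0),(41,0)]⟩⟩,.a ⟨true,0,⟨2,
  [(14,0),(7,0),(16,0),(4,1),(0,1)]⟩,⟨0,[(52,0)]⟩⟩ ⟨false,0,⟨0,[]⟩,⟨1,[(35,0),(0,0),(16,0)]⟩⟩ ⟨true,
  (-1),⟨0,[(1,0),(52,0)]⟩,⟨1,[(0,0),(1,0),(0,0)]⟩⟩,.e ⟨false,0,⟨1,[(42,0),(0,0)]⟩,⟨1,[(53,0),(0,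
  0)]⟩⟩ ⟨false,(-1),⟨0,[(1,0),(52,0)]⟩,⟨9,[(0,6),(1,2),(21,1),(10,0),(0,0),(12,2)]⟩⟩,.o ⟨false,1,⟨0,
  [(2,0)]⟩,⟨8,[(5,3),(15,2),(2,0),(11,4)]⟩⟩]⟩) (.Q [0,0,-1,0,1,0,0,0,-1,0,0,1] (.p true [0,0,0,0,1]
  [] (⟨0,[(38,0)]⟩,⟨0,[(37,0)]⟩) .k 0 (⟨0,[]⟩,⟨0,[]⟩) .k .k) (.Q [0,0,0,1,-1,0,1,1,1,1,-1,-1] (.p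
  false [0,0,1] [1,0,0,0,-1] (⟨0,[(46,0)]⟩,⟨0,[(45,0)]⟩) .k 2 (⟨0,[(38,0)]⟩,⟨0,[(39,0)]⟩) .k (.r 0
  ⟨3,[(12,0),(10,1),(17,0),(2,0),(5,0)]⟩ ⟨0,[(26,0),(26,0)]⟩)) (.Q [0,0,1,0,-2,0,0,0,2,1,0,-2] (.p
  false [0,0,0,0,1] [1,0,0,0,-1] (⟨0,[(40,0)]⟩,⟨0,[(39,0)]⟩) .k 2 (⟨0,[(39,0)]⟩,⟨0,[(40,0)]⟩) .k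
  (.r 0 ⟨0,[(58,1)]⟩ ⟨0,[(56,0)]⟩)) (.R ⟨0,false,false,true,[0,0,0,0,1],[1,0,0,0,-1],[0,1,0,-1],(⟨0,
  [(41,0)]⟩,⟨0,[(40,0)]⟩),(⟨0,[(40,0)]⟩,⟨0,[(41,0)]⟩),⟨0,[(13,0)]⟩,.k,.k,(.r 0 ⟨3,[(14,1),(8,0),(20,
  0),(0,0)]⟩ ⟨3,[(25,1),(7,1),(4,0),(0,0),(17,2)]⟩),.k,.k,.k,⟨false,0,⟨3,[(14,1),(8,0),(20,0),(0,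
  0)]⟩,⟨3,[(27,1),(10,0),(0,0),(17,0)]⟩⟩,⟨true,2,⟨0,[(2,0),(2,0)]⟩,⟨0,[(0,0)]⟩⟩,⟨true,0,⟨0,[(55,
  0)]⟩,⟨0,[(54,0)]⟩⟩,⟨false,3,⟨0,[(2,0),(2,0),(51,0)]⟩,⟨16,[(0,12),(3,5),(19,2),(14,1),(9,0),(2,
  3)]⟩⟩,⟨false,0,⟨0,[]⟩,⟨0,[]⟩⟩,⟨false,0,⟨0,[]⟩,⟨0,[]⟩⟩,[.a ⟨true,1,⟨0,[(38,0)]⟩,⟨0,[(7,0)]⟩⟩
  ⟨false,0,⟨3,[(14,1),(8,0),(20,0),(0,0)]⟩,⟨3,[(27,1),(10,0),(0,0),(17,0)]⟩⟩ ⟨true,2,⟨0,[(2,0),(2,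
  0)]⟩,⟨0,[(0,0)]⟩⟩,.o ⟨false,2,⟨1,[(38,1),(10,0),(7,0)]⟩,⟨15,[(0,5),(3,3),(1,0),(7,1),(8,1),(25,4),
  (2,0)]⟩⟩,.a ⟨true,(-1),⟨0,[(7,0)]⟩,⟨0,[(38,0)]⟩⟩ ⟨false,0,⟨0,[(55,0)]⟩,⟨3,[(27,1),(10,0),(0,0),
  (17,0)]⟩⟩ ⟨true,2,⟨0,[(2,0),(2,0)]⟩,⟨16,[(0,12),(3,5),(19,2),(14,1),(9,0),(2,3)]⟩⟩,.a ⟨true,(-1),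
  ⟨2,[(0,0),(6,0),(27,0),(10,1)]⟩,⟨0,[(2,0)]⟩⟩ ⟨true,0,⟨3,[(14,1),(8,0),(20,0),(0,0)]⟩,⟨5,[(17,1),
  (7,1),(19,2),(0,0)]⟩⟩ ⟨false,3,⟨2,[(2,1),(2,2),(21,0),(1,1),(8,0)]⟩,⟨0,[(0,0)]⟩⟩]⟩) (.Q [0,0,-1,0,
  -1,0,1,0,1,1,-1,-1] (.p false [0,0,1] [1,0,0,0,-1] (⟨0,[(48,0)]⟩,⟨0,[(47,0)]⟩) .k 2 (⟨0,[(40,0)]⟩,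
  ⟨0,[(41,0)]⟩) .k (.r 0 ⟨3,[(14,0),(10,1),(17,0),(2,0),(5,0)]⟩ ⟨0,[(28,0),(26,0)]⟩)) (.R ⟨0,false,
  false,false,[0,1,0,0,-1],[0,1],[1,0,1,1],(⟨0,[(14,0)]⟩,⟨0,[(42,0),(8,0)]⟩),(⟨0,[(52,0)]⟩,⟨0,[(51,
  0)]⟩),⟨0,[(42,0)]⟩,(.r (-1) ⟨3,[(26,1),(7,1),(4,0),(0,0),(17,2)]⟩ ⟨3,[(15,1),(8,0),(20,0),(0,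
  0)]⟩),.k,.k,.k,.k,.k,⟨true,0,⟨0,[]⟩,⟨1,[(46,0),(0,0)]⟩⟩,⟨false,0,⟨8,[(9,3),(15,2),(2,0),(11,4)]⟩,
  ⟨0,[(39,0)]⟩⟩,⟨false,0,⟨0,[]⟩,⟨1,[(39,0),(0,0),(17,0)]⟩⟩,⟨true,(-1),⟨2,[(0,0),(4,0),(7,0),(36,0),
  (5,0)]⟩,⟨0,[(39,0)]⟩⟩,⟨false,0,⟨0,[]⟩,⟨0,[]⟩⟩,⟨false,0,⟨0,[]⟩,⟨0,[]⟩⟩,[.a ⟨true,0,⟨2,[(18,0),(7,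
  0),(16,0),(4,1),(0,1)]⟩,⟨0,[(56,0)]⟩⟩ ⟨true,0,⟨5,[(18,1),(7,1),(19,2),(0,0)]⟩,⟨0,[(56,0)]⟩⟩
  ⟨false,0,⟨2,[(9,0),(18,0),(11,1)]⟩,⟨0,[(3,0),(52,0)]⟩⟩,.e ⟨false,1,⟨3,[(28,1),(10,0),(0,0),(17,
  0)]⟩,⟨3,[(15,1),(8,0),(20,0),(0,0)]⟩⟩ ⟨false,0,⟨0,[(9,0),(48,0)]⟩,⟨7,[(1,0),(4,0),(8,3),(20,1),(2,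
  4),(5,3)]⟩⟩,.o ⟨false,1,⟨0,[(3,0)]⟩,⟨7,[(0,1),(12,5),(32,3),(3,4),(7,2)]⟩⟩,.o ⟨false,1,⟨0,[(39,
  0)]⟩,⟨3,[(0,1),(12,1),(36,2),(7,0)]⟩⟩]⟩) (.Q [0,-2,0,-1,2,0,-1,-1,-1,-1,1,1] (.p true [0,0,1] [1,
  0,0,0,-1] (⟨0,[(49,0)]⟩,⟨0,[(48,0)]⟩) .k 2 (⟨0,[(41,0)]⟩,⟨0,[(42,0)]⟩) .k (.r 0 ⟨10,[(0,1),(14,2),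
  (10,5),(6,1),(10,1),(8,1)]⟩ ⟨0,[(29,0),(26,0)]⟩)) (.R ⟨0,false,false,false,[0,0,0,0,1],[1,-1,-1],
  [1,1],(⟨0,[(43,0)]⟩,⟨0,[(42,0)]⟩),(⟨0,[(38,0)]⟩,⟨0,[(50,0),(2,0)]⟩),⟨0,[(15,0)]⟩,.k,.k,(.r 0 ⟨3,
  [(16,1),(8,0),(20,0),(0,0)]⟩ ⟨3,[(1,0),(25,0),(1,0),(5,0),(1,0),(3,0),(6,0),(10,1)]⟩),(.r 0 ⟨1,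
  [(1,0),(25,0),(6,0),(1,0)]⟩ ⟨14,[(0,5),(23,7),(1,4),(3,0),(3,2),(2,2),(3,2)]⟩),.k,.k,⟨false,0,⟨1,
  [(21,0),(5,0),(28,0)]⟩,⟨14,[(0,5),(23,7),(1,4),(3,0),(3,2),(2,2),(3,2)]⟩⟩,⟨true,1,⟨0,[(1,0)]⟩,⟨0,
  [(9,0),(22,0)]⟩⟩,⟨true,0,⟨0,[]⟩,⟨0,[(61,0)]⟩⟩,⟨false,2,⟨0,[(0,0)]⟩,⟨1,[(3,0),(30,0),(1,0)]⟩⟩,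
  ⟨false,0,⟨0,[]⟩,⟨0,[]⟩⟩,⟨false,0,⟨0,[]⟩,⟨0,[]⟩⟩,[.e ⟨false,0,⟨4,[(11,0),(13,0),(28,0),(0,0)]⟩,⟨1,
  [(40,0),(0,0),(17,0)]⟩⟩ ⟨false,2,⟨0,[(0,0),(53,0)]⟩,⟨0,[(3,0)]⟩⟩,.o ⟨false,1,⟨2,[(0,1),(8,1),(8,
  0),(32,0),(5,0)]⟩,⟨0,[(36,0)]⟩⟩,.e ⟨false,0,⟨0,[]⟩,⟨1,[(40,0),(0,0),(17,0)]⟩⟩ ⟨false,2,⟨11,[(0,9),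
  (0,2),(5,0),(8,0),(20,1),(3,1),(4,2),(7,1)]⟩,⟨0,[(3,0)]⟩⟩,.a ⟨true,(-1),⟨1,[(9,1),(37,0),(0,0)]⟩,
  ⟨0,[(4,0)]⟩⟩ ⟨true,0,⟨4,[(11,0),(13,0),(28,0),(0,0)]⟩,⟨1,[(47,0),(0,0)]⟩⟩ ⟨false,2,⟨9,[(0,5),(1,
  1),(23,1),(19,3),(4,0),(6,0)]⟩,⟨1,[(3,0),(5,0),(17,0),(19,0)]⟩⟩]⟩) (.R ⟨0,false,false,false,[0,1,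
  0,0,-1],[0,1],[1,0,1,1],(⟨0,[(15,0)]⟩,⟨0,[(43,0),(8,0)]⟩),(⟨0,[(53,0)]⟩,⟨0,[(52,0)]⟩),⟨0,[(43,
  0)]⟩,(.r (-1) ⟨3,[(1,0),(25,0),(1,0),(5,0),(1,0),(3,0),(6,0),(10,1)]⟩ ⟨3,[(16,1),(8,0),(20,0),(0,
  0)]⟩),.k,.k,.k,.k,.k,⟨true,0,⟨0,[]⟩,⟨1,[(47,0),(0,0)]⟩⟩,⟨false,0,⟨8,[(10,3),(15,2),(2,0),(11,4)]⟩,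
  ⟨0,[(40,0)]⟩⟩,⟨false,0,⟨0,[]⟩,⟨1,[(40,0),(0,0),(17,0)]⟩⟩,⟨true,(-1),⟨1,[(6,0),(2,0),(41,0),(5,
  0)]⟩,⟨0,[(40,0)]⟩⟩,⟨false,0,⟨0,[]⟩,⟨0,[]⟩⟩,⟨false,0,⟨0,[]⟩,⟨0,[]⟩⟩,[.a ⟨true,0,⟨2,[(19,0),(7,0),
  (16,0),(4,1),(0,1)]⟩,⟨0,[(57,0)]⟩⟩ ⟨true,0,⟨5,[(19,1),(7,1),(19,2),(0,0)]⟩,⟨0,[(57,0)]⟩⟩ ⟨false,0,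
  ⟨2,[(10,0),(18,0),(11,1)]⟩,⟨0,[(4,0),(52,0)]⟩⟩,.e ⟨false,1,⟨3,[(29,1),(10,0),(0,0),(17,0)]⟩,⟨3,
  [(16,1),(8,0),(20,0),(0,0)]⟩⟩ ⟨false,0,⟨0,[(10,0),(48,0)]⟩,⟨7,[(2,0),(4,0),(8,3),(20,1),(2,4),(5,
  3)]⟩⟩,.o ⟨false,1,⟨0,[(4,0)]⟩,⟨3,[(9,1),(4,1),(32,1),(3,2),(7,0)]⟩⟩,.o ⟨false,1,⟨0,[(40,0)]⟩,⟨0,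
  [(9,0),(41,0)]⟩⟩]⟩)))) (.R ⟨0,false,false,false,[0,0,0,0,1],[1,-1,-1],[1,1],(⟨0,[(40,0)]⟩,⟨0,[(39,
  0)]⟩),(⟨0,[(35,0)]⟩,⟨0,[(47,0),(2,0)]⟩),⟨0,[(12,0)]⟩,.k,.k,(.r 0 ⟨3,[(13,1),(8,0),(20,0),(0,0)]⟩
  ⟨3,[(24,1),(7,1),(4,0),(0,0),(17,2)]⟩),(.r 0 ⟨8,[(11,1),(12,7),(7,0),(4,1),(4,1),(8,1)]⟩ ⟨8,[(0,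
  1),(20,4),(1,2),(10,1),(3,1),(4,1),(10,0),(1,3)]⟩),.k,.k,⟨false,0,⟨1,[(18,0),(5,0),(28,0)]⟩,⟨8,
  [(0,1),(20,4),(1,2),(10,1),(3,1),(4,1),(10,0),(1,3)]⟩⟩,⟨true,1,⟨0,[(0,0),(23,0)]⟩,⟨0,[(6,0),(22,
  0)]⟩⟩,⟨true,0,⟨0,[]⟩,⟨0,[(58,0)]⟩⟩,⟨false,2,⟨0,[(0,0),(55,0)]⟩,⟨0,[(6,0),(26,0)]⟩⟩,⟨false,0,⟨0,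
  []⟩,⟨0,[]⟩⟩,⟨false,0,⟨0,[]⟩,⟨0,[]⟩⟩,[.a ⟨true,0,⟨0,[(19,0),(34,0)]⟩,⟨0,[(24,0),(16,0)]⟩⟩ ⟨false,0,
  ⟨4,[(8,0),(13,0),(28,0),(0,0)]⟩,⟨1,[(37,0),(0,0),(17,0)]⟩⟩ ⟨true,1,⟨0,[(0,0)]⟩,⟨0,[(6,0),(17,0),
  (4,0)]⟩⟩,.o ⟨false,1,⟨1,[(19,1),(28,0),(5,1),(1,0)]⟩,⟨0,[(33,0)]⟩⟩,.a ⟨true,(-1),⟨0,[(6,0)]⟩,⟨0,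
  [(37,0)]⟩⟩ ⟨false,0,⟨0,[]⟩,⟨1,[(37,0),(0,0),(17,0)]⟩⟩ ⟨true,1,⟨0,[(0,0)]⟩,⟨0,[(6,0),(26,0)]⟩⟩,.a
  ⟨true,(-1),⟨1,[(6,1),(37,0),(0,0)]⟩,⟨0,[(1,0)]⟩⟩ ⟨true,0,⟨4,[(8,0),(13,0),(28,0),(0,0)]⟩,⟨1,[(44,
  0),(0,0)]⟩⟩ ⟨false,2,⟨1,[(0,1),(54,0),(0,0)]⟩,⟨0,[(6,0),(17,0),(4,0)]⟩⟩]⟩)) (.R ⟨0,false,false,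
  false,[0,0,0,0,1],[1,-1],[0,1],(⟨0,[(39,0)]⟩,⟨0,[(38,0)]⟩),(⟨0,[(48,0)]⟩,⟨0,[(49,0)]⟩),⟨0,[(11,
  0)]⟩,.k,.k,(.r 0 ⟨3,[(12,1),(8,0),(20,0),(0,0)]⟩ ⟨3,[(23,1),(7,1),(4,0),(0,0),(17,2)]⟩),(.r 0 ⟨8,
  [(10,0),(12,3),(7,4),(4,0),(4,0),(8,0)]⟩ ⟨2,[(22,0),(13,0),(0,0),(15,0),(1,0)]⟩),.k,.k,⟨false,0,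
  ⟨0,[(52,0)]⟩,⟨2,[(22,0),(13,0),(0,0),(15,0),(1,0)]⟩⟩,⟨true,1,⟨0,[(3,0)]⟩,⟨0,[(5,0)]⟩⟩,⟨false,1,⟨1,
  [(36,0),(0,0),(17,0)]⟩,⟨0,[]⟩⟩,⟨true,2,⟨2,[(3,2),(18,0),(13,0),(0,0),(15,0),(1,0)]⟩,⟨0,[(2,0)]⟩⟩,
  ⟨false,0,⟨0,[]⟩,⟨0,[]⟩⟩,⟨false,0,⟨0,[]⟩,⟨0,[]⟩⟩,[.e ⟨false,0,⟨4,[(7,0),(13,0),(28,0),(0,0)]⟩,⟨1,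
  [(36,0),(0,0),(17,0)]⟩⟩ ⟨false,2,⟨7,[(3,5),(18,3),(13,4),(0,2),(9,0),(2,1)]⟩,⟨1,[(1,0),(3,0),(49,
  0)]⟩⟩,.o ⟨false,1,⟨1,[(47,0),(5,1),(1,0)]⟩,⟨0,[(52,0)]⟩⟩,.a ⟨true,(-1),⟨0,[(5,0)]⟩,⟨0,[(36,0)]⟩⟩
  ⟨true,0,⟨0,[(57,0)]⟩,⟨0,[]⟩⟩ ⟨false,2,⟨2,[(3,2),(18,0),(13,0),(0,0),(15,0),(1,0)]⟩,⟨1,[(1,0),(3,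
  0),(49,0)]⟩⟩,.o ⟨false,(-1),⟨0,[(0,0)]⟩,⟨1,[(36,1),(10,0),(6,0)]⟩⟩]⟩))))) (.S ⟨1,0,[0,-1,0,-1],[1,
  0,0,0,-1],[1],(⟨0,[(34,0)]⟩,⟨0,[(35,0)]⟩),⟨1,[(7,0),(1,0),(20,0),(3,0)]⟩,.k,(.r (-1) ⟨2,[(18,0),
  (13,0),(0,0),(15,0),(1,0)]⟩ ⟨8,[(6,0),(12,3),(7,4),(4,0),(4,0),(8,0)]⟩),⟨false,0,⟨0,[]⟩,⟨1,[(32,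
  0),(0,0),(17,0)]⟩⟩,⟨true,0,⟨0,[(49,0)]⟩,⟨0,[(48,0)]⟩⟩,⟨true,0,⟨0,[(48,0)]⟩,⟨0,[(49,0)]⟩⟩,⟨false,1,
  ⟨1,[(32,0),(0,0),(17,0)]⟩,⟨0,[]⟩⟩,[.o ⟨false,2,⟨1,[(32,1),(10,0),(5,1),(1,0)]⟩,⟨0,[(2,0)]⟩⟩,.e
  ⟨false,1,⟨1,[(50,0),(0,0)]⟩,⟨0,[(53,0)]⟩⟩ ⟨false,1,⟨0,[(0,0),(48,0)]⟩,⟨2,[(19,0),(7,0),(18,1),(1,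
  0)]⟩⟩,.a ⟨true,1,⟨0,[(32,0)]⟩,⟨0,[(1,0)]⟩⟩ ⟨true,0,⟨0,[]⟩,⟨0,[(53,0)]⟩⟩ ⟨false,1,⟨0,[(49,0),(1,
  0)]⟩,⟨0,[(48,0)]⟩⟩,.e ⟨false,1,⟨1,[(50,0),(0,0)]⟩,⟨1,[(39,0),(0,0)]⟩⟩ ⟨false,1,⟨0,[(0,0),(48,0)]⟩,
  ⟨8,[(6,0),(12,3),(7,4),(4,0),(4,0),(8,0)]⟩⟩]⟩))) (.Q [0,0,0,0,1,0,0,0,-1,-1,0,1] (.p true [0,0,0,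
  0,1] [1] (⟨0,[(33,0)]⟩,⟨0,[(32,0)]⟩) .k 1 (⟨0,[]⟩,⟨0,[]⟩) .k .k) (.S ⟨1,0,[0,-1,0,-1],[1,0,0,0,
  -1],[1],(⟨0,[(33,0)]⟩,⟨0,[(34,0)]⟩),⟨1,[(6,0),(1,0),(20,0),(3,0)]⟩,.k,(.r (-1) ⟨1,[(1,0),(20,0),
  (9,0)]⟩ ⟨8,[(5,0),(12,3),(7,4),(4,0),(4,0),(8,0)]⟩),⟨false,0,⟨0,[]⟩,⟨1,[(31,0),(0,0),(17,0)]⟩⟩,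
  ⟨true,0,⟨0,[(48,0)]⟩,⟨0,[(47,0)]⟩⟩,⟨true,0,⟨0,[(47,0)]⟩,⟨0,[(48,0)]⟩⟩,⟨false,1,⟨1,[(31,0),(0,0),
  (17,0)]⟩,⟨0,[]⟩⟩,[.a ⟨true,1,⟨0,[(1,0)]⟩,⟨0,[(24,0)]⟩⟩ ⟨true,0,⟨0,[]⟩,⟨1,[(38,0),(0,0)]⟩⟩ ⟨false,
  1,⟨1,[(1,0),(20,0),(9,0)]⟩,⟨0,[(47,0)]⟩⟩,.o ⟨false,2,⟨1,[(1,1),(40,0),(7,0)]⟩,⟨3,[(2,0),(0,1),(1,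
  1),(17,2),(0,1),(2,0)]⟩⟩,.o ⟨false,1,⟨0,[(0,0)]⟩,⟨0,[(32,0)]⟩⟩,.o ⟨false,1,⟨1,[(0,1),(37,0),(0,
  0)]⟩,⟨5,[(2,1),(2,3),(4,1),(6,1),(5,5),(0,1),(17,0),(7,2)]⟩⟩]⟩) (.R ⟨0,false,false,false,[0,0,0,0,
  1],[1,-1,-1],[1,1],(⟨0,[(34,0)]⟩,⟨0,[(33,0)]⟩),(⟨0,[(29,0)]⟩,⟨0,[(41,0),(2,0)]⟩),⟨0,[(6,0)]⟩,.k,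
  .k,(.r 0 ⟨3,[(7,1),(8,0),(20,0),(0,0)]⟩ ⟨3,[(18,1),(7,1),(4,0),(0,0),(17,2)]⟩),(.r 0 ⟨8,[(5,1),
  (12,7),(7,0),(4,1),(4,1),(8,1)]⟩ ⟨5,[(1,2),(13,4),(1,1),(3,0),(10,2)]⟩),.k,.k,⟨false,0,⟨1,[(12,0),
  (5,0),(28,0)]⟩,⟨5,[(1,2),(13,4),(1,1),(3,0),(10,2)]⟩⟩,⟨true,1,⟨0,[(1,0),(7,0),(8,0)]⟩,⟨0,[(0,0),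
  (22,0)]⟩⟩,⟨true,0,⟨0,[]⟩,⟨0,[(52,0)]⟩⟩,⟨false,2,⟨1,[(1,1),(11,1),(28,0),(7,0)]⟩,⟨0,[(0,0),(26,
  0)]⟩⟩,⟨false,0,⟨0,[]⟩,⟨0,[]⟩⟩,⟨false,0,⟨0,[]⟩,⟨0,[]⟩⟩,[.a ⟨true,0,⟨0,[(13,0),(34,0)]⟩,⟨0,[(18,0),
  (16,0)]⟩⟩ ⟨false,0,⟨4,[(2,0),(13,0),(28,0),(0,0)]⟩,⟨1,[(31,0),(0,0),(17,0)]⟩⟩ ⟨true,1,⟨0,[(1,0),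
  (7,0)]⟩,⟨0,[(0,0),(17,0),(4,0)]⟩⟩,.o ⟨false,1,⟨1,[(13,1),(28,0),(5,1),(1,0)]⟩,⟨0,[(27,0)]⟩⟩,.a
  ⟨true,(-1),⟨0,[(0,0)]⟩,⟨0,[(31,0)]⟩⟩ ⟨false,0,⟨0,[]⟩,⟨1,[(31,0),(0,0),(17,0)]⟩⟩ ⟨true,1,⟨0,[(1,0),
  (7,0)]⟩,⟨0,[(0,0),(26,0)]⟩⟩,.a ⟨true,(-1),⟨1,[(0,1),(37,0),(0,0)]⟩,⟨2,[(1,1),(0,0),(1,0),(5,0),(5,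
  0)]⟩⟩ ⟨true,0,⟨4,[(2,0),(13,0),(28,0),(0,0)]⟩,⟨1,[(38,0),(0,0)]⟩⟩ ⟨false,2,⟨5,[(1,5),(8,1),(6,1),
  (19,3),(4,2),(7,0)]⟩,⟨0,[(0,0),(17,0),(4,0)]⟩⟩]⟩)))) (.R ⟨1,false,false,true,[0,-1,1],[1,-1],[1,
  1],(⟨0,[(27,0)]⟩,⟨0,[(37,0),(3,0)]⟩),(⟨0,[(40,0)]⟩,⟨0,[(41,0)]⟩),⟨0,[(5,0)]⟩,.k,.k,(.r (-1) ⟨1,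
  [(4,1),(23,0),(0,0),(17,0)]⟩ ⟨1,[(7,1),(27,2),(0,0)]⟩),.k,.k,.k,⟨true,0,⟨5,[(7,1),(7,1),(19,2),(0,
  0)]⟩,⟨0,[(45,0)]⟩⟩,⟨false,1,⟨5,[(7,1),(1,1),(4,1),(21,3),(2,2),(6,0)]⟩,⟨5,[(0,1),(6,0),(14,0),(2,
  2),(2,0),(5,0)]⟩⟩,⟨false,0,⟨1,[(7,0),(2,0),(24,1)]⟩,⟨5,[(4,3),(10,1),(12,0),(0,0),(17,4)]⟩⟩,⟨true,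
  0,⟨0,[(6,0)]⟩,⟨1,[(0,0),(0,0),(20,0)]⟩⟩,⟨false,0,⟨0,[(7,0),(27,0)]⟩,⟨5,[(0,1),(3,3),(23,0),(0,0),
  (6,1),(2,0),(5,1),(1,3)]⟩⟩,⟨false,1,⟨3,[(7,0),(9,0),(16,2),(4,1),(7,0)]⟩,⟨0,[(0,0)]⟩⟩,[.e ⟨false,
  0,⟨5,[(4,0),(8,0),(28,0),(0,1)]⟩,⟨1,[(28,0),(0,0),(17,0)]⟩⟩ ⟨false,1,⟨3,[(9,2),(4,1),(19,2),(1,0),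
  (2,1)]⟩,⟨0,[(0,0),(6,0),(27,0)]⟩⟩,.a ⟨true,0,⟨0,[(45,0)]⟩,⟨1,[(0,0),(6,0),(13,0),(6,0)]⟩⟩ ⟨true,0,
  ⟨0,[]⟩,⟨1,[(35,0),(0,0)]⟩⟩ ⟨false,1,⟨1,[(4,0),(2,0),(6,0),(21,0),(2,0)]⟩,⟨2,[(0,1),(6,0),(7,0),(7,
  1),(1,0)]⟩⟩,.o ⟨false,0,⟨0,[(35,0)]⟩,⟨5,[(7,1),(1,1),(4,1),(21,3),(2,2),(6,0)]⟩⟩,.o ⟨false,0,⟨1,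
  [(35,2),(0,0)]⟩,⟨5,[(4,2),(2,4),(6,2),(0,1),(20,0),(2,2)]⟩⟩]⟩)) (.R ⟨0,false,false,true,[0,0,0,0,
  1],[0,1,1],[1,1,1],(⟨0,[(30,0)]⟩,⟨0,[(29,0)]⟩),(⟨0,[(37,0),(2,0)]⟩,⟨0,[(25,0)]⟩),⟨0,[(2,0)]⟩,.k,
  .k,(.r 0 ⟨3,[(3,1),(8,0),(20,0),(0,0)]⟩ ⟨3,[(14,1),(7,1),(4,0),(0,0),(17,2)]⟩),(.r 0 ⟨0,[(12,0),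
  (31,0)]⟩ ⟨1,[(14,1),(12,0),(0,0),(17,0)]⟩),.k,.k,⟨true,0,⟨0,[(11,0),(32,0)]⟩,⟨0,[(14,0)]⟩⟩,⟨false,
  2,⟨19,[(13,5),(2,1),(7,9),(2,19),(10,4),(3,7),(2,6)]⟩,⟨0,[(0,0),(13,0)]⟩⟩,⟨true,0,⟨1,[(34,0),(0,
  0)]⟩,⟨5,[(3,0),(8,0),(28,0),(0,1)]⟩⟩,⟨false,2,⟨0,[(23,0),(3,0),(18,0)]⟩,⟨0,[(0,0)]⟩⟩,⟨false,0,⟨0,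
  []⟩,⟨0,[]⟩⟩,⟨false,0,⟨0,[]⟩,⟨0,[]⟩⟩,[.o ⟨false,0,⟨0,[(23,0)]⟩,⟨1,[(9,1),(28,0),(5,1),(1,0)]⟩⟩,.e
  ⟨false,0,⟨0,[]⟩,⟨1,[(27,0),(0,0),(16,0)]⟩⟩ ⟨false,2,⟨1,[(16,0),(1,0),(4,0),(3,1),(4,0)]⟩,⟨0,[(0,
  0)]⟩⟩,.a ⟨true,(-1),⟨0,[(0,0),(13,0),(16,0)]⟩,⟨0,[(27,0)]⟩⟩ ⟨false,0,⟨1,[(34,0),(0,0)]⟩,⟨1,[(45,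
  0),(0,0)]⟩⟩ ⟨true,1,⟨0,[(23,0),(3,0)]⟩,⟨0,[(0,0)]⟩⟩,.o ⟨false,(-1),⟨0,[(0,0),(13,0),(4,0)]⟩,⟨1,
  [(27,1),(10,0),(6,0)]⟩⟩]⟩))) (.Q [0,0,-1,-1,1,0,0,0,-1,-1,0,1] (.p true [0,0,0,0,1] [1] (⟨0,[(28,
  0)]⟩,⟨0,[(27,0)]⟩) .k 1 (⟨0,[]⟩,⟨0,[]⟩) .k .k) (.Q [0,0,-1,0,1,0,0,0,-1,-1,0,1] (.p true [0,0,0,0,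
  1] [1] (⟨0,[(29,0)]⟩,⟨0,[(28,0)]⟩) .k 1 (⟨0,[]⟩,⟨0,[]⟩) .k .k) (.R ⟨1,false,false,true,[0,0,0,0,
  1],[1,-1],[0,1,0,-1],(⟨0,[(30,0)]⟩,⟨0,[(29,0)]⟩),(⟨0,[(39,0)]⟩,⟨0,[(40,0)]⟩),⟨0,[(2,0)]⟩,.k,.k,
  (.r 0 ⟨3,[(3,1),(8,0),(20,0),(0,0)]⟩ ⟨3,[(14,1),(7,1),(4,0),(0,0),(17,2)]⟩),(.r 0 ⟨6,[(14,2),(7,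
  3),(9,0),(2,0),(5,0)]⟩ ⟨2,[(13,0),(13,0),(0,0),(15,0),(1,0)]⟩),.k,.k,⟨true,0,⟨1,[(34,0),(0,0)]⟩,
  ⟨0,[]⟩⟩,⟨false,1,⟨1,[(0,1),(33,0),(0,0)]⟩,⟨1,[(21,1),(23,0),(0,0)]⟩⟩,⟨true,0,⟨0,[(44,0)]⟩,⟨0,[(43,
  0)]⟩⟩,⟨true,1,⟨1,[(1,1),(32,0),(0,0)]⟩,⟨0,[(20,0)]⟩⟩,⟨false,1,⟨1,[(27,0),(0,0),(17,0)]⟩,⟨0,[]⟩⟩,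
  ⟨true,1,⟨1,[(0,1),(33,0),(0,0)]⟩,⟨0,[(21,0)]⟩⟩,[.e ⟨false,0,⟨3,[(3,1),(8,0),(20,0),(0,0)]⟩,⟨3,
  [(16,1),(10,0),(0,0),(17,0)]⟩⟩ ⟨false,1,⟨0,[(1,0),(46,0)]⟩,⟨0,[(20,0),(25,0)]⟩⟩,.a ⟨true,0,⟨0,
  [(44,0)]⟩,⟨2,[(6,0),(7,0),(16,0),(4,1),(0,1)]⟩⟩ ⟨true,0,⟨0,[(44,0)]⟩,⟨5,[(6,1),(7,1),(19,2),(0,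
  0)]⟩⟩ ⟨false,1,⟨0,[(1,0)]⟩,⟨3,[(16,1),(4,3),(5,0),(0,0),(17,0)]⟩⟩,.o ⟨false,0,⟨0,[(28,0)]⟩,⟨1,[(0,
  1),(33,0),(0,0)]⟩⟩,.o ⟨false,0,⟨1,[(28,1),(5,0),(0,0)]⟩,⟨0,[(0,0)]⟩⟩]⟩) (.K ⟨0,[1,0,0,0,-1],1,1,
  (⟨0,[(29,0)]⟩,⟨0,[(30,0)]⟩),.k,(.r (-1) ⟨2,[(13,0),(13,0),(0,0),(15,0),(1,0)]⟩ ⟨6,[(14,2),(7,3),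
  (9,0),(2,0),(5,0)]⟩),(.r (-1) ⟨3,[(14,1),(7,1),(4,0),(0,0),(17,2)]⟩ ⟨3,[(3,1),(8,0),(20,0),(0,
  0)]⟩),.k,.k,[⟨2,[(1,2),(4,0),(7,0),(20,1)]⟩,⟨0,[(0,0)]⟩,⟨0,[(21,0),(26,0)]⟩,⟨5,[(1,5),(4,1),(7,1),
  (19,2),(0,0)]⟩]⟩)) (.Q [0,0,0,1,1,0,0,0,-1,-1,0,1] (.p true [0,0,0,0,1] [1] (⟨0,[(29,0)]⟩,⟨0,[(28,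
  0)]⟩) .k 1 (⟨0,[]⟩,⟨0,[]⟩) .k .k) (.Q [0,0,-1,0,1,0,0,0,-1,0,0,1] (.p true [0,0,0,0,1] [] (⟨0,
  [(30,0)]⟩,⟨0,[(29,0)]⟩) .k 0 (⟨0,[]⟩,⟨0,[]⟩) .k .k) (.S ⟨1,0,[0,1,0,-1],[0,0,0,0,1],[1,2],(⟨0,
  [(31,0)]⟩,⟨0,[(30,0)]⟩),⟨0,[(3,0)]⟩,.k,(.r 0 ⟨3,[(4,1),(8,0),(20,0),(0,0)]⟩ ⟨3,[(15,1),(7,1),(4,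
  0),(0,0),(17,2)]⟩),⟨false,0,⟨0,[]⟩,⟨1,[(28,0),(0,0),(17,0)]⟩⟩,⟨true,0,⟨0,[(45,0)]⟩,⟨0,[(44,0)]⟩⟩,
  ⟨true,0,⟨0,[(44,0)]⟩,⟨0,[(45,0)]⟩⟩,⟨false,1,⟨1,[(28,0),(0,0),(17,0)]⟩,⟨0,[]⟩⟩,[.e ⟨false,0,⟨0,
  [(42,0)]⟩,⟨0,[(47,0)]⟩⟩ ⟨false,0,⟨3,[(4,1),(8,0),(20,0),(0,0)]⟩,⟨3,[(17,1),(10,0),(0,0),(17,0)]⟩⟩,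
  .o ⟨false,0,⟨0,[(29,0),(15,0)]⟩,⟨0,[(1,0)]⟩⟩,.o ⟨false,0,⟨0,[(29,0)]⟩,⟨0,[(1,0),(43,0)]⟩⟩,.a
  ⟨true,(-1),⟨0,[(2,0),(42,0)]⟩,⟨0,[(0,0)]⟩⟩ ⟨false,0,⟨5,[(4,0),(8,0),(28,0),(0,1)]⟩,⟨1,[(35,0),(0,
  0),(10,1)]⟩⟩ ⟨true,0,⟨3,[(4,1),(8,0),(20,0),(0,0)]⟩,⟨5,[(7,1),(7,1),(19,2),(0,0)]⟩⟩]⟩) (.R ⟨1,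
  false,false,false,[1,0,-1],[0,0,0,0,1],[0,0,0,-1,0,0,0,-1],(⟨0,[(37,0)]⟩,⟨0,[(38,0)]⟩),(⟨0,[(31,
  0)]⟩,⟨0,[(30,0)]⟩),⟨0,[(26,0)]⟩,.k,.k,.k,.k,(.r (-1) ⟨2,[(12,0),(1,0),(3,1),(26,2)]⟩ ⟨6,[(15,5),
  (7,0),(9,1),(2,1),(5,1)]⟩),.k,⟨false,1,⟨2,[(12,0),(1,0),(3,1),(26,2)]⟩,⟨1,[(9,0),(5,0),(28,0)]⟩⟩,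
  ⟨true,(-1),⟨0,[(0,0),(31,0)]⟩,⟨0,[(1,0),(34,0),(8,0)]⟩⟩,⟨true,0,⟨0,[(45,0)]⟩,⟨0,[(44,0)]⟩⟩,⟨true,
  (-1),⟨3,[(0,0),(1,2),(1,1),(19,0),(0,0),(7,0)]⟩,⟨0,[(1,0),(8,0),(34,0)]⟩⟩,⟨false,1,⟨1,[(28,0),(0,
  0),(17,0)]⟩,⟨0,[]⟩⟩,⟨true,(-1),⟨1,[(0,0),(1,0),(6,0),(14,0),(7,0)]⟩,⟨0,[(1,0),(8,0),(34,1)]⟩⟩,[.o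
  ⟨false,(-1),⟨5,[(0,5),(3,0),(8,0),(28,0),(0,1)]⟩,⟨1,[(28,1),(10,0),(7,0)]⟩⟩,.o ⟨false,0,⟨0,[(29,
  0)]⟩,⟨0,[(1,0),(43,0)]⟩⟩,.o ⟨false,1,⟨1,[(36,1),(2,0),(6,0)]⟩,⟨0,[(20,0)]⟩⟩,.a ⟨true,0,⟨0,[(36,
  0)]⟩,⟨0,[(32,0)]⟩⟩ ⟨false,1,⟨2,[(12,0),(1,0),(3,1),(26,2)]⟩,⟨0,[(16,0)]⟩⟩ ⟨true,(-1),⟨7,[(0,6),(3,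
  1),(8,1),(7,0),(3,0),(6,5),(10,2)]⟩,⟨0,[(1,0),(34,0),(8,0)]⟩⟩]⟩)) (.Q [0,0,0,0,-1,0,-1,-1,1,0,1,
  -1] (.p true [0,0,1] [0,0,0,0,1] (⟨0,[(37,0)]⟩,⟨0,[(36,0)]⟩) .k 2 (⟨0,[(30,0)]⟩,⟨0,[(29,0)]⟩) .k
  (.r (-1) ⟨2,[(3,0),(10,1),(12,0),(0,0),(17,1)]⟩ ⟨1,[(12,0),(20,0),(0,0)]⟩)) (.R ⟨1,false,false,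
  true,[0,0,0,0,1],[0,0,1],[1,2],(⟨0,[(31,0)]⟩,⟨0,[(30,0)]⟩),(⟨0,[(38,0)]⟩,⟨0,[(37,0)]⟩),⟨0,[(3,
  0)]⟩,.k,.k,(.r 0 ⟨3,[(4,1),(8,0),(20,0),(0,0)]⟩ ⟨3,[(15,1),(7,1),(4,0),(0,0),(17,2)]⟩),.k,(.r 0
  ⟨0,[(13,0),(31,0)]⟩ ⟨1,[(15,1),(12,0),(0,0),(17,0)]⟩),.k,⟨false,0,⟨0,[(13,0)]⟩,⟨2,[(4,0),(10,1),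
  (12,0),(0,0),(17,1)]⟩⟩,⟨true,1,⟨0,[(20,0),(7,0)]⟩,⟨0,[(0,0),(14,0),(29,0)]⟩⟩,⟨false,0,⟨0,[]⟩,⟨1,
  [(28,0),(0,0),(17,0)]⟩⟩,⟨false,2,⟨0,[(28,0),(4,0),(13,0)]⟩,⟨0,[(0,0)]⟩⟩,⟨true,0,⟨0,[(44,0)]⟩,⟨0,
  [(45,0)]⟩⟩,⟨false,2,⟨0,[(24,0),(3,0),(18,0)]⟩,⟨0,[(0,0),(44,0)]⟩⟩,[.o ⟨false,0,⟨0,[(33,0)]⟩,⟨1,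
  [(10,1),(28,0),(7,0)]⟩⟩,.e ⟨false,0,⟨5,[(4,0),(8,0),(28,0),(0,1)]⟩,⟨1,[(28,0),(0,0),(17,0)]⟩⟩
  ⟨false,2,⟨1,[(28,1),(4,1),(12,0),(0,0)]⟩,⟨0,[(0,0)]⟩⟩,.a ⟨true,(-1),⟨1,[(0,0),(0,0),(13,0),(16,
  0)]⟩,⟨0,[(28,0)]⟩⟩ ⟨false,0,⟨0,[(49,0)]⟩,⟨0,[(47,0)]⟩⟩ ⟨true,1,⟨0,[(28,0),(4,0)]⟩,⟨0,[(0,0)]⟩⟩,.o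
  ⟨false,(-1),⟨0,[(0,0),(14,0),(4,0),(24,0)]⟩,⟨1,[(28,1),(10,0),(6,0)]⟩⟩]⟩) (.Q [0,-1,0,-1,0,0,1,1,
  0,1,-1] (.p false [0,0,1] [1] (⟨0,[(38,0)]⟩,⟨0,[(37,0)]⟩) .k 1 (⟨0,[]⟩,⟨0,[]⟩) .k .k) (.R ⟨1,
  false,false,true,[0,-1,1],[1,-1],[1,1],(⟨0,[(28,0)]⟩,⟨0,[(38,0),(3,0)]⟩),(⟨0,[(41,0)]⟩,⟨0,[(42,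
  0)]⟩),⟨0,[(6,0)]⟩,.k,.k,(.r (-1) ⟨1,[(5,1),(23,0),(0,0),(17,0)]⟩ ⟨1,[(8,1),(27,2),(0,0)]⟩),.k,.k,
  .k,⟨true,0,⟨5,[(8,1),(7,1),(19,2),(0,0)]⟩,⟨0,[(46,0)]⟩⟩,⟨false,1,⟨5,[(8,1),(1,1),(4,1),(21,3),(2,
  2),(6,0)]⟩,⟨4,[(0,0),(2,0),(22,1),(2,0),(3,0),(1,0)]⟩⟩,⟨false,0,⟨1,[(8,0),(2,0),(24,1)]⟩,⟨14,[(1,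
  1),(3,9),(10,2),(1,0),(11,1),(6,1),(10,11)]⟩⟩,⟨true,0,⟨0,[(7,0)]⟩,⟨1,[(0,0),(0,0),(20,0)]⟩⟩,
  ⟨false,0,⟨0,[(8,0),(27,0)]⟩,⟨5,[(0,3),(4,1),(9,1),(13,0),(0,0),(6,3),(2,1),(7,0)]⟩⟩,⟨false,1,⟨3,
  [(8,0),(9,0),(16,2),(4,1),(7,0)]⟩,⟨0,[(0,0)]⟩⟩,[.e ⟨false,0,⟨5,[(5,0),(8,0),(28,0),(0,1)]⟩,⟨1,
  [(29,0),(0,0),(17,0)]⟩⟩ ⟨false,1,⟨3,[(10,2),(4,1),(19,2),(1,0),(2,1)]⟩,⟨0,[(0,0),(7,0),(27,0)]⟩⟩,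
  .a ⟨true,0,⟨0,[(46,0)]⟩,⟨1,[(0,0),(7,0),(13,0),(6,0)]⟩⟩ ⟨true,0,⟨0,[]⟩,⟨1,[(36,0),(0,0)]⟩⟩ ⟨false,
  1,⟨1,[(5,0),(2,0),(6,0),(21,0),(2,0)]⟩,⟨6,[(3,3),(4,0),(7,0),(9,2),(2,3),(6,1)]⟩⟩,.o ⟨false,0,⟨0,
  [(36,0)]⟩,⟨5,[(8,1),(1,1),(4,1),(21,3),(2,2),(6,0)]⟩⟩,.o ⟨false,0,⟨1,[(36,2),(0,0)]⟩,⟨5,[(5,2),(2,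
  4),(6,2),(0,1),(20,0),(2,2)]⟩⟩]⟩) (.Q [0,0,0,0,-1,0,0,0,1,1,0,-1] (.p false [0,0,0,0,1] [1] (⟨0,
  [(32,0)]⟩,⟨0,[(31,0)]⟩) .k 1 (⟨0,[]⟩,⟨0,[]⟩) .k .k) (.Q [0,0,-1,0,1,0,0,0,-1,0,0,1] (.p true [0,0,
  0,0,1] [] (⟨0,[(33,0)]⟩,⟨0,[(32,0)]⟩) .k 0 (⟨0,[]⟩,⟨0,[]⟩) .k .k) (.Q [0,0,0,0,1,0,-1,-1,-1,-1,1,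
  1] (.p true [0,0,1] [1,0,0,0,-1] (⟨0,[(41,0)]⟩,⟨0,[(40,0)]⟩) .k 2 (⟨0,[(33,0)]⟩,⟨0,[(34,0)]⟩) .k
  (.r 0 ⟨3,[(7,0),(10,1),(17,0),(2,0),(5,0)]⟩ ⟨0,[(21,0),(26,0)]⟩)) (.R ⟨1,false,false,false,[0,0,0,
  0,1],[1,-1,-1],[1,1],(⟨0,[(35,0)]⟩,⟨0,[(34,0)]⟩),(⟨0,[(30,0)]⟩,⟨0,[(42,0),(2,0)]⟩),⟨0,[(7,0)]⟩,.k,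
  .k,(.r 0 ⟨3,[(8,1),(8,0),(20,0),(0,0)]⟩ ⟨9,[(4,1),(14,2),(1,0),(5,4),(5,1),(6,1),(10,6)]⟩),(.r 0
  ⟨6,[(19,5),(7,0),(9,1),(2,1),(5,1)]⟩ ⟨2,[(16,0),(1,0),(3,1),(26,2)]⟩),.k,.k,⟨false,0,⟨1,[(13,0),
  (5,0),(28,0)]⟩,⟨2,[(16,0),(1,0),(3,1),(26,2)]⟩⟩,⟨true,1,⟨0,[(0,0),(18,0),(29,0)]⟩,⟨0,[(2,0),(21,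
  0)]⟩⟩,⟨true,0,⟨0,[]⟩,⟨0,[(53,0)]⟩⟩,⟨false,2,⟨0,[(0,0),(48,0),(1,0)]⟩,⟨0,[(2,0),(25,0)]⟩⟩,⟨false,1,
  ⟨3,[(21,1),(10,0),(0,0),(17,0)]⟩,⟨0,[(49,0)]⟩⟩,⟨false,2,⟨0,[(0,0),(50,0)]⟩,⟨0,[(5,0),(22,0)]⟩⟩,
  [.a ⟨true,0,⟨0,[(14,0),(34,0)]⟩,⟨0,[(19,0),(16,0)]⟩⟩ ⟨false,0,⟨5,[(8,0),(8,0),(28,0),(0,1)]⟩,⟨1,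
  [(32,0),(0,0),(17,0)]⟩⟩ ⟨true,1,⟨0,[(0,0),(48,0)]⟩,⟨0,[(2,0),(16,0),(4,0)]⟩⟩,.o ⟨false,1,⟨1,[(14,
  1),(28,0),(5,1),(1,0)]⟩,⟨0,[(28,0)]⟩⟩,.a ⟨true,(-1),⟨0,[(2,0)]⟩,⟨0,[(32,0)]⟩⟩ ⟨false,0,⟨0,[]⟩,⟨1,
  [(32,0),(0,0),(17,0)]⟩⟩ ⟨true,1,⟨0,[(0,0),(48,0)]⟩,⟨0,[(2,0),(25,0)]⟩⟩,.a ⟨true,(-1),⟨3,[(5,1),(0,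
  1),(32,0),(0,0)]⟩,⟨0,[(1,0)]⟩⟩ ⟨true,0,⟨5,[(8,0),(8,0),(28,0),(0,1)]⟩,⟨1,[(39,0),(0,0)]⟩⟩ ⟨false,
  2,⟨5,[(0,3),(17,1),(13,1),(5,1),(4,0),(5,1),(1,2)]⟩,⟨0,[(2,0),(16,0),(4,0)]⟩⟩]⟩) (.I [1,-2,0,1,1]
  (.S ⟨1,0,[0,2,0,-1],[0,0,0,0,1],[1,1],(⟨0,[(36,0)]⟩,⟨0,[(35,0)]⟩),⟨0,[(8,0)]⟩,.k,(.r 0 ⟨3,[(9,1),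
  (8,0),(20,0),(0,0)]⟩ ⟨9,[(5,1),(14,2),(1,0),(5,4),(5,1),(6,1),(10,6)]⟩),⟨true,0,⟨0,[]⟩,⟨0,[(54,
  0)]⟩⟩,⟨false,0,⟨0,[(50,0)]⟩,⟨3,[(22,1),(10,0),(0,0),(17,0)]⟩⟩,⟨false,1,⟨3,[(22,1),(10,0),(0,0),
  (17,0)]⟩,⟨0,[(50,0)]⟩⟩,⟨true,0,⟨0,[(54,0)]⟩,⟨0,[]⟩⟩,[.e ⟨false,0,⟨5,[(9,0),(8,0),(28,0),(0,1)]⟩,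
  ⟨1,[(33,0),(0,0),(17,0)]⟩⟩ ⟨false,0,⟨1,[(9,0),(29,0),(0,0),(6,0)]⟩,⟨0,[(0,0)]⟩⟩,.o ⟨false,(-1),⟨0,
  [(1,0),(9,0),(38,0)]⟩,⟨3,[(0,1),(4,0),(6,0),(20,2),(10,1)]⟩⟩,.e ⟨false,0,⟨0,[]⟩,⟨1,[(33,0),(0,0),
  (17,0)]⟩⟩ ⟨false,0,⟨3,[(9,1),(29,1),(0,2),(0,0)]⟩,⟨0,[(0,0)]⟩⟩,.a ⟨true,(-1),⟨3,[(6,1),(0,1),(32,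
  0),(0,0)]⟩,⟨0,[(2,0)]⟩⟩ ⟨true,0,⟨5,[(9,0),(8,0),(28,0),(0,1)]⟩,⟨1,[(40,0),(0,0)]⟩⟩ ⟨false,0,⟨3,
  [(9,1),(8,0),(20,0),(0,0)]⟩,⟨1,[(0,1),(39,0),(0,0)]⟩⟩]⟩) (.S ⟨1,0,[0,1,0,-1],[0,0,0,0,1],[0,2,0,
  -1],(⟨0,[(36,0)]⟩,⟨0,[(35,0)]⟩),⟨0,[(8,0)]⟩,.k,(.r 0 ⟨26,[(0,4),(8,7),(9,2),(10,3),(8,7),(4,1),(2,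
  1)]⟩ ⟨9,[(5,1),(14,2),(1,0),(5,4),(5,1),(6,1),(10,6)]⟩),⟨false,0,⟨0,[(50,0)]⟩,⟨3,[(22,1),(10,0),
  (0,0),(17,0)]⟩⟩,⟨true,0,⟨0,[(50,0)]⟩,⟨0,[(49,0)]⟩⟩,⟨true,0,⟨0,[(54,0)]⟩,⟨0,[]⟩⟩,⟨false,1,⟨1,[(33,
  0),(0,0),(17,0)]⟩,⟨0,[]⟩⟩,[.o ⟨false,(-1),⟨1,[(0,0),(2,0),(2,0),(37,0)]⟩,⟨1,[(5,0),(6,0),(20,0),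
  (10,0),(7,0)]⟩⟩,.a ⟨true,(-1),⟨0,[(6,0)]⟩,⟨1,[(5,0),(6,0),(20,0)]⟩⟩ ⟨false,0,⟨26,[(0,4),(8,7),(9,
  2),(10,3),(8,7),(4,1),(2,1)]⟩,⟨3,[(22,1),(10,0),(0,0),(17,0)]⟩⟩ ⟨true,0,⟨0,[(50,0)]⟩,⟨5,[(12,1),
  (7,1),(19,2),(0,0)]⟩⟩,.a ⟨true,(-1),⟨0,[(3,0)]⟩,⟨0,[(33,0)]⟩⟩ ⟨true,(-1),⟨0,[(0,0)]⟩,⟨3,[(22,1),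
  (10,0),(0,0),(17,0)]⟩⟩ ⟨false,0,⟨0,[(50,0)]⟩,⟨3,[(22,1),(10,0),(0,0),(17,0)]⟩⟩,.a ⟨true,(-1),⟨3,
  [(6,1),(0,1),(32,0),(0,0)]⟩,⟨0,[(2,0)]⟩⟩ ⟨false,0,⟨26,[(0,4),(8,7),(9,2),(10,3),(8,7),(4,1),(2,
  1)]⟩,⟨5,[(12,1),(7,1),(19,2),(0,0),(10,5)]⟩⟩ ⟨true,0,⟨26,[(0,4),(8,7),(9,2),(10,3),(8,7),(4,1),(2,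
  1)]⟩,⟨5,[(12,1),(7,1),(19,2),(0,0)]⟩⟩]⟩))) (.S ⟨1,0,[0,1,0,-1],[0,0,0,0,1],[1,2],(⟨0,[(34,0)]⟩,⟨0,
  [(33,0)]⟩),⟨0,[(6,0)]⟩,.k,(.r 0 ⟨3,[(7,1),(8,0),(20,0),(0,0)]⟩ ⟨9,[(3,1),(14,2),(1,0),(5,4),(5,1),
  (6,1),(10,6)]⟩),⟨false,0,⟨0,[]⟩,⟨1,[(31,0),(0,0),(17,0)]⟩⟩,⟨true,0,⟨0,[(48,0)]⟩,⟨0,[(47,0)]⟩⟩,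
  ⟨true,0,⟨0,[(47,0)]⟩,⟨0,[(48,0)]⟩⟩,⟨false,1,⟨1,[(31,0),(0,0),(17,0)]⟩,⟨0,[]⟩⟩,[.o ⟨false,(-1),⟨7,
  [(0,5),(3,1),(2,2),(1,1),(6,0),(21,1),(6,0)]⟩,⟨1,[(3,0),(6,0),(20,0),(10,0),(7,0)]⟩⟩,.a ⟨true,
  (-1),⟨0,[(4,0)]⟩,⟨1,[(3,0),(6,0),(20,0)]⟩⟩ ⟨false,0,⟨5,[(7,0),(8,0),(28,0),(0,1)]⟩,⟨1,[(31,0),(0,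
  0),(17,0)]⟩⟩ ⟨true,0,⟨0,[(48,0)]⟩,⟨5,[(10,1),(7,1),(19,2),(0,0)]⟩⟩,.e ⟨false,0,⟨0,[(52,0)]⟩,⟨0,
  [(50,0)]⟩⟩ ⟨false,0,⟨0,[(48,0)]⟩,⟨3,[(20,1),(10,0),(0,0),(17,0)]⟩⟩,.o ⟨false,(-1),⟨0,[(0,0)]⟩,⟨1,
  [(31,1),(10,0),(6,0)]⟩⟩]⟩)) (.Q [0,0,-1,0,0,0,0,0,0,1] (.pp false [-1,1]) (.S ⟨1,2,[],[0,0,0,0,1],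
  [1,2],(⟨0,[(34,0)]⟩,⟨0,[(33,0)]⟩),⟨0,[(6,0)]⟩,.k,(.r 0 ⟨3,[(7,1),(8,0),(20,0),(0,0)]⟩ ⟨9,[(3,1),
  (14,2),(1,0),(5,4),(5,1),(6,1),(10,6)]⟩),⟨false,0,⟨0,[]⟩,⟨1,[(31,0),(0,0),(17,0)]⟩⟩,⟨true,1,⟨0,
  [(1,0)]⟩,⟨0,[(25,0)]⟩⟩,⟨true,0,⟨0,[(47,0)]⟩,⟨0,[(48,0)]⟩⟩,⟨false,2,⟨3,[(1,1),(18,1),(10,1),(10,0),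
  (7,0)]⟩,⟨0,[(4,0)]⟩⟩,[.e ⟨false,0,⟨0,[(45,0)]⟩,⟨0,[(50,0)]⟩⟩ ⟨false,1,⟨5,[(1,5),(5,0),(8,0),(28,
  0),(0,1)]⟩,⟨0,[(25,0),(24,0)]⟩⟩,.fo,.o ⟨false,0,⟨0,[(32,0)]⟩,⟨0,[(1,0)]⟩⟩,.a ⟨true,(-1),⟨3,[(4,1),
  (0,1),(32,0),(0,0)]⟩,⟨0,[(0,0),(0,0)]⟩⟩ ⟨false,0,⟨5,[(7,0),(8,0),(28,0),(0,1)]⟩,⟨1,[(38,0),(0,0),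
  (10,1)]⟩⟩ ⟨true,1,⟨5,[(1,5),(5,0),(8,0),(28,0),(0,1)]⟩,⟨3,[(4,1),(0,1),(32,0),(0,0)]⟩⟩]⟩) (.R ⟨1,
  false,false,true,[1,0,-1],[1,0,0,0,-1],[1,0,0,0,0,0,0,-1],(⟨0,[(40,0)]⟩,⟨0,[(41,0)]⟩),(⟨0,[(33,
  0)]⟩,⟨0,[(34,0)]⟩),⟨0,[(29,0)]⟩,.k,.k,.k,.k,(.r 0 ⟨0,[(16,0),(31,0)]⟩ ⟨4,[(3,1),(14,2),(1,0),(11,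
  1),(6,1),(10,1)]⟩),.k,⟨true,0,⟨0,[(15,0)]⟩,⟨0,[(18,0),(29,0)]⟩⟩,⟨false,1,⟨0,[(1,0),(33,0)]⟩,⟨3,
  [(5,1),(1,0),(2,0),(6,0),(14,1),(6,2),(2,0)]⟩⟩,⟨true,0,⟨0,[]⟩,⟨0,[(52,0)]⟩⟩,⟨true,1,⟨0,[(3,0)]⟩,
  ⟨0,[(2,0),(1,0)]⟩⟩,⟨false,1,⟨3,[(20,1),(10,0),(0,0),(17,0)]⟩,⟨0,[(48,0)]⟩⟩,⟨true,1,⟨0,[(1,0),(16,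
  0),(16,0)]⟩,⟨0,[(4,0),(4,0)]⟩⟩,[.o ⟨false,1,⟨0,[(1,0)]⟩,⟨0,[(32,0)]⟩⟩,.o ⟨false,2,⟨1,[(31,1),(10,
  0),(7,0)]⟩,⟨0,[(0,0),(3,0),(41,0)]⟩⟩,.o ⟨false,1,⟨1,[(39,1),(2,0),(6,0)]⟩,⟨0,[(23,0)]⟩⟩,.a ⟨true,
  0,⟨0,[(39,0)]⟩,⟨0,[(35,0)]⟩⟩ ⟨false,1,⟨2,[(15,0),(1,0),(3,1)]⟩,⟨0,[(18,0),(29,0)]⟩⟩ ⟨true,1,⟨0,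
  [(1,0),(33,0)]⟩,⟨4,[(0,2),(1,1),(1,0),(0,2),(1,1),(17,0),(13,2)]⟩⟩]⟩)))))))))) (.S ⟨1,0,[0,0,1,0,
  0,0,0,1],[0,1,1],[1,1,1,1,0,0,0,1],(⟨0,[(32,0),(2,0)]⟩,⟨0,[(20,0)]⟩),⟨0,[(32,0)]⟩,.k,.k,⟨false,0,
  ⟨0,[]⟩,⟨1,[(22,0),(0,0),(17,0)]⟩⟩,⟨true,0,⟨0,[(39,0)]⟩,⟨0,[(38,0)]⟩⟩,⟨true,0,⟨0,[(38,0)]⟩,⟨0,[(39,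
  0)]⟩⟩,⟨false,1,⟨1,[(22,0),(0,0),(17,0)]⟩,⟨0,[]⟩⟩,[.a ⟨true,0,⟨2,[(0,1),(15,0),(5,0),(4,0)]⟩,⟨0,
  [(4,0)]⟩⟩ ⟨false,0,⟨1,[(3,0),(5,0),(28,0)]⟩,⟨2,[(6,0),(1,0),(3,1),(26,2)]⟩⟩ ⟨true,0,⟨0,[(9,0),(29,
  0)]⟩,⟨0,[(6,0)]⟩⟩,.a ⟨true,0,⟨0,[(0,0)]⟩,⟨0,[(28,0)]⟩⟩ ⟨true,0,⟨0,[(10,0)]⟩,⟨0,[(6,0),(32,0)]⟩⟩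
  ⟨false,1,⟨1,[(3,0),(23,0),(2,0),(10,1)]⟩,⟨0,[(7,0)]⟩⟩,.a ⟨true,0,⟨0,[(26,0)]⟩,⟨0,[(30,0)]⟩⟩
  ⟨false,0,⟨0,[(10,0)]⟩,⟨2,[(6,0),(1,0),(3,1),(26,2)]⟩⟩ ⟨true,0,⟨0,[(9,0),(29,0)]⟩,⟨0,[(7,0)]⟩⟩,.o
  ⟨false,0,⟨0,[(14,0)]⟩,⟨1,[(30,1),(2,0),(6,0)]⟩⟩]⟩)))) (.S ⟨1,0,[0,1,1,0,0,0,0,-1],[1,1,-1],[0,0,1,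
  0,0,0,0,-1],(⟨0,[(28,0),(3,0)]⟩,⟨0,[(18,0)]⟩),⟨0,[(28,0)]⟩,.k,.k,⟨true,0,⟨0,[(36,0)]⟩,⟨0,[(35,
  0)]⟩⟩,⟨false,0,⟨0,[(36,0)]⟩,⟨3,[(8,1),(10,0),(0,0),(17,0)]⟩⟩,⟨false,1,⟨1,[(19,0),(0,0),(17,0)]⟩,
  ⟨0,[]⟩⟩,⟨true,0,⟨0,[(40,0)]⟩,⟨0,[]⟩⟩,[.e ⟨false,0,⟨1,[(0,0),(3,0)]⟩,⟨7,[(5,3),(0,7),(12,2),(0,2),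
  (12,1),(3,0)]⟩⟩ ⟨false,0,⟨1,[(4,0),(20,0),(0,0)]⟩,⟨0,[(6,0),(3,0)]⟩⟩,.a ⟨true,0,⟨0,[(1,0)]⟩,⟨0,
  [(6,0),(16,0),(12,0)]⟩⟩ ⟨true,0,⟨0,[(0,0)]⟩,⟨0,[(6,0),(27,0),(1,1)]⟩⟩ ⟨false,0,⟨1,[(0,0),(3,0)]⟩,
  ⟨7,[(5,3),(0,7),(12,2),(0,2),(12,1),(3,0)]⟩⟩,.o ⟨false,1,⟨1,[(1,0),(3,0),(0,0),(20,0),(2,0),(3,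
  0)]⟩,⟨0,[(26,0)]⟩⟩,.o ⟨false,1,⟨1,[(27,1),(2,0),(6,0)]⟩,⟨0,[(11,0)]⟩⟩]⟩))

theorem ok34 : chk K t34 l27 = true := by decide +kernel

noncomputable def t35 : Tre :=
  (.Q [0,-1,0,0,1,0,-1,-1,0,-1,1] (.p true [0,0,1] [1] (⟨0,[(28,0)]⟩,⟨0,[(27,0)]⟩) .k 1 (⟨0,[]⟩,⟨0,
  []⟩) .k .k) (.S ⟨1,0,[0,1,1,0,0,0,0,1],[0,1,1],[1,0,1,1,0,0,0,1],(⟨0,[(29,0),(2,0)]⟩,⟨0,[(17,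
  0)]⟩),⟨0,[(29,0)]⟩,.k,.k,⟨true,0,⟨0,[]⟩,⟨0,[(40,0)]⟩⟩,⟨false,0,⟨0,[(36,0)]⟩,⟨3,[(8,1),(10,0),(0,
  0),(17,0)]⟩⟩,⟨false,1,⟨3,[(8,1),(10,0),(0,0),(17,0)]⟩,⟨0,[(36,0)]⟩⟩,⟨true,0,⟨0,[(40,0)]⟩,⟨0,[]⟩⟩,
  [.o ⟨false,0,⟨0,[(24,0)]⟩,⟨0,[(0,0)]⟩⟩,.o ⟨false,0,⟨0,[(1,0)]⟩,⟨3,[(0,1),(18,0),(0,0),(4,1),(4,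
  0)]⟩⟩,.a ⟨true,0,⟨0,[(23,0)]⟩,⟨0,[(27,0)]⟩⟩ ⟨true,0,⟨0,[(7,0)]⟩,⟨0,[(4,0),(31,0)]⟩⟩ ⟨false,0,⟨0,
  [(6,0),(29,0)]⟩,⟨2,[(3,0),(1,0),(3,1)]⟩⟩,.o ⟨false,0,⟨0,[(11,0)]⟩,⟨1,[(27,1),(2,0),(6,0)]⟩⟩]⟩)
  (.Q [0,-1,0,-1,1,0,-1,-1,0,-1,1] (.p true [0,0,1] [1] (⟨0,[(29,0)]⟩,⟨0,[(28,0)]⟩) .k 1 (⟨0,[]⟩,⟨0,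
  []⟩) .k .k) (.R ⟨2,true,false,false,[0,1],[1,0,-1],[0,0,1],(⟨0,[]⟩,⟨0,[]⟩),(⟨0,[(29,0)]⟩,⟨0,[(30,
  0)]⟩),⟨0,[]⟩,.k,.k,.k,.k,.k,.k,⟨true,0,⟨0,[(7,0),(29,0)]⟩,⟨0,[(4,0)]⟩⟩,⟨false,1,⟨1,[(28,1),(2,0),
  (6,0)]⟩,⟨0,[(24,0)]⟩⟩,⟨true,0,⟨0,[(37,0)]⟩,⟨0,[(36,0)]⟩⟩,⟨false,1,⟨0,[(0,0)]⟩,⟨0,[(7,0),(16,0)]⟩⟩,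
  ⟨false,1,⟨1,[(20,0),(0,0),(17,0)]⟩,⟨0,[]⟩⟩,⟨true,1,⟨9,[(0,3),(8,1),(10,0),(0,0),(4,5),(4,2)]⟩,⟨0,
  [(1,0)]⟩⟩,[]⟩) (.Q [0,-1,0,-2,1,0,-1,-1,0,-1,1] (.p true [0,0,1] [1] (⟨0,[(30,0)]⟩,⟨0,[(29,0)]⟩)
  .k 1 (⟨0,[]⟩,⟨0,[]⟩) .k .k) (.R ⟨1,false,false,true,[1,-1],[0,0,1],[0,1,1,0,0,0,0,1],(⟨0,[(33,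
  0)]⟩,⟨0,[(34,0)]⟩),(⟨0,[(31,0)]⟩,⟨0,[(30,0)]⟩),⟨0,[(19,0),(0,0)]⟩,.k,.k,(.r (-1) ⟨7,[(0,2),(6,4),
  (7,2),(5,2),(4,2),(8,0)]⟩ ⟨1,[(4,1),(3,1),(19,0),(0,0)]⟩),.k,(.r (-1) ⟨8,[(0,3),(5,0),(0,4),(10,
  3),(8,3),(7,1)]⟩ ⟨3,[(4,1),(3,5),(19,0),(0,0)]⟩),.k,⟨true,0,⟨1,[(28,0),(0,0)]⟩,⟨0,[]⟩⟩,⟨false,0,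
  ⟨1,[(1,0),(2,0),(2,0),(17,0)]⟩,⟨1,[(21,0),(0,0),(6,1),(2,0)]⟩⟩,⟨false,0,⟨1,[(8,1),(19,0),(0,0)]⟩,
  ⟨2,[(5,1),(1,1),(3,0)]⟩⟩,⟨true,(-1),⟨0,[(1,0)]⟩,⟨3,[(0,1),(20,0),(0,0),(4,1),(4,0)]⟩⟩,⟨false,0,⟨3,
  [(4,1),(3,5),(19,0),(0,0)]⟩,⟨1,[(0,0),(4,0),(1,0),(17,0)]⟩⟩,⟨false,0,⟨0,[(2,0),(7,0)]⟩,⟨0,[(0,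
  0)]⟩⟩,[.e ⟨false,0,⟨8,[(2,3),(4,1),(0,3),(17,0),(2,4),(2,1),(2,2)]⟩,⟨2,[(5,0),(1,0),(3,1)]⟩⟩
  ⟨false,0,⟨0,[(2,0),(36,0)]⟩,⟨5,[(0,1),(3,3),(23,0),(0,4),(2,1),(7,1)]⟩⟩,.o ⟨false,0,⟨0,[(3,0)]⟩,
  ⟨2,[(0,0),(9,0),(16,1),(4,0)]⟩⟩,.e ⟨false,0,⟨1,[(0,0),(1,0),(5,1)]⟩,⟨2,[(5,0),(1,0),(3,1)]⟩⟩
  ⟨false,0,⟨1,[(2,0),(5,0),(3,0),(12,0)]⟩,⟨5,[(0,1),(3,3),(23,0),(0,4),(2,1),(7,1)]⟩⟩,.a ⟨true,0,⟨0,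
  [(28,0),(0,0)]⟩,⟨0,[(1,0),(2,0),(2,0),(21,0)]⟩⟩ ⟨true,0,⟨8,[(2,3),(4,1),(0,3),(17,0),(2,4),(2,1),
  (2,2)]⟩,⟨0,[(5,0)]⟩⟩ ⟨false,0,⟨2,[(1,1),(0,0),(4,1),(2,0)]⟩,⟨2,[(0,0),(3,1),(23,1),(0,3),(2,0),(7,
  0)]⟩⟩]⟩) (.Q [0,-1,0,-2,1,0,0,0,-1,-1,0,1] (.p true [0,0,0,0,1] [1] (⟨0,[(24,0)]⟩,⟨0,[(23,0)]⟩)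
  .k 1 (⟨0,[]⟩,⟨0,[]⟩) .k .k) (.R ⟨1,false,false,false,[1,-1],[0,0,0,0,1],[0,1,1],(⟨0,[(34,0)]⟩,⟨0,
  [(35,0)]⟩),(⟨0,[(25,0)]⟩,⟨0,[(24,0)]⟩),⟨0,[(20,0),(0,0)]⟩,.k,.k,(.r (-1) ⟨6,[(8,3),(13,2),(0,2),
  (12,1),(2,5)]⟩ ⟨1,[(5,1),(3,1),(19,0),(0,0)]⟩),(.r (-1) ⟨2,[(8,0),(13,0),(0,0),(15,0),(1,0)]⟩ ⟨6,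
  [(9,2),(7,3),(9,0),(2,0),(5,0)]⟩),(.r (-1) ⟨5,[(8,3),(13,0),(0,0),(15,3),(1,0)]⟩ ⟨0,[(9,0),(7,
  0)]⟩),.k,⟨true,0,⟨1,[(29,0),(0,0)]⟩,⟨0,[]⟩⟩,⟨false,0,⟨2,[(8,1),(2,0),(3,1),(0,0)]⟩,⟨6,[(0,4),(0,
  1),(3,0),(3,1),(7,2),(4,1),(7,1),(2,1)]⟩⟩,⟨false,0,⟨3,[(5,1),(3,1),(19,2),(0,2)]⟩,⟨0,[(13,0)]⟩⟩,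
  ⟨true,(-1),⟨0,[(15,0)]⟩,⟨13,[(0,10),(0,2),(7,0),(7,0),(4,2),(5,2),(4,2),(2,1)]⟩⟩,⟨false,0,⟨1,[(5,
  1),(3,1),(19,0),(0,0)]⟩,⟨5,[(8,3),(13,0),(0,0),(15,3),(1,0)]⟩⟩,⟨false,0,⟨0,[(11,0),(4,0)]⟩,⟨0,[(0,
  0)]⟩⟩,[.e ⟨false,0,⟨0,[(43,0)]⟩,⟨1,[(40,0),(0,0)]⟩⟩ ⟨false,0,⟨0,[(16,0),(23,0)]⟩,⟨0,[(0,0),(4,0),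
  (3,0)]⟩⟩,.o ⟨false,0,⟨0,[(23,0)]⟩,⟨2,[(0,1),(0,0),(3,0),(16,0),(7,0),(2,0),(3,0)]⟩⟩,.e ⟨false,0,
  ⟨1,[(29,0),(0,0)]⟩,⟨1,[(40,0),(0,0)]⟩⟩ ⟨false,0,⟨1,[(16,1),(23,0),(0,0)]⟩,⟨0,[(0,0),(4,0),(3,
  0)]⟩⟩,.a ⟨true,0,⟨0,[(29,0),(0,0)]⟩,⟨0,[(1,0),(4,0),(1,0),(21,0)]⟩⟩ ⟨true,0,⟨0,[(43,0)]⟩,⟨0,[]⟩⟩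
  ⟨false,0,⟨2,[(8,1),(2,0),(3,1),(0,0)]⟩,⟨1,[(0,1),(4,1),(3,1),(19,0),(0,0)]⟩⟩]⟩) (.I [1,1,-2,-1]
  (.Q [0,0,0,0,0,2,0,0,0,-1,1] (.p true [0,0,1] [1] (⟨0,[(33,0)]⟩,⟨0,[(32,0)]⟩) .k 1 (⟨0,[]⟩,⟨0,
  []⟩) .k .k) (.Q [0,0,-1,-1,0,0,1,0,0,0,-1] (.p false [0,0,1] [] (⟨0,[(34,0)]⟩,⟨0,[(33,0)]⟩) .k 0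
  (⟨0,[]⟩,⟨0,[]⟩) .k .k) (.R ⟨0,false,false,false,[1,-1,-1],[1,-1],[1,1],(⟨0,[(23,0)]⟩,⟨0,[(1,0),
  (35,0)]⟩),(⟨0,[(37,0)]⟩,⟨0,[(38,0)]⟩),⟨0,[(1,0)]⟩,.k,.k,(.r (-1) ⟨0,[(11,0),(19,0),(0,0)]⟩ ⟨3,[(8,
  1),(3,5),(19,0),(0,0)]⟩),.k,.k,.k,⟨false,0,⟨0,[(41,0)]⟩,⟨2,[(11,0),(13,0),(0,0),(15,0),(1,0)]⟩⟩,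
  ⟨true,0,⟨0,[(17,0)]⟩,⟨0,[(33,0)]⟩⟩,⟨false,0,⟨0,[(13,0)]⟩,⟨2,[(9,0),(1,0),(3,1),(26,2)]⟩⟩,⟨true,0,
  ⟨0,[(7,0)]⟩,⟨0,[(31,0)]⟩⟩,⟨false,0,⟨0,[]⟩,⟨0,[]⟩⟩,⟨false,0,⟨0,[]⟩,⟨0,[]⟩⟩,[.a ⟨true,0,⟨0,[(42,
  0)]⟩,⟨3,[(1,0),(2,1),(26,1),(2,0),(2,1),(6,1)]⟩⟩ ⟨false,0,⟨3,[(2,0),(36,0),(0,0)]⟩,⟨1,[(25,0),(0,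
  0),(17,0)]⟩⟩ ⟨true,0,⟨0,[(0,0)]⟩,⟨3,[(8,1),(3,1),(19,0),(0,4)]⟩⟩,.o ⟨false,1,⟨1,[(36,0),(5,1),(1,
  0)]⟩,⟨0,[(41,0)]⟩⟩,.a ⟨true,0,⟨0,[(33,0)]⟩,⟨0,[(29,0)]⟩⟩ ⟨false,0,⟨0,[]⟩,⟨1,[(25,0),(0,0),(17,
  0)]⟩⟩ ⟨true,0,⟨0,[(0,0)]⟩,⟨0,[(12,0),(18,0)]⟩⟩,.a ⟨true,0,⟨1,[(32,0),(0,2)]⟩,⟨1,[(4,0),(4,0),(1,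
  0),(17,0)]⟩⟩ ⟨true,0,⟨3,[(2,0),(36,0),(0,0)]⟩,⟨1,[(32,0),(0,0)]⟩⟩ ⟨false,1,⟨7,[(0,3),(10,3),(2,1),
  (7,1),(13,0),(7,0)]⟩,⟨3,[(8,1),(3,1),(19,0),(0,4)]⟩⟩]⟩) (.R ⟨0,false,false,false,[1,-1,-1],[1,-1],
  [1,1],(⟨0,[(23,0)]⟩,⟨0,[(1,0),(35,0)]⟩),(⟨0,[(37,0)]⟩,⟨0,[(38,0)]⟩),⟨0,[(1,0)]⟩,.k,.k,(.r (-1) ⟨0,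
  [(11,0),(19,0),(0,0)]⟩ ⟨2,[(0,0),(7,0),(3,3),(19,0)]⟩),.k,.k,.k,⟨false,0,⟨0,[(41,0)]⟩,⟨2,[(11,0),
  (13,0),(0,0),(15,0),(1,0)]⟩⟩,⟨true,0,⟨0,[(17,0)]⟩,⟨0,[(33,0)]⟩⟩,⟨false,0,⟨0,[(13,0)]⟩,⟨2,[(9,0),
  (1,0),(3,1),(26,2)]⟩⟩,⟨true,0,⟨0,[(7,0)]⟩,⟨0,[(31,0)]⟩⟩,⟨false,0,⟨0,[]⟩,⟨0,[]⟩⟩,⟨false,0,⟨0,[]⟩,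
  ⟨0,[]⟩⟩,[.e ⟨false,0,⟨3,[(2,0),(36,0),(0,0)]⟩,⟨1,[(25,0),(0,0),(17,0)]⟩⟩ ⟨false,1,⟨7,[(11,3),(10,
  3),(2,0),(0,0),(9,1),(2,1),(3,0)]⟩,⟨0,[(0,0)]⟩⟩,.o ⟨false,1,⟨1,[(36,0),(5,1),(1,0)]⟩,⟨0,[(41,
  0)]⟩⟩,.e ⟨false,0,⟨0,[]⟩,⟨1,[(25,0),(0,0),(17,0)]⟩⟩ ⟨false,1,⟨7,[(11,3),(10,1),(2,0),(0,0),(5,3),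
  (3,0),(7,1)]⟩,⟨0,[(0,0)]⟩⟩,.a ⟨true,0,⟨1,[(32,0),(0,2)]⟩,⟨1,[(4,0),(4,0),(1,0),(17,0)]⟩⟩ ⟨true,0,
  ⟨3,[(2,0),(36,0),(0,0)]⟩,⟨1,[(32,0),(0,0)]⟩⟩ ⟨false,1,⟨11,[(11,7),(2,1),(2,7),(4,1),(13,0),(7,
  0)]⟩,⟨1,[(0,1),(31,0),(0,0)]⟩⟩]⟩)) (.Q [0,0,0,0,0,2,0,0,0,0,-1] (.p false [0,0,1] [] (⟨0,[(34,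
  0)]⟩,⟨0,[(33,0)]⟩) .k 0 (⟨0,[]⟩,⟨0,[]⟩) .k .k) (.Q [0,0,1,0,-1,0,2,0,0,1,-2] (.p false [0,0,1] [1,
  0,-1] (⟨0,[(35,0)]⟩,⟨0,[(34,0)]⟩) .k 2 (⟨0,[(34,0)]⟩,⟨0,[(35,0)]⟩) .k (.r (-1) ⟨2,[(11,1),(0,3),
  (12,0),(0,0),(3,1),(2,1)]⟩ ⟨0,[(8,1),(33,1)]⟩)) (.R ⟨0,false,false,true,[0,-1,1],[1,-1,-1],[0,0,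
  -1,-2,0,0,0,1],(⟨0,[(25,0)]⟩,⟨1,[(1,0),(33,1),(0,0)]⟩),(⟨0,[(24,0)]⟩,⟨1,[(1,0),(34,2)]⟩),⟨0,[(1,
  0)]⟩,.k,.k,(.r (-1) ⟨0,[(12,0),(18,0),(2,0)]⟩ ⟨3,[(0,1),(8,3),(3,0),(1,0),(5,0),(12,3),(2,0)]⟩),
  .k,.k,.k,⟨false,1,⟨0,[(12,0),(0,1),(29,0)]⟩,⟨1,[(9,0),(0,0),(0,0),(9,0)]⟩⟩,⟨true,1,⟨2,[(5,0),(3,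
  0),(2,1),(21,6),(2,1),(3,0)]⟩,⟨0,[(0,0)]⟩⟩,⟨true,0,⟨0,[(43,0)]⟩,⟨0,[(42,0)]⟩⟩,⟨false,1,⟨1,[(9,1),
  (0,0),(1,0),(19,0),(1,2),(2,0)]⟩,⟨0,[(7,0),(0,0),(36,0)]⟩⟩,⟨false,0,⟨0,[]⟩,⟨0,[]⟩⟩,⟨false,0,⟨0,
  []⟩,⟨0,[]⟩⟩,[.e ⟨false,1,⟨0,[(12,0),(18,0),(2,0)]⟩,⟨11,[(0,1),(8,15),(3,4),(1,0),(5,0),(12,3),(2,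
  0)]⟩⟩ ⟨false,1,⟨3,[(3,3),(5,2),(2,1),(19,0),(1,6),(2,1),(3,0)]⟩,⟨4,[(0,1),(4,0),(2,0),(4,2),(9,1),
  (21,2)]⟩⟩,.o ⟨false,1,⟨1,[(32,1),(4,0),(5,1),(1,0)]⟩,⟨3,[(5,1),(2,1),(28,0),(7,0)]⟩⟩,.o ⟨false,0,
  ⟨0,[(33,0)]⟩,⟨2,[(5,0),(3,0),(2,1),(21,3),(2,1),(3,0)]⟩⟩,.a ⟨true,(-1),⟨0,[(0,0),(33,0)]⟩,⟨4,[(12,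
  2),(2,0),(18,4),(6,3),(2,0)]⟩⟩ ⟨false,1,⟨0,[(12,0),(0,0),(29,0)]⟩,⟨3,[(0,1),(8,3),(3,0),(1,0),(5,
  0),(12,3),(2,0)]⟩⟩ ⟨true,1,⟨3,[(3,3),(5,2),(2,1),(19,0),(1,6),(2,1),(3,0)]⟩,⟨0,[(0,0),(12,
  0)]⟩⟩]⟩) (.Q [0,0,-2,0,1,0,-1,0,0,-1,1] (.p true [0,0,1] [1] (⟨0,[(36,0)]⟩,⟨0,[(35,0)]⟩) .k 1 (⟨0,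
  []⟩,⟨0,[]⟩) .k .k) (.Q [0,0,2,0,-1,0,2,0,0,1,-2] (.p false [0,0,1] [1,0,-1] (⟨0,[(37,0)]⟩,⟨0,[(36,
  0)]⟩) .k 2 (⟨0,[(36,0)]⟩,⟨0,[(37,0)]⟩) .k (.r (-1) ⟨2,[(13,1),(0,3),(12,0),(0,0),(3,1),(2,1)]⟩ ⟨0,
  [(10,1),(33,1)]⟩)) (.R ⟨0,false,false,true,[0,-1,1],[1,0,-1],[0,0,1],(⟨0,[(27,0)]⟩,⟨1,[(3,0),(33,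
  1),(0,0)]⟩),(⟨0,[(37,0)]⟩,⟨0,[(38,0)]⟩),⟨0,[(3,0)]⟩,.k,.k,(.r (-1) ⟨0,[(14,0),(18,0),(2,0)]⟩ ⟨15,
  [(0,5),(10,17),(3,4),(1,2),(5,2),(12,11),(2,2)]⟩),(.r (-1) ⟨0,[(14,0),(0,0),(17,0),(2,0)]⟩ ⟨8,[(0,
  1),(10,6),(0,8),(5,0),(4,0),(12,3),(2,0)]⟩),.k,.k,⟨false,1,⟨5,[(14,1),(0,3),(12,0),(0,0),(3,1),(2,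
  1),(10,2)]⟩,⟨0,[(13,0)]⟩⟩,⟨true,1,⟨0,[(2,0)]⟩,⟨0,[(0,0)]⟩⟩,⟨true,0,⟨8,[(0,3),(10,4),(6,1),(4,1),
  (12,7),(2,1)]⟩,⟨0,[(1,0),(7,0),(35,0)]⟩⟩,⟨false,1,⟨4,[(2,2),(8,3),(0,3),(5,0),(15,0),(1,2),(2,
  0)]⟩,⟨0,[(9,0),(0,0),(34,0),(1,0)]⟩⟩,⟨false,0,⟨0,[]⟩,⟨0,[]⟩⟩,⟨false,0,⟨0,[]⟩,⟨0,[]⟩⟩,[.a ⟨true,0,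
  ⟨0,[(34,0)]⟩,⟨0,[(9,0),(37,0)]⟩⟩ ⟨true,0,⟨1,[(35,0),(0,0)]⟩,⟨0,[]⟩⟩ ⟨false,1,⟨0,[(1,0),(32,0)]⟩,
  ⟨1,[(0,0),(8,0),(23,0),(13,1)]⟩⟩,.o ⟨false,1,⟨1,[(34,1),(4,0),(7,0)]⟩,⟨0,[(10,0)]⟩⟩,.o ⟨false,0,
  ⟨0,[(35,0)]⟩,⟨3,[(2,1),(36,0),(6,0)]⟩⟩,.o ⟨false,0,⟨1,[(35,2),(0,0)]⟩,⟨0,[(1,0)]⟩⟩]⟩) (.Q [0,1,0,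
  1,-1,0,-1,-1,1,0,1,-1] (.p true [0,0,1] [0,0,0,0,1] (⟨0,[(38,0)]⟩,⟨0,[(37,0)]⟩) .k 2 (⟨0,[(31,
  0)]⟩,⟨0,[(30,0)]⟩) .k (.r (-1) ⟨5,[(14,1),(0,3),(12,0),(0,0),(3,1),(2,1),(10,2)]⟩ ⟨1,[(13,0),(20,
  0),(0,0)]⟩)) (.R ⟨0,false,false,false,[0,-1,1],[0,0,0,0,1],[1,1],(⟨0,[(28,0)]⟩,⟨1,[(4,0),(33,1),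
  (0,0)]⟩),(⟨0,[(32,0)]⟩,⟨0,[(31,0)]⟩),⟨0,[(4,0)]⟩,.k,.k,(.r (-1) ⟨0,[(15,0),(18,0),(2,0)]⟩ ⟨3,[(12,
  5),(3,1),(19,2),(0,2)]⟩),(.r (-1) ⟨2,[(15,1),(0,1),(17,0),(2,0),(8,0),(1,0)]⟩ ⟨0,[(24,0)]⟩),.k,.k,
  ⟨true,0,⟨0,[]⟩,⟨1,[(36,0),(0,0)]⟩⟩,⟨false,0,⟨0,[(0,0),(14,0),(0,0)]⟩,⟨0,[(29,0),(6,0)]⟩⟩,⟨false,0,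
  ⟨1,[(12,1),(23,0),(0,0)]⟩,⟨2,[(15,1),(0,1),(17,0),(2,0),(8,0),(1,0)]⟩⟩,⟨true,(-1),⟨0,[(0,0)]⟩,⟨0,
  [(11,0),(17,0),(16,0)]⟩⟩,⟨false,0,⟨0,[]⟩,⟨0,[]⟩⟩,⟨false,0,⟨0,[]⟩,⟨0,[]⟩⟩,[.o ⟨false,(-1),⟨0,[(0,
  0),(10,0),(34,0)]⟩,⟨1,[(29,1),(10,0),(7,0)]⟩⟩,.a ⟨true,(-1),⟨0,[(0,0),(9,0),(35,0),(1,0)]⟩,⟨0,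
  [(29,0)]⟩⟩ ⟨true,0,⟨0,[]⟩,⟨1,[(36,0),(0,0)]⟩⟩ ⟨false,0,⟨0,[(0,0),(14,0),(0,0)]⟩,⟨0,[(29,0),(6,
  0)]⟩⟩,.o ⟨false,0,⟨0,[(36,0)]⟩,⟨3,[(3,1),(36,0),(6,0)]⟩⟩,.o ⟨false,0,⟨1,[(36,2),(0,0)]⟩,⟨0,[(2,
  0)]⟩⟩]⟩) (.Q [0,0,0,0,0,-1,0,0,0,0,0,1] (.ed false [1,-1,0,0,1] .k) (.Q [0,0,1,0,-1,0,0,0,1,1,0,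
  -1] (.p false [0,0,0,0,1] [1] (⟨0,[(33,0)]⟩,⟨0,[(32,0)]⟩) .k 1 (⟨0,[]⟩,⟨0,[]⟩) .k .k) (.Q [0,0,0,
  1,1,0,0,0,-1,-1,0,1] (.p true [0,0,0,0,1] [1] (⟨0,[(34,0)]⟩,⟨0,[(33,0)]⟩) .k 1 (⟨0,[]⟩,⟨0,[]⟩) .k
  .k) (.S ⟨1,0,[0,1,0,-1],[0,0,0,0,1],[1,2],(⟨0,[(35,0)]⟩,⟨0,[(34,0)]⟩),⟨0,[(2,0)]⟩,.k,(.r 0 ⟨2,[(9,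
  0),(36,0),(2,1)]⟩ ⟨3,[(3,0),(15,0),(1,0),(5,1),(5,0),(6,0),(10,1)]⟩),⟨false,0,⟨0,[]⟩,⟨1,[(32,0),
  (0,0),(17,0)]⟩⟩,⟨true,0,⟨0,[(49,0)]⟩,⟨0,[(48,0)]⟩⟩,⟨true,0,⟨0,[(48,0)]⟩,⟨0,[(49,0)]⟩⟩,⟨false,1,⟨1,
  [(32,0),(0,0),(17,0)]⟩,⟨0,[]⟩⟩,[.e ⟨false,0,⟨0,[(46,0)]⟩,⟨0,[(51,0)]⟩⟩ ⟨false,0,⟨2,[(9,0),(36,0),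
  (2,1)]⟩,⟨3,[(21,1),(10,0),(0,0),(17,0)]⟩⟩,.o ⟨false,0,⟨0,[(33,0),(15,0)]⟩,⟨0,[(0,0)]⟩⟩,.o ⟨false,
  0,⟨0,[(33,0)]⟩,⟨0,[(0,0),(48,0)]⟩⟩,.a ⟨true,(-1),⟨0,[(1,0)]⟩,⟨3,[(3,1),(0,1),(6,0),(1,0),(2,3),
  (15,1)]⟩⟩ ⟨false,0,⟨3,[(9,0),(36,0),(0,0)]⟩,⟨1,[(39,0),(0,0),(10,1)]⟩⟩ ⟨true,0,⟨2,[(9,0),(36,0),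
  (2,1)]⟩,⟨3,[(15,1),(3,1),(19,0),(0,0)]⟩⟩]⟩) (.Q [0,0,0,0,-1,0,0,0,1,1,0,-1] (.p false [0,0,0,0,1]
  [1] (⟨0,[(35,0)]⟩,⟨0,[(34,0)]⟩) .k 1 (⟨0,[]⟩,⟨0,[]⟩) .k .k) (.R ⟨0,false,false,true,[0,-1,1],[1,0,
  0,0,-1],[1],(⟨0,[(32,0)]⟩,⟨1,[(8,0),(33,1),(0,0)]⟩),(⟨0,[(35,0)]⟩,⟨0,[(36,0)]⟩),⟨0,[(8,0)]⟩,.k,.k,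
  (.r (-1) ⟨9,[(1,4),(2,5),(2,4),(11,3),(14,0),(3,3),(8,2),(2,0)]⟩ ⟨3,[(16,5),(3,1),(19,2),(0,2)]⟩),
  (.r 0 ⟨9,[(7,4),(2,0),(3,6),(4,0),(18,2),(5,0),(5,6)]⟩ ⟨0,[(28,0),(23,0)]⟩),.k,.k,⟨true,0,⟨0,[]⟩,
  ⟨1,[(40,0),(0,0)]⟩⟩,⟨false,2,⟨0,[(6,0),(26,0)]⟩,⟨0,[(2,0),(22,0)]⟩⟩,⟨true,0,⟨1,[(16,1),(23,0),(0,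
  0)]⟩,⟨9,[(7,4),(2,0),(3,6),(4,0),(18,2),(5,0),(5,6)]⟩⟩,⟨false,2,⟨3,[(4,1),(2,1),(8,5),(16,1),(7,
  1),(2,0),(7,0)]⟩,⟨0,[(1,0),(13,0)]⟩⟩,⟨false,0,⟨0,[]⟩,⟨0,[]⟩⟩,⟨false,0,⟨0,[]⟩,⟨0,[]⟩⟩,[.a ⟨true,1,
  ⟨0,[(33,0)]⟩,⟨0,[(0,0)]⟩⟩ ⟨true,0,⟨0,[]⟩,⟨1,[(40,0),(0,0)]⟩⟩ ⟨false,2,⟨0,[(6,0),(26,0)]⟩,⟨0,[(2,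
  0),(22,0)]⟩⟩,.e ⟨false,1,⟨1,[(51,0),(0,0)]⟩,⟨0,[(54,0)]⟩⟩ ⟨false,2,⟨0,[(4,0),(0,0),(10,0)]⟩,⟨0,
  [(27,0),(12,0)]⟩⟩,.o ⟨false,0,⟨0,[(40,0)]⟩,⟨3,[(7,1),(36,0),(6,0)]⟩⟩,.o ⟨false,0,⟨1,[(40,2),(0,
  0)]⟩,⟨0,[(6,0)]⟩⟩]⟩) (.S ⟨1,2,[],[0,0,0,0,1],[1,2],(⟨0,[(36,0)]⟩,⟨0,[(35,0)]⟩),⟨0,[(3,0)]⟩,.k,(.r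
  0 ⟨2,[(10,0),(36,0),(2,1)]⟩ ⟨3,[(4,0),(15,0),(1,0),(5,1),(5,0),(6,0),(10,1)]⟩),⟨false,0,⟨0,[]⟩,⟨1,
  [(33,0),(0,0),(17,0)]⟩⟩,⟨true,1,⟨0,[(0,0)]⟩,⟨0,[(27,0)]⟩⟩,⟨true,0,⟨0,[(49,0)]⟩,⟨0,[(50,0)]⟩⟩,
  ⟨false,2,⟨3,[(0,1),(21,1),(10,1),(10,0),(7,0)]⟩,⟨0,[(1,0)]⟩⟩,[.e ⟨false,0,⟨0,[(47,0)]⟩,⟨0,[(52,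
  0)]⟩⟩ ⟨false,1,⟨3,[(0,3),(9,0),(36,0),(0,0)]⟩,⟨0,[(27,0),(24,0)]⟩⟩,.fo,.o ⟨false,0,⟨0,[(34,0)]⟩,
  ⟨0,[(0,0)]⟩⟩,.a ⟨true,(-1),⟨0,[(2,0)]⟩,⟨3,[(4,1),(0,1),(6,0),(1,0),(2,3),(15,1)]⟩⟩ ⟨false,0,⟨3,
  [(10,0),(36,0),(0,0)]⟩,⟨1,[(40,0),(0,0),(10,1)]⟩⟩ ⟨true,1,⟨3,[(0,3),(9,0),(36,0),(0,0)]⟩,⟨0,[(2,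
  0)]⟩⟩]⟩))) (.R ⟨1,false,false,true,[0,0,0,0,1],[1,-1],[0,1,0,-1],(⟨0,[(34,0)]⟩,⟨0,[(33,0)]⟩),(⟨0,
  [(43,0)]⟩,⟨0,[(44,0)]⟩),⟨0,[(1,0)]⟩,.k,.k,(.r 0 ⟨2,[(8,0),(36,0),(2,1)]⟩ ⟨3,[(2,0),(15,0),(1,0),
  (5,1),(5,0),(6,0),(10,1)]⟩),(.r 0 ⟨6,[(18,2),(7,3),(9,0),(2,0),(5,0)]⟩ ⟨2,[(2,0),(14,0),(14,0),(4,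
  0),(12,0)]⟩),.k,.k,⟨true,0,⟨1,[(38,0),(0,0)]⟩,⟨0,[]⟩⟩,⟨false,1,⟨1,[(0,1),(37,0),(0,0)]⟩,⟨1,[(25,
  1),(23,0),(0,0)]⟩⟩,⟨true,0,⟨0,[(48,0)]⟩,⟨0,[(47,0)]⟩⟩,⟨true,1,⟨1,[(0,1),(37,0),(0,0),(8,1)]⟩,⟨0,
  [(24,0)]⟩⟩,⟨false,1,⟨1,[(31,0),(0,0),(17,0)]⟩,⟨0,[]⟩⟩,⟨true,1,⟨1,[(0,1),(37,0),(0,0)]⟩,⟨0,[(25,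
  0)]⟩⟩,[.e ⟨false,0,⟨2,[(8,0),(36,0),(2,1)]⟩,⟨3,[(20,1),(10,0),(0,0),(17,0)]⟩⟩ ⟨false,1,⟨3,[(0,2),
  (1,0),(9,0),(24,1),(4,0),(2,0),(2,2)]⟩,⟨1,[(9,0),(15,0),(24,1)]⟩⟩,.a ⟨true,0,⟨0,[(48,0)]⟩,⟨1,[(10,
  0),(26,0),(2,0),(0,0),(8,0)]⟩⟩ ⟨true,0,⟨0,[(48,0)]⟩,⟨3,[(14,1),(3,1),(19,0),(0,0)]⟩⟩ ⟨false,1,⟨0,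
  [(0,0),(47,0)]⟩,⟨3,[(20,1),(4,3),(5,0),(0,0),(17,0)]⟩⟩,.o ⟨false,0,⟨0,[(32,0)]⟩,⟨1,[(0,1),(37,0),
  (0,0)]⟩⟩,.o ⟨false,0,⟨1,[(32,1),(5,0),(0,0)]⟩,⟨0,[(0,0)]⟩⟩]⟩)) (.Q [0,0,-1,0,1,0,0,0,-1,-1,0,1]
  (.p true [0,0,0,0,1] [1] (⟨0,[(33,0)]⟩,⟨0,[(32,0)]⟩) .k 1 (⟨0,[]⟩,⟨0,[]⟩) .k .k) (.R ⟨0,false,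
  false,true,[0,0,0,0,1],[0,1],[1,1,1,1],(⟨0,[(34,0)]⟩,⟨0,[(33,0)]⟩),(⟨0,[(44,0)]⟩,⟨0,[(43,0)]⟩),⟨0,
  [(1,0)]⟩,.k,.k,(.r 0 ⟨2,[(8,0),(36,0),(2,1)]⟩ ⟨3,[(2,0),(15,0),(1,0),(5,1),(5,0),(6,0),(10,1)]⟩),
  (.r 0 ⟨2,[(8,0),(36,0),(2,1)]⟩ ⟨3,[(2,0),(15,0),(1,0),(5,1),(5,0),(6,0),(10,1)]⟩),.k,.k,⟨true,0,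
  ⟨0,[]⟩,⟨1,[(38,0),(0,0)]⟩⟩,⟨false,1,⟨2,[(0,1),(9,1),(4,1),(1,1),(13,0),(7,1)]⟩,⟨1,[(32,1),(5,0),
  (0,0)]⟩⟩,⟨true,0,⟨3,[(14,1),(3,1),(19,0),(0,0)]⟩,⟨2,[(8,0),(36,0),(2,1)]⟩⟩,⟨false,1,⟨1,[(0,1),(9,
  0),(1,0),(2,1),(23,1),(10,1)]⟩,⟨0,[(32,0),(15,0)]⟩⟩,⟨false,0,⟨0,[]⟩,⟨0,[]⟩⟩,⟨false,0,⟨0,[]⟩,⟨0,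
  []⟩⟩,[.o ⟨false,0,⟨0,[(47,0)]⟩,⟨1,[(42,0),(5,1),(1,0)]⟩⟩,.a ⟨true,0,⟨1,[(10,0),(26,0),(2,0),(0,0),
  (8,0)]⟩,⟨0,[(48,0)]⟩⟩ ⟨true,0,⟨3,[(14,1),(3,1),(19,0),(0,0)]⟩,⟨0,[(48,0)]⟩⟩ ⟨false,1,⟨14,[(0,4),
  (2,1),(6,6),(3,6),(2,2),(13,9),(7,2),(10,1)]⟩,⟨0,[(32,0),(15,0)]⟩⟩,.o ⟨false,0,⟨0,[(32,0)]⟩,⟨1,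
  [(0,1),(37,0),(0,0)]⟩⟩,.o ⟨false,0,⟨1,[(32,1),(5,0),(0,0)]⟩,⟨0,[(0,0)]⟩⟩]⟩) (.Q [0,0,0,0,1,0,0,0,
  -1,-1,0,1] (.p true [0,0,0,0,1] [1] (⟨0,[(34,0)]⟩,⟨0,[(33,0)]⟩) .k 1 (⟨0,[]⟩,⟨0,[]⟩) .k .k) (.Q
  [0,1,1,-1,-1,0,-1,-1,1,0,1,-1] (.p true [0,0,1] [0,0,0,0,1] (⟨0,[(42,0)]⟩,⟨0,[(41,0)]⟩) .k 2 (⟨0,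
  [(35,0)]⟩,⟨0,[(34,0)]⟩) .k (.r (-1) ⟨10,[(3,5),(2,2),(12,4),(1,0),(1,0),(2,2),(6,2),(17,2)]⟩ ⟨1,
  [(17,0),(20,0),(0,0)]⟩)) (.R ⟨0,false,false,true,[0,0,0,0,1],[1,-1],[1,1,-1,-1],(⟨0,[(36,0)]⟩,⟨0,
  [(35,0)]⟩),(⟨0,[(45,0)]⟩,⟨0,[(46,0)]⟩),⟨0,[(3,0)]⟩,.k,.k,(.r 0 ⟨3,[(0,0),(3,0),(5,1),(36,0)]⟩ ⟨3,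
  [(4,0),(15,0),(1,0),(5,1),(5,0),(6,0),(10,1)]⟩),(.r 0 ⟨6,[(20,2),(7,3),(9,0),(2,0),(5,0)]⟩ ⟨15,
  [(0,1),(3,1),(14,5),(13,4),(0,4),(17,4)]⟩),.k,.k,⟨true,0,⟨0,[]⟩,⟨1,[(40,0),(0,0)]⟩⟩,⟨false,1,⟨0,
  [(1,0)]⟩,⟨1,[(27,1),(23,0),(0,0)]⟩⟩,⟨false,1,⟨15,[(0,1),(3,1),(14,5),(13,4),(0,4),(17,4)]⟩,⟨3,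
  [(16,1),(3,1),(19,0),(0,0)]⟩⟩,⟨true,1,⟨0,[(1,0),(48,0)]⟩,⟨0,[(26,0)]⟩⟩,⟨false,0,⟨0,[]⟩,⟨0,[]⟩⟩,
  ⟨false,0,⟨0,[]⟩,⟨0,[]⟩⟩,[.e ⟨false,0,⟨0,[(10,0)]⟩,⟨3,[(4,0),(15,0),(1,0),(5,1),(5,0),(6,0),(10,
  1)]⟩⟩ ⟨false,1,⟨3,[(0,0),(0,3),(2,0),(5,1),(36,0)]⟩,⟨3,[(2,2),(8,0),(7,0),(2,1),(29,0)]⟩⟩,.a
  ⟨true,0,⟨0,[(50,0)]⟩,⟨1,[(12,0),(26,0),(2,0),(0,0),(8,0)]⟩⟩ ⟨false,1,⟨7,[(19,3),(13,2),(0,2),(12,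
  1),(3,0)]⟩,⟨3,[(16,1),(3,1),(19,0),(0,0)]⟩⟩ ⟨true,1,⟨0,[(1,0),(48,0)]⟩,⟨0,[(0,0),(11,0),(39,0)]⟩⟩,
  .o ⟨false,0,⟨0,[(34,0)]⟩,⟨0,[(1,0)]⟩⟩,.e ⟨true,0,⟨0,[(10,0)]⟩,⟨3,[(16,1),(3,1),(19,2),(0,2)]⟩⟩
  ⟨true,1,⟨3,[(0,0),(0,3),(2,0),(5,1),(36,0)]⟩,⟨0,[(0,0),(11,0),(39,0)]⟩⟩]⟩) (.S ⟨1,0,[0,-1,0,-1],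
  [1,0,0,0,-1],[1],(⟨0,[(35,0)]⟩,⟨0,[(36,0)]⟩),⟨1,[(3,0),(5,0),(22,0),(2,0)]⟩,.k,(.r (-1) ⟨2,[(4,0),
  (14,0),(14,0),(4,0),(12,0)]⟩ ⟨6,[(20,2),(7,3),(9,0),(2,0),(5,0)]⟩),⟨false,0,⟨0,[]⟩,⟨1,[(33,0),(0,
  0),(17,0)]⟩⟩,⟨true,0,⟨0,[(50,0)]⟩,⟨0,[(49,0)]⟩⟩,⟨true,0,⟨0,[(49,0)]⟩,⟨0,[(50,0)]⟩⟩,⟨false,1,⟨1,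
  [(33,0),(0,0),(17,0)]⟩,⟨0,[]⟩⟩,[.a ⟨true,1,⟨0,[(0,0),(16,0),(23,0),(8,1)]⟩,⟨0,[(26,0)]⟩⟩ ⟨true,0,
  ⟨0,[]⟩,⟨1,[(40,0),(0,0)]⟩⟩ ⟨false,1,⟨2,[(4,0),(14,0),(14,0),(4,0),(12,0)]⟩,⟨0,[(49,0)]⟩⟩,.o
  ⟨false,2,⟨0,[(1,0),(48,0),(1,0)]⟩,⟨1,[(2,1),(2,0),(6,0),(1,1),(2,1),(21,0),(4,1)]⟩⟩,.o ⟨false,1,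
  ⟨0,[(1,0)]⟩,⟨0,[(34,0)]⟩⟩,.o ⟨false,1,⟨1,[(1,1),(38,0),(0,0)]⟩,⟨1,[(2,0),(8,0),(7,0),(24,
  0)]⟩⟩]⟩)) (.R ⟨0,false,false,true,[0,-1,1],[1,0,0,0,-1],[1],(⟨0,[(31,0)]⟩,⟨1,[(7,0),(33,1),(0,
  0)]⟩),(⟨0,[(34,0)]⟩,⟨0,[(35,0)]⟩),⟨0,[(7,0)]⟩,.k,.k,(.r (-1) ⟨1,[(3,0),(2,0),(11,0),(7,0),(10,0),
  (11,0)]⟩ ⟨3,[(15,5),(3,1),(19,2),(0,2)]⟩),(.r 0 ⟨9,[(6,4),(2,0),(3,6),(4,0),(18,2),(5,0),(5,6)]⟩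
  ⟨0,[(27,0),(23,0)]⟩),.k,.k,⟨true,0,⟨0,[]⟩,⟨1,[(39,0),(0,0)]⟩⟩,⟨false,2,⟨0,[(5,0),(26,0)]⟩,⟨0,[(1,
  0),(22,0)]⟩⟩,⟨true,0,⟨1,[(15,1),(23,0),(0,0)]⟩,⟨9,[(6,4),(2,0),(3,6),(4,0),(18,2),(5,0),(5,6)]⟩⟩,
  ⟨false,2,⟨3,[(3,1),(2,1),(8,5),(16,1),(7,1),(2,0),(7,0)]⟩,⟨0,[(0,0),(13,0),(34,0)]⟩⟩,⟨false,0,⟨0,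
  []⟩,⟨0,[]⟩⟩,⟨false,0,⟨0,[]⟩,⟨0,[]⟩⟩,[.a ⟨true,1,⟨0,[(32,0)]⟩,⟨0,[(0,0)]⟩⟩ ⟨true,0,⟨0,[]⟩,⟨1,[(39,
  0),(0,0)]⟩⟩ ⟨false,2,⟨0,[(5,0),(26,0)]⟩,⟨0,[(1,0),(22,0)]⟩⟩,.e ⟨false,1,⟨1,[(50,0),(0,0)]⟩,⟨0,
  [(53,0)]⟩⟩ ⟨false,2,⟨0,[(3,0),(0,0),(10,0)]⟩,⟨0,[(26,0),(12,0)]⟩⟩,.o ⟨false,0,⟨0,[(39,0)]⟩,⟨3,[(6,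
  1),(36,0),(6,0)]⟩⟩,.o ⟨false,0,⟨1,[(39,2),(0,0)]⟩,⟨0,[(5,0)]⟩⟩]⟩)))))) (.K ⟨0,[1,1,-1],1,1,(⟨1,
  [(2,0),(33,1),(0,0)]⟩,⟨0,[(26,0)]⟩),.k,.k,(.r 0 ⟨3,[(0,1),(9,3),(3,0),(1,0),(5,0),(12,1),(2,0)]⟩
  ⟨0,[(13,0),(18,0),(2,0)]⟩),(.r 0 ⟨6,[(0,1),(9,4),(0,6),(5,0),(4,0),(12,1),(2,0)]⟩ ⟨0,[(13,0),(0,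
  0),(17,0),(2,0)]⟩),.k,[⟨0,[(1,0)]⟩,⟨0,[(0,0)]⟩,⟨0,[(8,0),(35,0)]⟩,⟨3,[(1,1),(15,0),(4,2),(15,0),
  (2,0)]⟩]⟩))) (.Q [0,0,1,0,-1,0,2,0,0,1,-2] (.p false [0,0,1] [1,0,-1] (⟨0,[(35,0)]⟩,⟨0,[(34,0)]⟩)
  .k 2 (⟨0,[(34,0)]⟩,⟨0,[(35,0)]⟩) .k (.r (-1) ⟨2,[(11,1),(0,3),(12,0),(0,0),(3,1),(2,1)]⟩ ⟨0,[(8,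
  1),(33,1)]⟩)) (.R ⟨1,false,false,true,[0,-1,1],[1,-1,-1],[0,0,-1,-2,0,0,0,1],(⟨0,[(25,0)]⟩,⟨0,
  [(35,0),(3,0)]⟩),(⟨0,[(24,0)]⟩,⟨0,[(36,0),(2,0)]⟩),⟨0,[(1,0)]⟩,.k,.k,(.r (-1) ⟨0,[(12,0),(18,0),
  (2,0)]⟩ ⟨3,[(0,1),(8,3),(3,0),(1,0),(5,0),(12,3),(2,0)]⟩),.k,(.r (-1) ⟨0,[(12,0),(0,0),(17,0),(2,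
  0)]⟩ ⟨7,[(0,1),(8,5),(0,7),(10,1),(12,3),(2,0),(7,0)]⟩),.k,⟨false,1,⟨0,[(12,0),(0,1),(29,0)]⟩,⟨1,
  [(9,0),(0,0),(0,0),(9,0)]⟩⟩,⟨true,1,⟨2,[(5,0),(3,0),(2,1),(21,6),(2,1),(3,0)]⟩,⟨0,[(0,0)]⟩⟩,⟨true,
  0,⟨0,[(43,0)]⟩,⟨0,[(42,0)]⟩⟩,⟨false,1,⟨1,[(9,1),(0,0),(1,0),(19,0),(1,2),(2,0)]⟩,⟨0,[(7,0),(0,0),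
  (36,0)]⟩⟩,⟨false,1,⟨1,[(26,0),(0,0),(17,0)]⟩,⟨0,[]⟩⟩,⟨false,1,⟨3,[(9,6),(2,1),(19,0),(1,6),(2,1),
  (3,0)]⟩,⟨0,[(7,0),(0,0),(34,0),(1,0)]⟩⟩,[.e ⟨false,1,⟨0,[(12,0),(18,0),(2,0)]⟩,⟨11,[(0,1),(8,15),
  (3,4),(1,0),(5,0),(12,3),(2,0)]⟩⟩ ⟨false,1,⟨3,[(3,3),(5,2),(2,1),(19,0),(1,6),(2,1),(3,0)]⟩,⟨4,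
  [(0,1),(4,0),(2,0),(4,2),(9,1),(21,2)]⟩⟩,.o ⟨false,1,⟨1,[(32,1),(4,0),(5,1),(1,0)]⟩,⟨3,[(5,1),(2,
  1),(28,0),(7,0)]⟩⟩,.o ⟨false,0,⟨0,[(33,0)]⟩,⟨2,[(5,0),(3,0),(2,1),(21,3),(2,1),(3,0)]⟩⟩,.a ⟨true,
  (-1),⟨0,[(0,0),(33,0)]⟩,⟨4,[(12,2),(2,0),(18,4),(6,3),(2,0)]⟩⟩ ⟨false,1,⟨0,[(12,0),(0,0),(29,0)]⟩,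
  ⟨3,[(0,1),(8,3),(3,0),(1,0),(5,0),(12,3),(2,0)]⟩⟩ ⟨true,1,⟨3,[(3,3),(5,2),(2,1),(19,0),(1,6),(2,
  1),(3,0)]⟩,⟨0,[(0,0),(12,0)]⟩⟩]⟩) (.Q [0,0,2,0,-1,0,1,0,0,1,-1] (.p false [0,0,1] [1] (⟨0,[(36,
  0)]⟩,⟨0,[(35,0)]⟩) .k 1 (⟨0,[]⟩,⟨0,[]⟩) .k .k) (.K ⟨0,[1,1,-1],1,1,(⟨0,[(36,0),(3,0)]⟩,⟨0,[(26,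
  0)]⟩),.k,.k,(.r 0 ⟨3,[(0,1),(9,3),(3,0),(1,0),(5,0),(12,1),(2,0)]⟩ ⟨0,[(13,0),(18,0),(2,0)]⟩),(.r
  0 ⟨6,[(0,1),(9,4),(0,6),(5,0),(4,0),(12,1),(2,0)]⟩ ⟨0,[(13,0),(0,0),(17,0),(2,0)]⟩),.k,[⟨0,[(1,
  0)]⟩,⟨0,[(0,0)]⟩,⟨0,[(8,0),(35,0)]⟩,⟨3,[(1,1),(15,0),(4,2),(15,0),(2,0)]⟩]⟩) (.Q [0,0,0,0,0,-1,0,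
  0,0,0,0,1] (.ed false [1,-1,0,0,1] .k) (.Q [0,0,-1,0,1,0,0,0,-1,-1,0,1] (.p true [0,0,0,0,1] [1]
  (⟨0,[(31,0)]⟩,⟨0,[(30,0)]⟩) .k 1 (⟨0,[]⟩,⟨0,[]⟩) .k .k) (.R ⟨1,false,false,true,[0,0,0,0,1],[1,
  -1],[0,1,0,-1],(⟨0,[(32,0)]⟩,⟨0,[(31,0)]⟩),(⟨0,[(41,0)]⟩,⟨0,[(42,0)]⟩),⟨0,[(1,0)]⟩,.k,.k,(.r 0 ⟨2,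
  [(6,0),(36,0),(2,1)]⟩ ⟨3,[(16,1),(7,1),(4,0),(0,0),(17,2)]⟩),(.r 0 ⟨6,[(16,2),(7,3),(9,0),(2,0),
  (5,0)]⟩ ⟨2,[(15,0),(13,0),(0,0),(15,0),(1,0)]⟩),.k,.k,⟨true,0,⟨1,[(36,0),(0,0)]⟩,⟨0,[]⟩⟩,⟨false,1,
  ⟨1,[(0,1),(35,0),(0,0)]⟩,⟨1,[(23,1),(23,0),(0,0)]⟩⟩,⟨true,0,⟨0,[(46,0)]⟩,⟨0,[(45,0)]⟩⟩,⟨true,1,⟨1,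
  [(0,1),(35,0),(0,0),(8,1)]⟩,⟨0,[(22,0)]⟩⟩,⟨false,1,⟨1,[(29,0),(0,0),(17,0)]⟩,⟨0,[]⟩⟩,⟨true,1,⟨1,
  [(0,1),(35,0),(0,0)]⟩,⟨0,[(23,0)]⟩⟩,[.e ⟨false,0,⟨2,[(6,0),(36,0),(2,1)]⟩,⟨3,[(18,1),(10,0),(0,0),
  (17,0)]⟩⟩ ⟨false,1,⟨0,[(0,0),(45,0),(3,0)]⟩,⟨1,[(7,0),(15,0),(24,1)]⟩⟩,.a ⟨true,0,⟨0,[(46,0)]⟩,⟨1,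
  [(8,0),(26,0),(2,0),(0,0),(8,0)]⟩⟩ ⟨true,0,⟨0,[(46,0)]⟩,⟨3,[(12,1),(3,1),(19,0),(0,0)]⟩⟩ ⟨false,1,
  ⟨0,[(0,0),(45,0)]⟩,⟨3,[(18,1),(4,3),(5,0),(0,0),(17,0)]⟩⟩,.o ⟨false,0,⟨0,[(30,0)]⟩,⟨1,[(0,1),(35,
  0),(0,0)]⟩⟩,.o ⟨false,0,⟨1,[(30,1),(5,0),(0,0)]⟩,⟨0,[(0,0)]⟩⟩]⟩) (.Q [0,0,0,-1,-1,0,0,0,1,1,0,-1]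
  (.p false [0,0,0,0,1] [1] (⟨0,[(32,0)]⟩,⟨0,[(31,0)]⟩) .k 1 (⟨0,[]⟩,⟨0,[]⟩) .k .k) (.Q [0,0,0,0,-1,
  0,0,0,1,1,0,-1] (.p false [0,0,0,0,1] [1] (⟨0,[(33,0)]⟩,⟨0,[(32,0)]⟩) .k 1 (⟨0,[]⟩,⟨0,[]⟩) .k .k)
  (.Q [0,1,-1,-1,1,0,-1,-1,-1,-1,1,1] (.p true [0,0,1] [1,0,0,0,-1] (⟨0,[(41,0)]⟩,⟨0,[(40,0)]⟩) .k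
  2 (⟨0,[(33,0)]⟩,⟨0,[(34,0)]⟩) .k (.r 0 ⟨2,[(5,0),(6,0),(23,1),(2,0)]⟩ ⟨0,[(21,0),(26,0)]⟩)) (.Q
  [0,0,-1,0,-1,0,1,0,1,1,-1,-1] (.p false [0,0,1] [1,0,0,0,-1] (⟨0,[(42,0)]⟩,⟨0,[(41,0)]⟩) .k 2 (⟨0,
  [(34,0)]⟩,⟨0,[(35,0)]⟩) .k (.r 0 ⟨2,[(6,0),(6,0),(23,1),(2,0)]⟩ ⟨2,[(0,0),(1,0),(19,1),(16,0),(11,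
  0)]⟩)) (.R ⟨1,false,false,true,[0,0,0,0,1],[1,-1,-1],[0,1,0,-1],(⟨0,[(36,0)]⟩,⟨0,[(35,0)]⟩),(⟨0,
  [(31,0)]⟩,⟨0,[(43,0),(2,0)]⟩),⟨0,[(5,0)]⟩,.k,.k,(.r 0 ⟨2,[(10,0),(36,0),(2,1)]⟩ ⟨3,[(20,1),(7,1),
  (4,0),(0,0),(17,2)]⟩),(.r 0 ⟨6,[(20,5),(7,0),(9,1),(2,1),(5,1)]⟩ ⟨2,[(17,0),(1,0),(3,1),(26,2)]⟩),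
  .k,.k,⟨true,0,⟨0,[(20,0),(29,0)]⟩,⟨0,[(17,0)]⟩⟩,⟨false,2,⟨2,[(7,0),(25,3),(0,0),(6,0),(2,0)]⟩,⟨0,
  [(0,0)]⟩⟩,⟨true,0,⟨0,[(50,0)]⟩,⟨0,[(49,0)]⟩⟩,⟨false,2,⟨1,[(1,1),(38,0),(0,0),(10,1)]⟩,⟨0,[(0,0),
  (19,0)]⟩⟩,⟨false,1,⟨1,[(33,0),(0,0),(17,0)]⟩,⟨0,[]⟩⟩,⟨false,2,⟨3,[(1,1),(14,1),(16,1),(7,1),(2,0),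
  (7,2)]⟩,⟨0,[(2,0),(12,0)]⟩⟩,[.e ⟨false,0,⟨2,[(10,0),(36,0),(2,1)]⟩,⟨3,[(22,1),(10,0),(0,0),(17,
  0)]⟩⟩ ⟨false,1,⟨0,[(1,0)]⟩,⟨1,[(12,0),(1,0),(19,1),(17,1)]⟩⟩,.o ⟨false,1,⟨1,[(39,1),(4,0),(5,1),
  (1,0)]⟩,⟨3,[(12,1),(2,1),(28,0),(7,0)]⟩⟩,.a ⟨true,(-1),⟨0,[(2,0)]⟩,⟨0,[(33,0)]⟩⟩ ⟨false,0,⟨0,[(50,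
  0)]⟩,⟨3,[(22,1),(10,0),(0,0),(17,0)]⟩⟩ ⟨true,1,⟨1,[(1,1),(38,0),(0,0)]⟩,⟨0,[(0,0),(19,0)]⟩⟩,.e
  ⟨true,0,⟨2,[(10,0),(36,0),(2,1)]⟩,⟨3,[(16,1),(3,1),(19,0),(0,0)]⟩⟩ ⟨true,1,⟨0,[(1,0)]⟩,⟨2,[(0,1),
  (3,0),(15,2),(19,0)]⟩⟩]⟩) (.Q [0,-1,0,-1,2,0,0,0,-2,-1,0,2] (.p true [0,0,0,0,1] [1,0,0,0,-1] (⟨0,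
  [(36,0)]⟩,⟨0,[(35,0)]⟩) .k 2 (⟨0,[(35,0)]⟩,⟨0,[(36,0)]⟩) .k (.r 0 ⟨0,[(54,1)]⟩ ⟨0,[(52,0)]⟩)) (.Q
  [0,1,0,0,0,0,1,1,-1,0,-1,1] (.p false [0,0,1] [0,0,0,0,1] (⟨0,[(44,0)]⟩,⟨0,[(43,0)]⟩) .k 2 (⟨0,
  [(37,0)]⟩,⟨0,[(36,0)]⟩) .k (.r (-1) ⟨8,[(0,0),(4,2),(2,1),(11,1),(0,4),(12,0),(4,3),(13,4)]⟩ ⟨1,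
  [(19,0),(20,0),(0,0)]⟩)) (.R ⟨1,false,false,true,[0,0,0,0,1],[0,0,1],[1,1],(⟨0,[(38,0)]⟩,⟨0,[(37,
  0)]⟩),(⟨0,[(45,0)]⟩,⟨0,[(44,0)]⟩),⟨0,[(7,0)]⟩,.k,.k,(.r 0 ⟨2,[(12,0),(36,0),(2,1)]⟩ ⟨11,[(2,6),(3,
  3),(17,5),(7,2),(3,2),(5,0),(11,2)]⟩),.k,(.r 0 ⟨2,[(3,0),(1,0),(6,0),(6,0),(0,0),(21,0)]⟩ ⟨1,[(22,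
  1),(12,0),(0,0),(17,0)]⟩),.k,⟨true,0,⟨0,[(19,0)]⟩,⟨1,[(2,0),(2,0),(11,0),(4,0)]⟩⟩,⟨false,1,⟨31,
  [(1,15),(12,7),(3,2),(1,4),(0,5),(10,11),(13,1),(3,8)]⟩,⟨1,[(6,0),(2,0),(26,0)]⟩⟩,⟨true,0,⟨0,[]⟩,
  ⟨0,[(56,0)]⟩⟩,⟨false,1,⟨3,[(1,1),(12,0),(1,0),(0,1),(36,1)]⟩,⟨1,[(6,0),(2,0),(9,1),(16,0)]⟩⟩,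
  ⟨false,1,⟨3,[(24,1),(10,0),(0,0),(17,0)]⟩,⟨0,[(52,0)]⟩⟩,⟨false,1,⟨7,[(1,3),(12,5),(2,1),(28,0),(7,
  4)]⟩,⟨1,[(5,1),(35,1),(4,0),(7,0)]⟩⟩,[.a ⟨true,(-1),⟨0,[(16,0)]⟩,⟨0,[(41,0),(12,0)]⟩⟩ ⟨false,0,⟨3,
  [(12,0),(36,0),(0,0)]⟩,⟨1,[(35,0),(0,0),(17,0)]⟩⟩ ⟨true,0,⟨0,[(0,0)]⟩,⟨1,[(4,1),(14,1),(23,1),(2,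
  0),(7,0)]⟩⟩,.o ⟨false,0,⟨0,[(17,0)]⟩,⟨1,[(41,1),(4,0),(7,0)]⟩⟩,.a ⟨true,(-1),⟨0,[(4,0)]⟩,⟨0,[(35,
  0)]⟩⟩ ⟨false,0,⟨0,[]⟩,⟨1,[(35,0),(0,0),(17,0)]⟩⟩ ⟨true,0,⟨0,[(0,0)]⟩,⟨1,[(6,0),(2,0),(9,1),(16,
  0)]⟩⟩,.a ⟨true,(-1),⟨0,[(6,0)]⟩,⟨8,[(1,3),(12,3),(6,2),(2,0),(10,0),(5,3)]⟩⟩ ⟨true,0,⟨3,[(12,0),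
  (36,0),(0,0)]⟩,⟨2,[(2,0),(3,0),(35,0)]⟩⟩ ⟨false,1,⟨3,[(1,1),(12,0),(1,0),(9,1),(4,1)]⟩,⟨1,[(4,1),
  (14,1),(23,1),(2,0),(7,0)]⟩⟩]⟩) (.R ⟨1,false,false,true,[0,0,0,0,1],[0,0,1],[1,1],(⟨0,[(38,0)]⟩,
  ⟨0,[(37,0)]⟩),(⟨0,[(45,0)]⟩,⟨0,[(44,0)]⟩),⟨0,[(7,0)]⟩,.k,.k,(.r 0 ⟨2,[(12,0),(36,0),(2,1)]⟩ ⟨11,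
  [(2,6),(3,3),(17,5),(7,2),(3,2),(5,0),(11,2)]⟩),.k,(.r 0 ⟨2,[(3,0),(1,0),(6,0),(6,0),(0,0),(21,
  0)]⟩ ⟨1,[(22,1),(12,0),(0,0),(17,0)]⟩),.k,⟨true,0,⟨0,[(19,0)]⟩,⟨1,[(2,0),(2,0),(11,0),(4,0)]⟩⟩,
  ⟨false,1,⟨31,[(1,15),(12,7),(3,2),(1,4),(0,5),(10,11),(13,1),(3,8)]⟩,⟨1,[(6,0),(2,0),(26,0)]⟩⟩,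
  ⟨true,0,⟨0,[]⟩,⟨0,[(56,0)]⟩⟩,⟨false,1,⟨3,[(1,1),(12,0),(1,0),(0,1),(36,1)]⟩,⟨1,[(0,0),(35,0),(4,
  0)]⟩⟩,⟨false,1,⟨3,[(24,1),(10,0),(0,0),(17,0)]⟩,⟨0,[(52,0)]⟩⟩,⟨false,1,⟨7,[(1,3),(12,5),(2,1),(28,
  0),(7,4)]⟩,⟨1,[(0,0),(35,0),(4,0),(10,1)]⟩⟩,[.e ⟨false,0,⟨3,[(12,0),(36,0),(0,0)]⟩,⟨1,[(35,0),(0,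
  0),(17,0)]⟩⟩ ⟨false,1,⟨3,[(1,0),(14,0),(4,0),(9,2),(3,1),(13,0)]⟩,⟨0,[(0,0)]⟩⟩,.o ⟨false,0,⟨0,
  [(17,0)]⟩,⟨16,[(0,3),(0,2),(0,0),(6,0),(15,2),(10,2),(4,9),(4,5)]⟩⟩,.e ⟨false,0,⟨0,[]⟩,⟨1,[(35,0),
  (0,0),(17,0)]⟩⟩ ⟨false,1,⟨2,[(1,0),(14,0),(14,0),(3,0),(4,0),(13,0)]⟩,⟨0,[(0,0)]⟩⟩,.a ⟨true,(-1),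
  ⟨0,[(6,0)]⟩,⟨8,[(1,3),(12,3),(6,2),(2,0),(10,0),(5,3)]⟩⟩ ⟨true,0,⟨3,[(12,0),(36,0),(0,0)]⟩,⟨2,[(2,
  0),(3,0),(35,0)]⟩⟩ ⟨false,1,⟨3,[(1,1),(12,0),(1,0),(9,1),(4,1)]⟩,⟨2,[(0,2),(1,0),(3,0),(35,
  0)]⟩⟩]⟩)) (.Q [0,0,0,1,-1,0,0,0,1,1,0,-1] (.p false [0,0,0,0,1] [1] (⟨0,[(37,0)]⟩,⟨0,[(36,0)]⟩)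
  .k 1 (⟨0,[]⟩,⟨0,[]⟩) .k .k) (.Q [0,2,0,0,-2,0,0,0,1,1,0,-1] (.p false [0,0,0,0,1] [1] (⟨0,[(38,
  0)]⟩,⟨0,[(37,0)]⟩) .k 1 (⟨0,[]⟩,⟨0,[]⟩) .k .k) (.Q [0,2,0,1,-2,0,0,0,1,1,0,-1] (.p false [0,0,0,0,
  1] [1] (⟨0,[(39,0)]⟩,⟨0,[(38,0)]⟩) .k 1 (⟨0,[]⟩,⟨0,[]⟩) .k .k) (.R ⟨1,false,false,false,[0,0,0,0,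
  1],[1,-1],[1,1],(⟨0,[(40,0)]⟩,⟨0,[(39,0)]⟩),(⟨0,[(49,0)]⟩,⟨0,[(50,0)]⟩),⟨0,[(9,0)]⟩,.k,.k,(.r 0
  ⟨2,[(14,0),(36,0),(2,1)]⟩ ⟨11,[(4,6),(3,3),(17,5),(7,2),(3,2),(5,0),(11,2)]⟩),(.r 0 ⟨8,[(4,0),(19,
  3),(6,0),(0,4),(9,0),(8,0)]⟩ ⟨2,[(23,0),(13,0),(0,0),(15,0),(1,0)]⟩),.k,.k,⟨false,0,⟨0,[(53,0)]⟩,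
  ⟨2,[(23,0),(13,0),(0,0),(15,0),(1,0)]⟩⟩,⟨true,1,⟨0,[(4,0),(24,0)]⟩,⟨0,[(6,0)]⟩⟩,⟨true,0,⟨0,[]⟩,⟨0,
  [(58,0)]⟩⟩,⟨true,2,⟨7,[(4,8),(18,3),(10,2),(3,0),(5,2),(3,0),(7,1)]⟩,⟨0,[(0,0)]⟩⟩,⟨false,1,⟨3,
  [(26,1),(10,0),(0,0),(17,0)]⟩,⟨0,[(54,0)]⟩⟩,⟨true,2,⟨1,[(37,1),(10,0),(7,0)]⟩,⟨0,[(1,0)]⟩⟩,[.e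
  ⟨false,0,⟨3,[(14,0),(36,0),(0,0)]⟩,⟨1,[(37,0),(0,0),(17,0)]⟩⟩ ⟨false,2,⟨9,[(4,3),(0,1),(17,3),(10,
  1),(2,6),(0,2),(3,1),(5,2)]⟩,⟨0,[(2,0)]⟩⟩,.o ⟨false,1,⟨1,[(48,0),(5,1),(1,0)]⟩,⟨0,[(53,0)]⟩⟩,.e
  ⟨false,0,⟨0,[]⟩,⟨1,[(37,0),(0,0),(17,0)]⟩⟩ ⟨false,2,⟨7,[(4,8),(18,3),(10,2),(3,0),(5,2),(3,0),(7,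
  1)]⟩,⟨0,[(2,0)]⟩⟩,.a ⟨true,(-1),⟨0,[(8,0)]⟩,⟨1,[(4,0),(11,0),(4,0),(1,0),(13,0)]⟩⟩ ⟨true,0,⟨3,
  [(14,0),(36,0),(0,0)]⟩,⟨2,[(4,0),(3,0),(35,0)]⟩⟩ ⟨false,2,⟨3,[(4,1),(18,1),(5,1),(7,1),(10,0),(7,
  0)]⟩,⟨2,[(2,0),(5,1),(11,0),(3,0)]⟩⟩]⟩) (.R ⟨2,true,false,false,[0,1],[1,0,0,0,-1],[1,0,1,1],(⟨0,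
  []⟩,⟨0,[]⟩),(⟨0,[(39,0)]⟩,⟨0,[(40,0)]⟩),⟨0,[]⟩,.k,.k,.k,(.r 0 ⟨8,[(4,0),(19,3),(6,0),(0,4),(9,0),
  (8,0)]⟩ ⟨3,[(0,0),(7,0),(14,0),(4,0),(8,0),(0,0)]⟩),.k,.k,⟨false,0,⟨0,[(53,0)]⟩,⟨3,[(0,0),(7,0),
  (14,0),(4,0),(8,0),(0,0)]⟩⟩,⟨true,1,⟨0,[(4,0),(24,0)]⟩,⟨0,[(6,0)]⟩⟩,⟨true,0,⟨0,[]⟩,⟨0,[(58,0)]⟩⟩,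
  ⟨false,2,⟨0,[(0,0)]⟩,⟨0,[(30,0)]⟩⟩,⟨false,1,⟨3,[(26,1),(10,0),(0,0),(17,0)]⟩,⟨0,[(54,0)]⟩⟩,⟨true,
  2,⟨9,[(0,3),(25,1),(10,6),(0,0),(9,2)]⟩,⟨0,[(1,0)]⟩⟩,[]⟩)) (.R ⟨1,false,false,false,[0,0,0,0,1],
  [1,-1],[1,1],(⟨0,[(39,0)]⟩,⟨0,[(38,0)]⟩),(⟨0,[(48,0)]⟩,⟨0,[(49,0)]⟩),⟨0,[(8,0)]⟩,.k,.k,(.r 0 ⟨2,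
  [(13,0),(36,0),(2,1)]⟩ ⟨3,[(0,0),(2,1),(3,1),(17,1),(7,0),(3,0)]⟩),(.r 0 ⟨8,[(3,0),(19,3),(6,0),
  (0,4),(9,0),(8,0)]⟩ ⟨2,[(22,0),(13,0),(0,0),(15,0),(1,0)]⟩),.k,.k,⟨false,0,⟨0,[(52,0)]⟩,⟨2,[(22,
  0),(13,0),(0,0),(15,0),(1,0)]⟩⟩,⟨true,1,⟨0,[(3,0),(24,0)]⟩,⟨0,[(5,0)]⟩⟩,⟨true,0,⟨0,[]⟩,⟨0,[(57,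
  0)]⟩⟩,⟨false,2,⟨0,[(0,0),(52,0)]⟩,⟨0,[(29,0)]⟩⟩,⟨false,1,⟨3,[(25,1),(10,0),(0,0),(17,0)]⟩,⟨0,[(53,
  0)]⟩⟩,⟨false,2,⟨0,[(0,0)]⟩,⟨0,[(30,0)]⟩⟩,[.e ⟨false,0,⟨3,[(13,0),(36,0),(0,0)]⟩,⟨1,[(36,0),(0,0),
  (17,0)]⟩⟩ ⟨false,2,⟨7,[(0,2),(2,1),(0,3),(17,1),(10,0),(2,1),(0,2),(3,3)]⟩,⟨0,[(1,0)]⟩⟩,.o ⟨false,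
  1,⟨1,[(47,0),(5,1),(1,0)]⟩,⟨0,[(52,0)]⟩⟩,.e ⟨false,0,⟨0,[]⟩,⟨1,[(36,0),(0,0),(17,0)]⟩⟩ ⟨false,2,
  ⟨3,[(0,0),(2,3),(18,1),(10,0),(3,0),(5,1)]⟩,⟨0,[(1,0)]⟩⟩,.a ⟨true,(-1),⟨0,[(7,0)]⟩,⟨1,[(3,0),(11,
  0),(4,0),(1,0),(13,0)]⟩⟩ ⟨true,0,⟨3,[(13,0),(36,0),(0,0)]⟩,⟨2,[(3,0),(3,0),(35,0)]⟩⟩ ⟨false,2,⟨15,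
  [(0,8),(2,3),(0,3),(17,5),(10,0),(3,0),(3,3),(1,1)]⟩,⟨2,[(1,0),(5,1),(11,0),(3,0)]⟩⟩]⟩)) (.R ⟨2,
  true,false,true,[0,1],[1,0,0,0,-1],[1,1,1,1],(⟨0,[]⟩,⟨0,[]⟩),(⟨0,[(37,0)]⟩,⟨0,[(38,0)]⟩),⟨0,[]⟩,
  .k,.k,.k,(.r 0 ⟨8,[(2,0),(19,3),(6,0),(0,4),(9,0),(8,0)]⟩ ⟨2,[(21,0),(13,0),(0,0),(15,0),(1,0)]⟩),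
  .k,.k,⟨false,0,⟨0,[(51,0)]⟩,⟨2,[(21,0),(13,0),(0,0),(15,0),(1,0)]⟩⟩,⟨true,1,⟨13,[(0,5),(1,7),(11,
  1),(3,1),(23,5),(3,0),(7,0)]⟩,⟨0,[(4,0)]⟩⟩,⟨false,0,⟨0,[]⟩,⟨1,[(35,0),(0,0),(17,0)]⟩⟩,⟨true,1,⟨0,
  [(0,0)]⟩,⟨0,[(28,0)]⟩⟩,⟨true,0,⟨0,[(51,0)]⟩,⟨0,[(52,0)]⟩⟩,⟨false,2,⟨1,[(35,1),(10,0),(7,0)]⟩,⟨0,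
  [(4,0)]⟩⟩,[]⟩)))) (.Q [0,0,1,0,-1,0,0,0,1,0,0,-1] (.p false [0,0,0,0,1] [] (⟨0,[(35,0)]⟩,⟨0,[(34,
  0)]⟩) .k 0 (⟨0,[]⟩,⟨0,[]⟩) .k .k) (.Q [0,0,0,1,1,0,0,0,-1,0,0,1] (.p true [0,0,0,0,1] [] (⟨0,[(36,
  0)]⟩,⟨0,[(35,0)]⟩) .k 0 (⟨0,[]⟩,⟨0,[]⟩) .k .k) (.S ⟨1,0,[0,1,0,-1],[0,0,0,0,1],[1,2],(⟨0,[(37,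
  0)]⟩,⟨0,[(36,0)]⟩),⟨0,[(6,0)]⟩,.k,(.r 0 ⟨2,[(11,0),(36,0),(2,1)]⟩ ⟨3,[(21,1),(7,1),(4,0),(0,0),
  (17,2)]⟩),⟨false,0,⟨0,[]⟩,⟨1,[(34,0),(0,0),(17,0)]⟩⟩,⟨true,0,⟨0,[(51,0)]⟩,⟨0,[(50,0)]⟩⟩,⟨true,0,
  ⟨0,[(50,0)]⟩,⟨0,[(51,0)]⟩⟩,⟨false,1,⟨1,[(34,0),(0,0),(17,0)]⟩,⟨0,[]⟩⟩,[.o ⟨false,(-1),⟨2,[(1,2),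
  (9,0),(36,0),(2,1)]⟩,⟨1,[(0,1),(44,0),(7,0)]⟩⟩,.a ⟨true,(-1),⟨0,[(4,0)]⟩,⟨0,[(0,0)]⟩⟩ ⟨false,0,⟨3,
  [(11,0),(36,0),(0,0)]⟩,⟨1,[(34,0),(0,0),(17,0)]⟩⟩ ⟨true,0,⟨0,[(51,0)]⟩,⟨3,[(17,1),(3,1),(19,0),(0,
  0)]⟩⟩,.e ⟨false,0,⟨0,[(55,0)]⟩,⟨0,[(53,0)]⟩⟩ ⟨false,0,⟨0,[(51,0)]⟩,⟨3,[(23,1),(10,0),(0,0),(17,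
  0)]⟩⟩,.o ⟨false,(-1),⟨0,[(1,0)]⟩,⟨1,[(34,1),(10,0),(6,0)]⟩⟩]⟩) (.R ⟨2,true,false,false,[0,1],[0,0,
  0,0,1],[1,0,1,1],(⟨0,[]⟩,⟨0,[]⟩),(⟨0,[(37,0)]⟩,⟨0,[(36,0)]⟩),⟨0,[]⟩,.k,.k,.k,(.r (-1) ⟨3,[(21,1),
  (7,1),(4,0),(0,0),(17,2)]⟩ ⟨2,[(11,0),(36,0),(2,1)]⟩),.k,.k,⟨false,1,⟨3,[(23,1),(10,0),(0,0),(17,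
  0)]⟩,⟨2,[(11,0),(36,0),(2,1)]⟩⟩,⟨true,(-1),⟨0,[(1,0)]⟩,⟨0,[(34,0)]⟩⟩,⟨true,0,⟨0,[]⟩,⟨0,[(55,0)]⟩⟩,
  ⟨false,(-1),⟨0,[(0,0)]⟩,⟨3,[(23,1),(10,4),(0,0),(17,0)]⟩⟩,⟨false,1,⟨3,[(23,1),(10,0),(0,0),(17,
  0)]⟩,⟨0,[(51,0)]⟩⟩,⟨true,(-1),⟨6,[(0,3),(0,1),(10,0),(0,0),(26,0),(4,0),(2,1)]⟩,⟨0,[(34,0)]⟩⟩,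
  []⟩)) (.Q [0,1,0,1,-1,0,-1,-1,1,0,1,-1] (.p true [0,0,1] [0,0,0,0,1] (⟨0,[(43,0)]⟩,⟨0,[(42,0)]⟩)
  .k 2 (⟨0,[(36,0)]⟩,⟨0,[(35,0)]⟩) .k (.r (-1) ⟨7,[(4,0),(2,0),(11,1),(0,3),(12,0),(4,3),(2,1),(10,
  4)]⟩ ⟨1,[(18,0),(20,0),(0,0)]⟩)) (.R ⟨1,false,false,true,[0,0,0,0,1],[0,0,1],[0,1,0,-1],(⟨0,[(37,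
  0)]⟩,⟨0,[(36,0)]⟩),(⟨0,[(44,0)]⟩,⟨0,[(43,0)]⟩),⟨0,[(6,0)]⟩,.k,.k,(.r 0 ⟨2,[(11,0),(36,0),(2,1)]⟩
  ⟨3,[(21,1),(7,1),(4,0),(0,0),(17,2)]⟩),.k,(.r 0 ⟨0,[(19,0),(31,0)]⟩ ⟨1,[(21,1),(12,0),(0,0),(17,
  0)]⟩),.k,⟨true,0,⟨0,[(18,0),(32,0)]⟩,⟨0,[(22,0)]⟩⟩,⟨false,1,⟨0,[(1,0),(24,0)]⟩,⟨1,[(5,0),(2,0),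
  (26,0)]⟩⟩,⟨true,0,⟨0,[(51,0)]⟩,⟨0,[(50,0)]⟩⟩,⟨true,1,⟨0,[(16,0),(17,0)]⟩,⟨0,[(0,0),(50,0)]⟩⟩,
  ⟨false,1,⟨1,[(34,0),(0,0),(17,0)]⟩,⟨0,[]⟩⟩,⟨true,1,⟨3,[(13,1),(2,1),(17,3),(10,0),(7,0)]⟩,⟨0,[(0,
  0),(50,1)]⟩⟩,[.e ⟨false,0,⟨2,[(11,0),(36,0),(2,1)]⟩,⟨3,[(23,1),(10,0),(0,0),(17,0)]⟩⟩ ⟨false,1,⟨0,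
  [(1,0),(37,0)]⟩,⟨0,[(0,0),(50,0),(1,0)]⟩⟩,.o ⟨false,0,⟨0,[(16,0)]⟩,⟨1,[(40,1),(4,0),(7,0)]⟩⟩,.e
  ⟨false,0,⟨0,[(51,0)]⟩,⟨3,[(23,1),(10,0),(0,0),(17,0)]⟩⟩ ⟨false,1,⟨0,[(16,0),(17,0)]⟩,⟨0,[(0,0),
  (50,0),(1,0)]⟩⟩,.a ⟨true,(-1),⟨0,[(5,0)]⟩,⟨0,[(1,0)]⟩⟩ ⟨true,0,⟨2,[(11,0),(36,0),(2,1)]⟩,⟨3,[(17,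
  1),(3,1),(19,0),(0,0)]⟩⟩ ⟨false,1,⟨0,[(1,0),(14,0)]⟩,⟨2,[(0,0),(3,0),(0,0),(12,1),(23,1),(2,0),(7,
  1)]⟩⟩]⟩) (.Q [0,1,0,-1,1,0,-1,-1,-1,-1,1,1] (.p true [0,0,1] [1,0,0,0,-1] (⟨0,[(44,0)]⟩,⟨0,[(43,
  0)]⟩) .k 2 (⟨0,[(36,0)]⟩,⟨0,[(37,0)]⟩) .k (.r 0 ⟨2,[(8,0),(6,0),(23,1),(2,0)]⟩ ⟨0,[(24,0),(26,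
  0)]⟩)) (.R ⟨1,false,false,true,[0,0,0,0,1],[1,-1,-1],[0,1,0,-1],(⟨0,[(38,0)]⟩,⟨0,[(37,0)]⟩),(⟨0,
  [(33,0)]⟩,⟨0,[(45,0),(2,0)]⟩),⟨0,[(7,0)]⟩,.k,.k,(.r 0 ⟨3,[(0,0),(4,0),(6,1),(27,0)]⟩ ⟨3,[(1,0),
  (20,0),(1,0),(5,1),(5,0),(6,0),(10,1)]⟩),(.r 0 ⟨6,[(22,5),(7,0),(9,1),(2,1),(5,1)]⟩ ⟨20,[(0,5),(4,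
  2),(13,12),(1,6),(3,1),(6,2),(3,2),(17,8)]⟩),.k,.k,⟨true,0,⟨3,[(1,0),(3,0),(10,0),(5,1),(20,1),(2,
  0)]⟩,⟨0,[(19,0)]⟩⟩,⟨false,2,⟨2,[(0,1),(0,0),(7,0),(12,0),(1,0),(10,0),(0,0)]⟩,⟨0,[(3,0),(8,0),(6,
  0)]⟩⟩,⟨true,0,⟨0,[(52,0)]⟩,⟨0,[(51,0)]⟩⟩,⟨false,2,⟨0,[(0,0),(53,0)]⟩,⟨2,[(3,1),(8,0),(1,0),(21,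
  0)]⟩⟩,⟨false,1,⟨1,[(35,0),(0,0),(17,0)]⟩,⟨0,[]⟩⟩,⟨false,2,⟨15,[(0,9),(0,5),(7,3),(8,11),(5,1),(18,
  3),(2,0),(7,8)]⟩,⟨9,[(3,4),(1,1),(6,0),(3,4),(4,0),(14,2),(9,0)]⟩⟩,[.a ⟨true,0,⟨1,[(0,0),(4,0),
  (35,0)]⟩,⟨1,[(14,0),(1,0),(37,1)]⟩⟩ ⟨false,0,⟨3,[(0,0),(4,0),(6,1),(27,0)]⟩,⟨3,[(24,1),(10,0),(0,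
  0),(17,0)]⟩⟩ ⟨true,1,⟨0,[(0,0)]⟩,⟨0,[(3,0)]⟩⟩,.o ⟨false,1,⟨1,[(0,0),(4,0),(35,0),(4,0),(7,0)]⟩,
  ⟨19,[(1,2),(1,2),(10,8),(2,4),(3,0),(2,1),(21,5)]⟩⟩,.a ⟨true,(-1),⟨0,[(4,0)]⟩,⟨0,[(35,0)]⟩⟩
  ⟨false,0,⟨0,[(52,0)]⟩,⟨3,[(24,1),(10,0),(0,0),(17,0)]⟩⟩ ⟨true,1,⟨0,[(0,0)]⟩,⟨2,[(3,1),(8,0),(1,0),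
  (21,0)]⟩⟩,.a ⟨true,(-1),⟨0,[(6,0)]⟩,⟨0,[(2,0)]⟩⟩ ⟨true,0,⟨3,[(0,0),(4,0),(6,1),(27,0)]⟩,⟨3,[(18,
  1),(3,1),(19,0),(0,0)]⟩⟩ ⟨false,2,⟨1,[(0,1),(52,0),(0,0)]⟩,⟨0,[(3,0)]⟩⟩]⟩) (.R ⟨1,false,false,
  true,[0,0,0,0,1],[1,-1,-1],[0,1,0,-1],(⟨0,[(38,0)]⟩,⟨0,[(37,0)]⟩),(⟨0,[(33,0)]⟩,⟨0,[(45,0),(2,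
  0)]⟩),⟨0,[(7,0)]⟩,.k,.k,(.r 0 ⟨2,[(12,0),(36,0),(2,1)]⟩ ⟨3,[(1,0),(20,0),(1,0),(5,1),(5,0),(6,0),
  (10,1)]⟩),(.r 0 ⟨6,[(22,5),(7,0),(9,1),(2,1),(5,1)]⟩ ⟨2,[(19,0),(1,0),(3,1),(26,2)]⟩),.k,.k,⟨true,
  0,⟨3,[(1,0),(3,0),(10,0),(5,1),(20,1),(2,0)]⟩,⟨0,[(19,0)]⟩⟩,⟨false,2,⟨2,[(9,0),(25,3),(0,0),(6,0),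
  (2,0)]⟩,⟨2,[(0,1),(4,0),(6,0),(6,0),(0,0),(6,0)]⟩⟩,⟨true,0,⟨0,[(52,0)]⟩,⟨0,[(51,0)]⟩⟩,⟨false,2,⟨3,
  [(1,3),(7,1),(9,5),(21,1),(1,1),(2,0),(7,0)]⟩,⟨2,[(0,1),(28,0),(1,0)]⟩⟩,⟨false,1,⟨1,[(35,0),(0,0),
  (17,0)]⟩,⟨0,[]⟩⟩,⟨false,2,⟨3,[(1,1),(7,1),(8,1),(0,3),(15,1),(7,1),(2,0),(7,0)]⟩,⟨1,[(0,0),(4,0),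
  (34,0)]⟩⟩,[.e ⟨false,0,⟨2,[(12,0),(36,0),(2,1)]⟩,⟨3,[(24,1),(10,0),(0,0),(17,0)]⟩⟩ ⟨false,2,⟨13,
  [(1,5),(19,3),(13,10),(0,2),(4,19),(4,6),(2,1)]⟩,⟨0,[(0,0)]⟩⟩,.o ⟨false,1,⟨1,[(41,1),(4,0),(5,1),
  (1,0)]⟩,⟨16,[(0,3),(0,3),(12,5),(9,0),(6,2),(14,4)]⟩⟩,.e ⟨false,0,⟨0,[(52,0)]⟩,⟨3,[(24,1),(10,0),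
  (0,0),(17,0)]⟩⟩ ⟨false,2,⟨1,[(1,1),(39,3),(4,0),(7,0)]⟩,⟨0,[(0,0)]⟩⟩,.a ⟨true,(-1),⟨0,[(6,0)]⟩,⟨0,
  [(2,0)]⟩⟩ ⟨true,0,⟨2,[(12,0),(36,0),(2,1)]⟩,⟨3,[(18,1),(3,1),(19,0),(0,0)]⟩⟩ ⟨false,2,⟨7,[(1,3),
  (7,1),(9,3),(1,1),(13,3),(5,7),(4,2),(7,0)]⟩,⟨0,[(3,0)]⟩⟩]⟩))))) (.S ⟨1,2,[],[0,0,0,0,1],[1,2],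
  (⟨0,[(34,0)]⟩,⟨0,[(33,0)]⟩),⟨0,[(3,0)]⟩,.k,(.r 0 ⟨2,[(8,0),(36,0),(2,1)]⟩ ⟨3,[(18,1),(7,1),(4,0),
  (0,0),(17,2)]⟩),⟨false,0,⟨0,[]⟩,⟨1,[(31,0),(0,0),(17,0)]⟩⟩,⟨true,1,⟨0,[(0,0)]⟩,⟨0,[(25,0)]⟩⟩,
  ⟨true,0,⟨0,[(47,0)]⟩,⟨0,[(48,0)]⟩⟩,⟨false,2,⟨3,[(0,1),(19,1),(10,1),(10,0),(7,0)]⟩,⟨0,[(1,0)]⟩⟩,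
  [.e ⟨false,0,⟨0,[(45,0)]⟩,⟨0,[(50,0)]⟩⟩ ⟨false,1,⟨3,[(0,3),(7,0),(36,0),(0,0)]⟩,⟨0,[(25,0),(24,
  0)]⟩⟩,.fo,.o ⟨false,0,⟨0,[(32,0)]⟩,⟨0,[(0,0)]⟩⟩,.a ⟨true,(-1),⟨0,[(2,0)]⟩,⟨1,[(0,0),(9,0),(4,0),
  (1,0),(13,0),(7,0)]⟩⟩ ⟨false,0,⟨3,[(8,0),(36,0),(0,0)]⟩,⟨1,[(38,0),(0,0),(10,1)]⟩⟩ ⟨true,1,⟨3,[(0,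
  3),(7,0),(36,0),(0,0)]⟩,⟨0,[(2,0)]⟩⟩]⟩)) (.S ⟨1,0,[0,1,0,-1],[0,0,0,0,1],[1,2],(⟨0,[(33,0)]⟩,⟨0,
  [(32,0)]⟩),⟨0,[(2,0)]⟩,.k,(.r 0 ⟨2,[(7,0),(36,0),(2,1)]⟩ ⟨3,[(17,1),(7,1),(4,0),(0,0),(17,2)]⟩),
  ⟨false,0,⟨0,[]⟩,⟨1,[(30,0),(0,0),(17,0)]⟩⟩,⟨true,0,⟨0,[(47,0)]⟩,⟨0,[(46,0)]⟩⟩,⟨true,0,⟨0,[(46,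
  0)]⟩,⟨0,[(47,0)]⟩⟩,⟨false,1,⟨1,[(30,0),(0,0),(17,0)]⟩,⟨0,[]⟩⟩,[.e ⟨false,0,⟨0,[(44,0)]⟩,⟨0,[(49,
  0)]⟩⟩ ⟨false,0,⟨2,[(7,0),(36,0),(2,1)]⟩,⟨3,[(19,1),(10,0),(0,0),(17,0)]⟩⟩,.o ⟨false,0,⟨0,[(31,0),
  (15,0)]⟩,⟨0,[(0,0)]⟩⟩,.o ⟨false,0,⟨0,[(31,0)]⟩,⟨0,[(0,0),(46,0)]⟩⟩,.a ⟨true,(-1),⟨0,[(1,0)]⟩,⟨3,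
  [(0,1),(8,0),(1,0),(2,1),(1,1),(13,1),(7,1)]⟩⟩ ⟨false,0,⟨3,[(7,0),(36,0),(0,0)]⟩,⟨1,[(37,0),(0,0),
  (10,1)]⟩⟩ ⟨true,0,⟨2,[(7,0),(36,0),(2,1)]⟩,⟨3,[(13,1),(3,1),(19,0),(0,0)]⟩⟩]⟩))) (.Q [0,0,-1,0,1,
  0,0,0,-1,-1,0,1] (.p true [0,0,0,0,1] [1] (⟨0,[(31,0)]⟩,⟨0,[(30,0)]⟩) .k 1 (⟨0,[]⟩,⟨0,[]⟩) .k .k)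
  (.R ⟨0,false,false,true,[0,0,0,0,1],[0,1],[1,1,1,1],(⟨0,[(32,0)]⟩,⟨0,[(31,0)]⟩),(⟨0,[(42,0)]⟩,⟨0,
  [(41,0)]⟩),⟨0,[(1,0)]⟩,.k,.k,(.r 0 ⟨2,[(6,0),(36,0),(2,1)]⟩ ⟨3,[(16,1),(7,1),(4,0),(0,0),(17,
  2)]⟩),(.r 0 ⟨2,[(6,0),(36,0),(2,1)]⟩ ⟨3,[(16,1),(7,1),(4,0),(0,0),(17,2)]⟩),.k,.k,⟨true,0,⟨0,[]⟩,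
  ⟨1,[(36,0),(0,0)]⟩⟩,⟨false,1,⟨2,[(0,1),(7,1),(4,1),(1,1),(13,0),(7,1)]⟩,⟨1,[(30,1),(5,0),(0,0)]⟩⟩,
  ⟨true,0,⟨3,[(12,1),(3,1),(19,0),(0,0)]⟩,⟨2,[(6,0),(36,0),(2,1)]⟩⟩,⟨false,1,⟨1,[(0,1),(7,0),(1,0),
  (2,1),(23,1),(10,1)]⟩,⟨0,[(30,0),(15,0)]⟩⟩,⟨false,0,⟨0,[]⟩,⟨0,[]⟩⟩,⟨false,0,⟨0,[]⟩,⟨0,[]⟩⟩,[.o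
  ⟨false,0,⟨0,[(45,0)]⟩,⟨1,[(40,0),(5,1),(1,0)]⟩⟩,.a ⟨true,0,⟨1,[(8,0),(26,0),(2,0),(0,0),(8,0)]⟩,
  ⟨0,[(46,0)]⟩⟩ ⟨true,0,⟨3,[(12,1),(3,1),(19,0),(0,0)]⟩,⟨0,[(46,0)]⟩⟩ ⟨false,1,⟨7,[(0,2),(2,0),(4,
  3),(3,3),(2,1),(13,4),(7,1),(10,0)]⟩,⟨0,[(30,0),(15,0)]⟩⟩,.o ⟨false,0,⟨0,[(30,0)]⟩,⟨1,[(0,1),(35,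
  0),(0,0)]⟩⟩,.o ⟨false,0,⟨1,[(30,1),(5,0),(0,0)]⟩,⟨0,[(0,0)]⟩⟩]⟩) (.Q [0,0,0,0,-1,0,0,0,1,1,0,-1]
  (.p false [0,0,0,0,1] [1] (⟨0,[(32,0)]⟩,⟨0,[(31,0)]⟩) .k 1 (⟨0,[]⟩,⟨0,[]⟩) .k .k) (.Q [0,1,-1,0,1,
  0,-1,-1,-1,-1,1,1] (.p true [0,0,1] [1,0,0,0,-1] (⟨0,[(40,0)]⟩,⟨0,[(39,0)]⟩) .k 2 (⟨0,[(32,0)]⟩,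
  ⟨0,[(33,0)]⟩) .k (.r 0 ⟨2,[(4,0),(6,0),(23,1),(2,0)]⟩ ⟨0,[(20,0),(26,0)]⟩)) (.R ⟨0,false,false,
  true,[0,0,0,0,1],[1,0,-1],[1,1,0,0,0,0,0,-1],(⟨0,[(34,0)]⟩,⟨0,[(33,0)]⟩),(⟨0,[(40,0)]⟩,⟨0,[(41,
  0)]⟩),⟨0,[(3,0)]⟩,.k,.k,(.r 0 ⟨2,[(8,0),(36,0),(2,1)]⟩ ⟨3,[(18,1),(7,1),(4,0),(0,0),(17,2)]⟩),.k,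
  .k,.k,⟨true,0,⟨0,[]⟩,⟨1,[(38,0),(0,0)]⟩⟩,⟨false,2,⟨3,[(5,1),(25,3),(10,0),(6,0)]⟩,⟨0,[(1,0),(21,
  0)]⟩⟩,⟨true,0,⟨0,[(15,0)]⟩,⟨2,[(5,0),(6,0),(23,1),(2,0)]⟩⟩,⟨false,2,⟨1,[(0,1),(37,0),(0,0),(10,
  1)]⟩,⟨0,[(1,0),(11,0)]⟩⟩,⟨false,0,⟨0,[]⟩,⟨0,[]⟩⟩,⟨false,0,⟨0,[]⟩,⟨0,[]⟩⟩,[.e ⟨false,0,⟨0,[(16,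
  0)]⟩,⟨7,[(2,0),(2,0),(11,1),(0,3),(12,0),(4,3),(2,1),(10,4)]⟩⟩ ⟨false,1,⟨0,[(0,0)]⟩,⟨0,[(12,0),
  (19,0),(17,0)]⟩⟩,.o ⟨false,1,⟨1,[(37,1),(4,0),(7,0)]⟩,⟨0,[(13,0)]⟩⟩,.a ⟨true,(-1),⟨0,[(1,0)]⟩,⟨0,
  [(31,0)]⟩⟩ ⟨false,0,⟨0,[(15,0)]⟩,⟨7,[(2,0),(2,0),(11,1),(0,3),(12,0),(4,3),(2,1),(10,4)]⟩⟩ ⟨true,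
  1,⟨1,[(0,1),(37,0),(0,0)]⟩,⟨0,[(1,0),(11,0)]⟩⟩,.e ⟨true,0,⟨0,[(16,0)]⟩,⟨0,[(18,0),(29,0)]⟩⟩ ⟨true,
  1,⟨0,[(0,0)]⟩,⟨0,[(2,0),(10,0)]⟩⟩]⟩) (.Q [0,0,1,0,-1,0,0,0,1,0,0,-1] (.p false [0,0,0,0,1] [] (⟨0,
  [(34,0)]⟩,⟨0,[(33,0)]⟩) .k 0 (⟨0,[]⟩,⟨0,[]⟩) .k .k) (.R ⟨0,false,false,true,[0,0,0,0,1],[0,-1,1],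
  [0,1,0,-1,0,0,0,1],(⟨0,[(35,0)]⟩,⟨0,[(34,0)]⟩),(⟨0,[(31,0)]⟩,⟨0,[(41,0),(3,0)]⟩),⟨0,[(4,0)]⟩,.k,
  .k,(.r 0 ⟨2,[(9,0),(36,0),(2,1)]⟩ ⟨3,[(19,1),(7,1),(4,0),(0,0),(17,2)]⟩),(.r 0 ⟨0,[(27,0)]⟩ ⟨2,
  [(18,1),(0,1),(17,0),(2,0),(8,0),(1,0)]⟩),.k,.k,⟨true,0,⟨1,[(39,0),(0,0)]⟩,⟨0,[]⟩⟩,⟨false,1,⟨0,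
  [(24,0),(7,0)]⟩,⟨2,[(2,1),(2,0),(0,0),(26,0)]⟩⟩,⟨false,1,⟨2,[(18,0),(0,0),(17,1),(2,1),(8,1),(1,
  1)]⟩,⟨0,[(15,0)]⟩⟩,⟨true,1,⟨0,[(14,0),(17,0),(16,0)]⟩,⟨3,[(0,3),(5,0),(2,2),(1,0),(3,4),(24,2)]⟩⟩,
  ⟨false,0,⟨0,[]⟩,⟨0,[]⟩⟩,⟨false,0,⟨0,[]⟩,⟨0,[]⟩⟩,[.e ⟨false,0,⟨9,[(6,4),(2,0),(3,6),(4,0),(18,2),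
  (5,0),(5,6)]⟩,⟨0,[(22,0)]⟩⟩ ⟨false,1,⟨4,[(9,0),(3,1),(4,0),(13,4),(4,2),(5,0),(5,1)]⟩,⟨1,[(0,0),
  (1,0),(3,0),(8,1),(35,0)]⟩⟩,.o ⟨false,0,⟨0,[(14,0),(34,0)]⟩,⟨6,[(6,2),(8,2),(6,1),(4,1),(12,0),(2,
  1)]⟩⟩,.a ⟨true,(-1),⟨0,[(2,0)]⟩,⟨0,[(32,0)]⟩⟩ ⟨true,0,⟨2,[(6,0),(6,0),(23,1),(2,0),(8,2)]⟩,⟨0,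
  [(15,0)]⟩⟩ ⟨false,1,⟨0,[(14,0),(17,0),(16,0)]⟩,⟨1,[(0,0),(1,0),(3,0),(8,1),(35,0)]⟩⟩,.o ⟨false,
  (-1),⟨0,[(0,0)]⟩,⟨1,[(32,1),(10,0),(6,0)]⟩⟩]⟩) (.Q [0,1,0,0,1,0,-1,-1,-1,-1,1,1] (.p true [0,0,1]
  [1,0,0,0,-1] (⟨0,[(42,0)]⟩,⟨0,[(41,0)]⟩) .k 2 (⟨0,[(34,0)]⟩,⟨0,[(35,0)]⟩) .k (.r 0 ⟨2,[(6,0),(6,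
  0),(23,1),(2,0)]⟩ ⟨0,[(22,0),(26,0)]⟩)) (.R ⟨0,false,false,true,[0,0,0,0,1],[1,0,-1],[0,1,1],(⟨0,
  [(36,0)]⟩,⟨0,[(35,0)]⟩),(⟨0,[(42,0)]⟩,⟨0,[(43,0)]⟩),⟨0,[(5,0)]⟩,.k,.k,(.r 0 ⟨2,[(10,0),(36,0),(2,
  1)]⟩ ⟨3,[(20,1),(7,1),(4,0),(0,0),(17,2)]⟩),.k,.k,.k,⟨true,0,⟨0,[(20,0),(29,0)]⟩,⟨0,[(17,0)]⟩⟩,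
  ⟨false,2,⟨3,[(7,1),(25,3),(10,0),(6,0)]⟩,⟨0,[(2,0),(15,0)]⟩⟩,⟨true,0,⟨1,[(40,0),(0,0)]⟩,⟨3,[(10,
  0),(36,0),(0,0)]⟩⟩,⟨false,2,⟨0,[(0,0),(51,0)]⟩,⟨9,[(2,7),(7,3),(0,0),(15,0),(1,1)]⟩⟩,⟨false,0,⟨0,
  []⟩,⟨0,[]⟩⟩,⟨false,0,⟨0,[]⟩,⟨0,[]⟩⟩,[.a ⟨true,0,⟨0,[(39,0)]⟩,⟨0,[(14,0),(37,0)]⟩⟩ ⟨false,0,⟨0,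
  [(54,0)]⟩,⟨1,[(51,0),(0,0)]⟩⟩ ⟨true,1,⟨0,[(0,0)]⟩,⟨0,[(2,0)]⟩⟩,.o ⟨false,1,⟨1,[(39,1),(4,0),(7,
  0)]⟩,⟨0,[(15,0)]⟩⟩,.a ⟨true,(-1),⟨0,[(3,0)]⟩,⟨0,[(33,0)]⟩⟩ ⟨false,0,⟨1,[(40,0),(0,0)]⟩,⟨1,[(51,0),
  (0,0)]⟩⟩ ⟨true,1,⟨0,[(0,0)]⟩,⟨9,[(2,7),(7,3),(0,0),(15,0),(1,1)]⟩⟩,.a ⟨true,(-1),⟨0,[(4,0)]⟩,⟨0,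
  [(1,0)]⟩⟩ ⟨true,0,⟨0,[(54,0)]⟩,⟨0,[]⟩⟩ ⟨false,2,⟨11,[(0,7),(6,1),(15,3),(0,3),(8,3),(10,0),(6,
  0)]⟩,⟨0,[(2,0)]⟩⟩]⟩) (.R ⟨0,false,false,true,[0,0,0,0,1],[1,0,-1],[0,1,1],(⟨0,[(36,0)]⟩,⟨0,[(35,
  0)]⟩),(⟨0,[(42,0)]⟩,⟨0,[(43,0)]⟩),⟨0,[(5,0)]⟩,.k,.k,(.r 0 ⟨2,[(10,0),(36,0),(2,1)]⟩ ⟨3,[(20,1),(7,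
  1),(4,0),(0,0),(17,2)]⟩),.k,.k,.k,⟨true,0,⟨0,[(20,0),(29,0)]⟩,⟨0,[(17,0)]⟩⟩,⟨false,2,⟨3,[(7,1),
  (25,3),(10,0),(6,0)]⟩,⟨1,[(0,0),(16,0),(7,0),(1,0)]⟩⟩,⟨true,0,⟨1,[(40,0),(0,0)]⟩,⟨3,[(10,0),(36,
  0),(0,0)]⟩⟩,⟨false,2,⟨1,[(1,1),(15,1),(23,1),(2,0),(7,0)]⟩,⟨2,[(0,1),(26,0),(10,0)]⟩⟩,⟨false,0,⟨0,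
  []⟩,⟨0,[]⟩⟩,⟨false,0,⟨0,[]⟩,⟨0,[]⟩⟩,[.e ⟨false,0,⟨0,[(54,0)]⟩,⟨1,[(51,0),(0,0)]⟩⟩ ⟨false,2,⟨1,
  [(33,1),(5,1),(4,0),(6,0)]⟩,⟨0,[(0,0)]⟩⟩,.o ⟨false,1,⟨1,[(39,1),(4,0),(7,0)]⟩,⟨0,[(15,0)]⟩⟩,.e
  ⟨false,0,⟨1,[(40,0),(0,0)]⟩,⟨1,[(51,0),(0,0)]⟩⟩ ⟨false,2,⟨1,[(33,1),(5,1),(4,0),(7,0)]⟩,⟨0,[(0,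
  0)]⟩⟩,.a ⟨true,(-1),⟨0,[(4,0)]⟩,⟨0,[(1,0)]⟩⟩ ⟨true,0,⟨0,[(54,0)]⟩,⟨0,[]⟩⟩ ⟨false,2,⟨8,[(1,2),(5,
  2),(9,3),(1,0),(3,1),(9,5),(5,2),(4,2)]⟩,⟨0,[(2,0)]⟩⟩]⟩)))) (.Q [0,0,-1,-1,1,0,0,0,-1,-1,0,1] (.p
  true [0,0,0,0,1] [1] (⟨0,[(33,0)]⟩,⟨0,[(32,0)]⟩) .k 1 (⟨0,[]⟩,⟨0,[]⟩) .k .k) (.S ⟨1,0,[0,-1,0,-1],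
  [1,0,0,0,-1],[1],(⟨0,[(33,0)]⟩,⟨0,[(34,0)]⟩),⟨2,[(3,0),(2,0),(0,0),(25,1)]⟩,.k,(.r (-1) ⟨2,[(17,
  0),(13,0),(0,0),(15,0),(1,0)]⟩ ⟨6,[(18,2),(7,3),(9,0),(2,0),(5,0)]⟩),⟨false,0,⟨0,[]⟩,⟨1,[(31,0),
  (0,0),(17,0)]⟩⟩,⟨true,0,⟨0,[(48,0)]⟩,⟨0,[(47,0)]⟩⟩,⟨true,0,⟨0,[(47,0)]⟩,⟨0,[(48,0)]⟩⟩,⟨false,1,⟨1,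
  [(31,0),(0,0),(17,0)]⟩,⟨0,[]⟩⟩,[.a ⟨true,1,⟨0,[(0,0),(11,0),(2,0),(23,0),(10,0)]⟩,⟨0,[(24,0)]⟩⟩
  ⟨true,0,⟨0,[]⟩,⟨1,[(38,0),(0,0)]⟩⟩ ⟨false,1,⟨2,[(17,0),(13,0),(0,0),(15,0),(1,0)]⟩,⟨0,[(47,0)]⟩⟩,
  .o ⟨false,2,⟨1,[(0,1),(37,0),(0,0),(10,1)]⟩,⟨0,[(2,0),(5,0),(1,0),(4,0),(23,0),(2,0)]⟩⟩,.o ⟨false,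
  1,⟨0,[(1,0)]⟩,⟨0,[(32,0)]⟩⟩,.o ⟨false,1,⟨1,[(1,1),(36,0),(0,0)]⟩,⟨1,[(2,0),(6,0),(7,0),(24,
  0)]⟩⟩]⟩) (.R ⟨0,false,false,true,[0,0,0,0,1],[1,-1],[1,1,-1,-1],(⟨0,[(34,0)]⟩,⟨0,[(33,0)]⟩),(⟨0,
  [(43,0)]⟩,⟨0,[(44,0)]⟩),⟨0,[(3,0)]⟩,.k,.k,(.r 0 ⟨2,[(8,0),(36,0),(2,1)]⟩ ⟨3,[(18,1),(7,1),(4,0),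
  (0,0),(17,2)]⟩),(.r 0 ⟨6,[(18,2),(7,3),(9,0),(2,0),(5,0)]⟩ ⟨2,[(17,0),(13,0),(0,0),(15,0),(1,
  0)]⟩),.k,.k,⟨true,0,⟨0,[]⟩,⟨1,[(38,0),(0,0)]⟩⟩,⟨false,1,⟨0,[(1,0)]⟩,⟨1,[(25,1),(23,0),(0,0)]⟩⟩,
  ⟨false,1,⟨2,[(17,0),(13,0),(0,0),(15,0),(1,0)]⟩,⟨3,[(14,1),(3,1),(19,0),(0,0)]⟩⟩,⟨true,1,⟨0,[(1,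
  0),(46,0)]⟩,⟨0,[(24,0)]⟩⟩,⟨false,0,⟨0,[]⟩,⟨0,[]⟩⟩,⟨false,0,⟨0,[]⟩,⟨0,[]⟩⟩,[.e ⟨false,0,⟨0,[(8,
  0)]⟩,⟨3,[(18,1),(7,1),(4,0),(0,0),(17,2)]⟩⟩ ⟨false,1,⟨2,[(1,2),(6,0),(36,0),(2,1)]⟩,⟨2,[(0,0),(1,
  1),(14,0),(2,1)]⟩⟩,.a ⟨true,0,⟨0,[(48,0)]⟩,⟨1,[(10,0),(26,0),(2,0),(0,0),(8,0)]⟩⟩ ⟨false,1,⟨7,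
  [(17,3),(13,2),(0,2),(12,1),(3,0)]⟩,⟨3,[(14,1),(3,1),(19,0),(0,0)]⟩⟩ ⟨true,1,⟨0,[(1,0),(46,0)]⟩,
  ⟨0,[(0,0)]⟩⟩,.o ⟨false,0,⟨0,[(32,0)]⟩,⟨0,[(1,0)]⟩⟩,.e ⟨true,0,⟨0,[(8,0)]⟩,⟨3,[(14,1),(3,1),(19,2),
  (0,2)]⟩⟩ ⟨true,1,⟨2,[(1,2),(6,0),(36,0),(2,1)]⟩,⟨0,[(0,0)]⟩⟩]⟩))))))))) (.R ⟨1,false,false,true,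
  [1,-1],[0,1],[1,1,-1,-1],(⟨0,[(35,0)]⟩,⟨0,[(36,0)]⟩),(⟨0,[(36,0)]⟩,⟨0,[(35,0)]⟩),⟨0,[(21,0),(0,
  0)]⟩,.k,.k,(.r (-1) ⟨6,[(9,3),(13,2),(0,2),(12,1),(2,5)]⟩ ⟨0,[(0,0),(38,0)]⟩),(.r (-1) ⟨6,[(9,3),
  (13,2),(0,2),(12,1),(2,5)]⟩ ⟨0,[(0,0),(38,0)]⟩),(.r (-1) ⟨6,[(9,5),(13,0),(0,0),(12,2),(2,8)]⟩ ⟨1,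
  [(0,2),(38,2)]⟩),.k,⟨false,1,⟨6,[(9,5),(13,0),(0,0),(12,2),(2,1)]⟩,⟨0,[(0,0),(38,0)]⟩⟩,⟨true,0,⟨0,
  [(2,0),(4,0),(1,0),(21,0)]⟩,⟨0,[(0,0),(3,0),(2,0),(23,0),(2,0),(5,0)]⟩⟩,⟨false,0,⟨0,[]⟩,⟨1,[(23,
  0),(0,0),(17,0)]⟩⟩,⟨false,0,⟨0,[(2,0),(26,0),(12,0)]⟩,⟨1,[(34,0),(5,3),(1,0)]⟩⟩,⟨true,0,⟨0,[(39,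
  0)]⟩,⟨0,[(40,0)]⟩⟩,⟨false,0,⟨4,[(2,4),(3,2),(2,0),(2,1),(16,1),(1,2),(10,1)]⟩,⟨1,[(34,0),(5,5),(1,
  0)]⟩⟩,[.o ⟨false,0,⟨0,[(39,0)]⟩,⟨1,[(34,0),(5,1),(1,0)]⟩⟩,.e ⟨false,1,⟨7,[(9,3),(13,2),(0,2),(12,
  1),(3,0)]⟩,⟨1,[(0,0),(38,0)]⟩⟩ ⟨false,0,⟨0,[(2,0),(3,0),(2,0),(21,0)]⟩,⟨1,[(23,0),(0,0),(5,0),(0,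
  0),(2,0),(5,1)]⟩⟩,.a ⟨true,0,⟨1,[(30,0),(0,0)]⟩,⟨1,[(2,0),(4,0),(1,0),(21,0),(0,0),(0,0)]⟩⟩ ⟨true,
  0,⟨2,[(4,1),(4,0),(19,1),(4,0),(5,0)]⟩,⟨1,[(0,0),(38,0)]⟩⟩ ⟨false,0,⟨3,[(2,2),(3,1),(2,1),(19,0),
  (1,1),(0,0),(0,0),(8,0)]⟩,⟨1,[(30,0),(0,0),(2,0),(5,1),(1,0)]⟩⟩,.e ⟨false,1,⟨7,[(9,3),(13,2),(0,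
  2),(12,1),(3,0)]⟩,⟨0,[(0,0)]⟩⟩ ⟨false,0,⟨0,[(2,0),(3,0),(2,0),(21,0)]⟩,⟨1,[(30,1),(0,1),(2,0),(5,
  1),(1,0)]⟩⟩]⟩))))))

theorem ok35 : chk K t35 r27 = true := by decide +kernel

noncomputable def t39 : Tre :=
  (.I [0,-1,-1,-1,1,0,0,-1] (.S ⟨1,0,[0,0,1,0,0,0,0,1],[0,1,1],[1,1,1,1,0,0,0,1],(⟨0,[(26,0),(2,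
  0)]⟩,⟨0,[(14,0)]⟩),⟨0,[(26,0)]⟩,.k,.k,⟨false,0,⟨0,[]⟩,⟨1,[(16,0),(0,0),(17,0)]⟩⟩,⟨true,0,⟨0,[(33,
  0)]⟩,⟨0,[(32,0)]⟩⟩,⟨true,0,⟨0,[(32,0)]⟩,⟨0,[(33,0)]⟩⟩,⟨false,1,⟨1,[(16,0),(0,0),(17,0)]⟩,⟨0,[]⟩⟩,
  [.o ⟨false,0,⟨0,[(1,0),(6,0),(22,0),(1,0)]⟩,⟨1,[(22,1),(4,0),(7,0)]⟩⟩,.a ⟨true,0,⟨0,[(1,0),(18,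
  0)]⟩,⟨0,[(22,0)]⟩⟩ ⟨false,0,⟨0,[(1,0),(29,0)]⟩,⟨0,[(0,0),(36,0)]⟩⟩ ⟨true,0,⟨0,[(1,0)]⟩,⟨0,[(8,0),
  (13,0)]⟩⟩,.e ⟨false,0,⟨0,[(4,0)]⟩,⟨0,[(0,0)]⟩⟩ ⟨false,0,⟨0,[(1,0)]⟩,⟨1,[(0,0),(5,0),(23,0)]⟩⟩,.o
  ⟨false,0,⟨0,[(8,0)]⟩,⟨1,[(24,1),(2,0),(6,0)]⟩⟩]⟩) (.Q [0,-1,0,-1,0,0,1,1,0,0,-1] (.p false [0,0,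
  1] [] (⟨0,[(26,0)]⟩,⟨0,[(25,0)]⟩) .k 0 (⟨0,[]⟩,⟨0,[]⟩) .k .k) (.R ⟨1,false,false,false,[1,0,-1],
  [1,-1],[1,0,-1,-1],(⟨0,[(26,0)]⟩,⟨0,[(27,0)]⟩),(⟨0,[(29,0)]⟩,⟨0,[(30,0)]⟩),⟨0,[(15,0)]⟩,.k,.k,.k,
  .k,.k,.k,⟨true,0,⟨0,[]⟩,⟨1,[(24,0),(0,0)]⟩⟩,⟨false,0,⟨0,[(9,0)]⟩,⟨0,[(25,0),(9,0)]⟩⟩,⟨true,0,⟨5,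
  [(1,3),(0,0),(0,3),(18,0),(2,0),(8,1)]⟩,⟨0,[(12,0)]⟩⟩,⟨false,0,⟨0,[(0,0)]⟩,⟨3,[(6,1),(10,0),(0,0),
  (4,3),(12,0)]⟩⟩,⟨true,0,⟨5,[(1,4),(1,3),(0,0),(1,0)]⟩,⟨0,[(23,0),(0,0)]⟩⟩,⟨true,0,⟨1,[(0,0),(12,
  0)]⟩,⟨0,[(23,0)]⟩⟩,[.a ⟨true,0,⟨0,[(34,0)]⟩,⟨0,[(1,0),(19,0),(1,0),(12,0)]⟩⟩ ⟨false,1,⟨7,[(3,3),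
  (13,2),(0,2),(12,1),(3,0)]⟩,⟨2,[(1,0),(0,0),(4,0),(4,0)]⟩⟩ ⟨true,0,⟨0,[(9,0),(24,0)]⟩,⟨0,[(1,0),
  (21,0),(12,0)]⟩⟩,.o ⟨false,1,⟨1,[(28,0),(5,1),(1,0)]⟩,⟨0,[(33,0)]⟩⟩,.o ⟨false,1,⟨1,[(25,1),(2,0),
  (6,0)]⟩,⟨0,[(9,0)]⟩⟩,.e ⟨false,1,⟨0,[(8,0)]⟩,⟨0,[(2,0),(9,0)]⟩⟩ ⟨false,1,⟨7,[(3,3),(10,1),(2,0),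
  (0,0),(5,3),(3,0),(7,1)]⟩,⟨0,[(1,0),(21,0),(12,0)]⟩⟩]⟩) (.Q [0,-1,0,-2,0,0,1,1,0,0,-1] (.p false
  [0,0,1] [] (⟨0,[(27,0)]⟩,⟨0,[(26,0)]⟩) .k 0 (⟨0,[]⟩,⟨0,[]⟩) .k .k) (.R ⟨1,false,false,true,[0,0,
  1],[0,1],[0,1,1],(⟨0,[(28,0)]⟩,⟨0,[(27,0)]⟩),(⟨0,[(31,0)]⟩,⟨0,[(30,0)]⟩),⟨0,[(17,0)]⟩,.k,.k,.k,.k,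
  (.r 0 ⟨1,[(0,0),(1,1),(1,1),(19,0)]⟩ ⟨3,[(5,1),(7,5),(4,0),(0,0),(17,2)]⟩),.k,⟨true,0,⟨0,[(35,
  0)]⟩,⟨2,[(2,0),(0,0),(4,0),(4,0)]⟩⟩,⟨false,1,⟨4,[(1,1),(0,1),(1,2),(2,0),(18,2),(9,2)]⟩,⟨0,[(25,
  0)]⟩⟩,⟨true,0,⟨0,[(24,0),(0,0)]⟩,⟨5,[(2,4),(1,3),(0,0),(1,0)]⟩⟩,⟨true,0,⟨0,[(1,0)]⟩,⟨1,[(0,0),(22,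
  0)]⟩⟩,⟨true,0,⟨0,[(13,0)]⟩,⟨7,[(0,1),(1,4),(1,4),(0,0),(20,1),(5,0)]⟩⟩,⟨false,1,⟨0,[(7,0),(16,
  0)]⟩,⟨0,[(0,0)]⟩⟩,[.o ⟨false,0,⟨0,[(34,0)]⟩,⟨1,[(0,0),(23,0),(4,0),(7,0)]⟩⟩,.a ⟨true,0,⟨1,[(1,0),
  (0,0),(19,0),(4,0),(0,0),(8,0)]⟩,⟨0,[(35,0)]⟩⟩ ⟨true,0,⟨1,[(25,0),(0,0)]⟩,⟨0,[]⟩⟩ ⟨false,1,⟨9,[(1,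
  2),(0,2),(1,1),(2,3),(18,6),(9,6)]⟩,⟨1,[(0,0),(9,1),(13,0)]⟩⟩,.o ⟨false,0,⟨0,[(10,0)]⟩,⟨1,[(26,1),
  (2,0),(6,0)]⟩⟩,.o ⟨false,0,⟨0,[(25,0)]⟩,⟨9,[(1,3),(0,3),(1,5),(2,1),(18,5),(2,4),(6,0)]⟩⟩]⟩) (.Q
  [0,0,0,0,0,2,0,0,0,0,-1] (.p false [0,0,1] [] (⟨0,[(28,0)]⟩,⟨0,[(27,0)]⟩) .k 0 (⟨0,[]⟩,⟨0,[]⟩) .k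
  .k) (.R ⟨0,false,false,false,[0,-1,1],[1,-1],[1],(⟨0,[(18,0)]⟩,⟨0,[(0,0),(30,0)]⟩),(⟨0,[(31,0)]⟩,
  ⟨0,[(32,0)]⟩),⟨0,[(0,0)]⟩,.k,.k,(.r 0 ⟨0,[(3,0),(1,0),(30,0)]⟩ ⟨3,[(6,1),(7,5),(4,0),(0,0),(17,
  2)]⟩),.k,.k,.k,⟨true,0,⟨2,[(3,0),(0,0),(4,0),(4,0)]⟩,⟨0,[(36,0)]⟩⟩,⟨false,1,⟨9,[(1,3),(1,1),(1,5),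
  (0,1),(20,5),(2,4),(6,0)]⟩,⟨3,[(0,0),(15,1),(12,0),(1,1)]⟩⟩,⟨false,1,⟨0,[(14,0),(23,0)]⟩,⟨5,[(3,
  3),(0,0),(0,3),(18,0),(2,0),(8,1)]⟩⟩,⟨true,1,⟨1,[(25,1),(4,0),(7,0)]⟩,⟨0,[(3,0),(19,0),(12,0)]⟩⟩,
  ⟨false,0,⟨0,[]⟩,⟨0,[]⟩⟩,⟨false,0,⟨0,[]⟩,⟨0,[]⟩⟩,[.a ⟨true,0,⟨0,[(36,0)]⟩,⟨3,[(0,0),(0,1),(2,1),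
  (18,1),(5,0),(1,1)]⟩⟩ ⟨true,0,⟨0,[]⟩,⟨1,[(26,0),(0,0)]⟩⟩ ⟨false,1,⟨3,[(1,0),(1,1),(1,3),(19,0),(1,
  1),(2,1)]⟩,⟨1,[(1,0),(2,0),(11,1),(10,0)]⟩⟩,.o ⟨false,1,⟨1,[(30,0),(5,1),(1,0)]⟩,⟨0,[(35,0)]⟩⟩,.o
  ⟨false,0,⟨0,[(26,0)]⟩,⟨9,[(1,3),(1,1),(1,5),(0,1),(20,5),(2,4),(6,0)]⟩⟩,.o ⟨false,0,⟨1,[(26,2),(0,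
  0)]⟩,⟨3,[(1,2),(1,1),(0,0),(0,3),(21,0),(2,1)]⟩⟩]⟩) (.I [0,0,1,0,1,-1,-1,0,-1] (.Q [0,0,0,0,0,-1,
  0,0,0,0,0,1] (.ed false [1,-1,0,0,1] .k) (.Q [0,0,-1,0,1,0,0,0,-1,-1,0,1] (.p true [0,0,0,0,1]
  [1] (⟨0,[(24,0)]⟩,⟨0,[(23,0)]⟩) .k 1 (⟨0,[]⟩,⟨0,[]⟩) .k .k) (.R ⟨1,false,false,true,[0,0,0,0,1],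
  [1,-1],[0,1,0,-1],(⟨0,[(25,0)]⟩,⟨0,[(24,0)]⟩),(⟨0,[(34,0)]⟩,⟨0,[(35,0)]⟩),⟨0,[(1,0)]⟩,.k,.k,(.r 0
  ⟨2,[(6,0),(1,0),(5,0),(13,0),(7,0),(2,1)]⟩ ⟨3,[(9,1),(7,1),(4,0),(0,0),(17,2)]⟩),(.r 0 ⟨6,[(9,2),
  (7,3),(9,0),(2,0),(5,0)]⟩ ⟨2,[(8,0),(13,0),(0,0),(15,0),(1,0)]⟩),.k,.k,⟨true,0,⟨1,[(29,0),(0,0)]⟩,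
  ⟨0,[]⟩⟩,⟨false,1,⟨1,[(0,1),(28,0),(0,0)]⟩,⟨1,[(16,1),(23,0),(0,0)]⟩⟩,⟨true,0,⟨0,[(39,0)]⟩,⟨10,[(4,
  2),(4,0),(7,0),(0,2),(17,1)]⟩⟩,⟨true,1,⟨1,[(0,1),(28,0),(0,0),(8,1)]⟩,⟨0,[(15,0)]⟩⟩,⟨false,1,⟨1,
  [(22,0),(0,0),(17,0)]⟩,⟨0,[]⟩⟩,⟨true,1,⟨1,[(0,1),(28,0),(0,0)]⟩,⟨0,[(16,0)]⟩⟩,[.e ⟨false,0,⟨2,[(6,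
  0),(1,0),(5,0),(13,0),(7,0),(2,1)]⟩,⟨3,[(11,1),(10,0),(0,0),(17,0)]⟩⟩ ⟨false,1,⟨9,[(0,7),(5,0),
  (15,1),(5,0),(0,0),(3,0),(2,3),(2,10)]⟩,⟨0,[(15,0),(25,0)]⟩⟩,.a ⟨true,0,⟨0,[(39,0)]⟩,⟨1,[(4,0),(2,
  0),(18,0),(4,0),(0,0)]⟩⟩ ⟨true,0,⟨0,[(39,0)]⟩,⟨2,[(6,0),(0,0),(4,0),(4,0)]⟩⟩ ⟨false,1,⟨0,[(0,0),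
  (38,0)]⟩,⟨3,[(11,1),(4,3),(5,0),(0,0),(17,0)]⟩⟩,.o ⟨false,0,⟨0,[(23,0)]⟩,⟨1,[(0,1),(28,0),(0,
  0)]⟩⟩,.o ⟨false,0,⟨1,[(23,1),(5,0),(0,0)]⟩,⟨0,[(0,0)]⟩⟩]⟩) (.I [1,-1,-1,-1,1,0,0,-1] (.N [0,1,1,0,
  1] 1 ⟨0,[(7,0)]⟩ ⟨0,[(0,0)]⟩ (.x 0 ⟨5,[(1,3),(3,1),(1,1),(1,3),(5,7),(0,1),(9,5),(6,5),(0,2),(1,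
  5),(5,0)]⟩ ⟨0,[(3,0)]⟩)) (.Q [0,0,0,0,1,0,-1,0,-1,-1,1,1] (.p true [0,0,1] [1,0,0,0,-1] (⟨0,[(33,
  0)]⟩,⟨0,[(32,0)]⟩) .k 2 (⟨0,[(25,0)]⟩,⟨0,[(26,0)]⟩) .k (.r 0 ⟨0,[(8,0),(28,0)]⟩ ⟨0,[(13,0),(26,
  0)]⟩)) (.K ⟨0,[1,0,0,0,-1],1,1,(⟨0,[(26,0)]⟩,⟨0,[(27,0)]⟩),.k,(.r (-1) ⟨2,[(10,0),(13,0),(0,0),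
  (15,0),(1,0)]⟩ ⟨6,[(11,2),(7,3),(9,0),(2,0),(5,0)]⟩),(.r (-1) ⟨3,[(11,1),(7,1),(4,0),(0,0),(17,
  2)]⟩ ⟨2,[(8,0),(1,0),(5,0),(13,0),(7,0),(2,1)]⟩),.k,.k,[⟨0,[(0,0)]⟩,⟨0,[(2,0)]⟩,⟨0,[(18,0),(26,
  0)]⟩,⟨0,[(0,0),(15,0)]⟩]⟩) (.Q [0,0,0,0,-1,0,0,0,1,1,0,-1] (.p false [0,0,0,0,1] [1] (⟨0,[(27,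
  0)]⟩,⟨0,[(26,0)]⟩) .k 1 (⟨0,[]⟩,⟨0,[]⟩) .k .k) (.Q [0,0,0,1,-1,0,0,0,1,1,0,-1] (.p false [0,0,0,0,
  1] [1] (⟨0,[(28,0)]⟩,⟨0,[(27,0)]⟩) .k 1 (⟨0,[]⟩,⟨0,[]⟩) .k .k) (.I [0,2,0,-1,-1] (.Q [0,0,-1,0,1,
  0,1,0,-1,0,-1,1] (.p false [0,0,1] [0,0,0,0,1] (⟨0,[(37,0)]⟩,⟨0,[(36,0)]⟩) .k 2 (⟨0,[(30,0)]⟩,⟨0,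
  [(29,0)]⟩) .k (.r (-1) ⟨5,[(12,1),(0,1),(0,3),(12,2),(0,2),(17,0)]⟩ ⟨0,[(19,0),(13,0)]⟩)) (.Q [0,
  0,-2,0,0,0,1,0,0,1,-1] (.p false [0,0,1] [1] (⟨0,[(38,0)]⟩,⟨0,[(37,0)]⟩) .k 1 (⟨0,[]⟩,⟨0,[]⟩) .k
  .k) (.Q [0,0,-1,0,1,0,0,0,-1,0,0,1] (.p true [0,0,0,0,1] [] (⟨0,[(32,0)]⟩,⟨0,[(31,0)]⟩) .k 0 (⟨0,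
  []⟩,⟨0,[]⟩) .k .k) (.S ⟨1,0,[0,1,0,-1],[0,0,0,0,1],[0,2,0,-1],(⟨0,[(33,0)]⟩,⟨0,[(32,0)]⟩),⟨0,[(9,
  0)]⟩,.k,(.r 0 ⟨4,[(3,0),(12,0),(27,1),(2,1)]⟩ ⟨3,[(17,1),(7,1),(4,0),(0,0),(17,2)]⟩),⟨false,0,⟨0,
  [(47,0)]⟩,⟨3,[(19,1),(10,0),(0,0),(17,0)]⟩⟩,⟨true,0,⟨0,[(47,0)]⟩,⟨10,[(12,2),(4,0),(7,0),(0,2),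
  (17,1)]⟩⟩,⟨true,0,⟨0,[(51,0)]⟩,⟨0,[]⟩⟩,⟨false,1,⟨1,[(30,0),(0,0),(17,0)]⟩,⟨0,[]⟩⟩,[.o ⟨false,(-1),
  ⟨1,[(3,0),(1,1),(35,0),(5,0)]⟩,⟨5,[(2,1),(9,1),(1,1),(15,3),(10,2),(7,4)]⟩⟩,.a ⟨true,(-1),⟨0,[(5,
  0),(41,0)]⟩,⟨2,[(2,0),(9,0),(1,0),(15,1),(18,0)]⟩⟩ ⟨false,0,⟨4,[(3,0),(12,0),(27,1),(2,1)]⟩,⟨3,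
  [(19,1),(10,0),(0,0),(17,0)]⟩⟩ ⟨true,0,⟨0,[(47,0)]⟩,⟨2,[(14,0),(0,0),(4,0),(4,0)]⟩⟩,.a ⟨true,(-1),
  ⟨0,[(5,0)]⟩,⟨0,[(30,0)]⟩⟩ ⟨true,(-1),⟨0,[(3,0)]⟩,⟨3,[(19,1),(10,0),(0,0),(17,0)]⟩⟩ ⟨false,0,⟨0,
  [(47,0)]⟩,⟨3,[(19,1),(10,0),(0,0),(17,0)]⟩⟩,.a ⟨true,(-1),⟨0,[(8,0)]⟩,⟨0,[(0,0)]⟩⟩ ⟨false,0,⟨4,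
  [(3,0),(12,0),(27,1),(2,1)]⟩,⟨0,[(15,0),(4,0)]⟩⟩ ⟨true,0,⟨4,[(3,0),(12,0),(27,1),(2,1)]⟩,⟨2,[(14,
  0),(0,0),(4,0),(4,0)]⟩⟩]⟩) (.S ⟨1,0,[0,1,0,-1],[0,0,0,0,1],[1,2],(⟨0,[(33,0)]⟩,⟨0,[(32,0)]⟩),⟨0,
  [(9,0)]⟩,.k,(.r 0 ⟨4,[(3,0),(12,0),(27,1),(2,1)]⟩ ⟨3,[(17,1),(7,1),(4,0),(0,0),(17,2)]⟩),⟨false,0,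
  ⟨0,[]⟩,⟨1,[(30,0),(0,0),(17,0)]⟩⟩,⟨true,0,⟨0,[(47,0)]⟩,⟨10,[(12,2),(4,0),(7,0),(0,2),(17,1)]⟩⟩,
  ⟨true,0,⟨10,[(12,2),(4,0),(7,0),(0,2),(17,1)]⟩,⟨0,[(47,0)]⟩⟩,⟨false,1,⟨1,[(30,0),(0,0),(17,0)]⟩,
  ⟨0,[]⟩⟩,[.o ⟨false,(-1),⟨4,[(0,2),(2,2),(12,0),(14,1)]⟩,⟨5,[(2,1),(9,1),(1,1),(15,3),(10,2),(7,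
  4)]⟩⟩,.a ⟨true,(-1),⟨0,[(5,0),(41,0)]⟩,⟨2,[(2,0),(9,0),(1,0),(15,1),(18,0)]⟩⟩ ⟨false,0,⟨7,[(3,0),
  (12,0),(27,1),(0,2)]⟩,⟨1,[(30,0),(0,0),(17,0)]⟩⟩ ⟨true,0,⟨0,[(47,0)]⟩,⟨2,[(14,0),(0,0),(4,0),(4,
  0)]⟩⟩,.e ⟨false,0,⟨0,[(51,0)]⟩,⟨0,[(49,0)]⟩⟩ ⟨false,0,⟨0,[(47,0)]⟩,⟨3,[(19,1),(10,0),(0,0),(17,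
  0)]⟩⟩,.o ⟨false,(-1),⟨0,[(0,0)]⟩,⟨1,[(30,1),(10,0),(6,0)]⟩⟩]⟩)) (.Q [0,0,-1,0,0,0,0,0,0,1] (.pp
  false [-1,1]) (.S ⟨1,0,[0,1,-1,-2],[1,-1],[1,0,-1,-1],(⟨0,[(42,0)]⟩,⟨0,[(43,0)]⟩),⟨1,[(11,0),(16,
  0),(13,0)]⟩,.k,(.r (-1) ⟨6,[(16,3),(13,2),(0,2),(12,1),(2,5)]⟩ ⟨2,[(14,1),(0,1),(4,1),(4,1)]⟩),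
  ⟨true,0,⟨0,[]⟩,⟨0,[(51,0)]⟩⟩,⟨false,0,⟨0,[(47,0)]⟩,⟨3,[(19,1),(10,0),(0,0),(17,0)]⟩⟩,⟨false,1,⟨3,
  [(19,1),(10,0),(0,0),(17,0)]⟩,⟨0,[(47,0)]⟩⟩,⟨true,0,⟨0,[(51,0)]⟩,⟨0,[]⟩⟩,[.o ⟨false,0,⟨1,[(3,0),
  (37,0),(5,2)]⟩,⟨0,[(19,0)]⟩⟩,.e ⟨false,1,⟨0,[(21,0)]⟩,⟨6,[(17,2),(7,3),(9,0),(2,0),(5,0)]⟩⟩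
  ⟨false,1,⟨6,[(16,3),(13,2),(0,2),(12,1),(2,5)]⟩,⟨0,[(14,0),(5,0)]⟩⟩,.a ⟨true,0,⟨4,[(1,1),(6,0),
  (18,0),(2,0)]⟩,⟨0,[(0,0)]⟩⟩ ⟨false,1,⟨2,[(16,0),(13,0),(0,0),(15,0),(1,0)]⟩,⟨2,[(14,0),(0,0),(4,
  0),(4,0)]⟩⟩ ⟨true,0,⟨4,[(3,0),(12,0),(27,1),(2,6)]⟩,⟨0,[(14,0),(5,0)]⟩⟩,.o ⟨false,0,⟨0,[(1,0),(20,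
  0)]⟩,⟨0,[(48,0)]⟩⟩]⟩) (.S ⟨1,0,[0,1,0,-1],[0,0,0,0,1],[1,2],(⟨0,[(33,0)]⟩,⟨0,[(32,0)]⟩),⟨0,[(9,
  0)]⟩,.k,(.r 0 ⟨4,[(3,0),(12,0),(27,1),(2,1)]⟩ ⟨19,[(1,7),(6,3),(10,9),(7,3),(2,8),(0,4),(17,4)]⟩),
  ⟨false,0,⟨0,[]⟩,⟨1,[(30,0),(0,0),(17,0)]⟩⟩,⟨true,0,⟨0,[(47,0)]⟩,⟨10,[(12,2),(4,0),(7,0),(0,2),(17,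
  1)]⟩⟩,⟨true,0,⟨10,[(12,2),(4,0),(7,0),(0,2),(17,1)]⟩,⟨0,[(47,0)]⟩⟩,⟨false,1,⟨1,[(30,0),(0,0),(17,
  0)]⟩,⟨0,[]⟩⟩,[.o ⟨false,(-1),⟨9,[(1,2),(1,5),(1,5),(0,2),(9,1),(14,0),(9,2)]⟩,⟨5,[(2,1),(9,1),(1,
  1),(15,3),(10,2),(7,4)]⟩⟩,.a ⟨true,(-1),⟨0,[(5,0),(41,0)]⟩,⟨2,[(2,0),(9,0),(1,0),(15,1),(18,0)]⟩⟩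
  ⟨false,0,⟨7,[(3,0),(12,0),(27,1),(0,2)]⟩,⟨1,[(30,0),(0,0),(17,0)]⟩⟩ ⟨true,0,⟨0,[(47,0)]⟩,⟨2,[(14,
  0),(0,0),(4,0),(4,0)]⟩⟩,.e ⟨false,0,⟨0,[(51,0)]⟩,⟨0,[(49,0)]⟩⟩ ⟨false,0,⟨0,[(47,0)]⟩,⟨3,[(19,1),
  (10,0),(0,0),(17,0)]⟩⟩,.o ⟨false,(-1),⟨0,[(0,0),(4,0)]⟩,⟨1,[(30,1),(10,0),(6,0)]⟩⟩]⟩))) (.Q [0,-1,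
  0,0,1,0,1,1,-1,0,-1,1] (.p false [0,0,1] [0,0,0,0,1] (⟨0,[(38,0)]⟩,⟨0,[(37,0)]⟩) .k 2 (⟨0,[(31,
  0)]⟩,⟨0,[(30,0)]⟩) .k (.r (-1) ⟨5,[(13,1),(0,1),(0,3),(12,2),(0,2),(17,0)]⟩ ⟨0,[(20,0),(13,0)]⟩))
  (.S ⟨1,0,[0,1,0,-1],[0,0,0,0,1],[1,2],(⟨0,[(32,0)]⟩,⟨0,[(31,0)]⟩),⟨0,[(8,0)]⟩,.k,(.r 0 ⟨4,[(2,0),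
  (12,0),(27,1),(2,1)]⟩ ⟨3,[(16,1),(7,1),(4,0),(0,0),(17,2)]⟩),⟨false,0,⟨0,[]⟩,⟨1,[(29,0),(0,0),(17,
  0)]⟩⟩,⟨true,0,⟨0,[(46,0)]⟩,⟨10,[(11,2),(4,0),(7,0),(0,2),(17,1)]⟩⟩,⟨true,0,⟨10,[(11,2),(4,0),(7,
  0),(0,2),(17,1)]⟩,⟨0,[(46,0)]⟩⟩,⟨false,1,⟨1,[(29,0),(0,0),(17,0)]⟩,⟨0,[]⟩⟩,[.o ⟨false,(-1),⟨15,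
  [(1,5),(0,8),(2,5),(9,1),(14,3),(9,2),(5,2)]⟩,⟨1,[(0,0),(10,0),(17,0),(10,0),(7,0)]⟩⟩,.a ⟨true,
  (-1),⟨0,[(4,0),(41,0)]⟩,⟨1,[(0,0),(10,0),(17,0)]⟩⟩ ⟨false,0,⟨7,[(2,0),(12,0),(27,1),(0,2)]⟩,⟨1,
  [(29,0),(0,0),(17,0)]⟩⟩ ⟨true,0,⟨0,[(46,0)]⟩,⟨2,[(13,0),(0,0),(4,0),(4,0)]⟩⟩,.e ⟨false,0,⟨0,[(50,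
  0)]⟩,⟨0,[(48,0)]⟩⟩ ⟨false,0,⟨0,[(46,0)]⟩,⟨3,[(18,1),(10,0),(0,0),(17,0)]⟩⟩,.o ⟨false,(-1),⟨0,[(1,
  0),(19,0)]⟩,⟨1,[(29,1),(10,0),(6,0)]⟩⟩]⟩) (.R ⟨1,false,false,false,[0,0,0,0,1],[0,0,1],[1,2],(⟨0,
  [(32,0)]⟩,⟨0,[(31,0)]⟩),(⟨0,[(39,0)]⟩,⟨0,[(38,0)]⟩),⟨0,[(8,0)]⟩,.k,.k,(.r 0 ⟨4,[(2,0),(12,0),(27,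
  1),(2,1)]⟩ ⟨3,[(16,1),(7,1),(4,0),(0,0),(17,2)]⟩),.k,(.r (-1) ⟨27,[(15,7),(10,13),(2,12),(0,12),
  (4,27),(4,6),(2,3),(2,11)]⟩ ⟨0,[(13,0),(34,0)]⟩),.k,⟨false,0,⟨32,[(2,18),(8,15),(3,14),(8,16),(1,
  7),(13,3),(2,4)]⟩,⟨2,[(14,0),(0,0),(0,1),(31,1)]⟩⟩,⟨true,1,⟨0,[(21,0),(7,0)]⟩,⟨0,[(1,0)]⟩⟩,⟨false,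
  0,⟨0,[]⟩,⟨1,[(29,0),(0,0),(17,0)]⟩⟩,⟨false,2,⟨4,[(14,2),(0,0),(5,2),(3,1),(3,4),(18,3)]⟩,⟨0,[(0,
  0)]⟩⟩,⟨true,0,⟨10,[(11,2),(4,0),(7,0),(0,2),(17,1)]⟩,⟨0,[(46,0)]⟩⟩,⟨false,2,⟨2,[(13,0),(0,1),(0,
  0),(2,1),(2,2),(7,2),(18,0)]⟩,⟨0,[(0,0),(45,0)]⟩⟩,[.o ⟨false,0,⟨4,[(13,0),(0,1),(0,0),(5,2),(3,0),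
  (8,0)]⟩,⟨1,[(35,1),(4,0),(7,0)]⟩⟩,.e ⟨false,0,⟨7,[(2,0),(12,0),(27,1),(0,2)]⟩,⟨1,[(29,0),(0,0),
  (17,0)]⟩⟩ ⟨false,2,⟨4,[(14,0),(0,1),(5,0),(3,3),(3,4),(18,2)]⟩,⟨0,[(0,0)]⟩⟩,.a ⟨true,(-1),⟨0,[(4,
  0)]⟩,⟨0,[(29,0)]⟩⟩ ⟨false,0,⟨0,[(50,0)]⟩,⟨0,[(48,0)]⟩⟩ ⟨true,1,⟨4,[(13,0),(0,1),(0,0),(5,2),(3,0),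
  (3,4),(4,0)]⟩,⟨0,[(0,0)]⟩⟩,.o ⟨false,(-1),⟨0,[(1,0),(19,0)]⟩,⟨1,[(29,1),(10,0),(6,0)]⟩⟩]⟩))) (.Q
  [0,0,1,0,-1,0,0,0,1,0,0,-1] (.p false [0,0,0,0,1] [] (⟨0,[(30,0)]⟩,⟨0,[(29,0)]⟩) .k 0 (⟨0,[]⟩,⟨0,
  []⟩) .k .k) (.Q [0,0,1,0,1,0,0,0,-1,-1,0,1] (.p true [0,0,0,0,1] [1] (⟨0,[(31,0)]⟩,⟨0,[(30,0)]⟩)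
  .k 1 (⟨0,[]⟩,⟨0,[]⟩) .k .k) (.R ⟨1,false,false,true,[0,0,0,0,1],[1,-1],[1,2],(⟨0,[(32,0)]⟩,⟨0,
  [(31,0)]⟩),(⟨0,[(41,0)]⟩,⟨0,[(42,0)]⟩),⟨0,[(8,0)]⟩,.k,.k,(.r 0 ⟨2,[(13,0),(1,0),(5,0),(13,0),(7,
  0),(2,1)]⟩ ⟨3,[(0,1),(6,1),(10,1),(10,0),(0,0),(17,0)]⟩),(.r 0 ⟨6,[(16,2),(7,3),(9,0),(2,0),(5,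
  0)]⟩ ⟨2,[(15,0),(13,0),(0,0),(15,0),(1,0)]⟩),.k,.k,⟨false,0,⟨10,[(11,2),(4,0),(7,0),(0,2),(17,
  1)]⟩,⟨2,[(15,0),(13,0),(0,0),(15,0),(1,0)]⟩⟩,⟨true,1,⟨0,[(0,0)]⟩,⟨0,[(4,0)]⟩⟩,⟨false,0,⟨0,[]⟩,⟨1,
  [(29,0),(0,0),(17,0)]⟩⟩,⟨false,2,⟨2,[(0,2),(14,0),(13,0),(0,0),(15,0),(1,0)]⟩,⟨0,[(3,0)]⟩⟩,⟨true,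
  0,⟨10,[(11,2),(4,0),(7,0),(0,2),(17,1)]⟩,⟨0,[(46,0)]⟩⟩,⟨false,2,⟨1,[(0,1),(46,0),(0,0)]⟩,⟨0,[(4,
  0)]⟩⟩,[.o ⟨false,0,⟨0,[(0,0),(0,0),(11,0),(1,0),(5,0),(13,0)]⟩,⟨3,[(18,1),(10,0),(0,0),(17,0)]⟩⟩,
  .e ⟨false,0,⟨3,[(13,0),(1,0),(5,0),(13,0),(7,0),(0,0)]⟩,⟨1,[(29,0),(0,0),(17,0)]⟩⟩ ⟨false,2,⟨7,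
  [(0,7),(14,3),(13,2),(0,2),(12,1),(3,0)]⟩,⟨0,[(3,0)]⟩⟩,.a ⟨true,(-1),⟨0,[(4,0)]⟩,⟨0,[(29,0)]⟩⟩
  ⟨false,0,⟨0,[(50,0)]⟩,⟨0,[(48,0)]⟩⟩ ⟨true,1,⟨2,[(0,2),(12,0),(1,0),(5,0),(13,0),(7,0),(2,1)]⟩,⟨0,
  [(3,0)]⟩⟩,.o ⟨false,(-1),⟨0,[(1,0)]⟩,⟨0,[(0,0),(46,0)]⟩⟩]⟩) (.S ⟨1,0,[0,0,0,-1],[1,0,0,0,-1],[1,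
  -1],(⟨0,[(31,0)]⟩,⟨0,[(32,0)]⟩),⟨2,[(0,0),(8,0),(0,0),(10,0),(9,1)]⟩,.k,(.r (-1) ⟨2,[(15,0),(13,
  0),(0,0),(15,0),(1,0)]⟩ ⟨6,[(16,2),(7,3),(9,0),(2,0),(5,0)]⟩),⟨true,0,⟨0,[]⟩,⟨0,[(50,0)]⟩⟩,⟨false,
  0,⟨0,[(46,0)]⟩,⟨3,[(18,1),(10,0),(0,0),(17,0)]⟩⟩,⟨false,1,⟨3,[(18,1),(10,0),(0,0),(17,0)]⟩,⟨0,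
  [(46,0)]⟩⟩,⟨true,0,⟨0,[(50,0)]⟩,⟨0,[]⟩⟩,[.a ⟨true,1,⟨0,[(29,0),(16,0)]⟩,⟨0,[(3,0)]⟩⟩ ⟨false,1,⟨1,
  [(47,0),(0,0)]⟩,⟨0,[(50,0)]⟩⟩ ⟨true,0,⟨0,[(46,0)]⟩,⟨3,[(2,0),(10,0),(0,0),(9,1)]⟩⟩,.o ⟨false,2,⟨1,
  [(29,1),(10,0),(5,1),(1,0)]⟩,⟨0,[(1,0),(42,0)]⟩⟩,.a ⟨true,1,⟨0,[(29,0)]⟩,⟨0,[(4,0)]⟩⟩ ⟨false,1,⟨0,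
  [(48,0)]⟩,⟨0,[(50,0)]⟩⟩ ⟨true,0,⟨0,[(46,0)]⟩,⟨10,[(11,2),(4,0),(7,0),(0,2),(17,1)]⟩⟩,.a ⟨true,1,
  ⟨1,[(29,1),(6,0),(0,0)]⟩,⟨0,[(0,0)]⟩⟩ ⟨true,1,⟨1,[(47,0),(0,0)]⟩,⟨0,[(13,0),(7,0),(13,0),(10,
  0)]⟩⟩ ⟨false,1,⟨2,[(15,0),(13,0),(0,0),(15,0),(1,0)]⟩,⟨3,[(2,0),(10,0),(0,0),(9,1)]⟩⟩]⟩)) (.Q [0,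
  2,0,0,-2,0,0,0,1,1,0,-1] (.p false [0,0,0,0,1] [1] (⟨0,[(31,0)]⟩,⟨0,[(30,0)]⟩) .k 1 (⟨0,[]⟩,⟨0,
  []⟩) .k .k) (.S ⟨1,0,[0,2,0,-1],[0,0,0,0,1],[1,1],(⟨0,[(32,0)]⟩,⟨0,[(31,0)]⟩),⟨0,[(8,0)]⟩,.k,(.r
  0 ⟨6,[(0,1),(0,1),(13,0),(24,0),(2,1),(2,4)]⟩ ⟨3,[(16,1),(7,1),(4,0),(0,0),(17,2)]⟩),⟨true,0,⟨0,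
  []⟩,⟨0,[(50,0)]⟩⟩,⟨false,0,⟨0,[(46,0)]⟩,⟨3,[(18,1),(10,0),(0,0),(17,0)]⟩⟩,⟨false,1,⟨3,[(18,1),(10,
  0),(0,0),(17,0)]⟩,⟨0,[(46,0)]⟩⟩,⟨true,0,⟨0,[(50,0)]⟩,⟨0,[]⟩⟩,[.e ⟨false,0,⟨8,[(0,1),(0,1),(13,0),
  (24,0),(2,1),(0,1)]⟩,⟨1,[(29,0),(0,0),(17,0)]⟩⟩ ⟨false,0,⟨0,[(43,0),(2,0)]⟩,⟨0,[(2,0)]⟩⟩,.o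
  ⟨false,(-1),⟨1,[(0,0),(3,0),(35,0),(5,1)]⟩,⟨3,[(1,0),(0,1),(10,0),(5,0),(9,2),(10,1)]⟩⟩,.e ⟨false,
  0,⟨0,[]⟩,⟨1,[(29,0),(0,0),(17,0)]⟩⟩ ⟨false,0,⟨0,[(46,0),(3,0)]⟩,⟨0,[(2,0)]⟩⟩,.a ⟨true,(-1),⟨0,[(7,
  0)]⟩,⟨0,[(1,0)]⟩⟩ ⟨true,0,⟨8,[(0,1),(0,1),(13,0),(24,0),(2,1),(0,1)]⟩,⟨1,[(36,0),(0,0)]⟩⟩ ⟨false,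
  0,⟨6,[(0,1),(0,1),(13,0),(24,0),(2,1),(2,4)]⟩,⟨1,[(2,0),(11,0),(9,0),(23,0)]⟩⟩]⟩) (.R ⟨1,false,
  false,false,[0,0,0,0,1],[1,-1],[1,1],(⟨0,[(32,0)]⟩,⟨0,[(31,0)]⟩),(⟨0,[(41,0)]⟩,⟨0,[(42,0)]⟩),⟨0,
  [(8,0)]⟩,.k,.k,(.r 0 ⟨2,[(13,0),(1,0),(5,0),(13,0),(7,0),(2,1)]⟩ ⟨3,[(0,1),(6,1),(8,0),(1,0),(5,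
  0),(4,0),(0,0)]⟩),(.r 0 ⟨6,[(16,2),(7,3),(9,0),(2,0),(5,0)]⟩ ⟨2,[(15,0),(13,0),(0,0),(15,0),(1,
  0)]⟩),.k,.k,⟨false,0,⟨10,[(11,2),(4,0),(7,0),(0,2),(17,1)]⟩,⟨2,[(15,0),(13,0),(0,0),(15,0),(1,
  0)]⟩⟩,⟨true,1,⟨0,[(0,0),(12,0),(7,0),(13,0),(10,0)]⟩,⟨0,[(4,0)]⟩⟩,⟨true,0,⟨0,[]⟩,⟨0,[(50,0)]⟩⟩,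
  ⟨false,2,⟨0,[(0,0),(45,0)]⟩,⟨0,[(22,0)]⟩⟩,⟨false,1,⟨3,[(18,1),(10,0),(0,0),(17,0)]⟩,⟨0,[(46,0)]⟩⟩,
  ⟨false,2,⟨0,[(0,0)]⟩,⟨0,[(23,0)]⟩⟩,[.e ⟨false,0,⟨3,[(13,0),(1,0),(5,0),(13,0),(7,0),(0,0)]⟩,⟨1,
  [(29,0),(0,0),(17,0)]⟩⟩ ⟨false,2,⟨13,[(15,3),(13,16),(0,2),(9,6),(2,1),(2,5)]⟩,⟨0,[(3,0)]⟩⟩,.o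
  ⟨false,1,⟨1,[(40,0),(5,1),(1,0)]⟩,⟨0,[(45,0)]⟩⟩,.e ⟨false,0,⟨0,[]⟩,⟨1,[(29,0),(0,0),(17,0)]⟩⟩
  ⟨false,2,⟨3,[(0,1),(28,2),(0,0),(9,0),(5,3)]⟩,⟨0,[(3,0)]⟩⟩,.a ⟨true,(-1),⟨0,[(7,0)]⟩,⟨0,[(1,0)]⟩⟩
  ⟨true,0,⟨3,[(13,0),(1,0),(5,0),(13,0),(7,0),(0,0)]⟩,⟨1,[(36,0),(0,0)]⟩⟩ ⟨false,2,⟨2,[(0,0),(14,0),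
  (13,1),(10,0),(5,0)]⟩,⟨4,[(2,0),(0,1),(3,2),(5,0),(10,0)]⟩⟩]⟩)))) (.R ⟨2,true,false,true,[0,1],[1,
  0,0,0,-1],[1,1,1,1],(⟨0,[]⟩,⟨0,[]⟩),(⟨0,[(28,0)]⟩,⟨0,[(29,0)]⟩),⟨0,[]⟩,.k,.k,.k,(.r 0 ⟨6,[(13,2),
  (7,3),(9,0),(2,0),(5,0)]⟩ ⟨2,[(12,0),(13,0),(0,0),(15,0),(1,0)]⟩),.k,.k,⟨false,0,⟨10,[(8,2),(4,0),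
  (7,0),(0,2),(17,1)]⟩,⟨2,[(12,0),(13,0),(0,0),(15,0),(1,0)]⟩⟩,⟨true,1,⟨2,[(0,2),(9,0),(0,0),(4,0),
  (4,0)]⟩,⟨0,[(1,0)]⟩⟩,⟨false,0,⟨0,[]⟩,⟨1,[(26,0),(0,0),(17,0)]⟩⟩,⟨true,1,⟨0,[(0,0)]⟩,⟨0,[(19,0)]⟩⟩,
  ⟨true,0,⟨10,[(8,2),(4,0),(7,0),(0,2),(17,1)]⟩,⟨0,[(43,0)]⟩⟩,⟨false,2,⟨1,[(26,1),(10,0),(7,0)]⟩,⟨0,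
  [(1,0)]⟩⟩,[]⟩)) (.R ⟨1,false,false,false,[0,0,0,0,1],[1,-1],[1,2],(⟨0,[(28,0)]⟩,⟨0,[(27,0)]⟩),(⟨0,
  [(37,0)]⟩,⟨0,[(38,0)]⟩),⟨0,[(4,0)]⟩,.k,.k,(.r 0 ⟨2,[(9,0),(1,0),(5,0),(13,0),(7,0),(2,1)]⟩ ⟨3,
  [(12,1),(7,1),(4,0),(0,0),(17,2)]⟩),(.r 0 ⟨6,[(12,2),(7,3),(9,0),(2,0),(5,0)]⟩ ⟨2,[(11,0),(13,0),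
  (0,0),(15,0),(1,0)]⟩),.k,.k,⟨true,(-1),⟨0,[(9,0),(7,0),(13,0)]⟩,⟨0,[(42,0),(1,0)]⟩⟩,⟨false,1,⟨0,
  [(0,0)]⟩,⟨1,[(19,1),(23,0),(0,0)]⟩⟩,⟨false,0,⟨0,[]⟩,⟨1,[(25,0),(0,0),(17,0)]⟩⟩,⟨false,2,⟨0,[(0,0),
  (41,0),(1,0)]⟩,⟨0,[(18,0)]⟩⟩,⟨true,0,⟨10,[(7,2),(4,0),(7,0),(0,2),(17,1)]⟩,⟨0,[(42,0)]⟩⟩,⟨false,2,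
  ⟨0,[(0,0),(43,0)]⟩,⟨0,[(19,0)]⟩⟩,[.a ⟨true,0,⟨0,[(42,0)]⟩,⟨1,[(7,0),(2,0),(18,0),(4,0),(0,0)]⟩⟩
  ⟨false,0,⟨0,[(39,0)]⟩,⟨0,[(44,0)]⟩⟩ ⟨true,1,⟨0,[(0,0),(41,0)]⟩,⟨2,[(1,0),(1,1),(3,0),(1,0),(34,
  0)]⟩⟩,.o ⟨false,1,⟨1,[(36,0),(5,1),(1,0)]⟩,⟨0,[(41,0)]⟩⟩,.o ⟨false,0,⟨0,[(26,0)]⟩,⟨0,[(0,0)]⟩⟩,.e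
  ⟨false,0,⟨3,[(9,0),(1,0),(5,0),(13,0),(7,0),(0,0)]⟩,⟨1,[(32,0),(0,0),(10,1)]⟩⟩ ⟨false,2,⟨2,[(0,0),
  (10,0),(13,1),(10,0),(5,0),(1,0)]⟩,⟨2,[(1,0),(1,1),(3,0),(1,0),(34,0)]⟩⟩]⟩))))) (.Q [0,0,-1,0,1,0,
  0,0,-1,-1,0,1] (.p true [0,0,0,0,1] [1] (⟨0,[(24,0)]⟩,⟨0,[(23,0)]⟩) .k 1 (⟨0,[]⟩,⟨0,[]⟩) .k .k)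
  (.Q [0,-1,1,0,1,0,0,0,-1,-1,0,1] (.p true [0,0,0,0,1] [1] (⟨0,[(25,0)]⟩,⟨0,[(24,0)]⟩) .k 1 (⟨0,
  []⟩,⟨0,[]⟩) .k .k) (.Q [0,-1,0,1,1,0,0,0,-1,0,0,1] (.p true [0,0,0,0,1] [] (⟨0,[(26,0)]⟩,⟨0,[(25,
  0)]⟩) .k 0 (⟨0,[]⟩,⟨0,[]⟩) .k .k) (.R ⟨0,false,false,true,[0,0,0,0,1],[0,1],[1,1,1,1],(⟨0,[(27,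
  0)]⟩,⟨0,[(26,0)]⟩),(⟨0,[(37,0)]⟩,⟨0,[(36,0)]⟩),⟨0,[(3,0)]⟩,.k,.k,(.r 0 ⟨2,[(8,0),(1,0),(5,0),(13,
  0),(7,0),(2,1)]⟩ ⟨3,[(11,1),(7,1),(4,0),(0,0),(17,2)]⟩),(.r 0 ⟨2,[(8,0),(1,0),(5,0),(13,0),(7,0),
  (2,1)]⟩ ⟨3,[(11,1),(7,1),(4,0),(0,0),(17,2)]⟩),.k,.k,⟨true,0,⟨0,[]⟩,⟨1,[(31,0),(0,0)]⟩⟩,⟨false,1,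
  ⟨1,[(0,0),(1,0),(5,0),(1,0),(17,0),(1,0)]⟩,⟨1,[(25,1),(5,0),(0,0)]⟩⟩,⟨true,0,⟨2,[(8,0),(0,0),(4,
  0),(4,0)]⟩,⟨2,[(8,0),(1,0),(5,0),(13,0),(7,0),(2,1)]⟩⟩,⟨false,1,⟨0,[(0,0)]⟩,⟨0,[(25,0),(15,0)]⟩⟩,
  ⟨false,0,⟨0,[]⟩,⟨0,[]⟩⟩,⟨false,0,⟨0,[]⟩,⟨0,[]⟩⟩,[.o ⟨false,0,⟨0,[(40,0)]⟩,⟨1,[(35,0),(5,1),(1,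
  0)]⟩⟩,.a ⟨true,0,⟨0,[(0,0),(17,0)]⟩,⟨0,[(41,0)]⟩⟩ ⟨true,0,⟨2,[(8,0),(0,0),(4,0),(4,0)]⟩,⟨0,[(41,
  0)]⟩⟩ ⟨false,1,⟨5,[(0,4),(1,0),(3,0),(1,0),(1,0),(17,0),(9,1)]⟩,⟨0,[(25,0),(15,0)]⟩⟩,.o ⟨false,0,
  ⟨0,[(25,0)]⟩,⟨2,[(1,1),(0,0),(35,0)]⟩⟩,.o ⟨false,0,⟨1,[(25,1),(5,0),(0,0)]⟩,⟨0,[(2,0)]⟩⟩]⟩) (.R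
  ⟨1,false,false,true,[1,0,0,0,-1],[1,-1,-1],[0,0,0,-1],(⟨0,[(26,0)]⟩,⟨0,[(27,0)]⟩),(⟨0,[(22,0)]⟩,
  ⟨0,[(34,0),(2,0)]⟩),⟨1,[(3,0),(1,0),(16,0),(3,0)]⟩,.k,.k,(.r (-1) ⟨2,[(10,0),(13,0),(0,0),(15,0),
  (1,0)]⟩ ⟨6,[(11,2),(7,3),(9,0),(2,0),(5,0)]⟩),(.r 0 ⟨0,[(8,0),(34,0)]⟩ ⟨27,[(10,7),(10,13),(2,12),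
  (0,12),(4,27),(4,6),(2,3),(2,11)]⟩),.k,.k,⟨true,0,⟨0,[(9,0)]⟩,⟨0,[(16,0),(13,0)]⟩⟩,⟨false,0,⟨5,
  [(0,1),(5,2),(2,2),(0,1),(14,3),(6,2)]⟩,⟨2,[(2,1),(18,0),(2,0),(3,0)]⟩⟩,⟨false,0,⟨0,[(41,0)]⟩,⟨3,
  [(13,1),(10,0),(0,0),(17,0)]⟩⟩,⟨true,(-1),⟨0,[(0,0),(29,0)]⟩,⟨12,[(1,5),(0,5),(5,3),(0,7),(3,3),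
  (6,0),(3,0),(3,11)]⟩⟩,⟨true,0,⟨0,[(45,0)]⟩,⟨0,[]⟩⟩,⟨true,(-1),⟨1,[(0,1),(5,0),(23,0)]⟩,⟨2,[(2,1),
  (6,2),(11,0),(2,0),(3,0)]⟩⟩,[.a ⟨true,0,⟨0,[(30,0),(10,0)]⟩,⟨0,[(8,0),(19,0),(14,0)]⟩⟩ ⟨true,0,⟨0,
  [(41,0)]⟩,⟨2,[(8,0),(0,0),(4,0),(4,0)]⟩⟩ ⟨false,0,⟨2,[(0,0),(9,0),(14,1),(4,2)]⟩,⟨12,[(1,5),(0,5),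
  (5,3),(0,7),(3,3),(6,0),(3,0),(3,11)]⟩⟩,.o ⟨false,1,⟨1,[(30,1),(4,0),(5,1),(1,0)]⟩,⟨10,[(8,6),(0,
  1),(0,2),(2,3),(2,8),(3,1)]⟩⟩,.o ⟨false,1,⟨2,[(1,1),(0,0),(35,0)]⟩,⟨0,[(25,0)]⟩⟩,.o ⟨false,1,⟨0,
  [(1,0),(43,0)]⟩,⟨4,[(0,4),(5,0),(1,0),(1,1),(2,2),(2,0),(26,0)]⟩⟩]⟩)) (.R ⟨1,false,false,true,[1,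
  0,0,0,-1],[0,0,1],[0,0,0,-1],(⟨0,[(25,0)]⟩,⟨0,[(26,0)]⟩),(⟨0,[(33,0)]⟩,⟨0,[(32,0)]⟩),⟨1,[(2,0),(1,
  0),(16,0),(3,0)]⟩,.k,.k,(.r (-1) ⟨2,[(9,0),(13,0),(0,0),(15,0),(1,0)]⟩ ⟨6,[(10,2),(7,3),(9,0),(2,
  0),(5,0)]⟩),.k,(.x (-1) ⟨0,[(3,0)]⟩ ⟨1,[(0,1),(14,1),(10,1),(6,1),(0,0),(1,1),(5,0)]⟩),.k,⟨true,1,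
  ⟨0,[(13,0),(26,1)]⟩,⟨0,[(7,0)]⟩⟩,⟨false,0,⟨0,[(24,0),(2,0)]⟩,⟨0,[(1,0),(29,0)]⟩⟩,⟨false,0,⟨0,[(40,
  0)]⟩,⟨3,[(12,1),(10,0),(0,0),(17,0)]⟩⟩,⟨true,(-2),⟨0,[(0,0),(6,0),(7,0),(24,0)]⟩,⟨1,[(1,1),(27,1),
  (0,0),(0,0),(10,1)]⟩⟩,⟨true,0,⟨0,[(44,0)]⟩,⟨0,[]⟩⟩,⟨true,(-2),⟨0,[(0,0),(6,0),(7,0)]⟩,⟨1,[(1,1),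
  (27,1),(0,0),(0,0),(8,1),(1,1)]⟩⟩,[.a ⟨true,(-1),⟨0,[(7,0),(19,0),(12,0)]⟩,⟨0,[(29,0),(12,0)]⟩⟩
  ⟨true,0,⟨0,[(40,0)]⟩,⟨2,[(7,0),(0,0),(4,0),(4,0)]⟩⟩ ⟨false,(-1),⟨4,[(0,4),(6,0),(0,1),(0,0),(5,2),
  (3,0),(8,0)]⟩,⟨1,[(1,1),(27,1),(0,0),(0,0),(10,1)]⟩⟩,.o ⟨false,0,⟨4,[(7,0),(0,1),(0,0),(5,2),(3,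
  0),(8,0)]⟩,⟨1,[(29,1),(4,0),(7,0)]⟩⟩,.o ⟨false,1,⟨1,[(1,1),(28,0),(0,0)]⟩,⟨0,[(24,0)]⟩⟩,.o ⟨false,
  1,⟨0,[(1,0),(28,0),(0,0)]⟩,⟨1,[(0,1),(33,0),(7,0)]⟩⟩]⟩)) (.I [1,-1,-1,-1,1,0,0,-1] (.N [0,1,1,0,
  1] 1 ⟨0,[(7,0)]⟩ ⟨0,[(0,0)]⟩ (.x 0 ⟨5,[(1,3),(3,1),(1,1),(1,3),(5,7),(0,1),(9,5),(6,5),(0,2),(1,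
  5),(5,0)]⟩ ⟨0,[(3,0)]⟩)) (.Q [0,0,0,0,1,0,-1,0,-1,-1,1,1] (.p true [0,0,1] [1,0,0,0,-1] (⟨0,[(33,
  0)]⟩,⟨0,[(32,0)]⟩) .k 2 (⟨0,[(25,0)]⟩,⟨0,[(26,0)]⟩) .k (.r 0 ⟨0,[(8,0),(28,0)]⟩ ⟨0,[(13,0),(26,
  0)]⟩)) (.K ⟨0,[1,0,0,0,-1],1,1,(⟨0,[(26,0)]⟩,⟨0,[(27,0)]⟩),.k,(.r (-1) ⟨2,[(10,0),(13,0),(0,0),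
  (15,0),(1,0)]⟩ ⟨6,[(11,2),(7,3),(9,0),(2,0),(5,0)]⟩),(.r (-1) ⟨3,[(11,1),(7,1),(4,0),(0,0),(17,
  2)]⟩ ⟨2,[(8,0),(1,0),(5,0),(13,0),(7,0),(2,1)]⟩),.k,.k,[⟨0,[(0,0)]⟩,⟨0,[(2,0)]⟩,⟨0,[(18,0),(26,
  0)]⟩,⟨0,[(0,0),(15,0)]⟩]⟩) (.Q [0,0,1,0,1,0,0,0,-1,-1,0,1] (.p true [0,0,0,0,1] [1] (⟨0,[(27,0)]⟩,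
  ⟨0,[(26,0)]⟩) .k 1 (⟨0,[]⟩,⟨0,[]⟩) .k .k) (.Q [0,0,0,0,-1,0,0,0,1,1,0,-1] (.p false [0,0,0,0,1]
  [1] (⟨0,[(28,0)]⟩,⟨0,[(27,0)]⟩) .k 1 (⟨0,[]⟩,⟨0,[]⟩) .k .k) (.Q [0,0,1,0,-1,0,1,1,0,1,-1] (.p
  false [0,0,1] [1] (⟨0,[(36,0)]⟩,⟨0,[(35,0)]⟩) .k 1 (⟨0,[]⟩,⟨0,[]⟩) .k .k) (.R ⟨0,false,false,
  false,[0,0,0,0,1],[1,0,-1,0,1],[0,0,1],(⟨0,[(30,0)]⟩,⟨0,[(29,0)]⟩),(⟨0,[(30,0),(5,0)]⟩,⟨0,[(6,0),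
  (19,0)]⟩),⟨0,[(6,0)]⟩,.k,.k,(.r 0 ⟨2,[(11,0),(1,0),(5,0),(13,0),(7,0),(2,1)]⟩ ⟨3,[(14,1),(7,1),(4,
  0),(0,0),(17,2)]⟩),.k,.k,.k,⟨true,0,⟨0,[(12,0)]⟩,⟨0,[(19,0),(13,0)]⟩⟩,⟨false,1,⟨9,[(9,3),(1,1),(1,
  5),(0,1),(20,5),(2,4),(6,0)]⟩,⟨2,[(5,0),(18,0),(2,0),(3,0)]⟩⟩,⟨false,1,⟨1,[(34,0),(0,0),(10,1)]⟩,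
  ⟨3,[(11,0),(1,0),(5,0),(13,0),(7,0),(0,0)]⟩⟩,⟨true,1,⟨1,[(33,1),(4,0),(7,0)]⟩,⟨3,[(0,2),(10,1),(1,
  0),(5,0),(11,0),(1,0),(7,0)]⟩⟩,⟨false,0,⟨0,[]⟩,⟨0,[]⟩⟩,⟨false,0,⟨0,[]⟩,⟨0,[]⟩⟩,[.o ⟨false,0,⟨0,
  [(1,0),(31,0),(4,0)]⟩,⟨4,[(0,4),(1,4),(6,1),(1,1),(1,3),(2,0),(2,1),(26,1)]⟩⟩,.a ⟨true,0,⟨1,[(1,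
  1),(31,1),(4,0),(7,0)]⟩,⟨0,[(0,1),(1,0),(6,0),(3,0)]⟩⟩ ⟨false,1,⟨1,[(27,0),(0,0),(17,0)]⟩,⟨3,[(11,
  0),(1,0),(5,0),(13,0),(7,0),(0,0)]⟩⟩ ⟨true,1,⟨1,[(33,1),(4,0),(7,0)]⟩,⟨0,[(0,0)]⟩⟩,.a ⟨true,(-1),
  ⟨0,[(1,0)]⟩,⟨0,[(27,0)]⟩⟩ ⟨true,0,⟨1,[(34,0),(0,0)]⟩,⟨3,[(11,0),(1,0),(5,0),(13,0),(7,0),(0,0)]⟩⟩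
  ⟨false,1,⟨1,[(33,1),(4,0),(7,0)]⟩,⟨4,[(0,2),(12,0),(0,1),(16,1),(14,1)]⟩⟩,.a ⟨true,(-1),⟨0,[(5,
  0)]⟩,⟨0,[(0,0),(1,0),(6,0),(3,0)]⟩⟩ ⟨false,1,⟨1,[(27,0),(0,0),(17,0)]⟩,⟨0,[]⟩⟩ ⟨true,1,⟨1,[(33,1),
  (4,0),(6,0)]⟩,⟨0,[(0,0)]⟩⟩]⟩) (.Q [0,-1,0,0,1,0,1,1,-1,0,-1,1] (.p false [0,0,1] [0,0,0,0,1] (⟨0,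
  [(37,0)]⟩,⟨0,[(36,0)]⟩) .k 2 (⟨0,[(30,0)]⟩,⟨0,[(29,0)]⟩) .k (.r (-1) ⟨5,[(12,1),(0,1),(0,3),(12,
  2),(0,2),(17,0)]⟩ ⟨0,[(19,0),(13,0)]⟩)) (.R ⟨0,false,false,false,[0,0,0,0,1],[1,0,-1,0,1],[0,0,1],
  (⟨0,[(31,0)]⟩,⟨0,[(30,0)]⟩),(⟨0,[(31,0),(5,0)]⟩,⟨0,[(7,0),(19,0)]⟩),⟨0,[(7,0)]⟩,.k,.k,(.r 0 ⟨2,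
  [(12,0),(1,0),(5,0),(13,0),(7,0),(2,1)]⟩ ⟨3,[(15,1),(7,1),(4,0),(0,0),(17,2)]⟩),.k,.k,.k,⟨true,0,
  ⟨0,[(13,0)]⟩,⟨0,[(20,0),(13,0)]⟩⟩,⟨false,1,⟨17,[(1,13),(10,4),(1,6),(0,8),(20,3),(2,1),(2,0)]⟩,⟨2,
  [(6,0),(18,0),(2,0),(3,0)]⟩⟩,⟨false,1,⟨1,[(35,0),(0,0),(10,1)]⟩,⟨3,[(12,0),(1,0),(5,0),(13,0),(7,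
  0),(0,0)]⟩⟩,⟨true,1,⟨1,[(34,1),(4,0),(7,0)]⟩,⟨0,[(12,0),(19,0),(12,0)]⟩⟩,⟨false,0,⟨0,[]⟩,⟨0,[]⟩⟩,
  ⟨false,0,⟨0,[]⟩,⟨0,[]⟩⟩,[.o ⟨false,0,⟨0,[(2,0),(31,0),(4,0)]⟩,⟨0,[(0,0)]⟩⟩,.e ⟨false,1,⟨1,[(28,0),
  (0,0),(17,0)]⟩,⟨3,[(12,0),(1,0),(5,0),(13,0),(7,0),(0,0)]⟩⟩ ⟨false,1,⟨0,[(1,0)]⟩,⟨0,[(0,0),(21,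
  0)]⟩⟩,.a ⟨true,(-1),⟨0,[(2,0)]⟩,⟨0,[(28,0)]⟩⟩ ⟨true,0,⟨1,[(35,0),(0,0)]⟩,⟨3,[(12,0),(1,0),(5,0),
  (13,0),(7,0),(0,0)]⟩⟩ ⟨false,1,⟨1,[(34,1),(4,0),(7,0)]⟩,⟨0,[(0,0),(1,0)]⟩⟩,.e ⟨false,1,⟨1,[(28,0),
  (0,0),(17,0)]⟩,⟨0,[]⟩⟩ ⟨false,1,⟨0,[(1,0)]⟩,⟨0,[(0,0),(5,0)]⟩⟩]⟩) (.K ⟨0,[0,0,1,0,-1],1,1,(⟨0,[(7,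
  0),(19,0)]⟩,⟨0,[(31,0),(5,0)]⟩),.k,(.r (-1) ⟨5,[(13,2),(0,3),(0,1),(12,1),(0,1),(3,0),(2,0)]⟩ ⟨0,
  [(23,0)]⟩),(.r 0 ⟨0,[(12,0),(34,0)]⟩ ⟨13,[(3,6),(10,5),(10,6),(2,0),(0,7),(4,13),(7,2),(2,1)]⟩),
  .k,.k,[⟨0,[(28,0)]⟩,⟨0,[(0,0),(12,0)]⟩,⟨0,[(0,0),(48,0)]⟩,⟨2,[(3,0),(8,0),(0,0),(0,0),(9,0),(0,0),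
  (2,1)]⟩]⟩))) (.R ⟨0,false,false,true,[0,0,0,0,1],[1,-1],[1,1,-1,-1],(⟨0,[(29,0)]⟩,⟨0,[(28,0)]⟩),
  (⟨0,[(38,0)]⟩,⟨0,[(39,0)]⟩),⟨0,[(5,0)]⟩,.k,.k,(.r 0 ⟨2,[(10,0),(1,0),(5,0),(13,0),(7,0),(2,1)]⟩
  ⟨3,[(13,1),(7,1),(4,0),(0,0),(17,2)]⟩),(.r 0 ⟨6,[(13,2),(7,3),(9,0),(2,0),(5,0)]⟩ ⟨2,[(12,0),(13,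
  0),(0,0),(15,0),(1,0)]⟩),.k,.k,⟨true,0,⟨0,[]⟩,⟨1,[(33,0),(0,0)]⟩⟩,⟨false,1,⟨0,[(0,0)]⟩,⟨1,[(20,1),
  (23,0),(0,0)]⟩⟩,⟨false,1,⟨2,[(12,0),(13,0),(0,0),(15,0),(1,0)]⟩,⟨2,[(10,0),(0,0),(4,0),(4,0)]⟩⟩,
  ⟨true,1,⟨0,[(0,0),(42,0)]⟩,⟨0,[(19,0)]⟩⟩,⟨false,0,⟨0,[]⟩,⟨0,[]⟩⟩,⟨false,0,⟨0,[]⟩,⟨0,[]⟩⟩,[.e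
  ⟨false,0,⟨0,[(10,0),(1,0),(5,0),(13,0)]⟩,⟨3,[(13,1),(7,1),(4,0),(0,0),(17,2)]⟩⟩ ⟨false,1,⟨2,[(0,
  2),(9,0),(1,0),(5,0),(13,0),(7,0),(2,1)]⟩,⟨0,[(19,0),(25,0)]⟩⟩,.a ⟨true,0,⟨0,[(43,0)]⟩,⟨1,[(8,0),
  (2,0),(18,0),(4,0),(0,0)]⟩⟩ ⟨false,1,⟨7,[(12,3),(13,2),(0,2),(12,1),(3,0)]⟩,⟨2,[(10,0),(0,0),(4,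
  0),(4,0)]⟩⟩ ⟨true,1,⟨0,[(0,0),(42,0)]⟩,⟨2,[(2,0),(1,1),(3,0),(1,0),(34,0)]⟩⟩,.o ⟨false,0,⟨0,[(27,
  0)]⟩,⟨0,[(0,0)]⟩⟩,.e ⟨true,0,⟨0,[(10,0),(1,0),(5,0),(13,0)]⟩,⟨0,[(11,0),(9,0)]⟩⟩ ⟨true,1,⟨2,[(0,
  2),(9,0),(1,0),(5,0),(13,0),(7,0),(2,1)]⟩,⟨2,[(2,0),(1,1),(3,0),(1,0),(34,0)]⟩⟩]⟩)) (.S ⟨1,0,[0,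
  -1,0,-1],[1,0,0,0,-1],[1],(⟨0,[(27,0)]⟩,⟨0,[(28,0)]⟩),⟨4,[(0,0),(0,0),(2,0),(0,1),(0,1),(20,1),(1,
  0)]⟩,.k,(.r (-1) ⟨2,[(11,0),(13,0),(0,0),(15,0),(1,0)]⟩ ⟨6,[(12,2),(7,3),(9,0),(2,0),(5,0)]⟩),
  ⟨false,0,⟨0,[]⟩,⟨1,[(25,0),(0,0),(17,0)]⟩⟩,⟨true,0,⟨0,[(42,0)]⟩,⟨10,[(7,2),(4,0),(7,0),(0,2),(17,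
  1)]⟩⟩,⟨true,0,⟨10,[(7,2),(4,0),(7,0),(0,2),(17,1)]⟩,⟨0,[(42,0)]⟩⟩,⟨false,1,⟨1,[(25,0),(0,0),(17,
  0)]⟩,⟨0,[]⟩⟩,[.o ⟨false,2,⟨1,[(25,1),(10,0),(5,1),(1,0)]⟩,⟨3,[(0,1),(0,1),(5,0),(1,1),(21,0),(4,
  1)]⟩⟩,.a ⟨true,2,⟨0,[(25,0),(16,0),(1,0)]⟩,⟨0,[(0,0),(8,0),(7,0),(13,0)]⟩⟩ ⟨false,1,⟨1,[(43,0),(0,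
  0)]⟩,⟨0,[(46,0)]⟩⟩ ⟨true,1,⟨0,[(42,0),(1,0)]⟩,⟨0,[(9,0),(7,0),(13,0)]⟩⟩,.a ⟨true,1,⟨0,[(25,0)]⟩,
  ⟨1,[(0,0),(2,0)]⟩⟩ ⟨true,0,⟨0,[]⟩,⟨0,[(46,0)]⟩⟩ ⟨false,1,⟨0,[(42,0),(1,0)]⟩,⟨10,[(7,2),(4,0),(7,
  0),(0,2),(17,1)]⟩⟩,.a ⟨true,1,⟨1,[(25,1),(6,0),(0,0)]⟩,⟨0,[(0,0)]⟩⟩ ⟨false,1,⟨1,[(43,0),(0,0)]⟩,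
  ⟨1,[(32,0),(0,0)]⟩⟩ ⟨true,1,⟨2,[(11,0),(13,0),(0,0),(15,0),(1,0)]⟩,⟨0,[(9,0),(7,0),(13,
  0)]⟩⟩]⟩)))))) (.Q [0,0,1,0,-1,0,0,0,1,1,0,-1] (.p false [0,0,0,0,1] [1] (⟨0,[(23,0)]⟩,⟨0,[(22,
  0)]⟩) .k 1 (⟨0,[]⟩,⟨0,[]⟩) .k .k) (.Q [0,0,0,1,1,0,0,0,-1,0,0,1] (.p true [0,0,0,0,1] [] (⟨0,[(24,
  0)]⟩,⟨0,[(23,0)]⟩) .k 0 (⟨0,[]⟩,⟨0,[]⟩) .k .k) (.Q [0,0,1,0,-1,0,0,0,1,0,0,-1] (.p false [0,0,0,0,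
  1] [] (⟨0,[(25,0)]⟩,⟨0,[(24,0)]⟩) .k 0 (⟨0,[]⟩,⟨0,[]⟩) .k .k) (.Q [0,0,0,0,0,-1,0,0,0,0,0,1] (.ed
  false [1,-1,0,0,1] .k) (.Q [0,0,0,-1,-1,0,0,0,1,1,0,-1] (.p false [0,0,0,0,1] [1] (⟨0,[(27,0)]⟩,
  ⟨0,[(26,0)]⟩) .k 1 (⟨0,[]⟩,⟨0,[]⟩) .k .k) (.S ⟨1,0,[0,1,0,-1],[0,0,0,0,1],[1,2],(⟨0,[(28,0)]⟩,⟨0,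
  [(27,0)]⟩),⟨0,[(1,0)]⟩,.k,(.r 0 ⟨2,[(9,0),(1,0),(5,0),(13,0),(7,0),(2,1)]⟩ ⟨3,[(12,1),(7,1),(4,0),
  (0,0),(17,2)]⟩),⟨false,0,⟨0,[]⟩,⟨1,[(25,0),(0,0),(17,0)]⟩⟩,⟨true,0,⟨0,[(42,0)]⟩,⟨10,[(7,2),(4,0),
  (7,0),(0,2),(17,1)]⟩⟩,⟨true,0,⟨10,[(7,2),(4,0),(7,0),(0,2),(17,1)]⟩,⟨0,[(42,0)]⟩⟩,⟨false,1,⟨1,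
  [(25,0),(0,0),(17,0)]⟩,⟨0,[]⟩⟩,[.o ⟨false,(-1),⟨2,[(2,2),(6,0),(1,0),(5,0),(13,0),(7,0),(2,1)]⟩,
  ⟨1,[(3,1),(32,0),(7,0)]⟩⟩,.a ⟨true,(-1),⟨0,[(0,0)]⟩,⟨0,[(3,0)]⟩⟩ ⟨false,0,⟨3,[(9,0),(1,0),(5,0),
  (13,0),(7,0),(0,0)]⟩,⟨1,[(25,0),(0,0),(17,0)]⟩⟩ ⟨true,0,⟨0,[(42,0)]⟩,⟨2,[(9,0),(0,0),(4,0),(4,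
  0)]⟩⟩,.e ⟨false,0,⟨0,[(46,0)]⟩,⟨0,[(44,0)]⟩⟩ ⟨false,0,⟨0,[(42,0)]⟩,⟨3,[(14,1),(10,0),(0,0),(17,
  0)]⟩⟩,.o ⟨false,(-1),⟨0,[(2,0)]⟩,⟨1,[(25,1),(10,0),(6,0)]⟩⟩]⟩) (.R ⟨1,false,false,false,[0,0,0,0,
  1],[1,-1],[1,2],(⟨0,[(28,0)]⟩,⟨0,[(27,0)]⟩),(⟨0,[(37,0)]⟩,⟨0,[(38,0)]⟩),⟨0,[(1,0)]⟩,.k,.k,(.r 0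
  ⟨2,[(9,0),(1,0),(5,0),(13,0),(7,0),(2,1)]⟩ ⟨3,[(12,1),(7,1),(4,0),(0,0),(17,2)]⟩),(.r 0 ⟨6,[(12,
  2),(7,3),(9,0),(2,0),(5,0)]⟩ ⟨2,[(11,0),(13,0),(0,0),(15,0),(1,0)]⟩),.k,.k,⟨true,(-1),⟨0,[(9,0),
  (7,0),(13,0)]⟩,⟨0,[(42,0),(1,0)]⟩⟩,⟨false,1,⟨0,[(0,0),(41,0)]⟩,⟨1,[(19,1),(23,0),(0,0)]⟩⟩,⟨false,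
  0,⟨0,[]⟩,⟨1,[(25,0),(0,0),(17,0)]⟩⟩,⟨false,2,⟨0,[(0,0),(41,1),(1,0)]⟩,⟨0,[(18,0)]⟩⟩,⟨true,0,⟨10,
  [(7,2),(4,0),(7,0),(0,2),(17,1)]⟩,⟨0,[(42,0)]⟩⟩,⟨false,2,⟨0,[(0,0),(41,0),(1,0)]⟩,⟨0,[(19,0)]⟩⟩,
  [.a ⟨true,0,⟨0,[(42,0)]⟩,⟨2,[(3,0),(1,0),(1,0),(2,0),(16,0),(6,0),(2,0)]⟩⟩ ⟨false,0,⟨0,[(39,0)]⟩,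
  ⟨0,[(44,0)]⟩⟩ ⟨true,1,⟨0,[(0,0),(41,1)]⟩,⟨2,[(2,0),(1,1),(2,0),(1,0),(19,0),(14,0)]⟩⟩,.o ⟨false,1,
  ⟨1,[(36,0),(5,1),(1,0)]⟩,⟨0,[(41,0)]⟩⟩,.o ⟨false,0,⟨0,[(26,0)]⟩,⟨0,[(0,0),(41,0)]⟩⟩,.o ⟨false,
  (-1),⟨0,[(2,0)]⟩,⟨1,[(25,1),(10,0),(6,0)]⟩⟩]⟩)) (.Q [0,0,-1,0,-1,0,0,0,1,1,0,-1] (.p false [0,0,0,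
  0,1] [1] (⟨0,[(27,0)]⟩,⟨0,[(26,0)]⟩) .k 1 (⟨0,[]⟩,⟨0,[]⟩) .k .k) (.R ⟨1,false,false,false,[1,0,0,
  0,-1],[1,-1],[1,-1],(⟨0,[(27,0)]⟩,⟨0,[(28,0)]⟩),(⟨0,[(37,0)]⟩,⟨0,[(38,0)]⟩),⟨1,[(1,0),(4,0),(16,
  0),(3,0)]⟩,.k,.k,(.r (-1) ⟨2,[(11,0),(13,0),(0,0),(15,0),(1,0)]⟩ ⟨6,[(12,2),(7,3),(9,0),(2,0),(5,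
  0)]⟩),(.r (-1) ⟨3,[(12,1),(7,1),(4,0),(0,0),(17,2)]⟩ ⟨2,[(9,0),(1,0),(5,0),(13,0),(7,0),(2,1)]⟩),
  .k,.k,⟨false,1,⟨3,[(14,1),(10,0),(0,0),(17,0)]⟩,⟨2,[(9,0),(1,0),(5,0),(13,0),(7,0),(2,1)]⟩⟩,⟨true,
  (-1),⟨0,[(2,0)]⟩,⟨0,[(25,0)]⟩⟩,⟨true,0,⟨0,[]⟩,⟨0,[(46,0)]⟩⟩,⟨true,(-1),⟨2,[(2,2),(6,0),(1,0),(5,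
  0),(13,0),(7,0),(2,1)]⟩,⟨0,[(3,0)]⟩⟩,⟨false,1,⟨3,[(14,1),(10,0),(0,0),(17,0)]⟩,⟨0,[(42,0)]⟩⟩,
  ⟨true,(-1),⟨6,[(0,1),(1,4),(6,1),(1,0),(5,1),(13,1),(4,0),(2,1)]⟩,⟨0,[(25,0)]⟩⟩,[.e ⟨false,1,⟨1,
  [(43,0),(0,0)]⟩,⟨0,[(46,0)]⟩⟩ ⟨false,0,⟨4,[(2,0),(8,1),(7,1),(6,1),(9,0),(5,0)]⟩,⟨0,[(3,0)]⟩⟩,.o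
  ⟨false,1,⟨1,[(36,0),(5,1),(1,0)]⟩,⟨0,[(41,0)]⟩⟩,.e ⟨false,1,⟨0,[(44,0)]⟩,⟨0,[(46,0)]⟩⟩ ⟨false,0,
  ⟨4,[(2,2),(8,0),(14,1),(15,2),(1,1)]⟩,⟨0,[(3,0)]⟩⟩,.a ⟨true,1,⟨1,[(25,1),(6,0),(0,0)]⟩,⟨0,[(0,
  0)]⟩⟩ ⟨true,1,⟨1,[(43,0),(0,0)]⟩,⟨0,[(9,0),(7,0),(13,0),(10,0)]⟩⟩ ⟨false,0,⟨11,[(0,1),(1,7),(8,5),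
  (14,1),(9,0),(7,2)]⟩,⟨1,[(3,0),(6,0),(9,0),(4,0)]⟩⟩]⟩) (.Q [0,0,0,0,-1,0,0,0,1,1,0,-1] (.p false
  [0,0,0,0,1] [1] (⟨0,[(28,0)]⟩,⟨0,[(27,0)]⟩) .k 1 (⟨0,[]⟩,⟨0,[]⟩) .k .k) (.Q [0,1,0,-1,-2,0,1,1,1,
  1,-1,-1] (.p false [0,0,1] [1,0,0,0,-1] (⟨0,[(36,0)]⟩,⟨0,[(35,0)]⟩) .k 2 (⟨0,[(28,0)]⟩,⟨0,[(29,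
  0)]⟩) .k (.r 0 ⟨0,[(11,0),(28,0)]⟩ ⟨0,[(16,0),(26,0)]⟩)) (.R ⟨0,false,false,false,[0,0,0,0,1],[1,
  1,-1],[1,0,1,1,0,0,0,-1],(⟨0,[(30,0)]⟩,⟨0,[(29,0)]⟩),(⟨0,[(36,0),(3,0)]⟩,⟨0,[(26,0)]⟩),⟨0,[(3,
  0)]⟩,.k,.k,(.r 0 ⟨2,[(0,0),(1,0),(10,0),(19,0),(7,0)]⟩ ⟨3,[(2,1),(3,1),(9,1),(10,0),(0,0),(17,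
  0)]⟩),(.r 0 ⟨6,[(11,3),(1,3),(18,2),(2,2),(5,1),(2,2)]⟩ ⟨0,[(22,0),(23,0)]⟩),.k,.k,⟨true,0,⟨0,[]⟩,
  ⟨1,[(2,0),(3,0)]⟩⟩,⟨false,2,⟨22,[(2,4),(2,17),(3,9),(1,9),(1,23),(21,12),(2,8),(2,1)]⟩,⟨1,[(4,0),
  (1,0),(17,0)]⟩⟩,⟨true,1,⟨0,[(22,0),(23,0)]⟩,⟨1,[(0,0),(1,0),(8,2),(1,1),(5,0),(13,1)]⟩⟩,⟨false,3,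
  ⟨5,[(2,5),(6,0),(3,1),(2,3),(16,4),(12,5)]⟩,⟨0,[(0,0)]⟩⟩,⟨false,0,⟨0,[]⟩,⟨0,[]⟩⟩,⟨false,0,⟨0,[]⟩,
  ⟨0,[]⟩⟩,[.o ⟨false,1,⟨1,[(9,0),(23,0),(4,0),(7,0)]⟩,⟨2,[(0,0),(1,0),(9,0),(0,0),(18,0),(1,0)]⟩⟩,
  .e ⟨false,1,⟨0,[(17,0)]⟩,⟨6,[(11,3),(1,3),(18,2),(2,2),(5,1),(2,2)]⟩⟩ ⟨false,3,⟨0,[(2,0),(13,0),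
  (1,0),(14,0)]⟩,⟨0,[(0,0)]⟩⟩,.a ⟨true,(-1),⟨0,[(1,0)]⟩,⟨0,[(27,0)]⟩⟩ ⟨false,1,⟨0,[(22,0),(23,0)]⟩,
  ⟨5,[(11,3),(0,0),(0,3),(18,0),(2,0),(8,1)]⟩⟩ ⟨true,2,⟨5,[(2,5),(6,0),(3,1),(2,3),(16,4)]⟩,⟨0,[(0,
  0)]⟩⟩,.o ⟨false,(-1),⟨0,[(4,0)]⟩,⟨1,[(27,1),(10,0),(6,0)]⟩⟩]⟩) (.R ⟨0,false,false,false,[1,-1,-1],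
  [1,-1],[1,0,1],(⟨0,[(25,0)]⟩,⟨0,[(37,0),(2,0)]⟩),(⟨0,[(39,0)]⟩,⟨0,[(40,0)]⟩),⟨0,[(0,0),(2,0),(3,
  0),(3,0),(32,1)]⟩,.k,.k,(.r (-1) ⟨0,[(13,0),(19,0),(0,0)]⟩ ⟨3,[(11,0),(0,1),(1,2),(1,0),(5,1)]⟩),
  .k,.k,.k,⟨false,0,⟨2,[(11,0),(0,0),(4,0),(4,0)]⟩,⟨7,[(13,3),(13,2),(0,2),(12,1),(3,0)]⟩⟩,⟨true,0,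
  ⟨0,[(19,0)]⟩,⟨0,[(35,0)]⟩⟩,⟨false,0,⟨2,[(11,0),(0,3),(4,0),(4,0)]⟩,⟨0,[(13,0),(8,0)]⟩⟩,⟨true,0,⟨4,
  [(11,0),(0,1),(0,0),(5,2),(3,0),(8,0)]⟩,⟨0,[(33,0)]⟩⟩,⟨false,0,⟨0,[]⟩,⟨0,[]⟩⟩,⟨false,0,⟨0,[]⟩,⟨0,
  []⟩⟩,[.e ⟨false,0,⟨0,[]⟩,⟨1,[(27,0),(0,0),(16,0)]⟩⟩ ⟨false,1,⟨7,[(13,3),(10,3),(2,0),(0,0),(9,1),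
  (2,1),(3,0)]⟩,⟨1,[(9,0),(2,0),(22,0)]⟩⟩,.o ⟨false,1,⟨1,[(38,0),(5,1),(1,0)]⟩,⟨0,[(43,0)]⟩⟩,.a
  ⟨true,0,⟨0,[(35,0)]⟩,⟨0,[(31,0)]⟩⟩ ⟨true,0,⟨1,[(2,0),(3,0)]⟩,⟨3,[(11,0),(1,0),(5,0),(13,0),(7,0),
  (0,0)]⟩⟩ ⟨false,1,⟨11,[(2,1),(10,5),(10,3),(3,1),(5,3),(3,0),(7,2)]⟩,⟨1,[(9,0),(2,0),(22,0)]⟩⟩,.o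
  ⟨false,0,⟨0,[(0,0),(3,0),(6,0),(32,1)]⟩,⟨19,[(13,5),(2,1),(7,9),(13,4),(3,7),(2,6)]⟩⟩]⟩)) (.R ⟨1,
  false,false,true,[1,0,0,0,-1],[1,-1],[0,-1,0,-1],(⟨0,[(28,0)]⟩,⟨0,[(29,0)]⟩),(⟨0,[(38,0)]⟩,⟨0,
  [(39,0)]⟩),⟨1,[(2,0),(4,0),(16,0),(3,0)]⟩,.k,.k,(.r (-1) ⟨2,[(12,0),(13,0),(0,0),(15,0),(1,0)]⟩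
  ⟨6,[(13,2),(7,3),(9,0),(2,0),(5,0)]⟩),(.r (-1) ⟨3,[(1,1),(3,1),(9,1),(10,0),(0,0),(17,0)]⟩ ⟨2,
  [(10,0),(1,0),(5,0),(13,0),(7,0),(2,1)]⟩),.k,.k,⟨false,1,⟨0,[(45,0)]⟩,⟨0,[(40,0)]⟩⟩,⟨true,(-1),⟨0,
  [(3,0)]⟩,⟨0,[(26,0)]⟩⟩,⟨true,0,⟨0,[(43,0)]⟩,⟨10,[(8,2),(4,0),(7,0),(0,2),(17,1)]⟩⟩,⟨false,(-1),⟨2,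
  [(3,2),(6,0),(1,0),(5,0),(13,0),(7,0),(2,1)]⟩,⟨0,[(4,0),(40,0)]⟩⟩,⟨false,1,⟨1,[(26,0),(0,0),(17,
  0)]⟩,⟨0,[]⟩⟩,⟨false,(-1),⟨3,[(3,3),(6,0),(1,0),(5,0),(13,0),(7,0),(0,0)]⟩,⟨0,[(26,0),(18,0)]⟩⟩,
  [.o ⟨false,0,⟨2,[(0,0),(2,0),(6,1),(1,0),(5,1),(13,1),(4,0),(5,2)]⟩,⟨3,[(15,1),(10,0),(0,0),(17,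
  0)]⟩⟩,.a ⟨true,0,⟨0,[(43,0)]⟩,⟨2,[(4,0),(1,0),(1,0),(2,0),(16,0),(6,0),(2,0)]⟩⟩ ⟨true,1,⟨0,[(43,
  0),(1,0)]⟩,⟨0,[(10,0),(7,0),(13,0)]⟩⟩ ⟨false,0,⟨4,[(3,0),(8,1),(7,1),(6,1),(9,0),(5,0)]⟩,⟨0,[(4,
  0)]⟩⟩,.o ⟨false,1,⟨0,[(0,0)]⟩,⟨0,[(27,0)]⟩⟩,.o ⟨false,1,⟨0,[(1,0)]⟩,⟨8,[(3,3),(8,2),(2,0),(11,4),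
  (13,3)]⟩⟩]⟩)))) (.Q [0,0,0,0,-1,0,1,0,1,1,-1,-1] (.p false [0,0,1] [1,0,0,0,-1] (⟨0,[(33,0)]⟩,⟨0,
  [(32,0)]⟩) .k 2 (⟨0,[(25,0)]⟩,⟨0,[(26,0)]⟩) .k (.r 0 ⟨0,[(8,0),(28,0)]⟩ ⟨0,[(13,0),(26,0)]⟩)) (.I
  [1,-2,0,1,1] (.Q [0,0,0,0,0,-1,0,0,0,0,0,1] (.ed false [1,-1,0,0,1] .k) (.Q [0,0,0,0,-1,0,0,0,1,1,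
  0,-1] (.p false [0,0,0,0,1] [1] (⟨0,[(29,0)]⟩,⟨0,[(28,0)]⟩) .k 1 (⟨0,[]⟩,⟨0,[]⟩) .k .k) (.Q [0,1,
  0,-1,-1,0,0,0,1,0,0,-1] (.p false [0,0,0,0,1] [] (⟨0,[(30,0)]⟩,⟨0,[(29,0)]⟩) .k 0 (⟨0,[]⟩,⟨0,[]⟩)
  .k .k) (.S ⟨1,0,[0,2,0,-1],[0,0,0,0,1],[1,1],(⟨0,[(31,0)]⟩,⟨0,[(30,0)]⟩),⟨0,[(2,0)]⟩,.k,(.r 0 ⟨0,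
  [(0,0),(4,0)]⟩ ⟨3,[(15,1),(7,1),(4,0),(0,0),(17,2)]⟩),⟨true,0,⟨0,[]⟩,⟨0,[(49,0)]⟩⟩,⟨false,0,⟨0,
  [(45,0)]⟩,⟨3,[(17,1),(10,0),(0,0),(17,0)]⟩⟩,⟨false,1,⟨3,[(17,1),(10,0),(0,0),(17,0)]⟩,⟨0,[(45,
  0)]⟩⟩,⟨true,0,⟨0,[(49,0)]⟩,⟨0,[]⟩⟩,[.e ⟨false,0,⟨3,[(12,0),(1,0),(5,0),(13,0),(7,0),(0,0)]⟩,⟨1,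
  [(28,0),(0,0),(17,0)]⟩⟩ ⟨false,0,⟨0,[(42,0),(2,0)]⟩,⟨0,[(3,0)]⟩⟩,.o ⟨false,(-1),⟨0,[(0,0)]⟩,⟨1,
  [(6,1),(32,0),(7,0)]⟩⟩,.e ⟨false,0,⟨0,[]⟩,⟨1,[(28,0),(0,0),(17,0)]⟩⟩ ⟨false,0,⟨0,[(45,0),(3,0)]⟩,
  ⟨0,[(3,0)]⟩⟩,.a ⟨true,(-1),⟨0,[(7,0)]⟩,⟨0,[(5,0)]⟩⟩ ⟨true,0,⟨3,[(12,0),(1,0),(5,0),(13,0),(7,0),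
  (0,0)]⟩,⟨1,[(35,0),(0,0)]⟩⟩ ⟨false,0,⟨0,[(0,0),(4,0)]⟩,⟨1,[(3,0),(9,0),(9,0),(23,0)]⟩⟩]⟩) (.R ⟨1,
  false,false,true,[1,0,-1],[1,0,0,0,-1],[1,1,0,0,0,0,0,-1],(⟨0,[(37,0)]⟩,⟨0,[(38,0)]⟩),(⟨0,[(30,
  0)]⟩,⟨0,[(31,0)]⟩),⟨0,[(26,0)]⟩,.k,.k,.k,.k,(.r (-1) ⟨27,[(14,7),(10,13),(2,12),(0,12),(4,27),(4,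
  6),(2,3),(2,11)]⟩ ⟨1,[(3,0),(8,0),(0,0)]⟩),.k,⟨true,0,⟨0,[(20,0),(13,0)]⟩,⟨0,[(13,0)]⟩⟩,⟨false,1,
  ⟨0,[(5,0),(14,0)]⟩,⟨23,[(1,7),(1,0),(6,4),(1,4),(1,7),(14,15),(6,18),(2,3)]⟩⟩,⟨false,0,⟨0,[]⟩,⟨1,
  [(28,0),(0,0),(17,0)]⟩⟩,⟨false,1,⟨0,[(5,0),(7,0),(6,0)]⟩,⟨1,[(1,1),(32,1),(4,0),(7,0)]⟩⟩,⟨true,0,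
  ⟨10,[(10,2),(4,0),(7,0),(0,2),(17,1)]⟩,⟨0,[(45,0)]⟩⟩,⟨false,1,⟨4,[(0,4),(11,0),(0,1),(0,0),(5,2),
  (3,0),(8,0)]⟩,⟨1,[(1,1),(32,1),(4,0),(5,1),(1,0)]⟩⟩,[.a ⟨true,1,⟨0,[(28,0)]⟩,⟨0,[(1,0)]⟩⟩ ⟨true,0,
  ⟨0,[(20,0),(13,0)]⟩,⟨0,[(13,0)]⟩⟩ ⟨false,1,⟨0,[(5,0),(14,0)]⟩,⟨23,[(1,7),(1,0),(6,4),(1,4),(1,7),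
  (14,15),(6,18),(2,3)]⟩⟩,.a ⟨true,1,⟨0,[(0,0),(44,0)]⟩,⟨0,[(22,0)]⟩⟩ ⟨false,1,⟨43,[(14,11),(3,23),
  (6,9),(2,2),(0,2),(4,19),(4,4),(2,7)]⟩,⟨3,[(12,0),(0,1),(0,0),(0,0),(26,0)]⟩⟩ ⟨true,1,⟨0,[(0,0),
  (19,0),(24,0)]⟩,⟨1,[(1,1),(10,0),(21,0),(1,0),(2,0),(5,0)]⟩⟩,.o ⟨false,1,⟨1,[(36,1),(2,0),(6,0)]⟩,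
  ⟨0,[(20,0)]⟩⟩,.a ⟨true,0,⟨0,[(36,0)]⟩,⟨0,[(32,0)]⟩⟩ ⟨false,1,⟨43,[(14,11),(3,23),(6,9),(2,2),(0,
  2),(4,19),(4,4),(2,7)]⟩,⟨0,[(13,0)]⟩⟩ ⟨true,1,⟨0,[(5,0),(14,0)]⟩,⟨1,[(1,1),(10,0),(21,0),(1,0),(2,
  0),(5,0)]⟩⟩]⟩)) (.R ⟨1,false,false,false,[0,0,0,0,1],[1,-1],[0,2,0,-1],(⟨0,[(30,0)]⟩,⟨0,[(29,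
  0)]⟩),(⟨0,[(39,0)]⟩,⟨0,[(40,0)]⟩),⟨0,[(1,0)]⟩,.k,.k,(.r 0 ⟨2,[(11,0),(1,0),(5,0),(13,0),(7,0),(2,
  1)]⟩ ⟨3,[(14,1),(7,1),(4,0),(0,0),(17,2)]⟩),(.r 0 ⟨6,[(14,2),(7,3),(9,0),(2,0),(5,0)]⟩ ⟨2,[(13,0),
  (13,0),(0,0),(15,0),(1,0)]⟩),.k,.k,⟨true,(-1),⟨0,[(11,0),(7,0),(13,0),(10,0)]⟩,⟨0,[(46,0)]⟩⟩,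
  ⟨false,1,⟨0,[(0,0)]⟩,⟨1,[(21,1),(23,0),(0,0)]⟩⟩,⟨false,0,⟨0,[(44,0)]⟩,⟨3,[(16,1),(10,0),(0,0),(17,
  0)]⟩⟩,⟨false,2,⟨0,[(0,0),(43,0),(1,0)]⟩,⟨0,[(20,0)]⟩⟩,⟨true,0,⟨0,[(48,0)]⟩,⟨0,[]⟩⟩,⟨false,2,⟨0,
  [(0,0),(45,0)]⟩,⟨0,[(21,0)]⟩⟩,[.a ⟨true,0,⟨0,[(44,0)]⟩,⟨5,[(2,0),(2,1),(1,1),(1,0),(1,0),(17,1),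
  (5,0),(0,1),(2,1)]⟩⟩ ⟨false,0,⟨0,[(41,0),(2,0)]⟩,⟨0,[(2,0)]⟩⟩ ⟨true,1,⟨0,[(0,0),(43,0)]⟩,⟨3,[(2,
  0),(0,0),(2,2),(2,0),(1,0)]⟩⟩,.o ⟨false,1,⟨1,[(38,0),(5,1),(1,0)]⟩,⟨0,[(43,0)]⟩⟩,.o ⟨false,0,⟨0,
  [(28,0)]⟩,⟨0,[(0,0)]⟩⟩,.e ⟨false,0,⟨2,[(11,0),(1,0),(5,0),(13,0),(7,0),(2,1)]⟩,⟨1,[(2,0),(9,0),(9,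
  0),(23,0)]⟩⟩ ⟨false,2,⟨2,[(0,0),(12,0),(13,1),(10,0),(5,0),(1,0)]⟩,⟨3,[(2,0),(0,0),(2,2),(2,0),(1,
  0)]⟩⟩]⟩)) (.Q [0,1,0,0,-1,0,0,0,1,0,0,-1] (.p false [0,0,0,0,1] [] (⟨0,[(29,0)]⟩,⟨0,[(28,0)]⟩) .k
  0 (⟨0,[]⟩,⟨0,[]⟩) .k .k) (.R ⟨0,false,false,false,[0,1,0,0,-1],[0,1],[1,0,1,1],(⟨0,[(1,0)]⟩,⟨0,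
  [(30,0),(8,0)]⟩),(⟨0,[(40,0)]⟩,⟨0,[(39,0)]⟩),⟨0,[(30,0)]⟩,(.r (-1) ⟨3,[(14,1),(7,1),(4,0),(0,0),
  (17,2)]⟩ ⟨2,[(11,0),(1,0),(5,0),(13,0),(7,0),(2,1)]⟩),.k,.k,.k,.k,.k,⟨true,0,⟨0,[]⟩,⟨1,[(34,0),(0,
  0)]⟩⟩,⟨false,0,⟨2,[(0,1),(12,0),(2,0),(11,0)]⟩,⟨0,[(27,0)]⟩⟩,⟨false,0,⟨0,[]⟩,⟨1,[(27,0),(0,0),(17,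
  0)]⟩⟩,⟨true,(-1),⟨0,[(0,0)]⟩,⟨0,[(27,0)]⟩⟩,⟨false,0,⟨0,[]⟩,⟨0,[]⟩⟩,⟨false,0,⟨0,[]⟩,⟨0,[]⟩⟩,[.a
  ⟨true,0,⟨5,[(2,0),(2,1),(1,1),(1,0),(1,0),(17,1),(5,0),(0,1),(2,1)]⟩,⟨0,[(44,0)]⟩⟩ ⟨true,0,⟨3,[(2,
  0),(8,0),(0,0),(9,1)]⟩,⟨0,[(44,0)]⟩⟩ ⟨false,0,⟨1,[(0,0),(15,0),(11,0)]⟩,⟨0,[(4,0),(39,0)]⟩⟩,.e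
  ⟨false,1,⟨3,[(16,1),(10,0),(0,0),(17,0)]⟩,⟨2,[(11,0),(1,0),(5,0),(13,0),(7,0),(2,1)]⟩⟩ ⟨false,0,
  ⟨0,[(0,0),(1,0)]⟩,⟨1,[(4,0),(22,0),(13,0),(2,1)]⟩⟩,.o ⟨false,1,⟨0,[(4,0)]⟩,⟨0,[(6,0),(31,0)]⟩⟩,.o
  ⟨false,1,⟨0,[(27,0)]⟩,⟨1,[(0,1),(37,0),(7,0)]⟩⟩]⟩) (.Q [0,0,1,0,1,0,-2,0,-1,-1,2,1] (.p true [0,0,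
  1] [1,0,-1,0,-1] (⟨0,[(37,0)]⟩,⟨0,[(36,0)]⟩) .k 2 (⟨0,[(1,0),(23,0)]⟩,⟨0,[(30,0),(6,0)]⟩) .k (.r
  1 ⟨5,[(11,9),(0,0),(0,3),(18,0),(2,0),(8,1)]⟩ ⟨9,[(13,3),(3,7),(9,2),(0,2),(4,11),(0,11),(11,
  4)]⟩)) (.R ⟨0,false,false,false,[1,-1,-1],[0,0,1,0,1],[1],(⟨0,[(26,0)]⟩,⟨0,[(38,0),(2,0)]⟩),(⟨0,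
  [(31,0),(6,0)]⟩,⟨0,[(2,0),(23,0)]⟩),⟨0,[(0,0),(1,0),(5,0),(11,0)]⟩,.k,.k,(.r (-1) ⟨0,[(14,0),(19,
  0),(0,0)]⟩ ⟨3,[(12,0),(0,1),(1,2),(1,0),(5,1)]⟩),(.r (-2) ⟨9,[(14,7),(3,5),(9,0),(0,0),(4,13),(0,
  13),(11,4)]⟩ ⟨12,[(0,0),(11,16),(0,2),(0,3),(0,3),(6,0),(10,1)]⟩),.k,.k,⟨true,1,⟨0,[(18,0),(26,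
  0)]⟩,⟨0,[(12,0),(32,0)]⟩⟩,⟨false,0,⟨19,[(4,19),(9,5),(2,1),(7,9),(13,4),(3,7),(2,6)]⟩,⟨0,[(0,
  0)]⟩⟩,⟨false,0,⟨1,[(3,0),(8,0),(0,0)]⟩,⟨4,[(14,2),(3,0),(9,0),(0,0),(4,3),(0,3)]⟩⟩,⟨true,(-2),⟨4,
  [(3,0),(0,4),(7,8),(1,2),(5,3),(3,0)]⟩,⟨1,[(1,1),(32,3),(4,0),(5,1),(1,0)]⟩⟩,⟨false,0,⟨0,[]⟩,⟨0,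
  []⟩⟩,⟨false,0,⟨0,[]⟩,⟨0,[]⟩⟩,[.o ⟨false,(-1),⟨3,[(4,2),(7,2),(1,0),(7,0),(10,0),(5,1),(5,0)]⟩,⟨1,
  [(1,1),(32,1),(4,0),(7,0)]⟩⟩,.e ⟨false,1,⟨1,[(46,0),(0,0)]⟩,⟨0,[(49,0)]⟩⟩ ⟨false,(-1),⟨1,[(1,0),
  (0,2),(5,2),(0,0),(2,1),(1,0),(5,0),(5,3),(12,0)]⟩,⟨5,[(0,3),(27,3),(0,1),(4,5),(0,1),(3,0),(7,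
  2)]⟩⟩,.a ⟨true,0,⟨0,[(36,0)]⟩,⟨0,[(32,0)]⟩⟩ ⟨true,0,⟨0,[]⟩,⟨0,[(49,0)]⟩⟩ ⟨false,(-1),⟨4,[(3,0),(0,
  4),(7,3),(1,2),(5,3),(3,0)]⟩,⟨0,[(0,0),(17,0),(26,0)]⟩⟩,.e ⟨false,1,⟨1,[(46,0),(0,0)]⟩,⟨3,[(0,0),
  (6,0),(27,1)]⟩⟩ ⟨false,(-1),⟨1,[(1,0),(0,2),(5,2),(0,0),(2,1),(1,0),(5,0),(5,3),(12,0)]⟩,⟨0,[(0,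
  0),(33,0),(0,0),(11,0)]⟩⟩]⟩) (.R ⟨0,false,false,false,[1,-1,-1],[0,0,1,0,1],[0,0,1],(⟨0,[(26,0)]⟩,
  ⟨0,[(38,0),(2,0)]⟩),(⟨0,[(31,0),(6,0)]⟩,⟨0,[(2,0),(23,0)]⟩),⟨1,[(1,1),(0,1),(5,1),(3,0),(21,0),(1,
  0),(2,0),(5,0)]⟩,.k,.k,(.r (-1) ⟨0,[(14,0),(19,0),(0,0)]⟩ ⟨3,[(12,0),(0,1),(1,2),(1,0),(5,1)]⟩),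
  (.r (-2) ⟨9,[(14,7),(3,5),(9,0),(0,0),(4,13),(0,13),(11,4)]⟩ ⟨3,[(12,4),(0,1),(0,0),(0,0),(26,
  0)]⟩),.k,.k,⟨false,1,⟨0,[(18,0),(26,0)]⟩,⟨1,[(12,0),(1,0),(0,0),(26,0)]⟩⟩,⟨true,(-1),⟨0,[(0,0)]⟩,
  ⟨1,[(1,1),(10,0),(21,0),(1,2),(2,0),(5,0)]⟩⟩,⟨false,0,⟨3,[(3,0),(8,0),(0,4),(9,1)]⟩,⟨0,[(14,0),(8,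
  0)]⟩⟩,⟨true,(-2),⟨6,[(0,5),(11,8),(0,2),(0,1),(7,0),(1,1)]⟩,⟨1,[(1,1),(32,3),(4,0),(5,1),(1,0)]⟩⟩,
  ⟨false,0,⟨0,[]⟩,⟨0,[]⟩⟩,⟨false,0,⟨0,[]⟩,⟨0,[]⟩⟩,[.o ⟨false,(-1),⟨3,[(4,2),(7,2),(1,0),(7,0),(10,
  0),(5,1),(5,0)]⟩,⟨1,[(1,1),(32,1),(4,0),(7,0)]⟩⟩,.e ⟨false,1,⟨1,[(28,0),(0,0),(17,0)]⟩,⟨14,[(0,1),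
  (4,1),(6,3),(1,2),(19,3),(4,0),(2,3),(0,1)]⟩⟩ ⟨false,(-1),⟨5,[(0,5),(11,4),(1,3),(0,0),(1,0)]⟩,⟨1,
  [(28,1),(5,1),(1,1),(2,0),(7,0)]⟩⟩,.a ⟨true,0,⟨0,[(36,0)]⟩,⟨0,[(32,0)]⟩⟩ ⟨true,0,⟨1,[(35,0),(0,
  0)]⟩,⟨14,[(0,1),(4,1),(6,3),(1,2),(19,3),(4,0),(2,3),(0,1)]⟩⟩ ⟨false,(-1),⟨6,[(0,5),(11,1),(0,2),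
  (0,1),(7,0),(1,1)]⟩,⟨1,[(1,1),(32,1),(1,1),(2,0),(7,0)]⟩⟩,.e ⟨false,1,⟨1,[(28,0),(0,0),(17,0)]⟩,
  ⟨0,[]⟩⟩ ⟨false,(-1),⟨5,[(0,5),(11,4),(1,3),(0,0),(1,0)]⟩,⟨1,[(1,1),(32,1),(0,0),(0,2),(2,0),(7,
  0)]⟩⟩]⟩)))) (.Q [0,0,0,0,-1,0,0,0,1,1,0,-1] (.p false [0,0,0,0,1] [1] (⟨0,[(28,0)]⟩,⟨0,[(27,0)]⟩)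
  .k 1 (⟨0,[]⟩,⟨0,[]⟩) .k .k) (.Q [0,0,0,0,0,-1,0,0,0,0,0,1] (.ed false [1,-1,0,0,1] .k) (.S ⟨1,0,
  [0,1,0,-1],[0,0,0,0,1],[0,2,0,-1],(⟨0,[(30,0)]⟩,⟨0,[(29,0)]⟩),⟨0,[(0,0)]⟩,.k,(.r 0 ⟨4,[(2,0),(10,
  0),(27,1),(2,1)]⟩ ⟨3,[(14,1),(7,1),(4,0),(0,0),(17,2)]⟩),⟨false,0,⟨0,[(44,0)]⟩,⟨3,[(16,1),(10,0),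
  (0,0),(17,0)]⟩⟩,⟨true,0,⟨0,[(44,0)]⟩,⟨10,[(9,2),(4,0),(7,0),(0,2),(17,1)]⟩⟩,⟨true,0,⟨0,[(48,0)]⟩,
  ⟨0,[]⟩⟩,⟨false,1,⟨1,[(27,0),(0,0),(17,0)]⟩,⟨0,[]⟩⟩,[.o ⟨false,(-1),⟨1,[(1,1),(0,0),(35,0),(5,0)]⟩,
  ⟨1,[(5,1),(32,0),(7,0)]⟩⟩,.a ⟨true,(-1),⟨0,[(1,0),(42,0)]⟩,⟨0,[(5,0)]⟩⟩ ⟨false,0,⟨4,[(2,0),(10,0),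
  (27,1),(2,1)]⟩,⟨3,[(16,1),(10,0),(0,0),(17,0)]⟩⟩ ⟨true,0,⟨0,[(44,0)]⟩,⟨2,[(11,0),(0,0),(4,0),(4,
  0)]⟩⟩,.a ⟨true,(-1),⟨0,[(1,0)]⟩,⟨0,[(27,0)]⟩⟩ ⟨true,(-1),⟨0,[(2,0)]⟩,⟨3,[(16,1),(10,0),(0,0),(17,
  0)]⟩⟩ ⟨false,0,⟨0,[(44,0)]⟩,⟨3,[(16,1),(10,0),(0,0),(17,0)]⟩⟩,.a ⟨true,(-1),⟨0,[(6,0)]⟩,⟨0,[(4,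
  0)]⟩⟩ ⟨false,0,⟨4,[(2,0),(10,0),(27,1),(2,1)]⟩,⟨0,[(12,0),(4,0)]⟩⟩ ⟨true,0,⟨4,[(2,0),(10,0),(27,
  1),(2,1)]⟩,⟨2,[(11,0),(0,0),(4,0),(4,0)]⟩⟩]⟩) (.Q [0,1,0,0,-1,0,0,0,1,0,0,-1] (.p false [0,0,0,0,
  1] [] (⟨0,[(30,0)]⟩,⟨0,[(29,0)]⟩) .k 0 (⟨0,[]⟩,⟨0,[]⟩) .k .k) (.R ⟨0,false,false,false,[0,1,0,0,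
  -1],[0,1],[0,0,1],(⟨0,[(1,0)]⟩,⟨0,[(31,0),(8,0)]⟩),(⟨0,[(41,0)]⟩,⟨0,[(40,0)]⟩),⟨0,[(31,0)]⟩,(.r
  (-1) ⟨3,[(15,1),(7,1),(4,0),(0,0),(17,2)]⟩ ⟨4,[(3,0),(10,0),(27,1),(2,1)]⟩),.k,.k,.k,.k,.k,⟨true,
  0,⟨0,[(45,0)]⟩,⟨2,[(12,0),(0,0),(4,0),(4,0)]⟩⟩,⟨false,0,⟨2,[(0,1),(13,0),(2,0),(11,0)]⟩,⟨0,[(28,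
  0)]⟩⟩,⟨false,0,⟨0,[(45,0)]⟩,⟨3,[(17,1),(10,0),(0,0),(17,0)]⟩⟩,⟨true,(-1),⟨0,[(0,0)]⟩,⟨0,[(28,
  0)]⟩⟩,⟨false,0,⟨0,[]⟩,⟨0,[]⟩⟩,⟨false,0,⟨0,[]⟩,⟨0,[]⟩⟩,[.a ⟨true,0,⟨0,[(2,0),(3,0)]⟩,⟨0,[(45,0)]⟩⟩
  ⟨true,0,⟨1,[(35,0),(0,0)]⟩,⟨0,[]⟩⟩ ⟨false,0,⟨1,[(0,0),(16,0),(11,0)]⟩,⟨0,[(5,0),(39,0)]⟩⟩,.o
  ⟨false,1,⟨3,[(17,1),(10,0),(0,0),(17,0)]⟩,⟨1,[(3,0),(35,0),(5,0)]⟩⟩,.o ⟨false,1,⟨0,[(5,0)]⟩,⟨0,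
  [(7,0),(31,0)]⟩⟩,.o ⟨false,1,⟨0,[(28,0)]⟩,⟨0,[(2,0),(36,0)]⟩⟩]⟩) (.R ⟨2,true,false,false,[0,1],[0,
  0,0,0,1],[1,1,1,1],(⟨0,[]⟩,⟨0,[]⟩),(⟨0,[(31,0)]⟩,⟨0,[(30,0)]⟩),⟨0,[]⟩,.k,.k,.k,(.r (-1) ⟨3,[(15,
  1),(7,1),(4,0),(0,0),(17,2)]⟩ ⟨4,[(3,0),(10,0),(27,1),(2,1)]⟩),.k,.k,⟨true,0,⟨2,[(12,0),(0,0),(4,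
  0),(4,0)]⟩,⟨0,[(45,0)]⟩⟩,⟨false,0,⟨0,[(29,0)]⟩,⟨0,[(5,0)]⟩⟩,⟨false,0,⟨0,[]⟩,⟨1,[(28,0),(0,0),(17,
  0)]⟩⟩,⟨true,(-1),⟨1,[(2,1),(0,0),(35,0),(5,0)]⟩,⟨0,[(6,0)]⟩⟩,⟨true,0,⟨10,[(10,2),(4,0),(7,0),(0,
  2),(17,1)]⟩,⟨0,[(45,0)]⟩⟩,⟨false,0,⟨0,[(29,0)]⟩,⟨0,[(0,0)]⟩⟩,[]⟩))) (.Q [0,0,0,0,0,-1,0,0,0,0,0,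
  1] (.ed false [1,-1,0,0,1] .k) (.R ⟨1,false,false,false,[0,0,0,0,1],[1,-1],[1,2],(⟨0,[(30,0)]⟩,⟨0,
  [(29,0)]⟩),(⟨0,[(39,0)]⟩,⟨0,[(40,0)]⟩),⟨0,[(0,0)]⟩,.k,.k,(.r 0 ⟨4,[(2,0),(10,0),(27,1),(2,1)]⟩ ⟨3,
  [(14,1),(7,1),(4,0),(0,0),(17,2)]⟩),(.r 0 ⟨6,[(14,2),(7,3),(9,0),(2,0),(5,0)]⟩ ⟨2,[(13,0),(13,0),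
  (0,0),(15,0),(1,0)]⟩),.k,.k,⟨true,(-1),⟨4,[(2,1),(6,0),(1,2),(7,0),(2,1)]⟩,⟨0,[(44,0),(1,0)]⟩⟩,
  ⟨false,1,⟨0,[(1,0)]⟩,⟨1,[(21,1),(23,0),(0,0)]⟩⟩,⟨false,0,⟨0,[]⟩,⟨1,[(27,0),(0,0),(17,0)]⟩⟩,⟨false,
  2,⟨0,[(1,0),(42,0),(1,0)]⟩,⟨0,[(20,0)]⟩⟩,⟨true,0,⟨10,[(9,2),(4,0),(7,0),(0,2),(17,1)]⟩,⟨0,[(44,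
  0)]⟩⟩,⟨false,2,⟨0,[(1,0),(44,0)]⟩,⟨0,[(21,0)]⟩⟩,[.a ⟨true,0,⟨0,[(44,0)]⟩,⟨2,[(5,0),(1,0),(1,0),(2,
  0),(16,0),(6,0),(2,0)]⟩⟩ ⟨false,0,⟨0,[(41,0)]⟩,⟨0,[(46,0)]⟩⟩ ⟨true,1,⟨0,[(1,0),(42,0)]⟩,⟨2,[(3,0),
  (2,1),(2,0),(1,0),(34,0)]⟩⟩,.o ⟨false,1,⟨1,[(38,0),(5,1),(1,0)]⟩,⟨0,[(43,0)]⟩⟩,.o ⟨false,0,⟨0,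
  [(28,0)]⟩,⟨0,[(1,0)]⟩⟩,.e ⟨false,0,⟨7,[(2,0),(10,0),(27,1),(0,2)]⟩,⟨1,[(34,0),(0,0),(10,1)]⟩⟩
  ⟨false,2,⟨2,[(1,0),(11,0),(13,1),(10,0),(5,0),(1,0)]⟩,⟨2,[(3,0),(2,1),(2,0),(1,0),(34,0)]⟩⟩]⟩)
  (.R ⟨0,false,false,false,[0,0,0,0,1],[1,-1],[1,0,-1,-1],(⟨0,[(30,0)]⟩,⟨0,[(29,0)]⟩),(⟨0,[(39,0)]⟩,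
  ⟨0,[(40,0)]⟩),⟨0,[(0,0)]⟩,.k,.k,(.r 0 ⟨4,[(2,0),(10,0),(27,1),(2,1)]⟩ ⟨3,[(14,1),(7,1),(4,0),(0,
  0),(17,2)]⟩),(.r 0 ⟨6,[(14,2),(7,3),(9,0),(2,0),(5,0)]⟩ ⟨2,[(13,0),(13,0),(0,0),(15,0),(1,0)]⟩),
  .k,.k,⟨true,0,⟨0,[]⟩,⟨1,[(34,0),(0,0)]⟩⟩,⟨false,1,⟨0,[(1,0)]⟩,⟨1,[(21,1),(23,0),(0,0)]⟩⟩,⟨true,1,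
  ⟨2,[(13,0),(13,0),(0,0),(15,0),(1,0)]⟩,⟨4,[(2,1),(6,0),(1,2),(7,0),(2,1)]⟩⟩,⟨false,2,⟨0,[(1,0),
  (42,0),(1,0)]⟩,⟨0,[(20,0)]⟩⟩,⟨false,0,⟨0,[]⟩,⟨0,[]⟩⟩,⟨false,0,⟨0,[]⟩,⟨0,[]⟩⟩,[.a ⟨true,0,⟨0,[(44,
  0)]⟩,⟨2,[(5,0),(1,0),(1,0),(2,0),(16,0),(6,0),(2,0)]⟩⟩ ⟨false,1,⟨7,[(13,3),(13,2),(0,2),(12,1),(3,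
  0)]⟩,⟨2,[(11,0),(0,0),(4,0),(4,0)]⟩⟩ ⟨true,1,⟨0,[(1,0),(42,0)]⟩,⟨2,[(3,0),(2,1),(2,0),(1,0),(34,
  0)]⟩⟩,.o ⟨false,1,⟨1,[(38,0),(5,1),(1,0)]⟩,⟨0,[(43,0)]⟩⟩,.o ⟨false,0,⟨0,[(28,0)]⟩,⟨0,[(1,0)]⟩⟩,.e
  ⟨false,1,⟨0,[(18,0)]⟩,⟨0,[(12,0),(9,0)]⟩⟩ ⟨false,2,⟨2,[(1,0),(11,0),(13,1),(10,0),(5,0),(1,0)]⟩,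
  ⟨2,[(3,0),(2,1),(2,0),(1,0),(34,0)]⟩⟩]⟩)))) (.K ⟨0,[1,0,0,0,-1],1,1,(⟨0,[(26,0)]⟩,⟨0,[(27,0)]⟩),
  .k,(.r (-1) ⟨2,[(10,0),(13,0),(0,0),(15,0),(1,0)]⟩ ⟨6,[(11,2),(7,3),(9,0),(2,0),(5,0)]⟩),(.r (-1)
  ⟨3,[(11,1),(7,1),(4,0),(0,0),(17,2)]⟩ ⟨2,[(8,0),(1,0),(5,0),(13,0),(7,0),(2,1)]⟩),.k,.k,[⟨0,[(0,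
  0)]⟩,⟨0,[(3,0)]⟩,⟨0,[(18,0),(26,0)]⟩,⟨0,[(0,0),(15,0)]⟩]⟩))) (.R ⟨2,true,false,false,[0,1],[0,0,0,
  0,1],[1,0,1,1],(⟨0,[]⟩,⟨0,[]⟩),(⟨0,[(25,0)]⟩,⟨0,[(24,0)]⟩),⟨0,[]⟩,.k,.k,.k,(.r (-1) ⟨3,[(9,1),(7,
  1),(4,0),(0,0),(17,2)]⟩ ⟨2,[(6,0),(1,0),(5,0),(13,0),(7,0),(2,1)]⟩),.k,.k,⟨false,1,⟨3,[(11,1),(10,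
  0),(0,0),(17,0)]⟩,⟨2,[(6,0),(1,0),(5,0),(13,0),(7,0),(2,1)]⟩⟩,⟨true,(-1),⟨2,[(0,2),(5,0),(0,0),(4,
  0),(4,0)]⟩,⟨0,[(22,0)]⟩⟩,⟨true,0,⟨0,[]⟩,⟨0,[(43,0)]⟩⟩,⟨false,(-1),⟨0,[(0,0)]⟩,⟨3,[(11,1),(10,4),
  (0,0),(17,0)]⟩⟩,⟨false,1,⟨3,[(11,1),(10,0),(0,0),(17,0)]⟩,⟨0,[(39,0)]⟩⟩,⟨true,(-1),⟨6,[(0,4),(5,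
  0),(8,1),(1,0),(15,0),(2,0),(0,0)]⟩,⟨0,[(22,0)]⟩⟩,[]⟩)) (.Q [0,0,0,0,0,-1,0,0,0,0,0,1] (.ed false
  [1,-1,0,0,1] .k) (.R ⟨1,false,false,true,[0,0,0,0,1],[1,-1],[0,1,0,-1],(⟨0,[(25,0)]⟩,⟨0,[(24,
  0)]⟩),(⟨0,[(34,0)]⟩,⟨0,[(35,0)]⟩),⟨0,[(0,0)]⟩,.k,.k,(.r 0 ⟨2,[(6,0),(1,0),(5,0),(13,0),(7,0),(2,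
  1)]⟩ ⟨3,[(9,1),(7,1),(4,0),(0,0),(17,2)]⟩),(.r 0 ⟨6,[(9,2),(7,3),(9,0),(2,0),(5,0)]⟩ ⟨2,[(8,0),
  (13,0),(0,0),(15,0),(1,0)]⟩),.k,.k,⟨true,0,⟨1,[(29,0),(0,0)]⟩,⟨0,[]⟩⟩,⟨false,1,⟨1,[(1,1),(27,0),
  (0,0)]⟩,⟨1,[(16,1),(23,0),(0,0)]⟩⟩,⟨true,0,⟨0,[(39,0)]⟩,⟨10,[(4,2),(4,0),(7,0),(0,2),(17,1)]⟩⟩,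
  ⟨true,1,⟨1,[(1,1),(27,0),(0,0),(8,1)]⟩,⟨0,[(15,0)]⟩⟩,⟨false,1,⟨1,[(22,0),(0,0),(17,0)]⟩,⟨0,[]⟩⟩,
  ⟨true,1,⟨1,[(1,1),(27,0),(0,0)]⟩,⟨0,[(16,0)]⟩⟩,[.e ⟨false,0,⟨2,[(6,0),(1,0),(5,0),(13,0),(7,0),(2,
  1)]⟩,⟨3,[(11,1),(10,0),(0,0),(17,0)]⟩⟩ ⟨false,1,⟨9,[(1,7),(4,0),(15,1),(5,0),(0,0),(3,0),(2,3),(2,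
  10)]⟩,⟨0,[(15,0),(25,0)]⟩⟩,.a ⟨true,0,⟨0,[(39,0)]⟩,⟨1,[(4,0),(2,0),(18,0),(4,0),(0,0)]⟩⟩ ⟨true,0,
  ⟨0,[(39,0)]⟩,⟨2,[(6,0),(0,0),(4,0),(4,0)]⟩⟩ ⟨false,1,⟨0,[(1,0),(37,0)]⟩,⟨3,[(11,1),(4,3),(5,0),(0,
  0),(17,0)]⟩⟩,.o ⟨false,0,⟨0,[(23,0)]⟩,⟨1,[(1,1),(27,0),(0,0)]⟩⟩,.o ⟨false,0,⟨1,[(23,1),(5,0),(0,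
  0)]⟩,⟨0,[(1,0)]⟩⟩]⟩) (.Q [0,-2,0,1,1,0,1,1,-1,0,-1,1] (.p false [0,0,1] [0,0,0,0,1] (⟨0,[(32,0)]⟩,
  ⟨0,[(31,0)]⟩) .k 2 (⟨0,[(25,0)]⟩,⟨0,[(24,0)]⟩) .k (.r (-1) ⟨5,[(7,1),(0,1),(0,3),(12,2),(0,2),(17,
  0)]⟩ ⟨0,[(14,0),(13,0)]⟩)) (.R ⟨0,false,false,true,[0,0,0,0,1],[0,1],[1,1,1,1],(⟨0,[(26,0)]⟩,⟨0,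
  [(25,0)]⟩),(⟨0,[(36,0)]⟩,⟨0,[(35,0)]⟩),⟨0,[(1,0)]⟩,.k,.k,(.r 0 ⟨2,[(7,0),(1,0),(5,0),(13,0),(7,0),
  (2,1)]⟩ ⟨3,[(10,1),(7,1),(4,0),(0,0),(17,2)]⟩),(.r 0 ⟨2,[(7,0),(1,0),(5,0),(13,0),(7,0),(2,1)]⟩
  ⟨3,[(10,1),(7,1),(4,0),(0,0),(17,2)]⟩),.k,.k,⟨true,0,⟨0,[]⟩,⟨1,[(30,0),(0,0)]⟩⟩,⟨false,1,⟨1,[(0,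
  0),(1,0),(4,0),(1,0),(17,0),(1,1)]⟩,⟨1,[(24,1),(5,0),(0,0)]⟩⟩,⟨true,0,⟨2,[(7,0),(0,0),(4,0),(4,
  0)]⟩,⟨2,[(7,0),(1,0),(5,0),(13,0),(7,0),(2,1)]⟩⟩,⟨false,1,⟨0,[(0,0),(28,0)]⟩,⟨0,[(24,0),(15,0)]⟩⟩,
  ⟨false,0,⟨0,[]⟩,⟨0,[]⟩⟩,⟨false,0,⟨0,[]⟩,⟨0,[]⟩⟩,[.o ⟨false,0,⟨0,[(39,0)]⟩,⟨1,[(34,0),(5,1),(1,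
  0)]⟩⟩,.a ⟨true,0,⟨3,[(0,0),(4,0),(10,0),(15,2),(0,2)]⟩,⟨0,[(40,0)]⟩⟩ ⟨true,0,⟨2,[(7,0),(0,0),(4,
  0),(4,0)]⟩,⟨0,[(40,0)]⟩⟩ ⟨false,1,⟨3,[(0,0),(1,0),(2,1),(1,0),(1,0),(13,1),(3,0)]⟩,⟨0,[(24,0),(15,
  0)]⟩⟩,.o ⟨false,0,⟨0,[(24,0)]⟩,⟨1,[(2,1),(27,0),(0,0)]⟩⟩,.o ⟨false,0,⟨1,[(24,1),(5,0),(0,0)]⟩,⟨0,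
  [(2,0)]⟩⟩]⟩) (.Q [0,-2,0,0,1,0,1,1,-1,0,-1,1] (.p false [0,0,1] [0,0,0,0,1] (⟨0,[(33,0)]⟩,⟨0,[(32,
  0)]⟩) .k 2 (⟨0,[(26,0)]⟩,⟨0,[(25,0)]⟩) .k (.r (-1) ⟨5,[(8,1),(0,1),(0,3),(12,2),(0,2),(17,0)]⟩ ⟨0,
  [(15,0),(13,0)]⟩)) (.R ⟨0,false,false,true,[0,0,0,0,1],[0,1],[1,1,1,1],(⟨0,[(27,0)]⟩,⟨0,[(26,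
  0)]⟩),(⟨0,[(37,0)]⟩,⟨0,[(36,0)]⟩),⟨0,[(2,0)]⟩,.k,.k,(.r 0 ⟨5,[(1,0),(1,0),(4,0),(1,0),(17,0),(9,
  1),(2,3)]⟩ ⟨3,[(11,1),(7,1),(4,0),(0,0),(17,2)]⟩),(.r 0 ⟨5,[(1,0),(1,0),(4,0),(1,0),(17,0),(9,1),
  (2,3)]⟩ ⟨3,[(11,1),(7,1),(4,0),(0,0),(17,2)]⟩),.k,.k,⟨true,0,⟨0,[]⟩,⟨1,[(31,0),(0,0)]⟩⟩,⟨false,1,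
  ⟨3,[(0,1),(2,1),(2,0),(1,1),(1,1),(17,1),(1,2)]⟩,⟨1,[(25,1),(5,0),(0,0)]⟩⟩,⟨true,0,⟨2,[(8,0),(0,
  0),(4,0),(4,0)]⟩,⟨5,[(1,0),(1,0),(4,0),(1,0),(17,0),(9,1),(2,3)]⟩⟩,⟨false,1,⟨1,[(0,1),(5,0),(23,
  0)]⟩,⟨0,[(25,0),(15,0)]⟩⟩,⟨false,0,⟨0,[]⟩,⟨0,[]⟩⟩,⟨false,0,⟨0,[]⟩,⟨0,[]⟩⟩,[.o ⟨false,0,⟨0,[(40,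
  0)]⟩,⟨1,[(35,0),(5,1),(1,0)]⟩⟩,.a ⟨true,0,⟨2,[(0,0),(5,0),(10,0),(15,1),(0,1)]⟩,⟨0,[(41,0)]⟩⟩
  ⟨true,0,⟨2,[(8,0),(0,0),(4,0),(4,0)]⟩,⟨0,[(41,0)]⟩⟩ ⟨false,1,⟨8,[(0,2),(2,1),(2,4),(1,1),(1,1),
  (13,3),(3,1),(10,0)]⟩,⟨0,[(25,0),(15,0)]⟩⟩,.o ⟨false,0,⟨0,[(25,0)]⟩,⟨1,[(3,1),(27,0),(0,0)]⟩⟩,.o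
  ⟨false,0,⟨1,[(25,1),(5,0),(0,0)]⟩,⟨0,[(3,0)]⟩⟩]⟩) (.R ⟨1,false,false,true,[1,0,0,0,-1],[1,-1,-1],
  [1],(⟨0,[(26,0)]⟩,⟨0,[(27,0)]⟩),(⟨0,[(22,0)]⟩,⟨0,[(34,0),(2,0)]⟩),⟨1,[(2,0),(2,0),(16,0),(3,0)]⟩,
  .k,.k,(.r (-1) ⟨2,[(10,0),(13,0),(0,0),(15,0),(1,0)]⟩ ⟨6,[(11,2),(7,3),(9,0),(2,0),(5,0)]⟩),(.r 0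
  ⟨0,[(8,0),(34,0)]⟩ ⟨39,[(1,27),(8,11),(3,11),(6,13),(2,36),(0,8),(9,6),(2,3)]⟩),.k,.k,⟨true,0,⟨0,
  [(8,0),(34,0)]⟩,⟨0,[(16,0),(13,0),(10,0)]⟩⟩,⟨false,0,⟨2,[(0,1),(8,1),(0,0),(2,0),(11,0),(6,0)]⟩,
  ⟨2,[(3,1),(17,0),(2,0),(3,0)]⟩⟩,⟨false,0,⟨0,[]⟩,⟨1,[(24,0),(0,0),(17,0)]⟩⟩,⟨true,(-1),⟨0,[(1,0)]⟩,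
  ⟨2,[(3,1),(4,2),(12,0),(2,0),(3,0),(14,2)]⟩⟩,⟨true,0,⟨10,[(6,2),(4,0),(7,0),(0,2),(17,1)]⟩,⟨0,
  [(41,0)]⟩⟩,⟨true,(-1),⟨0,[(0,0)]⟩,⟨2,[(3,1),(5,2),(11,0),(2,0),(3,0)]⟩⟩,[.a ⟨true,0,⟨0,[(30,0),
  (10,0)]⟩,⟨0,[(8,0),(19,0),(14,0)]⟩⟩ ⟨true,0,⟨0,[]⟩,⟨1,[(31,0),(0,0)]⟩⟩ ⟨false,0,⟨2,[(1,0),(8,0),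
  (14,1),(4,1)]⟩,⟨2,[(3,1),(4,2),(12,0),(2,0),(3,0),(14,2)]⟩⟩,.o ⟨false,1,⟨1,[(30,1),(4,0),(5,1),(1,
  0)]⟩,⟨10,[(8,6),(0,1),(0,2),(2,3),(2,8),(3,1)]⟩⟩,.o ⟨false,1,⟨1,[(3,1),(27,0),(0,0)]⟩,⟨0,[(25,
  0)]⟩⟩,.o ⟨false,1,⟨0,[(3,0),(27,0),(0,0)]⟩,⟨29,[(0,5),(1,5),(1,5),(0,1),(2,5),(1,9),(6,13),(4,7),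
  (2,3),(9,10),(7,10)]⟩⟩]⟩))))))))))

theorem ok39 : chk K t39 r24 = true := by decide +kernel

noncomputable def t45 : Tre :=
  (.I [0,-1,1,0,0,0,0,1] (.Q [0,0,0,-1,-1,0,1,1,0,1,-1] (.p false [0,0,1] [1] (⟨0,[(21,0)]⟩,⟨0,[(20,
  0)]⟩) .k 1 (⟨0,[]⟩,⟨0,[]⟩) .k .k) (.R ⟨2,true,false,false,[0,1],[1,1,-1],[0,1,1],(⟨0,[]⟩,⟨0,[]⟩),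
  (⟨0,[(21,0),(3,0)]⟩,⟨0,[(11,0)]⟩),⟨0,[]⟩,.k,.k,.k,.k,.k,.k,⟨true,(-1),⟨0,[(2,0)]⟩,⟨0,[(7,0),(23,
  0)]⟩⟩,⟨false,1,⟨1,[(2,1),(15,1),(4,0),(3,1),(3,2)]⟩,⟨1,[(9,0),(11,0),(0,0)]⟩⟩,⟨false,0,⟨0,[(29,
  0)]⟩,⟨0,[(28,0),(2,0)]⟩⟩,⟨true,1,⟨1,[(18,1),(4,0),(7,0)]⟩,⟨0,[(0,0),(27,0)]⟩⟩,⟨true,0,⟨0,[(33,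
  0)]⟩,⟨0,[]⟩⟩,⟨false,2,⟨1,[(18,1),(4,0),(4,1),(2,2)]⟩,⟨0,[(0,0)]⟩⟩,[]⟩) (.Q [0,0,-1,0,0,0,0,0,0,1]
  (.pp false [-1,1]) (.R ⟨2,false,false,true,[0,1],[1,1,-1],[0,0,1],(⟨0,[]⟩,⟨0,[]⟩),(⟨0,[(22,0),(3,
  0)]⟩,⟨0,[(12,0)]⟩),⟨0,[]⟩,.k,.k,.k,.k,.k,.k,⟨true,0,⟨0,[(3,0),(28,0)]⟩,⟨0,[(8,0)]⟩⟩,⟨false,1,⟨2,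
  [(1,2),(0,0),(0,1),(0,0),(26,0)]⟩,⟨2,[(0,0),(9,1),(10,0)]⟩⟩,⟨true,0,⟨0,[(30,0)]⟩,⟨0,[(29,0)]⟩⟩,
  ⟨false,1,⟨1,[(19,1),(4,0),(7,0)]⟩,⟨0,[(2,0),(14,0)]⟩⟩,⟨false,1,⟨1,[(13,0),(0,0),(17,0)]⟩,⟨0,[]⟩⟩,
  ⟨false,1,⟨0,[(1,0)]⟩,⟨0,[(2,0),(14,0),(12,0)]⟩⟩,[.o ⟨false,1,⟨9,[(1,7),(6,1),(4,0),(0,0),(6,1),(2,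
  0),(2,3)]⟩,⟨0,[(3,0),(1,0),(26,0)]⟩⟩,.o ⟨false,1,⟨0,[(1,0)]⟩,⟨4,[(2,1),(0,1),(0,0),(5,1),(7,0),(5,
  0),(5,1)]⟩⟩,.a ⟨true,0,⟨0,[(0,0)]⟩,⟨1,[(20,0),(0,0)]⟩⟩ ⟨true,0,⟨1,[(20,0),(0,0)]⟩,⟨4,[(3,0),(0,0),
  (0,0),(13,0),(7,0),(0,1)]⟩⟩ ⟨false,1,⟨3,[(1,1),(6,1),(12,1),(2,0),(7,0)]⟩,⟨0,[(3,0),(13,0),(14,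
  0)]⟩⟩,.e ⟨false,1,⟨1,[(13,0),(0,0),(17,0)]⟩,⟨0,[]⟩⟩ ⟨false,1,⟨0,[(1,0)]⟩,⟨0,[(2,0),(14,0),(12,
  0)]⟩⟩]⟩) (.R ⟨2,false,false,false,[0,1],[0,0,1],[1,0,0,0,0,0,0,1],(⟨0,[]⟩,⟨0,[]⟩),(⟨0,[(23,0)]⟩,
  ⟨0,[(22,0)]⟩),⟨0,[]⟩,.k,.k,.k,.k,.k,.k,⟨true,0,⟨0,[]⟩,⟨1,[(20,0),(0,0)]⟩⟩,⟨false,0,⟨0,[(5,0)]⟩,⟨0,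
  [(21,0),(9,0)]⟩⟩,⟨true,0,⟨2,[(2,0),(0,1),(0,0),(26,0)]⟩,⟨0,[(8,0)]⟩⟩,⟨false,0,⟨0,[(3,0),(1,0),(26,
  0)]⟩,⟨1,[(1,0),(4,0),(6,0),(5,0),(12,0)]⟩⟩,⟨true,0,⟨0,[(3,0),(24,0),(3,0)]⟩,⟨0,[(19,0),(0,0)]⟩⟩,
  ⟨true,0,⟨4,[(2,1),(0,0),(0,0),(0,2),(3,1)]⟩,⟨0,[(19,0)]⟩⟩,[.o ⟨false,0,⟨4,[(2,1),(0,0),(0,0),(0,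
  2),(3,1)]⟩,⟨1,[(19,1),(4,0),(7,0)]⟩⟩,.a ⟨true,0,⟨0,[(2,0),(14,0)]⟩,⟨0,[(19,0)]⟩⟩ ⟨false,1,⟨0,[(2,
  0),(28,0)]⟩,⟨0,[(5,0),(13,0)]⟩⟩ ⟨true,0,⟨0,[(2,0),(2,0)]⟩,⟨0,[(19,0)]⟩⟩,.o ⟨false,1,⟨1,[(13,0),(0,
  0),(16,0)]⟩,⟨0,[(0,0)]⟩⟩,.e ⟨true,0,⟨0,[(3,0),(24,0),(3,0)]⟩,⟨0,[(19,0),(0,0)]⟩⟩ ⟨true,0,⟨4,[(2,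
  1),(0,0),(0,0),(0,2),(3,1)]⟩,⟨0,[(19,0)]⟩⟩]⟩))) (.S ⟨1,0,[0,0,1,0,0,0,0,1],[0,1,1],[0,1,1,0,0,0,0,
  1],(⟨0,[(21,0),(2,0)]⟩,⟨0,[(9,0)]⟩),⟨0,[(21,0)]⟩,.k,.k,⟨false,0,⟨0,[(28,0)]⟩,⟨0,[(27,0),(2,0)]⟩⟩,
  ⟨true,0,⟨0,[(28,0)]⟩,⟨0,[(27,0)]⟩⟩,⟨true,0,⟨0,[(32,0)]⟩,⟨0,[]⟩⟩,⟨false,1,⟨1,[(11,0),(0,0),(17,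
  0)]⟩,⟨0,[]⟩⟩,[.o ⟨false,0,⟨1,[(1,0),(1,0),(3,0),(22,0)]⟩,⟨1,[(17,1),(4,0),(7,0)]⟩⟩,.e ⟨false,0,⟨2,
  [(1,1),(5,0),(11,0),(6,0),(3,1)]⟩,⟨0,[(2,0),(3,0)]⟩⟩ ⟨false,1,⟨4,[(1,0),(0,1),(4,2),(8,0),(2,3),
  (10,3)]⟩,⟨0,[(0,0)]⟩⟩,.a ⟨true,0,⟨0,[(15,0)]⟩,⟨0,[(19,0)]⟩⟩ ⟨false,0,⟨3,[(1,1),(5,1),(10,0),(0,2),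
  (10,1)]⟩,⟨0,[(0,0),(29,0)]⟩⟩ ⟨true,0,⟨3,[(1,1),(5,1),(10,0),(0,2),(10,1)]⟩,⟨0,[(0,0)]⟩⟩,.o ⟨false,
  0,⟨0,[(3,0)]⟩,⟨1,[(19,1),(2,0),(6,0)]⟩⟩]⟩))

theorem ok45 : chk K t45 r6 = true := by decide +kernel

noncomputable def t47 : Tre :=
  (.Q [0,-1,0,2,0,0,0,0,0,1] (.pp false [-1,1]) (.S ⟨1,0,[0,1,-1,-2],[1,-1],[1,0,-1,-1],(⟨0,[(23,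
  0)]⟩,⟨0,[(24,0)]⟩),⟨0,[(9,0),(0,0)]⟩,.k,(.r (-1) ⟨0,[(28,1),(0,0)]⟩ ⟨11,[(0,1),(0,3),(0,7),(3,3),
  (0,3),(14,0),(7,6)]⟩),⟨true,0,⟨0,[]⟩,⟨0,[(32,0)]⟩⟩,⟨false,0,⟨0,[(28,0)]⟩,⟨15,[(0,1),(0,3),(4,3),
  (0,3),(14,0),(6,3),(0,10)]⟩⟩,⟨false,1,⟨15,[(0,1),(0,3),(4,3),(0,3),(14,0),(6,3),(0,10)]⟩,⟨0,[(28,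
  0)]⟩⟩,⟨true,0,⟨0,[(32,0)]⟩,⟨0,[]⟩⟩,[.a ⟨true,0,⟨0,[(28,1),(3,0)]⟩,⟨0,[(0,0)]⟩⟩ ⟨false,1,⟨0,[(28,
  0),(0,0)]⟩,⟨23,[(0,1),(0,3),(0,7),(3,3),(0,3),(14,0),(7,6)]⟩⟩ ⟨true,0,⟨0,[(26,0),(1,2)]⟩,⟨3,[(0,
  1),(1,3),(19,0),(7,2)]⟩⟩,.a ⟨true,0,⟨0,[(28,1)]⟩,⟨2,[(0,1),(3,0),(6,0),(15,0)]⟩⟩ ⟨true,1,⟨1,[(28,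
  1),(0,0),(0,0)]⟩,⟨0,[(2,0)]⟩⟩ ⟨false,1,⟨0,[(28,1),(0,0)]⟩,⟨23,[(0,13),(0,3),(0,7),(3,3),(0,3),(14,
  6),(7,0)]⟩⟩,.a ⟨true,0,⟨1,[(18,0),(0,0)]⟩,⟨0,[(0,0),(25,0),(1,2)]⟩⟩ ⟨false,1,⟨1,[(28,1),(0,0),(0,
  0)]⟩,⟨23,[(0,1),(0,3),(0,7),(3,3),(0,3),(14,0),(7,6)]⟩⟩ ⟨true,0,⟨0,[(26,0),(1,2)]⟩,⟨23,[(0,13),(0,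
  3),(0,7),(3,3),(0,3),(14,6),(7,0)]⟩⟩,.o ⟨false,0,⟨1,[(2,1),(19,0),(5,1),(1,0)]⟩,⟨0,[(29,0)]⟩⟩]⟩)
  (.Q [0,-1,0,-1,0,0,1,1,0,0,-1] (.p false [0,0,1] [] (⟨0,[(21,0)]⟩,⟨0,[(20,0)]⟩) .k 0 (⟨0,[]⟩,⟨0,
  []⟩) .k .k) (.R ⟨1,false,false,false,[1,0,-1],[1,-1],[],(⟨0,[(21,0)]⟩,⟨0,[(22,0)]⟩),(⟨0,[(24,0)]⟩,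
  ⟨0,[(25,0)]⟩),⟨0,[(10,0)]⟩,.k,.k,.k,.k,.k,.k,⟨true,0,⟨6,[(2,0),(0,2),(3,0),(0,0),(18,0),(3,2)]⟩,
  ⟨0,[(29,0)]⟩⟩,⟨false,0,⟨0,[(4,0)]⟩,⟨0,[(20,0),(9,0)]⟩⟩,⟨true,0,⟨0,[(0,0),(19,0),(6,0)]⟩,⟨0,[(4,0),
  (13,0)]⟩⟩,⟨false,0,⟨0,[(0,0)]⟩,⟨1,[(2,0),(4,0),(10,0),(11,0),(0,0)]⟩⟩,⟨true,0,⟨0,[(0,0),(1,0),(24,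
  0)]⟩,⟨0,[(4,0),(13,0),(10,0)]⟩⟩,⟨true,0,⟨1,[(0,0),(7,0)]⟩,⟨0,[(18,0)]⟩⟩,[.a ⟨true,0,⟨0,[(29,0)]⟩,
  ⟨0,[(2,0),(13,0)]⟩⟩ ⟨false,1,⟨1,[(12,0),(0,0),(16,0)]⟩,⟨0,[]⟩⟩ ⟨true,0,⟨0,[(4,0),(24,0)]⟩,⟨0,[(2,
  0)]⟩⟩,.o ⟨false,1,⟨3,[(1,1),(21,0),(7,2)]⟩,⟨0,[(28,0)]⟩⟩,.o ⟨false,1,⟨1,[(20,1),(2,0),(6,0)]⟩,⟨0,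
  [(4,0)]⟩⟩,.e ⟨false,1,⟨1,[(30,0),(0,0)]⟩,⟨1,[(19,0),(0,0)]⟩⟩ ⟨false,1,⟨3,[(1,1),(14,3),(6,0),(7,
  2)]⟩,⟨0,[(2,0)]⟩⟩]⟩) (.Q [0,0,0,0,1,0,0,0,-1,-1,0,1] (.p true [0,0,0,0,1] [1] (⟨0,[(15,0)]⟩,⟨0,
  [(14,0)]⟩) .k 1 (⟨0,[]⟩,⟨0,[]⟩) .k .k) (.Q [0,0,1,0,-1,0,0,0,1,1,0,-1] (.p false [0,0,0,0,1] [1]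
  (⟨0,[(16,0)]⟩,⟨0,[(15,0)]⟩) .k 1 (⟨0,[]⟩,⟨0,[]⟩) .k .k) (.Q [0,0,-1,-1,1,0,0,0,-1,-1,0,1] (.p
  true [0,0,0,0,1] [1] (⟨0,[(17,0)]⟩,⟨0,[(16,0)]⟩) .k 1 (⟨0,[]⟩,⟨0,[]⟩) .k .k) (.K ⟨0,[1,0,0,0,-1],
  1,1,(⟨0,[(17,0)]⟩,⟨0,[(18,0)]⟩),.k,(.r (-1) ⟨1,[(32,1),(0,0),(0,0)]⟩ ⟨1,[(10,0),(0,0),(11,0)]⟩),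
  (.r (-1) ⟨3,[(5,1),(4,0),(0,0),(3,0),(0,0),(5,0),(11,2)]⟩ ⟨0,[(0,0),(8,0)]⟩),.k,.k,[⟨0,[(0,0),(4,
  0)]⟩,⟨0,[(1,0)]⟩,⟨0,[(9,0),(26,0)]⟩,⟨0,[(2,0)]⟩]⟩) (.Q [0,0,0,0,0,-1,0,0,0,0,0,1] (.ed false [1,
  -1,0,0,1] .k) (.R ⟨1,false,false,false,[0,0,0,0,1],[1,-1],[1,2],(⟨0,[(19,0)]⟩,⟨0,[(18,0)]⟩),(⟨0,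
  [(28,0)]⟩,⟨0,[(29,0)]⟩),⟨0,[(0,0)]⟩,.k,.k,(.r 0 ⟨0,[(31,0),(1,1)]⟩ ⟨3,[(6,1),(4,0),(0,0),(3,0),(0,
  0),(5,0),(11,2)]⟩),(.r 0 ⟨1,[(11,0),(0,0),(11,0)]⟩ ⟨1,[(33,1),(0,0),(0,0)]⟩),.k,.k,⟨true,(-1),⟨0,
  [(7,0),(23,0),(1,0)]⟩,⟨0,[(33,0),(1,0)]⟩⟩,⟨false,1,⟨0,[(3,0)]⟩,⟨1,[(10,1),(23,0),(0,0)]⟩⟩,⟨false,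
  0,⟨0,[]⟩,⟨1,[(16,0),(0,0),(17,0)]⟩⟩,⟨false,2,⟨0,[(3,0),(29,0),(1,0)]⟩,⟨0,[(9,0)]⟩⟩,⟨true,0,⟨0,
  [(32,0)]⟩,⟨0,[(33,0)]⟩⟩,⟨false,2,⟨0,[(3,0),(31,0)]⟩,⟨0,[(10,0)]⟩⟩,[.a ⟨true,0,⟨0,[(33,0)]⟩,⟨0,[(6,
  0),(13,0)]⟩⟩ ⟨false,0,⟨0,[(30,0)]⟩,⟨0,[(35,0)]⟩⟩ ⟨true,1,⟨0,[(3,0),(29,0)]⟩,⟨0,[(1,0)]⟩⟩,.o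
  ⟨false,1,⟨3,[(5,1),(21,0),(7,2)]⟩,⟨0,[(32,0)]⟩⟩,.o ⟨false,0,⟨0,[(17,0)]⟩,⟨0,[(3,0)]⟩⟩,.e ⟨false,0,
  ⟨0,[(31,0),(1,0)]⟩,⟨1,[(23,0),(0,0),(10,1)]⟩⟩ ⟨false,2,⟨1,[(3,1),(29,1),(0,0),(0,0)]⟩,⟨0,[(1,
  0)]⟩⟩]⟩) (.R ⟨0,false,false,true,[0,0,0,0,1],[1,-1],[1,0,1],(⟨0,[(19,0)]⟩,⟨0,[(18,0)]⟩),(⟨0,[(28,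
  0)]⟩,⟨0,[(29,0)]⟩),⟨0,[(0,0)]⟩,.k,.k,(.r 0 ⟨0,[(31,0),(1,1)]⟩ ⟨3,[(6,1),(4,0),(0,0),(3,0),(0,0),
  (5,0),(11,2)]⟩),(.r 0 ⟨1,[(11,0),(0,0),(11,0)]⟩ ⟨1,[(33,1),(0,0),(0,0)]⟩),.k,.k,⟨true,0,⟨0,[(7,0),
  (27,0)]⟩,⟨0,[(31,0),(1,1)]⟩⟩,⟨false,1,⟨0,[(3,0)]⟩,⟨1,[(10,1),(23,0),(0,0)]⟩⟩,⟨false,1,⟨1,[(23,0),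
  (0,0),(10,1)]⟩,⟨0,[(31,0),(1,0)]⟩⟩,⟨true,1,⟨0,[(3,0),(29,0)]⟩,⟨0,[(9,0)]⟩⟩,⟨false,0,⟨0,[]⟩,⟨0,
  []⟩⟩,⟨false,0,⟨0,[]⟩,⟨0,[]⟩⟩,[.e ⟨false,0,⟨0,[]⟩,⟨1,[(16,0),(0,0),(16,0)]⟩⟩ ⟨false,1,⟨0,[(3,0),
  (27,0),(1,1)]⟩,⟨0,[(9,0),(25,0)]⟩⟩,.a ⟨true,0,⟨0,[(33,0)]⟩,⟨0,[(6,0),(13,0)]⟩⟩ ⟨false,1,⟨1,[(16,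
  0),(0,0),(17,0)]⟩,⟨0,[(31,0),(1,0)]⟩⟩ ⟨true,1,⟨0,[(3,0),(29,0)]⟩,⟨0,[(1,0)]⟩⟩,.o ⟨false,0,⟨0,[(17,
  0)]⟩,⟨0,[(3,0)]⟩⟩,.e ⟨true,0,⟨0,[]⟩,⟨0,[(37,0)]⟩⟩ ⟨true,1,⟨0,[(3,0),(27,0),(1,1)]⟩,⟨0,[(1,
  0)]⟩⟩]⟩))) (.Q [0,0,0,0,0,-1,0,0,0,0,0,1] (.ed false [1,-1,0,0,1] .k) (.R ⟨1,false,false,true,[0,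
  0,0,0,1],[1,-1],[0,1,0,-1],(⟨0,[(18,0)]⟩,⟨0,[(17,0)]⟩),(⟨0,[(27,0)]⟩,⟨0,[(28,0)]⟩),⟨0,[(0,0)]⟩,.k,
  .k,(.r 0 ⟨0,[(1,0),(7,0),(22,0)]⟩ ⟨3,[(5,1),(4,0),(0,0),(3,0),(0,0),(5,0),(11,2)]⟩),(.r 0 ⟨1,[(10,
  0),(0,0),(11,0)]⟩ ⟨1,[(32,1),(0,0),(0,0)]⟩),.k,.k,⟨true,0,⟨1,[(22,0),(0,0)]⟩,⟨0,[]⟩⟩,⟨false,1,⟨0,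
  [(2,0)]⟩,⟨1,[(9,1),(23,0),(0,0)]⟩⟩,⟨true,0,⟨0,[(32,0)]⟩,⟨0,[(31,0)]⟩⟩,⟨true,1,⟨0,[(2,0),(29,0)]⟩,
  ⟨0,[(8,0)]⟩⟩,⟨false,1,⟨1,[(15,0),(0,0),(17,0)]⟩,⟨0,[]⟩⟩,⟨true,1,⟨0,[(2,0)]⟩,⟨0,[(9,0)]⟩⟩,[.e
  ⟨false,0,⟨0,[(1,0),(7,0),(22,0)]⟩,⟨0,[(31,0),(2,0)]⟩⟩ ⟨false,1,⟨2,[(1,1),(2,0),(10,0),(13,0),(2,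
  0)]⟩,⟨0,[(8,0),(25,0)]⟩⟩,.a ⟨true,0,⟨0,[(32,0)]⟩,⟨0,[(5,0),(13,0)]⟩⟩ ⟨true,0,⟨0,[(32,0)]⟩,⟨6,[(5,
  0),(0,2),(3,0),(0,0),(18,0),(3,2)]⟩⟩ ⟨false,1,⟨0,[(1,0),(30,0)]⟩,⟨1,[(8,1),(6,0),(0,0),(17,0)]⟩⟩,
  .o ⟨false,0,⟨0,[(16,0)]⟩,⟨0,[(2,0)]⟩⟩,.o ⟨false,0,⟨1,[(16,1),(5,0),(0,0)]⟩,⟨0,[(1,0)]⟩⟩]⟩) (.Q [0,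
  0,-1,0,0,0,0,0,0,1] (.pp false [-1,1]) (.R ⟨0,false,false,true,[0,0,0,0,1],[0,1],[1,1,1,1],(⟨0,
  [(19,0)]⟩,⟨0,[(18,0)]⟩),(⟨0,[(29,0)]⟩,⟨0,[(28,0)]⟩),⟨0,[(1,0)]⟩,.k,.k,(.r 0 ⟨2,[(0,1),(4,1),(25,
  0)]⟩ ⟨3,[(6,1),(4,0),(0,0),(3,0),(0,0),(5,0),(11,2)]⟩),(.r 0 ⟨2,[(0,1),(4,1),(25,0)]⟩ ⟨3,[(6,1),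
  (4,0),(0,0),(3,0),(0,0),(5,0),(11,2)]⟩),.k,.k,⟨true,0,⟨0,[]⟩,⟨1,[(23,0),(0,0)]⟩⟩,⟨false,1,⟨0,[(0,
  0),(1,0)]⟩,⟨1,[(17,1),(5,0),(0,0)]⟩⟩,⟨true,0,⟨6,[(6,0),(0,2),(3,0),(0,0),(18,0),(3,2)]⟩,⟨2,[(0,1),
  (4,1),(25,0)]⟩⟩,⟨false,1,⟨0,[(0,0),(1,0),(4,0),(27,0)]⟩,⟨1,[(5,0),(4,0),(6,0),(17,0)]⟩⟩,⟨false,0,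
  ⟨0,[]⟩,⟨0,[]⟩⟩,⟨false,0,⟨0,[]⟩,⟨0,[]⟩⟩,[.o ⟨false,0,⟨0,[(32,0)]⟩,⟨3,[(5,1),(21,0),(7,2)]⟩⟩,.a
  ⟨true,0,⟨0,[(6,0),(13,0)]⟩,⟨0,[(33,0)]⟩⟩ ⟨true,0,⟨6,[(6,0),(0,2),(3,0),(0,0),(18,0),(3,2)]⟩,⟨0,
  [(33,0)]⟩⟩ ⟨false,1,⟨0,[(2,0),(3,0),(13,0)]⟩,⟨1,[(5,0),(4,0),(6,0),(17,0)]⟩⟩,.o ⟨false,0,⟨0,[(17,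
  0)]⟩,⟨0,[(3,0)]⟩⟩,.o ⟨false,0,⟨1,[(17,1),(5,0),(0,0)]⟩,⟨0,[(2,0)]⟩⟩]⟩) (.Q [0,0,0,2,0,0,0,0,0,1]
  (.pp false [-1,1]) (.S ⟨1,0,[0,1,-1,-2],[1,-1],[1,0,-1,-1],(⟨0,[(29,0)]⟩,⟨0,[(30,0)]⟩),⟨0,[(15,0),
  (0,0)]⟩,.k,(.r (-1) ⟨0,[(34,1),(0,0)]⟩ ⟨7,[(0,1),(6,1),(0,5),(3,1),(0,1),(14,0),(7,4)]⟩),⟨true,0,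
  ⟨0,[]⟩,⟨0,[(38,0)]⟩⟩,⟨false,0,⟨0,[(34,0)]⟩,⟨3,[(0,1),(16,0),(0,0),(9,0),(7,1)]⟩⟩,⟨false,1,⟨3,[(0,
  1),(16,0),(0,0),(9,0),(7,1)]⟩,⟨0,[(34,0)]⟩⟩,⟨true,0,⟨0,[(38,0)]⟩,⟨0,[]⟩⟩,[.o ⟨false,0,⟨0,[(6,0)]⟩,
  ⟨1,[(0,1),(27,0),(7,0)]⟩⟩,.a ⟨true,0,⟨0,[(34,1)]⟩,⟨0,[(0,0)]⟩⟩ ⟨true,1,⟨1,[(34,1),(0,0),(0,0)]⟩,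
  ⟨0,[(8,0)]⟩⟩ ⟨false,1,⟨0,[(34,1),(0,0)]⟩,⟨0,[(0,0),(0,0)]⟩⟩,.o ⟨false,0,⟨0,[(1,0)]⟩,⟨1,[(17,0),(0,
  0),(16,0)]⟩⟩,.o ⟨false,0,⟨1,[(1,1),(22,0),(0,0)]⟩,⟨0,[(35,0)]⟩⟩]⟩) (.R ⟨2,true,false,false,[0,1],
  [1,-1],[0,1,1],(⟨0,[]⟩,⟨0,[]⟩),(⟨0,[(29,0)]⟩,⟨0,[(30,0)]⟩),⟨0,[]⟩,.k,.k,.k,(.r 0 ⟨6,[(7,1),(0,5),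
  (3,1),(0,1),(18,1),(3,5)]⟩ ⟨0,[(34,1),(0,0)]⟩),.k,.k,⟨true,(-1),⟨0,[(8,0)]⟩,⟨1,[(34,1),(0,0),(0,
  0)]⟩⟩,⟨false,0,⟨0,[(1,0)]⟩,⟨0,[(26,0),(0,0),(7,0)]⟩⟩,⟨false,0,⟨0,[(34,0)]⟩,⟨0,[(33,0),(2,0)]⟩⟩,
  ⟨true,0,⟨0,[(0,0)]⟩,⟨0,[(7,0),(13,0),(11,0)]⟩⟩,⟨true,0,⟨0,[(38,0)]⟩,⟨0,[]⟩⟩,⟨false,1,⟨3,[(6,1),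
  (21,0),(7,2)]⟩,⟨0,[(7,0),(13,0)]⟩⟩,[]⟩))))) (.Q [0,0,0,1,1,0,0,0,-1,0,0,1] (.p true [0,0,0,0,1]
  [] (⟨0,[(16,0)]⟩,⟨0,[(15,0)]⟩) .k 0 (⟨0,[]⟩,⟨0,[]⟩) .k .k) (.Q [0,0,0,1,-1,0,0,0,1,1,0,-1] (.p
  false [0,0,0,0,1] [1] (⟨0,[(17,0)]⟩,⟨0,[(16,0)]⟩) .k 1 (⟨0,[]⟩,⟨0,[]⟩) .k .k) (.I [1,1,2,2,-1]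
  (.Q [0,-1,0,-1,1,0,0,0,-1,0,0,1] (.p true [0,0,0,0,1] [] (⟨0,[(19,0)]⟩,⟨0,[(18,0)]⟩) .k 0 (⟨0,[]⟩,
  ⟨0,[]⟩) .k .k) (.Q [0,0,0,0,0,-1,0,0,0,1,0,-1] (.ed true [0,1,0,0,1] .k) (.S ⟨1,0,[0,0,0,-1],[1,0,
  0,0,-1],[1,-1],(⟨0,[(20,0)]⟩,⟨0,[(21,0)]⟩),⟨0,[(0,0)]⟩,.k,(.r (-1) ⟨5,[(1,1),(3,1),(1,1),(28,2),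
  (0,2)]⟩ ⟨1,[(13,0),(0,0),(11,0)]⟩),⟨true,0,⟨0,[]⟩,⟨0,[(39,0)]⟩⟩,⟨false,0,⟨0,[(35,0)]⟩,⟨5,[(3,1),
  (0,3),(14,1),(9,0),(7,2)]⟩⟩,⟨false,1,⟨5,[(3,1),(0,3),(14,1),(9,0),(7,2)]⟩,⟨0,[(35,0)]⟩⟩,⟨true,0,
  ⟨0,[(39,0)]⟩,⟨0,[]⟩⟩,[.a ⟨true,1,⟨3,[(1,1),(5,0),(4,0),(5,2)]⟩,⟨0,[(3,0)]⟩⟩ ⟨false,1,⟨1,[(36,0),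
  (0,0)]⟩,⟨0,[(39,0)]⟩⟩ ⟨true,0,⟨0,[(35,0)]⟩,⟨7,[(2,1),(5,1),(4,0),(0,0),(10,0),(11,1)]⟩⟩,.a ⟨true,
  1,⟨0,[(1,0)]⟩,⟨0,[(11,0)]⟩⟩ ⟨true,1,⟨0,[(37,0)]⟩,⟨2,[(1,1),(3,1),(1,1),(1,2),(23,2)]⟩⟩ ⟨false,1,
  ⟨5,[(1,1),(3,1),(1,1),(28,2),(0,2)]⟩,⟨0,[(34,0)]⟩⟩,.a ⟨true,1,⟨0,[(18,0)]⟩,⟨0,[(5,0)]⟩⟩ ⟨false,1,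
  ⟨0,[(37,0)]⟩,⟨0,[(39,0)]⟩⟩ ⟨true,0,⟨0,[(35,0)]⟩,⟨0,[(34,0)]⟩⟩,.o ⟨false,1,⟨1,[(1,0),(7,0),(8,0),
  (10,0)]⟩,⟨1,[(5,1),(23,0),(6,0)]⟩⟩]⟩) (.R ⟨0,false,false,true,[1,0,0,0,-1],[0,1],[],(⟨0,[(20,0)]⟩,
  ⟨0,[(21,0)]⟩),(⟨0,[(31,0)]⟩,⟨0,[(30,0)]⟩),⟨0,[(0,0)]⟩,.k,.k,(.r (-1) ⟨5,[(1,1),(3,1),(1,1),(28,2),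
  (0,2)]⟩ ⟨1,[(13,0),(0,0),(11,0)]⟩),(.r (-1) ⟨5,[(1,1),(3,1),(1,1),(28,2),(0,2)]⟩ ⟨1,[(13,0),(0,0),
  (11,0)]⟩),.k,.k,⟨true,1,⟨5,[(1,1),(3,1),(1,1),(28,2),(0,2)]⟩,⟨0,[(9,0)]⟩⟩,⟨false,0,⟨0,[(5,0),(30,
  0)]⟩,⟨1,[(1,0),(7,0),(8,0),(10,0)]⟩⟩,⟨true,0,⟨0,[(39,0)]⟩,⟨0,[]⟩⟩,⟨false,(-1),⟨0,[(11,0)]⟩,⟨1,[(1,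
  1),(27,0),(7,0)]⟩⟩,⟨false,0,⟨0,[]⟩,⟨0,[]⟩⟩,⟨false,0,⟨0,[]⟩,⟨0,[]⟩⟩,[.o ⟨false,0,⟨0,[(34,0)]⟩,⟨3,
  [(7,1),(21,0),(7,2)]⟩⟩,.a ⟨true,0,⟨0,[(4,0),(0,0)]⟩,⟨0,[(35,0)]⟩⟩ ⟨false,1,⟨1,[(36,0),(0,0)]⟩,⟨0,
  [(39,0)]⟩⟩ ⟨true,(-1),⟨0,[(3,0)]⟩,⟨5,[(1,3),(5,1),(1,1),(8,1),(6,0),(0,0),(2,1)]⟩⟩,.e ⟨false,1,⟨1,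
  [(18,0),(0,0),(17,0)]⟩,⟨0,[]⟩⟩ ⟨false,(-1),⟨0,[(3,0)]⟩,⟨3,[(7,1),(10,3),(10,0),(7,2)]⟩⟩,.o ⟨false,
  1,⟨1,[(1,0),(7,0),(8,0),(10,0)]⟩,⟨1,[(5,1),(23,0),(6,0)]⟩⟩]⟩)) (.Q [0,-2,0,-1,2,0,0,0,-1,-1,0,1]
  (.p true [0,0,0,0,1] [1] (⟨0,[(20,0)]⟩,⟨0,[(19,0)]⟩) .k 1 (⟨0,[]⟩,⟨0,[]⟩) .k .k) (.Q [0,0,0,0,0,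
  -1,0,0,0,1,0,-1] (.ed true [0,1,0,0,1] .k) (.S ⟨1,0,[0,-1,0,-1],[1,0,0,0,-1],[1],(⟨0,[(21,0)]⟩,⟨0,
  [(22,0)]⟩),⟨0,[(0,0)]⟩,.k,(.r (-1) ⟨1,[(36,1),(0,0),(0,0)]⟩ ⟨1,[(14,0),(0,0),(11,0)]⟩),⟨false,0,
  ⟨0,[]⟩,⟨1,[(19,0),(0,0),(17,0)]⟩⟩,⟨true,0,⟨0,[(36,0)]⟩,⟨0,[(35,0)]⟩⟩,⟨true,0,⟨0,[(35,0)]⟩,⟨0,[(36,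
  0)]⟩⟩,⟨false,1,⟨1,[(19,0),(0,0),(17,0)]⟩,⟨0,[]⟩⟩,[.o ⟨false,2,⟨9,[(1,5),(6,1),(10,6),(0,2),(9,
  0)]⟩,⟨0,[(2,0)]⟩⟩,.o ⟨false,2,⟨0,[(1,0)]⟩,⟨3,[(2,2),(7,0),(9,0),(12,1)]⟩⟩,.a ⟨true,1,⟨0,[(19,0)]⟩,
  ⟨0,[(6,0)]⟩⟩ ⟨true,0,⟨0,[]⟩,⟨0,[(40,0)]⟩⟩ ⟨false,1,⟨0,[(36,0),(1,0)]⟩,⟨0,[(35,0)]⟩⟩,.o ⟨false,1,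
  ⟨1,[(1,0),(1,0),(1,0),(2,0)]⟩,⟨1,[(6,1),(23,0),(6,0)]⟩⟩]⟩) (.R ⟨0,false,false,true,[1,0,0,0,-1],
  [0,1],[],(⟨0,[(21,0)]⟩,⟨0,[(22,0)]⟩),(⟨0,[(32,0)]⟩,⟨0,[(31,0)]⟩),⟨0,[(0,0)]⟩,.k,.k,(.r (-1) ⟨1,
  [(36,1),(0,0),(0,0)]⟩ ⟨1,[(14,0),(0,0),(11,0)]⟩),(.r (-1) ⟨1,[(36,1),(0,0),(0,0)]⟩ ⟨1,[(14,0),(0,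
  0),(11,0)]⟩),.k,.k,⟨true,1,⟨1,[(36,1),(0,0),(0,0)]⟩,⟨0,[(10,0)]⟩⟩,⟨false,0,⟨0,[(6,0),(30,0)]⟩,⟨1,
  [(1,0),(1,0),(1,0),(2,0)]⟩⟩,⟨true,0,⟨0,[(40,0)]⟩,⟨0,[]⟩⟩,⟨false,(-1),⟨0,[(12,0)]⟩,⟨0,[(1,0)]⟩⟩,
  ⟨false,0,⟨0,[]⟩,⟨0,[]⟩⟩,⟨false,0,⟨0,[]⟩,⟨0,[]⟩⟩,[.o ⟨false,0,⟨0,[(35,0)]⟩,⟨3,[(8,1),(21,0),(7,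
  2)]⟩⟩,.a ⟨true,0,⟨0,[(5,0),(0,0)]⟩,⟨0,[(36,0)]⟩⟩ ⟨false,1,⟨1,[(37,0),(0,0)]⟩,⟨0,[(40,0)]⟩⟩ ⟨true,
  (-1),⟨0,[(4,0)]⟩,⟨1,[(1,0),(6,0),(1,0),(8,0)]⟩⟩,.e ⟨false,1,⟨1,[(19,0),(0,0),(17,0)]⟩,⟨0,[]⟩⟩
  ⟨false,(-1),⟨0,[(4,0)]⟩,⟨9,[(1,5),(6,1),(10,6),(0,2),(9,0)]⟩⟩,.o ⟨false,1,⟨1,[(1,0),(1,0),(1,0),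
  (2,0)]⟩,⟨1,[(6,1),(23,0),(6,0)]⟩⟩]⟩)) (.Q [0,0,0,0,0,-1,0,0,0,0,0,1] (.ed false [1,-1,0,0,1] .k)
  (.Q [0,0,1,0,-1,0,0,0,1,0,0,-1] (.p false [0,0,0,0,1] [] (⟨0,[(22,0)]⟩,⟨0,[(21,0)]⟩) .k 0 (⟨0,[]⟩,
  ⟨0,[]⟩) .k .k) (.S ⟨1,0,[0,1,0,-1],[0,0,0,0,1],[1,2],(⟨0,[(23,0)]⟩,⟨0,[(22,0)]⟩),⟨0,[(1,0)]⟩,.k,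
  (.r 0 ⟨0,[(35,0),(1,1)]⟩ ⟨1,[(6,0),(3,0),(10,0),(5,0),(11,0)]⟩),⟨false,0,⟨0,[]⟩,⟨1,[(20,0),(0,0),
  (17,0)]⟩⟩,⟨true,0,⟨0,[(37,0)]⟩,⟨0,[(36,0)]⟩⟩,⟨true,0,⟨0,[(36,0)]⟩,⟨0,[(37,0)]⟩⟩,⟨false,1,⟨1,[(20,
  0),(0,0),(17,0)]⟩,⟨0,[]⟩⟩,[.o ⟨false,(-1),⟨2,[(3,0),(3,1),(1,1)]⟩,⟨1,[(6,1),(24,0),(7,0)]⟩⟩,.a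
  ⟨true,(-1),⟨0,[(7,0),(29,0)]⟩,⟨0,[(6,0)]⟩⟩ ⟨false,0,⟨0,[(35,0),(1,0)]⟩,⟨1,[(20,0),(0,0),(17,0)]⟩⟩
  ⟨true,0,⟨0,[(37,0)]⟩,⟨7,[(4,1),(5,1),(4,0),(0,0),(10,0),(11,1)]⟩⟩,.e ⟨false,0,⟨0,[(41,0)]⟩,⟨0,
  [(39,0)]⟩⟩ ⟨false,0,⟨0,[(37,0)]⟩,⟨5,[(5,1),(0,3),(14,1),(9,0),(7,2)]⟩⟩,.o ⟨false,(-1),⟨0,[(0,0)]⟩,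
  ⟨1,[(20,1),(10,0),(6,0)]⟩⟩]⟩) (.R ⟨1,false,false,false,[0,0,0,0,1],[1,-1],[1,1],(⟨0,[(23,0)]⟩,⟨0,
  [(22,0)]⟩),(⟨0,[(32,0)]⟩,⟨0,[(33,0)]⟩),⟨0,[(1,0)]⟩,.k,.k,(.r 0 ⟨4,[(0,2),(1,0),(4,1),(1,2),(28,
  0)]⟩ ⟨1,[(6,0),(3,0),(10,0),(5,0),(11,0)]⟩),(.r 0 ⟨1,[(15,0),(0,0),(11,0)]⟩ ⟨1,[(37,1),(0,0),(0,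
  0)]⟩),.k,.k,⟨false,0,⟨0,[(36,0)]⟩,⟨1,[(37,1),(0,0),(0,0)]⟩⟩,⟨true,1,⟨3,[(0,3),(8,1),(1,3),(19,0),
  (7,2)]⟩,⟨0,[(7,0)]⟩⟩,⟨true,0,⟨0,[]⟩,⟨0,[(41,0)]⟩⟩,⟨true,2,⟨3,[(9,1),(10,3),(10,0),(7,2)]⟩,⟨0,[(2,
  0)]⟩⟩,⟨false,1,⟨5,[(5,1),(0,3),(14,1),(9,0),(7,2)]⟩,⟨0,[(37,0)]⟩⟩,⟨true,2,⟨1,[(20,1),(10,0),(7,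
  0)]⟩,⟨0,[(2,0),(34,0)]⟩⟩,[.e ⟨false,0,⟨3,[(0,0),(1,0),(6,0),(25,0),(2,0)]⟩,⟨1,[(20,0),(0,0),(17,
  0)]⟩⟩ ⟨false,2,⟨3,[(9,1),(10,3),(10,0),(6,1),(0,0)]⟩,⟨0,[(5,0)]⟩⟩,.o ⟨false,1,⟨3,[(9,1),(21,0),(7,
  2)]⟩,⟨0,[(36,0)]⟩⟩,.e ⟨false,0,⟨0,[]⟩,⟨1,[(20,0),(0,0),(17,0)]⟩⟩ ⟨false,2,⟨3,[(9,1),(10,3),(10,0),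
  (7,2)]⟩,⟨0,[(5,0)]⟩⟩,.a ⟨true,(-1),⟨1,[(7,1),(19,0),(0,0)]⟩,⟨0,[(0,0)]⟩⟩ ⟨true,0,⟨3,[(0,0),(1,0),
  (6,0),(25,0),(2,0)]⟩,⟨1,[(27,0),(0,0)]⟩⟩ ⟨false,2,⟨3,[(0,3),(8,1),(21,0),(7,2)]⟩,⟨1,[(5,0),(5,0),
  (2,0),(24,0)]⟩⟩]⟩)) (.Q [0,0,1,0,-1,0,0,0,1,0,0,-1] (.p false [0,0,0,0,1] [] (⟨0,[(22,0)]⟩,⟨0,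
  [(21,0)]⟩) .k 0 (⟨0,[]⟩,⟨0,[]⟩) .k .k) (.R ⟨0,false,false,true,[0,0,0,0,1],[0,1],[],(⟨0,[(23,0)]⟩,
  ⟨0,[(22,0)]⟩),(⟨0,[(33,0)]⟩,⟨0,[(32,0)]⟩),⟨0,[(1,0)]⟩,.k,.k,(.r 0 ⟨0,[(35,0),(1,1)]⟩ ⟨1,[(6,0),(3,
  0),(10,0),(5,0),(11,0)]⟩),(.r 0 ⟨0,[(35,0),(1,1)]⟩ ⟨1,[(6,0),(3,0),(10,0),(5,0),(11,0)]⟩),.k,.k,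
  ⟨true,1,⟨1,[(37,1),(0,0),(0,0)]⟩,⟨0,[(11,0)]⟩⟩,⟨false,2,⟨0,[(20,0),(17,0)]⟩,⟨0,[(0,0)]⟩⟩,⟨false,1,
  ⟨0,[(39,0)]⟩,⟨0,[(41,0)]⟩⟩,⟨true,1,⟨0,[(6,0)]⟩,⟨2,[(3,0),(3,1),(1,1)]⟩⟩,⟨false,0,⟨0,[]⟩,⟨0,[]⟩⟩,
  ⟨false,0,⟨0,[]⟩,⟨0,[]⟩⟩,[.o ⟨false,0,⟨0,[(36,0)]⟩,⟨3,[(9,1),(21,0),(7,2)]⟩⟩,.a ⟨true,0,⟨0,[(6,0),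
  (0,0)]⟩,⟨0,[(37,0)]⟩⟩ ⟨false,1,⟨1,[(38,0),(0,0)]⟩,⟨0,[(41,0)]⟩⟩ ⟨true,1,⟨0,[(6,0)]⟩,⟨0,[(0,0),(36,
  0)]⟩⟩,.e ⟨false,1,⟨1,[(20,0),(0,0),(17,0)]⟩,⟨0,[]⟩⟩ ⟨false,1,⟨0,[(6,0)]⟩,⟨3,[(7,3),(1,1),(21,0),
  (7,2)]⟩⟩,.o ⟨false,(-1),⟨0,[(0,0)]⟩,⟨1,[(20,1),(10,0),(6,0)]⟩⟩]⟩) (.Q [0,0,1,0,-2,0,0,0,2,1,0,-2]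
  (.p false [0,0,0,0,1] [1,0,0,0,-1] (⟨0,[(23,0)]⟩,⟨0,[(22,0)]⟩) .k 2 (⟨0,[(22,0)]⟩,⟨0,[(23,0)]⟩)
  .k (.r 0 ⟨0,[(41,1)]⟩ ⟨0,[(39,0)]⟩)) (.R ⟨0,false,false,true,[0,0,0,0,1],[1,0,0,0,-1],[0,1,0,-1],
  (⟨0,[(24,0)]⟩,⟨0,[(23,0)]⟩),(⟨0,[(23,0)]⟩,⟨0,[(24,0)]⟩),⟨0,[(2,0)]⟩,.k,.k,(.r 0 ⟨4,[(1,2),(1,0),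
  (4,1),(1,2),(28,0)]⟩ ⟨1,[(7,0),(3,0),(10,0),(5,0),(11,0)]⟩),.k,.k,.k,⟨false,0,⟨4,[(1,2),(1,0),(4,
  1),(1,2),(28,0)]⟩,⟨5,[(6,1),(0,3),(14,1),(9,0),(7,2)]⟩⟩,⟨true,2,⟨3,[(1,7),(8,1),(1,3),(19,0),(7,
  2)]⟩,⟨0,[(0,0)]⟩⟩,⟨true,0,⟨0,[(38,0)]⟩,⟨0,[(37,0)]⟩⟩,⟨false,3,⟨3,[(1,7),(8,1),(1,3),(19,0),(7,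
  6)]⟩,⟨4,[(0,3),(2,1),(6,0),(28,1)]⟩⟩,⟨false,0,⟨0,[]⟩,⟨0,[]⟩⟩,⟨false,0,⟨0,[]⟩,⟨0,[]⟩⟩,[.a ⟨true,1,
  ⟨0,[(21,0)]⟩,⟨0,[(8,0)]⟩⟩ ⟨false,0,⟨4,[(1,2),(1,0),(4,1),(1,2),(28,0)]⟩,⟨5,[(6,1),(0,3),(14,1),(9,
  0),(7,2)]⟩⟩ ⟨true,2,⟨3,[(1,7),(8,1),(1,3),(19,0),(7,2)]⟩,⟨0,[(0,0)]⟩⟩,.o ⟨false,2,⟨1,[(21,1),(10,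
  0),(7,0)]⟩,⟨9,[(0,1),(2,0),(0,4),(5,2),(28,0)]⟩⟩,.a ⟨true,(-1),⟨0,[(8,0)]⟩,⟨0,[(21,0)]⟩⟩ ⟨false,0,
  ⟨0,[(38,0)]⟩,⟨5,[(6,1),(0,3),(14,1),(9,0),(7,2)]⟩⟩ ⟨true,2,⟨3,[(1,7),(8,1),(1,3),(19,0),(7,2)]⟩,
  ⟨4,[(0,3),(2,1),(6,0),(28,1)]⟩⟩,.a ⟨true,(-1),⟨2,[(0,0),(7,0),(9,0),(10,1)]⟩,⟨0,[(1,0)]⟩⟩ ⟨true,0,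
  ⟨4,[(1,2),(1,0),(4,1),(1,2),(28,0)]⟩,⟨7,[(5,1),(5,1),(4,0),(0,0),(10,0),(11,1)]⟩⟩ ⟨false,3,⟨1,[(1,
  1),(19,1),(10,0),(7,0)]⟩,⟨0,[(0,0)]⟩⟩]⟩) (.R ⟨0,false,false,true,[0,0,0,0,1],[0,1],[0,0,1],(⟨0,
  [(24,0)]⟩,⟨0,[(23,0)]⟩),(⟨0,[(34,0)]⟩,⟨0,[(33,0)]⟩),⟨0,[(2,0)]⟩,.k,.k,(.r 0 ⟨4,[(1,2),(1,0),(4,1),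
  (1,2),(28,0)]⟩ ⟨1,[(7,0),(3,0),(10,0),(5,0),(11,0)]⟩),(.r 0 ⟨4,[(1,2),(1,0),(4,1),(1,2),(28,0)]⟩
  ⟨1,[(7,0),(3,0),(10,0),(5,0),(11,0)]⟩),.k,.k,⟨false,1,⟨1,[(38,1),(0,0),(0,0)]⟩,⟨0,[(37,0)]⟩⟩,
  ⟨true,1,⟨0,[(1,0)]⟩,⟨3,[(8,3),(1,1),(1,3),(19,0),(7,2)]⟩⟩,⟨false,1,⟨1,[(28,0),(0,0),(10,1)]⟩,⟨4,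
  [(0,0),(2,1),(6,0),(28,1)]⟩⟩,⟨true,1,⟨0,[(7,0)]⟩,⟨2,[(4,0),(3,1),(1,1)]⟩⟩,⟨false,0,⟨0,[]⟩,⟨0,[]⟩⟩,
  ⟨false,0,⟨0,[]⟩,⟨0,[]⟩⟩,[.o ⟨false,0,⟨0,[(37,0)]⟩,⟨3,[(10,1),(21,0),(7,2)]⟩⟩,.e ⟨false,1,⟨1,[(21,
  0),(0,0),(17,0)]⟩,⟨4,[(0,0),(2,1),(6,0),(28,1)]⟩⟩ ⟨false,1,⟨0,[(0,0),(5,0)]⟩,⟨1,[(10,0),(4,0),(6,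
  0),(17,0)]⟩⟩,.a ⟨true,(-1),⟨0,[(8,0)]⟩,⟨0,[(21,0)]⟩⟩ ⟨true,0,⟨1,[(28,0),(0,0)]⟩,⟨4,[(0,0),(2,1),
  (6,0),(28,1)]⟩⟩ ⟨false,1,⟨0,[(7,0)]⟩,⟨3,[(8,3),(1,1),(21,0),(7,2)]⟩⟩,.e ⟨false,1,⟨1,[(21,0),(0,0),
  (17,0)]⟩,⟨0,[]⟩⟩ ⟨false,1,⟨0,[(0,0),(5,0)]⟩,⟨5,[(8,3),(1,3),(1,1),(9,1),(5,0),(0,0),(10,
  5)]⟩⟩]⟩)))))) (.Q [0,0,0,-2,1,0,0,0,-1,-1,0,1] (.p true [0,0,0,0,1] [1] (⟨0,[(19,0)]⟩,⟨0,[(18,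
  0)]⟩) .k 1 (⟨0,[]⟩,⟨0,[]⟩) .k .k) (.R ⟨1,true,false,false,[1,-1],[0,0,0,0,1],[0,1,1],(⟨0,[(29,
  0)]⟩,⟨0,[(30,0)]⟩),(⟨0,[(20,0)]⟩,⟨0,[(19,0)]⟩),⟨0,[(15,0),(0,0)]⟩,.k,.k,(.r (-1) ⟨5,[(0,0),(0,4),
  (9,0),(5,0),(0,0),(12,1)]⟩ ⟨7,[(2,1),(0,1),(3,1),(0,5),(3,1),(0,1),(14,0),(7,4)]⟩),(.r (-1) ⟨3,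
  [(1,1),(15,0),(0,0),(17,0)]⟩ ⟨1,[(12,0),(0,0),(11,0)]⟩),(.r (-1) ⟨0,[(1,0)]⟩ ⟨1,[(7,1),(4,0),(0,
  0),(10,0)]⟩),.k,⟨true,0,⟨1,[(24,0),(0,0)]⟩,⟨0,[]⟩⟩,⟨false,0,⟨2,[(1,0),(0,1),(8,0),(23,1)]⟩,⟨3,[(0,
  1),(2,1),(4,1),(19,0),(7,0)]⟩⟩,⟨true,(-1),⟨0,[(8,0)]⟩,⟨7,[(1,3),(15,0),(0,0),(12,1),(3,2)]⟩⟩,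
  ⟨false,(-1),⟨0,[(2,0)]⟩,⟨3,[(0,1),(16,2),(0,0),(9,0),(7,1)]⟩⟩,⟨false,0,⟨7,[(2,1),(0,1),(3,1),(0,
  5),(3,1),(0,1),(14,0),(7,4)]⟩,⟨0,[(1,0)]⟩⟩,⟨true,(-1),⟨0,[(2,0),(30,0)]⟩,⟨0,[(0,0)]⟩⟩,[]⟩) (.Q [0,
  0,-1,0,0,0,0,0,0,1] (.pp false [-1,1]) (.S ⟨1,0,[0,1,-1,-2],[1,-1],[0,0,-1,-2],(⟨0,[(30,0)]⟩,⟨0,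
  [(31,0)]⟩),⟨0,[(16,0),(0,0)]⟩,.k,(.r (-1) ⟨6,[(2,5),(4,0),(4,0),(5,1),(0,0),(12,1)]⟩ ⟨13,[(1,1),
  (2,1),(3,3),(0,9),(3,3),(0,3),(14,0),(7,8)]⟩),⟨true,0,⟨0,[(35,0)]⟩,⟨0,[(34,0)]⟩⟩,⟨false,0,⟨0,[(35,
  0)]⟩,⟨9,[(1,1),(2,5),(14,3),(9,0),(7,4)]⟩⟩,⟨false,1,⟨1,[(18,0),(0,0),(17,0)]⟩,⟨0,[]⟩⟩,⟨true,0,⟨0,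
  [(39,0)]⟩,⟨0,[]⟩⟩,[.o ⟨false,0,⟨0,[(7,0)]⟩,⟨9,[(1,5),(2,7),(14,1),(9,2),(7,4)]⟩⟩,.e ⟨false,1,⟨0,
  [(2,0)]⟩,⟨9,[(1,1),(2,1),(3,3),(0,0),(3,3),(0,3),(14,0),(4,0)]⟩⟩ ⟨false,1,⟨6,[(2,5),(4,0),(4,0),
  (5,1),(0,0),(12,1)]⟩,⟨3,[(1,1),(2,1),(4,1),(19,0),(7,0)]⟩⟩,.a ⟨true,0,⟨1,[(25,0),(0,0)]⟩,⟨0,[(0,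
  0)]⟩⟩ ⟨false,1,⟨3,[(2,2),(4,0),(7,0),(10,1),(10,0)]⟩,⟨3,[(1,1),(2,1),(4,1),(19,0),(7,0)]⟩⟩ ⟨true,
  0,⟨0,[(0,0),(6,0)]⟩,⟨3,[(1,1),(2,1),(4,1),(19,0),(7,0)]⟩⟩,.o ⟨false,0,⟨3,[(7,1),(1,3),(19,0),(7,
  2)]⟩,⟨0,[(36,0)]⟩⟩]⟩) (.S ⟨1,0,[0,1,-1,-2],[1,-1],[1,0,-1,-1],(⟨0,[(30,0)]⟩,⟨0,[(31,0)]⟩),⟨0,[(16,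
  0),(0,0)]⟩,.k,(.r (-1) ⟨6,[(2,5),(4,0),(4,0),(5,1),(0,0),(12,1)]⟩ ⟨13,[(1,1),(2,1),(3,3),(0,9),(3,
  3),(0,3),(14,0),(7,8)]⟩),⟨true,0,⟨0,[]⟩,⟨0,[(39,0)]⟩⟩,⟨false,0,⟨0,[(35,0)]⟩,⟨9,[(1,1),(2,5),(14,
  3),(9,0),(7,4)]⟩⟩,⟨false,1,⟨9,[(1,1),(2,5),(14,3),(9,0),(7,4)]⟩,⟨0,[(35,0)]⟩⟩,⟨true,0,⟨0,[(39,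
  0)]⟩,⟨0,[]⟩⟩,[.o ⟨false,0,⟨0,[(7,0)]⟩,⟨9,[(1,5),(2,7),(14,1),(9,2),(7,4)]⟩⟩,.a ⟨true,0,⟨0,[(35,
  1)]⟩,⟨1,[(1,0),(2,1),(0,0)]⟩⟩ ⟨true,1,⟨3,[(2,1),(15,0),(0,0),(17,0)]⟩,⟨0,[(9,0)]⟩⟩ ⟨false,1,⟨6,
  [(2,5),(4,0),(4,0),(5,1),(0,0),(12,1)]⟩,⟨3,[(1,1),(2,1),(4,1),(19,0),(7,0)]⟩⟩,.o ⟨false,0,⟨0,[(0,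
  0)]⟩,⟨1,[(18,0),(0,0),(16,0)]⟩⟩,.o ⟨false,0,⟨1,[(0,1),(24,0),(0,0)]⟩,⟨0,[(36,0)]⟩⟩]⟩)))) (.R ⟨2,
  true,false,true,[0,1],[1,0,0,0,-1],[1,1,1,1],(⟨0,[]⟩,⟨0,[]⟩),(⟨0,[(17,0)]⟩,⟨0,[(18,0)]⟩),⟨0,[]⟩,
  .k,.k,.k,(.r 0 ⟨1,[(10,0),(0,0),(11,0)]⟩ ⟨1,[(32,1),(0,0),(0,0)]⟩),.k,.k,⟨false,0,⟨0,[(31,0)]⟩,⟨1,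
  [(32,1),(0,0),(0,0)]⟩⟩,⟨true,1,⟨5,[(0,3),(0,1),(4,1),(15,0),(0,0),(2,0),(7,0)]⟩,⟨0,[(2,0)]⟩⟩,
  ⟨false,0,⟨0,[]⟩,⟨1,[(15,0),(0,0),(17,0)]⟩⟩,⟨true,1,⟨0,[(0,0)]⟩,⟨0,[(8,0)]⟩⟩,⟨true,0,⟨0,[(31,0)]⟩,
  ⟨0,[(32,0)]⟩⟩,⟨false,2,⟨1,[(15,1),(10,0),(7,0)]⟩,⟨0,[(2,0)]⟩⟩,[]⟩)) (.R ⟨2,true,false,false,[0,1],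
  [0,0,0,0,1],[1,0,1,1],(⟨0,[]⟩,⟨0,[]⟩),(⟨0,[(17,0)]⟩,⟨0,[(16,0)]⟩),⟨0,[]⟩,.k,.k,.k,(.r (-1) ⟨3,[(4,
  1),(4,0),(0,0),(3,0),(0,0),(5,0),(11,2)]⟩ ⟨0,[(29,0),(1,1)]⟩),.k,.k,⟨false,1,⟨0,[(30,0),(2,0)]⟩,
  ⟨0,[(29,0),(1,1)]⟩⟩,⟨true,(-1),⟨3,[(0,1),(0,1),(3,1),(19,0),(7,0)]⟩,⟨0,[(14,0)]⟩⟩,⟨true,0,⟨0,[]⟩,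
  ⟨0,[(35,0)]⟩⟩,⟨false,(-1),⟨0,[(0,0)]⟩,⟨0,[(14,0),(15,0),(2,0)]⟩⟩,⟨false,1,⟨0,[(30,0),(2,0)]⟩,⟨0,
  [(31,0)]⟩⟩,⟨true,(-1),⟨5,[(0,3),(4,0),(1,1),(17,0),(2,0),(0,0)]⟩,⟨0,[(14,0)]⟩⟩,[]⟩)))))

theorem ok47 : chk K t47 l28 = true := by decide +kernel

noncomputable def t48 : Tre :=
  (.Q [0,0,0,0,0,-1,0,0,0,1,0,-1] (.ed true [0,1,0,0,1] .k) (.S ⟨1,0,[0,-1,0,-1],[1,0,0,0,-1],[1],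
  (⟨0,[(15,0)]⟩,⟨0,[(16,0)]⟩),⟨0,[(0,0)]⟩,.k,(.r (-1) ⟨5,[(2,1),(10,0),(0,0),(16,0),(0,3)]⟩ ⟨1,[(8,
  0),(0,0),(11,0)]⟩),⟨false,0,⟨0,[]⟩,⟨1,[(13,0),(0,0),(17,0)]⟩⟩,⟨true,0,⟨0,[(30,0)]⟩,⟨0,[(29,0)]⟩⟩,
  ⟨true,0,⟨0,[(29,0)]⟩,⟨0,[(30,0)]⟩⟩,⟨false,1,⟨1,[(13,0),(0,0),(17,0)]⟩,⟨0,[]⟩⟩,[.a ⟨true,1,⟨6,[(1,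
  3),(0,0),(10,2),(6,0),(0,0)]⟩,⟨0,[(6,0)]⟩⟩ ⟨true,0,⟨0,[]⟩,⟨1,[(20,0),(0,0)]⟩⟩ ⟨false,1,⟨5,[(2,1),
  (10,0),(0,0),(16,0),(0,3)]⟩,⟨0,[(29,0)]⟩⟩,.a ⟨true,1,⟨0,[(1,0)]⟩,⟨0,[(7,0),(21,0)]⟩⟩ ⟨false,1,⟨1,
  [(31,0),(0,0)]⟩,⟨0,[(34,0)]⟩⟩ ⟨true,1,⟨0,[(30,0),(1,0)]⟩,⟨5,[(2,0),(1,5),(22,0),(0,2)]⟩⟩,.o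
  ⟨false,1,⟨5,[(1,3),(0,0),(1,2),(8,1),(10,2),(3,3)]⟩,⟨0,[(14,0)]⟩⟩,.a ⟨true,0,⟨8,[(1,7),(0,1),(1,
  8),(8,0),(14,4)]⟩,⟨1,[(7,1),(23,0),(0,0)]⟩⟩ ⟨false,1,⟨1,[(31,0),(0,0)]⟩,⟨1,[(20,0),(0,0)]⟩⟩ ⟨true,
  1,⟨5,[(2,1),(10,0),(0,0),(16,0),(0,3)]⟩,⟨5,[(2,0),(1,5),(22,0),(0,2)]⟩⟩]⟩) (.R ⟨0,false,false,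
  false,[1,0,0,0,-1],[1,-1],[1,1,1],(⟨0,[(15,0)]⟩,⟨0,[(16,0)]⟩),(⟨0,[(25,0)]⟩,⟨0,[(26,0)]⟩),⟨0,[(0,
  0)]⟩,.k,.k,(.r (-1) ⟨5,[(2,1),(10,0),(0,0),(16,0),(0,3)]⟩ ⟨1,[(8,0),(0,0),(11,0)]⟩),(.r (-1) ⟨1,
  [(8,0),(0,0),(11,0),(10,1)]⟩ ⟨2,[(2,0),(24,0)]⟩),.k,.k,⟨true,(-1),⟨0,[(4,0)]⟩,⟨5,[(2,1),(10,0),(0,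
  0),(16,0),(0,3)]⟩⟩,⟨false,0,⟨0,[(14,0)]⟩,⟨8,[(1,3),(0,0),(10,4),(14,6)]⟩⟩,⟨true,(-1),⟨2,[(2,0),(1,
  2),(22,0)]⟩,⟨1,[(31,0),(0,0)]⟩⟩,⟨false,0,⟨0,[(14,0),(15,0)]⟩,⟨4,[(1,3),(2,2),(8,0),(14,5),(3,
  2)]⟩⟩,⟨false,0,⟨0,[]⟩,⟨0,[]⟩⟩,⟨false,0,⟨0,[]⟩,⟨0,[]⟩⟩,[.a ⟨true,0,⟨0,[(30,0)]⟩,⟨4,[(1,2),(2,0),(1,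
  4),(6,1),(14,1),(3,0)]⟩⟩ ⟨false,0,⟨0,[(34,0)]⟩,⟨1,[(31,0),(0,0)]⟩⟩ ⟨true,0,⟨0,[(14,0),(15,0)]⟩,⟨0,
  [(1,0),(2,0),(23,0)]⟩⟩,.o ⟨false,1,⟨1,[(24,0),(5,1),(1,0)]⟩,⟨0,[(29,0)]⟩⟩,.o ⟨false,1,⟨5,[(1,3),
  (0,0),(1,2),(8,1),(10,2),(3,3)]⟩,⟨0,[(14,0)]⟩⟩,.e ⟨false,0,⟨0,[]⟩,⟨1,[(13,0),(0,0),(17,0)]⟩⟩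
  ⟨false,1,⟨5,[(2,1),(10,0),(0,6),(16,0),(0,3)]⟩,⟨0,[(1,0),(2,0),(23,0)]⟩⟩]⟩))

theorem ok48 : chk K t48 l30 = true := by decide +kernel

noncomputable def t49 : Tre :=
  (.S ⟨1,0,[0,0,0,-1,0,0,0,-1],[1,0,-1],[0,1,0,-1,0,0,0,-1],(⟨0,[(22,0)]⟩,⟨0,[(23,0)]⟩),⟨0,[(11,
  0)]⟩,.k,.k,⟨false,0,⟨0,[(30,0)]⟩,⟨0,[(29,0),(2,0)]⟩⟩,⟨true,0,⟨0,[(30,0)]⟩,⟨0,[(29,0)]⟩⟩,⟨true,0,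
  ⟨0,[(34,0)]⟩,⟨0,[]⟩⟩,⟨false,1,⟨1,[(13,0),(0,0),(17,0)]⟩,⟨0,[]⟩⟩,[.o ⟨false,1,⟨1,[(19,1),(4,0),(5,
  1),(1,0)]⟩,⟨0,[(0,0),(4,0)]⟩⟩,.e ⟨false,1,⟨13,[(2,3),(0,1),(6,5),(8,13),(4,2),(6,1),(0,8)]⟩,⟨0,
  [(0,0)]⟩⟩ ⟨false,1,⟨0,[(3,0),(15,0),(12,0)]⟩,⟨2,[(0,1),(8,0),(11,0),(5,0)]⟩⟩,.o ⟨false,1,⟨1,[(21,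
  1),(2,0),(6,0)]⟩,⟨0,[(5,0)]⟩⟩,.a ⟨true,0,⟨0,[(21,0)]⟩,⟨0,[(17,0)]⟩⟩ ⟨true,0,⟨0,[(3,0),(15,0)]⟩,⟨2,
  [(0,1),(3,0),(13,0),(2,0),(10,0)]⟩⟩ ⟨false,1,⟨0,[(3,0),(15,0),(12,0)]⟩,⟨2,[(0,1),(3,0),(13,0),(2,
  0),(10,0)]⟩⟩]⟩)

theorem ok49 : chk K t49 l31 = true := by decide +kernel

noncomputable def t50 : Tre :=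
  (.S ⟨1,0,[0,0,0,-1,0,0,0,-1],[1,0,-1],[0,1,0,-1,0,0,0,-1],(⟨0,[(23,0)]⟩,⟨0,[(24,0)]⟩),⟨0,[(12,
  0)]⟩,.k,.k,⟨false,0,⟨0,[(31,0)]⟩,⟨0,[(30,0),(2,0)]⟩⟩,⟨true,0,⟨0,[(31,0)]⟩,⟨0,[(30,0)]⟩⟩,⟨true,0,
  ⟨0,[(35,0)]⟩,⟨0,[]⟩⟩,⟨false,1,⟨1,[(14,0),(0,0),(17,0)]⟩,⟨0,[]⟩⟩,[.o ⟨false,0,⟨0,[(0,0)]⟩,⟨1,[(10,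
  1),(3,0),(0,0),(17,0)]⟩⟩,.o ⟨false,1,⟨17,[(0,7),(0,3),(1,1),(16,5),(1,3),(2,4),(7,12)]⟩,⟨0,[(10,
  0)]⟩⟩,.o ⟨false,1,⟨1,[(22,1),(2,0),(6,0)]⟩,⟨0,[(6,0)]⟩⟩,.a ⟨true,0,⟨0,[(22,0)]⟩,⟨0,[(18,0)]⟩⟩
  ⟨false,0,⟨0,[(0,0),(17,0)]⟩,⟨0,[(10,0),(11,0),(10,0)]⟩⟩ ⟨true,0,⟨0,[(0,0),(17,0)]⟩,⟨0,[(10,0),(11,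
  0)]⟩⟩]⟩)

theorem ok50 : chk K t50 l32 = true := by decide +kernel

noncomputable def t51 : Tre :=
  (.Q [0,0,-1,0,0,0,0,0,0,1] (.pp false [-1,1]) (.S ⟨1,0,[0,1,-1,-2],[1,-1],[0,0,-1,-2],(⟨0,[(28,
  0)]⟩,⟨0,[(29,0)]⟩),⟨0,[(14,0),(0,0)]⟩,.k,(.r (-1) ⟨8,[(1,5),(3,1),(10,2),(0,2),(12,1)]⟩ ⟨0,[(7,0),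
  (24,0),(2,0)]⟩),⟨true,0,⟨0,[(33,0)]⟩,⟨0,[(32,0)]⟩⟩,⟨false,0,⟨0,[(33,0)]⟩,⟨0,[(32,0),(2,0)]⟩⟩,
  ⟨false,1,⟨1,[(16,0),(0,0),(17,0)]⟩,⟨0,[]⟩⟩,⟨true,0,⟨0,[(37,0)]⟩,⟨0,[]⟩⟩,[.o ⟨false,0,⟨1,[(5,0),(1,
  0),(19,0),(5,1)]⟩,⟨1,[(7,0),(23,1),(0,0),(2,2)]⟩⟩,.e ⟨false,1,⟨0,[(1,0)]⟩,⟨1,[(7,0),(24,2),(2,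
  0)]⟩⟩ ⟨false,1,⟨8,[(1,5),(3,1),(10,2),(0,2),(12,1)]⟩,⟨0,[(7,0),(23,0),(3,0)]⟩⟩,.a ⟨true,0,⟨1,[(23,
  0),(0,0)]⟩,⟨0,[(0,0)]⟩⟩ ⟨false,1,⟨5,[(5,3),(10,0),(0,0),(5,0),(0,0),(10,4)]⟩,⟨0,[(7,0),(23,0),(3,
  0)]⟩⟩ ⟨true,0,⟨5,[(5,3),(17,0),(0,0),(12,1)]⟩,⟨0,[(7,0),(23,0),(3,0)]⟩⟩,.o ⟨false,0,⟨1,[(7,1),(19,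
  0),(5,1),(1,0)]⟩,⟨0,[(34,0)]⟩⟩]⟩) (.Q [0,0,0,2,0,0,0,0,0,1] (.pp false [-1,1]) (.S ⟨1,0,[0,1,-1,
  -2],[1,-1],[1,0,-1,-1],(⟨0,[(29,0)]⟩,⟨0,[(30,0)]⟩),⟨0,[(15,0),(0,0)]⟩,.k,(.r (-1) ⟨8,[(2,5),(3,1),
  (10,2),(0,2),(12,1)]⟩ ⟨9,[(0,3),(2,1),(4,7),(3,1),(12,1),(2,2),(7,4)]⟩),⟨true,0,⟨0,[]⟩,⟨0,[(38,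
  0)]⟩⟩,⟨false,0,⟨0,[(34,0)]⟩,⟨3,[(0,1),(16,0),(0,0),(9,0),(7,1)]⟩⟩,⟨false,1,⟨3,[(0,1),(16,0),(0,0),
  (9,0),(7,1)]⟩,⟨0,[(34,0)]⟩⟩,⟨true,0,⟨0,[(38,0)]⟩,⟨0,[]⟩⟩,[.o ⟨false,0,⟨3,[(1,1),(4,2),(1,0),(15,
  0),(0,0),(2,0)]⟩,⟨1,[(0,1),(27,0),(7,0)]⟩⟩,.a ⟨true,0,⟨0,[(34,1)]⟩,⟨0,[(0,0)]⟩⟩ ⟨true,1,⟨3,[(2,1),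
  (14,0),(0,0),(17,0)]⟩,⟨0,[(8,0)]⟩⟩ ⟨false,1,⟨8,[(2,5),(3,1),(10,2),(0,2),(12,1)]⟩,⟨0,[(0,0),(0,
  0)]⟩⟩,.o ⟨false,0,⟨0,[(1,0)]⟩,⟨1,[(17,0),(0,0),(16,0)]⟩⟩,.o ⟨false,0,⟨1,[(1,1),(22,0),(0,0)]⟩,⟨0,
  [(35,0)]⟩⟩]⟩) (.Q [0,0,0,1,0,0,0,0,0,1] (.pp false [-1,1]) (.R ⟨2,true,false,false,[0,1],[1,-1],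
  [0,1,1],(⟨0,[]⟩,⟨0,[]⟩),(⟨0,[(30,0)]⟩,⟨0,[(31,0)]⟩),⟨0,[]⟩,.k,.k,.k,(.r 0 ⟨0,[(9,0),(24,0),(2,
  0)]⟩ ⟨8,[(3,5),(3,1),(10,2),(0,2),(12,1)]⟩),.k,.k,⟨true,(-1),⟨0,[(9,0)]⟩,⟨3,[(3,1),(14,0),(0,0),
  (17,0)]⟩⟩,⟨false,0,⟨0,[(2,0)]⟩,⟨2,[(0,1),(2,0),(8,0),(5,0),(17,1)]⟩⟩,⟨false,0,⟨0,[(35,0)]⟩,⟨0,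
  [(34,0),(2,0)]⟩⟩,⟨true,0,⟨0,[(1,0)]⟩,⟨0,[(0,0),(33,0)]⟩⟩,⟨true,0,⟨0,[(39,0)]⟩,⟨0,[]⟩⟩,⟨false,1,⟨3,
  [(1,1),(16,0),(0,0),(9,0),(7,1)]⟩,⟨0,[(0,0)]⟩⟩,[]⟩) (.Q [0,0,0,-1,0,0,-1,-1,0,0,1] (.p true [0,0,
  1] [] (⟨0,[(28,0)]⟩,⟨0,[(27,0)]⟩) .k 0 (⟨0,[]⟩,⟨0,[]⟩) .k .k) (.R ⟨2,true,false,false,[0,1],[0,1,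
  1],[0,1,1],(⟨0,[]⟩,⟨0,[]⟩),(⟨0,[(29,0),(2,0)]⟩,⟨0,[(17,0)]⟩),⟨0,[]⟩,.k,.k,.k,.k,.k,.k,⟨false,0,⟨5,
  [(6,5),(1,0),(24,0),(0,2)]⟩,⟨0,[(1,0),(3,0),(21,0),(6,0),(3,0)]⟩⟩,⟨true,0,⟨0,[(11,0)]⟩,⟨0,[(27,
  0)]⟩⟩,⟨false,0,⟨0,[(36,0)]⟩,⟨0,[(35,0),(2,0)]⟩⟩,⟨true,0,⟨0,[(1,0),(3,0)]⟩,⟨0,[(25,0)]⟩⟩,⟨true,0,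
  ⟨0,[(40,0)]⟩,⟨0,[]⟩⟩,⟨false,1,⟨1,[(5,1),(24,0),(7,0)]⟩,⟨0,[(0,0)]⟩⟩,[]⟩) (.S ⟨1,0,[0,0,0,-1,0,0,0,
  -1],[1,0,-1],[1,1,0,0,0,0,0,-1],(⟨0,[(28,0)]⟩,⟨0,[(29,0)]⟩),⟨0,[(17,0)]⟩,.k,.k,⟨false,0,⟨0,[]⟩,⟨1,
  [(19,0),(0,0),(17,0)]⟩⟩,⟨true,0,⟨0,[(36,0)]⟩,⟨0,[(35,0)]⟩⟩,⟨true,0,⟨0,[(35,0)]⟩,⟨0,[(36,0)]⟩⟩,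
  ⟨false,1,⟨1,[(19,0),(0,0),(17,0)]⟩,⟨0,[]⟩⟩,[.o ⟨false,1,⟨7,[(4,1),(1,3),(12,0),(0,0),(4,3),(1,3),
  (2,3),(7,0)]⟩,⟨0,[(0,0)]⟩⟩,.o ⟨false,1,⟨0,[(1,0),(23,0),(12,0)]⟩,⟨0,[(15,0)]⟩⟩,.o ⟨false,1,⟨1,
  [(27,1),(2,0),(6,0)]⟩,⟨0,[(11,0)]⟩⟩,.a ⟨true,0,⟨0,[(27,0)]⟩,⟨0,[(23,0)]⟩⟩ ⟨true,0,⟨0,[(6,0),(27,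
  0)]⟩,⟨1,[(0,0),(1,0),(2,0),(21,1)]⟩⟩ ⟨false,1,⟨1,[(6,1),(30,0),(0,0)]⟩,⟨0,[(0,0),(26,0)]⟩⟩]⟩)))))

theorem ok51 : chk K t51 l33 = true := by decide +kernel

noncomputable def t52 : Tre :=
  (.I [1,-1,-2,-2,1] (.N [0,2,0,0,1] 1 ⟨0,[(2,0)]⟩ ⟨0,[(0,0)]⟩ (.x (-1) ⟨0,[(18,0),(1,0),(9,1),(4,
  0)]⟩ ⟨0,[(1,0)]⟩)) (.Q [0,-1,0,-2,1,0,0,0,-1,-1,0,1] (.p true [0,0,0,0,1] [1] (⟨0,[(20,0)]⟩,⟨0,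
  [(19,0)]⟩) .k 1 (⟨0,[]⟩,⟨0,[]⟩) .k .k) (.R ⟨1,true,false,false,[1,-1],[0,0,0,0,1],[0,1,-1,-2],(⟨0,
  [(30,0)]⟩,⟨0,[(31,0)]⟩),(⟨0,[(21,0)]⟩,⟨0,[(20,0)]⟩),⟨0,[(16,0),(0,0)]⟩,.k,.k,(.r (-1) ⟨2,[(7,1),
  (10,0),(0,0),(16,0),(0,0)]⟩ ⟨5,[(3,3),(0,1),(8,1),(12,1),(2,0),(7,2)]⟩),(.r (-1) ⟨5,[(7,1),(10,0),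
  (0,0),(16,0),(0,3)]⟩ ⟨1,[(13,0),(0,0),(11,0)]⟩),(.r (-2) ⟨5,[(7,3),(10,4),(0,4),(16,1),(0,4)]⟩ ⟨0,
  [(1,0)]⟩),.k,⟨false,1,⟨2,[(7,1),(10,0),(0,0),(16,0),(0,0)]⟩,⟨2,[(3,1),(29,0),(0,0),(2,1)]⟩⟩,⟨true,
  0,⟨1,[(12,1),(23,0),(0,0)]⟩,⟨0,[(0,0),(2,0)]⟩⟩,⟨false,0,⟨0,[(35,0)]⟩,⟨0,[(34,0),(2,0)]⟩⟩,⟨true,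
  (-1),⟨0,[(11,0)]⟩,⟨12,[(0,8),(2,1),(14,3),(10,1),(2,2),(0,0)]⟩⟩,⟨true,0,⟨0,[(39,0)]⟩,⟨0,[]⟩⟩,
  ⟨false,0,⟨0,[(11,0),(22,0),(2,0)]⟩,⟨0,[(0,0)]⟩⟩,[]⟩) (.I [1,0,1,0,-1,0,0,-1] (.Q [0,0,0,-2,0,0,-1,
  -1,0,-1,1] (.p true [0,0,1] [1] (⟨0,[(29,0)]⟩,⟨0,[(28,0)]⟩) .k 1 (⟨0,[]⟩,⟨0,[]⟩) .k .k) (.Q [0,0,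
  -2,0,0,0,1,0,0,1,-1] (.p false [0,0,1] [1] (⟨0,[(30,0)]⟩,⟨0,[(29,0)]⟩) .k 1 (⟨0,[]⟩,⟨0,[]⟩) .k
  .k) (.R ⟨1,false,false,true,[1,-1],[0,0,1],[1,1,1],(⟨0,[(33,0)]⟩,⟨0,[(34,0)]⟩),(⟨0,[(31,0)]⟩,⟨0,
  [(30,0)]⟩),⟨0,[(19,0),(0,0)]⟩,.k,.k,(.r (-1) ⟨2,[(10,1),(10,0),(0,0),(16,0),(0,0)]⟩ ⟨5,[(6,3),(0,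
  1),(8,1),(12,1),(2,0),(7,2)]⟩),.k,(.r 0 ⟨0,[(0,0),(0,0)]⟩ ⟨3,[(7,5),(8,1),(12,5),(2,2),(7,0)]⟩),
  .k,⟨true,(-1),⟨0,[(2,0)]⟩,⟨1,[(26,1),(2,1),(9,0),(0,0)]⟩⟩,⟨false,0,⟨0,[(0,0)]⟩,⟨1,[(21,0),(0,0),
  (6,1),(2,0)]⟩⟩,⟨true,(-1),⟨0,[(12,0)]⟩,⟨5,[(10,1),(10,0),(0,0),(16,3),(0,0)]⟩⟩,⟨false,0,⟨0,[(7,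
  0)]⟩,⟨3,[(1,1),(25,1),(4,0),(7,2)]⟩⟩,⟨true,(-1),⟨0,[(6,0)]⟩,⟨2,[(10,1),(10,0),(0,0),(16,0),(0,
  0)]⟩⟩,⟨true,0,⟨0,[(7,0),(29,0)]⟩,⟨0,[(1,0)]⟩⟩,[.o ⟨false,0,⟨0,[(26,0)]⟩,⟨2,[(1,0),(0,0),(24,0),(1,
  0),(2,0),(3,1),(3,2)]⟩⟩,.e ⟨false,0,⟨0,[]⟩,⟨1,[(21,0),(0,0),(16,0)]⟩⟩ ⟨false,1,⟨5,[(7,5),(2,1),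
  (10,0),(0,0),(16,3),(0,0)]⟩,⟨11,[(1,1),(0,7),(24,1),(1,7),(2,4),(3,3),(3,2)]⟩⟩,.a ⟨true,0,⟨1,[(28,
  0),(0,0)]⟩,⟨0,[(0,0),(28,0)]⟩⟩ ⟨false,0,⟨1,[(28,0),(0,0)]⟩,⟨1,[(39,0),(0,0)]⟩⟩ ⟨true,0,⟨2,[(7,2),
  (2,0),(24,0)]⟩,⟨11,[(1,1),(0,7),(24,1),(1,7),(2,4),(3,3),(3,2)]⟩⟩,.o ⟨false,0,⟨1,[(12,1),(19,0),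
  (5,1),(1,0)]⟩,⟨0,[(39,0)]⟩⟩]⟩) (.R ⟨1,true,false,true,[1,-1],[0,0,1],[0,0,-1,-2],(⟨0,[(33,0)]⟩,⟨0,
  [(34,0)]⟩),(⟨0,[(31,0)]⟩,⟨0,[(30,0)]⟩),⟨0,[(19,0),(0,0)]⟩,.k,.k,(.r (-1) ⟨2,[(10,1),(10,0),(0,0),
  (16,0),(0,0)]⟩ ⟨6,[(0,1),(5,3),(0,1),(8,1),(20,1),(2,3)]⟩),.k,(.r 0 ⟨0,[(2,0),(7,0),(25,0),(3,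
  0)]⟩ ⟨1,[(0,1),(6,1),(13,0),(0,0),(14,1),(2,0)]⟩),.k,⟨false,1,⟨3,[(2,1),(5,1),(1,1),(28,2),(0,
  2)]⟩,⟨0,[(0,0),(6,0),(28,0)]⟩⟩,⟨true,0,⟨0,[(25,0)]⟩,⟨0,[(0,0)]⟩⟩,⟨true,0,⟨0,[(38,0)]⟩,⟨0,[(37,
  0)]⟩⟩,⟨false,0,⟨0,[(7,0)]⟩,⟨3,[(1,1),(25,1),(4,0),(7,2)]⟩⟩,⟨false,1,⟨1,[(21,0),(0,0),(17,0)]⟩,⟨0,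
  []⟩⟩,⟨true,0,⟨0,[(7,0),(29,0)]⟩,⟨0,[(1,0)]⟩⟩,[]⟩)) (.S ⟨1,0,[0,0,0,-1,0,0,0,1],[0,0,1],[1,1,1],
  (⟨0,[(30,0)]⟩,⟨0,[(29,0)]⟩),⟨0,[(19,0)]⟩,.k,.k,⟨false,(-1),⟨0,[(1,0)]⟩,⟨0,[(25,0),(2,0),(9,0),(0,
  0)]⟩⟩,⟨true,0,⟨0,[(37,0)]⟩,⟨0,[(36,0)]⟩⟩,⟨true,(-1),⟨8,[(1,6),(3,1),(9,1),(18,0),(0,2)]⟩,⟨1,[(0,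
  1),(8,1),(18,1),(2,0),(7,0)]⟩⟩,⟨false,1,⟨1,[(20,0),(0,0),(17,0)]⟩,⟨0,[]⟩⟩,[.e ⟨false,0,⟨0,[(41,
  0)]⟩,⟨1,[(38,0),(0,0)]⟩⟩ ⟨false,1,⟨1,[(0,1),(8,1),(18,1),(2,0),(7,0)]⟩,⟨5,[(1,3),(13,1),(19,3),(2,
  0),(0,2)]⟩⟩,.o ⟨false,1,⟨0,[(25,0),(11,0),(1,0)]⟩,⟨1,[(1,1),(26,1),(2,0),(3,1),(2,0)]⟩⟩,.o ⟨false,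
  0,⟨0,[(12,0)]⟩,⟨1,[(28,1),(2,0),(6,0)]⟩⟩,.a ⟨true,(-1),⟨0,[(1,0),(4,0),(30,0)]⟩,⟨0,[(28,0),(9,
  0)]⟩⟩ ⟨false,0,⟨0,[]⟩,⟨1,[(20,0),(0,0),(17,0)]⟩⟩ ⟨true,1,⟨1,[(0,1),(8,1),(18,1),(2,0),(7,0)]⟩,⟨8,
  [(1,6),(3,1),(9,1),(18,0),(0,2)]⟩⟩]⟩)) (.I [1,1,0,0,-1,0,0,-1] (.Q [0,0,1,0,-1,0,1,0,0,1,-1] (.p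
  false [0,0,1] [1] (⟨0,[(30,0)]⟩,⟨0,[(29,0)]⟩) .k 1 (⟨0,[]⟩,⟨0,[]⟩) .k .k) (.S ⟨1,0,[0,0,0,-1,0,0,
  0,1],[0,0,1],[1,1,0,0,0,0,0,1],(⟨0,[(31,0)]⟩,⟨0,[(30,0)]⟩),⟨0,[(20,0)]⟩,.k,.k,⟨false,0,⟨0,[]⟩,⟨1,
  [(21,0),(0,0),(17,0)]⟩⟩,⟨true,0,⟨0,[(38,0)]⟩,⟨0,[(37,0)]⟩⟩,⟨true,0,⟨0,[(37,0)]⟩,⟨0,[(38,0)]⟩⟩,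
  ⟨false,1,⟨1,[(21,0),(0,0),(17,0)]⟩,⟨0,[]⟩⟩,[.e ⟨false,1,⟨0,[(2,0),(39,0)]⟩,⟨0,[(1,0),(38,0)]⟩⟩
  ⟨false,1,⟨0,[(2,0),(35,0)]⟩,⟨9,[(1,6),(4,0),(9,2),(19,4),(3,7)]⟩⟩,.o ⟨false,1,⟨0,[(26,0),(11,0),
  (1,0)]⟩,⟨1,[(1,1),(27,1),(2,0),(3,1),(3,0)]⟩⟩,.o ⟨false,0,⟨0,[(13,0)]⟩,⟨1,[(29,1),(2,0),(6,0)]⟩⟩,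
  .a ⟨true,(-1),⟨0,[(0,0)]⟩,⟨0,[(29,0),(9,0)]⟩⟩ ⟨false,1,⟨0,[(2,0)]⟩,⟨1,[(1,0),(6,0),(3,0),(27,
  1)]⟩⟩ ⟨true,1,⟨0,[(2,0),(35,0)]⟩,⟨4,[(1,3),(4,1),(9,0),(23,0)]⟩⟩]⟩) (.I [0,-1,0,-1,1,0,0,1] (.S
  ⟨1,0,[0,0,1,0,0,0,0,-1],[1,1,-1],[1,1,1,1,0,0,0,-1],(⟨0,[(31,0),(3,0)]⟩,⟨0,[(21,0)]⟩),⟨0,[(31,
  0)]⟩,.k,.k,⟨false,0,⟨0,[]⟩,⟨5,[(0,1),(16,1),(22,0),(0,2)]⟩⟩,⟨true,0,⟨0,[(39,0)]⟩,⟨0,[(38,0)]⟩⟩,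
  ⟨true,0,⟨0,[(38,0)]⟩,⟨0,[(39,0)]⟩⟩,⟨false,1,⟨5,[(0,1),(16,1),(22,0),(0,2)]⟩,⟨0,[]⟩⟩,[.a ⟨true,0,
  ⟨1,[(2,1),(27,1),(9,0),(0,0)]⟩,⟨0,[(8,0),(30,0)]⟩⟩ ⟨true,(-1),⟨4,[(2,3),(4,1),(9,0),(23,0)]⟩,⟨0,
  [(0,0)]⟩⟩ ⟨false,0,⟨7,[(2,3),(6,1),(7,1),(22,0),(0,2)]⟩,⟨0,[(3,0)]⟩⟩,.o ⟨false,1,⟨2,[(1,0),(0,1),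
  (25,0),(1,0),(2,0),(7,2)]⟩,⟨0,[(27,0)]⟩⟩,.o ⟨false,1,⟨0,[(1,0)]⟩,⟨0,[(29,0)]⟩⟩,.o ⟨false,1,⟨4,[(0,
  0),(0,2),(15,0),(12,1),(2,0)]⟩,⟨0,[(14,0)]⟩⟩]⟩) (.Q [0,0,-2,0,0,0,1,0,0,1,-1] (.p false [0,0,1]
  [1] (⟨0,[(32,0)]⟩,⟨0,[(31,0)]⟩) .k 1 (⟨0,[]⟩,⟨0,[]⟩) .k .k) (.Q [0,0,0,-2,0,0,-1,-1,0,-1,1] (.p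
  true [0,0,1] [1] (⟨0,[(33,0)]⟩,⟨0,[(32,0)]⟩) .k 1 (⟨0,[]⟩,⟨0,[]⟩) .k .k) (.R ⟨1,false,false,true,
  [1,-1],[0,0,1],[1,1,0,0,0,0,0,1],(⟨0,[(36,0)]⟩,⟨0,[(37,0)]⟩),(⟨0,[(34,0)]⟩,⟨0,[(33,0)]⟩),⟨0,[(22,
  0),(0,0)]⟩,.k,.k,(.r (-1) ⟨3,[(5,1),(5,1),(1,1),(28,0),(0,0)]⟩ ⟨2,[(5,0),(3,1),(5,0),(3,0),(23,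
  1)]⟩),.k,(.r 0 ⟨0,[(0,0),(0,0)]⟩ ⟨1,[(5,2),(9,2),(3,0),(23,1)]⟩),.k,⟨true,0,⟨0,[]⟩,⟨1,[(31,0),(0,
  0)]⟩⟩,⟨false,0,⟨0,[(1,0)]⟩,⟨1,[(24,0),(0,0),(6,1),(2,0)]⟩⟩,⟨true,0,⟨0,[(5,0),(9,0)]⟩,⟨9,[(0,3),(0,
  3),(0,1),(8,3),(30,0),(0,0)]⟩⟩,⟨false,0,⟨0,[(10,0)]⟩,⟨3,[(0,1),(29,1),(4,0),(7,2)]⟩⟩,⟨true,0,⟨0,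
  [(5,0),(3,0)]⟩,⟨0,[(0,0),(27,0)]⟩⟩,⟨true,0,⟨0,[(10,0),(29,0)]⟩,⟨0,[(0,0)]⟩⟩,[.o ⟨false,0,⟨0,[(29,
  0)]⟩,⟨13,[(0,3),(1,3),(0,3),(5,1),(20,5),(4,2),(7,12)]⟩⟩,.e ⟨false,1,⟨0,[(5,0)]⟩,⟨11,[(2,3),(8,5),
  (7,1),(22,0),(0,2)]⟩⟩ ⟨false,1,⟨0,[(5,0),(22,0)]⟩,⟨27,[(0,17),(1,3),(0,3),(5,15),(20,5),(4,2),(7,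
  12)]⟩⟩,.a ⟨true,0,⟨1,[(31,0),(0,0)]⟩,⟨0,[(1,0),(30,0)]⟩⟩ ⟨false,1,⟨1,[(5,1),(25,0),(0,0)]⟩,⟨0,[(4,
  0),(38,0)]⟩⟩ ⟨true,0,⟨2,[(10,2),(2,0),(24,0)]⟩,⟨27,[(0,17),(1,3),(0,3),(5,15),(20,5),(4,2),(7,
  12)]⟩⟩,.o ⟨false,0,⟨3,[(0,1),(14,3),(13,1),(5,0),(7,2)]⟩,⟨0,[(42,0)]⟩⟩]⟩) (.Q [0,-2,0,0,2,0,0,0,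
  -2,-1,0,2] (.p true [0,0,0,0,1] [1,0,0,0,-1] (⟨0,[(27,0)]⟩,⟨0,[(26,0)]⟩) .k 2 (⟨0,[(26,0)]⟩,⟨0,
  [(27,0)]⟩) .k (.r 0 ⟨0,[(45,1)]⟩ ⟨0,[(43,0)]⟩)) (.Q [0,0,0,0,0,1,0,0,0,0,0,-1] (.ed true [1,-1,0,
  0,1] .k) (.Q [0,0,-1,0,1,0,0,0,-1,-1,0,1] (.p true [0,0,0,0,1] [1] (⟨0,[(29,0)]⟩,⟨0,[(28,0)]⟩) .k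
  1 (⟨0,[]⟩,⟨0,[]⟩) .k .k) (.R ⟨0,false,false,true,[0,0,0,0,1],[0,1],[1,1,1,1],(⟨0,[(30,0)]⟩,⟨0,
  [(29,0)]⟩),(⟨0,[(40,0)]⟩,⟨0,[(39,0)]⟩),⟨0,[(1,0)]⟩,.k,.k,(.r 0 ⟨2,[(16,0),(24,0)]⟩ ⟨1,[(8,0),(9,
  0),(3,0),(23,1)]⟩),(.r 0 ⟨2,[(16,0),(24,0)]⟩ ⟨1,[(8,0),(9,0),(3,0),(23,1)]⟩),.k,.k,⟨true,0,⟨0,[]⟩,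
  ⟨1,[(34,0),(0,0)]⟩⟩,⟨false,1,⟨0,[(0,0),(3,0),(30,0)]⟩,⟨1,[(28,1),(5,0),(0,0)]⟩⟩,⟨true,0,⟨11,[(3,
  1),(8,1),(5,1),(3,1),(12,1),(2,0),(7,2)]⟩,⟨2,[(16,0),(24,0)]⟩⟩,⟨false,1,⟨3,[(2,2),(6,1),(26,0),(0,
  0)]⟩,⟨0,[(28,0),(15,0)]⟩⟩,⟨false,0,⟨0,[]⟩,⟨0,[]⟩⟩,⟨false,0,⟨0,[]⟩,⟨0,[]⟩⟩,[.o ⟨false,0,⟨0,[(43,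
  0)]⟩,⟨1,[(38,0),(5,1),(1,0)]⟩⟩,.a ⟨true,0,⟨3,[(2,0),(6,1),(26,2),(0,2)]⟩,⟨0,[(44,0)]⟩⟩ ⟨true,0,
  ⟨11,[(3,1),(8,1),(5,1),(3,1),(12,1),(2,0),(7,2)]⟩,⟨0,[(44,0)]⟩⟩ ⟨false,1,⟨6,[(2,2),(0,0),(0,1),
  (22,0),(5,0),(1,1),(6,4)]⟩,⟨0,[(28,0),(15,0)]⟩⟩,.o ⟨false,0,⟨0,[(28,0)]⟩,⟨11,[(2,5),(13,0),(1,2),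
  (19,2),(2,3)]⟩⟩,.o ⟨false,0,⟨1,[(28,1),(5,0),(0,0)]⟩,⟨0,[(0,0)]⟩⟩]⟩) (.R ⟨0,false,false,false,[0,
  0,0,0,1],[1,-1],[1,1,1],(⟨0,[(30,0)]⟩,⟨0,[(29,0)]⟩),(⟨0,[(39,0)]⟩,⟨0,[(40,0)]⟩),⟨0,[(1,0)]⟩,.k,.k,
  (.r 0 ⟨2,[(16,0),(24,0)]⟩ ⟨1,[(8,0),(9,0),(3,0),(23,1)]⟩),(.r 0 ⟨1,[(8,0),(9,0),(3,0)]⟩ ⟨7,[(8,1),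
  (5,1),(1,1),(28,0),(0,4)]⟩),.k,.k,⟨true,(-1),⟨0,[(18,0)]⟩,⟨7,[(8,1),(5,1),(1,1),(28,0),(0,4)]⟩⟩,
  ⟨false,1,⟨11,[(2,5),(13,0),(1,2),(19,2),(2,3)]⟩,⟨1,[(21,1),(23,0),(0,0)]⟩⟩,⟨true,0,⟨1,[(34,0),(0,
  0)]⟩,⟨5,[(16,0),(24,0),(0,2)]⟩⟩,⟨false,2,⟨17,[(2,7),(13,5),(10,1),(6,5),(0,5),(2,4),(7,12)]⟩,⟨0,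
  [(20,0)]⟩⟩,⟨false,0,⟨0,[]⟩,⟨0,[]⟩⟩,⟨false,0,⟨0,[]⟩,⟨0,[]⟩⟩,[.e ⟨false,0,⟨0,[(48,0)]⟩,⟨1,[(45,0),
  (0,0)]⟩⟩ ⟨false,1,⟨1,[(2,0),(3,0),(5,0),(3,0),(0,0)]⟩,⟨2,[(8,0),(0,0),(11,1),(0,0),(23,1)]⟩⟩,.o
  ⟨false,1,⟨1,[(38,0),(5,1),(1,0)]⟩,⟨0,[(43,0)]⟩⟩,.o ⟨false,0,⟨0,[(28,0)]⟩,⟨11,[(2,5),(13,0),(1,2),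
  (19,2),(2,3)]⟩⟩,.a ⟨true,(-1),⟨0,[(0,0)]⟩,⟨6,[(2,1),(1,1),(11,0),(10,2),(7,1),(6,2)]⟩⟩ ⟨false,0,
  ⟨0,[]⟩,⟨1,[(27,0),(0,0),(17,0)]⟩⟩ ⟨true,1,⟨1,[(2,0),(3,0),(5,0),(3,0),(0,0)]⟩,⟨3,[(0,1),(7,0),(0,
  0),(8,0),(2,0),(0,0)]⟩⟩]⟩)) (.Q [0,0,-1,0,1,0,0,0,-1,-1,0,1] (.p true [0,0,0,0,1] [1] (⟨0,[(29,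
  0)]⟩,⟨0,[(28,0)]⟩) .k 1 (⟨0,[]⟩,⟨0,[]⟩) .k .k) (.S ⟨1,0,[0,2,0,-1],[0,0,0,0,1],[1,1],(⟨0,[(30,
  0)]⟩,⟨0,[(29,0)]⟩),⟨0,[(1,0)]⟩,.k,(.r 0 ⟨2,[(16,0),(24,0)]⟩ ⟨1,[(8,0),(9,0),(3,0),(23,1)]⟩),⟨true,
  0,⟨0,[]⟩,⟨0,[(48,0)]⟩⟩,⟨false,0,⟨0,[(44,0)]⟩,⟨2,[(3,0),(2,0),(15,0),(23,1)]⟩⟩,⟨false,1,⟨2,[(3,0),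
  (2,0),(15,0),(23,1)]⟩,⟨0,[(44,0)]⟩⟩,⟨true,0,⟨0,[(48,0)]⟩,⟨0,[]⟩⟩,[.o ⟨false,(-1),⟨2,[(15,0),(0,1),
  (1,1),(9,1)]⟩,⟨8,[(2,5),(0,0),(2,0),(2,2),(12,0),(15,2),(7,4)]⟩⟩,.a ⟨true,(-1),⟨0,[(21,0),(22,
  0)]⟩,⟨3,[(2,2),(6,1),(26,0),(0,0)]⟩⟩ ⟨true,0,⟨0,[]⟩,⟨1,[(34,0),(0,0)]⟩⟩ ⟨false,0,⟨2,[(16,0),(24,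
  0)]⟩,⟨2,[(3,0),(2,0),(15,0),(23,1)]⟩⟩,.o ⟨false,0,⟨0,[(28,0)]⟩,⟨11,[(2,5),(13,0),(1,2),(19,2),(2,
  3)]⟩⟩,.o ⟨false,0,⟨1,[(28,1),(5,0),(0,0)]⟩,⟨0,[(0,0)]⟩⟩]⟩) (.S ⟨1,0,[0,1,0,-1],[0,0,0,0,1],[1,2],
  (⟨0,[(30,0)]⟩,⟨0,[(29,0)]⟩),⟨0,[(1,0)]⟩,.k,(.r 0 ⟨2,[(16,0),(24,0)]⟩ ⟨1,[(8,0),(9,0),(3,0),(23,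
  1)]⟩),⟨false,0,⟨0,[]⟩,⟨1,[(27,0),(0,0),(17,0)]⟩⟩,⟨true,0,⟨0,[(44,0)]⟩,⟨0,[(43,0)]⟩⟩,⟨true,0,⟨0,
  [(43,0)]⟩,⟨0,[(44,0)]⟩⟩,⟨false,1,⟨1,[(27,0),(0,0),(17,0)]⟩,⟨0,[]⟩⟩,[.e ⟨false,0,⟨0,[(41,0)]⟩,⟨0,
  [(46,0)]⟩⟩ ⟨false,0,⟨2,[(16,0),(24,0)]⟩,⟨2,[(3,0),(2,0),(15,0),(23,1)]⟩⟩,.o ⟨false,0,⟨0,[(28,0),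
  (15,0)]⟩,⟨7,[(2,3),(9,1),(25,1),(2,0),(0,2),(0,0)]⟩⟩,.o ⟨false,0,⟨0,[(28,0)]⟩,⟨11,[(2,5),(13,0),
  (1,2),(19,2),(2,3)]⟩⟩,.a ⟨true,(-1),⟨0,[(0,0)]⟩,⟨6,[(2,1),(1,1),(11,0),(10,2),(7,1),(6,2)]⟩⟩
  ⟨false,0,⟨5,[(16,0),(24,0),(0,2)]⟩,⟨1,[(34,0),(0,0),(10,1)]⟩⟩ ⟨true,0,⟨2,[(16,0),(24,0)]⟩,⟨11,[(3,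
  1),(8,1),(5,1),(3,1),(12,1),(2,0),(7,2)]⟩⟩]⟩))) (.Q [0,0,0,0,-1,0,1,0,1,1,-1,-1] (.p false [0,0,
  1] [1,0,0,0,-1] (⟨0,[(35,0)]⟩,⟨0,[(34,0)]⟩) .k 2 (⟨0,[(27,0)]⟩,⟨0,[(28,0)]⟩) .k (.r (-1) ⟨1,[(6,
  1),(25,0),(0,0),(12,1)]⟩ ⟨0,[(5,0),(38,0)]⟩)) (.Q [0,-1,0,-1,1,0,0,0,-1,0,0,1] (.p true [0,0,0,0,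
  1] [] (⟨0,[(29,0)]⟩,⟨0,[(28,0)]⟩) .k 0 (⟨0,[]⟩,⟨0,[]⟩) .k .k) (.S ⟨1,0,[0,-1,0,-1],[1,0,0,0,-1],
  [1],(⟨0,[(29,0)]⟩,⟨0,[(30,0)]⟩),⟨3,[(2,0),(1,1),(1,0),(4,1),(17,1),(5,0),(10,0)]⟩,.k,(.r (-1) ⟨7,
  [(8,1),(5,1),(1,1),(28,0),(0,4)]⟩ ⟨1,[(8,0),(9,0),(3,0)]⟩),⟨false,0,⟨0,[]⟩,⟨1,[(27,0),(0,0),(17,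
  0)]⟩⟩,⟨true,0,⟨0,[(44,0)]⟩,⟨0,[(43,0)]⟩⟩,⟨true,0,⟨0,[(43,0)]⟩,⟨0,[(44,0)]⟩⟩,⟨false,1,⟨1,[(27,0),
  (0,0),(17,0)]⟩,⟨0,[]⟩⟩,[.a ⟨true,1,⟨0,[(0,0)]⟩,⟨0,[(20,0)]⟩⟩ ⟨true,0,⟨0,[]⟩,⟨1,[(34,0),(0,0)]⟩⟩
  ⟨false,1,⟨7,[(8,1),(5,1),(1,1),(28,0),(0,4)]⟩,⟨0,[(43,0)]⟩⟩,.o ⟨false,2,⟨1,[(0,1),(37,0),(7,0)]⟩,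
  ⟨0,[(15,0)]⟩⟩,.o ⟨false,1,⟨0,[(0,0),(5,0),(5,0),(4,0)]⟩,⟨0,[(28,0)]⟩⟩,.o ⟨false,1,⟨1,[(0,0),(17,
  0),(8,0),(10,0)]⟩,⟨0,[(1,0),(4,0)]⟩⟩]⟩) (.Q [0,0,0,0,1,0,0,0,-1,-1,0,1] (.p true [0,0,0,0,1] [1]
  (⟨0,[(30,0)]⟩,⟨0,[(29,0)]⟩) .k 1 (⟨0,[]⟩,⟨0,[]⟩) .k .k) (.R ⟨2,false,false,false,[0,1],[0,0,0,0,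
  1],[1,1,1,1],(⟨0,[]⟩,⟨0,[]⟩),(⟨0,[(31,0)]⟩,⟨0,[(30,0)]⟩),⟨0,[]⟩,.k,.k,.k,(.r (-1) ⟨1,[(9,0),(9,0),
  (3,0),(23,1)]⟩ ⟨2,[(17,0),(24,0)]⟩),.k,.k,⟨true,0,⟨11,[(4,1),(8,1),(5,1),(3,1),(12,1),(2,0),(7,
  2)]⟩,⟨0,[(45,0)]⟩⟩,⟨false,0,⟨0,[(29,0)]⟩,⟨0,[(0,0),(4,0),(30,0)]⟩⟩,⟨false,0,⟨0,[]⟩,⟨1,[(28,0),(0,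
  0),(17,0)]⟩⟩,⟨true,(-1),⟨0,[(1,0),(43,1)]⟩,⟨5,[(0,0),(3,1),(1,1),(0,0),(20,4),(7,0),(10,0)]⟩⟩,
  ⟨true,0,⟨0,[(44,0)]⟩,⟨0,[(45,0)]⟩⟩,⟨true,(-1),⟨0,[(1,0),(43,0)]⟩,⟨0,[(28,0)]⟩⟩,[.o ⟨false,(-1),⟨0,
  [(1,0),(43,0)]⟩,⟨1,[(28,1),(10,0),(7,0)]⟩⟩,.o ⟨false,0,⟨0,[(29,0)]⟩,⟨0,[(0,0)]⟩⟩,.a ⟨true,0,⟨0,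
  [(5,0),(30,0)]⟩,⟨1,[(35,0),(0,0)]⟩⟩ ⟨false,0,⟨11,[(4,1),(8,1),(5,1),(3,1),(12,1),(2,0),(7,2)]⟩,⟨7,
  [(9,1),(5,1),(1,1),(28,0),(0,4)]⟩⟩ ⟨true,(-1),⟨3,[(3,1),(15,1),(19,0),(5,1),(1,0)]⟩,⟨0,[(0,0),(4,
  0),(30,0)]⟩⟩,.e ⟨true,0,⟨0,[(44,0)]⟩,⟨0,[(45,0)]⟩⟩ ⟨true,(-1),⟨0,[(1,0),(43,0)]⟩,⟨0,[(28,0)]⟩⟩]⟩)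
  (.R ⟨2,true,false,true,[0,1],[1,0,0,0,-1],[1,1,1,1],(⟨0,[]⟩,⟨0,[]⟩),(⟨0,[(30,0)]⟩,⟨0,[(31,0)]⟩),
  ⟨0,[]⟩,.k,.k,.k,(.r 0 ⟨1,[(9,0),(9,0),(3,0)]⟩ ⟨7,[(9,1),(5,1),(1,1),(28,0),(0,4)]⟩),.k,.k,⟨false,
  0,⟨0,[(44,0)]⟩,⟨7,[(9,1),(5,1),(1,1),(28,0),(0,4)]⟩⟩,⟨true,1,⟨1,[(12,0),(15,0),(2,0),(7,0),(1,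
  1)]⟩,⟨0,[(0,0)]⟩⟩,⟨false,0,⟨0,[]⟩,⟨1,[(28,0),(0,0),(17,0)]⟩⟩,⟨true,1,⟨0,[(7,0),(4,0),(5,0),(12,0),
  (9,1)]⟩,⟨0,[(21,0)]⟩⟩,⟨true,0,⟨0,[(44,0)]⟩,⟨0,[(45,0)]⟩⟩,⟨false,2,⟨1,[(28,1),(10,0),(7,0)]⟩,⟨0,
  [(0,0)]⟩⟩,[]⟩))) (.Q [0,0,0,0,0,2,0,0,0,0,-1] (.p false [0,0,1] [] (⟨0,[(36,0)]⟩,⟨0,[(35,0)]⟩) .k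
  0 (⟨0,[]⟩,⟨0,[]⟩) .k .k) (.Q [0,0,-2,-1,1,0,-2,-1,0,-1,2] (.p true [0,0,1] [1,0,-1] (⟨0,[(37,0)]⟩,
  ⟨0,[(36,0)]⟩) .k 2 (⟨0,[(36,0)]⟩,⟨0,[(37,0)]⟩) .k (.r (-2) ⟨0,[(8,1),(25,0),(0,0)]⟩ ⟨0,[(7,1),(38,
  0)]⟩)) (.R ⟨0,false,false,false,[0,-1,1],[1,-1,-1],[],(⟨0,[(27,0)]⟩,⟨1,[(1,0),(35,1),(0,0)]⟩),(⟨0,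
  [(26,0)]⟩,⟨1,[(1,0),(36,2)]⟩),⟨0,[(1,0)]⟩,.k,.k,(.r (-2) ⟨5,[(9,5),(7,3),(10,3),(0,3),(5,0),(0,0),
  (10,1)]⟩ ⟨0,[(6,0),(12,0),(27,0)]⟩),.k,.k,.k,⟨false,1,⟨5,[(4,1),(4,4),(9,0),(3,0),(12,1),(2,0),(7,
  0)]⟩,⟨11,[(0,1),(4,1),(2,4),(6,4),(1,0),(0,1),(28,2)]⟩⟩,⟨true,1,⟨0,[(7,0),(28,0)]⟩,⟨0,[(5,0),(12,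
  0),(0,1),(25,0),(1,0)]⟩⟩,⟨false,0,⟨8,[(6,5),(8,1),(3,3),(3,0),(23,9)]⟩,⟨0,[(9,0),(35,0)]⟩⟩,⟨true,
  0,⟨0,[(0,0),(7,0),(10,0),(27,0)]⟩,⟨0,[(14,0),(18,0),(11,0)]⟩⟩,⟨false,0,⟨0,[]⟩,⟨0,[]⟩⟩,⟨false,0,⟨0,
  []⟩,⟨0,[]⟩⟩,[.e ⟨false,1,⟨7,[(0,1),(8,3),(13,1),(1,1),(20,0),(0,0)]⟩,⟨0,[]⟩⟩ ⟨false,1,⟨0,[(0,0)]⟩,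
  ⟨0,[(14,0),(20,0)]⟩⟩,.o ⟨false,1,⟨7,[(0,1),(7,1),(6,3),(20,3),(2,2),(5,1),(1,4)]⟩,⟨0,[(24,0)]⟩⟩,
  .o ⟨false,0,⟨0,[(35,0)]⟩,⟨0,[(7,0)]⟩⟩,.a ⟨true,(-1),⟨0,[(5,0),(13,1),(25,1),(1,0)]⟩,⟨0,[(0,0),(13,
  0)]⟩⟩ ⟨false,1,⟨1,[(46,0),(0,0)]⟩,⟨1,[(35,0),(0,0)]⟩⟩ ⟨true,1,⟨0,[(0,0)]⟩,⟨1,[(14,1),(3,0),(0,1),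
  (15,0),(9,0)]⟩⟩]⟩) (.R ⟨0,false,false,false,[0,-1,1],[1,0,0,0,-1],[0,-1,1],(⟨0,[(27,0)]⟩,⟨1,[(1,
  0),(35,1),(0,0)]⟩),(⟨0,[(30,0)]⟩,⟨0,[(31,0)]⟩),⟨0,[(1,0)]⟩,.k,.k,(.r (-2) ⟨5,[(9,5),(7,3),(10,3),
  (0,3),(5,0),(0,0),(10,1)]⟩ ⟨0,[(6,0),(12,0),(27,0)]⟩),(.r (-1) ⟨2,[(9,2),(7,0),(17,0),(0,0),(12,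
  1)]⟩ ⟨8,[(6,5),(8,1),(3,3),(3,0),(23,9)]⟩),.k,.k,⟨true,0,⟨1,[(35,0),(0,0)]⟩,⟨0,[]⟩⟩,⟨false,2,⟨0,
  [(2,0),(43,0)]⟩,⟨1,[(0,0),(2,0),(11,0),(31,0)]⟩⟩,⟨false,0,⟨0,[(8,0),(10,0),(27,1)]⟩,⟨2,[(9,2),(7,
  0),(24,0)]⟩⟩,⟨true,1,⟨0,[(2,0),(3,0),(40,0)]⟩,⟨9,[(0,1),(16,3),(4,7),(6,1),(3,7),(1,0),(0,2)]⟩⟩,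
  ⟨false,0,⟨0,[]⟩,⟨0,[]⟩⟩,⟨false,0,⟨0,[]⟩,⟨0,[]⟩⟩,[.a ⟨true,1,⟨15,[(0,5),(1,12),(2,6),(2,5),(8,1),
  (10,2),(7,5),(10,11)]⟩,⟨0,[(22,0)]⟩⟩ ⟨false,1,⟨1,[(28,0),(0,0),(17,0)]⟩,⟨5,[(17,0),(24,0),(0,
  2)]⟩⟩ ⟨true,2,⟨1,[(2,1),(43,0),(0,0)]⟩,⟨1,[(0,0),(2,0),(4,0),(10,0),(25,1),(1,0)]⟩⟩,.o ⟨false,2,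
  ⟨0,[(2,0),(17,0),(26,0)]⟩,⟨11,[(3,5),(13,0),(1,2),(19,2),(2,3)]⟩⟩,.o ⟨false,0,⟨0,[(35,0)]⟩,⟨0,[(7,
  0)]⟩⟩,.e ⟨false,1,⟨0,[(47,0)]⟩,⟨0,[(49,0)]⟩⟩ ⟨false,3,⟨0,[(2,0),(43,0),(0,0)]⟩,⟨1,[(0,0),(2,0),(4,
  0),(10,0),(25,1),(1,0)]⟩⟩]⟩)) (.Q [0,0,1,0,-1,0,0,0,1,1,0,-1] (.p false [0,0,0,0,1] [1] (⟨0,[(30,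
  0)]⟩,⟨0,[(29,0)]⟩) .k 1 (⟨0,[]⟩,⟨0,[]⟩) .k .k) (.K ⟨0,[1,0,0,0,-1],1,1,(⟨0,[(30,0)]⟩,⟨0,[(31,
  0)]⟩),.k,(.r (-1) ⟨7,[(9,1),(5,1),(1,1),(28,0),(0,4)]⟩ ⟨1,[(9,0),(9,0),(3,0)]⟩),(.r (-1) ⟨1,[(9,
  0),(9,0),(3,0),(23,1)]⟩ ⟨2,[(17,0),(24,0)]⟩),.k,.k,[⟨0,[(2,0)]⟩,⟨0,[(0,0)]⟩,⟨0,[(22,0),(26,0)]⟩,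
  ⟨0,[(2,0),(17,0)]⟩]⟩) (.S ⟨1,0,[0,-1,0,-1],[1,0,0,0,-1],[1],(⟨0,[(30,0)]⟩,⟨0,[(31,0)]⟩),⟨3,[(3,0),
  (1,1),(1,0),(4,1),(17,1),(5,0),(10,0)]⟩,.k,(.r (-1) ⟨7,[(9,1),(5,1),(1,1),(28,0),(0,4)]⟩ ⟨1,[(9,
  0),(9,0),(3,0)]⟩),⟨false,0,⟨0,[]⟩,⟨1,[(28,0),(0,0),(17,0)]⟩⟩,⟨true,0,⟨0,[(45,0)]⟩,⟨0,[(44,0)]⟩⟩,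
  ⟨true,0,⟨0,[(44,0)]⟩,⟨0,[(45,0)]⟩⟩,⟨false,1,⟨1,[(28,0),(0,0),(17,0)]⟩,⟨0,[]⟩⟩,[.a ⟨true,1,⟨2,[(2,
  0),(2,0),(6,1),(4,0),(13,1),(9,3),(5,1)]⟩,⟨0,[(21,0)]⟩⟩ ⟨true,0,⟨0,[]⟩,⟨1,[(35,0),(0,0)]⟩⟩ ⟨false,
  1,⟨7,[(9,1),(5,1),(1,1),(28,0),(0,4)]⟩,⟨0,[(44,0)]⟩⟩,.o ⟨false,2,⟨1,[(2,1),(15,0),(16,0),(9,0),(1,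
  1)]⟩,⟨0,[(16,0)]⟩⟩,.o ⟨false,1,⟨1,[(0,0),(1,0),(32,0)]⟩,⟨0,[(29,0)]⟩⟩,.o ⟨false,1,⟨0,[(2,0),(32,
  0)]⟩,⟨0,[(0,0),(2,0),(43,0)]⟩⟩]⟩)))))) (.R ⟨1,true,false,false,[1,0,-1],[0,1],[1,1,0,0,0,0,0,-1],
  (⟨0,[(32,0)]⟩,⟨0,[(33,0)]⟩),(⟨0,[(36,0)]⟩,⟨0,[(35,0)]⟩),⟨0,[(21,0)]⟩,.k,.k,.k,.k,(.r 0 ⟨0,[(1,0),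
  (10,0),(29,0)]⟩ ⟨10,[(0,8),(3,8),(3,2),(0,8),(8,6),(23,4)]⟩),.k,⟨false,0,⟨4,[(1,2),(8,1),(1,1),
  (28,2)]⟩,⟨10,[(0,5),(3,5),(3,1),(0,5),(8,0),(23,6)]⟩⟩,⟨true,0,⟨0,[(27,0)]⟩,⟨0,[(0,0)]⟩⟩,⟨false,0,
  ⟨0,[]⟩,⟨1,[(23,0),(0,0),(17,0)]⟩⟩,⟨true,0,⟨0,[(9,0)]⟩,⟨19,[(0,7),(1,5),(0,8),(6,4),(1,4),(16,5),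
  (4,2)]⟩⟩,⟨true,0,⟨0,[(39,0)]⟩,⟨0,[(40,0)]⟩⟩,⟨false,1,⟨0,[(9,0),(29,0),(2,0)]⟩,⟨0,[(0,0),(0,0),(10,
  0),(29,0)]⟩⟩,[]⟩)))) (.I [1,0,-1,0,0,0,0,-1] (.S ⟨1,0,[0,0,0,-1,0,0,0,-1],[1,0,-1],[1,1,0,0,0,0,0,
  -1],(⟨0,[(30,0)]⟩,⟨0,[(31,0)]⟩),⟨0,[(19,0)]⟩,.k,.k,⟨false,0,⟨0,[]⟩,⟨1,[(21,0),(0,0),(17,0)]⟩⟩,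
  ⟨true,0,⟨0,[(38,0)]⟩,⟨0,[(37,0)]⟩⟩,⟨true,0,⟨0,[(37,0)]⟩,⟨0,[(38,0)]⟩⟩,⟨false,1,⟨1,[(21,0),(0,0),
  (17,0)]⟩,⟨0,[]⟩⟩,[.e ⟨false,0,⟨11,[(0,8),(9,0),(5,2),(18,3)]⟩,⟨0,[(1,0)]⟩⟩ ⟨false,0,⟨0,[(0,0),(37,
  0)]⟩,⟨4,[(1,0),(0,4),(3,1),(9,0),(23,0)]⟩⟩,.o ⟨false,1,⟨1,[(0,1),(28,1),(2,0),(5,1),(1,0)]⟩,⟨0,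
  [(17,0)]⟩⟩,.o ⟨false,1,⟨1,[(29,1),(2,0),(6,0)]⟩,⟨0,[(13,0)]⟩⟩,.a ⟨true,0,⟨0,[(29,0)]⟩,⟨0,[(25,
  0)]⟩⟩ ⟨false,0,⟨0,[(0,0)]⟩,⟨1,[(1,1),(26,0),(0,0)]⟩⟩ ⟨true,0,⟨0,[(0,0),(37,0)]⟩,⟨0,[(2,0),(9,
  0)]⟩⟩]⟩) (.I [0,0,0,0,0,0,0,1] (.S ⟨1,0,[0,0,0,-1,0,0,0,-1],[1,0,-1],[1,1,0,0,0,0,0,-1],(⟨0,[(31,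
  0)]⟩,⟨0,[(32,0)]⟩),⟨0,[(20,0)]⟩,.k,.k,⟨false,0,⟨0,[]⟩,⟨1,[(22,0),(0,0),(17,0)]⟩⟩,⟨true,0,⟨0,[(39,
  0)]⟩,⟨0,[(38,0)]⟩⟩,⟨true,0,⟨0,[(38,0)]⟩,⟨0,[(39,0)]⟩⟩,⟨false,1,⟨1,[(22,0),(0,0),(17,0)]⟩,⟨0,[]⟩⟩,
  [.o ⟨false,1,⟨5,[(2,0),(6,2),(1,0),(16,3),(1,1),(2,2),(7,1)]⟩,⟨9,[(0,7),(6,5),(0,1),(3,7),(20,0),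
  (3,3),(3,4)]⟩⟩,.e ⟨false,1,⟨3,[(9,1),(7,1),(22,2),(0,0)]⟩,⟨0,[(0,0)]⟩⟩ ⟨false,1,⟨1,[(9,1),(30,0),
  (0,0)]⟩,⟨4,[(0,2),(2,1),(3,1),(28,0),(0,0)]⟩⟩,.o ⟨false,1,⟨1,[(30,1),(2,0),(6,0)]⟩,⟨0,[(14,0)]⟩⟩,
  .a ⟨true,0,⟨0,[(30,0)]⟩,⟨0,[(26,0)]⟩⟩ ⟨true,0,⟨0,[(9,0),(27,0)]⟩,⟨0,[(1,0)]⟩⟩ ⟨false,1,⟨1,[(9,1),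
  (30,0),(0,0)]⟩,⟨1,[(0,0),(1,0),(4,0)]⟩⟩]⟩) (.I [0,0,-1,-1,0,0,0,-1] (.S ⟨1,0,[0,0,0,-1,0,0,0,-1],
  [1,0,-1],[1,1,1],(⟨0,[(32,0)]⟩,⟨0,[(33,0)]⟩),⟨0,[(21,0)]⟩,.k,.k,⟨false,0,⟨0,[(2,0)]⟩,⟨1,[(1,1),
  (39,0),(0,0)]⟩⟩,⟨true,0,⟨0,[(40,0)]⟩,⟨0,[(39,0)]⟩⟩,⟨true,0,⟨0,[(4,0),(9,0)]⟩,⟨0,[(0,0)]⟩⟩,⟨false,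
  1,⟨1,[(23,0),(0,0),(17,0)]⟩,⟨0,[]⟩⟩,[.e ⟨false,0,⟨0,[(44,0)]⟩,⟨1,[(41,0),(0,0)]⟩⟩ ⟨false,0,⟨0,[(0,
  0)]⟩,⟨4,[(3,0),(0,4),(3,1),(9,0),(23,0)]⟩⟩,.o ⟨false,1,⟨1,[(0,1),(30,1),(2,0),(7,0)]⟩,⟨0,[(19,
  0)]⟩⟩,.o ⟨false,1,⟨1,[(31,1),(2,0),(6,0)]⟩,⟨0,[(15,0)]⟩⟩,.a ⟨true,0,⟨0,[(31,0)]⟩,⟨0,[(27,0)]⟩⟩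
  ⟨false,0,⟨0,[]⟩,⟨1,[(23,0),(0,0),(17,0)]⟩⟩ ⟨true,0,⟨0,[(0,0)]⟩,⟨0,[(4,0),(9,0)]⟩⟩]⟩) (.Q [0,0,0,
  -1,0,0,-1,-1,0,0,1] (.p true [0,0,1] [] (⟨0,[(33,0)]⟩,⟨0,[(32,0)]⟩) .k 0 (⟨0,[]⟩,⟨0,[]⟩) .k .k)
  (.R ⟨2,true,false,false,[0,1],[0,1,1],[1,1,1,1],(⟨0,[]⟩,⟨0,[]⟩),(⟨0,[(34,0),(2,0)]⟩,⟨0,[(22,0)]⟩),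
  ⟨0,[]⟩,.k,.k,.k,.k,.k,.k,⟨false,0,⟨5,[(2,5),(10,0),(24,0),(0,2)]⟩,⟨0,[(4,0)]⟩⟩,⟨true,0,⟨0,[(16,
  0)]⟩,⟨0,[(32,0)]⟩⟩,⟨false,0,⟨0,[]⟩,⟨1,[(24,0),(0,0),(17,0)]⟩⟩,⟨true,0,⟨0,[(1,0),(12,0)]⟩,⟨0,[(30,
  0)]⟩⟩,⟨true,0,⟨0,[(40,0)]⟩,⟨0,[(41,0)]⟩⟩,⟨false,1,⟨1,[(10,1),(24,0),(7,0)]⟩,⟨0,[(0,0)]⟩⟩,[]⟩) (.I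
  [0,0,0,0,0,0,0,-1] (.I [1,1,1,0,-1,0,0,-1] (.Q [0,-1,0,-1,1,0,-1,-1,0,-1,1] (.p true [0,0,1] [1]
  (⟨0,[(36,0)]⟩,⟨0,[(35,0)]⟩) .k 1 (⟨0,[]⟩,⟨0,[]⟩) .k .k) (.S ⟨1,0,[0,0,0,-1,0,0,0,-1],[1,0,-1],[1,
  1,0,0,0,0,0,-1],(⟨0,[(36,0)]⟩,⟨0,[(37,0)]⟩),⟨0,[(25,0)]⟩,.k,.k,⟨false,0,⟨0,[]⟩,⟨6,[(0,0),(6,1),(0,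
  0),(13,0),(1,0),(8,0),(12,2)]⟩⟩,⟨true,0,⟨0,[(44,0)]⟩,⟨0,[(43,0)]⟩⟩,⟨true,0,⟨0,[(43,0)]⟩,⟨0,[(44,
  0)]⟩⟩,⟨false,1,⟨6,[(0,0),(6,1),(0,0),(13,0),(1,0),(8,0),(12,2)]⟩,⟨0,[]⟩⟩,[.o ⟨false,1,⟨15,[(0,11),
  (5,2),(1,1),(7,2),(5,4),(10,3),(4,1)]⟩,⟨0,[(3,0)]⟩⟩,.o ⟨false,1,⟨0,[(0,0)]⟩,⟨0,[(23,0)]⟩⟩,.o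
  ⟨false,1,⟨2,[(0,0),(7,0),(26,1),(2,0),(3,0)]⟩,⟨0,[(19,0)]⟩⟩,.a ⟨true,0,⟨0,[(35,0)]⟩,⟨0,[(31,0)]⟩⟩
  ⟨true,0,⟨5,[(2,5),(13,0),(24,0),(0,2)]⟩,⟨0,[(6,0)]⟩⟩ ⟨false,1,⟨0,[(0,0),(30,0)]⟩,⟨0,[(4,0)]⟩⟩]⟩)
  (.I [0,0,-1,-2,0,0,0,-1] (.R ⟨1,true,false,true,[1,0,-1],[0,1],[1,1,1,1],(⟨0,[(37,0)]⟩,⟨0,[(38,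
  0)]⟩),(⟨0,[(41,0)]⟩,⟨0,[(40,0)]⟩),⟨0,[(26,0)]⟩,.k,.k,.k,.k,(.r (-1) ⟨5,[(0,6),(8,2),(13,1),(22,1),
  (0,0)]⟩ ⟨3,[(5,4),(7,0),(9,0),(23,0)]⟩),.k,⟨true,0,⟨0,[]⟩,⟨1,[(35,0),(0,0)]⟩⟩,⟨false,0,⟨0,[(0,0),
  (0,0),(41,0),(3,0)]⟩,⟨13,[(8,6),(6,0),(1,0),(5,3),(10,1),(1,11),(2,6)]⟩⟩,⟨false,0,⟨0,[(5,0)]⟩,⟨2,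
  [(0,1),(22,0),(22,0),(0,1)]⟩⟩,⟨true,(-1),⟨0,[(1,0)]⟩,⟨5,[(8,0),(6,2),(1,0),(16,3),(1,1),(2,2),(7,
  1)]⟩⟩,⟨true,0,⟨0,[(5,0),(38,0)]⟩,⟨0,[(0,0)]⟩⟩,⟨false,0,⟨3,[(1,0),(11,0),(0,2),(28,1),(3,1)]⟩,⟨1,
  [(0,1),(35,1),(2,0),(7,0)]⟩⟩,[]⟩) (.S ⟨1,0,[0,1,0,-1,0,0,0,1],[0,0,1],[1,1,1],(⟨0,[(38,0)]⟩,⟨0,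
  [(37,0)]⟩),⟨0,[(27,0)]⟩,.k,.k,⟨true,(-1),⟨0,[(2,0)]⟩,⟨0,[(9,0)]⟩⟩,⟨false,0,⟨0,[(45,0)]⟩,⟨2,[(0,0),
  (22,0),(22,0),(0,1)]⟩⟩,⟨false,0,⟨2,[(3,1),(9,0),(9,0),(23,0)]⟩,⟨0,[(0,0),(16,0),(29,0)]⟩⟩,⟨true,0,
  ⟨0,[(49,0)]⟩,⟨0,[]⟩⟩,[.e ⟨false,0,⟨0,[(49,0)]⟩,⟨1,[(46,0),(0,0)]⟩⟩ ⟨false,0,⟨0,[(0,0),(16,0)]⟩,⟨1,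
  [(3,0),(19,0),(19,0),(3,1)]⟩⟩,.o ⟨false,0,⟨0,[(7,0),(10,0)]⟩,⟨1,[(2,0),(31,0),(1,0),(2,0),(3,1),
  (3,1)]⟩⟩,.o ⟨false,0,⟨0,[(20,0)]⟩,⟨1,[(36,1),(2,0),(6,0)]⟩⟩,.a ⟨true,(-1),⟨0,[(1,0),(0,0),(42,0),
  (1,0)]⟩,⟨0,[(36,0),(9,0)]⟩⟩ ⟨false,0,⟨0,[]⟩,⟨1,[(28,0),(0,0),(17,0)]⟩⟩ ⟨true,0,⟨0,[(0,0),(16,0)]⟩,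
  ⟨2,[(3,1),(9,0),(9,0),(23,0)]⟩⟩]⟩))) (.Q [0,0,1,0,-1,0,1,0,0,1,-1] (.p false [0,0,1] [1] (⟨0,[(36,
  0)]⟩,⟨0,[(35,0)]⟩) .k 1 (⟨0,[]⟩,⟨0,[]⟩) .k .k) (.S ⟨1,0,[0,1,0,-1,0,0,0,1],[0,0,1],[1,0,0,0,0,0,0,
  1],(⟨0,[(37,0)]⟩,⟨0,[(36,0)]⟩),⟨0,[(26,0)]⟩,.k,.k,⟨true,0,⟨0,[]⟩,⟨0,[(48,0)]⟩⟩,⟨false,0,⟨0,[(44,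
  0)]⟩,⟨0,[(43,0),(2,0)]⟩⟩,⟨false,1,⟨0,[(43,0),(2,0)]⟩,⟨0,[(44,0)]⟩⟩,⟨true,0,⟨0,[(48,0)]⟩,⟨0,[]⟩⟩,
  [.e ⟨false,1,⟨0,[(8,0)]⟩,⟨0,[(2,0)]⟩⟩ ⟨false,0,⟨0,[(1,0),(10,0),(3,0)]⟩,⟨1,[(2,0),(19,0),(19,0),
  (3,1)]⟩⟩,.o ⟨false,0,⟨0,[(6,0),(10,0)]⟩,⟨1,[(2,1),(32,1),(2,0),(3,1),(3,0)]⟩⟩,.o ⟨false,0,⟨0,[(19,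
  0)]⟩,⟨1,[(1,0),(31,0),(1,0),(2,0)]⟩⟩,.a ⟨true,(-1),⟨0,[(0,0)]⟩,⟨0,[(1,0),(31,0)]⟩⟩ ⟨false,1,⟨0,
  [(1,0)]⟩,⟨2,[(14,1),(3,0),(3,0),(23,0)]⟩⟩ ⟨true,0,⟨0,[(1,0),(10,0),(3,0)]⟩,⟨2,[(2,1),(9,0),(9,0),
  (23,0)]⟩⟩]⟩) (.Q [0,-1,0,-1,1,0,-1,-1,0,-1,1] (.p true [0,0,1] [1] (⟨0,[(37,0)]⟩,⟨0,[(36,0)]⟩) .k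
  1 (⟨0,[]⟩,⟨0,[]⟩) .k .k) (.S ⟨1,0,[0,0,0,-1,0,0,0,-1],[1,0,-1],[1,1,0,0,0,0,0,-1],(⟨0,[(37,0)]⟩,
  ⟨0,[(38,0)]⟩),⟨0,[(26,0)]⟩,.k,.k,⟨false,0,⟨0,[]⟩,⟨6,[(0,0),(7,1),(0,0),(13,0),(1,0),(8,0),(12,
  2)]⟩⟩,⟨true,0,⟨0,[(45,0)]⟩,⟨0,[(44,0)]⟩⟩,⟨true,0,⟨0,[(44,0)]⟩,⟨0,[(45,0)]⟩⟩,⟨false,1,⟨6,[(0,0),(7,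
  1),(0,0),(13,0),(1,0),(8,0),(12,2)]⟩,⟨0,[]⟩⟩,[.o ⟨false,1,⟨15,[(0,11),(6,2),(1,1),(7,2),(5,4),(10,
  3),(4,1)]⟩,⟨0,[(4,0)]⟩⟩,.o ⟨false,1,⟨0,[(0,0)]⟩,⟨0,[(24,0)]⟩⟩,.o ⟨false,1,⟨7,[(0,0),(0,2),(7,1),
  (13,0),(12,3),(2,1)]⟩,⟨0,[(20,0)]⟩⟩,.a ⟨true,0,⟨0,[(36,0)]⟩,⟨0,[(32,0)]⟩⟩ ⟨true,0,⟨5,[(3,5),(13,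
  0),(24,0),(0,2)]⟩,⟨0,[(7,0)]⟩⟩ ⟨false,1,⟨0,[(0,0),(31,0)]⟩,⟨0,[(5,0)]⟩⟩]⟩) (.I [0,0,0,-1,0,0,0,1]
  (.S ⟨1,0,[0,0,0,-1,0,0,0,1],[0,0,1],[1,1],(⟨0,[(39,0)]⟩,⟨0,[(38,0)]⟩),⟨0,[(28,0)]⟩,.k,.k,⟨false,0,
  ⟨0,[(7,0)]⟩,⟨0,[(9,0)]⟩⟩,⟨true,0,⟨0,[(46,0)]⟩,⟨0,[(45,0)]⟩⟩,⟨true,0,⟨1,[(4,0),(19,0),(19,0)]⟩,⟨0,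
  [(0,0)]⟩⟩,⟨false,1,⟨1,[(29,0),(0,0),(17,0)]⟩,⟨0,[]⟩⟩,[.o ⟨false,0,⟨4,[(0,3),(4,0),(13,1),(16,1)]⟩,
  ⟨2,[(2,2),(1,1),(9,0),(9,0),(23,0)]⟩⟩,.a ⟨true,0,⟨0,[(0,0),(0,0),(14,0),(31,0)]⟩,⟨0,[(4,0),(32,0),
  (6,0)]⟩⟩ ⟨true,0,⟨0,[]⟩,⟨1,[(36,0),(0,0)]⟩⟩ ⟨false,1,⟨3,[(0,0),(2,1),(5,0),(8,0),(29,0)]⟩,⟨1,[(4,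
  0),(19,0),(19,0)]⟩⟩,.o ⟨false,0,⟨0,[(21,0)]⟩,⟨2,[(2,0),(6,0),(25,0),(1,0),(2,0)]⟩⟩,.o ⟨false,0,⟨0,
  [(36,0)]⟩,⟨0,[(2,0)]⟩⟩]⟩) (.Q [0,0,0,0,0,2,0,0,0,0,-1] (.p false [0,0,1] [] (⟨0,[(39,0)]⟩,⟨0,[(38,
  0)]⟩) .k 0 (⟨0,[]⟩,⟨0,[]⟩) .k .k) (.Q [0,0,-2,0,0,0,1,0,0,1,-1] (.p false [0,0,1] [1] (⟨0,[(40,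
  0)]⟩,⟨0,[(39,0)]⟩) .k 1 (⟨0,[]⟩,⟨0,[]⟩) .k .k) (.Q [0,-1,-2,-1,2,0,-2,-1,0,-1,2] (.p true [0,0,1]
  [1,0,-1] (⟨0,[(41,0)]⟩,⟨0,[(40,0)]⟩) .k 2 (⟨0,[(40,0)]⟩,⟨0,[(41,0)]⟩) .k (.r (-1) ⟨0,[(10,0),(1,
  0)]⟩ ⟨0,[(2,0),(15,0)]⟩)) (.R ⟨0,false,false,false,[0,-1,1],[1,-1,-1],[1,0,1],(⟨0,[(31,0)]⟩,⟨1,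
  [(2,0),(38,1),(0,0)]⟩),(⟨0,[(30,0)]⟩,⟨1,[(2,0),(39,2)]⟩),⟨0,[(2,0)]⟩,.k,.k,(.r (-1) ⟨2,[(6,0),(5,
  0),(0,0),(7,1)]⟩ ⟨2,[(3,0),(13,0),(5,0),(3,1),(23,1)]⟩),.k,.k,.k,⟨false,0,⟨0,[(9,0)]⟩,⟨28,[(0,13),
  (0,3),(1,14),(17,9),(7,11),(13,0),(2,1)]⟩⟩,⟨true,1,⟨0,[(5,0),(34,0)]⟩,⟨0,[(4,0),(14,0),(2,0),(0,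
  0),(27,0)]⟩⟩,⟨false,0,⟨1,[(3,0),(15,0),(3,1),(27,1)]⟩,⟨4,[(6,2),(6,1),(7,1),(25,0)]⟩⟩,⟨true,1,⟨1,
  [(0,1),(2,0),(15,0),(3,1)]⟩,⟨0,[(4,0),(6,0),(10,0)]⟩⟩,⟨false,0,⟨0,[]⟩,⟨0,[]⟩⟩,⟨false,0,⟨0,[]⟩,⟨0,
  []⟩⟩,[.o ⟨false,1,⟨14,[(0,4),(18,6),(1,1),(5,2),(11,2),(0,7),(2,4)]⟩,⟨0,[(8,0)]⟩⟩,.e ⟨false,1,⟨8,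
  [(0,0),(11,3),(6,0),(7,1),(1,0),(21,2)]⟩,⟨5,[(21,0),(24,0),(0,2)]⟩⟩ ⟨false,2,⟨0,[(0,0)]⟩,⟨0,[(4,
  0),(34,0)]⟩⟩,.o ⟨false,0,⟨0,[(39,0)]⟩,⟨0,[(5,0)]⟩⟩,.a ⟨true,(-1),⟨0,[(4,0),(14,0),(3,0),(25,0),(1,
  0)]⟩,⟨0,[(0,0),(3,0)]⟩⟩ ⟨true,0,⟨0,[]⟩,⟨0,[(53,0)]⟩⟩ ⟨false,2,⟨0,[(0,0)]⟩,⟨3,[(4,2),(6,0),(10,2),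
  (0,4),(5,0),(19,0),(1,3)]⟩⟩]⟩) (.R ⟨0,false,false,false,[0,-1,1],[1,-1,-1],[1,0,1],(⟨0,[(31,0)]⟩,
  ⟨1,[(2,0),(38,1),(0,0)]⟩),(⟨0,[(30,0)]⟩,⟨1,[(2,0),(39,2)]⟩),⟨0,[(2,0)]⟩,.k,.k,(.r (-1) ⟨2,[(6,0),
  (5,0),(0,0),(7,1)]⟩ ⟨2,[(3,0),(13,0),(5,0),(3,1),(23,1)]⟩),.k,.k,.k,⟨false,0,⟨0,[(9,0)]⟩,⟨0,[(19,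
  0),(30,0)]⟩⟩,⟨true,1,⟨0,[(5,0),(34,0)]⟩,⟨17,[(0,11),(0,1),(1,0),(15,10),(2,1),(6,3),(21,5)]⟩⟩,
  ⟨false,0,⟨1,[(3,0),(15,0),(3,1),(27,1)]⟩,⟨4,[(6,2),(6,1),(7,1),(25,0)]⟩⟩,⟨true,1,⟨0,[(3,0),(1,0),
  (13,0),(20,0)]⟩,⟨2,[(0,1),(3,0),(1,1),(14,0),(15,0)]⟩⟩,⟨false,0,⟨0,[]⟩,⟨0,[]⟩⟩,⟨false,0,⟨0,[]⟩,⟨0,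
  []⟩⟩,[.o ⟨false,1,⟨5,[(12,0),(6,2),(1,0),(16,3),(1,1),(2,2),(7,1)]⟩,⟨0,[(8,0)]⟩⟩,.a ⟨true,1,⟨5,
  [(12,0),(6,2),(1,0),(16,3),(1,1),(10,4)]⟩,⟨0,[(4,0)]⟩⟩ ⟨false,1,⟨1,[(32,0),(0,0),(17,0)]⟩,⟨5,[(21,
  0),(24,0),(0,2)]⟩⟩ ⟨true,2,⟨5,[(5,3),(15,1),(16,5),(1,1),(2,0),(7,6)]⟩,⟨0,[(0,0)]⟩⟩,.o ⟨false,0,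
  ⟨0,[(39,0)]⟩,⟨0,[(5,0)]⟩⟩,.e ⟨true,0,⟨0,[]⟩,⟨0,[(53,0)]⟩⟩ ⟨true,2,⟨11,[(5,9),(7,1),(7,3),(16,13),
  (4,0),(6,1),(0,8)]⟩,⟨0,[(0,0)]⟩⟩]⟩)) (.R ⟨1,true,false,true,[1,0,-1],[0,1],[0,1,0,-1,0,0,0,-1],
  (⟨0,[(40,0)]⟩,⟨0,[(41,0)]⟩),(⟨0,[(44,0)]⟩,⟨0,[(43,0)]⟩),⟨0,[(29,0)]⟩,.k,.k,.k,.k,(.r (-1) ⟨7,[(12,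
  1),(5,9),(1,1),(28,4),(0,0)]⟩ ⟨3,[(8,4),(7,0),(9,0),(23,0)]⟩),.k,⟨false,1,⟨7,[(12,1),(5,9),(1,1),
  (28,4),(0,0)]⟩,⟨0,[(5,0),(10,0)]⟩⟩,⟨true,0,⟨0,[(35,0)]⟩,⟨0,[(0,0)]⟩⟩,⟨false,0,⟨0,[(48,0)]⟩,⟨0,
  [(47,0),(2,0)]⟩⟩,⟨true,(-1),⟨0,[(3,0)]⟩,⟨4,[(0,0),(10,0),(6,1),(1,0),(16,3),(4,1),(7,1)]⟩⟩,⟨true,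
  0,⟨0,[(52,0)]⟩,⟨0,[]⟩⟩,⟨false,0,⟨3,[(2,1),(0,0),(1,1),(10,0),(0,2)]⟩,⟨0,[(0,0),(1,0),(17,0),(29,
  0)]⟩⟩,[]⟩)) (.Q [0,0,-2,0,0,0,1,0,0,1,-1] (.p false [0,0,1] [1] (⟨0,[(40,0)]⟩,⟨0,[(39,0)]⟩) .k 1
  (⟨0,[]⟩,⟨0,[]⟩) .k .k) (.Q [0,-1,0,-2,1,0,-1,-1,0,-1,1] (.p true [0,0,1] [1] (⟨0,[(41,0)]⟩,⟨0,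
  [(40,0)]⟩) .k 1 (⟨0,[]⟩,⟨0,[]⟩) .k .k) (.R ⟨1,false,false,true,[1,-1],[0,0,1],[1,1,0,0,0,0,0,1],
  (⟨0,[(44,0)]⟩,⟨0,[(45,0)]⟩),(⟨0,[(42,0)]⟩,⟨0,[(41,0)]⟩),⟨1,[(2,0),(27,0),(13,0)]⟩,.k,.k,(.r (-1)
  ⟨4,[(0,1),(12,1),(7,1),(14,1),(13,0)]⟩ ⟨1,[(9,0),(7,0),(9,0),(23,0)]⟩),.k,(.r (-1) ⟨3,[(0,1),(0,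
  0),(17,0),(1,0),(7,0),(8,0),(11,1)]⟩ ⟨3,[(9,4),(7,0),(9,0),(23,0)]⟩),.k,⟨true,0,⟨0,[]⟩,⟨1,[(39,0),
  (0,0)]⟩⟩,⟨false,0,⟨0,[(1,0)]⟩,⟨11,[(0,1),(10,0),(0,1),(0,2),(13,3),(12,9),(2,4)]⟩⟩,⟨false,0,⟨0,
  [(9,0)]⟩,⟨9,[(0,5),(0,3),(1,1),(25,1),(8,1),(11,0),(0,2)]⟩⟩,⟨true,(-1),⟨0,[(4,0)]⟩,⟨4,[(0,2),(12,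
  0),(13,0),(10,1),(4,0)]⟩⟩,⟨false,0,⟨0,[(6,0),(10,0)]⟩,⟨0,[(0,0),(35,0)]⟩⟩,⟨false,0,⟨3,[(3,1),(0,
  0),(1,1),(10,0),(0,2)]⟩,⟨0,[(0,0)]⟩⟩,[.e ⟨false,0,⟨3,[(4,2),(0,2),(5,0),(9,0)]⟩,⟨7,[(0,1),(2,1),
  (23,1),(1,1),(8,1),(11,0),(0,4)]⟩⟩ ⟨false,0,⟨5,[(1,2),(2,2),(8,2),(7,0),(24,0)]⟩,⟨6,[(0,2),(2,2),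
  (13,0),(9,0),(12,3),(2,1),(7,2)]⟩⟩,.o ⟨false,0,⟨1,[(8,0),(2,0),(10,0)]⟩,⟨1,[(38,1),(4,0),(7,0)]⟩⟩,
  .a ⟨true,0,⟨1,[(39,0),(0,0)]⟩,⟨0,[(1,0),(38,0)]⟩⟩ ⟨true,0,⟨11,[(4,2),(0,2),(5,8),(9,0),(24,3)]⟩,
  ⟨0,[(7,0)]⟩⟩ ⟨false,0,⟨6,[(1,0),(2,2),(1,0),(11,2),(2,1),(29,1)]⟩,⟨6,[(0,2),(2,2),(13,0),(9,0),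
  (12,3),(2,1),(7,2)]⟩⟩,.o ⟨false,0,⟨2,[(0,0),(10,0),(10,0),(0,2),(19,0),(7,0)]⟩,⟨0,[(50,0)]⟩⟩]⟩)
  (.Q [0,0,0,0,0,2,0,0,0,-1,1] (.p true [0,0,1] [1] (⟨0,[(42,0)]⟩,⟨0,[(41,0)]⟩) .k 1 (⟨0,[]⟩,⟨0,
  []⟩) .k .k) (.R ⟨0,false,false,false,[1,-1,-1],[1,-1],[0,0,-1,-1],(⟨0,[(31,0)]⟩,⟨0,[(0,0),(44,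
  0)]⟩),(⟨0,[(45,0)]⟩,⟨0,[(46,0)]⟩),⟨0,[(0,0)]⟩,.k,.k,(.r (-1) ⟨7,[(14,1),(5,9),(1,1),(28,4),(0,
  0)]⟩ ⟨3,[(10,4),(7,0),(9,0),(23,0)]⟩),.k,.k,.k,⟨false,1,⟨7,[(14,3),(5,1),(7,1),(22,2),(0,0)]⟩,⟨0,
  []⟩⟩,⟨true,0,⟨0,[(25,0)]⟩,⟨0,[(41,0)]⟩⟩,⟨false,1,⟨0,[(13,0)]⟩,⟨0,[(11,0)]⟩⟩,⟨true,0,⟨1,[(9,0),(2,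
  0),(10,0)]⟩,⟨0,[(39,0)]⟩⟩,⟨false,0,⟨0,[]⟩,⟨0,[]⟩⟩,⟨false,0,⟨0,[]⟩,⟨0,[]⟩⟩,[.a ⟨true,0,⟨0,[(50,
  0)]⟩,⟨4,[(0,0),(0,0),(0,0),(1,0),(10,0),(17,0),(7,1),(0,0),(2,1),(6,0)]⟩⟩ ⟨false,1,⟨7,[(14,1),(5,
  1),(1,1),(28,4),(0,0)]⟩,⟨3,[(10,0),(7,0),(9,0),(23,0)]⟩⟩ ⟨true,0,⟨0,[(23,0)]⟩,⟨3,[(10,0),(7,0),(9,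
  0),(12,3),(10,0)]⟩⟩,.o ⟨false,1,⟨1,[(44,0),(5,1),(1,0)]⟩,⟨0,[(49,0)]⟩⟩,.a ⟨true,0,⟨0,[(41,0)]⟩,⟨0,
  [(37,0)]⟩⟩ ⟨false,1,⟨7,[(14,1),(5,1),(1,1),(28,0),(0,4)]⟩,⟨3,[(10,0),(7,0),(9,0),(23,0)]⟩⟩ ⟨true,
  0,⟨0,[(23,0)]⟩,⟨0,[(10,0),(28,0)]⟩⟩,.a ⟨true,0,⟨1,[(40,0),(0,2)]⟩,⟨0,[(2,0)]⟩⟩ ⟨true,1,⟨7,[(14,1),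
  (5,1),(1,1),(28,4),(0,0)]⟩,⟨0,[(24,0)]⟩⟩ ⟨false,1,⟨10,[(2,6),(19,2),(0,1),(6,0),(13,3),(7,6)]⟩,⟨3,
  [(10,0),(7,0),(9,0),(12,3),(10,0)]⟩⟩]⟩) (.I [0,-1,2,1,0,0,0,1] (.S ⟨1,0,[0,0,-1,-2,0,0,0,-1],[1,
  -1,-1],[1,1,-1,-1,0,0,0,-1],(⟨0,[(32,0)]⟩,⟨0,[(44,0),(2,0)]⟩),⟨0,[(1,0)]⟩,.k,(.r (-1) ⟨7,[(15,1),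
  (5,9),(1,1),(28,4),(0,0)]⟩ ⟨0,[(0,0),(49,0)]⟩),⟨false,0,⟨0,[]⟩,⟨1,[(34,0),(0,0),(17,0)]⟩⟩,⟨true,0,
  ⟨0,[(51,0)]⟩,⟨0,[(50,0)]⟩⟩,⟨true,0,⟨0,[(50,0)]⟩,⟨0,[(51,0)]⟩⟩,⟨false,1,⟨1,[(34,0),(0,0),(17,0)]⟩,
  ⟨0,[]⟩⟩,[.o ⟨false,1,⟨5,[(14,1),(6,5),(1,1),(16,1),(1,3),(2,2),(7,0)]⟩,⟨1,[(2,1),(42,0),(7,0)]⟩⟩,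
  .e ⟨false,1,⟨0,[(21,0),(30,0)]⟩,⟨0,[(2,0),(4,0),(9,3),(5,2),(29,3)]⟩⟩ ⟨false,1,⟨0,[(5,0),(17,0),
  (29,0)]⟩,⟨0,[(11,0),(38,0)]⟩⟩,.a ⟨true,0,⟨0,[(42,0)]⟩,⟨0,[(38,0)]⟩⟩ ⟨true,0,⟨5,[(5,2),(15,2),(1,
  1),(24,1)]⟩,⟨0,[(2,0),(4,0),(9,3),(5,2),(29,3)]⟩⟩ ⟨false,1,⟨7,[(15,1),(5,9),(1,1),(28,0),(0,4)]⟩,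
  ⟨0,[(0,0),(48,0)]⟩⟩,.e ⟨false,1,⟨0,[(21,0),(30,0)]⟩,⟨0,[(0,0)]⟩⟩ ⟨false,1,⟨0,[(5,0),(17,0),(29,
  0)]⟩,⟨0,[(0,0),(49,0)]⟩⟩]⟩) (.Q [0,0,1,0,0,0,0,0,-1,0,0,1] (.p true [0,0,0,0,1] [] (⟨0,[(37,0)]⟩,
  ⟨0,[(36,0)]⟩) .k 0 (⟨0,[]⟩,⟨0,[]⟩) .k .k) (.Q [0,0,0,0,0,-1,0,0,0,0,0,1] (.ed false [1,-1,0,0,1]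
  .k) (.Q [0,0,0,0,0,0,1,0,-1,0,-1,1] (.p false [0,0,1] [0,0,0,0,1] (⟨0,[(46,0)]⟩,⟨0,[(45,0)]⟩) .k
  2 (⟨0,[(39,0)]⟩,⟨0,[(38,0)]⟩) .k (.r (-1) ⟨0,[(16,0)]⟩ ⟨8,[(2,1),(20,0),(1,0),(5,5)]⟩)) (.S ⟨1,0,
  [0,2,0,-1],[0,0,0,0,1],[1,1],(⟨0,[(40,0)]⟩,⟨0,[(39,0)]⟩),⟨0,[(1,0)]⟩,.k,(.r 0 ⟨2,[(26,0),(24,0)]⟩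
  ⟨2,[(14,0),(2,0),(14,1),(23,1)]⟩),⟨true,0,⟨0,[]⟩,⟨0,[(58,0)]⟩⟩,⟨false,0,⟨0,[(54,0)]⟩,⟨0,[(53,0),
  (2,0)]⟩⟩,⟨false,1,⟨0,[(53,0),(2,0)]⟩,⟨0,[(54,0)]⟩⟩,⟨true,0,⟨0,[(58,0)]⟩,⟨0,[]⟩⟩,[.o ⟨false,(-1),
  ⟨2,[(25,0),(0,1),(1,1),(9,1)]⟩,⟨5,[(0,0),(1,3),(5,2),(1,3),(2,2),(23,0),(10,0),(7,5)]⟩⟩,.a ⟨true,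
  (-1),⟨0,[(31,0),(22,0)]⟩,⟨0,[(2,0),(5,0),(2,0)]⟩⟩ ⟨true,0,⟨0,[]⟩,⟨1,[(44,0),(0,0)]⟩⟩ ⟨false,0,⟨2,
  [(26,0),(24,0)]⟩,⟨0,[(53,0),(2,0)]⟩⟩,.o ⟨false,0,⟨0,[(38,0)]⟩,⟨2,[(0,0),(1,0),(7,0),(26,0),(10,
  0)]⟩⟩,.o ⟨false,0,⟨1,[(38,1),(5,0),(0,0)]⟩,⟨0,[(0,0),(9,0)]⟩⟩]⟩) (.K ⟨0,[0,0,0,0,1],0,(-1),(⟨0,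
  [(40,0)]⟩,⟨0,[(39,0)]⟩),.k,(.r 0 ⟨2,[(26,0),(24,0)]⟩ ⟨2,[(14,0),(2,0),(14,1),(23,1)]⟩),(.r 0 ⟨4,
  [(14,1),(1,0),(15,2),(18,0)]⟩ ⟨7,[(18,1),(5,1),(1,1),(28,0),(0,4)]⟩),.k,.k,[⟨0,[(0,0)]⟩,⟨0,[(2,
  0)]⟩,⟨0,[(37,0)]⟩,⟨2,[(25,1),(0,0),(1,0),(9,0)]⟩]⟩)) (.Q [0,0,-1,0,1,0,0,0,-1,-1,0,1] (.p true [0,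
  0,0,0,1] [1] (⟨0,[(39,0)]⟩,⟨0,[(38,0)]⟩) .k 1 (⟨0,[]⟩,⟨0,[]⟩) .k .k) (.R ⟨0,false,false,true,[0,0,
  0,0,1],[0,1],[1,1,1,1],(⟨0,[(40,0)]⟩,⟨0,[(39,0)]⟩),(⟨0,[(50,0)]⟩,⟨0,[(49,0)]⟩),⟨0,[(1,0)]⟩,.k,.k,
  (.r 0 ⟨2,[(26,0),(24,0)]⟩ ⟨2,[(14,0),(2,0),(14,1),(23,1)]⟩),(.r 0 ⟨2,[(26,0),(24,0)]⟩ ⟨2,[(14,0),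
  (2,0),(14,1),(23,1)]⟩),.k,.k,⟨true,0,⟨0,[]⟩,⟨1,[(44,0),(0,0)]⟩⟩,⟨false,1,⟨0,[(2,0),(3,0),(3,0)]⟩,
  ⟨1,[(38,1),(5,0),(0,0)]⟩⟩,⟨true,0,⟨3,[(14,0),(7,0),(9,0),(23,0)]⟩,⟨2,[(26,0),(24,0)]⟩⟩,⟨false,1,
  ⟨0,[(2,0),(5,0),(2,0)]⟩,⟨0,[(38,0),(15,0)]⟩⟩,⟨false,0,⟨0,[]⟩,⟨0,[]⟩⟩,⟨false,0,⟨0,[]⟩,⟨0,[]⟩⟩,[.o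
  ⟨false,0,⟨0,[(53,0)]⟩,⟨1,[(48,0),(5,1),(1,0)]⟩⟩,.a ⟨true,0,⟨3,[(2,0),(3,0),(12,1),(17,0),(7,0),(0,
  0),(0,0),(8,0)]⟩,⟨0,[(54,0)]⟩⟩ ⟨true,0,⟨3,[(14,0),(7,0),(9,0),(23,0)]⟩,⟨0,[(54,0)]⟩⟩ ⟨false,1,⟨11,
  [(0,4),(1,4),(2,2),(0,1),(1,5),(2,7),(25,1),(5,4)]⟩,⟨0,[(38,0),(15,0)]⟩⟩,.o ⟨false,0,⟨0,[(38,0)]⟩,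
  ⟨2,[(0,0),(1,0),(34,0),(10,0)]⟩⟩,.o ⟨false,0,⟨1,[(38,1),(5,0),(0,0)]⟩,⟨0,[(0,0)]⟩⟩]⟩) (.K ⟨0,[0,0,
  0,0,1],0,(-1),(⟨0,[(40,0)]⟩,⟨0,[(39,0)]⟩),.k,(.r 0 ⟨2,[(26,0),(24,0)]⟩ ⟨2,[(14,0),(2,0),(14,1),
  (23,1)]⟩),(.r 0 ⟨4,[(14,1),(1,0),(15,2),(18,0)]⟩ ⟨7,[(18,1),(5,1),(1,1),(28,0),(0,4)]⟩),.k,.k,[⟨0,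
  [(0,0),(9,0)]⟩,⟨0,[(2,0)]⟩,⟨0,[(37,0)]⟩,⟨2,[(25,1),(0,0),(1,0),(9,0)]⟩]⟩))) (.Q [0,0,0,0,1,0,0,0,
  -1,-1,0,1] (.p true [0,0,0,0,1] [1] (⟨0,[(38,0)]⟩,⟨0,[(37,0)]⟩) .k 1 (⟨0,[]⟩,⟨0,[]⟩) .k .k) (.Q
  [0,0,1,0,0,0,1,0,-1,0,-1,1] (.p false [0,0,1] [0,0,0,0,1] (⟨0,[(46,0)]⟩,⟨0,[(45,0)]⟩) .k 2 (⟨0,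
  [(39,0)]⟩,⟨0,[(38,0)]⟩) .k (.r (-1) ⟨0,[(16,0)]⟩ ⟨8,[(2,1),(20,0),(1,0),(5,5)]⟩)) (.R ⟨1,false,
  false,true,[1,0,0,0,-1],[1,0,-1],[0,0,0,-1],(⟨0,[(39,0)]⟩,⟨0,[(40,0)]⟩),(⟨0,[(46,0)]⟩,⟨0,[(47,
  0)]⟩),⟨1,[(2,0),(3,0),(14,0),(17,0),(5,0)]⟩,.k,.k,(.r (-1) ⟨7,[(18,1),(5,1),(1,1),(28,0),(0,4)]⟩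
  ⟨4,[(14,1),(1,0),(15,2),(18,0)]⟩),.k,(.r (-1) ⟨2,[(11,1),(4,0),(9,0),(29,0)]⟩ ⟨0,[(32,0)]⟩),.k,
  ⟨false,1,⟨2,[(11,1),(4,0),(9,0),(29,0)]⟩,⟨2,[(8,1),(23,0),(18,0)]⟩⟩,⟨true,0,⟨0,[(2,0),(42,0)]⟩,⟨0,
  [(0,0)]⟩⟩,⟨false,0,⟨0,[(54,0)]⟩,⟨0,[(53,0),(2,0)]⟩⟩,⟨true,(-1),⟨0,[(2,0),(0,0),(24,0),(16,0)]⟩,⟨0,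
  [(0,0),(10,0)]⟩⟩,⟨true,0,⟨0,[(58,0)]⟩,⟨0,[]⟩⟩,⟨true,(-1),⟨0,[(2,0),(0,0),(18,0),(22,0)]⟩,⟨2,[(0,
  2),(10,1),(4,0),(9,0),(29,0)]⟩⟩,[.a ⟨true,0,⟨0,[(43,0)]⟩,⟨0,[(9,0),(44,0),(1,0)]⟩⟩ ⟨true,0,⟨0,
  [(54,0)]⟩,⟨3,[(14,0),(7,0),(9,0),(23,0)]⟩⟩ ⟨false,0,⟨0,[(2,0),(40,0)]⟩,⟨0,[(0,0),(10,0)]⟩⟩,.o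
  ⟨false,1,⟨1,[(43,1),(4,0),(7,0)]⟩,⟨1,[(13,0),(2,0),(10,0)]⟩⟩,.o ⟨false,1,⟨0,[(1,0)]⟩,⟨0,[(38,
  0)]⟩⟩,.o ⟨false,1,⟨1,[(1,1),(42,0),(0,0)]⟩,⟨0,[(2,0)]⟩⟩]⟩) (.R ⟨1,false,false,false,[1,0,0,0,-1],
  [1,-1],[0,0,0,-1],(⟨0,[(39,0)]⟩,⟨0,[(40,0)]⟩),(⟨0,[(49,0)]⟩,⟨0,[(50,0)]⟩),⟨7,[(0,0),(1,0),(1,0),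
  (1,0),(0,0),(13,1),(17,5)]⟩,.k,.k,(.r (-1) ⟨7,[(18,1),(5,1),(1,1),(28,0),(0,4)]⟩ ⟨4,[(14,1),(1,0),
  (15,2),(18,0)]⟩),(.r (-1) ⟨2,[(14,0),(2,0),(14,1),(23,1)]⟩ ⟨2,[(26,0),(24,0)]⟩),.k,.k,⟨true,0,⟨1,
  [(44,0),(0,0)]⟩,⟨0,[]⟩⟩,⟨false,0,⟨0,[(38,0)]⟩,⟨0,[(1,0),(4,0),(38,0)]⟩⟩,⟨false,0,⟨0,[(54,0)]⟩,⟨0,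
  [(53,0),(2,0)]⟩⟩,⟨true,(-1),⟨0,[(0,0),(26,0),(0,0),(25,0)]⟩,⟨5,[(1,0),(3,1),(2,1),(1,0),(26,4),(7,
  0),(10,0)]⟩⟩,⟨true,0,⟨0,[(58,0)]⟩,⟨0,[]⟩⟩,⟨true,(-1),⟨0,[(0,0),(26,0),(0,0)]⟩,⟨0,[(37,0)]⟩⟩,[.a
  ⟨true,0,⟨0,[(54,0)]⟩,⟨4,[(5,0),(0,0),(1,0),(10,0),(17,0),(7,1),(0,1),(0,1),(8,0)]⟩⟩ ⟨true,0,⟨0,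
  [(54,0)]⟩,⟨3,[(14,0),(7,0),(9,0),(23,0)]⟩⟩ ⟨false,0,⟨1,[(0,0),(26,0),(10,0),(15,0)]⟩,⟨5,[(1,0),(3,
  1),(2,1),(1,0),(26,4),(7,0),(10,0)]⟩⟩,.o ⟨false,1,⟨1,[(48,0),(5,1),(1,0)]⟩,⟨0,[(53,0)]⟩⟩,.o
  ⟨false,1,⟨0,[(1,0)]⟩,⟨0,[(38,0)]⟩⟩,.o ⟨false,1,⟨1,[(1,1),(42,0),(0,0)]⟩,⟨0,[(2,0)]⟩⟩]⟩)) (.R ⟨2,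
  true,false,true,[0,1],[1,0,0,0,-1],[0,1,1],(⟨0,[]⟩,⟨0,[]⟩),(⟨0,[(38,0)]⟩,⟨0,[(39,0)]⟩),⟨0,[]⟩,.k,
  .k,.k,(.r 0 ⟨4,[(13,1),(1,0),(15,2),(18,0)]⟩ ⟨7,[(17,1),(5,1),(1,1),(28,0),(0,4)]⟩),.k,.k,⟨false,
  0,⟨0,[(57,0)]⟩,⟨1,[(54,0),(0,0)]⟩⟩,⟨true,1,⟨1,[(20,0),(15,0),(2,0),(7,0),(1,1)]⟩,⟨0,[(0,0)]⟩⟩,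
  ⟨false,0,⟨0,[(53,0)]⟩,⟨0,[(52,0),(2,0)]⟩⟩,⟨true,1,⟨0,[(9,0),(10,0),(5,0),(12,0),(9,1)]⟩,⟨0,[(29,
  0)]⟩⟩,⟨true,0,⟨0,[(57,0)]⟩,⟨0,[]⟩⟩,⟨false,2,⟨1,[(36,1),(10,0),(7,0)]⟩,⟨0,[(0,0)]⟩⟩,[]⟩)))))) (.R
  ⟨1,true,false,true,[1,0,-1],[0,1],[0,1,0,-1,0,0,0,-1],(⟨0,[(40,0)]⟩,⟨0,[(41,0)]⟩),(⟨0,[(44,0)]⟩,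
  ⟨0,[(43,0)]⟩),⟨0,[(29,0)]⟩,.k,.k,.k,.k,(.r (-1) ⟨7,[(12,1),(5,9),(1,1),(28,4),(0,0)]⟩ ⟨3,[(8,4),
  (7,0),(9,0),(23,0)]⟩),.k,⟨false,1,⟨7,[(12,1),(5,9),(1,1),(28,4),(0,0)]⟩,⟨0,[(5,0),(10,0)]⟩⟩,⟨true,
  0,⟨0,[(35,0)]⟩,⟨0,[(0,0)]⟩⟩,⟨false,0,⟨0,[(48,0)]⟩,⟨0,[(47,0),(2,0)]⟩⟩,⟨true,(-1),⟨0,[(3,0)]⟩,⟨4,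
  [(0,0),(10,0),(6,1),(1,0),(16,3),(4,1),(7,1)]⟩⟩,⟨true,0,⟨0,[(52,0)]⟩,⟨0,[]⟩⟩,⟨false,0,⟨3,[(2,1),
  (0,0),(1,1),(10,0),(0,2)]⟩,⟨0,[(0,0),(1,0),(17,0),(29,0)]⟩⟩,[]⟩))))))) (.N [0,0,1] 0 ⟨0,[(0,0)]⟩
  ⟨0,[(3,0)]⟩ .k))))))))))

theorem ok52 : chk K t52 l34 = true := by decide +kernel


end Helper25.S1T.Ymm_1c
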