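import Pool.Agent.Helper25.S1T.Ymm_1c_q

set_option autoImplicit false
set_option linter.all false

namespace Helper25.S1T.Ymm_1c

open Helper25.KG Helper25.KW Helper55.KE Helper11.CT

noncomputable def t53 : Tre :=
  (.Q [0,0,0,-2,0,0,-1,-1,0,-1,1] (.p true [0,0,1] [1] (⟨0,[(27,0)]⟩,⟨0,[(26,0)]⟩) .k 1 (⟨0,[]⟩,⟨0,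
  []⟩) .k .k) (.R ⟨1,true,false,true,[1,0,-1],[0,1],[0,0,0,-1,0,0,0,-1],(⟨0,[(27,0)]⟩,⟨0,[(28,0)]⟩),
  (⟨0,[(31,0)]⟩,⟨0,[(30,0)]⟩),⟨0,[(16,0)]⟩,.k,.k,.k,.k,(.r 0 ⟨5,[(1,5),(5,0),(24,0),(0,2)]⟩ ⟨3,[(4,
  5),(8,1),(12,5),(2,2),(7,0)]⟩),.k,⟨true,0,⟨0,[(1,0)]⟩,⟨5,[(3,1),(0,3),(8,0),(0,2),(11,6),(2,1)]⟩⟩,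
  ⟨false,0,⟨0,[(1,0),(2,0),(28,0)]⟩,⟨1,[(18,0),(0,0),(6,1),(2,0)]⟩⟩,⟨true,0,⟨0,[(35,0)]⟩,⟨0,[(34,
  0)]⟩⟩,⟨false,0,⟨0,[(4,0)]⟩,⟨3,[(0,1),(23,1),(4,0),(7,2)]⟩⟩,⟨false,1,⟨1,[(18,0),(0,0),(17,0)]⟩,⟨0,
  []⟩⟩,⟨true,0,⟨0,[(4,0),(29,0)]⟩,⟨0,[(0,0)]⟩⟩,[]⟩) (.S ⟨1,0,[0,0,1,0,0,0,0,-1],[1,1,-1],[1,1,1,1,0,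
  0,0,-1],(⟨0,[(27,0),(3,0)]⟩,⟨0,[(17,0)]⟩),⟨0,[(27,0)]⟩,.k,.k,⟨false,0,⟨0,[]⟩,⟨1,[(18,0),(0,0),(17,
  0)]⟩⟩,⟨true,0,⟨0,[(35,0)]⟩,⟨0,[(34,0)]⟩⟩,⟨true,0,⟨0,[(34,0)]⟩,⟨0,[(35,0)]⟩⟩,⟨false,1,⟨1,[(18,0),
  (0,0),(17,0)]⟩,⟨0,[]⟩⟩,[.a ⟨true,0,⟨2,[(1,1),(1,0),(20,0),(1,1),(6,1),(3,0)]⟩,⟨0,[(4,0),(30,0)]⟩⟩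
  ⟨false,(-1),⟨0,[(1,0),(1,0),(29,0)]⟩,⟨5,[(7,1),(10,0),(0,0),(3,5),(2,5),(9,3),(0,6)]⟩⟩ ⟨true,(-1),
  ⟨0,[(1,0),(1,0)]⟩,⟨1,[(23,1),(2,1),(9,0),(0,0)]⟩⟩,.o ⟨false,1,⟨5,[(1,3),(1,1),(20,1),(1,3),(2,2),
  (3,3),(3,4)]⟩,⟨0,[(23,0)]⟩⟩,.e ⟨true,(-1),⟨8,[(1,6),(1,8),(9,1),(18,0),(0,2)]⟩,⟨1,[(0,1),(6,1),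
  (18,1),(2,0),(7,0)]⟩⟩ ⟨true,(-1),⟨0,[(1,0),(1,0)]⟩,⟨0,[(23,0),(2,0),(9,0)]⟩⟩,.o ⟨false,1,⟨1,[(26,
  1),(2,0),(6,0)]⟩,⟨0,[(10,0)]⟩⟩]⟩))

theorem ok53 : chk K t53 l35 = true := by decide +kernel

noncomputable def t54 : Tre :=
  (.Q [0,0,1,0,-1,0,1,0,0,1,-1] (.p false [0,0,1] [1] (⟨0,[(29,0)]⟩,⟨0,[(28,0)]⟩) .k 1 (⟨0,[]⟩,⟨0,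
  []⟩) .k .k) (.S ⟨1,0,[0,0,0,-1,0,0,0,1],[0,0,1],[0,1,0,-1,0,0,0,1],(⟨0,[(30,0)]⟩,⟨0,[(29,0)]⟩),⟨0,
  [(19,0)]⟩,.k,.k,⟨false,0,⟨0,[(37,0)]⟩,⟨27,[(1,1),(1,9),(11,5),(22,8),(0,20)]⟩⟩,⟨true,0,⟨0,[(37,
  0)]⟩,⟨0,[(36,0)]⟩⟩,⟨true,0,⟨0,[(41,0)]⟩,⟨0,[]⟩⟩,⟨false,1,⟨1,[(20,0),(0,0),(17,0)]⟩,⟨0,[]⟩⟩,[.e
  ⟨false,1,⟨1,[(3,1),(5,1),(10,0),(0,0),(17,0)]⟩,⟨1,[(1,0),(33,0),(3,0)]⟩⟩ ⟨false,1,⟨0,[(3,0),(5,0),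
  (29,0)]⟩,⟨6,[(1,2),(1,0),(11,1),(22,2)]⟩⟩,.o ⟨false,1,⟨0,[(25,0),(11,0),(1,0)]⟩,⟨29,[(1,12),(3,1),
  (3,5),(16,3),(1,25),(2,14),(3,30)]⟩⟩,.o ⟨false,0,⟨0,[(12,0)]⟩,⟨1,[(28,1),(2,0),(6,0)]⟩⟩,.a ⟨true,
  (-1),⟨0,[(0,0)]⟩,⟨0,[(28,0),(9,0)]⟩⟩ ⟨false,1,⟨0,[(3,0),(5,0),(29,0)]⟩,⟨10,[(1,3),(3,1),(9,2),(23,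
  5)]⟩⟩ ⟨true,1,⟨0,[(3,0),(5,0),(29,0)]⟩,⟨1,[(1,0),(9,0),(22,0)]⟩⟩]⟩) (.Q [0,0,0,-2,0,0,-1,-1,0,-1,
  1] (.p true [0,0,1] [1] (⟨0,[(30,0)]⟩,⟨0,[(29,0)]⟩) .k 1 (⟨0,[]⟩,⟨0,[]⟩) .k .k) (.R ⟨1,false,
  false,true,[1,-1],[0,0,1],[1,1,0,0,0,0,0,1],(⟨0,[(33,0)]⟩,⟨0,[(34,0)]⟩),(⟨0,[(31,0)]⟩,⟨0,[(30,
  0)]⟩),⟨0,[(19,0),(0,0)]⟩,.k,.k,(.r (-1) ⟨2,[(10,1),(10,0),(0,0),(16,0),(0,0)]⟩ ⟨2,[(4,0),(1,0),(5,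
  0),(3,0),(23,1)]⟩),.k,(.r 0 ⟨1,[(2,0),(7,1),(25,0),(3,0)]⟩ ⟨1,[(4,1),(16,0),(0,0),(5,0),(0,0),(10,
  0)]⟩),.k,⟨true,0,⟨0,[]⟩,⟨1,[(28,0),(0,0)]⟩⟩,⟨false,0,⟨0,[(1,0),(0,0),(4,1),(2,0)]⟩,⟨1,[(21,0),(0,
  0),(6,1),(2,0)]⟩⟩,⟨true,0,⟨1,[(4,0),(21,0),(2,0)]⟩,⟨2,[(2,0),(5,0),(1,0),(28,0)]⟩⟩,⟨false,0,⟨0,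
  [(7,0)]⟩,⟨3,[(0,1),(26,1),(4,0),(7,2)]⟩⟩,⟨true,0,⟨0,[(4,0)]⟩,⟨17,[(2,3),(5,9),(1,9),(28,0),(0,
  2)]⟩⟩,⟨true,0,⟨0,[(7,0),(29,0)]⟩,⟨0,[(0,0)]⟩⟩,[.o ⟨false,0,⟨0,[(26,0)]⟩,⟨17,[(0,1),(0,5),(0,3),
  (24,7),(1,1),(2,4),(7,10)]⟩⟩,.e ⟨false,1,⟨3,[(1,2),(5,2),(2,0),(15,0),(2,0),(10,0)]⟩,⟨4,[(2,0),(5,
  1),(7,0),(22,0)]⟩⟩ ⟨false,1,⟨5,[(7,5),(2,1),(10,0),(0,0),(16,3),(0,0)]⟩,⟨27,[(0,6),(0,0),(0,7),(3,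
  2),(20,4),(1,14),(2,9)]⟩⟩,.a ⟨true,0,⟨1,[(28,0),(0,0)]⟩,⟨0,[(1,0),(0,0),(4,1),(2,0),(18,0)]⟩⟩
  ⟨false,1,⟨7,[(1,2),(5,2),(2,0),(10,1),(0,1),(3,4),(2,4),(10,2)]⟩,⟨8,[(2,3),(5,0),(1,0),(28,0),(0,
  2)]⟩⟩ ⟨true,0,⟨2,[(7,2),(2,0),(24,0)]⟩,⟨27,[(0,6),(0,0),(0,7),(3,2),(20,4),(1,14),(2,9)]⟩⟩,.o
  ⟨false,0,⟨3,[(0,1),(11,3),(13,1),(5,0),(7,2)]⟩,⟨0,[(39,0)]⟩⟩]⟩) (.Q [0,0,0,0,0,2,0,0,0,-1,1] (.p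
  true [0,0,1] [1] (⟨0,[(31,0)]⟩,⟨0,[(30,0)]⟩) .k 1 (⟨0,[]⟩,⟨0,[]⟩) .k .k) (.R ⟨0,false,false,false,
  [1,-1,-1],[1,-1],[1,1],(⟨0,[(20,0)]⟩,⟨1,[(0,0),(30,0),(0,1)]⟩),(⟨0,[(34,0)]⟩,⟨0,[(35,0)]⟩),⟨0,[(0,
  0)]⟩,.k,.k,(.r 0 ⟨4,[(1,0),(0,0),(0,2),(7,4),(28,0),(0,0)]⟩ ⟨1,[(5,1),(16,0),(0,0),(5,0),(0,0),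
  (10,0)]⟩),.k,.k,.k,⟨false,0,⟨0,[(38,0)]⟩,⟨5,[(11,1),(10,0),(0,0),(16,0),(0,3)]⟩⟩,⟨true,0,⟨0,[(14,
  0)]⟩,⟨0,[(30,0)]⟩⟩,⟨true,0,⟨1,[(5,0),(21,0),(2,0)]⟩,⟨2,[(3,0),(5,0),(1,0),(28,0)]⟩⟩,⟨false,1,⟨0,
  [(27,0),(13,0)]⟩,⟨11,[(3,4),(7,1),(16,1),(1,9),(6,0),(2,4)]⟩⟩,⟨false,0,⟨0,[]⟩,⟨0,[]⟩⟩,⟨false,0,⟨0,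
  []⟩,⟨0,[]⟩⟩,[.a ⟨true,0,⟨0,[(39,0)]⟩,⟨20,[(1,8),(1,3),(2,3),(4,0),(10,3),(1,3),(3,0),(1,7),(3,7),
  (2,1)]⟩⟩ ⟨false,0,⟨5,[(11,0),(24,0),(0,2)]⟩,⟨1,[(22,0),(0,0),(17,0)]⟩⟩ ⟨true,0,⟨0,[(12,0)]⟩,⟨5,
  [(5,0),(1,0),(5,0),(3,0),(12,5),(10,1)]⟩⟩,.o ⟨false,1,⟨1,[(33,0),(5,1),(1,0)]⟩,⟨0,[(38,0)]⟩⟩,.a
  ⟨true,0,⟨0,[(30,0)]⟩,⟨0,[(26,0)]⟩⟩ ⟨false,0,⟨0,[]⟩,⟨1,[(22,0),(0,0),(17,0)]⟩⟩ ⟨true,0,⟨0,[(12,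
  0)]⟩,⟨1,[(5,0),(22,0),(1,0)]⟩⟩,.a ⟨true,0,⟨1,[(29,0),(0,2)]⟩,⟨4,[(1,5),(0,0),(0,2),(7,4),(28,0),
  (0,0)]⟩⟩ ⟨true,0,⟨5,[(11,0),(24,0),(0,2)]⟩,⟨1,[(29,0),(0,0)]⟩⟩ ⟨false,1,⟨1,[(12,1),(27,0),(0,0)]⟩,
  ⟨5,[(5,0),(1,0),(5,0),(3,0),(12,5),(10,1)]⟩⟩]⟩) (.Q [0,0,0,0,0,2,0,0,0,0,-1] (.p false [0,0,1] []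
  (⟨0,[(32,0)]⟩,⟨0,[(31,0)]⟩) .k 0 (⟨0,[]⟩,⟨0,[]⟩) .k .k) (.R ⟨0,false,false,false,[0,-1,1],[1,-1,
  -1],[1,1,1],(⟨0,[(22,0)]⟩,⟨1,[(0,0),(31,1),(0,0)]⟩),(⟨0,[(21,0)]⟩,⟨1,[(0,0),(32,2)]⟩),⟨0,[(0,0)]⟩,
  .k,.k,(.r (-2) ⟨7,[(3,4),(5,4),(2,6),(10,5),(0,5),(3,2),(2,2),(10,4)]⟩ ⟨10,[(4,4),(3,7),(9,0),(23,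
  1)]⟩),.k,.k,.k,⟨false,0,⟨1,[(6,0),(21,0),(2,0)]⟩,⟨5,[(4,1),(5,1),(1,1),(28,4),(0,2)]⟩⟩,⟨true,1,⟨0,
  [(3,0),(27,0)]⟩,⟨3,[(4,1),(4,3),(3,2),(0,1),(15,0),(9,4)]⟩⟩,⟨false,(-1),⟨3,[(4,1),(9,1),(15,0),(0,
  0)]⟩,⟨7,[(3,6),(5,6),(2,4),(10,1),(0,1),(3,0),(2,0),(10,6)]⟩⟩,⟨true,0,⟨14,[(3,14),(0,12),(3,1),(3,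
  5),(16,3),(1,10),(6,0)]⟩,⟨0,[(9,0),(18,0),(11,0)]⟩⟩,⟨false,0,⟨0,[]⟩,⟨0,[]⟩⟩,⟨false,0,⟨0,[]⟩,⟨0,
  []⟩⟩,[.e ⟨false,0,⟨0,[(44,0)]⟩,⟨1,[(41,0),(0,0)]⟩⟩ ⟨false,1,⟨9,[(2,5),(0,15),(0,7),(7,9),(18,9),
  (9,0),(0,0)]⟩,⟨0,[(9,0),(20,0)]⟩⟩,.o ⟨false,1,⟨9,[(3,3),(0,1),(5,5),(1,1),(18,5),(2,2),(7,4)]⟩,⟨0,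
  [(19,0)]⟩⟩,.o ⟨false,0,⟨0,[(30,0)]⟩,⟨0,[(3,0)]⟩⟩,.a ⟨true,(-1),⟨6,[(4,2),(4,5),(4,4),(5,0),(10,0),
  (8,13),(1,0)]⟩,⟨4,[(2,5),(0,5),(0,2),(7,4),(18,4),(9,0),(0,0)]⟩⟩ ⟨false,0,⟨0,[]⟩,⟨1,[(23,0),(0,0),
  (17,0)]⟩⟩ ⟨true,1,⟨9,[(2,5),(0,15),(0,7),(7,9),(18,9),(9,0),(0,0)]⟩,⟨1,[(9,1),(3,0),(0,1),(15,0),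
  (9,0)]⟩⟩]⟩) (.Q [0,0,1,0,-1,0,0,0,1,1,0,-1] (.p false [0,0,0,0,1] [1] (⟨0,[(26,0)]⟩,⟨0,[(25,0)]⟩)
  .k 1 (⟨0,[]⟩,⟨0,[]⟩) .k .k) (.Q [0,-2,0,1,2,0,-1,-1,-1,-1,1,1] (.p true [0,0,1] [1,0,0,0,-1] (⟨0,
  [(34,0)]⟩,⟨0,[(33,0)]⟩) .k 2 (⟨0,[(26,0)]⟩,⟨0,[(27,0)]⟩) .k (.r (-1) ⟨3,[(4,0),(2,0),(2,0),(2,0),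
  (10,2),(0,2),(3,1),(2,1)]⟩ ⟨8,[(5,3),(5,0),(1,0),(28,0),(0,2)]⟩)) (.I [0,0,-2,0,0,2,0,0,1] (.I [1,
  -1,-2,-2,1] (.I [0,0,2,0,1,-2,0,0,-1] (.N [0,2,0,0,1] 1 ⟨0,[(13,0)]⟩ ⟨0,[(1,0)]⟩ (.x 0 ⟨0,[(2,
  0)]⟩ ⟨0,[(0,0)]⟩)) (.S ⟨1,0,[0,1,0,-1],[0,0,0,0,1],[1,2],(⟨0,[(31,0)]⟩,⟨0,[(30,0)]⟩),⟨3,[(0,1),(4,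
  1),(0,1),(12,1),(8,1),(2,1),(7,0),(5,1),(1,0)]⟩,.k,(.r 0 ⟨2,[(17,0),(24,0)]⟩ ⟨5,[(11,1),(11,1),(4,
  0),(0,0),(5,0),(0,0),(10,4)]⟩),⟨false,0,⟨0,[]⟩,⟨1,[(28,0),(0,0),(17,0)]⟩⟩,⟨true,0,⟨0,[(45,0)]⟩,⟨0,
  [(44,0)]⟩⟩,⟨true,0,⟨0,[(44,0)]⟩,⟨0,[(45,0)]⟩⟩,⟨false,1,⟨1,[(28,0),(0,0),(17,0)]⟩,⟨0,[]⟩⟩,[.o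
  ⟨false,(-1),⟨7,[(0,3),(3,3),(0,1),(0,1),(10,2),(1,4),(10,3),(8,4),(5,3)]⟩,⟨1,[(3,0),(10,0),(13,0),
  (10,0)]⟩⟩,.a ⟨true,(-1),⟨7,[(0,3),(3,3),(0,1),(0,1),(12,1),(10,3),(8,0),(5,9),(1,0)]⟩,⟨1,[(3,0),
  (3,0),(5,0),(3,0),(10,0)]⟩⟩ ⟨false,0,⟨5,[(17,0),(24,0),(0,2)]⟩,⟨1,[(28,0),(0,0),(17,0)]⟩⟩ ⟨true,0,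
  ⟨0,[(45,0)]⟩,⟨5,[(11,0),(1,0),(5,0),(3,0),(23,1)]⟩⟩,.e ⟨false,0,⟨0,[(49,0)]⟩,⟨0,[(47,0)]⟩⟩ ⟨false,
  0,⟨0,[(45,0)]⟩,⟨1,[(3,0),(10,0),(14,0)]⟩⟩,.o ⟨false,(-1),⟨3,[(0,3),(4,1),(0,1),(12,5),(10,3),(8,
  2),(5,5),(1,2)]⟩,⟨1,[(28,1),(10,0),(6,0)]⟩⟩]⟩)) (.Q [0,2,0,0,-2,0,0,0,1,1,0,-1] (.p false [0,0,0,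
  0,1] [1] (⟨0,[(30,0)]⟩,⟨0,[(29,0)]⟩) .k 1 (⟨0,[]⟩,⟨0,[]⟩) .k .k) (.Q [0,0,-1,0,1,0,0,0,-1,0,0,1]
  (.p true [0,0,0,0,1] [] (⟨0,[(31,0)]⟩,⟨0,[(30,0)]⟩) .k 0 (⟨0,[]⟩,⟨0,[]⟩) .k .k) (.Q [0,0,0,0,0,-1,
  0,0,0,0,0,1] (.ed false [1,-1,0,0,1] .k) (.S ⟨1,0,[0,1,0,-1],[0,0,0,0,1],[0,2,0,-1],(⟨0,[(33,0)]⟩,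
  ⟨0,[(32,0)]⟩),⟨0,[(0,0)]⟩,.k,(.r 0 ⟨2,[(19,0),(24,0)]⟩ ⟨5,[(13,1),(11,1),(4,0),(0,0),(5,0),(0,0),
  (10,4)]⟩),⟨false,0,⟨0,[(47,0)]⟩,⟨1,[(5,0),(10,0),(14,0)]⟩⟩,⟨true,0,⟨0,[(47,0)]⟩,⟨0,[(46,0)]⟩⟩,
  ⟨true,0,⟨0,[(51,0)]⟩,⟨0,[]⟩⟩,⟨false,1,⟨1,[(30,0),(0,0),(17,0)]⟩,⟨0,[]⟩⟩,[.o ⟨false,(-1),⟨1,[(2,1),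
  (38,0),(5,1),(1,0)]⟩,⟨1,[(5,0),(10,0),(13,0),(10,0)]⟩⟩,.a ⟨true,(-1),⟨0,[(2,0),(44,0),(1,0)]⟩,⟨12,
  [(1,5),(3,1),(3,1),(3,0),(1,1),(9,0),(4,4)]⟩⟩ ⟨false,0,⟨2,[(19,0),(24,0)]⟩,⟨1,[(5,0),(10,0),(14,
  0)]⟩⟩ ⟨true,0,⟨0,[(47,0)]⟩,⟨5,[(13,0),(1,0),(5,0),(3,0),(23,1)]⟩⟩,.a ⟨true,(-1),⟨0,[(2,0),(46,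
  0)]⟩,⟨0,[(30,0)]⟩⟩ ⟨true,(-1),⟨0,[(15,0),(3,0)]⟩,⟨1,[(5,0),(10,0),(14,0)]⟩⟩ ⟨false,0,⟨0,[(47,0)]⟩,
  ⟨1,[(5,0),(10,0),(14,0)]⟩⟩,.a ⟨true,(-1),⟨0,[(6,0)]⟩,⟨0,[(1,0)]⟩⟩ ⟨false,0,⟨2,[(19,0),(24,0)]⟩,⟨5,
  [(13,0),(1,0),(5,0),(3,0),(23,7)]⟩⟩ ⟨true,0,⟨2,[(19,0),(24,0)]⟩,⟨5,[(13,0),(1,0),(5,0),(3,0),(23,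
  1)]⟩⟩]⟩) (.Q [0,0,-1,1,1,0,0,0,-1,0,0,1] (.p true [0,0,0,0,1] [] (⟨0,[(33,0)]⟩,⟨0,[(32,0)]⟩) .k 0
  (⟨0,[]⟩,⟨0,[]⟩) .k .k) (.R ⟨0,false,false,false,[0,0,0,0,1],[0,1],[0,1,1],(⟨0,[(34,0)]⟩,⟨0,[(33,
  0)]⟩),(⟨0,[(44,0)]⟩,⟨0,[(43,0)]⟩),⟨0,[(1,0)]⟩,.k,.k,(.r 0 ⟨2,[(20,0),(24,0)]⟩ ⟨5,[(14,1),(11,1),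
  (4,0),(0,0),(5,0),(0,0),(10,4)]⟩),(.r 0 ⟨2,[(20,0),(24,0)]⟩ ⟨5,[(14,1),(11,1),(4,0),(0,0),(5,0),
  (0,0),(10,4)]⟩),.k,.k,⟨false,0,⟨2,[(20,0),(24,0)]⟩,⟨1,[(6,0),(10,0),(14,0)]⟩⟩,⟨true,1,⟨0,[(2,0)]⟩,
  ⟨1,[(3,1),(18,1),(19,0),(5,1),(1,2)]⟩⟩,⟨true,0,⟨1,[(38,0),(0,0)]⟩,⟨5,[(20,0),(24,0),(0,2)]⟩⟩,
  ⟨false,2,⟨1,[(6,0),(10,0),(13,0),(18,0)]⟩,⟨1,[(3,1),(38,0),(5,1),(1,0)]⟩⟩,⟨false,0,⟨0,[]⟩,⟨0,[]⟩⟩,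
  ⟨false,0,⟨0,[]⟩,⟨0,[]⟩⟩,[.e ⟨false,0,⟨0,[(52,0)]⟩,⟨1,[(49,0),(0,0)]⟩⟩ ⟨false,1,⟨0,[(0,0)]⟩,⟨5,[(7,
  1),(12,1),(11,3),(5,0),(0,0),(2,0),(7,0)]⟩⟩,.o ⟨false,1,⟨1,[(6,0),(10,0),(14,0)]⟩,⟨1,[(20,0),(1,
  0),(19,0)]⟩⟩,.a ⟨true,(-1),⟨0,[(3,0),(46,0)]⟩,⟨0,[(31,0)]⟩⟩ ⟨false,0,⟨1,[(38,0),(0,0)]⟩,⟨1,[(49,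
  0),(0,0)]⟩⟩ ⟨true,1,⟨18,[(0,5),(5,1),(3,1),(3,0),(1,1),(9,0),(4,10)]⟩,⟨1,[(3,1),(38,0),(5,1),(1,
  0)]⟩⟩,.e ⟨true,0,⟨0,[(52,0)]⟩,⟨0,[]⟩⟩ ⟨true,1,⟨0,[(0,0)]⟩,⟨1,[(7,1),(12,0),(1,0),(19,0)]⟩⟩]⟩) (.R
  ⟨0,false,false,true,[0,0,0,0,1],[1,0,0,0,-1],[0,1,0,-1],(⟨0,[(34,0)]⟩,⟨0,[(33,0)]⟩),(⟨0,[(33,0)]⟩,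
  ⟨0,[(34,0)]⟩),⟨0,[(1,0)]⟩,.k,.k,(.r 0 ⟨2,[(20,0),(24,0)]⟩ ⟨5,[(14,1),(11,1),(4,0),(0,0),(5,0),(0,
  0),(10,4)]⟩),.k,.k,.k,⟨false,0,⟨2,[(20,0),(24,0)]⟩,⟨1,[(6,0),(10,0),(14,0)]⟩⟩,⟨true,2,⟨1,[(2,3),
  (19,1),(19,0),(5,1),(1,0)]⟩,⟨0,[(0,1),(9,1),(0,0),(0,0),(7,0),(18,0)]⟩⟩,⟨true,0,⟨0,[(48,0)]⟩,⟨0,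
  [(47,0)]⟩⟩,⟨false,3,⟨1,[(2,3),(19,1),(19,0),(5,1),(1,2)]⟩,⟨4,[(0,4),(2,4),(6,1),(0,1),(0,0),(36,
  1),(0,1)]⟩⟩,⟨false,0,⟨0,[]⟩,⟨0,[]⟩⟩,⟨false,0,⟨0,[]⟩,⟨0,[]⟩⟩,[.a ⟨true,1,⟨0,[(31,0)]⟩,⟨0,[(3,0),
  (46,0)]⟩⟩ ⟨false,0,⟨2,[(20,0),(24,0)]⟩,⟨1,[(6,0),(10,0),(14,0)]⟩⟩ ⟨true,2,⟨1,[(2,3),(19,1),(19,0),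
  (5,1),(1,0)]⟩,⟨0,[(0,1),(9,1),(0,0),(0,0),(7,0),(18,0)]⟩⟩,.o ⟨false,2,⟨1,[(31,1),(10,0),(7,0)]⟩,
  ⟨32,[(0,10),(2,17),(6,5),(0,9),(0,2),(8,3),(10,3),(9,6)]⟩⟩,.a ⟨true,(-1),⟨0,[(3,0),(46,0)]⟩,⟨0,
  [(31,0)]⟩⟩ ⟨false,0,⟨0,[(48,0)]⟩,⟨1,[(6,0),(10,0),(14,0)]⟩⟩ ⟨true,2,⟨1,[(2,3),(19,1),(19,0),(5,1),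
  (1,0)]⟩,⟨4,[(0,4),(2,4),(6,1),(0,1),(0,0),(36,1),(0,1)]⟩⟩,.a ⟨true,(-1),⟨0,[(7,0)]⟩,⟨0,[(2,0)]⟩⟩
  ⟨true,0,⟨2,[(20,0),(24,0)]⟩,⟨5,[(14,0),(1,0),(5,0),(3,0),(23,1)]⟩⟩ ⟨false,3,⟨1,[(2,1),(28,1),(10,
  0),(7,0)]⟩,⟨0,[(0,1),(9,1),(0,0),(0,0),(7,0),(18,0)]⟩⟩]⟩))) (.Q [0,0,0,0,0,1,0,0,0,0,0,-1] (.ed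
  true [1,-1,0,0,1] .k) (.R ⟨0,false,false,true,[0,0,0,0,1],[0,1],[],(⟨0,[(33,0)]⟩,⟨0,[(32,0)]⟩),
  (⟨0,[(43,0)]⟩,⟨0,[(42,0)]⟩),⟨0,[(0,0)]⟩,.k,.k,(.r 0 ⟨2,[(19,0),(24,0)]⟩ ⟨5,[(13,1),(11,1),(4,0),
  (0,0),(5,0),(0,0),(10,4)]⟩),(.r 0 ⟨2,[(19,0),(24,0)]⟩ ⟨5,[(13,1),(11,1),(4,0),(0,0),(5,0),(0,0),
  (10,4)]⟩),.k,.k,⟨true,1,⟨5,[(19,1),(10,0),(0,0),(16,0),(0,3)]⟩,⟨0,[(21,0)]⟩⟩,⟨false,2,⟨0,[(30,0),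
  (17,0)]⟩,⟨0,[(1,0)]⟩⟩,⟨false,1,⟨0,[(49,0)]⟩,⟨0,[(51,0)]⟩⟩,⟨true,1,⟨1,[(5,0),(3,0),(5,0),(3,0),(10,
  0)]⟩,⟨8,[(1,5),(16,1),(0,3),(1,0),(9,0)]⟩⟩,⟨false,0,⟨0,[]⟩,⟨0,[]⟩⟩,⟨false,0,⟨0,[]⟩,⟨0,[]⟩⟩,[.o
  ⟨false,0,⟨0,[(46,0)]⟩,⟨1,[(41,0),(5,1),(1,0)]⟩⟩,.a ⟨true,0,⟨15,[(2,2),(2,1),(3,5),(1,1),(2,2),(15,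
  3),(1,2),(5,3),(3,5)]⟩,⟨0,[(47,0)]⟩⟩ ⟨false,1,⟨1,[(48,0),(0,0)]⟩,⟨0,[(51,0)]⟩⟩ ⟨true,1,⟨1,[(5,0),
  (3,0),(5,0),(3,0),(10,0)]⟩,⟨0,[(1,0),(45,0)]⟩⟩,.e ⟨false,1,⟨1,[(30,0),(0,0),(17,0)]⟩,⟨0,[]⟩⟩
  ⟨false,1,⟨1,[(5,0),(3,0),(5,0),(3,0),(10,0)]⟩,⟨2,[(1,1),(17,0),(11,0),(17,1)]⟩⟩,.o ⟨false,(-1),⟨0,
  [(1,0)]⟩,⟨1,[(30,1),(10,0),(6,0)]⟩⟩]⟩) (.S ⟨1,0,[0,1,0,-1],[0,0,0,0,1],[1,2],(⟨0,[(33,0)]⟩,⟨0,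
  [(32,0)]⟩),⟨0,[(0,0)]⟩,.k,(.r 0 ⟨2,[(19,0),(24,0)]⟩ ⟨5,[(13,1),(11,1),(4,0),(0,0),(5,0),(0,0),(10,
  4)]⟩),⟨false,0,⟨0,[]⟩,⟨1,[(30,0),(0,0),(17,0)]⟩⟩,⟨true,0,⟨0,[(47,0)]⟩,⟨0,[(46,0)]⟩⟩,⟨true,0,⟨0,
  [(46,0)]⟩,⟨0,[(47,0)]⟩⟩,⟨false,1,⟨1,[(30,0),(0,0),(17,0)]⟩,⟨0,[]⟩⟩,[.o ⟨false,(-1),⟨8,[(1,5),(16,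
  1),(0,3),(1,0),(9,0)]⟩,⟨1,[(5,0),(10,0),(13,0),(10,0)]⟩⟩,.a ⟨true,(-1),⟨5,[(1,1),(0,2),(3,0),(4,
  0),(4,1),(2,2),(18,1),(10,3)]⟩,⟨1,[(5,0),(3,0),(5,0),(3,0),(10,0)]⟩⟩ ⟨false,0,⟨5,[(19,0),(24,0),
  (0,2)]⟩,⟨1,[(30,0),(0,0),(17,0)]⟩⟩ ⟨true,0,⟨0,[(47,0)]⟩,⟨5,[(13,0),(1,0),(5,0),(3,0),(23,1)]⟩⟩,.e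
  ⟨false,0,⟨0,[(51,0)]⟩,⟨0,[(49,0)]⟩⟩ ⟨false,0,⟨0,[(47,0)]⟩,⟨1,[(5,0),(10,0),(14,0)]⟩⟩,.o ⟨false,
  (-1),⟨0,[(1,0)]⟩,⟨1,[(30,1),(10,0),(6,0)]⟩⟩]⟩))) (.Q [0,-1,0,0,1,0,0,0,-1,0,0,1] (.p true [0,0,0,
  0,1] [] (⟨0,[(31,0)]⟩,⟨0,[(30,0)]⟩) .k 0 (⟨0,[]⟩,⟨0,[]⟩) .k .k) (.Q [0,0,0,0,0,-1,0,0,0,0,0,1]
  (.ed false [1,-1,0,0,1] .k) (.S ⟨1,0,[0,1,0,-1],[0,0,0,0,1],[1,2],(⟨0,[(33,0)]⟩,⟨0,[(32,0)]⟩),⟨0,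
  [(0,0)]⟩,.k,(.r 0 ⟨2,[(19,0),(24,0)]⟩ ⟨5,[(2,1),(3,1),(6,1),(11,1),(4,0),(0,0),(17,2)]⟩),⟨false,0,
  ⟨0,[]⟩,⟨1,[(30,0),(0,0),(17,0)]⟩⟩,⟨true,0,⟨0,[(47,0)]⟩,⟨0,[(46,0)]⟩⟩,⟨true,0,⟨0,[(46,0)]⟩,⟨0,[(47,
  0)]⟩⟩,⟨false,1,⟨1,[(30,0),(0,0),(17,0)]⟩,⟨0,[]⟩⟩,[.e ⟨false,0,⟨0,[(44,0)]⟩,⟨0,[(49,0)]⟩⟩ ⟨false,0,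
  ⟨2,[(19,0),(24,0)]⟩,⟨1,[(5,0),(10,0),(14,0)]⟩⟩,.o ⟨false,0,⟨11,[(2,1),(3,5),(12,3),(11,7),(5,0),
  (0,0),(2,1)]⟩,⟨0,[(1,0),(8,0),(4,0),(4,0)]⟩⟩,.o ⟨false,0,⟨0,[(31,0)]⟩,⟨2,[(1,2),(8,0),(4,1),(3,0),
  (0,0),(20,0)]⟩⟩,.a ⟨true,(-1),⟨0,[(6,0)]⟩,⟨5,[(1,5),(17,0),(24,0),(0,2)]⟩⟩ ⟨false,0,⟨5,[(19,0),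
  (24,0),(0,2)]⟩,⟨0,[(2,0),(3,0)]⟩⟩ ⟨true,0,⟨2,[(19,0),(24,0)]⟩,⟨5,[(13,0),(1,0),(5,0),(3,0),(23,
  1)]⟩⟩]⟩) (.Q [0,0,-1,0,0,0,0,0,1,0,0,-1] (.p false [0,0,0,0,1] [] (⟨0,[(33,0)]⟩,⟨0,[(32,0)]⟩) .k
  0 (⟨0,[]⟩,⟨0,[]⟩) .k .k) (.S ⟨1,0,[0,-1,0,-1],[1,0,0,0,-1],[1],(⟨0,[(33,0)]⟩,⟨0,[(34,0)]⟩),⟨2,[(1,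
  0),(6,0),(0,0),(23,1)]⟩,.k,(.r (-1) ⟨5,[(20,1),(10,0),(0,0),(16,0),(0,3)]⟩ ⟨3,[(14,0),(11,1),(9,
  0),(2,0)]⟩),⟨false,0,⟨0,[]⟩,⟨1,[(31,0),(0,0),(17,0)]⟩⟩,⟨true,0,⟨0,[(48,0)]⟩,⟨0,[(47,0)]⟩⟩,⟨true,0,
  ⟨0,[(47,0)]⟩,⟨0,[(48,0)]⟩⟩,⟨false,1,⟨1,[(31,0),(0,0),(17,0)]⟩,⟨0,[]⟩⟩,[.a ⟨true,1,⟨0,[(2,0),(45,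
  0)]⟩,⟨0,[(24,0)]⟩⟩ ⟨true,0,⟨0,[]⟩,⟨1,[(38,0),(0,0)]⟩⟩ ⟨false,1,⟨5,[(20,1),(10,0),(0,0),(16,0),(0,
  3)]⟩,⟨0,[(47,0)]⟩⟩,.o ⟨false,2,⟨0,[(3,0),(44,0)]⟩,⟨0,[(19,0)]⟩⟩,.o ⟨false,1,⟨2,[(2,2),(8,0),(4,1),
  (3,0),(0,0),(20,0)]⟩,⟨0,[(32,0)]⟩⟩,.o ⟨false,1,⟨3,[(3,1),(16,0),(1,2),(8,1),(10,0)]⟩,⟨0,[(0,
  0)]⟩⟩]⟩) (.K ⟨0,[1,0,0,0,-1],1,1,(⟨0,[(33,0)]⟩,⟨0,[(34,0)]⟩),.k,(.r (-1) ⟨5,[(20,1),(10,0),(0,0),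
  (16,0),(0,3)]⟩ ⟨3,[(14,0),(11,1),(9,0),(2,0)]⟩),(.r (-1) ⟨5,[(3,1),(3,1),(6,1),(11,1),(4,0),(0,0),
  (17,2)]⟩ ⟨2,[(20,0),(24,0)]⟩),.k,.k,[⟨0,[(0,0),(10,0)]⟩,⟨0,[(7,0)]⟩,⟨0,[(25,0),(26,0)]⟩,⟨11,[(0,
  5),(1,5),(17,0),(21,5),(2,0),(0,2)]⟩]⟩))) (.R ⟨2,false,false,true,[0,1],[0,0,0,0,1],[1,0,1,1],(⟨0,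
  []⟩,⟨0,[]⟩),(⟨0,[(32,0)]⟩,⟨0,[(31,0)]⟩),⟨0,[]⟩,.k,.k,.k,(.r (-1) ⟨5,[(1,1),(3,1),(6,1),(11,1),(4,
  0),(0,0),(17,2)]⟩ ⟨2,[(18,0),(24,0)]⟩),.k,.k,⟨true,1,⟨5,[(12,0),(1,0),(5,0),(3,0),(23,7)]⟩,⟨0,
  [(14,0),(3,0)]⟩⟩,⟨false,0,⟨0,[(30,0)]⟩,⟨2,[(1,2),(6,3),(0,0),(0,1),(3,1),(3,4),(18,2),(6,0)]⟩⟩,
  ⟨true,0,⟨0,[]⟩,⟨0,[(50,0)]⟩⟩,⟨false,(-1),⟨0,[(0,0),(45,0)]⟩,⟨1,[(4,0),(10,0),(13,0),(18,0)]⟩⟩,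
  ⟨false,1,⟨1,[(4,0),(10,0),(14,0)]⟩,⟨0,[(46,0)]⟩⟩,⟨false,(-1),⟨0,[(0,0)]⟩,⟨0,[(29,0),(18,0)]⟩⟩,[.o
  ⟨false,(-1),⟨2,[(17,1),(0,0),(1,0),(9,0)]⟩,⟨0,[(1,0)]⟩⟩,.o ⟨false,(-1),⟨0,[(0,0)]⟩,⟨3,[(1,1),(27,
  2),(0,0),(9,0)]⟩⟩,.a ⟨true,0,⟨36,[(4,1),(3,43),(0,10),(0,20),(2,1),(4,36),(12,1),(5,30),(3,3),(6,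
  5)]⟩,⟨1,[(36,0),(0,0)]⟩⟩ ⟨true,0,⟨5,[(12,0),(1,0),(5,0),(3,0),(23,1)]⟩,⟨2,[(18,0),(24,0)]⟩⟩
  ⟨false,(-1),⟨5,[(0,1),(4,1),(12,0),(1,2),(9,1),(9,0)]⟩,⟨6,[(1,4),(2,1),(3,7),(0,0),(0,2),(7,6),
  (18,4),(10,1)]⟩⟩,.e ⟨false,1,⟨1,[(4,0),(10,0),(14,0)]⟩,⟨0,[(46,0)]⟩⟩ ⟨false,(-1),⟨0,[(0,0)]⟩,⟨0,
  [(29,0),(18,0)]⟩⟩]⟩)))) (.Q [0,0,0,0,0,-1,0,0,0,0,0,1] (.ed false [1,-1,0,0,1] .k) (.Q [0,0,1,1,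
  -1,0,0,0,1,1,0,-1] (.p false [0,0,0,0,1] [1] (⟨0,[(30,0)]⟩,⟨0,[(29,0)]⟩) .k 1 (⟨0,[]⟩,⟨0,[]⟩) .k
  .k) (.Q [0,-1,0,-1,1,0,0,0,-1,0,0,1] (.p true [0,0,0,0,1] [] (⟨0,[(31,0)]⟩,⟨0,[(30,0)]⟩) .k 0 (⟨0,
  []⟩,⟨0,[]⟩) .k .k) (.S ⟨1,0,[0,-1,0,-1],[1,0,0,0,-1],[1],(⟨0,[(31,0)]⟩,⟨0,[(32,0)]⟩),⟨33,[(1,10),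
  (1,10),(2,2),(0,2),(0,9),(0,12),(0,4),(7,10),(0,2),(11,22),(16,2)]⟩,.k,(.r (-1) ⟨3,[(0,0),(17,0),
  (11,0),(16,0),(0,1)]⟩ ⟨3,[(12,0),(11,1),(9,0),(2,0)]⟩),⟨false,0,⟨0,[]⟩,⟨1,[(29,0),(0,0),(17,0)]⟩⟩,
  ⟨true,0,⟨0,[(46,0)]⟩,⟨0,[(45,0)]⟩⟩,⟨true,0,⟨0,[(45,0)]⟩,⟨0,[(46,0)]⟩⟩,⟨false,1,⟨1,[(29,0),(0,0),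
  (17,0)]⟩,⟨0,[]⟩⟩,[.a ⟨true,1,⟨0,[(0,0)]⟩,⟨0,[(22,0)]⟩⟩ ⟨true,0,⟨0,[]⟩,⟨1,[(36,0),(0,0)]⟩⟩ ⟨false,
  1,⟨3,[(0,0),(17,0),(11,0),(16,0),(0,1)]⟩,⟨0,[(45,0)]⟩⟩,.o ⟨false,2,⟨1,[(0,1),(39,0),(7,0)]⟩,⟨0,
  [(17,0)]⟩⟩,.o ⟨false,1,⟨0,[(0,0),(8,0),(4,0),(4,0)]⟩,⟨0,[(30,0)]⟩⟩,.o ⟨false,1,⟨1,[(0,0),(19,0),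
  (8,0),(10,0)]⟩,⟨0,[(1,0),(7,0),(9,0)]⟩⟩]⟩) (.Q [0,0,0,0,1,0,0,0,-1,-1,0,1] (.p true [0,0,0,0,1]
  [1] (⟨0,[(32,0)]⟩,⟨0,[(31,0)]⟩) .k 1 (⟨0,[]⟩,⟨0,[]⟩) .k .k) (.R ⟨1,false,false,false,[1,0,0,0,-1],
  [1,-1],[1],(⟨0,[(32,0)]⟩,⟨0,[(33,0)]⟩),(⟨0,[(42,0)]⟩,⟨0,[(43,0)]⟩),⟨25,[(1,4),(2,4),(2,3),(0,3),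
  (0,3),(0,2),(0,1),(7,4),(12,20),(5,0),(10,3)]⟩,.k,.k,(.r (-1) ⟨5,[(19,1),(10,0),(0,0),(16,0),(0,
  3)]⟩ ⟨3,[(13,0),(11,1),(9,0),(2,0)]⟩),(.r (-1) ⟨5,[(13,1),(11,1),(4,0),(0,0),(5,0),(0,0),(10,4)]⟩
  ⟨2,[(19,0),(24,0)]⟩),.k,.k,⟨true,0,⟨5,[(13,0),(1,0),(5,0),(3,0),(23,1)]⟩,⟨0,[(47,0)]⟩⟩,⟨false,0,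
  ⟨0,[(31,0)]⟩,⟨6,[(0,4),(4,1),(3,7),(0,0),(0,2),(7,6),(18,4)]⟩⟩,⟨false,0,⟨0,[]⟩,⟨1,[(30,0),(0,0),
  (17,0)]⟩⟩,⟨true,(-1),⟨0,[(1,0),(45,1)]⟩,⟨10,[(0,1),(4,0),(3,2),(1,0),(18,7),(7,1),(6,2)]⟩⟩,⟨true,
  0,⟨0,[(46,0)]⟩,⟨0,[(47,0)]⟩⟩,⟨true,(-1),⟨0,[(1,0),(45,0)]⟩,⟨0,[(30,0)]⟩⟩,[.a ⟨true,0,⟨0,[(47,0)]⟩,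
  ⟨20,[(9,8),(1,3),(2,3),(4,0),(10,3),(1,3),(3,0),(1,7),(3,7),(2,1)]⟩⟩ ⟨true,0,⟨0,[]⟩,⟨1,[(37,0),(0,
  0)]⟩⟩ ⟨false,0,⟨1,[(1,0),(17,0),(11,0),(17,0)]⟩,⟨10,[(0,1),(4,0),(3,2),(1,0),(18,7),(7,1),(6,
  2)]⟩⟩,.o ⟨false,1,⟨1,[(41,0),(5,1),(1,0)]⟩,⟨0,[(46,0)]⟩⟩,.o ⟨false,1,⟨0,[(0,0)]⟩,⟨0,[(31,0)]⟩⟩,.o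
  ⟨false,1,⟨1,[(0,1),(36,0),(0,0)]⟩,⟨3,[(1,2),(17,0),(11,0),(16,0),(0,1)]⟩⟩]⟩) (.R ⟨2,true,false,
  true,[0,1],[1,0,0,0,-1],[0,1,1],(⟨0,[]⟩,⟨0,[]⟩),(⟨0,[(32,0)]⟩,⟨0,[(33,0)]⟩),⟨0,[]⟩,.k,.k,.k,(.r 0
  ⟨3,[(13,0),(11,1),(9,0),(2,0)]⟩ ⟨5,[(19,1),(10,0),(0,0),(16,0),(0,3)]⟩),.k,.k,⟨false,0,⟨0,[(51,
  0)]⟩,⟨1,[(48,0),(0,0)]⟩⟩,⟨true,1,⟨1,[(4,0),(25,0),(2,0),(7,0),(1,1)]⟩,⟨0,[(0,0)]⟩⟩,⟨false,0,⟨0,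
  [(47,0)]⟩,⟨1,[(5,0),(10,0),(14,0)]⟩⟩,⟨true,1,⟨0,[(4,0),(5,0),(9,0),(12,0),(9,1)]⟩,⟨0,[(23,0)]⟩⟩,
  ⟨true,0,⟨0,[(51,0)]⟩,⟨0,[]⟩⟩,⟨false,2,⟨1,[(30,1),(10,0),(7,0)]⟩,⟨0,[(0,0)]⟩⟩,[]⟩))) (.S ⟨1,0,[0,1,
  0,-1],[0,0,0,0,1],[1,2],(⟨0,[(31,0)]⟩,⟨0,[(30,0)]⟩),⟨0,[(1,0)]⟩,.k,(.r 0 ⟨2,[(17,0),(24,0)]⟩ ⟨5,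
  [(11,1),(11,1),(4,0),(0,0),(5,0),(0,0),(10,4)]⟩),⟨false,0,⟨0,[]⟩,⟨1,[(28,0),(0,0),(17,0)]⟩⟩,⟨true,
  0,⟨0,[(45,0)]⟩,⟨0,[(44,0)]⟩⟩,⟨true,0,⟨0,[(44,0)]⟩,⟨0,[(45,0)]⟩⟩,⟨false,1,⟨1,[(28,0),(0,0),(17,
  0)]⟩,⟨0,[]⟩⟩,[.e ⟨false,0,⟨0,[(42,0)]⟩,⟨0,[(47,0)]⟩⟩ ⟨false,0,⟨2,[(17,0),(24,0)]⟩,⟨1,[(3,0),(10,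
  0),(14,0)]⟩⟩,.o ⟨false,0,⟨5,[(4,1),(12,1),(11,3),(5,0),(0,0),(2,0),(7,0)]⟩,⟨9,[(0,6),(2,2),(3,1),
  (5,3),(10,0),(14,0),(3,0)]⟩⟩,.o ⟨false,0,⟨0,[(29,0)]⟩,⟨5,[(0,3),(2,0),(10,0),(4,1),(8,0),(10,
  0)]⟩⟩,.a ⟨true,(-1),⟨0,[(4,0)]⟩,⟨20,[(0,19),(6,7),(1,3),(2,3),(4,0),(10,4),(1,3),(5,7),(3,7),(2,
  2)]⟩⟩ ⟨false,0,⟨5,[(17,0),(24,0),(0,2)]⟩,⟨1,[(35,0),(0,0),(10,1)]⟩⟩ ⟨true,0,⟨2,[(17,0),(24,0)]⟩,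
  ⟨5,[(11,0),(1,0),(5,0),(3,0),(23,1)]⟩⟩]⟩)) (.Q [0,0,-1,0,0,0,0,0,1,0,0,-1] (.p false [0,0,0,0,1]
  [] (⟨0,[(30,0)]⟩,⟨0,[(29,0)]⟩) .k 0 (⟨0,[]⟩,⟨0,[]⟩) .k .k) (.Q [0,0,1,0,0,0,1,0,-1,0,-1,1] (.p
  false [0,0,1] [0,0,0,0,1] (⟨0,[(38,0)]⟩,⟨0,[(37,0)]⟩) .k 2 (⟨0,[(31,0)]⟩,⟨0,[(30,0)]⟩) .k (.r
  (-2) ⟨7,[(8,2),(5,2),(2,0),(10,5),(0,5),(3,4),(2,4),(10,6)]⟩ ⟨11,[(9,5),(3,5),(3,6),(24,0),(0,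
  2)]⟩)) (.R ⟨1,false,false,false,[1,0,0,0,-1],[1,0,-1],[1],(⟨0,[(31,0)]⟩,⟨0,[(32,0)]⟩),(⟨0,[(38,
  0)]⟩,⟨0,[(39,0)]⟩),⟨2,[(2,0),(3,0),(0,0),(23,1)]⟩,.k,.k,(.r (-1) ⟨5,[(18,1),(10,0),(0,0),(16,0),
  (0,3)]⟩ ⟨3,[(12,0),(11,1),(9,0),(2,0)]⟩),.k,(.r (-2) ⟨1,[(9,0),(5,0),(2,0),(10,0),(0,0),(3,0),(2,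
  0),(10,1)]⟩ ⟨1,[(10,0),(9,0),(22,0)]⟩),.k,⟨false,1,⟨3,[(9,2),(5,2),(2,0),(15,0),(2,0),(10,0)]⟩,⟨4,
  [(10,0),(5,1),(7,0),(22,0)]⟩⟩,⟨true,0,⟨0,[(5,0),(3,0)]⟩,⟨0,[(0,0)]⟩⟩,⟨false,0,⟨0,[]⟩,⟨1,[(29,0),
  (0,0),(17,0)]⟩⟩,⟨true,(-1),⟨3,[(5,1),(3,2),(0,1),(3,0),(2,0),(0,1),(3,0),(14,0)]⟩,⟨3,[(0,3),(8,2),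
  (5,2),(2,0),(15,0),(2,0),(10,0)]⟩⟩,⟨true,0,⟨0,[(45,0)]⟩,⟨0,[(46,0)]⟩⟩,⟨true,(-1),⟨13,[(2,3),(2,4),
  (0,2),(0,2),(1,12),(0,6),(2,3),(0,9),(3,5),(3,4),(14,0)]⟩,⟨1,[(0,1),(8,0),(5,0),(2,0),(15,0),(2,
  0),(10,0)]⟩⟩,[.a ⟨true,0,⟨55,[(4,4),(4,9),(0,19),(2,4),(4,10),(12,4),(3,10),(1,29),(3,9),(2,7)]⟩,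
  ⟨0,[(15,0),(30,0)]⟩⟩ ⟨true,0,⟨0,[]⟩,⟨1,[(36,0),(0,0)]⟩⟩ ⟨false,0,⟨7,[(1,3),(3,2),(3,5),(0,2),(2,
  0),(4,0),(12,0),(3,1),(5,1)]⟩,⟨3,[(0,3),(8,2),(5,2),(2,0),(15,0),(2,0),(10,0)]⟩⟩,.o ⟨false,1,⟨20,
  [(4,8),(4,3),(0,5),(7,4),(11,8),(6,7),(2,3),(7,0)]⟩,⟨0,[(34,0)]⟩⟩,.o ⟨false,1,⟨0,[(0,0),(8,0)]⟩,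
  ⟨0,[(30,0)]⟩⟩,.o ⟨false,1,⟨1,[(0,0),(28,0),(7,0),(2,0)]⟩,⟨0,[(1,0)]⟩⟩]⟩) (.Q [0,-2,0,0,2,0,0,0,-1,
  -1,0,1] (.p true [0,0,0,0,1] [1] (⟨0,[(32,0)]⟩,⟨0,[(31,0)]⟩) .k 1 (⟨0,[]⟩,⟨0,[]⟩) .k .k) (.R ⟨2,
  false,false,true,[0,1],[0,0,0,0,1],[1,0,1,1],(⟨0,[]⟩,⟨0,[]⟩),(⟨0,[(33,0)]⟩,⟨0,[(32,0)]⟩),⟨0,[]⟩,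
  .k,.k,.k,(.r (-1) ⟨5,[(0,1),(5,1),(6,1),(11,1),(4,0),(0,0),(17,2)]⟩ ⟨2,[(19,0),(24,0)]⟩),.k,.k,
  ⟨true,1,⟨5,[(13,0),(1,0),(5,0),(3,0),(23,7)]⟩,⟨0,[(15,0),(3,0)]⟩⟩,⟨false,0,⟨0,[(31,0)]⟩,⟨1,[(0,0),
  (3,0),(4,1),(0,0),(0,0),(7,1),(13,0),(4,0),(4,1),(1,0)]⟩⟩,⟨true,0,⟨0,[]⟩,⟨0,[(51,0)]⟩⟩,⟨false,
  (-1),⟨0,[(1,0),(18,0),(0,0),(25,0)]⟩,⟨1,[(5,0),(10,0),(13,0),(18,0)]⟩⟩,⟨false,1,⟨1,[(5,0),(10,0),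
  (14,0)]⟩,⟨0,[(47,0)]⟩⟩,⟨false,(-1),⟨0,[(1,0),(18,0),(0,0)]⟩,⟨0,[(30,0),(18,0)]⟩⟩,[.o ⟨false,(-1),
  ⟨2,[(18,1),(0,0),(1,0),(9,0)]⟩,⟨0,[(0,0)]⟩⟩,.o ⟨false,(-1),⟨0,[(1,0),(18,0),(0,0)]⟩,⟨3,[(0,1),(29,
  2),(0,0),(9,0)]⟩⟩,.a ⟨true,0,⟨56,[(1,10),(3,11),(3,65),(1,26),(2,0),(4,56),(12,0),(5,42),(3,1),(6,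
  2)]⟩,⟨1,[(37,0),(0,0)]⟩⟩ ⟨true,0,⟨5,[(13,0),(1,0),(5,0),(3,0),(23,1)]⟩,⟨2,[(19,0),(24,0)]⟩⟩
  ⟨false,(-1),⟨5,[(1,0),(4,3),(11,0),(0,0),(0,0),(0,2),(19,1)]⟩,⟨6,[(0,5),(0,0),(3,1),(3,7),(1,2),
  (7,6),(18,4),(10,0)]⟩⟩,.e ⟨false,1,⟨1,[(5,0),(10,0),(14,0)]⟩,⟨0,[(47,0)]⟩⟩ ⟨false,(-1),⟨0,[(1,0),
  (18,0),(0,0)]⟩,⟨0,[(30,0),(18,0)]⟩⟩]⟩) (.R ⟨2,true,false,false,[0,1],[1,0,0,0,-1],[1,0,1,1],(⟨0,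
  []⟩,⟨0,[]⟩),(⟨0,[(32,0)]⟩,⟨0,[(33,0)]⟩),⟨0,[]⟩,.k,.k,.k,(.r 0 ⟨3,[(13,0),(11,1),(9,0),(2,0)]⟩ ⟨5,
  [(19,1),(10,0),(0,0),(16,0),(0,3)]⟩),.k,.k,⟨false,0,⟨0,[(46,0)]⟩,⟨5,[(19,1),(10,0),(0,0),(16,0),
  (0,3)]⟩⟩,⟨true,1,⟨1,[(4,0),(25,0),(2,0),(7,0),(1,1)]⟩,⟨0,[(0,0),(48,0)]⟩⟩,⟨true,0,⟨0,[]⟩,⟨0,[(51,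
  0)]⟩⟩,⟨false,2,⟨0,[(4,0),(5,0),(9,0),(12,0),(9,1),(5,0)]⟩,⟨0,[(23,0)]⟩⟩,⟨false,1,⟨1,[(5,0),(10,0),
  (14,0)]⟩,⟨0,[(47,0)]⟩⟩,⟨true,2,⟨1,[(30,1),(10,0),(7,0)]⟩,⟨0,[(0,0)]⟩⟩,[]⟩))) (.K ⟨0,[0,0,0,0,1],0,
  (-1),(⟨0,[(31,0)]⟩,⟨0,[(30,0)]⟩),.k,(.r 0 ⟨2,[(17,0),(24,0)]⟩ ⟨5,[(11,1),(11,1),(4,0),(0,0),(5,0),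
  (0,0),(10,4)]⟩),(.r 0 ⟨3,[(11,0),(11,1),(9,0),(2,0)]⟩ ⟨5,[(17,1),(10,0),(0,0),(16,0),(0,3)]⟩),.k,
  .k,[⟨0,[(4,0),(3,0)]⟩,⟨0,[(0,0)]⟩,⟨0,[(28,0)]⟩,⟨2,[(16,1),(0,0),(1,0),(9,0)]⟩]⟩)))) (.Q [0,0,0,0,
  0,-1,0,0,0,0,0,1] (.ed false [1,-1,0,0,1] .k) (.R ⟨1,false,false,true,[0,0,0,0,1],[1,1,-1],[1,2],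
  (⟨0,[(29,0)]⟩,⟨0,[(28,0)]⟩),(⟨0,[(35,0),(3,0)]⟩,⟨0,[(25,0)]⟩),⟨0,[(0,0)]⟩,.k,.k,(.r 0 ⟨2,[(15,0),
  (24,0)]⟩ ⟨5,[(9,1),(11,1),(4,0),(0,0),(5,0),(0,0),(10,4)]⟩),(.r (-1) ⟨1,[(6,0),(5,0),(2,0),(10,0),
  (0,0),(3,0),(2,0)]⟩ ⟨10,[(7,3),(3,1),(9,2),(23,5)]⟩),(.r (-1) ⟨7,[(6,4),(5,4),(2,6),(10,1),(0,1),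
  (3,2),(2,2),(10,0)]⟩ ⟨10,[(7,2),(3,6),(9,4),(23,9)]⟩),.k,⟨false,1,⟨3,[(6,2),(2,0),(2,2),(2,2),(10,
  0),(0,0)]⟩,⟨10,[(7,3),(3,1),(9,2),(23,5)]⟩⟩,⟨true,2,⟨0,[(6,0),(19,0)]⟩,⟨8,[(1,7),(0,0),(4,3),(9,
  5),(15,0),(9,1),(1,8)]⟩⟩,⟨false,0,⟨0,[]⟩,⟨1,[(26,0),(0,0),(17,0)]⟩⟩,⟨false,2,⟨10,[(6,10),(0,3),(3,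
  1),(9,2),(4,10),(18,5)]⟩,⟨0,[(1,0),(43,0)]⟩⟩,⟨true,0,⟨0,[(42,0)]⟩,⟨0,[(43,0)]⟩⟩,⟨false,2,⟨8,[(5,
  1),(0,10),(0,5),(1,2),(11,1),(4,8),(18,3)]⟩,⟨0,[(1,0),(41,0),(1,0)]⟩⟩,[.o ⟨false,0,⟨35,[(6,29),(0,
  14),(3,17),(3,4),(16,5),(4,2),(2,10)]⟩,⟨0,[(31,0),(11,0),(1,0)]⟩⟩,.e ⟨false,0,⟨5,[(15,0),(24,0),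
  (0,2)]⟩,⟨1,[(26,0),(0,0),(17,0)]⟩⟩ ⟨false,2,⟨17,[(5,1),(0,19),(0,6),(13,5),(4,17),(14,0),(2,4)]⟩,
  ⟨0,[(1,0),(43,0)]⟩⟩,.a ⟨true,(-1),⟨43,[(1,29),(1,6),(0,6),(0,5),(0,12),(0,17),(2,13),(17,13),(5,
  22),(10,20)]⟩,⟨0,[(26,0)]⟩⟩ ⟨false,0,⟨0,[(47,0)]⟩,⟨0,[(45,0)]⟩⟩ ⟨true,1,⟨35,[(6,29),(0,14),(3,17),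
  (3,4),(10,35),(5,5),(4,2),(2,10)]⟩,⟨0,[(1,0),(43,0)]⟩⟩,.o ⟨false,(-1),⟨9,[(1,7),(0,1),(3,3),(0,3),
  (3,1),(22,3),(2,2),(7,6)]⟩,⟨1,[(26,1),(10,0),(6,0)]⟩⟩]⟩) (.R ⟨0,false,false,false,[0,0,0,0,1],[1,
  1,-1],[0,1],(⟨0,[(29,0)]⟩,⟨0,[(28,0)]⟩),(⟨0,[(35,0),(3,0)]⟩,⟨0,[(25,0)]⟩),⟨0,[(0,0)]⟩,.k,.k,(.r 0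
  ⟨2,[(15,0),(24,0)]⟩ ⟨5,[(9,1),(11,1),(4,0),(0,0),(5,0),(0,0),(10,4)]⟩),(.r (-1) ⟨1,[(6,0),(5,0),
  (2,0),(10,0),(0,0),(3,0),(2,0)]⟩ ⟨10,[(7,3),(3,1),(9,2),(23,5)]⟩),.k,.k,⟨false,1,⟨3,[(6,2),(2,0),
  (2,2),(2,2),(10,0),(0,0)]⟩,⟨10,[(7,3),(3,1),(9,2),(23,5)]⟩⟩,⟨true,2,⟨0,[(6,0),(19,0)]⟩,⟨8,[(1,7),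
  (0,0),(4,3),(9,5),(15,0),(9,1),(1,8)]⟩⟩,⟨false,1,⟨1,[(26,0),(0,0),(17,0)]⟩,⟨0,[]⟩⟩,⟨true,2,⟨10,
  [(6,10),(0,3),(3,1),(9,2),(4,10),(18,5)]⟩,⟨0,[(1,0)]⟩⟩,⟨false,0,⟨0,[]⟩,⟨0,[]⟩⟩,⟨false,0,⟨0,[]⟩,⟨0,
  []⟩⟩,[.e ⟨false,0,⟨5,[(15,0),(24,0),(0,2)]⟩,⟨1,[(26,0),(0,0),(17,0)]⟩⟩ ⟨false,2,⟨17,[(5,1),(0,19),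
  (0,6),(13,5),(4,17),(14,0),(2,4)]⟩,⟨0,[(1,0),(43,0)]⟩⟩,.o ⟨false,1,⟨10,[(6,10),(0,3),(3,1),(9,2),
  (23,5)]⟩,⟨0,[(31,0),(11,0)]⟩⟩,.a ⟨true,(-1),⟨43,[(1,29),(1,6),(0,6),(0,5),(0,12),(0,17),(2,13),
  (17,13),(5,22),(10,20)]⟩,⟨0,[(26,0)]⟩⟩ ⟨true,0,⟨0,[(47,0)]⟩,⟨0,[]⟩⟩ ⟨false,2,⟨10,[(6,10),(0,3),(3,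
  1),(9,2),(4,10),(18,5)]⟩,⟨0,[(1,0),(43,0)]⟩⟩,.o ⟨false,(-1),⟨9,[(1,7),(0,1),(3,3),(0,3),(3,1),(22,
  3),(2,2),(7,6)]⟩,⟨1,[(26,1),(10,0),(6,0)]⟩⟩]⟩))) (.Q [0,0,0,0,0,-1,0,0,0,0,0,1] (.ed false [1,-1,
  0,0,1] .k) (.S ⟨1,0,[0,2,0,-1],[0,0,0,0,1],[1,1],(⟨0,[(28,0)]⟩,⟨0,[(27,0)]⟩),⟨0,[(0,0)]⟩,.k,(.r 0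
  ⟨2,[(14,0),(24,0)]⟩ ⟨5,[(8,1),(11,1),(4,0),(0,0),(5,0),(0,0),(10,4)]⟩),⟨true,0,⟨0,[]⟩,⟨0,[(46,
  0)]⟩⟩,⟨false,0,⟨0,[(42,0)]⟩,⟨2,[(4,0),(0,0),(14,0),(23,1)]⟩⟩,⟨false,1,⟨2,[(4,0),(0,0),(14,0),(23,
  1)]⟩,⟨0,[(42,0)]⟩⟩,⟨true,0,⟨0,[(46,0)]⟩,⟨0,[]⟩⟩,[.o ⟨false,(-1),⟨2,[(13,0),(0,1),(1,1),(9,1)]⟩,⟨6,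
  [(1,4),(4,0),(1,1),(1,0),(14,1),(10,0),(7,7)]⟩⟩,.a ⟨true,(-1),⟨0,[(19,0),(22,0)]⟩,⟨17,[(1,16),(4,
  6),(2,0),(1,13),(2,0),(10,1),(1,0),(5,13),(3,1),(6,5)]⟩⟩ ⟨true,0,⟨0,[]⟩,⟨1,[(32,0),(0,0)]⟩⟩
  ⟨false,0,⟨2,[(14,0),(24,0)]⟩,⟨2,[(4,0),(0,0),(14,0),(23,1)]⟩⟩,.o ⟨false,0,⟨0,[(26,0)]⟩,⟨5,[(1,3),
  (14,1),(8,1),(10,0),(5,1),(1,0)]⟩⟩,.o ⟨false,0,⟨1,[(26,1),(5,0),(0,0)]⟩,⟨0,[(1,0)]⟩⟩]⟩) (.R ⟨0,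
  false,false,true,[0,0,0,0,1],[0,1],[1,1,1,1],(⟨0,[(28,0)]⟩,⟨0,[(27,0)]⟩),(⟨0,[(38,0)]⟩,⟨0,[(37,
  0)]⟩),⟨0,[(0,0)]⟩,.k,.k,(.r 0 ⟨2,[(14,0),(24,0)]⟩ ⟨5,[(8,1),(11,1),(4,0),(0,0),(5,0),(0,0),(10,
  4)]⟩),(.r 0 ⟨2,[(14,0),(24,0)]⟩ ⟨5,[(8,1),(11,1),(4,0),(0,0),(5,0),(0,0),(10,4)]⟩),.k,.k,⟨true,0,
  ⟨0,[]⟩,⟨1,[(32,0),(0,0)]⟩⟩,⟨false,1,⟨6,[(1,8),(0,0),(0,0),(0,5),(1,2),(2,1),(4,4),(12,1),(5,5),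
  (10,0)]⟩,⟨1,[(26,1),(5,0),(0,0)]⟩⟩,⟨true,0,⟨5,[(8,0),(1,0),(5,0),(3,0),(23,1)]⟩,⟨2,[(14,0),(24,
  0)]⟩⟩,⟨false,1,⟨17,[(1,16),(4,6),(2,0),(1,13),(2,0),(10,1),(1,0),(5,13),(3,1),(6,5)]⟩,⟨0,[(26,0),
  (15,0)]⟩⟩,⟨false,0,⟨0,[]⟩,⟨0,[]⟩⟩,⟨false,0,⟨0,[]⟩,⟨0,[]⟩⟩,[.o ⟨false,0,⟨0,[(41,0)]⟩,⟨1,[(36,0),(5,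
  1),(1,0)]⟩⟩,.a ⟨true,0,⟨20,[(4,8),(1,3),(2,3),(4,0),(10,3),(1,3),(3,0),(1,7),(3,7),(2,1)]⟩,⟨0,
  [(42,0)]⟩⟩ ⟨true,0,⟨5,[(8,0),(1,0),(5,0),(3,0),(23,1)]⟩,⟨0,[(42,0)]⟩⟩ ⟨false,1,⟨25,[(1,24),(2,9),
  (1,4),(2,4),(4,0),(10,5),(1,4),(5,9),(3,9),(2,3)]⟩,⟨0,[(26,0),(15,0)]⟩⟩,.o ⟨false,0,⟨0,[(26,0)]⟩,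
  ⟨5,[(1,3),(14,1),(8,1),(10,0),(5,1),(1,0)]⟩⟩,.o ⟨false,0,⟨1,[(26,1),(5,0),(0,0)]⟩,⟨0,[(1,
  0)]⟩⟩]⟩)))))))

theorem ok54 : chk K t54 l37 = true := by decide +kernel

noncomputable def t55 : Tre :=
  (.R ⟨1,true,false,true,[1,-1],[1,0,0,0,-1],[1,1,-1,-1],(⟨0,[(34,0)]⟩,⟨0,[(35,0)]⟩),(⟨0,[(24,0)]⟩,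
  ⟨0,[(25,0)]⟩),⟨0,[(20,0),(0,0)]⟩,.k,.k,(.r (-1) ⟨6,[(1,5),(1,0),(7,0),(5,1),(18,0)]⟩ ⟨2,[(5,0),(1,
  0),(5,0),(3,0),(23,1)]⟩),(.r 0 ⟨2,[(11,0),(24,0)]⟩ ⟨12,[(3,0),(1,3),(11,5),(11,1),(0,1),(10,
  11)]⟩),(.r (-1) ⟨6,[(1,4),(1,1),(7,1),(5,3),(18,1)]⟩ ⟨0,[(7,0),(33,0)]⟩),.k,⟨true,0,⟨2,[(11,0),
  (24,0)]⟩,⟨0,[(13,0),(27,0)]⟩⟩,⟨false,2,⟨0,[(22,0),(17,0)]⟩,⟨9,[(0,7),(6,5),(7,1),(17,0),(3,1),(3,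
  4)]⟩⟩,⟨false,0,⟨0,[]⟩,⟨10,[(1,0),(1,1),(13,3),(23,7)]⟩⟩,⟨true,1,⟨0,[(2,0)]⟩,⟨42,[(0,26),(2,1),(6,
  15),(0,2),(1,1),(3,3)]⟩⟩,⟨true,0,⟨0,[(38,0)]⟩,⟨0,[(39,0)]⟩⟩,⟨false,2,⟨7,[(2,7),(2,1),(11,1),(19,
  1),(2,0),(0,6)]⟩,⟨0,[(0,0)]⟩⟩,[]⟩)

theorem ok55 : chk K t55 l40 = true := by decide +kernel

noncomputable def t56 : Tre :=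
  (.I [0,0,2,0,1,-2,0,0,-1] (.N [0,2,0,0,1] 1 ⟨0,[(10,0)]⟩ ⟨0,[(4,0)]⟩ (.x 0 ⟨0,[(1,0)]⟩ ⟨0,[(0,
  0)]⟩)) (.I [0,0,-2,0,-1,2,0,0,1] (.N [0,2,0,0,1] 1 ⟨0,[(11,0)]⟩ ⟨0,[(5,0)]⟩ (.x 1 ⟨0,[(0,0)]⟩ ⟨0,
  [(24,0),(0,0),(0,0),(1,0),(4,0),(0,0),(2,0)]⟩)) (.I [0,-1,0,-1,0,0,0,-1] (.Q [0,0,0,0,0,2,0,0,0,
  -1,1] (.p true [0,0,1] [1] (⟨0,[(37,0)]⟩,⟨0,[(36,0)]⟩) .k 1 (⟨0,[]⟩,⟨0,[]⟩) .k .k) (.R ⟨0,false,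
  false,false,[1,-1,-1],[1,-1],[1,1],(⟨0,[(26,0)]⟩,⟨0,[(0,0),(39,0)]⟩),(⟨0,[(40,0)]⟩,⟨0,[(41,0)]⟩),
  ⟨0,[(0,0)]⟩,.k,.k,(.x (-1) ⟨1,[(2,0),(23,1),(2,0),(1,0),(4,1),(2,0)]⟩ ⟨5,[(0,3),(2,2),(2,1),(1,0),
  (9,4),(8,1),(2,2),(1,0)]⟩),.k,.k,.k,⟨false,0,⟨11,[(6,2),(4,0),(4,2),(6,0),(18,1)]⟩,⟨10,[(7,5),(1,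
  0),(13,1),(23,3)]⟩⟩,⟨true,0,⟨0,[(20,0)]⟩,⟨0,[(36,0)]⟩⟩,⟨true,0,⟨7,[(9,1),(1,3),(7,1),(15,0),(0,
  0)]⟩,⟨3,[(1,2),(8,0),(6,0),(25,1)]⟩⟩,⟨false,1,⟨0,[(33,0),(13,0)]⟩,⟨0,[(1,0),(34,0),(6,0)]⟩⟩,
  ⟨false,0,⟨0,[]⟩,⟨0,[]⟩⟩,⟨false,0,⟨0,[]⟩,⟨0,[]⟩⟩,[.a ⟨true,0,⟨0,[(45,0)]⟩,⟨7,[(0,0),(2,0),(0,0),(1,
  1),(6,1),(16,1),(6,0),(2,5),(6,0)]⟩⟩ ⟨false,0,⟨5,[(17,0),(24,0),(0,2)]⟩,⟨10,[(7,0),(1,1),(13,3),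
  (23,7)]⟩⟩ ⟨true,0,⟨0,[(18,0)]⟩,⟨5,[(11,0),(1,0),(5,0),(3,0),(12,5),(10,1)]⟩⟩,.o ⟨false,1,⟨1,[(39,
  0),(5,1),(1,0)]⟩,⟨0,[(44,0)]⟩⟩,.a ⟨true,0,⟨0,[(36,0)]⟩,⟨0,[(32,0)]⟩⟩ ⟨false,0,⟨0,[]⟩,⟨10,[(7,0),
  (1,1),(13,3),(23,7)]⟩⟩ ⟨true,0,⟨0,[(18,0)]⟩,⟨1,[(11,0),(22,0),(1,0)]⟩⟩,.a ⟨true,0,⟨1,[(35,0),(0,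
  2)]⟩,⟨1,[(3,0),(2,0),(11,1),(7,0),(0,0),(2,0)]⟩⟩ ⟨true,0,⟨5,[(17,0),(24,0),(0,2)]⟩,⟨1,[(35,0),(0,
  0)]⟩⟩ ⟨false,1,⟨1,[(18,1),(27,0),(0,0)]⟩,⟨5,[(11,0),(1,0),(5,0),(3,0),(12,5),(10,1)]⟩⟩]⟩) (.Q [0,
  0,1,0,-1,0,0,0,1,0,0,-1] (.p false [0,0,0,0,1] [] (⟨0,[(31,0)]⟩,⟨0,[(30,0)]⟩) .k 0 (⟨0,[]⟩,⟨0,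
  []⟩) .k .k) (.S ⟨1,0,[0,1,0,-1],[0,0,0,0,1],[1,2],(⟨0,[(32,0)]⟩,⟨0,[(31,0)]⟩),⟨1,[(1,1),(2,1),(15,
  1),(7,1),(0,1),(10,0),(5,1),(1,0)]⟩,.k,(.r 0 ⟨2,[(18,0),(24,0)]⟩ ⟨12,[(10,0),(1,3),(11,5),(11,1),
  (0,1),(10,11)]⟩),⟨false,0,⟨0,[]⟩,⟨10,[(8,0),(1,1),(13,3),(23,7)]⟩⟩,⟨true,0,⟨0,[(46,0)]⟩,⟨11,[(7,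
  2),(4,0),(4,2),(6,0),(18,1)]⟩⟩,⟨true,0,⟨11,[(7,2),(4,0),(4,2),(6,0),(18,1)]⟩,⟨0,[(46,0)]⟩⟩,⟨false,
  1,⟨10,[(8,0),(1,1),(13,3),(23,7)]⟩,⟨0,[]⟩⟩,[.o ⟨false,(-1),⟨34,[(0,26),(9,0),(6,7),(0,14),(1,0),
  (3,1)]⟩,⟨1,[(9,1),(30,0),(7,0)]⟩⟩,.a ⟨true,(-1),⟨8,[(0,6),(1,2),(1,1),(10,2),(2,2),(12,1),(5,2),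
  (3,3)]⟩,⟨0,[(9,0)]⟩⟩ ⟨false,0,⟨5,[(18,0),(24,0),(0,2)]⟩,⟨10,[(8,0),(1,1),(13,3),(23,7)]⟩⟩ ⟨true,0,
  ⟨0,[(46,0)]⟩,⟨5,[(12,0),(1,0),(5,0),(3,0),(23,1)]⟩⟩,.e ⟨false,0,⟨23,[(10,2),(7,1),(1,2),(3,5),(18,
  4)]⟩,⟨0,[(48,0)]⟩⟩ ⟨false,0,⟨0,[(46,0)]⟩,⟨1,[(7,0),(22,0),(17,0)]⟩⟩,.o ⟨false,(-1),⟨0,[(0,0)]⟩,⟨1,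
  [(29,1),(10,0),(6,0)]⟩⟩]⟩) (.S ⟨1,0,[0,1,0,-1],[0,0,0,0,1],[0,2,0,-1],(⟨0,[(32,0)]⟩,⟨0,[(31,0)]⟩),
  ⟨9,[(0,3),(0,5),(2,3),(15,5),(7,5),(3,5),(7,2),(5,5),(1,2)]⟩,.k,(.r 0 ⟨2,[(18,0),(24,0)]⟩ ⟨12,
  [(10,0),(1,3),(11,5),(11,1),(0,1),(10,11)]⟩),⟨false,0,⟨0,[(46,0)]⟩,⟨1,[(7,0),(22,0),(17,0)]⟩⟩,
  ⟨true,0,⟨0,[(46,0)]⟩,⟨11,[(7,2),(4,0),(4,2),(6,0),(18,1)]⟩⟩,⟨true,0,⟨23,[(10,2),(7,1),(1,2),(3,5),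
  (18,4)]⟩,⟨0,[]⟩⟩,⟨false,1,⟨10,[(8,0),(1,1),(13,3),(23,7)]⟩,⟨0,[]⟩⟩,[.o ⟨false,(-1),⟨7,[(1,3),(2,
  5),(13,0),(1,6),(7,3),(1,1),(0,5),(8,4),(5,11)]⟩,⟨1,[(9,1),(30,0),(7,0)]⟩⟩,.a ⟨true,(-1),⟨7,[(1,
  3),(2,5),(15,5),(7,3),(1,1),(0,5),(8,0),(5,13),(1,2)]⟩,⟨0,[(9,0)]⟩⟩ ⟨false,0,⟨2,[(18,0),(24,0)]⟩,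
  ⟨1,[(7,0),(22,0),(17,0)]⟩⟩ ⟨true,0,⟨0,[(46,0)]⟩,⟨5,[(12,0),(1,0),(5,0),(3,0),(23,1)]⟩⟩,.a ⟨true,
  (-1),⟨7,[(1,3),(2,5),(15,5),(7,3),(1,1),(0,5),(8,0),(5,5),(1,2)]⟩,⟨0,[(29,0)]⟩⟩ ⟨true,(-1),⟨0,
  [(14,0),(3,0)]⟩,⟨1,[(7,0),(22,0),(17,0)]⟩⟩ ⟨false,0,⟨0,[(46,0)]⟩,⟨1,[(7,0),(22,0),(17,0)]⟩⟩,.a
  ⟨true,(-1),⟨7,[(1,1),(2,2),(15,6),(2,2),(4,1),(1,1),(0,2),(14,6),(1,4)]⟩,⟨0,[(0,0)]⟩⟩ ⟨false,0,⟨2,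
  [(18,0),(24,0)]⟩,⟨5,[(12,0),(1,0),(5,0),(3,0),(23,7)]⟩⟩ ⟨true,0,⟨2,[(18,0),(24,0)]⟩,⟨5,[(12,0),(1,
  0),(5,0),(3,0),(23,1)]⟩⟩]⟩))) (.I [0,0,-1,-2,0,0,0,-1] (.Q [0,0,2,0,-1,0,-1,0,1,0,1,-1] (.p true
  [0,0,1] [0,0,0,0,1] (⟨0,[(38,0)]⟩,⟨0,[(37,0)]⟩) .k 2 (⟨0,[(31,0)]⟩,⟨0,[(30,0)]⟩) .k (.r (-1) ⟨0,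
  [(1,0),(43,0),(1,0)]⟩ ⟨3,[(0,0),(9,0),(12,1),(18,0)]⟩)) (.Q [0,0,0,0,0,-1,0,0,0,0,0,1] (.ed false
  [1,-1,0,0,1] .k) (.Q [0,0,1,0,-1,0,0,0,1,0,0,-1] (.p false [0,0,0,0,1] [] (⟨0,[(33,0)]⟩,⟨0,[(32,
  0)]⟩) .k 0 (⟨0,[]⟩,⟨0,[]⟩) .k .k) (.S ⟨1,0,[0,1,0,-1],[0,0,0,0,1],[1,2],(⟨0,[(34,0)]⟩,⟨0,[(33,
  0)]⟩),⟨0,[(1,0)]⟩,.k,(.r 0 ⟨2,[(20,0),(24,0)]⟩ ⟨38,[(2,3),(9,2),(1,11),(11,17),(4,3),(6,3),(11,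
  35)]⟩),⟨false,0,⟨0,[]⟩,⟨10,[(10,0),(1,1),(13,3),(23,7)]⟩⟩,⟨true,0,⟨0,[(48,0)]⟩,⟨11,[(9,2),(4,0),
  (4,2),(6,0),(18,1)]⟩⟩,⟨true,0,⟨11,[(9,2),(4,0),(4,2),(6,0),(18,1)]⟩,⟨0,[(48,0)]⟩⟩,⟨false,1,⟨10,
  [(10,0),(1,1),(13,3),(23,7)]⟩,⟨0,[]⟩⟩,[.o ⟨false,(-1),⟨13,[(0,8),(1,0),(16,3),(0,5),(17,0)]⟩,⟨1,
  [(11,1),(30,0),(7,0)]⟩⟩,.a ⟨true,(-1),⟨2,[(2,1),(3,0),(14,1),(11,0),(9,1),(4,0)]⟩,⟨0,[(11,0)]⟩⟩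
  ⟨false,0,⟨5,[(20,0),(24,0),(0,2)]⟩,⟨10,[(10,0),(1,1),(13,3),(23,7)]⟩⟩ ⟨true,0,⟨0,[(48,0)]⟩,⟨5,
  [(14,0),(1,0),(5,0),(3,0),(23,1)]⟩⟩,.e ⟨false,0,⟨23,[(12,2),(7,1),(1,2),(3,5),(18,4)]⟩,⟨0,[(50,
  0)]⟩⟩ ⟨false,0,⟨0,[(48,0)]⟩,⟨1,[(9,0),(22,0),(17,0)]⟩⟩,.o ⟨false,(-1),⟨0,[(0,0)]⟩,⟨1,[(31,1),(10,
  0),(6,0)]⟩⟩]⟩) (.S ⟨1,0,[0,1,0,-1],[0,0,0,0,1],[0,2,0,-1],(⟨0,[(34,0)]⟩,⟨0,[(33,0)]⟩),⟨0,[(1,0)]⟩,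
  .k,(.r 0 ⟨2,[(20,0),(24,0)]⟩ ⟨38,[(2,3),(9,2),(1,11),(11,17),(4,3),(6,3),(11,35)]⟩),⟨false,0,⟨0,
  [(48,0)]⟩,⟨1,[(9,0),(22,0),(17,0)]⟩⟩,⟨true,0,⟨0,[(48,0)]⟩,⟨11,[(9,2),(4,0),(4,2),(6,0),(18,1)]⟩⟩,
  ⟨true,0,⟨23,[(12,2),(7,1),(1,2),(3,5),(18,4)]⟩,⟨0,[]⟩⟩,⟨false,1,⟨10,[(10,0),(1,1),(13,3),(23,7)]⟩,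
  ⟨0,[]⟩⟩,[.o ⟨false,(-1),⟨3,[(2,2),(16,0),(0,0),(0,2),(24,0)]⟩,⟨1,[(11,1),(30,0),(7,0)]⟩⟩,.a ⟨true,
  (-1),⟨2,[(2,1),(3,0),(14,1),(11,0),(9,1),(4,0)]⟩,⟨0,[(11,0)]⟩⟩ ⟨false,0,⟨2,[(20,0),(24,0)]⟩,⟨1,
  [(9,0),(22,0),(17,0)]⟩⟩ ⟨true,0,⟨0,[(48,0)]⟩,⟨5,[(14,0),(1,0),(5,0),(3,0),(23,1)]⟩⟩,.a ⟨true,(-1),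
  ⟨7,[(2,3),(3,2),(9,0),(4,2),(2,0),(4,2),(0,2),(2,2),(1,0),(14,0)]⟩,⟨0,[(31,0)]⟩⟩ ⟨true,(-1),⟨0,
  [(16,0),(3,0)]⟩,⟨1,[(9,0),(22,0),(17,0)]⟩⟩ ⟨false,0,⟨0,[(48,0)]⟩,⟨1,[(9,0),(22,0),(17,0)]⟩⟩,.a
  ⟨true,(-1),⟨0,[(2,0),(32,0)]⟩,⟨0,[(0,0)]⟩⟩ ⟨false,0,⟨2,[(20,0),(24,0)]⟩,⟨5,[(14,0),(1,0),(5,0),(3,
  0),(23,7)]⟩⟩ ⟨true,0,⟨2,[(20,0),(24,0)]⟩,⟨5,[(14,0),(1,0),(5,0),(3,0),(23,1)]⟩⟩]⟩)) (.R ⟨0,false,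
  false,true,[0,0,0,0,1],[0,1],[],(⟨0,[(33,0)]⟩,⟨0,[(32,0)]⟩),(⟨0,[(43,0)]⟩,⟨0,[(42,0)]⟩),⟨0,[(0,
  0)]⟩,.k,.k,(.r 0 ⟨2,[(19,0),(24,0)]⟩ ⟨38,[(1,3),(9,2),(1,11),(11,17),(4,3),(6,3),(11,35)]⟩),(.r 0
  ⟨2,[(19,0),(24,0)]⟩ ⟨38,[(1,3),(9,2),(1,11),(11,17),(4,3),(6,3),(11,35)]⟩),.k,.k,⟨true,1,⟨10,[(9,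
  5),(1,0),(13,1),(23,3)]⟩,⟨0,[(21,0)]⟩⟩,⟨false,2,⟨0,[(30,0),(17,0)]⟩,⟨15,[(0,3),(0,11),(3,3),(9,5),
  (4,11),(7,5),(0,5),(11,2),(7,2)]⟩⟩,⟨false,1,⟨0,[(49,0)]⟩,⟨23,[(11,2),(7,1),(1,2),(3,5),(18,4)]⟩⟩,
  ⟨true,1,⟨0,[(10,0)]⟩,⟨3,[(1,2),(16,0),(0,0),(0,2),(24,0)]⟩⟩,⟨false,0,⟨0,[]⟩,⟨0,[]⟩⟩,⟨false,0,⟨0,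
  []⟩,⟨0,[]⟩⟩,[.o ⟨false,0,⟨0,[(46,0)]⟩,⟨1,[(41,0),(5,1),(1,0)]⟩⟩,.a ⟨true,0,⟨7,[(5,0),(0,0),(1,1),
  (6,1),(16,1),(6,1),(0,1),(1,3),(6,0)]⟩,⟨0,[(47,0)]⟩⟩ ⟨false,1,⟨1,[(48,0),(0,0)]⟩,⟨23,[(11,2),(7,
  1),(1,2),(3,5),(18,4)]⟩⟩ ⟨true,1,⟨0,[(10,0)]⟩,⟨0,[(1,0),(18,0)]⟩⟩,.e ⟨false,1,⟨10,[(9,0),(1,1),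
  (13,3),(23,7)]⟩,⟨0,[]⟩⟩ ⟨false,1,⟨0,[(10,0)]⟩,⟨47,[(0,3),(0,27),(3,3),(3,9),(10,27),(7,5),(0,5),
  (1,15),(9,2),(7,18)]⟩⟩,.o ⟨false,(-1),⟨15,[(0,3),(0,11),(3,3),(9,5),(4,11),(7,5),(0,5),(11,2),(7,
  2)]⟩,⟨1,[(30,1),(10,0),(6,0)]⟩⟩]⟩)) (.S ⟨1,0,[0,1,0,-1],[0,0,0,0,1],[0,2,0,-1],(⟨0,[(32,0)]⟩,⟨0,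
  [(31,0)]⟩),⟨3,[(0,3),(3,3),(15,5),(6,5),(0,5),(8,3),(2,2),(5,5),(1,2)]⟩,.k,(.r 0 ⟨2,[(18,0),(24,
  0)]⟩ ⟨12,[(10,0),(1,3),(11,5),(11,1),(0,1),(10,11)]⟩),⟨false,0,⟨0,[(46,0)]⟩,⟨1,[(7,0),(22,0),(17,
  0)]⟩⟩,⟨true,0,⟨0,[(46,0)]⟩,⟨11,[(7,2),(4,0),(4,2),(6,0),(18,1)]⟩⟩,⟨true,0,⟨23,[(10,2),(7,1),(1,2),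
  (3,5),(18,4)]⟩,⟨0,[]⟩⟩,⟨false,1,⟨10,[(8,0),(1,1),(13,3),(23,7)]⟩,⟨0,[]⟩⟩,[.o ⟨false,(-1),⟨0,[(4,
  0),(15,0),(6,0),(0,0),(2,0),(8,0),(5,1)]⟩,⟨1,[(9,1),(30,0),(7,0)]⟩⟩,.a ⟨true,(-1),⟨1,[(4,1),(15,
  1),(6,1),(0,1),(2,1),(8,0),(5,3),(1,0)]⟩,⟨0,[(9,0)]⟩⟩ ⟨false,0,⟨2,[(18,0),(24,0)]⟩,⟨1,[(7,0),(22,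
  0),(17,0)]⟩⟩ ⟨true,0,⟨0,[(46,0)]⟩,⟨5,[(12,0),(1,0),(5,0),(3,0),(23,1)]⟩⟩,.a ⟨true,(-1),⟨1,[(4,1),
  (15,1),(6,1),(0,1),(2,1),(8,0),(5,1),(1,0)]⟩,⟨0,[(29,0)]⟩⟩ ⟨true,(-1),⟨0,[(14,0),(3,0)]⟩,⟨1,[(7,
  0),(22,0),(17,0)]⟩⟩ ⟨false,0,⟨0,[(46,0)]⟩,⟨1,[(7,0),(22,0),(17,0)]⟩⟩,.a ⟨true,(-1),⟨1,[(4,0),(15,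
  1),(6,0),(0,0),(1,0),(0,0),(14,1),(1,0)]⟩,⟨0,[(0,0),(36,0)]⟩⟩ ⟨false,0,⟨2,[(18,0),(24,0)]⟩,⟨5,
  [(12,0),(1,0),(5,0),(3,0),(23,7)]⟩⟩ ⟨true,0,⟨2,[(18,0),(24,0)]⟩,⟨5,[(12,0),(1,0),(5,0),(3,0),(23,
  1)]⟩⟩]⟩)) (.Q [0,-1,0,-1,2,0,-1,-1,-1,-1,1,1] (.p true [0,0,1] [1,0,0,0,-1] (⟨0,[(38,0)]⟩,⟨0,[(37,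
  0)]⟩) .k 2 (⟨0,[(30,0)]⟩,⟨0,[(31,0)]⟩) .k (.r 0 ⟨3,[(0,0),(0,0),(7,0),(7,0),(1,0)]⟩ ⟨2,[(7,0),(2,
  0),(12,1),(23,1)]⟩)) (.I [0,0,-2,0,1,2,1,0,-1] (.Q [0,0,0,0,0,2,0,0,0,-1,1] (.p true [0,0,1] [1]
  (⟨0,[(40,0)]⟩,⟨0,[(39,0)]⟩) .k 1 (⟨0,[]⟩,⟨0,[]⟩) .k .k) (.R ⟨0,false,false,false,[1,-1,-1],[1,-1],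
  [0,0,-1,-1],(⟨0,[(29,0)]⟩,⟨0,[(0,0),(42,0)]⟩),(⟨0,[(43,0)]⟩,⟨0,[(44,0)]⟩),⟨0,[(0,0)]⟩,.k,.k,(.r
  (-1) ⟨8,[(2,0),(7,1),(7,6),(1,1),(7,0),(3,0),(4,0),(11,4)]⟩ ⟨1,[(3,1),(34,0),(0,0)]⟩),.k,.k,.k,
  ⟨false,1,⟨147,[(2,29),(4,0),(4,11),(4,23),(8,17),(1,2),(3,28),(0,0),(9,1),(5,75)]⟩,⟨0,[]⟩⟩,⟨true,
  0,⟨0,[(23,0)]⟩,⟨0,[(39,0)]⟩⟩,⟨false,1,⟨2,[(3,0),(8,0),(35,0),(1,1)]⟩,⟨0,[(13,0)]⟩⟩,⟨true,0,⟨0,[(3,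
  0),(17,0),(26,0)]⟩,⟨0,[(37,0)]⟩⟩,⟨false,0,⟨0,[]⟩,⟨0,[]⟩⟩,⟨false,0,⟨0,[]⟩,⟨0,[]⟩⟩,[.a ⟨true,0,⟨0,
  [(48,0)]⟩,⟨7,[(0,0),(5,0),(0,0),(1,1),(6,1),(16,1),(6,0),(2,5),(6,0)]⟩⟩ ⟨false,1,⟨23,[(2,0),(7,
  10),(1,0),(15,0),(3,0),(4,0),(7,4),(3,9)]⟩,⟨3,[(3,0),(18,0),(3,0),(23,0)]⟩⟩ ⟨true,0,⟨0,[(21,0)]⟩,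
  ⟨3,[(3,0),(18,0),(3,0),(12,3),(10,0)]⟩⟩,.o ⟨false,1,⟨1,[(42,0),(5,1),(1,0)]⟩,⟨0,[(47,0)]⟩⟩,.a
  ⟨true,0,⟨0,[(39,0)]⟩,⟨0,[(35,0)]⟩⟩ ⟨false,1,⟨52,[(2,5),(4,0),(2,21),(1,2),(15,2),(3,4),(0,0),(9,
  1),(5,1),(0,13)]⟩,⟨3,[(3,0),(18,0),(3,0),(23,0)]⟩⟩ ⟨true,0,⟨0,[(21,0)]⟩,⟨1,[(14,0),(22,0),(1,
  0)]⟩⟩,.a ⟨true,0,⟨1,[(38,0),(0,2)]⟩,⟨1,[(6,0),(2,0),(11,1),(7,0),(0,0),(2,0)]⟩⟩ ⟨true,1,⟨23,[(2,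
  0),(7,10),(1,0),(15,0),(3,0),(4,0),(7,4),(3,9)]⟩,⟨0,[(22,0)]⟩⟩ ⟨false,1,⟨1,[(21,1),(27,0),(0,0)]⟩,
  ⟨3,[(3,0),(18,0),(3,0),(12,3),(10,0)]⟩⟩]⟩) (.Q [0,0,1,1,-1,0,1,0,0,1,-1] (.p false [0,0,1] [1]
  (⟨0,[(41,0)]⟩,⟨0,[(40,0)]⟩) .k 1 (⟨0,[]⟩,⟨0,[]⟩) .k .k) (.S ⟨1,0,[0,1,0,-1,0,0,0,1],[0,0,1],[1,0,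
  0,0,0,0,0,1],(⟨0,[(42,0)]⟩,⟨0,[(41,0)]⟩),⟨0,[(31,0)]⟩,.k,.k,⟨true,0,⟨0,[]⟩,⟨23,[(13,2),(7,1),(1,
  2),(3,5),(18,4)]⟩⟩,⟨false,0,⟨0,[(49,0)]⟩,⟨1,[(10,0),(22,0),(17,0)]⟩⟩,⟨false,1,⟨1,[(10,0),(22,0),
  (17,0)]⟩,⟨0,[(49,0)]⟩⟩,⟨true,0,⟨23,[(13,2),(7,1),(1,2),(3,5),(18,4)]⟩,⟨0,[]⟩⟩,[.e ⟨false,1,⟨4,[(4,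
  0),(8,1),(36,1),(0,0)]⟩,⟨0,[(9,0)]⟩⟩ ⟨false,0,⟨0,[(4,0),(16,0)]⟩,⟨1,[(10,0),(3,1),(18,0),(17,
  0)]⟩⟩,.o ⟨false,0,⟨0,[(4,0),(17,0),(26,1)]⟩,⟨1,[(14,1),(25,1),(2,0),(3,1),(3,0)]⟩⟩,.o ⟨false,0,⟨0,
  [(24,0)]⟩,⟨1,[(40,1),(2,0),(6,0)]⟩⟩,.a ⟨true,(-1),⟨0,[(0,0),(48,0)]⟩,⟨0,[(40,0),(9,0)]⟩⟩ ⟨false,1,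
  ⟨0,[(4,0),(6,0)]⟩,⟨2,[(19,1),(3,0),(3,0),(23,0)]⟩⟩ ⟨true,0,⟨0,[(4,0),(16,0)]⟩,⟨2,[(14,1),(2,0),(9,
  0),(23,0)]⟩⟩]⟩) (.Q [0,0,2,0,-2,0,1,0,1,1,-1,-1] (.p false [0,0,1] [1,0,0,0,-1] (⟨0,[(42,0)]⟩,⟨0,
  [(41,0)]⟩) .k 2 (⟨0,[(34,0)]⟩,⟨0,[(35,0)]⟩) .k (.r 0 ⟨3,[(4,0),(0,0),(7,0),(7,0),(1,0)]⟩ ⟨3,[(3,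
  0),(10,1),(12,0),(5,0),(2,0),(14,1)]⟩)) (.Q [0,2,2,0,-3,0,1,0,1,1,-1,-1] (.p false [0,0,1] [1,0,0,
  0,-1] (⟨0,[(43,0)]⟩,⟨0,[(42,0)]⟩) .k 2 (⟨0,[(35,0)]⟩,⟨0,[(36,0)]⟩) .k (.r 0 ⟨3,[(5,0),(0,0),(7,0),
  (7,0),(1,0)]⟩ ⟨3,[(4,0),(10,1),(12,0),(5,0),(2,0),(14,1)]⟩)) (.Q [0,0,1,0,-1,0,0,0,1,0,0,-1] (.p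
  false [0,0,0,0,1] [] (⟨0,[(37,0)]⟩,⟨0,[(36,0)]⟩) .k 0 (⟨0,[]⟩,⟨0,[]⟩) .k .k) (.S ⟨1,0,[0,1,0,-1],
  [0,0,0,0,1],[],(⟨0,[(38,0)]⟩,⟨0,[(37,0)]⟩),⟨1,[(4,1),(5,1),(15,1),(7,1),(0,1),(10,0),(5,1),(1,
  0)]⟩,.k,(.r 0 ⟨2,[(24,0),(24,0)]⟩ ⟨30,[(2,3),(3,3),(9,2),(1,11),(11,13),(23,27)]⟩),⟨false,1,⟨0,
  [(54,0)]⟩,⟨23,[(1,1),(4,1),(9,2),(9,0),(3,3),(18,6)]⟩⟩,⟨true,0,⟨0,[(52,0)]⟩,⟨11,[(13,2),(4,0),(4,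
  2),(6,0),(18,1)]⟩⟩,⟨true,1,⟨1,[(13,0),(22,0),(17,0)]⟩,⟨0,[(20,0),(3,0)]⟩⟩,⟨false,1,⟨2,[(6,0),(14,
  0),(14,0),(17,0)]⟩,⟨0,[]⟩⟩,[.e ⟨false,1,⟨147,[(6,29),(4,0),(4,11),(4,23),(8,17),(1,2),(3,28),(0,
  0),(9,1),(5,75)]⟩,⟨0,[]⟩⟩ ⟨false,0,⟨2,[(24,0),(24,0)]⟩,⟨1,[(13,0),(22,0),(17,0)]⟩⟩,.a ⟨true,(-1),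
  ⟨66,[(0,7),(1,25),(1,7),(5,11),(3,25),(9,4),(4,20),(4,7),(2,11),(5,25)]⟩,⟨0,[(15,0)]⟩⟩ ⟨false,1,
  ⟨1,[(53,0),(0,0)]⟩,⟨23,[(1,1),(4,1),(9,2),(9,0),(3,3),(18,6)]⟩⟩ ⟨true,0,⟨0,[(52,0)]⟩,⟨3,[(7,0),
  (18,0),(3,0),(23,0)]⟩⟩,.e ⟨false,1,⟨2,[(6,0),(14,0),(14,0),(17,0)]⟩,⟨0,[]⟩⟩ ⟨false,0,⟨0,[(52,0)]⟩,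
  ⟨1,[(13,0),(22,0),(17,0)]⟩⟩,.o ⟨false,(-1),⟨0,[(0,0)]⟩,⟨1,[(35,1),(10,0),(6,0)]⟩⟩]⟩) (.S ⟨1,0,[0,
  1,0,-1],[0,0,0,0,1],[0,2,0,-1],(⟨0,[(38,0)]⟩,⟨0,[(37,0)]⟩),⟨9,[(0,3),(3,5),(5,3),(15,5),(7,5),(3,
  5),(7,2),(5,5),(1,2)]⟩,.k,(.r 0 ⟨2,[(24,0),(24,0)]⟩ ⟨30,[(2,3),(3,3),(9,2),(1,11),(11,13),(23,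
  27)]⟩),⟨false,0,⟨0,[(52,0)]⟩,⟨1,[(13,0),(22,0),(17,0)]⟩⟩,⟨true,0,⟨0,[(52,0)]⟩,⟨11,[(13,2),(4,0),
  (4,2),(6,0),(18,1)]⟩⟩,⟨true,0,⟨23,[(1,1),(4,1),(9,2),(9,0),(3,3),(18,6)]⟩,⟨0,[]⟩⟩,⟨false,1,⟨2,[(6,
  0),(14,0),(14,0),(17,0)]⟩,⟨0,[]⟩⟩,[.o ⟨false,(-1),⟨70,[(1,41),(1,41),(0,3),(5,5),(3,14),(8,0),(10,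
  3),(1,21),(0,5),(8,4)]⟩,⟨1,[(15,1),(30,0),(7,0)]⟩⟩,.a ⟨true,(-1),⟨60,[(2,29),(0,7),(0,7),(5,11),
  (3,21),(9,2),(4,18),(4,7),(2,11),(5,21)]⟩,⟨0,[(15,0)]⟩⟩ ⟨false,0,⟨2,[(24,0),(24,0)]⟩,⟨1,[(13,0),
  (22,0),(17,0)]⟩⟩ ⟨true,0,⟨0,[(52,0)]⟩,⟨3,[(7,0),(18,0),(3,0),(23,0)]⟩⟩,.a ⟨true,(-1),⟨6,[(2,1),(1,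
  1),(5,2),(23,1),(1,1),(0,2),(5,1)]⟩,⟨0,[(35,0)]⟩⟩ ⟨true,(-1),⟨0,[(20,0),(3,0)]⟩,⟨1,[(13,0),(22,0),
  (17,0)]⟩⟩ ⟨false,0,⟨0,[(52,0)]⟩,⟨1,[(13,0),(22,0),(17,0)]⟩⟩,.a ⟨true,(-1),⟨2,[(2,0),(26,1),(13,0),
  (10,0)]⟩,⟨0,[(0,0)]⟩⟩ ⟨false,0,⟨2,[(24,0),(24,0)]⟩,⟨3,[(7,0),(18,0),(3,0),(23,4)]⟩⟩ ⟨true,0,⟨2,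
  [(24,0),(24,0)]⟩,⟨3,[(7,0),(18,0),(3,0),(23,0)]⟩⟩]⟩)) (.R ⟨0,false,false,false,[1,0,0,0,-1],[0,0,
  1],[],(⟨0,[(36,0)]⟩,⟨0,[(37,0)]⟩),(⟨0,[(44,0)]⟩,⟨0,[(43,0)]⟩),⟨4,[(0,3),(2,0),(5,3),(14,3),(0,9),
  (7,0),(3,0),(7,0),(5,5),(1,0)]⟩,.k,.k,(.r (-1) ⟨39,[(0,1),(4,3),(7,16),(1,1),(12,2),(2,2),(3,2),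
  (17,9)]⟩ ⟨15,[(15,1),(1,3),(7,1),(3,7),(11,0),(0,0)]⟩),.k,.k,.k,⟨true,0,⟨0,[(11,0)]⟩,⟨0,[(6,0),
  (44,1)]⟩⟩,⟨false,(-1),⟨55,[(1,25),(1,15),(5,23),(14,29),(8,15),(1,5),(0,23),(8,4),(3,29),(3,14)]⟩,
  ⟨7,[(2,2),(2,4),(6,2),(2,1),(1,0),(7,1)]⟩⟩,⟨true,0,⟨23,[(15,2),(7,1),(1,2),(3,5),(18,4)]⟩,⟨0,[]⟩⟩,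
  ⟨false,(-1),⟨61,[(1,38),(1,9),(2,39),(2,14),(3,26),(1,10),(6,7),(1,22),(8,9),(2,14),(8,0)]⟩,⟨2,
  [(0,0),(4,1),(10,0),(2,0)]⟩⟩,⟨false,0,⟨0,[]⟩,⟨0,[]⟩⟩,⟨false,0,⟨0,[]⟩,⟨0,[]⟩⟩,[.o ⟨false,0,⟨0,[(6,
  0),(17,0),(26,0)]⟩,⟨1,[(40,1),(4,0),(7,0)]⟩⟩,.e ⟨false,1,⟨1,[(52,0),(0,0)]⟩,⟨23,[(15,2),(7,1),(1,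
  2),(3,5),(18,4)]⟩⟩ ⟨false,0,⟨10,[(1,2),(1,1),(2,7),(2,2),(3,6),(6,2),(3,4),(8,1),(1,4),(0,2),(16,
  1)]⟩,⟨2,[(0,1),(4,0),(10,1),(2,4),(3,2)]⟩⟩,.a ⟨true,1,⟨0,[(34,0)]⟩,⟨6,[(1,1),(1,1),(5,2),(23,1),
  (1,1),(0,2),(5,1)]⟩⟩ ⟨false,1,⟨2,[(5,0),(14,0),(14,0),(17,0)]⟩,⟨0,[]⟩⟩ ⟨true,(-1),⟨61,[(1,38),(1,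
  9),(2,39),(2,14),(3,26),(1,10),(6,7),(1,22),(8,9),(2,14),(8,0)]⟩,⟨2,[(0,1),(4,0),(10,1),(2,4),(3,
  2)]⟩⟩,.o ⟨false,1,⟨0,[(0,0),(23,0),(0,1),(25,0)]⟩,⟨13,[(3,3),(5,5),(23,3),(1,7),(0,5),(8,4),(6,
  0)]⟩⟩]⟩)) (.R ⟨0,false,false,false,[1,0,0,0,-1],[0,0,1],[],(⟨0,[(35,0)]⟩,⟨0,[(36,0)]⟩),(⟨0,[(43,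
  0)]⟩,⟨0,[(42,0)]⟩),⟨4,[(0,3),(1,0),(5,3),(14,3),(0,9),(7,0),(3,0),(7,0),(5,5),(1,4)]⟩,.k,.k,(.r
  (-1) ⟨52,[(4,5),(4,0),(2,21),(1,2),(15,2),(3,4),(0,0),(9,1),(5,1),(0,13)]⟩ ⟨15,[(14,1),(1,3),(7,
  1),(3,7),(11,0),(0,0)]⟩),.k,.k,.k,⟨true,0,⟨0,[(10,0)]⟩,⟨0,[(5,0),(44,1)]⟩⟩,⟨false,(-1),⟨7,[(2,3),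
  (5,5),(9,1),(4,7),(0,3),(7,3),(1,1),(0,5),(8,0),(7,2)]⟩,⟨10,[(0,2),(3,7),(9,1),(1,3),(7,1)]⟩⟩,
  ⟨true,0,⟨23,[(14,2),(7,1),(1,2),(3,5),(18,4)]⟩,⟨0,[]⟩⟩,⟨false,(-1),⟨7,[(2,3),(2,7),(2,5),(14,7),
  (0,5),(7,3),(1,1),(0,5),(8,0),(5,13),(1,2)]⟩,⟨2,[(0,0),(3,1),(10,0),(2,0),(33,0)]⟩⟩,⟨false,0,⟨0,
  []⟩,⟨0,[]⟩⟩,⟨false,0,⟨0,[]⟩,⟨0,[]⟩⟩,[.o ⟨false,0,⟨0,[(5,0),(17,0),(26,0)]⟩,⟨1,[(39,1),(4,0),(7,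
  0)]⟩⟩,.e ⟨false,1,⟨1,[(51,0),(0,0)]⟩,⟨23,[(14,2),(7,1),(1,2),(3,5),(18,4)]⟩⟩ ⟨false,0,⟨7,[(2,1),
  (2,7),(2,2),(13,0),(0,7),(3,2),(4,1),(1,1),(0,2),(14,4),(1,5)]⟩,⟨3,[(0,2),(3,0),(10,2),(6,0),(1,
  3)]⟩⟩,.a ⟨true,1,⟨0,[(33,0)]⟩,⟨7,[(2,3),(5,5),(15,5),(7,3),(1,1),(0,5),(8,0),(5,5),(1,2)]⟩⟩
  ⟨false,1,⟨2,[(4,0),(14,0),(14,0),(17,0)]⟩,⟨0,[]⟩⟩ ⟨true,(-1),⟨7,[(2,3),(2,7),(2,5),(14,7),(0,5),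
  (7,3),(1,1),(0,5),(8,0),(5,13),(1,2)]⟩,⟨3,[(0,2),(3,0),(10,2),(6,0),(1,3)]⟩⟩,.o ⟨false,1,⟨0,[(0,
  0),(22,0),(0,1),(25,0),(1,0)]⟩,⟨13,[(2,3),(5,5),(23,3),(1,7),(0,5),(8,4),(6,0)]⟩⟩]⟩)))) (.Q [0,0,
  1,0,-1,0,1,0,0,1,-1] (.p false [0,0,1] [1] (⟨0,[(40,0)]⟩,⟨0,[(39,0)]⟩) .k 1 (⟨0,[]⟩,⟨0,[]⟩) .k
  .k) (.S ⟨1,0,[0,1,0,-1,0,0,0,1],[0,0,1],[1,0,0,0,0,0,0,1],(⟨0,[(41,0)]⟩,⟨0,[(40,0)]⟩),⟨0,[(30,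
  0)]⟩,.k,.k,⟨true,0,⟨0,[]⟩,⟨23,[(12,2),(7,1),(1,2),(3,5),(18,4)]⟩⟩,⟨false,0,⟨0,[(48,0)]⟩,⟨1,[(9,0),
  (22,0),(17,0)]⟩⟩,⟨false,1,⟨1,[(9,0),(22,0),(17,0)]⟩,⟨0,[(48,0)]⟩⟩,⟨true,0,⟨23,[(12,2),(7,1),(1,2),
  (3,5),(18,4)]⟩,⟨0,[]⟩⟩,[.e ⟨false,1,⟨4,[(3,0),(8,1),(36,1),(0,0)]⟩,⟨0,[(8,0)]⟩⟩ ⟨false,0,⟨0,[(3,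
  0),(16,0)]⟩,⟨1,[(9,0),(3,1),(18,0),(17,0)]⟩⟩,.o ⟨false,0,⟨1,[(0,1),(2,1),(16,1),(21,0),(7,0)]⟩,⟨1,
  [(13,1),(25,1),(2,0),(3,1),(3,0)]⟩⟩,.o ⟨false,0,⟨0,[(23,0)]⟩,⟨1,[(39,1),(2,0),(6,0)]⟩⟩,.a ⟨true,
  (-1),⟨0,[(0,0)]⟩,⟨0,[(39,0),(9,0)]⟩⟩ ⟨false,1,⟨0,[(3,0),(6,0)]⟩,⟨2,[(18,1),(3,0),(3,0),(23,0)]⟩⟩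
  ⟨true,0,⟨0,[(3,0),(16,0)]⟩,⟨2,[(13,1),(2,0),(9,0),(23,0)]⟩⟩]⟩) (.Q [0,0,1,0,-1,0,0,0,1,0,0,-1]
  (.p false [0,0,0,0,1] [] (⟨0,[(34,0)]⟩,⟨0,[(33,0)]⟩) .k 0 (⟨0,[]⟩,⟨0,[]⟩) .k .k) (.S ⟨1,0,[0,1,0,
  -1],[0,0,0,0,1],[],(⟨0,[(35,0)]⟩,⟨0,[(34,0)]⟩),⟨3,[(2,1),(4,0),(4,1),(9,1),(8,1),(0,0),(2,0)]⟩,.k,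
  (.r 0 ⟨2,[(21,0),(24,0)]⟩ ⟨12,[(13,0),(1,3),(11,5),(11,1),(0,1),(10,11)]⟩),⟨false,1,⟨0,[(51,0)]⟩,
  ⟨23,[(13,2),(7,1),(1,2),(3,5),(18,4)]⟩⟩,⟨true,0,⟨0,[(49,0)]⟩,⟨11,[(10,2),(4,0),(4,2),(6,0),(18,
  1)]⟩⟩,⟨true,1,⟨1,[(10,0),(22,0),(17,0)]⟩,⟨0,[(17,0),(3,0)]⟩⟩,⟨false,1,⟨2,[(3,0),(14,0),(14,0),(17,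
  0)]⟩,⟨0,[]⟩⟩,[.o ⟨false,(-1),⟨8,[(0,5),(19,1),(0,3),(1,0),(9,0)]⟩,⟨1,[(12,1),(30,0),(7,0)]⟩⟩,.a
  ⟨true,(-1),⟨2,[(0,1),(6,0),(26,0),(9,1),(4,2)]⟩,⟨0,[(12,0)]⟩⟩ ⟨false,1,⟨1,[(50,0),(0,0)]⟩,⟨23,
  [(13,2),(7,1),(1,2),(3,5),(18,4)]⟩⟩ ⟨true,0,⟨0,[(49,0)]⟩,⟨3,[(4,0),(18,0),(3,0),(23,0)]⟩⟩,.e
  ⟨false,1,⟨2,[(3,0),(14,0),(14,0),(17,0)]⟩,⟨0,[]⟩⟩ ⟨false,0,⟨0,[(49,0)]⟩,⟨1,[(10,0),(22,0),(17,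
  0)]⟩⟩,.o ⟨false,(-1),⟨0,[(0,0)]⟩,⟨1,[(32,1),(10,0),(6,0)]⟩⟩]⟩) (.S ⟨1,0,[0,1,0,-1],[0,0,0,0,1],[0,
  2,0,-1],(⟨0,[(35,0)]⟩,⟨0,[(34,0)]⟩),⟨15,[(0,3),(1,5),(4,0),(2,2),(11,5),(8,5),(3,8)]⟩,.k,(.r 0 ⟨2,
  [(21,0),(24,0)]⟩ ⟨12,[(13,0),(1,3),(11,5),(11,1),(0,1),(10,11)]⟩),⟨false,0,⟨0,[(49,0)]⟩,⟨1,[(10,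
  0),(22,0),(17,0)]⟩⟩,⟨true,0,⟨0,[(49,0)]⟩,⟨11,[(10,2),(4,0),(4,2),(6,0),(18,1)]⟩⟩,⟨true,0,⟨23,[(13,
  2),(7,1),(1,2),(3,5),(18,4)]⟩,⟨0,[]⟩⟩,⟨false,1,⟨2,[(3,0),(14,0),(14,0),(17,0)]⟩,⟨0,[]⟩⟩,[.o
  ⟨false,(-1),⟨13,[(2,3),(4,5),(13,4),(0,3),(0,8),(7,3),(1,3),(0,9),(8,4),(5,3)]⟩,⟨1,[(12,1),(30,0),
  (7,0)]⟩⟩,.a ⟨true,(-1),⟨4,[(2,1),(4,2),(23,1),(2,4),(4,1),(9,4)]⟩,⟨0,[(12,0)]⟩⟩ ⟨false,0,⟨2,[(21,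
  0),(24,0)]⟩,⟨1,[(10,0),(22,0),(17,0)]⟩⟩ ⟨true,0,⟨0,[(49,0)]⟩,⟨3,[(4,0),(18,0),(3,0),(23,0)]⟩⟩,.a
  ⟨true,(-1),⟨4,[(2,1),(4,2),(23,1),(2,4),(4,1)]⟩,⟨0,[(32,0)]⟩⟩ ⟨true,(-1),⟨0,[(17,0),(3,0)]⟩,⟨1,
  [(10,0),(22,0),(17,0)]⟩⟩ ⟨false,0,⟨0,[(49,0)]⟩,⟨1,[(10,0),(22,0),(17,0)]⟩⟩,.a ⟨true,(-1),⟨9,[(2,
  1),(4,2),(15,4),(2,4),(4,1),(2,4),(4,1),(9,4),(1,4)]⟩,⟨0,[(0,0)]⟩⟩ ⟨false,0,⟨2,[(21,0),(24,0)]⟩,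
  ⟨3,[(4,0),(18,0),(3,0),(23,4)]⟩⟩ ⟨true,0,⟨2,[(21,0),(24,0)]⟩,⟨3,[(4,0),(18,0),(3,0),(23,
  0)]⟩⟩]⟩)))) (.Q [0,0,1,1,-1,0,1,0,0,1,-1] (.p false [0,0,1] [1] (⟨0,[(39,0)]⟩,⟨0,[(38,0)]⟩) .k 1
  (⟨0,[]⟩,⟨0,[]⟩) .k .k) (.S ⟨1,0,[0,0,0,-1,0,0,0,1],[0,0,1],[1,1,0,0,0,0,0,1],(⟨0,[(40,0)]⟩,⟨0,
  [(39,0)]⟩),⟨0,[(29,0)]⟩,.k,.k,⟨false,0,⟨0,[]⟩,⟨10,[(9,0),(1,1),(13,3),(23,7)]⟩⟩,⟨true,0,⟨0,[(47,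
  0)]⟩,⟨11,[(8,2),(4,0),(4,2),(6,0),(18,1)]⟩⟩,⟨true,0,⟨11,[(8,2),(4,0),(4,2),(6,0),(18,1)]⟩,⟨0,[(47,
  0)]⟩⟩,⟨false,1,⟨10,[(9,0),(1,1),(13,3),(23,7)]⟩,⟨0,[]⟩⟩,[.o ⟨false,0,⟨0,[(2,0),(17,0),(26,1)]⟩,⟨1,
  [(12,1),(25,1),(2,0),(3,1),(3,0)]⟩⟩,.e ⟨false,1,⟨4,[(2,0),(8,1),(36,1),(0,0)]⟩,⟨0,[(7,0)]⟩⟩
  ⟨false,1,⟨0,[(2,0),(16,0),(29,0)]⟩,⟨1,[(12,0),(12,0),(19,0)]⟩⟩,.o ⟨false,0,⟨0,[(22,0)]⟩,⟨1,[(38,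
  1),(2,0),(6,0)]⟩⟩,.a ⟨true,(-1),⟨0,[(0,0),(46,0)]⟩,⟨0,[(38,0),(9,0)]⟩⟩ ⟨true,0,⟨2,[(1,1),(0,0),(5,
  1),(0,0),(9,1),(18,1),(2,0)]⟩,⟨2,[(17,1),(3,0),(3,0),(23,0)]⟩⟩ ⟨false,1,⟨0,[(2,0),(16,0),(29,0)]⟩,
  ⟨2,[(12,1),(2,0),(9,0),(23,0)]⟩⟩]⟩) (.I [0,0,2,0,-1,-2,-1,0,1] (.S ⟨1,0,[0,1,0,-1],[0,0,0,0,1],[1,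
  2],(⟨0,[(34,0)]⟩,⟨0,[(33,0)]⟩),⟨3,[(0,1),(5,0),(4,1),(9,1),(8,1),(0,0),(2,0)]⟩,.k,(.r 0 ⟨2,[(20,
  0),(24,0)]⟩ ⟨12,[(12,0),(1,3),(11,5),(11,1),(0,1),(10,11)]⟩),⟨false,0,⟨0,[]⟩,⟨10,[(10,0),(1,1),
  (13,3),(23,7)]⟩⟩,⟨true,0,⟨0,[(48,0)]⟩,⟨11,[(9,2),(4,0),(4,2),(6,0),(18,1)]⟩⟩,⟨true,0,⟨11,[(9,2),
  (4,0),(4,2),(6,0),(18,1)]⟩,⟨0,[(48,0)]⟩⟩,⟨false,1,⟨10,[(10,0),(1,1),(13,3),(23,7)]⟩,⟨0,[]⟩⟩,[.o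
  ⟨false,(-1),⟨2,[(2,1),(15,1),(1,0),(11,0),(6,1),(2,0)]⟩,⟨1,[(11,1),(30,0),(7,0)]⟩⟩,.a ⟨true,(-1),
  ⟨3,[(0,0),(1,0),(3,0),(11,0),(6,0),(7,1),(7,0),(6,3),(1,0)]⟩,⟨0,[(11,0)]⟩⟩ ⟨false,0,⟨5,[(20,0),
  (24,0),(0,2)]⟩,⟨10,[(10,0),(1,1),(13,3),(23,7)]⟩⟩ ⟨true,0,⟨0,[(48,0)]⟩,⟨3,[(3,0),(18,0),(3,0),(23,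
  0)]⟩⟩,.e ⟨false,0,⟨23,[(12,2),(7,1),(1,2),(3,5),(18,4)]⟩,⟨0,[(50,0)]⟩⟩ ⟨false,0,⟨0,[(48,0)]⟩,⟨1,
  [(9,0),(22,0),(17,0)]⟩⟩,.o ⟨false,(-1),⟨1,[(2,1),(15,1),(20,1),(2,0),(7,0)]⟩,⟨1,[(31,1),(10,0),(6,
  0)]⟩⟩]⟩) (.Q [0,0,1,0,-1,0,1,0,0,1,-1] (.p false [0,0,1] [1] (⟨0,[(41,0)]⟩,⟨0,[(40,0)]⟩) .k 1 (⟨0,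
  []⟩,⟨0,[]⟩) .k .k) (.S ⟨1,0,[0,0,0,-1,0,0,0,1],[0,0,1],[1,1,0,0,0,0,0,1],(⟨0,[(42,0)]⟩,⟨0,[(41,
  0)]⟩),⟨0,[(31,0)]⟩,.k,.k,⟨false,0,⟨0,[]⟩,⟨10,[(11,0),(1,1),(13,3),(23,7)]⟩⟩,⟨true,0,⟨0,[(49,0)]⟩,
  ⟨11,[(10,2),(4,0),(4,2),(6,0),(18,1)]⟩⟩,⟨true,0,⟨11,[(10,2),(4,0),(4,2),(6,0),(18,1)]⟩,⟨0,[(49,
  0)]⟩⟩,⟨false,1,⟨10,[(11,0),(1,1),(13,3),(23,7)]⟩,⟨0,[]⟩⟩,[.o ⟨false,0,⟨1,[(0,1),(3,1),(16,1),(21,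
  0),(7,0)]⟩,⟨3,[(2,1),(11,1),(2,1),(20,1),(4,0),(3,1),(3,2)]⟩⟩,.e ⟨false,1,⟨4,[(4,0),(8,1),(36,1),
  (0,0)]⟩,⟨0,[(9,0)]⟩⟩ ⟨false,1,⟨0,[(4,0),(16,0),(29,0)]⟩,⟨1,[(14,0),(12,0),(19,0)]⟩⟩,.o ⟨false,0,
  ⟨0,[(24,0)]⟩,⟨3,[(2,1),(12,0),(22,0),(1,0),(2,0),(7,0)]⟩⟩,.a ⟨true,(-1),⟨0,[(0,0)]⟩,⟨0,[(40,0),(9,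
  0)]⟩⟩ ⟨true,0,⟨2,[(2,0),(0,0),(0,1),(5,0),(10,1)]⟩,⟨2,[(19,1),(3,0),(3,0),(23,0)]⟩⟩ ⟨false,1,⟨0,
  [(4,0),(16,0),(29,0)]⟩,⟨2,[(14,1),(2,0),(9,0),(23,0)]⟩⟩]⟩) (.Q [0,0,0,0,0,2,0,0,0,-1,1] (.p true
  [0,0,1] [1] (⟨0,[(42,0)]⟩,⟨0,[(41,0)]⟩) .k 1 (⟨0,[]⟩,⟨0,[]⟩) .k .k) (.R ⟨0,false,false,false,[1,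
  -1,-1],[1,-1],[0,0,-1,-1],(⟨0,[(31,0)]⟩,⟨0,[(0,0),(44,0)]⟩),(⟨0,[(45,0)]⟩,⟨0,[(46,0)]⟩),⟨0,[(0,
  0)]⟩,.k,.k,(.r (-1) ⟨4,[(12,2),(7,2),(1,0),(5,1),(22,1)]⟩ ⟨1,[(5,1),(34,0),(0,0)]⟩),.k,.k,.k,
  ⟨false,1,⟨21,[(12,1),(1,3),(13,7),(22,10),(0,4)]⟩,⟨0,[]⟩⟩,⟨true,0,⟨0,[(25,0)]⟩,⟨0,[(41,0)]⟩⟩,
  ⟨false,1,⟨2,[(5,0),(8,0),(35,0),(1,1)]⟩,⟨0,[(15,0)]⟩⟩,⟨true,0,⟨0,[(5,0),(17,0),(26,0)]⟩,⟨0,[(39,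
  0)]⟩⟩,⟨false,0,⟨0,[]⟩,⟨0,[]⟩⟩,⟨false,0,⟨0,[]⟩,⟨0,[]⟩⟩,[.a ⟨true,0,⟨0,[(50,0)]⟩,⟨43,[(2,3),(5,4),
  (0,6),(1,7),(6,13),(16,7),(5,3),(0,3),(2,31),(6,6)]⟩⟩ ⟨false,1,⟨16,[(12,8),(1,0),(13,1),(18,2),(3,
  6)]⟩,⟨3,[(5,0),(18,0),(3,0),(23,0)]⟩⟩ ⟨true,0,⟨0,[(23,0)]⟩,⟨3,[(5,0),(18,0),(3,0),(12,3),(10,
  0)]⟩⟩,.o ⟨false,1,⟨1,[(44,0),(5,1),(1,0)]⟩,⟨0,[(49,0)]⟩⟩,.a ⟨true,0,⟨0,[(41,0)]⟩,⟨0,[(37,0)]⟩⟩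
  ⟨false,1,⟨10,[(12,5),(1,0),(13,1),(23,3)]⟩,⟨3,[(5,0),(18,0),(3,0),(23,0)]⟩⟩ ⟨true,0,⟨0,[(23,0)]⟩,
  ⟨1,[(16,0),(22,0),(1,0)]⟩⟩,.a ⟨true,0,⟨1,[(40,0),(0,2)]⟩,⟨8,[(2,1),(1,2),(3,1),(2,2),(0,2),(2,2),
  (7,2),(7,4),(0,2),(4,0)]⟩⟩ ⟨true,1,⟨16,[(12,8),(1,0),(13,1),(18,2),(3,6)]⟩,⟨0,[(24,0)]⟩⟩ ⟨false,1,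
  ⟨1,[(23,1),(27,0),(0,0)]⟩,⟨3,[(5,0),(18,0),(3,0),(12,3),(10,0)]⟩⟩]⟩) (.S ⟨1,0,[0,1,0,-1],[0,0,0,0,
  1],[],(⟨0,[(36,0)]⟩,⟨0,[(35,0)]⟩),⟨1,[(0,1),(7,1),(15,1),(7,1),(0,1),(10,0),(5,1),(1,0)]⟩,.k,(.r
  0 ⟨2,[(22,0),(24,0)]⟩ ⟨12,[(14,0),(1,3),(11,5),(11,1),(0,1),(10,11)]⟩),⟨false,1,⟨0,[(52,0)]⟩,⟨23,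
  [(14,2),(7,1),(1,2),(3,5),(18,4)]⟩⟩,⟨true,0,⟨0,[(50,0)]⟩,⟨11,[(11,2),(4,0),(4,2),(6,0),(18,1)]⟩⟩,
  ⟨true,1,⟨1,[(11,0),(22,0),(17,0)]⟩,⟨0,[(18,0),(3,0)]⟩⟩,⟨false,1,⟨10,[(12,0),(1,1),(13,3),(23,7)]⟩,
  ⟨0,[]⟩⟩,[.e ⟨false,1,⟨21,[(12,1),(1,3),(13,7),(22,10),(0,4)]⟩,⟨0,[]⟩⟩ ⟨false,0,⟨2,[(22,0),(24,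
  0)]⟩,⟨1,[(11,0),(22,0),(17,0)]⟩⟩,.a ⟨true,(-1),⟨2,[(4,1),(15,1),(1,0),(4,0),(13,1),(10,1)]⟩,⟨0,
  [(13,0)]⟩⟩ ⟨false,1,⟨1,[(51,0),(0,0)]⟩,⟨23,[(14,2),(7,1),(1,2),(3,5),(18,4)]⟩⟩ ⟨true,0,⟨0,[(50,
  0)]⟩,⟨3,[(5,0),(18,0),(3,0),(23,0)]⟩⟩,.e ⟨false,1,⟨10,[(12,0),(1,1),(13,3),(23,7)]⟩,⟨0,[]⟩⟩
  ⟨false,0,⟨0,[(50,0)]⟩,⟨1,[(11,0),(22,0),(17,0)]⟩⟩,.o ⟨false,(-1),⟨1,[(4,1),(15,1),(20,1),(2,0),(7,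
  0)]⟩,⟨1,[(33,1),(10,0),(6,0)]⟩⟩]⟩))))))))))

theorem ok56 : chk K t56 l42 = true := by decide +kernel

noncomputable def t57 : Tre :=
  (.I [0,-1,0,0,0,0,0,-1] (.Q [0,0,1,0,-1,0,1,0,0,1,-1] (.p false [0,0,1] [1] (⟨0,[(35,0)]⟩,⟨0,[(34,
  0)]⟩) .k 1 (⟨0,[]⟩,⟨0,[]⟩) .k .k) (.S ⟨1,0,[0,1,1,0,0,0,0,-1],[1,1,-1],[0,0,1,0,0,0,0,-1],(⟨0,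
  [(35,0),(3,0)]⟩,⟨0,[(25,0)]⟩),⟨0,[(35,0)]⟩,.k,.k,⟨true,0,⟨0,[(43,0)]⟩,⟨11,[(4,2),(4,0),(4,2),(6,
  0),(18,1)]⟩⟩,⟨false,0,⟨0,[(43,0)]⟩,⟨1,[(4,0),(22,0),(17,0)]⟩⟩,⟨false,1,⟨10,[(5,0),(1,1),(13,3),
  (23,7)]⟩,⟨0,[]⟩⟩,⟨true,0,⟨23,[(7,2),(7,1),(1,2),(3,5),(18,4)]⟩,⟨0,[]⟩⟩,[.o ⟨false,0,⟨11,[(1,10),
  (9,5),(3,6),(16,0),(1,10),(2,5),(3,8)]⟩,⟨0,[(31,0),(13,0)]⟩⟩,.e ⟨false,0,⟨0,[(1,0)]⟩,⟨6,[(7,3),(1,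
  0),(11,1),(22,2)]⟩⟩ ⟨false,0,⟨0,[(3,0)]⟩,⟨1,[(7,0),(33,0),(3,0)]⟩⟩,.a ⟨true,1,⟨0,[(34,0),(9,0)]⟩,
  ⟨0,[(0,0)]⟩⟩ ⟨false,0,⟨1,[(1,0),(11,0),(3,0),(27,0)]⟩,⟨1,[(7,0),(33,0),(3,0)]⟩⟩ ⟨true,(-1),⟨1,[(1,
  0),(6,0),(2,0),(3,0),(1,0)]⟩,⟨1,[(7,0),(33,0),(3,0)]⟩⟩,.o ⟨false,1,⟨1,[(34,1),(2,0),(6,0)]⟩,⟨0,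
  [(18,0)]⟩⟩]⟩) (.I [0,-1,0,-1,1,0,0,1] (.S ⟨1,0,[0,0,1,0,0,0,0,-1],[1,1,-1],[1,1,1,1,0,0,0,-1],(⟨0,
  [(36,0),(3,0)]⟩,⟨0,[(26,0)]⟩),⟨0,[(36,0)]⟩,.k,.k,⟨false,0,⟨0,[]⟩,⟨10,[(6,0),(1,1),(13,3),(23,
  7)]⟩⟩,⟨true,0,⟨0,[(44,0)]⟩,⟨11,[(5,2),(4,0),(4,2),(6,0),(18,1)]⟩⟩,⟨true,0,⟨11,[(5,2),(4,0),(4,2),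
  (6,0),(18,1)]⟩,⟨0,[(44,0)]⟩⟩,⟨false,1,⟨10,[(6,0),(1,1),(13,3),(23,7)]⟩,⟨0,[]⟩⟩,[.a ⟨true,0,⟨5,[(2,
  4),(13,0),(16,0),(1,4),(6,2)]⟩,⟨0,[(13,0),(30,0)]⟩⟩ ⟨true,(-1),⟨4,[(2,2),(6,1),(2,4),(3,1),(25,
  0)]⟩,⟨0,[(0,0)]⟩⟩ ⟨false,0,⟨0,[(4,0)]⟩,⟨5,[(1,1),(6,1),(4,1),(31,0),(0,0)]⟩⟩,.o ⟨false,1,⟨2,[(1,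
  0),(0,1),(30,0),(1,0),(2,0),(7,0)]⟩,⟨0,[(32,0)]⟩⟩,.o ⟨false,1,⟨0,[(1,0)]⟩,⟨0,[(34,0)]⟩⟩,.o ⟨false,
  1,⟨4,[(0,0),(0,2),(20,0),(12,1),(2,0)]⟩,⟨0,[(19,0)]⟩⟩]⟩) (.Q [0,0,0,-2,0,0,-1,-1,0,-1,1] (.p true
  [0,0,1] [1] (⟨0,[(37,0)]⟩,⟨0,[(36,0)]⟩) .k 1 (⟨0,[]⟩,⟨0,[]⟩) .k .k) (.R ⟨1,false,false,true,[1,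
  -1],[0,0,1],[1,1,0,0,0,0,0,1],(⟨0,[(40,0)]⟩,⟨0,[(41,0)]⟩),(⟨0,[(38,0)]⟩,⟨0,[(37,0)]⟩),⟨0,[(26,0),
  (0,0)]⟩,.k,.k,(.r (-1) ⟨6,[(7,5),(1,0),(7,0),(5,1),(18,0)]⟩ ⟨2,[(11,0),(1,0),(5,0),(3,0),(23,
  1)]⟩),.k,(.r 0 ⟨1,[(1,0),(1,0),(3,0),(9,0)]⟩ ⟨12,[(9,2),(1,11),(11,4),(11,5),(0,5),(10,9)]⟩),.k,
  ⟨true,0,⟨0,[]⟩,⟨1,[(35,0),(0,0)]⟩⟩,⟨false,0,⟨0,[(1,0),(5,0),(6,0)]⟩,⟨35,[(0,1),(8,7),(13,11),(10,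
  1),(1,31),(2,16),(7,10)]⟩⟩,⟨true,0,⟨7,[(9,1),(1,3),(7,1),(15,0),(0,0)]⟩,⟨3,[(1,0),(1,0),(3,0),(2,
  1),(6,0)]⟩⟩,⟨false,0,⟨0,[(14,0)]⟩,⟨3,[(0,1),(33,1),(4,0),(7,2)]⟩⟩,⟨true,0,⟨0,[(11,0)]⟩,⟨1,[(3,0),
  (11,0),(1,0)]⟩⟩,⟨true,0,⟨11,[(6,2),(4,0),(2,8),(6,2),(1,0),(0,2),(17,1)]⟩,⟨0,[(0,0)]⟩⟩,[.o ⟨false,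
  0,⟨0,[(33,0)]⟩,⟨2,[(2,0),(0,1),(30,0),(1,0),(2,0),(7,0)]⟩⟩,.e ⟨false,1,⟨5,[(2,1),(6,1),(4,1),(31,
  0),(0,0)]⟩,⟨0,[(5,0)]⟩⟩ ⟨false,1,⟨5,[(9,1),(4,1),(17,3),(13,2),(0,0)]⟩,⟨7,[(0,2),(1,0),(0,3),(9,
  2),(20,0),(1,2),(2,1)]⟩⟩,.a ⟨true,0,⟨1,[(35,0),(0,0)]⟩,⟨0,[(1,0),(5,0),(6,0),(21,0)]⟩⟩ ⟨false,1,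
  ⟨12,[(9,6),(1,1),(11,2),(11,0),(0,0),(10,5)]⟩,⟨0,[(3,0)]⟩⟩ ⟨true,0,⟨2,[(14,2),(2,0),(24,0)]⟩,⟨7,
  [(0,2),(1,0),(0,3),(9,2),(20,0),(1,2),(2,1)]⟩⟩,.o ⟨false,0,⟨1,[(19,1),(19,0),(5,1),(1,0)]⟩,⟨0,
  [(46,0)]⟩⟩]⟩) (.Q [0,0,0,0,0,2,0,0,0,-1,1] (.p true [0,0,1] [1] (⟨0,[(38,0)]⟩,⟨0,[(37,0)]⟩) .k 1
  (⟨0,[]⟩,⟨0,[]⟩) .k .k) (.R ⟨0,false,false,false,[1,-1,-1],[1,-1],[1,1],(⟨0,[(27,0)]⟩,⟨0,[(0,0),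
  (40,0)]⟩),(⟨0,[(41,0)]⟩,⟨0,[(42,0)]⟩),⟨0,[(0,0)]⟩,.k,.k,(.r 0 ⟨1,[(2,0),(1,0),(3,0),(9,0)]⟩ ⟨12,
  [(10,2),(1,11),(11,4),(11,5),(0,5),(10,9)]⟩),.k,.k,.k,⟨false,0,⟨11,[(7,2),(4,0),(4,2),(6,0),(18,
  1)]⟩,⟨10,[(8,5),(1,0),(13,1),(23,3)]⟩⟩,⟨true,0,⟨0,[(21,0)]⟩,⟨0,[(37,0)]⟩⟩,⟨true,0,⟨7,[(10,1),(1,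
  3),(7,1),(15,0),(0,0)]⟩,⟨3,[(2,0),(1,0),(3,0),(2,1),(6,0)]⟩⟩,⟨false,1,⟨0,[(34,0),(13,0)]⟩,⟨25,[(2,
  9),(0,2),(0,9),(2,0),(0,5),(4,0),(17,0),(3,5),(1,16),(3,1)]⟩⟩,⟨false,0,⟨0,[]⟩,⟨0,[]⟩⟩,⟨false,0,⟨0,
  []⟩,⟨0,[]⟩⟩,[.a ⟨true,0,⟨0,[(46,0)]⟩,⟨6,[(0,0),(0,1),(0,0),(1,0),(2,0),(5,0),(17,0),(5,1),(0,0),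
  (2,3)]⟩⟩ ⟨false,0,⟨5,[(18,0),(24,0),(0,2)]⟩,⟨10,[(8,0),(1,1),(13,3),(23,7)]⟩⟩ ⟨true,0,⟨0,[(19,
  0)]⟩,⟨5,[(12,0),(1,0),(5,0),(3,0),(12,5),(10,1)]⟩⟩,.o ⟨false,1,⟨1,[(40,0),(5,1),(1,0)]⟩,⟨0,[(45,
  0)]⟩⟩,.a ⟨true,0,⟨0,[(37,0)]⟩,⟨0,[(33,0)]⟩⟩ ⟨false,0,⟨0,[]⟩,⟨10,[(8,0),(1,1),(13,3),(23,7)]⟩⟩
  ⟨true,0,⟨0,[(19,0)]⟩,⟨1,[(12,0),(22,0),(1,0)]⟩⟩,.a ⟨true,0,⟨1,[(36,0),(0,2)]⟩,⟨0,[(2,0),(5,0),(6,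
  0)]⟩⟩ ⟨true,0,⟨5,[(18,0),(24,0),(0,2)]⟩,⟨1,[(36,0),(0,0)]⟩⟩ ⟨false,1,⟨1,[(19,1),(27,0),(0,0)]⟩,⟨5,
  [(12,0),(1,0),(5,0),(3,0),(12,5),(10,1)]⟩⟩]⟩) (.Q [0,-2,0,0,2,0,0,0,-2,-1,0,2] (.p true [0,0,0,0,
  1] [1,0,0,0,-1] (⟨0,[(32,0)]⟩,⟨0,[(31,0)]⟩) .k 2 (⟨0,[(31,0)]⟩,⟨0,[(32,0)]⟩) .k (.r 0 ⟨11,[(10,2),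
  (7,1),(1,2),(3,5),(18,4)]⟩ ⟨0,[(48,0)]⟩)) (.Q [0,0,0,0,0,2,0,0,0,0,-1] (.p false [0,0,1] [] (⟨0,
  [(40,0)]⟩,⟨0,[(39,0)]⟩) .k 0 (⟨0,[]⟩,⟨0,[]⟩) .k .k) (.R ⟨0,false,false,false,[0,-1,1],[1,-1,-1],
  [],(⟨0,[(30,0)]⟩,⟨1,[(0,0),(39,1),(0,0)]⟩),(⟨0,[(29,0)]⟩,⟨1,[(0,0),(40,2)]⟩),⟨0,[(0,0)]⟩,.k,.k,
  (.r (-2) ⟨10,[(10,9),(1,8),(13,6),(23,2)]⟩ ⟨0,[(6,0),(9,0)]⟩),.k,.k,.k,⟨false,1,⟨2,[(9,0),(2,0),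
  (1,0),(17,0),(17,0)]⟩,⟨3,[(4,0),(1,0),(3,0),(2,1),(6,0)]⟩⟩,⟨true,1,⟨0,[(5,0),(33,0)]⟩,⟨0,[(6,0),
  (10,0),(3,0),(0,0),(25,0)]⟩⟩,⟨false,0,⟨4,[(6,3),(9,1),(9,0),(23,1)]⟩,⟨10,[(10,2),(1,5),(13,0),(23,
  1)]⟩⟩,⟨true,0,⟨6,[(4,5),(0,4),(0,7),(13,1),(18,8),(2,0)]⟩,⟨0,[(17,0),(18,0),(11,0)]⟩⟩,⟨false,0,⟨0,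
  []⟩,⟨0,[]⟩⟩,⟨false,0,⟨0,[]⟩,⟨0,[]⟩⟩,[.e ⟨false,1,⟨21,[(10,1),(1,3),(13,7),(22,10),(0,4)]⟩,⟨0,[]⟩⟩
  ⟨false,1,⟨0,[(4,0),(0,0),(4,0),(28,0)]⟩,⟨0,[(17,0),(20,0)]⟩⟩,.o ⟨false,1,⟨7,[(5,1),(0,3),(3,1),(7,
  3),(20,5),(2,2),(7,0)]⟩,⟨0,[(27,0)]⟩⟩,.o ⟨false,0,⟨0,[(38,0)]⟩,⟨0,[(5,0)]⟩⟩,.a ⟨true,(-1),⟨0,[(6,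
  0),(10,0),(4,0),(25,1)]⟩,⟨1,[(3,0),(0,0),(0,0),(4,1),(28,1),(6,0)]⟩⟩ ⟨false,1,⟨1,[(49,0),(0,0)]⟩,
  ⟨1,[(38,0),(0,0)]⟩⟩ ⟨true,1,⟨0,[(4,0),(0,0),(4,0),(28,0)]⟩,⟨1,[(17,1),(3,0),(0,1),(15,0),(9,
  0)]⟩⟩]⟩) (.Q [0,0,-1,0,1,0,0,0,-1,-1,0,1] (.p true [0,0,0,0,1] [1] (⟨0,[(34,0)]⟩,⟨0,[(33,0)]⟩) .k
  1 (⟨0,[]⟩,⟨0,[]⟩) .k .k) (.Q [0,0,0,0,0,-1,0,0,0,0,0,1] (.ed false [1,-1,0,0,1] .k) (.S ⟨1,0,[0,2,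
  0,-1],[0,0,0,0,1],[1,1],(⟨0,[(36,0)]⟩,⟨0,[(35,0)]⟩),⟨0,[(0,0)]⟩,.k,(.r 0 ⟨2,[(22,0),(24,0)]⟩ ⟨12,
  [(14,0),(1,3),(11,5),(11,1),(0,1),(10,11)]⟩),⟨true,0,⟨0,[]⟩,⟨23,[(14,2),(7,1),(1,2),(3,5),(18,
  4)]⟩⟩,⟨false,0,⟨0,[(50,0)]⟩,⟨1,[(11,0),(22,0),(17,0)]⟩⟩,⟨false,1,⟨1,[(11,0),(22,0),(17,0)]⟩,⟨0,
  [(50,0)]⟩⟩,⟨true,0,⟨23,[(14,2),(7,1),(1,2),(3,5),(18,4)]⟩,⟨0,[]⟩⟩,[.o ⟨false,(-1),⟨2,[(21,0),(0,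
  1),(1,1),(9,1)]⟩,⟨39,[(3,13),(1,3),(0,3),(0,3),(3,11),(6,1),(25,12),(7,28)]⟩⟩,.a ⟨true,(-1),⟨0,
  [(27,0),(22,0)]⟩,⟨21,[(3,10),(1,5),(0,5),(0,0),(3,1),(5,1),(17,1),(5,4),(3,3),(6,2)]⟩⟩ ⟨true,0,⟨0,
  []⟩,⟨1,[(40,0),(0,0)]⟩⟩ ⟨false,0,⟨2,[(22,0),(24,0)]⟩,⟨1,[(11,0),(22,0),(17,0)]⟩⟩,.o ⟨false,0,⟨0,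
  [(34,0)]⟩,⟨11,[(3,5),(18,0),(1,2),(19,2),(2,3)]⟩⟩,.o ⟨false,0,⟨1,[(34,1),(5,0),(0,0)]⟩,⟨0,[(1,
  0)]⟩⟩]⟩) (.R ⟨0,false,false,true,[0,0,0,0,1],[0,1],[1,1,1,1],(⟨0,[(36,0)]⟩,⟨0,[(35,0)]⟩),(⟨0,[(46,
  0)]⟩,⟨0,[(45,0)]⟩),⟨0,[(0,0)]⟩,.k,.k,(.r 0 ⟨2,[(22,0),(24,0)]⟩ ⟨12,[(14,0),(1,3),(11,5),(11,1),(0,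
  1),(10,11)]⟩),(.r 0 ⟨2,[(22,0),(24,0)]⟩ ⟨12,[(14,0),(1,3),(11,5),(11,1),(0,1),(10,11)]⟩),.k,.k,
  ⟨true,0,⟨0,[]⟩,⟨1,[(40,0),(0,0)]⟩⟩,⟨false,1,⟨3,[(3,1),(1,2),(0,2),(0,0),(4,1),(9,1),(18,1),(6,
  0)]⟩,⟨1,[(34,1),(5,0),(0,0)]⟩⟩,⟨true,0,⟨5,[(16,0),(1,0),(5,0),(3,0),(23,1)]⟩,⟨2,[(22,0),(24,0)]⟩⟩,
  ⟨false,1,⟨21,[(3,10),(1,5),(0,5),(0,0),(3,1),(5,1),(17,1),(5,4),(3,3),(6,2)]⟩,⟨0,[(34,0),(15,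
  0)]⟩⟩,⟨false,0,⟨0,[]⟩,⟨0,[]⟩⟩,⟨false,0,⟨0,[]⟩,⟨0,[]⟩⟩,[.o ⟨false,0,⟨0,[(49,0)]⟩,⟨1,[(44,0),(5,1),
  (1,0)]⟩⟩,.a ⟨true,0,⟨6,[(5,1),(0,0),(1,0),(2,0),(5,0),(17,0),(5,1),(0,1),(0,1),(1,1)]⟩,⟨0,[(50,
  0)]⟩⟩ ⟨true,0,⟨5,[(16,0),(1,0),(5,0),(3,0),(23,1)]⟩,⟨0,[(50,0)]⟩⟩ ⟨false,1,⟨27,[(3,11),(1,2),(0,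
  2),(4,6),(5,2),(4,3),(12,2),(5,2),(3,5),(2,16)]⟩,⟨0,[(34,0),(15,0)]⟩⟩,.o ⟨false,0,⟨0,[(34,0)]⟩,
  ⟨11,[(3,5),(18,0),(1,2),(19,2),(2,3)]⟩⟩,.o ⟨false,0,⟨1,[(34,1),(5,0),(0,0)]⟩,⟨0,[(1,0)]⟩⟩]⟩)) (.Q
  [0,0,0,0,1,0,-1,0,-1,-1,1,1] (.p true [0,0,1] [1,0,0,0,-1] (⟨0,[(42,0)]⟩,⟨0,[(41,0)]⟩) .k 2 (⟨0,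
  [(34,0)]⟩,⟨0,[(35,0)]⟩) .k (.r (-1) ⟨25,[(13,19),(1,1),(11,15),(11,0),(0,0),(10,5)]⟩ ⟨0,[(7,
  0)]⟩)) (.K ⟨0,[1,0,0,0,-1],1,1,(⟨0,[(35,0)]⟩,⟨0,[(36,0)]⟩),.k,(.r (-1) ⟨10,[(12,5),(1,0),(13,1),
  (23,3)]⟩ ⟨15,[(14,1),(1,3),(7,1),(3,7),(11,0),(0,0)]⟩),(.r (-1) ⟨12,[(14,0),(1,3),(11,5),(11,1),
  (0,1),(10,11)]⟩ ⟨2,[(22,0),(24,0)]⟩),.k,.k,[⟨0,[(0,0)]⟩,⟨0,[(1,0)]⟩,⟨23,[(14,2),(7,1),(1,2),(2,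
  23),(0,5),(18,4)]⟩,⟨11,[(3,5),(18,0),(1,2),(19,2),(2,3)]⟩]⟩) (.S ⟨1,0,[0,-1,0,-1],[1,0,0,0,-1],
  [1],(⟨0,[(35,0)]⟩,⟨0,[(36,0)]⟩),⟨3,[(1,0),(3,0),(0,0),(0,0),(1,1),(2,1),(13,0),(8,1)]⟩,.k,(.r
  (-1) ⟨10,[(12,5),(1,0),(13,1),(23,3)]⟩ ⟨15,[(14,1),(1,3),(7,1),(3,7),(11,0),(0,0)]⟩),⟨false,0,⟨0,
  []⟩,⟨10,[(12,0),(1,1),(13,3),(23,7)]⟩⟩,⟨true,0,⟨0,[(50,0)]⟩,⟨11,[(11,2),(4,0),(4,2),(6,0),(18,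
  1)]⟩⟩,⟨true,0,⟨11,[(11,2),(4,0),(4,2),(6,0),(18,1)]⟩,⟨0,[(50,0)]⟩⟩,⟨false,1,⟨10,[(12,0),(1,1),(13,
  3),(23,7)]⟩,⟨0,[]⟩⟩,[.a ⟨true,1,⟨2,[(1,1),(1,1),(18,0),(10,0)]⟩,⟨0,[(26,0)]⟩⟩ ⟨true,0,⟨0,[]⟩,⟨1,
  [(40,0),(0,0)]⟩⟩ ⟨false,1,⟨10,[(12,5),(1,0),(13,1),(23,3)]⟩,⟨11,[(11,2),(4,0),(4,2),(6,0),(18,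
  1)]⟩⟩,.o ⟨false,2,⟨11,[(3,5),(10,1),(5,3),(19,0),(0,0),(2,2),(5,5),(1,6)]⟩,⟨0,[(21,0)]⟩⟩,.o
  ⟨false,1,⟨11,[(3,5),(18,0),(1,2),(19,2),(2,3)]⟩,⟨0,[(34,0)]⟩⟩,.o ⟨false,1,⟨7,[(3,1),(18,0),(1,2),
  (8,3),(6,1),(0,1),(2,2)]⟩,⟨0,[(0,0),(6,0)]⟩⟩]⟩)))) (.Q [0,0,1,1,-1,0,0,0,1,1,0,-1] (.p false [0,0,
  0,0,1] [1] (⟨0,[(33,0)]⟩,⟨0,[(32,0)]⟩) .k 1 (⟨0,[]⟩,⟨0,[]⟩) .k .k) (.Q [0,0,0,0,1,0,0,0,-1,-1,0,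
  1] (.p true [0,0,0,0,1] [1] (⟨0,[(34,0)]⟩,⟨0,[(33,0)]⟩) .k 1 (⟨0,[]⟩,⟨0,[]⟩) .k .k) (.Q [0,0,1,0,
  0,0,1,0,-1,0,-1,1] (.p false [0,0,1] [0,0,0,0,1] (⟨0,[(42,0)]⟩,⟨0,[(41,0)]⟩) .k 2 (⟨0,[(35,0)]⟩,
  ⟨0,[(34,0)]⟩) .k (.r (-2) ⟨25,[(13,19),(1,1),(11,15),(11,0),(0,0),(10,31)]⟩ ⟨2,[(5,1),(1,0),(13,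
  0),(1,0)]⟩)) (.R ⟨1,false,false,false,[1,0,0,0,-1],[1,0,-1],[1],(⟨0,[(35,0)]⟩,⟨0,[(36,0)]⟩),(⟨0,
  [(42,0)]⟩,⟨0,[(43,0)]⟩),⟨10,[(2,1),(0,0),(0,0),(0,1),(0,1),(0,1),(1,3),(2,3),(19,0),(2,6)]⟩,.k,.k,
  (.r (-1) ⟨10,[(12,5),(1,0),(13,1),(23,3)]⟩ ⟨15,[(14,1),(1,3),(7,1),(3,7),(11,0),(0,0)]⟩),.k,(.r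
  (-2) ⟨10,[(12,3),(1,7),(13,4),(23,9)]⟩ ⟨6,[(6,3),(1,0),(11,0),(3,2),(3,0)]⟩),.k,⟨false,1,⟨4,[(5,
  0),(1,0),(6,1),(36,0),(0,0)]⟩,⟨0,[(10,0)]⟩⟩,⟨true,0,⟨1,[(3,0),(3,0),(33,0),(10,0)]⟩,⟨0,[(0,0)]⟩⟩,
  ⟨false,0,⟨0,[]⟩,⟨10,[(12,0),(1,1),(13,3),(23,7)]⟩⟩,⟨true,(-1),⟨13,[(3,6),(2,5),(0,4),(0,7),(13,1),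
  (18,8),(2,0)]⟩,⟨19,[(0,9),(0,8),(9,0),(0,1),(1,5),(4,7),(10,0),(21,1)]⟩⟩,⟨true,0,⟨11,[(11,2),(4,
  0),(4,2),(6,0),(18,1)]⟩,⟨0,[(50,0)]⟩⟩,⟨true,(-1),⟨2,[(2,0),(0,0),(2,1),(0,1),(0,0),(32,0)]⟩,⟨7,
  [(0,6),(11,1),(1,3),(18,0),(6,0),(11,0)]⟩⟩,[.a ⟨true,0,⟨25,[(6,9),(0,2),(0,9),(2,0),(0,5),(4,0),
  (17,0),(3,5),(1,16),(3,1)]⟩,⟨0,[(19,0),(30,0)]⟩⟩ ⟨true,0,⟨0,[]⟩,⟨1,[(40,0),(0,0)]⟩⟩ ⟨false,0,⟨3,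
  [(2,0),(0,0),(3,2),(0,2),(3,0),(13,0),(12,0)]⟩,⟨19,[(0,9),(0,8),(9,0),(0,1),(1,5),(4,7),(10,0),
  (21,1)]⟩⟩,.o ⟨false,1,⟨2,[(7,0),(0,1),(30,0),(1,0),(2,0),(7,0)]⟩,⟨0,[(38,0)]⟩⟩,.o ⟨false,1,⟨0,[(1,
  0)]⟩,⟨0,[(34,0)]⟩⟩,.o ⟨false,1,⟨1,[(0,0),(32,0),(7,0),(2,0)]⟩,⟨0,[(2,0),(4,0),(15,0)]⟩⟩]⟩) (.R ⟨2,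
  false,false,false,[0,1],[0,0,0,0,1],[1,1,1,1],(⟨0,[]⟩,⟨0,[]⟩),(⟨0,[(36,0)]⟩,⟨0,[(35,0)]⟩),⟨0,[]⟩,
  .k,.k,.k,(.r (-1) ⟨12,[(14,0),(1,3),(11,5),(11,1),(0,1),(10,11)]⟩ ⟨2,[(22,0),(24,0)]⟩),.k,.k,
  ⟨true,0,⟨5,[(16,0),(1,0),(5,0),(3,0),(23,1)]⟩,⟨0,[(50,0)]⟩⟩,⟨false,0,⟨0,[(34,0)]⟩,⟨4,[(1,2),(3,2),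
  (0,2),(2,0),(1,0),(0,3),(9,0),(13,0),(4,2),(4,1)]⟩⟩,⟨false,0,⟨0,[]⟩,⟨10,[(12,0),(1,1),(13,3),(23,
  7)]⟩⟩,⟨true,(-1),⟨0,[(0,0),(22,0),(0,0),(25,0)]⟩,⟨0,[(13,0)]⟩⟩,⟨true,0,⟨11,[(11,2),(4,0),(4,2),(6,
  0),(18,1)]⟩,⟨0,[(50,0)]⟩⟩,⟨true,(-1),⟨0,[(0,0),(22,0),(0,0)]⟩,⟨0,[(33,0)]⟩⟩,[.o ⟨false,(-1),⟨0,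
  [(0,0),(22,0),(0,0)]⟩,⟨1,[(33,1),(10,0),(7,0)]⟩⟩,.o ⟨false,0,⟨0,[(34,0)]⟩,⟨0,[(1,0)]⟩⟩,.a ⟨true,0,
  ⟨0,[(6,0),(5,0),(6,0),(21,0)]⟩,⟨1,[(40,0),(0,0)]⟩⟩ ⟨false,0,⟨5,[(16,0),(1,0),(5,0),(3,0),(23,1)]⟩,
  ⟨10,[(12,5),(1,0),(13,1),(23,3)]⟩⟩ ⟨true,(-1),⟨2,[(2,0),(0,0),(20,0),(19,0),(5,1)]⟩,⟨4,[(1,2),(3,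
  2),(0,2),(2,0),(1,0),(0,3),(9,0),(13,0),(4,2),(4,1)]⟩⟩,.e ⟨true,0,⟨11,[(11,2),(4,0),(4,2),(6,0),
  (18,1)]⟩,⟨0,[(50,0)]⟩⟩ ⟨true,(-1),⟨0,[(0,0),(22,0),(0,0)]⟩,⟨0,[(33,0)]⟩⟩]⟩)) (.R ⟨2,true,false,
  true,[0,1],[1,0,0,0,-1],[1,1,1,1],(⟨0,[]⟩,⟨0,[]⟩),(⟨0,[(34,0)]⟩,⟨0,[(35,0)]⟩),⟨0,[]⟩,.k,.k,.k,(.r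
  0 ⟨15,[(13,1),(1,3),(7,1),(3,7),(11,0),(0,0)]⟩ ⟨10,[(11,5),(1,0),(13,1),(23,3)]⟩),.k,.k,⟨false,0,
  ⟨11,[(10,2),(4,0),(4,2),(6,0),(18,1)]⟩,⟨10,[(11,5),(1,0),(13,1),(23,3)]⟩⟩,⟨true,1,⟨1,[(8,0),(23,
  0),(2,0),(7,0),(1,1)]⟩,⟨0,[(0,0)]⟩⟩,⟨false,0,⟨0,[]⟩,⟨10,[(11,0),(1,1),(13,3),(23,7)]⟩⟩,⟨true,1,⟨0,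
  [(6,0),(1,0),(13,0),(12,0),(9,1)]⟩,⟨0,[(25,0)]⟩⟩,⟨true,0,⟨11,[(10,2),(4,0),(4,2),(6,0),(18,1)]⟩,
  ⟨0,[(49,0)]⟩⟩,⟨false,2,⟨1,[(32,1),(10,0),(7,0)]⟩,⟨0,[(0,0)]⟩⟩,[]⟩)) (.Q [0,0,0,0,0,2,0,0,0,0,-1]
  (.p false [0,0,1] [] (⟨0,[(41,0)]⟩,⟨0,[(40,0)]⟩) .k 0 (⟨0,[]⟩,⟨0,[]⟩) .k .k) (.R ⟨0,false,false,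
  false,[0,-1,1],[1,-1,-1],[],(⟨0,[(31,0)]⟩,⟨1,[(0,0),(40,1),(0,0)]⟩),(⟨0,[(30,0)]⟩,⟨1,[(0,0),(41,
  2)]⟩),⟨0,[(0,0)]⟩,.k,.k,(.r (-2) ⟨10,[(11,9),(1,8),(13,6),(23,2)]⟩ ⟨0,[(7,0),(9,0)]⟩),.k,.k,.k,
  ⟨false,1,⟨2,[(10,0),(2,0),(1,0),(17,0),(17,0)]⟩,⟨3,[(5,0),(1,0),(3,0),(2,1),(6,0)]⟩⟩,⟨true,1,⟨0,
  [(6,0),(33,0)]⟩,⟨0,[(7,0),(10,0),(3,0),(0,0),(25,0)]⟩⟩,⟨false,0,⟨4,[(7,3),(9,1),(9,0),(23,1)]⟩,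
  ⟨10,[(11,2),(1,5),(13,0),(23,1)]⟩⟩,⟨true,0,⟨6,[(5,5),(0,4),(0,7),(13,1),(18,8),(2,0)]⟩,⟨0,[(18,0),
  (18,0),(11,0)]⟩⟩,⟨false,0,⟨0,[]⟩,⟨0,[]⟩⟩,⟨false,0,⟨0,[]⟩,⟨0,[]⟩⟩,[.e ⟨false,1,⟨21,[(11,1),(1,3),
  (13,7),(22,10),(0,4)]⟩,⟨0,[]⟩⟩ ⟨false,1,⟨0,[(5,0),(0,0),(4,0),(28,0)]⟩,⟨0,[(18,0),(20,0)]⟩⟩,.o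
  ⟨false,1,⟨7,[(6,1),(0,3),(3,1),(7,3),(20,5),(2,2),(7,0)]⟩,⟨0,[(28,0)]⟩⟩,.o ⟨false,0,⟨0,[(39,0)]⟩,
  ⟨0,[(6,0)]⟩⟩,.a ⟨true,(-1),⟨0,[(7,0),(10,0),(4,0),(25,1)]⟩,⟨1,[(4,0),(0,0),(0,0),(4,1),(28,1),(6,
  0)]⟩⟩ ⟨false,1,⟨1,[(50,0),(0,0)]⟩,⟨1,[(39,0),(0,0)]⟩⟩ ⟨true,1,⟨0,[(5,0),(0,0),(4,0),(28,0)]⟩,⟨1,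
  [(18,1),(3,0),(0,1),(15,0),(9,0)]⟩⟩]⟩) (.Q [0,0,-1,0,0,0,0,0,1,0,0,-1] (.p false [0,0,0,0,1] []
  (⟨0,[(35,0)]⟩,⟨0,[(34,0)]⟩) .k 0 (⟨0,[]⟩,⟨0,[]⟩) .k .k) (.S ⟨1,0,[0,-1,0,-1],[1,0,0,0,-1],[1],(⟨0,
  [(35,0)]⟩,⟨0,[(36,0)]⟩),⟨15,[(1,0),(1,2),(0,0),(0,3),(0,3),(0,1),(1,5),(2,5),(22,9),(5,1),(10,
  1)]⟩,.k,(.r (-1) ⟨10,[(12,5),(1,0),(13,1),(23,3)]⟩ ⟨15,[(14,1),(1,3),(7,1),(3,7),(11,0),(0,0)]⟩),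
  ⟨false,0,⟨0,[]⟩,⟨10,[(12,0),(1,1),(13,3),(23,7)]⟩⟩,⟨true,0,⟨0,[(50,0)]⟩,⟨11,[(11,2),(4,0),(4,2),
  (6,0),(18,1)]⟩⟩,⟨true,0,⟨11,[(11,2),(4,0),(4,2),(6,0),(18,1)]⟩,⟨0,[(50,0)]⟩⟩,⟨false,1,⟨10,[(12,0),
  (1,1),(13,3),(23,7)]⟩,⟨0,[]⟩⟩,[.a ⟨true,1,⟨1,[(2,0),(5,0),(0,0),(2,0),(6,0),(16,0),(4,0),(4,1)]⟩,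
  ⟨0,[(26,0)]⟩⟩ ⟨true,0,⟨0,[]⟩,⟨1,[(40,0),(0,0)]⟩⟩ ⟨false,1,⟨10,[(12,5),(1,0),(13,1),(23,3)]⟩,⟨11,
  [(11,2),(4,0),(4,2),(6,0),(18,1)]⟩⟩,.o ⟨false,2,⟨1,[(2,1),(37,0),(0,0),(10,1)]⟩,⟨0,[(21,0)]⟩⟩,.o
  ⟨false,1,⟨5,[(2,3),(10,1),(10,1),(19,0),(7,0)]⟩,⟨0,[(34,0)]⟩⟩,.o ⟨false,1,⟨3,[(2,1),(21,1),(8,1),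
  (6,0),(0,0),(2,0),(7,0)]⟩,⟨0,[(0,0)]⟩⟩]⟩) (.K ⟨0,[0,0,0,0,1],0,(-1),(⟨0,[(36,0)]⟩,⟨0,[(35,0)]⟩),
  .k,(.r 0 ⟨2,[(22,0),(24,0)]⟩ ⟨12,[(14,0),(1,3),(11,5),(11,1),(0,1),(10,11)]⟩),(.r 0 ⟨15,[(14,1),
  (1,3),(7,1),(3,7),(11,0),(0,0)]⟩ ⟨10,[(12,5),(1,0),(13,1),(23,3)]⟩),.k,.k,[⟨1,[(3,0),(3,0),(33,0),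
  (10,0)]⟩,⟨0,[(0,0)]⟩,⟨0,[(33,0)]⟩,⟨11,[(3,5),(18,0),(1,2),(19,2),(2,3)]⟩]⟩))))))))) (.I [1,0,-1,0,
  0,0,0,-1] (.S ⟨1,0,[0,0,0,-1,0,0,0,-1],[1,0,-1],[1,1,0,0,0,0,0,-1],(⟨0,[(35,0)]⟩,⟨0,[(36,0)]⟩),⟨0,
  [(24,0)]⟩,.k,.k,⟨false,0,⟨0,[]⟩,⟨10,[(5,0),(1,1),(13,3),(23,7)]⟩⟩,⟨true,0,⟨0,[(43,0)]⟩,⟨11,[(4,2),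
  (4,0),(4,2),(6,0),(18,1)]⟩⟩,⟨true,0,⟨11,[(4,2),(4,0),(4,2),(6,0),(18,1)]⟩,⟨0,[(43,0)]⟩⟩,⟨false,1,
  ⟨10,[(5,0),(1,1),(13,3),(23,7)]⟩,⟨0,[]⟩⟩,[.e ⟨false,0,⟨11,[(0,8),(14,0),(5,2),(18,3)]⟩,⟨0,[(1,0),
  (43,0)]⟩⟩ ⟨false,0,⟨0,[(0,0),(42,0)]⟩,⟨2,[(4,0),(2,0),(1,0),(17,0),(17,0)]⟩⟩,.o ⟨false,1,⟨1,[(0,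
  1),(33,1),(2,0),(5,1),(1,0)]⟩,⟨0,[(22,0)]⟩⟩,.o ⟨false,1,⟨1,[(34,1),(2,0),(6,0)]⟩,⟨0,[(18,0)]⟩⟩,.a
  ⟨true,0,⟨0,[(34,0)]⟩,⟨0,[(30,0)]⟩⟩ ⟨false,0,⟨0,[(0,0)]⟩,⟨3,[(7,1),(9,1),(15,0),(0,0),(10,3)]⟩⟩
  ⟨true,0,⟨0,[(0,0),(42,0)]⟩,⟨7,[(7,1),(1,3),(7,1),(15,0),(0,0)]⟩⟩]⟩) (.I [0,0,-1,-1,0,0,0,-1] (.S
  ⟨1,0,[0,0,0,-1,0,0,0,-1],[1,0,-1],[1,1,1],(⟨0,[(36,0)]⟩,⟨0,[(37,0)]⟩),⟨0,[(25,0)]⟩,.k,.k,⟨false,0,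
  ⟨0,[(1,0)]⟩,⟨1,[(9,1),(35,0),(0,0)]⟩⟩,⟨true,0,⟨0,[(44,0)]⟩,⟨11,[(5,2),(4,0),(4,2),(6,0),(18,1)]⟩⟩,
  ⟨true,0,⟨8,[(1,1),(6,1),(1,3),(7,1),(3,0)]⟩,⟨0,[(0,0)]⟩⟩,⟨false,1,⟨10,[(6,0),(1,1),(13,3),(23,
  7)]⟩,⟨0,[]⟩⟩,[.e ⟨false,0,⟨23,[(8,2),(7,1),(1,2),(3,5),(18,4)]⟩,⟨1,[(45,0),(0,0)]⟩⟩ ⟨false,0,⟨0,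
  [(0,0)]⟩,⟨2,[(5,0),(2,0),(1,0),(17,0),(17,0)]⟩⟩,.o ⟨false,1,⟨1,[(0,1),(34,1),(2,0),(7,0)]⟩,⟨0,
  [(23,0)]⟩⟩,.o ⟨false,1,⟨1,[(35,1),(2,0),(6,0)]⟩,⟨0,[(19,0)]⟩⟩,.a ⟨true,0,⟨0,[(35,0)]⟩,⟨0,[(31,
  0)]⟩⟩ ⟨false,0,⟨0,[]⟩,⟨10,[(6,0),(1,1),(13,3),(23,7)]⟩⟩ ⟨true,0,⟨0,[(0,0)]⟩,⟨8,[(1,1),(6,1),(1,3),
  (7,1),(3,0)]⟩⟩]⟩) (.Q [0,0,0,-1,0,0,-1,-1,0,0,1] (.p true [0,0,1] [] (⟨0,[(37,0)]⟩,⟨0,[(36,0)]⟩)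
  .k 0 (⟨0,[]⟩,⟨0,[]⟩) .k .k) (.R ⟨2,true,false,false,[0,1],[0,1,1],[0,1,1],(⟨0,[]⟩,⟨0,[]⟩),(⟨0,
  [(38,0),(2,0)]⟩,⟨0,[(26,0)]⟩),⟨0,[]⟩,.k,.k,.k,.k,.k,.k,⟨false,0,⟨2,[(10,2),(6,0),(24,0)]⟩,⟨1,[(1,
  1),(44,0),(0,0)]⟩⟩,⟨true,0,⟨0,[(20,0)]⟩,⟨0,[(36,0)]⟩⟩,⟨false,0,⟨0,[(45,0)]⟩,⟨1,[(6,0),(22,0),(17,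
  0)]⟩⟩,⟨true,0,⟨0,[(1,0),(16,0)]⟩,⟨0,[(34,0)]⟩⟩,⟨true,0,⟨23,[(9,2),(7,1),(1,2),(3,5),(18,4)]⟩,⟨0,
  []⟩⟩,⟨false,1,⟨1,[(14,1),(24,0),(7,0)]⟩,⟨0,[(0,0)]⟩⟩,[]⟩) (.Q [0,1,0,1,-1,0,1,1,0,1,-1] (.p false
  [0,0,1] [1] (⟨0,[(38,0)]⟩,⟨0,[(37,0)]⟩) .k 1 (⟨0,[]⟩,⟨0,[]⟩) .k .k) (.I [1,-1,1,1,0,0,0,-2] (.I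
  [1,1,1,0,-1,0,0,-1] (.S ⟨1,0,[0,0,1,0,0,0,0,-1],[1,1,-1],[1,1,1,1,0,0,0,-1],(⟨0,[(40,0),(3,0)]⟩,
  ⟨0,[(30,0)]⟩),⟨0,[(40,0)]⟩,.k,.k,⟨false,0,⟨0,[]⟩,⟨10,[(10,0),(1,1),(13,3),(23,7)]⟩⟩,⟨true,0,⟨0,
  [(48,0)]⟩,⟨11,[(9,2),(4,0),(4,2),(6,0),(18,1)]⟩⟩,⟨true,0,⟨11,[(9,2),(4,0),(4,2),(6,0),(18,1)]⟩,⟨0,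
  [(48,0)]⟩⟩,⟨false,1,⟨10,[(10,0),(1,1),(13,3),(23,7)]⟩,⟨0,[]⟩⟩,[.o ⟨false,1,⟨1,[(37,1),(4,0),(7,
  0)]⟩,⟨1,[(3,0),(1,0),(15,0)]⟩⟩,.a ⟨true,1,⟨0,[(37,0),(12,0)]⟩,⟨0,[(2,0),(45,0)]⟩⟩ ⟨false,0,⟨1,[(1,
  0),(44,0)]⟩,⟨10,[(10,2),(1,5),(13,0),(23,1)]⟩⟩ ⟨true,0,⟨0,[(0,0),(49,0)]⟩,⟨0,[(6,0)]⟩⟩,.e ⟨false,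
  0,⟨10,[(1,3),(12,0),(7,0),(3,3),(23,0)]⟩,⟨1,[(2,1),(7,1),(28,1),(2,0),(7,0)]⟩⟩ ⟨false,0,⟨0,[(0,0),
  (49,0)]⟩,⟨5,[(4,1),(7,1),(36,2),(0,0)]⟩⟩,.o ⟨false,1,⟨1,[(39,1),(2,0),(6,0)]⟩,⟨0,[(23,0)]⟩⟩]⟩)
  (.Q [0,0,1,0,-1,0,1,0,0,1,-1] (.p false [0,0,1] [1] (⟨0,[(41,0)]⟩,⟨0,[(40,0)]⟩) .k 1 (⟨0,[]⟩,⟨0,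
  []⟩) .k .k) (.S ⟨1,0,[0,1,0,-1,0,0,0,1],[0,0,1],[1,0,0,0,0,0,0,1],(⟨0,[(42,0)]⟩,⟨0,[(41,0)]⟩),⟨0,
  [(31,0)]⟩,.k,.k,⟨true,0,⟨0,[]⟩,⟨23,[(13,2),(7,1),(1,2),(3,5),(18,4)]⟩⟩,⟨false,0,⟨0,[(49,0)]⟩,⟨1,
  [(10,0),(22,0),(17,0)]⟩⟩,⟨false,1,⟨1,[(10,0),(22,0),(17,0)]⟩,⟨0,[(49,0)]⟩⟩,⟨true,0,⟨23,[(13,2),(7,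
  1),(1,2),(3,5),(18,4)]⟩,⟨0,[]⟩⟩,[.e ⟨false,1,⟨5,[(1,1),(8,0),(2,1),(19,0),(16,0)]⟩,⟨0,[(9,0)]⟩⟩
  ⟨false,0,⟨0,[(1,0),(15,0),(3,0)]⟩,⟨5,[(2,1),(7,0),(16,1),(5,0),(16,1),(0,2)]⟩⟩,.o ⟨false,0,⟨0,[(6,
  0),(15,0)]⟩,⟨3,[(2,0),(35,1),(1,1),(2,1),(3,2),(3,1)]⟩⟩,.o ⟨false,0,⟨0,[(24,0)]⟩,⟨1,[(1,0),(36,0),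
  (1,0),(2,0)]⟩⟩,.a ⟨true,(-1),⟨0,[(0,0)]⟩,⟨0,[(1,0),(36,0)]⟩⟩ ⟨false,1,⟨0,[(1,0)]⟩,⟨9,[(2,1),(16,
  3),(7,1),(11,2),(0,2)]⟩⟩ ⟨true,0,⟨0,[(1,0),(15,0),(3,0)]⟩,⟨10,[(2,3),(12,0),(7,0),(3,3),(23,
  0)]⟩⟩]⟩) (.Q [0,-1,0,-2,1,0,-1,-1,0,-1,1] (.p true [0,0,1] [1] (⟨0,[(42,0)]⟩,⟨0,[(41,0)]⟩) .k 1
  (⟨0,[]⟩,⟨0,[]⟩) .k .k) (.R ⟨1,false,false,true,[1,-1],[0,0,1],[1,1,0,0,0,0,0,1],(⟨0,[(45,0)]⟩,⟨0,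
  [(46,0)]⟩),(⟨0,[(43,0)]⟩,⟨0,[(42,0)]⟩),⟨0,[(31,0),(0,0)]⟩,.k,.k,(.r (-1) ⟨23,[(0,2),(11,17),(1,2),
  (7,0),(7,2),(8,2),(7,6)]⟩ ⟨10,[(3,1),(12,5),(7,5),(3,1),(23,5)]⟩),.k,(.r (-1) ⟨9,[(0,2),(2,1),(8,
  1),(9,3),(7,2),(8,2),(11,4)]⟩ ⟨1,[(6,0),(9,0),(7,0),(27,0)]⟩),.k,⟨true,0,⟨0,[]⟩,⟨1,[(40,0),(0,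
  0)]⟩⟩,⟨false,0,⟨1,[(3,0),(0,1),(7,1),(35,0)]⟩,⟨0,[(0,0),(15,0)]⟩⟩,⟨false,0,⟨0,[(6,0)]⟩,⟨13,[(0,2),
  (2,3),(8,5),(17,2),(8,2),(11,2),(0,1)]⟩⟩,⟨true,(-1),⟨0,[(4,0)]⟩,⟨25,[(0,15),(0,3),(12,1),(13,7),
  (10,5),(4,2),(6,0)]⟩⟩,⟨false,0,⟨0,[(2,0),(15,0)]⟩,⟨15,[(0,6),(2,1),(8,7),(4,0),(2,3),(9,3),(2,0),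
  (1,0),(3,0),(5,1)]⟩⟩,⟨false,0,⟨2,[(4,0),(0,0),(5,0),(7,0),(6,0),(25,0)]⟩,⟨0,[(0,0)]⟩⟩,[.e ⟨false,
  0,⟨3,[(1,2),(2,2),(2,0),(14,0)]⟩,⟨13,[(0,2),(2,1),(24,3),(1,2),(8,2),(11,2),(0,7)]⟩⟩ ⟨false,0,⟨16,
  [(4,12),(7,0),(1,1),(7,2),(14,3),(13,9)]⟩,⟨33,[(0,7),(0,3),(1,9),(24,5),(12,21),(2,10),(7,10)]⟩⟩,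
  .o ⟨false,0,⟨1,[(5,0),(1,0),(15,0)]⟩,⟨33,[(0,9),(0,21),(1,3),(24,15),(12,1),(2,0),(7,0)]⟩⟩,.a
  ⟨true,0,⟨1,[(40,0),(0,0)]⟩,⟨1,[(3,0),(0,1),(7,1),(28,1),(6,0)]⟩⟩ ⟨true,0,⟨0,[(8,0)]⟩,⟨0,[(10,
  0)]⟩⟩ ⟨false,0,⟨1,[(4,0),(7,0),(6,0)]⟩,⟨33,[(0,7),(0,3),(1,9),(24,5),(12,21),(2,10),(7,10)]⟩⟩,.o
  ⟨false,0,⟨2,[(0,0),(6,0),(15,0),(0,2),(19,0),(7,0)]⟩,⟨0,[(51,0)]⟩⟩]⟩) (.Q [0,0,0,0,0,2,0,0,0,0,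
  -1] (.p false [0,0,1] [] (⟨0,[(43,0)]⟩,⟨0,[(42,0)]⟩) .k 0 (⟨0,[]⟩,⟨0,[]⟩) .k .k) (.R ⟨0,false,
  false,false,[0,-1,1],[1,0,-1],[1,0,1],(⟨0,[(33,0)]⟩,⟨0,[(0,0),(45,0)]⟩),(⟨0,[(43,0)]⟩,⟨0,[(44,
  0)]⟩),⟨0,[(0,0)]⟩,.k,.k,(.r (-1) ⟨2,[(3,0),(9,0),(1,0),(7,0)]⟩ ⟨10,[(4,4),(12,3),(7,3),(3,4),(23,
  3)]⟩),(.r (-1) ⟨11,[(2,0),(0,7),(1,0),(2,6),(6,3),(7,2)]⟩ ⟨11,[(4,8),(18,0),(5,5),(18,0)]⟩),.k,.k,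
  ⟨true,0,⟨0,[(8,0)]⟩,⟨0,[(11,0)]⟩⟩,⟨false,2,⟨0,[(2,0),(0,0),(36,0)]⟩,⟨6,[(4,2),(0,5),(18,5),(0,4),
  (5,0),(19,7),(1,3)]⟩⟩,⟨false,0,⟨3,[(4,1),(20,1),(15,0),(0,0),(10,1)]⟩,⟨5,[(3,3),(11,0),(7,1),(25,
  0),(2,0)]⟩⟩,⟨true,1,⟨7,[(1,0),(0,8),(1,5),(35,4),(1,2)]⟩,⟨0,[(5,0),(2,0),(15,0),(26,0)]⟩⟩,⟨false,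
  0,⟨0,[]⟩,⟨0,[]⟩⟩,⟨false,0,⟨0,[]⟩,⟨0,[]⟩⟩,[.o ⟨false,1,⟨1,[(40,1),(4,0),(7,0)]⟩,⟨1,[(6,0),(1,0),
  (15,0)]⟩⟩,.e ⟨false,1,⟨10,[(13,0),(1,1),(13,3),(23,7)]⟩,⟨5,[(23,0),(24,0),(0,2)]⟩⟩ ⟨false,2,⟨7,
  [(1,4),(0,12),(1,5),(8,7),(26,0),(1,6)]⟩,⟨0,[(5,0),(35,0),(9,0)]⟩⟩,.o ⟨false,0,⟨0,[(41,0)]⟩,⟨0,
  [(2,0)]⟩⟩,.a ⟨true,(-1),⟨6,[(4,2),(0,5),(19,4),(5,0),(10,0),(8,13),(1,3)]⟩,⟨7,[(1,6),(0,6),(1,1),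
  (8,7),(26,2),(1,4)]⟩⟩ ⟨true,0,⟨0,[]⟩,⟨23,[(15,2),(7,1),(1,2),(3,5),(18,4)]⟩⟩ ⟨false,2,⟨7,[(1,4),
  (0,12),(1,5),(8,7),(26,0),(1,6)]⟩,⟨1,[(5,1),(18,0),(0,1),(15,0),(9,2),(1,1)]⟩⟩]⟩) (.Q [0,0,-1,-1,
  1,0,0,0,-1,-1,0,1] (.p true [0,0,0,0,1] [1] (⟨0,[(37,0)]⟩,⟨0,[(36,0)]⟩) .k 1 (⟨0,[]⟩,⟨0,[]⟩) .k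
  .k) (.Q [0,0,0,0,0,2,0,0,0,-1,1] (.p true [0,0,1] [1] (⟨0,[(45,0)]⟩,⟨0,[(44,0)]⟩) .k 1 (⟨0,[]⟩,⟨0,
  []⟩) .k .k) (.R ⟨0,false,false,false,[1,-1,-1],[1,-1],[1,1],(⟨0,[(34,0)]⟩,⟨0,[(0,0),(47,0)]⟩),(⟨0,
  [(48,0)]⟩,⟨0,[(49,0)]⟩),⟨0,[(0,0)]⟩,.k,.k,(.r (-1) ⟨4,[(6,0),(8,3),(9,1),(5,2),(22,0)]⟩ ⟨1,[(9,0),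
  (9,0),(7,0),(27,0)]⟩),.k,.k,.k,⟨false,0,⟨11,[(14,2),(4,0),(4,2),(6,0),(18,1)]⟩,⟨10,[(15,5),(1,0),
  (13,1),(23,3)]⟩⟩,⟨true,0,⟨0,[(28,0)]⟩,⟨0,[(44,0)]⟩⟩,⟨false,0,⟨0,[(9,0)]⟩,⟨6,[(6,1),(8,5),(15,2),
  (23,0)]⟩⟩,⟨true,0,⟨1,[(8,0),(1,0),(15,0)]⟩,⟨0,[(42,0)]⟩⟩,⟨false,0,⟨0,[]⟩,⟨0,[]⟩⟩,⟨false,0,⟨0,[]⟩,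
  ⟨0,[]⟩⟩,[.a ⟨true,0,⟨0,[(53,0)]⟩,⟨12,[(3,0),(2,1),(0,2),(6,2),(5,2),(17,2),(5,3),(3,5),(6,0)]⟩⟩
  ⟨false,0,⟨5,[(25,0),(24,0),(0,2)]⟩,⟨10,[(15,0),(1,1),(13,3),(23,7)]⟩⟩ ⟨true,0,⟨0,[(26,0)]⟩,⟨10,
  [(6,0),(12,2),(7,2),(3,0),(12,10),(10,2)]⟩⟩,.o ⟨false,1,⟨1,[(47,0),(5,1),(1,0)]⟩,⟨0,[(52,0)]⟩⟩,.a
  ⟨true,0,⟨0,[(44,0)]⟩,⟨0,[(40,0)]⟩⟩ ⟨false,0,⟨0,[]⟩,⟨10,[(15,0),(1,1),(13,3),(23,7)]⟩⟩ ⟨true,0,⟨0,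
  [(26,0)]⟩,⟨1,[(19,0),(22,0),(1,0)]⟩⟩,.a ⟨true,0,⟨1,[(43,0),(0,2)]⟩,⟨4,[(3,3),(2,1),(8,3),(9,0),
  (14,0),(10,0)]⟩⟩ ⟨true,0,⟨5,[(25,0),(24,0),(0,2)]⟩,⟨1,[(43,0),(0,0)]⟩⟩ ⟨false,1,⟨1,[(26,1),(27,0),
  (0,0)]⟩,⟨10,[(6,0),(12,2),(7,2),(3,0),(12,10),(10,2)]⟩⟩]⟩) (.Q [0,0,-1,0,1,0,0,0,-1,-1,0,1] (.p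
  true [0,0,0,0,1] [1] (⟨0,[(39,0)]⟩,⟨0,[(38,0)]⟩) .k 1 (⟨0,[]⟩,⟨0,[]⟩) .k .k) (.Q [0,0,0,0,0,-1,0,
  0,0,0,0,1] (.ed false [1,-1,0,0,1] .k) (.S ⟨1,0,[0,2,0,-1],[0,0,0,0,1],[1,1],(⟨0,[(41,0)]⟩,⟨0,
  [(40,0)]⟩),⟨0,[(0,0)]⟩,.k,(.r 0 ⟨2,[(27,0),(24,0)]⟩ ⟨16,[(12,3),(6,0),(1,3),(11,9),(23,15)]⟩),
  ⟨true,0,⟨0,[]⟩,⟨23,[(19,2),(7,1),(1,2),(3,5),(18,4)]⟩⟩,⟨false,0,⟨0,[(55,0)]⟩,⟨1,[(16,0),(22,0),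
  (17,0)]⟩⟩,⟨false,1,⟨1,[(16,0),(22,0),(17,0)]⟩,⟨0,[(55,0)]⟩⟩,⟨true,0,⟨23,[(19,2),(7,1),(1,2),(3,5),
  (18,4)]⟩,⟨0,[]⟩⟩,[.o ⟨false,(-1),⟨2,[(26,0),(0,1),(1,1),(9,1)]⟩,⟨5,[(1,3),(14,1),(12,1),(19,0),(7,
  6)]⟩⟩,.a ⟨true,(-1),⟨0,[(32,0),(22,0)]⟩,⟨4,[(1,3),(6,1),(0,3),(7,0),(0,0),(27,3),(10,2)]⟩⟩ ⟨true,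
  0,⟨0,[]⟩,⟨1,[(45,0),(0,0)]⟩⟩ ⟨false,0,⟨2,[(27,0),(24,0)]⟩,⟨1,[(16,0),(22,0),(17,0)]⟩⟩,.o ⟨false,0,
  ⟨0,[(39,0)]⟩,⟨5,[(3,3),(14,1),(10,1),(19,0),(7,0)]⟩⟩,.o ⟨false,0,⟨1,[(39,1),(5,0),(0,0)]⟩,⟨0,[(1,
  0)]⟩⟩]⟩) (.R ⟨0,false,false,true,[0,0,0,0,1],[0,1],[1,1,1,1],(⟨0,[(41,0)]⟩,⟨0,[(40,0)]⟩),(⟨0,[(51,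
  0)]⟩,⟨0,[(50,0)]⟩),⟨0,[(0,0)]⟩,.k,.k,(.r 0 ⟨2,[(27,0),(24,0)]⟩ ⟨16,[(12,3),(6,0),(1,3),(11,9),(23,
  15)]⟩),(.r 0 ⟨2,[(27,0),(24,0)]⟩ ⟨16,[(12,3),(6,0),(1,3),(11,9),(23,15)]⟩),.k,.k,⟨true,0,⟨0,[]⟩,
  ⟨1,[(45,0),(0,0)]⟩⟩,⟨false,1,⟨10,[(1,9),(3,9),(2,3),(7,0),(0,9),(9,1),(16,1),(1,7)]⟩,⟨1,[(39,1),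
  (5,0),(0,0)]⟩⟩,⟨true,0,⟨10,[(8,0),(12,2),(7,2),(3,0),(23,2)]⟩,⟨2,[(27,0),(24,0)]⟩⟩,⟨false,1,⟨4,
  [(1,3),(6,1),(0,3),(7,0),(0,0),(27,3),(10,2)]⟩,⟨0,[(39,0),(15,0)]⟩⟩,⟨false,0,⟨0,[]⟩,⟨0,[]⟩⟩,
  ⟨false,0,⟨0,[]⟩,⟨0,[]⟩⟩,[.o ⟨false,0,⟨0,[(54,0)]⟩,⟨1,[(49,0),(5,1),(1,0)]⟩⟩,.a ⟨true,0,⟨12,[(5,0),
  (2,1),(0,2),(6,2),(5,2),(17,2),(5,3),(3,5),(6,0)]⟩,⟨0,[(55,0)]⟩⟩ ⟨true,0,⟨10,[(8,0),(12,2),(7,2),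
  (3,0),(23,2)]⟩,⟨0,[(55,0)]⟩⟩ ⟨false,1,⟨10,[(1,4),(3,4),(2,1),(7,5),(0,4),(9,0),(16,0),(1,3)]⟩,⟨0,
  [(39,0),(15,0)]⟩⟩,.o ⟨false,0,⟨0,[(39,0)]⟩,⟨5,[(3,3),(14,1),(10,1),(19,0),(7,0)]⟩⟩,.o ⟨false,0,⟨1,
  [(39,1),(5,0),(0,0)]⟩,⟨0,[(1,0)]⟩⟩]⟩)) (.Q [0,0,-1,0,0,0,0,0,1,0,0,-1] (.p false [0,0,0,0,1] []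
  (⟨0,[(40,0)]⟩,⟨0,[(39,0)]⟩) .k 0 (⟨0,[]⟩,⟨0,[]⟩) .k .k) (.S ⟨1,0,[0,-1,0,-1],[1,0,0,0,-1],[1],(⟨0,
  [(40,0)]⟩,⟨0,[(41,0)]⟩),⟨33,[(0,10),(1,2),(1,2),(0,9),(0,1),(1,4),(5,10),(2,7),(9,2),(12,22),(5,
  7)]⟩,.k,(.r (-1) ⟨10,[(17,5),(1,0),(13,1),(23,3)]⟩ ⟨8,[(12,0),(6,0),(1,1),(7,0),(3,4)]⟩),⟨false,0,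
  ⟨0,[]⟩,⟨10,[(17,0),(1,1),(13,3),(23,7)]⟩⟩,⟨true,0,⟨0,[(55,0)]⟩,⟨11,[(16,2),(4,0),(4,2),(6,0),(18,
  1)]⟩⟩,⟨true,0,⟨11,[(16,2),(4,0),(4,2),(6,0),(18,1)]⟩,⟨0,[(55,0)]⟩⟩,⟨false,1,⟨10,[(17,0),(1,1),(13,
  3),(23,7)]⟩,⟨0,[]⟩⟩,[.a ⟨true,1,⟨9,[(3,3),(4,1),(0,3),(4,4),(2,5),(20,0),(2,4),(4,3),(4,9),(5,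
  2)]⟩,⟨0,[(31,0)]⟩⟩ ⟨true,0,⟨0,[]⟩,⟨1,[(45,0),(0,0)]⟩⟩ ⟨false,1,⟨10,[(17,5),(1,0),(13,1),(23,3)]⟩,
  ⟨11,[(16,2),(4,0),(4,2),(6,0),(18,1)]⟩⟩,.o ⟨false,2,⟨1,[(3,1),(41,0),(0,0),(10,1)]⟩,⟨0,[(26,0)]⟩⟩,
  .o ⟨false,1,⟨5,[(3,3),(14,1),(10,1),(19,0),(7,0)]⟩,⟨0,[(39,0)]⟩⟩,.o ⟨false,1,⟨3,[(3,1),(25,1),(8,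
  1),(6,0),(0,0),(2,0),(7,0)]⟩,⟨0,[(0,0)]⟩⟩]⟩) (.K ⟨0,[0,0,0,0,1],0,(-1),(⟨0,[(41,0)]⟩,⟨0,[(40,
  0)]⟩),.k,(.r 0 ⟨2,[(27,0),(24,0)]⟩ ⟨16,[(12,3),(6,0),(1,3),(11,9),(23,15)]⟩),(.r 0 ⟨8,[(12,0),(6,
  0),(1,1),(7,0),(3,4)]⟩ ⟨10,[(17,5),(1,0),(13,1),(23,3)]⟩),.k,.k,[⟨0,[(1,0),(4,0)]⟩,⟨0,[(0,0)]⟩,⟨0,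
  [(38,0)]⟩,⟨2,[(26,1),(0,0),(1,0),(9,0)]⟩]⟩)))) (.Q [0,-1,0,0,1,0,0,0,-1,0,0,1] (.p true [0,0,0,0,
  1] [] (⟨0,[(38,0)]⟩,⟨0,[(37,0)]⟩) .k 0 (⟨0,[]⟩,⟨0,[]⟩) .k .k) (.S ⟨1,0,[0,-1,0,-1],[1,0,0,0,-1],
  [1],(⟨0,[(38,0)]⟩,⟨0,[(39,0)]⟩),⟨1,[(1,0),(10,0),(2,0),(22,0),(12,0)]⟩,.k,(.r (-1) ⟨10,[(15,5),(1,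
  0),(13,1),(23,3)]⟩ ⟨8,[(10,0),(6,0),(1,1),(7,0),(3,4)]⟩),⟨false,0,⟨0,[]⟩,⟨10,[(15,0),(1,1),(13,3),
  (23,7)]⟩⟩,⟨true,0,⟨0,[(53,0)]⟩,⟨11,[(14,2),(4,0),(4,2),(6,0),(18,1)]⟩⟩,⟨true,0,⟨11,[(14,2),(4,0),
  (4,2),(6,0),(18,1)]⟩,⟨0,[(53,0)]⟩⟩,⟨false,1,⟨10,[(15,0),(1,1),(13,3),(23,7)]⟩,⟨0,[]⟩⟩,[.a ⟨true,1,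
  ⟨0,[(0,0),(52,0)]⟩,⟨0,[(29,0)]⟩⟩ ⟨true,0,⟨0,[]⟩,⟨1,[(43,0),(0,0)]⟩⟩ ⟨false,1,⟨10,[(15,5),(1,0),
  (13,1),(23,3)]⟩,⟨11,[(14,2),(4,0),(4,2),(6,0),(18,1)]⟩⟩,.o ⟨false,2,⟨1,[(0,1),(46,0),(5,1),(1,
  0)]⟩,⟨0,[(24,0)]⟩⟩,.o ⟨false,1,⟨2,[(0,2),(3,0),(16,1),(3,0),(0,0),(20,0)]⟩,⟨0,[(37,0)]⟩⟩,.o
  ⟨false,1,⟨9,[(0,5),(9,1),(12,1),(1,0),(1,4),(8,3),(10,4)]⟩,⟨0,[(1,0),(2,0),(21,0)]⟩⟩]⟩) (.Q [0,-2,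
  0,0,2,0,0,0,-1,-1,0,1] (.p true [0,0,0,0,1] [1] (⟨0,[(39,0)]⟩,⟨0,[(38,0)]⟩) .k 1 (⟨0,[]⟩,⟨0,[]⟩)
  .k .k) (.R ⟨1,false,false,true,[1,0,-1],[0,0,0,0,1],[0,1,0,-1,0,0,0,-1],(⟨0,[(46,0)]⟩,⟨0,[(47,
  0)]⟩),(⟨0,[(40,0)]⟩,⟨0,[(39,0)]⟩),⟨0,[(35,0)]⟩,.k,.k,.k,.k,(.r (-1) ⟨6,[(7,1),(8,5),(15,2),(23,
  0)]⟩ ⟨8,[(11,1),(6,1),(1,3),(7,1),(3,0)]⟩),.k,⟨false,1,⟨6,[(7,1),(8,5),(15,2),(23,0)]⟩,⟨3,[(4,0),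
  (0,0),(6,1),(7,0)]⟩⟩,⟨true,(-1),⟨0,[(2,0),(24,0)]⟩,⟨0,[(5,0),(7,0),(26,0),(9,1)]⟩⟩,⟨false,0,⟨0,
  [(54,0)]⟩,⟨1,[(15,0),(22,0),(17,0)]⟩⟩,⟨true,(-2),⟨0,[(1,0),(6,0),(45,0)]⟩,⟨0,[(0,0),(42,0)]⟩⟩,
  ⟨true,0,⟨23,[(18,2),(7,1),(1,2),(3,5),(18,4)]⟩,⟨0,[]⟩⟩,⟨true,(-2),⟨0,[(1,0),(6,0)]⟩,⟨23,[(0,21),
  (17,0),(5,10),(1,3),(10,1),(5,14),(1,8),(2,0)]⟩⟩,[.o ⟨false,(-1),⟨2,[(25,1),(0,0),(1,0),(9,0)]⟩,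
  ⟨0,[(0,0)]⟩⟩,.o ⟨false,(-1),⟨0,[(1,0)]⟩,⟨16,[(0,10),(15,0),(1,1),(13,3),(4,5),(10,2)]⟩⟩,.o ⟨false,
  1,⟨23,[(0,2),(4,10),(12,1),(13,1),(5,2),(4,1),(1,10),(2,4)]⟩,⟨0,[(29,0)]⟩⟩,.a ⟨true,0,⟨0,[(45,
  0)]⟩,⟨0,[(41,0)]⟩⟩ ⟨true,0,⟨1,[(7,0),(18,0),(24,0)]⟩,⟨0,[(10,0)]⟩⟩ ⟨false,(-1),⟨0,[(1,0),(39,0)]⟩,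
  ⟨0,[(0,0),(44,0)]⟩⟩]⟩) (.R ⟨2,true,false,false,[0,1],[1,0,0,0,-1],[1,0,1,1],(⟨0,[]⟩,⟨0,[]⟩),(⟨0,
  [(39,0)]⟩,⟨0,[(40,0)]⟩),⟨0,[]⟩,.k,.k,.k,(.r 0 ⟨8,[(11,0),(6,0),(1,1),(7,0),(3,4)]⟩ ⟨10,[(16,5),(1,
  0),(13,1),(23,3)]⟩),.k,.k,⟨false,0,⟨11,[(15,2),(4,0),(4,2),(6,0),(18,1)]⟩,⟨10,[(16,5),(1,0),(13,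
  1),(23,3)]⟩⟩,⟨true,1,⟨1,[(13,0),(23,0),(2,0),(7,0),(1,1)]⟩,⟨0,[(0,0),(55,0)]⟩⟩,⟨true,0,⟨0,[]⟩,⟨23,
  [(18,2),(7,1),(1,2),(3,5),(18,4)]⟩⟩,⟨false,2,⟨0,[(5,0),(7,0),(13,0),(12,0),(9,1),(5,0)]⟩,⟨0,[(30,
  0)]⟩⟩,⟨false,1,⟨1,[(15,0),(22,0),(17,0)]⟩,⟨0,[(54,0)]⟩⟩,⟨true,2,⟨1,[(37,1),(10,0),(7,0)]⟩,⟨0,[(0,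
  0)]⟩⟩,[]⟩)))))))) (.Q [0,0,1,0,-1,0,1,0,0,1,-1] (.p false [0,0,1] [1] (⟨0,[(40,0)]⟩,⟨0,[(39,0)]⟩)
  .k 1 (⟨0,[]⟩,⟨0,[]⟩) .k .k) (.S ⟨1,0,[0,0,0,-1,0,0,0,1],[0,0,1],[1,1,0,0,0,0,0,1],(⟨0,[(41,0)]⟩,
  ⟨0,[(40,0)]⟩),⟨0,[(30,0)]⟩,.k,.k,⟨false,0,⟨0,[]⟩,⟨10,[(10,0),(1,1),(13,3),(23,7)]⟩⟩,⟨true,0,⟨0,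
  [(48,0)]⟩,⟨11,[(9,2),(4,0),(4,2),(6,0),(18,1)]⟩⟩,⟨true,0,⟨11,[(9,2),(4,0),(4,2),(6,0),(18,1)]⟩,⟨0,
  [(48,0)]⟩⟩,⟨false,1,⟨10,[(10,0),(1,1),(13,3),(23,7)]⟩,⟨0,[]⟩⟩,[.o ⟨false,0,⟨0,[(5,0),(15,0)]⟩,⟨1,
  [(13,1),(25,1),(2,0),(3,1),(3,0)]⟩⟩,.e ⟨false,1,⟨9,[(1,0),(10,2),(1,1),(34,3),(0,2)]⟩,⟨0,[(8,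
  0)]⟩⟩ ⟨false,1,⟨7,[(1,2),(8,1),(1,0),(37,4)]⟩,⟨1,[(13,0),(12,0),(19,0)]⟩⟩,.o ⟨false,0,⟨0,[(23,
  0)]⟩,⟨1,[(39,1),(2,0),(6,0)]⟩⟩,.a ⟨true,(-1),⟨0,[(0,0)]⟩,⟨0,[(39,0),(9,0)]⟩⟩ ⟨true,0,⟨1,[(1,0),
  (44,0)]⟩,⟨2,[(18,1),(3,0),(3,0),(23,0)]⟩⟩ ⟨false,1,⟨7,[(1,2),(8,1),(1,0),(37,4)]⟩,⟨2,[(13,1),(2,
  0),(9,0),(23,0)]⟩⟩]⟩) (.I [0,0,0,-1,0,0,0,1] (.S ⟨1,0,[0,1,1,0,0,0,0,-1],[1,1,-1],[1,0,1,1,0,0,0,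
  -1],(⟨0,[(41,0),(3,0)]⟩,⟨0,[(31,0)]⟩),⟨0,[(41,0)]⟩,.k,.k,⟨true,0,⟨0,[]⟩,⟨23,[(13,2),(7,1),(1,2),
  (3,5),(18,4)]⟩⟩,⟨false,0,⟨0,[(49,0)]⟩,⟨1,[(10,0),(22,0),(17,0)]⟩⟩,⟨false,1,⟨1,[(10,0),(22,0),(17,
  0)]⟩,⟨0,[(49,0)]⟩⟩,⟨true,0,⟨23,[(13,2),(7,1),(1,2),(3,5),(18,4)]⟩,⟨0,[]⟩⟩,[.a ⟨true,0,⟨0,[(38,
  0)]⟩,⟨0,[(3,0),(45,0),(1,0)]⟩⟩ ⟨true,0,⟨2,[(14,1),(2,0),(9,0),(23,0)]⟩,⟨0,[(0,0)]⟩⟩ ⟨false,0,⟨2,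
  [(14,0),(4,0),(7,0),(18,0)]⟩,⟨5,[(1,1),(0,1),(0,1),(46,0),(0,4)]⟩⟩,.o ⟨false,1,⟨1,[(38,1),(4,0),
  (7,0)]⟩,⟨4,[(0,1),(3,2),(17,0),(16,0)]⟩⟩,.o ⟨false,1,⟨0,[(1,0)]⟩,⟨0,[(39,0)]⟩⟩,.o ⟨false,1,⟨17,
  [(1,7),(11,1),(13,1),(10,1),(1,7),(2,4),(7,2)]⟩,⟨0,[(24,0)]⟩⟩]⟩) (.Q [0,0,-1,0,0,0,0,0,1,0,0,-1]
  (.p false [0,0,0,0,1] [] (⟨0,[(35,0)]⟩,⟨0,[(34,0)]⟩) .k 0 (⟨0,[]⟩,⟨0,[]⟩) .k .k) (.Q [0,0,0,0,1,0,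
  0,0,-1,-1,0,1] (.p true [0,0,0,0,1] [1] (⟨0,[(36,0)]⟩,⟨0,[(35,0)]⟩) .k 1 (⟨0,[]⟩,⟨0,[]⟩) .k .k)
  (.Q [0,0,1,0,0,0,1,0,-1,0,-1,1] (.p false [0,0,1] [0,0,0,0,1] (⟨0,[(44,0)]⟩,⟨0,[(43,0)]⟩) .k 2
  (⟨0,[(37,0)]⟩,⟨0,[(36,0)]⟩) .k (.r (-1) ⟨2,[(7,0),(7,0),(37,1)]⟩ ⟨2,[(16,0),(4,0),(7,0),(18,
  0)]⟩)) (.R ⟨1,false,false,false,[1,0,0,0,-1],[1,0,-1],[0,-1,0,-1],(⟨0,[(37,0)]⟩,⟨0,[(38,0)]⟩),(⟨0,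
  [(44,0)]⟩,⟨0,[(45,0)]⟩),⟨1,[(2,0),(0,0),(2,0),(4,0),(2,0),(22,0),(5,0)]⟩,.k,.k,(.r (-1) ⟨10,[(14,
  5),(1,0),(13,1),(23,3)]⟩ ⟨8,[(9,0),(6,0),(1,1),(7,0),(3,4)]⟩),.k,(.r (-1) ⟨7,[(5,2),(8,1),(1,0),
  (37,4)]⟩ ⟨0,[(30,0)]⟩),.k,⟨false,1,⟨7,[(5,2),(8,1),(1,0),(37,4)]⟩,⟨2,[(3,1),(26,0),(18,0)]⟩⟩,
  ⟨true,0,⟨0,[(2,0),(40,0)]⟩,⟨0,[(0,0)]⟩⟩,⟨true,0,⟨0,[(52,0)]⟩,⟨11,[(13,2),(4,0),(4,2),(6,0),(18,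
  1)]⟩⟩,⟨false,0,⟨0,[(2,0),(14,0),(25,0)]⟩,⟨5,[(0,3),(0,0),(3,1),(0,0),(0,0),(5,0),(0,0),(39,3)]⟩⟩,
  ⟨false,1,⟨10,[(14,0),(1,1),(13,3),(23,7)]⟩,⟨0,[]⟩⟩,⟨false,0,⟨0,[(2,0),(0,0),(39,0)]⟩,⟨7,[(0,7),(4,
  2),(8,1),(1,0),(37,4)]⟩⟩,[.o ⟨false,1,⟨1,[(41,1),(4,0),(7,0)]⟩,⟨1,[(7,0),(1,0),(15,0)]⟩⟩,.a ⟨true,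
  1,⟨0,[(41,0),(12,0)]⟩,⟨0,[(6,0),(45,0)]⟩⟩ ⟨true,1,⟨0,[(52,0),(1,0)]⟩,⟨2,[(20,2),(3,0),(24,0)]⟩⟩
  ⟨false,1,⟨0,[(2,0),(38,0),(12,0)]⟩,⟨11,[(0,5),(0,5),(3,2),(0,5),(17,0),(24,0)]⟩⟩,.o ⟨false,1,⟨0,
  [(1,0)]⟩,⟨0,[(36,0)]⟩⟩,.o ⟨false,1,⟨1,[(1,1),(40,0),(0,0)]⟩,⟨0,[(2,0)]⟩⟩]⟩) (.R ⟨2,false,false,
  false,[0,1],[0,0,0,0,1],[1,1,1,1],(⟨0,[]⟩,⟨0,[]⟩),(⟨0,[(38,0)]⟩,⟨0,[(37,0)]⟩),⟨0,[]⟩,.k,.k,.k,(.r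
  (-1) ⟨16,[(9,3),(6,0),(1,3),(11,9),(23,15)]⟩ ⟨2,[(24,0),(24,0)]⟩),.k,.k,⟨true,0,⟨5,[(18,0),(1,0),
  (5,0),(3,0),(23,1)]⟩,⟨0,[(52,0)]⟩⟩,⟨false,0,⟨0,[(36,0)]⟩,⟨0,[(1,0),(1,0),(2,0),(7,0),(28,0)]⟩⟩,
  ⟨false,0,⟨0,[]⟩,⟨10,[(14,0),(1,1),(13,3),(23,7)]⟩⟩,⟨true,(-1),⟨0,[(0,0),(24,0),(0,0),(25,0)]⟩,⟨0,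
  [(15,0)]⟩⟩,⟨true,0,⟨11,[(13,2),(4,0),(4,2),(6,0),(18,1)]⟩,⟨0,[(52,0)]⟩⟩,⟨true,(-1),⟨0,[(0,0),(24,
  0),(0,0)]⟩,⟨0,[(35,0)]⟩⟩,[.o ⟨false,(-1),⟨0,[(0,0),(24,0),(0,0)]⟩,⟨1,[(35,1),(10,0),(7,0)]⟩⟩,.o
  ⟨false,0,⟨0,[(36,0)]⟩,⟨0,[(1,0)]⟩⟩,.a ⟨true,0,⟨0,[(3,0),(2,0),(7,0),(28,0)]⟩,⟨1,[(42,0),(0,0)]⟩⟩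
  ⟨false,0,⟨5,[(18,0),(1,0),(5,0),(3,0),(23,1)]⟩,⟨10,[(14,5),(1,0),(13,1),(23,3)]⟩⟩ ⟨true,(-1),⟨1,
  [(0,0),(24,0),(0,1),(9,0),(15,0)]⟩,⟨0,[(1,0),(1,0),(2,0),(7,0),(28,0)]⟩⟩,.e ⟨true,0,⟨11,[(13,2),
  (4,0),(4,2),(6,0),(18,1)]⟩,⟨0,[(52,0)]⟩⟩ ⟨true,(-1),⟨0,[(0,0),(24,0),(0,0)]⟩,⟨0,[(35,0)]⟩⟩]⟩))
  (.R ⟨2,true,false,true,[0,1],[1,0,0,0,-1],[1,1,1,1],(⟨0,[]⟩,⟨0,[]⟩),(⟨0,[(36,0)]⟩,⟨0,[(37,0)]⟩),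
  ⟨0,[]⟩,.k,.k,.k,(.r 0 ⟨8,[(8,0),(6,0),(1,1),(7,0),(3,4)]⟩ ⟨10,[(13,5),(1,0),(13,1),(23,3)]⟩),.k,
  .k,⟨false,0,⟨11,[(12,2),(4,0),(4,2),(6,0),(18,1)]⟩,⟨10,[(13,5),(1,0),(13,1),(23,3)]⟩⟩,⟨true,1,⟨1,
  [(10,0),(23,0),(2,0),(7,0),(1,1)]⟩,⟨0,[(0,0)]⟩⟩,⟨false,0,⟨0,[]⟩,⟨10,[(13,0),(1,1),(13,3),(23,
  7)]⟩⟩,⟨true,1,⟨0,[(3,0),(6,0),(13,0),(12,0),(9,1)]⟩,⟨0,[(27,0)]⟩⟩,⟨true,0,⟨11,[(12,2),(4,0),(4,2),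
  (6,0),(18,1)]⟩,⟨0,[(51,0)]⟩⟩,⟨false,2,⟨1,[(34,1),(10,0),(7,0)]⟩,⟨0,[(0,0)]⟩⟩,[]⟩)) (.Q [0,0,0,0,0,
  2,0,0,0,-1,1] (.p true [0,0,1] [1] (⟨0,[(43,0)]⟩,⟨0,[(42,0)]⟩) .k 1 (⟨0,[]⟩,⟨0,[]⟩) .k .k) (.R ⟨0,
  false,false,false,[1,-1,-1],[1,-1],[1,1],(⟨0,[(32,0)]⟩,⟨0,[(0,0),(45,0)]⟩),(⟨0,[(46,0)]⟩,⟨0,[(47,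
  0)]⟩),⟨0,[(0,0)]⟩,.k,.k,(.r (-1) ⟨4,[(13,2),(7,2),(1,0),(5,1),(22,1)]⟩ ⟨1,[(8,0),(8,0),(1,0),(33,
  0)]⟩),.k,.k,.k,⟨false,0,⟨11,[(12,2),(4,0),(4,2),(6,0),(18,1)]⟩,⟨10,[(13,5),(1,0),(13,1),(23,3)]⟩⟩,
  ⟨true,0,⟨0,[(26,0)]⟩,⟨0,[(42,0)]⟩⟩,⟨false,0,⟨0,[(7,0)]⟩,⟨2,[(13,1),(2,1),(12,0),(23,0)]⟩⟩,⟨true,0,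
  ⟨1,[(6,0),(1,0),(15,0)]⟩,⟨0,[(40,0)]⟩⟩,⟨false,0,⟨0,[]⟩,⟨0,[]⟩⟩,⟨false,0,⟨0,[]⟩,⟨0,[]⟩⟩,[.a ⟨true,
  0,⟨0,[(51,0)]⟩,⟨4,[(1,0),(0,0),(2,0),(6,0),(5,0),(8,0),(8,0),(5,0),(3,1),(6,0)]⟩⟩ ⟨false,0,⟨5,
  [(23,0),(24,0),(0,2)]⟩,⟨10,[(13,0),(1,1),(13,3),(23,7)]⟩⟩ ⟨true,0,⟨0,[(24,0)]⟩,⟨5,[(17,0),(1,0),
  (5,0),(3,0),(12,5),(10,1)]⟩⟩,.o ⟨false,1,⟨1,[(45,0),(5,1),(1,0)]⟩,⟨0,[(50,0)]⟩⟩,.a ⟨true,0,⟨0,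
  [(42,0)]⟩,⟨0,[(38,0)]⟩⟩ ⟨false,0,⟨0,[]⟩,⟨10,[(13,0),(1,1),(13,3),(23,7)]⟩⟩ ⟨true,0,⟨0,[(24,0)]⟩,
  ⟨1,[(17,0),(22,0),(1,0)]⟩⟩,.a ⟨true,0,⟨1,[(41,0),(0,2)]⟩,⟨0,[(2,0),(2,0),(7,0)]⟩⟩ ⟨true,0,⟨5,[(23,
  0),(24,0),(0,2)]⟩,⟨1,[(41,0),(0,0)]⟩⟩ ⟨false,1,⟨1,[(24,1),(27,0),(0,0)]⟩,⟨5,[(17,0),(1,0),(5,0),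
  (3,0),(12,5),(10,1)]⟩⟩]⟩) (.Q [0,-1,0,-2,1,0,-1,-1,0,-1,1] (.p true [0,0,1] [1] (⟨0,[(44,0)]⟩,⟨0,
  [(43,0)]⟩) .k 1 (⟨0,[]⟩,⟨0,[]⟩) .k .k) (.R ⟨1,false,false,true,[1,-1],[0,0,1],[1,1,0,0,0,0,0,1],
  (⟨0,[(47,0)]⟩,⟨0,[(48,0)]⟩),(⟨0,[(45,0)]⟩,⟨0,[(44,0)]⟩),⟨1,[(1,0),(32,0),(12,0)]⟩,.k,.k,(.r (-1)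
  ⟨23,[(0,2),(13,17),(1,2),(7,0),(7,2),(8,2),(7,6)]⟩ ⟨2,[(18,0),(1,0),(5,0),(3,0),(23,1)]⟩),.k,(.r
  (-1) ⟨4,[(0,0),(13,0),(7,2),(1,0),(7,0),(8,0),(11,2)]⟩ ⟨1,[(9,0),(8,0),(1,0),(33,0)]⟩),.k,⟨true,0,
  ⟨0,[]⟩,⟨1,[(42,0),(0,0)]⟩⟩,⟨false,0,⟨0,[(3,0),(2,0),(7,0)]⟩,⟨0,[(0,0),(17,0)]⟩⟩,⟨false,0,⟨0,[(8,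
  0)]⟩,⟨5,[(0,0),(13,1),(2,3),(14,0),(8,0),(11,0),(0,1)]⟩⟩,⟨true,(-1),⟨0,[(6,0)]⟩,⟨25,[(0,15),(3,3),
  (11,1),(13,7),(10,5),(4,2),(6,0)]⟩⟩,⟨false,0,⟨1,[(4,0),(1,0),(1,0),(11,0),(33,0)]⟩,⟨3,[(0,0),(13,
  1),(7,1),(9,0),(8,0),(12,0)]⟩⟩,⟨false,0,⟨2,[(6,0),(0,0),(5,0),(7,0),(6,0),(25,0)]⟩,⟨0,[(0,0)]⟩⟩,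
  [.e ⟨false,0,⟨1,[(5,0),(44,0)]⟩,⟨5,[(0,0),(16,1),(12,1),(1,0),(8,0),(11,0),(0,3)]⟩⟩ ⟨false,0,⟨11,
  [(5,0),(0,7),(9,0),(7,1),(14,3),(13,6)]⟩,⟨12,[(0,8),(2,0),(0,3),(15,6),(9,2),(23,6)]⟩⟩,.o ⟨false,
  0,⟨1,[(7,0),(1,0),(15,0)]⟩,⟨12,[(0,4),(2,1),(0,7),(15,0),(9,5),(23,0)]⟩⟩,.a ⟨true,0,⟨1,[(42,0),(0,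
  0)]⟩,⟨0,[(3,0),(2,0),(7,0),(28,0)]⟩⟩ ⟨true,0,⟨0,[(10,0)]⟩,⟨0,[(12,0)]⟩⟩ ⟨false,0,⟨1,[(6,0),(7,0),
  (6,0)]⟩,⟨12,[(0,8),(2,0),(0,3),(15,6),(9,2),(23,6)]⟩⟩,.o ⟨false,0,⟨2,[(0,0),(8,0),(15,0),(0,2),
  (19,0),(7,0)]⟩,⟨0,[(53,0)]⟩⟩]⟩) (.Q [0,0,0,0,0,2,0,0,0,0,-1] (.p false [0,0,1] [] (⟨0,[(45,0)]⟩,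
  ⟨0,[(44,0)]⟩) .k 0 (⟨0,[]⟩,⟨0,[]⟩) .k .k) (.R ⟨0,false,false,false,[0,-1,1],[1,-1,-1],[1,0,1],(⟨0,
  [(35,0)]⟩,⟨9,[(0,2),(2,1),(16,1),(12,0),(4,1),(5,1),(0,6)]⟩),(⟨0,[(34,0)]⟩,⟨1,[(0,0),(45,2)]⟩),⟨0,
  [(0,0)]⟩,.k,.k,(.r (-1) ⟨19,[(6,2),(8,11),(1,6),(7,1),(28,0)]⟩ ⟨2,[(4,0),(16,0),(5,0),(3,1),(23,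
  1)]⟩),.k,.k,.k,⟨false,0,⟨0,[(9,0)]⟩,⟨0,[(23,0),(30,0)]⟩⟩,⟨true,1,⟨0,[(5,0),(38,0)]⟩,⟨0,[(7,0),(15,
  0),(2,0),(0,0),(27,0)]⟩⟩,⟨false,0,⟨0,[(18,0),(8,0),(27,0)]⟩,⟨7,[(6,2),(8,1),(1,0),(36,3),(0,0)]⟩⟩,
  ⟨true,1,⟨0,[(5,0),(12,1),(25,0)]⟩,⟨0,[(7,0),(2,0),(15,0)]⟩⟩,⟨false,0,⟨0,[]⟩,⟨0,[]⟩⟩,⟨false,0,⟨0,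
  []⟩,⟨0,[]⟩⟩,[.o ⟨false,1,⟨11,[(15,1),(1,0),(5,6),(18,6),(1,4),(2,5),(7,2)]⟩,⟨0,[(8,0)]⟩⟩,.e
  ⟨false,1,⟨10,[(15,0),(1,1),(13,3),(23,7)]⟩,⟨5,[(25,0),(24,0),(0,2)]⟩⟩ ⟨false,2,⟨0,[(4,0),(0,0),(9,
  0),(28,0)]⟩,⟨0,[(7,0),(35,0)]⟩⟩,.o ⟨false,0,⟨0,[(43,0)]⟩,⟨0,[(5,0)]⟩⟩,.a ⟨true,(-1),⟨0,[(7,0),(15,
  0),(3,0),(25,0),(1,0)]⟩,⟨3,[(1,2),(2,1),(0,2),(9,3),(26,0),(1,2)]⟩⟩ ⟨true,0,⟨0,[]⟩,⟨23,[(17,2),(7,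
  1),(1,2),(3,5),(18,4)]⟩⟩ ⟨false,2,⟨0,[(4,0),(0,0),(9,0),(28,0)]⟩,⟨1,[(7,1),(18,0),(0,1),(15,0),(9,
  0),(1,1)]⟩⟩]⟩) (.Q [0,0,0,0,0,0,1,0,-1,0,-1,1] (.p false [0,0,1] [0,0,0,0,1] (⟨0,[(46,0)]⟩,⟨0,
  [(45,0)]⟩) .k 2 (⟨0,[(39,0)]⟩,⟨0,[(38,0)]⟩) .k (.r (-1) ⟨2,[(9,0),(7,0),(37,1)]⟩ ⟨2,[(18,0),(4,0),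
  (7,0),(18,0)]⟩)) (.Q [0,0,0,0,0,-1,0,0,0,0,0,1] (.ed false [1,-1,0,0,1] .k) (.S ⟨1,0,[0,2,0,-1],
  [0,0,0,0,1],[1,1],(⟨0,[(41,0)]⟩,⟨0,[(40,0)]⟩),⟨0,[(0,0)]⟩,.k,(.r 0 ⟨2,[(27,0),(24,0)]⟩ ⟨16,[(12,
  3),(6,0),(1,3),(11,9),(23,15)]⟩),⟨true,0,⟨0,[]⟩,⟨23,[(19,2),(7,1),(1,2),(3,5),(18,4)]⟩⟩,⟨false,0,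
  ⟨0,[(55,0)]⟩,⟨1,[(16,0),(22,0),(17,0)]⟩⟩,⟨false,1,⟨1,[(16,0),(22,0),(17,0)]⟩,⟨0,[(55,0)]⟩⟩,⟨true,
  0,⟨23,[(19,2),(7,1),(1,2),(3,5),(18,4)]⟩,⟨0,[]⟩⟩,[.o ⟨false,(-1),⟨2,[(26,0),(0,1),(1,1),(9,1)]⟩,
  ⟨11,[(1,5),(3,1),(1,5),(8,3),(6,1),(25,2),(7,12)]⟩⟩,.a ⟨true,(-1),⟨0,[(32,0),(22,0)]⟩,⟨8,[(3,2),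
  (1,6),(0,2),(0,2),(8,1),(0,1),(39,4)]⟩⟩ ⟨true,0,⟨0,[]⟩,⟨1,[(45,0),(0,0)]⟩⟩ ⟨false,0,⟨2,[(27,0),
  (24,0)]⟩,⟨1,[(16,0),(22,0),(17,0)]⟩⟩,.o ⟨false,0,⟨0,[(39,0)]⟩,⟨2,[(1,0),(3,0),(1,0),(30,0),(10,
  0)]⟩⟩,.o ⟨false,0,⟨1,[(39,1),(5,0),(0,0)]⟩,⟨0,[(1,0),(5,0)]⟩⟩]⟩) (.R ⟨0,false,false,true,[0,0,0,0,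
  1],[0,1],[1,1,1,1],(⟨0,[(41,0)]⟩,⟨0,[(40,0)]⟩),(⟨0,[(51,0)]⟩,⟨0,[(50,0)]⟩),⟨0,[(0,0)]⟩,.k,.k,(.r
  0 ⟨2,[(27,0),(24,0)]⟩ ⟨16,[(12,3),(6,0),(1,3),(11,9),(23,15)]⟩),(.r 0 ⟨2,[(27,0),(24,0)]⟩ ⟨16,
  [(12,3),(6,0),(1,3),(11,9),(23,15)]⟩),.k,.k,⟨true,0,⟨0,[]⟩,⟨1,[(45,0),(0,0)]⟩⟩,⟨false,1,⟨1,[(3,0),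
  (1,1),(0,0),(0,0),(9,1),(35,0)]⟩,⟨1,[(39,1),(5,0),(0,0)]⟩⟩,⟨true,0,⟨5,[(21,0),(1,0),(5,0),(3,0),
  (23,1)]⟩,⟨2,[(27,0),(24,0)]⟩⟩,⟨false,1,⟨8,[(3,2),(1,6),(0,2),(0,2),(8,1),(0,1),(39,4)]⟩,⟨0,[(39,
  0),(15,0)]⟩⟩,⟨false,0,⟨0,[]⟩,⟨0,[]⟩⟩,⟨false,0,⟨0,[]⟩,⟨0,[]⟩⟩,[.o ⟨false,0,⟨0,[(54,0)]⟩,⟨1,[(49,0),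
  (5,1),(1,0)]⟩⟩,.a ⟨true,0,⟨9,[(3,0),(1,2),(0,0),(9,1),(5,1),(8,2),(8,1),(5,0),(3,3),(6,1)]⟩,⟨0,
  [(55,0)]⟩⟩ ⟨true,0,⟨5,[(21,0),(1,0),(5,0),(3,0),(23,1)]⟩,⟨0,[(55,0)]⟩⟩ ⟨false,1,⟨3,[(3,0),(1,1),
  (0,0),(0,0),(8,1),(0,1),(35,0)]⟩,⟨0,[(39,0),(15,0)]⟩⟩,.o ⟨false,0,⟨0,[(39,0)]⟩,⟨2,[(1,0),(3,0),(1,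
  0),(30,0),(10,0)]⟩⟩,.o ⟨false,0,⟨1,[(39,1),(5,0),(0,0)]⟩,⟨0,[(1,0),(5,0)]⟩⟩]⟩)) (.K ⟨0,[0,0,0,0,
  1],0,(-1),(⟨0,[(40,0)]⟩,⟨0,[(39,0)]⟩),.k,(.r 0 ⟨2,[(26,0),(24,0)]⟩ ⟨16,[(11,3),(6,0),(1,3),(11,9),
  (23,15)]⟩),(.r 0 ⟨8,[(11,0),(6,0),(1,1),(7,0),(3,4)]⟩ ⟨10,[(16,5),(1,0),(13,1),(23,3)]⟩),.k,.k,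
  [⟨0,[(0,0)]⟩,⟨0,[(4,0)]⟩,⟨0,[(37,0)]⟩,⟨2,[(25,1),(0,0),(1,0),(9,0)]⟩]⟩))))))))) (.S ⟨1,0,[0,0,0,
  -1,0,0,0,-1],[1,0,-1],[1,1,0,0,0,0,0,-1],(⟨0,[(38,0)]⟩,⟨0,[(39,0)]⟩),⟨0,[(27,0)]⟩,.k,.k,⟨false,0,
  ⟨0,[]⟩,⟨31,[(0,1),(9,5),(13,7),(1,1),(8,1),(11,0),(0,22)]⟩⟩,⟨true,0,⟨0,[(46,0)]⟩,⟨11,[(7,2),(4,0),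
  (4,2),(6,0),(18,1)]⟩⟩,⟨true,0,⟨11,[(7,2),(4,0),(4,2),(6,0),(18,1)]⟩,⟨0,[(46,0)]⟩⟩,⟨false,1,⟨31,
  [(0,1),(9,5),(13,7),(1,1),(8,1),(11,0),(0,22)]⟩,⟨0,[]⟩⟩,[.o ⟨false,1,⟨53,[(0,43),(9,7),(7,6),(1,
  2),(3,15),(10,9),(4,4)]⟩,⟨0,[(1,0)]⟩⟩,.o ⟨false,1,⟨0,[(0,0)]⟩,⟨0,[(25,0)]⟩⟩,.o ⟨false,1,⟨1,[(37,
  1),(2,0),(6,0)]⟩,⟨0,[(21,0)]⟩⟩,.a ⟨true,0,⟨0,[(37,0)]⟩,⟨0,[(33,0)]⟩⟩ ⟨true,0,⟨5,[(11,5),(6,0),(24,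
  0),(0,2)]⟩,⟨0,[(3,0)]⟩⟩ ⟨false,1,⟨0,[(0,0),(32,0)]⟩,⟨0,[(2,0)]⟩⟩]⟩))))))

theorem ok57 : chk K t57 r42 = true := by decide +kernel

noncomputable def t59 : Tre :=
  (.N [0,0,1] 0 ⟨0,[(0,0)]⟩ ⟨0,[(5,0)]⟩ .k)

theorem ok59 : chk K t59 r41 = true := by decide +kernel

noncomputable def t62 : Tre :=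
  (.Q [0,0,-1,0,1,0,0,0,-1,0,0,1] (.p true [0,0,0,0,1] [] (⟨0,[(24,0)]⟩,⟨0,[(23,0)]⟩) .k 0 (⟨0,[]⟩,
  ⟨0,[]⟩) .k .k) (.Q [0,0,0,0,0,0,1,1,0,0,-1] (.p false [0,0,1] [] (⟨0,[(32,0)]⟩,⟨0,[(31,0)]⟩) .k 0
  (⟨0,[]⟩,⟨0,[]⟩) .k .k) (.Q [0,0,0,-1,0,0,-1,-1,0,0,1] (.p true [0,0,1] [] (⟨0,[(33,0)]⟩,⟨0,[(32,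
  0)]⟩) .k 0 (⟨0,[]⟩,⟨0,[]⟩) .k .k) (.R ⟨2,true,false,false,[0,1],[0,1,1],[0,1,1],(⟨0,[]⟩,⟨0,[]⟩),
  (⟨0,[(34,0),(2,0)]⟩,⟨0,[(22,0)]⟩),⟨0,[]⟩,.k,.k,.k,.k,.k,.k,⟨false,0,⟨2,[(6,2),(6,0),(24,0)]⟩,⟨0,
  [(1,0),(30,0),(6,0),(3,0)]⟩⟩,⟨true,0,⟨0,[(16,0)]⟩,⟨0,[(32,0)]⟩⟩,⟨false,0,⟨0,[(41,0)]⟩,⟨7,[(7,1),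
  (11,1),(19,1),(2,0),(0,6)]⟩⟩,⟨true,0,⟨0,[(1,0)]⟩,⟨0,[(30,0)]⟩⟩,⟨true,0,⟨23,[(5,2),(7,1),(1,2),(3,
  5),(18,4)]⟩,⟨0,[]⟩⟩,⟨false,1,⟨1,[(10,1),(24,0),(7,0)]⟩,⟨0,[(0,0)]⟩⟩,[]⟩) (.Q [0,1,0,1,-1,0,1,1,0,
  1,-1] (.p false [0,0,1] [1] (⟨0,[(34,0)]⟩,⟨0,[(33,0)]⟩) .k 1 (⟨0,[]⟩,⟨0,[]⟩) .k .k) (.I [0,0,0,0,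
  0,0,0,-1] (.I [1,-1,-1,0,1,0,0,1] (.Q [0,0,1,0,-1,0,1,0,0,1,-1] (.p false [0,0,1] [1] (⟨0,[(37,
  0)]⟩,⟨0,[(36,0)]⟩) .k 1 (⟨0,[]⟩,⟨0,[]⟩) .k .k) (.S ⟨1,0,[0,1,0,-1,0,0,0,1],[0,0,1],[1,0,0,0,0,0,0,
  1],(⟨0,[(38,0)]⟩,⟨0,[(37,0)]⟩),⟨0,[(27,0)]⟩,.k,.k,⟨true,0,⟨0,[]⟩,⟨23,[(9,2),(7,1),(1,2),(3,5),(18,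
  4)]⟩⟩,⟨false,0,⟨0,[(45,0)]⟩,⟨7,[(11,1),(11,1),(19,1),(2,0),(0,6)]⟩⟩,⟨false,1,⟨7,[(11,1),(11,1),
  (19,1),(2,0),(0,6)]⟩,⟨0,[(45,0)]⟩⟩,⟨true,0,⟨23,[(9,2),(7,1),(1,2),(3,5),(18,4)]⟩,⟨0,[]⟩⟩,[.e
  ⟨false,1,⟨5,[(1,0),(7,1),(1,0),(34,1),(0,0)]⟩,⟨0,[(2,0)]⟩⟩ ⟨false,0,⟨0,[(1,0),(5,0),(9,0)]⟩,⟨1,
  [(2,0),(20,0),(19,0),(3,1)]⟩⟩,.o ⟨false,0,⟨0,[(5,0),(39,0)]⟩,⟨1,[(2,1),(33,1),(2,0),(3,1),(3,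
  0)]⟩⟩,.o ⟨false,0,⟨0,[(20,0)]⟩,⟨1,[(1,0),(32,0),(1,0),(2,0)]⟩⟩,.a ⟨true,(-1),⟨0,[(0,0)]⟩,⟨0,[(1,
  0),(32,0)]⟩⟩ ⟨false,1,⟨0,[(1,0)]⟩,⟨2,[(15,1),(3,0),(3,0),(23,0)]⟩⟩ ⟨true,0,⟨0,[(1,0),(5,0),(9,
  0)]⟩,⟨2,[(2,1),(4,0),(15,0),(23,0)]⟩⟩]⟩) (.I [0,0,0,-1,0,0,0,1] (.S ⟨1,0,[0,1,1,0,0,0,0,-1],[1,1,
  -1],[1,0,1,1,0,0,0,-1],(⟨0,[(38,0),(3,0)]⟩,⟨0,[(28,0)]⟩),⟨0,[(38,0)]⟩,.k,.k,⟨true,0,⟨0,[]⟩,⟨23,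
  [(10,2),(7,1),(1,2),(3,5),(18,4)]⟩⟩,⟨false,0,⟨0,[(46,0)]⟩,⟨7,[(12,1),(11,1),(19,1),(2,0),(0,6)]⟩⟩,
  ⟨false,1,⟨7,[(12,1),(11,1),(19,1),(2,0),(0,6)]⟩,⟨0,[(46,0)]⟩⟩,⟨true,0,⟨23,[(10,2),(7,1),(1,2),(3,
  5),(18,4)]⟩,⟨0,[]⟩⟩,[.a ⟨true,0,⟨0,[(35,0)]⟩,⟨1,[(0,0),(3,1),(11,0),(31,1)]⟩⟩ ⟨true,0,⟨2,[(3,1),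
  (4,0),(15,0),(23,0)]⟩,⟨0,[(0,0)]⟩⟩ ⟨false,0,⟨2,[(3,0),(12,0),(7,0),(18,0)]⟩,⟨0,[(2,0)]⟩⟩,.o
  ⟨false,1,⟨1,[(35,1),(4,0),(7,0)]⟩,⟨0,[(6,0)]⟩⟩,.o ⟨false,1,⟨0,[(1,0)]⟩,⟨0,[(36,0)]⟩⟩,.o ⟨false,1,
  ⟨17,[(1,7),(8,1),(13,1),(10,1),(1,7),(2,4),(7,2)]⟩,⟨0,[(21,0)]⟩⟩]⟩) (.Q [0,0,0,0,0,2,0,0,0,0,-1]
  (.p false [0,0,1] [] (⟨0,[(39,0)]⟩,⟨0,[(38,0)]⟩) .k 0 (⟨0,[]⟩,⟨0,[]⟩) .k .k) (.Q [0,-1,-2,0,2,0,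
  -2,-1,0,-1,2] (.p true [0,0,1] [1,0,-1] (⟨0,[(40,0)]⟩,⟨0,[(39,0)]⟩) .k 2 (⟨0,[(39,0)]⟩,⟨0,[(40,
  0)]⟩) .k (.r (-1) ⟨2,[(6,1),(4,1),(26,1),(10,0)]⟩ ⟨0,[(1,0),(15,0)]⟩)) (.R ⟨0,false,false,false,
  [0,-1,1],[1,0,-1],[1,0,1],(⟨0,[(30,0)]⟩,⟨1,[(1,0),(38,1),(0,0)]⟩),(⟨0,[(40,0)]⟩,⟨0,[(41,0)]⟩),⟨0,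
  [(1,0)]⟩,.k,.k,(.r (-1) ⟨13,[(4,5),(7,3),(7,7),(28,0),(0,2)]⟩ ⟨2,[(2,0),(7,0),(11,0),(3,1),(23,
  1)]⟩),(.r (-1) ⟨11,[(3,0),(0,7),(1,0),(1,6),(3,3),(7,2),(18,6)]⟩ ⟨2,[(2,2),(15,1),(3,0),(3,0),(23,
  0)]⟩),.k,.k,⟨true,0,⟨0,[(8,0),(30,0)]⟩,⟨0,[(5,0)]⟩⟩,⟨false,2,⟨2,[(0,1),(2,0),(8,0),(26,0),(6,0)]⟩,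
  ⟨0,[(6,0),(11,0),(2,0),(0,0),(27,0)]⟩⟩,⟨false,0,⟨1,[(2,0),(15,0),(3,1),(27,1)]⟩,⟨5,[(4,3),(7,0),
  (7,1),(25,0),(2,0)]⟩⟩,⟨true,1,⟨1,[(0,1),(1,0),(15,0),(3,1)]⟩,⟨0,[(6,0),(1,0),(39,1)]⟩⟩,⟨false,0,
  ⟨0,[]⟩,⟨0,[]⟩⟩,⟨false,0,⟨0,[]⟩,⟨0,[]⟩⟩,[.o ⟨false,1,⟨2,[(0,0),(17,0),(7,0),(12,0),(2,0)]⟩,⟨0,[(8,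
  0)]⟩⟩,.e ⟨false,1,⟨24,[(0,0),(11,4),(5,1),(7,6),(1,0),(21,17)]⟩,⟨5,[(20,0),(24,0),(0,2)]⟩⟩ ⟨false,
  2,⟨0,[(0,0)]⟩,⟨1,[(6,0),(1,0),(13,0),(5,0),(19,1)]⟩⟩,.o ⟨false,0,⟨0,[(38,0)]⟩,⟨0,[(3,0)]⟩⟩,.a
  ⟨true,(-1),⟨0,[(6,0),(11,0),(3,0),(25,0),(1,0)]⟩,⟨27,[(0,20),(3,2),(1,17),(2,0),(5,0),(4,5),(12,
  0),(5,3),(3,1)]⟩⟩ ⟨true,0,⟨0,[]⟩,⟨23,[(12,2),(7,1),(1,2),(3,5),(18,4)]⟩⟩ ⟨false,2,⟨0,[(0,0)]⟩,⟨3,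
  [(6,2),(1,0),(12,1),(0,4),(5,0),(19,5),(1,3)]⟩⟩]⟩) (.R ⟨0,false,false,true,[0,-1,1],[1,0,-1],[0,1,
  1,0,0,0,0,-1],(⟨0,[(30,0)]⟩,⟨1,[(1,0),(38,1),(0,0)]⟩),(⟨0,[(40,0)]⟩,⟨0,[(41,0)]⟩),⟨0,[(1,0)]⟩,.k,
  .k,(.r (-1) ⟨13,[(4,5),(7,3),(7,7),(28,0),(0,2)]⟩ ⟨2,[(2,0),(7,0),(11,0),(3,1),(23,1)]⟩),(.r (-1)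
  ⟨25,[(0,6),(2,4),(0,22),(7,10),(7,4),(18,8),(2,0)]⟩ ⟨2,[(2,2),(15,1),(3,0),(3,0),(23,0)]⟩),.k,.k,
  ⟨true,0,⟨1,[(38,0),(0,0)]⟩,⟨0,[]⟩⟩,⟨false,2,⟨0,[(3,0),(0,0),(32,0)]⟩,⟨11,[(0,7),(1,4),(15,2),(2,
  1),(6,1),(6,1),(14,3)]⟩⟩,⟨true,(-1),⟨0,[(2,0),(15,0),(3,0)]⟩,⟨22,[(0,5),(2,14),(0,26),(1,8),(5,1),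
  (7,9),(18,5)]⟩⟩,⟨false,1,⟨1,[(2,2),(0,1),(14,0),(20,1)]⟩,⟨12,[(0,10),(3,12),(7,0),(7,3),(7,1),(21,
  7)]⟩⟩,⟨false,0,⟨0,[]⟩,⟨0,[]⟩⟩,⟨false,0,⟨0,[]⟩,⟨0,[]⟩⟩,[.a ⟨true,0,⟨0,[(37,0)]⟩,⟨10,[(0,1),(5,7),
  (10,0),(2,2),(18,1),(10,11)]⟩⟩ ⟨false,0,⟨2,[(2,0),(17,0),(5,1)]⟩,⟨0,[(4,0)]⟩⟩ ⟨true,1,⟨0,[(3,0),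
  (33,0)]⟩,⟨0,[(0,0),(49,0)]⟩⟩,.o ⟨false,1,⟨1,[(37,1),(4,0),(7,0)]⟩,⟨0,[(8,0)]⟩⟩,.o ⟨false,0,⟨0,
  [(38,0)]⟩,⟨0,[(3,0)]⟩⟩,.e ⟨false,0,⟨0,[(5,0)]⟩,⟨21,[(0,1),(3,4),(7,5),(1,2),(24,3),(2,0),(7,
  13)]⟩⟩ ⟨false,2,⟨1,[(3,1),(33,1),(11,0),(0,0)]⟩,⟨0,[(0,0),(49,0)]⟩⟩]⟩)) (.Q [0,0,-2,0,0,0,1,0,0,1,
  -1] (.p false [0,0,1] [1] (⟨0,[(40,0)]⟩,⟨0,[(39,0)]⟩) .k 1 (⟨0,[]⟩,⟨0,[]⟩) .k .k) (.Q [0,-1,0,-2,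
  1,0,-1,-1,0,-1,1] (.p true [0,0,1] [1] (⟨0,[(41,0)]⟩,⟨0,[(40,0)]⟩) .k 1 (⟨0,[]⟩,⟨0,[]⟩) .k .k)
  (.R ⟨1,false,false,true,[1,-1],[0,0,1],[1,1,0,0,0,0,0,1],(⟨0,[(44,0)]⟩,⟨0,[(45,0)]⟩),(⟨0,[(42,
  0)]⟩,⟨0,[(41,0)]⟩),⟨1,[(2,0),(27,0),(13,0)]⟩,.k,.k,(.r (-1) ⟨10,[(0,3),(12,1),(7,3),(14,3),(13,3),
  (0,0)]⟩ ⟨2,[(11,0),(3,0),(7,0),(3,0),(23,1)]⟩),.k,(.r (-1) ⟨3,[(0,1),(0,0),(17,0),(1,0),(7,0),(8,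
  0),(11,1)]⟩ ⟨1,[(8,0),(6,0),(7,0),(16,0),(10,0)]⟩),.k,⟨true,0,⟨0,[]⟩,⟨1,[(39,0),(0,0)]⟩⟩,⟨false,0,
  ⟨0,[(1,0)]⟩,⟨0,[(0,0),(14,0)]⟩⟩,⟨false,0,⟨0,[(8,0),(31,0)]⟩,⟨9,[(0,5),(0,3),(1,1),(25,1),(8,1),
  (11,0),(0,2)]⟩⟩,⟨true,(-1),⟨0,[(7,0)]⟩,⟨25,[(0,15),(3,3),(8,1),(13,7),(10,5),(4,2),(6,0)]⟩⟩,
  ⟨false,0,⟨0,[(5,0),(5,0)]⟩,⟨0,[(0,0),(35,0)]⟩⟩,⟨false,0,⟨3,[(1,0),(3,0),(5,1),(6,2),(28,0),(3,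
  0)]⟩,⟨0,[(0,0)]⟩⟩,[.e ⟨false,0,⟨3,[(4,2),(2,2),(1,0),(11,0),(18,0)]⟩,⟨7,[(0,1),(2,1),(23,1),(1,1),
  (8,1),(11,0),(0,4)]⟩⟩ ⟨false,0,⟨17,[(1,11),(5,5),(5,5),(7,0),(24,0),(0,2)]⟩,⟨3,[(0,1),(10,1),(26,
  1),(4,0),(7,2)]⟩⟩,.o ⟨false,0,⟨0,[(9,0)]⟩,⟨1,[(38,1),(4,0),(7,0)]⟩⟩,.a ⟨true,0,⟨1,[(39,0),(0,0)]⟩,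
  ⟨0,[(1,0),(38,0)]⟩⟩ ⟨true,0,⟨11,[(4,2),(2,2),(1,0),(3,3),(7,0),(1,3),(16,0)]⟩,⟨0,[(6,0)]⟩⟩ ⟨false,
  0,⟨6,[(1,0),(3,0),(1,2),(10,2),(2,1),(29,1)]⟩,⟨3,[(0,1),(10,1),(26,1),(4,0),(7,2)]⟩⟩,.o ⟨false,0,
  ⟨3,[(0,1),(8,1),(13,3),(19,0),(7,0)]⟩,⟨0,[(50,0)]⟩⟩]⟩) (.Q [0,0,0,0,0,2,0,0,0,-1,1] (.p true [0,0,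
  1] [1] (⟨0,[(42,0)]⟩,⟨0,[(41,0)]⟩) .k 1 (⟨0,[]⟩,⟨0,[]⟩) .k .k) (.R ⟨0,false,false,false,[1,-1,-1],
  [1,-1],[0,0,-1,-1],(⟨0,[(31,0)]⟩,⟨0,[(0,0),(44,0)]⟩),(⟨0,[(45,0)]⟩,⟨0,[(46,0)]⟩),⟨0,[(0,0)]⟩,.k,
  .k,(.r (-1) ⟨17,[(14,1),(5,21),(1,3),(28,12),(0,2)]⟩ ⟨1,[(9,0),(6,0),(7,0),(16,0),(10,0)]⟩),.k,.k,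
  .k,⟨false,1,⟨19,[(14,3),(5,1),(7,5),(22,10),(0,4)]⟩,⟨0,[]⟩⟩,⟨true,0,⟨0,[(25,0)]⟩,⟨0,[(41,0)]⟩⟩,
  ⟨false,1,⟨2,[(9,0),(4,0),(26,0),(10,1)]⟩,⟨0,[(15,0)]⟩⟩,⟨true,0,⟨0,[(10,0)]⟩,⟨0,[(39,0)]⟩⟩,⟨false,
  0,⟨0,[]⟩,⟨0,[]⟩⟩,⟨false,0,⟨0,[]⟩,⟨0,[]⟩⟩,[.a ⟨true,0,⟨0,[(50,0)]⟩,⟨6,[(0,0),(0,1),(2,1),(8,0),(3,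
  0),(17,0),(5,1),(0,0),(2,3),(6,0)]⟩⟩ ⟨false,1,⟨17,[(14,1),(5,3),(1,3),(28,12),(0,2)]⟩,⟨5,[(12,0),
  (3,0),(7,0),(3,0),(23,1)]⟩⟩ ⟨true,0,⟨0,[(23,0)]⟩,⟨5,[(12,0),(3,0),(7,0),(3,0),(12,5),(10,1)]⟩⟩,.o
  ⟨false,1,⟨1,[(44,0),(5,1),(1,0)]⟩,⟨0,[(49,0)]⟩⟩,.a ⟨true,0,⟨0,[(41,0)]⟩,⟨0,[(37,0)]⟩⟩ ⟨false,1,⟨8,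
  [(14,0),(5,1),(1,1),(28,1),(0,5)]⟩,⟨5,[(12,0),(3,0),(7,0),(3,0),(23,1)]⟩⟩ ⟨true,0,⟨0,[(23,0)]⟩,⟨1,
  [(16,0),(22,0),(1,0)]⟩⟩,.a ⟨true,0,⟨1,[(40,0),(0,2)]⟩,⟨0,[(2,0)]⟩⟩ ⟨true,1,⟨17,[(14,1),(5,3),(1,
  3),(28,12),(0,2)]⟩,⟨0,[(24,0)]⟩⟩ ⟨false,1,⟨10,[(2,6),(19,2),(0,1),(6,0),(13,3),(7,6)]⟩,⟨5,[(12,0),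
  (3,0),(7,0),(3,0),(12,5),(10,1)]⟩⟩]⟩) (.I [0,-1,2,1,0,0,0,1] (.S ⟨1,0,[0,0,-1,-2,0,0,0,-1],[1,-1,
  -1],[1,1,-1,-1,0,0,0,-1],(⟨0,[(32,0)]⟩,⟨0,[(44,0),(2,0)]⟩),⟨0,[(1,0)]⟩,.k,(.r (-1) ⟨17,[(15,1),(5,
  21),(1,3),(28,12),(0,2)]⟩ ⟨8,[(0,5),(4,0),(11,4),(11,0)]⟩),⟨false,0,⟨0,[]⟩,⟨19,[(15,3),(5,1),(7,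
  5),(22,0),(0,14)]⟩⟩,⟨true,0,⟨0,[(51,0)]⟩,⟨0,[(50,0)]⟩⟩,⟨true,0,⟨0,[(50,0)]⟩,⟨0,[(51,0)]⟩⟩,⟨false,
  1,⟨19,[(15,3),(5,1),(7,5),(22,0),(0,14)]⟩,⟨0,[]⟩⟩,[.o ⟨false,1,⟨13,[(15,1),(5,13),(1,3),(16,3),(1,
  9),(2,6),(7,4)]⟩,⟨1,[(2,1),(42,0),(7,0)]⟩⟩,.e ⟨false,1,⟨0,[(21,0),(30,0)]⟩,⟨5,[(0,2),(1,0),(3,0),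
  (6,0),(1,0)]⟩⟩ ⟨false,1,⟨0,[(5,0),(17,0),(29,0)]⟩,⟨0,[(17,0)]⟩⟩,.a ⟨true,0,⟨0,[(42,0)]⟩,⟨0,[(38,
  0)]⟩⟩ ⟨true,0,⟨5,[(5,2),(15,2),(1,1),(24,1)]⟩,⟨5,[(0,2),(1,0),(3,0),(6,0),(1,0)]⟩⟩ ⟨false,1,⟨8,
  [(15,0),(5,10),(1,1),(28,1),(0,5)]⟩,⟨4,[(0,2),(1,1),(2,0),(0,1),(10,0)]⟩⟩,.e ⟨false,1,⟨0,[(21,0),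
  (30,0)]⟩,⟨0,[(0,0)]⟩⟩ ⟨false,1,⟨0,[(5,0),(17,0),(29,0)]⟩,⟨8,[(0,5),(4,0),(11,4),(11,0)]⟩⟩]⟩) (.Q
  [0,0,0,0,1,0,0,0,-1,-1,0,1] (.p true [0,0,0,0,1] [1] (⟨0,[(37,0)]⟩,⟨0,[(36,0)]⟩) .k 1 (⟨0,[]⟩,⟨0,
  []⟩) .k .k) (.Q [0,0,-1,0,1,0,0,0,-1,-1,0,1] (.p true [0,0,0,0,1] [1] (⟨0,[(38,0)]⟩,⟨0,[(37,0)]⟩)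
  .k 1 (⟨0,[]⟩,⟨0,[]⟩) .k .k) (.Q [0,0,0,0,0,-1,0,0,0,0,0,1] (.ed false [1,-1,0,0,1] .k) (.S ⟨1,0,
  [0,2,0,-1],[0,0,0,0,1],[1,1],(⟨0,[(40,0)]⟩,⟨0,[(39,0)]⟩),⟨0,[(0,0)]⟩,.k,(.r 0 ⟨2,[(26,0),(24,0)]⟩
  ⟨12,[(18,0),(1,3),(11,5),(11,1),(0,1),(10,11)]⟩),⟨true,0,⟨0,[]⟩,⟨23,[(18,2),(7,1),(1,2),(3,5),(18,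
  4)]⟩⟩,⟨false,0,⟨0,[(54,0)]⟩,⟨11,[(8,1),(11,3),(11,1),(22,2),(0,8)]⟩⟩,⟨false,1,⟨11,[(8,1),(11,3),
  (11,1),(22,2),(0,8)]⟩,⟨0,[(54,0)]⟩⟩,⟨true,0,⟨23,[(18,2),(7,1),(1,2),(3,5),(18,4)]⟩,⟨0,[]⟩⟩,[.o
  ⟨false,(-1),⟨2,[(25,0),(0,1),(1,1),(9,1)]⟩,⟨5,[(1,3),(14,1),(0,1),(30,0),(7,6)]⟩⟩,.a ⟨true,(-1),
  ⟨0,[(31,0),(22,0)]⟩,⟨0,[(1,0),(4,0),(21,0),(16,0),(10,0)]⟩⟩ ⟨true,0,⟨0,[]⟩,⟨1,[(44,0),(0,0)]⟩⟩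
  ⟨false,0,⟨2,[(26,0),(24,0)]⟩,⟨11,[(8,1),(11,3),(11,1),(22,2),(0,8)]⟩⟩,.o ⟨false,0,⟨0,[(38,0)]⟩,⟨0,
  [(2,0)]⟩⟩,.o ⟨false,0,⟨1,[(38,1),(5,0),(0,0)]⟩,⟨0,[(1,0)]⟩⟩]⟩) (.R ⟨0,false,false,true,[0,0,0,0,
  1],[0,1],[1,1,1,1],(⟨0,[(40,0)]⟩,⟨0,[(39,0)]⟩),(⟨0,[(50,0)]⟩,⟨0,[(49,0)]⟩),⟨0,[(0,0)]⟩,.k,.k,(.r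
  0 ⟨2,[(26,0),(24,0)]⟩ ⟨12,[(18,0),(1,3),(11,5),(11,1),(0,1),(10,11)]⟩),(.r 0 ⟨2,[(26,0),(24,0)]⟩
  ⟨12,[(18,0),(1,3),(11,5),(11,1),(0,1),(10,11)]⟩),.k,.k,⟨true,0,⟨0,[]⟩,⟨1,[(44,0),(0,0)]⟩⟩,⟨false,
  1,⟨0,[(1,0),(4,0),(38,0)]⟩,⟨1,[(38,1),(5,0),(0,0)]⟩⟩,⟨true,0,⟨5,[(16,0),(3,0),(7,0),(3,0),(23,
  1)]⟩,⟨2,[(26,0),(24,0)]⟩⟩,⟨false,1,⟨0,[(1,0),(4,0),(21,0),(16,0),(10,0)]⟩,⟨0,[(38,0),(15,0)]⟩⟩,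
  ⟨false,0,⟨0,[]⟩,⟨0,[]⟩⟩,⟨false,0,⟨0,[]⟩,⟨0,[]⟩⟩,[.o ⟨false,0,⟨0,[(53,0)]⟩,⟨1,[(48,0),(5,1),(1,
  0)]⟩⟩,.a ⟨true,0,⟨6,[(5,1),(2,1),(8,0),(3,0),(17,0),(5,1),(0,1),(0,1),(1,1),(6,0)]⟩,⟨0,[(54,0)]⟩⟩
  ⟨true,0,⟨5,[(16,0),(3,0),(7,0),(3,0),(23,1)]⟩,⟨0,[(54,0)]⟩⟩ ⟨false,1,⟨5,[(1,0),(3,1),(2,1),(0,0),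
  (5,4),(29,0),(10,0)]⟩,⟨0,[(38,0),(15,0)]⟩⟩,.o ⟨false,0,⟨0,[(38,0)]⟩,⟨0,[(2,0)]⟩⟩,.o ⟨false,0,⟨1,
  [(38,1),(5,0),(0,0)]⟩,⟨0,[(1,0)]⟩⟩]⟩)) (.Q [0,-1,0,0,1,0,0,0,-1,0,0,1] (.p true [0,0,0,0,1] []
  (⟨0,[(39,0)]⟩,⟨0,[(38,0)]⟩) .k 0 (⟨0,[]⟩,⟨0,[]⟩) .k .k) (.Q [0,0,0,0,0,-1,0,0,0,0,0,1] (.ed false
  [1,-1,0,0,1] .k) (.S ⟨1,0,[0,1,0,-1],[0,0,0,0,1],[1,2],(⟨0,[(41,0)]⟩,⟨0,[(40,0)]⟩),⟨0,[(0,0)]⟩,.k,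
  (.r 0 ⟨2,[(27,0),(24,0)]⟩ ⟨12,[(19,0),(1,3),(11,5),(11,1),(0,1),(10,11)]⟩),⟨false,0,⟨0,[]⟩,⟨19,
  [(19,3),(5,1),(7,5),(22,0),(0,14)]⟩⟩,⟨true,0,⟨0,[(55,0)]⟩,⟨0,[(54,0)]⟩⟩,⟨true,0,⟨0,[(54,0)]⟩,⟨0,
  [(55,0)]⟩⟩,⟨false,1,⟨19,[(19,3),(5,1),(7,5),(22,0),(0,14)]⟩,⟨0,[]⟩⟩,[.e ⟨false,0,⟨0,[(52,0)]⟩,⟨0,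
  [(57,0)]⟩⟩ ⟨false,0,⟨2,[(27,0),(24,0)]⟩,⟨11,[(9,1),(11,3),(11,1),(22,2),(0,8)]⟩⟩,.o ⟨false,0,⟨17,
  [(2,9),(16,1),(5,3),(1,3),(11,7),(9,4),(7,2)]⟩,⟨0,[(1,0),(8,0),(6,0),(10,0)]⟩⟩,.o ⟨false,0,⟨0,
  [(39,0)]⟩,⟨0,[(3,0)]⟩⟩,.a ⟨true,(-1),⟨0,[(2,0)]⟩,⟨0,[(16,0)]⟩⟩ ⟨false,0,⟨5,[(27,0),(24,0),(0,2)]⟩,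
  ⟨1,[(45,0),(0,0),(10,1)]⟩⟩ ⟨true,0,⟨2,[(27,0),(24,0)]⟩,⟨5,[(17,0),(3,0),(7,0),(3,0),(23,1)]⟩⟩]⟩)
  (.Q [0,0,-1,0,0,0,0,0,1,0,0,-1] (.p false [0,0,0,0,1] [] (⟨0,[(41,0)]⟩,⟨0,[(40,0)]⟩) .k 0 (⟨0,[]⟩,
  ⟨0,[]⟩) .k .k) (.S ⟨1,0,[0,-1,0,-1],[1,0,0,0,-1],[1],(⟨0,[(41,0)]⟩,⟨0,[(42,0)]⟩),⟨2,[(1,0),(4,0),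
  (2,0),(31,1)]⟩,.k,(.r (-1) ⟨8,[(20,0),(5,1),(1,1),(28,1),(0,5)]⟩ ⟨15,[(20,1),(1,3),(7,1),(3,7),
  (11,0),(0,0)]⟩),⟨false,0,⟨0,[]⟩,⟨19,[(20,3),(5,1),(7,5),(22,0),(0,14)]⟩⟩,⟨true,0,⟨0,[(56,0)]⟩,⟨0,
  [(55,0)]⟩⟩,⟨true,0,⟨0,[(55,0)]⟩,⟨0,[(56,0)]⟩⟩,⟨false,1,⟨19,[(20,3),(5,1),(7,5),(22,0),(0,14)]⟩,⟨0,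
  []⟩⟩,[.a ⟨true,1,⟨0,[(2,0),(53,0)]⟩,⟨0,[(32,0)]⟩⟩ ⟨true,0,⟨0,[]⟩,⟨1,[(46,0),(0,0)]⟩⟩ ⟨false,1,⟨8,
  [(20,0),(5,1),(1,1),(28,1),(0,5)]⟩,⟨0,[(55,0)]⟩⟩,.o ⟨false,2,⟨0,[(4,0),(51,0),(1,0)]⟩,⟨0,[(27,
  0)]⟩⟩,.o ⟨false,1,⟨0,[(4,0)]⟩,⟨0,[(40,0)]⟩⟩,.o ⟨false,1,⟨1,[(4,1),(41,0),(0,0)]⟩,⟨0,[(0,0)]⟩⟩]⟩)
  (.K ⟨0,[1,0,0,0,-1],1,1,(⟨0,[(41,0)]⟩,⟨0,[(42,0)]⟩),.k,(.r (-1) ⟨8,[(20,0),(5,1),(1,1),(28,1),(0,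
  5)]⟩ ⟨15,[(20,1),(1,3),(7,1),(3,7),(11,0),(0,0)]⟩),(.r (-1) ⟨12,[(20,0),(1,3),(11,5),(11,1),(0,1),
  (10,11)]⟩ ⟨2,[(28,0),(24,0)]⟩),.k,.k,[⟨0,[(0,0),(10,0)]⟩,⟨0,[(3,0)]⟩,⟨23,[(20,2),(7,1),(1,2),(2,
  23),(0,5),(18,4)]⟩,⟨0,[(4,0)]⟩]⟩))) (.R ⟨2,false,false,false,[0,1],[0,0,0,0,1],[0,1,1],(⟨0,[]⟩,⟨0,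
  []⟩),(⟨0,[(40,0)]⟩,⟨0,[(39,0)]⟩),⟨0,[]⟩,.k,.k,.k,(.r (-1) ⟨12,[(18,0),(1,3),(11,5),(11,1),(0,1),
  (10,11)]⟩ ⟨2,[(26,0),(24,0)]⟩),.k,.k,⟨true,0,⟨1,[(44,0),(0,0)]⟩,⟨0,[]⟩⟩,⟨false,0,⟨0,[(38,0)]⟩,⟨0,
  [(15,0)]⟩⟩,⟨false,0,⟨0,[(54,0)]⟩,⟨11,[(8,1),(11,3),(11,1),(22,2),(0,8)]⟩⟩,⟨true,(-1),⟨0,[(0,0),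
  (53,0)]⟩,⟨0,[(17,0)]⟩⟩,⟨true,0,⟨23,[(18,2),(7,1),(1,2),(3,5),(18,4)]⟩,⟨0,[]⟩⟩,⟨true,(-1),⟨0,[(0,
  0)]⟩,⟨0,[(37,0)]⟩⟩,[.o ⟨false,(-1),⟨0,[(0,0)]⟩,⟨1,[(37,1),(10,0),(7,0)]⟩⟩,.o ⟨false,0,⟨0,[(38,
  0)]⟩,⟨0,[(2,0)]⟩⟩,.a ⟨true,0,⟨0,[(6,0),(38,0)]⟩,⟨1,[(44,0),(0,0)]⟩⟩ ⟨false,0,⟨1,[(44,0),(0,0)]⟩,
  ⟨1,[(55,0),(0,0)]⟩⟩ ⟨true,(-1),⟨5,[(0,1),(0,1),(24,0),(1,2),(9,1),(9,0)]⟩,⟨0,[(15,0)]⟩⟩,.e ⟨true,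
  0,⟨23,[(18,2),(7,1),(1,2),(3,5),(18,4)]⟩,⟨0,[]⟩⟩ ⟨true,(-1),⟨0,[(0,0)]⟩,⟨0,[(37,0)]⟩⟩]⟩))) (.Q [0,
  0,0,1,-1,0,0,0,1,1,0,-1] (.p false [0,0,0,0,1] [1] (⟨0,[(38,0)]⟩,⟨0,[(37,0)]⟩) .k 1 (⟨0,[]⟩,⟨0,
  []⟩) .k .k) (.Q [0,0,0,0,0,-1,0,0,0,0,0,1] (.ed false [1,-1,0,0,1] .k) (.S ⟨1,0,[0,1,0,-1],[0,0,0,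
  0,1],[0,2,0,-1],(⟨0,[(40,0)]⟩,⟨0,[(39,0)]⟩),⟨0,[(0,0)]⟩,.k,(.r 0 ⟨2,[(26,0),(24,0)]⟩ ⟨12,[(18,0),
  (1,3),(11,5),(11,1),(0,1),(10,11)]⟩),⟨false,0,⟨0,[(54,0)]⟩,⟨11,[(8,1),(11,3),(11,1),(22,2),(0,
  8)]⟩⟩,⟨true,0,⟨0,[(54,0)]⟩,⟨0,[(53,0)]⟩⟩,⟨true,0,⟨23,[(18,2),(7,1),(1,2),(3,5),(18,4)]⟩,⟨0,[]⟩⟩,
  ⟨false,1,⟨19,[(18,3),(5,1),(7,5),(22,0),(0,14)]⟩,⟨0,[]⟩⟩,[.o ⟨false,(-1),⟨1,[(2,1),(23,0),(1,0),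
  (19,0)]⟩,⟨1,[(17,1),(30,0),(7,0)]⟩⟩,.a ⟨true,(-1),⟨0,[(2,0),(51,0)]⟩,⟨0,[(17,0)]⟩⟩ ⟨false,0,⟨2,
  [(26,0),(24,0)]⟩,⟨11,[(8,1),(11,3),(11,1),(22,2),(0,8)]⟩⟩ ⟨true,0,⟨0,[(54,0)]⟩,⟨5,[(16,0),(3,0),
  (7,0),(3,0),(23,1)]⟩⟩,.a ⟨true,(-1),⟨0,[(2,0)]⟩,⟨0,[(37,0)]⟩⟩ ⟨true,(-1),⟨0,[(16,0),(9,0)]⟩,⟨11,
  [(8,1),(11,3),(11,1),(22,2),(0,8)]⟩⟩ ⟨false,0,⟨0,[(54,0)]⟩,⟨11,[(8,1),(11,3),(11,1),(22,2),(0,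
  8)]⟩⟩,.a ⟨true,(-1),⟨1,[(2,1),(41,0),(0,0)]⟩,⟨0,[(15,0)]⟩⟩ ⟨false,0,⟨2,[(26,0),(24,0)]⟩,⟨5,[(16,
  0),(3,0),(7,0),(3,0),(23,7)]⟩⟩ ⟨true,0,⟨2,[(26,0),(24,0)]⟩,⟨5,[(16,0),(3,0),(7,0),(3,0),(23,
  1)]⟩⟩]⟩) (.Q [0,0,0,-2,1,0,0,0,-1,-1,0,1] (.p true [0,0,0,0,1] [1] (⟨0,[(40,0)]⟩,⟨0,[(39,0)]⟩) .k
  1 (⟨0,[]⟩,⟨0,[]⟩) .k .k) (.R ⟨1,true,false,false,[1,0,0,0,-1],[0,1],[1,-1],(⟨0,[(40,0)]⟩,⟨0,[(41,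
  0)]⟩),(⟨0,[(51,0)]⟩,⟨0,[(50,0)]⟩),⟨2,[(1,0),(3,0),(2,0),(31,1)]⟩,.k,.k,(.r (-1) ⟨8,[(19,0),(5,1),
  (1,1),(28,1),(0,5)]⟩ ⟨15,[(19,1),(1,3),(7,1),(3,7),(11,0),(0,0)]⟩),(.r (-1) ⟨8,[(19,0),(5,1),(1,
  1),(28,1),(0,5)]⟩ ⟨15,[(19,1),(1,3),(7,1),(3,7),(11,0),(0,0)]⟩),(.r (-2) ⟨17,[(19,9),(5,19),(1,1),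
  (28,10),(0,14)]⟩ ⟨0,[(17,0)]⟩),.k,⟨true,1,⟨8,[(19,0),(5,1),(1,1),(28,1),(0,5)]⟩,⟨0,[(29,0)]⟩⟩,
  ⟨false,0,⟨0,[(3,0),(52,0)]⟩,⟨3,[(0,1),(17,1),(10,1),(19,0),(7,0)]⟩⟩,⟨true,0,⟨0,[]⟩,⟨23,[(19,2),(7,
  1),(1,2),(3,5),(18,4)]⟩⟩,⟨false,(-1),⟨0,[(2,0)]⟩,⟨21,[(0,11),(18,1),(13,3),(4,9),(10,4),(6,0),(0,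
  13)]⟩⟩,⟨false,1,⟨11,[(9,1),(11,3),(11,1),(22,2),(0,8)]⟩,⟨0,[(55,0)]⟩⟩,⟨true,(-1),⟨3,[(2,1),(6,0),
  (11,0),(9,1),(21,0)]⟩,⟨0,[(0,0)]⟩⟩,[]⟩) (.Q [0,-1,1,0,-1,0,1,1,1,1,-1,-1] (.p false [0,0,1] [1,0,
  0,0,-1] (⟨0,[(48,0)]⟩,⟨0,[(47,0)]⟩) .k 2 (⟨0,[(40,0)]⟩,⟨0,[(41,0)]⟩) .k (.r 0 ⟨11,[(10,2),(2,2),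
  (1,0),(3,3),(7,0),(1,3),(16,0)]⟩ ⟨3,[(25,1),(7,1),(22,0),(0,2)]⟩)) (.R ⟨0,false,false,true,[0,0,0,
  0,1],[1,0,-1],[0,1,1],(⟨0,[(42,0)]⟩,⟨0,[(41,0)]⟩),(⟨0,[(48,0)]⟩,⟨0,[(49,0)]⟩),⟨0,[(2,0)]⟩,.k,.k,
  (.r 0 ⟨2,[(28,0),(24,0)]⟩ ⟨12,[(20,0),(1,3),(11,5),(11,1),(0,1),(10,11)]⟩),.k,.k,.k,⟨true,0,⟨0,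
  [(16,0),(30,0)]⟩,⟨0,[(21,0)]⟩⟩,⟨false,2,⟨0,[(11,0),(27,0)]⟩,⟨5,[(0,3),(2,0),(1,1),(4,0),(15,0),(0,
  0),(8,0)]⟩⟩,⟨true,0,⟨1,[(46,0),(0,0)]⟩,⟨5,[(28,0),(24,0),(0,2)]⟩⟩,⟨false,2,⟨1,[(10,0),(6,1),(8,0),
  (20,1),(2,0),(7,0)]⟩,⟨46,[(0,32),(0,4),(5,2),(0,5),(6,4),(4,2),(6,8),(0,8)]⟩⟩,⟨false,0,⟨0,[]⟩,⟨0,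
  []⟩⟩,⟨false,0,⟨0,[]⟩,⟨0,[]⟩⟩,[.a ⟨true,0,⟨0,[(45,0)]⟩,⟨0,[(0,0),(16,0)]⟩⟩ ⟨false,0,⟨23,[(20,2),(7,
  1),(1,2),(3,5),(18,4)]⟩,⟨1,[(57,0),(0,0)]⟩⟩ ⟨true,1,⟨0,[(11,0),(5,0),(8,0),(3,0)]⟩,⟨0,[(0,0)]⟩⟩,
  .o ⟨false,1,⟨1,[(45,1),(4,0),(7,0)]⟩,⟨0,[(16,0)]⟩⟩,.a ⟨true,(-1),⟨0,[(4,0)]⟩,⟨0,[(39,0)]⟩⟩ ⟨false,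
  0,⟨1,[(46,0),(0,0)]⟩,⟨1,[(57,0),(0,0)]⟩⟩ ⟨true,1,⟨0,[(11,0),(5,0),(8,0),(3,0)]⟩,⟨46,[(0,32),(0,4),
  (5,2),(0,5),(6,4),(4,2),(6,8),(0,8)]⟩⟩,.a ⟨true,(-1),⟨0,[(0,0),(44,0)]⟩,⟨0,[(17,0)]⟩⟩ ⟨true,0,⟨23,
  [(20,2),(7,1),(1,2),(3,5),(18,4)]⟩,⟨0,[]⟩⟩ ⟨false,2,⟨1,[(17,1),(27,1),(4,0),(7,0)]⟩,⟨0,[(0,
  0)]⟩⟩]⟩) (.R ⟨0,false,false,true,[0,0,0,0,1],[1,0,-1],[0,1,1],(⟨0,[(42,0)]⟩,⟨0,[(41,0)]⟩),(⟨0,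
  [(48,0)]⟩,⟨0,[(49,0)]⟩),⟨0,[(2,0)]⟩,.k,.k,(.r 0 ⟨2,[(28,0),(24,0)]⟩ ⟨12,[(20,0),(1,3),(11,5),(11,
  1),(0,1),(10,11)]⟩),.k,.k,.k,⟨true,0,⟨0,[(16,0),(30,0)]⟩,⟨0,[(21,0)]⟩⟩,⟨false,2,⟨0,[(11,0),(27,
  0)]⟩,⟨1,[(3,0),(0,0),(24,0),(16,0)]⟩⟩,⟨true,0,⟨1,[(46,0),(0,0)]⟩,⟨5,[(28,0),(24,0),(0,2)]⟩⟩,
  ⟨false,2,⟨17,[(0,11),(25,3),(3,1),(3,1),(4,5),(7,5),(2,2),(7,16)]⟩,⟨0,[(4,0),(11,0)]⟩⟩,⟨false,0,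
  ⟨0,[]⟩,⟨0,[]⟩⟩,⟨false,0,⟨0,[]⟩,⟨0,[]⟩⟩,[.e ⟨false,0,⟨23,[(20,2),(7,1),(1,2),(3,5),(18,4)]⟩,⟨1,
  [(57,0),(0,0)]⟩⟩ ⟨false,1,⟨0,[(0,0)]⟩,⟨11,[(4,8),(11,5),(3,1),(4,1),(10,0),(3,2),(5,1),(11,6)]⟩⟩,
  .o ⟨false,1,⟨1,[(45,1),(4,0),(7,0)]⟩,⟨0,[(16,0)]⟩⟩,.a ⟨true,(-1),⟨0,[(4,0)]⟩,⟨0,[(39,0)]⟩⟩ ⟨false,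
  0,⟨1,[(46,0),(0,0)]⟩,⟨1,[(57,0),(0,0)]⟩⟩ ⟨true,1,⟨4,[(0,2),(25,0),(3,0),(8,1),(5,0),(1,0),(2,0)]⟩,
  ⟨0,[(4,0),(11,0)]⟩⟩,.e ⟨true,0,⟨23,[(20,2),(7,1),(1,2),(3,5),(18,4)]⟩,⟨0,[]⟩⟩ ⟨true,1,⟨0,[(0,0)]⟩,
  ⟨1,[(4,1),(11,1),(29,0),(0,0)]⟩⟩]⟩)))) (.R ⟨2,true,false,true,[0,1],[1,0,0,0,-1],[1,1,1,1],(⟨0,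
  []⟩,⟨0,[]⟩),(⟨0,[(38,0)]⟩,⟨0,[(39,0)]⟩),⟨0,[]⟩,.k,.k,.k,(.r 0 ⟨15,[(17,1),(1,3),(7,1),(3,7),(11,
  0),(0,0)]⟩ ⟨8,[(17,0),(5,1),(1,1),(28,1),(0,5)]⟩),.k,.k,⟨false,0,⟨0,[(52,0)]⟩,⟨8,[(17,0),(5,1),(1,
  1),(28,1),(0,5)]⟩⟩,⟨true,1,⟨3,[(0,1),(26,1),(8,1),(10,0),(7,0)]⟩,⟨0,[(1,0)]⟩⟩,⟨false,0,⟨0,[]⟩,⟨19,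
  [(17,3),(5,1),(7,5),(22,0),(0,14)]⟩⟩,⟨true,1,⟨0,[(0,0)]⟩,⟨0,[(29,0)]⟩⟩,⟨true,0,⟨0,[(52,0)]⟩,⟨0,
  [(53,0)]⟩⟩,⟨false,2,⟨1,[(36,1),(10,0),(7,0)]⟩,⟨0,[(1,0)]⟩⟩,[]⟩)))))) (.R ⟨1,true,false,true,[1,0,
  -1],[0,1],[0,1,0,-1,0,0,0,-1],(⟨0,[(40,0)]⟩,⟨0,[(41,0)]⟩),(⟨0,[(44,0)]⟩,⟨0,[(43,0)]⟩),⟨0,[(29,
  0)]⟩,.k,.k,.k,.k,(.r (-1) ⟨17,[(12,1),(5,21),(1,3),(28,12),(0,2)]⟩ ⟨3,[(0,1),(3,0),(5,1),(3,0),(2,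
  1),(32,0)]⟩),.k,⟨false,1,⟨17,[(12,1),(5,21),(1,3),(28,12),(0,2)]⟩,⟨0,[(4,0),(5,0)]⟩⟩,⟨true,0,⟨0,
  [(35,0)]⟩,⟨0,[(0,0)]⟩⟩,⟨false,0,⟨0,[(48,0)]⟩,⟨11,[(2,1),(11,3),(11,1),(22,2),(0,8)]⟩⟩,⟨true,(-1),
  ⟨0,[(6,0)]⟩,⟨22,[(0,4),(11,1),(5,8),(1,3),(16,17),(4,8),(7,11)]⟩⟩,⟨true,0,⟨23,[(12,2),(7,1),(1,2),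
  (3,5),(18,4)]⟩,⟨0,[]⟩⟩,⟨false,0,⟨3,[(6,0),(3,0),(6,2),(28,1),(3,1)]⟩,⟨0,[(0,0),(1,0),(17,0),(29,
  0)]⟩⟩,[]⟩))))) (.I [0,-1,-1,-1,1,0,0,1] (.S ⟨1,0,[0,0,1,0,0,0,0,-1],[1,1,-1],[1,1,1,1,0,0,0,-1],
  (⟨0,[(37,0),(3,0)]⟩,⟨0,[(27,0)]⟩),⟨0,[(37,0)]⟩,.k,.k,⟨false,0,⟨0,[]⟩,⟨19,[(9,3),(5,1),(7,5),(22,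
  0),(0,14)]⟩⟩,⟨true,0,⟨0,[(45,0)]⟩,⟨0,[(44,0)]⟩⟩,⟨true,0,⟨0,[(44,0)]⟩,⟨0,[(45,0)]⟩⟩,⟨false,1,⟨19,
  [(9,3),(5,1),(7,5),(22,0),(0,14)]⟩,⟨0,[]⟩⟩,[.o ⟨false,1,⟨1,[(34,1),(4,0),(7,0)]⟩,⟨0,[(5,0)]⟩⟩,.a
  ⟨true,1,⟨0,[(34,0),(12,0)]⟩,⟨0,[(3,0),(41,0)]⟩⟩ ⟨false,0,⟨0,[(1,0),(41,0),(3,0)]⟩,⟨8,[(9,4),(5,0),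
  (1,0),(28,0),(0,2)]⟩⟩ ⟨true,0,⟨0,[(1,0),(45,0)]⟩,⟨15,[(3,5),(3,1),(1,4),(7,1),(18,5),(2,2),(3,
  0)]⟩⟩,.e ⟨false,0,⟨2,[(2,1),(4,0),(15,0),(23,0)]⟩,⟨0,[(0,0)]⟩⟩ ⟨false,0,⟨0,[(1,0),(45,0)]⟩,⟨7,[(0,
  1),(8,1),(1,1),(34,2),(0,0)]⟩⟩,.o ⟨false,1,⟨1,[(36,1),(2,0),(6,0)]⟩,⟨0,[(20,0)]⟩⟩]⟩) (.R ⟨1,true,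
  false,true,[1,0,-1],[0,1],[1,1,1,1],(⟨0,[(37,0)]⟩,⟨0,[(38,0)]⟩),(⟨0,[(41,0)]⟩,⟨0,[(40,0)]⟩),⟨0,
  [(26,0)]⟩,.k,.k,.k,.k,(.r (-1) ⟨17,[(9,1),(5,21),(1,3),(28,12),(0,2)]⟩ ⟨1,[(4,0),(6,0),(7,0),(16,
  0),(10,0)]⟩),.k,⟨true,0,⟨0,[]⟩,⟨1,[(35,0),(0,0)]⟩⟩,⟨false,0,⟨0,[(0,0),(2,0),(13,0),(25,0),(3,1)]⟩,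
  ⟨13,[(9,2),(5,0),(7,3),(10,0),(1,12),(2,6),(7,3)]⟩⟩,⟨false,0,⟨0,[(4,0),(31,0)]⟩,⟨1,[(15,1),(30,0),
  (0,0)]⟩⟩,⟨true,(-1),⟨0,[(3,0)]⟩,⟨13,[(9,0),(5,6),(1,1),(16,8),(1,4),(2,6),(7,5)]⟩⟩,⟨true,0,⟨0,
  [(11,0)]⟩,⟨0,[(0,0),(16,0),(29,0)]⟩⟩,⟨false,0,⟨3,[(3,0),(3,0),(6,2),(28,1),(3,1)]⟩,⟨1,[(0,1),(16,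
  1),(18,1),(2,0),(7,2)]⟩⟩,[]⟩))) (.N [0,0,1] 0 ⟨0,[(0,0)]⟩ ⟨0,[(8,0)]⟩ .k)) (.S ⟨1,0,[0,0,0,-1,0,0,
  0,-1],[1,0,-1],[1,1,0,0,0,0,0,-1],(⟨0,[(34,0)]⟩,⟨0,[(35,0)]⟩),⟨0,[(23,0)]⟩,.k,.k,⟨false,0,⟨0,[]⟩,
  ⟨31,[(0,1),(5,5),(13,7),(1,1),(8,1),(11,0),(0,22)]⟩⟩,⟨true,0,⟨0,[(42,0)]⟩,⟨0,[(41,0)]⟩⟩,⟨true,0,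
  ⟨0,[(41,0)]⟩,⟨0,[(42,0)]⟩⟩,⟨false,1,⟨31,[(0,1),(5,5),(13,7),(1,1),(8,1),(11,0),(0,22)]⟩,⟨0,[]⟩⟩,
  [.o ⟨false,1,⟨53,[(0,43),(5,7),(7,6),(1,2),(3,15),(10,9),(4,4)]⟩,⟨0,[(1,0)]⟩⟩,.o ⟨false,1,⟨0,[(0,
  0)]⟩,⟨0,[(21,0)]⟩⟩,.o ⟨false,1,⟨1,[(33,1),(2,0),(6,0)]⟩,⟨0,[(17,0)]⟩⟩,.a ⟨true,0,⟨0,[(33,0)]⟩,⟨0,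
  [(29,0)]⟩⟩ ⟨true,0,⟨5,[(7,5),(6,0),(24,0),(0,2)]⟩,⟨0,[(2,0),(30,0)]⟩⟩ ⟨false,1,⟨0,[(0,0),(28,0)]⟩,
  ⟨0,[(1,0),(31,0)]⟩⟩]⟩))) (.I [1,-1,0,1,1,0,0,1] (.S ⟨1,0,[0,0,0,-1,0,0,0,-1],[1,0,-1],[0,1,0,-1,0,
  0,0,-1],(⟨0,[(33,0)]⟩,⟨0,[(34,0)]⟩),⟨0,[(22,0)]⟩,.k,.k,⟨false,0,⟨0,[(41,0)]⟩,⟨2,[(0,0),(18,0),(19,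
  0),(3,1)]⟩⟩,⟨true,0,⟨0,[(41,0)]⟩,⟨0,[(40,0)]⟩⟩,⟨true,0,⟨23,[(5,2),(7,1),(1,2),(3,5),(18,4)]⟩,⟨0,
  []⟩⟩,⟨false,1,⟨19,[(5,3),(5,1),(7,5),(22,0),(0,14)]⟩,⟨0,[]⟩⟩,[.e ⟨false,0,⟨2,[(6,2),(6,0),(24,
  0)]⟩,⟨0,[(0,0)]⟩⟩ ⟨false,0,⟨0,[(1,0),(12,0)]⟩,⟨20,[(0,13),(4,4),(1,2),(11,5),(22,1)]⟩⟩,.o ⟨false,
  1,⟨1,[(1,1),(33,0),(5,1),(1,0)]⟩,⟨0,[(20,0)]⟩⟩,.o ⟨false,1,⟨3,[(0,0),(0,2),(3,0),(26,0),(2,1)]⟩,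
  ⟨0,[(16,0)]⟩⟩,.a ⟨true,0,⟨0,[(32,0)]⟩,⟨0,[(28,0)]⟩⟩ ⟨false,0,⟨0,[(1,0),(12,0)]⟩,⟨1,[(0,1),(30,0),
  (0,0)]⟩⟩ ⟨true,0,⟨0,[(1,0),(12,0)]⟩,⟨12,[(0,1),(4,3),(1,3),(7,5),(3,0)]⟩⟩]⟩) (.I [1,1,0,0,-1,0,0,
  -1] (.Q [0,0,1,0,-1,0,1,0,0,1,-1] (.p false [0,0,1] [1] (⟨0,[(35,0)]⟩,⟨0,[(34,0)]⟩) .k 1 (⟨0,[]⟩,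
  ⟨0,[]⟩) .k .k) (.S ⟨1,0,[0,0,0,-1,0,0,0,1],[0,0,1],[1,1,0,0,0,0,0,1],(⟨0,[(36,0)]⟩,⟨0,[(35,0)]⟩),
  ⟨0,[(25,0)]⟩,.k,.k,⟨false,0,⟨0,[]⟩,⟨19,[(7,3),(5,1),(7,5),(22,0),(0,14)]⟩⟩,⟨true,0,⟨0,[(43,0)]⟩,
  ⟨0,[(42,0)]⟩⟩,⟨true,0,⟨0,[(42,0)]⟩,⟨0,[(43,0)]⟩⟩,⟨false,1,⟨19,[(7,3),(5,1),(7,5),(22,0),(0,14)]⟩,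
  ⟨0,[]⟩⟩,[.e ⟨false,1,⟨6,[(7,3),(1,0),(11,1),(22,2)]⟩,⟨0,[(1,0),(43,0)]⟩⟩ ⟨false,1,⟨8,[(7,4),(5,0),
  (1,0),(28,0),(0,2)]⟩,⟨3,[(1,0),(3,0),(2,2),(32,1),(3,1)]⟩⟩,.o ⟨false,1,⟨15,[(0,9),(6,7),(7,1),(0,
  1),(16,3),(3,4),(7,12)]⟩,⟨1,[(1,1),(32,1),(2,0),(3,1),(3,0)]⟩⟩,.o ⟨false,0,⟨0,[(18,0)]⟩,⟨1,[(34,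
  1),(2,0),(6,0)]⟩⟩,.a ⟨true,(-1),⟨0,[(0,0)]⟩,⟨0,[(34,0),(9,0)]⟩⟩ ⟨false,1,⟨1,[(7,0),(33,0),(3,0)]⟩,
  ⟨1,[(2,0),(5,0),(8,0),(27,1)]⟩⟩ ⟨true,1,⟨8,[(7,4),(5,0),(1,0),(28,0),(0,2)]⟩,⟨1,[(1,0),(3,0),(2,
  0)]⟩⟩]⟩) (.I [0,-1,0,-1,1,0,0,1] (.S ⟨1,0,[0,0,1,0,0,0,0,-1],[1,1,-1],[1,1,1,1,0,0,0,-1],(⟨0,[(36,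
  0),(3,0)]⟩,⟨0,[(26,0)]⟩),⟨0,[(36,0)]⟩,.k,.k,⟨false,0,⟨0,[]⟩,⟨19,[(8,3),(5,1),(7,5),(22,0),(0,
  14)]⟩⟩,⟨true,0,⟨0,[(44,0)]⟩,⟨0,[(43,0)]⟩⟩,⟨true,0,⟨0,[(43,0)]⟩,⟨0,[(44,0)]⟩⟩,⟨false,1,⟨19,[(8,3),
  (5,1),(7,5),(22,0),(0,14)]⟩,⟨0,[]⟩⟩,[.a ⟨true,0,⟨0,[(4,0)]⟩,⟨1,[(0,0),(2,0),(9,1)]⟩⟩ ⟨true,(-1),
  ⟨1,[(2,0),(3,0),(2,0)]⟩,⟨0,[(0,0)]⟩⟩ ⟨false,0,⟨0,[(2,0),(3,4),(9,3),(25,1),(3,5)]⟩,⟨5,[(1,1),(6,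
  1),(4,1),(31,0),(0,0)]⟩⟩,.o ⟨false,1,⟨1,[(4,1),(33,0),(7,0)]⟩,⟨0,[(32,0)]⟩⟩,.o ⟨false,1,⟨0,[(1,
  0)]⟩,⟨0,[(34,0)]⟩⟩,.o ⟨false,1,⟨4,[(0,0),(0,2),(20,0),(12,1),(2,0)]⟩,⟨0,[(19,0)]⟩⟩]⟩) (.Q [0,0,0,
  0,0,2,0,0,0,0,-1] (.p false [0,0,1] [] (⟨0,[(37,0)]⟩,⟨0,[(36,0)]⟩) .k 0 (⟨0,[]⟩,⟨0,[]⟩) .k .k)
  (.Q [0,0,-2,0,0,0,1,0,0,1,-1] (.p false [0,0,1] [1] (⟨0,[(38,0)]⟩,⟨0,[(37,0)]⟩) .k 1 (⟨0,[]⟩,⟨0,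
  []⟩) .k .k) (.Q [0,0,0,-2,0,0,-1,-1,0,-1,1] (.p true [0,0,1] [1] (⟨0,[(39,0)]⟩,⟨0,[(38,0)]⟩) .k 1
  (⟨0,[]⟩,⟨0,[]⟩) .k .k) (.R ⟨1,false,false,true,[1,-1],[0,0,1],[1,1,0,0,0,0,0,1],(⟨0,[(42,0)]⟩,⟨0,
  [(43,0)]⟩),(⟨0,[(40,0)]⟩,⟨0,[(39,0)]⟩),⟨0,[(28,0),(0,0)]⟩,.k,.k,(.r (-1) ⟨8,[(11,1),(5,3),(1,3),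
  (28,3),(0,2)]⟩ ⟨2,[(9,0),(3,0),(7,0),(3,0),(23,1)]⟩),.k,(.r 0 ⟨0,[(0,0),(0,0)]⟩ ⟨12,[(11,2),(1,
  11),(11,4),(11,5),(0,5),(10,9)]⟩),.k,⟨true,0,⟨0,[]⟩,⟨1,[(37,0),(0,0)]⟩⟩,⟨false,0,⟨0,[(1,0)]⟩,⟨35,
  [(0,1),(10,7),(13,11),(10,1),(1,31),(2,16),(7,10)]⟩⟩,⟨true,0,⟨7,[(11,1),(1,3),(7,1),(15,0),(0,
  0)]⟩,⟨1,[(0,0),(0,0),(10,0)]⟩⟩,⟨false,0,⟨0,[(16,0)]⟩,⟨3,[(0,1),(35,1),(4,0),(7,2)]⟩⟩,⟨true,0,⟨0,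
  [(13,0)]⟩,⟨3,[(0,0),(0,0),(4,0),(10,1),(1,0),(29,0)]⟩⟩,⟨true,0,⟨0,[(16,0),(29,0)]⟩,⟨0,[(0,0)]⟩⟩,
  [.o ⟨false,0,⟨0,[(35,0)]⟩,⟨1,[(7,1),(33,0),(7,0)]⟩⟩,.e ⟨false,1,⟨5,[(4,1),(6,1),(4,1),(31,0),(0,
  0)]⟩,⟨0,[(1,1),(1,0),(0,1),(4,9),(9,6),(29,8)]⟩⟩ ⟨false,1,⟨5,[(11,1),(4,1),(17,3),(13,2),(0,0)]⟩,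
  ⟨3,[(0,1),(6,1),(1,1),(31,0),(7,0)]⟩⟩,.a ⟨true,0,⟨1,[(37,0),(0,0)]⟩,⟨0,[(1,0),(36,0)]⟩⟩ ⟨false,1,
  ⟨12,[(11,6),(1,1),(11,2),(11,0),(0,0),(10,5)]⟩,⟨1,[(3,0),(2,0),(42,1)]⟩⟩ ⟨true,0,⟨2,[(16,2),(2,0),
  (24,0)]⟩,⟨3,[(0,1),(6,1),(1,1),(31,0),(7,0)]⟩⟩,.o ⟨false,0,⟨1,[(21,1),(19,0),(5,1),(1,0)]⟩,⟨0,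
  [(48,0)]⟩⟩]⟩) (.Q [0,0,-2,0,1,0,-2,-1,0,-1,2] (.p true [0,0,1] [1,0,-1] (⟨0,[(40,0)]⟩,⟨0,[(39,
  0)]⟩) .k 2 (⟨0,[(39,0)]⟩,⟨0,[(40,0)]⟩) .k (.r (-2) ⟨12,[(11,13),(1,3),(11,5),(11,1),(0,1),(10,
  11)]⟩ ⟨0,[(3,0),(2,0),(42,0)]⟩)) (.R ⟨0,false,false,false,[0,-1,1],[1,0,-1],[1,1,1],(⟨0,[(30,0)]⟩,
  ⟨1,[(3,0),(36,1),(0,0)]⟩),(⟨0,[(40,0)]⟩,⟨0,[(41,0)]⟩),⟨0,[(3,0)]⟩,.k,.k,(.r (-2) ⟨1,[(12,1),(5,1),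
  (30,0),(0,0)]⟩ ⟨1,[(4,0),(2,0),(2,1),(39,1)]⟩),(.r (-2) ⟨19,[(12,23),(5,1),(7,5),(22,0),(0,14)]⟩
  ⟨3,[(4,2),(2,2),(2,1),(2,1),(36,3)]⟩),.k,.k,⟨true,0,⟨3,[(12,1),(9,1),(15,0),(0,0)]⟩,⟨1,[(4,0),(2,
  0),(42,1)]⟩⟩,⟨false,2,⟨14,[(0,13),(4,0),(6,7),(1,1),(11,3),(12,0),(10,6)]⟩,⟨0,[(7,0),(9,0),(3,0),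
  (0,0),(27,0)]⟩⟩,⟨false,(-1),⟨0,[(7,0),(2,0),(39,0)]⟩,⟨17,[(12,9),(5,1),(1,1),(28,10),(0,14)]⟩⟩,
  ⟨true,0,⟨0,[(0,0),(6,0),(2,0),(39,0)]⟩,⟨0,[(17,0),(18,0),(11,1)]⟩⟩,⟨false,0,⟨0,[]⟩,⟨0,[]⟩⟩,⟨false,
  0,⟨0,[]⟩,⟨0,[]⟩⟩,[.e ⟨false,0,⟨23,[(12,2),(7,1),(1,2),(3,5),(18,4)]⟩,⟨1,[(49,0),(0,0)]⟩⟩ ⟨false,1,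
  ⟨0,[(0,0)]⟩,⟨0,[(17,0),(20,0),(9,0)]⟩⟩,.o ⟨false,1,⟨1,[(8,1),(33,0),(7,0)]⟩,⟨0,[(36,0)]⟩⟩,.o
  ⟨false,0,⟨0,[(38,0)]⟩,⟨0,[(5,0)]⟩⟩,.a ⟨true,(-1),⟨0,[(7,0),(9,0),(4,0),(25,0),(1,0)]⟩,⟨27,[(0,17),
  (1,8),(6,0),(2,5),(2,0),(1,5),(15,0),(5,6),(3,1),(6,2)]⟩⟩ ⟨false,0,⟨0,[]⟩,⟨19,[(12,3),(5,1),(7,5),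
  (22,0),(0,14)]⟩⟩ ⟨true,1,⟨0,[(0,0)]⟩,⟨1,[(17,1),(3,0),(0,1),(15,0),(9,2)]⟩⟩]⟩) (.R ⟨0,false,false,
  false,[0,-1,1],[1,0,-1],[1,1,1],(⟨0,[(30,0)]⟩,⟨1,[(3,0),(36,1),(0,0)]⟩),(⟨0,[(40,0)]⟩,⟨0,[(41,
  0)]⟩),⟨0,[(3,0)]⟩,.k,.k,(.r (-2) ⟨1,[(12,1),(5,1),(30,0),(0,0)]⟩ ⟨1,[(4,0),(2,0),(2,1),(39,1)]⟩),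
  (.r (-2) ⟨19,[(12,23),(5,1),(7,5),(22,0),(0,14)]⟩ ⟨3,[(4,2),(2,2),(2,1),(2,1),(36,3)]⟩),.k,.k,
  ⟨true,0,⟨3,[(12,1),(9,1),(15,0),(0,0)]⟩,⟨1,[(4,0),(2,0),(42,1)]⟩⟩,⟨false,2,⟨10,[(5,16),(2,3),(2,
  1),(0,1),(2,1),(17,1),(5,0),(3,3),(6,0)]⟩,⟨17,[(0,11),(1,1),(1,6),(2,4),(13,1),(6,3),(21,5)]⟩⟩,
  ⟨false,(-1),⟨0,[(7,0),(2,0),(39,0)]⟩,⟨17,[(12,9),(5,1),(1,1),(28,10),(0,14)]⟩⟩,⟨true,0,⟨1,[(4,2),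
  (0,1),(1,0),(31,1),(10,1)]⟩,⟨23,[(0,14),(1,2),(9,14),(7,3),(6,2),(0,5),(16,0)]⟩⟩,⟨false,0,⟨0,[]⟩,
  ⟨0,[]⟩⟩,⟨false,0,⟨0,[]⟩,⟨0,[]⟩⟩,[.a ⟨true,0,⟨0,[(8,0)]⟩,⟨60,[(0,12),(11,2),(2,1),(1,41),(2,12),
  (10,1),(1,1),(5,6),(3,3),(6,7)]⟩⟩ ⟨false,0,⟨23,[(12,2),(7,1),(1,2),(3,5),(18,4)]⟩,⟨1,[(49,0),(0,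
  0)]⟩⟩ ⟨true,1,⟨0,[(5,0),(2,0)]⟩,⟨0,[(0,0)]⟩⟩,.o ⟨false,1,⟨1,[(8,1),(33,0),(7,0)]⟩,⟨0,[(36,0)]⟩⟩,
  .o ⟨false,0,⟨0,[(38,0)]⟩,⟨0,[(5,0)]⟩⟩,.e ⟨false,0,⟨0,[]⟩,⟨19,[(12,3),(5,1),(7,5),(22,0),(0,14)]⟩⟩
  ⟨false,2,⟨1,[(5,1),(2,1),(40,0),(0,0)]⟩,⟨0,[(0,0)]⟩⟩]⟩))) (.R ⟨1,true,false,true,[1,0,-1],[0,1],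
  [0,0,0,-1,0,0,0,-1],(⟨0,[(38,0)]⟩,⟨0,[(39,0)]⟩),(⟨0,[(42,0)]⟩,⟨0,[(41,0)]⟩),⟨0,[(27,0)]⟩,.k,.k,.k,
  .k,(.r 0 ⟨0,[(2,0),(15,0),(29,0)]⟩ ⟨10,[(0,5),(9,2),(1,5),(2,5),(8,6),(23,7)]⟩),.k,⟨false,1,⟨1,
  [(5,0),(5,0),(6,0),(28,0),(0,1)]⟩,⟨0,[(12,0)]⟩⟩,⟨true,0,⟨0,[(33,0)]⟩,⟨0,[(0,0)]⟩⟩,⟨true,0,⟨0,[(46,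
  0)]⟩,⟨0,[(45,0)]⟩⟩,⟨false,0,⟨0,[(15,0)]⟩,⟨7,[(0,1),(5,5),(9,1),(1,1),(21,2),(7,4)]⟩⟩,⟨false,1,⟨19,
  [(10,3),(5,1),(7,5),(22,0),(0,14)]⟩,⟨0,[]⟩⟩,⟨true,0,⟨0,[(15,0),(29,0)]⟩,⟨0,[(0,0),(1,0),(15,0),
  (29,0)]⟩⟩,[]⟩)) (.Q [0,0,0,0,1,0,0,0,-1,-1,0,1] (.p true [0,0,0,0,1] [1] (⟨0,[(31,0)]⟩,⟨0,[(30,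
  0)]⟩) .k 1 (⟨0,[]⟩,⟨0,[]⟩) .k .k) (.Q [0,0,-2,0,0,0,1,0,0,1,-1] (.p false [0,0,1] [1] (⟨0,[(39,
  0)]⟩,⟨0,[(38,0)]⟩) .k 1 (⟨0,[]⟩,⟨0,[]⟩) .k .k) (.Q [0,0,0,-2,0,0,-1,-1,0,-1,1] (.p true [0,0,1]
  [1] (⟨0,[(40,0)]⟩,⟨0,[(39,0)]⟩) .k 1 (⟨0,[]⟩,⟨0,[]⟩) .k .k) (.R ⟨1,false,false,true,[1,-1],[0,0,
  1],[1,1,0,0,0,0,0,1],(⟨0,[(43,0)]⟩,⟨0,[(44,0)]⟩),(⟨0,[(41,0)]⟩,⟨0,[(40,0)]⟩),⟨1,[(3,0),(25,0),(13,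
  0)]⟩,.k,.k,(.r (-1) ⟨8,[(12,1),(5,3),(1,3),(28,3),(0,2)]⟩ ⟨2,[(10,0),(3,0),(7,0),(3,0),(23,1)]⟩),
  .k,(.r 0 ⟨0,[(0,0),(0,0)]⟩ ⟨12,[(12,2),(1,11),(11,4),(11,5),(0,5),(10,9)]⟩),.k,⟨true,0,⟨0,[]⟩,⟨1,
  [(38,0),(0,0)]⟩⟩,⟨false,0,⟨0,[(1,0)]⟩,⟨35,[(0,1),(11,7),(13,11),(10,1),(1,31),(2,16),(7,10)]⟩⟩,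
  ⟨true,0,⟨7,[(12,1),(1,3),(7,1),(15,0),(0,0)]⟩,⟨1,[(0,0),(0,0),(11,0)]⟩⟩,⟨false,0,⟨0,[(17,0)]⟩,⟨3,
  [(0,1),(36,1),(4,0),(7,2)]⟩⟩,⟨true,0,⟨0,[(14,0)]⟩,⟨3,[(0,0),(0,0),(5,0),(10,1),(1,0),(29,0)]⟩⟩,
  ⟨true,0,⟨0,[(17,0),(29,0)]⟩,⟨0,[(0,0)]⟩⟩,[.o ⟨false,0,⟨0,[(36,0)]⟩,⟨1,[(8,1),(33,0),(7,0)]⟩⟩,.e
  ⟨false,1,⟨5,[(5,1),(6,1),(4,1),(31,0),(0,0)]⟩,⟨0,[(1,1),(2,0),(0,1),(4,9),(9,6),(29,8)]⟩⟩ ⟨false,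
  1,⟨5,[(12,1),(4,1),(17,3),(13,2),(0,0)]⟩,⟨3,[(0,1),(7,1),(1,1),(31,0),(7,0)]⟩⟩,.a ⟨true,0,⟨1,[(38,
  0),(0,0)]⟩,⟨0,[(1,0),(37,0)]⟩⟩ ⟨false,1,⟨12,[(12,6),(1,1),(11,2),(11,0),(0,0),(10,5)]⟩,⟨1,[(4,0),
  (2,0),(42,1)]⟩⟩ ⟨true,0,⟨2,[(17,2),(2,0),(24,0)]⟩,⟨3,[(0,1),(7,1),(1,1),(31,0),(7,0)]⟩⟩,.o ⟨false,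
  0,⟨3,[(0,1),(21,3),(13,1),(5,0),(7,2)]⟩,⟨0,[(49,0)]⟩⟩]⟩) (.Q [0,0,0,0,0,2,0,0,0,-1,1] (.p true [0,
  0,1] [1] (⟨0,[(41,0)]⟩,⟨0,[(40,0)]⟩) .k 1 (⟨0,[]⟩,⟨0,[]⟩) .k .k) (.R ⟨0,false,false,false,[1,-1,
  -1],[1,-1],[0,0,-1,-1],(⟨0,[(30,0)]⟩,⟨1,[(0,0),(40,0),(0,1)]⟩),(⟨0,[(44,0)]⟩,⟨0,[(45,0)]⟩),⟨0,[(0,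
  0)]⟩,.k,.k,(.r 0 ⟨0,[(5,0),(15,0),(29,0)]⟩ ⟨12,[(13,2),(1,11),(11,4),(11,5),(0,5),(10,9)]⟩),.k,.k,
  .k,⟨false,1,⟨19,[(13,3),(5,1),(7,5),(22,10),(0,4)]⟩,⟨0,[]⟩⟩,⟨true,0,⟨0,[(24,0)]⟩,⟨0,[(40,0)]⟩⟩,
  ⟨true,1,⟨12,[(13,6),(1,1),(11,2),(11,0),(0,0),(10,5)]⟩,⟨0,[(7,0)]⟩⟩,⟨false,1,⟨0,[(37,0),(13,0)]⟩,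
  ⟨0,[(9,0)]⟩⟩,⟨false,0,⟨0,[]⟩,⟨0,[]⟩⟩,⟨false,0,⟨0,[]⟩,⟨0,[]⟩⟩,[.a ⟨true,0,⟨0,[(49,0)]⟩,⟨0,[(9,0),
  (8,0)]⟩⟩ ⟨false,1,⟨17,[(13,1),(5,3),(1,3),(28,12),(0,2)]⟩,⟨5,[(11,0),(3,0),(7,0),(3,0),(23,1)]⟩⟩
  ⟨true,0,⟨0,[(22,0)]⟩,⟨5,[(11,0),(3,0),(7,0),(3,0),(12,5),(10,1)]⟩⟩,.o ⟨false,1,⟨1,[(43,0),(5,1),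
  (1,0)]⟩,⟨0,[(48,0)]⟩⟩,.a ⟨true,0,⟨0,[(40,0)]⟩,⟨0,[(36,0)]⟩⟩ ⟨false,1,⟨8,[(13,0),(5,1),(1,1),(28,
  1),(0,5)]⟩,⟨5,[(11,0),(3,0),(7,0),(3,0),(23,1)]⟩⟩ ⟨true,0,⟨0,[(22,0)]⟩,⟨1,[(15,0),(22,0),(1,0)]⟩⟩,
  .a ⟨true,0,⟨1,[(39,0),(0,2)]⟩,⟨0,[(2,0)]⟩⟩ ⟨true,1,⟨17,[(13,1),(5,3),(1,3),(28,12),(0,2)]⟩,⟨0,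
  [(23,0)]⟩⟩ ⟨false,1,⟨1,[(22,1),(27,0),(0,0)]⟩,⟨5,[(11,0),(3,0),(7,0),(3,0),(12,5),(10,1)]⟩⟩]⟩)
  (.I [0,0,2,1,0,0,0,1] (.S ⟨1,0,[0,0,-1,-2,0,0,0,-1],[1,-1,-1],[1,1,-1,-1,0,0,0,-1],(⟨0,[(31,0)]⟩,
  ⟨0,[(43,0),(2,0)]⟩),⟨0,[(1,0)]⟩,.k,(.r 0 ⟨0,[(6,0),(15,0),(29,0)]⟩ ⟨10,[(0,5),(13,2),(1,5),(11,6),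
  (23,7)]⟩),⟨false,0,⟨0,[]⟩,⟨19,[(14,3),(5,1),(7,5),(22,0),(0,14)]⟩⟩,⟨true,0,⟨0,[(50,0)]⟩,⟨0,[(49,
  0)]⟩⟩,⟨true,0,⟨0,[(49,0)]⟩,⟨0,[(50,0)]⟩⟩,⟨false,1,⟨19,[(14,3),(5,1),(7,5),(22,0),(0,14)]⟩,⟨0,[]⟩⟩,
  [.e ⟨false,0,⟨0,[(9,0),(41,0)]⟩,⟨10,[(0,3),(13,1),(1,3),(11,0),(23,8)]⟩⟩ ⟨false,0,⟨0,[(6,0),(15,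
  0),(29,0)]⟩,⟨26,[(2,0),(4,0),(6,5),(1,23),(11,9),(23,19)]⟩⟩,.o ⟨false,1,⟨9,[(9,3),(0,1),(9,3),(1,
  3),(18,7),(2,4),(7,8)]⟩,⟨1,[(2,0),(4,0),(4,0),(10,0),(5,0)]⟩⟩,.a ⟨true,0,⟨0,[(41,0)]⟩,⟨0,[(37,
  0)]⟩⟩ ⟨false,0,⟨7,[(3,1),(3,1),(1,4),(5,2),(6,0),(29,2)]⟩,⟨10,[(0,3),(13,1),(1,3),(11,0),(23,
  8)]⟩⟩ ⟨true,0,⟨1,[(9,0),(5,0),(6,0),(29,0)]⟩,⟨0,[(16,0)]⟩⟩,.e ⟨true,0,⟨0,[(9,0),(41,0)]⟩,⟨0,[(0,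
  0)]⟩⟩ ⟨true,0,⟨0,[(6,0),(15,0),(29,0)]⟩,⟨14,[(0,7),(13,0),(1,8),(7,0),(3,3)]⟩⟩]⟩) (.Q [0,-1,0,0,1,
  0,0,0,-1,0,0,1] (.p true [0,0,0,0,1] [] (⟨0,[(36,0)]⟩,⟨0,[(35,0)]⟩) .k 0 (⟨0,[]⟩,⟨0,[]⟩) .k .k)
  (.Q [0,0,-1,0,1,0,0,0,-1,-1,0,1] (.p true [0,0,0,0,1] [1] (⟨0,[(37,0)]⟩,⟨0,[(36,0)]⟩) .k 1 (⟨0,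
  []⟩,⟨0,[]⟩) .k .k) (.Q [0,0,0,0,0,-1,0,0,0,0,0,1] (.ed false [1,-1,0,0,1] .k) (.S ⟨1,0,[0,2,0,-1],
  [0,0,0,0,1],[1,1],(⟨0,[(39,0)]⟩,⟨0,[(38,0)]⟩),⟨0,[(0,0)]⟩,.k,(.r 0 ⟨2,[(25,0),(24,0)]⟩ ⟨12,[(17,
  0),(1,3),(11,5),(11,1),(0,1),(10,11)]⟩),⟨true,0,⟨0,[]⟩,⟨23,[(17,2),(7,1),(1,2),(3,5),(18,4)]⟩⟩,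
  ⟨false,0,⟨0,[(53,0)]⟩,⟨2,[(5,0),(4,0),(20,0),(23,1)]⟩⟩,⟨false,1,⟨2,[(5,0),(4,0),(20,0),(23,1)]⟩,
  ⟨0,[(53,0)]⟩⟩,⟨true,0,⟨23,[(17,2),(7,1),(1,2),(3,5),(18,4)]⟩,⟨0,[]⟩⟩,[.o ⟨false,(-1),⟨2,[(24,0),
  (0,1),(1,1),(9,1)]⟩,⟨5,[(1,3),(13,1),(0,1),(30,0),(7,6)]⟩⟩,.a ⟨true,(-1),⟨0,[(30,0),(22,0)]⟩,⟨2,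
  [(1,0),(0,1),(2,0),(3,0),(34,0),(10,0)]⟩⟩ ⟨true,0,⟨0,[]⟩,⟨1,[(43,0),(0,0)]⟩⟩ ⟨false,0,⟨2,[(25,0),
  (24,0)]⟩,⟨2,[(5,0),(4,0),(20,0),(23,1)]⟩⟩,.o ⟨false,0,⟨0,[(37,0)]⟩,⟨0,[(7,0)]⟩⟩,.o ⟨false,0,⟨1,
  [(37,1),(5,0),(0,0)]⟩,⟨0,[(1,0)]⟩⟩]⟩) (.R ⟨0,false,false,true,[0,0,0,0,1],[0,1],[1,1,1,1],(⟨0,
  [(39,0)]⟩,⟨0,[(38,0)]⟩),(⟨0,[(49,0)]⟩,⟨0,[(48,0)]⟩),⟨0,[(0,0)]⟩,.k,.k,(.r 0 ⟨2,[(25,0),(24,0)]⟩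
  ⟨12,[(17,0),(1,3),(11,5),(11,1),(0,1),(10,11)]⟩),(.r 0 ⟨2,[(25,0),(24,0)]⟩ ⟨12,[(17,0),(1,3),(11,
  5),(11,1),(0,1),(10,11)]⟩),.k,.k,⟨true,0,⟨0,[]⟩,⟨1,[(43,0),(0,0)]⟩⟩,⟨false,1,⟨0,[(1,0),(4,0),(37,
  0)]⟩,⟨1,[(37,1),(5,0),(0,0)]⟩⟩,⟨true,0,⟨5,[(15,0),(3,0),(7,0),(3,0),(23,1)]⟩,⟨2,[(25,0),(24,0)]⟩⟩,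
  ⟨false,1,⟨2,[(1,0),(0,1),(2,0),(3,0),(34,0),(10,0)]⟩,⟨0,[(37,0),(15,0)]⟩⟩,⟨false,0,⟨0,[]⟩,⟨0,[]⟩⟩,
  ⟨false,0,⟨0,[]⟩,⟨0,[]⟩⟩,[.o ⟨false,0,⟨0,[(52,0)]⟩,⟨1,[(47,0),(5,1),(1,0)]⟩⟩,.a ⟨true,0,⟨1,[(2,0),
  (2,0),(7,0),(16,0)]⟩,⟨0,[(53,0)]⟩⟩ ⟨true,0,⟨5,[(15,0),(3,0),(7,0),(3,0),(23,1)]⟩,⟨0,[(53,0)]⟩⟩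
  ⟨false,1,⟨0,[(2,0),(48,0)]⟩,⟨0,[(37,0),(15,0)]⟩⟩,.o ⟨false,0,⟨0,[(37,0)]⟩,⟨0,[(7,0)]⟩⟩,.o ⟨false,
  0,⟨1,[(37,1),(5,0),(0,0)]⟩,⟨0,[(1,0)]⟩⟩]⟩)) (.Q [0,0,0,0,0,-1,0,0,0,0,0,1] (.ed false [1,-1,0,0,
  1] .k) (.S ⟨1,0,[0,1,0,-1],[0,0,0,0,1],[1,2],(⟨0,[(39,0)]⟩,⟨0,[(38,0)]⟩),⟨0,[(0,0)]⟩,.k,(.r 0 ⟨2,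
  [(25,0),(24,0)]⟩ ⟨12,[(17,0),(1,3),(11,5),(11,1),(0,1),(10,11)]⟩),⟨false,0,⟨0,[]⟩,⟨19,[(17,3),(5,
  1),(7,5),(22,0),(0,14)]⟩⟩,⟨true,0,⟨0,[(53,0)]⟩,⟨0,[(52,0)]⟩⟩,⟨true,0,⟨0,[(52,0)]⟩,⟨0,[(53,0)]⟩⟩,
  ⟨false,1,⟨19,[(17,3),(5,1),(7,5),(22,0),(0,14)]⟩,⟨0,[]⟩⟩,[.e ⟨false,0,⟨0,[(50,0)]⟩,⟨0,[(55,0)]⟩⟩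
  ⟨false,0,⟨2,[(25,0),(24,0)]⟩,⟨2,[(5,0),(4,0),(20,0),(23,1)]⟩⟩,.o ⟨false,0,⟨0,[(37,0),(15,0)]⟩,⟨0,
  [(2,0),(7,0),(4,0),(10,0)]⟩⟩,.o ⟨false,0,⟨0,[(37,0)]⟩,⟨0,[(7,0)]⟩⟩,.a ⟨true,(-1),⟨0,[(1,0)]⟩,⟨0,
  [(14,0)]⟩⟩ ⟨false,0,⟨5,[(25,0),(24,0),(0,2)]⟩,⟨1,[(43,0),(0,0),(10,1)]⟩⟩ ⟨true,0,⟨2,[(25,0),(24,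
  0)]⟩,⟨5,[(15,0),(3,0),(7,0),(3,0),(23,1)]⟩⟩]⟩) (.Q [0,0,1,1,-1,0,0,0,1,1,0,-1] (.p false [0,0,0,0,
  1] [1] (⟨0,[(39,0)]⟩,⟨0,[(38,0)]⟩) .k 1 (⟨0,[]⟩,⟨0,[]⟩) .k .k) (.S ⟨1,0,[0,-1,0,-1],[1,0,0,0,-1],
  [1],(⟨0,[(39,0)]⟩,⟨0,[(40,0)]⟩),⟨2,[(1,0),(3,0),(3,0),(29,1)]⟩,.k,(.r (-1) ⟨8,[(18,0),(5,1),(1,1),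
  (28,1),(0,5)]⟩ ⟨15,[(18,1),(1,3),(7,1),(3,7),(11,0),(0,0)]⟩),⟨false,0,⟨0,[]⟩,⟨19,[(18,3),(5,1),(7,
  5),(22,0),(0,14)]⟩⟩,⟨true,0,⟨0,[(54,0)]⟩,⟨0,[(53,0)]⟩⟩,⟨true,0,⟨0,[(53,0)]⟩,⟨0,[(54,0)]⟩⟩,⟨false,
  1,⟨19,[(18,3),(5,1),(7,5),(22,0),(0,14)]⟩,⟨0,[]⟩⟩,[.a ⟨true,1,⟨0,[(3,0),(50,0)]⟩,⟨0,[(30,0)]⟩⟩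
  ⟨true,0,⟨0,[]⟩,⟨1,[(44,0),(0,0)]⟩⟩ ⟨false,1,⟨8,[(18,0),(5,1),(1,1),(28,1),(0,5)]⟩,⟨0,[(53,0)]⟩⟩,
  .o ⟨false,2,⟨1,[(3,1),(44,0),(5,1),(1,0)]⟩,⟨0,[(25,0)]⟩⟩,.o ⟨false,1,⟨0,[(8,0)]⟩,⟨0,[(38,0)]⟩⟩,.o
  ⟨false,1,⟨1,[(8,1),(35,0),(0,0)]⟩,⟨0,[(0,0),(10,0),(15,0)]⟩⟩]⟩) (.R ⟨0,false,false,false,[0,0,0,0,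
  1],[1,-1],[1,1,1],(⟨0,[(40,0)]⟩,⟨0,[(39,0)]⟩),(⟨0,[(49,0)]⟩,⟨0,[(50,0)]⟩),⟨0,[(1,0)]⟩,.k,.k,(.r 0
  ⟨2,[(26,0),(24,0)]⟩ ⟨12,[(18,0),(1,3),(11,5),(11,1),(0,1),(10,11)]⟩),(.r 0 ⟨15,[(18,1),(1,3),(7,
  1),(3,7),(11,0),(0,0)]⟩ ⟨8,[(18,0),(5,1),(1,1),(28,1),(0,5)]⟩),.k,.k,⟨true,(-1),⟨0,[(28,0)]⟩,⟨8,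
  [(18,0),(5,1),(1,1),(28,1),(0,5)]⟩⟩,⟨false,1,⟨0,[(8,0)]⟩,⟨1,[(31,1),(23,0),(0,0)]⟩⟩,⟨true,0,⟨1,
  [(44,0),(0,0)]⟩,⟨5,[(26,0),(24,0),(0,2)]⟩⟩,⟨false,2,⟨1,[(3,1),(44,0),(5,1),(1,0)]⟩,⟨0,[(30,0)]⟩⟩,
  ⟨false,0,⟨0,[]⟩,⟨0,[]⟩⟩,⟨false,0,⟨0,[]⟩,⟨0,[]⟩⟩,[.e ⟨false,0,⟨23,[(18,2),(7,1),(1,2),(3,5),(18,
  4)]⟩,⟨1,[(55,0),(0,0)]⟩⟩ ⟨false,1,⟨0,[(0,0)]⟩,⟨10,[(2,1),(3,4),(14,0),(8,0),(7,6),(0,0),(3,4),(5,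
  1),(6,2)]⟩⟩,.o ⟨false,1,⟨1,[(48,0),(5,1),(1,0)]⟩,⟨0,[(53,0)]⟩⟩,.o ⟨false,0,⟨0,[(38,0)]⟩,⟨0,[(8,
  0)]⟩⟩,.a ⟨true,(-1),⟨0,[(2,0)]⟩,⟨0,[(15,0)]⟩⟩ ⟨false,0,⟨0,[]⟩,⟨19,[(18,3),(5,1),(7,5),(22,0),(0,
  14)]⟩⟩ ⟨true,1,⟨0,[(0,0)]⟩,⟨3,[(2,1),(17,0),(9,0),(0,0),(0,0)]⟩⟩]⟩)))) (.R ⟨2,false,false,false,
  [0,1],[0,0,0,0,1],[0,1,1],(⟨0,[]⟩,⟨0,[]⟩),(⟨0,[(37,0)]⟩,⟨0,[(36,0)]⟩),⟨0,[]⟩,.k,.k,.k,(.r (-1)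
  ⟨12,[(15,0),(1,3),(11,5),(11,1),(0,1),(10,11)]⟩ ⟨2,[(23,0),(24,0)]⟩),.k,.k,⟨true,0,⟨1,[(41,0),(0,
  0)]⟩,⟨0,[]⟩⟩,⟨false,0,⟨0,[(35,0)]⟩,⟨0,[(12,0)]⟩⟩,⟨false,0,⟨0,[(51,0)]⟩,⟨2,[(3,0),(4,0),(20,0),(23,
  1)]⟩⟩,⟨true,(-1),⟨0,[(0,0),(50,0)]⟩,⟨0,[(14,0)]⟩⟩,⟨true,0,⟨23,[(15,2),(7,1),(1,2),(3,5),(18,4)]⟩,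
  ⟨0,[]⟩⟩,⟨true,(-1),⟨0,[(0,0)]⟩,⟨0,[(34,0)]⟩⟩,[.o ⟨false,(-1),⟨0,[(0,0)]⟩,⟨1,[(34,1),(10,0),(7,
  0)]⟩⟩,.o ⟨false,0,⟨0,[(35,0)]⟩,⟨0,[(5,0)]⟩⟩,.a ⟨true,0,⟨0,[(4,0),(37,0)]⟩,⟨1,[(41,0),(0,0)]⟩⟩
  ⟨false,0,⟨1,[(41,0),(0,0)]⟩,⟨1,[(52,0),(0,0)]⟩⟩ ⟨true,(-1),⟨1,[(0,0),(24,0),(9,0),(15,0)]⟩,⟨0,
  [(12,0)]⟩⟩,.e ⟨true,0,⟨23,[(15,2),(7,1),(1,2),(3,5),(18,4)]⟩,⟨0,[]⟩⟩ ⟨true,(-1),⟨0,[(0,0)]⟩,⟨0,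
  [(34,0)]⟩⟩]⟩))))) (.R ⟨1,true,false,true,[1,0,-1],[0,1],[0,0,0,-1,0,0,0,-1],(⟨0,[(39,0)]⟩,⟨0,[(40,
  0)]⟩),(⟨0,[(43,0)]⟩,⟨0,[(42,0)]⟩),⟨0,[(28,0)]⟩,.k,.k,.k,.k,(.r 0 ⟨0,[(3,0),(15,0),(29,0)]⟩ ⟨10,
  [(0,5),(10,2),(1,5),(2,5),(8,6),(23,7)]⟩),.k,⟨false,1,⟨1,[(6,0),(5,0),(6,0),(28,0),(0,1)]⟩,⟨0,
  [(13,0)]⟩⟩,⟨true,0,⟨0,[(34,0)]⟩,⟨0,[(0,0)]⟩⟩,⟨true,0,⟨0,[(47,0)]⟩,⟨0,[(46,0)]⟩⟩,⟨false,0,⟨0,[(16,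
  0)]⟩,⟨7,[(0,1),(6,5),(9,1),(1,1),(21,2),(7,4)]⟩⟩,⟨false,1,⟨19,[(11,3),(5,1),(7,5),(22,0),(0,14)]⟩,
  ⟨0,[]⟩⟩,⟨true,0,⟨0,[(16,0),(29,0)]⟩,⟨0,[(0,0),(2,0),(15,0),(29,0)]⟩⟩,[]⟩)) (.Q [0,0,0,0,0,-1,0,0,
  0,0,0,1] (.ed false [1,-1,0,0,1] .k) (.S ⟨1,0,[0,1,0,-1],[0,0,0,0,1],[0,2,0,-1],(⟨0,[(33,0)]⟩,⟨0,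
  [(32,0)]⟩),⟨0,[(0,0)]⟩,.k,(.r 0 ⟨2,[(19,0),(24,0)]⟩ ⟨12,[(11,0),(1,3),(11,5),(11,1),(0,1),(10,
  11)]⟩),⟨false,0,⟨0,[(47,0)]⟩,⟨7,[(13,1),(11,1),(19,1),(2,0),(0,6)]⟩⟩,⟨true,0,⟨0,[(47,0)]⟩,⟨0,[(46,
  0)]⟩⟩,⟨true,0,⟨23,[(11,2),(7,1),(1,2),(3,5),(18,4)]⟩,⟨0,[]⟩⟩,⟨false,1,⟨19,[(11,3),(5,1),(7,5),(22,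
  0),(0,14)]⟩,⟨0,[]⟩⟩,[.o ⟨false,(-1),⟨1,[(1,1),(17,0),(1,0),(19,0)]⟩,⟨1,[(10,1),(30,0),(7,0)]⟩⟩,.a
  ⟨true,(-1),⟨0,[(1,0),(45,0)]⟩,⟨0,[(10,0)]⟩⟩ ⟨false,0,⟨2,[(19,0),(24,0)]⟩,⟨7,[(13,1),(11,1),(19,1),
  (2,0),(0,6)]⟩⟩ ⟨true,0,⟨0,[(47,0)]⟩,⟨5,[(9,0),(3,0),(7,0),(3,0),(23,1)]⟩⟩,.a ⟨true,(-1),⟨0,[(1,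
  0)]⟩,⟨0,[(30,0)]⟩⟩ ⟨true,(-1),⟨0,[(9,0),(9,0)]⟩,⟨7,[(13,1),(11,1),(19,1),(2,0),(0,6)]⟩⟩ ⟨false,0,
  ⟨0,[(47,0)]⟩,⟨7,[(13,1),(11,1),(19,1),(2,0),(0,6)]⟩⟩,.a ⟨true,(-1),⟨1,[(1,1),(35,0),(0,0)]⟩,⟨0,
  [(8,0)]⟩⟩ ⟨false,0,⟨2,[(19,0),(24,0)]⟩,⟨5,[(9,0),(3,0),(7,0),(3,0),(23,7)]⟩⟩ ⟨true,0,⟨2,[(19,0),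
  (24,0)]⟩,⟨5,[(9,0),(3,0),(7,0),(3,0),(23,1)]⟩⟩]⟩) (.Q [0,-2,0,-1,2,0,0,0,-1,-1,0,1] (.p true [0,0,
  0,0,1] [1] (⟨0,[(33,0)]⟩,⟨0,[(32,0)]⟩) .k 1 (⟨0,[]⟩,⟨0,[]⟩) .k .k) (.S ⟨1,0,[0,-1,0,-1],[1,0,0,0,
  -1],[1],(⟨0,[(33,0)]⟩,⟨0,[(34,0)]⟩),⟨1,[(1,0),(1,0),(25,0),(3,0)]⟩,.k,(.r (-1) ⟨39,[(0,1),(11,1),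
  (7,11),(7,1),(3,1),(4,3),(11,6),(0,26)]⟩ ⟨15,[(12,1),(1,3),(7,1),(3,7),(11,0),(0,0)]⟩),⟨false,0,
  ⟨0,[]⟩,⟨35,[(0,1),(11,5),(13,7),(1,1),(3,1),(4,3),(11,0),(0,24)]⟩⟩,⟨true,0,⟨0,[(48,0)]⟩,⟨0,[(47,
  0)]⟩⟩,⟨true,0,⟨0,[(47,0)]⟩,⟨0,[(48,0)]⟩⟩,⟨false,1,⟨35,[(0,1),(11,5),(13,7),(1,1),(3,1),(4,3),(11,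
  0),(0,24)]⟩,⟨0,[]⟩⟩,[.o ⟨false,2,⟨53,[(0,43),(11,7),(7,6),(1,2),(3,15),(4,9),(10,4)]⟩,⟨0,[(2,0),
  (2,0),(4,0),(10,0)]⟩⟩,.o ⟨false,2,⟨0,[(0,0)]⟩,⟨0,[(19,0)]⟩⟩,.a ⟨true,1,⟨0,[(31,0)]⟩,⟨0,[(2,0)]⟩⟩
  ⟨true,0,⟨0,[]⟩,⟨23,[(12,2),(7,1),(1,2),(3,5),(18,4)]⟩⟩ ⟨false,1,⟨0,[(0,0),(1,0)]⟩,⟨0,[(47,0)]⟩⟩,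
  .o ⟨false,1,⟨9,[(0,3),(8,1),(10,0),(1,6),(8,3),(10,2)]⟩,⟨1,[(2,1),(39,0),(6,0)]⟩⟩]⟩) (.Q [0,0,1,1,
  -1,0,1,1,1,1,-1,-1] (.p false [0,0,1] [1,0,0,0,-1] (⟨0,[(41,0)]⟩,⟨0,[(40,0)]⟩) .k 2 (⟨0,[(33,0)]⟩,
  ⟨0,[(34,0)]⟩) .k (.r (-1) ⟨25,[(12,19),(1,1),(11,15),(11,0),(0,0),(10,5)]⟩ ⟨1,[(4,0),(2,0),(42,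
  1)]⟩)) (.R ⟨0,false,false,false,[0,0,0,0,1],[1,0,-1],[0,1,1],(⟨0,[(35,0)]⟩,⟨0,[(34,0)]⟩),(⟨0,[(41,
  0)]⟩,⟨0,[(42,0)]⟩),⟨0,[(2,0)]⟩,.k,.k,(.r 0 ⟨2,[(21,0),(24,0)]⟩ ⟨12,[(13,0),(1,3),(11,5),(11,1),(0,
  1),(10,11)]⟩),.k,.k,.k,⟨true,0,⟨3,[(13,1),(9,1),(15,0),(0,0)]⟩,⟨1,[(5,0),(2,0),(42,1)]⟩⟩,⟨false,2,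
  ⟨0,[(6,0),(25,0)]⟩,⟨0,[(3,0),(20,0)]⟩⟩,⟨true,0,⟨1,[(39,0),(0,0)]⟩,⟨5,[(21,0),(24,0),(0,2)]⟩⟩,
  ⟨false,2,⟨1,[(5,0),(2,0),(1,1),(29,1),(2,0),(7,2)]⟩,⟨6,[(0,4),(0,0),(11,0),(6,0),(0,1),(7,0)]⟩⟩,
  ⟨false,0,⟨0,[]⟩,⟨0,[]⟩⟩,⟨false,0,⟨0,[]⟩,⟨0,[]⟩⟩,[.a ⟨true,0,⟨0,[(9,0)]⟩,⟨0,[(18,0),(30,0)]⟩⟩
  ⟨false,0,⟨23,[(13,2),(7,1),(1,2),(3,5),(18,4)]⟩,⟨1,[(50,0),(0,0)]⟩⟩ ⟨true,1,⟨1,[(5,0),(2,0),(1,1),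
  (29,1),(2,0),(7,0)]⟩,⟨0,[(0,0),(48,0)]⟩⟩,.o ⟨false,1,⟨1,[(9,1),(33,0),(7,0)]⟩,⟨0,[(37,0)]⟩⟩,.a
  ⟨true,(-1),⟨0,[(3,0)]⟩,⟨0,[(32,0)]⟩⟩ ⟨false,0,⟨1,[(39,0),(0,0)]⟩,⟨1,[(50,0),(0,0)]⟩⟩ ⟨true,1,⟨1,
  [(5,0),(2,0),(1,1),(29,1),(2,0),(7,0)]⟩,⟨6,[(0,4),(0,0),(11,0),(6,0),(0,1),(7,0)]⟩⟩,.a ⟨true,(-1),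
  ⟨1,[(3,1),(35,0),(0,0)]⟩,⟨0,[(10,0)]⟩⟩ ⟨true,0,⟨23,[(13,2),(7,1),(1,2),(3,5),(18,4)]⟩,⟨0,[]⟩⟩
  ⟨false,2,⟨1,[(9,1),(0,1),(32,0),(7,0)]⟩,⟨0,[(0,0),(48,0)]⟩⟩]⟩) (.R ⟨0,false,false,false,[0,0,0,0,
  1],[1,-1,-1],[0,1,0,-1],(⟨0,[(35,0)]⟩,⟨0,[(34,0)]⟩),(⟨0,[(30,0)]⟩,⟨0,[(42,0),(2,0)]⟩),⟨0,[(2,0)]⟩,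
  .k,.k,(.r 0 ⟨2,[(21,0),(24,0)]⟩ ⟨12,[(13,0),(1,3),(11,5),(11,1),(0,1),(10,11)]⟩),(.r 0 ⟨7,[(13,1),
  (1,3),(7,1),(15,0),(0,0)]⟩ ⟨1,[(19,1),(30,0),(0,0)]⟩),.k,.k,⟨true,0,⟨3,[(13,1),(9,1),(15,0),(0,
  0)]⟩,⟨1,[(5,0),(2,0),(42,1)]⟩⟩,⟨false,2,⟨17,[(6,7),(6,1),(13,1),(4,17),(5,1),(1,7),(2,4),(7,2)]⟩,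
  ⟨0,[(1,0),(20,0),(28,0)]⟩⟩,⟨true,0,⟨0,[(49,0)]⟩,⟨0,[(48,0)]⟩⟩,⟨false,2,⟨1,[(0,1),(38,0),(0,0),(10,
  1)]⟩,⟨0,[(3,0),(24,0)]⟩⟩,⟨false,0,⟨0,[]⟩,⟨0,[]⟩⟩,⟨false,0,⟨0,[]⟩,⟨0,[]⟩⟩,[.e ⟨false,0,⟨2,[(21,0),
  (24,0)]⟩,⟨7,[(15,1),(11,1),(19,1),(2,0),(0,6)]⟩⟩ ⟨false,1,⟨0,[(0,0)]⟩,⟨0,[(18,0),(14,0)]⟩⟩,.o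
  ⟨false,1,⟨9,[(8,1),(0,5),(9,1),(1,1),(18,3),(2,4),(7,6)]⟩,⟨0,[(28,0)]⟩⟩,.a ⟨true,(-1),⟨0,[(3,0)]⟩,
  ⟨0,[(32,0)]⟩⟩ ⟨false,0,⟨0,[(49,0)]⟩,⟨7,[(15,1),(11,1),(19,1),(2,0),(0,6)]⟩⟩ ⟨true,1,⟨1,[(0,1),(38,
  0),(0,0)]⟩,⟨0,[(3,0),(24,0)]⟩⟩,.e ⟨true,0,⟨2,[(21,0),(24,0)]⟩,⟨5,[(11,0),(3,0),(7,0),(3,0),(23,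
  1)]⟩⟩ ⟨true,1,⟨0,[(0,0)]⟩,⟨1,[(3,0),(14,0),(4,0),(9,0),(3,0)]⟩⟩]⟩)))))))) (.S ⟨1,0,[0,0,0,-1,0,0,
  0,-1],[1,0,-1],[1,1,0,0,0,0,0,-1],(⟨0,[(34,0)]⟩,⟨0,[(35,0)]⟩),⟨0,[(23,0)]⟩,.k,.k,⟨false,0,⟨0,[]⟩,
  ⟨19,[(6,3),(5,1),(7,5),(22,0),(0,14)]⟩⟩,⟨true,0,⟨0,[(42,0)]⟩,⟨0,[(41,0)]⟩⟩,⟨true,0,⟨0,[(41,0)]⟩,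
  ⟨0,[(42,0)]⟩⟩,⟨false,1,⟨19,[(6,3),(5,1),(7,5),(22,0),(0,14)]⟩,⟨0,[]⟩⟩,[.e ⟨false,0,⟨3,[(1,0),(5,
  2),(31,0),(0,0),(2,0)]⟩,⟨0,[(0,0)]⟩⟩ ⟨false,0,⟨1,[(1,1),(41,0),(0,0)]⟩,⟨20,[(0,13),(5,0),(1,8),
  (11,3),(22,5)]⟩⟩,.o ⟨false,1,⟨9,[(1,1),(0,5),(9,1),(1,1),(18,3),(2,4),(7,6)]⟩,⟨0,[(21,0)]⟩⟩,.o
  ⟨false,1,⟨1,[(33,1),(2,0),(6,0)]⟩,⟨0,[(17,0)]⟩⟩,.a ⟨true,0,⟨0,[(33,0)]⟩,⟨0,[(29,0)]⟩⟩ ⟨false,0,⟨0,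
  [(1,0),(38,0),(3,0)]⟩,⟨1,[(0,1),(31,0),(0,0)]⟩⟩ ⟨true,0,⟨1,[(1,1),(41,0),(0,0)]⟩,⟨14,[(0,1),(5,3),
  (1,5),(7,5),(3,0)]⟩⟩]⟩)))) (.Q [0,0,0,0,0,-1,0,0,0,0,0,1] (.ed false [1,-1,0,0,1] .k) (.Q [0,0,0,
  -1,-1,0,0,0,1,1,0,-1] (.p false [0,0,0,0,1] [1] (⟨0,[(26,0)]⟩,⟨0,[(25,0)]⟩) .k 1 (⟨0,[]⟩,⟨0,[]⟩)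
  .k .k) (.S ⟨1,0,[0,1,0,-1],[0,0,0,0,1],[1,2],(⟨0,[(27,0)]⟩,⟨0,[(26,0)]⟩),⟨0,[(1,0)]⟩,.k,(.r 0 ⟨2,
  [(13,0),(24,0)]⟩ ⟨12,[(5,0),(1,3),(11,5),(11,1),(0,1),(10,11)]⟩),⟨false,0,⟨0,[]⟩,⟨19,[(5,3),(5,1),
  (7,5),(22,0),(0,14)]⟩⟩,⟨true,0,⟨0,[(41,0)]⟩,⟨0,[(40,0)]⟩⟩,⟨true,0,⟨0,[(40,0)]⟩,⟨0,[(41,0)]⟩⟩,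
  ⟨false,1,⟨19,[(5,3),(5,1),(7,5),(22,0),(0,14)]⟩,⟨0,[]⟩⟩,[.o ⟨false,(-1),⟨8,[(2,5),(9,1),(0,3),(1,
  0),(9,0)]⟩,⟨1,[(4,1),(30,0),(7,0)]⟩⟩,.a ⟨true,(-1),⟨0,[(0,0)]⟩,⟨0,[(4,0)]⟩⟩ ⟨false,0,⟨5,[(13,0),
  (24,0),(0,2)]⟩,⟨19,[(5,3),(5,1),(7,5),(22,0),(0,14)]⟩⟩ ⟨true,0,⟨0,[(41,0)]⟩,⟨5,[(3,0),(3,0),(7,0),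
  (3,0),(23,1)]⟩⟩,.e ⟨false,0,⟨23,[(5,2),(7,1),(1,2),(3,5),(18,4)]⟩,⟨0,[(43,0)]⟩⟩ ⟨false,0,⟨0,[(41,
  0)]⟩,⟨7,[(7,1),(11,1),(19,1),(2,0),(0,6)]⟩⟩,.o ⟨false,(-1),⟨0,[(2,0)]⟩,⟨1,[(24,1),(10,0),(6,
  0)]⟩⟩]⟩) (.Q [0,0,0,1,0,0,0,0,0,1] (.pp false [-1,1]) (.R ⟨1,false,false,true,[0,0,0,0,1],[0,1],
  [1,2],(⟨0,[(28,0)]⟩,⟨0,[(27,0)]⟩),(⟨0,[(38,0)]⟩,⟨0,[(37,0)]⟩),⟨0,[(2,0)]⟩,.k,.k,(.r 0 ⟨2,[(14,0),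
  (24,0)]⟩ ⟨12,[(6,0),(1,3),(11,5),(11,1),(0,1),(10,11)]⟩),(.r 0 ⟨2,[(14,0),(24,0)]⟩ ⟨12,[(6,0),(1,
  3),(11,5),(11,1),(0,1),(10,11)]⟩),(.r (-1) ⟨14,[(6,6),(5,10),(1,4),(5,2),(22,7)]⟩ ⟨0,[(4,0),(39,
  0)]⟩),.k,⟨true,0,⟨2,[(14,0),(24,0)]⟩,⟨0,[(16,0),(27,0)]⟩⟩,⟨false,2,⟨0,[(25,0),(17,0)]⟩,⟨0,[(3,
  0)]⟩⟩,⟨false,0,⟨0,[]⟩,⟨19,[(6,3),(5,1),(7,5),(22,0),(0,14)]⟩⟩,⟨true,1,⟨0,[(5,0)]⟩,⟨8,[(3,5),(9,1),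
  (0,3),(1,0),(9,0)]⟩⟩,⟨true,0,⟨0,[(41,0)]⟩,⟨0,[(42,0)]⟩⟩,⟨true,1,⟨0,[(0,0),(0,0)]⟩,⟨7,[(3,5),(10,
  5),(1,1),(9,1),(5,0),(0,0)]⟩⟩,[.o ⟨false,0,⟨0,[(41,0)]⟩,⟨1,[(36,0),(5,1),(1,0)]⟩⟩,.a ⟨true,0,⟨0,
  [(0,0)]⟩,⟨0,[(42,0)]⟩⟩ ⟨false,0,⟨5,[(14,0),(24,0),(0,2)]⟩,⟨19,[(6,3),(5,1),(7,5),(22,0),(0,14)]⟩⟩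
  ⟨true,1,⟨0,[(5,0)]⟩,⟨0,[(3,0),(38,0)]⟩⟩,.o ⟨false,0,⟨0,[(26,0)]⟩,⟨0,[(1,0),(40,0)]⟩⟩,.o ⟨false,
  (-1),⟨0,[(3,0)]⟩,⟨1,[(25,1),(10,0),(6,0)]⟩⟩]⟩) (.S ⟨1,0,[0,1,1,0,0,0,0,1],[0,1,1],[0,0,1,0,0,0,0,
  1],(⟨0,[(35,0),(2,0)]⟩,⟨0,[(23,0)]⟩),⟨0,[(35,0)]⟩,.k,.k,⟨true,0,⟨0,[(42,0)]⟩,⟨0,[(41,0)]⟩⟩,⟨false,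
  0,⟨0,[(42,0)]⟩,⟨7,[(8,1),(11,1),(19,1),(2,0),(0,6)]⟩⟩,⟨false,1,⟨19,[(6,3),(5,1),(7,5),(22,0),(0,
  14)]⟩,⟨0,[]⟩⟩,⟨true,0,⟨23,[(6,2),(7,1),(1,2),(3,5),(18,4)]⟩,⟨0,[]⟩⟩,[.o ⟨false,0,⟨0,[(30,0)]⟩,⟨0,
  [(0,0),(6,0),(25,0),(6,0),(3,0)]⟩⟩,.o ⟨false,0,⟨0,[(0,0),(10,0)]⟩,⟨1,[(31,1),(4,0),(7,0)]⟩⟩,.a
  ⟨true,0,⟨0,[(29,0)]⟩,⟨0,[(33,0)]⟩⟩ ⟨true,0,⟨0,[(0,0),(10,0),(21,0)]⟩,⟨5,[(7,5),(6,0),(24,0),(0,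
  2)]⟩⟩ ⟨false,0,⟨0,[(0,0),(10,0),(21,0)]⟩,⟨1,[(7,1),(35,0),(0,0)]⟩⟩,.o ⟨false,0,⟨0,[(17,0)]⟩,⟨1,
  [(33,1),(2,0),(6,0)]⟩⟩]⟩))) (.Q [0,0,0,1,0,0,0,0,0,1] (.pp false [-1,1]) (.R ⟨0,false,false,true,
  [0,0,0,0,1],[0,1],[],(⟨0,[(27,0)]⟩,⟨0,[(26,0)]⟩),(⟨0,[(37,0)]⟩,⟨0,[(36,0)]⟩),⟨0,[(1,0)]⟩,.k,.k,
  (.r 0 ⟨2,[(13,0),(24,0)]⟩ ⟨12,[(5,0),(1,3),(11,5),(11,1),(0,1),(10,11)]⟩),(.r 0 ⟨2,[(13,0),(24,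
  0)]⟩ ⟨12,[(5,0),(1,3),(11,5),(11,1),(0,1),(10,11)]⟩),.k,.k,⟨true,1,⟨8,[(5,0),(5,1),(1,1),(28,1),
  (0,5)]⟩,⟨0,[(15,0)]⟩⟩,⟨false,2,⟨0,[(24,0),(17,0)]⟩,⟨0,[(2,0)]⟩⟩,⟨false,1,⟨0,[(43,0)]⟩,⟨23,[(5,2),
  (7,1),(1,2),(3,5),(18,4)]⟩⟩,⟨true,1,⟨0,[(4,0)]⟩,⟨8,[(2,5),(9,1),(0,3),(1,0),(9,0)]⟩⟩,⟨false,0,⟨0,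
  []⟩,⟨0,[]⟩⟩,⟨false,0,⟨0,[]⟩,⟨0,[]⟩⟩,[.o ⟨false,0,⟨0,[(40,0)]⟩,⟨1,[(35,0),(5,1),(1,0)]⟩⟩,.a ⟨true,
  0,⟨0,[(0,0)]⟩,⟨0,[(41,0)]⟩⟩ ⟨false,1,⟨1,[(42,0),(0,0)]⟩,⟨23,[(5,2),(7,1),(1,2),(3,5),(18,4)]⟩⟩
  ⟨true,1,⟨0,[(4,0)]⟩,⟨0,[(2,0),(38,0)]⟩⟩,.e ⟨false,1,⟨19,[(5,3),(5,1),(7,5),(22,0),(0,14)]⟩,⟨0,
  []⟩⟩ ⟨false,1,⟨0,[(4,0)]⟩,⟨2,[(2,1),(10,0),(11,0),(17,1)]⟩⟩,.o ⟨false,(-1),⟨0,[(2,0)]⟩,⟨1,[(24,1),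
  (10,0),(6,0)]⟩⟩]⟩) (.S ⟨1,0,[0,1,1,0,0,0,0,1],[0,1,1],[0,0,1,0,0,0,0,1],(⟨0,[(34,0),(2,0)]⟩,⟨0,
  [(22,0)]⟩),⟨0,[(34,0)]⟩,.k,.k,⟨true,0,⟨0,[(41,0)]⟩,⟨0,[(40,0)]⟩⟩,⟨false,0,⟨0,[(41,0)]⟩,⟨7,[(7,1),
  (11,1),(19,1),(2,0),(0,6)]⟩⟩,⟨false,1,⟨19,[(5,3),(5,1),(7,5),(22,0),(0,14)]⟩,⟨0,[]⟩⟩,⟨true,0,⟨23,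
  [(5,2),(7,1),(1,2),(3,5),(18,4)]⟩,⟨0,[]⟩⟩,[.o ⟨false,0,⟨0,[(29,0)]⟩,⟨0,[(0,0),(5,0),(25,0),(6,0),
  (3,0)]⟩⟩,.o ⟨false,0,⟨0,[(0,0),(9,0)]⟩,⟨1,[(30,1),(4,0),(7,0)]⟩⟩,.a ⟨true,0,⟨0,[(28,0)]⟩,⟨0,[(32,
  0)]⟩⟩ ⟨true,0,⟨0,[(0,0),(9,0),(21,0)]⟩,⟨5,[(6,5),(6,0),(24,0),(0,2)]⟩⟩ ⟨false,0,⟨0,[(0,0),(9,0),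
  (21,0)]⟩,⟨1,[(6,1),(35,0),(0,0)]⟩⟩,.o ⟨false,0,⟨0,[(16,0)]⟩,⟨1,[(32,1),(2,0),(6,0)]⟩⟩]⟩))))

theorem ok62 : chk K t62 r39 = true := by decide +kernel

noncomputable def t64 : Tre :=
  (.R ⟨2,true,false,false,[0,1],[0,0,0,0,1],[1,0,1,1],(⟨0,[]⟩,⟨0,[]⟩),(⟨0,[(23,0)]⟩,⟨0,[(22,0)]⟩),
  ⟨0,[]⟩,.k,.k,.k,(.r (-1) ⟨12,[(1,0),(1,3),(11,5),(11,1),(0,1),(10,11)]⟩ ⟨2,[(9,0),(24,0)]⟩),.k,.k,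
  ⟨false,1,⟨7,[(3,1),(11,1),(19,1),(2,0),(0,6)]⟩,⟨2,[(9,0),(24,0)]⟩⟩,⟨true,(-1),⟨3,[(0,2),(4,0),(5,
  0),(9,0),(17,0)]⟩,⟨0,[(20,0)]⟩⟩,⟨true,0,⟨0,[]⟩,⟨23,[(1,2),(7,1),(1,2),(3,5),(18,4)]⟩⟩,⟨false,(-1),
  ⟨0,[(0,0)]⟩,⟨7,[(3,1),(11,1),(4,7),(14,1),(2,0),(0,6)]⟩⟩,⟨false,1,⟨7,[(3,1),(11,1),(19,1),(2,0),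
  (0,6)]⟩,⟨0,[(37,0)]⟩⟩,⟨true,(-1),⟨1,[(0,0),(7,0)]⟩,⟨0,[(20,0)]⟩⟩,[]⟩)

theorem ok64 : chk K t64 r38 = true := by decide +kernel

noncomputable def t67 : Tre :=
  (.S ⟨1,0,[0,0,0,-1,0,0,0,-1],[1,0,-1],[1,1,0,0,0,0,0,-1],(⟨0,[(27,0)]⟩,⟨0,[(28,0)]⟩),⟨0,[(16,0)]⟩,
  .k,.k,⟨false,0,⟨0,[]⟩,⟨1,[(18,0),(0,0),(17,0)]⟩⟩,⟨true,0,⟨0,[(35,0)]⟩,⟨0,[(34,0)]⟩⟩,⟨true,0,⟨0,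
  [(34,0)]⟩,⟨0,[(35,0)]⟩⟩,⟨false,1,⟨1,[(18,0),(0,0),(17,0)]⟩,⟨0,[]⟩⟩,[.o ⟨false,1,⟨9,[(5,3),(1,1),
  (10,0),(0,0),(4,5),(1,3),(2,4),(7,3)]⟩,⟨9,[(0,7),(2,5),(0,1),(3,7),(20,0),(3,3),(3,4)]⟩⟩,.e
  ⟨false,1,⟨3,[(5,1),(7,1),(22,2),(0,0)]⟩,⟨0,[(0,0)]⟩⟩ ⟨false,1,⟨1,[(5,1),(30,0),(0,0)]⟩,⟨4,[(0,2),
  (0,1),(30,0),(0,0)]⟩⟩,.o ⟨false,1,⟨1,[(26,1),(2,0),(6,0)]⟩,⟨0,[(10,0)]⟩⟩,.a ⟨true,0,⟨0,[(26,0)]⟩,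
  ⟨0,[(22,0)]⟩⟩ ⟨true,0,⟨0,[(5,0),(27,0)]⟩,⟨1,[(0,1),(24,0),(0,0)]⟩⟩ ⟨false,1,⟨1,[(5,1),(30,0),(0,
  0)]⟩,⟨2,[(0,1),(0,0),(7,0),(27,0)]⟩⟩]⟩)

theorem ok67 : chk K t67 r36 = true := by decide +kernel

noncomputable def t75 : Tre :=
  (.Q [0,0,0,0,0,-1,0,0,0,1,0,-1] (.ed true [0,1,0,0,1] .k) (.S ⟨1,0,[0,-1,0,-1],[1,0,0,0,-1],[1],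
  (⟨0,[(15,0)]⟩,⟨0,[(16,0)]⟩),⟨0,[(0,0)]⟩,.k,(.r (-1) ⟨1,[(30,1),(0,0),(0,0)]⟩ ⟨1,[(8,0),(0,0),(11,
  0)]⟩),⟨false,0,⟨0,[]⟩,⟨1,[(13,0),(0,0),(17,0)]⟩⟩,⟨true,0,⟨0,[(30,0)]⟩,⟨0,[(29,0)]⟩⟩,⟨true,0,⟨0,
  [(29,0)]⟩,⟨0,[(30,0)]⟩⟩,⟨false,1,⟨1,[(13,0),(0,0),(17,0)]⟩,⟨0,[]⟩⟩,[.a ⟨true,1,⟨1,[(1,0),(11,0),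
  (16,0)]⟩,⟨0,[(6,0)]⟩⟩ ⟨true,0,⟨0,[]⟩,⟨1,[(20,0),(0,0)]⟩⟩ ⟨false,1,⟨1,[(30,1),(0,0),(0,0)]⟩,⟨0,
  [(29,0)]⟩⟩,.a ⟨true,1,⟨0,[(1,0)]⟩,⟨0,[(7,0),(21,0)]⟩⟩ ⟨false,1,⟨1,[(31,0),(0,0)]⟩,⟨0,[(34,0)]⟩⟩
  ⟨true,1,⟨0,[(30,0),(1,0)]⟩,⟨0,[(4,0),(23,0),(1,0)]⟩⟩,.o ⟨false,1,⟨1,[(1,1),(2,0),(19,0),(2,0),(0,
  0)]⟩,⟨0,[(14,0)]⟩⟩,.a ⟨true,0,⟨0,[(1,0),(2,0),(23,0),(1,0)]⟩,⟨1,[(7,1),(23,0),(0,0)]⟩⟩ ⟨false,1,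
  ⟨1,[(31,0),(0,0)]⟩,⟨1,[(20,0),(0,0)]⟩⟩ ⟨true,1,⟨1,[(30,1),(0,0),(0,0)]⟩,⟨0,[(4,0),(23,0),(1,
  0)]⟩⟩]⟩) (.R ⟨0,false,false,false,[1,0,0,0,-1],[1,-1],[1,1,1],(⟨0,[(15,0)]⟩,⟨0,[(16,0)]⟩),(⟨0,
  [(25,0)]⟩,⟨0,[(26,0)]⟩),⟨0,[(0,0)]⟩,.k,.k,(.r (-1) ⟨1,[(30,1),(0,0),(0,0)]⟩ ⟨1,[(8,0),(0,0),(11,
  0)]⟩),(.r (-1) ⟨5,[(2,1),(10,3),(0,3),(5,0),(0,0),(10,1)]⟩ ⟨0,[(28,0),(1,1)]⟩),.k,.k,⟨true,(-1),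
  ⟨0,[(4,0)]⟩,⟨1,[(30,1),(0,0),(0,0)]⟩⟩,⟨false,0,⟨0,[(14,0)]⟩,⟨2,[(1,1),(11,0),(13,0),(0,1)]⟩⟩,
  ⟨true,(-1),⟨0,[(4,0),(23,0),(1,1)]⟩,⟨1,[(31,0),(0,0)]⟩⟩,⟨false,0,⟨0,[(14,0),(15,0)]⟩,⟨2,[(1,1),(0,
  0),(10,0),(14,1)]⟩⟩,⟨false,0,⟨0,[]⟩,⟨0,[]⟩⟩,⟨false,0,⟨0,[]⟩,⟨0,[]⟩⟩,[.a ⟨true,0,⟨0,[(30,0)]⟩,⟨8,
  [(1,4),(0,0),(3,8),(6,3),(14,1)]⟩⟩ ⟨false,0,⟨0,[(34,0)]⟩,⟨1,[(31,0),(0,0)]⟩⟩ ⟨true,0,⟨0,[(14,0),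
  (15,0)]⟩,⟨0,[(1,0),(2,0),(23,0)]⟩⟩,.o ⟨false,1,⟨1,[(24,0),(5,1),(1,0)]⟩,⟨0,[(29,0)]⟩⟩,.o ⟨false,1,
  ⟨1,[(1,1),(2,0),(19,0),(2,0),(0,0)]⟩,⟨0,[(14,0)]⟩⟩,.e ⟨false,0,⟨0,[]⟩,⟨1,[(13,0),(0,0),(17,0)]⟩⟩
  ⟨false,1,⟨1,[(14,1),(15,1),(0,0),(0,0)]⟩,⟨0,[(1,0),(2,0),(23,0)]⟩⟩]⟩))

theorem ok75 : chk K t75 l43 = true := by decide +kernel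

noncomputable def t76 : Tre :=
  (.Q [0,0,0,2,0,0,0,0,0,1] (.pp false [-1,1]) (.S ⟨1,0,[0,1,-1,-2],[1,-1],[1,0,-1,-1],(⟨0,[(26,
  0)]⟩,⟨0,[(27,0)]⟩),⟨0,[(12,0),(0,0)]⟩,.k,(.r (-1) ⟨0,[(31,1),(0,0)]⟩ ⟨6,[(3,3),(5,1),(9,1),(1,0),
  (0,2)]⟩),⟨true,0,⟨0,[]⟩,⟨0,[(35,0)]⟩⟩,⟨false,0,⟨0,[(31,0)]⟩,⟨3,[(0,1),(13,0),(0,0),(9,0),(7,1)]⟩⟩,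
  ⟨false,1,⟨3,[(0,1),(13,0),(0,0),(9,0),(7,1)]⟩,⟨0,[(31,0)]⟩⟩,⟨true,0,⟨0,[(35,0)]⟩,⟨0,[]⟩⟩,[.o
  ⟨false,0,⟨0,[(1,0),(27,0),(1,2)]⟩,⟨1,[(0,1),(24,0),(7,0)]⟩⟩,.a ⟨true,0,⟨0,[(31,1)]⟩,⟨0,[(0,0)]⟩⟩
  ⟨true,1,⟨1,[(31,1),(0,0),(0,0)]⟩,⟨0,[(5,0)]⟩⟩ ⟨false,1,⟨0,[(31,1),(0,0)]⟩,⟨1,[(3,0),(26,0)]⟩⟩,.o
  ⟨false,0,⟨0,[(1,0)]⟩,⟨1,[(14,0),(0,0),(16,0)]⟩⟩,.o ⟨false,0,⟨1,[(1,1),(19,0),(0,0)]⟩,⟨0,[(32,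
  0)]⟩⟩]⟩) (.Q [0,0,0,1,0,0,0,0,0,1] (.pp false [-1,1]) (.R ⟨2,true,false,false,[0,1],[1,-1],[0,1,
  1],(⟨0,[]⟩,⟨0,[]⟩),(⟨0,[(27,0)]⟩,⟨0,[(28,0)]⟩),⟨0,[]⟩,.k,.k,.k,(.r 0 ⟨6,[(4,3),(5,1),(9,1),(1,0),
  (0,2)]⟩ ⟨0,[(32,1),(0,0)]⟩),.k,.k,⟨true,(-1),⟨0,[(6,0)]⟩,⟨1,[(32,1),(0,0),(0,0)]⟩⟩,⟨false,0,⟨0,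
  [(2,0)]⟩,⟨0,[(24,0),(0,0),(7,0)]⟩⟩,⟨false,0,⟨0,[(32,0)]⟩,⟨2,[(4,0),(10,0),(0,0),(16,0),(0,0)]⟩⟩,
  ⟨true,0,⟨0,[(1,0)]⟩,⟨0,[(0,0),(30,0)]⟩⟩,⟨true,0,⟨0,[(36,0)]⟩,⟨0,[]⟩⟩,⟨false,1,⟨3,[(1,1),(13,0),(0,
  0),(9,0),(7,1)]⟩,⟨0,[(0,0)]⟩⟩,[]⟩) (.Q [0,0,0,-1,0,0,-1,-1,0,-1,1] (.p true [0,0,1] [1] (⟨0,[(25,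
  0)]⟩,⟨0,[(24,0)]⟩) .k 1 (⟨0,[]⟩,⟨0,[]⟩) .k .k) (.S ⟨1,0,[0,0,0,-1,0,0,0,-1],[1,0,-1],[0,1,0,-1,0,
  0,0,-1],(⟨0,[(25,0)]⟩,⟨0,[(26,0)]⟩),⟨0,[(14,0)]⟩,.k,.k,⟨false,0,⟨0,[(33,0)]⟩,⟨2,[(5,0),(10,0),(0,
  0),(16,0),(0,0)]⟩⟩,⟨true,0,⟨0,[(33,0)]⟩,⟨0,[(32,0)]⟩⟩,⟨true,0,⟨0,[(37,0)]⟩,⟨0,[]⟩⟩,⟨false,1,⟨1,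
  [(16,0),(0,0),(17,0)]⟩,⟨0,[]⟩⟩,[.o ⟨false,0,⟨0,[(0,0)]⟩,⟨1,[(12,1),(3,0),(0,0),(17,0)]⟩⟩,.o
  ⟨false,1,⟨5,[(0,1),(1,1),(19,3),(4,0),(7,4)]⟩,⟨0,[(12,0)]⟩⟩,.o ⟨false,1,⟨1,[(24,1),(2,0),(6,0)]⟩,
  ⟨0,[(8,0)]⟩⟩,.a ⟨true,0,⟨0,[(24,0)]⟩,⟨0,[(20,0)]⟩⟩ ⟨false,0,⟨0,[(0,0),(19,0)]⟩,⟨0,[(12,0),(11,0),
  (10,0)]⟩⟩ ⟨true,0,⟨0,[(0,0),(19,0)]⟩,⟨0,[(12,0),(11,0)]⟩⟩]⟩) (.Q [0,0,0,-1,0,0,-1,-1,0,0,1] (.p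
  true [0,0,1] [] (⟨0,[(26,0)]⟩,⟨0,[(25,0)]⟩) .k 0 (⟨0,[]⟩,⟨0,[]⟩) .k .k) (.R ⟨2,true,false,true,[0,
  1],[0,1,1],[1,0,1,1],(⟨0,[]⟩,⟨0,[]⟩),(⟨0,[(27,0),(2,0)]⟩,⟨0,[(15,0)]⟩),⟨0,[]⟩,.k,.k,.k,.k,.k,.k,
  ⟨false,1,⟨5,[(0,4),(5,2),(0,4),(4,0),(22,3),(0,1)]⟩,⟨0,[(1,0),(1,0),(21,0),(6,0)]⟩⟩,⟨true,0,⟨0,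
  [(9,0)]⟩,⟨0,[(25,0)]⟩⟩,⟨true,0,⟨0,[]⟩,⟨0,[(38,0)]⟩⟩,⟨false,0,⟨0,[(1,0),(0,0)]⟩,⟨0,[(23,0),(12,
  0)]⟩⟩,⟨false,1,⟨2,[(6,0),(10,0),(0,0),(16,0),(0,0)]⟩,⟨0,[(34,0)]⟩⟩,⟨true,0,⟨0,[(13,0)]⟩,⟨0,[(0,
  0)]⟩⟩,[]⟩) (.S ⟨1,0,[0,0,0,-1,0,0,0,-1],[1,0,-1],[0,1,0,-1,0,0,0,-1],(⟨0,[(26,0)]⟩,⟨0,[(27,0)]⟩),
  ⟨0,[(15,0)]⟩,.k,.k,⟨false,0,⟨0,[(34,0)]⟩,⟨2,[(6,0),(10,0),(0,0),(16,0),(0,0)]⟩⟩,⟨true,0,⟨0,[(34,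
  0)]⟩,⟨0,[(33,0)]⟩⟩,⟨true,0,⟨0,[(38,0)]⟩,⟨0,[]⟩⟩,⟨false,1,⟨1,[(17,0),(0,0),(17,0)]⟩,⟨0,[]⟩⟩,[.o
  ⟨false,1,⟨3,[(3,1),(13,0),(0,0),(4,3),(4,0),(7,1)]⟩,⟨0,[(0,0)]⟩⟩,.o ⟨false,1,⟨0,[(2,0),(20,0),(12,
  0)]⟩,⟨0,[(13,0)]⟩⟩,.o ⟨false,1,⟨1,[(25,1),(2,0),(6,0)]⟩,⟨0,[(9,0)]⟩⟩,.a ⟨true,0,⟨0,[(25,0)]⟩,⟨0,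
  [(21,0)]⟩⟩ ⟨true,0,⟨0,[(7,0),(15,0)]⟩,⟨0,[(0,0),(24,0)]⟩⟩ ⟨false,1,⟨0,[(7,0),(15,0),(12,0)]⟩,⟨0,
  [(0,0),(24,0)]⟩⟩]⟩)))))

theorem ok76 : chk K t76 l44 = true := by decide +kernel

noncomputable def t77 : Tre :=
  (.S ⟨1,0,[0,0,0,-1,0,0,0,-1],[1,0,-1],[0,1,0,-1,0,0,0,-1],(⟨0,[(23,0)]⟩,⟨0,[(24,0)]⟩),⟨0,[(12,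
  0)]⟩,.k,.k,⟨false,0,⟨0,[(31,0)]⟩,⟨2,[(3,0),(10,0),(0,0),(16,0),(0,0)]⟩⟩,⟨true,0,⟨0,[(31,0)]⟩,⟨0,
  [(30,0)]⟩⟩,⟨true,0,⟨0,[(35,0)]⟩,⟨0,[]⟩⟩,⟨false,1,⟨1,[(14,0),(0,0),(17,0)]⟩,⟨0,[]⟩⟩,[.o ⟨false,1,
  ⟨1,[(20,1),(4,0),(5,1),(1,0)]⟩,⟨0,[(0,0),(5,0)]⟩⟩,.e ⟨false,1,⟨5,[(4,1),(6,1),(8,5),(4,0),(5,3),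
  (0,1),(0,2)]⟩,⟨0,[(0,0)]⟩⟩ ⟨false,1,⟨0,[(4,0),(15,0),(12,0)]⟩,⟨2,[(0,1),(9,0),(11,0),(5,0)]⟩⟩,.o
  ⟨false,1,⟨1,[(22,1),(2,0),(6,0)]⟩,⟨0,[(6,0)]⟩⟩,.a ⟨true,0,⟨0,[(22,0)]⟩,⟨0,[(18,0)]⟩⟩ ⟨true,0,⟨0,
  [(4,0),(15,0)]⟩,⟨2,[(0,1),(4,0),(13,0),(2,0),(10,0)]⟩⟩ ⟨false,1,⟨0,[(4,0),(15,0),(12,0)]⟩,⟨2,[(0,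
  1),(4,0),(13,0),(2,0),(10,0)]⟩⟩]⟩)

theorem ok77 : chk K t77 l45 = true := by decide +kernel

noncomputable def t78 : Tre :=
  (.I [1,0,1,1,0,0,0,1] (.Q [0,0,-2,0,0,0,1,0,0,1,-1] (.p false [0,0,1] [1] (⟨0,[(26,0)]⟩,⟨0,[(25,
  0)]⟩) .k 1 (⟨0,[]⟩,⟨0,[]⟩) .k .k) (.R ⟨0,false,false,false,[1,-1,-1],[1,-1],[1,1],(⟨0,[(15,0)]⟩,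
  ⟨5,[(2,2),(1,1),(9,0),(10,1),(1,2)]⟩),(⟨0,[(29,0)]⟩,⟨0,[(30,0)]⟩),⟨0,[(2,0)]⟩,.k,.k,(.r (-1) ⟨0,
  [(3,0),(30,0),(0,0)]⟩ ⟨9,[(1,11),(4,1),(5,1),(11,0),(0,0)]⟩),.k,.k,.k,⟨false,0,⟨0,[(33,0)]⟩,⟨1,
  [(34,1),(0,0),(0,0)]⟩⟩,⟨true,0,⟨0,[(9,0)]⟩,⟨0,[(25,0)]⟩⟩,⟨false,0,⟨0,[(1,0)]⟩,⟨1,[(3,1),(31,0),(0,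
  0)]⟩⟩,⟨true,0,⟨0,[(1,0),(5,0)]⟩,⟨0,[(23,0)]⟩⟩,⟨false,0,⟨0,[]⟩,⟨0,[]⟩⟩,⟨false,0,⟨0,[]⟩,⟨0,[]⟩⟩,[.a
  ⟨true,0,⟨0,[(34,0)]⟩,⟨2,[(4,1),(1,0),(4,0),(5,0)]⟩⟩ ⟨false,0,⟨0,[(32,0),(1,0)]⟩,⟨1,[(17,0),(0,0),
  (17,0)]⟩⟩ ⟨true,0,⟨0,[(7,0)]⟩,⟨9,[(1,1),(4,1),(5,1),(11,0),(0,10)]⟩⟩,.o ⟨false,1,⟨1,[(28,0),(5,1),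
  (1,0)]⟩,⟨0,[(33,0)]⟩⟩,.a ⟨true,0,⟨0,[(25,0)]⟩,⟨0,[(21,0)]⟩⟩ ⟨false,0,⟨0,[]⟩,⟨1,[(17,0),(0,0),(17,
  0)]⟩⟩ ⟨true,0,⟨0,[(7,0)]⟩,⟨0,[(1,0),(21,0)]⟩⟩,.a ⟨true,0,⟨1,[(24,0),(0,2)]⟩,⟨0,[(0,0)]⟩⟩ ⟨true,0,
  ⟨0,[(32,0),(1,0)]⟩,⟨1,[(24,0),(0,0)]⟩⟩ ⟨false,1,⟨1,[(7,1),(27,0),(0,0)]⟩,⟨9,[(1,1),(4,1),(5,1),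
  (11,0),(0,10)]⟩⟩]⟩) (.Q [0,1,0,0,0,0,-1,-1,0,-1,1] (.p true [0,0,1] [1] (⟨0,[(27,0)]⟩,⟨0,[(26,
  0)]⟩) .k 1 (⟨0,[]⟩,⟨0,[]⟩) .k .k) (.S ⟨1,0,[0,0,1,0,0,0,0,1],[0,1,1],[1,1,1,1,0,0,0,1],(⟨5,[(3,2),
  (1,1),(9,0),(10,1),(1,2)]⟩,⟨0,[(16,0)]⟩),⟨0,[(28,0)]⟩,.k,.k,⟨false,0,⟨0,[]⟩,⟨1,[(18,0),(0,0),(17,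
  0)]⟩⟩,⟨true,0,⟨0,[(35,0)]⟩,⟨0,[(34,0)]⟩⟩,⟨true,0,⟨0,[(34,0)]⟩,⟨0,[(35,0)]⟩⟩,⟨false,1,⟨1,[(18,0),
  (0,0),(17,0)]⟩,⟨0,[]⟩⟩,[.o ⟨false,0,⟨0,[(2,0),(5,0)]⟩,⟨1,[(24,1),(4,0),(7,0)]⟩⟩,.o ⟨false,1,⟨0,
  [(23,0),(13,0)]⟩,⟨0,[(0,0)]⟩⟩,.a ⟨true,0,⟨0,[(22,0)]⟩,⟨0,[(26,0)]⟩⟩ ⟨false,0,⟨0,[(2,0)]⟩,⟨1,[(4,
  1),(31,0),(0,0)]⟩⟩ ⟨true,0,⟨0,[(2,0),(32,0)]⟩,⟨0,[(0,0),(21,0)]⟩⟩,.o ⟨false,0,⟨0,[(10,0)]⟩,⟨1,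
  [(26,1),(2,0),(6,0)]⟩⟩]⟩) (.R ⟨0,false,false,false,[1,-1,-1],[1,-1],[0,1],(⟨0,[(16,0)]⟩,⟨5,[(3,2),
  (1,1),(9,0),(10,1),(1,2)]⟩),(⟨0,[(30,0)]⟩,⟨0,[(31,0)]⟩),⟨0,[(3,0)]⟩,.k,.k,(.r (-1) ⟨0,[(4,0),(30,
  0),(0,0)]⟩ ⟨9,[(2,11),(4,1),(5,1),(11,0),(0,0)]⟩),.k,.k,.k,⟨false,0,⟨0,[(34,0)]⟩,⟨1,[(35,1),(0,0),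
  (0,0)]⟩⟩,⟨true,0,⟨0,[(10,0)]⟩,⟨0,[(26,0)]⟩⟩,⟨false,0,⟨0,[(0,0),(0,0),(31,0)]⟩,⟨1,[(4,1),(31,0),(0,
  0)]⟩⟩,⟨true,0,⟨0,[(2,0),(5,0)]⟩,⟨0,[(24,0)]⟩⟩,⟨false,0,⟨0,[]⟩,⟨0,[]⟩⟩,⟨false,0,⟨0,[]⟩,⟨0,[]⟩⟩,[.a
  ⟨true,0,⟨0,[(35,0)]⟩,⟨2,[(5,1),(1,0),(4,0),(5,0)]⟩⟩ ⟨false,0,⟨0,[(33,0),(1,0)]⟩,⟨1,[(18,0),(0,0),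
  (17,0)]⟩⟩ ⟨true,0,⟨0,[(8,0)]⟩,⟨9,[(2,1),(4,1),(5,1),(11,0),(0,10)]⟩⟩,.o ⟨false,1,⟨1,[(29,0),(5,1),
  (1,0)]⟩,⟨0,[(34,0)]⟩⟩,.e ⟨true,0,⟨0,[(39,0)]⟩,⟨0,[]⟩⟩ ⟨true,0,⟨0,[(8,0)]⟩,⟨0,[(2,0),(21,0)]⟩⟩,.o
  ⟨false,0,⟨0,[(1,0)]⟩,⟨1,[(22,1),(6,0),(6,0)]⟩⟩]⟩))) (.I [0,1,0,-1,-1,0,0,-1] (.Q [0,0,-2,0,0,0,1,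
  0,0,1,-1] (.p false [0,0,1] [1] (⟨0,[(27,0)]⟩,⟨0,[(26,0)]⟩) .k 1 (⟨0,[]⟩,⟨0,[]⟩) .k .k) (.R ⟨0,
  false,false,false,[1,-1,-1],[1,-1],[1,1],(⟨0,[(16,0)]⟩,⟨5,[(3,2),(1,1),(9,0),(10,1),(1,2)]⟩),(⟨0,
  [(30,0)]⟩,⟨0,[(31,0)]⟩),⟨0,[(3,0)]⟩,.k,.k,(.x (-1) ⟨1,[(16,1),(8,0),(0,2),(2,1),(0,1)]⟩ ⟨0,[(0,0),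
  (2,0)]⟩),.k,.k,.k,⟨false,0,⟨0,[(34,0)]⟩,⟨1,[(35,1),(0,0),(0,0)]⟩⟩,⟨true,0,⟨0,[(10,0)]⟩,⟨0,[(26,
  0)]⟩⟩,⟨true,0,⟨0,[(14,0),(11,0)]⟩,⟨0,[(2,0)]⟩⟩,⟨false,1,⟨0,[(23,0),(13,0)]⟩,⟨0,[(1,0),(24,0),(6,
  0),(3,0)]⟩⟩,⟨false,0,⟨0,[]⟩,⟨0,[]⟩⟩,⟨false,0,⟨0,[]⟩,⟨0,[]⟩⟩,[.a ⟨true,0,⟨0,[(35,0)]⟩,⟨2,[(5,1),(1,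
  0),(4,0),(5,0)]⟩⟩ ⟨false,0,⟨0,[(33,0),(1,0)]⟩,⟨1,[(18,0),(0,0),(17,0)]⟩⟩ ⟨true,0,⟨0,[(8,0)]⟩,⟨13,
  [(7,3),(5,1),(9,1),(1,0),(0,16)]⟩⟩,.o ⟨false,1,⟨1,[(29,0),(5,1),(1,0)]⟩,⟨0,[(34,0)]⟩⟩,.a ⟨true,0,
  ⟨0,[(26,0)]⟩,⟨0,[(22,0)]⟩⟩ ⟨false,0,⟨0,[]⟩,⟨1,[(18,0),(0,0),(17,0)]⟩⟩ ⟨true,0,⟨0,[(8,0)]⟩,⟨0,[(26,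
  0),(7,0)]⟩⟩,.a ⟨true,0,⟨1,[(25,0),(0,2)]⟩,⟨0,[(0,0)]⟩⟩ ⟨true,0,⟨0,[(33,0),(1,0)]⟩,⟨1,[(25,0),(0,
  0)]⟩⟩ ⟨false,1,⟨1,[(8,1),(27,0),(0,0)]⟩,⟨13,[(7,3),(5,1),(9,1),(1,0),(0,16)]⟩⟩]⟩) (.Q [0,0,-1,-1,
  0,0,-1,-1,0,0,1] (.p true [0,0,1] [] (⟨0,[(28,0)]⟩,⟨0,[(27,0)]⟩) .k 0 (⟨0,[]⟩,⟨0,[]⟩) .k .k) (.R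
  ⟨0,false,false,false,[1,-1,-1],[1,-1],[0,1],(⟨0,[(17,0)]⟩,⟨5,[(4,2),(1,1),(9,0),(10,1),(1,2)]⟩),
  (⟨0,[(31,0)]⟩,⟨0,[(32,0)]⟩),⟨0,[(4,0)]⟩,.k,.k,(.r 0 ⟨0,[(0,0),(8,0)]⟩ ⟨3,[(8,1),(6,1),(3,2),(0,2),
  (3,1),(2,3),(10,0)]⟩),.k,.k,.k,⟨false,0,⟨0,[(35,0)]⟩,⟨1,[(36,1),(0,0),(0,0)]⟩⟩,⟨true,0,⟨0,[(11,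
  0)]⟩,⟨0,[(27,0)]⟩⟩,⟨true,0,⟨0,[(15,0),(11,0)]⟩,⟨0,[(3,0)]⟩⟩,⟨false,1,⟨0,[(24,0),(13,0)]⟩,⟨7,[(0,
  4),(4,0),(2,1),(16,1),(1,0)]⟩⟩,⟨false,0,⟨0,[]⟩,⟨0,[]⟩⟩,⟨false,0,⟨0,[]⟩,⟨0,[]⟩⟩,[.a ⟨true,0,⟨0,
  [(36,0)]⟩,⟨2,[(6,1),(1,0),(4,0),(5,0)]⟩⟩ ⟨false,0,⟨1,[(0,0),(23,0),(9,0)]⟩,⟨1,[(19,0),(0,0),(17,
  0)]⟩⟩ ⟨true,0,⟨0,[(9,0)]⟩,⟨23,[(1,1),(6,5),(5,2),(0,2),(0,1),(10,28)]⟩⟩,.o ⟨false,1,⟨1,[(30,0),(5,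
  1),(1,0)]⟩,⟨0,[(35,0)]⟩⟩,.e ⟨true,0,⟨0,[(40,0)]⟩,⟨0,[]⟩⟩ ⟨true,0,⟨0,[(9,0)]⟩,⟨0,[(27,0),(7,0)]⟩⟩,
  .o ⟨false,0,⟨0,[(1,0)]⟩,⟨1,[(23,1),(6,0),(6,0)]⟩⟩]⟩) (.I [0,0,2,2,0,0,0,1] (.R ⟨0,false,false,
  false,[1,-1,-1],[1,-1],[0,1],(⟨0,[(18,0)]⟩,⟨5,[(5,2),(1,1),(9,0),(10,1),(1,2)]⟩),(⟨0,[(32,0)]⟩,⟨0,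
  [(33,0)]⟩),⟨0,[(5,0)]⟩,.k,.k,(.r (-1) ⟨0,[(6,0),(30,0),(0,0)]⟩ ⟨0,[(0,0)]⟩),.k,.k,.k,⟨false,0,⟨0,
  [(36,0)]⟩,⟨1,[(37,1),(0,0),(0,0)]⟩⟩,⟨true,0,⟨0,[(12,0)]⟩,⟨0,[(28,0)]⟩⟩,⟨true,0,⟨0,[(16,0),(11,
  0)]⟩,⟨0,[(4,0)]⟩⟩,⟨false,1,⟨0,[(25,0),(13,0)]⟩,⟨0,[(3,0),(24,0),(6,0),(3,0)]⟩⟩,⟨false,0,⟨0,[]⟩,⟨0,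
  []⟩⟩,⟨false,0,⟨0,[]⟩,⟨0,[]⟩⟩,[.a ⟨true,0,⟨0,[(37,0)]⟩,⟨17,[(0,2),(6,16),(1,2),(5,2),(1,0),(10,
  1)]⟩⟩ ⟨false,0,⟨0,[(35,0),(1,0)]⟩,⟨1,[(20,0),(0,0),(17,0)]⟩⟩ ⟨true,0,⟨0,[(10,0)]⟩,⟨17,[(0,2),(1,
  0),(6,2),(5,2),(1,0),(10,18)]⟩⟩,.o ⟨false,1,⟨1,[(31,0),(5,1),(1,0)]⟩,⟨0,[(36,0)]⟩⟩,.e ⟨true,0,⟨0,
  [(41,0)]⟩,⟨0,[]⟩⟩ ⟨true,0,⟨0,[(10,0)]⟩,⟨4,[(0,1),(25,1),(1,2),(5,0),(0,0)]⟩⟩,.o ⟨false,0,⟨0,[(2,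
  0)]⟩,⟨1,[(24,1),(6,0),(6,0)]⟩⟩]⟩) (.I [0,0,-2,0,0,2,1] (.R ⟨1,true,false,false,[1,0,-1],[0,1],[1,
  1,0,0,0,0,0,-1],(⟨0,[(30,0)]⟩,⟨0,[(31,0)]⟩),(⟨0,[(34,0)]⟩,⟨0,[(33,0)]⟩),⟨0,[(19,0)]⟩,.k,.k,.k,.k,
  (.x (-1) ⟨1,[(3,1),(15,1),(1,0),(0,0),(9,0),(0,1)]⟩ ⟨0,[(0,0)]⟩),.k,⟨false,0,⟨2,[(1,0),(3,1),(29,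
  0),(0,0)]⟩,⟨0,[(17,0),(11,0),(10,0)]⟩⟩,⟨true,0,⟨0,[(25,0)]⟩,⟨0,[(3,0)]⟩⟩,⟨false,0,⟨0,[]⟩,⟨1,[(21,
  0),(0,0),(17,0)]⟩⟩,⟨true,0,⟨0,[(2,0),(5,0)]⟩,⟨5,[(1,2),(1,3),(0,0),(22,1),(4,0),(2,0),(0,0)]⟩⟩,
  ⟨true,0,⟨0,[(37,0)]⟩,⟨0,[(38,0)]⟩⟩,⟨false,1,⟨2,[(2,0),(5,2),(1,0),(6,1),(3,0),(0,0),(17,1)]⟩,⟨0,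
  [(1,0),(1,0)]⟩⟩,[]⟩) (.Q [0,0,-1,0,1,0,-1,0,0,-1,1] (.p true [0,0,1] [1] (⟨0,[(31,0)]⟩,⟨0,[(30,
  0)]⟩) .k 1 (⟨0,[]⟩,⟨0,[]⟩) .k .k) (.I [0,-1,0,-1,1,0,0,1] (.S ⟨1,0,[0,0,1,0,0,0,0,-1],[1,1,-1],[1,
  1,1,1,0,0,0,-1],(⟨1,[(8,0),(23,2)]⟩,⟨0,[(22,0)]⟩),⟨0,[(32,0)]⟩,.k,.k,⟨false,0,⟨0,[]⟩,⟨5,[(0,1),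
  (17,1),(22,0),(0,2)]⟩⟩,⟨true,0,⟨0,[(40,0)]⟩,⟨0,[(39,0)]⟩⟩,⟨true,0,⟨0,[(39,0)]⟩,⟨0,[(40,0)]⟩⟩,
  ⟨false,1,⟨5,[(0,1),(17,1),(22,0),(0,2)]⟩,⟨0,[]⟩⟩,[.a ⟨true,0,⟨6,[(1,0),(1,3),(2,0),(3,0),(1,2),
  (16,1),(1,3)]⟩,⟨0,[(4,0),(5,0),(29,0)]⟩⟩ ⟨true,(-1),⟨6,[(6,5),(5,2),(1,0),(3,0),(19,1)]⟩,⟨0,[(0,
  0)]⟩⟩ ⟨false,0,⟨4,[(7,2),(1,0),(2,0),(5,0)]⟩,⟨1,[(0,0),(0,0),(8,0),(8,0)]⟩⟩,.o ⟨false,1,⟨10,[(1,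
  4),(3,3),(1,8),(4,2),(16,1),(4,0),(7,4)]⟩,⟨0,[(28,0)]⟩⟩,.o ⟨false,1,⟨0,[(1,0)]⟩,⟨0,[(30,0)]⟩⟩,.o
  ⟨false,1,⟨3,[(0,0),(0,2),(3,0),(12,0)]⟩,⟨0,[(15,0)]⟩⟩]⟩) (.I [0,0,2,0,0,-2,-1] (.R ⟨1,true,false,
  true,[1,0,-1],[0,1],[0,0,0,-1,0,0,0,-1],(⟨0,[(33,0)]⟩,⟨0,[(34,0)]⟩),(⟨0,[(37,0)]⟩,⟨0,[(36,0)]⟩),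
  ⟨0,[(22,0)]⟩,.k,.k,.k,.k,(.x 0 ⟨0,[(0,0)]⟩ ⟨3,[(9,3),(1,1),(9,1),(2,0),(0,0),(16,2)]⟩),.k,⟨false,
  1,⟨1,[(4,1),(19,0),(0,0),(17,0)]⟩,⟨0,[(5,0),(26,0),(6,0)]⟩⟩,⟨true,0,⟨0,[(28,0)]⟩,⟨0,[(6,0)]⟩⟩,
  ⟨true,0,⟨0,[(41,0)]⟩,⟨0,[(40,0)]⟩⟩,⟨false,0,⟨0,[(5,0),(5,0)]⟩,⟨3,[(4,1),(1,1),(23,1),(4,0),(7,
  2)]⟩⟩,⟨false,1,⟨1,[(24,0),(0,0),(17,0)]⟩,⟨0,[]⟩⟩,⟨true,0,⟨2,[(11,1),(1,0),(4,0),(1,2),(3,0)]⟩,⟨0,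
  [(4,0),(1,0)]⟩⟩,[]⟩) (.Q [0,-1,0,-2,1,0,0,0,-1,-1,0,1] (.p true [0,0,0,0,1] [1] (⟨0,[(27,0)]⟩,⟨0,
  [(26,0)]⟩) .k 1 (⟨0,[]⟩,⟨0,[]⟩) .k .k) (.R ⟨1,true,false,false,[1,-1],[0,0,0,0,1],[0,1,-1,-2],(⟨0,
  [(37,0)]⟩,⟨0,[(38,0)]⟩),(⟨0,[(28,0)]⟩,⟨0,[(27,0)]⟩),⟨0,[(23,0),(0,0)]⟩,.k,.k,(.r (-1) ⟨0,[(0,0),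
  (18,0),(23,0)]⟩ ⟨4,[(6,1),(7,1),(5,1),(12,1)]⟩),(.r (-1) ⟨3,[(0,1),(11,1),(13,1),(16,0),(0,0)]⟩
  ⟨1,[(20,0),(0,0),(11,0)]⟩),(.r (-2) ⟨1,[(0,1),(11,1),(12,0),(0,2),(16,0)]⟩ ⟨0,[(2,0),(3,0),(26,
  0)]⟩),.k,⟨false,1,⟨0,[(0,0),(18,0),(23,0)]⟩,⟨1,[(14,0),(26,0)]⟩⟩,⟨true,0,⟨0,[(12,0),(13,0)]⟩,⟨0,
  [(0,0),(1,0),(3,0),(26,0)]⟩⟩,⟨false,0,⟨0,[(42,0)]⟩,⟨2,[(14,0),(10,0),(0,0),(16,0),(0,0)]⟩⟩,⟨true,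
  (-1),⟨0,[(18,0)]⟩,⟨5,[(0,3),(15,0),(8,1),(10,0),(2,0),(0,0)]⟩⟩,⟨true,0,⟨0,[(46,0)]⟩,⟨0,[]⟩⟩,
  ⟨false,0,⟨3,[(12,1),(1,1),(3,1),(6,0),(0,2),(16,0)]⟩,⟨0,[(0,0)]⟩⟩,[]⟩) (.Q [0,0,-1,0,1,0,0,0,-1,0,
  0,1] (.p true [0,0,0,0,1] [] (⟨0,[(28,0)]⟩,⟨0,[(27,0)]⟩) .k 0 (⟨0,[]⟩,⟨0,[]⟩) .k .k) (.Q [0,1,0,1,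
  -1,0,-1,-1,1,0,1,-1] (.p true [0,0,1] [0,0,0,0,1] (⟨0,[(36,0)]⟩,⟨0,[(35,0)]⟩) .k 2 (⟨0,[(29,0)]⟩,
  ⟨0,[(28,0)]⟩) .k (.r (-2) ⟨1,[(26,0),(0,0),(3,1),(2,1),(9,0),(0,1)]⟩ ⟨1,[(3,0),(5,0)]⟩)) (.Q [0,0,
  0,0,1,0,0,0,-1,-1,0,1] (.p true [0,0,0,0,1] [1] (⟨0,[(30,0)]⟩,⟨0,[(29,0)]⟩) .k 1 (⟨0,[]⟩,⟨0,[]⟩)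
  .k .k) (.I [0,0,-2,-2,0,0,0,-1] (.R ⟨1,true,false,true,[1,0,-1],[0,1],[0,0,0,-1,0,0,0,-1],(⟨0,
  [(38,0)]⟩,⟨0,[(39,0)]⟩),(⟨0,[(42,0)]⟩,⟨0,[(41,0)]⟩),⟨0,[(27,0)]⟩,.k,.k,.k,.k,(.r 0 ⟨0,[(0,0)]⟩ ⟨5,
  [(10,1),(7,1),(6,3),(3,4),(0,4),(6,5),(10,0)]⟩),.k,⟨false,1,⟨1,[(0,1),(28,0),(0,0),(17,0)]⟩,⟨0,
  [(10,0),(26,0),(6,0)]⟩⟩,⟨true,0,⟨0,[(33,0)]⟩,⟨0,[(11,0)]⟩⟩,⟨true,0,⟨0,[(46,0)]⟩,⟨0,[(45,0)]⟩⟩,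
  ⟨false,0,⟨0,[(10,0),(5,0)]⟩,⟨3,[(0,1),(10,1),(23,1),(4,0),(7,2)]⟩⟩,⟨false,1,⟨1,[(29,0),(0,0),(17,
  0)]⟩,⟨0,[]⟩⟩,⟨true,0,⟨1,[(4,0),(5,0),(5,0),(8,0),(3,0)]⟩,⟨0,[(0,0),(10,0)]⟩⟩,[]⟩) (.Q [0,-1,0,0,1,
  0,0,0,-1,0,0,1] (.p true [0,0,0,0,1] [] (⟨0,[(32,0)]⟩,⟨0,[(31,0)]⟩) .k 0 (⟨0,[]⟩,⟨0,[]⟩) .k .k)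
  (.Q [0,0,0,0,0,-1,0,0,0,1,0,-1] (.ed true [0,1,0,0,1] .k) (.Q [0,0,-1,0,0,0,0,0,1,0,0,-1] (.p
  false [0,0,0,0,1] [] (⟨0,[(34,0)]⟩,⟨0,[(33,0)]⟩) .k 0 (⟨0,[]⟩,⟨0,[]⟩) .k .k) (.S ⟨1,0,[0,-1,0,-1],
  [1,0,0,0,-1],[1],(⟨0,[(34,0)]⟩,⟨0,[(35,0)]⟩),⟨0,[(1,0)]⟩,.k,(.r (-1) ⟨1,[(49,1),(0,0),(0,0)]⟩ ⟨2,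
  [(3,0),(23,0),(25,1)]⟩),⟨false,0,⟨0,[]⟩,⟨1,[(32,0),(0,0),(17,0)]⟩⟩,⟨true,0,⟨0,[(49,0)]⟩,⟨0,[(48,
  0)]⟩⟩,⟨true,0,⟨0,[(48,0)]⟩,⟨0,[(49,0)]⟩⟩,⟨false,1,⟨1,[(32,0),(0,0),(17,0)]⟩,⟨0,[]⟩⟩,[.a ⟨true,1,
  ⟨0,[(2,0),(46,0)]⟩,⟨0,[(25,0)]⟩⟩ ⟨true,0,⟨0,[]⟩,⟨2,[(14,0),(14,0),(10,0)]⟩⟩ ⟨false,1,⟨1,[(49,1),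
  (0,0),(0,0)]⟩,⟨0,[(48,0)]⟩⟩,.o ⟨false,2,⟨0,[(4,0),(44,0),(1,0)]⟩,⟨0,[(20,0)]⟩⟩,.o ⟨false,1,⟨0,[(4,
  0)]⟩,⟨0,[(33,0)]⟩⟩,.o ⟨false,1,⟨2,[(4,1),(9,0),(17,0),(6,0)]⟩,⟨0,[(0,0)]⟩⟩]⟩) (.Q [0,-1,0,-2,1,0,
  1,1,-1,0,-1,1] (.p false [0,0,1] [0,0,0,0,1] (⟨0,[(42,0)]⟩,⟨0,[(41,0)]⟩) .k 2 (⟨0,[(35,0)]⟩,⟨0,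
  [(34,0)]⟩) .k (.r (-2) ⟨1,[(32,0),(0,0),(3,1),(2,1),(9,0),(0,1)]⟩ ⟨1,[(9,0),(5,0)]⟩)) (.R ⟨1,true,
  false,false,[1,0,0,0,-1],[1,1,-1],[1],(⟨0,[(35,0)]⟩,⟨0,[(36,0)]⟩),(⟨1,[(18,0),(23,2)]⟩,⟨0,[(32,
  0)]⟩),⟨0,[(2,0)]⟩,.k,.k,(.r (-1) ⟨9,[(0,2),(10,1),(1,1),(6,1),(13,2),(4,0),(11,0),(0,3)]⟩ ⟨2,[(4,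
  0),(23,0),(25,1)]⟩),(.r (-2) ⟨7,[(0,5),(3,1),(29,5),(6,5),(9,8),(0,0)]⟩ ⟨12,[(10,7),(8,3),(2,0),
  (1,4),(3,0)]⟩),(.r (-2) ⟨0,[(0,0),(10,0),(8,0),(13,0)]⟩ ⟨12,[(10,5),(8,2),(2,3),(1,6),(3,3)]⟩),.k,
  ⟨true,1,⟨2,[(0,1),(10,2),(2,0),(5,0),(6,1)]⟩,⟨1,[(16,1),(5,0),(1,0),(27,0)]⟩⟩,⟨false,1,⟨0,[(11,0),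
  (8,0),(13,0)]⟩,⟨0,[(1,0),(23,0)]⟩⟩,⟨false,0,⟨0,[]⟩,⟨1,[(33,0),(0,0),(17,0)]⟩⟩,⟨true,(-1),⟨0,[(6,
  0)]⟩,⟨1,[(0,0),(32,0),(4,0)]⟩⟩,⟨true,0,⟨0,[(49,0)]⟩,⟨0,[(50,0)]⟩⟩,⟨false,0,⟨6,[(6,4),(15,2),(11,
  1),(4,1),(11,2),(0,1)]⟩,⟨0,[(0,0)]⟩⟩,[]⟩) (.Q [0,0,0,0,0,0,-1,0,1,0,1,-1] (.p true [0,0,1] [0,0,0,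
  0,1] (⟨0,[(43,0)]⟩,⟨0,[(42,0)]⟩) .k 2 (⟨0,[(36,0)]⟩,⟨0,[(35,0)]⟩) .k (.r (-2) ⟨1,[(33,0),(0,0),(3,
  1),(2,1),(9,0),(0,1)]⟩ ⟨1,[(10,0),(5,0)]⟩)) (.K ⟨0,[0,0,0,0,1],0,(-1),(⟨0,[(37,0)]⟩,⟨0,[(36,0)]⟩),
  .k,(.r 0 ⟨2,[(12,0),(1,0),(2,0),(3,0),(17,1),(2,0)]⟩ ⟨2,[(5,0),(23,0),(4,0),(0,0),(17,1)]⟩),(.r 0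
  ⟨2,[(5,0),(23,0),(25,1)]⟩ ⟨1,[(51,1),(0,0),(0,0)]⟩),.k,.k,[⟨0,[(0,0)]⟩,⟨0,[(2,0)]⟩,⟨0,[(34,0)]⟩,
  ⟨1,[(0,0),(16,0),(4,0),(16,0)]⟩]⟩) (.Q [0,0,0,0,0,-1,0,0,0,0,0,1] (.ed false [1,-1,0,0,1] .k) (.S
  ⟨1,0,[0,2,0,-1],[0,0,0,0,1],[1,1],(⟨0,[(38,0)]⟩,⟨0,[(37,0)]⟩),⟨0,[(0,0)]⟩,.k,(.r 0 ⟨2,[(13,0),(1,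
  0),(2,0),(3,0),(17,1),(2,0)]⟩ ⟨2,[(6,0),(23,0),(4,0),(0,0),(17,1)]⟩),⟨true,0,⟨0,[]⟩,⟨0,[(56,0)]⟩⟩,
  ⟨false,0,⟨0,[(52,0)]⟩,⟨8,[(6,1),(17,0),(5,1),(22,3),(0,4)]⟩⟩,⟨false,1,⟨8,[(6,1),(17,0),(5,1),(22,
  3),(0,4)]⟩,⟨0,[(52,0)]⟩⟩,⟨true,0,⟨0,[(56,0)]⟩,⟨0,[]⟩⟩,[.o ⟨false,(-1),⟨2,[(15,1),(1,1),(5,0),(5,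
  1),(10,1)]⟩,⟨5,[(1,1),(5,1),(1,1),(3,1),(10,1),(21,0),(7,4)]⟩⟩,.a ⟨true,(-1),⟨0,[(29,0),(22,0)]⟩,
  ⟨2,[(1,0),(3,1),(7,0),(8,0),(1,0)]⟩⟩ ⟨true,0,⟨0,[]⟩,⟨2,[(17,0),(14,0),(10,0)]⟩⟩ ⟨false,0,⟨2,[(13,
  0),(1,0),(2,0),(3,0),(17,1),(2,0)]⟩,⟨8,[(6,1),(17,0),(5,1),(22,3),(0,4)]⟩⟩,.o ⟨false,0,⟨0,[(36,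
  0)]⟩,⟨0,[(7,0)]⟩⟩,.o ⟨false,0,⟨2,[(17,0),(14,0),(3,2),(6,0)]⟩,⟨0,[(1,0),(11,0)]⟩⟩]⟩) (.R ⟨0,false,
  false,true,[0,0,0,0,1],[0,1],[1,1,1,1],(⟨0,[(38,0)]⟩,⟨0,[(37,0)]⟩),(⟨0,[(48,0)]⟩,⟨0,[(47,0)]⟩),⟨0,
  [(0,0)]⟩,.k,.k,(.r 0 ⟨2,[(13,0),(1,0),(2,0),(3,0),(17,1),(2,0)]⟩ ⟨2,[(6,0),(23,0),(4,0),(0,0),(17,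
  1)]⟩),(.r 0 ⟨2,[(13,0),(1,0),(2,0),(3,0),(17,1),(2,0)]⟩ ⟨2,[(6,0),(23,0),(4,0),(0,0),(17,1)]⟩),.k,
  .k,⟨true,0,⟨0,[]⟩,⟨2,[(17,0),(14,0),(10,0)]⟩⟩,⟨false,1,⟨0,[(1,0),(11,0),(8,0)]⟩,⟨2,[(17,0),(14,0),
  (3,2),(6,0)]⟩⟩,⟨true,0,⟨17,[(6,2),(10,0),(6,2),(5,2),(1,0),(10,0)]⟩,⟨2,[(13,0),(1,0),(2,0),(3,0),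
  (17,1),(2,0)]⟩⟩,⟨false,1,⟨2,[(1,0),(3,1),(7,0),(8,0),(1,0)]⟩,⟨0,[(36,0),(15,0)]⟩⟩,⟨false,0,⟨0,[]⟩,
  ⟨0,[]⟩⟩,⟨false,0,⟨0,[]⟩,⟨0,[]⟩⟩,[.o ⟨false,0,⟨0,[(51,0)]⟩,⟨1,[(46,0),(5,1),(1,0)]⟩⟩,.a ⟨true,0,
  ⟨17,[(6,2),(15,16),(1,2),(5,2),(1,0),(10,1)]⟩,⟨0,[(52,0)]⟩⟩ ⟨true,0,⟨17,[(6,2),(10,0),(6,2),(5,2),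
  (1,0),(10,0)]⟩,⟨0,[(52,0)]⟩⟩ ⟨false,1,⟨3,[(1,0),(7,2),(3,0),(8,0),(1,0),(25,0)]⟩,⟨0,[(36,0),(15,
  0)]⟩⟩,.o ⟨false,0,⟨0,[(36,0)]⟩,⟨0,[(7,0)]⟩⟩,.o ⟨false,0,⟨2,[(17,0),(14,0),(3,2),(6,0)]⟩,⟨0,[(1,0),
  (11,0)]⟩⟩]⟩))))) (.Q [0,0,1,0,-1,0,0,0,1,1,0,-1] (.p false [0,0,0,0,1] [1] (⟨0,[(34,0)]⟩,⟨0,[(33,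
  0)]⟩) .k 1 (⟨0,[]⟩,⟨0,[]⟩) .k .k) (.S ⟨1,0,[0,1,0,-1],[0,0,0,0,1],[1,2],(⟨0,[(35,0)]⟩,⟨0,[(34,
  0)]⟩),⟨0,[(1,0),(28,0),(0,0)]⟩,.k,(.r 0 ⟨2,[(10,0),(1,0),(2,0),(3,0),(17,1),(2,0)]⟩ ⟨2,[(3,0),(23,
  0),(4,0),(0,0),(17,1)]⟩),⟨false,0,⟨0,[]⟩,⟨1,[(32,0),(0,0),(17,0)]⟩⟩,⟨true,0,⟨0,[(49,0)]⟩,⟨0,[(48,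
  0)]⟩⟩,⟨true,0,⟨0,[(48,0)]⟩,⟨0,[(49,0)]⟩⟩,⟨false,1,⟨1,[(32,0),(0,0),(17,0)]⟩,⟨0,[]⟩⟩,[.e ⟨false,0,
  ⟨0,[(46,0)]⟩,⟨0,[(51,0)]⟩⟩ ⟨false,0,⟨2,[(10,0),(1,0),(2,0),(3,0),(17,1),(2,0)]⟩,⟨8,[(3,1),(17,0),
  (5,1),(22,3),(0,4)]⟩⟩,.o ⟨false,0,⟨0,[(33,0),(15,0)]⟩,⟨1,[(2,0),(1,0),(4,0),(0,0),(2,0)]⟩⟩,.o
  ⟨false,0,⟨0,[(33,0)]⟩,⟨0,[(4,0)]⟩⟩,.a ⟨true,(-1),⟨0,[(0,0)]⟩,⟨0,[(6,0)]⟩⟩ ⟨false,0,⟨2,[(10,0),(4,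
  0),(3,0),(17,0),(9,0)]⟩,⟨4,[(0,0),(13,1),(14,0),(2,0),(18,4)]⟩⟩ ⟨true,0,⟨2,[(10,0),(1,0),(2,0),(3,
  0),(17,1),(2,0)]⟩,⟨32,[(0,0),(1,0),(0,5),(10,1),(6,4),(5,5),(1,0)]⟩⟩]⟩) (.S ⟨1,0,[0,2,0,-1],[0,0,
  0,0,1],[1,1],(⟨0,[(35,0)]⟩,⟨0,[(34,0)]⟩),⟨0,[(1,0),(28,0),(0,0)]⟩,.k,(.r 0 ⟨2,[(10,0),(1,0),(2,0),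
  (3,0),(17,1),(2,0)]⟩ ⟨2,[(3,0),(23,0),(4,0),(0,0),(17,1)]⟩),⟨true,0,⟨0,[]⟩,⟨0,[(53,0)]⟩⟩,⟨false,0,
  ⟨0,[(49,0)]⟩,⟨8,[(3,1),(17,0),(5,1),(22,3),(0,4)]⟩⟩,⟨false,1,⟨8,[(3,1),(17,0),(5,1),(22,3),(0,
  4)]⟩,⟨0,[(49,0)]⟩⟩,⟨true,0,⟨0,[(53,0)]⟩,⟨0,[]⟩⟩,[.o ⟨false,(-1),⟨2,[(12,1),(1,1),(5,0),(5,1),(10,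
  1)]⟩,⟨5,[(0,1),(3,1),(1,1),(14,1),(21,0),(7,4)]⟩⟩,.a ⟨true,(-1),⟨0,[(26,0),(22,0)]⟩,⟨2,[(0,0),(1,
  1),(16,0),(1,0)]⟩⟩ ⟨true,0,⟨0,[]⟩,⟨2,[(14,0),(14,0),(10,0)]⟩⟩ ⟨false,0,⟨2,[(10,0),(1,0),(2,0),(3,
  0),(17,1),(2,0)]⟩,⟨8,[(3,1),(17,0),(5,1),(22,3),(0,4)]⟩⟩,.o ⟨false,0,⟨0,[(33,0)]⟩,⟨0,[(4,0)]⟩⟩,.o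
  ⟨false,0,⟨2,[(14,0),(14,0),(3,2),(6,0)]⟩,⟨0,[(0,0)]⟩⟩]⟩))) (.R ⟨2,false,false,false,[0,1],[0,0,0,
  0,1],[0,1,1],(⟨0,[]⟩,⟨0,[]⟩),(⟨0,[(33,0)]⟩,⟨0,[(32,0)]⟩),⟨0,[]⟩,.k,.k,.k,(.r (-1) ⟨2,[(1,0),(23,
  0),(4,0),(0,0),(17,1)]⟩ ⟨2,[(8,0),(1,0),(2,0),(3,0),(17,1),(2,0)]⟩),.k,.k,⟨true,0,⟨2,[(12,0),(14,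
  0),(10,0)]⟩,⟨0,[]⟩⟩,⟨false,0,⟨0,[(31,0)]⟩,⟨0,[(4,0)]⟩⟩,⟨false,0,⟨0,[(47,0)]⟩,⟨8,[(1,1),(17,0),(5,
  1),(22,3),(0,4)]⟩⟩,⟨true,(-1),⟨0,[(0,0),(46,0)]⟩,⟨5,[(1,0),(2,4),(14,0),(5,0),(4,0)]⟩⟩,⟨true,0,⟨0,
  [(51,0)]⟩,⟨0,[]⟩⟩,⟨true,(-1),⟨0,[(0,0)]⟩,⟨0,[(30,0)]⟩⟩,[.o ⟨false,(-1),⟨0,[(0,0)]⟩,⟨1,[(30,1),(10,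
  0),(7,0)]⟩⟩,.o ⟨false,0,⟨0,[(31,0)]⟩,⟨0,[(2,0)]⟩⟩,.a ⟨true,0,⟨0,[(17,0)]⟩,⟨2,[(12,0),(14,0),(10,
  0)]⟩⟩ ⟨false,0,⟨2,[(12,0),(14,0),(10,0)]⟩,⟨1,[(48,0),(0,0)]⟩⟩ ⟨true,(-1),⟨2,[(0,1),(11,0),(11,0),
  (12,0)]⟩,⟨0,[(4,0)]⟩⟩,.e ⟨true,0,⟨0,[(51,0)]⟩,⟨0,[]⟩⟩ ⟨true,(-1),⟨0,[(0,0)]⟩,⟨0,[(30,0)]⟩⟩]⟩)))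
  (.R ⟨2,true,false,true,[0,1],[1,0,0,0,-1],[1,1,1,1],(⟨0,[]⟩,⟨0,[]⟩),(⟨0,[(30,0)]⟩,⟨0,[(31,0)]⟩),
  ⟨0,[]⟩,.k,.k,.k,(.r 0 ⟨1,[(23,0),(0,0),(11,0)]⟩ ⟨1,[(45,1),(0,0),(0,0)]⟩),.k,.k,⟨false,0,⟨0,[(44,
  0)]⟩,⟨1,[(45,1),(0,0),(0,0)]⟩⟩,⟨true,1,⟨9,[(2,9),(7,7),(6,0),(0,3),(0,0),(15,3),(3,0)]⟩,⟨0,[(0,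
  0)]⟩⟩,⟨false,0,⟨0,[]⟩,⟨1,[(28,0),(0,0),(17,0)]⟩⟩,⟨true,1,⟨0,[(2,0),(7,0),(7,0)]⟩,⟨0,[(21,0)]⟩⟩,
  ⟨true,0,⟨0,[(44,0)]⟩,⟨0,[(45,0)]⟩⟩,⟨false,2,⟨1,[(28,1),(10,0),(7,0)]⟩,⟨0,[(0,0)]⟩⟩,[]⟩)) (.Q [0,0,
  0,0,0,1,0,0,0,0,0,-1] (.ed true [1,-1,0,0,1] .k) (.R ⟨0,false,false,true,[0,0,0,0,1],[0,1],[1,1,1,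
  1],(⟨0,[(31,0)]⟩,⟨0,[(30,0)]⟩),(⟨0,[(41,0)]⟩,⟨0,[(40,0)]⟩),⟨0,[(0,0)]⟩,.k,.k,(.r 0 ⟨2,[(6,0),(1,
  0),(2,0),(3,0),(17,1),(2,0)]⟩ ⟨9,[(9,1),(7,1),(5,1),(4,4),(0,4),(6,1),(10,4)]⟩),(.r 0 ⟨2,[(6,0),
  (1,0),(2,0),(3,0),(17,1),(2,0)]⟩ ⟨9,[(9,1),(7,1),(5,1),(4,4),(0,4),(6,1),(10,4)]⟩),.k,.k,⟨true,0,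
  ⟨0,[]⟩,⟨2,[(10,0),(14,0),(10,0)]⟩⟩,⟨false,1,⟨0,[(1,0),(3,0),(0,0),(8,0)]⟩,⟨2,[(10,0),(14,0),(3,2),
  (6,0)]⟩⟩,⟨true,0,⟨4,[(9,0),(7,0),(5,0),(12,0)]⟩,⟨2,[(6,0),(1,0),(2,0),(3,0),(17,1),(2,0)]⟩⟩,
  ⟨false,1,⟨2,[(1,1),(0,0),(2,1),(0,0),(8,0),(1,0),(18,0),(10,0)]⟩,⟨0,[(29,0),(15,0)]⟩⟩,⟨false,0,⟨0,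
  []⟩,⟨0,[]⟩⟩,⟨false,0,⟨0,[]⟩,⟨0,[]⟩⟩,[.o ⟨false,0,⟨0,[(44,0)]⟩,⟨1,[(39,0),(5,1),(1,0)]⟩⟩,.a ⟨true,
  0,⟨2,[(15,1),(1,0),(4,0),(5,0)]⟩,⟨0,[(45,0)]⟩⟩ ⟨true,0,⟨4,[(9,0),(7,0),(5,0),(12,0)]⟩,⟨0,[(45,
  0)]⟩⟩ ⟨false,1,⟨3,[(1,0),(0,2),(2,0),(0,0),(8,0),(1,0),(25,0)]⟩,⟨0,[(29,0),(15,0)]⟩⟩,.o ⟨false,0,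
  ⟨0,[(29,0)]⟩,⟨2,[(1,0),(0,1),(2,0),(4,0),(28,0)]⟩⟩,.o ⟨false,0,⟨2,[(10,0),(14,0),(3,2),(6,0)]⟩,⟨0,
  [(1,0),(3,0),(0,0)]⟩⟩]⟩) (.S ⟨1,0,[0,2,0,-1],[0,0,0,0,1],[1,1],(⟨0,[(31,0)]⟩,⟨0,[(30,0)]⟩),⟨0,[(0,
  0)]⟩,.k,(.r 0 ⟨2,[(6,0),(1,0),(2,0),(3,0),(17,1),(2,0)]⟩ ⟨9,[(9,1),(7,1),(5,1),(4,4),(0,4),(6,1),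
  (10,4)]⟩),⟨true,0,⟨0,[]⟩,⟨0,[(49,0)]⟩⟩,⟨false,0,⟨0,[(45,0)]⟩,⟨2,[(17,0),(10,0),(0,0),(16,0),(0,
  0)]⟩⟩,⟨false,1,⟨2,[(17,0),(10,0),(0,0),(16,0),(0,0)]⟩,⟨0,[(45,0)]⟩⟩,⟨true,0,⟨0,[(49,0)]⟩,⟨0,[]⟩⟩,
  [.o ⟨false,(-1),⟨2,[(8,1),(1,1),(5,0),(5,1),(10,1)]⟩,⟨17,[(1,7),(0,9),(2,7),(0,5),(3,1),(6,5),(21,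
  4),(7,14)]⟩⟩,.a ⟨true,(-1),⟨0,[(22,0),(22,0)]⟩,⟨2,[(1,1),(0,0),(2,1),(0,0),(8,0),(1,0),(18,0),(10,
  0)]⟩⟩ ⟨true,0,⟨0,[]⟩,⟨2,[(10,0),(14,0),(10,0)]⟩⟩ ⟨false,0,⟨2,[(6,0),(1,0),(2,0),(3,0),(17,1),(2,
  0)]⟩,⟨2,[(17,0),(10,0),(0,0),(16,0),(0,0)]⟩⟩,.o ⟨false,0,⟨0,[(29,0)]⟩,⟨2,[(1,0),(0,1),(2,0),(4,0),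
  (28,0)]⟩⟩,.o ⟨false,0,⟨2,[(10,0),(14,0),(3,2),(6,0)]⟩,⟨0,[(1,0),(3,0),(0,0)]⟩⟩]⟩))) (.Q [0,0,0,0,
  0,-1,0,0,0,0,0,1] (.ed false [1,-1,0,0,1] .k) (.Q [0,0,1,0,1,0,0,0,-1,-1,0,1] (.p true [0,0,0,0,
  1] [1] (⟨0,[(30,0)]⟩,⟨0,[(29,0)]⟩) .k 1 (⟨0,[]⟩,⟨0,[]⟩) .k .k) (.Q [0,-2,0,0,2,0,1,1,-1,0,-1,1]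
  (.p false [0,0,1] [0,0,0,0,1] (⟨0,[(38,0)]⟩,⟨0,[(37,0)]⟩) .k 2 (⟨0,[(31,0)]⟩,⟨0,[(30,0)]⟩) .k (.r
  (-2) ⟨1,[(28,0),(0,0),(3,1),(2,1),(9,0),(0,1)]⟩ ⟨1,[(5,0),(5,0)]⟩)) (.S ⟨1,0,[0,1,0,-1],[0,0,0,0,
  1],[1,2],(⟨0,[(32,0)]⟩,⟨0,[(31,0)]⟩),⟨0,[(2,0)]⟩,.k,(.r 0 ⟨2,[(7,0),(1,0),(2,0),(3,0),(17,1),(2,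
  0)]⟩ ⟨11,[(0,4),(17,2),(5,2),(5,4),(4,1),(1,2),(10,1)]⟩),⟨false,0,⟨0,[]⟩,⟨2,[(0,0),(29,0),(4,0),
  (12,0)]⟩⟩,⟨true,0,⟨0,[(46,0)]⟩,⟨0,[(45,0)]⟩⟩,⟨true,0,⟨0,[(45,0)]⟩,⟨0,[(46,0)]⟩⟩,⟨false,1,⟨2,[(0,
  0),(29,0),(4,0),(12,0)]⟩,⟨0,[]⟩⟩,[.o ⟨false,(-1),⟨2,[(3,2),(3,0),(1,0),(2,0),(3,0),(17,1),(2,0)]⟩,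
  ⟨15,[(0,5),(5,1),(0,5),(5,3),(4,5),(10,9),(10,4),(6,0)]⟩⟩,.a ⟨true,(-1),⟨0,[(3,0),(12,0),(29,0)]⟩,
  ⟨1,[(0,0),(5,0),(22,0),(7,0),(6,0)]⟩⟩ ⟨false,0,⟨2,[(7,0),(4,0),(3,0),(17,0),(9,0)]⟩,⟨2,[(0,0),(29,
  0),(4,0),(12,0)]⟩⟩ ⟨true,0,⟨0,[(46,0)]⟩,⟨4,[(10,0),(7,0),(5,0),(12,0)]⟩⟩,.e ⟨false,0,⟨0,[(50,0)]⟩,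
  ⟨0,[(48,0)]⟩⟩ ⟨false,0,⟨0,[(46,0)]⟩,⟨8,[(0,1),(17,2),(11,1),(4,1),(11,2),(0,1)]⟩⟩,.o ⟨false,(-1),
  ⟨0,[(3,0)]⟩,⟨1,[(29,1),(10,0),(6,0)]⟩⟩]⟩) (.R ⟨1,false,false,true,[0,0,0,0,1],[1,-1],[1,2],(⟨0,
  [(32,0)]⟩,⟨0,[(31,0)]⟩),(⟨0,[(41,0)]⟩,⟨0,[(42,0)]⟩),⟨0,[(2,0)]⟩,.k,.k,(.r 0 ⟨5,[(0,0),(6,0),(1,2),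
  (6,0),(12,0),(4,3),(2,1)]⟩ ⟨9,[(10,1),(7,1),(5,1),(4,4),(0,4),(6,1),(10,4)]⟩),(.r 0 ⟨1,[(24,0),(0,
  0),(11,0)]⟩ ⟨1,[(46,1),(0,0),(0,0)]⟩),.k,.k,⟨false,0,⟨0,[(45,0)]⟩,⟨1,[(46,1),(0,0),(0,0)]⟩⟩,⟨true,
  1,⟨0,[(1,0)]⟩,⟨0,[(3,0),(12,0)]⟩⟩,⟨false,0,⟨0,[]⟩,⟨1,[(29,0),(0,0),(17,0)]⟩⟩,⟨false,2,⟨1,[(29,1),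
  (10,0),(5,1),(1,0)]⟩,⟨0,[(0,0),(9,0),(5,0),(31,0)]⟩⟩,⟨true,0,⟨0,[(45,0)]⟩,⟨0,[(46,0)]⟩⟩,⟨false,2,
  ⟨1,[(29,1),(10,0),(7,0)]⟩,⟨0,[(3,0),(12,0)]⟩⟩,[.o ⟨false,0,⟨3,[(0,0),(0,0),(5,0),(1,0),(1,1),(7,
  1),(14,1)]⟩,⟨2,[(18,0),(10,0),(0,0),(16,0),(0,0)]⟩⟩,.e ⟨false,0,⟨5,[(0,0),(6,0),(1,0),(6,0),(12,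
  0),(4,1),(9,1)]⟩,⟨1,[(29,0),(0,0),(17,0)]⟩⟩ ⟨false,2,⟨1,[(29,1),(10,0),(5,1),(0,0)]⟩,⟨0,[(0,0),(9,
  0),(5,0),(31,0)]⟩⟩,.a ⟨true,(-1),⟨0,[(3,0),(12,0)]⟩,⟨0,[(29,0)]⟩⟩ ⟨false,0,⟨0,[(50,0)]⟩,⟨0,[(48,
  0)]⟩⟩ ⟨true,1,⟨3,[(0,0),(0,2),(5,0),(1,0),(19,1),(4,1),(11,1)]⟩,⟨0,[(0,0),(9,0),(5,0),(31,0)]⟩⟩,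
  .o ⟨false,(-1),⟨0,[(3,0)]⟩,⟨1,[(29,1),(10,0),(6,0)]⟩⟩]⟩)) (.R ⟨2,true,false,false,[0,1],[0,0,0,0,
  1],[1,0,1,1],(⟨0,[]⟩,⟨0,[]⟩),(⟨0,[(31,0)]⟩,⟨0,[(30,0)]⟩),⟨0,[]⟩,.k,.k,.k,(.r (-1) ⟨9,[(9,1),(7,1),
  (5,1),(4,4),(0,4),(6,1),(10,4)]⟩ ⟨2,[(6,0),(1,0),(2,0),(3,0),(17,1),(2,0)]⟩),.k,.k,⟨false,1,⟨2,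
  [(17,0),(10,0),(0,0),(16,0),(0,0)]⟩,⟨2,[(6,0),(1,0),(2,0),(3,0),(17,1),(2,0)]⟩⟩,⟨true,(-1),⟨0,[(2,
  0)]⟩,⟨0,[(28,0)]⟩⟩,⟨true,0,⟨0,[]⟩,⟨0,[(49,0)]⟩⟩,⟨false,(-1),⟨0,[(0,0),(9,0),(7,0)]⟩,⟨2,[(17,0),
  (10,3),(0,0),(16,0),(0,0)]⟩⟩,⟨false,1,⟨2,[(17,0),(10,0),(0,0),(16,0),(0,0)]⟩,⟨0,[(45,0)]⟩⟩,⟨true,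
  (-1),⟨3,[(0,0),(1,1),(3,0),(4,0),(4,0),(16,0)]⟩,⟨0,[(28,0)]⟩⟩,[]⟩)) (.Q [0,0,0,1,-1,0,-1,-1,1,0,1,
  -1] (.p true [0,0,1] [0,0,0,0,1] (⟨0,[(37,0)]⟩,⟨0,[(36,0)]⟩) .k 2 (⟨0,[(30,0)]⟩,⟨0,[(29,0)]⟩) .k
  (.r (-2) ⟨1,[(27,0),(0,0),(3,1),(2,1),(9,0),(0,1)]⟩ ⟨1,[(4,0),(5,0)]⟩)) (.R ⟨0,false,false,true,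
  [0,0,0,0,1],[0,-1,1],[0,1,0,-1,0,0,0,1],(⟨0,[(31,0)]⟩,⟨0,[(30,0)]⟩),(⟨0,[(27,0)]⟩,⟨1,[(13,0),(23,
  2)]⟩),⟨0,[(1,0)]⟩,.k,.k,(.r 0 ⟨2,[(6,0),(1,0),(2,0),(3,0),(17,1),(2,0)]⟩ ⟨9,[(9,1),(7,1),(5,1),(4,
  4),(0,4),(6,1),(10,4)]⟩),(.r 1 ⟨12,[(5,7),(8,3),(2,0),(1,4),(3,0)]⟩ ⟨0,[(33,0),(2,0),(8,0),(0,0),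
  (0,0)]⟩),.k,.k,⟨true,0,⟨2,[(10,0),(14,0),(10,0)]⟩,⟨0,[]⟩⟩,⟨false,1,⟨0,[(20,0),(7,0)]⟩,⟨0,[(2,0),
  (3,0),(8,0)]⟩⟩,⟨true,1,⟨1,[(33,1),(2,1),(8,1),(0,0),(0,0)]⟩,⟨0,[(5,0)]⟩⟩,⟨false,2,⟨0,[(28,0),(4,
  0),(11,0),(1,0)]⟩,⟨0,[(0,0)]⟩⟩,⟨false,0,⟨0,[]⟩,⟨0,[]⟩⟩,⟨false,0,⟨0,[]⟩,⟨0,[]⟩⟩,[.o ⟨false,0,⟨0,
  [(33,0),(11,0)]⟩,⟨21,[(6,15),(3,3),(1,19),(4,13),(16,1),(4,0),(7,4)]⟩⟩,.e ⟨false,1,⟨0,[(6,0),(2,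
  0),(5,0),(29,1)]⟩,⟨4,[(5,0),(6,2),(4,1),(5,0),(22,0)]⟩⟩ ⟨false,2,⟨1,[(28,1),(4,1),(11,1),(0,0),(0,
  0)]⟩,⟨0,[(0,0)]⟩⟩,.a ⟨true,(-1),⟨0,[(2,0),(12,0)]⟩,⟨0,[(28,0)]⟩⟩ ⟨false,1,⟨1,[(33,1),(2,1),(8,1),
  (0,0),(0,0)]⟩,⟨0,[(5,0),(41,0)]⟩⟩ ⟨true,1,⟨0,[(28,0),(4,0),(11,0)]⟩,⟨0,[(0,0)]⟩⟩,.o ⟨false,(-1),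
  ⟨0,[(2,0)]⟩,⟨1,[(28,1),(10,0),(6,0)]⟩⟩]⟩) (.R ⟨0,false,false,true,[0,0,0,0,1],[0,1],[],(⟨0,[(31,
  0)]⟩,⟨0,[(30,0)]⟩),(⟨0,[(41,0)]⟩,⟨0,[(40,0)]⟩),⟨0,[(1,0)]⟩,.k,.k,(.r 0 ⟨2,[(6,0),(1,0),(2,0),(3,
  0),(17,1),(2,0)]⟩ ⟨11,[(0,1),(16,3),(5,1),(4,4),(0,6),(6,1),(10,4)]⟩),(.r 0 ⟨2,[(6,0),(1,0),(2,0),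
  (3,0),(17,1),(2,0)]⟩ ⟨11,[(0,1),(16,3),(5,1),(4,4),(0,6),(6,1),(10,4)]⟩),.k,.k,⟨true,1,⟨3,[(0,0),
  (5,0),(1,0),(6,0),(13,0),(15,0),(1,1)]⟩,⟨0,[(19,0)]⟩⟩,⟨false,2,⟨0,[(28,0),(17,0)]⟩,⟨0,[(2,0)]⟩⟩,
  ⟨false,1,⟨0,[(47,0)]⟩,⟨7,[(0,0),(9,0),(11,0),(0,0),(18,2)]⟩⟩,⟨true,1,⟨2,[(0,0),(4,0),(0,0),(8,0),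
  (1,0),(10,1)]⟩,⟨2,[(2,2),(3,0),(1,0),(2,0),(3,0),(17,1),(2,0)]⟩⟩,⟨false,0,⟨0,[]⟩,⟨0,[]⟩⟩,⟨false,0,
  ⟨0,[]⟩,⟨0,[]⟩⟩,[.o ⟨false,0,⟨0,[(44,0)]⟩,⟨1,[(39,0),(5,1),(1,0)]⟩⟩,.a ⟨true,0,⟨2,[(15,1),(1,0),(4,
  0),(5,0)]⟩,⟨0,[(45,0)]⟩⟩ ⟨false,1,⟨1,[(46,0),(0,0)]⟩,⟨7,[(0,0),(9,0),(11,0),(0,0),(18,2)]⟩⟩ ⟨true,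
  1,⟨2,[(0,0),(4,0),(0,0),(8,0),(1,0),(10,1)]⟩,⟨0,[(2,0),(42,0)]⟩⟩,.e ⟨false,1,⟨1,[(28,0),(0,0),(17,
  0)]⟩,⟨0,[]⟩⟩ ⟨false,1,⟨2,[(0,0),(4,0),(0,0),(8,0),(1,0),(10,1)]⟩,⟨3,[(0,0),(1,3),(3,0),(1,0),(6,
  0),(13,0),(15,0),(1,1)]⟩⟩,.o ⟨false,(-1),⟨0,[(2,0)]⟩,⟨1,[(28,1),(10,0),(6,0)]⟩⟩]⟩))))))) (.I [0,0,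
  -1,-1,1,0,0,1] (.S ⟨1,0,[0,0,0,-1,0,0,0,1],[0,0,1],[0,1,0,-1,0,0,0,1],(⟨0,[(33,0)]⟩,⟨0,[(32,0)]⟩),
  ⟨0,[(22,0)]⟩,.k,.k,⟨false,0,⟨0,[(40,0)]⟩,⟨8,[(0,1),(11,2),(5,1),(22,2),(0,3)]⟩⟩,⟨true,0,⟨0,[(40,
  0)]⟩,⟨0,[(39,0)]⟩⟩,⟨true,0,⟨0,[(44,0)]⟩,⟨0,[]⟩⟩,⟨false,1,⟨2,[(0,0),(17,0),(23,1)]⟩,⟨0,[]⟩⟩,[.e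
  ⟨false,1,⟨0,[(0,0),(43,0)]⟩,⟨0,[(3,0),(8,0)]⟩⟩ ⟨false,1,⟨0,[(0,0)]⟩,⟨10,[(7,8),(4,4),(5,1),(19,
  2)]⟩⟩,.o ⟨false,1,⟨3,[(0,1),(3,1),(8,0),(16,0),(9,2),(1,1)]⟩,⟨8,[(3,5),(1,6),(0,0),(5,3),(16,1),
  (4,0),(3,9)]⟩⟩,.o ⟨false,0,⟨0,[(15,0)]⟩,⟨1,[(31,1),(2,0),(6,0)]⟩⟩,.a ⟨true,(-1),⟨0,[(1,0)]⟩,⟨0,
  [(31,0),(9,0)]⟩⟩ ⟨false,1,⟨0,[(0,0)]⟩,⟨2,[(6,0),(0,0),(1,0),(2,1),(29,0)]⟩⟩ ⟨true,1,⟨0,[(0,0)]⟩,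
  ⟨6,[(6,5),(5,2),(1,0),(3,0),(19,1)]⟩⟩]⟩) (.Q [0,-1,0,-2,1,0,0,0,-1,-1,0,1] (.p true [0,0,0,0,1]
  [1] (⟨0,[(26,0)]⟩,⟨0,[(25,0)]⟩) .k 1 (⟨0,[]⟩,⟨0,[]⟩) .k .k) (.R ⟨1,true,false,false,[1,-1],[0,0,0,
  0,1],[0,1,-1,-2],(⟨0,[(36,0)]⟩,⟨0,[(37,0)]⟩),(⟨0,[(27,0)]⟩,⟨0,[(26,0)]⟩),⟨0,[(22,0),(0,0)]⟩,.k,.k,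
  (.r (-1) ⟨0,[(0,0),(17,0),(23,0)]⟩ ⟨4,[(5,1),(7,1),(5,1),(12,1)]⟩),(.r (-1) ⟨3,[(0,1),(10,1),(13,
  1),(16,0),(0,0)]⟩ ⟨1,[(19,0),(0,0),(11,0)]⟩),(.r (-2) ⟨1,[(0,1),(10,1),(12,0),(0,2),(16,0)]⟩ ⟨1,
  [(1,0),(3,0),(9,0),(16,0),(6,0)]⟩),.k,⟨false,1,⟨0,[(0,0),(17,0),(23,0)]⟩,⟨1,[(13,0),(26,0)]⟩⟩,
  ⟨true,0,⟨0,[(11,0),(13,0)]⟩,⟨1,[(0,1),(0,0),(3,0),(9,0),(16,0),(6,0)]⟩⟩,⟨false,0,⟨0,[(41,0)]⟩,⟨2,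
  [(13,0),(10,0),(0,0),(16,0),(0,0)]⟩⟩,⟨true,(-1),⟨0,[(17,0)]⟩,⟨5,[(0,3),(14,0),(8,1),(10,0),(2,0),
  (0,0)]⟩⟩,⟨true,0,⟨0,[(45,0)]⟩,⟨0,[]⟩⟩,⟨false,0,⟨3,[(11,1),(1,1),(3,1),(6,0),(0,2),(16,0)]⟩,⟨0,[(0,
  0)]⟩⟩,[]⟩) (.I [0,0,1,1,-1,0,0,-1] (.I [0,0,-2,-2,0,0,0,-1] (.R ⟨1,true,false,false,[1,0,-1],[0,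
  1],[1,1,0,0,0,0,0,-1],(⟨0,[(35,0)]⟩,⟨0,[(36,0)]⟩),(⟨0,[(39,0)]⟩,⟨0,[(38,0)]⟩),⟨0,[(24,0)]⟩,.k,.k,
  .k,.k,(.r 0 ⟨0,[(0,0)]⟩ ⟨5,[(7,1),(7,1),(6,3),(3,4),(0,4),(6,5),(10,0)]⟩),.k,⟨false,0,⟨4,[(0,3),
  (20,0),(18,0),(0,1)]⟩,⟨0,[(22,0),(11,0),(10,0)]⟩⟩,⟨true,0,⟨0,[(30,0)]⟩,⟨0,[(8,0)]⟩⟩,⟨false,0,⟨0,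
  []⟩,⟨1,[(26,0),(0,0),(17,0)]⟩⟩,⟨true,0,⟨0,[(7,0),(5,0)]⟩,⟨5,[(0,2),(7,3),(0,0),(22,1),(4,0),(2,0),
  (0,0)]⟩⟩,⟨true,0,⟨0,[(42,0)]⟩,⟨0,[(43,0)]⟩⟩,⟨false,1,⟨1,[(2,0),(4,0),(5,0),(8,0),(3,0),(18,1)]⟩,
  ⟨0,[(0,0),(7,0)]⟩⟩,[]⟩) (.Q [0,0,0,0,0,-2,0,0,0,0,1] (.p true [0,0,1] [] (⟨0,[(36,0)]⟩,⟨0,[(35,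
  0)]⟩) .k 0 (⟨0,[]⟩,⟨0,[]⟩) .k .k) (.I [1,-1,-2,-1,2,0,0,1] (.R ⟨1,false,false,true,[0,-1,1],[1,
  -1],[1,0,-1,-1,0,0,0,1],(⟨0,[(27,0)]⟩,⟨1,[(13,0),(23,2)]⟩),(⟨0,[(40,0)]⟩,⟨0,[(41,0)]⟩),⟨0,[(1,
  0)]⟩,.k,.k,(.r (-2) ⟨0,[(0,0),(44,0),(3,0)]⟩ ⟨8,[(5,6),(8,0),(2,2),(1,1),(3,0)]⟩),.k,.k,.k,⟨false,
  2,⟨17,[(0,16),(1,4),(14,0),(5,3),(23,1)]⟩,⟨2,[(5,0),(5,1),(31,0)]⟩⟩,⟨true,1,⟨1,[(36,1),(2,0),(6,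
  0)]⟩,⟨0,[(6,0)]⟩⟩,⟨true,0,⟨0,[]⟩,⟨0,[(49,0)]⟩⟩,⟨true,0,⟨4,[(5,0),(2,1),(1,2),(23,1),(4,0),(3,2)]⟩,
  ⟨0,[(9,0),(5,0),(29,0)]⟩⟩,⟨false,1,⟨8,[(0,1),(16,2),(5,1),(22,1),(0,2)]⟩,⟨0,[(45,0)]⟩⟩,⟨true,0,⟨9,
  [(5,5),(2,1),(25,1),(1,7),(2,4),(3,7),(2,0)]⟩,⟨0,[(9,0),(5,0),(29,1)]⟩⟩,[.o ⟨false,0,⟨0,[(8,0),(1,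
  0),(13,0)]⟩,⟨8,[(0,1),(16,2),(5,1),(22,1),(0,2)]⟩⟩,.e ⟨false,2,⟨0,[(0,0)]⟩,⟨10,[(5,7),(5,0),(7,1),
  (3,1),(18,2)]⟩⟩ ⟨false,2,⟨5,[(0,3),(7,1),(25,1),(1,3),(2,2),(3,1),(2,0)]⟩,⟨1,[(5,0),(0,0),(2,0),
  (5,0)]⟩⟩,.a ⟨true,(-1),⟨0,[(6,0)]⟩,⟨0,[(36,0),(9,0)]⟩⟩ ⟨false,2,⟨2,[(0,2),(9,0),(14,0),(10,0)]⟩,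
  ⟨0,[(3,0)]⟩⟩ ⟨true,1,⟨1,[(0,0),(7,0),(1,1),(31,0),(0,0)]⟩,⟨1,[(5,0),(0,0),(2,0),(5,0)]⟩⟩,.o
  ⟨false,(-1),⟨2,[(5,0),(0,1),(2,0),(0,1),(7,1)]⟩,⟨1,[(36,1),(2,0),(6,2)]⟩⟩]⟩) (.Q [0,0,0,0,1,0,0,0,
  -1,-1,0,1] (.p true [0,0,0,0,1] [1] (⟨0,[(31,0)]⟩,⟨0,[(30,0)]⟩) .k 1 (⟨0,[]⟩,⟨0,[]⟩) .k .k) (.Q
  [0,-1,0,-1,1,0,1,1,-1,0,-1,1] (.p false [0,0,1] [0,0,0,0,1] (⟨0,[(39,0)]⟩,⟨0,[(38,0)]⟩) .k 2 (⟨0,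
  [(32,0)]⟩,⟨0,[(31,0)]⟩) .k (.r (-2) ⟨1,[(29,0),(0,0),(3,1),(2,1),(9,0),(0,1)]⟩ ⟨5,[(1,2),(7,0),(3,
  1),(29,0),(0,0)]⟩)) (.R ⟨1,true,false,false,[0,0,1],[0,0,0,0,1],[0,1,0,-1,0,0,0,1],(⟨0,[(40,0)]⟩,
  ⟨0,[(39,0)]⟩),(⟨0,[(33,0)]⟩,⟨0,[(32,0)]⟩),⟨0,[(29,0)]⟩,.k,.k,.k,.k,(.r (-2) ⟨0,[(0,0),(30,0),(6,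
  0),(9,0)]⟩ ⟨8,[(2,3),(4,0),(6,0),(10,2),(19,1)]⟩),.k,⟨true,1,⟨1,[(0,0),(30,0),(3,0),(2,1),(8,0),
  (0,0)]⟩,⟨0,[(7,0)]⟩⟩,⟨false,1,⟨0,[(31,0),(6,0),(9,0)]⟩,⟨5,[(0,4),(0,0),(0,1),(4,1),(2,0),(23,0),
  (10,2)]⟩⟩,⟨false,0,⟨0,[(47,0)]⟩,⟨8,[(4,1),(14,0),(5,1),(22,3),(0,4)]⟩⟩,⟨true,(-1),⟨0,[(6,0),(3,0),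
  (1,0)]⟩,⟨1,[(0,0),(25,0),(3,0)]⟩⟩,⟨true,0,⟨0,[(51,0)]⟩,⟨0,[]⟩⟩,⟨false,0,⟨3,[(6,3),(3,1),(1,1),(23,
  1),(4,0),(7,2)]⟩,⟨0,[(0,0)]⟩⟩,[]⟩) (.Q [0,0,0,0,0,-1,0,0,0,0,0,1] (.ed false [1,-1,0,0,1] .k) (.Q
  [0,0,1,1,-1,0,0,0,1,1,0,-1] (.p false [0,0,0,0,1] [1] (⟨0,[(34,0)]⟩,⟨0,[(33,0)]⟩) .k 1 (⟨0,[]⟩,⟨0,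
  []⟩) .k .k) (.R ⟨1,false,false,false,[0,0,0,0,1],[1,-1],[1,2],(⟨0,[(35,0)]⟩,⟨0,[(34,0)]⟩),(⟨0,
  [(44,0)]⟩,⟨0,[(45,0)]⟩),⟨0,[(1,0)]⟩,.k,.k,(.r 0 ⟨2,[(12,1),(24,1),(2,1),(6,0)]⟩ ⟨2,[(6,0),(20,0),
  (4,0),(0,0),(17,1)]⟩),(.r 0 ⟨2,[(6,0),(20,0),(25,1)]⟩ ⟨1,[(49,1),(0,0),(0,0)]⟩),.k,.k,⟨true,(-1),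
  ⟨1,[(4,0),(23,0),(11,0),(5,0)]⟩,⟨0,[(49,0),(1,0)]⟩⟩,⟨false,1,⟨0,[(3,0)]⟩,⟨0,[(19,0),(13,0)]⟩⟩,
  ⟨false,0,⟨0,[]⟩,⟨1,[(32,0),(0,0),(17,0)]⟩⟩,⟨false,2,⟨0,[(3,0),(45,0),(1,0)]⟩,⟨0,[(25,0)]⟩⟩,⟨true,
  0,⟨0,[(48,0)]⟩,⟨0,[(49,0)]⟩⟩,⟨false,2,⟨0,[(3,0),(47,0)]⟩,⟨0,[(26,0)]⟩⟩,[.a ⟨true,0,⟨0,[(49,0)]⟩,
  ⟨6,[(0,0),(5,0),(12,5),(1,0),(5,0),(4,0)]⟩⟩ ⟨false,0,⟨0,[(46,0)]⟩,⟨0,[(51,0)]⟩⟩ ⟨true,1,⟨0,[(3,0),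
  (45,0)]⟩,⟨0,[(0,0)]⟩⟩,.o ⟨false,1,⟨1,[(43,0),(5,1),(1,0)]⟩,⟨0,[(48,0)]⟩⟩,.o ⟨false,0,⟨0,[(33,0)]⟩,
  ⟨0,[(3,0)]⟩⟩,.e ⟨false,0,⟨2,[(12,0),(24,0),(2,0),(6,1)]⟩,⟨2,[(14,0),(14,0),(10,0),(10,2)]⟩⟩
  ⟨false,2,⟨1,[(3,1),(45,1),(0,0),(0,0)]⟩,⟨0,[(0,0)]⟩⟩]⟩) (.Q [0,0,1,0,-1,0,0,0,1,1,0,-1] (.p false
  [0,0,0,0,1] [1] (⟨0,[(35,0)]⟩,⟨0,[(34,0)]⟩) .k 1 (⟨0,[]⟩,⟨0,[]⟩) .k .k) (.S ⟨1,0,[0,1,0,-1],[0,0,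
  0,0,1],[1,2],(⟨0,[(36,0)]⟩,⟨0,[(35,0)]⟩),⟨0,[(2,0)]⟩,.k,(.r 0 ⟨0,[(1,0),(25,0)]⟩ ⟨2,[(7,0),(20,0),
  (4,0),(0,0),(17,1)]⟩),⟨false,0,⟨0,[]⟩,⟨1,[(33,0),(0,0),(17,0)]⟩⟩,⟨true,0,⟨0,[(50,0)]⟩,⟨0,[(49,
  0)]⟩⟩,⟨true,0,⟨0,[(49,0)]⟩,⟨0,[(50,0)]⟩⟩,⟨false,1,⟨1,[(33,0),(0,0),(17,0)]⟩,⟨0,[]⟩⟩,[.e ⟨false,0,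
  ⟨0,[(47,0)]⟩,⟨0,[(52,0)]⟩⟩ ⟨false,0,⟨0,[(1,0),(25,0)]⟩,⟨8,[(7,1),(14,0),(5,1),(22,3),(0,4)]⟩⟩,.o
  ⟨false,0,⟨0,[(34,0),(15,0)]⟩,⟨2,[(1,0),(2,1),(17,0),(25,0)]⟩⟩,.o ⟨false,0,⟨0,[(34,0)]⟩,⟨0,[(4,
  0)]⟩⟩,.a ⟨true,(-1),⟨0,[(0,0)]⟩,⟨0,[(4,0),(15,0)]⟩⟩ ⟨false,0,⟨1,[(1,0),(25,0),(20,0)]⟩,⟨4,[(0,0),
  (14,1),(14,0),(2,0),(18,4)]⟩⟩ ⟨true,0,⟨0,[(1,0),(25,0)]⟩,⟨29,[(0,0),(6,4),(7,1),(6,4),(5,4),(1,0),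
  (2,0)]⟩⟩]⟩) (.S ⟨1,0,[0,2,0,-1],[0,0,0,0,1],[1,1],(⟨0,[(36,0)]⟩,⟨0,[(35,0)]⟩),⟨0,[(2,0)]⟩,.k,(.r
  0 ⟨0,[(1,0),(25,0)]⟩ ⟨2,[(7,0),(20,0),(4,0),(0,0),(17,1)]⟩),⟨true,0,⟨0,[]⟩,⟨0,[(54,0)]⟩⟩,⟨false,0,
  ⟨0,[(50,0)]⟩,⟨8,[(7,1),(14,0),(5,1),(22,3),(0,4)]⟩⟩,⟨false,1,⟨8,[(7,1),(14,0),(5,1),(22,3),(0,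
  4)]⟩,⟨0,[(50,0)]⟩⟩,⟨true,0,⟨0,[(54,0)]⟩,⟨0,[]⟩⟩,[.o ⟨false,(-1),⟨2,[(13,1),(1,1),(5,0),(5,1),(10,
  1)]⟩,⟨5,[(0,1),(3,3),(17,1),(28,0),(0,4)]⟩⟩,.a ⟨true,(-1),⟨0,[(27,0),(22,0)]⟩,⟨5,[(0,4),(10,1),(8,
  2),(1,1),(10,0),(7,1),(10,1)]⟩⟩ ⟨true,0,⟨0,[]⟩,⟨2,[(15,0),(14,0),(10,0)]⟩⟩ ⟨false,0,⟨0,[(1,0),(25,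
  0)]⟩,⟨8,[(7,1),(14,0),(5,1),(22,3),(0,4)]⟩⟩,.o ⟨false,0,⟨0,[(34,0)]⟩,⟨0,[(4,0)]⟩⟩,.o ⟨false,0,⟨2,
  [(15,0),(14,0),(3,2),(6,0)]⟩,⟨0,[(0,0)]⟩⟩]⟩))) (.Q [0,0,1,1,-1,0,0,0,1,1,0,-1] (.p false [0,0,0,0,
  1] [1] (⟨0,[(34,0)]⟩,⟨0,[(33,0)]⟩) .k 1 (⟨0,[]⟩,⟨0,[]⟩) .k .k) (.R ⟨0,false,false,true,[0,0,0,0,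
  1],[1,-1],[1,0,1],(⟨0,[(35,0)]⟩,⟨0,[(34,0)]⟩),(⟨0,[(44,0)]⟩,⟨0,[(45,0)]⟩),⟨0,[(1,0)]⟩,.k,.k,(.r 0
  ⟨2,[(12,1),(24,1),(2,1),(6,0)]⟩ ⟨2,[(6,0),(20,0),(4,0),(0,0),(17,1)]⟩),(.r 0 ⟨2,[(6,0),(20,0),(25,
  1)]⟩ ⟨1,[(49,1),(0,0),(0,0)]⟩),.k,.k,⟨true,0,⟨11,[(6,0),(3,4),(3,4),(6,2),(5,0),(23,4)]⟩,⟨2,[(12,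
  1),(24,1),(2,1),(6,0)]⟩⟩,⟨false,1,⟨0,[(3,0)]⟩,⟨0,[(19,0),(13,0)]⟩⟩,⟨false,1,⟨2,[(14,0),(14,0),(10,
  0),(10,2)]⟩,⟨2,[(12,0),(24,0),(2,0),(6,1)]⟩⟩,⟨true,1,⟨0,[(3,0),(45,0)]⟩,⟨0,[(25,0)]⟩⟩,⟨false,0,⟨0,
  []⟩,⟨0,[]⟩⟩,⟨false,0,⟨0,[]⟩,⟨0,[]⟩⟩,[.o ⟨false,0,⟨0,[(12,0),(1,0),(13,0)]⟩,⟨8,[(6,1),(14,0),(5,1),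
  (22,3),(0,4)]⟩⟩,.a ⟨true,0,⟨0,[(49,0)]⟩,⟨6,[(0,0),(5,0),(12,5),(1,0),(5,0),(4,0)]⟩⟩ ⟨false,1,⟨1,
  [(32,0),(0,0),(17,0)]⟩,⟨2,[(12,0),(24,0),(2,0),(6,1)]⟩⟩ ⟨true,1,⟨0,[(3,0),(45,0)]⟩,⟨0,[(0,0)]⟩⟩,
  .o ⟨false,0,⟨0,[(33,0)]⟩,⟨0,[(3,0)]⟩⟩,.e ⟨true,0,⟨0,[]⟩,⟨0,[(53,0)]⟩⟩ ⟨true,1,⟨2,[(3,2),(8,1),(24,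
  1),(2,1),(6,0)]⟩,⟨0,[(0,0)]⟩⟩]⟩) (.Q [0,0,1,0,-1,0,0,0,1,1,0,-1] (.p false [0,0,0,0,1] [1] (⟨0,
  [(35,0)]⟩,⟨0,[(34,0)]⟩) .k 1 (⟨0,[]⟩,⟨0,[]⟩) .k .k) (.R ⟨0,false,false,false,[0,0,0,0,1],[1,-1],
  [1,1,1],(⟨0,[(36,0)]⟩,⟨0,[(35,0)]⟩),(⟨0,[(45,0)]⟩,⟨0,[(46,0)]⟩),⟨0,[(2,0)]⟩,.k,.k,(.r 0 ⟨0,[(1,0),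
  (25,0)]⟩ ⟨2,[(7,0),(20,0),(4,0),(0,0),(17,1)]⟩),(.r 0 ⟨2,[(7,0),(20,0),(25,1)]⟩ ⟨1,[(50,1),(0,0),
  (0,0)]⟩),.k,.k,⟨true,(-1),⟨0,[(24,0)]⟩,⟨1,[(50,1),(0,0),(0,0)]⟩⟩,⟨false,1,⟨0,[(4,0)]⟩,⟨0,[(20,0),
  (13,0)]⟩⟩,⟨true,0,⟨4,[(0,0),(14,1),(14,0),(2,0)]⟩,⟨1,[(1,0),(25,0),(20,0)]⟩⟩,⟨false,2,⟨3,[(1,2),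
  (13,0),(17,0),(6,0),(9,0),(1,3)]⟩,⟨0,[(26,0)]⟩⟩,⟨false,0,⟨0,[]⟩,⟨0,[]⟩⟩,⟨false,0,⟨0,[]⟩,⟨0,[]⟩⟩,
  [.e ⟨false,0,⟨0,[(54,0)]⟩,⟨1,[(51,0),(0,0)]⟩⟩ ⟨false,1,⟨0,[(1,0)]⟩,⟨1,[(9,0),(17,0),(5,0),(0,0),
  (17,0)]⟩⟩,.o ⟨false,1,⟨1,[(44,0),(5,1),(1,0)]⟩,⟨0,[(49,0)]⟩⟩,.o ⟨false,0,⟨0,[(34,0)]⟩,⟨0,[(4,
  0)]⟩⟩,.a ⟨true,(-1),⟨0,[(0,0)]⟩,⟨0,[(4,0),(15,0)]⟩⟩ ⟨false,0,⟨0,[]⟩,⟨1,[(33,0),(0,0),(17,0)]⟩⟩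
  ⟨true,1,⟨0,[(1,0)]⟩,⟨7,[(0,1),(6,1),(1,0),(17,4),(0,1)]⟩⟩]⟩) (.R ⟨0,false,false,true,[0,0,0,0,1],
  [0,1],[1,1,1,1],(⟨0,[(36,0)]⟩,⟨0,[(35,0)]⟩),(⟨0,[(46,0)]⟩,⟨0,[(45,0)]⟩),⟨0,[(2,0)]⟩,.k,.k,(.r 0
  ⟨0,[(1,0),(25,0)]⟩ ⟨2,[(7,0),(20,0),(4,0),(0,0),(17,1)]⟩),(.r 0 ⟨0,[(1,0),(25,0)]⟩ ⟨2,[(7,0),(20,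
  0),(4,0),(0,0),(17,1)]⟩),.k,.k,⟨true,0,⟨0,[]⟩,⟨2,[(15,0),(14,0),(10,0)]⟩⟩,⟨false,1,⟨0,[(0,0),(19,
  0)]⟩,⟨2,[(15,0),(14,0),(3,2),(6,0)]⟩⟩,⟨true,0,⟨23,[(7,4),(3,0),(3,0),(6,2),(5,4),(23,0)]⟩,⟨0,[(1,
  0),(25,0)]⟩⟩,⟨false,1,⟨5,[(0,4),(10,1),(8,2),(1,1),(10,0),(7,1),(10,1)]⟩,⟨0,[(34,0),(15,0)]⟩⟩,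
  ⟨false,0,⟨0,[]⟩,⟨0,[]⟩⟩,⟨false,0,⟨0,[]⟩,⟨0,[]⟩⟩,[.o ⟨false,0,⟨0,[(49,0)]⟩,⟨1,[(44,0),(5,1),(1,
  0)]⟩⟩,.a ⟨true,0,⟨17,[(7,2),(12,16),(1,2),(5,2),(1,0),(10,1)]⟩,⟨0,[(50,0)]⟩⟩ ⟨true,0,⟨23,[(7,4),
  (3,0),(3,0),(6,2),(5,4),(23,0)]⟩,⟨0,[(50,0)]⟩⟩ ⟨false,1,⟨7,[(0,4),(19,4),(1,1),(10,2),(14,1)]⟩,⟨0,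
  [(34,0),(15,0)]⟩⟩,.o ⟨false,0,⟨0,[(34,0)]⟩,⟨0,[(4,0)]⟩⟩,.o ⟨false,0,⟨2,[(15,0),(14,0),(3,2),(6,
  0)]⟩,⟨0,[(0,0)]⟩⟩]⟩))))) (.Q [0,-2,0,0,2,0,0,0,-1,-1,0,1] (.p true [0,0,0,0,1] [1] (⟨0,[(32,0)]⟩,
  ⟨0,[(31,0)]⟩) .k 1 (⟨0,[]⟩,⟨0,[]⟩) .k .k) (.R ⟨2,false,false,false,[0,1],[1,0,0,0,-1],[0,0,1],(⟨0,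
  []⟩,⟨0,[]⟩),(⟨0,[(32,0)]⟩,⟨0,[(33,0)]⟩),⟨0,[]⟩,.k,.k,.k,(.r 0 ⟨2,[(4,0),(20,0),(25,1)]⟩ ⟨1,[(47,
  1),(0,0),(0,0)]⟩),.k,.k,⟨false,0,⟨0,[(51,0)]⟩,⟨1,[(48,0),(0,0)]⟩⟩,⟨true,1,⟨5,[(0,1),(1,0),(9,1),
  (0,0),(16,3),(4,1),(5,0)]⟩,⟨0,[(1,0)]⟩⟩,⟨true,0,⟨0,[(47,0)]⟩,⟨0,[(46,0)]⟩⟩,⟨false,2,⟨0,[(0,0),(46,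
  0)]⟩,⟨0,[(23,0)]⟩⟩,⟨false,1,⟨1,[(30,0),(0,0),(17,0)]⟩,⟨0,[]⟩⟩,⟨false,2,⟨0,[(0,0)]⟩,⟨0,[(24,0)]⟩⟩,
  [.o ⟨false,2,⟨3,[(0,1),(29,2),(0,0),(9,0)]⟩,⟨0,[(1,0),(10,0),(7,0),(24,0)]⟩⟩,.o ⟨false,2,⟨0,[(0,
  0)]⟩,⟨2,[(10,0),(1,0),(5,1),(5,0),(10,0)]⟩⟩,.a ⟨true,0,⟨0,[(17,0)]⟩,⟨2,[(12,0),(14,0),(10,0)]⟩⟩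
  ⟨true,0,⟨2,[(12,0),(14,0),(10,0)]⟩,⟨2,[(10,0),(24,0),(2,0),(6,1)]⟩⟩ ⟨false,2,⟨2,[(0,1),(11,0),(17,
  0),(6,0),(11,0)]⟩,⟨2,[(1,2),(8,0),(24,0),(2,0),(6,1)]⟩⟩,.e ⟨false,1,⟨1,[(30,0),(0,0),(17,0)]⟩,⟨0,
  []⟩⟩ ⟨false,2,⟨0,[(0,0)]⟩,⟨0,[(24,0)]⟩⟩]⟩) (.Q [0,0,0,1,1,0,0,0,-1,0,0,1] (.p true [0,0,0,0,1] []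
  (⟨0,[(33,0)]⟩,⟨0,[(32,0)]⟩) .k 0 (⟨0,[]⟩,⟨0,[]⟩) .k .k) (.Q [0,0,0,0,0,-1,0,0,0,0,0,1] (.ed false
  [1,-1,0,0,1] .k) (.Q [0,0,1,0,-1,0,0,0,1,0,0,-1] (.p false [0,0,0,0,1] [] (⟨0,[(35,0)]⟩,⟨0,[(34,
  0)]⟩) .k 0 (⟨0,[]⟩,⟨0,[]⟩) .k .k) (.S ⟨1,0,[0,1,0,-1],[0,0,0,0,1],[1,2],(⟨0,[(36,0)]⟩,⟨0,[(35,
  0)]⟩),⟨0,[(1,0)]⟩,.k,(.r 0 ⟨2,[(13,1),(24,1),(2,1),(6,0)]⟩ ⟨2,[(7,0),(20,0),(4,0),(0,0),(17,1)]⟩),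
  ⟨false,0,⟨0,[]⟩,⟨1,[(33,0),(0,0),(17,0)]⟩⟩,⟨true,0,⟨0,[(50,0)]⟩,⟨0,[(49,0)]⟩⟩,⟨true,0,⟨0,[(49,
  0)]⟩,⟨0,[(50,0)]⟩⟩,⟨false,1,⟨1,[(33,0),(0,0),(17,0)]⟩,⟨0,[]⟩⟩,[.o ⟨false,(-1),⟨1,[(3,0),(0,0),(39,
  0),(5,1)]⟩,⟨1,[(2,1),(41,0),(7,0)]⟩⟩,.a ⟨true,(-1),⟨0,[(4,0),(45,0)]⟩,⟨0,[(2,0)]⟩⟩ ⟨false,0,⟨2,
  [(13,0),(24,0),(2,0),(6,1)]⟩,⟨1,[(33,0),(0,0),(17,0)]⟩⟩ ⟨true,0,⟨0,[(50,0)]⟩,⟨23,[(7,4),(3,0),(3,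
  0),(6,2),(5,4),(23,0)]⟩⟩,.e ⟨false,0,⟨0,[(54,0)]⟩,⟨0,[(52,0)]⟩⟩ ⟨false,0,⟨0,[(50,0)]⟩,⟨4,[(2,1),
  (19,0),(11,1),(16,0),(0,1)]⟩⟩,.o ⟨false,(-1),⟨0,[(0,0)]⟩,⟨1,[(33,1),(10,0),(6,0)]⟩⟩]⟩) (.R ⟨2,
  true,false,true,[0,1],[1,0,0,0,-1],[1,1,1,1],(⟨0,[]⟩,⟨0,[]⟩),(⟨0,[(35,0)]⟩,⟨0,[(36,0)]⟩),⟨0,[]⟩,
  .k,.k,.k,(.r 0 ⟨2,[(7,0),(20,0),(25,1)]⟩ ⟨1,[(50,1),(0,0),(0,0)]⟩),.k,.k,⟨false,0,⟨0,[(49,0)]⟩,⟨1,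
  [(50,1),(0,0),(0,0)]⟩⟩,⟨true,1,⟨11,[(0,1),(4,1),(8,1),(0,5),(7,3),(9,9),(10,2),(7,0)]⟩,⟨0,[(4,
  0)]⟩⟩,⟨false,0,⟨0,[]⟩,⟨1,[(33,0),(0,0),(17,0)]⟩⟩,⟨true,1,⟨0,[(0,0),(14,0),(7,0)]⟩,⟨0,[(26,0)]⟩⟩,
  ⟨true,0,⟨0,[(49,0)]⟩,⟨0,[(50,0)]⟩⟩,⟨false,2,⟨1,[(33,1),(10,0),(7,0)]⟩,⟨0,[(4,0)]⟩⟩,[]⟩)) (.Q [0,0,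
  -1,0,-1,0,1,0,1,1,-1,-1] (.p false [0,0,1] [1,0,0,0,-1] (⟨0,[(42,0)]⟩,⟨0,[(41,0)]⟩) .k 2 (⟨0,[(34,
  0)]⟩,⟨0,[(35,0)]⟩) .k (.r (-1) ⟨1,[(32,0),(0,0),(3,1),(2,1),(9,0)]⟩ ⟨1,[(9,0),(6,0),(34,0)]⟩))
  (.R ⟨0,false,false,true,[0,0,0,0,1],[0,1],[],(⟨0,[(36,0)]⟩,⟨0,[(35,0)]⟩),(⟨0,[(46,0)]⟩,⟨0,[(45,
  0)]⟩),⟨0,[(1,0)]⟩,.k,.k,(.r 0 ⟨2,[(13,1),(24,1),(2,1),(6,0)]⟩ ⟨2,[(7,0),(20,0),(4,0),(0,0),(17,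
  1)]⟩),(.r 0 ⟨2,[(13,1),(24,1),(2,1),(6,0)]⟩ ⟨2,[(7,0),(20,0),(4,0),(0,0),(17,1)]⟩),.k,.k,⟨true,1,
  ⟨1,[(50,1),(0,0),(0,0)]⟩,⟨0,[(24,0)]⟩⟩,⟨false,2,⟨0,[(33,0),(17,0)]⟩,⟨0,[(0,0),(14,0)]⟩⟩,⟨false,1,
  ⟨0,[(52,0)]⟩,⟨0,[(54,0)]⟩⟩,⟨true,1,⟨0,[(2,0)]⟩,⟨1,[(3,0),(0,0),(39,0),(5,1)]⟩⟩,⟨false,0,⟨0,[]⟩,⟨0,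
  []⟩⟩,⟨false,0,⟨0,[]⟩,⟨0,[]⟩⟩,[.o ⟨false,0,⟨0,[(49,0)]⟩,⟨1,[(44,0),(5,1),(1,0)]⟩⟩,.a ⟨true,0,⟨17,
  [(7,2),(12,16),(1,2),(5,2),(1,0),(10,1)]⟩,⟨0,[(50,0)]⟩⟩ ⟨false,1,⟨1,[(51,0),(0,0)]⟩,⟨0,[(54,0)]⟩⟩
  ⟨true,1,⟨0,[(2,0)]⟩,⟨0,[(4,0),(10,0),(7,0)]⟩⟩,.e ⟨false,1,⟨1,[(33,0),(0,0),(17,0)]⟩,⟨0,[]⟩⟩
  ⟨false,1,⟨0,[(2,0)]⟩,⟨1,[(4,1),(39,0),(5,1),(1,0)]⟩⟩,.o ⟨false,(-1),⟨0,[(0,0),(14,0)]⟩,⟨1,[(33,1),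
  (10,0),(6,0)]⟩⟩]⟩) (.R ⟨2,true,false,true,[0,1],[1,0,0,0,-1],[1,1,1,1],(⟨0,[]⟩,⟨0,[]⟩),(⟨0,[(35,
  0)]⟩,⟨0,[(36,0)]⟩),⟨0,[]⟩,.k,.k,.k,(.r 0 ⟨2,[(7,0),(20,0),(25,1)]⟩ ⟨1,[(50,1),(0,0),(0,0)]⟩),.k,
  .k,⟨false,0,⟨0,[(49,0)]⟩,⟨1,[(50,1),(0,0),(0,0)]⟩⟩,⟨true,1,⟨17,[(0,16),(1,0),(2,1),(8,1),(8,4),(6,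
  4),(13,2),(7,0)]⟩,⟨0,[(4,0)]⟩⟩,⟨false,0,⟨0,[]⟩,⟨1,[(33,0),(0,0),(17,0)]⟩⟩,⟨true,1,⟨0,[(0,0),(22,
  0)]⟩,⟨0,[(26,0)]⟩⟩,⟨true,0,⟨0,[(49,0)]⟩,⟨0,[(50,0)]⟩⟩,⟨false,2,⟨1,[(33,1),(10,0),(7,0)]⟩,⟨0,[(4,
  0)]⟩⟩,[]⟩))) (.R ⟨2,true,false,false,[0,1],[0,0,0,0,1],[1,0,1,1],(⟨0,[]⟩,⟨0,[]⟩),(⟨0,[(34,0)]⟩,⟨0,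
  [(33,0)]⟩),⟨0,[]⟩,.k,.k,.k,(.r (-1) ⟨2,[(5,0),(20,0),(4,0),(0,0),(17,1)]⟩ ⟨2,[(11,1),(24,1),(2,1),
  (6,0)]⟩),.k,.k,⟨false,1,⟨8,[(5,1),(14,0),(5,1),(22,3),(0,4)]⟩,⟨2,[(11,1),(24,1),(2,1),(6,0)]⟩⟩,
  ⟨true,(-1),⟨10,[(0,7),(1,0),(10,0),(6,1),(1,1),(9,1),(5,0)]⟩,⟨0,[(31,0)]⟩⟩,⟨true,0,⟨0,[]⟩,⟨0,[(52,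
  0)]⟩⟩,⟨false,(-1),⟨0,[(0,0)]⟩,⟨8,[(5,1),(14,0),(5,1),(4,8),(17,3),(0,4)]⟩⟩,⟨false,1,⟨8,[(5,1),(14,
  0),(5,1),(22,3),(0,4)]⟩,⟨0,[(48,0)]⟩⟩,⟨true,(-1),⟨1,[(0,0),(18,0)]⟩,⟨0,[(31,0)]⟩⟩,[]⟩))))) (.R ⟨0,
  false,false,false,[0,-1,1],[1,-1,-1],[0,1],(⟨0,[(26,0)]⟩,⟨5,[(0,2),(13,1),(9,0),(10,1),(0,2)]⟩),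
  (⟨0,[(25,0)]⟩,⟨5,[(12,2),(1,1),(9,0),(10,1),(1,2)]⟩),⟨0,[(0,0)]⟩,.k,.k,(.r (-2) ⟨1,[(32,1),(2,1),
  (8,3),(0,2),(0,0)]⟩ ⟨8,[(4,6),(8,0),(2,2),(1,1),(3,0)]⟩),.k,.k,.k,⟨true,0,⟨0,[(23,0),(11,0)]⟩,⟨3,
  [(4,0),(0,0),(1,1),(1,0),(3,0),(32,1)]⟩⟩,⟨false,2,⟨1,[(35,3),(2,0),(6,2)]⟩,⟨1,[(4,0),(0,0),(2,0),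
  (5,0),(2,1)]⟩⟩,⟨false,(-1),⟨0,[(2,0)]⟩,⟨0,[(32,0),(2,0),(8,0),(0,0),(0,0)]⟩⟩,⟨true,0,⟨0,[(7,1),(1,
  0),(6,0),(18,0),(6,0)]⟩,⟨0,[(8,0),(5,0),(17,0),(11,0)]⟩⟩,⟨false,0,⟨0,[]⟩,⟨0,[]⟩⟩,⟨false,0,⟨0,[]⟩,
  ⟨0,[]⟩⟩,[.a ⟨true,0,⟨8,[(4,0),(2,3),(5,1),(19,1),(1,6),(10,0)]⟩,⟨0,[(8,0),(5,0)]⟩⟩ ⟨false,0,⟨2,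
  [(7,0),(24,0),(2,0),(6,1)]⟩,⟨1,[(27,0),(0,0),(17,0)]⟩⟩ ⟨true,1,⟨1,[(7,1),(27,3),(2,0),(3,1),(3,
  0)]⟩,⟨0,[(5,0),(2,0)]⟩⟩,.o ⟨false,1,⟨3,[(7,1),(1,1),(23,1),(4,0),(7,2)]⟩,⟨0,[(23,0)]⟩⟩,.e ⟨true,0,
  ⟨0,[(48,0)]⟩,⟨0,[]⟩⟩ ⟨true,1,⟨1,[(7,1),(27,3),(2,0),(3,1),(3,0)]⟩,⟨0,[(5,0),(17,0)]⟩⟩,.o ⟨false,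
  (-1),⟨2,[(4,0),(0,1),(2,0),(0,1),(7,1)]⟩,⟨1,[(35,1),(2,0),(6,2)]⟩⟩]⟩))) (.N [0,-1,1] (-1) ⟨0,[(0,
  0)]⟩ ⟨0,[(2,0)]⟩ .k))))))))) (.S ⟨1,0,[0,0,0,-1,0,0,0,-1],[1,0,-1],[0,1,0,-1,0,0,0,-1],(⟨0,[(26,
  0)]⟩,⟨0,[(27,0)]⟩),⟨0,[(15,0)]⟩,.k,.k,⟨false,0,⟨0,[(34,0)]⟩,⟨6,[(0,1),(5,0),(5,1),(22,1),(0,2)]⟩⟩,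
  ⟨true,0,⟨0,[(34,0)]⟩,⟨0,[(33,0)]⟩⟩,⟨true,0,⟨0,[(38,0)]⟩,⟨0,[]⟩⟩,⟨false,1,⟨1,[(17,0),(0,0),(17,
  0)]⟩,⟨0,[]⟩⟩,[.e ⟨false,0,⟨1,[(1,0),(1,0),(27,0)]⟩,⟨0,[(0,0)]⟩⟩ ⟨false,0,⟨0,[(1,0)]⟩,⟨0,[(0,0),
  (37,0)]⟩⟩,.o ⟨false,1,⟨1,[(1,1),(23,1),(2,0),(7,0)]⟩,⟨0,[(13,0)]⟩⟩,.o ⟨false,1,⟨1,[(25,1),(2,0),
  (6,0)]⟩,⟨0,[(9,0)]⟩⟩,.a ⟨true,0,⟨0,[(25,0)]⟩,⟨0,[(21,0)]⟩⟩ ⟨false,0,⟨0,[(1,0)]⟩,⟨1,[(0,1),(23,0),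
  (0,0)]⟩⟩ ⟨true,0,⟨0,[(1,0)]⟩,⟨0,[(13,0),(11,0)]⟩⟩]⟩)))

theorem ok78 : chk K t78 l46 = true := by decide +kernel


end Helper25.S1T.Ymm_1c
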