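import Pool.Agent.Helper25.S1T.Ymm_1c_q

set_option autoImplicit false
set_option linter.all false

namespace Helper25.S1T.Ymm_1c

open Helper25.KG Helper25.KW Helper55.KE Helper11.CT

noncomputable def t79 : Tre :=
  (.R ⟨2,true,false,false,[0,1],[0,0,0,0,1],[1,0,1,1],(⟨0,[]⟩,⟨0,[]⟩),(⟨0,[(22,0)]⟩,⟨0,[(21,0)]⟩),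
  ⟨0,[]⟩,.k,.k,.k,(.r (-1) ⟨8,[(1,1),(1,2),(10,4),(23,6)]⟩ ⟨0,[(34,0),(1,1)]⟩),.k,.k,⟨false,1,⟨8,
  [(1,1),(6,2),(5,1),(22,2),(0,3)]⟩,⟨0,[(34,0),(1,1)]⟩⟩,⟨true,(-1),⟨7,[(0,5),(7,0),(1,2),(9,1),(17,
  0)]⟩,⟨0,[(19,0)]⟩⟩,⟨true,0,⟨0,[]⟩,⟨0,[(40,0)]⟩⟩,⟨false,(-1),⟨0,[(0,0)]⟩,⟨8,[(1,1),(6,2),(5,1),(4,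
  8),(17,2),(0,3)]⟩⟩,⟨false,1,⟨8,[(1,1),(6,2),(5,1),(22,2),(0,3)]⟩,⟨0,[(36,0)]⟩⟩,⟨true,(-1),⟨1,[(0,
  0),(6,0)]⟩,⟨0,[(19,0)]⟩⟩,[]⟩)

theorem ok79 : chk K t79 l50 = true := by decide +kernel

noncomputable def t80 : Tre :=
  (.I [0,-1,0,-1,1,0,0,1] (.Q [0,0,-2,0,0,0,1,0,0,1,-1] (.p false [0,0,1] [1] (⟨0,[(31,0)]⟩,⟨0,[(30,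
  0)]⟩) .k 1 (⟨0,[]⟩,⟨0,[]⟩) .k .k) (.I [0,0,-1,-2,0,0,0,-1] (.S ⟨1,0,[0,0,-1,-2,0,0,0,-1],[1,-1,
  -1],[0,1,-1,-2,0,0,0,-1],(⟨0,[(21,0)]⟩,⟨0,[(33,0),(2,0)]⟩),⟨0,[(8,0)]⟩,.k,(.r (-1) ⟨2,[(0,0),(4,
  0),(3,2),(31,1)]⟩ ⟨0,[(7,0)]⟩),⟨false,0,⟨0,[(40,0)]⟩,⟨4,[(4,1),(7,0),(11,1),(16,0),(0,1)]⟩⟩,⟨true,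
  0,⟨0,[(40,0)]⟩,⟨0,[(39,0)]⟩⟩,⟨true,0,⟨0,[(44,0)]⟩,⟨0,[]⟩⟩,⟨false,1,⟨2,[(5,0),(12,0),(23,1)]⟩,⟨0,
  []⟩⟩,[.a ⟨true,0,⟨0,[(0,0),(30,0)]⟩,⟨0,[(1,0),(5,0)]⟩⟩ ⟨false,0,⟨0,[(6,0),(33,0)]⟩,⟨0,[(5,0),(6,
  0)]⟩⟩ ⟨true,0,⟨0,[(0,0)]⟩,⟨0,[(7,0)]⟩⟩,.o ⟨false,1,⟨1,[(0,1),(30,1),(2,0),(7,0)]⟩,⟨0,[(7,0),(5,0),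
  (24,0)]⟩⟩,.a ⟨true,0,⟨0,[(31,0)]⟩,⟨0,[(27,0)]⟩⟩ ⟨false,0,⟨0,[(0,0)]⟩,⟨0,[(5,0),(6,0)]⟩⟩ ⟨true,0,
  ⟨0,[(0,0)]⟩,⟨2,[(5,0),(1,1),(6,0),(23,1)]⟩⟩,.a ⟨true,0,⟨1,[(30,0),(0,2)]⟩,⟨0,[(1,0)]⟩⟩ ⟨true,0,⟨0,
  [(6,0),(33,0)]⟩,⟨0,[(7,0)]⟩⟩ ⟨false,1,⟨1,[(0,1),(40,0),(0,0)]⟩,⟨0,[(7,0)]⟩⟩]⟩) (.Q [0,1,0,1,-1,0,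
  1,1,0,1,-1] (.p false [0,0,1] [1] (⟨0,[(33,0)]⟩,⟨0,[(32,0)]⟩) .k 1 (⟨0,[]⟩,⟨0,[]⟩) .k .k) (.Q [0,
  -1,0,-2,1,0,-1,-1,0,-1,1] (.p true [0,0,1] [1] (⟨0,[(34,0)]⟩,⟨0,[(33,0)]⟩) .k 1 (⟨0,[]⟩,⟨0,[]⟩)
  .k .k) (.R ⟨1,false,false,true,[1,-1],[0,0,1],[1,0,1],(⟨0,[(37,0)]⟩,⟨0,[(38,0)]⟩),(⟨0,[(35,0)]⟩,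
  ⟨0,[(34,0)]⟩),⟨1,[(10,0),(13,0),(12,0)]⟩,.k,.k,(.r (-1) ⟨2,[(0,0),(6,1),(0,0),(3,0),(2,0)]⟩ ⟨5,
  [(9,1),(4,1),(5,1),(11,0),(0,0)]⟩),.k,(.r (-1) ⟨7,[(0,4),(6,1),(0,3),(13,0),(6,3),(1,0),(11,0)]⟩
  ⟨0,[(9,0)]⟩),.k,⟨true,0,⟨0,[(5,0),(38,0)]⟩,⟨4,[(1,3),(5,1),(0,0),(24,3),(2,1),(5,0)]⟩⟩,⟨false,0,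
  ⟨0,[(3,0)]⟩,⟨6,[(0,2),(6,1),(1,3),(21,2),(1,0),(2,1)]⟩⟩,⟨false,0,⟨0,[(16,0),(27,0)]⟩,⟨4,[(0,0),(2,
  0),(3,1),(0,0),(34,1)]⟩⟩,⟨true,(-1),⟨0,[(1,0)]⟩,⟨8,[(0,4),(5,0),(0,0),(12,0),(5,0),(4,3),(4,1)]⟩⟩,
  ⟨false,0,⟨1,[(14,0),(1,0),(27,0)]⟩,⟨2,[(0,0),(6,1),(0,0),(3,0),(2,0)]⟩⟩,⟨false,0,⟨0,[(2,0),(26,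
  0)]⟩,⟨0,[(0,0)]⟩⟩,[.e ⟨false,0,⟨0,[]⟩,⟨5,[(7,1),(12,1),(22,2),(0,0)]⟩⟩ ⟨false,0,⟨3,[(1,2),(1,0),
  (3,1),(0,0),(34,0)]⟩,⟨36,[(0,28),(5,3),(2,0),(4,16),(5,0),(5,3),(4,7),(4,3)]⟩⟩,.o ⟨false,0,⟨1,[(1,
  1),(34,0),(5,1),(1,0)]⟩,⟨1,[(31,1),(4,0),(7,0)]⟩⟩,.a ⟨true,0,⟨1,[(32,0),(0,0)]⟩,⟨0,[(12,0)]⟩⟩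
  ⟨true,0,⟨1,[(32,0),(0,0)]⟩,⟨6,[(1,1),(5,0),(0,2),(24,1),(2,0),(3,1)]⟩⟩ ⟨false,0,⟨1,[(1,0),(1,0),
  (0,0)]⟩,⟨36,[(0,28),(5,3),(2,0),(4,16),(5,0),(5,3),(4,7),(4,3)]⟩⟩,.o ⟨false,0,⟨1,[(16,1),(19,0),
  (5,1),(1,0)]⟩,⟨0,[(43,0)]⟩⟩]⟩) (.Q [0,-1,0,-2,1,0,0,0,-1,-1,0,1] (.p true [0,0,0,0,1] [1] (⟨0,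
  [(28,0)]⟩,⟨0,[(27,0)]⟩) .k 1 (⟨0,[]⟩,⟨0,[]⟩) .k .k) (.R ⟨1,true,false,false,[1,-1],[0,0,0,0,1],[0,
  1,-1,-2],(⟨0,[(38,0)]⟩,⟨0,[(39,0)]⟩),(⟨0,[(29,0)]⟩,⟨0,[(28,0)]⟩),⟨1,[(11,0),(13,0),(12,0)]⟩,.k,.k,
  (.r (-1) ⟨0,[(5,0),(3,0)]⟩ ⟨5,[(10,1),(4,1),(5,1),(11,0),(0,0)]⟩),(.r (-1) ⟨1,[(5,0),(3,0),(35,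
  0)]⟩ ⟨10,[(8,1),(1,2),(6,1),(3,4),(18,1)]⟩),(.r (-2) ⟨1,[(8,1),(3,1),(31,0),(0,0)]⟩ ⟨0,[(3,0),(2,
  0)]⟩),.k,⟨false,1,⟨0,[(5,0),(3,0)]⟩,⟨1,[(15,0),(26,0)]⟩⟩,⟨true,0,⟨0,[(13,0),(13,0)]⟩,⟨0,[(0,0),(2,
  0),(2,0)]⟩⟩,⟨false,0,⟨0,[(43,0)]⟩,⟨4,[(7,1),(7,0),(11,1),(16,0),(0,1)]⟩⟩,⟨true,(-1),⟨0,[(19,0)]⟩,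
  ⟨6,[(0,4),(6,1),(9,0),(19,0),(2,1)]⟩⟩,⟨true,0,⟨0,[(47,0)]⟩,⟨0,[]⟩⟩,⟨false,0,⟨4,[(7,1),(7,0),(3,4),
  (7,1),(16,0),(0,1)]⟩,⟨0,[(0,0)]⟩⟩,[]⟩) (.Q [0,-2,0,0,2,0,0,0,-1,-1,0,1] (.p true [0,0,0,0,1] [1]
  (⟨0,[(29,0)]⟩,⟨0,[(28,0)]⟩) .k 1 (⟨0,[]⟩,⟨0,[]⟩) .k .k) (.Q [0,0,1,1,-1,0,0,0,1,1,0,-1] (.p false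
  [0,0,0,0,1] [1] (⟨0,[(30,0)]⟩,⟨0,[(29,0)]⟩) .k 1 (⟨0,[]⟩,⟨0,[]⟩) .k .k) (.Q [0,0,0,0,0,-1,0,0,0,0,
  0,1] (.ed false [1,-1,0,0,1] .k) (.Q [0,0,0,0,1,0,0,0,-1,-1,0,1] (.p true [0,0,0,0,1] [1] (⟨0,
  [(32,0)]⟩,⟨0,[(31,0)]⟩) .k 1 (⟨0,[]⟩,⟨0,[]⟩) .k .k) (.R ⟨1,false,false,false,[0,0,0,0,1],[1,-1],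
  [1,2],(⟨0,[(33,0)]⟩,⟨0,[(32,0)]⟩),(⟨0,[(42,0)]⟩,⟨0,[(43,0)]⟩),⟨0,[(1,0)]⟩,.k,.k,(.r 0 ⟨4,[(6,1),
  (5,0),(0,2),(24,1),(2,0),(5,2)]⟩ ⟨10,[(9,1),(1,1),(2,2),(10,4),(5,1),(17,6)]⟩),(.r 0 ⟨10,[(12,1),
  (1,2),(6,1),(3,4),(18,1)]⟩ ⟨1,[(9,0),(3,0),(35,0)]⟩),.k,.k,⟨true,(-1),⟨5,[(6,1),(6,1),(7,4),(16,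
  1),(2,0),(2,0),(0,0)]⟩,⟨0,[(47,0),(1,0)]⟩⟩,⟨false,1,⟨0,[(0,0)]⟩,⟨0,[(17,0),(13,0)]⟩⟩,⟨false,0,⟨0,
  []⟩,⟨2,[(12,0),(12,0),(23,1)]⟩⟩,⟨false,2,⟨0,[(3,0),(43,0)]⟩,⟨0,[(23,0)]⟩⟩,⟨true,0,⟨0,[(46,0)]⟩,⟨0,
  [(47,0)]⟩⟩,⟨false,2,⟨0,[(3,0)]⟩,⟨0,[(24,0)]⟩⟩,[.a ⟨true,0,⟨0,[(47,0)]⟩,⟨1,[(2,0),(8,0),(5,0)]⟩⟩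
  ⟨false,0,⟨0,[(44,0)]⟩,⟨0,[(49,0)]⟩⟩ ⟨true,1,⟨0,[(0,0),(46,0)]⟩,⟨0,[(2,0)]⟩⟩,.o ⟨false,1,⟨1,[(41,
  0),(5,1),(1,0)]⟩,⟨0,[(46,0)]⟩⟩,.o ⟨false,0,⟨0,[(31,0)]⟩,⟨0,[(0,0)]⟩⟩,.e ⟨false,0,⟨6,[(6,1),(5,0),
  (0,2),(24,1),(2,0),(3,1)]⟩,⟨1,[(37,0),(0,0),(10,1)]⟩⟩ ⟨false,2,⟨1,[(0,0),(2,0),(5,0),(3,0)]⟩,⟨0,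
  [(2,0)]⟩⟩]⟩) (.Q [0,1,0,-1,0,0,0,0,0,-1] (.pp true [-1,1]) (.Q [0,2,0,-1,-2,0,0,0,1,1,0,-1] (.p
  false [0,0,0,0,1] [1] (⟨0,[(34,0)]⟩,⟨0,[(33,0)]⟩) .k 1 (⟨0,[]⟩,⟨0,[]⟩) .k .k) (.S ⟨1,1,[],[0,0,0,
  0,1],[1,1],(⟨0,[(35,0)]⟩,⟨0,[(34,0)]⟩),⟨0,[(3,0)]⟩,.k,(.r 0 ⟨3,[(1,0),(6,0),(5,0),(0,1),(24,0),(8,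
  0)]⟩ ⟨10,[(11,1),(1,1),(2,2),(10,4),(5,1),(17,6)]⟩),⟨true,0,⟨0,[]⟩,⟨0,[(53,0)]⟩⟩,⟨false,2,⟨0,[(5,
  0)]⟩,⟨0,[(26,0)]⟩⟩,⟨false,1,⟨4,[(13,1),(7,0),(11,1),(16,0),(0,1)]⟩,⟨0,[(49,0)]⟩⟩,⟨true,2,⟨10,[(5,
  4),(7,7),(7,0),(11,1),(9,2),(6,0)]⟩,⟨0,[(0,0)]⟩⟩,[.fo,.o ⟨false,1,⟨1,[(43,0),(7,0)]⟩,⟨0,[(53,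
  0)]⟩⟩,.e ⟨false,0,⟨0,[]⟩,⟨2,[(14,0),(12,0),(23,1)]⟩⟩ ⟨false,2,⟨4,[(5,2),(8,0),(12,0),(4,1),(10,
  0)]⟩,⟨0,[(2,0)]⟩⟩,.a ⟨true,(-1),⟨2,[(2,1),(1,0),(6,0),(6,0),(4,0)]⟩,⟨0,[(5,0),(2,0),(6,0),(24,
  0)]⟩⟩ ⟨true,0,⟨6,[(1,0),(6,0),(5,0),(0,1),(24,0),(6,2)]⟩,⟨1,[(39,0),(0,0)]⟩⟩ ⟨false,2,⟨6,[(1,0),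
  (3,6),(2,0),(5,0),(0,1),(24,0),(6,2)]⟩,⟨2,[(2,1),(1,0),(6,0),(6,0),(4,0)]⟩⟩]⟩) (.S ⟨1,0,[0,2,0,
  -1],[0,0,0,0,1],[1,1],(⟨0,[(35,0)]⟩,⟨0,[(34,0)]⟩),⟨0,[(3,0)]⟩,.k,(.r 0 ⟨3,[(1,0),(6,0),(5,0),(0,
  1),(24,0),(8,0)]⟩ ⟨10,[(11,1),(1,1),(2,2),(10,4),(5,1),(17,6)]⟩),⟨true,0,⟨0,[]⟩,⟨0,[(53,0)]⟩⟩,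
  ⟨false,0,⟨0,[(49,0)]⟩,⟨4,[(0,0),(5,0),(6,1),(19,1),(17,1)]⟩⟩,⟨false,1,⟨4,[(0,0),(5,0),(6,1),(19,
  1),(17,1)]⟩,⟨0,[(49,0)]⟩⟩,⟨true,0,⟨0,[(53,0)]⟩,⟨0,[]⟩⟩,[.o ⟨false,(-1),⟨0,[(1,0),(24,0)]⟩,⟨0,[(0,
  0)]⟩⟩,.o ⟨false,(-1),⟨0,[(1,0),(0,0)]⟩,⟨4,[(0,2),(12,1),(0,0),(12,0),(15,0)]⟩⟩,.e ⟨false,0,⟨0,[]⟩,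
  ⟨2,[(14,0),(12,0),(23,1)]⟩⟩ ⟨false,0,⟨0,[(49,0),(3,0)]⟩,⟨0,[(0,0),(1,0)]⟩⟩,.a ⟨true,(-1),⟨2,[(2,
  1),(1,0),(6,0),(6,0),(4,0)]⟩,⟨0,[(5,0),(2,0),(6,0),(24,0)]⟩⟩ ⟨true,0,⟨6,[(1,0),(6,0),(5,0),(0,1),
  (24,0),(6,2)]⟩,⟨1,[(39,0),(0,0)]⟩⟩ ⟨false,0,⟨3,[(1,0),(6,0),(5,0),(0,1),(24,0),(8,0)]⟩,⟨11,[(16,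
  1),(4,1),(5,1),(11,0),(0,0),(10,11)]⟩⟩]⟩)) (.R ⟨1,false,false,true,[1,0,-1],[1,-1],[0,0,0,-1,0,0,
  0,-1],(⟨0,[(40,0)]⟩,⟨0,[(41,0)]⟩),(⟨0,[(43,0)]⟩,⟨0,[(44,0)]⟩),⟨0,[(29,0)]⟩,.k,.k,.k,.k,.k,.k,
  ⟨true,0,⟨0,[(11,0),(38,0)]⟩,⟨4,[(7,3),(5,1),(0,0),(24,3),(2,1),(5,0)]⟩⟩,⟨false,0,⟨0,[(23,0)]⟩,⟨0,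
  [(39,0),(9,0)]⟩⟩,⟨true,0,⟨0,[(48,0)]⟩,⟨0,[(47,0)]⟩⟩,⟨false,0,⟨1,[(7,1),(34,0),(5,3),(1,0)]⟩,⟨1,
  [(0,1),(36,1),(4,0),(7,0)]⟩⟩,⟨false,1,⟨2,[(13,0),(12,0),(23,1)]⟩,⟨0,[]⟩⟩,⟨false,0,⟨1,[(7,1),(34,
  0),(5,1),(1,0)]⟩,⟨0,[(37,0),(12,0)]⟩⟩,[.a ⟨true,0,⟨0,[(48,0),(3,0)]⟩,⟨0,[(0,0)]⟩⟩ ⟨true,0,⟨0,[(17,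
  0)]⟩,⟨0,[(8,0),(39,0)]⟩⟩ ⟨false,0,⟨2,[(17,0),(3,1),(14,0),(8,0)]⟩,⟨1,[(0,1),(38,1),(2,0),(6,0)]⟩⟩,
  .e ⟨false,1,⟨1,[(17,1),(31,0),(0,0)]⟩,⟨6,[(7,3),(0,0),(4,1),(25,3),(2,1),(3,2)]⟩⟩ ⟨false,0,⟨0,
  [(21,0)]⟩,⟨1,[(13,0),(6,0),(16,0),(1,0),(9,0)]⟩⟩,.o ⟨false,1,⟨1,[(39,1),(2,0),(6,0)]⟩,⟨0,[(23,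
  0)]⟩⟩,.e ⟨false,1,⟨1,[(17,1),(31,0),(0,0)]⟩,⟨0,[(8,0),(39,0)]⟩⟩ ⟨false,0,⟨0,[(21,0)]⟩,⟨1,[(13,0),
  (6,0),(16,0),(1,0),(10,0)]⟩⟩]⟩))) (.Q [0,0,0,0,1,0,0,0,-1,-1,0,1] (.p true [0,0,0,0,1] [1] (⟨0,
  [(32,0)]⟩,⟨0,[(31,0)]⟩) .k 1 (⟨0,[]⟩,⟨0,[]⟩) .k .k) (.R ⟨0,false,false,true,[0,0,0,0,1],[1,-1],[1,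
  0,1],(⟨0,[(33,0)]⟩,⟨0,[(32,0)]⟩),(⟨0,[(42,0)]⟩,⟨0,[(43,0)]⟩),⟨0,[(1,0)]⟩,.k,.k,(.r 0 ⟨4,[(6,1),(5,
  0),(0,2),(24,1),(2,0),(5,2)]⟩ ⟨10,[(9,1),(1,1),(2,2),(10,4),(5,1),(17,6)]⟩),(.r 0 ⟨10,[(12,1),(1,
  2),(6,1),(3,4),(18,1)]⟩ ⟨1,[(9,0),(3,0),(35,0)]⟩),.k,.k,⟨true,0,⟨0,[(21,0),(27,0)]⟩,⟨4,[(6,1),(5,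
  0),(0,2),(24,1),(2,0),(5,2)]⟩⟩,⟨false,1,⟨0,[(0,0)]⟩,⟨0,[(17,0),(13,0)]⟩⟩,⟨false,1,⟨1,[(37,0),(0,
  0),(10,1)]⟩,⟨6,[(6,1),(5,0),(0,2),(24,1),(2,0),(3,1)]⟩⟩,⟨true,1,⟨0,[(0,0),(46,0)]⟩,⟨0,[(23,0)]⟩⟩,
  ⟨false,0,⟨0,[]⟩,⟨0,[]⟩⟩,⟨false,0,⟨0,[]⟩,⟨0,[]⟩⟩,[.e ⟨false,0,⟨0,[]⟩,⟨5,[(12,1),(12,1),(22,2),(0,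
  0)]⟩⟩ ⟨false,1,⟨4,[(0,4),(5,1),(5,0),(0,2),(24,1),(2,0),(5,2)]⟩,⟨1,[(4,0),(19,0),(24,1)]⟩⟩,.a
  ⟨true,0,⟨0,[(47,0)]⟩,⟨1,[(2,0),(8,0),(5,0)]⟩⟩ ⟨false,1,⟨2,[(12,0),(12,0),(23,1)]⟩,⟨6,[(6,1),(5,0),
  (0,2),(24,1),(2,0),(3,1)]⟩⟩ ⟨true,1,⟨0,[(0,0),(46,0)]⟩,⟨0,[(2,0)]⟩⟩,.o ⟨false,0,⟨0,[(31,0)]⟩,⟨0,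
  [(0,0)]⟩⟩,.e ⟨true,0,⟨0,[]⟩,⟨0,[(51,0)]⟩⟩ ⟨true,1,⟨4,[(0,4),(5,1),(5,0),(0,2),(24,1),(2,0),(5,
  2)]⟩,⟨0,[(2,0)]⟩⟩]⟩) (.R ⟨0,false,false,false,[0,0,0,0,1],[0,0,1],[1],(⟨0,[(33,0)]⟩,⟨0,[(32,0)]⟩),
  (⟨0,[(40,0)]⟩,⟨0,[(39,0)]⟩),⟨0,[(1,0)]⟩,.k,.k,(.r 0 ⟨4,[(6,1),(5,0),(0,2),(24,1),(2,0),(5,2)]⟩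
  ⟨10,[(9,1),(1,1),(2,2),(10,4),(5,1),(17,6)]⟩),.k,.k,.k,⟨true,0,⟨2,[(13,0),(2,1),(2,0)]⟩,⟨0,[(7,0),
  (39,1)]⟩⟩,⟨false,1,⟨0,[(11,0),(8,0)]⟩,⟨1,[(0,1),(37,1),(2,0),(6,0)]⟩⟩,⟨false,1,⟨0,[(49,0)]⟩,⟨0,
  [(51,0)]⟩⟩,⟨true,1,⟨0,[(3,0),(2,0),(40,0)]⟩,⟨3,[(0,1),(9,0),(2,1),(4,1),(17,0),(1,2),(2,0)]⟩⟩,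
  ⟨false,0,⟨0,[]⟩,⟨0,[]⟩⟩,⟨false,0,⟨0,[]⟩,⟨0,[]⟩⟩,[.o ⟨false,0,⟨1,[(6,1),(34,0),(5,1),(1,0)]⟩,⟨1,
  [(36,1),(4,0),(7,0)]⟩⟩,.a ⟨true,0,⟨0,[(6,0),(40,0),(1,0)]⟩,⟨0,[(36,0)]⟩⟩ ⟨false,1,⟨1,[(48,0),(0,
  0)]⟩,⟨0,[(51,0)]⟩⟩ ⟨true,1,⟨0,[(3,0),(2,0),(40,0)]⟩,⟨1,[(0,1),(9,0),(25,0),(1,0),(2,0)]⟩⟩,.a
  ⟨true,(-1),⟨0,[(0,0)]⟩,⟨0,[(30,0)]⟩⟩ ⟨true,0,⟨0,[]⟩,⟨0,[(51,0)]⟩⟩ ⟨false,1,⟨0,[(3,0),(2,0),(40,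
  0)]⟩,⟨1,[(0,1),(35,1),(4,0),(7,0)]⟩⟩,.a ⟨true,(-1),⟨2,[(0,1),(1,0),(6,0),(6,0),(4,0)]⟩,⟨0,[(3,0),
  (2,0),(6,0),(24,0)]⟩⟩ ⟨false,1,⟨1,[(48,0),(0,0)]⟩,⟨1,[(37,0),(0,0)]⟩⟩ ⟨true,1,⟨4,[(3,4),(2,6),(5,
  0),(0,2),(24,1),(2,0),(5,2)]⟩,⟨1,[(0,1),(9,0),(25,0),(1,0),(2,0)]⟩⟩]⟩))) (.Q [0,0,0,0,0,-1,0,0,0,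
  0,0,1] (.ed false [1,-1,0,0,1] .k) (.Q [0,0,1,0,-1,0,0,0,1,1,0,-1] (.p false [0,0,0,0,1] [1] (⟨0,
  [(32,0)]⟩,⟨0,[(31,0)]⟩) .k 1 (⟨0,[]⟩,⟨0,[]⟩) .k .k) (.S ⟨1,0,[0,1,0,-1],[0,0,0,0,1],[1,2],(⟨0,
  [(33,0)]⟩,⟨0,[(32,0)]⟩),⟨0,[(1,0)]⟩,.k,(.r 0 ⟨0,[(2,0),(21,0)]⟩ ⟨10,[(9,1),(1,1),(2,2),(10,4),(5,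
  1),(17,6)]⟩),⟨false,0,⟨0,[]⟩,⟨2,[(12,0),(12,0),(23,1)]⟩⟩,⟨true,0,⟨0,[(47,0)]⟩,⟨0,[(46,0)]⟩⟩,⟨true,
  0,⟨0,[(46,0)]⟩,⟨0,[(47,0)]⟩⟩,⟨false,1,⟨2,[(12,0),(12,0),(23,1)]⟩,⟨0,[]⟩⟩,[.e ⟨false,0,⟨0,[(44,
  0)]⟩,⟨0,[(49,0)]⟩⟩ ⟨false,0,⟨0,[(2,0),(21,0)]⟩,⟨4,[(11,1),(7,0),(11,1),(16,0),(0,1)]⟩⟩,.o ⟨false,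
  0,⟨0,[(31,0),(15,0)]⟩,⟨7,[(2,5),(8,1),(7,2),(1,0),(19,0),(3,1)]⟩⟩,.o ⟨false,0,⟨0,[(31,0)]⟩,⟨6,[(2,
  3),(0,0),(7,1),(9,1),(19,0)]⟩⟩,.a ⟨true,(-1),⟨0,[(0,0)]⟩,⟨1,[(2,0),(8,0),(5,0)]⟩⟩ ⟨false,0,⟨6,[(2,
  0),(3,0),(5,0),(0,1),(4,0),(19,0),(6,1)]⟩,⟨1,[(37,0),(0,0),(10,1)]⟩⟩ ⟨true,0,⟨0,[(2,0),(21,0)]⟩,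
  ⟨11,[(14,1),(4,1),(5,1),(11,0),(0,0)]⟩⟩]⟩) (.S ⟨1,0,[0,2,0,-1],[0,0,0,0,1],[1,1],(⟨0,[(33,0)]⟩,⟨0,
  [(32,0)]⟩),⟨0,[(1,0)]⟩,.k,(.r 0 ⟨0,[(2,0),(21,0)]⟩ ⟨10,[(9,1),(1,1),(2,2),(10,4),(5,1),(17,6)]⟩),
  ⟨true,0,⟨0,[]⟩,⟨0,[(51,0)]⟩⟩,⟨false,0,⟨0,[(47,0)]⟩,⟨4,[(11,1),(7,0),(11,1),(16,0),(0,1)]⟩⟩,⟨false,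
  1,⟨4,[(11,1),(7,0),(11,1),(16,0),(0,1)]⟩,⟨0,[(47,0)]⟩⟩,⟨true,0,⟨0,[(51,0)]⟩,⟨0,[]⟩⟩,[.o ⟨false,
  (-1),⟨0,[(18,0),(28,1)]⟩,⟨5,[(0,1),(2,3),(15,1),(28,0),(0,0)]⟩⟩,.a ⟨true,(-1),⟨0,[(24,0),(22,0)]⟩,
  ⟨3,[(2,2),(0,0),(2,0),(3,0),(6,2),(1,1),(18,0),(10,0)]⟩⟩ ⟨true,0,⟨0,[]⟩,⟨1,[(37,0),(0,0)]⟩⟩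
  ⟨false,0,⟨0,[(2,0),(21,0)]⟩,⟨4,[(11,1),(7,0),(11,1),(16,0),(0,1)]⟩⟩,.o ⟨false,0,⟨0,[(31,0)]⟩,⟨6,
  [(2,3),(0,0),(7,1),(9,1),(19,0)]⟩⟩,.o ⟨false,0,⟨1,[(31,1),(5,0),(0,0)]⟩,⟨0,[(0,0)]⟩⟩]⟩)) (.Q [0,0,
  1,0,-1,0,0,0,1,1,0,-1] (.p false [0,0,0,0,1] [1] (⟨0,[(32,0)]⟩,⟨0,[(31,0)]⟩) .k 1 (⟨0,[]⟩,⟨0,[]⟩)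
  .k .k) (.R ⟨0,false,false,false,[0,0,0,0,1],[1,-1],[1,1,1],(⟨0,[(33,0)]⟩,⟨0,[(32,0)]⟩),(⟨0,[(42,
  0)]⟩,⟨0,[(43,0)]⟩),⟨0,[(1,0)]⟩,.k,.k,(.r 0 ⟨0,[(2,0),(21,0)]⟩ ⟨10,[(9,1),(1,1),(2,2),(10,4),(5,1),
  (17,6)]⟩),(.r 0 ⟨10,[(12,1),(1,2),(6,1),(3,4),(18,1)]⟩ ⟨1,[(9,0),(3,0),(35,0)]⟩),.k,.k,⟨true,(-1),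
  ⟨0,[(21,0)]⟩,⟨1,[(9,0),(3,0),(35,0)]⟩⟩,⟨false,1,⟨6,[(2,3),(0,0),(7,1),(9,1),(19,0)]⟩,⟨0,[(17,0),
  (13,0)]⟩⟩,⟨true,0,⟨1,[(37,0),(0,0)]⟩,⟨6,[(2,0),(3,0),(5,0),(0,1),(4,0),(19,0),(6,1)]⟩⟩,⟨false,2,
  ⟨0,[(3,0),(43,0)]⟩,⟨0,[(23,0)]⟩⟩,⟨false,0,⟨0,[]⟩,⟨0,[]⟩⟩,⟨false,0,⟨0,[]⟩,⟨0,[]⟩⟩,[.e ⟨false,0,⟨0,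
  [(51,0)]⟩,⟨1,[(48,0),(0,0)]⟩⟩ ⟨false,1,⟨0,[(2,0)]⟩,⟨5,[(4,2),(4,1),(7,1),(6,0),(0,1),(5,1),(17,
  1)]⟩⟩,.o ⟨false,1,⟨1,[(41,0),(5,1),(1,0)]⟩,⟨0,[(46,0)]⟩⟩,.o ⟨false,0,⟨0,[(31,0)]⟩,⟨6,[(2,3),(0,0),
  (7,1),(9,1),(19,0)]⟩⟩,.a ⟨true,(-1),⟨0,[(0,0)]⟩,⟨1,[(2,0),(8,0),(5,0)]⟩⟩ ⟨false,0,⟨0,[]⟩,⟨2,[(12,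
  0),(12,0),(23,1)]⟩⟩ ⟨true,1,⟨0,[(2,0)]⟩,⟨7,[(0,1),(3,0),(9,1),(9,4),(0,1)]⟩⟩]⟩) (.R ⟨0,false,
  false,true,[0,0,0,0,1],[0,1],[1,1,1,1],(⟨0,[(33,0)]⟩,⟨0,[(32,0)]⟩),(⟨0,[(43,0)]⟩,⟨0,[(42,0)]⟩),⟨0,
  [(1,0)]⟩,.k,.k,(.r 0 ⟨0,[(2,0),(21,0)]⟩ ⟨10,[(9,1),(1,1),(2,2),(10,4),(5,1),(17,6)]⟩),(.r 0 ⟨0,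
  [(2,0),(21,0)]⟩ ⟨10,[(9,1),(1,1),(2,2),(10,4),(5,1),(17,6)]⟩),.k,.k,⟨true,0,⟨0,[]⟩,⟨1,[(37,0),(0,
  0)]⟩⟩,⟨false,1,⟨0,[(0,0),(16,0)]⟩,⟨1,[(31,1),(5,0),(0,0)]⟩⟩,⟨true,0,⟨11,[(14,1),(4,1),(5,1),(11,
  0),(0,0)]⟩,⟨0,[(2,0),(21,0)]⟩⟩,⟨false,1,⟨3,[(2,2),(0,0),(2,0),(3,0),(6,2),(1,1),(18,0),(10,0)]⟩,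
  ⟨0,[(31,0),(15,0)]⟩⟩,⟨false,0,⟨0,[]⟩,⟨0,[]⟩⟩,⟨false,0,⟨0,[]⟩,⟨0,[]⟩⟩,[.o ⟨false,0,⟨0,[(46,0)]⟩,⟨1,
  [(41,0),(5,1),(1,0)]⟩⟩,.a ⟨true,0,⟨17,[(14,2),(2,16),(1,2),(5,2),(1,0),(10,1)]⟩,⟨0,[(47,0)]⟩⟩
  ⟨true,0,⟨11,[(14,1),(4,1),(5,1),(11,0),(0,0)]⟩,⟨0,[(47,0)]⟩⟩ ⟨false,1,⟨6,[(0,3),(10,2),(5,3),(1,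
  0),(25,0)]⟩,⟨0,[(31,0),(15,0)]⟩⟩,.o ⟨false,0,⟨0,[(31,0)]⟩,⟨6,[(2,3),(0,0),(7,1),(9,1),(19,0)]⟩⟩,
  .o ⟨false,0,⟨1,[(31,1),(5,0),(0,0)]⟩,⟨0,[(0,0)]⟩⟩]⟩)))) (.Q [0,-2,0,-1,2,0,0,0,-1,-1,0,1] (.p
  true [0,0,0,0,1] [1] (⟨0,[(30,0)]⟩,⟨0,[(29,0)]⟩) .k 1 (⟨0,[]⟩,⟨0,[]⟩) .k .k) (.R ⟨2,true,false,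
  false,[0,1],[1,0,0,0,-1],[1,0,1,1],(⟨0,[]⟩,⟨0,[]⟩),(⟨0,[(30,0)]⟩,⟨0,[(31,0)]⟩),⟨0,[]⟩,.k,.k,.k,
  (.r 0 ⟨10,[(10,1),(1,2),(6,1),(3,4),(18,1)]⟩ ⟨1,[(7,0),(3,0),(35,0)]⟩),.k,.k,⟨false,0,⟨0,[(44,
  0)]⟩,⟨1,[(7,0),(3,0),(35,0)]⟩⟩,⟨true,1,⟨2,[(0,1),(3,0),(6,0),(7,1),(8,0),(7,0),(2,0)]⟩,⟨0,[(1,0),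
  (45,0)]⟩⟩,⟨true,0,⟨0,[]⟩,⟨0,[(49,0)]⟩⟩,⟨false,2,⟨0,[(0,0)]⟩,⟨0,[(21,0)]⟩⟩,⟨false,1,⟨4,[(9,1),(7,
  0),(11,1),(16,0),(0,1)]⟩,⟨0,[(45,0)]⟩⟩,⟨true,2,⟨8,[(0,4),(8,4),(0,0),(12,0),(5,0),(9,1)]⟩,⟨0,[(1,
  0)]⟩⟩,[]⟩) (.Q [0,-2,0,-2,2,0,0,0,-1,-1,0,1] (.p true [0,0,0,0,1] [1] (⟨0,[(31,0)]⟩,⟨0,[(30,0)]⟩)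
  .k 1 (⟨0,[]⟩,⟨0,[]⟩) .k .k) (.R ⟨1,true,false,true,[1,-1],[0,0,0,0,1],[1,1,-1,-1],(⟨0,[(41,0)]⟩,
  ⟨0,[(42,0)]⟩),(⟨0,[(32,0)]⟩,⟨0,[(31,0)]⟩),⟨1,[(14,0),(13,0),(12,0)]⟩,.k,.k,(.r (-1) ⟨0,[(8,0),(3,
  0)]⟩ ⟨5,[(13,1),(4,1),(5,1),(11,0),(0,0)]⟩),(.r (-1) ⟨1,[(8,0),(3,0),(35,0)]⟩ ⟨10,[(11,1),(1,2),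
  (6,1),(3,4),(18,1)]⟩),(.r (-2) ⟨1,[(0,0),(10,0),(3,0),(0,0),(13,0),(16,0)]⟩ ⟨0,[(6,0),(2,0)]⟩),.k,
  ⟨true,1,⟨1,[(8,0),(3,0),(35,0)]⟩,⟨0,[(20,0)]⟩⟩,⟨false,0,⟨0,[(2,0),(44,0),(0,0)]⟩,⟨1,[(0,0),(4,0),
  (3,0),(0,0),(26,0),(2,0)]⟩⟩,⟨false,0,⟨0,[]⟩,⟨2,[(11,0),(12,0),(23,1)]⟩⟩,⟨true,(-2),⟨0,[(1,0)]⟩,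
  ⟨26,[(0,18),(9,7),(0,3),(1,0),(10,4),(15,3),(2,2)]⟩⟩,⟨true,0,⟨0,[(45,0)]⟩,⟨0,[(46,0)]⟩⟩,⟨false,
  (-1),⟨0,[(3,0)]⟩,⟨0,[(0,0)]⟩⟩,[]⟩) (.Q [0,0,0,0,0,-1,0,0,0,0,0,1] (.ed false [1,-1,0,0,1] .k) (.Q
  [0,0,1,0,-1,0,0,0,1,0,0,-1] (.p false [0,0,0,0,1] [] (⟨0,[(33,0)]⟩,⟨0,[(32,0)]⟩) .k 0 (⟨0,[]⟩,⟨0,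
  []⟩) .k .k) (.S ⟨1,0,[0,1,0,-1],[0,0,0,0,1],[1,2],(⟨0,[(34,0)]⟩,⟨0,[(33,0)]⟩),⟨0,[(1,0)]⟩,.k,(.r
  0 ⟨4,[(7,1),(5,0),(0,2),(24,1),(2,0),(5,2)]⟩ ⟨10,[(10,1),(1,1),(2,2),(10,4),(5,1),(17,6)]⟩),
  ⟨false,0,⟨0,[]⟩,⟨2,[(13,0),(12,0),(23,1)]⟩⟩,⟨true,0,⟨0,[(48,0)]⟩,⟨0,[(47,0)]⟩⟩,⟨true,0,⟨0,[(47,
  0)]⟩,⟨0,[(48,0)]⟩⟩,⟨false,1,⟨2,[(13,0),(12,0),(23,1)]⟩,⟨0,[]⟩⟩,[.o ⟨false,(-1),⟨4,[(0,2),(3,1),(8,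
  0),(0,0),(27,0),(5,2)]⟩,⟨1,[(12,1),(29,0),(7,0)]⟩⟩,.a ⟨true,(-1),⟨0,[(0,0),(17,0),(29,0)]⟩,⟨0,
  [(12,0)]⟩⟩ ⟨false,0,⟨6,[(7,1),(5,0),(0,2),(24,1),(2,0),(3,1)]⟩,⟨2,[(13,0),(12,0),(23,1)]⟩⟩ ⟨true,
  0,⟨0,[(48,0)]⟩,⟨11,[(15,1),(4,1),(5,1),(11,0),(0,0)]⟩⟩,.e ⟨false,0,⟨0,[(52,0)]⟩,⟨0,[(50,0)]⟩⟩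
  ⟨false,0,⟨0,[(48,0)]⟩,⟨4,[(12,1),(7,0),(11,1),(16,0),(0,1)]⟩⟩,.o ⟨false,(-1),⟨0,[(0,0)]⟩,⟨1,[(31,
  1),(10,0),(6,0)]⟩⟩]⟩) (.R ⟨1,false,false,false,[0,0,0,0,1],[1,-1],[1,1],(⟨0,[(34,0)]⟩,⟨0,[(33,
  0)]⟩),(⟨0,[(43,0)]⟩,⟨0,[(44,0)]⟩),⟨0,[(1,0)]⟩,.k,.k,(.r 0 ⟨4,[(0,1),(3,1),(8,0),(0,0),(27,0),(5,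
  2)]⟩ ⟨10,[(10,1),(1,1),(2,2),(10,4),(5,1),(17,6)]⟩),(.r 0 ⟨10,[(13,1),(1,2),(6,1),(3,4),(18,1)]⟩
  ⟨1,[(10,0),(3,0),(35,0)]⟩),.k,.k,⟨false,0,⟨0,[(47,0)]⟩,⟨1,[(10,0),(3,0),(35,0)]⟩⟩,⟨true,1,⟨1,[(0,
  1),(21,1),(19,0),(5,1),(1,0)]⟩,⟨0,[(4,0),(45,0)]⟩⟩,⟨true,0,⟨0,[]⟩,⟨0,[(52,0)]⟩⟩,⟨true,2,⟨1,[(31,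
  1),(10,0),(5,1),(1,0)]⟩,⟨0,[(3,0)]⟩⟩,⟨false,1,⟨4,[(12,1),(7,0),(11,1),(16,0),(0,1)]⟩,⟨0,[(48,
  0)]⟩⟩,⟨true,2,⟨1,[(31,1),(10,0),(7,0)]⟩,⟨0,[(4,0)]⟩⟩,[.e ⟨false,0,⟨6,[(0,1),(3,1),(8,0),(0,0),(27,
  0),(3,1)]⟩,⟨2,[(13,0),(12,0),(23,1)]⟩⟩ ⟨false,2,⟨1,[(0,0),(12,0),(3,0),(13,0),(10,0)]⟩,⟨1,[(2,0),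
  (1,0),(45,1)]⟩⟩,.o ⟨false,1,⟨1,[(42,0),(5,1),(1,0)]⟩,⟨0,[(47,0)]⟩⟩,.e ⟨false,0,⟨0,[]⟩,⟨2,[(13,0),
  (12,0),(23,1)]⟩⟩ ⟨false,2,⟨1,[(31,1),(10,0),(5,1),(1,0)]⟩,⟨1,[(2,0),(1,0),(45,1)]⟩⟩,.a ⟨true,(-1),
  ⟨1,[(4,0),(17,0),(2,0),(22,0),(1,1)]⟩,⟨0,[(0,0)]⟩⟩ ⟨true,0,⟨6,[(0,1),(3,1),(8,0),(0,0),(27,0),(3,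
  1)]⟩,⟨1,[(38,0),(0,0)]⟩⟩ ⟨false,2,⟨1,[(0,1),(41,0),(5,1),(1,0)]⟩,⟨3,[(4,1),(15,0),(1,0),(2,1),(24,
  2)]⟩⟩]⟩)) (.Q [0,0,1,0,-1,0,0,0,1,0,0,-1] (.p false [0,0,0,0,1] [] (⟨0,[(33,0)]⟩,⟨0,[(32,0)]⟩) .k
  0 (⟨0,[]⟩,⟨0,[]⟩) .k .k) (.R ⟨0,false,false,true,[0,0,0,0,1],[0,1],[],(⟨0,[(34,0)]⟩,⟨0,[(33,0)]⟩),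
  (⟨0,[(44,0)]⟩,⟨0,[(43,0)]⟩),⟨0,[(1,0)]⟩,.k,.k,(.r 0 ⟨4,[(7,1),(5,0),(0,2),(24,1),(2,0),(5,2)]⟩
  ⟨10,[(10,1),(1,1),(2,2),(10,4),(5,1),(17,6)]⟩),(.r 0 ⟨4,[(7,1),(5,0),(0,2),(24,1),(2,0),(5,2)]⟩
  ⟨10,[(10,1),(1,1),(2,2),(10,4),(5,1),(17,6)]⟩),.k,.k,⟨true,1,⟨1,[(10,0),(3,0),(35,0)]⟩,⟨0,[(22,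
  0)]⟩⟩,⟨false,2,⟨0,[(31,0),(17,0)]⟩,⟨0,[(0,0)]⟩⟩,⟨false,1,⟨0,[(50,0)]⟩,⟨0,[(52,0)]⟩⟩,⟨true,1,⟨0,
  [(12,0)]⟩,⟨4,[(0,2),(3,1),(8,0),(0,0),(27,0),(5,2)]⟩⟩,⟨false,0,⟨0,[]⟩,⟨0,[]⟩⟩,⟨false,0,⟨0,[]⟩,⟨0,
  []⟩⟩,[.o ⟨false,0,⟨0,[(47,0)]⟩,⟨1,[(42,0),(5,1),(1,0)]⟩⟩,.a ⟨true,0,⟨17,[(15,2),(2,16),(1,2),(5,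
  2),(1,0),(10,1)]⟩,⟨0,[(48,0)]⟩⟩ ⟨false,1,⟨1,[(49,0),(0,0)]⟩,⟨0,[(52,0)]⟩⟩ ⟨true,1,⟨0,[(12,0)]⟩,⟨0,
  [(0,0),(47,0)]⟩⟩,.e ⟨false,1,⟨2,[(13,0),(12,0),(23,1)]⟩,⟨0,[]⟩⟩ ⟨false,1,⟨0,[(12,0)]⟩,⟨1,[(0,1),
  (9,0),(3,0),(35,0)]⟩⟩,.o ⟨false,(-1),⟨0,[(0,0)]⟩,⟨1,[(31,1),(10,0),(6,0)]⟩⟩]⟩) (.Q [0,0,1,0,-2,0,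
  0,0,2,1,0,-2] (.p false [0,0,0,0,1] [1,0,0,0,-1] (⟨0,[(34,0)]⟩,⟨0,[(33,0)]⟩) .k 2 (⟨0,[(33,0)]⟩,
  ⟨0,[(34,0)]⟩) .k (.r 0 ⟨0,[(52,1)]⟩ ⟨0,[(50,0)]⟩)) (.R ⟨0,false,false,true,[0,0,0,0,1],[1,0,0,0,
  -1],[0,1,0,-1],(⟨0,[(35,0)]⟩,⟨0,[(34,0)]⟩),(⟨0,[(34,0)]⟩,⟨0,[(35,0)]⟩),⟨0,[(2,0)]⟩,.k,.k,(.r 0 ⟨4,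
  [(1,1),(3,1),(8,0),(0,0),(27,0),(5,2)]⟩ ⟨10,[(11,1),(1,1),(2,2),(10,4),(5,1),(17,6)]⟩),.k,.k,.k,
  ⟨false,0,⟨4,[(1,1),(3,1),(8,0),(0,0),(27,0),(5,2)]⟩,⟨4,[(13,1),(7,0),(11,1),(16,0),(0,1)]⟩⟩,⟨true,
  2,⟨1,[(1,3),(21,1),(19,0),(5,1),(1,0)]⟩,⟨0,[(0,0)]⟩⟩,⟨true,0,⟨0,[(49,0)]⟩,⟨0,[(48,0)]⟩⟩,⟨false,3,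
  ⟨1,[(1,3),(21,1),(19,0),(5,1),(1,2)]⟩,⟨10,[(0,8),(2,2),(1,0),(8,2),(0,2),(27,0)]⟩⟩,⟨false,0,⟨0,
  []⟩,⟨0,[]⟩⟩,⟨false,0,⟨0,[]⟩,⟨0,[]⟩⟩,[.a ⟨true,1,⟨0,[(32,0)]⟩,⟨1,[(0,0),(18,0)]⟩⟩ ⟨false,0,⟨4,[(1,
  1),(3,1),(8,0),(0,0),(27,0),(5,2)]⟩,⟨4,[(13,1),(7,0),(11,1),(16,0),(0,1)]⟩⟩ ⟨true,2,⟨1,[(1,3),(21,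
  1),(19,0),(5,1),(1,0)]⟩,⟨0,[(0,0)]⟩⟩,.o ⟨false,2,⟨1,[(32,1),(10,0),(7,0)]⟩,⟨10,[(0,2),(2,0),(1,3),
  (8,0),(0,0),(27,3)]⟩⟩,.a ⟨true,(-1),⟨1,[(0,0),(18,0)]⟩,⟨0,[(32,0)]⟩⟩ ⟨false,0,⟨0,[(49,0)]⟩,⟨4,
  [(13,1),(7,0),(11,1),(16,0),(0,1)]⟩⟩ ⟨true,2,⟨1,[(1,3),(21,1),(19,0),(5,1),(1,0)]⟩,⟨10,[(0,8),(2,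
  2),(1,0),(8,2),(0,2),(27,0)]⟩⟩,.a ⟨true,(-1),⟨5,[(0,2),(18,0),(9,1),(10,3)]⟩,⟨0,[(1,0)]⟩⟩ ⟨true,0,
  ⟨4,[(1,1),(3,1),(8,0),(0,0),(27,0),(5,2)]⟩,⟨11,[(16,1),(4,1),(5,1),(11,0),(0,0)]⟩⟩ ⟨false,3,⟨1,
  [(1,1),(30,1),(10,0),(7,0)]⟩,⟨0,[(0,0)]⟩⟩]⟩) (.R ⟨0,false,false,true,[0,0,0,0,1],[0,1],[0,0,1],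
  (⟨0,[(35,0)]⟩,⟨0,[(34,0)]⟩),(⟨0,[(45,0)]⟩,⟨0,[(44,0)]⟩),⟨0,[(2,0)]⟩,.k,.k,(.r 0 ⟨10,[(0,1),(4,3),
  (8,2),(0,2),(27,0),(5,4)]⟩ ⟨10,[(11,1),(1,1),(2,2),(10,4),(5,1),(17,6)]⟩),(.r 0 ⟨10,[(0,1),(4,3),
  (8,2),(0,2),(27,0),(5,4)]⟩ ⟨10,[(11,1),(1,1),(2,2),(10,4),(5,1),(17,6)]⟩),.k,.k,⟨false,1,⟨1,[(11,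
  0),(3,0),(35,0)]⟩,⟨0,[(48,0)]⟩⟩,⟨true,1,⟨0,[(1,0)]⟩,⟨1,[(5,1),(17,1),(19,0),(5,1),(1,2)]⟩⟩,⟨false,
  1,⟨1,[(39,0),(0,0),(10,1)]⟩,⟨16,[(0,1),(4,3),(8,2),(0,2),(27,0),(3,5)]⟩⟩,⟨true,1,⟨0,[(13,0)]⟩,⟨1,
  [(5,1),(37,0),(5,1),(1,0)]⟩⟩,⟨false,0,⟨0,[]⟩,⟨0,[]⟩⟩,⟨false,0,⟨0,[]⟩,⟨0,[]⟩⟩,[.o ⟨false,0,⟨0,[(48,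
  0)]⟩,⟨1,[(43,0),(5,1),(1,0)]⟩⟩,.e ⟨false,1,⟨2,[(14,0),(12,0),(23,1)]⟩,⟨16,[(0,1),(4,3),(8,2),(0,
  2),(27,0),(3,5)]⟩⟩ ⟨false,1,⟨1,[(0,0),(0,0),(1,0),(47,0)]⟩,⟨0,[(33,0),(15,0)]⟩⟩,.a ⟨true,(-1),⟨0,
  [(5,0),(45,0)]⟩,⟨0,[(32,0)]⟩⟩ ⟨true,0,⟨1,[(39,0),(0,0)]⟩,⟨16,[(0,1),(4,3),(8,2),(0,2),(27,0),(3,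
  5)]⟩⟩ ⟨false,1,⟨0,[(13,0)]⟩,⟨1,[(5,1),(37,0),(5,1),(1,2)]⟩⟩,.e ⟨false,1,⟨2,[(14,0),(12,0),(23,
  1)]⟩,⟨0,[]⟩⟩ ⟨false,1,⟨1,[(0,0),(0,0),(1,0),(47,0)]⟩,⟨3,[(5,1),(17,1),(9,1),(9,0),(5,5),(1,
  4)]⟩⟩]⟩))))))))) (.S ⟨1,0,[0,0,0,-1,0,0,0,-1],[1,0,-1],[1,1,0,0,0,0,0,-1],(⟨0,[(33,0)]⟩,⟨0,[(34,
  0)]⟩),⟨0,[(22,0)]⟩,.k,.k,⟨false,0,⟨0,[]⟩,⟨2,[(6,0),(12,0),(23,1)]⟩⟩,⟨true,0,⟨0,[(41,0)]⟩,⟨0,[(40,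
  0)]⟩⟩,⟨true,0,⟨0,[(40,0)]⟩,⟨0,[(41,0)]⟩⟩,⟨false,1,⟨2,[(6,0),(12,0),(23,1)]⟩,⟨0,[]⟩⟩,[.o ⟨false,1,
  ⟨0,[(0,0),(44,0)]⟩,⟨0,[(1,0),(12,0)]⟩⟩,.o ⟨false,1,⟨0,[(0,0)]⟩,⟨0,[(20,0)]⟩⟩,.o ⟨false,1,⟨1,[(32,
  1),(2,0),(6,0)]⟩,⟨0,[(16,0)]⟩⟩,.a ⟨true,0,⟨0,[(32,0)]⟩,⟨0,[(28,0)]⟩⟩ ⟨true,0,⟨9,[(7,6),(5,0),(5,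
  2),(19,0)]⟩,⟨0,[(1,0),(39,1)]⟩⟩ ⟨false,1,⟨0,[(0,0),(27,0)]⟩,⟨0,[(1,0),(39,0)]⟩⟩]⟩))) (.I [0,-1,0,
  0,1,0,0,1] (.I [1,0,-1,0,0,0,0,-1] (.S ⟨1,0,[0,0,0,-1,0,0,0,-1],[1,0,-1],[1,1,0,0,0,0,0,-1],(⟨0,
  [(33,0)]⟩,⟨0,[(34,0)]⟩),⟨0,[(22,0)]⟩,.k,.k,⟨false,0,⟨0,[]⟩,⟨2,[(6,0),(12,0),(23,1)]⟩⟩,⟨true,0,⟨0,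
  [(41,0)]⟩,⟨0,[(40,0)]⟩⟩,⟨true,0,⟨0,[(40,0)]⟩,⟨0,[(41,0)]⟩⟩,⟨false,1,⟨2,[(6,0),(12,0),(23,1)]⟩,⟨0,
  []⟩⟩,[.e ⟨false,0,⟨3,[(0,1),(6,0),(11,0),(18,0)]⟩,⟨0,[(1,0)]⟩⟩ ⟨false,0,⟨0,[(0,0),(40,0)]⟩,⟨4,[(5,
  0),(0,1),(1,2),(16,0),(16,1)]⟩⟩,.o ⟨false,1,⟨0,[(2,0),(4,0),(35,0)]⟩,⟨0,[(20,0)]⟩⟩,.o ⟨false,1,⟨1,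
  [(32,1),(2,0),(6,0)]⟩,⟨0,[(16,0)]⟩⟩,.a ⟨true,0,⟨0,[(32,0)]⟩,⟨0,[(28,0)]⟩⟩ ⟨false,0,⟨0,[(0,0)]⟩,
  ⟨11,[(3,9),(4,3),(10,1),(11,0),(0,0),(10,1)]⟩⟩ ⟨true,0,⟨0,[(0,0),(40,0)]⟩,⟨2,[(6,1),(1,0),(6,1),
  (23,0)]⟩⟩]⟩) (.Q [0,-1,0,1,1,0,-1,-1,0,-1,1] (.p true [0,0,1] [1] (⟨0,[(34,0)]⟩,⟨0,[(33,0)]⟩) .k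
  1 (⟨0,[]⟩,⟨0,[]⟩) .k .k) (.R ⟨1,false,false,true,[1,-1],[0,-1,1],[1,1,-1,-1],(⟨0,[(37,0)]⟩,⟨0,
  [(38,0)]⟩),(⟨0,[(24,0)]⟩,⟨0,[(34,0),(3,0)]⟩),⟨1,[(10,0),(13,0),(12,0)]⟩,.k,.k,(.r (-1) ⟨0,[(4,0),
  (3,0)]⟩ ⟨5,[(9,1),(4,1),(5,1),(11,0),(0,0)]⟩),.k,.k,.k,⟨true,0,⟨2,[(8,0),(2,1),(2,0)]⟩,⟨0,[(1,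
  0)]⟩⟩,⟨false,0,⟨0,[(29,0)]⟩,⟨10,[(0,2),(6,3),(0,0),(24,7),(2,3),(3,1)]⟩⟩,⟨false,0,⟨0,[]⟩,⟨2,[(7,
  0),(12,0),(23,1)]⟩⟩,⟨false,0,⟨0,[(1,0),(27,0)]⟩,⟨0,[(0,0),(41,0)]⟩⟩,⟨true,0,⟨0,[(41,0)]⟩,⟨0,[(42,
  0)]⟩⟩,⟨false,0,⟨2,[(1,1),(10,1),(1,0),(0,0),(5,0),(7,0)]⟩,⟨0,[(0,0),(41,1)]⟩⟩,[.o ⟨false,0,⟨0,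
  [(30,0),(11,0)]⟩,⟨0,[(0,0)]⟩⟩,.o ⟨false,0,⟨0,[(1,0),(13,0)]⟩,⟨28,[(0,22),(6,2),(1,1),(10,4),(10,
  5),(4,2),(2,5)]⟩⟩,.a ⟨true,0,⟨1,[(32,0),(0,0)]⟩,⟨0,[(12,0)]⟩⟩ ⟨true,0,⟨0,[(1,0),(6,0)]⟩,⟨11,[(9,
  1),(4,1),(5,1),(11,0),(0,0)]⟩⟩ ⟨false,0,⟨0,[(1,0),(10,0),(2,0)]⟩,⟨2,[(0,1),(2,0),(16,0),(23,0)]⟩⟩,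
  .o ⟨false,0,⟨9,[(3,7),(10,0),(0,3),(0,0),(15,3),(3,0)]⟩,⟨0,[(43,0)]⟩⟩]⟩) (.Q [0,-1,0,0,1,0,-1,-1,
  0,-1,1] (.p true [0,0,1] [1] (⟨0,[(35,0)]⟩,⟨0,[(34,0)]⟩) .k 1 (⟨0,[]⟩,⟨0,[]⟩) .k .k) (.I [1,0,1,1,
  0,0,0,1] (.S ⟨1,0,[0,1,1,0,0,0,0,1],[0,1,1],[1,0,1,1,0,0,0,1],(⟨0,[(37,0),(2,0)]⟩,⟨0,[(25,0)]⟩),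
  ⟨0,[(37,0)]⟩,.k,.k,⟨true,0,⟨0,[]⟩,⟨0,[(48,0)]⟩⟩,⟨false,0,⟨0,[(44,0)]⟩,⟨4,[(8,1),(7,0),(11,1),(16,
  0),(0,1)]⟩⟩,⟨false,1,⟨4,[(8,1),(7,0),(11,1),(16,0),(0,1)]⟩,⟨0,[(44,0)]⟩⟩,⟨true,0,⟨0,[(48,0)]⟩,⟨0,
  []⟩⟩,[.o ⟨false,0,⟨0,[(32,0)]⟩,⟨0,[(1,0)]⟩⟩,.o ⟨false,0,⟨0,[(0,0),(16,0)]⟩,⟨4,[(1,2),(7,0),(12,0),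
  (10,1),(4,0)]⟩⟩,.a ⟨true,0,⟨0,[(31,0)]⟩,⟨0,[(35,0)]⟩⟩ ⟨true,0,⟨0,[(0,0)]⟩,⟨2,[(10,0),(2,1),(27,
  0)]⟩⟩ ⟨false,0,⟨0,[(3,0)]⟩,⟨0,[(1,0),(29,0)]⟩⟩,.o ⟨false,0,⟨0,[(19,0)]⟩,⟨2,[(1,0),(7,0),(25,1),(2,
  0),(3,0)]⟩⟩]⟩) (.R ⟨2,true,false,false,[0,1],[1,1,-1],[0,0,1],(⟨0,[]⟩,⟨0,[]⟩),(⟨0,[(36,0),(3,0)]⟩,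
  ⟨0,[(26,0)]⟩),⟨0,[]⟩,.k,.k,.k,.k,.k,.k,⟨false,1,⟨0,[(9,0)]⟩,⟨6,[(0,2),(9,2),(5,3),(5,0)]⟩⟩,⟨true,
  1,⟨2,[(1,0),(7,0),(25,1),(2,0),(3,0)]⟩,⟨1,[(0,0),(1,1),(4,0),(8,0),(29,0)]⟩⟩,⟨true,0,⟨0,[(44,0)]⟩,
  ⟨0,[(43,0)]⟩⟩,⟨false,1,⟨0,[(1,0)]⟩,⟨4,[(2,1),(1,1),(6,0),(2,0),(9,0),(6,0)]⟩⟩,⟨false,1,⟨2,[(9,0),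
  (12,0),(23,1)]⟩,⟨0,[]⟩⟩,⟨true,1,⟨0,[(1,0),(41,0)]⟩,⟨0,[(2,0)]⟩⟩,[]⟩)) (.R ⟨2,true,false,false,[0,
  1],[1,0,-1],[0,0,1],(⟨0,[]⟩,⟨0,[]⟩),(⟨0,[(35,0)]⟩,⟨0,[(36,0)]⟩),⟨0,[]⟩,.k,.k,.k,.k,.k,.k,⟨true,0,
  ⟨0,[(2,0)]⟩,⟨2,[(9,0),(2,1),(2,0)]⟩⟩,⟨false,1,⟨1,[(34,1),(2,0),(6,0)]⟩,⟨0,[(30,0)]⟩⟩,⟨true,0,⟨0,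
  [(43,0)]⟩,⟨0,[(42,0)]⟩⟩,⟨false,1,⟨0,[(4,0),(4,0),(35,0)]⟩,⟨5,[(0,1),(2,1),(6,0),(2,0),(1,0),(6,0),
  (7,2)]⟩⟩,⟨false,1,⟨2,[(8,0),(12,0),(23,1)]⟩,⟨0,[]⟩⟩,⟨true,1,⟨1,[(32,1),(4,0),(7,0)]⟩,⟨0,[(0,0)]⟩⟩,
  []⟩)))) (.Q [0,0,1,0,-1,0,1,0,0,1,-1] (.p false [0,0,1] [1] (⟨0,[(33,0)]⟩,⟨0,[(32,0)]⟩) .k 1 (⟨0,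
  []⟩,⟨0,[]⟩) .k .k) (.S ⟨1,0,[0,0,0,-1,0,0,0,1],[0,0,1],[1,1,0,0,0,0,0,1],(⟨0,[(34,0)]⟩,⟨0,[(33,
  0)]⟩),⟨0,[(23,0)]⟩,.k,.k,⟨false,0,⟨0,[]⟩,⟨2,[(6,0),(12,0),(23,1)]⟩⟩,⟨true,0,⟨0,[(41,0)]⟩,⟨0,[(40,
  0)]⟩⟩,⟨true,0,⟨0,[(40,0)]⟩,⟨0,[(41,0)]⟩⟩,⟨false,1,⟨2,[(6,0),(12,0),(23,1)]⟩,⟨0,[]⟩⟩,[.e ⟨false,1,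
  ⟨9,[(5,0),(0,6),(1,2),(16,0),(12,4),(3,1)]⟩,⟨0,[(1,0),(41,0)]⟩⟩ ⟨false,1,⟨0,[(6,0)]⟩,⟨2,[(7,1),(2,
  0),(2,1)]⟩⟩,.o ⟨false,1,⟨8,[(0,1),(2,7),(10,1),(5,0),(0,1),(13,1),(7,0)]⟩,⟨1,[(1,1),(30,1),(2,0),
  (3,1),(3,0)]⟩⟩,.o ⟨false,0,⟨0,[(16,0)]⟩,⟨1,[(32,1),(2,0),(6,0)]⟩⟩,.a ⟨true,(-1),⟨0,[(0,0)]⟩,⟨0,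
  [(32,0),(9,0)]⟩⟩ ⟨false,1,⟨0,[(3,0),(35,0)]⟩,⟨0,[(4,0),(38,0)]⟩⟩ ⟨true,1,⟨0,[(6,0)]⟩,⟨4,[(1,3),
  (11,0),(1,0),(3,0)]⟩⟩]⟩) (.S ⟨1,0,[0,1,0,-1,0,0,0,1],[0,0,1],[1,1],(⟨0,[(34,0)]⟩,⟨0,[(33,0)]⟩),⟨0,
  [(23,0)]⟩,.k,.k,⟨true,(-1),⟨0,[(1,0)]⟩,⟨6,[(3,0),(1,0),(0,4),(1,1),(10,0),(5,0)]⟩⟩,⟨false,0,⟨0,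
  [(41,0)]⟩,⟨4,[(5,1),(7,0),(11,1),(16,0),(0,1)]⟩⟩,⟨false,0,⟨2,[(7,1),(2,0),(2,1)]⟩,⟨0,[(3,0)]⟩⟩,
  ⟨true,0,⟨0,[(45,0)]⟩,⟨0,[]⟩⟩,[.o ⟨false,0,⟨0,[(29,0),(11,0)]⟩,⟨1,[(0,1),(0,0),(8,0),(2,0),(29,
  0)]⟩⟩,.a ⟨true,0,⟨0,[(3,0),(7,0),(2,0),(0,0)]⟩,⟨5,[(0,2),(0,4),(9,2),(1,1),(16,0),(1,1),(10,1)]⟩⟩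
  ⟨true,0,⟨0,[]⟩,⟨1,[(31,0),(0,0)]⟩⟩ ⟨false,1,⟨0,[(6,0)]⟩,⟨2,[(7,1),(2,0),(2,1)]⟩⟩,.o ⟨false,0,⟨0,
  [(16,0)]⟩,⟨3,[(0,2),(1,0),(0,0),(15,0)]⟩⟩,.o ⟨false,0,⟨0,[(31,0)]⟩,⟨0,[(0,0)]⟩⟩]⟩)))) (.Q [0,0,1,
  0,-1,0,1,0,0,1,-1] (.p false [0,0,1] [1] (⟨0,[(31,0)]⟩,⟨0,[(30,0)]⟩) .k 1 (⟨0,[]⟩,⟨0,[]⟩) .k .k)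
  (.S ⟨1,0,[0,1,0,-1,0,0,0,1],[0,0,1],[0,0,0,-1,0,0,0,1],(⟨0,[(32,0)]⟩,⟨0,[(31,0)]⟩),⟨0,[(21,0)]⟩,
  .k,.k,⟨true,0,⟨0,[(39,0)]⟩,⟨0,[(38,0)]⟩⟩,⟨false,0,⟨0,[(39,0)]⟩,⟨4,[(3,1),(7,0),(11,1),(16,0),(0,
  1)]⟩⟩,⟨false,1,⟨2,[(4,0),(12,0),(23,1)]⟩,⟨0,[]⟩⟩,⟨true,0,⟨0,[(43,0)]⟩,⟨0,[]⟩⟩,[.o ⟨false,0,⟨0,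
  [(27,0),(11,0)]⟩,⟨1,[(1,1),(28,1),(2,0),(6,0),(0,1)]⟩⟩,.e ⟨false,2,⟨2,[(4,3),(12,0),(23,1)]⟩,⟨0,
  [(1,0)]⟩⟩ ⟨false,1,⟨0,[(4,0)]⟩,⟨7,[(1,2),(3,2),(5,1),(5,1),(23,2)]⟩⟩,.o ⟨false,0,⟨0,[(14,0)]⟩,⟨1,
  [(30,1),(2,0),(6,0)]⟩⟩,.a ⟨true,(-1),⟨0,[(0,0)]⟩,⟨0,[(30,0),(9,0)]⟩⟩ ⟨true,1,⟨0,[(4,0)]⟩,⟨8,[(1,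
  3),(0,3),(8,0),(1,0),(3,0)]⟩⟩ ⟨false,1,⟨0,[(4,0)]⟩,⟨2,[(1,0),(0,0),(5,0),(2,0),(29,1)]⟩⟩]⟩) (.Q
  [0,0,2,0,0,0,-1,0,0,-1,1] (.p true [0,0,1] [1] (⟨0,[(32,0)]⟩,⟨0,[(31,0)]⟩) .k 1 (⟨0,[]⟩,⟨0,[]⟩)
  .k .k) (.Q [0,-1,0,-2,1,0,0,0,-1,-1,0,1] (.p true [0,0,0,0,1] [1] (⟨0,[(26,0)]⟩,⟨0,[(25,0)]⟩) .k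
  1 (⟨0,[]⟩,⟨0,[]⟩) .k .k) (.R ⟨1,true,false,false,[1,-1],[0,0,0,0,1],[0,1,-1,-2],(⟨0,[(36,0)]⟩,⟨0,
  [(37,0)]⟩),(⟨0,[(27,0)]⟩,⟨0,[(26,0)]⟩),⟨1,[(9,0),(13,0),(12,0)]⟩,.k,.k,(.r (-1) ⟨2,[(0,0),(5,1),
  (0,1),(10,0),(24,0)]⟩ ⟨8,[(1,0),(6,2),(4,2),(5,2),(1,0),(10,0)]⟩),(.r (-1) ⟨5,[(0,0),(5,1),(0,1),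
  (10,0),(24,3)]⟩ ⟨10,[(6,1),(1,2),(6,1),(3,4),(18,1)]⟩),(.r (-2) ⟨1,[(6,1),(3,1),(31,0),(0,0)]⟩ ⟨1,
  [(3,0),(4,0),(6,0)]⟩),.k,⟨false,1,⟨2,[(0,0),(5,1),(0,1),(10,0),(24,0)]⟩,⟨1,[(13,0),(26,0)]⟩⟩,
  ⟨true,0,⟨0,[(11,0),(13,0)]⟩,⟨1,[(0,1),(2,0),(4,0),(6,0)]⟩⟩,⟨false,0,⟨0,[(41,0)]⟩,⟨4,[(5,1),(7,0),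
  (11,1),(16,0),(0,1)]⟩⟩,⟨true,(-1),⟨0,[(17,0)]⟩,⟨6,[(0,4),(4,1),(9,0),(19,0),(2,1)]⟩⟩,⟨true,0,⟨0,
  [(45,0)]⟩,⟨0,[]⟩⟩,⟨false,0,⟨4,[(5,1),(7,0),(3,4),(7,1),(16,0),(0,1)]⟩,⟨0,[(0,0)]⟩⟩,[]⟩) (.Q [0,-2,
  0,-1,2,0,0,0,-1,-1,0,1] (.p true [0,0,0,0,1] [1] (⟨0,[(27,0)]⟩,⟨0,[(26,0)]⟩) .k 1 (⟨0,[]⟩,⟨0,[]⟩)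
  .k .k) (.Q [0,0,0,-2,0,0,-1,-1,0,-1,1] (.p true [0,0,1] [1] (⟨0,[(35,0)]⟩,⟨0,[(34,0)]⟩) .k 1 (⟨0,
  []⟩,⟨0,[]⟩) .k .k) (.R ⟨1,true,false,true,[1,0,-1],[0,1],[0,0,0,-1,0,0,0,-1],(⟨0,[(35,0)]⟩,⟨0,
  [(36,0)]⟩),(⟨0,[(39,0)]⟩,⟨0,[(38,0)]⟩),⟨0,[(24,0)]⟩,.k,.k,.k,.k,(.r (-1) ⟨3,[(8,1),(0,1),(2,3),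
  (31,0),(0,0)]⟩ ⟨0,[(10,0)]⟩),.k,⟨false,1,⟨4,[(0,2),(7,0),(0,2),(20,2),(14,3)]⟩,⟨2,[(8,0),(1,1),(6,
  0),(23,1)]⟩⟩,⟨true,0,⟨0,[(30,0)]⟩,⟨0,[(3,0)]⟩⟩,⟨true,0,⟨0,[(43,0)]⟩,⟨0,[(42,0)]⟩⟩,⟨false,0,⟨0,
  [(10,0),(2,0),(2,0)]⟩,⟨3,[(0,1),(31,1),(4,0),(7,2)]⟩⟩,⟨false,1,⟨2,[(8,0),(12,0),(23,1)]⟩,⟨0,[]⟩⟩,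
  ⟨true,0,⟨13,[(2,2),(4,3),(2,3),(2,7),(6,0),(1,9),(0,1)]⟩,⟨0,[(0,0)]⟩⟩,[]⟩) (.Q [0,0,1,0,-1,0,0,0,
  1,1,0,-1] (.p false [0,0,0,0,1] [1] (⟨0,[(29,0)]⟩,⟨0,[(28,0)]⟩) .k 1 (⟨0,[]⟩,⟨0,[]⟩) .k .k) (.Q
  [0,0,-1,0,1,0,0,0,-1,0,0,1] (.p true [0,0,0,0,1] [] (⟨0,[(30,0)]⟩,⟨0,[(29,0)]⟩) .k 0 (⟨0,[]⟩,⟨0,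
  []⟩) .k .k) (.Q [0,0,2,0,-1,0,0,0,1,0,0,-1] (.p false [0,0,0,0,1] [] (⟨0,[(31,0)]⟩,⟨0,[(30,0)]⟩)
  .k 0 (⟨0,[]⟩,⟨0,[]⟩) .k .k) (.Q [0,-1,0,0,1,0,0,0,-1,0,0,1] (.p true [0,0,0,0,1] [] (⟨0,[(32,0)]⟩,
  ⟨0,[(31,0)]⟩) .k 0 (⟨0,[]⟩,⟨0,[]⟩) .k .k) (.Q [0,0,0,0,0,-1,0,0,0,0,0,1] (.ed false [1,-1,0,0,1]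
  .k) (.S ⟨1,0,[0,1,0,-1],[0,0,0,0,1],[1,2],(⟨0,[(34,0)]⟩,⟨0,[(33,0)]⟩),⟨0,[(0,0)]⟩,.k,(.r 0 ⟨0,
  [(10,0),(2,0),(34,0)]⟩ ⟨8,[(13,1),(1,2),(10,4),(23,6)]⟩),⟨false,0,⟨0,[]⟩,⟨2,[(13,0),(12,0),(23,
  1)]⟩⟩,⟨true,0,⟨0,[(48,0)]⟩,⟨0,[(47,0)]⟩⟩,⟨true,0,⟨0,[(47,0)]⟩,⟨0,[(48,0)]⟩⟩,⟨false,1,⟨2,[(13,0),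
  (12,0),(23,1)]⟩,⟨0,[]⟩⟩,[.e ⟨false,0,⟨0,[(45,0)]⟩,⟨0,[(50,0)]⟩⟩ ⟨false,0,⟨0,[(10,0),(2,0),(34,
  0)]⟩,⟨4,[(12,1),(7,0),(11,1),(16,0),(0,1)]⟩⟩,.o ⟨false,0,⟨0,[(32,0),(15,0)]⟩,⟨2,[(1,2),(6,0),(0,
  1),(0,1),(4,0),(5,1),(5,0)]⟩⟩,.o ⟨false,0,⟨0,[(32,0)]⟩,⟨2,[(1,1),(1,0),(4,1),(0,0),(0,0),(10,1),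
  (5,0)]⟩⟩,.a ⟨true,(-1),⟨0,[(4,0)]⟩,⟨0,[(3,0)]⟩⟩ ⟨false,0,⟨0,[(10,0),(2,0)]⟩,⟨10,[(4,5),(1,5),(8,
  0),(4,0),(5,0),(23,4)]⟩⟩ ⟨true,0,⟨0,[(10,0),(2,0),(34,0)]⟩,⟨11,[(2,0),(12,1),(4,1),(5,1),(4,
  0)]⟩⟩]⟩) (.Q [0,0,0,0,-1,0,1,0,1,1,-1,-1] (.p false [0,0,1] [1,0,0,0,-1] (⟨0,[(41,0)]⟩,⟨0,[(40,
  0)]⟩) .k 2 (⟨0,[(33,0)]⟩,⟨0,[(34,0)]⟩) .k (.r (-1) ⟨10,[(13,12),(1,2),(6,1),(3,4),(18,1)]⟩ ⟨0,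
  [(10,0),(37,0),(1,0)]⟩)) (.S ⟨1,0,[0,-1,0,-1],[1,0,0,0,-1],[1],(⟨0,[(34,0)]⟩,⟨0,[(35,0)]⟩),⟨1,[(1,
  0),(15,0),(13,0),(2,0)]⟩,.k,(.r (-1) ⟨2,[(14,0),(0,0),(33,0),(1,1)]⟩ ⟨10,[(14,1),(1,2),(6,1),(3,
  4),(18,1)]⟩),⟨false,0,⟨0,[]⟩,⟨2,[(14,0),(12,0),(23,1)]⟩⟩,⟨true,0,⟨0,[(49,0)]⟩,⟨0,[(48,0)]⟩⟩,⟨true,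
  0,⟨0,[(48,0)]⟩,⟨0,[(49,0)]⟩⟩,⟨false,1,⟨2,[(14,0),(12,0),(23,1)]⟩,⟨0,[]⟩⟩,[.a ⟨true,1,⟨0,[(2,0),
  (46,0)]⟩,⟨0,[(25,0)]⟩⟩ ⟨true,0,⟨0,[]⟩,⟨1,[(3,0),(28,0)]⟩⟩ ⟨false,1,⟨2,[(14,0),(0,0),(33,0),(1,
  1)]⟩,⟨0,[(48,0)]⟩⟩,.o ⟨false,2,⟨0,[(7,0)]⟩,⟨0,[(20,0)]⟩⟩,.o ⟨false,1,⟨2,[(2,1),(1,0),(4,1),(0,0),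
  (0,0),(10,1),(5,0)]⟩,⟨0,[(33,0)]⟩⟩,.o ⟨false,1,⟨4,[(4,1),(2,1),(1,0),(2,0),(10,1),(8,0),(4,0),(5,
  0)]⟩,⟨0,[(0,0),(9,0)]⟩⟩]⟩) (.K ⟨0,[1,0,0,0,-1],1,1,(⟨0,[(34,0)]⟩,⟨0,[(35,0)]⟩),.k,(.r (-1) ⟨2,
  [(14,0),(0,0),(33,0),(1,1)]⟩ ⟨10,[(14,1),(1,2),(6,1),(3,4),(18,1)]⟩),(.r (-1) ⟨8,[(14,1),(1,2),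
  (10,4),(23,6)]⟩ ⟨0,[(11,0),(2,0),(34,0)]⟩),.k,.k,[⟨0,[(0,0)]⟩,⟨0,[(5,0)]⟩,⟨0,[(26,0),(26,0)]⟩,⟨2,
  [(0,0),(1,0),(1,0),(17,0),(0,0),(19,0)]⟩]⟩))) (.Q [0,-2,0,0,2,0,0,0,-1,-1,0,1] (.p true [0,0,0,0,
  1] [1] (⟨0,[(33,0)]⟩,⟨0,[(32,0)]⟩) .k 1 (⟨0,[]⟩,⟨0,[]⟩) .k .k) (.R ⟨1,false,false,false,[1,0,-1],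
  [1,0,0,0,-1],[1,0,0,0,0,0,0,-1],(⟨0,[(40,0)]⟩,⟨0,[(41,0)]⟩),(⟨0,[(33,0)]⟩,⟨0,[(34,0)]⟩),⟨0,[(29,
  0)]⟩,.k,.k,.k,.k,(.r 0 ⟨2,[(14,0),(2,1),(27,0)]⟩ ⟨8,[(13,3),(1,5),(10,0),(23,4)]⟩),.k,⟨true,(-1),
  ⟨0,[(10,0),(37,0)]⟩,⟨1,[(4,0),(1,0),(6,0),(1,0)]⟩⟩,⟨false,1,⟨0,[(12,0),(8,0)]⟩,⟨0,[(4,0),(4,0)]⟩⟩,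
  ⟨true,0,⟨0,[]⟩,⟨0,[(52,0)]⟩⟩,⟨false,2,⟨0,[(5,0),(0,0),(41,0)]⟩,⟨1,[(1,1),(8,0),(3,0),(24,1),(10,
  0)]⟩⟩,⟨false,1,⟨4,[(12,1),(7,0),(11,1),(16,0),(0,1)]⟩,⟨0,[(48,0)]⟩⟩,⟨false,2,⟨0,[(5,0),(0,0)]⟩,⟨1,
  [(1,1),(8,0),(3,0),(24,1),(8,1),(1,0)]⟩⟩,[.o ⟨false,2,⟨4,[(0,0),(5,1),(5,1),(0,0),(12,0),(15,0)]⟩,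
  ⟨0,[(1,0)]⟩⟩,.o ⟨false,2,⟨0,[(0,0)]⟩,⟨2,[(1,1),(0,0),(42,1)]⟩⟩,.o ⟨false,1,⟨44,[(0,5),(7,10),(0,
  21),(3,7),(1,3),(16,5),(4,11),(4,2)]⟩,⟨0,[(23,0)]⟩⟩,.a ⟨true,0,⟨0,[(39,0)]⟩,⟨0,[(35,0)]⟩⟩ ⟨true,0,
  ⟨1,[(10,0),(3,0),(35,0)]⟩,⟨0,[(13,0),(8,0)]⟩⟩ ⟨false,2,⟨0,[(0,0),(34,0)]⟩,⟨0,[(1,0),(37,0)]⟩⟩]⟩)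
  (.R ⟨2,true,false,false,[0,1],[1,0,0,0,-1],[1,0,1,1],(⟨0,[]⟩,⟨0,[]⟩),(⟨0,[(33,0)]⟩,⟨0,[(34,0)]⟩),
  ⟨0,[]⟩,.k,.k,.k,(.r 0 ⟨10,[(13,1),(1,2),(6,1),(3,4),(18,1)]⟩ ⟨2,[(13,0),(0,0),(33,0),(1,1)]⟩),.k,
  .k,⟨false,0,⟨0,[(47,0)]⟩,⟨2,[(13,0),(0,0),(33,0),(1,1)]⟩⟩,⟨true,1,⟨4,[(3,1),(2,1),(1,0),(2,0),(10,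
  1),(8,0),(4,0),(5,0)]⟩,⟨0,[(0,0),(49,0)]⟩⟩,⟨true,0,⟨0,[]⟩,⟨0,[(52,0)]⟩⟩,⟨false,2,⟨0,[(6,0)]⟩,⟨0,
  [(24,0)]⟩⟩,⟨false,1,⟨4,[(12,1),(7,0),(11,1),(16,0),(0,1)]⟩,⟨0,[(48,0)]⟩⟩,⟨true,2,⟨8,[(6,4),(5,4),
  (0,0),(12,0),(5,0),(9,1)]⟩,⟨0,[(0,0)]⟩⟩,[]⟩))) (.K ⟨0,[1,0,0,0,-1],1,1,(⟨0,[(31,0)]⟩,⟨0,[(32,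
  0)]⟩),.k,(.r (-1) ⟨2,[(11,0),(0,0),(33,0),(1,1)]⟩ ⟨10,[(11,1),(1,2),(6,1),(3,4),(18,1)]⟩),(.r
  (-1) ⟨8,[(11,1),(1,2),(10,4),(23,6)]⟩ ⟨1,[(0,0),(16,0),(28,2)]⟩),.k,.k,[⟨0,[(0,0),(5,0)]⟩,⟨0,[(2,
  0)]⟩,⟨0,[(23,0),(26,0)]⟩,⟨8,[(0,5),(3,2),(1,1),(2,0),(9,0),(0,3),(13,0),(5,1)]⟩]⟩)) (.Q [0,-2,0,0,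
  2,0,0,0,-1,-1,0,1] (.p true [0,0,0,0,1] [1] (⟨0,[(31,0)]⟩,⟨0,[(30,0)]⟩) .k 1 (⟨0,[]⟩,⟨0,[]⟩) .k
  .k) (.R ⟨2,false,false,false,[0,1],[1,0,0,0,-1],[0,0,1],(⟨0,[]⟩,⟨0,[]⟩),(⟨0,[(31,0)]⟩,⟨0,[(32,
  0)]⟩),⟨0,[]⟩,.k,.k,.k,(.r 0 ⟨10,[(11,1),(1,2),(6,1),(3,4),(18,1)]⟩ ⟨2,[(11,0),(0,0),(33,0),(1,
  1)]⟩),.k,.k,⟨false,0,⟨0,[(50,0)]⟩,⟨1,[(47,0),(0,0)]⟩⟩,⟨true,1,⟨1,[(4,0),(1,0),(1,0),(20,0),(4,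
  0)]⟩,⟨0,[(1,0),(14,0)]⟩⟩,⟨true,0,⟨0,[(46,0)]⟩,⟨0,[(45,0)]⟩⟩,⟨false,2,⟨0,[(4,0)]⟩,⟨0,[(22,0)]⟩⟩,
  ⟨false,1,⟨2,[(11,0),(12,0),(23,1)]⟩,⟨0,[]⟩⟩,⟨false,2,⟨0,[(0,0)]⟩,⟨0,[(23,0)]⟩⟩,[.o ⟨false,2,⟨4,
  [(0,0),(3,1),(5,1),(0,0),(12,0),(15,0)]⟩,⟨0,[(1,0),(6,0),(2,0)]⟩⟩,.o ⟨false,2,⟨0,[(0,0)]⟩,⟨0,[(1,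
  0),(41,0)]⟩⟩,.a ⟨true,0,⟨0,[(16,0)]⟩,⟨4,[(2,0),(3,1),(19,0),(2,0)]⟩⟩ ⟨true,0,⟨4,[(2,0),(3,1),(19,
  0),(2,0)]⟩,⟨0,[(8,0),(2,0)]⟩⟩ ⟨false,2,⟨20,[(2,0),(1,21),(8,3),(4,2),(1,0),(3,3)]⟩,⟨0,[(1,0),(6,
  0),(2,0),(4,0)]⟩⟩,.e ⟨false,1,⟨2,[(11,0),(12,0),(23,1)]⟩,⟨0,[]⟩⟩ ⟨false,2,⟨0,[(0,0)]⟩,⟨0,[(23,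
  0)]⟩⟩]⟩) (.R ⟨2,true,false,false,[0,1],[1,0,0,0,-1],[1,0,1,1],(⟨0,[]⟩,⟨0,[]⟩),(⟨0,[(31,0)]⟩,⟨0,
  [(32,0)]⟩),⟨0,[]⟩,.k,.k,.k,(.r 0 ⟨10,[(11,1),(1,2),(6,1),(3,4),(18,1)]⟩ ⟨2,[(11,0),(0,0),(33,0),
  (1,1)]⟩),.k,.k,⟨false,0,⟨0,[(45,0)]⟩,⟨2,[(11,0),(0,0),(33,0),(1,1)]⟩⟩,⟨true,1,⟨1,[(4,0),(1,0),(1,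
  0),(20,0),(4,0)]⟩,⟨0,[(0,0),(47,0)]⟩⟩,⟨true,0,⟨0,[]⟩,⟨0,[(50,0)]⟩⟩,⟨false,2,⟨0,[(4,0)]⟩,⟨0,[(22,
  0)]⟩⟩,⟨false,1,⟨4,[(10,1),(7,0),(11,1),(16,0),(0,1)]⟩,⟨0,[(46,0)]⟩⟩,⟨true,2,⟨8,[(4,4),(5,4),(0,0),
  (12,0),(5,0),(9,1)]⟩,⟨0,[(0,0)]⟩⟩,[]⟩))) (.Q [0,0,0,0,0,1,0,0,0,0,0,-1] (.ed true [1,-1,0,0,1]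
  .k) (.R ⟨0,false,false,true,[0,0,0,0,1],[0,1],[1,1,1,1],(⟨0,[(31,0)]⟩,⟨0,[(30,0)]⟩),(⟨0,[(41,0)]⟩,
  ⟨0,[(40,0)]⟩),⟨0,[(0,0)]⟩,.k,.k,(.r 0 ⟨0,[(7,0),(2,0),(34,0)]⟩ ⟨8,[(10,1),(1,2),(10,4),(23,6)]⟩),
  (.r 0 ⟨0,[(7,0),(2,0),(34,0)]⟩ ⟨8,[(10,1),(1,2),(10,4),(23,6)]⟩),.k,.k,⟨true,0,⟨0,[]⟩,⟨2,[(5,0),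
  (19,0),(10,0)]⟩⟩,⟨false,1,⟨0,[(1,0),(13,0)]⟩,⟨2,[(5,0),(19,0),(3,2),(6,0)]⟩⟩,⟨true,0,⟨17,[(5,0),
  (6,2),(4,2),(5,2),(1,0),(10,0)]⟩,⟨0,[(7,0),(2,0),(34,0)]⟩⟩,⟨false,1,⟨0,[(1,0),(13,0),(3,0),(27,
  0)]⟩,⟨0,[(29,0),(15,0)]⟩⟩,⟨false,0,⟨0,[]⟩,⟨0,[]⟩⟩,⟨false,0,⟨0,[]⟩,⟨0,[]⟩⟩,[.o ⟨false,0,⟨0,[(44,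
  0)]⟩,⟨1,[(39,0),(5,1),(1,0)]⟩⟩,.a ⟨true,0,⟨17,[(12,2),(2,16),(1,2),(5,2),(1,0),(10,1)]⟩,⟨0,[(45,
  0)]⟩⟩ ⟨true,0,⟨17,[(5,0),(6,2),(4,2),(5,2),(1,0),(10,0)]⟩,⟨0,[(45,0)]⟩⟩ ⟨false,1,⟨6,[(1,3),(7,2),
  (5,3),(1,0),(25,0)]⟩,⟨0,[(29,0),(15,0)]⟩⟩,.o ⟨false,0,⟨0,[(29,0)]⟩,⟨11,[(1,6),(1,1),(1,0),(2,0),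
  (10,1),(8,2),(4,0),(5,0)]⟩⟩,.o ⟨false,0,⟨2,[(5,0),(19,0),(3,2),(6,0)]⟩,⟨0,[(1,0)]⟩⟩]⟩) (.S ⟨1,0,
  [0,2,0,-1],[0,0,0,0,1],[1,1],(⟨0,[(31,0)]⟩,⟨0,[(30,0)]⟩),⟨0,[(0,0)]⟩,.k,(.r 0 ⟨0,[(7,0),(2,0),(34,
  0)]⟩ ⟨8,[(10,1),(1,2),(10,4),(23,6)]⟩),⟨true,0,⟨0,[]⟩,⟨0,[(49,0)]⟩⟩,⟨false,0,⟨0,[(45,0)]⟩,⟨4,[(9,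
  1),(7,0),(11,1),(16,0),(0,1)]⟩⟩,⟨false,1,⟨4,[(9,1),(7,0),(11,1),(16,0),(0,1)]⟩,⟨0,[(45,0)]⟩⟩,
  ⟨true,0,⟨0,[(49,0)]⟩,⟨0,[]⟩⟩,[.o ⟨false,(-1),⟨0,[(16,0),(28,1)]⟩,⟨3,[(1,1),(1,1),(13,1),(28,0),(0,
  0)]⟩⟩,.a ⟨true,(-1),⟨0,[(22,0),(22,0)]⟩,⟨0,[(1,0),(13,0),(3,0),(27,0)]⟩⟩ ⟨true,0,⟨0,[]⟩,⟨2,[(5,0),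
  (19,0),(10,0)]⟩⟩ ⟨false,0,⟨0,[(7,0),(2,0),(34,0)]⟩,⟨4,[(9,1),(7,0),(11,1),(16,0),(0,1)]⟩⟩,.o
  ⟨false,0,⟨0,[(29,0)]⟩,⟨11,[(1,6),(1,1),(1,0),(2,0),(10,1),(8,2),(4,0),(5,0)]⟩⟩,.o ⟨false,0,⟨2,[(5,
  0),(19,0),(3,2),(6,0)]⟩,⟨0,[(1,0)]⟩⟩]⟩)))) (.Q [0,0,0,0,0,-1,0,0,0,0,0,1] (.ed false [1,-1,0,0,1]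
  .k) (.S ⟨1,0,[0,1,0,-1],[0,0,0,0,1],[1,2],(⟨0,[(29,0)]⟩,⟨0,[(28,0)]⟩),⟨0,[(0,0)]⟩,.k,(.r 0 ⟨0,[(5,
  0),(2,0),(34,0)]⟩ ⟨8,[(8,1),(1,2),(10,4),(23,6)]⟩),⟨false,0,⟨0,[]⟩,⟨2,[(8,0),(12,0),(23,1)]⟩⟩,
  ⟨true,0,⟨0,[(43,0)]⟩,⟨0,[(42,0)]⟩⟩,⟨true,0,⟨0,[(42,0)]⟩,⟨0,[(43,0)]⟩⟩,⟨false,1,⟨2,[(8,0),(12,0),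
  (23,1)]⟩,⟨0,[]⟩⟩,[.o ⟨false,(-1),⟨3,[(1,2),(1,1),(0,0),(11,2),(10,0),(15,3),(1,0)]⟩,⟨1,[(7,1),(29,
  0),(7,0)]⟩⟩,.a ⟨true,(-1),⟨0,[(1,0),(41,1),(1,0)]⟩,⟨0,[(7,0)]⟩⟩ ⟨false,0,⟨0,[(5,0),(2,0)]⟩,⟨2,[(8,
  0),(12,0),(23,1)]⟩⟩ ⟨true,0,⟨0,[(43,0)]⟩,⟨17,[(3,0),(6,2),(4,2),(5,2),(1,0),(10,0)]⟩⟩,.e ⟨false,0,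
  ⟨0,[(47,0)]⟩,⟨0,[(45,0)]⟩⟩ ⟨false,0,⟨0,[(43,0)]⟩,⟨4,[(7,1),(7,0),(11,1),(16,0),(0,1)]⟩⟩,.o ⟨false,
  (-1),⟨0,[(1,0),(1,0),(12,0),(28,0)]⟩,⟨1,[(26,1),(10,0),(6,0)]⟩⟩]⟩) (.R ⟨0,false,false,true,[0,0,0,
  0,1],[0,1],[],(⟨0,[(29,0)]⟩,⟨0,[(28,0)]⟩),(⟨0,[(39,0)]⟩,⟨0,[(38,0)]⟩),⟨0,[(0,0)]⟩,.k,.k,(.r 0 ⟨0,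
  [(5,0),(2,0),(34,0)]⟩ ⟨8,[(8,1),(1,2),(10,4),(23,6)]⟩),(.r 0 ⟨0,[(5,0),(2,0),(34,0)]⟩ ⟨8,[(8,1),
  (1,2),(10,4),(23,6)]⟩),.k,.k,⟨true,1,⟨2,[(8,0),(0,0),(33,0),(1,1)]⟩,⟨0,[(17,0)]⟩⟩,⟨false,2,⟨0,
  [(26,0),(17,0)]⟩,⟨0,[(1,0),(1,0),(12,0),(28,0)]⟩⟩,⟨false,1,⟨0,[(45,0)]⟩,⟨0,[(47,0)]⟩⟩,⟨true,1,⟨0,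
  [(7,0)]⟩,⟨3,[(1,2),(1,1),(0,0),(11,2),(10,0),(15,3),(1,0)]⟩⟩,⟨false,0,⟨0,[]⟩,⟨0,[]⟩⟩,⟨false,0,⟨0,
  []⟩,⟨0,[]⟩⟩,[.o ⟨false,0,⟨0,[(42,0)]⟩,⟨1,[(37,0),(5,1),(1,0)]⟩⟩,.a ⟨true,0,⟨17,[(10,2),(2,16),(1,
  2),(5,2),(1,0),(10,1)]⟩,⟨0,[(43,0)]⟩⟩ ⟨false,1,⟨1,[(44,0),(0,0)]⟩,⟨0,[(47,0)]⟩⟩ ⟨true,1,⟨0,[(7,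
  0)]⟩,⟨0,[(1,0),(1,0),(12,0),(26,0),(1,0)]⟩⟩,.e ⟨false,1,⟨2,[(8,0),(12,0),(23,1)]⟩,⟨0,[]⟩⟩ ⟨false,
  1,⟨0,[(7,0)]⟩,⟨3,[(1,2),(1,1),(0,0),(11,2),(10,0),(15,3),(1,4)]⟩⟩,.o ⟨false,(-1),⟨0,[(1,0),(1,0),
  (12,0),(28,0)]⟩,⟨1,[(26,1),(10,0),(6,0)]⟩⟩]⟩)))) (.S ⟨1,0,[0,0,-1,-2,0,0,0,-1],[1,-1,-1],[0,1,-1,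
  -2,0,0,0,-1],(⟨0,[(21,0)]⟩,⟨0,[(33,0),(2,0)]⟩),⟨0,[(8,0)]⟩,.k,(.r (-1) ⟨3,[(5,1),(0,1),(2,3),(31,
  0),(0,0)]⟩ ⟨0,[(7,0)]⟩),⟨false,0,⟨0,[(40,0)]⟩,⟨4,[(4,1),(7,0),(11,1),(16,0),(0,1)]⟩⟩,⟨true,0,⟨0,
  [(40,0)]⟩,⟨0,[(39,0)]⟩⟩,⟨true,0,⟨0,[(44,0)]⟩,⟨0,[]⟩⟩,⟨false,1,⟨2,[(5,0),(12,0),(23,1)]⟩,⟨0,[]⟩⟩,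
  [.a ⟨true,0,⟨1,[(2,0),(3,0),(24,1),(8,3),(1,0)]⟩,⟨0,[(0,0),(6,0)]⟩⟩ ⟨false,0,⟨0,[(6,0),(33,0)]⟩,
  ⟨0,[(5,0),(6,0)]⟩⟩ ⟨true,0,⟨1,[(2,0),(3,0),(33,3),(1,0)]⟩,⟨0,[(7,0)]⟩⟩,.o ⟨false,1,⟨3,[(1,1),(0,
  1),(6,1),(21,1),(2,0),(5,7),(1,2)]⟩,⟨2,[(0,0),(0,0),(0,0),(4,1),(5,0),(5,1)]⟩⟩,.a ⟨true,0,⟨0,[(31,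
  0)]⟩,⟨0,[(27,0)]⟩⟩ ⟨false,0,⟨1,[(2,0),(3,0),(33,3),(1,0)]⟩,⟨0,[(5,0),(6,0)]⟩⟩ ⟨true,0,⟨1,[(2,0),
  (3,0),(33,3),(1,0)]⟩,⟨2,[(5,0),(1,1),(6,0),(23,1)]⟩⟩,.a ⟨true,0,⟨1,[(30,0),(0,2)]⟩,⟨0,[(0,0)]⟩⟩
  ⟨true,0,⟨0,[(6,0),(33,0)]⟩,⟨0,[(7,0)]⟩⟩ ⟨false,1,⟨0,[(6,0),(33,0),(1,0)]⟩,⟨0,[(7,0)]⟩⟩]⟩))))

theorem ok80 : chk K t80 l51 = true := by decide +kernel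

noncomputable def t81 : Tre :=
  (.Q [0,-1,0,0,1,0,-1,-1,0,-1,1] (.p true [0,0,1] [1] (⟨0,[(30,0)]⟩,⟨0,[(29,0)]⟩) .k 1 (⟨0,[]⟩,⟨0,
  []⟩) .k .k) (.S ⟨1,0,[0,1,1,0,0,0,0,1],[0,1,1],[1,0,1,1,0,0,0,1],(⟨0,[(31,0),(2,0)]⟩,⟨0,[(19,
  0)]⟩),⟨0,[(31,0)]⟩,.k,.k,⟨true,0,⟨0,[]⟩,⟨0,[(42,0)]⟩⟩,⟨false,0,⟨0,[(38,0)]⟩,⟨4,[(2,1),(7,0),(11,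
  1),(16,0),(0,1)]⟩⟩,⟨false,1,⟨4,[(2,1),(7,0),(11,1),(16,0),(0,1)]⟩,⟨0,[(38,0)]⟩⟩,⟨true,0,⟨0,[(42,
  0)]⟩,⟨0,[]⟩⟩,[.o ⟨false,0,⟨0,[(26,0)]⟩,⟨0,[(0,0)]⟩⟩,.o ⟨false,0,⟨0,[(1,0),(9,0),(0,0)]⟩,⟨4,[(0,2),
  (2,0),(12,0),(10,1),(4,0)]⟩⟩,.a ⟨true,0,⟨0,[(25,0)]⟩,⟨0,[(29,0)]⟩⟩ ⟨true,0,⟨0,[(1,0),(10,0)]⟩,⟨2,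
  [(4,0),(2,1),(27,0)]⟩⟩ ⟨false,0,⟨0,[(1,0),(10,0),(25,0)]⟩,⟨0,[(0,0),(24,0)]⟩⟩,.o ⟨false,0,⟨0,[(13,
  0)]⟩,⟨1,[(1,0),(25,0),(1,0),(2,0)]⟩⟩]⟩) (.I [1,1,-1,0,0,0,0,1] (.Q [0,0,1,0,-1,0,1,0,0,1,-1] (.p
  false [0,0,1] [1] (⟨0,[(32,0)]⟩,⟨0,[(31,0)]⟩) .k 1 (⟨0,[]⟩,⟨0,[]⟩) .k .k) (.S ⟨1,0,[0,0,0,-1,0,0,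
  0,1],[0,0,1],[1,1,0,0,0,0,0,1],(⟨0,[(33,0)]⟩,⟨0,[(32,0)]⟩),⟨0,[(22,0)]⟩,.k,.k,⟨false,0,⟨0,[]⟩,⟨2,
  [(5,0),(12,0),(23,1)]⟩⟩,⟨true,0,⟨0,[(40,0)]⟩,⟨0,[(39,0)]⟩⟩,⟨true,0,⟨0,[(39,0)]⟩,⟨0,[(40,0)]⟩⟩,
  ⟨false,1,⟨2,[(5,0),(12,0),(23,1)]⟩,⟨0,[]⟩⟩,[.o ⟨false,0,⟨1,[(2,1),(31,0),(5,1),(1,0)]⟩,⟨3,[(3,0),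
  (2,1),(5,1),(16,2),(1,0),(2,1),(7,0)]⟩⟩,.e ⟨false,1,⟨4,[(3,1),(1,1),(1,0),(29,0),(3,0)]⟩,⟨2,[(6,
  0),(2,1),(2,0)]⟩⟩ ⟨false,1,⟨0,[(3,0),(36,0)]⟩,⟨4,[(6,1),(5,0),(5,2),(19,0)]⟩⟩,.o ⟨false,0,⟨0,[(15,
  0)]⟩,⟨1,[(3,0),(25,0),(1,0),(2,0)]⟩⟩,.a ⟨true,(-1),⟨0,[(0,0)]⟩,⟨0,[(3,0),(25,0)]⟩⟩ ⟨true,0,⟨0,[(1,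
  0)]⟩,⟨4,[(9,3),(2,0),(5,0),(11,0),(0,0)]⟩⟩ ⟨false,1,⟨0,[(3,0),(36,0)]⟩,⟨8,[(6,0),(2,4),(2,3),(5,
  2)]⟩⟩]⟩) (.Q [0,-1,0,-1,1,0,-1,-1,0,-1,1] (.p true [0,0,1] [1] (⟨0,[(33,0)]⟩,⟨0,[(32,0)]⟩) .k 1
  (⟨0,[]⟩,⟨0,[]⟩) .k .k) (.R ⟨2,true,false,false,[0,1],[1,0,-1],[1,0,1,1],(⟨0,[]⟩,⟨0,[]⟩),(⟨0,[(33,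
  0)]⟩,⟨0,[(34,0)]⟩),⟨0,[]⟩,.k,.k,.k,.k,.k,.k,⟨true,0,⟨0,[(4,0),(10,0)]⟩,⟨0,[(10,0)]⟩⟩,⟨false,1,⟨4,
  [(0,0),(0,1),(4,0),(1,0),(21,0),(1,0),(2,0)]⟩,⟨0,[(28,0)]⟩⟩,⟨true,0,⟨0,[]⟩,⟨0,[(45,0)]⟩⟩,⟨false,1,
  ⟨0,[(0,0)]⟩,⟨3,[(3,0),(0,0),(3,1),(19,2)]⟩⟩,⟨false,1,⟨4,[(5,1),(7,0),(11,1),(16,0),(0,1)]⟩,⟨0,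
  [(41,0)]⟩⟩,⟨true,1,⟨1,[(0,0),(0,0),(17,0)]⟩,⟨0,[(3,0)]⟩⟩,[]⟩) (.Q [0,-1,0,-2,1,0,-1,-1,0,-1,1]
  (.p true [0,0,1] [1] (⟨0,[(34,0)]⟩,⟨0,[(33,0)]⟩) .k 1 (⟨0,[]⟩,⟨0,[]⟩) .k .k) (.R ⟨1,false,false,
  true,[1,-1],[0,0,1],[1,1,0,0,0,0,0,1],(⟨0,[(37,0)]⟩,⟨0,[(38,0)]⟩),(⟨0,[(35,0)]⟩,⟨0,[(34,0)]⟩),⟨1,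
  [(10,0),(13,0),(12,0)]⟩,.k,.k,(.r (-1) ⟨2,[(0,0),(6,1),(0,0),(3,0),(2,0)]⟩ ⟨5,[(9,1),(4,1),(5,1),
  (11,0),(0,0)]⟩),.k,(.r (-1) ⟨7,[(0,4),(6,1),(0,3),(13,0),(6,3),(1,0),(11,0)]⟩ ⟨0,[(9,0)]⟩),.k,
  ⟨true,0,⟨0,[]⟩,⟨1,[(32,0),(0,0)]⟩⟩,⟨false,0,⟨0,[(1,0),(6,0),(35,0)]⟩,⟨6,[(0,2),(6,1),(1,3),(21,2),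
  (1,0),(2,1)]⟩⟩,⟨false,0,⟨0,[(5,0),(10,0)]⟩,⟨1,[(11,1),(31,0),(0,0)]⟩⟩,⟨true,(-1),⟨0,[(1,0)]⟩,⟨6,
  [(0,3),(1,0),(4,0),(12,1),(10,1),(4,0)]⟩⟩,⟨false,0,⟨1,[(3,0),(1,0),(8,0),(1,0)]⟩,⟨0,[(0,0),(28,
  0)]⟩⟩,⟨false,0,⟨18,[(1,6),(3,6),(0,2),(2,1),(4,5),(3,2),(2,2),(7,8)]⟩,⟨0,[(0,0)]⟩⟩,[.e ⟨false,0,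
  ⟨0,[(3,0)]⟩,⟨3,[(11,1),(8,1),(22,0),(0,2)]⟩⟩ ⟨false,0,⟨0,[(4,0),(38,0)]⟩,⟨20,[(0,16),(1,3),(6,0),
  (4,8),(5,4)]⟩⟩,.o ⟨false,0,⟨1,[(4,1),(31,0),(7,0)]⟩,⟨4,[(0,1),(1,0),(11,0),(5,0),(10,1),(4,0),(6,
  0)]⟩⟩,.a ⟨true,0,⟨1,[(32,0),(0,0)]⟩,⟨0,[(12,0)]⟩⟩ ⟨true,0,⟨1,[(3,0),(3,0),(8,0)]⟩,⟨2,[(8,0),(2,1),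
  (2,0)]⟩⟩ ⟨false,0,⟨1,[(4,0),(0,0),(23,0)]⟩,⟨20,[(0,16),(1,3),(6,0),(4,8),(5,4)]⟩⟩,.o ⟨false,0,⟨1,
  [(0,0),(3,0),(11,1),(19,0),(7,0)]⟩,⟨0,[(43,0)]⟩⟩]⟩) (.Q [0,0,0,0,0,2,0,0,0,0,-1] (.p false [0,0,
  1] [] (⟨0,[(35,0)]⟩,⟨0,[(34,0)]⟩) .k 0 (⟨0,[]⟩,⟨0,[]⟩) .k .k) (.R ⟨0,false,false,false,[0,-1,1],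
  [1,-1,-1],[0,1],(⟨0,[(25,0)]⟩,⟨5,[(0,2),(12,1),(9,0),(10,1),(0,2)]⟩),(⟨0,[(24,0)]⟩,⟨1,[(0,0),(35,
  2)]⟩),⟨0,[(0,0)]⟩,.k,.k,(.r (-1) ⟨2,[(4,0),(1,1),(1,0),(0,0),(33,3)]⟩ ⟨9,[(12,3),(2,5),(5,5),(11,
  0),(0,0)]⟩),.k,.k,.k,⟨false,0,⟨9,[(1,0),(1,0),(0,4),(5,3),(29,1)]⟩,⟨1,[(12,1),(31,0),(0,0)]⟩⟩,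
  ⟨true,1,⟨0,[(3,0),(30,0)]⟩,⟨1,[(5,1),(6,1),(2,0),(0,1),(0,0),(27,0)]⟩⟩,⟨false,0,⟨8,[(9,0),(2,4),
  (2,3),(5,2)]⟩,⟨0,[(6,0),(36,0)]⟩⟩,⟨true,1,⟨2,[(3,2),(5,1),(2,3),(2,1),(18,2)]⟩,⟨1,[(5,3),(31,0),
  (7,0)]⟩⟩,⟨false,0,⟨0,[]⟩,⟨0,[]⟩⟩,⟨false,0,⟨0,[]⟩,⟨0,[]⟩⟩,[.o ⟨false,1,⟨4,[(3,0),(4,0),(3,3),(19,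
  1),(1,1),(2,1),(7,0)]⟩,⟨1,[(2,1),(34,0),(7,0)]⟩⟩,.e ⟨false,1,⟨5,[(8,1),(12,1),(22,2),(0,0)]⟩,⟨0,
  []⟩⟩ ⟨false,2,⟨0,[(3,0),(5,0),(24,0),(10,0)]⟩,⟨0,[(2,0),(30,0)]⟩⟩,.o ⟨false,0,⟨0,[(33,0)]⟩,⟨0,[(3,
  0)]⟩⟩,.a ⟨true,(-1),⟨0,[(5,0),(6,0),(4,0),(27,0)]⟩,⟨0,[(3,0),(9,0)]⟩⟩ ⟨true,0,⟨4,[(4,0),(4,0),(30,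
  0),(0,0)]⟩,⟨1,[(33,0),(0,0)]⟩⟩ ⟨false,2,⟨0,[(3,0),(5,0),(24,0),(10,0)]⟩,⟨3,[(5,3),(9,0),(0,1),(0,
  2),(15,1),(11,2)]⟩⟩]⟩) (.I [0,0,2,0,0,-2,0,0,-1] (.Q [0,0,0,0,0,-1,0,0,0,0,0,1] (.ed false [1,-1,
  0,0,1] .k) (.Q [0,0,-1,0,1,0,0,0,-1,-1,0,1] (.p true [0,0,0,0,1] [1] (⟨0,[(31,0)]⟩,⟨0,[(30,0)]⟩)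
  .k 1 (⟨0,[]⟩,⟨0,[]⟩) .k .k) (.S ⟨1,0,[0,2,0,-1],[0,0,0,0,1],[1,1],(⟨0,[(32,0)]⟩,⟨0,[(31,0)]⟩),⟨0,
  [(1,0)]⟩,.k,(.r 0 ⟨3,[(7,0),(4,0),(30,0),(2,2)]⟩ ⟨8,[(11,1),(1,2),(10,4),(23,6)]⟩),⟨true,0,⟨0,[]⟩,
  ⟨0,[(50,0)]⟩⟩,⟨false,0,⟨0,[(46,0)]⟩,⟨4,[(10,1),(7,0),(11,1),(16,0),(0,1)]⟩⟩,⟨false,1,⟨4,[(10,1),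
  (7,0),(11,1),(16,0),(0,1)]⟩,⟨0,[(46,0)]⟩⟩,⟨true,0,⟨0,[(50,0)]⟩,⟨0,[]⟩⟩,[.o ⟨false,(-1),⟨0,[(17,0),
  (28,1)]⟩,⟨5,[(0,3),(17,1),(10,1),(10,0),(7,4)]⟩⟩,.a ⟨true,(-1),⟨0,[(23,0),(22,0)]⟩,⟨2,[(0,1),(1,
  0),(13,1),(1,0),(13,0),(9,1),(5,0)]⟩⟩ ⟨true,0,⟨0,[]⟩,⟨1,[(36,0),(0,0)]⟩⟩ ⟨false,0,⟨3,[(7,0),(4,0),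
  (30,0),(2,2)]⟩,⟨4,[(10,1),(7,0),(11,1),(16,0),(0,1)]⟩⟩,.o ⟨false,0,⟨0,[(30,0)]⟩,⟨5,[(0,3),(19,1),
  (8,1),(10,0),(5,1),(1,0)]⟩⟩,.o ⟨false,0,⟨1,[(30,1),(5,0),(0,0)]⟩,⟨0,[(0,0)]⟩⟩]⟩) (.Q [0,0,0,0,1,0,
  0,0,-1,-1,0,1] (.p true [0,0,0,0,1] [1] (⟨0,[(32,0)]⟩,⟨0,[(31,0)]⟩) .k 1 (⟨0,[]⟩,⟨0,[]⟩) .k .k)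
  (.Q [0,0,0,1,1,0,0,0,-1,-1,0,1] (.p true [0,0,0,0,1] [1] (⟨0,[(33,0)]⟩,⟨0,[(32,0)]⟩) .k 1 (⟨0,[]⟩,
  ⟨0,[]⟩) .k .k) (.S ⟨1,0,[0,1,0,-1],[0,0,0,0,1],[1,2],(⟨0,[(34,0)]⟩,⟨0,[(33,0)]⟩),⟨0,[(3,0)]⟩,.k,
  (.r 0 ⟨3,[(9,0),(4,0),(30,0),(2,2)]⟩ ⟨8,[(13,1),(1,2),(10,4),(23,6)]⟩),⟨false,0,⟨0,[]⟩,⟨2,[(13,0),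
  (12,0),(23,1)]⟩⟩,⟨true,0,⟨0,[(48,0)]⟩,⟨0,[(47,0)]⟩⟩,⟨true,0,⟨0,[(47,0)]⟩,⟨0,[(48,0)]⟩⟩,⟨false,1,
  ⟨2,[(13,0),(12,0),(23,1)]⟩,⟨0,[]⟩⟩,[.e ⟨false,0,⟨0,[(45,0)]⟩,⟨0,[(50,0)]⟩⟩ ⟨false,0,⟨3,[(9,0),(4,
  0),(30,0),(2,2)]⟩,⟨4,[(12,1),(7,0),(11,1),(16,0),(0,1)]⟩⟩,.o ⟨false,0,⟨0,[(32,0),(15,0)]⟩,⟨0,[(0,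
  0)]⟩⟩,.o ⟨false,0,⟨0,[(32,0)]⟩,⟨0,[(1,0)]⟩⟩,.a ⟨true,(-1),⟨0,[(2,0)]⟩,⟨0,[(1,0),(16,0)]⟩⟩ ⟨false,
  0,⟨4,[(9,0),(4,0),(30,0),(0,0)]⟩,⟨1,[(38,0),(0,0),(10,1)]⟩⟩ ⟨true,0,⟨3,[(9,0),(4,0),(30,0),(2,
  2)]⟩,⟨11,[(15,1),(4,1),(5,1),(11,0),(0,0)]⟩⟩]⟩) (.S ⟨1,2,[],[0,0,0,0,1],[1,2],(⟨0,[(34,0)]⟩,⟨0,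
  [(33,0)]⟩),⟨0,[(3,0)]⟩,.k,(.r 0 ⟨3,[(9,0),(4,0),(30,0),(2,2)]⟩ ⟨8,[(13,1),(1,2),(10,4),(23,6)]⟩),
  ⟨false,0,⟨0,[]⟩,⟨2,[(13,0),(12,0),(23,1)]⟩⟩,⟨true,1,⟨0,[(1,0)]⟩,⟨0,[(25,0)]⟩⟩,⟨true,0,⟨0,[(47,
  0)]⟩,⟨0,[(48,0)]⟩⟩,⟨false,2,⟨1,[(12,1),(29,0),(7,0)]⟩,⟨0,[(0,0)]⟩⟩,[.o ⟨false,0,⟨0,[(8,0),(12,0),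
  (0,0)]⟩,⟨2,[(13,0),(12,0),(23,1)]⟩⟩,.fo,.o ⟨false,0,⟨0,[(32,0)]⟩,⟨0,[(1,0)]⟩⟩,.a ⟨true,(-1),⟨0,
  [(2,0)]⟩,⟨0,[(1,0),(16,0)]⟩⟩ ⟨false,0,⟨4,[(9,0),(4,0),(30,0),(0,0)]⟩,⟨1,[(38,0),(0,0),(10,1)]⟩⟩
  ⟨true,1,⟨4,[(1,4),(7,0),(4,0),(30,0),(0,0)]⟩,⟨0,[(2,0)]⟩⟩]⟩)) (.R ⟨2,true,false,true,[0,1],[1,0,0,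
  0,-1],[1,1,1,1],(⟨0,[]⟩,⟨0,[]⟩),(⟨0,[(32,0)]⟩,⟨0,[(33,0)]⟩),⟨0,[]⟩,.k,.k,.k,(.r 0 ⟨10,[(12,1),(1,
  2),(6,1),(3,4),(18,1)]⟩ ⟨2,[(12,0),(0,0),(33,0),(1,1)]⟩),.k,.k,⟨false,0,⟨0,[(46,0)]⟩,⟨2,[(12,0),
  (0,0),(33,0),(1,1)]⟩⟩,⟨true,1,⟨1,[(3,0),(26,0),(2,0),(7,0),(1,1)]⟩,⟨0,[(0,0)]⟩⟩,⟨false,0,⟨0,[]⟩,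
  ⟨2,[(12,0),(12,0),(23,1)]⟩⟩,⟨true,1,⟨0,[(3,0),(3,0),(12,0),(12,0),(9,1)]⟩,⟨0,[(23,0)]⟩⟩,⟨true,0,
  ⟨0,[(46,0)]⟩,⟨0,[(47,0)]⟩⟩,⟨false,2,⟨1,[(30,1),(10,0),(7,0)]⟩,⟨0,[(0,0)]⟩⟩,[]⟩))) (.Q [0,0,-1,0,1,
  0,0,0,-1,-1,0,1] (.p true [0,0,0,0,1] [1] (⟨0,[(31,0)]⟩,⟨0,[(30,0)]⟩) .k 1 (⟨0,[]⟩,⟨0,[]⟩) .k .k)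
  (.R ⟨0,false,false,true,[0,0,0,0,1],[0,1],[1,1,1,1],(⟨0,[(32,0)]⟩,⟨0,[(31,0)]⟩),(⟨0,[(42,0)]⟩,⟨0,
  [(41,0)]⟩),⟨0,[(1,0)]⟩,.k,.k,(.r 0 ⟨3,[(7,0),(4,0),(30,0),(2,2)]⟩ ⟨8,[(11,1),(1,2),(10,4),(23,
  6)]⟩),(.r 0 ⟨3,[(7,0),(4,0),(30,0),(2,2)]⟩ ⟨8,[(11,1),(1,2),(10,4),(23,6)]⟩),.k,.k,⟨true,0,⟨0,[]⟩,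
  ⟨1,[(36,0),(0,0)]⟩⟩,⟨false,1,⟨0,[(0,0),(15,0)]⟩,⟨1,[(30,1),(5,0),(0,0)]⟩⟩,⟨true,0,⟨11,[(13,1),(4,
  1),(5,1),(11,0),(0,0)]⟩,⟨3,[(7,0),(4,0),(30,0),(2,2)]⟩⟩,⟨false,1,⟨2,[(0,1),(1,0),(13,1),(1,0),(13,
  0),(9,1),(5,0)]⟩,⟨0,[(30,0),(15,0)]⟩⟩,⟨false,0,⟨0,[]⟩,⟨0,[]⟩⟩,⟨false,0,⟨0,[]⟩,⟨0,[]⟩⟩,[.o ⟨false,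
  0,⟨0,[(45,0)]⟩,⟨1,[(40,0),(5,1),(1,0)]⟩⟩,.a ⟨true,0,⟨17,[(13,2),(2,16),(1,2),(5,2),(1,0),(10,1)]⟩,
  ⟨0,[(46,0)]⟩⟩ ⟨true,0,⟨11,[(13,1),(4,1),(5,1),(11,0),(0,0)]⟩,⟨0,[(46,0)]⟩⟩ ⟨false,1,⟨6,[(0,3),(9,
  2),(5,3),(1,0),(25,0)]⟩,⟨0,[(30,0),(15,0)]⟩⟩,.o ⟨false,0,⟨0,[(30,0)]⟩,⟨5,[(0,3),(19,1),(8,1),(10,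
  0),(5,1),(1,0)]⟩⟩,.o ⟨false,0,⟨1,[(30,1),(5,0),(0,0)]⟩,⟨0,[(0,0)]⟩⟩]⟩) (.Q [0,0,1,1,-1,0,0,0,1,1,
  0,-1] (.p false [0,0,0,0,1] [1] (⟨0,[(32,0)]⟩,⟨0,[(31,0)]⟩) .k 1 (⟨0,[]⟩,⟨0,[]⟩) .k .k) (.Q [0,0,
  0,0,1,0,0,0,-1,-1,0,1] (.p true [0,0,0,0,1] [1] (⟨0,[(33,0)]⟩,⟨0,[(32,0)]⟩) .k 1 (⟨0,[]⟩,⟨0,[]⟩)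
  .k .k) (.R ⟨0,false,false,true,[0,0,0,0,1],[1,-1],[1,0,1],(⟨0,[(34,0)]⟩,⟨0,[(33,0)]⟩),(⟨0,[(43,
  0)]⟩,⟨0,[(44,0)]⟩),⟨0,[(3,0)]⟩,.k,.k,(.r 0 ⟨3,[(9,0),(4,0),(30,0),(2,2)]⟩ ⟨8,[(13,1),(1,2),(10,4),
  (23,6)]⟩),(.r 0 ⟨10,[(13,1),(1,2),(6,1),(3,4),(18,1)]⟩ ⟨2,[(13,0),(0,0),(33,0),(1,1)]⟩),.k,.k,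
  ⟨true,0,⟨0,[(22,0),(27,0)]⟩,⟨3,[(9,0),(4,0),(30,0),(2,2)]⟩⟩,⟨false,1,⟨0,[(0,0)]⟩,⟨0,[(18,0),(13,
  0)]⟩⟩,⟨false,1,⟨1,[(38,0),(0,0),(10,1)]⟩,⟨4,[(9,0),(4,0),(30,0),(0,0)]⟩⟩,⟨true,1,⟨0,[(0,0),(47,
  0)]⟩,⟨0,[(24,0)]⟩⟩,⟨false,0,⟨0,[]⟩,⟨0,[]⟩⟩,⟨false,0,⟨0,[]⟩,⟨0,[]⟩⟩,[.o ⟨false,0,⟨0,[(8,0),(12,0),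
  (0,0),(25,0)]⟩,⟨4,[(12,1),(7,0),(11,1),(16,0),(0,1)]⟩⟩,.a ⟨true,0,⟨0,[(48,0)]⟩,⟨1,[(1,0),(10,0),
  (5,0)]⟩⟩ ⟨false,1,⟨2,[(13,0),(12,0),(23,1)]⟩,⟨4,[(9,0),(4,0),(30,0),(0,0)]⟩⟩ ⟨true,1,⟨0,[(0,0),
  (47,0)]⟩,⟨0,[(1,0)]⟩⟩,.o ⟨false,0,⟨0,[(32,0)]⟩,⟨0,[(0,0)]⟩⟩,.e ⟨true,0,⟨0,[]⟩,⟨0,[(52,0)]⟩⟩ ⟨true,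
  1,⟨3,[(0,3),(8,0),(4,0),(30,0),(2,2)]⟩,⟨0,[(1,0)]⟩⟩]⟩) (.R ⟨2,true,false,true,[0,1],[1,0,0,0,-1],
  [0,1,1],(⟨0,[]⟩,⟨0,[]⟩),(⟨0,[(33,0)]⟩,⟨0,[(34,0)]⟩),⟨0,[]⟩,.k,.k,.k,(.r 0 ⟨10,[(13,1),(1,2),(6,1),
  (3,4),(18,1)]⟩ ⟨2,[(13,0),(0,0),(33,0),(1,1)]⟩),.k,.k,⟨false,0,⟨0,[(52,0)]⟩,⟨1,[(49,0),(0,0)]⟩⟩,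
  ⟨true,1,⟨1,[(4,0),(26,0),(2,0),(7,0),(1,1)]⟩,⟨0,[(0,0)]⟩⟩,⟨false,0,⟨0,[(48,0)]⟩,⟨4,[(12,1),(7,0),
  (11,1),(16,0),(0,1)]⟩⟩,⟨true,1,⟨0,[(4,0),(3,0),(12,0),(12,0),(9,1)]⟩,⟨0,[(24,0)]⟩⟩,⟨true,0,⟨0,
  [(52,0)]⟩,⟨0,[]⟩⟩,⟨false,2,⟨1,[(31,1),(10,0),(7,0)]⟩,⟨0,[(0,0)]⟩⟩,[]⟩)) (.R ⟨0,false,false,false,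
  [0,0,0,0,1],[1,-1],[1,1,1],(⟨0,[(33,0)]⟩,⟨0,[(32,0)]⟩),(⟨0,[(42,0)]⟩,⟨0,[(43,0)]⟩),⟨0,[(2,0)]⟩,.k,
  .k,(.r 0 ⟨3,[(8,0),(4,0),(30,0),(2,2)]⟩ ⟨8,[(12,1),(1,2),(10,4),(23,6)]⟩),(.r 0 ⟨10,[(12,1),(1,2),
  (6,1),(3,4),(18,1)]⟩ ⟨2,[(12,0),(0,0),(33,0),(1,1)]⟩),.k,.k,⟨true,(-1),⟨0,[(21,0)]⟩,⟨2,[(12,0),(0,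
  0),(33,0),(1,1)]⟩⟩,⟨false,1,⟨5,[(0,3),(18,0),(1,0),(8,1),(10,0)]⟩,⟨0,[(17,0),(13,0)]⟩⟩,⟨true,0,⟨1,
  [(37,0),(0,0)]⟩,⟨4,[(8,0),(4,0),(30,0),(0,0)]⟩⟩,⟨false,2,⟨1,[(0,1),(36,0),(0,0),(10,1)]⟩,⟨0,[(23,
  0)]⟩⟩,⟨false,0,⟨0,[]⟩,⟨0,[]⟩⟩,⟨false,0,⟨0,[]⟩,⟨0,[]⟩⟩,[.e ⟨false,0,⟨0,[(51,0)]⟩,⟨1,[(48,0),(0,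
  0)]⟩⟩ ⟨false,1,⟨0,[(0,0)]⟩,⟨3,[(1,0),(9,1),(5,0),(5,1),(7,2),(17,0)]⟩⟩,.o ⟨false,1,⟨1,[(41,0),(5,
  1),(1,0)]⟩,⟨0,[(46,0)]⟩⟩,.o ⟨false,0,⟨0,[(31,0)]⟩,⟨5,[(0,3),(18,0),(1,0),(8,1),(10,0)]⟩⟩,.a ⟨true,
  (-1),⟨0,[(1,0)]⟩,⟨1,[(0,0),(10,0),(5,0)]⟩⟩ ⟨false,0,⟨0,[]⟩,⟨2,[(12,0),(12,0),(23,1)]⟩⟩ ⟨true,1,⟨0,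
  [(0,0)]⟩,⟨3,[(1,0),(12,0),(8,0),(0,1),(0,0)]⟩⟩]⟩)))) (.Q [0,0,1,-1,-1,0,0,0,1,0,0,-1] (.p false
  [0,0,0,0,1] [] (⟨0,[(30,0)]⟩,⟨0,[(29,0)]⟩) .k 0 (⟨0,[]⟩,⟨0,[]⟩) .k .k) (.Q [0,0,0,0,0,-1,0,0,0,1,
  0,-1] (.ed true [0,1,0,0,1] .k) (.Q [0,0,0,0,0,-1,0,0,0,0,0,1] (.ed false [1,-1,0,0,1] .k) (.Q [0,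
  0,1,0,-1,0,0,0,1,0,0,-1] (.p false [0,0,0,0,1] [] (⟨0,[(33,0)]⟩,⟨0,[(32,0)]⟩) .k 0 (⟨0,[]⟩,⟨0,
  []⟩) .k .k) (.S ⟨1,0,[0,1,0,-1],[0,0,0,0,1],[1,2],(⟨0,[(34,0)]⟩,⟨0,[(33,0)]⟩),⟨0,[(1,0)]⟩,.k,(.r
  0 ⟨3,[(9,0),(4,0),(30,0),(2,2)]⟩ ⟨8,[(13,1),(1,2),(10,4),(23,6)]⟩),⟨false,0,⟨0,[]⟩,⟨2,[(13,0),(12,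
  0),(23,1)]⟩⟩,⟨true,0,⟨0,[(48,0)]⟩,⟨0,[(47,0)]⟩⟩,⟨true,0,⟨0,[(47,0)]⟩,⟨0,[(48,0)]⟩⟩,⟨false,1,⟨2,
  [(13,0),(12,0),(23,1)]⟩,⟨0,[]⟩⟩,[.o ⟨false,(-1),⟨7,[(3,6),(5,1),(4,1),(4,0),(25,0)]⟩,⟨1,[(12,1),
  (29,0),(7,0)]⟩⟩,.a ⟨true,(-1),⟨0,[(3,0),(14,0)]⟩,⟨0,[(12,0)]⟩⟩ ⟨false,0,⟨4,[(9,0),(4,0),(30,0),(0,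
  0)]⟩,⟨2,[(13,0),(12,0),(23,1)]⟩⟩ ⟨true,0,⟨0,[(48,0)]⟩,⟨11,[(15,1),(4,1),(5,1),(11,0),(0,0)]⟩⟩,.e
  ⟨false,0,⟨0,[(52,0)]⟩,⟨0,[(50,0)]⟩⟩ ⟨false,0,⟨0,[(48,0)]⟩,⟨4,[(12,1),(7,0),(11,1),(16,0),(0,1)]⟩⟩,
  .o ⟨false,(-1),⟨0,[(0,0)]⟩,⟨1,[(31,1),(10,0),(6,0)]⟩⟩]⟩) (.R ⟨1,false,false,true,[0,0,0,0,1],[1,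
  -1,-1],[1,1],(⟨0,[(34,0)]⟩,⟨0,[(33,0)]⟩),(⟨0,[(29,0)]⟩,⟨0,[(41,0),(2,0)]⟩),⟨0,[(1,0)]⟩,.k,.k,(.r
  0 ⟨3,[(9,0),(4,0),(30,0),(2,2)]⟩ ⟨8,[(13,1),(1,2),(10,4),(23,6)]⟩),(.r 0 ⟨7,[(9,0),(3,2),(1,3),(6,
  2),(22,1)]⟩ ⟨1,[(17,1),(31,0),(0,0)]⟩),.k,.k,⟨true,0,⟨0,[(11,0),(10,0)]⟩,⟨0,[(17,0)]⟩⟩,⟨false,2,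
  ⟨7,[(8,1),(3,1),(0,1),(17,5),(5,1),(1,3),(2,2),(7,0)]⟩,⟨0,[(3,0),(2,0),(7,0),(35,0)]⟩⟩,⟨true,0,⟨0,
  []⟩,⟨0,[(52,0)]⟩⟩,⟨false,2,⟨1,[(0,1),(16,1),(21,1),(2,0),(7,0)]⟩,⟨61,[(2,15),(0,43),(0,15),(0,3),
  (0,55),(4,5),(4,3),(4,5),(10,1),(9,6),(7,24)]⟩⟩,⟨false,1,⟨4,[(12,1),(7,0),(11,1),(16,0),(0,1)]⟩,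
  ⟨0,[(48,0)]⟩⟩,⟨false,2,⟨2,[(0,2),(7,0),(8,2),(2,0),(18,1),(2,0),(7,0)]⟩,⟨1,[(3,1),(2,0),(4,0),(23,
  0)]⟩⟩,[.a ⟨true,0,⟨0,[(37,0),(10,0)]⟩,⟨0,[(7,0),(42,0)]⟩⟩ ⟨false,0,⟨4,[(9,0),(4,0),(30,0),(0,0)]⟩,
  ⟨2,[(13,0),(12,0),(23,1)]⟩⟩ ⟨true,1,⟨1,[(0,1),(13,0),(2,0),(4,0),(16,1),(2,0),(5,0)]⟩,⟨0,[(3,0),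
  (2,0),(43,0)]⟩⟩,.o ⟨false,1,⟨4,[(8,0),(4,0),(3,3),(19,1),(1,1),(2,1),(7,0)]⟩,⟨1,[(7,1),(34,0),(7,
  0)]⟩⟩,.a ⟨true,(-1),⟨0,[(3,0),(2,0),(7,0),(24,0),(10,0)]⟩,⟨0,[(31,0)]⟩⟩ ⟨false,0,⟨0,[]⟩,⟨2,[(13,
  0),(12,0),(23,1)]⟩⟩ ⟨true,1,⟨1,[(0,1),(13,0),(2,0),(4,0),(16,1),(2,0),(5,0)]⟩,⟨61,[(2,15),(0,43),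
  (0,15),(0,3),(0,55),(4,5),(4,3),(4,5),(10,1),(9,6),(7,24)]⟩⟩,.a ⟨true,(-1),⟨11,[(3,8),(14,6),(1,
  2),(4,2),(2,1),(10,3)]⟩,⟨0,[(0,0)]⟩⟩ ⟨true,0,⟨4,[(9,0),(4,0),(30,0),(0,0)]⟩,⟨1,[(38,0),(0,0)]⟩⟩
  ⟨false,2,⟨0,[(8,0),(8,0),(13,0)]⟩,⟨0,[(3,0),(2,0),(43,0)]⟩⟩]⟩)) (.Q [0,0,1,0,-1,0,0,0,1,0,0,-1]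
  (.p false [0,0,0,0,1] [] (⟨0,[(33,0)]⟩,⟨0,[(32,0)]⟩) .k 0 (⟨0,[]⟩,⟨0,[]⟩) .k .k) (.R ⟨0,false,
  false,true,[0,0,0,0,1],[0,1],[],(⟨0,[(34,0)]⟩,⟨0,[(33,0)]⟩),(⟨0,[(44,0)]⟩,⟨0,[(43,0)]⟩),⟨0,[(1,
  0)]⟩,.k,.k,(.r 0 ⟨3,[(9,0),(4,0),(30,0),(2,2)]⟩ ⟨8,[(13,1),(1,2),(10,4),(23,6)]⟩),(.r 0 ⟨3,[(9,0),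
  (4,0),(30,0),(2,2)]⟩ ⟨8,[(13,1),(1,2),(10,4),(23,6)]⟩),.k,.k,⟨true,1,⟨2,[(13,0),(0,0),(33,0),(1,
  1)]⟩,⟨0,[(22,0)]⟩⟩,⟨false,2,⟨0,[(31,0),(17,0)]⟩,⟨0,[(0,0)]⟩⟩,⟨false,1,⟨0,[(50,0)]⟩,⟨0,[(52,0)]⟩⟩,
  ⟨true,1,⟨0,[(12,0)]⟩,⟨7,[(3,6),(5,1),(4,1),(4,0),(25,0)]⟩⟩,⟨false,0,⟨0,[]⟩,⟨0,[]⟩⟩,⟨false,0,⟨0,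
  []⟩,⟨0,[]⟩⟩,[.o ⟨false,0,⟨0,[(47,0)]⟩,⟨1,[(42,0),(5,1),(1,0)]⟩⟩,.a ⟨true,0,⟨17,[(15,2),(2,16),(1,
  2),(5,2),(1,0),(10,1)]⟩,⟨0,[(48,0)]⟩⟩ ⟨false,1,⟨1,[(49,0),(0,0)]⟩,⟨0,[(52,0)]⟩⟩ ⟨true,1,⟨0,[(12,
  0)]⟩,⟨0,[(3,0)]⟩⟩,.e ⟨false,1,⟨2,[(13,0),(12,0),(23,1)]⟩,⟨0,[]⟩⟩ ⟨false,1,⟨0,[(12,0)]⟩,⟨3,[(3,2),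
  (7,0),(2,0),(17,0),(17,1)]⟩⟩,.o ⟨false,(-1),⟨0,[(0,0)]⟩,⟨1,[(31,1),(10,0),(6,0)]⟩⟩]⟩) (.R ⟨0,
  false,false,false,[0,0,0,0,1],[0,1],[0,1,1],(⟨0,[(34,0)]⟩,⟨0,[(33,0)]⟩),(⟨0,[(44,0)]⟩,⟨0,[(43,
  0)]⟩),⟨0,[(1,0)]⟩,.k,.k,(.r 0 ⟨3,[(9,0),(4,0),(30,0),(2,2)]⟩ ⟨8,[(13,1),(1,2),(10,4),(23,6)]⟩),
  (.r 0 ⟨3,[(9,0),(4,0),(30,0),(2,2)]⟩ ⟨8,[(13,1),(1,2),(10,4),(23,6)]⟩),.k,.k,⟨false,0,⟨3,[(9,0),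
  (4,0),(30,0),(2,2)]⟩,⟨4,[(12,1),(7,0),(11,1),(16,0),(0,1)]⟩⟩,⟨true,1,⟨0,[(0,0)]⟩,⟨11,[(3,11),(11,
  1),(4,1),(5,1),(11,0),(0,0)]⟩⟩,⟨true,0,⟨1,[(38,0),(0,0)]⟩,⟨4,[(9,0),(4,0),(30,0),(0,0)]⟩⟩,⟨false,
  2,⟨0,[(12,0),(37,0)]⟩,⟨7,[(3,6),(5,1),(4,1),(4,0),(25,0)]⟩⟩,⟨false,0,⟨0,[]⟩,⟨0,[]⟩⟩,⟨false,0,⟨0,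
  []⟩,⟨0,[]⟩⟩,[.a ⟨true,0,⟨17,[(15,2),(2,16),(1,2),(5,2),(1,0),(10,1)]⟩,⟨0,[(48,0)]⟩⟩ ⟨false,0,⟨0,
  [(52,0)]⟩,⟨1,[(49,0),(0,0)]⟩⟩ ⟨true,1,⟨0,[(12,0)]⟩,⟨0,[(3,0)]⟩⟩,.o ⟨false,1,⟨4,[(12,1),(7,0),(11,
  1),(16,0),(0,1)]⟩,⟨0,[(8,0),(12,0),(0,0),(25,0)]⟩⟩,.a ⟨true,(-1),⟨0,[(3,0),(2,0),(7,0),(24,0),(10,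
  0)]⟩,⟨0,[(31,0)]⟩⟩ ⟨false,0,⟨1,[(38,0),(0,0)]⟩,⟨1,[(49,0),(0,0)]⟩⟩ ⟨true,1,⟨0,[(12,0)]⟩,⟨7,[(3,6),
  (5,1),(4,1),(4,0),(25,0)]⟩⟩,.a ⟨true,(-1),⟨11,[(3,8),(14,6),(1,2),(4,2),(2,1),(10,3)]⟩,⟨0,[(0,
  0)]⟩⟩ ⟨true,0,⟨0,[(52,0)]⟩,⟨0,[]⟩⟩ ⟨false,2,⟨1,[(12,1),(36,0),(0,0)]⟩,⟨0,[(3,0)]⟩⟩]⟩))) (.Q [0,0,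
  1,0,-1,0,0,0,1,0,0,-1] (.p false [0,0,0,0,1] [] (⟨0,[(32,0)]⟩,⟨0,[(31,0)]⟩) .k 0 (⟨0,[]⟩,⟨0,[]⟩)
  .k .k) (.S ⟨1,0,[0,1,0,-1],[0,0,0,0,1],[1,2],(⟨0,[(33,0)]⟩,⟨0,[(32,0)]⟩),⟨2,[(1,0),(2,0),(10,0),
  (17,1)]⟩,.k,(.r 0 ⟨3,[(8,0),(4,0),(30,0),(2,2)]⟩ ⟨8,[(12,1),(1,2),(10,4),(23,6)]⟩),⟨false,0,⟨0,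
  []⟩,⟨2,[(12,0),(12,0),(23,1)]⟩⟩,⟨true,0,⟨0,[(47,0)]⟩,⟨0,[(46,0)]⟩⟩,⟨true,0,⟨0,[(46,0)]⟩,⟨0,[(47,
  0)]⟩⟩,⟨false,1,⟨2,[(12,0),(12,0),(23,1)]⟩,⟨0,[]⟩⟩,[.o ⟨false,(-1),⟨7,[(2,6),(5,1),(4,1),(4,0),(25,
  0)]⟩,⟨1,[(11,1),(29,0),(7,0)]⟩⟩,.a ⟨true,(-1),⟨0,[(2,0),(14,0)]⟩,⟨0,[(11,0)]⟩⟩ ⟨false,0,⟨4,[(8,0),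
  (4,0),(30,0),(0,0)]⟩,⟨2,[(12,0),(12,0),(23,1)]⟩⟩ ⟨true,0,⟨0,[(47,0)]⟩,⟨11,[(14,1),(4,1),(5,1),(11,
  0),(0,0)]⟩⟩,.e ⟨false,0,⟨0,[(51,0)]⟩,⟨0,[(49,0)]⟩⟩ ⟨false,0,⟨0,[(47,0)]⟩,⟨4,[(11,1),(7,0),(11,1),
  (16,0),(0,1)]⟩⟩,.o ⟨false,(-1),⟨0,[(0,0)]⟩,⟨1,[(30,1),(10,0),(6,0)]⟩⟩]⟩) (.R ⟨0,false,false,false,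
  [1,0,0,0,-1],[0,0,1],[1,0,0,0,0,0,0,1],(⟨0,[(32,0)]⟩,⟨0,[(33,0)]⟩),(⟨0,[(40,0)]⟩,⟨0,[(39,0)]⟩),⟨0,
  [(1,0)]⟩,.k,.k,(.r (-1) ⟨2,[(12,0),(0,0),(33,0),(1,1)]⟩ ⟨10,[(12,1),(1,2),(6,1),(3,4),(18,1)]⟩),
  .k,.k,.k,⟨true,0,⟨0,[]⟩,⟨1,[(37,0),(0,0)]⟩⟩,⟨false,(-1),⟨0,[(2,0),(2,0),(7,0),(35,0)]⟩,⟨7,[(7,1),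
  (3,1),(0,1),(17,5),(5,1),(1,3),(2,2),(7,0)]⟩⟩,⟨true,0,⟨1,[(8,0),(3,0),(8,0)]⟩,⟨2,[(13,0),(2,1),(2,
  0)]⟩⟩,⟨false,(-1),⟨1,[(2,1),(2,0),(4,0),(23,0)]⟩,⟨2,[(0,2),(6,0),(8,2),(2,0),(18,1),(2,0),(7,
  0)]⟩⟩,⟨false,0,⟨0,[]⟩,⟨0,[]⟩⟩,⟨false,0,⟨0,[]⟩,⟨0,[]⟩⟩,[.o ⟨false,0,⟨1,[(9,1),(31,0),(7,0)]⟩,⟨1,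
  [(36,1),(4,0),(7,0)]⟩⟩,.e ⟨false,1,⟨0,[(10,0)]⟩,⟨5,[(13,0),(2,1),(8,2),(18,0)]⟩⟩ ⟨false,0,⟨3,[(2,
  1),(2,0),(4,2),(9,1),(2,1),(10,0),(14,1)]⟩,⟨0,[(0,0),(6,0),(8,0),(4,0)]⟩⟩,.a ⟨true,1,⟨0,[(30,0)]⟩,
  ⟨0,[(2,0),(2,0),(7,0),(24,0),(10,0)]⟩⟩ ⟨false,1,⟨2,[(10,0),(1,0),(1,0),(32,0),(1,0)]⟩,⟨2,[(13,0),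
  (2,1),(2,0)]⟩⟩ ⟨true,(-1),⟨1,[(2,1),(2,0),(4,0),(23,0)]⟩,⟨0,[(0,0),(6,0),(8,0),(4,0)]⟩⟩,.o ⟨false,
  1,⟨1,[(0,1),(20,1),(19,0),(5,1),(1,0)]⟩,⟨1,[(2,0),(2,0),(1,0),(5,0),(17,0),(17,0)]⟩⟩]⟩))) (.Q [0,
  0,-1,-1,1,0,0,0,-1,-1,0,1] (.p true [0,0,0,0,1] [1] (⟨0,[(31,0)]⟩,⟨0,[(30,0)]⟩) .k 1 (⟨0,[]⟩,⟨0,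
  []⟩) .k .k) (.Q [0,0,-1,0,1,0,0,0,-1,-1,0,1] (.p true [0,0,0,0,1] [1] (⟨0,[(32,0)]⟩,⟨0,[(31,0)]⟩)
  .k 1 (⟨0,[]⟩,⟨0,[]⟩) .k .k) (.Q [0,0,0,0,0,-1,0,0,0,0,0,1] (.ed false [1,-1,0,0,1] .k) (.S ⟨1,0,
  [0,2,0,-1],[0,0,0,0,1],[1,1],(⟨0,[(34,0)]⟩,⟨0,[(33,0)]⟩),⟨0,[(0,0)]⟩,.k,(.r 0 ⟨3,[(9,0),(4,0),(30,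
  0),(2,2)]⟩ ⟨8,[(13,1),(1,2),(10,4),(23,6)]⟩),⟨true,0,⟨0,[]⟩,⟨0,[(52,0)]⟩⟩,⟨false,0,⟨0,[(48,0)]⟩,
  ⟨4,[(12,1),(7,0),(11,1),(16,0),(0,1)]⟩⟩,⟨false,1,⟨4,[(12,1),(7,0),(11,1),(16,0),(0,1)]⟩,⟨0,[(48,
  0)]⟩⟩,⟨true,0,⟨0,[(52,0)]⟩,⟨0,[]⟩⟩,[.o ⟨false,(-1),⟨0,[(19,0),(28,1)]⟩,⟨5,[(1,1),(0,1),(9,1),(7,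
  1),(21,0),(7,4)]⟩⟩,.a ⟨true,(-1),⟨0,[(25,0),(22,0)]⟩,⟨1,[(2,1),(15,1),(1,0),(1,0),(27,0)]⟩⟩ ⟨true,
  0,⟨0,[]⟩,⟨1,[(38,0),(0,0)]⟩⟩ ⟨false,0,⟨3,[(9,0),(4,0),(30,0),(2,2)]⟩,⟨4,[(12,1),(7,0),(11,1),(16,
  0),(0,1)]⟩⟩,.o ⟨false,0,⟨0,[(32,0)]⟩,⟨5,[(2,3),(17,0),(1,0),(8,1),(10,0)]⟩⟩,.o ⟨false,0,⟨1,[(32,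
  1),(5,0),(0,0)]⟩,⟨0,[(1,0)]⟩⟩]⟩) (.R ⟨0,false,false,true,[0,0,0,0,1],[0,1],[1,1,1,1],(⟨0,[(34,
  0)]⟩,⟨0,[(33,0)]⟩),(⟨0,[(44,0)]⟩,⟨0,[(43,0)]⟩),⟨0,[(0,0)]⟩,.k,.k,(.r 0 ⟨3,[(9,0),(4,0),(30,0),(2,
  2)]⟩ ⟨8,[(13,1),(1,2),(10,4),(23,6)]⟩),(.r 0 ⟨3,[(9,0),(4,0),(30,0),(2,2)]⟩ ⟨8,[(13,1),(1,2),(10,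
  4),(23,6)]⟩),.k,.k,⟨true,0,⟨0,[]⟩,⟨1,[(38,0),(0,0)]⟩⟩,⟨false,1,⟨0,[(1,0),(16,0)]⟩,⟨1,[(32,1),(5,
  0),(0,0)]⟩⟩,⟨true,0,⟨11,[(15,1),(4,1),(5,1),(11,0),(0,0)]⟩,⟨3,[(9,0),(4,0),(30,0),(2,2)]⟩⟩,⟨false,
  1,⟨1,[(2,1),(15,1),(1,0),(1,0),(27,0)]⟩,⟨0,[(32,0),(15,0)]⟩⟩,⟨false,0,⟨0,[]⟩,⟨0,[]⟩⟩,⟨false,0,⟨0,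
  []⟩,⟨0,[]⟩⟩,[.o ⟨false,0,⟨0,[(47,0)]⟩,⟨1,[(42,0),(5,1),(1,0)]⟩⟩,.a ⟨true,0,⟨17,[(15,2),(2,16),(1,
  2),(5,2),(1,0),(10,1)]⟩,⟨0,[(48,0)]⟩⟩ ⟨true,0,⟨11,[(15,1),(4,1),(5,1),(11,0),(0,0)]⟩,⟨0,[(48,
  0)]⟩⟩ ⟨false,1,⟨0,[(3,0)]⟩,⟨0,[(32,0),(15,0)]⟩⟩,.o ⟨false,0,⟨0,[(32,0)]⟩,⟨5,[(2,3),(17,0),(1,0),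
  (8,1),(10,0)]⟩⟩,.o ⟨false,0,⟨1,[(32,1),(5,0),(0,0)]⟩,⟨0,[(1,0)]⟩⟩]⟩)) (.Q [0,0,0,0,0,-1,0,0,0,0,0,
  1] (.ed false [1,-1,0,0,1] .k) (.S ⟨1,0,[0,1,0,-1],[0,0,0,0,1],[1,2],(⟨0,[(34,0)]⟩,⟨0,[(33,0)]⟩),
  ⟨0,[(0,0)]⟩,.k,(.r 0 ⟨3,[(9,0),(4,0),(30,0),(2,2)]⟩ ⟨8,[(13,1),(1,2),(10,4),(23,6)]⟩),⟨false,0,⟨0,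
  []⟩,⟨2,[(13,0),(12,0),(23,1)]⟩⟩,⟨true,0,⟨0,[(48,0)]⟩,⟨0,[(47,0)]⟩⟩,⟨true,0,⟨0,[(47,0)]⟩,⟨0,[(48,
  0)]⟩⟩,⟨false,1,⟨2,[(13,0),(12,0),(23,1)]⟩,⟨0,[]⟩⟩,[.e ⟨false,0,⟨0,[(45,0)]⟩,⟨0,[(50,0)]⟩⟩ ⟨false,
  0,⟨3,[(9,0),(4,0),(30,0),(2,2)]⟩,⟨4,[(12,1),(7,0),(11,1),(16,0),(0,1)]⟩⟩,.o ⟨false,0,⟨0,[(32,0),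
  (15,0)]⟩,⟨3,[(2,1),(0,1),(16,0),(1,0),(19,0)]⟩⟩,.o ⟨false,0,⟨0,[(32,0)]⟩,⟨5,[(2,3),(17,0),(1,0),
  (8,1),(10,0)]⟩⟩,.a ⟨true,(-1),⟨0,[(1,0)]⟩,⟨2,[(2,0),(0,0),(14,0),(12,0)]⟩⟩ ⟨false,0,⟨4,[(9,0),(4,
  0),(30,0),(0,0)]⟩,⟨1,[(38,0),(0,0),(10,1)]⟩⟩ ⟨true,0,⟨3,[(9,0),(4,0),(30,0),(2,2)]⟩,⟨11,[(15,1),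
  (4,1),(5,1),(11,0),(0,0)]⟩⟩]⟩) (.R ⟨0,false,false,false,[0,0,0,0,1],[1,-1],[1,1,1],(⟨0,[(34,0)]⟩,
  ⟨0,[(33,0)]⟩),(⟨0,[(43,0)]⟩,⟨0,[(44,0)]⟩),⟨0,[(0,0)]⟩,.k,.k,(.r 0 ⟨3,[(9,0),(4,0),(30,0),(2,2)]⟩
  ⟨8,[(13,1),(1,2),(10,4),(23,6)]⟩),(.r 0 ⟨10,[(13,1),(1,2),(6,1),(3,4),(18,1)]⟩ ⟨2,[(13,0),(0,0),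
  (33,0),(1,1)]⟩),.k,.k,⟨true,(-1),⟨0,[(22,0)]⟩,⟨2,[(13,0),(0,0),(33,0),(1,1)]⟩⟩,⟨false,1,⟨5,[(2,3),
  (17,0),(1,0),(8,1),(10,0)]⟩,⟨0,[(18,0),(13,0)]⟩⟩,⟨true,0,⟨1,[(38,0),(0,0)]⟩,⟨4,[(9,0),(4,0),(30,
  0),(0,0)]⟩⟩,⟨false,2,⟨1,[(2,1),(35,0),(0,0),(10,1)]⟩,⟨0,[(24,0)]⟩⟩,⟨false,0,⟨0,[]⟩,⟨0,[]⟩⟩,⟨false,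
  0,⟨0,[]⟩,⟨0,[]⟩⟩,[.e ⟨false,0,⟨0,[(52,0)]⟩,⟨1,[(49,0),(0,0)]⟩⟩ ⟨false,1,⟨0,[(2,0)]⟩,⟨3,[(4,0),(7,
  0),(7,0),(4,0),(6,2),(0,0),(9,1)]⟩⟩,.o ⟨false,1,⟨1,[(42,0),(5,1),(1,0)]⟩,⟨0,[(47,0)]⟩⟩,.o ⟨false,
  0,⟨0,[(32,0)]⟩,⟨5,[(2,3),(17,0),(1,0),(8,1),(10,0)]⟩⟩,.a ⟨true,(-1),⟨0,[(1,0)]⟩,⟨2,[(2,0),(0,0),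
  (14,0),(12,0)]⟩⟩ ⟨false,0,⟨0,[]⟩,⟨2,[(13,0),(12,0),(23,1)]⟩⟩ ⟨true,1,⟨0,[(2,0)]⟩,⟨8,[(1,0),(13,1),
  (4,0),(4,7),(0,1)]⟩⟩]⟩))) (.Q [0,1,-1,-1,1,0,-1,-1,-1,-1,1,1] (.p true [0,0,1] [1,0,0,0,-1] (⟨0,
  [(39,0)]⟩,⟨0,[(38,0)]⟩) .k 2 (⟨0,[(31,0)]⟩,⟨0,[(32,0)]⟩) .k (.r 0 ⟨1,[(7,0),(3,0),(8,0)]⟩ ⟨3,[(15,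
  1),(8,1),(22,0),(0,2)]⟩)) (.Q [0,0,1,0,0,0,1,0,-1,0,-1,1] (.p false [0,0,1] [0,0,0,0,1] (⟨0,[(40,
  0)]⟩,⟨0,[(39,0)]⟩) .k 2 (⟨0,[(33,0)]⟩,⟨0,[(32,0)]⟩) .k (.r (-1) ⟨2,[(10,0),(1,0),(1,0),(32,0),(1,
  0)]⟩ ⟨5,[(13,0),(2,1),(8,2),(18,0)]⟩)) (.Q [0,0,0,0,0,-1,0,0,0,0,0,1] (.ed false [1,-1,0,0,1] .k)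
  (.R ⟨1,false,false,false,[0,0,0,0,1],[1,-1],[1,2],(⟨0,[(35,0)]⟩,⟨0,[(34,0)]⟩),(⟨0,[(44,0)]⟩,⟨0,
  [(45,0)]⟩),⟨0,[(0,0)]⟩,.k,.k,(.r 0 ⟨3,[(10,0),(4,0),(30,0),(2,2)]⟩ ⟨8,[(14,1),(1,2),(10,4),(23,
  6)]⟩),(.r 0 ⟨10,[(14,1),(1,2),(6,1),(3,4),(18,1)]⟩ ⟨2,[(14,0),(0,0),(33,0),(1,1)]⟩),.k,.k,⟨true,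
  (-1),⟨2,[(2,0),(5,0),(11,0),(2,1)]⟩,⟨0,[(49,0),(1,0)]⟩⟩,⟨false,1,⟨0,[(1,0),(7,0)]⟩,⟨0,[(19,0),(13,
  0)]⟩⟩,⟨false,0,⟨0,[]⟩,⟨2,[(14,0),(12,0),(23,1)]⟩⟩,⟨false,2,⟨0,[(1,0),(7,0),(39,0),(1,0)]⟩,⟨0,[(25,
  0)]⟩⟩,⟨true,0,⟨0,[(48,0)]⟩,⟨0,[(49,0)]⟩⟩,⟨false,2,⟨0,[(1,0),(7,0),(41,0)]⟩,⟨0,[(26,0)]⟩⟩,[.a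
  ⟨true,0,⟨0,[(49,0)]⟩,⟨1,[(3,0),(9,0),(5,0)]⟩⟩ ⟨false,0,⟨0,[(46,0)]⟩,⟨0,[(51,0)]⟩⟩ ⟨true,1,⟨0,[(1,
  0),(7,0),(39,0)]⟩,⟨0,[(3,0)]⟩⟩,.o ⟨false,1,⟨1,[(43,0),(5,1),(1,0)]⟩,⟨0,[(48,0)]⟩⟩,.o ⟨false,0,⟨0,
  [(33,0)]⟩,⟨0,[(1,0),(7,0)]⟩⟩,.e ⟨false,0,⟨4,[(10,0),(4,0),(30,0),(0,0)]⟩,⟨1,[(39,0),(0,0),(10,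
  1)]⟩⟩ ⟨false,2,⟨4,[(1,1),(0,2),(9,1),(1,0),(7,0),(20,0),(7,2)]⟩,⟨0,[(3,0)]⟩⟩]⟩) (.R ⟨0,false,
  false,true,[0,0,0,0,1],[1,-1],[1,0,1],(⟨0,[(35,0)]⟩,⟨0,[(34,0)]⟩),(⟨0,[(44,0)]⟩,⟨0,[(45,0)]⟩),⟨0,
  [(0,0)]⟩,.k,.k,(.r 0 ⟨3,[(10,0),(4,0),(30,0),(2,2)]⟩ ⟨8,[(14,1),(1,2),(10,4),(23,6)]⟩),(.r 0 ⟨10,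
  [(14,1),(1,2),(6,1),(3,4),(18,1)]⟩ ⟨2,[(14,0),(0,0),(33,0),(1,1)]⟩),.k,.k,⟨true,0,⟨0,[(23,0),(27,
  0)]⟩,⟨3,[(10,0),(4,0),(30,0),(2,2)]⟩⟩,⟨false,1,⟨0,[(1,0),(7,0)]⟩,⟨0,[(19,0),(13,0)]⟩⟩,⟨false,1,⟨1,
  [(39,0),(0,0),(10,1)]⟩,⟨4,[(10,0),(4,0),(30,0),(0,0)]⟩⟩,⟨true,1,⟨0,[(1,0),(7,0),(39,0)]⟩,⟨0,[(25,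
  0)]⟩⟩,⟨false,0,⟨0,[]⟩,⟨0,[]⟩⟩,⟨false,0,⟨0,[]⟩,⟨0,[]⟩⟩,[.o ⟨false,0,⟨0,[(9,0),(12,0),(0,0),(25,
  0)]⟩,⟨4,[(13,1),(7,0),(11,1),(16,0),(0,1)]⟩⟩,.a ⟨true,0,⟨0,[(49,0)]⟩,⟨1,[(3,0),(9,0),(5,0)]⟩⟩
  ⟨false,1,⟨2,[(14,0),(12,0),(23,1)]⟩,⟨4,[(10,0),(4,0),(30,0),(0,0)]⟩⟩ ⟨true,1,⟨0,[(1,0),(7,0),(39,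
  0)]⟩,⟨0,[(3,0)]⟩⟩,.o ⟨false,0,⟨0,[(33,0)]⟩,⟨0,[(1,0),(7,0)]⟩⟩,.e ⟨true,0,⟨0,[]⟩,⟨0,[(53,0)]⟩⟩
  ⟨true,1,⟨4,[(1,1),(0,2),(7,1),(3,0),(7,0),(20,0)]⟩,⟨0,[(3,0)]⟩⟩]⟩)) (.Q [0,-2,0,0,2,0,0,0,-1,-1,0,
  1] (.p true [0,0,0,0,1] [1] (⟨0,[(34,0)]⟩,⟨0,[(33,0)]⟩) .k 1 (⟨0,[]⟩,⟨0,[]⟩) .k .k) (.R ⟨1,false,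
  false,false,[1,0,-1],[1,0,0,0,-1],[0,1,0,-1,0,0,0,-1],(⟨0,[(41,0)]⟩,⟨0,[(42,0)]⟩),(⟨0,[(34,0)]⟩,
  ⟨0,[(35,0)]⟩),⟨0,[(30,0)]⟩,.k,.k,.k,.k,(.r 0 ⟨2,[(15,0),(2,1),(27,0)]⟩ ⟨8,[(14,3),(1,5),(10,0),
  (23,4)]⟩),.k,⟨true,(-1),⟨0,[(15,0),(7,0),(25,0)]⟩,⟨0,[(12,0),(10,0),(27,0)]⟩⟩,⟨false,1,⟨0,[(13,0),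
  (8,0)]⟩,⟨1,[(1,0),(31,0),(6,0)]⟩⟩,⟨false,0,⟨0,[(49,0)]⟩,⟨4,[(13,1),(7,0),(11,1),(16,0),(0,1)]⟩⟩,
  ⟨true,1,⟨0,[(0,0),(10,0)]⟩,⟨3,[(1,2),(0,0),(12,0),(2,1),(1,0),(2,2),(2,0)]⟩⟩,⟨true,0,⟨0,[(53,0)]⟩,
  ⟨0,[]⟩⟩,⟨true,1,⟨0,[(0,0),(7,0)]⟩,⟨3,[(1,2),(0,0),(12,0),(2,1),(1,0),(2,2),(2,0),(22,3)]⟩⟩,[.o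
  ⟨false,2,⟨4,[(0,2),(13,0),(12,0),(4,1),(10,0)]⟩,⟨0,[(1,0),(20,0),(0,0)]⟩⟩,.o ⟨false,2,⟨0,[(0,0)]⟩,
  ⟨0,[(20,0),(28,0)]⟩⟩,.o ⟨false,1,⟨27,[(0,2),(8,10),(4,3),(1,1),(16,2),(4,5),(1,10),(2,6)]⟩,⟨0,
  [(24,0)]⟩⟩,.a ⟨true,0,⟨0,[(40,0)]⟩,⟨0,[(36,0)]⟩⟩ ⟨true,0,⟨2,[(15,0),(2,1),(27,0)]⟩,⟨0,[(12,0),(10,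
  0)]⟩⟩ ⟨false,2,⟨0,[(0,0),(35,0)]⟩,⟨0,[(1,0),(21,0),(25,0)]⟩⟩]⟩) (.Q [0,2,0,1,-2,0,0,0,1,1,0,-1]
  (.p false [0,0,0,0,1] [1] (⟨0,[(35,0)]⟩,⟨0,[(34,0)]⟩) .k 1 (⟨0,[]⟩,⟨0,[]⟩) .k .k) (.Q [0,0,0,0,0,
  -1,0,0,0,0,0,1] (.ed false [1,-1,0,0,1] .k) (.R ⟨1,false,false,false,[0,0,0,0,1],[1,-1],[1,1],(⟨0,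
  [(37,0)]⟩,⟨0,[(36,0)]⟩),(⟨0,[(46,0)]⟩,⟨0,[(47,0)]⟩),⟨0,[(0,0)]⟩,.k,.k,(.r 0 ⟨2,[(2,0),(1,0),(11,
  0),(7,0)]⟩ ⟨8,[(16,1),(1,2),(10,4),(23,6)]⟩),(.r 0 ⟨10,[(16,1),(1,2),(6,1),(3,4),(18,1)]⟩ ⟨2,[(16,
  0),(0,0),(33,0),(1,1)]⟩),.k,.k,⟨false,0,⟨0,[(50,0)]⟩,⟨2,[(16,0),(0,0),(33,0),(1,1)]⟩⟩,⟨true,1,⟨1,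
  [(4,1),(8,1),(11,1),(19,0),(7,2)]⟩,⟨0,[(2,0),(50,0)]⟩⟩,⟨true,0,⟨0,[]⟩,⟨0,[(55,0)]⟩⟩,⟨true,2,⟨1,
  [(34,1),(10,0),(5,1),(1,0)]⟩,⟨0,[(1,0)]⟩⟩,⟨false,1,⟨4,[(15,1),(7,0),(11,1),(16,0),(0,1)]⟩,⟨0,[(51,
  0)]⟩⟩,⟨true,2,⟨1,[(34,1),(10,0),(7,0)]⟩,⟨0,[(2,0)]⟩⟩,[.e ⟨false,0,⟨4,[(12,0),(4,0),(30,0),(0,0)]⟩,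
  ⟨2,[(16,0),(12,0),(23,1)]⟩⟩ ⟨false,2,⟨13,[(4,5),(11,5),(7,1),(6,1),(2,7),(10,4),(7,2)]⟩,⟨0,[(1,0),
  (51,0)]⟩⟩,.o ⟨false,1,⟨1,[(45,0),(5,1),(1,0)]⟩,⟨0,[(50,0)]⟩⟩,.e ⟨false,0,⟨0,[]⟩,⟨2,[(16,0),(12,0),
  (23,1)]⟩⟩ ⟨false,2,⟨1,[(34,1),(10,0),(5,1),(1,0)]⟩,⟨0,[(1,0),(51,0)]⟩⟩,.a ⟨true,(-1),⟨0,[(5,0),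
  (45,0)]⟩,⟨1,[(4,0),(1,0),(6,0),(39,0)]⟩⟩ ⟨true,0,⟨4,[(12,0),(4,0),(30,0),(0,0)]⟩,⟨1,[(41,0),(0,
  0)]⟩⟩ ⟨false,2,⟨1,[(4,1),(8,1),(31,0),(7,2)]⟩,⟨0,[(5,0)]⟩⟩]⟩) (.R ⟨0,false,false,false,[0,0,0,0,
  1],[0,1],[0,1,1],(⟨0,[(37,0)]⟩,⟨0,[(36,0)]⟩),(⟨0,[(47,0)]⟩,⟨0,[(46,0)]⟩),⟨0,[(0,0)]⟩,.k,.k,(.r 0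
  ⟨2,[(2,0),(1,0),(11,0),(7,0)]⟩ ⟨8,[(16,1),(1,2),(10,4),(23,6)]⟩),(.r 0 ⟨2,[(2,0),(1,0),(11,0),(7,
  0)]⟩ ⟨8,[(16,1),(1,2),(10,4),(23,6)]⟩),.k,.k,⟨false,0,⟨2,[(2,0),(1,0),(11,0),(7,0)]⟩,⟨4,[(15,1),
  (7,0),(11,1),(16,0),(0,1)]⟩⟩,⟨true,1,⟨1,[(4,0),(1,0),(6,0),(39,0)]⟩,⟨1,[(2,1),(22,1),(19,0),(5,1),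
  (1,2)]⟩⟩,⟨true,0,⟨1,[(41,0),(0,0)]⟩,⟨4,[(12,0),(4,0),(30,0),(0,0)]⟩⟩,⟨false,2,⟨0,[(15,0),(37,0)]⟩,
  ⟨1,[(2,1),(42,0),(5,1),(1,0)]⟩⟩,⟨false,0,⟨0,[]⟩,⟨0,[]⟩⟩,⟨false,0,⟨0,[]⟩,⟨0,[]⟩⟩,[.e ⟨false,0,⟨0,
  [(55,0)]⟩,⟨1,[(52,0),(0,0)]⟩⟩ ⟨false,1,⟨0,[(6,0)]⟩,⟨0,[(35,0),(15,0)]⟩⟩,.o ⟨false,1,⟨4,[(15,1),(7,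
  0),(11,1),(16,0),(0,1)]⟩,⟨0,[(11,0),(12,0),(0,0),(25,0)]⟩⟩,.a ⟨true,(-1),⟨0,[(2,0),(50,0)]⟩,⟨0,
  [(34,0)]⟩⟩ ⟨false,0,⟨1,[(41,0),(0,0)]⟩,⟨1,[(52,0),(0,0)]⟩⟩ ⟨true,1,⟨0,[(15,0)]⟩,⟨1,[(2,1),(42,0),
  (5,1),(1,0)]⟩⟩,.e ⟨true,0,⟨0,[(55,0)]⟩,⟨0,[]⟩⟩ ⟨true,1,⟨0,[(6,0)]⟩,⟨2,[(2,0),(2,0),(19,0),(9,0),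
  (9,0),(5,4)]⟩⟩]⟩)) (.R ⟨2,true,false,false,[0,1],[1,0,0,0,-1],[1,0,1,1],(⟨0,[]⟩,⟨0,[]⟩),(⟨0,[(35,
  0)]⟩,⟨0,[(36,0)]⟩),⟨0,[]⟩,.k,.k,.k,(.r 0 ⟨10,[(15,1),(1,2),(6,1),(3,4),(18,1)]⟩ ⟨2,[(15,0),(0,0),
  (33,0),(1,1)]⟩),.k,.k,⟨false,0,⟨0,[(49,0)]⟩,⟨2,[(15,0),(0,0),(33,0),(1,1)]⟩⟩,⟨true,1,⟨2,[(0,1),(2,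
  0),(20,1),(4,0)]⟩,⟨0,[(1,0),(50,0)]⟩⟩,⟨true,0,⟨0,[]⟩,⟨0,[(54,0)]⟩⟩,⟨false,2,⟨0,[(0,0)]⟩,⟨0,[(26,
  0)]⟩⟩,⟨false,1,⟨4,[(14,1),(7,0),(11,1),(16,0),(0,1)]⟩,⟨0,[(50,0)]⟩⟩,⟨true,2,⟨8,[(0,4),(13,4),(0,
  0),(12,0),(5,0),(9,1)]⟩,⟨0,[(1,0)]⟩⟩,[]⟩)))) (.Q [0,0,0,0,0,-1,0,0,0,0,0,1] (.ed false [1,-1,0,0,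
  1] .k) (.R ⟨1,false,false,true,[0,0,0,0,1],[1,-1,-1],[1,1],(⟨0,[(34,0)]⟩,⟨0,[(33,0)]⟩),(⟨0,[(29,
  0)]⟩,⟨0,[(41,0),(2,0)]⟩),⟨0,[(0,0)]⟩,.k,.k,(.r 0 ⟨3,[(9,0),(4,0),(30,0),(2,2)]⟩ ⟨8,[(13,1),(1,2),
  (10,4),(23,6)]⟩),(.r 0 ⟨7,[(9,0),(3,2),(1,3),(6,2),(22,1)]⟩ ⟨1,[(17,1),(31,0),(0,0)]⟩),.k,.k,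
  ⟨true,0,⟨0,[(11,0),(10,0)]⟩,⟨0,[(17,0)]⟩⟩,⟨false,2,⟨7,[(8,1),(3,1),(0,1),(17,5),(5,1),(1,3),(2,2),
  (7,0)]⟩,⟨0,[(1,0),(12,0)]⟩⟩,⟨true,0,⟨0,[]⟩,⟨0,[(52,0)]⟩⟩,⟨false,2,⟨1,[(3,1),(13,1),(21,1),(2,0),
  (5,1),(1,0)]⟩,⟨5,[(1,4),(5,0),(1,0),(4,0),(4,0),(29,0)]⟩⟩,⟨false,1,⟨4,[(12,1),(7,0),(11,1),(16,0),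
  (0,1)]⟩,⟨0,[(48,0)]⟩⟩,⟨false,2,⟨1,[(3,1),(13,1),(21,1),(2,0),(7,0)]⟩,⟨2,[(1,1),(7,0),(11,0),(3,0),
  (22,0)]⟩⟩,[.a ⟨true,0,⟨0,[(37,0),(10,0)]⟩,⟨0,[(7,0),(42,0)]⟩⟩ ⟨false,0,⟨4,[(9,0),(4,0),(30,0),(0,
  0)]⟩,⟨2,[(13,0),(12,0),(23,1)]⟩⟩ ⟨true,1,⟨1,[(3,1),(10,0),(2,0),(4,0),(16,1),(2,0),(5,2)]⟩,⟨0,[(1,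
  0)]⟩⟩,.o ⟨false,1,⟨4,[(8,0),(4,0),(3,3),(19,1),(1,1),(2,1),(7,0)]⟩,⟨1,[(7,1),(34,0),(7,0)]⟩⟩,.a
  ⟨true,(-1),⟨0,[(1,0),(12,0),(24,0)]⟩,⟨0,[(31,0)]⟩⟩ ⟨false,0,⟨0,[]⟩,⟨2,[(13,0),(12,0),(23,1)]⟩⟩
  ⟨true,1,⟨1,[(3,1),(10,0),(2,0),(4,0),(16,1),(2,0),(5,2)]⟩,⟨5,[(1,4),(5,0),(1,0),(4,0),(4,0),(29,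
  0)]⟩⟩,.a ⟨true,(-1),⟨0,[(2,0),(45,0)]⟩,⟨0,[(3,0),(44,0)]⟩⟩ ⟨true,0,⟨4,[(9,0),(4,0),(30,0),(0,0)]⟩,
  ⟨1,[(38,0),(0,0)]⟩⟩ ⟨false,2,⟨0,[(8,0),(8,0),(13,0)]⟩,⟨0,[(1,0)]⟩⟩]⟩) (.R ⟨0,false,false,false,[0,
  0,0,0,1],[0,1],[0,1,1],(⟨0,[(34,0)]⟩,⟨0,[(33,0)]⟩),(⟨0,[(44,0)]⟩,⟨0,[(43,0)]⟩),⟨0,[(0,0)]⟩,.k,.k,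
  (.r 0 ⟨3,[(9,0),(4,0),(30,0),(2,2)]⟩ ⟨8,[(13,1),(1,2),(10,4),(23,6)]⟩),(.r 0 ⟨3,[(9,0),(4,0),(30,
  0),(2,2)]⟩ ⟨8,[(13,1),(1,2),(10,4),(23,6)]⟩),.k,.k,⟨false,0,⟨3,[(9,0),(4,0),(30,0),(2,2)]⟩,⟨4,
  [(12,1),(7,0),(11,1),(16,0),(0,1)]⟩⟩,⟨true,1,⟨0,[(3,0),(44,0)]⟩,⟨1,[(1,1),(12,0),(2,0),(4,0),(16,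
  1),(2,0),(5,0)]⟩⟩,⟨true,0,⟨1,[(38,0),(0,0)]⟩,⟨4,[(9,0),(4,0),(30,0),(0,0)]⟩⟩,⟨false,2,⟨0,[(12,0),
  (37,0)]⟩,⟨0,[(1,0),(6,0),(5,0),(7,0),(25,1)]⟩⟩,⟨false,0,⟨0,[]⟩,⟨0,[]⟩⟩,⟨false,0,⟨0,[]⟩,⟨0,[]⟩⟩,
  [.e ⟨false,0,⟨0,[(52,0)]⟩,⟨1,[(49,0),(0,0)]⟩⟩ ⟨false,1,⟨0,[(3,0)]⟩,⟨0,[(32,0),(15,0)]⟩⟩,.o ⟨false,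
  1,⟨4,[(12,1),(7,0),(11,1),(16,0),(0,1)]⟩,⟨0,[(8,0),(12,0),(0,0),(25,0)]⟩⟩,.a ⟨true,(-1),⟨0,[(1,0),
  (12,0),(24,0)]⟩,⟨0,[(31,0)]⟩⟩ ⟨false,0,⟨1,[(38,0),(0,0)]⟩,⟨1,[(49,0),(0,0)]⟩⟩ ⟨true,1,⟨0,[(12,
  0)]⟩,⟨0,[(1,0),(6,0),(5,0),(7,0),(25,1)]⟩⟩,.e ⟨true,0,⟨0,[(52,0)]⟩,⟨0,[]⟩⟩ ⟨true,1,⟨0,[(3,0)]⟩,⟨3,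
  [(1,1),(12,0),(2,0),(1,1),(2,0),(16,1),(2,0),(5,6)]⟩⟩]⟩)))))))))) (.S ⟨1,0,[0,0,1,0,0,0,0,-1],[1,
  1,-1],[1,1,1,1,0,0,0,-1],(⟨0,[(31,0),(3,0)]⟩,⟨0,[(21,0)]⟩),⟨0,[(31,0)]⟩,.k,.k,⟨false,0,⟨0,[]⟩,⟨2,
  [(4,0),(12,0),(23,1)]⟩⟩,⟨true,0,⟨0,[(39,0)]⟩,⟨0,[(38,0)]⟩⟩,⟨true,0,⟨0,[(38,0)]⟩,⟨0,[(39,0)]⟩⟩,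
  ⟨false,1,⟨2,[(4,0),(12,0),(23,1)]⟩,⟨0,[]⟩⟩,[.o ⟨false,1,⟨1,[(28,1),(4,0),(7,0)]⟩,⟨1,[(1,1),(31,0),
  (7,0)]⟩⟩,.a ⟨true,1,⟨0,[(28,0),(12,0)]⟩,⟨0,[(1,0)]⟩⟩ ⟨false,0,⟨12,[(0,2),(4,8),(5,6),(5,0)]⟩,⟨0,
  [(4,0)]⟩⟩ ⟨true,0,⟨0,[(0,0)]⟩,⟨2,[(1,1),(0,0),(27,1),(2,0),(2,0)]⟩⟩,.e ⟨false,0,⟨12,[(0,4),(4,1),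
  (5,2),(5,5)]⟩,⟨0,[(2,0),(36,0)]⟩⟩ ⟨false,0,⟨0,[(0,0)]⟩,⟨4,[(2,1),(1,1),(1,0),(29,0),(3,0)]⟩⟩,.o
  ⟨false,1,⟨1,[(2,0),(25,0),(1,0),(2,0)]⟩,⟨0,[(14,0)]⟩⟩]⟩)))

theorem ok81 : chk K t81 r51 = true := by decide +kernel

noncomputable def t84 : Tre :=
  (.Q [0,0,-2,0,0,0,1,0,0,1,-1] (.p false [0,0,1] [1] (⟨0,[(28,0)]⟩,⟨0,[(27,0)]⟩) .k 1 (⟨0,[]⟩,⟨0,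
  []⟩) .k .k) (.S ⟨1,0,[0,0,-1,-2,0,0,0,-1],[1,-1,-1],[1,1,-1,-1,0,0,0,-1],(⟨0,[(17,0)]⟩,⟨0,[(29,0),
  (2,0)]⟩),⟨0,[(4,0)]⟩,.k,(.r (-1) ⟨0,[(5,0),(30,0),(0,0)]⟩ ⟨0,[(3,0)]⟩),⟨false,0,⟨0,[]⟩,⟨1,[(19,0),
  (0,0),(17,0)]⟩⟩,⟨true,0,⟨0,[(36,0)]⟩,⟨0,[(35,0)]⟩⟩,⟨true,0,⟨0,[(35,0)]⟩,⟨0,[(36,0)]⟩⟩,⟨false,1,⟨1,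
  [(19,0),(0,0),(17,0)]⟩,⟨0,[]⟩⟩,[.a ⟨true,0,⟨2,[(1,0),(0,1),(24,2),(8,4),(1,0)]⟩,⟨0,[(0,0),(2,
  0)]⟩⟩ ⟨false,0,⟨0,[(2,0)]⟩,⟨3,[(3,1),(20,1),(2,1),(9,0),(0,2)]⟩⟩ ⟨true,0,⟨2,[(1,0),(0,1),(33,4),
  (1,0)]⟩,⟨0,[(3,0)]⟩⟩,.o ⟨false,1,⟨5,[(1,1),(0,3),(24,5),(2,2),(5,9),(1,4)]⟩,⟨0,[(3,0),(5,0),(24,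
  0)]⟩⟩,.a ⟨true,0,⟨0,[(27,0)]⟩,⟨0,[(23,0)]⟩⟩ ⟨false,0,⟨2,[(1,0),(0,1),(33,1),(1,0)]⟩,⟨3,[(3,1),(20,
  1),(2,1),(9,0),(0,2)]⟩⟩ ⟨true,0,⟨2,[(1,0),(0,1),(33,4),(1,0)]⟩,⟨1,[(3,0),(11,0),(11,0),(6,0)]⟩⟩,
  .a ⟨true,0,⟨1,[(26,0),(0,2)]⟩,⟨0,[(0,0)]⟩⟩ ⟨true,0,⟨0,[(2,0)]⟩,⟨0,[(3,0),(32,0)]⟩⟩ ⟨false,1,⟨0,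
  [(2,0),(33,0),(1,0)]⟩,⟨0,[(3,0)]⟩⟩]⟩) (.I [1,0,-1,-1,1,0,0,1] (.N [0,-1,1] (-1) ⟨0,[(0,0)]⟩ ⟨0,
  [(2,0)]⟩ .k) (.Q [0,0,0,0,0,-2,0,0,0,0,1] (.p true [0,0,1] [] (⟨0,[(30,0)]⟩,⟨0,[(29,0)]⟩) .k 0
  (⟨0,[]⟩,⟨0,[]⟩) .k .k) (.I [1,-1,-2,-1,2,0,0,1] (.R ⟨1,false,false,true,[0,-1,1],[1,-1],[1,0,-1,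
  -1,0,0,0,1],(⟨0,[(21,0)]⟩,⟨0,[(31,0),(3,0)]⟩),(⟨0,[(34,0)]⟩,⟨0,[(35,0)]⟩),⟨0,[(1,0)]⟩,.k,.k,(.r
  (-2) ⟨0,[(0,0),(38,0),(3,0)]⟩ ⟨8,[(4,6),(3,0),(2,2),(1,1),(3,0)]⟩),.k,.k,.k,⟨false,2,⟨17,[(0,16),
  (5,4),(4,0),(5,3),(23,1)]⟩,⟨0,[(4,0),(32,0),(1,1)]⟩⟩,⟨true,1,⟨0,[(3,0),(36,0)]⟩,⟨0,[(4,0),(1,0),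
  (2,0),(2,0),(26,1)]⟩⟩,⟨true,0,⟨0,[]⟩,⟨0,[(43,0)]⟩⟩,⟨true,0,⟨2,[(3,2),(0,0),(0,1),(31,0),(2,0)]⟩,
  ⟨0,[(6,0),(2,0),(2,0),(26,0)]⟩⟩,⟨false,1,⟨8,[(0,1),(10,2),(5,1),(22,1),(0,2)]⟩,⟨0,[(39,0)]⟩⟩,
  ⟨true,0,⟨2,[(3,2),(0,1),(0,0),(31,1),(2,1)]⟩,⟨0,[(6,0),(2,0),(2,0),(26,1)]⟩⟩,[.o ⟨false,0,⟨0,[(3,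
  0),(8,0),(24,0),(1,0)]⟩,⟨8,[(0,1),(10,2),(5,1),(22,1),(0,2)]⟩⟩,.e ⟨false,2,⟨0,[(0,0)]⟩,⟨5,[(4,3),
  (0,0),(7,1),(3,0),(18,0)]⟩⟩ ⟨false,2,⟨1,[(0,0),(2,1),(1,0),(34,1)]⟩,⟨0,[(4,0),(1,0),(2,0),(2,0),
  (26,0)]⟩⟩,.a ⟨true,(-1),⟨0,[(4,0),(1,0),(2,0),(2,0),(26,1)]⟩,⟨0,[(30,0),(9,0)]⟩⟩ ⟨false,2,⟨2,[(0,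
  2),(2,0),(15,0),(10,0)]⟩,⟨0,[(2,0)]⟩⟩ ⟨true,1,⟨1,[(0,0),(2,1),(1,0),(31,1),(1,1)]⟩,⟨0,[(4,0),(1,
  0),(2,0),(2,0),(26,0)]⟩⟩,.o ⟨false,(-1),⟨0,[(4,0),(1,0),(5,0),(26,1)]⟩,⟨0,[(3,0),(36,1)]⟩⟩]⟩) (.Q
  [0,-1,0,-2,1,0,0,0,-1,-1,0,1] (.p true [0,0,0,0,1] [1] (⟨0,[(25,0)]⟩,⟨0,[(24,0)]⟩) .k 1 (⟨0,[]⟩,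
  ⟨0,[]⟩) .k .k) (.R ⟨1,true,false,false,[1,-1],[0,0,0,0,1],[0,1,-1,-2],(⟨0,[(35,0)]⟩,⟨0,[(36,0)]⟩),
  (⟨0,[(26,0)]⟩,⟨0,[(25,0)]⟩),⟨2,[(2,0),(5,0),(26,1)]⟩,.k,.k,(.r (-1) ⟨0,[(0,0),(16,0),(23,0)]⟩ ⟨8,
  [(4,0),(2,2),(4,2),(5,2),(1,0),(10,0)]⟩),(.r (-1) ⟨3,[(0,1),(9,1),(13,1),(16,0),(0,0)]⟩ ⟨2,[(7,0),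
  (10,0),(25,1)]⟩),(.r (-2) ⟨1,[(0,1),(9,1),(12,0),(0,2),(16,0)]⟩ ⟨5,[(1,0),(5,0),(4,0),(1,3),(23,
  1)]⟩),.k,⟨false,1,⟨0,[(0,0),(16,0),(23,0)]⟩,⟨1,[(12,0),(26,0)]⟩⟩,⟨true,0,⟨0,[(10,0),(13,0)]⟩,⟨11,
  [(0,9),(0,4),(5,4),(6,2),(8,1),(10,0),(3,1)]⟩⟩,⟨false,0,⟨0,[(40,0)]⟩,⟨8,[(7,1),(4,0),(5,1),(22,3),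
  (0,4)]⟩⟩,⟨true,(-1),⟨0,[(16,0)]⟩,⟨5,[(0,3),(13,0),(8,1),(10,0),(2,0),(0,0)]⟩⟩,⟨true,0,⟨0,[(44,
  0)]⟩,⟨0,[]⟩⟩,⟨false,0,⟨6,[(7,0),(2,4),(1,2),(3,1),(1,0),(5,4),(16,1)]⟩,⟨0,[(0,0)]⟩⟩,[]⟩) (.Q [0,0,
  -1,0,1,0,0,0,-1,0,0,1] (.p true [0,0,0,0,1] [] (⟨0,[(26,0)]⟩,⟨0,[(25,0)]⟩) .k 0 (⟨0,[]⟩,⟨0,[]⟩)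
  .k .k) (.I [0,-1,-2,-2,2,0,0,1] (.S ⟨1,0,[0,1,-1,-2,0,0,0,1],[0,-1,1],[0,0,-1,-2,0,0,0,1],(⟨0,
  [(24,0)]⟩,⟨0,[(34,0),(3,0)]⟩),⟨0,[(4,0)]⟩,.k,(.r (-2) ⟨0,[(0,0),(45,0)]⟩ ⟨6,[(3,1),(3,2),(3,0),(2,
  2),(5,0)]⟩),⟨true,0,⟨0,[(42,0)]⟩,⟨0,[(41,0)]⟩⟩,⟨false,0,⟨0,[(42,0)]⟩,⟨9,[(0,1),(13,3),(5,1),(22,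
  2),(0,2)]⟩⟩,⟨false,1,⟨12,[(0,2),(8,0),(10,3),(23,6)]⟩,⟨0,[]⟩⟩,⟨true,0,⟨0,[(46,0)]⟩,⟨0,[]⟩⟩,[.o
  ⟨false,0,⟨0,[(30,0),(11,1)]⟩,⟨0,[(6,0),(0,0),(32,0),(2,0),(0,0)]⟩⟩,.e ⟨false,2,⟨0,[(0,0)]⟩,⟨6,[(3,
  1),(3,2),(6,0),(5,1),(19,3)]⟩⟩ ⟨false,2,⟨0,[(0,0),(45,0)]⟩,⟨0,[(3,0),(36,0),(3,0)]⟩⟩,.a ⟨true,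
  (-1),⟨2,[(3,1),(5,1),(2,1),(2,1),(13,0),(12,3),(1,0)]⟩,⟨0,[(33,0),(9,0)]⟩⟩ ⟨false,2,⟨2,[(0,2),(5,
  0),(15,0),(10,0)]⟩,⟨0,[(3,0),(36,0),(3,0)]⟩⟩ ⟨true,1,⟨1,[(0,0),(29,0),(2,0),(5,0),(2,1)]⟩,⟨0,[(3,
  0),(36,0),(3,0)]⟩⟩,.o ⟨false,(-1),⟨5,[(3,3),(5,3),(5,4),(16,0),(9,6),(1,1)]⟩,⟨0,[(6,0),(36,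
  1)]⟩⟩]⟩) (.Q [0,0,0,0,1,0,0,0,-1,-1,0,1] (.p true [0,0,0,0,1] [1] (⟨0,[(28,0)]⟩,⟨0,[(27,0)]⟩) .k
  1 (⟨0,[]⟩,⟨0,[]⟩) .k .k) (.Q [0,0,0,0,0,-1,0,0,0,0,0,1] (.ed false [1,-1,0,0,1] .k) (.Q [0,0,1,1,
  -1,0,0,0,1,1,0,-1] (.p false [0,0,0,0,1] [1] (⟨0,[(30,0)]⟩,⟨0,[(29,0)]⟩) .k 1 (⟨0,[]⟩,⟨0,[]⟩) .k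
  .k) (.R ⟨1,false,false,false,[0,0,0,0,1],[1,-1],[1,2],(⟨0,[(31,0)]⟩,⟨0,[(30,0)]⟩),(⟨0,[(40,0)]⟩,
  ⟨0,[(41,0)]⟩),⟨0,[(1,0)]⟩,.k,.k,(.r 0 ⟨0,[(43,0),(1,1)]⟩ ⟨2,[(12,0),(10,0),(4,0),(0,0),(17,1)]⟩),
  (.r 0 ⟨2,[(12,0),(10,0),(25,1)]⟩ ⟨1,[(45,1),(0,0),(0,0)]⟩),.k,.k,⟨true,(-1),⟨1,[(6,0),(17,0),(11,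
  0),(5,0)]⟩,⟨0,[(45,0),(1,0)]⟩⟩,⟨false,1,⟨0,[(2,0)]⟩,⟨0,[(15,0),(13,0)]⟩⟩,⟨false,0,⟨0,[]⟩,⟨1,[(28,
  0),(0,0),(17,0)]⟩⟩,⟨false,2,⟨0,[(2,0),(42,0),(1,0)]⟩,⟨0,[(21,0)]⟩⟩,⟨true,0,⟨0,[(44,0)]⟩,⟨0,[(45,
  0)]⟩⟩,⟨false,2,⟨0,[(2,0),(44,0)]⟩,⟨0,[(22,0)]⟩⟩,[.a ⟨true,0,⟨0,[(45,0)]⟩,⟨6,[(0,0),(11,0),(2,5),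
  (1,0),(5,0),(4,0)]⟩⟩ ⟨false,0,⟨0,[(42,0)]⟩,⟨0,[(47,0)]⟩⟩ ⟨true,1,⟨0,[(2,0),(42,0)]⟩,⟨0,[(0,0)]⟩⟩,
  .o ⟨false,1,⟨1,[(39,0),(5,1),(1,0)]⟩,⟨0,[(44,0)]⟩⟩,.o ⟨false,0,⟨0,[(29,0)]⟩,⟨0,[(2,0)]⟩⟩,.e
  ⟨false,0,⟨0,[(43,0),(1,0)]⟩,⟨2,[(9,0),(15,0),(10,0),(10,2)]⟩⟩ ⟨false,2,⟨1,[(4,1),(34,0),(5,1),(1,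
  0)]⟩,⟨0,[(0,0)]⟩⟩]⟩) (.Q [0,0,1,0,-1,0,0,0,1,1,0,-1] (.p false [0,0,0,0,1] [1] (⟨0,[(31,0)]⟩,⟨0,
  [(30,0)]⟩) .k 1 (⟨0,[]⟩,⟨0,[]⟩) .k .k) (.S ⟨1,0,[0,1,0,-1],[0,0,0,0,1],[1,2],(⟨0,[(32,0)]⟩,⟨0,
  [(31,0)]⟩),⟨0,[(2,0)]⟩,.k,(.r 0 ⟨0,[(1,0),(21,0)]⟩ ⟨2,[(13,0),(10,0),(4,0),(0,0),(17,1)]⟩),⟨false,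
  0,⟨0,[]⟩,⟨1,[(29,0),(0,0),(17,0)]⟩⟩,⟨true,0,⟨0,[(46,0)]⟩,⟨0,[(45,0)]⟩⟩,⟨true,0,⟨0,[(45,0)]⟩,⟨0,
  [(46,0)]⟩⟩,⟨false,1,⟨1,[(29,0),(0,0),(17,0)]⟩,⟨0,[]⟩⟩,[.e ⟨false,0,⟨0,[(43,0)]⟩,⟨0,[(48,0)]⟩⟩
  ⟨false,0,⟨0,[(1,0),(21,0)]⟩,⟨8,[(13,1),(4,0),(5,1),(22,3),(0,4)]⟩⟩,.o ⟨false,0,⟨0,[(30,0),(15,
  0)]⟩,⟨2,[(1,0),(1,1),(14,0),(25,0)]⟩⟩,.o ⟨false,0,⟨0,[(30,0)]⟩,⟨0,[(3,0)]⟩⟩,.a ⟨true,(-1),⟨0,[(0,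
  0)]⟩,⟨0,[(5,0)]⟩⟩ ⟨false,0,⟨1,[(1,0),(21,0),(20,0)]⟩,⟨4,[(0,0),(9,1),(15,0),(2,0),(18,4)]⟩⟩ ⟨true,
  0,⟨0,[(1,0),(21,0)]⟩,⟨29,[(0,0),(9,1),(2,4),(4,4),(5,4),(1,0),(2,0)]⟩⟩]⟩) (.S ⟨1,0,[0,2,0,-1],[0,
  0,0,0,1],[1,1],(⟨0,[(32,0)]⟩,⟨0,[(31,0)]⟩),⟨0,[(2,0)]⟩,.k,(.r 0 ⟨0,[(1,0),(21,0)]⟩ ⟨2,[(13,0),(10,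
  0),(4,0),(0,0),(17,1)]⟩),⟨true,0,⟨0,[]⟩,⟨0,[(50,0)]⟩⟩,⟨false,0,⟨0,[(46,0)]⟩,⟨8,[(13,1),(4,0),(5,
  1),(22,3),(0,4)]⟩⟩,⟨false,1,⟨8,[(13,1),(4,0),(5,1),(22,3),(0,4)]⟩,⟨0,[(46,0)]⟩⟩,⟨true,0,⟨0,[(50,
  0)]⟩,⟨0,[]⟩⟩,[.o ⟨false,(-1),⟨0,[(17,0),(28,1)]⟩,⟨5,[(0,1),(2,1),(1,1),(12,1),(21,0),(7,4)]⟩⟩,.a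
  ⟨true,(-1),⟨0,[(23,0),(22,0)]⟩,⟨2,[(0,0),(4,1),(1,0),(5,0),(2,0),(31,1)]⟩⟩ ⟨true,0,⟨0,[]⟩,⟨2,[(10,
  0),(15,0),(10,0)]⟩⟩ ⟨false,0,⟨0,[(1,0),(21,0)]⟩,⟨8,[(13,1),(4,0),(5,1),(22,3),(0,4)]⟩⟩,.o ⟨false,
  0,⟨0,[(30,0)]⟩,⟨0,[(3,0)]⟩⟩,.o ⟨false,0,⟨2,[(10,0),(15,0),(3,2),(6,0)]⟩,⟨0,[(0,0)]⟩⟩]⟩))) (.Q [0,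
  0,1,1,-1,0,0,0,1,1,0,-1] (.p false [0,0,0,0,1] [1] (⟨0,[(30,0)]⟩,⟨0,[(29,0)]⟩) .k 1 (⟨0,[]⟩,⟨0,
  []⟩) .k .k) (.R ⟨0,false,false,true,[0,0,0,0,1],[1,-1],[1,0,1],(⟨0,[(31,0)]⟩,⟨0,[(30,0)]⟩),(⟨0,
  [(40,0)]⟩,⟨0,[(41,0)]⟩),⟨0,[(1,0)]⟩,.k,.k,(.r 0 ⟨0,[(43,0),(1,1)]⟩ ⟨2,[(12,0),(10,0),(4,0),(0,0),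
  (17,1)]⟩),(.r 0 ⟨2,[(12,0),(10,0),(25,1)]⟩ ⟨1,[(45,1),(0,0),(0,0)]⟩),.k,.k,⟨true,0,⟨0,[(19,0),(27,
  0)]⟩,⟨0,[(43,0),(1,1)]⟩⟩,⟨false,1,⟨0,[(2,0)]⟩,⟨0,[(15,0),(13,0)]⟩⟩,⟨false,1,⟨2,[(9,0),(15,0),(10,
  0),(10,2)]⟩,⟨0,[(43,0),(1,0)]⟩⟩,⟨true,1,⟨0,[(2,0),(42,0)]⟩,⟨0,[(21,0)]⟩⟩,⟨false,0,⟨0,[]⟩,⟨0,[]⟩⟩,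
  ⟨false,0,⟨0,[]⟩,⟨0,[]⟩⟩,[.o ⟨false,0,⟨0,[(9,0),(8,0),(24,0),(1,0)]⟩,⟨8,[(12,1),(4,0),(5,1),(22,3),
  (0,4)]⟩⟩,.a ⟨true,0,⟨0,[(45,0)]⟩,⟨6,[(0,0),(11,0),(2,5),(1,0),(5,0),(4,0)]⟩⟩ ⟨false,1,⟨1,[(28,0),
  (0,0),(17,0)]⟩,⟨0,[(43,0),(1,0)]⟩⟩ ⟨true,1,⟨0,[(2,0),(42,0)]⟩,⟨0,[(0,0)]⟩⟩,.o ⟨false,0,⟨0,[(29,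
  0)]⟩,⟨0,[(2,0)]⟩⟩,.e ⟨true,0,⟨0,[]⟩,⟨0,[(49,0)]⟩⟩ ⟨true,1,⟨0,[(2,0),(40,0),(1,1)]⟩,⟨0,[(0,
  0)]⟩⟩]⟩) (.Q [0,0,1,0,-1,0,0,0,1,1,0,-1] (.p false [0,0,0,0,1] [1] (⟨0,[(31,0)]⟩,⟨0,[(30,0)]⟩) .k
  1 (⟨0,[]⟩,⟨0,[]⟩) .k .k) (.R ⟨0,false,false,false,[0,0,0,0,1],[1,-1],[1,1,1],(⟨0,[(32,0)]⟩,⟨0,
  [(31,0)]⟩),(⟨0,[(41,0)]⟩,⟨0,[(42,0)]⟩),⟨0,[(2,0)]⟩,.k,.k,(.r 0 ⟨0,[(1,0),(21,0)]⟩ ⟨2,[(13,0),(10,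
  0),(4,0),(0,0),(17,1)]⟩),(.r 0 ⟨2,[(13,0),(10,0),(25,1)]⟩ ⟨1,[(46,1),(0,0),(0,0)]⟩),.k,.k,⟨true,
  (-1),⟨0,[(20,0)]⟩,⟨1,[(46,1),(0,0),(0,0)]⟩⟩,⟨false,1,⟨0,[(3,0)]⟩,⟨0,[(16,0),(13,0)]⟩⟩,⟨true,0,⟨4,
  [(0,0),(9,1),(15,0),(2,0)]⟩,⟨1,[(1,0),(21,0),(20,0)]⟩⟩,⟨false,2,⟨3,[(1,2),(8,0),(18,0),(6,0),(9,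
  0),(1,3)]⟩,⟨0,[(22,0)]⟩⟩,⟨false,0,⟨0,[]⟩,⟨0,[]⟩⟩,⟨false,0,⟨0,[]⟩,⟨0,[]⟩⟩,[.e ⟨false,0,⟨0,[(50,
  0)]⟩,⟨1,[(47,0),(0,0)]⟩⟩ ⟨false,1,⟨0,[(1,0)]⟩,⟨15,[(0,0),(5,1),(6,3),(2,12),(7,3),(5,12),(17,
  2)]⟩⟩,.o ⟨false,1,⟨1,[(40,0),(5,1),(1,0)]⟩,⟨0,[(45,0)]⟩⟩,.o ⟨false,0,⟨0,[(30,0)]⟩,⟨0,[(3,0)]⟩⟩,.a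
  ⟨true,(-1),⟨0,[(0,0)]⟩,⟨0,[(5,0)]⟩⟩ ⟨false,0,⟨0,[]⟩,⟨1,[(29,0),(0,0),(17,0)]⟩⟩ ⟨true,1,⟨0,[(1,
  0)]⟩,⟨7,[(0,1),(5,0),(6,1),(9,4),(0,1)]⟩⟩]⟩) (.R ⟨0,false,false,true,[0,0,0,0,1],[0,1],[1,1,1,1],
  (⟨0,[(32,0)]⟩,⟨0,[(31,0)]⟩),(⟨0,[(42,0)]⟩,⟨0,[(41,0)]⟩),⟨0,[(2,0)]⟩,.k,.k,(.r 0 ⟨0,[(1,0),(21,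
  0)]⟩ ⟨2,[(13,0),(10,0),(4,0),(0,0),(17,1)]⟩),(.r 0 ⟨0,[(1,0),(21,0)]⟩ ⟨2,[(13,0),(10,0),(4,0),(0,
  0),(17,1)]⟩),.k,.k,⟨true,0,⟨0,[]⟩,⟨2,[(10,0),(15,0),(10,0)]⟩⟩,⟨false,1,⟨0,[(0,0),(15,0)]⟩,⟨2,[(10,
  0),(15,0),(3,2),(6,0)]⟩⟩,⟨true,0,⟨17,[(10,0),(2,2),(4,2),(5,2),(1,0),(10,0)]⟩,⟨0,[(1,0),(21,0)]⟩⟩,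
  ⟨false,1,⟨2,[(0,0),(4,1),(1,0),(5,0),(2,0),(31,1)]⟩,⟨0,[(30,0),(15,0)]⟩⟩,⟨false,0,⟨0,[]⟩,⟨0,[]⟩⟩,
  ⟨false,0,⟨0,[]⟩,⟨0,[]⟩⟩,[.o ⟨false,0,⟨0,[(45,0)]⟩,⟨1,[(40,0),(5,1),(1,0)]⟩⟩,.a ⟨true,0,⟨17,[(13,
  2),(2,16),(1,2),(5,2),(1,0),(10,1)]⟩,⟨0,[(46,0)]⟩⟩ ⟨true,0,⟨17,[(10,0),(2,2),(4,2),(5,2),(1,0),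
  (10,0)]⟩,⟨0,[(46,0)]⟩⟩ ⟨false,1,⟨3,[(0,0),(4,2),(10,0),(1,0),(25,0)]⟩,⟨0,[(30,0),(15,0)]⟩⟩,.o
  ⟨false,0,⟨0,[(30,0)]⟩,⟨0,[(3,0)]⟩⟩,.o ⟨false,0,⟨2,[(10,0),(15,0),(3,2),(6,0)]⟩,⟨0,[(0,0)]⟩⟩]⟩))))
  (.R ⟨2,true,false,true,[0,1],[1,0,0,0,-1],[1,1,1,1],(⟨0,[]⟩,⟨0,[]⟩),(⟨0,[(28,0)]⟩,⟨0,[(29,0)]⟩),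
  ⟨0,[]⟩,.k,.k,.k,(.r 0 ⟨2,[(10,0),(10,0),(25,1)]⟩ ⟨1,[(43,1),(0,0),(0,0)]⟩),.k,.k,⟨false,0,⟨0,[(42,
  0)]⟩,⟨1,[(43,1),(0,0),(0,0)]⟩⟩,⟨true,1,⟨21,[(2,21),(1,1),(2,15),(2,1),(5,5),(16,9),(3,2),(7,0)]⟩,
  ⟨0,[(0,0)]⟩⟩,⟨false,0,⟨0,[]⟩,⟨1,[(26,0),(0,0),(17,0)]⟩⟩,⟨true,1,⟨0,[(2,0),(4,0),(8,0)]⟩,⟨0,[(19,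
  0)]⟩⟩,⟨true,0,⟨0,[(42,0)]⟩,⟨0,[(43,0)]⟩⟩,⟨false,2,⟨1,[(26,1),(10,0),(7,0)]⟩,⟨0,[(0,0)]⟩⟩,[]⟩)))
  (.Q [0,0,0,-1,-1,0,0,0,1,0,0,-1] (.p false [0,0,0,0,1] [] (⟨0,[(27,0)]⟩,⟨0,[(26,0)]⟩) .k 0 (⟨0,
  []⟩,⟨0,[]⟩) .k .k) (.R ⟨2,true,false,false,[0,1],[0,0,0,0,1],[1,0,1,1],(⟨0,[]⟩,⟨0,[]⟩),(⟨0,[(28,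
  0)]⟩,⟨0,[(27,0)]⟩),⟨0,[]⟩,.k,.k,.k,(.r (-1) ⟨2,[(9,0),(10,0),(4,0),(0,0),(17,1)]⟩ ⟨0,[(40,0),(1,
  1)]⟩),.k,.k,⟨false,1,⟨8,[(9,1),(4,0),(5,1),(22,3),(0,4)]⟩,⟨0,[(40,0),(1,1)]⟩⟩,⟨true,(-1),⟨0,[(1,
  0)]⟩,⟨0,[(25,0)]⟩⟩,⟨true,0,⟨0,[]⟩,⟨0,[(46,0)]⟩⟩,⟨false,(-1),⟨0,[(0,0)]⟩,⟨8,[(9,1),(4,0),(5,1),(4,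
  8),(17,3),(0,4)]⟩⟩,⟨false,1,⟨8,[(9,1),(4,0),(5,1),(22,3),(0,4)]⟩,⟨0,[(42,0)]⟩⟩,⟨true,(-1),⟨1,[(0,
  0),(12,0)]⟩,⟨0,[(25,0)]⟩⟩,[]⟩) (.Q [0,0,0,0,0,1,0,0,0,0,0,-1] (.ed true [1,-1,0,0,1] .k) (.R ⟨0,
  false,false,true,[0,0,0,0,1],[0,1],[],(⟨0,[(29,0)]⟩,⟨0,[(28,0)]⟩),(⟨0,[(39,0)]⟩,⟨0,[(38,0)]⟩),⟨0,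
  [(0,0)]⟩,.k,.k,(.r 0 ⟨0,[(41,0),(1,1)]⟩ ⟨2,[(10,0),(10,0),(4,0),(0,0),(17,1)]⟩),(.r 0 ⟨0,[(41,0),
  (1,1)]⟩ ⟨2,[(10,0),(10,0),(4,0),(0,0),(17,1)]⟩),.k,.k,⟨true,1,⟨1,[(43,1),(0,0),(0,0)]⟩,⟨0,[(17,
  0)]⟩⟩,⟨false,2,⟨0,[(26,0),(17,0)]⟩,⟨0,[(2,0)]⟩⟩,⟨false,1,⟨0,[(45,0)]⟩,⟨0,[(47,0)]⟩⟩,⟨true,1,⟨0,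
  [(1,0)]⟩,⟨0,[(2,0),(38,0),(1,1)]⟩⟩,⟨false,0,⟨0,[]⟩,⟨0,[]⟩⟩,⟨false,0,⟨0,[]⟩,⟨0,[]⟩⟩,[.o ⟨false,0,
  ⟨0,[(42,0)]⟩,⟨1,[(37,0),(5,1),(1,0)]⟩⟩,.a ⟨true,0,⟨17,[(10,2),(2,16),(1,2),(5,2),(1,0),(10,1)]⟩,
  ⟨0,[(43,0)]⟩⟩ ⟨false,1,⟨1,[(44,0),(0,0)]⟩,⟨0,[(47,0)]⟩⟩ ⟨true,1,⟨0,[(1,0)]⟩,⟨0,[(2,0),(40,0)]⟩⟩,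
  .e ⟨false,1,⟨1,[(26,0),(0,0),(17,0)]⟩,⟨0,[]⟩⟩ ⟨false,1,⟨0,[(1,0)]⟩,⟨1,[(2,1),(40,1),(0,0),(0,
  0)]⟩⟩,.o ⟨false,(-1),⟨0,[(2,0)]⟩,⟨1,[(26,1),(10,0),(6,0)]⟩⟩]⟩) (.S ⟨1,0,[0,1,0,-1],[0,0,0,0,1],[1,
  2],(⟨0,[(29,0)]⟩,⟨0,[(28,0)]⟩),⟨0,[(0,0)]⟩,.k,(.r 0 ⟨0,[(41,0),(1,1)]⟩ ⟨2,[(10,0),(10,0),(4,0),(0,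
  0),(17,1)]⟩),⟨false,0,⟨0,[]⟩,⟨1,[(26,0),(0,0),(17,0)]⟩⟩,⟨true,0,⟨0,[(43,0)]⟩,⟨0,[(42,0)]⟩⟩,⟨true,
  0,⟨0,[(42,0)]⟩,⟨0,[(43,0)]⟩⟩,⟨false,1,⟨1,[(26,0),(0,0),(17,0)]⟩,⟨0,[]⟩⟩,[.o ⟨false,(-1),⟨0,[(2,0),
  (38,0),(1,1)]⟩,⟨1,[(1,1),(35,0),(7,0)]⟩⟩,.a ⟨true,(-1),⟨0,[(2,0),(10,0),(29,0)]⟩,⟨0,[(1,0)]⟩⟩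
  ⟨false,0,⟨0,[(41,0),(1,0)]⟩,⟨1,[(26,0),(0,0),(17,0)]⟩⟩ ⟨true,0,⟨0,[(43,0)]⟩,⟨17,[(7,0),(2,2),(4,
  2),(5,2),(1,0),(10,0)]⟩⟩,.e ⟨false,0,⟨0,[(47,0)]⟩,⟨0,[(45,0)]⟩⟩ ⟨false,0,⟨0,[(43,0)]⟩,⟨4,[(1,1),
  (13,0),(11,1),(16,0),(0,1)]⟩⟩,.o ⟨false,(-1),⟨0,[(2,0)]⟩,⟨1,[(26,1),(10,0),(6,0)]⟩⟩]⟩)))))) (.Q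
  [0,0,-1,-1,1,0,-2,-1,0,-1,2] (.p true [0,0,1] [1,0,-1] (⟨0,[(31,0)]⟩,⟨0,[(30,0)]⟩) .k 2 (⟨0,[(30,
  0)]⟩,⟨0,[(31,0)]⟩) .k (.r (-2) ⟨0,[(26,1),(2,1),(9,0),(0,0)]⟩ ⟨2,[(3,3),(0,1),(33,1),(1,0)]⟩))
  (.R ⟨0,false,false,false,[0,-1,1],[1,-1,-1],[0,1],(⟨0,[(21,0)]⟩,⟨5,[(1,2),(7,1),(9,0),(10,1),(0,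
  2)]⟩),(⟨0,[(20,0)]⟩,⟨1,[(1,0),(30,2)]⟩),⟨0,[(1,0)]⟩,.k,.k,(.r (-2) ⟨0,[(0,0),(8,0),(17,1),(11,0),
  (1,0)]⟩ ⟨8,[(4,6),(3,0),(2,2),(1,1),(3,0)]⟩),.k,.k,.k,⟨true,0,⟨0,[(18,0),(11,0)]⟩,⟨5,[(0,0),(3,3),
  (3,0),(0,0),(2,1),(26,5),(1,2)]⟩⟩,⟨false,2,⟨3,[(0,3),(5,1),(20,1),(2,1),(9,2),(0,0)]⟩,⟨0,[(4,0),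
  (1,0),(2,0),(2,1),(26,0)]⟩⟩,⟨false,(-1),⟨0,[(2,0)]⟩,⟨2,[(0,1),(8,1),(17,4),(2,0),(8,0),(1,3)]⟩⟩,
  ⟨true,0,⟨0,[(0,0),(3,0)]⟩,⟨0,[(6,0),(2,0),(2,0),(14,0),(11,0)]⟩⟩,⟨false,0,⟨0,[]⟩,⟨0,[]⟩⟩,⟨false,0,
  ⟨0,[]⟩,⟨0,[]⟩⟩,[.a ⟨true,0,⟨2,[(0,0),(3,0),(3,0),(0,0),(20,0),(8,1)]⟩,⟨0,[(6,0),(2,0),(2,0)]⟩⟩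
  ⟨false,0,⟨0,[(37,0),(1,0)]⟩,⟨1,[(22,0),(0,0),(17,0)]⟩⟩ ⟨true,1,⟨0,[(0,0)]⟩,⟨0,[(4,0),(1,1),(2,0),
  (2,1),(26,1)]⟩⟩,.o ⟨false,1,⟨21,[(0,9),(2,5),(0,1),(3,9),(3,3),(20,2),(7,10)]⟩,⟨0,[(18,0)]⟩⟩,.e
  ⟨true,0,⟨0,[(43,0)]⟩,⟨0,[]⟩⟩ ⟨true,1,⟨0,[(0,0)]⟩,⟨0,[(6,0),(2,0),(2,1),(0,0)]⟩⟩,.o ⟨false,(-1),⟨0,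
  [(4,0),(1,0),(5,0),(26,1)]⟩,⟨5,[(0,3),(5,1),(20,1),(5,0),(6,5),(0,0)]⟩⟩]⟩) (.Q [0,0,0,0,0,0,-2,-2,
  0,-1,2] (.p true [0,0,1] [1,0,-1] (⟨0,[(32,0)]⟩,⟨0,[(31,0)]⟩) .k 2 (⟨0,[(31,0)]⟩,⟨0,[(32,0)]⟩) .k
  (.r (-2) ⟨0,[(27,1),(2,1),(9,0),(0,0)]⟩ ⟨2,[(4,3),(0,1),(33,1),(1,0)]⟩)) (.R ⟨0,false,false,false,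
  [0,-1,1],[1,-1,-1],[0,1],(⟨0,[(22,0)]⟩,⟨5,[(2,2),(7,1),(9,0),(10,1),(0,2)]⟩),(⟨0,[(21,0)]⟩,⟨1,[(2,
  0),(30,2)]⟩),⟨0,[(2,0)]⟩,.k,.k,(.r (-2) ⟨1,[(28,1),(2,1),(8,3),(0,2),(0,0)]⟩ ⟨8,[(5,6),(3,0),(2,
  2),(1,1),(3,0)]⟩),.k,.k,.k,⟨true,0,⟨0,[(19,0),(11,0)]⟩,⟨5,[(0,0),(4,2),(3,0),(0,0),(2,1),(26,5),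
  (1,2)]⟩⟩,⟨false,2,⟨0,[(4,0),(26,0),(9,1)]⟩,⟨2,[(1,1),(3,0),(3,0),(0,0),(2,1)]⟩⟩,⟨false,(-1),⟨0,
  [(3,0)]⟩,⟨0,[(28,0),(2,0),(8,0),(0,0),(0,0)]⟩⟩,⟨true,0,⟨0,[(0,0)]⟩,⟨2,[(1,0),(8,1),(17,4),(2,0),
  (8,0),(1,0)]⟩⟩,⟨false,0,⟨0,[]⟩,⟨0,[]⟩⟩,⟨false,0,⟨0,[]⟩,⟨0,[]⟩⟩,[.e ⟨false,0,⟨0,[(38,0),(1,0)]⟩,⟨1,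
  [(23,0),(0,0),(17,0)]⟩⟩ ⟨false,2,⟨5,[(0,1),(3,3),(24,1),(1,1),(8,5),(0,10),(0,0)]⟩,⟨0,[(1,0)]⟩⟩,
  .o ⟨false,1,⟨2,[(0,0),(28,0),(4,0),(5,2),(1,1)]⟩,⟨0,[(19,0)]⟩⟩,.a ⟨true,(-1),⟨2,[(1,1),(3,0),(3,
  0),(0,0),(20,0),(8,1)]⟩,⟨0,[(31,0),(9,0)]⟩⟩ ⟨true,0,⟨0,[(44,0)]⟩,⟨0,[]⟩⟩ ⟨false,2,⟨2,[(0,0),(3,1),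
  (24,0),(1,0),(8,2),(0,3),(0,1)]⟩,⟨0,[(1,0)]⟩⟩,.o ⟨false,(-1),⟨2,[(1,1),(2,1),(0,0),(3,0),(3,0),
  (26,0)]⟩,⟨0,[(4,0),(36,1)]⟩⟩]⟩) (.I [0,-1,-2,-1,2,0,0,1] (.R ⟨0,false,false,true,[0,-1,1],[1,-1],
  [0,0,-1,-1,0,0,0,1],(⟨0,[(23,0)]⟩,⟨5,[(3,2),(7,1),(9,0),(10,1),(0,2)]⟩),(⟨0,[(36,0)]⟩,⟨0,[(37,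
  0)]⟩),⟨0,[(3,0)]⟩,.k,.k,(.r (-2) ⟨0,[(0,0),(40,0),(3,0)]⟩ ⟨8,[(6,6),(3,0),(2,2),(1,1),(3,0)]⟩),.k,
  .k,.k,⟨false,2,⟨17,[(0,16),(7,4),(4,0),(5,3),(23,1)]⟩,⟨0,[(6,0),(32,0),(1,1)]⟩⟩,⟨true,1,⟨0,[(5,0),
  (36,0)]⟩,⟨2,[(2,1),(3,0),(3,0),(0,0),(20,0),(8,1)]⟩⟩,⟨false,1,⟨11,[(0,2),(4,0),(13,2),(1,0),(10,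
  0),(10,5)]⟩,⟨0,[]⟩⟩,⟨true,0,⟨2,[(5,2),(0,0),(0,1),(31,0),(2,0)]⟩,⟨5,[(1,2),(9,1),(9,0),(10,1)]⟩⟩,
  ⟨false,0,⟨0,[]⟩,⟨0,[]⟩⟩,⟨false,0,⟨0,[]⟩,⟨0,[]⟩⟩,[.o ⟨false,0,⟨0,[(5,0),(8,0),(24,0),(1,0)]⟩,⟨8,
  [(0,1),(12,2),(5,1),(22,1),(0,2)]⟩⟩,.e ⟨false,2,⟨0,[(0,0)]⟩,⟨5,[(6,3),(0,0),(7,1),(3,0),(18,0)]⟩⟩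
  ⟨false,2,⟨1,[(0,0),(4,1),(1,0),(34,1)]⟩,⟨5,[(2,2),(3,2),(4,1),(9,0),(10,1)]⟩⟩,.a ⟨true,(-1),⟨2,
  [(2,1),(3,0),(3,0),(0,0),(20,0),(8,1)]⟩,⟨0,[(32,0),(9,0)]⟩⟩ ⟨false,2,⟨2,[(0,2),(4,0),(15,0),(10,
  0)]⟩,⟨0,[(6,0)]⟩⟩ ⟨true,1,⟨1,[(0,0),(4,1),(1,0),(31,1),(1,1)]⟩,⟨5,[(2,2),(3,2),(4,1),(9,0),(10,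
  1)]⟩⟩,.o ⟨false,(-1),⟨2,[(2,1),(2,1),(0,0),(3,0),(3,0),(26,0)]⟩,⟨0,[(5,0),(36,1)]⟩⟩]⟩) (.Q [0,0,0,
  -1,0,0,-2,-2,0,-1,2] (.p true [0,0,1] [1,0,-1] (⟨0,[(34,0)]⟩,⟨0,[(33,0)]⟩) .k 2 (⟨0,[(33,0)]⟩,⟨0,
  [(34,0)]⟩) .k (.r (-2) ⟨1,[(1,1),(3,1),(18,0),(0,0),(6,1),(9,2)]⟩ ⟨0,[(0,0),(6,0),(35,0)]⟩)) (.R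
  ⟨1,true,false,false,[1,0,-1],[0,0,1],[1,1,0,0,0,0,0,-1],(⟨0,[(34,0)]⟩,⟨0,[(35,0)]⟩),(⟨0,[(35,0)]⟩,
  ⟨0,[(34,0)]⟩),⟨0,[(23,0)]⟩,.k,.k,.k,.k,(.r 0 ⟨2,[(0,0),(6,0),(0,1),(2,0),(10,0),(21,0)]⟩ ⟨1,[(2,
  1),(3,1),(26,1),(6,1),(2,0),(0,0)]⟩),.k,⟨false,(-1),⟨0,[(7,0),(0,0)]⟩,⟨1,[(2,1),(3,1),(26,1),(9,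
  2),(0,0)]⟩⟩,⟨true,(-1),⟨5,[(1,1),(1,2),(7,0),(0,0),(2,3),(13,1),(14,0)]⟩,⟨0,[(6,0),(26,0),(9,
  0)]⟩⟩,⟨false,0,⟨0,[]⟩,⟨1,[(25,0),(0,0),(17,0)]⟩⟩,⟨true,0,⟨0,[(2,0)]⟩,⟨0,[(0,0),(40,0)]⟩⟩,⟨true,0,
  ⟨0,[(41,0)]⟩,⟨0,[(42,0)]⟩⟩,⟨false,1,⟨3,[(2,2),(6,1),(12,0),(20,1),(0,1)]⟩,⟨0,[(0,0)]⟩⟩,[]⟩) (.Q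
  [0,0,0,-2,0,0,-2,-2,0,-1,2] (.p true [0,0,1] [1,0,-1] (⟨0,[(35,0)]⟩,⟨0,[(34,0)]⟩) .k 2 (⟨0,[(34,
  0)]⟩,⟨0,[(35,0)]⟩) .k (.r (-2) ⟨1,[(2,1),(3,1),(18,0),(0,0),(6,1),(9,2)]⟩ ⟨0,[(1,0),(6,0),(35,
  0)]⟩)) (.R ⟨1,true,false,false,[1,0,-1],[0,1,1],[1,1,0,0,0,0,0,-1],(⟨0,[(35,0)]⟩,⟨0,[(36,0)]⟩),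
  (⟨1,[(5,0),(30,2)]⟩,⟨0,[(24,0)]⟩),⟨0,[(24,0)]⟩,.k,.k,.k,(.r 0 ⟨11,[(8,4),(0,8),(2,8),(8,0),(23,
  4)]⟩ ⟨0,[(1,0),(5,0),(26,0),(9,0)]⟩),(.r 0 ⟨6,[(0,3),(7,1),(0,3),(6,3),(13,3),(14,1)]⟩ ⟨3,[(3,1),
  (3,1),(2,3),(15,0),(0,0),(6,1),(9,2)]⟩),.k,⟨true,(-1),⟨2,[(0,0),(1,0),(5,0),(0,1),(6,0),(13,0)]⟩,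
  ⟨1,[(1,1),(5,1),(26,1),(9,0),(0,0)]⟩⟩,⟨false,0,⟨2,[(4,0),(3,0),(7,1),(13,1),(13,1)]⟩,⟨0,[(7,0),
  (26,0),(9,0)]⟩⟩,⟨false,0,⟨0,[]⟩,⟨1,[(26,0),(0,0),(17,0)]⟩⟩,⟨true,0,⟨0,[(1,0)]⟩,⟨28,[(0,18),(1,1),
  (4,1),(24,17),(4,3),(2,0),(0,6)]⟩⟩,⟨true,0,⟨0,[(42,0)]⟩,⟨0,[(43,0)]⟩⟩,⟨false,1,⟨8,[(1,6),(8,3),(4,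
  0),(7,1),(20,4),(0,3)]⟩,⟨0,[(0,0)]⟩⟩,[]⟩) (.Q [0,-1,0,-2,1,0,0,0,-1,-1,0,1] (.p true [0,0,0,0,1]
  [1] (⟨0,[(29,0)]⟩,⟨0,[(28,0)]⟩) .k 1 (⟨0,[]⟩,⟨0,[]⟩) .k .k) (.R ⟨1,true,false,false,[1,-1],[0,0,0,
  0,1],[0,1,-1,-2],(⟨0,[(39,0)]⟩,⟨0,[(40,0)]⟩),(⟨0,[(30,0)]⟩,⟨0,[(29,0)]⟩),⟨1,[(12,0),(13,0),(12,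
  0)]⟩,.k,.k,(.r (-1) ⟨0,[(44,1),(0,0)]⟩ ⟨8,[(8,0),(2,2),(4,2),(5,2),(1,0),(10,0)]⟩),(.r (-1) ⟨3,
  [(0,1),(13,1),(13,1),(16,0),(0,0)]⟩ ⟨16,[(4,1),(3,1),(2,4),(10,6),(10,1),(7,3)]⟩),(.r (-2) ⟨1,[(0,
  1),(13,1),(12,0),(0,2),(16,0)]⟩ ⟨1,[(3,0),(7,0),(31,0)]⟩),.k,⟨false,1,⟨0,[(44,1),(0,0)]⟩,⟨1,[(16,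
  0),(26,0)]⟩⟩,⟨true,0,⟨0,[(14,0),(13,0)]⟩,⟨20,[(0,15),(2,10),(4,2),(2,7),(11,2),(3,4),(10,0),(3,
  1)]⟩⟩,⟨false,0,⟨0,[(44,0)]⟩,⟨8,[(11,1),(4,0),(5,1),(22,3),(0,4)]⟩⟩,⟨true,(-1),⟨0,[(20,0)]⟩,⟨26,
  [(0,16),(2,1),(4,1),(14,1),(3,9),(10,3),(2,4),(0,2)]⟩⟩,⟨true,0,⟨0,[(48,0)]⟩,⟨0,[]⟩⟩,⟨false,0,⟨6,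
  [(11,0),(2,4),(1,2),(3,1),(1,0),(5,4),(16,1)]⟩,⟨0,[(0,0)]⟩⟩,[]⟩) (.Q [0,0,-1,0,1,0,0,0,-1,0,0,1]
  (.p true [0,0,0,0,1] [] (⟨0,[(30,0)]⟩,⟨0,[(29,0)]⟩) .k 0 (⟨0,[]⟩,⟨0,[]⟩) .k .k) (.Q [0,0,0,0,0,-1,
  0,0,0,0,0,1] (.ed false [1,-1,0,0,1] .k) (.Q [0,0,0,0,1,0,0,0,-1,-1,0,1] (.p true [0,0,0,0,1] [1]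
  (⟨0,[(32,0)]⟩,⟨0,[(31,0)]⟩) .k 1 (⟨0,[]⟩,⟨0,[]⟩) .k .k) (.Q [0,0,1,1,-1,0,0,0,1,1,0,-1] (.p false
  [0,0,0,0,1] [1] (⟨0,[(33,0)]⟩,⟨0,[(32,0)]⟩) .k 1 (⟨0,[]⟩,⟨0,[]⟩) .k .k) (.R ⟨1,false,false,false,
  [0,0,0,0,1],[1,-1],[1,2],(⟨0,[(34,0)]⟩,⟨0,[(33,0)]⟩),(⟨0,[(43,0)]⟩,⟨0,[(44,0)]⟩),⟨0,[(2,0)]⟩,.k,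
  .k,(.r 0 ⟨0,[(46,0),(1,1)]⟩ ⟨2,[(15,0),(10,0),(4,0),(0,0),(17,1)]⟩),(.r 0 ⟨16,[(8,1),(3,1),(2,4),
  (10,6),(10,1),(7,3)]⟩ ⟨1,[(48,1),(0,0),(0,0)]⟩),.k,.k,⟨true,(-1),⟨3,[(5,0),(1,1),(4,0),(26,0),(5,
  2)]⟩,⟨0,[(48,0),(1,0)]⟩⟩,⟨false,1,⟨0,[(1,0)]⟩,⟨0,[(18,0),(13,0)]⟩⟩,⟨false,0,⟨0,[]⟩,⟨1,[(31,0),(0,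
  0),(17,0)]⟩⟩,⟨false,2,⟨0,[(1,0),(46,0),(1,0)]⟩,⟨0,[(24,0)]⟩⟩,⟨true,0,⟨0,[(47,0)]⟩,⟨0,[(48,0)]⟩⟩,
  ⟨false,2,⟨0,[(1,0),(48,0)]⟩,⟨0,[(25,0)]⟩⟩,[.a ⟨true,0,⟨0,[(48,0)]⟩,⟨6,[(0,0),(14,0),(2,5),(1,0),
  (5,0),(4,0)]⟩⟩ ⟨false,0,⟨0,[(45,0)]⟩,⟨0,[(50,0)]⟩⟩ ⟨true,1,⟨0,[(1,0),(46,0)]⟩,⟨0,[(0,0)]⟩⟩,.o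
  ⟨false,1,⟨1,[(42,0),(5,1),(1,0)]⟩,⟨0,[(47,0)]⟩⟩,.o ⟨false,0,⟨0,[(32,0)]⟩,⟨0,[(1,0)]⟩⟩,.e ⟨false,0,
  ⟨0,[(46,0),(1,0)]⟩,⟨2,[(12,0),(15,0),(10,0),(10,2)]⟩⟩ ⟨false,2,⟨1,[(3,1),(38,0),(5,1),(1,0)]⟩,⟨0,
  [(0,0)]⟩⟩]⟩) (.Q [0,0,1,0,-1,0,0,0,1,1,0,-1] (.p false [0,0,0,0,1] [1] (⟨0,[(34,0)]⟩,⟨0,[(33,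
  0)]⟩) .k 1 (⟨0,[]⟩,⟨0,[]⟩) .k .k) (.S ⟨1,0,[0,1,0,-1],[0,0,0,0,1],[1,2],(⟨0,[(35,0)]⟩,⟨0,[(34,
  0)]⟩),⟨0,[(3,0)]⟩,.k,(.r 0 ⟨0,[(1,0),(24,0)]⟩ ⟨2,[(16,0),(10,0),(4,0),(0,0),(17,1)]⟩),⟨false,0,⟨0,
  []⟩,⟨1,[(32,0),(0,0),(17,0)]⟩⟩,⟨true,0,⟨0,[(49,0)]⟩,⟨0,[(48,0)]⟩⟩,⟨true,0,⟨0,[(48,0)]⟩,⟨0,[(49,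
  0)]⟩⟩,⟨false,1,⟨1,[(32,0),(0,0),(17,0)]⟩,⟨0,[]⟩⟩,[.e ⟨false,0,⟨0,[(46,0)]⟩,⟨0,[(51,0)]⟩⟩ ⟨false,0,
  ⟨0,[(1,0),(24,0)]⟩,⟨8,[(16,1),(4,0),(5,1),(22,3),(0,4)]⟩⟩,.o ⟨false,0,⟨0,[(33,0),(15,0)]⟩,⟨2,[(1,
  0),(0,1),(18,0),(25,0)]⟩⟩,.o ⟨false,0,⟨0,[(33,0)]⟩,⟨0,[(2,0)]⟩⟩,.a ⟨true,(-1),⟨0,[(0,0)]⟩,⟨0,[(4,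
  0)]⟩⟩ ⟨false,0,⟨1,[(1,0),(24,0),(20,0)]⟩,⟨4,[(0,0),(12,1),(15,0),(2,0),(18,4)]⟩⟩ ⟨true,0,⟨0,[(1,
  0),(24,0)]⟩,⟨29,[(0,0),(12,1),(2,4),(4,4),(5,4),(1,0),(2,0)]⟩⟩]⟩) (.S ⟨1,0,[0,2,0,-1],[0,0,0,0,1],
  [1,1],(⟨0,[(35,0)]⟩,⟨0,[(34,0)]⟩),⟨0,[(3,0)]⟩,.k,(.r 0 ⟨0,[(1,0),(24,0)]⟩ ⟨2,[(16,0),(10,0),(4,0),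
  (0,0),(17,1)]⟩),⟨true,0,⟨0,[]⟩,⟨0,[(53,0)]⟩⟩,⟨false,0,⟨0,[(49,0)]⟩,⟨8,[(16,1),(4,0),(5,1),(22,3),
  (0,4)]⟩⟩,⟨false,1,⟨8,[(16,1),(4,0),(5,1),(22,3),(0,4)]⟩,⟨0,[(49,0)]⟩⟩,⟨true,0,⟨0,[(53,0)]⟩,⟨0,
  []⟩⟩,[.o ⟨false,(-1),⟨0,[(20,0),(28,1)]⟩,⟨5,[(0,1),(1,1),(1,1),(16,1),(21,0),(7,4)]⟩⟩,.a ⟨true,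
  (-1),⟨0,[(26,0),(22,0)]⟩,⟨6,[(0,1),(3,4),(1,0),(1,1),(10,0),(1,0),(18,1),(10,3)]⟩⟩ ⟨true,0,⟨0,[]⟩,
  ⟨2,[(13,0),(15,0),(10,0)]⟩⟩ ⟨false,0,⟨0,[(1,0),(24,0)]⟩,⟨8,[(16,1),(4,0),(5,1),(22,3),(0,4)]⟩⟩,.o
  ⟨false,0,⟨0,[(33,0)]⟩,⟨0,[(2,0)]⟩⟩,.o ⟨false,0,⟨2,[(13,0),(15,0),(3,2),(6,0)]⟩,⟨0,[(0,0)]⟩⟩]⟩)))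
  (.R ⟨2,true,false,true,[0,1],[1,0,0,0,-1],[1,1,1,1],(⟨0,[]⟩,⟨0,[]⟩),(⟨0,[(32,0)]⟩,⟨0,[(33,0)]⟩),
  ⟨0,[]⟩,.k,.k,.k,(.r 0 ⟨16,[(7,1),(3,1),(2,4),(10,6),(10,1),(7,3)]⟩ ⟨1,[(47,1),(0,0),(0,0)]⟩),.k,
  .k,⟨false,0,⟨0,[(46,0)]⟩,⟨1,[(47,1),(0,0),(0,0)]⟩⟩,⟨true,1,⟨15,[(2,1),(3,1),(1,1),(2,7),(8,3),(9,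
  13),(10,4),(7,0)]⟩,⟨0,[(0,0)]⟩⟩,⟨false,0,⟨0,[]⟩,⟨1,[(30,0),(0,0),(17,0)]⟩⟩,⟨true,1,⟨0,[(2,0),(8,
  0),(8,0)]⟩,⟨0,[(23,0)]⟩⟩,⟨true,0,⟨0,[(46,0)]⟩,⟨0,[(47,0)]⟩⟩,⟨false,2,⟨1,[(30,1),(10,0),(7,0)]⟩,⟨0,
  [(0,0)]⟩⟩,[]⟩)) (.Q [0,0,1,1,-1,0,0,0,1,1,0,-1] (.p false [0,0,0,0,1] [1] (⟨0,[(32,0)]⟩,⟨0,[(31,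
  0)]⟩) .k 1 (⟨0,[]⟩,⟨0,[]⟩) .k .k) (.Q [0,-1,0,0,1,0,0,0,-1,0,0,1] (.p true [0,0,0,0,1] [] (⟨0,
  [(33,0)]⟩,⟨0,[(32,0)]⟩) .k 0 (⟨0,[]⟩,⟨0,[]⟩) .k .k) (.R ⟨0,false,false,true,[0,0,0,0,1],[1,-1],[1,
  0,1],(⟨0,[(34,0)]⟩,⟨0,[(33,0)]⟩),(⟨0,[(43,0)]⟩,⟨0,[(44,0)]⟩),⟨0,[(2,0)]⟩,.k,.k,(.r 0 ⟨0,[(46,0),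
  (1,1)]⟩ ⟨2,[(15,0),(10,0),(4,0),(0,0),(17,1)]⟩),(.r 0 ⟨16,[(8,1),(3,1),(2,4),(10,6),(10,1),(7,
  3)]⟩ ⟨1,[(48,1),(0,0),(0,0)]⟩),.k,.k,⟨true,0,⟨52,[(0,13),(0,13),(5,5),(1,5),(2,27),(7,8),(7,7),
  (21,17)]⟩,⟨0,[(46,0),(1,1)]⟩⟩,⟨false,1,⟨0,[(0,0),(11,0),(8,0),(24,0)]⟩,⟨0,[(18,0),(13,0)]⟩⟩,
  ⟨false,1,⟨2,[(12,0),(15,0),(10,0),(10,2)]⟩,⟨0,[(46,0),(1,0)]⟩⟩,⟨true,1,⟨0,[(3,0),(8,0),(8,0)]⟩,⟨0,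
  [(24,0)]⟩⟩,⟨false,0,⟨0,[]⟩,⟨0,[]⟩⟩,⟨false,0,⟨0,[]⟩,⟨0,[]⟩⟩,[.o ⟨false,0,⟨0,[(12,0),(8,0),(24,0),
  (1,0)]⟩,⟨8,[(15,1),(4,0),(5,1),(22,3),(0,4)]⟩⟩,.a ⟨true,0,⟨0,[(48,0)]⟩,⟨6,[(1,0),(13,0),(2,5),(1,
  0),(5,0),(4,0)]⟩⟩ ⟨false,1,⟨1,[(31,0),(0,0),(17,0)]⟩,⟨0,[(46,0),(1,0)]⟩⟩ ⟨true,1,⟨0,[(3,0),(8,0),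
  (8,0)]⟩,⟨0,[(1,0)]⟩⟩,.o ⟨false,0,⟨0,[(32,0)]⟩,⟨0,[(0,0),(11,0),(8,0),(24,0)]⟩⟩,.e ⟨true,0,⟨0,[]⟩,
  ⟨0,[(52,0)]⟩⟩ ⟨true,1,⟨0,[(3,0),(8,0),(8,0),(24,0),(1,0)]⟩,⟨0,[(1,0)]⟩⟩]⟩) (.Q [0,-2,0,0,2,0,0,0,
  -1,-1,0,1] (.p true [0,0,0,0,1] [1] (⟨0,[(34,0)]⟩,⟨0,[(33,0)]⟩) .k 1 (⟨0,[]⟩,⟨0,[]⟩) .k .k) (.R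
  ⟨1,false,false,true,[0,0,1],[0,0,0,0,1],[0,1,0,-1,0,0,0,1],(⟨0,[(42,0)]⟩,⟨0,[(41,0)]⟩),(⟨0,[(35,
  0)]⟩,⟨0,[(34,0)]⟩),⟨0,[(31,0)]⟩,.k,.k,.k,.k,(.r (-2) ⟨1,[(0,0),(8,0),(23,0),(6,1),(8,1),(0,1)]⟩
  ⟨11,[(8,4),(5,1),(0,0),(11,3),(19,1)]⟩),.k,⟨false,2,⟨1,[(0,0),(8,0),(23,0),(6,1),(8,1),(0,1)]⟩,⟨3,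
  [(8,0),(5,1),(0,0),(31,1)]⟩⟩,⟨true,0,⟨1,[(1,1),(38,1),(9,0),(0,0)]⟩,⟨2,[(0,0),(7,1),(0,0),(12,0),
  (9,1),(16,0)]⟩⟩,⟨false,0,⟨0,[(49,0)]⟩,⟨8,[(16,1),(4,0),(5,1),(22,3),(0,4)]⟩⟩,⟨false,(-1),⟨3,[(1,
  3),(12,1),(0,1),(24,3),(9,0),(0,0)]⟩,⟨1,[(0,0),(8,0),(22,0),(18,0)]⟩⟩,⟨true,0,⟨0,[(53,0)]⟩,⟨0,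
  []⟩⟩,⟨false,(-1),⟨0,[(1,0),(12,0),(25,0),(9,0)]⟩,⟨1,[(0,0),(8,0),(22,0),(16,1),(1,0)]⟩⟩,[.o
  ⟨false,(-1),⟨5,[(1,4),(11,0),(12,0),(12,0),(6,2)]⟩,⟨0,[(0,0)]⟩⟩,.o ⟨false,(-1),⟨0,[(1,0)]⟩,⟨3,[(0,
  1),(31,2),(0,0),(9,0)]⟩⟩,.o ⟨false,0,⟨0,[(24,0)]⟩,⟨0,[(13,0),(36,0)]⟩⟩,.a ⟨true,(-1),⟨7,[(8,1),(1,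
  4),(7,2),(0,2),(20,1),(8,3),(1,0)]⟩,⟨0,[(40,0),(9,0)]⟩⟩ ⟨true,1,⟨1,[(9,0),(3,0),(26,0),(5,0),(2,
  1),(0,1)]⟩,⟨0,[(14,0)]⟩⟩ ⟨false,0,⟨0,[(1,0),(38,0),(9,0)]⟩,⟨5,[(0,2),(3,0),(3,1),(1,2),(7,0),(13,
  1),(16,3),(1,3)]⟩⟩]⟩) (.R ⟨2,true,false,false,[0,1],[1,0,0,0,-1],[1,0,1,1],(⟨0,[]⟩,⟨0,[]⟩),(⟨0,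
  [(34,0)]⟩,⟨0,[(35,0)]⟩),⟨0,[]⟩,.k,.k,.k,(.r 0 ⟨16,[(9,1),(3,1),(2,4),(10,6),(10,1),(7,3)]⟩ ⟨1,
  [(49,1),(0,0),(0,0)]⟩),.k,.k,⟨false,0,⟨0,[(48,0)]⟩,⟨1,[(49,1),(0,0),(0,0)]⟩⟩,⟨true,1,⟨15,[(4,1),
  (3,1),(1,1),(2,7),(8,3),(9,13),(10,4),(7,0)]⟩,⟨0,[(0,0),(50,0)]⟩⟩,⟨true,0,⟨0,[]⟩,⟨0,[(53,0)]⟩⟩,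
  ⟨false,2,⟨0,[(4,0),(8,0),(8,0),(28,0)]⟩,⟨0,[(25,0)]⟩⟩,⟨false,1,⟨8,[(16,1),(4,0),(5,1),(22,3),(0,
  4)]⟩,⟨0,[(49,0)]⟩⟩,⟨true,2,⟨1,[(32,1),(10,0),(7,0)]⟩,⟨0,[(0,0)]⟩⟩,[]⟩))) (.Q [0,0,-1,0,1,0,0,0,-1,
  -1,0,1] (.p true [0,0,0,0,1] [1] (⟨0,[(33,0)]⟩,⟨0,[(32,0)]⟩) .k 1 (⟨0,[]⟩,⟨0,[]⟩) .k .k) (.R ⟨0,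
  false,false,true,[0,0,0,0,1],[0,1],[1,1,1,1],(⟨0,[(34,0)]⟩,⟨0,[(33,0)]⟩),(⟨0,[(44,0)]⟩,⟨0,[(43,
  0)]⟩),⟨0,[(2,0)]⟩,.k,.k,(.r 0 ⟨0,[(1,0),(23,0)]⟩ ⟨2,[(15,0),(10,0),(4,0),(0,0),(17,1)]⟩),(.r 0 ⟨0,
  [(1,0),(23,0)]⟩ ⟨2,[(15,0),(10,0),(4,0),(0,0),(17,1)]⟩),.k,.k,⟨true,0,⟨0,[]⟩,⟨2,[(12,0),(15,0),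
  (10,0)]⟩⟩,⟨false,1,⟨0,[(0,0),(17,0)]⟩,⟨2,[(12,0),(15,0),(3,2),(6,0)]⟩⟩,⟨true,0,⟨17,[(12,0),(2,2),
  (4,2),(5,2),(1,0),(10,0)]⟩,⟨0,[(1,0),(23,0)]⟩⟩,⟨false,1,⟨6,[(0,1),(2,4),(1,0),(1,1),(10,0),(1,0),
  (18,1),(10,3)]⟩,⟨0,[(32,0),(15,0)]⟩⟩,⟨false,0,⟨0,[]⟩,⟨0,[]⟩⟩,⟨false,0,⟨0,[]⟩,⟨0,[]⟩⟩,[.o ⟨false,0,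
  ⟨0,[(47,0)]⟩,⟨1,[(42,0),(5,1),(1,0)]⟩⟩,.a ⟨true,0,⟨17,[(15,2),(2,16),(1,2),(5,2),(1,0),(10,1)]⟩,
  ⟨0,[(48,0)]⟩⟩ ⟨true,0,⟨17,[(12,0),(2,2),(4,2),(5,2),(1,0),(10,0)]⟩,⟨0,[(48,0)]⟩⟩ ⟨false,1,⟨3,[(0,
  0),(2,2),(14,0),(1,0),(25,0)]⟩,⟨0,[(32,0),(15,0)]⟩⟩,.o ⟨false,0,⟨0,[(32,0)]⟩,⟨3,[(0,2),(11,0),(18,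
  0),(6,0)]⟩⟩,.o ⟨false,0,⟨2,[(12,0),(15,0),(3,2),(6,0)]⟩,⟨0,[(0,0)]⟩⟩]⟩) (.R ⟨0,false,false,false,
  [0,0,0,0,1],[1,-1],[1,1,1],(⟨0,[(34,0)]⟩,⟨0,[(33,0)]⟩),(⟨0,[(43,0)]⟩,⟨0,[(44,0)]⟩),⟨0,[(2,0)]⟩,.k,
  .k,(.r 0 ⟨0,[(1,0),(23,0)]⟩ ⟨2,[(15,0),(10,0),(4,0),(0,0),(17,1)]⟩),(.r 0 ⟨16,[(8,1),(3,1),(2,4),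
  (10,6),(10,1),(7,3)]⟩ ⟨1,[(48,1),(0,0),(0,0)]⟩),.k,.k,⟨true,(-1),⟨0,[(22,0)]⟩,⟨1,[(48,1),(0,0),(0,
  0)]⟩⟩,⟨false,1,⟨5,[(1,3),(18,0),(1,0),(8,1),(10,0)]⟩,⟨0,[(18,0),(13,0)]⟩⟩,⟨true,0,⟨4,[(0,0),(11,
  1),(15,0),(2,0)]⟩,⟨1,[(1,0),(23,0),(20,0)]⟩⟩,⟨false,2,⟨8,[(1,6),(6,0),(3,2),(4,1),(13,1),(6,0),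
  (11,8)]⟩,⟨0,[(24,0)]⟩⟩,⟨false,0,⟨0,[]⟩,⟨0,[]⟩⟩,⟨false,0,⟨0,[]⟩,⟨0,[]⟩⟩,[.e ⟨false,0,⟨0,[(52,0)]⟩,
  ⟨1,[(49,0),(0,0)]⟩⟩ ⟨false,1,⟨0,[(1,0)]⟩,⟨15,[(0,0),(3,1),(10,3),(2,12),(7,3),(5,12),(17,2)]⟩⟩,.o
  ⟨false,1,⟨1,[(42,0),(5,1),(1,0)]⟩,⟨0,[(47,0)]⟩⟩,.o ⟨false,0,⟨0,[(32,0)]⟩,⟨5,[(1,3),(18,0),(1,0),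
  (8,1),(10,0)]⟩⟩,.a ⟨true,(-1),⟨0,[(0,0)]⟩,⟨0,[(3,0)]⟩⟩ ⟨false,0,⟨0,[]⟩,⟨1,[(31,0),(0,0),(17,0)]⟩⟩
  ⟨true,1,⟨0,[(1,0)]⟩,⟨7,[(0,1),(3,0),(10,1),(9,4),(0,1)]⟩⟩]⟩)))) (.Q [0,0,1,0,-2,0,1,0,1,1,-1,-1]
  (.p false [0,0,1] [1,0,0,0,-1] (⟨0,[(38,0)]⟩,⟨0,[(37,0)]⟩) .k 2 (⟨0,[(30,0)]⟩,⟨0,[(31,0)]⟩) .k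
  (.r (-1) ⟨1,[(5,0),(3,0),(18,0),(0,0),(6,0),(5,0),(3,0)]⟩ ⟨1,[(4,0),(6,0),(35,1)]⟩)) (.Q [0,0,0,0,
  0,-1,0,0,0,0,0,1] (.ed false [1,-1,0,0,1] .k) (.Q [0,0,0,1,-1,0,-1,-1,1,0,1,-1] (.p true [0,0,1]
  [0,0,0,0,1] (⟨0,[(40,0)]⟩,⟨0,[(39,0)]⟩) .k 2 (⟨0,[(33,0)]⟩,⟨0,[(32,0)]⟩) .k (.r (-2) ⟨3,[(7,1),(3,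
  1),(18,2),(0,2),(6,1),(9,2),(0,1)]⟩ ⟨0,[(6,0),(38,1),(1,2),(1,0)]⟩)) (.R ⟨1,false,false,true,[0,0,
  0,0,1],[1,0,-1],[1,2],(⟨0,[(34,0)]⟩,⟨0,[(33,0)]⟩),(⟨0,[(40,0)]⟩,⟨0,[(41,0)]⟩),⟨0,[(1,0)]⟩,.k,.k,
  (.r 0 ⟨0,[(46,0),(1,1)]⟩ ⟨2,[(15,0),(10,0),(4,0),(0,0),(17,1)]⟩),.k,(.r (-1) ⟨1,[(8,0),(3,0),(26,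
  0),(5,0),(2,1),(0,1)]⟩ ⟨2,[(13,1),(12,0),(23,1)]⟩),.k,⟨false,1,⟨1,[(8,0),(3,0),(26,0),(5,0),(3,
  1)]⟩,⟨1,[(7,0),(6,0),(35,1)]⟩⟩,⟨true,2,⟨0,[(12,0),(18,0),(17,0)]⟩,⟨0,[(2,0)]⟩⟩,⟨false,0,⟨0,[]⟩,⟨1,
  [(31,0),(0,0),(17,0)]⟩⟩,⟨false,2,⟨3,[(0,1),(11,1),(1,1),(16,5),(10,0),(7,2)]⟩,⟨0,[(0,0),(7,0),(39,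
  0)]⟩⟩,⟨true,0,⟨0,[(47,0)]⟩,⟨0,[(48,0)]⟩⟩,⟨false,2,⟨1,[(0,1),(30,3),(10,0),(7,0)]⟩,⟨0,[(0,0),(7,0),
  (39,1)]⟩⟩,[.o ⟨false,0,⟨13,[(0,3),(6,0),(4,9),(1,8),(16,3),(10,1),(3,3)]⟩,⟨3,[(8,1),(22,0),(0,0),
  (9,0),(7,1)]⟩⟩,.e ⟨false,0,⟨0,[(46,0),(1,0)]⟩,⟨1,[(31,0),(0,0),(17,0)]⟩⟩ ⟨false,2,⟨3,[(0,1),(11,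
  1),(1,1),(16,5),(10,0),(6,1),(0,0)]⟩,⟨0,[(0,0),(7,0),(39,0)]⟩⟩,.a ⟨true,(-1),⟨0,[(3,0),(14,0)]⟩,
  ⟨0,[(31,0)]⟩⟩ ⟨false,0,⟨0,[(52,0)]⟩,⟨0,[(50,0)]⟩⟩ ⟨true,1,⟨13,[(0,3),(6,0),(4,9),(1,8),(16,17),
  (10,1),(3,3)]⟩,⟨0,[(0,0),(7,0),(39,0)]⟩⟩,.o ⟨false,(-1),⟨0,[(3,0)]⟩,⟨1,[(31,1),(10,0),(6,0)]⟩⟩]⟩)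
  (.S ⟨1,0,[0,1,0,-1],[0,0,0,0,1],[1,2],(⟨0,[(34,0)]⟩,⟨0,[(33,0)]⟩),⟨0,[(1,0)]⟩,.k,(.r 0 ⟨0,[(46,0),
  (1,1)]⟩ ⟨2,[(15,0),(10,0),(4,0),(0,0),(17,1)]⟩),⟨false,0,⟨0,[]⟩,⟨1,[(31,0),(0,0),(17,0)]⟩⟩,⟨true,
  0,⟨0,[(48,0)]⟩,⟨0,[(47,0)]⟩⟩,⟨true,0,⟨0,[(47,0)]⟩,⟨0,[(48,0)]⟩⟩,⟨false,1,⟨1,[(31,0),(0,0),(17,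
  0)]⟩,⟨0,[]⟩⟩,[.o ⟨false,(-1),⟨0,[(3,0),(42,0),(1,1)]⟩,⟨7,[(0,1),(6,1),(4,1),(18,5),(10,2),(3,7),
  (3,8)]⟩⟩,.a ⟨true,(-1),⟨0,[(3,0),(14,0),(29,0)]⟩,⟨2,[(0,0),(6,0),(23,1),(7,0),(6,2),(3,1)]⟩⟩
  ⟨false,0,⟨0,[(46,0),(1,0)]⟩,⟨1,[(31,0),(0,0),(17,0)]⟩⟩ ⟨true,0,⟨0,[(48,0)]⟩,⟨17,[(12,0),(2,2),(4,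
  2),(5,2),(1,0),(10,0)]⟩⟩,.e ⟨false,0,⟨7,[(0,0),(11,0),(12,0),(0,0),(18,2)]⟩,⟨0,[(50,0)]⟩⟩ ⟨false,
  0,⟨0,[(48,0)]⟩,⟨8,[(15,1),(4,0),(5,1),(22,3),(0,4)]⟩⟩,.o ⟨false,(-1),⟨0,[(3,0)]⟩,⟨1,[(31,1),(10,
  0),(6,0)]⟩⟩]⟩)) (.Q [0,-2,0,1,2,0,-1,-1,-1,-1,1,1] (.p true [0,0,1] [1,0,0,0,-1] (⟨0,[(40,0)]⟩,⟨0,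
  [(39,0)]⟩) .k 2 (⟨0,[(32,0)]⟩,⟨0,[(33,0)]⟩) .k (.r (-1) ⟨1,[(7,0),(3,0),(18,0),(0,0),(6,0),(5,0),
  (3,0)]⟩ ⟨1,[(6,0),(6,0),(35,1)]⟩)) (.R ⟨0,false,false,true,[0,0,0,0,1],[0,1],[],(⟨0,[(34,0)]⟩,⟨0,
  [(33,0)]⟩),(⟨0,[(44,0)]⟩,⟨0,[(43,0)]⟩),⟨0,[(1,0)]⟩,.k,.k,(.r 0 ⟨0,[(46,0),(1,1)]⟩ ⟨2,[(15,0),(10,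
  0),(4,0),(0,0),(17,1)]⟩),(.r 0 ⟨0,[(46,0),(1,1)]⟩ ⟨2,[(15,0),(10,0),(4,0),(0,0),(17,1)]⟩),.k,.k,
  ⟨true,1,⟨1,[(48,1),(0,0),(0,0)]⟩,⟨0,[(22,0)]⟩⟩,⟨false,2,⟨0,[(31,0),(17,0)]⟩,⟨0,[(3,0)]⟩⟩,⟨false,1,
  ⟨0,[(50,0)]⟩,⟨0,[(52,0)]⟩⟩,⟨true,1,⟨9,[(0,1),(4,0),(1,0),(7,0),(2,0),(12,7),(14,2)]⟩,⟨0,[(3,0),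
  (42,0),(1,1)]⟩⟩,⟨false,0,⟨0,[]⟩,⟨0,[]⟩⟩,⟨false,0,⟨0,[]⟩,⟨0,[]⟩⟩,[.o ⟨false,0,⟨0,[(47,0)]⟩,⟨1,[(42,
  0),(5,1),(1,0)]⟩⟩,.a ⟨true,0,⟨17,[(15,2),(2,16),(1,2),(5,2),(1,0),(10,1)]⟩,⟨0,[(48,0)]⟩⟩ ⟨false,1,
  ⟨1,[(49,0),(0,0)]⟩,⟨0,[(52,0)]⟩⟩ ⟨true,1,⟨9,[(0,1),(4,0),(1,0),(7,0),(2,0),(12,7),(14,2)]⟩,⟨0,[(3,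
  0),(44,0)]⟩⟩,.e ⟨false,1,⟨1,[(31,0),(0,0),(17,0)]⟩,⟨0,[]⟩⟩ ⟨false,1,⟨9,[(0,1),(4,0),(1,0),(7,0),
  (2,0),(12,7),(14,2)]⟩,⟨1,[(3,1),(44,1),(0,0),(0,0)]⟩⟩,.o ⟨false,(-1),⟨0,[(3,0)]⟩,⟨1,[(31,1),(10,
  0),(6,0)]⟩⟩]⟩) (.R ⟨0,false,false,false,[0,0,0,0,1],[1,1,-1],[0,1],(⟨0,[(34,0)]⟩,⟨0,[(33,0)]⟩),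
  (⟨5,[(10,2),(7,1),(9,0),(10,1),(0,2)]⟩,⟨0,[(30,0)]⟩),⟨0,[(1,0)]⟩,.k,.k,(.r 0 ⟨0,[(46,0),(1,1)]⟩
  ⟨2,[(15,0),(10,0),(4,0),(0,0),(17,1)]⟩),(.r (-1) ⟨1,[(8,0),(3,0),(26,0),(5,0),(2,1),(0,1)]⟩ ⟨2,
  [(13,1),(12,0),(23,1)]⟩),.k,.k,⟨true,1,⟨1,[(8,0),(3,0),(26,0),(5,0),(2,1),(0,1)]⟩,⟨0,[(7,0),(42,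
  0)]⟩⟩,⟨false,3,⟨0,[(12,0),(18,0),(17,1)]⟩,⟨0,[(2,0)]⟩⟩,⟨false,1,⟨1,[(31,0),(0,0),(17,0)]⟩,⟨0,[]⟩⟩,
  ⟨true,2,⟨1,[(12,1),(0,1),(17,1),(17,2),(0,0)]⟩,⟨0,[(0,0)]⟩⟩,⟨false,0,⟨0,[]⟩,⟨0,[]⟩⟩,⟨false,0,⟨0,
  []⟩,⟨0,[]⟩⟩,[.e ⟨false,0,⟨0,[(46,0),(1,0)]⟩,⟨1,[(31,0),(0,0),(17,0)]⟩⟩ ⟨false,2,⟨0,[(12,0),(0,0),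
  (17,0),(17,1)]⟩,⟨0,[(0,0),(49,0)]⟩⟩,.o ⟨false,1,⟨1,[(12,1),(0,1),(35,2),(0,0)]⟩,⟨0,[(36,0),(11,
  0)]⟩⟩,.a ⟨true,(-1),⟨0,[(3,0),(14,0)]⟩,⟨0,[(31,0)]⟩⟩ ⟨true,0,⟨0,[(52,0)]⟩,⟨0,[]⟩⟩ ⟨false,2,⟨1,
  [(12,1),(0,1),(17,1),(17,2),(0,0)]⟩,⟨0,[(0,0),(49,0)]⟩⟩,.o ⟨false,(-1),⟨0,[(3,0)]⟩,⟨1,[(31,1),(10,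
  0),(6,0)]⟩⟩]⟩))) (.R ⟨0,false,false,true,[0,-1,1],[1,0,0,0,-1],[0,1],(⟨0,[(28,0)]⟩,⟨5,[(8,2),(7,
  1),(9,0),(10,1),(0,2)]⟩),(⟨0,[(31,0)]⟩,⟨0,[(32,0)]⟩),⟨0,[(8,0)]⟩,.k,.k,(.r (-2) ⟨1,[(0,0),(5,0),
  (23,0),(6,0),(8,3),(0,1)]⟩ ⟨6,[(5,1),(5,2),(3,0),(2,2),(5,0)]⟩),(.r (-1) ⟨1,[(0,0),(0,0),(4,0),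
  (30,0),(5,0),(2,1),(0,0)]⟩ ⟨2,[(11,1),(12,0),(23,1)]⟩),.k,.k,⟨false,0,⟨0,[(44,0),(1,0)]⟩,⟨3,[(0,
  0),(25,0),(3,0),(6,0),(10,1)]⟩⟩,⟨true,2,⟨0,[(0,0)]⟩,⟨1,[(1,0),(3,0),(1,0),(15,0),(22,1),(1,0)]⟩⟩,
  ⟨false,(-1),⟨0,[(9,0)]⟩,⟨1,[(0,0),(5,0),(23,0),(6,0),(8,1),(0,0),(0,0)]⟩⟩,⟨true,1,⟨0,[(0,0),(10,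
  0)]⟩,⟨1,[(1,1),(4,0),(9,0),(26,0),(2,1)]⟩⟩,⟨false,0,⟨0,[]⟩,⟨0,[]⟩⟩,⟨false,0,⟨0,[]⟩,⟨0,[]⟩⟩,[.a
  ⟨true,1,⟨0,[(29,0)]⟩,⟨0,[(1,0),(14,0)]⟩⟩ ⟨false,0,⟨0,[(44,0),(1,0)]⟩,⟨3,[(0,0),(25,0),(3,0),(6,0),
  (10,1)]⟩⟩ ⟨true,2,⟨0,[(0,0)]⟩,⟨1,[(1,0),(3,0),(1,0),(15,0),(22,1),(1,0)]⟩⟩,.o ⟨false,2,⟨1,[(29,1),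
  (10,0),(7,0)]⟩,⟨0,[(1,0),(42,0),(1,0)]⟩⟩,.e ⟨true,0,⟨0,[(50,0)]⟩,⟨0,[]⟩⟩ ⟨true,2,⟨0,[(0,0)]⟩,⟨2,
  [(1,0),(3,0),(1,0),(11,0),(3,1),(22,0)]⟩⟩,.o ⟨false,(-1),⟨7,[(5,1),(1,4),(2,4),(4,2),(3,2),(26,0),
  (1,0)]⟩,⟨0,[(0,0),(0,0),(45,0)]⟩⟩]⟩))))))))))))

theorem ok84 : chk K t84 r49 = true := by decide +kernel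

noncomputable def t86 : Tre :=
  (.I [1,1,2,2,-1,0,0,1] (.Q [0,0,-2,0,0,0,1,0,0,1,-1] (.p false [0,0,1] [1] (⟨0,[(28,0)]⟩,⟨0,[(27,
  0)]⟩) .k 1 (⟨0,[]⟩,⟨0,[]⟩) .k .k) (.S ⟨1,0,[0,0,-1,-2,0,0,0,-1],[1,-1,-1],[1,1,-1,-1,0,0,0,-1],
  (⟨0,[(17,0)]⟩,⟨0,[(29,0),(2,0)]⟩),⟨0,[(4,0)]⟩,.k,(.r (-1) ⟨0,[(5,0),(30,0),(0,0)]⟩ ⟨0,[(3,0)]⟩),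
  ⟨false,0,⟨0,[]⟩,⟨1,[(19,0),(0,0),(17,0)]⟩⟩,⟨true,0,⟨0,[(36,0)]⟩,⟨0,[(35,0)]⟩⟩,⟨true,0,⟨0,[(35,
  0)]⟩,⟨0,[(36,0)]⟩⟩,⟨false,1,⟨1,[(19,0),(0,0),(17,0)]⟩,⟨0,[]⟩⟩,[.o ⟨false,1,⟨1,[(25,1),(4,0),(5,3),
  (1,0)]⟩,⟨1,[(0,1),(0,1),(28,0),(7,0)]⟩⟩,.a ⟨true,1,⟨0,[(25,0),(10,1),(1,0)]⟩,⟨0,[(0,0),(0,0)]⟩⟩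
  ⟨false,1,⟨0,[(5,0),(31,0)]⟩,⟨1,[(1,0),(0,0),(33,0),(0,0)]⟩⟩ ⟨true,1,⟨1,[(5,1),(30,1),(0,0),(0,
  0)]⟩,⟨0,[(1,0)]⟩⟩,.a ⟨true,0,⟨0,[(27,0)]⟩,⟨0,[(23,0)]⟩⟩ ⟨true,0,⟨0,[(9,0),(15,0)]⟩,⟨1,[(1,0),(0,
  0),(33,0),(0,0)]⟩⟩ ⟨false,1,⟨1,[(5,1),(30,1),(0,0),(0,0)]⟩,⟨1,[(1,1),(35,0),(0,0)]⟩⟩,.a ⟨true,0,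
  ⟨1,[(26,0),(0,2)]⟩,⟨0,[(0,0)]⟩⟩ ⟨false,1,⟨0,[(5,0),(31,0)]⟩,⟨0,[(2,0)]⟩⟩ ⟨true,1,⟨0,[(5,0),(30,0),
  (0,0)]⟩,⟨0,[(1,0)]⟩⟩]⟩) (.Q [0,-1,0,-2,1,0,-1,-1,0,-1,1] (.p true [0,0,1] [1] (⟨0,[(29,0)]⟩,⟨0,
  [(28,0)]⟩) .k 1 (⟨0,[]⟩,⟨0,[]⟩) .k .k) (.R ⟨1,true,false,true,[1,0,-1],[0,1],[0,1,0,-1,0,0,0,-1],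
  (⟨0,[(29,0)]⟩,⟨0,[(30,0)]⟩),(⟨0,[(33,0)]⟩,⟨0,[(32,0)]⟩),⟨0,[(18,0)]⟩,.k,.k,.k,.k,(.r (-1) ⟨2,[(0,
  1),(5,0),(0,0),(2,0),(13,0),(9,0),(3,0)]⟩ ⟨0,[(4,0)]⟩),.k,⟨false,1,⟨2,[(0,1),(5,0),(0,0),(2,0),
  (13,0),(9,0),(3,0)]⟩,⟨1,[(2,1),(35,0),(0,0)]⟩⟩,⟨true,0,⟨0,[(24,0)]⟩,⟨0,[(1,0)]⟩⟩,⟨false,0,⟨0,[(37,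
  0)]⟩,⟨8,[(4,1),(4,0),(5,1),(22,3),(0,4)]⟩⟩,⟨true,(-1),⟨0,[(2,0),(4,0),(2,0)]⟩,⟨3,[(0,1),(19,0),(0,
  0),(4,1),(4,0)]⟩⟩,⟨true,0,⟨0,[(41,0)]⟩,⟨0,[]⟩⟩,⟨false,0,⟨2,[(2,0),(4,2),(1,0),(0,0),(5,1),(22,
  0)]⟩,⟨0,[(0,0)]⟩⟩,[]⟩) (.Q [0,-1,0,-2,1,0,0,0,-1,-1,0,1] (.p true [0,0,0,0,1] [1] (⟨0,[(23,0)]⟩,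
  ⟨0,[(22,0)]⟩) .k 1 (⟨0,[]⟩,⟨0,[]⟩) .k .k) (.I [0,1,2,2,-1] (.R ⟨1,true,false,false,[1,-1],[0,0,0,
  0,1],[0,1,-1,-2],(⟨0,[(34,0)]⟩,⟨0,[(35,0)]⟩),(⟨0,[(25,0)]⟩,⟨0,[(24,0)]⟩),⟨1,[(7,0),(13,0),(12,
  0)]⟩,.k,.k,(.r (-1) ⟨0,[(1,0),(14,0),(23,0)]⟩ ⟨3,[(5,0),(0,0),(4,0),(5,1)]⟩),(.r (-1) ⟨3,[(1,1),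
  (7,1),(13,1),(16,0),(0,0)]⟩ ⟨2,[(6,0),(10,0),(25,1)]⟩),(.r (-2) ⟨1,[(1,1),(7,1),(12,0),(0,2),(16,
  0)]⟩ ⟨0,[(0,0)]⟩),.k,⟨false,1,⟨0,[(1,0),(14,0),(23,0)]⟩,⟨1,[(11,0),(26,0)]⟩⟩,⟨true,0,⟨0,[(9,0),
  (13,0)]⟩,⟨0,[(0,0),(0,0)]⟩⟩,⟨false,0,⟨0,[(39,0)]⟩,⟨8,[(6,1),(4,0),(5,1),(22,3),(0,4)]⟩⟩,⟨true,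
  (-1),⟨0,[(15,0)]⟩,⟨12,[(0,1),(0,8),(20,3),(10,1),(2,2),(0,0)]⟩⟩,⟨true,0,⟨0,[(43,0)]⟩,⟨0,[]⟩⟩,
  ⟨false,0,⟨6,[(6,0),(2,4),(1,2),(3,1),(1,0),(5,4),(16,1)]⟩,⟨0,[(1,0)]⟩⟩,[]⟩) (.S ⟨1,0,[0,0,0,-1,0,
  0,0,-1],[1,0,-1],[1,1,0,0,0,0,0,-1],(⟨0,[(31,0)]⟩,⟨0,[(32,0)]⟩),⟨0,[(20,0)]⟩,.k,.k,⟨false,0,⟨0,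
  []⟩,⟨1,[(22,0),(0,0),(17,0)]⟩⟩,⟨true,0,⟨0,[(39,0)]⟩,⟨0,[(38,0)]⟩⟩,⟨true,0,⟨0,[(38,0)]⟩,⟨0,[(39,
  0)]⟩⟩,⟨false,1,⟨1,[(22,0),(0,0),(17,0)]⟩,⟨0,[]⟩⟩,[.o ⟨false,1,⟨3,[(1,1),(21,1),(4,3),(4,0),(7,
  0)]⟩,⟨6,[(0,0),(1,3),(2,1),(6,1),(5,0),(14,1),(7,0)]⟩⟩,.e ⟨false,1,⟨3,[(8,1),(8,1),(22,2),(0,0)]⟩,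
  ⟨0,[(0,0),(1,0),(0,0)]⟩⟩ ⟨false,1,⟨1,[(8,1),(31,0),(0,0)]⟩,⟨5,[(0,2),(3,4),(1,0),(29,1),(3,1)]⟩⟩,
  .o ⟨false,1,⟨0,[(3,0),(36,0)]⟩,⟨0,[(14,0)]⟩⟩,.a ⟨true,0,⟨0,[(30,0)]⟩,⟨0,[(26,0)]⟩⟩ ⟨true,0,⟨0,[(8,
  0),(28,0)]⟩,⟨5,[(0,1),(0,0),(2,1),(0,1),(10,0),(10,1),(2,1)]⟩⟩ ⟨false,1,⟨1,[(8,1),(31,0),(0,0)]⟩,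
  ⟨1,[(0,0),(3,0),(1,0)]⟩⟩]⟩)) (.Q [0,0,2,0,-1,0,-1,0,1,0,1,-1] (.p true [0,0,1] [0,0,0,0,1] (⟨0,
  [(31,0)]⟩,⟨0,[(30,0)]⟩) .k 2 (⟨0,[(24,0)]⟩,⟨0,[(23,0)]⟩) .k (.r (-1) ⟨0,[(4,0),(33,0),(0,0)]⟩ ⟨4,
  [(7,2),(8,1),(18,0),(0,0)]⟩)) (.Q [0,-2,0,0,2,0,0,0,-1,-1,0,1] (.p true [0,0,0,0,1] [1] (⟨0,[(25,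
  0)]⟩,⟨0,[(24,0)]⟩) .k 1 (⟨0,[]⟩,⟨0,[]⟩) .k .k) (.R ⟨1,false,false,false,[1,-1,-1],[1,0,0,0,-1],[1,
  1,-1,-1,0,0,0,-1],(⟨0,[(21,0)]⟩,⟨0,[(33,0),(2,0)]⟩),(⟨0,[(25,0)]⟩,⟨0,[(26,0)]⟩),⟨0,[(8,0)]⟩,.k,.k,
  (.r (-1) ⟨0,[(9,0),(30,0),(0,0)]⟩ ⟨0,[(7,0)]⟩),(.r 0 ⟨0,[(13,0),(15,0)]⟩ ⟨3,[(7,1),(20,1),(2,1),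
  (9,0),(0,2)]⟩),(.r (-1) ⟨3,[(9,3),(13,0),(0,0),(12,1),(2,3),(0,2)]⟩ ⟨0,[(5,0),(36,0)]⟩),.k,⟨false,
  0,⟨0,[(13,0),(15,0),(8,0),(1,0)]⟩,⟨1,[(6,1),(34,0),(0,0)]⟩⟩,⟨true,1,⟨2,[(0,0),(2,0),(5,0),(3,1),
  (9,1),(14,0)]⟩,⟨0,[(1,0)]⟩⟩,⟨false,0,⟨0,[]⟩,⟨1,[(23,0),(0,0),(17,0)]⟩⟩,⟨true,1,⟨0,[(0,0),(2,0),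
  (36,0)]⟩,⟨0,[(1,0),(11,0),(15,0),(8,0),(1,0)]⟩⟩,⟨true,0,⟨0,[(39,0)]⟩,⟨0,[(40,0)]⟩⟩,⟨true,1,⟨0,[(0,
  0),(2,0)]⟩,⟨0,[(1,0),(11,0),(15,0),(8,0),(1,1)]⟩⟩,[.o ⟨false,2,⟨3,[(0,1),(22,2),(0,0),(9,0)]⟩,⟨0,
  [(1,0),(11,0),(24,0)]⟩⟩,.o ⟨false,2,⟨0,[(0,0)]⟩,⟨1,[(1,0),(9,0),(1,0),(23,0)]⟩⟩,.a ⟨true,0,⟨0,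
  [(31,0)]⟩,⟨0,[(27,0)]⟩⟩ ⟨true,0,⟨0,[(13,0),(15,0)]⟩,⟨1,[(5,0),(0,0),(33,0),(0,0)]⟩⟩ ⟨false,2,⟨0,
  [(0,0),(26,0)]⟩,⟨0,[(1,0),(36,0),(1,0)]⟩⟩,.o ⟨false,0,⟨0,[(4,0)]⟩,⟨1,[(27,1),(6,0),(6,0)]⟩⟩]⟩)
  (.Q [0,-2,0,-1,2,0,0,0,-1,-1,0,1] (.p true [0,0,0,0,1] [1] (⟨0,[(26,0)]⟩,⟨0,[(25,0)]⟩) .k 1 (⟨0,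
  []⟩,⟨0,[]⟩) .k .k) (.R ⟨2,true,false,false,[0,1],[1,0,0,0,-1],[1,0,1,1],(⟨0,[]⟩,⟨0,[]⟩),(⟨0,[(26,
  0)]⟩,⟨0,[(27,0)]⟩),⟨0,[]⟩,.k,.k,.k,(.r 0 ⟨2,[(8,0),(10,0),(25,1)]⟩ ⟨1,[(41,1),(0,0),(0,0)]⟩),.k,
  .k,⟨false,0,⟨0,[(40,0)]⟩,⟨1,[(41,1),(0,0),(0,0)]⟩⟩,⟨true,1,⟨1,[(0,0),(4,0),(8,0),(0,0),(8,0),(14,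
  0)]⟩,⟨0,[(1,0),(41,0)]⟩⟩,⟨true,0,⟨0,[]⟩,⟨0,[(45,0)]⟩⟩,⟨false,2,⟨0,[(0,0)]⟩,⟨0,[(17,0)]⟩⟩,⟨false,1,
  ⟨8,[(8,1),(4,0),(5,1),(22,3),(0,4)]⟩,⟨0,[(41,0)]⟩⟩,⟨true,2,⟨16,[(0,8),(7,1),(4,0),(5,1),(4,7),(10,
  3),(6,3)]⟩,⟨0,[(1,0)]⟩⟩,[]⟩) (.Q [0,0,0,0,0,-1,0,0,0,0,0,1] (.ed false [1,-1,0,0,1] .k) (.Q [0,-1,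
  0,-1,2,0,-1,-1,-1,-1,1,1] (.p true [0,0,1] [1,0,0,0,-1] (⟨0,[(35,0)]⟩,⟨0,[(34,0)]⟩) .k 2 (⟨0,[(27,
  0)]⟩,⟨0,[(28,0)]⟩) .k (.r 0 ⟨0,[(7,0),(34,1),(0,0)]⟩ ⟨3,[(11,1),(8,1),(22,0),(0,2)]⟩)) (.S ⟨1,0,
  [0,1,0,-1],[0,0,0,0,1],[1,2],(⟨0,[(29,0)]⟩,⟨0,[(28,0)]⟩),⟨0,[(1,0)]⟩,.k,(.r 0 ⟨0,[(41,0),(1,1)]⟩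
  ⟨10,[(0,3),(4,1),(4,4),(10,0),(1,1),(3,1),(17,4)]⟩),⟨false,0,⟨0,[]⟩,⟨1,[(26,0),(0,0),(17,0)]⟩⟩,
  ⟨true,0,⟨0,[(43,0)]⟩,⟨0,[(42,0)]⟩⟩,⟨true,0,⟨0,[(42,0)]⟩,⟨0,[(43,0)]⟩⟩,⟨false,1,⟨1,[(26,0),(0,0),
  (17,0)]⟩,⟨0,[]⟩⟩,[.o ⟨false,(-1),⟨3,[(3,1),(0,1),(11,1),(20,0),(5,1),(0,0)]⟩,⟨1,[(0,1),(5,1),(30,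
  0),(7,0)]⟩⟩,.a ⟨true,(-1),⟨0,[(3,0),(39,0),(1,0)]⟩,⟨0,[(0,0),(5,0)]⟩⟩ ⟨false,0,⟨0,[(41,0),(1,0)]⟩,
  ⟨1,[(26,0),(0,0),(17,0)]⟩⟩ ⟨true,0,⟨0,[(43,0)]⟩,⟨7,[(9,0),(0,0),(4,0),(5,1)]⟩⟩,.e ⟨false,0,⟨0,
  [(47,0)]⟩,⟨0,[(45,0)]⟩⟩ ⟨false,0,⟨0,[(43,0)]⟩,⟨22,[(0,3),(4,1),(4,3),(4,4),(7,1),(3,1),(16,8),(0,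
  7)]⟩⟩,.o ⟨false,(-1),⟨0,[(2,0),(4,0),(8,0),(28,0)]⟩,⟨1,[(26,1),(10,0),(6,0)]⟩⟩]⟩) (.R ⟨1,false,
  false,false,[0,0,0,0,1],[1,-1,-1],[1,2],(⟨0,[(29,0)]⟩,⟨0,[(28,0)]⟩),(⟨0,[(24,0)]⟩,⟨0,[(36,0),(2,
  0)]⟩),⟨0,[(1,0)]⟩,.k,.k,(.r 0 ⟨0,[(41,0),(1,1)]⟩ ⟨2,[(10,0),(10,0),(4,0),(0,0),(17,1)]⟩),(.r 0 ⟨5,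
  [(8,0),(1,1),(20,2),(2,2),(5,0),(3,0)]⟩ ⟨1,[(12,1),(31,0),(0,0)]⟩),.k,.k,⟨true,(-1),⟨0,[(8,0),(32,
  0),(1,1)]⟩,⟨0,[(12,0),(32,0)]⟩⟩,⟨false,2,⟨0,[(7,0),(18,0),(17,0)]⟩,⟨1,[(0,1),(11,1),(31,0),(0,
  0)]⟩⟩,⟨false,0,⟨0,[]⟩,⟨1,[(26,0),(0,0),(17,0)]⟩⟩,⟨false,3,⟨1,[(26,1),(5,1),(4,0),(5,1),(1,2)]⟩,⟨0,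
  [(0,0)]⟩⟩,⟨true,0,⟨0,[(42,0)]⟩,⟨0,[(43,0)]⟩⟩,⟨false,3,⟨1,[(26,1),(5,1),(4,0),(7,2)]⟩,⟨0,[(0,0),
  (42,0)]⟩⟩,[.o ⟨false,1,⟨1,[(32,1),(4,0),(5,1),(1,0)]⟩,⟨3,[(6,1),(2,1),(6,1),(20,0),(6,0)]⟩⟩,.e
  ⟨false,0,⟨0,[(41,0),(1,0)]⟩,⟨1,[(26,0),(0,0),(17,0)]⟩⟩ ⟨false,3,⟨1,[(26,1),(5,1),(4,0),(5,1),(0,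
  0),(0,1)]⟩,⟨0,[(0,0)]⟩⟩,.a ⟨true,(-1),⟨0,[(3,0),(41,0)]⟩,⟨0,[(26,0)]⟩⟩ ⟨false,0,⟨0,[(47,0)]⟩,⟨0,
  [(45,0)]⟩⟩ ⟨true,2,⟨1,[(26,1),(5,1),(4,0),(5,1),(1,0)]⟩,⟨0,[(0,0)]⟩⟩,.o ⟨false,(-1),⟨3,[(0,1),(3,
  1),(7,1),(24,0),(7,0)]⟩,⟨1,[(26,1),(10,0),(6,0)]⟩⟩]⟩)) (.Q [0,1,0,1,-2,0,1,1,1,1,-1,-1] (.p false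
  [0,0,1] [1,0,0,0,-1] (⟨0,[(35,0)]⟩,⟨0,[(34,0)]⟩) .k 2 (⟨0,[(27,0)]⟩,⟨0,[(28,0)]⟩) .k (.r 0 ⟨0,[(7,
  0),(34,1),(0,0)]⟩ ⟨3,[(11,1),(8,1),(22,0),(0,2)]⟩)) (.R ⟨0,false,false,false,[0,0,0,0,1],[1,-1,
  -1],[1,1,1],(⟨0,[(29,0)]⟩,⟨0,[(28,0)]⟩),(⟨0,[(24,0)]⟩,⟨0,[(36,0),(2,0)]⟩),⟨0,[(1,0)]⟩,.k,.k,(.r 0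
  ⟨0,[(41,0),(1,1)]⟩ ⟨2,[(10,0),(10,0),(4,0),(0,0),(17,1)]⟩),(.r 0 ⟨5,[(8,0),(1,1),(20,2),(2,2),(5,
  0),(3,0)]⟩ ⟨1,[(12,1),(31,0),(0,0)]⟩),.k,.k,⟨true,(-1),⟨0,[(8,0),(34,0)]⟩,⟨1,[(12,1),(31,0),(0,
  0)]⟩⟩,⟨false,2,⟨0,[(7,0),(18,0),(17,0)]⟩,⟨1,[(0,1),(11,1),(31,0),(0,0)]⟩⟩,⟨true,0,⟨2,[(7,0),(15,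
  0),(10,0)]⟩,⟨0,[(41,0),(1,0)]⟩⟩,⟨false,3,⟨1,[(26,1),(5,1),(4,0),(5,1),(1,2)]⟩,⟨0,[(0,0)]⟩⟩,⟨false,
  0,⟨0,[]⟩,⟨0,[]⟩⟩,⟨false,0,⟨0,[]⟩,⟨0,[]⟩⟩,[.o ⟨false,1,⟨1,[(32,1),(4,0),(5,1),(1,0)]⟩,⟨3,[(6,1),(2,
  1),(6,1),(20,0),(6,0)]⟩⟩,.e ⟨false,0,⟨0,[]⟩,⟨1,[(26,0),(0,0),(16,0)]⟩⟩ ⟨false,3,⟨1,[(26,1),(5,1),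
  (4,0),(5,1),(0,0),(0,1)]⟩,⟨0,[(0,0)]⟩⟩,.a ⟨true,(-1),⟨0,[(3,0),(41,0)]⟩,⟨0,[(26,0)]⟩⟩ ⟨false,0,⟨2,
  [(7,0),(15,0),(10,0)]⟩,⟨1,[(44,0),(0,0)]⟩⟩ ⟨true,2,⟨1,[(26,1),(5,1),(4,0),(5,1),(1,0)]⟩,⟨0,[(0,
  0)]⟩⟩,.o ⟨false,(-1),⟨3,[(0,1),(3,1),(7,1),(24,0),(7,0)]⟩,⟨1,[(26,1),(10,0),(6,0)]⟩⟩]⟩) (.R ⟨0,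
  false,false,true,[0,0,0,0,1],[0,1],[],(⟨0,[(29,0)]⟩,⟨0,[(28,0)]⟩),(⟨0,[(39,0)]⟩,⟨0,[(38,0)]⟩),⟨0,
  [(1,0)]⟩,.k,.k,(.r 0 ⟨0,[(41,0),(1,1)]⟩ ⟨10,[(0,3),(4,1),(4,4),(10,0),(1,1),(3,1),(17,4)]⟩),(.r 0
  ⟨0,[(41,0),(1,1)]⟩ ⟨10,[(0,3),(4,1),(4,4),(10,0),(1,1),(3,1),(17,4)]⟩),.k,.k,⟨true,1,⟨1,[(43,1),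
  (0,0),(0,0)]⟩,⟨0,[(17,0)]⟩⟩,⟨false,2,⟨0,[(26,0),(17,0)]⟩,⟨0,[(2,0),(4,0),(8,0),(28,0)]⟩⟩,⟨false,1,
  ⟨0,[(45,0)]⟩,⟨0,[(47,0)]⟩⟩,⟨true,1,⟨0,[(0,0),(5,0)]⟩,⟨3,[(3,1),(0,1),(11,1),(20,0),(5,1),(0,0)]⟩⟩,
  ⟨false,0,⟨0,[]⟩,⟨0,[]⟩⟩,⟨false,0,⟨0,[]⟩,⟨0,[]⟩⟩,[.o ⟨false,0,⟨0,[(42,0)]⟩,⟨1,[(37,0),(5,1),(1,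
  0)]⟩⟩,.a ⟨true,0,⟨17,[(10,2),(2,16),(1,2),(5,2),(1,0),(10,1)]⟩,⟨0,[(43,0)]⟩⟩ ⟨false,1,⟨1,[(44,0),
  (0,0)]⟩,⟨0,[(47,0)]⟩⟩ ⟨true,1,⟨0,[(0,0),(5,0)]⟩,⟨0,[(4,0),(11,0)]⟩⟩,.e ⟨false,1,⟨1,[(26,0),(0,0),
  (17,0)]⟩,⟨0,[]⟩⟩ ⟨false,1,⟨0,[(0,0),(5,0)]⟩,⟨1,[(4,1),(11,1),(27,0),(0,0)]⟩⟩,.o ⟨false,(-1),⟨0,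
  [(2,0),(4,0),(8,0),(28,0)]⟩,⟨1,[(26,1),(10,0),(6,0)]⟩⟩]⟩))))) (.Q [0,0,0,0,0,-1,0,0,0,0,0,1] (.ed
  false [1,-1,0,0,1] .k) (.Q [0,0,1,1,-1,0,0,0,1,1,0,-1] (.p false [0,0,0,0,1] [1] (⟨0,[(26,0)]⟩,⟨0,
  [(25,0)]⟩) .k 1 (⟨0,[]⟩,⟨0,[]⟩) .k .k) (.R ⟨1,false,false,false,[0,0,0,0,1],[1,-1],[1,2],(⟨0,[(27,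
  0)]⟩,⟨0,[(26,0)]⟩),(⟨0,[(36,0)]⟩,⟨0,[(37,0)]⟩),⟨0,[(1,0)]⟩,.k,.k,(.r 0 ⟨0,[(39,0),(1,1)]⟩ ⟨2,[(8,
  0),(10,0),(4,0),(0,0),(17,1)]⟩),(.r 0 ⟨2,[(8,0),(10,0),(25,1)]⟩ ⟨1,[(41,1),(0,0),(0,0)]⟩),.k,.k,
  ⟨true,(-1),⟨0,[(6,0),(7,0),(15,0)]⟩,⟨0,[(41,0),(1,0)]⟩⟩,⟨false,1,⟨0,[(2,0),(2,0)]⟩,⟨0,[(11,0),(13,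
  0)]⟩⟩,⟨false,0,⟨0,[]⟩,⟨1,[(24,0),(0,0),(17,0)]⟩⟩,⟨false,2,⟨0,[(2,0),(2,0),(35,0),(1,0)]⟩,⟨0,[(17,
  0)]⟩⟩,⟨true,0,⟨0,[(40,0)]⟩,⟨0,[(41,0)]⟩⟩,⟨false,2,⟨0,[(2,0),(2,0),(37,0)]⟩,⟨0,[(18,0)]⟩⟩,[.a
  ⟨true,0,⟨0,[(41,0)]⟩,⟨6,[(0,1),(2,0),(7,3),(1,0),(10,2)]⟩⟩ ⟨false,0,⟨0,[(38,0)]⟩,⟨0,[(43,0)]⟩⟩
  ⟨true,1,⟨0,[(2,0),(2,0),(35,0)]⟩,⟨0,[(0,0)]⟩⟩,.o ⟨false,1,⟨1,[(35,0),(5,1),(1,0)]⟩,⟨0,[(40,0)]⟩⟩,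
  .o ⟨false,0,⟨0,[(25,0)]⟩,⟨0,[(2,0),(2,0)]⟩⟩,.e ⟨false,0,⟨0,[(39,0),(1,0)]⟩,⟨2,[(5,0),(15,0),(10,
  0),(10,2)]⟩⟩ ⟨false,2,⟨1,[(2,1),(2,1),(35,1),(0,0),(0,0)]⟩,⟨0,[(0,0)]⟩⟩]⟩) (.Q [0,0,1,0,-1,0,0,0,
  1,1,0,-1] (.p false [0,0,0,0,1] [1] (⟨0,[(27,0)]⟩,⟨0,[(26,0)]⟩) .k 1 (⟨0,[]⟩,⟨0,[]⟩) .k .k) (.S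
  ⟨1,0,[0,1,0,-1],[0,0,0,0,1],[1,2],(⟨0,[(28,0)]⟩,⟨0,[(27,0)]⟩),⟨0,[(2,0)]⟩,.k,(.r 0 ⟨0,[(1,0),(17,
  0)]⟩ ⟨2,[(9,0),(10,0),(4,0),(0,0),(17,1)]⟩),⟨false,0,⟨0,[]⟩,⟨1,[(25,0),(0,0),(17,0)]⟩⟩,⟨true,0,⟨0,
  [(42,0)]⟩,⟨0,[(41,0)]⟩⟩,⟨true,0,⟨0,[(41,0)]⟩,⟨0,[(42,0)]⟩⟩,⟨false,1,⟨1,[(25,0),(0,0),(17,0)]⟩,⟨0,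
  []⟩⟩,[.e ⟨false,0,⟨0,[(39,0)]⟩,⟨0,[(44,0)]⟩⟩ ⟨false,0,⟨0,[(1,0),(17,0)]⟩,⟨8,[(9,1),(4,0),(5,1),
  (22,3),(0,4)]⟩⟩,.o ⟨false,0,⟨0,[(26,0),(15,0)]⟩,⟨1,[(1,1),(12,0),(26,0)]⟩⟩,.o ⟨false,0,⟨0,[(26,
  0)]⟩,⟨5,[(1,3),(12,0),(1,0),(8,1),(10,0)]⟩⟩,.a ⟨true,(-1),⟨0,[(0,0)]⟩,⟨6,[(1,3),(10,3),(1,0),(10,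
  2),(14,0)]⟩⟩ ⟨false,0,⟨1,[(1,0),(17,0),(20,0)]⟩,⟨4,[(0,0),(5,1),(15,0),(2,0),(18,4)]⟩⟩ ⟨true,0,⟨0,
  [(1,0),(17,0)]⟩,⟨7,[(8,0),(0,0),(4,0),(5,1)]⟩⟩]⟩) (.S ⟨1,0,[0,2,0,-1],[0,0,0,0,1],[1,1],(⟨0,[(28,
  0)]⟩,⟨0,[(27,0)]⟩),⟨0,[(2,0)]⟩,.k,(.r 0 ⟨0,[(1,0),(17,0)]⟩ ⟨2,[(9,0),(10,0),(4,0),(0,0),(17,1)]⟩),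
  ⟨true,0,⟨0,[]⟩,⟨0,[(46,0)]⟩⟩,⟨false,0,⟨0,[(42,0)]⟩,⟨8,[(9,1),(4,0),(5,1),(22,3),(0,4)]⟩⟩,⟨false,1,
  ⟨8,[(9,1),(4,0),(5,1),(22,3),(0,4)]⟩,⟨0,[(42,0)]⟩⟩,⟨true,0,⟨0,[(46,0)]⟩,⟨0,[]⟩⟩,[.o ⟨false,(-1),
  ⟨0,[(13,0),(28,1)]⟩,⟨5,[(0,3),(13,1),(10,1),(10,0),(7,4)]⟩⟩,.a ⟨true,(-1),⟨0,[(19,0),(22,0)]⟩,⟨2,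
  [(1,2),(6,0),(2,0),(0,2),(1,1)]⟩⟩ ⟨true,0,⟨0,[]⟩,⟨2,[(6,0),(15,0),(10,0)]⟩⟩ ⟨false,0,⟨0,[(1,0),
  (17,0)]⟩,⟨8,[(9,1),(4,0),(5,1),(22,3),(0,4)]⟩⟩,.o ⟨false,0,⟨0,[(26,0)]⟩,⟨5,[(1,3),(12,0),(1,0),(8,
  1),(10,0)]⟩⟩,.o ⟨false,0,⟨2,[(6,0),(15,0),(3,2),(6,0)]⟩,⟨0,[(0,0)]⟩⟩]⟩))) (.Q [0,0,1,1,-1,0,0,0,1,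
  1,0,-1] (.p false [0,0,0,0,1] [1] (⟨0,[(26,0)]⟩,⟨0,[(25,0)]⟩) .k 1 (⟨0,[]⟩,⟨0,[]⟩) .k .k) (.R ⟨0,
  false,false,true,[0,0,0,0,1],[1,-1],[1,0,1],(⟨0,[(27,0)]⟩,⟨0,[(26,0)]⟩),(⟨0,[(36,0)]⟩,⟨0,[(37,
  0)]⟩),⟨0,[(1,0)]⟩,.k,.k,(.r 0 ⟨0,[(39,0),(1,1)]⟩ ⟨2,[(8,0),(10,0),(4,0),(0,0),(17,1)]⟩),(.r 0 ⟨2,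
  [(8,0),(10,0),(25,1)]⟩ ⟨1,[(41,1),(0,0),(0,0)]⟩),.k,.k,⟨true,0,⟨2,[(7,1),(2,1),(2,0)]⟩,⟨0,[(39,0),
  (1,1)]⟩⟩,⟨false,1,⟨0,[(2,0),(2,0)]⟩,⟨0,[(11,0),(13,0)]⟩⟩,⟨false,1,⟨2,[(5,0),(15,0),(10,0),(10,
  2)]⟩,⟨0,[(39,0),(1,0)]⟩⟩,⟨true,1,⟨0,[(2,0),(2,0),(35,0)]⟩,⟨0,[(17,0)]⟩⟩,⟨false,0,⟨0,[]⟩,⟨0,[]⟩⟩,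
  ⟨false,0,⟨0,[]⟩,⟨0,[]⟩⟩,[.o ⟨false,0,⟨0,[(5,0),(8,0),(24,0),(1,0)]⟩,⟨8,[(8,1),(4,0),(5,1),(22,3),
  (0,4)]⟩⟩,.a ⟨true,0,⟨0,[(41,0)]⟩,⟨6,[(0,1),(2,0),(7,3),(1,0),(10,2)]⟩⟩ ⟨false,1,⟨1,[(24,0),(0,0),
  (17,0)]⟩,⟨0,[(39,0),(1,0)]⟩⟩ ⟨true,1,⟨0,[(2,0),(2,0),(35,0)]⟩,⟨0,[(0,0)]⟩⟩,.o ⟨false,0,⟨0,[(25,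
  0)]⟩,⟨0,[(2,0),(2,0)]⟩⟩,.e ⟨true,0,⟨0,[]⟩,⟨0,[(45,0)]⟩⟩ ⟨true,1,⟨0,[(2,0),(2,0),(33,0),(1,1)]⟩,⟨0,
  [(0,0)]⟩⟩]⟩) (.Q [0,0,1,0,-1,0,0,0,1,1,0,-1] (.p false [0,0,0,0,1] [1] (⟨0,[(27,0)]⟩,⟨0,[(26,
  0)]⟩) .k 1 (⟨0,[]⟩,⟨0,[]⟩) .k .k) (.R ⟨0,false,false,false,[0,0,0,0,1],[1,-1],[1,1,1],(⟨0,[(28,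
  0)]⟩,⟨0,[(27,0)]⟩),(⟨0,[(37,0)]⟩,⟨0,[(38,0)]⟩),⟨0,[(2,0)]⟩,.k,.k,(.r 0 ⟨0,[(1,0),(17,0)]⟩ ⟨2,[(9,
  0),(10,0),(4,0),(0,0),(17,1)]⟩),(.r 0 ⟨2,[(9,0),(10,0),(25,1)]⟩ ⟨1,[(42,1),(0,0),(0,0)]⟩),.k,.k,
  ⟨true,(-1),⟨0,[(16,0)]⟩,⟨1,[(42,1),(0,0),(0,0)]⟩⟩,⟨false,1,⟨5,[(1,3),(12,0),(1,0),(8,1),(10,0)]⟩,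
  ⟨0,[(12,0),(13,0)]⟩⟩,⟨true,0,⟨4,[(0,0),(5,1),(15,0),(2,0)]⟩,⟨1,[(1,0),(17,0),(20,0)]⟩⟩,⟨false,2,
  ⟨3,[(1,2),(4,0),(18,0),(6,0),(9,0),(1,3)]⟩,⟨0,[(18,0)]⟩⟩,⟨false,0,⟨0,[]⟩,⟨0,[]⟩⟩,⟨false,0,⟨0,[]⟩,
  ⟨0,[]⟩⟩,[.e ⟨false,0,⟨0,[(46,0)]⟩,⟨1,[(43,0),(0,0)]⟩⟩ ⟨false,1,⟨0,[(1,0)]⟩,⟨1,[(4,0),(14,0),(5,0),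
  (0,0),(17,0)]⟩⟩,.o ⟨false,1,⟨1,[(36,0),(5,1),(1,0)]⟩,⟨0,[(41,0)]⟩⟩,.o ⟨false,0,⟨0,[(26,0)]⟩,⟨5,
  [(1,3),(12,0),(1,0),(8,1),(10,0)]⟩⟩,.a ⟨true,(-1),⟨0,[(0,0)]⟩,⟨6,[(1,3),(10,3),(1,0),(10,2),(14,
  0)]⟩⟩ ⟨false,0,⟨0,[]⟩,⟨1,[(25,0),(0,0),(17,0)]⟩⟩ ⟨true,1,⟨0,[(1,0)]⟩,⟨7,[(0,1),(3,0),(4,1),(9,4),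
  (0,1)]⟩⟩]⟩) (.R ⟨0,false,false,true,[0,0,0,0,1],[0,1],[1,1,1,1],(⟨0,[(28,0)]⟩,⟨0,[(27,0)]⟩),(⟨0,
  [(38,0)]⟩,⟨0,[(37,0)]⟩),⟨0,[(2,0)]⟩,.k,.k,(.r 0 ⟨0,[(1,0),(17,0)]⟩ ⟨2,[(9,0),(10,0),(4,0),(0,0),
  (17,1)]⟩),(.r 0 ⟨0,[(1,0),(17,0)]⟩ ⟨2,[(9,0),(10,0),(4,0),(0,0),(17,1)]⟩),.k,.k,⟨true,0,⟨0,[]⟩,⟨2,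
  [(6,0),(15,0),(10,0)]⟩⟩,⟨false,1,⟨0,[(0,0),(11,0)]⟩,⟨2,[(6,0),(15,0),(3,2),(6,0)]⟩⟩,⟨true,0,⟨7,
  [(8,0),(0,0),(4,0),(5,1)]⟩,⟨0,[(1,0),(17,0)]⟩⟩,⟨false,1,⟨2,[(1,2),(6,0),(2,0),(0,2),(1,1)]⟩,⟨0,
  [(26,0),(15,0)]⟩⟩,⟨false,0,⟨0,[]⟩,⟨0,[]⟩⟩,⟨false,0,⟨0,[]⟩,⟨0,[]⟩⟩,[.o ⟨false,0,⟨0,[(41,0)]⟩,⟨1,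
  [(36,0),(5,1),(1,0)]⟩⟩,.a ⟨true,0,⟨17,[(9,2),(2,16),(1,2),(5,2),(1,0),(10,1)]⟩,⟨0,[(42,0)]⟩⟩
  ⟨true,0,⟨7,[(8,0),(0,0),(4,0),(5,1)]⟩,⟨0,[(42,0)]⟩⟩ ⟨false,1,⟨7,[(0,4),(11,4),(1,1),(10,2),(14,
  1)]⟩,⟨0,[(26,0),(15,0)]⟩⟩,.o ⟨false,0,⟨0,[(26,0)]⟩,⟨5,[(1,3),(12,0),(1,0),(8,1),(10,0)]⟩⟩,.o
  ⟨false,0,⟨2,[(6,0),(15,0),(3,2),(6,0)]⟩,⟨0,[(0,0)]⟩⟩]⟩)))))))) (.Q [0,0,0,2,0,0,1,1,0,0,-1] (.p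
  false [0,0,1] [] (⟨0,[(28,0)]⟩,⟨0,[(27,0)]⟩) .k 0 (⟨0,[]⟩,⟨0,[]⟩) .k .k) (.S ⟨1,0,[0,0,-1,-2,0,0,
  0,-1],[1,-1,-1],[1,1,-1,-1,0,0,0,-1],(⟨0,[(17,0)]⟩,⟨0,[(29,0),(2,0)]⟩),⟨0,[(4,0)]⟩,.k,(.r (-1) ⟨0,
  [(1,0),(38,0)]⟩ ⟨0,[(3,0)]⟩),⟨false,0,⟨0,[]⟩,⟨1,[(19,0),(0,0),(17,0)]⟩⟩,⟨true,0,⟨0,[(36,0)]⟩,⟨0,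
  [(35,0)]⟩⟩,⟨true,0,⟨0,[(35,0)]⟩,⟨0,[(36,0)]⟩⟩,⟨false,1,⟨1,[(19,0),(0,0),(17,0)]⟩,⟨0,[]⟩⟩,[.o
  ⟨false,1,⟨5,[(1,1),(3,1),(13,0),(0,0),(4,1),(1,3),(2,2),(5,5)]⟩,⟨0,[(0,0)]⟩⟩,.e ⟨false,1,⟨6,[(1,
  4),(12,1),(18,0),(0,0),(2,1)]⟩,⟨0,[(0,0),(26,0),(8,0)]⟩⟩ ⟨false,1,⟨0,[(1,0)]⟩,⟨1,[(0,0),(2,0),(23,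
  0),(5,0)]⟩⟩,.a ⟨true,0,⟨0,[(27,0)]⟩,⟨0,[(23,0)]⟩⟩ ⟨true,0,⟨0,[(9,0),(15,0)]⟩,⟨0,[(0,0),(26,0),(8,
  0)]⟩⟩ ⟨false,1,⟨1,[(1,1),(24,0),(0,0)]⟩,⟨0,[(0,0),(26,0)]⟩⟩,.e ⟨false,1,⟨6,[(1,4),(12,1),(18,0),
  (0,0),(2,1)]⟩,⟨0,[(2,0)]⟩⟩ ⟨false,1,⟨0,[(1,0)]⟩,⟨0,[(3,0)]⟩⟩]⟩) (.S ⟨1,1,[],[1,-1,-1],[0,0,1],(⟨0,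
  [(17,0)]⟩,⟨0,[(29,0),(2,0)]⟩),⟨0,[(4,0)]⟩,.k,(.r (-1) ⟨19,[(0,3),(0,15),(14,1),(2,2),(0,2),(9,0),
  (2,7)]⟩ ⟨0,[(3,0)]⟩),⟨false,0,⟨0,[(2,0)]⟩,⟨6,[(1,4),(12,1),(18,0),(0,0),(2,1)]⟩⟩,⟨true,0,⟨0,[(2,
  0),(6,0),(24,0)]⟩,⟨10,[(0,6),(2,0),(10,0),(10,3),(7,2)]⟩⟩,⟨true,0,⟨0,[(3,0)]⟩,⟨0,[(0,0),(8,0),(24,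
  0)]⟩⟩,⟨false,1,⟨4,[(2,0),(5,0),(0,0),(5,3),(18,2),(3,4)]⟩,⟨0,[(0,0)]⟩⟩,[.fo,.o ⟨false,1,⟨1,[(30,
  0),(7,0)]⟩,⟨0,[(40,0)]⟩⟩,.a ⟨true,0,⟨0,[(27,0)]⟩,⟨0,[(23,0)]⟩⟩ ⟨true,0,⟨2,[(0,0),(2,0),(22,0)]⟩,
  ⟨0,[(34,0),(1,0)]⟩⟩ ⟨false,1,⟨1,[(23,1),(6,0),(7,0)]⟩,⟨0,[(27,0)]⟩⟩,.e ⟨false,1,⟨1,[(19,0),(0,0),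
  (17,0)]⟩,⟨0,[]⟩⟩ ⟨false,1,⟨0,[(9,0),(24,0),(3,0)]⟩,⟨0,[(0,0),(2,0)]⟩⟩]⟩)))

theorem ok86 : chk K t86 r48 = true := by decide +kernel

noncomputable def t88 : Tre :=
  (.Q [0,0,1,0,-1,0,1,0,0,1,-1] (.p false [0,0,1] [1] (⟨0,[(28,0)]⟩,⟨0,[(27,0)]⟩) .k 1 (⟨0,[]⟩,⟨0,
  []⟩) .k .k) (.S ⟨1,0,[0,0,0,-1,0,0,0,1],[0,0,1],[0,1,0,-1,0,0,0,1],(⟨0,[(29,0)]⟩,⟨0,[(28,0)]⟩),⟨0,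
  [(18,0)]⟩,.k,.k,⟨false,0,⟨0,[(36,0)]⟩,⟨8,[(1,1),(6,2),(5,1),(22,2),(0,3)]⟩⟩,⟨true,0,⟨0,[(36,0)]⟩,
  ⟨0,[(35,0)]⟩⟩,⟨true,0,⟨0,[(40,0)]⟩,⟨0,[]⟩⟩,⟨false,1,⟨2,[(1,0),(12,0),(23,1)]⟩,⟨0,[]⟩⟩,[.e ⟨false,
  1,⟨0,[(1,0),(38,0)]⟩,⟨0,[(3,0),(4,0)]⟩⟩ ⟨false,1,⟨0,[(1,0)]⟩,⟨13,[(3,8),(4,7),(5,4),(19,2)]⟩⟩,.o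
  ⟨false,1,⟨1,[(0,1),(0,1),(28,0),(7,0)]⟩,⟨1,[(3,1),(4,0),(1,0),(16,1),(2,0),(3,1)]⟩⟩,.o ⟨false,0,
  ⟨0,[(11,0)]⟩,⟨1,[(27,1),(2,0),(6,0)]⟩⟩,.a ⟨true,(-1),⟨0,[(0,0)]⟩,⟨0,[(27,0),(9,0)]⟩⟩ ⟨false,1,⟨0,
  [(1,0)]⟩,⟨3,[(3,1),(1,1),(2,2),(1,0),(27,0)]⟩⟩ ⟨true,1,⟨0,[(1,0)]⟩,⟨6,[(3,5),(4,2),(1,6),(3,0),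
  (19,1)]⟩⟩]⟩) (.I [0,-1,0,-1,1,0,0,1] (.S ⟨1,0,[0,0,1,0,0,0,0,-1],[1,1,-1],[1,1,1,1,0,0,0,-1],(⟨0,
  [(29,0),(3,0)]⟩,⟨0,[(19,0)]⟩),⟨0,[(29,0)]⟩,.k,.k,⟨false,0,⟨0,[]⟩,⟨2,[(2,0),(12,0),(23,1)]⟩⟩,⟨true,
  0,⟨0,[(37,0)]⟩,⟨0,[(36,0)]⟩⟩,⟨true,0,⟨0,[(36,0)]⟩,⟨0,[(37,0)]⟩⟩,⟨false,1,⟨2,[(2,0),(12,0),(23,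
  1)]⟩,⟨0,[]⟩⟩,[.a ⟨true,0,⟨6,[(4,4),(4,2),(16,1),(1,4),(6,0)]⟩,⟨0,[(3,0),(33,0)]⟩⟩ ⟨true,(-1),⟨6,
  [(4,5),(4,2),(1,6),(3,0),(19,1)]⟩,⟨0,[(0,0)]⟩⟩ ⟨false,0,⟨6,[(4,2),(1,1),(2,1),(5,1)]⟩,⟨1,[(1,0),
  (0,0),(0,0)]⟩⟩,.o ⟨false,1,⟨3,[(1,1),(2,1),(1,1),(2,1),(18,1),(2,0),(7,0)]⟩,⟨0,[(25,0)]⟩⟩,.o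
  ⟨false,1,⟨0,[(1,0)]⟩,⟨0,[(27,0)]⟩⟩,.o ⟨false,1,⟨4,[(0,0),(0,2),(13,0),(12,1),(2,0)]⟩,⟨0,[(12,
  0)]⟩⟩]⟩) (.Q [0,0,-2,0,0,0,1,0,0,1,-1] (.p false [0,0,1] [1] (⟨0,[(30,0)]⟩,⟨0,[(29,0)]⟩) .k 1 (⟨0,
  []⟩,⟨0,[]⟩) .k .k) (.Q [0,0,0,-2,0,0,-1,-1,0,-1,1] (.p true [0,0,1] [1] (⟨0,[(31,0)]⟩,⟨0,[(30,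
  0)]⟩) .k 1 (⟨0,[]⟩,⟨0,[]⟩) .k .k) (.R ⟨1,false,false,true,[1,-1],[0,0,1],[1,1,0,0,0,0,0,1],(⟨0,
  [(34,0)]⟩,⟨0,[(35,0)]⟩),(⟨0,[(32,0)]⟩,⟨0,[(31,0)]⟩),⟨1,[(7,0),(13,0),(12,0)]⟩,.k,.k,(.r (-1) ⟨4,
  [(4,3),(1,1),(1,1),(31,0)]⟩ ⟨6,[(4,1),(6,3),(1,1),(3,1),(11,0),(0,0)]⟩),.k,(.r 0 ⟨0,[(0,0),(0,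
  0)]⟩ ⟨13,[(4,19),(6,11),(1,5),(3,5),(11,2),(0,2)]⟩),.k,⟨true,0,⟨0,[]⟩,⟨1,[(29,0),(0,0)]⟩⟩,⟨false,
  0,⟨0,[(1,0)]⟩,⟨5,[(4,1),(12,1),(12,5),(2,2),(7,0)]⟩⟩,⟨true,0,⟨0,[(18,0),(11,0)]⟩,⟨6,[(6,4),(1,0),
  (2,0),(5,0)]⟩⟩,⟨false,0,⟨0,[(5,0)]⟩,⟨3,[(0,1),(27,1),(4,0),(7,2)]⟩⟩,⟨true,0,⟨0,[(3,0),(1,0),(7,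
  0)]⟩,⟨1,[(6,0),(1,0),(30,0)]⟩⟩,⟨true,0,⟨0,[(5,0),(32,0)]⟩,⟨0,[(0,0)]⟩⟩,[.o ⟨false,0,⟨0,[(27,0)]⟩,
  ⟨31,[(0,9),(2,7),(2,7),(4,11),(16,13),(4,6),(7,16)]⟩⟩,.e ⟨false,1,⟨1,[(3,0),(0,0),(0,0)]⟩,⟨6,[(6,
  2),(1,1),(2,1),(5,1)]⟩⟩ ⟨false,1,⟨1,[(4,0),(0,0),(20,0),(13,0)]⟩,⟨16,[(0,11),(1,0),(0,0),(7,6),(1,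
  1),(14,3),(4,1)]⟩⟩,.a ⟨true,0,⟨1,[(29,0),(0,0)]⟩,⟨0,[(9,0)]⟩⟩ ⟨false,1,⟨13,[(4,15),(6,3),(1,1),(3,
  1),(11,0),(0,0)]⟩,⟨1,[(6,1),(4,0),(1,0),(27,0)]⟩⟩ ⟨true,0,⟨0,[(9,0),(17,0)]⟩,⟨16,[(0,11),(1,0),(0,
  0),(7,6),(1,1),(14,3),(4,1)]⟩⟩,.o ⟨false,0,⟨1,[(13,1),(19,0),(5,1),(1,0)]⟩,⟨0,[(40,0)]⟩⟩]⟩) (.Q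
  [0,0,2,0,0,0,0,0,-1,-1,0,1] (.p true [0,0,0,0,1] [1] (⟨0,[(25,0)]⟩,⟨0,[(24,0)]⟩) .k 1 (⟨0,[]⟩,⟨0,
  []⟩) .k .k) (.Q [0,0,0,0,0,-1,0,0,0,0,0,1] (.ed false [1,-1,0,0,1] .k) (.S ⟨1,0,[0,2,0,-1],[0,0,0,
  0,1],[1,1],(⟨0,[(27,0)]⟩,⟨0,[(26,0)]⟩),⟨0,[(0,0)]⟩,.k,(.r 0 ⟨2,[(6,1),(1,1),(6,1),(23,0)]⟩ ⟨17,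
  [(6,7),(6,5),(5,7),(11,2),(0,2),(10,9)]⟩),⟨true,0,⟨0,[]⟩,⟨0,[(45,0)]⟩⟩,⟨false,0,⟨0,[(41,0)]⟩,⟨8,
  [(6,1),(6,2),(5,1),(22,2),(0,3)]⟩⟩,⟨false,1,⟨8,[(6,1),(6,2),(5,1),(22,2),(0,3)]⟩,⟨0,[(41,0)]⟩⟩,
  ⟨true,0,⟨0,[(45,0)]⟩,⟨0,[]⟩⟩,[.o ⟨false,(-1),⟨0,[(12,0),(28,1)]⟩,⟨5,[(1,3),(1,3),(1,3),(7,1),(10,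
  1),(10,0),(7,4)]⟩⟩,.a ⟨true,(-1),⟨0,[(18,0),(22,0)]⟩,⟨5,[(1,4),(1,2),(1,2),(5,4),(1,1),(10,0),(18,
  1)]⟩⟩ ⟨true,0,⟨0,[]⟩,⟨1,[(31,0),(0,0)]⟩⟩ ⟨false,0,⟨2,[(6,1),(1,1),(6,1),(23,0)]⟩,⟨8,[(6,1),(6,2),
  (5,1),(22,2),(0,3)]⟩⟩,.o ⟨false,0,⟨0,[(25,0)]⟩,⟨4,[(1,2),(1,1),(1,1),(18,1),(10,0)]⟩⟩,.o ⟨false,0,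
  ⟨1,[(25,1),(5,0),(0,0)]⟩,⟨0,[(1,0),(1,0),(1,0)]⟩⟩]⟩) (.R ⟨0,false,false,true,[0,0,0,0,1],[0,1],[1,
  1,1,1],(⟨0,[(27,0)]⟩,⟨0,[(26,0)]⟩),(⟨0,[(37,0)]⟩,⟨0,[(36,0)]⟩),⟨0,[(0,0)]⟩,.k,.k,(.r 0 ⟨2,[(6,1),
  (1,1),(6,1),(23,0)]⟩ ⟨17,[(6,7),(6,5),(5,7),(11,2),(0,2),(10,9)]⟩),(.r 0 ⟨2,[(6,1),(1,1),(6,1),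
  (23,0)]⟩ ⟨17,[(6,7),(6,5),(5,7),(11,2),(0,2),(10,9)]⟩),.k,.k,⟨true,0,⟨0,[]⟩,⟨1,[(31,0),(0,0)]⟩⟩,
  ⟨false,1,⟨0,[(1,0),(1,0),(1,0),(5,0)]⟩,⟨1,[(25,1),(5,0),(0,0)]⟩⟩,⟨true,0,⟨13,[(6,1),(6,3),(1,1),
  (3,1),(11,0),(0,0)]⟩,⟨2,[(6,1),(1,1),(6,1),(23,0)]⟩⟩,⟨false,1,⟨5,[(1,4),(1,2),(1,2),(5,4),(1,1),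
  (10,0),(18,1)]⟩,⟨0,[(25,0),(15,0)]⟩⟩,⟨false,0,⟨0,[]⟩,⟨0,[]⟩⟩,⟨false,0,⟨0,[]⟩,⟨0,[]⟩⟩,[.o ⟨false,0,
  ⟨0,[(40,0)]⟩,⟨1,[(35,0),(5,1),(1,0)]⟩⟩,.a ⟨true,0,⟨4,[(7,0),(3,3),(1,0),(5,0),(12,0)]⟩,⟨0,[(41,
  0)]⟩⟩ ⟨true,0,⟨13,[(6,1),(6,3),(1,1),(3,1),(11,0),(0,0)]⟩,⟨0,[(41,0)]⟩⟩ ⟨false,1,⟨7,[(1,4),(1,4),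
  (1,4),(5,4),(1,1),(10,2),(14,1)]⟩,⟨0,[(25,0),(15,0)]⟩⟩,.o ⟨false,0,⟨0,[(25,0)]⟩,⟨4,[(1,2),(1,1),
  (1,1),(18,1),(10,0)]⟩⟩,.o ⟨false,0,⟨1,[(25,1),(5,0),(0,0)]⟩,⟨0,[(1,0),(1,0),(1,0)]⟩⟩]⟩)) (.Q [0,0,
  0,0,0,2,0,0,0,0,-1] (.p false [0,0,1] [] (⟨0,[(33,0)]⟩,⟨0,[(32,0)]⟩) .k 0 (⟨0,[]⟩,⟨0,[]⟩) .k .k)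
  (.Q [0,0,-2,0,1,0,-2,-1,0,-1,2] (.p true [0,0,1] [1,0,-1] (⟨0,[(34,0)]⟩,⟨0,[(33,0)]⟩) .k 2 (⟨0,
  [(33,0)]⟩,⟨0,[(34,0)]⟩) .k (.r (-2) ⟨6,[(6,15),(6,3),(1,1),(3,1),(11,0),(0,0)]⟩ ⟨0,[(8,1),(4,0),
  (1,0)]⟩)) (.R ⟨0,false,false,false,[0,-1,1],[1,0,-1],[1,1,1],(⟨0,[(24,0)]⟩,⟨5,[(1,2),(10,1),(9,0),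
  (10,1),(0,2)]⟩),(⟨0,[(34,0)]⟩,⟨0,[(35,0)]⟩),⟨0,[(1,0)]⟩,.k,.k,(.r (-2) ⟨11,[(7,19),(3,5),(8,1),
  (22,2),(0,0)]⟩ ⟨0,[(9,0),(4,0),(1,0)]⟩),(.r (-2) ⟨13,[(7,29),(6,3),(1,1),(3,1),(11,0),(0,0)]⟩ ⟨3,
  [(5,0),(3,4),(1,1),(2,3),(1,2)]⟩),.k,.k,⟨true,0,⟨0,[(7,0),(8,0)]⟩,⟨1,[(9,1),(4,0),(1,0),(27,0)]⟩⟩,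
  ⟨false,2,⟨2,[(0,1),(5,0),(0,2),(6,0),(16,0)]⟩,⟨0,[(4,0),(10,0),(0,1),(25,0),(1,0)]⟩⟩,⟨false,(-1),
  ⟨1,[(9,1),(4,0),(1,2),(27,0)]⟩,⟨1,[(7,1),(35,0),(0,0)]⟩⟩,⟨true,0,⟨7,[(0,5),(8,9),(4,6),(1,6),(16,
  3),(2,0)]⟩,⟨0,[(8,0),(21,0),(11,1)]⟩⟩,⟨false,0,⟨0,[]⟩,⟨0,[]⟩⟩,⟨false,0,⟨0,[]⟩,⟨0,[]⟩⟩,[.e ⟨false,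
  0,⟨0,[(46,0)]⟩,⟨1,[(43,0),(0,0)]⟩⟩ ⟨false,1,⟨0,[(0,0)]⟩,⟨0,[(8,0),(23,0),(9,0)]⟩⟩,.o ⟨false,1,⟨19,
  [(0,5),(8,3),(1,9),(2,5),(18,7),(2,6),(7,6)]⟩,⟨0,[(30,0)]⟩⟩,.o ⟨false,0,⟨0,[(32,0)]⟩,⟨0,[(6,0)]⟩⟩,
  .a ⟨true,(-1),⟨0,[(4,0),(11,1),(25,1),(1,0)]⟩,⟨4,[(0,2),(2,0),(3,1),(4,1)]⟩⟩ ⟨false,0,⟨0,[]⟩,⟨2,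
  [(7,0),(12,0),(23,1)]⟩⟩ ⟨true,1,⟨0,[(0,0)]⟩,⟨1,[(8,1),(6,0),(0,1),(15,0),(9,2)]⟩⟩]⟩) (.R ⟨0,false,
  false,false,[0,-1,1],[1,0,-1],[1,1,1],(⟨0,[(24,0)]⟩,⟨5,[(1,2),(10,1),(9,0),(10,1),(0,2)]⟩),(⟨0,
  [(34,0)]⟩,⟨0,[(35,0)]⟩),⟨0,[(1,0)]⟩,.k,.k,(.r (-2) ⟨11,[(7,19),(3,5),(8,1),(22,2),(0,0)]⟩ ⟨0,[(9,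
  0),(4,0),(1,0)]⟩),(.r (-2) ⟨45,[(0,1),(6,97),(6,12),(1,4),(3,7),(12,3),(2,0)]⟩ ⟨3,[(5,0),(3,4),(1,
  1),(2,3),(1,2)]⟩),.k,.k,⟨true,0,⟨0,[(7,0),(8,0)]⟩,⟨1,[(9,1),(4,0),(1,0),(27,0)]⟩⟩,⟨false,2,⟨1,[(2,
  0),(3,2),(18,0),(7,0)]⟩,⟨3,[(0,2),(4,0),(3,1),(4,0),(7,0)]⟩⟩,⟨false,(-1),⟨1,[(9,1),(4,0),(1,2),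
  (27,0)]⟩,⟨1,[(7,1),(35,0),(0,0)]⟩⟩,⟨true,0,⟨5,[(5,4),(0,3),(2,6),(4,4),(18,7),(2,0)]⟩,⟨4,[(0,2),
  (6,3),(1,0),(2,1),(3,0),(13,3)]⟩⟩,⟨false,0,⟨0,[]⟩,⟨0,[]⟩⟩,⟨false,0,⟨0,[]⟩,⟨0,[]⟩⟩,[.a ⟨true,0,⟨12,
  [(5,0),(0,0),(2,7),(2,0),(1,4),(16,3),(1,7)]⟩,⟨2,[(0,0),(6,0),(0,0),(3,0)]⟩⟩ ⟨false,0,⟨0,[(46,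
  0)]⟩,⟨1,[(43,0),(0,0)]⟩⟩ ⟨true,1,⟨12,[(5,0),(0,13),(2,7),(2,0),(1,4),(16,3),(1,7)]⟩,⟨0,[(0,0)]⟩⟩,
  .o ⟨false,1,⟨3,[(6,1),(2,1),(1,1),(2,1),(18,1),(2,0),(7,0)]⟩,⟨0,[(30,0)]⟩⟩,.o ⟨false,0,⟨0,[(32,
  0)]⟩,⟨0,[(6,0)]⟩⟩,.e ⟨false,0,⟨0,[]⟩,⟨2,[(7,0),(12,0),(23,1)]⟩⟩ ⟨false,2,⟨12,[(6,17),(2,5),(2,4),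
  (1,3),(16,6),(1,0),(10,7)]⟩,⟨0,[(0,0)]⟩⟩]⟩)) (.I [0,0,-2,0,0,2,0,0,1] (.I [1,1,2,2,-1] (.Q [0,2,0,
  0,-2,0,1,1,1,1,-1,-1] (.p false [0,0,1] [1,0,0,0,-1] (⟨0,[(36,0)]⟩,⟨0,[(35,0)]⟩) .k 2 (⟨0,[(28,
  0)]⟩,⟨0,[(29,0)]⟩) .k (.r (-1) ⟨1,[(0,0),(7,2),(12,0)]⟩ ⟨1,[(10,1),(4,0),(1,0),(27,0)]⟩)) (.Q [0,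
  0,0,0,0,-1,0,0,0,0,0,1] (.ed false [1,-1,0,0,1] .k) (.R ⟨1,false,false,true,[0,0,0,0,1],[1,1,-1],
  [1,2],(⟨0,[(31,0)]⟩,⟨0,[(30,0)]⟩),(⟨0,[(37,0),(3,0)]⟩,⟨0,[(27,0)]⟩),⟨0,[(0,0)]⟩,.k,.k,(.r 0 ⟨3,
  [(1,0),(7,0),(2,0),(15,0),(13,0),(2,1)]⟩ ⟨17,[(10,7),(6,5),(5,7),(11,2),(0,2),(10,9)]⟩),(.r (-1)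
  ⟨0,[(10,0),(38,0)]⟩ ⟨3,[(12,1),(1,1),(2,2),(1,0),(27,0)]⟩),(.r (-1) ⟨3,[(1,0),(7,0),(0,3),(1,0),
  (15,0),(13,0),(2,1)]⟩ ⟨0,[(14,0),(2,0)]⟩),.k,⟨false,1,⟨5,[(1,0),(7,0),(0,5),(1,0),(15,0),(13,0),
  (0,1)]⟩,⟨3,[(12,1),(1,1),(2,2),(1,0),(27,0)]⟩⟩,⟨true,2,⟨0,[(9,0),(18,0)]⟩,⟨0,[(1,0),(10,0),(6,1),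
  (27,1)]⟩⟩,⟨false,0,⟨0,[]⟩,⟨2,[(10,0),(12,0),(23,1)]⟩⟩,⟨false,2,⟨11,[(9,9),(2,5),(1,5),(2,9),(10,
  11),(7,1),(2,0),(7,0)]⟩,⟨0,[(1,0),(43,0),(1,0)]⟩⟩,⟨true,0,⟨0,[(44,0)]⟩,⟨0,[(45,0)]⟩⟩,⟨false,2,⟨15,
  [(9,13),(2,11),(4,17),(5,1),(4,15),(5,1),(4,0),(7,0)]⟩,⟨0,[(1,0),(43,1),(1,0)]⟩⟩,[.o ⟨false,0,⟨14,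
  [(2,0),(5,9),(0,6),(7,0),(16,4),(1,2),(2,3)]⟩,⟨0,[(33,0),(11,0),(1,0)]⟩⟩,.e ⟨false,0,⟨5,[(1,0),(7,
  0),(2,0),(15,0),(13,0),(0,1)]⟩,⟨2,[(10,0),(12,0),(23,1)]⟩⟩ ⟨false,2,⟨5,[(8,0),(0,5),(2,2),(4,2),
  (5,1),(4,5),(17,0)]⟩,⟨0,[(1,0),(43,0),(1,0)]⟩⟩,.a ⟨true,(-1),⟨8,[(1,5),(3,0),(6,5),(4,3),(4,1),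
  (13,5),(10,4)]⟩,⟨0,[(28,0)]⟩⟩ ⟨false,0,⟨0,[(49,0)]⟩,⟨0,[(47,0)]⟩⟩ ⟨true,1,⟨14,[(2,0),(5,9),(0,6),
  (7,0),(10,14),(5,4),(1,2),(2,3)]⟩,⟨0,[(1,0),(43,0),(1,0)]⟩⟩,.o ⟨false,(-1),⟨1,[(1,1),(10,1),(4,0),
  (1,0),(16,1),(2,0),(7,1)]⟩,⟨1,[(28,1),(10,0),(6,0)]⟩⟩]⟩) (.R ⟨0,false,false,false,[0,0,0,0,1],[1,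
  0,0,0,-1],[1,1,1],(⟨0,[(31,0)]⟩,⟨0,[(30,0)]⟩),(⟨0,[(30,0)]⟩,⟨0,[(31,0)]⟩),⟨0,[(0,0)]⟩,.k,.k,(.r 0
  ⟨3,[(1,0),(7,0),(2,0),(15,0),(13,0),(2,1)]⟩ ⟨17,[(10,7),(6,5),(5,7),(11,2),(0,2),(10,9)]⟩),.k,.k,
  .k,⟨true,(-1),⟨3,[(1,0),(7,0),(2,0),(6,3),(8,0),(13,0),(2,1)]⟩,⟨0,[(47,0)]⟩⟩,⟨false,3,⟨1,[(28,3),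
  (10,0),(6,0)]⟩,⟨2,[(1,5),(7,0),(2,5),(4,3),(18,4),(2,0),(7,3)]⟩⟩,⟨true,0,⟨1,[(35,0),(0,0)]⟩,⟨5,
  [(1,0),(7,0),(2,0),(15,0),(13,0),(0,1)]⟩⟩,⟨false,4,⟨1,[(28,3),(10,0),(7,2)]⟩,⟨2,[(1,5),(7,0),(2,
  5),(4,3),(18,4),(2,0),(7,0)]⟩⟩,⟨false,0,⟨0,[]⟩,⟨0,[]⟩⟩,⟨false,0,⟨0,[]⟩,⟨0,[]⟩⟩,[.o ⟨false,2,⟨1,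
  [(28,1),(10,0),(7,0)]⟩,⟨17,[(1,11),(6,0),(0,1),(2,10),(4,6),(11,5),(6,9),(2,4)]⟩⟩,.e ⟨false,0,⟨0,
  []⟩,⟨5,[(10,1),(12,1),(22,2),(0,0)]⟩⟩ ⟨false,4,⟨1,[(28,3),(10,0),(6,0),(0,1)]⟩,⟨2,[(1,5),(7,0),(2,
  5),(4,3),(18,4),(2,0),(7,0)]⟩⟩,.a ⟨true,(-1),⟨8,[(1,5),(3,0),(6,5),(4,3),(4,1),(13,5),(10,4)]⟩,⟨0,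
  [(28,0)]⟩⟩ ⟨false,0,⟨1,[(35,0),(0,0)]⟩,⟨1,[(46,0),(0,0)]⟩⟩ ⟨true,3,⟨1,[(28,3),(10,0),(7,0)]⟩,⟨2,
  [(1,5),(7,0),(2,5),(4,3),(18,4),(2,0),(7,0)]⟩⟩,.o ⟨false,(-1),⟨1,[(1,1),(10,1),(4,0),(1,0),(16,1),
  (2,0),(7,1)]⟩,⟨1,[(28,1),(10,0),(6,0)]⟩⟩]⟩)) (.I [1,-1,-2,-2,1] (.Q [0,0,0,-1,1,0,-1,-1,-1,-1,1,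
  1] (.p true [0,0,1] [1,0,0,0,-1] (⟨0,[(38,0)]⟩,⟨0,[(37,0)]⟩) .k 2 (⟨0,[(30,0)]⟩,⟨0,[(31,0)]⟩) .k
  (.r (-1) ⟨1,[(2,0),(7,2),(12,0)]⟩ ⟨1,[(12,1),(4,0),(1,0),(27,0)]⟩)) (.I [0,0,2,0,1,-2,0,0,-1] (.N
  [0,2,0,0,1] 1 ⟨0,[(4,0)]⟩ ⟨0,[(2,0)]⟩ (.x 0 ⟨0,[(5,0)]⟩ ⟨0,[(0,0)]⟩)) (.S ⟨1,0,[0,1,0,-1],[0,0,0,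
  0,1],[1,2],(⟨0,[(33,0)]⟩,⟨0,[(32,0)]⟩),⟨1,[(0,0),(0,0),(4,0),(8,0),(5,0),(11,0),(1,0),(13,0)]⟩,.k,
  (.r 0 ⟨2,[(12,1),(1,1),(6,1),(23,0)]⟩ ⟨17,[(12,7),(6,5),(5,7),(11,2),(0,2),(10,9)]⟩),⟨false,0,⟨0,
  []⟩,⟨2,[(12,0),(12,0),(23,1)]⟩⟩,⟨true,0,⟨0,[(47,0)]⟩,⟨0,[(46,0)]⟩⟩,⟨true,0,⟨0,[(46,0)]⟩,⟨0,[(47,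
  0)]⟩⟩,⟨false,1,⟨2,[(12,0),(12,0),(23,1)]⟩,⟨0,[]⟩⟩,[.o ⟨false,(-1),⟨2,[(0,1),(5,0),(8,0),(5,1),(2,
  0),(7,1),(8,1),(5,4)]⟩,⟨0,[(3,0),(22,0)]⟩⟩,.a ⟨true,(-1),⟨2,[(0,1),(5,0),(8,0),(5,1),(9,0),(0,1),
  (14,4),(1,0)]⟩,⟨0,[(1,0),(6,0)]⟩⟩ ⟨false,0,⟨2,[(12,0),(1,0),(6,0),(23,1)]⟩,⟨2,[(12,0),(12,0),(23,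
  1)]⟩⟩ ⟨true,0,⟨0,[(47,0)]⟩,⟨13,[(12,1),(6,3),(1,1),(3,1),(11,0),(0,0)]⟩⟩,.e ⟨false,0,⟨0,[(51,0)]⟩,
  ⟨0,[(49,0)]⟩⟩ ⟨false,0,⟨0,[(47,0)]⟩,⟨1,[(3,0),(4,0),(22,0)]⟩⟩,.o ⟨false,(-1),⟨3,[(0,3),(5,1),(8,
  1),(5,5),(10,3),(8,2),(5,5),(1,2)]⟩,⟨1,[(30,1),(10,0),(6,0)]⟩⟩]⟩)) (.I [0,0,2,0,1,-2,0,0,-1] (.N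
  [0,2,0,0,1] 1 ⟨0,[(4,0)]⟩ ⟨0,[(2,0)]⟩ (.x 0 ⟨0,[(5,0)]⟩ ⟨0,[(0,0)]⟩)) (.Q [0,0,0,0,0,1,0,0,0,-1,0,
  1] (.ed false [0,1,0,0,1] .k) (.R ⟨0,false,false,true,[1,0,0,0,-1],[0,1],[0,0,1],(⟨0,[(33,0)]⟩,⟨0,
  [(34,0)]⟩),(⟨0,[(44,0)]⟩,⟨0,[(43,0)]⟩),⟨0,[(0,0)]⟩,.k,.k,(.r (-1) ⟨11,[(3,4),(0,0),(8,1),(14,0),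
  (3,0),(4,0),(12,2)]⟩ ⟨1,[(5,0),(7,0),(12,0)]⟩),(.r (-1) ⟨11,[(3,4),(0,0),(8,1),(14,0),(3,0),(4,0),
  (12,2)]⟩ ⟨1,[(5,0),(7,0),(12,0)]⟩),.k,.k,⟨false,1,⟨11,[(3,4),(0,0),(8,1),(14,0),(3,0),(4,0),(12,
  2)]⟩,⟨0,[(47,0)]⟩⟩,⟨true,(-1),⟨7,[(1,1),(0,5),(4,0),(3,0),(0,0),(2,4),(0,0),(3,0),(12,1),(5,4)]⟩,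
  ⟨1,[(22,1),(8,1),(10,0),(5,1),(1,0)]⟩⟩,⟨false,0,⟨1,[(38,0),(0,0)]⟩,⟨1,[(49,0),(0,0)]⟩⟩,⟨true,(-2),
  ⟨2,[(1,1),(0,0),(4,0),(4,0),(2,0),(0,0),(5,3),(10,1),(11,0)]⟩,⟨1,[(31,1),(10,0),(5,1),(1,0)]⟩⟩,
  ⟨false,0,⟨0,[]⟩,⟨0,[]⟩⟩,⟨false,0,⟨0,[]⟩,⟨0,[]⟩⟩,[.o ⟨false,0,⟨0,[(47,0)]⟩,⟨1,[(42,0),(5,1),(1,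
  0)]⟩⟩,.e ⟨false,1,⟨2,[(13,0),(12,0),(23,1)]⟩,⟨2,[(13,0),(1,0),(6,0),(23,1)]⟩⟩ ⟨false,(-1),⟨3,[(1,
  1),(0,1),(4,0),(3,0),(0,0),(2,0),(0,0),(3,0),(12,1),(5,0)]⟩,⟨3,[(13,1),(3,1),(13,3),(6,0),(0,0),
  (2,1)]⟩⟩,.a ⟨true,1,⟨0,[(31,0)]⟩,⟨4,[(2,3),(12,2),(1,0),(2,0),(4,0),(13,3)]⟩⟩ ⟨true,0,⟨1,[(38,0),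
  (0,0)]⟩,⟨2,[(13,0),(1,0),(6,0),(23,1)]⟩⟩ ⟨false,(-1),⟨14,[(1,3),(0,5),(4,1),(3,1),(3,3),(0,1),(3,
  4),(4,2),(6,1),(0,3),(5,5)]⟩,⟨1,[(31,1),(10,0),(5,1),(1,0)]⟩⟩,.e ⟨false,1,⟨2,[(13,0),(12,0),(23,
  1)]⟩,⟨0,[]⟩⟩ ⟨false,(-1),⟨3,[(1,1),(0,1),(4,0),(3,0),(0,0),(2,0),(0,0),(3,0),(12,1),(5,0)]⟩,⟨3,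
  [(4,1),(8,1),(8,1),(8,1),(6,1),(3,0),(5,3),(1,0)]⟩⟩]⟩) (.S ⟨1,0,[0,-1,0,-1],[1,0,0,0,-1],[1],(⟨0,
  [(33,0)]⟩,⟨0,[(34,0)]⟩),⟨0,[(0,0)]⟩,.k,(.r (-1) ⟨11,[(3,4),(0,0),(8,1),(14,0),(3,0),(4,0),(12,
  2)]⟩ ⟨1,[(5,0),(7,0),(12,0)]⟩),⟨false,0,⟨0,[]⟩,⟨2,[(13,0),(12,0),(23,1)]⟩⟩,⟨true,0,⟨0,[(48,0)]⟩,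
  ⟨0,[(47,0)]⟩⟩,⟨true,0,⟨0,[(47,0)]⟩,⟨0,[(48,0)]⟩⟩,⟨false,1,⟨2,[(13,0),(12,0),(23,1)]⟩,⟨0,[]⟩⟩,[.o
  ⟨false,2,⟨1,[(31,1),(10,0),(5,1),(1,0)]⟩,⟨52,[(0,7),(0,7),(0,25),(4,1),(3,20),(3,4),(0,1),(2,15),
  (12,2),(6,25),(2,17)]⟩⟩,.a ⟨true,2,⟨0,[(31,0),(16,0),(1,0)]⟩,⟨38,[(0,31),(0,31),(5,7),(4,0),(0,2),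
  (1,3),(0,7),(2,6),(2,42),(13,0),(8,9)]⟩⟩ ⟨false,1,⟨1,[(49,0),(0,0)]⟩,⟨0,[(52,0)]⟩⟩ ⟨true,1,⟨0,
  [(48,0),(1,0)]⟩,⟨2,[(13,0),(1,0),(6,3),(23,1)]⟩⟩,.a ⟨true,1,⟨0,[(31,0)]⟩,⟨4,[(2,3),(12,2),(1,0),
  (2,0),(4,0),(13,3)]⟩⟩ ⟨true,0,⟨0,[]⟩,⟨0,[(52,0)]⟩⟩ ⟨false,1,⟨0,[(48,0),(1,0)]⟩,⟨0,[(47,0)]⟩⟩,.a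
  ⟨true,1,⟨1,[(31,1),(6,0),(0,0)]⟩,⟨57,[(0,23),(0,23),(0,29),(4,5),(3,4),(3,24),(0,5),(3,4),(11,3),
  (6,29),(2,0)]⟩⟩ ⟨false,1,⟨1,[(49,0),(0,0)]⟩,⟨1,[(38,0),(0,0)]⟩⟩ ⟨true,1,⟨11,[(3,4),(0,0),(8,1),
  (14,0),(3,0),(4,0),(12,2)]⟩,⟨2,[(13,0),(1,0),(6,3),(23,1)]⟩⟩]⟩)))) (.Q [0,0,1,-1,-1,0,0,0,1,0,0,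
  -1] (.p false [0,0,0,0,1] [] (⟨0,[(31,0)]⟩,⟨0,[(30,0)]⟩) .k 0 (⟨0,[]⟩,⟨0,[]⟩) .k .k) (.Q [0,2,0,0,
  -2,0,0,0,1,1,0,-1] (.p false [0,0,0,0,1] [1] (⟨0,[(32,0)]⟩,⟨0,[(31,0)]⟩) .k 1 (⟨0,[]⟩,⟨0,[]⟩) .k
  .k) (.Q [0,2,0,1,-2,0,0,0,1,1,0,-1] (.p false [0,0,0,0,1] [1] (⟨0,[(33,0)]⟩,⟨0,[(32,0)]⟩) .k 1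
  (⟨0,[]⟩,⟨0,[]⟩) .k .k) (.Q [0,0,0,2,1,0,0,0,-1,0,0,1] (.p true [0,0,0,0,1] [] (⟨0,[(34,0)]⟩,⟨0,
  [(33,0)]⟩) .k 0 (⟨0,[]⟩,⟨0,[]⟩) .k .k) (.Q [0,-2,0,-2,2,0,0,0,-1,-1,0,1] (.p true [0,0,0,0,1] [1]
  (⟨0,[(35,0)]⟩,⟨0,[(34,0)]⟩) .k 1 (⟨0,[]⟩,⟨0,[]⟩) .k .k) (.R ⟨1,true,false,true,[1,-1],[0,0,0,0,1],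
  [1,1,-1,-1],(⟨0,[(45,0)]⟩,⟨0,[(46,0)]⟩),(⟨0,[(36,0)]⟩,⟨0,[(35,0)]⟩),⟨2,[(9,0),(8,0),(26,1)]⟩,.k,
  .k,(.r (-1) ⟨4,[(0,0),(9,0),(4,2),(1,1),(1,0),(27,0)]⟩ ⟨6,[(15,1),(6,3),(1,1),(3,1),(11,0),(0,
  0)]⟩),(.r (-1) ⟨1,[(0,0),(9,0)]⟩ ⟨1,[(7,0),(7,0),(12,0)]⟩),(.r (-2) ⟨7,[(0,6),(9,5),(4,1),(14,0),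
  (3,0),(4,1),(7,1)]⟩ ⟨0,[(5,0)]⟩),.k,⟨true,1,⟨1,[(0,0),(9,0)]⟩,⟨0,[(24,0)]⟩⟩,⟨false,0,⟨0,[(10,0)]⟩,
  ⟨2,[(0,1),(12,0),(0,0),(9,1),(4,0),(3,0)]⟩⟩,⟨false,0,⟨0,[]⟩,⟨2,[(15,0),(12,0),(23,1)]⟩⟩,⟨true,
  (-2),⟨0,[(2,0)]⟩,⟨9,[(0,5),(0,0),(13,1),(12,1),(4,2),(10,1)]⟩⟩,⟨true,0,⟨0,[(49,0)]⟩,⟨0,[(50,0)]⟩⟩,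
  ⟨false,(-1),⟨6,[(1,0),(0,1),(7,1),(10,0),(0,1),(3,2)]⟩,⟨0,[(0,0)]⟩⟩,[]⟩) (.Q [0,0,0,0,0,-1,0,0,0,
  0,0,1] (.ed false [1,-1,0,0,1] .k) (.Q [0,0,1,0,-1,0,0,0,1,0,0,-1] (.p false [0,0,0,0,1] [] (⟨0,
  [(37,0)]⟩,⟨0,[(36,0)]⟩) .k 0 (⟨0,[]⟩,⟨0,[]⟩) .k .k) (.S ⟨1,0,[0,1,0,-1],[0,0,0,0,1],[1,2],(⟨0,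
  [(38,0)]⟩,⟨0,[(37,0)]⟩),⟨0,[(1,0)]⟩,.k,(.r 0 ⟨3,[(5,0),(10,0),(0,0),(1,1),(6,0),(8,0),(4,0)]⟩ ⟨17,
  [(17,7),(6,5),(5,7),(11,2),(0,2),(10,9)]⟩),⟨false,0,⟨0,[]⟩,⟨2,[(17,0),(12,0),(23,1)]⟩⟩,⟨true,0,⟨0,
  [(52,0)]⟩,⟨0,[(51,0)]⟩⟩,⟨true,0,⟨0,[(51,0)]⟩,⟨0,[(52,0)]⟩⟩,⟨false,1,⟨2,[(17,0),(12,0),(23,1)]⟩,⟨0,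
  []⟩⟩,[.o ⟨false,(-1),⟨11,[(5,3),(0,6),(10,1),(1,1),(3,0),(22,1),(2,0)]⟩,⟨0,[(8,0),(22,0)]⟩⟩,.a
  ⟨true,(-1),⟨0,[(6,0),(15,0)]⟩,⟨1,[(3,0),(31,0)]⟩⟩ ⟨false,0,⟨4,[(5,0),(10,0),(2,0),(15,0),(4,0),(9,
  1)]⟩,⟨2,[(17,0),(12,0),(23,1)]⟩⟩ ⟨true,0,⟨0,[(52,0)]⟩,⟨13,[(17,1),(6,3),(1,1),(3,1),(11,0),(0,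
  0)]⟩⟩,.e ⟨false,0,⟨0,[(56,0)]⟩,⟨0,[(54,0)]⟩⟩ ⟨false,0,⟨0,[(52,0)]⟩,⟨1,[(3,0),(32,0),(17,0)]⟩⟩,.o
  ⟨false,(-1),⟨0,[(0,0)]⟩,⟨1,[(35,1),(10,0),(6,0)]⟩⟩]⟩) (.R ⟨1,false,false,true,[0,0,0,0,1],[1,0,0,
  0,-1],[0,1,0,-1],(⟨0,[(38,0)]⟩,⟨0,[(37,0)]⟩),(⟨0,[(37,0)]⟩,⟨0,[(38,0)]⟩),⟨0,[(1,0)]⟩,.k,.k,(.r 0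
  ⟨4,[(0,0),(4,0),(10,0),(2,0),(20,0),(8,0),(2,2)]⟩ ⟨17,[(17,7),(6,5),(5,7),(11,2),(0,2),(10,9)]⟩),
  .k,(.r 0 ⟨0,[(49,0),(2,0)]⟩ ⟨17,[(17,1),(6,5),(5,1),(11,2),(0,2),(10,15)]⟩),.k,⟨false,0,⟨4,[(0,0),
  (4,0),(10,0),(2,0),(20,0),(8,0),(2,2)]⟩,⟨1,[(3,0),(32,0),(17,0)]⟩⟩,⟨true,2,⟨1,[(0,3),(25,1),(19,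
  0),(5,1),(1,0)]⟩,⟨0,[(4,0),(1,0),(47,0)]⟩⟩,⟨true,0,⟨0,[(52,0)]⟩,⟨0,[(51,0)]⟩⟩,⟨false,3,⟨1,[(0,3),
  (25,1),(19,0),(5,1),(1,2)]⟩,⟨1,[(2,0),(3,1),(5,0)]⟩⟩,⟨false,1,⟨2,[(17,0),(12,0),(23,1)]⟩,⟨0,[]⟩⟩,
  ⟨false,3,⟨1,[(0,3),(25,1),(19,0),(7,2)]⟩,⟨1,[(5,0),(0,1),(5,0)]⟩⟩,[.a ⟨true,1,⟨0,[(35,0)]⟩,⟨1,[(4,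
  0),(1,0),(15,0),(31,0)]⟩⟩ ⟨false,0,⟨4,[(0,0),(4,0),(10,0),(2,0),(20,0),(8,0),(2,2)]⟩,⟨1,[(3,0),
  (32,0),(17,0)]⟩⟩ ⟨true,2,⟨1,[(0,3),(25,1),(19,0),(5,1),(1,0)]⟩,⟨0,[(4,0),(1,0),(47,0)]⟩⟩,.o
  ⟨false,2,⟨1,[(35,1),(10,0),(7,0)]⟩,⟨5,[(4,1),(0,0),(0,1),(5,0),(33,1)]⟩⟩,.a ⟨true,(-1),⟨1,[(4,0),
  (1,0),(15,0),(31,0)]⟩,⟨0,[(35,0)]⟩⟩ ⟨false,0,⟨0,[(52,0)]⟩,⟨1,[(3,0),(32,0),(17,0)]⟩⟩ ⟨true,2,⟨1,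
  [(0,3),(25,1),(19,0),(5,1),(1,0)]⟩,⟨1,[(2,0),(3,1),(5,0)]⟩⟩,.a ⟨true,(-1),⟨11,[(6,8),(15,6),(1,2),
  (4,2),(2,1),(10,3)]⟩,⟨0,[(0,0)]⟩⟩ ⟨true,0,⟨4,[(0,0),(4,0),(10,0),(2,0),(20,0),(8,0),(2,2)]⟩,⟨13,
  [(17,1),(6,3),(1,1),(3,1),(11,0),(0,0)]⟩⟩ ⟨false,3,⟨1,[(0,1),(34,1),(10,0),(7,0)]⟩,⟨0,[(4,0),(1,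
  0),(47,0)]⟩⟩]⟩)) (.Q [0,0,1,0,-1,0,0,0,1,0,0,-1] (.p false [0,0,0,0,1] [] (⟨0,[(37,0)]⟩,⟨0,[(36,
  0)]⟩) .k 0 (⟨0,[]⟩,⟨0,[]⟩) .k .k) (.R ⟨0,false,false,true,[0,0,0,0,1],[0,1],[],(⟨0,[(38,0)]⟩,⟨0,
  [(37,0)]⟩),(⟨0,[(48,0)]⟩,⟨0,[(47,0)]⟩),⟨0,[(1,0)]⟩,.k,.k,(.r 0 ⟨3,[(5,0),(10,0),(0,0),(1,1),(6,0),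
  (8,0),(4,0)]⟩ ⟨17,[(17,7),(6,5),(5,7),(11,2),(0,2),(10,9)]⟩),(.r 0 ⟨3,[(5,0),(10,0),(0,0),(1,1),
  (6,0),(8,0),(4,0)]⟩ ⟨17,[(17,7),(6,5),(5,7),(11,2),(0,2),(10,9)]⟩),.k,.k,⟨true,1,⟨23,[(8,1),(3,0),
  (4,9),(1,5),(1,1),(10,0),(3,0),(17,9)]⟩,⟨0,[(26,0)]⟩⟩,⟨false,2,⟨0,[(35,0),(17,0)]⟩,⟨0,[(0,0)]⟩⟩,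
  ⟨false,1,⟨0,[(54,0)]⟩,⟨0,[(56,0)]⟩⟩,⟨true,1,⟨1,[(3,0),(31,0)]⟩,⟨11,[(5,3),(0,6),(10,1),(1,1),(3,
  0),(22,1),(2,0)]⟩⟩,⟨false,0,⟨0,[]⟩,⟨0,[]⟩⟩,⟨false,0,⟨0,[]⟩,⟨0,[]⟩⟩,[.o ⟨false,0,⟨0,[(51,0)]⟩,⟨1,
  [(46,0),(5,1),(1,0)]⟩⟩,.a ⟨true,0,⟨4,[(18,0),(3,3),(1,0),(5,0),(12,0)]⟩,⟨0,[(52,0)]⟩⟩ ⟨false,1,⟨1,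
  [(53,0),(0,0)]⟩,⟨0,[(56,0)]⟩⟩ ⟨true,1,⟨1,[(3,0),(31,0)]⟩,⟨0,[(6,0)]⟩⟩,.e ⟨false,1,⟨2,[(17,0),(12,
  0),(23,1)]⟩,⟨0,[]⟩⟩ ⟨false,1,⟨1,[(3,0),(31,0)]⟩,⟨9,[(6,6),(5,1),(4,0),(1,0),(16,0),(9,0),(7,4)]⟩⟩,
  .o ⟨false,(-1),⟨0,[(0,0)]⟩,⟨1,[(35,1),(10,0),(6,0)]⟩⟩]⟩) (.R ⟨0,false,false,true,[0,0,0,0,1],[1,0,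
  0,0,-1],[0,1,0,-1],(⟨0,[(38,0)]⟩,⟨0,[(37,0)]⟩),(⟨0,[(37,0)]⟩,⟨0,[(38,0)]⟩),⟨0,[(1,0)]⟩,.k,.k,(.r
  0 ⟨4,[(0,0),(4,0),(10,0),(2,0),(20,0),(8,0),(2,2)]⟩ ⟨17,[(17,7),(6,5),(5,7),(11,2),(0,2),(10,
  9)]⟩),.k,.k,.k,⟨false,0,⟨4,[(0,0),(4,0),(10,0),(2,0),(20,0),(8,0),(2,2)]⟩,⟨1,[(3,0),(32,0),(17,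
  0)]⟩⟩,⟨true,2,⟨1,[(0,3),(25,1),(19,0),(5,1),(1,0)]⟩,⟨0,[(4,0),(1,0),(47,0)]⟩⟩,⟨true,0,⟨0,[(52,
  0)]⟩,⟨0,[(51,0)]⟩⟩,⟨false,3,⟨1,[(0,3),(25,1),(19,0),(5,1),(1,2)]⟩,⟨1,[(2,0),(3,1),(5,0)]⟩⟩,⟨false,
  0,⟨0,[]⟩,⟨0,[]⟩⟩,⟨false,0,⟨0,[]⟩,⟨0,[]⟩⟩,[.a ⟨true,1,⟨0,[(35,0)]⟩,⟨1,[(4,0),(1,0),(15,0),(31,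
  0)]⟩⟩ ⟨false,0,⟨4,[(0,0),(4,0),(10,0),(2,0),(20,0),(8,0),(2,2)]⟩,⟨1,[(3,0),(32,0),(17,0)]⟩⟩ ⟨true,
  2,⟨1,[(0,3),(25,1),(19,0),(5,1),(1,0)]⟩,⟨0,[(4,0),(1,0),(47,0)]⟩⟩,.o ⟨false,2,⟨1,[(35,1),(10,0),
  (7,0)]⟩,⟨5,[(4,1),(0,0),(0,1),(5,0),(33,1)]⟩⟩,.a ⟨true,(-1),⟨1,[(4,0),(1,0),(15,0),(31,0)]⟩,⟨0,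
  [(35,0)]⟩⟩ ⟨false,0,⟨0,[(52,0)]⟩,⟨1,[(3,0),(32,0),(17,0)]⟩⟩ ⟨true,2,⟨1,[(0,3),(25,1),(19,0),(5,1),
  (1,0)]⟩,⟨1,[(2,0),(3,1),(5,0)]⟩⟩,.a ⟨true,(-1),⟨11,[(6,8),(15,6),(1,2),(4,2),(2,1),(10,3)]⟩,⟨0,
  [(0,0)]⟩⟩ ⟨true,0,⟨4,[(0,0),(4,0),(10,0),(2,0),(20,0),(8,0),(2,2)]⟩,⟨13,[(17,1),(6,3),(1,1),(3,1),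
  (11,0),(0,0)]⟩⟩ ⟨false,3,⟨1,[(0,1),(34,1),(10,0),(7,0)]⟩,⟨0,[(4,0),(1,0),(47,0)]⟩⟩]⟩)))) (.Q [0,0,
  0,0,0,-1,0,0,0,0,0,1] (.ed false [1,-1,0,0,1] .k) (.R ⟨1,false,false,true,[0,0,0,0,1],[1,1,-1],[1,
  2],(⟨0,[(36,0)]⟩,⟨0,[(35,0)]⟩),(⟨0,[(42,0),(3,0)]⟩,⟨0,[(32,0)]⟩),⟨0,[(0,0)]⟩,.k,.k,(.r 0 ⟨3,[(3,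
  0),(10,0),(0,0),(1,1),(6,0),(8,0),(4,0)]⟩ ⟨17,[(15,7),(6,5),(5,7),(11,2),(0,2),(10,9)]⟩),(.r (-1)
  ⟨0,[(15,0),(38,0)]⟩ ⟨3,[(17,1),(1,1),(2,2),(1,0),(27,0)]⟩),(.r (-1) ⟨3,[(3,0),(10,0),(0,4),(1,1),
  (6,0),(8,0),(4,0)]⟩ ⟨0,[(19,0),(2,0)]⟩),.k,⟨false,1,⟨4,[(3,0),(10,0),(0,4),(1,0),(15,0),(4,0),(9,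
  1)]⟩,⟨3,[(17,1),(1,1),(2,2),(1,0),(27,0)]⟩⟩,⟨true,2,⟨0,[(14,0),(18,0)]⟩,⟨0,[(1,0),(10,0),(11,1),
  (27,0)]⟩⟩,⟨false,0,⟨0,[]⟩,⟨2,[(15,0),(12,0),(23,1)]⟩⟩,⟨false,2,⟨0,[(6,0),(42,0)]⟩,⟨0,[(1,0),(14,
  0)]⟩⟩,⟨true,0,⟨0,[(49,0)]⟩,⟨0,[(50,0)]⟩⟩,⟨false,2,⟨3,[(6,3),(15,0),(25,1),(0,2)]⟩,⟨0,[(1,0),(14,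
  0),(33,0)]⟩⟩,[.o ⟨false,0,⟨11,[(4,0),(1,0),(0,2),(5,6),(0,6),(24,3),(4,1)]⟩,⟨0,[(38,0),(11,0),(1,
  0)]⟩⟩,.e ⟨false,0,⟨4,[(3,0),(10,0),(2,0),(15,0),(4,0),(9,1)]⟩,⟨2,[(15,0),(12,0),(23,1)]⟩⟩ ⟨false,
  2,⟨1,[(6,1),(40,0),(0,0),(0,0)]⟩,⟨0,[(1,0),(14,0)]⟩⟩,.a ⟨true,(-1),⟨1,[(2,0),(1,0),(15,0),(31,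
  0)]⟩,⟨0,[(33,0)]⟩⟩ ⟨false,0,⟨0,[(54,0)]⟩,⟨0,[(52,0)]⟩⟩ ⟨true,1,⟨10,[(6,0),(0,1),(5,5),(0,5),(9,0),
  (8,9),(5,3),(4,1)]⟩,⟨0,[(1,0),(14,0)]⟩⟩,.o ⟨false,(-1),⟨18,[(1,5),(0,2),(1,8),(5,0),(11,5),(21,
  1)]⟩,⟨1,[(33,1),(10,0),(6,0)]⟩⟩]⟩) (.R ⟨0,false,false,false,[0,0,0,0,1],[1,0,0,0,-1],[1,1,1],(⟨0,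
  [(36,0)]⟩,⟨0,[(35,0)]⟩),(⟨0,[(35,0)]⟩,⟨0,[(36,0)]⟩),⟨0,[(0,0)]⟩,.k,.k,(.r 0 ⟨3,[(3,0),(10,0),(0,
  0),(1,1),(6,0),(8,0),(4,0)]⟩ ⟨17,[(15,7),(6,5),(5,7),(11,2),(0,2),(10,9)]⟩),.k,.k,.k,⟨true,(-1),
  ⟨3,[(3,0),(10,0),(0,0),(1,1),(6,4),(8,0),(4,0)]⟩,⟨0,[(52,0)]⟩⟩,⟨false,3,⟨1,[(33,3),(10,0),(6,0)]⟩,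
  ⟨2,[(1,3),(0,1),(9,0),(1,0),(5,0),(1,1),(29,0)]⟩⟩,⟨true,0,⟨1,[(40,0),(0,0)]⟩,⟨4,[(3,0),(10,0),(2,
  0),(15,0),(4,0),(9,1)]⟩⟩,⟨false,4,⟨1,[(33,3),(10,0),(7,2)]⟩,⟨2,[(1,3),(0,1),(8,1),(1,1),(0,0),(26,
  0)]⟩⟩,⟨false,0,⟨0,[]⟩,⟨0,[]⟩⟩,⟨false,0,⟨0,[]⟩,⟨0,[]⟩⟩,[.o ⟨false,2,⟨1,[(33,1),(10,0),(7,0)]⟩,⟨3,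
  [(1,0),(0,1),(31,0),(9,0)]⟩⟩,.e ⟨false,0,⟨0,[]⟩,⟨23,[(6,2),(3,0),(0,0),(3,7),(12,5),(1,0),(3,1),
  (16,9)]⟩⟩ ⟨false,4,⟨9,[(6,11),(5,1),(2,5),(13,5),(0,1),(2,7),(10,0),(7,0)]⟩,⟨2,[(1,3),(0,1),(8,1),
  (1,1),(0,0),(26,0)]⟩⟩,.a ⟨true,(-1),⟨1,[(2,0),(1,0),(15,0),(31,0)]⟩,⟨0,[(33,0)]⟩⟩ ⟨false,0,⟨1,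
  [(40,0),(0,0)]⟩,⟨1,[(51,0),(0,0)]⟩⟩ ⟨true,3,⟨1,[(33,3),(10,0),(7,0)]⟩,⟨2,[(1,3),(0,1),(8,1),(1,1),
  (0,0),(26,0)]⟩⟩,.o ⟨false,(-1),⟨18,[(1,5),(0,2),(1,8),(5,0),(11,5),(21,1)]⟩,⟨1,[(33,1),(10,0),(6,
  0)]⟩⟩]⟩))) (.R ⟨2,true,false,false,[0,1],[1,0,0,0,-1],[1,0,1,1],(⟨0,[]⟩,⟨0,[]⟩),(⟨0,[(33,0)]⟩,⟨0,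
  [(34,0)]⟩),⟨0,[]⟩,.k,.k,.k,(.r 0 ⟨1,[(5,0),(7,0),(12,0)]⟩ ⟨5,[(0,0),(7,0),(4,1),(1,0),(1,0),(32,
  1)]⟩),.k,.k,⟨false,0,⟨0,[(47,0)]⟩,⟨5,[(0,0),(7,0),(4,1),(1,0),(1,0),(32,1)]⟩⟩,⟨true,1,⟨5,[(0,3),
  (10,0),(0,1),(2,0),(6,4),(8,1),(4,1)]⟩,⟨0,[(1,0),(48,0)]⟩⟩,⟨true,0,⟨0,[]⟩,⟨0,[(52,0)]⟩⟩,⟨false,2,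
  ⟨0,[(0,0)]⟩,⟨0,[(24,0)]⟩⟩,⟨false,1,⟨1,[(4,0),(4,0),(22,0)]⟩,⟨0,[(48,0)]⟩⟩,⟨true,2,⟨7,[(0,2),(3,2),
  (8,0),(12,0),(0,2),(3,1),(10,0)]⟩,⟨0,[(1,0)]⟩⟩,[]⟩)) (.R ⟨1,false,false,false,[1,0,-1],[1,0,0,0,
  -1],[1,0,0,0,0,0,0,-1],(⟨0,[(39,0)]⟩,⟨0,[(40,0)]⟩),(⟨0,[(32,0)]⟩,⟨0,[(33,0)]⟩),⟨0,[(28,0)]⟩,.k,.k,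
  .k,.k,(.r 0 ⟨4,[(14,1),(1,1),(8,0),(18,1)]⟩ ⟨9,[(0,1),(0,1),(10,7),(0,1),(5,5),(17,0),(0,2)]⟩),.k,
  ⟨true,(-1),⟨1,[(10,0),(3,0),(6,0)]⟩,⟨4,[(0,1),(0,1),(10,2),(0,1),(5,0),(17,0),(0,2)]⟩⟩,⟨false,1,
  ⟨3,[(0,0),(8,0),(0,0),(9,1),(5,0),(3,2)]⟩,⟨11,[(1,3),(5,3),(3,4),(7,0),(3,0),(7,2),(6,6)]⟩⟩,⟨true,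
  0,⟨0,[]⟩,⟨0,[(51,0)]⟩⟩,⟨false,2,⟨0,[(0,0),(12,0),(33,0)]⟩,⟨2,[(1,1),(5,0),(2,1),(0,0),(24,0),(1,
  0)]⟩⟩,⟨false,1,⟨1,[(3,0),(4,0),(22,0)]⟩,⟨0,[(47,0)]⟩⟩,⟨false,2,⟨0,[(0,0),(12,0)]⟩,⟨2,[(1,1),(8,0),
  (0,0),(2,0),(9,0),(11,0),(1,0)]⟩⟩,[.o ⟨false,2,⟨4,[(0,2),(11,0),(12,0),(4,1),(10,0)]⟩,⟨0,[(1,0),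
  (43,0)]⟩⟩,.o ⟨false,2,⟨0,[(0,0)]⟩,⟨1,[(1,0),(16,0),(25,0)]⟩⟩,.o ⟨false,1,⟨53,[(3,2),(7,24),(0,9),
  (6,0),(5,6),(5,2),(6,25),(2,12)]⟩,⟨0,[(22,0)]⟩⟩,.a ⟨true,0,⟨0,[(38,0)]⟩,⟨0,[(34,0)]⟩⟩ ⟨true,0,⟨33,
  [(3,6),(3,6),(1,0),(0,15),(3,10),(4,1),(7,2),(13,1)]⟩,⟨0,[(12,0),(8,0)]⟩⟩ ⟨false,2,⟨0,[(0,0),(33,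
  0)]⟩,⟨0,[(1,0),(36,0),(6,0)]⟩⟩]⟩)) (.Q [0,0,0,0,0,0,-1,0,1,0,1,-1] (.p true [0,0,1] [0,0,0,0,1]
  (⟨0,[(39,0)]⟩,⟨0,[(38,0)]⟩) .k 2 (⟨0,[(32,0)]⟩,⟨0,[(31,0)]⟩) .k (.r (-2) ⟨17,[(11,25),(6,5),(5,7),
  (11,2),(0,2),(10,9)]⟩ ⟨1,[(9,0),(3,0),(6,0)]⟩)) (.Q [0,0,0,0,1,0,0,0,-1,-1,0,1] (.p true [0,0,0,0,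
  1] [1] (⟨0,[(33,0)]⟩,⟨0,[(32,0)]⟩) .k 1 (⟨0,[]⟩,⟨0,[]⟩) .k .k) (.Q [0,-1,0,0,1,0,0,0,-1,0,0,1]
  (.p true [0,0,0,0,1] [] (⟨0,[(34,0)]⟩,⟨0,[(33,0)]⟩) .k 0 (⟨0,[]⟩,⟨0,[]⟩) .k .k) (.Q [0,0,0,0,0,-1,
  0,0,0,0,0,1] (.ed false [1,-1,0,0,1] .k) (.Q [0,0,1,0,-1,0,0,0,1,1,0,-1] (.p false [0,0,0,0,1]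
  [1] (⟨0,[(36,0)]⟩,⟨0,[(35,0)]⟩) .k 1 (⟨0,[]⟩,⟨0,[]⟩) .k .k) (.S ⟨1,0,[0,1,0,-1],[0,0,0,0,1],[1,2],
  (⟨0,[(37,0)]⟩,⟨0,[(36,0)]⟩),⟨0,[(1,0)]⟩,.k,(.r 0 ⟨2,[(16,1),(1,1),(6,1),(23,0)]⟩ ⟨17,[(16,7),(6,
  5),(5,7),(11,2),(0,2),(10,9)]⟩),⟨false,0,⟨0,[]⟩,⟨2,[(16,0),(12,0),(23,1)]⟩⟩,⟨true,0,⟨0,[(51,0)]⟩,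
  ⟨0,[(50,0)]⟩⟩,⟨true,0,⟨0,[(50,0)]⟩,⟨0,[(51,0)]⟩⟩,⟨false,1,⟨2,[(16,0),(12,0),(23,1)]⟩,⟨0,[]⟩⟩,[.e
  ⟨false,0,⟨0,[(48,0)]⟩,⟨0,[(53,0)]⟩⟩ ⟨false,0,⟨2,[(16,1),(1,1),(6,1),(23,0)]⟩,⟨1,[(7,0),(4,0),(22,
  0)]⟩⟩,.o ⟨false,0,⟨0,[(35,0),(15,0)]⟩,⟨0,[(2,0),(5,0),(6,0),(8,0)]⟩⟩,.o ⟨false,0,⟨0,[(35,0)]⟩,⟨0,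
  [(3,0)]⟩⟩,.a ⟨true,(-1),⟨0,[(0,0)]⟩,⟨0,[(5,0),(45,0)]⟩⟩ ⟨false,0,⟨2,[(16,0),(1,0),(6,0),(23,1)]⟩,
  ⟨1,[(41,0),(0,0),(10,1)]⟩⟩ ⟨true,0,⟨2,[(16,1),(1,1),(6,1),(23,0)]⟩,⟨13,[(16,1),(6,3),(1,1),(3,1),
  (11,0),(0,0)]⟩⟩]⟩) (.S ⟨1,0,[0,2,0,-1],[0,0,0,0,1],[1,1],(⟨0,[(37,0)]⟩,⟨0,[(36,0)]⟩),⟨0,[(1,0)]⟩,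
  .k,(.r 0 ⟨2,[(16,1),(1,1),(6,1),(23,0)]⟩ ⟨17,[(16,7),(6,5),(5,7),(11,2),(0,2),(10,9)]⟩),⟨true,0,
  ⟨0,[]⟩,⟨0,[(55,0)]⟩⟩,⟨false,0,⟨0,[(51,0)]⟩,⟨1,[(7,0),(4,0),(22,0)]⟩⟩,⟨false,1,⟨1,[(7,0),(4,0),(22,
  0)]⟩,⟨0,[(51,0)]⟩⟩,⟨true,0,⟨0,[(55,0)]⟩,⟨0,[]⟩⟩,[.o ⟨false,(-1),⟨0,[(22,0),(28,1)]⟩,⟨7,[(0,1),(2,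
  3),(1,1),(17,1),(21,0),(7,6)]⟩⟩,.a ⟨true,(-1),⟨0,[(28,0),(22,0)]⟩,⟨2,[(0,0),(1,1),(18,0),(1,0)]⟩⟩
  ⟨true,0,⟨0,[]⟩,⟨1,[(41,0),(0,0)]⟩⟩ ⟨false,0,⟨2,[(16,1),(1,1),(6,1),(23,0)]⟩,⟨1,[(7,0),(4,0),(22,
  0)]⟩⟩,.o ⟨false,0,⟨0,[(35,0)]⟩,⟨0,[(3,0)]⟩⟩,.o ⟨false,0,⟨1,[(35,1),(5,0),(0,0)]⟩,⟨0,[(0,0)]⟩⟩]⟩))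
  (.Q [0,0,-1,0,0,0,0,0,1,0,0,-1] (.p false [0,0,0,0,1] [] (⟨0,[(36,0)]⟩,⟨0,[(35,0)]⟩) .k 0 (⟨0,[]⟩,
  ⟨0,[]⟩) .k .k) (.S ⟨1,0,[0,-1,0,-1],[1,0,0,0,-1],[1],(⟨0,[(36,0)]⟩,⟨0,[(37,0)]⟩),⟨2,[(1,0),(8,0),
  (8,0),(16,1)]⟩,.k,(.r (-1) ⟨23,[(7,1),(3,0),(4,9),(1,5),(1,1),(10,0),(3,0),(17,9)]⟩ ⟨1,[(8,0),(7,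
  0),(12,0)]⟩),⟨false,0,⟨0,[]⟩,⟨2,[(16,0),(12,0),(23,1)]⟩⟩,⟨true,0,⟨0,[(51,0)]⟩,⟨0,[(50,0)]⟩⟩,⟨true,
  0,⟨0,[(50,0)]⟩,⟨0,[(51,0)]⟩⟩,⟨false,1,⟨2,[(16,0),(12,0),(23,1)]⟩,⟨0,[]⟩⟩,[.a ⟨true,1,⟨0,[(2,0),
  (48,0)]⟩,⟨0,[(27,0)]⟩⟩ ⟨true,0,⟨0,[]⟩,⟨1,[(41,0),(0,0)]⟩⟩ ⟨false,1,⟨23,[(7,1),(3,0),(4,9),(1,5),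
  (1,1),(10,0),(3,0),(17,9)]⟩,⟨0,[(50,0)]⟩⟩,.o ⟨false,2,⟨0,[(3,0),(47,0),(1,0)]⟩,⟨0,[(22,0)]⟩⟩,.o
  ⟨false,1,⟨0,[(3,0)]⟩,⟨0,[(35,0)]⟩⟩,.o ⟨false,1,⟨1,[(3,1),(37,0),(0,0)]⟩,⟨0,[(0,0)]⟩⟩]⟩) (.K ⟨0,[0,
  0,0,0,1],0,(-1),(⟨0,[(37,0)]⟩,⟨0,[(36,0)]⟩),.k,(.r 0 ⟨1,[(0,0),(15,0),(1,0),(3,0)]⟩ ⟨17,[(16,7),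
  (6,5),(5,7),(11,2),(0,2),(10,9)]⟩),(.r 0 ⟨1,[(8,0),(7,0),(12,0)]⟩ ⟨23,[(7,1),(3,0),(4,9),(1,5),(1,
  1),(10,0),(3,0),(17,9)]⟩),.k,.k,[⟨0,[(4,0)]⟩,⟨0,[(0,0)]⟩,⟨0,[(34,0)]⟩,⟨0,[(22,0),(28,0)]⟩]⟩)))
  (.R ⟨2,false,false,false,[0,1],[0,0,0,0,1],[0,1,1],(⟨0,[]⟩,⟨0,[]⟩),(⟨0,[(35,0)]⟩,⟨0,[(34,0)]⟩),⟨0,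
  []⟩,.k,.k,.k,(.r (-1) ⟨17,[(14,7),(6,5),(5,7),(11,2),(0,2),(10,9)]⟩ ⟨2,[(14,1),(1,1),(6,1),(23,
  0)]⟩),.k,.k,⟨true,0,⟨1,[(39,0),(0,0)]⟩,⟨0,[]⟩⟩,⟨false,0,⟨0,[(33,0)]⟩,⟨0,[(3,0),(45,0)]⟩⟩,⟨false,0,
  ⟨0,[(49,0)]⟩,⟨1,[(5,0),(4,0),(22,0)]⟩⟩,⟨true,(-1),⟨0,[(0,0),(48,0)]⟩,⟨5,[(3,1),(17,0),(10,3),(15,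
  0)]⟩⟩,⟨true,0,⟨0,[(53,0)]⟩,⟨0,[]⟩⟩,⟨true,(-1),⟨0,[(0,0)]⟩,⟨0,[(32,0)]⟩⟩,[.o ⟨false,(-1),⟨0,[(0,
  0)]⟩,⟨1,[(32,1),(10,0),(7,0)]⟩⟩,.o ⟨false,0,⟨0,[(33,0)]⟩,⟨0,[(1,0)]⟩⟩,.a ⟨true,0,⟨0,[(19,0)]⟩,⟨1,
  [(39,0),(0,0)]⟩⟩ ⟨false,0,⟨1,[(39,0),(0,0)]⟩,⟨1,[(50,0),(0,0)]⟩⟩ ⟨true,(-1),⟨1,[(0,0),(22,0),(9,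
  0),(15,0)]⟩,⟨0,[(3,0),(45,0)]⟩⟩,.e ⟨true,0,⟨0,[(53,0)]⟩,⟨0,[]⟩⟩ ⟨true,(-1),⟨0,[(0,0)]⟩,⟨0,[(32,
  0)]⟩⟩]⟩)) (.Q [0,0,0,-1,1,0,0,0,-1,-1,0,1] (.p true [0,0,0,0,1] [1] (⟨0,[(34,0)]⟩,⟨0,[(33,0)]⟩)
  .k 1 (⟨0,[]⟩,⟨0,[]⟩) .k .k) (.R ⟨2,true,false,true,[0,1],[1,0,0,0,-1],[1,1,1,1],(⟨0,[]⟩,⟨0,[]⟩),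
  (⟨0,[(34,0)]⟩,⟨0,[(35,0)]⟩),⟨0,[]⟩,.k,.k,.k,(.r 0 ⟨1,[(6,0),(7,0),(12,0)]⟩ ⟨23,[(5,1),(3,0),(4,9),
  (1,5),(1,1),(10,0),(3,0),(17,9)]⟩),.k,.k,⟨false,0,⟨0,[(48,0)]⟩,⟨23,[(5,1),(3,0),(4,9),(1,5),(1,1),
  (10,0),(3,0),(17,9)]⟩⟩,⟨true,1,⟨5,[(0,3),(20,0),(1,0),(8,1),(6,0),(0,0),(2,0)]⟩,⟨0,[(1,0)]⟩⟩,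
  ⟨false,0,⟨0,[]⟩,⟨2,[(14,0),(12,0),(23,1)]⟩⟩,⟨true,1,⟨0,[(0,0)]⟩,⟨0,[(25,0)]⟩⟩,⟨true,0,⟨0,[(48,
  0)]⟩,⟨0,[(49,0)]⟩⟩,⟨false,2,⟨1,[(32,1),(10,0),(7,0)]⟩,⟨0,[(1,0)]⟩⟩,[]⟩) (.Q [0,0,0,-2,1,0,0,0,-1,
  -1,0,1] (.p true [0,0,0,0,1] [1] (⟨0,[(35,0)]⟩,⟨0,[(34,0)]⟩) .k 1 (⟨0,[]⟩,⟨0,[]⟩) .k .k) (.R ⟨1,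
  true,false,false,[1,-1],[0,0,0,0,1],[1,0,-1,-1],(⟨0,[(45,0)]⟩,⟨0,[(46,0)]⟩),(⟨0,[(36,0)]⟩,⟨0,[(35,
  0)]⟩),⟨2,[(9,0),(8,0),(26,1)]⟩,.k,.k,(.r (-1) ⟨4,[(15,3),(1,1),(1,1),(31,0)]⟩ ⟨6,[(15,1),(6,3),(1,
  1),(3,1),(11,0),(0,0)]⟩),(.r (-1) ⟨23,[(6,1),(3,0),(4,9),(1,5),(1,1),(10,0),(3,0),(17,9)]⟩ ⟨1,[(7,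
  0),(7,0),(12,0)]⟩),(.r (-2) ⟨23,[(6,9),(3,4),(4,25),(1,5),(1,9),(10,4),(3,4),(17,1)]⟩ ⟨0,[(5,
  0)]⟩),.k,⟨true,1,⟨23,[(6,1),(3,0),(4,9),(1,5),(1,1),(10,0),(3,0),(17,9)]⟩,⟨0,[(24,0)]⟩⟩,⟨false,0,
  ⟨0,[(10,0)]⟩,⟨3,[(0,1),(21,0),(1,0),(8,1),(10,0)]⟩⟩,⟨true,0,⟨0,[]⟩,⟨12,[(0,0),(14,1),(8,1),(2,0),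
  (0,1),(18,3)]⟩⟩,⟨false,(-1),⟨0,[(1,0)]⟩,⟨5,[(0,1),(5,1),(8,1),(17,1),(6,1),(3,0),(7,0)]⟩⟩,⟨false,
  1,⟨1,[(6,0),(4,0),(22,0)]⟩,⟨0,[(50,0)]⟩⟩,⟨true,(-1),⟨4,[(1,0),(20,0),(3,3),(21,1)]⟩,⟨0,[(0,0)]⟩⟩,
  []⟩) (.Q [0,0,0,0,0,-1,0,0,0,0,0,1] (.ed false [1,-1,0,0,1] .k) (.Q [0,2,0,1,-2,0,0,0,1,1,0,-1]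
  (.p false [0,0,0,0,1] [1] (⟨0,[(37,0)]⟩,⟨0,[(36,0)]⟩) .k 1 (⟨0,[]⟩,⟨0,[]⟩) .k .k) (.R ⟨1,false,
  false,false,[0,0,0,0,1],[1,-1],[1,1],(⟨0,[(38,0)]⟩,⟨0,[(37,0)]⟩),(⟨0,[(47,0)]⟩,⟨0,[(48,0)]⟩),⟨0,
  [(1,0)]⟩,.k,.k,(.r 0 ⟨9,[(0,0),(5,0),(9,0),(0,4),(1,5),(6,4),(13,0),(8,0)]⟩ ⟨17,[(17,7),(6,5),(5,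
  7),(11,2),(0,2),(10,9)]⟩),(.r 0 ⟨1,[(9,0),(7,0),(12,0)]⟩ ⟨23,[(8,1),(3,0),(4,9),(1,5),(1,1),(10,
  0),(3,0),(17,9)]⟩),.k,.k,⟨false,0,⟨0,[(51,0)]⟩,⟨23,[(8,1),(3,0),(4,9),(1,5),(1,1),(10,0),(3,0),
  (17,9)]⟩⟩,⟨true,1,⟨1,[(6,1),(19,1),(19,0),(5,3),(1,0)]⟩,⟨0,[(4,0)]⟩⟩,⟨true,0,⟨0,[]⟩,⟨0,[(56,0)]⟩⟩,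
  ⟨true,2,⟨1,[(35,1),(10,0),(5,1),(1,0)]⟩,⟨0,[(0,0)]⟩⟩,⟨false,1,⟨1,[(8,0),(4,0),(22,0)]⟩,⟨0,[(52,
  0)]⟩⟩,⟨true,2,⟨1,[(35,1),(10,0),(7,0)]⟩,⟨0,[(0,0),(51,0)]⟩⟩,[.e ⟨false,0,⟨4,[(0,0),(5,0),(9,0),(2,
  0),(20,0),(8,0)]⟩,⟨2,[(17,0),(12,0),(23,1)]⟩⟩ ⟨false,2,⟨20,[(8,1),(8,8),(1,4),(1,1),(10,0),(2,18),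
  (10,9),(2,1)]⟩,⟨0,[(3,0)]⟩⟩,.o ⟨false,1,⟨1,[(46,0),(5,1),(1,0)]⟩,⟨0,[(51,0)]⟩⟩,.e ⟨false,0,⟨0,[]⟩,
  ⟨2,[(17,0),(12,0),(23,1)]⟩⟩ ⟨false,2,⟨1,[(35,1),(10,0),(5,1),(1,0)]⟩,⟨0,[(3,0)]⟩⟩,.a ⟨true,(-1),
  ⟨1,[(4,1),(37,0),(0,0)]⟩,⟨0,[(6,0),(45,0)]⟩⟩ ⟨true,0,⟨4,[(0,0),(5,0),(9,0),(2,0),(20,0),(8,0)]⟩,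
  ⟨1,[(42,0),(0,0)]⟩⟩ ⟨false,2,⟨1,[(6,1),(39,0),(5,3),(1,0)]⟩,⟨5,[(4,3),(19,1),(4,1),(12,0),(0,
  0)]⟩⟩]⟩) (.S ⟨1,0,[0,2,0,-1],[0,0,0,0,1],[1,1],(⟨0,[(38,0)]⟩,⟨0,[(37,0)]⟩),⟨0,[(1,0)]⟩,.k,(.r 0
  ⟨2,[(17,1),(1,1),(6,1),(23,0)]⟩ ⟨17,[(17,7),(6,5),(5,7),(11,2),(0,2),(10,9)]⟩),⟨true,0,⟨0,[]⟩,⟨0,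
  [(56,0)]⟩⟩,⟨false,0,⟨0,[(52,0)]⟩,⟨1,[(8,0),(4,0),(22,0)]⟩⟩,⟨false,1,⟨1,[(8,0),(4,0),(22,0)]⟩,⟨0,
  [(52,0)]⟩⟩,⟨true,0,⟨0,[(56,0)]⟩,⟨0,[]⟩⟩,[.e ⟨false,0,⟨2,[(17,0),(1,0),(6,0),(23,1)]⟩,⟨2,[(17,0),
  (12,0),(23,1)]⟩⟩ ⟨false,0,⟨0,[(49,0),(2,0)]⟩,⟨0,[(0,0),(1,0)]⟩⟩,.o ⟨false,(-1),⟨0,[(4,0),(11,0),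
  (8,0),(0,0),(25,0)]⟩,⟨0,[(8,0),(22,0)]⟩⟩,.e ⟨false,0,⟨0,[]⟩,⟨2,[(17,0),(12,0),(23,1)]⟩⟩ ⟨false,0,
  ⟨0,[(52,0),(3,0)]⟩,⟨0,[(0,0),(1,0)]⟩⟩,.a ⟨true,(-1),⟨1,[(4,1),(37,0),(0,0)]⟩,⟨0,[(6,0),(45,0)]⟩⟩
  ⟨true,0,⟨2,[(17,0),(1,0),(6,0),(23,1)]⟩,⟨1,[(42,0),(0,0)]⟩⟩ ⟨false,0,⟨2,[(17,1),(1,1),(6,1),(23,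
  0)]⟩,⟨17,[(17,1),(6,5),(5,1),(11,2),(0,2),(10,15)]⟩⟩]⟩)) (.R ⟨0,false,false,false,[0,0,0,0,1],[0,
  1],[0,1,1],(⟨0,[(37,0)]⟩,⟨0,[(36,0)]⟩),(⟨0,[(47,0)]⟩,⟨0,[(46,0)]⟩),⟨0,[(0,0)]⟩,.k,.k,(.r 0 ⟨2,
  [(16,1),(1,1),(6,1),(23,0)]⟩ ⟨17,[(16,7),(6,5),(5,7),(11,2),(0,2),(10,9)]⟩),(.r 0 ⟨2,[(16,1),(1,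
  1),(6,1),(23,0)]⟩ ⟨17,[(16,7),(6,5),(5,7),(11,2),(0,2),(10,9)]⟩),.k,.k,⟨false,0,⟨2,[(16,1),(1,1),
  (6,1),(23,0)]⟩,⟨1,[(7,0),(4,0),(22,0)]⟩⟩,⟨true,1,⟨0,[(5,0),(45,0)]⟩,⟨1,[(3,1),(21,1),(19,0),(5,1),
  (1,0)]⟩⟩,⟨true,0,⟨1,[(41,0),(0,0)]⟩,⟨2,[(16,0),(1,0),(6,0),(23,1)]⟩⟩,⟨false,2,⟨1,[(7,0),(4,0),(21,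
  0),(18,0)]⟩,⟨0,[(3,0),(11,0),(8,0),(0,0),(25,0)]⟩⟩,⟨false,0,⟨0,[]⟩,⟨0,[]⟩⟩,⟨false,0,⟨0,[]⟩,⟨0,
  []⟩⟩,[.e ⟨false,0,⟨0,[(55,0)]⟩,⟨1,[(52,0),(0,0)]⟩⟩ ⟨false,1,⟨0,[(5,0)]⟩,⟨0,[(35,0),(15,0)]⟩⟩,.o
  ⟨false,1,⟨1,[(7,0),(4,0),(22,0)]⟩,⟨0,[(15,0),(8,0),(0,0),(25,0)]⟩⟩,.a ⟨true,(-1),⟨0,[(3,0)]⟩,⟨0,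
  [(34,0)]⟩⟩ ⟨false,0,⟨1,[(41,0),(0,0)]⟩,⟨1,[(52,0),(0,0)]⟩⟩ ⟨true,1,⟨5,[(5,1),(17,0),(10,3),(15,
  0)]⟩,⟨0,[(3,0),(11,0),(8,0),(0,0),(25,0)]⟩⟩,.e ⟨true,0,⟨0,[(55,0)]⟩,⟨0,[]⟩⟩ ⟨true,1,⟨0,[(5,0)]⟩,
  ⟨1,[(3,0),(21,0),(2,0),(16,0),(5,2)]⟩⟩]⟩))))) (.Q [0,0,0,0,0,-1,0,0,0,0,0,1] (.ed false [1,-1,0,0,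
  1] .k) (.S ⟨1,0,[0,2,0,-1],[0,0,0,0,1],[1,1],(⟨0,[(34,0)]⟩,⟨0,[(33,0)]⟩),⟨0,[(0,0)]⟩,.k,(.r 0 ⟨2,
  [(13,1),(1,1),(6,1),(23,0)]⟩ ⟨17,[(13,7),(6,5),(5,7),(11,2),(0,2),(10,9)]⟩),⟨true,0,⟨0,[]⟩,⟨0,
  [(52,0)]⟩⟩,⟨false,0,⟨0,[(48,0)]⟩,⟨1,[(4,0),(4,0),(22,0)]⟩⟩,⟨false,1,⟨1,[(4,0),(4,0),(22,0)]⟩,⟨0,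
  [(48,0)]⟩⟩,⟨true,0,⟨0,[(52,0)]⟩,⟨0,[]⟩⟩,[.o ⟨false,(-1),⟨0,[(19,0),(28,1)]⟩,⟨15,[(1,9),(0,1),(1,
  3),(7,5),(0,3),(6,5),(21,2),(7,8)]⟩⟩,.a ⟨true,(-1),⟨0,[(25,0),(22,0)]⟩,⟨4,[(1,2),(0,1),(9,0),(5,
  0),(1,0),(18,1),(10,1)]⟩⟩ ⟨true,0,⟨0,[]⟩,⟨1,[(38,0),(0,0)]⟩⟩ ⟨false,0,⟨2,[(13,1),(1,1),(6,1),(23,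
  0)]⟩,⟨1,[(4,0),(4,0),(22,0)]⟩⟩,.o ⟨false,0,⟨0,[(32,0)]⟩,⟨2,[(1,1),(10,0),(18,0),(7,0),(2,0)]⟩⟩,.o
  ⟨false,0,⟨1,[(32,1),(5,0),(0,0)]⟩,⟨0,[(1,0),(10,0)]⟩⟩]⟩) (.R ⟨0,false,false,true,[0,0,0,0,1],[0,
  1],[1,1,1,1],(⟨0,[(34,0)]⟩,⟨0,[(33,0)]⟩),(⟨0,[(44,0)]⟩,⟨0,[(43,0)]⟩),⟨0,[(0,0)]⟩,.k,.k,(.r 0 ⟨2,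
  [(13,1),(1,1),(6,1),(23,0)]⟩ ⟨17,[(13,7),(6,5),(5,7),(11,2),(0,2),(10,9)]⟩),(.r 0 ⟨2,[(13,1),(1,
  1),(6,1),(23,0)]⟩ ⟨17,[(13,7),(6,5),(5,7),(11,2),(0,2),(10,9)]⟩),.k,.k,⟨true,0,⟨0,[]⟩,⟨1,[(38,0),
  (0,0)]⟩⟩,⟨false,1,⟨0,[(1,0),(10,0),(5,0)]⟩,⟨1,[(32,1),(5,0),(0,0)]⟩⟩,⟨true,0,⟨13,[(13,1),(6,3),(1,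
  1),(3,1),(11,0),(0,0)]⟩,⟨2,[(13,1),(1,1),(6,1),(23,0)]⟩⟩,⟨false,1,⟨4,[(1,2),(0,1),(9,0),(5,0),(1,
  0),(18,1),(10,1)]⟩,⟨0,[(32,0),(15,0)]⟩⟩,⟨false,0,⟨0,[]⟩,⟨0,[]⟩⟩,⟨false,0,⟨0,[]⟩,⟨0,[]⟩⟩,[.o
  ⟨false,0,⟨0,[(47,0)]⟩,⟨1,[(42,0),(5,1),(1,0)]⟩⟩,.a ⟨true,0,⟨4,[(14,0),(3,3),(1,0),(5,0),(12,0)]⟩,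
  ⟨0,[(48,0)]⟩⟩ ⟨true,0,⟨13,[(13,1),(6,3),(1,1),(3,1),(11,0),(0,0)]⟩,⟨0,[(48,0)]⟩⟩ ⟨false,1,⟨0,[(2,
  0)]⟩,⟨0,[(32,0),(15,0)]⟩⟩,.o ⟨false,0,⟨0,[(32,0)]⟩,⟨2,[(1,1),(10,0),(18,0),(7,0),(2,0)]⟩⟩,.o
  ⟨false,0,⟨1,[(32,1),(5,0),(0,0)]⟩,⟨0,[(1,0),(10,0)]⟩⟩]⟩)))))) (.S ⟨1,0,[0,1,-1,-2],[1,-1],[0,0,-1,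
  -2],(⟨0,[(38,0)]⟩,⟨0,[(39,0)]⟩),⟨2,[(2,0),(8,0),(26,1)]⟩,.k,(.r (-1) ⟨2,[(0,1),(7,0),(3,0),(27,
  0)]⟩ ⟨6,[(8,1),(6,3),(1,1),(3,1),(11,0),(0,0)]⟩),⟨true,0,⟨0,[(43,0)]⟩,⟨0,[(42,0)]⟩⟩,⟨false,0,⟨0,
  [(43,0)]⟩,⟨8,[(8,1),(6,2),(5,1),(22,2),(0,3)]⟩⟩,⟨false,1,⟨2,[(8,0),(12,0),(23,1)]⟩,⟨0,[]⟩⟩,⟨true,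
  0,⟨0,[(47,0)]⟩,⟨0,[]⟩⟩,[.o ⟨false,0,⟨0,[(7,0),(8,0),(0,0),(25,1)]⟩,⟨8,[(8,0),(6,5),(5,0),(22,5),
  (0,1)]⟩⟩,.e ⟨false,1,⟨0,[(0,0)]⟩,⟨3,[(15,0),(5,0),(0,0),(11,0),(7,2)]⟩⟩ ⟨false,1,⟨2,[(0,1),(7,0),
  (3,0),(27,0)]⟩,⟨1,[(15,0),(26,0)]⟩⟩,.a ⟨true,0,⟨1,[(33,0),(0,0)]⟩,⟨0,[(13,0)]⟩⟩ ⟨false,1,⟨2,[(0,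
  0),(7,0),(3,0),(30,1),(1,0)]⟩,⟨1,[(15,0),(26,0)]⟩⟩ ⟨true,0,⟨0,[(8,0),(1,0),(6,0)]⟩,⟨1,[(15,0),(26,
  0)]⟩⟩,.o ⟨false,0,⟨1,[(17,1),(19,0),(5,1),(1,0)]⟩,⟨0,[(44,0)]⟩⟩]⟩)) (.Q [0,0,0,0,0,-1,0,0,0,0,0,
  1] (.ed false [1,-1,0,0,1] .k) (.Q [0,0,1,0,-1,0,0,0,1,1,0,-1] (.p false [0,0,0,0,1] [1] (⟨0,[(29,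
  0)]⟩,⟨0,[(28,0)]⟩) .k 1 (⟨0,[]⟩,⟨0,[]⟩) .k .k) (.Q [0,0,0,0,1,0,0,0,-1,-1,0,1] (.p true [0,0,0,0,
  1] [1] (⟨0,[(30,0)]⟩,⟨0,[(29,0)]⟩) .k 1 (⟨0,[]⟩,⟨0,[]⟩) .k .k) (.Q [0,0,0,1,1,0,0,0,-1,-1,0,1]
  (.p true [0,0,0,0,1] [1] (⟨0,[(31,0)]⟩,⟨0,[(30,0)]⟩) .k 1 (⟨0,[]⟩,⟨0,[]⟩) .k .k) (.S ⟨1,0,[0,1,0,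
  -1],[0,0,0,0,1],[1,2],(⟨0,[(32,0)]⟩,⟨0,[(31,0)]⟩),⟨0,[(3,0)]⟩,.k,(.r 0 ⟨2,[(11,1),(1,1),(6,1),(23,
  0)]⟩ ⟨17,[(11,7),(6,5),(5,7),(11,2),(0,2),(10,9)]⟩),⟨false,0,⟨0,[]⟩,⟨2,[(11,0),(12,0),(23,1)]⟩⟩,
  ⟨true,0,⟨0,[(46,0)]⟩,⟨0,[(45,0)]⟩⟩,⟨true,0,⟨0,[(45,0)]⟩,⟨0,[(46,0)]⟩⟩,⟨false,1,⟨2,[(11,0),(12,0),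
  (23,1)]⟩,⟨0,[]⟩⟩,[.e ⟨false,0,⟨0,[(43,0)]⟩,⟨0,[(48,0)]⟩⟩ ⟨false,0,⟨2,[(11,1),(1,1),(6,1),(23,0)]⟩,
  ⟨8,[(11,1),(6,2),(5,1),(22,2),(0,3)]⟩⟩,.o ⟨false,0,⟨0,[(30,0),(15,0)]⟩,⟨0,[(0,0)]⟩⟩,.o ⟨false,0,
  ⟨0,[(30,0)]⟩,⟨0,[(1,0)]⟩⟩,.a ⟨true,(-1),⟨0,[(2,0)]⟩,⟨0,[(1,0),(14,0)]⟩⟩ ⟨false,0,⟨2,[(11,0),(1,0),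
  (6,0),(23,1)]⟩,⟨1,[(36,0),(0,0),(10,1)]⟩⟩ ⟨true,0,⟨2,[(11,1),(1,1),(6,1),(23,0)]⟩,⟨13,[(11,1),(6,
  3),(1,1),(3,1),(11,0),(0,0)]⟩⟩]⟩) (.S ⟨1,2,[],[0,0,0,0,1],[1,2],(⟨0,[(32,0)]⟩,⟨0,[(31,0)]⟩),⟨0,
  [(3,0)]⟩,.k,(.r 0 ⟨2,[(11,1),(1,1),(6,1),(23,0)]⟩ ⟨17,[(11,7),(6,5),(5,7),(11,2),(0,2),(10,9)]⟩),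
  ⟨false,0,⟨0,[]⟩,⟨2,[(11,0),(12,0),(23,1)]⟩⟩,⟨true,1,⟨0,[(1,0)]⟩,⟨0,[(23,0)]⟩⟩,⟨true,0,⟨0,[(45,
  0)]⟩,⟨0,[(46,0)]⟩⟩,⟨false,2,⟨2,[(1,0),(16,0),(10,1),(10,0),(6,0),(0,0)]⟩,⟨0,[(0,0)]⟩⟩,[.o ⟨false,
  0,⟨0,[(10,0),(8,0),(0,0)]⟩,⟨2,[(11,0),(12,0),(23,1)]⟩⟩,.fo,.o ⟨false,0,⟨0,[(30,0)]⟩,⟨0,[(1,0)]⟩⟩,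
  .a ⟨true,(-1),⟨0,[(2,0)]⟩,⟨0,[(1,0),(14,0)]⟩⟩ ⟨false,0,⟨2,[(11,0),(1,0),(6,0),(23,1)]⟩,⟨1,[(36,0),
  (0,0),(10,1)]⟩⟩ ⟨true,1,⟨2,[(1,2),(9,0),(1,0),(6,0),(23,1)]⟩,⟨0,[(2,0)]⟩⟩]⟩)) (.R ⟨2,true,false,
  true,[0,1],[1,0,0,0,-1],[1,1,1,1],(⟨0,[]⟩,⟨0,[]⟩),(⟨0,[(30,0)]⟩,⟨0,[(31,0)]⟩),⟨0,[]⟩,.k,.k,.k,(.r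
  0 ⟨1,[(23,0),(0,0),(11,0)]⟩ ⟨9,[(10,3),(1,1),(1,1),(31,0),(0,4)]⟩),.k,.k,⟨false,0,⟨0,[(44,0)]⟩,⟨9,
  [(10,3),(1,1),(1,1),(31,0),(0,4)]⟩⟩,⟨true,1,⟨1,[(3,0),(24,0),(2,0),(7,0),(1,1)]⟩,⟨0,[(0,0)]⟩⟩,
  ⟨false,0,⟨0,[]⟩,⟨2,[(10,0),(12,0),(23,1)]⟩⟩,⟨true,1,⟨0,[(3,0),(5,0),(8,0),(12,0),(9,1)]⟩,⟨0,[(21,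
  0)]⟩⟩,⟨true,0,⟨0,[(44,0)]⟩,⟨0,[(45,0)]⟩⟩,⟨false,2,⟨1,[(28,1),(10,0),(7,0)]⟩,⟨0,[(0,0)]⟩⟩,[]⟩))
  (.S ⟨1,0,[0,2,0,-1],[0,0,0,0,1],[1,1],(⟨0,[(30,0)]⟩,⟨0,[(29,0)]⟩),⟨0,[(1,0)]⟩,.k,(.r 0 ⟨2,[(9,1),
  (1,1),(6,1),(23,0)]⟩ ⟨17,[(9,7),(6,5),(5,7),(11,2),(0,2),(10,9)]⟩),⟨true,0,⟨0,[]⟩,⟨0,[(48,0)]⟩⟩,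
  ⟨false,0,⟨0,[(44,0)]⟩,⟨8,[(9,1),(6,2),(5,1),(22,2),(0,3)]⟩⟩,⟨false,1,⟨8,[(9,1),(6,2),(5,1),(22,2),
  (0,3)]⟩,⟨0,[(44,0)]⟩⟩,⟨true,0,⟨0,[(48,0)]⟩,⟨0,[]⟩⟩,[.o ⟨false,(-1),⟨0,[(15,0),(28,1)]⟩,⟨5,[(0,3),
  (15,1),(10,1),(10,0),(7,4)]⟩⟩,.a ⟨true,(-1),⟨0,[(21,0),(22,0)]⟩,⟨2,[(0,1),(1,0),(11,1),(1,0),(13,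
  0),(9,1),(5,0)]⟩⟩ ⟨true,0,⟨0,[]⟩,⟨1,[(34,0),(0,0)]⟩⟩ ⟨false,0,⟨2,[(9,1),(1,1),(6,1),(23,0)]⟩,⟨8,
  [(9,1),(6,2),(5,1),(22,2),(0,3)]⟩⟩,.o ⟨false,0,⟨0,[(28,0)]⟩,⟨5,[(0,3),(17,1),(8,1),(10,0),(5,1),
  (1,0)]⟩⟩,.o ⟨false,0,⟨1,[(28,1),(5,0),(0,0)]⟩,⟨0,[(0,0)]⟩⟩]⟩)) (.Q [0,0,-1,0,1,0,0,0,-1,-1,0,1]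
  (.p true [0,0,0,0,1] [1] (⟨0,[(29,0)]⟩,⟨0,[(28,0)]⟩) .k 1 (⟨0,[]⟩,⟨0,[]⟩) .k .k) (.R ⟨0,false,
  false,true,[0,0,0,0,1],[0,1],[1,1,1,1],(⟨0,[(30,0)]⟩,⟨0,[(29,0)]⟩),(⟨0,[(40,0)]⟩,⟨0,[(39,0)]⟩),⟨0,
  [(1,0)]⟩,.k,.k,(.r 0 ⟨2,[(9,1),(1,1),(6,1),(23,0)]⟩ ⟨17,[(9,7),(6,5),(5,7),(11,2),(0,2),(10,9)]⟩),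
  (.r 0 ⟨2,[(9,1),(1,1),(6,1),(23,0)]⟩ ⟨17,[(9,7),(6,5),(5,7),(11,2),(0,2),(10,9)]⟩),.k,.k,⟨true,0,
  ⟨0,[]⟩,⟨1,[(34,0),(0,0)]⟩⟩,⟨false,1,⟨0,[(0,0),(13,0)]⟩,⟨1,[(28,1),(5,0),(0,0)]⟩⟩,⟨true,0,⟨13,[(9,
  1),(6,3),(1,1),(3,1),(11,0),(0,0)]⟩,⟨2,[(9,1),(1,1),(6,1),(23,0)]⟩⟩,⟨false,1,⟨2,[(0,1),(1,0),(11,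
  1),(1,0),(13,0),(9,1),(5,0)]⟩,⟨0,[(28,0),(15,0)]⟩⟩,⟨false,0,⟨0,[]⟩,⟨0,[]⟩⟩,⟨false,0,⟨0,[]⟩,⟨0,
  []⟩⟩,[.o ⟨false,0,⟨0,[(43,0)]⟩,⟨1,[(38,0),(5,1),(1,0)]⟩⟩,.a ⟨true,0,⟨4,[(10,0),(3,3),(1,0),(5,0),
  (12,0)]⟩,⟨0,[(44,0)]⟩⟩ ⟨true,0,⟨13,[(9,1),(6,3),(1,1),(3,1),(11,0),(0,0)]⟩,⟨0,[(44,0)]⟩⟩ ⟨false,1,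
  ⟨7,[(0,4),(13,4),(1,1),(10,2),(14,1)]⟩,⟨0,[(28,0),(15,0)]⟩⟩,.o ⟨false,0,⟨0,[(28,0)]⟩,⟨5,[(0,3),
  (17,1),(8,1),(10,0),(5,1),(1,0)]⟩⟩,.o ⟨false,0,⟨1,[(28,1),(5,0),(0,0)]⟩,⟨0,[(0,0)]⟩⟩]⟩) (.Q [0,-1,
  0,1,1,0,-1,-1,-1,-1,1,1] (.p true [0,0,1] [1,0,0,0,-1] (⟨0,[(37,0)]⟩,⟨0,[(36,0)]⟩) .k 2 (⟨0,[(29,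
  0)]⟩,⟨0,[(30,0)]⟩) .k (.r (-1) ⟨1,[(9,1),(12,0),(0,0),(11,0)]⟩ ⟨1,[(11,1),(4,0),(1,0),(27,0)]⟩))
  (.R ⟨0,false,false,false,[0,0,0,0,1],[1,1,-1],[],(⟨0,[(31,0)]⟩,⟨0,[(30,0)]⟩),(⟨0,[(37,0),(3,0)]⟩,
  ⟨0,[(27,0)]⟩),⟨0,[(2,0)]⟩,.k,.k,(.r 0 ⟨2,[(10,1),(1,1),(6,1),(23,0)]⟩ ⟨17,[(10,7),(6,5),(5,7),(11,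
  2),(0,2),(10,9)]⟩),(.r (-1) ⟨0,[(10,0),(38,0)]⟩ ⟨3,[(12,1),(1,1),(2,2),(1,0),(27,0)]⟩),.k,.k,
  ⟨true,1,⟨0,[(10,0)]⟩,⟨1,[(12,1),(4,0),(1,2),(27,0)]⟩⟩,⟨false,2,⟨2,[(0,2),(9,3),(1,0),(6,0),(23,
  1)]⟩,⟨0,[(1,0),(18,0)]⟩⟩,⟨false,1,⟨0,[(47,0)]⟩,⟨0,[(49,0)]⟩⟩,⟨true,1,⟨0,[(0,0)]⟩,⟨0,[(22,0),(10,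
  0),(11,0)]⟩⟩,⟨false,0,⟨0,[]⟩,⟨0,[]⟩⟩,⟨false,0,⟨0,[]⟩,⟨0,[]⟩⟩,[.e ⟨false,1,⟨5,[(10,1),(12,1),(22,
  2),(0,0)]⟩,⟨0,[]⟩⟩ ⟨false,1,⟨2,[(0,2),(9,0),(1,0),(6,0),(23,1)]⟩,⟨6,[(1,5),(8,4),(7,1),(6,0),(3,
  0),(3,1),(1,0),(11,0)]⟩⟩,.o ⟨false,1,⟨0,[(0,0),(28,0)]⟩,⟨0,[(33,0),(11,0)]⟩⟩,.o ⟨false,0,⟨0,[(29,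
  0)]⟩,⟨0,[(0,0),(32,0),(11,0)]⟩⟩,.a ⟨true,(-1),⟨0,[(1,0)]⟩,⟨3,[(0,2),(2,0),(6,0),(1,0),(2,2),(15,
  0),(1,2),(7,1)]⟩⟩ ⟨false,1,⟨1,[(46,0),(0,0)]⟩,⟨1,[(35,0),(0,0)]⟩⟩ ⟨true,1,⟨2,[(0,2),(9,0),(1,0),
  (6,0),(23,1)]⟩,⟨0,[(1,0),(31,0),(11,0)]⟩⟩]⟩) (.Q [0,0,1,0,0,0,1,0,-1,0,-1,1] (.p false [0,0,1] [0,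
  0,0,0,1] (⟨0,[(38,0)]⟩,⟨0,[(37,0)]⟩) .k 2 (⟨0,[(31,0)]⟩,⟨0,[(30,0)]⟩) .k (.r (-2) ⟨17,[(10,25),(6,
  5),(5,7),(11,2),(0,2),(10,9)]⟩ ⟨1,[(8,0),(3,0),(6,0)]⟩)) (.R ⟨1,false,false,false,[1,0,0,0,-1],[1,
  0,-1],[0,0,0,-1],(⟨0,[(31,0)]⟩,⟨0,[(32,0)]⟩),(⟨0,[(38,0)]⟩,⟨0,[(39,0)]⟩),⟨1,[(4,0),(1,0),(24,0)]⟩,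
  .k,.k,(.r (-1) ⟨9,[(11,3),(1,1),(1,1),(31,0),(0,4)]⟩ ⟨1,[(24,0),(0,0),(11,0)]⟩),.k,(.r (-2) ⟨2,
  [(11,3),(12,0),(23,1)]⟩ ⟨12,[(9,7),(5,3),(2,0),(1,4),(3,0)]⟩),.k,⟨false,1,⟨0,[(11,0)]⟩,⟨5,[(9,0),
  (3,2),(4,2),(5,1),(22,0)]⟩⟩,⟨true,0,⟨0,[(2,0),(7,0)]⟩,⟨0,[(0,0)]⟩⟩,⟨false,0,⟨0,[(46,0)]⟩,⟨8,[(11,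
  1),(6,2),(5,1),(22,2),(0,3)]⟩⟩,⟨true,(-1),⟨1,[(2,1),(6,0),(0,1),(2,0),(6,0)]⟩,⟨2,[(0,2),(6,0),(2,
  0),(0,1)]⟩⟩,⟨true,0,⟨0,[(50,0)]⟩,⟨0,[]⟩⟩,⟨true,(-1),⟨0,[(2,0),(6,0),(0,0)]⟩,⟨0,[(0,0),(10,0)]⟩⟩,
  [.a ⟨true,0,⟨12,[(9,0),(0,0),(2,7),(2,0),(1,4),(16,3),(1,7)]⟩,⟨0,[(12,0),(33,0)]⟩⟩ ⟨true,0,⟨0,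
  [(46,0)]⟩,⟨13,[(11,1),(6,3),(1,1),(3,1),(11,0),(0,0)]⟩⟩ ⟨false,0,⟨18,[(2,11),(3,2),(2,2),(0,14),
  (2,11),(4,6),(11,3),(4,3)]⟩,⟨2,[(0,2),(6,0),(2,0),(0,1)]⟩⟩,.o ⟨false,1,⟨3,[(10,1),(2,1),(1,1),(2,
  1),(18,1),(2,0),(7,0)]⟩,⟨0,[(34,0)]⟩⟩,.o ⟨false,1,⟨0,[(0,0),(9,0)]⟩,⟨0,[(30,0)]⟩⟩,.o ⟨false,1,⟨1,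
  [(0,0),(28,0),(7,0),(2,0)]⟩,⟨0,[(1,0),(8,0),(2,0),(4,0)]⟩⟩]⟩) (.Q [0,-2,0,0,2,0,0,0,-1,-1,0,1]
  (.p true [0,0,0,0,1] [1] (⟨0,[(32,0)]⟩,⟨0,[(31,0)]⟩) .k 1 (⟨0,[]⟩,⟨0,[]⟩) .k .k) (.R ⟨1,false,
  false,true,[1,0,-1],[0,0,0,0,1],[1,0,0,0,0,0,0,-1],(⟨0,[(39,0)]⟩,⟨0,[(40,0)]⟩),(⟨0,[(33,0)]⟩,⟨0,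
  [(32,0)]⟩),⟨0,[(28,0)]⟩,.k,.k,.k,.k,(.r (-1) ⟨1,[(0,0),(6,0),(8,1)]⟩ ⟨0,[(26,0),(11,0)]⟩),.k,
  ⟨false,1,⟨8,[(0,1),(6,1),(6,7),(4,4),(5,0),(23,4)]⟩,⟨2,[(12,3),(1,0),(6,3),(23,1)]⟩⟩,⟨true,(-1),
  ⟨6,[(1,0),(0,0),(0,4),(5,0),(0,0),(8,1),(0,5)]⟩,⟨0,[(5,0),(5,0),(21,0),(9,1)]⟩⟩,⟨true,0,⟨0,[]⟩,⟨0,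
  [(51,0)]⟩⟩,⟨false,(-1),⟨2,[(1,0),(0,1),(5,0),(11,0),(0,0)]⟩,⟨12,[(0,12),(9,0),(0,0),(2,7),(2,0),
  (1,4),(16,3),(1,7)]⟩⟩,⟨false,1,⟨8,[(0,2),(6,2),(4,1),(6,2),(5,1),(23,0)]⟩,⟨0,[(47,0)]⟩⟩,⟨false,
  (-1),⟨2,[(1,1),(0,0),(5,1),(11,1),(0,1)]⟩,⟨6,[(0,6),(13,3),(1,1),(2,0),(16,0),(1,5)]⟩⟩,[.o ⟨false,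
  (-1),⟨18,[(2,5),(11,4),(3,12),(2,2),(14,0),(1,4),(2,2),(2,0)]⟩,⟨0,[(0,0)]⟩⟩,.o ⟨false,(-1),⟨0,[(1,
  0),(18,0),(0,0)]⟩,⟨4,[(0,2),(11,0),(12,0),(4,1),(10,0)]⟩⟩,.o ⟨false,1,⟨13,[(0,0),(10,6),(0,1),(12,
  1),(5,0),(6,6),(2,2)]⟩,⟨0,[(22,0)]⟩⟩,.a ⟨true,0,⟨0,[(38,0)]⟩,⟨0,[(34,0)]⟩⟩ ⟨true,0,⟨8,[(10,1),(3,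
  5),(4,2),(5,0),(22,1)]⟩,⟨0,[(12,0),(8,0)]⟩⟩ ⟨false,(-1),⟨1,[(2,0),(6,0),(0,0),(20,0)]⟩,⟨0,[(0,0),
  (37,0)]⟩⟩]⟩) (.R ⟨2,true,false,false,[0,1],[1,0,0,0,-1],[1,0,1,1],(⟨0,[]⟩,⟨0,[]⟩),(⟨0,[(32,0)]⟩,
  ⟨0,[(33,0)]⟩),⟨0,[]⟩,.k,.k,.k,(.r 0 ⟨1,[(25,0),(0,0),(11,0)]⟩ ⟨9,[(12,3),(1,1),(1,1),(31,0),(0,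
  4)]⟩),.k,.k,⟨false,0,⟨0,[(46,0)]⟩,⟨9,[(12,3),(1,1),(1,1),(31,0),(0,4)]⟩⟩,⟨true,1,⟨1,[(5,0),(24,0),
  (2,0),(7,0),(1,1)]⟩,⟨0,[(0,0),(48,0)]⟩⟩,⟨true,0,⟨0,[]⟩,⟨0,[(51,0)]⟩⟩,⟨false,2,⟨0,[(5,0),(5,0),(8,
  0),(12,0),(9,1),(5,0)]⟩,⟨0,[(23,0)]⟩⟩,⟨false,1,⟨8,[(12,1),(6,2),(5,1),(22,2),(0,3)]⟩,⟨0,[(47,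
  0)]⟩⟩,⟨true,2,⟨1,[(30,1),(10,0),(7,0)]⟩,⟨0,[(0,0)]⟩⟩,[]⟩)))))))))) (.R ⟨1,true,false,true,[1,0,
  -1],[0,1],[0,0,0,-1,0,0,0,-1],(⟨0,[(30,0)]⟩,⟨0,[(31,0)]⟩),(⟨0,[(34,0)]⟩,⟨0,[(33,0)]⟩),⟨0,[(19,
  0)]⟩,.k,.k,.k,.k,(.x 0 ⟨0,[(0,0),(5,0)]⟩ ⟨1,[(25,1),(5,1),(0,0),(1,3),(4,0)]⟩),.k,⟨false,1,⟨9,[(3,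
  1),(1,5),(1,5),(31,2),(0,4)]⟩,⟨0,[(2,0),(1,0),(7,0)]⟩⟩,⟨true,0,⟨0,[(25,0)]⟩,⟨0,[(0,0)]⟩⟩,⟨true,0,
  ⟨0,[(38,0)]⟩,⟨0,[(37,0)]⟩⟩,⟨false,0,⟨0,[(4,0)]⟩,⟨3,[(0,1),(4,1),(21,1),(4,0),(7,2)]⟩⟩,⟨false,1,⟨2,
  [(3,0),(12,0),(23,1)]⟩,⟨0,[]⟩⟩,⟨true,0,⟨0,[(4,0),(32,0)]⟩,⟨0,[(0,0),(4,0)]⟩⟩,[]⟩))))

theorem ok88 : chk K t88 l53 = true := by decide +kernel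

noncomputable def t89 : Tre :=
  (.I [0,0,1,1,-1,0,0,-1] (.Q [0,0,0,-2,0,0,-1,-1,0,-1,1] (.p true [0,0,1] [1] (⟨0,[(29,0)]⟩,⟨0,
  [(28,0)]⟩) .k 1 (⟨0,[]⟩,⟨0,[]⟩) .k .k) (.Q [0,0,-2,0,0,0,1,0,0,1,-1] (.p false [0,0,1] [1] (⟨0,
  [(30,0)]⟩,⟨0,[(29,0)]⟩) .k 1 (⟨0,[]⟩,⟨0,[]⟩) .k .k) (.R ⟨1,false,false,true,[1,-1],[0,0,1],[1,1,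
  1],(⟨0,[(33,0)]⟩,⟨0,[(34,0)]⟩),(⟨0,[(31,0)]⟩,⟨0,[(30,0)]⟩),⟨1,[(6,0),(13,0),(12,0)]⟩,.k,.k,(.r
  (-1) ⟨0,[(38,1),(0,0)]⟩ ⟨6,[(10,3),(5,1),(9,1),(1,0),(0,2)]⟩),.k,(.r 0 ⟨0,[(0,0),(0,0)]⟩ ⟨3,[(10,
  1),(6,1),(3,2),(0,2),(3,1),(2,3),(10,0)]⟩),.k,⟨true,(-1),⟨0,[(2,0),(35,0)]⟩,⟨1,[(26,1),(2,1),(9,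
  0),(0,0)]⟩⟩,⟨false,0,⟨0,[(0,0)]⟩,⟨1,[(21,0),(0,0),(6,1),(2,0)]⟩⟩,⟨true,(-1),⟨0,[(12,0)]⟩,⟨0,[(38,
  0),(0,0)]⟩⟩,⟨false,0,⟨0,[(4,0)]⟩,⟨3,[(1,1),(25,1),(4,0),(7,2)]⟩⟩,⟨true,(-1),⟨0,[(2,0),(14,0),(11,
  0)]⟩,⟨0,[(38,1),(0,0)]⟩⟩,⟨true,0,⟨0,[(4,0),(32,0)]⟩,⟨0,[(1,0)]⟩⟩,[.o ⟨false,0,⟨0,[(26,0)]⟩,⟨7,[(1,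
  5),(8,3),(16,1),(4,0),(6,3),(0,2)]⟩⟩,.e ⟨false,0,⟨0,[]⟩,⟨1,[(21,0),(0,0),(16,0)]⟩⟩ ⟨false,1,⟨1,
  [(8,1),(17,1),(12,0),(0,0)]⟩,⟨3,[(1,1),(0,0),(7,0),(16,0),(1,0),(2,0)]⟩⟩,.a ⟨true,0,⟨1,[(28,0),(0,
  0)]⟩,⟨0,[(8,0)]⟩⟩ ⟨false,0,⟨1,[(28,0),(0,0)]⟩,⟨1,[(39,0),(0,0)]⟩⟩ ⟨true,0,⟨0,[(8,0),(17,0)]⟩,⟨3,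
  [(1,1),(0,0),(7,0),(16,0),(1,0),(2,0)]⟩⟩,.o ⟨false,0,⟨1,[(12,1),(19,0),(5,1),(1,0)]⟩,⟨0,[(39,
  0)]⟩⟩]⟩) (.R ⟨1,true,false,false,[1,0,-1],[0,1],[1,1,0,0,0,0,0,-1],(⟨0,[(30,0)]⟩,⟨0,[(31,0)]⟩),
  (⟨0,[(34,0)]⟩,⟨0,[(33,0)]⟩),⟨0,[(19,0)]⟩,.k,.k,.k,.k,(.x 0 ⟨0,[(0,0),(5,0)]⟩ ⟨1,[(25,1),(5,1),(0,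
  0),(1,3),(4,0)]⟩),.k,⟨false,0,⟨4,[(5,3),(10,0),(18,0),(0,1)]⟩,⟨0,[(17,0),(11,0),(10,0)]⟩⟩,⟨true,0,
  ⟨0,[(25,0)]⟩,⟨0,[(0,0)]⟩⟩,⟨false,0,⟨0,[]⟩,⟨1,[(21,0),(0,0),(17,0)]⟩⟩,⟨true,0,⟨0,[(4,0)]⟩,⟨14,[(0,
  1),(0,8),(0,1),(24,3),(4,1),(2,4),(0,0)]⟩⟩,⟨true,0,⟨0,[(37,0)]⟩,⟨0,[(38,0)]⟩⟩,⟨false,1,⟨2,[(4,2),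
  (5,0),(10,0),(0,0),(16,0),(0,0)]⟩,⟨0,[(1,0)]⟩⟩,[]⟩)) (.Q [0,0,0,0,0,-2,0,0,0,0,1] (.p true [0,0,
  1] [] (⟨0,[(30,0)]⟩,⟨0,[(29,0)]⟩) .k 0 (⟨0,[]⟩,⟨0,[]⟩) .k .k) (.Q [0,1,0,-1,0,0,0,0,0,-1] (.pp
  true [-1,1]) (.Q [0,-1,0,-2,1,0,0,0,-1,-1,0,1] (.p true [0,0,0,0,1] [1] (⟨0,[(25,0)]⟩,⟨0,[(24,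
  0)]⟩) .k 1 (⟨0,[]⟩,⟨0,[]⟩) .k .k) (.R ⟨1,true,false,false,[1,-1],[0,0,0,0,1],[0,1,-1,-2],(⟨0,[(35,
  0)]⟩,⟨0,[(36,0)]⟩),(⟨0,[(26,0)]⟩,⟨0,[(25,0)]⟩),⟨2,[(2,0),(5,0),(26,1)]⟩,.k,.k,(.r (-1) ⟨0,[(0,0),
  (16,0),(23,0)]⟩ ⟨6,[(12,3),(5,1),(9,1),(1,0),(0,2)]⟩),(.r (-1) ⟨3,[(0,1),(9,1),(13,1),(16,0),(0,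
  0)]⟩ ⟨1,[(18,0),(0,0),(11,0)]⟩),(.r (-2) ⟨1,[(0,1),(9,1),(12,0),(0,2),(16,0)]⟩ ⟨0,[(4,0),(14,0),
  (11,0)]⟩),.k,⟨false,1,⟨0,[(0,0),(16,0),(23,0)]⟩,⟨1,[(12,0),(26,0)]⟩⟩,⟨true,0,⟨0,[(10,0),(13,0)]⟩,
  ⟨0,[(0,0),(3,0),(14,0),(11,0)]⟩⟩,⟨false,0,⟨0,[(40,0)]⟩,⟨2,[(12,0),(10,0),(0,0),(16,0),(0,0)]⟩⟩,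
  ⟨true,(-1),⟨0,[(16,0)]⟩,⟨5,[(0,3),(13,0),(8,1),(10,0),(2,0),(0,0)]⟩⟩,⟨true,0,⟨0,[(44,0)]⟩,⟨0,[]⟩⟩,
  ⟨false,0,⟨4,[(3,1),(8,0),(3,2),(7,1),(4,1),(11,0),(0,1)]⟩,⟨0,[(0,0)]⟩⟩,[]⟩) (.Q [0,0,0,1,1,0,0,0,
  -1,0,0,1] (.p true [0,0,0,0,1] [] (⟨0,[(26,0)]⟩,⟨0,[(25,0)]⟩) .k 0 (⟨0,[]⟩,⟨0,[]⟩) .k .k) (.I [1,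
  -1,-2,-1,2,0,0,1] (.Q [0,0,2,0,-1,0,1,0,0,0,-1] (.p false [0,0,1] [] (⟨0,[(35,0)]⟩,⟨0,[(34,0)]⟩)
  .k 0 (⟨0,[]⟩,⟨0,[]⟩) .k .k) (.R ⟨1,false,false,true,[0,-1,1],[1,-1],[1,0,-1,-1,0,0,0,1],(⟨0,[(25,
  0)]⟩,⟨0,[(35,0),(3,0)]⟩),(⟨0,[(38,0)]⟩,⟨0,[(39,0)]⟩),⟨0,[(5,0)]⟩,.k,.k,(.r (-2) ⟨0,[(1,0),(41,0),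
  (3,0)]⟩ ⟨16,[(0,0),(6,13),(7,4),(1,1),(3,2),(12,0)]⟩),.k,.k,.k,⟨false,2,⟨15,[(1,17),(13,3),(1,3),
  (3,1),(11,0),(0,0)]⟩,⟨2,[(7,0),(2,1),(6,1),(23,0)]⟩⟩,⟨true,1,⟨1,[(34,1),(2,0),(6,0)]⟩,⟨0,[(0,0),
  (12,0)]⟩⟩,⟨true,0,⟨0,[]⟩,⟨0,[(47,0)]⟩⟩,⟨true,0,⟨12,[(4,2),(2,4),(2,3),(21,3),(1,8),(2,4),(3,5)]⟩,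
  ⟨0,[(9,0),(33,0)]⟩⟩,⟨false,1,⟨8,[(1,1),(13,2),(5,1),(22,1),(0,2)]⟩,⟨0,[(43,0)]⟩⟩,⟨true,0,⟨9,[(7,
  5),(2,1),(21,1),(1,7),(2,4),(3,7),(2,0)]⟩,⟨0,[(9,0),(33,1)]⟩⟩,[.o ⟨false,0,⟨0,[(4,0)]⟩,⟨8,[(1,1),
  (13,2),(5,1),(22,1),(0,2)]⟩⟩,.e ⟨false,2,⟨0,[(1,0)]⟩,⟨8,[(7,6),(4,0),(4,1),(3,0),(18,2)]⟩⟩ ⟨false,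
  2,⟨5,[(1,3),(8,1),(21,1),(1,3),(2,2),(3,1),(2,0)]⟩,⟨2,[(0,1),(5,0),(0,0),(5,1)]⟩⟩,.a ⟨true,(-1),
  ⟨0,[(0,0),(12,0)]⟩,⟨0,[(34,0),(9,0)]⟩⟩ ⟨false,2,⟨1,[(1,1),(31,0),(0,0)]⟩,⟨0,[(7,0)]⟩⟩ ⟨true,1,⟨2,
  [(1,0),(2,0),(5,0),(23,2),(2,0),(2,0),(0,0)]⟩,⟨2,[(0,1),(5,0),(0,0),(5,1)]⟩⟩,.o ⟨false,(-1),⟨0,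
  [(0,0)]⟩,⟨1,[(34,1),(2,0),(6,2)]⟩⟩]⟩) (.I [0,0,-1,-2,1,0,0,1] (.S ⟨1,0,[0,0,-1,-2,0,0,0,1],[0,-1,
  1],[1,1],(⟨0,[(26,0)]⟩,⟨0,[(36,0),(3,0)]⟩),⟨0,[(6,0)]⟩,.k,(.r (-2) ⟨13,[(0,9),(1,8),(10,1),(8,2),
  (18,2)]⟩ ⟨8,[(8,6),(4,0),(2,2),(1,1),(3,0)]⟩),⟨false,(-1),⟨0,[(9,0)]⟩,⟨1,[(2,1),(31,0),(0,0)]⟩⟩,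
  ⟨true,0,⟨0,[(44,0)]⟩,⟨0,[(43,0)]⟩⟩,⟨true,(-1),⟨0,[(8,0),(34,0)]⟩,⟨0,[(0,0)]⟩⟩,⟨false,1,⟨7,[(2,1),
  (19,1),(11,0),(0,0),(10,3)]⟩,⟨0,[]⟩⟩,[.a ⟨true,0,⟨0,[(10,0),(33,2)]⟩,⟨9,[(1,6),(6,6),(7,3),(16,2),
  (8,0)]⟩⟩ ⟨false,0,⟨3,[(0,0),(10,0),(6,0),(23,2)]⟩,⟨7,[(2,1),(19,1),(11,0),(0,0),(10,3)]⟩⟩ ⟨true,1,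
  ⟨0,[(0,0)]⟩,⟨8,[(8,6),(4,0),(2,2),(1,1),(3,0)]⟩⟩,.o ⟨false,1,⟨0,[(0,0),(16,0),(0,0),(27,0)]⟩,⟨9,
  [(1,7),(6,7),(7,0),(1,4),(14,1),(4,4),(3,3)]⟩⟩,.a ⟨true,(-1),⟨0,[(8,0),(1,0),(33,1)]⟩,⟨13,[(1,5),
  (0,3),(13,0),(16,3),(1,3),(7,0)]⟩⟩ ⟨false,0,⟨0,[]⟩,⟨7,[(2,1),(19,1),(11,0),(0,0),(10,3)]⟩⟩ ⟨true,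
  1,⟨0,[(0,0)]⟩,⟨0,[(8,0),(34,0)]⟩⟩,.a ⟨true,(-1),⟨4,[(8,2),(1,2),(3,0),(3,3),(5,0),(19,9),(1,1)]⟩,
  ⟨0,[(1,0)]⟩⟩ ⟨true,0,⟨3,[(0,0),(10,0),(6,0),(23,2)]⟩,⟨1,[(34,0),(0,0)]⟩⟩ ⟨false,2,⟨10,[(0,5),(1,
  6),(8,0),(1,0),(32,1)]⟩,⟨8,[(8,6),(4,0),(2,2),(1,1),(3,0)]⟩⟩]⟩) (.Q [0,0,1,0,-1,0,0,0,1,0,0,-1]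
  (.p false [0,0,0,0,1] [] (⟨0,[(30,0)]⟩,⟨0,[(29,0)]⟩) .k 0 (⟨0,[]⟩,⟨0,[]⟩) .k .k) (.Q [0,0,0,0,0,
  -1,0,0,0,0,0,1] (.ed false [1,-1,0,0,1] .k) (.S ⟨1,0,[0,1,0,-1],[0,0,0,0,1],[1,2],(⟨0,[(32,0)]⟩,
  ⟨0,[(31,0)]⟩),⟨0,[(0,0)]⟩,.k,(.r 0 ⟨0,[(7,0),(8,0)]⟩ ⟨2,[(4,0),(13,0),(5,0),(11,0),(0,0),(10,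
  0)]⟩),⟨false,0,⟨0,[]⟩,⟨7,[(4,1),(19,1),(11,0),(0,0),(10,3)]⟩⟩,⟨true,0,⟨0,[(46,0)]⟩,⟨0,[(45,0)]⟩⟩,
  ⟨true,0,⟨0,[(45,0)]⟩,⟨0,[(46,0)]⟩⟩,⟨false,1,⟨7,[(4,1),(19,1),(11,0),(0,0),(10,3)]⟩,⟨0,[]⟩⟩,[.o
  ⟨false,(-1),⟨0,[(1,0),(5,0),(8,0)]⟩,⟨1,[(5,1),(34,0),(7,0)]⟩⟩,.a ⟨true,(-1),⟨0,[(1,0),(14,0),(29,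
  0)]⟩,⟨0,[(5,0)]⟩⟩ ⟨false,0,⟨1,[(7,0),(8,0),(27,0)]⟩,⟨7,[(4,1),(19,1),(11,0),(0,0),(10,3)]⟩⟩ ⟨true,
  0,⟨0,[(46,0)]⟩,⟨15,[(4,1),(13,3),(1,3),(3,1),(11,0),(0,0)]⟩⟩,.e ⟨false,0,⟨0,[(50,0)]⟩,⟨0,[(48,
  0)]⟩⟩ ⟨false,0,⟨0,[(46,0)]⟩,⟨8,[(4,1),(13,2),(5,1),(22,1),(0,2)]⟩⟩,.o ⟨false,(-1),⟨0,[(1,0)]⟩,⟨27,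
  [(4,6),(0,17),(7,5),(10,0),(4,9),(10,13),(2,2)]⟩⟩]⟩) (.R ⟨0,false,false,true,[0,0,0,0,1],[0,1],[],
  (⟨0,[(32,0)]⟩,⟨0,[(31,0)]⟩),(⟨0,[(42,0)]⟩,⟨0,[(41,0)]⟩),⟨0,[(0,0)]⟩,.k,.k,(.r 0 ⟨0,[(7,0),(8,0)]⟩
  ⟨2,[(4,0),(13,0),(5,0),(11,0),(0,0),(10,0)]⟩),(.r 0 ⟨0,[(7,0),(8,0)]⟩ ⟨2,[(4,0),(13,0),(5,0),(11,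
  0),(0,0),(10,0)]⟩),.k,.k,⟨true,1,⟨5,[(4,1),(8,0),(1,0),(30,0),(1,1)]⟩,⟨0,[(20,0)]⟩⟩,⟨false,2,⟨17,
  [(4,6),(0,17),(7,5),(10,0),(18,2),(3,3)]⟩,⟨0,[(1,0)]⟩⟩,⟨false,1,⟨0,[(48,0)]⟩,⟨0,[(50,0)]⟩⟩,⟨true,
  1,⟨0,[(5,0)]⟩,⟨0,[(1,0),(5,0),(8,0)]⟩⟩,⟨false,0,⟨0,[]⟩,⟨0,[]⟩⟩,⟨false,0,⟨0,[]⟩,⟨0,[]⟩⟩,[.o ⟨false,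
  0,⟨0,[(45,0)]⟩,⟨1,[(40,0),(5,1),(1,0)]⟩⟩,.a ⟨true,0,⟨11,[(5,2),(10,7),(1,2),(4,2),(2,0),(10,1)]⟩,
  ⟨0,[(46,0)]⟩⟩ ⟨false,1,⟨1,[(47,0),(0,0)]⟩,⟨0,[(50,0)]⟩⟩ ⟨true,1,⟨0,[(5,0)]⟩,⟨0,[(1,0),(44,0)]⟩⟩,
  .e ⟨false,1,⟨7,[(4,1),(19,1),(11,0),(0,0),(10,3)]⟩,⟨0,[]⟩⟩ ⟨false,1,⟨0,[(5,0)]⟩,⟨5,[(1,5),(2,1),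
  (8,0),(1,0),(30,0),(1,1)]⟩⟩,.o ⟨false,(-1),⟨0,[(1,0)]⟩,⟨27,[(4,6),(0,17),(7,5),(10,0),(4,9),(10,
  13),(2,2)]⟩⟩]⟩)) (.Q [0,0,0,0,0,1,0,0,0,0,0,-1] (.ed true [1,-1,0,0,1] .k) (.Q [0,0,-1,0,1,0,0,0,
  -1,-1,0,1] (.p true [0,0,0,0,1] [1] (⟨0,[(32,0)]⟩,⟨0,[(31,0)]⟩) .k 1 (⟨0,[]⟩,⟨0,[]⟩) .k .k) (.R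
  ⟨0,false,false,true,[0,0,0,0,1],[0,1],[1,1,1,1],(⟨0,[(33,0)]⟩,⟨0,[(32,0)]⟩),(⟨0,[(43,0)]⟩,⟨0,[(42,
  0)]⟩),⟨0,[(1,0)]⟩,.k,.k,(.r 0 ⟨0,[(8,0),(8,0)]⟩ ⟨2,[(5,0),(13,0),(5,0),(11,0),(0,0),(10,0)]⟩),(.r
  0 ⟨0,[(8,0),(8,0)]⟩ ⟨2,[(5,0),(13,0),(5,0),(11,0),(0,0),(10,0)]⟩),.k,.k,⟨true,0,⟨0,[]⟩,⟨1,[(37,0),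
  (0,0)]⟩⟩,⟨false,1,⟨0,[(0,0),(16,0)]⟩,⟨1,[(31,1),(5,0),(0,0)]⟩⟩,⟨true,0,⟨15,[(5,1),(13,3),(1,3),(3,
  1),(11,0),(0,0)]⟩,⟨0,[(8,0),(8,0)]⟩⟩,⟨false,1,⟨1,[(0,0),(1,0),(8,0),(1,0),(24,0),(10,0)]⟩,⟨0,[(31,
  0),(15,0)]⟩⟩,⟨false,0,⟨0,[]⟩,⟨0,[]⟩⟩,⟨false,0,⟨0,[]⟩,⟨0,[]⟩⟩,[.o ⟨false,0,⟨0,[(46,0)]⟩,⟨1,[(41,0),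
  (5,1),(1,0)]⟩⟩,.a ⟨true,0,⟨11,[(6,2),(10,7),(1,2),(4,2),(2,0),(10,1)]⟩,⟨0,[(47,0)]⟩⟩ ⟨true,0,⟨15,
  [(5,1),(13,3),(1,3),(3,1),(11,0),(0,0)]⟩,⟨0,[(47,0)]⟩⟩ ⟨false,1,⟨4,[(0,0),(1,2),(0,0),(0,0),(1,0),
  (3,0)]⟩,⟨0,[(31,0),(15,0)]⟩⟩,.o ⟨false,0,⟨0,[(31,0)]⟩,⟨5,[(0,3),(20,1),(8,1),(10,0),(5,1),(1,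
  0)]⟩⟩,.o ⟨false,0,⟨1,[(31,1),(5,0),(0,0)]⟩,⟨0,[(0,0)]⟩⟩]⟩) (.Q [0,0,1,0,-2,0,0,0,2,1,0,-2] (.p
  false [0,0,0,0,1] [1,0,0,0,-1] (⟨0,[(33,0)]⟩,⟨0,[(32,0)]⟩) .k 2 (⟨0,[(32,0)]⟩,⟨0,[(33,0)]⟩) .k
  (.r 0 ⟨0,[(51,1)]⟩ ⟨0,[(49,0)]⟩)) (.R ⟨0,false,false,true,[0,0,0,0,1],[1,0,0,0,-1],[0,1,0,-1],(⟨0,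
  [(34,0)]⟩,⟨0,[(33,0)]⟩),(⟨0,[(33,0)]⟩,⟨0,[(34,0)]⟩),⟨0,[(2,0)]⟩,.k,.k,(.r 0 ⟨0,[(9,0),(8,0)]⟩ ⟨2,
  [(6,0),(13,0),(5,0),(11,0),(0,0),(10,0)]⟩),.k,.k,.k,⟨false,0,⟨0,[(9,0),(8,0)]⟩,⟨8,[(6,1),(13,2),
  (5,1),(22,1),(0,2)]⟩⟩,⟨true,2,⟨1,[(3,3),(18,1),(19,0),(5,1),(1,0)]⟩,⟨0,[(0,0)]⟩⟩,⟨true,0,⟨0,[(48,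
  0)]⟩,⟨0,[(47,0)]⟩⟩,⟨false,3,⟨1,[(3,3),(18,1),(19,0),(5,1),(1,2)]⟩,⟨1,[(0,1),(8,0),(8,0),(27,0)]⟩⟩,
  ⟨false,0,⟨0,[]⟩,⟨0,[]⟩⟩,⟨false,0,⟨0,[]⟩,⟨0,[]⟩⟩,[.a ⟨true,1,⟨0,[(31,0)]⟩,⟨1,[(0,0),(17,0)]⟩⟩
  ⟨false,0,⟨0,[(9,0),(8,0)]⟩,⟨8,[(6,1),(13,2),(5,1),(22,1),(0,2)]⟩⟩ ⟨true,2,⟨1,[(3,3),(18,1),(19,0),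
  (5,1),(1,0)]⟩,⟨0,[(0,0)]⟩⟩,.o ⟨false,2,⟨1,[(31,1),(10,0),(7,0)]⟩,⟨1,[(0,0),(8,0),(36,0)]⟩⟩,.a
  ⟨true,(-1),⟨1,[(0,0),(17,0)]⟩,⟨0,[(31,0)]⟩⟩ ⟨false,0,⟨0,[(48,0)]⟩,⟨8,[(6,1),(13,2),(5,1),(22,1),
  (0,2)]⟩⟩ ⟨true,2,⟨1,[(3,3),(18,1),(19,0),(5,1),(1,0)]⟩,⟨1,[(0,1),(8,0),(8,0),(27,0)]⟩⟩,.a ⟨true,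
  (-1),⟨0,[(1,0)]⟩,⟨0,[(3,0)]⟩⟩ ⟨true,0,⟨0,[(9,0),(8,0)]⟩,⟨15,[(6,1),(13,3),(1,3),(3,1),(11,0),(0,
  0)]⟩⟩ ⟨false,3,⟨1,[(3,1),(27,1),(10,0),(7,0)]⟩,⟨0,[(0,0)]⟩⟩]⟩) (.Q [0,0,1,1,-1,0,-1,-1,1,0,1,-1]
  (.p true [0,0,1] [0,0,0,0,1] (⟨0,[(41,0)]⟩,⟨0,[(40,0)]⟩) .k 2 (⟨0,[(34,0)]⟩,⟨0,[(33,0)]⟩) .k (.r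
  (-2) ⟨15,[(6,17),(13,3),(1,3),(3,1),(11,8),(0,8)]⟩ ⟨2,[(12,0),(2,1),(6,1),(23,0)]⟩)) (.Q [0,0,0,0,
  1,0,0,0,-1,-1,0,1] (.p true [0,0,0,0,1] [1] (⟨0,[(35,0)]⟩,⟨0,[(34,0)]⟩) .k 1 (⟨0,[]⟩,⟨0,[]⟩) .k
  .k) (.R ⟨0,false,false,true,[0,0,0,0,1],[1,-1],[1,0,1],(⟨0,[(36,0)]⟩,⟨0,[(35,0)]⟩),(⟨0,[(45,0)]⟩,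
  ⟨0,[(46,0)]⟩),⟨0,[(4,0)]⟩,.k,.k,(.r 0 ⟨0,[(11,0),(8,0)]⟩ ⟨2,[(8,0),(13,0),(5,0),(11,0),(0,0),(10,
  0)]⟩),(.r 0 ⟨1,[(28,0),(0,0),(11,0)]⟩ ⟨5,[(8,1),(8,0),(1,0),(30,0),(1,1)]⟩),.k,.k,⟨true,0,⟨0,[(24,
  0),(27,0)]⟩,⟨0,[(11,0),(8,0)]⟩⟩,⟨false,1,⟨0,[(0,0)]⟩,⟨2,[(7,0),(19,1),(6,0),(2,0),(14,0)]⟩⟩,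
  ⟨false,1,⟨1,[(40,0),(0,0),(10,1)]⟩,⟨1,[(11,0),(8,0),(27,0)]⟩⟩,⟨true,1,⟨0,[(0,0),(49,0)]⟩,⟨0,[(26,
  0)]⟩⟩,⟨false,0,⟨0,[]⟩,⟨0,[]⟩⟩,⟨false,0,⟨0,[]⟩,⟨0,[]⟩⟩,[.o ⟨false,0,⟨0,[(11,0)]⟩,⟨8,[(8,1),(13,2),
  (5,1),(22,1),(0,2)]⟩⟩,.a ⟨true,0,⟨0,[(50,0)]⟩,⟨8,[(3,2),(5,3),(0,0),(9,4),(1,0)]⟩⟩ ⟨false,1,⟨7,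
  [(8,1),(19,1),(11,0),(0,0),(10,3)]⟩,⟨1,[(11,0),(8,0),(27,0)]⟩⟩ ⟨true,1,⟨0,[(0,0),(49,0)]⟩,⟨2,[(1,
  0),(1,1),(9,0)]⟩⟩,.o ⟨false,0,⟨0,[(34,0)]⟩,⟨0,[(0,0)]⟩⟩,.e ⟨true,0,⟨0,[]⟩,⟨0,[(54,0)]⟩⟩ ⟨true,1,
  ⟨1,[(2,0),(8,1),(8,0)]⟩,⟨2,[(1,0),(1,1),(9,0)]⟩⟩]⟩) (.R ⟨0,false,false,false,[0,0,0,0,1],[0,1],[0,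
  1,1],(⟨0,[(36,0)]⟩,⟨0,[(35,0)]⟩),(⟨0,[(46,0)]⟩,⟨0,[(45,0)]⟩),⟨0,[(4,0)]⟩,.k,.k,(.r 0 ⟨0,[(11,0),
  (8,0)]⟩ ⟨2,[(8,0),(13,0),(5,0),(11,0),(0,0),(10,0)]⟩),(.r 0 ⟨0,[(11,0),(8,0)]⟩ ⟨2,[(8,0),(13,0),
  (5,0),(11,0),(0,0),(10,0)]⟩),.k,.k,⟨false,0,⟨0,[(11,0),(8,0)]⟩,⟨8,[(8,1),(13,2),(5,1),(22,1),(0,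
  2)]⟩⟩,⟨true,1,⟨0,[(5,0)]⟩,⟨1,[(0,1),(23,1),(19,0),(5,1),(1,0)]⟩⟩,⟨true,0,⟨1,[(40,0),(0,0)]⟩,⟨1,
  [(11,0),(8,0),(27,0)]⟩⟩,⟨false,2,⟨0,[(9,0),(42,0)]⟩,⟨0,[(0,0),(10,0)]⟩⟩,⟨false,0,⟨0,[]⟩,⟨0,[]⟩⟩,
  ⟨false,0,⟨0,[]⟩,⟨0,[]⟩⟩,[.e ⟨false,0,⟨0,[(54,0)]⟩,⟨1,[(51,0),(0,0)]⟩⟩ ⟨false,1,⟨3,[(2,1),(3,0),(0,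
  0),(5,0),(6,0)]⟩,⟨0,[(34,0),(15,0)]⟩⟩,.o ⟨false,1,⟨8,[(8,1),(13,2),(5,1),(22,1),(0,2)]⟩,⟨0,[(11,
  0)]⟩⟩,.a ⟨true,(-1),⟨0,[(0,0)]⟩,⟨0,[(33,0)]⟩⟩ ⟨false,0,⟨1,[(40,0),(0,0)]⟩,⟨1,[(51,0),(0,0)]⟩⟩
  ⟨true,1,⟨0,[(9,0)]⟩,⟨0,[(0,0),(10,0)]⟩⟩,.e ⟨true,0,⟨0,[(54,0)]⟩,⟨0,[]⟩⟩ ⟨true,1,⟨3,[(2,1),(3,0),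
  (0,0),(5,0),(6,0)]⟩,⟨0,[(3,0),(7,0)]⟩⟩]⟩)) (.R ⟨0,false,false,true,[0,0,0,0,1],[0,-1,1],[0,1],(⟨0,
  [(35,0)]⟩,⟨0,[(34,0)]⟩),(⟨0,[(31,0)]⟩,⟨0,[(41,0),(3,0)]⟩),⟨0,[(3,0)]⟩,.k,.k,(.r 0 ⟨2,[(0,0),(5,0),
  (3,0),(5,0),(6,0),(2,0)]⟩ ⟨2,[(7,0),(13,0),(5,0),(11,0),(0,0),(10,0)]⟩),(.r 1 ⟨8,[(13,6),(4,0),(4,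
  1),(3,0),(18,2)]⟩ ⟨1,[(7,1),(31,0),(0,0)]⟩),.k,.k,⟨true,(-1),⟨0,[(13,0)]⟩,⟨3,[(7,1),(29,1),(1,0),
  (0,2),(8,1)]⟩⟩,⟨false,0,⟨0,[(0,0),(12,0)]⟩,⟨21,[(6,8),(0,6),(12,0),(0,1),(11,20),(4,6),(1,5)]⟩⟩,
  ⟨false,1,⟨7,[(7,1),(19,1),(11,0),(0,0),(10,3)]⟩,⟨0,[]⟩⟩,⟨true,1,⟨1,[(0,1),(38,0),(0,0)]⟩,⟨0,[(2,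
  0),(2,0),(0,0),(3,0)]⟩⟩,⟨false,0,⟨0,[]⟩,⟨0,[]⟩⟩,⟨false,0,⟨0,[]⟩,⟨0,[]⟩⟩,[.o ⟨false,0,⟨0,[(37,0),
  (11,0)]⟩,⟨7,[(6,3),(6,4),(7,0),(16,2),(1,0),(2,3),(7,4)]⟩⟩,.e ⟨false,1,⟨2,[(7,0),(19,0),(22,0)]⟩,
  ⟨0,[]⟩⟩ ⟨false,1,⟨0,[(0,0)]⟩,⟨7,[(6,3),(6,4),(7,0),(11,7),(4,2),(1,0),(10,0)]⟩⟩,.o ⟨false,0,⟨0,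
  [(33,0)]⟩,⟨2,[(0,0),(0,0),(11,0),(26,0),(2,0)]⟩⟩,.a ⟨true,(-1),⟨0,[(2,0)]⟩,⟨0,[(4,0)]⟩⟩ ⟨true,0,
  ⟨3,[(0,0),(5,0),(9,0),(3,0),(2,0),(23,0)]⟩,⟨1,[(39,0),(0,0)]⟩⟩ ⟨false,1,⟨0,[(0,0)]⟩,⟨15,[(6,3),(6,
  12),(7,0),(11,15),(4,2),(1,8),(10,8)]⟩⟩]⟩)))) (.Q [0,0,-1,0,1,0,0,0,-1,-1,0,1] (.p true [0,0,0,0,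
  1] [1] (⟨0,[(32,0)]⟩,⟨0,[(31,0)]⟩) .k 1 (⟨0,[]⟩,⟨0,[]⟩) .k .k) (.S ⟨1,0,[0,2,0,-1],[0,0,0,0,1],[1,
  1],(⟨0,[(33,0)]⟩,⟨0,[(32,0)]⟩),⟨0,[(1,0)]⟩,.k,(.r 0 ⟨0,[(8,0),(8,0)]⟩ ⟨2,[(5,0),(13,0),(5,0),(11,
  0),(0,0),(10,0)]⟩),⟨true,0,⟨0,[]⟩,⟨0,[(51,0)]⟩⟩,⟨false,0,⟨0,[(47,0)]⟩,⟨8,[(5,1),(13,2),(5,1),(22,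
  1),(0,2)]⟩⟩,⟨false,1,⟨8,[(5,1),(13,2),(5,1),(22,1),(0,2)]⟩,⟨0,[(47,0)]⟩⟩,⟨true,0,⟨0,[(51,0)]⟩,⟨0,
  []⟩⟩,[.o ⟨false,(-1),⟨0,[(8,0),(15,0)]⟩,⟨5,[(0,3),(18,1),(10,1),(10,0),(7,4)]⟩⟩,.a ⟨true,(-1),⟨0,
  [(24,0),(22,0)]⟩,⟨1,[(0,0),(1,0),(8,0),(1,0),(24,0),(10,0)]⟩⟩ ⟨true,0,⟨0,[]⟩,⟨1,[(37,0),(0,0)]⟩⟩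
  ⟨false,0,⟨0,[(8,0),(8,0)]⟩,⟨8,[(5,1),(13,2),(5,1),(22,1),(0,2)]⟩⟩,.o ⟨false,0,⟨0,[(31,0)]⟩,⟨5,[(0,
  3),(20,1),(8,1),(10,0),(5,1),(1,0)]⟩⟩,.o ⟨false,0,⟨1,[(31,1),(5,0),(0,0)]⟩,⟨0,[(0,0)]⟩⟩]⟩) (.Q [0,
  -1,0,0,1,0,-1,-1,-1,-1,1,1] (.p true [0,0,1] [1,0,0,0,-1] (⟨0,[(40,0)]⟩,⟨0,[(39,0)]⟩) .k 2 (⟨0,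
  [(32,0)]⟩,⟨0,[(33,0)]⟩) .k (.r (-1) ⟨5,[(5,2),(19,1),(0,0),(8,3),(2,4),(5,0)]⟩ ⟨3,[(3,0),(7,0),(2,
  0),(1,0),(32,1)]⟩)) (.S ⟨1,0,[0,1,0,-1],[0,0,0,0,1],[1,2],(⟨0,[(34,0)]⟩,⟨0,[(33,0)]⟩),⟨0,[(2,0)]⟩,
  .k,(.r 0 ⟨0,[(9,0),(8,0)]⟩ ⟨2,[(6,0),(13,0),(5,0),(11,0),(0,0),(10,0)]⟩),⟨false,0,⟨0,[]⟩,⟨7,[(6,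
  1),(19,1),(11,0),(0,0),(10,3)]⟩⟩,⟨true,0,⟨0,[(48,0)]⟩,⟨0,[(47,0)]⟩⟩,⟨true,0,⟨0,[(47,0)]⟩,⟨0,[(48,
  0)]⟩⟩,⟨false,1,⟨7,[(6,1),(19,1),(11,0),(0,0),(10,3)]⟩,⟨0,[]⟩⟩,[.e ⟨false,0,⟨0,[(45,0)]⟩,⟨0,[(50,
  0)]⟩⟩ ⟨false,0,⟨0,[(9,0),(8,0)]⟩,⟨8,[(6,1),(13,2),(5,1),(22,1),(0,2)]⟩⟩,.o ⟨false,0,⟨0,[(32,0),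
  (15,0)]⟩,⟨0,[(0,0),(26,0)]⟩⟩,.o ⟨false,0,⟨0,[(32,0)]⟩,⟨0,[(0,0),(35,0)]⟩⟩,.a ⟨true,(-1),⟨0,[(1,
  0)]⟩,⟨0,[(3,0)]⟩⟩ ⟨false,0,⟨1,[(9,0),(8,0),(27,0)]⟩,⟨1,[(38,0),(0,0),(10,1)]⟩⟩ ⟨true,0,⟨0,[(9,0),
  (8,0)]⟩,⟨15,[(6,1),(13,3),(1,3),(3,1),(11,0),(0,0)]⟩⟩]⟩) (.Q [0,2,0,1,-2,0,0,0,1,1,0,-1] (.p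
  false [0,0,0,0,1] [1] (⟨0,[(34,0)]⟩,⟨0,[(33,0)]⟩) .k 1 (⟨0,[]⟩,⟨0,[]⟩) .k .k) (.R ⟨1,false,false,
  false,[0,0,0,0,1],[1,-1],[1,1],(⟨0,[(35,0)]⟩,⟨0,[(34,0)]⟩),(⟨0,[(44,0)]⟩,⟨0,[(45,0)]⟩),⟨0,[(3,
  0)]⟩,.k,.k,(.r 0 ⟨5,[(0,0),(3,0),(1,0),(3,0),(5,0),(20,0),(8,0),(2,3)]⟩ ⟨2,[(7,0),(13,0),(5,0),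
  (11,0),(0,0),(10,0)]⟩),(.r 0 ⟨1,[(27,0),(0,0),(11,0)]⟩ ⟨5,[(7,1),(8,0),(1,0),(30,0),(1,1)]⟩),.k,
  .k,⟨false,0,⟨0,[(48,0)]⟩,⟨5,[(7,1),(8,0),(1,0),(30,0),(1,1)]⟩⟩,⟨true,1,⟨1,[(4,1),(18,1),(19,0),(5,
  1),(1,0)]⟩,⟨0,[(0,0),(48,0),(1,0)]⟩⟩,⟨true,0,⟨0,[]⟩,⟨0,[(53,0)]⟩⟩,⟨true,2,⟨1,[(32,1),(10,0),(5,1),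
  (1,0)]⟩,⟨0,[(0,0)]⟩⟩,⟨false,1,⟨8,[(7,1),(13,2),(5,1),(22,1),(0,2)]⟩,⟨0,[(49,0)]⟩⟩,⟨true,2,⟨1,[(32,
  1),(10,0),(7,0)]⟩,⟨0,[(0,0),(48,0)]⟩⟩,[.e ⟨false,0,⟨6,[(0,0),(3,0),(1,0),(3,0),(5,0),(11,0),(17,
  0),(0,0)]⟩,⟨7,[(7,1),(19,1),(11,0),(0,0),(10,3)]⟩⟩ ⟨false,2,⟨22,[(7,6),(2,4),(5,3),(1,2),(13,22),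
  (10,8),(2,0)]⟩,⟨0,[(0,0),(50,0)]⟩⟩,.o ⟨false,1,⟨1,[(43,0),(5,1),(1,0)]⟩,⟨0,[(48,0)]⟩⟩,.e ⟨false,0,
  ⟨0,[]⟩,⟨7,[(7,1),(19,1),(11,0),(0,0),(10,3)]⟩⟩ ⟨false,2,⟨1,[(32,1),(10,0),(5,1),(1,0)]⟩,⟨0,[(0,0),
  (50,0)]⟩⟩,.a ⟨true,(-1),⟨0,[(2,0)]⟩,⟨0,[(4,0)]⟩⟩ ⟨true,0,⟨6,[(0,0),(3,0),(1,0),(3,0),(5,0),(11,0),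
  (17,0),(0,0)]⟩,⟨1,[(39,0),(0,0)]⟩⟩ ⟨false,2,⟨1,[(4,1),(38,0),(5,1),(1,0)]⟩,⟨5,[(0,0),(1,3),(6,0),
  (11,0),(29,0)]⟩⟩]⟩) (.Q [0,0,0,0,-1,0,0,0,1,1,0,-1] (.p false [0,0,0,0,1] [1] (⟨0,[(35,0)]⟩,⟨0,
  [(34,0)]⟩) .k 1 (⟨0,[]⟩,⟨0,[]⟩) .k .k) (.Q [0,0,0,-2,1,0,0,0,-1,-1,0,1] (.p true [0,0,0,0,1] [1]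
  (⟨0,[(36,0)]⟩,⟨0,[(35,0)]⟩) .k 1 (⟨0,[]⟩,⟨0,[]⟩) .k .k) (.R ⟨1,false,false,false,[0,0,0,0,1],[0,0,
  1],[0,1,0,-1],(⟨0,[(37,0)]⟩,⟨0,[(36,0)]⟩),(⟨0,[(44,0)]⟩,⟨0,[(43,0)]⟩),⟨0,[(5,0)]⟩,.k,.k,(.r 0 ⟨4,
  [(0,1),(2,1),(4,1),(9,1),(6,1),(23,0)]⟩ ⟨27,[(2,7),(1,7),(4,9),(13,11),(5,9),(11,2),(0,2)]⟩),.k,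
  (.r 0 ⟨4,[(18,1),(1,1),(8,0),(18,1)]⟩ ⟨0,[(30,0),(11,0),(10,0)]⟩),.k,⟨true,(-1),⟨0,[(18,0),(6,
  0)]⟩,⟨0,[(30,0),(11,0),(10,0)]⟩⟩,⟨false,1,⟨0,[(10,0),(13,0)]⟩,⟨2,[(1,1),(6,0),(26,0),(6,1),(2,
  0)]⟩⟩,⟨true,0,⟨0,[(51,0)]⟩,⟨0,[(50,0)]⟩⟩,⟨false,2,⟨0,[(2,0),(14,0)]⟩,⟨6,[(1,3),(6,0),(6,2),(2,2),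
  (3,2),(17,0),(1,4),(2,1)]⟩⟩,⟨false,1,⟨18,[(2,2),(1,2),(4,4),(13,0),(5,4),(23,5)]⟩,⟨0,[]⟩⟩,⟨false,
  2,⟨0,[(2,0),(11,0)]⟩,⟨8,[(1,7),(10,3),(2,1),(2,3),(3,0),(17,2),(1,5),(2,1)]⟩⟩,[.a ⟨true,0,⟨1,[(0,
  0),(0,0),(15,1)]⟩,⟨4,[(8,0),(6,1),(2,0),(21,1),(1,1),(10,0)]⟩⟩ ⟨false,0,⟨4,[(0,1),(2,1),(4,1),(9,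
  1),(6,1),(23,0)]⟩,⟨8,[(9,1),(13,2),(5,1),(22,1),(0,2)]⟩⟩ ⟨true,1,⟨0,[(0,0),(13,0)]⟩,⟨2,[(1,1),(13,
  1),(2,0),(16,0),(6,2),(2,0)]⟩⟩,.o ⟨false,1,⟨1,[(2,0),(0,0),(26,0),(22,0)]⟩,⟨4,[(8,1),(3,2),(2,2),
  (24,1),(1,0),(2,0)]⟩⟩,.a ⟨true,(-1),⟨0,[(1,0)]⟩,⟨0,[(34,0)]⟩⟩ ⟨false,0,⟨0,[(51,0)]⟩,⟨8,[(9,1),(13,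
  2),(5,1),(22,1),(0,2)]⟩⟩ ⟨true,1,⟨0,[(0,0),(13,0)]⟩,⟨6,[(1,3),(6,0),(6,2),(2,2),(3,2),(17,0),(1,
  4),(2,1)]⟩⟩,.a ⟨true,(-1),⟨0,[(4,0)]⟩,⟨0,[(6,0)]⟩⟩ ⟨true,0,⟨4,[(0,1),(2,1),(4,1),(9,1),(6,1),(23,
  0)]⟩,⟨15,[(9,1),(13,3),(1,3),(3,1),(11,0),(0,0)]⟩⟩ ⟨false,2,⟨12,[(2,6),(3,5),(2,2),(4,0),(2,4),(6,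
  0),(5,3),(0,0)]⟩,⟨2,[(1,1),(13,1),(2,0),(16,0),(6,2),(2,0)]⟩⟩]⟩) (.S ⟨1,0,[0,2,0,-1],[0,0,0,0,1],
  [1,1],(⟨0,[(37,0)]⟩,⟨0,[(36,0)]⟩),⟨0,[(5,0)]⟩,.k,(.r 0 ⟨0,[(12,0),(8,0)]⟩ ⟨27,[(2,7),(1,7),(4,9),
  (13,11),(5,9),(11,2),(0,2)]⟩),⟨true,0,⟨0,[]⟩,⟨0,[(55,0)]⟩⟩,⟨false,0,⟨0,[(51,0)]⟩,⟨8,[(9,1),(13,2),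
  (5,1),(22,1),(0,2)]⟩⟩,⟨false,1,⟨8,[(9,1),(13,2),(5,1),(22,1),(0,2)]⟩,⟨0,[(51,0)]⟩⟩,⟨true,0,⟨0,
  [(55,0)]⟩,⟨0,[]⟩⟩,[.e ⟨false,0,⟨1,[(12,0),(8,0),(27,0)]⟩,⟨18,[(2,2),(1,2),(4,4),(13,0),(5,4),(23,
  5)]⟩⟩ ⟨false,0,⟨0,[(48,0),(2,0)]⟩,⟨0,[(0,0),(1,0)]⟩⟩,.o ⟨false,(-1),⟨0,[(1,0),(10,0)]⟩,⟨1,[(10,1),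
  (34,0),(7,0)]⟩⟩,.e ⟨false,0,⟨0,[]⟩,⟨18,[(2,2),(1,2),(4,4),(13,0),(5,4),(23,5)]⟩⟩ ⟨false,0,⟨0,[(51,
  0),(3,0)]⟩,⟨0,[(0,0),(1,0)]⟩⟩,.a ⟨true,(-1),⟨0,[(4,0)]⟩,⟨0,[(6,0)]⟩⟩ ⟨true,0,⟨1,[(12,0),(8,0),(27,
  0)]⟩,⟨1,[(41,0),(0,0)]⟩⟩ ⟨false,0,⟨0,[(12,0),(8,0)]⟩,⟨18,[(2,4),(1,4),(4,1),(13,7),(5,1),(23,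
  9)]⟩⟩]⟩)) (.R ⟨1,false,false,false,[0,0,0,0,1],[1,-1],[1,2],(⟨0,[(36,0)]⟩,⟨0,[(35,0)]⟩),(⟨0,[(45,
  0)]⟩,⟨0,[(46,0)]⟩),⟨0,[(4,0)]⟩,.k,.k,(.r 0 ⟨0,[(11,0),(8,0)]⟩ ⟨27,[(1,7),(1,7),(4,9),(13,11),(5,
  9),(11,2),(0,2)]⟩),(.r 0 ⟨1,[(28,0),(0,0),(11,0)]⟩ ⟨8,[(1,0),(1,0),(4,2),(8,1),(1,0),(32,1)]⟩),.k,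
  .k,⟨true,(-1),⟨1,[(11,0),(8,0),(3,1),(23,0)]⟩,⟨0,[(50,0),(1,0)]⟩⟩,⟨false,1,⟨0,[(0,0)]⟩,⟨2,[(7,0),
  (19,1),(6,0),(2,0),(14,0)]⟩⟩,⟨false,0,⟨0,[]⟩,⟨18,[(1,2),(1,2),(4,4),(13,0),(5,4),(23,5)]⟩⟩,⟨false,
  2,⟨0,[(1,0)]⟩,⟨0,[(26,0)]⟩⟩,⟨true,0,⟨0,[(49,0)]⟩,⟨0,[(50,0)]⟩⟩,⟨false,2,⟨0,[(0,0),(51,0)]⟩,⟨0,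
  [(27,0)]⟩⟩,[.a ⟨true,0,⟨0,[(50,0)]⟩,⟨8,[(3,2),(5,3),(0,0),(9,4),(1,0)]⟩⟩ ⟨false,0,⟨0,[(47,0)]⟩,⟨0,
  [(52,0)]⟩⟩ ⟨true,1,⟨0,[(0,0),(49,0)]⟩,⟨4,[(2,0),(0,3),(2,0),(0,0),(14,0)]⟩⟩,.o ⟨false,1,⟨1,[(44,
  0),(5,1),(1,0)]⟩,⟨0,[(49,0)]⟩⟩,.o ⟨false,0,⟨0,[(34,0)]⟩,⟨0,[(0,0)]⟩⟩,.e ⟨false,0,⟨1,[(11,0),(8,0),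
  (27,0)]⟩,⟨18,[(1,11),(1,11),(4,0),(13,3),(5,0),(23,4)]⟩⟩ ⟨false,2,⟨6,[(0,0),(0,3),(3,1),(2,0),(8,
  0),(26,0),(2,0)]⟩,⟨4,[(2,0),(0,3),(2,0),(0,0),(14,0)]⟩⟩]⟩))))))))) (.Q [0,-2,0,-1,2,0,0,0,-1,-1,0,
  1] (.p true [0,0,0,0,1] [1] (⟨0,[(28,0)]⟩,⟨0,[(27,0)]⟩) .k 1 (⟨0,[]⟩,⟨0,[]⟩) .k .k) (.Q [0,0,0,0,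
  0,1,0,0,0,0,0,-1] (.ed true [1,-1,0,0,1] .k) (.Q [0,0,1,0,-1,0,0,0,1,1,0,-1] (.p false [0,0,0,0,
  1] [1] (⟨0,[(30,0)]⟩,⟨0,[(29,0)]⟩) .k 1 (⟨0,[]⟩,⟨0,[]⟩) .k .k) (.Q [0,0,0,0,1,0,0,0,-2,-1,0,2]
  (.p true [0,0,0,0,1] [1,0,0,0,-1] (⟨0,[(31,0)]⟩,⟨0,[(30,0)]⟩) .k 2 (⟨0,[(30,0)]⟩,⟨0,[(31,0)]⟩) .k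
  (.r 0 ⟨0,[(49,1)]⟩ ⟨0,[(47,0)]⟩)) (.R ⟨0,false,false,false,[0,0,0,0,1],[1,0,0,0,-1],[],(⟨0,[(32,
  0)]⟩,⟨0,[(31,0)]⟩),(⟨0,[(31,0)]⟩,⟨0,[(32,0)]⟩),⟨0,[(2,0)]⟩,.k,.k,(.r 0 ⟨0,[(7,0),(8,0)]⟩ ⟨11,[(1,
  3),(1,4),(1,5),(6,0),(5,2),(5,0),(5,6),(6,0)]⟩),.k,.k,.k,⟨false,0,⟨1,[(7,0),(8,0),(27,0)]⟩,⟨1,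
  [(29,0),(0,0),(17,0)]⟩⟩,⟨true,1,⟨0,[(0,0)]⟩,⟨0,[(1,0),(28,0)]⟩⟩,⟨false,1,⟨0,[(48,0)]⟩,⟨0,[(50,
  0)]⟩⟩,⟨true,2,⟨0,[(0,0),(47,0)]⟩,⟨1,[(7,0),(9,0),(5,2)]⟩⟩,⟨false,0,⟨0,[]⟩,⟨0,[]⟩⟩,⟨false,0,⟨0,[]⟩,
  ⟨0,[]⟩⟩,[.e ⟨false,1,⟨1,[(29,0),(0,0),(16,0)]⟩,⟨0,[]⟩⟩ ⟨false,2,⟨1,[(0,1),(46,0),(0,0)]⟩,⟨0,[(23,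
  0),(6,0)]⟩⟩,.o ⟨false,2,⟨9,[(0,1),(2,5),(14,1),(21,0),(6,1),(0,2)]⟩,⟨1,[(7,0),(9,0),(5,0)]⟩⟩,.o
  ⟨false,0,⟨0,[(30,0)]⟩,⟨2,[(0,0),(28,0),(10,0)]⟩⟩,.a ⟨true,(-1),⟨0,[(1,0)]⟩,⟨2,[(0,0),(15,0),(12,
  0),(17,0)]⟩⟩ ⟨false,1,⟨1,[(47,0),(0,0)]⟩,⟨1,[(36,0),(0,0)]⟩⟩ ⟨true,2,⟨1,[(0,1),(46,0),(0,0)]⟩,⟨1,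
  [(1,1),(5,0),(9,0),(5,0)]⟩⟩]⟩) (.Q [0,0,0,0,1,0,0,0,-1,-1,0,1] (.p true [0,0,0,0,1] [1] (⟨0,[(32,
  0)]⟩,⟨0,[(31,0)]⟩) .k 1 (⟨0,[]⟩,⟨0,[]⟩) .k .k) (.R ⟨0,false,false,true,[0,0,0,0,1],[1,-1],[1,0,1],
  (⟨0,[(33,0)]⟩,⟨0,[(32,0)]⟩),(⟨0,[(42,0)]⟩,⟨0,[(43,0)]⟩),⟨0,[(3,0)]⟩,.k,.k,(.r 0 ⟨0,[(8,0),(8,0)]⟩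
  ⟨3,[(1,0),(2,1),(1,0),(6,0),(5,0),(5,0),(5,0),(6,0)]⟩),(.r 0 ⟨1,[(25,0),(0,0),(11,0)]⟩ ⟨1,[(47,1),
  (0,0),(0,0)]⟩),.k,.k,⟨true,0,⟨0,[(21,0),(27,0)]⟩,⟨0,[(8,0),(8,0)]⟩⟩,⟨false,1,⟨0,[(0,0)]⟩,⟨2,[(1,
  1),(15,0),(12,0),(17,0)]⟩⟩,⟨false,1,⟨9,[(1,0),(0,5),(1,6),(1,0),(12,1),(29,1)]⟩,⟨1,[(8,0),(8,0),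
  (27,0)]⟩⟩,⟨true,1,⟨0,[(0,0),(46,0)]⟩,⟨0,[(23,0)]⟩⟩,⟨false,0,⟨0,[]⟩,⟨0,[]⟩⟩,⟨false,0,⟨0,[]⟩,⟨0,
  []⟩⟩,[.o ⟨false,0,⟨0,[(8,0)]⟩,⟨4,[(6,1),(12,0),(11,1),(16,0),(0,1)]⟩⟩,.a ⟨true,0,⟨0,[(47,0)]⟩,⟨8,
  [(2,2),(3,3),(0,0),(9,4),(1,0)]⟩⟩ ⟨false,1,⟨1,[(1,0),(2,0),(1,0)]⟩,⟨1,[(8,0),(8,0),(27,0)]⟩⟩
  ⟨true,1,⟨0,[(0,0),(46,0)]⟩,⟨5,[(1,1),(0,1),(2,0),(4,0),(6,0),(1,0),(18,0)]⟩⟩,.o ⟨false,0,⟨0,[(31,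
  0)]⟩,⟨0,[(0,0)]⟩⟩,.e ⟨true,0,⟨0,[]⟩,⟨0,[(51,0)]⟩⟩ ⟨true,1,⟨0,[(0,0),(7,0),(8,0)]⟩,⟨5,[(1,1),(0,1),
  (2,0),(4,0),(6,0),(1,0),(18,0)]⟩⟩]⟩) (.Q [0,1,0,1,-1,0,0,0,1,0,0,-1] (.p false [0,0,0,0,1] [] (⟨0,
  [(33,0)]⟩,⟨0,[(32,0)]⟩) .k 0 (⟨0,[]⟩,⟨0,[]⟩) .k .k) (.S ⟨1,0,[0,-1,0,-1],[1,0,0,0,-1],[1],(⟨0,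
  [(33,0)]⟩,⟨0,[(34,0)]⟩),⟨2,[(4,0),(5,0),(5,0),(16,1)]⟩,.k,(.r (-1) ⟨1,[(48,1),(0,0),(0,0)]⟩ ⟨1,
  [(26,0),(0,0),(11,0)]⟩),⟨false,0,⟨0,[]⟩,⟨1,[(2,0),(2,0),(1,0)]⟩⟩,⟨true,0,⟨0,[(48,0)]⟩,⟨0,[(47,
  0)]⟩⟩,⟨true,0,⟨0,[(47,0)]⟩,⟨0,[(48,0)]⟩⟩,⟨false,1,⟨1,[(2,0),(2,0),(1,0)]⟩,⟨0,[]⟩⟩,[.o ⟨false,2,⟨0,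
  [(5,0),(46,0)]⟩,⟨0,[(0,0)]⟩⟩,.o ⟨false,2,⟨0,[(5,0)]⟩,⟨0,[(19,0)]⟩⟩,.a ⟨true,1,⟨0,[(31,0)]⟩,⟨0,[(1,
  0)]⟩⟩ ⟨true,0,⟨0,[]⟩,⟨0,[(52,0)]⟩⟩ ⟨false,1,⟨0,[(48,0),(1,0)]⟩,⟨0,[(47,0)]⟩⟩,.o ⟨false,1,⟨1,[(5,
  0),(1,0),(1,0),(12,0)]⟩,⟨1,[(1,1),(40,0),(6,0)]⟩⟩]⟩) (.R ⟨0,false,false,false,[0,0,0,0,1],[0,0,1],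
  [0,1,0,-1],(⟨0,[(34,0)]⟩,⟨0,[(33,0)]⟩),(⟨0,[(41,0)]⟩,⟨0,[(40,0)]⟩),⟨0,[(4,0)]⟩,.k,.k,(.r 0 ⟨0,[(9,
  0),(8,0)]⟩ ⟨3,[(2,0),(2,1),(1,0),(6,0),(5,0),(5,0),(5,0),(6,0)]⟩),.k,.k,.k,⟨true,(-1),⟨0,[(15,0),
  (6,0)]⟩,⟨0,[(27,0),(11,0),(10,0)]⟩⟩,⟨false,1,⟨0,[(7,0),(13,0)]⟩,⟨1,[(1,1),(37,1),(2,0),(6,0)]⟩⟩,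
  ⟨true,0,⟨0,[(48,0)]⟩,⟨0,[(47,0)]⟩⟩,⟨false,2,⟨0,[(5,0),(8,0)]⟩,⟨2,[(2,0),(3,0),(1,0),(6,1),(23,2),
  (2,0),(3,0)]⟩⟩,⟨false,0,⟨0,[]⟩,⟨0,[]⟩⟩,⟨false,0,⟨0,[]⟩,⟨0,[]⟩⟩,[.a ⟨true,0,⟨1,[(0,0),(0,0),(12,0),
  (21,0)]⟩,⟨3,[(12,0),(2,1),(4,0),(16,0),(1,2),(9,0)]⟩⟩ ⟨false,0,⟨0,[(9,0),(8,0)]⟩,⟨4,[(7,1),(12,0),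
  (11,1),(16,0),(0,1)]⟩⟩ ⟨true,1,⟨0,[(0,0),(26,0)]⟩,⟨2,[(1,0),(0,0),(9,1),(2,0),(23,2),(2,0)]⟩⟩,.o
  ⟨false,1,⟨0,[(36,0),(13,0)]⟩,⟨13,[(6,2),(5,0),(2,4),(21,4),(1,8),(2,6),(3,5)]⟩⟩,.a ⟨true,(-1),⟨0,
  [(1,0)]⟩,⟨0,[(31,0)]⟩⟩ ⟨false,0,⟨0,[(48,0)]⟩,⟨4,[(7,1),(12,0),(11,1),(16,0),(0,1)]⟩⟩ ⟨true,1,⟨0,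
  [(0,0),(26,0)]⟩,⟨2,[(2,0),(3,0),(1,0),(6,1),(23,2),(2,0),(3,0)]⟩⟩,.a ⟨true,(-1),⟨0,[(3,0)]⟩,⟨0,
  [(0,0),(45,0)]⟩⟩ ⟨true,0,⟨0,[(9,0),(8,0)]⟩,⟨13,[(20,3),(5,1),(9,1),(1,0),(0,2)]⟩⟩ ⟨false,2,⟨1,[(0,
  0),(4,0),(8,0),(12,0),(21,0)]⟩,⟨2,[(1,0),(0,0),(9,1),(2,0),(23,2),(2,0)]⟩⟩]⟩)))) (.R ⟨0,false,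
  false,true,[0,0,0,0,1],[0,1],[1,1,1,1],(⟨0,[(31,0)]⟩,⟨0,[(30,0)]⟩),(⟨0,[(41,0)]⟩,⟨0,[(40,0)]⟩),⟨0,
  [(1,0)]⟩,.k,.k,(.r 0 ⟨0,[(6,0),(8,0)]⟩ ⟨15,[(2,4),(1,1),(6,4),(5,2),(5,4),(5,6),(6,4),(10,3)]⟩),
  (.r 0 ⟨0,[(6,0),(8,0)]⟩ ⟨15,[(2,4),(1,1),(6,4),(5,2),(5,4),(5,6),(6,4),(10,3)]⟩),.k,.k,⟨true,0,⟨0,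
  []⟩,⟨1,[(35,0),(0,0)]⟩⟩,⟨false,1,⟨0,[(0,0),(14,0)]⟩,⟨1,[(29,1),(5,0),(0,0)]⟩⟩,⟨true,0,⟨13,[(17,3),
  (5,1),(9,1),(1,0),(0,2)]⟩,⟨0,[(6,0),(8,0)]⟩⟩,⟨false,1,⟨3,[(0,1),(1,1),(0,0),(4,0),(6,2),(1,0),(18,
  0)]⟩,⟨0,[(29,0),(15,0)]⟩⟩,⟨false,0,⟨0,[]⟩,⟨0,[]⟩⟩,⟨false,0,⟨0,[]⟩,⟨0,[]⟩⟩,[.o ⟨false,0,⟨0,[(44,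
  0)]⟩,⟨1,[(39,0),(5,1),(1,0)]⟩⟩,.a ⟨true,0,⟨11,[(4,2),(10,7),(1,2),(4,2),(2,0),(10,1)]⟩,⟨0,[(45,
  0)]⟩⟩ ⟨true,0,⟨13,[(17,3),(5,1),(9,1),(1,0),(0,2)]⟩,⟨0,[(45,0)]⟩⟩ ⟨false,1,⟨6,[(0,3),(3,2),(10,3),
  (1,0),(25,0)]⟩,⟨0,[(29,0),(15,0)]⟩⟩,.o ⟨false,0,⟨0,[(29,0)]⟩,⟨10,[(0,5),(1,1),(3,0),(12,2),(8,2),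
  (10,0)]⟩⟩,.o ⟨false,0,⟨1,[(29,1),(5,0),(0,0)]⟩,⟨0,[(0,0)]⟩⟩]⟩)) (.Q [0,-2,0,0,2,0,0,0,-1,-1,0,1]
  (.p true [0,0,0,0,1] [1] (⟨0,[(30,0)]⟩,⟨0,[(29,0)]⟩) .k 1 (⟨0,[]⟩,⟨0,[]⟩) .k .k) (.Q [0,0,1,0,-1,
  0,0,0,1,1,0,-1] (.p false [0,0,0,0,1] [1] (⟨0,[(31,0)]⟩,⟨0,[(30,0)]⟩) .k 1 (⟨0,[]⟩,⟨0,[]⟩) .k .k)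
  (.Q [0,0,0,1,1,0,0,0,-1,-1,0,1] (.p true [0,0,0,0,1] [1] (⟨0,[(32,0)]⟩,⟨0,[(31,0)]⟩) .k 1 (⟨0,[]⟩,
  ⟨0,[]⟩) .k .k) (.S ⟨1,0,[0,1,0,-1],[0,0,0,0,1],[1,2],(⟨0,[(33,0)]⟩,⟨0,[(32,0)]⟩),⟨0,[(3,0)]⟩,.k,
  (.r 0 ⟨0,[(8,0),(8,0)]⟩ ⟨11,[(1,3),(2,4),(1,5),(6,0),(5,2),(5,0),(5,6),(6,0)]⟩),⟨false,0,⟨0,[]⟩,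
  ⟨1,[(30,0),(0,0),(17,0)]⟩⟩,⟨true,0,⟨0,[(47,0)]⟩,⟨0,[(46,0)]⟩⟩,⟨true,0,⟨0,[(46,0)]⟩,⟨0,[(47,0)]⟩⟩,
  ⟨false,1,⟨1,[(30,0),(0,0),(17,0)]⟩,⟨0,[]⟩⟩,[.e ⟨false,0,⟨0,[(44,0)]⟩,⟨0,[(49,0)]⟩⟩ ⟨false,0,⟨0,
  [(8,0),(8,0)]⟩,⟨4,[(6,1),(12,0),(11,1),(16,0),(0,1)]⟩⟩,.o ⟨false,0,⟨0,[(31,0),(15,0)]⟩,⟨0,[(0,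
  0)]⟩⟩,.o ⟨false,0,⟨0,[(31,0)]⟩,⟨0,[(0,0),(46,0)]⟩⟩,.a ⟨true,(-1),⟨0,[(1,0)]⟩,⟨0,[(0,0),(16,0),(29,
  0)]⟩⟩ ⟨false,0,⟨1,[(8,0),(8,0),(27,0)]⟩,⟨10,[(1,6),(2,6),(1,0),(12,1),(11,0),(17,2)]⟩⟩ ⟨true,0,⟨0,
  [(8,0),(8,0)]⟩,⟨13,[(19,3),(5,1),(9,1),(1,0),(0,2)]⟩⟩]⟩) (.Q [0,0,0,0,-1,0,0,0,1,1,0,-1] (.p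
  false [0,0,0,0,1] [1] (⟨0,[(33,0)]⟩,⟨0,[(32,0)]⟩) .k 1 (⟨0,[]⟩,⟨0,[]⟩) .k .k) (.Q [0,1,0,0,-1,0,0,
  0,1,0,0,-1] (.p false [0,0,0,0,1] [] (⟨0,[(34,0)]⟩,⟨0,[(33,0)]⟩) .k 0 (⟨0,[]⟩,⟨0,[]⟩) .k .k) (.R
  ⟨2,false,false,false,[0,1],[1,0,0,0,-1],[0,0,1],(⟨0,[]⟩,⟨0,[]⟩),(⟨0,[(34,0)]⟩,⟨0,[(35,0)]⟩),⟨0,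
  []⟩,.k,.k,.k,(.r 0 ⟨1,[(27,0),(0,0),(11,0)]⟩ ⟨1,[(2,0),(3,0),(43,0)]⟩),.k,.k,⟨false,0,⟨0,[(53,
  0)]⟩,⟨1,[(50,0),(0,0)]⟩⟩,⟨true,1,⟨1,[(6,0),(1,0),(1,0),(12,0)]⟩,⟨0,[(1,0)]⟩⟩,⟨true,0,⟨0,[(49,0)]⟩,
  ⟨0,[(48,0)]⟩⟩,⟨false,2,⟨0,[(6,0)]⟩,⟨0,[(25,0)]⟩⟩,⟨false,1,⟨1,[(32,0),(0,0),(17,0)]⟩,⟨0,[]⟩⟩,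
  ⟨false,2,⟨0,[(4,0)]⟩,⟨0,[(26,0)]⟩⟩,[.o ⟨false,2,⟨3,[(6,1),(1,1),(23,0),(0,0),(9,0)]⟩,⟨0,[(0,0)]⟩⟩,
  .o ⟨false,2,⟨0,[(4,0)]⟩,⟨1,[(10,0),(9,0),(5,0)]⟩⟩,.a ⟨true,0,⟨0,[(19,0)]⟩,⟨1,[(39,0),(0,0)]⟩⟩
  ⟨true,0,⟨1,[(39,0),(0,0)]⟩,⟨1,[(10,0),(8,0),(27,0)]⟩⟩ ⟨false,2,⟨13,[(6,13),(14,3),(5,1),(9,1),(1,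
  0),(0,2)]⟩,⟨0,[(0,0),(18,0)]⟩⟩,.e ⟨false,1,⟨1,[(32,0),(0,0),(17,0)]⟩,⟨0,[]⟩⟩ ⟨false,2,⟨0,[(4,0)]⟩,
  ⟨0,[(26,0)]⟩⟩]⟩) (.R ⟨2,true,false,false,[0,1],[0,0,0,0,1],[1,1,1,1],(⟨0,[]⟩,⟨0,[]⟩),(⟨0,[(35,
  0)]⟩,⟨0,[(34,0)]⟩),⟨0,[]⟩,.k,.k,.k,(.r (-1) ⟨11,[(3,3),(2,4),(1,5),(6,0),(5,2),(5,0),(5,6),(6,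
  0)]⟩ ⟨0,[(10,0),(8,0)]⟩),.k,.k,⟨true,0,⟨13,[(21,3),(5,1),(9,1),(1,0),(0,2)]⟩,⟨0,[(49,0)]⟩⟩,⟨false,
  0,⟨0,[(33,0)]⟩,⟨1,[(0,1),(9,0),(8,0),(27,0)]⟩⟩,⟨false,0,⟨0,[]⟩,⟨1,[(32,0),(0,0),(17,0)]⟩⟩,⟨true,
  (-1),⟨0,[(1,0),(8,0)]⟩,⟨0,[(8,0)]⟩⟩,⟨true,0,⟨0,[(48,0)]⟩,⟨0,[(49,0)]⟩⟩,⟨false,0,⟨0,[(33,0)]⟩,⟨0,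
  [(0,0)]⟩⟩,[]⟩)) (.S ⟨1,2,[],[0,0,0,0,1],[1,2],(⟨0,[(34,0)]⟩,⟨0,[(33,0)]⟩),⟨0,[(4,0)]⟩,.k,(.r 0 ⟨0,
  [(9,0),(8,0)]⟩ ⟨11,[(2,3),(2,4),(1,5),(6,0),(5,2),(5,0),(5,6),(6,0)]⟩),⟨false,0,⟨0,[]⟩,⟨1,[(31,0),
  (0,0),(17,0)]⟩⟩,⟨true,1,⟨0,[(0,0)]⟩,⟨0,[(25,0)]⟩⟩,⟨true,0,⟨0,[(47,0)]⟩,⟨0,[(48,0)]⟩⟩,⟨false,2,⟨10,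
  [(3,4),(3,7),(12,0),(11,1),(9,2),(6,0)]⟩,⟨0,[(1,0)]⟩⟩,[.e ⟨false,0,⟨0,[(45,0)]⟩,⟨0,[(50,0)]⟩⟩
  ⟨false,1,⟨1,[(0,1),(8,0),(8,0),(27,0)]⟩,⟨1,[(2,0),(15,0),(13,0),(17,0)]⟩⟩,.fo,.o ⟨false,0,⟨0,[(32,
  0)]⟩,⟨0,[(0,0)]⟩⟩,.a ⟨true,(-1),⟨0,[(2,0)]⟩,⟨0,[(0,0),(17,0)]⟩⟩ ⟨false,0,⟨1,[(9,0),(8,0),(27,0)]⟩,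
  ⟨10,[(2,6),(2,6),(1,0),(12,1),(11,0),(17,2)]⟩⟩ ⟨true,1,⟨1,[(0,1),(8,0),(8,0),(27,0)]⟩,⟨0,[(2,
  0)]⟩⟩]⟩))) (.S ⟨1,0,[0,2,0,-1],[0,0,0,0,1],[1,1],(⟨0,[(32,0)]⟩,⟨0,[(31,0)]⟩),⟨0,[(2,0)]⟩,.k,(.r 0
  ⟨0,[(7,0),(8,0)]⟩ ⟨15,[(3,4),(1,1),(6,4),(5,2),(5,4),(5,6),(6,4),(10,3)]⟩),⟨true,0,⟨0,[]⟩,⟨0,[(50,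
  0)]⟩⟩,⟨false,0,⟨0,[(46,0)]⟩,⟨4,[(5,1),(12,0),(11,1),(16,0),(0,1)]⟩⟩,⟨false,1,⟨4,[(5,1),(12,0),(11,
  1),(16,0),(0,1)]⟩,⟨0,[(46,0)]⟩⟩,⟨true,0,⟨0,[(50,0)]⟩,⟨0,[]⟩⟩,[.o ⟨false,(-1),⟨0,[(7,0),(15,0)]⟩,
  ⟨5,[(0,1),(0,3),(16,1),(28,0),(0,0)]⟩⟩,.a ⟨true,(-1),⟨0,[(23,0),(22,0)]⟩,⟨2,[(0,0),(0,1),(2,0),(4,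
  0),(6,1),(20,0)]⟩⟩ ⟨true,0,⟨0,[]⟩,⟨1,[(36,0),(0,0)]⟩⟩ ⟨false,0,⟨0,[(7,0),(8,0)]⟩,⟨4,[(5,1),(12,0),
  (11,1),(16,0),(0,1)]⟩⟩,.o ⟨false,0,⟨0,[(30,0)]⟩,⟨10,[(0,5),(2,1),(3,0),(12,2),(8,2),(10,0)]⟩⟩,.o
  ⟨false,0,⟨1,[(30,1),(5,0),(0,0)]⟩,⟨0,[(0,0)]⟩⟩]⟩)) (.R ⟨2,true,false,false,[0,1],[1,0,0,0,-1],[1,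
  0,1,1],(⟨0,[]⟩,⟨0,[]⟩),(⟨0,[(30,0)]⟩,⟨0,[(31,0)]⟩),⟨0,[]⟩,.k,.k,.k,(.r 0 ⟨1,[(23,0),(0,0),(11,
  0)]⟩ ⟨1,[(45,1),(0,0),(0,0)]⟩),.k,.k,⟨false,0,⟨0,[(44,0)]⟩,⟨1,[(45,1),(0,0),(0,0)]⟩⟩,⟨true,1,⟨1,
  [(2,0),(1,0),(1,0),(12,0)]⟩,⟨0,[(0,0),(46,0)]⟩⟩,⟨true,0,⟨0,[]⟩,⟨0,[(49,0)]⟩⟩,⟨false,2,⟨0,[(2,0)]⟩,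
  ⟨0,[(21,0)]⟩⟩,⟨false,1,⟨4,[(4,1),(12,0),(11,1),(16,0),(0,1)]⟩,⟨0,[(45,0)]⟩⟩,⟨true,2,⟨3,[(2,1),(1,
  1),(23,0),(0,0),(9,0)]⟩,⟨0,[(0,0)]⟩⟩,[]⟩))) (.Q [0,-2,0,-2,2,0,0,0,-1,-1,0,1] (.p true [0,0,0,0,
  1] [1] (⟨0,[(29,0)]⟩,⟨0,[(28,0)]⟩) .k 1 (⟨0,[]⟩,⟨0,[]⟩) .k .k) (.R ⟨1,true,false,true,[1,-1],[0,0,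
  0,0,1],[1,1,-1,-1],(⟨0,[(39,0)]⟩,⟨0,[(40,0)]⟩),(⟨0,[(30,0)]⟩,⟨0,[(29,0)]⟩),⟨2,[(6,0),(5,0),(26,
  1)]⟩,.k,.k,(.r (-1) ⟨0,[(44,1),(0,0)]⟩ ⟨6,[(16,3),(5,1),(9,1),(1,0),(0,2)]⟩),(.r (-1) ⟨1,[(44,1),
  (0,0),(0,0)]⟩ ⟨1,[(22,0),(0,0),(11,0)]⟩),(.r (-2) ⟨0,[(0,0),(20,0),(23,0)]⟩ ⟨3,[(2,0),(13,0),(1,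
  1),(4,0),(11,0),(6,0)]⟩),.k,⟨true,1,⟨1,[(44,1),(0,0),(0,0)]⟩,⟨0,[(18,0)]⟩⟩,⟨false,0,⟨0,[(1,0),(42,
  0),(0,0),(0,0)]⟩,⟨6,[(0,2),(1,0),(0,3),(1,1),(12,1),(4,0),(11,0),(2,0)]⟩⟩,⟨false,0,⟨0,[]⟩,⟨1,[(27,
  0),(0,0),(17,0)]⟩⟩,⟨true,(-2),⟨0,[(1,0)]⟩,⟨3,[(0,1),(26,2),(0,0),(9,0)]⟩⟩,⟨true,0,⟨0,[(43,0)]⟩,⟨0,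
  [(44,0)]⟩⟩,⟨false,(-1),⟨0,[(4,0)]⟩,⟨0,[(0,0)]⟩⟩,[]⟩) (.Q [0,0,0,0,0,1,0,0,0,0,0,-1] (.ed true [1,
  -1,0,0,1] .k) (.Q [0,0,1,0,-1,0,0,0,1,0,0,-1] (.p false [0,0,0,0,1] [] (⟨0,[(31,0)]⟩,⟨0,[(30,
  0)]⟩) .k 0 (⟨0,[]⟩,⟨0,[]⟩) .k .k) (.R ⟨0,false,false,true,[0,0,0,0,1],[0,1],[],(⟨0,[(32,0)]⟩,⟨0,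
  [(31,0)]⟩),(⟨0,[(42,0)]⟩,⟨0,[(41,0)]⟩),⟨0,[(1,0)]⟩,.k,.k,(.r 0 ⟨0,[(7,0),(8,0)]⟩ ⟨5,[(18,1),(10,
  3),(0,3),(5,0),(0,0),(10,1)]⟩),(.r 0 ⟨0,[(7,0),(8,0)]⟩ ⟨5,[(18,1),(10,3),(0,3),(5,0),(0,0),(10,
  1)]⟩),.k,.k,⟨true,1,⟨1,[(46,1),(0,0),(0,0)]⟩,⟨0,[(20,0)]⟩⟩,⟨false,2,⟨0,[(29,0),(17,0)]⟩,⟨0,[(0,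
  0)]⟩⟩,⟨false,1,⟨0,[(48,0)]⟩,⟨0,[(50,0)]⟩⟩,⟨true,1,⟨0,[(5,0)]⟩,⟨2,[(0,1),(2,0),(3,0),(38,2),(0,
  0)]⟩⟩,⟨false,0,⟨0,[]⟩,⟨0,[]⟩⟩,⟨false,0,⟨0,[]⟩,⟨0,[]⟩⟩,[.o ⟨false,0,⟨0,[(45,0)]⟩,⟨1,[(40,0),(5,1),
  (1,0)]⟩⟩,.a ⟨true,0,⟨11,[(5,2),(10,7),(1,2),(4,2),(2,0),(10,1)]⟩,⟨0,[(46,0)]⟩⟩ ⟨false,1,⟨1,[(47,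
  0),(0,0)]⟩,⟨0,[(50,0)]⟩⟩ ⟨true,1,⟨0,[(5,0)]⟩,⟨0,[(0,0),(45,0)]⟩⟩,.e ⟨false,1,⟨1,[(29,0),(0,0),(17,
  0)]⟩,⟨0,[]⟩⟩ ⟨false,1,⟨0,[(5,0)]⟩,⟨1,[(0,1),(45,1),(0,0),(0,0)]⟩⟩,.o ⟨false,(-1),⟨0,[(0,0)]⟩,⟨1,
  [(29,1),(10,0),(6,0)]⟩⟩]⟩) (.Q [0,0,-1,1,1,0,0,0,-1,0,0,1] (.p true [0,0,0,0,1] [] (⟨0,[(32,0)]⟩,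
  ⟨0,[(31,0)]⟩) .k 0 (⟨0,[]⟩,⟨0,[]⟩) .k .k) (.R ⟨0,false,false,false,[0,0,0,0,1],[0,1],[0,1,1],(⟨0,
  [(33,0)]⟩,⟨0,[(32,0)]⟩),(⟨0,[(43,0)]⟩,⟨0,[(42,0)]⟩),⟨0,[(2,0)]⟩,.k,.k,(.r 0 ⟨0,[(8,0),(8,0)]⟩ ⟨5,
  [(19,1),(10,3),(0,3),(5,0),(0,0),(10,1)]⟩),(.r 0 ⟨0,[(8,0),(8,0)]⟩ ⟨5,[(19,1),(10,3),(0,3),(5,0),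
  (0,0),(10,1)]⟩),.k,.k,⟨false,0,⟨0,[(8,0),(8,0)]⟩,⟨4,[(6,1),(12,0),(11,1),(16,0),(0,1)]⟩⟩,⟨true,1,
  ⟨0,[(1,0)]⟩,⟨1,[(4,1),(16,1),(19,0),(5,3),(1,2)]⟩⟩,⟨true,0,⟨1,[(37,0),(0,0)]⟩,⟨2,[(1,0),(2,0),(3,
  0),(39,0)]⟩⟩,⟨false,2,⟨0,[(6,0),(42,0)]⟩,⟨1,[(4,1),(36,0),(5,3),(1,0)]⟩⟩,⟨false,0,⟨0,[]⟩,⟨0,[]⟩⟩,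
  ⟨false,0,⟨0,[]⟩,⟨0,[]⟩⟩,[.e ⟨false,0,⟨0,[(51,0)]⟩,⟨1,[(48,0),(0,0)]⟩⟩ ⟨false,1,⟨0,[(0,0)]⟩,⟨0,
  [(31,0),(15,0)]⟩⟩,.o ⟨false,1,⟨4,[(6,1),(12,0),(11,1),(16,0),(0,1)]⟩,⟨0,[(8,0)]⟩⟩,.a ⟨true,(-1),
  ⟨0,[(4,0),(42,0),(1,0)]⟩,⟨0,[(30,0)]⟩⟩ ⟨false,0,⟨1,[(37,0),(0,0)]⟩,⟨1,[(48,0),(0,0)]⟩⟩ ⟨true,1,⟨0,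
  [(6,0)]⟩,⟨1,[(4,1),(36,0),(5,3),(1,0)]⟩⟩,.e ⟨true,0,⟨0,[(51,0)]⟩,⟨0,[]⟩⟩ ⟨true,1,⟨0,[(0,0)]⟩,⟨3,
  [(4,1),(16,1),(9,1),(9,0),(5,7),(1,0)]⟩⟩]⟩) (.R ⟨0,false,false,true,[0,0,0,0,1],[1,0,0,0,-1],[0,1,
  0,-1],(⟨0,[(33,0)]⟩,⟨0,[(32,0)]⟩),(⟨0,[(32,0)]⟩,⟨0,[(33,0)]⟩),⟨0,[(2,0)]⟩,.k,.k,(.r 0 ⟨0,[(8,0),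
  (8,0)]⟩ ⟨5,[(19,1),(10,3),(0,3),(5,0),(0,0),(10,1)]⟩),.k,.k,.k,⟨false,0,⟨0,[(8,0),(8,0)]⟩,⟨4,[(6,
  1),(12,0),(11,1),(16,0),(0,1)]⟩⟩,⟨true,2,⟨1,[(1,3),(19,1),(19,0),(5,1),(1,0)]⟩,⟨0,[(0,0),(3,0),
  (44,0)]⟩⟩,⟨true,0,⟨0,[(47,0)]⟩,⟨0,[(46,0)]⟩⟩,⟨false,3,⟨1,[(1,3),(19,1),(19,0),(5,1),(1,2)]⟩,⟨1,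
  [(0,1),(3,1),(43,0),(0,0)]⟩⟩,⟨false,0,⟨0,[]⟩,⟨0,[]⟩⟩,⟨false,0,⟨0,[]⟩,⟨0,[]⟩⟩,[.a ⟨true,1,⟨0,[(30,
  0)]⟩,⟨1,[(0,0),(3,0),(12,0),(31,0)]⟩⟩ ⟨false,0,⟨0,[(8,0),(8,0)]⟩,⟨4,[(6,1),(12,0),(11,1),(16,0),
  (0,1)]⟩⟩ ⟨true,2,⟨1,[(1,3),(19,1),(19,0),(5,1),(1,0)]⟩,⟨0,[(0,0),(3,0),(44,0)]⟩⟩,.o ⟨false,2,⟨1,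
  [(30,1),(10,0),(7,0)]⟩,⟨3,[(0,1),(3,1),(36,0),(6,0)]⟩⟩,.a ⟨true,(-1),⟨1,[(0,0),(3,0),(12,0),(31,
  0)]⟩,⟨0,[(30,0)]⟩⟩ ⟨false,0,⟨0,[(47,0)]⟩,⟨4,[(6,1),(12,0),(11,1),(16,0),(0,1)]⟩⟩ ⟨true,2,⟨1,[(1,
  3),(19,1),(19,0),(5,1),(1,0)]⟩,⟨1,[(0,1),(3,1),(43,0),(0,0)]⟩⟩,.a ⟨true,(-1),⟨14,[(0,5),(4,2),(7,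
  2),(3,1),(6,8),(2,0),(10,4),(10,5)]⟩,⟨0,[(1,0)]⟩⟩ ⟨true,0,⟨0,[(8,0),(8,0)]⟩,⟨13,[(19,3),(5,1),(9,
  1),(1,0),(0,2)]⟩⟩ ⟨false,3,⟨1,[(1,1),(28,1),(10,0),(7,0)]⟩,⟨0,[(0,0),(3,0),(44,0)]⟩⟩]⟩))) (.Q [0,
  0,1,0,-1,0,0,0,1,0,0,-1] (.p false [0,0,0,0,1] [] (⟨0,[(31,0)]⟩,⟨0,[(30,0)]⟩) .k 0 (⟨0,[]⟩,⟨0,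
  []⟩) .k .k) (.S ⟨1,0,[0,1,0,-1],[0,0,0,0,1],[1,2],(⟨0,[(32,0)]⟩,⟨0,[(31,0)]⟩),⟨0,[(1,0)]⟩,.k,(.r
  0 ⟨0,[(7,0),(8,0)]⟩ ⟨5,[(18,1),(10,3),(0,3),(5,0),(0,0),(10,1)]⟩),⟨false,0,⟨0,[]⟩,⟨1,[(29,0),(0,
  0),(17,0)]⟩⟩,⟨true,0,⟨0,[(46,0)]⟩,⟨0,[(45,0)]⟩⟩,⟨true,0,⟨0,[(45,0)]⟩,⟨0,[(46,0)]⟩⟩,⟨false,1,⟨1,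
  [(29,0),(0,0),(17,0)]⟩,⟨0,[]⟩⟩,[.o ⟨false,(-1),⟨2,[(0,1),(2,0),(3,0),(38,2),(0,0)]⟩,⟨1,[(5,1),(34,
  0),(7,0)]⟩⟩,.a ⟨true,(-1),⟨0,[(0,0),(15,0),(29,0)]⟩,⟨0,[(5,0)]⟩⟩ ⟨false,0,⟨1,[(7,0),(8,0),(27,
  0)]⟩,⟨1,[(29,0),(0,0),(17,0)]⟩⟩ ⟨true,0,⟨0,[(46,0)]⟩,⟨13,[(18,3),(5,1),(9,1),(1,0),(0,2)]⟩⟩,.e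
  ⟨false,0,⟨0,[(50,0)]⟩,⟨0,[(48,0)]⟩⟩ ⟨false,0,⟨0,[(46,0)]⟩,⟨4,[(5,1),(12,0),(11,1),(16,0),(0,1)]⟩⟩,
  .o ⟨false,(-1),⟨0,[(0,0)]⟩,⟨1,[(29,1),(10,0),(6,0)]⟩⟩]⟩) (.R ⟨1,false,false,false,[0,0,0,0,1],[1,
  -1],[1,1],(⟨0,[(32,0)]⟩,⟨0,[(31,0)]⟩),(⟨0,[(41,0)]⟩,⟨0,[(42,0)]⟩),⟨0,[(1,0)]⟩,.k,.k,(.r 0 ⟨0,[(7,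
  0),(8,0)]⟩ ⟨5,[(18,1),(10,3),(0,3),(5,0),(0,0),(10,1)]⟩),(.r 0 ⟨1,[(24,0),(0,0),(11,0)]⟩ ⟨1,[(46,
  1),(0,0),(0,0)]⟩),.k,.k,⟨false,0,⟨0,[(45,0)]⟩,⟨1,[(46,1),(0,0),(0,0)]⟩⟩,⟨true,1,⟨1,[(0,1),(19,1),
  (19,0),(5,1),(1,0)]⟩,⟨0,[(3,0),(42,0),(1,0)]⟩⟩,⟨true,0,⟨0,[]⟩,⟨0,[(50,0)]⟩⟩,⟨true,2,⟨1,[(29,1),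
  (10,0),(5,1),(1,0)]⟩,⟨0,[(3,0)]⟩⟩,⟨false,1,⟨4,[(5,1),(12,0),(11,1),(16,0),(0,1)]⟩,⟨0,[(46,0)]⟩⟩,
  ⟨true,2,⟨1,[(29,1),(10,0),(7,0)]⟩,⟨0,[(3,0),(42,0)]⟩⟩,[.e ⟨false,0,⟨2,[(0,0),(2,0),(3,0),(39,0)]⟩,
  ⟨1,[(29,0),(0,0),(17,0)]⟩⟩ ⟨false,2,⟨1,[(29,1),(10,0),(5,1),(0,0)]⟩,⟨0,[(3,0),(44,0)]⟩⟩,.o ⟨false,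
  1,⟨1,[(40,0),(5,1),(1,0)]⟩,⟨0,[(45,0)]⟩⟩,.e ⟨false,0,⟨0,[]⟩,⟨1,[(29,0),(0,0),(17,0)]⟩⟩ ⟨false,2,
  ⟨1,[(29,1),(10,0),(5,1),(1,0)]⟩,⟨0,[(3,0),(44,0)]⟩⟩,.a ⟨true,(-1),⟨1,[(3,0),(16,0),(2,0),(22,1),
  (1,1)]⟩,⟨0,[(0,0)]⟩⟩ ⟨true,0,⟨2,[(0,0),(2,0),(3,0),(39,0)]⟩,⟨1,[(36,0),(0,0)]⟩⟩ ⟨false,2,⟨1,[(0,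
  1),(39,0),(5,1),(1,0)]⟩,⟨1,[(3,0),(16,0),(2,0),(24,1)]⟩⟩]⟩)))))) (.R ⟨2,true,false,false,[0,1],[0,
  0,0,0,1],[1,0,1,1],(⟨0,[]⟩,⟨0,[]⟩),(⟨0,[(27,0)]⟩,⟨0,[(26,0)]⟩),⟨0,[]⟩,.k,.k,.k,(.r (-1) ⟨5,[(13,
  1),(10,3),(0,3),(5,0),(0,0),(10,1)]⟩ ⟨0,[(2,0),(8,0)]⟩),.k,.k,⟨false,1,⟨2,[(13,0),(10,0),(0,0),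
  (16,0),(0,0)]⟩,⟨0,[(2,0),(8,0)]⟩⟩,⟨true,(-1),⟨7,[(0,5),(12,0),(1,2),(9,1),(17,0)]⟩,⟨0,[(24,0)]⟩⟩,
  ⟨true,0,⟨0,[]⟩,⟨0,[(45,0)]⟩⟩,⟨false,(-1),⟨0,[(0,0)]⟩,⟨2,[(13,0),(10,3),(0,0),(16,0),(0,0)]⟩⟩,
  ⟨false,1,⟨2,[(13,0),(10,0),(0,0),(16,0),(0,0)]⟩,⟨0,[(41,0)]⟩⟩,⟨true,(-1),⟨1,[(0,0),(11,0)]⟩,⟨0,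
  [(24,0)]⟩⟩,[]⟩))) (.R ⟨1,false,false,true,[1,0,-1],[1,-1],[1,1,0,0,0,0,0,-1],(⟨0,[(31,0)]⟩,⟨0,
  [(32,0)]⟩),(⟨0,[(34,0)]⟩,⟨0,[(35,0)]⟩),⟨0,[(20,0)]⟩,.k,.k,.k,.k,.k,.k,⟨true,(-1),⟨0,[(4,0)]⟩,⟨1,
  [(27,1),(2,1),(8,1),(0,0),(0,0)]⟩⟩,⟨false,0,⟨0,[(14,0)]⟩,⟨0,[(30,0),(9,0)]⟩⟩,⟨false,0,⟨0,[]⟩,⟨1,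
  [(22,0),(0,0),(17,0)]⟩⟩,⟨true,0,⟨0,[(27,0),(11,0)]⟩,⟨0,[(3,0),(26,0),(9,0)]⟩⟩,⟨true,0,⟨0,[(38,
  0)]⟩,⟨0,[(39,0)]⟩⟩,⟨true,0,⟨0,[(27,0)]⟩,⟨3,[(3,0),(2,1),(4,0),(16,0),(1,2),(9,0)]⟩⟩,[.a ⟨true,0,
  ⟨0,[(39,0),(3,0)]⟩,⟨0,[(0,0)]⟩⟩ ⟨true,(-1),⟨2,[(3,0),(2,1),(6,1),(23,0)]⟩,⟨0,[(27,0),(2,0),(10,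
  0)]⟩⟩ ⟨false,0,⟨2,[(6,0),(5,0),(14,0),(1,0),(6,0)]⟩,⟨0,[(30,0),(6,0),(3,0)]⟩⟩,.e ⟨false,0,⟨8,[(3,
  3),(2,3),(4,0),(5,0),(22,3)]⟩,⟨1,[(27,1),(2,1),(9,0),(0,0)]⟩⟩ ⟨false,0,⟨0,[(12,0)]⟩,⟨3,[(11,0),
  (10,0),(0,0),(6,3),(7,0),(1,2)]⟩⟩,.o ⟨false,1,⟨1,[(30,1),(2,0),(6,0)]⟩,⟨0,[(14,0)]⟩⟩,.e ⟨false,0,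
  ⟨8,[(3,3),(2,3),(4,0),(5,0),(22,3)]⟩,⟨0,[(27,0),(2,0),(10,0)]⟩⟩ ⟨false,0,⟨0,[(12,0)]⟩,⟨2,[(11,0),
  (10,0),(0,0),(6,2),(9,0),(0,0)]⟩⟩]⟩)) (.Q [0,0,2,0,-1,0,1,0,0,0,-1] (.p false [0,0,1] [] (⟨0,[(31,
  0)]⟩,⟨0,[(30,0)]⟩) .k 0 (⟨0,[]⟩,⟨0,[]⟩) .k .k) (.R ⟨0,false,false,false,[0,-1,1],[1,-1,-1],[0,1],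
  (⟨0,[(21,0)]⟩,⟨5,[(1,2),(7,1),(9,0),(10,1),(0,2)]⟩),(⟨0,[(20,0)]⟩,⟨1,[(1,0),(30,2)]⟩),⟨0,[(1,0)]⟩,
  .k,.k,(.r (-2) ⟨1,[(27,1),(2,1),(8,3),(0,2),(0,0)]⟩ ⟨8,[(3,6),(4,0),(2,2),(1,1),(3,0)]⟩),.k,.k,.k,
  ⟨true,0,⟨0,[(18,0),(11,0)]⟩,⟨3,[(0,0),(2,0),(2,1),(1,0),(21,0),(10,1)]⟩⟩,⟨false,2,⟨1,[(30,3),(2,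
  0),(6,2)]⟩,⟨2,[(0,1),(1,0),(0,0),(5,1),(2,2)]⟩⟩,⟨false,(-1),⟨0,[(3,0)]⟩,⟨0,[(27,0),(2,0),(8,0),(0,
  0),(0,0)]⟩⟩,⟨true,0,⟨1,[(3,1),(2,1),(23,3),(2,0),(3,1),(3,0)]⟩,⟨0,[(5,0),(21,0),(11,0)]⟩⟩,⟨false,
  0,⟨0,[]⟩,⟨0,[]⟩⟩,⟨false,0,⟨0,[]⟩,⟨0,[]⟩⟩,[.a ⟨true,0,⟨8,[(3,0),(2,3),(1,1),(19,1),(1,6),(10,0)]⟩,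
  ⟨0,[(5,0)]⟩⟩ ⟨false,0,⟨2,[(6,0),(20,0),(2,0),(6,1)]⟩,⟨1,[(22,0),(0,0),(17,0)]⟩⟩ ⟨true,1,⟨1,[(6,1),
  (23,3),(2,0),(3,1),(3,0)]⟩,⟨0,[(0,0),(4,0)]⟩⟩,.o ⟨false,1,⟨17,[(3,1),(2,7),(1,3),(19,3),(1,13),(2,
  8),(7,10)]⟩,⟨0,[(18,0)]⟩⟩,.e ⟨true,0,⟨0,[(43,0)]⟩,⟨0,[]⟩⟩ ⟨true,1,⟨1,[(6,1),(23,3),(2,0),(3,1),(3,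
  0)]⟩,⟨0,[(0,0),(8,0),(8,0)]⟩⟩,.o ⟨false,(-1),⟨0,[(0,0)]⟩,⟨1,[(30,1),(2,0),(6,2)]⟩⟩]⟩) (.Q [0,0,-2,
  0,1,0,-2,-1,0,-1,2] (.p true [0,0,1] [1,0,-1] (⟨0,[(32,0)]⟩,⟨0,[(31,0)]⟩) .k 2 (⟨0,[(31,0)]⟩,⟨0,
  [(32,0)]⟩) .k (.r (-2) ⟨2,[(0,1),(21,0),(0,0),(3,5),(2,3),(10,2)]⟩ ⟨8,[(3,9),(2,5),(10,1),(23,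
  0)]⟩)) (.R ⟨0,false,false,false,[0,-1,1],[1,0,-1],[1,0,0,0,0,0,0,-1],(⟨0,[(22,0)]⟩,⟨5,[(2,2),(7,
  1),(9,0),(10,1),(0,2)]⟩),(⟨0,[(32,0)]⟩,⟨0,[(33,0)]⟩),⟨0,[(2,0)]⟩,.k,.k,(.r (-2) ⟨1,[(1,1),(21,0),
  (0,0),(3,1),(11,3),(1,0)]⟩ ⟨8,[(4,6),(4,0),(2,2),(1,1),(3,0)]⟩),(.r (-2) ⟨0,[(1,0),(26,1),(2,0),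
  (8,0),(1,0)]⟩ ⟨14,[(0,2),(3,18),(4,5),(8,1),(1,2),(21,0)]⟩),.k,.k,⟨true,0,⟨0,[]⟩,⟨1,[(30,0),(0,
  0)]⟩⟩,⟨false,2,⟨5,[(1,7),(21,0),(0,0),(6,3),(2,2)]⟩,⟨3,[(4,2),(1,2),(6,2),(0,1),(5,0),(19,4),(1,
  0)]⟩⟩,⟨false,(-1),⟨13,[(0,0),(3,21),(2,2),(1,1),(10,0),(21,6)]⟩,⟨0,[(1,0),(26,1),(2,0),(8,0),(1,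
  0)]⟩⟩,⟨true,0,⟨7,[(0,5),(3,6),(4,1),(2,0),(16,0),(1,2),(2,0)]⟩,⟨0,[(6,0),(21,0),(11,1)]⟩⟩,⟨false,
  0,⟨0,[]⟩,⟨0,[]⟩⟩,⟨false,0,⟨0,[]⟩,⟨0,[]⟩⟩,[.e ⟨false,0,⟨3,[(0,0),(3,1),(2,0),(12,0),(20,0)]⟩,⟨5,
  [(1,1),(21,0),(0,0),(3,5),(2,3),(10,2)]⟩⟩ ⟨false,1,⟨0,[(0,0)]⟩,⟨0,[(6,0),(23,0),(9,0)]⟩⟩,.o
  ⟨false,1,⟨39,[(0,13),(3,3),(4,21),(2,5),(18,11),(2,12),(7,16)]⟩,⟨0,[(28,0)]⟩⟩,.a ⟨true,(-1),⟨0,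
  [(4,0),(1,0),(33,1)]⟩,⟨2,[(1,1),(21,0),(0,0),(6,0)]⟩⟩ ⟨false,0,⟨13,[(0,0),(3,7),(2,2),(1,1),(10,
  0),(21,6)]⟩,⟨5,[(1,1),(21,0),(0,0),(3,5),(2,3),(10,2)]⟩⟩ ⟨true,1,⟨5,[(0,3),(28,1),(1,1),(2,0),(7,
  0)]⟩,⟨0,[(6,0),(6,0),(0,0),(25,0)]⟩⟩,.e ⟨true,0,⟨3,[(0,0),(3,1),(2,0),(12,0),(20,0)]⟩,⟨0,[(28,0),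
  (2,0)]⟩⟩ ⟨true,1,⟨0,[(0,0)]⟩,⟨1,[(6,1),(6,0),(0,1),(15,0),(9,2)]⟩⟩]⟩) (.R ⟨0,false,false,false,[0,
  -1,1],[1,0,-1],[1,0,0,0,0,0,0,-1],(⟨0,[(22,0)]⟩,⟨5,[(2,2),(7,1),(9,0),(10,1),(0,2)]⟩),(⟨0,[(32,
  0)]⟩,⟨0,[(33,0)]⟩),⟨0,[(2,0)]⟩,.k,.k,(.r (-2) ⟨1,[(1,1),(21,0),(0,0),(3,1),(11,3),(1,0)]⟩ ⟨8,[(4,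
  6),(4,0),(2,2),(1,1),(3,0)]⟩),(.r (-2) ⟨0,[(1,0),(26,1),(2,0),(8,0),(1,0)]⟩ ⟨8,[(4,10),(2,2),(10,
  3),(23,1)]⟩),.k,.k,⟨true,0,⟨0,[]⟩,⟨1,[(30,0),(0,0)]⟩⟩,⟨false,2,⟨5,[(1,7),(21,0),(0,0),(6,3),(2,
  2)]⟩,⟨6,[(0,3),(3,2),(2,0),(5,0),(6,1),(6,0)]⟩⟩,⟨false,(-1),⟨8,[(4,13),(2,2),(10,0),(23,4)]⟩,⟨0,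
  [(1,0),(26,1),(2,0),(8,0),(1,0)]⟩⟩,⟨true,0,⟨29,[(1,27),(2,45),(2,7),(21,5),(1,25),(2,14),(7,2)]⟩,
  ⟨0,[(0,0),(0,0),(26,0),(11,0)]⟩⟩,⟨false,0,⟨0,[]⟩,⟨0,[]⟩⟩,⟨false,0,⟨0,[]⟩,⟨0,[]⟩⟩,[.a ⟨true,0,⟨4,
  [(1,0),(2,1),(2,0),(21,1),(1,1),(10,0)]⟩,⟨0,[(0,0),(0,0)]⟩⟩ ⟨false,0,⟨8,[(4,3),(2,3),(4,0),(5,0),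
  (22,3)]⟩,⟨5,[(1,1),(21,0),(0,0),(3,5),(2,3),(10,2)]⟩⟩ ⟨true,1,⟨29,[(1,27),(2,15),(2,7),(21,5),(1,
  25),(2,14),(7,2)]⟩,⟨0,[(0,0)]⟩⟩,.o ⟨false,1,⟨9,[(1,1),(2,3),(2,1),(21,3),(1,3),(2,4),(7,6)]⟩,⟨0,
  [(28,0)]⟩⟩,.a ⟨true,(-1),⟨4,[(0,2),(3,1),(2,0),(2,1),(20,0)]⟩,⟨2,[(1,1),(21,0),(0,0),(6,0)]⟩⟩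
  ⟨false,0,⟨8,[(4,4),(2,2),(10,0),(23,4)]⟩,⟨5,[(1,1),(21,0),(0,0),(3,5),(2,3),(10,2)]⟩⟩ ⟨true,1,⟨29,
  [(1,27),(2,15),(2,7),(21,5),(1,25),(2,14),(7,2)]⟩,⟨3,[(0,2),(6,0),(2,0),(3,0),(13,1),(9,0)]⟩⟩,.a
  ⟨true,(-1),⟨18,[(0,13),(3,4),(4,7),(0,4),(1,0),(16,0),(1,7)]⟩,⟨0,[(1,0)]⟩⟩ ⟨true,0,⟨8,[(4,3),(2,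
  3),(4,0),(5,0),(22,3)]⟩,⟨0,[(28,0),(2,0)]⟩⟩ ⟨false,2,⟨9,[(1,11),(2,3),(2,1),(21,3),(1,3),(2,4),(7,
  6)]⟩,⟨0,[(0,0)]⟩⟩]⟩))))) (.N [0,-1,1] (-1) ⟨0,[(0,0)]⟩ ⟨0,[(1,0)]⟩ .k))

theorem ok89 : chk K t89 r53 = true := by decide +kernel


end Helper25.S1T.Ymm_1c
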