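import Pool.Agent.Helper25.S1T.Ymm_1c_q

set_option autoImplicit false
set_option linter.all false

namespace Helper25.S1T.Ymm_1c

open Helper25.KG Helper25.KW Helper55.KE Helper11.CT

noncomputable def t91 : Tre :=
  (.S ⟨1,0,[0,0,0,-1,0,0,0,-1],[1,0,-1],[1,1,0,0,0,0,0,-1],(⟨0,[(26,0)]⟩,⟨0,[(27,0)]⟩),⟨0,[(15,0)]⟩,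
  .k,.k,⟨false,0,⟨0,[]⟩,⟨1,[(17,0),(0,0),(17,0)]⟩⟩,⟨true,0,⟨0,[(34,0)]⟩,⟨0,[(33,0)]⟩⟩,⟨true,0,⟨0,
  [(33,0)]⟩,⟨0,[(34,0)]⟩⟩,⟨false,1,⟨1,[(17,0),(0,0),(17,0)]⟩,⟨0,[]⟩⟩,[.o ⟨false,0,⟨0,[(0,0)]⟩,⟨1,
  [(13,1),(3,0),(0,0),(17,0)]⟩⟩,.o ⟨false,1,⟨3,[(0,1),(22,1),(4,0),(5,1),(1,2)]⟩,⟨0,[(13,0)]⟩⟩,.o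
  ⟨false,1,⟨1,[(25,1),(2,0),(6,0)]⟩,⟨0,[(9,0)]⟩⟩,.a ⟨true,0,⟨0,[(25,0)]⟩,⟨0,[(21,0)]⟩⟩ ⟨false,0,⟨6,
  [(1,5),(4,2),(5,0),(19,1)]⟩,⟨0,[(22,0),(2,0),(10,0)]⟩⟩ ⟨true,0,⟨6,[(1,4),(1,0),(2,0),(5,0)]⟩,⟨0,
  [(13,0),(11,0)]⟩⟩]⟩)

theorem ok91 : chk K t91 r52 = true := by decide +kernel

noncomputable def t101 : Tre :=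
  (.I [0,0,2,2,0,0,0,-1] (.Q [0,0,2,0,-1,0,1,0,0,1,-1] (.p false [0,0,1] [1] (⟨0,[(19,0)]⟩,⟨0,[(18,
  0)]⟩) .k 1 (⟨0,[]⟩,⟨0,[]⟩) .k .k) (.I [0,0,-1,-1,0,0,0,2] (.Q [0,1,0,-1,-1,0,1,1,0,1,-1] (.p
  false [0,0,1] [1] (⟨0,[(21,0)]⟩,⟨0,[(20,0)]⟩) .k 1 (⟨0,[]⟩,⟨0,[]⟩) .k .k) (.K ⟨0,[1,1,-1],1,1,(⟨0,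
  [(21,0),(3,0)]⟩,⟨0,[(11,0)]⟩),.k,.k,(.r 0 ⟨0,[(3,0)]⟩ ⟨3,[(1,1),(10,0),(0,0),(15,5),(0,2)]⟩),(.r
  (-1) ⟨3,[(2,1),(0,1),(12,3),(1,5),(4,2),(7,2)]⟩ ⟨0,[(1,0)]⟩),.k,[⟨1,[(4,3),(18,0),(6,0)]⟩,⟨0,[(2,
  0)]⟩,⟨0,[(0,0)]⟩,⟨5,[(3,1),(14,3),(1,1),(2,2),(4,1),(1,2)]⟩]⟩) (.K ⟨0,[0,-1,1],0,0,(⟨0,[(11,0)]⟩,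
  ⟨0,[(21,0),(3,0)]⟩),.k,(.r (-1) ⟨3,[(1,1),(10,0),(0,0),(15,5),(0,2)]⟩ ⟨0,[(3,0)]⟩),.k,.k,.k,[⟨1,
  [(19,0),(0,0)]⟩,⟨0,[(4,0)]⟩,⟨2,[(0,0),(1,0),(1,0),(13,1),(8,1)]⟩,⟨0,[(17,0),(11,0)]⟩]⟩)) (.I [0,0,
  -2,-2,1,0,0,1] (.K ⟨0,[0,-1,1],0,0,(⟨0,[(11,0)]⟩,⟨0,[(21,0),(3,0)]⟩),.k,(.r (-1) ⟨0,[(0,0)]⟩ ⟨0,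
  [(3,0)]⟩),.k,.k,.k,[⟨1,[(19,0),(0,0)]⟩,⟨0,[(4,0)]⟩,⟨5,[(1,0),(1,0),(0,2),(13,2),(8,2)]⟩,⟨0,[(17,
  0),(11,0)]⟩]⟩) (.I [0,0,-2,0,1,2,-1] (.K ⟨0,[0,-1,1],0,0,(⟨0,[(12,0)]⟩,⟨1,[(0,0),(2,0),(18,0)]⟩),
  .k,(.x 0 ⟨0,[(3,0),(8,0),(11,0),(0,0)]⟩ ⟨0,[(0,0)]⟩),.k,.k,.k,[⟨1,[(20,0),(0,0)]⟩,⟨0,[(5,0)]⟩,⟨5,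
  [(2,0),(1,0),(0,2),(13,2),(8,2)]⟩,⟨0,[(18,0),(11,0)]⟩]⟩) (.I [0,0,2,0,-1,-2,1] (.K ⟨0,[0,-1,1],0,
  0,(⟨0,[(13,0)]⟩,⟨0,[(23,0),(3,0)]⟩),.k,(.x 1 ⟨0,[(0,0)]⟩ ⟨1,[(22,1),(0,1),(1,0),(1,3),(4,2)]⟩),.k,
  .k,.k,[⟨1,[(21,0),(0,0)]⟩,⟨0,[(6,0)]⟩,⟨5,[(3,0),(1,0),(0,2),(13,2),(8,2)]⟩,⟨0,[(19,0),(11,0)]⟩]⟩)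
  (.I [0,0,1,0,0,0,0,1] (.S ⟨1,0,[0,1,1,0,0,0,0,1],[0,1,1],[0,0,1,0,0,0,0,1],(⟨0,[(25,0),(2,0)]⟩,⟨0,
  [(13,0)]⟩),⟨0,[(25,0)]⟩,.k,.k,⟨true,0,⟨0,[(32,0)]⟩,⟨0,[(31,0)]⟩⟩,⟨false,0,⟨0,[(32,0)]⟩,⟨0,[(31,0),
  (2,0)]⟩⟩,⟨false,1,⟨1,[(15,0),(0,0),(17,0)]⟩,⟨0,[]⟩⟩,⟨true,0,⟨0,[(36,0)]⟩,⟨0,[]⟩⟩,[.o ⟨false,0,⟨0,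
  [(20,0)]⟩,⟨1,[(3,1),(3,1),(18,0),(5,3),(0,1),(0,0)]⟩⟩,.a ⟨true,0,⟨0,[(0,0),(18,0)]⟩,⟨0,[(3,0),(3,
  0),(24,1),(0,0)]⟩⟩ ⟨false,1,⟨1,[(0,1),(32,0),(0,0)]⟩,⟨0,[(3,0),(26,0),(1,2),(0,0)]⟩⟩ ⟨true,0,⟨0,
  [(0,0)]⟩,⟨0,[(3,0),(28,1),(0,0)]⟩⟩,.a ⟨true,0,⟨0,[(19,0)]⟩,⟨0,[(23,0)]⟩⟩ ⟨true,0,⟨0,[(0,0)]⟩,⟨0,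
  [(3,0),(26,0),(1,2),(0,0)]⟩⟩ ⟨false,0,⟨0,[(0,0)]⟩,⟨1,[(3,1),(28,3),(0,2),(0,0)]⟩⟩,.a ⟨true,0,⟨5,
  [(1,0),(3,0),(6,2),(12,0),(1,1)]⟩,⟨0,[(7,0)]⟩⟩ ⟨false,1,⟨1,[(0,1),(32,0),(0,0)]⟩,⟨0,[(3,0),(28,1),
  (0,0)]⟩⟩ ⟨true,0,⟨0,[(7,0),(12,0)]⟩,⟨0,[(3,0),(28,1),(0,0)]⟩⟩]⟩) (.I [0,0,2,2,-1,0,0,-1] (.K ⟨0,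
  [0,-1,1],0,0,(⟨0,[(15,0)]⟩,⟨1,[(2,0),(3,0),(18,0)]⟩),.k,(.r (-2) ⟨1,[(21,1),(2,1),(8,3),(0,2),(0,
  0)]⟩ ⟨0,[(0,0)]⟩),.k,.k,.k,[⟨1,[(23,0),(0,0)]⟩,⟨0,[(8,0)]⟩,⟨5,[(0,0),(6,0),(0,1),(13,3),(8,1),(2,
  0)]⟩,⟨0,[(21,0),(11,0)]⟩]⟩) (.Q [0,0,0,0,0,-2,0,0,0,1,-1] (.p false [0,0,1] [1] (⟨0,[(26,0)]⟩,⟨0,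
  [(25,0)]⟩) .k 1 (⟨0,[]⟩,⟨0,[]⟩) .k .k) (.Q [0,1,0,-2,-1,0,-1,-1,0,0,1] (.p true [0,0,1] [] (⟨0,
  [(27,0)]⟩,⟨0,[(26,0)]⟩) .k 0 (⟨0,[]⟩,⟨0,[]⟩) .k .k) (.S ⟨1,1,[],[1,-1,-1],[1,0,-1,-1,0,0,0,-1],
  (⟨0,[(16,0)]⟩,⟨0,[(28,0),(2,0)]⟩),⟨0,[(1,0)]⟩,.k,(.r (-1) ⟨30,[(0,7),(1,32),(0,15),(3,19),(7,3),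
  (13,1),(7,3)]⟩ ⟨2,[(6,0),(1,1),(1,5),(3,3),(14,0),(7,1)]⟩),⟨true,0,⟨0,[]⟩,⟨0,[(39,0)]⟩⟩,⟨false,1,
  ⟨0,[(14,0),(22,0)]⟩,⟨1,[(0,0),(23,0),(12,0)]⟩⟩,⟨false,1,⟨0,[(34,0),(2,0)]⟩,⟨0,[(35,0)]⟩⟩,⟨true,1,
  ⟨0,[(14,0),(19,0),(2,0)]⟩,⟨0,[(0,0)]⟩⟩,[.fo,.o ⟨false,1,⟨1,[(29,0),(7,0)]⟩,⟨0,[(39,0)]⟩⟩,.a ⟨true,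
  0,⟨0,[(26,0)]⟩,⟨0,[(22,0)]⟩⟩ ⟨true,0,⟨3,[(0,1),(2,1),(18,1),(6,0),(7,0)]⟩,⟨0,[(14,0),(11,0)]⟩⟩
  ⟨false,1,⟨1,[(22,1),(6,0),(7,0)]⟩,⟨0,[(26,0)]⟩⟩,.o ⟨false,0,⟨0,[(8,0),(1,1),(18,0)]⟩,⟨1,[(22,1),
  (6,0),(6,0)]⟩⟩]⟩) (.Q [0,0,0,2,0,0,1,1,0,1,-1] (.p false [0,0,1] [1] (⟨0,[(28,0)]⟩,⟨0,[(27,0)]⟩)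
  .k 1 (⟨0,[]⟩,⟨0,[]⟩) .k .k) (.Q [0,-1,0,-2,0,0,-1,-1,0,0,1] (.p true [0,0,1] [] (⟨0,[(29,0)]⟩,⟨0,
  [(28,0)]⟩) .k 0 (⟨0,[]⟩,⟨0,[]⟩) .k .k) (.S ⟨1,0,[0,0,-1,-2,0,0,0,-1],[1,-1,-1],[1,1,-1,-1,0,0,0,
  -1],(⟨0,[(18,0)]⟩,⟨0,[(30,0),(2,0)]⟩),⟨0,[(3,0)]⟩,.k,(.r (-1) ⟨22,[(0,7),(3,20),(0,11),(3,11),(7,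
  3),(13,1),(2,3)]⟩ ⟨6,[(2,3),(5,0),(1,5),(1,13),(3,3),(14,2)]⟩),⟨false,0,⟨0,[]⟩,⟨1,[(4,0),(6,0),
  (27,0)]⟩⟩,⟨true,0,⟨0,[(37,0)]⟩,⟨0,[(36,0)]⟩⟩,⟨true,0,⟨0,[(36,0)]⟩,⟨0,[(37,0)]⟩⟩,⟨false,1,⟨1,[(4,
  0),(6,0),(27,0)]⟩,⟨0,[]⟩⟩,[.a ⟨true,0,⟨0,[(0,0),(40,0)]⟩,⟨0,[(1,0)]⟩⟩ ⟨false,0,⟨0,[(5,0),(29,0),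
  (1,1)]⟩,⟨7,[(2,5),(1,1),(5,1),(17,7),(2,0),(7,0)]⟩⟩ ⟨true,0,⟨0,[(5,0),(31,1)]⟩,⟨6,[(2,3),(5,0),(1,
  5),(1,13),(3,3),(14,2)]⟩⟩,.a ⟨true,0,⟨0,[(0,0)]⟩,⟨13,[(1,12),(12,0),(0,1),(4,0),(4,2),(2,1),(5,
  3)]⟩⟩ ⟨true,0,⟨0,[(5,0),(31,0)]⟩,⟨1,[(2,0),(7,1),(1,3),(12,0),(5,0)]⟩⟩ ⟨false,1,⟨61,[(0,27),(3,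
  37),(0,55),(3,7),(7,13),(13,6),(7,16)]⟩,⟨4,[(2,0),(5,0),(3,2),(3,4),(11,2),(7,0)]⟩⟩,.a ⟨true,0,⟨0,
  [(28,0)]⟩,⟨0,[(24,0)]⟩⟩ ⟨false,0,⟨0,[(5,0),(31,0)]⟩,⟨7,[(2,5),(1,1),(5,1),(17,7),(2,0),(7,0)]⟩⟩
  ⟨true,0,⟨0,[(5,0),(31,1)]⟩,⟨4,[(2,0),(5,0),(3,2),(3,4),(11,2),(7,0)]⟩⟩,.o ⟨false,0,⟨0,[(10,0),(1,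
  1),(18,0)]⟩,⟨1,[(24,1),(6,0),(6,0)]⟩⟩]⟩) (.Q [0,-1,0,2,0,0,0,0,0,1] (.pp false [-1,1]) (.S ⟨1,0,
  [0,1,-1,-2],[1,-1],[1,0,-1,-1],(⟨0,[(33,0)]⟩,⟨0,[(34,0)]⟩),⟨1,[(4,0),(15,0),(12,0)]⟩,.k,(.r (-1)
  ⟨2,[(5,2),(0,0),(3,0),(27,0)]⟩ ⟨11,[(1,2),(1,2),(5,1),(1,1),(0,3),(16,7),(2,0)]⟩),⟨true,0,⟨0,[]⟩,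
  ⟨0,[(42,0)]⟩⟩,⟨false,0,⟨0,[(38,0)]⟩,⟨1,[(3,0),(23,0),(12,0)]⟩⟩,⟨false,1,⟨1,[(3,0),(23,0),(12,0)]⟩,
  ⟨0,[(38,0)]⟩⟩,⟨true,0,⟨0,[(42,0)]⟩,⟨0,[]⟩⟩,[.a ⟨true,0,⟨0,[(38,1),(3,0)]⟩,⟨0,[(0,0)]⟩⟩ ⟨false,1,
  ⟨4,[(5,2),(0,0),(3,0),(28,1)]⟩,⟨23,[(1,2),(1,2),(5,1),(1,1),(0,3),(16,7),(2,0)]⟩⟩ ⟨true,0,⟨0,[(36,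
  0),(1,2)]⟩,⟨3,[(3,1),(5,1),(1,1),(1,3),(18,0),(7,0)]⟩⟩,.a ⟨true,0,⟨0,[(38,1)]⟩,⟨1,[(0,0),(1,0),
  (24,0)]⟩⟩ ⟨true,1,⟨5,[(5,2),(0,0),(3,0),(27,0),(1,2)]⟩,⟨0,[(9,0),(3,0),(12,0),(11,0)]⟩⟩ ⟨false,1,
  ⟨2,[(5,2),(0,0),(3,0),(27,0)]⟩,⟨3,[(1,0),(1,0),(5,0),(2,0),(0,1)]⟩⟩,.a ⟨true,0,⟨1,[(28,0),(0,0)]⟩,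
  ⟨0,[(13,0),(11,0)]⟩⟩ ⟨false,1,⟨5,[(5,2),(0,0),(3,0),(27,0),(1,2)]⟩,⟨23,[(1,2),(1,2),(5,1),(1,1),
  (0,3),(16,7),(2,0)]⟩⟩ ⟨true,0,⟨0,[(36,0),(1,2)]⟩,⟨3,[(1,0),(1,0),(5,0),(2,0),(0,1)]⟩⟩,.o ⟨false,0,
  ⟨0,[(11,0),(1,0),(18,0)]⟩,⟨0,[(39,0)]⟩⟩]⟩) (.Q [0,0,1,0,0,0,0,0,-1,0,0,1] (.p true [0,0,0,0,1] []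
  (⟨0,[(24,0)]⟩,⟨0,[(23,0)]⟩) .k 0 (⟨0,[]⟩,⟨0,[]⟩) .k .k) (.Q [0,2,0,0,-1,0,0,0,1,0,0,-1] (.p false
  [0,0,0,0,1] [] (⟨0,[(25,0)]⟩,⟨0,[(24,0)]⟩) .k 0 (⟨0,[]⟩,⟨0,[]⟩) .k .k) (.K ⟨0,[0,0,0,0,1],0,(-1),
  (⟨0,[(26,0)]⟩,⟨0,[(25,0)]⟩),.k,(.r 0 ⟨2,[(1,0),(0,0),(4,0),(0,0),(8,0),(20,0)]⟩ ⟨7,[(5,1),(1,2),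
  (6,4),(15,0),(0,2),(10,2)]⟩),(.r 0 ⟨1,[(18,0),(0,0),(11,0)]⟩ ⟨5,[(7,2),(0,0),(3,0),(27,0),(1,
  2)]⟩),.k,.k,[⟨0,[(15,0),(8,0)]⟩,⟨0,[(1,0)]⟩,⟨0,[(23,0)]⟩,⟨0,[(0,0)]⟩]⟩) (.R ⟨2,true,false,true,[0,
  1],[1,-1],[1,1,1,1],(⟨0,[]⟩,⟨0,[]⟩),(⟨0,[(35,0)]⟩,⟨0,[(36,0)]⟩),⟨0,[]⟩,.k,.k,.k,(.r 0 ⟨11,[(3,2),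
  (1,2),(5,1),(1,1),(0,3),(16,7),(2,0)]⟩ ⟨2,[(7,2),(0,0),(3,0),(27,0)]⟩),.k,.k,⟨false,0,⟨3,[(3,0),
  (1,0),(5,0),(2,0),(0,1)]⟩,⟨2,[(7,2),(0,0),(3,0),(27,0)]⟩⟩,⟨true,0,⟨0,[(13,0),(1,0),(18,0)]⟩,⟨0,
  [(15,0),(11,0)]⟩⟩,⟨false,0,⟨0,[]⟩,⟨1,[(7,0),(6,0),(27,0)]⟩⟩,⟨true,0,⟨0,[(2,0)]⟩,⟨4,[(0,0),(3,3),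
  (3,0),(3,0),(2,2),(0,0),(12,0)]⟩⟩,⟨true,0,⟨0,[(39,0)]⟩,⟨0,[(40,0)]⟩⟩,⟨false,1,⟨3,[(2,1),(4,1),(6,
  1),(19,0),(7,0)]⟩,⟨0,[(0,0),(15,0)]⟩⟩,[]⟩)) (.Q [0,0,0,0,-1,0,0,0,1,1,0,-1] (.p false [0,0,0,0,1]
  [1] (⟨0,[(25,0)]⟩,⟨0,[(24,0)]⟩) .k 1 (⟨0,[]⟩,⟨0,[]⟩) .k .k) (.Q [0,0,0,1,-1,0,0,0,1,1,0,-1] (.p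
  false [0,0,0,0,1] [1] (⟨0,[(26,0)]⟩,⟨0,[(25,0)]⟩) .k 1 (⟨0,[]⟩,⟨0,[]⟩) .k .k) (.Q [0,0,0,-2,1,0,0,
  0,-1,-1,0,1] (.p true [0,0,0,0,1] [1] (⟨0,[(27,0)]⟩,⟨0,[(26,0)]⟩) .k 1 (⟨0,[]⟩,⟨0,[]⟩) .k .k) (.R
  ⟨1,true,false,false,[1,-1],[0,0,0,0,1],[1,0,-1,-1],(⟨0,[(37,0)]⟩,⟨0,[(38,0)]⟩),(⟨0,[(28,0)]⟩,⟨0,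
  [(27,0)]⟩),⟨1,[(8,0),(15,0),(12,0)]⟩,.k,.k,(.r (-1) ⟨2,[(9,2),(0,0),(3,0),(27,0)]⟩ ⟨11,[(5,2),(1,
  2),(5,1),(1,1),(0,3),(16,7),(2,0)]⟩),(.r (-1) ⟨5,[(9,2),(0,0),(3,0),(27,0),(1,2)]⟩ ⟨1,[(20,0),(0,
  0),(11,0)]⟩),(.r (-2) ⟨4,[(9,6),(4,2),(5,0),(23,2)]⟩ ⟨4,[(4,0),(8,3),(1,0),(1,4),(3,3)]⟩),.k,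
  ⟨true,1,⟨5,[(9,2),(0,0),(3,0),(27,0),(1,2)]⟩,⟨4,[(4,1),(8,2),(1,1),(1,4),(3,2)]⟩⟩,⟨false,0,⟨0,[(2,
  0),(40,0)]⟩,⟨5,[(0,3),(4,0),(1,0),(5,1),(11,1),(7,1),(2,0)]⟩⟩,⟨true,0,⟨0,[]⟩,⟨0,[(46,0)]⟩⟩,⟨false,
  (-1),⟨0,[(1,0)]⟩,⟨3,[(0,1),(8,0),(6,0),(8,1),(10,0),(7,1)]⟩⟩,⟨false,1,⟨1,[(7,0),(23,0),(12,0)]⟩,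
  ⟨0,[(42,0)]⟩⟩,⟨true,(-1),⟨0,[(1,0),(39,0)]⟩,⟨0,[(0,0)]⟩⟩,[]⟩) (.Q [0,0,0,1,1,0,-1,-1,-1,-1,1,1]
  (.p true [0,0,1] [1,0,0,0,-1] (⟨0,[(35,0)]⟩,⟨0,[(34,0)]⟩) .k 2 (⟨0,[(27,0)]⟩,⟨0,[(28,0)]⟩) .k (.r
  0 ⟨0,[(17,0),(12,0)]⟩ ⟨4,[(9,1),(4,2),(5,0),(23,2)]⟩)) (.Q [0,0,1,0,-1,0,0,0,1,0,0,-1] (.p false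
  [0,0,0,0,1] [] (⟨0,[(29,0)]⟩,⟨0,[(28,0)]⟩) .k 0 (⟨0,[]⟩,⟨0,[]⟩) .k .k) (.Q [0,0,0,0,0,-1,0,0,0,0,
  0,1] (.ed false [1,-1,0,0,1] .k) (.S ⟨1,0,[0,1,0,-1],[0,0,0,0,1],[1,2],(⟨0,[(31,0)]⟩,⟨0,[(30,
  0)]⟩),⟨0,[(0,0)]⟩,.k,(.r 0 ⟨2,[(7,1),(12,1),(11,1),(10,0)]⟩ ⟨7,[(10,1),(1,2),(6,4),(15,0),(0,2),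
  (10,2)]⟩),⟨false,0,⟨0,[]⟩,⟨1,[(12,0),(6,0),(27,0)]⟩⟩,⟨true,0,⟨0,[(45,0)]⟩,⟨0,[(44,0)]⟩⟩,⟨true,0,
  ⟨0,[(44,0)]⟩,⟨0,[(45,0)]⟩⟩,⟨false,1,⟨1,[(12,0),(6,0),(27,0)]⟩,⟨0,[]⟩⟩,[.o ⟨false,(-1),⟨0,[(4,0),
  (2,0)]⟩,⟨2,[(2,0),(7,0),(17,1),(10,0),(7,0)]⟩⟩,.a ⟨true,(-1),⟨0,[(5,0),(39,0)]⟩,⟨2,[(2,0),(6,0),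
  (18,1)]⟩⟩ ⟨false,0,⟨2,[(7,0),(12,0),(11,0),(10,1)]⟩,⟨1,[(12,0),(6,0),(27,0)]⟩⟩ ⟨true,0,⟨0,[(45,
  0)]⟩,⟨23,[(8,2),(1,2),(5,1),(1,1),(0,3),(16,7),(2,0)]⟩⟩,.e ⟨false,0,⟨0,[(49,0)]⟩,⟨0,[(47,0)]⟩⟩
  ⟨false,0,⟨0,[(45,0)]⟩,⟨1,[(10,0),(23,0),(12,0)]⟩⟩,.o ⟨false,(-1),⟨0,[(1,0)]⟩,⟨1,[(28,1),(10,0),(6,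
  0)]⟩⟩]⟩) (.R ⟨0,false,false,true,[0,0,0,0,1],[0,1],[],(⟨0,[(31,0)]⟩,⟨0,[(30,0)]⟩),(⟨0,[(41,0)]⟩,
  ⟨0,[(40,0)]⟩),⟨0,[(0,0)]⟩,.k,.k,(.r 0 ⟨2,[(7,1),(12,1),(11,1),(10,0)]⟩ ⟨7,[(10,1),(1,2),(6,4),(15,
  0),(0,2),(10,2)]⟩),(.r 0 ⟨2,[(7,1),(12,1),(11,1),(10,0)]⟩ ⟨7,[(10,1),(1,2),(6,4),(15,0),(0,2),(10,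
  2)]⟩),.k,.k,⟨true,1,⟨5,[(12,2),(0,0),(3,0),(27,0),(1,2)]⟩,⟨4,[(7,1),(8,2),(1,1),(1,4),(3,2)]⟩⟩,
  ⟨false,2,⟨0,[(28,0),(17,0)]⟩,⟨0,[(1,0)]⟩⟩,⟨false,1,⟨0,[(47,0)]⟩,⟨0,[(49,0)]⟩⟩,⟨true,1,⟨2,[(2,0),
  (6,0),(18,1)]⟩,⟨0,[(4,0),(2,0)]⟩⟩,⟨false,0,⟨0,[]⟩,⟨0,[]⟩⟩,⟨false,0,⟨0,[]⟩,⟨0,[]⟩⟩,[.o ⟨false,0,⟨0,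
  [(44,0)]⟩,⟨3,[(7,1),(31,0),(7,2)]⟩⟩,.a ⟨true,0,⟨5,[(3,2),(10,0),(3,0),(9,2),(9,0),(1,1)]⟩,⟨0,[(45,
  0)]⟩⟩ ⟨false,1,⟨1,[(46,0),(0,0)]⟩,⟨0,[(49,0)]⟩⟩ ⟨true,1,⟨2,[(2,0),(6,0),(18,1)]⟩,⟨0,[(1,0),(43,
  0)]⟩⟩,.e ⟨false,1,⟨1,[(12,0),(6,0),(27,0)]⟩,⟨0,[]⟩⟩ ⟨false,1,⟨2,[(2,0),(6,0),(18,1)]⟩,⟨3,[(1,0),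
  (3,1),(0,0),(0,1),(39,2)]⟩⟩,.o ⟨false,(-1),⟨0,[(1,0)]⟩,⟨1,[(28,1),(10,0),(6,0)]⟩⟩]⟩)) (.Q [0,0,0,
  0,0,1,0,0,0,0,0,-1] (.ed true [1,-1,0,0,1] .k) (.Q [0,0,-1,1,1,0,0,0,-1,0,0,1] (.p true [0,0,0,0,
  1] [] (⟨0,[(31,0)]⟩,⟨0,[(30,0)]⟩) .k 0 (⟨0,[]⟩,⟨0,[]⟩) .k .k) (.R ⟨0,false,false,true,[0,0,0,0,1],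
  [0,1],[0,0,1],(⟨0,[(32,0)]⟩,⟨0,[(31,0)]⟩),(⟨0,[(42,0)]⟩,⟨0,[(41,0)]⟩),⟨0,[(1,0)]⟩,.k,.k,(.r 0 ⟨2,
  [(8,1),(12,1),(11,1),(10,0)]⟩ ⟨7,[(11,1),(1,2),(6,4),(15,0),(0,2),(10,2)]⟩),(.r 0 ⟨2,[(8,1),(12,
  1),(11,1),(10,0)]⟩ ⟨7,[(11,1),(1,2),(6,4),(15,0),(0,2),(10,2)]⟩),.k,.k,⟨false,1,⟨5,[(13,2),(0,0),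
  (3,0),(27,0),(1,2)]⟩,⟨0,[(45,0)]⟩⟩,⟨true,1,⟨0,[(2,0)]⟩,⟨0,[(6,0),(12,0),(1,0),(18,0)]⟩⟩,⟨false,1,
  ⟨1,[(36,0),(0,0),(10,1)]⟩,⟨2,[(8,0),(12,0),(11,0),(10,1)]⟩⟩,⟨true,1,⟨2,[(3,0),(6,0),(18,1)]⟩,⟨0,
  [(5,0),(2,0)]⟩⟩,⟨false,0,⟨0,[]⟩,⟨0,[]⟩⟩,⟨false,0,⟨0,[]⟩,⟨0,[]⟩⟩,[.o ⟨false,0,⟨0,[(45,0)]⟩,⟨3,[(8,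
  1),(31,0),(7,2)]⟩⟩,.e ⟨false,1,⟨1,[(13,0),(6,0),(27,0)]⟩,⟨2,[(8,0),(12,0),(11,0),(10,1)]⟩⟩ ⟨false,
  1,⟨0,[(0,0)]⟩,⟨1,[(8,0),(14,0),(6,0),(17,0)]⟩⟩,.a ⟨true,(-1),⟨0,[(6,0)]⟩,⟨0,[(29,0)]⟩⟩ ⟨true,0,⟨1,
  [(36,0),(0,0)]⟩,⟨2,[(8,0),(12,0),(11,0),(10,1)]⟩⟩ ⟨false,1,⟨2,[(3,0),(6,0),(18,1)]⟩,⟨3,[(6,3),(1,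
  1),(31,0),(7,2)]⟩⟩,.e ⟨false,1,⟨1,[(13,0),(6,0),(27,0)]⟩,⟨0,[]⟩⟩ ⟨false,1,⟨0,[(0,0)]⟩,⟨11,[(6,7),
  (1,5),(10,3),(10,3),(6,3),(2,2),(7,8)]⟩⟩]⟩) (.R ⟨0,false,false,true,[0,0,0,0,1],[1,0,0,0,-1],[0,1,
  0,-1],(⟨0,[(32,0)]⟩,⟨0,[(31,0)]⟩),(⟨0,[(31,0)]⟩,⟨0,[(32,0)]⟩),⟨0,[(1,0)]⟩,.k,.k,(.r 0 ⟨2,[(8,1),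
  (12,1),(11,1),(10,0)]⟩ ⟨7,[(11,1),(1,2),(6,4),(15,0),(0,2),(10,2)]⟩),.k,.k,.k,⟨false,0,⟨2,[(8,1),
  (12,1),(11,1),(10,0)]⟩,⟨1,[(11,0),(23,0),(12,0)]⟩⟩,⟨true,2,⟨0,[(2,1),(16,0),(1,0),(18,0)]⟩,⟨0,[(0,
  0),(4,0)]⟩⟩,⟨true,0,⟨0,[(46,0)]⟩,⟨0,[(45,0)]⟩⟩,⟨false,3,⟨0,[(2,1),(16,0),(1,0),(18,0),(7,0)]⟩,⟨0,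
  [(5,1),(2,0)]⟩⟩,⟨false,0,⟨0,[]⟩,⟨0,[]⟩⟩,⟨false,0,⟨0,[]⟩,⟨0,[]⟩⟩,[.a ⟨true,1,⟨0,[(29,0)]⟩,⟨0,[(6,
  0)]⟩⟩ ⟨false,0,⟨2,[(8,1),(12,1),(11,1),(10,0)]⟩,⟨1,[(11,0),(23,0),(12,0)]⟩⟩ ⟨true,2,⟨0,[(2,1),(16,
  0),(1,0),(18,0)]⟩,⟨0,[(0,0),(4,0)]⟩⟩,.o ⟨false,2,⟨1,[(29,1),(10,0),(7,0)]⟩,⟨0,[(0,0),(43,0)]⟩⟩,.a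
  ⟨true,(-1),⟨0,[(6,0)]⟩,⟨0,[(29,0)]⟩⟩ ⟨false,0,⟨0,[(46,0)]⟩,⟨1,[(11,0),(23,0),(12,0)]⟩⟩ ⟨true,2,⟨0,
  [(2,1),(16,0),(1,0),(18,0)]⟩,⟨0,[(5,1),(2,0)]⟩⟩,.a ⟨true,(-1),⟨2,[(6,1),(12,0),(10,0),(6,0)]⟩,⟨0,
  [(2,0)]⟩⟩ ⟨true,0,⟨2,[(8,1),(12,1),(11,1),(10,0)]⟩,⟨23,[(9,2),(1,2),(5,1),(1,1),(0,3),(16,7),(2,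
  0)]⟩⟩ ⟨false,3,⟨1,[(2,1),(26,1),(10,0),(7,0)]⟩,⟨0,[(0,0),(4,0)]⟩⟩]⟩)) (.Q [0,2,0,1,-2,0,0,0,1,1,0,
  -1] (.p false [0,0,0,0,1] [1] (⟨0,[(31,0)]⟩,⟨0,[(30,0)]⟩) .k 1 (⟨0,[]⟩,⟨0,[]⟩) .k .k) (.R ⟨1,
  false,false,false,[0,0,0,0,1],[1,-1],[1,1],(⟨0,[(32,0)]⟩,⟨0,[(31,0)]⟩),(⟨0,[(41,0)]⟩,⟨0,[(42,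
  0)]⟩),⟨0,[(1,0)]⟩,.k,.k,(.r 0 ⟨7,[(0,1),(1,1),(5,2),(4,1),(0,0),(18,0),(1,0)]⟩ ⟨7,[(11,1),(1,2),
  (6,4),(15,0),(0,2),(10,2)]⟩),(.r 0 ⟨1,[(24,0),(0,0),(11,0)]⟩ ⟨5,[(13,2),(0,0),(3,0),(27,0),(1,
  2)]⟩),.k,.k,⟨false,0,⟨0,[(45,0)]⟩,⟨5,[(13,2),(0,0),(3,0),(27,0),(1,2)]⟩⟩,⟨true,1,⟨0,[(2,0),(16,0),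
  (1,0),(18,0)]⟩,⟨0,[(6,0)]⟩⟩,⟨true,0,⟨0,[]⟩,⟨0,[(50,0)]⟩⟩,⟨true,2,⟨3,[(8,1),(20,3),(10,0),(7,2)]⟩,
  ⟨0,[(0,0)]⟩⟩,⟨false,1,⟨1,[(11,0),(23,0),(12,0)]⟩,⟨0,[(46,0)]⟩⟩,⟨true,2,⟨1,[(29,1),(10,0),(7,0)]⟩,
  ⟨0,[(0,0),(45,0)]⟩⟩,[.e ⟨false,0,⟨7,[(0,0),(1,0),(5,0),(4,0),(0,0),(28,0),(0,2)]⟩,⟨1,[(13,0),(6,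
  0),(27,0)]⟩⟩ ⟨false,2,⟨15,[(2,3),(5,1),(4,7),(4,3),(10,11),(10,6),(7,0)]⟩,⟨0,[(5,0)]⟩⟩,.o ⟨false,
  1,⟨3,[(8,1),(31,0),(7,2)]⟩,⟨0,[(45,0)]⟩⟩,.e ⟨false,0,⟨0,[]⟩,⟨1,[(13,0),(6,0),(27,0)]⟩⟩ ⟨false,2,
  ⟨3,[(8,1),(20,3),(10,0),(7,2)]⟩,⟨0,[(5,0)]⟩⟩,.a ⟨true,(-1),⟨2,[(6,1),(12,0),(10,0),(6,0)]⟩,⟨0,[(2,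
  0)]⟩⟩ ⟨true,0,⟨7,[(0,0),(1,0),(5,0),(4,0),(0,0),(28,0),(0,2)]⟩,⟨1,[(36,0),(0,0)]⟩⟩ ⟨false,2,⟨3,
  [(2,3),(5,1),(31,0),(7,2)]⟩,⟨2,[(4,0),(0,0),(13,0),(10,0),(6,0)]⟩⟩]⟩) (.S ⟨1,0,[0,2,0,-1],[0,0,0,
  0,1],[1,1],(⟨0,[(32,0)]⟩,⟨0,[(31,0)]⟩),⟨0,[(1,0)]⟩,.k,(.r 0 ⟨2,[(8,1),(12,1),(11,1),(10,0)]⟩ ⟨5,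
  [(0,1),(9,1),(2,0),(6,2),(9,1),(6,1),(10,0)]⟩),⟨true,0,⟨0,[]⟩,⟨0,[(50,0)]⟩⟩,⟨false,0,⟨0,[(46,0)]⟩,
  ⟨1,[(11,0),(23,0),(12,0)]⟩⟩,⟨false,1,⟨1,[(11,0),(23,0),(12,0)]⟩,⟨0,[(46,0)]⟩⟩,⟨true,0,⟨0,[(50,
  0)]⟩,⟨0,[]⟩⟩,[.e ⟨false,0,⟨2,[(8,0),(12,0),(11,0),(10,1)]⟩,⟨1,[(13,0),(6,0),(27,0)]⟩⟩ ⟨false,0,⟨7,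
  [(8,2),(4,0),(5,0),(1,1),(11,1),(1,0),(7,5)]⟩,⟨0,[(0,0),(3,0)]⟩⟩,.o ⟨false,(-1),⟨0,[(5,0),(2,0)]⟩,
  ⟨5,[(0,1),(2,1),(7,2),(17,1),(5,0),(4,0)]⟩⟩,.e ⟨false,0,⟨0,[]⟩,⟨1,[(13,0),(6,0),(27,0)]⟩⟩ ⟨false,
  0,⟨3,[(8,0),(4,0),(5,0),(15,0),(14,1)]⟩,⟨0,[(0,0),(3,0)]⟩⟩,.a ⟨true,(-1),⟨2,[(6,1),(12,0),(10,0),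
  (6,0)]⟩,⟨0,[(2,0)]⟩⟩ ⟨true,0,⟨2,[(8,0),(12,0),(11,0),(10,1)]⟩,⟨1,[(36,0),(0,0)]⟩⟩ ⟨false,0,⟨2,[(8,
  1),(12,1),(11,1),(10,0)]⟩,⟨23,[(11,5),(5,1),(1,1),(0,3),(16,7),(2,0),(7,20)]⟩⟩]⟩)))) (.Q [0,0,0,0,
  0,-1,0,0,0,0,0,1] (.ed false [1,-1,0,0,1] .k) (.R ⟨1,false,false,true,[0,0,0,0,1],[1,1,-1],[1,2],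
  (⟨0,[(30,0)]⟩,⟨0,[(29,0)]⟩),(⟨1,[(13,0),(3,0),(18,0)]⟩,⟨0,[(26,0)]⟩),⟨0,[(0,0)]⟩,.k,.k,(.r 0 ⟨2,
  [(6,1),(12,1),(11,1),(10,0)]⟩ ⟨7,[(9,1),(1,2),(6,4),(15,0),(0,2),(10,2)]⟩),(.r (-1) ⟨1,[(11,1),
  (10,0),(0,0),(11,0)]⟩ ⟨5,[(12,0),(2,2),(0,0),(27,0),(1,2)]⟩),(.r (-1) ⟨0,[(11,0),(36,0)]⟩ ⟨1,[(15,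
  0),(2,0),(27,0)]⟩),.k,⟨false,1,⟨7,[(9,1),(1,5),(7,0),(15,0),(5,4)]⟩,⟨5,[(12,0),(2,2),(0,0),(27,0),
  (1,2)]⟩⟩,⟨true,2,⟨1,[(19,1),(7,1),(10,0),(6,0)]⟩,⟨0,[(1,0),(13,0),(28,0)]⟩⟩,⟨false,0,⟨0,[]⟩,⟨1,
  [(11,0),(6,0),(27,0)]⟩⟩,⟨false,2,⟨9,[(12,1),(2,3),(0,1),(2,9),(7,9),(10,4),(6,3),(0,4)]⟩,⟨0,[(1,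
  0)]⟩⟩,⟨true,0,⟨0,[(43,0)]⟩,⟨0,[(44,0)]⟩⟩,⟨false,2,⟨1,[(15,1),(3,1),(7,1),(10,0),(6,1),(0,0)]⟩,⟨0,
  [(1,0),(42,0)]⟩⟩,[.o ⟨false,0,⟨16,[(6,2),(5,4),(2,6),(3,11),(13,4),(4,6),(3,8)]⟩,⟨7,[(9,1),(1,5),
  (5,5),(20,2),(7,2)]⟩⟩,.e ⟨false,0,⟨2,[(6,0),(12,0),(11,0),(10,1)]⟩,⟨1,[(11,0),(6,0),(27,0)]⟩⟩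
  ⟨false,2,⟨9,[(12,1),(2,3),(0,1),(2,9),(7,9),(10,4),(6,8)]⟩,⟨0,[(1,0)]⟩⟩,.a ⟨true,(-1),⟨0,[(4,0)]⟩,
  ⟨0,[(27,0)]⟩⟩ ⟨false,0,⟨0,[(48,0)]⟩,⟨0,[(46,0)]⟩⟩ ⟨true,1,⟨16,[(6,2),(5,4),(2,6),(3,11),(7,16),(5,
  4),(4,6),(3,8)]⟩,⟨0,[(1,0)]⟩⟩,.o ⟨false,(-1),⟨7,[(1,3),(2,3),(1,1),(8,3),(3,3),(18,2),(7,0)]⟩,⟨1,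
  [(27,1),(10,0),(6,0)]⟩⟩]⟩) (.R ⟨0,false,false,false,[0,0,0,0,1],[1,0,0,0,-1],[1,1,1],(⟨0,[(30,
  0)]⟩,⟨0,[(29,0)]⟩),(⟨0,[(29,0)]⟩,⟨0,[(30,0)]⟩),⟨0,[(0,0)]⟩,.k,.k,(.r 0 ⟨2,[(6,1),(12,1),(11,1),
  (10,0)]⟩ ⟨7,[(9,1),(1,2),(6,4),(15,0),(0,2),(10,2)]⟩),.k,.k,.k,⟨true,(-1),⟨4,[(6,3),(8,0),(1,3),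
  (1,4),(3,0),(18,4)]⟩,⟨0,[(46,0)]⟩⟩,⟨false,3,⟨1,[(27,3),(10,0),(6,0)]⟩,⟨1,[(1,2),(1,0),(8,1),(2,0),
  (3,2),(18,0)]⟩⟩,⟨true,0,⟨1,[(34,0),(0,0)]⟩,⟨2,[(6,0),(12,0),(11,0),(10,1)]⟩⟩,⟨false,4,⟨1,[(27,3),
  (10,0),(7,2)]⟩,⟨0,[(1,1),(4,0),(0,0),(4,1),(2,0),(3,2)]⟩⟩,⟨false,0,⟨0,[]⟩,⟨0,[]⟩⟩,⟨false,0,⟨0,[]⟩,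
  ⟨0,[]⟩⟩,[.o ⟨false,2,⟨1,[(27,1),(10,0),(7,0)]⟩,⟨0,[(2,0),(3,0)]⟩⟩,.e ⟨false,0,⟨0,[]⟩,⟨1,[(11,0),
  (6,0),(26,0)]⟩⟩ ⟨false,4,⟨1,[(27,3),(10,0),(6,0),(0,1)]⟩,⟨0,[(1,1),(4,0),(0,0),(4,1),(2,0),(3,
  2)]⟩⟩,.a ⟨true,(-1),⟨0,[(4,0)]⟩,⟨0,[(27,0)]⟩⟩ ⟨false,0,⟨1,[(34,0),(0,0)]⟩,⟨1,[(45,0),(0,0)]⟩⟩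
  ⟨true,3,⟨1,[(27,3),(10,0),(7,0)]⟩,⟨0,[(1,1),(4,0),(0,0),(4,1),(2,0),(3,2)]⟩⟩,.o ⟨false,(-1),⟨7,
  [(1,3),(2,3),(1,1),(8,3),(3,3),(18,2),(7,0)]⟩,⟨1,[(27,1),(10,0),(6,0)]⟩⟩]⟩)))) (.R ⟨2,true,false,
  true,[0,1],[1,0,0,0,-1],[1,1,1,1],(⟨0,[]⟩,⟨0,[]⟩),(⟨0,[(26,0)]⟩,⟨0,[(27,0)]⟩),⟨0,[]⟩,.k,.k,.k,(.r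
  0 ⟨1,[(19,0),(0,0),(11,0)]⟩ ⟨5,[(8,2),(0,0),(3,0),(27,0),(1,2)]⟩),.k,.k,⟨false,0,⟨0,[(40,0)]⟩,⟨5,
  [(8,2),(0,0),(3,0),(27,0),(1,2)]⟩⟩,⟨true,1,⟨23,[(0,23),(3,2),(1,2),(5,1),(1,1),(0,3),(16,7),(2,
  0)]⟩,⟨0,[(1,0)]⟩⟩,⟨false,0,⟨0,[]⟩,⟨1,[(8,0),(6,0),(27,0)]⟩⟩,⟨true,1,⟨0,[(0,0)]⟩,⟨0,[(17,0)]⟩⟩,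
  ⟨true,0,⟨0,[(40,0)]⟩,⟨0,[(41,0)]⟩⟩,⟨false,2,⟨1,[(24,1),(10,0),(7,0)]⟩,⟨0,[(1,0)]⟩⟩,[]⟩)) (.K ⟨0,
  [1,0,0,0,-1],1,1,(⟨0,[(25,0)]⟩,⟨0,[(26,0)]⟩),.k,(.r (-1) ⟨5,[(7,2),(0,0),(3,0),(27,0),(1,2)]⟩ ⟨1,
  [(18,0),(0,0),(11,0)]⟩),(.r (-1) ⟨7,[(5,1),(1,2),(6,4),(15,0),(0,2),(10,2)]⟩ ⟨2,[(2,1),(12,1),(11,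
  1),(10,0)]⟩),.k,.k,[⟨0,[(0,0),(14,0)]⟩,⟨0,[(1,0),(11,0),(1,0)]⟩,⟨0,[(17,0),(26,0)]⟩,⟨0,[(0,
  0)]⟩]⟩))))) (.S ⟨1,0,[0,1,-1,-2,0,0,0,-1],[1,-1,-1],[1,0,-1,-1,0,0,0,-1],(⟨0,[(17,0)]⟩,⟨0,[(29,0),
  (2,0)]⟩),⟨0,[(2,0)]⟩,.k,(.r (-1) ⟨2,[(0,0),(2,2),(0,0),(3,1),(14,0)]⟩ ⟨6,[(1,3),(5,0),(1,5),(1,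
  13),(3,3),(14,2)]⟩),⟨true,0,⟨0,[]⟩,⟨0,[(40,0)]⟩⟩,⟨false,0,⟨0,[(36,0)]⟩,⟨1,[(1,0),(23,0),(12,0)]⟩⟩,
  ⟨false,1,⟨1,[(1,0),(23,0),(12,0)]⟩,⟨0,[(36,0)]⟩⟩,⟨true,0,⟨0,[(40,0)]⟩,⟨0,[]⟩⟩,[.o ⟨false,0,⟨0,[(0,
  0),(39,0)]⟩,⟨0,[(1,0)]⟩⟩,.o ⟨false,0,⟨0,[(0,0)]⟩,⟨6,[(1,5),(1,0),(10,1),(0,1),(11,0),(5,0)]⟩⟩,.a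
  ⟨true,0,⟨0,[(27,0)]⟩,⟨0,[(23,0)]⟩⟩ ⟨true,0,⟨1,[(0,0),(3,0),(18,0)]⟩,⟨0,[(15,0),(11,0)]⟩⟩ ⟨false,0,
  ⟨0,[(0,0),(22,0)]⟩,⟨0,[(1,0),(25,0)]⟩⟩,.o ⟨false,0,⟨0,[(9,0),(1,1),(18,0)]⟩,⟨1,[(23,1),(6,0),(6,
  0)]⟩⟩]⟩))) (.Q [0,0,-1,0,0,0,2,0,0,1,-2] (.p false [0,0,1] [1,0,-1] (⟨0,[(27,0)]⟩,⟨0,[(26,0)]⟩)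
  .k 2 (⟨0,[(26,0)]⟩,⟨0,[(27,0)]⟩) .k (.r (-1) ⟨0,[(9,1),(12,1),(13,0)]⟩ ⟨2,[(2,1),(3,1),(27,1)]⟩))
  (.Q [0,-1,0,0,1,0,2,2,0,1,-2] (.p false [0,0,1] [1,0,-1] (⟨0,[(28,0)]⟩,⟨0,[(27,0)]⟩) .k 2 (⟨0,
  [(27,0)]⟩,⟨0,[(28,0)]⟩) .k (.r (-1) ⟨0,[(10,1),(12,1),(13,0)]⟩ ⟨2,[(3,1),(3,1),(27,1)]⟩)) (.R ⟨0,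
  false,false,false,[1,-1,-1],[0,-1,1],[0,1],(⟨0,[(17,0)]⟩,⟨3,[(2,0),(2,0),(3,0),(19,3)]⟩),(⟨0,[(18,
  0)]⟩,⟨1,[(5,0),(3,0),(18,0)]⟩),⟨0,[(2,0)]⟩,.k,.k,(.r (-1) ⟨2,[(3,2),(0,1),(3,1),(27,1)]⟩ ⟨6,[(0,
  3),(6,4),(1,1),(1,13),(3,3),(14,2)]⟩),.k,.k,.k,⟨true,(-1),⟨0,[(7,0),(26,0),(1,1)]⟩,⟨7,[(0,1),(2,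
  3),(5,3),(1,7),(18,2),(7,2)]⟩⟩,⟨false,0,⟨0,[(1,0)]⟩,⟨1,[(11,1),(15,1),(2,0),(6,0)]⟩⟩,⟨true,0,⟨0,
  [(15,0),(11,0)]⟩,⟨0,[(4,0),(31,0)]⟩⟩,⟨false,1,⟨0,[(0,0)]⟩,⟨5,[(4,6),(2,2),(0,0),(2,11),(18,2),(5,
  6)]⟩⟩,⟨false,0,⟨0,[]⟩,⟨0,[]⟩⟩,⟨false,0,⟨0,[]⟩,⟨0,[]⟩⟩,[.e ⟨false,0,⟨0,[(34,0),(1,0)]⟩,⟨7,[(0,1),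
  (24,3),(4,0),(7,4)]⟩⟩ ⟨false,1,⟨7,[(0,1),(0,2),(1,3),(12,2),(16,0),(3,1)]⟩,⟨5,[(4,0),(2,2),(0,0),
  (2,11),(18,2),(5,0)]⟩⟩,.o ⟨false,1,⟨7,[(0,1),(2,3),(5,3),(20,2),(7,2)]⟩,⟨1,[(4,0),(2,0),(3,1),(18,
  0),(2,0)]⟩⟩,.a ⟨true,0,⟨0,[(27,0)]⟩,⟨0,[(23,0)]⟩⟩ ⟨true,0,⟨0,[(40,0)]⟩,⟨0,[]⟩⟩ ⟨false,1,⟨23,[(0,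
  5),(0,7),(1,11),(5,3),(6,7),(13,0),(7,8)]⟩,⟨5,[(4,0),(2,2),(0,0),(2,11),(18,2),(5,0)]⟩⟩,.o ⟨false,
  0,⟨0,[(9,0),(1,1),(18,0)]⟩,⟨3,[(1,1),(28,0),(6,2)]⟩⟩]⟩) (.S ⟨1,0,[0,1,0,-1,0,0,0,1],[0,0,1],[1,0,
  0,0,0,0,0,1],(⟨0,[(29,0)]⟩,⟨0,[(28,0)]⟩),⟨0,[(18,0)]⟩,.k,.k,⟨true,0,⟨0,[]⟩,⟨0,[(40,0)]⟩⟩,⟨false,0,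
  ⟨0,[(36,0)]⟩,⟨0,[(35,0),(2,0)]⟩⟩,⟨false,1,⟨0,[(35,0),(2,0)]⟩,⟨0,[(36,0)]⟩⟩,⟨true,0,⟨0,[(40,0)]⟩,
  ⟨0,[]⟩⟩,[.o ⟨false,0,⟨0,[(24,0),(11,0)]⟩,⟨5,[(0,1),(9,1),(0,1),(18,1),(3,1),(2,0),(0,4)]⟩⟩,.o
  ⟨false,1,⟨3,[(3,2),(6,0),(13,1),(1,2),(0,0),(10,0)]⟩,⟨0,[(0,0),(14,0),(22,0)]⟩⟩,.a ⟨true,0,⟨5,[(5,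
  0),(3,0),(6,2),(12,0),(1,1)]⟩,⟨0,[(11,0)]⟩⟩ ⟨false,1,⟨0,[(11,0),(12,0),(13,0)]⟩,⟨2,[(4,0),(3,0),
  (27,0)]⟩⟩ ⟨true,0,⟨0,[(11,0),(12,0),(11,0)]⟩,⟨4,[(4,0),(2,1),(0,0),(28,1)]⟩⟩,.o ⟨false,0,⟨0,[(26,
  0)]⟩,⟨1,[(11,1),(18,0),(6,0)]⟩⟩]⟩)) (.K ⟨0,[1,-1,-1],0,0,(⟨0,[(16,0)]⟩,⟨3,[(1,0),(2,0),(3,0),(19,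
  3)]⟩),.k,(.r (-1) ⟨2,[(2,2),(0,1),(3,1),(27,1)]⟩ ⟨2,[(0,0),(5,0),(1,0),(1,1),(3,3),(11,0),(10,
  1)]⟩),.k,(.r 0 ⟨2,[(3,3),(3,0),(27,3)]⟩ ⟨5,[(0,0),(1,1),(5,0),(1,1),(3,9),(11,6),(10,4)]⟩),.k,[⟨0,
  [(0,0)]⟩,⟨5,[(4,0),(3,0),(6,2),(12,0),(1,1)]⟩,⟨2,[(4,0),(3,0),(5,2),(13,0),(1,1)]⟩,⟨6,[(0,2),(2,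
  3),(2,1),(17,0),(4,1),(2,2),(2,10)]⟩]⟩))))))))) (.I [0,0,-2,-2,1,0,0,1] (.Q [0,1,0,1,0,0,-1,-1,0,
  0,1] (.p true [0,0,1] [] (⟨0,[(21,0)]⟩,⟨0,[(20,0)]⟩) .k 0 (⟨0,[]⟩,⟨0,[]⟩) .k .k) (.K ⟨0,[0,-1,1],
  0,0,(⟨0,[(11,0)]⟩,⟨0,[(21,0),(3,0)]⟩),.k,(.r (-1) ⟨0,[(1,0)]⟩ ⟨0,[(3,0)]⟩),.k,.k,.k,[⟨1,[(19,0),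
  (0,0)]⟩,⟨0,[(4,0)]⟩,⟨0,[(0,0)]⟩,⟨0,[(17,0),(11,0)]⟩]⟩) (.R ⟨2,true,false,false,[0,1],[0,0,1],[0,0,
  1],(⟨0,[]⟩,⟨0,[]⟩),(⟨0,[(22,0)]⟩,⟨0,[(21,0)]⟩),⟨0,[]⟩,.k,.k,.k,.k,.k,.k,⟨false,1,⟨4,[(1,0),(5,1),
  (1,1),(8,3),(4,0),(7,2)]⟩,⟨0,[(0,0),(3,0),(22,0)]⟩⟩,⟨true,0,⟨0,[(19,0)]⟩,⟨0,[(4,0)]⟩⟩,⟨true,0,⟨0,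
  [(29,0)]⟩,⟨0,[(28,0)]⟩⟩,⟨false,0,⟨0,[(0,0)]⟩,⟨3,[(3,1),(14,1),(1,1),(9,2),(0,0)]⟩⟩,⟨false,1,⟨1,
  [(1,0),(1,0),(27,0)]⟩,⟨0,[]⟩⟩,⟨true,0,⟨1,[(0,0),(7,0)]⟩,⟨0,[(18,0)]⟩⟩,[]⟩)) (.K ⟨0,[0,-1,1],0,0,
  (⟨0,[(10,0)]⟩,⟨0,[(20,0),(3,0)]⟩),.k,(.x 0 ⟨3,[(0,1),(8,1),(0,5),(5,1),(1,2),(0,0),(2,0),(5,3),(1,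
  0)]⟩ ⟨0,[(1,0),(18,0),(3,1)]⟩),.k,.k,.k,[⟨1,[(18,0),(0,0)]⟩,⟨0,[(3,0)]⟩,⟨5,[(0,0),(1,0),(0,1),(13,
  3),(8,1),(2,0)]⟩,⟨0,[(16,0),(11,0)]⟩]⟩))) (.Q [0,1,0,1,0,0,-1,-1,0,0,1] (.p true [0,0,1] [] (⟨0,
  [(19,0)]⟩,⟨0,[(18,0)]⟩) .k 0 (⟨0,[]⟩,⟨0,[]⟩) .k .k) (.I [0,0,-2,-2,0,0,0,1] (.K ⟨0,[0,-1,1],0,0,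
  (⟨0,[(10,0)]⟩,⟨0,[(20,0),(3,0)]⟩),.k,(.r 0 ⟨0,[(0,0)]⟩ ⟨1,[(6,2),(0,0),(11,0),(10,1)]⟩),.k,.k,.k,
  [⟨1,[(18,0),(0,0)]⟩,⟨0,[(3,0)]⟩,⟨0,[(1,0)]⟩,⟨0,[(16,0),(11,0)]⟩]⟩) (.I [0,0,2,0,0,-2,1] (.I [0,0,
  -2,0,1,2,-1] (.N [0,-2,1] 0 ⟨0,[(4,0)]⟩ ⟨0,[(2,0)]⟩ (.x 0 ⟨0,[(1,0)]⟩ ⟨0,[(0,0)]⟩)) (.I [1,-1,-2,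
  -1,1] (.I [1,-1,2,1] (.S ⟨1,0,[0,1,-1,-2],[1,-1],[1,0,-1,-1],(⟨0,[(27,0)]⟩,⟨0,[(28,0)]⟩),⟨0,[(13,
  0),(0,0)]⟩,.k,(.r (-1) ⟨4,[(1,3),(13,0),(0,0),(12,1),(2,5)]⟩ ⟨1,[(0,0),(3,0),(2,0),(3,0)]⟩),⟨true,
  0,⟨0,[]⟩,⟨0,[(36,0)]⟩⟩,⟨false,0,⟨0,[(32,0)]⟩,⟨0,[(31,0),(2,0)]⟩⟩,⟨false,1,⟨0,[(31,0),(2,0)]⟩,⟨0,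
  [(32,0)]⟩⟩,⟨true,0,⟨0,[(36,0)]⟩,⟨0,[]⟩⟩,[.o ⟨false,0,⟨0,[(2,0),(3,0),(14,0),(2,0),(1,0),(1,1)]⟩,
  ⟨3,[(0,0),(3,0),(2,0),(3,0),(18,3),(3,3)]⟩⟩,.e ⟨false,1,⟨0,[(1,0)]⟩,⟨1,[(10,0),(0,0),(11,0)]⟩⟩
  ⟨false,1,⟨4,[(1,3),(13,0),(0,0),(12,1),(2,5)]⟩,⟨0,[(0,0),(29,0)]⟩⟩,.a ⟨true,0,⟨1,[(22,0),(0,0)]⟩,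
  ⟨0,[(7,0),(11,0)]⟩⟩ ⟨false,1,⟨3,[(1,1),(13,0),(0,0),(15,1),(1,0)]⟩,⟨3,[(0,0),(3,0),(2,0),(3,0)]⟩⟩
  ⟨true,0,⟨0,[(6,0),(14,0),(0,0)]⟩,⟨0,[(0,0),(29,0)]⟩⟩,.o ⟨false,0,⟨0,[(2,0),(4,0),(16,0),(1,0),(1,
  1)]⟩,⟨0,[(33,0)]⟩⟩]⟩) (.S ⟨1,0,[0,0,0,-1,0,0,0,1],[0,0,1],[0,1,0,-1,0,0,0,1],(⟨0,[(25,0)]⟩,⟨0,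
  [(24,0)]⟩),⟨0,[(14,0)]⟩,.k,.k,⟨false,0,⟨0,[(32,0)]⟩,⟨0,[(31,0),(2,0)]⟩⟩,⟨true,0,⟨0,[(32,0)]⟩,⟨0,
  [(31,0)]⟩⟩,⟨true,0,⟨0,[(36,0)]⟩,⟨0,[]⟩⟩,⟨false,1,⟨1,[(15,0),(0,0),(17,0)]⟩,⟨0,[]⟩⟩,[.o ⟨false,0,
  ⟨5,[(2,1),(3,3),(4,1),(10,2),(0,0),(0,1),(1,0),(1,3),(5,0)]⟩,⟨1,[(5,1),(20,0),(7,0)]⟩⟩,.e ⟨false,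
  0,⟨1,[(2,1),(3,1),(0,1),(16,1),(1,0),(1,3),(1,1),(3,0)]⟩,⟨1,[(10,1),(22,0),(0,0)]⟩⟩ ⟨false,1,⟨3,
  [(6,1),(13,1),(2,1),(9,0),(0,2)]⟩,⟨0,[(0,0),(3,0)]⟩⟩,.a ⟨true,0,⟨1,[(12,0),(11,0),(0,0)]⟩,⟨0,[(7,
  0)]⟩⟩ ⟨false,0,⟨5,[(2,1),(3,3),(4,1),(11,3),(0,1),(1,0),(1,3),(5,0)]⟩,⟨0,[(1,0),(2,0)]⟩⟩ ⟨true,0,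
  ⟨5,[(2,1),(3,3),(4,1),(11,3),(0,1),(1,0),(1,3),(5,0)]⟩,⟨0,[(0,0),(3,0)]⟩⟩,.o ⟨false,0,⟨0,[(22,
  0)]⟩,⟨1,[(7,1),(18,0),(6,0)]⟩⟩]⟩)) (.I [0,1,-2,-3] (.S ⟨1,0,[0,0,0,-1,0,0,0,-1],[1,0,-1],[0,1,0,
  -1,0,0,0,-1],(⟨0,[(24,0)]⟩,⟨0,[(25,0)]⟩),⟨0,[(13,0)]⟩,.k,.k,⟨false,0,⟨0,[(32,0)]⟩,⟨0,[(31,0),(2,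
  0)]⟩⟩,⟨true,0,⟨0,[(32,0)]⟩,⟨0,[(31,0)]⟩⟩,⟨true,0,⟨0,[(36,0)]⟩,⟨0,[]⟩⟩,⟨false,1,⟨1,[(15,0),(0,0),
  (17,0)]⟩,⟨0,[]⟩⟩,[.o ⟨false,1,⟨1,[(21,1),(4,0),(5,1),(1,0)]⟩,⟨1,[(1,3),(4,1),(12,1),(6,0),(3,1),
  (3,2)]⟩⟩,.a ⟨true,1,⟨0,[(21,0),(10,0),(1,0)]⟩,⟨0,[(1,1),(4,0),(12,0),(10,0),(3,0)]⟩⟩ ⟨false,1,⟨2,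
  [(0,0),(11,0),(6,0),(1,2),(4,0),(7,1)]⟩,⟨3,[(1,4),(4,2),(0,0),(3,0),(18,3),(3,4)]⟩⟩ ⟨true,1,⟨0,
  [(0,0),(3,0),(29,0)]⟩,⟨0,[(1,1),(4,0),(23,0),(3,0)]⟩⟩,.a ⟨true,0,⟨0,[(7,0)]⟩,⟨1,[(12,0),(11,0),(0,
  0)]⟩⟩ ⟨true,0,⟨0,[(0,0),(3,0)]⟩,⟨3,[(1,4),(4,2),(0,0),(3,0),(18,3),(3,4)]⟩⟩ ⟨false,1,⟨0,[(0,0),(3,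
  0),(29,0)]⟩,⟨3,[(1,4),(4,2),(0,0),(3,0),(18,3),(3,4)]⟩⟩,.a ⟨true,0,⟨0,[(23,0)]⟩,⟨0,[(19,0)]⟩⟩
  ⟨false,1,⟨2,[(0,0),(11,0),(6,0),(1,2),(4,0),(7,1)]⟩,⟨0,[(1,1),(4,0),(23,0),(3,1)]⟩⟩ ⟨true,1,⟨2,
  [(0,0),(11,0),(6,0),(1,2),(4,0),(7,1)]⟩,⟨0,[(1,1),(4,0),(23,0),(3,0)]⟩⟩]⟩) (.Q [0,0,1,0,0,0,-2,0,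
  0,-1,2] (.p true [0,0,1] [1,0,-1] (⟨0,[(25,0)]⟩,⟨0,[(24,0)]⟩) .k 2 (⟨0,[(24,0)]⟩,⟨0,[(25,0)]⟩) .k
  (.r 1 ⟨0,[(0,0),(0,0),(4,1)]⟩ ⟨1,[(12,1),(2,0),(0,0),(4,3),(4,0),(7,1)]⟩)) (.K ⟨0,[1,-1,-1],0,1,
  (⟨0,[(14,0)]⟩,⟨0,[(26,0),(2,0)]⟩),.k,(.r (-2) ⟨3,[(13,1),(2,0),(0,0),(4,3),(4,0),(5,7),(0,3),(0,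
  1)]⟩ ⟨0,[(1,0),(0,0),(4,0)]⟩),.k,(.r (-2) ⟨1,[(13,1),(8,3),(4,0),(5,1),(0,0),(0,1)]⟩ ⟨4,[(1,5),(0,
  4),(4,8),(13,0),(2,0)]⟩),.k,[⟨0,[(0,0)]⟩,⟨1,[(13,0),(11,0),(0,0)]⟩,⟨4,[(1,1),(0,4),(4,3),(0,0),(3,
  0),(7,4),(10,0)]⟩,⟨1,[(16,0),(0,0),(4,1),(4,0),(5,1)]⟩]⟩) (.Q [0,-1,0,-2,1,0,0,0,-1,-1,0,1] (.p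
  true [0,0,0,0,1] [1] (⟨0,[(19,0)]⟩,⟨0,[(18,0)]⟩) .k 1 (⟨0,[]⟩,⟨0,[]⟩) .k .k) (.K ⟨0,[0,0,0,0,1],0,
  (-1),(⟨0,[(20,0)]⟩,⟨0,[(19,0)]⟩),.k,(.r 0 ⟨10,[(1,1),(1,0),(4,3),(14,3),(4,0),(2,2),(2,3)]⟩ ⟨2,
  [(6,0),(6,0),(3,0),(0,0),(6,0),(10,1)]⟩),(.r 0 ⟨1,[(12,0),(0,0),(11,0)]⟩ ⟨11,[(0,1),(7,3),(5,1),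
  (2,0),(0,2),(4,3),(11,1),(0,6)]⟩),.k,.k,[⟨0,[(9,0),(8,0)]⟩,⟨1,[(0,1),(1,0),(0,1),(3,0),(0,0),(0,
  0),(11,1)]⟩,⟨0,[(17,0)]⟩,⟨0,[(4,0),(2,0),(0,0),(1,0),(15,0),(1,0),(1,1)]⟩]⟩) (.I [0,-1,0,-1,1,0,0,
  -1] (.S ⟨1,0,[0,1,0,-1,0,0,0,-1],[1,0,-1],[0,0,0,-1,0,0,0,-1],(⟨0,[(27,0)]⟩,⟨0,[(28,0)]⟩),⟨0,[(16,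
  0)]⟩,.k,.k,⟨true,0,⟨0,[(35,0)]⟩,⟨0,[(34,0)]⟩⟩,⟨false,0,⟨0,[(35,0)]⟩,⟨2,[(3,0),(14,0),(0,0),(16,0),
  (0,0)]⟩⟩,⟨false,1,⟨1,[(18,0),(0,0),(17,0)]⟩,⟨0,[]⟩⟩,⟨true,0,⟨0,[(39,0)]⟩,⟨0,[]⟩⟩,[.e ⟨false,1,⟨27,
  [(0,19),(1,5),(6,3),(14,11),(4,2),(2,3),(3,4)]⟩,⟨1,[(3,0),(5,0),(0,0),(3,0)]⟩⟩ ⟨false,1,⟨0,[(0,0),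
  (31,0)]⟩,⟨0,[(3,0),(5,0)]⟩⟩,.o ⟨false,1,⟨1,[(0,0),(9,0),(13,0),(4,0),(5,0)]⟩,⟨23,[(2,5),(0,12),(0,
  2),(4,13),(4,9),(10,1),(3,2)]⟩⟩,.e ⟨false,1,⟨0,[(0,0)]⟩,⟨1,[(3,0),(5,0),(0,0),(3,0)]⟩⟩ ⟨false,1,
  ⟨0,[(0,0),(38,0)]⟩,⟨0,[(3,0),(5,0)]⟩⟩,.a ⟨true,0,⟨0,[(26,0)]⟩,⟨0,[(22,0)]⟩⟩ ⟨true,1,⟨27,[(0,19),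
  (1,5),(6,3),(14,11),(4,2),(2,3),(3,4)]⟩,⟨4,[(3,1),(0,4),(4,3),(0,0),(3,0),(18,0)]⟩⟩ ⟨false,1,⟨27,
  [(0,19),(1,5),(6,3),(14,11),(4,2),(2,3),(3,4)]⟩,⟨9,[(3,6),(0,4),(4,7),(13,1),(2,1),(10,4)]⟩⟩]⟩)
  (.Q [0,0,0,0,0,2,0,0,0,-1,1] (.p true [0,0,1] [1] (⟨0,[(28,0)]⟩,⟨0,[(27,0)]⟩) .k 1 (⟨0,[]⟩,⟨0,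
  []⟩) .k .k) (.R ⟨0,false,false,false,[1,-1,-1],[0,0,1],[],(⟨0,[(17,0)]⟩,⟨0,[(0,0),(30,0)]⟩),(⟨0,
  [(29,0)]⟩,⟨0,[(28,0)]⟩),⟨0,[(0,0)]⟩,.k,.k,(.r (-2) ⟨3,[(16,1),(2,0),(0,0),(4,3),(4,0),(5,7),(0,3),
  (0,1)]⟩ ⟨0,[(4,0),(0,0),(4,0)]⟩),(.r (-2) ⟨1,[(16,1),(8,3),(4,0),(5,1),(0,0),(0,1)]⟩ ⟨4,[(4,5),(0,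
  4),(4,8),(13,0),(2,0)]⟩),.k,.k,⟨false,1,⟨3,[(3,1),(21,3),(4,0),(6,0),(0,1)]⟩,⟨4,[(4,1),(5,2),(13,
  1),(2,1)]⟩⟩,⟨true,0,⟨0,[(3,0)]⟩,⟨1,[(5,1),(5,3),(18,0),(5,1),(1,0)]⟩⟩,⟨false,0,⟨9,[(4,6),(0,4),(4,
  7),(13,1),(2,1),(10,4)]⟩,⟨3,[(3,1),(21,3),(4,0),(5,3),(0,0),(0,1)]⟩⟩,⟨true,(-1),⟨1,[(1,0),(2,1),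
  (0,0),(4,2),(5,1)]⟩,⟨1,[(25,3),(4,0),(5,1),(1,0)]⟩⟩,⟨false,0,⟨0,[]⟩,⟨0,[]⟩⟩,⟨false,0,⟨0,[]⟩,⟨0,
  []⟩⟩,[.o ⟨false,0,⟨2,[(1,0),(8,0),(4,0),(10,1),(11,0)]⟩,⟨1,[(25,1),(4,0),(7,0)]⟩⟩,.a ⟨true,0,⟨3,
  [(0,0),(0,1),(3,1),(4,1),(5,1),(11,0),(2,1),(6,3)]⟩,⟨0,[(25,0)]⟩⟩ ⟨false,1,⟨1,[(37,0),(0,0)]⟩,⟨0,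
  [(40,0)]⟩⟩ ⟨true,0,⟨1,[(3,1),(0,0),(0,0),(4,1),(27,0)]⟩,⟨1,[(5,1),(5,1),(13,1),(4,0),(5,1),(1,
  0)]⟩⟩,.e ⟨false,1,⟨1,[(19,0),(0,0),(17,0)]⟩,⟨0,[]⟩⟩ ⟨false,0,⟨1,[(3,1),(0,0),(0,0),(4,1),(27,0)]⟩,
  ⟨1,[(25,1),(1,1),(2,0),(7,0)]⟩⟩,.o ⟨false,0,⟨1,[(5,1),(5,1),(18,0),(5,1),(1,0)]⟩,⟨3,[(3,1),(26,0),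
  (6,2)]⟩⟩]⟩) (.Q [0,0,1,0,0,0,0,0,-1,0,0,1] (.p true [0,0,0,0,1] [] (⟨0,[(22,0)]⟩,⟨0,[(21,0)]⟩) .k
  0 (⟨0,[]⟩,⟨0,[]⟩) .k .k) (.K ⟨0,[0,0,0,0,1],0,(-1),(⟨0,[(23,0)]⟩,⟨0,[(22,0)]⟩),.k,(.r 0 ⟨10,[(4,
  1),(1,0),(4,3),(14,3),(4,0),(2,2),(2,3)]⟩ ⟨2,[(9,0),(6,0),(3,0),(0,0),(6,0),(10,1)]⟩),(.r 0 ⟨1,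
  [(15,0),(0,0),(11,0)]⟩ ⟨1,[(37,1),(0,0),(0,0)]⟩),.k,.k,[⟨0,[(12,0),(8,0)]⟩,⟨0,[(0,0)]⟩,⟨0,[(20,
  0)]⟩,⟨0,[(3,0),(3,0),(3,0),(14,0),(2,0),(1,0),(1,1)]⟩]⟩) (.I [0,0,2,0,-1,-2,1] (.N [0,-2,1] 0 ⟨0,
  [(12,0)]⟩ ⟨0,[(10,0)]⟩ (.x 1 ⟨0,[(0,0)]⟩ ⟨1,[(29,1),(0,1),(1,0),(1,3),(4,2)]⟩)) (.Q [0,0,0,0,-1,0,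
  0,0,1,1,0,-1] (.p false [0,0,0,0,1] [1] (⟨0,[(24,0)]⟩,⟨0,[(23,0)]⟩) .k 1 (⟨0,[]⟩,⟨0,[]⟩) .k .k)
  (.Q [0,0,1,0,1,0,-1,0,-1,-1,1,1] (.p true [0,0,1] [1,0,0,0,-1] (⟨0,[(32,0)]⟩,⟨0,[(31,0)]⟩) .k 2
  (⟨0,[(24,0)]⟩,⟨0,[(25,0)]⟩) .k (.r 1 ⟨1,[(4,0),(3,0),(4,0)]⟩ ⟨3,[(19,1),(2,2),(0,2),(4,3),(4,0),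
  (7,3)]⟩)) (.Q [0,0,-1,0,1,0,0,0,-1,0,0,1] (.p true [0,0,0,0,1] [] (⟨0,[(26,0)]⟩,⟨0,[(25,0)]⟩) .k
  0 (⟨0,[]⟩,⟨0,[]⟩) .k .k) (.Q [0,0,0,0,0,-1,0,0,0,0,0,1] (.ed false [1,-1,0,0,1] .k) (.I [0,2,0,-1,
  -1] (.S ⟨1,0,[0,1,0,-1],[0,0,0,0,1],[1],(⟨0,[(29,0)]⟩,⟨0,[(28,0)]⟩),⟨0,[(1,0)]⟩,.k,(.r 0 ⟨9,[(0,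
  0),(16,3),(5,1),(8,3),(4,0),(2,1),(2,0)]⟩ ⟨2,[(15,0),(6,0),(3,0),(0,0),(6,0),(10,1)]⟩),⟨false,1,
  ⟨0,[(45,0)]⟩,⟨0,[(47,0)]⟩⟩,⟨true,0,⟨0,[(43,0)]⟩,⟨0,[(42,0)]⟩⟩,⟨true,1,⟨2,[(11,0),(14,0),(0,0),(16,
  0),(0,0)]⟩,⟨0,[(0,0)]⟩⟩,⟨false,1,⟨1,[(26,0),(0,0),(17,0)]⟩,⟨0,[]⟩⟩,[.o ⟨false,(-1),⟨1,[(0,0),(3,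
  1),(32,0),(5,0)]⟩,⟨5,[(2,1),(8,1),(14,3),(10,2),(6,0),(0,1)]⟩⟩,.a ⟨true,(-1),⟨0,[(4,0),(38,0)]⟩,
  ⟨3,[(2,1),(8,0),(14,1),(15,0)]⟩⟩ ⟨false,1,⟨1,[(44,0),(0,0)]⟩,⟨0,[(47,0)]⟩⟩ ⟨true,0,⟨0,[(43,0)]⟩,
  ⟨4,[(11,0),(3,0),(15,0),(2,0)]⟩⟩,.a ⟨true,(-1),⟨0,[(4,0)]⟩,⟨0,[(26,0)]⟩⟩ ⟨true,0,⟨0,[]⟩,⟨0,[(47,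
  0)]⟩⟩ ⟨false,0,⟨0,[(43,0)]⟩,⟨2,[(11,0),(14,0),(0,0),(16,0),(0,0)]⟩⟩,.a ⟨true,(-1),⟨1,[(4,1),(28,
  0),(0,0)]⟩,⟨0,[(2,0)]⟩⟩ ⟨false,1,⟨1,[(44,0),(0,0)]⟩,⟨1,[(33,0),(0,0)]⟩⟩ ⟨true,0,⟨9,[(0,0),(16,3),
  (5,1),(8,3),(4,0),(2,1),(2,0)]⟩,⟨4,[(11,0),(3,0),(15,0),(2,0)]⟩⟩]⟩) (.S ⟨1,0,[0,2,0,-1],[0,0,0,0,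
  1],[1,1],(⟨0,[(29,0)]⟩,⟨0,[(28,0)]⟩),⟨0,[(1,0)]⟩,.k,(.r 0 ⟨10,[(10,1),(1,0),(4,3),(14,3),(4,0),(2,
  2),(2,3)]⟩ ⟨2,[(15,0),(6,0),(3,0),(0,0),(6,0),(10,1)]⟩),⟨true,0,⟨0,[]⟩,⟨0,[(47,0)]⟩⟩,⟨false,0,⟨0,
  [(43,0)]⟩,⟨2,[(0,1),(25,0),(0,0),(14,0)]⟩⟩,⟨false,1,⟨2,[(0,1),(25,0),(0,0),(14,0)]⟩,⟨0,[(43,0)]⟩⟩,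
  ⟨true,0,⟨0,[(47,0)]⟩,⟨0,[]⟩⟩,[.e ⟨false,0,⟨15,[(8,0),(1,1),(6,2),(14,3),(4,0),(2,2),(0,4)]⟩,⟨1,
  [(26,0),(0,0),(17,0)]⟩⟩ ⟨false,0,⟨0,[(40,0),(2,0)]⟩,⟨0,[(0,0)]⟩⟩,.o ⟨false,(-1),⟨0,[(4,0),(8,0),
  (2,0),(0,0),(17,0),(1,0),(1,1)]⟩,⟨6,[(0,3),(1,2),(0,0),(11,0),(6,0),(3,2),(10,2)]⟩⟩,.e ⟨false,0,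
  ⟨0,[]⟩,⟨1,[(26,0),(0,0),(17,0)]⟩⟩ ⟨false,0,⟨0,[(43,0),(3,0)]⟩,⟨0,[(0,0)]⟩⟩,.a ⟨true,(-1),⟨1,[(4,
  1),(28,0),(0,0)]⟩,⟨0,[(2,0)]⟩⟩ ⟨true,0,⟨15,[(8,0),(1,1),(6,2),(14,3),(4,0),(2,2),(0,4)]⟩,⟨1,[(33,
  0),(0,0)]⟩⟩ ⟨false,0,⟨10,[(10,1),(1,0),(4,3),(14,3),(4,0),(2,2),(2,3)]⟩,⟨4,[(11,0),(3,0),(15,0),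
  (2,0),(10,4)]⟩⟩]⟩)) (.Q [0,0,-1,0,1,0,1,0,-1,0,-1,1] (.p false [0,0,1] [0,0,0,0,1] (⟨0,[(35,0)]⟩,
  ⟨0,[(34,0)]⟩) .k 2 (⟨0,[(28,0)]⟩,⟨0,[(27,0)]⟩) .k (.r 0 ⟨1,[(7,0),(3,0),(4,0),(27,1)]⟩ ⟨3,[(22,1),
  (2,2),(0,2),(4,3),(4,0)]⟩)) (.R ⟨0,false,false,false,[0,0,0,0,1],[0,1],[0,1,1],(⟨0,[(29,0)]⟩,⟨0,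
  [(28,0)]⟩),(⟨0,[(39,0)]⟩,⟨0,[(38,0)]⟩),⟨0,[(1,0)]⟩,.k,.k,(.r 0 ⟨10,[(10,1),(1,0),(4,3),(14,3),(4,
  0),(2,2),(2,3)]⟩ ⟨2,[(15,0),(6,0),(3,0),(0,0),(6,0),(10,1)]⟩),(.r 0 ⟨10,[(10,1),(1,0),(4,3),(14,
  3),(4,0),(2,2),(2,3)]⟩ ⟨2,[(15,0),(6,0),(3,0),(0,0),(6,0),(10,1)]⟩),.k,.k,⟨false,0,⟨10,[(10,1),(1,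
  0),(4,3),(14,3),(4,0),(2,2),(2,3)]⟩,⟨2,[(11,0),(14,0),(0,0),(16,0),(0,0)]⟩⟩,⟨true,1,⟨0,[(2,0)]⟩,
  ⟨1,[(4,1),(7,1),(24,0),(5,1),(1,0)]⟩⟩,⟨true,0,⟨1,[(33,0),(0,0)]⟩,⟨15,[(8,0),(1,1),(6,2),(14,3),(4,
  0),(2,2),(0,4)]⟩⟩,⟨false,2,⟨5,[(2,1),(8,1),(14,3),(17,0),(0,4)]⟩,⟨0,[(4,0),(8,0),(2,0),(0,0),(17,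
  0),(1,0),(1,1)]⟩⟩,⟨false,0,⟨0,[]⟩,⟨0,[]⟩⟩,⟨false,0,⟨0,[]⟩,⟨0,[]⟩⟩,[.e ⟨false,0,⟨0,[(47,0)]⟩,⟨1,
  [(44,0),(0,0)]⟩⟩ ⟨false,1,⟨1,[(0,0),(1,0),(5,0),(7,0),(28,0)]⟩,⟨0,[(27,0),(15,0)]⟩⟩,.o ⟨false,1,
  ⟨2,[(11,0),(14,0),(0,0),(16,0),(0,0)]⟩,⟨0,[(13,0),(2,0),(0,0),(17,0),(1,0),(1,1)]⟩⟩,.a ⟨true,(-1),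
  ⟨0,[(4,0)]⟩,⟨0,[(26,0)]⟩⟩ ⟨false,0,⟨1,[(33,0),(0,0)]⟩,⟨1,[(44,0),(0,0)]⟩⟩ ⟨true,1,⟨3,[(2,1),(8,0),
  (14,1),(15,0)]⟩,⟨0,[(4,0),(8,0),(2,0),(0,0),(17,0),(1,0),(1,1)]⟩⟩,.e ⟨true,0,⟨0,[(47,0)]⟩,⟨0,[]⟩⟩
  ⟨true,1,⟨1,[(0,0),(1,0),(5,0),(7,0),(28,0)]⟩,⟨1,[(4,0),(7,0),(7,0),(16,0),(5,2)]⟩⟩]⟩) (.R ⟨0,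
  false,false,true,[0,0,0,0,1],[1,0,0,0,-1],[1,1],(⟨0,[(29,0)]⟩,⟨0,[(28,0)]⟩),(⟨0,[(28,0)]⟩,⟨0,[(29,
  0)]⟩),⟨0,[(1,0)]⟩,.k,.k,(.r 0 ⟨10,[(10,1),(1,0),(4,3),(14,3),(4,0),(2,2),(2,3)]⟩ ⟨2,[(15,0),(6,0),
  (3,0),(0,0),(6,0),(10,1)]⟩),.k,.k,.k,⟨false,0,⟨15,[(8,0),(1,1),(6,2),(14,3),(4,0),(2,2),(0,4)]⟩,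
  ⟨1,[(26,0),(0,0),(17,0)]⟩⟩,⟨true,2,⟨1,[(2,2),(0,0),(9,0),(21,0),(1,0),(1,1)]⟩,⟨0,[(0,1),(9,0)]⟩⟩,
  ⟨true,0,⟨0,[]⟩,⟨0,[(47,0)]⟩⟩,⟨false,3,⟨1,[(2,2),(0,0),(9,0),(21,0),(1,0),(1,1),(5,1)]⟩,⟨20,[(0,
  36),(5,4),(1,5),(1,22),(6,2),(14,8),(4,0),(2,2)]⟩⟩,⟨false,0,⟨0,[]⟩,⟨0,[]⟩⟩,⟨false,0,⟨0,[]⟩,⟨0,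
  []⟩⟩,[.a ⟨true,1,⟨0,[(26,0)]⟩,⟨0,[(4,0)]⟩⟩ ⟨false,0,⟨15,[(8,0),(1,1),(6,2),(14,3),(4,0),(2,2),(0,
  4)]⟩,⟨1,[(26,0),(0,0),(17,0)]⟩⟩ ⟨true,2,⟨1,[(2,2),(0,0),(9,0),(21,0),(1,0),(1,1)]⟩,⟨0,[(0,1),(9,
  0)]⟩⟩,.o ⟨false,2,⟨1,[(26,1),(10,0),(7,0)]⟩,⟨10,[(0,10),(7,2),(1,7),(1,0),(4,1),(14,4),(4,3),(2,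
  0)]⟩⟩,.a ⟨true,(-1),⟨0,[(4,0)]⟩,⟨0,[(26,0)]⟩⟩ ⟨false,0,⟨0,[]⟩,⟨1,[(26,0),(0,0),(17,0)]⟩⟩ ⟨true,2,
  ⟨1,[(2,2),(0,0),(9,0),(21,0),(1,0),(1,1)]⟩,⟨20,[(0,36),(5,4),(1,5),(1,22),(6,2),(14,8),(4,0),(2,
  2)]⟩⟩,.a ⟨true,(-1),⟨1,[(0,0),(3,0),(18,0),(10,0)]⟩,⟨0,[(2,0)]⟩⟩ ⟨true,0,⟨15,[(8,0),(1,1),(6,2),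
  (14,3),(4,0),(2,2),(0,4)]⟩,⟨1,[(33,0),(0,0)]⟩⟩ ⟨false,3,⟨1,[(2,1),(23,1),(10,0),(7,0)]⟩,⟨0,[(0,1),
  (9,0)]⟩⟩]⟩))) (.Q [0,0,0,0,0,-1,0,0,0,0,0,1] (.ed false [1,-1,0,0,1] .k) (.S ⟨1,0,[0,1,0,-1],[0,0,
  0,0,1],[1,2],(⟨0,[(28,0)]⟩,⟨0,[(27,0)]⟩),⟨0,[(0,0)]⟩,.k,(.r 0 ⟨10,[(9,1),(1,0),(4,3),(14,3),(4,0),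
  (2,2),(2,3)]⟩ ⟨2,[(14,0),(6,0),(3,0),(0,0),(6,0),(10,1)]⟩),⟨false,0,⟨0,[]⟩,⟨1,[(25,0),(0,0),(17,
  0)]⟩⟩,⟨true,0,⟨0,[(42,0)]⟩,⟨0,[(41,0)]⟩⟩,⟨true,0,⟨0,[(41,0)]⟩,⟨0,[(42,0)]⟩⟩,⟨false,1,⟨1,[(25,0),
  (0,0),(17,0)]⟩,⟨0,[]⟩⟩,[.o ⟨false,(-1),⟨10,[(1,10),(7,1),(1,0),(4,3),(14,3),(4,0),(2,2),(2,3)]⟩,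
  ⟨2,[(2,2),(6,1),(0,0),(4,0),(0,0),(19,0),(3,0),(3,1)]⟩⟩,.a ⟨true,(-1),⟨0,[(3,0),(38,0)]⟩,⟨1,[(2,
  0),(4,0),(1,0),(5,0),(9,0),(18,0)]⟩⟩ ⟨false,0,⟨15,[(7,0),(1,1),(6,2),(14,3),(4,0),(2,2),(0,4)]⟩,
  ⟨1,[(25,0),(0,0),(17,0)]⟩⟩ ⟨true,0,⟨0,[(42,0)]⟩,⟨4,[(10,0),(3,0),(15,0),(2,0)]⟩⟩,.e ⟨false,0,⟨0,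
  [(46,0)]⟩,⟨0,[(44,0)]⟩⟩ ⟨false,0,⟨0,[(42,0)]⟩,⟨2,[(10,0),(14,0),(0,0),(16,0),(0,0)]⟩⟩,.o ⟨false,
  (-1),⟨0,[(1,0)]⟩,⟨1,[(25,1),(10,0),(6,0)]⟩⟩]⟩) (.R ⟨0,false,false,true,[0,0,0,0,1],[0,1],[],(⟨0,
  [(28,0)]⟩,⟨0,[(27,0)]⟩),(⟨0,[(38,0)]⟩,⟨0,[(37,0)]⟩),⟨0,[(0,0)]⟩,.k,.k,(.r 0 ⟨10,[(9,1),(1,0),(4,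
  3),(14,3),(4,0),(2,2),(2,3)]⟩ ⟨2,[(14,0),(6,0),(3,0),(0,0),(6,0),(10,1)]⟩),(.r 0 ⟨10,[(9,1),(1,0),
  (4,3),(14,3),(4,0),(2,2),(2,3)]⟩ ⟨2,[(14,0),(6,0),(3,0),(0,0),(6,0),(10,1)]⟩),.k,.k,⟨true,1,⟨1,
  [(42,1),(0,0),(0,0)]⟩,⟨0,[(11,0)]⟩⟩,⟨false,2,⟨0,[(25,0),(17,0)]⟩,⟨0,[(1,0)]⟩⟩,⟨false,1,⟨0,[(44,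
  0)]⟩,⟨0,[(46,0)]⟩⟩,⟨true,1,⟨1,[(2,0),(4,0),(1,0),(5,0),(9,0),(18,0)]⟩,⟨10,[(1,10),(7,1),(1,0),(4,
  3),(14,3),(4,0),(2,2),(2,3)]⟩⟩,⟨false,0,⟨0,[]⟩,⟨0,[]⟩⟩,⟨false,0,⟨0,[]⟩,⟨0,[]⟩⟩,[.o ⟨false,0,⟨0,
  [(41,0)]⟩,⟨1,[(36,0),(5,1),(1,0)]⟩⟩,.a ⟨true,0,⟨3,[(4,0),(5,0),(0,0),(5,0),(11,1),(5,0),(1,1)]⟩,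
  ⟨0,[(42,0)]⟩⟩ ⟨false,1,⟨1,[(43,0),(0,0)]⟩,⟨0,[(46,0)]⟩⟩ ⟨true,1,⟨1,[(2,0),(4,0),(1,0),(5,0),(9,0),
  (18,0)]⟩,⟨0,[(1,0),(40,0)]⟩⟩,.e ⟨false,1,⟨1,[(25,0),(0,0),(17,0)]⟩,⟨0,[]⟩⟩ ⟨false,1,⟨1,[(2,0),(4,
  0),(1,0),(5,0),(9,0),(18,0)]⟩,⟨1,[(1,0),(3,0),(36,1),(1,0)]⟩⟩,.o ⟨false,(-1),⟨0,[(1,0)]⟩,⟨1,[(25,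
  1),(10,0),(6,0)]⟩⟩]⟩))) (.Q [0,0,0,0,-1,0,-1,0,1,0,1,-1] (.p true [0,0,1] [0,0,0,0,1] (⟨0,[(33,
  0)]⟩,⟨0,[(32,0)]⟩) .k 2 (⟨0,[(26,0)]⟩,⟨0,[(25,0)]⟩) .k (.r 0 ⟨1,[(5,0),(3,0),(4,0),(27,1)]⟩ ⟨3,
  [(20,1),(2,2),(0,2),(4,3),(4,0)]⟩)) (.K ⟨0,[0,0,0,0,1],(-1),(-1),(⟨0,[(27,0)]⟩,⟨0,[(26,0)]⟩),.k,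
  (.r 0 ⟨10,[(8,1),(1,0),(4,3),(14,3),(4,0),(2,2),(2,3)]⟩ ⟨2,[(13,0),(6,0),(3,0),(0,0),(6,0),(10,
  1)]⟩),(.r 0 ⟨1,[(19,0),(0,0),(11,0)]⟩ ⟨1,[(41,1),(0,0),(0,0)]⟩),.k,.k,[⟨0,[(0,0)]⟩,⟨1,[(24,1),(6,
  0),(0,0)]⟩,⟨0,[(24,0)]⟩,⟨12,[(0,2),(0,2),(8,4),(7,6),(16,4),(2,6),(2,4)]⟩]⟩) (.Q [0,0,0,0,0,1,0,0,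
  0,0,0,-1] (.ed true [1,-1,0,0,1] .k) (.R ⟨0,false,false,false,[0,0,0,0,1],[0,0,1],[],(⟨0,[(28,
  0)]⟩,⟨0,[(27,0)]⟩),(⟨0,[(35,0)]⟩,⟨0,[(34,0)]⟩),⟨0,[(0,0)]⟩,.k,.k,(.r 0 ⟨10,[(9,1),(1,0),(4,3),(14,
  3),(4,0),(2,2),(2,3)]⟩ ⟨2,[(14,0),(6,0),(3,0),(0,0),(6,0),(10,1)]⟩),.k,.k,.k,⟨false,1,⟨3,[(9,1),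
  (21,3),(4,0),(6,0),(0,1)]⟩,⟨4,[(10,1),(5,2),(13,1),(2,1)]⟩⟩,⟨true,1,⟨0,[(1,0)]⟩,⟨1,[(2,1),(8,1),
  (5,3),(18,0),(5,1),(1,0)]⟩⟩,⟨false,1,⟨0,[(44,0)]⟩,⟨0,[(46,0)]⟩⟩,⟨true,1,⟨1,[(1,1),(5,0),(3,0),(4,
  0),(27,1)]⟩,⟨11,[(2,3),(0,5),(3,0),(3,4),(4,2),(2,1),(11,15),(4,5)]⟩⟩,⟨false,0,⟨0,[]⟩,⟨0,[]⟩⟩,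
  ⟨false,0,⟨0,[]⟩,⟨0,[]⟩⟩,[.o ⟨false,0,⟨2,[(7,0),(8,0),(4,0),(10,1),(11,0)]⟩,⟨1,[(31,1),(4,0),(7,
  0)]⟩⟩,.a ⟨true,0,⟨1,[(7,0),(3,0),(4,0),(5,0),(11,0),(0,0),(8,1)]⟩,⟨0,[(31,0)]⟩⟩ ⟨false,1,⟨1,[(43,
  0),(0,0)]⟩,⟨0,[(46,0)]⟩⟩ ⟨true,1,⟨1,[(1,1),(5,0),(3,0),(4,0),(27,1)]⟩,⟨1,[(2,1),(8,1),(5,1),(13,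
  1),(4,0),(5,1),(1,0)]⟩⟩,.e ⟨false,1,⟨1,[(25,0),(0,0),(17,0)]⟩,⟨0,[]⟩⟩ ⟨false,1,⟨1,[(1,1),(5,0),(3,
  0),(4,0),(27,1)]⟩,⟨1,[(3,1),(27,1),(4,0),(7,0)]⟩⟩,.o ⟨false,(-1),⟨1,[(2,1),(8,1),(5,1),(18,0),(5,
  1),(1,0)]⟩,⟨1,[(25,1),(10,0),(6,0)]⟩⟩]⟩) (.S ⟨1,0,[0,1,0,-1],[0,0,0,0,1],[1,2],(⟨0,[(28,0)]⟩,⟨0,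
  [(27,0)]⟩),⟨0,[(0,0)]⟩,.k,(.r 0 ⟨10,[(9,1),(1,0),(4,3),(14,3),(4,0),(2,2),(2,3)]⟩ ⟨2,[(14,0),(6,
  0),(3,0),(0,0),(6,0),(10,1)]⟩),⟨false,0,⟨0,[]⟩,⟨1,[(25,0),(0,0),(17,0)]⟩⟩,⟨true,0,⟨0,[(42,0)]⟩,⟨0,
  [(41,0)]⟩⟩,⟨true,0,⟨0,[(41,0)]⟩,⟨0,[(42,0)]⟩⟩,⟨false,1,⟨1,[(25,0),(0,0),(17,0)]⟩,⟨0,[]⟩⟩,[.e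
  ⟨false,0,⟨0,[(39,0)]⟩,⟨0,[(44,0)]⟩⟩ ⟨false,0,⟨10,[(9,1),(1,0),(4,3),(14,3),(4,0),(2,2),(2,3)]⟩,⟨2,
  [(10,0),(14,0),(0,0),(16,0),(0,0)]⟩⟩,.a ⟨true,(-1),⟨0,[(3,0),(38,0)]⟩,⟨1,[(1,0),(5,0),(7,0),(9,0),
  (18,0)]⟩⟩ ⟨false,0,⟨15,[(7,0),(1,1),(6,2),(14,3),(4,0),(2,2),(0,4)]⟩,⟨1,[(25,0),(0,0),(17,0)]⟩⟩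
  ⟨true,0,⟨0,[(42,0)]⟩,⟨4,[(10,0),(3,0),(15,0),(2,0)]⟩⟩,.e ⟨false,0,⟨0,[(46,0)]⟩,⟨0,[(44,0)]⟩⟩
  ⟨false,0,⟨0,[(42,0)]⟩,⟨2,[(10,0),(14,0),(0,0),(16,0),(0,0)]⟩⟩,.o ⟨false,(-1),⟨1,[(2,1),(8,1),(5,
  1),(18,0),(5,1),(1,0)]⟩,⟨1,[(25,1),(10,0),(6,0)]⟩⟩]⟩)))) (.K ⟨0,[1,0,0,0,-1],1,1,(⟨0,[(24,0)]⟩,⟨0,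
  [(25,0)]⟩),.k,(.r (-1) ⟨1,[(39,1),(0,0),(0,0)]⟩ ⟨1,[(17,0),(0,0),(11,0)]⟩),(.r (-1) ⟨2,[(11,0),(6,
  0),(3,0),(0,0),(6,0),(10,1)]⟩ ⟨10,[(6,1),(1,0),(4,3),(14,3),(4,0),(2,2),(2,3)]⟩),.k,.k,[⟨0,[(0,0),
  (13,0)]⟩,⟨0,[(2,0),(6,0),(4,0),(16,0),(3,1)]⟩,⟨0,[(16,0),(26,0)]⟩,⟨0,[(0,0)]⟩]⟩))))))))))) (.I [1,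
  0,1,1] (.I [1,0,-1,0,0,0,0,1] (.I [0,1,0,0,0,0,0,-1] (.S ⟨1,0,[0,1,0,-1,0,0,0,1],[0,0,1],[1,0,0,0,
  0,0,0,1],(⟨0,[(25,0)]⟩,⟨0,[(24,0)]⟩),⟨0,[(14,0)]⟩,.k,.k,⟨true,0,⟨0,[]⟩,⟨0,[(36,0)]⟩⟩,⟨false,0,⟨0,
  [(32,0)]⟩,⟨0,[(31,0),(2,0)]⟩⟩,⟨false,1,⟨0,[(31,0),(2,0)]⟩,⟨0,[(32,0)]⟩⟩,⟨true,0,⟨0,[(36,0)]⟩,⟨0,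
  []⟩⟩,[.e ⟨false,0,⟨0,[(1,0)]⟩,⟨1,[(0,1),(14,0),(0,0),(17,0)]⟩⟩ ⟨false,0,⟨6,[(6,3),(4,0),(8,1),(2,
  2),(5,1)]⟩,⟨11,[(0,5),(2,3),(0,5),(8,1),(0,5),(4,3),(6,2),(7,8)]⟩⟩,.o ⟨false,0,⟨3,[(1,1),(4,1),
  (15,4),(0,0)]⟩,⟨1,[(5,1),(20,0),(7,0)]⟩⟩,.a ⟨true,0,⟨1,[(12,0),(11,0),(0,0)]⟩,⟨0,[(7,0)]⟩⟩ ⟨true,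
  0,⟨1,[(1,1),(20,0),(0,0)]⟩,⟨0,[(0,0)]⟩⟩ ⟨false,0,⟨3,[(1,1),(4,1),(15,2),(0,2)]⟩,⟨11,[(0,5),(2,3),
  (0,5),(8,1),(0,5),(4,3),(6,2),(7,8)]⟩⟩,.o ⟨false,0,⟨0,[(22,0)]⟩,⟨1,[(7,1),(18,0),(6,0)]⟩⟩]⟩) (.S
  ⟨1,0,[0,0,0,-1,0,0,0,1],[0,0,1],[1,1,0,0,0,0,0,1],(⟨0,[(25,0)]⟩,⟨0,[(24,0)]⟩),⟨0,[(14,0)]⟩,.k,.k,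
  ⟨false,0,⟨0,[]⟩,⟨1,[(15,0),(0,0),(17,0)]⟩⟩,⟨true,0,⟨0,[(32,0)]⟩,⟨0,[(31,0)]⟩⟩,⟨true,0,⟨0,[(31,
  0)]⟩,⟨0,[(32,0)]⟩⟩,⟨false,1,⟨1,[(15,0),(0,0),(17,0)]⟩,⟨0,[]⟩⟩,[.o ⟨false,0,⟨7,[(0,1),(5,3),(13,1),
  (1,6),(0,0)]⟩,⟨1,[(5,1),(20,0),(7,0)]⟩⟩,.a ⟨true,0,⟨1,[(0,1),(11,0),(11,0),(0,0),(6,1)]⟩,⟨0,[(5,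
  0)]⟩⟩ ⟨false,0,⟨0,[(1,0)]⟩,⟨3,[(12,1),(2,0),(0,0),(4,3),(4,0),(7,1)]⟩⟩ ⟨true,0,⟨0,[(0,0),(31,0)]⟩,
  ⟨0,[(10,0)]⟩⟩,.e ⟨false,0,⟨2,[(0,0),(0,0),(18,0),(2,0)]⟩,⟨5,[(3,3),(0,5),(8,1),(0,5),(4,3),(6,2),
  (5,11),(1,2)]⟩⟩ ⟨false,0,⟨0,[(0,0),(31,0)]⟩,⟨1,[(10,1),(22,0),(0,0)]⟩⟩,.o ⟨false,0,⟨0,[(22,0)]⟩,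
  ⟨1,[(7,1),(18,0),(6,0)]⟩⟩]⟩)) (.S ⟨1,0,[0,0,-1,-2],[1,-1],[1,1],(⟨0,[(26,0)]⟩,⟨0,[(27,0)]⟩),⟨0,
  [(12,0),(0,0)]⟩,.k,(.x (-1) ⟨0,[(21,0),(0,0),(2,0),(0,1)]⟩ ⟨0,[(2,1),(10,1),(7,1)]⟩),⟨false,0,⟨0,
  [(1,0)]⟩,⟨1,[(31,1),(0,0),(0,0)]⟩⟩,⟨true,0,⟨0,[(31,0)]⟩,⟨0,[(30,0)]⟩⟩,⟨true,0,⟨1,[(3,0),(2,0),(3,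
  0),(19,0)]⟩,⟨0,[(0,0),(4,0)]⟩⟩,⟨false,1,⟨1,[(14,0),(0,0),(17,0)]⟩,⟨0,[]⟩⟩,[.a ⟨true,0,⟨0,[(31,
  1)]⟩,⟨2,[(1,5),(0,1),(9,0),(0,2),(4,1)]⟩⟩ ⟨false,0,⟨3,[(0,0),(4,0),(22,0),(0,1)]⟩,⟨1,[(14,0),(0,
  0),(17,0)]⟩⟩ ⟨true,0,⟨0,[(0,0),(4,0)]⟩,⟨0,[(1,1)]⟩⟩,.o ⟨false,1,⟨1,[(25,0),(5,3),(1,0)]⟩,⟨0,[(1,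
  0),(27,0)]⟩⟩,.a ⟨true,0,⟨1,[(21,0),(0,0)]⟩,⟨2,[(2,0),(15,0),(5,0),(1,1)]⟩⟩ ⟨false,0,⟨0,[]⟩,⟨1,
  [(14,0),(0,0),(17,0)]⟩⟩ ⟨true,0,⟨0,[(0,0),(4,0)]⟩,⟨1,[(3,0),(2,0),(3,0),(19,0)]⟩⟩,.a ⟨true,0,⟨0,
  [(21,0),(0,0)]⟩,⟨2,[(2,1),(9,0),(0,2),(4,1)]⟩⟩ ⟨true,0,⟨3,[(0,0),(4,0),(22,0),(0,1)]⟩,⟨1,[(21,0),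
  (0,0)]⟩⟩ ⟨false,1,⟨1,[(0,1),(4,1),(26,0),(0,0)]⟩,⟨0,[(1,1)]⟩⟩]⟩)) (.S ⟨1,0,[0,0,1,0,0,0,0,-1],[1,
  1,-1],[0,1,1,0,0,0,0,-1],(⟨0,[(22,0),(3,0)]⟩,⟨0,[(12,0)]⟩),⟨0,[(22,0)]⟩,.k,.k,⟨false,0,⟨0,[(30,
  0)]⟩,⟨0,[(29,0),(2,0)]⟩⟩,⟨true,0,⟨0,[(30,0)]⟩,⟨0,[(29,0)]⟩⟩,⟨true,0,⟨0,[(34,0)]⟩,⟨0,[]⟩⟩,⟨false,1,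
  ⟨1,[(13,0),(0,0),(17,0)]⟩,⟨0,[]⟩⟩,[.e ⟨false,0,⟨0,[(0,0),(7,0)]⟩,⟨5,[(4,1),(0,3),(3,3),(21,0),(0,
  4)]⟩⟩ ⟨false,0,⟨0,[(0,1),(1,0)]⟩,⟨7,[(4,1),(4,3),(8,1),(2,5),(9,4),(0,2)]⟩⟩,.o ⟨false,1,⟨1,[(0,3),
  (1,1),(2,1),(18,0),(7,0)]⟩,⟨0,[(18,0)]⟩⟩,.o ⟨false,1,⟨1,[(5,1),(18,0),(6,0)]⟩,⟨0,[(20,0)]⟩⟩,.a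
  ⟨true,0,⟨0,[(5,0)]⟩,⟨1,[(10,0),(11,0),(0,0)]⟩⟩ ⟨false,0,⟨0,[(0,1),(1,0)]⟩,⟨7,[(4,1),(4,3),(8,1),
  (2,5),(9,0),(0,6)]⟩⟩ ⟨true,0,⟨0,[(0,1),(1,0)]⟩,⟨6,[(4,1),(4,3),(8,0),(2,4),(5,0)]⟩⟩]⟩)))) (.R ⟨2,
  true,false,false,[0,1],[0,0,1],[0,0,1],(⟨0,[]⟩,⟨0,[]⟩),(⟨0,[(20,0)]⟩,⟨0,[(19,0)]⟩),⟨0,[]⟩,.k,.k,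
  .k,.k,.k,.k,⟨false,1,⟨3,[(7,1),(2,0),(0,0),(4,3),(4,0),(7,1)]⟩,⟨0,[(0,0),(1,0),(22,0)]⟩⟩,⟨true,0,
  ⟨0,[(17,0)]⟩,⟨0,[(2,0)]⟩⟩,⟨true,0,⟨0,[(27,0)]⟩,⟨0,[(26,0)]⟩⟩,⟨false,0,⟨0,[(0,0)]⟩,⟨0,[(16,0),(9,
  0),(2,0)]⟩⟩,⟨false,1,⟨1,[(10,0),(0,0),(17,0)]⟩,⟨0,[]⟩⟩,⟨true,0,⟨1,[(0,0),(5,0)]⟩,⟨0,[(16,0)]⟩⟩,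
  []⟩)))

theorem ok101 : chk K t101 r4 = true := by decide +kernel

noncomputable def t103 : Tre :=
  (.R ⟨2,true,false,true,[0,1],[1,0,0,0,-1],[0,0,1],(⟨0,[]⟩,⟨0,[]⟩),(⟨0,[(9,0)]⟩,⟨0,[(10,0)]⟩),⟨0,
  []⟩,.k,.k,.k,(.r 0 ⟨1,[(2,0),(0,0),(11,0)]⟩ ⟨1,[(24,1),(0,0),(0,0)]⟩),.k,.k,⟨true,0,⟨1,[(14,0),(0,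
  0)]⟩,⟨0,[]⟩⟩,⟨false,1,⟨0,[(0,0),(22,0)]⟩,⟨1,[(1,1),(23,0),(0,0)]⟩⟩,⟨true,0,⟨0,[(24,0)]⟩,⟨0,[(23,
  0)]⟩⟩,⟨false,1,⟨0,[(0,0)]⟩,⟨0,[(1,0),(21,0),(2,0)]⟩⟩,⟨false,1,⟨1,[(7,0),(0,0),(17,0)]⟩,⟨0,[]⟩⟩,
  ⟨true,1,⟨0,[(0,0),(22,0)]⟩,⟨0,[(1,0)]⟩⟩,[]⟩)

theorem ok103 : chk K t103 r3 = true := by decide +kernel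

noncomputable def t105 : Tre :=
  (.Q [0,1,0,-1,0,0,0,0,0,-1] (.pp true [-1,1]) (.Q [0,-1,0,0,0,0,0,0,0,1] (.pp false [-1,1]) (.R
  ⟨2,false,false,true,[0,1],[1,0,0,0,-1],[0,0,1],(⟨0,[]⟩,⟨0,[]⟩),(⟨0,[(10,0)]⟩,⟨0,[(11,0)]⟩),⟨0,[]⟩,
  .k,.k,.k,(.r 0 ⟨1,[(3,0),(0,0),(11,0)]⟩ ⟨1,[(25,1),(0,0),(0,0)]⟩),.k,.k,⟨true,0,⟨1,[(15,0),(0,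
  0)]⟩,⟨0,[]⟩⟩,⟨false,1,⟨2,[(1,0),(0,1),(5,0),(15,0)]⟩,⟨0,[(0,0),(8,0),(13,0),(1,0)]⟩⟩,⟨true,0,⟨0,
  [(25,0)]⟩,⟨0,[(24,0)]⟩⟩,⟨false,1,⟨0,[(2,0),(22,0)]⟩,⟨0,[(0,0),(8,0),(14,0)]⟩⟩,⟨false,1,⟨1,[(8,0),
  (0,0),(17,0)]⟩,⟨0,[]⟩⟩,⟨false,1,⟨0,[(2,0)]⟩,⟨4,[(0,3),(4,0),(3,4),(6,1),(5,1)]⟩⟩,[.o ⟨false,1,⟨2,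
  [(1,0),(0,1),(5,0),(15,0)]⟩,⟨0,[(9,0)]⟩⟩,.o ⟨false,1,⟨0,[(2,0)]⟩,⟨0,[(9,0),(19,0)]⟩⟩,.a ⟨true,0,
  ⟨0,[(0,0),(22,0),(1,0)]⟩,⟨1,[(15,0),(0,0)]⟩⟩ ⟨true,0,⟨1,[(15,0),(0,0)]⟩,⟨0,[(23,0),(1,0)]⟩⟩
  ⟨false,1,⟨1,[(2,1),(12,0),(0,0)]⟩,⟨0,[(0,0),(8,0),(13,0),(1,0)]⟩⟩,.e ⟨false,1,⟨1,[(8,0),(0,0),(17,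
  0)]⟩,⟨0,[]⟩⟩ ⟨false,1,⟨0,[(2,0)]⟩,⟨4,[(0,3),(4,0),(3,4),(6,1),(5,1)]⟩⟩]⟩) (.Q [0,0,-1,0,0,0,0,0,0,
  1] (.pp false [-1,1]) (.Q [0,0,0,1,0,0,0,0,1,1,0,-1] (.p false [0,0,0,0,1] [1] (⟨0,[(12,0)]⟩,⟨0,
  [(11,0)]⟩) .k 1 (⟨0,[]⟩,⟨0,[]⟩) .k .k) (.R ⟨2,false,false,true,[0,1],[1,0,0,0,-1],[0,0,1],(⟨0,[]⟩,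
  ⟨0,[]⟩),(⟨0,[(12,0)]⟩,⟨0,[(13,0)]⟩),⟨0,[]⟩,.k,.k,.k,(.r 0 ⟨1,[(5,0),(0,0),(11,0)]⟩ ⟨1,[(27,1),(0,
  0),(0,0)]⟩),.k,.k,⟨true,0,⟨1,[(17,0),(0,0)]⟩,⟨0,[]⟩⟩,⟨false,1,⟨1,[(2,0),(1,0),(5,0)]⟩,⟨0,[(1,0),
  (9,0)]⟩⟩,⟨true,0,⟨0,[(27,0)]⟩,⟨0,[(26,0)]⟩⟩,⟨false,1,⟨0,[(4,0),(22,0)]⟩,⟨0,[(0,0)]⟩⟩,⟨false,1,⟨1,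
  [(10,0),(0,0),(17,0)]⟩,⟨0,[]⟩⟩,⟨false,1,⟨0,[(4,0)]⟩,⟨0,[(0,0),(26,0)]⟩⟩,[.o ⟨false,1,⟨1,[(2,0),(1,
  0),(5,0)]⟩,⟨0,[(11,0)]⟩⟩,.o ⟨false,1,⟨0,[(4,0)]⟩,⟨0,[(11,0),(19,0)]⟩⟩,.a ⟨true,0,⟨0,[(1,0)]⟩,⟨1,
  [(17,0),(0,0)]⟩⟩ ⟨true,0,⟨1,[(17,0),(0,0)]⟩,⟨1,[(1,0),(1,0),(21,0)]⟩⟩ ⟨false,1,⟨1,[(4,1),(12,0),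
  (0,0)]⟩,⟨0,[(1,0),(9,0)]⟩⟩,.e ⟨false,1,⟨1,[(10,0),(0,0),(17,0)]⟩,⟨0,[]⟩⟩ ⟨false,1,⟨0,[(4,0)]⟩,⟨0,
  [(0,0),(26,0)]⟩⟩]⟩) (.Q [0,0,-2,0,0,0,0,0,0,1] (.pp false [-1,1]) (.I [0,1,-1,-2,-1] (.S ⟨1,2,[],
  [1,-1],[1],(⟨0,[(24,0)]⟩,⟨0,[(25,0)]⟩),⟨0,[(10,0),(0,0)]⟩,.k,(.r 0 ⟨1,[(0,1),(29,0),(0,0)]⟩ ⟨0,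
  [(7,0),(0,0),(11,0),(10,0)]⟩),⟨false,1,⟨1,[(7,0),(0,0),(11,0),(10,1)]⟩,⟨3,[(0,1),(29,0),(0,0)]⟩⟩,
  ⟨true,0,⟨0,[(28,0)]⟩,⟨0,[(29,0)]⟩⟩,⟨true,1,⟨1,[(7,0),(0,0),(11,0),(7,1),(2,1)]⟩,⟨0,[(0,0)]⟩⟩,
  ⟨false,1,⟨0,[(28,1),(2,0)]⟩,⟨1,[(0,1),(18,0),(0,0),(10,1)]⟩⟩,[.o ⟨false,0,⟨0,[(4,0)]⟩,⟨1,[(12,0),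
  (0,0),(17,0)]⟩⟩,.fo,.e ⟨true,0,⟨0,[]⟩,⟨0,[(33,0)]⟩⟩ ⟨true,0,⟨10,[(0,0),(0,1),(21,0),(2,3),(0,1)]⟩,
  ⟨1,[(19,0),(0,0)]⟩⟩,.a ⟨true,0,⟨0,[(19,0),(0,0)]⟩,⟨0,[(1,0)]⟩⟩ ⟨false,1,⟨1,[(30,0),(0,0)]⟩,⟨1,
  [(19,0),(0,0)]⟩⟩ ⟨true,0,⟨10,[(0,2),(0,5),(21,2),(2,0),(0,5)]⟩,⟨0,[(19,0),(0,0)]⟩⟩]⟩) (.Q [0,1,0,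
  -2,-1,0,0,0,1,0,0,-1] (.p false [0,0,0,0,1] [] (⟨0,[(15,0)]⟩,⟨0,[(14,0)]⟩) .k 0 (⟨0,[]⟩,⟨0,[]⟩)
  .k .k) (.R ⟨1,false,false,true,[1,-1],[1,0,0,0,-1],[1],(⟨0,[(25,0)]⟩,⟨0,[(26,0)]⟩),(⟨0,[(15,0)]⟩,
  ⟨0,[(16,0)]⟩),⟨0,[(11,0),(0,0)]⟩,.k,.k,(.r 0 ⟨2,[(0,1),(1,1),(0,1),(27,0),(0,0)]⟩ ⟨4,[(1,3),(6,1),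
  (4,0),(0,0),(3,1),(1,0),(0,2)]⟩),(.r 0 ⟨16,[(0,6),(1,2),(0,2),(9,3),(13,4),(3,2)]⟩ ⟨3,[(1,1),(11,
  0),(0,0),(5,0),(0,0),(10,0)]⟩),(.r 0 ⟨16,[(0,12),(1,7),(0,7),(9,4),(13,1),(3,7)]⟩ ⟨1,[(1,1),(18,
  0),(0,0)]⟩),.k,⟨true,0,⟨0,[]⟩,⟨1,[(20,0),(0,0)]⟩⟩,⟨false,1,⟨4,[(2,3),(4,3),(5,0),(13,1)]⟩,⟨1,[(14,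
  1),(5,0),(0,0)]⟩⟩,⟨false,1,⟨3,[(1,1),(11,0),(0,0),(5,0),(0,0),(10,0)]⟩,⟨5,[(0,1),(1,1),(0,1),(27,
  0),(0,0)]⟩⟩,⟨false,1,⟨0,[(1,0),(1,0),(0,0)]⟩,⟨3,[(0,1),(12,0),(0,2),(17,0)]⟩⟩,⟨false,1,⟨0,[(1,
  0)]⟩,⟨5,[(0,1),(1,1),(0,1),(26,5),(0,0),(0,0)]⟩⟩,⟨true,1,⟨0,[(1,0),(1,0),(0,0),(24,0)]⟩,⟨0,[(0,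
  0)]⟩⟩,[.o ⟨false,1,⟨3,[(3,0),(3,0),(5,1),(10,0),(4,0)]⟩,⟨0,[(14,0)]⟩⟩,.o ⟨false,1,⟨0,[(7,0)]⟩,⟨0,
  [(14,0),(19,0)]⟩⟩,.a ⟨true,0,⟨1,[(20,0),(0,0)]⟩,⟨0,[(4,0)]⟩⟩ ⟨true,0,⟨0,[]⟩,⟨0,[(34,0)]⟩⟩ ⟨false,
  1,⟨0,[(4,0),(2,0)]⟩,⟨1,[(14,1),(5,0),(0,0)]⟩⟩,.e ⟨false,1,⟨1,[(31,0),(0,0)]⟩,⟨1,[(20,0),(0,0)]⟩⟩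
  ⟨false,1,⟨0,[(2,0),(4,0)]⟩,⟨0,[(14,0),(5,0),(0,0)]⟩⟩]⟩) (.I [0,-1,-1,-2] (.S ⟨1,0,[0,1,-1,-2],[1,
  -1],[1,1],(⟨0,[(26,0)]⟩,⟨0,[(27,0)]⟩),⟨0,[(12,0),(0,0)]⟩,.k,(.r 0 ⟨2,[(0,2),(2,0),(2,0),(21,0)]⟩
  ⟨4,[(2,3),(6,1),(4,0),(0,0),(3,1),(1,0),(0,2)]⟩),⟨true,0,⟨1,[(9,0),(0,0),(11,0)]⟩,⟨5,[(0,2),(2,0),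
  (2,0),(21,0)]⟩⟩,⟨false,0,⟨0,[(31,0)]⟩,⟨3,[(2,1),(29,0),(0,0)]⟩⟩,⟨false,1,⟨0,[(2,0),(32,0)]⟩,⟨0,
  [(0,0)]⟩⟩,⟨true,0,⟨0,[(35,0)]⟩,⟨0,[]⟩⟩,[.o ⟨false,0,⟨0,[(7,0),(23,0)]⟩,⟨0,[(1,0),(13,0)]⟩⟩,.o
  ⟨false,0,⟨3,[(0,1),(3,1),(2,1),(7,1),(5,0),(0,0)]⟩,⟨6,[(2,5),(25,1),(0,1),(2,0)]⟩⟩,.e ⟨false,0,⟨0,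
  []⟩,⟨1,[(14,0),(0,0),(17,0)]⟩⟩ ⟨false,0,⟨2,[(0,1),(27,0),(2,1)]⟩,⟨0,[(2,0)]⟩⟩,.a ⟨true,0,⟨0,[(21,
  0),(0,0)]⟩,⟨0,[(3,0)]⟩⟩ ⟨true,0,⟨2,[(3,0),(2,0),(21,0)]⟩,⟨1,[(21,0),(0,0)]⟩⟩ ⟨false,0,⟨2,[(0,2),
  (2,0),(2,0),(21,0)]⟩,⟨1,[(2,1),(18,0),(0,0)]⟩⟩]⟩) (.Q [0,0,0,0,0,-1,0,0,0,1,0,-1] (.ed true [0,1,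
  0,0,1] .k) (.Q [0,0,1,0,0,0,0,0,-1,0,0,1] (.p true [0,0,0,0,1] [] (⟨0,[(18,0)]⟩,⟨0,[(17,0)]⟩) .k
  0 (⟨0,[]⟩,⟨0,[]⟩) .k .k) (.S ⟨1,3,[],[1,0,0,0,-1],[0,-1,0,-1],(⟨0,[(18,0)]⟩,⟨0,[(19,0)]⟩),⟨0,[(1,
  0)]⟩,.k,(.r (-1) ⟨1,[(33,1),(0,0),(0,0)]⟩ ⟨2,[(2,0),(8,0),(9,0),(2,0)]⟩),⟨true,0,⟨0,[(33,0)]⟩,⟨4,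
  [(2,1),(27,0),(0,0)]⟩⟩,⟨false,0,⟨2,[(7,1),(5,0),(3,2),(6,1)]⟩,⟨0,[(10,0)]⟩⟩,⟨false,1,⟨1,[(16,0),
  (0,0),(17,0)]⟩,⟨0,[]⟩⟩,⟨true,0,⟨3,[(2,1),(4,2),(5,0),(3,3),(6,1),(5,0)]⟩,⟨0,[(6,0)]⟩⟩,[.e ⟨false,
  1,⟨1,[(33,1),(0,0),(0,0)]⟩,⟨4,[(2,1),(27,0),(0,0)]⟩⟩ ⟨false,0,⟨0,[(7,0),(9,0)]⟩,⟨23,[(2,0),(0,2),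
  (2,7),(9,12),(10,7),(2,0)]⟩⟩,.o ⟨false,1,⟨1,[(16,0),(0,0),(17,0)]⟩,⟨0,[(8,0)]⟩⟩,.o ⟨false,1,⟨23,
  [(2,0),(0,2),(2,7),(9,12),(10,7),(2,0)]⟩,⟨0,[(17,0)]⟩⟩,.a ⟨true,0,⟨0,[(0,0)]⟩,⟨0,[(7,0),(9,0)]⟩⟩
  ⟨false,1,⟨1,[(5,0),(0,0),(10,0),(15,0),(1,1)]⟩,⟨2,[(2,0),(8,0),(9,0),(2,0)]⟩⟩ ⟨true,0,⟨0,[(7,0),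
  (9,0)]⟩,⟨0,[(0,0),(7,0)]⟩⟩]⟩) (.Q [0,0,0,0,0,0,1,0,0,0,-1] (.p false [0,0,1] [] (⟨0,[(26,0)]⟩,⟨0,
  [(25,0)]⟩) .k 0 (⟨0,[]⟩,⟨0,[]⟩) .k .k) (.I [1,0,0,0,0,0,0,1] (.Q [0,0,0,-1,0,0,-1,-1,0,0,1] (.p
  true [0,0,1] [] (⟨0,[(28,0)]⟩,⟨0,[(27,0)]⟩) .k 0 (⟨0,[]⟩,⟨0,[]⟩) .k .k) (.R ⟨2,true,false,false,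
  [0,1],[0,1,1],[0,1,1],(⟨0,[]⟩,⟨0,[]⟩),(⟨0,[(29,0),(2,0)]⟩,⟨0,[(17,0)]⟩),⟨0,[]⟩,.k,.k,.k,.k,.k,.k,
  ⟨false,0,⟨0,[(0,0),(10,0),(11,0)]⟩,⟨3,[(1,3),(5,1),(29,0),(0,0)]⟩⟩,⟨true,0,⟨0,[(2,0)]⟩,⟨0,[(27,
  0)]⟩⟩,⟨false,0,⟨0,[(36,0)]⟩,⟨3,[(7,1),(29,0),(0,0)]⟩⟩,⟨true,0,⟨0,[(1,0),(0,0)]⟩,⟨0,[(25,0)]⟩⟩,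
  ⟨true,0,⟨0,[(40,0)]⟩,⟨0,[]⟩⟩,⟨false,1,⟨0,[(15,0),(22,0)]⟩,⟨0,[(0,0)]⟩⟩,[]⟩) (.S ⟨1,0,[0,0,0,-1,0,
  0,0,-1],[1,0,-1],[1,1,0,0,0,0,0,-1],(⟨0,[(28,0)]⟩,⟨0,[(29,0)]⟩),⟨0,[(17,0)]⟩,.k,.k,⟨false,0,⟨0,
  []⟩,⟨1,[(19,0),(0,0),(17,0)]⟩⟩,⟨true,0,⟨0,[(36,0)]⟩,⟨4,[(5,1),(27,0),(0,0)]⟩⟩,⟨true,0,⟨4,[(5,1),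
  (27,0),(0,0)]⟩,⟨0,[(36,0)]⟩⟩,⟨false,1,⟨1,[(19,0),(0,0),(17,0)]⟩,⟨0,[]⟩⟩,[.o ⟨false,1,⟨1,[(25,1),
  (4,0),(5,1),(1,0)]⟩,⟨0,[(0,0)]⟩⟩,.o ⟨false,1,⟨0,[(9,0),(10,0),(4,0),(12,0)]⟩,⟨0,[(15,0)]⟩⟩,.o
  ⟨false,1,⟨1,[(27,1),(2,0),(6,0)]⟩,⟨0,[(2,0)]⟩⟩,.a ⟨true,0,⟨0,[(27,0)]⟩,⟨0,[(23,0)]⟩⟩ ⟨true,0,⟨2,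
  [(3,1),(4,0),(0,1),(4,1),(8,0),(1,0)]⟩,⟨1,[(1,1),(24,0),(0,0)]⟩⟩ ⟨false,1,⟨2,[(3,1),(5,1),(6,0),
  (6,0),(1,2),(10,0),(1,2)]⟩,⟨0,[(0,0),(26,0)]⟩⟩]⟩)) (.S ⟨1,0,[0,0,0,-1,0,0,0,-1],[1,0,-1],[0,1,0,
  -1,0,0,0,-1],(⟨0,[(27,0)]⟩,⟨0,[(28,0)]⟩),⟨0,[(16,0)]⟩,.k,.k,⟨false,0,⟨0,[(35,0)]⟩,⟨3,[(6,1),(29,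
  0),(0,0)]⟩⟩,⟨true,0,⟨0,[(35,0)]⟩,⟨4,[(4,1),(27,0),(0,0)]⟩⟩,⟨true,0,⟨0,[(39,0)]⟩,⟨0,[]⟩⟩,⟨false,1,
  ⟨1,[(18,0),(0,0),(17,0)]⟩,⟨0,[]⟩⟩,[.o ⟨false,0,⟨0,[(0,0),(1,0),(5,0),(17,0)]⟩,⟨3,[(6,1),(16,3),
  (12,0),(0,0)]⟩⟩,.o ⟨false,1,⟨0,[(8,0),(10,0),(4,0),(12,0)]⟩,⟨0,[(14,0)]⟩⟩,.o ⟨false,1,⟨1,[(26,1),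
  (2,0),(6,0)]⟩,⟨0,[(1,0)]⟩⟩,.a ⟨true,0,⟨0,[(26,0)]⟩,⟨0,[(22,0)]⟩⟩ ⟨false,0,⟨2,[(0,2),(1,0),(4,0),
  (0,0),(26,1)]⟩,⟨0,[(14,0),(11,0),(10,0)]⟩⟩ ⟨true,0,⟨2,[(0,2),(1,0),(4,0),(0,0),(26,1)]⟩,⟨0,[(14,
  0),(11,0)]⟩⟩]⟩)) (.I [1,0,0,0,0,0,0,1] (.Q [0,1,0,1,0,0,-1,-1,0,0,1] (.p true [0,0,1] [] (⟨0,[(28,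
  0)]⟩,⟨0,[(27,0)]⟩) .k 0 (⟨0,[]⟩,⟨0,[]⟩) .k .k) (.K ⟨0,[0,-1,1],0,0,(⟨0,[(18,0)]⟩,⟨0,[(28,0),(3,
  0)]⟩),.k,(.r 0 ⟨2,[(1,2),(1,1),(4,1),(0,1),(26,3)]⟩ ⟨3,[(7,1),(6,3),(4,0),(0,0),(5,0),(0,0),(10,
  0)]⟩),.k,.k,.k,[⟨1,[(26,0),(0,0)]⟩,⟨0,[(2,0)]⟩,⟨0,[(0,0)]⟩,⟨0,[(24,0),(11,0)]⟩]⟩) (.R ⟨2,true,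
  false,false,[0,1],[0,0,1],[0,0,1],(⟨0,[]⟩,⟨0,[]⟩),(⟨0,[(29,0)]⟩,⟨0,[(28,0)]⟩),⟨0,[]⟩,.k,.k,.k,.k,
  .k,.k,⟨false,1,⟨3,[(16,1),(2,0),(0,0),(4,3),(4,0),(7,1)]⟩,⟨0,[(0,0),(1,0),(31,0)]⟩⟩,⟨true,0,⟨0,
  [(26,0)]⟩,⟨0,[(2,0)]⟩⟩,⟨true,0,⟨0,[(36,0)]⟩,⟨4,[(5,1),(27,0),(0,0)]⟩⟩,⟨false,0,⟨0,[(0,0)]⟩,⟨3,[(7,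
  1),(17,3),(11,0),(0,0)]⟩⟩,⟨false,1,⟨1,[(19,0),(0,0),(17,0)]⟩,⟨0,[]⟩⟩,⟨true,0,⟨1,[(0,0),(14,0)]⟩,
  ⟨0,[(25,0)]⟩⟩,[]⟩)) (.S ⟨1,0,[0,0,1,0,0,0,0,-1],[1,1,-1],[0,1,1,0,0,0,0,-1],(⟨0,[(27,0),(3,0)]⟩,
  ⟨0,[(17,0)]⟩),⟨0,[(27,0)]⟩,.k,.k,⟨false,0,⟨0,[(35,0)]⟩,⟨3,[(6,1),(29,0),(0,0)]⟩⟩,⟨true,0,⟨0,[(35,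
  0)]⟩,⟨4,[(4,1),(27,0),(0,0)]⟩⟩,⟨true,0,⟨0,[(39,0)]⟩,⟨0,[]⟩⟩,⟨false,1,⟨1,[(18,0),(0,0),(17,0)]⟩,⟨0,
  []⟩⟩,[.e ⟨false,0,⟨5,[(0,2),(10,0),(1,0),(1,0),(8,1),(7,0)]⟩,⟨2,[(1,2),(0,0),(4,0),(0,0),(5,0),(8,
  1),(13,2)]⟩⟩ ⟨false,0,⟨0,[(0,0)]⟩,⟨1,[(1,1),(21,1),(12,0),(0,0)]⟩⟩,.o ⟨false,1,⟨1,[(0,1),(0,1),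
  (27,0),(7,0)]⟩,⟨0,[(23,0)]⟩⟩,.o ⟨false,1,⟨1,[(1,1),(27,0),(6,0)]⟩,⟨0,[(25,0)]⟩⟩,.a ⟨true,0,⟨0,[(1,
  0)]⟩,⟨2,[(9,0),(5,1),(10,0)]⟩⟩ ⟨false,0,⟨0,[(0,0)]⟩,⟨0,[(1,0),(21,0),(13,0)]⟩⟩ ⟨true,0,⟨0,[(0,
  0)]⟩,⟨0,[(1,0),(21,0)]⟩⟩]⟩)))) (.Q [0,0,0,0,0,0,-1,0,0,0,1] (.p true [0,0,1] [] (⟨0,[(25,0)]⟩,⟨0,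
  [(24,0)]⟩) .k 0 (⟨0,[]⟩,⟨0,[]⟩) .k .k) (.Q [0,0,0,0,0,0,-1,-1,0,0,1] (.p true [0,0,1] [] (⟨0,[(26,
  0)]⟩,⟨0,[(25,0)]⟩) .k 0 (⟨0,[]⟩,⟨0,[]⟩) .k .k) (.I [0,0,-1,-1,0,0,0,1] (.K ⟨0,[0,-1,1],0,0,(⟨0,
  [(17,0)]⟩,⟨0,[(27,0),(3,0)]⟩),.k,(.r 0 ⟨1,[(0,1),(6,0),(0,0),(10,0),(15,0)]⟩ ⟨3,[(6,1),(6,3),(4,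
  0),(0,0),(5,0),(0,0),(10,0)]⟩),.k,.k,.k,[⟨1,[(25,0),(0,0)]⟩,⟨0,[(2,0)]⟩,⟨2,[(1,1),(2,0),(19,0),(8,
  0)]⟩,⟨0,[(23,0),(11,0)]⟩]⟩) (.S ⟨1,0,[0,0,1,0,0,0,0,-1],[1,1,-1],[0,1,1,0,0,0,0,-1],(⟨0,[(27,0),
  (3,0)]⟩,⟨0,[(17,0)]⟩),⟨0,[(27,0)]⟩,.k,.k,⟨false,0,⟨0,[(35,0)]⟩,⟨3,[(6,1),(29,0),(0,0)]⟩⟩,⟨true,0,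
  ⟨0,[(35,0)]⟩,⟨4,[(4,1),(27,0),(0,0)]⟩⟩,⟨true,0,⟨0,[(39,0)]⟩,⟨0,[]⟩⟩,⟨false,1,⟨1,[(18,0),(0,0),(17,
  0)]⟩,⟨0,[]⟩⟩,[.e ⟨false,0,⟨1,[(0,0),(10,0),(10,0),(1,0)]⟩,⟨1,[(2,1),(4,0),(0,0),(5,0),(4,0),(3,0),
  (13,1)]⟩⟩ ⟨false,0,⟨1,[(0,0),(0,0),(6,0),(10,0),(2,0)]⟩,⟨1,[(2,1),(20,1),(12,0),(0,0)]⟩⟩,.o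
  ⟨false,1,⟨1,[(1,1),(27,0),(7,0)]⟩,⟨0,[(23,0)]⟩⟩,.o ⟨false,1,⟨1,[(2,1),(26,0),(6,0)]⟩,⟨0,[(25,
  0)]⟩⟩,.a ⟨true,0,⟨0,[(2,0)]⟩,⟨2,[(9,0),(5,1),(10,0)]⟩⟩ ⟨false,0,⟨1,[(0,0),(0,0),(6,0),(10,0),(2,
  0)]⟩,⟨0,[(2,0),(20,0),(13,0)]⟩⟩ ⟨true,0,⟨1,[(0,0),(0,0),(6,0),(10,0),(2,0)]⟩,⟨0,[(2,0),(20,
  0)]⟩⟩]⟩)) (.I [1,0,-1,0,0,0,0,1] (.S ⟨1,0,[0,0,1,0,0,0,0,-1],[1,1,-1],[0,1,1,0,0,0,0,-1],(⟨0,[(27,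
  0),(3,0)]⟩,⟨0,[(17,0)]⟩),⟨0,[(27,0)]⟩,.k,.k,⟨false,0,⟨0,[(35,0)]⟩,⟨3,[(6,1),(29,0),(0,0)]⟩⟩,⟨true,
  0,⟨0,[(35,0)]⟩,⟨4,[(4,1),(27,0),(0,0)]⟩⟩,⟨true,0,⟨0,[(39,0)]⟩,⟨0,[]⟩⟩,⟨false,1,⟨1,[(18,0),(0,0),
  (17,0)]⟩,⟨0,[]⟩⟩,[.o ⟨false,1,⟨1,[(24,1),(4,0),(7,0)]⟩,⟨0,[(1,0)]⟩⟩,.e ⟨false,1,⟨3,[(15,1),(2,0),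
  (0,0),(4,3),(4,0),(7,1)]⟩,⟨0,[(0,0)]⟩⟩ ⟨false,1,⟨1,[(8,0),(4,0),(5,0),(2,0),(1,0),(12,1)]⟩,⟨4,[(0,
  3),(22,0),(2,0),(5,1)]⟩⟩,.o ⟨false,1,⟨1,[(2,1),(26,0),(6,0)]⟩,⟨0,[(25,0)]⟩⟩,.a ⟨true,0,⟨0,[(2,
  0)]⟩,⟨2,[(9,0),(5,1),(10,0)]⟩⟩ ⟨true,0,⟨1,[(8,0),(4,0),(5,0),(2,0),(1,0)]⟩,⟨1,[(0,0),(0,0),(24,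
  0)]⟩⟩ ⟨false,1,⟨1,[(8,0),(4,0),(5,0),(2,0),(1,0),(12,1)]⟩,⟨1,[(0,0),(0,0),(24,0)]⟩⟩]⟩) (.K ⟨0,[0,
  -1,1],0,0,(⟨0,[(17,0)]⟩,⟨0,[(27,0),(3,0)]⟩),.k,(.r 0 ⟨0,[(1,0),(0,0),(4,0),(0,0),(10,0),(15,0)]⟩
  ⟨5,[(0,1),(5,3),(6,3),(4,1),(0,1),(5,0),(0,0)]⟩),.k,.k,.k,[⟨1,[(25,0),(0,0)]⟩,⟨0,[(2,0)]⟩,⟨0,[(0,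
  0),(1,0),(30,0)]⟩,⟨0,[(23,0),(11,0)]⟩]⟩))) (.Q [0,0,0,-1,0,0,-1,-1,0,-1,1] (.p true [0,0,1] [1]
  (⟨0,[(26,0)]⟩,⟨0,[(25,0)]⟩) .k 1 (⟨0,[]⟩,⟨0,[]⟩) .k .k) (.S ⟨1,0,[0,0,0,-1,0,0,0,-1],[1,0,-1],[0,
  1,0,-1,0,0,0,-1],(⟨0,[(26,0)]⟩,⟨0,[(27,0)]⟩),⟨0,[(15,0)]⟩,.k,.k,⟨false,0,⟨0,[(34,0)]⟩,⟨3,[(5,1),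
  (29,0),(0,0)]⟩⟩,⟨true,0,⟨0,[(34,0)]⟩,⟨4,[(3,1),(27,0),(0,0)]⟩⟩,⟨true,0,⟨0,[(38,0)]⟩,⟨0,[]⟩⟩,
  ⟨false,1,⟨1,[(17,0),(0,0),(17,0)]⟩,⟨0,[]⟩⟩,[.o ⟨false,0,⟨0,[(0,0)]⟩,⟨3,[(5,1),(16,3),(12,0),(0,
  0)]⟩⟩,.o ⟨false,1,⟨3,[(0,1),(22,1),(4,0),(5,1),(1,2)]⟩,⟨0,[(13,0)]⟩⟩,.o ⟨false,1,⟨1,[(25,1),(2,0),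
  (6,0)]⟩,⟨0,[(1,0)]⟩⟩,.a ⟨true,0,⟨0,[(25,0)]⟩,⟨0,[(21,0)]⟩⟩ ⟨false,0,⟨0,[(0,0),(20,0)]⟩,⟨0,[(13,0),
  (11,0),(10,0)]⟩⟩ ⟨true,0,⟨0,[(0,0),(20,0)]⟩,⟨0,[(13,0),(11,0)]⟩⟩]⟩) (.Q [0,-1,0,-1,0,0,1,1,0,0,
  -1] (.p false [0,0,1] [] (⟨0,[(27,0)]⟩,⟨0,[(26,0)]⟩) .k 0 (⟨0,[]⟩,⟨0,[]⟩) .k .k) (.S ⟨1,0,[0,0,1,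
  0,0,0,0,1],[0,1,1],[0,1,1,0,0,0,0,1],(⟨0,[(28,0),(2,0)]⟩,⟨0,[(16,0)]⟩),⟨0,[(28,0)]⟩,.k,.k,⟨false,
  0,⟨0,[(35,0)]⟩,⟨3,[(6,1),(29,0),(0,0)]⟩⟩,⟨true,0,⟨0,[(35,0)]⟩,⟨4,[(4,1),(27,0),(0,0)]⟩⟩,⟨true,0,
  ⟨0,[(39,0)]⟩,⟨0,[]⟩⟩,⟨false,1,⟨1,[(18,0),(0,0),(17,0)]⟩,⟨0,[]⟩⟩,[.o ⟨false,0,⟨1,[(0,0),(13,0)]⟩,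
  ⟨1,[(24,1),(4,0),(7,0)]⟩⟩,.e ⟨false,0,⟨0,[(0,0),(25,0),(6,0)]⟩,⟨1,[(22,1),(1,1),(4,0),(7,0)]⟩⟩
  ⟨false,1,⟨1,[(0,0),(13,0),(11,1),(9,0),(0,0)]⟩,⟨0,[(7,0),(0,0),(4,0),(5,0)]⟩⟩,.a ⟨true,0,⟨0,[(22,
  0)]⟩,⟨0,[(26,0)]⟩⟩ ⟨false,0,⟨1,[(0,0),(13,0),(11,1)]⟩,⟨0,[(7,0),(0,0),(4,0),(5,0),(17,0)]⟩⟩ ⟨true,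
  0,⟨1,[(0,0),(13,0),(11,1)]⟩,⟨0,[(7,0),(0,0),(4,0),(5,0)]⟩⟩,.o ⟨false,0,⟨0,[(2,0)]⟩,⟨1,[(26,1),(2,
  0),(6,0)]⟩⟩]⟩) (.S ⟨1,0,[0,1,1,0,0,0,0,1],[0,1,1],[0,0,1,0,0,0,0,1],(⟨0,[(28,0),(2,0)]⟩,⟨0,[(16,
  0)]⟩),⟨0,[(28,0)]⟩,.k,.k,⟨true,0,⟨0,[(35,0)]⟩,⟨4,[(4,1),(27,0),(0,0)]⟩⟩,⟨false,0,⟨0,[(35,0)]⟩,⟨3,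
  [(6,1),(29,0),(0,0)]⟩⟩,⟨false,1,⟨1,[(18,0),(0,0),(17,0)]⟩,⟨0,[]⟩⟩,⟨true,0,⟨0,[(39,0)]⟩,⟨0,[]⟩⟩,
  [.o ⟨false,0,⟨0,[(23,0)]⟩,⟨0,[(0,0),(7,0),(10,0),(17,0)]⟩⟩,.o ⟨false,0,⟨0,[(1,0),(6,0),(10,0)]⟩,
  ⟨1,[(24,1),(4,0),(7,0)]⟩⟩,.a ⟨true,0,⟨0,[(22,0)]⟩,⟨0,[(26,0)]⟩⟩ ⟨true,0,⟨0,[(1,0),(6,0),(10,0),(6,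
  0)]⟩,⟨1,[(0,0),(1,1),(4,0),(0,0),(10,0),(4,0)]⟩⟩ ⟨false,0,⟨0,[(1,0),(6,0),(10,0),(6,0)]⟩,⟨1,[(0,
  0),(1,1),(4,0),(0,0),(10,0),(4,0),(12,1)]⟩⟩,.o ⟨false,0,⟨0,[(2,0)]⟩,⟨1,[(26,1),(2,0),(6,
  0)]⟩⟩]⟩)))))))) (.Q [0,1,0,2,0,0,0,0,0,1] (.pp false [-1,1]) (.R ⟨2,false,false,false,[0,1],[1,
  -1],[0,1,1],(⟨0,[]⟩,⟨0,[]⟩),(⟨0,[(24,0)]⟩,⟨0,[(25,0)]⟩),⟨0,[]⟩,.k,.k,.k,(.r (-1) ⟨1,[(0,1),(0,1),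
  (10,0),(0,0),(17,0)]⟩ ⟨0,[(2,1),(0,1),(9,1)]⟩),.k,.k,⟨false,0,⟨6,[(0,2),(0,2),(5,0),(9,0),(2,0),
  (5,0)]⟩,⟨1,[(2,1),(0,1),(9,1),(16,0),(0,0)]⟩⟩,⟨true,0,⟨0,[(1,0)]⟩,⟨0,[(3,0)]⟩⟩,⟨false,0,⟨0,[(29,
  0)]⟩,⟨3,[(0,1),(22,0),(7,2)]⟩⟩,⟨true,0,⟨0,[(2,0),(10,0),(15,0)]⟩,⟨0,[(0,0)]⟩⟩,⟨true,0,⟨0,[(33,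
  0)]⟩,⟨0,[]⟩⟩,⟨true,0,⟨0,[(2,0),(10,0)]⟩,⟨3,[(0,1),(2,0),(5,0),(10,1),(5,0)]⟩⟩,[.o ⟨false,0,⟨0,[(2,
  0),(10,0)]⟩,⟨3,[(0,1),(11,1),(0,1),(9,0),(7,0)]⟩⟩,.o ⟨false,1,⟨1,[(23,0),(5,1),(1,0)]⟩,⟨0,[(28,
  0)]⟩⟩,.a ⟨true,0,⟨0,[(3,0)]⟩,⟨3,[(1,0),(7,0),(10,1)]⟩⟩ ⟨false,0,⟨3,[(1,0),(7,0),(10,1)]⟩,⟨1,[(30,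
  0),(0,0)]⟩⟩ ⟨true,0,⟨1,[(1,0),(0,0),(10,0),(15,0)]⟩,⟨4,[(0,1),(2,2),(22,0),(0,0)]⟩⟩,.e ⟨true,0,⟨0,
  [(33,0)]⟩,⟨0,[]⟩⟩ ⟨true,0,⟨0,[(2,0),(10,0)]⟩,⟨3,[(0,1),(2,0),(5,0),(10,1),(5,0)]⟩⟩]⟩) (.R ⟨2,true,
  false,false,[0,1],[1,-1],[1,0,1,1],(⟨0,[]⟩,⟨0,[]⟩),(⟨0,[(24,0)]⟩,⟨0,[(25,0)]⟩),⟨0,[]⟩,.k,.k,.k,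
  (.r (-1) ⟨0,[(7,0),(0,0),(11,0),(10,0)]⟩ ⟨4,[(0,5),(2,5),(22,1),(0,1)]⟩),.k,.k,⟨false,1,⟨1,[(7,0),
  (0,0),(11,0),(7,1),(2,1)]⟩,⟨4,[(0,5),(2,5),(22,1),(0,1)]⟩⟩,⟨true,0,⟨0,[(1,0)]⟩,⟨0,[(3,0)]⟩⟩,⟨true,
  0,⟨0,[]⟩,⟨0,[(33,0)]⟩⟩,⟨false,0,⟨0,[(0,0)]⟩,⟨1,[(3,1),(3,0),(0,0),(11,0),(7,1),(2,1)]⟩⟩,⟨false,1,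
  ⟨0,[(28,0),(2,0)]⟩,⟨0,[(29,0)]⟩⟩,⟨true,0,⟨1,[(0,0),(3,0)]⟩,⟨1,[(3,1),(3,0),(0,0),(11,0)]⟩⟩,
  []⟩)))) (.I [0,-1,2,1] (.Q [0,0,0,2,0,0,0,0,0,1] (.pp false [-1,1]) (.S ⟨1,0,[0,0,-1,-2],[1,-1],
  [1,1,-1,-1],(⟨0,[(23,0)]⟩,⟨0,[(24,0)]⟩),⟨0,[(9,0),(0,0)]⟩,.k,(.r (-1) ⟨0,[(28,1),(0,0)]⟩ ⟨0,[(1,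
  0),(25,0)]⟩),⟨false,0,⟨0,[]⟩,⟨1,[(11,0),(0,0),(17,0)]⟩⟩,⟨true,0,⟨0,[(28,0)]⟩,⟨0,[(27,0)]⟩⟩,⟨true,
  0,⟨0,[(27,0)]⟩,⟨0,[(28,0)]⟩⟩,⟨false,1,⟨1,[(11,0),(0,0),(17,0)]⟩,⟨0,[]⟩⟩,[.a ⟨true,0,⟨0,[(28,1)]⟩,
  ⟨0,[(0,0)]⟩⟩ ⟨true,0,⟨0,[(26,0),(1,1)]⟩,⟨0,[(1,0)]⟩⟩ ⟨false,1,⟨0,[(28,1),(0,0)]⟩,⟨0,[(0,0),(1,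
  0)]⟩⟩,.o ⟨false,1,⟨1,[(22,0),(5,3),(1,0)]⟩,⟨1,[(0,0),(1,0),(23,0),(0,0)]⟩⟩,.o ⟨false,0,⟨0,[(2,
  0)]⟩,⟨1,[(11,0),(0,0),(16,0)]⟩⟩,.o ⟨false,0,⟨1,[(2,1),(15,0),(0,0)]⟩,⟨0,[(29,0)]⟩⟩]⟩) (.I [0,0,-2,
  -2,0,0,0,-1] (.Q [0,-1,0,-2,0,0,-1,-1,0,0,1] (.p true [0,0,1] [] (⟨0,[(22,0)]⟩,⟨0,[(21,0)]⟩) .k 0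
  (⟨0,[]⟩,⟨0,[]⟩) .k .k) (.S ⟨1,0,[0,0,0,-1,0,0,0,-1],[1,0,-1],[1,1,0,0,0,0,0,-1],(⟨0,[(22,0)]⟩,⟨0,
  [(23,0)]⟩),⟨0,[(11,0)]⟩,.k,.k,⟨false,0,⟨0,[]⟩,⟨1,[(13,0),(0,0),(17,0)]⟩⟩,⟨true,0,⟨0,[(30,0)]⟩,⟨0,
  [(29,0)]⟩⟩,⟨true,0,⟨0,[(29,0)]⟩,⟨0,[(30,0)]⟩⟩,⟨false,1,⟨1,[(13,0),(0,0),(17,0)]⟩,⟨0,[]⟩⟩,[.o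
  ⟨false,0,⟨0,[(0,0),(3,0),(23,0)]⟩,⟨1,[(9,1),(3,0),(0,0),(17,0)]⟩⟩,.o ⟨false,1,⟨1,[(0,0),(18,0),(4,
  0),(7,0)]⟩,⟨0,[(9,0)]⟩⟩,.o ⟨false,1,⟨1,[(21,1),(2,0),(6,0)]⟩,⟨0,[(4,0),(12,0)]⟩⟩,.a ⟨true,0,⟨0,
  [(21,0)]⟩,⟨0,[(17,0)]⟩⟩ ⟨false,0,⟨0,[(1,0),(1,0),(24,0)]⟩,⟨0,[(18,0),(2,0),(10,0)]⟩⟩ ⟨true,0,⟨5,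
  [(1,4),(1,1),(4,0),(19,0)]⟩,⟨0,[(9,0),(11,0)]⟩⟩]⟩) (.Q [0,0,0,1,0,0,0,0,0,1] (.pp false [-1,1])
  (.R ⟨2,true,false,true,[0,1],[1,-1],[0,0,1],(⟨0,[]⟩,⟨0,[]⟩),(⟨0,[(26,0)]⟩,⟨0,[(27,0)]⟩),⟨0,[]⟩,.k,
  .k,.k,(.r 0 ⟨0,[(4,0),(25,0)]⟩ ⟨0,[(31,1),(0,0)]⟩),.k,.k,⟨true,0,⟨0,[(4,0)]⟩,⟨2,[(2,1),(16,1),(2,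
  1),(6,0)]⟩⟩,⟨false,0,⟨0,[(5,0)]⟩,⟨0,[(0,0),(30,0),(0,0)]⟩⟩,⟨true,0,⟨0,[(31,0)]⟩,⟨0,[(30,0)]⟩⟩,
  ⟨false,0,⟨0,[(3,0)]⟩,⟨1,[(0,3),(24,0),(7,0)]⟩⟩,⟨false,1,⟨1,[(14,0),(0,0),(17,0)]⟩,⟨0,[]⟩⟩,⟨true,0,
  ⟨0,[(7,0)]⟩,⟨0,[(0,0)]⟩⟩,[]⟩) (.S ⟨1,0,[0,0,0,-1,0,0,0,-1],[1,0,-1],[1,1,0,0,0,0,0,-1],(⟨0,[(23,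
  0)]⟩,⟨0,[(24,0)]⟩),⟨0,[(12,0)]⟩,.k,.k,⟨false,0,⟨0,[]⟩,⟨1,[(14,0),(0,0),(17,0)]⟩⟩,⟨true,0,⟨0,[(31,
  0)]⟩,⟨0,[(30,0)]⟩⟩,⟨true,0,⟨0,[(30,0)]⟩,⟨0,[(31,0)]⟩⟩,⟨false,1,⟨1,[(14,0),(0,0),(17,0)]⟩,⟨0,[]⟩⟩,
  [.o ⟨false,0,⟨0,[(0,0),(1,0),(1,0),(17,0),(6,0)]⟩,⟨1,[(10,1),(3,0),(0,0),(17,0)]⟩⟩,.o ⟨false,1,⟨0,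
  [(0,0),(19,0),(12,0)]⟩,⟨0,[(10,0)]⟩⟩,.o ⟨false,1,⟨1,[(22,1),(2,0),(6,0)]⟩,⟨2,[(0,0),(0,0),(0,0),
  (1,0),(6,0)]⟩⟩,.a ⟨true,0,⟨0,[(22,0)]⟩,⟨0,[(18,0)]⟩⟩ ⟨false,0,⟨0,[(2,0),(1,0),(24,0)]⟩,⟨0,[(19,0),
  (2,0),(10,0)]⟩⟩ ⟨true,0,⟨5,[(2,4),(1,1),(4,0),(19,0)]⟩,⟨0,[(10,0),(11,0)]⟩⟩]⟩))) (.Q [0,0,0,1,0,0,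
  0,0,0,1] (.pp false [-1,1]) (.R ⟨2,true,false,true,[0,1],[1,-1],[0,0,1],(⟨0,[]⟩,⟨0,[]⟩),(⟨0,[(25,
  0)]⟩,⟨0,[(26,0)]⟩),⟨0,[]⟩,.k,.k,.k,(.r 0 ⟨2,[(1,0),(1,1),(4,0),(19,0)]⟩ ⟨0,[(30,1),(0,0)]⟩),.k,.k,
  ⟨true,0,⟨0,[(3,0)]⟩,⟨0,[(28,0),(1,1)]⟩⟩,⟨false,0,⟨0,[(4,0)]⟩,⟨0,[(22,0),(0,0),(7,0)]⟩⟩,⟨true,0,⟨0,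
  [(30,0)]⟩,⟨0,[(29,0)]⟩⟩,⟨false,0,⟨0,[(2,0)]⟩,⟨3,[(0,3),(0,0),(6,0),(19,0),(2,0),(0,2)]⟩⟩,⟨false,1,
  ⟨1,[(13,0),(0,0),(17,0)]⟩,⟨0,[]⟩⟩,⟨true,0,⟨0,[(6,0)]⟩,⟨0,[(0,0)]⟩⟩,[]⟩) (.Q [0,0,0,2,0,0,1,1,0,1,
  -1] (.p false [0,0,1] [1] (⟨0,[(23,0)]⟩,⟨0,[(22,0)]⟩) .k 1 (⟨0,[]⟩,⟨0,[]⟩) .k .k) (.S ⟨1,0,[0,0,0,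
  -1,0,0,0,-1],[1,0,-1],[0,1,0,-1,0,0,0,-1],(⟨0,[(23,0)]⟩,⟨0,[(24,0)]⟩),⟨0,[(12,0)]⟩,.k,.k,⟨false,0,
  ⟨0,[(31,0)]⟩,⟨3,[(2,0),(6,0),(19,0),(2,0),(0,2)]⟩⟩,⟨true,0,⟨0,[(31,0)]⟩,⟨0,[(30,0)]⟩⟩,⟨true,0,⟨0,
  [(35,0)]⟩,⟨0,[]⟩⟩,⟨false,1,⟨1,[(14,0),(0,0),(17,0)]⟩,⟨0,[]⟩⟩,[.o ⟨false,1,⟨3,[(3,1),(10,0),(0,0),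
  (4,3),(4,0),(7,1)]⟩,⟨0,[(0,0),(0,0)]⟩⟩,.o ⟨false,1,⟨0,[(1,0),(18,0),(12,0)]⟩,⟨0,[(10,0)]⟩⟩,.o
  ⟨false,1,⟨1,[(22,1),(2,0),(6,0)]⟩,⟨0,[(5,0),(12,0)]⟩⟩,.a ⟨true,0,⟨0,[(22,0)]⟩,⟨0,[(18,0)]⟩⟩ ⟨true,
  0,⟨0,[(1,0),(16,0),(1,0)]⟩,⟨0,[(0,0),(0,0),(20,0)]⟩⟩ ⟨false,1,⟨0,[(1,0),(16,0),(1,0),(12,0)]⟩,⟨0,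
  [(0,0),(0,0),(20,0)]⟩⟩]⟩) (.Q [0,0,0,0,0,0,-1,-1,0,0,1] (.p true [0,0,1] [] (⟨0,[(24,0)]⟩,⟨0,[(23,
  0)]⟩) .k 0 (⟨0,[]⟩,⟨0,[]⟩) .k .k) (.S ⟨1,0,[0,0,0,-1,0,0,0,-1],[1,0,-1],[0,1,0,-1,0,0,0,-1],(⟨0,
  [(24,0)]⟩,⟨0,[(25,0)]⟩),⟨0,[(13,0)]⟩,.k,.k,⟨false,0,⟨0,[(32,0)]⟩,⟨3,[(3,0),(6,0),(19,0),(2,0),(0,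
  2)]⟩⟩,⟨true,0,⟨0,[(32,0)]⟩,⟨0,[(31,0)]⟩⟩,⟨true,0,⟨0,[(36,0)]⟩,⟨0,[]⟩⟩,⟨false,1,⟨1,[(15,0),(0,0),
  (17,0)]⟩,⟨0,[]⟩⟩,[.o ⟨false,0,⟨0,[(0,0),(1,0)]⟩,⟨1,[(11,1),(3,0),(0,0),(17,0)]⟩⟩,.o ⟨false,1,⟨3,
  [(1,1),(19,1),(4,0),(7,2)]⟩,⟨0,[(11,0)]⟩⟩,.o ⟨false,1,⟨1,[(23,1),(2,0),(6,0)]⟩,⟨0,[(6,0),(12,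
  0)]⟩⟩,.a ⟨true,0,⟨0,[(23,0)]⟩,⟨0,[(19,0)]⟩⟩ ⟨false,0,⟨0,[(0,0),(1,0),(16,0)]⟩,⟨3,[(3,1),(16,1),(2,
  1),(9,0),(0,2)]⟩⟩ ⟨true,0,⟨0,[(0,0),(1,0),(16,0)]⟩,⟨0,[(11,0),(11,0)]⟩⟩]⟩) (.S ⟨1,0,[0,1,1,0,0,0,
  0,1],[0,1,1],[0,0,1,0,0,0,0,1],(⟨0,[(25,0),(2,0)]⟩,⟨0,[(13,0)]⟩),⟨0,[(25,0)]⟩,.k,.k,⟨true,0,⟨0,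
  [(32,0)]⟩,⟨0,[(31,0)]⟩⟩,⟨false,0,⟨0,[(32,0)]⟩,⟨3,[(3,0),(6,0),(19,0),(2,0),(0,2)]⟩⟩,⟨false,1,⟨1,
  [(15,0),(0,0),(17,0)]⟩,⟨0,[]⟩⟩,⟨true,0,⟨0,[(36,0)]⟩,⟨0,[]⟩⟩,[.o ⟨false,0,⟨0,[(20,0)]⟩,⟨7,[(1,5),
  (3,3),(15,1),(4,0),(3,7),(3,6)]⟩⟩,.o ⟨false,0,⟨0,[(0,0)]⟩,⟨1,[(21,1),(4,0),(7,0)]⟩⟩,.a ⟨true,0,⟨0,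
  [(19,0)]⟩,⟨0,[(23,0)]⟩⟩ ⟨true,0,⟨0,[(0,0),(22,0)]⟩,⟨3,[(1,2),(3,0),(4,0),(8,2),(10,3)]⟩⟩ ⟨false,0,
  ⟨0,[(0,0),(22,0)]⟩,⟨3,[(1,2),(3,0),(4,0),(8,2),(10,3),(3,3)]⟩⟩,.o ⟨false,0,⟨0,[(6,0),(12,0)]⟩,⟨1,
  [(23,1),(2,0),(6,0)]⟩⟩]⟩)))))) (.Q [0,0,0,-1,0,0,-1,-1,0,-1,1] (.p true [0,0,1] [1] (⟨0,[(20,0)]⟩,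
  ⟨0,[(19,0)]⟩) .k 1 (⟨0,[]⟩,⟨0,[]⟩) .k .k) (.S ⟨1,0,[0,0,0,-1,0,0,0,-1],[1,0,-1],[0,1,0,-1,0,0,0,
  -1],(⟨0,[(20,0)]⟩,⟨0,[(21,0)]⟩),⟨0,[(9,0)]⟩,.k,.k,⟨false,0,⟨0,[(28,0)]⟩,⟨0,[(27,0),(2,0)]⟩⟩,⟨true,
  0,⟨0,[(28,0)]⟩,⟨0,[(27,0)]⟩⟩,⟨true,0,⟨0,[(32,0)]⟩,⟨0,[]⟩⟩,⟨false,1,⟨1,[(11,0),(0,0),(17,0)]⟩,⟨0,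
  []⟩⟩,[.o ⟨false,0,⟨0,[(0,0)]⟩,⟨1,[(7,1),(3,0),(0,0),(17,0)]⟩⟩,.o ⟨false,1,⟨3,[(0,1),(16,1),(4,0),
  (5,1),(1,2)]⟩,⟨0,[(7,0)]⟩⟩,.o ⟨false,1,⟨1,[(19,1),(2,0),(6,0)]⟩,⟨0,[(2,0),(12,0)]⟩⟩,.a ⟨true,0,⟨0,
  [(19,0)]⟩,⟨0,[(15,0)]⟩⟩ ⟨false,0,⟨0,[(0,0),(14,0)]⟩,⟨0,[(7,0),(11,0),(10,0)]⟩⟩ ⟨true,0,⟨0,[(0,0),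
  (14,0)]⟩,⟨0,[(7,0),(11,0)]⟩⟩]⟩) (.Q [0,0,0,0,0,-1,0,0,0,0,0,1] (.ed false [1,-1,0,0,1] .k) (.I [0,
  0,-2,-2,0,0,0,-1] (.R ⟨1,true,false,false,[1,0,-1],[0,1],[1,1,0,0,0,0,0,-1],(⟨0,[(22,0)]⟩,⟨0,[(23,
  0)]⟩),(⟨0,[(26,0)]⟩,⟨0,[(25,0)]⟩),⟨0,[(11,0)]⟩,.k,.k,.k,.k,(.r 0 ⟨0,[(0,0)]⟩ ⟨1,[(8,0),(0,2),(11,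
  2),(10,1)]⟩),.k,⟨false,0,⟨4,[(0,3),(7,0),(18,0),(0,1)]⟩,⟨0,[(9,0),(11,0),(10,0)]⟩⟩,⟨true,0,⟨0,
  [(17,0)]⟩,⟨0,[(4,0),(16,0)]⟩⟩,⟨false,0,⟨0,[]⟩,⟨1,[(13,0),(0,0),(17,0)]⟩⟩,⟨true,0,⟨0,[(2,0)]⟩,⟨1,
  [(0,0),(3,0),(0,0),(13,0),(1,0)]⟩⟩,⟨true,0,⟨0,[(29,0)]⟩,⟨0,[(30,0)]⟩⟩,⟨false,1,⟨0,[(2,0),(26,0),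
  (2,0)]⟩,⟨0,[(0,0),(3,0),(16,0)]⟩⟩,[]⟩) (.Q [0,0,0,1,0,0,0,0,0,1] (.pp false [-1,1]) (.Q [0,0,-1,0,
  0,0,0,0,1,1,0,-1] (.p false [0,0,0,0,1] [1] (⟨0,[(17,0)]⟩,⟨0,[(16,0)]⟩) .k 1 (⟨0,[]⟩,⟨0,[]⟩) .k
  .k) (.R ⟨1,false,false,true,[0,0,0,0,1],[1,-1],[1,1],(⟨0,[(18,0)]⟩,⟨0,[(17,0)]⟩),(⟨0,[(27,0)]⟩,⟨0,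
  [(28,0)]⟩),⟨0,[(3,0)]⟩,.k,.k,(.r 0 ⟨2,[(5,0),(23,0),(2,1)]⟩ ⟨2,[(2,0),(7,0),(4,0),(0,0),(17,1)]⟩),
  (.r 0 ⟨2,[(2,0),(7,0),(25,1)]⟩ ⟨1,[(32,1),(0,0),(0,0)]⟩),.k,.k,⟨true,0,⟨0,[(1,0),(4,0)]⟩,⟨0,[(32,
  0)]⟩⟩,⟨false,1,⟨1,[(7,0),(1,0),(5,0)]⟩,⟨0,[(0,0)]⟩⟩,⟨true,0,⟨0,[]⟩,⟨0,[(36,0)]⟩⟩,⟨false,1,⟨0,[(9,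
  0),(22,0)]⟩,⟨0,[(1,0),(14,0)]⟩⟩,⟨false,1,⟨3,[(2,0),(7,0),(19,0),(2,0),(0,2)]⟩,⟨0,[(32,0)]⟩⟩,
  ⟨false,1,⟨0,[(9,0)]⟩,⟨2,[(0,1),(11,0),(3,0),(6,1)]⟩⟩,[.o ⟨false,0,⟨0,[(8,0)]⟩,⟨3,[(2,0),(7,0),(19,
  0),(2,0),(0,2)]⟩⟩,.a ⟨true,0,⟨0,[(32,0)]⟩,⟨0,[(1,0)]⟩⟩ ⟨true,0,⟨0,[]⟩,⟨1,[(22,0),(0,0)]⟩⟩ ⟨false,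
  1,⟨3,[(5,1),(2,0),(0,2),(5,0),(16,0)]⟩,⟨0,[(1,0),(14,0)]⟩⟩,.o ⟨false,0,⟨0,[(16,0)]⟩,⟨1,[(7,0),(1,
  0),(5,0)]⟩⟩,.o ⟨false,0,⟨1,[(16,1),(5,0),(0,0)]⟩,⟨3,[(5,0),(3,3),(19,0),(0,0)]⟩⟩]⟩) (.Q [0,0,0,0,
  0,1,0,0,0,-1,0,1] (.ed false [0,1,0,0,1] .k) (.R ⟨0,false,false,false,[1,0,0,0,-1],[1,-1],[],(⟨0,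
  [(18,0)]⟩,⟨0,[(19,0)]⟩),(⟨0,[(28,0)]⟩,⟨0,[(29,0)]⟩),⟨0,[(0,0)]⟩,.k,.k,(.r (-1) ⟨1,[(33,1),(0,0),
  (0,0)]⟩ ⟨2,[(3,0),(7,0),(25,1)]⟩),(.r (-1) ⟨2,[(3,0),(7,0),(4,0),(0,0),(17,1)]⟩ ⟨2,[(6,0),(23,0),
  (2,1)]⟩),.k,.k,⟨true,0,⟨0,[(2,0),(4,0)]⟩,⟨0,[(33,0)]⟩⟩,⟨false,0,⟨0,[(17,0)]⟩,⟨1,[(2,0),(3,0),(3,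
  0),(5,0)]⟩⟩,⟨true,0,⟨0,[(37,0)]⟩,⟨0,[]⟩⟩,⟨false,0,⟨0,[(17,0),(15,0)]⟩,⟨0,[(2,0),(7,0)]⟩⟩,⟨false,0,
  ⟨0,[]⟩,⟨0,[]⟩⟩,⟨false,0,⟨0,[]⟩,⟨0,[]⟩⟩,[.a ⟨true,0,⟨0,[(33,0)]⟩,⟨0,[(2,0)]⟩⟩ ⟨false,1,⟨1,[(16,0),
  (0,0),(16,0)]⟩,⟨0,[]⟩⟩ ⟨true,0,⟨0,[(17,0),(15,0)]⟩,⟨0,[(1,0),(0,0)]⟩⟩,.o ⟨false,1,⟨1,[(27,0),(5,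
  1),(1,0)]⟩,⟨0,[(32,0)]⟩⟩,.o ⟨false,1,⟨4,[(1,0),(8,1),(5,1),(10,0),(2,0)]⟩,⟨0,[(17,0)]⟩⟩,.o ⟨false,
  0,⟨0,[(1,0)]⟩,⟨1,[(16,0),(0,2),(16,0)]⟩⟩]⟩) (.Q [0,0,0,-1,0,0,0,0,-1,0,0,1] (.p true [0,0,0,0,1]
  [] (⟨0,[(19,0)]⟩,⟨0,[(18,0)]⟩) .k 0 (⟨0,[]⟩,⟨0,[]⟩) .k .k) (.S ⟨1,0,[0,0,0,-1],[1,0,0,0,-1],[1,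
  -1],(⟨0,[(19,0)]⟩,⟨0,[(20,0)]⟩),⟨0,[(1,0)]⟩,.k,(.r (-1) ⟨1,[(34,1),(0,0),(0,0)]⟩ ⟨2,[(4,0),(7,0),
  (25,1)]⟩),⟨true,0,⟨0,[]⟩,⟨0,[(38,0)]⟩⟩,⟨false,0,⟨0,[(34,0)]⟩,⟨3,[(4,0),(7,0),(19,0),(2,0),(0,
  2)]⟩⟩,⟨false,1,⟨3,[(4,0),(7,0),(19,0),(2,0),(0,2)]⟩,⟨0,[(34,0)]⟩⟩,⟨true,0,⟨0,[(38,0)]⟩,⟨0,[]⟩⟩,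
  [.a ⟨true,0,⟨0,[(0,0)]⟩,⟨0,[(3,0),(14,0)]⟩⟩ ⟨false,1,⟨1,[(35,0),(0,0)]⟩,⟨0,[(38,0)]⟩⟩ ⟨true,0,⟨0,
  [(34,0)]⟩,⟨0,[(3,0),(4,0)]⟩⟩,.o ⟨false,1,⟨0,[(11,0),(22,0)]⟩,⟨0,[(18,0),(14,0)]⟩⟩,.o ⟨false,1,⟨4,
  [(2,0),(8,1),(5,1),(10,0),(2,0)]⟩,⟨0,[(18,0)]⟩⟩,.o ⟨false,0,⟨0,[(2,0)]⟩,⟨1,[(17,0),(0,2),(16,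
  0)]⟩⟩]⟩) (.Q [0,2,0,1,-1,0,0,0,1,1,0,-1] (.p false [0,0,0,0,1] [1] (⟨0,[(20,0)]⟩,⟨0,[(19,0)]⟩) .k
  1 (⟨0,[]⟩,⟨0,[]⟩) .k .k) (.Q [0,-2,0,-1,1,0,0,0,-1,0,0,1] (.p true [0,0,0,0,1] [] (⟨0,[(21,0)]⟩,
  ⟨0,[(20,0)]⟩) .k 0 (⟨0,[]⟩,⟨0,[]⟩) .k .k) (.S ⟨1,0,[0,-1,0,-1],[1,0,0,0,-1],[1],(⟨0,[(21,0)]⟩,⟨0,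
  [(22,0)]⟩),⟨0,[(3,0)]⟩,.k,(.r (-1) ⟨1,[(0,0),(19,0),(15,0),(0,0)]⟩ ⟨2,[(6,0),(7,0),(25,1)]⟩),
  ⟨false,0,⟨0,[]⟩,⟨1,[(19,0),(0,0),(17,0)]⟩⟩,⟨true,0,⟨0,[(36,0)]⟩,⟨0,[(35,0)]⟩⟩,⟨true,0,⟨0,[(35,
  0)]⟩,⟨0,[(36,0)]⟩⟩,⟨false,1,⟨1,[(19,0),(0,0),(17,0)]⟩,⟨0,[]⟩⟩,[.o ⟨false,1,⟨1,[(0,0),(11,0),(0,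
  0)]⟩,⟨13,[(1,5),(0,1),(3,1),(7,1),(5,5),(9,2),(6,2)]⟩⟩,.a ⟨true,1,⟨0,[(0,0)]⟩,⟨0,[(1,0)]⟩⟩ ⟨false,
  1,⟨1,[(37,0),(0,0)]⟩,⟨0,[(40,0)]⟩⟩ ⟨true,1,⟨0,[(0,0),(19,0)]⟩,⟨0,[(1,0),(2,0)]⟩⟩,.o ⟨false,1,⟨4,
  [(4,0),(8,1),(5,1),(10,0),(2,0)]⟩,⟨0,[(20,0)]⟩⟩,.o ⟨false,0,⟨0,[(4,0)]⟩,⟨1,[(19,0),(0,2),(16,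
  0)]⟩⟩]⟩) (.Q [0,0,0,-1,0,0,-1,-1,0,0,1] (.p true [0,0,1] [] (⟨0,[(29,0)]⟩,⟨0,[(28,0)]⟩) .k 0 (⟨0,
  []⟩,⟨0,[]⟩) .k .k) (.R ⟨1,false,false,false,[1,0,0,0,-1],[1,-1,-1],[1,-1],(⟨0,[(22,0)]⟩,⟨0,[(23,
  0)]⟩),(⟨0,[(18,0)]⟩,⟨0,[(30,0),(2,0)]⟩),⟨0,[(4,0)]⟩,.k,.k,(.r (-1) ⟨1,[(37,1),(0,0),(0,0)]⟩ ⟨2,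
  [(7,0),(7,0),(25,1)]⟩),(.r (-1) ⟨3,[(7,1),(17,1),(2,1),(9,0),(0,2)]⟩ ⟨8,[(0,7),(0,1),(3,1),(4,3),
  (4,0),(1,1),(6,3),(6,1)]⟩),.k,.k,⟨false,1,⟨0,[(7,0),(2,0),(28,0)]⟩,⟨8,[(0,7),(0,1),(3,1),(4,3),(4,
  0),(1,1),(6,3),(6,1)]⟩⟩,⟨true,0,⟨0,[(21,0),(6,0)]⟩,⟨0,[(5,0),(18,0)]⟩⟩,⟨true,0,⟨0,[]⟩,⟨0,[(41,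
  0)]⟩⟩,⟨false,0,⟨0,[(0,0),(20,0)]⟩,⟨0,[(9,0),(4,0)]⟩⟩,⟨false,1,⟨3,[(7,0),(7,0),(19,0),(2,0),(0,
  2)]⟩,⟨0,[(37,0)]⟩⟩,⟨false,0,⟨0,[(0,0),(2,0)]⟩,⟨0,[(9,0),(4,0),(22,0)]⟩⟩,[.a ⟨true,0,⟨0,[(0,0)]⟩,
  ⟨0,[(9,0)]⟩⟩ ⟨false,1,⟨1,[(38,0),(0,0)]⟩,⟨0,[(41,0)]⟩⟩ ⟨true,0,⟨0,[(0,0),(20,0)]⟩,⟨0,[(5,0),(3,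
  0)]⟩⟩,.o ⟨false,1,⟨1,[(0,1),(30,0),(7,0)]⟩,⟨0,[(16,0)]⟩⟩,.o ⟨false,1,⟨4,[(5,0),(8,1),(5,1),(10,0),
  (2,0)]⟩,⟨0,[(21,0)]⟩⟩,.o ⟨false,0,⟨0,[(5,0)]⟩,⟨1,[(20,0),(0,2),(16,0)]⟩⟩]⟩) (.Q [0,1,0,-1,0,0,-1,
  -1,0,-1,1] (.p true [0,0,1] [1] (⟨0,[(30,0)]⟩,⟨0,[(29,0)]⟩) .k 1 (⟨0,[]⟩,⟨0,[]⟩) .k .k) (.S ⟨1,0,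
  [0,0,0,-1,0,0,0,-1],[1,0,-1],[0,1,0,-1,0,0,0,-1],(⟨0,[(30,0)]⟩,⟨0,[(31,0)]⟩),⟨0,[(19,0)]⟩,.k,.k,
  ⟨false,0,⟨0,[(38,0)]⟩,⟨3,[(8,0),(7,0),(19,0),(2,0),(0,2)]⟩⟩,⟨true,0,⟨0,[(38,0)]⟩,⟨0,[(37,0)]⟩⟩,
  ⟨true,0,⟨0,[(42,0)]⟩,⟨0,[]⟩⟩,⟨false,1,⟨1,[(21,0),(0,0),(17,0)]⟩,⟨0,[]⟩⟩,[.o ⟨false,1,⟨1,[(0,1),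
  (20,0),(0,0),(17,0)]⟩,⟨0,[(1,0)]⟩⟩,.o ⟨false,1,⟨0,[(0,0),(39,0)]⟩,⟨0,[(17,0)]⟩⟩,.o ⟨false,1,⟨1,
  [(29,1),(2,0),(6,0)]⟩,⟨0,[(12,0),(12,0)]⟩⟩,.a ⟨true,0,⟨0,[(29,0)]⟩,⟨0,[(25,0)]⟩⟩ ⟨true,0,⟨0,[(0,
  0),(24,0)]⟩,⟨0,[(1,0),(27,0)]⟩⟩ ⟨false,1,⟨0,[(0,0),(24,0),(14,0)]⟩,⟨0,[(1,0),(27,0)]⟩⟩]⟩) (.I [0,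
  1,1,0,-1,0,0,1] (.I [1,1,1,1,-1,0,0,1] (.R ⟨1,false,false,true,[1,0,-1],[1,0,0,0,-1],[0,0,0,-1,0,
  0,0,-1],(⟨0,[(32,0)]⟩,⟨0,[(33,0)]⟩),(⟨0,[(25,0)]⟩,⟨0,[(26,0)]⟩),⟨0,[(21,0)]⟩,.k,.k,.k,.k,(.r (-1)
  ⟨3,[(20,1),(2,0),(0,0),(4,3),(4,0),(5,3),(0,1)]⟩ ⟨0,[(0,0),(41,0)]⟩),.k,⟨false,1,⟨3,[(13,1),(6,1),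
  (8,3),(4,0),(5,1),(1,2)]⟩,⟨1,[(0,1),(40,0),(0,0)]⟩⟩,⟨true,0,⟨0,[(8,0),(18,0)]⟩,⟨0,[(24,0),(6,
  0)]⟩⟩,⟨true,0,⟨0,[(40,0)]⟩,⟨0,[(39,0)]⟩⟩,⟨true,0,⟨11,[(1,1),(0,8),(5,9),(4,5),(6,0),(2,1),(4,0),
  (11,2)]⟩,⟨0,[(24,0),(4,0)]⟩⟩,⟨false,1,⟨1,[(23,0),(0,0),(17,0)]⟩,⟨0,[]⟩⟩,⟨true,0,⟨2,[(2,1),(5,2),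
  (3,0),(0,0),(24,0)]⟩,⟨0,[(24,0),(4,0),(10,0)]⟩⟩,[.o ⟨false,1,⟨4,[(8,0),(8,1),(5,1),(10,0),(2,0)]⟩,
  ⟨0,[(24,0)]⟩⟩,.o ⟨false,1,⟨0,[(17,0)]⟩,⟨0,[(24,0),(19,0)]⟩⟩,.o ⟨false,1,⟨1,[(31,1),(2,0),(6,0)]⟩,
  ⟨0,[(14,0),(12,0)]⟩⟩,.a ⟨true,0,⟨0,[(31,0)]⟩,⟨0,[(27,0)]⟩⟩ ⟨true,1,⟨3,[(13,1),(6,1),(8,3),(4,0),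
  (5,1),(1,2)]⟩,⟨0,[(0,0)]⟩⟩ ⟨false,1,⟨0,[(17,0),(9,0)]⟩,⟨0,[(24,0),(6,0)]⟩⟩]⟩) (.S ⟨1,0,[0,0,1,0,0,
  0,0,1],[0,1,1],[1,1,1,1,0,0,0,1],(⟨0,[(33,0),(2,0)]⟩,⟨0,[(21,0)]⟩),⟨0,[(33,0)]⟩,.k,.k,⟨false,0,⟨0,
  []⟩,⟨1,[(23,0),(0,0),(17,0)]⟩⟩,⟨true,0,⟨0,[(40,0)]⟩,⟨0,[(39,0)]⟩⟩,⟨true,0,⟨0,[(39,0)]⟩,⟨0,[(40,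
  0)]⟩⟩,⟨false,1,⟨1,[(23,0),(0,0),(17,0)]⟩,⟨0,[]⟩⟩,[.o ⟨false,0,⟨0,[(2,0),(13,0)]⟩,⟨1,[(29,1),(4,0),
  (7,0)]⟩⟩,.a ⟨true,0,⟨0,[(2,0),(37,0)]⟩,⟨0,[(29,0)]⟩⟩ ⟨false,0,⟨0,[(1,0),(36,0),(3,0)]⟩,⟨0,[(0,0),
  (43,0)]⟩⟩ ⟨true,0,⟨0,[(1,0),(40,0)]⟩,⟨2,[(0,0),(3,0),(3,0),(11,0),(8,1)]⟩⟩,.e ⟨false,0,⟨3,[(1,1),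
  (8,1),(30,0),(0,0)]⟩,⟨0,[(0,0)]⟩⟩ ⟨false,0,⟨0,[(1,0),(40,0)]⟩,⟨1,[(0,0),(17,0),(22,0)]⟩⟩,.o
  ⟨false,0,⟨0,[(14,0),(12,0)]⟩,⟨1,[(31,1),(2,0),(6,0)]⟩⟩]⟩)) (.R ⟨1,false,false,false,[1,0,0,0,-1],
  [0,1,1],[1],(⟨0,[(24,0)]⟩,⟨0,[(25,0)]⟩),(⟨0,[(32,0),(2,0)]⟩,⟨0,[(20,0)]⟩),⟨0,[(6,0)]⟩,.k,.k,(.r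
  (-1) ⟨1,[(39,1),(0,0),(0,0)]⟩ ⟨2,[(9,0),(7,0),(25,1)]⟩),(.r (-1) ⟨0,[(0,0),(38,0)]⟩ ⟨4,[(9,2),(2,
  0),(14,1),(2,1),(5,0)]⟩),(.r (-2) ⟨1,[(0,1),(21,0),(0,0),(15,3),(0,0)]⟩ ⟨0,[(1,0),(1,0),(3,0),(22,
  0)]⟩),.k,⟨false,1,⟨2,[(0,2),(11,0),(23,0),(2,1)]⟩,⟨0,[(2,0),(27,0)]⟩⟩,⟨true,0,⟨0,[(23,0),(2,0)]⟩,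
  ⟨0,[(7,0),(22,0)]⟩⟩,⟨false,0,⟨0,[]⟩,⟨1,[(22,0),(0,0),(17,0)]⟩⟩,⟨true,(-1),⟨0,[(1,0),(1,0),(35,
  0)]⟩,⟨0,[(16,0),(11,0),(10,0)]⟩⟩,⟨true,0,⟨0,[(38,0)]⟩,⟨0,[(39,0)]⟩⟩,⟨true,(-1),⟨0,[(1,0),(1,0)]⟩,
  ⟨0,[(16,0),(11,0),(10,1)]⟩⟩,[.o ⟨false,0,⟨0,[(2,0)]⟩,⟨1,[(28,1),(4,0),(5,1),(1,0)]⟩⟩,.a ⟨true,0,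
  ⟨0,[(1,0)]⟩,⟨0,[(28,0),(10,0)]⟩⟩ ⟨false,1,⟨1,[(40,0),(0,0)]⟩,⟨0,[(43,0)]⟩⟩ ⟨true,0,⟨0,[(1,0),(21,
  0)]⟩,⟨0,[(7,0),(20,0),(10,0)]⟩⟩,.o ⟨false,1,⟨4,[(7,0),(8,1),(5,1),(10,0),(2,0)]⟩,⟨0,[(23,0)]⟩⟩,.o
  ⟨false,0,⟨0,[(7,0)]⟩,⟨1,[(22,0),(0,2),(16,0)]⟩⟩]⟩))))) (.Q [0,0,0,1,0,0,1,1,0,0,-1] (.p false [0,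
  0,1] [] (⟨0,[(28,0)]⟩,⟨0,[(27,0)]⟩) .k 0 (⟨0,[]⟩,⟨0,[]⟩) .k .k) (.I [1,1,-1,0,0,0,0,-1] (.S ⟨1,0,
  [0,0,0,-1,0,0,0,-1],[1,0,-1],[1,1,0,0,0,0,0,-1],(⟨0,[(29,0)]⟩,⟨0,[(30,0)]⟩),⟨0,[(18,0)]⟩,.k,.k,
  ⟨false,0,⟨0,[]⟩,⟨1,[(20,0),(0,0),(17,0)]⟩⟩,⟨true,0,⟨0,[(37,0)]⟩,⟨0,[(36,0)]⟩⟩,⟨true,0,⟨0,[(36,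
  0)]⟩,⟨0,[(37,0)]⟩⟩,⟨false,1,⟨1,[(20,0),(0,0),(17,0)]⟩,⟨0,[]⟩⟩,[.o ⟨false,1,⟨1,[(26,1),(4,0),(5,1),
  (1,0)]⟩,⟨0,[(1,0)]⟩⟩,.o ⟨false,1,⟨0,[(2,0),(18,0),(4,0)]⟩,⟨0,[(16,0)]⟩⟩,.o ⟨false,1,⟨1,[(28,1),(2,
  0),(6,0)]⟩,⟨0,[(11,0),(12,0)]⟩⟩,.a ⟨true,0,⟨0,[(28,0)]⟩,⟨0,[(24,0)]⟩⟩ ⟨true,0,⟨0,[(0,0)]⟩,⟨0,[(1,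
  0),(26,0),(8,0)]⟩⟩ ⟨false,1,⟨0,[(0,0),(36,0),(1,0)]⟩,⟨0,[(1,0),(26,0)]⟩⟩]⟩) (.S ⟨1,0,[0,0,1,0,0,0,
  0,1],[0,1,1],[1,1,1,1,0,0,0,1],(⟨0,[(30,0),(2,0)]⟩,⟨0,[(18,0)]⟩),⟨0,[(30,0)]⟩,.k,.k,⟨false,0,⟨0,
  []⟩,⟨1,[(20,0),(0,0),(17,0)]⟩⟩,⟨true,0,⟨0,[(37,0)]⟩,⟨0,[(36,0)]⟩⟩,⟨true,0,⟨0,[(36,0)]⟩,⟨0,[(37,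
  0)]⟩⟩,⟨false,1,⟨1,[(20,0),(0,0),(17,0)]⟩,⟨0,[]⟩⟩,[.o ⟨false,0,⟨3,[(0,1),(0,1),(8,0),(2,0),(3,0)]⟩,
  ⟨1,[(26,1),(4,0),(7,0)]⟩⟩,.a ⟨true,0,⟨0,[(0,0),(23,0)]⟩,⟨0,[(26,0)]⟩⟩ ⟨false,0,⟨0,[(0,0),(34,0)]⟩,
  ⟨3,[(10,1),(6,1),(8,3),(4,0),(5,1),(1,2)]⟩⟩ ⟨true,0,⟨0,[(0,0)]⟩,⟨0,[(11,0),(12,0),(1,0)]⟩⟩,.e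
  ⟨false,0,⟨2,[(0,0),(6,1),(2,0)]⟩,⟨0,[(2,0),(18,0),(2,0),(1,0)]⟩⟩ ⟨false,0,⟨0,[(0,0)]⟩,⟨1,[(24,1),
  (1,1),(4,0),(7,0)]⟩⟩,.o ⟨false,0,⟨0,[(11,0),(12,0)]⟩,⟨1,[(28,1),(2,0),(6,0)]⟩⟩]⟩)) (.R ⟨1,false,
  false,false,[1,0,0,0,-1],[1,-1,-1],[1,-1],(⟨0,[(21,0)]⟩,⟨0,[(22,0)]⟩),(⟨0,[(17,0)]⟩,⟨0,[(29,0),(2,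
  0)]⟩),⟨0,[(3,0)]⟩,.k,.k,(.r (-1) ⟨1,[(36,1),(0,0),(0,0)]⟩ ⟨2,[(6,0),(7,0),(25,1)]⟩),(.r (-1) ⟨3,
  [(6,1),(17,1),(2,1),(9,0),(0,2)]⟩ ⟨0,[(0,0),(10,0),(11,0)]⟩),.k,.k,⟨false,1,⟨0,[(6,0),(2,0),(28,
  0)]⟩,⟨0,[(0,0),(10,0),(11,0)]⟩⟩,⟨true,0,⟨0,[(20,0),(6,0)]⟩,⟨0,[(4,0),(18,0)]⟩⟩,⟨true,0,⟨0,[]⟩,⟨0,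
  [(40,0)]⟩⟩,⟨false,0,⟨0,[(0,0),(19,0)]⟩,⟨0,[(8,0),(4,0)]⟩⟩,⟨false,1,⟨3,[(6,0),(7,0),(19,0),(2,0),
  (0,2)]⟩,⟨0,[(36,0)]⟩⟩,⟨false,0,⟨0,[(0,0),(1,0)]⟩,⟨2,[(1,1),(6,1),(10,0),(4,0)]⟩⟩,[.a ⟨true,0,⟨0,
  [(0,0)]⟩,⟨0,[(8,0)]⟩⟩ ⟨false,1,⟨1,[(37,0),(0,0)]⟩,⟨0,[(40,0)]⟩⟩ ⟨true,0,⟨0,[(0,0),(19,0)]⟩,⟨0,[(4,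
  0),(3,0)]⟩⟩,.o ⟨false,1,⟨1,[(0,1),(29,0),(7,0)]⟩,⟨0,[(15,0)]⟩⟩,.o ⟨false,1,⟨4,[(4,0),(8,1),(5,1),
  (10,0),(2,0)]⟩,⟨0,[(20,0)]⟩⟩,.o ⟨false,0,⟨0,[(4,0)]⟩,⟨1,[(19,0),(0,2),(16,0)]⟩⟩]⟩)))))) (.Q [0,-1,
  0,0,0,0,1,1,0,1,-1] (.p false [0,0,1] [1] (⟨0,[(24,0)]⟩,⟨0,[(23,0)]⟩) .k 1 (⟨0,[]⟩,⟨0,[]⟩) .k .k)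
  (.S ⟨1,2,[],[0,1,1],[1,1,1,1,0,0,0,1],(⟨0,[(25,0),(2,0)]⟩,⟨0,[(13,0)]⟩),⟨0,[(25,0)]⟩,.k,.k,⟨false,
  0,⟨0,[]⟩,⟨1,[(15,0),(0,0),(17,0)]⟩⟩,⟨true,0,⟨0,[(1,0),(19,0)]⟩,⟨0,[(4,0)]⟩⟩,⟨true,0,⟨0,[(31,0)]⟩,
  ⟨0,[(32,0)]⟩⟩,⟨false,1,⟨1,[(21,1),(4,0),(7,0)]⟩,⟨0,[(0,0)]⟩⟩,[.o ⟨false,0,⟨0,[(7,0)]⟩,⟨1,[(15,0),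
  (0,0),(17,0)]⟩⟩,.fo,.a ⟨true,0,⟨0,[(19,0)]⟩,⟨0,[(23,0)]⟩⟩ ⟨false,0,⟨1,[(0,0),(0,0),(0,0),(20,0),
  (6,0)]⟩,⟨0,[(1,0),(17,0),(1,0),(12,0)]⟩⟩ ⟨true,0,⟨0,[(7,0),(15,0)]⟩,⟨0,[(19,0)]⟩⟩,.o ⟨false,0,⟨0,
  [(6,0),(12,0)]⟩,⟨1,[(23,1),(2,0),(6,0)]⟩⟩]⟩) (.S ⟨1,0,[0,0,1,0,0,0,0,1],[0,1,1],[0,1,1,0,0,0,0,1],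
  (⟨0,[(25,0),(2,0)]⟩,⟨0,[(13,0)]⟩),⟨0,[(25,0)]⟩,.k,.k,⟨false,0,⟨0,[(32,0)]⟩,⟨3,[(2,0),(7,0),(19,0),
  (2,0),(0,2)]⟩⟩,⟨true,0,⟨0,[(32,0)]⟩,⟨0,[(31,0)]⟩⟩,⟨true,0,⟨0,[(36,0)]⟩,⟨0,[]⟩⟩,⟨false,1,⟨1,[(15,
  0),(0,0),(17,0)]⟩,⟨0,[]⟩⟩,[.o ⟨false,0,⟨0,[(1,0),(2,0)]⟩,⟨1,[(21,1),(4,0),(7,0)]⟩⟩,.o ⟨false,1,⟨0,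
  [(20,0),(13,0)]⟩,⟨0,[(0,0)]⟩⟩,.a ⟨true,0,⟨0,[(19,0)]⟩,⟨0,[(23,0)]⟩⟩ ⟨false,0,⟨0,[(1,0),(2,0),(18,
  0)]⟩,⟨0,[(0,0),(18,0),(14,0)]⟩⟩ ⟨true,0,⟨0,[(1,0),(2,0),(18,0)]⟩,⟨0,[(0,0),(18,0)]⟩⟩,.o ⟨false,0,
  ⟨0,[(6,0),(12,0)]⟩,⟨1,[(23,1),(2,0),(6,0)]⟩⟩]⟩)))) (.Q [0,0,0,1,0,0,0,0,0,1] (.pp false [-1,1])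
  (.R ⟨0,false,false,true,[0,0,0,0,1],[0,1],[1,1,1,1],(⟨0,[(16,0)]⟩,⟨0,[(15,0)]⟩),(⟨0,[(26,0)]⟩,⟨0,
  [(25,0)]⟩),⟨0,[(1,0)]⟩,.k,.k,(.r 0 ⟨2,[(3,0),(23,0),(2,1)]⟩ ⟨1,[(8,0),(0,0),(11,0),(10,1)]⟩),(.r
  0 ⟨2,[(3,0),(23,0),(2,1)]⟩ ⟨1,[(8,0),(0,0),(11,0),(10,1)]⟩),.k,.k,⟨true,0,⟨0,[]⟩,⟨1,[(20,0),(0,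
  0)]⟩⟩,⟨false,1,⟨0,[(0,0),(2,0),(3,0)]⟩,⟨1,[(14,1),(5,0),(0,0)]⟩⟩,⟨true,0,⟨0,[(0,0),(3,0)]⟩,⟨2,[(3,
  0),(23,0),(2,1)]⟩⟩,⟨false,1,⟨0,[(0,0),(6,0)]⟩,⟨0,[(14,0),(15,0)]⟩⟩,⟨false,0,⟨0,[]⟩,⟨0,[]⟩⟩,⟨false,
  0,⟨0,[]⟩,⟨0,[]⟩⟩,[.o ⟨false,0,⟨0,[(29,0)]⟩,⟨1,[(24,0),(5,1),(1,0)]⟩⟩,.a ⟨true,0,⟨0,[(0,0)]⟩,⟨0,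
  [(30,0)]⟩⟩ ⟨true,0,⟨0,[(0,0),(3,0)]⟩,⟨0,[(30,0)]⟩⟩ ⟨false,1,⟨3,[(0,2),(2,0),(3,2),(5,0),(14,1)]⟩,
  ⟨0,[(14,0),(15,0)]⟩⟩,.o ⟨false,0,⟨0,[(14,0)]⟩,⟨1,[(5,0),(1,0),(5,0)]⟩⟩,.o ⟨false,0,⟨1,[(14,1),(5,
  0),(0,0)]⟩,⟨3,[(3,0),(3,3),(19,0),(0,0)]⟩⟩]⟩) (.Q [0,0,0,1,0,0,1,1,0,0,-1] (.p false [0,0,1] []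
  (⟨0,[(23,0)]⟩,⟨0,[(22,0)]⟩) .k 0 (⟨0,[]⟩,⟨0,[]⟩) .k .k) (.S ⟨1,0,[0,0,0,-1,0,0,0,-1],[1,0,-1],[0,
  1,0,-1,0,0,0,-1],(⟨0,[(23,0)]⟩,⟨0,[(24,0)]⟩),⟨0,[(12,0)]⟩,.k,.k,⟨false,0,⟨0,[(31,0)]⟩,⟨0,[(30,0),
  (2,0)]⟩⟩,⟨true,0,⟨0,[(31,0)]⟩,⟨0,[(30,0)]⟩⟩,⟨true,0,⟨0,[(35,0)]⟩,⟨0,[]⟩⟩,⟨false,1,⟨1,[(14,0),(0,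
  0),(17,0)]⟩,⟨0,[]⟩⟩,[.o ⟨false,1,⟨1,[(20,1),(4,0),(5,1),(1,0)]⟩,⟨0,[(0,0)]⟩⟩,.o ⟨false,1,⟨0,[(1,
  0),(18,0),(12,0)]⟩,⟨0,[(10,0)]⟩⟩,.o ⟨false,1,⟨1,[(22,1),(2,0),(6,0)]⟩,⟨0,[(5,0),(12,0)]⟩⟩,.a
  ⟨true,0,⟨0,[(22,0)]⟩,⟨0,[(18,0)]⟩⟩ ⟨true,0,⟨0,[(1,0),(16,0),(1,0)]⟩,⟨0,[(0,0),(21,0)]⟩⟩ ⟨false,1,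
  ⟨0,[(1,0),(16,0),(1,0),(12,0)]⟩,⟨0,[(0,0),(21,0)]⟩⟩]⟩) (.R ⟨2,true,false,false,[0,1],[0,1,1],[0,1,
  1],(⟨0,[]⟩,⟨0,[]⟩),(⟨0,[(24,0),(2,0)]⟩,⟨0,[(12,0)]⟩),⟨0,[]⟩,.k,.k,.k,.k,.k,.k,⟨false,0,⟨1,[(0,0),
  (0,0),(2,0),(4,0),(8,0)]⟩,⟨0,[(1,0),(1,0),(18,0),(6,0),(3,0)]⟩⟩,⟨true,0,⟨0,[(5,0),(12,0)]⟩,⟨0,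
  [(22,0)]⟩⟩,⟨false,0,⟨0,[(31,0)]⟩,⟨0,[(30,0),(2,0)]⟩⟩,⟨true,0,⟨0,[(1,0),(1,0)]⟩,⟨0,[(20,0)]⟩⟩,
  ⟨true,0,⟨0,[(35,0)]⟩,⟨0,[]⟩⟩,⟨false,1,⟨0,[(10,0),(22,0)]⟩,⟨0,[(0,0)]⟩⟩,[]⟩)))))))) (.R ⟨2,false,
  false,true,[0,1],[1,0,0,0,-1],[0,0,1],(⟨0,[]⟩,⟨0,[]⟩),(⟨0,[(9,0)]⟩,⟨0,[(10,0)]⟩),⟨0,[]⟩,.k,.k,.k,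
  (.r 0 ⟨1,[(2,0),(0,0),(11,0)]⟩ ⟨1,[(24,1),(0,0),(0,0)]⟩),.k,.k,⟨true,0,⟨1,[(14,0),(0,0)]⟩,⟨0,[]⟩⟩,
  ⟨false,1,⟨0,[(1,0),(26,0)]⟩,⟨0,[(0,0),(7,0),(13,0),(1,1)]⟩⟩,⟨true,0,⟨0,[(24,0)]⟩,⟨0,[(23,0)]⟩⟩,
  ⟨false,1,⟨0,[(1,0),(22,0)]⟩,⟨15,[(0,13),(1,0),(0,0),(0,1),(3,15),(6,4),(5,5)]⟩⟩,⟨false,1,⟨1,[(7,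
  0),(0,0),(17,0)]⟩,⟨0,[]⟩⟩,⟨false,1,⟨0,[(1,0)]⟩,⟨0,[(8,0),(7,0),(0,0)]⟩⟩,[.o ⟨false,1,⟨0,[(1,0),
  (26,0)]⟩,⟨0,[(8,0)]⟩⟩,.o ⟨false,1,⟨0,[(1,0)]⟩,⟨0,[(8,0),(19,0)]⟩⟩,.a ⟨true,0,⟨0,[(0,0),(21,0),(1,
  1)]⟩,⟨1,[(14,0),(0,0)]⟩⟩ ⟨true,0,⟨1,[(14,0),(0,0)]⟩,⟨0,[(22,0),(1,0)]⟩⟩ ⟨false,1,⟨1,[(1,1),(12,0),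
  (0,0)]⟩,⟨0,[(0,0),(7,0),(13,0),(1,1)]⟩⟩,.e ⟨false,1,⟨1,[(7,0),(0,0),(17,0)]⟩,⟨0,[]⟩⟩ ⟨false,1,⟨0,
  [(1,0)]⟩,⟨0,[(8,0),(7,0),(0,0)]⟩⟩]⟩))

theorem ok105 : chk K t105 r2 = true := by decide +kernel


end Helper25.S1T.Ymm_1c
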