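import Pool.Agent.Helper25.S1T.Ymm_1c_p0
import Pool.Agent.Helper25.S1T.Ymm_1c_p1
import Pool.Agent.Helper25.S1T.Ymm_1c_p2
import Pool.Agent.Helper25.S1T.Ymm_1c_p3
import Pool.Agent.Helper25.S1T.Ymm_1c_p4

set_option autoImplicit false
set_option linter.all false

namespace Helper25.S1T.Ymm_1c

open Helper25.KG Helper25.KW Helper55.KE Helper11.CT

noncomputable def t11 : Tre :=
  .I [1,0,-1,-2,-1,0,0,-2] t9 t10

theorem ok11 : chk K t11 l18 = true :=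
  chk_I (e' := [0,0,1,2,1,0,0,2]) (by decide +kernel) (by decide +kernel) ok9 ok10

noncomputable def t13 : Tre :=
  .Q [0,0,0,0,0,-2,0,0,0,0,1] (.p true [0,0,1] [] (⟨0,[(31,0)]⟩,⟨0,[(30,0)]⟩) .k 0 (⟨0,[]⟩,⟨0,[]⟩)
  .k .k) t11 t12

theorem ok13 : chk K t13 r17 = true :=
  chk_Q (e' := [0,0,0,0,0,2,0,0,0,0,-1]) (by decide +kernel) (by decide +kernel) ok11 ok12

noncomputable def t14 : Tre :=
  .I [0,0,1,0,1,-1,-2] t8 t13

theorem ok14 : chk K t14 r16 = true :=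
  chk_I (e' := [1,0,-1,0,-1,1,2]) (by decide +kernel) (by decide +kernel) ok8 ok13

noncomputable def t15 : Tre :=
  .Q [0,-1,0,-2,1,0,0,0,-1,-1,0,1] (.p true [0,0,0,0,1] [1] (⟨0,[(22,0)]⟩,⟨0,[(21,0)]⟩) .k 1 (⟨0,
  []⟩,⟨0,[]⟩) .k .k) t7 t14

theorem ok15 : chk K t15 r15 = true :=
  chk_Q (e' := [0,1,0,2,-1,0,0,0,1,1,0,-1]) (by decide +kernel) (by decide +kernel) ok7 ok14

noncomputable def t16 : Tre :=
  .Q [0,0,0,-2,0,0,-1,-1,0,-1,1] (.p true [0,0,1] [1] (⟨0,[(28,0)]⟩,⟨0,[(27,0)]⟩) .k 1 (⟨0,[]⟩,⟨0,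
  []⟩) .k .k) t6 t15

theorem ok16 : chk K t16 l14 = true :=
  chk_Q (e' := [0,0,0,2,0,0,1,1,0,1,-1]) (by decide +kernel) (by decide +kernel) ok6 ok15

noncomputable def t18 : Tre :=
  .Q [0,0,-2,0,0,0,0,0,0,1] (.pp false [-1,1]) t16 t17

theorem ok18 : chk K t18 r13 = true :=
  chk_Q (e' := [0,0,2,0,0,0,0,0,0,-1]) (by decide +kernel) (by decide +kernel) ok16 ok17

noncomputable def t19 : Tre :=
  .I [0,-1,0,-1,1,0,0,1] t5 t18

theorem ok19 : chk K t19 l12 = true :=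
  chk_I (e' := [1,1,0,1,-1,0,0,-1]) (by decide +kernel) (by decide +kernel) ok5 ok18

noncomputable def t21 : Tre :=
  .Q [0,0,0,1,0,0,1,1,0,1,-1] (.p false [0,0,1] [1] (⟨0,[(25,0)]⟩,⟨0,[(24,0)]⟩) .k 1 (⟨0,[]⟩,⟨0,
  []⟩) .k .k) t19 t20

theorem ok21 : chk K t21 l11 = true :=
  chk_Q (e' := [0,0,0,-1,0,0,-1,-1,0,-1,1]) (by decide +kernel) (by decide +kernel) ok19 ok20

noncomputable def t23 : Tre :=
  .Q [0,0,-1,0,1,0,-1,0,0,-1,1] (.p true [0,0,1] [1] (⟨0,[(24,0)]⟩,⟨0,[(23,0)]⟩) .k 1 (⟨0,[]⟩,⟨0,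
  []⟩) .k .k) t21 t22

theorem ok23 : chk K t23 r10 = true :=
  chk_Q (e' := [0,0,1,0,-1,0,1,0,0,1,-1]) (by decide +kernel) (by decide +kernel) ok21 ok22

noncomputable def t24 : Tre :=
  .I [0,-1,0,0,1,0,0,1] t4 t23

theorem ok24 : chk K t24 r9 = true :=
  chk_I (e' := [1,1,0,0,-1,0,0,-1]) (by decide +kernel) (by decide +kernel) ok4 ok23

noncomputable def t25 : Tre :=
  .I [1,-1,0,1,1,0,0,1] t3 t24

theorem ok25 : chk K t25 l8 = true :=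
  chk_I (e' := [0,1,0,-1,-1,0,0,-1]) (by decide +kernel) (by decide +kernel) ok3 ok24

noncomputable def t29 : Tre :=
  .Q [0,0,2,0,0,0,0,0,0,-1] (.pp true [-1,1]) t27 t28

theorem ok29 : chk K t29 l22 = true :=
  chk_Q (e' := [0,0,-2,0,0,0,0,0,0,1]) (by decide +kernel) (by decide +kernel) ok27 ok28

noncomputable def t31 : Tre :=
  .I [1,0,1,2] t29 t30

theorem ok31 : chk K t31 l21 = true :=
  chk_I (e' := [0,0,-1,-2]) (by decide +kernel) (by decide +kernel) ok29 ok30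

noncomputable def t36 : Tre :=
  .Q [0,0,0,0,0,0,-1,-1,0,0,1] (.p true [0,0,1] [] (⟨0,[(27,0)]⟩,⟨0,[(26,0)]⟩) .k 0 (⟨0,[]⟩,⟨0,[]⟩)
  .k .k) t34 t35

theorem ok36 : chk K t36 r26 = true :=
  chk_Q (e' := [0,0,0,0,0,0,1,1,0,0,-1]) (by decide +kernel) (by decide +kernel) ok34 ok35

noncomputable def t37 : Tre :=
  .I [0,0,0,-1,0,0,0,1] t33 t36

theorem ok37 : chk K t37 r25 = true :=
  chk_I (e' := [1,0,0,1,0,0,0,-1]) (by decide +kernel) (by decide +kernel) ok33 ok36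

noncomputable def t38 : Tre :=
  .I [0,0,0,0,0,0,0,1] t32 t37

theorem ok38 : chk K t38 l24 = true :=
  chk_I (e' := [1,0,0,0,0,0,0,-1]) (by decide +kernel) (by decide +kernel) ok32 ok37

noncomputable def t40 : Tre :=
  .I [1,1,-1,0,0,0,0,-1] t38 t39

theorem ok40 : chk K t40 r21 = true :=
  chk_I (e' := [0,-1,1,0,0,0,0,1]) (by decide +kernel) (by decide +kernel) ok38 ok39

noncomputable def t41 : Tre :=
  .I [0,1,3,2,-1] t31 t40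

theorem ok41 : chk K t41 r20 = true :=
  chk_I (e' := [1,-1,-3,-2,1]) (by decide +kernel) (by decide +kernel) ok31 ok40

noncomputable def t42 : Tre :=
  .I [1,0,-1,-1,0,0,0,-1] t26 t41

theorem ok42 : chk K t42 r8 = true :=
  chk_I (e' := [0,0,1,1,0,0,0,1]) (by decide +kernel) (by decide +kernel) ok26 ok41

noncomputable def t43 : Tre :=
  .I [0,0,-1,-1,0,0,0,-1] t25 t42

theorem ok43 : chk K t43 r7 = true :=
  chk_I (e' := [1,0,1,1,0,0,0,1]) (by decide +kernel) (by decide +kernel) ok25 ok42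

noncomputable def t44 : Tre :=
  .I [1,1,0,-2,-1] t2 t43

theorem ok44 : chk K t44 l6 = true :=
  chk_I (e' := [0,-1,0,2,1]) (by decide +kernel) (by decide +kernel) ok2 ok43

noncomputable def t46 : Tre :=
  .I [1,-1,0,1,1,0,0,-1] t44 t45

theorem ok46 : chk K t46 l5 = true :=
  chk_I (e' := [0,1,0,-1,-1,0,0,1]) (by decide +kernel) (by decide +kernel) ok44 ok45

noncomputable def t58 : Tre :=
  .I [0,0,-2,0,0,2,0,0,1] t56 t57

theorem ok58 : chk K t58 l41 = true :=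
  chk_I (e' := [1,0,2,0,0,-2,0,0,-1]) (by decide +kernel) (by decide +kernel) ok56 ok57

noncomputable def t60 : Tre :=
  .I [0,0,0,0,0,0,0,-1] t58 t59

theorem ok60 : chk K t60 r40 = true :=
  chk_I (e' := [1,0,0,0,0,0,0,1]) (by decide +kernel) (by decide +kernel) ok58 ok59

noncomputable def t61 : Tre :=
  .Q [0,0,0,-2,-1,0,0,0,1,0,0,-1] (.p false [0,0,0,0,1] [] (⟨0,[(24,0)]⟩,⟨0,[(23,0)]⟩) .k 0 (⟨0,[]⟩,
  ⟨0,[]⟩) .k .k) t55 t60

theorem ok61 : chk K t61 l39 = true :=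
  chk_Q (e' := [0,0,0,2,1,0,0,0,-1,0,0,1]) (by decide +kernel) (by decide +kernel) ok55 ok60

noncomputable def t63 : Tre :=
  .I [1,-1,-2,-2,1] t61 t62

theorem ok63 : chk K t63 l38 = true :=
  chk_I (e' := [0,1,2,2,-1]) (by decide +kernel) (by decide +kernel) ok61 ok62

noncomputable def t65 : Tre :=
  .Q [0,0,0,1,1,0,0,0,-1,0,0,1] (.p true [0,0,0,0,1] [] (⟨0,[(22,0)]⟩,⟨0,[(21,0)]⟩) .k 0 (⟨0,[]⟩,⟨0,
  []⟩) .k .k) t63 t64

theorem ok65 : chk K t65 r37 = true :=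
  chk_Q (e' := [0,0,0,-1,-1,0,0,0,1,0,0,-1]) (by decide +kernel) (by decide +kernel) ok63 ok64

noncomputable def t66 : Tre :=
  .I [1,-1,1,1,-1,0,0,-2] t54 t65

theorem ok66 : chk K t66 l36 = true :=
  chk_I (e' := [0,1,-1,-1,1,0,0,2]) (by decide +kernel) (by decide +kernel) ok54 ok65

noncomputable def t68 : Tre :=
  .I [1,0,0,0,0,0,0,-1] t66 t67

theorem ok68 : chk K t68 r35 = true :=
  chk_I (e' := [0,0,0,0,0,0,0,1]) (by decide +kernel) (by decide +kernel) ok66 ok67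

noncomputable def t69 : Tre :=
  .I [0,-1,-1,-2,0,0,0,-1] t53 t68

theorem ok69 : chk K t69 r34 = true :=
  chk_I (e' := [1,1,1,2,0,0,0,1]) (by decide +kernel) (by decide +kernel) ok53 ok68

noncomputable def t70 : Tre :=
  .I [0,0,2,0,0,-2,0,0,-1] t52 t69

theorem ok70 : chk K t70 r33 = true :=
  chk_I (e' := [1,0,-2,0,0,2,0,0,1]) (by decide +kernel) (by decide +kernel) ok52 ok69

noncomputable def t71 : Tre :=
  .I [0,-1,-2,-2,1] t51 t70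

theorem ok71 : chk K t71 r32 = true :=
  chk_I (e' := [1,1,2,2,-1]) (by decide +kernel) (by decide +kernel) ok51 ok70

noncomputable def t72 : Tre :=
  .Q [0,0,0,-1,0,0,-1,-1,0,-1,1] (.p true [0,0,1] [1] (⟨0,[(23,0)]⟩,⟨0,[(22,0)]⟩) .k 1 (⟨0,[]⟩,⟨0,
  []⟩) .k .k) t50 t71

theorem ok72 : chk K t72 r31 = true :=
  chk_Q (e' := [0,0,0,1,0,0,1,1,0,1,-1]) (by decide +kernel) (by decide +kernel) ok50 ok71

noncomputable def t73 : Tre :=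
  .I [1,0,0,1,0,0,0,1] t49 t72

theorem ok73 : chk K t73 r30 = true :=
  chk_I (e' := [0,0,0,-1,0,0,0,-1]) (by decide +kernel) (by decide +kernel) ok49 ok72

noncomputable def t74 : Tre :=
  .Q [0,-2,0,-1,1,0,0,0,-1,0,0,1] (.p true [0,0,0,0,1] [] (⟨0,[(14,0)]⟩,⟨0,[(13,0)]⟩) .k 0 (⟨0,[]⟩,
  ⟨0,[]⟩) .k .k) t48 t73

theorem ok74 : chk K t74 l29 = true :=
  chk_Q (e' := [0,2,0,1,-1,0,0,0,1,0,0,-1]) (by decide +kernel) (by decide +kernel) ok48 ok73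

noncomputable def t82 : Tre :=
  .I [0,1,1,0,-1,0,0,-1] t80 t81

theorem ok82 : chk K t82 r50 = true :=
  chk_I (e' := [1,-1,-1,0,1,0,0,1]) (by decide +kernel) (by decide +kernel) ok80 ok81

noncomputable def t83 : Tre :=
  .Q [0,0,0,-1,-1,0,0,0,1,0,0,-1] (.p false [0,0,0,0,1] [] (⟨0,[(21,0)]⟩,⟨0,[(20,0)]⟩) .k 0 (⟨0,[]⟩,
  ⟨0,[]⟩) .k .k) t79 t82

theorem ok83 : chk K t83 l49 = true :=
  chk_Q (e' := [0,0,0,1,1,0,0,0,-1,0,0,1]) (by decide +kernel) (by decide +kernel) ok79 ok82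

noncomputable def t85 : Tre :=
  .I [0,0,-1,-1,1,0,0,1] t83 t84

theorem ok85 : chk K t85 l48 = true :=
  chk_I (e' := [1,0,1,1,-1,0,0,-1]) (by decide +kernel) (by decide +kernel) ok83 ok84

noncomputable def t87 : Tre :=
  .I [1,1,-2,-1,0,0,0,-1] t85 t86

theorem ok87 : chk K t87 l47 = true :=
  chk_I (e' := [0,-1,2,1,0,0,0,1]) (by decide +kernel) (by decide +kernel) ok85 ok86

noncomputable def t90 : Tre :=
  .I [0,0,-1,-1,1,0,0,1] t88 t89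

theorem ok90 : chk K t90 l52 = true :=
  chk_I (e' := [1,0,1,1,-1,0,0,-1]) (by decide +kernel) (by decide +kernel) ok88 ok89

noncomputable def t92 : Tre :=
  .Q [0,0,0,1,0,0,1,1,0,1,-1] (.p false [0,0,1] [1] (⟨0,[(26,0)]⟩,⟨0,[(25,0)]⟩) .k 1 (⟨0,[]⟩,⟨0,
  []⟩) .k .k) t90 t91

theorem ok92 : chk K t92 r47 = true :=
  chk_Q (e' := [0,0,0,-1,0,0,-1,-1,0,-1,1]) (by decide +kernel) (by decide +kernel) ok90 ok91

noncomputable def t93 : Tre :=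
  .I [0,0,2,2,0,0,0,1] t87 t92

theorem ok93 : chk K t93 r46 = true :=
  chk_I (e' := [1,0,-2,-2,0,0,0,-1]) (by decide +kernel) (by decide +kernel) ok87 ok92

noncomputable def t94 : Tre :=
  .Q [0,0,0,0,0,2,0,0,0,-1,1] (.p true [0,0,1] [1] (⟨0,[(24,0)]⟩,⟨0,[(23,0)]⟩) .k 1 (⟨0,[]⟩,⟨0,[]⟩)
  .k .k) t78 t93

theorem ok94 : chk K t94 r45 = true :=
  chk_Q (e' := [0,0,0,0,0,-2,0,0,0,1,-1]) (by decide +kernel) (by decide +kernel) ok78 ok93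

noncomputable def t95 : Tre :=
  .I [1,0,0,1,0,0,0,1] t77 t94

theorem ok95 : chk K t95 r44 = true :=
  chk_I (e' := [0,0,0,-1,0,0,0,-1]) (by decide +kernel) (by decide +kernel) ok77 ok94

noncomputable def t96 : Tre :=
  .Q [0,0,1,0,0,0,0,0,0,-1] (.pp true [-1,1]) t76 t95

theorem ok96 : chk K t96 r43 = true :=
  chk_Q (e' := [0,0,-1,0,0,0,0,0,0,1]) (by decide +kernel) (by decide +kernel) ok76 ok95

noncomputable def t97 : Tre :=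
  .Q [0,-2,0,-1,1,0,0,0,-1,0,0,1] (.p true [0,0,0,0,1] [] (⟨0,[(14,0)]⟩,⟨0,[(13,0)]⟩) .k 0 (⟨0,[]⟩,
  ⟨0,[]⟩) .k .k) t75 t96

theorem ok97 : chk K t97 r29 = true :=
  chk_Q (e' := [0,2,0,1,-1,0,0,0,1,0,0,-1]) (by decide +kernel) (by decide +kernel) ok75 ok96

noncomputable def t98 : Tre :=
  .I [0,1,-2,-3] t74 t97

theorem ok98 : chk K t98 r28 = true :=
  chk_I (e' := [1,-1,2,3]) (by decide +kernel) (by decide +kernel) ok74 ok97

noncomputable def t99 : Tre :=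
  .Q [0,0,1,1,0,0,-1,0,0,0,1] (.p true [0,0,1] [] (⟨0,[(19,0)]⟩,⟨0,[(18,0)]⟩) .k 0 (⟨0,[]⟩,⟨0,[]⟩)
  .k .k) t47 t98

theorem ok99 : chk K t99 r5 = true :=
  chk_Q (e' := [0,0,-1,-1,0,0,1,0,0,0,-1]) (by decide +kernel) (by decide +kernel) ok47 ok98

noncomputable def t100 : Tre :=
  .I [1,-1,-2,-1,1] t46 t99

theorem ok100 : chk K t100 l4 = true :=
  chk_I (e' := [0,1,2,1,-1]) (by decide +kernel) (by decide +kernel) ok46 ok99

noncomputable def t102 : Tre :=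
  .Q [0,0,0,0,0,0,1,0,0,0,-1] (.p false [0,0,1] [] (⟨0,[(17,0)]⟩,⟨0,[(16,0)]⟩) .k 0 (⟨0,[]⟩,⟨0,[]⟩)
  .k .k) t100 t101

theorem ok102 : chk K t102 l3 = true :=
  chk_Q (e' := [0,0,0,0,0,0,-1,0,0,0,1]) (by decide +kernel) (by decide +kernel) ok100 ok101

noncomputable def t104 : Tre :=
  .Q [0,1,0,1,-1,0,0,0,1,1,0,-1] (.p false [0,0,0,0,1] [1] (⟨0,[(9,0)]⟩,⟨0,[(8,0)]⟩) .k 1 (⟨0,[]⟩,
  ⟨0,[]⟩) .k .k) t102 t103

theorem ok104 : chk K t104 l2 = true :=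
  chk_Q (e' := [0,-1,0,-1,1,0,0,0,-1,-1,0,1]) (by decide +kernel) (by decide +kernel) ok102 ok103

noncomputable def t106 : Tre :=
  .Q [0,1,0,0,-1,0,0,0,1,1,0,-1] (.p false [0,0,0,0,1] [1] (⟨0,[(8,0)]⟩,⟨0,[(7,0)]⟩) .k 1 (⟨0,[]⟩,
  ⟨0,[]⟩) .k .k) t104 t105

theorem ok106 : chk K t106 r1 = true :=
  chk_Q (e' := [0,-1,0,0,1,0,0,0,-1,-1,0,1]) (by decide +kernel) (by decide +kernel) ok104 ok105

noncomputable def t107 : Tre :=
  .I [1,-1,-1,-1,0,0,0,1] t1 t106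

theorem ok107 : chk K t107 r0 = true :=
  chk_I (e' := [0,1,1,1,0,0,0,-1]) (by decide +kernel) (by decide +kernel) ok1 ok106

noncomputable def t108 : Tre :=
  .Q [0,-1,0,-1,0,0,-1,-1,0,0,1] (.p true [0,0,1] [] (⟨0,[(13,0)]⟩,⟨0,[(12,0)]⟩) .k 0 (⟨0,[]⟩,⟨0,
  []⟩) .k .k) t0 t107

theorem ok108 : chk K t108 base = true :=
  chk_Q (e' := [0,1,0,1,0,0,1,1,0,0,-1]) (by decide +kernel) (by decide +kernel) ok0 ok107

theorem closed {p a b c J l q : ℤ} {D dl : ℝ} {Cl : ℤ → ℤ → ℤ → ℤ → ℝ → Prop}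
    (W : World p a b c J (-1) l q D dl Cl) (g : G0 p a b c J D)
    {N X R : ℤ} {I : ℝ} (hk : KCl p l Cl N X R I) (kz : KF a b D (X + (-1 : ℤ) * I) (X + (-1 : ℤ) * I + R) I)
    {Ne Xe : ℤ} {Ie : ℝ} (he : EFac p (-1) D Cl (a) Ne Xe Ie)
    (hkf : ∀ kf ∈ (kfY (-1) [0,0,0,0,0,0,1,0,0,0,-1]), KOk p l Cl (-1)
      (xv [1, a, b, c, p, J, X, R, Xe] [D, I, Ie]) N kf)
    (h0 : 1 ≤ -(c : ℝ))
    (h1 : 1 ≤ (a : ℝ) - (b : ℝ) + (c : ℝ))
    (h2 : 1 ≤ 2 * (a : ℝ) - (b : ℝ))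
    (h3 : 0 < -(b : ℝ) + (X : ℝ) + D - I)
    (h4 : 0 < -(J : ℝ) + I)
    (h5 : 0 < -(J : ℝ) + D - I)
    (h6 : 0 < 2 * (X : ℝ) + D - 2 * I) : False := by
  have g1 := g.a2
  have g2 := g.b2
  have g3 := g.pa
  have g4 := g.pb
  have g5 := g.J1
  have g6 := g.JD
  have g7 := g.D2
  have g8 := g.ca
  have g9 := g.ca'
  have k1 := kz.I0
  have k2 := kz.ID
  have k3 := kz.z1
  have k4 := kz.z2
  have k5 := kz.s1
  have k6 := kz.s2
  have e1 := he.I0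
  have e2 := he.ID
  have e3 := he.x0
  have e4 := he.xp
  push_cast at *
  refine (val_E W.toBase hk he (row := [0,1]) (by simp) (by simp) (kfY (-1) [0,0,0,0,0,0,1,0,0,0,-1])).sound W rfl (Nk := N)
    (fun kf _ _ => ⟨_, rfl⟩) hkf ?_ ok108
  · simp only [base, List.forall_mem_cons, List.not_mem_nil, false_imp_iff, implies_true,
      and_true, hld, xv, evg_cons, evg_nil, List.map_cons, List.map_nil, List.cons_append,
      List.nil_append, if_true, if_false, Bool.false_eq_true]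
    push_cast
    refine ⟨?_, ?_, ?_, ?_, ?_, ?_, ?_, ?_, ?_, ?_, ?_, ?_, ?_, ?_, ?_, ?_, ?_, ?_, ?_, ?_, ?_, ?_, ?_, ?_, ?_⟩ <;> linarith

end Helper25.S1T.Ymm_1c
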