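import Pool.Agent.Helper25.S1T.Ymm_1c_q

set_option autoImplicit false
set_option linter.all false

namespace Helper25.S1T.Ymm_1c

open Helper25.KG Helper25.KW Helper55.KE Helper11.CT

noncomputable def t0 : Tre :=
  (.Q [0,0,0,0,0,0,1,0,0,0,-1] (.p false [0,0,1] [] (⟨0,[(14,0)]⟩,⟨0,[(13,0)]⟩) .k 0 (⟨0,[]⟩,⟨0,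
  []⟩) .k .k) (.R ⟨2,true,false,true,[0,1],[0,1,1],[0,1,1],(⟨0,[]⟩,⟨0,[]⟩),(⟨0,[(15,0),(2,0)]⟩,⟨0,
  [(3,0)]⟩),⟨0,[]⟩,.k,.k,.k,.k,.k,.k,⟨false,0,⟨0,[(0,0),(0,0),(18,0),(1,0)]⟩,⟨0,[(10,0),(2,0),(6,0),
  (3,0)]⟩⟩,⟨true,0,⟨0,[(0,0)]⟩,⟨0,[(13,0)]⟩⟩,⟨false,0,⟨0,[(22,0)]⟩,⟨0,[(21,0),(2,0)]⟩⟩,⟨true,0,⟨0,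
  [(10,0)]⟩,⟨0,[(1,0),(19,0)]⟩⟩,⟨true,0,⟨0,[(26,0)]⟩,⟨0,[]⟩⟩,⟨false,1,⟨0,[(10,0),(10,0),(2,0)]⟩,⟨0,
  [(1,0)]⟩⟩,[]⟩) (.I [1,-1,-1,0,1,0,0,1] (.S ⟨1,0,[0,0,1,0,0,0,0,-1],[1,1,-1],[0,1,1,0,0,0,0,-1],
  (⟨0,[(15,0),(3,0)]⟩,⟨0,[(5,0)]⟩),⟨0,[(15,0)]⟩,.k,.k,⟨false,0,⟨0,[(23,0)]⟩,⟨0,[(22,0),(2,0)]⟩⟩,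
  ⟨true,0,⟨0,[(23,0)]⟩,⟨0,[(22,0)]⟩⟩,⟨true,0,⟨0,[(27,0)]⟩,⟨0,[]⟩⟩,⟨false,1,⟨1,[(6,0),(0,0),(17,0)]⟩,
  ⟨0,[]⟩⟩,[.e ⟨false,0,⟨2,[(2,1),(9,0),(0,2),(6,0),(0,1)]⟩,⟨0,[(0,0)]⟩⟩ ⟨false,0,⟨0,[(2,0),(10,0),
  (7,0)]⟩,⟨5,[(0,4),(5,0),(0,0),(3,0),(2,0),(5,1)]⟩⟩,.o ⟨false,1,⟨1,[(2,1),(14,0),(4,1),(2,0)]⟩,⟨0,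
  [(11,0)]⟩⟩,.o ⟨false,1,⟨1,[(1,1),(15,0),(6,0)]⟩,⟨0,[(13,0)]⟩⟩,.a ⟨true,0,⟨0,[(1,0)]⟩,⟨1,[(3,0),
  (11,0),(0,0)]⟩⟩ ⟨false,0,⟨0,[(2,0),(10,0),(7,0)]⟩,⟨1,[(0,1),(12,0),(0,0)]⟩⟩ ⟨true,0,⟨0,[(2,0),(10,
  0),(7,0)]⟩,⟨0,[(1,0),(9,0)]⟩⟩]⟩) (.I [0,-1,-1,-1,1,0,0,1] (.S ⟨1,0,[0,0,1,0,0,0,0,-1],[1,1,-1],[1,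
  1,1,1,0,0,0,-1],(⟨0,[(16,0),(3,0)]⟩,⟨0,[(6,0)]⟩),⟨0,[(16,0)]⟩,.k,.k,⟨false,0,⟨0,[]⟩,⟨1,[(7,0),(0,
  0),(17,0)]⟩⟩,⟨true,0,⟨0,[(24,0)]⟩,⟨0,[(23,0)]⟩⟩,⟨true,0,⟨0,[(23,0)]⟩,⟨0,[(24,0)]⟩⟩,⟨false,1,⟨1,
  [(7,0),(0,0),(17,0)]⟩,⟨0,[]⟩⟩,[.e ⟨false,0,⟨9,[(1,5),(2,1),(8,3),(4,0),(3,5),(0,3),(2,4)]⟩,⟨0,[(0,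
  0)]⟩⟩ ⟨false,0,⟨1,[(1,1),(23,0),(0,0)]⟩,⟨0,[(0,0),(22,0)]⟩⟩,.o ⟨false,1,⟨1,[(3,1),(14,0),(4,1),(2,
  0)]⟩,⟨0,[(12,0)]⟩⟩,.o ⟨false,1,⟨1,[(2,1),(15,0),(6,0)]⟩,⟨0,[(14,0)]⟩⟩,.a ⟨true,0,⟨0,[(2,0)]⟩,⟨1,
  [(4,0),(11,0),(0,0)]⟩⟩ ⟨false,0,⟨0,[(1,0),(20,0),(3,0)]⟩,⟨1,[(0,1),(13,0),(0,0)]⟩⟩ ⟨true,0,⟨1,[(1,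
  1),(23,0),(0,0)]⟩,⟨0,[(2,0),(9,0)]⟩⟩]⟩) (.I [0,0,-2,-2,1,0,0,1] (.K ⟨0,[0,-1,1],0,0,(⟨0,[(7,0)]⟩,
  ⟨0,[(17,0),(3,0)]⟩),.k,(.r (-1) ⟨0,[(0,0)]⟩ ⟨1,[(1,1),(13,0),(0,0),(7,1),(2,1)]⟩),.k,.k,.k,[⟨1,
  [(15,0),(0,0)]⟩,⟨0,[(3,0)]⟩,⟨2,[(1,0),(1,0),(10,1),(8,0),(0,0),(2,0)]⟩,⟨0,[(13,0),(11,0)]⟩]⟩) (.I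
  [0,0,-2,0,1,2,-1] (.K ⟨0,[0,-1,1],0,0,(⟨0,[(8,0)]⟩,⟨0,[(18,0),(3,0)]⟩),.k,(.x 0 ⟨3,[(1,1),(5,1),
  (0,5),(5,1),(1,2),(0,0),(2,0),(5,3),(1,0)]⟩ ⟨0,[(0,0)]⟩),.k,.k,.k,[⟨1,[(16,0),(0,0)]⟩,⟨0,[(4,0)]⟩,
  ⟨4,[(1,0),(2,0),(10,3),(8,1),(0,0),(2,0)]⟩,⟨0,[(14,0),(11,0)]⟩]⟩) (.I [0,0,2,2,-1,0,0,-1] (.K ⟨0,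
  [0,-1,1],0,0,(⟨0,[(9,0)]⟩,⟨0,[(19,0),(3,0)]⟩),.k,(.r (-2) ⟨1,[(15,1),(2,1),(8,3),(0,2),(0,0)]⟩ ⟨0,
  [(0,0)]⟩),.k,.k,.k,[⟨1,[(17,0),(0,0)]⟩,⟨0,[(5,0)]⟩,⟨4,[(2,0),(2,0),(10,3),(8,1),(0,0),(2,0)]⟩,⟨0,
  [(15,0),(11,0)]⟩]⟩) (.Q [0,0,0,1,0,0,1,1,0,1,-1] (.p false [0,0,1] [1] (⟨0,[(20,0)]⟩,⟨0,[(19,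
  0)]⟩) .k 1 (⟨0,[]⟩,⟨0,[]⟩) .k .k) (.R ⟨1,false,false,false,[1,-1],[1,-1,-1],[0,0,-1,-2],(⟨0,[(23,
  0)]⟩,⟨0,[(24,0)]⟩),(⟨0,[(9,0)]⟩,⟨0,[(21,0),(2,0)]⟩),⟨0,[(9,0),(0,0)]⟩,.k,.k,(.r (-1) ⟨5,[(1,3),(5,
  3),(0,1),(13,0),(2,1),(3,0)]⟩ ⟨3,[(0,1),(2,1),(14,0),(0,2),(2,0),(4,1),(2,0)]⟩),.k,.k,.k,⟨false,1,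
  ⟨5,[(0,1),(0,3),(9,0),(0,0),(6,1),(2,0)]⟩,⟨12,[(3,6),(0,1),(2,2),(0,1),(8,0),(4,0),(6,7)]⟩⟩,⟨true,
  0,⟨0,[(6,0)]⟩,⟨0,[(18,0)]⟩⟩,⟨true,0,⟨0,[(28,0)]⟩,⟨0,[(27,0)]⟩⟩,⟨true,0,⟨4,[(3,0),(2,0),(0,1),(9,
  1),(11,0)]⟩,⟨0,[(16,0)]⟩⟩,⟨false,1,⟨1,[(11,0),(0,0),(17,0)]⟩,⟨0,[]⟩⟩,⟨true,0,⟨4,[(3,2),(2,2),(0,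
  0),(9,0),(11,2)]⟩,⟨0,[(16,0),(11,0)]⟩⟩,[.a ⟨true,0,⟨1,[(7,0),(9,0),(10,0)]⟩,⟨0,[(0,0)]⟩⟩ ⟨false,1,
  ⟨5,[(1,3),(5,3),(0,1),(13,0),(2,1),(3,0)]⟩,⟨3,[(0,1),(2,1),(2,1),(15,0),(4,1),(2,0)]⟩⟩ ⟨true,0,⟨2,
  [(1,0),(3,0),(1,2),(18,1)]⟩,⟨3,[(2,1),(0,1),(2,3),(9,5),(3,1),(1,0),(1,3),(5,2)]⟩⟩,.a ⟨true,0,⟨0,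
  [(7,0)]⟩,⟨0,[(0,0),(31,0)]⟩⟩ ⟨true,1,⟨12,[(1,8),(5,7),(0,1),(8,0),(0,4),(3,0),(7,2)]⟩,⟨0,[(3,0),
  (2,0),(9,0)]⟩⟩ ⟨false,1,⟨0,[(7,0),(21,0)]⟩,⟨4,[(0,1),(2,0),(12,3),(1,0),(0,1),(2,0),(4,0)]⟩⟩,.a
  ⟨true,0,⟨1,[(18,0),(0,0)]⟩,⟨0,[(6,0),(8,0)]⟩⟩ ⟨false,1,⟨12,[(1,8),(5,7),(0,1),(8,0),(0,4),(3,0),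
  (7,2)]⟩,⟨3,[(0,1),(2,1),(2,1),(15,0),(4,1),(2,0)]⟩⟩ ⟨true,0,⟨2,[(1,0),(3,0),(1,2),(18,1)]⟩,⟨4,[(0,
  1),(2,0),(12,3),(1,0),(0,1),(2,0),(4,0)]⟩⟩,.o ⟨false,0,⟨0,[(2,0),(3,0),(13,0),(1,0),(1,1)]⟩,⟨0,
  [(29,0)]⟩⟩]⟩) (.Q [0,0,0,0,0,0,1,1,0,1,-1] (.p false [0,0,1] [1] (⟨0,[(21,0)]⟩,⟨0,[(20,0)]⟩) .k 1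
  (⟨0,[]⟩,⟨0,[]⟩) .k .k) (.R ⟨1,false,false,false,[1,-1],[0,-1,1],[1,0,1],(⟨0,[(24,0)]⟩,⟨0,[(25,
  0)]⟩),(⟨0,[(11,0)]⟩,⟨0,[(21,0),(3,0)]⟩),⟨0,[(10,0),(0,0)]⟩,.k,.k,(.r (-1) ⟨10,[(1,3),(0,7),(5,1),
  (0,3),(8,1),(11,2)]⟩ ⟨2,[(4,1),(12,1),(2,1),(7,1),(2,1)]⟩),.k,.k,.k,⟨true,(-1),⟨0,[(4,0),(24,0)]⟩,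
  ⟨2,[(2,1),(14,0),(2,0),(7,0),(2,0)]⟩⟩,⟨false,0,⟨0,[(16,0)]⟩,⟨1,[(20,1),(2,0),(6,0)]⟩⟩,⟨false,0,⟨3,
  [(3,1),(0,1),(2,3),(9,1),(3,1),(1,0),(1,3),(5,2)]⟩,⟨10,[(1,1),(0,3),(5,0),(0,1),(8,0),(11,6)]⟩⟩,
  ⟨true,0,⟨0,[(0,0)]⟩,⟨8,[(1,4),(2,1),(2,1),(10,1),(4,1),(2,2),(0,0)]⟩⟩,⟨false,0,⟨0,[(4,0),(2,0),(9,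
  0),(13,0)]⟩,⟨10,[(1,3),(0,7),(5,1),(0,3),(8,1),(11,2)]⟩⟩,⟨false,1,⟨0,[(0,0),(27,0),(2,0)]⟩,⟨0,[(1,
  0)]⟩⟩,[.e ⟨false,0,⟨0,[]⟩,⟨1,[(12,0),(0,0),(16,0)]⟩⟩ ⟨false,1,⟨11,[(0,7),(1,5),(6,1),(6,1),(1,1),
  (11,4),(0,0)]⟩,⟨9,[(4,5),(2,5),(0,1),(9,1),(4,4),(6,0)]⟩⟩,.o ⟨false,1,⟨0,[(17,0),(11,0),(1,0)]⟩,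
  ⟨2,[(1,0),(2,0),(2,0),(10,0),(4,0),(3,1)]⟩⟩,.a ⟨true,0,⟨1,[(19,0),(0,0)]⟩,⟨0,[(7,0),(8,0)]⟩⟩
  ⟨true,0,⟨1,[(19,0),(0,0)]⟩,⟨2,[(2,0),(3,0),(20,1)]⟩⟩ ⟨false,1,⟨14,[(0,10),(1,6),(5,0),(0,2),(6,0),
  (1,1),(12,7)]⟩,⟨9,[(4,5),(2,5),(0,1),(9,1),(4,4),(6,0)]⟩⟩,.o ⟨false,0,⟨0,[(3,0),(3,0),(13,0),(1,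
  0),(1,1)]⟩,⟨0,[(30,0)]⟩⟩]⟩) (.S ⟨1,0,[0,0,1,0,0,0,0,-1],[1,1,-1],[1,1,1,1,0,0,0,-1],(⟨0,[(21,0),
  (3,0)]⟩,⟨0,[(11,0)]⟩),⟨0,[(21,0)]⟩,.k,.k,⟨false,0,⟨0,[]⟩,⟨1,[(12,0),(0,0),(17,0)]⟩⟩,⟨true,0,⟨0,
  [(29,0)]⟩,⟨0,[(28,0)]⟩⟩,⟨true,0,⟨0,[(28,0)]⟩,⟨0,[(29,0)]⟩⟩,⟨false,1,⟨1,[(12,0),(0,0),(17,0)]⟩,⟨0,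
  []⟩⟩,[.o ⟨false,0,⟨0,[(0,0)]⟩,⟨1,[(12,0),(0,0),(3,1),(13,0)]⟩⟩,.o ⟨false,1,⟨3,[(0,1),(17,1),(4,0),
  (7,2)]⟩,⟨0,[(17,0)]⟩⟩,.o ⟨false,1,⟨1,[(7,1),(15,0),(6,0)]⟩,⟨0,[(19,0)]⟩⟩,.a ⟨true,0,⟨0,[(7,0)]⟩,
  ⟨1,[(9,0),(11,0),(0,0)]⟩⟩ ⟨false,0,⟨8,[(0,1),(3,4),(3,0),(0,1),(8,0),(11,4)]⟩,⟨0,[(7,0),(9,0),(11,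
  0),(1,0)]⟩⟩ ⟨true,0,⟨8,[(0,3),(3,0),(3,1),(0,3),(8,1),(11,0)]⟩,⟨0,[(7,0),(9,0)]⟩⟩]⟩)))))))))

theorem ok0 : chk K t0 l0 = true := by decide +kernel

noncomputable def t1 : Tre :=
  (.Q [0,0,0,0,0,0,-1,0,0,0,1] (.p true [0,0,1] [] (⟨0,[(15,0)]⟩,⟨0,[(14,0)]⟩) .k 0 (⟨0,[]⟩,⟨0,[]⟩)
  .k .k) (.R ⟨2,true,false,false,[0,1],[0,0,1],[0,0,1],(⟨0,[]⟩,⟨0,[]⟩),(⟨0,[(16,0)]⟩,⟨0,[(15,0)]⟩),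
  ⟨0,[]⟩,.k,.k,.k,.k,.k,.k,⟨false,1,⟨3,[(3,1),(2,0),(0,0),(4,3),(4,0),(7,1)]⟩,⟨2,[(0,0),(0,1),(0,0),
  (18,0)]⟩⟩,⟨true,0,⟨0,[(13,0)]⟩,⟨0,[(0,0)]⟩⟩,⟨true,0,⟨0,[(23,0)]⟩,⟨0,[(22,0)]⟩⟩,⟨false,0,⟨0,[(1,0),
  (11,0)]⟩,⟨0,[(12,0),(9,0),(2,0)]⟩⟩,⟨false,1,⟨1,[(6,0),(0,0),(17,0)]⟩,⟨0,[]⟩⟩,⟨true,0,⟨1,[(1,0),(0,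
  0),(10,0)]⟩,⟨0,[(12,0)]⟩⟩,[]⟩) (.I [1,1,-1,0,0,0,0,-1] (.S ⟨1,0,[0,0,1,0,0,0,0,1],[0,1,1],[0,1,1,
  0,0,0,0,1],(⟨0,[(17,0),(2,0)]⟩,⟨0,[(5,0)]⟩),⟨0,[(17,0)]⟩,.k,.k,⟨false,0,⟨0,[(24,0)]⟩,⟨0,[(23,0),
  (2,0)]⟩⟩,⟨true,0,⟨0,[(24,0)]⟩,⟨0,[(23,0)]⟩⟩,⟨true,0,⟨0,[(28,0)]⟩,⟨0,[]⟩⟩,⟨false,1,⟨1,[(7,0),(0,0),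
  (17,0)]⟩,⟨0,[]⟩⟩,[.o ⟨false,0,⟨1,[(2,0),(0,0),(10,0)]⟩,⟨1,[(13,1),(4,0),(7,0)]⟩⟩,.e ⟨false,0,⟨1,
  [(2,0),(0,0),(11,0)]⟩,⟨5,[(0,1),(3,1),(8,3),(4,0),(6,1),(0,2)]⟩⟩ ⟨false,1,⟨3,[(2,0),(0,0),(8,1),
  (2,2),(9,0),(0,2)]⟩,⟨0,[(0,0)]⟩⟩,.a ⟨true,0,⟨0,[(11,0)]⟩,⟨0,[(15,0)]⟩⟩ ⟨false,0,⟨1,[(2,0),(0,0),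
  (10,0),(0,1)]⟩,⟨0,[(0,0),(25,0)]⟩⟩ ⟨true,0,⟨1,[(2,0),(0,0),(10,0),(0,1)]⟩,⟨0,[(0,0)]⟩⟩,.o ⟨false,
  0,⟨0,[(1,0)]⟩,⟨1,[(15,1),(2,0),(6,0)]⟩⟩]⟩) (.S ⟨1,0,[0,0,0,-1,0,0,0,-1],[1,0,-1],[0,1,0,-1,0,0,0,
  -1],(⟨0,[(16,0)]⟩,⟨0,[(17,0)]⟩),⟨0,[(5,0)]⟩,.k,.k,⟨false,0,⟨0,[(24,0)]⟩,⟨0,[(23,0),(2,0)]⟩⟩,⟨true,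
  0,⟨0,[(24,0)]⟩,⟨0,[(23,0)]⟩⟩,⟨true,0,⟨0,[(28,0)]⟩,⟨0,[]⟩⟩,⟨false,1,⟨1,[(7,0),(0,0),(17,0)]⟩,⟨0,
  []⟩⟩,[.o ⟨false,1,⟨1,[(13,1),(4,0),(5,1),(1,0)]⟩,⟨0,[(0,0),(0,0),(20,0)]⟩⟩,.e ⟨false,1,⟨1,[(11,1),
  (1,1),(4,0),(5,1),(1,0)]⟩,⟨0,[(0,0),(21,0)]⟩⟩ ⟨false,1,⟨0,[(1,1),(0,0),(10,1),(12,0)]⟩,⟨3,[(2,0),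
  (0,2),(11,2),(6,1)]⟩⟩,.o ⟨false,1,⟨1,[(15,1),(2,0),(6,0)]⟩,⟨0,[(1,0)]⟩⟩,.a ⟨true,0,⟨0,[(15,0)]⟩,
  ⟨0,[(11,0)]⟩⟩ ⟨true,0,⟨0,[(1,1),(0,0),(10,1)]⟩,⟨0,[(0,0),(22,0)]⟩⟩ ⟨false,1,⟨0,[(1,1),(0,0),(10,
  1),(12,0)]⟩,⟨0,[(0,0),(22,0)]⟩⟩]⟩)))

theorem ok1 : chk K t1 l1 = true := by decide +kernel

noncomputable def t2 : Tre :=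
  (.I [1,0,-1,0,0,0,0,-1] (.S ⟨1,0,[0,0,0,-1,0,0,0,-1],[1,0,-1],[1,1,0,0,0,0,0,-1],(⟨0,[(21,0)]⟩,⟨0,
  [(22,0)]⟩),⟨0,[(10,0)]⟩,.k,.k,⟨false,0,⟨0,[]⟩,⟨1,[(12,0),(0,0),(17,0)]⟩⟩,⟨true,0,⟨0,[(29,0)]⟩,⟨0,
  [(28,0)]⟩⟩,⟨true,0,⟨0,[(28,0)]⟩,⟨0,[(29,0)]⟩⟩,⟨false,1,⟨1,[(12,0),(0,0),(17,0)]⟩,⟨0,[]⟩⟩,[.e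
  ⟨false,0,⟨22,[(0,16),(0,0),(5,1),(1,1),(8,3),(4,0),(2,7)]⟩,⟨0,[(1,0),(6,0),(11,0),(6,0),(3,1)]⟩⟩
  ⟨false,0,⟨0,[(0,0),(0,0),(25,0),(3,0),(0,0)]⟩,⟨1,[(8,1),(11,1),(9,0),(0,0)]⟩⟩,.o ⟨false,1,⟨1,[(0,
  0),(0,0),(16,0),(1,0),(2,0),(7,1)]⟩,⟨0,[(8,0)]⟩⟩,.o ⟨false,1,⟨1,[(20,1),(2,0),(6,0)]⟩,⟨0,[(4,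
  0)]⟩⟩,.a ⟨true,0,⟨0,[(20,0)]⟩,⟨0,[(16,0)]⟩⟩ ⟨false,0,⟨0,[(0,0)]⟩,⟨0,[(17,0),(2,0),(10,0)]⟩⟩ ⟨true,
  0,⟨0,[(0,0),(0,0),(25,0),(3,0),(0,0)]⟩,⟨0,[(8,0),(11,0)]⟩⟩]⟩) (.I [0,0,0,0,0,0,0,1] (.S ⟨1,0,[0,0,
  1,0,0,0,0,1],[0,1,1],[0,1,1,0,0,0,0,1],(⟨0,[(23,0),(2,0)]⟩,⟨0,[(11,0)]⟩),⟨0,[(23,0)]⟩,.k,.k,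
  ⟨false,0,⟨0,[(30,0)]⟩,⟨0,[(29,0),(2,0)]⟩⟩,⟨true,0,⟨0,[(30,0)]⟩,⟨0,[(29,0)]⟩⟩,⟨true,0,⟨0,[(34,0)]⟩,
  ⟨0,[]⟩⟩,⟨false,1,⟨1,[(13,0),(0,0),(17,0)]⟩,⟨0,[]⟩⟩,[.o ⟨false,0,⟨0,[(0,0),(4,0)]⟩,⟨1,[(19,1),(4,
  0),(7,0)]⟩⟩,.e ⟨false,0,⟨0,[(0,0)]⟩,⟨6,[(3,2),(0,2),(5,1),(8,3),(4,0),(2,0)]⟩⟩ ⟨false,1,⟨1,[(1,1),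
  (29,0),(0,0)]⟩,⟨0,[(2,0),(0,0),(24,0)]⟩⟩,.a ⟨true,0,⟨0,[(17,0)]⟩,⟨0,[(21,0)]⟩⟩ ⟨false,0,⟨0,[(1,
  0)]⟩,⟨0,[(2,0),(0,0),(24,0),(3,0)]⟩⟩ ⟨true,0,⟨0,[(1,0)]⟩,⟨0,[(2,0),(0,0),(24,0)]⟩⟩,.o ⟨false,0,⟨0,
  [(5,0)]⟩,⟨1,[(21,1),(2,0),(6,0)]⟩⟩]⟩) (.S ⟨1,0,[0,0,0,-1,0,0,0,-1],[1,0,-1],[1,1,1],(⟨0,[(22,0)]⟩,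
  ⟨0,[(23,0)]⟩),⟨0,[(11,0)]⟩,.k,.k,⟨false,0,⟨0,[(1,0)]⟩,⟨0,[(0,0),(1,0),(25,1),(3,1),(0,0)]⟩⟩,⟨true,
  0,⟨0,[(30,0)]⟩,⟨0,[(29,0)]⟩⟩,⟨true,0,⟨0,[(9,0),(11,0)]⟩,⟨0,[(0,0),(1,0),(25,0),(3,0)]⟩⟩,⟨false,1,
  ⟨1,[(13,0),(0,0),(17,0)]⟩,⟨0,[]⟩⟩,[.e ⟨false,0,⟨0,[(34,0)]⟩,⟨1,[(31,0),(0,0)]⟩⟩ ⟨false,0,⟨0,[(0,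
  0),(1,0),(25,0),(3,0)]⟩,⟨1,[(9,1),(11,1),(9,0),(0,0)]⟩⟩,.o ⟨false,1,⟨1,[(0,1),(1,1),(18,1),(2,0),
  (3,1),(3,2)]⟩,⟨0,[(9,0)]⟩⟩,.o ⟨false,1,⟨1,[(21,1),(2,0),(6,0)]⟩,⟨0,[(5,0)]⟩⟩,.a ⟨true,0,⟨0,[(21,
  0)]⟩,⟨0,[(17,0)]⟩⟩ ⟨false,0,⟨0,[]⟩,⟨1,[(13,0),(0,0),(17,0)]⟩⟩ ⟨true,0,⟨0,[(0,0),(1,0),(25,0),(3,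
  0)]⟩,⟨0,[(9,0),(11,0)]⟩⟩]⟩)))

theorem ok2 : chk K t2 l7 = true := by decide +kernel

noncomputable def t3 : Tre :=
  (.S ⟨1,0,[0,0,0,-1,0,0,0,-1],[1,0,-1],[0,1,0,-1,0,0,0,-1],(⟨0,[(22,0)]⟩,⟨0,[(23,0)]⟩),⟨0,[(11,
  0)]⟩,.k,.k,⟨false,0,⟨0,[(30,0)]⟩,⟨1,[(0,0),(2,0)]⟩⟩,⟨true,0,⟨0,[(30,0)]⟩,⟨0,[(29,0)]⟩⟩,⟨true,0,⟨0,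
  [(34,0)]⟩,⟨0,[]⟩⟩,⟨false,1,⟨1,[(13,0),(0,0),(17,0)]⟩,⟨0,[]⟩⟩,[.e ⟨false,0,⟨4,[(1,3),(17,0),(0,0),
  (6,1),(2,0)]⟩,⟨0,[(0,0)]⟩⟩ ⟨false,0,⟨0,[(1,0)]⟩,⟨0,[(0,0),(33,0)]⟩⟩,.o ⟨false,1,⟨1,[(1,1),(19,1),
  (2,0),(7,0)]⟩,⟨0,[(9,0)]⟩⟩,.o ⟨false,1,⟨1,[(21,1),(2,0),(6,0)]⟩,⟨0,[(5,0)]⟩⟩,.a ⟨true,0,⟨0,[(21,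
  0)]⟩,⟨0,[(17,0)]⟩⟩ ⟨false,0,⟨0,[(1,0)]⟩,⟨1,[(0,1),(19,0),(0,0)]⟩⟩ ⟨true,0,⟨0,[(1,0)]⟩,⟨0,[(9,0),
  (11,0)]⟩⟩]⟩)

theorem ok3 : chk K t3 l9 = true := by decide +kernel

noncomputable def t4 : Tre :=
  (.S ⟨1,0,[0,0,0,-1,0,0,0,-1],[1,0,-1],[1,1,0,0,0,0,0,-1],(⟨0,[(23,0)]⟩,⟨0,[(24,0)]⟩),⟨0,[(12,0)]⟩,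
  .k,.k,⟨false,0,⟨0,[]⟩,⟨1,[(14,0),(0,0),(17,0)]⟩⟩,⟨true,0,⟨0,[(31,0)]⟩,⟨0,[(30,0)]⟩⟩,⟨true,0,⟨0,
  [(30,0)]⟩,⟨0,[(31,0)]⟩⟩,⟨false,1,⟨1,[(14,0),(0,0),(17,0)]⟩,⟨0,[]⟩⟩,[.e ⟨false,0,⟨6,[(2,4),(6,1),
  (18,0),(0,2)]⟩,⟨0,[(0,0)]⟩⟩ ⟨false,0,⟨0,[(2,0)]⟩,⟨0,[(0,0),(29,0)]⟩⟩,.o ⟨false,1,⟨1,[(2,1),(19,1),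
  (2,0),(7,0)]⟩,⟨0,[(10,0)]⟩⟩,.o ⟨false,1,⟨1,[(22,1),(2,0),(6,0)]⟩,⟨0,[(6,0)]⟩⟩,.a ⟨true,0,⟨0,[(22,
  0)]⟩,⟨0,[(18,0)]⟩⟩ ⟨false,0,⟨0,[(1,0),(27,0),(3,0)]⟩,⟨1,[(0,1),(20,0),(0,0)]⟩⟩ ⟨true,0,⟨0,[(2,
  0)]⟩,⟨0,[(10,0),(11,0)]⟩⟩]⟩)

theorem ok4 : chk K t4 l10 = true := by decide +kernel

noncomputable def t5 : Tre :=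
  (.S ⟨1,0,[0,0,1,0,0,0,0,-1],[1,1,-1],[1,1,1,1,0,0,0,-1],(⟨0,[(26,0),(3,0)]⟩,⟨0,[(16,0)]⟩),⟨0,[(26,
  0)]⟩,.k,.k,⟨false,0,⟨0,[]⟩,⟨1,[(0,0),(6,0)]⟩⟩,⟨true,0,⟨0,[(34,0)]⟩,⟨0,[(33,0)]⟩⟩,⟨true,0,⟨0,[(33,
  0)]⟩,⟨0,[(34,0)]⟩⟩,⟨false,1,⟨1,[(0,0),(6,0)]⟩,⟨0,[]⟩⟩,[.a ⟨true,0,⟨4,[(3,3),(2,0),(1,1),(14,0),(1,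
  3),(10,0)]⟩,⟨0,[(1,0),(32,0)]⟩⟩ ⟨true,(-1),⟨0,[(3,1),(9,0),(11,0),(10,0)]⟩,⟨0,[(0,0)]⟩⟩ ⟨false,0,
  ⟨1,[(4,0),(2,0)]⟩,⟨0,[(0,0),(31,0)]⟩⟩,.o ⟨false,1,⟨2,[(2,0),(0,1),(19,0),(1,0),(2,0),(7,2)]⟩,⟨0,
  [(22,0)]⟩⟩,.o ⟨false,1,⟨0,[(2,0)]⟩,⟨0,[(24,0)]⟩⟩,.o ⟨false,1,⟨4,[(0,0),(1,2),(9,0),(12,1),(2,0)]⟩,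
  ⟨0,[(9,0)]⟩⟩]⟩)

theorem ok5 : chk K t5 l13 = true := by decide +kernel

noncomputable def t6 : Tre :=
  (.R ⟨1,false,false,false,[1,-1],[0,0,1],[1,1],(⟨0,[(31,0)]⟩,⟨0,[(32,0)]⟩),(⟨0,[(29,0)]⟩,⟨0,[(28,
  0)]⟩),⟨0,[(17,0),(0,0)]⟩,.k,.k,(.r (-1) ⟨4,[(10,3),(8,0),(0,0),(12,1),(2,5)]⟩ ⟨1,[(2,1),(12,1),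
  (10,0),(0,2),(10,1)]⟩),.k,(.r 0 ⟨0,[(6,0),(3,0)]⟩ ⟨1,[(8,1),(15,1),(1,0),(0,2)]⟩),.k,⟨true,(-1),
  ⟨0,[(5,0)]⟩,⟨0,[(24,0),(2,0),(10,0)]⟩⟩,⟨false,0,⟨0,[(1,0),(9,0)]⟩,⟨1,[(19,0),(0,0),(6,1),(2,0)]⟩⟩,
  ⟨false,0,⟨3,[(2,1),(12,1),(10,0),(0,2),(10,1)]⟩,⟨3,[(10,1),(8,0),(0,0),(15,1),(1,0)]⟩⟩,⟨true,0,⟨0,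
  [(3,0)]⟩,⟨3,[(0,1),(4,0),(19,0),(1,0),(2,0),(2,0)]⟩⟩,⟨false,0,⟨0,[(2,0),(12,0),(11,0),(10,0)]⟩,⟨3,
  [(10,1),(8,0),(0,0),(15,5),(1,0)]⟩⟩,⟨false,1,⟨3,[(3,3),(4,1),(10,0),(0,0),(17,0)]⟩,⟨0,[(0,0)]⟩⟩,
  [.e ⟨false,0,⟨3,[(0,0),(0,0),(13,0),(17,0),(0,0)]⟩,⟨1,[(19,0),(0,0),(17,0)]⟩⟩ ⟨false,1,⟨6,[(3,5),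
  (6,5),(2,0),(5,1),(0,0),(3,0),(8,1)]⟩,⟨5,[(0,1),(1,3),(23,0),(0,4),(2,1),(7,1)]⟩⟩,.o ⟨false,1,⟨0,
  [(24,0),(13,0)]⟩,⟨16,[(0,3),(1,7),(1,2),(20,4),(1,4),(2,4),(2,1)]⟩⟩,.e ⟨false,0,⟨0,[]⟩,⟨1,[(19,0),
  (0,0),(17,0)]⟩⟩ ⟨false,1,⟨3,[(3,3),(6,1),(8,0),(0,0),(15,1),(1,0)]⟩,⟨5,[(0,1),(1,3),(23,0),(0,4),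
  (2,1),(7,1)]⟩⟩,.a ⟨true,0,⟨0,[(26,0),(0,0)]⟩,⟨0,[(1,0)]⟩⟩ ⟨true,0,⟨3,[(0,0),(0,0),(13,0),(17,0),
  (0,0)]⟩,⟨1,[(26,0),(0,0)]⟩⟩ ⟨false,1,⟨0,[(3,0),(6,0)]⟩,⟨2,[(0,0),(1,1),(23,1),(0,3),(2,0),(7,
  0)]⟩⟩]⟩)

theorem ok6 : chk K t6 l15 = true := by decide +kernel

noncomputable def t7 : Tre :=
  (.R ⟨1,false,false,false,[1,-1],[0,0,0,0,1],[0,1,1],(⟨0,[(32,0)]⟩,⟨0,[(33,0)]⟩),(⟨0,[(23,0)]⟩,⟨0,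
  [(22,0)]⟩),⟨0,[(18,0),(0,0)]⟩,.k,.k,(.r (-1) ⟨4,[(0,2),(10,3),(2,2),(5,0),(0,0),(12,1)]⟩ ⟨2,[(1,
  1),(1,1),(23,1),(0,3),(2,0),(7,0)]⟩),(.r (-1) ⟨3,[(0,0),(10,1),(2,0),(5,0),(0,0),(17,0)]⟩ ⟨1,[(15,
  0),(0,0),(11,0)]⟩),(.r (-1) ⟨1,[(0,0),(10,1),(2,0)]⟩ ⟨7,[(1,3),(1,1),(11,3),(0,1),(10,2),(0,8),(2,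
  1)]⟩),.k,⟨true,0,⟨1,[(27,0),(0,0)]⟩,⟨0,[]⟩⟩,⟨false,0,⟨0,[(2,0),(18,0)]⟩,⟨15,[(0,7),(0,3),(1,5),
  (12,1),(3,7),(6,4),(0,10),(2,5)]⟩⟩,⟨false,0,⟨5,[(1,1),(1,1),(23,4),(0,6),(2,0),(7,0)]⟩,⟨0,[(11,
  0)]⟩⟩,⟨true,(-1),⟨0,[(13,0)]⟩,⟨5,[(0,3),(2,0),(12,0),(3,1),(7,0),(2,0),(2,0)]⟩⟩,⟨false,0,⟨2,[(1,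
  1),(1,1),(23,1),(0,3),(2,0),(7,0)]⟩,⟨1,[(0,0),(10,1),(2,0)]⟩⟩,⟨false,0,⟨0,[(9,0),(4,0)]⟩,⟨0,[(0,
  0)]⟩⟩,[.e ⟨false,0,⟨0,[(41,0)]⟩,⟨1,[(38,0),(0,0)]⟩⟩ ⟨false,0,⟨0,[(14,0),(23,0)]⟩,⟨5,[(0,5),(0,3),
  (1,3),(23,0),(0,4),(2,1),(7,1)]⟩⟩,.o ⟨false,0,⟨0,[(21,0)]⟩,⟨12,[(0,7),(0,3),(1,5),(1,2),(10,1),(3,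
  4),(7,2),(2,2)]⟩⟩,.e ⟨false,0,⟨1,[(27,0),(0,0)]⟩,⟨1,[(38,0),(0,0)]⟩⟩ ⟨false,0,⟨1,[(14,1),(23,0),
  (0,0)]⟩,⟨5,[(0,5),(0,3),(1,3),(23,0),(0,4),(2,1),(7,1)]⟩⟩,.a ⟨true,0,⟨0,[(27,0),(0,0)]⟩,⟨0,[(2,
  0)]⟩⟩ ⟨true,0,⟨0,[(41,0)]⟩,⟨0,[]⟩⟩ ⟨false,0,⟨0,[(2,0),(18,0)]⟩,⟨2,[(0,2),(0,1),(1,1),(23,1),(0,3),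
  (2,0),(7,0)]⟩⟩]⟩)

theorem ok7 : chk K t7 l16 = true := by decide +kernel

noncomputable def t8 : Tre :=
  (.Q [0,0,0,0,0,2,0,0,0,-1,1] (.p true [0,0,1] [1] (⟨0,[(31,0)]⟩,⟨0,[(30,0)]⟩) .k 1 (⟨0,[]⟩,⟨0,
  []⟩) .k .k) (.Q [0,0,-1,-1,0,0,1,0,0,0,-1] (.p false [0,0,1] [] (⟨0,[(32,0)]⟩,⟨0,[(31,0)]⟩) .k 0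
  (⟨0,[]⟩,⟨0,[]⟩) .k .k) (.R ⟨0,false,false,false,[1,-1,-1],[1,-1],[1,1],(⟨0,[(21,0)]⟩,⟨1,[(1,0),
  (30,0),(0,1)]⟩),(⟨0,[(35,0)]⟩,⟨0,[(36,0)]⟩),⟨0,[(1,0)]⟩,.k,.k,(.r 0 ⟨0,[(10,0),(3,0)]⟩ ⟨1,[(12,1),
  (15,1),(1,0),(0,2)]⟩),.k,.k,.k,⟨false,0,⟨0,[(39,0)]⟩,⟨3,[(14,1),(8,0),(0,0),(15,1),(1,0)]⟩⟩,⟨true,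
  0,⟨0,[(15,0)]⟩,⟨0,[(31,0)]⟩⟩,⟨true,0,⟨0,[(19,0),(11,0)]⟩,⟨0,[(11,0)]⟩⟩,⟨false,1,⟨0,[(28,0),(13,
  0)]⟩,⟨5,[(5,0),(2,0),(0,3),(19,1),(1,2),(10,2)]⟩⟩,⟨false,0,⟨0,[]⟩,⟨0,[]⟩⟩,⟨false,0,⟨0,[]⟩,⟨0,[]⟩⟩,
  [.a ⟨true,0,⟨0,[(40,0)]⟩,⟨4,[(4,1),(0,0),(3,0),(3,0),(17,1),(0,1),(0,1)]⟩⟩ ⟨false,0,⟨3,[(5,0),(2,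
  0),(1,0),(8,0),(17,0)]⟩,⟨1,[(23,0),(0,0),(17,0)]⟩⟩ ⟨true,0,⟨0,[(0,0)]⟩,⟨5,[(4,1),(1,1),(23,1),(0,
  9),(2,0),(7,0)]⟩⟩,.o ⟨false,1,⟨1,[(34,0),(5,1),(1,0)]⟩,⟨0,[(39,0)]⟩⟩,.a ⟨true,0,⟨0,[(31,0)]⟩,⟨0,
  [(27,0)]⟩⟩ ⟨false,0,⟨0,[]⟩,⟨1,[(23,0),(0,0),(17,0)]⟩⟩ ⟨true,0,⟨0,[(0,0)]⟩,⟨0,[(31,0),(7,0)]⟩⟩,.a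
  ⟨true,0,⟨1,[(30,0),(0,2)]⟩,⟨8,[(0,4),(3,0),(0,4),(0,0),(5,0),(14,2)]⟩⟩ ⟨true,0,⟨3,[(5,0),(2,0),(1,
  0),(8,0),(17,0)]⟩,⟨1,[(30,0),(0,0)]⟩⟩ ⟨false,1,⟨11,[(0,7),(11,1),(1,7),(5,1),(13,0),(7,0)]⟩,⟨5,
  [(4,1),(1,1),(23,1),(0,9),(2,0),(7,0)]⟩⟩]⟩) (.R ⟨0,false,false,false,[1,-1,-1],[1,-1],[1,1],(⟨0,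
  [(21,0)]⟩,⟨1,[(1,0),(30,0),(0,1)]⟩),(⟨0,[(35,0)]⟩,⟨0,[(36,0)]⟩),⟨0,[(1,0)]⟩,.k,.k,(.r 0 ⟨0,[(10,
  0),(3,0)]⟩ ⟨1,[(12,1),(15,1),(1,0),(0,2)]⟩),.k,.k,.k,⟨false,0,⟨0,[(39,0)]⟩,⟨3,[(14,1),(8,0),(0,0),
  (15,1),(1,0)]⟩⟩,⟨true,0,⟨0,[(15,0)]⟩,⟨0,[(31,0)]⟩⟩,⟨true,0,⟨0,[(19,0),(11,0)]⟩,⟨0,[(11,0)]⟩⟩,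
  ⟨false,1,⟨0,[(28,0),(13,0)]⟩,⟨0,[(0,0),(10,0)]⟩⟩,⟨false,0,⟨0,[]⟩,⟨0,[]⟩⟩,⟨false,0,⟨0,[]⟩,⟨0,[]⟩⟩,
  [.e ⟨false,0,⟨3,[(5,0),(2,0),(1,0),(8,0),(17,0)]⟩,⟨1,[(23,0),(0,0),(17,0)]⟩⟩ ⟨false,1,⟨16,[(10,0),
  (3,13),(5,7),(7,0),(5,3),(2,5),(2,1)]⟩,⟨0,[(0,0)]⟩⟩,.o ⟨false,1,⟨1,[(34,0),(5,1),(1,0)]⟩,⟨0,[(39,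
  0)]⟩⟩,.e ⟨false,0,⟨0,[]⟩,⟨1,[(23,0),(0,0),(17,0)]⟩⟩ ⟨false,1,⟨0,[(14,0),(15,0)]⟩,⟨0,[(0,0)]⟩⟩,.a
  ⟨true,0,⟨1,[(30,0),(0,2)]⟩,⟨0,[(5,0),(9,0)]⟩⟩ ⟨true,0,⟨3,[(5,0),(2,0),(1,0),(8,0),(17,0)]⟩,⟨1,
  [(30,0),(0,0)]⟩⟩ ⟨false,1,⟨0,[(14,0),(0,0)]⟩,⟨1,[(0,1),(29,0),(0,0)]⟩⟩]⟩)) (.Q [0,0,-1,-1,0,0,0,0,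
  1,0,0,-1] (.p false [0,0,0,0,1] [] (⟨0,[(25,0)]⟩,⟨0,[(24,0)]⟩) .k 0 (⟨0,[]⟩,⟨0,[]⟩) .k .k) (.Q [0,
  0,0,-1,1,0,0,0,-1,-1,0,1] (.p true [0,0,0,0,1] [1] (⟨0,[(26,0)]⟩,⟨0,[(25,0)]⟩) .k 1 (⟨0,[]⟩,⟨0,
  []⟩) .k .k) (.Q [0,0,0,0,1,0,0,0,-1,-1,0,1] (.p true [0,0,0,0,1] [1] (⟨0,[(27,0)]⟩,⟨0,[(26,0)]⟩)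
  .k 1 (⟨0,[]⟩,⟨0,[]⟩) .k .k) (.Q [0,1,0,1,-1,0,-1,-1,1,0,1,-1] (.p true [0,0,1] [0,0,0,0,1] (⟨0,
  [(35,0)]⟩,⟨0,[(34,0)]⟩) .k 2 (⟨0,[(28,0)]⟩,⟨0,[(27,0)]⟩) .k (.r (-2) ⟨3,[(9,0),(0,0),(5,0),(8,2),
  (0,2),(3,2),(2,2),(10,2)]⟩ ⟨1,[(8,0),(3,0)]⟩)) (.Q [0,0,0,0,0,-1,0,0,0,1,0,-1] (.ed true [0,1,0,0,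
  1] .k) (.Q [0,0,-1,0,0,0,0,0,1,0,0,-1] (.p false [0,0,0,0,1] [] (⟨0,[(30,0)]⟩,⟨0,[(29,0)]⟩) .k 0
  (⟨0,[]⟩,⟨0,[]⟩) .k .k) (.Q [0,-1,0,-1,1,0,0,0,-1,0,0,1] (.p true [0,0,0,0,1] [] (⟨0,[(31,0)]⟩,⟨0,
  [(30,0)]⟩) .k 0 (⟨0,[]⟩,⟨0,[]⟩) .k .k) (.S ⟨1,0,[0,-1,0,-1],[1,0,0,0,-1],[1],(⟨0,[(31,0)]⟩,⟨0,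
  [(32,0)]⟩),⟨0,[(2,0)]⟩,.k,(.r (-1) ⟨1,[(0,0),(19,0),(9,0)]⟩ ⟨1,[(24,0),(0,0),(11,0)]⟩),⟨false,0,
  ⟨0,[]⟩,⟨1,[(29,0),(0,0),(17,0)]⟩⟩,⟨true,0,⟨0,[(46,0)]⟩,⟨0,[(45,0)]⟩⟩,⟨true,0,⟨0,[(45,0)]⟩,⟨0,[(46,
  0)]⟩⟩,⟨false,1,⟨1,[(29,0),(0,0),(17,0)]⟩,⟨0,[]⟩⟩,[.a ⟨true,1,⟨0,[(0,0)]⟩,⟨0,[(22,0)]⟩⟩ ⟨true,0,⟨0,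
  []⟩,⟨1,[(36,0),(0,0)]⟩⟩ ⟨false,1,⟨1,[(0,0),(19,0),(9,0)]⟩,⟨0,[(45,0)]⟩⟩,.o ⟨false,2,⟨1,[(0,1),(39,
  0),(7,0)]⟩,⟨0,[(3,0),(30,0)]⟩⟩,.o ⟨false,1,⟨0,[(4,0)]⟩,⟨0,[(30,0)]⟩⟩,.o ⟨false,1,⟨1,[(4,1),(31,0),
  (0,0)]⟩,⟨0,[(1,0)]⟩⟩]⟩) (.R ⟨1,false,false,false,[1,0,0,0,-1],[1,-1],[1],(⟨0,[(31,0)]⟩,⟨0,[(32,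
  0)]⟩),(⟨0,[(41,0)]⟩,⟨0,[(42,0)]⟩),⟨0,[(2,0)]⟩,.k,.k,(.r (-1) ⟨2,[(6,0),(13,0),(8,0),(16,0),(1,
  0)]⟩ ⟨1,[(24,0),(0,0),(11,0)]⟩),(.r (-1) ⟨3,[(18,1),(10,0),(0,0),(5,1),(0,1),(10,0)]⟩ ⟨3,[(11,0),
  (2,0),(1,0),(17,0),(8,0),(2,2)]⟩),.k,.k,⟨true,0,⟨5,[(10,1),(1,1),(23,1),(0,3),(2,0),(7,0)]⟩,⟨0,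
  [(46,0)]⟩⟩,⟨false,0,⟨0,[(30,0)]⟩,⟨1,[(4,0),(6,0),(17,0)]⟩⟩,⟨false,0,⟨0,[]⟩,⟨1,[(29,0),(0,0),(17,
  0)]⟩⟩,⟨true,(-1),⟨0,[(0,0),(45,1)]⟩,⟨9,[(4,2),(5,1),(0,0),(0,1),(5,1),(10,6),(7,1)]⟩⟩,⟨true,0,⟨0,
  [(45,0)]⟩,⟨0,[(46,0)]⟩⟩,⟨true,(-1),⟨0,[(0,0),(45,0)]⟩,⟨0,[(29,0)]⟩⟩,[.a ⟨true,0,⟨0,[(46,0)]⟩,⟨4,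
  [(10,1),(0,0),(3,0),(3,0),(17,1),(0,1),(0,1)]⟩⟩ ⟨true,0,⟨0,[]⟩,⟨1,[(36,0),(0,0)]⟩⟩ ⟨false,0,⟨0,
  [(6,0)]⟩,⟨9,[(4,2),(5,1),(0,0),(0,1),(5,1),(10,6),(7,1)]⟩⟩,.o ⟨false,1,⟨1,[(40,0),(5,1),(1,0)]⟩,
  ⟨0,[(45,0)]⟩⟩,.o ⟨false,1,⟨0,[(4,0)]⟩,⟨0,[(30,0)]⟩⟩,.o ⟨false,1,⟨1,[(4,1),(31,0),(0,0)]⟩,⟨0,[(1,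
  0)]⟩⟩]⟩)) (.Q [0,0,0,0,0,-1,0,0,0,0,0,1] (.ed false [1,-1,0,0,1] .k) (.S ⟨1,0,[0,2,0,-1],[0,0,0,0,
  1],[1,1],(⟨0,[(32,0)]⟩,⟨0,[(31,0)]⟩),⟨0,[(0,0)]⟩,.k,(.r 0 ⟨3,[(11,0),(2,0),(1,0),(17,0),(8,0),(2,
  2)]⟩ ⟨3,[(18,1),(10,0),(0,0),(5,1),(0,1),(10,0)]⟩),⟨true,0,⟨0,[]⟩,⟨0,[(50,0)]⟩⟩,⟨false,0,⟨0,[(46,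
  0)]⟩,⟨3,[(18,1),(10,0),(0,0),(17,0)]⟩⟩,⟨false,1,⟨3,[(18,1),(10,0),(0,0),(17,0)]⟩,⟨0,[(46,0)]⟩⟩,
  ⟨true,0,⟨0,[(50,0)]⟩,⟨0,[]⟩⟩,[.o ⟨false,(-1),⟨2,[(3,0),(2,1),(9,1),(17,2),(2,1)]⟩,⟨5,[(1,1),(2,3),
  (5,1),(1,1),(1,1),(25,0),(7,6)]⟩⟩,.a ⟨true,(-1),⟨0,[(23,0),(22,0)]⟩,⟨6,[(1,4),(2,1),(5,0),(0,1),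
  (0,0),(1,0),(3,1),(29,2)]⟩⟩ ⟨true,0,⟨0,[]⟩,⟨1,[(36,0),(0,0)]⟩⟩ ⟨false,0,⟨3,[(11,0),(2,0),(1,0),
  (17,0),(8,0),(2,2)]⟩,⟨3,[(18,1),(10,0),(0,0),(17,0)]⟩⟩,.o ⟨false,0,⟨0,[(30,0)]⟩,⟨0,[(4,0)]⟩⟩,.o
  ⟨false,0,⟨1,[(30,1),(5,0),(0,0)]⟩,⟨0,[(1,0),(9,0),(28,0)]⟩⟩]⟩) (.R ⟨0,false,false,true,[0,0,0,0,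
  1],[0,1],[1,1,1,1],(⟨0,[(32,0)]⟩,⟨0,[(31,0)]⟩),(⟨0,[(42,0)]⟩,⟨0,[(41,0)]⟩),⟨0,[(0,0)]⟩,.k,.k,(.r
  0 ⟨3,[(11,0),(2,0),(1,0),(17,0),(8,0),(2,2)]⟩ ⟨3,[(18,1),(10,0),(0,0),(5,1),(0,1),(10,0)]⟩),(.r 0
  ⟨3,[(11,0),(2,0),(1,0),(17,0),(8,0),(2,2)]⟩ ⟨3,[(18,1),(10,0),(0,0),(5,1),(0,1),(10,0)]⟩),.k,.k,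
  ⟨true,0,⟨0,[]⟩,⟨1,[(36,0),(0,0)]⟩⟩,⟨false,1,⟨0,[(4,0),(6,0)]⟩,⟨1,[(30,1),(5,0),(0,0)]⟩⟩,⟨true,0,
  ⟨5,[(1,1),(1,1),(6,1),(25,1),(0,1),(2,0),(7,0)]⟩,⟨3,[(11,0),(2,0),(1,0),(17,0),(8,0),(2,2)]⟩⟩,
  ⟨false,1,⟨6,[(1,4),(2,1),(5,0),(0,1),(0,0),(1,0),(3,1),(29,2)]⟩,⟨0,[(30,0),(15,0)]⟩⟩,⟨false,0,⟨0,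
  []⟩,⟨0,[]⟩⟩,⟨false,0,⟨0,[]⟩,⟨0,[]⟩⟩,[.o ⟨false,0,⟨0,[(45,0)]⟩,⟨1,[(40,0),(5,1),(1,0)]⟩⟩,.a ⟨true,
  0,⟨2,[(1,0),(8,0),(0,0),(7,0),(3,0),(13,0)]⟩,⟨0,[(46,0)]⟩⟩ ⟨true,0,⟨5,[(1,1),(1,1),(6,1),(25,1),
  (0,1),(2,0),(7,0)]⟩,⟨0,[(46,0)]⟩⟩ ⟨false,1,⟨5,[(1,1),(2,2),(6,2),(6,1),(10,0),(14,1)]⟩,⟨0,[(30,0),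
  (15,0)]⟩⟩,.o ⟨false,0,⟨0,[(30,0)]⟩,⟨0,[(4,0)]⟩⟩,.o ⟨false,0,⟨1,[(30,1),(5,0),(0,0)]⟩,⟨0,[(1,0),(9,
  0),(28,0)]⟩⟩]⟩))) (.Q [0,0,1,0,0,0,0,0,-1,0,0,1] (.p true [0,0,0,0,1] [] (⟨0,[(30,0)]⟩,⟨0,[(29,
  0)]⟩) .k 0 (⟨0,[]⟩,⟨0,[]⟩) .k .k) (.S ⟨1,0,[0,2,0,-1],[0,0,0,0,1],[1,1],(⟨0,[(31,0)]⟩,⟨0,[(30,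
  0)]⟩),⟨1,[(1,0),(4,0),(20,0),(3,0)]⟩,.k,(.r 0 ⟨3,[(10,0),(2,0),(1,0),(17,0),(8,0),(2,2)]⟩ ⟨3,[(17,
  1),(10,0),(0,0),(5,1),(0,1),(10,0)]⟩),⟨true,0,⟨0,[]⟩,⟨0,[(49,0)]⟩⟩,⟨false,0,⟨0,[(45,0)]⟩,⟨3,[(17,
  1),(10,0),(0,0),(17,0)]⟩⟩,⟨false,1,⟨3,[(17,1),(10,0),(0,0),(17,0)]⟩,⟨0,[(45,0)]⟩⟩,⟨true,0,⟨0,[(49,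
  0)]⟩,⟨0,[]⟩⟩,[.o ⟨false,(-1),⟨2,[(2,0),(2,1),(9,1),(17,2),(2,1)]⟩,⟨5,[(0,1),(2,3),(5,1),(1,1),(1,
  1),(25,0),(7,6)]⟩⟩,.a ⟨true,(-1),⟨0,[(22,0),(22,0)]⟩,⟨6,[(0,4),(2,1),(5,0),(0,1),(0,0),(1,0),(3,
  1),(29,2)]⟩⟩ ⟨true,0,⟨0,[]⟩,⟨1,[(35,0),(0,0)]⟩⟩ ⟨false,0,⟨3,[(10,0),(2,0),(1,0),(17,0),(8,0),(2,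
  2)]⟩,⟨3,[(17,1),(10,0),(0,0),(17,0)]⟩⟩,.o ⟨false,0,⟨0,[(29,0)]⟩,⟨0,[(3,0)]⟩⟩,.o ⟨false,0,⟨1,[(29,
  1),(5,0),(0,0)]⟩,⟨0,[(0,0),(9,0),(28,0)]⟩⟩]⟩) (.R ⟨0,false,false,true,[1,0,0,0,-1],[0,1],[1,1,1,
  1],(⟨0,[(30,0)]⟩,⟨0,[(31,0)]⟩),(⟨0,[(41,0)]⟩,⟨0,[(40,0)]⟩),⟨0,[(1,0)]⟩,.k,.k,(.r (-1) ⟨2,[(5,0),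
  (13,0),(8,0),(16,0),(1,0)]⟩ ⟨1,[(23,0),(0,0),(11,0)]⟩),(.r (-1) ⟨2,[(5,0),(13,0),(8,0),(16,0),(1,
  0)]⟩ ⟨1,[(23,0),(0,0),(11,0)]⟩),.k,.k,⟨true,0,⟨0,[]⟩,⟨1,[(35,0),(0,0)]⟩⟩,⟨false,0,⟨0,[(10,0),(18,
  0)]⟩,⟨1,[(3,1),(31,0),(0,0)]⟩⟩,⟨true,(-1),⟨0,[(14,0),(9,0),(11,0)]⟩,⟨2,[(5,0),(13,0),(8,0),(16,0),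
  (1,0)]⟩⟩,⟨false,(-1),⟨0,[(21,0)]⟩,⟨0,[(4,0),(42,0)]⟩⟩,⟨false,0,⟨0,[]⟩,⟨0,[]⟩⟩,⟨false,0,⟨0,[]⟩,⟨0,
  []⟩⟩,[.o ⟨false,0,⟨0,[(44,0)]⟩,⟨1,[(39,0),(5,1),(1,0)]⟩⟩,.a ⟨true,0,⟨4,[(9,1),(0,0),(3,0),(3,0),
  (17,1),(0,1),(0,1)]⟩,⟨0,[(45,0)]⟩⟩ ⟨true,0,⟨5,[(9,1),(1,1),(23,1),(0,3),(2,0),(7,0)]⟩,⟨0,[(45,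
  0)]⟩⟩ ⟨false,0,⟨1,[(10,0),(6,0),(4,0),(6,0)]⟩,⟨0,[(4,0)]⟩⟩,.o ⟨false,1,⟨0,[(3,0)]⟩,⟨0,[(29,0)]⟩⟩,
  .o ⟨false,1,⟨1,[(3,1),(31,0),(0,0)]⟩,⟨0,[(0,0)]⟩⟩]⟩))) (.Q [0,0,0,0,0,1,0,0,0,0,0,-1] (.ed true
  [1,-1,0,0,1] .k) (.R ⟨0,false,false,true,[0,0,0,0,1],[0,1],[1,1,1,1],(⟨0,[(30,0)]⟩,⟨0,[(29,0)]⟩),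
  (⟨0,[(40,0)]⟩,⟨0,[(39,0)]⟩),⟨0,[(0,0)]⟩,.k,.k,(.r 0 ⟨3,[(9,0),(2,0),(1,0),(17,0),(8,0),(2,2)]⟩ ⟨3,
  [(1,0),(14,1),(5,0),(5,0),(5,0),(0,1),(10,0)]⟩),(.r 0 ⟨3,[(9,0),(2,0),(1,0),(17,0),(8,0),(2,2)]⟩
  ⟨3,[(1,0),(14,1),(5,0),(5,0),(5,0),(0,1),(10,0)]⟩),.k,.k,⟨true,0,⟨0,[]⟩,⟨1,[(34,0),(0,0)]⟩⟩,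
  ⟨false,1,⟨0,[(2,0),(6,0)]⟩,⟨1,[(28,1),(5,0),(0,0)]⟩⟩,⟨true,0,⟨5,[(8,1),(1,1),(23,1),(0,3),(2,0),
  (7,0)]⟩,⟨3,[(9,0),(2,0),(1,0),(17,0),(8,0),(2,2)]⟩⟩,⟨false,1,⟨2,[(1,0),(0,1),(5,0),(0,0),(0,1),
  (24,1),(10,1)]⟩,⟨0,[(28,0),(15,0)]⟩⟩,⟨false,0,⟨0,[]⟩,⟨0,[]⟩⟩,⟨false,0,⟨0,[]⟩,⟨0,[]⟩⟩,[.o ⟨false,0,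
  ⟨0,[(43,0)]⟩,⟨1,[(38,0),(5,1),(1,0)]⟩⟩,.a ⟨true,0,⟨4,[(8,1),(0,0),(3,0),(3,0),(17,1),(0,1),(0,
  1)]⟩,⟨0,[(44,0)]⟩⟩ ⟨true,0,⟨5,[(8,1),(1,1),(23,1),(0,3),(2,0),(7,0)]⟩,⟨0,[(44,0)]⟩⟩ ⟨false,1,⟨4,
  [(2,3),(5,0),(0,2),(0,0),(5,0),(10,0),(7,0)]⟩,⟨0,[(28,0),(15,0)]⟩⟩,.o ⟨false,0,⟨0,[(28,0)]⟩,⟨0,
  [(2,0)]⟩⟩,.o ⟨false,0,⟨1,[(28,1),(5,0),(0,0)]⟩,⟨0,[(1,0),(8,0),(1,0)]⟩⟩]⟩) (.S ⟨1,0,[0,2,0,-1],[0,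
  0,0,0,1],[1,1],(⟨0,[(30,0)]⟩,⟨0,[(29,0)]⟩),⟨0,[(0,0)]⟩,.k,(.r 0 ⟨3,[(9,0),(2,0),(1,0),(17,0),(8,
  0),(2,2)]⟩ ⟨3,[(1,0),(14,1),(5,0),(5,0),(5,0),(0,1),(10,0)]⟩),⟨true,0,⟨0,[]⟩,⟨0,[(48,0)]⟩⟩,⟨false,
  0,⟨0,[(44,0)]⟩,⟨3,[(16,1),(10,0),(0,0),(17,0)]⟩⟩,⟨false,1,⟨3,[(16,1),(10,0),(0,0),(17,0)]⟩,⟨0,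
  [(44,0)]⟩⟩,⟨true,0,⟨0,[(48,0)]⟩,⟨0,[]⟩⟩,[.o ⟨false,(-1),⟨0,[(4,0),(9,0),(8,0),(11,0)]⟩,⟨5,[(1,1),
  (0,3),(5,1),(1,3),(1,1),(22,1),(2,0),(7,6)]⟩⟩,.a ⟨true,(-1),⟨0,[(21,0),(22,0)]⟩,⟨2,[(1,0),(0,1),
  (5,0),(0,0),(0,1),(24,1),(10,1)]⟩⟩ ⟨true,0,⟨0,[]⟩,⟨1,[(34,0),(0,0)]⟩⟩ ⟨false,0,⟨3,[(9,0),(2,0),(1,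
  0),(17,0),(8,0),(2,2)]⟩,⟨3,[(16,1),(10,0),(0,0),(17,0)]⟩⟩,.o ⟨false,0,⟨0,[(28,0)]⟩,⟨0,[(2,0)]⟩⟩,
  .o ⟨false,0,⟨1,[(28,1),(5,0),(0,0)]⟩,⟨0,[(1,0),(8,0),(1,0)]⟩⟩]⟩))) (.R ⟨2,true,false,true,[0,1],
  [1,0,0,0,-1],[1,1,1,1],(⟨0,[]⟩,⟨0,[]⟩),(⟨0,[(27,0)]⟩,⟨0,[(28,0)]⟩),⟨0,[]⟩,.k,.k,.k,(.r 0 ⟨1,[(20,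
  0),(0,0),(11,0)]⟩ ⟨2,[(2,0),(13,0),(8,0),(16,0),(1,0)]⟩),.k,.k,⟨false,0,⟨0,[(41,0)]⟩,⟨2,[(2,0),
  (13,0),(8,0),(16,0),(1,0)]⟩⟩,⟨true,1,⟨5,[(1,5),(4,1),(1,1),(23,1),(0,3),(2,0),(7,0)]⟩,⟨0,[(0,
  0)]⟩⟩,⟨false,0,⟨0,[]⟩,⟨1,[(25,0),(0,0),(17,0)]⟩⟩,⟨true,1,⟨0,[(1,0)]⟩,⟨0,[(18,0)]⟩⟩,⟨true,0,⟨0,
  [(41,0)]⟩,⟨0,[(42,0)]⟩⟩,⟨false,2,⟨1,[(25,1),(10,0),(7,0)]⟩,⟨0,[(0,0)]⟩⟩,[]⟩)) (.Q [0,1,0,1,-1,0,0,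
  0,1,0,0,-1] (.p false [0,0,0,0,1] [] (⟨0,[(27,0)]⟩,⟨0,[(26,0)]⟩) .k 0 (⟨0,[]⟩,⟨0,[]⟩) .k .k) (.Q
  [0,0,0,1,-1,0,1,1,1,1,-1,-1] (.p false [0,0,1] [1,0,0,0,-1] (⟨0,[(35,0)]⟩,⟨0,[(34,0)]⟩) .k 2 (⟨0,
  [(27,0)]⟩,⟨0,[(28,0)]⟩) .k (.r (-1) ⟨4,[(9,0),(0,0),(5,0),(8,2),(0,2),(3,3),(2,3),(5,0)]⟩ ⟨0,[(11,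
  0),(32,0)]⟩)) (.Q [0,0,0,0,0,-1,0,0,0,0,0,1] (.ed false [1,-1,0,0,1] .k) (.R ⟨1,false,false,true,
  [0,0,0,0,1],[1,-1,-1],[1,2],(⟨0,[(30,0)]⟩,⟨0,[(29,0)]⟩),(⟨0,[(25,0)]⟩,⟨0,[(37,0),(2,0)]⟩),⟨0,[(0,
  0)]⟩,.k,.k,(.r 0 ⟨3,[(9,0),(2,0),(1,0),(17,0),(8,0),(2,2)]⟩ ⟨3,[(16,1),(10,0),(0,0),(5,1),(0,1),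
  (10,0)]⟩),(.r 0 ⟨0,[(23,0),(11,0)]⟩ ⟨2,[(15,0),(1,1),(0,0),(25,2)]⟩),.k,.k,⟨true,0,⟨0,[(23,0),(11,
  0)]⟩,⟨0,[(14,0),(31,0)]⟩⟩,⟨false,2,⟨3,[(12,1),(14,4),(0,0),(6,1),(2,0)]⟩,⟨0,[(1,0),(13,0)]⟩⟩,
  ⟨false,0,⟨0,[]⟩,⟨1,[(27,0),(0,0),(17,0)]⟩⟩,⟨false,2,⟨1,[(15,1),(11,1),(7,1),(2,0),(7,0)]⟩,⟨0,[(1,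
  0)]⟩⟩,⟨true,0,⟨0,[(43,0)]⟩,⟨0,[(44,0)]⟩⟩,⟨false,2,⟨2,[(12,0),(0,1),(13,2),(5,0),(1,0),(2,0),(7,
  2)]⟩,⟨0,[(1,0),(42,0)]⟩⟩,[.o ⟨false,0,⟨2,[(12,0),(1,1),(18,0),(1,0),(2,0),(5,0)]⟩,⟨0,[(23,0),(22,
  0)]⟩⟩,.e ⟨false,0,⟨3,[(9,0),(2,0),(1,0),(8,0),(17,0)]⟩,⟨1,[(27,0),(0,0),(17,0)]⟩⟩ ⟨false,2,⟨1,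
  [(15,0),(2,0),(8,1),(5,0),(1,0),(2,0)]⟩,⟨0,[(1,0)]⟩⟩,.a ⟨true,(-1),⟨0,[(3,0),(40,0)]⟩,⟨0,[(27,
  0)]⟩⟩ ⟨false,0,⟨0,[(48,0)]⟩,⟨0,[(46,0)]⟩⟩ ⟨true,1,⟨2,[(12,0),(1,1),(12,2),(5,0),(1,0),(2,0),(5,
  0)]⟩,⟨0,[(1,0)]⟩⟩,.o ⟨false,(-1),⟨1,[(1,1),(12,1),(20,1),(2,0),(7,0)]⟩,⟨1,[(27,1),(10,0),(6,
  0)]⟩⟩]⟩) (.S ⟨1,0,[0,0,0,-1],[1,0,0,0,-1],[1,-1],(⟨0,[(29,0)]⟩,⟨0,[(30,0)]⟩),⟨1,[(0,0),(4,0),(20,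
  0),(2,0)]⟩,.k,(.r (-1) ⟨2,[(4,0),(13,0),(8,0),(16,0),(1,0)]⟩ ⟨1,[(22,0),(0,0),(11,0)]⟩),⟨true,0,
  ⟨0,[]⟩,⟨0,[(48,0)]⟩⟩,⟨false,0,⟨0,[(44,0)]⟩,⟨3,[(16,1),(10,0),(0,0),(17,0)]⟩⟩,⟨false,1,⟨3,[(16,1),
  (10,0),(0,0),(17,0)]⟩,⟨0,[(44,0)]⟩⟩,⟨true,0,⟨0,[(48,0)]⟩,⟨0,[]⟩⟩,[.a ⟨true,1,⟨0,[(27,0),(16,0)]⟩,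
  ⟨0,[(3,0)]⟩⟩ ⟨false,1,⟨1,[(45,0),(0,0)]⟩,⟨0,[(48,0)]⟩⟩ ⟨true,0,⟨0,[(44,0)]⟩,⟨5,[(8,1),(1,1),(23,
  1),(0,3),(2,0),(7,0)]⟩⟩,.o ⟨false,2,⟨1,[(27,1),(10,0),(5,1),(1,0)]⟩,⟨0,[(2,0)]⟩⟩,.a ⟨true,1,⟨0,
  [(27,0)]⟩,⟨0,[(3,0),(40,0)]⟩⟩ ⟨false,1,⟨0,[(46,0)]⟩,⟨0,[(48,0)]⟩⟩ ⟨true,0,⟨0,[(44,0)]⟩,⟨0,[(43,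
  0)]⟩⟩,.a ⟨true,1,⟨1,[(27,1),(6,0),(0,0)]⟩,⟨0,[(1,0),(11,0),(4,0),(16,0)]⟩⟩ ⟨true,1,⟨1,[(45,0),(0,
  0)]⟩,⟨0,[(14,0),(8,0),(11,0)]⟩⟩ ⟨false,1,⟨2,[(4,0),(13,0),(8,0),(16,0),(1,0)]⟩,⟨5,[(8,1),(1,1),
  (23,1),(0,3),(2,0),(7,0)]⟩⟩]⟩)) (.Q [0,-2,0,-1,2,0,0,0,-1,-1,0,1] (.p true [0,0,0,0,1] [1] (⟨0,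
  [(29,0)]⟩,⟨0,[(28,0)]⟩) .k 1 (⟨0,[]⟩,⟨0,[]⟩) .k .k) (.Q [0,-2,0,0,2,0,0,0,-1,-1,0,1] (.p true [0,
  0,0,0,1] [1] (⟨0,[(30,0)]⟩,⟨0,[(29,0)]⟩) .k 1 (⟨0,[]⟩,⟨0,[]⟩) .k .k) (.R ⟨2,false,false,false,[0,
  1],[1,0,0,0,-1],[0,0,1],(⟨0,[]⟩,⟨0,[]⟩),(⟨0,[(30,0)]⟩,⟨0,[(31,0)]⟩),⟨0,[]⟩,.k,.k,.k,(.r 0 ⟨1,[(23,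
  0),(0,0),(11,0)]⟩ ⟨1,[(1,0),(17,0),(2,0)]⟩),.k,.k,⟨false,0,⟨0,[(49,0)]⟩,⟨1,[(46,0),(0,0)]⟩⟩,⟨true,
  1,⟨0,[(1,0),(12,0),(9,0),(11,0)]⟩,⟨0,[(4,0),(40,0)]⟩⟩,⟨true,0,⟨0,[(45,0)]⟩,⟨0,[(44,0)]⟩⟩,⟨false,2,
  ⟨0,[(1,0)]⟩,⟨0,[(21,0)]⟩⟩,⟨false,1,⟨1,[(28,0),(0,0),(17,0)]⟩,⟨0,[]⟩⟩,⟨false,2,⟨0,[(0,0)]⟩,⟨0,[(22,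
  0)]⟩⟩,[.o ⟨false,2,⟨9,[(1,3),(15,1),(10,6),(0,0),(9,2)]⟩,⟨0,[(3,0),(41,0)]⟩⟩,.o ⟨false,2,⟨0,[(0,
  0)]⟩,⟨8,[(3,3),(1,0),(9,2),(6,3),(10,2),(2,2),(2,1),(2,1)]⟩⟩,.a ⟨true,0,⟨1,[(10,0),(26,0),(0,0)]⟩,
  ⟨1,[(35,0),(0,0)]⟩⟩ ⟨true,0,⟨1,[(35,0),(0,0)]⟩,⟨3,[(10,0),(2,0),(1,0),(8,0),(17,0)]⟩⟩ ⟨false,2,⟨1,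
  [(0,1),(34,0),(0,0)]⟩,⟨1,[(3,0),(6,0),(11,0),(22,0)]⟩⟩,.e ⟨false,1,⟨1,[(28,0),(0,0),(17,0)]⟩,⟨0,
  []⟩⟩ ⟨false,2,⟨0,[(0,0)]⟩,⟨0,[(22,0)]⟩⟩]⟩) (.R ⟨2,true,false,false,[0,1],[1,0,0,0,-1],[1,0,1,1],
  (⟨0,[]⟩,⟨0,[]⟩),(⟨0,[(30,0)]⟩,⟨0,[(31,0)]⟩),⟨0,[]⟩,.k,.k,.k,(.r 0 ⟨1,[(23,0),(0,0),(11,0)]⟩ ⟨1,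
  [(1,0),(17,0),(2,0)]⟩),.k,.k,⟨false,0,⟨0,[(44,0)]⟩,⟨1,[(1,0),(17,0),(2,0)]⟩⟩,⟨true,1,⟨0,[(1,0),
  (12,0),(9,0),(11,0)]⟩,⟨0,[(4,0),(40,0)]⟩⟩,⟨true,0,⟨0,[]⟩,⟨0,[(49,0)]⟩⟩,⟨false,2,⟨0,[(1,0)]⟩,⟨0,
  [(21,0)]⟩⟩,⟨false,1,⟨3,[(17,1),(10,0),(0,0),(17,0)]⟩,⟨0,[(45,0)]⟩⟩,⟨true,2,⟨9,[(1,3),(15,1),(10,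
  6),(0,0),(9,2)]⟩,⟨0,[(0,0)]⟩⟩,[]⟩)) (.Q [0,0,-1,0,-1,0,0,0,1,1,0,-1] (.p false [0,0,0,0,1] [1]
  (⟨0,[(30,0)]⟩,⟨0,[(29,0)]⟩) .k 1 (⟨0,[]⟩,⟨0,[]⟩) .k .k) (.Q [0,0,0,0,0,-1,0,0,0,1,0,-1] (.ed true
  [0,1,0,0,1] .k) (.S ⟨1,0,[0,-1,0,-1],[1,0,0,0,-1],[1],(⟨0,[(31,0)]⟩,⟨0,[(32,0)]⟩),⟨0,[(0,0)]⟩,.k,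
  (.r (-1) ⟨2,[(6,0),(13,0),(8,0),(16,0),(1,0)]⟩ ⟨1,[(24,0),(0,0),(11,0)]⟩),⟨false,0,⟨0,[]⟩,⟨1,[(29,
  0),(0,0),(17,0)]⟩⟩,⟨true,0,⟨0,[(46,0)]⟩,⟨0,[(45,0)]⟩⟩,⟨true,0,⟨0,[(45,0)]⟩,⟨0,[(46,0)]⟩⟩,⟨false,1,
  ⟨1,[(29,0),(0,0),(17,0)]⟩,⟨0,[]⟩⟩,[.o ⟨false,2,⟨0,[(3,0),(30,0),(13,0)]⟩,⟨0,[(4,0)]⟩⟩,.a ⟨true,2,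
  ⟨0,[(29,0),(16,0),(1,0)]⟩,⟨0,[(2,0)]⟩⟩ ⟨false,1,⟨1,[(47,0),(0,0)]⟩,⟨0,[(50,0)]⟩⟩ ⟨true,1,⟨0,[(46,
  0),(1,0)]⟩,⟨0,[(15,0),(9,0),(11,0)]⟩⟩,.a ⟨true,1,⟨0,[(29,0)]⟩,⟨0,[(5,0),(40,0)]⟩⟩ ⟨true,0,⟨0,[]⟩,
  ⟨0,[(50,0)]⟩⟩ ⟨false,1,⟨0,[(46,0),(1,0)]⟩,⟨0,[(45,0)]⟩⟩,.a ⟨true,1,⟨1,[(29,1),(6,0),(0,0)]⟩,⟨0,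
  [(1,0)]⟩⟩ ⟨false,1,⟨1,[(47,0),(0,0)]⟩,⟨1,[(36,0),(0,0)]⟩⟩ ⟨true,1,⟨2,[(6,0),(13,0),(8,0),(16,0),
  (1,0)]⟩,⟨0,[(15,0),(9,0),(11,0)]⟩⟩]⟩) (.Q [0,0,-1,0,1,0,0,0,-1,0,0,1] (.p true [0,0,0,0,1] [] (⟨0,
  [(32,0)]⟩,⟨0,[(31,0)]⟩) .k 0 (⟨0,[]⟩,⟨0,[]⟩) .k .k) (.R ⟨0,false,false,false,[1,0,0,0,-1],[0,0,1],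
  [1,1],(⟨0,[(32,0)]⟩,⟨0,[(33,0)]⟩),(⟨0,[(40,0)]⟩,⟨0,[(39,0)]⟩),⟨0,[(1,0)]⟩,.k,.k,(.r (-1) ⟨2,[(7,
  0),(13,0),(8,0),(16,0),(1,0)]⟩ ⟨1,[(25,0),(0,0),(11,0)]⟩),.k,.k,.k,⟨true,(-1),⟨0,[(16,0)]⟩,⟨0,
  [(35,0),(2,0),(10,0)]⟩⟩,⟨false,(-1),⟨0,[(2,0),(19,0)]⟩,⟨3,[(15,1),(14,4),(0,0),(6,1),(2,0)]⟩⟩,
  ⟨false,0,⟨0,[(51,0)]⟩,⟨0,[(49,0)]⟩⟩,⟨true,(-1),⟨0,[(6,0),(28,0),(11,0)]⟩,⟨3,[(0,1),(3,1),(8,1),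
  (24,1),(2,0),(7,0)]⟩⟩,⟨false,0,⟨0,[]⟩,⟨0,[]⟩⟩,⟨false,0,⟨0,[]⟩,⟨0,[]⟩⟩,[.e ⟨false,0,⟨3,[(12,0),(2,
  0),(1,0),(8,0),(17,0)]⟩,⟨1,[(30,0),(0,0),(17,0)]⟩⟩ ⟨false,0,⟨0,[(7,0),(6,0)]⟩,⟨3,[(0,1),(3,1),(8,
  1),(24,1),(2,0),(7,0)]⟩⟩,.o ⟨false,1,⟨0,[(35,0),(13,0)]⟩,⟨2,[(15,0),(0,1),(19,0),(1,0),(2,0)]⟩⟩,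
  .e ⟨false,0,⟨0,[]⟩,⟨1,[(30,0),(0,0),(17,0)]⟩⟩ ⟨false,0,⟨0,[(6,0),(28,0),(11,0),(1,0)]⟩,⟨3,[(0,1),
  (3,1),(8,1),(24,1),(2,0),(7,0)]⟩⟩,.a ⟨true,1,⟨1,[(30,1),(6,0),(0,0)]⟩,⟨0,[(2,0)]⟩⟩ ⟨true,0,⟨3,
  [(12,0),(2,0),(1,0),(8,0),(17,0)]⟩,⟨1,[(37,0),(0,0)]⟩⟩ ⟨false,0,⟨0,[(2,0),(32,0),(13,0)]⟩,⟨5,[(4,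
  5),(6,1),(1,1),(23,1),(0,3),(2,0),(7,0)]⟩⟩]⟩) (.S ⟨1,0,[0,1,0,-1],[0,0,0,0,1],[1,2],(⟨0,[(33,0)]⟩,
  ⟨0,[(32,0)]⟩),⟨1,[(1,0),(6,0),(20,0),(3,0)]⟩,.k,(.r 0 ⟨3,[(12,0),(2,0),(1,0),(17,0),(8,0),(2,2)]⟩
  ⟨3,[(19,1),(10,0),(0,0),(5,1),(0,1),(10,0)]⟩),⟨false,0,⟨0,[]⟩,⟨1,[(30,0),(0,0),(17,0)]⟩⟩,⟨true,0,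
  ⟨0,[(47,0)]⟩,⟨0,[(46,0)]⟩⟩,⟨true,0,⟨0,[(46,0)]⟩,⟨0,[(47,0)]⟩⟩,⟨false,1,⟨1,[(30,0),(0,0),(17,0)]⟩,
  ⟨0,[]⟩⟩,[.o ⟨false,(-1),⟨3,[(0,0),(2,1),(3,0),(33,0),(5,4)]⟩,⟨1,[(4,1),(6,1),(29,0),(7,0)]⟩⟩,.a
  ⟨true,(-1),⟨3,[(0,0),(1,2),(24,0),(10,1),(8,3)]⟩,⟨0,[(4,0),(6,0)]⟩⟩ ⟨false,0,⟨3,[(12,0),(2,0),(1,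
  0),(8,0),(17,0)]⟩,⟨1,[(30,0),(0,0),(17,0)]⟩⟩ ⟨true,0,⟨0,[(47,0)]⟩,⟨5,[(11,1),(1,1),(23,1),(0,3),
  (2,0),(7,0)]⟩⟩,.e ⟨false,0,⟨0,[(51,0)]⟩,⟨0,[(49,0)]⟩⟩ ⟨false,0,⟨0,[(47,0)]⟩,⟨3,[(19,1),(10,0),(0,
  0),(17,0)]⟩⟩,.o ⟨false,(-1),⟨0,[(0,0)]⟩,⟨1,[(30,1),(10,0),(6,0)]⟩⟩]⟩))) (.Q [0,0,0,0,0,-1,0,0,0,0,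
  0,1] (.ed false [1,-1,0,0,1] .k) (.R ⟨1,false,false,false,[0,0,0,0,1],[1,-1],[1,1],(⟨0,[(32,0)]⟩,
  ⟨0,[(31,0)]⟩),(⟨0,[(41,0)]⟩,⟨0,[(42,0)]⟩),⟨0,[(0,0)]⟩,.k,.k,(.r 0 ⟨3,[(11,0),(2,0),(1,0),(17,0),
  (8,0),(2,2)]⟩ ⟨7,[(1,1),(11,1),(4,1),(5,1),(5,1),(5,0),(0,2),(10,3)]⟩),(.r 0 ⟨1,[(24,0),(0,0),(11,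
  0)]⟩ ⟨2,[(6,0),(13,0),(8,0),(16,0),(1,0)]⟩),.k,.k,⟨false,0,⟨0,[(45,0)]⟩,⟨2,[(6,0),(13,0),(8,0),
  (16,0),(1,0)]⟩⟩,⟨true,1,⟨0,[(1,0)]⟩,⟨0,[(5,0),(40,0)]⟩⟩,⟨true,0,⟨0,[]⟩,⟨0,[(50,0)]⟩⟩,⟨true,2,⟨2,
  [(1,2),(4,0),(13,0),(8,0),(16,0),(1,0)]⟩,⟨0,[(2,0)]⟩⟩,⟨false,1,⟨3,[(18,1),(10,0),(0,0),(17,0)]⟩,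
  ⟨0,[(46,0)]⟩⟩,⟨true,2,⟨1,[(29,1),(10,0),(7,0)]⟩,⟨0,[(2,0),(43,0)]⟩⟩,[.e ⟨false,0,⟨3,[(11,0),(2,0),
  (1,0),(8,0),(17,0)]⟩,⟨1,[(29,0),(0,0),(17,0)]⟩⟩ ⟨false,2,⟨2,[(1,2),(4,0),(13,1),(8,0),(13,0)]⟩,⟨0,
  [(5,0)]⟩⟩,.o ⟨false,1,⟨1,[(40,0),(5,1),(1,0)]⟩,⟨0,[(45,0)]⟩⟩,.e ⟨false,0,⟨0,[]⟩,⟨1,[(29,0),(0,0),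
  (17,0)]⟩⟩ ⟨false,2,⟨2,[(1,2),(4,0),(13,0),(8,0),(16,0),(1,0)]⟩,⟨0,[(5,0)]⟩⟩,.a ⟨true,(-1),⟨1,[(5,
  1),(30,0),(0,0),(8,1)]⟩,⟨0,[(1,0),(9,0)]⟩⟩ ⟨true,0,⟨3,[(11,0),(2,0),(1,0),(8,0),(17,0)]⟩,⟨1,[(36,
  0),(0,0)]⟩⟩ ⟨false,2,⟨0,[(1,0),(18,0)]⟩,⟨1,[(5,1),(30,0),(0,0)]⟩⟩]⟩) (.Q [0,0,1,0,-2,0,0,0,2,1,0,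
  -2] (.p false [0,0,0,0,1] [1,0,0,0,-1] (⟨0,[(32,0)]⟩,⟨0,[(31,0)]⟩) .k 2 (⟨0,[(31,0)]⟩,⟨0,[(32,
  0)]⟩) .k (.r 0 ⟨0,[(50,1)]⟩ ⟨0,[(48,0)]⟩)) (.R ⟨0,false,false,true,[0,0,0,0,1],[1,0,0,0,-1],[0,1,
  0,-1],(⟨0,[(33,0)]⟩,⟨0,[(32,0)]⟩),(⟨0,[(32,0)]⟩,⟨0,[(33,0)]⟩),⟨0,[(1,0)]⟩,.k,.k,(.r 0 ⟨3,[(12,0),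
  (2,0),(1,0),(17,0),(8,0),(2,2)]⟩ ⟨7,[(2,1),(11,1),(4,1),(5,1),(5,1),(5,0),(0,2),(10,3)]⟩),.k,.k,
  .k,⟨false,0,⟨3,[(12,0),(2,0),(1,0),(17,0),(8,0),(2,2)]⟩,⟨3,[(19,1),(10,0),(0,0),(17,0)]⟩⟩,⟨true,2,
  ⟨0,[(2,1),(9,0)]⟩,⟨0,[(0,0)]⟩⟩,⟨true,0,⟨0,[(47,0)]⟩,⟨0,[(46,0)]⟩⟩,⟨false,3,⟨0,[(2,1),(9,0),(36,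
  0)]⟩,⟨1,[(0,0),(2,0),(3,0)]⟩⟩,⟨false,0,⟨0,[]⟩,⟨0,[]⟩⟩,⟨false,0,⟨0,[]⟩,⟨0,[]⟩⟩,[.a ⟨true,1,⟨0,[(30,
  0)]⟩,⟨3,[(0,1),(11,0),(26,0),(0,0)]⟩⟩ ⟨false,0,⟨3,[(12,0),(2,0),(1,0),(17,0),(8,0),(2,2)]⟩,⟨3,
  [(19,1),(10,0),(0,0),(17,0)]⟩⟩ ⟨true,2,⟨0,[(2,1),(9,0)]⟩,⟨0,[(0,0)]⟩⟩,.o ⟨false,2,⟨1,[(30,1),(10,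
  0),(7,0)]⟩,⟨5,[(0,0),(2,2),(3,0),(33,1),(5,1)]⟩⟩,.a ⟨true,(-1),⟨3,[(0,1),(11,0),(26,0),(0,0)]⟩,⟨0,
  [(30,0)]⟩⟩ ⟨false,0,⟨0,[(47,0)]⟩,⟨3,[(19,1),(10,0),(0,0),(17,0)]⟩⟩ ⟨true,2,⟨0,[(2,1),(9,0)]⟩,⟨1,
  [(0,0),(2,0),(3,0)]⟩⟩,.a ⟨true,(-1),⟨3,[(0,1),(26,0),(10,1),(0,0),(0,0)]⟩,⟨0,[(2,0),(9,0)]⟩⟩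
  ⟨true,0,⟨3,[(12,0),(2,0),(1,0),(17,0),(8,0),(2,2)]⟩,⟨9,[(0,1),(1,3),(8,1),(1,1),(5,1),(17,0),(0,
  2)]⟩⟩ ⟨false,3,⟨2,[(2,4),(9,1),(6,0),(1,1),(8,0)]⟩,⟨0,[(0,0)]⟩⟩]⟩) (.Q [0,0,-1,0,-1,0,1,0,1,1,-1,
  -1] (.p false [0,0,1] [1,0,0,0,-1] (⟨0,[(40,0)]⟩,⟨0,[(39,0)]⟩) .k 2 (⟨0,[(32,0)]⟩,⟨0,[(33,0)]⟩)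
  .k (.r (-1) ⟨4,[(14,0),(0,0),(5,0),(8,2),(0,2),(3,3),(2,3),(5,0)]⟩ ⟨0,[(16,0),(32,0)]⟩)) (.Q [0,0,
  -1,-1,1,0,-1,-1,-1,-1,1,1] (.p true [0,0,1] [1,0,0,0,-1] (⟨0,[(41,0)]⟩,⟨0,[(40,0)]⟩) .k 2 (⟨0,
  [(33,0)]⟩,⟨0,[(34,0)]⟩) .k (.r (-1) ⟨4,[(15,0),(0,0),(5,0),(8,2),(0,2),(3,3),(2,3),(5,0)]⟩ ⟨0,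
  [(17,0),(32,0)]⟩)) (.R ⟨0,false,false,false,[0,0,0,0,1],[1,-1,-1],[0,0,0,-1,0,0,0,-1],(⟨0,[(35,
  0)]⟩,⟨0,[(34,0)]⟩),(⟨0,[(30,0)]⟩,⟨0,[(42,0),(2,0)]⟩),⟨0,[(3,0)]⟩,.k,.k,(.r 0 ⟨3,[(14,0),(2,0),(1,
  0),(17,0),(8,0),(2,2)]⟩ ⟨7,[(4,1),(11,1),(4,1),(5,1),(5,1),(5,0),(0,2),(10,3)]⟩),(.r 0 ⟨0,[(28,0),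
  (11,0)]⟩ ⟨11,[(6,2),(2,2),(10,4),(1,0),(0,1),(5,2),(8,2),(12,5)]⟩),.k,.k,⟨true,0,⟨1,[(39,0),(0,
  0)]⟩,⟨0,[]⟩⟩,⟨false,2,⟨2,[(4,0),(12,1),(14,2),(0,0),(6,0)]⟩,⟨0,[(1,0)]⟩⟩,⟨true,0,⟨0,[(19,0),(31,
  0)]⟩,⟨9,[(2,0),(2,1),(8,0),(2,1),(10,7),(8,1),(2,7),(5,2)]⟩⟩,⟨false,2,⟨0,[(6,0),(44,0)]⟩,⟨0,[(8,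
  0),(28,0)]⟩⟩,⟨false,0,⟨0,[]⟩,⟨0,[]⟩⟩,⟨false,0,⟨0,[]⟩,⟨0,[]⟩⟩,[.e ⟨false,0,⟨0,[(20,0)]⟩,⟨2,[(4,0),
  (11,2),(0,1),(15,0),(6,0)]⟩⟩ ⟨false,1,⟨0,[(0,0)]⟩,⟨0,[(16,0),(16,0)]⟩⟩,.o ⟨false,1,⟨2,[(6,1),(1,
  0),(0,0),(9,0),(20,0),(2,0),(7,1)]⟩,⟨0,[(28,0)]⟩⟩,.a ⟨true,(-1),⟨0,[(8,0),(40,0)]⟩,⟨0,[(32,0)]⟩⟩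
  ⟨false,0,⟨0,[(19,0),(31,0)]⟩,⟨2,[(4,0),(11,2),(0,1),(15,0),(6,0)]⟩⟩ ⟨true,1,⟨0,[(6,0)]⟩,⟨0,[(8,0),
  (28,0)]⟩⟩,.e ⟨true,0,⟨0,[(20,0)]⟩,⟨0,[(28,0),(11,0)]⟩⟩ ⟨true,1,⟨0,[(0,0)]⟩,⟨1,[(8,1),(28,1),(1,0),
  (0,0)]⟩⟩]⟩) (.R ⟨0,false,false,false,[0,0,0,0,1],[1,-1,-1],[0,0,0,-1,0,0,0,-1],(⟨0,[(35,0)]⟩,⟨0,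
  [(34,0)]⟩),(⟨0,[(30,0)]⟩,⟨0,[(42,0),(2,0)]⟩),⟨0,[(3,0)]⟩,.k,.k,(.r 0 ⟨3,[(14,0),(2,0),(1,0),(17,
  0),(8,0),(2,2)]⟩ ⟨7,[(4,1),(11,1),(4,1),(5,1),(5,1),(5,0),(0,2),(10,3)]⟩),(.r 0 ⟨0,[(28,0),(11,
  0)]⟩ ⟨11,[(6,2),(2,2),(10,4),(1,0),(0,1),(5,2),(8,2),(12,5)]⟩),.k,.k,⟨true,0,⟨1,[(39,0),(0,0)]⟩,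
  ⟨0,[]⟩⟩,⟨false,2,⟨2,[(4,0),(12,1),(14,2),(0,0),(6,0)]⟩,⟨0,[(1,0)]⟩⟩,⟨true,0,⟨0,[(19,0),(31,0)]⟩,
  ⟨9,[(2,0),(2,1),(8,0),(2,1),(10,7),(8,1),(2,7),(5,2)]⟩⟩,⟨false,2,⟨0,[(6,0),(44,0)]⟩,⟨5,[(0,2),(4,
  0),(3,0),(4,0),(11,0),(1,2)]⟩⟩,⟨false,0,⟨0,[]⟩,⟨0,[]⟩⟩,⟨false,0,⟨0,[]⟩,⟨0,[]⟩⟩,[.a ⟨true,0,⟨0,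
  [(20,0),(19,0)]⟩,⟨0,[(16,0)]⟩⟩ ⟨false,0,⟨0,[(20,0)]⟩,⟨2,[(4,0),(11,2),(0,1),(15,0),(6,0)]⟩⟩ ⟨true,
  1,⟨0,[(6,0)]⟩,⟨0,[(0,0)]⟩⟩,.o ⟨false,1,⟨2,[(6,1),(1,0),(0,0),(9,0),(20,0),(2,0),(7,1)]⟩,⟨0,[(28,
  0)]⟩⟩,.a ⟨true,(-1),⟨0,[(8,0),(40,0)]⟩,⟨0,[(32,0)]⟩⟩ ⟨false,0,⟨0,[(19,0),(31,0)]⟩,⟨2,[(4,0),(11,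
  2),(0,1),(15,0),(6,0)]⟩⟩ ⟨true,1,⟨0,[(6,0)]⟩,⟨5,[(0,2),(4,0),(3,0),(4,0),(11,0),(1,2)]⟩⟩,.a ⟨true,
  (-1),⟨1,[(0,0),(18,0),(6,0),(13,0),(10,0)]⟩,⟨2,[(2,0),(11,0),(17,0)]⟩⟩ ⟨true,0,⟨0,[(20,0)]⟩,⟨0,
  [(28,0),(11,0)]⟩⟩ ⟨false,2,⟨4,[(6,3),(10,0),(4,0),(0,1),(8,0),(18,0)]⟩,⟨0,[(0,0)]⟩⟩]⟩)) (.R ⟨0,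
  false,false,false,[0,0,0,0,1],[1,0,-1],[0,1,1],(⟨0,[(34,0)]⟩,⟨0,[(33,0)]⟩),(⟨0,[(40,0)]⟩,⟨0,[(41,
  0)]⟩),⟨0,[(2,0)]⟩,.k,.k,(.r 0 ⟨3,[(13,0),(2,0),(1,0),(17,0),(8,0),(2,2)]⟩ ⟨3,[(0,0),(14,0),(4,0),
  (5,0),(5,0),(5,0),(0,0),(10,1)]⟩),.k,.k,.k,⟨true,0,⟨0,[(36,0),(2,0)]⟩,⟨0,[(17,0),(32,0)]⟩⟩,⟨false,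
  2,⟨0,[(0,0),(48,0)]⟩,⟨0,[(7,0),(15,0),(24,0)]⟩⟩,⟨true,0,⟨1,[(38,0),(0,0)]⟩,⟨17,[(1,0),(2,1),(8,4),
  (2,1),(1,1),(17,1),(5,1),(2,4)]⟩⟩,⟨false,2,⟨19,[(0,4),(0,0),(3,12),(7,0),(0,6),(1,1),(3,2),(29,
  21)]⟩,⟨0,[(7,0),(28,0),(11,0)]⟩⟩,⟨false,0,⟨0,[]⟩,⟨0,[]⟩⟩,⟨false,0,⟨0,[]⟩,⟨0,[]⟩⟩,[.e ⟨false,0,⟨0,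
  [(52,0)]⟩,⟨1,[(49,0),(0,0)]⟩⟩ ⟨false,1,⟨0,[(0,0),(13,0),(7,0)]⟩,⟨0,[(15,0),(16,0),(15,0)]⟩⟩,.o
  ⟨false,1,⟨1,[(5,1),(1,1),(34,0),(7,0)]⟩,⟨0,[(36,0)]⟩⟩,.a ⟨true,(-1),⟨0,[(7,0),(40,0)]⟩,⟨0,[(31,
  0)]⟩⟩ ⟨false,0,⟨1,[(38,0),(0,0)]⟩,⟨1,[(49,0),(0,0)]⟩⟩ ⟨true,1,⟨19,[(0,4),(0,0),(3,12),(7,0),(0,6),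
  (1,1),(3,2),(29,1)]⟩,⟨0,[(7,0),(28,0),(11,0)]⟩⟩,.e ⟨true,0,⟨0,[(52,0)]⟩,⟨0,[]⟩⟩ ⟨true,1,⟨0,[(0,0),
  (13,0),(7,0)]⟩,⟨1,[(7,1),(28,1),(1,0),(0,0),(8,1)]⟩⟩]⟩))))))) (.Q [0,0,0,0,0,-1,0,0,0,0,0,1] (.ed
  false [1,-1,0,0,1] .k) (.R ⟨1,false,false,false,[0,0,0,0,1],[0,0,1],[0,1,0,-1],(⟨0,[(29,0)]⟩,⟨0,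
  [(28,0)]⟩),(⟨0,[(36,0)]⟩,⟨0,[(35,0)]⟩),⟨0,[(0,0)]⟩,.k,.k,(.r 0 ⟨3,[(8,0),(2,0),(1,0),(17,0),(8,0),
  (2,2)]⟩ ⟨3,[(15,1),(10,0),(0,0),(5,1),(0,1),(10,0)]⟩),.k,(.r 0 ⟨14,[(1,1),(1,1),(9,2),(0,7),(8,1),
  (8,3),(4,0),(2,4)]⟩ ⟨0,[(22,0),(11,0),(10,0)]⟩),.k,⟨true,(-1),⟨0,[(13,0)]⟩,⟨0,[(22,0),(11,0),(10,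
  0)]⟩⟩,⟨false,1,⟨4,[(1,3),(6,0),(0,1),(12,1),(3,0),(3,2),(6,1)]⟩,⟨2,[(2,0),(0,0),(7,0),(15,0),(6,
  1)]⟩⟩,⟨true,0,⟨0,[(43,0)]⟩,⟨0,[(42,0)]⟩⟩,⟨false,2,⟨0,[(1,0),(20,0),(22,0)]⟩,⟨5,[(2,2),(0,2),(7,0),
  (0,4),(19,0),(1,3),(2,0)]⟩⟩,⟨false,1,⟨1,[(26,0),(0,0),(17,0)]⟩,⟨0,[]⟩⟩,⟨false,2,⟨1,[(1,1),(5,1),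
  (29,0),(7,0)]⟩,⟨0,[(3,0),(8,0),(21,0)]⟩⟩,[.a ⟨true,0,⟨0,[(10,0),(32,0)]⟩,⟨5,[(8,0),(2,0),(0,3),
  (19,1),(1,2),(10,2)]⟩⟩ ⟨false,0,⟨3,[(8,0),(2,0),(1,0),(17,0),(8,0),(2,2)]⟩,⟨3,[(15,1),(10,0),(0,
  0),(17,0)]⟩⟩ ⟨true,1,⟨0,[(1,0),(20,0)]⟩,⟨1,[(2,1),(10,1),(20,1),(2,0),(7,0)]⟩⟩,.o ⟨false,1,⟨0,
  [(31,0),(13,0)]⟩,⟨2,[(11,0),(0,1),(19,0),(1,0),(2,0)]⟩⟩,.a ⟨true,(-1),⟨0,[(2,0),(40,0)]⟩,⟨0,[(26,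
  0)]⟩⟩ ⟨false,0,⟨0,[(43,0)]⟩,⟨3,[(15,1),(10,0),(0,0),(17,0)]⟩⟩ ⟨true,1,⟨0,[(1,0),(20,0)]⟩,⟨5,[(2,
  2),(0,2),(7,0),(0,4),(19,0),(1,3),(2,0)]⟩⟩,.a ⟨true,(-1),⟨1,[(2,1),(30,0),(0,0),(8,1)]⟩,⟨0,[(1,0),
  (39,0)]⟩⟩ ⟨true,0,⟨3,[(8,0),(2,0),(1,0),(17,0),(8,0),(2,2)]⟩,⟨5,[(7,1),(1,1),(23,1),(0,3),(2,0),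
  (7,0)]⟩⟩ ⟨false,2,⟨1,[(1,0),(15,0),(4,1),(3,0),(18,0)]⟩,⟨1,[(2,1),(10,1),(20,1),(2,0),(7,0)]⟩⟩]⟩)
  (.S ⟨1,0,[0,0,0,-1],[1,0,0,0,-1],[1,-1],(⟨0,[(28,0)]⟩,⟨0,[(29,0)]⟩),⟨1,[(0,0),(3,0),(20,0),(2,
  0)]⟩,.k,(.r (-1) ⟨1,[(1,0),(15,0),(9,0)]⟩ ⟨1,[(21,0),(0,0),(11,0)]⟩),⟨true,0,⟨0,[]⟩,⟨0,[(47,0)]⟩⟩,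
  ⟨false,0,⟨0,[(43,0)]⟩,⟨3,[(15,1),(10,0),(0,0),(17,0)]⟩⟩,⟨false,1,⟨3,[(15,1),(10,0),(0,0),(17,0)]⟩,
  ⟨0,[(43,0)]⟩⟩,⟨true,0,⟨0,[(47,0)]⟩,⟨0,[]⟩⟩,[.a ⟨true,1,⟨0,[(1,0),(45,0)]⟩,⟨0,[(2,0)]⟩⟩ ⟨false,1,
  ⟨1,[(44,0),(0,0)]⟩,⟨0,[(47,0)]⟩⟩ ⟨true,0,⟨0,[(43,0)]⟩,⟨5,[(7,1),(1,1),(23,1),(0,3),(2,0),(7,0)]⟩⟩,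
  .a ⟨true,1,⟨0,[(1,0)]⟩,⟨0,[(19,0)]⟩⟩ ⟨true,1,⟨0,[(45,0)]⟩,⟨0,[(13,0),(8,0),(11,0)]⟩⟩ ⟨false,1,⟨1,
  [(1,0),(15,0),(9,0)]⟩,⟨0,[(42,0)]⟩⟩,.a ⟨true,1,⟨0,[(26,0)]⟩,⟨0,[(2,0),(40,0)]⟩⟩ ⟨false,1,⟨0,[(45,
  0)]⟩,⟨0,[(47,0)]⟩⟩ ⟨true,0,⟨0,[(43,0)]⟩,⟨0,[(42,0)]⟩⟩,.o ⟨false,1,⟨3,[(1,3),(7,1),(12,1),(10,0),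
  (0,2),(2,1)]⟩,⟨3,[(2,0),(0,1),(2,0),(10,0),(19,0)]⟩⟩]⟩)))) (.Q [0,0,0,0,0,1,0,0,0,0,0,-1] (.ed
  true [1,-1,0,0,1] .k) (.R ⟨0,false,false,true,[0,0,0,0,1],[0,1],[1,1,1,1],(⟨0,[(27,0)]⟩,⟨0,[(26,
  0)]⟩),(⟨0,[(37,0)]⟩,⟨0,[(36,0)]⟩),⟨0,[(0,0)]⟩,.k,.k,(.r 0 ⟨3,[(6,0),(2,0),(1,0),(17,0),(8,0),(2,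
  2)]⟩ ⟨3,[(13,1),(10,0),(0,0),(5,1),(0,1),(10,0)]⟩),(.r 0 ⟨3,[(6,0),(2,0),(1,0),(17,0),(8,0),(2,
  2)]⟩ ⟨3,[(13,1),(10,0),(0,0),(5,1),(0,1),(10,0)]⟩),.k,.k,⟨true,0,⟨0,[]⟩,⟨1,[(31,0),(0,0)]⟩⟩,
  ⟨false,1,⟨6,[(1,6),(4,2),(2,0),(1,0),(3,5),(13,0),(5,0),(2,1)]⟩,⟨1,[(25,1),(5,0),(0,0)]⟩⟩,⟨true,0,
  ⟨5,[(1,1),(2,1),(26,1),(0,1),(2,0),(7,0)]⟩,⟨3,[(6,0),(2,0),(1,0),(17,0),(8,0),(2,2)]⟩⟩,⟨false,1,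
  ⟨6,[(1,5),(11,1),(1,2),(8,0),(18,0)]⟩,⟨0,[(25,0),(15,0)]⟩⟩,⟨false,0,⟨0,[]⟩,⟨0,[]⟩⟩,⟨false,0,⟨0,
  []⟩,⟨0,[]⟩⟩,[.o ⟨false,0,⟨0,[(40,0)]⟩,⟨1,[(35,0),(5,1),(1,0)]⟩⟩,.a ⟨true,0,⟨3,[(1,0),(3,0),(0,0),
  (7,0),(3,0),(13,0),(0,0),(0,0)]⟩,⟨0,[(41,0)]⟩⟩ ⟨true,0,⟨5,[(1,1),(2,1),(26,1),(0,1),(2,0),(7,0)]⟩,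
  ⟨0,[(41,0)]⟩⟩ ⟨false,1,⟨0,[(1,0),(40,0)]⟩,⟨0,[(25,0),(15,0)]⟩⟩,.o ⟨false,0,⟨0,[(25,0)]⟩,⟨6,[(1,4),
  (7,0),(1,0),(3,1),(8,1),(4,0),(5,2),(5,1)]⟩⟩,.o ⟨false,0,⟨1,[(25,1),(5,0),(0,0)]⟩,⟨0,[(1,0),(4,0),
  (28,0),(5,0)]⟩⟩]⟩) (.R ⟨1,false,false,true,[0,0,0,0,1],[1,-1],[0,1,0,-1],(⟨0,[(27,0)]⟩,⟨0,[(26,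
  0)]⟩),(⟨0,[(36,0)]⟩,⟨0,[(37,0)]⟩),⟨0,[(0,0)]⟩,.k,.k,(.r 0 ⟨3,[(6,0),(2,0),(1,0),(17,0),(8,0),(2,
  2)]⟩ ⟨3,[(13,1),(10,0),(0,0),(5,1),(0,1),(10,0)]⟩),(.r 0 ⟨1,[(19,0),(0,0),(11,0)]⟩ ⟨3,[(15,1),(8,
  0),(0,0),(15,1),(1,0)]⟩),.k,.k,⟨true,0,⟨1,[(31,0),(0,0)]⟩,⟨0,[]⟩⟩,⟨false,1,⟨6,[(1,4),(7,0),(1,0),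
  (3,1),(8,1),(4,0),(5,2),(5,1)]⟩,⟨1,[(18,1),(23,0),(0,0)]⟩⟩,⟨true,0,⟨0,[(41,0)]⟩,⟨0,[(40,0)]⟩⟩,
  ⟨true,1,⟨6,[(1,4),(7,0),(1,0),(3,1),(8,1),(4,0),(5,2),(5,8)]⟩,⟨0,[(17,0)]⟩⟩,⟨false,1,⟨1,[(24,0),
  (0,0),(17,0)]⟩,⟨0,[]⟩⟩,⟨true,1,⟨6,[(1,4),(7,0),(1,0),(3,1),(8,1),(4,0),(5,2),(5,1)]⟩,⟨0,[(18,
  0)]⟩⟩,[.e ⟨false,0,⟨3,[(6,0),(2,0),(1,0),(17,0),(8,0),(2,2)]⟩,⟨3,[(13,1),(10,0),(0,0),(17,0)]⟩⟩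
  ⟨false,1,⟨6,[(1,3),(7,4),(1,4),(3,2),(8,2),(4,4),(5,0),(5,2)]⟩,⟨1,[(4,0),(13,0),(24,1)]⟩⟩,.a
  ⟨true,0,⟨0,[(41,0)]⟩,⟨3,[(1,0),(3,0),(0,0),(7,0),(3,0),(13,0),(0,0),(0,0)]⟩⟩ ⟨true,0,⟨0,[(41,0)]⟩,
  ⟨5,[(1,1),(2,1),(26,1),(0,1),(2,0),(7,0)]⟩⟩ ⟨false,1,⟨0,[(1,0),(4,0),(28,0),(5,1)]⟩,⟨3,[(13,1),(4,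
  3),(5,0),(0,0),(17,0)]⟩⟩,.o ⟨false,0,⟨0,[(25,0)]⟩,⟨6,[(1,4),(7,0),(1,0),(3,1),(8,1),(4,0),(5,2),
  (5,1)]⟩⟩,.o ⟨false,0,⟨1,[(25,1),(5,0),(0,0)]⟩,⟨0,[(1,0),(4,0),(28,0),(5,0)]⟩⟩]⟩))))

theorem ok8 : chk K t8 l17 = true := by decide +kernel

noncomputable def t9 : Tre :=
  (.I [1,1,-2,-1] (.Q [0,0,0,0,0,2,0,0,0,-1,1] (.p true [0,0,1] [1] (⟨0,[(34,0)]⟩,⟨0,[(33,0)]⟩) .k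
  1 (⟨0,[]⟩,⟨0,[]⟩) .k .k) (.Q [0,0,-1,-1,0,0,1,0,0,0,-1] (.p false [0,0,1] [] (⟨0,[(35,0)]⟩,⟨0,
  [(34,0)]⟩) .k 0 (⟨0,[]⟩,⟨0,[]⟩) .k .k) (.R ⟨0,false,false,false,[1,-1,-1],[1,-1],[1,1],(⟨0,[(24,
  0)]⟩,⟨1,[(1,0),(33,0),(0,1)]⟩),(⟨0,[(38,0)]⟩,⟨0,[(39,0)]⟩),⟨0,[(1,0)]⟩,.k,.k,(.r 0 ⟨5,[(2,0),(0,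
  2),(13,2),(22,0),(2,1)]⟩ ⟨1,[(15,1),(15,1),(1,0),(0,2)]⟩),.k,.k,.k,⟨false,0,⟨0,[(42,0)]⟩,⟨3,[(17,
  1),(8,0),(0,0),(15,1),(1,0)]⟩⟩,⟨true,0,⟨0,[(18,0)]⟩,⟨0,[(34,0)]⟩⟩,⟨true,0,⟨0,[(22,0),(11,0)]⟩,⟨0,
  [(14,0)]⟩⟩,⟨false,1,⟨0,[(31,0),(13,0)]⟩,⟨28,[(3,9),(4,2),(0,1),(1,2),(3,8),(16,6),(1,18)]⟩⟩,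
  ⟨false,0,⟨0,[]⟩,⟨0,[]⟩⟩,⟨false,0,⟨0,[]⟩,⟨0,[]⟩⟩,[.a ⟨true,0,⟨0,[(43,0)]⟩,⟨16,[(3,0),(1,1),(1,7),
  (0,2),(7,2),(15,2),(1,8),(0,3),(2,1)]⟩⟩ ⟨false,0,⟨3,[(2,0),(37,0),(0,0)]⟩,⟨1,[(26,0),(0,0),(17,
  0)]⟩⟩ ⟨true,0,⟨0,[(0,0)]⟩,⟨5,[(7,1),(1,1),(23,1),(0,9),(2,0),(7,0)]⟩⟩,.o ⟨false,1,⟨1,[(37,0),(5,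
  1),(1,0)]⟩,⟨0,[(42,0)]⟩⟩,.a ⟨true,0,⟨0,[(34,0)]⟩,⟨0,[(30,0)]⟩⟩ ⟨false,0,⟨0,[]⟩,⟨1,[(26,0),(0,0),
  (17,0)]⟩⟩ ⟨true,0,⟨0,[(0,0)]⟩,⟨0,[(34,0),(7,0)]⟩⟩,.a ⟨true,0,⟨1,[(33,0),(0,2)]⟩,⟨8,[(0,4),(6,0),
  (0,4),(0,0),(5,0),(14,2)]⟩⟩ ⟨true,0,⟨3,[(2,0),(37,0),(0,0)]⟩,⟨1,[(33,0),(0,0)]⟩⟩ ⟨false,1,⟨11,[(0,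
  7),(14,1),(1,7),(5,1),(13,0),(7,0)]⟩,⟨5,[(7,1),(1,1),(23,1),(0,9),(2,0),(7,0)]⟩⟩]⟩) (.R ⟨0,false,
  false,false,[1,-1,-1],[1,-1],[1,1],(⟨0,[(24,0)]⟩,⟨1,[(1,0),(33,0),(0,1)]⟩),(⟨0,[(38,0)]⟩,⟨0,[(39,
  0)]⟩),⟨0,[(1,0)]⟩,.k,.k,(.r 0 ⟨5,[(2,0),(0,2),(13,2),(22,0),(2,1)]⟩ ⟨1,[(15,1),(15,1),(1,0),(0,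
  2)]⟩),.k,.k,.k,⟨false,0,⟨0,[(42,0)]⟩,⟨3,[(17,1),(8,0),(0,0),(15,1),(1,0)]⟩⟩,⟨true,0,⟨0,[(18,0)]⟩,
  ⟨0,[(34,0)]⟩⟩,⟨true,0,⟨0,[(0,0),(30,0)]⟩,⟨0,[(14,0)]⟩⟩,⟨false,1,⟨0,[(31,0),(13,0)]⟩,⟨23,[(0,12),
  (2,6),(4,1),(2,1),(4,0),(15,8),(12,3)]⟩⟩,⟨false,0,⟨0,[]⟩,⟨0,[]⟩⟩,⟨false,0,⟨0,[]⟩,⟨0,[]⟩⟩,[.e
  ⟨false,0,⟨3,[(2,0),(37,0),(0,0)]⟩,⟨1,[(26,0),(0,0),(17,0)]⟩⟩ ⟨false,1,⟨11,[(2,0),(14,8),(5,5),(13,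
  2),(2,3),(2,1)]⟩,⟨0,[(0,0)]⟩⟩,.o ⟨false,1,⟨1,[(37,0),(5,1),(1,0)]⟩,⟨0,[(42,0)]⟩⟩,.e ⟨false,0,⟨0,
  []⟩,⟨1,[(26,0),(0,0),(17,0)]⟩⟩ ⟨false,1,⟨0,[(17,0),(15,0)]⟩,⟨0,[(0,0)]⟩⟩,.a ⟨true,0,⟨1,[(33,0),(0,
  2)]⟩,⟨2,[(2,0),(0,0),(3,1),(9,0),(12,0)]⟩⟩ ⟨true,0,⟨3,[(2,0),(37,0),(0,0)]⟩,⟨1,[(33,0),(0,0)]⟩⟩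
  ⟨false,1,⟨0,[(17,0),(0,0)]⟩,⟨1,[(0,1),(32,0),(0,0)]⟩⟩]⟩)) (.Q [0,0,0,-1,-1,0,-1,-1,1,0,1,-1] (.p
  true [0,0,1] [0,0,0,0,1] (⟨0,[(35,0)]⟩,⟨0,[(34,0)]⟩) .k 2 (⟨0,[(28,0)]⟩,⟨0,[(27,0)]⟩) .k (.r (-2)
  ⟨3,[(9,0),(0,0),(5,0),(8,2),(0,2),(3,2),(2,2),(10,2)]⟩ ⟨1,[(8,0),(3,0)]⟩)) (.Q [0,0,0,0,-1,0,-1,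
  -1,1,0,1,-1] (.p true [0,0,1] [0,0,0,0,1] (⟨0,[(36,0)]⟩,⟨0,[(35,0)]⟩) .k 2 (⟨0,[(29,0)]⟩,⟨0,[(28,
  0)]⟩) .k (.r (-2) ⟨3,[(10,0),(0,0),(5,0),(8,2),(0,2),(3,2),(2,2),(10,2)]⟩ ⟨1,[(9,0),(3,0)]⟩)) (.Q
  [0,0,0,1,1,0,0,0,-1,0,0,1] (.p true [0,0,0,0,1] [] (⟨0,[(30,0)]⟩,⟨0,[(29,0)]⟩) .k 0 (⟨0,[]⟩,⟨0,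
  []⟩) .k .k) (.Q [0,0,0,-1,1,0,1,1,-1,0,-1,1] (.p false [0,0,1] [0,0,0,0,1] (⟨0,[(38,0)]⟩,⟨0,[(37,
  0)]⟩) .k 2 (⟨0,[(31,0)]⟩,⟨0,[(30,0)]⟩) .k (.r (-2) ⟨3,[(12,0),(0,0),(5,0),(8,2),(0,2),(3,2),(2,2),
  (10,2)]⟩ ⟨1,[(11,0),(3,0)]⟩)) (.R ⟨1,false,false,false,[0,0,1],[0,0,0,0,1],[1,1],(⟨0,[(39,0)]⟩,⟨0,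
  [(38,0)]⟩),(⟨0,[(32,0)]⟩,⟨0,[(31,0)]⟩),⟨0,[(28,0)]⟩,.k,.k,.k,.k,(.r (-2) ⟨4,[(0,3),(12,0),(0,0),
  (3,0),(1,3),(9,3),(6,3)]⟩ ⟨1,[(12,1),(23,0),(0,0)]⟩),.k,⟨true,0,⟨0,[]⟩,⟨1,[(36,0),(0,0)]⟩⟩,⟨false,
  0,⟨0,[(3,0),(9,0),(0,0)]⟩,⟨31,[(0,11),(0,19),(4,4),(12,0),(4,0),(1,7),(9,3),(3,3)]⟩⟩,⟨true,(-1),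
  ⟨0,[(15,0)]⟩,⟨1,[(0,0),(12,0),(0,0),(15,0),(6,0)]⟩⟩,⟨false,(-1),⟨0,[(2,0)]⟩,⟨6,[(0,7),(17,3),(11,
  0),(4,0),(12,1)]⟩⟩,⟨true,(-1),⟨0,[(12,0)]⟩,⟨1,[(0,0),(19,0),(9,0),(3,0),(2,1)]⟩⟩,⟨true,(-1),⟨17,
  [(2,10),(6,6),(2,3),(1,0),(20,2),(1,2),(2,2),(2,1)]⟩,⟨0,[(0,0)]⟩⟩,[.o ⟨false,(-1),⟨0,[(3,0),(21,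
  0)]⟩,⟨1,[(29,1),(10,0),(7,0)]⟩⟩,.a ⟨true,(-1),⟨0,[(3,0),(9,0)]⟩,⟨0,[(29,0)]⟩⟩ ⟨true,0,⟨0,[]⟩,⟨1,
  [(36,0),(0,0)]⟩⟩ ⟨false,0,⟨0,[(3,0),(9,0),(0,0)]⟩,⟨31,[(0,11),(0,19),(4,4),(12,0),(4,0),(1,7),(9,
  3),(3,3)]⟩⟩,.o ⟨false,0,⟨0,[(21,0)]⟩,⟨20,[(0,2),(13,10),(3,0),(0,0),(10,2),(4,1),(1,10),(2,4)]⟩⟩,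
  .o ⟨false,0,⟨0,[(36,0)]⟩,⟨0,[(14,0)]⟩⟩]⟩) (.Q [0,0,1,0,-1,0,0,0,1,0,0,-1] (.p false [0,0,0,0,1]
  [] (⟨0,[(32,0)]⟩,⟨0,[(31,0)]⟩) .k 0 (⟨0,[]⟩,⟨0,[]⟩) .k .k) (.Q [0,0,0,0,0,-1,0,0,0,0,0,1] (.ed
  false [1,-1,0,0,1] .k) (.S ⟨1,0,[0,1,0,-1],[0,0,0,0,1],[1,2],(⟨0,[(34,0)]⟩,⟨0,[(33,0)]⟩),⟨0,[(0,
  0)]⟩,.k,(.r 0 ⟨2,[(7,0),(37,0),(2,1)]⟩ ⟨3,[(20,1),(10,0),(0,0),(5,1),(0,1),(10,0)]⟩),⟨false,0,⟨0,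
  []⟩,⟨1,[(31,0),(0,0),(17,0)]⟩⟩,⟨true,0,⟨0,[(48,0)]⟩,⟨0,[(47,0)]⟩⟩,⟨true,0,⟨0,[(47,0)]⟩,⟨0,[(48,
  0)]⟩⟩,⟨false,1,⟨1,[(31,0),(0,0),(17,0)]⟩,⟨0,[]⟩⟩,[.o ⟨false,(-1),⟨0,[(5,0),(30,0)]⟩,⟨1,[(3,1),(38,
  0),(7,0)]⟩⟩,.a ⟨true,(-1),⟨0,[(5,0),(9,0),(32,0)]⟩,⟨0,[(3,0)]⟩⟩ ⟨false,0,⟨3,[(7,0),(37,0),(0,0)]⟩,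
  ⟨1,[(31,0),(0,0),(17,0)]⟩⟩ ⟨true,0,⟨0,[(48,0)]⟩,⟨5,[(12,1),(1,1),(23,1),(0,3),(2,0),(7,0)]⟩⟩,.e
  ⟨false,0,⟨0,[(52,0)]⟩,⟨0,[(50,0)]⟩⟩ ⟨false,0,⟨0,[(48,0)]⟩,⟨3,[(20,1),(10,0),(0,0),(17,0)]⟩⟩,.o
  ⟨false,(-1),⟨0,[(1,0)]⟩,⟨1,[(31,1),(10,0),(6,0)]⟩⟩]⟩) (.S ⟨1,0,[0,-1,0,-1],[1,0,0,0,-1],[1],(⟨0,
  [(33,0)]⟩,⟨0,[(34,0)]⟩),⟨2,[(0,0),(5,0),(2,0),(23,1)]⟩,.k,(.r (-1) ⟨3,[(22,1),(8,0),(0,0),(15,1),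
  (1,0)]⟩ ⟨1,[(26,0),(0,0),(11,0)]⟩),⟨false,0,⟨0,[]⟩,⟨1,[(31,0),(0,0),(17,0)]⟩⟩,⟨true,0,⟨0,[(48,
  0)]⟩,⟨0,[(47,0)]⟩⟩,⟨true,0,⟨0,[(47,0)]⟩,⟨0,[(48,0)]⟩⟩,⟨false,1,⟨1,[(31,0),(0,0),(17,0)]⟩,⟨0,[]⟩⟩,
  [.o ⟨false,2,⟨1,[(31,1),(10,0),(5,1),(1,0)]⟩,⟨6,[(1,2),(0,3),(4,0),(19,3),(17,0)]⟩⟩,.a ⟨true,2,⟨0,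
  [(31,0),(16,0),(1,0)]⟩,⟨0,[(1,0),(5,0),(4,0),(4,0),(21,0)]⟩⟩ ⟨false,1,⟨1,[(49,0),(0,0)]⟩,⟨0,[(52,
  0)]⟩⟩ ⟨true,1,⟨0,[(48,0),(1,0)]⟩,⟨0,[(17,0),(9,0),(11,0)]⟩⟩,.a ⟨true,1,⟨0,[(31,0)]⟩,⟨0,[(5,0),(9,
  0)]⟩⟩ ⟨true,0,⟨0,[]⟩,⟨0,[(52,0)]⟩⟩ ⟨false,1,⟨0,[(48,0),(1,0)]⟩,⟨0,[(47,0)]⟩⟩,.a ⟨true,1,⟨1,[(31,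
  1),(6,0),(0,0)]⟩,⟨0,[(1,0),(11,0)]⟩⟩ ⟨false,1,⟨1,[(49,0),(0,0)]⟩,⟨1,[(38,0),(0,0)]⟩⟩ ⟨true,1,⟨3,
  [(22,1),(8,0),(0,0),(15,1),(1,0)]⟩,⟨0,[(17,0),(9,0),(11,0)]⟩⟩]⟩)) (.Q [0,0,0,0,0,-1,0,0,0,0,0,1]
  (.ed false [1,-1,0,0,1] .k) (.Q [0,0,-1,-1,1,0,-1,-1,-1,-1,1,1] (.p true [0,0,1] [1,0,0,0,-1] (⟨0,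
  [(41,0)]⟩,⟨0,[(40,0)]⟩) .k 2 (⟨0,[(33,0)]⟩,⟨0,[(34,0)]⟩) .k (.r (-1) ⟨4,[(15,0),(0,0),(5,0),(8,2),
  (0,2),(3,3),(2,3),(5,0)]⟩ ⟨7,[(8,1),(5,3),(23,0),(0,0),(10,5)]⟩)) (.Q [0,0,-1,0,-1,0,1,0,1,1,-1,
  -1] (.p false [0,0,1] [1,0,0,0,-1] (⟨0,[(42,0)]⟩,⟨0,[(41,0)]⟩) .k 2 (⟨0,[(34,0)]⟩,⟨0,[(35,0)]⟩)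
  .k (.r (-1) ⟨4,[(16,0),(0,0),(5,0),(8,2),(0,2),(3,3),(2,3),(5,0)]⟩ ⟨7,[(9,1),(5,3),(23,0),(0,0),
  (10,5)]⟩)) (.R ⟨1,false,false,false,[0,0,0,0,1],[1,-1,-1],[0,1,0,-1],(⟨0,[(36,0)]⟩,⟨0,[(35,0)]⟩),
  (⟨0,[(31,0)]⟩,⟨0,[(43,0),(2,0)]⟩),⟨0,[(2,0)]⟩,.k,.k,(.r 0 ⟨2,[(9,0),(37,0),(2,1)]⟩ ⟨3,[(22,1),(10,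
  0),(0,0),(5,1),(0,1),(10,0)]⟩),(.r 0 ⟨0,[(29,0),(11,0)]⟩ ⟨19,[(1,6),(8,2),(13,4),(5,6),(3,6),(4,
  6),(10,1),(1,10)]⟩),.k,.k,⟨true,0,⟨0,[(38,0),(2,0)]⟩,⟨7,[(10,1),(5,3),(23,0),(0,0),(10,5)]⟩⟩,
  ⟨false,2,⟨3,[(18,1),(14,4),(0,0),(6,1),(2,0)]⟩,⟨0,[(0,0)]⟩⟩,⟨true,0,⟨0,[(50,0)]⟩,⟨0,[(49,0)]⟩⟩,
  ⟨false,2,⟨1,[(1,1),(38,0),(0,0),(10,1)]⟩,⟨0,[(7,0),(9,0),(11,0)]⟩⟩,⟨false,1,⟨1,[(33,0),(0,0),(17,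
  0)]⟩,⟨0,[]⟩⟩,⟨false,2,⟨5,[(1,3),(3,1),(10,1),(23,0),(0,2),(2,0),(7,6)]⟩,⟨0,[(7,0),(9,0),(20,0)]⟩⟩,
  [.e ⟨false,0,⟨2,[(9,0),(37,0),(2,1)]⟩,⟨3,[(22,1),(10,0),(0,0),(17,0)]⟩⟩ ⟨false,1,⟨0,[(1,0)]⟩,⟨0,
  [(17,0),(16,0)]⟩⟩,.o ⟨false,1,⟨5,[(1,1),(5,1),(31,1),(0,0),(0,0),(2,1),(5,1),(1,3)]⟩,⟨0,[(29,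
  0)]⟩⟩,.a ⟨true,(-1),⟨0,[(7,0),(9,0)]⟩,⟨0,[(33,0)]⟩⟩ ⟨false,0,⟨0,[(50,0)]⟩,⟨3,[(22,1),(10,0),(0,0),
  (17,0)]⟩⟩ ⟨true,1,⟨1,[(1,1),(38,0),(0,0)]⟩,⟨0,[(7,0),(9,0),(11,0)]⟩⟩,.e ⟨true,0,⟨2,[(9,0),(37,0),
  (2,1)]⟩,⟨5,[(14,1),(1,1),(23,1),(0,3),(2,0),(7,0)]⟩⟩ ⟨true,1,⟨0,[(1,0)]⟩,⟨1,[(7,1),(9,1),(11,1),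
  (10,0),(0,0)]⟩⟩]⟩) (.Q [0,-2,0,-1,2,0,0,0,-1,-1,0,1] (.p true [0,0,0,0,1] [1] (⟨0,[(36,0)]⟩,⟨0,
  [(35,0)]⟩) .k 1 (⟨0,[]⟩,⟨0,[]⟩) .k .k) (.S ⟨1,0,[0,2,0,-1],[0,0,0,0,1],[0,1,0,-1],(⟨0,[(37,0)]⟩,
  ⟨0,[(36,0)]⟩),⟨0,[(3,0)]⟩,.k,(.r 0 ⟨2,[(10,0),(37,0),(2,1)]⟩ ⟨9,[(0,1),(17,1),(4,3),(5,1),(5,1),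
  (5,2),(0,4),(10,1)]⟩),⟨true,0,⟨0,[(51,0)]⟩,⟨0,[(50,0)]⟩⟩,⟨false,0,⟨0,[(51,0)]⟩,⟨3,[(23,1),(10,0),
  (0,0),(17,0)]⟩⟩,⟨false,1,⟨1,[(34,0),(0,0),(17,0)]⟩,⟨0,[]⟩⟩,⟨true,0,⟨0,[(55,0)]⟩,⟨0,[]⟩⟩,[.e
  ⟨false,0,⟨2,[(10,0),(37,0),(2,1)]⟩,⟨3,[(23,1),(10,0),(0,0),(17,0)]⟩⟩ ⟨false,0,⟨0,[(48,0),(2,0)]⟩,
  ⟨1,[(0,0),(4,0),(9,0),(37,0)]⟩⟩,.o ⟨false,(-1),⟨0,[(8,0),(30,0)]⟩,⟨2,[(0,0),(5,1),(16,0),(21,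
  0)]⟩⟩,.e ⟨false,0,⟨0,[(51,0)]⟩,⟨3,[(23,1),(10,0),(0,0),(17,0)]⟩⟩ ⟨false,0,⟨0,[(51,0),(3,0)]⟩,⟨1,
  [(0,0),(4,0),(9,0),(37,0)]⟩⟩,.a ⟨true,(-1),⟨1,[(8,1),(9,1),(22,0),(0,0)]⟩,⟨0,[(4,0)]⟩⟩ ⟨true,0,⟨2,
  [(10,0),(37,0),(2,1)]⟩,⟨5,[(1,1),(3,1),(9,1),(25,2),(0,0)]⟩⟩ ⟨false,0,⟨2,[(10,0),(37,0),(2,1)]⟩,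
  ⟨5,[(1,1),(3,1),(9,1),(25,2),(0,0),(10,5)]⟩⟩]⟩) (.R ⟨1,false,false,false,[0,0,0,0,1],[1,-1],[0,1,
  0,-1],(⟨0,[(37,0)]⟩,⟨0,[(36,0)]⟩),(⟨0,[(46,0)]⟩,⟨0,[(47,0)]⟩),⟨0,[(3,0)]⟩,.k,.k,(.r 0 ⟨2,[(10,0),
  (37,0),(2,1)]⟩ ⟨3,[(1,0),(16,0),(4,0),(5,0),(5,0),(5,0),(0,0),(10,1)]⟩),(.r 0 ⟨1,[(29,0),(0,0),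
  (11,0)]⟩ ⟨3,[(25,1),(8,0),(0,0),(15,1),(1,0)]⟩),.k,.k,⟨false,0,⟨0,[(55,0)]⟩,⟨1,[(52,0),(0,0)]⟩⟩,
  ⟨true,1,⟨0,[(1,0),(24,0)]⟩,⟨0,[(8,0),(9,0)]⟩⟩,⟨true,0,⟨0,[(51,0)]⟩,⟨0,[(50,0)]⟩⟩,⟨true,2,⟨0,[(1,
  0),(23,0),(15,0)]⟩,⟨0,[(0,0)]⟩⟩,⟨false,1,⟨1,[(34,0),(0,0),(17,0)]⟩,⟨0,[]⟩⟩,⟨true,2,⟨1,[(34,1),(10,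
  0),(7,0)]⟩,⟨0,[(0,0),(50,0)]⟩⟩,[.e ⟨false,0,⟨2,[(10,0),(37,0),(2,1)]⟩,⟨3,[(23,1),(10,0),(0,0),(17,
  0)]⟩⟩ ⟨false,2,⟨9,[(25,3),(8,10),(0,0),(9,4),(2,1),(2,5)]⟩,⟨0,[(8,0),(6,0)]⟩⟩,.o ⟨false,1,⟨1,[(45,
  0),(5,1),(1,0)]⟩,⟨0,[(50,0)]⟩⟩,.e ⟨false,0,⟨0,[(51,0)]⟩,⟨3,[(23,1),(10,0),(0,0),(17,0)]⟩⟩ ⟨false,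
  2,⟨0,[(1,0),(23,0),(15,0)]⟩,⟨0,[(8,0),(6,0)]⟩⟩,.a ⟨true,(-1),⟨1,[(8,1),(9,1),(22,0),(0,0)]⟩,⟨0,
  [(4,0)]⟩⟩ ⟨true,0,⟨2,[(10,0),(37,0),(2,1)]⟩,⟨5,[(1,1),(3,1),(9,1),(25,2),(0,0)]⟩⟩ ⟨false,2,⟨0,[(1,
  0),(23,0),(0,0)]⟩,⟨1,[(8,1),(6,1),(25,0),(0,0)]⟩⟩]⟩))) (.R ⟨1,false,false,false,[0,0,0,0,1],[1,-1,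
  -1],[0,1,0,-1],(⟨0,[(35,0)]⟩,⟨0,[(34,0)]⟩),(⟨0,[(30,0)]⟩,⟨0,[(42,0),(2,0)]⟩),⟨0,[(1,0)]⟩,.k,.k,
  (.r 0 ⟨2,[(8,0),(37,0),(2,1)]⟩ ⟨3,[(21,1),(10,0),(0,0),(5,1),(0,1),(10,0)]⟩),(.r 0 ⟨0,[(28,0),(11,
  0)]⟩ ⟨7,[(9,0),(12,4),(0,3),(14,0),(0,0),(9,6)]⟩),.k,.k,⟨true,0,⟨0,[(37,0),(2,0)]⟩,⟨7,[(9,1),(5,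
  3),(23,0),(0,0),(10,5)]⟩⟩,⟨false,2,⟨3,[(17,1),(14,4),(0,0),(6,1),(2,0)]⟩,⟨11,[(0,8),(2,2),(4,1),
  (0,4),(3,0),(9,4),(4,2),(7,1)]⟩⟩,⟨true,0,⟨0,[(49,0)]⟩,⟨0,[(48,0)]⟩⟩,⟨false,2,⟨1,[(2,0),(6,0),(22,
  0),(7,1),(2,0),(7,1)]⟩,⟨5,[(0,3),(7,1),(3,0),(13,0),(1,1)]⟩⟩,⟨false,1,⟨1,[(32,0),(0,0),(17,0)]⟩,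
  ⟨0,[]⟩⟩,⟨false,2,⟨5,[(2,3),(1,1),(4,1),(5,1),(24,5),(2,2),(7,6)]⟩,⟨2,[(0,1),(7,0),(17,0),(10,0),
  (11,0)]⟩⟩,[.a ⟨true,0,⟨6,[(9,1),(13,0),(14,2),(1,3),(8,1),(1,0)]⟩,⟨0,[(16,0)]⟩⟩ ⟨false,0,⟨2,[(8,
  0),(37,0),(2,1)]⟩,⟨3,[(21,1),(10,0),(0,0),(17,0)]⟩⟩ ⟨true,1,⟨1,[(2,0),(6,0),(22,0),(7,1),(2,0)]⟩,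
  ⟨0,[(0,0)]⟩⟩,.o ⟨false,1,⟨13,[(9,3),(13,1),(14,5),(1,7),(2,6),(5,3),(1,8)]⟩,⟨0,[(28,0)]⟩⟩,.a
  ⟨true,(-1),⟨15,[(0,6),(5,6),(4,0),(2,3),(11,1),(13,1),(0,1),(2,0),(6,0)]⟩,⟨0,[(32,0)]⟩⟩ ⟨false,0,
  ⟨0,[(49,0)]⟩,⟨3,[(21,1),(10,0),(0,0),(17,0)]⟩⟩ ⟨true,1,⟨1,[(2,0),(6,0),(22,0),(7,1),(2,0)]⟩,⟨5,
  [(0,3),(7,1),(3,0),(13,0),(1,1)]⟩⟩,.a ⟨true,(-1),⟨15,[(0,6),(5,6),(4,0),(14,1),(2,3),(10,9),(0,1),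
  (2,0),(6,0)]⟩,⟨0,[(2,0)]⟩⟩ ⟨true,0,⟨2,[(8,0),(37,0),(2,1)]⟩,⟨5,[(13,1),(1,1),(23,1),(0,3),(2,0),
  (7,0)]⟩⟩ ⟨false,2,⟨13,[(9,5),(7,7),(5,1),(8,13),(5,1),(1,3),(2,2),(7,6)]⟩,⟨0,[(0,0)]⟩⟩]⟩)) (.Q [0,
  0,-1,0,1,0,-1,-1,-1,-1,1,1] (.p true [0,0,1] [1,0,0,0,-1] (⟨0,[(41,0)]⟩,⟨0,[(40,0)]⟩) .k 2 (⟨0,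
  [(33,0)]⟩,⟨0,[(34,0)]⟩) .k (.r (-1) ⟨4,[(15,0),(0,0),(5,0),(8,2),(0,2),(3,3),(2,3),(5,0)]⟩ ⟨7,[(8,
  1),(5,3),(23,0),(0,0),(10,5)]⟩)) (.R ⟨0,false,false,false,[0,0,0,0,1],[1,0,-1],[0,1,1],(⟨0,[(35,
  0)]⟩,⟨0,[(34,0)]⟩),(⟨0,[(41,0)]⟩,⟨0,[(42,0)]⟩),⟨0,[(1,0)]⟩,.k,.k,(.r 0 ⟨2,[(8,0),(37,0),(2,1)]⟩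
  ⟨3,[(21,1),(10,0),(0,0),(5,1),(0,1),(10,0)]⟩),.k,.k,.k,⟨true,0,⟨0,[(37,0),(2,0)]⟩,⟨7,[(9,1),(5,3),
  (23,0),(0,0),(10,5)]⟩⟩,⟨false,2,⟨0,[(17,0),(14,0)]⟩,⟨0,[(6,0),(9,0),(7,0)]⟩⟩,⟨true,0,⟨1,[(39,0),
  (0,0)]⟩,⟨3,[(8,0),(37,0),(0,0)]⟩⟩,⟨false,2,⟨1,[(0,1),(38,0),(0,0),(10,1)]⟩,⟨0,[(6,0),(9,0),(20,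
  0)]⟩⟩,⟨false,0,⟨0,[]⟩,⟨0,[]⟩⟩,⟨false,0,⟨0,[]⟩,⟨0,[]⟩⟩,[.e ⟨false,0,⟨0,[(53,0)]⟩,⟨1,[(50,0),(0,
  0)]⟩⟩ ⟨false,1,⟨0,[(0,0)]⟩,⟨0,[(16,0),(16,0),(15,0)]⟩⟩,.o ⟨false,1,⟨2,[(0,0),(5,0),(15,0),(17,0),
  (2,0),(7,0)]⟩,⟨0,[(37,0)]⟩⟩,.a ⟨true,(-1),⟨0,[(6,0),(9,0)]⟩,⟨0,[(32,0)]⟩⟩ ⟨false,0,⟨1,[(39,0),(0,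
  0)]⟩,⟨1,[(50,0),(0,0)]⟩⟩ ⟨true,1,⟨1,[(0,1),(38,0),(0,0)]⟩,⟨0,[(6,0),(9,0),(20,0)]⟩⟩,.e ⟨true,0,⟨0,
  [(53,0)]⟩,⟨0,[]⟩⟩ ⟨true,1,⟨0,[(0,0)]⟩,⟨1,[(6,1),(9,1),(20,1),(1,0),(0,0)]⟩⟩]⟩) (.R ⟨0,false,false,
  false,[0,0,0,0,1],[1,0,-1],[0,1,1],(⟨0,[(35,0)]⟩,⟨0,[(34,0)]⟩),(⟨0,[(41,0)]⟩,⟨0,[(42,0)]⟩),⟨0,[(1,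
  0)]⟩,.k,.k,(.r 0 ⟨2,[(8,0),(37,0),(2,1)]⟩ ⟨3,[(21,1),(10,0),(0,0),(5,1),(0,1),(10,0)]⟩),.k,.k,.k,
  ⟨true,0,⟨0,[(37,0),(2,0)]⟩,⟨7,[(9,1),(5,3),(23,0),(0,0),(10,5)]⟩⟩,⟨false,2,⟨0,[(17,0),(14,0)]⟩,
  ⟨14,[(0,8),(2,5),(4,0),(0,1),(13,1),(4,0),(0,4),(6,0)]⟩⟩,⟨true,0,⟨1,[(39,0),(0,0)]⟩,⟨3,[(8,0),(37,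
  0),(0,0)]⟩⟩,⟨false,2,⟨5,[(2,3),(1,1),(4,1),(5,1),(24,5),(2,2),(7,6)]⟩,⟨2,[(0,1),(7,0),(17,0),(1,
  0)]⟩⟩,⟨false,0,⟨0,[]⟩,⟨0,[]⟩⟩,⟨false,0,⟨0,[]⟩,⟨0,[]⟩⟩,[.a ⟨true,0,⟨10,[(2,1),(0,2),(0,0),(4,1),
  (28,3),(1,3),(10,1)]⟩,⟨0,[(16,0),(32,0)]⟩⟩ ⟨false,0,⟨0,[(53,0)]⟩,⟨1,[(50,0),(0,0)]⟩⟩ ⟨true,1,⟨5,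
  [(2,3),(1,1),(4,1),(5,1),(24,5),(2,2),(7,0)]⟩,⟨0,[(0,0)]⟩⟩,.o ⟨false,1,⟨13,[(3,1),(0,1),(4,3),(7,
  3),(4,3),(17,7),(2,4),(7,4)]⟩,⟨0,[(37,0)]⟩⟩,.a ⟨true,(-1),⟨31,[(0,13),(2,6),(2,6),(4,1),(2,7),(11,
  3),(13,3),(0,3),(2,1),(6,1)]⟩,⟨0,[(32,0)]⟩⟩ ⟨false,0,⟨1,[(39,0),(0,0)]⟩,⟨1,[(50,0),(0,0)]⟩⟩ ⟨true,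
  1,⟨5,[(2,3),(1,1),(4,1),(5,1),(24,5),(2,2),(7,0)]⟩,⟨2,[(0,1),(7,0),(17,0),(1,0)]⟩⟩,.a ⟨true,(-1),
  ⟨15,[(0,9),(2,1),(2,0),(2,1),(1,0),(10,2),(3,2),(13,8),(0,1),(2,0)]⟩,⟨0,[(2,0)]⟩⟩ ⟨true,0,⟨0,[(53,
  0)]⟩,⟨0,[]⟩⟩ ⟨false,2,⟨6,[(4,5),(4,2),(7,4),(14,0),(5,0),(1,0),(2,0),(7,3)]⟩,⟨0,[(0,0)]⟩⟩]⟩)))))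
  (.R ⟨2,true,false,false,[0,1],[0,0,0,0,1],[1,0,1,1],(⟨0,[]⟩,⟨0,[]⟩),(⟨0,[(31,0)]⟩,⟨0,[(30,0)]⟩),
  ⟨0,[]⟩,.k,.k,.k,(.r (-1) ⟨3,[(17,1),(10,0),(0,0),(5,1),(0,1),(10,0)]⟩ ⟨2,[(4,0),(37,0),(2,1)]⟩),
  .k,.k,⟨false,1,⟨3,[(17,1),(10,0),(0,0),(17,0)]⟩,⟨2,[(4,0),(37,0),(2,1)]⟩⟩,⟨true,(-1),⟨5,[(0,5),(8,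
  1),(1,1),(23,1),(0,3),(2,0),(7,0)]⟩,⟨0,[(28,0)]⟩⟩,⟨true,0,⟨0,[]⟩,⟨0,[(49,0)]⟩⟩,⟨false,(-1),⟨0,[(0,
  0)]⟩,⟨3,[(17,1),(10,4),(0,0),(17,0)]⟩⟩,⟨false,1,⟨3,[(17,1),(10,0),(0,0),(17,0)]⟩,⟨0,[(45,0)]⟩⟩,
  ⟨true,(-1),⟨11,[(0,7),(7,2),(5,1),(7,0),(1,1),(11,1),(2,1),(2,1)]⟩,⟨0,[(28,0)]⟩⟩,[]⟩)) (.R ⟨1,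
  true,false,true,[1,0,-1],[1,0,0,0,-1],[1,1,0,0,0,0,0,-1],(⟨0,[(36,0)]⟩,⟨0,[(37,0)]⟩),(⟨0,[(29,
  0)]⟩,⟨0,[(30,0)]⟩),⟨0,[(25,0)]⟩,.k,.k,.k,.k,(.r 0 ⟨45,[(4,12),(13,7),(5,9),(8,19),(4,4),(2,16),(2,
  11)]⟩ ⟨0,[(23,0),(11,0),(10,0)]⟩),.k,⟨true,(-1),⟨0,[(13,0)]⟩,⟨0,[(32,0),(2,0),(10,0)]⟩⟩,⟨false,1,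
  ⟨11,[(0,11),(3,3),(5,2),(5,1),(0,0),(27,3)]⟩,⟨1,[(1,0),(9,0),(0,0),(15,0),(6,0)]⟩⟩,⟨false,0,⟨0,
  []⟩,⟨1,[(27,0),(0,0),(17,0)]⟩⟩,⟨true,1,⟨0,[(0,0)]⟩,⟨5,[(1,3),(5,1),(5,0),(19,0),(1,0),(2,0),(2,
  0)]⟩⟩,⟨true,0,⟨0,[(43,0)]⟩,⟨0,[(44,0)]⟩⟩,⟨false,2,⟨3,[(0,3),(15,1),(10,0),(0,0),(17,0)]⟩,⟨0,[(1,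
  0)]⟩⟩,[]⟩)) (.Q [0,0,2,0,-1,0,1,0,0,1,-1] (.p false [0,0,1] [1] (⟨0,[(36,0)]⟩,⟨0,[(35,0)]⟩) .k 1
  (⟨0,[]⟩,⟨0,[]⟩) .k .k) (.I [0,0,-2,-2,1,0,0,1] (.S ⟨1,0,[0,0,-1,-2,0,0,0,1],[0,-1,1],[0,1,-1,-2,0,
  0,0,1],(⟨0,[(27,0)]⟩,⟨0,[(37,0),(3,0)]⟩),⟨0,[(6,0)]⟩,.k,(.r (-1) ⟨0,[(0,0)]⟩ ⟨27,[(1,15),(9,12),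
  (5,13),(0,6),(4,7),(12,15),(2,7)]⟩),⟨false,0,⟨0,[(45,0)]⟩,⟨3,[(17,1),(10,0),(0,0),(17,0)]⟩⟩,⟨true,
  0,⟨0,[(45,0)]⟩,⟨0,[(44,0)]⟩⟩,⟨true,0,⟨0,[(49,0)]⟩,⟨0,[]⟩⟩,⟨false,1,⟨1,[(28,0),(0,0),(17,0)]⟩,⟨0,
  []⟩⟩,[.e ⟨false,1,⟨0,[(0,0),(48,0)]⟩,⟨13,[(1,3),(7,1),(1,15),(5,3),(18,5),(2,2),(7,12)]⟩⟩ ⟨false,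
  1,⟨0,[(0,0)]⟩,⟨27,[(1,7),(9,16),(5,13),(0,6),(4,3),(12,7),(2,3)]⟩⟩,.o ⟨false,1,⟨1,[(0,1),(0,1),
  (37,0),(7,0)]⟩,⟨10,[(9,0),(1,11),(1,5),(3,2),(18,5),(2,2),(4,1)]⟩⟩,.o ⟨false,0,⟨0,[(35,0)]⟩,⟨0,
  [(13,0)]⟩⟩,.a ⟨true,(-1),⟨0,[(1,0)]⟩,⟨4,[(0,0),(9,2),(2,2),(3,0),(16,0),(1,0)]⟩⟩ ⟨false,1,⟨0,[(0,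
  0)]⟩,⟨11,[(1,7),(9,10),(5,5),(0,0),(17,7),(2,3),(7,7)]⟩⟩ ⟨true,1,⟨0,[(0,0)]⟩,⟨34,[(1,18),(7,6),(1,
  35),(5,6),(5,5),(12,25),(2,12)]⟩⟩]⟩) (.Q [0,0,0,0,1,0,0,0,-1,-1,0,1] (.p true [0,0,0,0,1] [1] (⟨0,
  [(31,0)]⟩,⟨0,[(30,0)]⟩) .k 1 (⟨0,[]⟩,⟨0,[]⟩) .k .k) (.Q [0,0,0,0,0,1,0,0,0,0,0,-1] (.ed true [1,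
  -1,0,0,1] .k) (.Q [0,0,-1,0,1,0,0,0,-1,-1,0,1] (.p true [0,0,0,0,1] [1] (⟨0,[(33,0)]⟩,⟨0,[(32,
  0)]⟩) .k 1 (⟨0,[]⟩,⟨0,[]⟩) .k .k) (.R ⟨0,false,false,true,[0,0,0,0,1],[0,1],[1,1,1,1],(⟨0,[(34,
  0)]⟩,⟨0,[(33,0)]⟩),(⟨0,[(44,0)]⟩,⟨0,[(43,0)]⟩),⟨0,[(1,0)]⟩,.k,.k,(.r 0 ⟨2,[(7,0),(37,0),(2,1)]⟩
  ⟨3,[(5,0),(14,0),(5,0),(5,0),(5,0),(0,1),(10,1)]⟩),(.r 0 ⟨2,[(7,0),(37,0),(2,1)]⟩ ⟨3,[(5,0),(14,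
  0),(5,0),(5,0),(5,0),(0,1),(10,1)]⟩),.k,.k,⟨true,0,⟨0,[]⟩,⟨1,[(38,0),(0,0)]⟩⟩,⟨false,1,⟨2,[(0,1),
  (12,1),(17,0)]⟩,⟨1,[(32,1),(5,0),(0,0)]⟩⟩,⟨true,0,⟨25,[(3,3),(0,3),(15,5),(5,0),(0,4),(11,8),(2,
  1)]⟩,⟨2,[(7,0),(37,0),(2,1)]⟩⟩,⟨false,1,⟨17,[(0,10),(2,5),(0,2),(0,5),(7,7),(17,0),(7,8),(10,8)]⟩,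
  ⟨0,[(32,0),(15,0)]⟩⟩,⟨false,0,⟨0,[]⟩,⟨0,[]⟩⟩,⟨false,0,⟨0,[]⟩,⟨0,[]⟩⟩,[.o ⟨false,0,⟨0,[(47,0)]⟩,⟨1,
  [(42,0),(5,1),(1,0)]⟩⟩,.a ⟨true,0,⟨4,[(4,0),(7,1),(0,1),(7,0),(15,0),(1,1)]⟩,⟨0,[(48,0)]⟩⟩ ⟨true,
  0,⟨25,[(3,3),(0,3),(15,5),(5,0),(0,4),(11,8),(2,1)]⟩,⟨0,[(48,0)]⟩⟩ ⟨false,1,⟨7,[(0,4),(2,0),(8,1),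
  (0,2),(6,0),(10,2),(5,0),(1,0)]⟩,⟨0,[(32,0),(15,0)]⟩⟩,.o ⟨false,0,⟨0,[(32,0)]⟩,⟨0,[(2,0)]⟩⟩,.o
  ⟨false,0,⟨1,[(32,1),(5,0),(0,0)]⟩,⟨0,[(0,0)]⟩⟩]⟩) (.Q [0,-1,0,1,1,0,0,0,-1,0,0,1] (.p true [0,0,0,
  0,1] [] (⟨0,[(34,0)]⟩,⟨0,[(33,0)]⟩) .k 0 (⟨0,[]⟩,⟨0,[]⟩) .k .k) (.S ⟨1,0,[0,-1,0,-1],[1,0,0,0,-1],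
  [1],(⟨0,[(34,0)]⟩,⟨0,[(35,0)]⟩),⟨2,[(2,0),(4,0),(2,0),(23,1)]⟩,.k,(.r (-1) ⟨3,[(23,1),(8,0),(0,0),
  (15,1),(1,0)]⟩ ⟨1,[(27,0),(0,0),(11,0)]⟩),⟨false,0,⟨0,[]⟩,⟨1,[(32,0),(0,0),(17,0)]⟩⟩,⟨true,0,⟨0,
  [(49,0)]⟩,⟨0,[(48,0)]⟩⟩,⟨true,0,⟨0,[(48,0)]⟩,⟨0,[(49,0)]⟩⟩,⟨false,1,⟨1,[(32,0),(0,0),(17,0)]⟩,⟨0,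
  []⟩⟩,[.a ⟨true,1,⟨0,[(0,0),(48,1)]⟩,⟨0,[(25,0)]⟩⟩ ⟨true,0,⟨0,[]⟩,⟨1,[(39,0),(0,0)]⟩⟩ ⟨false,1,⟨3,
  [(23,1),(8,0),(0,0),(15,1),(1,0)]⟩,⟨0,[(48,0)]⟩⟩,.o ⟨false,2,⟨0,[(3,0),(45,0),(1,0)]⟩,⟨1,[(1,0),
  (6,0),(3,0),(5,0),(9,0),(11,0),(2,0)]⟩⟩,.o ⟨false,1,⟨0,[(3,0)]⟩,⟨0,[(33,0)]⟩⟩,.o ⟨false,1,⟨1,[(3,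
  1),(35,0),(0,0)]⟩,⟨0,[(1,0),(12,0),(28,0)]⟩⟩]⟩) (.R ⟨0,false,false,true,[0,0,0,0,1],[1,-1],[1,1,
  -1,-1],(⟨0,[(35,0)]⟩,⟨0,[(34,0)]⟩),(⟨0,[(44,0)]⟩,⟨0,[(45,0)]⟩),⟨0,[(2,0)]⟩,.k,.k,(.r 0 ⟨2,[(8,0),
  (37,0),(2,1)]⟩ ⟨3,[(6,0),(14,0),(5,0),(5,0),(5,0),(0,1),(10,1)]⟩),(.r 0 ⟨1,[(27,0),(0,0),(11,0)]⟩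
  ⟨3,[(23,1),(8,0),(0,0),(15,1),(1,0)]⟩),.k,.k,⟨true,0,⟨0,[]⟩,⟨1,[(39,0),(0,0)]⟩⟩,⟨false,1,⟨0,[(3,
  0)]⟩,⟨1,[(26,1),(23,0),(0,0)]⟩⟩,⟨false,1,⟨3,[(23,1),(8,0),(0,0),(15,1),(1,0)]⟩,⟨25,[(4,3),(0,3),
  (15,5),(5,0),(0,4),(11,8),(2,1)]⟩⟩,⟨true,1,⟨0,[(3,0),(45,0)]⟩,⟨0,[(25,0)]⟩⟩,⟨false,0,⟨0,[]⟩,⟨0,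
  []⟩⟩,⟨false,0,⟨0,[]⟩,⟨0,[]⟩⟩,[.o ⟨false,0,⟨0,[(0,0),(2,0)]⟩,⟨3,[(21,1),(10,0),(0,0),(17,0)]⟩⟩,.a
  ⟨true,0,⟨0,[(49,0)]⟩,⟨4,[(5,0),(7,1),(0,1),(7,0),(15,0),(1,1)]⟩⟩ ⟨false,1,⟨4,[(23,3),(8,0),(0,0),
  (12,1),(2,0)]⟩,⟨25,[(4,3),(0,3),(15,5),(5,0),(0,4),(11,8),(2,1)]⟩⟩ ⟨true,1,⟨0,[(3,0),(45,0)]⟩,⟨6,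
  [(0,2),(0,2),(2,1),(7,0),(0,1),(0,0),(25,1),(10,1)]⟩⟩,.o ⟨false,0,⟨0,[(33,0)]⟩,⟨0,[(3,0)]⟩⟩,.e
  ⟨true,0,⟨0,[(8,0)]⟩,⟨51,[(4,1),(0,27),(15,15),(5,6),(0,8),(11,36),(2,13)]⟩⟩ ⟨true,1,⟨2,[(3,2),(4,
  0),(37,0),(2,1)]⟩,⟨6,[(0,2),(0,2),(2,1),(7,0),(0,1),(0,0),(25,1),(10,1)]⟩⟩]⟩))) (.Q [0,0,-1,0,1,0,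
  0,0,-1,-1,0,1] (.p true [0,0,0,0,1] [1] (⟨0,[(33,0)]⟩,⟨0,[(32,0)]⟩) .k 1 (⟨0,[]⟩,⟨0,[]⟩) .k .k)
  (.R ⟨1,false,false,true,[0,0,0,0,1],[1,-1],[0,1,0,-1],(⟨0,[(34,0)]⟩,⟨0,[(33,0)]⟩),(⟨0,[(43,0)]⟩,
  ⟨0,[(44,0)]⟩),⟨0,[(1,0)]⟩,.k,.k,(.r 0 ⟨2,[(7,0),(37,0),(2,1)]⟩ ⟨3,[(5,0),(14,0),(5,0),(5,0),(5,0),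
  (0,1),(10,1)]⟩),(.r 0 ⟨1,[(26,0),(0,0),(11,0)]⟩ ⟨3,[(22,1),(8,0),(0,0),(15,1),(1,0)]⟩),.k,.k,
  ⟨true,0,⟨1,[(38,0),(0,0)]⟩,⟨0,[]⟩⟩,⟨false,1,⟨0,[(2,0)]⟩,⟨1,[(25,1),(23,0),(0,0)]⟩⟩,⟨true,0,⟨0,
  [(48,0)]⟩,⟨0,[(47,0)]⟩⟩,⟨true,1,⟨0,[(2,0),(45,0)]⟩,⟨0,[(24,0)]⟩⟩,⟨false,1,⟨1,[(31,0),(0,0),(17,
  0)]⟩,⟨0,[]⟩⟩,⟨true,1,⟨0,[(2,0)]⟩,⟨0,[(25,0)]⟩⟩,[.e ⟨false,0,⟨2,[(7,0),(37,0),(2,1)]⟩,⟨3,[(20,1),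
  (10,0),(0,0),(17,0)]⟩⟩ ⟨false,1,⟨2,[(2,2),(4,0),(37,0),(2,1)]⟩,⟨1,[(11,0),(13,0),(24,1)]⟩⟩,.a
  ⟨true,0,⟨0,[(48,0)]⟩,⟨4,[(4,0),(7,1),(0,1),(7,0),(15,0),(1,1)]⟩⟩ ⟨true,0,⟨0,[(48,0)]⟩,⟨25,[(3,3),
  (0,3),(15,5),(5,0),(0,4),(11,8),(2,1)]⟩⟩ ⟨false,1,⟨0,[(0,0),(47,0)]⟩,⟨3,[(20,1),(4,3),(5,0),(0,0),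
  (17,0)]⟩⟩,.o ⟨false,0,⟨0,[(32,0)]⟩,⟨0,[(2,0)]⟩⟩,.o ⟨false,0,⟨1,[(32,1),(5,0),(0,0)]⟩,⟨0,[(0,
  0)]⟩⟩]⟩) (.Q [0,0,1,1,-1,0,0,0,1,1,0,-1] (.p false [0,0,0,0,1] [1] (⟨0,[(34,0)]⟩,⟨0,[(33,0)]⟩) .k
  1 (⟨0,[]⟩,⟨0,[]⟩) .k .k) (.R ⟨1,false,false,false,[0,0,0,0,1],[1,-1],[1,2],(⟨0,[(35,0)]⟩,⟨0,[(34,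
  0)]⟩),(⟨0,[(44,0)]⟩,⟨0,[(45,0)]⟩),⟨0,[(2,0)]⟩,.k,.k,(.r 0 ⟨2,[(8,0),(37,0),(2,1)]⟩ ⟨3,[(6,0),(14,
  0),(5,0),(5,0),(5,0),(0,1),(10,1)]⟩),(.r 0 ⟨1,[(27,0),(0,0),(11,0)]⟩ ⟨3,[(23,1),(8,0),(0,0),(15,
  1),(1,0)]⟩),.k,.k,⟨true,(-1),⟨0,[(18,0),(9,0),(11,0)]⟩,⟨0,[(49,0),(1,0)]⟩⟩,⟨false,1,⟨0,[(3,0)]⟩,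
  ⟨1,[(26,1),(23,0),(0,0)]⟩⟩,⟨false,0,⟨0,[]⟩,⟨1,[(32,0),(0,0),(17,0)]⟩⟩,⟨false,2,⟨0,[(3,0),(45,0),
  (1,0)]⟩,⟨0,[(25,0)]⟩⟩,⟨true,0,⟨0,[(48,0)]⟩,⟨0,[(49,0)]⟩⟩,⟨false,2,⟨0,[(3,0),(47,0)]⟩,⟨0,[(26,
  0)]⟩⟩,[.a ⟨true,0,⟨0,[(49,0)]⟩,⟨4,[(5,0),(7,1),(0,1),(7,0),(15,0),(1,1)]⟩⟩ ⟨false,0,⟨0,[(46,0)]⟩,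
  ⟨0,[(51,0)]⟩⟩ ⟨true,1,⟨0,[(3,0),(45,0)]⟩,⟨0,[(0,0)]⟩⟩,.o ⟨false,1,⟨1,[(43,0),(5,1),(1,0)]⟩,⟨0,
  [(48,0)]⟩⟩,.o ⟨false,0,⟨0,[(33,0)]⟩,⟨0,[(3,0)]⟩⟩,.e ⟨false,0,⟨3,[(8,0),(37,0),(0,0)]⟩,⟨1,[(39,0),
  (0,0),(10,1)]⟩⟩ ⟨false,2,⟨3,[(3,1),(19,1),(8,1),(10,0),(5,1),(1,0)]⟩,⟨0,[(0,0)]⟩⟩]⟩) (.S ⟨1,0,[0,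
  1,0,-1],[0,0,0,0,1],[1,2],(⟨0,[(35,0)]⟩,⟨0,[(34,0)]⟩),⟨0,[(2,0)]⟩,.k,(.r 0 ⟨2,[(8,0),(37,0),(2,
  1)]⟩ ⟨3,[(6,0),(14,0),(5,0),(5,0),(5,0),(0,1),(10,1)]⟩),⟨false,0,⟨0,[]⟩,⟨1,[(32,0),(0,0),(17,
  0)]⟩⟩,⟨true,0,⟨0,[(49,0)]⟩,⟨0,[(48,0)]⟩⟩,⟨true,0,⟨0,[(48,0)]⟩,⟨0,[(49,0)]⟩⟩,⟨false,1,⟨1,[(32,0),
  (0,0),(17,0)]⟩,⟨0,[]⟩⟩,[.e ⟨false,0,⟨0,[(46,0)]⟩,⟨0,[(51,0)]⟩⟩ ⟨false,0,⟨2,[(8,0),(37,0),(2,1)]⟩,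
  ⟨3,[(21,1),(10,0),(0,0),(17,0)]⟩⟩,.o ⟨false,0,⟨0,[(33,0),(15,0)]⟩,⟨2,[(0,0),(2,1),(0,0),(8,0),(3,
  0)]⟩⟩,.o ⟨false,0,⟨0,[(33,0)]⟩,⟨0,[(3,0)]⟩⟩,.a ⟨true,(-1),⟨0,[(1,0)]⟩,⟨1,[(3,0),(10,0),(17,0)]⟩⟩
  ⟨false,0,⟨3,[(8,0),(37,0),(0,0)]⟩,⟨1,[(39,0),(0,0),(10,1)]⟩⟩ ⟨true,0,⟨2,[(8,0),(37,0),(2,1)]⟩,⟨25,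
  [(4,3),(0,3),(15,5),(5,0),(0,4),(11,8),(2,1)]⟩⟩]⟩)))) (.Q [0,0,0,0,0,-1,0,0,0,0,0,1] (.ed false
  [1,-1,0,0,1] .k) (.R ⟨1,false,false,false,[0,0,0,0,1],[0,0,1],[0,1,0,-1],(⟨0,[(33,0)]⟩,⟨0,[(32,
  0)]⟩),(⟨0,[(40,0)]⟩,⟨0,[(39,0)]⟩),⟨0,[(0,0)]⟩,.k,.k,(.r 0 ⟨2,[(6,0),(37,0),(2,1)]⟩ ⟨3,[(4,0),(14,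
  0),(5,0),(5,0),(5,0),(0,1),(10,1)]⟩),.k,(.r 0 ⟨45,[(7,12),(13,7),(5,9),(8,19),(4,4),(2,16),(2,
  11)]⟩ ⟨0,[(26,0),(11,0),(10,0)]⟩),.k,⟨true,(-1),⟨0,[(17,0)]⟩,⟨0,[(26,0),(11,0),(10,0)]⟩⟩,⟨false,1,
  ⟨15,[(4,11),(2,5),(19,1),(2,3),(10,0),(6,4)]⟩,⟨1,[(1,0),(13,0),(15,0),(6,0)]⟩⟩,⟨true,0,⟨0,[(47,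
  0)]⟩,⟨0,[(46,0)]⟩⟩,⟨false,2,⟨0,[(4,0),(42,0),(1,0)]⟩,⟨2,[(1,2),(13,0),(0,1),(19,0),(1,0),(2,0)]⟩⟩,
  ⟨false,1,⟨1,[(30,0),(0,0),(17,0)]⟩,⟨0,[]⟩⟩,⟨false,2,⟨0,[(4,0),(44,0)]⟩,⟨1,[(1,0),(13,0),(1,1),(13,
  0),(6,0)]⟩⟩,[.a ⟨true,0,⟨0,[(14,0),(32,0)]⟩,⟨4,[(2,0),(4,0),(4,0),(2,0),(20,1),(1,1),(10,0)]⟩⟩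
  ⟨false,0,⟨2,[(6,0),(37,0),(2,1)]⟩,⟨3,[(19,1),(10,0),(0,0),(17,0)]⟩⟩ ⟨true,1,⟨0,[(4,0),(42,0)]⟩,⟨5,
  [(1,4),(0,1),(4,1),(7,0),(15,0),(6,4),(2,1)]⟩⟩,.o ⟨false,1,⟨0,[(35,0),(13,0)]⟩,⟨2,[(15,0),(0,1),
  (19,0),(1,0),(2,0)]⟩⟩,.a ⟨true,(-1),⟨0,[(1,0)]⟩,⟨0,[(30,0)]⟩⟩ ⟨false,0,⟨0,[(47,0)]⟩,⟨3,[(19,1),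
  (10,0),(0,0),(17,0)]⟩⟩ ⟨true,1,⟨0,[(4,0),(42,0)]⟩,⟨2,[(1,2),(13,0),(0,1),(19,0),(1,0),(2,0)]⟩⟩,.a
  ⟨true,(-1),⟨2,[(1,1),(1,0),(27,0),(6,0)]⟩,⟨2,[(4,1),(2,0),(4,0),(2,0),(14,0),(7,0)]⟩⟩ ⟨true,0,⟨2,
  [(6,0),(37,0),(2,1)]⟩,⟨25,[(2,3),(0,3),(15,5),(5,0),(0,4),(11,8),(2,1)]⟩⟩ ⟨false,2,⟨1,[(4,0),(16,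
  0),(8,0),(4,0),(13,0)]⟩,⟨5,[(1,4),(0,1),(4,1),(7,0),(15,0),(6,4),(2,1)]⟩⟩]⟩) (.R ⟨0,false,false,
  false,[0,0,0,0,1],[0,0,1],[0,1,0,-1],(⟨0,[(33,0)]⟩,⟨0,[(32,0)]⟩),(⟨0,[(40,0)]⟩,⟨0,[(39,0)]⟩),⟨0,
  [(0,0)]⟩,.k,.k,(.r 0 ⟨2,[(6,0),(37,0),(2,1)]⟩ ⟨3,[(4,0),(14,0),(5,0),(5,0),(5,0),(0,1),(10,1)]⟩),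
  .k,.k,.k,⟨true,(-1),⟨0,[(17,0)]⟩,⟨0,[(26,0),(11,0),(10,0)]⟩⟩,⟨false,1,⟨15,[(4,11),(2,5),(19,1),(2,
  3),(10,0),(6,4)]⟩,⟨1,[(1,0),(13,0),(15,0),(6,0)]⟩⟩,⟨true,0,⟨0,[(47,0)]⟩,⟨0,[(46,0)]⟩⟩,⟨false,2,⟨0,
  [(4,0),(42,0),(1,0)]⟩,⟨2,[(1,2),(13,0),(0,1),(19,0),(1,0),(2,0)]⟩⟩,⟨false,0,⟨0,[]⟩,⟨0,[]⟩⟩,⟨false,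
  0,⟨0,[]⟩,⟨0,[]⟩⟩,[.a ⟨true,0,⟨0,[(14,0),(32,0)]⟩,⟨4,[(2,0),(4,0),(4,0),(2,0),(20,1),(1,1),(10,
  0)]⟩⟩ ⟨false,0,⟨2,[(6,0),(37,0),(2,1)]⟩,⟨3,[(19,1),(10,0),(0,0),(17,0)]⟩⟩ ⟨true,1,⟨0,[(4,0),(42,
  0)]⟩,⟨5,[(1,4),(0,1),(4,1),(7,0),(15,0),(6,4),(2,1)]⟩⟩,.o ⟨false,1,⟨0,[(35,0),(13,0)]⟩,⟨2,[(15,0),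
  (0,1),(19,0),(1,0),(2,0)]⟩⟩,.a ⟨true,(-1),⟨0,[(1,0)]⟩,⟨0,[(30,0)]⟩⟩ ⟨false,0,⟨0,[(47,0)]⟩,⟨3,[(19,
  1),(10,0),(0,0),(17,0)]⟩⟩ ⟨true,1,⟨0,[(4,0),(42,0)]⟩,⟨2,[(1,2),(13,0),(0,1),(19,0),(1,0),(2,0)]⟩⟩,
  .a ⟨true,(-1),⟨2,[(1,1),(1,0),(27,0),(6,0)]⟩,⟨2,[(4,1),(2,0),(4,0),(2,0),(14,0),(7,0)]⟩⟩ ⟨true,0,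
  ⟨2,[(6,0),(37,0),(2,1)]⟩,⟨25,[(2,3),(0,3),(15,5),(5,0),(0,4),(11,8),(2,1)]⟩⟩ ⟨false,2,⟨1,[(4,0),
  (16,0),(8,0),(4,0),(13,0)]⟩,⟨5,[(1,4),(0,1),(4,1),(7,0),(15,0),(6,4),(2,1)]⟩⟩]⟩)))) (.Q [0,0,-1,0,
  -1,0,1,0,1,1,-1,-1] (.p false [0,0,1] [1,0,0,0,-1] (⟨0,[(37,0)]⟩,⟨0,[(36,0)]⟩) .k 2 (⟨0,[(29,0)]⟩,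
  ⟨0,[(30,0)]⟩) .k (.r (-1) ⟨4,[(11,0),(0,0),(5,0),(8,2),(0,2),(3,3),(2,3),(5,0)]⟩ ⟨7,[(4,1),(5,3),
  (23,0),(0,0),(10,5)]⟩)) (.Q [0,0,0,0,0,-1,0,0,0,0,0,1] (.ed false [1,-1,0,0,1] .k) (.R ⟨1,false,
  false,false,[0,0,0,0,1],[1,-1,-1],[0,1,0,-1],(⟨0,[(32,0)]⟩,⟨0,[(31,0)]⟩),(⟨0,[(27,0)]⟩,⟨0,[(39,0),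
  (2,0)]⟩),⟨0,[(0,0)]⟩,.k,.k,(.r 0 ⟨2,[(5,0),(37,0),(2,1)]⟩ ⟨3,[(3,0),(14,0),(5,0),(5,0),(5,0),(0,
  1),(10,1)]⟩),(.r 0 ⟨0,[(25,0),(11,0)]⟩ ⟨7,[(6,0),(12,4),(0,3),(14,0),(0,0),(9,6)]⟩),.k,.k,⟨true,0,
  ⟨0,[(34,0),(2,0)]⟩,⟨7,[(6,1),(5,3),(23,0),(0,0),(10,5)]⟩⟩,⟨false,2,⟨3,[(14,1),(14,4),(0,0),(6,1),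
  (2,0)]⟩,⟨0,[(1,0)]⟩⟩,⟨true,0,⟨0,[(46,0)]⟩,⟨0,[(45,0)]⟩⟩,⟨false,2,⟨4,[(2,0),(0,0),(2,2),(22,3),(7,
  4),(2,1),(7,4)]⟩,⟨0,[(1,0),(23,0),(11,0)]⟩⟩,⟨false,1,⟨1,[(29,0),(0,0),(17,0)]⟩,⟨0,[]⟩⟩,⟨false,2,
  ⟨19,[(2,5),(0,5),(2,7),(5,9),(16,13),(7,19),(2,6),(7,24)]⟩,⟨0,[(1,0),(32,0),(2,0)]⟩⟩,[.e ⟨false,0,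
  ⟨2,[(5,0),(37,0),(2,1)]⟩,⟨3,[(18,1),(10,0),(0,0),(17,0)]⟩⟩ ⟨false,1,⟨4,[(2,2),(0,2),(2,3),(22,1),
  (7,4),(2,0)]⟩,⟨0,[(13,0),(16,0)]⟩⟩,.o ⟨false,1,⟨13,[(6,3),(13,1),(14,5),(1,7),(2,6),(5,3),(1,8)]⟩,
  ⟨0,[(25,0)]⟩⟩,.a ⟨true,(-1),⟨0,[(1,0),(35,0)]⟩,⟨0,[(29,0)]⟩⟩ ⟨false,0,⟨0,[(46,0)]⟩,⟨3,[(18,1),(10,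
  0),(0,0),(17,0)]⟩⟩ ⟨true,1,⟨4,[(2,0),(0,0),(2,2),(22,3),(7,4),(2,1)]⟩,⟨0,[(1,0),(23,0),(11,0)]⟩⟩,
  .e ⟨true,0,⟨2,[(5,0),(37,0),(2,1)]⟩,⟨5,[(10,1),(1,1),(23,1),(0,3),(2,0),(7,0)]⟩⟩ ⟨true,1,⟨4,[(2,
  2),(0,2),(2,3),(22,1),(7,4),(2,0)]⟩,⟨1,[(1,1),(23,1),(10,0),(0,2)]⟩⟩]⟩) (.R ⟨0,false,false,false,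
  [0,0,0,0,1],[1,0,-1],[0,1,1],(⟨0,[(32,0)]⟩,⟨0,[(31,0)]⟩),(⟨0,[(38,0)]⟩,⟨0,[(39,0)]⟩),⟨0,[(0,0)]⟩,
  .k,.k,(.r 0 ⟨2,[(5,0),(37,0),(2,1)]⟩ ⟨3,[(3,0),(14,0),(5,0),(5,0),(5,0),(0,1),(10,1)]⟩),.k,.k,.k,
  ⟨true,0,⟨0,[(34,0),(2,0)]⟩,⟨7,[(6,1),(5,3),(23,0),(0,0),(10,5)]⟩⟩,⟨false,2,⟨0,[(14,0),(14,0)]⟩,⟨1,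
  [(1,1),(34,0),(0,0)]⟩⟩,⟨true,0,⟨1,[(36,0),(0,0)]⟩,⟨3,[(5,0),(37,0),(0,0)]⟩⟩,⟨false,2,⟨19,[(2,5),
  (0,5),(2,7),(5,9),(16,13),(7,19),(2,6),(7,24)]⟩,⟨0,[(1,0),(32,0),(2,0)]⟩⟩,⟨false,0,⟨0,[]⟩,⟨0,[]⟩⟩,
  ⟨false,0,⟨0,[]⟩,⟨0,[]⟩⟩,[.e ⟨false,0,⟨0,[(50,0)]⟩,⟨1,[(47,0),(0,0)]⟩⟩ ⟨false,1,⟨19,[(2,13),(0,13),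
  (2,11),(5,9),(16,5),(7,19),(2,2),(7,4)]⟩,⟨0,[(13,0),(16,0),(15,0)]⟩⟩,.o ⟨false,1,⟨19,[(6,7),(7,5),
  (3,5),(0,3),(17,13),(2,6),(7,4)]⟩,⟨0,[(34,0)]⟩⟩,.a ⟨true,(-1),⟨0,[(1,0),(35,0)]⟩,⟨0,[(29,0)]⟩⟩
  ⟨false,0,⟨1,[(36,0),(0,0)]⟩,⟨1,[(47,0),(0,0)]⟩⟩ ⟨true,1,⟨19,[(2,5),(0,5),(2,7),(5,9),(16,13),(7,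
  19),(2,6),(7,4)]⟩,⟨0,[(1,0),(32,0),(2,0)]⟩⟩,.e ⟨true,0,⟨0,[(50,0)]⟩,⟨0,[]⟩⟩ ⟨true,1,⟨19,[(2,13),
  (0,13),(2,11),(5,9),(16,5),(7,19),(2,2),(7,4)]⟩,⟨1,[(1,1),(32,1),(1,0),(0,2)]⟩⟩]⟩)) (.Q [0,0,0,0,
  0,-1,0,0,0,0,0,1] (.ed false [1,-1,0,0,1] .k) (.Q [0,0,-1,0,1,0,0,0,-1,-1,0,1] (.p true [0,0,0,0,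
  1] [1] (⟨0,[(32,0)]⟩,⟨0,[(31,0)]⟩) .k 1 (⟨0,[]⟩,⟨0,[]⟩) .k .k) (.R ⟨1,false,false,true,[0,0,0,0,
  1],[1,-1],[0,1,0,-1],(⟨0,[(33,0)]⟩,⟨0,[(32,0)]⟩),(⟨0,[(42,0)]⟩,⟨0,[(43,0)]⟩),⟨0,[(1,0)]⟩,.k,.k,
  (.r 0 ⟨2,[(6,0),(37,0),(2,1)]⟩ ⟨3,[(2,0),(11,0),(4,0),(5,0),(5,0),(5,0),(0,0),(10,1)]⟩),(.r 0 ⟨1,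
  [(25,0),(0,0),(11,0)]⟩ ⟨3,[(21,1),(8,0),(0,0),(15,1),(1,0)]⟩),.k,.k,⟨true,0,⟨1,[(37,0),(0,0)]⟩,⟨0,
  []⟩⟩,⟨false,1,⟨2,[(0,1),(1,0),(34,0)]⟩,⟨1,[(24,1),(23,0),(0,0)]⟩⟩,⟨true,0,⟨0,[(47,0)]⟩,⟨0,[(46,
  0)]⟩⟩,⟨true,1,⟨2,[(0,1),(1,0),(34,0),(9,2)]⟩,⟨0,[(23,0)]⟩⟩,⟨false,1,⟨1,[(30,0),(0,0),(17,0)]⟩,⟨0,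
  []⟩⟩,⟨true,1,⟨2,[(0,1),(1,0),(34,0)]⟩,⟨0,[(24,0)]⟩⟩,[.e ⟨false,0,⟨2,[(6,0),(37,0),(2,1)]⟩,⟨3,[(19,
  1),(10,0),(0,0),(17,0)]⟩⟩ ⟨false,1,⟨8,[(0,0),(1,3),(3,4),(0,1),(22,3),(4,3),(5,1)]⟩,⟨1,[(10,0),
  (13,0),(24,1)]⟩⟩,.a ⟨true,0,⟨0,[(47,0)]⟩,⟨16,[(7,0),(1,1),(1,7),(0,2),(7,2),(15,2),(1,8),(0,3),(2,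
  1)]⟩⟩ ⟨true,0,⟨0,[(47,0)]⟩,⟨5,[(11,1),(1,1),(23,1),(0,3),(2,0),(7,0)]⟩⟩ ⟨false,1,⟨0,[(0,0),(46,
  0)]⟩,⟨3,[(19,1),(4,3),(5,0),(0,0),(17,0)]⟩⟩,.o ⟨false,0,⟨0,[(31,0)]⟩,⟨2,[(0,1),(1,0),(34,0)]⟩⟩,.o
  ⟨false,0,⟨1,[(31,1),(5,0),(0,0)]⟩,⟨0,[(0,0)]⟩⟩]⟩) (.Q [0,0,0,1,1,0,0,0,-1,-1,0,1] (.p true [0,0,0,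
  0,1] [1] (⟨0,[(33,0)]⟩,⟨0,[(32,0)]⟩) .k 1 (⟨0,[]⟩,⟨0,[]⟩) .k .k) (.S ⟨1,0,[0,1,0,-1],[0,0,0,0,1],
  [1,2],(⟨0,[(34,0)]⟩,⟨0,[(33,0)]⟩),⟨0,[(2,0)]⟩,.k,(.r 0 ⟨2,[(7,0),(37,0),(2,1)]⟩ ⟨11,[(1,1),(1,4),
  (11,2),(4,2),(5,2),(5,2),(5,1),(11,5)]⟩),⟨false,0,⟨0,[]⟩,⟨1,[(31,0),(0,0),(17,0)]⟩⟩,⟨true,0,⟨0,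
  [(48,0)]⟩,⟨0,[(47,0)]⟩⟩,⟨true,0,⟨0,[(47,0)]⟩,⟨0,[(48,0)]⟩⟩,⟨false,1,⟨1,[(31,0),(0,0),(17,0)]⟩,⟨0,
  []⟩⟩,[.e ⟨false,0,⟨0,[(45,0)]⟩,⟨0,[(50,0)]⟩⟩ ⟨false,0,⟨2,[(7,0),(37,0),(2,1)]⟩,⟨3,[(20,1),(10,0),
  (0,0),(17,0)]⟩⟩,.o ⟨false,0,⟨0,[(32,0),(15,0)]⟩,⟨0,[(0,0)]⟩⟩,.o ⟨false,0,⟨0,[(32,0)]⟩,⟨0,[(0,0),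
  (47,0)]⟩⟩,.a ⟨true,(-1),⟨0,[(1,0)]⟩,⟨10,[(0,1),(2,1),(1,1),(1,0),(0,0),(4,3),(8,0),(8,4)]⟩⟩
  ⟨false,0,⟨3,[(7,0),(37,0),(0,0)]⟩,⟨2,[(1,0),(1,0),(34,0),(11,2)]⟩⟩ ⟨true,0,⟨2,[(7,0),(37,0),(2,
  1)]⟩,⟨0,[(0,0),(0,0)]⟩⟩]⟩) (.Q [0,0,0,0,1,0,0,0,-1,-1,0,1] (.p true [0,0,0,0,1] [1] (⟨0,[(34,0)]⟩,
  ⟨0,[(33,0)]⟩) .k 1 (⟨0,[]⟩,⟨0,[]⟩) .k .k) (.S ⟨1,2,[],[0,0,0,0,1],[1,2],(⟨0,[(35,0)]⟩,⟨0,[(34,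
  0)]⟩),⟨0,[(3,0)]⟩,.k,(.r 0 ⟨2,[(8,0),(37,0),(2,1)]⟩ ⟨11,[(2,1),(1,4),(11,2),(4,2),(5,2),(5,2),(5,
  1),(11,5)]⟩),⟨false,0,⟨0,[]⟩,⟨1,[(32,0),(0,0),(17,0)]⟩⟩,⟨true,1,⟨0,[(0,0)]⟩,⟨0,[(26,0)]⟩⟩,⟨true,0,
  ⟨0,[(48,0)]⟩,⟨0,[(49,0)]⟩⟩,⟨false,2,⟨6,[(0,2),(3,1),(1,1),(14,1),(0,1),(0,0),(19,0),(7,0)]⟩,⟨0,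
  [(1,0)]⟩⟩,[.e ⟨false,0,⟨0,[(46,0)]⟩,⟨0,[(51,0)]⟩⟩ ⟨false,1,⟨3,[(0,3),(7,0),(37,0),(0,0)]⟩,⟨0,[(26,
  0),(24,0)]⟩⟩,.fo,.o ⟨false,0,⟨0,[(33,0)]⟩,⟨0,[(0,0)]⟩⟩,.a ⟨true,(-1),⟨0,[(2,0)]⟩,⟨1,[(0,0),(13,0),
  (17,0)]⟩⟩ ⟨false,0,⟨3,[(8,0),(37,0),(0,0)]⟩,⟨2,[(2,0),(1,0),(34,0),(11,2)]⟩⟩ ⟨true,1,⟨3,[(0,3),(7,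
  0),(37,0),(0,0)]⟩,⟨0,[(2,0)]⟩⟩]⟩) (.R ⟨1,false,false,false,[0,0,0,0,1],[0,0,1],[0,1,0,-1],(⟨0,
  [(35,0)]⟩,⟨0,[(34,0)]⟩),(⟨0,[(42,0)]⟩,⟨0,[(41,0)]⟩),⟨0,[(3,0)]⟩,.k,.k,(.r 0 ⟨2,[(8,0),(37,0),(2,
  1)]⟩ ⟨11,[(2,1),(1,4),(11,2),(4,2),(5,2),(5,2),(5,1),(11,5)]⟩),.k,(.r 0 ⟨45,[(9,12),(13,7),(5,9),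
  (8,19),(4,4),(2,16),(2,11)]⟩ ⟨0,[(28,0),(11,0),(10,0)]⟩),.k,⟨true,(-1),⟨0,[(19,0)]⟩,⟨0,[(28,0),
  (11,0),(10,0)]⟩⟩,⟨false,1,⟨15,[(6,11),(2,5),(19,1),(2,3),(10,0),(6,4)]⟩,⟨2,[(0,0),(4,0),(27,1),(6,
  1)]⟩⟩,⟨true,0,⟨0,[(49,0)]⟩,⟨0,[(48,0)]⟩⟩,⟨false,2,⟨0,[(6,0),(42,0),(1,0)]⟩,⟨2,[(0,0),(4,0),(12,2),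
  (14,1),(6,1)]⟩⟩,⟨false,1,⟨1,[(32,0),(0,0),(17,0)]⟩,⟨0,[]⟩⟩,⟨false,2,⟨0,[(6,0),(44,0)]⟩,⟨2,[(1,2),
  (15,0),(0,1),(19,0),(1,0),(2,0)]⟩⟩,[.a ⟨true,0,⟨0,[(1,0),(4,0)]⟩,⟨37,[(5,2),(3,12),(4,2),(0,1),(5,
  11),(16,9),(1,24)]⟩⟩ ⟨false,0,⟨2,[(8,0),(37,0),(2,1)]⟩,⟨3,[(21,1),(10,0),(0,0),(17,0)]⟩⟩ ⟨true,1,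
  ⟨0,[(6,0),(42,0)]⟩,⟨3,[(0,2),(1,0),(6,0),(5,1),(24,3),(2,1),(7,0)]⟩⟩,.o ⟨false,1,⟨0,[(37,0),(13,
  0)]⟩,⟨2,[(17,0),(0,1),(19,0),(1,0),(2,0)]⟩⟩,.a ⟨true,(-1),⟨0,[(0,0)]⟩,⟨0,[(32,0)]⟩⟩ ⟨false,0,⟨0,
  [(49,0)]⟩,⟨3,[(21,1),(10,0),(0,0),(17,0)]⟩⟩ ⟨true,1,⟨0,[(6,0),(42,0)]⟩,⟨2,[(0,0),(4,0),(12,2),(14,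
  1),(6,1)]⟩⟩,.a ⟨true,(-1),⟨0,[(2,0)]⟩,⟨5,[(4,0),(0,0),(0,1),(2,0),(4,1),(17,2)]⟩⟩ ⟨true,0,⟨2,[(8,
  0),(37,0),(2,1)]⟩,⟨17,[(2,7),(1,7),(8,5),(1,5),(23,1),(3,2),(7,2)]⟩⟩ ⟨false,2,⟨1,[(6,0),(16,0),(8,
  0),(4,0),(13,0)]⟩,⟨3,[(0,2),(1,0),(6,0),(5,1),(24,3),(2,1),(7,0)]⟩⟩]⟩)))) (.Q [0,0,-1,0,1,0,0,0,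
  -1,-1,0,1] (.p true [0,0,0,0,1] [1] (⟨0,[(32,0)]⟩,⟨0,[(31,0)]⟩) .k 1 (⟨0,[]⟩,⟨0,[]⟩) .k .k) (.R
  ⟨0,false,false,true,[0,0,0,0,1],[0,1],[1,1,1,1],(⟨0,[(33,0)]⟩,⟨0,[(32,0)]⟩),(⟨0,[(43,0)]⟩,⟨0,[(42,
  0)]⟩),⟨0,[(1,0)]⟩,.k,.k,(.r 0 ⟨2,[(6,0),(37,0),(2,1)]⟩ ⟨3,[(2,0),(11,0),(4,0),(5,0),(5,0),(5,0),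
  (0,0),(10,1)]⟩),(.r 0 ⟨2,[(6,0),(37,0),(2,1)]⟩ ⟨3,[(2,0),(11,0),(4,0),(5,0),(5,0),(5,0),(0,0),(10,
  1)]⟩),.k,.k,⟨true,0,⟨0,[]⟩,⟨1,[(37,0),(0,0)]⟩⟩,⟨false,1,⟨2,[(0,1),(11,1),(17,0)]⟩,⟨1,[(31,1),(5,
  0),(0,0)]⟩⟩,⟨true,0,⟨5,[(11,1),(1,1),(23,1),(0,3),(2,0),(7,0)]⟩,⟨2,[(6,0),(37,0),(2,1)]⟩⟩,⟨false,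
  1,⟨1,[(0,0),(1,0),(4,0),(3,1),(26,0),(10,0)]⟩,⟨0,[(31,0),(15,0)]⟩⟩,⟨false,0,⟨0,[]⟩,⟨0,[]⟩⟩,⟨false,
  0,⟨0,[]⟩,⟨0,[]⟩⟩,[.o ⟨false,0,⟨0,[(46,0)]⟩,⟨1,[(41,0),(5,1),(1,0)]⟩⟩,.a ⟨true,0,⟨16,[(7,0),(1,1),
  (1,7),(0,2),(7,2),(15,2),(1,8),(0,3),(2,1)]⟩,⟨0,[(47,0)]⟩⟩ ⟨true,0,⟨5,[(11,1),(1,1),(23,1),(0,3),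
  (2,0),(7,0)]⟩,⟨0,[(47,0)]⟩⟩ ⟨false,1,⟨3,[(0,0),(1,0),(1,0),(7,1),(0,0),(5,0),(10,0)]⟩,⟨0,[(31,0),
  (15,0)]⟩⟩,.o ⟨false,0,⟨0,[(31,0)]⟩,⟨2,[(0,1),(1,0),(34,0)]⟩⟩,.o ⟨false,0,⟨1,[(31,1),(5,0),(0,0)]⟩,
  ⟨0,[(0,0)]⟩⟩]⟩) (.Q [0,0,0,0,1,0,0,0,-1,-1,0,1] (.p true [0,0,0,0,1] [1] (⟨0,[(33,0)]⟩,⟨0,[(32,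
  0)]⟩) .k 1 (⟨0,[]⟩,⟨0,[]⟩) .k .k) (.Q [0,-1,0,0,1,0,0,0,-1,0,0,1] (.p true [0,0,0,0,1] [] (⟨0,
  [(34,0)]⟩,⟨0,[(33,0)]⟩) .k 0 (⟨0,[]⟩,⟨0,[]⟩) .k .k) (.S ⟨1,0,[0,-1,0,-1],[1,0,0,0,-1],[1],(⟨0,
  [(34,0)]⟩,⟨0,[(35,0)]⟩),⟨2,[(3,0),(3,0),(2,0),(23,1)]⟩,.k,(.r (-1) ⟨3,[(23,1),(8,0),(0,0),(15,1),
  (1,0)]⟩ ⟨1,[(27,0),(0,0),(11,0)]⟩),⟨false,0,⟨0,[]⟩,⟨1,[(32,0),(0,0),(17,0)]⟩⟩,⟨true,0,⟨0,[(49,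
  0)]⟩,⟨0,[(48,0)]⟩⟩,⟨true,0,⟨0,[(48,0)]⟩,⟨0,[(49,0)]⟩⟩,⟨false,1,⟨1,[(32,0),(0,0),(17,0)]⟩,⟨0,[]⟩⟩,
  [.a ⟨true,1,⟨0,[(0,0),(48,0)]⟩,⟨0,[(25,0)]⟩⟩ ⟨true,0,⟨0,[]⟩,⟨2,[(2,0),(1,0),(34,0)]⟩⟩ ⟨false,1,⟨3,
  [(23,1),(8,0),(0,0),(15,1),(1,0)]⟩,⟨0,[(48,0)]⟩⟩,.o ⟨false,2,⟨0,[(1,0),(47,0),(1,0)]⟩,⟨5,[(2,1),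
  (2,1),(6,0),(5,3),(7,2),(1,3),(11,1),(2,1)]⟩⟩,.o ⟨false,1,⟨0,[(1,0)]⟩,⟨0,[(33,0)]⟩⟩,.o ⟨false,1,
  ⟨1,[(1,0),(2,0),(34,0)]⟩,⟨10,[(2,8),(2,3),(3,1),(2,1),(0,0),(9,4),(4,2),(14,3)]⟩⟩]⟩) (.R ⟨2,false,
  false,false,[0,1],[0,0,0,0,1],[0,1,1],(⟨0,[]⟩,⟨0,[]⟩),(⟨0,[(35,0)]⟩,⟨0,[(34,0)]⟩),⟨0,[]⟩,.k,.k,.k,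
  (.r (-1) ⟨11,[(2,1),(1,4),(11,2),(4,2),(5,2),(5,2),(5,1),(11,5)]⟩ ⟨2,[(8,0),(37,0),(2,1)]⟩),.k,.k,
  ⟨true,0,⟨2,[(2,0),(1,0),(34,0)]⟩,⟨0,[]⟩⟩,⟨false,0,⟨0,[(33,0)]⟩,⟨1,[(1,0),(12,0),(17,0)]⟩⟩,⟨false,
  0,⟨0,[(49,0)]⟩,⟨3,[(21,1),(10,0),(0,0),(17,0)]⟩⟩,⟨true,(-1),⟨0,[(0,0),(48,0)]⟩,⟨8,[(4,1),(1,0),(6,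
  0),(0,0),(0,1),(5,1),(10,5)]⟩⟩,⟨true,0,⟨0,[(53,0)]⟩,⟨0,[]⟩⟩,⟨true,(-1),⟨0,[(0,0)]⟩,⟨0,[(32,0)]⟩⟩,
  [.o ⟨false,(-1),⟨0,[(0,0)]⟩,⟨1,[(32,1),(10,0),(7,0)]⟩⟩,.o ⟨false,0,⟨0,[(33,0)]⟩,⟨0,[(1,0)]⟩⟩,.a
  ⟨true,0,⟨2,[(2,0),(11,1),(17,0)]⟩,⟨2,[(2,0),(1,0),(34,0)]⟩⟩ ⟨false,0,⟨2,[(2,0),(1,0),(34,0)]⟩,⟨1,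
  [(50,0),(0,0)]⟩⟩ ⟨true,(-1),⟨2,[(0,2),(1,0),(1,0),(34,0)]⟩,⟨1,[(1,0),(12,0),(17,0)]⟩⟩,.e ⟨true,0,
  ⟨0,[(53,0)]⟩,⟨0,[]⟩⟩ ⟨true,(-1),⟨0,[(0,0)]⟩,⟨0,[(32,0)]⟩⟩]⟩)) (.R ⟨0,false,false,false,[0,0,0,0,
  1],[1,0,-1],[0,1,1],(⟨0,[(34,0)]⟩,⟨0,[(33,0)]⟩),(⟨0,[(40,0)]⟩,⟨0,[(41,0)]⟩),⟨0,[(2,0)]⟩,.k,.k,(.r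
  0 ⟨2,[(7,0),(37,0),(2,1)]⟩ ⟨11,[(1,1),(1,4),(11,2),(4,2),(5,2),(5,2),(5,1),(11,5)]⟩),.k,.k,.k,
  ⟨true,0,⟨0,[(36,0),(2,0)]⟩,⟨11,[(1,0),(1,0),(4,2),(5,5),(23,0),(11,8)]⟩⟩,⟨false,2,⟨0,[(16,0),(14,
  0)]⟩,⟨0,[(0,0),(22,0)]⟩⟩,⟨true,0,⟨2,[(1,0),(1,0),(34,0)]⟩,⟨3,[(7,0),(37,0),(0,0)]⟩⟩,⟨false,2,⟨10,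
  [(3,10),(4,4),(11,5),(0,0),(0,2),(27,5)]⟩,⟨0,[(0,0),(35,0)]⟩⟩,⟨false,0,⟨0,[]⟩,⟨0,[]⟩⟩,⟨false,0,⟨0,
  []⟩,⟨0,[]⟩⟩,[.e ⟨false,0,⟨0,[(52,0)]⟩,⟨1,[(49,0),(0,0)]⟩⟩ ⟨false,1,⟨23,[(3,16),(0,10),(0,3),(2,
  10),(4,3),(0,5),(5,5),(10,2)]⟩,⟨5,[(1,3),(13,1),(6,1),(8,0),(0,2),(3,3),(13,0)]⟩⟩,.o ⟨false,1,⟨19,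
  [(8,7),(7,5),(3,5),(0,3),(17,13),(2,6),(7,4)]⟩,⟨0,[(36,0)]⟩⟩,.a ⟨true,(-1),⟨0,[(0,0)]⟩,⟨0,[(31,
  0)]⟩⟩ ⟨false,0,⟨2,[(1,0),(1,0),(34,0)]⟩,⟨1,[(49,0),(0,0)]⟩⟩ ⟨true,1,⟨3,[(3,2),(0,0),(3,0),(5,0),
  (6,0),(9,0)]⟩,⟨0,[(0,0),(35,0)]⟩⟩,.e ⟨true,0,⟨0,[(52,0)]⟩,⟨0,[]⟩⟩ ⟨true,1,⟨23,[(3,16),(0,10),(0,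
  3),(2,10),(4,3),(0,5),(5,5),(10,2)]⟩,⟨0,[(1,0),(34,0)]⟩⟩]⟩)))))))) (.R ⟨1,false,false,true,[1,-1],
  [1,0,-1],[1,1,-1,-1],(⟨0,[(36,0)]⟩,⟨0,[(37,0)]⟩),(⟨0,[(33,0)]⟩,⟨0,[(34,0)]⟩),⟨1,[(2,0),(19,0),(13,
  0)]⟩,.k,.k,(.r (-1) ⟨4,[(15,3),(8,0),(0,0),(12,1),(2,5)]⟩ ⟨0,[(0,0),(39,0)]⟩),.k,(.r (-2) ⟨4,[(15,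
  6),(8,2),(0,2),(3,4),(2,4),(5,0),(2,2)]⟩ ⟨0,[(0,0),(6,0)]⟩),.k,⟨true,1,⟨0,[(15,0),(13,0),(2,0)]⟩,
  ⟨0,[(0,0),(9,0)]⟩⟩,⟨false,1,⟨1,[(6,0),(2,0),(22,0),(9,0)]⟩,⟨0,[(31,0)]⟩⟩,⟨false,0,⟨0,[]⟩,⟨1,[(24,
  0),(0,0),(17,0)]⟩⟩,⟨false,0,⟨28,[(1,6),(4,4),(0,12),(1,4),(3,14),(16,1),(1,21)]⟩,⟨0,[(29,0),(11,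
  0),(1,0)]⟩⟩,⟨true,0,⟨0,[(40,0)]⟩,⟨0,[(41,0)]⟩⟩,⟨false,0,⟨3,[(6,0),(0,3),(1,0),(3,1),(18,2),(10,
  0)]⟩,⟨0,[(29,0),(11,1),(1,0)]⟩⟩,[.o ⟨false,0,⟨2,[(9,0),(0,1),(19,0),(1,0),(2,0)]⟩,⟨0,[(29,0),(13,
  0)]⟩⟩,.a ⟨true,0,⟨28,[(1,9),(4,2),(0,1),(1,2),(3,8),(16,6),(1,18)]⟩,⟨0,[(8,0),(32,0)]⟩⟩ ⟨false,1,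
  ⟨4,[(15,3),(8,0),(0,0),(12,1),(2,0)]⟩,⟨1,[(0,0),(39,0)]⟩⟩ ⟨true,0,⟨11,[(1,3),(4,4),(0,3),(1,4),(3,
  1),(18,6),(10,0)]⟩,⟨0,[(0,0),(28,0),(11,0)]⟩⟩,.a ⟨true,0,⟨1,[(31,0),(0,0)]⟩,⟨1,[(6,0),(26,0),(0,
  0)]⟩⟩ ⟨true,0,⟨3,[(6,0),(2,0),(1,0),(17,0),(8,0),(2,2)]⟩,⟨1,[(0,0),(39,0)]⟩⟩ ⟨false,0,⟨11,[(1,3),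
  (4,4),(0,3),(1,4),(3,1),(18,6),(10,0)]⟩,⟨1,[(29,1),(1,0),(0,0),(10,1)]⟩⟩,.a ⟨true,0,⟨0,[(31,0),(0,
  0)]⟩,⟨0,[(6,0)]⟩⟩ ⟨false,1,⟨4,[(15,3),(8,0),(0,0),(12,1),(2,0)]⟩,⟨0,[(0,0)]⟩⟩ ⟨true,0,⟨2,[(6,1),
  (2,1),(0,1),(19,0)]⟩,⟨0,[(0,0),(28,0),(11,0)]⟩⟩]⟩))

theorem ok9 : chk K t9 l19 = true := by decide +kernel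

noncomputable def t10 : Tre :=
  (.Q [0,0,0,0,0,2,0,0,0,-1,1] (.p true [0,0,1] [1] (⟨0,[(33,0)]⟩,⟨0,[(32,0)]⟩) .k 1 (⟨0,[]⟩,⟨0,
  []⟩) .k .k) (.Q [0,0,-1,-1,0,0,1,0,0,0,-1] (.p false [0,0,1] [] (⟨0,[(34,0)]⟩,⟨0,[(33,0)]⟩) .k 0
  (⟨0,[]⟩,⟨0,[]⟩) .k .k) (.R ⟨0,false,false,false,[1,-1,-1],[1,-1],[1,1],(⟨0,[(23,0)]⟩,⟨0,[(1,0),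
  (35,0)]⟩),(⟨0,[(37,0)]⟩,⟨0,[(38,0)]⟩),⟨0,[(1,0)]⟩,.k,.k,(.r 0 ⟨0,[(12,0),(3,0)]⟩ ⟨7,[(2,5),(17,3),
  (11,2),(0,2),(10,1)]⟩),.k,.k,.k,⟨false,0,⟨0,[(41,0)]⟩,⟨3,[(16,1),(8,0),(0,0),(15,1),(1,0)]⟩⟩,
  ⟨true,0,⟨0,[(17,0)]⟩,⟨0,[(33,0)]⟩⟩,⟨true,0,⟨0,[(21,0),(11,0)]⟩,⟨0,[(13,0)]⟩⟩,⟨false,1,⟨0,[(30,0),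
  (13,0)]⟩,⟨5,[(7,0),(2,0),(0,3),(19,1),(1,2),(10,2)]⟩⟩,⟨false,0,⟨0,[]⟩,⟨0,[]⟩⟩,⟨false,0,⟨0,[]⟩,⟨0,
  []⟩⟩,[.a ⟨true,0,⟨0,[(42,0)]⟩,⟨20,[(4,2),(1,7),(0,3),(0,0),(6,3),(15,2),(1,10),(0,5),(2,2)]⟩⟩
  ⟨false,0,⟨3,[(7,0),(2,0),(1,0),(8,0),(17,0)]⟩,⟨1,[(25,0),(0,0),(17,0)]⟩⟩ ⟨true,0,⟨0,[(0,0)]⟩,⟨7,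
  [(2,1),(5,3),(23,2),(0,10),(10,1)]⟩⟩,.o ⟨false,1,⟨1,[(36,0),(5,1),(1,0)]⟩,⟨0,[(41,0)]⟩⟩,.a ⟨true,
  0,⟨0,[(33,0)]⟩,⟨0,[(29,0)]⟩⟩ ⟨false,0,⟨0,[]⟩,⟨1,[(25,0),(0,0),(17,0)]⟩⟩ ⟨true,0,⟨0,[(0,0)]⟩,⟨1,
  [(2,0),(8,0),(19,0),(1,0)]⟩⟩,.a ⟨true,0,⟨1,[(32,0),(0,2)]⟩,⟨4,[(0,1),(5,0),(0,1),(0,0),(7,0),(12,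
  1)]⟩⟩ ⟨true,0,⟨3,[(7,0),(2,0),(1,0),(8,0),(17,0)]⟩,⟨1,[(32,0),(0,0)]⟩⟩ ⟨false,1,⟨11,[(0,7),(13,1),
  (1,7),(5,1),(13,0),(7,0)]⟩,⟨7,[(2,1),(5,3),(23,2),(0,10),(10,1)]⟩⟩]⟩) (.R ⟨0,false,false,false,[1,
  -1,-1],[1,-1],[1,1],(⟨0,[(23,0)]⟩,⟨0,[(1,0),(35,0)]⟩),(⟨0,[(37,0)]⟩,⟨0,[(38,0)]⟩),⟨0,[(1,0)]⟩,.k,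
  .k,(.r 0 ⟨0,[(12,0),(3,0)]⟩ ⟨7,[(2,5),(17,3),(11,2),(0,2),(10,1)]⟩),.k,.k,.k,⟨false,0,⟨0,[(41,
  0)]⟩,⟨3,[(16,1),(8,0),(0,0),(15,1),(1,0)]⟩⟩,⟨true,0,⟨0,[(17,0)]⟩,⟨0,[(33,0)]⟩⟩,⟨true,0,⟨0,[(21,0),
  (11,0)]⟩,⟨0,[(13,0)]⟩⟩,⟨false,1,⟨0,[(30,0),(13,0)]⟩,⟨0,[(0,0),(12,0)]⟩⟩,⟨false,0,⟨0,[]⟩,⟨0,[]⟩⟩,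
  ⟨false,0,⟨0,[]⟩,⟨0,[]⟩⟩,[.e ⟨false,0,⟨3,[(7,0),(2,0),(1,0),(8,0),(17,0)]⟩,⟨1,[(25,0),(0,0),(17,
  0)]⟩⟩ ⟨false,1,⟨16,[(12,0),(3,13),(5,7),(7,0),(5,3),(2,5),(2,1)]⟩,⟨0,[(0,0)]⟩⟩,.o ⟨false,1,⟨1,
  [(36,0),(5,1),(1,0)]⟩,⟨0,[(41,0)]⟩⟩,.e ⟨false,0,⟨0,[]⟩,⟨1,[(25,0),(0,0),(17,0)]⟩⟩ ⟨false,1,⟨0,
  [(16,0),(15,0)]⟩,⟨0,[(0,0)]⟩⟩,.a ⟨true,0,⟨1,[(32,0),(0,2)]⟩,⟨0,[(7,0),(9,0)]⟩⟩ ⟨true,0,⟨3,[(7,0),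
  (2,0),(1,0),(8,0),(17,0)]⟩,⟨1,[(32,0),(0,0)]⟩⟩ ⟨false,1,⟨0,[(16,0),(0,0)]⟩,⟨1,[(0,1),(31,0),(0,
  0)]⟩⟩]⟩)) (.I [1,-1,2,2] (.R ⟨1,false,false,true,[1,-1],[1,0,-1],[0,1,-1,-2],(⟨0,[(37,0)]⟩,⟨0,
  [(38,0)]⟩),(⟨0,[(34,0)]⟩,⟨0,[(35,0)]⟩),⟨2,[(1,0),(1,0),(33,1)]⟩,.k,.k,(.r (-1) ⟨4,[(16,3),(8,0),
  (0,0),(12,1),(2,5)]⟩ ⟨2,[(0,1),(19,0),(0,0),(11,0)]⟩),.k,(.r (-2) ⟨1,[(2,0),(13,1),(8,0),(0,0),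
  (12,0),(2,3)]⟩ ⟨1,[(0,1),(7,0),(3,0)]⟩),.k,⟨true,1,⟨6,[(2,2),(4,0),(2,0),(5,2),(13,0),(8,0),(2,
  16)]⟩,⟨0,[(0,0),(10,0)]⟩⟩,⟨false,1,⟨6,[(2,0),(4,3),(2,3),(5,1),(14,1),(1,0)]⟩,⟨0,[(32,0)]⟩⟩,
  ⟨false,0,⟨0,[(42,0)]⟩,⟨10,[(2,1),(11,1),(0,3),(0,0),(27,1)]⟩⟩,⟨false,0,⟨11,[(0,1),(6,2),(0,7),(1,
  2),(20,3),(1,4),(10,4)]⟩,⟨0,[(30,0),(11,0),(1,0)]⟩⟩,⟨true,0,⟨0,[(46,0)]⟩,⟨0,[]⟩⟩,⟨false,0,⟨5,[(0,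
  3),(6,2),(0,3),(1,2),(20,1),(1,0),(10,0)]⟩,⟨0,[(30,0),(11,1),(1,0)]⟩⟩,[.o ⟨false,0,⟨2,[(10,0),(0,
  1),(19,0),(1,0),(2,0)]⟩,⟨0,[(30,0),(13,0)]⟩⟩,.a ⟨true,0,⟨5,[(7,0),(2,0),(0,3),(19,1),(1,2),(10,
  2)]⟩,⟨0,[(9,0),(32,0)]⟩⟩ ⟨false,1,⟨4,[(16,3),(8,0),(0,0),(12,1),(2,5)]⟩,⟨6,[(0,2),(1,0),(5,1),(5,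
  0),(26,1)]⟩⟩ ⟨true,0,⟨1,[(7,0),(2,0),(0,1),(21,0),(10,0)]⟩,⟨0,[(0,0),(29,0),(11,1)]⟩⟩,.a ⟨true,0,
  ⟨1,[(32,0),(0,0)]⟩,⟨1,[(7,0),(26,0),(0,0)]⟩⟩ ⟨true,0,⟨3,[(7,0),(2,0),(1,0),(17,0),(8,0),(2,6)]⟩,
  ⟨6,[(0,2),(1,0),(5,1),(5,0),(26,1)]⟩⟩ ⟨false,0,⟨1,[(7,0),(2,0),(0,1),(21,0),(10,0)]⟩,⟨2,[(2,0),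
  (27,0),(1,1),(9,1),(1,1)]⟩⟩,.a ⟨true,0,⟨0,[(32,0),(0,0)]⟩,⟨0,[(7,0)]⟩⟩ ⟨false,1,⟨4,[(16,3),(8,0),
  (0,0),(12,1),(2,5)]⟩,⟨0,[(0,0)]⟩⟩ ⟨true,0,⟨2,[(7,1),(2,1),(0,1),(19,0)]⟩,⟨0,[(0,0),(29,0),(11,
  1)]⟩⟩]⟩) (.Q [0,2,2,0,-2,0,1,0,1,1,-1,-1] (.p false [0,0,1] [1,0,0,0,-1] (⟨0,[(35,0)]⟩,⟨0,[(34,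
  0)]⟩) .k 2 (⟨0,[(27,0)]⟩,⟨0,[(28,0)]⟩) .k (.r (-1) ⟨3,[(0,0),(1,1),(22,1),(0,1),(15,1),(3,2)]⟩ ⟨0,
  [(11,0),(32,0)]⟩)) (.Q [0,0,2,0,-1,0,1,0,0,1,-1] (.p false [0,0,1] [1] (⟨0,[(36,0)]⟩,⟨0,[(35,
  0)]⟩) .k 1 (⟨0,[]⟩,⟨0,[]⟩) .k .k) (.I [0,0,-2,-2,1,0,0,1] (.S ⟨1,0,[0,0,-1,-2,0,0,0,1],[0,-1,1],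
  [0,1,-1,-2,0,0,0,1],(⟨0,[(27,0)]⟩,⟨0,[(37,0),(3,0)]⟩),⟨0,[(6,0)]⟩,.k,(.r (-1) ⟨0,[(0,0)]⟩ ⟨27,[(1,
  15),(9,12),(5,13),(0,6),(4,7),(12,15),(2,7)]⟩),⟨false,0,⟨0,[(45,0)]⟩,⟨10,[(5,1),(11,1),(0,3),(0,
  0),(27,1)]⟩⟩,⟨true,0,⟨0,[(45,0)]⟩,⟨0,[(44,0)]⟩⟩,⟨true,0,⟨26,[(0,0),(1,3),(2,0),(22,3),(5,2),(1,0),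
  (2,1),(2,7)]⟩,⟨0,[]⟩⟩,⟨false,1,⟨31,[(0,7),(4,1),(17,11),(11,0),(0,0),(10,21)]⟩,⟨0,[]⟩⟩,[.e ⟨false,
  1,⟨26,[(0,27),(1,3),(2,0),(22,3),(5,2),(1,0),(2,1),(2,7)]⟩,⟨19,[(1,5),(3,1),(5,23),(5,5),(18,5),
  (2,2),(7,18)]⟩⟩ ⟨false,1,⟨0,[(0,0)]⟩,⟨27,[(1,7),(9,16),(5,13),(0,6),(4,3),(12,7),(2,3)]⟩⟩,.o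
  ⟨false,1,⟨1,[(0,1),(0,1),(37,0),(7,0)]⟩,⟨28,[(5,3),(5,33),(1,14),(3,7),(16,2),(1,10),(2,6)]⟩⟩,.o
  ⟨false,0,⟨0,[(35,0)]⟩,⟨0,[(13,0)]⟩⟩,.a ⟨true,(-1),⟨0,[(1,0)]⟩,⟨6,[(5,0),(4,3),(2,3),(5,1),(14,1),
  (1,0)]⟩⟩ ⟨false,1,⟨0,[(0,0)]⟩,⟨11,[(1,7),(9,10),(5,5),(0,0),(17,7),(2,3),(7,7)]⟩⟩ ⟨true,1,⟨0,[(0,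
  0)]⟩,⟨55,[(1,31),(3,6),(5,60),(5,13),(5,8),(12,31),(2,15)]⟩⟩]⟩) (.Q [0,0,0,0,0,1,0,0,0,0,0,-1]
  (.ed true [1,-1,0,0,1] .k) (.Q [0,0,-1,0,1,0,0,0,-1,-1,0,1] (.p true [0,0,0,0,1] [1] (⟨0,[(32,
  0)]⟩,⟨0,[(31,0)]⟩) .k 1 (⟨0,[]⟩,⟨0,[]⟩) .k .k) (.R ⟨0,false,false,true,[0,0,0,0,1],[0,1],[1,1,1,
  1],(⟨0,[(33,0)]⟩,⟨0,[(32,0)]⟩),(⟨0,[(43,0)]⟩,⟨0,[(42,0)]⟩),⟨0,[(1,0)]⟩,.k,.k,(.r 0 ⟨25,[(4,1),(0,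
  13),(1,0),(22,1),(5,1),(4,0),(2,2)]⟩ ⟨7,[(7,1),(17,3),(11,0),(0,0),(10,5)]⟩),(.r 0 ⟨25,[(4,1),(0,
  13),(1,0),(22,1),(5,1),(4,0),(2,2)]⟩ ⟨7,[(7,1),(17,3),(11,0),(0,0),(10,5)]⟩),.k,.k,⟨true,0,⟨0,[]⟩,
  ⟨1,[(37,0),(0,0)]⟩⟩,⟨false,1,⟨2,[(0,1),(11,1),(17,0)]⟩,⟨1,[(31,1),(5,0),(0,0)]⟩⟩,⟨true,0,⟨93,[(2,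
  21),(0,5),(3,17),(17,13),(12,5),(2,2),(7,6)]⟩,⟨25,[(4,1),(0,13),(1,0),(22,1),(5,1),(4,0),(2,2)]⟩⟩,
  ⟨false,1,⟨11,[(0,9),(1,2),(0,2),(7,2),(0,3),(17,1),(7,5),(10,5)]⟩,⟨0,[(31,0),(15,0)]⟩⟩,⟨false,0,
  ⟨0,[]⟩,⟨0,[]⟩⟩,⟨false,0,⟨0,[]⟩,⟨0,[]⟩⟩,[.o ⟨false,0,⟨0,[(46,0)]⟩,⟨1,[(41,0),(5,1),(1,0)]⟩⟩,.a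
  ⟨true,0,⟨4,[(3,0),(7,1),(0,1),(7,0),(15,0),(1,1)]⟩,⟨0,[(47,0)]⟩⟩ ⟨true,0,⟨93,[(2,21),(0,5),(3,17),
  (17,13),(12,5),(2,2),(7,6)]⟩,⟨0,[(47,0)]⟩⟩ ⟨false,1,⟨29,[(0,16),(1,5),(4,2),(3,2),(0,13),(6,2),
  (10,12),(5,2)]⟩,⟨0,[(31,0),(15,0)]⟩⟩,.o ⟨false,0,⟨0,[(31,0)]⟩,⟨3,[(0,2),(2,0),(26,0),(7,0),(2,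
  0)]⟩⟩,.o ⟨false,0,⟨1,[(31,1),(5,0),(0,0)]⟩,⟨0,[(0,0)]⟩⟩]⟩) (.Q [0,0,0,0,-1,0,0,0,1,1,0,-1] (.p
  false [0,0,0,0,1] [1] (⟨0,[(33,0)]⟩,⟨0,[(32,0)]⟩) .k 1 (⟨0,[]⟩,⟨0,[]⟩) .k .k) (.Q [0,0,-1,0,-1,0,
  0,0,1,1,0,-1] (.p false [0,0,0,0,1] [1] (⟨0,[(34,0)]⟩,⟨0,[(33,0)]⟩) .k 1 (⟨0,[]⟩,⟨0,[]⟩) .k .k)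
  (.S ⟨1,0,[0,-1,0,-1],[1,0,0,0,-1],[1],(⟨0,[(34,0)]⟩,⟨0,[(35,0)]⟩),⟨2,[(3,0),(4,0),(1,0),(23,1)]⟩,
  .k,(.r (-1) ⟨3,[(23,1),(8,0),(0,0),(15,1),(1,0)]⟩ ⟨30,[(4,4),(1,5),(2,7),(17,4),(4,5),(5,5),(4,2),
  (2,3)]⟩),⟨false,0,⟨0,[]⟩,⟨1,[(32,0),(0,0),(17,0)]⟩⟩,⟨true,0,⟨0,[(49,0)]⟩,⟨0,[(48,0)]⟩⟩,⟨true,0,⟨0,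
  [(48,0)]⟩,⟨0,[(49,0)]⟩⟩,⟨false,1,⟨1,[(32,0),(0,0),(17,0)]⟩,⟨0,[]⟩⟩,[.o ⟨false,2,⟨1,[(32,1),(10,0),
  (5,1),(1,0)]⟩,⟨5,[(0,4),(5,0),(2,1),(5,1),(2,1),(21,0),(2,2)]⟩⟩,.a ⟨true,2,⟨0,[(32,0),(16,0),(1,
  0)]⟩,⟨0,[(0,0),(17,0),(9,0),(11,0)]⟩⟩ ⟨false,1,⟨10,[(9,0),(11,0),(0,1),(0,5),(27,0)]⟩,⟨12,[(6,1),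
  (0,0),(1,0),(22,1),(5,1),(4,0),(2,2)]⟩⟩ ⟨true,1,⟨0,[(49,0),(1,0)]⟩,⟨0,[(18,0),(9,0),(11,0)]⟩⟩,.a
  ⟨true,1,⟨0,[(32,0)]⟩,⟨0,[(1,0)]⟩⟩ ⟨true,0,⟨0,[]⟩,⟨12,[(6,1),(0,0),(1,0),(22,1),(5,1),(4,0),(2,
  2)]⟩⟩ ⟨false,1,⟨0,[(49,0),(1,0)]⟩,⟨0,[(48,0)]⟩⟩,.a ⟨true,1,⟨1,[(32,1),(6,0),(0,0)]⟩,⟨0,[(0,0)]⟩⟩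
  ⟨false,1,⟨10,[(9,0),(11,0),(0,1),(0,5),(27,0)]⟩,⟨1,[(39,0),(0,0)]⟩⟩ ⟨true,1,⟨3,[(23,1),(8,0),(0,
  0),(15,1),(1,0)]⟩,⟨0,[(18,0),(9,0),(11,0)]⟩⟩]⟩) (.Q [0,0,-1,0,1,0,-1,-1,-1,-1,1,1] (.p true [0,0,
  1] [1,0,0,0,-1] (⟨0,[(42,0)]⟩,⟨0,[(41,0)]⟩) .k 2 (⟨0,[(34,0)]⟩,⟨0,[(35,0)]⟩) .k (.r (-1) ⟨18,[(0,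
  2),(5,2),(0,9),(1,10),(22,10),(0,10),(4,2),(10,1)]⟩ ⟨0,[(18,0),(32,0)]⟩)) (.R ⟨0,false,false,
  false,[0,0,0,0,1],[1,0,-1],[0,1,1],(⟨0,[(36,0)]⟩,⟨0,[(35,0)]⟩),(⟨0,[(42,0)]⟩,⟨0,[(43,0)]⟩),⟨0,[(4,
  0)]⟩,.k,.k,(.r 0 ⟨33,[(1,1),(5,1),(0,17),(1,0),(22,0),(0,0),(4,1),(7,4)]⟩ ⟨15,[(1,0),(5,0),(2,3),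
  (17,7),(12,0),(10,12)]⟩),.k,.k,.k,⟨true,0,⟨0,[(38,0),(2,0)]⟩,⟨0,[(19,0),(32,0)]⟩⟩,⟨false,2,⟨0,
  [(18,0),(14,0)]⟩,⟨0,[(2,0),(22,0)]⟩⟩,⟨true,0,⟨3,[(1,0),(5,0),(33,0),(10,0)]⟩,⟨4,[(8,0),(38,0),(0,
  1)]⟩⟩,⟨false,2,⟨18,[(0,11),(0,6),(3,0),(14,1),(18,3),(1,2),(10,21)]⟩,⟨0,[(2,0),(35,0)]⟩⟩,⟨false,0,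
  ⟨0,[]⟩,⟨0,[]⟩⟩,⟨false,0,⟨0,[]⟩,⟨0,[]⟩⟩,[.e ⟨false,0,⟨16,[(1,1),(5,1),(0,0),(1,0),(22,0),(0,0),(4,
  1),(7,4)]⟩,⟨10,[(10,0),(11,0),(0,1),(0,5),(27,0)]⟩⟩ ⟨false,1,⟨0,[(0,0)]⟩,⟨3,[(3,2),(6,0),(13,1),
  (5,0),(3,0),(3,1)]⟩⟩,.o ⟨false,1,⟨8,[(5,1),(12,4),(1,3),(18,2),(1,0),(2,1),(7,7)]⟩,⟨0,[(38,0)]⟩⟩,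
  .a ⟨true,(-1),⟨0,[(2,0)]⟩,⟨0,[(33,0)]⟩⟩ ⟨false,0,⟨3,[(1,0),(5,0),(33,0),(10,0)]⟩,⟨10,[(10,0),(11,
  0),(0,1),(0,5),(27,0)]⟩⟩ ⟨true,1,⟨18,[(0,11),(0,6),(3,0),(14,1),(18,3),(1,2),(10,2)]⟩,⟨0,[(2,0),
  (35,0)]⟩⟩,.e ⟨true,0,⟨16,[(1,1),(5,1),(0,0),(1,0),(22,0),(0,0),(4,1),(7,4)]⟩,⟨0,[]⟩⟩ ⟨true,1,⟨0,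
  [(0,0)]⟩,⟨0,[(3,0),(34,0)]⟩⟩]⟩) (.R ⟨0,false,false,false,[0,0,0,0,1],[1,0,-1],[0,1,1],(⟨0,[(36,
  0)]⟩,⟨0,[(35,0)]⟩),(⟨0,[(42,0)]⟩,⟨0,[(43,0)]⟩),⟨0,[(4,0)]⟩,.k,.k,(.r 0 ⟨33,[(1,1),(5,1),(0,17),(1,
  0),(22,0),(0,0),(4,1),(7,4)]⟩ ⟨15,[(1,0),(5,0),(2,3),(17,7),(12,0),(10,12)]⟩),.k,.k,.k,⟨true,0,⟨0,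
  [(38,0),(2,0)]⟩,⟨0,[(19,0),(32,0)]⟩⟩,⟨false,2,⟨0,[(18,0),(14,0)]⟩,⟨0,[(2,0),(22,0)]⟩⟩,⟨true,0,⟨3,
  [(1,0),(5,0),(33,0),(10,0)]⟩,⟨4,[(8,0),(38,0),(0,1)]⟩⟩,⟨false,2,⟨1,[(1,1),(13,0),(2,0),(0,1),(21,
  0),(10,2)]⟩,⟨5,[(0,3),(7,1),(4,0),(13,0),(1,1)]⟩⟩,⟨false,0,⟨0,[]⟩,⟨0,[]⟩⟩,⟨false,0,⟨0,[]⟩,⟨0,[]⟩⟩,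
  [.a ⟨true,0,⟨5,[(15,0),(2,0),(0,3),(19,1),(1,2),(10,2)]⟩,⟨0,[(17,0),(32,0)]⟩⟩ ⟨false,0,⟨16,[(1,1),
  (5,1),(0,0),(1,0),(22,0),(0,0),(4,1),(7,4)]⟩,⟨10,[(10,0),(11,0),(0,1),(0,5),(27,0)]⟩⟩ ⟨true,1,⟨1,
  [(1,1),(13,0),(2,0),(0,1),(21,0),(10,0)]⟩,⟨0,[(0,0)]⟩⟩,.o ⟨false,1,⟨8,[(5,1),(12,4),(1,3),(18,2),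
  (1,0),(2,1),(7,7)]⟩,⟨0,[(38,0)]⟩⟩,.a ⟨true,(-1),⟨0,[(2,0)]⟩,⟨0,[(33,0)]⟩⟩ ⟨false,0,⟨3,[(1,0),(5,
  0),(33,0),(10,0)]⟩,⟨10,[(10,0),(11,0),(0,1),(0,5),(27,0)]⟩⟩ ⟨true,1,⟨1,[(1,1),(13,0),(2,0),(0,1),
  (21,0),(10,0)]⟩,⟨5,[(0,3),(7,1),(4,0),(13,0),(1,1)]⟩⟩,.a ⟨true,(-1),⟨0,[(3,0)]⟩,⟨0,[(1,0),(13,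
  0)]⟩⟩ ⟨true,0,⟨16,[(1,1),(5,1),(0,0),(1,0),(22,0),(0,0),(4,1),(7,4)]⟩,⟨0,[]⟩⟩ ⟨false,2,⟨0,[(18,0),
  (0,0),(13,0),(18,0)]⟩,⟨0,[(0,0)]⟩⟩]⟩))) (.Q [0,-1,0,-1,1,0,0,0,-1,0,0,1] (.p true [0,0,0,0,1] []
  (⟨0,[(34,0)]⟩,⟨0,[(33,0)]⟩) .k 0 (⟨0,[]⟩,⟨0,[]⟩) .k .k) (.S ⟨1,0,[0,-1,0,-1],[1,0,0,0,-1],[1],(⟨0,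
  [(34,0)]⟩,⟨0,[(35,0)]⟩),⟨2,[(3,0),(4,0),(1,0),(23,1)]⟩,.k,(.r (-1) ⟨1,[(0,0),(22,0),(9,0)]⟩ ⟨10,
  [(1,1),(2,0),(1,1),(2,2),(17,2),(10,1),(7,0)]⟩),⟨false,0,⟨0,[]⟩,⟨15,[(0,6),(8,1),(12,3),(0,0),(9,
  6),(17,1)]⟩⟩,⟨true,0,⟨0,[(49,0)]⟩,⟨0,[(48,0)]⟩⟩,⟨true,0,⟨0,[(48,0)]⟩,⟨0,[(49,0)]⟩⟩,⟨false,1,⟨15,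
  [(0,6),(8,1),(12,3),(0,0),(9,6),(17,1)]⟩,⟨0,[]⟩⟩,[.a ⟨true,1,⟨0,[(0,0)]⟩,⟨0,[(25,0)]⟩⟩ ⟨true,0,⟨0,
  []⟩,⟨1,[(39,0),(0,0)]⟩⟩ ⟨false,1,⟨1,[(0,0),(22,0),(9,0)]⟩,⟨0,[(48,0)]⟩⟩,.o ⟨false,2,⟨1,[(0,1),(42,
  0),(7,0)]⟩,⟨1,[(2,0),(4,0),(1,0),(2,0),(5,1),(24,0)]⟩⟩,.o ⟨false,1,⟨0,[(1,0)]⟩,⟨0,[(33,0)]⟩⟩,.o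
  ⟨false,1,⟨1,[(1,1),(37,0),(0,0)]⟩,⟨0,[(2,0),(11,0),(28,0)]⟩⟩]⟩) (.R ⟨1,false,false,false,[1,0,0,0,
  -1],[1,-1],[1],(⟨0,[(34,0)]⟩,⟨0,[(35,0)]⟩),(⟨0,[(44,0)]⟩,⟨0,[(45,0)]⟩),⟨2,[(3,0),(4,0),(1,0),(23,
  1)]⟩,.k,.k,(.r (-1) ⟨3,[(23,1),(8,0),(0,0),(15,1),(1,0)]⟩ ⟨10,[(1,1),(2,0),(1,1),(2,2),(17,2),(10,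
  1),(7,0)]⟩),(.r (-1) ⟨7,[(9,1),(17,3),(11,0),(0,0),(10,5)]⟩ ⟨25,[(6,1),(0,13),(1,0),(22,1),(5,1),
  (4,0),(2,2)]⟩),.k,.k,⟨true,0,⟨93,[(4,21),(0,5),(3,17),(17,13),(12,5),(2,2),(7,6)]⟩,⟨0,[(49,0)]⟩⟩,
  ⟨false,0,⟨0,[(33,0)]⟩,⟨1,[(1,0),(12,0),(17,0)]⟩⟩,⟨false,0,⟨0,[]⟩,⟨1,[(32,0),(0,0),(17,0)]⟩⟩,⟨true,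
  (-1),⟨0,[(0,0),(48,1)]⟩,⟨8,[(1,1),(2,1),(4,0),(4,1),(6,0),(10,6),(14,0)]⟩⟩,⟨true,0,⟨0,[(48,0)]⟩,
  ⟨0,[(49,0)]⟩⟩,⟨true,(-1),⟨0,[(0,0),(48,0)]⟩,⟨0,[(32,0)]⟩⟩,[.a ⟨true,0,⟨0,[(49,0)]⟩,⟨4,[(5,0),(7,
  1),(0,1),(7,0),(15,0),(1,1)]⟩⟩ ⟨true,0,⟨0,[]⟩,⟨1,[(39,0),(0,0)]⟩⟩ ⟨false,0,⟨5,[(0,0),(1,3),(4,1),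
  (15,2),(9,0),(9,1)]⟩,⟨8,[(1,1),(2,1),(4,0),(4,1),(6,0),(10,6),(14,0)]⟩⟩,.o ⟨false,1,⟨1,[(43,0),(5,
  1),(1,0)]⟩,⟨0,[(48,0)]⟩⟩,.o ⟨false,1,⟨0,[(1,0)]⟩,⟨0,[(33,0)]⟩⟩,.o ⟨false,1,⟨1,[(1,1),(37,0),(0,
  0)]⟩,⟨1,[(0,0),(22,0),(9,0)]⟩⟩]⟩)))) (.Q [0,0,1,0,-1,0,0,0,1,1,0,-1] (.p false [0,0,0,0,1] [1]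
  (⟨0,[(32,0)]⟩,⟨0,[(31,0)]⟩) .k 1 (⟨0,[]⟩,⟨0,[]⟩) .k .k) (.Q [0,0,0,0,-1,0,0,0,1,1,0,-1] (.p false
  [0,0,0,0,1] [1] (⟨0,[(33,0)]⟩,⟨0,[(32,0)]⟩) .k 1 (⟨0,[]⟩,⟨0,[]⟩) .k .k) (.Q [0,0,0,-2,-1,0,1,1,1,
  1,-1,-1] (.p false [0,0,1] [1,0,0,0,-1] (⟨0,[(41,0)]⟩,⟨0,[(40,0)]⟩) .k 2 (⟨0,[(33,0)]⟩,⟨0,[(34,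
  0)]⟩) .k (.r (-1) ⟨33,[(5,5),(0,15),(1,19),(22,22),(0,16),(4,5),(4,2),(5,7)]⟩ ⟨0,[(17,0),(32,
  0)]⟩)) (.Q [0,0,0,0,-1,0,1,1,1,1,-1,-1] (.p false [0,0,1] [1,0,0,0,-1] (⟨0,[(42,0)]⟩,⟨0,[(41,
  0)]⟩) .k 2 (⟨0,[(34,0)]⟩,⟨0,[(35,0)]⟩) .k (.r (-1) ⟨15,[(0,5),(6,1),(1,7),(22,10),(0,4),(4,5),(4,
  2),(2,3)]⟩ ⟨0,[(18,0),(32,0)]⟩)) (.R ⟨1,false,false,true,[0,0,0,0,1],[1,1,-1],[1,2],(⟨0,[(36,0)]⟩,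
  ⟨0,[(35,0)]⟩),(⟨0,[(42,0),(3,0)]⟩,⟨0,[(32,0)]⟩),⟨0,[(4,0)]⟩,.k,.k,(.r 0 ⟨25,[(7,1),(0,13),(1,0),
  (22,1),(5,1),(4,0),(2,2)]⟩ ⟨7,[(10,1),(17,3),(11,0),(0,0),(10,5)]⟩),(.r (-1) ⟨7,[(1,1),(6,5),(1,
  3),(22,4),(0,2),(4,1),(4,0)]⟩ ⟨3,[(5,1),(14,0),(2,0),(28,1)]⟩),(.r (-1) ⟨2,[(1,0),(6,2),(1,0),(7,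
  0),(14,1),(0,0)]⟩ ⟨93,[(5,69),(0,1),(3,5),(17,35),(12,1),(2,0),(7,64)]⟩),.k,⟨false,1,⟨13,[(8,11),
  (1,6),(13,3),(8,2),(0,2),(12,2)]⟩,⟨3,[(5,1),(14,0),(2,0),(28,1)]⟩⟩,⟨true,2,⟨0,[(18,0),(14,0)]⟩,⟨0,
  [(1,0),(3,0)]⟩⟩,⟨false,0,⟨0,[]⟩,⟨1,[(33,0),(0,0),(17,0)]⟩⟩,⟨false,2,⟨17,[(5,9),(12,15),(2,3),(1,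
  1),(9,17),(5,1),(4,0),(7,8)]⟩,⟨1,[(0,0),(0,0)]⟩⟩,⟨true,0,⟨0,[(49,0)]⟩,⟨0,[(50,0)]⟩⟩,⟨false,2,⟨7,
  [(5,6),(12,7),(3,1),(0,0),(0,2),(8,7),(18,0)]⟩,⟨0,[(1,0)]⟩⟩,[.o ⟨false,0,⟨18,[(5,1),(4,0),(5,12),
  (1,8),(20,5),(1,3),(2,4)]⟩,⟨3,[(1,1),(31,1),(4,1),(5,0),(7,2)]⟩⟩,.e ⟨false,0,⟨4,[(8,0),(38,0),(0,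
  1)]⟩,⟨1,[(33,0),(0,0),(17,0)]⟩⟩ ⟨false,2,⟨1,[(16,0),(1,1),(4,0),(9,1)]⟩,⟨1,[(0,0),(0,0)]⟩⟩,.a
  ⟨true,(-1),⟨0,[(2,0)]⟩,⟨0,[(33,0)]⟩⟩ ⟨false,0,⟨12,[(7,1),(0,0),(1,0),(22,1),(5,1),(4,0),(2,2)]⟩,
  ⟨0,[(52,0)]⟩⟩ ⟨true,1,⟨18,[(5,1),(4,0),(5,12),(1,8),(14,18),(5,5),(1,3),(2,4)]⟩,⟨1,[(0,0),(0,
  0)]⟩⟩,.o ⟨false,(-1),⟨0,[(1,0),(3,0),(12,0)]⟩,⟨1,[(33,1),(10,0),(6,0)]⟩⟩]⟩) (.S ⟨1,0,[0,1,0,-1],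
  [0,0,0,0,1],[1,2],(⟨0,[(36,0)]⟩,⟨0,[(35,0)]⟩),⟨0,[(4,0)]⟩,.k,(.r 0 ⟨25,[(7,1),(0,13),(1,0),(22,1),
  (5,1),(4,0),(2,2)]⟩ ⟨7,[(10,1),(17,3),(11,0),(0,0),(10,5)]⟩),⟨false,0,⟨0,[]⟩,⟨1,[(33,0),(0,0),(17,
  0)]⟩⟩,⟨true,0,⟨0,[(50,0)]⟩,⟨0,[(49,0)]⟩⟩,⟨true,0,⟨0,[(49,0)]⟩,⟨0,[(50,0)]⟩⟩,⟨false,1,⟨1,[(33,0),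
  (0,0),(17,0)]⟩,⟨0,[]⟩⟩,[.o ⟨false,(-1),⟨7,[(1,4),(0,0),(4,0),(5,0),(4,3),(0,4),(21,1),(2,1)]⟩,⟨1,
  [(0,0),(13,0),(18,0),(10,0),(7,0)]⟩⟩,.a ⟨true,(-1),⟨2,[(1,0),(0,1),(18,0),(19,0)]⟩,⟨1,[(0,0),(13,
  0),(18,0)]⟩⟩ ⟨false,0,⟨4,[(8,0),(38,0),(0,1)]⟩,⟨1,[(33,0),(0,0),(17,0)]⟩⟩ ⟨true,0,⟨0,[(50,0)]⟩,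
  ⟨93,[(5,21),(0,5),(3,17),(17,13),(12,5),(2,2),(7,6)]⟩⟩,.e ⟨false,0,⟨12,[(7,1),(0,0),(1,0),(22,1),
  (5,1),(4,0),(2,2)]⟩,⟨0,[(52,0)]⟩⟩ ⟨false,0,⟨0,[(50,0)]⟩,⟨10,[(10,1),(11,1),(0,3),(0,0),(27,1)]⟩⟩,
  .o ⟨false,(-1),⟨0,[(1,0),(3,0),(12,0)]⟩,⟨1,[(33,1),(10,0),(6,0)]⟩⟩]⟩)) (.Q [0,0,0,0,-1,0,-1,-1,1,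
  0,1,-1] (.p true [0,0,1] [0,0,0,0,1] (⟨0,[(42,0)]⟩,⟨0,[(41,0)]⟩) .k 2 (⟨0,[(35,0)]⟩,⟨0,[(34,0)]⟩)
  .k (.r (-2) ⟨7,[(9,3),(13,1),(8,6),(0,6),(15,5),(1,2)]⟩ ⟨1,[(15,0),(3,0)]⟩)) (.Q [0,0,-1,0,1,0,0,
  0,-1,0,0,1] (.p true [0,0,0,0,1] [] (⟨0,[(36,0)]⟩,⟨0,[(35,0)]⟩) .k 0 (⟨0,[]⟩,⟨0,[]⟩) .k .k) (.I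
  [1,-2,0,1,1] (.S ⟨1,0,[0,2,0,-1],[0,0,0,0,1],[1,1],(⟨0,[(38,0)]⟩,⟨0,[(37,0)]⟩),⟨0,[(6,0)]⟩,.k,(.r
  0 ⟨25,[(9,1),(0,13),(1,0),(22,1),(5,1),(4,0),(2,2)]⟩ ⟨7,[(12,1),(17,3),(11,0),(0,0),(10,5)]⟩),
  ⟨true,0,⟨0,[]⟩,⟨12,[(9,1),(0,0),(1,0),(22,1),(5,1),(4,0),(2,2)]⟩⟩,⟨false,0,⟨0,[(52,0)]⟩,⟨10,[(12,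
  1),(11,1),(0,3),(0,0),(27,1)]⟩⟩,⟨false,1,⟨10,[(12,1),(11,1),(0,3),(0,0),(27,1)]⟩,⟨0,[(52,0)]⟩⟩,
  ⟨true,0,⟨12,[(9,1),(0,0),(1,0),(22,1),(5,1),(4,0),(2,2)]⟩,⟨0,[]⟩⟩,[.e ⟨false,0,⟨4,[(10,0),(38,0),
  (0,1)]⟩,⟨1,[(35,0),(0,0),(17,0)]⟩⟩ ⟨false,0,⟨25,[(9,5),(0,15),(1,2),(22,5),(5,5),(4,2),(2,8)]⟩,⟨0,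
  [(0,0)]⟩⟩,.o ⟨false,(-1),⟨0,[(2,0),(37,0),(11,0)]⟩,⟨7,[(0,3),(2,0),(12,0),(18,6),(10,3)]⟩⟩,.e
  ⟨false,0,⟨0,[]⟩,⟨1,[(35,0),(0,0),(17,0)]⟩⟩ ⟨false,0,⟨16,[(9,3),(0,4),(1,1),(22,3),(5,3),(4,1),(5,
  10)]⟩,⟨0,[(0,0)]⟩⟩,.a ⟨true,(-1),⟨0,[(5,0)]⟩,⟨0,[(1,0)]⟩⟩ ⟨true,0,⟨4,[(10,0),(38,0),(0,1)]⟩,⟨1,
  [(42,0),(0,0)]⟩⟩ ⟨false,0,⟨25,[(9,1),(0,13),(1,0),(22,1),(5,1),(4,0),(2,2)]⟩,⟨93,[(7,21),(0,5),(3,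
  17),(17,13),(12,5),(2,2),(7,100)]⟩⟩]⟩) (.S ⟨1,0,[0,1,0,-1],[0,0,0,0,1],[0,2,0,-1],(⟨0,[(38,0)]⟩,
  ⟨0,[(37,0)]⟩),⟨0,[(6,0)]⟩,.k,(.r 0 ⟨25,[(9,1),(0,13),(1,0),(22,1),(5,1),(4,0),(2,2)]⟩ ⟨7,[(12,1),
  (17,3),(11,0),(0,0),(10,5)]⟩),⟨false,0,⟨0,[(52,0)]⟩,⟨10,[(12,1),(11,1),(0,3),(0,0),(27,1)]⟩⟩,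
  ⟨true,0,⟨0,[(52,0)]⟩,⟨0,[(51,0)]⟩⟩,⟨true,0,⟨12,[(9,1),(0,0),(1,0),(22,1),(5,1),(4,0),(2,2)]⟩,⟨0,
  []⟩⟩,⟨false,1,⟨1,[(35,0),(0,0),(17,0)]⟩,⟨0,[]⟩⟩,[.o ⟨false,(-1),⟨1,[(0,0),(3,1),(41,0),(5,0)]⟩,⟨3,
  [(3,0),(12,0),(18,2),(10,1),(7,1)]⟩⟩,.a ⟨true,(-1),⟨0,[(4,0),(47,0)]⟩,⟨3,[(3,0),(12,0),(18,2)]⟩⟩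
  ⟨false,0,⟨25,[(9,1),(0,13),(1,0),(22,1),(5,1),(4,0),(2,2)]⟩,⟨10,[(12,1),(11,1),(0,3),(0,0),(27,
  1)]⟩⟩ ⟨true,0,⟨0,[(52,0)]⟩,⟨93,[(7,21),(0,5),(3,17),(17,13),(12,5),(2,2),(7,6)]⟩⟩,.a ⟨true,(-1),
  ⟨0,[(4,0)]⟩,⟨0,[(35,0)]⟩⟩ ⟨true,(-1),⟨0,[(0,0)]⟩,⟨10,[(12,1),(11,1),(0,3),(0,0),(27,1)]⟩⟩ ⟨false,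
  0,⟨0,[(52,0)]⟩,⟨10,[(12,1),(11,1),(0,3),(0,0),(27,1)]⟩⟩,.a ⟨true,(-1),⟨0,[(5,0)]⟩,⟨0,[(1,0)]⟩⟩
  ⟨false,0,⟨25,[(9,1),(0,13),(1,0),(22,1),(5,1),(4,0),(2,2)]⟩,⟨93,[(7,21),(0,5),(3,17),(17,13),(12,
  5),(2,2),(7,100)]⟩⟩ ⟨true,0,⟨25,[(9,1),(0,13),(1,0),(22,1),(5,1),(4,0),(2,2)]⟩,⟨93,[(7,21),(0,5),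
  (3,17),(17,13),(12,5),(2,2),(7,6)]⟩⟩]⟩)) (.S ⟨1,0,[0,1,0,-1],[0,0,0,0,1],[1,2],(⟨0,[(37,0)]⟩,⟨0,
  [(36,0)]⟩),⟨0,[(5,0)]⟩,.k,(.r 0 ⟨25,[(8,1),(0,13),(1,0),(22,1),(5,1),(4,0),(2,2)]⟩ ⟨7,[(11,1),(17,
  3),(11,0),(0,0),(10,5)]⟩),⟨false,0,⟨0,[]⟩,⟨1,[(34,0),(0,0),(17,0)]⟩⟩,⟨true,0,⟨0,[(51,0)]⟩,⟨0,[(50,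
  0)]⟩⟩,⟨true,0,⟨0,[(50,0)]⟩,⟨0,[(51,0)]⟩⟩,⟨false,1,⟨1,[(34,0),(0,0),(17,0)]⟩,⟨0,[]⟩⟩,[.o ⟨false,
  (-1),⟨3,[(0,2),(7,0),(0,1),(9,0)]⟩,⟨3,[(2,0),(12,0),(18,2),(10,1),(7,1)]⟩⟩,.a ⟨true,(-1),⟨0,[(3,
  0),(47,0)]⟩,⟨3,[(2,0),(12,0),(18,2)]⟩⟩ ⟨false,0,⟨4,[(9,0),(38,0),(0,1)]⟩,⟨1,[(34,0),(0,0),(17,
  0)]⟩⟩ ⟨true,0,⟨0,[(51,0)]⟩,⟨93,[(6,21),(0,5),(3,17),(17,13),(12,5),(2,2),(7,6)]⟩⟩,.e ⟨false,0,⟨12,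
  [(8,1),(0,0),(1,0),(22,1),(5,1),(4,0),(2,2)]⟩,⟨0,[(53,0)]⟩⟩ ⟨false,0,⟨0,[(51,0)]⟩,⟨10,[(11,1),(11,
  1),(0,3),(0,0),(27,1)]⟩⟩,.o ⟨false,(-1),⟨0,[(0,0)]⟩,⟨1,[(34,1),(10,0),(6,0)]⟩⟩]⟩)) (.Q [0,2,0,1,
  -2,0,0,0,1,1,0,-1] (.p false [0,0,0,0,1] [1] (⟨0,[(36,0)]⟩,⟨0,[(35,0)]⟩) .k 1 (⟨0,[]⟩,⟨0,[]⟩) .k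
  .k) (.R ⟨1,false,false,false,[0,0,0,0,1],[1,-1],[1,1],(⟨0,[(37,0)]⟩,⟨0,[(36,0)]⟩),(⟨0,[(46,0)]⟩,
  ⟨0,[(47,0)]⟩),⟨0,[(5,0)]⟩,.k,.k,(.r 0 ⟨29,[(1,1),(6,1),(0,15),(1,0),(28,3),(4,0),(2,2)]⟩ ⟨7,[(11,
  1),(17,3),(11,0),(0,0),(10,5)]⟩),(.r 0 ⟨28,[(2,4),(5,8),(2,6),(17,4),(4,3),(5,3),(4,1),(2,0)]⟩ ⟨3,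
  [(25,1),(8,0),(0,0),(15,1),(1,0)]⟩),.k,.k,⟨false,0,⟨0,[(50,0)]⟩,⟨3,[(25,1),(8,0),(0,0),(15,1),(1,
  0)]⟩⟩,⟨true,1,⟨6,[(1,5),(0,0),(3,0),(14,3),(20,4),(2,2),(7,1)]⟩,⟨0,[(3,0)]⟩⟩,⟨true,0,⟨0,[]⟩,⟨14,
  [(1,1),(6,1),(0,0),(1,0),(28,3),(4,0),(2,2)]⟩⟩,⟨true,2,⟨1,[(34,1),(10,0),(5,1),(1,0)]⟩,⟨0,[(0,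
  0)]⟩⟩,⟨false,1,⟨10,[(11,1),(11,1),(0,3),(0,0),(27,1)]⟩,⟨0,[(51,0)]⟩⟩,⟨true,2,⟨1,[(34,1),(10,0),(7,
  0)]⟩,⟨0,[(0,0),(50,0)]⟩⟩,[.e ⟨false,0,⟨4,[(9,0),(38,0),(0,1)]⟩,⟨1,[(34,0),(0,0),(17,0)]⟩⟩ ⟨false,
  2,⟨3,[(9,0),(15,0),(8,4),(0,0),(9,1),(5,0)]⟩,⟨0,[(0,0),(52,0)]⟩⟩,.o ⟨false,1,⟨1,[(45,0),(5,1),(1,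
  0)]⟩,⟨0,[(50,0)]⟩⟩,.e ⟨false,0,⟨0,[]⟩,⟨1,[(34,0),(0,0),(17,0)]⟩⟩ ⟨false,2,⟨1,[(34,1),(10,0),(5,1),
  (1,0)]⟩,⟨0,[(0,0),(52,0)]⟩⟩,.a ⟨true,(-1),⟨0,[(4,0)]⟩,⟨2,[(1,1),(0,0),(13,0),(4,0),(3,0),(16,
  0)]⟩⟩ ⟨true,0,⟨4,[(9,0),(38,0),(0,1)]⟩,⟨1,[(41,0),(0,0)]⟩⟩ ⟨false,2,⟨3,[(1,1),(0,1),(22,1),(19,0),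
  (5,5),(1,0)]⟩,⟨9,[(3,3),(0,4),(1,1),(4,0),(2,0),(8,0)]⟩⟩]⟩) (.R ⟨1,false,false,false,[0,0,0,0,1],
  [0,0,1],[0,1,0,-1],(⟨0,[(37,0)]⟩,⟨0,[(36,0)]⟩),(⟨0,[(44,0)]⟩,⟨0,[(43,0)]⟩),⟨0,[(5,0)]⟩,.k,.k,(.r
  0 ⟨14,[(0,0),(7,0),(0,6),(32,0),(5,3)]⟩ ⟨21,[(0,7),(3,7),(1,1),(4,6),(12,8),(4,2)]⟩),.k,(.r 0 ⟨1,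
  [(9,0),(12,0),(6,0)]⟩ ⟨26,[(0,7),(3,7),(1,1),(4,14),(12,0),(28,4)]⟩),.k,⟨true,(-1),⟨0,[(21,0)]⟩,
  ⟨26,[(0,7),(3,7),(1,1),(4,14),(12,0),(28,4)]⟩⟩,⟨false,1,⟨3,[(1,2),(0,0),(17,1),(4,1),(5,0)]⟩,⟨1,
  [(3,0),(15,0),(15,0),(6,0)]⟩⟩,⟨true,0,⟨0,[(51,0)]⟩,⟨0,[(50,0)]⟩⟩,⟨false,2,⟨0,[(0,0),(17,0)]⟩,⟨2,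
  [(3,2),(15,0),(0,1),(19,0),(1,0),(2,0)]⟩⟩,⟨false,1,⟨15,[(0,6),(10,1),(12,3),(0,0),(2,6),(24,1)]⟩,
  ⟨0,[]⟩⟩,⟨false,2,⟨0,[(0,0),(14,0)]⟩,⟨1,[(3,0),(15,0),(1,1),(13,0),(6,0)]⟩⟩,[.a ⟨true,0,⟨0,[(1,0),
  (1,0)]⟩,⟨2,[(2,0),(0,0),(18,1),(19,1)]⟩⟩ ⟨false,0,⟨14,[(0,0),(7,0),(0,6),(32,0),(5,3)]⟩,⟨10,[(11,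
  1),(11,1),(0,3),(0,0),(27,1)]⟩⟩ ⟨true,1,⟨0,[(1,0)]⟩,⟨2,[(3,2),(2,0),(12,0),(1,1),(20,1),(2,0),(7,
  0)]⟩⟩,.o ⟨false,1,⟨0,[(39,0),(13,0)]⟩,⟨2,[(19,0),(0,1),(19,0),(1,0),(2,0)]⟩⟩,.a ⟨true,(-1),⟨0,[(3,
  0)]⟩,⟨0,[(34,0)]⟩⟩ ⟨false,0,⟨0,[(51,0)]⟩,⟨10,[(11,1),(11,1),(0,3),(0,0),(27,1)]⟩⟩ ⟨true,1,⟨0,[(1,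
  0)]⟩,⟨2,[(3,2),(15,0),(0,1),(19,0),(1,0),(2,0)]⟩⟩,.a ⟨true,(-1),⟨0,[(4,0)]⟩,⟨6,[(0,0),(0,2),(0,1),
  (6,0),(6,2),(4,0),(12,0),(7,0)]⟩⟩ ⟨true,0,⟨14,[(0,0),(7,0),(0,6),(32,0),(5,3)]⟩,⟨58,[(0,4),(3,3),
  (1,15),(1,0),(2,11),(17,7),(12,0)]⟩⟩ ⟨false,2,⟨8,[(0,0),(0,6),(9,0),(11,1),(1,4),(5,0),(2,0)]⟩,⟨2,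
  [(3,2),(2,0),(12,0),(1,1),(20,1),(2,0),(7,0)]⟩⟩]⟩)))) (.Q [0,1,0,0,-1,0,1,1,1,1,-1,-1] (.p false
  [0,0,1] [1,0,0,0,-1] (⟨0,[(41,0)]⟩,⟨0,[(40,0)]⟩) .k 2 (⟨0,[(33,0)]⟩,⟨0,[(34,0)]⟩) .k (.r (-1) ⟨33,
  [(5,5),(0,15),(1,19),(22,22),(0,16),(4,5),(4,2),(5,7)]⟩ ⟨0,[(17,0),(32,0)]⟩)) (.R ⟨1,false,false,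
  false,[0,0,0,0,1],[1,-1],[1,2],(⟨0,[(35,0)]⟩,⟨0,[(34,0)]⟩),(⟨0,[(44,0)]⟩,⟨0,[(45,0)]⟩),⟨0,[(3,
  0)]⟩,.k,.k,(.r 0 ⟨25,[(6,1),(0,13),(1,0),(22,1),(5,1),(4,0),(2,2)]⟩ ⟨7,[(9,1),(17,3),(11,0),(0,0),
  (10,5)]⟩),(.r 0 ⟨10,[(1,1),(2,0),(1,1),(2,2),(17,2),(10,1),(7,0)]⟩ ⟨3,[(23,1),(8,0),(0,0),(15,1),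
  (1,0)]⟩),.k,.k,⟨true,(-1),⟨0,[(18,0),(9,0),(11,0)]⟩,⟨0,[(49,0),(1,0)]⟩⟩,⟨false,1,⟨0,[(1,0)]⟩,⟨10,
  [(9,0),(11,0),(0,1),(0,5),(2,10),(24,0)]⟩⟩,⟨false,0,⟨0,[]⟩,⟨1,[(32,0),(0,0),(17,0)]⟩⟩,⟨false,2,⟨0,
  [(1,0),(47,0),(1,0)]⟩,⟨0,[(25,0)]⟩⟩,⟨true,0,⟨0,[(48,0)]⟩,⟨0,[(49,0)]⟩⟩,⟨false,2,⟨0,[(1,0),(49,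
  0)]⟩,⟨0,[(26,0)]⟩⟩,[.a ⟨true,0,⟨0,[(49,0)]⟩,⟨4,[(5,0),(7,1),(0,1),(7,0),(15,0),(1,1)]⟩⟩ ⟨false,0,
  ⟨0,[(46,0)]⟩,⟨0,[(51,0)]⟩⟩ ⟨true,1,⟨0,[(1,0),(47,0)]⟩,⟨3,[(0,1),(1,1),(1,1),(9,0),(2,0),(22,0),
  (10,0)]⟩⟩,.o ⟨false,1,⟨1,[(43,0),(5,1),(1,0)]⟩,⟨0,[(48,0)]⟩⟩,.o ⟨false,0,⟨0,[(33,0)]⟩,⟨0,[(1,
  0)]⟩⟩,.e ⟨false,0,⟨4,[(7,0),(38,0),(0,1)]⟩,⟨1,[(39,0),(0,0),(10,1)]⟩⟩ ⟨false,2,⟨3,[(1,1),(21,1),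
  (8,1),(10,0),(5,1),(1,0)]⟩,⟨3,[(0,1),(1,1),(1,1),(9,0),(2,0),(22,0),(10,0)]⟩⟩]⟩) (.S ⟨1,0,[0,1,0,
  -1],[0,0,0,0,1],[1,2],(⟨0,[(35,0)]⟩,⟨0,[(34,0)]⟩),⟨0,[(3,0)]⟩,.k,(.r 0 ⟨25,[(6,1),(0,13),(1,0),
  (22,1),(5,1),(4,0),(2,2)]⟩ ⟨7,[(9,1),(17,3),(11,0),(0,0),(10,5)]⟩),⟨false,0,⟨0,[]⟩,⟨1,[(32,0),(0,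
  0),(17,0)]⟩⟩,⟨true,0,⟨0,[(49,0)]⟩,⟨0,[(48,0)]⟩⟩,⟨true,0,⟨0,[(48,0)]⟩,⟨0,[(49,0)]⟩⟩,⟨false,1,⟨1,
  [(32,0),(0,0),(17,0)]⟩,⟨0,[]⟩⟩,[.e ⟨false,0,⟨0,[(46,0)]⟩,⟨0,[(51,0)]⟩⟩ ⟨false,0,⟨25,[(6,1),(0,13),
  (1,0),(22,1),(5,1),(4,0),(2,2)]⟩,⟨10,[(9,1),(11,1),(0,3),(0,0),(27,1)]⟩⟩,.o ⟨false,0,⟨0,[(33,0),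
  (15,0)]⟩,⟨0,[(0,0),(27,0)]⟩⟩,.o ⟨false,0,⟨0,[(33,0)]⟩,⟨0,[(1,0)]⟩⟩,.a ⟨true,(-1),⟨0,[(2,0)]⟩,⟨1,
  [(1,0),(12,0),(17,0)]⟩⟩ ⟨false,0,⟨4,[(7,0),(38,0),(0,1)]⟩,⟨1,[(39,0),(0,0),(10,1)]⟩⟩ ⟨true,0,⟨25,
  [(6,1),(0,13),(1,0),(22,1),(5,1),(4,0),(2,2)]⟩,⟨93,[(4,21),(0,5),(3,17),(17,13),(12,5),(2,2),(7,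
  6)]⟩⟩]⟩))) (.R ⟨1,false,false,true,[0,0,0,0,1],[1,-1],[0,1,0,-1],(⟨0,[(33,0)]⟩,⟨0,[(32,0)]⟩),(⟨0,
  [(42,0)]⟩,⟨0,[(43,0)]⟩),⟨0,[(1,0)]⟩,.k,.k,(.r 0 ⟨25,[(4,1),(0,13),(1,0),(22,1),(5,1),(4,0),(2,
  2)]⟩ ⟨7,[(7,1),(17,3),(11,0),(0,0),(10,5)]⟩),(.r 0 ⟨30,[(2,4),(1,5),(2,7),(17,4),(4,5),(5,5),(4,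
  2),(2,3)]⟩ ⟨3,[(21,1),(8,0),(0,0),(15,1),(1,0)]⟩),.k,.k,⟨true,0,⟨1,[(37,0),(0,0)]⟩,⟨0,[]⟩⟩,⟨false,
  1,⟨3,[(0,2),(2,0),(26,0),(7,0),(2,0)]⟩,⟨10,[(7,0),(11,0),(0,1),(0,5),(2,10),(24,0)]⟩⟩,⟨true,0,⟨0,
  [(47,0)]⟩,⟨0,[(46,0)]⟩⟩,⟨true,1,⟨3,[(0,2),(2,0),(26,0),(7,0),(2,0),(5,3)]⟩,⟨0,[(23,0)]⟩⟩,⟨false,1,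
  ⟨1,[(30,0),(0,0),(17,0)]⟩,⟨0,[]⟩⟩,⟨true,1,⟨3,[(0,2),(2,0),(26,0),(7,0),(2,0)]⟩,⟨0,[(24,0)]⟩⟩,[.e
  ⟨false,0,⟨25,[(4,1),(0,13),(1,0),(22,1),(5,1),(4,0),(2,2)]⟩,⟨10,[(7,1),(11,1),(0,3),(0,0),(27,
  1)]⟩⟩ ⟨false,1,⟨18,[(0,8),(4,6),(11,4),(12,9),(4,4),(2,4),(2,4),(2,0)]⟩,⟨1,[(10,0),(13,0),(24,
  1)]⟩⟩,.a ⟨true,0,⟨0,[(47,0)]⟩,⟨4,[(3,0),(7,1),(0,1),(7,0),(15,0),(1,1)]⟩⟩ ⟨true,0,⟨0,[(47,0)]⟩,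
  ⟨93,[(2,21),(0,5),(3,17),(17,13),(12,5),(2,2),(7,6)]⟩⟩ ⟨false,1,⟨0,[(0,0),(46,0)]⟩,⟨10,[(7,1),(11,
  1),(0,3),(0,0),(2,10),(24,1)]⟩⟩,.o ⟨false,0,⟨0,[(31,0)]⟩,⟨3,[(0,2),(2,0),(26,0),(7,0),(2,0)]⟩⟩,.o
  ⟨false,0,⟨1,[(31,1),(5,0),(0,0)]⟩,⟨0,[(0,0)]⟩⟩]⟩)))) (.Q [0,0,0,0,-1,0,0,0,1,1,0,-1] (.p false [0,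
  0,0,0,1] [1] (⟨0,[(30,0)]⟩,⟨0,[(29,0)]⟩) .k 1 (⟨0,[]⟩,⟨0,[]⟩) .k .k) (.Q [0,0,0,1,-1,0,0,0,1,1,0,
  -1] (.p false [0,0,0,0,1] [1] (⟨0,[(31,0)]⟩,⟨0,[(30,0)]⟩) .k 1 (⟨0,[]⟩,⟨0,[]⟩) .k .k) (.Q [0,0,1,
  0,-1,0,0,0,1,0,0,-1] (.p false [0,0,0,0,1] [] (⟨0,[(32,0)]⟩,⟨0,[(31,0)]⟩) .k 0 (⟨0,[]⟩,⟨0,[]⟩) .k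
  .k) (.Q [0,0,0,0,0,-1,0,0,0,1,0,-1] (.ed true [0,1,0,0,1] .k) (.S ⟨1,0,[0,0,0,-1],[1,0,0,0,-1],[1,
  -1],(⟨0,[(33,0)]⟩,⟨0,[(34,0)]⟩),⟨0,[(0,0)]⟩,.k,(.r (-1) ⟨3,[(22,1),(8,0),(0,0),(15,1),(1,0)]⟩ ⟨25,
  [(5,3),(2,8),(8,6),(8,7),(4,3),(5,2),(1,0),(2,1)]⟩),⟨true,0,⟨0,[]⟩,⟨12,[(5,1),(0,0),(1,0),(22,1),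
  (5,1),(4,0),(2,2)]⟩⟩,⟨false,0,⟨0,[(48,0)]⟩,⟨10,[(8,1),(11,1),(0,3),(0,0),(27,1)]⟩⟩,⟨false,1,⟨10,
  [(8,1),(11,1),(0,3),(0,0),(27,1)]⟩,⟨0,[(48,0)]⟩⟩,⟨true,0,⟨12,[(5,1),(0,0),(1,0),(22,1),(5,1),(4,
  0),(2,2)]⟩,⟨0,[]⟩⟩,[.a ⟨true,1,⟨0,[(31,0),(16,0)]⟩,⟨0,[(2,0)]⟩⟩ ⟨false,1,⟨10,[(8,0),(11,0),(0,1),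
  (0,5),(27,0)]⟩,⟨12,[(5,1),(0,0),(1,0),(22,1),(5,1),(4,0),(2,2)]⟩⟩ ⟨true,0,⟨0,[(48,0)]⟩,⟨7,[(8,1),
  (5,3),(23,2),(0,2),(10,1)]⟩⟩,.o ⟨false,2,⟨1,[(31,1),(10,0),(5,1),(1,0)]⟩,⟨2,[(1,1),(2,0),(6,0),(5,
  0),(9,0)]⟩⟩,.a ⟨true,1,⟨0,[(31,0)]⟩,⟨0,[(3,0)]⟩⟩ ⟨false,1,⟨0,[(50,0)]⟩,⟨12,[(5,1),(0,0),(1,0),(22,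
  1),(5,1),(4,0),(2,2)]⟩⟩ ⟨true,0,⟨0,[(48,0)]⟩,⟨0,[(47,0)]⟩⟩,.a ⟨true,1,⟨1,[(31,1),(6,0),(0,0)]⟩,⟨0,
  [(1,0),(11,0)]⟩⟩ ⟨true,1,⟨10,[(8,0),(11,0),(0,1),(0,5),(27,0)]⟩,⟨0,[(18,0),(8,0),(11,0)]⟩⟩ ⟨false,
  1,⟨3,[(22,1),(8,0),(0,0),(15,1),(1,0)]⟩,⟨7,[(8,1),(5,3),(23,2),(0,2),(10,1)]⟩⟩]⟩) (.Q [0,0,0,-1,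
  -1,0,0,0,1,0,0,-1] (.p false [0,0,0,0,1] [] (⟨0,[(34,0)]⟩,⟨0,[(33,0)]⟩) .k 0 (⟨0,[]⟩,⟨0,[]⟩) .k
  .k) (.R ⟨2,true,false,false,[0,1],[0,0,0,0,1],[1,0,1,1],(⟨0,[]⟩,⟨0,[]⟩),(⟨0,[(35,0)]⟩,⟨0,[(34,
  0)]⟩),⟨0,[]⟩,.k,.k,.k,(.r (-1) ⟨7,[(9,1),(17,3),(11,0),(0,0),(10,5)]⟩ ⟨25,[(6,1),(0,13),(1,0),(22,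
  1),(5,1),(4,0),(2,2)]⟩),.k,.k,⟨false,1,⟨10,[(9,1),(11,1),(0,3),(0,0),(27,1)]⟩,⟨25,[(6,1),(0,13),
  (1,0),(22,1),(5,1),(4,0),(2,2)]⟩⟩,⟨true,(-1),⟨0,[(2,0)]⟩,⟨0,[(32,0)]⟩⟩,⟨true,0,⟨0,[]⟩,⟨12,[(6,1),
  (0,0),(1,0),(22,1),(5,1),(4,0),(2,2)]⟩⟩,⟨false,(-1),⟨0,[(0,0)]⟩,⟨10,[(9,1),(11,1),(0,3),(0,0),(8,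
  10),(18,1)]⟩⟩,⟨false,1,⟨10,[(9,1),(11,1),(0,3),(0,0),(27,1)]⟩,⟨0,[(49,0)]⟩⟩,⟨true,(-1),⟨10,[(0,3),
  (1,5),(2,0),(6,0),(2,0),(12,0),(17,3)]⟩,⟨0,[(32,0)]⟩⟩,[]⟩) (.S ⟨1,0,[0,1,0,-1],[0,0,0,0,1],[1,2],
  (⟨0,[(35,0)]⟩,⟨0,[(34,0)]⟩),⟨2,[(1,0),(6,0),(1,0),(24,1)]⟩,.k,(.r 0 ⟨25,[(6,1),(0,13),(1,0),(22,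
  1),(5,1),(4,0),(2,2)]⟩ ⟨7,[(9,1),(17,3),(11,0),(0,0),(10,5)]⟩),⟨false,0,⟨0,[]⟩,⟨1,[(32,0),(0,0),
  (17,0)]⟩⟩,⟨true,0,⟨0,[(49,0)]⟩,⟨0,[(48,0)]⟩⟩,⟨true,0,⟨0,[(48,0)]⟩,⟨0,[(49,0)]⟩⟩,⟨false,1,⟨1,[(32,
  0),(0,0),(17,0)]⟩,⟨0,[]⟩⟩,[.o ⟨false,(-1),⟨3,[(2,2),(3,0),(0,1),(9,0)]⟩,⟨1,[(0,1),(42,0),(7,0)]⟩⟩,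
  .a ⟨true,(-1),⟨0,[(4,0),(44,0)]⟩,⟨0,[(0,0)]⟩⟩ ⟨false,0,⟨4,[(7,0),(38,0),(0,1)]⟩,⟨1,[(32,0),(0,0),
  (17,0)]⟩⟩ ⟨true,0,⟨0,[(49,0)]⟩,⟨7,[(9,1),(5,3),(23,2),(0,2),(10,1)]⟩⟩,.e ⟨false,0,⟨12,[(6,1),(0,
  0),(1,0),(22,1),(5,1),(4,0),(2,2)]⟩,⟨0,[(51,0)]⟩⟩ ⟨false,0,⟨0,[(49,0)]⟩,⟨10,[(9,1),(11,1),(0,3),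
  (0,0),(27,1)]⟩⟩,.o ⟨false,(-1),⟨0,[(2,0)]⟩,⟨1,[(32,1),(10,0),(6,0)]⟩⟩]⟩))) (.Q [0,0,0,0,0,-1,0,0,
  0,0,0,1] (.ed false [1,-1,0,0,1] .k) (.Q [0,2,0,0,-2,0,-1,-1,1,0,1,-1] (.p true [0,0,1] [0,0,0,0,
  1] (⟨0,[(41,0)]⟩,⟨0,[(40,0)]⟩) .k 2 (⟨0,[(34,0)]⟩,⟨0,[(33,0)]⟩) .k (.r (-2) ⟨7,[(8,3),(13,1),(8,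
  6),(0,6),(15,5),(1,2)]⟩ ⟨1,[(14,0),(3,0)]⟩)) (.R ⟨1,false,false,false,[0,0,0,0,1],[0,0,1],[0,1,0,
  -1],(⟨0,[(35,0)]⟩,⟨0,[(34,0)]⟩),(⟨0,[(42,0)]⟩,⟨0,[(41,0)]⟩),⟨0,[(1,0)]⟩,.k,.k,(.r 0 ⟨25,[(6,1),(0,
  13),(1,0),(22,1),(5,1),(4,0),(2,2)]⟩ ⟨7,[(9,1),(17,3),(11,0),(0,0),(10,5)]⟩),.k,(.r 0 ⟨1,[(7,0),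
  (12,0),(6,0)]⟩ ⟨3,[(9,1),(29,0),(0,0),(10,1)]⟩),.k,⟨true,(-1),⟨0,[(19,0)]⟩,⟨3,[(9,1),(29,0),(0,0),
  (10,1)]⟩⟩,⟨false,1,⟨0,[(2,0),(21,0)]⟩,⟨1,[(4,0),(12,0),(15,0),(6,0)]⟩⟩,⟨true,0,⟨0,[(49,0)]⟩,⟨0,
  [(48,0)]⟩⟩,⟨true,2,⟨0,[(32,0),(4,0),(13,0)]⟩,⟨0,[(0,0)]⟩⟩,⟨false,1,⟨1,[(32,0),(0,0),(17,0)]⟩,⟨0,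
  []⟩⟩,⟨true,2,⟨0,[(28,0),(3,0),(18,0)]⟩,⟨0,[(0,0),(48,0)]⟩⟩,[.e ⟨false,0,⟨25,[(6,1),(0,13),(1,0),
  (22,1),(5,1),(4,0),(2,2)]⟩,⟨10,[(9,1),(11,1),(0,3),(0,0),(27,1)]⟩⟩ ⟨false,2,⟨7,[(9,1),(13,3),(5,
  1),(2,7),(4,3),(5,0),(6,0)]⟩,⟨0,[(0,0),(50,0)]⟩⟩,.o ⟨false,1,⟨0,[(37,0),(13,0)]⟩,⟨2,[(17,0),(0,1),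
  (19,0),(1,0),(2,0)]⟩⟩,.e ⟨false,0,⟨0,[(49,0)]⟩,⟨10,[(9,1),(11,1),(0,3),(0,0),(27,1)]⟩⟩ ⟨false,2,
  ⟨0,[(32,0),(4,0),(13,0)]⟩,⟨0,[(0,0),(50,0)]⟩⟩,.a ⟨true,(-1),⟨2,[(4,1),(1,0),(33,0),(10,0)]⟩,⟨0,
  [(2,0)]⟩⟩ ⟨true,0,⟨25,[(6,1),(0,13),(1,0),(22,1),(5,1),(4,0),(2,2)]⟩,⟨7,[(9,1),(5,3),(23,2),(0,2),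
  (10,1)]⟩⟩ ⟨false,2,⟨0,[(2,0),(34,0),(13,0)]⟩,⟨7,[(0,5),(5,1),(11,1),(21,3),(2,0),(7,8)]⟩⟩]⟩) (.Q
  [0,0,-1,0,-1,0,1,0,1,1,-1,-1] (.p false [0,0,1] [1,0,0,0,-1] (⟨0,[(42,0)]⟩,⟨0,[(41,0)]⟩) .k 2 (⟨0,
  [(34,0)]⟩,⟨0,[(35,0)]⟩) .k (.r (-1) ⟨59,[(0,22),(5,15),(0,34),(1,37),(23,6),(4,38),(4,7),(5,5)]⟩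
  ⟨0,[(18,0),(32,0)]⟩)) (.R ⟨1,false,false,false,[0,0,0,0,1],[1,-1,-1],[0,1,0,-1],(⟨0,[(36,0)]⟩,⟨0,
  [(35,0)]⟩),(⟨0,[(31,0)]⟩,⟨0,[(43,0),(2,0)]⟩),⟨0,[(2,0)]⟩,.k,.k,(.r 0 ⟨25,[(7,1),(0,13),(1,0),(22,
  1),(5,1),(4,0),(2,2)]⟩ ⟨7,[(10,1),(17,3),(11,0),(0,0),(10,5)]⟩),(.r 0 ⟨0,[(29,0),(11,0)]⟩ ⟨2,[(1,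
  0),(19,2),(12,0),(4,0),(12,0)]⟩),.k,.k,⟨true,0,⟨0,[(38,0),(2,0)]⟩,⟨0,[(19,0),(32,0)]⟩⟩,⟨false,2,
  ⟨12,[(1,2),(6,0),(1,0),(7,4),(14,9),(5,4),(1,5),(2,3)]⟩,⟨0,[(0,0)]⟩⟩,⟨true,0,⟨0,[(50,0)]⟩,⟨0,[(49,
  0)]⟩⟩,⟨false,2,⟨1,[(3,1),(16,1),(20,1),(2,0),(7,2)]⟩,⟨0,[(5,0),(23,0)]⟩⟩,⟨false,1,⟨2,[(1,0),(32,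
  0),(4,0),(12,0)]⟩,⟨0,[]⟩⟩,⟨false,2,⟨1,[(3,1),(15,1),(21,1),(2,0),(7,2)]⟩,⟨0,[(5,0),(32,0)]⟩⟩,[.e
  ⟨false,0,⟨25,[(7,1),(0,13),(1,0),(22,1),(5,1),(4,0),(2,2)]⟩,⟨10,[(10,1),(11,1),(0,3),(0,0),(27,
  1)]⟩⟩ ⟨false,1,⟨0,[(1,0),(4,0),(12,0),(0,0),(20,0)]⟩,⟨0,[(17,0),(16,0)]⟩⟩,.o ⟨false,1,⟨1,[(21,1),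
  (19,1),(2,0),(7,0)]⟩,⟨0,[(29,0)]⟩⟩,.a ⟨true,(-1),⟨0,[(5,0)]⟩,⟨0,[(33,0)]⟩⟩ ⟨false,0,⟨0,[(50,0)]⟩,
  ⟨10,[(10,1),(11,1),(0,3),(0,0),(27,1)]⟩⟩ ⟨true,1,⟨1,[(3,1),(16,1),(20,1),(2,0),(7,0)]⟩,⟨0,[(5,0),
  (23,0)]⟩⟩,.e ⟨true,0,⟨25,[(7,1),(0,13),(1,0),(22,1),(5,1),(4,0),(2,2)]⟩,⟨7,[(10,1),(5,3),(23,2),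
  (0,2),(10,1)]⟩⟩ ⟨true,1,⟨0,[(1,0),(4,0),(12,0),(0,0),(20,0)]⟩,⟨1,[(0,0),(6,0),(2,0)]⟩⟩]⟩) (.Q [0,
  1,0,-1,0,0,0,0,0,-1] (.pp true [-1,1]) (.I [1,-2,0,1,1] (.S ⟨1,0,[0,2,0,-1],[0,0,0,0,1],[1,1],(⟨0,
  [(38,0)]⟩,⟨0,[(37,0)]⟩),⟨0,[(4,0)]⟩,.k,(.r 0 ⟨29,[(2,1),(0,0),(5,1),(0,14),(25,0),(4,0),(7,5)]⟩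
  ⟨11,[(2,0),(6,0),(2,2),(17,5),(23,9)]⟩),⟨true,0,⟨0,[]⟩,⟨14,[(2,1),(0,0),(5,1),(26,0),(4,0),(7,
  5)]⟩⟩,⟨false,0,⟨0,[(52,0)]⟩,⟨10,[(12,1),(11,1),(0,3),(0,0),(27,1)]⟩⟩,⟨false,1,⟨10,[(12,1),(11,1),
  (0,3),(0,0),(27,1)]⟩,⟨0,[(52,0)]⟩⟩,⟨true,0,⟨14,[(2,1),(0,0),(5,1),(26,0),(4,0),(7,5)]⟩,⟨0,[]⟩⟩,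
  [.e ⟨false,0,⟨4,[(10,0),(38,0),(0,1)]⟩,⟨2,[(3,0),(32,0),(4,0),(12,0)]⟩⟩ ⟨false,0,⟨9,[(2,1),(0,0),
  (5,1),(0,4),(25,0),(4,0),(7,5)]⟩,⟨0,[(0,0)]⟩⟩,.o ⟨false,(-1),⟨0,[(1,0),(5,0)]⟩,⟨5,[(2,1),(0,1),(1,
  1),(12,0),(5,1),(0,0),(20,1)]⟩⟩,.e ⟨false,0,⟨0,[]⟩,⟨2,[(3,0),(32,0),(4,0),(12,0)]⟩⟩ ⟨false,0,⟨5,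
  [(2,1),(0,0),(5,1),(0,2),(25,0),(4,0)]⟩,⟨0,[(0,0)]⟩⟩,.a ⟨true,(-1),⟨2,[(7,1),(1,0),(33,0),(10,
  0)]⟩,⟨0,[(5,0)]⟩⟩ ⟨true,0,⟨4,[(10,0),(38,0),(0,1)]⟩,⟨2,[(2,0),(6,0),(44,0)]⟩⟩ ⟨false,0,⟨29,[(2,1),
  (0,0),(5,1),(0,14),(25,0),(4,0),(7,5)]⟩,⟨2,[(0,2),(1,0),(6,0),(44,0)]⟩⟩]⟩) (.S ⟨1,0,[0,1,0,-1],[0,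
  0,0,0,1],[0,2,0,-1],(⟨0,[(38,0)]⟩,⟨0,[(37,0)]⟩),⟨0,[(4,0)]⟩,.k,(.r 0 ⟨29,[(2,1),(0,0),(5,1),(0,
  14),(25,0),(4,0),(7,5)]⟩ ⟨11,[(2,0),(6,0),(2,2),(17,5),(23,9)]⟩),⟨false,0,⟨0,[(52,0)]⟩,⟨10,[(12,
  1),(11,1),(0,3),(0,0),(27,1)]⟩⟩,⟨true,0,⟨0,[(52,0)]⟩,⟨0,[(51,0)]⟩⟩,⟨true,0,⟨14,[(2,1),(0,0),(5,1),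
  (26,0),(4,0),(7,5)]⟩,⟨0,[]⟩⟩,⟨false,1,⟨2,[(3,0),(32,0),(4,0),(12,0)]⟩,⟨0,[]⟩⟩,[.o ⟨false,(-1),⟨0,
  [(1,0),(5,0)]⟩,⟨5,[(2,1),(0,1),(1,1),(12,0),(5,1),(0,0),(20,1)]⟩⟩,.a ⟨true,(-1),⟨0,[(7,0),(44,
  0)]⟩,⟨4,[(2,0),(2,0),(10,0),(1,0),(5,0),(10,2)]⟩⟩ ⟨false,0,⟨29,[(2,1),(0,0),(5,1),(0,14),(25,0),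
  (4,0),(7,5)]⟩,⟨10,[(12,1),(11,1),(0,3),(0,0),(27,1)]⟩⟩ ⟨true,0,⟨0,[(52,0)]⟩,⟨3,[(2,0),(6,0),(2,0),
  (5,1),(35,1)]⟩⟩,.a ⟨true,(-1),⟨0,[(7,0)]⟩,⟨0,[(35,0)]⟩⟩ ⟨true,(-1),⟨0,[(0,0)]⟩,⟨10,[(12,1),(11,1),
  (0,3),(0,0),(27,1)]⟩⟩ ⟨false,0,⟨0,[(52,0)]⟩,⟨10,[(12,1),(11,1),(0,3),(0,0),(27,1)]⟩⟩,.a ⟨true,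
  (-1),⟨2,[(7,1),(1,0),(33,0),(10,0)]⟩,⟨0,[(5,0)]⟩⟩ ⟨false,0,⟨29,[(2,1),(0,0),(5,1),(0,14),(25,0),
  (4,0),(7,5)]⟩,⟨3,[(2,0),(6,0),(2,0),(5,1),(35,5)]⟩⟩ ⟨true,0,⟨29,[(2,1),(0,0),(5,1),(0,14),(25,0),
  (4,0),(7,5)]⟩,⟨3,[(2,0),(6,0),(2,0),(5,1),(35,1)]⟩⟩]⟩)) (.Q [0,-2,0,0,2,0,0,0,-1,-1,0,1] (.p true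
  [0,0,0,0,1] [1] (⟨0,[(37,0)]⟩,⟨0,[(36,0)]⟩) .k 1 (⟨0,[]⟩,⟨0,[]⟩) .k .k) (.R ⟨1,false,false,false,
  [0,0,0,0,1],[1,-1],[1,1],(⟨0,[(38,0)]⟩,⟨0,[(37,0)]⟩),(⟨0,[(47,0)]⟩,⟨0,[(48,0)]⟩),⟨0,[(4,0)]⟩,.k,
  .k,(.r 0 ⟨29,[(2,1),(0,0),(5,1),(0,14),(25,0),(4,0),(7,5)]⟩ ⟨11,[(2,0),(6,0),(2,2),(17,5),(23,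
  9)]⟩),(.r 0 ⟨5,[(2,0),(6,0),(2,0),(17,1),(20,1)]⟩ ⟨5,[(3,0),(22,2),(9,0),(4,0),(10,2),(1,0)]⟩),.k,
  .k,⟨false,0,⟨0,[(51,0)]⟩,⟨5,[(3,0),(22,2),(9,0),(4,0),(10,2),(1,0)]⟩⟩,⟨true,1,⟨6,[(2,4),(0,1),(17,
  1),(0,0),(8,0),(10,1),(3,0)]⟩,⟨0,[(7,0)]⟩⟩,⟨true,0,⟨0,[]⟩,⟨14,[(2,1),(0,0),(5,1),(26,0),(4,0),(7,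
  5)]⟩⟩,⟨false,2,⟨0,[(0,0),(51,0)]⟩,⟨0,[(28,0)]⟩⟩,⟨false,1,⟨10,[(12,1),(11,1),(0,3),(0,0),(27,1)]⟩,
  ⟨0,[(52,0)]⟩⟩,⟨false,2,⟨0,[(0,0)]⟩,⟨0,[(29,0)]⟩⟩,[.e ⟨false,0,⟨4,[(10,0),(38,0),(0,1)]⟩,⟨2,[(3,0),
  (32,0),(4,0),(12,0)]⟩⟩ ⟨false,2,⟨1,[(3,0),(6,0),(24,0),(5,0),(4,0)]⟩,⟨0,[(6,0)]⟩⟩,.o ⟨false,1,⟨1,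
  [(46,0),(5,1),(1,0)]⟩,⟨0,[(51,0)]⟩⟩,.e ⟨false,0,⟨0,[]⟩,⟨2,[(3,0),(32,0),(4,0),(12,0)]⟩⟩ ⟨false,2,
  ⟨4,[(0,1),(1,0),(0,1),(6,0),(30,1),(0,0),(3,0),(5,2)]⟩,⟨0,[(6,0)]⟩⟩,.a ⟨true,(-1),⟨2,[(7,1),(1,0),
  (33,0),(10,0)]⟩,⟨0,[(5,0)]⟩⟩ ⟨true,0,⟨4,[(10,0),(38,0),(0,1)]⟩,⟨2,[(2,0),(6,0),(44,0)]⟩⟩ ⟨false,2,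
  ⟨5,[(0,3),(2,0),(6,2),(24,0),(5,0),(4,0)]⟩,⟨2,[(2,0),(3,2),(2,0),(44,0)]⟩⟩]⟩) (.S ⟨1,0,[0,2,0,-1],
  [0,0,0,0,1],[1,1],(⟨0,[(38,0)]⟩,⟨0,[(37,0)]⟩),⟨0,[(4,0)]⟩,.k,(.r 0 ⟨29,[(2,1),(0,0),(5,1),(0,14),
  (25,0),(4,0),(7,5)]⟩ ⟨11,[(2,0),(6,0),(2,2),(17,5),(23,9)]⟩),⟨true,0,⟨0,[]⟩,⟨14,[(2,1),(0,0),(5,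
  1),(26,0),(4,0),(7,5)]⟩⟩,⟨false,0,⟨0,[(52,0)]⟩,⟨10,[(12,1),(11,1),(0,3),(0,0),(27,1)]⟩⟩,⟨false,1,
  ⟨10,[(12,1),(11,1),(0,3),(0,0),(27,1)]⟩,⟨0,[(52,0)]⟩⟩,⟨true,0,⟨14,[(2,1),(0,0),(5,1),(26,0),(4,0),
  (7,5)]⟩,⟨0,[]⟩⟩,[.e ⟨false,0,⟨4,[(10,0),(38,0),(0,1)]⟩,⟨2,[(3,0),(32,0),(4,0),(12,0)]⟩⟩ ⟨false,0,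
  ⟨9,[(2,1),(0,0),(5,1),(0,4),(25,0),(4,0),(7,5)]⟩,⟨1,[(1,1),(44,0),(7,0)]⟩⟩,.o ⟨false,(-1),⟨1,[(0,
  0),(6,0),(38,0),(5,1)]⟩,⟨5,[(2,1),(0,1),(1,1),(12,0),(5,1),(0,0),(20,1)]⟩⟩,.e ⟨false,0,⟨0,[]⟩,⟨2,
  [(3,0),(32,0),(4,0),(12,0)]⟩⟩ ⟨false,0,⟨5,[(2,1),(0,0),(5,1),(0,2),(25,0),(4,0)]⟩,⟨1,[(1,1),(44,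
  0),(7,0)]⟩⟩,.a ⟨true,(-1),⟨2,[(7,1),(1,0),(33,0),(10,0)]⟩,⟨0,[(5,0)]⟩⟩ ⟨true,0,⟨4,[(10,0),(38,0),
  (0,1)]⟩,⟨2,[(2,0),(6,0),(44,0)]⟩⟩ ⟨false,0,⟨29,[(2,1),(0,0),(5,1),(0,14),(25,0),(4,0),(7,5)]⟩,⟨3,
  [(2,0),(6,0),(2,0),(5,1),(35,5)]⟩⟩]⟩))))) (.Q [0,0,1,0,1,0,0,0,-1,-1,0,1] (.p true [0,0,0,0,1]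
  [1] (⟨0,[(34,0)]⟩,⟨0,[(33,0)]⟩) .k 1 (⟨0,[]⟩,⟨0,[]⟩) .k .k) (.Q [0,0,-1,0,1,0,-1,-1,-1,-1,1,1]
  (.p true [0,0,1] [1,0,0,0,-1] (⟨0,[(42,0)]⟩,⟨0,[(41,0)]⟩) .k 2 (⟨0,[(34,0)]⟩,⟨0,[(35,0)]⟩) .k (.r
  (-1) ⟨18,[(0,2),(5,2),(0,9),(1,10),(22,10),(0,10),(4,2),(10,1)]⟩ ⟨0,[(18,0),(32,0)]⟩)) (.R ⟨0,
  false,false,false,[0,0,0,0,1],[1,0,-1],[0,1,1],(⟨0,[(36,0)]⟩,⟨0,[(35,0)]⟩),(⟨0,[(42,0)]⟩,⟨0,[(43,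
  0)]⟩),⟨0,[(2,0)]⟩,.k,.k,(.r 0 ⟨33,[(1,1),(5,1),(0,17),(1,0),(22,0),(0,0),(4,1),(7,4)]⟩ ⟨15,[(1,0),
  (5,0),(2,3),(17,7),(12,0),(10,12)]⟩),.k,.k,.k,⟨true,0,⟨0,[(38,0),(2,0)]⟩,⟨0,[(19,0),(32,0)]⟩⟩,
  ⟨false,2,⟨0,[(18,0),(14,0)]⟩,⟨0,[(5,0),(19,0)]⟩⟩,⟨true,0,⟨3,[(1,0),(5,0),(33,0),(10,0)]⟩,⟨4,[(8,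
  0),(38,0),(0,1)]⟩⟩,⟨false,2,⟨5,[(0,3),(0,1),(18,0),(2,0),(17,1),(10,5)]⟩,⟨0,[(5,0),(32,0)]⟩⟩,
  ⟨false,0,⟨0,[]⟩,⟨0,[]⟩⟩,⟨false,0,⟨0,[]⟩,⟨0,[]⟩⟩,[.e ⟨false,0,⟨16,[(1,1),(5,1),(0,0),(1,0),(22,0),
  (0,0),(4,1),(7,4)]⟩,⟨10,[(10,0),(11,0),(0,1),(0,5),(27,0)]⟩⟩ ⟨false,1,⟨0,[(0,0)]⟩,⟨9,[(5,2),(1,5),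
  (2,3),(13,7),(5,0),(3,0),(3,1),(13,2)]⟩⟩,.o ⟨false,1,⟨5,[(0,1),(3,1),(15,1),(18,1),(1,1),(2,2),(7,
  4)]⟩,⟨0,[(38,0)]⟩⟩,.a ⟨true,(-1),⟨0,[(5,0)]⟩,⟨0,[(33,0)]⟩⟩ ⟨false,0,⟨3,[(1,0),(5,0),(33,0),(10,
  0)]⟩,⟨10,[(10,0),(11,0),(0,1),(0,5),(27,0)]⟩⟩ ⟨true,1,⟨5,[(0,3),(0,1),(18,0),(2,0),(17,1)]⟩,⟨0,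
  [(5,0),(32,0)]⟩⟩,.e ⟨true,0,⟨16,[(1,1),(5,1),(0,0),(1,0),(22,0),(0,0),(4,1),(7,4)]⟩,⟨0,[]⟩⟩ ⟨true,
  1,⟨0,[(0,0)]⟩,⟨4,[(5,2),(1,1),(2,0),(27,2),(11,1),(1,0)]⟩⟩]⟩) (.R ⟨0,false,false,true,[0,0,0,0,1],
  [1,0,0,0,-1],[0,1,0,-1],(⟨0,[(36,0)]⟩,⟨0,[(35,0)]⟩),(⟨0,[(35,0)]⟩,⟨0,[(36,0)]⟩),⟨0,[(2,0)]⟩,.k,.k,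
  (.r 0 ⟨33,[(1,1),(5,1),(0,17),(1,0),(22,0),(0,0),(4,1),(7,4)]⟩ ⟨15,[(1,0),(5,0),(2,3),(17,7),(12,
  0),(10,12)]⟩),.k,.k,.k,⟨false,0,⟨33,[(1,1),(5,1),(0,17),(1,0),(22,0),(0,0),(4,1),(7,4)]⟩,⟨10,[(10,
  1),(11,1),(0,3),(0,0),(27,1)]⟩⟩,⟨true,2,⟨0,[(1,0),(1,0)]⟩,⟨0,[(0,1),(5,0),(12,1),(21,0),(10,0)]⟩⟩,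
  ⟨true,0,⟨0,[(50,0)]⟩,⟨0,[(49,0)]⟩⟩,⟨false,3,⟨0,[(1,0),(1,0),(48,0)]⟩,⟨4,[(0,2),(3,2),(0,2),(0,2),
  (0,0),(12,2),(20,0),(2,0)]⟩⟩,⟨false,0,⟨0,[]⟩,⟨0,[]⟩⟩,⟨false,0,⟨0,[]⟩,⟨0,[]⟩⟩,[.a ⟨true,1,⟨0,[(33,
  0)]⟩,⟨0,[(5,0)]⟩⟩ ⟨false,0,⟨33,[(1,1),(5,1),(0,17),(1,0),(22,0),(0,0),(4,1),(7,4)]⟩,⟨10,[(10,1),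
  (11,1),(0,3),(0,0),(27,1)]⟩⟩ ⟨true,2,⟨0,[(1,0),(1,0)]⟩,⟨0,[(0,1),(5,0),(12,1),(21,0),(10,0)]⟩⟩,.o
  ⟨false,2,⟨1,[(33,1),(10,0),(7,0)]⟩,⟨4,[(0,2),(4,0),(0,2),(0,0),(11,2),(21,0),(2,0)]⟩⟩,.a ⟨true,
  (-1),⟨0,[(5,0)]⟩,⟨0,[(33,0)]⟩⟩ ⟨false,0,⟨0,[(50,0)]⟩,⟨10,[(10,1),(11,1),(0,3),(0,0),(27,1)]⟩⟩
  ⟨true,2,⟨0,[(1,0),(1,0)]⟩,⟨4,[(0,2),(3,2),(0,2),(0,2),(0,0),(12,2),(20,0),(2,0)]⟩⟩,.a ⟨true,(-1),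
  ⟨2,[(5,1),(1,0),(33,0),(10,0)]⟩,⟨0,[(3,0)]⟩⟩ ⟨true,0,⟨33,[(1,1),(5,1),(0,17),(1,0),(22,0),(0,0),
  (4,1),(7,4)]⟩,⟨2,[(0,0),(0,0),(14,0),(5,0),(18,0)]⟩⟩ ⟨false,3,⟨1,[(3,1),(29,1),(10,0),(7,0)]⟩,⟨0,
  [(0,1),(5,0),(12,1),(21,0),(10,0)]⟩⟩]⟩)) (.S ⟨1,0,[0,0,0,-1],[1,0,0,0,-1],[1,-1],(⟨0,[(34,0)]⟩,⟨0,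
  [(35,0)]⟩),⟨2,[(1,0),(6,0),(1,0),(23,1)]⟩,.k,(.r (-1) ⟨3,[(23,1),(8,0),(0,0),(15,1),(1,0)]⟩ ⟨25,
  [(6,3),(2,8),(8,6),(8,7),(4,3),(5,2),(1,0),(2,1)]⟩),⟨true,0,⟨0,[]⟩,⟨12,[(6,1),(0,0),(1,0),(22,1),
  (5,1),(4,0),(2,2)]⟩⟩,⟨false,0,⟨0,[(49,0)]⟩,⟨10,[(9,1),(11,1),(0,3),(0,0),(27,1)]⟩⟩,⟨false,1,⟨10,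
  [(9,1),(11,1),(0,3),(0,0),(27,1)]⟩,⟨0,[(49,0)]⟩⟩,⟨true,0,⟨12,[(6,1),(0,0),(1,0),(22,1),(5,1),(4,
  0),(2,2)]⟩,⟨0,[]⟩⟩,[.a ⟨true,1,⟨0,[(32,0),(16,0)]⟩,⟨0,[(3,0)]⟩⟩ ⟨false,1,⟨10,[(9,0),(11,0),(0,1),
  (0,5),(27,0)]⟩,⟨12,[(6,1),(0,0),(1,0),(22,1),(5,1),(4,0),(2,2)]⟩⟩ ⟨true,0,⟨0,[(49,0)]⟩,⟨7,[(9,1),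
  (5,3),(23,2),(0,2),(10,1)]⟩⟩,.o ⟨false,2,⟨1,[(32,1),(10,0),(5,1),(1,0)]⟩,⟨5,[(0,4),(5,0),(2,1),(5,
  1),(2,1),(21,0),(2,2)]⟩⟩,.a ⟨true,1,⟨0,[(32,0)]⟩,⟨0,[(4,0)]⟩⟩ ⟨false,1,⟨0,[(51,0)]⟩,⟨12,[(6,1),(0,
  0),(1,0),(22,1),(5,1),(4,0),(2,2)]⟩⟩ ⟨true,0,⟨0,[(49,0)]⟩,⟨0,[(48,0)]⟩⟩,.a ⟨true,1,⟨1,[(32,1),(6,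
  0),(0,0)]⟩,⟨0,[(0,0)]⟩⟩ ⟨true,1,⟨10,[(9,0),(11,0),(0,1),(0,5),(27,0)]⟩,⟨0,[(19,0),(8,0),(11,0)]⟩⟩
  ⟨false,1,⟨3,[(23,1),(8,0),(0,0),(15,1),(1,0)]⟩,⟨7,[(9,1),(5,3),(23,2),(0,2),(10,1)]⟩⟩]⟩)))) (.R
  ⟨2,true,false,true,[0,1],[1,0,0,0,-1],[1,1,1,1],(⟨0,[]⟩,⟨0,[]⟩),(⟨0,[(31,0)]⟩,⟨0,[(32,0)]⟩),⟨0,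
  []⟩,.k,.k,.k,(.r 0 ⟨5,[(0,0),(2,0),(2,1),(5,0),(11,1),(10,0)]⟩ ⟨3,[(20,1),(8,0),(0,0),(15,1),(1,
  0)]⟩),.k,.k,⟨false,0,⟨0,[(45,0)]⟩,⟨3,[(20,1),(8,0),(0,0),(15,1),(1,0)]⟩⟩,⟨true,1,⟨7,[(0,7),(5,1),
  (5,3),(23,2),(0,2),(10,1)]⟩,⟨0,[(1,0)]⟩⟩,⟨false,0,⟨0,[]⟩,⟨1,[(29,0),(0,0),(17,0)]⟩⟩,⟨true,1,⟨0,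
  [(0,0)]⟩,⟨0,[(22,0)]⟩⟩,⟨true,0,⟨0,[(45,0)]⟩,⟨0,[(46,0)]⟩⟩,⟨false,2,⟨10,[(0,10),(5,1),(11,1),(0,3),
  (0,0),(27,1)]⟩,⟨0,[(1,0)]⟩⟩,[]⟩)) (.Q [0,0,-1,-1,1,0,0,0,-1,-1,0,1] (.p true [0,0,0,0,1] [1] (⟨0,
  [(31,0)]⟩,⟨0,[(30,0)]⟩) .k 1 (⟨0,[]⟩,⟨0,[]⟩) .k .k) (.Q [0,0,0,0,0,-1,0,0,0,0,0,1] (.ed false [1,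
  -1,0,0,1] .k) (.Q [0,0,-1,0,1,0,0,0,-1,-1,0,1] (.p true [0,0,0,0,1] [1] (⟨0,[(33,0)]⟩,⟨0,[(32,
  0)]⟩) .k 1 (⟨0,[]⟩,⟨0,[]⟩) .k .k) (.S ⟨1,0,[0,2,0,-1],[0,0,0,0,1],[1,1],(⟨0,[(34,0)]⟩,⟨0,[(33,
  0)]⟩),⟨0,[(1,0)]⟩,.k,(.r 0 ⟨25,[(5,1),(0,13),(1,0),(22,1),(5,1),(4,0),(2,2)]⟩ ⟨7,[(8,1),(17,3),
  (11,0),(0,0),(10,5)]⟩),⟨true,0,⟨0,[]⟩,⟨12,[(5,1),(0,0),(1,0),(22,1),(5,1),(4,0),(2,2)]⟩⟩,⟨false,0,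
  ⟨0,[(48,0)]⟩,⟨10,[(8,1),(11,1),(0,3),(0,0),(27,1)]⟩⟩,⟨false,1,⟨10,[(8,1),(11,1),(0,3),(0,0),(27,
  1)]⟩,⟨0,[(48,0)]⟩⟩,⟨true,0,⟨12,[(5,1),(0,0),(1,0),(22,1),(5,1),(4,0),(2,2)]⟩,⟨0,[]⟩⟩,[.o ⟨false,
  (-1),⟨0,[(4,0),(0,0),(42,0)]⟩,⟨3,[(0,0),(2,2),(4,0),(5,1),(35,4)]⟩⟩,.a ⟨true,(-1),⟨0,[(25,0),(22,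
  0)]⟩,⟨5,[(0,3),(2,1),(3,0),(2,1),(1,1),(1,1),(24,5),(0,2),(9,3)]⟩⟩ ⟨true,0,⟨0,[]⟩,⟨1,[(38,0),(0,
  0)]⟩⟩ ⟨false,0,⟨25,[(5,1),(0,13),(1,0),(22,1),(5,1),(4,0),(2,2)]⟩,⟨10,[(8,1),(11,1),(0,3),(0,0),
  (27,1)]⟩⟩,.o ⟨false,0,⟨0,[(32,0)]⟩,⟨0,[(3,0)]⟩⟩,.o ⟨false,0,⟨1,[(32,1),(5,0),(0,0)]⟩,⟨0,[(0,
  0)]⟩⟩]⟩) (.S ⟨1,0,[0,1,0,-1],[0,0,0,0,1],[1,2],(⟨0,[(34,0)]⟩,⟨0,[(33,0)]⟩),⟨0,[(1,0)]⟩,.k,(.r 0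
  ⟨25,[(5,1),(0,13),(1,0),(22,1),(5,1),(4,0),(2,2)]⟩ ⟨7,[(8,1),(17,3),(11,0),(0,0),(10,5)]⟩),⟨false,
  0,⟨0,[]⟩,⟨1,[(31,0),(0,0),(17,0)]⟩⟩,⟨true,0,⟨0,[(48,0)]⟩,⟨0,[(47,0)]⟩⟩,⟨true,0,⟨0,[(47,0)]⟩,⟨0,
  [(48,0)]⟩⟩,⟨false,1,⟨1,[(31,0),(0,0),(17,0)]⟩,⟨0,[]⟩⟩,[.e ⟨false,0,⟨0,[(45,0)]⟩,⟨0,[(50,0)]⟩⟩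
  ⟨false,0,⟨25,[(5,1),(0,13),(1,0),(22,1),(5,1),(4,0),(2,2)]⟩,⟨10,[(8,1),(11,1),(0,3),(0,0),(27,
  1)]⟩⟩,.o ⟨false,0,⟨0,[(32,0),(15,0)]⟩,⟨2,[(2,0),(0,1),(4,0),(5,1),(35,0)]⟩⟩,.o ⟨false,0,⟨0,[(32,
  0)]⟩,⟨0,[(3,0)]⟩⟩,.a ⟨true,(-1),⟨0,[(0,0)]⟩,⟨1,[(3,0),(9,0),(17,0)]⟩⟩ ⟨false,0,⟨4,[(6,0),(38,0),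
  (0,1)]⟩,⟨1,[(38,0),(0,0),(10,1)]⟩⟩ ⟨true,0,⟨25,[(5,1),(0,13),(1,0),(22,1),(5,1),(4,0),(2,2)]⟩,⟨7,
  [(8,1),(5,3),(23,2),(0,2),(10,1)]⟩⟩]⟩)) (.Q [0,0,-1,0,1,0,0,0,-1,-1,0,1] (.p true [0,0,0,0,1] [1]
  (⟨0,[(33,0)]⟩,⟨0,[(32,0)]⟩) .k 1 (⟨0,[]⟩,⟨0,[]⟩) .k .k) (.R ⟨0,false,false,true,[0,0,0,0,1],[0,1],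
  [1,1,1,1],(⟨0,[(34,0)]⟩,⟨0,[(33,0)]⟩),(⟨0,[(44,0)]⟩,⟨0,[(43,0)]⟩),⟨0,[(1,0)]⟩,.k,.k,(.r 0 ⟨25,[(5,
  1),(0,13),(1,0),(22,1),(5,1),(4,0),(2,2)]⟩ ⟨7,[(8,1),(17,3),(11,0),(0,0),(10,5)]⟩),(.r 0 ⟨25,[(5,
  1),(0,13),(1,0),(22,1),(5,1),(4,0),(2,2)]⟩ ⟨7,[(8,1),(17,3),(11,0),(0,0),(10,5)]⟩),.k,.k,⟨true,0,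
  ⟨0,[]⟩,⟨1,[(38,0),(0,0)]⟩⟩,⟨false,1,⟨2,[(0,1),(12,1),(17,0)]⟩,⟨1,[(32,1),(5,0),(0,0)]⟩⟩,⟨true,0,
  ⟨7,[(8,1),(5,3),(23,2),(0,2),(10,1)]⟩,⟨25,[(5,1),(0,13),(1,0),(22,1),(5,1),(4,0),(2,2)]⟩⟩,⟨false,
  1,⟨5,[(0,3),(2,1),(3,0),(2,1),(1,1),(1,1),(24,5),(0,2),(9,3)]⟩,⟨0,[(32,0),(15,0)]⟩⟩,⟨false,0,⟨0,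
  []⟩,⟨0,[]⟩⟩,⟨false,0,⟨0,[]⟩,⟨0,[]⟩⟩,[.o ⟨false,0,⟨0,[(47,0)]⟩,⟨1,[(42,0),(5,1),(1,0)]⟩⟩,.a ⟨true,
  0,⟨20,[(10,2),(1,7),(0,3),(0,0),(6,3),(15,2),(1,10),(0,5),(2,2)]⟩,⟨0,[(48,0)]⟩⟩ ⟨true,0,⟨7,[(8,1),
  (5,3),(23,2),(0,2),(10,1)]⟩,⟨0,[(48,0)]⟩⟩ ⟨false,1,⟨14,[(0,7),(11,2),(0,4),(0,2),(5,2),(10,6),(7,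
  2)]⟩,⟨0,[(32,0),(15,0)]⟩⟩,.o ⟨false,0,⟨0,[(32,0)]⟩,⟨0,[(3,0)]⟩⟩,.o ⟨false,0,⟨1,[(32,1),(5,0),(0,
  0)]⟩,⟨0,[(0,0)]⟩⟩]⟩) (.S ⟨1,0,[0,-1,0,-1],[1,0,0,0,-1],[1],(⟨0,[(33,0)]⟩,⟨0,[(34,0)]⟩),⟨2,[(1,0),
  (5,0),(1,0),(23,1)]⟩,.k,(.r (-1) ⟨3,[(22,1),(8,0),(0,0),(15,1),(1,0)]⟩ ⟨9,[(3,1),(1,1),(2,2),(5,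
  0),(11,2),(10,1)]⟩),⟨false,0,⟨0,[]⟩,⟨1,[(31,0),(0,0),(17,0)]⟩⟩,⟨true,0,⟨0,[(48,0)]⟩,⟨0,[(47,0)]⟩⟩,
  ⟨true,0,⟨0,[(47,0)]⟩,⟨0,[(48,0)]⟩⟩,⟨false,1,⟨1,[(31,0),(0,0),(17,0)]⟩,⟨0,[]⟩⟩,[.a ⟨true,1,⟨3,[(2,
  3),(4,0),(2,1),(27,0),(0,4),(0,2),(9,1)]⟩,⟨0,[(24,0)]⟩⟩ ⟨true,0,⟨0,[]⟩,⟨1,[(38,0),(0,0)]⟩⟩ ⟨false,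
  1,⟨3,[(22,1),(8,0),(0,0),(15,1),(1,0)]⟩,⟨0,[(47,0)]⟩⟩,.o ⟨false,2,⟨1,[(2,1),(35,0),(0,0),(10,1)]⟩,
  ⟨9,[(0,0),(3,7),(0,6),(2,0),(2,1),(2,2),(12,0),(14,0)]⟩⟩,.o ⟨false,1,⟨0,[(3,0)]⟩,⟨0,[(32,0)]⟩⟩,.o
  ⟨false,1,⟨1,[(3,1),(34,0),(0,0)]⟩,⟨27,[(0,21),(3,11),(1,1),(0,2),(2,5),(0,5),(10,7),(17,8),(1,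
  13)]⟩⟩]⟩))) (.Q [0,0,0,0,0,-1,0,0,0,0,0,1] (.ed false [1,-1,0,0,1] .k) (.R ⟨1,false,false,false,
  [0,0,0,0,1],[1,-1],[1,2],(⟨0,[(33,0)]⟩,⟨0,[(32,0)]⟩),(⟨0,[(42,0)]⟩,⟨0,[(43,0)]⟩),⟨0,[(0,0)]⟩,.k,
  .k,(.r 0 ⟨25,[(4,1),(0,13),(1,0),(22,1),(5,1),(4,0),(2,2)]⟩ ⟨7,[(7,1),(17,3),(11,0),(0,0),(10,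
  5)]⟩),(.r 0 ⟨9,[(2,1),(1,1),(2,2),(5,0),(11,2),(10,1)]⟩ ⟨3,[(21,1),(8,0),(0,0),(15,1),(1,0)]⟩),.k,
  .k,⟨true,(-1),⟨0,[(16,0),(9,0),(11,0)]⟩,⟨0,[(47,0),(1,0)]⟩⟩,⟨false,1,⟨0,[(2,0)]⟩,⟨7,[(1,0),(5,0),
  (12,1),(0,4),(2,6)]⟩⟩,⟨false,0,⟨0,[]⟩,⟨1,[(30,0),(0,0),(17,0)]⟩⟩,⟨false,2,⟨0,[(2,0),(44,0),(1,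
  0)]⟩,⟨0,[(23,0)]⟩⟩,⟨true,0,⟨0,[(46,0)]⟩,⟨0,[(47,0)]⟩⟩,⟨false,2,⟨0,[(2,0),(46,0)]⟩,⟨0,[(24,0)]⟩⟩,
  [.a ⟨true,0,⟨0,[(47,0)]⟩,⟨11,[(1,6),(9,0),(0,3),(0,0),(5,0),(10,6),(7,0)]⟩⟩ ⟨false,0,⟨0,[(44,0)]⟩,
  ⟨0,[(49,0)]⟩⟩ ⟨true,1,⟨0,[(2,0),(44,0)]⟩,⟨0,[(1,0)]⟩⟩,.o ⟨false,1,⟨1,[(41,0),(5,1),(1,0)]⟩,⟨0,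
  [(46,0)]⟩⟩,.o ⟨false,0,⟨0,[(31,0)]⟩,⟨0,[(2,0)]⟩⟩,.e ⟨false,0,⟨4,[(5,0),(38,0),(0,1)]⟩,⟨1,[(37,0),
  (0,0),(10,1)]⟩⟩ ⟨false,2,⟨3,[(2,1),(18,1),(8,1),(10,0),(5,1),(1,0)]⟩,⟨0,[(1,0)]⟩⟩]⟩) (.R ⟨0,false,
  false,true,[0,0,0,0,1],[1,-1],[1,1,-1,-1],(⟨0,[(33,0)]⟩,⟨0,[(32,0)]⟩),(⟨0,[(42,0)]⟩,⟨0,[(43,0)]⟩),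
  ⟨0,[(0,0)]⟩,.k,.k,(.r 0 ⟨25,[(4,1),(0,13),(1,0),(22,1),(5,1),(4,0),(2,2)]⟩ ⟨7,[(7,1),(17,3),(11,
  0),(0,0),(10,5)]⟩),(.r 0 ⟨9,[(2,1),(1,1),(2,2),(5,0),(11,2),(10,1)]⟩ ⟨3,[(21,1),(8,0),(0,0),(15,
  1),(1,0)]⟩),.k,.k,⟨true,0,⟨0,[]⟩,⟨1,[(37,0),(0,0)]⟩⟩,⟨false,1,⟨0,[(2,0)]⟩,⟨7,[(1,0),(5,0),(12,1),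
  (0,4),(2,6)]⟩⟩,⟨false,1,⟨3,[(21,1),(8,0),(0,0),(15,1),(1,0)]⟩,⟨7,[(7,1),(5,3),(23,2),(0,2),(10,
  1)]⟩⟩,⟨true,1,⟨0,[(2,0),(44,0)]⟩,⟨0,[(23,0)]⟩⟩,⟨false,0,⟨0,[]⟩,⟨0,[]⟩⟩,⟨false,0,⟨0,[]⟩,⟨0,[]⟩⟩,
  [.e ⟨false,0,⟨5,[(3,0),(1,3),(6,0),(0,0),(12,0)]⟩,⟨7,[(7,1),(17,3),(11,0),(0,0),(10,5)]⟩⟩ ⟨false,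
  1,⟨15,[(2,14),(1,0),(0,7),(24,1),(7,0),(2,0),(2,2)]⟩,⟨10,[(1,10),(5,0),(11,0),(0,1),(0,5),(27,
  0)]⟩⟩,.a ⟨true,0,⟨0,[(47,0)]⟩,⟨11,[(1,6),(9,0),(0,3),(0,0),(5,0),(10,6),(7,0)]⟩⟩ ⟨false,1,⟨6,[(5,
  0),(15,4),(8,1),(0,1),(12,1)]⟩,⟨7,[(7,1),(5,3),(23,2),(0,2),(10,1)]⟩⟩ ⟨true,1,⟨0,[(2,0),(44,0)]⟩,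
  ⟨0,[(1,0)]⟩⟩,.o ⟨false,0,⟨0,[(31,0)]⟩,⟨0,[(2,0)]⟩⟩,.e ⟨true,0,⟨5,[(3,0),(1,3),(6,0),(0,0),(12,
  0)]⟩,⟨7,[(7,1),(5,3),(23,6),(0,6),(10,1)]⟩⟩ ⟨true,1,⟨15,[(2,14),(1,0),(0,7),(24,1),(7,0),(2,0),(2,
  2)]⟩,⟨0,[(1,0)]⟩⟩]⟩))))) (.Q [0,0,0,0,0,1,0,0,0,0,0,-1] (.ed true [1,-1,0,0,1] .k) (.R ⟨0,false,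
  false,true,[0,0,0,0,1],[0,1],[1,1,1,1],(⟨0,[(30,0)]⟩,⟨0,[(29,0)]⟩),(⟨0,[(40,0)]⟩,⟨0,[(39,0)]⟩),⟨0,
  [(0,0)]⟩,.k,.k,(.r 0 ⟨1,[(2,0),(45,0)]⟩ ⟨7,[(4,1),(17,3),(11,0),(0,0),(10,5)]⟩),(.r 0 ⟨1,[(2,0),
  (45,0)]⟩ ⟨7,[(4,1),(17,3),(11,0),(0,0),(10,5)]⟩),.k,.k,⟨true,0,⟨0,[]⟩,⟨1,[(34,0),(0,0)]⟩⟩,⟨false,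
  1,⟨3,[(1,1),(0,0),(6,0),(1,0),(1,1),(9,0),(3,1)]⟩,⟨1,[(28,1),(5,0),(0,0)]⟩⟩,⟨true,0,⟨7,[(4,1),(5,
  3),(23,2),(0,2),(10,1)]⟩,⟨1,[(2,0),(45,0)]⟩⟩,⟨false,1,⟨0,[(1,0),(9,0),(1,0),(20,0),(0,0)]⟩,⟨0,
  [(28,0),(15,0)]⟩⟩,⟨false,0,⟨0,[]⟩,⟨0,[]⟩⟩,⟨false,0,⟨0,[]⟩,⟨0,[]⟩⟩,[.o ⟨false,0,⟨0,[(43,0)]⟩,⟨1,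
  [(38,0),(5,1),(1,0)]⟩⟩,.a ⟨true,0,⟨20,[(6,2),(1,7),(0,3),(0,0),(6,3),(15,2),(1,10),(0,5),(2,2)]⟩,
  ⟨0,[(44,0)]⟩⟩ ⟨true,0,⟨7,[(4,1),(5,3),(23,2),(0,2),(10,1)]⟩,⟨0,[(44,0)]⟩⟩ ⟨false,1,⟨9,[(1,2),(6,
  1),(0,0),(0,2),(12,0),(3,6),(14,1)]⟩,⟨0,[(28,0),(15,0)]⟩⟩,.o ⟨false,0,⟨0,[(28,0)]⟩,⟨0,[(1,0),(12,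
  0),(8,0),(10,0),(0,0)]⟩⟩,.o ⟨false,0,⟨1,[(28,1),(5,0),(0,0)]⟩,⟨1,[(1,1),(12,1),(8,1),(10,0),(0,
  0)]⟩⟩]⟩) (.R ⟨1,false,false,true,[0,0,0,0,1],[1,-1],[0,1,0,-1],(⟨0,[(30,0)]⟩,⟨0,[(29,0)]⟩),(⟨0,
  [(39,0)]⟩,⟨0,[(40,0)]⟩),⟨0,[(0,0)]⟩,.k,.k,(.r 0 ⟨1,[(2,0),(45,0)]⟩ ⟨7,[(4,1),(17,3),(11,0),(0,0),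
  (10,5)]⟩),(.r 0 ⟨1,[(22,0),(0,0),(11,0)]⟩ ⟨3,[(18,1),(8,0),(0,0),(15,1),(1,0)]⟩),.k,.k,⟨true,0,⟨1,
  [(34,0),(0,0)]⟩,⟨0,[]⟩⟩,⟨false,1,⟨0,[(1,0),(12,0),(8,0),(10,0),(0,0)]⟩,⟨10,[(4,0),(11,0),(0,1),(0,
  5),(2,10),(24,0)]⟩⟩,⟨true,0,⟨0,[(44,0)]⟩,⟨0,[(43,0)]⟩⟩,⟨true,1,⟨0,[(1,0),(12,0),(17,0),(1,0),(0,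
  0)]⟩,⟨0,[(20,0)]⟩⟩,⟨false,1,⟨1,[(27,0),(0,0),(17,0)]⟩,⟨0,[]⟩⟩,⟨true,1,⟨0,[(1,0),(12,0),(8,0),(10,
  0),(0,0)]⟩,⟨0,[(21,0)]⟩⟩,[.e ⟨false,0,⟨1,[(2,0),(45,0)]⟩,⟨10,[(4,1),(11,1),(0,3),(0,0),(27,1)]⟩⟩
  ⟨false,1,⟨6,[(1,2),(0,0),(11,4),(12,3),(4,4),(2,1),(2,1),(2,0)]⟩,⟨1,[(7,0),(13,0),(24,1)]⟩⟩,.a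
  ⟨true,0,⟨0,[(44,0)]⟩,⟨20,[(6,2),(1,7),(0,3),(0,0),(6,3),(15,2),(1,10),(0,5),(2,2)]⟩⟩ ⟨true,0,⟨0,
  [(44,0)]⟩,⟨7,[(4,1),(5,3),(23,2),(0,2),(10,1)]⟩⟩ ⟨false,1,⟨1,[(1,1),(12,1),(17,1),(1,0),(0,0)]⟩,
  ⟨10,[(4,1),(11,1),(0,3),(0,0),(2,10),(24,1)]⟩⟩,.o ⟨false,0,⟨0,[(28,0)]⟩,⟨0,[(1,0),(12,0),(8,0),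
  (10,0),(0,0)]⟩⟩,.o ⟨false,0,⟨1,[(28,1),(5,0),(0,0)]⟩,⟨1,[(1,1),(12,1),(8,1),(10,0),(0,0)]⟩⟩]⟩)))))

theorem ok10 : chk K t10 r19 = true := by decide +kernel

noncomputable def t12 : Tre :=
  (.I [0,0,-2,-2,1,0,0,1] (.R ⟨0,false,false,false,[0,-1,1],[1,-1,-1],[0,1,-1,-2,0,0,0,1],(⟨0,[(22,
  0)]⟩,⟨1,[(1,0),(30,1),(0,0)]⟩),(⟨0,[(21,0)]⟩,⟨1,[(1,0),(31,2)]⟩),⟨0,[(1,0)]⟩,.k,.k,(.r (-1) ⟨0,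
  [(0,0)]⟩ ⟨7,[(6,5),(5,3),(5,1),(11,6),(0,6),(10,1)]⟩),.k,.k,.k,⟨false,1,⟨0,[(0,0),(18,0),(11,0)]⟩,
  ⟨1,[(6,0),(2,1),(3,0),(28,1)]⟩⟩,⟨true,1,⟨0,[(8,0),(22,0)]⟩,⟨0,[(1,0),(0,2),(18,4),(9,3),(2,1)]⟩⟩,
  ⟨false,0,⟨0,[(40,0)]⟩,⟨3,[(12,1),(10,0),(0,0),(17,0)]⟩⟩,⟨true,0,⟨0,[(8,0),(0,1),(21,0),(10,0)]⟩,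
  ⟨0,[(7,0),(20,0),(11,0)]⟩⟩,⟨false,0,⟨0,[]⟩,⟨0,[]⟩⟩,⟨false,0,⟨0,[]⟩,⟨0,[]⟩⟩,[.e ⟨false,1,⟨0,[(0,0),
  (43,0)]⟩,⟨5,[(4,1),(1,7),(23,1),(0,3),(2,0),(7,6)]⟩⟩ ⟨false,1,⟨0,[(8,0),(0,0),(4,0),(16,0)]⟩,⟨0,
  [(7,0),(22,0)]⟩⟩,.o ⟨false,1,⟨1,[(11,1),(19,1),(2,0),(7,0)]⟩,⟨0,[(19,0)]⟩⟩,.o ⟨false,0,⟨0,[(30,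
  0)]⟩,⟨0,[(8,0)]⟩⟩,.a ⟨true,(-1),⟨0,[(1,0),(0,2),(18,4),(9,4),(2,1)]⟩,⟨4,[(0,0),(4,2),(2,2),(3,0),
  (16,0),(1,0)]⟩⟩ ⟨false,1,⟨0,[(0,0)]⟩,⟨5,[(4,1),(1,7),(23,4),(0,6),(2,0),(7,6)]⟩⟩ ⟨true,1,⟨0,[(8,
  0),(0,0),(4,0),(16,0)]⟩,⟨0,[(1,0),(0,2),(16,0),(1,4),(9,4),(2,1)]⟩⟩]⟩) (.R ⟨0,false,false,false,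
  [0,-1,1],[1,-1,-1],[],(⟨0,[(22,0)]⟩,⟨1,[(1,0),(30,1),(0,0)]⟩),(⟨0,[(21,0)]⟩,⟨1,[(1,0),(31,2)]⟩),
  ⟨0,[(1,0)]⟩,.k,.k,(.x 0 ⟨3,[(0,1),(20,1),(0,5),(5,1),(1,2),(0,0),(2,0),(5,3),(1,0)]⟩ ⟨1,[(1,1),(3,
  0),(2,0),(22,0),(9,0)]⟩),.k,.k,.k,⟨false,1,⟨7,[(7,3),(0,3),(3,1),(10,0),(0,0),(3,3),(2,3),(10,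
  0)]⟩,⟨0,[(11,0)]⟩⟩,⟨true,1,⟨0,[(8,0),(22,0)]⟩,⟨4,[(0,3),(0,0),(0,2),(18,4),(6,3),(11,7),(1,1)]⟩⟩,
  ⟨false,0,⟨3,[(0,1),(9,0),(2,0),(28,1)]⟩,⟨0,[(14,0),(13,0),(2,0)]⟩⟩,⟨true,0,⟨0,[(8,0),(0,1),(21,0),
  (10,0)]⟩,⟨0,[(7,0),(20,0),(11,0)]⟩⟩,⟨false,0,⟨0,[]⟩,⟨0,[]⟩⟩,⟨false,0,⟨0,[]⟩,⟨0,[]⟩⟩,[.e ⟨false,1,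
  ⟨1,[(23,0),(0,0),(16,0)]⟩,⟨0,[]⟩⟩ ⟨false,1,⟨0,[(8,0),(0,0),(4,0),(16,0)]⟩,⟨0,[(7,0),(22,0)]⟩⟩,.o
  ⟨false,1,⟨1,[(11,1),(19,1),(2,0),(7,0)]⟩,⟨0,[(19,0)]⟩⟩,.o ⟨false,0,⟨0,[(30,0)]⟩,⟨0,[(8,0)]⟩⟩,.a
  ⟨true,(-1),⟨0,[(0,0),(6,0),(32,2)]⟩,⟨1,[(5,0),(2,0),(22,0),(9,0)]⟩⟩ ⟨false,1,⟨1,[(41,0),(0,0)]⟩,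
  ⟨1,[(30,0),(0,0)]⟩⟩ ⟨true,1,⟨0,[(8,0),(0,0),(4,0),(16,0)]⟩,⟨0,[(0,0),(6,0),(20,0),(11,1)]⟩⟩]⟩))

theorem ok12 : chk K t12 r18 = true := by decide +kernel

noncomputable def t17 : Tre :=
  (.R ⟨1,false,false,true,[1,-1],[0,1],[1,0,-1,-1],(⟨0,[(30,0)]⟩,⟨0,[(31,0)]⟩),(⟨0,[(31,0)]⟩,⟨0,
  [(30,0)]⟩),⟨0,[(16,0),(0,0)]⟩,.k,.k,(.r (-1) ⟨4,[(9,3),(8,0),(0,0),(12,1),(2,5)]⟩ ⟨7,[(0,4),(0,3),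
  (0,4),(4,2),(5,0),(12,4),(10,0)]⟩),(.r (-1) ⟨4,[(9,3),(8,0),(0,0),(12,1),(2,5)]⟩ ⟨7,[(0,4),(0,3),
  (0,4),(4,2),(5,0),(12,4),(10,0)]⟩),(.r (-1) ⟨0,[(5,0),(3,1),(13,0),(2,0)]⟩ ⟨15,[(0,14),(0,11),(0,
  14),(4,8),(5,2),(12,14),(10,2)]⟩),.k,⟨true,1,⟨0,[(9,0),(25,0)]⟩,⟨0,[(0,0),(0,0),(0,0),(23,0)]⟩⟩,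
  ⟨false,1,⟨0,[(9,0),(17,0),(0,0),(4,0)]⟩,⟨0,[(0,0)]⟩⟩,⟨true,0,⟨0,[]⟩,⟨0,[(39,0)]⟩⟩,⟨false,0,⟨4,[(1,
  3),(0,3),(4,1),(1,1),(16,3),(0,0),(0,0)]⟩,⟨0,[(0,0),(8,0),(25,0)]⟩⟩,⟨false,1,⟨3,[(7,1),(10,0),(0,
  0),(17,0)]⟩,⟨0,[(35,0)]⟩⟩,⟨false,0,⟨2,[(1,3),(0,3),(0,0),(3,0),(1,0),(16,2),(10,0)]⟩,⟨0,[(0,0),(8,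
  0),(25,1)]⟩⟩,[.o ⟨false,0,⟨0,[(34,0)]⟩,⟨0,[(0,0),(8,0)]⟩⟩,.a ⟨true,0,⟨4,[(1,1),(0,1),(4,0),(1,0),
  (16,1),(0,2),(0,2)]⟩,⟨0,[(35,0)]⟩⟩ ⟨false,1,⟨0,[(9,0)]⟩,⟨1,[(13,0),(0,0),(11,0)]⟩⟩ ⟨true,0,⟨0,[(1,
  0),(0,0),(6,0),(16,0)]⟩,⟨0,[(0,0),(34,0)]⟩⟩,.e ⟨false,1,⟨3,[(9,1),(8,0),(0,0),(15,1),(1,0)]⟩,⟨15,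
  [(0,4),(0,3),(0,4),(4,2),(5,0),(12,4),(10,0)]⟩⟩ ⟨false,0,⟨0,[(1,0),(0,0),(6,0),(16,0)]⟩,⟨3,[(0,3),
  (8,1),(8,0),(0,0),(15,1),(1,0)]⟩⟩,.o ⟨false,0,⟨0,[(0,0)]⟩,⟨0,[(36,0)]⟩⟩]⟩)

theorem ok17 : chk K t17 r14 = true := by decide +kernel

noncomputable def t20 : Tre :=
  (.S ⟨1,0,[0,0,0,-1,0,0,0,-1],[1,0,-1],[1,1,0,0,0,0,0,-1],(⟨0,[(25,0)]⟩,⟨0,[(26,0)]⟩),⟨0,[(14,0)]⟩,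
  .k,.k,⟨false,0,⟨0,[]⟩,⟨1,[(16,0),(0,0),(17,0)]⟩⟩,⟨true,0,⟨0,[(33,0)]⟩,⟨0,[(32,0)]⟩⟩,⟨true,0,⟨0,
  [(32,0)]⟩,⟨0,[(33,0)]⟩⟩,⟨false,1,⟨1,[(16,0),(0,0),(17,0)]⟩,⟨0,[]⟩⟩,[.o ⟨false,0,⟨0,[(0,0)]⟩,⟨3,
  [(5,1),(10,0),(0,0),(3,3),(13,0)]⟩⟩,.o ⟨false,1,⟨3,[(0,1),(21,1),(4,0),(5,1),(1,2)]⟩,⟨0,[(12,
  0)]⟩⟩,.o ⟨false,1,⟨3,[(1,1),(14,0),(0,0),(6,1),(2,0)]⟩,⟨0,[(8,0)]⟩⟩,.a ⟨true,0,⟨0,[(24,0)]⟩,⟨0,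
  [(20,0)]⟩⟩ ⟨false,0,⟨5,[(2,4),(2,0),(0,0),(0,2)]⟩,⟨0,[(21,0),(2,0),(10,0)]⟩⟩ ⟨true,0,⟨0,[(4,0)]⟩,
  ⟨0,[(12,0),(11,0)]⟩⟩]⟩)

theorem ok20 : chk K t20 r12 = true := by decide +kernel

noncomputable def t22 : Tre :=
  (.S ⟨1,0,[0,0,0,-1,0,0,0,1],[0,0,1],[1,1,0,0,0,0,0,1],(⟨0,[(25,0)]⟩,⟨0,[(24,0)]⟩),⟨0,[(14,0)]⟩,.k,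
  .k,⟨false,0,⟨0,[]⟩,⟨1,[(15,0),(0,0),(17,0)]⟩⟩,⟨true,0,⟨0,[(32,0)]⟩,⟨0,[(31,0)]⟩⟩,⟨true,0,⟨0,[(31,
  0)]⟩,⟨0,[(32,0)]⟩⟩,⟨false,1,⟨1,[(15,0),(0,0),(17,0)]⟩,⟨0,[]⟩⟩,[.e ⟨false,1,⟨0,[(20,0),(2,0),(9,
  0)]⟩,⟨0,[(1,0),(32,0)]⟩⟩ ⟨false,1,⟨0,[(6,0),(13,0),(2,0)]⟩,⟨2,[(1,1),(2,0),(0,0)]⟩⟩,.o ⟨false,1,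
  ⟨0,[(20,0),(11,0),(1,0)]⟩,⟨1,[(1,1),(21,1),(2,0),(3,1),(3,0)]⟩⟩,.o ⟨false,0,⟨0,[(7,0)]⟩,⟨1,[(23,
  1),(2,0),(6,0)]⟩⟩,.a ⟨true,(-1),⟨0,[(0,0)]⟩,⟨0,[(23,0),(9,0)]⟩⟩ ⟨false,1,⟨0,[(6,0),(4,0),(11,0)]⟩,
  ⟨1,[(1,1),(20,0),(0,0),(10,1)]⟩⟩ ⟨true,1,⟨0,[(6,0),(13,0),(2,0)]⟩,⟨4,[(0,1),(0,5),(2,1),(6,0),(11,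
  2),(2,0)]⟩⟩]⟩)

theorem ok22 : chk K t22 r11 = true := by decide +kernel

noncomputable def t26 : Tre :=
  (.N [0,1,1] 0 ⟨0,[(1,0)]⟩ ⟨0,[(0,0)]⟩ .k)

theorem ok26 : chk K t26 l20 = true := by decide +kernel

noncomputable def t27 : Tre :=
  (.Q [0,0,-1,1,0,0,0,0,0,1] (.pp false [-1,1]) (.R ⟨1,false,false,true,[1,-1],[0,1],[1,0,-1,-1],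
  (⟨0,[(29,0)]⟩,⟨0,[(30,0)]⟩),(⟨0,[(30,0)]⟩,⟨0,[(29,0)]⟩),⟨0,[(15,0),(0,0)]⟩,.k,.k,(.r (-1) ⟨4,[(8,
  3),(8,0),(0,0),(12,1),(2,5)]⟩ ⟨5,[(3,3),(2,1),(10,0),(0,0),(17,0)]⟩),(.r (-1) ⟨4,[(8,3),(8,0),(0,
  0),(12,1),(2,5)]⟩ ⟨5,[(3,3),(2,1),(10,0),(0,0),(17,0)]⟩),(.r (-1) ⟨0,[(8,0),(23,0),(1,2)]⟩ ⟨3,[(3,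
  3),(2,1),(10,0),(0,0),(17,0)]⟩),.k,⟨true,1,⟨0,[(8,0),(25,0)]⟩,⟨0,[(3,0)]⟩⟩,⟨false,1,⟨3,[(0,2),(7,
  2),(2,0),(5,0),(13,0),(3,0)]⟩,⟨0,[(1,0)]⟩⟩,⟨true,0,⟨0,[]⟩,⟨0,[(38,0)]⟩⟩,⟨false,0,⟨14,[(0,13),(2,
  3),(2,3),(7,0),(10,1)]⟩,⟨0,[(1,0),(6,0),(25,0)]⟩⟩,⟨false,1,⟨3,[(6,1),(10,0),(0,0),(17,0)]⟩,⟨0,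
  [(34,0)]⟩⟩,⟨false,0,⟨0,[(0,0),(1,0)]⟩,⟨0,[(1,0),(6,0),(25,1)]⟩⟩,[.o ⟨false,0,⟨0,[(33,0)]⟩,⟨0,[(1,
  0),(6,0)]⟩⟩,.a ⟨true,0,⟨14,[(0,10),(2,0),(2,0),(7,3),(10,7)]⟩,⟨0,[(34,0)]⟩⟩ ⟨false,1,⟨0,[(8,0)]⟩,
  ⟨3,[(3,0),(0,0),(7,0),(4,0),(0,0),(12,0)]⟩⟩ ⟨true,0,⟨0,[(0,0)]⟩,⟨0,[(1,0),(32,0)]⟩⟩,.e ⟨false,1,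
  ⟨3,[(8,1),(8,0),(0,0),(15,1),(1,0)]⟩,⟨11,[(3,3),(2,1),(10,0),(0,0),(17,0)]⟩⟩ ⟨false,0,⟨0,[(0,0)]⟩,
  ⟨3,[(1,3),(6,1),(8,0),(0,0),(15,1),(1,0)]⟩⟩,.o ⟨false,0,⟨0,[(1,0)]⟩,⟨0,[(35,0)]⟩⟩]⟩) (.Q [0,0,-1,
  0,0,0,0,0,0,1] (.pp false [-1,1]) (.S ⟨1,0,[0,1,-1,-2],[1,-1],[1,0,-1,-1],(⟨0,[(30,0)]⟩,⟨0,[(31,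
  0)]⟩),⟨0,[(16,0),(0,0)]⟩,.k,(.r (-1) ⟨4,[(9,3),(8,0),(0,0),(12,1),(2,5)]⟩ ⟨5,[(4,3),(2,1),(10,0),
  (0,0),(17,0)]⟩),⟨true,0,⟨0,[]⟩,⟨0,[(39,0)]⟩⟩,⟨false,0,⟨0,[(35,0)]⟩,⟨3,[(7,1),(10,0),(0,0),(17,
  0)]⟩⟩,⟨false,1,⟨3,[(7,1),(10,0),(0,0),(17,0)]⟩,⟨0,[(35,0)]⟩⟩,⟨true,0,⟨0,[(39,0)]⟩,⟨0,[]⟩⟩,[.o
  ⟨false,0,⟨0,[(1,0),(31,0),(1,1)]⟩,⟨0,[(7,0)]⟩⟩,.e ⟨false,1,⟨0,[(9,0)]⟩,⟨3,[(4,0),(0,0),(7,0),(4,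
  0),(0,0),(12,0)]⟩⟩ ⟨false,1,⟨4,[(9,3),(8,0),(0,0),(12,1),(2,5)]⟩,⟨0,[(3,0)]⟩⟩,.a ⟨true,0,⟨3,[(2,
  0),(12,0),(10,1)]⟩,⟨0,[(0,0)]⟩⟩ ⟨false,1,⟨3,[(9,1),(8,0),(0,0),(15,1),(1,0)]⟩,⟨11,[(4,3),(2,1),
  (10,0),(0,0),(17,0)]⟩⟩ ⟨true,0,⟨0,[(33,0),(1,2)]⟩,⟨0,[(3,0)]⟩⟩,.o ⟨false,0,⟨0,[(2,0)]⟩,⟨0,[(36,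
  0)]⟩⟩]⟩) (.I [1,-1,2,2] (.Q [0,0,0,2,0,0,0,0,0,1] (.pp false [-1,1]) (.S ⟨1,0,[0,0,-1,-2],[1,-1],
  [1,1,-1,-1],(⟨0,[(32,0)]⟩,⟨0,[(33,0)]⟩),⟨0,[(18,0),(0,0)]⟩,.k,(.r (-1) ⟨4,[(11,3),(8,0),(0,0),(12,
  1),(2,5)]⟩ ⟨3,[(1,0),(4,1),(2,0),(10,0),(0,0)]⟩),⟨false,0,⟨0,[]⟩,⟨1,[(20,0),(0,0),(17,0)]⟩⟩,⟨true,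
  0,⟨0,[(37,0)]⟩,⟨0,[(36,0)]⟩⟩,⟨true,0,⟨0,[(36,0)]⟩,⟨0,[(37,0)]⟩⟩,⟨false,1,⟨1,[(20,0),(0,0),(17,
  0)]⟩,⟨0,[]⟩⟩,[.a ⟨true,0,⟨0,[(37,1)]⟩,⟨0,[(0,0)]⟩⟩ ⟨true,0,⟨0,[(35,0),(1,1)]⟩,⟨0,[(1,0),(35,0)]⟩⟩
  ⟨false,1,⟨4,[(11,3),(8,0),(0,0),(12,1),(2,5)]⟩,⟨0,[(5,0)]⟩⟩,.o ⟨false,1,⟨3,[(3,3),(7,1),(8,0),(0,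
  0),(15,1),(1,0)]⟩,⟨3,[(6,0),(2,0),(25,2),(0,0)]⟩⟩,.o ⟨false,0,⟨0,[(2,0)]⟩,⟨1,[(20,0),(0,0),(16,
  0)]⟩⟩,.o ⟨false,0,⟨0,[(4,0)]⟩,⟨0,[(38,0)]⟩⟩]⟩) (.Q [0,0,0,1,0,0,0,0,0,1] (.pp false [-1,1]) (.R
  ⟨2,true,false,true,[0,1],[1,-1],[0,0,1],(⟨0,[]⟩,⟨0,[]⟩),(⟨0,[(33,0)]⟩,⟨0,[(34,0)]⟩),⟨0,[]⟩,.k,.k,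
  .k,(.r 0 ⟨3,[(2,0),(4,1),(2,0),(10,0),(0,0)]⟩ ⟨4,[(12,3),(8,0),(0,0),(12,1),(2,5)]⟩),.k,.k,⟨true,
  0,⟨0,[(2,0),(35,0)]⟩,⟨0,[(36,0),(1,1)]⟩⟩,⟨false,0,⟨0,[(3,0)]⟩,⟨1,[(0,0),(11,0),(2,0),(5,0),(17,
  0)]⟩⟩,⟨true,0,⟨0,[(38,0)]⟩,⟨0,[(37,0)]⟩⟩,⟨false,0,⟨0,[(1,0)]⟩,⟨3,[(0,3),(9,1),(10,0),(0,0),(17,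
  0)]⟩⟩,⟨false,1,⟨1,[(21,0),(0,0),(17,0)]⟩,⟨0,[]⟩⟩,⟨true,0,⟨12,[(1,8),(5,1),(24,1),(2,4),(0,0)]⟩,⟨0,
  [(0,0)]⟩⟩,[]⟩) (.S ⟨1,0,[0,1,1,0,0,0,0,1],[0,1,1],[1,0,1,1,0,0,0,1],(⟨0,[(31,0),(2,0)]⟩,⟨0,[(19,
  0)]⟩),⟨0,[(31,0)]⟩,.k,.k,⟨true,0,⟨0,[]⟩,⟨0,[(42,0)]⟩⟩,⟨false,0,⟨0,[(38,0)]⟩,⟨3,[(10,1),(10,0),(0,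
  0),(17,0)]⟩⟩,⟨false,1,⟨3,[(10,1),(10,0),(0,0),(17,0)]⟩,⟨0,[(38,0)]⟩⟩,⟨true,0,⟨0,[(42,0)]⟩,⟨0,[]⟩⟩,
  [.o ⟨false,0,⟨0,[(26,0)]⟩,⟨0,[(0,0),(1,0),(9,0),(14,0)]⟩⟩,.o ⟨false,0,⟨0,[(0,0),(7,0),(16,0)]⟩,⟨1,
  [(27,1),(4,0),(7,0)]⟩⟩,.a ⟨true,0,⟨0,[(25,0)]⟩,⟨0,[(29,0)]⟩⟩ ⟨true,0,⟨0,[(9,0)]⟩,⟨0,[(0,0),(24,0),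
  (1,0)]⟩⟩ ⟨false,0,⟨0,[(8,0),(29,0)]⟩,⟨0,[(0,0),(1,0),(9,0),(12,0),(1,0)]⟩⟩,.o ⟨false,0,⟨0,[(13,
  0)]⟩,⟨1,[(29,1),(2,0),(6,0)]⟩⟩]⟩))) (.Q [0,-1,0,0,0,0,0,0,1,0,0,-1] (.p false [0,0,0,0,1] [] (⟨0,
  [(22,0)]⟩,⟨0,[(21,0)]⟩) .k 0 (⟨0,[]⟩,⟨0,[]⟩) .k .k) (.Q [0,0,0,1,1,0,0,0,-1,0,0,1] (.p true [0,0,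
  0,0,1] [] (⟨0,[(23,0)]⟩,⟨0,[(22,0)]⟩) .k 0 (⟨0,[]⟩,⟨0,[]⟩) .k .k) (.I [1,1,-2,-1] (.Q [0,0,0,-2,
  -1,0,0,0,1,0,0,-1] (.p false [0,0,0,0,1] [] (⟨0,[(25,0)]⟩,⟨0,[(24,0)]⟩) .k 0 (⟨0,[]⟩,⟨0,[]⟩) .k
  .k) (.Q [0,0,0,-2,0,0,0,0,0,-1] (.pp true [-1,1]) (.Q [0,0,0,1,0,0,0,0,0,1] (.pp false [-1,1])
  (.R ⟨2,false,false,false,[0,1],[1,-1],[1,0,-1,-1],(⟨0,[]⟩,⟨0,[]⟩),(⟨0,[(37,0)]⟩,⟨0,[(38,0)]⟩),⟨0,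
  []⟩,.k,.k,.k,(.r 0 ⟨5,[(11,3),(2,1),(10,0),(0,0),(17,0)]⟩ ⟨1,[(6,1),(18,0),(0,0),(17,0)]⟩),.k,.k,
  ⟨true,0,⟨0,[]⟩,⟨3,[(9,0),(12,0),(10,1)]⟩⟩,⟨false,0,⟨0,[(7,0)]⟩,⟨1,[(0,0),(15,0),(2,0),(5,0),(17,
  0)]⟩⟩,⟨false,1,⟨0,[(6,0),(37,0)]⟩,⟨5,[(11,3),(2,1),(10,0),(0,0),(17,0)]⟩⟩,⟨true,0,⟨0,[(1,0)]⟩,⟨0,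
  [(0,0),(40,0)]⟩⟩,⟨false,1,⟨0,[(16,0)]⟩,⟨7,[(9,0),(1,3),(10,0),(2,1),(0,1),(6,1),(10,1)]⟩⟩,⟨false,
  1,⟨3,[(1,1),(23,0),(0,0),(9,0),(7,1)]⟩,⟨0,[(0,0)]⟩⟩,[.a ⟨true,0,⟨0,[(42,0)]⟩,⟨0,[(0,0)]⟩⟩ ⟨false,
  1,⟨6,[(6,0),(9,4),(8,1),(0,1),(12,1)]⟩,⟨11,[(11,3),(2,1),(10,0),(0,0),(17,0)]⟩⟩ ⟨true,0,⟨0,[(8,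
  0)]⟩,⟨0,[(0,0)]⟩⟩,.o ⟨false,1,⟨3,[(1,1),(23,0),(0,0),(9,0),(7,1)]⟩,⟨0,[(41,0)]⟩⟩,.o ⟨false,1,⟨1,
  [(25,0),(0,0),(16,0)]⟩,⟨0,[(7,0)]⟩⟩,.e ⟨false,1,⟨0,[(16,0)]⟩,⟨7,[(9,0),(1,3),(10,0),(2,1),(0,1),
  (6,1),(10,1)]⟩⟩ ⟨false,1,⟨3,[(1,1),(23,0),(0,0),(9,0),(7,1)]⟩,⟨0,[(0,0)]⟩⟩]⟩) (.I [1,2,0,0,-1,0,0,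
  -1] (.S ⟨1,0,[0,1,1,0,0,0,0,1],[0,1,1],[1,0,1,1,0,0,0,1],(⟨0,[(36,0),(2,0)]⟩,⟨0,[(24,0)]⟩),⟨0,
  [(36,0)]⟩,.k,.k,⟨true,0,⟨0,[]⟩,⟨0,[(47,0)]⟩⟩,⟨false,0,⟨0,[(43,0)]⟩,⟨3,[(15,1),(10,0),(0,0),(17,
  0)]⟩⟩,⟨false,1,⟨3,[(15,1),(10,0),(0,0),(17,0)]⟩,⟨0,[(43,0)]⟩⟩,⟨true,0,⟨0,[(47,0)]⟩,⟨0,[]⟩⟩,[.o
  ⟨false,0,⟨0,[(31,0)]⟩,⟨0,[(0,0),(0,0),(9,0),(5,0),(16,0),(10,0)]⟩⟩,.o ⟨false,0,⟨0,[(1,0),(11,0),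
  (16,0)]⟩,⟨1,[(32,1),(4,0),(7,0)]⟩⟩,.a ⟨true,0,⟨0,[(30,0)]⟩,⟨0,[(34,0)]⟩⟩ ⟨true,0,⟨0,[(14,0)]⟩,⟨3,
  [(0,1),(1,0),(14,1),(5,0),(8,1)]⟩⟩ ⟨false,0,⟨0,[(13,0),(29,0)]⟩,⟨1,[(0,0),(15,0),(0,0),(27,0)]⟩⟩,
  .o ⟨false,0,⟨0,[(18,0)]⟩,⟨1,[(34,1),(2,0),(6,0)]⟩⟩]⟩) (.I [1,-1,-2,-1,1,0,0,-1] (.S ⟨1,0,[0,1,1,0,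
  0,0,0,1],[0,1,1],[1,0,1,1,0,0,0,1],(⟨0,[(37,0),(2,0)]⟩,⟨0,[(25,0)]⟩),⟨0,[(37,0)]⟩,.k,.k,⟨true,0,
  ⟨0,[]⟩,⟨0,[(48,0)]⟩⟩,⟨false,0,⟨0,[(44,0)]⟩,⟨4,[(1,0),(14,1),(0,0),(9,0),(0,0)]⟩⟩,⟨false,1,⟨4,[(1,
  0),(14,1),(0,0),(9,0),(0,0)]⟩,⟨0,[(44,0)]⟩⟩,⟨true,0,⟨0,[(48,0)]⟩,⟨0,[]⟩⟩,[.o ⟨false,0,⟨0,[(32,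
  0)]⟩,⟨0,[(0,0),(1,0),(9,0),(22,0)]⟩⟩,.o ⟨false,0,⟨0,[(2,0),(11,0),(16,0)]⟩,⟨1,[(33,1),(4,0),(7,
  0)]⟩⟩,.a ⟨true,0,⟨0,[(31,0)]⟩,⟨0,[(35,0)]⟩⟩ ⟨true,0,⟨0,[(15,0)]⟩,⟨0,[(2,0),(28,0),(1,0)]⟩⟩ ⟨false,
  0,⟨0,[(14,0),(29,0)]⟩,⟨1,[(0,0),(16,0)]⟩⟩,.o ⟨false,0,⟨0,[(19,0)]⟩,⟨1,[(35,1),(2,0),(6,0)]⟩⟩]⟩)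
  (.S ⟨1,0,[0,0,0,-1,0,0,0,-1],[1,0,-1],[0,1,0,-1,0,0,0,-1],(⟨0,[(36,0)]⟩,⟨0,[(37,0)]⟩),⟨0,[(25,
  0)]⟩,.k,.k,⟨false,0,⟨0,[(44,0)]⟩,⟨4,[(1,0),(14,1),(0,0),(9,0),(0,0)]⟩⟩,⟨true,0,⟨0,[(44,0)]⟩,⟨0,
  [(43,0)]⟩⟩,⟨true,0,⟨0,[(48,0)]⟩,⟨0,[]⟩⟩,⟨false,1,⟨1,[(27,0),(0,0),(17,0)]⟩,⟨0,[]⟩⟩,[.o ⟨false,1,
  ⟨3,[(3,1),(23,0),(0,0),(4,3),(4,0),(7,1)]⟩,⟨1,[(0,0),(0,0),(0,1),(9,0),(18,1),(10,0)]⟩⟩,.o ⟨false,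
  1,⟨0,[(2,0),(30,0),(12,0)]⟩,⟨0,[(23,0)]⟩⟩,.o ⟨false,1,⟨1,[(35,1),(2,0),(6,0)]⟩,⟨0,[(19,0)]⟩⟩,.a
  ⟨true,0,⟨0,[(35,0)]⟩,⟨0,[(31,0)]⟩⟩ ⟨true,0,⟨0,[(2,0),(28,0),(1,0)]⟩,⟨0,[(15,0)]⟩⟩ ⟨false,1,⟨0,[(2,
  0),(28,0),(1,0),(12,0)]⟩,⟨0,[(15,0)]⟩⟩]⟩)))) (.R ⟨1,false,false,true,[1,-1],[1,0,0,0,-1],[1],(⟨0,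
  [(36,0)]⟩,⟨0,[(37,0)]⟩),(⟨0,[(26,0)]⟩,⟨0,[(27,0)]⟩),⟨0,[(22,0),(0,0)]⟩,.k,.k,(.r (-1) ⟨1,[(5,1),
  (18,0),(0,0),(17,0)]⟩ ⟨5,[(10,3),(2,1),(10,0),(0,0),(17,0)]⟩),(.r 0 ⟨1,[(5,0),(39,0)]⟩ ⟨11,[(10,
  3),(2,1),(10,6),(0,6),(17,6)]⟩),(.r 0 ⟨0,[(5,0)]⟩ ⟨2,[(10,1),(2,0),(10,1),(0,1),(17,1)]⟩),.k,
  ⟨true,0,⟨0,[]⟩,⟨3,[(8,0),(12,0),(10,1)]⟩⟩,⟨false,2,⟨0,[(24,0),(17,0)]⟩,⟨0,[(1,0),(7,0)]⟩⟩,⟨true,0,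
  ⟨11,[(10,3),(2,1),(10,0),(0,0),(17,0)]⟩,⟨1,[(5,0),(39,0)]⟩⟩,⟨true,1,⟨0,[(3,0)]⟩,⟨16,[(1,12),(8,1),
  (6,3),(17,1),(2,4),(0,0)]⟩⟩,⟨true,0,⟨0,[(9,0)]⟩,⟨3,[(5,2),(2,0),(9,0),(5,0),(16,1)]⟩⟩,⟨false,2,⟨0,
  [(13,0),(10,0)]⟩,⟨0,[(1,0)]⟩⟩,[.a ⟨true,1,⟨0,[(24,0)]⟩,⟨0,[(0,0),(0,0)]⟩⟩ ⟨true,0,⟨0,[]⟩,⟨3,[(8,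
  0),(12,0),(10,1)]⟩⟩ ⟨false,2,⟨0,[(24,0),(17,0)]⟩,⟨0,[(1,0),(7,0)]⟩⟩,.o ⟨false,2,⟨1,[(24,1),(10,0),
  (7,0)]⟩,⟨8,[(1,5),(2,0),(5,1),(6,1),(17,0),(3,5)]⟩⟩,.o ⟨false,0,⟨0,[(6,0)]⟩,⟨1,[(24,0),(0,0),(16,
  0)]⟩⟩,.o ⟨false,0,⟨0,[(8,0)]⟩,⟨0,[(42,0)]⟩⟩]⟩)) (.Q [0,0,0,0,0,-1,0,0,0,1,0,-1] (.ed true [0,1,0,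
  0,1] .k) (.Q [0,-1,0,-1,1,0,0,0,-1,0,0,1] (.p true [0,0,0,0,1] [] (⟨0,[(27,0)]⟩,⟨0,[(26,0)]⟩) .k
  0 (⟨0,[]⟩,⟨0,[]⟩) .k .k) (.S ⟨1,0,[0,-1,0,-1],[1,0,0,0,-1],[1],(⟨0,[(27,0)]⟩,⟨0,[(28,0)]⟩),⟨0,[(1,
  0)]⟩,.k,(.r (-1) ⟨1,[(0,0),(15,0),(9,0)]⟩ ⟨3,[(11,0),(0,0),(7,0),(4,0),(0,0),(12,0)]⟩),⟨false,0,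
  ⟨0,[]⟩,⟨1,[(25,0),(0,0),(17,0)]⟩⟩,⟨true,0,⟨0,[(42,0)]⟩,⟨0,[(41,0)]⟩⟩,⟨true,0,⟨0,[(41,0)]⟩,⟨0,[(42,
  0)]⟩⟩,⟨false,1,⟨1,[(25,0),(0,0),(17,0)]⟩,⟨0,[]⟩⟩,[.a ⟨true,1,⟨0,[(0,0)]⟩,⟨0,[(18,0)]⟩⟩ ⟨true,0,⟨0,
  []⟩,⟨3,[(9,0),(12,0),(10,1)]⟩⟩ ⟨false,1,⟨1,[(0,0),(15,0),(9,0)]⟩,⟨0,[(41,0)]⟩⟩,.o ⟨false,2,⟨1,[(0,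
  1),(35,0),(7,0)]⟩,⟨2,[(3,1),(3,0),(3,0),(6,2),(17,0)]⟩⟩,.o ⟨false,1,⟨1,[(0,0),(1,0),(0,0),(3,1)]⟩,
  ⟨0,[(26,0)]⟩⟩,.o ⟨false,1,⟨0,[(7,0),(17,0)]⟩,⟨2,[(3,0),(1,1),(20,0),(13,0)]⟩⟩]⟩) (.Q [0,0,-1,0,1,
  0,0,0,-1,0,0,1] (.p true [0,0,0,0,1] [] (⟨0,[(28,0)]⟩,⟨0,[(27,0)]⟩) .k 0 (⟨0,[]⟩,⟨0,[]⟩) .k .k)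
  (.Q [0,0,0,1,0,0,1,1,0,0,-1] (.p false [0,0,1] [] (⟨0,[(36,0)]⟩,⟨0,[(35,0)]⟩) .k 0 (⟨0,[]⟩,⟨0,
  []⟩) .k .k) (.Q [0,0,0,1,0,0,0,0,0,1] (.pp false [-1,1]) (.R ⟨1,false,false,false,[1,0,0,0,-1],[1,
  -1],[1],(⟨0,[(30,0)]⟩,⟨0,[(31,0)]⟩),(⟨0,[(40,0)]⟩,⟨0,[(41,0)]⟩),⟨0,[(4,0)]⟩,.k,.k,(.r (-1) ⟨3,[(9,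
  1),(18,0),(0,0),(17,2)]⟩ ⟨3,[(14,0),(0,0),(7,0),(4,0),(0,0),(12,0)]⟩),(.r (-1) ⟨11,[(14,3),(2,1),
  (10,6),(0,6),(17,6)]⟩ ⟨1,[(9,0),(39,0)]⟩),.k,.k,⟨true,0,⟨11,[(14,3),(2,1),(10,0),(0,0),(17,0)]⟩,
  ⟨0,[(45,0)]⟩⟩,⟨false,0,⟨0,[(29,0)]⟩,⟨0,[(2,0)]⟩⟩,⟨false,0,⟨0,[]⟩,⟨1,[(28,0),(0,0),(17,0)]⟩⟩,⟨true,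
  (-1),⟨0,[(3,0),(41,1)]⟩,⟨0,[(7,0)]⟩⟩,⟨true,0,⟨0,[(44,0)]⟩,⟨0,[(45,0)]⟩⟩,⟨true,(-1),⟨0,[(3,0),(41,
  0)]⟩,⟨0,[(28,0)]⟩⟩,[.a ⟨true,0,⟨0,[(45,0)]⟩,⟨0,[(0,0)]⟩⟩ ⟨true,0,⟨0,[]⟩,⟨3,[(12,0),(12,0),(10,
  1)]⟩⟩ ⟨false,0,⟨1,[(8,0),(0,0),(19,0)]⟩,⟨0,[(7,0)]⟩⟩,.o ⟨false,1,⟨5,[(11,3),(7,1),(8,0),(0,0),(9,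
  0),(7,1)]⟩,⟨0,[(44,0)]⟩⟩,.o ⟨false,1,⟨0,[(2,0),(7,0)]⟩,⟨0,[(29,0)]⟩⟩,.o ⟨false,1,⟨0,[(2,0),(9,
  0)]⟩,⟨1,[(3,0),(15,0),(9,0)]⟩⟩]⟩) (.S ⟨1,0,[0,0,0,-1,0,0,0,-1],[1,0,-1],[0,1,0,-1,0,0,0,-1],(⟨0,
  [(37,0)]⟩,⟨0,[(38,0)]⟩),⟨0,[(26,0)]⟩,.k,.k,⟨false,0,⟨0,[(45,0)]⟩,⟨3,[(17,1),(10,0),(0,0),(17,
  0)]⟩⟩,⟨true,0,⟨0,[(45,0)]⟩,⟨0,[(44,0)]⟩⟩,⟨true,0,⟨0,[(49,0)]⟩,⟨0,[]⟩⟩,⟨false,1,⟨1,[(28,0),(0,0),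
  (17,0)]⟩,⟨0,[]⟩⟩,[.o ⟨false,1,⟨5,[(11,3),(7,1),(8,0),(0,0),(4,5),(4,0),(7,1)]⟩,⟨0,[(1,0)]⟩⟩,.o
  ⟨false,1,⟨0,[(0,0),(33,0),(12,0)]⟩,⟨0,[(24,0)]⟩⟩,.o ⟨false,1,⟨1,[(36,1),(2,0),(6,0)]⟩,⟨0,[(20,
  0)]⟩⟩,.a ⟨true,0,⟨0,[(36,0)]⟩,⟨0,[(32,0)]⟩⟩ ⟨true,0,⟨0,[(0,0),(31,0),(1,0)]⟩,⟨0,[(16,0)]⟩⟩ ⟨false,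
  1,⟨0,[(0,0),(31,0),(1,0),(12,0)]⟩,⟨0,[(16,0)]⟩⟩]⟩)) (.R ⟨1,false,false,true,[1,0,-1],[1,0,0,0,-1],
  [0,0,0,-1,0,0,0,-1],(⟨0,[(36,0)]⟩,⟨0,[(37,0)]⟩),(⟨0,[(29,0)]⟩,⟨0,[(30,0)]⟩),⟨0,[(25,0)]⟩,.k,.k,.k,
  .k,(.r 0 ⟨2,[(0,1),(4,1),(13,1),(2,0)]⟩ ⟨1,[(14,1),(12,0),(0,0),(17,0)]⟩),.k,⟨true,0,⟨0,[(0,0),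
  (18,0)]⟩,⟨0,[(15,0)]⟩⟩,⟨false,1,⟨0,[(1,0),(17,0)]⟩,⟨1,[(2,0),(15,0),(9,0),(6,1)]⟩⟩,⟨true,0,⟨0,
  [(44,0)]⟩,⟨0,[(43,0)]⟩⟩,⟨true,1,⟨0,[(1,0),(12,0),(4,0),(24,0)]⟩,⟨0,[(0,0),(1,0)]⟩⟩,⟨false,1,⟨1,
  [(27,0),(0,0),(17,0)]⟩,⟨0,[]⟩⟩,⟨true,1,⟨0,[(1,0),(12,0),(4,0)]⟩,⟨0,[(0,0),(1,0),(41,0)]⟩⟩,[.o
  ⟨false,1,⟨0,[(1,0),(7,0)]⟩,⟨0,[(28,0)]⟩⟩,.o ⟨false,2,⟨1,[(27,1),(10,0),(7,0)]⟩,⟨0,[(2,0),(41,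
  0)]⟩⟩,.o ⟨false,1,⟨1,[(35,1),(2,0),(6,0)]⟩,⟨0,[(19,0)]⟩⟩,.a ⟨true,0,⟨0,[(35,0)]⟩,⟨0,[(31,0)]⟩⟩
  ⟨false,1,⟨4,[(0,2),(9,0),(6,1),(0,2),(0,0),(4,0)]⟩,⟨0,[(15,0)]⟩⟩ ⟨true,1,⟨0,[(1,0),(17,0)]⟩,⟨0,
  [(2,0),(32,0),(8,0)]⟩⟩]⟩)) (.Q [0,0,0,0,1,0,0,0,-1,-1,0,1] (.p true [0,0,0,0,1] [1] (⟨0,[(29,0)]⟩,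
  ⟨0,[(28,0)]⟩) .k 1 (⟨0,[]⟩,⟨0,[]⟩) .k .k) (.Q [0,0,0,1,0,0,0,0,0,1] (.pp false [-1,1]) (.R ⟨1,
  false,false,true,[1,0,0,0,-1],[1,-1],[0,-1,0,-1],(⟨0,[(30,0)]⟩,⟨0,[(31,0)]⟩),(⟨0,[(40,0)]⟩,⟨0,
  [(41,0)]⟩),⟨0,[(4,0)]⟩,.k,.k,(.r (-1) ⟨3,[(9,1),(18,0),(0,0),(17,2)]⟩ ⟨3,[(14,0),(0,0),(7,0),(4,
  0),(0,0),(12,0)]⟩),(.r (-1) ⟨11,[(14,3),(2,1),(10,6),(0,6),(17,6)]⟩ ⟨1,[(9,0),(39,0)]⟩),.k,.k,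
  ⟨false,1,⟨0,[(47,0)]⟩,⟨0,[(42,0)]⟩⟩,⟨true,(-1),⟨0,[(2,0)]⟩,⟨0,[(28,0)]⟩⟩,⟨true,0,⟨0,[(45,0)]⟩,⟨0,
  [(44,0)]⟩⟩,⟨false,(-1),⟨5,[(2,4),(6,2),(2,0),(9,0),(19,0)]⟩,⟨0,[(7,0),(39,0)]⟩⟩,⟨false,1,⟨1,[(28,
  0),(0,0),(17,0)]⟩,⟨0,[]⟩⟩,⟨false,(-1),⟨4,[(2,2),(0,1),(5,0),(32,0)]⟩,⟨0,[(28,0),(18,0)]⟩⟩,[.o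
  ⟨false,0,⟨2,[(9,1),(1,0),(2,0),(24,0)]⟩,⟨3,[(17,1),(10,0),(0,0),(17,0)]⟩⟩,.a ⟨true,0,⟨0,[(45,0)]⟩,
  ⟨0,[(0,0)]⟩⟩ ⟨true,1,⟨0,[(45,0),(1,0)]⟩,⟨0,[(6,0),(7,0)]⟩⟩ ⟨false,0,⟨1,[(8,0),(0,0),(19,0)]⟩,⟨0,
  [(7,0)]⟩⟩,.o ⟨false,1,⟨0,[(1,0)]⟩,⟨0,[(29,0)]⟩⟩,.o ⟨false,1,⟨1,[(1,0),(10,0),(15,0)]⟩,⟨1,[(3,0),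
  (15,0),(9,0)]⟩⟩]⟩) (.Q [0,0,0,2,0,0,1,1,0,1,-1] (.p false [0,0,1] [1] (⟨0,[(38,0)]⟩,⟨0,[(37,0)]⟩)
  .k 1 (⟨0,[]⟩,⟨0,[]⟩) .k .k) (.S ⟨1,0,[0,0,0,-1,0,0,0,-1],[1,0,-1],[0,1,0,-1,0,0,0,-1],(⟨0,[(38,
  0)]⟩,⟨0,[(39,0)]⟩),⟨0,[(27,0)]⟩,.k,.k,⟨false,0,⟨0,[(46,0)]⟩,⟨3,[(18,1),(10,0),(0,0),(17,0)]⟩⟩,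
  ⟨true,0,⟨0,[(46,0)]⟩,⟨0,[(45,0)]⟩⟩,⟨true,0,⟨0,[(50,0)]⟩,⟨0,[]⟩⟩,⟨false,1,⟨1,[(29,0),(0,0),(17,
  0)]⟩,⟨0,[]⟩⟩,[.o ⟨false,1,⟨5,[(12,3),(7,1),(8,0),(0,0),(4,5),(4,0),(7,1)]⟩,⟨0,[(0,0),(0,0)]⟩⟩,.o
  ⟨false,1,⟨0,[(1,0),(33,0),(12,0)]⟩,⟨0,[(25,0)]⟩⟩,.o ⟨false,1,⟨1,[(37,1),(2,0),(6,0)]⟩,⟨0,[(21,
  0)]⟩⟩,.a ⟨true,0,⟨0,[(37,0)]⟩,⟨0,[(33,0)]⟩⟩ ⟨true,0,⟨0,[(1,0),(31,0),(1,0)]⟩,⟨0,[(17,0)]⟩⟩ ⟨false,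
  1,⟨0,[(1,0),(31,0),(1,0),(12,0)]⟩,⟨0,[(17,0)]⟩⟩]⟩) (.R ⟨1,true,false,false,[1,0,-1],[0,1],[1,1,0,
  0,0,0,0,-1],(⟨0,[(38,0)]⟩,⟨0,[(39,0)]⟩),(⟨0,[(42,0)]⟩,⟨0,[(41,0)]⟩),⟨0,[(27,0)]⟩,.k,.k,.k,.k,(.r
  (-1) ⟨4,[(0,1),(9,1),(8,0),(0,2),(5,1),(2,0),(0,0),(4,1)]⟩ ⟨11,[(15,3),(0,11),(1,1),(10,0),(0,0),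
  (17,0)]⟩),.k,⟨false,0,⟨0,[(0,0),(32,0),(10,0)]⟩,⟨1,[(16,1),(12,0),(0,0),(17,0)]⟩⟩,⟨true,0,⟨0,[(33,
  0)]⟩,⟨0,[(11,0),(25,0)]⟩⟩,⟨false,0,⟨0,[]⟩,⟨1,[(29,0),(0,0),(17,0)]⟩⟩,⟨true,0,⟨0,[(16,0),(16,0)]⟩,
  ⟨14,[(0,10),(14,1),(19,3),(4,1),(2,2),(0,2)]⟩⟩,⟨true,0,⟨0,[(45,0)]⟩,⟨0,[(46,0)]⟩⟩,⟨false,1,⟨4,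
  [(16,4),(1,2),(1,0),(2,0),(2,0),(2,0),(3,2),(14,0)]⟩,⟨0,[(0,0)]⟩⟩,[]⟩))) (.Q [0,-2,0,-1,2,0,0,0,
  -1,-1,0,1] (.p true [0,0,0,0,1] [1] (⟨0,[(30,0)]⟩,⟨0,[(29,0)]⟩) .k 1 (⟨0,[]⟩,⟨0,[]⟩) .k .k) (.S
  ⟨1,0,[0,-1,0,-1],[1,0,0,0,-1],[1],(⟨0,[(30,0)]⟩,⟨0,[(31,0)]⟩),⟨0,[(4,0)]⟩,.k,(.r (-1) ⟨1,[(0,0),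
  (18,0),(2,0)]⟩ ⟨3,[(14,0),(0,0),(7,0),(4,0),(0,0),(12,0)]⟩),⟨false,0,⟨0,[]⟩,⟨1,[(28,0),(0,0),(17,
  0)]⟩⟩,⟨true,0,⟨0,[(45,0)]⟩,⟨0,[(44,0)]⟩⟩,⟨true,0,⟨0,[(44,0)]⟩,⟨0,[(45,0)]⟩⟩,⟨false,1,⟨1,[(28,0),
  (0,0),(17,0)]⟩,⟨0,[]⟩⟩,[.o ⟨false,2,⟨0,[(0,0),(48,0)]⟩,⟨0,[(3,0)]⟩⟩,.o ⟨false,2,⟨0,[(0,0)]⟩,⟨6,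
  [(3,4),(10,0),(7,1),(16,0),(2,2)]⟩⟩,.a ⟨true,1,⟨0,[(28,0)]⟩,⟨0,[(1,0)]⟩⟩ ⟨true,0,⟨0,[]⟩,⟨0,[(49,
  0)]⟩⟩ ⟨false,1,⟨0,[(45,0),(1,0)]⟩,⟨0,[(44,0)]⟩⟩,.o ⟨false,1,⟨0,[(10,0),(17,0)]⟩,⟨1,[(3,0),(15,0),
  (9,0)]⟩⟩]⟩) (.Q [0,0,0,0,0,-1,0,0,0,0,0,1] (.ed false [1,-1,0,0,1] .k) (.S ⟨1,0,[0,1,0,-1],[0,0,0,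
  0,1],[1,2],(⟨0,[(32,0)]⟩,⟨0,[(31,0)]⟩),⟨0,[(0,0)]⟩,.k,(.r 0 ⟨1,[(10,0),(39,0)]⟩ ⟨11,[(15,3),(2,1),
  (10,6),(0,6),(17,6)]⟩),⟨false,0,⟨0,[]⟩,⟨1,[(29,0),(0,0),(17,0)]⟩⟩,⟨true,0,⟨0,[(46,0)]⟩,⟨0,[(45,
  0)]⟩⟩,⟨true,0,⟨0,[(45,0)]⟩,⟨0,[(46,0)]⟩⟩,⟨false,1,⟨1,[(29,0),(0,0),(17,0)]⟩,⟨0,[]⟩⟩,[.o ⟨false,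
  (-1),⟨5,[(3,4),(6,2),(2,0),(9,0),(19,0)]⟩,⟨1,[(8,1),(31,0),(7,0)]⟩⟩,.a ⟨true,(-1),⟨0,[(2,0),(43,
  0)]⟩,⟨0,[(8,0)]⟩⟩ ⟨false,0,⟨3,[(7,0),(35,0),(0,0)]⟩,⟨1,[(29,0),(0,0),(17,0)]⟩⟩ ⟨true,0,⟨0,[(46,
  0)]⟩,⟨11,[(15,3),(2,1),(10,0),(0,0),(17,0)]⟩⟩,.e ⟨false,0,⟨0,[(50,0)]⟩,⟨0,[(48,0)]⟩⟩ ⟨false,0,⟨0,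
  [(46,0)]⟩,⟨3,[(18,1),(10,0),(0,0),(17,0)]⟩⟩,.o ⟨false,(-1),⟨0,[(3,0)]⟩,⟨1,[(29,1),(10,0),(6,
  0)]⟩⟩]⟩) (.R ⟨0,false,false,false,[0,0,0,0,1],[1,-1],[0,1],(⟨0,[(32,0)]⟩,⟨0,[(31,0)]⟩),(⟨0,[(41,
  0)]⟩,⟨0,[(42,0)]⟩),⟨0,[(0,0)]⟩,.k,.k,(.r 0 ⟨1,[(10,0),(39,0)]⟩ ⟨11,[(15,3),(2,1),(10,6),(0,6),(17,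
  6)]⟩),(.r 0 ⟨3,[(15,0),(0,0),(7,0),(4,0),(0,0),(12,0)]⟩ ⟨3,[(10,1),(18,0),(0,0),(17,2)]⟩),.k,.k,
  ⟨false,0,⟨0,[(45,0)]⟩,⟨3,[(10,1),(18,0),(0,0),(17,2)]⟩⟩,⟨true,1,⟨0,[(11,0),(17,0)]⟩,⟨0,[(2,0)]⟩⟩,
  ⟨false,1,⟨1,[(29,0),(0,0),(17,0)]⟩,⟨0,[]⟩⟩,⟨true,2,⟨5,[(12,3),(7,1),(8,6),(0,0),(9,0),(7,1)]⟩,⟨0,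
  [(1,0)]⟩⟩,⟨false,0,⟨0,[]⟩,⟨0,[]⟩⟩,⟨false,0,⟨0,[]⟩,⟨0,[]⟩⟩,[.e ⟨false,0,⟨3,[(7,0),(35,0),(0,0)]⟩,
  ⟨1,[(29,0),(0,0),(17,0)]⟩⟩ ⟨false,2,⟨6,[(10,1),(1,0),(7,1),(8,8),(0,1),(9,2)]⟩,⟨0,[(1,0),(46,
  0)]⟩⟩,.o ⟨false,1,⟨5,[(12,3),(7,1),(8,0),(0,0),(9,0),(7,1)]⟩,⟨0,[(45,0)]⟩⟩,.a ⟨true,(-1),⟨0,[(2,
  0)]⟩,⟨0,[(29,0)]⟩⟩ ⟨true,0,⟨0,[(50,0)]⟩,⟨0,[]⟩⟩ ⟨false,2,⟨5,[(12,3),(7,1),(8,6),(0,0),(9,0),(7,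
  1)]⟩,⟨0,[(1,0),(46,0)]⟩⟩,.o ⟨false,(-1),⟨0,[(3,0)]⟩,⟨1,[(29,1),(10,0),(6,0)]⟩⟩]⟩)))))) (.Q [0,0,0,
  0,1,0,0,0,-1,-1,0,1] (.p true [0,0,0,0,1] [1] (⟨0,[(27,0)]⟩,⟨0,[(26,0)]⟩) .k 1 (⟨0,[]⟩,⟨0,[]⟩) .k
  .k) (.Q [0,0,0,1,0,0,0,0,0,1] (.pp false [-1,1]) (.R ⟨0,false,false,false,[1,0,0,0,-1],[0,1],[1,0,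
  1,1],(⟨0,[(28,0)]⟩,⟨0,[(29,0)]⟩),(⟨0,[(39,0)]⟩,⟨0,[(38,0)]⟩),⟨0,[(2,0)]⟩,.k,.k,(.r (-1) ⟨3,[(7,1),
  (18,0),(0,0),(17,2)]⟩ ⟨3,[(12,0),(0,0),(7,0),(4,0),(0,0),(12,0)]⟩),(.r (-1) ⟨3,[(7,1),(18,0),(0,
  0),(17,2)]⟩ ⟨3,[(12,0),(0,0),(7,0),(4,0),(0,0),(12,0)]⟩),.k,.k,⟨true,0,⟨0,[]⟩,⟨3,[(10,0),(12,0),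
  (10,1)]⟩⟩,⟨false,0,⟨0,[(17,0),(1,0)]⟩,⟨1,[(1,0),(8,0),(15,0)]⟩⟩,⟨false,0,⟨11,[(12,3),(2,1),(10,0),
  (0,0),(17,0)]⟩,⟨3,[(7,1),(18,0),(0,0),(17,2)]⟩⟩,⟨true,(-1),⟨0,[(19,0)]⟩,⟨0,[(1,0),(41,0)]⟩⟩,
  ⟨false,0,⟨0,[]⟩,⟨0,[]⟩⟩,⟨false,0,⟨0,[]⟩,⟨0,[]⟩⟩,[.a ⟨true,0,⟨0,[(0,0)]⟩,⟨0,[(43,0)]⟩⟩ ⟨true,0,⟨11,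
  [(12,3),(2,1),(10,0),(0,0),(17,0)]⟩,⟨0,[(43,0)]⟩⟩ ⟨false,0,⟨1,[(15,0),(1,0),(1,0),(0,0)]⟩,⟨0,[(1,
  0),(41,0)]⟩⟩,.o ⟨false,1,⟨3,[(15,1),(10,0),(0,0),(17,0)]⟩,⟨2,[(7,1),(1,0),(2,0),(24,0)]⟩⟩,.o
  ⟨false,1,⟨0,[(1,0)]⟩,⟨0,[(27,0)]⟩⟩,.o ⟨false,1,⟨1,[(1,0),(8,0),(15,0)]⟩,⟨2,[(4,0),(1,1),(20,0),
  (13,0)]⟩⟩]⟩) (.Q [0,0,0,2,0,0,1,1,0,1,-1] (.p false [0,0,1] [1] (⟨0,[(36,0)]⟩,⟨0,[(35,0)]⟩) .k 1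
  (⟨0,[]⟩,⟨0,[]⟩) .k .k) (.S ⟨1,0,[0,0,0,-1,0,0,0,-1],[1,0,-1],[0,1,0,-1,0,0,0,-1],(⟨0,[(36,0)]⟩,⟨0,
  [(37,0)]⟩),⟨0,[(25,0)]⟩,.k,.k,⟨false,0,⟨0,[(44,0)]⟩,⟨3,[(16,1),(10,0),(0,0),(17,0)]⟩⟩,⟨true,0,⟨0,
  [(44,0)]⟩,⟨0,[(43,0)]⟩⟩,⟨true,0,⟨0,[(48,0)]⟩,⟨0,[]⟩⟩,⟨false,1,⟨1,[(27,0),(0,0),(17,0)]⟩,⟨0,[]⟩⟩,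
  [.o ⟨false,1,⟨5,[(10,3),(7,1),(8,0),(0,0),(4,5),(4,0),(7,1)]⟩,⟨0,[(0,0),(0,0)]⟩⟩,.o ⟨false,1,⟨0,
  [(1,0),(31,0),(12,0)]⟩,⟨0,[(23,0)]⟩⟩,.o ⟨false,1,⟨1,[(35,1),(2,0),(6,0)]⟩,⟨0,[(19,0)]⟩⟩,.a ⟨true,
  0,⟨0,[(35,0)]⟩,⟨0,[(31,0)]⟩⟩ ⟨true,0,⟨0,[(1,0),(29,0),(1,0)]⟩,⟨0,[(15,0)]⟩⟩ ⟨false,1,⟨0,[(1,0),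
  (29,0),(1,0),(12,0)]⟩,⟨0,[(15,0)]⟩⟩]⟩) (.S ⟨1,0,[0,1,1,0,0,0,0,1],[0,1,1],[1,0,1,1,0,0,0,1],(⟨0,
  [(37,0),(2,0)]⟩,⟨0,[(25,0)]⟩),⟨0,[(37,0)]⟩,.k,.k,⟨true,0,⟨0,[]⟩,⟨0,[(48,0)]⟩⟩,⟨false,0,⟨0,[(44,
  0)]⟩,⟨3,[(16,1),(10,0),(0,0),(17,0)]⟩⟩,⟨false,1,⟨3,[(16,1),(10,0),(0,0),(17,0)]⟩,⟨0,[(44,0)]⟩⟩,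
  ⟨true,0,⟨0,[(48,0)]⟩,⟨0,[]⟩⟩,[.o ⟨false,0,⟨0,[(32,0)]⟩,⟨0,[(0,0),(15,0)]⟩⟩,.o ⟨false,0,⟨0,[(1,0),
  (12,0),(16,0)]⟩,⟨1,[(33,1),(4,0),(7,0)]⟩⟩,.a ⟨true,0,⟨0,[(31,0)]⟩,⟨0,[(35,0)]⟩⟩ ⟨true,0,⟨0,[(15,
  0)]⟩,⟨1,[(0,0),(4,0),(16,0),(8,0)]⟩⟩ ⟨false,0,⟨0,[(14,0),(29,0)]⟩,⟨1,[(0,0),(11,0),(4,0),(0,0),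
  (12,0)]⟩⟩,.o ⟨false,0,⟨0,[(19,0)]⟩,⟨1,[(35,1),(2,0),(6,0)]⟩⟩]⟩))) (.S ⟨1,0,[0,1,0,-1],[0,0,0,0,1],
  [1,2],(⟨0,[(28,0)]⟩,⟨0,[(27,0)]⟩),⟨0,[(1,0),(21,0),(0,0)]⟩,.k,(.r 0 ⟨1,[(6,0),(39,0)]⟩ ⟨11,[(11,
  3),(2,1),(10,6),(0,6),(17,6)]⟩),⟨false,0,⟨0,[]⟩,⟨1,[(25,0),(0,0),(17,0)]⟩⟩,⟨true,0,⟨0,[(42,0)]⟩,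
  ⟨0,[(41,0)]⟩⟩,⟨true,0,⟨0,[(41,0)]⟩,⟨0,[(42,0)]⟩⟩,⟨false,1,⟨1,[(25,0),(0,0),(17,0)]⟩,⟨0,[]⟩⟩,[.o
  ⟨false,(-1),⟨1,[(0,0),(5,0),(0,1),(11,0)]⟩,⟨1,[(4,1),(31,0),(7,0)]⟩⟩,.a ⟨true,(-1),⟨0,[(0,0),(41,
  0)]⟩,⟨0,[(4,0)]⟩⟩ ⟨false,0,⟨3,[(3,0),(35,0),(0,0)]⟩,⟨1,[(25,0),(0,0),(17,0)]⟩⟩ ⟨true,0,⟨0,[(42,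
  0)]⟩,⟨11,[(11,3),(2,1),(10,0),(0,0),(17,0)]⟩⟩,.e ⟨false,0,⟨0,[(46,0)]⟩,⟨0,[(44,0)]⟩⟩ ⟨false,0,⟨0,
  [(42,0)]⟩,⟨3,[(14,1),(10,0),(0,0),(17,0)]⟩⟩,.o ⟨false,(-1),⟨0,[(0,0),(6,0)]⟩,⟨1,[(25,1),(10,0),(6,
  0)]⟩⟩]⟩)))) (.Q [0,0,0,2,0,0,0,0,0,1] (.pp false [-1,1]) (.S ⟨1,0,[0,0,-1,-2],[1,-1],[1,1,-1,-1],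
  (⟨0,[(35,0)]⟩,⟨0,[(36,0)]⟩),⟨0,[(21,0),(0,0)]⟩,.k,(.r (-1) ⟨1,[(4,1),(18,0),(0,0),(17,0)]⟩ ⟨10,
  [(1,1),(7,5),(2,3),(10,1),(0,1)]⟩),⟨false,0,⟨0,[]⟩,⟨1,[(23,0),(0,0),(17,0)]⟩⟩,⟨true,0,⟨0,[(40,
  0)]⟩,⟨0,[(39,0)]⟩⟩,⟨true,0,⟨0,[(39,0)]⟩,⟨0,[(40,0)]⟩⟩,⟨false,1,⟨1,[(23,0),(0,0),(17,0)]⟩,⟨0,[]⟩⟩,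
  [.a ⟨true,0,⟨0,[(40,1)]⟩,⟨0,[(0,0)]⟩⟩ ⟨true,0,⟨1,[(4,0),(39,0)]⟩,⟨0,[(1,0)]⟩⟩ ⟨false,1,⟨1,[(4,1),
  (18,0),(0,0),(17,0)]⟩,⟨0,[(8,0)]⟩⟩,.o ⟨false,1,⟨3,[(4,1),(1,3),(16,0),(0,0),(17,2)]⟩,⟨3,[(9,0),(2,
  0),(25,2),(0,0)]⟩⟩,.o ⟨false,0,⟨0,[(5,0)]⟩,⟨1,[(23,0),(0,0),(16,0)]⟩⟩,.o ⟨false,0,⟨0,[(7,0)]⟩,⟨0,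
  [(41,0)]⟩⟩]⟩) (.Q [0,0,0,1,0,0,0,0,0,1] (.pp false [-1,1]) (.R ⟨2,true,false,true,[0,1],[1,-1],[0,
  0,1],(⟨0,[]⟩,⟨0,[]⟩),(⟨0,[(36,0)]⟩,⟨0,[(37,0)]⟩),⟨0,[]⟩,.k,.k,.k,(.r 0 ⟨10,[(2,1),(7,5),(2,3),(10,
  1),(0,1)]⟩ ⟨1,[(5,1),(18,0),(0,0),(17,0)]⟩),.k,.k,⟨true,0,⟨0,[(2,0)]⟩,⟨1,[(5,0),(39,0)]⟩⟩,⟨false,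
  0,⟨0,[(6,0)]⟩,⟨1,[(0,0),(14,0),(2,0),(5,0),(17,0)]⟩⟩,⟨true,0,⟨0,[(41,0)]⟩,⟨0,[(40,0)]⟩⟩,⟨false,0,
  ⟨0,[(1,0)]⟩,⟨3,[(0,3),(12,1),(10,0),(0,0),(17,0)]⟩⟩,⟨false,1,⟨1,[(24,0),(0,0),(17,0)]⟩,⟨0,[]⟩⟩,
  ⟨true,0,⟨3,[(1,1),(3,0),(4,0),(24,0),(2,0)]⟩,⟨0,[(0,0)]⟩⟩,[]⟩) (.Q [0,1,0,0,0,0,-1,-1,0,-1,1] (.p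
  true [0,0,1] [1] (⟨0,[(34,0)]⟩,⟨0,[(33,0)]⟩) .k 1 (⟨0,[]⟩,⟨0,[]⟩) .k .k) (.S ⟨1,0,[0,0,1,0,0,0,0,
  1],[0,1,1],[1,1,1,1,0,0,0,1],(⟨0,[(35,0),(2,0)]⟩,⟨0,[(23,0)]⟩),⟨0,[(35,0)]⟩,.k,.k,⟨false,0,⟨0,[]⟩,
  ⟨1,[(25,0),(0,0),(17,0)]⟩⟩,⟨true,0,⟨0,[(42,0)]⟩,⟨0,[(41,0)]⟩⟩,⟨true,0,⟨0,[(41,0)]⟩,⟨0,[(42,0)]⟩⟩,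
  ⟨false,1,⟨1,[(25,0),(0,0),(17,0)]⟩,⟨0,[]⟩⟩,[.o ⟨false,0,⟨0,[(1,0),(10,0),(16,0)]⟩,⟨1,[(31,1),(4,
  0),(7,0)]⟩⟩,.o ⟨false,1,⟨0,[(30,0),(13,0)]⟩,⟨0,[(0,0)]⟩⟩,.a ⟨true,0,⟨0,[(29,0)]⟩,⟨0,[(33,0)]⟩⟩
  ⟨false,0,⟨0,[(13,0)]⟩,⟨1,[(0,0),(1,0),(26,1),(1,0),(12,1)]⟩⟩ ⟨true,0,⟨0,[(12,0),(29,0)]⟩,⟨0,[(0,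
  0),(28,0)]⟩⟩,.o ⟨false,0,⟨0,[(17,0)]⟩,⟨1,[(33,1),(2,0),(6,0)]⟩⟩]⟩) (.R ⟨2,true,false,false,[0,1],
  [0,0,1],[0,0,1],(⟨0,[]⟩,⟨0,[]⟩),(⟨0,[(35,0)]⟩,⟨0,[(34,0)]⟩),⟨0,[]⟩,.k,.k,.k,.k,.k,.k,⟨true,0,⟨0,
  [(1,0),(1,0),(25,0),(1,0)]⟩,⟨0,[(0,0),(0,0),(31,0),(6,0)]⟩⟩,⟨false,0,⟨0,[(17,0)]⟩,⟨0,[(33,0),(9,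
  0)]⟩⟩,⟨true,0,⟨0,[(42,0)]⟩,⟨0,[(41,0)]⟩⟩,⟨false,0,⟨0,[(0,0),(0,0)]⟩,⟨3,[(14,1),(10,0),(0,0),(4,3),
  (12,0)]⟩⟩,⟨false,1,⟨1,[(25,0),(0,0),(17,0)]⟩,⟨0,[]⟩⟩,⟨true,0,⟨1,[(0,0),(0,0),(19,0)]⟩,⟨0,[(31,
  0)]⟩⟩,[]⟩))))) (.R ⟨2,true,false,false,[0,1],[0,0,0,0,1],[1,0,1,1],(⟨0,[]⟩,⟨0,[]⟩),(⟨0,[(24,0)]⟩,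
  ⟨0,[(23,0)]⟩),⟨0,[]⟩,.k,.k,.k,(.r (-1) ⟨11,[(7,3),(2,1),(10,6),(0,6),(17,6)]⟩ ⟨1,[(2,0),(39,0)]⟩),
  .k,.k,⟨false,1,⟨3,[(10,1),(10,0),(0,0),(17,0)]⟩,⟨1,[(2,0),(39,0)]⟩⟩,⟨true,(-1),⟨2,[(0,1),(0,0),(5,
  0)]⟩,⟨0,[(21,0)]⟩⟩,⟨true,0,⟨0,[]⟩,⟨0,[(42,0)]⟩⟩,⟨false,(-1),⟨0,[(0,0)]⟩,⟨3,[(10,1),(10,4),(0,0),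
  (17,0)]⟩⟩,⟨false,1,⟨3,[(10,1),(10,0),(0,0),(17,0)]⟩,⟨0,[(38,0)]⟩⟩,⟨true,(-1),⟨14,[(0,10),(6,1),(6,
  3),(17,1),(2,2),(0,2)]⟩,⟨0,[(21,0)]⟩⟩,[]⟩)) (.Q [0,0,0,0,0,-1,0,0,0,1,0,-1] (.ed true [0,1,0,0,1]
  .k) (.S ⟨1,0,[0,-1,0,-1],[1,0,0,0,-1],[1],(⟨0,[(23,0)]⟩,⟨0,[(24,0)]⟩),⟨0,[(0,0)]⟩,.k,(.r (-1) ⟨3,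
  [(2,1),(18,0),(0,0),(17,2)]⟩ ⟨3,[(7,0),(0,0),(7,0),(4,0),(0,0),(12,0)]⟩),⟨false,0,⟨0,[]⟩,⟨1,[(21,
  0),(0,0),(17,0)]⟩⟩,⟨true,0,⟨0,[(38,0)]⟩,⟨0,[(37,0)]⟩⟩,⟨true,0,⟨0,[(37,0)]⟩,⟨0,[(38,0)]⟩⟩,⟨false,1,
  ⟨1,[(21,0),(0,0),(17,0)]⟩,⟨0,[]⟩⟩,[.a ⟨true,1,⟨0,[(1,0),(36,0),(1,0)]⟩,⟨0,[(14,0)]⟩⟩ ⟨true,0,⟨0,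
  []⟩,⟨3,[(5,0),(12,0),(10,1)]⟩⟩ ⟨false,1,⟨3,[(2,1),(18,0),(0,0),(17,2)]⟩,⟨0,[(37,0)]⟩⟩,.o ⟨false,2,
  ⟨5,[(1,3),(2,3),(7,1),(8,1),(10,0),(7,6)]⟩,⟨4,[(2,1),(0,2),(3,0),(6,4),(17,0),(3,1)]⟩⟩,.o ⟨false,
  1,⟨1,[(1,1),(30,0),(7,0)]⟩,⟨0,[(22,0)]⟩⟩,.o ⟨false,1,⟨3,[(1,1),(3,1),(15,1),(10,0),(7,0)]⟩,⟨0,[(3,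
  0),(8,0),(1,0)]⟩⟩]⟩) (.R ⟨0,false,false,false,[1,0,0,0,-1],[0,1],[1,0,1,1],(⟨0,[(23,0)]⟩,⟨0,[(24,
  0)]⟩),(⟨0,[(34,0)]⟩,⟨0,[(33,0)]⟩),⟨0,[(0,0)]⟩,.k,.k,(.r (-1) ⟨3,[(2,1),(18,0),(0,0),(17,2)]⟩ ⟨3,
  [(7,0),(0,0),(7,0),(4,0),(0,0),(12,0)]⟩),(.r (-1) ⟨3,[(2,1),(18,0),(0,0),(17,2)]⟩ ⟨3,[(7,0),(0,0),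
  (7,0),(4,0),(0,0),(12,0)]⟩),.k,.k,⟨true,0,⟨0,[]⟩,⟨3,[(5,0),(12,0),(10,1)]⟩⟩,⟨false,0,⟨0,[(12,0),
  (1,0)]⟩,⟨3,[(1,1),(3,1),(15,1),(10,0),(7,0)]⟩⟩,⟨false,0,⟨11,[(7,3),(2,1),(10,0),(0,0),(17,0)]⟩,⟨3,
  [(2,1),(18,0),(0,0),(17,2)]⟩⟩,⟨true,(-1),⟨0,[(14,0)]⟩,⟨5,[(1,3),(2,3),(7,1),(8,1),(10,0),(7,0)]⟩⟩,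
  ⟨false,0,⟨0,[]⟩,⟨0,[]⟩⟩,⟨false,0,⟨0,[]⟩,⟨0,[]⟩⟩,[.a ⟨true,0,⟨0,[(1,0),(12,0),(25,0)]⟩,⟨0,[(38,
  0)]⟩⟩ ⟨true,0,⟨11,[(7,3),(2,1),(10,0),(0,0),(17,0)]⟩,⟨0,[(38,0)]⟩⟩ ⟨false,0,⟨1,[(10,0),(1,0),(1,
  0),(0,0)]⟩,⟨5,[(1,3),(2,3),(7,1),(8,1),(10,0),(7,0)]⟩⟩,.o ⟨false,1,⟨3,[(10,1),(10,0),(0,0),(17,
  0)]⟩,⟨2,[(2,1),(1,0),(2,0),(24,0)]⟩⟩,.o ⟨false,1,⟨1,[(1,1),(30,0),(7,0)]⟩,⟨0,[(22,0)]⟩⟩,.o ⟨false,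
  1,⟨3,[(1,1),(3,1),(15,1),(10,0),(7,0)]⟩,⟨0,[(3,0),(8,0),(1,0)]⟩⟩]⟩))))))

theorem ok27 : chk K t27 l23 = true := by decide +kernel

noncomputable def t28 : Tre :=
  (.Q [0,-1,0,-2,1,0,0,0,-1,-1,0,1] (.p true [0,0,0,0,1] [1] (⟨0,[(19,0)]⟩,⟨0,[(18,0)]⟩) .k 1 (⟨0,
  []⟩,⟨0,[]⟩) .k .k) (.R ⟨1,false,false,false,[1,-1],[0,0,0,0,1],[1,1],(⟨0,[(29,0)]⟩,⟨0,[(30,0)]⟩),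
  (⟨0,[(20,0)]⟩,⟨0,[(19,0)]⟩),⟨0,[(15,0),(0,0)]⟩,.k,.k,(.r (-1) ⟨4,[(8,3),(8,0),(0,0),(12,1),(2,
  5)]⟩ ⟨5,[(3,3),(2,1),(10,0),(0,0),(17,0)]⟩),(.r (-1) ⟨3,[(8,1),(8,0),(0,0),(15,1),(1,0)]⟩ ⟨3,[(3,
  0),(0,0),(7,0),(4,0),(0,0),(12,0)]⟩),(.r (-1) ⟨0,[(8,0),(25,0)]⟩ ⟨0,[(4,0),(7,0)]⟩),.k,⟨true,0,⟨0,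
  []⟩,⟨1,[(24,0),(0,0)]⟩⟩,⟨false,0,⟨0,[(1,0),(16,0)]⟩,⟨2,[(0,0),(2,0),(13,1),(10,0)]⟩⟩,⟨false,0,⟨11,
  [(3,3),(2,1),(10,0),(0,0),(17,0)]⟩,⟨3,[(8,1),(8,0),(0,0),(15,1),(1,0)]⟩⟩,⟨true,(-1),⟨0,[(10,0)]⟩,
  ⟨14,[(0,10),(2,1),(13,3),(10,1),(2,2),(0,2)]⟩⟩,⟨false,0,⟨0,[(2,0)]⟩,⟨3,[(8,1),(8,0),(0,0),(15,5),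
  (1,0)]⟩⟩,⟨false,0,⟨0,[(6,0),(4,0)]⟩,⟨0,[(0,0)]⟩⟩,[.e ⟨false,0,⟨0,[(32,0),(1,0)]⟩,⟨1,[(17,0),(0,0),
  (17,0)]⟩⟩ ⟨false,0,⟨0,[(11,0),(23,0)]⟩,⟨0,[(0,0),(1,0)]⟩⟩,.o ⟨false,0,⟨0,[(18,0)]⟩,⟨8,[(0,6),(1,
  2),(0,0),(13,1),(10,0),(3,5)]⟩⟩,.e ⟨false,0,⟨0,[]⟩,⟨1,[(17,0),(0,0),(17,0)]⟩⟩ ⟨false,0,⟨1,[(11,1),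
  (23,0),(0,0)]⟩,⟨0,[(0,0),(1,0)]⟩⟩,.a ⟨true,0,⟨0,[(24,0),(0,0)]⟩,⟨0,[(1,0)]⟩⟩ ⟨true,0,⟨0,[(32,0),
  (1,0)]⟩,⟨1,[(24,0),(0,0)]⟩⟩ ⟨false,0,⟨0,[(1,0),(16,0)]⟩,⟨5,[(0,3),(2,3),(13,1),(10,0),(7,2)]⟩⟩]⟩)
  (.Q [0,0,0,0,1,0,-1,0,-1,-1,1,1] (.p true [0,0,1] [1,0,0,0,-1] (⟨0,[(27,0)]⟩,⟨0,[(26,0)]⟩) .k 2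
  (⟨0,[(19,0)]⟩,⟨0,[(20,0)]⟩) .k (.r 0 ⟨0,[(4,0),(27,0),(1,1)]⟩ ⟨0,[(7,0),(26,0)]⟩)) (.Q [0,0,1,0,
  -1,0,0,0,1,1,0,-1] (.p false [0,0,0,0,1] [1] (⟨0,[(21,0)]⟩,⟨0,[(20,0)]⟩) .k 1 (⟨0,[]⟩,⟨0,[]⟩) .k
  .k) (.K ⟨0,[1,0,0,0,-1],1,1,(⟨0,[(21,0)]⟩,⟨0,[(22,0)]⟩),.k,(.r (-1) ⟨3,[(10,1),(8,0),(0,0),(15,1),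
  (1,0)]⟩ ⟨3,[(5,0),(0,0),(7,0),(4,0),(0,0),(12,0)]⟩),(.r (-1) ⟨11,[(5,3),(2,1),(10,6),(0,6),(17,
  6)]⟩ ⟨0,[(34,0),(1,1)]⟩),.k,.k,[⟨0,[(1,0)]⟩,⟨0,[(0,0)]⟩,⟨0,[(13,0),(26,0)]⟩,⟨0,[(1,0),(9,0)]⟩]⟩)
  (.Q [0,0,0,0,0,-1,0,0,0,0,0,1] (.ed false [1,-1,0,0,1] .k) (.R ⟨1,false,false,true,[0,0,0,0,1],[1,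
  -1],[0,1,0,-1],(⟨0,[(23,0)]⟩,⟨0,[(22,0)]⟩),(⟨0,[(32,0)]⟩,⟨0,[(33,0)]⟩),⟨0,[(0,0)]⟩,.k,.k,(.r 0 ⟨0,
  [(1,0),(12,0),(22,0)]⟩ ⟨11,[(6,3),(2,1),(10,6),(0,6),(17,6)]⟩),(.r 0 ⟨3,[(6,0),(0,0),(7,0),(4,0),
  (0,0),(12,0)]⟩ ⟨3,[(11,1),(8,0),(0,0),(15,1),(1,0)]⟩),.k,.k,⟨true,0,⟨1,[(27,0),(0,0)]⟩,⟨0,[]⟩⟩,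
  ⟨false,1,⟨1,[(1,0),(0,0),(24,0)]⟩,⟨1,[(14,1),(23,0),(0,0)]⟩⟩,⟨true,0,⟨0,[(37,0)]⟩,⟨0,[(36,0)]⟩⟩,
  ⟨true,1,⟨1,[(1,0),(0,0),(24,0),(9,1)]⟩,⟨0,[(13,0)]⟩⟩,⟨false,1,⟨1,[(20,0),(0,0),(17,0)]⟩,⟨0,[]⟩⟩,
  ⟨true,1,⟨1,[(1,0),(0,0),(24,0)]⟩,⟨0,[(14,0)]⟩⟩,[.e ⟨false,0,⟨0,[(1,0),(12,0),(22,0)]⟩,⟨3,[(9,1),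
  (10,0),(0,0),(17,0)]⟩⟩ ⟨false,1,⟨3,[(1,2),(0,0),(24,0),(6,1),(2,3)]⟩,⟨1,[(3,0),(10,0),(24,1)]⟩⟩,
  .a ⟨true,0,⟨0,[(37,0)]⟩,⟨7,[(4,2),(1,1),(2,1),(19,4),(0,4)]⟩⟩ ⟨true,0,⟨0,[(37,0)]⟩,⟨11,[(6,3),(2,
  1),(10,0),(0,0),(17,0)]⟩⟩ ⟨false,1,⟨0,[(1,0),(35,0)]⟩,⟨3,[(9,1),(4,3),(5,0),(0,0),(17,0)]⟩⟩,.o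
  ⟨false,0,⟨0,[(21,0)]⟩,⟨1,[(1,0),(0,0),(24,0)]⟩⟩,.o ⟨false,0,⟨1,[(21,1),(5,0),(0,0)]⟩,⟨0,[(1,
  0)]⟩⟩]⟩) (.R ⟨0,false,false,true,[0,0,0,0,1],[0,1],[1,1,1,1],(⟨0,[(23,0)]⟩,⟨0,[(22,0)]⟩),(⟨0,[(33,
  0)]⟩,⟨0,[(32,0)]⟩),⟨0,[(0,0)]⟩,.k,.k,(.r 0 ⟨0,[(1,0),(12,0),(22,0)]⟩ ⟨11,[(6,3),(2,1),(10,6),(0,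
  6),(17,6)]⟩),(.r 0 ⟨0,[(1,0),(12,0),(22,0)]⟩ ⟨11,[(6,3),(2,1),(10,6),(0,6),(17,6)]⟩),.k,.k,⟨true,
  0,⟨0,[]⟩,⟨1,[(27,0),(0,0)]⟩⟩,⟨false,1,⟨2,[(1,1),(2,1),(15,0)]⟩,⟨1,[(21,1),(5,0),(0,0)]⟩⟩,⟨true,0,
  ⟨11,[(6,3),(2,1),(10,0),(0,0),(17,0)]⟩,⟨0,[(1,0),(12,0),(22,0)]⟩⟩,⟨false,1,⟨0,[(1,0),(2,0),(1,0),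
  (30,0),(1,0)]⟩,⟨0,[(21,0),(15,0)]⟩⟩,⟨false,0,⟨0,[]⟩,⟨0,[]⟩⟩,⟨false,0,⟨0,[]⟩,⟨0,[]⟩⟩,[.o ⟨false,0,
  ⟨0,[(36,0)]⟩,⟨1,[(31,0),(5,1),(1,0)]⟩⟩,.a ⟨true,0,⟨7,[(4,2),(1,1),(2,1),(19,4),(0,4)]⟩,⟨0,[(37,
  0)]⟩⟩ ⟨true,0,⟨11,[(6,3),(2,1),(10,0),(0,0),(17,0)]⟩,⟨0,[(37,0)]⟩⟩ ⟨false,1,⟨11,[(1,6),(2,6),(1,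
  2),(2,2),(10,4)]⟩,⟨0,[(21,0),(15,0)]⟩⟩,.o ⟨false,0,⟨0,[(21,0)]⟩,⟨1,[(1,0),(0,0),(24,0)]⟩⟩,.o
  ⟨false,0,⟨1,[(21,1),(5,0),(0,0)]⟩,⟨0,[(1,0)]⟩⟩]⟩))) (.Q [0,0,1,0,-1,0,0,0,1,0,0,-1] (.p false [0,
  0,0,0,1] [] (⟨0,[(21,0)]⟩,⟨0,[(20,0)]⟩) .k 0 (⟨0,[]⟩,⟨0,[]⟩) .k .k) (.Q [0,0,0,-1,-1,0,0,0,1,0,0,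
  -1] (.p false [0,0,0,0,1] [] (⟨0,[(22,0)]⟩,⟨0,[(21,0)]⟩) .k 0 (⟨0,[]⟩,⟨0,[]⟩) .k .k) (.R ⟨2,true,
  false,false,[0,1],[0,0,0,0,1],[1,0,1,1],(⟨0,[]⟩,⟨0,[]⟩),(⟨0,[(23,0)]⟩,⟨0,[(22,0)]⟩),⟨0,[]⟩,.k,.k,
  .k,(.r (-1) ⟨11,[(6,3),(2,1),(10,6),(0,6),(17,6)]⟩ ⟨0,[(35,0),(1,1)]⟩),.k,.k,⟨false,1,⟨3,[(9,1),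
  (10,0),(0,0),(17,0)]⟩,⟨0,[(35,0),(1,1)]⟩⟩,⟨true,(-1),⟨0,[(1,0)]⟩,⟨0,[(20,0)]⟩⟩,⟨true,0,⟨0,[]⟩,⟨0,
  [(41,0)]⟩⟩,⟨false,(-1),⟨0,[(0,0)]⟩,⟨3,[(9,1),(10,4),(0,0),(17,0)]⟩⟩,⟨false,1,⟨3,[(9,1),(10,0),(0,
  0),(17,0)]⟩,⟨0,[(37,0)]⟩⟩,⟨true,(-1),⟨2,[(0,0),(0,1),(32,0),(0,0)]⟩,⟨0,[(20,0)]⟩⟩,[]⟩) (.Q [0,0,0,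
  0,0,-1,0,0,0,0,0,1] (.ed false [1,-1,0,0,1] .k) (.S ⟨1,0,[0,1,0,-1],[0,0,0,0,1],[1,2],(⟨0,[(24,
  0)]⟩,⟨0,[(23,0)]⟩),⟨0,[(0,0)]⟩,.k,(.r 0 ⟨0,[(36,0),(1,1)]⟩ ⟨11,[(7,3),(2,1),(10,6),(0,6),(17,
  6)]⟩),⟨false,0,⟨0,[]⟩,⟨1,[(21,0),(0,0),(17,0)]⟩⟩,⟨true,0,⟨0,[(38,0)]⟩,⟨0,[(37,0)]⟩⟩,⟨true,0,⟨0,
  [(37,0)]⟩,⟨0,[(38,0)]⟩⟩,⟨false,1,⟨1,[(21,0),(0,0),(17,0)]⟩,⟨0,[]⟩⟩,[.o ⟨false,(-1),⟨0,[(2,0),(33,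
  0),(1,1)]⟩,⟨1,[(1,1),(30,0),(7,0)]⟩⟩,.a ⟨true,(-1),⟨1,[(2,0),(0,0),(1,0),(23,0),(8,1)]⟩,⟨0,[(1,
  0)]⟩⟩ ⟨false,0,⟨0,[(36,0),(1,0)]⟩,⟨1,[(21,0),(0,0),(17,0)]⟩⟩ ⟨true,0,⟨0,[(38,0)]⟩,⟨11,[(7,3),(2,
  1),(10,0),(0,0),(17,0)]⟩⟩,.e ⟨false,0,⟨0,[(42,0)]⟩,⟨0,[(40,0)]⟩⟩ ⟨false,0,⟨0,[(38,0)]⟩,⟨3,[(10,1),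
  (10,0),(0,0),(17,0)]⟩⟩,.o ⟨false,(-1),⟨0,[(2,0)]⟩,⟨1,[(21,1),(10,0),(6,0)]⟩⟩]⟩) (.I [0,2,1,0,-1]
  (.S ⟨1,0,[0,0,0,-1],[1,0,0,0,-1],[1,-1],(⟨0,[(24,0)]⟩,⟨0,[(25,0)]⟩),⟨0,[(1,0),(18,0),(0,0)]⟩,.k,
  (.r (-1) ⟨3,[(13,1),(8,0),(0,0),(15,1),(1,0)]⟩ ⟨3,[(8,0),(0,0),(7,0),(4,0),(0,0),(12,0)]⟩),⟨true,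
  0,⟨0,[]⟩,⟨0,[(43,0)]⟩⟩,⟨false,0,⟨0,[(39,0)]⟩,⟨3,[(11,1),(10,0),(0,0),(17,0)]⟩⟩,⟨false,1,⟨3,[(11,
  1),(10,0),(0,0),(17,0)]⟩,⟨0,[(39,0)]⟩⟩,⟨true,0,⟨0,[(43,0)]⟩,⟨0,[]⟩⟩,[.a ⟨true,1,⟨0,[(22,0),(16,
  0)]⟩,⟨3,[(3,2),(1,0),(0,2),(1,0),(32,0)]⟩⟩ ⟨false,1,⟨1,[(40,0),(0,0)]⟩,⟨0,[(43,0)]⟩⟩ ⟨true,0,⟨0,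
  [(39,0)]⟩,⟨11,[(8,3),(2,1),(10,0),(0,0),(17,0)]⟩⟩,.o ⟨false,2,⟨1,[(22,1),(10,0),(5,1),(1,0)]⟩,⟨0,
  [(3,0),(33,0)]⟩⟩,.a ⟨true,1,⟨0,[(22,0)]⟩,⟨1,[(3,0),(0,0),(1,0),(23,0)]⟩⟩ ⟨false,1,⟨0,[(41,0)]⟩,⟨0,
  [(43,0)]⟩⟩ ⟨true,0,⟨0,[(39,0)]⟩,⟨0,[(38,0)]⟩⟩,.a ⟨true,1,⟨1,[(22,1),(6,0),(0,0)]⟩,⟨0,[(3,0),(2,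
  0)]⟩⟩ ⟨true,1,⟨1,[(40,0),(0,0)]⟩,⟨0,[(0,0)]⟩⟩ ⟨false,1,⟨3,[(13,1),(8,0),(0,0),(15,1),(1,0)]⟩,⟨11,
  [(8,3),(2,1),(10,0),(0,0),(17,0)]⟩⟩]⟩) (.R ⟨0,false,false,true,[0,0,0,0,1],[0,1],[0,1,2,1],(⟨0,
  [(25,0)]⟩,⟨0,[(24,0)]⟩),(⟨0,[(35,0)]⟩,⟨0,[(34,0)]⟩),⟨0,[(1,0)]⟩,.k,.k,(.r 0 ⟨0,[(37,0),(1,1)]⟩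
  ⟨11,[(8,3),(2,1),(10,6),(0,6),(17,6)]⟩),(.r 0 ⟨0,[(37,0),(1,1)]⟩ ⟨11,[(8,3),(2,1),(10,6),(0,6),
  (17,6)]⟩),.k,.k,⟨true,0,⟨1,[(29,0),(0,0)]⟩,⟨0,[]⟩⟩,⟨false,2,⟨0,[(22,0),(17,0)]⟩,⟨0,[(3,0)]⟩⟩,
  ⟨false,0,⟨0,[(0,0),(7,0),(30,0)]⟩,⟨4,[(13,3),(8,0),(0,0),(12,1),(2,0)]⟩⟩,⟨true,1,⟨0,[(2,0)]⟩,⟨0,
  [(3,0),(33,0),(1,1)]⟩⟩,⟨false,0,⟨0,[]⟩,⟨0,[]⟩⟩,⟨false,0,⟨0,[]⟩,⟨0,[]⟩⟩,[.o ⟨false,0,⟨0,[(38,0)]⟩,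
  ⟨1,[(33,0),(5,1),(1,0)]⟩⟩,.a ⟨true,0,⟨7,[(6,2),(1,1),(2,1),(19,4),(0,4)]⟩,⟨0,[(39,0)]⟩⟩ ⟨false,0,
  ⟨11,[(8,3),(2,1),(10,0),(0,0),(17,0)]⟩,⟨4,[(13,3),(8,0),(0,0),(12,1),(2,0)]⟩⟩ ⟨true,1,⟨0,[(2,0)]⟩,
  ⟨0,[(3,0),(35,0)]⟩⟩,.e ⟨false,0,⟨3,[(8,1),(13,0),(0,0),(5,0),(0,0),(10,0)]⟩,⟨0,[(13,0)]⟩⟩ ⟨false,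
  1,⟨0,[(2,0)]⟩,⟨2,[(3,1),(9,0),(9,0),(15,1),(1,0)]⟩⟩,.o ⟨false,(-1),⟨0,[(3,0)]⟩,⟨1,[(22,1),(10,0),
  (6,0)]⟩⟩]⟩)))) (.Q [0,1,0,-1,-1,0,0,0,1,0,0,-1] (.p false [0,0,0,0,1] [] (⟨0,[(22,0)]⟩,⟨0,[(21,
  0)]⟩) .k 0 (⟨0,[]⟩,⟨0,[]⟩) .k .k) (.Q [0,1,0,0,-1,0,0,0,1,0,0,-1] (.p false [0,0,0,0,1] [] (⟨0,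
  [(23,0)]⟩,⟨0,[(22,0)]⟩) .k 0 (⟨0,[]⟩,⟨0,[]⟩) .k .k) (.Q [0,0,0,0,0,-1,0,0,0,0,0,1] (.ed false [1,
  -1,0,0,1] .k) (.I [0,2,0,-1,-1] (.Q [0,-2,0,0,2,0,0,0,-1,-1,0,1] (.p true [0,0,0,0,1] [1] (⟨0,
  [(26,0)]⟩,⟨0,[(25,0)]⟩) .k 1 (⟨0,[]⟩,⟨0,[]⟩) .k .k) (.R ⟨2,false,false,true,[0,1],[0,0,0,0,1],[1,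
  0,1,1],(⟨0,[]⟩,⟨0,[]⟩),(⟨0,[(27,0)]⟩,⟨0,[(26,0)]⟩),⟨0,[]⟩,.k,.k,.k,(.r (-1) ⟨11,[(10,3),(2,1),(10,
  6),(0,6),(17,6)]⟩ ⟨2,[(1,0),(13,0),(22,0),(2,0)]⟩),.k,.k,⟨true,1,⟨11,[(10,3),(2,1),(10,0),(0,0),
  (17,12)]⟩,⟨0,[(1,0)]⟩⟩,⟨false,0,⟨0,[(25,0)]⟩,⟨0,[(5,0)]⟩⟩,⟨true,0,⟨0,[]⟩,⟨0,[(45,0)]⟩⟩,⟨false,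
  (-1),⟨0,[(4,0)]⟩,⟨3,[(5,2),(4,0),(2,0),(10,0),(18,3)]⟩⟩,⟨false,1,⟨3,[(13,1),(10,0),(0,0),(17,0)]⟩,
  ⟨0,[(41,0)]⟩⟩,⟨false,(-1),⟨0,[(3,0)]⟩,⟨0,[(24,0),(18,0)]⟩⟩,[.o ⟨false,(-1),⟨5,[(3,2),(0,1),(5,0),
  (14,0),(12,2)]⟩,⟨0,[(0,0)]⟩⟩,.o ⟨false,(-1),⟨0,[(3,0)]⟩,⟨3,[(0,1),(23,2),(0,0),(9,0)]⟩⟩,.a ⟨true,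
  0,⟨1,[(8,0),(24,0),(0,0)]⟩,⟨1,[(31,0),(0,0)]⟩⟩ ⟨true,0,⟨11,[(10,3),(2,1),(10,0),(0,0),(17,0)]⟩,⟨2,
  [(1,0),(13,0),(22,0),(2,0)]⟩⟩ ⟨false,(-1),⟨2,[(4,1),(5,0),(14,0)]⟩,⟨0,[(5,0),(37,0)]⟩⟩,.e ⟨false,
  1,⟨3,[(13,1),(10,0),(0,0),(17,0)]⟩,⟨0,[(41,0)]⟩⟩ ⟨false,(-1),⟨0,[(3,0)]⟩,⟨0,[(24,0),(18,0)]⟩⟩]⟩)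
  (.S ⟨1,0,[0,1,0,-1],[0,0,0,0,1],[0,2,0,-1],(⟨0,[(27,0)]⟩,⟨0,[(26,0)]⟩),⟨0,[(2,0)]⟩,.k,(.r 0 ⟨2,
  [(1,0),(13,0),(22,0),(2,0)]⟩ ⟨11,[(10,3),(2,1),(10,6),(0,6),(17,6)]⟩),⟨false,0,⟨0,[(41,0)]⟩,⟨3,
  [(13,1),(10,0),(0,0),(17,0)]⟩⟩,⟨true,0,⟨0,[(41,0)]⟩,⟨0,[(40,0)]⟩⟩,⟨true,0,⟨0,[(45,0)]⟩,⟨0,[]⟩⟩,
  ⟨false,1,⟨1,[(24,0),(0,0),(17,0)]⟩,⟨0,[]⟩⟩,[.o ⟨false,(-1),⟨0,[(4,0)]⟩,⟨3,[(5,2),(4,0),(2,0),(10,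
  0),(10,1),(7,1)]⟩⟩,.a ⟨true,(-1),⟨0,[(0,0),(40,0),(1,0)]⟩,⟨3,[(5,2),(4,0),(2,0),(10,0)]⟩⟩ ⟨false,
  0,⟨2,[(1,0),(13,0),(22,0),(2,0)]⟩,⟨3,[(13,1),(10,0),(0,0),(17,0)]⟩⟩ ⟨true,0,⟨0,[(41,0)]⟩,⟨11,[(10,
  3),(2,1),(10,0),(0,0),(17,0)]⟩⟩,.a ⟨true,(-1),⟨0,[(0,0),(42,0)]⟩,⟨0,[(24,0)]⟩⟩ ⟨true,(-1),⟨0,[(1,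
  0)]⟩,⟨3,[(13,1),(10,0),(0,0),(17,0)]⟩⟩ ⟨false,0,⟨0,[(41,0)]⟩,⟨3,[(13,1),(10,0),(0,0),(17,0)]⟩⟩,.a
  ⟨true,(-1),⟨0,[(6,0),(25,0)]⟩,⟨0,[(5,0)]⟩⟩ ⟨false,0,⟨2,[(1,0),(13,0),(22,0),(2,0)]⟩,⟨11,[(10,3),
  (2,1),(10,0),(0,0),(17,12)]⟩⟩ ⟨true,0,⟨2,[(1,0),(13,0),(22,0),(2,0)]⟩,⟨11,[(10,3),(2,1),(10,0),(0,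
  0),(17,0)]⟩⟩]⟩)) (.S ⟨1,0,[0,2,0,-1],[0,0,0,0,1],[1,1],(⟨0,[(26,0)]⟩,⟨0,[(25,0)]⟩),⟨0,[(1,0)]⟩,.k,
  (.r 0 ⟨0,[(3,0),(0,0)]⟩ ⟨11,[(9,3),(2,1),(10,6),(0,6),(17,6)]⟩),⟨true,0,⟨0,[]⟩,⟨0,[(44,0)]⟩⟩,
  ⟨false,0,⟨0,[(40,0)]⟩,⟨3,[(12,1),(10,0),(0,0),(17,0)]⟩⟩,⟨false,1,⟨3,[(12,1),(10,0),(0,0),(17,0)]⟩,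
  ⟨0,[(40,0)]⟩⟩,⟨true,0,⟨0,[(44,0)]⟩,⟨0,[]⟩⟩,[.e ⟨false,0,⟨1,[(3,0),(0,0),(33,0)]⟩,⟨1,[(23,0),(0,0),
  (17,0)]⟩⟩ ⟨false,0,⟨0,[(37,0),(2,0)]⟩,⟨0,[(0,0)]⟩⟩,.o ⟨false,(-1),⟨0,[(3,0)]⟩,⟨7,[(0,3),(3,2),(4,
  0),(2,0),(10,4),(10,3)]⟩⟩,.e ⟨false,0,⟨0,[]⟩,⟨1,[(23,0),(0,0),(17,0)]⟩⟩ ⟨false,0,⟨0,[(40,0),(3,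
  0)]⟩,⟨0,[(0,0)]⟩⟩,.a ⟨true,(-1),⟨0,[(5,0),(25,0)]⟩,⟨0,[(4,0)]⟩⟩ ⟨true,0,⟨1,[(3,0),(0,0),(33,0)]⟩,
  ⟨1,[(30,0),(0,0)]⟩⟩ ⟨false,0,⟨0,[(3,0),(0,0)]⟩,⟨11,[(9,3),(2,1),(10,0),(0,0),(17,12)]⟩⟩]⟩)) (.Q
  [0,0,-1,1,1,0,0,0,-1,0,0,1] (.p true [0,0,0,0,1] [] (⟨0,[(25,0)]⟩,⟨0,[(24,0)]⟩) .k 0 (⟨0,[]⟩,⟨0,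
  []⟩) .k .k) (.Q [0,0,2,0,-1,0,0,0,1,0,0,-1] (.p false [0,0,0,0,1] [] (⟨0,[(26,0)]⟩,⟨0,[(25,0)]⟩)
  .k 0 (⟨0,[]⟩,⟨0,[]⟩) .k .k) (.R ⟨0,false,false,true,[0,0,0,0,1],[0,1],[1],(⟨0,[(27,0)]⟩,⟨0,[(26,
  0)]⟩),(⟨0,[(37,0)]⟩,⟨0,[(36,0)]⟩),⟨0,[(2,0)]⟩,.k,.k,(.r 0 ⟨0,[(4,0),(0,0)]⟩ ⟨11,[(10,3),(2,1),(10,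
  6),(0,6),(17,6)]⟩),(.r 0 ⟨0,[(4,0),(0,0)]⟩ ⟨11,[(10,3),(2,1),(10,6),(0,6),(17,6)]⟩),.k,.k,⟨false,
  1,⟨0,[(15,0)]⟩,⟨3,[(10,0),(0,0),(7,0),(4,0),(0,0),(12,0)]⟩⟩,⟨true,1,⟨0,[(5,0)]⟩,⟨0,[(0,0)]⟩⟩,
  ⟨false,1,⟨0,[(43,0)]⟩,⟨0,[(45,0)]⟩⟩,⟨true,1,⟨6,[(1,2),(8,0),(2,0),(10,3)]⟩,⟨0,[(4,0)]⟩⟩,⟨false,0,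
  ⟨0,[]⟩,⟨0,[]⟩⟩,⟨false,0,⟨0,[]⟩,⟨0,[]⟩⟩,[.o ⟨false,0,⟨0,[(40,0)]⟩,⟨1,[(35,0),(5,1),(1,0)]⟩⟩,.e
  ⟨false,1,⟨1,[(42,0),(0,0)]⟩,⟨0,[(45,0)]⟩⟩ ⟨false,1,⟨0,[(1,0)]⟩,⟨0,[(25,0),(15,0)]⟩⟩,.a ⟨true,(-1),
  ⟨0,[(0,0),(7,0)]⟩,⟨0,[(24,0)]⟩⟩ ⟨true,0,⟨0,[]⟩,⟨0,[(45,0)]⟩⟩ ⟨false,1,⟨6,[(1,2),(8,0),(2,0),(10,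
  3)]⟩,⟨0,[(0,0),(14,0)]⟩⟩,.e ⟨false,1,⟨1,[(42,0),(0,0)]⟩,⟨1,[(0,0),(23,0)]⟩⟩ ⟨false,1,⟨0,[(1,0)]⟩,
  ⟨1,[(0,0),(24,0),(15,1),(1,0)]⟩⟩]⟩) (.Q [0,0,-1,-1,0,0,1,0,0,0,-1] (.p false [0,0,1] [] (⟨0,[(34,
  0)]⟩,⟨0,[(33,0)]⟩) .k 0 (⟨0,[]⟩,⟨0,[]⟩) .k .k) (.Q [0,0,0,0,0,2,0,0,0,-1,1] (.p true [0,0,1] [1]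
  (⟨0,[(35,0)]⟩,⟨0,[(34,0)]⟩) .k 1 (⟨0,[]⟩,⟨0,[]⟩) .k .k) (.R ⟨0,false,false,false,[1,-1,-1],[1,-1],
  [1,1],(⟨0,[(24,0)]⟩,⟨0,[(0,0),(37,0)]⟩),(⟨0,[(38,0)]⟩,⟨0,[(39,0)]⟩),⟨0,[(0,0)]⟩,.k,.k,(.r (-1) ⟨8,
  [(1,3),(14,0),(0,6),(5,1),(8,7),(4,0),(5,7)]⟩ ⟨11,[(12,3),(0,11),(1,1),(10,0),(0,0),(17,0)]⟩),.k,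
  .k,.k,⟨false,0,⟨0,[(42,0)]⟩,⟨3,[(17,1),(8,0),(0,0),(15,1),(1,0)]⟩⟩,⟨true,0,⟨0,[(18,0)]⟩,⟨0,[(34,
  0)]⟩⟩,⟨false,0,⟨0,[(14,0)]⟩,⟨0,[(1,0),(30,0),(12,0)]⟩⟩,⟨true,0,⟨0,[(1,0),(11,0)]⟩,⟨0,[(32,0)]⟩⟩,
  ⟨false,0,⟨0,[]⟩,⟨0,[]⟩⟩,⟨false,0,⟨0,[]⟩,⟨0,[]⟩⟩,[.a ⟨true,0,⟨0,[(43,0)]⟩,⟨15,[(0,4),(9,5),(1,3),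
  (2,3),(19,4),(2,9)]⟩⟩ ⟨false,0,⟨2,[(2,0),(2,0),(34,0)]⟩,⟨1,[(26,0),(0,0),(17,0)]⟩⟩ ⟨true,0,⟨0,[(1,
  0)]⟩,⟨11,[(12,3),(2,1),(10,0),(0,0),(6,11),(10,0)]⟩⟩,.o ⟨false,1,⟨1,[(37,0),(5,1),(1,0)]⟩,⟨0,[(42,
  0)]⟩⟩,.a ⟨true,0,⟨0,[(34,0)]⟩,⟨0,[(30,0)]⟩⟩ ⟨false,0,⟨0,[]⟩,⟨1,[(26,0),(0,0),(17,0)]⟩⟩ ⟨true,0,⟨0,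
  [(1,0)]⟩,⟨0,[(13,0),(18,0)]⟩⟩,.a ⟨true,0,⟨1,[(33,0),(0,2)]⟩,⟨0,[(2,0),(5,0)]⟩⟩ ⟨true,0,⟨2,[(2,0),
  (2,0),(34,0)]⟩,⟨1,[(33,0),(0,0)]⟩⟩ ⟨false,1,⟨11,[(1,7),(13,1),(1,7),(5,1),(13,0),(7,0)]⟩,⟨11,[(12,
  3),(2,1),(10,0),(0,0),(6,11),(10,0)]⟩⟩]⟩) (.I [0,0,0,-1,0,0,0,-1] (.I [0,0,0,-1,0,0,0,1] (.S ⟨1,0,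
  [0,1,1,0,0,0,0,-1],[1,1,-1],[1,0,1,1,0,0,0,-1],(⟨0,[(37,0),(3,0)]⟩,⟨0,[(27,0)]⟩),⟨0,[(37,0)]⟩,.k,
  .k,⟨true,0,⟨0,[]⟩,⟨0,[(49,0)]⟩⟩,⟨false,0,⟨0,[(45,0)]⟩,⟨3,[(17,1),(10,0),(0,0),(17,0)]⟩⟩,⟨false,1,
  ⟨3,[(17,1),(10,0),(0,0),(17,0)]⟩,⟨0,[(45,0)]⟩⟩,⟨true,0,⟨0,[(49,0)]⟩,⟨0,[]⟩⟩,[.a ⟨true,0,⟨0,[(34,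
  0)]⟩,⟨0,[(0,0),(2,0),(8,0),(1,0),(32,0)]⟩⟩ ⟨true,0,⟨0,[(1,0),(11,0)]⟩,⟨0,[(0,0)]⟩⟩ ⟨false,0,⟨1,
  [(3,0),(19,0),(10,0)]⟩,⟨0,[(15,0),(3,0)]⟩⟩,.o ⟨false,1,⟨1,[(34,1),(4,0),(7,0)]⟩,⟨0,[(3,0),(11,
  0)]⟩⟩,.o ⟨false,1,⟨0,[(12,0),(23,0),(2,0)]⟩,⟨0,[(35,0)]⟩⟩,.o ⟨false,1,⟨1,[(36,1),(2,0),(6,0)]⟩,⟨0,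
  [(20,0)]⟩⟩]⟩) (.Q [0,0,0,0,-1,0,0,0,1,1,0,-1] (.p false [0,0,0,0,1] [1] (⟨0,[(31,0)]⟩,⟨0,[(30,
  0)]⟩) .k 1 (⟨0,[]⟩,⟨0,[]⟩) .k .k) (.Q [0,1,-1,0,1,0,-1,-1,-1,-1,1,1] (.p true [0,0,1] [1,0,0,0,
  -1] (⟨0,[(39,0)]⟩,⟨0,[(38,0)]⟩) .k 2 (⟨0,[(31,0)]⟩,⟨0,[(32,0)]⟩) .k (.r 0 ⟨1,[(5,0),(3,0),(6,0),
  (17,0),(2,0)]⟩ ⟨3,[(2,1),(16,1),(9,0),(0,0),(17,0)]⟩)) (.R ⟨0,false,false,true,[0,0,0,0,1],[1,0,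
  -1],[0,1,1],(⟨0,[(33,0)]⟩,⟨0,[(32,0)]⟩),(⟨0,[(39,0)]⟩,⟨0,[(40,0)]⟩),⟨0,[(8,0)]⟩,.k,.k,(.r 0 ⟨2,
  [(6,0),(3,0),(33,0),(2,1)]⟩ ⟨11,[(16,3),(2,1),(10,6),(0,6),(17,6)]⟩),.k,.k,.k,⟨true,0,⟨0,[(17,0),
  (29,0)]⟩,⟨1,[(2,0),(0,0)]⟩⟩,⟨false,2,⟨1,[(11,1),(26,1),(2,0),(6,0)]⟩,⟨0,[(12,0)]⟩⟩,⟨true,0,⟨1,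
  [(37,0),(0,0)]⟩,⟨2,[(6,0),(2,0),(34,0)]⟩⟩,⟨false,2,⟨10,[(0,6),(2,2),(12,0),(3,0),(9,3),(7,3),(2,
  1),(7,8)]⟩,⟨0,[(1,0),(3,0),(11,0)]⟩⟩,⟨false,0,⟨0,[]⟩,⟨0,[]⟩⟩,⟨false,0,⟨0,[]⟩,⟨0,[]⟩⟩,[.e ⟨false,0,
  ⟨0,[(51,0)]⟩,⟨1,[(48,0),(0,0)]⟩⟩ ⟨false,1,⟨0,[(0,0)]⟩,⟨0,[(1,0),(33,0),(13,0)]⟩⟩,.o ⟨false,1,⟨1,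
  [(36,1),(4,0),(7,0)]⟩,⟨0,[(5,0),(11,0)]⟩⟩,.a ⟨true,(-1),⟨0,[(1,0)]⟩,⟨0,[(30,0)]⟩⟩ ⟨false,0,⟨1,
  [(37,0),(0,0)]⟩,⟨1,[(48,0),(0,0)]⟩⟩ ⟨true,1,⟨5,[(0,3),(2,0),(12,0),(13,1),(5,0),(1,0),(2,0),(5,
  0)]⟩,⟨0,[(1,0),(3,0),(11,0)]⟩⟩,.e ⟨true,0,⟨0,[(51,0)]⟩,⟨0,[]⟩⟩ ⟨true,1,⟨0,[(0,0)]⟩,⟨0,[(12,0),(4,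
  0),(29,0)]⟩⟩]⟩) (.R ⟨0,false,false,true,[0,0,0,0,1],[1,0,-1],[0,1,1],(⟨0,[(33,0)]⟩,⟨0,[(32,0)]⟩),
  (⟨0,[(39,0)]⟩,⟨0,[(40,0)]⟩),⟨0,[(8,0)]⟩,.k,.k,(.r 0 ⟨2,[(6,0),(3,0),(33,0),(2,1)]⟩ ⟨11,[(16,3),(2,
  1),(10,6),(0,6),(17,6)]⟩),.k,.k,.k,⟨true,0,⟨0,[(17,0),(29,0)]⟩,⟨1,[(2,0),(0,0)]⟩⟩,⟨false,2,⟨1,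
  [(11,1),(26,1),(2,0),(6,0)]⟩,⟨0,[(12,0)]⟩⟩,⟨true,0,⟨1,[(37,0),(0,0)]⟩,⟨2,[(6,0),(2,0),(34,0)]⟩⟩,
  ⟨false,2,⟨1,[(2,0),(0,0),(7,1),(26,1),(2,0),(7,0)]⟩,⟨2,[(0,1),(9,0),(3,0),(11,0)]⟩⟩,⟨false,0,⟨0,
  []⟩,⟨0,[]⟩⟩,⟨false,0,⟨0,[]⟩,⟨0,[]⟩⟩,[.a ⟨true,0,⟨0,[(36,0)]⟩,⟨0,[(0,0),(10,0)]⟩⟩ ⟨false,0,⟨0,[(51,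
  0)]⟩,⟨1,[(48,0),(0,0)]⟩⟩ ⟨true,1,⟨1,[(3,0),(2,1),(9,0),(19,0),(1,0),(2,0),(5,0)]⟩,⟨0,[(0,0)]⟩⟩,.o
  ⟨false,1,⟨1,[(36,1),(4,0),(7,0)]⟩,⟨0,[(5,0),(11,0)]⟩⟩,.a ⟨true,(-1),⟨0,[(1,0)]⟩,⟨0,[(30,0)]⟩⟩
  ⟨false,0,⟨1,[(37,0),(0,0)]⟩,⟨1,[(48,0),(0,0)]⟩⟩ ⟨true,1,⟨1,[(3,0),(2,1),(9,0),(19,0),(1,0),(2,0),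
  (5,0)]⟩,⟨2,[(0,1),(9,0),(3,0),(11,0)]⟩⟩,.a ⟨true,(-1),⟨4,[(0,1),(0,1),(1,0),(20,0),(0,0),(12,1)]⟩,
  ⟨0,[(11,0)]⟩⟩ ⟨true,0,⟨0,[(51,0)]⟩,⟨0,[]⟩⟩ ⟨false,2,⟨1,[(11,1),(24,1),(4,0),(7,0)]⟩,⟨0,[(0,
  0)]⟩⟩]⟩)) (.R ⟨2,false,false,false,[0,1],[0,0,0,0,1],[0,1,1],(⟨0,[]⟩,⟨0,[]⟩),(⟨0,[(32,0)]⟩,⟨0,
  [(31,0)]⟩),⟨0,[]⟩,.k,.k,.k,(.r (-1) ⟨11,[(15,3),(2,1),(10,6),(0,6),(17,6)]⟩ ⟨2,[(5,0),(3,0),(33,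
  0),(2,1)]⟩),.k,.k,⟨true,0,⟨1,[(36,0),(0,0)]⟩,⟨0,[]⟩⟩,⟨false,0,⟨0,[(30,0)]⟩,⟨0,[(10,0)]⟩⟩,⟨false,0,
  ⟨0,[(46,0)]⟩,⟨3,[(18,1),(10,0),(0,0),(17,0)]⟩⟩,⟨true,(-1),⟨0,[(9,0)]⟩,⟨6,[(6,2),(8,0),(2,0),(10,
  3)]⟩⟩,⟨true,0,⟨0,[(50,0)]⟩,⟨0,[]⟩⟩,⟨true,(-1),⟨0,[(8,0)]⟩,⟨0,[(29,0)]⟩⟩,[.o ⟨false,(-1),⟨0,[(8,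
  0)]⟩,⟨1,[(29,1),(10,0),(7,0)]⟩⟩,.o ⟨false,0,⟨0,[(30,0)]⟩,⟨0,[(0,0)]⟩⟩,.a ⟨true,0,⟨1,[(13,0),(24,
  0),(0,0)]⟩,⟨1,[(36,0),(0,0)]⟩⟩ ⟨false,0,⟨1,[(36,0),(0,0)]⟩,⟨1,[(47,0),(0,0)]⟩⟩ ⟨true,(-1),⟨2,[(9,
  1),(5,0),(14,0)]⟩,⟨0,[(10,0)]⟩⟩,.e ⟨true,0,⟨0,[(50,0)]⟩,⟨0,[]⟩⟩ ⟨true,(-1),⟨0,[(8,0)]⟩,⟨0,[(29,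
  0)]⟩⟩]⟩))) (.S ⟨1,0,[0,0,0,-1,0,0,0,-1],[1,0,-1],[0,1,0,-1,0,0,0,-1],(⟨0,[(36,0)]⟩,⟨0,[(37,0)]⟩),
  ⟨0,[(25,0)]⟩,.k,.k,⟨false,0,⟨0,[(44,0)]⟩,⟨3,[(16,1),(10,0),(0,0),(17,0)]⟩⟩,⟨true,0,⟨0,[(44,0)]⟩,
  ⟨0,[(43,0)]⟩⟩,⟨true,0,⟨0,[(48,0)]⟩,⟨0,[]⟩⟩,⟨false,1,⟨1,[(27,0),(0,0),(17,0)]⟩,⟨0,[]⟩⟩,[.o ⟨false,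
  1,⟨1,[(33,1),(4,0),(5,1),(1,0)]⟩,⟨0,[(0,0),(18,0)]⟩⟩,.e ⟨false,1,⟨0,[(18,0),(14,0),(0,0)]⟩,⟨0,[(0,
  0)]⟩⟩ ⟨false,1,⟨0,[(2,0),(30,0),(12,0)]⟩,⟨1,[(0,0),(13,0),(26,0)]⟩⟩,.o ⟨false,1,⟨1,[(35,1),(2,0),
  (6,0)]⟩,⟨0,[(19,0)]⟩⟩,.a ⟨true,0,⟨0,[(35,0)]⟩,⟨0,[(31,0)]⟩⟩ ⟨true,0,⟨0,[(2,0),(30,0)]⟩,⟨0,[(15,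
  0)]⟩⟩ ⟨false,1,⟨0,[(2,0),(30,0),(12,0)]⟩,⟨0,[(15,0)]⟩⟩]⟩))) (.Q [0,0,0,0,-1,0,0,0,1,1,0,-1] (.p
  false [0,0,0,0,1] [1] (⟨0,[(28,0)]⟩,⟨0,[(27,0)]⟩) .k 1 (⟨0,[]⟩,⟨0,[]⟩) .k .k) (.Q [0,-1,0,-1,1,0,
  0,0,-1,0,0,1] (.p true [0,0,0,0,1] [] (⟨0,[(29,0)]⟩,⟨0,[(28,0)]⟩) .k 0 (⟨0,[]⟩,⟨0,[]⟩) .k .k) (.S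
  ⟨1,1,[],[1,0,0,0,-1],[1],(⟨0,[(29,0)]⟩,⟨0,[(30,0)]⟩),⟨0,[(5,0),(19,0),(0,0)]⟩,.k,(.r (-1) ⟨1,[(0,
  0),(17,0),(9,0)]⟩ ⟨3,[(13,0),(0,0),(7,0),(4,0),(0,0),(12,0)]⟩),⟨false,0,⟨0,[]⟩,⟨1,[(27,0),(0,0),
  (17,0)]⟩⟩,⟨true,(-1),⟨0,[(6,0)]⟩,⟨0,[(27,0)]⟩⟩,⟨true,0,⟨0,[(43,0)]⟩,⟨0,[(44,0)]⟩⟩,⟨false,0,⟨1,[(6,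
  0),(9,0),(11,0)]⟩,⟨0,[(0,0)]⟩⟩,[.fo,.o ⟨false,1,⟨1,[(38,0),(7,0)]⟩,⟨0,[(48,0)]⟩⟩,.a ⟨true,1,⟨0,
  [(27,0)]⟩,⟨0,[(1,0)]⟩⟩ ⟨true,0,⟨0,[]⟩,⟨0,[(48,0)]⟩⟩ ⟨false,0,⟨1,[(1,1),(36,0),(7,0)]⟩,⟨0,[(27,
  0)]⟩⟩,.o ⟨false,1,⟨5,[(0,4),(2,0),(9,2),(24,2),(2,0),(2,0)]⟩,⟨3,[(6,2),(9,0),(1,1),(9,0)]⟩⟩]⟩)
  (.Q [0,-2,0,-1,2,0,0,0,-1,-1,0,1] (.p true [0,0,0,0,1] [1] (⟨0,[(30,0)]⟩,⟨0,[(29,0)]⟩) .k 1 (⟨0,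
  []⟩,⟨0,[]⟩) .k .k) (.S ⟨1,0,[0,-1,0,-1],[1,0,0,0,-1],[1],(⟨0,[(30,0)]⟩,⟨0,[(31,0)]⟩),⟨0,[(6,0),
  (19,0),(0,0)]⟩,.k,(.r (-1) ⟨1,[(0,0),(18,0),(2,0)]⟩ ⟨3,[(14,0),(0,0),(7,0),(4,0),(0,0),(12,0)]⟩),
  ⟨false,0,⟨0,[]⟩,⟨1,[(28,0),(0,0),(17,0)]⟩⟩,⟨true,0,⟨0,[(45,0)]⟩,⟨0,[(44,0)]⟩⟩,⟨true,0,⟨0,[(44,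
  0)]⟩,⟨0,[(45,0)]⟩⟩,⟨false,1,⟨1,[(28,0),(0,0),(17,0)]⟩,⟨0,[]⟩⟩,[.o ⟨false,2,⟨0,[(0,0),(48,0)]⟩,⟨0,
  [(1,0)]⟩⟩,.o ⟨false,2,⟨0,[(0,0)]⟩,⟨5,[(1,3),(5,0),(6,0),(14,0),(12,2)]⟩⟩,.a ⟨true,1,⟨0,[(28,0)]⟩,
  ⟨0,[(2,0)]⟩⟩ ⟨true,0,⟨0,[]⟩,⟨0,[(49,0)]⟩⟩ ⟨false,1,⟨0,[(0,0),(1,0)]⟩,⟨0,[(44,0)]⟩⟩,.o ⟨false,1,⟨2,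
  [(0,0),(3,0),(4,0),(4,1),(24,0),(5,2)]⟩,⟨1,[(1,0),(17,0),(9,0)]⟩⟩]⟩) (.Q [0,-2,0,-2,2,0,0,0,-1,-1,
  0,1] (.p true [0,0,0,0,1] [1] (⟨0,[(31,0)]⟩,⟨0,[(30,0)]⟩) .k 1 (⟨0,[]⟩,⟨0,[]⟩) .k .k) (.R ⟨1,
  false,false,true,[1,0,0,0,-1],[0,1],[1,1,1],(⟨0,[(31,0)]⟩,⟨0,[(32,0)]⟩),(⟨0,[(42,0)]⟩,⟨0,[(41,
  0)]⟩),⟨0,[(7,0),(19,0),(0,0)]⟩,.k,.k,(.r (-1) ⟨5,[(0,1),(19,1),(2,1),(23,0),(0,0)]⟩ ⟨3,[(15,0),(0,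
  0),(7,0),(4,0),(0,0),(12,0)]⟩),(.r (-1) ⟨5,[(0,1),(19,1),(2,1),(23,0),(0,0)]⟩ ⟨3,[(15,0),(0,0),(7,
  0),(4,0),(0,0),(12,0)]⟩),(.r (-1) ⟨1,[(0,0),(8,0),(3,0),(6,0)]⟩ ⟨0,[(16,0),(7,0)]⟩),.k,⟨true,0,⟨0,
  [(46,0)]⟩,⟨25,[(0,0),(14,7),(2,5),(7,0),(3,0),(6,1)]⟩⟩,⟨false,0,⟨0,[(13,0),(16,0)]⟩,⟨10,[(0,4),(4,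
  5),(9,7),(24,2),(2,0),(2,5)]⟩⟩,⟨true,(-1),⟨0,[(5,0),(3,0),(5,0),(30,0)]⟩,⟨1,[(47,0),(0,0)]⟩⟩,
  ⟨true,(-2),⟨0,[(1,0)]⟩,⟨7,[(0,5),(15,0),(1,0),(5,0),(4,1),(10,0),(2,1)]⟩⟩,⟨true,(-1),⟨0,[(5,0),(3,
  0),(5,0)]⟩,⟨5,[(0,1),(19,1),(2,1),(23,0),(0,0)]⟩⟩,⟨false,(-1),⟨0,[(12,0)]⟩,⟨0,[(0,0)]⟩⟩,[.o
  ⟨false,0,⟨0,[(45,0)]⟩,⟨2,[(0,0),(8,0),(30,0),(7,0)]⟩⟩,.a ⟨true,0,⟨0,[(4,0),(28,0)]⟩,⟨0,[(46,0)]⟩⟩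
  ⟨false,0,⟨0,[]⟩,⟨1,[(29,0),(0,0),(16,0)]⟩⟩ ⟨true,(-1),⟨0,[(1,0),(46,0)]⟩,⟨10,[(0,4),(4,5),(9,7),
  (24,2),(2,0),(2,16)]⟩⟩,.e ⟨false,0,⟨2,[(0,0),(14,0),(7,0)]⟩,⟨1,[(47,0),(0,0)]⟩⟩ ⟨false,(-1),⟨0,
  [(1,0),(46,0)]⟩,⟨7,[(0,5),(15,0),(1,0),(5,0),(4,1),(10,0),(2,1)]⟩⟩,.o ⟨false,1,⟨10,[(0,4),(4,5),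
  (9,7),(24,2),(2,0),(2,5)]⟩,⟨1,[(2,0),(17,0),(9,0)]⟩⟩]⟩) (.Q [0,0,0,1,-1,0,1,1,1,1,-1,-1] (.p
  false [0,0,1] [1,0,0,0,-1] (⟨0,[(39,0)]⟩,⟨0,[(38,0)]⟩) .k 2 (⟨0,[(31,0)]⟩,⟨0,[(32,0)]⟩) .k (.r 0
  ⟨1,[(5,0),(3,0),(6,0),(17,0),(2,0)]⟩ ⟨0,[(19,0),(26,0)]⟩)) (.Q [0,1,0,1,0,0,-1,-1,0,0,1] (.p true
  [0,0,1] [] (⟨0,[(40,0)]⟩,⟨0,[(39,0)]⟩) .k 0 (⟨0,[]⟩,⟨0,[]⟩) .k .k) (.Q [0,0,-2,0,1,0,-1,0,0,-1,1]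
  (.p true [0,0,1] [1] (⟨0,[(41,0)]⟩,⟨0,[(40,0)]⟩) .k 1 (⟨0,[]⟩,⟨0,[]⟩) .k .k) (.I [1,1,-2,-1,0,0,0,
  1] (.I [0,0,1,0,0,0,0,-1] (.Q [0,0,0,0,0,2,0,0,0,0,-1] (.p false [0,0,1] [] (⟨0,[(44,0)]⟩,⟨0,[(43,
  0)]⟩) .k 0 (⟨0,[]⟩,⟨0,[]⟩) .k .k) (.R ⟨0,false,false,true,[0,-1,1],[1,0,0,0,-1],[0,0,1],(⟨0,[(34,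
  0)]⟩,⟨1,[(0,0),(43,1),(0,0)]⟩),(⟨0,[(37,0)]⟩,⟨0,[(38,0)]⟩),⟨0,[(0,0)]⟩,.k,.k,(.r (-1) ⟨2,[(2,0),
  (23,2),(13,1),(2,1),(8,1)]⟩ ⟨0,[(1,0),(18,0)]⟩),(.r 0 ⟨2,[(2,1),(37,0),(2,0),(8,0)]⟩ ⟨0,[(30,0),
  (23,0)]⟩),.k,.k,⟨true,0,⟨1,[(42,0),(0,0)]⟩,⟨0,[]⟩⟩,⟨false,2,⟨0,[(3,0),(31,0)]⟩,⟨0,[(9,0),(32,
  0)]⟩⟩,⟨true,0,⟨2,[(1,1),(19,0),(8,0),(23,0)]⟩,⟨0,[(2,0)]⟩⟩,⟨false,2,⟨1,[(1,1),(8,1),(0,1),(34,0),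
  (7,0)]⟩,⟨0,[(5,0),(46,1)]⟩⟩,⟨false,0,⟨0,[]⟩,⟨0,[]⟩⟩,⟨false,0,⟨0,[]⟩,⟨0,[]⟩⟩,[.a ⟨true,1,⟨0,[(35,
  0)]⟩,⟨0,[(9,0)]⟩⟩ ⟨true,0,⟨1,[(42,0),(0,0)]⟩,⟨0,[]⟩⟩ ⟨false,2,⟨0,[(3,0),(31,0)]⟩,⟨0,[(9,0),(32,
  0)]⟩⟩,.o ⟨false,2,⟨1,[(35,1),(10,0),(7,0)]⟩,⟨0,[(14,0)]⟩⟩,.o ⟨false,0,⟨0,[(42,0)]⟩,⟨5,[(3,3),(31,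
  0),(0,0),(6,1),(2,0)]⟩⟩,.o ⟨false,0,⟨1,[(42,2),(0,0)]⟩,⟨0,[(3,0)]⟩⟩]⟩) (.I [1,0,0,0,0,0,0,1] (.R
  ⟨1,false,false,true,[0,0,1],[1,0,0,0,-1],[1,0,0,0,0,0,0,1],(⟨0,[(46,0)]⟩,⟨0,[(45,0)]⟩),(⟨0,[(38,
  0)]⟩,⟨0,[(39,0)]⟩),⟨0,[(35,0)]⟩,.k,.k,.k,.k,(.r 0 ⟨2,[(3,1),(37,0),(2,0),(8,0)]⟩ ⟨0,[(31,0),(23,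
  0)]⟩),.k,⟨true,0,⟨0,[(0,0)]⟩,⟨0,[(2,0)]⟩⟩,⟨false,2,⟨5,[(4,3),(31,6),(0,0),(6,1),(2,0)]⟩,⟨0,[(18,
  0)]⟩⟩,⟨true,0,⟨0,[]⟩,⟨0,[(57,0)]⟩⟩,⟨false,2,⟨1,[(2,1),(9,1),(31,1),(2,0),(7,0)]⟩,⟨0,[(0,0),(17,
  0)]⟩⟩,⟨false,1,⟨3,[(25,1),(10,0),(0,0),(17,0)]⟩,⟨0,[(53,0)]⟩⟩,⟨false,2,⟨1,[(2,1),(8,1),(0,1),(34,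
  0),(7,0)]⟩,⟨0,[(0,0),(17,0),(34,0)]⟩⟩,[.a ⟨true,1,⟨0,[(36,0)]⟩,⟨0,[(10,0)]⟩⟩ ⟨true,0,⟨0,[(0,0)]⟩,
  ⟨0,[(2,0)]⟩⟩ ⟨false,2,⟨5,[(4,3),(31,6),(0,0),(6,1),(2,0)]⟩,⟨0,[(18,0)]⟩⟩,.o ⟨false,2,⟨1,[(36,1),
  (10,0),(7,0)]⟩,⟨0,[(15,0)]⟩⟩,.o ⟨false,0,⟨0,[(28,0)]⟩,⟨2,[(4,0),(31,0),(0,0),(6,1),(2,0)]⟩⟩,.o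
  ⟨false,0,⟨0,[(43,0)]⟩,⟨5,[(4,3),(31,0),(0,0),(6,1),(2,0)]⟩⟩]⟩) (.Q [0,0,0,-2,1,0,-1,-1,-1,-1,1,1]
  (.p true [0,0,1] [1,0,0,0,-1] (⟨0,[(46,0)]⟩,⟨0,[(45,0)]⟩) .k 2 (⟨0,[(38,0)]⟩,⟨0,[(39,0)]⟩) .k (.r
  0 ⟨6,[(3,1),(19,1),(17,2),(2,2),(5,0)]⟩ ⟨5,[(2,3),(23,1),(0,1),(8,0),(0,0),(17,0)]⟩)) (.Q [0,0,1,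
  0,1,0,-1,0,-1,-1,1,1] (.p true [0,0,1] [1,0,0,0,-1] (⟨0,[(47,0)]⟩,⟨0,[(46,0)]⟩) .k 2 (⟨0,[(39,
  0)]⟩,⟨0,[(40,0)]⟩) .k (.r 0 ⟨6,[(4,1),(19,1),(17,2),(2,2),(5,0)]⟩ ⟨8,[(0,1),(2,1),(23,4),(0,0),(2,
  0),(2,0),(3,0),(17,1)]⟩)) (.R ⟨1,false,false,false,[1,0,0,0,-1],[0,1,1],[1,0,1],(⟨0,[(40,0)]⟩,⟨0,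
  [(41,0)]⟩),(⟨0,[(48,0),(2,0)]⟩,⟨0,[(36,0)]⟩),⟨1,[(3,0),(12,0),(19,0),(3,0)]⟩,.k,.k,(.r (-1) ⟨3,
  [(29,1),(8,0),(0,0),(15,1),(1,0)]⟩ ⟨3,[(24,0),(0,0),(7,0),(4,0),(0,0),(12,0)]⟩),(.r (-1) ⟨0,[(4,
  0),(24,0)]⟩ ⟨10,[(0,1),(23,0),(0,8),(6,1),(5,0),(0,0),(3,1),(8,2)]⟩),(.r (-1) ⟨1,[(1,0),(0,0),(17,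
  0),(8,1)]⟩ ⟨3,[(24,0),(0,4),(7,0),(4,0),(0,0),(12,0)]⟩),.k,⟨true,0,⟨1,[(1,0),(0,0),(17,0)]⟩,⟨0,
  [(25,0)]⟩⟩,⟨false,0,⟨0,[(20,0),(35,0)]⟩,⟨0,[(0,0)]⟩⟩,⟨false,0,⟨1,[(45,0),(0,0)]⟩,⟨1,[(56,0),(0,
  0)]⟩⟩,⟨false,(-1),⟨0,[(8,0)]⟩,⟨4,[(0,1),(0,2),(26,1),(0,0),(8,0),(0,0),(17,0)]⟩⟩,⟨false,0,⟨11,
  [(24,3),(2,1),(10,0),(0,0),(17,0)]⟩,⟨3,[(29,1),(8,0),(0,0),(15,1),(1,0)]⟩⟩,⟨true,(-1),⟨1,[(8,0),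
  (12,0),(12,0)]⟩,⟨0,[(1,0)]⟩⟩,[.a ⟨true,0,⟨0,[(25,0),(16,0)]⟩,⟨1,[(1,1),(7,0),(2,0),(44,0)]⟩⟩
  ⟨false,0,⟨0,[]⟩,⟨1,[(38,0),(0,0),(16,0)]⟩⟩ ⟨true,(-1),⟨0,[(8,0)]⟩,⟨1,[(0,0),(0,0),(2,0)]⟩⟩,.o
  ⟨false,1,⟨0,[(34,0),(22,0)]⟩,⟨0,[(1,0),(9,0)]⟩⟩,.e ⟨true,0,⟨1,[(45,0),(0,0)]⟩,⟨2,[(14,0),(2,0),
  (34,0)]⟩⟩ ⟨true,(-1),⟨0,[(8,0)]⟩,⟨34,[(0,4),(0,25),(5,3),(7,3),(8,1),(8,4),(15,1),(2,11)]⟩⟩,.o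
  ⟨false,1,⟨0,[(0,0),(29,0)]⟩,⟨1,[(11,0),(17,0),(9,0)]⟩⟩]⟩) (.R ⟨1,true,false,false,[1,0,0,0,-1],[0,
  1,1],[1,-1],(⟨0,[(40,0)]⟩,⟨0,[(41,0)]⟩),(⟨0,[(48,0),(2,0)]⟩,⟨0,[(36,0)]⟩),⟨1,[(3,0),(12,0),(19,0),
  (3,0)]⟩,.k,.k,(.r (-1) ⟨3,[(29,1),(8,0),(0,0),(15,1),(1,0)]⟩ ⟨3,[(24,0),(0,0),(7,0),(4,0),(0,0),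
  (12,0)]⟩),(.r (-1) ⟨0,[(4,0),(24,0)]⟩ ⟨8,[(24,0),(0,6),(12,0),(0,0),(3,1),(2,1),(5,2)]⟩),(.r (-1)
  ⟨1,[(0,0),(0,0),(2,0),(24,1)]⟩ ⟨3,[(24,0),(0,4),(7,0),(4,0),(0,0),(12,0)]⟩),.k,⟨false,1,⟨0,[(2,0),
  (26,0)]⟩,⟨8,[(24,0),(0,6),(12,0),(0,0),(3,1),(2,1),(5,2)]⟩⟩,⟨true,(-1),⟨0,[(0,0)]⟩,⟨5,[(1,3),(22,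
  1),(0,3),(12,1),(7,1),(2,0),(7,0)]⟩⟩,⟨true,0,⟨0,[]⟩,⟨0,[(59,0)]⟩⟩,⟨false,(-1),⟨0,[(8,0)]⟩,⟨3,[(1,
  3),(25,1),(10,0),(0,0),(17,0)]⟩⟩,⟨false,1,⟨3,[(27,1),(10,0),(0,0),(17,0)]⟩,⟨0,[(55,0)]⟩⟩,⟨true,
  (-1),⟨1,[(8,0),(12,0),(12,0)]⟩,⟨0,[(1,0)]⟩⟩,[]⟩)) (.Q [0,0,0,0,0,0,1,1,0,0,-1] (.p false [0,0,1]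
  [] (⟨0,[(47,0)]⟩,⟨0,[(46,0)]⟩) .k 0 (⟨0,[]⟩,⟨0,[]⟩) .k .k) (.R ⟨0,false,false,false,[0,0,0,0,1],
  [1,0,-1],[0,0,1],(⟨0,[(41,0)]⟩,⟨0,[(40,0)]⟩),(⟨0,[(47,0)]⟩,⟨0,[(48,0)]⟩),⟨0,[(16,0)]⟩,.k,.k,(.r 0
  ⟨2,[(14,0),(3,0),(33,0),(2,1)]⟩ ⟨11,[(24,3),(2,1),(10,6),(0,6),(17,6)]⟩),.k,.k,.k,⟨true,0,⟨0,[(25,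
  0),(29,0)]⟩,⟨0,[(2,0)]⟩⟩,⟨false,2,⟨5,[(6,3),(31,6),(0,0),(6,1),(2,0)]⟩,⟨0,[(20,0)]⟩⟩,⟨false,1,⟨1,
  [(45,0),(0,0),(10,1)]⟩,⟨2,[(14,0),(2,0),(34,0)]⟩⟩,⟨true,2,⟨1,[(4,1),(9,1),(31,1),(2,0),(7,0)]⟩,⟨0,
  [(0,0),(9,0),(44,0)]⟩⟩,⟨false,0,⟨0,[]⟩,⟨0,[]⟩⟩,⟨false,0,⟨0,[]⟩,⟨0,[]⟩⟩,[.o ⟨false,1,⟨1,[(44,1),(4,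
  0),(7,0)]⟩,⟨0,[(0,0)]⟩⟩,.e ⟨false,1,⟨1,[(38,0),(0,0),(17,0)]⟩,⟨2,[(14,0),(2,0),(34,0)]⟩⟩ ⟨false,2,
  ⟨1,[(2,1),(11,1),(31,1),(2,0),(7,0)]⟩,⟨0,[(0,0),(31,0)]⟩⟩,.a ⟨true,(-1),⟨0,[(12,0)]⟩,⟨0,[(38,
  0)]⟩⟩ ⟨true,0,⟨1,[(45,0),(0,0)]⟩,⟨2,[(14,0),(2,0),(34,0)]⟩⟩ ⟨false,2,⟨1,[(4,1),(9,1),(31,1),(2,0),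
  (7,0)]⟩,⟨0,[(0,0),(11,0)]⟩⟩,.e ⟨false,1,⟨1,[(38,0),(0,0),(17,0)]⟩,⟨0,[]⟩⟩ ⟨false,2,⟨1,[(2,1),(11,
  1),(31,1),(2,0),(7,0)]⟩,⟨1,[(0,0),(11,1),(12,0),(19,0),(9,0)]⟩⟩]⟩) (.Q [0,0,0,-1,0,0,1,1,0,0,-1]
  (.p false [0,0,1] [] (⟨0,[(48,0)]⟩,⟨0,[(47,0)]⟩) .k 0 (⟨0,[]⟩,⟨0,[]⟩) .k .k) (.R ⟨1,false,false,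
  false,[1,0,-1],[1,-1],[1,0,-1,-1],(⟨0,[(48,0)]⟩,⟨0,[(49,0)]⟩),(⟨0,[(51,0)]⟩,⟨0,[(52,0)]⟩),⟨0,[(37,
  0)]⟩,.k,.k,.k,.k,.k,.k,⟨true,0,⟨0,[]⟩,⟨1,[(46,0),(0,0)]⟩⟩,⟨false,0,⟨0,[(31,0)]⟩,⟨0,[(47,0),(9,
  0)]⟩⟩,⟨false,1,⟨1,[(0,0),(25,0),(3,1),(16,0)]⟩,⟨2,[(3,1),(21,0),(3,0)]⟩⟩,⟨true,0,⟨0,[(0,0)]⟩,⟨0,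
  [(8,0)]⟩⟩,⟨false,1,⟨0,[(26,0),(3,0)]⟩,⟨0,[(5,0)]⟩⟩,⟨false,1,⟨0,[(44,0),(13,0)]⟩,⟨0,[(1,0)]⟩⟩,[.a
  ⟨true,0,⟨0,[(56,0)]⟩,⟨0,[(14,0),(28,0)]⟩⟩ ⟨false,1,⟨5,[(0,0),(29,4),(8,0),(0,0),(4,0),(7,1)]⟩,⟨11,
  [(25,3),(2,1),(10,0),(0,0),(17,0)]⟩⟩ ⟨true,0,⟨0,[(0,0),(2,0)]⟩,⟨0,[(14,0)]⟩⟩,.o ⟨false,1,⟨1,[(50,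
  0),(5,1),(1,0)]⟩,⟨0,[(55,0)]⟩⟩,.o ⟨false,1,⟨2,[(7,0),(31,0),(0,0),(6,1),(2,0)]⟩,⟨0,[(31,0)]⟩⟩,.e
  ⟨false,1,⟨0,[(30,0)]⟩,⟨3,[(25,1),(13,0),(0,0),(5,0),(0,0),(10,0)]⟩⟩ ⟨false,1,⟨5,[(0,1),(4,1),(24,
  3),(5,1),(13,0),(7,0)]⟩,⟨0,[(14,0)]⟩⟩]⟩) (.R ⟨0,false,false,false,[0,1,0,0,-1],[0,0,0,0,1],[1,1],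
  (⟨0,[(17,0)]⟩,⟨0,[(42,0),(8,0)]⟩),(⟨0,[(42,0)]⟩,⟨0,[(41,0)]⟩),⟨0,[(42,0)]⟩,(.r (-1) ⟨11,[(25,3),
  (2,1),(10,6),(0,6),(17,6)]⟩ ⟨2,[(15,0),(3,0),(33,0),(2,1)]⟩),.k,.k,(.r (-1) ⟨11,[(25,3),(2,1),(10,
  0),(0,0),(17,12)]⟩ ⟨0,[(53,0),(2,0)]⟩),.k,.k,⟨true,0,⟨0,[]⟩,⟨1,[(46,0),(0,0)]⟩⟩,⟨false,(-1),⟨0,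
  [(13,1),(36,0)]⟩,⟨0,[(20,0),(18,0)]⟩⟩,⟨false,0,⟨2,[(15,0),(3,0),(33,0),(2,1)]⟩,⟨11,[(25,3),(2,1),
  (10,0),(0,0),(17,12)]⟩⟩,⟨true,(-2),⟨0,[(18,0),(0,0)]⟩,⟨0,[(15,0),(4,0),(4,0),(30,0),(1,0)]⟩⟩,
  ⟨false,0,⟨0,[]⟩,⟨0,[]⟩⟩,⟨false,0,⟨0,[]⟩,⟨0,[]⟩⟩,[.o ⟨false,(-1),⟨0,[(18,0)]⟩,⟨1,[(39,1),(10,0),(7,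
  0)]⟩⟩,.a ⟨true,(-1),⟨0,[(13,0)]⟩,⟨0,[(39,0)]⟩⟩ ⟨true,0,⟨0,[]⟩,⟨1,[(46,0),(0,0)]⟩⟩ ⟨false,(-1),⟨0,
  [(13,1),(36,0)]⟩,⟨0,[(20,0),(18,0)]⟩⟩,.o ⟨false,1,⟨0,[(20,0)]⟩,⟨5,[(19,3),(5,1),(14,1),(9,2),(7,
  2)]⟩⟩,.o ⟨false,1,⟨0,[(39,0)]⟩,⟨0,[(13,0),(36,0)]⟩⟩]⟩)))))) (.Q [0,0,0,0,0,2,0,0,0,0,-1] (.p
  false [0,0,1] [] (⟨0,[(44,0)]⟩,⟨0,[(43,0)]⟩) .k 0 (⟨0,[]⟩,⟨0,[]⟩) .k .k) (.R ⟨0,false,false,false,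
  [0,-1,1],[0,0,0,0,1],[1,1],(⟨0,[(34,0)]⟩,⟨1,[(0,0),(43,1),(0,0)]⟩),(⟨0,[(38,0)]⟩,⟨0,[(37,0)]⟩),⟨0,
  [(0,0)]⟩,.k,.k,(.x 0 ⟨3,[(21,1),(5,1),(5,1),(0,5),(7,1),(3,0),(5,3),(1,0)]⟩ ⟨2,[(0,2),(2,0),(15,
  0),(23,1),(9,1)]⟩),(.r (-1) ⟨2,[(2,1),(37,0),(2,0),(8,0),(1,2)]⟩ ⟨0,[(30,0)]⟩),.k,.k,⟨true,0,⟨0,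
  []⟩,⟨1,[(42,0),(0,0)]⟩⟩,⟨false,0,⟨0,[(3,0),(5,0)]⟩,⟨0,[(35,0),(6,0)]⟩⟩,⟨true,0,⟨0,[(30,0)]⟩,⟨0,
  [(1,0),(50,0)]⟩⟩,⟨false,0,⟨1,[(4,1),(4,1),(36,0),(7,0)]⟩,⟨0,[(1,0),(9,0),(9,0),(5,0),(24,2),(1,
  0)]⟩⟩,⟨false,0,⟨0,[]⟩,⟨0,[]⟩⟩,⟨false,0,⟨0,[]⟩,⟨0,[]⟩⟩,[.o ⟨false,(-1),⟨0,[(14,0)]⟩,⟨1,[(35,1),(10,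
  0),(7,0)]⟩⟩,.a ⟨true,(-1),⟨0,[(9,0)]⟩,⟨0,[(35,0)]⟩⟩ ⟨true,0,⟨0,[]⟩,⟨1,[(42,0),(0,0)]⟩⟩ ⟨false,0,
  ⟨0,[(3,0),(5,0)]⟩,⟨0,[(35,0),(6,0)]⟩⟩,.o ⟨false,0,⟨0,[(42,0)]⟩,⟨5,[(3,3),(31,0),(0,0),(6,1),(2,
  0)]⟩⟩,.o ⟨false,0,⟨1,[(42,2),(0,0)]⟩,⟨0,[(3,0)]⟩⟩]⟩) (.I [0,0,2,1,0,0,0,-1] (.R ⟨1,false,false,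
  false,[0,-1,1],[0,0,0,0,1],[1,1,-1,-1,0,0,0,1],(⟨0,[(35,0)]⟩,⟨0,[(45,0),(3,0)]⟩),(⟨0,[(39,0)]⟩,⟨0,
  [(38,0)]⟩),⟨0,[(1,0)]⟩,.k,.k,(.x 0 ⟨1,[(1,1),(41,2),(0,0)]⟩ ⟨0,[(4,0),(40,0),(3,1)]⟩),(.r (-1) ⟨2,
  [(3,1),(37,0),(2,0),(8,0),(1,2)]⟩ ⟨0,[(31,0)]⟩),(.r (-1) ⟨0,[(3,0),(49,0),(1,0)]⟩ ⟨5,[(0,0),(21,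
  0),(0,0),(1,0),(5,5)]⟩),.k,⟨true,0,⟨0,[(2,0),(50,0)]⟩,⟨0,[(0,0)]⟩⟩,⟨false,0,⟨0,[(4,0),(5,0)]⟩,⟨0,
  [(36,0),(6,0)]⟩⟩,⟨false,0,⟨0,[]⟩,⟨1,[(36,0),(0,0),(17,0)]⟩⟩,⟨false,0,⟨1,[(5,1),(4,1),(36,0),(7,
  0)]⟩,⟨0,[(2,0),(9,0),(9,0),(5,0),(24,2),(1,0)]⟩⟩,⟨true,0,⟨0,[(52,0)]⟩,⟨0,[(53,0)]⟩⟩,⟨false,0,⟨0,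
  [(5,0),(3,0),(45,0)]⟩,⟨0,[(2,0),(9,0),(9,0),(5,0),(24,3),(1,0)]⟩⟩,[.o ⟨false,(-1),⟨0,[(15,0)]⟩,⟨1,
  [(36,1),(10,0),(7,0)]⟩⟩,.a ⟨true,(-1),⟨0,[(10,0)]⟩,⟨0,[(36,0)]⟩⟩ ⟨true,0,⟨0,[(2,0),(50,0)]⟩,⟨0,
  [(0,0)]⟩⟩ ⟨false,0,⟨0,[(4,0),(5,0)]⟩,⟨0,[(36,0),(6,0)]⟩⟩,.o ⟨false,0,⟨0,[(43,0)]⟩,⟨5,[(4,3),(31,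
  0),(0,0),(6,1),(2,0)]⟩⟩,.o ⟨false,0,⟨1,[(43,2),(0,0)]⟩,⟨0,[(4,0)]⟩⟩]⟩) (.Q [0,-1,0,-1,2,0,-1,-1,
  -1,-1,1,1] (.p true [0,0,1] [1,0,0,0,-1] (⟨0,[(46,0)]⟩,⟨0,[(45,0)]⟩) .k 2 (⟨0,[(38,0)]⟩,⟨0,[(39,
  0)]⟩) .k (.r 0 ⟨6,[(3,1),(19,1),(17,2),(2,2),(5,0)]⟩ ⟨0,[(26,0),(26,0)]⟩)) (.R ⟨0,false,false,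
  false,[0,0,0,0,1],[1,-1,-1],[0,0,1],(⟨0,[(40,0)]⟩,⟨0,[(39,0)]⟩),(⟨0,[(35,0)]⟩,⟨0,[(47,0),(2,0)]⟩),
  ⟨0,[(15,0)]⟩,.k,.k,(.r 0 ⟨2,[(13,0),(3,0),(33,0),(2,1)]⟩ ⟨25,[(0,6),(22,3),(0,6),(1,8),(7,6),(3,
  6),(6,6),(10,6)]⟩),(.r 1 ⟨0,[(1,0),(21,0)]⟩ ⟨15,[(0,13),(25,0),(0,1),(0,5),(2,6),(2,6),(3,6),(16,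
  1)]⟩),.k,.k,⟨false,0,⟨0,[(24,0)]⟩,⟨0,[(28,0),(0,0),(13,0)]⟩⟩,⟨true,1,⟨0,[(0,0),(0,0),(21,0)]⟩,⟨0,
  [(19,0)]⟩⟩,⟨false,1,⟨1,[(44,0),(0,0),(10,1)]⟩,⟨2,[(13,0),(2,0),(34,0)]⟩⟩,⟨true,2,⟨0,[(0,0)]⟩,⟨5,
  [(1,2),(5,0),(1,3),(9,0),(3,1),(5,1),(12,1)]⟩⟩,⟨false,0,⟨0,[]⟩,⟨0,[]⟩⟩,⟨false,0,⟨0,[]⟩,⟨0,[]⟩⟩,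
  [.o ⟨false,1,⟨3,[(0,1),(16,1),(25,1),(4,0),(7,0)]⟩,⟨4,[(3,3),(18,0),(0,0),(5,3),(3,0),(22,0)]⟩⟩,
  .a ⟨true,1,⟨0,[(0,0),(10,0)]⟩,⟨0,[(1,0),(21,0),(17,0)]⟩⟩ ⟨false,1,⟨1,[(37,0),(0,0),(17,0)]⟩,⟨2,
  [(13,0),(2,0),(34,0)]⟩⟩ ⟨true,2,⟨0,[(0,0)]⟩,⟨0,[(1,0),(17,0),(3,0)]⟩⟩,.a ⟨true,(-1),⟨0,[(11,0)]⟩,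
  ⟨0,[(37,0)]⟩⟩ ⟨true,0,⟨1,[(44,0),(0,0)]⟩,⟨2,[(13,0),(2,0),(34,0)]⟩⟩ ⟨false,2,⟨0,[(0,0)]⟩,⟨0,[(7,
  0)]⟩⟩,.a ⟨true,(-1),⟨1,[(11,1),(32,0),(0,0)]⟩,⟨0,[(18,0)]⟩⟩ ⟨false,1,⟨1,[(37,0),(0,0),(17,0)]⟩,⟨0,
  []⟩⟩ ⟨true,2,⟨11,[(0,9),(12,2),(3,0),(10,0),(14,1),(4,0),(2,3)]⟩,⟨0,[(1,0),(17,0),(3,0)]⟩⟩]⟩) (.R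
  ⟨0,false,false,false,[0,1,0,0,-1],[0,0,0,0,1],[1,1],(⟨0,[(15,0)]⟩,⟨0,[(40,0),(8,0)]⟩),(⟨0,[(40,
  0)]⟩,⟨0,[(39,0)]⟩),⟨0,[(40,0)]⟩,(.r (-1) ⟨11,[(23,3),(2,1),(10,6),(0,6),(17,6)]⟩ ⟨2,[(13,0),(3,0),
  (33,0),(2,1)]⟩),.k,.k,(.r (-1) ⟨11,[(23,3),(2,1),(10,0),(0,0),(17,12)]⟩ ⟨0,[(51,0),(2,0)]⟩),.k,.k,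
  ⟨true,0,⟨0,[]⟩,⟨1,[(44,0),(0,0)]⟩⟩,⟨false,(-1),⟨0,[(11,1),(36,0)]⟩,⟨0,[(18,0),(18,0)]⟩⟩,⟨false,0,
  ⟨2,[(13,0),(3,0),(33,0),(2,1)]⟩,⟨11,[(23,3),(2,1),(10,0),(0,0),(17,12)]⟩⟩,⟨true,(-2),⟨0,[(16,0),
  (0,0)]⟩,⟨0,[(13,0),(4,0),(4,0),(30,0),(1,0)]⟩⟩,⟨false,0,⟨0,[]⟩,⟨0,[]⟩⟩,⟨false,0,⟨0,[]⟩,⟨0,[]⟩⟩,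
  [.o ⟨false,(-1),⟨0,[(16,0)]⟩,⟨1,[(37,1),(10,0),(7,0)]⟩⟩,.a ⟨true,(-1),⟨0,[(11,0)]⟩,⟨0,[(37,0)]⟩⟩
  ⟨true,0,⟨0,[]⟩,⟨1,[(44,0),(0,0)]⟩⟩ ⟨false,(-1),⟨0,[(11,1),(36,0)]⟩,⟨0,[(18,0),(18,0)]⟩⟩,.o ⟨false,
  1,⟨0,[(18,0)]⟩,⟨5,[(17,3),(5,1),(14,1),(9,2),(7,2)]⟩⟩,.o ⟨false,1,⟨0,[(37,0)]⟩,⟨0,[(11,0),(36,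
  0)]⟩⟩]⟩))))) (.R ⟨0,false,false,true,[0,0,0,0,1],[0,-1,1],[0,0,1],(⟨0,[(36,0)]⟩,⟨0,[(35,0)]⟩),(⟨0,
  [(32,0)]⟩,⟨0,[(42,0),(3,0)]⟩),⟨0,[(11,0)]⟩,.k,.k,(.r 0 ⟨2,[(9,0),(3,0),(33,0),(2,1)]⟩ ⟨11,[(19,3),
  (2,1),(10,6),(0,6),(17,6)]⟩),(.r 0 ⟨0,[(28,0)]⟩ ⟨0,[(20,0),(3,0),(25,0)]⟩),.k,.k,⟨true,0,⟨0,[(0,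
  0)]⟩,⟨0,[(9,0),(3,0),(6,0),(29,0)]⟩⟩,⟨false,1,⟨0,[(14,0),(25,0)]⟩,⟨2,[(1,1),(5,1),(26,0),(6,0)]⟩⟩,
  ⟨false,1,⟨1,[(40,0),(0,0),(10,1)]⟩,⟨2,[(9,0),(2,0),(34,0)]⟩⟩,⟨true,1,⟨0,[(9,0),(10,0),(19,0),(9,
  1)]⟩,⟨0,[(0,0),(0,0),(3,0),(44,0)]⟩⟩,⟨false,0,⟨0,[]⟩,⟨0,[]⟩⟩,⟨false,0,⟨0,[]⟩,⟨0,[]⟩⟩,[.o ⟨false,0,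
  ⟨0,[(38,0),(11,0)]⟩,⟨0,[(0,0),(0,0)]⟩⟩,.e ⟨false,1,⟨1,[(33,0),(0,0),(17,0)]⟩,⟨2,[(9,0),(2,0),(34,
  0)]⟩⟩ ⟨false,1,⟨0,[(9,0),(10,0),(4,0),(24,1)]⟩,⟨1,[(0,0),(0,0),(0,0),(4,0),(26,0)]⟩⟩,.a ⟨true,
  (-1),⟨0,[(7,0)]⟩,⟨0,[(33,0)]⟩⟩ ⟨true,0,⟨1,[(40,0),(0,0)]⟩,⟨2,[(9,0),(2,0),(34,0)]⟩⟩ ⟨false,1,⟨0,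
  [(9,0),(10,0),(19,0),(9,1)]⟩,⟨0,[(0,0),(0,0),(5,0)]⟩⟩,.e ⟨false,1,⟨1,[(33,0),(0,0),(17,0)]⟩,⟨0,
  []⟩⟩ ⟨false,1,⟨0,[(9,0),(10,0),(4,0),(24,1)]⟩,⟨2,[(0,2),(0,1),(5,1),(26,0),(6,0)]⟩⟩]⟩)) (.Q [0,1,
  0,-1,-1,0,1,1,0,1,-1] (.p false [0,0,1] [1] (⟨0,[(42,0)]⟩,⟨0,[(41,0)]⟩) .k 1 (⟨0,[]⟩,⟨0,[]⟩) .k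
  .k) (.I [0,0,0,0,0,0,0,1] (.I [1,1,-1,0,0,0,0,-1] (.S ⟨1,0,[0,0,0,-1,0,0,0,-1],[1,0,-1],[1,1,0,0,
  0,0,0,-1],(⟨0,[(44,0)]⟩,⟨0,[(45,0)]⟩),⟨0,[(33,0)]⟩,.k,.k,⟨false,0,⟨0,[]⟩,⟨1,[(35,0),(0,0),(17,
  0)]⟩⟩,⟨true,0,⟨0,[(52,0)]⟩,⟨0,[(51,0)]⟩⟩,⟨true,0,⟨0,[(51,0)]⟩,⟨0,[(52,0)]⟩⟩,⟨false,1,⟨1,[(35,0),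
  (0,0),(17,0)]⟩,⟨0,[]⟩⟩,[.o ⟨false,1,⟨1,[(41,1),(4,0),(5,1),(1,0)]⟩,⟨2,[(1,1),(1,1),(1,0),(0,0),(4,
  1),(34,1),(7,0)]⟩⟩,.e ⟨false,1,⟨6,[(25,2),(0,2),(5,1),(8,3),(4,0),(2,0)]⟩,⟨0,[(1,0)]⟩⟩ ⟨false,1,
  ⟨0,[(0,0),(51,0),(1,0)]⟩,⟨2,[(1,0),(20,1),(26,0),(0,0)]⟩⟩,.o ⟨false,1,⟨1,[(43,1),(2,0),(6,0)]⟩,⟨0,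
  [(27,0)]⟩⟩,.a ⟨true,0,⟨0,[(43,0)]⟩,⟨0,[(39,0)]⟩⟩ ⟨true,0,⟨0,[(0,0)]⟩,⟨1,[(1,1),(40,0),(0,0)]⟩⟩
  ⟨false,1,⟨0,[(0,0),(51,0),(1,0)]⟩,⟨0,[(23,0)]⟩⟩]⟩) (.R ⟨0,false,false,false,[0,0,0,0,1],[0,-1,1],
  [1,0,-1,-1,0,0,0,1],(⟨0,[(38,0)]⟩,⟨0,[(37,0)]⟩),(⟨0,[(34,0)]⟩,⟨0,[(44,0),(3,0)]⟩),⟨0,[(13,0)]⟩,.k,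
  .k,(.r 0 ⟨2,[(11,0),(3,0),(33,0),(2,1)]⟩ ⟨11,[(21,3),(2,1),(10,6),(0,6),(17,6)]⟩),(.r 0 ⟨0,[(30,
  0)]⟩ ⟨1,[(0,0),(25,1),(13,0),(2,0)]⟩),.k,.k,⟨true,0,⟨0,[]⟩,⟨1,[(42,0),(0,0)]⟩⟩,⟨false,1,⟨0,[(16,
  0),(25,0)]⟩,⟨0,[(10,0),(3,0),(11,0)]⟩⟩,⟨false,1,⟨0,[(0,0),(25,0)]⟩,⟨0,[(30,0)]⟩⟩,⟨true,1,⟨1,[(0,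
  0),(1,0),(0,0),(7,0),(4,0),(29,0),(5,0),(1,0)]⟩,⟨0,[(4,0),(9,0)]⟩⟩,⟨false,0,⟨0,[]⟩,⟨0,[]⟩⟩,⟨false,
  0,⟨0,[]⟩,⟨0,[]⟩⟩,[.o ⟨false,0,⟨1,[(2,1),(43,0),(7,0)]⟩,⟨1,[(4,1),(41,0),(7,0)]⟩⟩,.e ⟨false,1,⟨0,
  [(1,0),(24,0)]⟩,⟨0,[(30,0)]⟩⟩ ⟨false,1,⟨0,[(0,0),(10,0),(15,0),(24,0)]⟩,⟨0,[(4,0),(31,0)]⟩⟩,.a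
  ⟨true,(-1),⟨0,[(9,0)]⟩,⟨0,[(35,0)]⟩⟩ ⟨true,0,⟨0,[(0,0),(10,0),(3,0)]⟩,⟨0,[(30,0)]⟩⟩ ⟨false,1,⟨1,
  [(0,0),(1,0),(0,0),(7,0),(4,0),(29,0),(5,0),(1,0)]⟩,⟨1,[(4,1),(4,1),(36,0),(7,0)]⟩⟩,.e ⟨false,1,
  ⟨0,[(1,0),(24,0)]⟩,⟨1,[(3,1),(0,1),(41,0),(7,0)]⟩⟩ ⟨false,1,⟨0,[(0,0),(10,0),(15,0),(24,0)]⟩,⟨7,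
  [(9,5),(0,1),(10,1),(3,1),(10,1),(4,5),(4,2),(7,2)]⟩⟩]⟩)) (.Q [0,0,0,0,0,0,1,1,0,0,-1] (.p false
  [0,0,1] [] (⟨0,[(44,0)]⟩,⟨0,[(43,0)]⟩) .k 0 (⟨0,[]⟩,⟨0,[]⟩) .k .k) (.R ⟨0,false,false,false,[0,0,
  0,0,1],[1,0,-1],[0,0,1],(⟨0,[(38,0)]⟩,⟨0,[(37,0)]⟩),(⟨0,[(44,0)]⟩,⟨0,[(45,0)]⟩),⟨0,[(13,0)]⟩,.k,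
  .k,(.r 0 ⟨2,[(11,0),(3,0),(33,0),(2,1)]⟩ ⟨11,[(21,3),(2,1),(10,6),(0,6),(17,6)]⟩),.k,.k,.k,⟨true,
  0,⟨3,[(2,1),(19,1),(20,1),(2,0),(7,0)]⟩,⟨0,[(1,0)]⟩⟩,⟨false,2,⟨1,[(16,1),(26,1),(2,0),(6,0)]⟩,⟨0,
  [(17,0)]⟩⟩,⟨false,1,⟨1,[(42,0),(0,0),(10,1)]⟩,⟨2,[(11,0),(2,0),(34,0)]⟩⟩,⟨true,2,⟨1,[(1,1),(14,1),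
  (26,1),(2,0),(7,0)]⟩,⟨5,[(2,4),(2,0),(0,1),(7,2),(31,0)]⟩⟩,⟨false,0,⟨0,[]⟩,⟨0,[]⟩⟩,⟨false,0,⟨0,
  []⟩,⟨0,[]⟩⟩,[.o ⟨false,1,⟨1,[(41,1),(4,0),(7,0)]⟩,⟨0,[(0,0)]⟩⟩,.e ⟨false,1,⟨1,[(35,0),(0,0),(17,
  0)]⟩,⟨2,[(11,0),(2,0),(34,0)]⟩⟩ ⟨false,2,⟨1,[(1,1),(9,1),(31,1),(2,0),(7,0)]⟩,⟨2,[(2,0),(2,0),(23,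
  0),(6,0),(3,0)]⟩⟩,.a ⟨true,(-1),⟨0,[(9,0)]⟩,⟨0,[(35,0)]⟩⟩ ⟨true,0,⟨1,[(42,0),(0,0)]⟩,⟨2,[(11,0),
  (2,0),(34,0)]⟩⟩ ⟨false,2,⟨1,[(1,1),(14,1),(26,1),(2,0),(7,0)]⟩,⟨2,[(2,0),(2,1),(9,0),(38,0)]⟩⟩,.e
  ⟨false,1,⟨1,[(35,0),(0,0),(17,0)]⟩,⟨0,[]⟩⟩ ⟨false,2,⟨1,[(1,1),(9,1),(31,1),(2,0),(7,0)]⟩,⟨2,[(2,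
  0),(0,0),(1,0),(9,0),(6,0),(13,0),(17,0)]⟩⟩]⟩) (.R ⟨1,false,false,false,[1,0,-1],[1,-1],[],(⟨0,
  [(44,0)]⟩,⟨0,[(45,0)]⟩),(⟨0,[(47,0)]⟩,⟨0,[(48,0)]⟩),⟨0,[(33,0)]⟩,.k,.k,.k,.k,.k,.k,⟨true,0,⟨11,
  [(21,3),(2,1),(10,0),(0,0),(17,0)]⟩,⟨0,[(52,0)]⟩⟩,⟨false,0,⟨0,[(27,0)]⟩,⟨0,[(43,0),(9,0)]⟩⟩,
  ⟨false,1,⟨1,[(22,0),(3,0),(13,0),(2,0),(10,0)]⟩,⟨0,[(1,0)]⟩⟩,⟨true,0,⟨1,[(2,1),(43,0),(7,0)]⟩,⟨0,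
  [(4,0)]⟩⟩,⟨false,1,⟨1,[(22,1),(30,0),(0,0)]⟩,⟨0,[(1,0),(50,0)]⟩⟩,⟨false,1,⟨0,[(40,0),(13,0)]⟩,⟨0,
  [(0,0)]⟩⟩,[.a ⟨true,0,⟨0,[(52,0)]⟩,⟨13,[(3,3),(6,3),(7,0),(0,5),(4,3),(4,2),(5,3)]⟩⟩ ⟨false,1,⟨1,
  [(35,0),(0,0),(16,0)]⟩,⟨0,[]⟩⟩ ⟨true,0,⟨0,[(27,0),(24,0)]⟩,⟨0,[(10,0)]⟩⟩,.o ⟨false,1,⟨1,[(46,0),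
  (5,1),(1,0)]⟩,⟨0,[(51,0)]⟩⟩,.o ⟨false,1,⟨1,[(43,1),(2,0),(6,0)]⟩,⟨0,[(27,0)]⟩⟩,.e ⟨false,1,⟨1,
  [(53,0),(0,0)]⟩,⟨1,[(42,0),(0,0)]⟩⟩ ⟨false,1,⟨0,[(26,0),(15,0)]⟩,⟨0,[(10,0)]⟩⟩]⟩))) (.R ⟨0,false,
  false,true,[0,0,0,0,1],[0,-1,1],[0,0,1],(⟨0,[(36,0)]⟩,⟨0,[(35,0)]⟩),(⟨0,[(32,0)]⟩,⟨0,[(42,0),(3,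
  0)]⟩),⟨0,[(11,0)]⟩,.k,.k,(.r 0 ⟨2,[(9,0),(3,0),(33,0),(2,1)]⟩ ⟨11,[(19,3),(2,1),(10,6),(0,6),(17,
  6)]⟩),(.r 0 ⟨0,[(28,0)]⟩ ⟨0,[(20,0),(3,0),(25,0)]⟩),.k,.k,⟨true,0,⟨0,[(0,0),(0,0)]⟩,⟨0,[(9,0),(3,
  0),(6,0),(29,0)]⟩⟩,⟨false,1,⟨0,[(14,0),(25,0)]⟩,⟨0,[(8,0),(3,0),(11,0)]⟩⟩,⟨false,1,⟨1,[(40,0),(0,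
  0),(10,1)]⟩,⟨2,[(9,0),(2,0),(34,0)]⟩⟩,⟨true,1,⟨3,[(1,1),(7,1),(4,1),(5,1),(17,1),(5,0),(5,5),(1,
  0)]⟩,⟨0,[(0,0),(4,0),(44,0)]⟩⟩,⟨false,0,⟨0,[]⟩,⟨0,[]⟩⟩,⟨false,0,⟨0,[]⟩,⟨0,[]⟩⟩,[.o ⟨false,0,⟨0,
  [(38,0),(11,0)]⟩,⟨0,[(0,0)]⟩⟩,.e ⟨false,1,⟨1,[(33,0),(0,0),(17,0)]⟩,⟨2,[(9,0),(2,0),(34,0)]⟩⟩
  ⟨false,1,⟨4,[(1,2),(1,0),(5,5),(10,2),(3,0),(13,0),(5,1),(5,7)]⟩,⟨1,[(0,0),(1,0),(4,0),(26,0)]⟩⟩,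
  .a ⟨true,(-1),⟨0,[(7,0)]⟩,⟨0,[(33,0)]⟩⟩ ⟨true,0,⟨1,[(40,0),(0,0)]⟩,⟨2,[(9,0),(2,0),(34,0)]⟩⟩
  ⟨false,1,⟨3,[(1,1),(7,1),(4,1),(5,1),(17,1),(5,0),(5,5),(1,0)]⟩,⟨0,[(0,0),(6,0)]⟩⟩,.e ⟨false,1,⟨1,
  [(33,0),(0,0),(17,0)]⟩,⟨0,[]⟩⟩ ⟨false,1,⟨4,[(1,2),(1,0),(5,5),(10,2),(3,0),(13,0),(5,1),(5,7)]⟩,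
  ⟨2,[(0,2),(0,0),(5,1),(26,0),(6,0)]⟩⟩]⟩))) (.R ⟨1,false,false,false,[1,0,-1],[1,-1],[1,0,-1,-1],
  (⟨0,[(40,0)]⟩,⟨0,[(41,0)]⟩),(⟨0,[(43,0)]⟩,⟨0,[(44,0)]⟩),⟨0,[(29,0)]⟩,.k,.k,.k,.k,.k,.k,⟨true,0,⟨0,
  []⟩,⟨1,[(38,0),(0,0)]⟩⟩,⟨false,0,⟨0,[(23,0)]⟩,⟨0,[(39,0),(9,0)]⟩⟩,⟨true,0,⟨0,[(0,0),(6,0),(2,0),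
  (28,0)]⟩,⟨0,[(26,0)]⟩⟩,⟨false,0,⟨0,[(0,0)]⟩,⟨3,[(20,1),(10,0),(0,0),(4,3),(12,0)]⟩⟩,⟨true,0,⟨0,
  [(0,0),(5,0),(0,0),(2,0)]⟩,⟨0,[(37,0),(0,0)]⟩⟩,⟨true,0,⟨1,[(0,0),(26,0)]⟩,⟨0,[(37,0)]⟩⟩,[.a ⟨true,
  0,⟨0,[(48,0)]⟩,⟨0,[(6,0),(28,0)]⟩⟩ ⟨false,1,⟨4,[(22,3),(8,0),(0,0),(12,1),(2,0)]⟩,⟨11,[(17,3),(2,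
  1),(10,0),(0,0),(17,0)]⟩⟩ ⟨true,0,⟨0,[(23,0),(24,0)]⟩,⟨0,[(6,0)]⟩⟩,.o ⟨false,1,⟨1,[(42,0),(5,1),
  (1,0)]⟩,⟨0,[(47,0)]⟩⟩,.o ⟨false,1,⟨1,[(39,1),(2,0),(6,0)]⟩,⟨0,[(23,0)]⟩⟩,.e ⟨false,1,⟨0,[(22,0)]⟩,
  ⟨3,[(17,1),(13,0),(0,0),(5,0),(0,0),(10,0)]⟩⟩ ⟨false,1,⟨0,[(22,0),(15,0)]⟩,⟨0,[(6,0)]⟩⟩]⟩)) (.R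
  ⟨0,false,false,false,[0,0,0,0,1],[1,-1,-1],[1,1],(⟨0,[(33,0)]⟩,⟨0,[(32,0)]⟩),(⟨0,[(28,0)]⟩,⟨0,
  [(40,0),(2,0)]⟩),⟨0,[(8,0)]⟩,.k,.k,(.r 0 ⟨2,[(6,0),(3,0),(33,0),(2,1)]⟩ ⟨11,[(16,3),(2,1),(10,6),
  (0,6),(17,6)]⟩),(.r 0 ⟨8,[(16,0),(0,6),(12,0),(0,0),(3,1),(2,1),(5,2)]⟩ ⟨9,[(0,6),(11,5),(7,1),(0,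
  4),(5,0),(3,0),(4,0),(12,1)]⟩),.k,.k,⟨false,0,⟨2,[(6,0),(2,0),(7,2),(26,0)]⟩,⟨9,[(0,6),(11,5),(7,
  1),(0,4),(5,0),(3,0),(4,0),(12,1)]⟩⟩,⟨true,1,⟨0,[(0,0),(16,0)]⟩,⟨0,[(12,0)]⟩⟩,⟨true,0,⟨0,[]⟩,⟨0,
  [(51,0)]⟩⟩,⟨false,2,⟨0,[(0,0),(48,0)]⟩,⟨0,[(4,0),(21,0)]⟩⟩,⟨false,0,⟨0,[]⟩,⟨0,[]⟩⟩,⟨false,0,⟨0,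
  []⟩,⟨0,[]⟩⟩,[.a ⟨true,0,⟨0,[(0,0),(3,0)]⟩,⟨0,[(17,0),(16,0)]⟩⟩ ⟨false,0,⟨2,[(6,0),(2,0),(34,0)]⟩,
  ⟨1,[(30,0),(0,0),(17,0)]⟩⟩ ⟨true,1,⟨0,[(0,0)]⟩,⟨0,[(12,0),(4,0)]⟩⟩,.o ⟨false,1,⟨1,[(0,1),(3,1),
  (36,0),(7,0)]⟩,⟨0,[(26,0)]⟩⟩,.a ⟨true,(-1),⟨0,[(4,0)]⟩,⟨0,[(30,0)]⟩⟩ ⟨false,0,⟨0,[]⟩,⟨1,[(30,0),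
  (0,0),(17,0)]⟩⟩ ⟨true,1,⟨0,[(0,0)]⟩,⟨0,[(4,0),(21,0)]⟩⟩,.a ⟨true,(-1),⟨1,[(4,1),(32,0),(0,0)]⟩,⟨0,
  [(11,0)]⟩⟩ ⟨true,0,⟨2,[(6,0),(2,0),(34,0)]⟩,⟨1,[(37,0),(0,0)]⟩⟩ ⟨false,2,⟨1,[(0,1),(47,0),(0,0)]⟩,
  ⟨0,[(12,0),(4,0)]⟩⟩]⟩))))) (.R ⟨2,false,false,false,[0,1],[0,0,0,0,1],[0,1,1],(⟨0,[]⟩,⟨0,[]⟩),(⟨0,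
  [(29,0)]⟩,⟨0,[(28,0)]⟩),⟨0,[]⟩,.k,.k,.k,(.r (-1) ⟨11,[(12,3),(2,1),(10,6),(0,6),(17,6)]⟩ ⟨2,[(2,
  0),(3,0),(33,0),(2,1)]⟩),.k,.k,⟨true,0,⟨1,[(33,0),(0,0)]⟩,⟨0,[]⟩⟩,⟨false,0,⟨0,[(27,0)]⟩,⟨0,[(7,
  0)]⟩⟩,⟨false,0,⟨0,[(43,0)]⟩,⟨3,[(15,1),(10,0),(0,0),(17,0)]⟩⟩,⟨true,(-1),⟨0,[(6,0)]⟩,⟨6,[(3,2),(8,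
  0),(2,0),(10,3)]⟩⟩,⟨true,0,⟨0,[(47,0)]⟩,⟨0,[]⟩⟩,⟨true,(-1),⟨0,[(5,0)]⟩,⟨0,[(26,0)]⟩⟩,[.o ⟨false,
  (-1),⟨0,[(5,0)]⟩,⟨1,[(26,1),(10,0),(7,0)]⟩⟩,.o ⟨false,0,⟨0,[(27,0)]⟩,⟨0,[(0,0)]⟩⟩,.a ⟨true,0,⟨1,
  [(10,0),(24,0),(0,0)]⟩,⟨1,[(33,0),(0,0)]⟩⟩ ⟨false,0,⟨1,[(33,0),(0,0)]⟩,⟨1,[(44,0),(0,0)]⟩⟩ ⟨true,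
  (-1),⟨2,[(6,1),(5,0),(14,0)]⟩,⟨0,[(7,0)]⟩⟩,.e ⟨true,0,⟨0,[(47,0)]⟩,⟨0,[]⟩⟩ ⟨true,(-1),⟨0,[(5,0)]⟩,
  ⟨0,[(26,0)]⟩⟩]⟩)))) (.R ⟨0,false,false,true,[0,0,0,0,1],[0,1],[1],(⟨0,[(26,0)]⟩,⟨0,[(25,0)]⟩),(⟨0,
  [(36,0)]⟩,⟨0,[(35,0)]⟩),⟨0,[(1,0)]⟩,.k,.k,(.r 0 ⟨0,[(3,0),(0,0)]⟩ ⟨11,[(9,3),(2,1),(10,6),(0,6),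
  (17,6)]⟩),(.r 0 ⟨0,[(3,0),(0,0)]⟩ ⟨11,[(9,3),(2,1),(10,6),(0,6),(17,6)]⟩),.k,.k,⟨false,1,⟨0,[(14,
  0)]⟩,⟨3,[(9,0),(0,0),(7,0),(4,0),(0,0),(12,0)]⟩⟩,⟨true,1,⟨0,[(4,0)]⟩,⟨4,[(0,3),(8,1),(14,0),(17,
  0)]⟩⟩,⟨false,1,⟨0,[(42,0)]⟩,⟨0,[(44,0)]⟩⟩,⟨true,1,⟨3,[(4,2),(4,0),(2,0),(10,0)]⟩,⟨0,[(3,0)]⟩⟩,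
  ⟨false,0,⟨0,[]⟩,⟨0,[]⟩⟩,⟨false,0,⟨0,[]⟩,⟨0,[]⟩⟩,[.o ⟨false,0,⟨0,[(39,0)]⟩,⟨1,[(34,0),(5,1),(1,
  0)]⟩⟩,.a ⟨true,0,⟨7,[(7,2),(1,1),(2,1),(19,4),(0,4)]⟩,⟨0,[(40,0)]⟩⟩ ⟨false,1,⟨1,[(41,0),(0,0)]⟩,
  ⟨0,[(44,0)]⟩⟩ ⟨true,1,⟨3,[(4,2),(4,0),(2,0),(10,0)]⟩,⟨0,[(0,0)]⟩⟩,.a ⟨true,(-1),⟨5,[(0,3),(4,0),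
  (0,0),(0,3),(1,0),(21,0),(10,0)]⟩,⟨0,[(23,0)]⟩⟩ ⟨true,0,⟨0,[]⟩,⟨0,[(44,0)]⟩⟩ ⟨false,1,⟨3,[(4,2),
  (4,0),(2,0),(10,0)]⟩,⟨2,[(0,1),(13,0),(9,0),(17,0)]⟩⟩,.a ⟨true,(-1),⟨0,[(5,0),(25,0)]⟩,⟨0,[(4,
  0)]⟩⟩ ⟨false,1,⟨1,[(41,0),(0,0)]⟩,⟨1,[(30,0),(0,0)]⟩⟩ ⟨true,1,⟨0,[(4,0),(34,0)]⟩,⟨0,[(0,
  0)]⟩⟩]⟩))) (.R ⟨2,true,false,false,[0,1],[0,0,0,0,1],[0,1,1],(⟨0,[]⟩,⟨0,[]⟩),(⟨0,[(24,0)]⟩,⟨0,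
  [(23,0)]⟩),⟨0,[]⟩,.k,.k,.k,(.r (-1) ⟨11,[(7,3),(2,1),(10,6),(0,6),(17,6)]⟩ ⟨0,[(1,0),(0,0)]⟩),.k,
  .k,⟨true,0,⟨1,[(28,0),(0,0)]⟩,⟨0,[]⟩⟩,⟨false,0,⟨0,[(22,0)]⟩,⟨0,[(2,0)]⟩⟩,⟨false,0,⟨0,[(38,0)]⟩,⟨3,
  [(10,1),(10,0),(0,0),(17,0)]⟩⟩,⟨true,(-1),⟨0,[(1,0)]⟩,⟨3,[(2,2),(4,0),(2,0),(10,0)]⟩⟩,⟨true,0,⟨0,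
  [(42,0)]⟩,⟨0,[]⟩⟩,⟨false,0,⟨0,[(22,0)]⟩,⟨0,[(0,0)]⟩⟩,[]⟩)) (.Q [0,0,0,0,0,-1,0,0,0,1,0,-1] (.ed
  true [0,1,0,0,1] .k) (.Q [0,0,0,0,1,0,0,0,-1,-1,0,1] (.p true [0,0,0,0,1] [1] (⟨0,[(24,0)]⟩,⟨0,
  [(23,0)]⟩) .k 1 (⟨0,[]⟩,⟨0,[]⟩) .k .k) (.R ⟨1,false,false,false,[1,0,0,0,-1],[1,-1],[1],(⟨0,[(24,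
  0)]⟩,⟨0,[(25,0)]⟩),(⟨0,[(34,0)]⟩,⟨0,[(35,0)]⟩),⟨0,[(1,0)]⟩,.k,.k,(.r (-1) ⟨3,[(13,1),(8,0),(0,0),
  (15,1),(1,0)]⟩ ⟨3,[(8,0),(0,0),(7,0),(4,0),(0,0),(12,0)]⟩),(.r (-1) ⟨11,[(8,3),(2,1),(10,6),(0,6),
  (17,6)]⟩ ⟨0,[(37,0),(1,1)]⟩),.k,.k,⟨true,0,⟨11,[(8,3),(2,1),(10,0),(0,0),(17,0)]⟩,⟨0,[(39,0)]⟩⟩,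
  ⟨false,0,⟨0,[(23,0)]⟩,⟨0,[(3,0)]⟩⟩,⟨false,0,⟨0,[]⟩,⟨1,[(22,0),(0,0),(17,0)]⟩⟩,⟨false,0,⟨0,[(23,0),
  (15,0)]⟩,⟨0,[(2,0)]⟩⟩,⟨true,0,⟨0,[(38,0)]⟩,⟨0,[(39,0)]⟩⟩,⟨false,0,⟨0,[(23,0)]⟩,⟨0,[(2,0),(36,
  0)]⟩⟩,[.a ⟨true,0,⟨0,[(39,0)]⟩,⟨0,[(2,0),(13,0)]⟩⟩ ⟨true,0,⟨0,[]⟩,⟨1,[(29,0),(0,0)]⟩⟩ ⟨false,0,⟨0,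
  [(4,0),(1,0),(23,0),(2,0),(5,0)]⟩,⟨3,[(3,2),(4,0),(2,0),(10,0)]⟩⟩,.o ⟨false,1,⟨1,[(33,0),(5,1),(1,
  0)]⟩,⟨0,[(38,0)]⟩⟩,.o ⟨false,1,⟨0,[(0,0)]⟩,⟨0,[(23,0)]⟩⟩,.o ⟨false,1,⟨1,[(0,1),(28,0),(0,0)]⟩,⟨0,
  [(4,0),(1,0),(23,0),(2,0)]⟩⟩]⟩) (.Q [0,0,0,1,-1,0,0,0,1,1,0,-1] (.p false [0,0,0,0,1] [1] (⟨0,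
  [(25,0)]⟩,⟨0,[(24,0)]⟩) .k 1 (⟨0,[]⟩,⟨0,[]⟩) .k .k) (.I [0,-2,-1,-1,1] (.R ⟨1,false,false,true,[1,
  0,0,0,-1],[0,1],[0,-1,0,-1],(⟨0,[(26,0)]⟩,⟨0,[(27,0)]⟩),(⟨0,[(37,0)]⟩,⟨0,[(36,0)]⟩),⟨0,[(3,0)]⟩,
  .k,.k,(.r (-1) ⟨2,[(0,0),(14,0),(8,0),(0,0),(15,0)]⟩ ⟨3,[(10,0),(0,0),(7,0),(4,0),(0,0),(12,0)]⟩),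
  (.r (-1) ⟨2,[(0,0),(14,0),(8,0),(0,0),(15,0)]⟩ ⟨3,[(10,0),(0,0),(7,0),(4,0),(0,0),(12,0)]⟩),(.r
  (-1) ⟨0,[(15,0),(25,0)]⟩ ⟨0,[(11,0),(7,0)]⟩),.k,⟨true,1,⟨0,[(0,0),(40,0)]⟩,⟨0,[(10,0),(28,0),(1,
  0)]⟩⟩,⟨false,0,⟨0,[(8,0),(16,0)]⟩,⟨1,[(4,0),(0,0),(4,0),(24,0),(5,2)]⟩⟩,⟨true,0,⟨0,[(41,0)]⟩,⟨0,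
  [(40,0)]⟩⟩,⟨false,(-1),⟨0,[(17,0)]⟩,⟨3,[(0,2),(3,2),(5,0),(13,0),(10,1),(5,5)]⟩⟩,⟨false,1,⟨1,[(24,
  0),(0,0),(17,0)]⟩,⟨0,[]⟩⟩,⟨false,(-1),⟨0,[(7,0)]⟩,⟨3,[(0,2),(3,2),(5,0),(13,0),(10,1),(5,9)]⟩⟩,
  [.o ⟨false,0,⟨0,[(40,0)]⟩,⟨3,[(0,1),(30,0),(0,0),(2,1),(5,1)]⟩⟩,.a ⟨true,0,⟨0,[(4,0),(13,0)]⟩,⟨0,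
  [(41,0)]⟩⟩ ⟨false,1,⟨0,[(0,0)]⟩,⟨7,[(10,0),(0,1),(1,0),(5,1),(18,6)]⟩⟩ ⟨true,(-1),⟨0,[(1,0)]⟩,⟨1,
  [(4,0),(0,0),(4,0),(24,0),(5,4)]⟩⟩,.e ⟨false,1,⟨1,[(0,1),(30,0),(0,0)]⟩,⟨0,[(40,0)]⟩⟩ ⟨false,(-1),
  ⟨0,[(1,0)]⟩,⟨3,[(0,1),(23,3),(6,0),(0,0),(2,1),(5,1)]⟩⟩,.o ⟨false,1,⟨1,[(4,0),(0,0),(4,0),(24,0),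
  (5,2)]⟩,⟨1,[(1,0),(13,0),(2,0),(16,0)]⟩⟩]⟩) (.S ⟨1,0,[0,0,0,-1],[1,0,0,0,-1],[0,-1,0,-1],(⟨0,[(26,
  0)]⟩,⟨0,[(27,0)]⟩),⟨0,[(3,0)]⟩,.k,(.r (-1) ⟨3,[(15,1),(8,0),(0,0),(15,1),(1,0)]⟩ ⟨3,[(10,0),(0,0),
  (7,0),(4,0),(0,0),(12,0)]⟩),⟨true,0,⟨0,[(41,0)]⟩,⟨0,[(40,0)]⟩⟩,⟨false,0,⟨0,[(41,0)]⟩,⟨3,[(13,1),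
  (10,0),(0,0),(17,0)]⟩⟩,⟨false,1,⟨1,[(24,0),(0,0),(17,0)]⟩,⟨0,[]⟩⟩,⟨true,0,⟨0,[(45,0)]⟩,⟨0,[]⟩⟩,
  [.a ⟨true,1,⟨0,[(24,0),(16,0)]⟩,⟨0,[(1,0)]⟩⟩ ⟨false,1,⟨3,[(15,1),(8,0),(0,0),(15,1),(1,0)]⟩,⟨0,
  [(40,0)]⟩⟩ ⟨true,0,⟨0,[(41,0)]⟩,⟨11,[(10,3),(2,1),(10,0),(0,0),(17,0)]⟩⟩,.a ⟨true,1,⟨0,[(4,0),(36,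
  1)]⟩,⟨0,[(17,0)]⟩⟩ ⟨true,1,⟨0,[(41,0),(1,0)]⟩,⟨0,[(0,0)]⟩⟩ ⟨false,1,⟨3,[(15,1),(8,0),(0,0),(15,1),
  (1,0)]⟩,⟨0,[(40,0)]⟩⟩,.a ⟨true,1,⟨0,[(24,0)]⟩,⟨0,[(2,0)]⟩⟩ ⟨false,1,⟨0,[(41,0),(1,0)]⟩,⟨0,[(40,
  0)]⟩⟩ ⟨true,0,⟨0,[(41,0)]⟩,⟨0,[(40,0)]⟩⟩,.o ⟨false,1,⟨1,[(4,0),(0,0),(4,0),(24,0),(5,2)]⟩,⟨1,[(1,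
  0),(13,0),(2,0),(16,0)]⟩⟩]⟩)) (.R ⟨2,true,false,true,[0,1],[1,0,0,0,-1],[1,1,1,1],(⟨0,[]⟩,⟨0,[]⟩),
  (⟨0,[(25,0)]⟩,⟨0,[(26,0)]⟩),⟨0,[]⟩,.k,.k,.k,(.r 0 ⟨3,[(9,0),(0,0),(7,0),(4,0),(0,0),(12,0)]⟩ ⟨3,
  [(14,1),(8,0),(0,0),(15,1),(1,0)]⟩),.k,.k,⟨false,0,⟨0,[(39,0)]⟩,⟨3,[(14,1),(8,0),(0,0),(15,1),(1,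
  0)]⟩⟩,⟨true,1,⟨5,[(0,3),(8,1),(13,1),(10,0),(7,0)]⟩,⟨0,[(1,0)]⟩⟩,⟨false,0,⟨0,[]⟩,⟨1,[(23,0),(0,0),
  (17,0)]⟩⟩,⟨true,1,⟨0,[(0,0)]⟩,⟨0,[(16,0)]⟩⟩,⟨true,0,⟨0,[(39,0)]⟩,⟨0,[(40,0)]⟩⟩,⟨false,2,⟨1,[(23,
  1),(10,0),(7,0)]⟩,⟨0,[(1,0)]⟩⟩,[]⟩))) (.Q [0,2,0,-1,-1,0,0,0,1,0,0,-1] (.p false [0,0,0,0,1] []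
  (⟨0,[(24,0)]⟩,⟨0,[(23,0)]⟩) .k 0 (⟨0,[]⟩,⟨0,[]⟩) .k .k) (.R ⟨0,false,false,true,[1,0,0,0,-1],[1,
  -1],[1,1],(⟨0,[(24,0)]⟩,⟨0,[(25,0)]⟩),(⟨0,[(34,0)]⟩,⟨0,[(35,0)]⟩),⟨0,[(1,0)]⟩,.k,.k,(.r (-1) ⟨3,
  [(13,1),(8,0),(0,0),(15,1),(1,0)]⟩ ⟨3,[(8,0),(0,0),(7,0),(4,0),(0,0),(12,0)]⟩),(.r (-1) ⟨11,[(8,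
  3),(2,1),(10,6),(0,6),(17,6)]⟩ ⟨0,[(37,0),(1,1)]⟩),.k,.k,⟨true,0,⟨11,[(8,3),(2,1),(10,0),(0,0),
  (17,0)]⟩,⟨0,[(39,0)]⟩⟩,⟨false,0,⟨0,[(23,0)]⟩,⟨0,[(3,0)]⟩⟩,⟨false,0,⟨0,[(43,0)]⟩,⟨0,[(41,0)]⟩⟩,
  ⟨true,(-1),⟨0,[(0,0)]⟩,⟨0,[(2,0)]⟩⟩,⟨false,0,⟨0,[]⟩,⟨0,[]⟩⟩,⟨false,0,⟨0,[]⟩,⟨0,[]⟩⟩,[.e ⟨false,0,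
  ⟨0,[(37,0),(1,0)]⟩,⟨1,[(22,0),(0,0),(17,0)]⟩⟩ ⟨false,0,⟨6,[(0,3),(12,2),(8,0),(0,3),(12,0)]⟩,⟨0,
  [(2,0)]⟩⟩,.a ⟨true,0,⟨0,[(39,0)]⟩,⟨0,[(2,0),(13,0)]⟩⟩ ⟨true,0,⟨0,[]⟩,⟨1,[(29,0),(0,0)]⟩⟩ ⟨false,0,
  ⟨0,[(4,0),(1,0),(23,0),(2,0),(5,0)]⟩,⟨3,[(3,2),(4,0),(2,0),(10,0)]⟩⟩,.e ⟨false,0,⟨0,[]⟩,⟨1,[(22,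
  0),(0,0),(17,0)]⟩⟩ ⟨false,0,⟨0,[(23,0),(15,0)]⟩,⟨0,[(2,0)]⟩⟩,.o ⟨false,1,⟨1,[(2,0),(0,0),(4,0),
  (24,0),(5,2)]⟩,⟨0,[(4,0),(1,0),(23,0),(2,0)]⟩⟩]⟩) (.S ⟨1,0,[0,1,0,-1],[0,0,0,0,1],[1,2],(⟨0,[(25,
  0)]⟩,⟨0,[(24,0)]⟩),⟨0,[(1,0),(18,0),(0,0)]⟩,.k,(.r 0 ⟨0,[(37,0),(1,1)]⟩ ⟨11,[(8,3),(2,1),(10,6),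
  (0,6),(17,6)]⟩),⟨false,0,⟨0,[]⟩,⟨1,[(22,0),(0,0),(17,0)]⟩⟩,⟨true,0,⟨0,[(39,0)]⟩,⟨0,[(38,0)]⟩⟩,
  ⟨true,0,⟨0,[(38,0)]⟩,⟨0,[(39,0)]⟩⟩,⟨false,1,⟨1,[(22,0),(0,0),(17,0)]⟩,⟨0,[]⟩⟩,[.e ⟨false,0,⟨0,
  [(36,0)]⟩,⟨0,[(41,0)]⟩⟩ ⟨false,0,⟨0,[(37,0),(1,1)]⟩,⟨3,[(11,1),(10,0),(0,0),(17,0)]⟩⟩,.o ⟨false,0,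
  ⟨0,[(23,0),(15,0)]⟩,⟨1,[(0,1),(7,0),(24,0),(3,2),(1,4)]⟩⟩,.o ⟨false,0,⟨0,[(23,0)]⟩,⟨1,[(0,1),(7,
  0),(24,0),(3,2),(1,6)]⟩⟩,.a ⟨true,(-1),⟨0,[(4,0),(25,0)]⟩,⟨0,[(3,0)]⟩⟩ ⟨false,0,⟨0,[(37,0),(1,
  0)]⟩,⟨1,[(29,0),(0,0),(10,1)]⟩⟩ ⟨true,0,⟨0,[(37,0),(1,1)]⟩,⟨11,[(8,3),(2,1),(10,0),(0,0),(17,
  0)]⟩⟩]⟩)))))))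

theorem ok28 : chk K t28 r23 = true := by decide +kernel


end Helper25.S1T.Ymm_1c
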