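import Pool.Agent.Helper25.S1T.Ymm_35_p0
import Pool.Agent.Helper25.S1T.Ymm_35_p1

set_option autoImplicit false
set_option linter.all false

namespace Helper25.S1T.Ymm_35

open Helper25.KG Helper25.KW Helper55.KE Helper11.CT

noncomputable def t2 : Tre :=
  .Q [0,0,0,0,0,1,0,0,0,-1,1] (.ed false [0,1,1] .k) t0 t1

theorem ok2 : chk K t2 l0 = true :=
  chk_Q (e' := [0,0,0,0,0,-1,0,0,0,1,-1]) (by decide +kernel) (by decide +kernel) ok0 ok1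

noncomputable def t6 : Tre :=
  .Q [0,0,-1,0,0,0,0,0,0,1] (.pp false [-1,1]) t4 t5

theorem ok6 : chk K t6 l7 = true :=
  chk_Q (e' := [0,0,1,0,0,0,0,0,0,-1]) (by decide +kernel) (by decide +kernel) ok4 ok5

noncomputable def t8 : Tre :=
  .Q [0,0,1,0,0,0,-1,-1,0,-1,1] (.p true [0,0,1] [1] (⟨0,[(17,0)]⟩,⟨0,[(16,0)]⟩) .k 1 (⟨0,[]⟩,⟨0,
  []⟩) .k .k) t6 t7

theorem ok8 : chk K t8 l6 = true :=
  chk_Q (e' := [0,0,-1,0,0,0,1,1,0,1,-1]) (by decide +kernel) (by decide +kernel) ok6 ok7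

noncomputable def t10 : Tre :=
  .Q [0,0,0,1,0,0,-1,-1,0,0,1] (.p true [0,0,1] [] (⟨0,[(16,0)]⟩,⟨0,[(15,0)]⟩) .k 0 (⟨0,[]⟩,⟨0,[]⟩)
  .k .k) t8 t9

theorem ok10 : chk K t10 r5 = true :=
  chk_Q (e' := [0,0,0,-1,0,0,1,1,0,0,-1]) (by decide +kernel) (by decide +kernel) ok8 ok9

noncomputable def t11 : Tre :=
  .I [1,0,0,-1,0,0,0,1] t3 t10

theorem ok11 : chk K t11 l4 = true :=
  chk_I (e' := [0,0,0,1,0,0,0,-1]) (by decide +kernel) (by decide +kernel) ok3 ok10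

noncomputable def t13 : Tre :=
  .Q [0,0,0,0,0,0,1,0,0,0,-1] (.p false [0,0,1] [] (⟨0,[(14,0)]⟩,⟨0,[(13,0)]⟩) .k 0 (⟨0,[]⟩,⟨0,[]⟩)
  .k .k) t11 t12

theorem ok13 : chk K t13 l3 = true :=
  chk_Q (e' := [0,0,0,0,0,0,-1,0,0,0,1]) (by decide +kernel) (by decide +kernel) ok11 ok12

noncomputable def t22 : Tre :=
  .Q [0,0,1,-1,0,0,0,1,0,-1] (.pp true [-1,1]) t20 t21

theorem ok22 : chk K t22 r16 = true :=
  chk_Q (e' := [0,0,-1,1,0,0,0,-1,0,1]) (by decide +kernel) (by decide +kernel) ok20 ok21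

noncomputable def t23 : Tre :=
  .Q [0,-1,0,-1,1,0,-1,-1,0,-1,1] (.p true [0,0,1] [1] (⟨0,[(21,0)]⟩,⟨0,[(20,0)]⟩) .k 1 (⟨0,[]⟩,⟨0,
  []⟩) .k .k) t19 t22

theorem ok23 : chk K t23 r15 = true :=
  chk_Q (e' := [0,1,0,1,-1,0,1,1,0,1,-1]) (by decide +kernel) (by decide +kernel) ok19 ok22

noncomputable def t24 : Tre :=
  .Q [0,-1,0,0,1,0,-1,-1,0,-1,1] (.p true [0,0,1] [1] (⟨0,[(20,0)]⟩,⟨0,[(19,0)]⟩) .k 1 (⟨0,[]⟩,⟨0,
  []⟩) .k .k) t18 t23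

theorem ok24 : chk K t24 l14 = true :=
  chk_Q (e' := [0,1,0,0,-1,0,1,1,0,1,-1]) (by decide +kernel) (by decide +kernel) ok18 ok23

noncomputable def t26 : Tre :=
  .I [0,1,-1,-1,0,0,0,-1] t24 t25

theorem ok26 : chk K t26 r13 = true :=
  chk_I (e' := [1,-1,1,1,0,0,0,1]) (by decide +kernel) (by decide +kernel) ok24 ok25

noncomputable def t27 : Tre :=
  .I [1,0,-1,-1,0,0,0,-1] t17 t26

theorem ok27 : chk K t27 r12 = true :=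
  chk_I (e' := [0,0,1,1,0,0,0,1]) (by decide +kernel) (by decide +kernel) ok17 ok26

noncomputable def t28 : Tre :=
  .Q [0,0,0,0,0,1,0,0,0,-1,1] (.ed false [0,1,1] .k) t16 t27

theorem ok28 : chk K t28 r11 = true :=
  chk_Q (e' := [0,0,0,0,0,-1,0,0,0,1,-1]) (by decide +kernel) (by decide +kernel) ok16 ok27

noncomputable def t29 : Tre :=
  .Q [0,-1,0,-1,0,0,1,1,0,0,-1] (.p false [0,0,1] [] (⟨0,[(16,0)]⟩,⟨0,[(15,0)]⟩) .k 0 (⟨0,[]⟩,⟨0,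
  []⟩) .k .k) t15 t28

theorem ok29 : chk K t29 l10 = true :=
  chk_Q (e' := [0,1,0,1,0,0,-1,-1,0,0,1]) (by decide +kernel) (by decide +kernel) ok15 ok28

noncomputable def t31 : Tre :=
  .I [1,1,0,1,0,0,0,-1] t29 t30

theorem ok31 : chk K t31 r9 = true :=
  chk_I (e' := [0,-1,0,-1,0,0,0,1]) (by decide +kernel) (by decide +kernel) ok29 ok30

noncomputable def t32 : Tre :=
  .Q [0,0,0,0,0,0,-1,0,0,0,1] (.p true [0,0,1] [] (⟨0,[(14,0)]⟩,⟨0,[(13,0)]⟩) .k 0 (⟨0,[]⟩,⟨0,[]⟩)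
  .k .k) t14 t31

theorem ok32 : chk K t32 r3 = true :=
  chk_Q (e' := [0,0,0,0,0,0,1,0,0,0,-1]) (by decide +kernel) (by decide +kernel) ok14 ok31

noncomputable def t33 : Tre :=
  .Q [0,0,0,0,0,0,-1,-1,0,0,1] (.p true [0,0,1] [] (⟨0,[(13,0)]⟩,⟨0,[(12,0)]⟩) .k 0 (⟨0,[]⟩,⟨0,[]⟩)
  .k .k) t13 t32

theorem ok33 : chk K t33 l2 = true :=
  chk_Q (e' := [0,0,0,0,0,0,1,1,0,0,-1]) (by decide +kernel) (by decide +kernel) ok13 ok32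

noncomputable def t35 : Tre :=
  .Q [0,0,0,1,0,0,1,1,0,1,-1] (.p false [0,0,1] [1] (⟨0,[(12,0)]⟩,⟨0,[(11,0)]⟩) .k 1 (⟨0,[]⟩,⟨0,
  []⟩) .k .k) t33 t34

theorem ok35 : chk K t35 r0 = true :=
  chk_Q (e' := [0,0,0,-1,0,0,-1,-1,0,-1,1]) (by decide +kernel) (by decide +kernel) ok33 ok34

noncomputable def t36 : Tre :=
  .I [1,0,-1,0,0,0,0,-1] t2 t35

theorem ok36 : chk K t36 base = true :=
  chk_I (e' := [0,0,1,0,0,0,0,1]) (by decide +kernel) (by decide +kernel) ok2 ok35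

theorem closed {p a b c J l q : ℤ} {D dl : ℝ} {Cl : ℤ → ℤ → ℤ → ℤ → ℝ → Prop}
    (W : World p a b c J (-1) l q D dl Cl) (g : G0 p a b c J D)
    {N X R : ℤ} {I : ℝ} (hk : KCl p l Cl N X R I) (kz : KF a b D (X + (-1 : ℤ) * I) (X + (-1 : ℤ) * I + R) I)
    {Ne Xe : ℤ} {Ie : ℝ} (he : EFac p (-1) D Cl 1 Ne Xe Ie)
    (hkf : ∀ kf ∈ (kfY (-1) [0,0,0,0,0,0,1,0,0,0,-1]), KOk p l Cl (-1)
      (xv [1, a, b, c, p, J, X, R, Xe] [D, I, Ie]) N kf)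
    (h0 : 1 ≤ -(c : ℝ))
    (h1 : 1 ≤ 1 - (a : ℝ) + (b : ℝ))
    (h2 : 1 ≤ 2 * (a : ℝ) - (b : ℝ))
    (h3 : 1 ≤ 2 * (a : ℝ) - (b : ℝ))
    (h4 : 0 < -(b : ℝ) + (X : ℝ) + D - I)
    (h5 : 0 < 2 * (X : ℝ) + D - 2 * I) : False := by
  have g1 := g.a2
  have g2 := g.b2
  have g3 := g.pa
  have g4 := g.pb
  have g5 := g.J1
  have g6 := g.JD
  have g7 := g.D2
  have g8 := g.ca
  have g9 := g.ca'
  have k1 := kz.I0
  have k2 := kz.ID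
  have k3 := kz.z1
  have k4 := kz.z2
  have k5 := kz.s1
  have k6 := kz.s2
  have e1 := he.I0
  have e2 := he.ID
  have e3 := he.x0
  have e4 := he.xp
  push_cast at *
  refine (val_E W.toBase hk he (row := [1]) (by simp) (by simp) (kfY (-1) [0,0,0,0,0,0,1,0,0,0,-1])).sound W rfl (Nk := N)
    (fun kf _ _ => ⟨_, rfl⟩) hkf ?_ ok36
  · simp only [base, List.forall_mem_cons, List.not_mem_nil, false_imp_iff, implies_true,
      and_true, hld, xv, evg_cons, evg_nil, List.map_cons, List.map_nil, List.cons_append,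
      List.nil_append, if_true, if_false, Bool.false_eq_true]
    push_cast
    refine ⟨?_, ?_, ?_, ?_, ?_, ?_, ?_, ?_, ?_, ?_, ?_, ?_, ?_, ?_, ?_, ?_, ?_, ?_, ?_, ?_, ?_, ?_, ?_, ?_⟩ <;> linarith

end Helper25.S1T.Ymm_35
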