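import Pool.Agent.Helper25.KG.S1b
import Pool.Agent.Helper11.CT.Cut

set_option autoImplicit false
set_option linter.all false

namespace Helper25.S1T.Ymm_35

open Helper25.KG Helper25.KW Helper55.KE Helper11.CT

noncomputable def K : Cls :=
  cE (-1) [1] (kfY (-1) [0,0,0,0,0,0,1,0,0,0,-1])

noncomputable def base : List Con :=
  [(false,[0,0,0,0,0,0,2,0,0,1,-2]),
  (false,[0,0,0,0,1,0,0,0,-1,0,0,1]),
  (false,[0,0,0,0,0,0,0,0,1,0,0,-1]),
  (false,[0,0,0,0,0,0,0,0,0,1,0,-1]),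
  (false,[0,0,0,0,0,0,0,0,0,0,0,1]),
  (false,[0,0,-1,0,0,0,1,0,0,1,-1]),
  (false,[0,1,0,0,0,0,1,1,0,0,-1]),
  (false,[0,1,0,0,0,0,-1,-1,0,0,1]),
  (false,[0,0,1,0,0,0,1,0,0,0,-1]),
  (false,[0,0,1,0,0,0,-1,0,0,0,1]),
  (false,[0,0,0,0,0,0,0,0,0,1,-1]),
  (false,[0,0,0,0,0,0,0,0,0,0,1]),
  (false,[0,0,0,0,1,0,0,0,0,-2]),
  (false,[0,0,0,0,0,-1,0,0,0,1]),
  (true,[0,0,0,0,0,1]),
  (true,[0,2,-1]),
  (true,[0,2,-1]),
  (true,[1,-1,1]),
  (true,[0,1,0,1]),
  (true,[0,0,0,-1]),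
  (true,[0,0,-2,0,1]),
  (true,[0,-2,0,0,1]),
  (true,[-1,0,1]),
  (true,[-1,1])]

noncomputable def l0 : List Con := (true, [1,0,-1,0,0,0,0,-1]) :: base

noncomputable def r0 : List Con := (true, [0,0,1,0,0,0,0,1]) :: base

noncomputable def l1 : List Con := (false, [0,0,0,0,0,1,0,0,0,-1,1]) :: l0

noncomputable def r1 : List Con := (false, [0,0,0,0,0,-1,0,0,0,1,-1]) :: l0

noncomputable def l2 : List Con := (false, [0,0,0,1,0,0,1,1,0,1,-1]) :: r0

noncomputable def r2 : List Con := (false, [0,0,0,-1,0,0,-1,-1,0,-1,1]) :: r0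

noncomputable def l3 : List Con := (false, [0,0,0,0,0,0,-1,-1,0,0,1]) :: l2

noncomputable def r3 : List Con := (false, [0,0,0,0,0,0,1,1,0,0,-1]) :: l2

noncomputable def l4 : List Con := (false, [0,0,0,0,0,0,1,0,0,0,-1]) :: l3

noncomputable def r4 : List Con := (false, [0,0,0,0,0,0,-1,0,0,0,1]) :: l3

noncomputable def l5 : List Con := (true, [1,0,0,-1,0,0,0,1]) :: l4

noncomputable def r5 : List Con := (true, [0,0,0,1,0,0,0,-1]) :: l4

noncomputable def l6 : List Con := (false, [0,0,0,1,0,0,-1,-1,0,0,1]) :: r5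

noncomputable def r6 : List Con := (false, [0,0,0,-1,0,0,1,1,0,0,-1]) :: r5

noncomputable def l7 : List Con := (false, [0,0,1,0,0,0,-1,-1,0,-1,1]) :: l6

noncomputable def r7 : List Con := (false, [0,0,-1,0,0,0,1,1,0,1,-1]) :: l6

noncomputable def l8 : List Con := (false, [0,0,-1,0,0,0,0,0,0,1]) :: l7

noncomputable def r8 : List Con := (false, [0,0,1,0,0,0,0,0,0,-1]) :: l7

noncomputable def l9 : List Con := (false, [0,0,0,0,0,0,-1,0,0,0,1]) :: r3

noncomputable def r9 : List Con := (false, [0,0,0,0,0,0,1,0,0,0,-1]) :: r3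

noncomputable def l10 : List Con := (true, [1,1,0,1,0,0,0,-1]) :: r9

noncomputable def r10 : List Con := (true, [0,-1,0,-1,0,0,0,1]) :: r9

noncomputable def l11 : List Con := (false, [0,-1,0,-1,0,0,1,1,0,0,-1]) :: l10

noncomputable def r11 : List Con := (false, [0,1,0,1,0,0,-1,-1,0,0,1]) :: l10

noncomputable def l12 : List Con := (false, [0,0,0,0,0,1,0,0,0,-1,1]) :: r11

noncomputable def r12 : List Con := (false, [0,0,0,0,0,-1,0,0,0,1,-1]) :: r11

noncomputable def l13 : List Con := (true, [1,0,-1,-1,0,0,0,-1]) :: r12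

noncomputable def r13 : List Con := (true, [0,0,1,1,0,0,0,1]) :: r12

noncomputable def l14 : List Con := (true, [0,1,-1,-1,0,0,0,-1]) :: r13

noncomputable def r14 : List Con := (true, [1,-1,1,1,0,0,0,1]) :: r13

noncomputable def l15 : List Con := (false, [0,-1,0,0,1,0,-1,-1,0,-1,1]) :: l14

noncomputable def r15 : List Con := (false, [0,1,0,0,-1,0,1,1,0,1,-1]) :: l14

noncomputable def l16 : List Con := (false, [0,-1,0,-1,1,0,-1,-1,0,-1,1]) :: r15

noncomputable def r16 : List Con := (false, [0,1,0,1,-1,0,1,1,0,1,-1]) :: r15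

noncomputable def l17 : List Con := (false, [0,0,1,-1,0,0,0,1,0,-1]) :: r16

noncomputable def r17 : List Con := (false, [0,0,-1,1,0,0,0,-1,0,1]) :: r16


end Helper25.S1T.Ymm_35
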