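import Pool.Agent.Helper25.KG.S1b
import Pool.Agent.Helper11.CT.Cut

set_option autoImplicit false
set_option linter.all false

namespace Helper25.S1T.Ymp_1aP1

open Helper25.KG Helper25.KW Helper55.KE Helper11.CT

noncomputable def K : Cls :=
  cE 1 [0,1] (kfY 1 [0,0,0,0,0,0,1,0,0,0,1])

noncomputable def base : List Con :=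
  [(false,[0,0,0,0,0,0,-2,0,0,1,-2]),
  (false,[0,0,0,0,0,1,0,0,0,-1,1]),
  (false,[0,0,0,0,0,1,0,0,0,0,-1]),
  (false,[0,0,0,0,1,0,0,0,-1,0,0,-1]),
  (false,[0,0,0,0,0,0,0,0,1,0,0,1]),
  (false,[0,0,0,0,0,0,0,0,0,1,0,-1]),
  (false,[0,0,0,0,0,0,0,0,0,0,0,1]),
  (false,[0,0,-1,0,0,0,-1,0,0,1,-1]),
  (false,[0,1,0,0,0,0,1,1,0,0,1]),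
  (false,[0,1,0,0,0,0,-1,-1,0,0,-1]),
  (false,[0,0,1,0,0,0,1,0,0,0,1]),
  (false,[0,0,1,0,0,0,-1,0,0,0,-1]),
  (false,[0,0,0,0,0,0,0,0,0,1,-1]),
  (false,[0,0,0,0,0,0,0,0,0,0,1]),
  (true,[2,0,0,0,0,-1]),
  (false,[0,0,0,0,1,0,0,0,0,-2]),
  (false,[0,0,0,0,0,-1,0,0,0,1]),
  (true,[0,0,0,0,0,1]),
  (true,[0,2,-1]),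
  (false,[1,0,0,0,1,0,0,0,0,-3]),
  (true,[0,1,-1,1]),
  (true,[0,1,0,1]),
  (true,[0,0,0,-1]),
  (true,[0,0,-2,0,1]),
  (true,[0,-2,0,0,1]),
  (true,[-1,0,1]),
  (true,[-1,1])]

noncomputable def l0 : List Con := (false, [0,-1,0,1,0,0,-2,-2,0,0,-2]) :: base

noncomputable def r0 : List Con := (false, [0,1,0,-1,0,0,2,2,0,0,2]) :: base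

noncomputable def l1 : List Con := (false, [0,1,0,1,0,0,-1,-1,0,0,-1]) :: r0

noncomputable def r1 : List Con := (false, [0,-1,0,-1,0,0,1,1,0,0,1]) :: r0

noncomputable def t0 : Tre :=
  (.Q [0,0,-1,0,0,0,-2,0,0,0,-2] (.p false [0,0,1] [0,1,-1] (⟨0,[(14,0)]⟩,⟨0,[(13,0)]⟩) .k 2 (⟨0,
  [(3,0)]⟩,⟨0,[(14,0),(2,0)]⟩) .k (.x (-1) ⟨3,[(3,7),(7,7),(3,7),(5,1),(1,1),(0,2),(0,0)]⟩ ⟨2,[(1,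
  1),(0,3),(5,1),(5,1),(0,3),(10,1)]⟩)) (.Q [0,0,0,1,0,0,-1,-1,0,-1,-1] (.p false [1,-1,1] [] (⟨0,
  [(15,0),(2,0)]⟩,⟨0,[(4,0)]⟩) .k 0 (⟨0,[]⟩,⟨0,[]⟩) .k .k) (.R ⟨0,false,false,false,[0,0,1],[0,1,
  -1],[1,0,0,-1,0,0,0,1],(⟨0,[(16,0)]⟩,⟨0,[(15,0)]⟩),(⟨0,[(5,0)]⟩,⟨0,[(16,0),(2,0)]⟩),⟨0,[(5,0)]⟩,
  .k,.k,.k,(.r (-1) ⟨0,[(1,0),(9,1),(13,0),(1,0)]⟩ ⟨0,[(2,0),(10,1),(9,0),(1,0)]⟩),.k,.k,⟨false,1,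
  ⟨0,[(4,1),(0,1),(4,1),(0,1),(5,3),(7,1),(1,0)]⟩,⟨0,[(2,0),(10,1),(9,0)]⟩⟩,⟨true,0,⟨0,[(1,0)]⟩,⟨0,
  [(13,1)]⟩⟩,⟨true,0,⟨0,[(25,0)]⟩,⟨0,[(24,0)]⟩⟩,⟨false,0,⟨0,[(2,0)]⟩,⟨0,[(11,1),(13,0),(1,0)]⟩⟩,
  ⟨false,0,⟨0,[]⟩,⟨0,[]⟩⟩,⟨false,0,⟨0,[]⟩,⟨0,[]⟩⟩,[.o ⟨false,0,⟨0,[(0,0)]⟩,⟨1,[(6,0),(0,0),(3,1),
  (13,1),(1,0)]⟩⟩,.o ⟨false,1,⟨1,[(2,0),(15,0),(5,0),(2,0)]⟩,⟨0,[(11,0),(13,0)]⟩⟩,.o ⟨false,1,⟨1,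
  [(13,1),(4,0),(7,0)]⟩,⟨2,[(1,0),(12,0)]⟩⟩,.a ⟨true,0,⟨0,[(13,0)]⟩,⟨0,[(10,0)]⟩⟩ ⟨false,1,⟨0,[(4,
  0),(0,0),(4,0),(0,0),(5,1),(7,0),(1,0)]⟩,⟨1,[(2,0),(10,1),(10,0)]⟩⟩ ⟨true,0,⟨1,[(1,0),(0,0),(20,
  0)]⟩,⟨0,[(11,0),(1,0),(11,0)]⟩⟩]⟩) (.I [0,0,0,0,1,0,0,0,-1] (.I [0,0,-1,0,0,1,-1] (.I [0,0,1,0,0,
  1,1] (.I [0,-1,0,0,0,1,-1,-1] (.C [(0,0),(3,0),(3,0),(0,1),(11,3),(5,0),(4,0)]) (.C [(0,0),(3,0),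
  (1,0),(1,0)])) (.C [(0,0),(7,0),(7,0)])) (.C [(0,1),(1,1),(0,0),(0,0),(1,1),(18,0)])) (.C [(0,0),
  (6,0),(2,0)]))) (.I [0,0,0,0,1,0,0,0,-1] (.I [0,0,-1,0,0,1,-1] (.C [(0,1),(1,0),(3,1),(11,3),(10,
  0)]) (.C [(0,0),(4,0),(5,0)])) (.C [(0,0),(5,0),(2,0)])))

theorem ok0 : chk K t0 l0 = true := by decide +kernel

noncomputable def t1 : Tre :=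
  (.Q [0,0,0,1,0,0,-1,-1,0,-1,-1] (.p false [1,-1,1] [] (⟨0,[(15,0),(2,0)]⟩,⟨0,[(4,0)]⟩) .k 0 (⟨0,
  []⟩,⟨0,[]⟩) .k .k) (.I [0,0,-1,0,0,-1,-2] (.R ⟨0,false,false,false,[0,0,1],[0,1,-1],[1,1,1],(⟨0,
  [(17,0)]⟩,⟨0,[(16,0)]⟩),(⟨0,[(6,0)]⟩,⟨0,[(17,0),(2,0)]⟩),⟨0,[(6,0)]⟩,.k,.k,.k,(.x (-1) ⟨1,[(6,1),
  (7,3),(1,1),(2,0),(7,0)]⟩ ⟨0,[(0,0)]⟩),.k,.k,⟨false,0,⟨0,[(1,0),(1,0),(7,0),(14,0)]⟩,⟨1,[(1,1),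
  (12,1),(5,1),(0,1),(5,0),(0,0)]⟩⟩,⟨true,0,⟨0,[(0,0),(5,1),(11,0)]⟩,⟨0,[(14,1)]⟩⟩,⟨false,0,⟨0,[(1,
  0),(12,0),(5,0),(0,0),(4,0)]⟩,⟨1,[(0,0),(2,0),(2,1),(11,0),(5,0),(3,1)]⟩⟩,⟨true,0,⟨0,[(1,1),(18,
  1),(0,1),(4,0)]⟩,⟨0,[(3,0)]⟩⟩,⟨false,0,⟨0,[]⟩,⟨0,[]⟩⟩,⟨false,0,⟨0,[]⟩,⟨0,[]⟩⟩,[.o ⟨false,0,⟨0,[(1,
  0)]⟩,⟨3,[(3,1),(3,2),(0,2),(17,1),(1,0)]⟩⟩,.o ⟨false,1,⟨4,[(1,1),(0,2),(20,0),(4,3)]⟩,⟨2,[(3,1),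
  (9,0),(12,0)]⟩⟩,.o ⟨false,1,⟨1,[(14,1),(4,0),(7,0)]⟩,⟨2,[(0,0),(5,1),(8,0),(2,0)]⟩⟩,.a ⟨true,0,⟨0,
  [(14,0)]⟩,⟨0,[(11,0)]⟩⟩ ⟨false,0,⟨0,[]⟩,⟨1,[(7,0),(0,0),(19,0)]⟩⟩ ⟨true,0,⟨0,[(1,0),(9,0)]⟩,⟨2,
  [(3,1),(9,0),(0,2),(11,0)]⟩⟩]⟩) (.I [0,0,0,0,1,0,0,0,-1] (.I [0,1,0,0,0,0,1,1] (.I [0,0,-1,0,0,1,
  -1] (.C [(0,1),(2,0),(4,0),(0,0),(11,3),(1,0),(8,0)]) (.C [(0,0),(7,0),(5,0)])) (.C [(0,0),(2,0),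
  (1,0),(2,0),(13,0)])) (.C [(0,0),(7,0),(2,0)]))) (.I [0,1,0,0,0,0,0,-1] (.I [0,0,-1,-1] (.Q [0,0,
  1,-1,0,0,2,1,0,0,2] (.p true [0,0,1] [0,1,-1] (⟨0,[(18,0)]⟩,⟨0,[(17,0)]⟩) .k 2 (⟨0,[(7,0)]⟩,⟨0,
  [(18,0),(2,0)]⟩) .k (.x (-1) ⟨4,[(0,1),(6,6),(7,9),(1,2),(1,6),(4,0),(0,1),(2,2),(0,0)]⟩ ⟨2,[(5,
  1),(0,3),(5,1),(5,1),(0,3),(10,1)]⟩)) (.Q [0,-1,0,1,1,0,-2,-2,0,0,-2] (.p false [0,0,1] [0,1,-1]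
  (⟨0,[(19,0)]⟩,⟨0,[(18,0)]⟩) .k 2 (⟨0,[(8,0)]⟩,⟨0,[(19,0),(2,0)]⟩) .k (.x (-1) ⟨4,[(1,1),(6,6),(7,
  9),(1,2),(1,6),(4,0),(0,1),(2,2),(0,0)]⟩ ⟨2,[(6,1),(0,3),(5,1),(5,1),(0,3),(10,1)]⟩)) (.Q [0,0,0,
  1,0,0,-2,-2,0,0,-2] (.p false [0,0,1] [0,1,-1] (⟨0,[(20,0)]⟩,⟨0,[(19,0)]⟩) .k 2 (⟨0,[(9,0)]⟩,⟨0,
  [(20,0),(2,0)]⟩) .k (.x (-1) ⟨4,[(2,1),(6,6),(7,9),(1,2),(1,6),(4,0),(0,1),(2,2),(0,0)]⟩ ⟨2,[(7,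
  1),(0,3),(5,1),(5,1),(0,3),(10,1)]⟩)) (.Q [0,0,0,-1,0,0,1,1,0,0,1] (.p true [0,0,1] [] (⟨0,[(21,
  0)]⟩,⟨0,[(20,0)]⟩) .k 0 (⟨0,[]⟩,⟨0,[]⟩) .k .k) (.R ⟨2,true,false,false,[0,1],[0,0,1],[0,1,1],(⟨0,
  []⟩,⟨0,[]⟩),(⟨0,[(22,0)]⟩,⟨0,[(21,0)]⟩),⟨0,[]⟩,.k,.k,.k,.k,.k,.k,⟨false,0,⟨0,[(5,0)]⟩,⟨1,[(0,1),
  (8,0),(0,0),(0,0),(11,1),(5,1),(3,1)]⟩⟩,⟨true,0,⟨0,[(19,0)]⟩,⟨0,[(10,0),(0,0),(4,0),(6,1),(10,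
  0)]⟩⟩,⟨false,0,⟨0,[(31,0)]⟩,⟨0,[(30,0),(2,0)]⟩⟩,⟨true,0,⟨0,[(0,0)]⟩,⟨0,[(7,0)]⟩⟩,⟨true,0,⟨0,[(35,
  0)]⟩,⟨0,[]⟩⟩,⟨false,1,⟨1,[(8,0),(21,0),(2,1)]⟩,⟨1,[(1,0),(29,0)]⟩⟩,[]⟩) (.Q [0,0,-1,0,0,0,-2,0,0,
  0,-2] (.p false [0,0,1] [0,1,-1] (⟨0,[(22,0)]⟩,⟨0,[(21,0)]⟩) .k 2 (⟨0,[(11,0)]⟩,⟨0,[(22,0),(2,
  0)]⟩) .k (.r (-1) ⟨1,[(8,1),(0,0),(0,0),(0,0),(8,1),(2,1),(5,1),(3,1)]⟩ ⟨0,[(0,1),(3,1),(14,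
  1)]⟩)) (.R ⟨0,false,false,false,[0,0,1],[0,1,-1],[1,1,1],(⟨0,[(23,0)]⟩,⟨0,[(22,0)]⟩),(⟨0,[(12,
  0)]⟩,⟨0,[(23,0),(2,0)]⟩),⟨0,[(12,0)]⟩,.k,.k,.k,(.r (-1) ⟨9,[(0,3),(8,9),(0,5),(18,1),(3,2),(0,
  4)]⟩ ⟨0,[(1,1),(3,0),(14,1)]⟩),.k,.k,⟨false,0,⟨3,[(0,1),(4,0),(3,1),(18,0),(3,0)]⟩,⟨1,[(1,0),(4,
  0),(13,0),(9,0),(3,1)]⟩⟩,⟨true,0,⟨0,[(0,0)]⟩,⟨0,[(20,1)]⟩⟩,⟨false,0,⟨0,[(2,0),(1,0)]⟩,⟨1,[(0,0),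
  (8,0),(20,0),(3,1)]⟩⟩,⟨true,0,⟨0,[(2,0)]⟩,⟨0,[(9,0)]⟩⟩,⟨false,0,⟨0,[]⟩,⟨0,[]⟩⟩,⟨false,0,⟨0,[]⟩,⟨0,
  []⟩⟩,[.a ⟨true,0,⟨0,[(1,0)]⟩,⟨0,[(7,0)]⟩⟩ ⟨false,0,⟨0,[(36,0)]⟩,⟨1,[(33,0),(0,0)]⟩⟩ ⟨true,0,⟨2,
  [(0,0),(0,2),(19,0)]⟩,⟨0,[(4,0)]⟩⟩,.o ⟨false,1,⟨5,[(1,3),(1,0),(25,1),(1,0),(2,2)]⟩,⟨2,[(9,1),(9,
  0),(12,0)]⟩⟩,.o ⟨false,1,⟨1,[(20,1),(4,0),(7,0)]⟩,⟨2,[(0,0),(20,0)]⟩⟩,.e ⟨false,0,⟨0,[]⟩,⟨1,[(13,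
  0),(0,0),(19,0)]⟩⟩ ⟨false,1,⟨1,[(0,0),(2,0),(26,0),(3,0)]⟩,⟨0,[(4,0)]⟩⟩]⟩) (.I [0,0,0,0,1,0,0,0,
  -1] (.I [0,0,-1,0,0,1,-1] (.C [(0,1),(1,0),(11,1),(11,3),(10,0)]) (.C [(0,0),(12,0),(5,0)])) (.C
  [(0,0),(13,0),(2,0)])))) (.I [0,0,-1,-1,0,0,0,2] (.Q [0,0,-1,0,0,0,-2,0,0,0,-2] (.p false [0,0,1]
  [0,1,-1] (⟨0,[(22,0)]⟩,⟨0,[(21,0)]⟩) .k 2 (⟨0,[(11,0)]⟩,⟨0,[(22,0),(2,0)]⟩) .k (.x (-1) ⟨4,[(4,1),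
  (6,6),(7,9),(1,2),(1,6),(4,0),(0,1),(2,2),(0,0)]⟩ ⟨2,[(9,1),(0,3),(5,1),(5,1),(0,3),(10,1)]⟩))
  (.R ⟨0,false,false,false,[0,0,1],[0,1,-1],[0,0,0,-1,0,0,0,1],(⟨0,[(23,0)]⟩,⟨0,[(22,0)]⟩),(⟨0,[(12,
  0)]⟩,⟨0,[(23,0),(2,0)]⟩),⟨0,[(12,0)]⟩,.k,.k,.k,(.r 0 ⟨0,[(1,0)]⟩ ⟨3,[(3,2),(2,1),(13,5),(10,0),(1,
  0)]⟩),.k,.k,⟨false,0,⟨0,[(1,0),(3,0)]⟩,⟨0,[(3,0),(16,1),(9,0)]⟩⟩,⟨true,0,⟨0,[(0,0)]⟩,⟨0,[(20,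
  1)]⟩⟩,⟨true,0,⟨0,[(32,0)]⟩,⟨0,[(31,0)]⟩⟩,⟨false,1,⟨0,[(3,0)]⟩,⟨0,[(2,0)]⟩⟩,⟨false,0,⟨0,[]⟩,⟨0,
  []⟩⟩,⟨false,0,⟨0,[]⟩,⟨0,[]⟩⟩,[.o ⟨false,1,⟨1,[(3,0),(21,0),(5,0)]⟩,⟨3,[(1,0),(2,1),(0,0)]⟩⟩,.o
  ⟨false,1,⟨1,[(3,0),(7,1),(0,1),(11,3),(5,0),(3,0),(0,0)]⟩,⟨2,[(9,1),(9,0),(12,0)]⟩⟩,.o ⟨false,1,
  ⟨1,[(20,1),(4,0),(7,0)]⟩,⟨2,[(0,0),(20,0)]⟩⟩,.a ⟨true,0,⟨0,[(20,0)]⟩,⟨0,[(17,0)]⟩⟩ ⟨true,0,⟨1,[(1,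
  0),(3,0)]⟩,⟨0,[(8,0),(11,0)]⟩⟩ ⟨false,1,⟨1,[(0,0),(2,0),(26,0),(3,0)]⟩,⟨0,[(4,0)]⟩⟩]⟩) (.I [0,0,0,
  0,1,0,0,0,-1] (.I [0,0,-1,0,0,1,-1] (.C [(0,1),(1,0),(11,1),(11,3),(10,0)]) (.C [(0,0),(12,0),(5,
  0)])) (.C [(0,0),(13,0),(2,0)]))) (.I [0,0,0,0,1,0,0,0,-1] (.I [0,0,-1,0,0,1,-1] (.C [(0,1),(1,0),
  (0,0),(9,1),(11,3),(10,0)]) (.C [(0,0),(11,0),(5,0)])) (.C [(0,0),(12,0),(2,0)])))) (.Q [0,-1,-1,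
  1,1,0,-2,-1,0,0,-2] (.p false [0,0,1] [0,1,-1] (⟨0,[(20,0)]⟩,⟨0,[(19,0)]⟩) .k 2 (⟨0,[(9,0)]⟩,⟨0,
  [(20,0),(2,0)]⟩) .k (.r 0 ⟨1,[(0,1),(6,0),(0,0),(0,0),(8,1),(2,1),(5,1),(3,1)]⟩ ⟨0,[(3,1),(27,
  0)]⟩)) (.Q [0,0,-1,0,0,0,-2,0,0,0,-2] (.p false [0,0,1] [0,1,-1] (⟨0,[(21,0)]⟩,⟨0,[(20,0)]⟩) .k 2
  (⟨0,[(10,0)]⟩,⟨0,[(21,0),(2,0)]⟩) .k (.r 0 ⟨1,[(0,1),(0,2),(17,1),(9,0),(2,0)]⟩ ⟨0,[(4,1),(27,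
  0)]⟩)) (.R ⟨0,false,false,false,[0,0,1],[0,1,-1],[1,0,1],(⟨0,[(22,0)]⟩,⟨0,[(21,0)]⟩),(⟨0,[(11,
  0)]⟩,⟨0,[(22,0),(2,0)]⟩),⟨0,[(11,0)]⟩,.k,.k,.k,(.r 0 ⟨1,[(0,1),(1,0),(5,0),(24,0)]⟩ ⟨0,[(1,0),(3,
  0),(13,1)]⟩),.k,.k,⟨false,0,⟨3,[(0,1),(1,0),(1,1),(3,0),(24,0)]⟩,⟨0,[(5,0),(24,0),(2,0)]⟩⟩,⟨true,
  0,⟨0,[(0,0)]⟩,⟨0,[(19,1)]⟩⟩,⟨false,1,⟨1,[(5,1),(13,0),(0,0),(12,1)]⟩,⟨1,[(0,0),(1,0),(26,0),(3,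
  0)]⟩⟩,⟨true,1,⟨1,[(1,1),(3,1),(13,0),(0,0)]⟩,⟨0,[(2,0)]⟩⟩,⟨false,0,⟨0,[]⟩,⟨0,[]⟩⟩,⟨false,0,⟨0,[]⟩,
  ⟨0,[]⟩⟩,[.o ⟨false,1,⟨1,[(1,0),(5,0),(11,0),(4,0)]⟩,⟨3,[(2,0),(5,0),(22,1),(1,0)]⟩⟩,.e ⟨false,1,
  ⟨1,[(12,0),(0,0),(19,0)]⟩,⟨2,[(4,0),(22,0),(1,0)]⟩⟩ ⟨false,1,⟨0,[(1,0)]⟩,⟨3,[(2,0),(0,1),(1,1),(2,
  0),(23,0)]⟩⟩,.o ⟨false,1,⟨1,[(19,1),(4,0),(7,0)]⟩,⟨2,[(0,0),(19,0)]⟩⟩,.a ⟨true,0,⟨0,[(19,0)]⟩,⟨0,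
  [(16,0)]⟩⟩ ⟨true,0,⟨0,[]⟩,⟨0,[(35,0)]⟩⟩ ⟨false,1,⟨0,[(1,0)]⟩,⟨0,[(3,0)]⟩⟩]⟩) (.I [0,0,0,0,1,0,0,0,
  -1] (.I [0,0,-1,0,0,1,-1] (.C [(0,1),(1,0),(10,1),(11,3),(10,0)]) (.C [(0,0),(11,0),(5,0)])) (.C
  [(0,0),(12,0),(2,0)]))) (.I [0,0,0,0,1,0,0,0,-1] (.I [0,0,-1,0,0,1,-1] (.C [(0,0),(1,0),(5,0),(3,
  0),(11,1),(9,0)]) (.C [(0,0),(10,0),(5,0)])) (.C [(0,0),(11,0),(2,0)])))) (.Q [0,0,-1,0,0,0,-2,0,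
  0,0,-2] (.p false [0,0,1] [0,1,-1] (⟨0,[(19,0)]⟩,⟨0,[(18,0)]⟩) .k 2 (⟨0,[(8,0)]⟩,⟨0,[(19,0),(2,
  0)]⟩) .k (.r (-1) ⟨1,[(0,1),(4,2),(11,1),(9,0),(2,1)]⟩ ⟨0,[(0,1),(0,1),(14,3)]⟩)) (.R ⟨0,false,
  false,false,[0,0,1],[0,1,-1],[1,1,1],(⟨0,[(20,0)]⟩,⟨0,[(19,0)]⟩),(⟨0,[(9,0)]⟩,⟨0,[(20,0),(2,0)]⟩),
  ⟨0,[(9,0)]⟩,.k,.k,.k,(.r (-1) ⟨9,[(0,3),(5,9),(0,5),(18,1),(3,2),(0,4)]⟩ ⟨0,[(1,1),(0,0),(14,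
  3)]⟩),.k,.k,⟨false,0,⟨3,[(0,1),(1,0),(3,1),(18,0),(3,0)]⟩,⟨1,[(1,0),(1,0),(13,1),(9,0),(3,1)]⟩⟩,
  ⟨true,0,⟨0,[(0,0)]⟩,⟨0,[(17,1)]⟩⟩,⟨false,0,⟨0,[(1,0),(15,1),(11,0)]⟩,⟨1,[(0,0),(5,0),(20,0),(3,
  1)]⟩⟩,⟨true,0,⟨0,[(1,1),(15,1),(11,0)]⟩,⟨0,[(6,0)]⟩⟩,⟨false,0,⟨0,[]⟩,⟨0,[]⟩⟩,⟨false,0,⟨0,[]⟩,⟨0,
  []⟩⟩,[.e ⟨false,0,⟨0,[(33,0)]⟩,⟨1,[(30,0),(0,0)]⟩⟩ ⟨false,0,⟨0,[(1,0)]⟩,⟨0,[(3,0),(2,0),(24,0)]⟩⟩,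
  .o ⟨false,1,⟨2,[(1,1),(3,0),(11,1),(8,0),(4,1)]⟩,⟨2,[(6,1),(9,0),(12,0)]⟩⟩,.o ⟨false,1,⟨1,[(17,1),
  (4,0),(7,0)]⟩,⟨2,[(0,0),(17,0)]⟩⟩,.a ⟨true,0,⟨0,[(17,0)]⟩,⟨0,[(14,0)]⟩⟩ ⟨false,0,⟨0,[]⟩,⟨1,[(10,
  0),(0,0),(19,0)]⟩⟩ ⟨true,0,⟨0,[(1,0)]⟩,⟨5,[(3,1),(2,3),(10,4),(0,0),(10,1)]⟩⟩]⟩) (.I [0,0,0,1,0,0,
  0,-1] (.I [0,0,0,0,1,0,0,0,-1] (.I [0,1,-1,0,0,0,0,1] (.I [0,0,-1,0,0,1,-1] (.C [(0,0),(2,0),(4,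
  0),(3,0),(0,1),(11,3),(10,0)]) (.C [(0,0),(4,0),(2,0),(3,0)])) (.C [(0,0),(3,0),(4,0)])) (.C [(0,
  0),(11,0),(2,0)])) (.C [(0,0),(0,0),(0,0)])))) (.Q [0,0,0,-1,0,0,2,2,0,0,2] (.p true [0,0,1] [0,1,
  -1] (⟨0,[(18,0)]⟩,⟨0,[(17,0)]⟩) .k 2 (⟨0,[(7,0)]⟩,⟨0,[(18,0),(2,0)]⟩) .k (.x (-1) ⟨3,[(7,7),(7,7),
  (3,7),(5,1),(1,1),(0,2),(0,0)]⟩ ⟨2,[(5,1),(0,3),(5,1),(5,1),(0,3),(10,1)]⟩)) (.Q [0,-1,0,1,1,0,-2,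
  -2,0,0,-2] (.p false [0,0,1] [0,1,-1] (⟨0,[(19,0)]⟩,⟨0,[(18,0)]⟩) .k 2 (⟨0,[(8,0)]⟩,⟨0,[(19,0),(2,
  0)]⟩) .k (.x (-1) ⟨5,[(0,1),(1,3),(5,11),(7,7),(3,11),(5,1),(2,2),(0,2)]⟩ ⟨2,[(6,1),(0,3),(5,1),
  (5,1),(0,3),(10,1)]⟩)) (.I [0,0,-1,-1,0,0,0,2] (.Q [0,0,-1,0,0,0,-2,0,0,0,-2] (.p false [0,0,1]
  [0,1,-1] (⟨0,[(21,0)]⟩,⟨0,[(20,0)]⟩) .k 2 (⟨0,[(10,0)]⟩,⟨0,[(21,0),(2,0)]⟩) .k (.r 0 ⟨0,[(0,0),(2,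
  0)]⟩ ⟨0,[(4,1),(27,0)]⟩)) (.R ⟨0,false,false,false,[0,0,1],[0,1,-1],[0,1],(⟨0,[(22,0)]⟩,⟨0,[(21,
  0)]⟩),(⟨0,[(11,0)]⟩,⟨0,[(22,0),(2,0)]⟩),⟨0,[(11,0)]⟩,.k,.k,.k,(.r 0 ⟨0,[(1,0)]⟩ ⟨3,[(2,2),(2,1),
  (13,5),(10,0),(1,0)]⟩),.k,.k,⟨false,0,⟨1,[(3,0),(6,1),(0,1),(4,1),(6,3),(5,1),(1,2)]⟩,⟨1,[(2,0),
  (16,1),(10,0),(2,0)]⟩⟩,⟨true,0,⟨0,[(0,0)]⟩,⟨0,[(19,1)]⟩⟩,⟨true,0,⟨0,[(5,0)]⟩,⟨1,[(1,0),(2,0)]⟩⟩,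
  ⟨false,1,⟨0,[(2,0)]⟩,⟨0,[(3,0)]⟩⟩,⟨false,0,⟨0,[]⟩,⟨0,[]⟩⟩,⟨false,0,⟨0,[]⟩,⟨0,[]⟩⟩,[.o ⟨false,1,⟨1,
  [(2,0),(21,0),(5,0)]⟩,⟨1,[(3,0),(27,0)]⟩⟩,.o ⟨false,1,⟨1,[(2,0),(7,1),(0,1),(11,3),(5,0),(3,0),(0,
  0)]⟩,⟨2,[(8,1),(9,0),(12,0)]⟩⟩,.o ⟨false,1,⟨1,[(19,1),(4,0),(7,0)]⟩,⟨2,[(0,0),(19,0)]⟩⟩,.a ⟨true,
  0,⟨0,[(19,0)]⟩,⟨0,[(16,0)]⟩⟩ ⟨true,0,⟨0,[(29,0),(1,0)]⟩,⟨1,[(19,0),(0,0)]⟩⟩ ⟨false,1,⟨1,[(0,0),(1,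
  0),(26,0),(3,0)]⟩,⟨1,[(3,0),(15,1),(11,0)]⟩⟩]⟩) (.I [0,0,0,0,1,0,0,0,-1] (.I [0,0,-1,0,0,1,-1]
  (.C [(0,1),(1,0),(10,1),(11,3),(10,0)]) (.C [(0,0),(11,0),(5,0)])) (.C [(0,0),(12,0),(2,0)])))
  (.I [0,0,0,0,1,0,0,0,-1] (.I [0,0,-1,0,0,1,-1] (.C [(0,1),(1,0),(1,0),(7,1),(11,3),(10,0)]) (.C
  [(0,0),(10,0),(5,0)])) (.C [(0,0),(11,0),(2,0)]))) (.Q [0,-1,-1,1,1,0,-2,-1,0,0,-2] (.p false [0,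
  0,1] [0,1,-1] (⟨0,[(20,0)]⟩,⟨0,[(19,0)]⟩) .k 2 (⟨0,[(9,0)]⟩,⟨0,[(20,0),(2,0)]⟩) .k (.r 0 ⟨1,[(0,
  1),(1,1),(4,0),(6,1),(11,0),(4,0)]⟩ ⟨0,[(3,1),(27,0)]⟩)) (.Q [0,0,-1,0,0,0,-2,0,0,0,-2] (.p false
  [0,0,1] [0,1,-1] (⟨0,[(21,0)]⟩,⟨0,[(20,0)]⟩) .k 2 (⟨0,[(10,0)]⟩,⟨0,[(21,0),(2,0)]⟩) .k (.r 0 ⟨8,
  [(0,5),(0,9),(0,1),(0,5),(4,5),(18,1),(4,1)]⟩ ⟨0,[(4,1),(27,0)]⟩)) (.R ⟨0,false,false,false,[0,0,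
  1],[0,1,-1],[1,0,1],(⟨0,[(22,0)]⟩,⟨0,[(21,0)]⟩),(⟨0,[(11,0)]⟩,⟨0,[(22,0),(2,0)]⟩),⟨0,[(11,0)]⟩,.k,
  .k,.k,(.r 0 ⟨0,[(0,0),(2,0)]⟩ ⟨0,[(4,0),(0,1),(27,0)]⟩),.k,.k,⟨false,0,⟨3,[(0,1),(1,1),(28,1),(0,
  0),(0,0)]⟩,⟨0,[(5,0),(24,0),(2,0)]⟩⟩,⟨true,0,⟨0,[(0,0)]⟩,⟨0,[(19,1)]⟩⟩,⟨false,1,⟨1,[(5,1),(13,0),
  (0,0),(12,1)]⟩,⟨1,[(0,0),(1,0),(26,0),(3,0)]⟩⟩,⟨true,1,⟨3,[(1,2),(2,0),(0,4),(14,1),(12,0)]⟩,⟨0,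
  [(2,0)]⟩⟩,⟨false,0,⟨0,[]⟩,⟨0,[]⟩⟩,⟨false,0,⟨0,[]⟩,⟨0,[]⟩⟩,[.o ⟨false,1,⟨1,[(1,0),(2,0),(0,0),(18,
  0)]⟩,⟨1,[(3,0),(27,0)]⟩⟩,.e ⟨false,1,⟨1,[(12,0),(0,0),(19,0)]⟩,⟨3,[(0,0),(1,0),(2,1),(23,0),(2,
  0)]⟩⟩ ⟨false,1,⟨0,[(1,0)]⟩,⟨0,[(3,0),(1,0)]⟩⟩,.o ⟨false,1,⟨1,[(19,1),(4,0),(7,0)]⟩,⟨2,[(0,0),(19,
  0)]⟩⟩,.a ⟨true,0,⟨0,[(19,0)]⟩,⟨0,[(16,0)]⟩⟩ ⟨true,0,⟨0,[]⟩,⟨0,[(35,0)]⟩⟩ ⟨false,1,⟨0,[(1,0)]⟩,⟨1,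
  [(3,0),(15,1),(11,0)]⟩⟩]⟩) (.I [0,0,0,0,1,0,0,0,-1] (.I [0,0,-1,0,0,1,-1] (.C [(0,1),(1,0),(10,1),
  (11,3),(10,0)]) (.C [(0,0),(11,0),(5,0)])) (.C [(0,0),(12,0),(2,0)]))) (.I [0,0,0,0,1,0,0,0,-1]
  (.I [0,0,-1,0,0,1,-1] (.C [(0,0),(1,0),(5,0),(3,0),(11,1),(9,0)]) (.C [(0,0),(10,0),(5,0)])) (.C
  [(0,0),(11,0),(2,0)])))) (.I [0,0,0,0,0,0,0,1] (.R ⟨0,false,false,false,[0,0,1],[1,-1],[1],(⟨0,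
  [(20,0)]⟩,⟨0,[(19,0)]⟩),(⟨0,[(23,0)]⟩,⟨0,[(24,0)]⟩),⟨0,[(9,0)]⟩,.k,.k,.k,.k,.k,.k,⟨true,0,⟨0,[(2,
  0)]⟩,⟨0,[(29,0)]⟩⟩,⟨false,0,⟨4,[(1,0),(0,0),(1,1),(2,1),(6,0)]⟩,⟨3,[(8,3),(0,3),(7,3),(3,7),(5,1),
  (1,1),(0,2),(0,0)]⟩⟩,⟨false,1,⟨0,[(3,0),(27,0)]⟩,⟨0,[(0,0)]⟩⟩,⟨true,0,⟨0,[(1,0),(2,0),(24,0)]⟩,⟨0,
  [(0,0),(7,0),(0,0),(7,0),(3,1),(5,0)]⟩⟩,⟨false,0,⟨0,[]⟩,⟨0,[]⟩⟩,⟨false,0,⟨0,[]⟩,⟨0,[]⟩⟩,[.o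
  ⟨false,0,⟨0,[(29,0)]⟩,⟨1,[(22,0),(5,1),(2,0)]⟩⟩,.o ⟨false,1,⟨3,[(4,1),(11,1),(5,0),(6,1),(1,2)]⟩,
  ⟨1,[(8,1),(0,1),(11,3),(5,0),(0,0),(3,0)]⟩⟩,.o ⟨false,1,⟨1,[(17,1),(4,0),(7,0)]⟩,⟨1,[(0,1),(0,0),
  (27,0)]⟩⟩,.a ⟨true,0,⟨0,[(17,0)]⟩,⟨0,[(14,0)]⟩⟩ ⟨false,1,⟨1,[(30,0),(0,0)]⟩,⟨1,[(17,0),(0,0)]⟩⟩
  ⟨true,0,⟨0,[(14,0),(14,0)]⟩,⟨1,[(8,1),(0,1),(7,1),(3,3),(5,0),(0,0),(3,0)]⟩⟩]⟩) (.Q [0,0,-1,1,0,0,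
  -2,-1,0,0,-2] (.p false [0,0,1] [0,1,-1] (⟨0,[(20,0)]⟩,⟨0,[(19,0)]⟩) .k 2 (⟨0,[(9,0)]⟩,⟨0,[(20,0),
  (2,0)]⟩) .k (.x (-1) ⟨2,[(0,3),(5,1),(2,2),(7,1),(1,2),(1,2),(4,0),(0,1),(3,1)]⟩ ⟨2,[(7,1),(0,3),
  (5,1),(5,1),(0,3),(10,1)]⟩)) (.Q [0,0,-1,0,0,0,-2,0,0,0,-2] (.p false [0,0,1] [0,1,-1] (⟨0,[(21,
  0)]⟩,⟨0,[(20,0)]⟩) .k 2 (⟨0,[(10,0)]⟩,⟨0,[(21,0),(2,0)]⟩) .k (.x (-1) ⟨2,[(1,3),(5,1),(2,2),(7,1),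
  (1,2),(1,2),(4,0),(0,1),(3,1)]⟩ ⟨2,[(8,1),(0,3),(5,1),(5,1),(0,3),(10,1)]⟩)) (.R ⟨0,false,false,
  false,[0,0,1],[0,1,-1],[0,0,0,0,0,0,0,1],(⟨0,[(22,0)]⟩,⟨0,[(21,0)]⟩),(⟨0,[(11,0)]⟩,⟨0,[(22,0),(2,
  0)]⟩),⟨0,[(11,0)]⟩,.k,.k,.k,(.r (-1) ⟨9,[(0,3),(7,9),(0,5),(18,1),(3,2),(0,4)]⟩ ⟨0,[(1,0),(0,0),
  (16,1)]⟩),.k,.k,⟨false,1,⟨1,[(0,1),(7,1),(23,0),(0,0)]⟩,⟨0,[(2,1),(1,0)]⟩⟩,⟨true,0,⟨0,[(0,0)]⟩,⟨0,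
  [(19,1)]⟩⟩,⟨false,1,⟨1,[(12,0),(0,0),(19,0)]⟩,⟨0,[]⟩⟩,⟨true,0,⟨0,[(3,0)]⟩,⟨0,[(8,0)]⟩⟩,⟨false,0,
  ⟨0,[]⟩,⟨0,[]⟩⟩,⟨false,0,⟨0,[]⟩,⟨0,[]⟩⟩,[.e ⟨false,1,⟨9,[(0,1),(7,4),(0,2),(18,0),(1,4),(1,3),(0,
  4)]⟩,⟨0,[(2,0)]⟩⟩ ⟨false,0,⟨0,[(1,0)]⟩,⟨0,[(5,0),(2,0),(24,0)]⟩⟩,.o ⟨false,1,⟨5,[(3,2),(0,0),(23,
  1),(0,0),(0,0),(2,3)]⟩,⟨2,[(8,1),(9,0),(12,0)]⟩⟩,.o ⟨false,1,⟨1,[(19,1),(4,0),(7,0)]⟩,⟨2,[(0,0),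
  (19,0)]⟩⟩,.a ⟨true,0,⟨0,[(19,0)]⟩,⟨0,[(16,0)]⟩⟩ ⟨false,1,⟨1,[(0,0),(7,0),(20,0),(3,1)]⟩,⟨1,[(3,0),
  (15,1),(11,0)]⟩⟩ ⟨true,0,⟨0,[(1,0)]⟩,⟨5,[(5,1),(2,3),(10,4),(0,0),(10,1)]⟩⟩]⟩) (.I [0,0,0,1,0,0,0,
  -1] (.I [0,0,0,0,1,0,0,0,-1] (.I [0,1,-1,0,0,0,0,1] (.I [0,0,-1,0,0,1,-1] (.C [(0,0),(2,0),(6,0),
  (3,0),(0,1),(11,3),(10,0)]) (.C [(0,0),(4,0),(4,0),(3,0)])) (.C [(0,0),(3,0),(6,0)])) (.C [(0,0),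
  (13,0),(2,0)])) (.C [(0,0),(0,0),(0,0)]))) (.I [1,0,0,0,0,0,0,1] (.N [0,0,1] 0 ⟨0,[(0,0)]⟩ ⟨0,[(2,
  0)]⟩ .k) (.I [1,0,-1,-1] (.N [0,1] 0 ⟨0,[(5,0)]⟩ ⟨0,[(0,0)]⟩ .k) (.I [0,0,0,0,1,0,0,0,-1] (.I [0,
  0,-1,0,0,1,-1] (.C [(0,1),(1,0),(0,0),(0,0),(9,1),(11,3)]) (.C [(0,0),(12,0),(5,0)])) (.C [(0,0),
  (13,0),(2,0)])))))))) (.Q [0,0,0,1,0,0,1,1,0,-1,1] (.p true [0,0,1] [1] (⟨0,[(17,0)]⟩,⟨0,[(16,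
  0)]⟩) .k 1 (⟨0,[]⟩,⟨0,[]⟩) .k .k) (.R ⟨0,false,false,true,[0,0,1],[1,-1],[0,1],(⟨0,[(18,0)]⟩,⟨0,
  [(17,0)]⟩),(⟨0,[(21,0)]⟩,⟨0,[(22,0)]⟩),⟨0,[(7,0)]⟩,.k,.k,.k,.k,.k,.k,⟨true,0,⟨0,[(1,0),(1,0),(11,
  0)]⟩,⟨0,[(27,0)]⟩⟩,⟨false,0,⟨1,[(5,0),(15,0),(0,0)]⟩,⟨3,[(6,3),(0,3),(7,3),(3,7),(5,1),(1,1),(0,
  2),(0,0)]⟩⟩,⟨false,1,⟨1,[(14,1),(0,1),(12,0),(0,0)]⟩,⟨0,[(1,0)]⟩⟩,⟨true,0,⟨0,[(14,0),(6,0),(0,0),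
  (4,0)]⟩,⟨0,[(0,0)]⟩⟩,⟨false,0,⟨0,[]⟩,⟨0,[]⟩⟩,⟨false,0,⟨0,[]⟩,⟨0,[]⟩⟩,[.o ⟨false,0,⟨2,[(4,0),(9,1),
  (12,1)]⟩,⟨4,[(0,1),(2,1),(20,0),(1,0),(2,3)]⟩⟩,.o ⟨false,0,⟨0,[(27,0)]⟩,⟨1,[(20,0),(5,1),(2,0)]⟩⟩,
  .o ⟨false,1,⟨1,[(15,1),(4,0),(7,0)]⟩,⟨0,[(1,0),(12,0)]⟩⟩,.a ⟨true,0,⟨0,[(15,0)]⟩,⟨0,[(12,0)]⟩⟩
  ⟨true,0,⟨0,[(25,0),(1,0)]⟩,⟨1,[(15,0),(0,0)]⟩⟩ ⟨false,0,⟨0,[(12,0),(14,0)]⟩,⟨4,[(0,1),(2,1),(11,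
  4),(8,0),(1,0),(2,3)]⟩⟩]⟩) (.I [0,0,0,0,1,0,0,0,-1] (.I [0,0,1,0,0,1,1] (.C [(0,0),(1,0),(0,0),(4,
  0),(12,1),(5,0)]) (.C [(0,0),(8,0),(7,0)])) (.C [(0,0),(8,0),(2,0)])))))

theorem ok1 : chk K t1 l1 = true := by decide +kernel

noncomputable def t2 : Tre :=
  (.R ⟨2,true,false,false,[0,1],[0,0,1],[0,0,1],(⟨0,[]⟩,⟨0,[]⟩),(⟨0,[(15,0)]⟩,⟨0,[(14,0)]⟩),⟨0,[]⟩,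
  .k,.k,.k,.k,.k,.k,⟨false,1,⟨1,[(11,1),(0,1),(12,0),(0,0)]⟩,⟨1,[(0,1),(1,0),(0,0),(0,0),(11,1),(5,
  1)]⟩⟩,⟨true,0,⟨0,[(12,0)]⟩,⟨0,[(3,0),(0,0),(4,0),(6,1),(10,0)]⟩⟩,⟨true,0,⟨0,[(24,0)]⟩,⟨0,[(23,
  0)]⟩⟩,⟨false,0,⟨0,[(0,0)]⟩,⟨0,[(11,0),(11,0),(2,0)]⟩⟩,⟨false,1,⟨1,[(5,0),(0,0),(19,0)]⟩,⟨0,[]⟩⟩,
  ⟨true,0,⟨0,[(0,0),(22,0)]⟩,⟨0,[(11,0)]⟩⟩,[]⟩)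

theorem ok2 : chk K t2 r1 = true := by decide +kernel

noncomputable def t3 : Tre :=
  .Q [0,1,0,1,0,0,-1,-1,0,0,-1] (.p false [0,0,1] [] (⟨0,[(14,0)]⟩,⟨0,[(13,0)]⟩) .k 0 (⟨0,[]⟩,⟨0,
  []⟩) .k .k) t1 t2

theorem ok3 : chk K t3 r0 = true :=
  chk_Q (e' := [0,-1,0,-1,0,0,1,1,0,0,1]) (by decide +kernel) (by decide +kernel) ok1 ok2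

noncomputable def t4 : Tre :=
  .Q [0,-1,0,1,0,0,-2,-2,0,0,-2] (.p false [0,0,1] [0,1,-1] (⟨0,[(13,0)]⟩,⟨0,[(12,0)]⟩) .k 2 (⟨0,
  [(2,0)]⟩,⟨0,[(13,0),(2,0)]⟩) .k (.x (-1) ⟨3,[(2,7),(7,7),(3,7),(5,1),(1,1),(0,2),(0,0)]⟩ ⟨2,[(0,
  1),(0,3),(5,1),(5,1),(0,3),(10,1)]⟩)) t0 t3

theorem ok4 : chk K t4 base = true :=
  chk_Q (e' := [0,1,0,-1,0,0,2,2,0,0,2]) (by decide +kernel) (by decide +kernel) ok0 ok3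

theorem closed {p a b c J l q : ℤ} {D dl : ℝ} {Cl : ℤ → ℤ → ℤ → ℤ → ℝ → Prop}
    (W : World p a b c J 1 l q D dl Cl) (g : G0 p a b c J D)
    {N X R : ℤ} {I : ℝ} (hk : KCl p l Cl N X R I) (kz : KF a b D (X + (1 : ℤ) * I) (X + (1 : ℤ) * I + R) I)
    {Ne Xe : ℤ} {Ie : ℝ} (he : EFac p 1 D Cl (a) Ne Xe Ie)
    (hkf : ∀ kf ∈ (kfY 1 [0,0,0,0,0,0,1,0,0,0,1]), KOk p l Cl 1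
      (xv [1, a, b, c, p, J, X, R, Xe] [D, I, Ie]) N kf)
    (h0 : 1 ≤ -(c : ℝ))
    (h1 : 1 ≤ (a : ℝ) - (b : ℝ) + (c : ℝ))
    (h2 : 0 < 1 + (p : ℝ) - 3 * D)
    (h3 : 1 ≤ 2 * (a : ℝ) - (b : ℝ))
    (h4 : 1 ≤ 2 - (J : ℝ))
    (h5 : 0 < -(b : ℝ) - (X : ℝ) + D - I)
    (h6 : 0 < (J : ℝ) - I)
    (h7 : 0 < (J : ℝ) - D + I)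
    (h8 : 0 < -2 * (X : ℝ) + D - 2 * I) : False := by
  have g1 := g.a2
  have g2 := g.b2
  have g3 := g.pa
  have g4 := g.pb
  have g5 := g.J1
  have g6 := g.JD
  have g7 := g.D2
  have g8 := g.ca
  have g9 := g.ca'
  have k1 := kz.I0
  have k2 := kz.ID
  have k3 := kz.z1
  have k4 := kz.z2
  have k5 := kz.s1
  have k6 := kz.s2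
  have e1 := he.I0
  have e2 := he.ID
  have e3 := he.x0
  have e4 := he.xp
  push_cast at *
  refine (val_E W.toBase hk he (row := [0,1]) (by simp) (by simp) (kfY 1 [0,0,0,0,0,0,1,0,0,0,1])).sound W rfl (Nk := N)
    (fun kf _ _ => ⟨_, rfl⟩) hkf ?_ ok4
  · simp only [base, List.forall_mem_cons, List.not_mem_nil, false_imp_iff, implies_true,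
      and_true, hld, xv, evg_cons, evg_nil, List.map_cons, List.map_nil, List.cons_append,
      List.nil_append, if_true, if_false, Bool.false_eq_true]
    push_cast
    refine ⟨?_, ?_, ?_, ?_, ?_, ?_, ?_, ?_, ?_, ?_, ?_, ?_, ?_, ?_, ?_, ?_, ?_, ?_, ?_, ?_, ?_, ?_, ?_, ?_, ?_, ?_, ?_⟩ <;> linarith

end Helper25.S1T.Ymp_1aP1
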