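import Pool.Agent.Helper25.S1T.Ymp_1aP2_q

set_option autoImplicit false
set_option linter.all false

namespace Helper25.S1T.Ymp_1aP2

open Helper25.KG Helper25.KW Helper55.KE Helper11.CT

noncomputable def t35 : Tre :=
  (.R ⟨0,false,false,false,[0,0,1],[0,0,0,0,1],[1],(⟨0,[(26,0)]⟩,⟨0,[(25,0)]⟩),(⟨0,[(19,0)]⟩,⟨0,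
  [(18,0)]⟩),⟨0,[(15,0)]⟩,.k,.k,.k,.k,.k,.k,⟨false,1,⟨1,[(37,0),(0,0)]⟩,⟨0,[(40,0)]⟩⟩,⟨true,0,⟨0,
  [(4,0)]⟩,⟨0,[(0,0)]⟩⟩,⟨true,0,⟨0,[(6,0),(0,0)]⟩,⟨0,[(8,0),(15,0),(9,0)]⟩⟩,⟨false,0,⟨0,[(7,0),(9,
  0)]⟩,⟨1,[(0,1),(7,1),(4,0),(0,0),(0,0),(11,1),(6,1),(3,1)]⟩⟩,⟨false,0,⟨0,[]⟩,⟨0,[]⟩⟩,⟨false,0,⟨0,
  []⟩,⟨0,[]⟩⟩,[.o ⟨false,0,⟨4,[(3,1),(10,4),(0,4),(1,4),(9,9),(6,1),(4,5),(0,2)]⟩,⟨0,[(2,0)]⟩⟩,.a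
  ⟨true,0,⟨0,[(17,0)]⟩,⟨0,[(0,0),(19,0)]⟩⟩ ⟨false,1,⟨1,[(37,0),(0,0)]⟩,⟨0,[(40,0)]⟩⟩ ⟨true,0,⟨0,[(4,
  0)]⟩,⟨0,[(0,0)]⟩⟩,.a ⟨true,0,⟨0,[(6,0)]⟩,⟨1,[(13,0),(6,0),(2,0)]⟩⟩ ⟨true,0,⟨0,[]⟩,⟨0,[(40,0)]⟩⟩
  ⟨false,0,⟨0,[(4,0)]⟩,⟨1,[(0,0),(4,0),(0,0),(31,0)]⟩⟩,.a ⟨true,0,⟨0,[(23,0)]⟩,⟨0,[(20,0)]⟩⟩ ⟨false,
  1,⟨1,[(37,0),(0,0)]⟩,⟨1,[(23,0),(0,0)]⟩⟩ ⟨true,0,⟨4,[(3,0),(0,4),(27,1),(1,0)]⟩,⟨0,[(0,0)]⟩⟩]⟩)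

theorem ok35 : chk K t35 r21 = true := by decide +kernel

noncomputable def t38 : Tre :=
  (.Q [0,1,0,0,-1,0,1,0,1,-1,1,1] (.p true [0,0,1] [1,0,0,0,-1] (⟨0,[(24,0)]⟩,⟨0,[(23,0)]⟩) .k 2
  (⟨0,[(16,0)]⟩,⟨0,[(17,0)]⟩) .k (.r 0 ⟨0,[(6,0),(15,0),(9,0)]⟩ ⟨37,[(7,17),(0,9),(0,9),(11,19),(9,
  1),(3,0),(0,32)]⟩)) (.Q [0,-1,0,0,1,0,-1,-1,-1,1,-1,-1] (.p false [0,0,1] [1,0,0,0,-1] (⟨0,[(25,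
  0)]⟩,⟨0,[(24,0)]⟩) .k 2 (⟨0,[(17,0)]⟩,⟨0,[(18,0)]⟩) .k (.r 0 ⟨0,[(7,0),(15,0),(9,0)]⟩ ⟨37,[(8,17),
  (0,9),(0,9),(11,19),(9,1),(3,0),(0,32)]⟩)) (.R ⟨0,false,false,true,[0,0,1],[1,0,0,0,-1],[1],(⟨0,
  [(26,0)]⟩,⟨0,[(25,0)]⟩),(⟨0,[(18,0)]⟩,⟨0,[(19,0)]⟩),⟨0,[(15,0)]⟩,.k,.k,.k,.k,.k,.k,⟨true,0,⟨0,[]⟩,
  ⟨1,[(23,0),(0,0)]⟩⟩,⟨false,1,⟨2,[(0,0),(4,1),(7,0),(6,0),(0,0)]⟩,⟨8,[(1,3),(4,4),(10,4),(15,0),(4,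
  1)]⟩⟩,⟨true,0,⟨0,[(0,0),(0,0)]⟩,⟨0,[(8,0),(15,0),(9,0)]⟩⟩,⟨false,1,⟨0,[(0,0)]⟩,⟨0,[(1,0),(6,0),
  (15,0),(9,0),(3,0)]⟩⟩,⟨false,0,⟨0,[]⟩,⟨0,[]⟩⟩,⟨false,0,⟨0,[]⟩,⟨0,[]⟩⟩,[.o ⟨false,1,⟨0,[(16,0)]⟩,
  ⟨8,[(1,3),(2,3),(12,0),(15,0),(4,1)]⟩⟩,.e ⟨false,1,⟨1,[(37,0),(0,0)]⟩,⟨0,[(40,0)]⟩⟩ ⟨false,2,⟨1,
  [(0,0),(12,0),(2,0),(4,0),(15,0),(0,0)]⟩,⟨0,[(1,0)]⟩⟩,.e ⟨true,0,⟨0,[]⟩,⟨0,[(40,0)]⟩⟩ ⟨true,1,⟨1,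
  [(0,0),(12,0),(2,0),(4,0)]⟩,⟨0,[(1,0)]⟩⟩,.a ⟨true,0,⟨0,[(23,0)]⟩,⟨0,[(20,0)]⟩⟩ ⟨false,1,⟨1,[(37,
  0),(0,0)]⟩,⟨1,[(23,0),(0,0)]⟩⟩ ⟨true,1,⟨2,[(0,0),(4,1),(7,0),(6,0),(0,0)]⟩,⟨1,[(1,1),(21,0),(0,
  0)]⟩⟩]⟩) (.Q [0,-1,0,-1,1,0,0,0,-1,1,0,-1] (.p false [0,0,0,0,1] [1] (⟨0,[(19,0)]⟩,⟨0,[(18,0)]⟩)
  .k 1 (⟨0,[]⟩,⟨0,[]⟩) .k .k) (.R ⟨2,true,false,true,[0,1],[1,0,0,0,-1],[1],(⟨0,[]⟩,⟨0,[]⟩),(⟨0,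
  [(19,0)]⟩,⟨0,[(20,0)]⟩),⟨0,[]⟩,.k,.k,.k,(.r 0 ⟨1,[(24,0),(0,0),(10,1)]⟩ ⟨11,[(4,1),(4,4),(1,4),
  (22,0),(3,3),(0,5)]⟩),.k,.k,⟨true,0,⟨0,[]⟩,⟨1,[(24,0),(0,0)]⟩⟩,⟨false,1,⟨0,[(0,0),(35,0)]⟩,⟨12,
  [(2,9),(1,1),(0,2),(15,6),(12,1),(0,1),(3,5)]⟩⟩,⟨true,0,⟨1,[(4,0),(32,0)]⟩,⟨1,[(24,0),(0,0),(10,
  1)]⟩⟩,⟨false,1,⟨0,[(0,0)]⟩,⟨0,[(1,0),(10,0),(26,0)]⟩⟩,⟨false,1,⟨1,[(38,0),(0,0)]⟩,⟨1,[(24,0),(0,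
  0)]⟩⟩,⟨true,1,⟨0,[(0,0),(35,0)]⟩,⟨0,[(1,0),(6,0)]⟩⟩,[]⟩) (.Q [0,0,0,0,1,0,1,1,-1,0,1,-1] (.p true
  [0,0,1] [0,0,0,0,1] (⟨0,[(27,0)]⟩,⟨0,[(26,0)]⟩) .k 2 (⟨0,[(20,0)]⟩,⟨0,[(19,0)]⟩) .k (.r (-1) ⟨1,
  [(1,0),(12,0),(2,0),(4,0),(16,1)]⟩ ⟨1,[(10,0),(12,0),(0,0)]⟩)) (.R ⟨0,false,false,false,[0,0,1],
  [0,0,0,0,1],[1,1],(⟨0,[(28,0)]⟩,⟨0,[(27,0)]⟩),(⟨0,[(21,0)]⟩,⟨0,[(20,0)]⟩),⟨0,[(17,0)]⟩,.k,.k,.k,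
  .k,.k,.k,⟨true,0,⟨0,[]⟩,⟨1,[(25,0),(0,0)]⟩⟩,⟨false,0,⟨7,[(1,1),(3,1),(0,5),(15,1),(16,0),(0,0)]⟩,
  ⟨0,[(7,0),(17,0)]⟩⟩,⟨false,0,⟨0,[(8,0),(0,0)]⟩,⟨2,[(0,1),(1,0),(3,0),(8,0),(24,1)]⟩⟩,⟨true,(-1),
  ⟨0,[(1,0),(10,0)]⟩,⟨0,[(0,0)]⟩⟩,⟨false,0,⟨0,[]⟩,⟨0,[]⟩⟩,⟨false,0,⟨0,[]⟩,⟨0,[]⟩⟩,[.o ⟨false,(-1),
  ⟨0,[(2,0),(6,0)]⟩,⟨1,[(18,2),(0,0),(20,0)]⟩⟩,.o ⟨false,0,⟨8,[(3,3),(2,3),(12,0),(15,0),(4,1)]⟩,⟨0,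
  [(18,0)]⟩⟩,.a ⟨true,0,⟨0,[(8,0)]⟩,⟨1,[(15,0),(6,0),(2,0)]⟩⟩ ⟨false,0,⟨0,[]⟩,⟨1,[(18,0),(0,0),(20,
  0)]⟩⟩ ⟨true,(-1),⟨1,[(1,0),(0,0),(9,0),(2,0)]⟩,⟨0,[(7,0),(17,0)]⟩⟩,.e ⟨true,0,⟨4,[(5,0),(28,1),(1,
  0)]⟩,⟨1,[(25,0),(0,0)]⟩⟩ ⟨true,(-1),⟨1,[(1,0),(2,0),(0,0),(9,0)]⟩,⟨0,[(18,0),(6,0)]⟩⟩]⟩) (.Q [0,
  -1,0,0,1,0,2,2,0,-1,2] (.p true [0,0,1] [1,0,-1] (⟨0,[(28,0)]⟩,⟨0,[(27,0)]⟩) .k 2 (⟨0,[(27,0)]⟩,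
  ⟨0,[(28,0)]⟩) .k (.r (-1) ⟨0,[(2,0),(12,0),(2,0),(4,0),(16,0)]⟩ ⟨0,[(8,1),(0,1)]⟩)) (.Q [0,0,1,0,
  0,0,2,0,0,-1,2] (.p true [0,0,1] [1,0,-1] (⟨0,[(29,0)]⟩,⟨0,[(28,0)]⟩) .k 2 (⟨0,[(28,0)]⟩,⟨0,[(29,
  0)]⟩) .k (.r (-1) ⟨48,[(0,32),(6,11),(8,42),(2,11),(4,31),(11,1),(6,0)]⟩ ⟨0,[(9,1),(0,1)]⟩)) (.R
  ⟨0,false,false,true,[0,0,1],[1,0,-1],[0,0,1],(⟨0,[(30,0)]⟩,⟨0,[(29,0)]⟩),(⟨0,[(29,0)]⟩,⟨0,[(30,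
  0)]⟩),⟨0,[(19,0)]⟩,.k,.k,.k,.k,.k,.k,⟨false,1,⟨3,[(1,1),(15,1),(2,0),(0,0),(20,0)]⟩,⟨0,[(13,0)]⟩⟩,
  ⟨true,0,⟨0,[(17,0)]⟩,⟨0,[(0,0)]⟩⟩,⟨true,0,⟨0,[(11,0),(15,0)]⟩,⟨2,[(4,1),(4,1),(7,0),(6,0),(0,
  0)]⟩⟩,⟨false,0,⟨0,[(11,1),(12,0),(2,0)]⟩,⟨0,[(1,0)]⟩⟩,⟨false,0,⟨0,[]⟩,⟨0,[]⟩⟩,⟨false,0,⟨0,[]⟩,⟨0,
  []⟩⟩,[.o ⟨false,0,⟨0,[(26,0)]⟩,⟨19,[(1,9),(18,0),(0,0),(15,1),(4,4)]⟩⟩,.o ⟨false,0,⟨0,[(11,0)]⟩,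
  ⟨30,[(1,10),(18,11),(0,11),(3,8),(11,3),(6,1)]⟩⟩,.a ⟨true,0,⟨0,[(10,0)]⟩,⟨1,[(17,0),(6,0),(2,
  0)]⟩⟩ ⟨true,0,⟨1,[(27,0),(0,0)]⟩,⟨4,[(7,0),(28,1),(1,0)]⟩⟩ ⟨false,0,⟨1,[(11,1),(5,0),(6,0),(2,
  0)]⟩,⟨3,[(0,1),(0,1),(39,0),(0,0)]⟩⟩,.e ⟨false,1,⟨1,[(20,0),(0,0),(20,0)]⟩,⟨0,[]⟩⟩ ⟨false,0,⟨0,
  [(11,0),(12,0)]⟩,⟨19,[(1,9),(18,0),(0,0),(5,19),(9,1),(4,4)]⟩⟩]⟩) (.Q [0,0,0,0,0,0,0,0,0,0,1,-1]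
  (.ed true [1,0,-1,0,1] (.r 0 ⟨1,[(13,0),(12,0),(0,0)]⟩ ⟨3,[(1,1),(15,1),(2,0),(0,0),(20,0)]⟩))
  (.Q [0,0,0,0,1,0,2,0,-1,-1,2,-1] (.p true [0,0,1] [1,0,-1,0,1] (⟨0,[(31,0)]⟩,⟨0,[(30,0)]⟩) .k 2
  (⟨0,[(24,0),(5,0)]⟩,⟨0,[(0,0)]⟩) .k (.r (-1) ⟨0,[(2,0),(15,0)]⟩ ⟨0,[(12,0),(1,0),(13,0)]⟩)) (.Q
  [0,0,0,0,0,0,0,0,0,1,-2] (.ed true [0,0,2] (.r (-1) ⟨48,[(3,32),(6,11),(8,42),(2,11),(4,31),(11,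
  1),(6,0)]⟩ ⟨0,[(12,1),(0,1)]⟩)) (.R ⟨0,false,false,true,[1,0,-2],[1,0,-1],[1],(⟨0,[(0,0)]⟩,⟨0,
  [(33,1)]⟩),(⟨0,[(32,0)]⟩,⟨0,[(33,0)]⟩),⟨0,[(21,0),(11,0)]⟩,.k,.k,(.r 0 ⟨3,[(1,2),(3,4),(4,0),(1,
  1),(0,1),(3,2)]⟩ ⟨1,[(4,1),(15,1),(9,0),(0,0),(10,1)]⟩),.k,.k,.k,⟨false,1,⟨3,[(3,1),(0,1),(39,0),
  (0,0)]⟩,⟨1,[(16,0),(12,0),(0,0)]⟩⟩,⟨true,0,⟨0,[(13,0)]⟩,⟨0,[(31,0)]⟩⟩,⟨false,1,⟨0,[(4,0),(15,0)]⟩,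
  ⟨0,[(13,1),(0,1)]⟩⟩,⟨true,0,⟨0,[(28,0)]⟩,⟨0,[(14,0)]⟩⟩,⟨false,0,⟨0,[]⟩,⟨0,[]⟩⟩,⟨false,0,⟨0,[]⟩,⟨0,
  []⟩⟩,[.o ⟨false,0,⟨0,[(29,0)]⟩,⟨19,[(4,9),(18,0),(0,0),(15,1),(4,4)]⟩⟩,.o ⟨false,0,⟨0,[(14,0)]⟩,
  ⟨30,[(4,10),(18,11),(0,11),(3,8),(11,3),(6,1)]⟩⟩,.a ⟨true,0,⟨0,[(20,0)]⟩,⟨0,[(13,1)]⟩⟩ ⟨true,0,⟨0,
  []⟩,⟨0,[(47,0)]⟩⟩ ⟨false,0,⟨0,[(13,1),(0,0)]⟩,⟨31,[(4,15),(6,1),(8,30),(2,1),(16,2),(4,7)]⟩⟩,.o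
  ⟨false,0,⟨0,[(3,0),(17,0),(0,0),(11,1),(11,1)]⟩,⟨5,[(1,3),(6,1),(4,1),(10,1),(19,2),(0,0)]⟩⟩]⟩)
  (.I [0,0,0,0,0,1,1] (.C [(0,1),(0,0),(2,0),(30,1),(11,0)]) (.C [(0,0),(13,0),(8,0)]))) (.R ⟨0,
  false,false,false,[0,0,1],[1,0,-1,0,1],[0,0,1],(⟨0,[(32,0)]⟩,⟨0,[(31,0)]⟩),(⟨0,[(25,0),(5,0)]⟩,⟨0,
  [(1,0)]⟩),⟨0,[(21,0)]⟩,.k,.k,.k,.k,.k,.k,⟨false,1,⟨3,[(3,1),(15,1),(2,0),(0,0),(20,0)]⟩,⟨0,[(15,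
  0)]⟩⟩,⟨true,(-1),⟨0,[(0,0)]⟩,⟨0,[(11,0),(0,1),(7,0),(0,0),(11,1),(11,1)]⟩⟩,⟨true,0,⟨0,[(13,0),(15,
  0)]⟩,⟨1,[(2,0),(3,0),(4,0),(15,0)]⟩⟩,⟨false,(-1),⟨0,[(4,0),(8,0),(12,0),(2,0)]⟩,⟨0,[(3,0),(18,
  0)]⟩⟩,⟨false,0,⟨0,[]⟩,⟨0,[]⟩⟩,⟨false,0,⟨0,[]⟩,⟨0,[]⟩⟩,[.o ⟨false,(-1),⟨1,[(4,0),(3,0),(19,0)]⟩,
  ⟨19,[(3,9),(18,20),(0,0),(15,1),(4,4)]⟩⟩,.o ⟨false,(-1),⟨0,[(4,0)]⟩,⟨30,[(3,10),(18,42),(0,11),(3,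
  8),(11,3),(6,1)]⟩⟩,.a ⟨true,0,⟨0,[(12,0)]⟩,⟨1,[(19,0),(6,0),(2,0)]⟩⟩ ⟨true,0,⟨1,[(29,0),(0,0)]⟩,
  ⟨4,[(9,0),(28,1),(1,0)]⟩⟩ ⟨false,(-1),⟨1,[(4,1),(14,0),(6,0),(2,0)]⟩,⟨19,[(3,9),(7,17),(10,1),(6,
  19),(9,1),(3,0),(0,4)]⟩⟩,.e ⟨false,1,⟨1,[(22,0),(0,0),(20,0)]⟩,⟨0,[]⟩⟩ ⟨false,(-1),⟨0,[(4,0),(21,
  0)]⟩,⟨19,[(3,9),(18,20),(0,0),(5,19),(9,1),(4,4)]⟩⟩]⟩)) (.Q [0,0,0,0,0,0,0,0,0,1,-2] (.ed true [0,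
  0,2] (.r (-1) ⟨48,[(2,32),(6,11),(8,42),(2,11),(4,31),(11,1),(6,0)]⟩ ⟨0,[(11,1),(0,1)]⟩)) (.R ⟨0,
  false,false,true,[1,0,-2],[1,0,-1],[1],(⟨0,[(0,0)]⟩,⟨0,[(32,1)]⟩),(⟨0,[(31,0)]⟩,⟨0,[(32,0)]⟩),⟨0,
  [(20,0),(11,0)]⟩,.k,.k,(.r 0 ⟨0,[(9,0),(2,0),(0,1),(15,0)]⟩ ⟨1,[(3,1),(15,1),(9,0),(0,0),(10,
  1)]⟩),.k,.k,.k,⟨false,1,⟨3,[(2,1),(0,1),(39,0),(0,0)]⟩,⟨1,[(15,0),(12,0),(0,0)]⟩⟩,⟨true,0,⟨0,[(12,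
  0)]⟩,⟨0,[(30,0)]⟩⟩,⟨false,1,⟨0,[(3,0),(15,0)]⟩,⟨0,[(12,1),(0,1)]⟩⟩,⟨true,0,⟨0,[(27,0)]⟩,⟨0,[(13,
  0)]⟩⟩,⟨false,0,⟨0,[]⟩,⟨0,[]⟩⟩,⟨false,0,⟨0,[]⟩,⟨0,[]⟩⟩,[.o ⟨false,0,⟨0,[(28,0)]⟩,⟨19,[(3,9),(18,0),
  (0,0),(15,1),(4,4)]⟩⟩,.o ⟨false,0,⟨0,[(13,0)]⟩,⟨30,[(3,10),(18,11),(0,11),(3,8),(11,3),(6,1)]⟩⟩,
  .a ⟨true,0,⟨0,[(19,0)]⟩,⟨0,[(12,1)]⟩⟩ ⟨true,0,⟨0,[]⟩,⟨0,[(46,0)]⟩⟩ ⟨false,0,⟨0,[(12,1),(0,0)]⟩,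
  ⟨31,[(3,15),(6,1),(8,30),(2,1),(16,2),(4,7)]⟩⟩,.o ⟨false,0,⟨0,[(2,0),(17,0),(0,0),(11,1),(11,1)]⟩,
  ⟨4,[(12,8),(16,0),(9,0),(3,2)]⟩⟩]⟩) (.I [0,0,-1,0,0,0,0,-1] (.I [0,0,0,0,0,1,1] (.C [(0,1),(1,0),
  (1,0),(30,1),(11,0)]) (.C [(0,0),(13,0),(8,0)])) (.C [(0,0),(4,0),(6,0),(0,0)]))))) (.Q [0,0,0,0,
  0,0,0,0,0,-1,2] (.ed false [0,0,2] (.r (-1) ⟨0,[(3,0),(12,0),(2,0),(4,0),(16,0)]⟩ ⟨10,[(0,9),(8,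
  17),(2,1),(13,1),(9,1),(4,5)]⟩)) (.Q [0,0,1,0,0,0,2,0,0,-1,2] (.p true [0,0,1] [1,0,-1] (⟨0,[(30,
  0)]⟩,⟨0,[(29,0)]⟩) .k 2 (⟨0,[(29,0)]⟩,⟨0,[(30,0)]⟩) .k (.r (-1) ⟨0,[(4,0),(12,0),(2,0),(4,0),(16,
  0)]⟩ ⟨10,[(1,9),(8,17),(2,1),(13,1),(9,1),(4,5)]⟩)) (.K ⟨0,[-1,0,2],0,1,(⟨0,[(1,0)]⟩,⟨0,[(30,
  1)]⟩),.k,(.r (-1) ⟨21,[(5,1),(4,1),(2,11),(3,9),(0,16),(7,19),(11,2),(4,15)]⟩ ⟨0,[(0,0),(1,0),(37,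
  0),(2,0)]⟩),(.x (-1) ⟨2,[(0,2),(7,1),(21,5),(1,0),(2,1),(2,0),(0,1),(3,0)]⟩ ⟨1,[(1,1),(16,1),(9,
  0),(0,0),(3,1)]⟩),.k,.k,[⟨1,[(18,0),(6,0),(2,0)]⟩,⟨0,[(0,0)]⟩,⟨0,[(2,0)]⟩,⟨9,[(21,0),(0,0),(3,19),
  (11,1),(4,4)]⟩]⟩) (.I [0,0,0,0,0,1,1] (.C [(0,1),(0,0),(0,0),(30,1),(11,0)]) (.C [(0,0),(11,0),(8,
  0)]))) (.I [0,-1,1,0,0,0,0,-2] (.Q [0,0,0,0,0,-1,0,0,0,0,2] (.ed false [1,-1,2] .k) (.S ⟨1,0,[0,0,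
  0,-1,0,0,0,2],[0,0,2],[0,0,1],(⟨0,[(32,1)]⟩,⟨0,[(2,0)]⟩),⟨0,[(0,0)]⟩,.k,(.r (-1) ⟨21,[(6,1),(4,1),
  (2,11),(3,9),(0,16),(7,19),(11,2),(4,15)]⟩ ⟨0,[(1,0),(39,0)]⟩),⟨false,0,⟨0,[(1,0)]⟩,⟨0,[(6,0),(4,
  0),(7,0),(7,0),(16,0)]⟩⟩,⟨true,0,⟨0,[(42,0)]⟩,⟨0,[(41,0)]⟩⟩,⟨true,0,⟨0,[(1,0),(39,0)]⟩,⟨0,[(6,0),
  (4,0),(2,0),(4,0)]⟩⟩,⟨false,1,⟨1,[(22,0),(0,0),(20,0)]⟩,⟨0,[]⟩⟩,[.o ⟨false,1,⟨9,[(14,9),(7,0),(0,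
  0),(3,9),(11,1),(4,4)]⟩,⟨0,[(1,0),(3,0),(5,0),(7,0)]⟩⟩,.o ⟨false,1,⟨0,[(6,0),(7,0),(7,0),(21,0)]⟩,
  ⟨19,[(1,1),(1,7),(13,19),(1,1),(19,1),(3,0),(0,2)]⟩⟩,.a ⟨true,0,⟨0,[(12,1)]⟩,⟨0,[(19,0)]⟩⟩ ⟨true,
  0,⟨1,[(29,0),(0,0)]⟩,⟨4,[(9,0),(28,1),(1,0)]⟩⟩ ⟨false,1,⟨0,[(6,0),(7,0),(4,0),(2,0),(21,0)]⟩,⟨0,
  [(1,0),(38,0)]⟩⟩,.e ⟨false,1,⟨1,[(22,0),(0,0),(20,0)]⟩,⟨0,[]⟩⟩ ⟨false,1,⟨0,[(6,0),(4,0),(2,0),(4,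
  0),(24,0)]⟩,⟨0,[(1,0),(39,0)]⟩⟩]⟩) (.I [0,0,0,0,0,1,2] (.I [0,0,-1,0,1,0,0,0,-1] (.I [0,0,-1,0,0,
  1,-1] (.C [(0,1),(2,0),(11,1),(20,2),(11,1)]) (.C [(0,0),(22,0),(5,0)])) (.C [(0,0),(12,0),(13,
  0)])) (.C [(0,0),(0,0),(11,1)]))) (.I [0,0,0,0,0,1,1] (.C [(0,0),(0,0),(1,0),(8,0),(7,0),(12,1),
  (10,0),(0,0)]) (.C [(0,0),(1,0),(9,0),(7,0)])))))))) (.Q [0,2,0,0,-1,0,1,1,1,-1,1,1] (.p true [0,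
  0,1] [1,0,0,0,-1] (⟨0,[(25,0)]⟩,⟨0,[(24,0)]⟩) .k 2 (⟨0,[(17,0)]⟩,⟨0,[(18,0)]⟩) .k (.r 0 ⟨0,[(7,0),
  (15,0),(9,0)]⟩ ⟨37,[(8,17),(0,9),(0,9),(11,19),(9,1),(3,0),(0,32)]⟩)) (.R ⟨0,false,false,true,[1,
  0,-1],[0,0,0,0,1],[1,2],(⟨0,[(25,0)]⟩,⟨0,[(26,0)]⟩),(⟨0,[(19,0)]⟩,⟨0,[(18,0)]⟩),⟨0,[(14,0)]⟩,.k,
  .k,.k,.k,.k,.k,⟨true,0,⟨0,[]⟩,⟨1,[(23,0),(0,0)]⟩⟩,⟨false,0,⟨5,[(2,5),(0,1),(2,5),(7,0),(0,0),(11,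
  1),(5,0),(0,1),(3,3)]⟩,⟨0,[(1,0),(38,0)]⟩⟩,⟨false,0,⟨0,[(0,0),(0,0)]⟩,⟨0,[(6,0),(0,0),(30,0)]⟩⟩,
  ⟨true,(-1),⟨0,[(0,0)]⟩,⟨0,[(1,0),(4,0),(0,0)]⟩⟩,⟨false,0,⟨0,[]⟩,⟨0,[]⟩⟩,⟨false,0,⟨0,[]⟩,⟨0,[]⟩⟩,
  [.o ⟨false,(-1),⟨0,[(0,0),(6,0)]⟩,⟨0,[(16,0),(21,0)]⟩⟩,.e ⟨false,0,⟨4,[(3,0),(28,1),(1,0)]⟩,⟨1,
  [(16,0),(0,0),(20,0)]⟩⟩ ⟨false,0,⟨18,[(0,3),(1,1),(0,4),(2,14),(2,3),(7,12),(15,2),(0,4)]⟩,⟨0,[(1,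
  0)]⟩⟩,.a ⟨true,0,⟨1,[(13,0),(6,0),(2,0)]⟩,⟨0,[(6,0)]⟩⟩ ⟨false,0,⟨0,[(40,0)]⟩,⟨0,[(38,0)]⟩⟩ ⟨true,
  (-1),⟨0,[(0,0),(5,0),(0,0)]⟩,⟨0,[(1,0)]⟩⟩,.o ⟨false,0,⟨0,[(24,0)]⟩,⟨4,[(6,3),(16,0),(9,0),(3,
  2)]⟩⟩]⟩) (.I [0,0,0,0,0,1,1] (.I [0,0,1,-1,0,0,0,1] (.I [0,0,-1,0,0,1,-1] (.I [0,-1,0,0,0,1,-1,
  -1] (.C [(0,0),(11,0),(6,0),(11,1),(6,0),(4,0)]) (.C [(0,0),(3,0),(1,0),(11,0)])) (.C [(0,0),(16,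
  0),(5,0)])) (.C [(0,0),(9,0),(15,0)])) (.C [(0,0),(6,0),(8,0)]))))

theorem ok38 : chk K t38 r19 = true := by decide +kernel

noncomputable def t44 : Tre :=
  (.R ⟨0,false,false,false,[0,0,1],[0,1,-1],[0,1],(⟨0,[(21,0)]⟩,⟨0,[(20,0)]⟩),(⟨0,[(10,0)]⟩,⟨0,[(21,
  0),(3,0)]⟩),⟨0,[(10,0)]⟩,.k,.k,.k,(.r 0 ⟨0,[(0,0),(1,0),(0,0)]⟩ ⟨7,[(1,6),(2,1),(13,13),(8,1),(2,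
  0),(1,0)]⟩),.k,.k,⟨false,0,⟨0,[(0,0),(1,1),(1,0),(26,0)]⟩,⟨1,[(1,0),(16,1),(11,0),(2,0)]⟩⟩,⟨true,
  0,⟨0,[(0,0)]⟩,⟨0,[(18,1)]⟩⟩,⟨true,0,⟨1,[(4,0),(12,0),(0,0)]⟩,⟨2,[(0,0),(1,2),(16,0)]⟩⟩,⟨false,1,
  ⟨0,[(1,0)]⟩,⟨0,[(2,0),(0,0)]⟩⟩,⟨false,0,⟨0,[]⟩,⟨0,[]⟩⟩,⟨false,0,⟨0,[]⟩,⟨0,[]⟩⟩,[.o ⟨false,1,⟨4,
  [(1,2),(14,0),(11,0),(1,1)]⟩,⟨0,[(3,0)]⟩⟩,.e ⟨false,1,⟨1,[(11,0),(0,0),(19,0)]⟩,⟨0,[]⟩⟩ ⟨false,1,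
  ⟨1,[(0,0),(0,0),(27,0),(3,0)]⟩,⟨1,[(3,1),(0,0),(11,0),(1,0)]⟩⟩,.o ⟨false,1,⟨9,[(11,0),(0,0),(5,9),
  (9,1),(3,4)]⟩,⟨2,[(0,0),(18,0)]⟩⟩,.a ⟨true,0,⟨0,[(18,0)]⟩,⟨0,[(15,0)]⟩⟩ ⟨true,0,⟨4,[(4,0),(2,0),
  (19,0),(1,0)]⟩,⟨1,[(18,0),(0,0)]⟩⟩ ⟨false,1,⟨1,[(0,0),(0,0),(27,0),(3,0)]⟩,⟨0,[(3,0),(14,0)]⟩⟩]⟩)

theorem ok44 : chk K t44 l28 = true := by decide +kernel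

noncomputable def t45 : Tre :=
  (.K ⟨0,[0,1,-1],0,0,(⟨0,[(12,0)]⟩,⟨0,[(23,0),(3,0)]⟩),.k,.k,(.x (-1) ⟨17,[(1,17),(1,8),(19,17),(0,
  25),(2,9),(2,1),(0,18),(1,9),(1,4),(0,0)]⟩ ⟨0,[(2,0),(9,0),(8,0),(3,0)]⟩),(.r (-1) ⟨0,[(2,0),(0,
  0),(33,0)]⟩ ⟨0,[(0,0),(0,0),(2,0)]⟩),.k,[⟨0,[(2,0)]⟩,⟨0,[(0,0)]⟩,⟨0,[(5,0),(31,0)]⟩,⟨0,[(8,0)]⟩]⟩)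

theorem ok45 : chk K t45 l30 = true := by decide +kernel

noncomputable def t46 : Tre :=
  (.R ⟨0,false,false,false,[1,0,-1],[0,1],[0,0,1],(⟨0,[(23,0)]⟩,⟨0,[(24,0)]⟩),(⟨0,[(29,0)]⟩,⟨0,[(28,
  0)]⟩),⟨0,[(12,0)]⟩,.k,.k,.k,.k,.k,.k,⟨true,0,⟨0,[(34,0)]⟩,⟨0,[(0,0)]⟩⟩,⟨false,1,⟨5,[(1,5),(0,3),
  (4,3),(4,0),(0,0),(11,1),(5,0),(0,3),(3,3)]⟩,⟨2,[(3,1),(7,2),(10,0)]⟩⟩,⟨true,0,⟨0,[(5,0),(16,0)]⟩,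
  ⟨0,[(7,0)]⟩⟩,⟨false,1,⟨7,[(0,6),(0,2),(0,2),(2,4),(6,2),(0,2),(11,5),(5,0),(0,3),(3,5)]⟩,⟨0,[(8,
  0)]⟩⟩,⟨false,0,⟨0,[]⟩,⟨0,[]⟩⟩,⟨false,0,⟨0,[]⟩,⟨0,[]⟩⟩,[.o ⟨false,1,⟨9,[(4,0),(14,1),(11,1),(1,8),
  (2,4)]⟩,⟨0,[(34,0)]⟩⟩,.o ⟨false,1,⟨0,[(12,0),(0,0),(11,1),(6,0),(3,0),(0,0)]⟩,⟨0,[(34,0),(3,0)]⟩⟩,
  .a ⟨true,0,⟨2,[(3,0),(7,1),(6,0)]⟩,⟨0,[(1,0)]⟩⟩ ⟨true,0,⟨2,[(3,0),(18,1)]⟩,⟨4,[(7,0),(2,0),(19,0),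
  (1,0)]⟩⟩ ⟨false,1,⟨0,[(1,0),(10,0),(0,0),(11,1),(6,0),(3,0),(0,0)]⟩,⟨1,[(6,0),(1,0),(2,0)]⟩⟩,.o
  ⟨false,0,⟨0,[(22,0)]⟩,⟨4,[(1,2),(1,0),(27,0),(3,2)]⟩⟩]⟩)

theorem ok46 : chk K t46 l31 = true := by decide +kernel

noncomputable def t47 : Tre :=
  (.R ⟨0,false,false,true,[0,1,-1],[0,1],[1],(⟨0,[(14,0)]⟩,⟨0,[(25,0),(3,0)]⟩),(⟨0,[(30,0)]⟩,⟨0,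
  [(29,0)]⟩),⟨0,[(25,0)]⟩,.k,.k,.k,.k,.k,.k,⟨false,1,⟨1,[(1,1),(34,0),(0,0)]⟩,⟨2,[(4,0),(18,1),(10,
  2)]⟩⟩,⟨true,0,⟨0,[(2,0)]⟩,⟨0,[(23,0)]⟩⟩,⟨true,0,⟨0,[(3,0)]⟩,⟨2,[(4,1),(5,2),(12,0)]⟩⟩,⟨false,0,⟨0,
  [(6,0)]⟩,⟨14,[(5,4),(3,4),(5,2),(0,2),(15,0),(4,4)]⟩⟩,⟨false,0,⟨0,[]⟩,⟨0,[]⟩⟩,⟨false,0,⟨0,[]⟩,⟨0,
  []⟩⟩,[.a ⟨true,0,⟨0,[(34,0)]⟩,⟨0,[(0,0)]⟩⟩ ⟨true,0,⟨0,[]⟩,⟨2,[(4,0),(18,1)]⟩⟩ ⟨false,0,⟨1,[(4,0),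
  (28,0),(0,0)]⟩,⟨14,[(3,2),(1,0),(3,6),(1,5),(0,2),(19,1),(4,9)]⟩⟩,.o ⟨false,1,⟨9,[(5,0),(14,1),
  (11,1),(1,8),(2,4)]⟩,⟨0,[(35,0)]⟩⟩,.o ⟨false,1,⟨2,[(12,0),(6,0),(12,0),(3,0)]⟩,⟨0,[(22,0)]⟩⟩,.o
  ⟨false,1,⟨49,[(12,24),(2,16),(0,16),(15,14),(4,2),(1,5)]⟩,⟨0,[(2,0)]⟩⟩]⟩)

theorem ok47 : chk K t47 l32 = true := by decide +kernel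

noncomputable def t48 : Tre :=
  (.Q [0,0,0,0,0,0,0,0,0,1,-2] (.ed true [0,0,2] (.x (-1) ⟨19,[(2,1),(0,19),(1,9),(19,39),(7,7),(0,
  1),(2,2),(0,0)]⟩ ⟨0,[(14,1),(5,1),(6,1),(11,1)]⟩)) (.Q [0,0,1,0,0,0,3,0,0,-1,3] (.p true [0,0,1]
  [1,0,-2] (⟨0,[(27,0)]⟩,⟨0,[(26,0)]⟩) .k 2 (⟨0,[(0,0)]⟩,⟨0,[(27,1)]⟩) .k (.x (-1) ⟨9,[(0,14),(3,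
  13),(1,7),(27,2),(3,3)]⟩ ⟨0,[(15,2),(5,2),(6,2),(11,2)]⟩)) (.Q [0,-1,0,1,1,0,-3,-3,0,1,-3] (.p
  false [0,0,1] [1,0,-2] (⟨0,[(28,0)]⟩,⟨0,[(27,0)]⟩) .k 2 (⟨0,[(1,0)]⟩,⟨0,[(28,1)]⟩) .k (.x (-1)
  ⟨25,[(0,13),(0,38),(5,17),(27,4),(3,15)]⟩ ⟨0,[(16,2),(5,2),(6,2),(11,2)]⟩)) (.I [0,0,-1,-1,0,0,0,
  2] (.I [0,0,-1,-1,0,0,0,3] (.Q [0,0,0,0,0,-1,0,0,0,0,2] (.ed false [1,-1,2] .k) (.Q [0,0,0,0,0,0,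
  -3,0,0,1,-3] (.p false [0,0,1] [1,0,-2] (⟨0,[(32,0)]⟩,⟨0,[(31,0)]⟩) .k 2 (⟨0,[(5,0)]⟩,⟨0,[(32,
  1)]⟩) .k (.x (-1) ⟨25,[(4,13),(0,38),(5,17),(27,4),(3,15)]⟩ ⟨0,[(20,2),(5,2),(6,2),(11,2)]⟩)) (.R
  ⟨0,false,false,true,[1,0,-1],[0,-1,2],[0,0,1],(⟨0,[(32,0)]⟩,⟨0,[(33,0)]⟩),(⟨0,[(1,0)]⟩,⟨0,[(22,0),
  (9,0)]⟩),⟨0,[(21,0)]⟩,.k,(.r 0 ⟨0,[(3,0)]⟩ ⟨6,[(4,4),(7,6),(15,0),(11,0),(1,1),(4,1)]⟩),.k,(.r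
  (-1) ⟨20,[(4,9),(2,6),(4,20),(5,3),(10,7),(10,1),(6,4)]⟩ ⟨0,[(2,0)]⟩),.k,.k,⟨false,1,⟨0,[(12,0),
  (0,0)]⟩,⟨8,[(2,3),(16,5),(19,0),(1,0)]⟩⟩,⟨true,0,⟨0,[(5,0)]⟩,⟨0,[(0,0)]⟩⟩,⟨true,0,⟨0,[(14,0),(16,
  0)]⟩,⟨0,[(16,0)]⟩⟩,⟨false,0,⟨0,[(2,0),(2,0)]⟩,⟨0,[(4,0)]⟩⟩,⟨false,0,⟨0,[]⟩,⟨0,[]⟩⟩,⟨false,0,⟨0,
  []⟩,⟨0,[]⟩⟩,[.o ⟨false,0,⟨2,[(2,1),(2,1),(2,0),(34,1),(3,1)]⟩,⟨0,[(13,0)]⟩⟩,.o ⟨false,0,⟨11,[(2,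
  7),(2,8),(3,3),(11,2),(0,2),(8,2),(2,5)]⟩,⟨6,[(4,4),(23,0),(11,0),(1,1),(4,1)]⟩⟩,.a ⟨true,0,⟨2,
  [(12,0),(7,1),(6,0)]⟩,⟨0,[(10,0)]⟩⟩ ⟨true,0,⟨2,[(12,0),(18,1)]⟩,⟨4,[(16,0),(2,0),(19,0),(1,0)]⟩⟩
  ⟨false,0,⟨2,[(2,1),(2,2),(3,0)]⟩,⟨2,[(0,0),(3,1),(37,0),(2,0)]⟩⟩,.o ⟨false,0,⟨0,[(31,0)]⟩,⟨12,[(5,
  2),(6,1),(27,1),(3,8)]⟩⟩]⟩) (.I [0,0,0,0,1,0,0,0,-1] (.I [0,0,1,0,0,0,2] (.I [0,0,0,0,0,1,-1,1]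
  (.I [0,1,0,1,0,0,0,0,1] (.I [0,0,0,0,0,1,1,1] (.I [0,0,-1,0,0,1,-1] (.C [(0,1),(5,0),(5,1),(14,1),
  (5,0),(6,3),(11,2)]) (.C [(0,0),(26,0),(5,0)])) (.C [(0,0),(10,0),(7,0),(6,0)])) (.C [(0,0),(11,
  0),(15,0),(0,0)])) (.C [(0,0),(16,0),(6,0),(5,0),(3,0)])) (.C [(0,0),(1,0),(5,0),(24,0)])) (.C
  [(0,0),(23,0),(2,0)]))) (.I [0,0,0,0,1,0,0,0,-1] (.I [0,0,0,0,0,1,2] (.I [0,1,0,1,0,0,0,-1] (.I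
  [0,1,0,1,0,0,0,0,1] (.I [0,0,-1,0,0,1,-1] (.C [(0,1),(4,0),(3,0),(21,0),(6,2),(11,1)]) (.C [(0,0),
  (24,0),(5,0)])) (.C [(0,0),(10,0),(15,0),(0,0)])) (.C [(0,1),(6,0),(12,1),(8,0)])) (.C [(0,0),(1,
  0),(3,0),(21,0)])) (.C [(0,0),(22,0),(2,0)]))) (.I [0,0,0,0,1,0,0,0,-1] (.I [0,1,0,1,0,0,0,0,1]
  (.I [0,0,0,0,0,1,-1,1] (.I [0,0,-1,0,0,1,-1] (.C [(0,0),(3,0),(0,0),(2,0),(7,0),(6,0),(12,1),(11,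
  0)]) (.C [(0,0),(22,0),(5,0)])) (.C [(0,0),(14,0),(6,0),(5,0),(3,0)])) (.C [(0,0),(7,0),(15,0),(0,
  0)])) (.C [(0,0),(21,0),(2,0)]))) (.I [0,0,0,0,1,0,0,0,-1] (.I [0,1,0,1,0,0,0,0,1] (.I [0,0,0,0,0,
  1,-1,1] (.I [0,0,-1,0,0,1,-1] (.C [(0,0),(3,0),(2,0),(4,0),(2,0),(6,0),(12,1),(11,0)]) (.C [(0,0),
  (21,0),(5,0)])) (.C [(0,0),(13,0),(6,0),(5,0),(3,0)])) (.C [(0,0),(6,0),(15,0),(0,0)])) (.C [(0,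
  0),(20,0),(2,0)]))) (.I [0,0,-1,0,0,0,0,1] (.I [0,0,0,0,1,0,0,0,-1] (.I [0,1,0,1,0,0,0,0,1] (.I
  [0,0,-1,0,0,1,-1] (.C [(0,1),(3,0),(1,1),(0,0),(13,1),(5,0),(6,3),(11,2)]) (.C [(0,0),(20,0),(5,
  0)])) (.C [(0,0),(2,0),(8,0),(4,0),(5,0),(0,0)])) (.C [(0,0),(20,0),(2,0)])) (.C [(0,0),(0,0),(8,
  0),(13,0)]))) (.I [0,0,0,0,0,0,0,1] (.Q [0,0,0,0,0,-1,0,0,0,0,2] (.ed false [1,-1,2] .k) (.R ⟨0,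
  false,false,false,[0,0,1],[1,1,-2],[1,1],(⟨0,[(30,0)]⟩,⟨0,[(29,0)]⟩),(⟨0,[(19,0),(9,0)]⟩,⟨0,[(0,
  0)]⟩),⟨0,[(19,0)]⟩,.k,(.r (-1) ⟨0,[(9,0),(0,0),(33,0)]⟩ ⟨0,[(1,0),(6,0)]⟩),.k,(.r 0 ⟨0,[(1,1),(6,
  0)]⟩ ⟨2,[(4,2),(4,0),(18,1),(15,2)]⟩),.k,.k,⟨false,0,⟨0,[(1,0),(14,0)]⟩,⟨0,[(9,0),(0,0)]⟩⟩,⟨true,
  0,⟨0,[(2,0)]⟩,⟨0,[(7,2),(10,0),(0,0),(11,1),(11,1)]⟩⟩,⟨true,0,⟨2,[(9,0),(3,0),(12,1)]⟩,⟨0,[(1,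
  0)]⟩⟩,⟨false,1,⟨1,[(2,0),(1,1),(12,0),(10,0)]⟩,⟨1,[(1,3),(5,3),(0,1),(0,0),(8,1),(0,1),(11,3),(11,
  0)]⟩⟩,⟨false,0,⟨0,[]⟩,⟨0,[]⟩⟩,⟨false,0,⟨0,[]⟩,⟨0,[]⟩⟩,[.o ⟨false,1,⟨0,[(10,0),(33,0)]⟩,⟨0,[(1,0),
  (5,1),(0,0),(9,0),(0,0),(11,1),(11,0)]⟩⟩,.o ⟨false,1,⟨0,[(10,0)]⟩,⟨0,[(5,0),(6,1)]⟩⟩,.e ⟨false,0,
  ⟨0,[]⟩,⟨1,[(20,0),(0,0),(20,0)]⟩⟩ ⟨false,1,⟨5,[(4,1),(5,2),(6,5),(21,0),(2,0)]⟩,⟨0,[(1,0),(5,2),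
  (0,0),(9,0),(0,0),(11,1),(11,0)]⟩⟩,.a ⟨true,0,⟨0,[(27,0)]⟩,⟨0,[(24,0)]⟩⟩ ⟨true,0,⟨4,[(13,0),(2,0),
  (19,0),(1,0)]⟩,⟨2,[(9,0),(18,1)]⟩⟩ ⟨false,1,⟨0,[(10,0),(13,0)]⟩,⟨0,[(1,0),(5,0),(0,0),(0,0),(8,0),
  (0,0),(11,1),(11,0)]⟩⟩]⟩) (.I [0,0,0,0,1,0,0,0,-1] (.I [0,1,0,1,0,0,0,0,1] (.I [0,0,0,0,0,1,2]
  (.I [0,1,0,1,0,0,0,-1] (.I [0,0,-1,0,0,1,-1] (.C [(0,0),(1,0),(4,0),(4,1),(10,0),(12,2),(11,1)])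
  (.C [(0,0),(6,0),(4,1),(10,0)])) (.C [(0,0),(10,0),(7,0)])) (.C [(0,0),(2,0),(6,1)])) (.C [(0,0),
  (6,0),(15,0),(0,0)])) (.C [(0,0),(20,0),(2,0)]))) (.N [0,0,1] 0 ⟨3,[(1,0),(8,3),(6,0),(0,0),(8,0),
  (2,1)]⟩ ⟨0,[(0,0)]⟩ .k))) (.Q [0,-1,0,1,1,0,-3,-3,0,1,-3] (.p false [0,0,1] [1,1,-2] (⟨0,[(27,
  0)]⟩,⟨0,[(26,0)]⟩) .k 2 (⟨0,[(16,0),(9,0)]⟩,⟨0,[(0,0),(30,0)]⟩) (.x (-1) ⟨9,[(0,9),(13,9),(2,0),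
  (0,0),(12,9),(2,1),(3,4)]⟩ ⟨0,[(4,1),(11,1),(11,0),(11,0)]⟩) (.x (-1) ⟨12,[(2,5),(0,5),(0,38),(11,
  7),(9,30),(1,7),(5,4),(4,2),(0,5)]⟩ ⟨1,[(0,2),(13,2)]⟩)) (.I [0,0,-1,-1,0,0,0,2] (.I [0,0,-1,-1,0,
  0,0,3] (.Q [0,0,0,-1,0,0,2,2,0,-1,2] (.p true [0,0,1] [1,0,-1] (⟨0,[(30,0)]⟩,⟨0,[(29,0)]⟩) .k 2
  (⟨0,[(29,0)]⟩,⟨0,[(30,0)]⟩) .k (.x (-1) ⟨19,[(6,1),(0,19),(1,9),(19,39),(7,7),(0,1),(2,2),(0,0)]⟩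
  ⟨0,[(3,0),(13,0)]⟩)) (.Q [0,0,0,0,0,0,-3,0,0,1,-3] (.p false [0,0,1] [1,1,-2] (⟨0,[(31,0)]⟩,⟨0,
  [(30,0)]⟩) .k 2 (⟨0,[(20,0),(9,0)]⟩,⟨0,[(4,0),(30,0)]⟩) (.r (-1) ⟨6,[(3,4),(6,6),(15,0),(11,0),(1,
  1),(4,1)]⟩ ⟨0,[(2,0)]⟩) (.x (-1) ⟨19,[(0,26),(4,17),(0,17),(0,8),(2,2),(9,9),(9,49),(1,9),(5,0),
  (5,5)]⟩ ⟨1,[(4,2),(13,2)]⟩)) (.Q [0,0,1,0,0,0,3,0,0,-1,3] (.p true [0,0,1] [1,1,-2] (⟨0,[(32,0)]⟩,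
  ⟨0,[(31,0)]⟩) .k 2 (⟨0,[(21,0),(9,0)]⟩,⟨0,[(5,0),(30,0)]⟩) (.r (-1) ⟨6,[(4,4),(6,6),(15,0),(11,0),
  (1,1),(4,1)]⟩ ⟨0,[(3,0)]⟩) (.x (-1) ⟨19,[(1,26),(4,17),(0,17),(0,8),(2,2),(9,9),(9,49),(1,9),(5,
  0),(5,5)]⟩ ⟨1,[(5,2),(13,2)]⟩)) (.R ⟨0,false,false,true,[1,0,-1],[0,-1,2],[0,0,1],(⟨0,[(32,0)]⟩,
  ⟨0,[(33,0)]⟩),(⟨0,[(6,0),(30,0)]⟩,⟨0,[(22,0),(9,0)]⟩),⟨0,[(21,0)]⟩,.k,(.r 0 ⟨0,[(4,0)]⟩ ⟨6,[(5,4),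
  (6,6),(15,0),(11,0),(1,1),(4,1)]⟩),.k,(.r (-1) ⟨20,[(5,9),(1,6),(4,20),(5,3),(10,7),(10,1),(6,
  4)]⟩ ⟨0,[(3,0)]⟩),.k,.k,⟨false,1,⟨0,[(12,0),(0,0)]⟩,⟨8,[(3,3),(15,5),(19,0),(1,0)]⟩⟩,⟨true,0,⟨0,
  [(0,0)]⟩,⟨0,[(1,0)]⟩⟩,⟨true,0,⟨0,[(14,0),(16,0)]⟩,⟨0,[(16,0)]⟩⟩,⟨false,0,⟨0,[(0,0),(2,0)]⟩,⟨0,[(5,
  0)]⟩⟩,⟨false,0,⟨0,[]⟩,⟨0,[]⟩⟩,⟨false,0,⟨0,[]⟩,⟨0,[]⟩⟩,[.o ⟨false,0,⟨0,[(2,0),(44,0)]⟩,⟨0,[(13,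
  0)]⟩⟩,.o ⟨false,0,⟨0,[(2,0)]⟩,⟨6,[(5,4),(22,0),(11,0),(1,1),(4,1)]⟩⟩,.a ⟨true,0,⟨2,[(12,0),(7,1),
  (6,0)]⟩,⟨0,[(10,0)]⟩⟩ ⟨true,0,⟨2,[(12,0),(18,1)]⟩,⟨4,[(16,0),(2,0),(19,0),(1,0)]⟩⟩ ⟨false,0,⟨1,
  [(0,0),(1,1),(24,0)]⟩,⟨2,[(1,0),(3,1),(36,0),(2,0)]⟩⟩,.o ⟨false,0,⟨0,[(31,0)]⟩,⟨12,[(0,2),(11,1),
  (27,1),(3,8)]⟩⟩]⟩) (.I [0,0,0,0,1,0,0,0,-1] (.I [0,0,0,0,0,1,1] (.C [(0,1),(1,0),(5,0),(3,0),(23,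
  1),(11,0)]) (.C [(0,0),(11,0),(11,0)])) (.C [(0,0),(23,0),(2,0)]))) (.I [0,0,0,0,0,0,-1] (.C [(0,
  1),(0,0),(20,1),(4,0),(6,1),(11,0)]) (.C [(0,1),(5,0),(20,0),(3,0)]))) (.I [0,0,0,0,0,1,1] (.C
  [(0,1),(0,1),(0,0),(2,1),(3,1),(0,0),(10,1),(11,3),(11,1)]) (.C [(0,0),(8,0),(11,0)]))) (.I [0,0,
  0,0,0,0,-1] (.C [(0,0),(0,0),(0,0),(9,0),(7,0),(11,0)]) (.C [(0,1),(3,0),(20,0),(3,0)]))) (.I [0,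
  0,0,0,0,0,-1] (.C [(0,0),(0,0),(6,0),(2,0),(7,0),(11,0)]) (.C [(0,1),(2,0),(20,0),(3,0)]))) (.I
  [0,0,0,0,0,0,-1] (.C [(0,1),(0,0),(1,0),(14,1),(4,0),(6,1),(11,0)]) (.C [(0,1),(1,0),(20,0),(3,
  0)]))))

theorem ok48 : chk K t48 l33 = true := by decide +kernel

noncomputable def t49 : Tre :=
  (.Q [0,0,0,0,0,0,0,0,0,1,-2] (.ed true [0,0,2] (.r 0 ⟨2,[(0,1),(34,1),(2,1)]⟩ ⟨52,[(5,44),(0,29),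
  (2,15),(0,29),(21,6),(0,5),(3,10)]⟩)) (.R ⟨0,false,false,true,[0,0,1],[0,0,2],[1,1],(⟨0,[(27,0)]⟩,
  ⟨0,[(26,0)]⟩),(⟨0,[(27,1)]⟩,⟨0,[(0,0)]⟩),⟨0,[(16,0)]⟩,.k,.k,.k,.k,.k,.k,⟨false,1,⟨32,[(6,14),(0,
  9),(2,35),(0,9),(22,1),(3,5),(0,12)]⟩,⟨2,[(1,1),(34,1),(2,1)]⟩⟩,⟨true,0,⟨0,[(4,0)]⟩,⟨0,[(25,0)]⟩⟩,
  ⟨true,0,⟨2,[(6,0),(3,0),(12,1)]⟩,⟨2,[(1,0),(34,0),(2,0)]⟩⟩,⟨false,0,⟨0,[(8,0)]⟩,⟨14,[(7,4),(3,4),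
  (5,2),(0,2),(15,0),(4,4)]⟩⟩,⟨false,0,⟨0,[]⟩,⟨0,[]⟩⟩,⟨false,0,⟨0,[]⟩,⟨0,[]⟩⟩,[.o ⟨false,0,⟨24,[(1,
  9),(4,15),(1,16),(4,1),(8,0),(11,4),(0,11)]⟩,⟨0,[(7,0),(29,0)]⟩⟩,.o ⟨false,0,⟨2,[(1,1),(0,1),(1,
  5),(10,0),(0,0),(11,1),(10,1)]⟩,⟨14,[(7,9),(3,9),(5,0),(0,0),(15,1),(6,9)]⟩⟩,.e ⟨false,0,⟨0,[]⟩,
  ⟨1,[(17,0),(0,0),(20,0)]⟩⟩ ⟨false,0,⟨2,[(1,0),(6,2),(27,0),(2,0)]⟩,⟨1,[(3,0),(2,0),(0,1),(29,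
  0)]⟩⟩,.a ⟨true,0,⟨0,[(24,0)]⟩,⟨0,[(21,0)]⟩⟩ ⟨true,0,⟨4,[(10,0),(2,0),(19,0),(1,0)]⟩,⟨2,[(6,0),(18,
  1)]⟩⟩ ⟨false,0,⟨2,[(1,1),(2,3),(10,0),(0,0),(4,0),(6,1),(6,1),(3,1)]⟩,⟨2,[(6,1),(0,2),(17,0),(11,
  2)]⟩⟩]⟩) (.Q [0,0,0,0,0,0,2,1,0,-1,2] (.p true [0,0,1] [1,0,-1] (⟨0,[(27,0)]⟩,⟨0,[(26,0)]⟩) .k 2
  (⟨0,[(26,0)]⟩,⟨0,[(27,0)]⟩) .k (.r 0 ⟨2,[(1,1),(34,1),(2,1)]⟩ ⟨52,[(6,44),(0,29),(2,15),(0,29),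
  (21,6),(0,5),(3,10)]⟩)) (.Q [0,0,1,0,0,0,2,0,0,-1,2] (.p true [0,0,1] [1,0,-1] (⟨0,[(28,0)]⟩,⟨0,
  [(27,0)]⟩) .k 2 (⟨0,[(27,0)]⟩,⟨0,[(28,0)]⟩) .k (.r 0 ⟨2,[(2,1),(34,1),(2,1)]⟩ ⟨52,[(7,44),(0,29),
  (2,15),(0,29),(21,6),(0,5),(3,10)]⟩)) (.R ⟨0,false,false,true,[0,0,1],[1,0,-1],[1],(⟨0,[(29,0)]⟩,
  ⟨0,[(28,0)]⟩),(⟨0,[(28,0)]⟩,⟨0,[(29,0)]⟩),⟨0,[(18,0)]⟩,.k,.k,.k,.k,.k,.k,⟨false,1,⟨5,[(3,1),(34,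
  1),(1,2),(0,4)]⟩,⟨2,[(8,0),(3,0),(12,1)]⟩⟩,⟨true,0,⟨0,[(16,0)]⟩,⟨0,[(0,0)]⟩⟩,⟨false,1,⟨32,[(8,14),
  (0,9),(2,2),(0,9),(22,1),(3,5),(0,12)]⟩,⟨2,[(3,0),(34,0),(2,0)]⟩⟩,⟨true,0,⟨0,[(13,0),(0,0)]⟩,⟨2,
  [(1,2),(1,0),(34,0),(2,0)]⟩⟩,⟨false,0,⟨0,[]⟩,⟨0,[]⟩⟩,⟨false,0,⟨0,[]⟩,⟨0,[]⟩⟩,[.o ⟨false,0,⟨0,[(25,
  0)]⟩,⟨20,[(1,5),(1,1),(20,8),(11,2),(1,1),(2,16)]⟩⟩,.e ⟨false,1,⟨1,[(40,0),(0,0)]⟩,⟨0,[(43,0)]⟩⟩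
  ⟨false,1,⟨1,[(9,0),(3,0),(2,0),(7,0),(15,0)]⟩,⟨0,[(1,0)]⟩⟩,.e ⟨true,0,⟨0,[]⟩,⟨0,[(43,0)]⟩⟩ ⟨true,
  0,⟨1,[(13,0),(0,0),(1,0),(26,0)]⟩,⟨0,[(1,0)]⟩⟩,.a ⟨true,0,⟨0,[(26,0)]⟩,⟨0,[(23,0)]⟩⟩ ⟨false,1,⟨1,
  [(40,0),(0,0)]⟩,⟨2,[(8,0),(18,1)]⟩⟩ ⟨true,0,⟨0,[(23,0),(1,0)]⟩,⟨2,[(1,2),(6,0),(18,1)]⟩⟩]⟩) (.I
  [0,0,0,0,1,0,0,0,-1] (.I [0,0,0,0,0,1,1] (.C [(0,1),(1,0),(1,0),(27,1),(11,0)]) (.C [(0,0),(7,0),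
  (11,0)])) (.C [(0,0),(19,0),(2,0)]))) (.I [0,0,0,0,0,0,-1] (.I [0,0,0,0,1,0,0,0,-1] (.I [0,0,0,0,
  0,1,1] (.I [0,0,0,0,0,0,-2,-1] (.C [(0,0),(0,1),(4,0),(2,1),(2,0),(20,1)]) (.C [(0,0),(3,0),(0,
  0)])) (.C [(0,0),(7,0),(11,0)])) (.C [(0,0),(19,0),(2,0)])) (.C [(0,1),(0,0),(0,0),(0,0),(2,1),(2,
  0)]))))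

theorem ok49 : chk K t49 r33 = true := by decide +kernel

noncomputable def t54 : Tre :=
  (.I [0,0,2,2] (.I [1,0,0,0,0,0,0,1] (.R ⟨0,false,false,true,[1,-1],[1,0,-1],[1,1],(⟨0,[(28,0)]⟩,
  ⟨0,[(29,0)]⟩),(⟨0,[(23,0)]⟩,⟨0,[(24,0)]⟩),⟨0,[(12,0),(0,0)]⟩,.k,.k,(.r (-1) ⟨0,[(34,1),(0,0)]⟩ ⟨0,
  [(1,0)]⟩),.k,.k,.k,⟨true,0,⟨0,[(0,0)]⟩,⟨0,[(2,0),(31,0)]⟩⟩,⟨false,1,⟨5,[(11,0),(6,3),(12,0),(3,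
  3)]⟩,⟨0,[(21,0)]⟩⟩,⟨false,0,⟨1,[(1,0)]⟩,⟨1,[(34,1),(0,0),(0,0)]⟩⟩,⟨true,0,⟨0,[(9,0)]⟩,⟨0,[(6,
  0)]⟩⟩,⟨false,0,⟨0,[]⟩,⟨0,[]⟩⟩,⟨false,0,⟨0,[]⟩,⟨0,[]⟩⟩,[.o ⟨false,0,⟨0,[(20,0)]⟩,⟨4,[(5,3),(13,0),
  (11,0),(4,2)]⟩⟩,.a ⟨true,0,⟨1,[(2,0),(5,0),(9,0)]⟩,⟨0,[(5,0)]⟩⟩ ⟨true,0,⟨0,[]⟩,⟨2,[(3,0),(18,
  1)]⟩⟩ ⟨false,1,⟨3,[(4,1),(2,1),(2,1),(24,0),(0,0)]⟩,⟨1,[(1,0),(4,1)]⟩⟩,.o ⟨false,0,⟨2,[(3,0),(18,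
  1)]⟩,⟨9,[(14,0),(0,0),(15,1),(3,4)]⟩⟩,.o ⟨false,0,⟨2,[(3,1),(18,3)]⟩,⟨10,[(7,3),(2,3),(1,5),(0,5),
  (11,11),(5,0),(0,9),(1,5),(1,8)]⟩⟩]⟩) (.I [0,0,0,0,1,0,0,0,-1] (.I [0,0,1,0,0,0,0,1] (.I [0,0,0,0,
  0,1,1,1] (.C [(0,0),(2,0),(11,0),(5,0),(6,1),(11,0)]) (.C [(0,0),(7,0),(7,0)])) (.C [(0,0),(6,0),
  (16,0)])) (.C [(0,0),(14,0),(2,0)]))) (.I [1,0,-1,-1,0,0,0,1] (.N [0,-1,1] 0 ⟨0,[(0,0)]⟩ ⟨0,[(2,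
  0)]⟩ .k) (.I [0,0,0,0,1,0,0,0,-1] (.I [0,0,1,0,0,0,0,1] (.I [0,0,0,0,0,1,1,1] (.C [(0,1),(2,1),(0,
  0),(10,1),(5,1),(6,3),(11,1)]) (.C [(0,0),(7,0),(7,0)])) (.C [(0,0),(6,0),(16,0)])) (.C [(0,0),
  (14,0),(2,0)]))))

theorem ok54 : chk K t54 r29 = true := by decide +kernel

noncomputable def t57 : Tre :=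
  (.Q [0,0,-1,0,0,0,-1,0,1,0,-1,1] (.p false [0,0,1] [0,0,0,0,1] (⟨0,[(22,0)]⟩,⟨0,[(21,0)]⟩) .k 2
  (⟨0,[(15,0)]⟩,⟨0,[(14,0)]⟩) .k (.r (-1) ⟨9,[(3,3),(5,4),(7,5),(11,0),(4,7)]⟩ ⟨1,[(5,0),(12,0),(0,
  0)]⟩)) (.Q [0,-1,-1,1,1,0,-2,-1,0,0,-2] (.p false [0,0,1] [0,1,-1] (⟨0,[(23,0)]⟩,⟨0,[(22,0)]⟩) .k
  2 (⟨0,[(12,0)]⟩,⟨0,[(23,0),(3,0)]⟩) .k (.r 0 ⟨2,[(1,1),(2,5),(16,1)]⟩ ⟨18,[(6,17),(0,9),(0,9),(11,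
  19),(9,1),(3,0),(0,13)]⟩)) (.R ⟨0,false,false,false,[0,0,1],[0,1,-1],[1,0,1],(⟨0,[(24,0)]⟩,⟨0,
  [(23,0)]⟩),(⟨0,[(13,0)]⟩,⟨0,[(24,0),(3,0)]⟩),⟨0,[(13,0)]⟩,.k,.k,.k,(.r 0 ⟨31,[(2,11),(1,21),(0,9),
  (4,9),(0,14),(19,2),(4,15)]⟩ ⟨37,[(7,17),(0,9),(0,47),(11,57),(9,1),(3,0),(0,32)]⟩),.k,.k,⟨false,
  0,⟨2,[(2,0),(1,0),(5,0),(23,0),(1,0)]⟩,⟨1,[(9,1),(11,1),(13,0),(0,0)]⟩⟩,⟨true,0,⟨0,[(2,0)]⟩,⟨0,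
  [(21,1)]⟩⟩,⟨false,1,⟨19,[(8,9),(0,9),(4,0),(0,0),(5,19),(9,1),(4,14)]⟩,⟨1,[(2,0),(1,0),(27,0),(3,
  0)]⟩⟩,⟨true,1,⟨19,[(8,9),(0,29),(4,0),(0,0),(15,1),(4,14)]⟩,⟨0,[(4,0)]⟩⟩,⟨false,0,⟨0,[]⟩,⟨0,[]⟩⟩,
  ⟨false,0,⟨0,[]⟩,⟨0,[]⟩⟩,[.o ⟨false,1,⟨9,[(9,9),(4,0),(0,0),(15,1),(4,4)]⟩,⟨0,[(6,0)]⟩⟩,.e ⟨false,
  1,⟨1,[(14,0),(0,0),(20,0)]⟩,⟨4,[(7,0),(2,0),(19,0),(1,0)]⟩⟩ ⟨false,1,⟨0,[(0,0)]⟩,⟨1,[(6,1),(0,0),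
  (11,0),(1,0)]⟩⟩,.o ⟨false,1,⟨9,[(14,0),(0,0),(5,9),(9,1),(3,4)]⟩,⟨2,[(2,0),(19,0)]⟩⟩,.a ⟨true,0,
  ⟨0,[(21,0)]⟩,⟨0,[(18,0)]⟩⟩ ⟨true,0,⟨0,[]⟩,⟨0,[(38,0)]⟩⟩ ⟨false,1,⟨0,[(0,0)]⟩,⟨0,[(6,0),(14,
  0)]⟩⟩]⟩) (.R ⟨0,false,false,false,[0,0,1],[0,1,-1],[1,0,1],(⟨0,[(24,0)]⟩,⟨0,[(23,0)]⟩),(⟨0,[(13,
  0)]⟩,⟨0,[(24,0),(3,0)]⟩),⟨0,[(13,0)]⟩,.k,.k,.k,(.r 0 ⟨31,[(2,11),(1,21),(0,9),(4,9),(0,14),(19,2),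
  (4,15)]⟩ ⟨37,[(7,17),(0,9),(0,47),(11,57),(9,1),(3,0),(0,32)]⟩),.k,.k,⟨false,0,⟨2,[(2,0),(1,0),(5,
  0),(23,0),(1,0)]⟩,⟨1,[(9,1),(11,1),(13,0),(0,0)]⟩⟩,⟨true,0,⟨0,[(2,0)]⟩,⟨0,[(21,1)]⟩⟩,⟨false,1,⟨19,
  [(8,9),(0,9),(4,0),(0,0),(5,19),(9,1),(4,14)]⟩,⟨1,[(2,0),(1,0),(27,0),(3,0)]⟩⟩,⟨true,1,⟨19,[(8,9),
  (0,29),(4,0),(0,0),(15,1),(4,14)]⟩,⟨0,[(4,0)]⟩⟩,⟨false,0,⟨0,[]⟩,⟨0,[]⟩⟩,⟨false,0,⟨0,[]⟩,⟨0,[]⟩⟩,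
  [.o ⟨false,1,⟨9,[(9,9),(4,0),(0,0),(15,1),(4,4)]⟩,⟨0,[(6,0)]⟩⟩,.a ⟨true,1,⟨0,[(9,0),(26,0)]⟩,⟨0,
  [(0,0),(17,0)]⟩⟩ ⟨false,1,⟨1,[(14,0),(0,0),(20,0)]⟩,⟨4,[(7,0),(2,0),(19,0),(1,0)]⟩⟩ ⟨true,1,⟨2,
  [(2,0),(6,2),(12,0),(13,2)]⟩,⟨0,[(0,0)]⟩⟩,.o ⟨false,1,⟨9,[(14,0),(0,0),(5,9),(9,1),(3,4)]⟩,⟨2,[(2,
  0),(19,0)]⟩⟩,.e ⟨true,0,⟨0,[]⟩,⟨0,[(38,0)]⟩⟩ ⟨true,1,⟨17,[(2,3),(6,17),(1,4),(19,0),(3,6),(0,8)]⟩,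
  ⟨0,[(0,0)]⟩⟩]⟩)) (.R ⟨0,false,false,false,[0,0,1],[0,0,0,0,1],[1,0,1],(⟨0,[(23,0)]⟩,⟨0,[(22,0)]⟩),
  (⟨0,[(16,0)]⟩,⟨0,[(15,0)]⟩),⟨0,[(12,0)]⟩,.k,.k,.k,.k,.k,.k,⟨false,1,⟨1,[(13,0),(0,0),(20,0)]⟩,⟨4,
  [(6,0),(2,0),(19,0),(1,0)]⟩⟩,⟨true,0,⟨2,[(1,0),(12,2),(6,0)]⟩,⟨0,[(0,0)]⟩⟩,⟨false,1,⟨19,[(7,9),(0,
  9),(4,0),(0,0),(5,19),(9,1),(4,14)]⟩,⟨1,[(1,0),(1,0),(27,0),(3,0)]⟩⟩,⟨true,0,⟨0,[(14,0),(4,0)]⟩,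
  ⟨1,[(0,1),(0,0),(1,0),(27,0),(3,0)]⟩⟩,⟨false,0,⟨0,[]⟩,⟨0,[]⟩⟩,⟨false,0,⟨0,[]⟩,⟨0,[]⟩⟩,[.o ⟨false,
  0,⟨35,[(1,4),(1,11),(2,9),(1,11),(2,5),(0,5),(1,35),(4,1),(4,11),(5,5),(5,14)]⟩,⟨3,[(0,1),(0,0),
  (0,0),(10,0),(21,1)]⟩⟩,.a ⟨true,0,⟨0,[(14,0)]⟩,⟨0,[(0,0),(16,0)]⟩⟩ ⟨false,1,⟨1,[(13,0),(0,0),(20,
  0)]⟩,⟨4,[(6,0),(2,0),(19,0),(1,0)]⟩⟩ ⟨true,0,⟨2,[(1,0),(12,2),(6,0)]⟩,⟨0,[(0,0)]⟩⟩,.o ⟨false,1,⟨9,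
  [(13,0),(0,0),(5,9),(9,1),(3,4)]⟩,⟨2,[(1,0),(19,0)]⟩⟩,.e ⟨true,0,⟨0,[]⟩,⟨0,[(37,0)]⟩⟩ ⟨true,0,⟨1,
  [(1,0),(12,1),(14,0)]⟩,⟨0,[(0,0)]⟩⟩]⟩))

theorem ok57 : chk K t57 l35 = true := by decide +kernel

noncomputable def t58 : Tre :=
  (.Q [0,0,0,0,0,0,-1,0,0,0,-1] (.p false [0,0,1] [] (⟨0,[(22,0)]⟩,⟨0,[(21,0)]⟩) .k 0 (⟨0,[]⟩,⟨0,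
  []⟩) .k .k) (.R ⟨0,false,false,false,[0,1,-1],[0,0,1],[],(⟨0,[(12,0)]⟩,⟨0,[(23,0),(3,0)]⟩),(⟨0,
  [(23,0)]⟩,⟨0,[(22,0)]⟩),⟨0,[(23,0)]⟩,.k,.k,.k,(.r (-1) ⟨19,[(1,19),(5,9),(0,29),(4,0),(0,0),(15,
  1),(4,14)]⟩ ⟨3,[(0,1),(2,3),(6,0),(6,3),(12,0),(4,1)]⟩),.k,.k,⟨false,1,⟨27,[(1,9),(4,7),(0,9),(0,
  9),(21,1),(3,14),(0,8)]⟩,⟨0,[(0,0),(3,0)]⟩⟩,⟨true,0,⟨0,[(1,0)]⟩,⟨0,[(0,1)]⟩⟩,⟨true,0,⟨4,[(0,4),(2,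
  2),(2,1),(2,0),(1,0),(0,0),(4,0),(6,1),(8,0),(1,2)]⟩,⟨0,[(8,0),(11,0)]⟩⟩,⟨false,0,⟨0,[(3,0),(31,
  0)]⟩,⟨19,[(7,9),(0,29),(4,0),(0,0),(15,1),(4,14)]⟩⟩,⟨false,0,⟨0,[]⟩,⟨0,[]⟩⟩,⟨false,0,⟨0,[]⟩,⟨0,
  []⟩⟩,[.e ⟨false,1,⟨1,[(13,0),(0,0),(19,0)]⟩,⟨0,[]⟩⟩ ⟨false,0,⟨1,[(1,0),(1,0),(27,0),(3,0)]⟩,⟨3,
  [(7,1),(0,1),(1,0),(6,1),(12,0),(3,0),(0,0)]⟩⟩,.o ⟨false,1,⟨4,[(4,3),(13,0),(11,0),(4,2)]⟩,⟨0,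
  [(19,0)]⟩⟩,.o ⟨false,1,⟨2,[(10,0),(6,0),(12,0),(3,0)]⟩,⟨0,[(20,0)]⟩⟩,.a ⟨true,0,⟨0,[(0,0)]⟩,⟨0,
  [(1,0),(15,0)]⟩⟩ ⟨false,1,⟨1,[(34,0),(0,0)]⟩,⟨1,[(20,0),(0,0)]⟩⟩ ⟨true,0,⟨1,[(1,0),(1,0),(27,0),
  (3,0)]⟩,⟨0,[(0,0),(18,0)]⟩⟩]⟩) (.Q [0,0,1,0,0,0,2,0,0,-1,2] (.p true [0,0,1] [1,0,-1] (⟨0,[(23,
  0)]⟩,⟨0,[(22,0)]⟩) .k 2 (⟨0,[(22,0)]⟩,⟨0,[(23,0)]⟩) .k (.r 0 ⟨1,[(3,1),(6,0),(0,0),(0,0),(8,1),(2,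
  1),(6,1),(3,1)]⟩ ⟨13,[(1,9),(4,7),(0,9),(0,9),(21,1),(3,0),(0,8)]⟩)) (.Q [0,0,0,0,0,0,2,1,0,-1,2]
  (.p true [0,0,1] [1,0,-1] (⟨0,[(24,0)]⟩,⟨0,[(23,0)]⟩) .k 2 (⟨0,[(23,0)]⟩,⟨0,[(24,0)]⟩) .k (.r 0
  ⟨1,[(4,1),(6,0),(0,0),(0,0),(8,1),(2,1),(6,1),(3,1)]⟩ ⟨13,[(2,9),(4,7),(0,9),(0,9),(21,1),(3,0),
  (0,8)]⟩)) (.R ⟨0,false,false,true,[0,0,1],[1,0,-1],[1],(⟨0,[(25,0)]⟩,⟨0,[(24,0)]⟩),(⟨0,[(24,0)]⟩,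
  ⟨0,[(25,0)]⟩),⟨0,[(14,0)]⟩,.k,.k,.k,.k,.k,.k,⟨false,1,⟨13,[(6,9),(4,3),(0,4),(19,0),(0,3),(2,0),
  (0,10)]⟩,⟨2,[(3,0),(4,0),(12,1)]⟩⟩,⟨true,0,⟨0,[(12,0)]⟩,⟨0,[(1,0)]⟩⟩,⟨false,1,⟨27,[(3,9),(4,7),(0,
  9),(0,9),(21,1),(3,0),(0,22)]⟩,⟨0,[(0,0),(11,0)]⟩⟩,⟨true,0,⟨0,[(9,0),(0,0)]⟩,⟨0,[(0,1),(11,0)]⟩⟩,
  ⟨false,0,⟨0,[]⟩,⟨0,[]⟩⟩,⟨false,0,⟨0,[]⟩,⟨0,[]⟩⟩,[.o ⟨false,0,⟨0,[(21,0)]⟩,⟨4,[(6,3),(13,0),(11,0),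
  (4,2)]⟩⟩,.e ⟨false,1,⟨1,[(36,0),(0,0)]⟩,⟨0,[(39,0)]⟩⟩ ⟨false,1,⟨3,[(9,1),(0,1),(1,1),(2,0),(0,0),
  (19,1),(0,0)]⟩,⟨0,[(0,0)]⟩⟩,.e ⟨true,0,⟨0,[]⟩,⟨0,[(39,0)]⟩⟩ ⟨true,0,⟨1,[(9,0),(0,0),(1,0),(26,
  0)]⟩,⟨0,[(0,0)]⟩⟩,.a ⟨true,0,⟨0,[(22,0)]⟩,⟨0,[(19,0)]⟩⟩ ⟨false,1,⟨1,[(36,0),(0,0)]⟩,⟨1,[(22,0),(0,
  0)]⟩⟩ ⟨true,0,⟨0,[(19,0),(1,0)]⟩,⟨1,[(0,1),(21,0),(0,0)]⟩⟩]⟩) (.I [0,0,0,0,0,1,1] (.I [0,0,1,0,0,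
  0,0,-1] (.I [0,0,-1,0,0,1,-1] (.C [(0,1),(0,1),(6,0),(8,1),(11,3),(6,0),(3,0),(0,0)]) (.C [(0,0),
  (15,0),(5,0)])) (.C [(0,0),(1,0),(0,0)])) (.C [(0,0),(1,0),(12,0),(4,0)]))) (.Q [0,-1,0,-1,0,0,1,
  1,-1,1,1,-1] (.p true [1,-1,1] [0,0,0,0,1] (⟨0,[(24,0),(3,0)]⟩,⟨0,[(13,0)]⟩) .k 2 (⟨0,[(17,0)]⟩,
  ⟨0,[(16,0)]⟩) .k (.r (-1) ⟨9,[(5,3),(5,4),(7,5),(11,0),(4,7)]⟩ ⟨2,[(2,0),(4,0),(12,1)]⟩)) (.R ⟨0,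
  false,false,true,[0,1,-1],[1,0,0,0,-1],[1],(⟨0,[(14,0)]⟩,⟨0,[(25,0),(3,0)]⟩),(⟨0,[(17,0)]⟩,⟨0,
  [(18,0)]⟩),⟨0,[(25,0)]⟩,.k,.k,.k,(.r 0 ⟨0,[(10,0),(11,0)]⟩ ⟨13,[(7,9),(3,3),(0,4),(19,0),(3,2),(0,
  8)]⟩),.k,.k,⟨true,0,⟨0,[]⟩,⟨1,[(22,0),(0,0)]⟩⟩,⟨false,0,⟨0,[(0,0),(1,0),(7,0)]⟩,⟨9,[(1,1),(10,2),
  (3,9),(15,2),(3,3)]⟩⟩,⟨true,0,⟨2,[(1,0),(3,0),(5,0),(1,0),(0,0),(11,1),(8,0),(1,0)]⟩,⟨0,[(10,0),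
  (11,0)]⟩⟩,⟨false,0,⟨0,[(0,0)]⟩,⟨9,[(10,9),(4,0),(0,10),(15,1),(4,4)]⟩⟩,⟨false,0,⟨0,[]⟩,⟨0,[]⟩⟩,
  ⟨false,0,⟨0,[]⟩,⟨0,[]⟩⟩,[.a ⟨true,0,⟨0,[(0,0),(9,0)]⟩,⟨0,[(16,0)]⟩⟩ ⟨true,0,⟨0,[]⟩,⟨1,[(22,0),(0,
  0)]⟩⟩ ⟨false,0,⟨0,[(0,0),(1,0),(7,0)]⟩,⟨9,[(1,1),(10,2),(3,9),(15,2),(3,3)]⟩⟩,.o ⟨false,1,⟨5,[(0,
  4),(9,4),(4,0),(16,0),(4,2)]⟩,⟨0,[(13,0),(0,0),(1,0),(9,1),(6,0),(1,0),(2,0)]⟩⟩,.o ⟨false,1,⟨9,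
  [(1,1),(10,2),(19,2),(3,3)]⟩,⟨0,[(22,0)]⟩⟩,.o ⟨false,1,⟨49,[(12,24),(2,16),(0,16),(15,14),(4,2),
  (1,5)]⟩,⟨0,[(2,0)]⟩⟩]⟩) (.Q [0,-1,0,0,1,0,1,0,-1,0,1,-1] (.p true [0,0,1] [0,0,0,0,1] (⟨0,[(25,
  0)]⟩,⟨0,[(24,0)]⟩) .k 2 (⟨0,[(18,0)]⟩,⟨0,[(17,0)]⟩) .k (.r (-1) ⟨9,[(6,3),(5,4),(7,5),(11,0),(4,
  7)]⟩ ⟨2,[(3,0),(4,0),(12,1)]⟩)) (.Q [0,2,0,0,-1,0,-1,-1,1,0,-1,1] (.p false [0,0,1] [0,0,0,0,1]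
  (⟨0,[(26,0)]⟩,⟨0,[(25,0)]⟩) .k 2 (⟨0,[(19,0)]⟩,⟨0,[(18,0)]⟩) .k (.r (-1) ⟨9,[(7,3),(5,4),(7,5),
  (11,0),(4,7)]⟩ ⟨2,[(4,0),(4,0),(12,1)]⟩)) (.Q [0,0,0,0,0,0,0,0,1,-1,0,1] (.p true [0,0,0,0,1] [1]
  (⟨0,[(20,0)]⟩,⟨0,[(19,0)]⟩) .k 1 (⟨0,[]⟩,⟨0,[]⟩) .k .k) (.R ⟨0,false,false,false,[0,0,1],[0,0,0,0,
  1],[1,1],(⟨0,[(28,0)]⟩,⟨0,[(27,0)]⟩),(⟨0,[(21,0)]⟩,⟨0,[(20,0)]⟩),⟨0,[(17,0)]⟩,.k,.k,.k,.k,.k,.k,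
  ⟨true,0,⟨0,[]⟩,⟨1,[(25,0),(0,0)]⟩⟩,⟨false,0,⟨0,[(0,0),(21,0)]⟩,⟨1,[(6,0),(0,0),(10,0)]⟩⟩,⟨true,0,
  ⟨2,[(6,0),(4,0),(12,1)]⟩,⟨5,[(4,0),(3,2),(7,0),(0,0),(8,3),(2,1),(6,2),(3,2)]⟩⟩,⟨false,0,⟨0,[(1,
  0),(38,0)]⟩,⟨5,[(2,5),(1,0),(3,2),(7,0),(0,0),(8,3),(2,1),(6,2),(3,2)]⟩⟩,⟨false,0,⟨0,[]⟩,⟨0,[]⟩⟩,
  ⟨false,0,⟨0,[]⟩,⟨0,[]⟩⟩,[.e ⟨false,0,⟨4,[(11,0),(2,0),(19,0),(1,0)]⟩,⟨1,[(18,0),(0,0),(20,0)]⟩⟩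
  ⟨false,0,⟨5,[(3,1),(0,0),(9,1),(0,0),(3,3),(14,0)]⟩,⟨0,[(2,0)]⟩⟩,.o ⟨false,0,⟨0,[(0,0)]⟩,⟨0,[(18,
  0)]⟩⟩,.e ⟨false,0,⟨0,[]⟩,⟨1,[(18,0),(0,0),(20,0)]⟩⟩ ⟨false,0,⟨1,[(0,0),(14,0),(3,0)]⟩,⟨0,[(2,
  0)]⟩⟩,.a ⟨true,0,⟨0,[(25,0)]⟩,⟨0,[(22,0)]⟩⟩ ⟨true,0,⟨4,[(11,0),(2,0),(19,0),(1,0)]⟩,⟨1,[(25,0),(0,
  0)]⟩⟩ ⟨false,0,⟨0,[(0,0),(21,0)]⟩,⟨1,[(2,1),(22,0),(0,0)]⟩⟩]⟩) (.I [0,0,0,0,0,1,1] (.I [0,0,-1,0,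
  0,1,-1] (.I [0,2,0,0,-1,1,1,1] (.I [0,2,0,0,-1,1,-1,-1] (.C [(0,1),(11,0),(8,1),(11,3),(6,0),(3,
  2),(0,0)]) (.C [(0,0),(3,0),(0,0),(14,0)])) (.C [(0,0),(2,0),(2,0),(4,0),(8,0)])) (.C [(0,0),(5,
  0),(0,0),(10,0)])) (.C [(0,0),(5,0),(11,0)]))) (.Q [0,0,0,0,0,0,0,0,1,-1,0,1] (.p true [0,0,0,0,
  1] [1] (⟨0,[(20,0)]⟩,⟨0,[(19,0)]⟩) .k 1 (⟨0,[]⟩,⟨0,[]⟩) .k .k) (.Q [0,1,0,0,0,0,-2,-2,0,0,-2] (.p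
  false [0,0,1] [0,1,-1] (⟨0,[(28,0)]⟩,⟨0,[(27,0)]⟩) .k 2 (⟨0,[(17,0)]⟩,⟨0,[(28,0),(3,0)]⟩) .k (.r
  0 ⟨0,[(1,0),(1,0),(4,0),(6,0)]⟩ ⟨4,[(2,3),(0,3),(2,1),(4,1),(0,3),(27,0)]⟩)) (.Q [0,0,0,0,0,0,0,0,
  0,1,-2] (.ed true [0,0,2] (.r 0 ⟨0,[(2,0),(1,0),(4,0),(6,0)]⟩ ⟨1,[(0,1),(6,1),(32,0),(0,0)]⟩))
  (.R ⟨0,false,false,false,[0,0,1],[0,0,2],[1],(⟨0,[(30,0)]⟩,⟨0,[(29,0)]⟩),(⟨0,[(30,1)]⟩,⟨0,[(0,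
  0)]⟩),⟨0,[(19,0)]⟩,.k,.k,.k,.k,.k,.k,⟨false,1,⟨3,[(1,1),(6,1),(4,3),(27,0),(0,2)]⟩,⟨0,[(3,0),(1,
  0),(4,0),(6,0)]⟩⟩,⟨true,0,⟨0,[(7,0)]⟩,⟨0,[(28,0)]⟩⟩,⟨false,1,⟨3,[(1,1),(6,1),(32,0),(0,2)]⟩,⟨1,
  [(3,0),(1,0),(4,0),(6,0)]⟩⟩,⟨true,0,⟨0,[(11,0)]⟩,⟨0,[(26,0)]⟩⟩,⟨false,0,⟨0,[]⟩,⟨0,[]⟩⟩,⟨false,0,
  ⟨0,[]⟩,⟨0,[]⟩⟩,[.o ⟨false,0,⟨0,[(3,0),(1,0),(4,0)]⟩,⟨1,[(1,0),(3,0),(8,0),(5,0),(21,0)]⟩⟩,.o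
  ⟨false,1,⟨4,[(11,8),(13,0),(11,0),(4,2)]⟩,⟨0,[(1,0)]⟩⟩,.e ⟨true,0,⟨0,[]⟩,⟨0,[(44,0)]⟩⟩ ⟨true,0,⟨1,
  [(2,0),(0,0),(6,0),(0,0),(5,0),(21,0)]⟩,⟨0,[(1,0),(5,0)]⟩⟩,.a ⟨true,0,⟨0,[(27,0)]⟩,⟨0,[(24,0)]⟩⟩
  ⟨false,1,⟨1,[(41,0),(0,0)]⟩,⟨1,[(27,0),(0,0)]⟩⟩ ⟨true,0,⟨1,[(2,0),(0,0),(2,0),(3,0),(0,0),(26,
  0)]⟩,⟨0,[(1,0),(25,0)]⟩⟩]⟩) (.I [0,0,0,0,0,0,0,0,1] (.I [0,0,0,0,0,1,1] (.C [(0,1),(1,0),(5,0),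
  (24,1),(11,0)]) (.C [(0,0),(8,0),(11,0)])) (.C [(0,0),(2,0),(19,0)]))) (.Q [0,0,0,0,0,0,0,0,0,1,
  -2] (.ed true [0,0,2] (.r 0 ⟨5,[(0,3),(8,1),(6,4),(10,1),(8,0),(0,1)]⟩ ⟨4,[(3,3),(0,3),(2,1),(4,
  1),(0,3),(27,0)]⟩)) (.R ⟨0,false,false,true,[1,0,-2],[1,0,0,0,-1],[0,0,1],(⟨0,[(0,0)]⟩,⟨0,[(30,
  1)]⟩),(⟨0,[(22,0)]⟩,⟨0,[(23,0)]⟩),⟨0,[(18,0),(11,0)]⟩,.k,.k,(.r (-1) ⟨12,[(8,4),(4,15),(0,9),(22,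
  1),(2,2),(0,0),(0,7)]⟩ ⟨0,[(1,0),(26,1),(9,0)]⟩),.k,.k,.k,⟨true,0,⟨1,[(27,0),(0,0)]⟩,⟨0,[]⟩⟩,
  ⟨false,1,⟨3,[(4,3),(3,0),(1,0),(2,1),(24,0),(2,0)]⟩,⟨0,[(2,0),(14,0)]⟩⟩,⟨false,0,⟨0,[(1,0),(4,0),
  (11,0),(0,0),(11,1),(11,1)]⟩,⟨4,[(4,1),(0,1),(2,0),(4,5),(0,1),(27,2)]⟩⟩,⟨true,0,⟨0,[(3,0),(6,0),
  (4,0)]⟩,⟨0,[(5,0),(8,0)]⟩⟩,⟨false,0,⟨0,[]⟩,⟨0,[]⟩⟩,⟨false,0,⟨0,[]⟩,⟨0,[]⟩⟩,[.o ⟨false,1,⟨0,[(20,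
  0)]⟩,⟨0,[(2,0)]⟩⟩,.o ⟨false,1,⟨0,[(3,0),(22,0)]⟩,⟨0,[(2,0),(41,0)]⟩⟩,.a ⟨true,0,⟨0,[(17,0)]⟩,⟨0,
  [(7,1)]⟩⟩ ⟨true,0,⟨1,[(27,0),(0,0)]⟩,⟨4,[(13,0),(2,0),(19,0),(1,0)]⟩⟩ ⟨false,1,⟨0,[(4,0),(2,0)]⟩,
  ⟨0,[(2,0),(14,0)]⟩⟩,.o ⟨false,0,⟨0,[(6,0),(11,0),(0,0),(11,1),(11,1)]⟩,⟨4,[(7,7),(0,0),(28,0),(3,
  2)]⟩⟩]⟩) (.I [0,0,0,0,0,0,0,0,1] (.I [0,0,0,0,0,1,1] (.C [(0,1),(1,0),(5,0),(24,1),(11,0)]) (.C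
  [(0,0),(8,0),(11,0)])) (.C [(0,0),(2,0),(19,0)])))) (.Q [0,0,0,0,0,0,0,0,0,0,-1,1] (.ed false [1,
  0,-1,0,1] (.r 0 ⟨2,[(6,0),(4,0),(12,1)]⟩ ⟨9,[(9,3),(5,4),(7,5),(11,0),(4,7)]⟩)) (.R ⟨0,false,
  false,false,[1,0,0,0,-1],[1,0,1,0,-1],[1],(⟨0,[(21,0)]⟩,⟨0,[(22,0)]⟩),(⟨0,[(21,0),(7,0)]⟩,⟨0,[(0,
  0)]⟩),⟨0,[(0,0),(16,0)]⟩,.k,.k,(.r (-1) ⟨1,[(39,1),(0,0),(0,0)]⟩ ⟨1,[(26,0),(0,0),(10,1)]⟩),.k,.k,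
  .k,⟨false,0,⟨0,[(12,0)]⟩,⟨9,[(10,3),(5,4),(7,5),(11,0),(4,7)]⟩⟩,⟨true,0,⟨0,[(6,0)]⟩,⟨0,[(27,0)]⟩⟩,
  ⟨false,0,⟨0,[]⟩,⟨1,[(19,0),(0,0),(20,0)]⟩⟩,⟨true,0,⟨0,[(10,0)]⟩,⟨0,[(25,0)]⟩⟩,⟨false,0,⟨0,[]⟩,⟨0,
  []⟩⟩,⟨false,0,⟨0,[]⟩,⟨0,[]⟩⟩,[.o ⟨false,1,⟨2,[(2,1),(16,0),(4,0)]⟩,⟨0,[(4,0),(34,0)]⟩⟩,.o ⟨false,
  1,⟨0,[(2,0)]⟩,⟨13,[(4,12),(4,3),(3,8),(6,0),(15,1),(6,10)]⟩⟩,.a ⟨true,0,⟨0,[(1,0)]⟩,⟨0,[(20,0)]⟩⟩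
  ⟨true,0,⟨0,[]⟩,⟨0,[(43,0)]⟩⟩ ⟨false,1,⟨0,[(10,0),(30,0)]⟩,⟨0,[(25,0)]⟩⟩,.e ⟨false,1,⟨1,[(40,0),(0,
  0)]⟩,⟨1,[(26,0),(0,0)]⟩⟩ ⟨false,1,⟨1,[(6,0),(2,0),(7,0),(0,0),(4,0),(6,1),(6,0),(3,2)]⟩,⟨1,[(25,
  1),(0,0),(0,0)]⟩⟩]⟩) (.I [1,0,-1,-1] (.I [0,0,0,-1,0,0,0,-1] (.Q [0,0,-1,0,0,0,1,1,0,0,1] (.p
  true [0,0,1] [] (⟨0,[(31,0)]⟩,⟨0,[(30,0)]⟩) .k 0 (⟨0,[]⟩,⟨0,[]⟩) .k .k) (.Q [0,0,0,0,0,0,0,0,0,1,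
  -1,-1] (.ed true [0,0,1,0,1] (.r 0 ⟨9,[(12,1),(6,4),(7,5),(11,0),(1,1)]⟩ ⟨4,[(6,1),(0,1),(2,0),(4,
  0),(0,1),(27,2)]⟩)) (.R ⟨0,false,false,false,[0,0,0,0,1],[0,0,1,0,1],[1],(⟨0,[(26,0)]⟩,⟨0,[(25,
  0)]⟩),(⟨0,[(26,0),(6,0)]⟩,⟨0,[(0,0)]⟩),⟨0,[(4,0),(17,0)]⟩,.k,.k,(.r 0 ⟨27,[(2,9),(10,1),(1,0),(1,
  4),(1,9),(19,7),(0,0)]⟩ ⟨1,[(30,0),(0,0),(10,1),(2,1)]⟩),.k,.k,.k,⟨false,1,⟨0,[(16,0),(28,0)]⟩,⟨9,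
  [(13,1),(6,4),(7,5),(11,0),(1,1)]⟩⟩,⟨true,0,⟨0,[(10,0)]⟩,⟨0,[(31,0)]⟩⟩,⟨false,1,⟨0,[(45,0)]⟩,⟨0,
  [(47,0)]⟩⟩,⟨true,0,⟨0,[(14,0)]⟩,⟨0,[(29,0)]⟩⟩,⟨false,0,⟨0,[]⟩,⟨0,[]⟩⟩,⟨false,0,⟨0,[]⟩,⟨0,[]⟩⟩,[.o
  ⟨false,0,⟨5,[(8,0),(4,1),(0,0),(9,4),(3,1),(11,0),(1,0)]⟩,⟨1,[(2,1),(3,1),(2,0),(8,1),(2,0),(0,0),
  (11,1),(11,0)]⟩⟩,.o ⟨false,0,⟨0,[(8,0),(4,0),(31,0)]⟩,⟨3,[(5,2),(11,1),(0,1),(4,0),(16,0),(4,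
  0)]⟩⟩,.a ⟨true,0,⟨0,[(24,0)]⟩,⟨0,[(5,0)]⟩⟩ ⟨true,0,⟨0,[]⟩,⟨0,[(47,0)]⟩⟩ ⟨false,0,⟨0,[(14,0)]⟩,⟨11,
  [(8,0),(8,5),(0,4),(4,0),(16,0),(4,8)]⟩⟩,.e ⟨false,1,⟨1,[(44,0),(0,0)]⟩,⟨1,[(30,0),(0,0)]⟩⟩
  ⟨false,0,⟨0,[(1,0)]⟩,⟨11,[(8,0),(8,5),(0,4),(4,0),(6,5),(0,5),(8,0),(4,8)]⟩⟩]⟩) (.I [0,0,0,0,0,1,
  1] (.C [(0,1),(0,0),(3,0),(4,0),(24,1),(11,0)]) (.C [(0,0),(10,0),(11,0)]))) (.I [0,0,0,0,0,1,1]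
  (.I [0,0,1,0,0,0,0,-1] (.C [(0,3),(0,1),(5,0),(1,0),(0,2),(3,1),(7,1),(12,3),(6,0),(3,0)]) (.C
  [(0,0),(1,0),(8,0)])) (.C [(0,0),(9,0),(11,0)]))) (.R ⟨0,false,false,true,[-1,1,1],[1,0,0,0,-1],
  [0,0,1],(⟨0,[(19,0)]⟩,⟨0,[(30,0),(4,0)]⟩),(⟨0,[(23,0)]⟩,⟨0,[(24,0)]⟩),⟨0,[(30,0)]⟩,.k,.k,.k,(.r 0
  ⟨3,[(0,1),(25,1),(1,0),(0,2),(10,1)]⟩ ⟨22,[(1,12),(7,4),(4,12),(0,9),(22,1),(3,0),(0,17)]⟩),.k,.k,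
  ⟨true,0,⟨1,[(28,0),(0,0)]⟩,⟨0,[]⟩⟩,⟨false,0,⟨2,[(3,2),(5,0),(8,1),(6,0)]⟩,⟨15,[(1,5),(4,11),(1,
  15),(2,5),(10,3),(15,3),(3,4),(0,8)]⟩⟩,⟨false,1,⟨22,[(1,2),(7,9),(4,2),(0,19),(22,3),(3,1),(0,
  12)]⟩,⟨0,[(0,0)]⟩⟩,⟨true,0,⟨0,[(3,0),(11,0)]⟩,⟨0,[(4,0),(1,1),(4,0)]⟩⟩,⟨false,0,⟨0,[]⟩,⟨0,[]⟩⟩,
  ⟨false,0,⟨0,[]⟩,⟨0,[]⟩⟩,[.a ⟨true,0,⟨0,[(3,0)]⟩,⟨0,[(22,0)]⟩⟩ ⟨true,0,⟨1,[(28,0),(0,0)]⟩,⟨0,[]⟩⟩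
  ⟨false,0,⟨2,[(3,2),(5,0),(8,1),(6,0)]⟩,⟨15,[(1,5),(4,11),(1,15),(2,5),(10,3),(15,3),(3,4),(0,
  8)]⟩⟩,.o ⟨false,1,⟨5,[(3,3),(1,1),(12,0),(19,0),(4,1)]⟩,⟨6,[(6,2),(4,1),(3,0),(6,3),(15,0),(6,
  1)]⟩⟩,.o ⟨false,1,⟨2,[(1,1),(2,0),(1,0),(1,2),(29,0),(0,0)]⟩,⟨0,[(18,0),(9,0)]⟩⟩,.o ⟨false,1,⟨19,
  [(8,7),(0,5),(28,7),(3,2),(0,0),(1,1)]⟩,⟨2,[(9,0),(8,1),(6,0)]⟩⟩]⟩)) (.R ⟨0,false,false,false,[1,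
  0,-1],[0,1],[0,0,1],(⟨0,[(29,0)]⟩,⟨0,[(30,0)]⟩),(⟨0,[(35,0)]⟩,⟨0,[(34,0)]⟩),⟨0,[(18,0)]⟩,.k,.k,.k,
  .k,.k,.k,⟨true,0,⟨0,[(40,0)]⟩,⟨0,[(0,0)]⟩⟩,⟨false,1,⟨31,[(10,15),(2,35),(2,3),(1,6),(0,6),(11,13),
  (5,4),(0,19),(3,37)]⟩,⟨0,[(17,0),(9,0)]⟩⟩,⟨true,0,⟨0,[(11,0),(16,0)]⟩,⟨0,[(13,0)]⟩⟩,⟨false,1,⟨0,
  [(3,0),(1,0),(5,0)]⟩,⟨0,[(14,0)]⟩⟩,⟨false,0,⟨0,[]⟩,⟨0,[]⟩⟩,⟨false,0,⟨0,[]⟩,⟨0,[]⟩⟩,[.o ⟨false,1,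
  ⟨9,[(20,0),(0,0),(15,1),(1,9),(2,4)]⟩,⟨0,[(40,0)]⟩⟩,.o ⟨false,1,⟨0,[(3,0),(1,0)]⟩,⟨6,[(10,1),(3,
  4),(10,0),(11,0),(6,3)]⟩⟩,.a ⟨true,0,⟨2,[(8,0),(8,1),(6,0)]⟩,⟨0,[(7,0)]⟩⟩ ⟨true,0,⟨1,[(27,0),(0,
  0)]⟩,⟨4,[(13,0),(2,0),(19,0),(1,0)]⟩⟩ ⟨false,1,⟨0,[(3,0),(1,0),(1,0)]⟩,⟨1,[(12,0),(1,0),(2,0)]⟩⟩,
  .o ⟨false,0,⟨0,[(28,0)]⟩,⟨4,[(7,2),(0,0),(28,0),(3,2)]⟩⟩]⟩))))) (.Q [0,1,0,0,-1,0,1,0,1,-1,1,1]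
  (.p true [0,0,1] [1,0,0,0,-1] (⟨0,[(26,0)]⟩,⟨0,[(25,0)]⟩) .k 2 (⟨0,[(18,0)]⟩,⟨0,[(19,0)]⟩) .k (.r
  0 ⟨9,[(6,1),(6,4),(7,5),(11,0),(1,1)]⟩ ⟨17,[(1,0),(2,5),(4,5),(0,5),(0,4),(4,0),(16,0),(4,14)]⟩))
  (.Q [0,0,0,0,1,0,-1,-1,-1,1,-1,-1] (.p false [0,0,1] [1,0,0,0,-1] (⟨0,[(27,0)]⟩,⟨0,[(26,0)]⟩) .k
  2 (⟨0,[(19,0)]⟩,⟨0,[(20,0)]⟩) .k (.r 0 ⟨9,[(7,1),(6,4),(7,5),(11,0),(1,1)]⟩ ⟨17,[(2,0),(2,5),(4,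
  5),(0,5),(0,4),(4,0),(16,0),(4,14)]⟩)) (.R ⟨0,false,false,true,[0,0,1],[1,0,0,0,-1],[1],(⟨0,[(28,
  0)]⟩,⟨0,[(27,0)]⟩),(⟨0,[(20,0)]⟩,⟨0,[(21,0)]⟩),⟨0,[(17,0)]⟩,.k,.k,.k,.k,.k,.k,⟨true,0,⟨0,[]⟩,⟨1,
  [(25,0),(0,0)]⟩⟩,⟨false,1,⟨0,[(18,0),(3,0)]⟩,⟨45,[(1,25),(4,9),(12,19),(15,3),(3,4),(0,12)]⟩⟩,
  ⟨false,1,⟨32,[(0,1),(2,1),(2,10),(4,10),(0,9),(0,7),(21,1),(4,26)]⟩,⟨5,[(4,0),(3,2),(7,0),(0,0),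
  (8,3),(2,1),(6,2),(3,2)]⟩⟩,⟨true,1,⟨0,[(0,0)]⟩,⟨3,[(1,2),(0,0),(5,1),(7,0),(0,0),(8,1),(2,1),(6,
  1),(3,1)]⟩⟩,⟨false,0,⟨0,[]⟩,⟨0,[]⟩⟩,⟨false,0,⟨0,[]⟩,⟨0,[]⟩⟩,[.o ⟨false,1,⟨0,[(18,0)]⟩,⟨6,[(1,1),
  (0,1),(16,2),(15,0),(4,1)]⟩⟩,.e ⟨false,1,⟨1,[(39,0),(0,0)]⟩,⟨0,[(42,0)]⟩⟩ ⟨false,2,⟨3,[(0,1),(6,
  1),(7,1),(7,1),(15,0),(0,2)]⟩,⟨0,[(1,0)]⟩⟩,.e ⟨true,0,⟨0,[]⟩,⟨0,[(42,0)]⟩⟩ ⟨true,1,⟨1,[(0,0),(8,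
  0),(5,0),(2,0)]⟩,⟨0,[(1,0)]⟩⟩,.a ⟨true,0,⟨0,[(25,0)]⟩,⟨0,[(22,0)]⟩⟩ ⟨false,1,⟨1,[(39,0),(0,0)]⟩,
  ⟨1,[(25,0),(0,0)]⟩⟩ ⟨true,1,⟨0,[(18,0),(3,0)]⟩,⟨1,[(1,1),(23,0),(0,0)]⟩⟩]⟩) (.I [1,-1,0,0,1,0,0,
  -2] (.Q [0,0,0,0,0,0,0,0,0,1,-2] (.ed true [0,0,2] (.r 0 ⟨0,[(1,0),(8,0),(5,0),(2,0)]⟩ ⟨0,[(0,0),
  (42,0)]⟩)) (.R ⟨0,false,false,false,[1,0,-2],[1,0,-1],[0,1],(⟨0,[(0,0)]⟩,⟨0,[(30,1)]⟩),(⟨0,[(29,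
  0)]⟩,⟨0,[(30,0)]⟩),⟨0,[(18,0),(11,0)]⟩,.k,.k,(.x 0 ⟨1,[(17,1),(0,1),(8,0),(0,0),(1,1)]⟩ ⟨13,[(0,
  13),(0,1),(0,3),(0,3),(3,19),(1,7),(24,13),(2,3),(3,2),(0,0)]⟩),.k,.k,.k,⟨false,0,⟨22,[(6,9),(3,
  3),(0,2),(4,2),(8,8),(11,1),(0,6)]⟩,⟨3,[(1,1),(18,0),(0,0),(20,0)]⟩⟩,⟨true,0,⟨0,[(7,0)]⟩,⟨0,[(28,
  0)]⟩⟩,⟨false,0,⟨0,[(2,0),(8,0),(5,0),(2,0)]⟩,⟨0,[(1,0)]⟩⟩,⟨true,0,⟨0,[(11,0)]⟩,⟨0,[(26,0)]⟩⟩,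
  ⟨false,0,⟨0,[]⟩,⟨0,[]⟩⟩,⟨false,0,⟨0,[]⟩,⟨0,[]⟩⟩,[.o ⟨false,1,⟨37,[(1,9),(3,8),(8,8),(2,9),(2,23),
  (0,14),(15,1),(6,0)]⟩,⟨0,[(2,0),(17,0)]⟩⟩,.o ⟨false,1,⟨19,[(1,9),(15,9),(2,0),(0,0),(15,1),(4,
  4)]⟩,⟨4,[(10,1),(14,0),(11,0),(1,1)]⟩⟩,.a ⟨true,0,⟨0,[(17,0)]⟩,⟨0,[(7,1)]⟩⟩ ⟨true,0,⟨0,[(44,0)]⟩,
  ⟨0,[]⟩⟩ ⟨false,1,⟨3,[(1,1),(6,1),(32,0),(0,0)]⟩,⟨0,[(2,0),(14,0),(2,0)]⟩⟩,.o ⟨false,0,⟨0,[(6,0),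
  (11,0),(0,0),(11,1),(11,1)]⟩,⟨4,[(7,7),(0,0),(28,0),(3,2)]⟩⟩]⟩) (.I [0,0,0,0,0,1,1] (.C [(0,1),(0,
  0),(5,0),(24,1),(11,0)]) (.C [(0,0),(7,0),(11,0)]))) (.I [0,0,0,0,0,1,1] (.I [0,0,-1,-1] (.I [0,0,
  -2,0,0,0,0,1] (.I [0,1,0,1,0,0,0,-1] (.C [(0,0),(2,0),(0,0),(12,0),(3,0),(12,1),(10,0)]) (.C [(0,
  0),(9,0),(7,0)])) (.C [(0,0),(3,0),(3,0),(0,0),(1,0)])) (.C [(0,0),(2,0),(6,0),(4,0)])) (.C [(0,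
  0),(6,0),(11,0)])))) (.Q [0,0,0,0,0,1,0,0,0,-1,0,1] (.ed false [0,1,0,0,1] .k) (.Q [0,0,0,0,0,0,0,
  0,0,0,-1,1] (.ed false [1,0,-1,0,1] (.r 0 ⟨2,[(6,0),(4,0),(12,1)]⟩ ⟨9,[(9,3),(5,4),(7,5),(11,0),
  (4,7)]⟩)) (.R ⟨0,false,false,false,[0,0,-1,0,1],[0,0,0,0,1],[0,0,1],(⟨0,[(0,0)]⟩,⟨0,[(21,0),(7,
  0)]⟩),(⟨0,[(22,0)]⟩,⟨0,[(21,0)]⟩),⟨0,[(17,0),(3,0)]⟩,.k,.k,(.r 0 ⟨0,[(12,0),(26,0)]⟩ ⟨0,[(10,0),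
  (16,0),(10,0),(2,0)]⟩),.k,.k,.k,⟨false,1,⟨1,[(19,0),(0,0),(20,0)]⟩,⟨4,[(12,0),(2,0),(19,0),(1,
  0)]⟩⟩,⟨true,0,⟨0,[(6,0)]⟩,⟨0,[(27,0)]⟩⟩,⟨false,1,⟨0,[(10,0),(16,0),(13,0)]⟩,⟨0,[(12,0)]⟩⟩,⟨true,0,
  ⟨0,[(10,0)]⟩,⟨0,[(25,0)]⟩⟩,⟨false,0,⟨0,[]⟩,⟨0,[]⟩⟩,⟨false,0,⟨0,[]⟩,⟨0,[]⟩⟩,[.a ⟨true,(-1),⟨0,[(3,
  0),(2,0)]⟩,⟨0,[(2,0),(3,0)]⟩⟩ ⟨true,0,⟨1,[(26,0),(0,0)]⟩,⟨0,[]⟩⟩ ⟨false,0,⟨3,[(7,0),(1,0),(2,1),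
  (24,0),(2,0)]⟩,⟨6,[(2,2),(13,1),(3,2),(15,0),(4,1)]⟩⟩,.o ⟨false,0,⟨4,[(3,3),(2,3),(13,0),(15,0),
  (4,1)]⟩,⟨0,[(19,0)]⟩⟩,.o ⟨false,0,⟨13,[(3,11),(12,0),(3,1),(15,2),(4,5)]⟩,⟨1,[(7,0),(0,0),(10,
  0)]⟩⟩,.o ⟨false,0,⟨4,[(3,3),(16,0),(5,1),(0,2),(8,0),(4,1)]⟩,⟨0,[(6,0),(1,0)]⟩⟩]⟩) (.Q [0,-1,0,0,
  1,0,1,1,-1,0,1,-1] (.p false [1,0,-1,0,1] [1] (⟨0,[(22,0),(5,0)]⟩,⟨0,[(0,0)]⟩) .k 1 (⟨0,[]⟩,⟨0,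
  []⟩) .k (.r 0 ⟨2,[(7,0),(4,0),(12,1)]⟩ ⟨9,[(10,3),(5,4),(7,5),(11,0),(4,7)]⟩)) (.Q [0,-1,1,0,1,0,
  1,0,-1,0,1,-1] (.p false [1,0,-1,0,1] [1] (⟨0,[(23,0),(5,0)]⟩,⟨0,[(1,0)]⟩) .k 1 (⟨0,[]⟩,⟨0,[]⟩)
  .k (.r 0 ⟨2,[(8,0),(4,0),(12,1)]⟩ ⟨9,[(11,3),(5,4),(7,5),(11,0),(4,7)]⟩)) (.R ⟨0,false,false,
  false,[0,0,1],[0,0,0,0,1],[1,1],(⟨0,[(31,0)]⟩,⟨0,[(30,0)]⟩),(⟨0,[(24,0)]⟩,⟨0,[(23,0)]⟩),⟨0,[(20,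
  0)]⟩,.k,.k,.k,.k,.k,.k,⟨true,0,⟨0,[]⟩,⟨1,[(28,0),(0,0)]⟩⟩,⟨false,0,⟨1,[(5,1),(36,0),(0,0)]⟩,⟨3,
  [(0,1),(8,0),(0,1),(26,0)]⟩⟩,⟨true,0,⟨2,[(9,0),(4,0),(12,1)]⟩,⟨0,[(1,0),(3,0)]⟩⟩,⟨false,0,⟨4,[(5,
  2),(0,1),(2,0),(4,0),(0,1),(27,2)]⟩,⟨0,[(1,0)]⟩⟩,⟨false,0,⟨0,[]⟩,⟨0,[]⟩⟩,⟨false,0,⟨0,[]⟩,⟨0,[]⟩⟩,
  [.a ⟨true,(-1),⟨0,[(5,0),(2,0)]⟩,⟨0,[(0,0),(24,0)]⟩⟩ ⟨false,0,⟨4,[(14,0),(2,0),(19,0),(1,0)]⟩,⟨37,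
  [(0,9),(3,9),(17,19),(15,1),(3,4),(0,8)]⟩⟩ ⟨true,(-1),⟨0,[(5,0)]⟩,⟨0,[(0,0)]⟩⟩,.o ⟨false,0,⟨4,[(5,
  3),(2,3),(13,0),(15,0),(4,1)]⟩,⟨0,[(21,0)]⟩⟩,.a ⟨true,0,⟨0,[(8,0)]⟩,⟨2,[(9,0),(8,1),(6,0)]⟩⟩
  ⟨false,0,⟨0,[]⟩,⟨37,[(0,9),(3,9),(17,19),(15,1),(3,4),(0,8)]⟩⟩ ⟨true,(-1),⟨0,[(5,0)]⟩,⟨3,[(0,1),
  (8,0),(0,1),(26,0)]⟩⟩,.a ⟨true,0,⟨0,[(28,0)]⟩,⟨0,[(25,0)]⟩⟩ ⟨true,0,⟨4,[(14,0),(2,0),(19,0),(1,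
  0)]⟩,⟨1,[(28,0),(0,0)]⟩⟩ ⟨false,0,⟨1,[(5,1),(36,0),(0,0)]⟩,⟨0,[(0,0)]⟩⟩]⟩) (.I [0,0,-1,0,0,0,0,1]
  (.I [0,0,0,0,0,1,1] (.I [0,1,0,1,0,0,0,-1] (.I [0,0,-1,0,0,1,-1] (.I [0,0,0,-1,0,1,-1,-1] (.I [0,
  -1,0,0,1,1,0,0,-1] (.C [(0,0),(3,0),(1,0),(1,0),(29,1),(11,0)]) (.C [(0,0),(8,0),(0,0),(3,0)]))
  (.C [(0,0),(6,0),(0,0),(11,0)])) (.C [(0,0),(3,0),(1,0),(0,0),(0,0),(3,0)])) (.C [(0,0),(10,0),(7,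
  0)])) (.C [(0,0),(9,0),(11,0)])) (.C [(0,0),(0,0),(0,0)]))) (.I [0,0,0,0,0,1,1] (.I [0,1,-1,0,0,0,
  0,-1] (.I [0,0,-1,0,0,1,-1] (.I [0,1,0,1,0,0,0,-1] (.I [0,-1,0,0,1,1,0,0,-1] (.I [0,1,0,0,-1,0,-1,
  -1,1] (.C [(0,1),(4,1),(2,1),(0,1),(6,0),(20,3),(6,0),(3,0),(0,0)]) (.C [(0,0),(5,0),(0,0)])) (.C
  [(0,0),(6,0),(0,0),(3,0)])) (.C [(0,0),(10,0),(7,0)])) (.C [(0,0),(3,0),(0,0),(3,0),(0,0)])) (.C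
  [(0,0),(1,0),(6,0),(1,0)])) (.C [(0,0),(7,0),(11,0)])))) (.Q [0,0,-1,0,0,0,0,0,1,-1,0,1] (.p true
  [0,0,0,0,1] [1] (⟨0,[(21,0)]⟩,⟨0,[(20,0)]⟩) .k 1 (⟨0,[]⟩,⟨0,[]⟩) .k .k) (.S ⟨1,0,[0,2,1],[0,1,0,0,
  1],[0,1,1],(⟨0,[(22,0),(8,0)]⟩,⟨0,[(1,0)]⟩),⟨0,[(22,0)]⟩,(.r 0 ⟨1,[(26,0),(0,0),(10,1)]⟩ ⟨1,[(39,
  1),(0,0),(0,0)]⟩),.k,⟨true,0,⟨0,[(39,0)]⟩,⟨0,[(38,0)]⟩⟩,⟨false,0,⟨0,[(39,0)]⟩,⟨0,[(38,0),(2,0)]⟩⟩,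
  ⟨false,1,⟨1,[(19,0),(0,0),(20,0)]⟩,⟨0,[]⟩⟩,⟨true,0,⟨0,[(43,0)]⟩,⟨0,[]⟩⟩,[.o ⟨false,(-1),⟨6,[(3,6),
  (2,3),(2,1),(2,2),(1,0),(2,1),(0,1),(11,3),(5,0),(0,0),(4,3)]⟩,⟨0,[(19,0),(21,0)]⟩⟩,.a ⟨true,(-1),
  ⟨0,[(3,0),(2,0)]⟩,⟨0,[(2,0),(3,0)]⟩⟩ ⟨true,0,⟨1,[(26,0),(0,0)]⟩,⟨0,[]⟩⟩ ⟨false,0,⟨0,[(43,0)]⟩,⟨1,
  [(40,0),(0,0)]⟩⟩,.o ⟨false,0,⟨0,[(0,0)]⟩,⟨1,[(19,1),(6,0),(0,0)]⟩⟩,.o ⟨false,0,⟨6,[(0,1),(2,3),(3,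
  1),(12,0),(15,0),(4,1)]⟩,⟨0,[(19,0)]⟩⟩]⟩) (.I [0,0,0,0,0,1,1] (.C [(0,0),(0,0),(2,0),(13,0),(12,
  1),(6,0),(1,0),(1,0)]) (.C [(0,0),(6,0),(11,0)])))))))))

theorem ok58 : chk K t58 r35 = true := by decide +kernel

noncomputable def t60 : Tre :=
  (.I [0,0,-1,-1] (.R ⟨2,true,false,false,[0,1],[0,0,0,0,1],[1,0,1,1],(⟨0,[]⟩,⟨0,[]⟩),(⟨0,[(15,0)]⟩,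
  ⟨0,[(14,0)]⟩),⟨0,[]⟩,.k,.k,.k,(.r (-1) ⟨1,[(19,0),(0,0),(10,1),(2,1)]⟩ ⟨33,[(2,5),(1,2),(0,9),(0,
  14),(1,9),(19,3),(0,2)]⟩),.k,.k,⟨false,1,⟨0,[(31,0),(2,0)]⟩,⟨33,[(2,5),(1,2),(0,9),(0,14),(1,9),
  (19,3),(0,2)]⟩⟩,⟨true,(-1),⟨0,[(1,0)]⟩,⟨0,[(12,0)]⟩⟩,⟨true,0,⟨0,[]⟩,⟨0,[(36,0)]⟩⟩,⟨false,(-1),⟨0,
  [(0,0),(0,0)]⟩,⟨0,[(12,0),(18,0),(2,0)]⟩⟩,⟨false,1,⟨0,[(31,0),(2,0)]⟩,⟨0,[(32,0)]⟩⟩,⟨true,(-1),⟨4,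
  [(1,4),(3,0),(2,0),(19,0),(1,0)]⟩,⟨0,[(12,0)]⟩⟩,[]⟩) (.Q [0,1,0,1,0,0,1,0,0,-1,1] (.p true [0,0,
  1] [1] (⟨0,[(22,0)]⟩,⟨0,[(21,0)]⟩) .k 1 (⟨0,[]⟩,⟨0,[]⟩) .k .k) (.R ⟨0,false,false,false,[0,0,1],
  [1,-1],[1],(⟨0,[(23,0)]⟩,⟨0,[(22,0)]⟩),(⟨0,[(27,0)]⟩,⟨0,[(28,0)]⟩),⟨0,[(12,0)]⟩,.k,.k,.k,.k,.k,.k,
  ⟨true,0,⟨0,[(1,0)]⟩,⟨0,[(33,0)]⟩⟩,⟨false,0,⟨1,[(10,0),(6,0),(2,0)]⟩,⟨18,[(0,3),(2,3),(2,7),(13,6),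
  (9,2),(3,8),(0,7)]⟩⟩,⟨false,1,⟨37,[(6,17),(0,9),(0,9),(11,19),(9,1),(3,0),(0,32)]⟩,⟨3,[(3,1),(6,
  0),(0,0),(0,0),(8,1),(2,1),(6,1),(3,1)]⟩⟩,⟨true,0,⟨0,[(7,0)]⟩,⟨15,[(1,11),(1,7),(7,0),(0,0),(11,
  1),(5,2),(0,11),(3,1)]⟩⟩,⟨false,0,⟨0,[]⟩,⟨0,[]⟩⟩,⟨false,0,⟨0,[]⟩,⟨0,[]⟩⟩,[.o ⟨false,0,⟨0,[(33,
  0)]⟩,⟨9,[(13,0),(0,0),(15,1),(1,9),(2,4)]⟩⟩,.e ⟨false,1,⟨1,[(34,0),(0,0)]⟩,⟨0,[(37,0)]⟩⟩ ⟨false,1,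
  ⟨1,[(5,0),(1,0),(2,0),(23,0),(0,0)]⟩,⟨0,[(0,0)]⟩⟩,.e ⟨true,0,⟨0,[]⟩,⟨0,[(37,0)]⟩⟩ ⟨true,0,⟨1,[(5,
  0),(1,0),(2,0)]⟩,⟨0,[(0,0)]⟩⟩,.a ⟨true,0,⟨0,[(20,0)]⟩,⟨0,[(17,0)]⟩⟩ ⟨false,1,⟨1,[(34,0),(0,0)]⟩,
  ⟨1,[(20,0),(0,0)]⟩⟩ ⟨true,0,⟨0,[(17,0),(15,0)]⟩,⟨1,[(0,1),(19,0),(0,0)]⟩⟩]⟩) (.I [1,0,-1,-1] (.N
  [0,1] 0 ⟨0,[(2,0)]⟩ ⟨0,[(0,0)]⟩ .k) (.I [0,0,0,0,1,0,0,0,-1] (.I [0,-1,0,-1,0,1,-1] (.C [(0,1),(1,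
  1),(3,0),(2,1),(5,1),(11,3),(6,0),(3,0),(0,0)]) (.C [(0,0),(2,0),(10,0)])) (.C [(0,0),(14,0),(2,
  0)])))))

theorem ok60 : chk K t60 r34 = true := by decide +kernel

noncomputable def t64 : Tre :=
  (.R ⟨0,false,false,false,[0,0,1],[0,1,-1],[],(⟨0,[(20,0)]⟩,⟨0,[(19,0)]⟩),(⟨0,[(9,0)]⟩,⟨0,[(20,0),
  (3,0)]⟩),⟨0,[(9,0)]⟩,.k,.k,.k,(.r (-1) ⟨0,[(6,0),(8,0),(2,0),(13,0)]⟩ ⟨1,[(1,0),(0,0),(0,0),(13,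
  2)]⟩),.k,.k,⟨false,1,⟨41,[(4,9),(1,31),(0,4),(7,19),(11,2),(3,9),(0,25)]⟩,⟨0,[(2,0),(14,0)]⟩⟩,
  ⟨true,0,⟨0,[(0,0)]⟩,⟨0,[(17,1)]⟩⟩,⟨true,0,⟨0,[(1,0),(4,0),(10,1)]⟩,⟨2,[(0,0),(14,2),(2,0)]⟩⟩,
  ⟨false,0,⟨0,[(1,0)]⟩,⟨0,[(15,1),(14,0),(1,0)]⟩⟩,⟨false,0,⟨0,[]⟩,⟨0,[]⟩⟩,⟨false,0,⟨0,[]⟩,⟨0,[]⟩⟩,
  [.e ⟨false,1,⟨1,[(10,0),(0,0),(19,0)]⟩,⟨0,[]⟩⟩ ⟨false,0,⟨1,[(0,0),(0,0),(26,0)]⟩,⟨1,[(15,1),(1,1),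
  (12,1),(0,0),(0,0)]⟩⟩,.o ⟨false,1,⟨4,[(2,3),(2,0),(21,0),(4,2)]⟩,⟨0,[(15,0),(14,0)]⟩⟩,.o ⟨false,1,
  ⟨9,[(10,0),(0,0),(5,9),(9,1),(3,4)]⟩,⟨2,[(0,0),(17,0)]⟩⟩,.a ⟨true,0,⟨0,[(17,0)]⟩,⟨0,[(14,0)]⟩⟩
  ⟨false,1,⟨1,[(31,0),(0,0)]⟩,⟨1,[(17,0),(0,0)]⟩⟩ ⟨true,0,⟨1,[(0,0),(0,0),(26,0)]⟩,⟨0,[(15,0),(1,0),
  (12,0)]⟩⟩]⟩)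

theorem ok64 : chk K t64 l37 = true := by decide +kernel

noncomputable def t65 : Tre :=
  (.K ⟨0,[0,1,-1],0,0,(⟨0,[(10,0)]⟩,⟨0,[(21,0),(3,0)]⟩),.k,.k,(.x (-1) ⟨14,[(0,0),(1,6),(4,13),(13,
  14),(0,9),(2,19),(2,3),(0,6),(3,6),(0,4)]⟩ ⟨1,[(10,1),(7,2),(0,0),(3,1)]⟩),(.r 0 ⟨2,[(1,2),(0,1),
  (3,0),(10,0)]⟩ ⟨0,[(7,0),(8,0),(2,0),(13,0)]⟩),.k,[⟨0,[(1,0)]⟩,⟨0,[(0,0)]⟩,⟨0,[(16,0),(14,0)]⟩,⟨0,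
  [(6,0)]⟩]⟩)

theorem ok65 : chk K t65 l38 = true := by decide +kernel

noncomputable def t66 : Tre :=
  (.R ⟨0,false,false,true,[0,1,-1],[0,1],[1],(⟨0,[(11,0)]⟩,⟨0,[(22,0),(3,0)]⟩),(⟨0,[(27,0)]⟩,⟨0,
  [(26,0)]⟩),⟨0,[(22,0)]⟩,.k,.k,.k,.k,.k,.k,⟨false,1,⟨12,[(0,4),(0,3),(1,1),(1,5),(2,9),(20,0),(4,
  10)]⟩,⟨1,[(19,0),(0,0),(10,1)]⟩⟩,⟨true,0,⟨0,[(1,0)]⟩,⟨0,[(20,0)]⟩⟩,⟨false,1,⟨9,[(0,3),(7,5),(0,0),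
  (7,3),(2,1),(8,0),(4,7)]⟩,⟨0,[(4,0),(14,0)]⟩⟩,⟨true,0,⟨0,[(17,0)]⟩,⟨2,[(3,0),(14,0),(13,0)]⟩⟩,
  ⟨false,0,⟨0,[]⟩,⟨0,[]⟩⟩,⟨false,0,⟨0,[]⟩,⟨0,[]⟩⟩,[.a ⟨true,0,⟨0,[(31,0)]⟩,⟨0,[(0,0)]⟩⟩ ⟨true,0,⟨0,
  []⟩,⟨1,[(19,0),(0,0)]⟩⟩ ⟨false,0,⟨1,[(2,0),(27,0),(0,0)]⟩,⟨31,[(0,2),(2,0),(2,13),(1,15),(0,7),
  (19,4),(4,21)]⟩⟩,.o ⟨false,1,⟨9,[(12,0),(0,0),(15,1),(1,9),(2,4)]⟩,⟨0,[(32,0)]⟩⟩,.o ⟨false,1,⟨2,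
  [(9,0),(6,0),(12,0),(3,0)]⟩,⟨0,[(19,0)]⟩⟩,.o ⟨false,1,⟨49,[(9,24),(2,16),(0,16),(15,14),(4,2),(1,
  5)]⟩,⟨0,[(1,0)]⟩⟩]⟩)

theorem ok66 : chk K t66 l39 = true := by decide +kernel

noncomputable def t67 : Tre :=
  (.Q [0,1,0,0,-1,0,0,-1,1,-1,0,1] (.p true [0,0,0,0,1] [1] (⟨0,[(18,0)]⟩,⟨0,[(17,0)]⟩) .k 1 (⟨0,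
  []⟩,⟨0,[]⟩) .k .k) (.Q [0,0,0,0,0,0,0,0,1,-1,0,1] (.p true [0,0,0,0,1] [1] (⟨0,[(19,0)]⟩,⟨0,[(18,
  0)]⟩) .k 1 (⟨0,[]⟩,⟨0,[]⟩) .k .k) (.R ⟨0,false,false,true,[1,0,-1],[1,0,0,0,-1],[1],(⟨0,[(26,0)]⟩,
  ⟨0,[(27,0)]⟩),(⟨0,[(19,0)]⟩,⟨0,[(20,0)]⟩),⟨0,[(15,0)]⟩,.k,.k,.k,.k,.k,.k,⟨true,0,⟨0,[]⟩,⟨1,[(24,
  0),(0,0)]⟩⟩,⟨false,1,⟨0,[(3,0),(2,0)]⟩,⟨1,[(0,0),(13,0),(3,0)]⟩⟩,⟨false,1,⟨1,[(14,0),(0,0),(0,0),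
  (5,1),(5,1),(10,1)]⟩,⟨4,[(1,0),(0,0),(3,0),(0,0),(0,0),(1,0),(0,0)]⟩⟩,⟨true,1,⟨0,[(2,0),(19,0)]⟩,
  ⟨2,[(1,2),(5,0),(6,1),(6,0)]⟩⟩,⟨false,0,⟨0,[]⟩,⟨0,[]⟩⟩,⟨false,0,⟨0,[]⟩,⟨0,[]⟩⟩,[.o ⟨false,1,⟨0,
  [(17,0)]⟩,⟨0,[(0,0)]⟩⟩,.o ⟨false,1,⟨0,[(2,0)]⟩,⟨1,[(0,0),(3,0),(28,0)]⟩⟩,.a ⟨true,0,⟨2,[(7,0),(6,
  1),(6,0)]⟩,⟨0,[(6,0)]⟩⟩ ⟨true,0,⟨0,[]⟩,⟨0,[(41,0)]⟩⟩ ⟨false,1,⟨0,[(2,0),(3,0)]⟩,⟨1,[(0,0),(13,0),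
  (3,0)]⟩⟩,.o ⟨false,0,⟨0,[(25,0)]⟩,⟨4,[(6,2),(0,0),(26,0),(3,2)]⟩⟩]⟩) (.I [0,1,0,0,-1,0,0,-1] (.C
  [(0,1),(15,0),(0,0),(4,0),(0,1),(2,0),(2,1),(10,1)]) (.C [(0,0),(0,0),(0,0)]))) (.Q [0,0,0,0,0,0,
  0,0,0,1,-2] (.ed true [0,0,2] (.x (-1) ⟨19,[(5,27),(0,5),(18,39),(7,7),(3,2),(0,0),(1,1)]⟩ ⟨0,
  [(14,1),(5,1),(6,1),(11,1)]⟩)) (.I [0,0,1,1,1,0,0,2] (.Q [0,0,-1,0,1,0,1,2,0,0,1] (.p true [0,0,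
  1] [] (⟨0,[(28,0)]⟩,⟨0,[(27,0)]⟩) .k 0 (⟨0,[]⟩,⟨0,[]⟩) .k .k) (.Q [0,0,0,0,1,0,2,2,0,-1,2] (.p
  true [0,0,1] [1,0,-1] (⟨0,[(29,0)]⟩,⟨0,[(28,0)]⟩) .k 2 (⟨0,[(28,0)]⟩,⟨0,[(29,0)]⟩) .k (.r (-1) ⟨4,
  [(1,3),(13,1),(23,1),(1,0)]⟩ ⟨2,[(9,1),(0,1),(1,1),(26,1)]⟩)) (.R ⟨0,false,false,true,[0,0,1],[0,
  0,2],[1,1],(⟨0,[(30,0)]⟩,⟨0,[(29,0)]⟩),(⟨0,[(30,1)]⟩,⟨0,[(3,0)]⟩),⟨0,[(19,0)]⟩,.k,.k,.k,.k,.k,.k,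
  ⟨false,0,⟨4,[(9,7),(1,3),(1,2),(2,0),(23,2)]⟩,⟨4,[(2,3),(13,1),(23,1),(1,0)]⟩⟩,⟨true,0,⟨0,[(9,
  0)]⟩,⟨0,[(28,0)]⟩⟩,⟨false,0,⟨2,[(10,0),(0,0),(1,0),(26,0)]⟩,⟨4,[(2,1),(13,0),(23,0),(1,2)]⟩⟩,
  ⟨true,0,⟨0,[(25,0)]⟩,⟨2,[(11,0),(14,0),(13,0)]⟩⟩,⟨false,0,⟨0,[]⟩,⟨0,[]⟩⟩,⟨false,0,⟨0,[]⟩,⟨0,[]⟩⟩,
  [.o ⟨false,1,⟨0,[(0,0),(43,0)]⟩,⟨0,[(11,0),(28,0)]⟩⟩,.o ⟨false,1,⟨0,[(0,0)]⟩,⟨2,[(11,1),(14,1),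
  (13,1)]⟩⟩,.e ⟨false,0,⟨0,[]⟩,⟨56,[(2,9),(7,9),(3,14),(0,4),(21,2),(3,9),(0,30)]⟩⟩ ⟨false,1,⟨4,[(1,
  2),(0,1),(7,0),(29,1)]⟩,⟨0,[(9,0),(1,0),(28,0)]⟩⟩,.a ⟨true,0,⟨0,[(27,0)]⟩,⟨0,[(24,0)]⟩⟩ ⟨true,0,
  ⟨4,[(13,0),(2,0),(19,0),(1,0)]⟩,⟨1,[(27,0),(0,0)]⟩⟩ ⟨false,1,⟨0,[(1,0)]⟩,⟨0,[(11,0),(15,0),(12,
  0)]⟩⟩]⟩) (.I [0,0,0,0,0,1,1] (.I [0,0,1,0,0,0,0,0,1] (.I [0,0,-1,0,0,1,-1] (.I [0,0,0,1,1,0,0,1,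
  -1] (.I [0,3,0,1,-1] (.I [0,1,0,0,-1,1,-1,-1] (.I [0,1,0,1,-1,0,0,-2] (.I [0,0,0,0,-1,1,-1,-2]
  (.C [(0,1),(6,2),(0,0),(1,1),(6,0),(6,1),(1,0),(12,5),(10,0),(0,1)]) (.C [(0,0),(7,0),(8,0),(8,
  0)])) (.C [(0,0),(6,0),(7,0),(0,1)])) (.C [(0,0),(5,0),(17,0),(6,0)])) (.C [(0,0),(4,0),(7,0),(16,
  1)])) (.C [(0,0),(7,0),(3,0),(14,0)])) (.C [(0,0),(2,0),(0,0),(16,0)])) (.C [(0,0),(8,0),(14,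
  0)])) (.C [(0,0),(3,0),(5,0),(8,0)]))) (.I [0,0,1,0,0,0,0,0,1] (.I [0,0,0,0,0,1,1] (.C [(0,0),(1,
  2),(0,1),(6,2),(6,1),(1,0),(5,0),(6,1),(10,0)]) (.C [(0,0),(3,0),(5,0),(8,0)])) (.C [(0,0),(6,0),
  (14,0)]))) (.Q [0,0,0,0,1,0,2,2,0,-1,2] (.p true [0,0,1] [1,0,-1] (⟨0,[(28,0)]⟩,⟨0,[(27,0)]⟩) .k
  2 (⟨0,[(27,0)]⟩,⟨0,[(28,0)]⟩) .k (.x (-1) ⟨10,[(1,10),(3,0),(2,10),(9,0),(16,1),(3,5)]⟩ ⟨0,[(16,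
  1),(5,1),(6,1),(11,1)]⟩)) (.R ⟨0,false,false,true,[0,0,1],[0,0,2],[1,1],(⟨0,[(29,0)]⟩,⟨0,[(28,
  0)]⟩),(⟨0,[(29,1)]⟩,⟨0,[(2,0)]⟩),⟨0,[(18,0)]⟩,.k,.k,.k,.k,.k,.k,⟨false,0,⟨5,[(1,1),(7,1),(0,1),(1,
  3),(27,0),(0,0)]⟩,⟨0,[(0,0),(15,0)]⟩⟩,⟨true,0,⟨0,[(8,0)]⟩,⟨0,[(27,0)]⟩⟩,⟨false,0,⟨186,[(1,12),(7,
  57),(0,42),(1,44),(0,29),(22,5),(4,0)]⟩,⟨1,[(0,0),(15,0),(24,0)]⟩⟩,⟨true,0,⟨0,[(24,0)]⟩,⟨50,[(1,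
  3),(8,11),(2,7),(2,1),(8,10),(1,3),(8,1),(6,0)]⟩⟩,⟨false,0,⟨0,[]⟩,⟨0,[]⟩⟩,⟨false,0,⟨0,[]⟩,⟨0,[]⟩⟩,
  [.o ⟨false,1,⟨0,[(0,0),(42,0)]⟩,⟨69,[(1,25),(8,37),(2,11),(2,12),(10,25),(8,4),(4,15)]⟩⟩,.o
  ⟨false,1,⟨0,[(0,0)]⟩,⟨50,[(1,7),(8,23),(2,15),(2,3),(8,21),(1,7),(8,3),(6,1)]⟩⟩,.e ⟨false,0,⟨0,
  []⟩,⟨1,[(19,0),(0,0),(20,0)]⟩⟩ ⟨false,1,⟨2,[(0,1),(2,0),(12,0),(3,0),(3,0)]⟩,⟨40,[(1,12),(7,1),(0,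
  22),(2,9),(12,10),(9,1),(4,8)]⟩⟩,.a ⟨true,0,⟨0,[(26,0)]⟩,⟨0,[(23,0)]⟩⟩ ⟨true,0,⟨14,[(1,0),(13,1),
  (19,4),(1,2),(2,0)]⟩,⟨1,[(26,0),(0,0)]⟩⟩ ⟨false,1,⟨0,[(0,0),(22,0)]⟩,⟨81,[(1,25),(8,45),(2,19),
  (12,68),(0,38),(8,3),(4,17)]⟩⟩]⟩) (.I [0,-1,0,0,1,0,0,1] (.Q [0,1,0,0,-1,0,-2,-1,0,1,-2] (.p
  false [0,0,1] [1,0,-1] (⟨0,[(30,0)]⟩,⟨0,[(29,0)]⟩) .k 2 (⟨0,[(29,0)]⟩,⟨0,[(30,0)]⟩) .k (.x (-1)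
  ⟨10,[(3,10),(3,0),(2,10),(9,0),(16,1),(3,5)]⟩ ⟨0,[(18,1),(5,1),(6,1),(11,1)]⟩)) (.R ⟨0,false,
  false,false,[1,0,-1],[0,0,1],[0,0,1,0,0,0,0,1],(⟨0,[(30,0)]⟩,⟨0,[(31,0)]⟩),(⟨0,[(31,0)]⟩,⟨0,[(30,
  0)]⟩),⟨0,[(19,0)]⟩,.k,.k,.k,.k,.k,.k,⟨true,0,⟨1,[(28,0),(0,0)]⟩,⟨0,[]⟩⟩,⟨false,1,⟨4,[(10,7),(0,0),
  (26,0),(3,2)]⟩,⟨0,[(18,0)]⟩⟩,⟨true,1,⟨0,[(1,0),(24,0),(2,0)]⟩,⟨0,[(3,0),(36,0)]⟩⟩,⟨false,2,⟨9,[(1,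
  14),(8,10),(0,1),(14,4),(11,1),(3,0)]⟩,⟨0,[(2,0)]⟩⟩,⟨false,0,⟨0,[]⟩,⟨0,[]⟩⟩,⟨false,0,⟨0,[]⟩,⟨0,
  []⟩⟩,[.o ⟨false,1,⟨9,[(1,4),(8,0),(0,1),(14,4),(11,1),(3,0)]⟩,⟨30,[(2,3),(9,5),(2,5),(11,4),(10,
  1),(6,0)]⟩⟩,.e ⟨false,1,⟨0,[(1,0)]⟩,⟨0,[(14,0)]⟩⟩ ⟨false,2,⟨4,[(1,4),(8,7),(0,0),(26,0),(3,2)]⟩,
  ⟨0,[(0,0)]⟩⟩,.a ⟨true,0,⟨2,[(11,0),(6,1),(6,0)]⟩,⟨0,[(10,0)]⟩⟩ ⟨false,1,⟨0,[(5,0),(2,0)]⟩,⟨5,[(3,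
  1),(7,0),(0,0),(26,0),(2,1)]⟩⟩ ⟨true,1,⟨9,[(1,4),(8,10),(0,1),(14,4),(11,1),(3,0)]⟩,⟨0,[(0,0)]⟩⟩,
  .o ⟨false,0,⟨0,[(29,0)]⟩,⟨4,[(10,2),(0,0),(26,0),(3,2)]⟩⟩]⟩) (.I [0,-1,0,0,0,0,0,-1] (.I [0,0,1,0,
  0,0,0,0,1] (.I [0,0,-1,0,0,1,-1] (.C [(0,0),(1,0),(4,0),(14,0),(6,0),(5,1),(11,0)]) (.C [(0,0),
  (21,0),(5,0)])) (.C [(0,0),(9,0),(14,0)])) (.C [(0,0),(0,0),(1,0)]))) (.I [0,0,1,0,0,0,0,0,1] (.I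
  [0,1,1,0,0,0,0,1] (.I [0,0,-1,0,0,1,-1] (.C [(0,0),(2,0),(2,0),(14,0),(6,0),(5,1),(10,0),(0,0)])
  (.C [(0,0),(20,0),(5,0)])) (.C [(0,0),(26,0),(2,0)])) (.C [(0,0),(7,0),(14,0)]))))) (.Q [0,0,0,-1,
  1,0,3,3,0,-1,3] (.p true [0,0,1] [1,1,-2] (⟨0,[(27,0)]⟩,⟨0,[(26,0)]⟩) .k 2 (⟨0,[(16,0),(9,0)]⟩,⟨0,
  [(0,0),(30,0)]⟩) (.r 0 ⟨2,[(7,2),(0,1),(3,0),(10,0)]⟩ ⟨0,[(1,0),(2,0),(8,0)]⟩) (.x (-1) ⟨12,[(5,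
  2),(0,44),(1,2),(4,5),(2,10),(9,27),(1,10),(5,4),(4,2),(0,11)]⟩ ⟨1,[(0,2),(13,2)]⟩)) (.Q [0,1,0,0,
  -1,0,-2,-2,0,1,-2] (.p false [0,0,1] [1,0,-1] (⟨0,[(28,0)]⟩,⟨0,[(27,0)]⟩) .k 2 (⟨0,[(27,0)]⟩,⟨0,
  [(28,0)]⟩) .k (.r (-1) ⟨2,[(0,1),(5,0),(8,2),(21,0),(2,0)]⟩ ⟨2,[(8,1),(0,1),(1,1),(26,1)]⟩)) (.Q
  [0,0,1,0,0,0,2,0,0,-1,2] (.p true [0,0,1] [1,0,-1] (⟨0,[(29,0)]⟩,⟨0,[(28,0)]⟩) .k 2 (⟨0,[(28,0)]⟩,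
  ⟨0,[(29,0)]⟩) .k (.r (-1) ⟨2,[(1,1),(5,0),(8,2),(21,0),(2,0)]⟩ ⟨2,[(9,1),(0,1),(1,1),(26,1)]⟩))
  (.R ⟨0,false,false,true,[0,0,1],[1,0,-1],[1,1],(⟨0,[(30,0)]⟩,⟨0,[(29,0)]⟩),(⟨0,[(29,0)]⟩,⟨0,[(30,
  0)]⟩),⟨0,[(19,0)]⟩,.k,.k,.k,.k,.k,.k,⟨false,1,⟨29,[(2,9),(14,14),(19,0),(0,3),(0,5),(1,12),(0,
  4)]⟩,⟨3,[(0,0),(8,0),(1,0),(1,0),(0,0)]⟩⟩,⟨true,0,⟨0,[(17,0)]⟩,⟨0,[(0,0)]⟩⟩,⟨false,0,⟨3,[(0,0),(8,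
  0),(1,0),(1,0),(0,0)]⟩,⟨5,[(2,1),(5,0),(8,2),(21,0),(2,3)]⟩⟩,⟨true,(-1),⟨0,[(1,0)]⟩,⟨2,[(2,1),(5,
  0),(30,0),(2,0)]⟩⟩,⟨false,0,⟨0,[]⟩,⟨0,[]⟩⟩,⟨false,0,⟨0,[]⟩,⟨0,[]⟩⟩,[.o ⟨false,0,⟨0,[(26,0)]⟩,⟨0,
  [(2,0),(8,0)]⟩⟩,.o ⟨false,0,⟨50,[(1,7),(9,10),(2,11),(0,0),(21,3),(6,1)]⟩,⟨29,[(2,9),(17,6),(0,6),
  (15,3),(1,9),(2,4)]⟩⟩,.e ⟨false,0,⟨0,[]⟩,⟨1,[(20,0),(0,0),(20,0)]⟩⟩ ⟨false,0,⟨1,[(12,0),(1,0),(2,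
  0)]⟩,⟨0,[(2,0),(6,0),(1,0)]⟩⟩,.a ⟨true,0,⟨0,[(27,0)]⟩,⟨0,[(24,0)]⟩⟩ ⟨true,0,⟨4,[(13,0),(2,0),(19,
  0),(1,0)]⟩,⟨1,[(27,0),(0,0)]⟩⟩ ⟨false,0,⟨14,[(1,2),(9,2),(2,2),(2,0),(6,12),(12,0),(3,0)]⟩,⟨8,[(0,
  5),(1,1),(1,2),(2,2),(0,0),(30,0),(2,3)]⟩⟩]⟩) (.I [0,0,1,0,0,0,0,0,1] (.I [0,0,0,0,0,1,1] (.C [(0,
  1),(1,0),(2,0),(27,1),(11,0)]) (.C [(0,0),(10,0),(9,0)])) (.C [(0,0),(7,0),(14,0)]))) (.I [0,1,0,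
  0,0,0,0,1] (.Q [0,0,1,0,0,0,2,0,0,-1,2] (.p true [0,0,1] [1,0,-1] (⟨0,[(30,0)]⟩,⟨0,[(29,0)]⟩) .k
  2 (⟨0,[(29,0)]⟩,⟨0,[(30,0)]⟩) .k (.r (-1) ⟨13,[(1,3),(0,5),(1,1),(12,12),(3,1),(15,0),(1,5)]⟩ ⟨2,
  [(10,1),(0,1),(1,1),(26,1)]⟩)) (.R ⟨0,false,false,true,[0,0,1],[1,0,-1],[1],(⟨0,[(31,0)]⟩,⟨0,[(30,
  0)]⟩),(⟨0,[(30,0)]⟩,⟨0,[(31,0)]⟩),⟨0,[(20,0)]⟩,.k,.k,.k,.k,.k,.k,⟨false,1,⟨11,[(2,5),(15,0),(6,9),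
  (12,0),(3,0),(0,2)]⟩,⟨2,[(11,0),(2,0),(12,1)]⟩⟩,⟨true,0,⟨0,[(18,0)]⟩,⟨0,[(0,0)]⟩⟩,⟨true,0,⟨3,[(0,
  0),(9,0),(1,0),(1,0),(0,0)]⟩,⟨0,[(1,0)]⟩⟩,⟨false,0,⟨0,[(13,0),(1,0)]⟩,⟨0,[(2,0)]⟩⟩,⟨false,0,⟨0,
  []⟩,⟨0,[]⟩⟩,⟨false,0,⟨0,[]⟩,⟨0,[]⟩⟩,[.o ⟨false,0,⟨0,[(27,0)]⟩,⟨18,[(2,7),(0,0),(34,1),(1,0),(2,
  5)]⟩⟩,.o ⟨false,0,⟨2,[(12,0),(14,0),(13,0)]⟩,⟨29,[(3,9),(17,6),(0,6),(15,3),(1,9),(2,4)]⟩⟩,.a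
  ⟨true,0,⟨0,[(10,0)]⟩,⟨2,[(11,0),(6,1),(6,0)]⟩⟩ ⟨true,0,⟨0,[]⟩,⟨0,[(45,0)]⟩⟩ ⟨false,0,⟨1,[(13,0),
  (1,0),(2,0)]⟩,⟨3,[(0,1),(1,1),(39,0),(0,0)]⟩⟩,.e ⟨false,1,⟨1,[(42,0),(0,0)]⟩,⟨1,[(28,0),(0,0)]⟩⟩
  ⟨false,0,⟨13,[(12,4),(2,2),(1,1),(0,0),(6,9),(1,2)]⟩,⟨11,[(0,2),(1,3),(2,3),(2,3),(2,4),(26,0),(4,
  1)]⟩⟩]⟩) (.I [0,0,1,0,0,0,0,0,1] (.I [0,0,0,0,0,1,1] (.C [(0,1),(1,0),(3,0),(27,1),(11,0)]) (.C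
  [(0,0),(11,0),(9,0)])) (.C [(0,0),(8,0),(14,0)]))) (.Q [0,-1,0,0,0,0,-3,-1,0,1,-3] (.p false [0,0,
  1] [1,1,-2] (⟨0,[(30,0)]⟩,⟨0,[(29,0)]⟩) .k 2 (⟨0,[(19,0),(9,0)]⟩,⟨0,[(3,0),(30,0)]⟩) (.r 0 ⟨2,
  [(10,2),(0,1),(3,0),(10,0)]⟩ ⟨15,[(2,8),(11,0),(1,5),(0,12),(19,0),(3,1),(0,2)]⟩) (.x (-1) ⟨10,
  [(0,8),(1,2),(5,8),(0,23),(9,0),(9,31),(1,0),(5,3),(2,5)]⟩ ⟨1,[(3,2),(13,2)]⟩)) (.Q [0,0,0,0,0,0,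
  -3,0,0,1,-3] (.p false [0,0,1] [1,1,-2] (⟨0,[(31,0)]⟩,⟨0,[(30,0)]⟩) .k 2 (⟨0,[(20,0),(9,0)]⟩,⟨0,
  [(4,0),(30,0)]⟩) (.r 0 ⟨2,[(11,2),(0,1),(3,0),(10,0)]⟩ ⟨21,[(0,5),(2,14),(11,0),(1,5),(0,12),(19,
  0),(3,4)]⟩) (.x (-1) ⟨10,[(1,8),(1,2),(5,8),(0,23),(9,0),(9,31),(1,0),(5,3),(2,5)]⟩ ⟨1,[(4,2),(13,
  2)]⟩)) (.Q [0,0,1,0,0,0,2,0,0,-1,2] (.p true [0,0,1] [1,0,-1] (⟨0,[(32,0)]⟩,⟨0,[(31,0)]⟩) .k 2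
  (⟨0,[(31,0)]⟩,⟨0,[(32,0)]⟩) .k (.r (-1) ⟨67,[(0,38),(2,11),(0,30),(1,18),(16,18),(15,2),(1,30)]⟩
  ⟨2,[(2,2),(9,0),(2,0),(12,1)]⟩)) (.R ⟨0,false,false,true,[1,1,-2],[0,0,1],[1,0,1,1,0,0,0,-2],(⟨0,
  [(22,0),(9,0)]⟩,⟨0,[(6,0),(30,0)]⟩),(⟨0,[(33,0)]⟩,⟨0,[(32,0)]⟩),⟨0,[(6,0)]⟩,(.r 0 ⟨4,[(0,0),(12,
  3),(0,2),(2,0),(0,2)]⟩ ⟨173,[(1,77),(0,37),(2,120),(11,14),(1,37),(20,1),(3,48)]⟩),.k,.k,(.r 0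
  ⟨14,[(0,5),(12,13),(0,12),(1,4),(0,5),(0,7)]⟩ ⟨4,[(1,3),(2,1),(0,2),(13,1),(7,0)]⟩),.k,.k,⟨false,
  0,⟨3,[(3,3),(9,2),(0,2),(1,1),(24,0)]⟩,⟨14,[(1,13),(3,13),(13,2),(19,4),(1,1),(2,0)]⟩⟩,⟨true,0,⟨0,
  [(0,0),(11,0)]⟩,⟨0,[(1,0)]⟩⟩,⟨true,0,⟨0,[]⟩,⟨0,[(47,0)]⟩⟩,⟨false,1,⟨0,[(5,0)]⟩,⟨5,[(2,0),(10,1),
  (0,4),(0,3),(1,2),(9,1)]⟩⟩,⟨false,0,⟨0,[]⟩,⟨0,[]⟩⟩,⟨false,0,⟨0,[]⟩,⟨0,[]⟩⟩,[.a ⟨true,0,⟨0,[(28,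
  0)]⟩,⟨1,[(2,0),(0,0),(9,0),(13,0)]⟩⟩ ⟨false,0,⟨3,[(13,2),(0,2),(1,1),(24,0)]⟩,⟨173,[(1,77),(0,37),
  (2,120),(11,14),(1,37),(20,1),(3,48)]⟩⟩ ⟨true,0,⟨0,[(0,0),(27,0)]⟩,⟨0,[(2,0)]⟩⟩,.o ⟨false,1,⟨29,
  [(5,9),(17,6),(0,6),(15,3),(1,9),(2,4)]⟩,⟨2,[(14,0),(14,0),(13,0)]⟩⟩,.o ⟨false,1,⟨32,[(1,21),(8,
  6),(12,6),(16,2),(3,19)]⟩,⟨0,[(0,0)]⟩⟩,.e ⟨false,0,⟨1,[(3,1),(9,0),(0,0),(26,0)]⟩,⟨83,[(1,55),(3,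
  62),(4,3),(6,20),(5,14),(0,10),(15,1),(3,1)]⟩⟩ ⟨false,1,⟨9,[(0,0),(3,1),(0,1),(7,8),(26,0),(0,1),
  (2,3)]⟩,⟨0,[(2,0)]⟩⟩]⟩) (.I [0,0,1,0,0,0,0,0,1] (.I [0,0,0,0,0,1,1] (.C [(0,1),(1,0),(5,0),(27,1),
  (11,0)]) (.C [(0,0),(13,0),(9,0)])) (.C [(0,0),(10,0),(14,0)]))) (.I [0,0,0,0,0,0,-1] (.C [(0,1),
  (0,0),(20,1),(4,0),(6,1),(11,0)]) (.C [(0,1),(1,0),(3,0),(21,0)]))) (.I [0,0,0,0,0,0,-1] (.C [(0,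
  1),(0,0),(0,0),(18,1),(4,0),(6,1),(11,0)]) (.C [(0,1),(4,0),(20,0),(3,0)]))))) (.I [0,0,0,0,1,0,0,
  2] (.Q [0,0,1,0,0,0,3,0,0,-1,3] (.p true [0,0,1] [1,1,-2] (⟨0,[(29,0)]⟩,⟨0,[(28,0)]⟩) .k 2 (⟨0,
  [(18,0),(9,0)]⟩,⟨0,[(2,0),(30,0)]⟩) (.r 0 ⟨16,[(1,2),(7,16),(0,6),(2,1),(0,8),(21,0),(4,0)]⟩ ⟨3,
  [(0,2),(14,1),(23,1),(1,0)]⟩) (.x (-1) ⟨12,[(7,2),(0,44),(1,2),(4,5),(2,10),(9,27),(1,10),(5,4),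
  (4,2),(0,11)]⟩ ⟨1,[(2,2),(13,2)]⟩)) (.K ⟨0,[1,1,-2],0,(-1),(⟨0,[(19,0),(9,0)]⟩,⟨0,[(3,0),(30,
  0)]⟩),(.r 0 ⟨16,[(2,2),(7,16),(0,6),(2,1),(0,8),(21,0),(4,0)]⟩ ⟨3,[(1,2),(14,1),(23,1),(1,0)]⟩),
  (.r 0 ⟨1,[(0,0),(10,0),(1,0),(0,0)]⟩ ⟨0,[(1,0)]⟩),(.r 0 ⟨0,[(12,1),(14,1)]⟩ ⟨1,[(1,0),(14,1),(23,
  1),(1,0)]⟩),(.r 1 ⟨0,[(0,0),(1,0)]⟩ ⟨1,[(1,2),(38,1),(0,0)]⟩),.k,[⟨0,[(0,0)]⟩,⟨0,[(17,0)]⟩,⟨36,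
  [(0,19),(0,24),(12,12),(1,9),(8,26),(11,5),(2,13)]⟩,⟨0,[(2,0),(22,0)]⟩]⟩) (.I [0,0,0,0,0,1,1] (.C
  [(0,1),(0,0),(2,0),(5,0),(21,1),(11,0)]) (.C [(0,0),(9,0),(9,0)]))) (.I [0,0,0,0,0,0,-1] (.I [0,0,
  1,0,0,0,0,0,1] (.I [0,0,0,0,0,1,1] (.I [0,0,-1,0,0,1,-1] (.I [0,0,0,1,1,0,0,1,-1] (.I [0,1,0,0,0,
  1,1,1] (.C [(0,1),(4,0),(0,0),(1,0),(15,0),(4,0),(6,2),(10,0),(0,0)]) (.C [(0,0),(23,0),(5,0)]))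
  (.C [(0,0),(7,0),(3,0),(14,0)])) (.C [(0,0),(5,0),(15,0),(4,0)])) (.C [(0,0),(10,0),(9,0)])) (.C
  [(0,0),(7,0),(14,0)])) (.C [(0,1),(2,0),(20,0),(3,0)]))))))

theorem ok67 : chk K t67 l42 = true := by decide +kernel


end Helper25.S1T.Ymp_1aP2
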