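import Pool.Agent.Helper25.S1T.Ymp_1aP2_q

set_option autoImplicit false
set_option linter.all false

namespace Helper25.S1T.Ymp_1aP2

open Helper25.KG Helper25.KW Helper55.KE Helper11.CT

noncomputable def t68 : Tre :=
  (.Q [0,1,0,0,-1,0,0,0,1,-1,0,1] (.p true [0,0,0,0,1] [1] (⟨0,[(18,0)]⟩,⟨0,[(17,0)]⟩) .k 1 (⟨0,[]⟩,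
  ⟨0,[]⟩) .k .k) (.Q [0,-1,0,0,1,0,-1,-1,-1,1,-1,-1] (.p false [0,0,1] [1,0,0,0,-1] (⟨0,[(26,0)]⟩,
  ⟨0,[(25,0)]⟩) .k 2 (⟨0,[(18,0)]⟩,⟨0,[(19,0)]⟩) .k (.x 0 ⟨9,[(0,9),(4,5),(0,1),(11,9),(6,9),(7,1),
  (3,0),(0,4)]⟩ ⟨0,[(2,0),(16,0),(4,0),(1,0)]⟩)) (.R ⟨0,false,false,false,[1,0,-1],[0,0,0,0,1],[0,1,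
  1],(⟨0,[(26,0)]⟩,⟨0,[(27,0)]⟩),(⟨0,[(20,0)]⟩,⟨0,[(19,0)]⟩),⟨0,[(15,0)]⟩,.k,.k,.k,.k,.k,.k,⟨true,0,
  ⟨1,[(24,0),(0,0)]⟩,⟨0,[]⟩⟩,⟨false,0,⟨1,[(1,1),(4,1),(31,0),(0,0)]⟩,⟨1,[(0,0),(13,0),(2,0),(4,
  0)]⟩⟩,⟨true,0,⟨0,[(22,0),(2,0)]⟩,⟨4,[(6,5),(1,2),(1,0),(2,1),(23,0)]⟩⟩,⟨false,0,⟨0,[(1,0),(20,0),
  (16,0)]⟩,⟨0,[(0,0)]⟩⟩,⟨false,0,⟨0,[]⟩,⟨0,[]⟩⟩,⟨false,0,⟨0,[]⟩,⟨0,[]⟩⟩,[.o ⟨false,(-1),⟨0,[(1,0)]⟩,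
  ⟨1,[(17,2),(0,0),(20,0)]⟩⟩,.o ⟨false,0,⟨8,[(1,3),(16,4),(15,0),(4,1)]⟩,⟨0,[(17,0)]⟩⟩,.a ⟨true,0,
  ⟨2,[(7,0),(6,1),(6,0)]⟩,⟨0,[(6,0)]⟩⟩ ⟨false,0,⟨1,[(24,0),(0,0)]⟩,⟨1,[(38,0),(0,0)]⟩⟩ ⟨true,(-1),
  ⟨0,[(1,0),(4,0)]⟩,⟨1,[(0,0),(13,0),(2,0),(4,0)]⟩⟩,.o ⟨false,0,⟨0,[(25,0)]⟩,⟨4,[(6,2),(0,0),(26,0),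
  (3,2)]⟩⟩]⟩) (.Q [0,0,0,0,0,0,0,0,0,1,-2] (.ed true [0,0,2] (.r (-1) ⟨0,[(0,0),(13,0),(2,0),(4,0),
  (16,0)]⟩ ⟨2,[(7,1),(0,1),(1,1),(26,1)]⟩)) (.R ⟨0,false,false,true,[0,0,1],[0,0,2],[1,1],(⟨0,[(28,
  0)]⟩,⟨0,[(27,0)]⟩),(⟨0,[(28,1)]⟩,⟨0,[(0,0)]⟩),⟨0,[(17,0)]⟩,.k,.k,.k,.k,.k,.k,⟨false,0,⟨4,[(7,7),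
  (1,3),(1,2),(2,0),(23,2)]⟩,⟨0,[(1,0),(13,0),(2,0),(4,0),(16,0)]⟩⟩,⟨true,0,⟨0,[(7,0)]⟩,⟨0,[(26,
  0)]⟩⟩,⟨false,0,⟨2,[(8,0),(0,0),(1,0),(26,0)]⟩,⟨1,[(1,0),(13,0),(2,0),(4,0),(16,1)]⟩⟩,⟨true,0,⟨0,
  [(23,0)]⟩,⟨2,[(9,0),(14,0),(13,0)]⟩⟩,⟨false,0,⟨0,[]⟩,⟨0,[]⟩⟩,⟨false,0,⟨0,[]⟩,⟨0,[]⟩⟩,[.o ⟨false,1,
  ⟨21,[(5,1),(12,1),(4,43),(11,3),(3,0),(0,10)]⟩,⟨0,[(9,0),(28,0)]⟩⟩,.o ⟨false,1,⟨0,[(1,0),(16,0),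
  (4,0),(16,0)]⟩,⟨2,[(9,1),(14,1),(13,1)]⟩⟩,.e ⟨false,0,⟨0,[]⟩,⟨1,[(18,0),(0,0),(20,0)]⟩⟩ ⟨false,1,
  ⟨1,[(1,0),(13,0),(2,0),(4,2),(16,1)]⟩,⟨0,[(7,0),(1,0),(28,0)]⟩⟩,.a ⟨true,0,⟨0,[(25,0)]⟩,⟨0,[(22,
  0)]⟩⟩ ⟨true,0,⟨4,[(11,0),(2,0),(19,0),(1,0)]⟩,⟨1,[(25,0),(0,0)]⟩⟩ ⟨false,1,⟨2,[(1,1),(2,1),(10,0),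
  (6,0),(0,3),(16,2)]⟩,⟨0,[(9,0),(15,0),(12,0)]⟩⟩]⟩) (.Q [0,0,1,0,0,0,2,0,0,-1,2] (.p true [0,0,1]
  [1,0,-1] (⟨0,[(28,0)]⟩,⟨0,[(27,0)]⟩) .k 2 (⟨0,[(27,0)]⟩,⟨0,[(28,0)]⟩) .k (.r (-1) ⟨0,[(1,0),(13,
  0),(2,0),(4,0),(16,0)]⟩ ⟨2,[(8,1),(0,1),(1,1),(26,1)]⟩)) (.R ⟨0,false,false,false,[0,0,1],[1,0,
  -1],[1],(⟨0,[(29,0)]⟩,⟨0,[(28,0)]⟩),(⟨0,[(28,0)]⟩,⟨0,[(29,0)]⟩),⟨0,[(18,0)]⟩,.k,.k,.k,.k,.k,.k,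
  ⟨false,1,⟨11,[(15,1),(0,4),(7,9),(11,0),(0,1),(2,2),(0,6)]⟩,⟨3,[(0,0),(7,0),(1,0),(1,0),(0,0)]⟩⟩,
  ⟨true,0,⟨0,[(16,0)]⟩,⟨0,[(0,0)]⟩⟩,⟨true,0,⟨3,[(0,0),(7,0),(1,0),(1,0),(0,0)]⟩,⟨1,[(2,0),(13,0),(2,
  0),(4,0)]⟩⟩,⟨false,0,⟨2,[(9,1),(0,2),(5,0),(6,1),(15,2)]⟩,⟨0,[(2,0),(16,0),(4,0),(16,0)]⟩⟩,⟨false,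
  0,⟨0,[]⟩,⟨0,[]⟩⟩,⟨false,0,⟨0,[]⟩,⟨0,[]⟩⟩,[.o ⟨false,0,⟨2,[(10,0),(14,0),(13,0)]⟩,⟨21,[(6,1),(12,
  1),(4,21),(11,3),(3,0),(0,10)]⟩⟩,.o ⟨false,1,⟨43,[(6,1),(6,21),(0,21),(4,1),(16,3),(3,0),(0,32)]⟩,
  ⟨0,[(2,0),(16,0)]⟩⟩,.e ⟨true,0,⟨0,[]⟩,⟨0,[(43,0)]⟩⟩ ⟨true,0,⟨1,[(11,0),(1,0),(2,0)]⟩,⟨1,[(0,0),(1,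
  0),(2,0),(18,0)]⟩⟩,.a ⟨true,0,⟨0,[(26,0)]⟩,⟨0,[(23,0)]⟩⟩ ⟨false,1,⟨1,[(40,0),(0,0)]⟩,⟨1,[(26,0),
  (0,0)]⟩⟩ ⟨true,0,⟨13,[(10,4),(2,2),(1,1),(0,0),(6,9),(1,2)]⟩,⟨2,[(0,1),(1,0),(16,0),(4,1),(2,
  0)]⟩⟩]⟩) (.I [0,0,0,0,0,1,1] (.C [(0,1),(0,0),(0,0),(28,1),(11,0)]) (.C [(0,0),(8,0),(9,0)])))))
  (.Q [0,0,0,0,0,0,0,0,0,0,-1,1] (.ed false [1,0,-1,0,1] (.x 0 ⟨17,[(1,17),(2,0),(2,0),(4,1),(0,5),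
  (0,2),(3,17),(5,3),(1,14),(0,2),(5,3),(4,9)]⟩ ⟨0,[(2,0),(2,0),(9,0),(3,0),(7,0),(11,0)]⟩)) (.I [0,
  -1,-1,-1,0,0,0,-1] (.I [0,0,-1,0,1,-1,1,0,-1] (.R ⟨0,false,false,true,[0,0,-1,0,1],[0,0,0,0,1],[1,
  1],(⟨0,[(2,0)]⟩,⟨0,[(21,0),(7,0)]⟩),(⟨0,[(22,0)]⟩,⟨0,[(21,0)]⟩),⟨0,[(17,0),(3,0)]⟩,.k,.k,(.x 0 ⟨1,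
  [(6,1),(9,0),(0,0),(3,1),(7,0),(1,0)]⟩ ⟨0,[(0,0)]⟩),.k,.k,.k,⟨false,1,⟨1,[(40,0),(0,0)]⟩,⟨0,[(43,
  0)]⟩⟩,⟨true,0,⟨0,[(8,0)]⟩,⟨0,[(27,0)]⟩⟩,⟨false,1,⟨1,[(16,0),(0,0),(0,0),(5,1),(5,1),(10,1)]⟩,⟨14,
  [(1,2),(7,4),(0,2),(1,1),(12,3)]⟩⟩,⟨true,0,⟨0,[(24,0)]⟩,⟨4,[(1,0),(8,0),(14,1),(1,0)]⟩⟩,⟨false,0,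
  ⟨0,[]⟩,⟨0,[]⟩⟩,⟨false,0,⟨0,[]⟩,⟨0,[]⟩⟩,[.o ⟨false,(-1),⟨0,[(4,0),(2,0),(31,0)]⟩,⟨8,[(3,9),(16,0),
  (15,1),(4,3)]⟩⟩,.a ⟨true,(-1),⟨0,[(4,0)]⟩,⟨0,[(3,0)]⟩⟩ ⟨true,0,⟨0,[]⟩,⟨1,[(26,0),(0,0)]⟩⟩ ⟨false,
  0,⟨2,[(8,0),(0,0),(2,0),(2,0),(21,0)]⟩,⟨5,[(3,1),(12,2),(3,1),(15,0),(4,1)]⟩⟩,.o ⟨false,0,⟨5,[(4,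
  5),(2,0),(2,0),(4,1),(11,3),(8,0),(4,3)]⟩,⟨1,[(5,0),(3,0),(9,0)]⟩⟩,.o ⟨false,0,⟨5,[(4,3),(1,1),(9,
  0),(10,3),(8,0),(4,1)]⟩,⟨0,[(5,0),(2,0)]⟩⟩]⟩) (.I [0,0,0,0,0,1,1] (.I [0,0,-1,0,0,1,-1] (.I [0,-1,
  0,0,1,1,0,0,-1] (.C [(0,0),(1,0),(0,1),(0,0),(0,0),(0,0),(3,0),(0,0),(6,0),(14,3),(6,0),(4,1)])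
  (.C [(0,0),(4,0),(0,0),(13,0)])) (.C [(0,0),(18,0),(5,0)])) (.C [(0,0),(8,0),(9,0)]))) (.R ⟨0,
  false,false,true,[0,0,-1,0,1],[0,0,0,0,1],[1,1],(⟨0,[(1,0)]⟩,⟨0,[(20,0),(7,0)]⟩),(⟨0,[(21,0)]⟩,⟨0,
  [(20,0)]⟩),⟨0,[(16,0),(3,0)]⟩,.k,.k,(.r 0 ⟨0,[(11,0),(26,0)]⟩ ⟨0,[(0,0),(39,0)]⟩),.k,.k,.k,⟨false,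
  1,⟨1,[(39,0),(0,0)]⟩,⟨0,[(42,0)]⟩⟩,⟨true,0,⟨0,[(7,0)]⟩,⟨0,[(26,0)]⟩⟩,⟨false,1,⟨2,[(0,1),(13,0),
  (23,0),(1,2)]⟩,⟨2,[(8,0),(0,0),(1,0),(26,0)]⟩⟩,⟨true,0,⟨0,[(23,0)]⟩,⟨2,[(9,0),(14,0),(13,0)]⟩⟩,
  ⟨false,0,⟨0,[]⟩,⟨0,[]⟩⟩,⟨false,0,⟨0,[]⟩,⟨0,[]⟩⟩,[.o ⟨false,(-1),⟨0,[(3,0),(2,0),(31,0)]⟩,⟨8,[(2,
  9),(16,0),(15,1),(4,3)]⟩⟩,.a ⟨true,(-1),⟨0,[(3,0)]⟩,⟨0,[(2,0)]⟩⟩ ⟨true,0,⟨0,[]⟩,⟨1,[(25,0),(0,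
  0)]⟩⟩ ⟨false,0,⟨2,[(7,0),(0,0),(2,0),(2,0),(21,0)]⟩,⟨5,[(2,1),(12,2),(3,1),(15,0),(4,1)]⟩⟩,.o
  ⟨false,0,⟨35,[(0,3),(2,35),(5,7),(4,11),(1,0),(0,0),(8,19),(2,1),(5,6),(4,21)]⟩,⟨1,[(4,0),(3,0),
  (9,0)]⟩⟩,.o ⟨false,0,⟨5,[(3,3),(1,1),(9,0),(10,3),(8,0),(4,1)]⟩,⟨0,[(4,0),(2,0)]⟩⟩]⟩)) (.Q [0,0,0,
  0,0,0,0,0,0,1,-1,-1] (.ed true [0,0,1,0,1] (.x 0 ⟨25,[(0,0),(1,25),(2,4),(0,35),(1,4),(4,9),(2,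
  26),(2,24),(8,26),(5,3),(4,17),(0,19)]⟩ ⟨0,[(3,0),(16,0),(4,0),(1,0)]⟩)) (.I [0,0,-1,0,0,-1,1,0,
  1] (.R ⟨0,false,false,true,[1,0,-1,0,-1],[1,0,0,0,-1],[0,1,1],(⟨0,[(1,0)]⟩,⟨0,[(22,0),(6,0)]⟩),
  (⟨0,[(21,0)]⟩,⟨0,[(22,0)]⟩),⟨0,[(17,0),(4,0)]⟩,.k,.k,(.x (-1) ⟨0,[(3,0),(13,0),(4,0),(4,0),(15,
  0)]⟩ ⟨0,[(0,0)]⟩),.k,.k,.k,⟨false,0,⟨0,[(43,0)]⟩,⟨1,[(40,0),(0,0)]⟩⟩,⟨true,0,⟨0,[(8,0)]⟩,⟨0,[(27,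
  0)]⟩⟩,⟨false,0,⟨0,[(24,0),(2,0)]⟩,⟨4,[(8,5),(1,2),(1,0),(2,1),(23,0),(1,4)]⟩⟩,⟨true,0,⟨0,[(24,
  0)]⟩,⟨2,[(10,0),(14,0),(13,0)]⟩⟩,⟨false,0,⟨0,[]⟩,⟨0,[]⟩⟩,⟨false,0,⟨0,[]⟩,⟨0,[]⟩⟩,[.o ⟨false,1,⟨0,
  [(19,0)]⟩,⟨4,[(4,3),(15,0),(15,0),(4,1)]⟩⟩,.a ⟨true,1,⟨0,[(3,0)]⟩,⟨0,[(4,0)]⟩⟩ ⟨true,0,⟨1,[(26,0),
  (0,0)]⟩,⟨0,[]⟩⟩ ⟨false,1,⟨1,[(8,1),(31,0),(0,0)]⟩,⟨6,[(7,0),(7,0),(0,0),(8,0),(1,3),(7,1)]⟩⟩,.o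
  ⟨false,1,⟨0,[(5,0),(21,0)]⟩,⟨14,[(0,4),(3,7),(4,4),(7,4),(2,1),(1,4),(13,1),(4,3)]⟩⟩,.o ⟨false,1,
  ⟨0,[(19,0),(7,0)]⟩,⟨0,[(0,0),(16,0),(4,0)]⟩⟩]⟩) (.I [0,0,0,0,0,1,1] (.C [(0,1),(0,1),(0,0),(0,0),
  (1,1),(2,0),(0,1),(1,0),(4,1),(14,3),(10,1),(0,1)]) (.C [(0,0),(8,0),(9,0)]))) (.Q [0,2,0,0,-1,0,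
  1,1,1,-1,1,1] (.p true [-1,0,1,0,1] [] (⟨0,[(0,0)]⟩,⟨0,[(20,0),(6,0)]⟩) .k 0 (⟨0,[]⟩,⟨0,[]⟩) .k
  (.x 0 ⟨25,[(1,0),(1,25),(2,4),(0,35),(1,4),(4,9),(2,26),(2,24),(8,26),(5,3),(4,17),(0,19)]⟩ ⟨1,
  [(0,1),(1,0),(12,0),(2,0),(23,0)]⟩)) (.I [0,-1,-1,-1,0,0,0,-1] (.Q [0,0,0,0,0,-1,0,0,0,2,-1,-1]
  (.p false [-1,0,1,0,1] [1] (⟨0,[(2,0)]⟩,⟨0,[(22,0),(6,0)]⟩) .k 1 (⟨0,[]⟩,⟨0,[]⟩) .k (.x 0 ⟨5,[(0,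
  1),(0,5),(8,1),(0,1),(7,0),(2,5),(6,4),(1,0),(5,0),(4,3)]⟩ ⟨1,[(2,1),(1,0),(12,0),(2,0),(23,
  0)]⟩)) (.S ⟨1,4,[],[2,0,-1,0,-1],[0,1,1],(⟨0,[(23,0),(6,0)]⟩,⟨0,[(3,0)]⟩),⟨0,[(0,0)]⟩,.k,(.r 0 ⟨0,
  [(1,0)]⟩ ⟨13,[(5,9),(2,9),(9,4),(7,13),(2,3),(8,0),(1,13),(2,1)]⟩),⟨false,0,⟨0,[(26,0),(2,0)]⟩,⟨3,
  [(1,1),(9,0),(0,0),(26,0),(2,0),(0,2)]⟩⟩,⟨true,(-1),⟨0,[(2,0)]⟩,⟨2,[(5,1),(6,0),(2,0),(5,0)]⟩⟩,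
  ⟨true,0,⟨0,[(26,0),(2,0),(10,0)]⟩,⟨0,[(1,0)]⟩⟩,⟨false,0,⟨0,[(2,0),(37,0),(2,0)]⟩,⟨0,[(1,0),(3,0),
  (23,0)]⟩⟩,[.o ⟨false,0,⟨0,[(45,0)]⟩,⟨8,[(5,0),(16,0),(15,1),(4,3)]⟩⟩,.fa ⟨true,0,⟨1,[(28,0),(0,
  0)]⟩,⟨0,[]⟩⟩ ⟨false,0,⟨9,[(1,4),(0,4),(3,3),(3,4),(11,0),(15,0),(0,4),(3,6)]⟩,⟨1,[(5,0),(12,0),(2,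
  0),(23,0)]⟩⟩,.o ⟨false,1,⟨1,[(5,0),(12,0),(2,0),(23,0)]⟩,⟨5,[(1,1),(0,5),(8,1),(0,1),(6,0),(0,0),
  (11,1),(5,0),(4,3)]⟩⟩,.o ⟨false,1,⟨0,[(5,0),(23,0),(15,0)]⟩,⟨0,[(1,0),(0,0),(6,0),(33,0)]⟩⟩]⟩)
  (.I [0,0,0,0,0,1,1] (.C [(0,1),(0,0),(3,0),(20,1),(6,2),(11,1)]) (.C [(0,0),(10,0),(9,0)]))) (.Q
  [0,0,0,0,0,0,0,1,1,-1,0,1] (.p true [0,0,0,0,1] [1] (⟨0,[(23,0)]⟩,⟨0,[(22,0)]⟩) .k 1 (⟨0,[]⟩,⟨0,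
  []⟩) .k .k) (.R ⟨0,false,false,true,[1,0,-1],[2,0,-1,0,-1],[1,0,0,0,0,0,0,-1],(⟨0,[(30,0)]⟩,⟨0,
  [(31,0)]⟩),(⟨0,[(23,0),(6,0)]⟩,⟨0,[(3,0)]⟩),⟨0,[(19,0)]⟩,.k,.k,.k,.k,.k,.k,⟨true,0,⟨0,[]⟩,⟨1,[(28,
  0),(0,0)]⟩⟩,⟨false,1,⟨4,[(5,4),(8,0),(2,0),(19,0),(1,0)]⟩,⟨4,[(6,3),(15,0),(15,0),(4,1)]⟩⟩,⟨true,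
  0,⟨0,[]⟩,⟨0,[(45,0)]⟩⟩,⟨false,1,⟨0,[(5,0)]⟩,⟨4,[(6,3),(15,0),(15,0),(4,1)]⟩⟩,⟨false,0,⟨0,[]⟩,⟨0,
  []⟩⟩,⟨false,0,⟨0,[]⟩,⟨0,[]⟩⟩,[.e ⟨false,0,⟨4,[(10,5),(1,2),(1,0),(2,1),(23,0)]⟩,⟨40,[(0,26),(0,
  13),(3,27),(9,13),(6,0),(3,13),(11,2),(3,6)]⟩⟩ ⟨false,1,⟨0,[(5,0),(8,0)]⟩,⟨0,[(0,0)]⟩⟩,.o ⟨false,
  1,⟨2,[(5,1),(6,0),(2,0),(5,0)]⟩,⟨9,[(0,3),(1,5),(8,1),(26,1),(3,0),(0,0)]⟩⟩,.a ⟨true,0,⟨2,[(11,0),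
  (6,1),(6,0)]⟩,⟨0,[(10,0)]⟩⟩ ⟨true,0,⟨2,[(11,0),(0,0),(1,0),(26,0)]⟩,⟨2,[(1,1),(15,0),(23,0)]⟩⟩
  ⟨false,1,⟨2,[(5,1),(1,0),(2,0),(0,0),(0,0),(2,0)]⟩,⟨0,[(0,0)]⟩⟩,.o ⟨false,0,⟨0,[(29,0)]⟩,⟨4,[(10,
  2),(0,0),(26,0),(3,2)]⟩⟩]⟩) (.I [0,0,0,0,0,0,-1] (.C [(0,0),(0,0),(1,0),(17,0),(11,0),(10,0)])
  (.C [(0,1),(3,0),(0,0),(20,0),(3,0)])))) (.I [0,-1,1,0,0,0,0,-1] (.R ⟨2,true,false,true,[0,1],[-1,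
  0,1,0,1],[1,2,0,0,0,0,0,1],(⟨0,[]⟩,⟨0,[]⟩),(⟨0,[(2,0)]⟩,⟨0,[(22,0),(6,0)]⟩),⟨0,[]⟩,.k,.k,.k,(.r
  (-1) ⟨1,[(4,0),(2,0),(2,0),(1,0),(2,0),(26,0)]⟩ ⟨2,[(16,1),(8,0),(2,0),(11,0)]⟩),.k,.k,⟨true,0,⟨0,
  []⟩,⟨1,[(27,0),(0,0)]⟩⟩,⟨false,0,⟨4,[(5,3),(3,4),(11,0),(15,0),(4,1)]⟩,⟨4,[(4,1),(1,2),(10,1),(6,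
  0),(11,0)]⟩⟩,⟨false,0,⟨2,[(16,1),(8,0),(2,0),(11,0)]⟩,⟨0,[(12,0),(14,0),(14,0)]⟩⟩,⟨true,(-1),⟨0,
  [(5,0),(3,0),(6,0),(1,0),(0,0),(11,1),(11,1)]⟩,⟨0,[(4,0),(7,0)]⟩⟩,⟨true,0,⟨2,[(8,0),(7,0),(0,0),
  (7,1),(10,0)]⟩,⟨0,[(0,0)]⟩⟩,⟨false,0,⟨4,[(5,3),(15,0),(3,4),(11,0),(4,1)]⟩,⟨0,[(1,0)]⟩⟩,[]⟩) (.I
  [0,0,0,0,0,0,-1] (.I [0,0,0,0,0,1,1] (.I [0,0,-1,0,0,1,-1] (.I [0,-1,0,1,0,0,0,-2] (.I [0,-1,0,0,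
  0,1,-1,-1] (.I [0,1,0,0,-1,1,0,0,1] (.C [(0,0),(3,0),(1,0),(0,0),(0,0),(28,1),(11,0)]) (.C [(0,0),
  (8,0),(1,0),(13,0)])) (.C [(0,0),(5,0),(0,0),(0,0),(1,0),(13,0)])) (.C [(0,0),(12,1),(1,0)])) (.C
  [(0,0),(4,0),(0,0),(15,0),(4,0)])) (.C [(0,0),(10,0),(9,0)])) (.C [(0,1),(2,0),(0,0),(20,0),(3,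
  0)])))))))

theorem ok68 : chk K t68 r42 = true := by decide +kernel

noncomputable def t70 : Tre :=
  (.K ⟨0,[0,0,0,0,1],(-1),(-1),(⟨0,[(17,0)]⟩,⟨0,[(16,0)]⟩),.k,(.r 0 ⟨3,[(7,0),(2,0),(19,0),(3,2)]⟩
  ⟨1,[(21,0),(0,0),(10,1),(2,1)]⟩),(.r 0 ⟨1,[(21,0),(0,0),(10,1)]⟩ ⟨1,[(34,1),(0,0),(0,0)]⟩),.k,.k,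
  [⟨0,[(3,0),(10,0)]⟩,⟨0,[(0,0)]⟩,⟨0,[(14,0)]⟩,⟨0,[(0,0),(29,0)]⟩]⟩)

theorem ok70 : chk K t70 r41 = true := by decide +kernel

noncomputable def t72 : Tre :=
  (.Q [0,0,0,0,0,-1,0,0,0,0,0,1] (.ed false [1,-1,0,0,1] .k) (.Q [0,-1,0,0,1,0,1,1,-1,0,1,-1] (.p
  false [0,0,-1,0,1] [] (⟨0,[(0,0),(12,0)]⟩,⟨0,[(16,0),(7,0)]⟩) .k 0 (⟨0,[]⟩,⟨0,[]⟩) .k (.i 0 ⟨0,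
  [(0,0),(12,0)]⟩ ⟨0,[(16,0),(7,0)]⟩)) (.R ⟨0,false,false,true,[1,0,0,0,-1],[1,0,1,0,-1],[1],(⟨0,
  [(17,0)]⟩,⟨0,[(18,0)]⟩),(⟨0,[(17,0),(7,0)]⟩,⟨0,[(1,0),(12,0)]⟩),⟨0,[(1,0),(11,0),(0,0)]⟩,.k,.k,
  (.r (-1) ⟨1,[(35,1),(0,0),(0,0)]⟩ ⟨1,[(22,0),(0,0),(10,1)]⟩),.k,.k,.k,⟨false,0,⟨4,[(4,5),(1,2),(1,
  0),(2,1),(23,0)]⟩,⟨9,[(12,4),(2,2),(0,2),(3,9),(11,0),(4,4)]⟩⟩,⟨true,0,⟨0,[(4,0)]⟩,⟨0,[(23,0)]⟩⟩,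
  ⟨false,0,⟨0,[]⟩,⟨1,[(15,0),(0,0),(20,0)]⟩⟩,⟨true,0,⟨0,[(20,0)]⟩,⟨2,[(6,0),(14,0),(13,0)]⟩⟩,⟨false,
  0,⟨0,[]⟩,⟨0,[]⟩⟩,⟨false,0,⟨0,[]⟩,⟨0,[]⟩⟩,[.o ⟨false,1,⟨1,[(0,0),(14,0),(4,0)]⟩,⟨0,[(4,0),(1,0),(4,
  0),(1,0),(0,0),(1,0),(9,1),(11,1)]⟩⟩,.o ⟨false,1,⟨0,[(0,0)]⟩,⟨2,[(3,2),(2,0),(9,2),(4,0),(13,
  3)]⟩⟩,.a ⟨true,0,⟨1,[(2,1),(19,0),(0,0)]⟩,⟨0,[(16,0)]⟩⟩ ⟨true,0,⟨0,[]⟩,⟨0,[(39,0)]⟩⟩ ⟨false,1,⟨0,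
  [(20,0),(16,0)]⟩,⟨2,[(6,0),(14,0),(13,0)]⟩⟩,.o ⟨false,0,⟨0,[(2,0),(10,0),(0,0),(11,1),(11,1)]⟩,⟨9,
  [(15,0),(0,10),(15,1),(3,4)]⟩⟩]⟩) (.I [0,0,0,0,0,1,1] (.I [0,1,1,0,0,0,0,1] (.I [0,0,-1,0,0,1,-1]
  (.I [0,1,0,0,0,1,1,1] (.C [(0,0),(3,0),(1,0),(10,0),(12,1),(10,0),(0,0)]) (.C [(0,0),(17,0),(5,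
  0)])) (.C [(0,0),(15,0),(5,0)])) (.C [(0,0),(21,0),(2,0)])) (.C [(0,0),(4,0),(9,0)]))) (.Q [0,0,1,
  0,0,0,0,0,2,-1,0,2] (.p true [0,0,0,0,1] [1,0,0,0,-1] (⟨0,[(17,0)]⟩,⟨0,[(16,0)]⟩) .k 2 (⟨0,[(16,
  0)]⟩,⟨0,[(17,0)]⟩) .k (.r 0 ⟨0,[(38,1)]⟩ ⟨0,[(36,0)]⟩)) (.R ⟨0,false,false,true,[0,0,0,0,1],[1,0,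
  0,0,-1],[1,1],(⟨0,[(18,0)]⟩,⟨0,[(17,0)]⟩),(⟨0,[(17,0)]⟩,⟨0,[(18,0)]⟩),⟨0,[(1,0)]⟩,.k,.k,(.r 0 ⟨3,
  [(8,0),(2,0),(19,0),(3,2)]⟩ ⟨1,[(22,0),(0,0),(10,1),(2,1)]⟩),.k,.k,.k,⟨false,0,⟨4,[(8,0),(2,0),
  (19,0),(1,0)]⟩,⟨5,[(0,0),(4,0),(6,0),(2,1),(20,0),(0,2)]⟩⟩,⟨true,0,⟨0,[(2,1),(10,0),(0,0),(11,1),
  (11,1)]⟩,⟨0,[(0,0)]⟩⟩,⟨true,0,⟨0,[]⟩,⟨0,[(39,0)]⟩⟩,⟨false,1,⟨3,[(2,7),(10,3),(0,3),(7,0),(0,0),(2,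
  7),(10,3),(0,5)]⟩,⟨4,[(0,4),(7,0),(2,0),(19,0),(1,0)]⟩⟩,⟨false,0,⟨0,[]⟩,⟨0,[]⟩⟩,⟨false,0,⟨0,[]⟩,
  ⟨0,[]⟩⟩,[.a ⟨true,0,⟨1,[(2,1),(19,0),(0,0)]⟩,⟨0,[(16,0)]⟩⟩ ⟨false,0,⟨4,[(8,0),(2,0),(19,0),(1,
  0)]⟩,⟨5,[(0,0),(4,0),(6,0),(2,1),(20,0),(0,2)]⟩⟩ ⟨true,0,⟨0,[(2,1),(10,0),(0,0),(11,1),(11,1)]⟩,
  ⟨0,[(0,0)]⟩⟩,.o ⟨false,1,⟨11,[(2,9),(12,1),(6,4),(0,4),(8,1),(4,5)]⟩,⟨7,[(0,3),(2,3),(4,0),(2,0),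
  (19,0),(3,2)]⟩⟩,.a ⟨true,0,⟨0,[(16,0)]⟩,⟨1,[(2,1),(19,0),(0,0)]⟩⟩ ⟨false,0,⟨0,[]⟩,⟨5,[(0,0),(4,0),
  (6,0),(2,1),(20,0),(0,2)]⟩⟩ ⟨true,0,⟨0,[(2,1),(10,0),(0,0),(11,1),(11,1)]⟩,⟨4,[(0,4),(7,0),(2,0),
  (19,0),(1,0)]⟩⟩,.a ⟨true,0,⟨1,[(0,0),(4,0),(6,0)]⟩,⟨0,[(2,0)]⟩⟩ ⟨true,0,⟨4,[(8,0),(2,0),(19,0),(1,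
  0)]⟩,⟨1,[(22,0),(0,0)]⟩⟩ ⟨false,1,⟨11,[(2,21),(12,1),(6,4),(0,4),(8,1),(4,5)]⟩,⟨0,[(0,0)]⟩⟩]⟩)
  (.I [0,1,0,0,0,0,0,1] (.Q [0,0,0,0,0,0,0,0,0,0,1,-1] (.ed true [1,0,-1,0,1] (.r 0 ⟨2,[(6,0),(2,0),
  (12,1)]⟩ ⟨0,[(0,0),(37,0)]⟩)) (.R ⟨0,false,false,false,[1,0,-1],[1,0,-1,0,1],[0,1],(⟨0,[(26,0)]⟩,
  ⟨0,[(27,0)]⟩),(⟨0,[(20,0),(5,0)]⟩,⟨0,[(0,0)]⟩),⟨0,[(15,0)]⟩,.k,.k,.k,.k,.k,.k,⟨false,1,⟨1,[(1,1),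
  (36,0),(0,0)]⟩,⟨2,[(7,0),(0,0),(1,0),(26,0)]⟩⟩,⟨true,0,⟨0,[(18,0)]⟩,⟨3,[(2,1),(12,1),(0,1),(7,0),
  (0,0),(2,3),(11,3)]⟩⟩,⟨true,0,⟨0,[(1,0)]⟩,⟨2,[(7,0),(0,0),(1,0),(26,0)]⟩⟩,⟨false,0,⟨0,[(18,0)]⟩,
  ⟨31,[(2,9),(14,11),(6,4),(0,4),(8,1),(4,15)]⟩⟩,⟨false,0,⟨0,[]⟩,⟨0,[]⟩⟩,⟨false,0,⟨0,[]⟩,⟨0,[]⟩⟩,
  [.e ⟨false,0,⟨4,[(10,0),(2,0),(19,0),(1,0)]⟩,⟨1,[(17,0),(0,0),(20,0)]⟩⟩ ⟨false,0,⟨0,[(10,0),(7,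
  0)]⟩,⟨3,[(1,3),(0,1),(12,1),(0,1),(7,0),(0,0),(2,3),(10,3)]⟩⟩,.o ⟨false,0,⟨2,[(8,0),(9,2),(4,0),
  (13,0)]⟩,⟨3,[(1,3),(0,1),(4,1),(7,0),(0,0),(11,1),(5,0),(4,1)]⟩⟩,.a ⟨true,0,⟨2,[(7,0),(6,1),(6,
  0)]⟩,⟨0,[(6,0)]⟩⟩ ⟨true,0,⟨0,[(41,0)]⟩,⟨0,[]⟩⟩ ⟨false,0,⟨2,[(7,0),(0,0),(1,0),(7,2),(18,0)]⟩,⟨3,
  [(1,3),(0,1),(12,1),(0,1),(7,0),(0,0),(2,3),(10,3)]⟩⟩,.o ⟨false,0,⟨0,[(25,0)]⟩,⟨4,[(6,2),(0,0),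
  (26,0),(3,2)]⟩⟩]⟩) (.R ⟨0,false,false,true,[1,0,0,0,-1],[1,0,1,0,-1],[1],(⟨0,[(19,0)]⟩,⟨0,[(20,
  0)]⟩),(⟨0,[(19,0),(7,0)]⟩,⟨0,[(0,0)]⟩),⟨0,[(0,0),(14,0)]⟩,.k,.k,(.r (-1) ⟨1,[(37,1),(0,0),(0,0)]⟩
  ⟨1,[(24,0),(0,0),(10,1)]⟩),.k,.k,.k,⟨false,0,⟨4,[(6,5),(1,2),(1,0),(2,1),(23,0)]⟩,⟨1,[(1,1),(15,
  0),(0,0),(20,0)]⟩⟩,⟨true,0,⟨0,[(6,0)]⟩,⟨0,[(25,0)]⟩⟩,⟨false,0,⟨0,[]⟩,⟨1,[(17,0),(0,0),(20,0)]⟩⟩,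
  ⟨true,0,⟨0,[(22,0)]⟩,⟨2,[(8,0),(14,0),(13,0)]⟩⟩,⟨false,0,⟨0,[]⟩,⟨0,[]⟩⟩,⟨false,0,⟨0,[]⟩,⟨0,[]⟩⟩,
  [.o ⟨false,1,⟨15,[(1,9),(0,4),(4,4),(9,5),(4,5),(11,0),(4,7)]⟩,⟨0,[(6,0),(1,0),(4,0),(1,0),(0,0),
  (1,0),(9,1),(11,1)]⟩⟩,.o ⟨false,1,⟨1,[(1,1),(0,0),(4,0),(7,0),(0,0),(11,1),(10,1)]⟩,⟨2,[(5,2),(2,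
  0),(9,2),(4,0),(13,3)]⟩⟩,.a ⟨true,0,⟨1,[(2,0),(4,0),(6,0)]⟩,⟨0,[(18,0)]⟩⟩ ⟨true,0,⟨0,[]⟩,⟨0,[(41,
  0)]⟩⟩ ⟨false,1,⟨0,[(22,0),(16,0)]⟩,⟨2,[(8,0),(14,0),(13,0)]⟩⟩,.o ⟨false,0,⟨3,[(2,1),(12,1),(0,1),
  (7,0),(0,0),(2,3),(11,3)]⟩,⟨9,[(17,0),(0,10),(15,1),(3,4)]⟩⟩]⟩)) (.I [1,1,0,0,0,0,0,1] (.I [0,0,0,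
  0,0,0,-1,0,-1] (.N [0,0,1,0,1] 0 ⟨0,[(1,0)]⟩ ⟨0,[(2,0)]⟩ (.x (-1) ⟨19,[(7,7),(0,5),(10,19),(0,19),
  (6,19),(7,7),(3,2),(0,0),(1,1)]⟩ ⟨0,[(0,0)]⟩)) (.I [0,0,-1,0,0,1,-1] (.C [(0,1),(0,1),(2,0),(12,
  0),(0,0),(3,1),(7,3),(11,2)]) (.C [(0,0),(16,0),(5,0)]))) (.I [0,0,0,0,0,1,0,0,1] (.I [0,1,1,0,0,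
  0,0,1] (.I [0,0,-1,0,0,1,-1] (.C [(0,0),(2,0),(15,0),(5,0),(5,1),(11,0)]) (.C [(0,0),(17,0),(5,
  0)])) (.C [(0,0),(23,0),(2,0)])) (.C [(0,0),(3,0),(14,0)]))))))

theorem ok72 : chk K t72 r40 = true := by decide +kernel

noncomputable def t77 : Tre :=
  (.I [0,0,0,0,0,0,0,1] (.Q [0,-1,0,1,1,0,1,1,0,-1,1] (.p true [0,0,1] [1] (⟨0,[(20,0)]⟩,⟨0,[(19,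
  0)]⟩) .k 1 (⟨0,[]⟩,⟨0,[]⟩) .k .k) (.R ⟨0,false,false,true,[0,0,1],[1,-1],[1,1],(⟨0,[(21,0)]⟩,⟨0,
  [(20,0)]⟩),(⟨0,[(25,0)]⟩,⟨0,[(26,0)]⟩),⟨0,[(10,0)]⟩,.k,.k,.k,.k,.k,.k,⟨true,0,⟨0,[(1,0),(1,0),(14,
  0)]⟩,⟨0,[(31,0)]⟩⟩,⟨false,0,⟨1,[(8,0),(6,0),(2,0)]⟩,⟨0,[(0,0),(3,0),(26,0)]⟩⟩,⟨true,0,⟨1,[(4,0),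
  (12,0),(0,0)]⟩,⟨0,[(1,0)]⟩⟩,⟨false,0,⟨0,[(5,0)]⟩,⟨0,[(0,0)]⟩⟩,⟨false,0,⟨0,[]⟩,⟨0,[]⟩⟩,⟨false,0,⟨0,
  []⟩,⟨0,[]⟩⟩,[.o ⟨false,0,⟨2,[(2,0),(14,1),(13,1)]⟩,⟨9,[(0,4),(2,3),(2,0),(21,0),(4,2)]⟩⟩,.o
  ⟨false,0,⟨0,[(31,0)]⟩,⟨27,[(0,12),(5,12),(4,7),(0,7),(15,2),(1,1),(2,0)]⟩⟩,.o ⟨false,1,⟨9,[(11,0),
  (0,0),(5,9),(9,1),(3,4)]⟩,⟨3,[(1,1),(1,1),(4,0),(0,0),(0,0),(11,1),(8,1)]⟩⟩,.a ⟨true,0,⟨0,[(18,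
  0)]⟩,⟨0,[(15,0)]⟩⟩ ⟨true,0,⟨4,[(4,0),(2,0),(19,0),(1,0)]⟩,⟨1,[(18,0),(0,0)]⟩⟩ ⟨false,0,⟨0,[(15,0),
  (15,0)]⟩,⟨9,[(0,4),(2,3),(2,0),(11,9),(9,0),(4,2)]⟩⟩]⟩) (.I [0,0,0,0,1,0,0,0,-1] (.I [0,0,1,1,0,0,
  0,-1] (.I [0,0,1,0,0,1,1] (.C [(0,0),(2,0),(0,0),(7,0),(12,1),(6,0),(3,0)]) (.C [(0,0),(12,0),(7,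
  0)])) (.C [(0,0),(4,0),(14,0)])) (.C [(0,0),(11,0),(2,0)]))) (.Q [0,0,-1,0,0,0,-2,0,0,0,-2] (.p
  false [0,0,1] [0,1,-1] (⟨0,[(20,0)]⟩,⟨0,[(19,0)]⟩) .k 2 (⟨0,[(9,0)]⟩,⟨0,[(20,0),(3,0)]⟩) .k (.x
  (-1) ⟨12,[(0,7),(0,3),(7,20),(7,17),(1,4),(1,20),(5,0),(0,17),(1,13),(1,10)]⟩ ⟨0,[(8,1),(5,1),(6,
  1),(11,1)]⟩)) (.Q [0,0,-1,1,0,0,-2,-1,0,0,-2] (.p false [0,0,1] [0,1,-1] (⟨0,[(21,0)]⟩,⟨0,[(20,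
  0)]⟩) .k 2 (⟨0,[(10,0)]⟩,⟨0,[(21,0),(3,0)]⟩) .k (.x (-1) ⟨12,[(1,7),(0,3),(7,20),(7,17),(1,4),(1,
  20),(5,0),(0,17),(1,13),(1,10)]⟩ ⟨2,[(0,1),(18,1),(1,5)]⟩)) (.R ⟨0,false,false,false,[0,0,1],[0,1,
  -1],[0,0,0,0,0,0,0,1],(⟨0,[(22,0)]⟩,⟨0,[(21,0)]⟩),(⟨0,[(11,0)]⟩,⟨0,[(22,0),(3,0)]⟩),⟨0,[(11,0)]⟩,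
  .k,.k,.k,(.r (-1) ⟨17,[(1,7),(1,17),(5,9),(19,1),(3,4),(0,8)]⟩ ⟨0,[(2,0),(1,0),(14,0)]⟩),.k,.k,
  ⟨false,1,⟨1,[(1,1),(1,1),(29,0),(0,0)]⟩,⟨0,[(2,0),(1,0),(14,0)]⟩⟩,⟨true,0,⟨0,[(1,0)]⟩,⟨0,[(19,
  1)]⟩⟩,⟨false,1,⟨1,[(12,0),(0,0),(20,0)]⟩,⟨0,[]⟩⟩,⟨true,0,⟨1,[(0,0),(1,1),(1,0),(15,0)]⟩,⟨0,[(3,
  0)]⟩⟩,⟨false,0,⟨0,[]⟩,⟨0,[]⟩⟩,⟨false,0,⟨0,[]⟩,⟨0,[]⟩⟩,[.e ⟨false,1,⟨17,[(1,3),(7,4),(7,17),(11,0),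
  (3,6),(0,8)]⟩,⟨0,[(2,0)]⟩⟩ ⟨false,0,⟨0,[(0,0)]⟩,⟨29,[(3,19),(2,9),(5,0),(0,0),(5,29),(9,1),(3,14),
  (0,9)]⟩⟩,.o ⟨false,1,⟨4,[(4,3),(2,0),(21,0),(4,2)]⟩,⟨2,[(3,1),(14,0),(13,0)]⟩⟩,.o ⟨false,1,⟨9,
  [(12,0),(0,0),(5,9),(9,1),(3,4)]⟩,⟨2,[(1,0),(18,0)]⟩⟩,.a ⟨true,0,⟨0,[(19,0)]⟩,⟨0,[(16,0)]⟩⟩
  ⟨false,1,⟨1,[(1,0),(1,0),(26,0),(3,1)]⟩,⟨1,[(2,1),(16,0),(0,0)]⟩⟩ ⟨true,0,⟨0,[(0,0)]⟩,⟨2,[(3,1),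
  (14,0),(0,2),(12,0)]⟩⟩]⟩) (.R ⟨0,false,false,false,[0,0,1],[0,1,-1],[0,0,0,0,0,0,0,1],(⟨0,[(22,
  0)]⟩,⟨0,[(21,0)]⟩),(⟨0,[(11,0)]⟩,⟨0,[(22,0),(3,0)]⟩),⟨0,[(11,0)]⟩,.k,.k,.k,(.r (-1) ⟨17,[(1,7),(1,
  17),(5,9),(19,1),(3,4),(0,8)]⟩ ⟨0,[(2,0),(1,0),(14,0)]⟩),.k,.k,⟨false,1,⟨1,[(1,1),(1,1),(29,0),(0,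
  0)]⟩,⟨0,[(2,0),(1,0),(14,0)]⟩⟩,⟨true,0,⟨0,[(1,0)]⟩,⟨0,[(19,1)]⟩⟩,⟨false,1,⟨1,[(12,0),(0,0),(20,
  0)]⟩,⟨0,[]⟩⟩,⟨true,0,⟨2,[(1,0),(0,2),(1,2),(15,0)]⟩,⟨0,[(3,0)]⟩⟩,⟨false,0,⟨0,[]⟩,⟨0,[]⟩⟩,⟨false,0,
  ⟨0,[]⟩,⟨0,[]⟩⟩,[.a ⟨true,0,⟨0,[(4,0)]⟩,⟨0,[(0,0),(15,0)]⟩⟩ ⟨false,1,⟨17,[(1,3),(7,4),(7,17),(11,
  0),(3,6),(0,8)]⟩,⟨0,[(2,0)]⟩⟩ ⟨true,0,⟨2,[(1,0),(2,2),(15,0)]⟩,⟨0,[(0,0)]⟩⟩,.o ⟨false,1,⟨4,[(4,3),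
  (2,0),(21,0),(4,2)]⟩,⟨2,[(3,1),(14,0),(13,0)]⟩⟩,.o ⟨false,1,⟨9,[(12,0),(0,0),(5,9),(9,1),(3,4)]⟩,
  ⟨2,[(1,0),(18,0)]⟩⟩,.e ⟨false,1,⟨1,[(1,0),(1,0),(26,0),(3,1)]⟩,⟨1,[(2,1),(16,0),(0,0)]⟩⟩ ⟨false,1,
  ⟨17,[(1,3),(2,17),(4,4),(19,0),(3,6),(0,8)]⟩,⟨0,[(0,0)]⟩⟩]⟩)) (.Q [0,0,0,0,0,0,-1,0,0,0,-1] (.p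
  false [0,0,1] [] (⟨0,[(21,0)]⟩,⟨0,[(20,0)]⟩) .k 0 (⟨0,[]⟩,⟨0,[]⟩) .k .k) (.R ⟨0,false,false,true,
  [0,1,-1],[0,0,1],[],(⟨0,[(11,0)]⟩,⟨0,[(22,0),(3,0)]⟩),(⟨0,[(22,0)]⟩,⟨0,[(21,0)]⟩),⟨0,[(22,0)]⟩,.k,
  .k,.k,(.r 0 ⟨2,[(1,1),(0,2),(1,2),(15,0)]⟩ ⟨19,[(0,1),(2,15),(4,7),(0,14),(19,2),(0,3),(3,13)]⟩),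
  .k,.k,⟨false,1,⟨0,[(5,0),(28,0)]⟩,⟨0,[(0,0),(16,0)]⟩⟩,⟨true,0,⟨0,[(1,0)]⟩,⟨0,[(0,1)]⟩⟩,⟨false,1,
  ⟨51,[(3,13),(2,1),(1,25),(0,12),(19,2),(2,9),(1,45)]⟩,⟨2,[(1,1),(2,2),(15,0)]⟩⟩,⟨true,0,⟨0,[(3,
  0)]⟩,⟨0,[(4,1),(27,0)]⟩⟩,⟨false,0,⟨0,[]⟩,⟨0,[]⟩⟩,⟨false,0,⟨0,[]⟩,⟨0,[]⟩⟩,[.e ⟨false,1,⟨1,[(12,0),
  (0,0),(19,0)]⟩,⟨0,[]⟩⟩ ⟨false,0,⟨1,[(1,0),(1,0),(26,0)]⟩,⟨3,[(4,2),(1,0),(9,3),(12,0),(2,1),(1,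
  1)]⟩⟩,.o ⟨false,1,⟨9,[(12,0),(0,0),(3,9),(11,1),(4,4)]⟩,⟨0,[(4,0),(27,0)]⟩⟩,.o ⟨false,1,⟨2,[(9,0),
  (6,0),(12,0),(3,0)]⟩,⟨0,[(19,0)]⟩⟩,.a ⟨true,0,⟨0,[(0,0)]⟩,⟨0,[(1,0),(14,0)]⟩⟩ ⟨false,1,⟨1,[(33,0),
  (0,0)]⟩,⟨2,[(1,0),(18,1)]⟩⟩ ⟨true,0,⟨1,[(1,0),(1,0),(26,0)]⟩,⟨0,[(0,0),(3,0),(27,0)]⟩⟩]⟩) (.Q [0,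
  -1,0,-1,0,0,0,0,0,1] (.pp false [-1,1]) (.R ⟨0,false,false,true,[0,1,-1],[0,1],[1],(⟨0,[(12,0)]⟩,
  ⟨0,[(23,0),(3,0)]⟩),(⟨0,[(28,0)]⟩,⟨0,[(27,0)]⟩),⟨0,[(23,0)]⟩,.k,.k,.k,.k,.k,.k,⟨false,1,⟨0,[(3,0),
  (5,0),(25,0)]⟩,⟨2,[(2,0),(18,1),(10,2)]⟩⟩,⟨true,0,⟨0,[(1,0)]⟩,⟨0,[(21,0)]⟩⟩,⟨false,1,⟨31,[(0,4),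
  (3,8),(2,1),(1,15),(0,7),(19,2),(4,25)]⟩,⟨2,[(2,1),(2,2),(15,0)]⟩⟩,⟨true,0,⟨0,[(18,0)]⟩,⟨0,[(5,0),
  (27,0)]⟩⟩,⟨false,0,⟨0,[]⟩,⟨0,[]⟩⟩,⟨false,0,⟨0,[]⟩,⟨0,[]⟩⟩,[.a ⟨true,0,⟨0,[(32,0)]⟩,⟨0,[(0,0)]⟩⟩
  ⟨true,0,⟨0,[]⟩,⟨2,[(2,0),(18,1)]⟩⟩ ⟨false,0,⟨1,[(2,0),(28,0),(0,0)]⟩,⟨4,[(0,0),(6,1),(1,1),(0,0),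
  (6,0),(12,0),(4,2)]⟩⟩,.o ⟨false,1,⟨9,[(13,0),(0,0),(15,1),(1,9),(2,4)]⟩,⟨0,[(33,0)]⟩⟩,.o ⟨false,1,
  ⟨2,[(10,0),(6,0),(12,0),(3,0)]⟩,⟨0,[(20,0)]⟩⟩,.o ⟨false,1,⟨49,[(10,24),(2,16),(0,16),(15,14),(4,
  2),(1,5)]⟩,⟨0,[(1,0)]⟩⟩]⟩) (.Q [0,0,0,0,0,0,1,0,-1,0,1,-1] (.p true [0,0,1] [0,0,0,0,1] (⟨0,[(23,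
  0)]⟩,⟨0,[(22,0)]⟩) .k 2 (⟨0,[(16,0)]⟩,⟨0,[(15,0)]⟩) .k (.r (-1) ⟨1,[(0,0),(3,0),(5,0),(24,1)]⟩ ⟨2,
  [(2,0),(3,0),(12,1)]⟩)) (.R ⟨0,false,false,true,[1,0,-1],[1,0,0,0,-1],[0,1],(⟨0,[(23,0)]⟩,⟨0,[(24,
  0)]⟩),(⟨0,[(16,0)]⟩,⟨0,[(17,0)]⟩),⟨0,[(12,0)]⟩,.k,.k,.k,.k,.k,.k,⟨false,0,⟨4,[(7,0),(2,0),(19,0),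
  (1,0)]⟩,⟨1,[(14,0),(0,0),(20,0)]⟩⟩,⟨true,0,⟨0,[(0,0)]⟩,⟨0,[(15,0),(6,0)]⟩⟩,⟨true,0,⟨1,[(1,0),(3,
  0),(5,0)]⟩,⟨0,[(4,0)]⟩⟩,⟨false,1,⟨1,[(0,1),(0,0),(3,0),(5,0),(24,1)]⟩,⟨0,[(6,0),(8,0),(18,0)]⟩⟩,
  ⟨false,0,⟨0,[]⟩,⟨0,[]⟩⟩,⟨false,0,⟨0,[]⟩,⟨0,[]⟩⟩,[.a ⟨true,0,⟨2,[(0,2),(2,0),(7,1),(6,0)]⟩,⟨0,[(15,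
  0)]⟩⟩ ⟨false,0,⟨4,[(7,0),(2,0),(19,0),(1,0)]⟩,⟨1,[(14,0),(0,0),(20,0)]⟩⟩ ⟨true,0,⟨0,[(0,0)]⟩,⟨0,
  [(15,0),(6,0)]⟩⟩,.o ⟨false,1,⟨15,[(0,9),(10,4),(2,5),(16,0),(4,7)]⟩,⟨0,[(1,0),(13,0),(18,0)]⟩⟩,.e
  ⟨true,0,⟨0,[(38,0)]⟩,⟨0,[]⟩⟩ ⟨true,0,⟨0,[(0,0)]⟩,⟨6,[(1,0),(8,0),(0,0),(3,6),(4,0),(1,3),(7,1)]⟩⟩,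
  .o ⟨false,0,⟨0,[(22,0)]⟩,⟨4,[(2,2),(0,0),(27,0),(3,2)]⟩⟩]⟩) (.Q [0,1,0,-1,0,0,2,2,0,-1,2] (.p
  true [0,0,1] [1,0,-1] (⟨0,[(24,0)]⟩,⟨0,[(23,0)]⟩) .k 2 (⟨0,[(23,0)]⟩,⟨0,[(24,0)]⟩) .k (.r (-1) ⟨0,
  [(1,0),(3,0),(5,0),(24,0)]⟩ ⟨0,[(2,1),(3,1),(27,1)]⟩)) (.Q [0,0,0,0,0,0,0,0,0,-1,2] (.ed false [0,
  0,2] (.r (-1) ⟨0,[(0,0),(11,0),(21,0),(2,0)]⟩ ⟨0,[(3,1),(3,1),(27,1)]⟩)) (.Q [0,0,1,0,0,0,3,0,0,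
  -1,3] (.p true [0,0,1] [1,1,-2] (⟨0,[(26,0)]⟩,⟨0,[(25,0)]⟩) .k 2 (⟨0,[(15,0),(9,0)]⟩,⟨0,[(0,0),
  (29,0)]⟩) (.r 0 ⟨2,[(5,1),(0,2),(1,2),(15,0)]⟩ ⟨1,[(1,1),(11,1),(23,0),(0,0)]⟩) (.x (-1) ⟨4,[(3,
  5),(0,14),(10,3),(9,10),(1,3),(5,0),(2,5),(1,2)]⟩ ⟨1,[(0,2),(12,2)]⟩)) (.K ⟨0,[1,1,-2],0,0,(⟨0,
  [(16,0),(9,0)]⟩,⟨0,[(1,0),(29,0)]⟩),(.r 0 ⟨5,[(0,2),(5,1),(2,8),(1,2),(13,0)]⟩ ⟨1,[(2,1),(11,1),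
  (23,0),(0,0)]⟩),(.r 0 ⟨0,[(0,0),(8,1),(11,0),(15,1)]⟩ ⟨0,[(2,0),(11,0),(21,0),(2,0)]⟩),(.r 0 ⟨2,
  [(6,3),(2,5),(15,1)]⟩ ⟨11,[(2,4),(5,2),(2,3),(1,11),(0,5),(19,0),(4,9)]⟩),(.r 0 ⟨0,[(0,0),(8,1),
  (1,0)]⟩ ⟨1,[(2,2),(1,0),(9,1),(6,1),(17,1)]⟩),.k,[⟨0,[(0,0)]⟩,⟨0,[(14,0)]⟩,⟨0,[(2,0)]⟩,⟨5,[(6,1),
  (2,2),(1,2),(0,5),(1,0),(6,1)]⟩]⟩) (.I [0,0,0,0,0,1,1] (.C [(0,1),(0,0),(0,0),(3,0),(22,1),(11,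
  0)]) (.C [(0,0),(5,0),(10,0)]))) (.Q [0,-1,0,0,0,0,-2,-2,0,0,-2] (.p false [0,0,1] [0,1,-1] (⟨0,
  [(26,0)]⟩,⟨0,[(25,0)]⟩) .k 2 (⟨0,[(15,0)]⟩,⟨0,[(26,0),(3,0)]⟩) .k (.r (-1) ⟨0,[(1,0),(11,0),(21,
  0),(2,0)]⟩ ⟨0,[(4,1),(3,1),(27,1)]⟩)) (.R ⟨0,false,false,true,[0,0,1],[0,0,2],[1,1],(⟨0,[(27,0)]⟩,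
  ⟨0,[(26,0)]⟩),(⟨0,[(27,1)]⟩,⟨0,[(1,0)]⟩),⟨0,[(16,0)]⟩,.k,.k,.k,.k,.k,.k,⟨false,0,⟨5,[(0,4),(4,9),
  (4,2),(2,0),(21,0)]⟩,⟨0,[(2,0),(11,0),(21,0),(2,0)]⟩⟩,⟨true,0,⟨0,[(5,0)]⟩,⟨0,[(25,0)]⟩⟩,⟨false,0,
  ⟨0,[(7,0)]⟩,⟨1,[(2,0),(11,0),(21,0),(2,1)]⟩⟩,⟨true,0,⟨0,[(22,0)]⟩,⟨2,[(0,0),(22,0)]⟩⟩,⟨false,0,⟨0,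
  []⟩,⟨0,[]⟩⟩,⟨false,0,⟨0,[]⟩,⟨0,[]⟩⟩,[.o ⟨false,1,⟨9,[(17,0),(0,0),(3,19),(11,1),(4,4)]⟩,⟨0,[(0,
  0)]⟩⟩,.o ⟨false,1,⟨0,[(2,0),(33,0),(2,0)]⟩,⟨2,[(0,1),(22,1)]⟩⟩,.e ⟨false,0,⟨0,[]⟩,⟨1,[(17,0),(0,
  0),(20,0)]⟩⟩ ⟨false,1,⟨1,[(2,0),(11,0),(7,1),(13,0),(2,1)]⟩,⟨0,[(0,0),(4,0)]⟩⟩,.a ⟨true,0,⟨0,[(24,
  0)]⟩,⟨0,[(21,0)]⟩⟩ ⟨true,0,⟨4,[(10,0),(2,0),(19,0),(1,0)]⟩,⟨2,[(6,0),(18,1)]⟩⟩ ⟨false,1,⟨1,[(2,0),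
  (5,0),(5,0),(20,1),(3,1)]⟩,⟨2,[(0,2),(5,1),(18,0)]⟩⟩]⟩) (.I [1,-1,0,0,1,0,0,2] (.I [0,0,-1,-1,0,0,
  0,-2] (.Q [0,0,1,0,0,0,-2,0,0,0,-2] (.p false [0,0,1] [0,1,-1] (⟨0,[(29,0)]⟩,⟨0,[(28,0)]⟩) .k 2
  (⟨0,[(18,0)]⟩,⟨0,[(29,0),(3,0)]⟩) .k (.r (-1) ⟨0,[(1,0),(41,0)]⟩ ⟨8,[(0,5),(7,3),(2,5),(15,1)]⟩))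
  (.R ⟨0,false,false,true,[1,0,-2],[1,0,-1],[1],(⟨0,[(4,0)]⟩,⟨0,[(30,1)]⟩),(⟨0,[(29,0)]⟩,⟨0,[(30,
  0)]⟩),⟨0,[(18,0),(11,0)]⟩,.k,.k,(.r 0 ⟨0,[(1,0)]⟩ ⟨1,[(0,0),(1,1),(6,0),(29,1)]⟩),.k,.k,.k,⟨false,
  1,⟨2,[(2,0),(13,0),(21,0),(3,1)]⟩,⟨5,[(1,0),(7,1),(5,0),(10,2),(9,0)]⟩⟩,⟨true,0,⟨0,[(8,0)]⟩,⟨0,
  [(28,0)]⟩⟩,⟨false,1,⟨0,[(2,0)]⟩,⟨5,[(0,0),(0,3),(7,2),(2,3)]⟩⟩,⟨true,0,⟨0,[(25,0)]⟩,⟨2,[(0,0),(0,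
  0),(10,0)]⟩⟩,⟨false,0,⟨0,[]⟩,⟨0,[]⟩⟩,⟨false,0,⟨0,[]⟩,⟨0,[]⟩⟩,[.o ⟨false,0,⟨0,[(26,0)]⟩,⟨1,[(5,0),
  (1,0),(34,1)]⟩⟩,.o ⟨false,0,⟨2,[(0,0),(0,0),(10,0)]⟩,⟨39,[(2,18),(0,0),(5,18),(26,8),(0,7),(3,
  4)]⟩⟩,.a ⟨true,0,⟨0,[(17,0)]⟩,⟨0,[(8,1)]⟩⟩ ⟨true,0,⟨0,[]⟩,⟨0,[(44,0)]⟩⟩ ⟨false,0,⟨2,[(1,0),(6,1),
  (0,0),(2,0)]⟩,⟨19,[(2,10),(11,0),(0,0),(1,8),(19,1),(4,4)]⟩⟩,.o ⟨false,0,⟨0,[(0,0)]⟩,⟨4,[(8,7),(0,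
  0),(27,0),(3,2)]⟩⟩]⟩) (.I [0,0,0,0,1,0,0,0,-1] (.I [0,1,-1,0,0,0,0,1] (.I [0,1,0,2] (.I [0,0,0,0,
  0,1,-1,0,1] (.I [0,0,-1,0,0,1,-1] (.C [(0,1),(4,0),(3,1),(13,1),(12,3),(11,2)]) (.C [(0,0),(22,0),
  (5,0)])) (.C [(0,0),(9,0),(11,0),(3,0)])) (.C [(0,0),(5,0),(8,1)])) (.C [(0,0),(6,0),(6,0),(11,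
  0)])) (.C [(0,0),(20,0),(2,0)]))) (.I [0,0,0,0,0,1,1] (.C [(0,0),(0,0),(6,1),(3,1),(5,0),(5,0),(6,
  1),(8,2)]) (.C [(0,0),(3,0),(3,0),(9,0)]))) (.I [0,0,0,0,1,0,0,0,-1] (.I [0,1,0,2] (.I [0,1,-1,0,
  0,0,0,1] (.I [0,0,0,0,0,1,-1,0,1] (.I [0,0,-1,0,0,1,-1] (.C [(0,1),(4,0),(0,0),(0,1),(13,1),(12,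
  3),(10,0),(0,1)]) (.C [(0,0),(20,0),(5,0)])) (.C [(0,0),(7,0),(11,0),(3,0)])) (.C [(0,0),(5,0),(6,
  0),(11,0)])) (.C [(0,0),(2,0),(8,1)])) (.C [(0,0),(18,0),(2,0)]))))) (.Q [0,0,1,0,-1,0,-1,0,1,0,
  -1,1] (.p false [0,0,1] [0,0,0,0,1] (⟨0,[(25,0)]⟩,⟨0,[(24,0)]⟩) .k 2 (⟨0,[(18,0)]⟩,⟨0,[(17,0)]⟩)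
  .k (.r (-1) ⟨1,[(2,0),(3,0),(5,0),(24,1)]⟩ ⟨2,[(4,0),(3,0),(12,1)]⟩)) (.K ⟨0,[0,0,0,0,1],(-1),
  (-1),(⟨0,[(19,0)]⟩,⟨0,[(18,0)]⟩),.k,(.r 0 ⟨3,[(9,0),(2,0),(19,0),(3,2)]⟩ ⟨2,[(5,0),(18,1),(10,2),
  (2,2)]⟩),(.r 0 ⟨2,[(5,0),(18,1),(10,2)]⟩ ⟨1,[(36,1),(0,0),(0,0)]⟩),.k,.k,[⟨0,[(4,0),(11,0)]⟩,⟨0,
  [(0,0),(3,0)]⟩,⟨0,[(16,0)]⟩,⟨3,[(0,3),(4,0),(1,0),(1,1),(22,1),(1,0)]⟩]⟩) (.I [0,1,-2,-1,0,0,0,1]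
  (.I [1,1,-1,0,0,0,0,1] (.Q [0,0,0,0,0,0,0,0,0,-1,2] (.ed false [0,0,2] (.r (-1) ⟨0,[(5,0),(3,0),
  (5,0),(24,0)]⟩ ⟨0,[(1,1),(1,1),(2,3),(9,1),(0,1),(11,3),(11,3)]⟩)) (.Q [0,0,1,0,0,0,2,0,0,-1,2]
  (.p true [0,0,1] [1,0,-1] (⟨0,[(29,0)]⟩,⟨0,[(28,0)]⟩) .k 2 (⟨0,[(28,0)]⟩,⟨0,[(29,0)]⟩) .k (.r
  (-1) ⟨0,[(6,0),(3,0),(5,0),(24,0)]⟩ ⟨0,[(0,1),(1,1),(1,1),(2,3),(10,3),(11,3),(11,3)]⟩)) (.R ⟨0,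
  false,false,false,[0,0,1],[1,0,-1],[1],(⟨0,[(30,0)]⟩,⟨0,[(29,0)]⟩),(⟨0,[(29,0)]⟩,⟨0,[(30,0)]⟩),⟨0,
  [(19,0)]⟩,.k,.k,.k,.k,.k,.k,⟨false,1,⟨13,[(2,3),(14,4),(7,9),(11,0),(3,4),(0,6)]⟩,⟨0,[(0,0),(2,0),
  (1,0),(37,0)]⟩⟩,⟨true,0,⟨0,[(17,0)]⟩,⟨0,[(0,0)]⟩⟩,⟨true,0,⟨0,[(10,0)]⟩,⟨1,[(7,0),(3,0),(5,0)]⟩⟩,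
  ⟨false,0,⟨0,[(5,0),(34,0)]⟩,⟨0,[(7,0),(3,0),(30,0)]⟩⟩,⟨false,0,⟨0,[]⟩,⟨0,[]⟩⟩,⟨false,0,⟨0,[]⟩,⟨0,
  []⟩⟩,[.o ⟨false,0,⟨0,[(12,0),(27,0)]⟩,⟨9,[(20,0),(0,0),(3,9),(11,1),(4,4)]⟩⟩,.e ⟨false,1,⟨1,[(41,
  0),(0,0)]⟩,⟨0,[(44,0)]⟩⟩ ⟨false,1,⟨47,[(5,15),(0,5),(7,15),(2,20),(2,5),(16,0),(3,23),(0,15)]⟩,⟨0,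
  [(0,0),(1,0)]⟩⟩,.e ⟨true,0,⟨0,[]⟩,⟨0,[(44,0)]⟩⟩ ⟨true,0,⟨3,[(5,0),(8,0),(2,1),(8,0)]⟩,⟨0,[(0,0),
  (1,0)]⟩⟩,.a ⟨true,0,⟨0,[(27,0)]⟩,⟨0,[(24,0)]⟩⟩ ⟨false,1,⟨1,[(41,0),(0,0)]⟩,⟨2,[(9,0),(18,1)]⟩⟩
  ⟨true,0,⟨7,[(3,3),(1,4),(8,0),(2,1),(8,0)]⟩,⟨5,[(0,2),(6,2),(1,0),(1,2),(16,1)]⟩⟩]⟩) (.I [0,0,0,1,
  0,0,0,-1] (.I [0,0,0,0,0,1,1] (.C [(0,1),(1,0),(0,0),(29,1),(11,0)]) (.C [(0,0),(9,0),(10,0)]))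
  (.C [(0,0),(8,0),(3,0)]))) (.Q [0,1,0,0,-1,0,-2,-2,0,0,-2] (.p false [0,0,1] [0,1,-1] (⟨0,[(29,
  0)]⟩,⟨0,[(28,0)]⟩) .k 2 (⟨0,[(18,0)]⟩,⟨0,[(29,0),(3,0)]⟩) .k (.r (-1) ⟨0,[(6,0),(3,0),(5,0),(24,
  0)]⟩ ⟨0,[(0,1),(1,1),(1,1),(2,3),(9,3),(12,3),(11,3)]⟩)) (.R ⟨0,false,false,false,[0,0,1],[0,0,2],
  [1],(⟨0,[(30,0)]⟩,⟨0,[(29,0)]⟩),(⟨0,[(30,1)]⟩,⟨0,[(1,0)]⟩),⟨0,[(19,0)]⟩,.k,.k,.k,.k,.k,.k,⟨false,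
  0,⟨1,[(0,1),(7,3),(32,0),(0,0)]⟩,⟨0,[(7,0),(3,0),(5,0),(24,0)]⟩⟩,⟨true,0,⟨0,[(8,0)]⟩,⟨0,[(28,
  0)]⟩⟩,⟨true,0,⟨0,[(10,0)]⟩,⟨1,[(7,0),(3,0),(5,0)]⟩⟩,⟨false,1,⟨0,[(25,0),(16,0)]⟩,⟨22,[(0,3),(4,4),
  (8,4),(22,1),(6,0)]⟩⟩,⟨false,0,⟨0,[]⟩,⟨0,[]⟩⟩,⟨false,0,⟨0,[]⟩,⟨0,[]⟩⟩,[.o ⟨false,1,⟨0,[(7,0),(3,
  0),(30,0)]⟩,⟨22,[(0,7),(4,9),(8,9),(22,3),(6,1)]⟩⟩,.o ⟨false,2,⟨9,[(20,0),(0,0),(3,19),(11,1),(4,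
  14)]⟩,⟨0,[(0,0)]⟩⟩,.e ⟨true,0,⟨0,[]⟩,⟨0,[(44,0)]⟩⟩ ⟨true,1,⟨1,[(7,0),(3,0),(5,0),(7,1),(16,1)]⟩,
  ⟨0,[(0,0),(7,0)]⟩⟩,.a ⟨true,0,⟨0,[(27,0)]⟩,⟨0,[(24,0)]⟩⟩ ⟨false,1,⟨1,[(41,0),(0,0)]⟩,⟨2,[(9,0),
  (18,1)]⟩⟩ ⟨true,1,⟨0,[(2,0),(22,0),(16,0)]⟩,⟨2,[(0,2),(8,1),(18,0)]⟩⟩]⟩) (.Q [0,-1,0,0,1,0,1,1,0,
  -1,1] (.p true [0,0,1] [1] (⟨0,[(30,0)]⟩,⟨0,[(29,0)]⟩) .k 1 (⟨0,[]⟩,⟨0,[]⟩) .k .k) (.I [0,-1,1,0,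
  1,0,0,2] (.Q [0,0,1,0,0,0,-2,0,0,0,-2] (.p false [0,0,1] [0,1,-1] (⟨0,[(32,0)]⟩,⟨0,[(31,0)]⟩) .k
  2 (⟨0,[(21,0)]⟩,⟨0,[(32,0),(3,0)]⟩) .k (.r (-1) ⟨6,[(0,5),(3,1),(33,1),(4,0)]⟩ ⟨0,[(3,1),(1,1),(1,
  1),(2,3),(9,3),(12,3),(11,3)]⟩)) (.R ⟨0,false,false,true,[1,0,-2],[1,0,-1],[0,0,1],(⟨0,[(4,0)]⟩,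
  ⟨0,[(33,1)]⟩),(⟨0,[(32,0)]⟩,⟨0,[(33,0)]⟩),⟨0,[(21,0),(11,0)]⟩,.k,.k,(.r 0 ⟨1,[(6,0),(1,0),(2,2),
  (1,1),(1,0),(5,0),(0,0),(11,1),(8,2)]⟩ ⟨0,[(1,0),(40,0)]⟩),.k,.k,.k,⟨false,1,⟨3,[(1,1),(42,0),(0,
  0)]⟩,⟨0,[(16,0)]⟩⟩,⟨true,0,⟨0,[(11,0)]⟩,⟨0,[(31,0)]⟩⟩,⟨false,1,⟨0,[(1,0)]⟩,⟨1,[(6,0),(1,0),(2,2),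
  (1,1),(1,0),(5,0),(0,0),(11,1),(8,0)]⟩⟩,⟨true,0,⟨0,[(28,0)]⟩,⟨0,[(15,0),(27,0)]⟩⟩,⟨false,0,⟨0,[]⟩,
  ⟨0,[]⟩⟩,⟨false,0,⟨0,[]⟩,⟨0,[]⟩⟩,[.o ⟨false,0,⟨0,[(29,0)]⟩,⟨0,[(2,0)]⟩⟩,.o ⟨false,0,⟨0,[(15,0),(27,
  0)]⟩,⟨39,[(1,8),(1,10),(8,8),(26,9),(0,7),(3,3)]⟩⟩,.a ⟨true,0,⟨0,[(20,0)]⟩,⟨0,[(11,1)]⟩⟩ ⟨true,0,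
  ⟨1,[(0,0),(11,0)]⟩,⟨4,[(6,0),(9,0),(22,0),(1,0)]⟩⟩ ⟨false,0,⟨0,[(11,0),(1,0)]⟩,⟨8,[(0,1),(0,3),(0,
  0),(24,5),(12,0),(4,1)]⟩⟩,.o ⟨false,0,⟨0,[(0,0)]⟩,⟨4,[(11,7),(0,0),(27,0),(3,2)]⟩⟩]⟩) (.I [0,0,0,
  0,1,0,0,0,-1] (.I [0,0,0,0,0,1,-1,0,1] (.I [0,0,-1,0,0,1,-1] (.C [(0,1),(2,0),(3,1),(16,1),(12,3),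
  (11,2)]) (.C [(0,0),(23,0),(5,0)])) (.C [(0,0),(10,0),(11,0),(3,0)])) (.C [(0,0),(7,0),(18,0),(4,
  0)]))) (.I [0,0,0,0,1,0,0,0,-1] (.I [0,0,0,0,0,1,-1,0,1] (.I [0,0,-1,0,0,1,-1] (.C [(0,1),(2,0),
  (1,0),(0,1),(16,1),(12,3),(11,2)]) (.C [(0,0),(22,0),(5,0)])) (.C [(0,0),(9,0),(11,0),(3,0)]))
  (.C [(0,0),(6,0),(18,0),(4,0)]))) (.I [0,0,0,0,0,1,1] (.C [(0,0),(0,2),(0,0),(0,0),(1,0),(3,0),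
  (10,2),(12,3),(10,1),(0,1)]) (.C [(0,0),(2,0),(6,0),(9,0)]))))) (.R ⟨0,false,false,true,[0,1,-1],
  [0,0,1],[0,0,1],(⟨0,[(17,0)]⟩,⟨0,[(28,0),(3,0)]⟩),(⟨0,[(28,0)]⟩,⟨0,[(27,0)]⟩),⟨0,[(28,0)]⟩,.k,.k,
  .k,(.r 0 ⟨3,[(0,2),(6,1),(2,1),(0,0),(1,1)]⟩ ⟨13,[(1,5),(3,0),(3,10),(5,10),(19,1),(0,1),(3,9)]⟩),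
  .k,.k,⟨true,0,⟨0,[(0,0)]⟩,⟨1,[(5,0),(3,0),(5,0)]⟩⟩,⟨false,0,⟨0,[(6,1)]⟩,⟨15,[(4,1),(10,14),(2,1),
  (16,2),(3,7)]⟩⟩,⟨false,1,⟨25,[(9,13),(2,1),(2,12),(19,2),(2,9),(1,19)]⟩,⟨0,[(6,0),(3,0)]⟩⟩,⟨true,
  0,⟨0,[(9,0)]⟩,⟨0,[(10,1),(27,0)]⟩⟩,⟨false,0,⟨0,[]⟩,⟨0,[]⟩⟩,⟨false,0,⟨0,[]⟩,⟨0,[]⟩⟩,[.a ⟨true,0,⟨0,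
  [(23,0)]⟩,⟨0,[(0,0),(21,0)]⟩⟩ ⟨true,0,⟨2,[(7,0),(18,1)]⟩,⟨0,[]⟩⟩ ⟨false,0,⟨1,[(7,0),(1,0),(26,
  0)]⟩,⟨2,[(3,0),(8,0),(9,2),(12,0),(4,0)]⟩⟩,.o ⟨false,1,⟨9,[(18,0),(0,0),(3,9),(11,1),(4,4)]⟩,⟨0,
  [(10,0),(27,0)]⟩⟩,.o ⟨false,1,⟨2,[(15,0),(6,0),(12,0),(3,0)]⟩,⟨0,[(25,0)]⟩⟩,.o ⟨false,1,⟨38,[(4,
  16),(10,10),(2,16),(16,9),(4,1),(1,3)]⟩,⟨0,[(6,0)]⟩⟩]⟩)) (.I [1,0,1,1] (.Q [0,-1,0,-1,0,0,-1,-1,0,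
  1,-1] (.p false [0,0,1] [1] (⟨0,[(28,0)]⟩,⟨0,[(27,0)]⟩) .k 1 (⟨0,[]⟩,⟨0,[]⟩) .k .k) (.R ⟨0,false,
  false,false,[0,0,1],[1,-1],[1],(⟨0,[(29,0)]⟩,⟨0,[(28,0)]⟩),(⟨0,[(33,0)]⟩,⟨0,[(34,0)]⟩),⟨0,[(18,
  0)]⟩,.k,.k,.k,.k,.k,.k,⟨true,0,⟨0,[(1,0)]⟩,⟨0,[(39,0)]⟩⟩,⟨false,0,⟨2,[(8,0),(7,1),(6,0)]⟩,⟨4,[(7,
  2),(0,0),(27,0),(3,2)]⟩⟩,⟨true,0,⟨0,[(9,0)]⟩,⟨1,[(6,0),(3,0),(5,0)]⟩⟩,⟨false,0,⟨0,[(0,0)]⟩,⟨5,[(1,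
  3),(4,0),(3,2),(25,0),(0,3),(3,3)]⟩⟩,⟨false,0,⟨0,[]⟩,⟨0,[]⟩⟩,⟨false,0,⟨0,[]⟩,⟨0,[]⟩⟩,[.o ⟨false,0,
  ⟨0,[(39,0)]⟩,⟨9,[(19,0),(0,0),(15,1),(1,9),(2,4)]⟩⟩,.o ⟨false,1,⟨14,[(10,4),(2,9),(5,0),(0,0),(15,
  1),(4,9)]⟩,⟨0,[(6,0)]⟩⟩,.e ⟨true,0,⟨0,[]⟩,⟨0,[(43,0)]⟩⟩ ⟨true,0,⟨3,[(0,0),(9,0),(2,0),(2,1),(22,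
  0)]⟩,⟨0,[(6,0),(0,0)]⟩⟩,.a ⟨true,0,⟨0,[(26,0)]⟩,⟨0,[(23,0)]⟩⟩ ⟨false,1,⟨1,[(40,0),(0,0)]⟩,⟨2,[(8,
  0),(18,1)]⟩⟩ ⟨true,0,⟨10,[(0,4),(9,0),(2,0),(1,3),(0,1),(6,2)]⟩,⟨2,[(6,2),(1,1),(18,0)]⟩⟩]⟩) (.I
  [0,0,0,0,0,1,1] (.I [0,0,0,0,1,0,0,0,-1] (.I [0,0,0,0,0,1,-1,0,1] (.I [0,0,0,2,0,0,0,-1] (.I [0,0,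
  -1,0,0,1,-1] (.C [(0,0),(3,0),(0,0),(1,0),(20,0),(6,1),(8,1)]) (.C [(0,0),(21,0),(5,0)])) (.C [(0,
  0),(3,0),(3,0),(2,0)])) (.C [(0,0),(7,0),(11,0),(3,0)])) (.C [(0,0),(4,0),(18,0),(4,0)])) (.C [(0,
  0),(7,0),(10,0)]))) (.R ⟨2,true,false,false,[0,1],[1,-1],[0,0,1],(⟨0,[]⟩,⟨0,[]⟩),(⟨0,[(32,0)]⟩,⟨0,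
  [(33,0)]⟩),⟨0,[]⟩,.k,.k,.k,(.r (-1) ⟨4,[(1,3),(2,1),(13,1),(4,3),(2,1),(10,5),(2,2)]⟩ ⟨0,[(0,
  1)]⟩),.k,.k,⟨true,0,⟨1,[(1,1),(3,0),(3,0),(5,0)]⟩,⟨0,[(0,0)]⟩⟩,⟨false,0,⟨0,[(7,0),(7,0)]⟩,⟨4,[(0,
  3),(34,0),(0,3),(2,0),(0,1)]⟩⟩,⟨true,0,⟨0,[(38,0)]⟩,⟨0,[(37,0)]⟩⟩,⟨false,0,⟨1,[(0,5),(0,3),(7,1),
  (5,0),(0,0),(0,0),(4,1),(6,1)]⟩,⟨0,[(5,0),(31,0),(2,0)]⟩⟩,⟨false,1,⟨1,[(18,0),(0,0),(20,0)]⟩,⟨0,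
  []⟩⟩,⟨true,0,⟨3,[(1,0),(5,0),(1,0),(2,0),(9,2),(15,2)]⟩,⟨0,[(5,0)]⟩⟩,[]⟩))))))))))

theorem ok77 : chk K t77 r36 = true := by decide +kernel

noncomputable def t80 : Tre :=
  (.I [0,0,1,1] (.Q [0,0,0,0,0,0,-1,0,0,0,-1] (.p false [0,0,1] [] (⟨0,[(18,0)]⟩,⟨0,[(17,0)]⟩) .k 0
  (⟨0,[]⟩,⟨0,[]⟩) .k .k) (.I [0,1,0,-1,0,0,0,-1] (.R ⟨0,false,false,true,[0,0,1],[1,-1],[0,1,0,-1],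
  (⟨0,[(20,0)]⟩,⟨0,[(19,0)]⟩),(⟨0,[(24,0)]⟩,⟨0,[(25,0)]⟩),⟨0,[(9,0)]⟩,.k,.k,.k,.k,.k,.k,⟨true,0,⟨1,
  [(17,0),(0,0)]⟩,⟨0,[]⟩⟩,⟨false,0,⟨1,[(7,0),(6,0),(2,0)]⟩,⟨3,[(8,3),(0,3),(7,3),(3,7),(6,5),(1,5),
  (0,0),(0,2)]⟩⟩,⟨true,0,⟨0,[(0,0)]⟩,⟨0,[(3,0),(24,0)]⟩⟩,⟨false,0,⟨0,[(4,0)]⟩,⟨15,[(3,11),(2,3),(1,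
  10),(0,10),(7,15),(3,21),(5,0),(0,19),(3,13)]⟩⟩,⟨false,0,⟨0,[]⟩,⟨0,[]⟩⟩,⟨false,0,⟨0,[]⟩,⟨0,[]⟩⟩,
  [.o ⟨false,0,⟨5,[(0,2),(5,0),(8,1),(2,1),(11,1)]⟩,⟨7,[(2,3),(5,2),(0,2),(11,5),(5,0),(0,3),(3,
  5)]⟩⟩,.o ⟨false,0,⟨0,[(30,0)]⟩,⟨9,[(10,0),(0,0),(15,1),(1,9),(2,4)]⟩⟩,.o ⟨false,1,⟨9,[(10,0),(0,
  0),(5,9),(9,1),(3,4)]⟩,⟨0,[(1,0)]⟩⟩,.a ⟨true,0,⟨0,[(17,0)]⟩,⟨0,[(14,0)]⟩⟩ ⟨true,0,⟨1,[(0,0),(5,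
  0)]⟩,⟨0,[(2,0)]⟩⟩ ⟨false,0,⟨0,[(14,0),(15,0)]⟩,⟨7,[(2,3),(5,2),(0,2),(7,7),(3,5),(5,0),(0,3),(3,
  5)]⟩⟩]⟩) (.I [0,-1,0,-1,1,0,0,-1] (.Q [0,1,0,1,0,0,0,0,0,-1] (.pp true [-1,1]) (.R ⟨0,false,false,
  false,[0,0,1],[1,-1],[0,0,0,-1],(⟨0,[(22,0)]⟩,⟨0,[(21,0)]⟩),(⟨0,[(26,0)]⟩,⟨0,[(27,0)]⟩),⟨0,[(11,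
  0)]⟩,.k,.k,.k,.k,.k,.k,⟨true,0,⟨1,[(19,0),(0,0)]⟩,⟨0,[]⟩⟩,⟨false,0,⟨1,[(9,0),(6,0),(2,0)]⟩,⟨3,
  [(10,3),(0,3),(7,3),(3,7),(6,5),(1,5),(0,0),(0,2)]⟩⟩,⟨false,1,⟨0,[(1,0)]⟩,⟨5,[(0,0),(1,3),(6,0),
  (7,1),(13,0)]⟩⟩,⟨true,0,⟨0,[(6,0)]⟩,⟨1,[(0,1),(1,0),(5,0),(10,1)]⟩⟩,⟨false,0,⟨0,[]⟩,⟨0,[]⟩⟩,
  ⟨false,0,⟨0,[]⟩,⟨0,[]⟩⟩,[.o ⟨false,0,⟨0,[(32,0)]⟩,⟨9,[(12,0),(0,0),(15,1),(1,9),(2,4)]⟩⟩,.o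
  ⟨false,1,⟨37,[(1,30),(3,13),(2,6),(0,4),(7,9),(11,0),(4,4)]⟩,⟨0,[(0,0)]⟩⟩,.o ⟨false,1,⟨19,[(1,1),
  (15,1),(1,17),(9,3),(1,1),(1,8),(0,0)]⟩,⟨0,[(3,0)]⟩⟩,.a ⟨true,0,⟨0,[(19,0)]⟩,⟨0,[(16,0)]⟩⟩ ⟨false,
  1,⟨1,[(1,0),(6,0),(25,0)]⟩,⟨0,[(4,0)]⟩⟩ ⟨true,0,⟨0,[(16,0),(15,0)]⟩,⟨0,[(0,0),(18,0)]⟩⟩]⟩) (.I [0,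
  0,0,0,1,0,0,0,-1] (.I [0,0,0,0,0,1,-1,-1] (.C [(0,0),(3,0),(8,0),(7,0),(3,1),(6,0),(1,1)]) (.C
  [(0,0),(1,0),(6,0),(2,0)])) (.C [(0,0),(12,0),(2,0)]))) (.I [0,0,0,0,1,0,0,0,-1] (.I [0,0,1,0,0,1,
  1] (.C [(0,0),(1,0),(4,0),(3,0),(12,1),(6,0),(1,0),(1,0)]) (.C [(0,0),(11,0),(7,0)])) (.C [(0,0),
  (11,0),(2,0)])))) (.I [0,0,0,0,0,1,1] (.I [0,0,0,0,1,0,0,0,-1] (.I [0,1,0,1,0,0,0,-1] (.C [(0,0),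
  (1,0),(2,0),(4,0),(5,0),(6,1),(8,0)]) (.C [(0,0),(2,0),(3,0)])) (.C [(0,0),(10,0),(2,0)])) (.C
  [(0,0),(0,0),(7,0)]))) (.R ⟨0,false,false,true,[0,0,1],[1,-1],[0,1,1],(⟨0,[(18,0)]⟩,⟨0,[(17,0)]⟩),
  (⟨0,[(22,0)]⟩,⟨0,[(23,0)]⟩),⟨0,[(7,0)]⟩,.k,.k,.k,.k,.k,.k,⟨true,0,⟨0,[(1,0),(1,0),(11,0)]⟩,⟨0,[(0,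
  0)]⟩⟩,⟨false,0,⟨1,[(5,0),(6,0),(2,0)]⟩,⟨4,[(0,3),(14,4),(9,0),(0,3),(2,0),(0,1)]⟩⟩,⟨true,0,⟨0,
  [(14,0),(0,0)]⟩,⟨0,[(0,0),(0,0),(24,0)]⟩⟩,⟨false,0,⟨0,[(2,0)]⟩,⟨7,[(0,3),(0,7),(4,2),(0,2),(7,7),
  (3,5),(5,0),(0,11),(3,5)]⟩⟩,⟨false,0,⟨0,[]⟩,⟨0,[]⟩⟩,⟨false,0,⟨0,[]⟩,⟨0,[]⟩⟩,[.o ⟨false,0,⟨0,[(28,
  0),(3,0)]⟩,⟨0,[(6,0),(0,0),(11,1),(6,0),(3,0),(0,0)]⟩⟩,.o ⟨false,0,⟨0,[(28,0)]⟩,⟨9,[(8,0),(0,0),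
  (15,1),(1,9),(2,4)]⟩⟩,.o ⟨false,1,⟨9,[(8,0),(0,0),(5,9),(9,1),(3,4)]⟩,⟨5,[(0,3),(0,3),(1,3),(1,0),
  (0,0),(0,0),(11,1)]⟩⟩,.a ⟨true,0,⟨0,[(15,0)]⟩,⟨0,[(12,0)]⟩⟩ ⟨true,0,⟨0,[(32,0)]⟩,⟨0,[]⟩⟩ ⟨false,0,
  ⟨3,[(0,0),(0,0),(0,1),(1,0),(7,1)]⟩,⟨0,[(6,0),(0,0),(7,0),(3,1),(6,0),(3,0),(0,0)]⟩⟩]⟩))

theorem ok80 : chk K t80 r12 = true := by decide +kernel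

noncomputable def t82 : Tre :=
  (.I [1,-1,0,0,0,0,0,1] (.R ⟨0,false,false,true,[0,0,1],[1,-1],[0,1],(⟨0,[(17,0)]⟩,⟨0,[(16,0)]⟩),
  (⟨0,[(21,0)]⟩,⟨0,[(22,0)]⟩),⟨0,[(6,0)]⟩,.k,.k,.k,.k,.k,.k,⟨true,0,⟨0,[(0,0),(1,0),(11,0)]⟩,⟨0,
  [(27,0)]⟩⟩,⟨false,0,⟨1,[(4,0),(6,0),(2,0)]⟩,⟨3,[(5,3),(0,3),(7,3),(3,7),(6,5),(1,5),(0,0),(0,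
  2)]⟩⟩,⟨false,1,⟨1,[(13,1),(0,1),(13,0),(0,0)]⟩,⟨0,[(0,0)]⟩⟩,⟨true,0,⟨0,[(11,0),(1,0),(0,0),(12,
  0)]⟩,⟨0,[(1,0)]⟩⟩,⟨false,0,⟨0,[]⟩,⟨0,[]⟩⟩,⟨false,0,⟨0,[]⟩,⟨0,[]⟩⟩,[.o ⟨false,0,⟨0,[(27,0),(3,0)]⟩,
  ⟨8,[(1,3),(0,3),(21,0),(1,0),(2,6)]⟩⟩,.o ⟨false,0,⟨0,[(27,0)]⟩,⟨9,[(7,0),(0,0),(15,1),(1,9),(2,
  4)]⟩⟩,.o ⟨false,1,⟨9,[(7,0),(0,0),(5,9),(9,1),(3,4)]⟩,⟨0,[(0,0),(12,0)]⟩⟩,.a ⟨true,0,⟨0,[(14,0)]⟩,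
  ⟨0,[(11,0)]⟩⟩ ⟨true,0,⟨0,[(25,0),(1,0)]⟩,⟨1,[(14,0),(0,0)]⟩⟩ ⟨false,0,⟨0,[(11,0),(15,0)]⟩,⟨8,[(1,
  3),(0,3),(11,8),(9,0),(1,0),(2,6)]⟩⟩]⟩) (.I [0,-1,1,1,0,0,0,1] (.Q [0,0,0,0,0,0,-1,0,0,0,-1] (.p
  false [0,0,1] [] (⟨0,[(18,0)]⟩,⟨0,[(17,0)]⟩) .k 0 (⟨0,[]⟩,⟨0,[]⟩) .k .k) (.R ⟨0,false,false,true,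
  [0,0,1],[1,-1],[0,0,0,0,0,0,0,1],(⟨0,[(19,0)]⟩,⟨0,[(18,0)]⟩),(⟨0,[(23,0)]⟩,⟨0,[(24,0)]⟩),⟨0,[(8,
  0)]⟩,.k,.k,.k,.k,.k,.k,⟨true,0,⟨0,[(1,0)]⟩,⟨0,[(2,0),(26,0)]⟩⟩,⟨false,0,⟨1,[(6,0),(6,0),(2,0)]⟩,
  ⟨1,[(2,1),(0,1),(25,1),(0,0),(0,0)]⟩⟩,⟨false,1,⟨1,[(9,0),(0,0),(20,0)]⟩,⟨0,[]⟩⟩,⟨true,0,⟨1,[(2,1),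
  (3,0),(6,0),(2,0),(12,1)]⟩,⟨0,[(3,0)]⟩⟩,⟨false,0,⟨0,[]⟩,⟨0,[]⟩⟩,⟨false,0,⟨0,[]⟩,⟨0,[]⟩⟩,[.o
  ⟨false,0,⟨0,[(29,0),(3,0)]⟩,⟨8,[(3,3),(0,3),(21,0),(1,0),(2,6)]⟩⟩,.o ⟨false,0,⟨0,[(29,0)]⟩,⟨9,[(9,
  0),(0,0),(15,1),(1,9),(2,4)]⟩⟩,.o ⟨false,1,⟨9,[(9,0),(0,0),(5,9),(9,1),(3,4)]⟩,⟨0,[(0,0)]⟩⟩,.a
  ⟨true,0,⟨0,[(16,0)]⟩,⟨0,[(13,0)]⟩⟩ ⟨true,0,⟨0,[(3,0),(9,0),(15,0)]⟩,⟨0,[(15,0),(0,0)]⟩⟩ ⟨false,0,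
  ⟨0,[(13,0),(15,0)]⟩,⟨8,[(3,3),(0,3),(11,8),(9,0),(1,0),(2,6)]⟩⟩]⟩) (.I [0,0,0,0,0,1,1] (.C [(0,0),
  (0,0),(0,0),(2,0),(2,0),(5,0),(6,1),(8,1)]) (.C [(0,0),(0,0),(7,0)]))) (.Q [0,0,1,0,0,0,2,0,0,0,
  2] (.p true [0,0,1] [0,1,-1] (⟨0,[(18,0)]⟩,⟨0,[(17,0)]⟩) .k 2 (⟨0,[(7,0)]⟩,⟨0,[(18,0),(3,0)]⟩) .k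
  (.r 0 ⟨0,[(2,1),(2,0),(6,0),(2,0),(12,1)]⟩ ⟨0,[(1,1),(28,0)]⟩)) (.Q [0,0,0,0,0,0,-1,0,0,0,-1] (.p
  false [0,0,1] [] (⟨0,[(19,0)]⟩,⟨0,[(18,0)]⟩) .k 0 (⟨0,[]⟩,⟨0,[]⟩) .k .k) (.I [0,0,-2,-2,0,0,0,1]
  (.K ⟨0,[0,1,-1],0,0,(⟨0,[(10,0)]⟩,⟨0,[(21,0),(3,0)]⟩),.k,.k,(.r (-1) ⟨1,[(6,1),(11,2),(0,0),(10,
  1),(2,1)]⟩ ⟨0,[(0,0)]⟩),(.r (-1) ⟨0,[(4,0),(1,0),(11,0),(14,0)]⟩ ⟨0,[(0,0),(4,0),(2,0),(9,0)]⟩),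
  .k,[⟨0,[(2,0)]⟩,⟨0,[(1,0)]⟩,⟨0,[(16,0),(14,0)]⟩,⟨0,[(6,0)]⟩]⟩) (.K ⟨0,[0,1,-1],0,0,(⟨0,[(10,0)]⟩,
  ⟨0,[(21,0),(3,0)]⟩),.k,.k,(.x (-1) ⟨8,[(1,4),(13,3),(5,8),(0,16),(2,0),(2,0),(0,13),(1,13),(1,
  6)]⟩ ⟨1,[(10,1),(7,2),(0,0),(3,1)]⟩),(.r (-1) ⟨3,[(0,1),(3,5),(6,0),(0,0),(20,2)]⟩ ⟨2,[(2,0),(2,
  5),(2,1),(6,3),(15,8)]⟩),.k,[⟨0,[(2,0)]⟩,⟨0,[(1,0)]⟩,⟨0,[(16,0),(14,0)]⟩,⟨0,[(6,0)]⟩]⟩)) (.Q [0,0,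
  -1,0,0,0,0,0,-1,1,0,-1] (.p false [0,0,0,0,1] [1] (⟨0,[(13,0)]⟩,⟨0,[(12,0)]⟩) .k 1 (⟨0,[]⟩,⟨0,
  []⟩) .k .k) (.Q [0,0,0,0,0,0,0,0,0,0,-1,1] (.ed false [1,0,-1,0,1] (.r 0 ⟨0,[(4,0)]⟩ ⟨29,[(5,3),
  (1,3),(0,8),(7,21),(2,7),(8,0),(4,27)]⟩)) (.R ⟨0,false,false,false,[1,0,0,0,-1],[1,0,1,0,-1],[0,
  1],(⟨0,[(14,0)]⟩,⟨0,[(15,0)]⟩),(⟨0,[(14,0),(7,0)]⟩,⟨0,[(0,0)]⟩),⟨0,[(0,0),(9,0)]⟩,.k,.k,(.r (-1)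
  ⟨1,[(32,1),(0,0),(0,0)]⟩ ⟨1,[(19,0),(0,0),(10,1)]⟩),.k,.k,.k,⟨false,0,⟨2,[(4,0),(0,1),(22,0),(1,
  0)]⟩,⟨2,[(3,0),(2,2),(2,1),(6,0),(15,2),(1,2)]⟩⟩,⟨true,0,⟨0,[(2,0)]⟩,⟨0,[(20,0)]⟩⟩,⟨false,0,⟨0,
  [(36,0)]⟩,⟨0,[(34,0)]⟩⟩,⟨true,0,⟨2,[(3,1),(2,2),(2,0),(6,1),(15,2)]⟩,⟨0,[(18,0)]⟩⟩,⟨false,0,⟨0,
  []⟩,⟨0,[]⟩⟩,⟨false,0,⟨0,[]⟩,⟨0,[]⟩⟩,[.e ⟨false,0,⟨5,[(4,0),(3,0),(19,0),(1,1)]⟩,⟨1,[(12,0),(0,0),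
  (20,0)]⟩⟩ ⟨false,1,⟨5,[(3,1),(2,1),(1,1),(7,1),(0,1),(15,0),(0,4)]⟩,⟨0,[(18,0)]⟩⟩,.o ⟨false,1,⟨1,
  [(1,1),(4,1),(12,0),(0,0),(11,1),(1,1)]⟩,⟨0,[(4,0),(1,0),(6,0),(4,0),(1,0)]⟩⟩,.a ⟨true,0,⟨1,[(1,
  1),(17,0),(0,0)]⟩,⟨0,[(13,0)]⟩⟩ ⟨true,0,⟨0,[(36,0)]⟩,⟨0,[]⟩⟩ ⟨false,1,⟨2,[(3,1),(2,2),(2,0),(6,1),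
  (15,2),(1,2)]⟩,⟨0,[(18,0)]⟩⟩,.o ⟨false,0,⟨0,[(1,0),(8,0),(0,0),(11,1),(11,1)]⟩,⟨9,[(12,0),(0,10),
  (15,1),(3,4)]⟩⟩]⟩) (.R ⟨0,false,false,false,[1,0,-1],[1,0,-1,0,1],[],(⟨0,[(21,0)]⟩,⟨0,[(22,0)]⟩),
  (⟨0,[(15,0),(5,0)]⟩,⟨0,[(0,0)]⟩),⟨0,[(10,0)]⟩,.k,.k,.k,.k,.k,.k,⟨false,1,⟨5,[(6,1),(1,1),(0,1),(7,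
  1),(15,0),(0,4)]⟩,⟨0,[(5,0)]⟩⟩,⟨true,0,⟨0,[(13,0)]⟩,⟨0,[(1,0),(8,0),(0,0),(11,1),(11,1)]⟩⟩,⟨true,
  0,⟨2,[(3,0),(2,2),(2,1),(6,0),(15,2)]⟩,⟨0,[(5,0)]⟩⟩,⟨false,0,⟨0,[(13,0)]⟩,⟨11,[(1,9),(10,1),(6,4),
  (0,4),(8,1),(4,5)]⟩⟩,⟨false,0,⟨0,[]⟩,⟨0,[]⟩⟩,⟨false,0,⟨0,[]⟩,⟨0,[]⟩⟩,[.o ⟨false,0,⟨0,[(13,0),(4,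
  0)]⟩,⟨11,[(1,9),(4,11),(5,1),(6,4),(0,4),(8,1),(2,11),(1,5)]⟩⟩,.e ⟨false,1,⟨1,[(33,0),(0,0)]⟩,⟨0,
  [(36,0)]⟩⟩ ⟨false,1,⟨1,[(5,1),(7,1),(19,0),(0,0)]⟩,⟨0,[(1,0),(4,0),(13,0),(11,0)]⟩⟩,.a ⟨true,0,⟨2,
  [(3,0),(5,1),(6,0)]⟩,⟨0,[(2,0)]⟩⟩ ⟨false,1,⟨1,[(12,0),(0,0),(20,0)]⟩,⟨0,[]⟩⟩ ⟨true,0,⟨0,[(5,0),(7,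
  0)]⟩,⟨0,[(1,0),(4,0),(13,0),(11,0)]⟩⟩,.o ⟨false,0,⟨0,[(20,0)]⟩,⟨4,[(2,2),(0,0),(25,0),(3,
  2)]⟩⟩]⟩)) (.Q [0,0,1,0,-1,0,0,0,1,0,0,1] (.p true [0,0,0,0,1] [] (⟨0,[(14,0)]⟩,⟨0,[(13,0)]⟩) .k 0
  (⟨0,[]⟩,⟨0,[]⟩) .k .k) (.K ⟨0,[0,0,0,0,1],(-1),(-1),(⟨0,[(15,0)]⟩,⟨0,[(14,0)]⟩),.k,(.r 0 ⟨3,[(4,
  0),(3,0),(19,0),(3,1)]⟩ ⟨1,[(19,0),(0,0),(10,1),(2,1)]⟩),(.r 0 ⟨1,[(19,0),(0,0),(10,1)]⟩ ⟨1,[(32,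
  1),(0,0),(0,0)]⟩),.k,.k,[⟨0,[(2,0),(9,0)]⟩,⟨0,[(0,0)]⟩,⟨0,[(12,0)]⟩,⟨0,[(0,0),(27,0)]⟩]⟩) (.Q [0,
  -1,0,0,0,0,2,2,0,-1,2] (.p true [0,0,1] [1,0,-1] (⟨0,[(22,0)]⟩,⟨0,[(21,0)]⟩) .k 2 (⟨0,[(21,0)]⟩,
  ⟨0,[(22,0)]⟩) .k (.r 0 ⟨2,[(3,1),(2,5),(2,3),(6,1),(15,5)]⟩ ⟨0,[(5,1),(28,0)]⟩)) (.Q [0,0,1,0,0,0,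
  2,0,0,-1,2] (.p true [0,0,1] [1,0,-1] (⟨0,[(23,0)]⟩,⟨0,[(22,0)]⟩) .k 2 (⟨0,[(22,0)]⟩,⟨0,[(23,
  0)]⟩) .k (.r 0 ⟨12,[(0,7),(6,1),(1,1),(0,9),(7,5),(2,3)]⟩ ⟨0,[(6,1),(28,0)]⟩)) (.R ⟨0,false,false,
  true,[0,0,1],[1,0,-1],[1,1],(⟨0,[(24,0)]⟩,⟨0,[(23,0)]⟩),(⟨0,[(23,0)]⟩,⟨0,[(24,0)]⟩),⟨0,[(13,0)]⟩,
  .k,.k,.k,.k,.k,.k,⟨false,0,⟨7,[(1,1),(6,1),(1,1),(0,0),(0,0),(0,0),(4,3),(6,1)]⟩,⟨1,[(7,1),(6,0),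
  (0,0),(20,0)]⟩⟩,⟨true,0,⟨0,[(11,0)]⟩,⟨0,[(0,0)]⟩⟩,⟨true,0,⟨0,[(7,0)]⟩,⟨12,[(1,3),(6,0),(1,0),(0,
  4),(7,2),(2,1)]⟩⟩,⟨false,1,⟨0,[(7,1),(3,0),(24,0)]⟩,⟨0,[(1,0)]⟩⟩,⟨false,0,⟨0,[]⟩,⟨0,[]⟩⟩,⟨false,0,
  ⟨0,[]⟩,⟨0,[]⟩⟩,[.o ⟨false,0,⟨0,[(20,0)]⟩,⟨18,[(1,3),(17,10),(11,2),(4,12)]⟩⟩,.o ⟨false,1,⟨1,[(14,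
  0),(0,0),(4,1),(15,0)]⟩,⟨0,[(8,0),(25,0)]⟩⟩,.a ⟨true,0,⟨0,[(4,0)]⟩,⟨2,[(5,0),(5,1),(6,0)]⟩⟩
  ⟨false,0,⟨0,[]⟩,⟨1,[(14,0),(0,0),(20,0)]⟩⟩ ⟨true,0,⟨0,[(7,0),(3,0)]⟩,⟨6,[(0,2),(0,3),(4,0),(23,0),
  (1,0)]⟩⟩,.e ⟨true,0,⟨5,[(6,0),(3,0),(19,0),(1,1)]⟩,⟨1,[(21,0),(0,0)]⟩⟩ ⟨true,0,⟨1,[(6,0),(2,0),(1,
  0),(6,0)]⟩,⟨2,[(0,1),(0,0),(17,0),(2,0)]⟩⟩]⟩) (.Q [0,0,0,0,0,0,0,0,0,1,-2] (.ed true [0,0,2] (.r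
  0 ⟨12,[(1,7),(6,1),(1,1),(0,9),(7,5),(2,3)]⟩ ⟨0,[(7,1),(28,0)]⟩)) (.R ⟨0,false,false,false,[0,0,
  1],[0,0,2],[1],(⟨0,[(25,0)]⟩,⟨0,[(24,0)]⟩),(⟨0,[(25,1)]⟩,⟨0,[(0,0)]⟩),⟨0,[(14,0)]⟩,.k,.k,.k,.k,.k,
  .k,⟨false,1,⟨0,[(5,0),(1,0),(2,0),(26,0)]⟩,⟨12,[(2,7),(6,1),(1,1),(0,9),(7,5),(2,3)]⟩⟩,⟨true,0,⟨0,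
  [(5,0)]⟩,⟨0,[(23,0)]⟩⟩,⟨false,1,⟨0,[(8,0),(28,0)]⟩,⟨12,[(2,3),(6,0),(1,0),(0,4),(7,2),(2,1)]⟩⟩,
  ⟨true,0,⟨8,[(2,2),(3,1),(5,0),(6,1),(0,2)]⟩,⟨0,[(21,0)]⟩⟩,⟨false,0,⟨0,[]⟩,⟨0,[]⟩⟩,⟨false,0,⟨0,[]⟩,
  ⟨0,[]⟩⟩,[.o ⟨false,0,⟨0,[(2,0),(36,0)]⟩,⟨0,[(21,1),(15,0)]⟩⟩,.o ⟨false,0,⟨0,[(2,0)]⟩,⟨1,[(15,0),
  (0,0),(4,3),(15,0)]⟩⟩,.a ⟨true,0,⟨0,[(5,0)]⟩,⟨2,[(6,0),(5,1),(6,0)]⟩⟩ ⟨true,0,⟨0,[]⟩,⟨0,[(39,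
  0)]⟩⟩ ⟨false,0,⟨2,[(2,2),(3,0),(5,1),(6,0)]⟩,⟨0,[(8,0),(12,0),(15,0)]⟩⟩,.e ⟨false,1,⟨1,[(36,0),(0,
  0)]⟩,⟨1,[(22,0),(0,0)]⟩⟩ ⟨false,0,⟨0,[(2,0),(16,0)]⟩,⟨0,[(21,1),(0,0),(14,0)]⟩⟩]⟩) (.I [0,0,0,0,0,
  1,1] (.C [(0,1),(0,0),(0,0),(24,1),(11,0)]) (.C [(0,0),(5,0),(8,0)])))) (.Q [0,0,1,0,0,0,2,0,0,-1,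
  2] (.p true [0,0,1] [1,0,-1] (⟨0,[(23,0)]⟩,⟨0,[(22,0)]⟩) .k 2 (⟨0,[(22,0)]⟩,⟨0,[(23,0)]⟩) .k (.r
  0 ⟨2,[(4,1),(2,5),(2,3),(6,1),(15,5)]⟩ ⟨0,[(6,1),(28,0)]⟩)) (.R ⟨0,false,false,true,[0,0,1],[1,0,
  -1],[1],(⟨0,[(24,0)]⟩,⟨0,[(23,0)]⟩),(⟨0,[(23,0)]⟩,⟨0,[(24,0)]⟩),⟨0,[(13,0)]⟩,.k,.k,.k,.k,.k,.k,
  ⟨false,1,⟨5,[(8,1),(1,1),(0,1),(7,1),(15,0),(0,4)]⟩,⟨0,[(7,0)]⟩⟩,⟨true,0,⟨0,[(11,0)]⟩,⟨0,[(0,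
  0)]⟩⟩,⟨false,1,⟨3,[(0,1),(0,1),(33,0),(0,2)]⟩,⟨2,[(5,0),(2,2),(2,1),(6,0),(15,2)]⟩⟩,⟨true,0,⟨0,
  [(1,0)]⟩,⟨2,[(5,1),(2,5),(2,0),(6,1),(15,5)]⟩⟩,⟨false,0,⟨0,[]⟩,⟨0,[]⟩⟩,⟨false,0,⟨0,[]⟩,⟨0,[]⟩⟩,
  [.o ⟨false,0,⟨0,[(20,0)]⟩,⟨8,[(8,3),(10,4),(11,0),(2,3),(1,6)]⟩⟩,.o ⟨false,1,⟨3,[(1,1),(1,1),(10,
  1),(20,0),(0,0)]⟩,⟨0,[(8,0),(25,0)]⟩⟩,.e ⟨true,0,⟨0,[]⟩,⟨0,[(38,0)]⟩⟩ ⟨true,0,⟨6,[(1,3),(9,2),(7,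
  0),(2,0),(7,0)]⟩,⟨0,[(4,0),(3,0),(25,0)]⟩⟩,.a ⟨true,0,⟨0,[(21,0)]⟩,⟨0,[(18,0)]⟩⟩ ⟨false,1,⟨1,[(35,
  0),(0,0)]⟩,⟨1,[(21,0),(0,0)]⟩⟩ ⟨true,0,⟨1,[(6,0),(2,0),(1,0),(6,0)]⟩,⟨0,[(8,0),(12,0),(12,
  0)]⟩⟩]⟩) (.Q [0,1,0,0,-1,0,0,0,1,-1,0,1] (.p true [0,0,0,0,1] [1] (⟨0,[(17,0)]⟩,⟨0,[(16,0)]⟩) .k
  1 (⟨0,[]⟩,⟨0,[]⟩) .k .k) (.Q [0,0,0,0,1,0,-1,-1,-1,1,-1,-1] (.p false [0,0,1] [1,0,0,0,-1] (⟨0,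
  [(25,0)]⟩,⟨0,[(24,0)]⟩) .k 2 (⟨0,[(17,0)]⟩,⟨0,[(18,0)]⟩) .k (.r 0 ⟨10,[(9,1),(1,1),(0,1),(7,6),(2,
  4),(7,0)]⟩ ⟨0,[(8,0),(28,0)]⟩)) (.R ⟨0,false,false,false,[1,0,-1],[0,0,0,0,1],[1,1],(⟨0,[(25,0)]⟩,
  ⟨0,[(26,0)]⟩),(⟨0,[(19,0)]⟩,⟨0,[(18,0)]⟩),⟨0,[(14,0)]⟩,.k,.k,.k,.k,.k,.k,⟨true,0,⟨0,[]⟩,⟨1,[(23,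
  0),(0,0)]⟩⟩,⟨false,0,⟨1,[(1,1),(4,1),(30,0),(0,0)]⟩,⟨2,[(7,0),(5,1),(2,2),(3,0)]⟩⟩,⟨false,0,⟨2,
  [(7,0),(2,2),(2,1),(6,0),(15,2)]⟩,⟨0,[(9,0),(28,0)]⟩⟩,⟨true,(-1),⟨2,[(1,2),(5,1),(2,2),(2,0),(6,
  1),(15,2)]⟩,⟨0,[(0,0)]⟩⟩,⟨false,0,⟨0,[]⟩,⟨0,[]⟩⟩,⟨false,0,⟨0,[]⟩,⟨0,[]⟩⟩,[.o ⟨false,(-1),⟨0,[(1,
  0)]⟩,⟨8,[(0,4),(15,3),(4,4),(11,0),(4,6)]⟩⟩,.o ⟨false,0,⟨8,[(1,3),(15,4),(15,0),(4,1)]⟩,⟨0,[(16,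
  0)]⟩⟩,.a ⟨true,0,⟨2,[(7,0),(5,1),(6,0)]⟩,⟨0,[(6,0)]⟩⟩ ⟨false,0,⟨0,[]⟩,⟨7,[(0,1),(4,1),(15,1),(15,
  0),(0,4)]⟩⟩ ⟨true,(-1),⟨0,[(1,0),(4,0)]⟩,⟨2,[(7,0),(5,1),(2,2),(3,0)]⟩⟩,.o ⟨false,0,⟨0,[(24,0)]⟩,
  ⟨4,[(6,2),(0,0),(25,0),(3,2)]⟩⟩]⟩) (.I [1,-1,0,-1,1,0,0,-2] (.Q [0,0,0,0,0,0,0,0,0,1,-2] (.ed
  true [0,0,2] (.r 0 ⟨2,[(1,5),(6,1),(5,3),(2,5),(3,1)]⟩ ⟨0,[(0,0),(35,0)]⟩)) (.R ⟨0,false,false,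
  true,[1,0,-2],[1,0,-1],[1,0,0,-1,0,0,0,-2],(⟨0,[(0,0)]⟩,⟨0,[(28,1)]⟩),(⟨0,[(27,0)]⟩,⟨0,[(28,0)]⟩),
  ⟨0,[(16,0),(11,0)]⟩,.k,.k,(.r (-1) ⟨5,[(1,4),(8,1),(23,0),(1,0),(2,0)]⟩ ⟨0,[(2,0),(6,0),(2,0),(2,
  1),(2,0)]⟩),.k,.k,.k,⟨false,1,⟨0,[(10,0),(29,0)]⟩,⟨1,[(12,0),(2,0),(7,0),(13,0)]⟩⟩,⟨true,0,⟨0,[(8,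
  0)]⟩,⟨0,[(26,0)]⟩⟩,⟨true,0,⟨0,[(38,0)]⟩,⟨0,[(37,0)]⟩⟩,⟨false,0,⟨2,[(2,2),(6,1),(5,0),(2,2),(3,
  1)]⟩,⟨43,[(5,21),(1,1),(10,1),(16,3),(3,0),(0,32)]⟩⟩,⟨false,0,⟨0,[]⟩,⟨0,[]⟩⟩,⟨false,0,⟨0,[]⟩,⟨0,
  []⟩⟩,[.o ⟨false,0,⟨0,[(24,0)]⟩,⟨8,[(2,3),(15,3),(4,4),(11,0),(4,6)]⟩⟩,.o ⟨false,1,⟨3,[(5,1),(1,1),
  (10,1),(20,0),(0,0)]⟩,⟨0,[(2,0),(15,0)]⟩⟩,.a ⟨true,0,⟨0,[(15,0)]⟩,⟨0,[(8,1)]⟩⟩ ⟨false,1,⟨0,[(1,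
  0)]⟩,⟨2,[(2,2),(6,1),(2,2),(2,3),(2,2),(3,1)]⟩⟩ ⟨true,0,⟨1,[(8,0),(0,0),(0,0),(2,0)]⟩,⟨0,[(2,0),
  (12,0),(2,0)]⟩⟩,.o ⟨false,0,⟨0,[(4,0),(11,0),(0,0),(11,1),(11,1)]⟩,⟨4,[(8,7),(0,0),(25,0),(3,
  2)]⟩⟩]⟩) (.I [0,0,0,0,0,1,1] (.C [(0,1),(0,0),(3,0),(24,1),(11,0)]) (.C [(0,0),(8,0),(8,0)])))
  (.I [0,0,0,0,0,1,1] (.C [(0,0),(0,0),(3,0),(2,0),(7,0),(12,1),(8,0),(1,0)]) (.C [(0,0),(7,0),(8,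
  0)])))) (.Q [0,0,0,0,0,0,1,0,1,-1,1,1] (.p true [0,0,1] [1,0,0,0,-1] (⟨0,[(25,0)]⟩,⟨0,[(24,0)]⟩)
  .k 2 (⟨0,[(17,0)]⟩,⟨0,[(18,0)]⟩) .k (.r 0 ⟨10,[(9,1),(1,1),(0,1),(7,6),(2,4),(7,0)]⟩ ⟨0,[(8,0),
  (28,0)]⟩)) (.Q [0,-1,1,0,1,0,1,0,-1,0,1,-1] (.p true [0,0,1] [0,0,0,0,1] (⟨0,[(26,0)]⟩,⟨0,[(25,
  0)]⟩) .k 2 (⟨0,[(19,0)]⟩,⟨0,[(18,0)]⟩) .k (.r (-1) ⟨29,[(10,3),(1,3),(0,8),(7,21),(2,7),(8,0),(4,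
  27)]⟩ ⟨0,[(9,0)]⟩)) (.Q [0,0,-2,0,0,0,-1,0,1,0,-1,1] (.p false [0,0,1] [0,0,0,0,1] (⟨0,[(27,0)]⟩,
  ⟨0,[(26,0)]⟩) .k 2 (⟨0,[(20,0)]⟩,⟨0,[(19,0)]⟩) .k (.r (-1) ⟨29,[(11,3),(1,3),(0,8),(7,21),(2,7),
  (8,0),(4,27)]⟩ ⟨0,[(10,0)]⟩)) (.Q [0,-1,0,0,1,0,1,0,-1,0,1,-1] (.p true [0,0,1] [0,0,0,0,1] (⟨0,
  [(28,0)]⟩,⟨0,[(27,0)]⟩) .k 2 (⟨0,[(21,0)]⟩,⟨0,[(20,0)]⟩) .k (.r (-1) ⟨29,[(12,3),(1,3),(0,8),(7,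
  21),(2,7),(8,0),(4,27)]⟩ ⟨0,[(11,0)]⟩)) (.Q [0,0,0,0,0,0,-1,-1,1,0,-1,1] (.p false [0,0,1] [0,0,0,
  0,1] (⟨0,[(29,0)]⟩,⟨0,[(28,0)]⟩) .k 2 (⟨0,[(22,0)]⟩,⟨0,[(21,0)]⟩) .k (.r (-1) ⟨29,[(13,3),(1,3),
  (0,8),(7,21),(2,7),(8,0),(4,27)]⟩ ⟨0,[(12,0)]⟩)) (.R ⟨0,false,false,false,[0,0,1],[0,0,0,0,1],[1,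
  1],(⟨0,[(30,0)]⟩,⟨0,[(29,0)]⟩),(⟨0,[(23,0)]⟩,⟨0,[(22,0)]⟩),⟨0,[(19,0)]⟩,.k,.k,.k,.k,.k,.k,⟨true,0,
  ⟨0,[]⟩,⟨1,[(27,0),(0,0)]⟩⟩,⟨false,0,⟨4,[(2,2),(6,0),(7,0),(3,0)]⟩,⟨1,[(8,0),(2,0),(8,0)]⟩⟩,⟨true,
  0,⟨0,[(13,0)]⟩,⟨2,[(11,0),(2,2),(2,1),(6,0),(15,2)]⟩⟩,⟨false,0,⟨0,[(0,0)]⟩,⟨0,[(5,0),(8,0),(25,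
  0)]⟩⟩,⟨false,0,⟨0,[]⟩,⟨0,[]⟩⟩,⟨false,0,⟨0,[]⟩,⟨0,[]⟩⟩,[.e ⟨false,0,⟨5,[(12,0),(3,0),(19,0),(1,
  1)]⟩,⟨3,[(5,1),(3,1),(31,0),(0,0)]⟩⟩ ⟨false,0,⟨9,[(2,3),(6,2),(7,2),(3,2),(14,4)]⟩,⟨0,[(1,0)]⟩⟩,
  .o ⟨false,0,⟨7,[(0,3),(1,0),(1,0),(4,1),(4,3),(3,0),(0,0),(11,1),(8,3)]⟩,⟨0,[(20,0)]⟩⟩,.e ⟨false,
  0,⟨0,[]⟩,⟨3,[(5,1),(3,1),(31,0),(0,0)]⟩⟩ ⟨false,0,⟨4,[(2,0),(6,1),(7,1),(3,1)]⟩,⟨0,[(1,0)]⟩⟩,.a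
  ⟨true,0,⟨0,[(27,0)]⟩,⟨0,[(24,0)]⟩⟩ ⟨true,0,⟨5,[(12,0),(3,0),(19,0),(1,1)]⟩,⟨1,[(27,0),(0,0)]⟩⟩
  ⟨false,0,⟨4,[(2,2),(6,0),(7,0),(3,0)]⟩,⟨0,[(3,0)]⟩⟩]⟩) (.Q [0,0,0,0,0,0,0,0,0,1,-2] (.ed true [0,
  0,2] (.r 0 ⟨4,[(0,9),(1,1),(6,3),(7,3),(3,3)]⟩ ⟨0,[(1,0),(2,0),(2,0)]⟩)) (.I [1,-1,0,-1,1,0,0,-2]
  (.R ⟨0,false,false,true,[1,0,-2],[1,0,-1],[1,0,0,-1,0,0,0,-2],(⟨0,[(1,0)]⟩,⟨0,[(32,1)]⟩),(⟨0,[(31,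
  0)]⟩,⟨0,[(32,0)]⟩),⟨0,[(20,0),(11,0)]⟩,.k,.k,(.r (-1) ⟨5,[(0,4),(13,1),(23,0),(1,0),(2,0)]⟩ ⟨2,
  [(2,2),(8,0),(4,2),(2,3),(3,1),(5,1)]⟩),.k,.k,.k,⟨false,1,⟨3,[(0,2),(1,0),(1,0),(13,0),(25,0)]⟩,
  ⟨1,[(16,0),(2,0),(7,0),(13,0)]⟩⟩,⟨true,0,⟨0,[(12,0)]⟩,⟨0,[(30,0)]⟩⟩,⟨true,0,⟨0,[(42,0)]⟩,⟨0,[(41,
  0)]⟩⟩,⟨false,0,⟨0,[(2,0),(20,0)]⟩,⟨39,[(7,1),(1,19),(1,1),(27,3),(3,0),(0,28)]⟩⟩,⟨false,0,⟨0,[]⟩,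
  ⟨0,[]⟩⟩,⟨false,0,⟨0,[]⟩,⟨0,[]⟩⟩,[.o ⟨false,0,⟨0,[(28,0)]⟩,⟨8,[(2,2),(3,0),(4,1),(4,0),(1,0),(8,3),
  (11,0),(4,6)]⟩⟩,.o ⟨false,1,⟨21,[(7,10),(1,10),(1,11),(10,0),(16,1),(3,5)]⟩,⟨0,[(16,0),(25,0)]⟩⟩,
  .a ⟨true,0,⟨0,[(19,0)]⟩,⟨0,[(12,1)]⟩⟩ ⟨false,1,⟨0,[(0,0)]⟩,⟨0,[(2,0),(13,0),(2,0),(3,0)]⟩⟩ ⟨true,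
  0,⟨1,[(12,0),(0,0),(0,0),(2,0)]⟩,⟨0,[(16,0),(2,0),(22,0)]⟩⟩,.o ⟨false,0,⟨0,[(8,0),(11,0),(0,0),
  (11,1),(11,1)]⟩,⟨20,[(3,7),(2,7),(6,8),(0,7),(1,7),(22,0),(3,10)]⟩⟩]⟩) (.I [0,0,0,0,0,1,1] (.C
  [(0,0),(0,0),(8,0),(2,0),(7,0),(12,1),(8,0),(1,0)]) (.C [(0,0),(1,0),(10,0),(7,0)]))) (.I [0,0,0,
  0,0,1,1] (.C [(0,1),(0,0),(6,0),(24,1),(11,0)]) (.C [(0,0),(11,0),(8,0)])))) (.R ⟨0,false,false,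
  false,[0,0,1],[0,0,0,0,1],[1,1],(⟨0,[(29,0)]⟩,⟨0,[(28,0)]⟩),(⟨0,[(22,0)]⟩,⟨0,[(21,0)]⟩),⟨0,[(18,
  0)]⟩,.k,.k,.k,.k,.k,.k,⟨true,0,⟨0,[]⟩,⟨1,[(26,0),(0,0)]⟩⟩,⟨false,0,⟨4,[(1,2),(6,0),(7,0),(3,0)]⟩,
  ⟨1,[(7,0),(2,0),(8,0)]⟩⟩,⟨true,0,⟨0,[(12,0)]⟩,⟨2,[(10,0),(2,2),(2,1),(6,0),(15,2)]⟩⟩,⟨false,0,⟨1,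
  [(0,0),(2,0),(2,0),(34,0)]⟩,⟨0,[(4,0),(8,0),(25,0)]⟩⟩,⟨false,0,⟨0,[]⟩,⟨0,[]⟩⟩,⟨false,0,⟨0,[]⟩,⟨0,
  []⟩⟩,[.a ⟨true,(-1),⟨0,[(0,0),(8,0)]⟩,⟨0,[(4,0)]⟩⟩ ⟨false,0,⟨5,[(11,0),(3,0),(19,0),(1,1)]⟩,⟨3,
  [(4,1),(3,1),(31,0),(0,0)]⟩⟩ ⟨true,(-1),⟨0,[(0,0)]⟩,⟨0,[(2,0)]⟩⟩,.o ⟨false,0,⟨11,[(0,3),(0,0),(1,
  4),(4,1),(27,0),(4,1)]⟩,⟨0,[(19,0)]⟩⟩,.a ⟨true,0,⟨0,[(9,0)]⟩,⟨2,[(10,0),(5,1),(6,0)]⟩⟩ ⟨false,0,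
  ⟨0,[]⟩,⟨3,[(4,1),(3,1),(31,0),(0,0)]⟩⟩ ⟨true,(-1),⟨0,[(0,0)]⟩,⟨1,[(7,0),(2,0),(8,0)]⟩⟩,.a ⟨true,0,
  ⟨0,[(26,0)]⟩,⟨0,[(23,0)]⟩⟩ ⟨true,0,⟨5,[(11,0),(3,0),(19,0),(1,1)]⟩,⟨1,[(26,0),(0,0)]⟩⟩ ⟨false,0,
  ⟨4,[(1,2),(6,0),(7,0),(3,0)]⟩,⟨0,[(2,0)]⟩⟩]⟩)) (.Q [0,0,0,0,0,0,0,0,1,-1,0,1] (.p true [0,0,0,0,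
  1] [1] (⟨0,[(21,0)]⟩,⟨0,[(20,0)]⟩) .k 1 (⟨0,[]⟩,⟨0,[]⟩) .k .k) (.Q [0,-1,0,0,1,0,-1,-1,-1,1,-1,
  -1] (.p false [0,0,1] [1,0,0,0,-1] (⟨0,[(29,0)]⟩,⟨0,[(28,0)]⟩) .k 2 (⟨0,[(21,0)]⟩,⟨0,[(22,0)]⟩)
  .k (.r 0 ⟨10,[(13,1),(1,1),(0,1),(7,6),(2,4),(7,0)]⟩ ⟨0,[(12,0),(28,0)]⟩)) (.R ⟨0,false,false,
  false,[1,0,-1],[0,0,0,0,1],[1],(⟨0,[(29,0)]⟩,⟨0,[(30,0)]⟩),(⟨0,[(23,0)]⟩,⟨0,[(22,0)]⟩),⟨0,[(18,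
  0)]⟩,.k,.k,.k,.k,.k,.k,⟨false,1,⟨1,[(41,0),(0,0)]⟩,⟨0,[(44,0)]⟩⟩,⟨true,0,⟨0,[(4,0)]⟩,⟨0,[(2,0),(3,
  0)]⟩⟩,⟨true,0,⟨2,[(11,0),(2,2),(2,1),(6,0),(15,2)]⟩,⟨0,[(13,0)]⟩⟩,⟨false,0,⟨0,[(14,0),(6,0),(18,
  0)]⟩,⟨0,[(0,0)]⟩⟩,⟨false,0,⟨0,[]⟩,⟨0,[]⟩⟩,⟨false,0,⟨0,[]⟩,⟨0,[]⟩⟩,[.o ⟨false,0,⟨1,[(1,0),(7,0),
  (26,0)]⟩,⟨0,[(0,0),(13,0),(25,0)]⟩⟩,.o ⟨false,0,⟨0,[(1,0)]⟩,⟨0,[(20,0)]⟩⟩,.a ⟨true,0,⟨2,[(11,0),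
  (5,1),(6,0)]⟩,⟨0,[(10,0)]⟩⟩ ⟨true,0,⟨0,[]⟩,⟨0,[(44,0)]⟩⟩ ⟨false,0,⟨0,[(4,0)]⟩,⟨13,[(2,3),(2,9),(0,
  7),(10,0),(19,0),(4,1)]⟩⟩,.o ⟨false,0,⟨0,[(28,0)]⟩,⟨4,[(10,2),(0,0),(25,0),(3,2)]⟩⟩]⟩) (.I [0,0,0,
  0,0,1,1] (.I [0,0,-1,0,0,1,-1] (.C [(0,0),(0,0),(0,1),(1,1),(3,1),(0,0),(2,0),(1,0),(1,0),(16,1),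
  (10,1)]) (.C [(0,0),(7,0),(3,0),(7,0)])) (.C [(0,0),(10,0),(8,0)]))) (.K ⟨0,[1,0,0,0,-1],0,0,(⟨0,
  [(21,0)]⟩,⟨0,[(22,0)]⟩),.k,(.r (-1) ⟨1,[(39,1),(0,0),(0,0)]⟩ ⟨3,[(1,0),(6,0),(7,0),(9,0),(11,
  3)]⟩),(.r (-1) ⟨3,[(1,0),(6,0),(7,0),(9,0),(11,3),(2,3)]⟩ ⟨3,[(11,0),(3,0),(19,0),(3,1)]⟩),.k,.k,
  [⟨0,[(3,0)]⟩,⟨4,[(0,2),(0,1),(8,0),(5,1)]⟩,⟨0,[(8,0),(26,0)]⟩,⟨0,[(0,0)]⟩]⟩))) (.R ⟨0,false,false,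
  false,[0,0,1],[0,0,0,0,1],[1,1],(⟨0,[(27,0)]⟩,⟨0,[(26,0)]⟩),(⟨0,[(20,0)]⟩,⟨0,[(19,0)]⟩),⟨0,[(16,
  0)]⟩,.k,.k,.k,.k,.k,.k,⟨true,0,⟨0,[]⟩,⟨1,[(24,0),(0,0)]⟩⟩,⟨false,0,⟨37,[(0,17),(2,9),(14,19),(15,
  1),(3,4),(0,8)]⟩,⟨1,[(5,0),(2,0),(8,0)]⟩⟩,⟨true,0,⟨0,[(10,0)]⟩,⟨2,[(8,0),(2,2),(2,1),(6,0),(15,
  2)]⟩⟩,⟨false,0,⟨5,[(0,2),(0,0),(2,2),(1,1),(1,0),(30,2)]⟩,⟨0,[(2,0),(8,0),(25,0)]⟩⟩,⟨false,0,⟨0,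
  []⟩,⟨0,[]⟩⟩,⟨false,0,⟨0,[]⟩,⟨0,[]⟩⟩,[.e ⟨false,0,⟨5,[(9,0),(3,0),(19,0),(1,1)]⟩,⟨3,[(2,1),(3,1),
  (31,0),(0,0)]⟩⟩ ⟨false,(-1),⟨0,[(0,0)]⟩,⟨21,[(2,21),(3,6),(1,10),(8,6),(16,2),(3,8)]⟩⟩,.o ⟨false,
  0,⟨12,[(0,3),(0,3),(4,3),(11,0),(15,0),(4,1)]⟩,⟨0,[(17,0)]⟩⟩,.a ⟨true,0,⟨0,[(7,0)]⟩,⟨2,[(8,0),(5,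
  1),(6,0)]⟩⟩ ⟨false,0,⟨0,[]⟩,⟨3,[(2,1),(3,1),(31,0),(0,0)]⟩⟩ ⟨true,(-1),⟨1,[(0,1),(23,0),(0,0)]⟩,
  ⟨1,[(5,0),(2,0),(8,0)]⟩⟩,.e ⟨true,0,⟨5,[(9,0),(3,0),(19,0),(1,1)]⟩,⟨1,[(24,0),(0,0)]⟩⟩ ⟨true,(-1),
  ⟨0,[(0,0)]⟩,⟨0,[(17,0),(6,0)]⟩⟩]⟩)) (.R ⟨0,false,false,true,[0,0,1],[1,0,0,0,-1],[1,1],(⟨0,[(26,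
  0)]⟩,⟨0,[(25,0)]⟩),(⟨0,[(18,0)]⟩,⟨0,[(19,0)]⟩),⟨0,[(15,0)]⟩,.k,.k,.k,.k,.k,.k,⟨false,0,⟨5,[(8,0),
  (3,0),(19,0),(1,1)]⟩,⟨3,[(1,1),(3,1),(31,0),(0,0)]⟩⟩,⟨true,0,⟨0,[(0,0)]⟩,⟨0,[(5,0),(0,0)]⟩⟩,⟨true,
  0,⟨0,[(9,0)]⟩,⟨2,[(7,0),(2,2),(2,1),(6,0),(15,2)]⟩⟩,⟨false,1,⟨0,[(0,0),(8,0),(28,0)]⟩,⟨0,[(10,0),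
  (6,0),(18,0)]⟩⟩,⟨false,0,⟨0,[]⟩,⟨0,[]⟩⟩,⟨false,0,⟨0,[]⟩,⟨0,[]⟩⟩,[.a ⟨true,0,⟨0,[(0,0),(5,0)]⟩,⟨0,
  [(17,0)]⟩⟩ ⟨false,0,⟨5,[(8,0),(3,0),(19,0),(1,1)]⟩,⟨3,[(1,1),(3,1),(31,0),(0,0)]⟩⟩ ⟨true,0,⟨0,[(0,
  0)]⟩,⟨0,[(5,0),(0,0)]⟩⟩,.o ⟨false,1,⟨5,[(0,4),(3,0),(1,2),(0,0),(25,0),(4,2)]⟩,⟨5,[(5,5),(2,0),(3,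
  0),(19,0),(1,1)]⟩⟩,.a ⟨true,0,⟨0,[(6,0)]⟩,⟨2,[(7,0),(5,1),(6,0)]⟩⟩ ⟨false,0,⟨0,[]⟩,⟨3,[(1,1),(3,
  1),(31,0),(0,0)]⟩⟩ ⟨true,0,⟨0,[(0,0)]⟩,⟨3,[(5,1),(1,0),(0,1),(1,1),(6,1),(14,0)]⟩⟩,.a ⟨true,0,⟨0,
  [(23,0)]⟩,⟨0,[(20,0)]⟩⟩ ⟨true,0,⟨5,[(8,0),(3,0),(19,0),(1,1)]⟩,⟨1,[(23,0),(0,0)]⟩⟩ ⟨false,1,⟨1,
  [(0,0),(3,0),(15,0),(17,0)]⟩,⟨0,[(5,0),(0,0)]⟩⟩]⟩)))))))) (.Q [0,1,0,-1,-1,0,2,2,0,0,2] (.p true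
  [0,0,1] [0,1,-1] (⟨0,[(19,0)]⟩,⟨0,[(18,0)]⟩) .k 2 (⟨0,[(8,0)]⟩,⟨0,[(19,0),(3,0)]⟩) .k (.r 0 ⟨0,
  [(3,1),(2,0),(6,0),(2,0),(12,1)]⟩ ⟨0,[(2,1),(28,0)]⟩)) (.Q [0,-1,-1,1,1,0,-2,-1,0,0,-2] (.p false
  [0,0,1] [0,1,-1] (⟨0,[(20,0)]⟩,⟨0,[(19,0)]⟩) .k 2 (⟨0,[(9,0)]⟩,⟨0,[(20,0),(3,0)]⟩) .k (.r 0 ⟨11,
  [(0,6),(3,6),(2,11),(7,2),(11,0),(4,4)]⟩ ⟨0,[(3,1),(28,0)]⟩)) (.R ⟨0,false,false,false,[0,0,1],[0,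
  1,-1],[1,0,1],(⟨0,[(21,0)]⟩,⟨0,[(20,0)]⟩),(⟨0,[(10,0)]⟩,⟨0,[(21,0),(3,0)]⟩),⟨0,[(10,0)]⟩,.k,.k,.k,
  (.r 0 ⟨77,[(1,57),(0,17),(2,9),(1,29),(0,44),(19,6),(4,43)]⟩ ⟨0,[(0,0),(3,0),(13,1)]⟩),.k,.k,
  ⟨false,0,⟨2,[(1,0),(0,0),(4,0),(23,0),(1,0)]⟩,⟨2,[(0,1),(3,0),(13,3),(11,0),(1,0)]⟩⟩,⟨true,0,⟨0,
  [(2,0)]⟩,⟨0,[(18,1)]⟩⟩,⟨false,1,⟨0,[(17,0),(0,0),(14,0)]⟩,⟨4,[(1,0),(0,0),(2,1),(1,0),(7,1),(17,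
  0)]⟩⟩,⟨true,1,⟨0,[(0,0),(16,0),(0,0)]⟩,⟨0,[(1,0)]⟩⟩,⟨false,0,⟨0,[]⟩,⟨0,[]⟩⟩,⟨false,0,⟨0,[]⟩,⟨0,
  []⟩⟩,[.o ⟨false,1,⟨39,[(0,20),(3,1),(1,16),(4,2),(0,2),(5,18),(9,7),(1,1),(3,1)]⟩,⟨2,[(1,0),(14,
  0),(14,1),(1,0)]⟩⟩,.e ⟨false,1,⟨1,[(11,0),(0,0),(20,0)]⟩,⟨5,[(3,0),(3,0),(19,0),(1,1)]⟩⟩ ⟨false,1,
  ⟨0,[(0,0)]⟩,⟨5,[(1,1),(1,2),(12,4),(1,2),(12,0),(1,1)]⟩⟩,.o ⟨false,1,⟨9,[(11,0),(0,0),(5,9),(9,1),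
  (3,4)]⟩,⟨2,[(2,0),(16,0)]⟩⟩,.a ⟨true,0,⟨0,[(18,0)]⟩,⟨0,[(15,0)]⟩⟩ ⟨true,0,⟨0,[]⟩,⟨0,[(35,0)]⟩⟩
  ⟨false,1,⟨0,[(0,0)]⟩,⟨2,[(1,0),(14,0),(1,2),(12,1),(1,0)]⟩⟩]⟩) (.R ⟨0,false,false,false,[0,0,1],
  [0,1,-1],[1,0,1],(⟨0,[(21,0)]⟩,⟨0,[(20,0)]⟩),(⟨0,[(10,0)]⟩,⟨0,[(21,0),(3,0)]⟩),⟨0,[(10,0)]⟩,.k,.k,
  .k,(.r 0 ⟨77,[(1,57),(0,17),(2,9),(1,29),(0,44),(19,6),(4,43)]⟩ ⟨0,[(4,0),(1,0),(11,0),(14,0)]⟩),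
  .k,.k,⟨false,0,⟨2,[(1,0),(0,0),(4,0),(23,0),(1,0)]⟩,⟨0,[(4,0),(25,0),(2,0)]⟩⟩,⟨true,0,⟨0,[(2,0)]⟩,
  ⟨0,[(18,1)]⟩⟩,⟨false,1,⟨0,[(17,0),(0,0),(14,0)]⟩,⟨4,[(1,0),(0,0),(2,1),(1,0),(7,1),(17,0)]⟩⟩,
  ⟨true,1,⟨0,[(6,0),(10,0),(15,0)]⟩,⟨0,[(1,0)]⟩⟩,⟨false,0,⟨0,[]⟩,⟨0,[]⟩⟩,⟨false,0,⟨0,[]⟩,⟨0,[]⟩⟩,
  [.o ⟨false,1,⟨9,[(6,9),(4,0),(0,0),(15,1),(4,4)]⟩,⟨2,[(1,0),(14,0),(14,1),(1,0)]⟩⟩,.a ⟨true,1,⟨0,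
  [(6,0),(26,0)]⟩,⟨0,[(0,0),(14,0)]⟩⟩ ⟨false,1,⟨1,[(11,0),(0,0),(20,0)]⟩,⟨5,[(3,0),(3,0),(19,0),(1,
  1)]⟩⟩ ⟨true,1,⟨2,[(2,0),(3,2),(12,0),(13,2)]⟩,⟨0,[(0,0)]⟩⟩,.o ⟨false,1,⟨9,[(11,0),(0,0),(5,9),(9,
  1),(3,4)]⟩,⟨2,[(2,0),(16,0)]⟩⟩,.e ⟨true,0,⟨0,[]⟩,⟨0,[(35,0)]⟩⟩ ⟨true,1,⟨17,[(2,3),(3,17),(1,4),
  (19,0),(3,6),(0,8)]⟩,⟨0,[(0,0)]⟩⟩]⟩)) (.R ⟨0,false,false,false,[0,0,1],[0,1,-1],[1,0,0,0,0,0,0,1],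
  (⟨0,[(20,0)]⟩,⟨0,[(19,0)]⟩),(⟨0,[(9,0)]⟩,⟨0,[(20,0),(3,0)]⟩),⟨0,[(9,0)]⟩,.k,.k,.k,(.r 0 ⟨1,[(4,3),
  (2,0),(6,2),(2,0),(12,5)]⟩ ⟨3,[(0,2),(2,1),(13,5),(11,0),(1,0)]⟩),.k,.k,⟨false,0,⟨0,[(4,1),(9,1),
  (15,2)]⟩,⟨3,[(0,2),(2,1),(13,5),(11,0),(1,0)]⟩⟩,⟨true,0,⟨0,[(1,0)]⟩,⟨0,[(17,1)]⟩⟩,⟨true,0,⟨0,[]⟩,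
  ⟨0,[(34,0)]⟩⟩,⟨false,1,⟨0,[(0,0)]⟩,⟨0,[(4,1),(9,1),(2,1),(12,2)]⟩⟩,⟨false,0,⟨0,[]⟩,⟨0,[]⟩⟩,⟨false,
  0,⟨0,[]⟩,⟨0,[]⟩⟩,[.o ⟨false,1,⟨4,[(0,2),(14,0),(11,0),(1,1)]⟩,⟨0,[(4,0),(9,0),(2,0),(12,1)]⟩⟩,.o
  ⟨false,1,⟨22,[(0,18),(3,14),(3,2),(0,2),(11,5),(5,0),(2,10),(1,1)]⟩,⟨0,[(15,0),(14,0)]⟩⟩,.o
  ⟨false,1,⟨9,[(10,0),(0,0),(5,9),(9,1),(3,4)]⟩,⟨2,[(1,0),(16,0)]⟩⟩,.a ⟨true,0,⟨0,[(17,0)]⟩,⟨0,[(14,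
  0)]⟩⟩ ⟨true,0,⟨0,[(4,0),(9,0),(15,0)]⟩,⟨0,[(16,0),(0,0)]⟩⟩ ⟨false,1,⟨5,[(0,3),(0,1),(2,1),(9,1),
  (16,0),(0,0)]⟩,⟨0,[(4,0),(9,0),(2,1),(12,1)]⟩⟩]⟩)))))

theorem ok82 : chk K t82 r11 = true := by decide +kernel

noncomputable def t85 : Tre :=
  (.I [1,0,1,0,0,0,0,1] (.Q [0,0,0,0,0,0,-1,0,0,0,-1] (.p false [0,0,1] [] (⟨0,[(15,0)]⟩,⟨0,[(14,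
  0)]⟩) .k 0 (⟨0,[]⟩,⟨0,[]⟩) .k .k) (.Q [0,0,0,1,0,0,-1,-1,0,0,-1] (.p false [0,0,1] [] (⟨0,[(16,
  0)]⟩,⟨0,[(15,0)]⟩) .k 0 (⟨0,[]⟩,⟨0,[]⟩) .k .k) (.R ⟨0,false,false,false,[0,0,1],[0,1],[0,0,2,1],
  (⟨0,[(17,0)]⟩,⟨0,[(16,0)]⟩),(⟨0,[(22,0)]⟩,⟨0,[(21,0)]⟩),⟨0,[(6,0)]⟩,.k,.k,.k,.k,.k,.k,⟨true,0,⟨1,
  [(14,0),(0,0)]⟩,⟨0,[]⟩⟩,⟨false,1,⟨5,[(4,0),(6,3),(12,0),(3,3)]⟩,⟨0,[(14,0)]⟩⟩,⟨false,0,⟨0,[(3,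
  0)]⟩,⟨3,[(5,3),(0,3),(4,3),(0,3),(5,7),(6,1),(1,5),(0,0),(0,2)]⟩⟩,⟨true,0,⟨0,[(0,0)]⟩,⟨0,[(12,0),
  (14,0)]⟩⟩,⟨false,0,⟨0,[]⟩,⟨0,[]⟩⟩,⟨false,0,⟨0,[]⟩,⟨0,[]⟩⟩,[.o ⟨false,1,⟨9,[(7,0),(0,0),(15,1),(1,
  9),(2,4)]⟩,⟨0,[(27,0)]⟩⟩,.o ⟨false,1,⟨7,[(2,1),(0,1),(1,2),(0,2),(11,5),(5,0),(0,5),(3,5)]⟩,⟨0,
  [(27,0),(3,0)]⟩⟩,.o ⟨false,1,⟨9,[(7,0),(0,0),(5,9),(9,1),(3,4)]⟩,⟨0,[(1,0)]⟩⟩,.a ⟨true,0,⟨0,[(14,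
  0)]⟩,⟨0,[(11,0)]⟩⟩ ⟨true,0,⟨1,[(2,0),(0,0),(21,0)]⟩,⟨0,[(25,0),(1,1)]⟩⟩ ⟨false,1,⟨0,[(1,0),(23,0),
  (3,0)]⟩,⟨0,[(14,0),(12,0)]⟩⟩]⟩) (.I [0,0,0,-1,0,0,0,1] (.I [0,0,0,0,1,0,0,0,-1] (.I [0,0,-1,0,0,1,
  -1] (.C [(0,0),(2,0),(2,0),(2,0),(11,1),(6,0),(1,0)]) (.C [(0,0),(7,0),(5,0)])) (.C [(0,0),(8,0),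
  (2,0)])) (.C [(0,0),(0,0),(0,0)]))) (.Q [0,0,0,1,0,0,-1,-1,0,0,-1] (.p false [0,0,1] [] (⟨0,[(16,
  0)]⟩,⟨0,[(15,0)]⟩) .k 0 (⟨0,[]⟩,⟨0,[]⟩) .k .k) (.R ⟨0,false,false,true,[1,-1],[1,-1,1],[1,1],(⟨0,
  [(21,0)]⟩,⟨0,[(22,0)]⟩),(⟨0,[(17,0),(3,0)]⟩,⟨0,[(6,0)]⟩),⟨0,[(5,0),(0,0)]⟩,.k,.k,(.r (-1) ⟨0,[(27,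
  1),(0,0)]⟩ ⟨0,[(2,0),(0,0),(21,0)]⟩),.k,.k,.k,⟨false,0,⟨0,[(0,0),(0,0)]⟩,⟨0,[(2,0),(24,0),(0,
  0)]⟩⟩,⟨true,0,⟨0,[(1,0)]⟩,⟨0,[(15,0)]⟩⟩,⟨false,0,⟨1,[(2,0),(0,0),(21,0)]⟩,⟨1,[(27,1),(0,0),(0,
  0)]⟩⟩,⟨true,0,⟨0,[(12,0)]⟩,⟨0,[(0,0),(26,0)]⟩⟩,⟨false,0,⟨0,[]⟩,⟨0,[]⟩⟩,⟨false,0,⟨0,[]⟩,⟨0,[]⟩⟩,
  [.o ⟨false,0,⟨0,[(12,0),(14,0)]⟩,⟨13,[(0,11),(2,1),(0,0),(19,2),(3,1),(0,5)]⟩⟩,.a ⟨true,0,⟨0,[(1,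
  1),(0,0),(8,0),(15,0)]⟩,⟨0,[(0,0)]⟩⟩ ⟨true,0,⟨0,[]⟩,⟨1,[(14,0),(0,0)]⟩⟩ ⟨false,1,⟨0,[(1,0),(3,0),
  (0,0),(4,0),(0,0),(5,1),(6,0),(1,1),(1,0)]⟩,⟨5,[(0,2),(2,1),(9,0),(1,1),(10,0)]⟩⟩,.o ⟨false,0,⟨1,
  [(14,0),(0,0)]⟩,⟨9,[(7,0),(0,0),(15,1),(3,4)]⟩⟩,.o ⟨false,0,⟨0,[(14,0),(0,0)]⟩,⟨3,[(5,3),(0,3),
  (11,7),(6,5),(1,5),(0,0),(0,2)]⟩⟩]⟩) (.I [0,0,0,0,0,1,1] (.I [0,0,0,0,1,0,0,0,-1] (.I [0,0,-1,0,0,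
  1,-1] (.C [(0,0),(2,0),(2,0),(2,0),(11,1),(6,0),(1,0)]) (.C [(0,0),(7,0),(5,0)])) (.C [(0,0),(8,
  0),(2,0)])) (.C [(0,0),(1,0),(4,0)])))) (.I [0,-1,1,0,0,0,0,-1] (.I [1,1,0,0,0,0,0,1] (.R ⟨0,
  false,false,false,[1,-1],[1,0,-1],[0,0,1,0,0,0,0,-1],(⟨0,[(21,0)]⟩,⟨0,[(22,0)]⟩),(⟨0,[(16,0)]⟩,⟨0,
  [(17,0)]⟩),⟨0,[(5,0),(0,0)]⟩,.k,.k,(.x 0 ⟨0,[(14,0),(0,0),(3,1)]⟩ ⟨0,[(18,1),(6,1),(1,1),(1,0)]⟩),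
  .k,.k,.k,⟨true,0,⟨1,[(14,0),(0,0)]⟩,⟨0,[]⟩⟩,⟨false,1,⟨5,[(4,0),(6,3),(12,0),(3,3)]⟩,⟨0,[(14,0)]⟩⟩,
  ⟨false,0,⟨0,[(3,0)]⟩,⟨3,[(5,3),(0,3),(4,3),(0,3),(5,7),(6,1),(1,5),(0,0),(0,2)]⟩⟩,⟨true,0,⟨1,[(1,
  1),(2,0),(0,0),(0,0),(11,1),(6,1)]⟩,⟨0,[(12,0),(14,0)]⟩⟩,⟨false,0,⟨0,[]⟩,⟨0,[]⟩⟩,⟨false,0,⟨0,[]⟩,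
  ⟨0,[]⟩⟩,[.o ⟨false,0,⟨0,[(2,0),(12,0)]⟩,⟨9,[(7,0),(0,0),(3,9),(11,1),(4,4)]⟩⟩,.a ⟨true,0,⟨0,[(1,
  0),(9,0)]⟩,⟨0,[(12,0)]⟩⟩ ⟨true,0,⟨0,[(1,0)]⟩,⟨0,[(0,0)]⟩⟩ ⟨false,1,⟨5,[(2,5),(1,0),(6,3),(12,0),
  (3,0),(0,2)]⟩,⟨1,[(12,1),(1,0),(0,0)]⟩⟩,.o ⟨false,0,⟨1,[(14,0),(0,0)]⟩,⟨9,[(7,0),(0,0),(15,1),(3,
  4)]⟩⟩,.o ⟨false,0,⟨0,[(14,0),(0,0)]⟩,⟨3,[(5,3),(0,3),(11,7),(6,5),(1,5),(0,0),(0,2)]⟩⟩]⟩) (.I [0,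
  0,0,0,1,0,0,0,-1] (.I [0,0,-1,0,0,1,-1] (.C [(0,0),(1,0),(5,0),(5,0),(5,1),(11,0)]) (.C [(0,0),(6,
  0),(5,0)])) (.C [(0,0),(7,0),(2,0)]))) (.Q [0,0,0,0,0,0,-1,0,0,0,-1] (.p false [0,0,1] [] (⟨0,
  [(16,0)]⟩,⟨0,[(15,0)]⟩) .k 0 (⟨0,[]⟩,⟨0,[]⟩) .k .k) (.R ⟨0,false,false,false,[0,0,1],[0,1],[1,1,0,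
  0,0,0,0,1],(⟨0,[(17,0)]⟩,⟨0,[(16,0)]⟩),(⟨0,[(22,0)]⟩,⟨0,[(21,0)]⟩),⟨0,[(6,0)]⟩,.k,.k,.k,.k,.k,.k,
  ⟨true,0,⟨0,[(1,0),(25,0)]⟩,⟨0,[(3,0)]⟩⟩,⟨false,1,⟨5,[(4,0),(6,3),(12,0),(3,3)]⟩,⟨0,[(14,0)]⟩⟩,
  ⟨false,0,⟨0,[]⟩,⟨1,[(7,0),(0,0),(20,0)]⟩⟩,⟨true,0,⟨1,[(0,1),(1,0),(0,0),(21,0)]⟩,⟨0,[(12,0),(14,
  0)]⟩⟩,⟨false,0,⟨0,[]⟩,⟨0,[]⟩⟩,⟨false,0,⟨0,[]⟩,⟨0,[]⟩⟩,[.o ⟨false,1,⟨9,[(7,0),(0,0),(15,1),(1,9),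
  (2,4)]⟩,⟨0,[(27,0)]⟩⟩,.o ⟨false,1,⟨7,[(1,3),(1,3),(1,2),(0,2),(11,5),(5,0),(0,3),(3,5)]⟩,⟨0,[(27,
  0),(3,0)]⟩⟩,.o ⟨false,1,⟨9,[(7,0),(0,0),(5,9),(9,1),(3,4)]⟩,⟨0,[(0,0)]⟩⟩,.a ⟨true,0,⟨0,[(14,0)]⟩,
  ⟨0,[(11,0)]⟩⟩ ⟨true,0,⟨0,[(1,0)]⟩,⟨4,[(2,0),(0,1),(9,1),(0,1),(12,1)]⟩⟩ ⟨false,1,⟨0,[(0,0),(24,0),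
  (3,0)]⟩,⟨0,[(14,0),(12,0)]⟩⟩]⟩) (.Q [0,-1,0,-1,0,0,-1,-1,0,1,-1] (.p false [0,0,1] [1] (⟨0,[(17,
  0)]⟩,⟨0,[(16,0)]⟩) .k 1 (⟨0,[]⟩,⟨0,[]⟩) .k .k) (.R ⟨0,false,false,true,[1,0,-1],[0,1],[0,1,1],(⟨0,
  [(17,0)]⟩,⟨0,[(18,0)]⟩),(⟨0,[(23,0)]⟩,⟨0,[(22,0)]⟩),⟨0,[(6,0)]⟩,.k,.k,.k,.k,.k,.k,⟨true,0,⟨0,[(28,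
  0)]⟩,⟨0,[(2,0),(1,0)]⟩⟩,⟨false,1,⟨4,[(1,4),(0,3),(0,3),(21,0),(3,0),(0,1)]⟩,⟨0,[(5,0),(9,0)]⟩⟩,
  ⟨true,0,⟨0,[(13,0),(2,0)]⟩,⟨0,[(3,0)]⟩⟩,⟨false,1,⟨4,[(1,2),(0,6),(1,3),(8,1),(11,0),(0,0),(3,2)]⟩,
  ⟨0,[(0,0)]⟩⟩,⟨false,0,⟨0,[]⟩,⟨0,[]⟩⟩,⟨false,0,⟨0,[]⟩,⟨0,[]⟩⟩,[.o ⟨false,0,⟨0,[(2,1),(0,0),(0,0),
  (1,0),(0,0),(11,1),(11,0)]⟩,⟨1,[(8,0),(0,0),(18,1),(1,0)]⟩⟩,.o ⟨false,1,⟨9,[(8,0),(0,0),(15,1),(1,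
  9),(2,4)]⟩,⟨0,[(28,0)]⟩⟩,.a ⟨true,0,⟨1,[(5,0),(6,0),(2,0)]⟩,⟨0,[(1,0)]⟩⟩ ⟨false,0,⟨1,[(15,0),(0,
  0)]⟩,⟨1,[(29,0),(0,0)]⟩⟩ ⟨true,0,⟨0,[(1,0),(0,1),(0,0),(0,0),(1,0),(0,0),(11,1),(11,0)]⟩,⟨1,[(0,
  0),(4,0),(7,0),(14,0)]⟩⟩,.o ⟨false,0,⟨0,[(16,0)]⟩,⟨4,[(1,3),(13,0),(9,0),(3,2)]⟩⟩]⟩) (.I [0,0,0,0,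
  1,0,0,0,-1] (.I [0,0,0,0,0,1,1] (.C [(0,0),(1,0),(3,0),(1,0),(5,1),(6,1),(8,1)]) (.C [(0,0),(2,0),
  (5,0)])) (.C [(0,0),(8,0),(2,0)]))))))

theorem ok85 : chk K t85 r0 = true := by decide +kernel


end Helper25.S1T.Ymp_1aP2
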