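import Pool.Agent.Helper25.S1T.Ymp_1aP2_p0
import Pool.Agent.Helper25.S1T.Ymp_1aP2_p1
import Pool.Agent.Helper25.S1T.Ymp_1aP2_p2

set_option autoImplicit false
set_option linter.all false

namespace Helper25.S1T.Ymp_1aP2

open Helper25.KG Helper25.KW Helper55.KE Helper11.CT

noncomputable def t6 : Tre :=
  .I [0,0,2,1] t4 t5

theorem ok6 : chk K t6 r9 = true :=
  chk_I (e' := [1,0,-2,-1]) (by decide +kernel) (by decide +kernel) ok4 ok5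

noncomputable def t7 : Tre :=
  .Q [0,1,0,-1,-1,0,0,0,1,0,0,1] (.p true [0,0,0,0,1] [] (⟨0,[(15,0)]⟩,⟨0,[(14,0)]⟩) .k 0 (⟨0,[]⟩,
  ⟨0,[]⟩) .k .k) t3 t6

theorem ok7 : chk K t7 l8 = true :=
  chk_Q (e' := [0,-1,0,1,1,0,0,0,-1,0,0,-1]) (by decide +kernel) (by decide +kernel) ok3 ok6

noncomputable def t9 : Tre :=
  .Q [0,0,0,0,0,0,1,0,1,-1,1,1] (.p true [0,0,1] [1,0,0,0,-1] (⟨0,[(21,0)]⟩,⟨0,[(20,0)]⟩) .k 2 (⟨0,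
  [(13,0)]⟩,⟨0,[(14,0)]⟩) .k (.r 0 ⟨3,[(0,0),(1,0),(4,0),(8,1),(2,1),(10,0)]⟩ ⟨0,[(5,0),(11,0),(15,
  0)]⟩)) t7 t8

theorem ok9 : chk K t9 r7 = true :=
  chk_Q (e' := [0,0,0,0,0,0,-1,0,-1,1,-1,-1]) (by decide +kernel) (by decide +kernel) ok7 ok8

noncomputable def t10 : Tre :=
  .Q [0,0,0,0,0,0,-1,-1,1,0,-1,1] (.p false [0,0,1] [0,0,0,0,1] (⟨0,[(20,0)]⟩,⟨0,[(19,0)]⟩) .k 2
  (⟨0,[(13,0)]⟩,⟨0,[(12,0)]⟩) .k (.r (-1) ⟨9,[(5,3),(1,4),(7,5),(11,0),(1,3),(2,7)]⟩ ⟨0,[(4,0),(11,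
  0)]⟩)) t2 t9

theorem ok10 : chk K t10 l6 = true :=
  chk_Q (e' := [0,0,0,0,0,0,1,1,-1,0,1,-1]) (by decide +kernel) (by decide +kernel) ok2 ok9

noncomputable def t12 : Tre :=
  .Q [0,-1,0,0,1,0,0,0,-1,0,0,-1] (.p false [0,0,0,0,1] [] (⟨0,[(12,0)]⟩,⟨0,[(11,0)]⟩) .k 0 (⟨0,[]⟩,
  ⟨0,[]⟩) .k .k) t10 t11

theorem ok12 : chk K t12 l5 = true :=
  chk_Q (e' := [0,1,0,0,-1,0,0,0,1,0,0,1]) (by decide +kernel) (by decide +kernel) ok10 ok11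

noncomputable def t14 : Tre :=
  .Q [0,0,0,0,0,0,-1,0,1,0,-1,1] (.p false [0,0,1] [0,0,0,0,1] (⟨0,[(18,0)]⟩,⟨0,[(17,0)]⟩) .k 2 (⟨0,
  [(11,0)]⟩,⟨0,[(10,0)]⟩) .k (.r (-1) ⟨9,[(3,3),(1,4),(7,5),(11,0),(1,3),(2,7)]⟩ ⟨0,[(2,0),(11,
  0)]⟩)) t12 t13

theorem ok14 : chk K t14 l4 = true :=
  chk_Q (e' := [0,0,0,0,0,0,1,0,-1,0,1,-1]) (by decide +kernel) (by decide +kernel) ok12 ok13

noncomputable def t16 : Tre :=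
  .Q [0,0,-1,0,1,0,0,0,-1,0,0,-1] (.p false [0,0,0,0,1] [] (⟨0,[(10,0)]⟩,⟨0,[(9,0)]⟩) .k 0 (⟨0,[]⟩,
  ⟨0,[]⟩) .k .k) t14 t15

theorem ok16 : chk K t16 r3 = true :=
  chk_Q (e' := [0,0,1,0,-1,0,0,0,1,0,0,1]) (by decide +kernel) (by decide +kernel) ok14 ok15

noncomputable def t17 : Tre :=
  .I [1,0,1,1] t1 t16

theorem ok17 : chk K t17 r2 = true :=
  chk_I (e' := [0,0,-1,-1]) (by decide +kernel) (by decide +kernel) ok1 ok16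

noncomputable def t18 : Tre :=
  .Q [0,0,0,0,0,0,-1,0,0,0,-1] (.p false [0,0,1] [] (⟨0,[(15,0)]⟩,⟨0,[(14,0)]⟩) .k 0 (⟨0,[]⟩,⟨0,
  []⟩) .k .k) t0 t17

theorem ok18 : chk K t18 l1 = true :=
  chk_Q (e' := [0,0,0,0,0,0,1,0,0,0,1]) (by decide +kernel) (by decide +kernel) ok0 ok17

noncomputable def t30 : Tre :=
  .Q [0,0,1,0,0,0,2,0,0,-1,2] (.p true [0,0,1] [1,0,-1] (⟨0,[(30,0)]⟩,⟨0,[(29,0)]⟩) .k 2 (⟨0,[(29,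
  0)]⟩,⟨0,[(30,0)]⟩) .k (.r (-1) ⟨0,[(3,0),(0,0),(7,0),(12,0),(2,0)]⟩ ⟨0,[(2,0),(2,0),(5,0),(15,
  0)]⟩)) t28 t29

theorem ok30 : chk K t30 r25 = true :=
  chk_Q (e' := [0,0,-1,0,0,0,-2,0,0,1,-2]) (by decide +kernel) (by decide +kernel) ok28 ok29

noncomputable def t31 : Tre :=
  .Q [0,0,0,0,0,0,0,1,1,0,0,1] (.p true [0,0,0,0,1] [] (⟨0,[(22,0)]⟩,⟨0,[(21,0)]⟩) .k 0 (⟨0,[]⟩,⟨0,
  []⟩) .k .k) t27 t30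

theorem ok31 : chk K t31 r24 = true :=
  chk_Q (e' := [0,0,0,0,0,0,0,-1,-1,0,0,-1]) (by decide +kernel) (by decide +kernel) ok27 ok30

noncomputable def t32 : Tre :=
  .Q [0,0,1,0,0,0,0,0,-1,1,0,-1] (.p false [0,0,0,0,1] [1] (⟨0,[(21,0)]⟩,⟨0,[(20,0)]⟩) .k 1 (⟨0,[]⟩,
  ⟨0,[]⟩) .k .k) t26 t31

theorem ok32 : chk K t32 r23 = true :=
  chk_Q (e' := [0,0,-1,0,0,0,0,0,1,-1,0,1]) (by decide +kernel) (by decide +kernel) ok26 ok31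

noncomputable def t33 : Tre :=
  .Q [0,0,1,0,0,0,-1,0,-1,1,-1,-1] (.p false [0,0,1] [1,0,0,0,-1] (⟨0,[(27,0)]⟩,⟨0,[(26,0)]⟩) .k 2
  (⟨0,[(19,0)]⟩,⟨0,[(20,0)]⟩) .k (.r 0 ⟨0,[(9,0),(15,0),(9,0)]⟩ ⟨37,[(10,17),(0,9),(0,9),(11,19),(9,
  1),(3,0),(0,32)]⟩)) t25 t32

theorem ok33 : chk K t33 r22 = true :=
  chk_Q (e' := [0,0,-1,0,0,0,1,0,1,-1,1,1]) (by decide +kernel) (by decide +kernel) ok25 ok32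

noncomputable def t34 : Tre :=
  .Q [0,1,0,-1,-1,0,0,0,1,0,0,1] (.p true [0,0,0,0,1] [] (⟨0,[(19,0)]⟩,⟨0,[(18,0)]⟩) .k 0 (⟨0,[]⟩,
  ⟨0,[]⟩) .k .k) t24 t33

theorem ok34 : chk K t34 l21 = true :=
  chk_Q (e' := [0,-1,0,1,1,0,0,0,-1,0,0,-1]) (by decide +kernel) (by decide +kernel) ok24 ok33

noncomputable def t36 : Tre :=
  .Q [0,0,-1,0,0,0,-1,0,1,0,-1,1] (.p false [0,0,1] [0,0,0,0,1] (⟨0,[(25,0)]⟩,⟨0,[(24,0)]⟩) .k 2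
  (⟨0,[(18,0)]⟩,⟨0,[(17,0)]⟩) .k (.r (-1) ⟨0,[(7,0),(15,0),(9,0),(3,0)]⟩ ⟨1,[(8,0),(12,0),(0,0)]⟩))
  t34 t35

theorem ok36 : chk K t36 r20 = true :=
  chk_Q (e' := [0,0,1,0,0,0,1,0,-1,0,1,-1]) (by decide +kernel) (by decide +kernel) ok34 ok35

noncomputable def t37 : Tre :=
  .Q [0,0,0,0,0,0,1,1,1,-1,1,1] (.p true [0,0,1] [1,0,0,0,-1] (⟨0,[(24,0)]⟩,⟨0,[(23,0)]⟩) .k 2 (⟨0,
  [(16,0)]⟩,⟨0,[(17,0)]⟩) .k (.r 0 ⟨0,[(6,0),(15,0),(9,0)]⟩ ⟨37,[(7,17),(0,9),(0,9),(11,19),(9,1),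
  (3,0),(0,32)]⟩)) t23 t36

theorem ok37 : chk K t37 l19 = true :=
  chk_Q (e' := [0,0,0,0,0,0,-1,-1,-1,1,-1,-1]) (by decide +kernel) (by decide +kernel) ok23 ok36

noncomputable def t39 : Tre :=
  .Q [0,-1,0,0,1,0,0,0,-1,0,0,-1] (.p false [0,0,0,0,1] [] (⟨0,[(16,0)]⟩,⟨0,[(15,0)]⟩) .k 0 (⟨0,[]⟩,
  ⟨0,[]⟩) .k .k) t37 t38

theorem ok39 : chk K t39 r18 = true :=
  chk_Q (e' := [0,1,0,0,-1,0,0,0,1,0,0,1]) (by decide +kernel) (by decide +kernel) ok37 ok38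

noncomputable def t40 : Tre :=
  .I [0,0,2,1] t22 t39

theorem ok40 : chk K t40 r17 = true :=
  chk_I (e' := [1,0,-2,-1]) (by decide +kernel) (by decide +kernel) ok22 ok39

noncomputable def t41 : Tre :=
  .Q [0,0,0,0,0,0,1,0,-1,0,1,-1] (.p true [0,0,1] [0,0,0,0,1] (⟨0,[(21,0)]⟩,⟨0,[(20,0)]⟩) .k 2 (⟨0,
  [(14,0)]⟩,⟨0,[(13,0)]⟩) .k (.r (-1) ⟨0,[(3,0),(15,0),(9,0),(3,0)]⟩ ⟨1,[(4,0),(12,0),(0,0)]⟩)) t21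
  t40

theorem ok41 : chk K t41 r16 = true :=
  chk_Q (e' := [0,0,0,0,0,0,-1,0,1,0,-1,1]) (by decide +kernel) (by decide +kernel) ok21 ok40

noncomputable def t42 : Tre :=
  .Q [0,0,1,0,-1,0,0,0,1,0,0,1] (.p true [0,0,0,0,1] [] (⟨0,[(13,0)]⟩,⟨0,[(12,0)]⟩) .k 0 (⟨0,[]⟩,⟨0,
  []⟩) .k .k) t20 t41

theorem ok42 : chk K t42 r15 = true :=
  chk_Q (e' := [0,0,-1,0,1,0,0,0,-1,0,0,-1]) (by decide +kernel) (by decide +kernel) ok20 ok41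

noncomputable def t43 : Tre :=
  .Q [0,0,0,0,0,0,-1,0,0,0,-1] (.p false [0,0,1] [] (⟨0,[(19,0)]⟩,⟨0,[(18,0)]⟩) .k 0 (⟨0,[]⟩,⟨0,
  []⟩) .k .k) t19 t42

theorem ok43 : chk K t43 l14 = true :=
  chk_Q (e' := [0,0,0,0,0,0,1,0,0,0,1]) (by decide +kernel) (by decide +kernel) ok19 ok42

noncomputable def t50 : Tre :=
  .I [1,-1,0,1,1,0,0,-3] t48 t49

theorem ok50 : chk K t50 r32 = true :=
  chk_I (e' := [0,1,0,-1,-1,0,0,3]) (by decide +kernel) (by decide +kernel) ok48 ok49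

noncomputable def t51 : Tre :=
  .Q [0,-1,0,-1,0,0,0,0,0,1] (.pp false [-1,1]) t47 t50

theorem ok51 : chk K t51 r31 = true :=
  chk_Q (e' := [0,1,0,1,0,0,0,0,0,-1]) (by decide +kernel) (by decide +kernel) ok47 ok50

noncomputable def t52 : Tre :=
  .I [1,0,1,1] t46 t51

theorem ok52 : chk K t52 r30 = true :=
  chk_I (e' := [0,0,-1,-1]) (by decide +kernel) (by decide +kernel) ok46 ok51

noncomputable def t53 : Tre :=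
  .Q [0,0,0,0,0,0,-1,0,0,0,-1] (.p false [0,0,1] [] (⟨0,[(22,0)]⟩,⟨0,[(21,0)]⟩) .k 0 (⟨0,[]⟩,⟨0,
  []⟩) .k .k) t45 t52

theorem ok53 : chk K t53 l29 = true :=
  chk_Q (e' := [0,0,0,0,0,0,1,0,0,0,1]) (by decide +kernel) (by decide +kernel) ok45 ok52

noncomputable def t55 : Tre :=
  .I [0,0,-1,-1,0,0,0,1] t53 t54

theorem ok55 : chk K t55 r28 = true :=
  chk_I (e' := [1,0,1,1,0,0,0,-1]) (by decide +kernel) (by decide +kernel) ok53 ok54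

noncomputable def t56 : Tre :=
  .Q [0,0,-1,0,0,0,-2,0,0,0,-2] (.p false [0,0,1] [0,1,-1] (⟨0,[(20,0)]⟩,⟨0,[(19,0)]⟩) .k 2 (⟨0,[(9,
  0)]⟩,⟨0,[(20,0),(3,0)]⟩) .k (.x (-1) ⟨8,[(1,3),(1,3),(5,12),(7,13),(1,4),(1,12),(5,0),(0,9),(1,9),
  (1,6)]⟩ ⟨0,[(8,1),(5,1),(6,1),(11,1)]⟩)) t44 t55

theorem ok56 : chk K t56 l27 = true :=
  chk_Q (e' := [0,0,1,0,0,0,2,0,0,0,2]) (by decide +kernel) (by decide +kernel) ok44 ok55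

noncomputable def t59 : Tre :=
  .Q [0,0,-1,0,0,0,-2,0,0,0,-2] (.p false [0,0,1] [0,1,-1] (⟨0,[(21,0)]⟩,⟨0,[(20,0)]⟩) .k 2 (⟨0,
  [(10,0)]⟩,⟨0,[(21,0),(3,0)]⟩) .k (.r 0 ⟨1,[(1,1),(6,0),(0,0),(0,0),(8,1),(2,1),(6,1),(3,1)]⟩ ⟨18,
  [(4,17),(0,9),(0,9),(11,19),(9,1),(3,0),(0,13)]⟩)) t57 t58

theorem ok59 : chk K t59 l34 = true :=
  chk_Q (e' := [0,0,1,0,0,0,2,0,0,0,2]) (by decide +kernel) (by decide +kernel) ok57 ok58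

noncomputable def t61 : Tre :=
  .Q [0,0,-1,0,1,0,0,0,-1,0,0,-1] (.p false [0,0,0,0,1] [] (⟨0,[(13,0)]⟩,⟨0,[(12,0)]⟩) .k 0 (⟨0,[]⟩,
  ⟨0,[]⟩) .k .k) t59 t60

theorem ok61 : chk K t61 r27 = true :=
  chk_Q (e' := [0,0,1,0,-1,0,0,0,1,0,0,1]) (by decide +kernel) (by decide +kernel) ok59 ok60

noncomputable def t62 : Tre :=
  .Q [0,-1,0,1,1,0,-2,-2,0,0,-2] (.p false [0,0,1] [0,1,-1] (⟨0,[(19,0)]⟩,⟨0,[(18,0)]⟩) .k 2 (⟨0,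
  [(8,0)]⟩,⟨0,[(19,0),(3,0)]⟩) .k (.x (-1) ⟨8,[(0,3),(1,3),(5,12),(7,13),(1,4),(1,12),(5,0),(0,9),
  (1,9),(1,6)]⟩ ⟨0,[(7,1),(5,1),(6,1),(11,1)]⟩)) t56 t61

theorem ok62 : chk K t62 r14 = true :=
  chk_Q (e' := [0,1,0,-1,-1,0,2,2,0,0,2]) (by decide +kernel) (by decide +kernel) ok56 ok61

noncomputable def t63 : Tre :=
  .Q [0,0,0,0,0,0,-1,-1,0,0,-1] (.p false [0,0,1] [] (⟨0,[(18,0)]⟩,⟨0,[(17,0)]⟩) .k 0 (⟨0,[]⟩,⟨0,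
  []⟩) .k .k) t43 t62

theorem ok63 : chk K t63 l13 = true :=
  chk_Q (e' := [0,0,0,0,0,0,1,1,0,0,1]) (by decide +kernel) (by decide +kernel) ok43 ok62

noncomputable def t69 : Tre :=
  .Q [0,-1,0,0,1,0,0,0,-1,0,0,-1] (.p false [0,0,0,0,1] [] (⟨0,[(17,0)]⟩,⟨0,[(16,0)]⟩) .k 0 (⟨0,[]⟩,
  ⟨0,[]⟩) .k .k) t67 t68

theorem ok69 : chk K t69 l41 = true :=
  chk_Q (e' := [0,1,0,0,-1,0,0,0,1,0,0,1]) (by decide +kernel) (by decide +kernel) ok67 ok68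

noncomputable def t71 : Tre :=
  .Q [0,0,-1,0,1,0,0,0,-1,0,0,-1] (.p false [0,0,0,0,1] [] (⟨0,[(16,0)]⟩,⟨0,[(15,0)]⟩) .k 0 (⟨0,[]⟩,
  ⟨0,[]⟩) .k .k) t69 t70

theorem ok71 : chk K t71 l40 = true :=
  chk_Q (e' := [0,0,1,0,-1,0,0,0,1,0,0,1]) (by decide +kernel) (by decide +kernel) ok69 ok70

noncomputable def t73 : Tre :=
  .Q [0,0,1,0,0,0,0,0,1,-1,0,1] (.p true [0,0,0,0,1] [1] (⟨0,[(15,0)]⟩,⟨0,[(14,0)]⟩) .k 1 (⟨0,[]⟩,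
  ⟨0,[]⟩) .k .k) t71 t72

theorem ok73 : chk K t73 r39 = true :=
  chk_Q (e' := [0,0,-1,0,0,0,0,0,-1,1,0,-1]) (by decide +kernel) (by decide +kernel) ok71 ok72

noncomputable def t74 : Tre :=
  .Q [0,-1,0,-1,0,0,0,0,0,1] (.pp false [-1,1]) t66 t73

theorem ok74 : chk K t74 r38 = true :=
  chk_Q (e' := [0,1,0,1,0,0,0,0,0,-1]) (by decide +kernel) (by decide +kernel) ok66 ok73

noncomputable def t75 : Tre :=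
  .Q [0,0,0,0,0,0,-1,0,0,0,-1] (.p false [0,0,1] [] (⟨0,[(20,0)]⟩,⟨0,[(19,0)]⟩) .k 0 (⟨0,[]⟩,⟨0,
  []⟩) .k .k) t65 t74

theorem ok75 : chk K t75 r37 = true :=
  chk_Q (e' := [0,0,0,0,0,0,1,0,0,0,1]) (by decide +kernel) (by decide +kernel) ok65 ok74

noncomputable def t76 : Tre :=
  .Q [0,0,-1,0,0,0,-2,0,0,0,-2] (.p false [0,0,1] [0,1,-1] (⟨0,[(19,0)]⟩,⟨0,[(18,0)]⟩) .k 2 (⟨0,[(8,
  0)]⟩,⟨0,[(19,0),(3,0)]⟩) .k (.x (-1) ⟨20,[(2,3),(2,3),(2,36),(7,41),(1,4),(1,36),(5,0),(0,29),(1,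
  25),(1,18)]⟩ ⟨0,[(7,1),(5,1),(6,1),(11,1)]⟩)) t64 t75

theorem ok76 : chk K t76 l36 = true :=
  chk_Q (e' := [0,0,1,0,0,0,2,0,0,0,2]) (by decide +kernel) (by decide +kernel) ok64 ok75

noncomputable def t78 : Tre :=
  .Q [0,-1,0,1,0,0,-2,-2,0,0,-2] (.p false [0,0,1] [0,1,-1] (⟨0,[(18,0)]⟩,⟨0,[(17,0)]⟩) .k 2 (⟨0,
  [(7,0)]⟩,⟨0,[(18,0),(3,0)]⟩) .k (.x (-1) ⟨20,[(1,3),(2,3),(2,36),(7,41),(1,4),(1,36),(5,0),(0,29),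
  (1,25),(1,18)]⟩ ⟨0,[(6,1),(5,1),(6,1),(11,1)]⟩)) t76 t77

theorem ok78 : chk K t78 r13 = true :=
  chk_Q (e' := [0,1,0,-1,0,0,2,2,0,0,2]) (by decide +kernel) (by decide +kernel) ok76 ok77

noncomputable def t79 : Tre :=
  .Q [0,0,0,-1,0,0,1,1,0,0,1] (.p true [0,0,1] [] (⟨0,[(17,0)]⟩,⟨0,[(16,0)]⟩) .k 0 (⟨0,[]⟩,⟨0,[]⟩)
  .k .k) t63 t78

theorem ok79 : chk K t79 l12 = true :=
  chk_Q (e' := [0,0,0,1,0,0,-1,-1,0,0,-1]) (by decide +kernel) (by decide +kernel) ok63 ok78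

noncomputable def t81 : Tre :=
  .I [1,1,-1,0,0,0,0,-1] t79 t80

theorem ok81 : chk K t81 l11 = true :=
  chk_I (e' := [0,-1,1,0,0,0,0,1]) (by decide +kernel) (by decide +kernel) ok79 ok80

noncomputable def t83 : Tre :=
  .Q [0,0,0,-1,0,0,-1,-1,0,1,-1] (.p false [0,0,1] [1] (⟨0,[(15,0)]⟩,⟨0,[(14,0)]⟩) .k 1 (⟨0,[]⟩,⟨0,
  []⟩) .k .k) t81 t82

theorem ok83 : chk K t83 r1 = true :=
  chk_Q (e' := [0,0,0,1,0,0,1,1,0,-1,1]) (by decide +kernel) (by decide +kernel) ok81 ok82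

noncomputable def t84 : Tre :=
  .Q [0,-1,0,-1,0,0,1,1,0,0,1] (.p true [0,0,1] [] (⟨0,[(14,0)]⟩,⟨0,[(13,0)]⟩) .k 0 (⟨0,[]⟩,⟨0,[]⟩)
  .k .k) t18 t83

theorem ok84 : chk K t84 l0 = true :=
  chk_Q (e' := [0,1,0,1,0,0,-1,-1,0,0,-1]) (by decide +kernel) (by decide +kernel) ok18 ok83

noncomputable def t86 : Tre :=
  .I [1,1,-2,-1,0,0,0,1] t84 t85

theorem ok86 : chk K t86 base = true :=
  chk_I (e' := [0,-1,2,1,0,0,0,-1]) (by decide +kernel) (by decide +kernel) ok84 ok85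

theorem closed {p a b c J l q : ℤ} {D dl : ℝ} {Cl : ℤ → ℤ → ℤ → ℤ → ℝ → Prop}
    (W : World p a b c J 1 l q D dl Cl) (g : G0 p a b c J D)
    {N X R : ℤ} {I : ℝ} (hk : KCl p l Cl N X R I) (kz : KF a b D (X + (1 : ℤ) * I) (X + (1 : ℤ) * I + R) I)
    {Ne Xe : ℤ} {Ie : ℝ} (he : EFac p 1 D Cl (a) Ne Xe Ie)
    (hkf : ∀ kf ∈ (kfY 1 [0,0,0,0,0,0,1,0,0,0,1]), KOk p l Cl 1
      (xv [1, a, b, c, p, J, X, R, Xe] [D, I, Ie]) N kf)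
    (h0 : 1 ≤ -(c : ℝ))
    (h1 : 1 ≤ (a : ℝ) - (b : ℝ) + (c : ℝ))
    (h2 : 0 < 1 + 2 * (p : ℝ) - 5 * D)
    (h3 : 1 ≤ 2 * (a : ℝ) - (b : ℝ))
    (h4 : 1 ≤ -1 + (J : ℝ))
    (h5 : 1 ≤ 3 - (J : ℝ))
    (h6 : 0 < -(b : ℝ) - (X : ℝ) + D - I)
    (h7 : 0 < (J : ℝ) - I)
    (h8 : 0 < (J : ℝ) - D + I)
    (h9 : 0 < -2 * (X : ℝ) + D - 2 * I) : False := by
  have g1 := g.a2
  have g2 := g.b2
  have g3 := g.pa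
  have g4 := g.pb
  have g5 := g.J1
  have g6 := g.JD
  have g7 := g.D2
  have g8 := g.ca
  have g9 := g.ca'
  have k1 := kz.I0
  have k2 := kz.ID
  have k3 := kz.z1
  have k4 := kz.z2
  have k5 := kz.s1
  have k6 := kz.s2
  have e1 := he.I0
  have e2 := he.ID
  have e3 := he.x0
  have e4 := he.xp
  push_cast at *
  refine (val_E W.toBase hk he (row := [0,1]) (by simp) (by simp) (kfY 1 [0,0,0,0,0,0,1,0,0,0,1])).sound W rfl (Nk := N)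
    (fun kf _ _ => ⟨_, rfl⟩) hkf ?_ ok86
  · simp only [base, List.forall_mem_cons, List.not_mem_nil, false_imp_iff, implies_true,
      and_true, hld, xv, evg_cons, evg_nil, List.map_cons, List.map_nil, List.cons_append,
      List.nil_append, if_true, if_false, Bool.false_eq_true]
    push_cast
    refine ⟨?_, ?_, ?_, ?_, ?_, ?_, ?_, ?_, ?_, ?_, ?_, ?_, ?_, ?_, ?_, ?_, ?_, ?_, ?_, ?_, ?_, ?_, ?_, ?_, ?_, ?_, ?_, ?_⟩ <;> linarith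

end Helper25.S1T.Ymp_1aP2
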