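import Pool.Agent.Helper25.S1T.Ymp_1aP2_q

set_option autoImplicit false
set_option linter.all false

namespace Helper25.S1T.Ymp_1aP2

open Helper25.KG Helper25.KW Helper55.KE Helper11.CT

noncomputable def t0 : Tre :=
  (.R ⟨2,true,false,false,[0,1],[0,0,1],[0,0,1],(⟨0,[]⟩,⟨0,[]⟩),(⟨0,[(16,0)]⟩,⟨0,[(15,0)]⟩),⟨0,[]⟩,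
  .k,.k,.k,.k,.k,.k,⟨false,1,⟨1,[(12,1),(0,1),(13,0),(0,0)]⟩,⟨0,[(0,0),(0,0),(22,0)]⟩⟩,⟨true,0,⟨0,
  [(13,0)]⟩,⟨0,[(0,0)]⟩⟩,⟨true,0,⟨0,[(26,0)]⟩,⟨0,[(25,0)]⟩⟩,⟨false,0,⟨0,[(1,0)]⟩,⟨0,[(12,0),(12,0),
  (2,0)]⟩⟩,⟨false,1,⟨1,[(6,0),(0,0),(20,0)]⟩,⟨0,[]⟩⟩,⟨true,0,⟨0,[(1,0),(23,0)]⟩,⟨0,[(12,0)]⟩⟩,[]⟩)

theorem ok0 : chk K t0 l2 = true := by decide +kernel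

noncomputable def t1 : Tre :=
  (.Q [0,1,-1,1,0,0,-1,0,0,0,-1] (.p false [0,0,1] [] (⟨0,[(17,0)]⟩,⟨0,[(16,0)]⟩) .k 0 (⟨0,[]⟩,⟨0,
  []⟩) .k .k) (.R ⟨0,false,false,true,[0,0,1],[0,1],[0,1,1],(⟨0,[(18,0)]⟩,⟨0,[(17,0)]⟩),(⟨0,[(23,
  0)]⟩,⟨0,[(22,0)]⟩),⟨0,[(7,0)]⟩,.k,.k,.k,.k,.k,.k,⟨true,0,⟨0,[(28,0)]⟩,⟨0,[(1,0)]⟩⟩,⟨false,1,⟨5,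
  [(5,0),(6,3),(12,0),(3,3)]⟩,⟨0,[(15,0)]⟩⟩,⟨true,0,⟨0,[(14,0),(0,0)]⟩,⟨0,[(0,0),(2,0)]⟩⟩,⟨false,1,
  ⟨0,[(14,0),(12,0),(2,0)]⟩,⟨0,[(3,0)]⟩⟩,⟨false,0,⟨0,[]⟩,⟨0,[]⟩⟩,⟨false,0,⟨0,[]⟩,⟨0,[]⟩⟩,[.e ⟨false,
  0,⟨0,[(32,0)]⟩,⟨1,[(29,0),(0,0)]⟩⟩ ⟨false,0,⟨0,[(0,0)]⟩,⟨1,[(15,1),(12,1),(0,0),(0,0)]⟩⟩,.o
  ⟨false,1,⟨9,[(8,0),(0,0),(15,1),(1,9),(2,4)]⟩,⟨0,[(28,0)]⟩⟩,.a ⟨true,0,⟨0,[(2,0)]⟩,⟨1,[(5,0),(6,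
  0),(2,0)]⟩⟩ ⟨false,0,⟨1,[(15,0),(0,0)]⟩,⟨1,[(29,0),(0,0)]⟩⟩ ⟨true,0,⟨1,[(0,0),(15,0),(10,0)]⟩,⟨0,
  [(2,0),(25,0)]⟩⟩,.e ⟨true,0,⟨0,[(32,0)]⟩,⟨0,[]⟩⟩ ⟨true,0,⟨0,[(0,0)]⟩,⟨0,[(15,0),(12,0)]⟩⟩]⟩) (.I
  [0,0,0,0,1,0,0,0,-1] (.I [0,0,-1,0,0,1,-1] (.C [(0,0),(1,0),(6,0),(11,1),(6,0),(4,0)]) (.C [(0,0),
  (7,0),(5,0)])) (.C [(0,0),(8,0),(2,0)])))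

theorem ok1 : chk K t1 l3 = true := by decide +kernel

noncomputable def t2 : Tre :=
  (.Q [0,0,0,0,0,0,0,0,1,-1,0,1] (.p true [0,0,0,0,1] [1] (⟨0,[(14,0)]⟩,⟨0,[(13,0)]⟩) .k 1 (⟨0,[]⟩,
  ⟨0,[]⟩) .k .k) (.R ⟨0,false,false,true,[1,0,-1],[1,0,0,0,-1],[1],(⟨0,[(21,0)]⟩,⟨0,[(22,0)]⟩),(⟨0,
  [(14,0)]⟩,⟨0,[(15,0)]⟩),⟨0,[(10,0)]⟩,.k,.k,.k,.k,.k,.k,⟨true,0,⟨0,[]⟩,⟨1,[(19,0),(0,0)]⟩⟩,⟨false,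
  1,⟨0,[(4,0),(1,0)]⟩,⟨0,[(3,0)]⟩⟩,⟨true,0,⟨0,[(7,0),(12,0),(9,0)]⟩,⟨0,[(6,0),(11,0)]⟩⟩,⟨false,1,⟨0,
  [(2,0),(4,0),(23,0)]⟩,⟨0,[(1,0)]⟩⟩,⟨false,0,⟨0,[]⟩,⟨0,[]⟩⟩,⟨false,0,⟨0,[]⟩,⟨0,[]⟩⟩,[.o ⟨false,1,
  ⟨0,[(12,0)]⟩,⟨0,[(0,0)]⟩⟩,.o ⟨false,1,⟨0,[(2,0)]⟩,⟨0,[(0,0),(35,0)]⟩⟩,.a ⟨true,0,⟨1,[(9,0),(6,0),
  (2,0)]⟩,⟨0,[(6,0)]⟩⟩ ⟨true,0,⟨0,[]⟩,⟨0,[(36,0)]⟩⟩ ⟨false,1,⟨0,[(2,0),(3,0)]⟩,⟨0,[(3,0)]⟩⟩,.o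
  ⟨false,0,⟨0,[(20,0)]⟩,⟨4,[(6,3),(12,0),(9,0),(3,2)]⟩⟩]⟩) (.I [0,0,0,0,0,1,1] (.I [0,0,0,0,0,1,-1,
  -1] (.C [(0,0),(8,0),(3,0),(11,1),(6,0),(4,0)]) (.C [(0,0),(1,0),(0,0),(8,0)])) (.C [(0,0),(6,0),
  (4,0)])))

theorem ok2 : chk K t2 l7 = true := by decide +kernel

noncomputable def t3 : Tre :=
  (.R ⟨2,true,false,false,[0,1],[0,0,0,0,1],[1,1],(⟨0,[]⟩,⟨0,[]⟩),(⟨0,[(16,0)]⟩,⟨0,[(15,0)]⟩),⟨0,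
  []⟩,.k,.k,.k,(.r (-1) ⟨1,[(20,0),(0,0),(10,1),(2,1)]⟩ ⟨1,[(6,0),(22,0),(3,0)]⟩),.k,.k,⟨true,0,⟨0,
  []⟩,⟨1,[(20,0),(0,0)]⟩⟩,⟨false,0,⟨0,[(14,0)]⟩,⟨0,[(5,0)]⟩⟩,⟨false,0,⟨0,[(6,0)]⟩,⟨1,[(20,0),(0,0),
  (10,1),(2,1)]⟩⟩,⟨true,(-1),⟨0,[(0,0)]⟩,⟨0,[(3,0),(28,0)]⟩⟩,⟨true,0,⟨2,[(6,0),(22,0),(1,0)]⟩,⟨1,
  [(20,0),(0,0)]⟩⟩,⟨false,0,⟨0,[(14,0)]⟩,⟨0,[(3,0)]⟩⟩,[]⟩)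

theorem ok3 : chk K t3 l9 = true := by decide +kernel

noncomputable def t4 : Tre :=
  (.Q [0,1,-1,1,0,0,-1,0,0,0,-1] (.p false [0,0,1] [] (⟨0,[(24,0)]⟩,⟨0,[(23,0)]⟩) .k 0 (⟨0,[]⟩,⟨0,
  []⟩) .k .k) (.R ⟨0,false,false,true,[0,0,1],[0,1],[1,1],(⟨0,[(25,0)]⟩,⟨0,[(24,0)]⟩),(⟨0,[(30,0)]⟩,
  ⟨0,[(29,0)]⟩),⟨0,[(14,0)]⟩,.k,.k,.k,.k,.k,.k,⟨true,0,⟨0,[(8,0)]⟩,⟨0,[(1,0)]⟩⟩,⟨false,1,⟨5,[(12,0),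
  (6,3),(12,0),(3,3)]⟩,⟨0,[(22,0)]⟩⟩,⟨true,0,⟨0,[(9,0),(11,0)]⟩,⟨0,[(4,0),(1,0)]⟩⟩,⟨false,1,⟨0,[(21,
  0),(12,0),(2,0)]⟩,⟨0,[(10,0)]⟩⟩,⟨false,0,⟨0,[]⟩,⟨0,[]⟩⟩,⟨false,0,⟨0,[]⟩,⟨0,[]⟩⟩,[.e ⟨false,0,⟨2,
  [(8,0),(22,0),(1,0)]⟩,⟨1,[(15,0),(0,0),(20,0)]⟩⟩ ⟨false,0,⟨0,[(0,0)]⟩,⟨1,[(22,1),(12,1),(0,0),(0,
  0)]⟩⟩,.o ⟨false,1,⟨4,[(1,0),(30,0),(1,3),(1,0),(0,1)]⟩,⟨0,[(35,0)]⟩⟩,.a ⟨true,0,⟨0,[(9,0)]⟩,⟨1,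
  [(12,0),(6,0),(2,0)]⟩⟩ ⟨false,0,⟨0,[]⟩,⟨1,[(15,0),(0,0),(20,0)]⟩⟩ ⟨true,0,⟨1,[(0,0),(22,0),(10,
  0)]⟩,⟨0,[(9,0),(25,0)]⟩⟩,.e ⟨true,0,⟨2,[(8,0),(22,0),(1,0)]⟩,⟨1,[(22,0),(0,0)]⟩⟩ ⟨true,0,⟨0,[(0,
  0)]⟩,⟨0,[(22,0),(12,0)]⟩⟩]⟩) (.I [0,1,0,0,0,0,0,0,-1] (.I [0,0,1,0,0,0,0,0,1] (.I [0,0,0,0,0,1,1,
  0,1] (.I [0,1,0,0,0,0,0,-1,1] (.I [0,0,1,0,0,0,0,1,-1] (.I [0,0,1,-1,0,0,0,-1] (.I [0,0,-1,0,0,1,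
  -1] (.C [(0,0),(6,0),(13,0),(11,1),(6,0),(4,0)]) (.C [(0,0),(19,0),(5,0)])) (.C [(0,0),(5,0),(20,
  0)])) (.C [(0,0),(8,0),(13,0),(4,0)])) (.C [(0,0),(6,0),(13,0),(3,0)])) (.C [(0,0),(5,0),(10,0),
  (2,0)])) (.C [(0,0),(4,0),(13,0),(5,0)])) (.C [(0,0),(4,0),(13,0),(2,0)])))

theorem ok4 : chk K t4 l10 = true := by decide +kernel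

noncomputable def t5 : Tre :=
  (.Q [0,0,0,0,0,0,0,0,-1,1,0,-1] (.p false [0,0,0,0,1] [1] (⟨0,[(17,0)]⟩,⟨0,[(16,0)]⟩) .k 1 (⟨0,
  []⟩,⟨0,[]⟩) .k .k) (.K ⟨0,[1,0,0,0,-1],0,0,(⟨0,[(17,0)]⟩,⟨0,[(18,0)]⟩),.k,(.r (-1) ⟨1,[(35,1),(0,
  0),(0,0)]⟩ ⟨1,[(22,0),(0,0),(10,1)]⟩),(.r (-1) ⟨1,[(22,0),(0,0),(10,1),(2,1)]⟩ ⟨3,[(1,0),(29,1),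
  (3,2)]⟩),.k,.k,[⟨0,[(3,0)]⟩,⟨1,[(0,1),(21,0),(0,0)]⟩,⟨0,[(3,0),(19,0),(7,0)]⟩,⟨0,[(0,0)]⟩]⟩) (.Q
  [0,0,1,0,0,0,0,0,-1,1,0,-1] (.p false [0,0,0,0,1] [1] (⟨0,[(18,0)]⟩,⟨0,[(17,0)]⟩) .k 1 (⟨0,[]⟩,⟨0,
  []⟩) .k .k) (.R ⟨2,true,false,true,[0,1],[1,0,0,0,-1],[1,1,1,1],(⟨0,[]⟩,⟨0,[]⟩),(⟨0,[(18,0)]⟩,⟨0,
  [(19,0)]⟩),⟨0,[]⟩,.k,.k,.k,(.r 0 ⟨1,[(23,0),(0,0),(10,1)]⟩ ⟨1,[(36,1),(0,0),(0,0)]⟩),.k,.k,⟨false,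
  0,⟨0,[(35,0)]⟩,⟨1,[(36,1),(0,0),(0,0)]⟩⟩,⟨true,0,⟨0,[(0,0)]⟩,⟨0,[(1,0)]⟩⟩,⟨false,0,⟨0,[]⟩,⟨1,[(16,
  0),(0,0),(20,0)]⟩⟩,⟨true,0,⟨1,[(0,1),(1,0),(33,0)]⟩,⟨0,[(1,0),(33,0)]⟩⟩,⟨true,0,⟨0,[(35,0)]⟩,⟨0,
  [(36,0)]⟩⟩,⟨false,1,⟨1,[(0,1),(36,0),(0,0)]⟩,⟨0,[(1,0)]⟩⟩,[]⟩) (.I [0,0,1,1,1,0,0,-3] (.Q [0,0,0,
  0,0,0,0,0,0,-1,2] (.ed false [0,0,2] (.r 0 ⟨0,[(6,1),(1,1)]⟩ ⟨2,[(0,1),(36,1),(0,0)]⟩)) (.Q [0,-1,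
  0,0,1,0,-2,-2,0,1,-2] (.p false [0,0,1] [1,0,-1] (⟨0,[(28,0)]⟩,⟨0,[(27,0)]⟩) .k 2 (⟨0,[(27,0)]⟩,
  ⟨0,[(28,0)]⟩) .k (.r 0 ⟨0,[(7,1),(1,1)]⟩ ⟨2,[(1,1),(36,1),(0,0)]⟩)) (.Q [0,0,1,0,0,0,2,0,0,-1,2]
  (.p true [0,0,1] [1,0,-1] (⟨0,[(29,0)]⟩,⟨0,[(28,0)]⟩) .k 2 (⟨0,[(28,0)]⟩,⟨0,[(29,0)]⟩) .k (.r 0
  ⟨0,[(8,1),(1,1)]⟩ ⟨2,[(2,1),(36,1),(0,0)]⟩)) (.R ⟨0,false,false,false,[0,0,1],[1,0,-1],[1,1],(⟨0,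
  [(30,0)]⟩,⟨0,[(29,0)]⟩),(⟨0,[(29,0)]⟩,⟨0,[(30,0)]⟩),⟨0,[(19,0)]⟩,.k,.k,.k,.k,.k,.k,⟨false,0,⟨2,
  [(4,0),(4,0),(6,0),(0,0),(7,0),(13,0)]⟩,⟨5,[(3,1),(36,1),(0,0),(0,2)]⟩⟩,⟨true,0,⟨0,[(17,0)]⟩,⟨0,
  [(0,0)]⟩⟩,⟨true,0,⟨0,[(14,0),(11,0)]⟩,⟨0,[(9,0),(1,0)]⟩⟩,⟨false,1,⟨0,[(1,0)]⟩,⟨0,[(5,0),(3,0),(5,
  0),(23,0)]⟩⟩,⟨false,0,⟨0,[]⟩,⟨0,[]⟩⟩,⟨false,0,⟨0,[]⟩,⟨0,[]⟩⟩,[.o ⟨false,1,⟨6,[(1,4),(23,2),(11,0),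
  (6,1)]⟩,⟨0,[(5,0),(3,0)]⟩⟩,.o ⟨false,1,⟨18,[(1,9),(23,0),(11,1),(4,4)]⟩,⟨6,[(0,0),(4,5),(3,5),(15,
  0),(2,1),(7,2)]⟩⟩,.e ⟨false,0,⟨0,[]⟩,⟨18,[(1,4),(23,9),(11,0),(4,11)]⟩⟩ ⟨false,1,⟨6,[(1,3),(9,0),
  (5,2),(2,0),(4,0),(16,1)]⟩,⟨0,[(8,0),(0,0)]⟩⟩,.a ⟨true,0,⟨0,[(27,0)]⟩,⟨0,[(24,0)]⟩⟩ ⟨true,0,⟨4,
  [(6,0),(29,1),(1,0)]⟩,⟨1,[(27,0),(0,0)]⟩⟩ ⟨false,1,⟨11,[(1,5),(15,0),(6,9),(12,0),(3,0),(0,2)]⟩,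
  ⟨0,[(5,0),(3,0),(17,0)]⟩⟩]⟩) (.I [0,1,0,0,0,0,0,0,-1] (.I [0,0,0,0,0,1,1] (.C [(0,1),(1,0),(1,0),
  (28,1),(11,0)]) (.C [(0,0),(15,0),(4,0)])) (.C [(0,0),(9,0),(13,0),(2,0)]))) (.I [0,0,0,0,0,0,-1]
  (.I [0,0,0,0,0,1,1] (.I [0,0,-1,0,0,0,0,0,1] (.I [0,0,-1,0,0,1,-1] (.I [0,0,0,0,0,1,1,1,-1] (.I
  [0,-1,0,-1,0,1,1,1] (.C [(0,0),(4,1),(0,0),(1,0),(15,0),(4,0),(6,1)]) (.C [(0,0),(19,0),(3,0)]))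
  (.C [(0,0),(12,0),(9,0),(3,0)])) (.C [(0,0),(4,0),(16,0),(4,0)])) (.C [(0,0),(5,0),(17,0)])) (.C
  [(0,1),(1,0),(1,0),(11,0),(3,1),(4,0)])) (.C [(0,1),(1,0),(21,0),(3,0)]))) (.Q [0,1,0,-1,-1,0,2,2,
  0,-1,2] (.p true [0,0,1] [1,0,-1] (⟨0,[(28,0)]⟩,⟨0,[(27,0)]⟩) .k 2 (⟨0,[(27,0)]⟩,⟨0,[(28,0)]⟩) .k
  (.r 0 ⟨0,[(7,1),(1,1)]⟩ ⟨2,[(1,1),(36,1),(0,0)]⟩)) (.I [0,-1,1,0,1,0,0,-2] (.Q [0,0,0,0,0,-1,0,0,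
  0,0,2] (.ed false [1,-1,2] .k) (.Q [0,0,0,1,1,0,-2,-2,0,0,-2] (.p false [0,0,1] [0,1,-1] (⟨0,[(31,
  0)]⟩,⟨0,[(30,0)]⟩) .k 2 (⟨0,[(20,0)]⟩,⟨0,[(0,0),(29,0)]⟩) .k (.r 0 ⟨0,[(2,0),(15,0),(21,0),(2,
  0)]⟩ ⟨1,[(1,0),(2,0),(12,0)]⟩)) (.I [1,1,-1,-1,-1,0,0,2] (.S ⟨1,0,[0,0,0,-1,0,0,0,2],[0,0,2],[0,0,
  1],(⟨0,[(2,0),(32,0)]⟩,⟨0,[(5,0)]⟩),⟨0,[(2,0)]⟩,.k,(.r 0 ⟨51,[(0,31),(17,9),(0,9),(0,14),(7,19),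
  (11,2),(4,25)]⟩ ⟨3,[(6,2),(21,0),(2,0),(10,0),(2,0)]⟩),⟨false,1,⟨0,[(3,0)]⟩,⟨0,[(0,0),(41,0),(2,
  0)]⟩⟩,⟨true,0,⟨0,[(43,0)]⟩,⟨0,[(42,0)]⟩⟩,⟨true,1,⟨3,[(6,2),(21,0),(2,0),(10,0),(2,0)]⟩,⟨0,[(0,
  0)]⟩⟩,⟨false,1,⟨15,[(3,1),(10,3),(8,3),(4,3),(15,0),(0,8)]⟩,⟨0,[]⟩⟩,[.o ⟨false,0,⟨8,[(4,3),(13,4),
  (9,4),(11,0),(4,1)]⟩,⟨0,[(1,0)]⟩⟩,.o ⟨false,0,⟨0,[(4,0),(40,0)]⟩,⟨0,[(1,0),(45,0)]⟩⟩,.a ⟨true,0,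
  ⟨0,[(17,1)]⟩,⟨0,[(20,0)]⟩⟩ ⟨true,0,⟨1,[(30,0),(0,0)]⟩,⟨4,[(9,0),(29,1),(1,0)]⟩⟩ ⟨false,0,⟨1,[(0,
  1),(29,0),(0,0),(13,1)]⟩,⟨5,[(6,3),(34,1),(2,0),(0,0)]⟩⟩,.e ⟨false,1,⟨15,[(3,1),(10,3),(8,3),(4,
  3),(15,0),(0,8)]⟩,⟨0,[]⟩⟩ ⟨false,0,⟨0,[(0,0),(44,0)]⟩,⟨3,[(6,2),(21,0),(2,0),(10,0),(2,0)]⟩⟩]⟩)
  (.I [0,1,0,0,0,0,0,0,-1] (.I [0,0,-1,0,0,0,0,0,1] (.I [0,0,1,0,0,0,0,1,-1] (.I [0,0,-2,0,0,0,0,1]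
  (.I [0,0,-1,0,0,1,-1] (.C [(0,1),(4,1),(3,1),(0,0),(21,0),(3,0),(2,1)]) (.C [(0,0),(25,0),(5,
  0)])) (.C [(0,0),(10,0),(4,0),(14,0)])) (.C [(0,0),(14,0),(13,0),(4,0)])) (.C [(0,0),(8,0),(17,
  0)])) (.C [(0,0),(12,0),(13,0),(2,0)]))) (.I [0,1,0,0,0,0,0,0,-1] (.I [0,0,-1,0,0,0,0,0,1] (.I [0,
  0,1,0,0,0,0,1,-1] (.I [0,0,-2,0,0,0,0,1] (.C [(0,1),(3,1),(3,0),(0,1),(14,1),(5,0),(3,2),(2,1)])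
  (.C [(0,0),(3,0),(5,0),(2,0),(16,0),(1,0)])) (.C [(0,0),(2,0),(8,0),(15,0),(2,0),(1,0)])) (.C [(0,
  0),(7,0),(17,0)])) (.C [(0,0),(0,0),(8,0),(15,0),(2,1)]))) (.I [0,1,0,0,0,0,0,0,-1] (.I [0,0,-1,0,
  0,0,0,0,1] (.I [0,1,0,0,0,0,0,-1] (.I [0,0,-2,0,0,0,0,1] (.I [0,0,-1,0,0,1,-1] (.C [(0,1),(4,0),
  (14,1),(16,2),(11,1)]) (.C [(0,0),(23,0),(5,0)])) (.C [(0,0),(8,0),(4,0),(14,0)])) (.C [(0,0),(17,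
  0),(11,0)])) (.C [(0,0),(6,0),(17,0)])) (.C [(0,0),(10,0),(13,0),(2,0)]))) (.I [0,0,-1,0,0,0,0,0,
  1] (.I [0,0,1,0,0,0,0,1,-1] (.I [0,0,-1,0,0,1,-1] (.C [(0,0),(2,0),(1,0),(0,0),(11,0),(2,0),(12,
  1),(11,0)]) (.C [(0,0),(20,0),(5,0)])) (.C [(0,0),(10,0),(13,0),(4,0)])) (.C [(0,0),(4,0),(17,
  0)]))) (.R ⟨0,false,false,true,[0,0,1],[0,0,2],[1,1],(⟨0,[(29,0)]⟩,⟨0,[(28,0)]⟩),(⟨0,[(29,1)]⟩,⟨0,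
  [(1,0)]⟩),⟨0,[(18,0)]⟩,.k,.k,.k,.k,.k,.k,⟨false,1,⟨5,[(2,3),(2,2),(33,0),(0,1)]⟩,⟨0,[(8,1),(1,
  1)]⟩⟩,⟨true,0,⟨0,[(13,0)]⟩,⟨0,[(27,0)]⟩⟩,⟨true,0,⟨0,[(13,0),(11,0)]⟩,⟨0,[(8,0),(1,0)]⟩⟩,⟨false,0,
  ⟨0,[(14,0),(23,0)]⟩,⟨125,[(0,59),(1,1),(7,5),(8,5),(16,11),(2,61),(0,0),(0,32)]⟩⟩,⟨false,0,⟨0,[]⟩,
  ⟨0,[]⟩⟩,⟨false,0,⟨0,[]⟩,⟨0,[]⟩⟩,[.o ⟨false,0,⟨0,[(4,0),(3,0),(15,0)]⟩,⟨0,[(0,0),(4,0),(11,0),(0,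
  0),(11,1),(11,1)]⟩⟩,.o ⟨false,0,⟨0,[(4,0),(3,0),(5,0),(23,0)]⟩,⟨33,[(0,19),(1,3),(12,1),(0,4),(8,
  17),(10,4),(2,21)]⟩⟩,.e ⟨false,0,⟨0,[]⟩,⟨1,[(19,0),(0,0),(20,0)]⟩⟩ ⟨false,0,⟨0,[(8,0),(1,0),(3,0),
  (23,0)]⟩,⟨0,[(0,0),(4,0),(7,0),(3,0),(0,0),(11,1),(11,1)]⟩⟩,.a ⟨true,0,⟨0,[(26,0)]⟩,⟨0,[(23,0)]⟩⟩
  ⟨true,0,⟨4,[(5,0),(29,1),(1,0)]⟩,⟨1,[(26,0),(0,0)]⟩⟩ ⟨false,0,⟨0,[(8,0),(1,0),(3,0),(22,0)]⟩,⟨1,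
  [(0,0),(1,0),(9,0),(1,0),(2,0),(0,0),(8,0),(2,1),(11,0)]⟩⟩]⟩))) (.I [0,-1,1,0,0,0,0,1] (.R ⟨0,
  false,false,true,[1,0,-1],[1,0,0,0,-1],[0,0,1],(⟨0,[(27,0)]⟩,⟨0,[(28,0)]⟩),(⟨0,[(20,0)]⟩,⟨0,[(21,
  0)]⟩),⟨0,[(16,0)]⟩,.k,.k,.k,.k,.k,.k,⟨true,0,⟨1,[(25,0),(0,0)]⟩,⟨0,[]⟩⟩,⟨false,1,⟨0,[(10,0),(1,
  0)]⟩,⟨0,[(9,0)]⟩⟩,⟨false,0,⟨0,[(0,0)]⟩,⟨1,[(12,1),(11,1),(14,0),(0,0)]⟩⟩,⟨true,0,⟨0,[(7,0)]⟩,⟨0,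
  [(19,0),(4,0)]⟩⟩,⟨false,0,⟨0,[]⟩,⟨0,[]⟩⟩,⟨false,0,⟨0,[]⟩,⟨0,[]⟩⟩,[.o ⟨false,1,⟨0,[(18,0)]⟩,⟨0,[(3,
  0)]⟩⟩,.o ⟨false,1,⟨0,[(8,0)]⟩,⟨0,[(3,0),(38,0)]⟩⟩,.a ⟨true,0,⟨1,[(15,0),(6,0),(2,0)]⟩,⟨0,[(12,
  0)]⟩⟩ ⟨true,0,⟨1,[(25,0),(0,0)]⟩,⟨4,[(4,0),(29,1),(1,0)]⟩⟩ ⟨false,1,⟨0,[(8,0),(3,0)]⟩,⟨0,[(9,
  0)]⟩⟩,.o ⟨false,0,⟨0,[(26,0)]⟩,⟨4,[(12,3),(12,0),(9,0),(3,2)]⟩⟩]⟩) (.I [1,1,0,1,1,0,0,-3] (.Q [0,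
  0,0,1,1,0,-2,-2,0,0,-2] (.p false [0,0,1] [0,1,-1] (⟨0,[(29,0)]⟩,⟨0,[(28,0)]⟩) .k 2 (⟨0,[(18,0)]⟩,
  ⟨0,[(29,0),(3,0)]⟩) .k (.r 0 ⟨1,[(2,0),(21,0),(2,0),(10,0),(2,0)]⟩ ⟨2,[(0,1),(38,1),(1,0)]⟩)) (.Q
  [0,0,0,0,0,0,0,0,0,-1,2] (.ed false [0,0,2] (.r 0 ⟨1,[(3,0),(21,0),(2,0),(10,0),(2,0)]⟩ ⟨2,[(1,1),
  (38,1),(1,0)]⟩)) (.Q [0,0,1,0,0,0,3,0,0,-1,3] (.p true [0,0,1] [1,1,-2] (⟨0,[(31,0)]⟩,⟨0,[(30,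
  0)]⟩) .k 2 (⟨0,[(20,0),(9,0)]⟩,⟨0,[(0,0),(34,0)]⟩) (.r (-1) ⟨0,[(1,0),(13,0),(12,0)]⟩ ⟨99,[(4,31),
  (11,33),(0,33),(0,34),(7,35),(11,6),(4,17)]⟩) (.x (-1) ⟨16,[(3,5),(1,5),(4,5),(4,44),(4,9),(9,40),
  (1,9),(5,6),(4,2),(0,11)]⟩ ⟨1,[(0,2),(17,2)]⟩)) (.I [0,0,1,0,0,1,3] (.K ⟨0,[1,1,-2],0,1,(⟨0,[(22,
  0),(9,0)]⟩,⟨0,[(2,0),(34,0)]⟩),(.r (-1) ⟨0,[(3,0),(13,0),(12,0)]⟩ ⟨99,[(6,31),(11,33),(0,33),(0,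
  34),(7,35),(11,6),(4,17)]⟩),(.r (-1) ⟨2,[(4,1),(38,1),(1,0)]⟩ ⟨1,[(6,0),(21,0),(2,0),(10,0),(2,
  0)]⟩),(.x (-1) ⟨29,[(2,29),(0,26),(2,17),(0,0),(1,10),(0,0),(16,5),(9,59),(2,6),(0,0),(2,5)]⟩ ⟨2,
  [(0,1),(29,1),(0,1),(3,3)]⟩),(.x (-1) ⟨15,[(2,23),(11,1),(5,22),(2,1),(13,15),(2,2),(3,7)]⟩ ⟨0,
  [(0,0)]⟩),.k,[⟨0,[(1,0)]⟩,⟨0,[(20,0)]⟩,⟨0,[(1,0),(4,0),(22,0)]⟩,⟨8,[(3,1),(0,5),(15,8),(7,3),(13,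
  0),(2,0)]⟩]⟩) (.I [0,0,0,0,0,1,1] (.C [(0,1),(0,0),(16,0),(4,0),(11,1),(11,0)]) (.C [(0,0),(17,0),
  (4,0)]))) (.I [0,0,0,0,0,1,1] (.C [(0,1),(0,0),(0,0),(14,0),(16,1),(11,0)]) (.C [(0,0),(16,0),(4,
  0)]))) (.Q [0,-1,0,0,0,0,1,2,0,0,1] (.p true [0,0,1] [] (⟨0,[(31,0)]⟩,⟨0,[(30,0)]⟩) .k 0 (⟨0,[]⟩,
  ⟨0,[]⟩) .k .k) (.Q [0,0,1,0,0,0,-2,0,0,0,-2] (.p false [0,0,1] [0,1,-1] (⟨0,[(32,0)]⟩,⟨0,[(31,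
  0)]⟩) .k 2 (⟨0,[(21,0)]⟩,⟨0,[(32,0),(3,0)]⟩) .k (.r 0 ⟨24,[(0,13),(4,3),(13,9),(7,9),(2,3),(8,1),
  (1,3)]⟩ ⟨2,[(3,1),(38,1),(1,0)]⟩)) (.R ⟨0,false,false,false,[1,0,-2],[1,0,-1],[0,0,1],(⟨0,[(2,
  0)]⟩,⟨0,[(33,1)]⟩),(⟨0,[(32,0)]⟩,⟨0,[(33,0)]⟩),⟨0,[(21,0),(11,0)]⟩,.k,.k,(.r (-1) ⟨5,[(4,3),(4,2),
  (33,6),(1,1)]⟩ ⟨2,[(0,1),(0,2),(28,0),(11,2)]⟩),.k,.k,.k,⟨false,0,⟨27,[(0,1),(0,7),(4,1),(13,4),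
  (7,5),(11,0),(1,1)]⟩,⟨5,[(4,1),(38,1),(0,2),(0,0)]⟩⟩,⟨true,0,⟨0,[(17,0)]⟩,⟨0,[(31,0)]⟩⟩,⟨false,0,
  ⟨2,[(0,1),(0,2),(28,0)]⟩,⟨5,[(4,3),(4,2),(33,0),(1,1)]⟩⟩,⟨true,0,⟨2,[(1,0),(15,0),(10,0)]⟩,⟨0,
  [(29,0)]⟩⟩,⟨false,0,⟨0,[]⟩,⟨0,[]⟩⟩,⟨false,0,⟨0,[]⟩,⟨0,[]⟩⟩,[.o ⟨false,1,⟨11,[(3,2),(0,1),(9,5),(8,
  5),(19,4),(1,0)]⟩,⟨0,[(8,0),(3,0)]⟩⟩,.o ⟨false,1,⟨1,[(3,0),(39,0),(1,0)]⟩,⟨16,[(5,2),(0,5),(4,1),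
  (0,1),(17,12),(8,3),(0,2),(1,5)]⟩⟩,.a ⟨true,0,⟨0,[(20,0)]⟩,⟨0,[(17,1)]⟩⟩ ⟨true,0,⟨2,[(0,0),(29,
  1)]⟩,⟨4,[(5,0),(13,0),(19,0),(1,0)]⟩⟩ ⟨false,1,⟨1,[(4,0),(12,0),(0,0),(26,0)]⟩,⟨55,[(0,9),(0,11),
  (4,9),(13,24),(7,1),(11,4),(1,9)]⟩⟩,.o ⟨false,0,⟨0,[(0,0)]⟩,⟨19,[(4,0),(12,36),(0,0),(9,1),(11,3),
  (3,9),(0,0)]⟩⟩]⟩) (.I [0,0,-1,0,0,0,0,0,1] (.I [0,1,0,0,0,0,0,0,-1] (.I [0,0,1,0,0,0,0,1,-1] (.I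
  [0,0,-2,0,0,0,0,1] (.I [0,0,-1,0,0,1,-1] (.C [(0,1),(4,0),(1,1),(18,1),(12,3),(11,2)]) (.C [(0,0),
  (25,0),(5,0)])) (.C [(0,0),(10,0),(4,0),(14,0)])) (.C [(0,0),(14,0),(13,0),(4,0)])) (.C [(0,0),
  (13,0),(13,0),(2,0)])) (.C [(0,0),(7,0),(17,0)]))) (.R ⟨0,false,false,false,[0,0,1],[0,0,2],[0,0,
  1],(⟨0,[(32,0)]⟩,⟨0,[(31,0)]⟩),(⟨0,[(32,1)]⟩,⟨0,[(1,0)]⟩),⟨0,[(21,0)]⟩,.k,.k,.k,.k,.k,.k,⟨false,1,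
  ⟨2,[(3,1),(38,1),(1,0)]⟩,⟨4,[(5,2),(3,0),(3,0),(13,0),(13,1),(1,0),(0,0)]⟩⟩,⟨true,0,⟨0,[(16,0)]⟩,
  ⟨0,[(30,0)]⟩⟩,⟨false,1,⟨5,[(3,1),(25,2),(0,2),(11,1),(1,3)]⟩,⟨5,[(5,1),(34,1),(2,0),(0,0)]⟩⟩,
  ⟨true,0,⟨3,[(5,0),(10,1),(10,0),(1,0),(11,0),(2,0)]⟩,⟨0,[(28,0)]⟩⟩,⟨false,0,⟨0,[]⟩,⟨0,[]⟩⟩,⟨false,
  0,⟨0,[]⟩,⟨0,[]⟩⟩,[.o ⟨false,0,⟨28,[(5,11),(3,9),(0,23),(0,13),(15,7),(1,11),(9,0),(1,1)]⟩,⟨0,[(2,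
  0),(39,0)]⟩⟩,.e ⟨false,1,⟨1,[(22,0),(0,0),(20,0)]⟩,⟨4,[(4,0),(13,0),(19,0),(1,0)]⟩⟩ ⟨false,1,⟨5,
  [(5,1),(21,5),(12,1),(2,0),(0,6)]⟩,⟨0,[(0,0)]⟩⟩,.e ⟨true,0,⟨1,[(29,0),(0,0)]⟩,⟨4,[(4,0),(13,0),
  (19,0),(1,0)]⟩⟩ ⟨true,0,⟨1,[(5,0),(21,0),(1,0),(11,0),(2,0)]⟩,⟨0,[(0,0)]⟩⟩,.a ⟨true,0,⟨0,[(29,
  0)]⟩,⟨0,[(26,0)]⟩⟩ ⟨false,1,⟨1,[(22,0),(0,0),(20,0)]⟩,⟨0,[]⟩⟩ ⟨true,0,⟨1,[(5,0),(10,0),(10,0),(12,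
  0),(3,0)]⟩,⟨1,[(0,1),(28,0),(0,0)]⟩⟩]⟩))) (.Q [0,0,0,0,0,0,0,0,0,1,-2] (.ed true [0,0,2] (.r 0 ⟨1,
  [(3,0),(21,0),(2,0),(10,0),(2,0)]⟩ ⟨2,[(1,1),(38,1),(1,0)]⟩)) (.R ⟨0,false,false,false,[0,0,1],[0,
  0,2],[1],(⟨0,[(31,0)]⟩,⟨0,[(30,0)]⟩),(⟨0,[(31,1)]⟩,⟨0,[(0,0)]⟩),⟨0,[(20,0)]⟩,.k,.k,.k,.k,.k,.k,
  ⟨false,1,⟨5,[(2,3),(4,2),(33,0),(1,1)]⟩,⟨1,[(4,0),(21,0),(2,0),(10,0),(2,0)]⟩⟩,⟨true,0,⟨0,[(15,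
  0)]⟩,⟨0,[(29,0)]⟩⟩,⟨false,1,⟨2,[(2,0),(38,0),(1,1)]⟩,⟨3,[(4,0),(21,0),(2,0),(10,0),(2,0)]⟩⟩,⟨true,
  0,⟨2,[(1,0),(24,0),(13,0),(2,0)]⟩,⟨0,[(27,0)]⟩⟩,⟨false,0,⟨0,[]⟩,⟨0,[]⟩⟩,⟨false,0,⟨0,[]⟩,⟨0,[]⟩⟩,
  [.o ⟨false,0,⟨30,[(1,13),(2,7),(3,15),(0,15),(16,9),(1,7),(9,2),(1,5)]⟩,⟨0,[(27,1),(15,0)]⟩⟩,.o
  ⟨false,0,⟨0,[(1,0),(4,0),(1,0)]⟩,⟨15,[(2,9),(15,14),(8,1),(10,2),(2,9),(3,3)]⟩⟩,.a ⟨true,0,⟨0,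
  [(15,0)]⟩,⟨1,[(18,0),(6,0),(2,0)]⟩⟩ ⟨true,0,⟨0,[]⟩,⟨0,[(45,0)]⟩⟩ ⟨false,0,⟨0,[(1,0),(6,0),(3,0)]⟩,
  ⟨2,[(2,0),(24,2),(13,0),(1,1)]⟩⟩,.e ⟨false,1,⟨1,[(42,0),(0,0)]⟩,⟨1,[(28,0),(0,0)]⟩⟩ ⟨false,0,⟨1,
  [(1,1),(3,0),(2,1),(3,0),(12,0)]⟩,⟨2,[(2,1),(26,2),(11,1),(1,0)]⟩⟩]⟩) (.Q [0,0,1,0,0,0,2,0,0,-1,
  2] (.p true [0,0,1] [1,0,-1] (⟨0,[(31,0)]⟩,⟨0,[(30,0)]⟩) .k 2 (⟨0,[(30,0)]⟩,⟨0,[(31,0)]⟩) .k (.r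
  0 ⟨1,[(4,0),(21,0),(2,0),(10,0),(2,0)]⟩ ⟨2,[(2,1),(38,1),(1,0)]⟩)) (.R ⟨0,false,false,true,[0,0,
  1],[1,0,-1],[1,1],(⟨0,[(32,0)]⟩,⟨0,[(31,0)]⟩),(⟨0,[(31,0)]⟩,⟨0,[(32,0)]⟩),⟨0,[(21,0)]⟩,.k,.k,.k,
  .k,.k,.k,⟨false,0,⟨5,[(5,1),(34,1),(2,0),(0,0)]⟩,⟨5,[(3,1),(18,2),(0,2),(18,1),(1,0)]⟩⟩,⟨true,0,
  ⟨0,[(19,0)]⟩,⟨0,[(0,0)]⟩⟩,⟨true,0,⟨2,[(2,0),(0,0),(24,1)]⟩,⟨3,[(5,0),(21,0),(2,0),(10,0),(2,0)]⟩⟩,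
  ⟨false,1,⟨2,[(3,1),(15,2),(22,1),(1,0)]⟩,⟨0,[(2,0),(4,0),(1,0)]⟩⟩,⟨false,0,⟨0,[]⟩,⟨0,[]⟩⟩,⟨false,
  0,⟨0,[]⟩,⟨0,[]⟩⟩,[.o ⟨false,0,⟨0,[(28,0)]⟩,⟨6,[(0,0),(4,0),(3,0),(0,0),(16,3),(11,0),(4,4)]⟩⟩,.o
  ⟨false,1,⟨47,[(3,15),(9,17),(5,14),(2,17),(16,2),(2,15),(1,7)]⟩,⟨10,[(0,3),(1,0),(2,2),(0,0),(2,
  1),(0,0),(28,0),(1,1)]⟩⟩,.a ⟨true,0,⟨0,[(16,0)]⟩,⟨1,[(19,0),(6,0),(2,0)]⟩⟩ ⟨false,0,⟨0,[]⟩,⟨1,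
  [(22,0),(0,0),(20,0)]⟩⟩ ⟨true,0,⟨2,[(2,0),(0,0),(15,2),(8,1)]⟩,⟨26,[(0,9),(1,12),(6,6),(0,6),(16,
  0),(11,1),(0,5),(2,1)]⟩⟩,.e ⟨true,0,⟨4,[(4,0),(13,0),(19,0),(1,0)]⟩,⟨1,[(29,0),(0,0)]⟩⟩ ⟨true,0,
  ⟨0,[(4,0),(14,0)]⟩,⟨27,[(0,17),(4,8),(21,0),(1,18),(9,1),(1,8),(2,4)]⟩⟩]⟩) (.I [0,0,-1,0,0,0,0,0,
  1] (.I [0,0,0,0,0,1,1] (.C [(0,1),(1,0),(0,0),(31,1),(11,0)]) (.C [(0,0),(17,0),(4,0)])) (.C [(0,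
  0),(6,0),(17,0)]))))) (.Q [0,0,0,0,0,0,0,0,0,-1,2] (.ed false [0,0,2] (.r 0 ⟨27,[(0,11),(5,9),(3,
  9),(5,4),(7,19),(11,0),(1,1)]⟩ ⟨0,[(1,0),(23,0),(0,0),(14,0)]⟩)) (.Q [0,0,1,0,0,0,2,0,0,-1,2] (.p
  true [0,0,1] [1,0,-1] (⟨0,[(30,0)]⟩,⟨0,[(29,0)]⟩) .k 2 (⟨0,[(29,0)]⟩,⟨0,[(30,0)]⟩) .k (.r 0 ⟨27,
  [(1,11),(5,9),(3,9),(5,4),(7,19),(11,0),(1,1)]⟩ ⟨0,[(2,0),(23,0),(0,0),(14,0)]⟩)) (.K ⟨0,[-1,0,2],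
  0,(-1),(⟨0,[(1,0)]⟩,⟨0,[(30,1)]⟩),.k,(.r 1 ⟨0,[(2,0),(0,0)]⟩ ⟨1,[(3,0),(17,0),(0,0),(4,2),(0,2),
  (11,1),(2,2)]⟩),(.r 0 ⟨4,[(2,2),(23,0),(1,1),(0,2),(10,7),(2,2)]⟩ ⟨1,[(3,2),(23,0),(0,0),(12,1),
  (1,1)]⟩),.k,.k,[⟨1,[(18,0),(6,0),(2,0)]⟩,⟨0,[(0,0)]⟩,⟨1,[(3,1),(14,1),(2,0),(0,0),(4,1),(0,1),(14,
  0)]⟩,⟨0,[(0,0),(1,0),(0,0),(36,0)]⟩]⟩) (.I [0,0,0,0,0,1,1] (.C [(0,1),(0,0),(0,0),(30,1),(11,0)])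
  (.C [(0,0),(15,0),(4,0)]))) (.R ⟨0,false,false,false,[0,0,1],[0,0,2],[0,0,1],(⟨0,[(30,0)]⟩,⟨0,
  [(29,0)]⟩),(⟨0,[(30,1)]⟩,⟨0,[(0,0)]⟩),⟨0,[(19,0)]⟩,.k,.k,.k,.k,.k,.k,⟨false,1,⟨0,[(2,0),(23,0),(0,
  0),(14,0)]⟩,⟨4,[(3,2),(3,0),(3,0),(13,0),(13,1),(1,0),(0,0)]⟩⟩,⟨true,0,⟨0,[(14,0)]⟩,⟨0,[(28,0)]⟩⟩,
  ⟨false,1,⟨0,[(26,0),(0,0),(14,0)]⟩,⟨5,[(3,1),(34,1),(2,0),(0,0)]⟩⟩,⟨true,0,⟨4,[(1,0),(12,2),(10,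
  1),(13,0),(2,0)]⟩,⟨0,[(26,0)]⟩⟩,⟨false,0,⟨0,[]⟩,⟨0,[]⟩⟩,⟨false,0,⟨0,[]⟩,⟨0,[]⟩⟩,[.o ⟨false,0,⟨40,
  [(1,11),(5,9),(0,35),(0,25),(15,19),(11,0),(1,1)]⟩,⟨0,[(26,1),(15,0)]⟩⟩,.o ⟨false,0,⟨1,[(1,0),(5,
  0),(0,1),(0,0),(4,0)]⟩,⟨1,[(20,0),(0,0),(4,3),(15,0)]⟩⟩,.a ⟨true,0,⟨0,[(14,0)]⟩,⟨1,[(17,0),(6,0),
  (2,0)]⟩⟩ ⟨true,0,⟨1,[(27,0),(0,0)]⟩,⟨4,[(2,0),(13,0),(19,0),(1,0)]⟩⟩ ⟨false,0,⟨4,[(1,2),(12,3),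
  (10,0),(13,2),(2,2)]⟩,⟨1,[(2,0),(23,2),(0,0),(14,1)]⟩⟩,.e ⟨false,1,⟨1,[(20,0),(0,0),(20,0)]⟩,⟨0,
  []⟩⟩ ⟨false,0,⟨2,[(1,0),(1,0),(10,2),(23,1),(3,1)]⟩,⟨0,[(26,1),(0,0),(14,0)]⟩⟩]⟩)))))))

theorem ok5 : chk K t5 r10 = true := by decide +kernel

noncomputable def t8 : Tre :=
  (.Q [0,0,1,0,0,0,1,0,-1,0,1,-1] (.p true [0,0,1] [0,0,0,0,1] (⟨0,[(22,0)]⟩,⟨0,[(21,0)]⟩) .k 2 (⟨0,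
  [(15,0)]⟩,⟨0,[(14,0)]⟩) .k (.r (-1) ⟨13,[(1,3),(1,3),(5,4),(7,9),(11,0),(4,11)]⟩ ⟨0,[(6,0),(11,
  0)]⟩)) (.R ⟨0,false,false,false,[0,0,1],[0,0,0,0,1],[1],(⟨0,[(23,0)]⟩,⟨0,[(22,0)]⟩),(⟨0,[(16,0)]⟩,
  ⟨0,[(15,0)]⟩),⟨0,[(12,0)]⟩,.k,.k,.k,.k,.k,.k,⟨false,1,⟨1,[(34,0),(0,0)]⟩,⟨0,[(37,0)]⟩⟩,⟨true,0,⟨0,
  [(4,0)]⟩,⟨0,[(0,0)]⟩⟩,⟨false,1,⟨0,[(7,0),(11,0),(15,0)]⟩,⟨0,[(2,0),(1,0)]⟩⟩,⟨true,0,⟨0,[(14,0),(4,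
  0)]⟩,⟨0,[(2,0)]⟩⟩,⟨false,0,⟨0,[]⟩,⟨0,[]⟩⟩,⟨false,0,⟨0,[]⟩,⟨0,[]⟩⟩,[.o ⟨false,0,⟨1,[(6,0),(4,1),(0,
  1),(1,1),(9,3),(6,0),(4,1),(0,0)]⟩,⟨0,[(3,0)]⟩⟩,.a ⟨true,0,⟨0,[(14,0)]⟩,⟨0,[(0,0),(16,0)]⟩⟩
  ⟨false,1,⟨1,[(34,0),(0,0)]⟩,⟨0,[(37,0)]⟩⟩ ⟨true,0,⟨0,[(4,0)]⟩,⟨0,[(0,0)]⟩⟩,.a ⟨true,0,⟨0,[(7,0)]⟩,
  ⟨1,[(10,0),(6,0),(2,0)]⟩⟩ ⟨true,0,⟨0,[]⟩,⟨0,[(37,0)]⟩⟩ ⟨false,0,⟨0,[(4,0)]⟩,⟨1,[(0,0),(4,0),(1,0),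
  (27,0)]⟩⟩,.a ⟨true,0,⟨0,[(20,0)]⟩,⟨0,[(17,0)]⟩⟩ ⟨false,1,⟨1,[(34,0),(0,0)]⟩,⟨1,[(20,0),(0,0)]⟩⟩
  ⟨true,0,⟨2,[(4,2),(1,0),(22,0),(1,0)]⟩,⟨0,[(0,0)]⟩⟩]⟩) (.R ⟨0,false,false,true,[0,0,1],[1,0,0,0,
  -1],[1,1],(⟨0,[(23,0)]⟩,⟨0,[(22,0)]⟩),(⟨0,[(15,0)]⟩,⟨0,[(16,0)]⟩),⟨0,[(12,0)]⟩,.k,.k,.k,.k,.k,.k,
  ⟨false,0,⟨2,[(6,0),(22,0),(1,0)]⟩,⟨1,[(13,0),(0,0),(20,0)]⟩⟩,⟨true,0,⟨0,[(1,0)]⟩,⟨0,[(0,0),(6,1),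
  (3,0),(0,0),(11,1),(11,1)]⟩⟩,⟨true,0,⟨0,[(7,0),(11,0)]⟩,⟨0,[(2,0),(1,0)]⟩⟩,⟨false,1,⟨0,[(1,0),(5,
  0),(11,0),(15,0)]⟩,⟨1,[(0,0),(6,0),(0,1),(2,1),(0,1),(1,0),(9,3),(6,1),(4,2)]⟩⟩,⟨false,0,⟨0,[]⟩,
  ⟨0,[]⟩⟩,⟨false,0,⟨0,[]⟩,⟨0,[]⟩⟩,[.a ⟨true,0,⟨0,[(1,0),(5,0)]⟩,⟨0,[(14,0)]⟩⟩ ⟨false,0,⟨2,[(6,0),
  (22,0),(1,0)]⟩,⟨1,[(13,0),(0,0),(20,0)]⟩⟩ ⟨true,0,⟨0,[(1,0)]⟩,⟨0,[(0,0),(6,1),(3,0),(0,0),(11,1),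
  (11,1)]⟩⟩,.o ⟨false,1,⟨0,[(3,0)]⟩,⟨1,[(6,0),(4,1),(0,1),(1,1),(9,3),(6,0),(4,1),(0,0)]⟩⟩,.a ⟨true,
  0,⟨0,[(7,0)]⟩,⟨1,[(10,0),(6,0),(2,0)]⟩⟩ ⟨false,0,⟨0,[]⟩,⟨1,[(13,0),(0,0),(20,0)]⟩⟩ ⟨true,0,⟨0,[(1,
  0)]⟩,⟨1,[(6,0),(0,1),(3,1),(0,1),(1,1),(9,3),(6,0),(4,1),(0,0)]⟩⟩,.a ⟨true,0,⟨0,[(20,0)]⟩,⟨0,[(17,
  0)]⟩⟩ ⟨true,0,⟨2,[(6,0),(22,0),(1,0)]⟩,⟨1,[(20,0),(0,0)]⟩⟩ ⟨false,1,⟨0,[(3,0),(13,0)]⟩,⟨0,[(0,0),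
  (6,1),(3,0),(0,0),(11,1),(11,1)]⟩⟩]⟩))

theorem ok8 : chk K t8 r8 = true := by decide +kernel

noncomputable def t11 : Tre :=
  (.Q [0,1,0,0,-1,0,-1,0,1,0,-1,1] (.p false [0,0,1] [0,0,0,0,1] (⟨0,[(20,0)]⟩,⟨0,[(19,0)]⟩) .k 2
  (⟨0,[(13,0)]⟩,⟨0,[(12,0)]⟩) .k (.r (-1) ⟨9,[(5,3),(1,4),(7,5),(11,0),(1,3),(2,7)]⟩ ⟨0,[(4,0),(11,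
  0)]⟩)) (.Q [0,1,0,0,-1,0,0,0,1,-1,0,1] (.p true [0,0,0,0,1] [1] (⟨0,[(14,0)]⟩,⟨0,[(13,0)]⟩) .k 1
  (⟨0,[]⟩,⟨0,[]⟩) .k .k) (.Q [0,-1,0,-1,1,0,0,0,-1,1,0,-1] (.p false [0,0,0,0,1] [1] (⟨0,[(15,0)]⟩,
  ⟨0,[(14,0)]⟩) .k 1 (⟨0,[]⟩,⟨0,[]⟩) .k .k) (.R ⟨2,true,false,true,[0,1],[1,0,0,0,-1],[1],(⟨0,[]⟩,
  ⟨0,[]⟩),(⟨0,[(15,0)]⟩,⟨0,[(16,0)]⟩),⟨0,[]⟩,.k,.k,.k,(.r 0 ⟨1,[(20,0),(0,0),(10,1)]⟩ ⟨27,[(0,9),(5,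
  17),(7,9),(15,1),(3,4),(0,8)]⟩),.k,.k,⟨true,0,⟨0,[]⟩,⟨1,[(20,0),(0,0)]⟩⟩,⟨false,1,⟨0,[(0,0),(31,
  0)]⟩,⟨1,[(1,1),(32,0),(0,0)]⟩⟩,⟨true,0,⟨0,[(6,0)]⟩,⟨1,[(20,0),(0,0),(10,1)]⟩⟩,⟨false,1,⟨0,[(0,
  0)]⟩,⟨0,[(1,0),(30,0),(2,0)]⟩⟩,⟨false,1,⟨1,[(34,0),(0,0)]⟩,⟨1,[(20,0),(0,0)]⟩⟩,⟨true,1,⟨0,[(0,0),
  (31,0)]⟩,⟨0,[(1,0)]⟩⟩,[]⟩) (.Q [0,-1,0,0,1,0,1,1,-1,0,1,-1] (.p true [0,0,1] [0,0,0,0,1] (⟨0,[(23,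
  0)]⟩,⟨0,[(22,0)]⟩) .k 2 (⟨0,[(16,0)]⟩,⟨0,[(15,0)]⟩) .k (.r (-1) ⟨9,[(8,3),(1,4),(7,5),(11,0),(1,
  3),(2,7)]⟩ ⟨0,[(7,0),(11,0)]⟩)) (.R ⟨0,false,false,false,[0,0,1],[0,0,0,0,1],[1,1],(⟨0,[(24,0)]⟩,
  ⟨0,[(23,0)]⟩),(⟨0,[(17,0)]⟩,⟨0,[(16,0)]⟩),⟨0,[(13,0)]⟩,.k,.k,.k,.k,.k,.k,⟨true,0,⟨0,[]⟩,⟨1,[(21,
  0),(0,0)]⟩⟩,⟨false,0,⟨1,[(3,1),(31,0),(0,0)]⟩,⟨0,[(8,0),(5,0)]⟩⟩,⟨true,0,⟨0,[(8,0),(11,0)]⟩,⟨12,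
  [(0,4),(0,4),(7,3),(0,0),(0,4),(7,2),(2,1)]⟩⟩,⟨false,0,⟨0,[(4,0),(15,0),(15,0)]⟩,⟨0,[(0,0)]⟩⟩,
  ⟨false,0,⟨0,[]⟩,⟨0,[]⟩⟩,⟨false,0,⟨0,[]⟩,⟨0,[]⟩⟩,[.o ⟨false,(-1),⟨0,[(2,0)]⟩,⟨1,[(14,2),(0,0),(20,
  0)]⟩⟩,.o ⟨false,0,⟨8,[(2,3),(12,4),(15,0),(4,1)]⟩,⟨0,[(14,0)]⟩⟩,.a ⟨true,0,⟨0,[(8,0)]⟩,⟨1,[(11,0),
  (6,0),(2,0)]⟩⟩ ⟨false,0,⟨0,[]⟩,⟨1,[(14,0),(0,0),(20,0)]⟩⟩ ⟨true,(-1),⟨0,[(3,0)]⟩,⟨0,[(8,0),(5,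
  0)]⟩⟩,.e ⟨true,0,⟨2,[(7,0),(22,0),(1,0)]⟩,⟨1,[(21,0),(0,0)]⟩⟩ ⟨true,(-1),⟨1,[(1,0),(1,0),(3,0),
  (10,0)]⟩,⟨0,[(14,0),(6,0)]⟩⟩]⟩) (.I [1,0,-2,-1] (.Q [0,-1,0,0,1,0,-2,-2,0,1,-2] (.p false [0,0,1]
  [1,0,-1] (⟨0,[(25,0)]⟩,⟨0,[(24,0)]⟩) .k 2 (⟨0,[(24,0)]⟩,⟨0,[(25,0)]⟩) .k (.r 0 ⟨0,[(2,0),(7,1),(1,
  0),(2,0),(18,0)]⟩ ⟨0,[(9,1),(11,1),(15,0)]⟩)) (.Q [0,0,1,0,0,0,2,0,0,-1,2] (.p true [0,0,1] [1,0,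
  -1] (⟨0,[(26,0)]⟩,⟨0,[(25,0)]⟩) .k 2 (⟨0,[(25,0)]⟩,⟨0,[(26,0)]⟩) .k (.r 0 ⟨0,[(3,0),(7,1),(1,0),
  (2,0),(18,0)]⟩ ⟨20,[(0,14),(9,40),(11,11),(0,0),(8,0),(0,2),(6,0)]⟩)) (.R ⟨0,false,false,false,[0,
  0,1],[1,0,-1],[1,1],(⟨0,[(27,0)]⟩,⟨0,[(26,0)]⟩),(⟨0,[(26,0)]⟩,⟨0,[(27,0)]⟩),⟨0,[(16,0)]⟩,.k,.k,.k,
  .k,.k,.k,⟨false,0,⟨7,[(4,2),(4,2),(2,1),(0,1),(0,2),(7,3),(12,0)]⟩,⟨3,[(0,1),(0,1),(36,0),(0,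
  0)]⟩⟩,⟨true,0,⟨0,[(14,0)]⟩,⟨0,[(0,0)]⟩⟩,⟨true,0,⟨0,[(11,0),(11,0)]⟩,⟨1,[(4,0),(7,1),(1,0),(2,0),
  (18,0)]⟩⟩,⟨false,1,⟨0,[(1,0)]⟩,⟨0,[(4,0),(7,1),(4,0),(18,0)]⟩⟩,⟨false,0,⟨0,[]⟩,⟨0,[]⟩⟩,⟨false,0,
  ⟨0,[]⟩,⟨0,[]⟩⟩,[.o ⟨false,1,⟨6,[(1,4),(20,2),(11,0),(6,1)]⟩,⟨0,[(4,0),(7,0),(4,0)]⟩⟩,.o ⟨false,1,
  ⟨18,[(1,9),(20,0),(11,1),(4,4)]⟩,⟨1,[(4,0),(0,0),(6,0),(4,1),(4,0)]⟩⟩,.e ⟨false,0,⟨0,[]⟩,⟨18,[(1,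
  4),(20,9),(11,0),(4,11)]⟩⟩ ⟨false,1,⟨37,[(1,23),(12,18),(7,9),(11,0),(4,11)]⟩,⟨1,[(0,0),(3,0),(4,
  0),(2,1),(23,0)]⟩⟩,.a ⟨true,0,⟨0,[(24,0)]⟩,⟨0,[(21,0)]⟩⟩ ⟨true,0,⟨4,[(2,0),(30,1),(1,0)]⟩,⟨1,[(24,
  0),(0,0)]⟩⟩ ⟨false,1,⟨11,[(1,5),(12,0),(6,9),(12,0),(3,0),(0,2)]⟩,⟨2,[(0,1),(3,0),(7,2),(4,0),(7,
  0),(10,1)]⟩⟩]⟩) (.I [1,0,0,1,0,0,0,2] (.Q [0,0,0,0,0,0,0,0,0,1,-2] (.ed true [0,0,2] (.r 0 ⟨7,[(0,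
  4),(12,2),(0,1),(8,0),(2,3)]⟩ ⟨20,[(2,14),(9,40),(11,11),(0,0),(8,0),(0,2),(6,0)]⟩)) (.R ⟨0,false,
  false,true,[1,0,-2],[1,0,-1],[0,0,0,-1,0,0,0,-2],(⟨0,[(0,0)]⟩,⟨0,[(29,1)]⟩),(⟨0,[(28,0)]⟩,⟨0,[(29,
  0)]⟩),⟨0,[(17,0),(11,0)]⟩,.k,.k,(.r (-1) ⟨27,[(3,19),(0,12),(8,55),(11,15),(9,1),(0,3),(2,14)]⟩
  ⟨1,[(1,1),(24,0),(0,0)]⟩),.k,.k,.k,⟨false,1,⟨29,[(3,19),(0,12),(8,29),(0,9),(21,3),(2,6),(0,1)]⟩,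
  ⟨6,[(1,2),(22,0),(2,0),(7,0),(2,3)]⟩⟩,⟨true,0,⟨0,[(13,0)]⟩,⟨0,[(27,0)]⟩⟩,⟨true,0,⟨0,[(39,0)]⟩,⟨0,
  [(38,0)]⟩⟩,⟨false,0,⟨3,[(1,0),(11,1),(0,0),(9,0)]⟩,⟨18,[(3,9),(20,0),(11,1),(4,4)]⟩⟩,⟨false,0,⟨0,
  []⟩,⟨0,[]⟩⟩,⟨false,0,⟨0,[]⟩,⟨0,[]⟩⟩,[.o ⟨false,0,⟨0,[(25,0)]⟩,⟨4,[(1,0),(11,1),(0,0),(9,1),(11,0),
  (4,2)]⟩⟩,.o ⟨false,1,⟨6,[(3,4),(20,2),(11,0),(6,1)]⟩,⟨0,[(6,0),(7,0),(4,0)]⟩⟩,.a ⟨true,0,⟨0,[(16,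
  0)]⟩,⟨0,[(13,1)]⟩⟩ ⟨false,1,⟨0,[(3,0),(0,0),(8,1),(3,0),(0,0),(11,1),(11,1)]⟩,⟨0,[(1,0)]⟩⟩ ⟨true,
  0,⟨0,[(13,1),(11,0)]⟩,⟨1,[(1,0),(2,0),(22,1)]⟩⟩,.o ⟨false,0,⟨0,[(2,0),(14,0),(0,0),(11,1),(11,
  1)]⟩,⟨4,[(13,8),(12,0),(9,0),(3,2)]⟩⟩]⟩) (.I [0,0,0,0,0,1,1] (.C [(0,1),(0,0),(1,0),(27,1),(11,
  0)]) (.C [(0,0),(13,0),(4,0)]))) (.Q [0,0,0,0,0,0,0,0,0,1,-2] (.ed true [0,0,2] (.r 0 ⟨0,[(5,0),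
  (7,1),(1,0),(2,0),(18,0)]⟩ ⟨9,[(0,4),(1,4),(9,3),(12,5),(9,0),(1,4),(1,2)]⟩)) (.R ⟨0,false,false,
  false,[0,0,1],[0,0,2],[1],(⟨0,[(29,0)]⟩,⟨0,[(28,0)]⟩),(⟨0,[(29,1)]⟩,⟨0,[(0,0)]⟩),⟨0,[(18,0)]⟩,.k,
  .k,.k,.k,.k,.k,⟨false,1,⟨9,[(1,4),(1,4),(9,9),(22,0),(0,3),(0,0),(1,2)]⟩,⟨0,[(6,0),(7,1),(1,0),(2,
  0),(18,0)]⟩⟩,⟨true,0,⟨0,[(13,0)]⟩,⟨0,[(27,0)]⟩⟩,⟨false,1,⟨19,[(3,9),(9,17),(12,1),(9,1),(3,0),(0,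
  4)]⟩,⟨1,[(6,0),(7,1),(1,0),(2,0),(18,0)]⟩⟩,⟨true,0,⟨0,[(14,0),(23,0)]⟩,⟨0,[(25,0)]⟩⟩,⟨false,0,⟨0,
  []⟩,⟨0,[]⟩⟩,⟨false,0,⟨0,[]⟩,⟨0,[]⟩⟩,[.o ⟨false,0,⟨0,[(6,0),(7,1),(4,0),(18,0)]⟩,⟨6,[(3,4),(21,3),
  (10,0),(6,0)]⟩⟩,.o ⟨false,1,⟨4,[(14,8),(9,0),(11,0),(1,8),(2,2)]⟩,⟨0,[(1,0),(4,0),(9,0),(2,0)]⟩⟩,
  .e ⟨true,0,⟨0,[]⟩,⟨0,[(43,0)]⟩⟩ ⟨true,0,⟨1,[(6,0),(7,3),(1,0),(2,0),(18,2)]⟩,⟨1,[(1,1),(4,0),(9,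
  0),(2,0),(18,0)]⟩⟩,.a ⟨true,0,⟨0,[(26,0)]⟩,⟨0,[(23,0)]⟩⟩ ⟨false,1,⟨1,[(40,0),(0,0)]⟩,⟨1,[(26,0),
  (0,0)]⟩⟩ ⟨true,0,⟨1,[(2,0),(3,0),(4,0),(2,3),(23,2)]⟩,⟨0,[(1,0),(25,0),(10,0)]⟩⟩]⟩) (.I [0,0,0,0,
  0,1,1] (.C [(0,1),(0,0),(1,0),(27,1),(11,0)]) (.C [(0,0),(13,0),(4,0)]))))) (.Q [0,0,1,0,0,0,2,0,
  0,-1,2] (.p true [0,0,1] [1,0,-1] (⟨0,[(26,0)]⟩,⟨0,[(25,0)]⟩) .k 2 (⟨0,[(25,0)]⟩,⟨0,[(26,0)]⟩) .k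
  (.r 0 ⟨18,[(0,13),(12,18),(7,9),(11,0),(4,11)]⟩ ⟨0,[(10,1),(11,1),(15,0)]⟩)) (.R ⟨0,false,false,
  false,[0,0,1],[1,0,-1],[1],(⟨0,[(27,0)]⟩,⟨0,[(26,0)]⟩),(⟨0,[(26,0)]⟩,⟨0,[(27,0)]⟩),⟨0,[(16,0)]⟩,
  .k,.k,.k,.k,.k,.k,⟨false,0,⟨11,[(1,5),(12,0),(6,9),(12,0),(3,0),(0,2)]⟩,⟨1,[(23,1),(0,1),(13,0),
  (0,0)]⟩⟩,⟨true,0,⟨0,[(14,0)]⟩,⟨0,[(0,0)]⟩⟩,⟨false,1,⟨0,[(11,0),(11,0),(15,0)]⟩,⟨37,[(1,13),(12,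
  18),(7,9),(11,0),(4,11)]⟩⟩,⟨true,1,⟨0,[(21,0),(1,1),(0,0),(14,0)]⟩,⟨0,[(1,0)]⟩⟩,⟨false,0,⟨0,[]⟩,
  ⟨0,[]⟩⟩,⟨false,0,⟨0,[]⟩,⟨0,[]⟩⟩,[.o ⟨false,1,⟨1,[(17,0),(0,0),(4,1),(15,0)]⟩,⟨18,[(1,8),(20,0),
  (11,1),(4,4)]⟩⟩,.o ⟨false,1,⟨0,[(23,0),(15,0)]⟩,⟨6,[(1,1),(20,2),(11,0),(6,1)]⟩⟩,.a ⟨true,0,⟨0,
  [(11,0)]⟩,⟨1,[(14,0),(6,0),(2,0)]⟩⟩ ⟨true,0,⟨0,[]⟩,⟨0,[(41,0)]⟩⟩ ⟨false,1,⟨1,[(14,0),(6,0),(1,1),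
  (0,0),(14,1)]⟩,⟨3,[(0,1),(0,1),(36,0),(0,0)]⟩⟩,.e ⟨false,1,⟨1,[(38,0),(0,0)]⟩,⟨1,[(24,0),(0,0)]⟩⟩
  ⟨false,1,⟨0,[(21,0),(1,0),(15,0)]⟩,⟨18,[(1,8),(20,0),(1,18),(9,1),(4,4)]⟩⟩]⟩) (.Q [0,0,0,0,0,0,0,
  0,0,0,1,-1] (.ed true [1,0,-1,0,1] (.r 0 ⟨0,[(11,0),(11,0)]⟩ ⟨37,[(1,3),(12,18),(7,29),(11,2),(4,
  35)]⟩)) (.Q [0,0,0,0,1,0,2,0,-1,-1,2,-1] (.p true [0,0,1] [1,0,-1,0,1] (⟨0,[(28,0)]⟩,⟨0,[(27,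
  0)]⟩) .k 2 (⟨0,[(21,0),(5,0)]⟩,⟨0,[(0,0)]⟩) .k (.r 0 ⟨0,[(2,0),(12,0),(24,0)]⟩ ⟨1,[(12,1),(11,3),
  (0,1),(13,0),(0,0)]⟩)) (.Q [0,0,1,0,-1,0,-1,0,1,1,-1,1] (.p true [1,0,-1,0,1] [] (⟨0,[(22,0),(5,
  0)]⟩,⟨0,[(1,0)]⟩) .k 0 (⟨0,[]⟩,⟨0,[]⟩) .k (.r 0 ⟨0,[(13,0),(11,0)]⟩ ⟨37,[(3,3),(12,18),(7,29),(11,
  2),(4,35)]⟩)) (.K ⟨0,[1,0,-1,0,1],(-1),(-1),(⟨0,[(23,0),(5,0)]⟩,⟨0,[(2,0)]⟩),.k,(.r 0 ⟨1,[(5,0),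
  (8,1),(11,1),(13,0)]⟩ ⟨2,[(4,0),(12,0),(7,0),(1,0),(0,1),(10,2),(2,3)]⟩),(.x 0 ⟨54,[(2,54),(0,10),
  (1,21),(1,21),(1,9),(1,22),(19,3),(2,50),(2,7),(4,15)]⟩ ⟨0,[(19,0),(0,0),(2,0),(3,0)]⟩),.k,.k,[⟨0,
  [(1,0)]⟩,⟨0,[(0,0)]⟩,⟨18,[(4,8),(15,18),(4,0),(11,1),(4,4)]⟩,⟨3,[(0,2),(5,0),(7,3),(9,0),(1,2),(9,
  1)]⟩]⟩) (.Q [0,0,0,0,0,0,0,0,0,1,-2] (.ed true [0,0,2] (.r 0 ⟨18,[(4,13),(12,18),(7,9),(11,0),(4,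
  11)]⟩ ⟨0,[(14,1),(11,1),(15,0)]⟩)) (.R ⟨0,false,false,false,[0,0,1],[0,0,2],[1],(⟨0,[(31,0)]⟩,⟨0,
  [(30,0)]⟩),(⟨0,[(31,1)]⟩,⟨0,[(0,0)]⟩),⟨0,[(20,0)]⟩,.k,.k,.k,.k,.k,.k,⟨false,1,⟨1,[(1,0),(5,0),(7,
  3),(9,0),(1,2),(15,1)]⟩,⟨18,[(5,13),(12,18),(7,9),(11,0),(4,11)]⟩⟩,⟨true,0,⟨0,[(15,0)]⟩,⟨0,[(29,
  0)]⟩⟩,⟨false,1,⟨0,[(15,0),(11,0),(15,0)]⟩,⟨37,[(5,13),(12,18),(7,9),(11,0),(4,11)]⟩⟩,⟨true,0,⟨2,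
  [(5,0),(19,0),(0,0),(1,0),(14,0)]⟩,⟨0,[(27,0)]⟩⟩,⟨false,0,⟨0,[]⟩,⟨0,[]⟩⟩,⟨false,0,⟨0,[]⟩,⟨0,[]⟩⟩,
  [.o ⟨false,0,⟨18,[(5,13),(20,9),(11,0),(4,11)]⟩,⟨0,[(27,1),(15,0)]⟩⟩,.o ⟨false,0,⟨0,[(5,0),(37,
  0)]⟩,⟨1,[(21,0),(0,0),(4,3),(15,0)]⟩⟩,.a ⟨true,0,⟨0,[(15,0)]⟩,⟨1,[(18,0),(6,0),(2,0)]⟩⟩ ⟨true,0,
  ⟨0,[]⟩,⟨0,[(45,0)]⟩⟩ ⟨false,0,⟨1,[(5,1),(12,0),(6,0),(2,0),(14,1)]⟩,⟨0,[(15,0),(11,1),(15,0)]⟩⟩,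
  .e ⟨false,1,⟨1,[(42,0),(0,0)]⟩,⟨1,[(28,0),(0,0)]⟩⟩ ⟨false,0,⟨0,[(5,0),(19,0),(17,0)]⟩,⟨0,[(27,1),
  (0,0),(14,0)]⟩⟩]⟩) (.I [0,0,0,0,0,1,1] (.C [(0,1),(0,0),(3,0),(27,1),(11,0)]) (.C [(0,0),(15,0),
  (4,0)])))) (.R ⟨0,false,false,false,[0,0,1],[1,0,-1,0,1],[1,1],(⟨0,[(29,0)]⟩,⟨0,[(28,0)]⟩),(⟨0,
  [(22,0),(5,0)]⟩,⟨0,[(1,0)]⟩),⟨0,[(18,0)]⟩,.k,.k,.k,.k,.k,.k,⟨false,0,⟨3,[(2,1),(0,1),(36,0),(0,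
  0)]⟩,⟨1,[(25,1),(0,1),(13,0),(0,0)]⟩⟩,⟨true,(-1),⟨0,[(0,0)]⟩,⟨0,[(11,0),(1,1),(3,0),(0,0),(11,1),
  (11,1)]⟩⟩,⟨true,0,⟨0,[(13,0),(11,0)]⟩,⟨37,[(3,13),(12,18),(7,9),(11,0),(4,11)]⟩⟩,⟨false,0,⟨0,[(5,
  0),(17,0),(1,0),(0,0),(14,0)]⟩,⟨0,[(3,0),(15,0),(21,0)]⟩⟩,⟨false,0,⟨0,[]⟩,⟨0,[]⟩⟩,⟨false,0,⟨0,[]⟩,
  ⟨0,[]⟩⟩,[.o ⟨false,(-1),⟨0,[(5,0)]⟩,⟨18,[(3,3),(15,18),(4,10),(11,2),(4,16)]⟩⟩,.o ⟨false,0,⟨1,[(5,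
  0),(14,0),(4,0),(15,0)]⟩,⟨18,[(3,8),(15,18),(4,0),(11,1),(4,4)]⟩⟩,.a ⟨true,0,⟨0,[(13,0)]⟩,⟨1,[(16,
  0),(6,0),(2,0)]⟩⟩ ⟨false,0,⟨0,[]⟩,⟨1,[(19,0),(0,0),(20,0)]⟩⟩ ⟨true,(-1),⟨1,[(5,1),(10,0),(6,0),(2,
  0)]⟩,⟨18,[(3,8),(9,18),(5,18),(4,0),(11,1),(4,4)]⟩⟩,.e ⟨true,0,⟨4,[(4,0),(30,1),(1,0)]⟩,⟨1,[(26,
  0),(0,0)]⟩⟩ ⟨true,(-1),⟨0,[(5,0),(17,0)]⟩,⟨18,[(3,8),(15,18),(4,0),(1,18),(9,1),(4,4)]⟩⟩]⟩)) (.Q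
  [0,-1,0,0,1,0,1,1,-1,1,1,-1] (.p false [0,0,-1,0,1] [1] (⟨0,[(0,0)]⟩,⟨0,[(20,0),(7,0)]⟩) .k 1 (⟨0,
  []⟩,⟨0,[]⟩) .k (.r 0 ⟨0,[(12,0),(11,0)]⟩ ⟨37,[(2,3),(12,18),(7,29),(11,2),(4,35)]⟩)) (.R ⟨0,false,
  false,false,[1,0,0,0,-1],[1,0,1,0,-1],[1],(⟨0,[(21,0)]⟩,⟨0,[(22,0)]⟩),(⟨0,[(21,0),(7,0)]⟩,⟨0,[(1,
  0)]⟩),⟨0,[(1,0),(15,0)]⟩,.k,.k,(.r (-1) ⟨1,[(39,1),(0,0),(0,0)]⟩ ⟨1,[(26,0),(0,0),(10,1)]⟩),.k,.k,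
  .k,⟨false,0,⟨0,[(5,0),(5,0),(1,0)]⟩,⟨22,[(0,14),(2,3),(6,14),(5,3),(19,2),(4,5)]⟩⟩,⟨true,0,⟨0,
  [(13,0)]⟩,⟨0,[(27,0)]⟩⟩,⟨false,0,⟨0,[]⟩,⟨1,[(19,0),(0,0),(20,0)]⟩⟩,⟨true,0,⟨2,[(0,0),(2,0),(16,
  0)]⟩,⟨0,[(25,0)]⟩⟩,⟨false,0,⟨0,[]⟩,⟨0,[]⟩⟩,⟨false,0,⟨0,[]⟩,⟨0,[]⟩⟩,[.a ⟨true,1,⟨0,[(0,0)]⟩,⟨0,[(5,
  0)]⟩⟩ ⟨true,0,⟨0,[]⟩,⟨1,[(26,0),(0,0)]⟩⟩ ⟨false,1,⟨5,[(0,1),(2,1),(16,1),(19,2),(0,2)]⟩,⟨0,[(25,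
  0)]⟩⟩,.o ⟨false,2,⟨9,[(0,9),(18,0),(0,0),(15,1),(4,4)]⟩,⟨0,[(7,0),(17,0)]⟩⟩,.o ⟨false,1,⟨0,[(19,
  0)]⟩,⟨8,[(7,3),(12,4),(15,0),(4,1)]⟩⟩,.o ⟨false,1,⟨1,[(19,1),(6,0),(0,0)]⟩,⟨37,[(4,17),(1,17),(13,
  19),(15,3),(3,0),(0,8)]⟩⟩]⟩) (.Q [0,0,0,0,0,0,0,0,0,1,-2] (.ed true [0,0,2] (.r 0 ⟨18,[(3,13),(12,
  18),(7,9),(11,0),(4,11)]⟩ ⟨0,[(13,1),(11,1),(15,0)]⟩)) (.R ⟨0,false,false,false,[0,0,1],[0,0,2],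
  [1],(⟨0,[(30,0)]⟩,⟨0,[(29,0)]⟩),(⟨0,[(30,1)]⟩,⟨0,[(0,0)]⟩),⟨0,[(19,0)]⟩,.k,.k,.k,.k,.k,.k,⟨false,
  1,⟨0,[(6,0),(5,0),(1,1),(11,0),(15,0)]⟩,⟨18,[(4,13),(12,18),(7,9),(11,0),(4,11)]⟩⟩,⟨true,0,⟨0,
  [(14,0)]⟩,⟨0,[(28,0)]⟩⟩,⟨false,1,⟨0,[(14,0),(11,0),(15,0)]⟩,⟨37,[(4,13),(12,18),(7,9),(11,0),(4,
  11)]⟩⟩,⟨true,0,⟨2,[(4,0),(19,0),(0,0),(1,0),(14,0)]⟩,⟨0,[(26,0)]⟩⟩,⟨false,0,⟨0,[]⟩,⟨0,[]⟩⟩,⟨false,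
  0,⟨0,[]⟩,⟨0,[]⟩⟩,[.o ⟨false,0,⟨18,[(4,13),(20,9),(11,0),(4,11)]⟩,⟨0,[(26,1),(15,0)]⟩⟩,.o ⟨false,0,
  ⟨0,[(4,0),(37,0)]⟩,⟨1,[(20,0),(0,0),(4,3),(15,0)]⟩⟩,.a ⟨true,0,⟨0,[(14,0)]⟩,⟨1,[(17,0),(6,0),(2,
  0)]⟩⟩ ⟨true,0,⟨0,[]⟩,⟨0,[(44,0)]⟩⟩ ⟨false,0,⟨1,[(4,1),(12,0),(6,0),(2,0),(14,1)]⟩,⟨0,[(14,0),(11,
  1),(15,0)]⟩⟩,.e ⟨false,1,⟨1,[(41,0),(0,0)]⟩,⟨1,[(27,0),(0,0)]⟩⟩ ⟨false,0,⟨0,[(4,0),(19,0),(17,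
  0)]⟩,⟨0,[(26,1),(0,0),(14,0)]⟩⟩]⟩) (.I [0,0,0,0,0,1,1] (.C [(0,1),(0,0),(2,0),(27,1),(11,0)]) (.C
  [(0,0),(14,0),(4,0)]))))))) (.R ⟨0,false,false,true,[0,0,1],[0,1],[1,1],(⟨0,[(25,0)]⟩,⟨0,[(24,
  0)]⟩),(⟨0,[(30,0)]⟩,⟨0,[(29,0)]⟩),⟨0,[(14,0)]⟩,.k,.k,.k,.k,.k,.k,⟨true,0,⟨0,[(8,0)]⟩,⟨0,[(0,0)]⟩⟩,
  ⟨false,1,⟨5,[(12,0),(6,3),(12,0),(3,3)]⟩,⟨0,[(22,0)]⟩⟩,⟨true,0,⟨0,[(9,0),(11,0)]⟩,⟨3,[(0,0),(1,1),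
  (4,1),(2,2),(1,1),(7,0)]⟩⟩,⟨false,1,⟨0,[(21,0),(12,0),(2,0)]⟩,⟨0,[(10,0)]⟩⟩,⟨false,0,⟨0,[]⟩,⟨0,
  []⟩⟩,⟨false,0,⟨0,[]⟩,⟨0,[]⟩⟩,[.o ⟨false,0,⟨0,[(2,0),(12,0)]⟩,⟨1,[(15,0),(0,0),(18,1),(1,0)]⟩⟩,.o
  ⟨false,1,⟨4,[(0,0),(31,0),(1,3),(1,0),(0,1)]⟩,⟨0,[(35,0)]⟩⟩,.a ⟨true,0,⟨0,[(9,0)]⟩,⟨1,[(12,0),(6,
  0),(2,0)]⟩⟩ ⟨false,0,⟨0,[]⟩,⟨1,[(15,0),(0,0),(20,0)]⟩⟩ ⟨true,0,⟨1,[(2,0),(9,0),(2,0),(18,0)]⟩,⟨0,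
  [(9,0),(25,0)]⟩⟩,.e ⟨true,0,⟨2,[(8,0),(22,0),(1,0)]⟩,⟨1,[(22,0),(0,0)]⟩⟩ ⟨true,0,⟨1,[(2,0),(4,0),
  (4,0),(20,0)]⟩,⟨0,[(22,0),(12,0)]⟩⟩]⟩)))) (.Q [0,0,0,0,0,0,0,0,0,0,-1,1] (.ed false [1,0,-1,0,1]
  (.r 0 ⟨0,[(6,0),(11,0)]⟩ ⟨9,[(7,3),(1,4),(7,5),(11,0),(1,3),(2,7)]⟩)) (.R ⟨0,false,false,false,[0,
  0,-1,0,1],[0,0,0,0,1],[1],(⟨0,[(0,0)]⟩,⟨0,[(15,0),(7,0)]⟩),(⟨0,[(16,0)]⟩,⟨0,[(15,0)]⟩),⟨0,[(11,0),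
  (3,0)]⟩,.k,.k,(.r 0 ⟨0,[(6,0),(0,0),(11,0)]⟩ ⟨0,[(8,0),(12,0),(10,1),(2,0)]⟩),.k,.k,.k,⟨false,1,
  ⟨1,[(34,0),(0,0)]⟩,⟨0,[(37,0)]⟩⟩,⟨true,0,⟨0,[(7,0)]⟩,⟨0,[(21,0)]⟩⟩,⟨false,1,⟨0,[(8,0),(12,0),(9,
  0),(3,0)]⟩,⟨0,[(7,0),(11,0)]⟩⟩,⟨true,0,⟨0,[(8,0),(23,0)]⟩,⟨0,[(19,0)]⟩⟩,⟨false,0,⟨0,[]⟩,⟨0,[]⟩⟩,
  ⟨false,0,⟨0,[]⟩,⟨0,[]⟩⟩,[.a ⟨true,(-1),⟨0,[(3,0)]⟩,⟨0,[(1,0)]⟩⟩ ⟨true,0,⟨0,[]⟩,⟨1,[(20,0),(0,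
  0)]⟩⟩ ⟨false,0,⟨2,[(6,0),(0,2),(21,0),(1,0)]⟩,⟨6,[(1,2),(2,2),(5,1),(19,0),(4,1)]⟩⟩,.o ⟨false,0,
  ⟨4,[(3,3),(10,0),(15,0),(4,1)]⟩,⟨0,[(13,0)]⟩⟩,.o ⟨false,0,⟨4,[(2,3),(1,0),(25,0),(4,1)]⟩,⟨0,[(7,
  0),(5,0)]⟩⟩,.o ⟨false,0,⟨9,[(2,7),(1,1),(15,4),(0,4),(8,1),(4,3)]⟩,⟨0,[(5,0),(1,0)]⟩⟩]⟩) (.Q [0,
  -1,0,0,1,0,0,1,-1,0,0,-1] (.p false [0,0,0,0,1] [] (⟨0,[(16,0)]⟩,⟨0,[(15,0)]⟩) .k 0 (⟨0,[]⟩,⟨0,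
  []⟩) .k .k) (.R ⟨0,false,false,false,[1,0,-1],[1,0,-1,0,1],[0,1,1,0,0,0,0,-1],(⟨0,[(23,0)]⟩,⟨0,
  [(24,0)]⟩),(⟨0,[(17,0),(5,0)]⟩,⟨0,[(1,0)]⟩),⟨0,[(12,0)]⟩,.k,.k,.k,.k,.k,.k,⟨true,0,⟨1,[(21,0),(0,
  0)]⟩,⟨0,[]⟩⟩,⟨false,0,⟨1,[(4,1),(30,0),(0,0)]⟩,⟨0,[(14,0)]⟩⟩,⟨false,0,⟨1,[(21,0),(0,0)]⟩,⟨1,[(35,
  0),(0,0)]⟩⟩,⟨true,(-1),⟨0,[(4,0)]⟩,⟨0,[(14,0)]⟩⟩,⟨false,0,⟨0,[]⟩,⟨0,[]⟩⟩,⟨false,0,⟨0,[]⟩,⟨0,[]⟩⟩,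
  [.e ⟨false,0,⟨0,[(8,0),(11,0)]⟩,⟨7,[(0,2),(4,2),(3,1),(0,1),(8,0),(12,3),(3,4)]⟩⟩ ⟨false,0,⟨1,[(4,
  1),(3,1),(11,1),(14,0),(0,0)]⟩,⟨0,[(0,0)]⟩⟩,.o ⟨false,0,⟨0,[(4,0),(15,0),(15,0)]⟩,⟨2,[(0,0),(5,1),
  (1,0),(0,1),(2,2),(0,2),(11,5),(6,1),(4,3),(0,0)]⟩⟩,.a ⟨true,0,⟨1,[(11,0),(6,0),(2,0)]⟩,⟨0,[(8,
  0)]⟩⟩ ⟨true,0,⟨0,[(20,0),(0,0)]⟩,⟨2,[(0,0),(2,0),(5,1),(2,0),(0,0),(4,0),(6,1),(6,1)]⟩⟩ ⟨false,0,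
  ⟨0,[(4,0),(3,0),(11,0),(15,0)]⟩,⟨0,[(0,0)]⟩⟩,.o ⟨false,0,⟨0,[(22,0)]⟩,⟨4,[(8,3),(12,0),(9,0),(3,
  2)]⟩⟩]⟩) (.Q [0,1,0,0,-1,0,1,0,1,-1,1,1] (.p true [0,0,1] [1,0,0,0,-1] (⟨0,[(24,0)]⟩,⟨0,[(23,
  0)]⟩) .k 2 (⟨0,[(16,0)]⟩,⟨0,[(17,0)]⟩) .k (.r 0 ⟨4,[(9,0),(0,0),(8,2),(2,3),(9,1)]⟩ ⟨11,[(0,9),(1,
  9),(17,1),(0,1),(9,1),(3,0),(0,6)]⟩)) (.R ⟨0,false,false,true,[0,0,1],[1,0,0,0,-1],[1],(⟨0,[(25,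
  0)]⟩,⟨0,[(24,0)]⟩),(⟨0,[(17,0)]⟩,⟨0,[(18,0)]⟩),⟨0,[(14,0)]⟩,.k,.k,.k,.k,.k,.k,⟨true,0,⟨0,[]⟩,⟨1,
  [(22,0),(0,0)]⟩⟩,⟨false,1,⟨4,[(3,1),(3,2),(4,1),(6,0),(11,0)]⟩,⟨8,[(0,3),(8,4),(6,4),(15,0),(4,
  1)]⟩⟩,⟨false,1,⟨11,[(1,9),(1,9),(17,1),(0,1),(9,1),(3,0),(0,6)]⟩,⟨0,[(10,0),(12,0),(9,0)]⟩⟩,⟨true,
  1,⟨0,[(3,0),(17,0)]⟩,⟨0,[(0,0),(9,0),(12,0),(9,0)]⟩⟩,⟨false,0,⟨0,[]⟩,⟨0,[]⟩⟩,⟨false,0,⟨0,[]⟩,⟨0,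
  []⟩⟩,[.o ⟨false,1,⟨0,[(15,0)]⟩,⟨8,[(0,3),(5,3),(9,0),(15,0),(4,1)]⟩⟩,.e ⟨false,1,⟨1,[(36,0),(0,
  0)]⟩,⟨0,[(39,0)]⟩⟩ ⟨false,2,⟨15,[(3,15),(2,5),(5,4),(2,5),(16,0),(3,7)]⟩,⟨0,[(0,0)]⟩⟩,.e ⟨true,0,
  ⟨0,[]⟩,⟨0,[(39,0)]⟩⟩ ⟨true,1,⟨1,[(3,0),(8,0),(2,0),(23,0)]⟩,⟨0,[(0,0)]⟩⟩,.a ⟨true,0,⟨0,[(22,0)]⟩,
  ⟨0,[(19,0)]⟩⟩ ⟨false,1,⟨1,[(36,0),(0,0)]⟩,⟨1,[(22,0),(0,0)]⟩⟩ ⟨true,1,⟨4,[(3,1),(3,2),(4,1),(6,0),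
  (11,0)]⟩,⟨1,[(0,1),(21,0),(0,0)]⟩⟩]⟩) (.I [0,0,0,0,0,1,1] (.I [0,0,0,0,0,1,-1,-1] (.C [(0,0),(11,
  0),(3,0),(11,1),(6,0),(4,0)]) (.C [(0,0),(1,0),(0,0),(11,0)])) (.C [(0,0),(9,0),(4,0)])))))) (.R
  ⟨0,false,false,false,[0,0,1],[0,0,0,0,1],[1,1],(⟨0,[(21,0)]⟩,⟨0,[(20,0)]⟩),(⟨0,[(14,0)]⟩,⟨0,[(13,
  0)]⟩),⟨0,[(10,0)]⟩,.k,.k,.k,.k,.k,.k,⟨true,0,⟨0,[]⟩,⟨1,[(18,0),(0,0)]⟩⟩,⟨false,0,⟨11,[(1,9),(0,1),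
  (12,9),(12,1),(3,0),(0,4)]⟩,⟨2,[(0,1),(10,0),(6,0),(8,0)]⟩⟩,⟨true,0,⟨0,[(5,0),(11,0)]⟩,⟨0,[(6,0),
  (12,0),(9,0)]⟩⟩,⟨false,0,⟨0,[(1,0),(15,0),(15,0)]⟩,⟨0,[(0,0),(5,0),(12,0),(9,0)]⟩⟩,⟨false,0,⟨0,
  []⟩,⟨0,[]⟩⟩,⟨false,0,⟨0,[]⟩,⟨0,[]⟩⟩,[.e ⟨false,0,⟨2,[(4,0),(22,0),(1,0)]⟩,⟨1,[(11,0),(0,0),(20,
  0)]⟩⟩ ⟨false,0,⟨16,[(1,4),(0,11),(12,4),(11,5),(0,0),(3,2)]⟩,⟨0,[(0,0)]⟩⟩,.o ⟨false,0,⟨4,[(1,3),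
  (10,0),(15,0),(4,1)]⟩,⟨0,[(11,0)]⟩⟩,.e ⟨false,0,⟨0,[]⟩,⟨1,[(11,0),(0,0),(20,0)]⟩⟩ ⟨false,0,⟨0,[(2,
  0)]⟩,⟨0,[(0,0)]⟩⟩,.a ⟨true,0,⟨0,[(18,0)]⟩,⟨0,[(15,0)]⟩⟩ ⟨true,0,⟨2,[(4,0),(22,0),(1,0)]⟩,⟨1,[(18,
  0),(0,0)]⟩⟩ ⟨false,0,⟨11,[(1,9),(0,1),(12,9),(12,1),(3,0),(0,4)]⟩,⟨1,[(0,1),(17,0),(0,0)]⟩⟩]⟩))

theorem ok11 : chk K t11 r6 = true := by decide +kernel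

noncomputable def t13 : Tre :=
  (.R ⟨0,false,false,true,[1,0,-1],[1,0,0,0,-1],[0,1],(⟨0,[(18,0)]⟩,⟨0,[(19,0)]⟩),(⟨0,[(11,0)]⟩,⟨0,
  [(12,0)]⟩),⟨0,[(7,0)]⟩,.k,.k,.k,.k,.k,.k,⟨false,0,⟨2,[(2,0),(22,0),(1,0)]⟩,⟨1,[(9,0),(0,0),(20,
  0)]⟩⟩,⟨true,0,⟨0,[(0,0)]⟩,⟨0,[(10,0),(6,0)]⟩⟩,⟨false,0,⟨0,[(4,0),(12,0),(9,0)]⟩,⟨0,[(3,0),(11,0),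
  (15,0)]⟩⟩,⟨true,0,⟨0,[(0,0),(3,0),(12,0),(9,0)]⟩,⟨0,[(10,0),(4,0)]⟩⟩,⟨false,0,⟨0,[]⟩,⟨0,[]⟩⟩,
  ⟨false,0,⟨0,[]⟩,⟨0,[]⟩⟩,[.a ⟨true,0,⟨1,[(0,1),(5,0),(6,0),(2,0)]⟩,⟨0,[(10,0)]⟩⟩ ⟨false,0,⟨2,[(2,
  0),(22,0),(1,0)]⟩,⟨1,[(9,0),(0,0),(20,0)]⟩⟩ ⟨true,0,⟨0,[(0,0)]⟩,⟨0,[(10,0),(6,0)]⟩⟩,.o ⟨false,1,
  ⟨15,[(0,9),(5,4),(2,5),(16,0),(4,7)]⟩,⟨1,[(2,0),(4,1),(0,1),(1,1),(9,3),(6,0),(4,1),(0,0)]⟩⟩,.e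
  ⟨true,0,⟨0,[(33,0)]⟩,⟨0,[]⟩⟩ ⟨true,0,⟨0,[(0,0)]⟩,⟨4,[(5,0),(4,4),(4,0),(1,3),(7,0),(1,0)]⟩⟩,.o
  ⟨false,0,⟨0,[(17,0)]⟩,⟨4,[(3,3),(12,0),(9,0),(3,2)]⟩⟩]⟩)

theorem ok13 : chk K t13 r5 = true := by decide +kernel

noncomputable def t15 : Tre :=
  (.K ⟨0,[0,0,0,0,1],(-1),(-1),(⟨0,[(11,0)]⟩,⟨0,[(10,0)]⟩),.k,(.r 0 ⟨1,[(1,0),(22,0),(3,0)]⟩ ⟨1,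
  [(15,0),(0,0),(10,1),(2,1)]⟩),(.r 0 ⟨1,[(15,0),(0,0),(10,1)]⟩ ⟨1,[(28,1),(0,0),(0,0)]⟩),.k,.k,[⟨0,
  [(2,0),(5,0)]⟩,⟨0,[(0,0)]⟩,⟨0,[(8,0)]⟩,⟨0,[(0,0),(23,0)]⟩]⟩)

theorem ok15 : chk K t15 r4 = true := by decide +kernel

noncomputable def t19 : Tre :=
  (.R ⟨2,true,false,false,[0,1],[0,0,1],[0,1,1],(⟨0,[]⟩,⟨0,[]⟩),(⟨0,[(20,0)]⟩,⟨0,[(19,0)]⟩),⟨0,[]⟩,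
  .k,.k,.k,.k,.k,.k,⟨false,0,⟨1,[(3,0),(12,0),(0,0)]⟩,⟨0,[(0,0),(1,0),(25,0),(3,0)]⟩⟩,⟨true,0,⟨0,
  [(17,0)]⟩,⟨0,[(0,0)]⟩⟩,⟨false,0,⟨0,[(30,0)]⟩,⟨0,[(29,0),(2,0)]⟩⟩,⟨true,0,⟨0,[(2,0)]⟩,⟨0,[(5,0)]⟩⟩,
  ⟨true,0,⟨0,[(34,0)]⟩,⟨0,[]⟩⟩,⟨false,1,⟨0,[(15,0),(16,0)]⟩,⟨0,[(1,0)]⟩⟩,[]⟩)

theorem ok19 : chk K t19 l15 = true := by decide +kernel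

noncomputable def t20 : Tre :=
  (.K ⟨0,[0,0,0,0,1],(-1),(-1),(⟨0,[(14,0)]⟩,⟨0,[(13,0)]⟩),.k,(.r 0 ⟨3,[(4,0),(2,0),(19,0),(3,2)]⟩
  ⟨1,[(18,0),(0,0),(10,1),(2,1)]⟩),(.r 0 ⟨1,[(18,0),(0,0),(10,1)]⟩ ⟨1,[(31,1),(0,0),(0,0)]⟩),.k,.k,
  [⟨0,[(1,0),(9,0)]⟩,⟨0,[(0,0)]⟩,⟨0,[(11,0)]⟩,⟨0,[(0,0),(26,0)]⟩]⟩)

theorem ok20 : chk K t20 l16 = true := by decide +kernel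

noncomputable def t21 : Tre :=
  (.R ⟨0,false,false,true,[1,0,-1],[1,0,0,0,-1],[0,1],(⟨0,[(21,0)]⟩,⟨0,[(22,0)]⟩),(⟨0,[(14,0)]⟩,⟨0,
  [(15,0)]⟩),⟨0,[(10,0)]⟩,.k,.k,.k,.k,.k,.k,⟨false,0,⟨4,[(5,0),(2,0),(19,0),(1,0)]⟩,⟨1,[(12,0),(0,
  0),(20,0)]⟩⟩,⟨true,0,⟨0,[(0,0)]⟩,⟨0,[(13,0),(6,0)]⟩⟩,⟨true,0,⟨0,[(4,0),(15,0),(9,0)]⟩,⟨0,[(2,0),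
  (0,0)]⟩⟩,⟨false,1,⟨0,[(0,0),(3,0),(15,0),(9,0),(3,0)]⟩,⟨0,[(3,0),(9,0)]⟩⟩,⟨false,0,⟨0,[]⟩,⟨0,[]⟩⟩,
  ⟨false,0,⟨0,[]⟩,⟨0,[]⟩⟩,[.a ⟨true,0,⟨1,[(0,1),(8,0),(6,0),(2,0)]⟩,⟨0,[(13,0)]⟩⟩ ⟨false,0,⟨4,[(5,
  0),(2,0),(19,0),(1,0)]⟩,⟨1,[(12,0),(0,0),(20,0)]⟩⟩ ⟨true,0,⟨0,[(0,0)]⟩,⟨0,[(13,0),(6,0)]⟩⟩,.o
  ⟨false,1,⟨15,[(0,9),(8,4),(2,5),(16,0),(4,7)]⟩,⟨0,[(10,0),(0,0),(1,0),(9,1),(6,0),(1,0),(2,0)]⟩⟩,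
  .e ⟨true,0,⟨0,[(36,0)]⟩,⟨0,[]⟩⟩ ⟨true,0,⟨0,[(0,0)]⟩,⟨3,[(7,0),(0,0),(4,3),(6,2),(7,0)]⟩⟩,.o
  ⟨false,0,⟨0,[(20,0)]⟩,⟨4,[(2,3),(16,0),(9,0),(3,2)]⟩⟩]⟩)

theorem ok21 : chk K t21 l17 = true := by decide +kernel

noncomputable def t22 : Tre :=
  (.R ⟨0,false,false,false,[1,0,-1],[0,1,-1],[0,0,2,1,0,0,0,-1],(⟨0,[(22,0)]⟩,⟨0,[(23,0)]⟩),(⟨0,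
  [(12,0)]⟩,⟨0,[(23,0),(3,0)]⟩),⟨0,[(11,0)]⟩,.k,.k,.k,.k,.k,.k,⟨true,0,⟨1,[(0,0),(32,0)]⟩,⟨0,[]⟩⟩,
  ⟨false,1,⟨6,[(3,1),(0,1),(1,1),(2,3),(1,1),(0,1),(11,3),(5,0),(0,3),(3,4)]⟩,⟨3,[(0,1),(4,0),(1,0),
  (9,2),(2,2)]⟩⟩,⟨true,0,⟨0,[(0,0)]⟩,⟨0,[(3,0),(0,0),(4,0)]⟩⟩,⟨false,1,⟨0,[(11,0),(0,0),(11,1),(6,
  0),(3,0),(0,0)]⟩,⟨1,[(5,0),(1,0),(9,0),(2,0)]⟩⟩,⟨false,0,⟨0,[]⟩,⟨0,[]⟩⟩,⟨false,0,⟨0,[]⟩,⟨0,[]⟩⟩,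
  [.o ⟨false,1,⟨18,[(0,1),(6,0),(0,17),(21,3),(3,1),(0,8)]⟩,⟨0,[(5,0)]⟩⟩,.o ⟨false,1,⟨0,[(4,0),(6,
  0),(0,0),(11,1),(6,0),(3,0),(0,0)]⟩,⟨0,[(5,0),(31,0)]⟩⟩,.a ⟨true,0,⟨5,[(0,1),(4,0),(1,0),(2,0),(6,
  3)]⟩,⟨0,[(3,0)]⟩⟩ ⟨true,0,⟨0,[(0,0),(2,0),(0,0)]⟩,⟨0,[(9,0)]⟩⟩ ⟨false,1,⟨0,[(3,0),(0,0),(6,0),(0,
  0),(11,1),(6,0),(3,0),(0,0)]⟩,⟨5,[(0,1),(4,6),(1,0),(2,0),(6,3)]⟩⟩,.o ⟨false,0,⟨0,[(21,0)]⟩,⟨4,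
  [(3,3),(16,0),(9,0),(3,2)]⟩⟩]⟩)

theorem ok22 : chk K t22 l18 = true := by decide +kernel

noncomputable def t23 : Tre :=
  (.R ⟨0,false,false,true,[0,0,1],[1,0,0,0,-1],[1],(⟨0,[(25,0)]⟩,⟨0,[(24,0)]⟩),(⟨0,[(17,0)]⟩,⟨0,
  [(18,0)]⟩),⟨0,[(14,0)]⟩,.k,.k,.k,.k,.k,.k,⟨true,0,⟨0,[]⟩,⟨1,[(22,0),(0,0)]⟩⟩,⟨false,1,⟨0,[(15,0),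
  (3,0)]⟩,⟨0,[(0,0),(4,0),(0,0)]⟩⟩,⟨true,0,⟨0,[(5,0),(0,0)]⟩,⟨0,[(7,0),(15,0),(9,0)]⟩⟩,⟨false,1,⟨0,
  [(1,0),(4,0),(12,0),(2,0)]⟩,⟨0,[(0,0)]⟩⟩,⟨false,0,⟨0,[]⟩,⟨0,[]⟩⟩,⟨false,0,⟨0,[]⟩,⟨0,[]⟩⟩,[.o
  ⟨false,1,⟨0,[(15,0)]⟩,⟨0,[(0,0),(5,0)]⟩⟩,.o ⟨false,1,⟨0,[(1,0)]⟩,⟨0,[(0,0),(20,0)]⟩⟩,.a ⟨true,0,
  ⟨0,[(5,0)]⟩,⟨1,[(12,0),(6,0),(2,0)]⟩⟩ ⟨true,0,⟨0,[]⟩,⟨0,[(39,0)]⟩⟩ ⟨false,1,⟨1,[(1,1),(10,0),(6,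
  0),(2,0)]⟩,⟨0,[(0,0),(4,0),(0,0)]⟩⟩,.e ⟨false,1,⟨1,[(36,0),(0,0)]⟩,⟨1,[(22,0),(0,0)]⟩⟩ ⟨false,1,
  ⟨0,[(1,0),(17,0)]⟩,⟨0,[(0,0),(5,0),(15,0)]⟩⟩]⟩)

theorem ok23 : chk K t23 l20 = true := by decide +kernel

noncomputable def t24 : Tre :=
  (.R ⟨2,true,false,false,[0,1],[0,0,0,0,1],[1,1],(⟨0,[]⟩,⟨0,[]⟩),(⟨0,[(20,0)]⟩,⟨0,[(19,0)]⟩),⟨0,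
  []⟩,.k,.k,.k,(.r (-1) ⟨1,[(24,0),(0,0),(10,1),(2,1)]⟩ ⟨3,[(4,0),(28,1),(3,2)]⟩),.k,.k,⟨true,0,⟨0,
  []⟩,⟨1,[(24,0),(0,0)]⟩⟩,⟨false,0,⟨0,[(18,0)]⟩,⟨0,[(6,0)]⟩⟩,⟨false,0,⟨1,[(4,0),(32,0)]⟩,⟨1,[(24,0),
  (0,0),(10,1),(2,1)]⟩⟩,⟨true,(-1),⟨0,[(0,0)]⟩,⟨0,[(3,0),(32,0)]⟩⟩,⟨true,0,⟨4,[(4,0),(28,1),(1,0)]⟩,
  ⟨1,[(24,0),(0,0)]⟩⟩,⟨false,0,⟨0,[(18,0)]⟩,⟨0,[(3,0)]⟩⟩,[]⟩)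

theorem ok24 : chk K t24 l22 = true := by decide +kernel

noncomputable def t25 : Tre :=
  (.Q [0,0,0,0,0,0,0,0,0,0,-1,1] (.ed false [1,0,-1,0,1] (.r 0 ⟨1,[(11,0),(12,0),(0,0)]⟩ ⟨1,[(1,0),
  (0,0),(7,0),(12,0),(2,0),(13,0)]⟩)) (.R ⟨0,false,false,true,[1,0,0,0,-1],[1,0,1,0,-1],[1,1],(⟨0,
  [(21,0)]⟩,⟨0,[(22,0)]⟩),(⟨0,[(21,0),(7,0)]⟩,⟨0,[(0,0)]⟩),⟨0,[(0,0),(16,0)]⟩,.k,.k,(.r (-1) ⟨11,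
  [(6,1),(4,4),(1,4),(22,0),(3,3),(0,5)]⟩ ⟨1,[(26,0),(0,0),(10,1)]⟩),.k,.k,.k,⟨false,0,⟨0,[(12,0)]⟩,
  ⟨1,[(2,0),(0,0),(7,0),(12,0),(2,0),(13,0)]⟩⟩,⟨true,0,⟨0,[(9,0)]⟩,⟨0,[(27,0)]⟩⟩,⟨false,0,⟨0,[(43,
  0)]⟩,⟨0,[(41,0)]⟩⟩,⟨true,0,⟨0,[(24,0)]⟩,⟨0,[(10,0)]⟩⟩,⟨false,0,⟨0,[]⟩,⟨0,[]⟩⟩,⟨false,0,⟨0,[]⟩,⟨0,
  []⟩⟩,[.e ⟨false,0,⟨4,[(6,0),(28,1),(1,0)]⟩,⟨1,[(19,0),(0,0),(20,0)]⟩⟩ ⟨false,1,⟨1,[(24,1),(15,0),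
  (0,0)]⟩,⟨0,[(10,0)]⟩⟩,.o ⟨false,1,⟨0,[(2,0),(8,0)]⟩,⟨0,[(3,0),(8,0),(4,0),(0,0),(11,1),(11,1)]⟩⟩,
  .e ⟨false,0,⟨0,[]⟩,⟨1,[(19,0),(0,0),(20,0)]⟩⟩ ⟨false,1,⟨0,[(24,0),(16,0)]⟩,⟨0,[(10,0)]⟩⟩,.a ⟨true,
  0,⟨0,[(1,0),(7,0)]⟩,⟨0,[(3,0),(5,0)]⟩⟩ ⟨true,0,⟨4,[(6,0),(28,1),(1,0)]⟩,⟨1,[(26,0),(0,0)]⟩⟩
  ⟨false,1,⟨0,[(11,0),(25,0),(3,0)]⟩,⟨1,[(10,1),(15,0),(0,0)]⟩⟩]⟩) (.Q [0,0,0,0,0,0,0,0,1,-1,0,1]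
  (.p true [0,0,0,0,1] [1] (⟨0,[(22,0)]⟩,⟨0,[(21,0)]⟩) .k 1 (⟨0,[]⟩,⟨0,[]⟩) .k .k) (.R ⟨2,true,
  false,true,[0,1],[1,0,0,0,-1],[1,1,1,1],(⟨0,[]⟩,⟨0,[]⟩),(⟨0,[(22,0)]⟩,⟨0,[(23,0)]⟩),⟨0,[]⟩,.k,.k,
  .k,(.r 0 ⟨1,[(27,0),(0,0),(10,1)]⟩ ⟨11,[(7,1),(4,4),(1,4),(22,0),(3,3),(0,5)]⟩),.k,.k,⟨false,0,⟨0,
  [(39,0)]⟩,⟨11,[(7,1),(4,4),(1,4),(22,0),(3,3),(0,5)]⟩⟩,⟨true,0,⟨0,[(2,0),(7,0)]⟩,⟨0,[(0,0)]⟩⟩,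
  ⟨false,0,⟨0,[]⟩,⟨1,[(20,0),(0,0),(20,0)]⟩⟩,⟨true,0,⟨0,[(5,0),(6,0)]⟩,⟨0,[(0,0),(38,0)]⟩⟩,⟨true,0,
  ⟨0,[(39,0)]⟩,⟨0,[(40,0)]⟩⟩,⟨false,1,⟨1,[(2,0),(6,0),(0,0),(13,0),(2,0),(14,0)]⟩,⟨0,[(0,0)]⟩⟩,[]⟩)
  (.Q [0,0,0,0,0,-1,0,0,0,1,0,-1] (.ed true [0,1,0,0,1] .k) (.S ⟨1,0,[0,-1,0,-1],[1,0,0,0,-1],[1],
  (⟨0,[(23,0)]⟩,⟨0,[(24,0)]⟩),⟨0,[(0,0)]⟩,.k,(.r (-1) ⟨11,[(8,1),(4,4),(1,4),(22,0),(3,3),(0,5)]⟩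
  ⟨1,[(28,0),(0,0),(10,1)]⟩),⟨false,0,⟨0,[]⟩,⟨1,[(21,0),(0,0),(20,0)]⟩⟩,⟨true,0,⟨0,[(41,0)]⟩,⟨0,
  [(40,0)]⟩⟩,⟨true,0,⟨0,[(40,0)]⟩,⟨0,[(41,0)]⟩⟩,⟨false,1,⟨1,[(21,0),(0,0),(20,0)]⟩,⟨0,[]⟩⟩,[.o
  ⟨false,1,⟨0,[(7,0),(33,0)]⟩,⟨1,[(5,0),(5,0),(7,1),(0,1),(1,0),(9,3),(6,1),(4,2)]⟩⟩,.o ⟨false,1,⟨2,
  [(1,2),(6,1),(10,2),(0,2),(11,5),(8,0),(1,2),(0,3)]⟩,⟨1,[(19,1),(0,1),(1,1),(9,3),(6,0),(0,0),(3,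
  0),(0,1)]⟩⟩,.a ⟨true,0,⟨0,[(1,0)]⟩,⟨0,[(22,0)]⟩⟩ ⟨true,0,⟨0,[]⟩,⟨0,[(45,0)]⟩⟩ ⟨false,1,⟨0,[(41,0),
  (1,0)]⟩,⟨0,[(40,0)]⟩⟩,.e ⟨false,1,⟨1,[(42,0),(0,0)]⟩,⟨1,[(28,0),(0,0)]⟩⟩ ⟨false,1,⟨1,[(8,0),(32,
  0),(1,1)]⟩,⟨1,[(28,0),(0,0),(10,1)]⟩⟩]⟩) (.I [0,0,0,0,0,0,0,-1] (.I [0,0,0,0,0,1,0,0,-1] (.I [0,0,
  0,0,0,1,1] (.C [(0,0),(0,0),(3,0),(2,0),(26,1),(11,0)]) (.C [(0,0),(13,0),(8,0)])) (.C [(0,0),(1,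
  0),(0,0)])) (.C [(0,0),(11,0),(0,0)])))))

theorem ok25 : chk K t25 l23 = true := by decide +kernel

noncomputable def t26 : Tre :=
  (.R ⟨2,true,false,true,[0,1],[1,0,0,0,-1],[1,1,1,1],(⟨0,[]⟩,⟨0,[]⟩),(⟨0,[(21,0)]⟩,⟨0,[(22,0)]⟩),
  ⟨0,[]⟩,.k,.k,.k,(.r 0 ⟨1,[(26,0),(0,0),(10,1)]⟩ ⟨11,[(6,1),(4,4),(1,4),(22,0),(3,3),(0,5)]⟩),.k,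
  .k,⟨false,0,⟨0,[(38,0)]⟩,⟨11,[(6,1),(4,4),(1,4),(22,0),(3,3),(0,5)]⟩⟩,⟨true,0,⟨0,[(0,0)]⟩,⟨0,[(1,
  0),(25,0)]⟩⟩,⟨false,0,⟨0,[]⟩,⟨1,[(19,0),(0,0),(20,0)]⟩⟩,⟨true,0,⟨0,[(4,0),(6,0)]⟩,⟨0,[(1,0),(25,
  0),(10,0)]⟩⟩,⟨true,0,⟨0,[(38,0)]⟩,⟨0,[(39,0)]⟩⟩,⟨false,1,⟨1,[(0,1),(39,0),(0,0)]⟩,⟨0,[(1,0),(25,
  0)]⟩⟩,[]⟩)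

theorem ok26 : chk K t26 l24 = true := by decide +kernel

noncomputable def t27 : Tre :=
  (.Q [0,0,0,0,0,0,0,0,0,1,-1,-1] (.ed true [0,0,1,0,1] (.r 0 ⟨0,[(12,0),(15,0),(9,0)]⟩ ⟨37,[(13,
  17),(0,9),(0,9),(11,19),(9,1),(3,0),(0,32)]⟩)) (.R ⟨0,false,false,true,[1,0,-1],[1,0,-1,0,-1],[1,
  0,0,0,0,0,0,-1],(⟨0,[(30,0)]⟩,⟨0,[(31,0)]⟩),(⟨0,[(0,0)]⟩,⟨0,[(24,0),(6,0)]⟩),⟨0,[(19,0)]⟩,.k,.k,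
  .k,.k,.k,.k,⟨true,0,⟨0,[]⟩,⟨1,[(28,0),(0,0)]⟩⟩,⟨false,1,⟨0,[(10,0)]⟩,⟨0,[(22,0)]⟩⟩,⟨true,0,⟨0,[]⟩,
  ⟨0,[(45,0)]⟩⟩,⟨false,1,⟨0,[(7,0)]⟩,⟨0,[(22,0)]⟩⟩,⟨false,0,⟨0,[]⟩,⟨0,[]⟩⟩,⟨false,0,⟨0,[]⟩,⟨0,[]⟩⟩,
  [.e ⟨false,0,⟨0,[(3,0),(2,0)]⟩,⟨0,[(1,0),(19,0)]⟩⟩ ⟨false,1,⟨0,[(7,0),(6,0)]⟩,⟨0,[(1,0)]⟩⟩,.o
  ⟨false,1,⟨4,[(4,0),(1,3),(8,0),(22,0),(4,1)]⟩,⟨0,[(3,0),(22,0),(2,0)]⟩⟩,.a ⟨true,0,⟨1,[(18,0),(6,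
  0),(2,0)]⟩,⟨0,[(11,0)]⟩⟩ ⟨true,0,⟨1,[(3,0),(2,0),(5,0),(15,0)]⟩,⟨0,[(13,0),(15,0),(9,0)]⟩⟩ ⟨false,
  1,⟨5,[(6,4),(0,0),(3,3),(2,0),(13,0),(9,0),(4,2)]⟩,⟨0,[(1,0)]⟩⟩,.o ⟨false,0,⟨0,[(29,0)]⟩,⟨8,[(3,
  3),(6,3),(17,4),(9,0),(3,2)]⟩⟩]⟩) (.Q [0,0,1,0,0,0,-1,0,-1,2,-1,-1] (.p false [-1,0,1,0,1] [1]
  (⟨0,[(0,0)]⟩,⟨0,[(23,0),(6,0)]⟩) .k 1 (⟨0,[]⟩,⟨0,[]⟩) .k (.r 0 ⟨0,[(13,0),(15,0),(9,0)]⟩ ⟨37,[(14,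
  17),(0,9),(0,9),(11,19),(9,1),(3,0),(0,32)]⟩)) (.Q [0,0,1,0,0,0,1,0,-1,1,1,-1] (.p true [0,0,1]
  [-1,1,0,0,1] (⟨0,[(32,0)]⟩,⟨0,[(31,0)]⟩) .k 2 (⟨0,[(1,0),(19,0)]⟩,⟨0,[(24,0),(11,0)]⟩) (.r 0 ⟨1,
  [(29,0),(0,0),(10,1)]⟩ ⟨11,[(9,1),(4,4),(1,4),(22,0),(3,3),(0,5)]⟩) (.r (-1) ⟨0,[(2,0),(5,0)]⟩ ⟨1,
  [(15,0),(12,0),(0,0)]⟩)) (.I [0,1,2,2] (.K ⟨0,[-1,1,0,0,1],0,0,(⟨0,[(3,0),(19,0)]⟩,⟨0,[(26,0),(11,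
  0)]⟩),(.r 0 ⟨1,[(0,0),(47,0)]⟩ ⟨11,[(11,1),(4,4),(1,4),(22,0),(3,3),(0,5)]⟩),.k,(.r 0 ⟨0,[(0,0)]⟩
  ⟨7,[(11,5),(4,4),(1,4),(22,0),(3,1),(0,3)]⟩),(.r 0 ⟨0,[(19,0),(11,0)]⟩ ⟨13,[(16,9),(3,3),(0,4),
  (19,0),(3,2),(0,8)]⟩),.k,[⟨0,[(1,0)]⟩,⟨0,[(6,0),(25,0)]⟩,⟨0,[(9,0),(6,0)]⟩,⟨1,[(0,0),(4,1),(42,
  2)]⟩]⟩) (.R ⟨0,false,false,false,[1,0,-1],[2,-1,0,0,-1],[1,0,0,0,0,0,0,-1],(⟨0,[(33,0)]⟩,⟨0,[(34,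
  0)]⟩),(⟨0,[(26,0),(11,0)]⟩,⟨0,[(3,0),(19,0)]⟩),⟨0,[(22,0)]⟩,.k,(.r (-1) ⟨37,[(0,3),(15,14),(1,14),
  (22,2),(3,14),(0,16)]⟩ ⟨1,[(31,0),(0,0),(10,1)]⟩),.k,(.r 0 ⟨0,[(19,0),(11,0)]⟩ ⟨13,[(16,9),(3,3),
  (0,4),(19,0),(3,2),(0,8)]⟩),.k,.k,⟨false,0,⟨1,[(1,0),(4,0),(12,1)]⟩,⟨13,[(16,9),(3,3),(0,4),(19,
  0),(3,2),(0,8)]⟩⟩,⟨true,0,⟨0,[(1,0)]⟩,⟨0,[(5,0),(26,0)]⟩⟩,⟨true,0,⟨0,[]⟩,⟨0,[(48,0)]⟩⟩,⟨false,1,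
  ⟨2,[(0,1),(0,2),(2,1),(2,1),(8,0),(15,0),(13,0)]⟩,⟨0,[(6,0),(12,0),(12,0)]⟩⟩,⟨false,0,⟨0,[]⟩,⟨0,
  []⟩⟩,⟨false,0,⟨0,[]⟩,⟨0,[]⟩⟩,[.o ⟨false,1,⟨13,[(0,1),(0,2),(0,2),(10,1),(2,4),(1,4),(5,5),(21,
  5)]⟩,⟨1,[(5,1),(16,1),(0,1),(11,3),(6,0),(0,0),(3,2)]⟩⟩,.o ⟨false,1,⟨13,[(0,5),(0,5),(0,5),(7,1),
  (5,0),(1,0),(22,0),(4,9)]⟩,⟨1,[(5,0),(0,0),(15,1),(0,1),(8,0),(2,3),(7,1),(3,0),(0,1)]⟩⟩,.a ⟨true,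
  0,⟨1,[(2,0),(5,0)]⟩,⟨0,[(14,0)]⟩⟩ ⟨true,0,⟨1,[(6,0),(2,0),(5,0),(15,0)]⟩,⟨0,[(16,0),(15,0),(9,
  0)]⟩⟩ ⟨false,1,⟨37,[(0,13),(0,37),(14,4),(1,4),(22,0),(3,4),(0,30)]⟩,⟨0,[(5,0),(26,0),(10,0)]⟩⟩,
  .o ⟨false,0,⟨0,[(32,0)]⟩,⟨4,[(1,1),(4,1),(24,0),(9,0),(3,2)]⟩⟩]⟩)) (.Q [0,0,0,0,0,1,0,0,0,-2,1,1]
  (.p true [-1,0,1,0,1] [1] (⟨0,[(2,0)]⟩,⟨0,[(25,0),(6,0)]⟩) .k 1 (⟨0,[]⟩,⟨0,[]⟩) .k (.r 0 ⟨0,[(15,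
  0),(15,0),(9,0)]⟩ ⟨37,[(16,17),(0,9),(0,9),(11,19),(9,1),(3,0),(0,32)]⟩)) (.I [0,-1,0,0,0,0,0,-2]
  (.Q [0,0,0,0,0,0,2,0,1,-2,2,1] (.p true [0,0,1] [2,0,-1,0,-1] (⟨0,[(35,0)]⟩,⟨0,[(34,0)]⟩) .k 2
  (⟨0,[(27,0),(6,0)]⟩,⟨0,[(4,0)]⟩) .k (.r (-1) ⟨65,[(5,49),(2,8),(8,6),(3,1),(0,39),(2,40),(4,72),
  (11,7),(5,3)]⟩ ⟨0,[(0,0)]⟩)) (.K ⟨0,[2,0,-1,0,-1],0,0,(⟨0,[(28,0),(6,0)]⟩,⟨0,[(5,0)]⟩),.k,(.x 0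
  ⟨0,[(2,0),(1,0)]⟩ ⟨2,[(0,1),(9,0),(17,2),(6,2),(4,2),(2,0),(3,0)]⟩),(.r (-1) ⟨0,[(21,0),(11,0),
  (14,0)]⟩ ⟨4,[(18,1),(3,2),(11,1),(7,0)]⟩),.k,.k,[⟨0,[(0,0)]⟩,⟨0,[(4,0)]⟩,⟨4,[(0,4),(21,2),(8,1),
  (2,6),(7,0),(2,2)]⟩,⟨4,[(1,0),(2,2),(6,1),(4,1),(2,0),(10,1)]⟩]⟩) (.I [0,0,0,0,0,1,1] (.I [0,0,-1,
  0,0,0,0,0,1] (.C [(0,0),(0,0),(0,0),(1,0),(13,0),(20,1),(11,0)]) (.C [(0,0),(4,0),(12,0),(11,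
  0)])) (.C [(0,0),(16,0),(8,0)]))) (.I [0,1,0,0,0,0,0,2] (.Q [0,0,0,0,0,0,2,0,1,-2,2,1] (.p true
  [0,0,1] [2,0,-1,0,-1] (⟨0,[(36,0)]⟩,⟨0,[(35,0)]⟩) .k 2 (⟨0,[(28,0),(6,0)]⟩,⟨0,[(5,0)]⟩) .k (.r 0
  ⟨0,[(0,0)]⟩ ⟨0,[(17,0),(1,0),(13,0),(14,0)]⟩)) (.K ⟨0,[2,0,-1,0,-1],0,0,(⟨0,[(29,0),(6,0)]⟩,⟨0,
  [(6,0)]⟩),.k,(.x 0 ⟨0,[(3,0),(1,0)]⟩ ⟨19,[(0,2),(8,13),(18,2),(0,19),(6,19),(4,19),(2,7),(3,2),(0,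
  0),(1,1)]⟩),(.r (-1) ⟨0,[(22,0),(11,0),(14,0)]⟩ ⟨6,[(1,1),(21,2),(19,0),(3,3)]⟩),.k,.k,[⟨0,[(0,
  0)]⟩,⟨0,[(5,0)]⟩,⟨0,[(0,0),(0,0),(31,0)]⟩,⟨2,[(5,0),(6,2),(4,1),(10,0),(2,0)]⟩]⟩) (.I [0,0,-1,0,0,
  0,0,0,1] (.I [0,0,0,0,0,1,1] (.C [(0,0),(0,0),(0,0),(2,0),(13,0),(20,1),(11,0)]) (.C [(0,0),(18,
  0),(8,0)])) (.C [(0,0),(4,0),(12,0),(11,0)]))) (.I [0,0,0,0,0,0,2,0,1] (.N [0,0,2,0,1] 0 ⟨0,[(2,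
  0)]⟩ ⟨0,[(1,0)]⟩ (.x 0 ⟨0,[(0,0)]⟩ ⟨0,[(6,0),(17,0),(2,0),(9,0)]⟩)) (.I [0,0,-1,0,0,0,0,0,1] (.I
  [0,0,0,0,0,1,1] (.C [(0,1),(1,0),(3,0),(12,0),(11,0),(8,1),(11,0)]) (.C [(0,0),(18,0),(8,0)]))
  (.C [(0,0),(4,0),(12,0),(11,0)]))))) (.I [0,0,-2,-1] (.I [0,0,1,0,0,1,-1,0,-1] (.Q [0,0,0,0,0,0,2,
  0,1,-2,2,1] (.p true [0,0,1] [2,0,-1,0,-1] (⟨0,[(36,0)]⟩,⟨0,[(35,0)]⟩) .k 2 (⟨0,[(28,0),(6,0)]⟩,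
  ⟨0,[(5,0)]⟩) .k (.i 1 ⟨0,[(5,0),(30,0)]⟩ ⟨0,[(2,0),(22,0)]⟩)) (.K ⟨0,[2,0,-1,0,-1],0,0,(⟨0,[(29,
  0),(6,0)]⟩,⟨0,[(6,0)]⟩),.k,(.x 0 ⟨0,[(1,0)]⟩ ⟨8,[(0,3),(2,8),(24,4),(5,0),(9,1),(3,4)]⟩),(.r (-1)
  ⟨0,[(22,0),(11,0),(14,0)]⟩ ⟨4,[(19,1),(3,2),(11,1),(7,0)]⟩),.k,.k,[⟨0,[(0,0)]⟩,⟨0,[(5,0)]⟩,⟨4,[(0,
  4),(22,2),(8,1),(2,6),(7,0),(2,2)]⟩,⟨2,[(5,0),(6,2),(4,1),(10,0),(2,0)]⟩]⟩) (.I [0,0,0,-1,0,0,0,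
  1] (.Q [0,-2,0,-1,1,0,1,1,-1,1,1,-1] (.p true [0,0,1] [-1,1,0,0,1] (⟨0,[(38,0)]⟩,⟨0,[(37,0)]⟩) .k
  2 (⟨0,[(7,0),(19,0)]⟩,⟨0,[(30,0),(11,0)]⟩) (.r 0 ⟨1,[(35,0),(0,0),(10,1)]⟩ ⟨11,[(15,1),(4,4),(1,
  4),(22,0),(3,3),(0,5)]⟩) (.r (-1) ⟨2,[(0,0),(7,1),(2,0),(16,0),(21,0)]⟩ ⟨1,[(21,0),(12,0),(0,
  0)]⟩)) (.R ⟨0,false,false,true,[0,0,1],[-1,1,0,0,1],[1],(⟨0,[(39,0)]⟩,⟨0,[(38,0)]⟩),(⟨0,[(8,0),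
  (19,0)]⟩,⟨0,[(31,0),(11,0)]⟩),⟨0,[(28,0)]⟩,.k,(.r 0 ⟨1,[(36,0),(0,0),(10,1)]⟩ ⟨41,[(0,19),(10,9),
  (1,9),(2,1),(6,19),(22,5),(3,8),(0,0)]⟩),.k,(.r (-1) ⟨63,[(0,31),(0,29),(7,3),(3,27),(9,1),(2,0),
  (19,6),(3,17)]⟩ ⟨0,[(24,0),(11,0)]⟩),.k,.k,⟨false,1,⟨0,[(16,0),(34,0)]⟩,⟨1,[(36,0),(0,0),(10,1),
  (4,1)]⟩⟩,⟨true,0,⟨0,[(6,0)]⟩,⟨0,[(2,0),(16,2),(7,0),(0,0),(11,1),(11,1)]⟩⟩,⟨true,0,⟨1,[(11,0),(2,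
  0),(5,0),(15,0)]⟩,⟨0,[(1,0),(46,0)]⟩⟩,⟨false,0,⟨0,[(6,0),(17,0),(11,0)]⟩,⟨0,[(0,0)]⟩⟩,⟨false,0,⟨0,
  []⟩,⟨0,[]⟩⟩,⟨false,0,⟨0,[]⟩,⟨0,[]⟩⟩,[.o ⟨false,0,⟨3,[(6,2),(4,0),(15,3),(0,3),(7,1),(3,7),(7,3),
  (3,1),(0,3)]⟩,⟨1,[(0,0),(13,0),(34,0),(1,0)]⟩⟩,.o ⟨false,0,⟨1,[(6,0),(4,0),(15,1),(0,1),(11,3),(6,
  0),(0,0),(3,2)]⟩,⟨1,[(0,0),(22,0),(5,0)]⟩⟩,.a ⟨true,0,⟨0,[(19,0)]⟩,⟨1,[(7,0),(5,0)]⟩⟩ ⟨true,0,⟨0,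
  []⟩,⟨0,[(53,0)]⟩⟩ ⟨false,0,⟨1,[(6,1),(29,0),(0,0),(10,1)]⟩,⟨1,[(0,0),(13,0),(1,0),(19,1),(14,
  0)]⟩⟩,.e ⟨false,1,⟨1,[(50,0),(0,0)]⟩,⟨1,[(36,0),(0,0)]⟩⟩ ⟨false,0,⟨0,[(6,0),(41,0)]⟩,⟨1,[(0,0),
  (13,0),(21,1),(12,0),(1,0)]⟩⟩]⟩) (.R ⟨0,false,false,true,[0,0,1],[-1,1,0,0,1],[1,1],(⟨0,[(39,0)]⟩,
  ⟨0,[(38,0)]⟩),(⟨0,[(8,0),(19,0)]⟩,⟨0,[(31,0),(11,0)]⟩),⟨0,[(28,0)]⟩,.k,(.r 0 ⟨1,[(36,0),(0,0),(10,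
  1)]⟩ ⟨11,[(16,1),(4,4),(1,4),(22,0),(3,3),(0,5)]⟩),.k,(.r (-1) ⟨1,[(1,1),(48,0),(0,0)]⟩ ⟨0,[(24,
  0),(11,0)]⟩),.k,.k,⟨false,1,⟨23,[(16,13),(4,4),(1,4),(22,0),(3,9),(0,11)]⟩,⟨1,[(36,0),(0,0),(10,
  1)]⟩⟩,⟨true,0,⟨0,[(6,0)]⟩,⟨0,[(2,0),(16,2),(7,0),(0,0),(11,1),(11,1)]⟩⟩,⟨false,0,⟨1,[(11,0),(2,0),
  (5,0),(15,0)]⟩,⟨2,[(1,0),(7,1),(2,0),(16,0),(21,0)]⟩⟩,⟨true,(-1),⟨0,[(0,0)]⟩,⟨1,[(7,0),(10,0),(0,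
  0),(1,1),(29,0)]⟩⟩,⟨false,0,⟨0,[]⟩,⟨0,[]⟩⟩,⟨false,0,⟨0,[]⟩,⟨0,[]⟩⟩,[.o ⟨false,0,⟨17,[(0,9),(8,1),
  (1,0),(18,4),(3,7),(1,0),(9,4),(1,7)]⟩,⟨0,[(14,0),(6,0),(29,0)]⟩⟩,.o ⟨false,0,⟨34,[(0,28),(0,4),
  (7,11),(1,16),(0,22),(8,11),(5,8),(0,8),(11,17),(5,2),(5,16)]⟩,⟨3,[(7,0),(7,1),(2,0),(0,0),(1,1),
  (1,1),(27,0)]⟩⟩,.e ⟨false,0,⟨0,[]⟩,⟨1,[(29,0),(0,0),(20,0)]⟩⟩ ⟨false,0,⟨7,[(0,3),(8,3),(2,1),(4,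
  1),(8,0),(19,0),(1,1)]⟩,⟨0,[(14,0),(4,0),(1,0),(29,0)]⟩⟩,.a ⟨true,0,⟨0,[(36,0)]⟩,⟨0,[(33,0)]⟩⟩
  ⟨true,0,⟨4,[(16,0),(28,1),(1,0)]⟩,⟨1,[(36,0),(0,0)]⟩⟩ ⟨false,0,⟨0,[(6,0),(41,0)]⟩,⟨0,[(14,0),(6,
  0),(14,0),(14,0)]⟩⟩]⟩)) (.R ⟨0,false,false,false,[0,0,1],[-1,1,0,0,1],[1],(⟨0,[(38,0)]⟩,⟨0,[(37,
  0)]⟩),(⟨0,[(7,0),(19,0)]⟩,⟨0,[(30,0),(11,0)]⟩),⟨0,[(27,0)]⟩,.k,(.r 0 ⟨1,[(35,0),(0,0),(10,1)]⟩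
  ⟨11,[(15,1),(4,4),(1,4),(22,0),(3,3),(0,5)]⟩),.k,(.r (-1) ⟨13,[(20,9),(3,3),(0,4),(19,0),(3,2),(0,
  8)]⟩ ⟨0,[(23,0),(11,0)]⟩),.k,.k,⟨false,1,⟨23,[(15,13),(4,4),(1,4),(22,0),(3,9),(0,11)]⟩,⟨1,[(35,
  0),(0,0),(10,1)]⟩⟩,⟨true,0,⟨0,[(5,0)]⟩,⟨0,[(1,0),(16,2),(7,0),(0,0),(11,1),(11,1)]⟩⟩,⟨true,0,⟨0,
  [(0,0),(47,0)]⟩,⟨7,[(1,0),(3,0),(14,3),(5,0),(0,0),(5,3),(2,4),(2,1),(6,3)]⟩⟩,⟨false,0,⟨1,[(0,1),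
  (4,1),(29,0),(0,0)]⟩,⟨1,[(6,0),(10,0),(0,0),(1,1),(29,0)]⟩⟩,⟨false,0,⟨0,[]⟩,⟨0,[]⟩⟩,⟨false,0,⟨0,
  []⟩,⟨0,[]⟩⟩,[.o ⟨false,0,⟨1,[(5,0),(4,0),(15,1),(0,1),(11,3),(6,0),(0,0),(3,2)]⟩,⟨3,[(6,0),(7,1),
  (2,0),(0,0),(1,1),(1,1),(27,0)]⟩⟩,.o ⟨false,1,⟨4,[(0,2),(7,2),(20,1),(15,1),(1,1),(2,0)]⟩,⟨0,[(13,
  0),(6,0)]⟩⟩,.e ⟨true,0,⟨0,[]⟩,⟨0,[(52,0)]⟩⟩ ⟨true,0,⟨1,[(5,1),(29,0),(0,0),(10,1)]⟩,⟨0,[(13,0),(4,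
  0),(1,0)]⟩⟩,.a ⟨true,0,⟨0,[(35,0)]⟩,⟨0,[(32,0)]⟩⟩ ⟨false,1,⟨1,[(49,0),(0,0)]⟩,⟨1,[(35,0),(0,0)]⟩⟩
  ⟨true,0,⟨0,[(5,0),(41,0)]⟩,⟨0,[(13,0),(6,0),(14,0)]⟩⟩]⟩))) (.I [1,1,1,1,0,0,0,1] (.I [0,1,1,1,0,0,
  0,1] (.K ⟨0,[2,0,-1,0,-1],0,0,(⟨0,[(30,0),(6,0)]⟩,⟨0,[(7,0)]⟩),.k,(.r (-1) ⟨7,[(10,0),(4,1),(1,0),
  (0,4),(2,1),(0,5),(22,0),(4,4)]⟩ ⟨0,[(0,0)]⟩),(.r (-1) ⟨0,[(23,0),(11,0),(14,0)]⟩ ⟨4,[(20,1),(3,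
  2),(11,1),(7,0)]⟩),.k,.k,[⟨0,[(2,0),(4,0),(10,0),(7,0),(0,0),(11,0),(11,0)]⟩,⟨0,[(6,0)]⟩,⟨1,[(0,
  0),(1,1),(4,1),(12,0),(5,1),(0,1),(8,0),(2,1),(12,2)]⟩,⟨2,[(6,0),(6,2),(4,1),(10,0),(2,0)]⟩]⟩)
  (.Q [0,0,2,0,0,0,1,0,-1,1,1,-1] (.p true [0,0,1] [-1,1,0,0,1] (⟨0,[(38,0)]⟩,⟨0,[(37,0)]⟩) .k 2
  (⟨0,[(7,0),(19,0)]⟩,⟨0,[(30,0),(11,0)]⟩) (.r 0 ⟨1,[(1,0),(21,0),(11,0)]⟩ ⟨11,[(15,1),(4,4),(1,4),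
  (22,0),(3,3),(0,5)]⟩) (.r (-1) ⟨33,[(1,13),(6,5),(8,5),(2,9),(3,3),(0,4),(19,0),(4,25)]⟩ ⟨1,[(21,
  0),(12,0),(0,0)]⟩)) (.Q [0,-2,0,-1,1,0,1,1,-1,1,1,-1] (.p true [0,0,1] [-1,1,0,0,1] (⟨0,[(39,0)]⟩,
  ⟨0,[(38,0)]⟩) .k 2 (⟨0,[(8,0),(19,0)]⟩,⟨0,[(31,0),(11,0)]⟩) (.r 0 ⟨1,[(2,0),(21,0),(11,0)]⟩ ⟨11,
  [(16,1),(4,4),(1,4),(22,0),(3,3),(0,5)]⟩) (.r (-1) ⟨33,[(2,13),(6,5),(8,5),(2,9),(3,3),(0,4),(19,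
  0),(4,25)]⟩ ⟨1,[(22,0),(12,0),(0,0)]⟩)) (.R ⟨0,false,false,true,[0,0,1],[-1,1,0,0,1],[1],(⟨0,[(40,
  0)]⟩,⟨0,[(39,0)]⟩),(⟨0,[(9,0),(19,0)]⟩,⟨0,[(32,0),(11,0)]⟩),⟨0,[(29,0)]⟩,.k,(.r 0 ⟨1,[(3,0),(21,
  0),(11,0)]⟩ ⟨89,[(0,43),(1,1),(9,20),(1,22),(2,1),(6,41),(22,12),(3,19)]⟩),.k,(.r (-1) ⟨12,[(0,7),
  (9,2),(3,4),(9,0),(1,2),(0,0),(19,1),(2,0),(0,0)]⟩ ⟨0,[(25,0),(11,0)]⟩),.k,.k,⟨false,1,⟨0,[(17,0),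
  (34,0)]⟩,⟨1,[(3,0),(21,0),(11,0),(16,1)]⟩⟩,⟨true,0,⟨0,[(7,0)]⟩,⟨0,[(1,0)]⟩⟩,⟨true,0,⟨1,[(2,0),(22,
  0),(11,0)]⟩,⟨9,[(3,4),(18,1),(3,2),(11,1),(7,0)]⟩⟩,⟨false,0,⟨0,[(7,0),(17,0),(11,0)]⟩,⟨0,[(0,
  0)]⟩⟩,⟨false,0,⟨0,[]⟩,⟨0,[]⟩⟩,⟨false,0,⟨0,[]⟩,⟨0,[]⟩⟩,[.o ⟨false,0,⟨1,[(3,0),(0,1),(4,1),(15,0),
  (2,1),(0,1),(8,0),(2,1),(12,1)]⟩,⟨26,[(0,17),(1,3),(12,8),(8,4),(13,3),(8,0),(4,6)]⟩⟩,.o ⟨false,0,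
  ⟨1,[(4,0),(2,0),(1,0),(18,1),(0,1),(11,2),(7,1),(3,1)]⟩,⟨1,[(0,0),(23,0),(5,0)]⟩⟩,.a ⟨true,0,⟨0,
  [(20,0)]⟩,⟨1,[(8,0),(5,0)]⟩⟩ ⟨true,0,⟨0,[]⟩,⟨0,[(54,0)]⟩⟩ ⟨false,0,⟨1,[(3,0),(3,1),(17,0),(11,
  0)]⟩,⟨2,[(0,1),(0,0),(0,0),(20,0),(28,0)]⟩⟩,.e ⟨false,1,⟨1,[(51,0),(0,0)]⟩,⟨1,[(37,0),(0,0)]⟩⟩
  ⟨false,0,⟨0,[(7,0),(41,0)]⟩,⟨41,[(0,20),(0,19),(0,9),(21,10),(5,0),(6,11),(9,1),(4,15)]⟩⟩]⟩) (.R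
  ⟨0,false,false,true,[0,0,1],[-1,1,0,0,1],[0,1,1],(⟨0,[(40,0)]⟩,⟨0,[(39,0)]⟩),(⟨0,[(9,0),(19,0)]⟩,
  ⟨0,[(32,0),(11,0)]⟩),⟨0,[(29,0)]⟩,.k,(.r 0 ⟨1,[(3,0),(21,0),(11,0)]⟩ ⟨11,[(17,1),(4,4),(1,4),(22,
  0),(3,3),(0,5)]⟩),.k,(.r (-1) ⟨13,[(22,9),(3,3),(0,4),(19,0),(3,2),(0,8)]⟩ ⟨0,[(25,0),(11,0)]⟩),
  .k,.k,⟨false,1,⟨11,[(17,1),(4,4),(1,4),(22,0),(3,3),(0,5)]⟩,⟨0,[(49,0)]⟩⟩,⟨true,0,⟨0,[(7,0)]⟩,⟨0,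
  [(1,0)]⟩⟩,⟨false,0,⟨0,[(21,0),(15,0)]⟩,⟨1,[(10,0),(2,0),(12,0),(25,0)]⟩⟩,⟨true,(-1),⟨0,[(0,0)]⟩,
  ⟨11,[(1,3),(6,3),(4,1),(3,1),(1,1),(2,11),(28,2),(0,4)]⟩⟩,⟨false,0,⟨0,[]⟩,⟨0,[]⟩⟩,⟨false,0,⟨0,[]⟩,
  ⟨0,[]⟩⟩,[.o ⟨false,0,⟨10,[(0,5),(2,0),(8,0),(18,3),(3,4),(11,2),(1,3)]⟩,⟨1,[(2,0),(5,0),(7,0),(5,
  0),(29,0)]⟩⟩,.o ⟨false,0,⟨8,[(0,3),(2,3),(0,5),(4,5),(3,0),(14,2),(0,2),(8,1),(8,0),(4,0)]⟩,⟨13,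
  [(1,1),(0,0),(5,2),(7,2),(2,5),(2,6),(1,5),(27,4)]⟩⟩,.e ⟨false,0,⟨1,[(37,0),(0,0)]⟩,⟨1,[(51,0),(0,
  0)]⟩⟩ ⟨false,0,⟨8,[(0,3),(2,3),(10,3),(3,0),(28,0),(1,0),(2,1)]⟩,⟨0,[(1,0),(15,0),(34,0)]⟩⟩,.a
  ⟨true,0,⟨0,[(37,0)]⟩,⟨0,[(34,0)]⟩⟩ ⟨true,0,⟨0,[(54,0)]⟩,⟨0,[]⟩⟩ ⟨false,0,⟨0,[(7,0),(41,0)]⟩,⟨13,
  [(1,9),(0,4),(5,0),(7,0),(2,1),(2,6),(1,1),(27,10)]⟩⟩]⟩)) (.I [0,0,-1,0,0,-1,1,0,1] (.N [0,1,1,0,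
  1] 0 ⟨0,[(3,0)]⟩ ⟨0,[(2,0)]⟩ (.x 0 ⟨0,[(0,0)]⟩ ⟨10,[(3,5),(4,4),(0,10),(14,5),(5,5),(11,10),(4,0),
  (4,2)]⟩)) (.Q [0,0,0,0,0,0,0,0,0,1,-2] (.ed true [0,0,2] (.r (-1) ⟨16,[(3,13),(6,5),(8,5),(2,9),
  (3,3),(0,4),(19,0),(4,8)]⟩ ⟨0,[(2,0),(22,0),(11,0)]⟩)) (.R ⟨0,false,false,true,[1,0,-2],[1,0,-1],
  [1],(⟨0,[(0,0)]⟩,⟨0,[(41,1)]⟩),(⟨0,[(40,0)]⟩,⟨0,[(41,0)]⟩),⟨0,[(29,0),(11,0)]⟩,.k,.k,(.r 0 ⟨1,[(3,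
  1),(20,0),(12,0),(0,0)]⟩ ⟨33,[(4,47),(6,5),(8,5),(2,9),(3,3),(0,4),(19,0),(4,25)]⟩),.k,.k,.k,
  ⟨false,1,⟨1,[(11,0),(2,0),(12,0),(25,0)]⟩,⟨1,[(24,0),(12,0),(0,0)]⟩⟩,⟨true,0,⟨0,[(21,0)]⟩,⟨0,[(39,
  0)]⟩⟩,⟨false,1,⟨1,[(1,0),(0,0),(8,1),(2,1),(8,1),(6,0),(2,0),(8,1),(11,0)]⟩,⟨0,[(3,0),(22,0),(11,
  0)]⟩⟩,⟨true,0,⟨0,[(36,0)]⟩,⟨0,[(22,0)]⟩⟩,⟨false,0,⟨0,[]⟩,⟨0,[]⟩⟩,⟨false,0,⟨0,[]⟩,⟨0,[]⟩⟩,[.o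
  ⟨false,0,⟨0,[(37,0)]⟩,⟨11,[(4,3),(0,3),(4,3),(3,3),(8,7),(5,2),(0,2),(11,1),(5,0),(4,5)]⟩⟩,.o
  ⟨false,0,⟨0,[(22,0)]⟩,⟨19,[(11,1),(19,1),(4,17),(1,1),(9,3),(3,0),(0,8)]⟩⟩,.a ⟨true,0,⟨0,[(28,
  0)]⟩,⟨0,[(21,1)]⟩⟩ ⟨true,0,⟨0,[]⟩,⟨0,[(55,0)]⟩⟩ ⟨false,0,⟨1,[(3,0),(17,1),(4,0),(11,0)]⟩,⟨8,[(8,
  0),(2,3),(2,4),(8,4),(4,5),(10,0),(8,0),(4,1)]⟩⟩,.o ⟨false,0,⟨0,[(1,0),(0,0),(27,0),(2,0),(8,1),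
  (11,1)]⟩,⟨0,[(13,0),(6,0),(17,0)]⟩⟩]⟩) (.I [0,0,0,0,0,1,1] (.C [(0,1),(0,0),(1,0),(6,0),(32,1),
  (11,0)]) (.C [(0,0),(21,0),(8,0)])))))) (.K ⟨0,[2,0,-1,0,-1],0,0,(⟨0,[(29,0),(6,0)]⟩,⟨0,[(6,0)]⟩),
  .k,(.r 0 ⟨0,[(0,0)]⟩ ⟨10,[(5,4),(1,10),(7,0),(11,6),(6,5),(9,1),(1,10)]⟩),(.r (-1) ⟨0,[(22,0),(11,
  0),(14,0)]⟩ ⟨4,[(19,1),(3,2),(11,1),(7,0)]⟩),.k,.k,[⟨0,[(1,0),(4,0),(10,0),(7,0),(0,0),(11,0),(11,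
  0)]⟩,⟨0,[(5,0)]⟩,⟨0,[(1,0),(4,0),(18,0),(0,0),(5,0),(2,0),(2,0),(12,0)]⟩,⟨2,[(5,0),(6,2),(4,1),
  (10,0),(2,0)]⟩]⟩))) (.R ⟨0,false,false,false,[0,0,1],[-1,1,0,0,1],[1],(⟨0,[(35,0)]⟩,⟨0,[(34,0)]⟩),
  (⟨0,[(4,0),(19,0)]⟩,⟨0,[(27,0),(11,0)]⟩),⟨0,[(24,0)]⟩,.k,(.r 0 ⟨2,[(0,1),(40,0),(2,0)]⟩ ⟨11,[(12,
  1),(4,4),(1,4),(22,0),(3,3),(0,5)]⟩),.k,(.r (-1) ⟨13,[(17,9),(3,3),(0,4),(19,0),(3,2),(0,8)]⟩ ⟨0,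
  [(20,0),(11,0)]⟩),.k,.k,⟨false,1,⟨23,[(12,13),(4,4),(1,4),(22,0),(3,9),(0,11)]⟩,⟨2,[(0,1),(40,0),
  (2,0)]⟩⟩,⟨true,0,⟨0,[(2,0)]⟩,⟨0,[(0,0),(9,0),(4,0),(1,0)]⟩⟩,⟨true,0,⟨1,[(7,0),(2,0),(5,0),(15,
  0)]⟩,⟨0,[(0,0),(1,0),(7,0),(6,1),(25,0)]⟩⟩,⟨false,0,⟨0,[(0,0),(1,0),(4,0),(2,0)]⟩,⟨1,[(3,0),(10,
  0),(0,0),(1,1),(29,0)]⟩⟩,⟨false,0,⟨0,[]⟩,⟨0,[]⟩⟩,⟨false,0,⟨0,[]⟩,⟨0,[]⟩⟩,[.o ⟨false,0,⟨1,[(2,0),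
  (4,0),(15,1),(0,1),(11,3),(6,0),(0,0),(3,2)]⟩,⟨3,[(3,0),(7,1),(2,0),(0,0),(1,1),(1,1),(27,0)]⟩⟩,
  .o ⟨false,1,⟨2,[(0,0),(6,0),(1,0),(16,0),(15,0),(1,1),(2,0)]⟩,⟨0,[(10,0),(6,0)]⟩⟩,.e ⟨true,0,⟨0,
  []⟩,⟨0,[(49,0)]⟩⟩ ⟨true,0,⟨2,[(0,1),(1,2),(38,0),(2,0)]⟩,⟨0,[(10,0),(4,0),(1,0)]⟩⟩,.a ⟨true,0,⟨0,
  [(32,0)]⟩,⟨0,[(29,0)]⟩⟩ ⟨false,1,⟨1,[(46,0),(0,0)]⟩,⟨1,[(32,0),(0,0)]⟩⟩ ⟨true,0,⟨0,[(2,0),(41,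
  0)]⟩,⟨0,[(10,0),(6,0),(14,0)]⟩⟩]⟩)))) (.Q [0,0,0,0,0,0,0,0,0,1,-2] (.ed true [0,0,2] (.r (-1) ⟨32,
  [(2,24),(2,20),(8,19),(3,0),(0,19),(2,3),(4,19),(11,3),(5,1)]⟩ ⟨0,[(4,0),(2,0),(5,0),(15,0)]⟩))
  (.Q [0,0,1,0,0,0,-2,0,0,0,-2] (.p false [0,0,1] [0,1,-1] (⟨0,[(33,0)]⟩,⟨0,[(32,0)]⟩) .k 2 (⟨0,
  [(22,0)]⟩,⟨0,[(33,0),(3,0)]⟩) .k (.r (-1) ⟨32,[(3,24),(2,20),(8,19),(3,0),(0,19),(2,3),(4,19),(11,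
  3),(5,1)]⟩ ⟨0,[(5,0),(2,0),(5,0),(15,0)]⟩)) (.R ⟨0,false,false,true,[1,0,-2],[1,0,-1],[0,0,1],(⟨0,
  [(1,0)]⟩,⟨0,[(34,1)]⟩),(⟨0,[(33,0)]⟩,⟨0,[(34,0)]⟩),⟨0,[(22,0),(11,0)]⟩,.k,.k,(.r 0 ⟨0,[(2,0),(6,
  0),(4,0),(3,0)]⟩ ⟨2,[(0,1),(3,2),(2,2),(21,2),(1,0)]⟩),.k,.k,.k,⟨false,1,⟨0,[(4,0),(5,0)]⟩,⟨0,
  [(17,0)]⟩⟩,⟨true,0,⟨0,[(14,0)]⟩,⟨0,[(32,0)]⟩⟩,⟨false,1,⟨2,[(0,1),(3,2),(2,2),(8,2),(14,0)]⟩,⟨1,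
  [(6,2),(2,2),(5,0),(15,0)]⟩⟩,⟨true,0,⟨0,[(29,0)]⟩,⟨0,[(15,0)]⟩⟩,⟨false,0,⟨0,[]⟩,⟨0,[]⟩⟩,⟨false,0,
  ⟨0,[]⟩,⟨0,[]⟩⟩,[.o ⟨false,0,⟨0,[(30,0)]⟩,⟨32,[(0,1),(1,8),(1,11),(2,20),(8,20),(14,6),(9,2),(4,
  5)]⟩⟩,.o ⟨false,0,⟨0,[(15,0)]⟩,⟨19,[(4,1),(19,1),(4,17),(1,1),(9,3),(3,0),(0,8)]⟩⟩,.a ⟨true,0,⟨0,
  [(21,0)]⟩,⟨0,[(14,1)]⟩⟩ ⟨true,0,⟨2,[(0,0),(30,1)]⟩,⟨4,[(11,0),(28,1),(1,0)]⟩⟩ ⟨false,0,⟨0,[(6,0),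
  (2,0),(21,0)]⟩,⟨9,[(0,1),(3,4),(2,4),(8,3),(3,0),(0,4),(19,0),(4,2)]⟩⟩,.o ⟨false,0,⟨0,[(0,0)]⟩,⟨0,
  [(6,0),(6,0),(17,0)]⟩⟩]⟩) (.I [0,0,1,-1,0,0,0,1] (.I [0,0,-2,0,0,0,0,0,1] (.I [0,0,0,0,0,0,-1,-1,
  -1] (.I [0,0,-1,0,0,1,-1] (.C [(0,1),(3,0),(0,1),(20,1),(12,3),(11,2)]) (.C [(0,0),(25,0),(5,
  0)])) (.C [(0,0),(5,0),(5,0)])) (.C [(0,0),(3,0),(23,0),(1,0)])) (.C [(0,0),(16,0),(15,0)]))) (.Q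
  [0,0,0,1,0,0,-2,-2,0,0,-2] (.p false [0,0,1] [0,1,-1] (⟨0,[(33,0)]⟩,⟨0,[(32,0)]⟩) .k 2 (⟨0,[(22,
  0)]⟩,⟨0,[(33,0),(3,0)]⟩) .k (.r (-1) ⟨32,[(3,24),(2,20),(8,19),(3,0),(0,19),(2,3),(4,19),(11,3),
  (5,1)]⟩ ⟨0,[(5,0),(2,0),(5,0),(15,0)]⟩)) (.Q [0,0,1,0,0,0,3,0,0,-1,3] (.p true [0,0,1] [1,1,-2]
  (⟨0,[(34,0)]⟩,⟨0,[(33,0)]⟩) .k 2 (⟨0,[(23,0),(9,0)]⟩,⟨0,[(1,0),(36,0)]⟩) (.r 0 ⟨0,[(0,0),(13,0),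
  (16,0)]⟩ ⟨11,[(4,8),(2,2),(5,1),(2,9),(3,4),(0,4),(2,3),(16,0),(4,0)]⟩) (.x (-1) ⟨18,[(2,8),(4,2),
  (1,5),(4,47),(1,2),(6,4),(5,2),(3,51),(1,4),(5,7),(5,8)]⟩ ⟨1,[(1,2),(19,2)]⟩)) (.Q [0,1,0,-1,0,0,
  2,2,0,-1,2] (.p true [0,0,1] [1,0,-1] (⟨0,[(35,0)]⟩,⟨0,[(34,0)]⟩) .k 2 (⟨0,[(34,0)]⟩,⟨0,[(35,
  0)]⟩) .k (.r (-1) ⟨32,[(5,24),(2,20),(8,19),(3,0),(0,19),(2,3),(4,19),(11,3),(5,1)]⟩ ⟨1,[(0,0),(0,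
  0),(5,0),(2,0),(8,0)]⟩)) (.K ⟨0,[1,1,-2],0,0,(⟨0,[(25,0),(9,0)]⟩,⟨0,[(3,0),(36,0)]⟩),(.r 0 ⟨1,[(1,
  0),(0,1),(27,0),(2,1)]⟩ ⟨1,[(0,1),(22,1),(23,0),(0,0)]⟩),(.r 0 ⟨1,[(1,0),(0,0),(5,0),(2,0),(8,
  0)]⟩ ⟨1,[(0,0),(5,1),(2,0),(13,0),(2,0)]⟩),(.x (-1) ⟨5,[(3,5),(0,0),(4,1),(0,0),(2,3),(9,5),(16,
  11),(2,1),(0,1)]⟩ ⟨0,[(25,1),(7,1)]⟩),(.r 0 ⟨2,[(1,2),(0,3),(17,0),(9,1),(2,1)]⟩ ⟨1,[(0,1),(5,0),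
  (2,0),(12,0),(0,1),(24,0)]⟩),.k,[⟨0,[(1,0)]⟩,⟨0,[(23,0)]⟩,⟨0,[(0,0)]⟩,⟨2,[(2,1),(17,1),(9,0),(2,
  0),(11,2)]⟩]⟩) (.I [0,0,0,0,0,0,-1] (.I [0,0,0,0,0,1,1] (.I [0,0,-2,0,0,0,0,0,1] (.I [0,0,-1,0,0,
  1,-1] (.I [0,0,0,0,0,0,-1,-1,-1] (.I [0,-1,0,0,0,1,-1,-1] (.C [(0,0),(23,0),(6,0),(11,1),(6,0),(4,
  0)]) (.C [(0,0),(5,0),(2,0),(14,0),(6,0)])) (.C [(0,0),(9,0),(5,0)])) (.C [(0,0),(6,0),(21,0),(4,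
  0)])) (.C [(0,0),(6,0),(23,0),(1,0)])) (.C [(0,2),(1,0),(0,0),(16,1),(6,2),(18,0)])) (.C [(0,1),
  (3,0),(26,0),(3,0)]))) (.I [0,0,0,0,0,1,1] (.C [(0,1),(0,0),(1,0),(12,0),(20,1),(11,0)]) (.C [(0,
  0),(15,0),(8,0)]))) (.Q [0,0,1,0,0,0,2,0,0,-1,2] (.p true [0,0,1] [1,0,-1] (⟨0,[(34,0)]⟩,⟨0,[(33,
  0)]⟩) .k 2 (⟨0,[(33,0)]⟩,⟨0,[(34,0)]⟩) .k (.r (-1) ⟨7,[(0,3),(3,5),(2,2),(13,4),(2,2),(4,1),(11,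
  0),(1,0)]⟩ ⟨0,[(6,0),(2,0),(5,0),(15,0)]⟩)) (.R ⟨0,false,false,true,[0,0,1],[1,0,-1],[0,0,1],(⟨0,
  [(35,0)]⟩,⟨0,[(34,0)]⟩),(⟨0,[(34,0)]⟩,⟨0,[(35,0)]⟩),⟨0,[(24,0)]⟩,.k,.k,.k,.k,.k,.k,⟨false,1,⟨20,
  [(1,4),(3,10),(2,4),(13,4),(2,5),(16,0),(4,7)]⟩,⟨0,[(18,0)]⟩⟩,⟨true,0,⟨0,[(22,0)]⟩,⟨0,[(0,0)]⟩⟩,
  ⟨true,0,⟨0,[(16,0),(15,0)]⟩,⟨5,[(1,1),(19,1),(0,0),(0,0),(0,0),(8,1),(2,1),(6,3)]⟩⟩,⟨false,0,⟨0,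
  [(10,0),(5,0),(9,0)]⟩,⟨48,[(0,7),(0,36),(1,12),(1,23),(2,36),(24,4),(8,2),(4,5)]⟩⟩,⟨false,0,⟨0,
  []⟩,⟨0,[]⟩⟩,⟨false,0,⟨0,[]⟩,⟨0,[]⟩⟩,[.o ⟨false,0,⟨0,[(31,0)]⟩,⟨43,[(0,3),(0,15),(1,0),(1,11),(1,
  2),(0,15),(33,6),(4,13)]⟩⟩,.o ⟨false,0,⟨0,[(16,0)]⟩,⟨19,[(5,1),(19,1),(4,17),(1,1),(9,3),(3,0),(0,
  8)]⟩⟩,.a ⟨true,0,⟨0,[(15,0)]⟩,⟨1,[(22,0),(6,0),(2,0)]⟩⟩ ⟨true,0,⟨1,[(32,0),(0,0)]⟩,⟨4,[(12,0),(28,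
  1),(1,0)]⟩⟩ ⟨false,0,⟨0,[(10,0),(2,0)]⟩,⟨57,[(0,19),(0,17),(5,17),(0,17),(21,21),(11,3),(3,0),(0,
  30)]⟩⟩,.e ⟨false,1,⟨1,[(25,0),(0,0),(20,0)]⟩,⟨0,[]⟩⟩ ⟨false,0,⟨0,[(9,0),(0,0)]⟩,⟨6,[(0,1),(0,1),
  (3,1),(2,1),(21,0),(1,4),(9,0),(4,2)]⟩⟩]⟩) (.I [0,0,0,0,0,1,1] (.C [(0,1),(0,0),(1,0),(33,1),(11,
  0)]) (.C [(0,0),(15,0),(8,0)])))))))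

theorem ok27 : chk K t27 l25 = true := by decide +kernel

noncomputable def t28 : Tre :=
  (.Q [0,1,0,0,0,0,2,2,0,-1,2] (.p true [0,0,1] [1,0,-1] (⟨0,[(31,0)]⟩,⟨0,[(30,0)]⟩) .k 2 (⟨0,[(30,
  0)]⟩,⟨0,[(31,0)]⟩) .k (.r (-1) ⟨0,[(4,0),(0,0),(7,0),(12,0),(2,0)]⟩ ⟨0,[(3,0),(2,0),(5,0),(15,
  0)]⟩)) (.R ⟨0,false,false,true,[0,0,1],[1,0,-1],[0,0,1],(⟨0,[(32,0)]⟩,⟨0,[(31,0)]⟩),(⟨0,[(31,0)]⟩,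
  ⟨0,[(32,0)]⟩),⟨0,[(21,0)]⟩,.k,.k,.k,.k,.k,.k,⟨false,1,⟨17,[(0,3),(18,8),(7,9),(11,0),(4,15)]⟩,⟨0,
  [(15,0)]⟩⟩,⟨true,0,⟨0,[(19,0)]⟩,⟨0,[(1,0)]⟩⟩,⟨true,0,⟨0,[(13,0),(15,0)]⟩,⟨2,[(0,0),(17,0),(0,0),
  (20,0)]⟩⟩,⟨false,0,⟨0,[(7,0),(5,0),(9,0)]⟩,⟨0,[(0,0),(43,0)]⟩⟩,⟨false,0,⟨0,[]⟩,⟨0,[]⟩⟩,⟨false,0,
  ⟨0,[]⟩,⟨0,[]⟩⟩,[.o ⟨false,0,⟨0,[(28,0)]⟩,⟨8,[(0,3),(26,0),(11,0),(4,6)]⟩⟩,.o ⟨false,0,⟨0,[(13,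
  0)]⟩,⟨9,[(22,0),(0,0),(3,9),(11,1),(4,4)]⟩⟩,.a ⟨true,0,⟨0,[(12,0)]⟩,⟨1,[(19,0),(6,0),(2,0)]⟩⟩
  ⟨true,0,⟨1,[(29,0),(0,0)]⟩,⟨4,[(9,0),(28,1),(1,0)]⟩⟩ ⟨false,0,⟨0,[(7,0),(2,0)]⟩,⟨3,[(0,1),(0,1),
  (41,0),(0,2)]⟩⟩,.e ⟨false,1,⟨1,[(22,0),(0,0),(20,0)]⟩,⟨0,[]⟩⟩ ⟨false,0,⟨0,[(6,0),(0,0)]⟩,⟨8,[(0,
  3),(26,0),(1,8),(9,0),(4,6)]⟩⟩]⟩) (.Q [0,1,0,0,0,0,1,1,0,-1,1] (.p true [0,0,1] [1] (⟨0,[(32,0)]⟩,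
  ⟨0,[(31,0)]⟩) .k 1 (⟨0,[]⟩,⟨0,[]⟩) .k .k) (.R ⟨0,false,false,false,[0,0,1],[1,0,-1],[1],(⟨0,[(33,
  0)]⟩,⟨0,[(32,0)]⟩),(⟨0,[(32,0)]⟩,⟨0,[(33,0)]⟩),⟨0,[(22,0)]⟩,.k,.k,.k,.k,.k,.k,⟨false,1,⟨13,[(6,1),
  (0,1),(11,1),(0,4),(7,11),(11,0),(3,3),(0,5)]⟩,⟨2,[(1,0),(0,0),(13,0)]⟩⟩,⟨true,0,⟨0,[(20,0)]⟩,⟨0,
  [(2,0)]⟩⟩,⟨true,0,⟨2,[(1,0),(0,0),(13,0)]⟩,⟨1,[(0,0),(19,0),(7,0)]⟩⟩,⟨false,0,⟨0,[(1,0)]⟩,⟨0,[(0,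
  0),(27,0),(16,0)]⟩⟩,⟨false,0,⟨0,[]⟩,⟨0,[]⟩⟩,⟨false,0,⟨0,[]⟩,⟨0,[]⟩⟩,[.o ⟨false,0,⟨0,[(14,0)]⟩,⟨9,
  [(23,0),(0,0),(3,9),(11,1),(4,4)]⟩⟩,.o ⟨false,1,⟨19,[(17,9),(0,9),(4,0),(0,0),(15,1),(4,14)]⟩,⟨0,
  [(0,0)]⟩⟩,.e ⟨true,0,⟨0,[]⟩,⟨0,[(47,0)]⟩⟩ ⟨true,0,⟨3,[(1,0),(15,0),(0,0),(1,1)]⟩,⟨1,[(0,0),(1,0),
  (12,0),(25,0)]⟩⟩,.a ⟨true,0,⟨0,[(30,0)]⟩,⟨0,[(27,0)]⟩⟩ ⟨false,1,⟨1,[(44,0),(0,0)]⟩,⟨1,[(30,0),(0,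
  0)]⟩⟩ ⟨true,0,⟨2,[(1,0),(8,0),(7,0),(1,0),(6,0)]⟩,⟨0,[(0,0),(29,0)]⟩⟩]⟩) (.I [0,0,0,0,0,1,1] (.I
  [0,0,-1,0,0,0,0,0,1] (.I [0,0,0,0,0,0,0,-1,-1] (.I [0,0,-1,0,0,1,-1] (.I [0,-1,-1,0,0,0,0,-2] (.I
  [0,-1,0,0,0,1,-1,-1] (.C [(0,0),(20,0),(6,0),(11,1),(6,0),(4,0)]) (.C [(0,0),(5,0),(20,0)])) (.C
  [(0,0),(4,0),(1,0),(0,0),(0,0),(22,0)])) (.C [(0,0),(24,0),(5,0)])) (.C [(0,0),(5,0),(22,0)]))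
  (.C [(0,0),(5,0),(20,0)])) (.C [(0,0),(2,0),(19,0),(4,0)]))))

theorem ok28 : chk K t28 l26 = true := by decide +kernel

noncomputable def t29 : Tre :=
  (.Q [0,0,0,0,0,1,0,0,0,-1,0,1] (.ed false [0,1,0,0,1] .k) (.Q [0,0,1,0,0,0,1,0,-1,1,1,-1] (.p
  true [0,0,1] [-1,1,0,0,1] (⟨0,[(32,0)]⟩,⟨0,[(31,0)]⟩) .k 2 (⟨0,[(0,0)]⟩,⟨0,[(24,0),(11,0)]⟩) (.r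
  0 ⟨1,[(29,0),(0,0),(10,1)]⟩ ⟨11,[(9,1),(4,4),(1,4),(22,0),(3,3),(0,5)]⟩) (.r (-1) ⟨1,[(5,0),(0,0),
  (7,0),(12,0),(2,0),(13,0)]⟩ ⟨1,[(15,0),(12,0),(0,0)]⟩)) (.Q [0,0,0,-1,0,0,1,1,-1,1,1,-1] (.p true
  [0,0,1] [-1,1,0,0,1] (⟨0,[(33,0)]⟩,⟨0,[(32,0)]⟩) .k 2 (⟨0,[(1,0)]⟩,⟨0,[(25,0),(11,0)]⟩) (.r 0 ⟨1,
  [(30,0),(0,0),(10,1)]⟩ ⟨11,[(10,1),(4,4),(1,4),(22,0),(3,3),(0,5)]⟩) (.r (-1) ⟨1,[(6,0),(0,0),(7,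
  0),(12,0),(2,0),(13,0)]⟩ ⟨1,[(16,0),(12,0),(0,0)]⟩)) (.R ⟨0,false,false,true,[1,0,-1],[2,-1,0,0,
  -1],[1,1,0,0,0,0,0,-1],(⟨0,[(33,0)]⟩,⟨0,[(34,0)]⟩),(⟨0,[(26,0),(11,0)]⟩,⟨0,[(2,0)]⟩),⟨0,[(22,0)]⟩,
  .k,(.r (-1) ⟨11,[(11,1),(4,4),(1,4),(22,0),(3,3),(0,5)]⟩ ⟨1,[(31,0),(0,0),(10,1)]⟩),.k,(.r 0 ⟨0,
  [(19,0),(11,0)]⟩ ⟨13,[(16,9),(3,3),(0,4),(19,0),(3,2),(0,8)]⟩),.k,.k,⟨false,0,⟨1,[(1,0),(4,0),(12,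
  1)]⟩,⟨13,[(16,9),(3,3),(0,4),(19,0),(3,2),(0,8)]⟩⟩,⟨true,0,⟨0,[(1,0)]⟩,⟨0,[(5,0),(26,0)]⟩⟩,⟨false,
  0,⟨0,[]⟩,⟨1,[(24,0),(0,0),(20,0)]⟩⟩,⟨true,0,⟨0,[(0,0)]⟩,⟨0,[(6,0),(12,0),(12,0)]⟩⟩,⟨false,0,⟨0,
  []⟩,⟨0,[]⟩⟩,⟨false,0,⟨0,[]⟩,⟨0,[]⟩⟩,[.o ⟨false,0,⟨1,[(0,0),(8,0),(34,0)]⟩,⟨7,[(6,5),(5,1),(18,0),
  (0,4),(8,1),(1,7),(2,3)]⟩⟩,.o ⟨false,1,⟨1,[(0,0),(17,0),(5,0),(21,0)]⟩,⟨1,[(5,1),(16,1),(0,1),(11,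
  3),(6,0),(0,0),(3,2)]⟩⟩,.a ⟨true,0,⟨3,[(1,0),(19,1),(3,0),(2,0)]⟩,⟨0,[(14,0)]⟩⟩ ⟨false,0,⟨1,[(6,
  0),(2,0),(5,0),(15,0)]⟩,⟨1,[(7,0),(0,0),(7,0),(12,0),(2,0),(13,0)]⟩⟩ ⟨true,0,⟨4,[(1,3),(2,0),(6,
  1),(4,1),(1,0)]⟩,⟨0,[(5,0),(26,0),(10,0)]⟩⟩,.o ⟨false,0,⟨0,[(32,0)]⟩,⟨4,[(1,1),(4,1),(24,0),(9,0),
  (3,2)]⟩⟩]⟩) (.K ⟨0,[-1,1,0,0,1],0,0,(⟨0,[(2,0)]⟩,⟨0,[(26,0),(11,0)]⟩),(.r 0 ⟨1,[(31,0),(0,0),(10,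
  1)]⟩ ⟨11,[(11,1),(4,4),(1,4),(22,0),(3,3),(0,5)]⟩),.k,(.x (-1) ⟨35,[(5,37),(1,1),(3,9),(14,35),
  (11,71),(2,13),(0,7),(2,2),(0,2)]⟩ ⟨0,[(1,0),(0,0),(29,0),(3,0)]⟩),(.r 0 ⟨0,[(19,0),(11,0)]⟩ ⟨13,
  [(16,9),(3,3),(0,4),(19,0),(3,2),(0,8)]⟩),.k,[⟨0,[(1,0)]⟩,⟨0,[(6,0),(25,0)]⟩,⟨0,[(9,0),(6,0)]⟩,⟨0,
  [(0,0),(28,0),(18,0)]⟩]⟩)) (.Q [0,0,0,1,0,0,-1,-1,1,-1,-1,1] (.p false [0,0,1] [-1,1,0,0,1] (⟨0,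
  [(33,0)]⟩,⟨0,[(32,0)]⟩) .k 2 (⟨0,[(1,0)]⟩,⟨0,[(25,0),(11,0)]⟩) (.r 0 ⟨1,[(30,0),(0,0),(10,1)]⟩
  ⟨11,[(10,1),(4,4),(1,4),(22,0),(3,3),(0,5)]⟩) (.r (-1) ⟨3,[(0,0),(5,0),(8,0),(4,0),(7,2),(2,0),
  (13,2)]⟩ ⟨1,[(16,0),(12,0),(0,0)]⟩)) (.Q [0,0,2,0,0,0,1,0,-1,1,1,-1] (.p true [0,0,1] [-1,1,0,0,
  1] (⟨0,[(34,0)]⟩,⟨0,[(33,0)]⟩) .k 2 (⟨0,[(2,0)]⟩,⟨0,[(26,0),(11,0)]⟩) (.r 0 ⟨1,[(31,0),(0,0),(10,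
  1)]⟩ ⟨11,[(11,1),(4,4),(1,4),(22,0),(3,3),(0,5)]⟩) (.r (-1) ⟨3,[(1,0),(5,0),(8,0),(4,0),(7,2),(2,
  0),(13,2)]⟩ ⟨1,[(17,0),(12,0),(0,0)]⟩)) (.R ⟨0,false,false,false,[0,0,1],[-1,1,0,0,1],[1],(⟨0,
  [(35,0)]⟩,⟨0,[(34,0)]⟩),(⟨0,[(3,0)]⟩,⟨0,[(27,0),(11,0)]⟩),⟨0,[(24,0)]⟩,.k,(.r 0 ⟨1,[(32,0),(0,0),
  (10,1)]⟩ ⟨11,[(12,1),(4,4),(1,4),(22,0),(3,3),(0,5)]⟩),.k,(.r (-1) ⟨13,[(17,9),(3,3),(0,4),(19,0),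
  (3,2),(0,8)]⟩ ⟨0,[(20,0),(11,0)]⟩),.k,.k,⟨false,1,⟨23,[(12,13),(4,4),(1,4),(22,0),(3,9),(0,11)]⟩,
  ⟨1,[(32,0),(0,0),(10,1)]⟩⟩,⟨true,0,⟨0,[(2,0)]⟩,⟨0,[(0,0)]⟩⟩,⟨true,0,⟨2,[(1,0),(3,0),(9,1),(3,0)]⟩,
  ⟨6,[(4,0),(12,3),(5,0),(0,0),(5,2),(2,4),(2,1),(6,3)]⟩⟩,⟨false,0,⟨0,[(1,0)]⟩,⟨1,[(0,0),(13,0),(2,
  1),(11,0),(17,0)]⟩⟩,⟨false,0,⟨0,[]⟩,⟨0,[]⟩⟩,⟨false,0,⟨0,[]⟩,⟨0,[]⟩⟩,[.o ⟨false,0,⟨1,[(2,0),(4,0),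
  (15,1),(0,1),(11,3),(6,0),(0,0),(3,2)]⟩,⟨3,[(0,0),(10,1),(2,0),(2,1),(1,1),(9,0),(17,0)]⟩⟩,.o
  ⟨false,1,⟨3,[(1,2),(24,0),(3,2),(11,0),(1,0),(2,1)]⟩,⟨0,[(10,0),(6,0)]⟩⟩,.e ⟨true,0,⟨0,[]⟩,⟨0,
  [(49,0)]⟩⟩ ⟨true,0,⟨1,[(1,0),(0,0),(27,0),(2,0),(10,0)]⟩,⟨0,[(0,0),(11,0)]⟩⟩,.a ⟨true,0,⟨0,[(32,
  0)]⟩,⟨0,[(29,0)]⟩⟩ ⟨false,1,⟨1,[(46,0),(0,0)]⟩,⟨1,[(32,0),(0,0)]⟩⟩ ⟨true,0,⟨0,[(2,0),(41,0)]⟩,⟨3,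
  [(0,2),(4,0),(6,0),(4,1),(1,0)]⟩⟩]⟩) (.I [0,-1,0,-1,0,0,0,-1] (.I [0,-1,1,0,0,0,0,-2] (.Q [0,0,0,
  0,0,-1,0,0,0,0,2] (.ed false [1,-1,2] .k) (.Q [0,0,0,0,0,0,0,0,0,1,-2] (.ed true [0,0,2] (.r (-1)
  ⟨1,[(5,0),(5,0),(8,0),(4,0),(7,2),(2,0),(13,0)]⟩ ⟨2,[(1,1),(19,1)]⟩)) (.S ⟨1,0,[0,0,0,-1,0,0,0,2],
  [0,0,2],[0,0,1],(⟨0,[(1,0),(39,0)]⟩,⟨0,[(0,0)]⟩),⟨0,[(1,0)]⟩,.k,(.r (-1) ⟨5,[(8,1),(12,3),(3,1),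
  (0,2),(7,5),(11,0),(4,3)]⟩ ⟨0,[(2,0),(45,0)]⟩),⟨false,0,⟨0,[(2,0)]⟩,⟨2,[(6,1),(1,0),(3,1),(8,1),
  (4,0),(7,3),(16,0)]⟩⟩,⟨true,0,⟨0,[(49,0)]⟩,⟨0,[(48,0)]⟩⟩,⟨true,0,⟨0,[(2,0),(45,0)]⟩,⟨0,[(8,0),(12,
  1),(5,0),(0,0),(11,1),(6,0),(4,0)]⟩⟩,⟨false,1,⟨1,[(29,0),(0,0),(20,0)]⟩,⟨0,[]⟩⟩,[.o ⟨false,1,⟨9,
  [(21,9),(7,0),(0,0),(3,9),(11,1),(4,4)]⟩,⟨0,[(5,0),(8,0)]⟩⟩,.o ⟨false,1,⟨0,[(6,0),(5,0),(8,1),(14,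
  0)]⟩,⟨1,[(5,0),(8,0),(9,0),(10,0)]⟩⟩,.a ⟨true,0,⟨0,[(19,1)]⟩,⟨0,[(26,0)]⟩⟩ ⟨true,0,⟨1,[(36,0),(0,
  0)]⟩,⟨4,[(16,0),(28,1),(1,0)]⟩⟩ ⟨false,1,⟨1,[(6,0),(5,0),(8,2),(4,0),(7,0),(2,0),(13,0)]⟩,⟨0,[(2,
  0),(44,0)]⟩⟩,.e ⟨false,1,⟨1,[(29,0),(0,0),(20,0)]⟩,⟨0,[]⟩⟩ ⟨false,1,⟨2,[(6,1),(1,0),(3,1),(8,4),
  (4,0),(7,0),(16,0)]⟩,⟨0,[(2,0),(45,0)]⟩⟩]⟩) (.I [0,0,0,0,0,0,0,-1,-1] (.I [0,0,0,0,0,1,1] (.C [(0,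
  1),(1,0),(7,0),(31,1),(11,0)]) (.C [(0,0),(20,0),(8,0)])) (.C [(0,0),(7,0),(1,0),(33,0)]))) (.I
  [0,0,0,0,0,0,0,-1,-1] (.I [0,0,0,1,0,0,0,-1,1] (.I [0,0,-2,0,0,0,0,0,1] (.I [0,0,-1,0,0,1,-1] (.C
  [(0,1),(3,0),(17,1),(20,2),(11,1)]) (.C [(0,0),(10,0),(10,0),(7,0)])) (.C [(0,0),(5,0),(14,0),(11,
  0)])) (.C [(0,0),(5,0),(13,0),(11,0)])) (.C [(0,0),(6,0),(1,0),(33,0)]))) (.Q [0,0,0,0,0,0,0,0,0,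
  1,-2] (.ed true [0,0,2] (.r (-1) ⟨6,[(0,3),(14,1),(11,1),(4,5),(2,3),(13,4)]⟩ ⟨0,[(1,0),(15,0),(4,
  0)]⟩)) (.R ⟨0,false,false,true,[0,0,1],[0,0,2],[1,1],(⟨0,[(38,0)]⟩,⟨0,[(37,0)]⟩),(⟨0,[(38,1)]⟩,⟨0,
  [(0,0)]⟩),⟨0,[(27,0)]⟩,.k,.k,.k,.k,.k,.k,⟨false,0,⟨2,[(2,0),(1,0),(5,1),(2,2),(4,1),(2,0)]⟩,⟨6,
  [(1,3),(14,1),(11,1),(4,5),(2,3),(13,4)]⟩⟩,⟨true,0,⟨0,[(18,0)]⟩,⟨0,[(36,0)]⟩⟩,⟨false,0,⟨1,[(2,0),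
  (15,0),(4,0)]⟩,⟨6,[(1,1),(14,0),(11,0),(4,2),(2,1),(13,5)]⟩⟩,⟨true,0,⟨0,[(33,0)]⟩,⟨0,[(19,0)]⟩⟩,
  ⟨false,0,⟨0,[]⟩,⟨0,[]⟩⟩,⟨false,0,⟨0,[]⟩,⟨0,[]⟩⟩,[.e ⟨false,0,⟨4,[(15,0),(28,1),(1,0)]⟩,⟨1,[(28,0),
  (0,0),(20,0)]⟩⟩ ⟨false,0,⟨0,[(1,0),(16,0)]⟩,⟨36,[(2,16),(18,9),(0,14),(0,31),(11,9),(9,2),(4,
  30)]⟩⟩,.o ⟨false,1,⟨6,[(1,3),(8,1),(0,1),(8,1),(12,3),(1,5),(9,0),(4,2)]⟩,⟨0,[(19,1)]⟩⟩,.a ⟨true,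
  0,⟨0,[(18,0)]⟩,⟨1,[(25,0),(6,0),(2,0)]⟩⟩ ⟨false,0,⟨0,[]⟩,⟨1,[(28,0),(0,0),(20,0)]⟩⟩ ⟨true,0,⟨0,
  [(1,0),(33,0)]⟩,⟨0,[(2,0),(20,0)]⟩⟩,.e ⟨true,0,⟨4,[(15,0),(28,1),(1,0)]⟩,⟨1,[(35,0),(0,0)]⟩⟩
  ⟨true,0,⟨0,[(1,0),(16,0)]⟩,⟨1,[(2,1),(20,1),(11,0),(0,0)]⟩⟩]⟩) (.I [0,0,0,0,0,1,1] (.C [(0,1),(0,
  0),(6,0),(31,1),(11,0)]) (.C [(0,0),(18,0),(8,0)])))) (.Q [0,0,0,0,0,0,0,0,0,1,-2] (.ed true [0,0,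
  2] (.r (-1) ⟨6,[(0,3),(17,3),(4,4),(7,5),(11,0),(4,4)]⟩ ⟨2,[(2,1),(3,1),(9,3),(3,1)]⟩)) (.R ⟨0,
  false,false,true,[1,0,-2],[1,0,-1],[1],(⟨0,[(0,0)]⟩,⟨0,[(37,1)]⟩),(⟨0,[(36,0)]⟩,⟨0,[(37,0)]⟩),⟨0,
  [(25,0),(11,0)]⟩,.k,.k,(.r 0 ⟨0,[(7,0),(1,0),(11,0)]⟩ ⟨0,[(1,0),(30,0),(2,0),(13,0)]⟩),.k,.k,.k,
  ⟨false,1,⟨1,[(1,0),(21,0),(25,1)]⟩,⟨1,[(20,0),(12,0),(0,0)]⟩⟩,⟨true,0,⟨0,[(17,0)]⟩,⟨0,[(35,0)]⟩⟩,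
  ⟨false,1,⟨2,[(1,2),(4,0),(12,2),(5,0),(0,0),(8,0),(2,1),(10,2)]⟩,⟨2,[(3,1),(3,1),(9,3),(3,1)]⟩⟩,
  ⟨true,0,⟨0,[(32,0)]⟩,⟨0,[(18,0)]⟩⟩,⟨false,0,⟨0,[]⟩,⟨0,[]⟩⟩,⟨false,0,⟨0,[]⟩,⟨0,[]⟩⟩,[.o ⟨false,0,
  ⟨0,[(33,0)]⟩,⟨46,[(1,15),(7,14),(0,14),(8,30),(5,11),(0,11),(7,0),(3,23),(5,3),(4,23),(0,13)]⟩⟩,
  .o ⟨false,0,⟨0,[(18,0)]⟩,⟨9,[(27,0),(0,0),(3,9),(11,1),(4,4)]⟩⟩,.a ⟨true,0,⟨0,[(24,0)]⟩,⟨0,[(17,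
  1)]⟩⟩ ⟨true,0,⟨0,[]⟩,⟨0,[(51,0)]⟩⟩ ⟨false,0,⟨2,[(3,0),(3,0),(9,4),(3,0)]⟩,⟨7,[(1,3),(4,1),(12,3),
  (4,2),(10,1),(8,0),(4,5)]⟩⟩,.o ⟨false,0,⟨0,[(6,0),(18,0),(0,0),(11,1),(11,1)]⟩,⟨0,[(9,0),(6,0),
  (17,0)]⟩⟩]⟩) (.I [0,0,0,0,0,1,1] (.C [(0,1),(0,0),(5,0),(31,1),(11,0)]) (.C [(0,0),(17,0),(8,
  0)]))))) (.Q [0,0,2,0,0,0,1,0,-1,1,1,-1] (.p true [0,0,1] [-1,1,0,0,1] (⟨0,[(34,0)]⟩,⟨0,[(33,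
  0)]⟩) .k 2 (⟨0,[(2,0)]⟩,⟨0,[(26,0),(11,0)]⟩) (.r 0 ⟨1,[(31,0),(0,0),(10,1)]⟩ ⟨11,[(11,1),(4,4),(1,
  4),(22,0),(3,3),(0,5)]⟩) (.r (-1) ⟨3,[(1,0),(5,0),(8,0),(4,0),(7,2),(2,0),(13,2)]⟩ ⟨1,[(17,0),(12,
  0),(0,0)]⟩)) (.R ⟨0,false,false,false,[0,0,1],[-1,1,0,0,1],[1,1],(⟨0,[(35,0)]⟩,⟨0,[(34,0)]⟩),(⟨0,
  [(3,0)]⟩,⟨0,[(27,0),(11,0)]⟩),⟨0,[(24,0)]⟩,.k,(.r 0 ⟨1,[(32,0),(0,0),(10,1)]⟩ ⟨11,[(12,1),(4,4),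
  (1,4),(22,0),(3,3),(0,5)]⟩),.k,(.r (-1) ⟨13,[(17,9),(3,3),(0,4),(19,0),(3,2),(0,8)]⟩ ⟨0,[(20,0),
  (11,0)]⟩),.k,.k,⟨false,0,⟨0,[(12,0)]⟩,⟨9,[(0,4),(12,4),(11,2),(0,2),(15,0),(1,9),(2,4)]⟩⟩,⟨true,0,
  ⟨0,[(2,0)]⟩,⟨0,[(0,0)]⟩⟩,⟨false,0,⟨1,[(7,0),(2,0),(5,0),(15,0)]⟩,⟨3,[(2,0),(5,0),(8,0),(4,0),(7,
  2),(2,0),(13,2)]⟩⟩,⟨true,0,⟨0,[(2,0),(17,0),(11,0)]⟩,⟨0,[(1,0)]⟩⟩,⟨false,0,⟨0,[]⟩,⟨0,[]⟩⟩,⟨false,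
  0,⟨0,[]⟩,⟨0,[]⟩⟩,[.o ⟨false,0,⟨1,[(2,0),(4,0),(15,1),(0,1),(11,3),(6,0),(0,0),(3,2)]⟩,⟨1,[(1,0),
  (17,0),(5,0),(21,0)]⟩⟩,.o ⟨false,1,⟨7,[(2,4),(4,0),(5,1),(18,5),(9,1),(1,7),(2,3)]⟩,⟨1,[(1,0),(8,
  0),(34,0)]⟩⟩,.a ⟨true,0,⟨0,[(15,0)]⟩,⟨4,[(0,0),(21,1),(3,0),(2,1)]⟩⟩ ⟨false,0,⟨0,[]⟩,⟨1,[(25,0),
  (0,0),(20,0)]⟩⟩ ⟨true,0,⟨1,[(2,1),(29,0),(0,0),(10,1)]⟩,⟨0,[(0,0),(11,0)]⟩⟩,.e ⟨true,0,⟨4,[(12,0),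
  (28,1),(1,0)]⟩,⟨1,[(32,0),(0,0)]⟩⟩ ⟨true,0,⟨0,[(2,0),(41,0)]⟩,⟨3,[(0,2),(4,0),(6,0),(4,1),(1,
  0)]⟩⟩]⟩) (.I [1,-1,1,0,1,0,0,2] (.Q [0,0,0,0,0,0,0,0,0,1,-2] (.ed true [0,0,2] (.r (-1) ⟨12,[(0,
  11),(21,1),(19,3),(1,1),(2,0)]⟩ ⟨0,[(8,0),(2,0),(5,0),(15,0)]⟩)) (.R ⟨0,false,false,true,[1,0,-2],
  [1,0,-1],[1,0,1],(⟨0,[(0,0)]⟩,⟨0,[(37,1)]⟩),(⟨0,[(36,0)]⟩,⟨0,[(37,0)]⟩),⟨0,[(25,0),(11,0)]⟩,.k,.k,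
  (.r 0 ⟨0,[(7,0),(1,0),(11,0)]⟩ ⟨0,[(1,0),(44,0)]⟩),.k,.k,.k,⟨false,1,⟨3,[(1,1),(46,0),(0,0)]⟩,⟨0,
  [(2,2),(0,0),(2,1),(0,1),(9,5),(27,0),(4,7)]⟩⟩,⟨true,0,⟨0,[(17,0)]⟩,⟨0,[(35,0)]⟩⟩,⟨false,1,⟨0,[(1,
  0)]⟩,⟨1,[(9,2),(2,2),(5,0),(15,0)]⟩⟩,⟨true,0,⟨0,[(32,0)]⟩,⟨0,[(18,0)]⟩⟩,⟨false,0,⟨0,[]⟩,⟨0,[]⟩⟩,
  ⟨false,0,⟨0,[]⟩,⟨0,[]⟩⟩,[.o ⟨false,0,⟨0,[(33,0)]⟩,⟨0,[(1,0),(5,0),(1,0)]⟩⟩,.o ⟨false,0,⟨0,[(18,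
  0)]⟩,⟨25,[(1,7),(7,5),(6,5),(15,9),(1,9),(9,3),(3,2),(0,0)]⟩⟩,.a ⟨true,0,⟨0,[(24,0)]⟩,⟨0,[(17,
  1)]⟩⟩ ⟨true,0,⟨1,[(34,0),(0,0)]⟩,⟨4,[(14,0),(28,1),(1,0)]⟩⟩ ⟨false,0,⟨0,[(9,0),(2,0),(21,0)]⟩,⟨19,
  [(1,9),(4,7),(17,1),(19,1),(3,0),(0,4)]⟩⟩,.o ⟨false,0,⟨0,[(6,0),(18,0),(0,0),(11,1),(11,1)]⟩,⟨0,
  [(9,0),(6,0),(17,0)]⟩⟩]⟩) (.I [0,0,0,0,0,0,0,-1,-1] (.I [0,0,0,0,0,1,1] (.C [(0,1),(1,0),(5,0),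
  (31,1),(11,0)]) (.C [(0,0),(18,0),(8,0)])) (.C [(0,0),(5,0),(1,0),(33,0)]))) (.Q [0,0,0,0,0,0,0,0,
  0,1,-2] (.ed true [0,0,2] (.r (-1) ⟨1,[(3,0),(5,0),(8,0),(4,0),(7,2),(2,0),(13,0)]⟩ ⟨58,[(0,37),
  (18,1),(0,19),(0,19),(11,39),(9,3),(4,29)]⟩)) (.R ⟨0,false,false,true,[1,0,-2],[1,0,-1],[1,1,0,0,
  0,0,0,-2],(⟨0,[(0,0)]⟩,⟨0,[(37,1)]⟩),(⟨0,[(36,0)]⟩,⟨0,[(37,0)]⟩),⟨0,[(25,0),(11,0)]⟩,.k,.k,(.x 0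
  ⟨1,[(24,1),(0,1),(8,0),(0,0),(1,1)]⟩ ⟨93,[(0,93),(0,7),(1,15),(5,58),(0,15),(5,26),(0,112),(23,
  93),(2,28),(4,0),(1,9)]⟩),.k,.k,.k,⟨false,0,⟨3,[(1,1),(46,0),(0,0)]⟩,⟨15,[(15,5),(8,4),(2,5),(4,
  15),(11,0),(4,7)]⟩⟩,⟨true,0,⟨0,[(17,0)]⟩,⟨0,[(35,0)]⟩⟩,⟨false,0,⟨0,[]⟩,⟨1,[(27,0),(0,0),(20,0)]⟩⟩,
  ⟨true,0,⟨0,[(32,0)]⟩,⟨0,[(18,0)]⟩⟩,⟨false,0,⟨0,[]⟩,⟨0,[]⟩⟩,⟨false,0,⟨0,[]⟩,⟨0,[]⟩⟩,[.o ⟨false,0,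
  ⟨0,[(33,0)]⟩,⟨0,[(4,0),(5,0),(8,0),(14,0)]⟩⟩,.o ⟨false,0,⟨0,[(18,0)]⟩,⟨9,[(27,0),(0,0),(3,9),(11,
  1),(4,4)]⟩⟩,.a ⟨true,0,⟨0,[(24,0)]⟩,⟨0,[(17,1)]⟩⟩ ⟨true,(-1),⟨1,[(1,1),(32,0),(0,0)]⟩,⟨1,[(4,0),
  (5,0),(8,0),(4,0),(7,2),(2,0),(13,0)]⟩⟩ ⟨false,0,⟨3,[(1,1),(32,3),(13,0),(0,0)]⟩,⟨1,[(4,0),(5,0),
  (8,0),(4,0),(7,0),(2,0),(13,0)]⟩⟩,.o ⟨false,0,⟨0,[(6,0),(18,0),(0,0),(11,1),(11,1)]⟩,⟨0,[(9,0),(6,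
  0),(17,0)]⟩⟩]⟩) (.I [0,0,0,0,0,1,1] (.C [(0,1),(0,0),(5,0),(31,1),(11,0)]) (.C [(0,0),(17,0),(8,
  0)]))))))) (.Q [0,3,0,-1,-2,0,0,0,2,0,0,2] (.p true [1,0,-1,0,1] [1,0,-1,0,-1] (⟨0,[(25,0),(5,
  0)]⟩,⟨0,[(0,0),(19,0)]⟩) .k 2 (⟨0,[(0,0),(20,0)]⟩,⟨0,[(25,0),(6,0)]⟩) .k (.r 0 ⟨0,[(46,1)]⟩ ⟨0,
  [(44,0)]⟩)) (.I [0,0,2,1,0,0,0,-1] (.R ⟨1,true,false,true,[1,0,0,0,-1],[1,-1,0,0,1],[0,2,0,-1],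
  (⟨0,[(26,0)]⟩,⟨0,[(27,0)]⟩),(⟨0,[(27,0),(10,0)]⟩,⟨0,[(2,0),(19,0),(0,0)]⟩),⟨0,[(2,0)]⟩,.k,(.r 0
  ⟨48,[(1,2),(2,5),(6,9),(4,14),(1,14),(1,5),(19,16),(0,2)]⟩ ⟨1,[(0,0),(6,0),(4,0),(16,0),(16,0)]⟩),
  (.r (-1) ⟨11,[(11,1),(4,4),(1,4),(22,0),(3,3),(0,5)]⟩ ⟨2,[(0,0),(28,0),(2,0),(10,1)]⟩),(.x (-1)
  ⟨0,[(4,0),(2,0),(12,0),(6,1),(7,0),(11,0)]⟩ ⟨3,[(6,5),(5,1),(9,1),(0,1),(2,7),(4,2),(0,6)]⟩),.k,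
  .k,⟨true,0,⟨1,[(31,0),(0,0)]⟩,⟨0,[]⟩⟩,⟨false,0,⟨0,[(25,1)]⟩,⟨5,[(4,5),(2,4),(8,0),(3,3),(3,0),(4,
  0),(2,1)]⟩⟩,⟨false,(-1),⟨3,[(1,1),(1,0),(0,3),(11,3),(5,0),(0,0),(8,1),(2,1),(6,1),(4,0)]⟩,⟨0,
  [(43,0),(2,1)]⟩⟩,⟨true,(-2),⟨0,[(1,0)]⟩,⟨0,[(7,0),(2,0)]⟩⟩,⟨true,(-1),⟨13,[(1,6),(1,1),(0,13),(11,
  0),(5,1),(0,1),(5,12),(2,9),(2,3),(6,7)]⟩,⟨0,[(46,0)]⟩⟩,⟨false,(-1),⟨1,[(1,0),(23,1),(17,0)]⟩,⟨1,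
  [(3,0),(0,1),(2,1),(8,1),(5,0),(0,0),(11,1),(10,1),(0,0)]⟩⟩,[]⟩) (.R ⟨1,true,false,false,[1,0,0,0,
  -1],[1,-1,0,0,1],[1,1,-1,-1],(⟨0,[(26,0)]⟩,⟨0,[(27,0)]⟩),(⟨0,[(27,0),(10,0)]⟩,⟨0,[(2,0),(19,0),(0,
  0)]⟩),⟨0,[(2,0)]⟩,.k,(.r 0 ⟨48,[(1,2),(2,5),(6,9),(4,14),(1,14),(1,5),(19,16),(0,2)]⟩ ⟨1,[(31,0),
  (0,0),(10,1),(2,1)]⟩),(.r (-1) ⟨11,[(11,1),(4,4),(1,4),(22,0),(3,3),(0,5)]⟩ ⟨1,[(31,0),(0,0),(10,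
  1)]⟩),(.r (-2) ⟨3,[(12,1),(11,1),(6,2),(0,0),(10,3),(2,5)]⟩ ⟨5,[(0,3),(0,2),(2,5),(24,1),(2,1),
  (10,0)]⟩),.k,.k,⟨true,0,⟨0,[]⟩,⟨1,[(31,0),(0,0)]⟩⟩,⟨false,0,⟨0,[(25,1)]⟩,⟨5,[(4,5),(2,4),(8,0),(3,
  3),(3,0),(4,0),(2,1)]⟩⟩,⟨true,(-1),⟨5,[(0,3),(0,2),(2,5),(24,1),(2,1),(10,0)]⟩,⟨1,[(31,0),(0,0),
  (10,1),(2,1)]⟩⟩,⟨false,(-1),⟨0,[(1,0),(44,0)]⟩,⟨0,[(7,0),(2,0)]⟩⟩,⟨false,0,⟨4,[(11,0),(28,1),(1,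
  0)]⟩,⟨1,[(31,0),(0,0),(13,1)]⟩⟩,⟨true,(-1),⟨1,[(1,0),(23,1),(17,0)]⟩,⟨2,[(0,0),(3,2),(2,2),(8,1),
  (15,1)]⟩⟩,[]⟩)) (.Q [0,1,0,-1,-1,0,0,0,2,0,0,2] (.p true [1,0,-1,0,1] [1,0,-1,0,-1] (⟨0,[(26,0),
  (5,0)]⟩,⟨0,[(1,0),(19,0)]⟩) .k 2 (⟨0,[(1,0),(20,0)]⟩,⟨0,[(26,0),(6,0)]⟩) .k (.r 0 ⟨0,[(47,1)]⟩ ⟨0,
  [(45,0)]⟩)) (.I [1,2,-1,-1,-1] (.R ⟨1,true,false,false,[1,0,0,0,-1],[1,-1,0,0,1],[1,1,-1,-1],(⟨0,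
  [(27,0)]⟩,⟨0,[(28,0)]⟩),(⟨0,[(28,0),(10,0)]⟩,⟨0,[(3,0),(19,0),(0,0)]⟩),⟨0,[(3,0)]⟩,.k,(.r 0 ⟨15,
  [(0,1),(11,3),(4,4),(1,4),(21,5),(0,0)]⟩ ⟨1,[(32,0),(0,0),(10,1),(2,1)]⟩),(.r (-1) ⟨11,[(12,1),(4,
  4),(1,4),(22,0),(3,3),(0,5)]⟩ ⟨1,[(32,0),(0,0),(10,1)]⟩),(.x (-1) ⟨17,[(0,21),(1,16),(2,1),(22,
  35),(1,1),(2,1),(2,2),(2,14),(2,2),(1,4),(3,1)]⟩ ⟨3,[(7,5),(5,1),(9,1),(0,1),(2,7),(4,2),(0,6)]⟩),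
  .k,.k,⟨true,0,⟨0,[]⟩,⟨1,[(32,0),(0,0)]⟩⟩,⟨false,0,⟨0,[(26,1)]⟩,⟨3,[(0,3),(1,2),(22,1),(18,0)]⟩⟩,
  ⟨true,(-1),⟨0,[(0,0)]⟩,⟨1,[(32,0),(0,0),(10,1),(2,1)]⟩⟩,⟨false,(-1),⟨0,[(1,0)]⟩,⟨3,[(2,2),(22,1),
  (18,0)]⟩⟩,⟨false,0,⟨4,[(12,0),(28,1),(1,0)]⟩,⟨1,[(32,0),(0,0),(13,1)]⟩⟩,⟨true,(-1),⟨0,[(1,0),(42,
  0)]⟩,⟨3,[(0,1),(1,2),(2,1),(11,0),(12,0),(2,1)]⟩⟩,[]⟩) (.I [0,2,0,-1,-1] (.R ⟨1,true,false,false,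
  [1,0,0,0,-1],[1,-1,0,0,1],[1,-1],(⟨0,[(28,0)]⟩,⟨0,[(29,0)]⟩),(⟨0,[(29,0),(10,0)]⟩,⟨0,[(4,0),(19,
  0),(0,0)]⟩),⟨0,[(4,0)]⟩,.k,(.r 0 ⟨51,[(0,5),(12,15),(4,14),(1,14),(21,19),(0,2)]⟩ ⟨0,[(1,0),(48,
  0)]⟩),(.r (-1) ⟨11,[(13,1),(4,4),(1,4),(22,0),(3,3),(0,5)]⟩ ⟨1,[(33,0),(0,0),(10,1)]⟩),(.r (-1)
  ⟨0,[(1,0)]⟩ ⟨12,[(0,1),(12,0),(4,4),(1,4),(21,10),(0,0)]⟩),.k,.k,⟨true,1,⟨0,[(1,0)]⟩,⟨0,[(0,0)]⟩⟩,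
  ⟨false,0,⟨0,[(27,1)]⟩,⟨6,[(0,5),(2,4),(2,0),(8,2),(6,0),(21,1)]⟩⟩,⟨true,0,⟨0,[]⟩,⟨0,[(50,0)]⟩⟩,
  ⟨false,(-1),⟨0,[(2,0)]⟩,⟨3,[(3,2),(22,1),(18,0)]⟩⟩,⟨false,1,⟨2,[(1,1),(43,0),(1,0)]⟩,⟨0,[(46,
  0)]⟩⟩,⟨true,(-1),⟨0,[(2,0),(42,0)]⟩,⟨0,[(0,0),(2,0)]⟩⟩,[]⟩) (.Q [0,-1,0,0,1,0,1,1,-1,-1,1,-1] (.p
  false [1,0,-1,0,1] [] (⟨0,[(29,0),(5,0)]⟩,⟨0,[(4,0),(19,0)]⟩) .k 0 (⟨0,[]⟩,⟨0,[]⟩) .k (.r 0 ⟨1,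
  [(19,0),(12,0),(0,0)]⟩ ⟨13,[(1,7),(16,3),(3,3),(0,4),(7,5),(11,0),(4,3)]⟩)) (.R ⟨2,true,false,
  true,[0,1],[1,0,-1,0,1],[1,2,0,0,0,0,0,-1],(⟨0,[]⟩,⟨0,[]⟩),(⟨0,[(30,0),(5,0)]⟩,⟨0,[(5,0),(19,
  0)]⟩),⟨0,[]⟩,.k,.k,.k,(.r (-1) ⟨0,[(1,0),(30,0),(2,0)]⟩ ⟨0,[(20,0),(26,0)]⟩),.k,.k,⟨true,0,⟨0,[]⟩,
  ⟨1,[(34,0),(0,0)]⟩⟩,⟨false,0,⟨3,[(2,1),(0,1),(17,0),(2,0),(6,1),(0,0),(13,0)]⟩,⟨15,[(0,4),(6,7),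
  (1,5),(6,8),(0,1),(14,2),(10,0),(0,0)]⟩⟩,⟨true,(-1),⟨6,[(3,6),(2,2),(0,13),(11,4),(5,2),(0,2),(5,
  1),(2,0),(2,5),(6,4)]⟩,⟨0,[(1,0),(30,0),(2,0)]⟩⟩,⟨false,(-1),⟨0,[(3,0),(8,0)]⟩,⟨14,[(0,4),(0,7),
  (0,1),(1,4),(27,9),(11,1),(3,0)]⟩⟩,⟨false,0,⟨0,[(20,0)]⟩,⟨0,[(1,0),(17,0),(15,0)]⟩⟩,⟨true,(-1),⟨0,
  [(3,0),(8,0),(33,0)]⟩,⟨0,[(0,0)]⟩⟩,[]⟩) (.I [0,0,0,0,0,1,1] (.I [0,0,0,0,0,0,0,-1,-1] (.I [0,0,-2,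
  0,0,0,0,-1] (.I [0,0,-1,0,0,-1,0,0,1] (.I [0,0,-1,0,0,1,-1] (.I [0,0,0,-1,0,1,1,1] (.C [(0,1),(0,
  0),(4,0),(0,0),(5,0),(17,0),(12,3),(6,0),(4,1)]) (.C [(0,0),(24,0),(6,0)])) (.C [(0,0),(10,0),(10,
  0),(7,0)])) (.C [(0,0),(8,0),(2,0)])) (.C [(0,0),(8,0),(0,0),(0,0),(8,1)])) (.C [(0,0),(8,0),(22,
  0)])) (.C [(0,0),(17,0),(8,0)]))))) (.Q [0,-1,0,-2,0,0,0,0,-1,1,0,-1] (.p false [0,0,0,0,1] [1]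
  (⟨0,[(27,0)]⟩,⟨0,[(26,0)]⟩) .k 1 (⟨0,[]⟩,⟨0,[]⟩) .k .k) (.Q [0,-1,0,0,1,0,2,2,0,-1,2] (.p true [0,
  0,1] [1,0,-1] (⟨0,[(35,0)]⟩,⟨0,[(34,0)]⟩) .k 2 (⟨0,[(34,0)]⟩,⟨0,[(35,0)]⟩) .k (.r (-1) ⟨1,[(2,0),
  (6,1),(7,0),(12,2),(2,1)]⟩ ⟨0,[(7,0),(2,0),(5,0),(15,0)]⟩)) (.Q [0,0,0,0,0,0,0,0,0,1,-2] (.ed
  true [0,0,2] (.r (-1) ⟨48,[(0,32),(13,11),(8,42),(2,11),(4,31),(11,1),(6,0)]⟩ ⟨0,[(8,0),(2,0),(5,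
  0),(15,0)]⟩)) (.R ⟨0,false,false,true,[1,0,-2],[1,0,-1],[1],(⟨0,[(0,0)]⟩,⟨0,[(37,1)]⟩),(⟨0,[(36,
  0)]⟩,⟨0,[(37,0)]⟩),⟨0,[(25,0),(11,0)]⟩,.k,.k,(.r 0 ⟨0,[(7,0),(1,0),(11,0)]⟩ ⟨1,[(1,1),(22,1),(9,
  0),(0,0),(10,1)]⟩),.k,.k,.k,⟨false,1,⟨3,[(1,1),(4,1),(41,0),(0,0)]⟩,⟨1,[(20,0),(12,0),(0,0)]⟩⟩,
  ⟨true,0,⟨0,[(17,0)]⟩,⟨0,[(35,0)]⟩⟩,⟨false,1,⟨0,[(1,0),(22,0)]⟩,⟨0,[(9,0),(2,0),(5,0),(15,0)]⟩⟩,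
  ⟨true,0,⟨0,[(32,0)]⟩,⟨0,[(18,0)]⟩⟩,⟨false,0,⟨0,[]⟩,⟨0,[]⟩⟩,⟨false,0,⟨0,[]⟩,⟨0,[]⟩⟩,[.o ⟨false,0,
  ⟨0,[(33,0)]⟩,⟨19,[(1,9),(25,0),(0,0),(15,1),(4,4)]⟩⟩,.o ⟨false,0,⟨0,[(18,0)]⟩,⟨30,[(1,10),(25,11),
  (0,11),(3,8),(11,3),(6,1)]⟩⟩,.a ⟨true,0,⟨0,[(24,0)]⟩,⟨0,[(17,1)]⟩⟩ ⟨true,0,⟨0,[]⟩,⟨0,[(51,0)]⟩⟩
  ⟨false,0,⟨0,[(9,0),(2,0),(21,0)]⟩,⟨31,[(1,15),(13,1),(8,30),(2,1),(16,2),(4,7)]⟩⟩,.o ⟨false,0,⟨0,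
  [(6,0),(18,0),(0,0),(11,1),(11,1)]⟩,⟨0,[(9,0),(6,0),(17,0)]⟩⟩]⟩) (.I [0,0,0,0,0,0,0,-1,-1] (.I [0,
  0,0,0,0,1,1] (.C [(0,1),(1,0),(5,0),(31,1),(11,0)]) (.C [(0,0),(18,0),(8,0)])) (.C [(0,0),(7,0),
  (22,0)]))) (.I [0,-1,1,0,0,0,0,-2] (.Q [0,0,0,0,0,-1,0,0,0,0,2] (.ed false [1,-1,2] .k) (.Q [0,0,
  0,0,0,0,0,0,0,1,-2] (.ed true [0,0,2] (.r (-1) ⟨1,[(5,0),(6,1),(7,0),(12,2),(2,1)]⟩ ⟨2,[(1,1),(19,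
  1)]⟩)) (.S ⟨1,1,[],[1,1,-2],[1,1],(⟨0,[(28,0),(9,0)]⟩,⟨0,[(1,0)]⟩),⟨0,[(0,0)]⟩,(.r 0 ⟨0,[(2,0),
  (45,0)]⟩ ⟨13,[(6,0),(6,1),(7,8),(3,5),(0,9),(7,12),(11,1),(4,7)]⟩),.k,⟨true,0,⟨0,[(8,0),(12,1),(5,
  0),(0,0),(11,1),(6,0),(4,0)]⟩,⟨0,[(2,0),(45,0)]⟩⟩,⟨false,1,⟨1,[(6,0),(4,1),(9,2),(12,0),(2,1)]⟩,
  ⟨0,[(3,0),(44,0),(2,0)]⟩⟩,⟨false,1,⟨1,[(6,0),(1,0),(1,0),(2,0),(7,0),(12,2),(2,0)]⟩,⟨0,[(2,0)]⟩⟩,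
  ⟨true,1,⟨1,[(6,0),(4,1),(9,0),(12,2),(2,1)]⟩,⟨0,[(3,0)]⟩⟩,[.fo,.o ⟨false,1,⟨9,[(29,0),(0,0),(15,
  1),(4,4)]⟩,⟨0,[(53,0)]⟩⟩,.e ⟨false,0,⟨0,[]⟩,⟨1,[(29,0),(0,0),(20,0)]⟩⟩ ⟨false,1,⟨121,[(4,7),(1,
  15),(4,39),(24,203),(9,17),(3,20),(0,32)]⟩,⟨0,[(8,0)]⟩⟩,.a ⟨true,0,⟨0,[(26,0)]⟩,⟨0,[(19,1)]⟩⟩
  ⟨true,0,⟨4,[(16,0),(28,1),(1,0)]⟩,⟨1,[(36,0),(0,0)]⟩⟩ ⟨false,1,⟨62,[(4,8),(1,17),(4,46),(6,1),(17,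
  78),(9,4),(3,14)]⟩,⟨0,[(26,0)]⟩⟩]⟩) (.I [0,0,0,0,0,1,1] (.C [(0,1),(0,0),(7,0),(31,1),(11,0)])
  (.C [(0,0),(19,0),(8,0)]))) (.I [0,0,-1,0,0,1,-1] (.C [(0,1),(0,0),(17,1),(20,2),(11,1)]) (.C [(0,
  0),(7,0),(10,0),(7,0)]))) (.I [0,0,0,0,0,1,1] (.C [(0,0),(0,0),(0,0),(15,0),(7,0),(12,1),(10,0),
  (0,0)]) (.C [(0,0),(17,0),(8,0)])))) (.Q [0,-1,-1,0,1,0,1,2,0,0,1] (.p true [0,0,1] [] (⟨0,[(35,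
  0)]⟩,⟨0,[(34,0)]⟩) .k 0 (⟨0,[]⟩,⟨0,[]⟩) .k .k) (.Q [0,0,0,0,0,0,0,0,0,1,-2] (.ed true [0,0,2] (.r
  (-1) ⟨48,[(0,32),(13,11),(8,9),(2,11),(4,31),(2,32),(8,1),(6,0)]⟩ ⟨0,[(8,0),(2,0),(5,0),(15,
  0)]⟩)) (.R ⟨0,false,false,true,[1,0,-2],[1,0,-1],[1],(⟨0,[(0,0)]⟩,⟨0,[(37,1)]⟩),(⟨0,[(36,0)]⟩,⟨0,
  [(37,0)]⟩),⟨0,[(25,0),(11,0)]⟩,.k,.k,(.r 0 ⟨0,[(7,0),(1,0),(11,0)]⟩ ⟨1,[(1,1),(32,0),(0,2),(10,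
  1)]⟩),.k,.k,.k,⟨false,1,⟨19,[(1,9),(4,3),(17,0),(19,0),(3,2),(0,4)]⟩,⟨1,[(20,0),(12,0),(0,0)]⟩⟩,
  ⟨true,0,⟨0,[(17,0)]⟩,⟨0,[(35,0)]⟩⟩,⟨false,1,⟨0,[(1,0),(33,0)]⟩,⟨0,[(9,0),(2,0),(5,0),(15,0)]⟩⟩,
  ⟨true,0,⟨0,[(32,0)]⟩,⟨0,[(18,0)]⟩⟩,⟨false,0,⟨0,[]⟩,⟨0,[]⟩⟩,⟨false,0,⟨0,[]⟩,⟨0,[]⟩⟩,[.o ⟨false,0,
  ⟨0,[(33,0)]⟩,⟨10,[(1,1),(0,1),(1,2),(4,3),(9,6),(14,1),(0,3),(8,0),(4,0)]⟩⟩,.o ⟨false,0,⟨0,[(18,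
  0)]⟩,⟨29,[(1,10),(25,6),(0,6),(3,7),(1,10),(9,5),(6,2)]⟩⟩,.a ⟨true,0,⟨0,[(24,0)]⟩,⟨0,[(17,1)]⟩⟩
  ⟨true,0,⟨0,[]⟩,⟨0,[(51,0)]⟩⟩ ⟨false,0,⟨0,[(9,0),(2,0),(21,0)]⟩,⟨31,[(1,15),(13,1),(8,14),(2,1),(7,
  15),(8,2),(4,7)]⟩⟩,.o ⟨false,0,⟨0,[(6,0),(18,0),(0,0),(11,1),(11,1)]⟩,⟨0,[(9,0),(6,0),(17,
  0)]⟩⟩]⟩) (.I [0,0,0,0,0,0,0,-1,-1] (.I [0,0,0,0,0,1,1] (.C [(0,1),(1,0),(5,0),(31,1),(11,0)]) (.C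
  [(0,0),(18,0),(8,0)])) (.C [(0,0),(7,0),(22,0)]))) (.Q [0,0,0,0,0,0,0,0,0,1,-2] (.ed true [0,0,2]
  (.r (-1) ⟨8,[(1,3),(1,1),(14,9),(4,8),(7,7),(11,0),(4,2)]⟩ ⟨2,[(0,1),(15,1),(2,1),(28,1)]⟩)) (.R
  ⟨0,false,false,true,[1,0,-2],[1,0,-1],[0,1,0,-1,0,0,0,-2],(⟨0,[(0,0)]⟩,⟨0,[(37,1)]⟩),(⟨0,[(36,
  0)]⟩,⟨0,[(37,0)]⟩),⟨0,[(25,0),(11,0)]⟩,.k,.k,(.r 0 ⟨0,[(7,0),(1,0),(11,0)]⟩ ⟨1,[(2,1),(1,0),(14,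
  2),(4,1),(7,0),(1,0),(0,0)]⟩),.k,.k,.k,⟨false,0,⟨3,[(7,1),(1,1),(4,0),(6,1),(25,0)]⟩,⟨81,[(2,35),
  (1,9),(19,40),(2,15),(4,81),(11,0),(4,43)]⟩⟩,⟨true,0,⟨0,[(17,0)]⟩,⟨0,[(35,0)]⟩⟩,⟨false,0,⟨0,[(47,
  0)]⟩,⟨0,[(46,0),(2,0)]⟩⟩,⟨true,0,⟨0,[(32,0)]⟩,⟨0,[(18,0)]⟩⟩,⟨false,0,⟨0,[]⟩,⟨0,[]⟩⟩,⟨false,0,⟨0,
  []⟩,⟨0,[]⟩⟩,[.o ⟨false,0,⟨0,[(33,0)]⟩,⟨10,[(2,3),(1,2),(4,1),(9,10),(15,1),(8,0),(4,2)]⟩⟩,.o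
  ⟨false,0,⟨0,[(18,0)]⟩,⟨9,[(27,0),(0,0),(3,9),(11,1),(4,4)]⟩⟩,.a ⟨true,0,⟨0,[(24,0)]⟩,⟨0,[(17,
  1)]⟩⟩ ⟨true,(-1),⟨0,[(1,0),(12,0),(19,0)]⟩,⟨1,[(2,1),(1,0),(14,2),(4,1),(7,0)]⟩⟩ ⟨false,0,⟨2,[(1,
  0),(15,3),(2,0),(28,0)]⟩,⟨12,[(2,3),(1,4),(6,1),(3,3),(3,12),(4,8),(10,1),(8,0),(4,0)]⟩⟩,.o
  ⟨false,0,⟨0,[(6,0),(18,0),(0,0),(11,1),(11,1)]⟩,⟨0,[(9,0),(6,0),(17,0)]⟩⟩]⟩) (.I [0,0,0,0,0,1,1]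
  (.C [(0,1),(0,0),(5,0),(31,1),(11,0)]) (.C [(0,0),(17,0),(8,0)]))))))))

theorem ok29 : chk K t29 r26 = true := by decide +kernel


end Helper25.S1T.Ymp_1aP2
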