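import Pool.Agent.Helper25.KG.S1b
import Pool.Agent.Helper11.CT.Cut

set_option autoImplicit false
set_option linter.all false

namespace Helper25.S1T.Ymp_1aP3

open Helper25.KG Helper25.KW Helper55.KE Helper11.CT

noncomputable def K : Cls :=
  cE 1 [0,1] (kfY 1 [0,0,0,0,0,0,1,0,0,0,1])

noncomputable def base : List Con :=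
  [(false,[0,0,0,0,0,0,-2,0,0,1,-2]),
  (false,[0,0,0,0,0,1,0,0,0,-1,1]),
  (false,[0,0,0,0,0,1,0,0,0,0,-1]),
  (false,[0,0,0,0,1,0,0,0,-1,0,0,-1]),
  (false,[0,0,0,0,0,0,0,0,1,0,0,1]),
  (false,[0,0,0,0,0,0,0,0,0,1,0,-1]),
  (false,[0,0,0,0,0,0,0,0,0,0,0,1]),
  (false,[0,0,-1,0,0,0,-1,0,0,1,-1]),
  (false,[0,1,0,0,0,0,1,1,0,0,1]),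
  (false,[0,1,0,0,0,0,-1,-1,0,0,-1]),
  (false,[0,0,1,0,0,0,1,0,0,0,1]),
  (false,[0,0,1,0,0,0,-1,0,0,0,-1]),
  (false,[0,0,0,0,0,0,0,0,0,1,-1]),
  (false,[0,0,0,0,0,0,0,0,0,0,1]),
  (true,[-2,0,0,0,0,1]),
  (false,[0,0,0,0,1,0,0,0,0,-2]),
  (false,[0,0,0,0,0,-1,0,0,0,1]),
  (true,[0,0,0,0,0,1]),
  (true,[0,2,-1]),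
  (false,[1,0,0,0,0,3,0,0,0,-1]),
  (false,[3,0,0,0,-1,0,0,0,0,2]),
  (false,[-1,0,0,0,1,0,0,0,0,-2]),
  (true,[0,1,-1,1]),
  (true,[0,1,0,1]),
  (true,[0,0,0,-1]),
  (true,[0,0,-2,0,1]),
  (true,[0,-2,0,0,1]),
  (true,[-1,0,1]),
  (true,[-1,1])]

noncomputable def l0 : List Con := (true, [1,1,2,1,-1]) :: base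

noncomputable def r0 : List Con := (true, [0,-1,-2,-1,1]) :: base

noncomputable def l1 : List Con := (true, [0,1,-1,-2,-1]) :: r0

noncomputable def r1 : List Con := (true, [1,-1,1,2,1]) :: r0

noncomputable def l2 : List Con := (false, [0,0,3,0,-1,0,0,0,0,1]) :: r1

noncomputable def r2 : List Con := (false, [0,0,-3,0,1,0,0,0,0,-1]) :: r1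

noncomputable def l3 : List Con := (false, [0,0,0,0,0,0,1,0,0,0,1]) :: r2

noncomputable def r3 : List Con := (false, [0,0,0,0,0,0,-1,0,0,0,-1]) :: r2

noncomputable def l4 : List Con := (false, [0,-1,0,-1,0,0,0,-1,0,1]) :: l3

noncomputable def r4 : List Con := (false, [0,1,0,1,0,0,0,1,0,-1]) :: l3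

noncomputable def l5 : List Con := (true, [1,0,-1,0,0,0,0,-1]) :: l4

noncomputable def r5 : List Con := (true, [0,0,1,0,0,0,0,1]) :: l4

noncomputable def l6 : List Con := (true, [1,0,1,1,0,0,0,1]) :: r5

noncomputable def r6 : List Con := (true, [0,0,-1,-1,0,0,0,-1]) :: r5

noncomputable def l7 : List Con := (true, [0,0,1,1,0,0,0,1]) :: l6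

noncomputable def r7 : List Con := (true, [1,0,-1,-1,0,0,0,-1]) :: l6

noncomputable def l8 : List Con := (false, [0,0,0,1,1,0,-1,-1,0,-1,-1]) :: l7

noncomputable def r8 : List Con := (false, [0,0,0,-1,-1,0,1,1,0,1,1]) :: l7

noncomputable def l9 : List Con := (true, [1,0,1,1,0,0,0,-1]) :: l8

noncomputable def r9 : List Con := (true, [0,0,-1,-1,0,0,0,1]) :: l8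

noncomputable def t0 : Tre :=
  (.R ⟨0,false,false,true,[1,-1],[0,1],[],(⟨0,[(17,0)]⟩,⟨0,[(18,0)]⟩),(⟨0,[(18,0)]⟩,⟨0,[(17,0)]⟩),
  ⟨0,[(2,0),(0,0)]⟩,.k,.k,(.r (-1) ⟨0,[(25,1),(0,0)]⟩ ⟨0,[(0,0),(23,0),(2,0)]⟩),(.r (-1) ⟨0,[(25,1),
  (0,0)]⟩ ⟨0,[(0,0),(23,0),(2,0)]⟩),.k,.k,⟨true,1,⟨1,[(25,1),(0,0),(0,0)]⟩,⟨0,[(0,0)]⟩⟩,⟨false,2,⟨1,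
  [(22,0),(3,2)]⟩,⟨1,[(0,1),(20,0),(3,1),(1,0)]⟩⟩,⟨true,0,⟨1,[(0,0),(23,0),(2,0)]⟩,⟨0,[(23,0),(1,
  1)]⟩⟩,⟨false,1,⟨1,[(0,0),(21,0),(0,1),(0,0),(2,1)]⟩,⟨1,[(21,0),(3,3),(1,0)]⟩⟩,⟨false,0,⟨0,[]⟩,⟨0,
  []⟩⟩,⟨false,0,⟨0,[]⟩,⟨0,[]⟩⟩,[.e ⟨false,1,⟨1,[(4,0),(0,0),(20,0)]⟩,⟨0,[]⟩⟩ ⟨false,1,⟨1,[(22,0),(0,
  1),(2,0)]⟩,⟨1,[(11,0),(0,0),(8,0),(3,1),(1,0)]⟩⟩,.o ⟨false,1,⟨1,[(22,0),(1,1),(2,0)]⟩,⟨0,[(25,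
  0)]⟩⟩,.o ⟨false,0,⟨1,[(11,0),(0,0)]⟩,⟨1,[(22,0),(3,0)]⟩⟩,.a ⟨true,(-1),⟨1,[(0,1),(20,0),(3,1),(1,
  0)]⟩,⟨0,[(26,0)]⟩⟩ ⟨false,1,⟨1,[(26,0),(0,0)]⟩,⟨1,[(11,0),(0,0)]⟩⟩ ⟨true,1,⟨1,[(22,0),(0,1),(2,
  0)]⟩,⟨1,[(0,1),(20,0),(3,3),(1,0)]⟩⟩]⟩)

theorem ok0 : chk K t0 l0 = true := by decide +kernel

noncomputable def t1 : Tre :=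
  (.R ⟨2,true,false,true,[0,1],[1,-1],[0,1,0,-1],(⟨0,[]⟩,⟨0,[]⟩),(⟨0,[(18,0)]⟩,⟨0,[(19,0)]⟩),⟨0,[]⟩,
  .k,.k,.k,(.r (-1) ⟨0,[(12,0),(0,0),(11,1),(2,0)]⟩ ⟨2,[(0,1),(0,1)]⟩),.k,.k,⟨true,0,⟨1,[(12,0),(0,
  0)]⟩,⟨0,[]⟩⟩,⟨false,0,⟨5,[(2,2),(2,0),(0,0),(5,5),(3,0),(1,0),(3,0)]⟩,⟨5,[(0,1),(0,1),(21,2),(0,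
  5),(3,2)]⟩⟩,⟨true,(-1),⟨0,[(0,0)]⟩,⟨1,[(12,0),(0,0),(11,3),(2,1)]⟩⟩,⟨false,(-1),⟨1,[(0,1),(11,0),
  (0,0),(8,0),(5,0)]⟩,⟨1,[(23,0),(1,3),(2,2)]⟩⟩,⟨false,0,⟨2,[(0,0),(0,0)]⟩,⟨1,[(12,0),(0,0),(11,1),
  (2,1)]⟩⟩,⟨true,(-1),⟨3,[(0,1),(11,0),(0,0),(8,1),(7,1)]⟩,⟨1,[(23,0),(1,1),(2,0)]⟩⟩,[]⟩)

theorem ok1 : chk K t1 l1 = true := by decide +kernel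

noncomputable def t2 : Tre :=
  (.Q [0,0,2,-1,-1,0,0,0,0,1] (.pp false [-1,1]) (.Q [0,0,-2,0,1,0,0,0,0,-1] (.pp true [-1,1]) (.I
  [1,0,-1,-1] (.Q [0,0,0,2,1,0,0,0,0,-1] (.pp true [-1,1]) (.I [0,0,-2,-2] (.R ⟨0,false,false,true,
  [1,-1],[0,1],[0,0,1],(⟨0,[(24,0)]⟩,⟨0,[(25,0)]⟩),(⟨0,[(25,0)]⟩,⟨0,[(24,0)]⟩),⟨0,[(9,0),(0,0)]⟩,.k,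
  .k,(.r 0 ⟨0,[(0,0)]⟩ ⟨3,[(5,1),(0,3),(4,0),(0,0),(13,1),(2,0)]⟩),(.r 0 ⟨0,[(0,0)]⟩ ⟨3,[(5,1),(0,
  3),(4,0),(0,0),(13,1),(2,0)]⟩),.k,.k,⟨false,1,⟨7,[(4,1),(2,5),(3,1),(0,1),(16,0),(4,0)]⟩,⟨0,[(31,
  0)]⟩⟩,⟨true,1,⟨0,[(3,0)]⟩,⟨0,[(5,0)]⟩⟩,⟨true,0,⟨13,[(1,4),(3,8),(0,1),(19,0),(2,1)]⟩,⟨2,[(0,1),
  (25,0),(3,0)]⟩⟩,⟨false,1,⟨0,[(1,0)]⟩,⟨0,[(4,0),(2,0)]⟩⟩,⟨false,0,⟨0,[]⟩,⟨0,[]⟩⟩,⟨false,0,⟨0,[]⟩,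
  ⟨0,[]⟩⟩,[.a ⟨true,0,⟨0,[(31,0)]⟩,⟨3,[(4,1),(2,1),(20,0),(5,0)]⟩⟩ ⟨true,0,⟨5,[(5,1),(5,0),(0,0),
  (16,0)]⟩,⟨0,[]⟩⟩ ⟨false,1,⟨2,[(1,0),(1,1),(22,0),(3,0)]⟩,⟨2,[(4,2),(1,0),(0,1)]⟩⟩,.o ⟨false,1,⟨11,
  [(1,1),(4,3),(19,1),(2,4),(3,0)]⟩,⟨0,[(32,0)]⟩⟩,.o ⟨false,0,⟨5,[(5,1),(5,0),(0,0),(16,0)]⟩,⟨1,
  [(29,0),(3,0)]⟩⟩,.o ⟨false,0,⟨2,[(5,1),(5,0),(0,0),(16,0)]⟩,⟨0,[(3,0)]⟩⟩]⟩) (.N [0,1] 0 ⟨1,[(0,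
  0)]⟩ ⟨0,[(2,0)]⟩ .k)) (.R ⟨0,false,false,true,[1,-1],[0,1],[1],(⟨0,[(23,0)]⟩,⟨0,[(24,0)]⟩),(⟨0,
  [(24,0)]⟩,⟨0,[(23,0)]⟩),⟨0,[(8,0),(0,0)]⟩,.k,.k,(.r 0 ⟨0,[(0,0),(1,0)]⟩ ⟨3,[(4,1),(0,3),(4,0),(0,
  0),(13,1),(2,0)]⟩),(.r 0 ⟨0,[(0,0),(1,0)]⟩ ⟨3,[(4,1),(0,3),(4,0),(0,0),(13,1),(2,0)]⟩),.k,.k,
  ⟨false,1,⟨0,[(6,0)]⟩,⟨10,[(4,3),(0,1),(19,2),(2,1),(1,6)]⟩⟩,⟨true,1,⟨0,[(2,0)]⟩,⟨0,[(4,0)]⟩⟩,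
  ⟨false,1,⟨11,[(4,1),(0,5),(4,3),(0,3),(16,0),(4,2)]⟩,⟨1,[(0,0),(1,0)]⟩⟩,⟨true,1,⟨3,[(5,1),(19,0),
  (2,1),(0,0),(0,2)]⟩,⟨0,[(0,0)]⟩⟩,⟨false,0,⟨0,[]⟩,⟨0,[]⟩⟩,⟨false,0,⟨0,[]⟩,⟨0,[]⟩⟩,[.a ⟨true,0,⟨0,
  [(30,0)]⟩,⟨3,[(3,1),(2,1),(20,0),(5,0)]⟩⟩ ⟨true,0,⟨0,[]⟩,⟨5,[(4,1),(5,0),(0,0),(16,0)]⟩⟩ ⟨false,1,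
  ⟨10,[(2,6),(2,1),(19,2),(2,1),(0,6)]⟩,⟨2,[(3,2),(1,0),(0,1)]⟩⟩,.o ⟨false,1,⟨10,[(2,0),(2,4),(19,
  1),(2,4),(0,0)]⟩,⟨0,[(31,0)]⟩⟩,.o ⟨false,0,⟨5,[(4,1),(5,0),(0,0),(16,0)]⟩,⟨1,[(28,0),(3,0)]⟩⟩,.o
  ⟨false,0,⟨2,[(4,1),(5,0),(0,0),(16,0)]⟩,⟨0,[(2,0)]⟩⟩]⟩)) (.R ⟨0,false,false,true,[1,-1],[0,1],[1],
  (⟨0,[(22,0)]⟩,⟨0,[(23,0)]⟩),(⟨0,[(23,0)]⟩,⟨0,[(22,0)]⟩),⟨0,[(7,0),(0,0)]⟩,.k,.k,(.r (-1) ⟨4,[(5,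
  3),(3,0),(0,0),(13,1),(5,5)]⟩ ⟨0,[(0,1)]⟩),(.r (-1) ⟨4,[(5,3),(3,0),(0,0),(13,1),(5,5)]⟩ ⟨0,[(0,
  1)]⟩),.k,.k,⟨false,1,⟨0,[(5,0)]⟩,⟨10,[(3,3),(0,1),(19,2),(2,1),(1,6)]⟩⟩,⟨true,1,⟨0,[(1,0)]⟩,⟨0,
  [(3,0)]⟩⟩,⟨true,0,⟨0,[(0,0)]⟩,⟨0,[(28,0),(1,1)]⟩⟩,⟨false,1,⟨1,[(0,1),(26,0),(0,1),(3,0)]⟩,⟨0,[(2,
  0),(2,0)]⟩⟩,⟨false,0,⟨0,[]⟩,⟨0,[]⟩⟩,⟨false,0,⟨0,[]⟩,⟨0,[]⟩⟩,[.a ⟨true,0,⟨0,[(29,0)]⟩,⟨3,[(2,1),(2,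
  1),(20,0),(5,0)]⟩⟩ ⟨true,0,⟨0,[]⟩,⟨5,[(3,1),(5,0),(0,0),(16,0)]⟩⟩ ⟨false,1,⟨10,[(1,6),(2,1),(19,
  2),(2,1),(0,6)]⟩,⟨2,[(2,2),(1,0),(0,1)]⟩⟩,.o ⟨false,1,⟨10,[(1,0),(2,4),(19,1),(2,4),(0,0)]⟩,⟨0,
  [(30,0)]⟩⟩,.o ⟨false,0,⟨5,[(3,1),(5,0),(0,0),(16,0)]⟩,⟨1,[(27,0),(3,0)]⟩⟩,.o ⟨false,0,⟨2,[(3,1),
  (5,0),(0,0),(16,0)]⟩,⟨0,[(1,0)]⟩⟩]⟩)) (.I [0,1,3,2,-1] (.R ⟨0,false,false,true,[1,-1],[0,1],[0,1,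
  2,1],(⟨0,[(22,0)]⟩,⟨0,[(23,0)]⟩),(⟨0,[(23,0)]⟩,⟨0,[(22,0)]⟩),⟨0,[(7,0),(0,0)]⟩,.k,.k,(.r (-1) ⟨4,
  [(5,3),(3,0),(0,0),(13,1),(5,5)]⟩ ⟨1,[(0,0),(3,0)]⟩),(.r (-1) ⟨4,[(5,3),(3,0),(0,0),(13,1),(5,
  5)]⟩ ⟨1,[(0,0),(3,0)]⟩),.k,.k,⟨true,0,⟨5,[(3,1),(5,0),(0,0),(16,0)]⟩,⟨0,[]⟩⟩,⟨false,2,⟨1,[(27,0),
  (3,2)]⟩,⟨0,[(1,0)]⟩⟩,⟨true,(-1),⟨0,[(0,0)]⟩,⟨0,[(5,0),(22,0),(1,1)]⟩⟩,⟨false,1,⟨3,[(0,0),(3,0),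
  (22,1),(0,3),(3,1)]⟩,⟨0,[(2,0),(2,0)]⟩⟩,⟨false,0,⟨0,[]⟩,⟨0,[]⟩⟩,⟨false,0,⟨0,[]⟩,⟨0,[]⟩⟩,[.e
  ⟨false,0,⟨35,[(0,6),(2,7),(0,10),(19,19),(2,3)]⟩,⟨0,[(5,0)]⟩⟩ ⟨false,1,⟨1,[(27,0),(0,1),(2,0)]⟩,
  ⟨2,[(2,2),(1,0),(0,1)]⟩⟩,.o ⟨false,1,⟨13,[(4,5),(19,1),(2,6),(0,1),(2,0)]⟩,⟨0,[(30,0)]⟩⟩,.o
  ⟨false,0,⟨5,[(3,1),(5,0),(0,0),(16,0)]⟩,⟨1,[(27,0),(3,0)]⟩⟩,.a ⟨true,(-1),⟨0,[(1,0)]⟩,⟨0,[(31,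
  0)]⟩⟩ ⟨false,0,⟨3,[(0,0),(3,0)]⟩,⟨7,[(2,1),(2,5),(3,1),(0,1),(16,0),(4,0)]⟩⟩ ⟨true,1,⟨1,[(27,0),
  (0,1),(2,0)]⟩,⟨0,[(2,0)]⟩⟩]⟩) (.I [1,-1,1,1,0,0,0,-1] (.Q [0,0,0,0,0,0,1,0,0,0,1] (.p true [0,0,
  1] [] (⟨0,[(20,0)]⟩,⟨0,[(19,0)]⟩) .k 0 (⟨0,[]⟩,⟨0,[]⟩) .k .k) (.I [1,0,-1,0,0,0,0,-1] (.R ⟨0,
  false,false,true,[1,-1],[1,-1,1],[0,1],(⟨0,[(25,0)]⟩,⟨0,[(26,0)]⟩),(⟨0,[(22,0),(2,0)]⟩,⟨0,[(11,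
  0)]⟩),⟨0,[(10,0),(0,0)]⟩,.k,.k,(.r (-1) ⟨4,[(3,3),(1,1),(6,1),(0,1),(13,1),(2,0)]⟩ ⟨0,[(4,1),(25,
  0),(0,1),(3,0)]⟩),.k,.k,.k,⟨false,0,⟨1,[(0,0),(1,0),(29,0)]⟩,⟨7,[(3,3),(5,1),(2,0),(0,0),(3,7),(2,
  3),(9,0),(4,1)]⟩⟩,⟨true,0,⟨0,[(1,0)]⟩,⟨0,[(20,0)]⟩⟩,⟨false,0,⟨1,[(4,1),(25,0),(0,1),(3,0)]⟩,⟨13,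
  [(3,5),(1,1),(6,4),(0,4),(16,0),(4,3)]⟩⟩,⟨true,0,⟨0,[(17,0)]⟩,⟨0,[(0,0),(19,0)]⟩⟩,⟨false,0,⟨0,[]⟩,
  ⟨0,[]⟩⟩,⟨false,0,⟨0,[]⟩,⟨0,[]⟩⟩,[.o ⟨false,0,⟨0,[(17,0),(15,0)]⟩,⟨0,[(2,0),(13,0),(13,0)]⟩⟩,.e
  ⟨false,1,⟨1,[(12,0),(0,0),(20,0)]⟩,⟨0,[]⟩⟩ ⟨false,1,⟨3,[(3,2),(3,0),(9,3)]⟩,⟨2,[(2,1),(15,0),(1,
  1),(10,0)]⟩⟩,.o ⟨false,0,⟨5,[(6,1),(5,0),(0,0),(16,0)]⟩,⟨1,[(30,0),(3,0)]⟩⟩,.a ⟨true,(-1),⟨0,[(4,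
  0)]⟩,⟨0,[(34,0)]⟩⟩ ⟨true,0,⟨0,[(31,0),(1,0)]⟩,⟨5,[(6,1),(5,0),(0,0),(16,0)]⟩⟩ ⟨false,1,⟨3,[(3,2),
  (3,0),(9,3)]⟩,⟨0,[(2,0),(17,0)]⟩⟩]⟩) (.Q [0,0,0,0,0,0,-1,-1,0,0,-1] (.p false [0,0,1] [] (⟨0,[(22,
  0)]⟩,⟨0,[(21,0)]⟩) .k 0 (⟨0,[]⟩,⟨0,[]⟩) .k .k) (.R ⟨0,false,false,true,[0,1,-1],[0,1],[1],(⟨0,
  [(12,0)]⟩,⟨0,[(23,0),(2,0)]⟩),(⟨0,[(27,0)]⟩,⟨0,[(26,0)]⟩),⟨0,[(23,0)]⟩,.k,.k,.k,.k,.k,.k,⟨false,1,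
  ⟨3,[(4,2),(3,0)]⟩,⟨10,[(7,3),(0,1),(19,2),(2,1),(1,6)]⟩⟩,⟨true,0,⟨0,[(2,0)]⟩,⟨0,[(21,0)]⟩⟩,⟨false,
  1,⟨3,[(1,3),(2,2),(3,0)]⟩,⟨2,[(3,1),(15,0),(0,0),(12,0)]⟩⟩,⟨true,0,⟨0,[(18,0)]⟩,⟨0,[(0,0)]⟩⟩,
  ⟨false,0,⟨0,[]⟩,⟨0,[]⟩⟩,⟨false,0,⟨0,[]⟩,⟨0,[]⟩⟩,[.a ⟨true,0,⟨0,[(33,0)]⟩,⟨3,[(6,1),(2,1),(20,0),
  (5,0)]⟩⟩ ⟨true,0,⟨0,[]⟩,⟨5,[(7,1),(5,0),(0,0),(16,0)]⟩⟩ ⟨false,0,⟨0,[(2,0),(30,0)]⟩,⟨7,[(4,3),(5,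
  1),(2,0),(0,0),(6,3),(9,0),(4,1)]⟩⟩,.o ⟨false,1,⟨13,[(8,5),(19,1),(2,6),(0,1),(2,0)]⟩,⟨0,[(34,
  0)]⟩⟩,.o ⟨false,1,⟨0,[(17,0),(13,0)]⟩,⟨0,[(20,0)]⟩⟩,.o ⟨false,1,⟨3,[(10,1),(2,0),(0,0),(16,2)]⟩,
  ⟨0,[(2,0)]⟩⟩]⟩) (.R ⟨2,false,false,true,[0,1],[0,0,1],[1,0,1,1],(⟨0,[]⟩,⟨0,[]⟩),(⟨0,[(23,0)]⟩,⟨0,
  [(22,0)]⟩),⟨0,[]⟩,.k,.k,.k,.k,.k,.k,⟨true,0,⟨0,[(3,0)]⟩,⟨0,[(1,0),(30,0),(1,1)]⟩⟩,⟨false,0,⟨0,[(2,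
  0)]⟩,⟨3,[(10,1),(2,0),(0,0),(16,0),(3,1)]⟩⟩,⟨true,0,⟨0,[]⟩,⟨11,[(7,1),(5,0),(0,0),(13,5),(2,0)]⟩⟩,
  ⟨false,0,⟨0,[(0,0),(33,0)]⟩,⟨11,[(3,7),(0,2),(3,4),(1,3),(8,3),(11,1),(3,1)]⟩⟩,⟨false,1,⟨3,[(4,0),
  (3,2)]⟩,⟨0,[(34,0)]⟩⟩,⟨false,0,⟨0,[(0,0)]⟩,⟨0,[(19,0),(16,0)]⟩⟩,[.a ⟨true,0,⟨0,[(18,0)]⟩,⟨6,[(3,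
  5),(0,1),(1,1),(3,0),(6,3),(1,0)]⟩⟩ ⟨true,0,⟨1,[(1,0),(1,0),(29,0)]⟩,⟨0,[(34,0)]⟩⟩ ⟨false,0,⟨0,
  [(18,0)]⟩,⟨5,[(3,3),(0,2),(3,0),(1,1),(8,1),(11,0),(3,0)]⟩⟩,.e ⟨false,1,⟨3,[(4,0),(3,2)]⟩,⟨0,[(32,
  0),(1,1)]⟩⟩ ⟨false,0,⟨0,[(0,0)]⟩,⟨1,[(4,0),(3,0),(10,1)]⟩⟩,.o ⟨false,1,⟨1,[(31,0),(3,0)]⟩,⟨5,[(7,
  1),(5,0),(0,0),(16,0)]⟩⟩,.fo]⟩))) (.R ⟨0,false,false,false,[1,0,-1],[1,-1],[1,1],(⟨0,[(20,0)]⟩,⟨0,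
  [(21,0)]⟩),(⟨0,[(24,0)]⟩,⟨0,[(25,0)]⟩),⟨0,[(9,0)]⟩,.k,.k,.k,.k,.k,.k,⟨false,0,⟨0,[(31,0)]⟩,⟨13,
  [(2,5),(1,1),(6,4),(0,4),(16,0),(4,3)]⟩⟩,⟨true,0,⟨0,[(18,0)]⟩,⟨0,[(0,0)]⟩⟩,⟨true,0,⟨0,[(0,0),(15,
  0)]⟩,⟨0,[(1,0),(28,0),(1,1)]⟩⟩,⟨false,1,⟨13,[(2,3),(1,5),(6,0),(0,0),(3,13),(12,2),(4,11)]⟩,⟨0,
  [(0,0),(0,0),(28,0),(1,0)]⟩⟩,⟨false,0,⟨0,[]⟩,⟨0,[]⟩⟩,⟨false,0,⟨0,[]⟩,⟨0,[]⟩⟩,[.o ⟨false,0,⟨0,[(32,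
  0)]⟩,⟨13,[(6,5),(19,1),(2,6),(0,1),(2,0)]⟩⟩,.a ⟨true,0,⟨3,[(4,1),(2,1),(20,0),(5,0)]⟩,⟨0,[(31,
  0)]⟩⟩ ⟨true,0,⟨0,[]⟩,⟨5,[(5,1),(5,0),(0,0),(16,0)]⟩⟩ ⟨false,1,⟨3,[(2,2),(3,0),(11,3)]⟩,⟨0,[(0,0),
  (30,0)]⟩⟩,.o ⟨false,0,⟨0,[(0,0)]⟩,⟨1,[(18,1),(10,0),(3,0)]⟩⟩,.o ⟨false,0,⟨0,[(19,0)]⟩,⟨1,[(1,0),
  (0,0),(13,0),(1,0),(10,0),(0,0)]⟩⟩]⟩)) (.I [1,-1,0,0,0,0,0,1] (.R ⟨0,false,false,false,[0,1,-1],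
  [0,1],[1,0,1],(⟨0,[(10,0)]⟩,⟨0,[(21,0),(2,0)]⟩),(⟨0,[(25,0)]⟩,⟨0,[(24,0)]⟩),⟨0,[(21,0)]⟩,.k,.k,.k,
  .k,.k,.k,⟨true,0,⟨0,[(32,0)]⟩,⟨1,[(3,1),(25,0),(0,1),(3,0)]⟩⟩,⟨false,1,⟨0,[(18,0),(14,0)]⟩,⟨0,[(0,
  0),(16,0)]⟩⟩,⟨false,0,⟨0,[(0,0),(31,0)]⟩,⟨0,[(17,0),(0,0),(11,0),(3,0)]⟩⟩,⟨true,0,⟨0,[(0,0),(17,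
  0),(11,0),(1,0)]⟩,⟨0,[(17,0)]⟩⟩,⟨false,0,⟨0,[]⟩,⟨0,[]⟩⟩,⟨false,0,⟨0,[]⟩,⟨0,[]⟩⟩,[.o ⟨false,1,⟨13,
  [(6,5),(19,1),(2,6),(0,1),(2,0)]⟩,⟨0,[(32,0)]⟩⟩,.e ⟨false,1,⟨1,[(11,0),(0,0),(21,0)]⟩,⟨0,[(30,0),
  (1,0)]⟩⟩ ⟨false,1,⟨0,[(18,0),(11,0),(3,0)]⟩,⟨0,[(0,0),(16,0),(12,0),(1,1)]⟩⟩,.o ⟨false,1,⟨0,[(15,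
  0),(13,0)]⟩,⟨0,[(18,0)]⟩⟩,.a ⟨true,0,⟨0,[(0,0),(16,0)]⟩,⟨4,[(7,0),(10,4),(3,0),(1,0),(3,1),(1,0),
  (2,0)]⟩⟩ ⟨true,0,⟨0,[]⟩,⟨11,[(5,1),(5,0),(0,0),(13,5),(2,0)]⟩⟩ ⟨false,1,⟨0,[(18,0),(11,0),(3,0)]⟩,
  ⟨0,[(0,0),(16,0),(14,0)]⟩⟩]⟩) (.Q [0,0,0,0,0,0,1,1,0,0,1] (.p true [0,0,1] [] (⟨0,[(21,0)]⟩,⟨0,
  [(20,0)]⟩) .k 0 (⟨0,[]⟩,⟨0,[]⟩) .k .k) (.Q [0,0,2,0,-1,0,1,0,0,1,1] (.p true [1,-1,1] [] (⟨0,[(22,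
  0),(2,0)]⟩,⟨0,[(11,0)]⟩) .k 0 (⟨0,[]⟩,⟨0,[]⟩) .k .k) (.I [0,0,-2,-2,0,0,0,1] (.K ⟨0,[1,-1,1],(-1),
  (-1),(⟨0,[(24,0),(2,0)]⟩,⟨0,[(13,0)]⟩),.k,(.r 0 ⟨0,[(0,0)]⟩ ⟨5,[(3,5),(4,1),(0,5),(4,0),(0,0),(16,
  0)]⟩),.k,.k,.k,[⟨1,[(32,0),(3,0)]⟩,⟨0,[(1,0)]⟩,⟨13,[(9,5),(10,13),(8,1),(2,6),(0,1),(2,0)]⟩,⟨1,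
  [(0,0),(0,1),(2,0),(28,0)]⟩]⟩) (.I [0,0,0,0,0,0,0,1] (.Q [0,-1,0,1,1,0,1,0,0,-1,1] (.p true [0,0,
  1] [1] (⟨0,[(25,0)]⟩,⟨0,[(24,0)]⟩) .k 1 (⟨0,[]⟩,⟨0,[]⟩) .k .k) (.R ⟨0,false,false,true,[0,0,1],[1,
  -1],[1,1],(⟨0,[(26,0)]⟩,⟨0,[(25,0)]⟩),(⟨0,[(29,0)]⟩,⟨0,[(30,0)]⟩),⟨0,[(15,0)]⟩,.k,.k,.k,.k,.k,.k,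
  ⟨true,0,⟨1,[(1,0),(0,0)]⟩,⟨0,[(37,0)]⟩⟩,⟨false,0,⟨115,[(9,23),(1,11),(1,57),(13,3),(1,3),(1,5),(1,
  14),(4,26)]⟩,⟨6,[(0,2),(3,3),(0,3),(1,1),(26,1),(0,0)]⟩⟩,⟨true,0,⟨0,[(5,0)]⟩,⟨0,[(1,0)]⟩⟩,⟨false,
  0,⟨13,[(5,3),(1,3),(1,5),(3,1),(8,9),(10,2),(5,4)]⟩,⟨0,[(0,0),(0,0)]⟩⟩,⟨false,0,⟨0,[]⟩,⟨0,[]⟩⟩,
  ⟨false,0,⟨0,[]⟩,⟨0,[]⟩⟩,[.e ⟨false,0,⟨0,[(35,0),(1,0)]⟩,⟨1,[(16,0),(0,0),(21,0)]⟩⟩ ⟨false,0,⟨11,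
  [(7,3),(1,3),(3,5),(2,0),(0,0),(13,7),(1,0)]⟩,⟨0,[(0,0)]⟩⟩,.o ⟨false,0,⟨0,[(37,0)]⟩,⟨13,[(11,5),
  (19,1),(2,6),(0,1),(2,0)]⟩⟩,.e ⟨false,0,⟨0,[]⟩,⟨1,[(16,0),(0,0),(21,0)]⟩⟩ ⟨false,0,⟨59,[(7,15),(1,
  27),(3,29),(2,12),(0,12),(13,7),(1,0)]⟩,⟨0,[(0,0)]⟩⟩,.a ⟨true,0,⟨0,[(23,0)]⟩,⟨0,[(20,0)]⟩⟩ ⟨true,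
  0,⟨0,[(35,0),(1,0)]⟩,⟨5,[(10,1),(5,0),(0,0),(16,0)]⟩⟩ ⟨false,0,⟨19,[(6,2),(0,5),(1,4),(3,3),(6,8),
  (1,2),(10,0)]⟩,⟨11,[(0,7),(9,1),(0,1),(11,3),(10,2),(4,0)]⟩⟩]⟩) (.Q [0,0,0,0,0,0,-2,-2,0,1,-2]
  (.p false [0,0,1] [1,0,-1] (⟨0,[(26,0)]⟩,⟨0,[(25,0)]⟩) .k 2 (⟨0,[(25,0)]⟩,⟨0,[(26,0)]⟩) .k (.r 0
  ⟨0,[(1,1)]⟩ ⟨0,[(5,1),(33,0)]⟩)) (.I [1,0,1,0,0,0,0,-1] (.R ⟨0,false,false,true,[1,-1],[1,0,-1],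
  [0,1],(⟨0,[(31,0)]⟩,⟨0,[(32,0)]⟩),(⟨0,[(27,0)]⟩,⟨0,[(28,0)]⟩),⟨0,[(16,0),(0,0)]⟩,.k,.k,(.r (-1)
  ⟨4,[(9,3),(1,1),(6,1),(0,1),(13,1),(2,0)]⟩ ⟨0,[(3,0),(0,0)]⟩),.k,.k,.k,⟨true,0,⟨0,[(3,0)]⟩,⟨0,[(0,
  0)]⟩⟩,⟨false,1,⟨1,[(22,1),(13,0),(3,0)]⟩,⟨0,[(25,0)]⟩⟩,⟨false,0,⟨1,[(3,0),(0,0)]⟩,⟨13,[(9,5),(1,
  1),(6,4),(0,4),(16,0),(4,3)]⟩⟩,⟨true,0,⟨2,[(1,0),(0,0),(1,0),(31,0),(0,1)]⟩,⟨3,[(5,0),(0,2),(1,0),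
  (0,0),(1,0),(24,0)]⟩⟩,⟨false,0,⟨0,[]⟩,⟨0,[]⟩⟩,⟨false,0,⟨0,[]⟩,⟨0,[]⟩⟩,[.o ⟨false,0,⟨0,[(24,0)]⟩,
  ⟨1,[(6,1),(29,0),(4,0)]⟩⟩,.e ⟨false,1,⟨1,[(18,0),(0,0),(20,0)]⟩,⟨0,[]⟩⟩ ⟨false,1,⟨7,[(1,3),(7,2),
  (3,0),(22,1),(0,3),(2,1)]⟩,⟨5,[(6,3),(5,1),(10,1),(12,0),(4,0)]⟩⟩,.o ⟨false,0,⟨5,[(12,1),(5,0),(0,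
  0),(16,0)]⟩,⟨1,[(36,0),(3,0)]⟩⟩,.a ⟨true,(-1),⟨0,[(10,0)]⟩,⟨0,[(40,0)]⟩⟩ ⟨true,0,⟨4,[(2,0),(2,0),
  (3,0),(23,0),(2,0),(0,2)]⟩,⟨5,[(12,1),(5,0),(0,0),(16,0)]⟩⟩ ⟨false,1,⟨7,[(1,3),(7,2),(3,0),(22,1),
  (0,3),(2,1)]⟩,⟨1,[(3,1),(1,1),(30,0),(4,0)]⟩⟩]⟩) (.R ⟨0,false,false,true,[1,-1],[1,0,-1],[0,1,-1,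
  -2],(⟨0,[(31,0)]⟩,⟨0,[(32,0)]⟩),(⟨0,[(27,0)]⟩,⟨0,[(28,0)]⟩),⟨0,[(16,0),(0,0)]⟩,.k,.k,(.r (-1) ⟨4,
  [(9,3),(1,1),(6,1),(0,1),(13,1),(2,0)]⟩ ⟨0,[(3,0),(0,0)]⟩),.k,.k,.k,⟨true,0,⟨1,[(0,0),(1,0),(3,0),
  (2,0),(1,0),(24,0)]⟩,⟨0,[(4,0)]⟩⟩,⟨false,1,⟨1,[(22,1),(13,0),(3,0)]⟩,⟨0,[(25,0)]⟩⟩,⟨false,0,⟨0,
  [(39,0)]⟩,⟨3,[(9,0),(3,2)]⟩⟩,⟨true,0,⟨2,[(1,0),(0,0),(1,0),(31,0),(0,1)]⟩,⟨3,[(5,0),(0,2),(1,0),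
  (0,0),(1,0),(24,0)]⟩⟩,⟨false,0,⟨0,[]⟩,⟨0,[]⟩⟩,⟨false,0,⟨0,[]⟩,⟨0,[]⟩⟩,[.o ⟨false,0,⟨0,[(24,0)]⟩,
  ⟨1,[(6,1),(29,0),(4,0)]⟩⟩,.e ⟨false,1,⟨4,[(9,3),(1,1),(6,1),(0,1),(13,1),(2,0)]⟩,⟨0,[(0,0),(3,
  0)]⟩⟩ ⟨false,1,⟨7,[(1,3),(7,2),(3,0),(22,1),(0,3),(2,1)]⟩,⟨5,[(6,3),(5,1),(10,1),(12,0),(4,0)]⟩⟩,
  .o ⟨false,0,⟨5,[(12,1),(5,0),(0,0),(16,0)]⟩,⟨1,[(36,0),(3,0)]⟩⟩,.a ⟨true,(-1),⟨0,[(10,0)]⟩,⟨0,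
  [(40,0)]⟩⟩ ⟨true,0,⟨0,[(2,0),(2,0),(3,0),(26,0),(0,0)]⟩,⟨0,[(3,0),(0,0)]⟩⟩ ⟨false,1,⟨7,[(1,3),(7,
  2),(3,0),(22,1),(0,3),(2,1)]⟩,⟨1,[(3,1),(1,1),(30,0),(4,0)]⟩⟩]⟩)) (.Q [0,0,0,0,0,0,-1,0,0,0,-1]
  (.p false [0,0,1] [] (⟨0,[(27,0)]⟩,⟨0,[(26,0)]⟩) .k 0 (⟨0,[]⟩,⟨0,[]⟩) .k .k) (.R ⟨0,false,false,
  true,[1,0,-1],[0,1],[0,0,1],(⟨0,[(27,0)]⟩,⟨0,[(28,0)]⟩),(⟨0,[(32,0)]⟩,⟨0,[(31,0)]⟩),⟨0,[(16,0)]⟩,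
  .k,.k,.k,.k,.k,.k,⟨false,1,⟨13,[(9,5),(1,1),(6,4),(0,4),(16,0),(4,3)]⟩,⟨0,[(38,0)]⟩⟩,⟨true,1,⟨3,
  [(1,1),(2,1),(2,1),(1,1),(26,0),(3,0)]⟩,⟨0,[(0,0),(9,0)]⟩⟩,⟨false,0,⟨1,[(0,1),(0,0),(8,0),(30,
  0)]⟩,⟨1,[(7,1),(1,0),(3,0)]⟩⟩,⟨true,0,⟨2,[(1,1),(0,0),(1,0),(31,0),(0,1)]⟩,⟨13,[(7,3),(1,3),(1,5),
  (3,1),(8,9),(10,2),(5,4)]⟩⟩,⟨false,0,⟨0,[]⟩,⟨0,[]⟩⟩,⟨false,0,⟨0,[]⟩,⟨0,[]⟩⟩,[.a ⟨true,0,⟨0,[(38,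
  0)]⟩,⟨3,[(11,1),(2,1),(20,0),(5,0)]⟩⟩ ⟨true,0,⟨5,[(12,1),(5,0),(0,0),(16,0)]⟩,⟨0,[]⟩⟩ ⟨false,1,
  ⟨19,[(1,9),(2,7),(2,11),(25,1),(2,4),(0,3),(2,14)]⟩,⟨0,[(2,0),(38,0)]⟩⟩,.o ⟨false,1,⟨13,[(13,5),
  (19,1),(2,6),(0,1),(2,0)]⟩,⟨0,[(39,0)]⟩⟩,.o ⟨false,0,⟨0,[(0,0)]⟩,⟨1,[(25,1),(10,0),(3,0)]⟩⟩,.o
  ⟨false,0,⟨0,[(26,0)]⟩,⟨3,[(1,1),(2,1),(2,1),(1,1),(26,0),(3,0)]⟩⟩]⟩) (.R ⟨0,false,false,false,[0,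
  1,-1],[0,1],[0,1,1],(⟨0,[(17,0)]⟩,⟨0,[(28,0),(2,0)]⟩),(⟨0,[(32,0)]⟩,⟨0,[(31,0)]⟩),⟨0,[(28,0)]⟩,.k,
  .k,.k,.k,.k,.k,⟨false,0,⟨12,[(1,1),(0,3),(4,3),(1,2),(23,3),(2,0),(2,2)]⟩,⟨3,[(9,0),(3,2)]⟩⟩,
  ⟨true,0,⟨0,[(0,0)]⟩,⟨0,[(26,0)]⟩⟩,⟨false,0,⟨3,[(1,0),(1,0),(4,0),(0,0),(1,0),(14,1)]⟩,⟨3,[(4,3),
  (4,2),(3,0)]⟩⟩,⟨true,0,⟨0,[(6,0)]⟩,⟨0,[(24,0)]⟩⟩,⟨false,0,⟨0,[]⟩,⟨0,[]⟩⟩,⟨false,0,⟨0,[]⟩,⟨0,[]⟩⟩,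
  [.o ⟨false,1,⟨13,[(13,5),(19,1),(2,6),(0,1),(2,0)]⟩,⟨0,[(39,0)]⟩⟩,.a ⟨true,1,⟨3,[(13,1),(26,0),(0,
  0)]⟩,⟨0,[(0,0),(1,0)]⟩⟩ ⟨true,0,⟨5,[(12,1),(5,0),(0,0),(16,0)]⟩,⟨0,[]⟩⟩ ⟨false,1,⟨3,[(0,3),(8,0),
  (3,2)]⟩,⟨26,[(2,16),(6,5),(5,4),(17,6),(2,10),(0,1)]⟩⟩,.o ⟨false,1,⟨0,[(22,0),(13,0)]⟩,⟨0,[(25,
  0)]⟩⟩,.o ⟨false,1,⟨3,[(15,1),(2,0),(0,0),(16,2)]⟩,⟨0,[(0,0)]⟩⟩]⟩)))) (.R ⟨0,false,false,false,[1,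
  0,-1],[1,-1],[],(⟨0,[(24,0)]⟩,⟨0,[(25,0)]⟩),(⟨0,[(28,0)]⟩,⟨0,[(29,0)]⟩),⟨0,[(13,0)]⟩,.k,.k,.k,.k,
  .k,.k,⟨true,0,⟨1,[(7,1),(25,0),(0,1),(3,0)]⟩,⟨0,[(36,0)]⟩⟩,⟨false,0,⟨0,[(0,0),(2,0)]⟩,⟨3,[(12,1),
  (2,0),(0,0),(16,0),(3,1)]⟩⟩,⟨false,1,⟨2,[(3,0),(1,1),(4,0),(12,0),(14,1)]⟩,⟨0,[(0,0)]⟩⟩,⟨true,0,
  ⟨3,[(2,0),(0,2),(1,0),(0,0),(1,0),(24,0)]⟩,⟨0,[(0,0),(22,0),(10,0)]⟩⟩,⟨false,0,⟨0,[]⟩,⟨0,[]⟩⟩,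
  ⟨false,0,⟨0,[]⟩,⟨0,[]⟩⟩,[.o ⟨false,0,⟨0,[(36,0)]⟩,⟨13,[(10,5),(19,1),(2,6),(0,1),(2,0)]⟩⟩,.e
  ⟨false,1,⟨1,[(37,0),(0,0)]⟩,⟨11,[(9,1),(5,0),(0,0),(13,5),(2,0)]⟩⟩ ⟨false,1,⟨3,[(6,2),(3,0),(11,
  3)]⟩,⟨0,[(23,0),(10,0)]⟩⟩,.a ⟨true,0,⟨115,[(8,23),(1,11),(1,57),(13,3),(1,3),(1,5),(1,14),(4,
  26)]⟩,⟨0,[(0,0),(2,0)]⟩⟩ ⟨false,1,⟨1,[(15,0),(0,0),(21,0)]⟩,⟨0,[]⟩⟩ ⟨true,0,⟨2,[(0,1),(1,1),(0,0),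
  (1,0),(0,0),(26,0)]⟩,⟨0,[(23,0),(10,0)]⟩⟩,.o ⟨false,0,⟨0,[(23,0)]⟩,⟨1,[(0,1),(2,1),(29,0),(3,
  0)]⟩⟩]⟩))) (.I [1,1,0,-1,-1,0,0,1] (.R ⟨0,false,false,false,[0,1,-1],[0,1],[1,0,1],(⟨0,[(13,0)]⟩,
  ⟨0,[(24,0),(2,0)]⟩),(⟨0,[(28,0)]⟩,⟨0,[(27,0)]⟩),⟨0,[(24,0)]⟩,.k,.k,.k,.k,.k,.k,⟨true,0,⟨0,[(35,
  0)]⟩,⟨1,[(6,1),(25,0),(0,1),(3,0)]⟩⟩,⟨false,1,⟨0,[(21,0),(14,0)]⟩,⟨0,[(1,0),(4,0)]⟩⟩,⟨false,0,⟨0,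
  [(0,0),(36,0)]⟩,⟨3,[(3,3),(1,0),(3,2)]⟩⟩,⟨true,0,⟨0,[(2,0)]⟩,⟨0,[(20,0)]⟩⟩,⟨false,0,⟨0,[]⟩,⟨0,
  []⟩⟩,⟨false,0,⟨0,[]⟩,⟨0,[]⟩⟩,[.o ⟨false,1,⟨13,[(9,5),(19,1),(2,6),(0,1),(2,0)]⟩,⟨0,[(35,0)]⟩⟩,.e
  ⟨false,1,⟨1,[(14,0),(0,0),(21,0)]⟩,⟨7,[(0,0),(2,0),(1,0),(23,1),(3,2)]⟩⟩ ⟨false,1,⟨0,[(21,0),(11,
  0),(3,0)]⟩,⟨34,[(0,10),(0,1),(2,9),(0,6),(5,5),(8,20),(11,1)]⟩⟩,.o ⟨false,1,⟨5,[(1,1),(9,1),(20,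
  2),(3,0)]⟩,⟨0,[(21,0)]⟩⟩,.a ⟨true,0,⟨0,[(1,0),(4,0)]⟩,⟨4,[(10,0),(10,4),(3,0),(1,0),(3,1),(1,0),
  (2,0)]⟩⟩ ⟨true,0,⟨0,[]⟩,⟨11,[(8,1),(5,0),(0,0),(13,5),(2,0)]⟩⟩ ⟨false,1,⟨0,[(21,0),(11,0),(3,0)]⟩,
  ⟨0,[(1,0),(5,0)]⟩⟩]⟩) (.Q [0,-1,0,-1,0,0,-1,-1,0,1,-1] (.p false [0,0,1] [1] (⟨0,[(24,0)]⟩,⟨0,
  [(23,0)]⟩) .k 1 (⟨0,[]⟩,⟨0,[]⟩) .k .k) (.R ⟨0,false,false,true,[0,0,1],[-1,1,1],[0,1],(⟨0,[(25,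
  0)]⟩,⟨0,[(24,0)]⟩),(⟨0,[(13,0)]⟩,⟨0,[(24,0),(3,0)]⟩),⟨0,[(14,0)]⟩,.k,.k,.k,.k,.k,.k,⟨false,1,⟨10,
  [(1,2),(2,7),(1,6),(8,0),(0,0),(13,0)]⟩,⟨1,[(2,1),(0,1),(3,3),(25,0),(0,1),(3,0)]⟩⟩,⟨true,1,⟨1,
  [(33,0),(3,0)]⟩,⟨0,[(7,0)]⟩⟩,⟨true,0,⟨0,[(4,0)]⟩,⟨0,[(2,0),(0,0),(3,0)]⟩⟩,⟨false,1,⟨13,[(10,5),
  (19,1),(2,6),(0,1),(2,0)]⟩,⟨3,[(8,1),(2,1),(20,0),(5,0)]⟩⟩,⟨false,0,⟨0,[]⟩,⟨0,[]⟩⟩,⟨false,0,⟨0,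
  []⟩,⟨0,[]⟩⟩,[.o ⟨false,1,⟨0,[(3,0),(29,0),(1,0)]⟩,⟨0,[(0,0)]⟩⟩,.e ⟨false,1,⟨1,[(15,0),(0,0),(20,
  0)]⟩,⟨0,[]⟩⟩ ⟨false,1,⟨1,[(2,1),(0,1),(3,1),(25,0),(0,1),(3,0)]⟩,⟨6,[(0,4),(3,3),(1,0),(13,1),(1,
  2),(9,0)]⟩⟩,.o ⟨false,1,⟨15,[(1,4),(2,0),(1,2),(13,5),(1,9),(10,7),(0,0)]⟩,⟨0,[(2,0),(4,0)]⟩⟩,.a
  ⟨true,0,⟨0,[(22,0)]⟩,⟨0,[(19,0)]⟩⟩ ⟨true,0,⟨0,[(34,0),(1,0)]⟩,⟨5,[(9,1),(5,0),(0,0),(16,0)]⟩⟩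
  ⟨false,1,⟨1,[(2,1),(0,1),(3,1),(25,0),(0,1),(3,0)]⟩,⟨0,[(0,0),(21,0)]⟩⟩]⟩) (.R ⟨0,false,false,
  false,[0,1,-1],[1,0,-1],[1,0,1,1,0,0,0,-1],(⟨0,[(14,0)]⟩,⟨0,[(25,0),(2,0)]⟩),(⟨0,[(24,0)]⟩,⟨0,
  [(25,0)]⟩),⟨0,[(25,0)]⟩,.k,.k,.k,.k,.k,.k,⟨true,0,⟨1,[(0,0),(0,0),(0,0),(4,1)]⟩,⟨0,[(36,0)]⟩⟩,
  ⟨false,0,⟨57,[(8,23),(1,11),(15,3),(1,3),(1,5),(1,14),(4,26)]⟩,⟨1,[(33,0),(3,0)]⟩⟩,⟨true,0,⟨0,[]⟩,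
  ⟨11,[(9,1),(5,0),(0,0),(13,5),(2,0)]⟩⟩,⟨false,0,⟨3,[(8,1),(2,1),(20,0),(5,0)]⟩,⟨9,[(0,0),(0,0),(0,
  0),(7,3),(19,1),(2,3)]⟩⟩,⟨false,0,⟨0,[]⟩,⟨0,[]⟩⟩,⟨false,0,⟨0,[]⟩,⟨0,[]⟩⟩,[.e ⟨false,1,⟨4,[(1,2),
  (2,1),(5,0),(4,0),(0,0),(13,0)]⟩,⟨0,[(0,0),(1,0),(3,0),(0,1)]⟩⟩ ⟨false,0,⟨70,[(1,31),(2,38),(1,8),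
  (1,13),(17,2),(1,2),(1,0),(1,26)]⟩,⟨23,[(0,9),(1,5),(2,13),(4,1),(1,1),(20,4),(4,10)]⟩⟩,.o ⟨false,
  1,⟨0,[(21,0),(16,0)]⟩,⟨0,[(0,0),(35,0)]⟩⟩,.o ⟨false,1,⟨5,[(2,1),(9,1),(20,2),(3,0)]⟩,⟨0,[(22,
  0)]⟩⟩,.a ⟨true,0,⟨0,[(2,0),(4,0)]⟩,⟨33,[(1,1),(1,1),(2,3),(15,31),(3,7),(1,7),(3,12),(1,5),(2,
  6)]⟩⟩ ⟨false,1,⟨0,[(1,0)]⟩,⟨0,[(2,0),(0,0),(4,0)]⟩⟩ ⟨true,0,⟨70,[(1,31),(2,38),(1,8),(1,13),(17,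
  2),(1,2),(1,0),(1,26)]⟩,⟨0,[(0,0),(1,0),(5,0)]⟩⟩]⟩)))) (.Q [0,0,0,0,0,0,-1,0,0,0,-1] (.p false [0,
  0,1] [] (⟨0,[(22,0)]⟩,⟨0,[(21,0)]⟩) .k 0 (⟨0,[]⟩,⟨0,[]⟩) .k .k) (.I [1,-1,1,0,0,0,0,-1] (.R ⟨0,
  false,false,false,[0,0,1],[0,1],[1,0,1],(⟨0,[(24,0)]⟩,⟨0,[(23,0)]⟩),(⟨0,[(28,0)]⟩,⟨0,[(27,0)]⟩),
  ⟨0,[(13,0)]⟩,.k,.k,.k,.k,.k,.k,⟨true,0,⟨0,[(35,0)]⟩,⟨1,[(6,1),(25,0),(0,1),(3,0)]⟩⟩,⟨false,1,⟨1,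
  [(18,1),(13,0),(3,0)]⟩,⟨0,[(21,0)]⟩⟩,⟨false,0,⟨0,[(0,0)]⟩,⟨3,[(4,3),(0,0),(3,2)]⟩⟩,⟨true,0,⟨0,[(0,
  0),(0,0),(31,0)]⟩,⟨0,[(19,0),(15,0)]⟩⟩,⟨false,0,⟨0,[]⟩,⟨0,[]⟩⟩,⟨false,0,⟨0,[]⟩,⟨0,[]⟩⟩,[.o ⟨false,
  1,⟨13,[(9,5),(19,1),(2,6),(0,1),(2,0)]⟩,⟨0,[(35,0)]⟩⟩,.e ⟨false,1,⟨1,[(14,0),(0,0),(21,0)]⟩,⟨0,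
  [(33,0),(1,0)]⟩⟩ ⟨false,1,⟨0,[(1,0),(31,0),(3,0)]⟩,⟨0,[(21,0),(11,0),(1,1)]⟩⟩,.o ⟨false,1,⟨1,[(21,
  1),(10,0),(3,0)]⟩,⟨0,[(1,0)]⟩⟩,.a ⟨true,0,⟨0,[(21,0)]⟩,⟨0,[(18,0)]⟩⟩ ⟨true,0,⟨0,[]⟩,⟨11,[(8,1),(5,
  0),(0,0),(13,5),(2,0)]⟩⟩ ⟨false,1,⟨0,[(1,0),(31,0),(3,0)]⟩,⟨0,[(21,0),(13,0)]⟩⟩]⟩) (.I [1,1,-2,-1,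
  0,0,0,-1] (.R ⟨0,false,false,true,[0,1,-1],[0,1],[0,1,2,1],(⟨0,[(14,0)]⟩,⟨0,[(25,0),(2,0)]⟩),(⟨0,
  [(29,0)]⟩,⟨0,[(28,0)]⟩),⟨0,[(25,0)]⟩,.k,.k,.k,.k,.k,.k,⟨true,0,⟨5,[(9,1),(5,0),(0,0),(16,0)]⟩,⟨0,
  []⟩⟩,⟨false,1,⟨0,[(22,0),(14,0)]⟩,⟨0,[(2,0)]⟩⟩,⟨false,0,⟨1,[(1,1),(5,1),(25,0),(4,0)]⟩,⟨1,[(0,0),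
  (2,0),(18,0),(11,0),(3,1)]⟩⟩,⟨true,0,⟨0,[(20,0)]⟩,⟨0,[(3,0)]⟩⟩,⟨false,0,⟨0,[]⟩,⟨0,[]⟩⟩,⟨false,0,
  ⟨0,[]⟩,⟨0,[]⟩⟩,[.e ⟨false,0,⟨10,[(9,3),(0,1),(19,2),(2,1),(1,6)]⟩,⟨3,[(6,2),(3,0)]⟩⟩ ⟨false,0,⟨0,
  [(22,0),(11,0)]⟩,⟨7,[(6,3),(5,1),(2,0),(0,0),(6,3),(9,0),(4,1)]⟩⟩,.o ⟨false,1,⟨13,[(10,5),(19,1),
  (2,6),(0,1),(2,0)]⟩,⟨0,[(36,0)]⟩⟩,.o ⟨false,1,⟨0,[(19,0),(13,0)]⟩,⟨0,[(22,0)]⟩⟩,.a ⟨true,0,⟨0,[(2,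
  0)]⟩,⟨4,[(11,0),(10,4),(3,0),(1,0),(3,1),(1,0),(2,0)]⟩⟩ ⟨false,0,⟨1,[(7,1),(25,0),(0,1),(3,0)]⟩,
  ⟨13,[(6,5),(1,1),(6,4),(0,4),(16,0),(4,3)]⟩⟩ ⟨true,0,⟨0,[(22,0),(11,0)]⟩,⟨4,[(2,3),(0,0),(1,0),(0,
  0),(1,1),(24,0)]⟩⟩]⟩) (.I [1,0,1,2] (.R ⟨0,false,false,true,[0,1,-1],[0,1],[0,1,2,1],(⟨0,[(15,
  0)]⟩,⟨0,[(26,0),(2,0)]⟩),(⟨0,[(30,0)]⟩,⟨0,[(29,0)]⟩),⟨0,[(26,0)]⟩,.k,.k,.k,.k,.k,.k,⟨true,0,⟨5,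
  [(10,1),(5,0),(0,0),(16,0)]⟩,⟨0,[]⟩⟩,⟨false,1,⟨0,[(23,0),(14,0)]⟩,⟨0,[(3,0)]⟩⟩,⟨false,0,⟨15,[(1,
  7),(4,5),(2,1),(6,0),(0,0),(3,1),(2,1),(9,0)]⟩,⟨0,[(0,0),(3,0),(2,0),(15,0)]⟩⟩,⟨true,0,⟨0,[(21,
  0)]⟩,⟨0,[(4,0)]⟩⟩,⟨false,0,⟨0,[]⟩,⟨0,[]⟩⟩,⟨false,0,⟨0,[]⟩,⟨0,[]⟩⟩,[.e ⟨false,0,⟨10,[(10,3),(0,1),
  (19,2),(2,1),(1,6)]⟩,⟨3,[(7,2),(3,0)]⟩⟩ ⟨false,0,⟨0,[(23,0),(11,0)]⟩,⟨7,[(7,3),(5,1),(2,0),(0,0),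
  (6,3),(9,0),(4,1)]⟩⟩,.o ⟨false,1,⟨13,[(11,5),(19,1),(2,6),(0,1),(2,0)]⟩,⟨0,[(37,0)]⟩⟩,.o ⟨false,1,
  ⟨0,[(20,0),(13,0)]⟩,⟨0,[(23,0)]⟩⟩,.a ⟨true,0,⟨0,[(3,0)]⟩,⟨4,[(12,0),(10,4),(3,0),(1,0),(3,1),(1,
  0),(2,0)]⟩⟩ ⟨false,0,⟨10,[(0,3),(9,1),(0,0),(22,0),(1,0)]⟩,⟨13,[(7,5),(1,1),(6,4),(0,4),(16,0),(4,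
  3)]⟩⟩ ⟨true,0,⟨0,[(23,0),(11,0)]⟩,⟨4,[(3,3),(0,0),(1,0),(0,0),(1,1),(24,0)]⟩⟩]⟩) (.R ⟨0,false,
  false,true,[0,1,-1],[0,1],[1,1,1],(⟨0,[(15,0)]⟩,⟨0,[(26,0),(2,0)]⟩),(⟨0,[(30,0)]⟩,⟨0,[(29,0)]⟩),
  ⟨0,[(26,0)]⟩,.k,.k,.k,.k,.k,.k,⟨true,0,⟨9,[(0,3),(8,1),(6,0),(0,0),(16,0)]⟩,⟨1,[(1,0),(2,0),(18,
  0),(11,0)]⟩⟩,⟨false,1,⟨0,[(23,0),(14,0)]⟩,⟨0,[(3,0)]⟩⟩,⟨false,0,⟨1,[(0,0),(0,0),(4,0)]⟩,⟨0,[(4,0),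
  (18,0),(11,0),(3,0)]⟩⟩,⟨true,0,⟨0,[(21,0)]⟩,⟨0,[(4,0)]⟩⟩,⟨false,0,⟨0,[]⟩,⟨0,[]⟩⟩,⟨false,0,⟨0,[]⟩,
  ⟨0,[]⟩⟩,[.e ⟨false,0,⟨11,[(10,1),(5,0),(0,0),(13,5),(2,0)]⟩,⟨1,[(38,0),(0,0)]⟩⟩ ⟨false,0,⟨0,[(23,
  0),(11,0)]⟩,⟨7,[(7,3),(5,1),(2,0),(0,0),(6,3),(9,0),(4,1)]⟩⟩,.o ⟨false,1,⟨13,[(11,5),(19,1),(2,6),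
  (0,1),(2,0)]⟩,⟨0,[(37,0)]⟩⟩,.o ⟨false,1,⟨0,[(20,0),(13,0)]⟩,⟨0,[(23,0)]⟩⟩,.a ⟨true,0,⟨0,[(3,0)]⟩,
  ⟨4,[(12,0),(10,4),(3,0),(1,0),(3,1),(1,0),(2,0)]⟩⟩ ⟨false,0,⟨0,[]⟩,⟨1,[(16,0),(0,0),(21,0)]⟩⟩
  ⟨true,0,⟨0,[(23,0),(11,0)]⟩,⟨1,[(0,0),(2,0),(20,0)]⟩⟩]⟩)))) (.R ⟨0,false,false,true,[0,1,-1],[0,
  1],[1],(⟨0,[(12,0)]⟩,⟨0,[(23,0),(2,0)]⟩),(⟨0,[(27,0)]⟩,⟨0,[(26,0)]⟩),⟨0,[(23,0)]⟩,.k,.k,.k,.k,.k,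
  .k,⟨false,1,⟨3,[(4,2),(3,0)]⟩,⟨10,[(7,3),(0,1),(19,2),(2,1),(1,6)]⟩⟩,⟨true,0,⟨0,[(0,0)]⟩,⟨0,[(21,
  0)]⟩⟩,⟨false,1,⟨0,[(3,0),(32,0)]⟩,⟨1,[(0,1),(0,1),(3,1),(25,0),(0,1),(3,0)]⟩⟩,⟨true,0,⟨0,[(18,
  0)]⟩,⟨0,[(1,0)]⟩⟩,⟨false,0,⟨0,[]⟩,⟨0,[]⟩⟩,⟨false,0,⟨0,[]⟩,⟨0,[]⟩⟩,[.a ⟨true,0,⟨0,[(33,0)]⟩,⟨3,[(6,
  1),(2,1),(20,0),(5,0)]⟩⟩ ⟨true,0,⟨0,[]⟩,⟨5,[(7,1),(5,0),(0,0),(16,0)]⟩⟩ ⟨false,0,⟨0,[(0,0),(32,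
  0)]⟩,⟨7,[(4,3),(5,1),(2,0),(0,0),(6,3),(9,0),(4,1)]⟩⟩,.o ⟨false,1,⟨13,[(8,5),(19,1),(2,6),(0,1),
  (2,0)]⟩,⟨0,[(34,0)]⟩⟩,.o ⟨false,1,⟨0,[(17,0),(13,0)]⟩,⟨0,[(20,0)]⟩⟩,.o ⟨false,1,⟨3,[(10,1),(2,0),
  (0,0),(16,2)]⟩,⟨0,[(0,0)]⟩⟩]⟩))))))) (.R ⟨0,false,false,true,[1,-1],[0,1],[1],(⟨0,[(20,0)]⟩,⟨0,
  [(21,0)]⟩),(⟨0,[(21,0)]⟩,⟨0,[(20,0)]⟩),⟨0,[(5,0),(0,0)]⟩,.k,.k,(.r (-1) ⟨4,[(3,3),(3,0),(0,0),(13,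
  1),(5,5)]⟩ ⟨0,[(0,1),(0,1)]⟩),(.r (-1) ⟨4,[(3,3),(3,0),(0,0),(13,1),(5,5)]⟩ ⟨0,[(0,1),(0,1)]⟩),.k,
  .k,⟨false,1,⟨0,[(3,0)]⟩,⟨10,[(1,3),(0,1),(19,2),(2,1),(1,6)]⟩⟩,⟨true,1,⟨0,[(0,0),(27,0)]⟩,⟨0,[(1,
  0)]⟩⟩,⟨true,0,⟨0,[(0,0),(0,0)]⟩,⟨0,[(26,0),(1,1)]⟩⟩,⟨false,1,⟨2,[(0,2),(0,1),(0,0),(22,0),(0,0)]⟩,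
  ⟨1,[(24,0),(3,3),(1,0)]⟩⟩,⟨false,0,⟨0,[]⟩,⟨0,[]⟩⟩,⟨false,0,⟨0,[]⟩,⟨0,[]⟩⟩,[.a ⟨true,0,⟨0,[(27,
  0)]⟩,⟨1,[(24,0),(3,1),(1,0)]⟩⟩ ⟨true,0,⟨0,[]⟩,⟨5,[(1,1),(5,0),(0,0),(16,0)]⟩⟩ ⟨false,1,⟨8,[(0,6),
  (1,0),(19,4),(2,0)]⟩,⟨0,[(1,0),(1,0)]⟩⟩,.o ⟨false,1,⟨8,[(0,0),(1,3),(19,1),(2,3)]⟩,⟨0,[(28,0)]⟩⟩,
  .o ⟨false,0,⟨5,[(1,1),(5,0),(0,0),(16,0)]⟩,⟨1,[(25,0),(3,0)]⟩⟩,.o ⟨false,0,⟨2,[(1,1),(5,0),(0,0),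
  (16,0)]⟩,⟨0,[(0,0),(27,0)]⟩⟩]⟩))

theorem ok2 : chk K t2 l2 = true := by decide +kernel

noncomputable def t3 : Tre :=
  (.Q [0,0,0,1,1,0,1,1,0,-1,1] (.p true [0,0,1] [1] (⟨0,[(19,0)]⟩,⟨0,[(18,0)]⟩) .k 1 (⟨0,[]⟩,⟨0,
  []⟩) .k .k) (.I [1,0,0,1,0,0,0,-1] (.I [0,-1,-1,-1,1,0,0,1] (.R ⟨0,false,false,true,[0,1,-1],[0,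
  1],[0,0,1],(⟨0,[(11,0)]⟩,⟨0,[(22,0),(2,0)]⟩),(⟨0,[(26,0)]⟩,⟨0,[(25,0)]⟩),⟨0,[(22,0)]⟩,.k,.k,.k,.k,
  .k,.k,⟨false,1,⟨5,[(0,1),(3,1),(3,1),(3,0),(0,0),(16,0)]⟩,⟨0,[(32,0)]⟩⟩,⟨true,0,⟨0,[(5,0)]⟩,⟨0,
  [(20,0)]⟩⟩,⟨false,1,⟨1,[(0,1),(18,0),(0,0)]⟩,⟨0,[(1,0)]⟩⟩,⟨true,0,⟨0,[(17,0)]⟩,⟨0,[(3,0),(16,
  0)]⟩⟩,⟨false,0,⟨0,[]⟩,⟨0,[]⟩⟩,⟨false,0,⟨0,[]⟩,⟨0,[]⟩⟩,[.a ⟨true,0,⟨0,[(32,0)]⟩,⟨1,[(29,0),(3,1),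
  (1,0)]⟩⟩ ⟨true,0,⟨1,[(19,0),(0,0)]⟩,⟨0,[]⟩⟩ ⟨false,0,⟨0,[(5,0),(26,0)]⟩,⟨0,[(8,0),(11,0)]⟩⟩,.o
  ⟨false,1,⟨10,[(6,0),(0,4),(19,1),(2,4),(1,0)]⟩,⟨0,[(33,0)]⟩⟩,.o ⟨false,1,⟨7,[(6,1),(2,3),(20,4),
  (3,0)]⟩,⟨0,[(19,0)]⟩⟩,.o ⟨false,1,⟨16,[(0,3),(6,1),(1,4),(8,3),(1,2),(6,0),(2,10)]⟩,⟨0,[(5,
  0)]⟩⟩]⟩) (.Q [0,-1,-1,1,1,0,-1,0,0,0,-1] (.p false [0,0,1] [] (⟨0,[(22,0)]⟩,⟨0,[(21,0)]⟩) .k 0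
  (⟨0,[]⟩,⟨0,[]⟩) .k .k) (.R ⟨0,false,false,false,[0,0,1],[0,1],[0,0,1],(⟨0,[(23,0)]⟩,⟨0,[(22,0)]⟩),
  (⟨0,[(27,0)]⟩,⟨0,[(26,0)]⟩),⟨0,[(12,0)]⟩,.k,.k,.k,.k,.k,.k,⟨true,0,⟨0,[(34,0)]⟩,⟨3,[(1,1),(1,1),
  (17,1),(8,0),(5,0)]⟩⟩,⟨false,1,⟨7,[(7,1),(2,3),(20,0),(3,4)]⟩,⟨0,[(20,0)]⟩⟩,⟨false,0,⟨0,[(1,0),
  (32,0),(1,0)]⟩,⟨1,[(3,0),(5,0),(0,0),(7,0)]⟩⟩,⟨true,0,⟨1,[(0,0),(0,0),(2,0),(16,0)]⟩,⟨0,[(18,0),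
  (15,0)]⟩⟩,⟨false,0,⟨0,[]⟩,⟨0,[]⟩⟩,⟨false,0,⟨0,[]⟩,⟨0,[]⟩⟩,[.o ⟨false,1,⟨10,[(7,0),(0,4),(19,1),(2,
  4),(1,0)]⟩,⟨0,[(34,0)]⟩⟩,.e ⟨false,1,⟨1,[(13,0),(0,0),(21,0)]⟩,⟨9,[(1,1),(5,2),(2,0),(7,1),(9,2),
  (1,0),(3,1)]⟩⟩ ⟨false,1,⟨0,[(0,0)]⟩,⟨1,[(6,0),(13,0),(7,0),(5,1)]⟩⟩,.a ⟨true,0,⟨0,[(6,0)]⟩,⟨51,
  [(5,7),(2,3),(1,29),(7,7),(5,3),(1,3),(1,1),(1,4),(4,0)]⟩⟩ ⟨true,0,⟨1,[(20,0),(0,0)]⟩,⟨9,[(1,1),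
  (5,2),(2,0),(7,1),(9,2),(1,0),(3,1)]⟩⟩ ⟨false,1,⟨5,[(0,1),(7,1),(1,1),(20,0),(4,0)]⟩,⟨0,[(6,0),
  (27,0)]⟩⟩,.e ⟨false,1,⟨1,[(13,0),(0,0),(21,0)]⟩,⟨0,[]⟩⟩ ⟨false,1,⟨0,[(0,0)]⟩,⟨0,[(20,0),(13,
  0)]⟩⟩]⟩) (.I [0,0,1,0,0,0,-1] (.I [0,0,0,0,1,0,0,0,-1] (.I [-1,0,0,0,1,-2] (.I [0,0,-1,0,0,1,-1]
  (.I [0,1,1,0,0,0,0,1] (.I [0,1,0,0,0,1,1,1] (.I [0,0,-1,1,1,0,0,1] (.I [0,0,0,1,1,0,1,1] (.I [0,1,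
  -2,-1,0,0,1] (.I [0,1,2,-1,-1] (.I [0,0,-3,0,1,-1] (.I [0,0,-3,0,1,0,0,0,1] (.I [0,0,1,1,1,-1,0,
  1] (.I [0,1,1,-1,-1,1,1] (.I [3,0,-6,0,1] (.C [(0,1),(4,3),(10,1),(1,1),(17,1),(8,0),(5,2)]) (.C
  [(0,0),(21,1),(22,0)])) (.C [(0,0),(13,0),(11,0)])) (.C [(0,0),(15,0),(17,0),(4,0)])) (.C [(0,0),
  (18,0),(6,0),(0,0)])) (.C [(0,0),(17,0),(18,0)])) (.C [(0,0),(9,0),(20,0)])) (.C [(0,0),(8,0),(6,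
  0),(4,0),(13,0)])) (.C [(0,0),(10,0),(8,0),(13,0)])) (.C [(0,0),(9,0),(13,0)])) (.C [(0,0),(5,0),
  (2,0),(8,0),(4,0)])) (.C [(0,0),(4,0),(2,0),(13,0),(3,0)])) (.C [(0,0),(14,0),(5,0)])) (.C [(0,0),
  (28,1),(4,0)])) (.C [(0,0),(14,0),(2,0)])) (.C [(0,0),(11,0),(9,0),(4,0)])))) (.R ⟨0,false,false,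
  false,[1,-1],[1,-1,1],[1,1],(⟨0,[(24,0)]⟩,⟨0,[(25,0)]⟩),(⟨0,[(21,0),(2,0)]⟩,⟨0,[(10,0)]⟩),⟨0,[(9,
  0),(0,0)]⟩,.k,.k,(.r 0 ⟨0,[(0,1),(1,1)]⟩ ⟨1,[(6,1),(11,0),(0,0),(16,1)]⟩),.k,.k,.k,⟨false,0,⟨1,
  [(2,1),(15,0),(0,0),(11,1)]⟩,⟨5,[(0,3),(0,0),(5,2),(0,0),(7,0),(17,1)]⟩⟩,⟨true,0,⟨0,[(4,0)]⟩,⟨0,
  [(19,0)]⟩⟩,⟨true,0,⟨1,[(18,0),(0,0),(11,1)]⟩,⟨0,[(0,0),(1,0)]⟩⟩,⟨false,1,⟨0,[(16,0),(17,0)]⟩,⟨0,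
  [(2,0),(16,0)]⟩⟩,⟨false,0,⟨0,[]⟩,⟨0,[]⟩⟩,⟨false,0,⟨0,[]⟩,⟨0,[]⟩⟩,[.o ⟨false,0,⟨0,[(0,0),(3,0)]⟩,
  ⟨6,[(2,4),(3,2),(1,0),(8,1),(1,2),(9,3),(0,0)]⟩⟩,.a ⟨true,0,⟨1,[(0,1),(3,1),(23,0),(5,0)]⟩,⟨0,[(2,
  0),(16,0),(11,0)]⟩⟩ ⟨true,0,⟨0,[]⟩,⟨1,[(18,0),(0,0)]⟩⟩ ⟨false,1,⟨9,[(0,7),(0,1),(2,7),(0,3),(1,3),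
  (20,2),(5,2)]⟩,⟨1,[(2,1),(15,0),(0,2),(11,1)]⟩⟩,.o ⟨false,0,⟨1,[(18,0),(0,0)]⟩,⟨1,[(29,0),(3,
  0)]⟩⟩,.o ⟨false,0,⟨0,[(18,0),(0,0)]⟩,⟨3,[(5,1),(23,0),(3,0)]⟩⟩]⟩)) (.I [1,-1,0,0,0,0,0,-1] (.R ⟨2,
  true,false,false,[0,1],[1,0,-1],[0,1,1],(⟨0,[]⟩,⟨0,[]⟩),(⟨0,[(20,0)]⟩,⟨0,[(21,0)]⟩),⟨0,[]⟩,.k,.k,
  .k,.k,.k,.k,⟨true,0,⟨0,[(16,0),(2,0)]⟩,⟨0,[(0,0)]⟩⟩,⟨false,0,⟨51,[(3,7),(2,3),(1,29),(7,7),(5,3),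
  (1,3),(1,1),(1,4),(4,0)]⟩,⟨1,[(4,1),(24,0),(3,0)]⟩⟩,⟨false,0,⟨0,[(32,0)]⟩,⟨2,[(6,1),(0,0)]⟩⟩,
  ⟨true,(-1),⟨0,[(1,0)]⟩,⟨10,[(5,0),(0,4),(9,10),(9,1),(2,4),(1,0)]⟩⟩,⟨true,0,⟨0,[(36,0)]⟩,⟨0,[]⟩⟩,
  ⟨false,0,⟨7,[(1,4),(0,1),(0,0),(2,2),(1,0),(6,0),(18,1)]⟩,⟨1,[(16,1),(12,0),(4,0)]⟩⟩,[]⟩) (.R ⟨2,
  true,false,false,[0,1],[1,0,-1],[0,0,1,0,0,0,0,-1],(⟨0,[]⟩,⟨0,[]⟩),(⟨0,[(20,0)]⟩,⟨0,[(21,0)]⟩),⟨0,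
  []⟩,.k,.k,.k,.k,.k,.k,⟨true,0,⟨1,[(18,0),(0,0)]⟩,⟨0,[]⟩⟩,⟨false,0,⟨51,[(3,7),(2,3),(1,29),(7,7),
  (5,3),(1,3),(1,1),(1,4),(4,0)]⟩,⟨1,[(4,1),(24,0),(3,0)]⟩⟩,⟨false,0,⟨1,[(1,1),(2,1),(24,0),(4,0)]⟩,
  ⟨2,[(0,2),(5,1),(0,0)]⟩⟩,⟨true,(-1),⟨0,[(1,0)]⟩,⟨10,[(5,0),(0,4),(9,10),(9,1),(2,4),(1,0)]⟩⟩,
  ⟨true,0,⟨6,[(1,1),(0,3),(3,0),(10,0),(0,2),(10,0)]⟩,⟨0,[(0,0)]⟩⟩,⟨false,0,⟨7,[(1,4),(0,1),(0,0),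
  (2,2),(1,0),(6,0),(18,1)]⟩,⟨1,[(16,1),(12,0),(4,0)]⟩⟩,[]⟩)))

theorem ok3 : chk K t3 l5 = true := by decide +kernel

noncomputable def t4 : Tre :=
  (.I [1,0,0,-1,0,0,0,1] (.Q [0,-1,-1,1,1,0,-1,0,0,0,-1] (.p false [0,0,1] [] (⟨0,[(24,0)]⟩,⟨0,[(23,
  0)]⟩) .k 0 (⟨0,[]⟩,⟨0,[]⟩) .k .k) (.R ⟨0,false,false,false,[0,0,1],[0,1],[1,0,1,1],(⟨0,[(25,0)]⟩,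
  ⟨0,[(24,0)]⟩),(⟨0,[(29,0)]⟩,⟨0,[(28,0)]⟩),⟨0,[(14,0)]⟩,.k,.k,.k,.k,.k,.k,⟨true,0,⟨0,[]⟩,⟨1,[(22,
  0),(0,0)]⟩⟩,⟨false,1,⟨7,[(9,1),(2,3),(20,0),(3,4)]⟩,⟨0,[(22,0)]⟩⟩,⟨true,0,⟨0,[(2,0)]⟩,⟨0,[(1,0),
  (32,0),(1,0)]⟩⟩,⟨false,1,⟨9,[(0,3),(1,2),(0,3),(3,2),(2,0),(1,0),(25,0)]⟩,⟨0,[(1,0),(6,0)]⟩⟩,
  ⟨false,0,⟨0,[]⟩,⟨0,[]⟩⟩,⟨false,0,⟨0,[]⟩,⟨0,[]⟩⟩,[.o ⟨false,1,⟨10,[(9,0),(0,4),(19,1),(2,4),(1,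
  0)]⟩,⟨0,[(36,0)]⟩⟩,.e ⟨false,1,⟨2,[(10,1),(0,0)]⟩,⟨0,[(34,0),(1,1)]⟩⟩ ⟨false,1,⟨0,[(0,0)]⟩,⟨1,[(8,
  0),(13,0),(7,0),(5,1)]⟩⟩,.a ⟨true,0,⟨0,[(8,0)]⟩,⟨51,[(7,7),(2,3),(1,29),(7,7),(5,3),(1,3),(1,1),
  (1,4),(4,0)]⟩⟩ ⟨true,0,⟨1,[(2,0),(2,0)]⟩,⟨0,[(34,0),(1,1)]⟩⟩ ⟨false,1,⟨5,[(0,1),(9,1),(1,1),(20,
  0),(4,0)]⟩,⟨0,[(8,0),(27,0)]⟩⟩,.e ⟨false,1,⟨2,[(10,1),(0,0)]⟩,⟨0,[(36,0)]⟩⟩ ⟨false,1,⟨0,[(0,0)]⟩,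
  ⟨0,[(22,0),(13,0)]⟩⟩]⟩) (.I [0,0,1,0,0,0,-1] (.I [0,0,0,0,1,0,0,0,-1] (.I [0,0,-1,0,0,1,-1] (.I
  [0,1,2,-1,-1] (.C [(0,0),(3,0),(1,0),(1,0),(4,1),(13,0),(8,0),(5,0)]) (.C [(0,0),(3,0),(22,0)]))
  (.C [(0,0),(15,0),(5,0)])) (.C [(0,0),(16,0),(2,0)])) (.C [(0,0),(13,0),(9,0),(4,0)]))) (.Q [0,0,
  0,-1,0,0,1,1,0,0,1] (.p true [0,0,1] [] (⟨0,[(24,0)]⟩,⟨0,[(23,0)]⟩) .k 0 (⟨0,[]⟩,⟨0,[]⟩) .k .k)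
  (.R ⟨0,false,false,false,[1,0,-1],[1,-1],[],(⟨0,[(24,0)]⟩,⟨0,[(25,0)]⟩),(⟨0,[(28,0)]⟩,⟨0,[(29,
  0)]⟩),⟨0,[(13,0)]⟩,.k,.k,.k,.k,.k,.k,⟨true,0,⟨1,[(2,0),(1,0)]⟩,⟨0,[(36,0)]⟩⟩,⟨false,0,⟨0,[(8,0)]⟩,
  ⟨3,[(12,1),(2,0),(0,0),(16,0),(3,1)]⟩⟩,⟨false,1,⟨2,[(6,2),(3,0),(0,1)]⟩,⟨0,[(1,0),(34,0)]⟩⟩,⟨true,
  0,⟨0,[(0,0)]⟩,⟨1,[(1,0),(19,0),(1,0),(10,0)]⟩⟩,⟨false,0,⟨0,[]⟩,⟨0,[]⟩⟩,⟨false,0,⟨0,[]⟩,⟨0,[]⟩⟩,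
  [.o ⟨false,0,⟨0,[(36,0)]⟩,⟨10,[(9,0),(0,4),(19,1),(2,4),(1,0)]⟩⟩,.e ⟨false,1,⟨2,[(10,0),(0,1)]⟩,
  ⟨0,[(40,0)]⟩⟩ ⟨false,1,⟨0,[(11,0),(10,0)]⟩,⟨0,[(23,0),(10,0)]⟩⟩,.a ⟨true,0,⟨51,[(7,7),(2,3),(1,
  29),(7,7),(5,3),(1,3),(1,1),(1,4),(4,0)]⟩,⟨0,[(8,0)]⟩⟩ ⟨false,1,⟨1,[(15,0),(0,0),(21,0)]⟩,⟨0,[]⟩⟩
  ⟨true,0,⟨0,[(8,0),(27,0)]⟩,⟨0,[(23,0),(10,0)]⟩⟩,.o ⟨false,0,⟨0,[(23,0)]⟩,⟨1,[(8,1),(24,0),(3,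
  0)]⟩⟩]⟩) (.R ⟨0,false,false,true,[0,1,-1],[0,1],[1],(⟨0,[(14,0)]⟩,⟨0,[(25,0),(2,0)]⟩),(⟨0,[(29,
  0)]⟩,⟨0,[(28,0)]⟩),⟨0,[(25,0)]⟩,.k,.k,.k,.k,.k,.k,⟨false,1,⟨0,[(11,0)]⟩,⟨1,[(2,0),(2,0),(34,1)]⟩⟩,
  ⟨true,0,⟨0,[(8,0)]⟩,⟨0,[(23,0)]⟩⟩,⟨false,1,⟨0,[(6,0),(4,0)]⟩,⟨0,[(1,1),(2,0),(31,1)]⟩⟩,⟨true,0,⟨0,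
  [(20,0)]⟩,⟨0,[(0,0),(35,0)]⟩⟩,⟨false,0,⟨0,[]⟩,⟨0,[]⟩⟩,⟨false,0,⟨0,[]⟩,⟨0,[]⟩⟩,[.a ⟨true,0,⟨0,[(35,
  0)]⟩,⟨1,[(32,0),(3,1),(1,0)]⟩⟩ ⟨true,0,⟨0,[]⟩,⟨1,[(22,0),(0,0)]⟩⟩ ⟨false,0,⟨0,[(8,0),(26,0)]⟩,⟨0,
  [(11,0),(11,0)]⟩⟩,.o ⟨false,1,⟨10,[(9,0),(0,4),(19,1),(2,4),(1,0)]⟩,⟨0,[(36,0)]⟩⟩,.o ⟨false,1,⟨7,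
  [(9,1),(2,3),(20,4),(3,0)]⟩,⟨0,[(22,0)]⟩⟩,.o ⟨false,1,⟨3,[(12,1),(2,0),(0,0),(16,2)]⟩,⟨0,[(8,
  0)]⟩⟩]⟩)))

theorem ok4 : chk K t4 l9 = true := by decide +kernel

noncomputable def t5 : Tre :=
  (.I [0,1,1,1,0,0,0,-1] (.R ⟨0,false,false,true,[0,1,-1],[0,1],[1],(⟨0,[(13,0)]⟩,⟨0,[(24,0),(2,
  0)]⟩),(⟨0,[(28,0)]⟩,⟨0,[(27,0)]⟩),⟨0,[(24,0)]⟩,.k,.k,.k,.k,.k,.k,⟨false,1,⟨0,[(10,0)]⟩,⟨4,[(0,2),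
  (3,1),(0,0),(23,0)]⟩⟩,⟨true,0,⟨0,[(7,0)]⟩,⟨0,[(22,0)]⟩⟩,⟨true,0,⟨0,[(1,0)]⟩,⟨0,[(0,0)]⟩⟩,⟨false,0,
  ⟨1,[(1,0),(2,0),(2,1)]⟩,⟨8,[(2,4),(3,3),(3,0),(0,0),(2,0),(0,0),(6,1),(14,1)]⟩⟩,⟨false,0,⟨0,[]⟩,
  ⟨0,[]⟩⟩,⟨false,0,⟨0,[]⟩,⟨0,[]⟩⟩,[.a ⟨true,0,⟨0,[(34,0)]⟩,⟨5,[(1,1),(3,1),(0,3),(24,0),(5,0)]⟩⟩
  ⟨true,0,⟨0,[]⟩,⟨1,[(21,0),(0,0)]⟩⟩ ⟨false,0,⟨0,[(7,0),(26,0)]⟩,⟨0,[(10,0),(11,0)]⟩⟩,.o ⟨false,1,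
  ⟨10,[(8,0),(0,4),(19,1),(2,4),(1,0)]⟩,⟨0,[(35,0)]⟩⟩,.o ⟨false,1,⟨7,[(8,1),(2,3),(20,4),(3,0)]⟩,⟨0,
  [(21,0)]⟩⟩,.o ⟨false,1,⟨3,[(11,1),(2,0),(0,0),(16,2)]⟩,⟨0,[(7,0)]⟩⟩]⟩) (.I [0,1,2,1,0,0,0,-1] (.R
  ⟨0,false,false,true,[1,0,-1],[0,1,-1],[1],(⟨0,[(24,0)]⟩,⟨0,[(25,0)]⟩),(⟨0,[(14,0)]⟩,⟨0,[(25,0),(2,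
  0)]⟩),⟨0,[(13,0)]⟩,.k,.k,.k,.k,.k,.k,⟨true,0,⟨0,[(1,0)]⟩,⟨0,[(0,0)]⟩⟩,⟨false,1,⟨3,[(9,1),(23,0),
  (3,0)]⟩,⟨43,[(0,10),(5,15),(0,22),(2,5),(1,8),(7,17),(11,5)]⟩⟩,⟨true,0,⟨1,[(2,0),(2,0)]⟩,⟨0,[(8,
  0),(12,0)]⟩⟩,⟨false,1,⟨10,[(9,0),(0,4),(19,1),(2,4),(1,0)]⟩,⟨5,[(1,0),(4,2),(0,3),(3,0),(20,0)]⟩⟩,
  ⟨false,0,⟨0,[]⟩,⟨0,[]⟩⟩,⟨false,0,⟨0,[]⟩,⟨0,[]⟩⟩,[.o ⟨false,1,⟨19,[(0,3),(2,15),(8,1),(2,0),(0,0),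
  (13,7),(2,2)]⟩,⟨0,[(1,0),(20,0)]⟩⟩,.o ⟨false,1,⟨0,[(3,0)]⟩,⟨1,[(1,0),(18,0),(1,0),(13,0)]⟩⟩,.a
  ⟨true,0,⟨37,[(0,0),(6,4),(2,1),(1,21),(7,5),(5,2),(1,2),(3,3),(4,1)]⟩,⟨0,[(8,0)]⟩⟩ ⟨true,0,⟨0,[]⟩,
  ⟨6,[(0,0),(5,0),(23,2),(5,0)]⟩⟩ ⟨false,1,⟨0,[(3,0),(4,0)]⟩,⟨2,[(1,0),(4,2),(0,0),(3,0),(20,0)]⟩⟩,
  .o ⟨false,0,⟨0,[(23,0)]⟩,⟨1,[(8,1),(24,0),(3,0)]⟩⟩]⟩) (.Q [0,0,-1,0,1,0,1,0,0,-2,1] (.p true [-1,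
  1,1] [1] (⟨0,[(13,0)]⟩,⟨0,[(24,0),(3,0)]⟩) .k 1 (⟨0,[]⟩,⟨0,[]⟩) .k .k) (.I [1,0,-2,-2,0,0,0,-1]
  (.Q [0,0,2,0,-1,0,-2,0,0,2,-2] (.p false [0,0,1] [2,-1,-1] (⟨0,[(27,0)]⟩,⟨0,[(26,0)]⟩) .k 2 (⟨0,
  [(26,0),(3,0)]⟩,⟨0,[(15,0)]⟩) .k (.r 0 ⟨0,[(4,0),(2,0)]⟩ ⟨1,[(5,1),(3,1),(0,0),(13,0),(7,0)]⟩))
  (.Q [0,0,0,0,0,0,2,2,0,-1,2] (.p true [0,0,1] [1,0,-1] (⟨0,[(28,0)]⟩,⟨0,[(27,0)]⟩) .k 2 (⟨0,[(27,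
  0)]⟩,⟨0,[(28,0)]⟩) .k (.r 0 ⟨0,[(5,0),(2,0)]⟩ ⟨1,[(6,1),(3,1),(0,0),(13,0),(7,0)]⟩)) (.R ⟨0,false,
  false,false,[1,0,-1],[0,0,1],[1,0,0,0,0,0,0,1],(⟨0,[(28,0)]⟩,⟨0,[(29,0)]⟩),(⟨0,[(29,0)]⟩,⟨0,[(28,
  0)]⟩),⟨0,[(17,0)]⟩,.k,.k,.k,.k,.k,.k,⟨true,0,⟨0,[]⟩,⟨1,[(26,0),(0,0)]⟩⟩,⟨false,1,⟨1,[(3,0),(8,1),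
  (13,0),(14,0)]⟩,⟨0,[(16,0)]⟩⟩,⟨false,0,⟨0,[(5,0),(3,0)]⟩,⟨1,[(7,1),(3,1),(0,0),(13,0),(7,0)]⟩⟩,
  ⟨true,0,⟨0,[(0,0)]⟩,⟨48,[(1,6),(5,4),(3,23),(2,4),(8,9),(1,68),(10,2),(1,8)]⟩⟩,⟨false,0,⟨0,[]⟩,⟨0,
  []⟩⟩,⟨false,0,⟨0,[]⟩,⟨0,[]⟩⟩,[.e ⟨false,0,⟨8,[(4,4),(4,3),(24,1),(3,0)]⟩,⟨7,[(7,3),(3,3),(7,2),(0,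
  2),(5,3),(7,1),(6,0)]⟩⟩ ⟨false,1,⟨4,[(0,0),(2,1),(8,2),(1,0),(0,1),(8,2)]⟩,⟨74,[(1,41),(0,22),(1,
  2),(2,45),(3,8),(11,19),(12,3),(1,11)]⟩⟩,.o ⟨false,1,⟨2,[(0,0),(23,0),(12,0),(4,1)]⟩,⟨0,[(25,
  0)]⟩⟩,.a ⟨true,0,⟨1,[(1,0),(39,0)]⟩,⟨0,[(12,0)]⟩⟩ ⟨true,0,⟨1,[(6,0),(2,0)]⟩,⟨0,[(12,0),(12,0)]⟩⟩
  ⟨false,1,⟨2,[(0,0),(2,0),(8,0),(11,0),(1,0),(15,1)]⟩,⟨74,[(1,41),(0,22),(1,2),(2,45),(3,8),(11,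
  19),(12,3),(1,11)]⟩⟩,.o ⟨false,0,⟨0,[(27,0)]⟩,⟨1,[(3,0),(22,0),(14,0)]⟩⟩]⟩) (.R ⟨0,false,false,
  true,[1,0,-1],[-1,1,1],[1],(⟨0,[(28,0)]⟩,⟨0,[(29,0)]⟩),(⟨0,[(17,0)]⟩,⟨0,[(28,0),(3,0)]⟩),⟨0,[(17,
  0)]⟩,.k,.k,.k,(.r (-1) ⟨7,[(3,2),(3,3),(3,11),(14,0),(7,5),(2,0)]⟩ ⟨1,[(6,0),(2,2)]⟩),.k,.k,
  ⟨false,1,⟨2,[(2,2),(11,1),(0,0)]⟩,⟨0,[(9,0),(34,0)]⟩⟩,⟨true,1,⟨0,[(3,0),(8,0)]⟩,⟨0,[(1,0)]⟩⟩,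
  ⟨true,0,⟨1,[(6,0),(2,0)]⟩,⟨0,[(12,0),(12,0)]⟩⟩,⟨false,1,⟨2,[(3,2),(1,0),(3,3),(2,1),(11,0)]⟩,⟨2,
  [(0,1),(0,0),(9,1),(3,0)]⟩⟩,⟨false,0,⟨0,[]⟩,⟨0,[]⟩⟩,⟨false,0,⟨0,[]⟩,⟨0,[]⟩⟩,[.o ⟨false,1,⟨1,[(3,
  0),(5,0),(14,0),(12,0),(1,0)]⟩,⟨2,[(0,0),(4,0),(5,1),(15,0)]⟩⟩,.o ⟨false,1,⟨0,[(3,0),(5,0)]⟩,⟨29,
  [(0,9),(0,4),(9,9),(3,1),(3,2),(0,2),(13,5),(5,17)]⟩⟩,.a ⟨true,0,⟨1,[(1,0),(39,0)]⟩,⟨0,[(12,0)]⟩⟩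
  ⟨true,0,⟨0,[]⟩,⟨0,[(44,0)]⟩⟩ ⟨false,1,⟨0,[(3,0),(5,0),(2,0)]⟩,⟨2,[(0,0),(0,1),(9,0),(3,1)]⟩⟩,.o
  ⟨false,0,⟨0,[(27,0)]⟩,⟨1,[(3,0),(22,0),(14,0)]⟩⟩]⟩)) (.Q [0,0,0,0,0,0,2,2,0,-1,2] (.p true [0,0,
  1] [1,0,-1] (⟨0,[(28,0)]⟩,⟨0,[(27,0)]⟩) .k 2 (⟨0,[(27,0)]⟩,⟨0,[(28,0)]⟩) .k (.r 0 ⟨0,[(5,0),(2,
  0)]⟩ ⟨4,[(0,0),(5,2),(3,4),(2,0),(10,1),(0,2),(7,1)]⟩)) (.R ⟨0,false,false,false,[1,0,-1],[0,0,1],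
  [1,0,0,0,0,0,0,1],(⟨0,[(28,0)]⟩,⟨0,[(29,0)]⟩),(⟨0,[(29,0)]⟩,⟨0,[(28,0)]⟩),⟨0,[(17,0)]⟩,.k,.k,.k,
  .k,.k,.k,⟨true,0,⟨0,[]⟩,⟨1,[(26,0),(0,0)]⟩⟩,⟨false,1,⟨1,[(1,0),(24,1),(14,0)]⟩,⟨0,[(16,0)]⟩⟩,
  ⟨false,0,⟨0,[(5,0),(3,0)]⟩,⟨4,[(1,0),(5,2),(3,4),(2,0),(10,1),(0,2),(7,1)]⟩⟩,⟨true,0,⟨0,[(0,0)]⟩,
  ⟨3,[(7,0),(3,1),(4,0),(8,4),(10,0),(1,0),(4,0)]⟩⟩,⟨false,0,⟨0,[]⟩,⟨0,[]⟩⟩,⟨false,0,⟨0,[]⟩,⟨0,[]⟩⟩,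
  [.e ⟨false,0,⟨8,[(4,4),(4,3),(24,1),(3,0)]⟩,⟨19,[(1,0),(5,8),(3,10),(2,0),(4,8),(0,8),(5,6),(7,
  5)]⟩⟩ ⟨false,1,⟨1,[(1,0),(22,1),(17,0)]⟩,⟨1,[(4,0),(2,0),(3,0),(13,0),(1,1),(8,0),(1,0),(4,0)]⟩⟩,
  .o ⟨false,1,⟨2,[(0,0),(23,0),(12,0),(4,1)]⟩,⟨0,[(25,0)]⟩⟩,.a ⟨true,0,⟨51,[(11,7),(2,3),(1,29),(7,
  7),(5,3),(1,3),(1,1),(1,4),(4,0)]⟩,⟨0,[(12,0)]⟩⟩ ⟨true,0,⟨1,[(6,0),(2,0)]⟩,⟨0,[(12,0),(12,0)]⟩⟩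
  ⟨false,1,⟨11,[(0,3),(0,2),(22,3),(1,5),(10,0),(4,7)]⟩,⟨1,[(4,0),(2,0),(3,0),(13,0),(1,1),(8,0),(1,
  0),(4,0)]⟩⟩,.o ⟨false,0,⟨0,[(27,0)]⟩,⟨1,[(1,0),(17,0),(0,0)]⟩⟩]⟩) (.I [0,0,0,-1,0,0,0,-1] (.R ⟨0,
  false,false,false,[1,0,-1],[2,-1,-1],[1],(⟨0,[(29,0)]⟩,⟨0,[(30,0)]⟩),(⟨0,[(29,0),(3,0)]⟩,⟨0,[(18,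
  0)]⟩),⟨0,[(18,0)]⟩,.k,.k,.k,.k,.k,.k,⟨true,0,⟨0,[(10,0)]⟩,⟨0,[(0,0)]⟩⟩,⟨false,0,⟨25,[(12,7),(2,3),
  (1,3),(7,7),(5,3),(1,3),(1,1),(1,4),(4,0)]⟩,⟨1,[(38,0),(3,0)]⟩⟩,⟨true,0,⟨1,[(7,0),(2,0)]⟩,⟨0,[(0,
  0),(39,0)]⟩⟩,⟨false,0,⟨5,[(6,0),(4,2),(0,3),(3,0),(20,0)]⟩,⟨10,[(14,0),(0,4),(19,1),(2,4),(1,
  0)]⟩⟩,⟨false,0,⟨0,[]⟩,⟨0,[]⟩⟩,⟨false,0,⟨0,[]⟩,⟨0,[]⟩⟩,[.o ⟨false,0,⟨5,[(0,3),(0,0),(10,1),(4,2),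
  (7,1)]⟩,⟨1,[(2,0),(7,1),(27,0)]⟩⟩,.o ⟨false,0,⟨2,[(1,0),(4,0),(5,1),(15,0)]⟩,⟨3,[(2,0),(7,1),(14,
  1),(12,2),(1,1)]⟩⟩,.a ⟨true,0,⟨51,[(12,7),(2,3),(1,29),(7,7),(5,3),(1,3),(1,1),(1,4),(4,0)]⟩,⟨0,
  [(13,0)]⟩⟩ ⟨true,0,⟨0,[]⟩,⟨0,[(45,0)]⟩⟩ ⟨false,0,⟨0,[(12,0)]⟩,⟨1,[(10,1),(27,0),(3,0)]⟩⟩,.o
  ⟨false,0,⟨0,[(28,0)]⟩,⟨1,[(2,0),(17,0),(0,0)]⟩⟩]⟩) (.I [0,0,2,0,-1,2,-1] (.Q [0,0,2,0,-1,0,-1,0,0,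
  2,-1] (.p false [-1,1,1] [1] (⟨0,[(19,0)]⟩,⟨0,[(30,0),(3,0)]⟩) .k 1 (⟨0,[]⟩,⟨0,[]⟩) .k .k) (.K ⟨0,
  [2,-1,-1],(-1),(-1),(⟨0,[(31,0),(3,0)]⟩,⟨0,[(20,0)]⟩),.k,(.x 1 ⟨0,[(1,0)]⟩ ⟨1,[(4,0),(26,1),(3,3),
  (4,1),(3,0)]⟩),.k,(.r (-1) ⟨15,[(4,2),(5,7),(3,23),(14,1),(7,11),(2,4)]⟩ ⟨0,[(2,0),(10,0)]⟩),.k,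
  [⟨3,[(4,2),(24,1),(10,0)]⟩,⟨0,[(0,0)]⟩,⟨3,[(4,0),(7,1),(14,1),(12,2),(1,1)]⟩,⟨14,[(0,11),(4,10),
  (9,0),(12,3),(8,1),(1,2),(2,6)]⟩]⟩) (.Q [0,-1,1,0,0,0,0,0,-1,1,0,-1] (.p false [0,0,0,0,1] [1]
  (⟨0,[(25,0)]⟩,⟨0,[(24,0)]⟩) .k 1 (⟨0,[]⟩,⟨0,[]⟩) .k .k) (.R ⟨0,false,false,false,[-1,1,1],[0,0,0,
  0,1],[1,1],(⟨0,[(21,0)]⟩,⟨0,[(32,0),(3,0)]⟩),(⟨0,[(26,0)]⟩,⟨0,[(25,0)]⟩),⟨0,[(32,0)]⟩,.k,.k,.k,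
  (.r (-1) ⟨2,[(14,2),(3,1),(0,0)]⟩ ⟨3,[(6,1),(9,0),(12,1),(0,0),(7,0)]⟩),.k,.k,⟨true,0,⟨0,[]⟩,⟨1,
  [(30,0),(0,0)]⟩⟩,⟨false,0,⟨51,[(15,7),(2,3),(1,29),(3,51),(3,7),(5,3),(1,3),(1,1),(1,4),(4,0)]⟩,
  ⟨3,[(0,3),(0,1),(3,0),(32,1),(2,0)]⟩⟩,⟨true,0,⟨3,[(6,1),(9,0),(12,1),(0,0),(7,0)]⟩,⟨0,[(12,0)]⟩⟩,
  ⟨false,0,⟨5,[(4,2),(10,1),(4,0),(3,5),(3,1),(15,3)]⟩,⟨0,[(0,0),(0,0),(11,0)]⟩⟩,⟨false,0,⟨0,[]⟩,⟨0,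
  []⟩⟩,⟨false,0,⟨0,[]⟩,⟨0,[]⟩⟩,[.e ⟨false,0,⟨11,[(6,0),(1,0),(29,4),(3,2)]⟩,⟨1,[(23,0),(0,0),(21,
  0)]⟩⟩ ⟨false,0,⟨1,[(4,0),(15,0),(3,1),(3,1)]⟩,⟨0,[(0,0),(0,0)]⟩⟩,.a ⟨true,0,⟨0,[(24,0)]⟩,⟨11,[(0,
  11),(5,0),(1,0),(29,4),(3,2)]⟩⟩ ⟨true,0,⟨0,[]⟩,⟨1,[(30,0),(0,0)]⟩⟩ ⟨false,0,⟨51,[(15,7),(2,3),(1,
  29),(3,51),(3,7),(5,3),(1,3),(1,1),(1,4),(4,0)]⟩,⟨3,[(0,3),(0,1),(3,0),(32,1),(2,0)]⟩⟩,.o ⟨false,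
  1,⟨0,[(7,0)]⟩,⟨11,[(2,0),(1,4),(9,8),(0,1),(2,0),(1,1),(7,2),(3,0),(3,1)]⟩⟩,.o ⟨false,1,⟨3,[(5,0),
  (24,1),(10,2)]⟩,⟨51,[(15,7),(2,3),(1,29),(7,7),(5,3),(1,3),(1,1),(1,4),(4,0)]⟩⟩]⟩) (.Q [0,1,0,0,0,
  0,1,1,0,-1,1] (.p true [0,0,1] [1] (⟨0,[(33,0)]⟩,⟨0,[(32,0)]⟩) .k 1 (⟨0,[]⟩,⟨0,[]⟩) .k .k) (.R ⟨0,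
  false,false,true,[1,0,-1],[0,0,1],[0,1,1,0,0,0,0,1],(⟨0,[(33,0)]⟩,⟨0,[(34,0)]⟩),(⟨0,[(34,0)]⟩,⟨0,
  [(33,0)]⟩),⟨0,[(22,0)]⟩,.k,.k,.k,.k,.k,.k,⟨true,0,⟨1,[(31,0),(0,0)]⟩,⟨0,[]⟩⟩,⟨false,1,⟨1,[(6,0),
  (24,1),(14,0)]⟩,⟨0,[(21,0)]⟩⟩,⟨false,0,⟨1,[(11,0),(2,0),(0,1)]⟩,⟨2,[(5,1),(0,1),(9,1),(2,0)]⟩⟩,
  ⟨true,0,⟨2,[(0,2),(9,0),(3,0),(2,1),(11,0)]⟩,⟨0,[(5,0)]⟩⟩,⟨false,0,⟨0,[]⟩,⟨0,[]⟩⟩,⟨false,0,⟨0,[]⟩,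
  ⟨0,[]⟩⟩,[.o ⟨false,0,⟨0,[(0,0)]⟩,⟨3,[(5,1),(18,0),(0,0),(16,0),(4,1)]⟩⟩,.e ⟨false,0,⟨2,[(4,0),(6,
  0),(3,0)]⟩,⟨23,[(6,3),(5,7),(3,15),(2,3),(4,2),(0,2),(13,9),(6,4)]⟩⟩ ⟨false,1,⟨1,[(6,0),(22,1),
  (17,0)]⟩,⟨1,[(5,0),(15,0)]⟩⟩,.a ⟨true,0,⟨51,[(16,7),(2,3),(1,29),(7,7),(5,3),(1,3),(1,1),(1,4),(4,
  0)]⟩,⟨0,[(17,0)]⟩⟩ ⟨false,0,⟨0,[(15,0)]⟩,⟨2,[(5,0),(0,0),(9,0),(2,0),(0,0)]⟩⟩ ⟨true,0,⟨0,[(0,0),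
  (16,0)]⟩,⟨1,[(5,0),(15,0)]⟩⟩,.o ⟨false,0,⟨0,[(32,0)]⟩,⟨1,[(6,0),(17,0),(0,0)]⟩⟩]⟩) (.Q [0,-1,0,-1,
  0,0,0,0,-1,1,0,-1] (.p false [0,0,0,0,1] [1] (⟨0,[(27,0)]⟩,⟨0,[(26,0)]⟩) .k 1 (⟨0,[]⟩,⟨0,[]⟩) .k
  .k) (.R ⟨2,true,false,true,[0,1],[1,0,0,0,-1],[1],(⟨0,[]⟩,⟨0,[]⟩),(⟨0,[(27,0)]⟩,⟨0,[(28,0)]⟩),⟨0,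
  []⟩,.k,.k,.k,(.r 0 ⟨1,[(32,0),(0,0),(11,1)]⟩ ⟨3,[(21,1),(3,0),(0,0),(19,1),(1,0)]⟩),.k,.k,⟨true,0,
  ⟨0,[]⟩,⟨1,[(32,0),(0,0)]⟩⟩,⟨false,0,⟨0,[(0,0),(44,0)]⟩,⟨1,[(26,1),(16,0),(3,0)]⟩⟩,⟨true,0,⟨2,[(8,
  0),(3,0)]⟩,⟨1,[(32,0),(0,0),(11,1)]⟩⟩,⟨false,0,⟨0,[(0,0)]⟩,⟨11,[(2,1),(17,5),(5,9),(13,1),(2,4),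
  (3,0)]⟩⟩,⟨false,1,⟨2,[(20,0),(0,1)]⟩,⟨1,[(32,0),(0,0)]⟩⟩,⟨true,0,⟨0,[(0,0),(44,0)]⟩,⟨1,[(2,1),(29,
  0),(0,0)]⟩⟩,[]⟩) (.Q [0,0,1,0,-1,0,0,0,1,0,0,1] (.p true [0,0,0,0,1] [] (⟨0,[(28,0)]⟩,⟨0,[(27,
  0)]⟩) .k 0 (⟨0,[]⟩,⟨0,[]⟩) .k .k) (.K ⟨0,[0,0,0,0,1],(-1),(-1),(⟨0,[(29,0)]⟩,⟨0,[(28,0)]⟩),.k,(.r
  0 ⟨5,[(9,0),(3,0),(27,2),(5,2)]⟩ ⟨3,[(21,1),(4,0),(0,0),(5,0),(0,0),(14,0)]⟩),(.r 0 ⟨1,[(33,0),(0,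
  0),(11,1)]⟩ ⟨3,[(22,1),(3,0),(0,0),(19,1),(1,0)]⟩),.k,.k,[⟨0,[(19,0),(6,0)]⟩,⟨0,[(0,0)]⟩,⟨0,[(26,
  0)]⟩,⟨0,[(0,0),(40,0)]⟩]⟩) (.Q [0,0,0,0,0,0,1,0,1,-1,1,1] (.p true [0,0,1] [1,0,0,0,-1] (⟨0,[(36,
  0)]⟩,⟨0,[(35,0)]⟩) .k 2 (⟨0,[(28,0)]⟩,⟨0,[(29,0)]⟩) .k (.r 0 ⟨5,[(6,0),(6,0),(3,3),(23,2)]⟩ ⟨7,
  [(8,0),(5,1),(3,5),(2,1),(4,1),(0,1),(16,0)]⟩)) (.Q [0,0,2,0,-1,0,0,0,1,0,0,1] (.p true [0,0,0,0,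
  1] [] (⟨0,[(30,0)]⟩,⟨0,[(29,0)]⟩) .k 0 (⟨0,[]⟩,⟨0,[]⟩) .k .k) (.R ⟨0,false,false,true,[1,-1],[1,0,
  0,0,-1],[1,1],(⟨0,[(41,0)]⟩,⟨0,[(42,0)]⟩),(⟨0,[(30,0)]⟩,⟨0,[(31,0)]⟩),⟨2,[(6,0),(0,0),(19,0),(16,
  0)]⟩,.k,.k,(.r 0 ⟨2,[(11,1),(3,1)]⟩ ⟨1,[(0,0),(22,1),(4,0),(24,1)]⟩),(.r 0 ⟨5,[(11,0),(3,0),(27,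
  2),(5,2)]⟩ ⟨3,[(0,0),(22,1),(4,1),(0,0),(21,0)]⟩),.k,.k,⟨false,0,⟨11,[(11,0),(1,0),(29,4),(3,2)]⟩,
  ⟨1,[(28,0),(0,0),(21,0)]⟩⟩,⟨true,1,⟨0,[(2,0)]⟩,⟨0,[(0,0)]⟩⟩,⟨true,0,⟨1,[(0,0),(27,0),(19,1)]⟩,⟨2,
  [(11,0),(3,0)]⟩⟩,⟨false,2,⟨2,[(23,1),(0,0),(3,2)]⟩,⟨11,[(0,11),(10,4),(1,4),(29,0),(3,2)]⟩⟩,
  ⟨false,0,⟨0,[]⟩,⟨0,[]⟩⟩,⟨false,0,⟨0,[]⟩,⟨0,[]⟩⟩,[.o ⟨false,1,⟨0,[(28,0)]⟩,⟨7,[(0,2),(0,1),(3,1),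
  (7,1),(2,1),(12,0),(16,0)]⟩⟩,.a ⟨true,1,⟨1,[(2,0),(25,0),(16,0),(5,0),(0,0)]⟩,⟨3,[(0,3),(10,0),(1,
  0),(29,0),(3,2)]⟩⟩ ⟨true,0,⟨0,[]⟩,⟨1,[(0,0),(27,0)]⟩⟩ ⟨false,2,⟨2,[(2,2),(20,0),(0,1)]⟩,⟨11,[(0,
  11),(10,0),(1,0),(29,4),(3,2)]⟩⟩,.o ⟨false,0,⟨1,[(0,0),(27,0)]⟩,⟨1,[(46,0),(3,0)]⟩⟩,.o ⟨false,0,
  ⟨0,[(0,0),(27,0)]⟩,⟨3,[(22,1),(23,0),(3,0)]⟩⟩]⟩) (.Q [0,0,0,0,0,0,0,0,1,-1,0,1] (.p true [0,0,0,0,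
  1] [1] (⟨0,[(31,0)]⟩,⟨0,[(30,0)]⟩) .k 1 (⟨0,[]⟩,⟨0,[]⟩) .k .k) (.Q [0,0,0,0,0,1,0,0,0,-1,0,1]
  (.ed false [0,1,0,0,1] .k) (.R ⟨0,false,false,false,[-1,1,0,0,1],[0,0,0,0,1],[1,1],(⟨0,[(0,0)]⟩,
  ⟨0,[(32,0),(10,0)]⟩),(⟨0,[(33,0)]⟩,⟨0,[(32,0)]⟩),⟨0,[(32,0)]⟩,(.r 0 ⟨1,[(37,0),(0,0),(11,1)]⟩ ⟨3,
  [(26,1),(3,0),(0,0),(19,1),(1,0)]⟩),.k,.k,.k,.k,.k,⟨true,0,⟨0,[]⟩,⟨1,[(37,0),(0,0)]⟩⟩,⟨false,0,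
  ⟨25,[(22,7),(2,3),(1,3),(7,7),(5,3),(1,3),(1,1),(1,4),(4,0)]⟩,⟨1,[(48,0),(3,0)]⟩⟩,⟨true,0,⟨2,[(13,
  0),(3,0)]⟩,⟨1,[(37,0),(0,0),(11,1)]⟩⟩,⟨false,0,⟨5,[(16,0),(4,2),(0,3),(3,0),(20,0)]⟩,⟨21,[(8,0),
  (1,0),(7,0),(5,0),(0,9),(19,4),(2,8)]⟩⟩,⟨false,0,⟨0,[]⟩,⟨0,[]⟩⟩,⟨false,0,⟨0,[]⟩,⟨0,[]⟩⟩,[.e
  ⟨false,0,⟨11,[(13,0),(1,0),(29,4),(3,2)]⟩,⟨1,[(30,0),(0,0),(21,0)]⟩⟩ ⟨false,0,⟨30,[(11,13),(10,5),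
  (2,2),(1,2),(7,33),(5,1),(1,1),(1,2),(1,2)]⟩,⟨7,[(8,1),(6,1),(2,1),(29,0),(4,2)]⟩⟩,.o ⟨false,0,⟨0,
  [(1,0)]⟩,⟨0,[(30,0)]⟩⟩,.e ⟨false,0,⟨0,[]⟩,⟨1,[(30,0),(0,0),(21,0)]⟩⟩ ⟨false,0,⟨19,[(9,2),(1,4),(9,
  6),(0,5),(2,2),(9,8),(1,3),(1,2),(3,5)]⟩,⟨7,[(8,1),(6,1),(2,1),(29,0),(4,2)]⟩⟩,.a ⟨true,0,⟨0,[(1,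
  0)]⟩,⟨3,[(2,2),(27,0),(16,3),(6,5)]⟩⟩ ⟨true,0,⟨11,[(13,0),(1,0),(29,4),(3,2)]⟩,⟨1,[(37,0),(0,
  0)]⟩⟩ ⟨false,0,⟨25,[(22,7),(2,3),(1,3),(7,7),(5,3),(1,3),(1,1),(1,4),(4,0)]⟩,⟨1,[(48,0),(4,
  0)]⟩⟩]⟩) (.Q [0,1,0,0,-1,0,-1,0,1,0,-1,1] (.p true [1,0,-1,0,1] [1] (⟨0,[(33,0),(5,0)]⟩,⟨0,[(0,0),
  (27,0)]⟩) .k 1 (⟨0,[]⟩,⟨0,[]⟩) .k (.r 0 ⟨0,[(23,0),(12,0)]⟩ ⟨2,[(21,2),(3,0),(0,1)]⟩)) (.S ⟨1,0,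
  [0,2,1],[0,1,0,0,1],[0,1,1],(⟨231,[(23,23),(2,11),(1,11),(5,231),(1,23),(5,33),(3,5),(0,65),(0,
  14),(4,2)]⟩,⟨0,[(1,0)]⟩),⟨0,[(34,0)]⟩,(.r 0 ⟨1,[(38,0),(0,0),(11,1)]⟩ ⟨3,[(27,1),(3,0),(0,0),(19,
  1),(1,0)]⟩),.k,⟨true,0,⟨0,[(52,0)]⟩,⟨0,[(51,0)]⟩⟩,⟨false,0,⟨0,[(52,0)]⟩,⟨2,[(26,1),(0,0)]⟩⟩,
  ⟨false,1,⟨1,[(31,0),(0,0),(21,0)]⟩,⟨0,[]⟩⟩,⟨true,0,⟨0,[(56,0)]⟩,⟨0,[]⟩⟩,[.e ⟨false,0,⟨0,[(56,0)]⟩,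
  ⟨2,[(26,0),(0,1)]⟩⟩ ⟨false,0,⟨0,[(56,1)]⟩,⟨15,[(7,3),(5,1),(2,3),(8,1),(0,1),(21,0),(5,10)]⟩⟩,.a
  ⟨true,(-1),⟨0,[(0,0),(23,0)]⟩,⟨3,[(3,0),(27,2),(16,1),(5,1),(0,1)]⟩⟩ ⟨true,0,⟨1,[(38,0),(0,0)]⟩,
  ⟨0,[]⟩⟩ ⟨false,0,⟨0,[(56,0)]⟩,⟨2,[(26,0),(0,1)]⟩⟩,.o ⟨false,0,⟨3,[(0,0),(1,0),(1,0),(1,0),(0,0),
  (1,0),(6,0)]⟩,⟨1,[(31,1),(6,0),(0,0)]⟩⟩,.o ⟨false,0,⟨0,[(2,0)]⟩,⟨0,[(31,0)]⟩⟩]⟩) (.R ⟨0,false,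
  false,false,[0,0,1],[0,0,0,0,1],[1,1],(⟨0,[(41,0)]⟩,⟨0,[(40,0)]⟩),(⟨0,[(34,0)]⟩,⟨0,[(33,0)]⟩),⟨0,
  [(30,0)]⟩,.k,.k,.k,.k,.k,.k,⟨true,0,⟨0,[]⟩,⟨1,[(38,0),(0,0)]⟩⟩,⟨false,0,⟨3,[(6,1),(5,0),(3,1),(11,
  0),(3,1)]⟩,⟨2,[(0,1),(30,0),(6,0),(7,0)]⟩⟩,⟨true,0,⟨0,[(24,0),(12,0)]⟩,⟨2,[(11,0),(6,0),(3,0)]⟩⟩,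
  ⟨false,0,⟨1,[(2,0),(9,0),(19,0)]⟩,⟨6,[(0,5),(15,1),(4,1),(0,1),(8,0),(4,0)]⟩⟩,⟨false,0,⟨0,[]⟩,⟨0,
  []⟩⟩,⟨false,0,⟨0,[]⟩,⟨0,[]⟩⟩,[.e ⟨false,0,⟨11,[(14,0),(1,0),(29,4),(3,2)]⟩,⟨1,[(31,0),(0,0),(21,
  0)]⟩⟩ ⟨false,0,⟨4,[(8,2),(19,1),(3,1),(2,0),(10,0)]⟩,⟨0,[(0,0)]⟩⟩,.o ⟨false,0,⟨0,[(2,0)]⟩,⟨0,[(31,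
  0)]⟩⟩,.e ⟨false,0,⟨0,[]⟩,⟨1,[(31,0),(0,0),(21,0)]⟩⟩ ⟨false,0,⟨1,[(2,0),(25,0),(3,0)]⟩,⟨0,[(0,
  0)]⟩⟩,.a ⟨true,0,⟨0,[(38,0)]⟩,⟨0,[(35,0)]⟩⟩ ⟨true,0,⟨11,[(14,0),(1,0),(29,4),(3,2)]⟩,⟨1,[(38,0),
  (0,0)]⟩⟩ ⟨false,0,⟨3,[(6,1),(5,0),(3,1),(11,0),(3,1)]⟩,⟨1,[(0,1),(37,0),(0,0)]⟩⟩]⟩))) (.K ⟨0,[1,0,
  0,0,-1],0,0,(⟨0,[(31,0)]⟩,⟨0,[(32,0)]⟩),.k,(.r (-1) ⟨3,[(25,1),(3,0),(0,0),(19,1),(1,0)]⟩ ⟨1,[(36,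
  0),(0,0),(11,1)]⟩),(.r (-1) ⟨3,[(24,1),(4,0),(0,0),(5,0),(0,0),(14,0)]⟩ ⟨5,[(12,0),(3,0),(27,2),
  (5,2)]⟩),.k,.k,[⟨0,[(2,0)]⟩,⟨1,[(0,1),(35,0),(0,0)]⟩,⟨0,[(2,0),(34,0),(6,0)]⟩,⟨0,[(0,0)]⟩]⟩)))
  (.Q [0,0,1,0,0,0,1,0,1,-1,1,1] (.p true [0,0,1] [1,0,0,0,-1] (⟨0,[(37,0)]⟩,⟨0,[(36,0)]⟩) .k 2 (⟨0,
  [(29,0)]⟩,⟨0,[(30,0)]⟩) .k (.r 0 ⟨5,[(7,0),(6,0),(3,3),(23,2)]⟩ ⟨7,[(9,0),(5,1),(3,5),(2,1),(4,1),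
  (0,1),(16,0)]⟩)) (.R ⟨0,false,false,true,[0,0,1],[1,0,0,0,-1],[1,1],(⟨0,[(38,0)]⟩,⟨0,[(37,0)]⟩),
  (⟨0,[(30,0)]⟩,⟨0,[(31,0)]⟩),⟨0,[(27,0)]⟩,.k,.k,.k,.k,.k,.k,⟨false,0,⟨11,[(11,0),(1,0),(29,4),(3,
  2)]⟩,⟨1,[(28,0),(0,0),(21,0)]⟩⟩,⟨true,0,⟨0,[(1,0)]⟩,⟨0,[(0,0)]⟩⟩,⟨true,0,⟨0,[(21,0),(12,0)]⟩,⟨2,
  [(8,0),(6,0),(3,0)]⟩⟩,⟨false,1,⟨0,[(4,0),(23,0)]⟩,⟨3,[(0,2),(2,0),(9,1),(4,0),(14,0)]⟩⟩,⟨false,0,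
  ⟨0,[]⟩,⟨0,[]⟩⟩,⟨false,0,⟨0,[]⟩,⟨0,[]⟩⟩,[.a ⟨true,0,⟨0,[(1,0),(19,0)]⟩,⟨0,[(29,0)]⟩⟩ ⟨false,0,⟨11,
  [(11,0),(1,0),(29,4),(3,2)]⟩,⟨1,[(28,0),(0,0),(21,0)]⟩⟩ ⟨true,0,⟨0,[(1,0)]⟩,⟨0,[(0,0)]⟩⟩,.o
  ⟨false,1,⟨3,[(1,3),(8,0),(24,1),(10,0),(4,1)]⟩,⟨4,[(0,1),(4,2),(30,1),(6,0)]⟩⟩,.a ⟨true,0,⟨0,[(21,
  0)]⟩,⟨51,[(20,7),(2,3),(1,29),(7,7),(5,3),(1,3),(1,1),(1,4),(4,0)]⟩⟩ ⟨false,0,⟨0,[]⟩,⟨1,[(28,0),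
  (0,0),(21,0)]⟩⟩ ⟨true,0,⟨0,[(1,0)]⟩,⟨9,[(0,7),(4,1),(4,0),(32,3),(1,0)]⟩⟩,.a ⟨true,0,⟨0,[(35,0)]⟩,
  ⟨0,[(32,0)]⟩⟩ ⟨true,0,⟨11,[(11,0),(1,0),(29,4),(3,2)]⟩,⟨1,[(35,0),(0,0)]⟩⟩ ⟨false,1,⟨2,[(1,2),(21,
  0),(0,1)]⟩,⟨0,[(0,0)]⟩⟩]⟩) (.Q [0,0,0,0,0,0,0,0,0,0,-1,1] (.ed false [1,0,-1,0,1] (.r 0 ⟨0,[(21,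
  0),(12,0)]⟩ ⟨2,[(19,2),(3,0),(0,1)]⟩)) (.R ⟨0,false,false,false,[-1,1,0,0,1],[0,0,0,0,1],[1,1],
  (⟨0,[(0,0),(26,0)]⟩,⟨0,[(31,0),(10,0)]⟩),(⟨0,[(32,0)]⟩,⟨0,[(31,0)]⟩),⟨0,[(31,0)]⟩,(.r 0 ⟨1,[(36,
  0),(0,0),(11,1)]⟩ ⟨3,[(25,1),(3,0),(0,0),(19,1),(1,0)]⟩),.k,.k,.k,.k,.k,⟨true,0,⟨0,[]⟩,⟨1,[(36,0),
  (0,0)]⟩⟩,⟨false,0,⟨25,[(21,7),(2,3),(1,3),(7,7),(5,3),(1,3),(1,1),(1,4),(4,0)]⟩,⟨1,[(47,0),(3,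
  0)]⟩⟩,⟨true,0,⟨2,[(12,0),(3,0)]⟩,⟨1,[(36,0),(0,0),(11,1)]⟩⟩,⟨false,0,⟨5,[(15,0),(4,2),(0,3),(3,0),
  (20,0)]⟩,⟨21,[(7,0),(1,0),(7,0),(5,0),(0,9),(19,4),(2,8)]⟩⟩,⟨false,0,⟨0,[]⟩,⟨0,[]⟩⟩,⟨false,0,⟨0,
  []⟩,⟨0,[]⟩⟩,[.o ⟨false,0,⟨0,[(4,0),(45,0)]⟩,⟨3,[(2,3),(8,0),(24,1),(10,0),(4,1)]⟩⟩,.a ⟨true,0,⟨0,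
  [(30,0)]⟩,⟨0,[(2,0),(19,0)]⟩⟩ ⟨true,0,⟨0,[]⟩,⟨1,[(36,0),(0,0)]⟩⟩ ⟨false,0,⟨25,[(21,7),(2,3),(1,3),
  (7,7),(5,3),(1,3),(1,1),(1,4),(4,0)]⟩,⟨1,[(47,0),(3,0)]⟩⟩,.o ⟨false,1,⟨1,[(6,1),(40,0),(4,0)]⟩,⟨0,
  [(2,0),(33,0)]⟩⟩,.o ⟨false,1,⟨0,[(30,0),(16,0)]⟩,⟨0,[(2,0),(19,0)]⟩⟩]⟩) (.R ⟨0,false,false,true,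
  [0,0,1,0,-1],[1,0,0,0,-1],[1],(⟨0,[(0,0)]⟩,⟨0,[(32,0),(5,0)]⟩),(⟨0,[(31,0)]⟩,⟨0,[(32,0)]⟩),⟨0,
  [(28,0),(3,0)]⟩,.k,.k,(.r 0 ⟨0,[(14,0),(38,0)]⟩ ⟨6,[(10,0),(6,0),(6,2),(4,2),(0,2),(4,3),(0,6),(7,
  2)]⟩),.k,.k,.k,⟨true,0,⟨0,[]⟩,⟨1,[(36,0),(0,0)]⟩⟩,⟨false,0,⟨0,[(33,0)]⟩,⟨3,[(11,0),(17,1),(0,1),
  (5,1),(10,0)]⟩⟩,⟨true,0,⟨0,[(22,0),(12,0)]⟩,⟨2,[(9,0),(6,0),(3,0)]⟩⟩,⟨false,0,⟨30,[(10,13),(10,5),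
  (2,2),(1,2),(7,2),(5,1),(1,1),(1,2),(1,2)]⟩,⟨1,[(11,0),(8,1),(31,0)]⟩⟩,⟨false,0,⟨0,[]⟩,⟨0,[]⟩⟩,
  ⟨false,0,⟨0,[]⟩,⟨0,[]⟩⟩,[.a ⟨true,0,⟨0,[(2,0),(19,0)]⟩,⟨0,[(30,0)]⟩⟩ ⟨true,0,⟨0,[]⟩,⟨1,[(36,0),(0,
  0)]⟩⟩ ⟨false,0,⟨0,[(33,0)]⟩,⟨3,[(11,0),(17,1),(0,1),(5,1),(10,0)]⟩⟩,.o ⟨false,1,⟨3,[(2,3),(8,0),
  (24,1),(10,0),(4,1)]⟩,⟨0,[(4,0),(45,0)]⟩⟩,.o ⟨false,1,⟨1,[(2,1),(8,0),(24,1),(10,0)]⟩,⟨7,[(4,1),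
  (5,0),(3,1),(11,0),(3,5),(6,3)]⟩⟩,.o ⟨false,1,⟨3,[(2,3),(8,0),(24,5),(10,2)]⟩,⟨3,[(4,1),(5,0),(3,
  1),(11,0),(3,1)]⟩⟩]⟩))))))))) (.Q [0,1,0,0,0,0,1,1,0,-1,1] (.p true [0,0,1] [1] (⟨0,[(31,0)]⟩,⟨0,
  [(30,0)]⟩) .k 1 (⟨0,[]⟩,⟨0,[]⟩) .k .k) (.R ⟨0,false,false,true,[1,0,-1],[0,0,1],[0,1,1,0,0,0,0,1],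
  (⟨0,[(31,0)]⟩,⟨0,[(32,0)]⟩),(⟨0,[(32,0)]⟩,⟨0,[(31,0)]⟩),⟨0,[(20,0)]⟩,.k,.k,.k,.k,.k,.k,⟨true,0,⟨1,
  [(29,0),(0,0)]⟩,⟨0,[]⟩⟩,⟨false,1,⟨1,[(4,0),(24,1),(14,0)]⟩,⟨0,[(19,0)]⟩⟩,⟨false,0,⟨1,[(9,0),(2,0),
  (0,1)]⟩,⟨2,[(3,1),(0,1),(9,1),(2,0)]⟩⟩,⟨true,0,⟨2,[(0,2),(7,0),(3,0),(2,1),(11,0)]⟩,⟨0,[(3,0)]⟩⟩,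
  ⟨false,0,⟨0,[]⟩,⟨0,[]⟩⟩,⟨false,0,⟨0,[]⟩,⟨0,[]⟩⟩,[.o ⟨false,0,⟨0,[(0,0)]⟩,⟨3,[(3,1),(18,0),(0,0),
  (16,0),(4,1)]⟩⟩,.e ⟨false,0,⟨2,[(2,0),(6,0),(3,0)]⟩,⟨23,[(4,3),(5,7),(3,15),(2,3),(4,2),(0,2),(13,
  9),(6,4)]⟩⟩ ⟨false,1,⟨1,[(4,0),(22,1),(17,0)]⟩,⟨1,[(3,0),(15,0)]⟩⟩,.a ⟨true,0,⟨51,[(14,7),(2,3),
  (1,29),(7,7),(5,3),(1,3),(1,1),(1,4),(4,0)]⟩,⟨0,[(15,0)]⟩⟩ ⟨false,0,⟨0,[(13,0)]⟩,⟨2,[(3,0),(0,0),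
  (9,0),(2,0),(0,0)]⟩⟩ ⟨true,0,⟨0,[(0,0),(14,0)]⟩,⟨1,[(3,0),(15,0)]⟩⟩,.o ⟨false,0,⟨0,[(30,0)]⟩,⟨1,
  [(4,0),(17,0),(0,0)]⟩⟩]⟩) (.I [0,0,-2,-2,0,0,0,-1] (.Q [0,0,0,0,0,-2,0,0,0,2,-1] (.p false [-1,1,
  1] [1] (⟨0,[(21,0)]⟩,⟨0,[(32,0),(3,0)]⟩) .k 1 (⟨0,[]⟩,⟨0,[]⟩) .k .k) (.S ⟨1,0,[0,1,-1,-2,0,0,0,
  -1],[2,-1,-1],[1],(⟨47,[(0,25),(15,7),(2,3),(1,3),(7,7),(3,21),(1,3),(3,1),(1,4),(4,0)]⟩,⟨0,[(22,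
  0)]⟩),⟨0,[(0,0)]⟩,.k,(.r 0 ⟨0,[(1,0)]⟩ ⟨0,[(19,0),(9,0),(2,0)]⟩),⟨true,0,⟨0,[(14,0)]⟩,⟨3,[(7,1),
  (9,0),(12,1),(0,0),(7,0)]⟩⟩,⟨false,0,⟨0,[(45,0)]⟩,⟨2,[(19,1),(0,0)]⟩⟩,⟨false,1,⟨2,[(14,2),(4,1),
  (0,0)]⟩,⟨1,[(7,1),(23,0),(0,0)]⟩⟩,⟨true,0,⟨0,[(49,0)]⟩,⟨0,[]⟩⟩,[.a ⟨true,(-1),⟨2,[(1,0),(28,1),(1,
  0),(8,2),(3,3),(2,0),(0,0)]⟩,⟨0,[(2,0),(3,0),(7,1)]⟩⟩ ⟨true,0,⟨0,[]⟩,⟨1,[(31,0),(0,0)]⟩⟩ ⟨false,0,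
  ⟨6,[(7,5),(22,0),(0,0),(7,2),(5,1)]⟩,⟨2,[(14,2),(4,1),(0,0)]⟩⟩,.e ⟨false,1,⟨2,[(19,0),(0,1)]⟩,⟨0,
  [(49,0)]⟩⟩ ⟨false,0,⟨0,[(1,0)]⟩,⟨19,[(14,7),(4,15),(1,5),(7,11),(9,1),(2,2),(3,0)]⟩⟩,.o ⟨false,0,
  ⟨21,[(5,10),(9,19),(0,3),(2,1),(1,2),(7,5),(11,1)]⟩,⟨0,[(8,0)]⟩⟩,.e ⟨false,1,⟨2,[(19,0),(0,1)]⟩,
  ⟨1,[(31,0),(0,0)]⟩⟩ ⟨false,0,⟨0,[(1,0)]⟩,⟨0,[(15,0),(3,0)]⟩⟩]⟩) (.Q [0,-1,1,0,0,0,0,0,-1,1,0,-1]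
  (.p false [0,0,0,0,1] [1] (⟨0,[(27,0)]⟩,⟨0,[(26,0)]⟩) .k 1 (⟨0,[]⟩,⟨0,[]⟩) .k .k) (.R ⟨0,false,
  false,false,[-1,1,1],[0,0,0,0,1],[0,1,1],(⟨0,[(23,0)]⟩,⟨0,[(34,0),(3,0)]⟩),(⟨0,[(28,0)]⟩,⟨0,[(27,
  0)]⟩),⟨0,[(34,0)]⟩,.k,.k,.k,(.r (-1) ⟨2,[(16,2),(3,1),(0,0)]⟩ ⟨3,[(8,1),(9,0),(12,1),(0,0),(7,
  0)]⟩),.k,.k,⟨true,0,⟨1,[(32,0),(0,0)]⟩,⟨0,[]⟩⟩,⟨false,0,⟨51,[(17,7),(2,3),(1,29),(3,51),(3,7),(5,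
  3),(1,3),(1,1),(1,4),(4,0)]⟩,⟨11,[(0,11),(6,5),(0,0),(1,0),(29,4),(2,5),(0,2)]⟩⟩,⟨true,0,⟨6,[(8,
  1),(22,4),(0,4),(7,0),(5,2)]⟩,⟨0,[(5,0)]⟩⟩,⟨false,0,⟨5,[(6,2),(10,1),(4,0),(3,5),(3,1),(15,3)]⟩,
  ⟨1,[(0,1),(4,1),(1,0),(35,0)]⟩⟩,⟨false,0,⟨0,[]⟩,⟨0,[]⟩⟩,⟨false,0,⟨0,[]⟩,⟨0,[]⟩⟩,[.e ⟨false,0,⟨0,
  [(50,0)]⟩,⟨2,[(20,0),(0,1)]⟩⟩ ⟨false,0,⟨1,[(6,0),(15,0),(3,1),(3,1)]⟩,⟨0,[(0,0),(0,0),(2,0)]⟩⟩,.a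
  ⟨true,0,⟨0,[(26,0)]⟩,⟨11,[(0,11),(7,0),(1,0),(29,4),(3,2)]⟩⟩ ⟨true,0,⟨1,[(32,0),(0,0)]⟩,⟨0,[]⟩⟩
  ⟨false,0,⟨51,[(17,7),(2,3),(1,29),(3,51),(3,7),(5,3),(1,3),(1,1),(1,4),(4,0)]⟩,⟨11,[(0,11),(6,5),
  (0,0),(1,0),(29,4),(2,5),(0,2)]⟩⟩,.o ⟨false,1,⟨0,[(9,0)]⟩,⟨21,[(6,10),(9,19),(0,3),(2,1),(1,2),(7,
  5),(11,1)]⟩⟩,.o ⟨false,1,⟨3,[(7,0),(24,1),(10,2)]⟩,⟨51,[(17,7),(2,3),(1,29),(7,7),(5,3),(1,3),(1,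
  1),(1,4),(4,0)]⟩⟩]⟩) (.Q [0,-1,0,-1,0,0,0,0,-1,1,0,-1] (.p false [0,0,0,0,1] [1] (⟨0,[(28,0)]⟩,⟨0,
  [(27,0)]⟩) .k 1 (⟨0,[]⟩,⟨0,[]⟩) .k .k) (.R ⟨2,true,false,true,[0,1],[1,0,0,0,-1],[1],(⟨0,[]⟩,⟨0,
  []⟩),(⟨0,[(28,0)]⟩,⟨0,[(29,0)]⟩),⟨0,[]⟩,.k,.k,.k,(.r 0 ⟨1,[(33,0),(0,0),(11,1)]⟩ ⟨3,[(22,1),(3,0),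
  (0,0),(19,1),(1,0)]⟩),.k,.k,⟨true,0,⟨0,[]⟩,⟨1,[(33,0),(0,0)]⟩⟩,⟨false,0,⟨0,[(0,0),(45,0)]⟩,⟨1,
  [(27,1),(16,0),(3,0)]⟩⟩,⟨true,0,⟨2,[(9,0),(3,0)]⟩,⟨1,[(33,0),(0,0),(11,1)]⟩⟩,⟨false,0,⟨0,[(0,0)]⟩,
  ⟨11,[(1,1),(19,5),(5,9),(13,1),(2,4),(3,0)]⟩⟩,⟨false,1,⟨2,[(21,0),(0,1)]⟩,⟨1,[(33,0),(0,0)]⟩⟩,
  ⟨true,0,⟨0,[(0,0),(45,0)]⟩,⟨1,[(1,1),(31,0),(0,0)]⟩⟩,[]⟩) (.I [0,0,2,0,0,2,0,0,-1] (.Q [0,0,0,0,0,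
  0,0,0,1,-1,0,1] (.p true [0,0,0,0,1] [1] (⟨0,[(30,0)]⟩,⟨0,[(29,0)]⟩) .k 1 (⟨0,[]⟩,⟨0,[]⟩) .k .k)
  (.Q [0,-1,0,0,1,0,1,0,-1,0,1,-1] (.p true [0,0,1] [0,0,0,0,1] (⟨0,[(38,0)]⟩,⟨0,[(37,0)]⟩) .k 2
  (⟨0,[(31,0)]⟩,⟨0,[(30,0)]⟩) .k (.r (-1) ⟨2,[(19,2),(3,0),(0,1)]⟩ ⟨0,[(21,0),(12,0)]⟩)) (.R ⟨0,
  false,false,false,[0,0,1],[0,0,0,0,1],[0,1,1],(⟨0,[(39,0)]⟩,⟨0,[(38,0)]⟩),(⟨0,[(32,0)]⟩,⟨0,[(31,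
  0)]⟩),⟨0,[(28,0)]⟩,.k,.k,.k,.k,.k,.k,⟨true,0,⟨1,[(36,0),(0,0)]⟩,⟨0,[]⟩⟩,⟨false,0,⟨2,[(3,0),(0,0),
  (2,0),(6,0),(11,0),(3,0)]⟩,⟨2,[(0,1),(28,0),(6,0),(7,0)]⟩⟩,⟨true,0,⟨0,[(35,0),(0,0)]⟩,⟨5,[(9,2),
  (4,1),(1,0),(27,0)]⟩⟩,⟨false,0,⟨1,[(1,0),(8,0),(19,0)]⟩,⟨6,[(0,5),(13,1),(4,1),(0,1),(8,0),(4,
  0)]⟩⟩,⟨false,0,⟨0,[]⟩,⟨0,[]⟩⟩,⟨false,0,⟨0,[]⟩,⟨0,[]⟩⟩,[.e ⟨false,0,⟨0,[(54,0)]⟩,⟨2,[(24,0),(0,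
  1)]⟩⟩ ⟨false,0,⟨4,[(4,2),(21,1),(3,1),(2,0),(10,0)]⟩,⟨0,[(0,0)]⟩⟩,.o ⟨false,0,⟨0,[(1,0)]⟩,⟨0,[(29,
  0)]⟩⟩,.e ⟨false,0,⟨1,[(36,0),(0,0)]⟩,⟨2,[(24,0),(0,1)]⟩⟩ ⟨false,0,⟨1,[(1,0),(24,0),(3,0)]⟩,⟨0,[(0,
  0)]⟩⟩,.a ⟨true,0,⟨0,[(36,0)]⟩,⟨0,[(33,0)]⟩⟩ ⟨true,0,⟨0,[(54,0)]⟩,⟨0,[]⟩⟩ ⟨false,0,⟨2,[(3,0),(0,0),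
  (2,0),(6,0),(11,0),(3,0)]⟩,⟨1,[(0,1),(35,0),(0,0)]⟩⟩]⟩) (.Q [0,0,0,0,0,0,0,0,0,0,1,-1] (.ed true
  [1,0,-1,0,1] (.r 0 ⟨0,[(22,0),(12,0)]⟩ ⟨2,[(20,2),(3,0),(0,1)]⟩)) (.R ⟨0,false,false,true,[0,0,1,
  0,-1],[1,0,0,0,-1],[1],(⟨0,[(0,0)]⟩,⟨0,[(33,0),(5,0)]⟩),(⟨0,[(32,0)]⟩,⟨0,[(33,0)]⟩),⟨0,[(29,0),(3,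
  0)]⟩,.k,.k,(.r 0 ⟨0,[(15,0),(38,0)]⟩ ⟨6,[(11,0),(6,0),(6,2),(4,2),(0,2),(4,3),(0,6),(7,2)]⟩),.k,
  .k,.k,⟨true,0,⟨0,[]⟩,⟨1,[(37,0),(0,0)]⟩⟩,⟨false,0,⟨0,[(34,0)]⟩,⟨3,[(12,0),(17,1),(0,1),(5,1),(10,
  0)]⟩⟩,⟨true,0,⟨0,[(23,0),(12,0)]⟩,⟨2,[(10,0),(6,0),(3,0)]⟩⟩,⟨false,0,⟨31,[(3,2),(7,15),(19,2),(0,
  2),(8,0),(1,6),(3,2),(4,2)]⟩,⟨1,[(12,0),(8,1),(31,0)]⟩⟩,⟨false,0,⟨0,[]⟩,⟨0,[]⟩⟩,⟨false,0,⟨0,[]⟩,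
  ⟨0,[]⟩⟩,[.o ⟨false,1,⟨0,[(30,0)]⟩,⟨0,[(2,0)]⟩⟩,.e ⟨false,1,⟨2,[(25,0),(0,1)]⟩,⟨0,[(55,0)]⟩⟩
  ⟨false,0,⟨2,[(8,1),(1,0),(4,0),(18,0)]⟩,⟨7,[(12,0),(17,3),(0,3),(5,5),(7,3),(2,2)]⟩⟩,.a ⟨true,1,
  ⟨0,[(23,0),(6,0)]⟩,⟨8,[(1,8),(6,1),(6,0),(3,0),(3,1),(17,0),(1,0),(3,2),(5,2),(0,0)]⟩⟩ ⟨true,0,⟨0,
  []⟩,⟨0,[(55,0)]⟩⟩ ⟨false,0,⟨7,[(8,3),(7,1),(2,1),(7,1),(19,0),(5,0)]⟩,⟨3,[(12,0),(17,1),(0,1),(5,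
  1),(10,0)]⟩⟩,.e ⟨false,1,⟨2,[(25,0),(0,1)]⟩,⟨1,[(37,0),(0,0)]⟩⟩ ⟨false,0,⟨2,[(8,1),(1,0),(4,0),
  (18,0)]⟩,⟨1,[(30,0),(0,0),(5,1),(10,0)]⟩⟩]⟩) (.R ⟨0,false,false,false,[1,0,0,0,-1],[1,0,1,0,-1],
  [0,1,1],(⟨0,[(32,0)]⟩,⟨0,[(33,0)]⟩),(⟨0,[(32,0),(7,0)]⟩,⟨0,[(0,0)]⟩),⟨1,[(0,0),(5,0),(26,0)]⟩,.k,
  .k,(.r (-1) ⟨3,[(26,1),(3,0),(0,0),(19,1),(1,0)]⟩ ⟨1,[(37,0),(0,0),(11,1)]⟩),.k,.k,.k,⟨false,0,⟨1,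
  [(23,0),(12,1),(0,0),(7,0)]⟩,⟨5,[(15,2),(4,2),(4,0),(0,1),(26,2)]⟩⟩,⟨true,0,⟨0,[(23,0)]⟩,⟨0,[(38,
  0)]⟩⟩,⟨false,0,⟨1,[(37,0),(0,0),(16,1)]⟩,⟨15,[(8,3),(3,1),(2,3),(8,1),(0,1),(21,0),(5,10)]⟩⟩,
  ⟨true,0,⟨2,[(16,0),(3,0),(2,1),(11,0)]⟩,⟨0,[(36,0)]⟩⟩,⟨false,0,⟨0,[]⟩,⟨0,[]⟩⟩,⟨false,0,⟨0,[]⟩,⟨0,
  []⟩⟩,[.e ⟨false,0,⟨0,[(55,0)]⟩,⟨2,[(25,0),(0,1)]⟩⟩ ⟨false,1,⟨7,[(12,0),(2,1),(9,1),(0,1),(8,5),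
  (11,0),(5,3)]⟩,⟨0,[(36,0)]⟩⟩,.a ⟨true,1,⟨0,[(8,0),(7,0),(3,0),(2,1),(6,0)]⟩,⟨0,[(1,0),(21,0),(12,
  0)]⟩⟩ ⟨true,0,⟨1,[(37,0),(0,0)]⟩,⟨0,[]⟩⟩ ⟨false,1,⟨2,[(15,1),(7,1),(1,0),(9,0),(17,1)]⟩,⟨0,[(36,
  0),(18,0)]⟩⟩,.o ⟨false,1,⟨0,[(30,0)]⟩,⟨0,[(2,0)]⟩⟩,.o ⟨false,1,⟨1,[(30,1),(6,0),(0,0)]⟩,⟨3,[(1,0),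
  (0,1),(1,0),(3,0),(3,0),(2,0)]⟩⟩]⟩))) (.Q [0,0,0,0,0,0,0,0,0,1,-1,-1] (.ed true [0,0,1,0,1] (.r 0
  ⟨5,[(8,0),(6,0),(3,3),(23,2)]⟩ ⟨7,[(10,0),(5,1),(3,5),(2,1),(4,1),(0,1),(16,0)]⟩)) (.R ⟨0,false,
  false,false,[0,0,0,0,1],[0,0,1,0,1],[1],(⟨0,[(32,0)]⟩,⟨0,[(31,0)]⟩),(⟨0,[(32,0),(6,0)]⟩,⟨0,[(0,
  0)]⟩),⟨1,[(0,0),(4,0),(25,0)]⟩,.k,.k,(.r 0 ⟨5,[(12,0),(3,0),(27,2),(5,2)]⟩ ⟨3,[(24,1),(4,0),(0,0),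
  (5,0),(0,0),(14,0)]⟩),.k,.k,.k,⟨false,1,⟨2,[(10,0),(0,0),(9,0),(2,0),(0,0)]⟩,⟨5,[(9,0),(6,0),(3,
  3),(23,2)]⟩⟩,⟨true,0,⟨0,[(22,0)]⟩,⟨0,[(37,0)]⟩⟩,⟨false,1,⟨0,[(52,0)]⟩,⟨0,[(54,0)]⟩⟩,⟨true,0,⟨2,
  [(15,0),(3,0),(2,1),(11,0)]⟩,⟨0,[(35,0)]⟩⟩,⟨false,0,⟨0,[]⟩,⟨0,[]⟩⟩,⟨false,0,⟨0,[]⟩,⟨0,[]⟩⟩,[.o
  ⟨false,0,⟨2,[(3,0),(0,1),(10,0),(4,0),(13,0),(1,1)]⟩,⟨0,[(1,0),(5,0),(39,0)]⟩⟩,.o ⟨false,0,⟨0,[(3,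
  0),(11,0),(20,0)]⟩,⟨1,[(1,0),(8,0),(18,0),(17,0)]⟩⟩,.a ⟨true,0,⟨0,[(30,0)]⟩,⟨0,[(1,0)]⟩⟩ ⟨true,0,
  ⟨0,[]⟩,⟨0,[(54,0)]⟩⟩ ⟨false,0,⟨2,[(15,0),(3,0),(2,1),(11,0)]⟩,⟨3,[(10,1),(18,0),(0,0),(16,0),(4,
  1)]⟩⟩,.e ⟨false,1,⟨2,[(24,0),(0,1)]⟩,⟨1,[(36,0),(0,0)]⟩⟩ ⟨false,0,⟨26,[(9,7),(1,0),(2,10),(7,16),
  (11,7),(11,0),(1,2)]⟩,⟨11,[(10,1),(10,7),(2,3),(4,2),(0,2),(6,7),(9,4)]⟩⟩]⟩) (.R ⟨0,false,false,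
  false,[-1,1,0,0,1],[0,0,0,0,1],[1,1],(⟨0,[(0,0),(27,0)]⟩,⟨0,[(31,0),(10,0)]⟩),(⟨0,[(32,0)]⟩,⟨0,
  [(31,0)]⟩),⟨0,[(31,0)]⟩,(.r 0 ⟨1,[(36,0),(0,0),(11,1)]⟩ ⟨3,[(25,1),(3,0),(0,0),(19,1),(1,0)]⟩),.k,
  .k,.k,.k,.k,⟨true,0,⟨0,[]⟩,⟨1,[(36,0),(0,0)]⟩⟩,⟨false,0,⟨15,[(2,2),(27,2),(0,2),(8,0),(1,6),(3,2),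
  (4,2)]⟩,⟨1,[(47,0),(3,0)]⟩⟩,⟨true,0,⟨2,[(12,0),(3,0)]⟩,⟨1,[(36,0),(0,0),(11,1)]⟩⟩,⟨false,0,⟨5,
  [(15,0),(4,2),(0,3),(3,0),(20,0)]⟩,⟨10,[(23,0),(0,4),(19,1),(2,4),(1,0)]⟩⟩,⟨false,0,⟨0,[]⟩,⟨0,
  []⟩⟩,⟨false,0,⟨0,[]⟩,⟨0,[]⟩⟩,[.o ⟨false,0,⟨1,[(4,1),(31,0),(0,0)]⟩,⟨1,[(1,1),(45,0),(4,0)]⟩⟩,.a
  ⟨true,0,⟨0,[(30,0)]⟩,⟨0,[(1,0)]⟩⟩ ⟨true,0,⟨0,[]⟩,⟨1,[(36,0),(0,0)]⟩⟩ ⟨false,0,⟨15,[(2,2),(27,2),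
  (0,2),(8,0),(1,6),(3,2),(4,2)]⟩,⟨1,[(47,0),(3,0)]⟩⟩,.o ⟨false,1,⟨1,[(4,1),(42,0),(4,0)]⟩,⟨1,[(1,
  1),(34,0),(0,0)]⟩⟩,.o ⟨false,1,⟨0,[(30,0),(16,0)]⟩,⟨0,[(1,0)]⟩⟩]⟩))) (.R ⟨0,false,false,true,[0,0,
  1,0,-1],[1,0,0,0,-1],[1],(⟨3,[(0,3),(2,3),(23,3),(6,0),(0,0),(8,3),(6,5)]⟩,⟨0,[(30,0),(5,0)]⟩),
  (⟨0,[(29,0)]⟩,⟨0,[(30,0)]⟩),⟨0,[(26,0),(3,0)]⟩,.k,.k,(.r 0 ⟨0,[(12,0),(38,0)]⟩ ⟨6,[(8,0),(6,0),(6,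
  2),(4,2),(0,2),(4,3),(0,6),(7,2)]⟩),.k,.k,.k,⟨true,0,⟨0,[]⟩,⟨1,[(34,0),(0,0)]⟩⟩,⟨false,0,⟨0,[(31,
  0)]⟩,⟨3,[(9,0),(17,1),(0,1),(5,1),(10,0)]⟩⟩,⟨true,0,⟨0,[(20,0),(12,0)]⟩,⟨2,[(7,0),(6,0),(3,0)]⟩⟩,
  ⟨false,0,⟨30,[(8,13),(10,5),(2,2),(1,2),(7,2),(5,1),(1,1),(1,2),(1,2)]⟩,⟨1,[(9,0),(8,1),(31,0)]⟩⟩,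
  ⟨false,0,⟨0,[]⟩,⟨0,[]⟩⟩,⟨false,0,⟨0,[]⟩,⟨0,[]⟩⟩,[.o ⟨false,1,⟨0,[(27,0)]⟩,⟨3,[(0,2),(2,1),(22,1),
  (1,0),(1,2),(3,2),(0,2)]⟩⟩,.e ⟨false,1,⟨2,[(22,0),(0,1)]⟩,⟨0,[(52,0)]⟩⟩ ⟨false,0,⟨2,[(5,1),(1,0),
  (4,0),(18,0)]⟩,⟨7,[(9,0),(17,3),(0,3),(5,5),(7,3),(2,2)]⟩⟩,.a ⟨true,1,⟨0,[(20,0),(6,0)]⟩,⟨6,[(0,
  4),(0,1),(1,2),(4,0),(3,1),(13,2),(3,4),(4,4),(2,0),(5,6),(6,8)]⟩⟩ ⟨true,0,⟨0,[]⟩,⟨0,[(52,0)]⟩⟩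
  ⟨false,0,⟨7,[(5,3),(7,1),(2,1),(7,1),(19,0),(5,0)]⟩,⟨3,[(9,0),(17,1),(0,1),(5,1),(10,0)]⟩⟩,.e
  ⟨false,1,⟨2,[(22,0),(0,1)]⟩,⟨1,[(34,0),(0,0)]⟩⟩ ⟨false,0,⟨2,[(5,1),(1,0),(4,0),(18,0)]⟩,⟨1,[(27,
  0),(0,0),(5,1),(10,0)]⟩⟩]⟩))))) (.I [0,0,-2,0,1,-2,1] (.N [0,2,1] 0 ⟨0,[(1,0)]⟩ ⟨0,[(7,0)]⟩ (.x
  (-1) ⟨0,[(0,0)]⟩ ⟨5,[(5,3),(9,7),(15,2),(0,0),(1,5),(5,3)]⟩)) (.Q [0,-1,0,0,0,0,0,0,-1,1,0,-1]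
  (.p false [0,0,0,0,1] [1] (⟨0,[(27,0)]⟩,⟨0,[(26,0)]⟩) .k 1 (⟨0,[]⟩,⟨0,[]⟩) .k .k) (.R ⟨2,false,
  false,true,[0,1],[1,0,0,0,-1],[1],(⟨0,[]⟩,⟨0,[]⟩),(⟨0,[(27,0)]⟩,⟨0,[(28,0)]⟩),⟨0,[]⟩,.k,.k,.k,(.r
  0 ⟨4,[(2,1),(28,1),(0,1),(7,0),(4,0)]⟩ ⟨3,[(21,1),(3,0),(0,0),(19,1),(1,0)]⟩),.k,.k,⟨true,0,⟨0,
  []⟩,⟨1,[(32,0),(0,0)]⟩⟩,⟨false,0,⟨0,[(0,0),(49,0)]⟩,⟨1,[(26,1),(16,0),(3,0)]⟩⟩,⟨true,0,⟨2,[(8,0),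
  (3,0)]⟩,⟨4,[(2,1),(28,1),(0,1),(7,0),(4,0)]⟩⟩,⟨false,0,⟨0,[(0,0),(45,0)]⟩,⟨10,[(19,0),(0,4),(5,
  10),(13,1),(2,4),(1,0)]⟩⟩,⟨false,1,⟨2,[(20,0),(0,1)]⟩,⟨1,[(32,0),(0,0)]⟩⟩,⟨false,0,⟨0,[(0,0)]⟩,⟨1,
  [(25,0),(0,2),(16,0)]⟩⟩,[.a ⟨true,0,⟨0,[(0,0),(49,0)]⟩,⟨0,[(26,0)]⟩⟩ ⟨true,0,⟨0,[]⟩,⟨1,[(32,0),(0,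
  0)]⟩⟩ ⟨false,0,⟨0,[(0,0),(49,0)]⟩,⟨1,[(26,1),(16,0),(3,0)]⟩⟩,.e ⟨false,1,⟨2,[(20,0),(0,1)]⟩,⟨0,
  [(50,0)]⟩⟩ ⟨false,0,⟨0,[(0,0)]⟩,⟨3,[(25,0),(0,4),(13,1),(2,1),(3,0)]⟩⟩,.o ⟨false,1,⟨1,[(43,0),(3,
  0)]⟩,⟨1,[(32,0),(0,0)]⟩⟩,.fo]⟩) (.Q [0,-1,0,-1,0,0,0,0,-1,1,0,-1] (.p false [0,0,0,0,1] [1] (⟨0,
  [(28,0)]⟩,⟨0,[(27,0)]⟩) .k 1 (⟨0,[]⟩,⟨0,[]⟩) .k .k) (.R ⟨2,true,false,true,[0,1],[1,0,0,0,-1],[1],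
  (⟨0,[]⟩,⟨0,[]⟩),(⟨0,[(28,0)]⟩,⟨0,[(29,0)]⟩),⟨0,[]⟩,.k,.k,.k,(.r 0 ⟨4,[(3,1),(28,1),(0,1),(7,0),(4,
  0)]⟩ ⟨3,[(22,1),(3,0),(0,0),(19,1),(1,0)]⟩),.k,.k,⟨true,0,⟨0,[]⟩,⟨1,[(33,0),(0,0)]⟩⟩,⟨false,0,⟨0,
  [(0,0),(45,0)]⟩,⟨2,[(1,2),(19,0),(0,1)]⟩⟩,⟨true,0,⟨2,[(9,0),(3,0)]⟩,⟨4,[(3,1),(28,1),(0,1),(7,0),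
  (4,0)]⟩⟩,⟨false,0,⟨0,[(0,0)]⟩,⟨2,[(1,2),(19,1),(0,0)]⟩⟩,⟨false,1,⟨2,[(21,0),(0,1)]⟩,⟨1,[(33,0),(0,
  0)]⟩⟩,⟨true,0,⟨0,[(0,0),(45,0)]⟩,⟨0,[(1,0)]⟩⟩,[]⟩) (.Q [0,0,1,0,-1,0,0,0,1,0,0,1] (.p true [0,0,0,
  0,1] [] (⟨0,[(29,0)]⟩,⟨0,[(28,0)]⟩) .k 0 (⟨0,[]⟩,⟨0,[]⟩) .k .k) (.K ⟨0,[0,0,0,0,1],(-1),(-1),(⟨0,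
  [(30,0)]⟩,⟨0,[(29,0)]⟩),.k,(.r 0 ⟨5,[(10,0),(3,0),(27,2),(5,2)]⟩ ⟨3,[(22,1),(4,0),(0,0),(5,0),(0,
  0),(14,0)]⟩),(.r 0 ⟨4,[(4,1),(28,1),(0,1),(7,0),(4,0)]⟩ ⟨3,[(23,1),(3,0),(0,0),(19,1),(1,0)]⟩),.k,
  .k,[⟨0,[(20,0),(6,0)]⟩,⟨0,[(0,0)]⟩,⟨0,[(27,0)]⟩,⟨0,[(0,0),(41,0)]⟩]⟩) (.Q [0,1,1,0,-1,0,-1,-1,1,1,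
  -1,1] (.p false [-1,1,1] [0,0,0,0,1] (⟨0,[(25,0)]⟩,⟨0,[(36,0),(3,0)]⟩) .k 2 (⟨0,[(30,0)]⟩,⟨0,[(29,
  0)]⟩) .k (.r (-1) ⟨2,[(18,2),(3,0),(0,1)]⟩ ⟨0,[(20,0),(12,0)]⟩)) (.Q [0,0,0,0,0,1,0,0,0,-1,1,-1]
  (.p true [-1,1,1] [0,0,0,0,1] (⟨0,[(26,0)]⟩,⟨0,[(37,0),(3,0)]⟩) .k 2 (⟨0,[(31,0)]⟩,⟨0,[(30,0)]⟩)
  .k (.r (-1) ⟨2,[(19,2),(3,0),(0,1)]⟩ ⟨0,[(21,0),(12,0)]⟩)) (.Q [0,1,0,0,-1,0,-1,-1,1,1,-1,1] (.p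
  true [1,0,-1,0,1] [] (⟨0,[(32,0),(5,0)]⟩,⟨0,[(0,0),(41,0)]⟩) .k 0 (⟨0,[]⟩,⟨0,[]⟩) .k (.r 0 ⟨0,
  [(22,0),(12,0)]⟩ ⟨2,[(20,2),(3,0),(0,1)]⟩)) (.Q [0,0,1,0,-1,0,-1,0,1,1,-1,1] (.p true [1,0,-1,0,
  1] [] (⟨0,[(33,0),(5,0)]⟩,⟨0,[(1,0),(41,0)]⟩) .k 0 (⟨0,[]⟩,⟨0,[]⟩) .k (.r 0 ⟨0,[(23,0),(12,0)]⟩
  ⟨2,[(21,2),(3,0),(0,1)]⟩)) (.R ⟨0,false,false,false,[1,0,-1,0,1],[0,0,0,0,1],[1,1],(⟨0,[(34,0),(5,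
  0)]⟩,⟨0,[(2,0),(41,0)]⟩),(⟨0,[(34,0)]⟩,⟨0,[(33,0)]⟩),⟨0,[(2,0)]⟩,.k,.k,(.r 0 ⟨3,[(14,1),(9,0),(12,
  1),(0,0),(7,0)]⟩ ⟨2,[(22,2),(3,1),(0,0)]⟩),.k,.k,.k,⟨true,0,⟨0,[]⟩,⟨1,[(38,0),(0,0)]⟩⟩,⟨false,1,
  ⟨1,[(13,0),(17,0),(0,0)]⟩,⟨67,[(3,1),(19,7),(2,3),(1,37),(2,1),(4,9),(5,5),(1,5),(3,6),(4,2)]⟩⟩,
  ⟨true,0,⟨2,[(11,0),(6,0),(3,0)]⟩,⟨0,[(24,0),(12,0)]⟩⟩,⟨false,1,⟨1,[(13,0),(8,1),(31,0)]⟩,⟨118,[(3,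
  14),(8,42),(10,17),(2,8),(4,14),(3,17),(6,6),(1,6),(1,5),(1,8)]⟩⟩,⟨false,0,⟨0,[]⟩,⟨0,[]⟩⟩,⟨false,
  0,⟨0,[]⟩,⟨0,[]⟩⟩,[.e ⟨false,0,⟨11,[(14,0),(1,0),(29,4),(3,2)]⟩,⟨1,[(31,0),(0,0),(21,0)]⟩⟩ ⟨false,
  1,⟨6,[(6,2),(6,1),(17,2),(6,2),(7,1),(6,1)]⟩,⟨7,[(9,3),(7,1),(2,1),(7,1),(19,0),(5,0)]⟩⟩,.o
  ⟨false,0,⟨1,[(0,1),(12,0),(35,0)]⟩,⟨0,[(31,0)]⟩⟩,.e ⟨false,0,⟨0,[]⟩,⟨1,[(31,0),(0,0),(21,0)]⟩⟩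
  ⟨false,1,⟨3,[(6,1),(6,0),(17,1),(6,1),(15,0)]⟩,⟨7,[(9,3),(7,1),(2,1),(7,1),(19,0),(5,0)]⟩⟩,.a
  ⟨true,(-1),⟨0,[(0,0)]⟩,⟨0,[(4,0),(19,0)]⟩⟩ ⟨true,0,⟨11,[(14,0),(1,0),(29,4),(3,2)]⟩,⟨1,[(38,0),(0,
  0)]⟩⟩ ⟨false,1,⟨1,[(13,0),(17,0),(0,0)]⟩,⟨0,[(9,0),(12,0)]⟩⟩]⟩) (.Q [0,0,0,0,0,0,0,0,1,-1,0,1]
  (.p true [0,0,0,0,1] [1] (⟨0,[(34,0)]⟩,⟨0,[(33,0)]⟩) .k 1 (⟨0,[]⟩,⟨0,[]⟩) .k .k) (.R ⟨0,false,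
  false,true,[1,0,-1],[1,0,0,0,-1],[0,0,1],(⟨0,[(41,0)]⟩,⟨0,[(42,0)]⟩),(⟨0,[(34,0)]⟩,⟨0,[(35,0)]⟩),
  ⟨0,[(30,0)]⟩,.k,.k,.k,.k,.k,.k,⟨true,0,⟨1,[(39,0),(0,0)]⟩,⟨0,[]⟩⟩,⟨false,1,⟨0,[(5,0),(19,0)]⟩,⟨1,
  [(0,0),(28,0),(3,0)]⟩⟩,⟨true,0,⟨0,[(23,0)]⟩,⟨0,[(1,0),(0,0)]⟩⟩,⟨false,1,⟨3,[(1,1),(16,1),(2,1),
  (10,1),(6,1),(9,0),(5,0)]⟩,⟨1,[(0,0),(12,0),(19,0)]⟩⟩,⟨false,0,⟨0,[]⟩,⟨0,[]⟩⟩,⟨false,0,⟨0,[]⟩,⟨0,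
  []⟩⟩,[.o ⟨false,1,⟨0,[(32,0)]⟩,⟨0,[(0,0)]⟩⟩,.o ⟨false,1,⟨2,[(1,1),(7,0),(0,0),(7,0),(5,0),(7,0),
  (7,0)]⟩,⟨0,[(7,0)]⟩⟩,.a ⟨true,0,⟨67,[(4,1),(19,7),(2,3),(1,37),(2,1),(4,9),(5,5),(1,5),(3,6),(4,
  2)]⟩,⟨0,[(25,0)]⟩⟩ ⟨true,0,⟨1,[(39,0),(0,0)]⟩,⟨11,[(15,0),(1,0),(29,4),(3,2)]⟩⟩ ⟨false,1,⟨5,[(1,
  4),(7,1),(8,0),(5,2),(7,0),(6,0),(9,0),(5,0),(0,0)]⟩,⟨1,[(0,0),(28,0),(3,0)]⟩⟩,.o ⟨false,0,⟨0,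
  [(40,0)]⟩,⟨1,[(14,0),(17,0),(0,0)]⟩⟩]⟩) (.R ⟨0,false,false,false,[1,0,-1,0,1],[0,0,0,0,1],[0,1,1],
  (⟨0,[(35,0),(5,0)]⟩,⟨0,[(3,0),(41,0)]⟩),(⟨0,[(35,0)]⟩,⟨0,[(34,0)]⟩),⟨0,[(3,0)]⟩,.k,.k,(.r 0 ⟨3,
  [(15,1),(9,0),(12,1),(0,0),(7,0)]⟩ ⟨2,[(23,2),(3,1),(0,0)]⟩),.k,.k,.k,⟨true,0,⟨1,[(39,0),(0,0)]⟩,
  ⟨0,[]⟩⟩,⟨false,1,⟨1,[(14,0),(17,0),(0,0)]⟩,⟨67,[(4,1),(19,7),(2,3),(1,37),(2,1),(4,9),(5,5),(1,5),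
  (3,6),(4,2)]⟩⟩,⟨true,0,⟨0,[(23,0)]⟩,⟨0,[(1,0),(0,0)]⟩⟩,⟨false,1,⟨1,[(14,0),(8,1),(31,0)]⟩,⟨118,
  [(4,14),(8,42),(10,17),(2,8),(4,14),(3,17),(6,6),(1,6),(1,5),(1,8)]⟩⟩,⟨false,0,⟨0,[]⟩,⟨0,[]⟩⟩,
  ⟨false,0,⟨0,[]⟩,⟨0,[]⟩⟩,[.o ⟨false,0,⟨0,[(7,0)]⟩,⟨1,[(0,1),(49,0),(4,0)]⟩⟩,.a ⟨true,0,⟨0,[(33,
  0)]⟩,⟨0,[(0,0)]⟩⟩ ⟨true,0,⟨1,[(39,0),(0,0)]⟩,⟨0,[]⟩⟩ ⟨false,1,⟨1,[(14,0),(17,0),(0,0)]⟩,⟨67,[(4,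
  1),(19,7),(2,3),(1,37),(2,1),(4,9),(5,5),(1,5),(3,6),(4,2)]⟩⟩,.o ⟨false,0,⟨4,[(2,0),(3,0),(0,0),
  (9,0),(11,0),(3,1),(6,1),(14,0)]⟩,⟨1,[(0,0),(0,0),(37,0),(10,0)]⟩⟩,.o ⟨false,0,⟨0,[(33,0),(6,0)]⟩,
  ⟨0,[(1,0)]⟩⟩]⟩))) (.Q [0,0,1,0,0,0,-1,0,-1,1,-1,-1] (.p false [0,0,1] [1,0,0,0,-1] (⟨0,[(40,0)]⟩,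
  ⟨0,[(39,0)]⟩) .k 2 (⟨0,[(32,0)]⟩,⟨0,[(33,0)]⟩) .k (.r 0 ⟨5,[(10,0),(6,0),(3,3),(23,2)]⟩ ⟨7,[(5,1),
  (6,0),(5,1),(3,5),(2,1),(4,1),(22,0)]⟩)) (.Q [0,0,0,0,0,0,0,0,0,1,-1,-1] (.ed true [0,0,1,0,1]
  (.r 0 ⟨5,[(11,0),(6,0),(3,3),(23,2)]⟩ ⟨7,[(6,1),(6,0),(5,1),(3,5),(2,1),(4,1),(22,0)]⟩)) (.R ⟨0,
  false,false,false,[1,0,-1,0,-1],[1,0,0,0,-1],[1,1],(⟨0,[(0,0)]⟩,⟨0,[(35,0),(6,0)]⟩),(⟨0,[(34,0)]⟩,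
  ⟨0,[(35,0)]⟩),⟨0,[(30,0),(4,0)]⟩,.k,.k,(.r (-1) ⟨9,[(7,1),(6,0),(5,1),(3,7),(3,3),(3,1),(17,0)]⟩
  ⟨1,[(9,0),(13,0),(23,0)]⟩),.k,.k,.k,⟨false,0,⟨0,[(47,0)]⟩,⟨0,[(55,0)]⟩⟩,⟨true,0,⟨0,[(25,0)]⟩,⟨0,
  [(40,0)]⟩⟩,⟨false,0,⟨5,[(12,0),(6,0),(3,3),(23,2)]⟩,⟨3,[(10,3),(3,0),(24,1),(10,0),(4,1)]⟩⟩,⟨true,
  0,⟨4,[(9,0),(8,1),(6,2),(11,1)]⟩,⟨0,[(38,0)]⟩⟩,⟨false,0,⟨0,[]⟩,⟨0,[]⟩⟩,⟨false,0,⟨0,[]⟩,⟨0,[]⟩⟩,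
  [.o ⟨false,1,⟨1,[(2,0),(7,0),(21,0)]⟩,⟨0,[(7,0)]⟩⟩,.o ⟨false,1,⟨0,[(2,0),(7,0)]⟩,⟨0,[(7,0),(49,
  0)]⟩⟩,.e ⟨false,0,⟨0,[]⟩,⟨1,[(32,0),(0,0),(21,0)]⟩⟩ ⟨false,1,⟨0,[(25,0),(29,0)]⟩,⟨6,[(12,0),(4,0),
  (20,1),(1,4),(6,2)]⟩⟩,.a ⟨true,0,⟨0,[(1,0)]⟩,⟨24,[(4,2),(5,2),(3,4),(2,5),(7,20),(7,21),(15,1),(1,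
  5)]⟩⟩ ⟨true,0,⟨11,[(15,0),(1,0),(29,4),(3,2)]⟩,⟨1,[(39,0),(0,0)]⟩⟩ ⟨false,1,⟨25,[(10,1),(3,9),(2,
  1),(7,7),(23,8),(1,1),(3,24)]⟩,⟨0,[(40,0),(16,0)]⟩⟩]⟩) (.Q [0,0,0,0,0,0,0,0,-1,1,0,-1] (.p false
  [0,0,0,0,1] [1] (⟨0,[(35,0)]⟩,⟨0,[(34,0)]⟩) .k 1 (⟨0,[]⟩,⟨0,[]⟩) .k .k) (.R ⟨0,false,false,false,
  [-1,1,0,0,1],[0,0,0,0,1],[1,1],(⟨0,[(1,0),(30,0)]⟩,⟨0,[(35,0),(10,0)]⟩),(⟨0,[(36,0)]⟩,⟨0,[(35,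
  0)]⟩),⟨0,[(35,0)]⟩,(.r 0 ⟨4,[(10,1),(28,1),(0,1),(7,0),(4,0)]⟩ ⟨3,[(29,1),(3,0),(0,0),(19,1),(1,
  0)]⟩),.k,.k,.k,.k,.k,⟨true,0,⟨0,[]⟩,⟨1,[(40,0),(0,0)]⟩⟩,⟨false,0,⟨33,[(5,1),(19,7),(2,3),(1,3),(2,
  1),(4,9),(5,5),(1,5),(3,6),(4,2)]⟩,⟨1,[(51,0),(3,0)]⟩⟩,⟨true,0,⟨2,[(16,0),(3,0)]⟩,⟨4,[(10,1),(28,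
  1),(0,1),(7,0),(4,0)]⟩⟩,⟨false,0,⟨5,[(19,0),(4,2),(0,3),(3,0),(20,0)]⟩,⟨10,[(27,0),(0,4),(19,1),
  (2,4),(1,0)]⟩⟩,⟨false,0,⟨0,[]⟩,⟨0,[]⟩⟩,⟨false,0,⟨0,[]⟩,⟨0,[]⟩⟩,[.o ⟨false,0,⟨0,[(8,0)]⟩,⟨1,[(3,0),
  (7,0),(21,0)]⟩⟩,.a ⟨true,0,⟨0,[(34,0)]⟩,⟨0,[(0,0)]⟩⟩ ⟨true,0,⟨0,[]⟩,⟨1,[(40,0),(0,0)]⟩⟩ ⟨false,0,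
  ⟨33,[(5,1),(19,7),(2,3),(1,3),(2,1),(4,9),(5,5),(1,5),(3,6),(4,2)]⟩,⟨1,[(51,0),(3,0)]⟩⟩,.o ⟨false,
  1,⟨5,[(8,5),(6,0),(2,1),(2,1),(29,0),(4,1)]⟩,⟨1,[(0,0),(1,0),(37,0)]⟩⟩,.o ⟨false,1,⟨1,[(8,1),(42,
  0),(4,0)]⟩,⟨0,[(0,0)]⟩⟩]⟩) (.I [0,0,1,0,0,0,-1,0,-1] (.C [(0,0),(0,0),(3,0),(7,0),(19,0),(17,0),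
  (6,0)]) (.C [(0,0),(1,0),(0,0)])))) (.R ⟨0,false,false,true,[1,0,-1],[1,0,0,0,-1],[1],(⟨0,[(40,
  0)]⟩,⟨0,[(41,0)]⟩),(⟨0,[(33,0)]⟩,⟨0,[(34,0)]⟩),⟨0,[(29,0)]⟩,.k,.k,.k,.k,.k,.k,⟨true,0,⟨0,[]⟩,⟨1,
  [(38,0),(0,0)]⟩⟩,⟨false,1,⟨0,[(4,0),(19,0)]⟩,⟨4,[(5,0),(0,0),(2,0),(6,0),(11,0),(3,2),(6,1)]⟩⟩,
  ⟨true,0,⟨2,[(11,0),(6,0),(3,0)]⟩,⟨0,[(24,0),(12,0)]⟩⟩,⟨false,1,⟨10,[(1,7),(29,2),(4,2),(5,1),(1,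
  1),(3,2),(5,2)]⟩,⟨0,[(6,0),(2,0)]⟩⟩,⟨false,0,⟨0,[]⟩,⟨0,[]⟩⟩,⟨false,0,⟨0,[]⟩,⟨0,[]⟩⟩,[.o ⟨false,1,
  ⟨0,[(31,0)]⟩,⟨0,[(0,0),(38,0)]⟩⟩,.o ⟨false,1,⟨1,[(1,0),(7,0),(21,0)]⟩,⟨0,[(6,0)]⟩⟩,.a ⟨true,0,⟨67,
  [(3,1),(19,7),(2,3),(1,37),(2,1),(4,9),(5,5),(1,5),(3,6),(4,2)]⟩,⟨0,[(24,0)]⟩⟩ ⟨true,0,⟨0,[]⟩,⟨0,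
  [(56,0)]⟩⟩ ⟨false,1,⟨1,[(1,0),(7,0),(14,1),(6,0)]⟩,⟨4,[(5,0),(0,0),(2,0),(6,0),(11,0),(3,2),(6,
  1)]⟩⟩,.o ⟨false,0,⟨0,[(39,0)]⟩,⟨1,[(13,0),(17,0),(0,0)]⟩⟩]⟩))) (.Q [0,0,0,0,0,1,0,0,0,-1,0,1]
  (.ed false [0,1,0,0,1] .k) (.Q [0,0,0,0,0,0,0,0,1,-1,0,1] (.p true [0,0,0,0,1] [1] (⟨0,[(33,0)]⟩,
  ⟨0,[(32,0)]⟩) .k 1 (⟨0,[]⟩,⟨0,[]⟩) .k .k) (.Q [0,0,0,0,0,0,0,0,-1,2,0,-1] (.p false [-1,1,0,0,1]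
  [1] (⟨0,[(1,0)]⟩,⟨0,[(33,0),(10,0)]⟩) (.r 0 ⟨4,[(8,1),(28,1),(0,1),(7,0),(4,0)]⟩ ⟨3,[(27,1),(3,0),
  (0,0),(19,1),(1,0)]⟩) 1 (⟨0,[]⟩,⟨0,[]⟩) .k .k) (.R ⟨0,false,false,false,[-1,1,0,0,1],[0,0,0,0,1],
  [1,1],(⟨0,[(2,0)]⟩,⟨0,[(34,0),(10,0)]⟩),(⟨0,[(35,0)]⟩,⟨0,[(34,0)]⟩),⟨0,[(34,0)]⟩,(.r 0 ⟨4,[(9,1),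
  (28,1),(0,1),(7,0),(4,0)]⟩ ⟨3,[(28,1),(3,0),(0,0),(19,1),(1,0)]⟩),.k,.k,.k,.k,.k,⟨true,0,⟨0,[]⟩,
  ⟨1,[(39,0),(0,0)]⟩⟩,⟨false,0,⟨1,[(0,0),(32,0)]⟩,⟨1,[(50,0),(3,0)]⟩⟩,⟨true,0,⟨2,[(15,0),(3,0)]⟩,⟨4,
  [(9,1),(28,1),(0,1),(7,0),(4,0)]⟩⟩,⟨false,0,⟨5,[(0,0),(17,1),(4,1),(0,3),(8,0)]⟩,⟨10,[(26,0),(0,
  4),(19,1),(2,4),(1,0)]⟩⟩,⟨false,0,⟨0,[]⟩,⟨0,[]⟩⟩,⟨false,0,⟨0,[]⟩,⟨0,[]⟩⟩,[.e ⟨false,0,⟨11,[(15,0),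
  (1,0),(29,4),(3,2)]⟩,⟨1,[(32,0),(0,0),(21,0)]⟩⟩ ⟨false,0,⟨7,[(0,2),(3,1),(27,1),(0,2),(3,1),(9,
  1)]⟩,⟨5,[(14,0),(2,1),(2,1),(29,0),(4,1)]⟩⟩,.o ⟨false,0,⟨0,[(1,0)]⟩,⟨0,[(32,0)]⟩⟩,.e ⟨false,0,⟨0,
  []⟩,⟨1,[(32,0),(0,0),(21,0)]⟩⟩ ⟨false,0,⟨5,[(0,1),(3,1),(18,1),(8,0),(0,0),(5,1),(15,0)]⟩,⟨5,[(14,
  0),(2,1),(2,1),(29,0),(4,1)]⟩⟩,.a ⟨true,0,⟨0,[(1,0)]⟩,⟨0,[(0,0)]⟩⟩ ⟨true,0,⟨11,[(15,0),(1,0),(29,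
  4),(3,2)]⟩,⟨1,[(39,0),(0,0)]⟩⟩ ⟨false,0,⟨1,[(0,0),(32,0)]⟩,⟨1,[(50,0),(4,0)]⟩⟩]⟩) (.R ⟨0,false,
  false,true,[-1,1,0,0,1],[0,1],[1,1,1,1],(⟨0,[(2,0)]⟩,⟨0,[(34,0),(10,0)]⟩),(⟨0,[(46,0)]⟩,⟨0,[(45,
  0)]⟩),⟨0,[(34,0)]⟩,(.r 0 ⟨4,[(9,1),(28,1),(0,1),(7,0),(4,0)]⟩ ⟨3,[(28,1),(3,0),(0,0),(19,1),(1,
  0)]⟩),.k,.k,.k,.k,.k,⟨true,0,⟨0,[]⟩,⟨1,[(39,0),(0,0)]⟩⟩,⟨false,1,⟨7,[(5,1),(26,5),(10,1),(1,1),(3,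
  2),(4,2)]⟩,⟨0,[(1,0)]⟩⟩,⟨true,0,⟨0,[]⟩,⟨0,[(57,0)]⟩⟩,⟨false,1,⟨1,[(5,0),(26,0),(16,0),(5,0),(0,
  0)]⟩,⟨0,[(1,0)]⟩⟩,⟨false,0,⟨0,[]⟩,⟨0,[]⟩⟩,⟨false,0,⟨0,[]⟩,⟨0,[]⟩⟩,[.e ⟨false,0,⟨0,[(52,0)]⟩,⟨3,
  [(28,1),(3,0),(0,0),(19,1),(1,0)]⟩⟩ ⟨false,1,⟨1,[(27,0),(4,1),(14,0),(1,0),(7,0)]⟩,⟨3,[(0,2),(16,
  1),(6,1),(8,0)]⟩⟩,.o ⟨false,1,⟨10,[(26,0),(0,4),(19,1),(2,4),(1,0)]⟩,⟨0,[(53,0)]⟩⟩,.a ⟨true,0,⟨9,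
  [(0,2),(3,1),(1,3),(3,1),(3,1),(2,3),(15,0)]⟩,⟨1,[(5,0),(26,0),(16,1),(6,2)]⟩⟩ ⟨true,0,⟨4,[(9,1),
  (28,1),(0,1),(7,0),(4,0)]⟩,⟨2,[(15,0),(3,0)]⟩⟩ ⟨false,1,⟨25,[(4,1),(4,0),(17,11),(4,27),(4,0),(1,
  0),(9,11),(6,8),(0,8)]⟩,⟨3,[(0,2),(16,1),(6,1),(8,0)]⟩⟩,.o ⟨false,0,⟨0,[(0,0)]⟩,⟨33,[(4,1),(19,7),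
  (2,3),(1,3),(2,35),(4,9),(5,5),(1,5),(3,6),(4,2)]⟩⟩]⟩)) (.R ⟨0,false,false,false,[-1,1,0,0,1],[0,
  0,0,0,1],[1,1],(⟨0,[(1,0)]⟩,⟨0,[(33,0),(10,0)]⟩),(⟨0,[(34,0)]⟩,⟨0,[(33,0)]⟩),⟨0,[(33,0)]⟩,(.r 0
  ⟨4,[(8,1),(28,1),(0,1),(7,0),(4,0)]⟩ ⟨3,[(27,1),(3,0),(0,0),(19,1),(1,0)]⟩),.k,.k,.k,.k,.k,⟨true,
  0,⟨0,[]⟩,⟨1,[(38,0),(0,0)]⟩⟩,⟨false,0,⟨33,[(3,1),(19,7),(2,3),(1,3),(2,1),(4,9),(5,5),(1,5),(3,6),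
  (4,2)]⟩,⟨1,[(49,0),(3,0)]⟩⟩,⟨true,0,⟨2,[(14,0),(3,0)]⟩,⟨4,[(8,1),(28,1),(0,1),(7,0),(4,0)]⟩⟩,
  ⟨false,0,⟨5,[(17,0),(4,2),(0,3),(3,0),(20,0)]⟩,⟨10,[(25,0),(0,4),(19,1),(2,4),(1,0)]⟩⟩,⟨false,0,
  ⟨0,[]⟩,⟨0,[]⟩⟩,⟨false,0,⟨0,[]⟩,⟨0,[]⟩⟩,[.o ⟨false,0,⟨0,[(6,0)]⟩,⟨1,[(0,1),(48,0),(4,0)]⟩⟩,.a
  ⟨true,0,⟨0,[(32,0)]⟩,⟨0,[(0,0)]⟩⟩ ⟨true,0,⟨0,[]⟩,⟨1,[(38,0),(0,0)]⟩⟩ ⟨false,0,⟨33,[(3,1),(19,7),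
  (2,3),(1,3),(2,1),(4,9),(5,5),(1,5),(3,6),(4,2)]⟩,⟨1,[(49,0),(3,0)]⟩⟩,.o ⟨false,1,⟨5,[(6,5),(6,0),
  (2,1),(2,1),(29,0),(4,1)]⟩,⟨1,[(0,1),(37,0),(0,0)]⟩⟩,.o ⟨false,1,⟨1,[(6,1),(42,0),(4,0)]⟩,⟨0,[(0,
  0)]⟩⟩]⟩)) (.Q [0,0,0,0,-1,0,-1,0,1,1,-1,1] (.p true [1,0,-1,0,1] [] (⟨0,[(33,0),(5,0)]⟩,⟨0,[(0,0),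
  (27,0)]⟩) .k 0 (⟨0,[]⟩,⟨0,[]⟩) .k (.r 0 ⟨0,[(23,0),(12,0)]⟩ ⟨2,[(21,2),(3,0),(0,1)]⟩)) (.R ⟨0,
  false,false,true,[0,0,1,0,-1],[1,0,0,0,-1],[1],(⟨0,[(1,0),(27,0)]⟩,⟨0,[(34,0),(5,0)]⟩),(⟨0,[(33,
  0)]⟩,⟨0,[(34,0)]⟩),⟨0,[(30,0),(3,0)]⟩,.k,.k,(.r 0 ⟨0,[(16,0),(38,0)]⟩ ⟨1,[(6,0),(5,0),(13,0),(4,
  0),(6,1),(7,0)]⟩),.k,.k,.k,⟨true,0,⟨0,[]⟩,⟨1,[(38,0),(0,0)]⟩⟩,⟨false,0,⟨0,[(35,0)]⟩,⟨3,[(6,1),(6,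
  0),(17,1),(6,1),(15,0)]⟩⟩,⟨true,0,⟨0,[(24,0),(12,0)]⟩,⟨2,[(11,0),(6,0),(3,0)]⟩⟩,⟨false,0,⟨118,[(3,
  14),(8,42),(10,17),(2,8),(4,14),(3,17),(6,6),(1,6),(1,5),(1,8)]⟩,⟨1,[(13,0),(8,1),(31,0)]⟩⟩,
  ⟨false,0,⟨0,[]⟩,⟨0,[]⟩⟩,⟨false,0,⟨0,[]⟩,⟨0,[]⟩⟩,[.o ⟨false,1,⟨0,[(31,0)]⟩,⟨3,[(0,3),(12,0),(24,1),
  (10,2)]⟩⟩,.e ⟨false,1,⟨2,[(26,0),(0,1)]⟩,⟨0,[(56,0)]⟩⟩ ⟨false,0,⟨2,[(9,1),(1,0),(4,0),(18,0)]⟩,⟨6,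
  [(6,4),(6,0),(17,4),(6,4),(7,0),(6,0)]⟩⟩,.a ⟨true,1,⟨0,[(24,0),(6,0)]⟩,⟨0,[(0,0)]⟩⟩ ⟨true,0,⟨0,
  []⟩,⟨0,[(56,0)]⟩⟩ ⟨false,0,⟨7,[(9,3),(7,1),(2,1),(7,1),(19,0),(5,0)]⟩,⟨3,[(6,1),(6,0),(17,1),(6,
  1),(15,0)]⟩⟩,.e ⟨false,1,⟨2,[(26,0),(0,1)]⟩,⟨1,[(38,0),(0,0)]⟩⟩ ⟨false,0,⟨2,[(9,1),(1,0),(4,0),
  (18,0)]⟩,⟨3,[(6,1),(24,1),(6,3),(10,0),(4,0)]⟩⟩]⟩) (.Q [0,0,0,0,0,0,0,0,1,-1,0,1] (.p true [0,0,0,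
  0,1] [1] (⟨0,[(34,0)]⟩,⟨0,[(33,0)]⟩) .k 1 (⟨0,[]⟩,⟨0,[]⟩) .k .k) (.R ⟨0,false,false,true,[1,0,-1],
  [1,0,0,0,-1],[1],(⟨0,[(41,0)]⟩,⟨0,[(42,0)]⟩),(⟨0,[(34,0)]⟩,⟨0,[(35,0)]⟩),⟨0,[(30,0)]⟩,.k,.k,.k,.k,
  .k,.k,⟨true,0,⟨0,[]⟩,⟨1,[(39,0),(0,0)]⟩⟩,⟨false,1,⟨0,[(5,0),(19,0)]⟩,⟨1,[(0,0),(28,0),(3,0)]⟩⟩,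
  ⟨true,0,⟨2,[(12,0),(6,0),(3,0)]⟩,⟨0,[(25,0),(12,0)]⟩⟩,⟨false,1,⟨2,[(1,1),(15,0),(3,0),(1,0),(1,0),
  (6,0),(16,0),(5,0)]⟩,⟨1,[(0,0),(12,0),(19,0)]⟩⟩,⟨false,0,⟨0,[]⟩,⟨0,[]⟩⟩,⟨false,0,⟨0,[]⟩,⟨0,[]⟩⟩,
  [.o ⟨false,1,⟨0,[(32,0)]⟩,⟨0,[(0,0)]⟩⟩,.o ⟨false,1,⟨4,[(1,2),(7,0),(0,2),(7,1),(13,1)]⟩,⟨0,[(7,
  0)]⟩⟩,.a ⟨true,0,⟨67,[(4,1),(19,7),(2,3),(1,37),(2,1),(4,9),(5,5),(1,5),(3,6),(4,2)]⟩,⟨0,[(25,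
  0)]⟩⟩ ⟨true,0,⟨0,[]⟩,⟨0,[(57,0)]⟩⟩ ⟨false,1,⟨8,[(1,8),(8,1),(6,0),(3,0),(3,1),(17,0),(1,0),(3,2),
  (5,2),(0,0)]⟩,⟨1,[(0,0),(28,0),(3,0)]⟩⟩,.o ⟨false,0,⟨0,[(40,0)]⟩,⟨1,[(14,0),(17,0),(0,0)]⟩⟩]⟩)
  (.S ⟨1,0,[0,-1,0,-1],[1,0,0,0,-1],[1],(⟨0,[(34,0)]⟩,⟨0,[(35,0)]⟩),⟨0,[(2,0)]⟩,.k,(.r (-1) ⟨3,[(28,
  1),(3,0),(0,0),(19,1),(1,0)]⟩ ⟨4,[(9,1),(28,1),(0,1),(7,0),(4,0)]⟩),⟨false,0,⟨0,[]⟩,⟨1,[(32,0),(0,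
  0),(21,0)]⟩⟩,⟨true,0,⟨0,[(53,0)]⟩,⟨0,[(52,0)]⟩⟩,⟨true,0,⟨0,[(52,0)]⟩,⟨0,[(53,0)]⟩⟩,⟨false,1,⟨1,
  [(32,0),(0,0),(21,0)]⟩,⟨0,[]⟩⟩,[.o ⟨false,1,⟨1,[(1,0),(16,0),(5,0),(7,0),(7,0)]⟩,⟨0,[(6,0)]⟩⟩,.o
  ⟨false,1,⟨1,[(1,1),(8,1),(7,1),(20,0),(0,0)]⟩,⟨0,[(7,0),(44,0)]⟩⟩,.a ⟨true,0,⟨0,[(0,0)]⟩,⟨0,[(33,
  0)]⟩⟩ ⟨true,0,⟨0,[]⟩,⟨0,[(57,0)]⟩⟩ ⟨false,1,⟨0,[(53,0),(1,0)]⟩,⟨0,[(52,0)]⟩⟩,.e ⟨false,1,⟨2,[(27,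
  0),(0,1)]⟩,⟨1,[(39,0),(0,0)]⟩⟩ ⟨false,1,⟨4,[(15,0),(2,0),(9,0),(24,0),(1,3)]⟩,⟨4,[(9,1),(28,1),(0,
  1),(7,0),(4,0)]⟩⟩]⟩))))) (.Q [0,0,0,0,0,0,0,0,0,0,1,-1] (.ed true [1,0,-1,0,1] (.r 0 ⟨0,[(21,0),
  (12,0)]⟩ ⟨2,[(19,2),(3,0),(0,1)]⟩)) (.I [1,-1,-1,-2] (.R ⟨0,false,false,false,[1,0,-1],[0,0,1,0,
  -1],[],(⟨0,[(39,0)]⟩,⟨0,[(40,0)]⟩),(⟨0,[(1,0)]⟩,⟨0,[(33,0),(5,0)]⟩),⟨0,[(28,0)]⟩,.k,.k,.k,.k,.k,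
  .k,⟨true,0,⟨0,[(23,0),(12,0)]⟩,⟨0,[(0,0),(6,0)]⟩⟩,⟨false,1,⟨0,[(2,0),(20,1),(12,0)]⟩,⟨0,[(27,0),
  (3,0)]⟩⟩,⟨true,0,⟨2,[(10,0),(6,0),(3,0)]⟩,⟨0,[(23,0),(12,0)]⟩⟩,⟨false,1,⟨0,[(0,0),(1,0),(4,0),(15,
  0)]⟩,⟨2,[(5,0),(5,3),(19,1),(3,1)]⟩⟩,⟨false,0,⟨0,[]⟩,⟨0,[]⟩⟩,⟨false,0,⟨0,[]⟩,⟨0,[]⟩⟩,[.o ⟨false,1,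
  ⟨1,[(2,1),(34,0),(0,0)]⟩,⟨2,[(5,1),(5,1),(19,0),(3,0)]⟩⟩,.e ⟨false,1,⟨2,[(25,0),(0,1)]⟩,⟨0,[(55,
  0)]⟩⟩ ⟨false,2,⟨5,[(2,3),(9,0),(10,3),(6,1),(4,1),(17,4)]⟩,⟨5,[(4,4),(0,0),(9,4),(20,10),(1,0),(8,
  5),(6,8)]⟩⟩,.a ⟨true,0,⟨51,[(22,7),(2,3),(1,29),(7,7),(5,3),(1,3),(1,1),(1,4),(4,0)]⟩,⟨0,[(23,
  0)]⟩⟩ ⟨false,1,⟨1,[(30,0),(0,0),(21,0)]⟩,⟨0,[]⟩⟩ ⟨true,1,⟨0,[(2,0),(34,0)]⟩,⟨5,[(4,4),(0,0),(9,4),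
  (20,10),(1,0),(8,5),(6,8)]⟩⟩,.o ⟨false,0,⟨0,[(38,0)]⟩,⟨1,[(12,0),(17,0),(0,0)]⟩⟩]⟩) (.R ⟨0,false,
  false,true,[0,0,1,0,-1],[1,0,0,0,-1],[1],(⟨0,[(1,0)]⟩,⟨0,[(33,0),(5,0)]⟩),(⟨0,[(32,0)]⟩,⟨0,[(33,
  0)]⟩),⟨0,[(29,0),(3,0)]⟩,.k,.k,(.r 0 ⟨0,[(15,0),(38,0)]⟩ ⟨1,[(5,0),(5,0),(13,0),(4,0),(6,1),(7,
  0)]⟩),.k,.k,.k,⟨true,0,⟨0,[]⟩,⟨1,[(37,0),(0,0)]⟩⟩,⟨false,0,⟨0,[(34,0)]⟩,⟨3,[(5,1),(6,0),(17,1),(6,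
  1),(15,0)]⟩⟩,⟨true,0,⟨0,[(23,0),(12,0)]⟩,⟨2,[(10,0),(6,0),(3,0)]⟩⟩,⟨false,0,⟨30,[(11,13),(10,5),
  (2,2),(1,2),(7,2),(5,1),(1,1),(1,2),(1,2)]⟩,⟨1,[(12,0),(8,1),(31,0)]⟩⟩,⟨false,0,⟨0,[]⟩,⟨0,[]⟩⟩,
  ⟨false,0,⟨0,[]⟩,⟨0,[]⟩⟩,[.a ⟨true,0,⟨0,[(0,0),(1,0),(10,0),(24,0),(8,0),(6,0)]⟩,⟨0,[(31,0)]⟩⟩
  ⟨true,0,⟨0,[]⟩,⟨1,[(37,0),(0,0)]⟩⟩ ⟨false,0,⟨0,[(34,0)]⟩,⟨3,[(5,1),(6,0),(17,1),(6,1),(15,0)]⟩⟩,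
  .o ⟨false,1,⟨3,[(2,1),(5,1),(21,1),(6,0),(0,0)]⟩,⟨0,[(5,0)]⟩⟩,.o ⟨false,1,⟨0,[(2,0),(33,0),(0,
  0)]⟩,⟨4,[(4,0),(0,0),(2,0),(6,0),(11,0),(3,2),(6,1)]⟩⟩,.o ⟨false,1,⟨1,[(2,1),(33,1),(0,2),(0,0)]⟩,
  ⟨3,[(4,1),(6,0),(3,1),(11,0),(3,1)]⟩⟩]⟩)) (.R ⟨0,false,false,false,[1,0,0,0,-1],[1,0,1,0,-1],[1,
  1],(⟨0,[(31,0)]⟩,⟨0,[(32,0)]⟩),(⟨0,[(31,0),(7,0)]⟩,⟨0,[(0,0)]⟩),⟨0,[(0,0),(26,0)]⟩,.k,.k,(.r (-1)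
  ⟨3,[(25,1),(3,0),(0,0),(19,1),(1,0)]⟩ ⟨4,[(6,1),(28,1),(0,1),(7,0),(4,0)]⟩),.k,.k,.k,⟨false,0,⟨3,
  [(11,0),(10,1),(12,3),(8,1),(1,0)]⟩,⟨4,[(14,0),(4,1),(0,1),(4,0),(26,3)]⟩⟩,⟨true,0,⟨0,[(22,0)]⟩,
  ⟨0,[(37,0)]⟩⟩,⟨false,0,⟨0,[(54,0)]⟩,⟨0,[(52,0)]⟩⟩,⟨true,0,⟨4,[(6,0),(8,1),(6,2),(11,1)]⟩,⟨0,[(35,
  0)]⟩⟩,⟨false,0,⟨0,[]⟩,⟨0,[]⟩⟩,⟨false,0,⟨0,[]⟩,⟨0,[]⟩⟩,[.e ⟨false,0,⟨11,[(12,0),(1,0),(29,4),(3,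
  2)]⟩,⟨1,[(29,0),(0,0),(21,0)]⟩⟩ ⟨false,1,⟨7,[(11,0),(2,1),(9,1),(0,1),(8,5),(11,0),(5,3)]⟩,⟨0,
  [(35,0)]⟩⟩,.o ⟨false,1,⟨5,[(1,5),(4,1),(13,1),(0,3),(24,0),(5,0)]⟩,⟨0,[(4,0),(30,0)]⟩⟩,.e ⟨false,
  0,⟨0,[]⟩,⟨1,[(29,0),(0,0),(21,0)]⟩⟩ ⟨false,1,⟨4,[(6,0),(8,1),(6,2),(11,1),(17,4)]⟩,⟨0,[(35,0)]⟩⟩,
  .a ⟨true,0,⟨3,[(1,3),(33,3),(0,0),(0,0),(8,3),(6,5)]⟩,⟨12,[(3,1),(3,1),(3,0),(0,0),(1,2),(15,10),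
  (15,0),(1,2)]⟩⟩ ⟨true,0,⟨11,[(12,0),(1,0),(29,4),(3,2)]⟩,⟨1,[(36,0),(0,0)]⟩⟩ ⟨false,1,⟨2,[(14,1),
  (7,1),(1,0),(9,0),(17,1)]⟩,⟨1,[(35,1),(0,0),(0,0)]⟩⟩]⟩))))))))))))) (.Q [0,0,2,0,-1,0,-1,0,0,2,
  -1] (.p false [-1,1,1] [1] (⟨0,[(15,0)]⟩,⟨0,[(26,0),(3,0)]⟩) .k 1 (⟨0,[]⟩,⟨0,[]⟩) .k .k) (.K ⟨0,
  [2,-1,-1],(-1),(-1),(⟨0,[(27,0),(3,0)]⟩,⟨0,[(16,0)]⟩),.k,(.r (-1) ⟨4,[(2,0),(7,3),(3,2),(9,0),(8,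
  2),(2,0),(2,2)]⟩ ⟨0,[(1,0)]⟩),.k,(.r (-1) ⟨7,[(2,2),(3,3),(3,11),(14,0),(7,5),(2,0)]⟩ ⟨1,[(5,0),
  (2,2)]⟩),.k,[⟨0,[(2,0),(8,0)]⟩,⟨0,[(0,0)]⟩,⟨2,[(1,0),(0,1),(5,0),(14,0),(9,0),(2,0)]⟩,⟨2,[(3,1),
  (7,1),(12,4),(10,2),(3,0),(2,3)]⟩]⟩) (.Q [0,0,0,0,0,0,0,0,1,-1,0,1] (.p true [0,0,0,0,1] [1] (⟨0,
  [(21,0)]⟩,⟨0,[(20,0)]⟩) .k 1 (⟨0,[]⟩,⟨0,[]⟩) .k .k) (.Q [0,1,0,0,-1,0,-1,0,1,0,-1,1] (.p false [0,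
  0,1] [0,0,0,0,1] (⟨0,[(29,0)]⟩,⟨0,[(28,0)]⟩) .k 2 (⟨0,[(22,0)]⟩,⟨0,[(21,0)]⟩) .k (.r (-1) ⟨2,[(10,
  2),(3,0),(0,1)]⟩ ⟨0,[(12,0),(12,0)]⟩)) (.Q [0,0,0,0,0,0,0,0,0,0,1,-1] (.ed true [1,0,-1,0,1] (.r
  0 ⟨0,[(13,0),(12,0)]⟩ ⟨2,[(11,2),(3,0),(0,1)]⟩)) (.Q [0,-1,-1,0,0,0,-1,0,0,1,-1] (.p false [0,0,
  1] [1] (⟨0,[(31,0)]⟩,⟨0,[(30,0)]⟩) .k 1 (⟨0,[]⟩,⟨0,[]⟩) .k .k) (.R ⟨0,false,false,true,[0,0,1,0,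
  -1],[1,0,0,0,-1],[1],(⟨0,[(1,0)]⟩,⟨0,[(25,0),(5,0)]⟩),(⟨0,[(24,0)]⟩,⟨0,[(25,0)]⟩),⟨0,[(21,0),(3,
  0)]⟩,.k,.k,(.r 0 ⟨0,[(7,0),(38,0)]⟩ ⟨9,[(10,0),(3,0),(2,4),(4,3),(0,3),(4,7),(0,8),(7,3)]⟩),.k,.k,
  .k,⟨true,0,⟨0,[]⟩,⟨1,[(29,0),(0,0)]⟩⟩,⟨false,0,⟨0,[(26,0)]⟩,⟨1,[(6,0),(15,0),(0,0),(5,0)]⟩⟩,⟨true,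
  0,⟨0,[(15,0),(12,0)]⟩,⟨1,[(9,0),(2,0)]⟩⟩,⟨false,0,⟨21,[(0,3),(4,0),(8,10),(2,1),(1,2),(8,11),(10,
  1),(2,4)]⟩,⟨13,[(5,1),(0,6),(1,3),(4,3),(13,3),(1,2),(15,6)]⟩⟩,⟨false,0,⟨0,[]⟩,⟨0,[]⟩⟩,⟨false,0,
  ⟨0,[]⟩,⟨0,[]⟩⟩,[.o ⟨false,1,⟨0,[(22,0)]⟩,⟨0,[(3,0)]⟩⟩,.e ⟨false,1,⟨2,[(17,0),(0,1)]⟩,⟨0,[(47,
  0)]⟩⟩ ⟨false,0,⟨0,[(0,0)]⟩,⟨3,[(6,0),(15,1),(0,1),(5,2),(7,1),(2,0)]⟩⟩,.a ⟨true,1,⟨0,[(15,0),(6,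
  0)]⟩,⟨40,[(0,11),(1,35),(2,11),(1,5),(6,17),(0,6),(7,4),(9,0),(1,0),(3,4)]⟩⟩ ⟨true,0,⟨0,[]⟩,⟨0,
  [(47,0)]⟩⟩ ⟨false,0,⟨10,[(0,6),(4,0),(7,0),(0,1),(15,3),(8,0),(5,0)]⟩,⟨1,[(6,0),(15,0),(0,0),(5,
  0)]⟩⟩,.e ⟨false,1,⟨2,[(17,0),(0,1)]⟩,⟨1,[(29,0),(0,0)]⟩⟩ ⟨false,0,⟨0,[(0,0)]⟩,⟨1,[(22,0),(0,0),(5,
  1),(10,0)]⟩⟩]⟩) (.R ⟨0,false,false,false,[1,0,-1],[0,0,1],[0,0,1,0,0,0,0,1],(⟨0,[(31,0)]⟩,⟨0,[(32,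
  0)]⟩),(⟨0,[(32,0)]⟩,⟨0,[(31,0)]⟩),⟨0,[(20,0)]⟩,.k,.k,.k,.k,.k,.k,⟨true,0,⟨1,[(29,0),(0,0)]⟩,⟨0,
  []⟩⟩,⟨false,1,⟨1,[(6,0),(8,1),(13,0),(14,0)]⟩,⟨0,[(19,0)]⟩⟩,⟨false,0,⟨3,[(5,1),(2,3),(4,1),(15,0),
  (0,0)]⟩,⟨6,[(4,0),(5,5),(3,7),(0,4),(21,2),(3,1)]⟩⟩,⟨true,0,⟨4,[(0,4),(4,2),(1,4),(0,0),(6,3),(11,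
  0)]⟩,⟨7,[(5,0),(4,0),(3,4),(4,1),(8,10),(10,0),(1,1)]⟩⟩,⟨false,0,⟨0,[]⟩,⟨0,[]⟩⟩,⟨false,0,⟨0,[]⟩,
  ⟨0,[]⟩⟩,[.e ⟨false,0,⟨1,[(9,0),(2,0)]⟩,⟨3,[(6,0),(3,0),(3,2),(2,0),(19,1),(6,0)]⟩⟩ ⟨false,1,⟨1,
  [(4,0),(10,0),(11,1),(17,0)]⟩,⟨9,[(5,5),(1,6),(2,1),(3,6),(4,0),(8,13),(1,1),(8,1)]⟩⟩,.o ⟨false,1,
  ⟨10,[(0,2),(4,1),(0,3),(1,3),(4,0),(13,3),(17,6)]⟩,⟨0,[(28,0)]⟩⟩,.a ⟨true,0,⟨51,[(14,7),(2,3),(1,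
  29),(7,7),(5,3),(1,3),(1,1),(1,4),(4,0)]⟩,⟨0,[(15,0)]⟩⟩ ⟨true,0,⟨0,[(13,0)]⟩,⟨0,[(4,0),(23,0),(10,
  0),(6,0)]⟩⟩ ⟨false,1,⟨9,[(5,1),(0,4),(1,3),(6,5),(11,3),(1,4),(15,4)]⟩,⟨9,[(5,5),(1,6),(2,1),(3,
  6),(4,0),(8,13),(1,1),(8,1)]⟩⟩,.o ⟨false,0,⟨0,[(30,0)]⟩,⟨1,[(6,0),(22,0),(14,0)]⟩⟩]⟩)) (.R ⟨0,
  false,false,false,[1,0,0,0,-1],[1,0,1,0,-1],[1,1],(⟨0,[(23,0)]⟩,⟨0,[(24,0)]⟩),(⟨0,[(23,0),(7,0)]⟩,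
  ⟨0,[(0,0)]⟩),⟨0,[(0,0),(18,0)]⟩,.k,.k,(.r (-1) ⟨3,[(17,1),(3,0),(0,0),(19,1),(1,0)]⟩ ⟨4,[(4,1),
  (22,1),(0,1),(7,0),(4,0)]⟩),.k,.k,.k,⟨false,0,⟨3,[(3,0),(10,2),(12,3),(8,1),(1,0)]⟩,⟨4,[(6,0),(4,
  1),(0,1),(4,0),(26,3)]⟩⟩,⟨true,0,⟨0,[(14,0)]⟩,⟨0,[(29,0)]⟩⟩,⟨false,0,⟨0,[(46,0)]⟩,⟨0,[(44,0)]⟩⟩,
  ⟨true,0,⟨4,[(4,0),(2,1),(6,2),(11,1)]⟩,⟨0,[(27,0)]⟩⟩,⟨false,0,⟨0,[]⟩,⟨0,[]⟩⟩,⟨false,0,⟨0,[]⟩,⟨0,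
  []⟩⟩,[.e ⟨false,0,⟨8,[(3,0),(2,0),(20,0),(8,3),(1,0),(1,0)]⟩,⟨1,[(21,0),(0,0),(21,0)]⟩⟩ ⟨false,1,
  ⟨2,[(6,0),(7,0),(1,0),(0,0),(8,1),(17,0)]⟩,⟨0,[(27,0)]⟩⟩,.a ⟨true,1,⟨0,[(4,0),(1,0),(6,0),(0,0),
  (6,0)]⟩,⟨0,[(1,0),(12,0),(12,0)]⟩⟩ ⟨true,0,⟨0,[]⟩,⟨1,[(28,0),(0,0)]⟩⟩ ⟨false,1,⟨2,[(6,1),(7,1),(1,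
  0),(9,0),(17,1)]⟩,⟨0,[(27,0),(18,0)]⟩⟩,.o ⟨false,1,⟨0,[(21,0)]⟩,⟨0,[(2,0)]⟩⟩,.o ⟨false,1,⟨1,[(21,
  1),(6,0),(0,0)]⟩,⟨4,[(1,2),(0,1),(0,1),(2,0),(6,0),(0,0),(1,0)]⟩⟩]⟩)) (.R ⟨0,false,false,false,[0,
  0,1],[0,0,0,0,1],[1,1],(⟨0,[(30,0)]⟩,⟨0,[(29,0)]⟩),(⟨0,[(23,0)]⟩,⟨0,[(22,0)]⟩),⟨0,[(19,0)]⟩,.k,.k,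
  .k,.k,.k,.k,⟨true,0,⟨0,[]⟩,⟨1,[(27,0),(0,0)]⟩⟩,⟨false,0,⟨0,[(1,0),(22,0)]⟩,⟨2,[(0,1),(19,0),(6,0),
  (7,0)]⟩⟩,⟨true,0,⟨0,[(13,0),(12,0)]⟩,⟨1,[(7,0),(2,0)]⟩⟩,⟨false,0,⟨7,[(1,7),(1,0),(4,0),(3,4),(4,
  1),(8,2),(10,0),(1,1)]⟩,⟨6,[(0,5),(4,1),(4,1),(0,1),(8,0),(4,0)]⟩⟩,⟨false,0,⟨0,[]⟩,⟨0,[]⟩⟩,⟨false,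
  0,⟨0,[]⟩,⟨0,[]⟩⟩,[.e ⟨false,0,⟨8,[(2,0),(2,0),(20,0),(8,3),(1,0),(1,0)]⟩,⟨1,[(20,0),(0,0),(21,
  0)]⟩⟩ ⟨false,0,⟨3,[(1,2),(15,0),(3,0),(2,1),(10,1)]⟩,⟨0,[(0,0)]⟩⟩,.o ⟨false,0,⟨0,[(1,0)]⟩,⟨0,[(20,
  0)]⟩⟩,.e ⟨false,0,⟨0,[]⟩,⟨1,[(20,0),(0,0),(21,0)]⟩⟩ ⟨false,0,⟨1,[(1,0),(15,0),(3,0)]⟩,⟨0,[(0,
  0)]⟩⟩,.a ⟨true,0,⟨0,[(27,0)]⟩,⟨0,[(24,0)]⟩⟩ ⟨true,0,⟨8,[(2,0),(2,0),(20,0),(8,3),(1,0),(1,0)]⟩,⟨1,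
  [(27,0),(0,0)]⟩⟩ ⟨false,0,⟨0,[(1,0),(22,0)]⟩,⟨1,[(0,1),(26,0),(0,0)]⟩⟩]⟩)) (.Q [0,0,0,0,0,1,0,0,0,
  -1,0,1] (.ed false [0,1,0,0,1] .k) (.R ⟨0,false,false,false,[-1,1,0,0,1],[0,0,0,0,1],[1,1],(⟨0,
  [(0,0)]⟩,⟨0,[(22,0),(10,0)]⟩),(⟨0,[(23,0)]⟩,⟨0,[(22,0)]⟩),⟨0,[(22,0)]⟩,(.r 0 ⟨4,[(3,1),(22,1),(0,
  1),(7,0),(4,0)]⟩ ⟨3,[(16,1),(3,0),(0,0),(19,1),(1,0)]⟩),.k,.k,.k,.k,.k,⟨true,0,⟨0,[]⟩,⟨1,[(27,0),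
  (0,0)]⟩⟩,⟨false,0,⟨25,[(12,7),(2,3),(1,3),(7,7),(5,3),(1,3),(1,1),(1,4),(4,0)]⟩,⟨1,[(38,0),(3,
  0)]⟩⟩,⟨true,0,⟨3,[(2,0),(2,0),(20,0),(10,0),(3,2)]⟩,⟨4,[(3,1),(22,1),(0,1),(7,0),(4,0)]⟩⟩,⟨false,
  0,⟨5,[(6,0),(4,2),(0,3),(3,0),(20,0)]⟩,⟨26,[(2,0),(0,0),(4,0),(5,1),(0,11),(19,5),(2,10)]⟩⟩,
  ⟨false,0,⟨0,[]⟩,⟨0,[]⟩⟩,⟨false,0,⟨0,[]⟩,⟨0,[]⟩⟩,[.e ⟨false,0,⟨8,[(2,0),(2,0),(20,0),(8,3),(1,0),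
  (1,0)]⟩,⟨1,[(20,0),(0,0),(21,0)]⟩⟩ ⟨false,0,⟨4,[(12,1),(2,0),(1,0),(7,1),(9,0),(1,0),(7,3)]⟩,⟨7,
  [(2,1),(2,1),(2,1),(29,0),(4,2)]⟩⟩,.a ⟨true,0,⟨0,[(21,0)]⟩,⟨0,[(1,0)]⟩⟩ ⟨true,0,⟨0,[]⟩,⟨1,[(27,0),
  (0,0)]⟩⟩ ⟨false,0,⟨25,[(12,7),(2,3),(1,3),(7,7),(5,3),(1,3),(1,1),(1,4),(4,0)]⟩,⟨1,[(38,0),(3,
  0)]⟩⟩,.o ⟨false,1,⟨0,[(2,0),(18,0),(6,0)]⟩,⟨1,[(1,1),(25,0),(0,0)]⟩⟩,.o ⟨false,1,⟨0,[(21,0),(16,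
  0)]⟩,⟨0,[(1,0)]⟩⟩]⟩) (.Q [0,1,0,0,0,0,0,0,1,-1,0,1] (.p true [0,0,0,0,1] [1] (⟨0,[(23,0)]⟩,⟨0,
  [(22,0)]⟩) .k 1 (⟨0,[]⟩,⟨0,[]⟩) .k .k) (.S ⟨1,0,[0,2,1],[0,1,0,0,1],[0,1,1],(⟨231,[(13,23),(2,11),
  (1,11),(5,231),(1,23),(5,33),(3,5),(0,65),(0,14),(4,2)]⟩,⟨0,[(1,0)]⟩),⟨0,[(24,0)]⟩,(.r 0 ⟨4,[(4,
  1),(22,1),(0,1),(7,0),(4,0)]⟩ ⟨3,[(17,1),(3,0),(0,0),(19,1),(1,0)]⟩),.k,⟨true,0,⟨0,[(42,0)]⟩,⟨0,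
  [(41,0)]⟩⟩,⟨false,0,⟨0,[(42,0)]⟩,⟨2,[(16,1),(0,0)]⟩⟩,⟨false,1,⟨1,[(21,0),(0,0),(21,0)]⟩,⟨0,[]⟩⟩,
  ⟨true,0,⟨0,[(46,0)]⟩,⟨0,[]⟩⟩,[.e ⟨false,0,⟨0,[(46,0)]⟩,⟨2,[(16,0),(0,1)]⟩⟩ ⟨false,0,⟨0,[(46,1)]⟩,
  ⟨6,[(3,0),(2,3),(2,0),(3,2),(2,2),(27,1)]⟩⟩,.o ⟨false,0,⟨0,[(0,0)]⟩,⟨1,[(2,1),(36,0),(4,0)]⟩⟩,.e
  ⟨false,0,⟨1,[(28,0),(0,0)]⟩,⟨2,[(16,0),(0,1)]⟩⟩ ⟨false,0,⟨1,[(28,0),(0,0),(16,1)]⟩,⟨6,[(3,0),(2,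
  3),(2,0),(3,2),(2,2),(27,1)]⟩⟩,.a ⟨true,0,⟨0,[(22,0)]⟩,⟨0,[(2,0)]⟩⟩ ⟨true,0,⟨0,[(46,0)]⟩,⟨0,[]⟩⟩
  ⟨false,0,⟨0,[(46,0)]⟩,⟨0,[(44,0)]⟩⟩]⟩) (.R ⟨2,false,false,true,[0,1],[1,0,0,0,-1],[1],(⟨0,[]⟩,⟨0,
  []⟩),(⟨0,[(23,0)]⟩,⟨0,[(24,0)]⟩),⟨0,[]⟩,.k,.k,.k,(.r 0 ⟨4,[(4,1),(22,1),(0,1),(7,0),(4,0)]⟩ ⟨3,
  [(17,1),(3,0),(0,0),(19,1),(1,0)]⟩),.k,.k,⟨true,0,⟨0,[]⟩,⟨1,[(28,0),(0,0)]⟩⟩,⟨false,0,⟨0,[(2,0)]⟩,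
  ⟨1,[(22,1),(16,0),(3,0)]⟩⟩,⟨true,0,⟨3,[(3,0),(2,0),(20,0),(10,0),(3,2)]⟩,⟨4,[(4,1),(22,1),(0,1),
  (7,0),(4,0)]⟩⟩,⟨false,0,⟨0,[(0,0),(41,0)]⟩,⟨26,[(3,0),(0,0),(4,0),(5,1),(0,11),(5,26),(13,5),(2,
  10)]⟩⟩,⟨false,1,⟨2,[(16,0),(0,1)]⟩,⟨1,[(28,0),(0,0)]⟩⟩,⟨false,0,⟨0,[(0,0)]⟩,⟨1,[(21,0),(0,2),(16,
  0)]⟩⟩,[.a ⟨true,0,⟨0,[(2,0)]⟩,⟨0,[(22,0)]⟩⟩ ⟨true,0,⟨0,[]⟩,⟨1,[(28,0),(0,0)]⟩⟩ ⟨false,0,⟨0,[(2,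
  0)]⟩,⟨1,[(22,1),(16,0),(3,0)]⟩⟩,.e ⟨false,1,⟨2,[(16,0),(0,1)]⟩,⟨0,[(46,0)]⟩⟩ ⟨false,0,⟨0,[(0,0)]⟩,
  ⟨3,[(21,0),(0,4),(13,1),(2,1),(3,0)]⟩⟩,.o ⟨false,1,⟨1,[(39,0),(3,0)]⟩,⟨1,[(28,0),(0,0)]⟩⟩,
  .fo]⟩)))))) (.R ⟨0,false,false,true,[-1,1,1],[0,1],[1,1,1,1],(⟨0,[(14,0)]⟩,⟨0,[(25,0),(3,0)]⟩),
  (⟨0,[(30,0)]⟩,⟨0,[(29,0)]⟩),⟨0,[(25,0)]⟩,.k,.k,.k,.k,.k,.k,⟨true,0,⟨0,[]⟩,⟨1,[(23,0),(0,0)]⟩⟩,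
  ⟨false,0,⟨0,[(20,0)]⟩,⟨1,[(23,1),(10,0),(3,0)]⟩⟩,⟨true,0,⟨0,[(9,0),(12,0)]⟩,⟨1,[(3,0),(2,0)]⟩⟩,
  ⟨false,0,⟨34,[(0,6),(3,3),(3,14),(2,3),(8,7),(1,15),(10,0),(1,2)]⟩,⟨5,[(2,1),(3,1),(2,3),(11,1),
  (12,2),(4,2)]⟩⟩,⟨false,0,⟨0,[]⟩,⟨0,[]⟩⟩,⟨false,0,⟨0,[]⟩,⟨0,[]⟩⟩,[.e ⟨false,0,⟨0,[(36,0)]⟩,⟨3,[(12,
  1),(3,0),(0,0),(19,1),(1,0)]⟩⟩ ⟨false,0,⟨6,[(0,1),(10,1),(1,1),(6,0),(10,2),(4,2)]⟩,⟨2,[(2,0),(5,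
  0),(0,2),(2,0),(21,1)]⟩⟩,.o ⟨false,1,⟨10,[(10,0),(0,4),(19,1),(2,4),(1,0)]⟩,⟨0,[(37,0)]⟩⟩,.a
  ⟨true,1,⟨1,[(9,1),(24,0),(3,0)]⟩,⟨0,[(0,0)]⟩⟩ ⟨true,0,⟨1,[(23,0),(0,0),(11,1)]⟩,⟨1,[(1,0),(7,0),
  (12,0),(14,0)]⟩⟩ ⟨false,0,⟨6,[(0,2),(10,2),(1,0),(10,1),(6,0),(4,0)]⟩,⟨2,[(2,0),(5,0),(0,2),(2,0),
  (21,1)]⟩⟩,.o ⟨false,1,⟨0,[(9,0),(24,0)]⟩,⟨5,[(0,1),(12,1),(2,0),(0,0),(20,0)]⟩⟩]⟩))))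

theorem ok5 : chk K t5 r9 = true := by decide +kernel

noncomputable def t7 : Tre :=
  (.I [1,0,-2,-1] (.R ⟨0,false,false,false,[1,-1],[1,-1,1],[0,0,1],(⟨0,[(26,0)]⟩,⟨0,[(27,0)]⟩),(⟨0,
  [(23,0),(2,0)]⟩,⟨0,[(12,0)]⟩),⟨0,[(11,0),(0,0)]⟩,.k,.k,(.r 0 ⟨0,[(0,0),(33,0)]⟩ ⟨1,[(8,1),(11,0),
  (0,0),(16,1)]⟩),.k,.k,.k,⟨false,1,⟨13,[(5,5),(2,9),(4,0),(0,0),(4,7),(0,7),(7,3),(2,2)]⟩,⟨1,[(0,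
  2),(2,0),(0,0)]⟩⟩,⟨true,0,⟨0,[(6,0)]⟩,⟨0,[(21,0)]⟩⟩,⟨false,1,⟨3,[(8,1),(4,0),(0,0),(5,2),(0,2),
  (14,0)]⟩,⟨0,[(0,0)]⟩⟩,⟨true,0,⟨7,[(1,4),(1,0),(2,0),(0,0),(0,1),(9,1),(12,1)]⟩,⟨0,[(19,0)]⟩⟩,
  ⟨false,0,⟨0,[]⟩,⟨0,[]⟩⟩,⟨false,0,⟨0,[]⟩,⟨0,[]⟩⟩,[.a ⟨true,(-1),⟨0,[(1,0)]⟩,⟨2,[(8,1),(0,0),(9,
  2)]⟩⟩ ⟨true,0,⟨1,[(20,0),(0,0)]⟩,⟨0,[]⟩⟩ ⟨false,0,⟨6,[(1,5),(5,3),(1,0),(8,0),(12,0)]⟩,⟨9,[(5,1),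
  (2,5),(4,2),(0,2),(4,7),(0,0),(0,2),(9,0)]⟩⟩,.o ⟨false,0,⟨1,[(1,1),(29,0),(4,0)]⟩,⟨10,[(7,0),(0,
  4),(10,10),(8,1),(2,4),(1,0)]⟩⟩,.o ⟨false,0,⟨1,[(20,0),(0,0)]⟩,⟨1,[(31,0),(3,0)]⟩⟩,.o ⟨false,0,⟨0,
  [(20,0),(0,0)]⟩,⟨3,[(7,1),(23,0),(3,0)]⟩⟩]⟩) (.R ⟨0,false,false,false,[0,1,-1],[0,1],[1,1],(⟨0,
  [(12,0)]⟩,⟨0,[(23,0),(2,0)]⟩),(⟨0,[(27,0)]⟩,⟨0,[(26,0)]⟩),⟨0,[(23,0)]⟩,.k,.k,.k,.k,.k,.k,⟨false,0,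
  ⟨4,[(1,2),(5,2),(11,2),(8,0),(5,1)]⟩,⟨2,[(0,0),(7,0),(4,0),(0,0),(21,0)]⟩⟩,⟨true,0,⟨0,[(6,0)]⟩,⟨0,
  [(21,0)]⟩⟩,⟨false,0,⟨23,[(1,21),(2,1),(2,6),(1,1),(0,10),(17,0),(2,12)]⟩,⟨1,[(0,0),(4,1),(2,0),
  (22,0),(0,0)]⟩⟩,⟨true,0,⟨7,[(1,4),(1,0),(2,0),(0,0),(0,1),(9,1),(12,1)]⟩,⟨0,[(19,0)]⟩⟩,⟨false,0,
  ⟨0,[]⟩,⟨0,[]⟩⟩,⟨false,0,⟨0,[]⟩,⟨0,[]⟩⟩,[.o ⟨false,1,⟨10,[(7,0),(0,4),(19,1),(2,4),(1,0)]⟩,⟨0,[(34,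
  0)]⟩⟩,.a ⟨true,1,⟨2,[(8,1),(0,0)]⟩,⟨0,[(1,0),(17,0)]⟩⟩ ⟨true,0,⟨0,[]⟩,⟨1,[(20,0),(0,0)]⟩⟩ ⟨false,
  1,⟨2,[(6,2),(1,1),(0,0)]⟩,⟨9,[(1,7),(5,2),(2,4),(8,7),(8,0),(2,4),(2,1)]⟩⟩,.o ⟨false,1,⟨7,[(7,1),
  (2,3),(20,4),(3,0)]⟩,⟨0,[(20,0)]⟩⟩,.o ⟨false,1,⟨3,[(10,1),(2,0),(0,0),(16,2)]⟩,⟨0,[(6,0)]⟩⟩]⟩))

theorem ok7 : chk K t7 r8 = true := by decide +kernel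

noncomputable def t9 : Tre :=
  (.N [0,1,1] 0 ⟨0,[(1,0)]⟩ ⟨0,[(0,0)]⟩ .k)

theorem ok9 : chk K t9 r7 = true := by decide +kernel

noncomputable def t11 : Tre :=
  (.R ⟨0,false,false,false,[1,0,-1],[2,-1,-1],[0,0,0,-1,0,0,0,-1],(⟨0,[(19,0)]⟩,⟨0,[(20,0)]⟩),(⟨0,
  [(19,0),(3,0)]⟩,⟨0,[(8,0)]⟩),⟨0,[(8,0)]⟩,.k,.k,.k,.k,.k,.k,⟨true,0,⟨1,[(17,0),(0,0)]⟩,⟨0,[]⟩⟩,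
  ⟨false,0,⟨25,[(2,7),(2,3),(1,3),(7,7),(5,3),(1,3),(1,1),(1,4),(4,0)]⟩,⟨1,[(28,0),(3,0)]⟩⟩,⟨true,0,
  ⟨0,[(31,0)]⟩,⟨0,[(30,0)]⟩⟩,⟨false,0,⟨1,[(27,0),(3,1),(1,0)]⟩,⟨10,[(4,0),(0,4),(19,1),(2,4),(1,
  0)]⟩⟩,⟨false,0,⟨0,[]⟩,⟨0,[]⟩⟩,⟨false,0,⟨0,[]⟩,⟨0,[]⟩⟩,[.e ⟨false,0,⟨0,[(0,0)]⟩,⟨15,[(1,7),(2,1),
  (0,7),(1,3),(7,7),(12,0),(3,4)]⟩⟩ ⟨false,0,⟨5,[(0,1),(1,3),(22,1),(1,0),(4,0)]⟩,⟨2,[(1,2),(2,0),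
  (0,0),(22,0),(0,0)]⟩⟩,.o ⟨false,0,⟨1,[(0,1),(17,1),(8,0),(5,0)]⟩,⟨0,[(1,0),(1,0),(24,0),(0,0)]⟩⟩,
  .a ⟨true,0,⟨51,[(2,7),(2,3),(1,29),(7,7),(5,3),(1,3),(1,1),(1,4),(4,0)]⟩,⟨0,[(3,0)]⟩⟩ ⟨true,0,⟨1,
  [(0,1),(16,0),(0,0)]⟩,⟨0,[(1,0),(27,0)]⟩⟩ ⟨false,0,⟨0,[(2,0)]⟩,⟨2,[(1,2),(2,0),(0,0),(22,0),(0,
  0)]⟩⟩,.o ⟨false,0,⟨0,[(18,0)]⟩,⟨1,[(3,1),(24,0),(3,0)]⟩⟩]⟩)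

theorem ok11 : chk K t11 r6 = true := by decide +kernel

noncomputable def t14 : Tre :=
  (.Q [0,1,0,1,0,0,-1,-1,0,0,-1] (.p false [0,0,1] [] (⟨0,[(18,0)]⟩,⟨0,[(17,0)]⟩) .k 0 (⟨0,[]⟩,⟨0,
  []⟩) .k .k) (.R ⟨0,false,false,true,[0,1,-1],[0,1],[0,0,1],(⟨0,[(8,0)]⟩,⟨0,[(19,0),(2,0)]⟩),(⟨0,
  [(23,0)]⟩,⟨0,[(22,0)]⟩),⟨0,[(19,0)]⟩,.k,.k,.k,.k,.k,.k,⟨false,1,⟨3,[(5,1),(3,0),(0,0),(19,1),(1,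
  0)]⟩,⟨0,[(29,0)]⟩⟩,⟨true,0,⟨0,[(2,0)]⟩,⟨0,[(17,0)]⟩⟩,⟨true,0,⟨1,[(1,1),(24,0),(3,3),(1,0)]⟩,⟨0,
  [(0,0),(1,0)]⟩⟩,⟨false,0,⟨1,[(1,1),(0,1),(23,0),(3,1),(1,0)]⟩,⟨0,[(15,0),(16,0)]⟩⟩,⟨false,0,⟨0,
  []⟩,⟨0,[]⟩⟩,⟨false,0,⟨0,[]⟩,⟨0,[]⟩⟩,[.a ⟨true,0,⟨0,[(29,0)]⟩,⟨1,[(26,0),(3,1),(1,0)]⟩⟩ ⟨true,0,⟨1,
  [(16,0),(0,0)]⟩,⟨0,[]⟩⟩ ⟨false,0,⟨0,[(2,0),(26,0)]⟩,⟨0,[(5,0),(11,0)]⟩⟩,.o ⟨false,1,⟨10,[(3,0),(0,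
  4),(19,1),(2,4),(1,0)]⟩,⟨0,[(30,0)]⟩⟩,.o ⟨false,1,⟨7,[(3,1),(2,3),(20,4),(3,0)]⟩,⟨0,[(16,0)]⟩⟩,.o
  ⟨false,1,⟨3,[(6,1),(2,0),(0,0),(16,2)]⟩,⟨0,[(2,0)]⟩⟩]⟩) (.I [0,0,-2,-2] (.R ⟨0,false,false,false,
  [1,0,-1],[2,-1,-1],[0,0,0,-1,0,0,0,-1],(⟨0,[(19,0)]⟩,⟨0,[(20,0)]⟩),(⟨0,[(19,0),(3,0)]⟩,⟨0,[(8,
  0)]⟩),⟨0,[(8,0)]⟩,.k,.k,.k,.k,.k,.k,⟨true,0,⟨1,[(17,0),(0,0)]⟩,⟨0,[]⟩⟩,⟨false,0,⟨2,[(10,0),(0,0),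
  (9,0),(1,0),(3,0)]⟩,⟨1,[(28,0),(3,0)]⟩⟩,⟨true,0,⟨0,[(31,0)]⟩,⟨0,[(30,0)]⟩⟩,⟨false,0,⟨1,[(27,0),(3,
  1),(1,0)]⟩,⟨10,[(4,0),(0,4),(19,1),(2,4),(1,0)]⟩⟩,⟨false,0,⟨0,[]⟩,⟨0,[]⟩⟩,⟨false,0,⟨0,[]⟩,⟨0,[]⟩⟩,
  [.o ⟨false,0,⟨1,[(16,1),(10,0),(3,1),(1,0)]⟩,⟨1,[(2,1),(0,1),(24,0),(4,0)]⟩⟩,.e ⟨false,1,⟨1,[(0,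
  0),(2,1),(12,1),(16,1)]⟩,⟨12,[(2,6),(2,1),(1,2),(7,5),(11,1),(1,1)]⟩⟩ ⟨false,1,⟨1,[(6,1),(9,1),(0,
  1),(9,0),(5,0)]⟩,⟨0,[(2,0)]⟩⟩,.a ⟨true,0,⟨5,[(7,2),(2,0),(0,0),(9,0),(1,0),(3,0)]⟩,⟨0,[(3,0)]⟩⟩
  ⟨false,1,⟨1,[(0,0),(15,1),(0,1),(15,1)]⟩,⟨1,[(2,1),(24,0),(5,0)]⟩⟩ ⟨true,0,⟨3,[(0,1),(2,0),(12,3),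
  (0,2),(9,1),(5,1),(0,0)]⟩,⟨0,[(2,0)]⟩⟩,.o ⟨false,0,⟨0,[(18,0)]⟩,⟨1,[(3,1),(24,0),(3,0)]⟩⟩]⟩) (.R
  ⟨0,false,false,true,[0,1,-1],[0,1],[1],(⟨0,[(9,0)]⟩,⟨0,[(20,0),(2,0)]⟩),(⟨0,[(24,0)]⟩,⟨0,[(23,
  0)]⟩),⟨0,[(20,0)]⟩,.k,.k,.k,.k,.k,.k,⟨false,1,⟨0,[(6,0)]⟩,⟨1,[(0,0),(34,1)]⟩⟩,⟨true,0,⟨0,[(3,0)]⟩,
  ⟨0,[(18,0)]⟩⟩,⟨true,0,⟨1,[(1,0),(0,0),(1,0),(13,0),(8,0),(3,1)]⟩,⟨1,[(0,0),(2,1),(12,1)]⟩⟩,⟨false,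
  0,⟨5,[(0,0),(0,3),(13,1),(13,1)]⟩,⟨0,[(16,0),(16,0)]⟩⟩,⟨false,0,⟨0,[]⟩,⟨0,[]⟩⟩,⟨false,0,⟨0,[]⟩,⟨0,
  []⟩⟩,[.a ⟨true,0,⟨0,[(30,0)]⟩,⟨1,[(27,0),(3,1),(1,0)]⟩⟩ ⟨true,0,⟨0,[]⟩,⟨1,[(17,0),(0,0)]⟩⟩ ⟨false,
  0,⟨0,[(3,0),(26,0)]⟩,⟨0,[(6,0),(11,0)]⟩⟩,.o ⟨false,1,⟨10,[(4,0),(0,4),(19,1),(2,4),(1,0)]⟩,⟨0,
  [(31,0)]⟩⟩,.o ⟨false,1,⟨7,[(4,1),(2,3),(20,4),(3,0)]⟩,⟨0,[(17,0)]⟩⟩,.o ⟨false,1,⟨3,[(7,1),(2,0),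
  (0,0),(16,2)]⟩,⟨0,[(3,0)]⟩⟩]⟩)))

theorem ok14 : chk K t14 r4 = true := by decide +kernel

noncomputable def t16 : Tre :=
  (.I [1,0,0,1,0,0,0,-1] (.R ⟨0,false,false,false,[1,0,-1],[1,-1],[1,1],(⟨0,[(17,0)]⟩,⟨0,[(18,0)]⟩),
  (⟨0,[(21,0)]⟩,⟨0,[(22,0)]⟩),⟨0,[(6,0)]⟩,.k,.k,.k,.k,.k,.k,⟨false,0,⟨0,[(28,0)]⟩,⟨3,[(4,1),(3,0),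
  (0,0),(19,1),(1,0)]⟩⟩,⟨true,0,⟨0,[(15,0)]⟩,⟨0,[(1,0)]⟩⟩,⟨true,0,⟨0,[(1,0),(11,0)]⟩,⟨0,[(0,0),(28,
  0)]⟩⟩,⟨false,1,⟨0,[(13,0),(15,0),(1,0)]⟩,⟨0,[(0,0),(0,0)]⟩⟩,⟨false,0,⟨0,[]⟩,⟨0,[]⟩⟩,⟨false,0,⟨0,
  []⟩,⟨0,[]⟩⟩,[.o ⟨false,0,⟨0,[(29,0)]⟩,⟨10,[(2,0),(0,4),(19,1),(2,4),(1,0)]⟩⟩,.a ⟨true,0,⟨1,[(25,
  0),(3,1),(1,0)]⟩,⟨0,[(28,0)]⟩⟩ ⟨true,0,⟨0,[]⟩,⟨1,[(15,0),(0,0)]⟩⟩ ⟨false,1,⟨0,[(4,0),(10,0)]⟩,⟨0,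
  [(1,0),(26,0)]⟩⟩,.o ⟨false,0,⟨0,[(1,0)]⟩,⟨1,[(15,1),(10,0),(3,0)]⟩⟩,.o ⟨false,0,⟨0,[(16,0)]⟩,⟨3,
  [(2,1),(12,3),(10,0),(3,0)]⟩⟩]⟩) (.Q [0,-1,0,-1,0,0,1,1,0,0,1] (.p true [0,0,1] [] (⟨0,[(18,0)]⟩,
  ⟨0,[(17,0)]⟩) .k 0 (⟨0,[]⟩,⟨0,[]⟩) .k .k) (.R ⟨2,true,false,false,[0,1],[0,0,1],[0,0,1],(⟨0,[]⟩,
  ⟨0,[]⟩),(⟨0,[(19,0)]⟩,⟨0,[(18,0)]⟩),⟨0,[]⟩,.k,.k,.k,.k,.k,.k,⟨false,1,⟨2,[(4,0),(0,1),(9,2),(0,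
  2)]⟩,⟨0,[(0,0),(1,0),(25,0)]⟩⟩,⟨true,0,⟨0,[(16,0)]⟩,⟨0,[(2,0)]⟩⟩,⟨true,0,⟨0,[(30,0)]⟩,⟨0,[(29,
  0)]⟩⟩,⟨false,0,⟨0,[(0,0)]⟩,⟨2,[(4,1),(0,0),(9,2)]⟩⟩,⟨false,1,⟨1,[(9,0),(0,0),(21,0)]⟩,⟨0,[]⟩⟩,
  ⟨true,0,⟨0,[(0,0),(28,0)]⟩,⟨0,[(15,0)]⟩⟩,[]⟩) (.I [0,0,0,0,0,0,0,-1] (.R ⟨0,false,false,false,[0,
  1,-1],[1,0,-1],[0,0,1,0,0,0,0,-1],(⟨0,[(9,0)]⟩,⟨0,[(20,0),(2,0)]⟩),(⟨0,[(19,0)]⟩,⟨0,[(20,0)]⟩),⟨0,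
  [(20,0)]⟩,.k,.k,.k,.k,.k,.k,⟨true,0,⟨1,[(17,0),(0,0)]⟩,⟨0,[]⟩⟩,⟨false,0,⟨2,[(10,0),(0,0),(9,0),(1,
  0),(3,0)]⟩,⟨1,[(28,0),(3,0)]⟩⟩,⟨true,0,⟨0,[(31,0)]⟩,⟨0,[(30,0)]⟩⟩,⟨false,0,⟨1,[(27,0),(3,1),(1,
  0)]⟩,⟨10,[(4,0),(0,4),(19,1),(2,4),(1,0)]⟩⟩,⟨false,0,⟨0,[]⟩,⟨0,[]⟩⟩,⟨false,0,⟨0,[]⟩,⟨0,[]⟩⟩,[.o
  ⟨false,0,⟨0,[(0,0),(2,0)]⟩,⟨1,[(15,1),(12,0),(4,0)]⟩⟩,.e ⟨false,1,⟨1,[(0,1),(9,0),(0,0),(21,0)]⟩,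
  ⟨0,[(2,0),(26,0)]⟩⟩ ⟨false,0,⟨1,[(0,1),(26,0),(5,0)]⟩,⟨7,[(4,1),(2,3),(7,7),(12,4),(3,0)]⟩⟩,.o
  ⟨false,1,⟨7,[(4,1),(2,3),(20,4),(3,0)]⟩,⟨0,[(17,0)]⟩⟩,.a ⟨true,0,⟨0,[(3,0)]⟩,⟨4,[(6,0),(10,4),(3,
  0),(1,0),(3,1),(1,0),(2,0)]⟩⟩ ⟨true,0,⟨0,[(0,0)]⟩,⟨0,[(3,0),(11,0)]⟩⟩ ⟨false,0,⟨1,[(0,1),(26,0),
  (5,0)]⟩,⟨23,[(2,15),(1,1),(0,7),(1,3),(7,7),(12,12),(3,0)]⟩⟩]⟩) (.I [0,0,1,1] (.Q [0,0,0,0,0,0,-1,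
  -1,0,0,-1] (.p false [0,0,1] [] (⟨0,[(21,0)]⟩,⟨0,[(20,0)]⟩) .k 0 (⟨0,[]⟩,⟨0,[]⟩) .k .k) (.R ⟨0,
  false,false,true,[0,1,-1],[0,1],[1,1,1],(⟨0,[(11,0)]⟩,⟨0,[(22,0),(2,0)]⟩),(⟨0,[(26,0)]⟩,⟨0,[(25,
  0)]⟩),⟨0,[(22,0)]⟩,.k,.k,.k,.k,.k,.k,⟨true,0,⟨0,[(33,0)]⟩,⟨0,[(1,0)]⟩⟩,⟨false,1,⟨0,[(19,0),(14,
  0)]⟩,⟨0,[(5,0)]⟩⟩,⟨false,0,⟨0,[(4,0)]⟩,⟨4,[(0,4),(5,1),(0,1),(11,4),(9,0),(1,0),(3,1)]⟩⟩,⟨true,0,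
  ⟨0,[(17,0)]⟩,⟨0,[(0,0)]⟩⟩,⟨false,0,⟨0,[]⟩,⟨0,[]⟩⟩,⟨false,0,⟨0,[]⟩,⟨0,[]⟩⟩,[.e ⟨false,0,⟨0,[(37,
  0)]⟩,⟨2,[(7,0),(0,1)]⟩⟩ ⟨false,0,⟨0,[(19,0),(11,0)]⟩,⟨0,[(8,0),(11,0)]⟩⟩,.o ⟨false,1,⟨10,[(6,0),
  (0,4),(19,1),(2,4),(1,0)]⟩,⟨0,[(33,0)]⟩⟩,.o ⟨false,1,⟨7,[(6,1),(2,3),(20,4),(3,0)]⟩,⟨0,[(19,0)]⟩⟩,
  .a ⟨true,0,⟨0,[(5,0)]⟩,⟨4,[(8,0),(10,4),(3,0),(1,0),(3,1),(1,0),(2,0)]⟩⟩ ⟨false,0,⟨0,[]⟩,⟨1,[(12,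
  0),(0,0),(21,0)]⟩⟩ ⟨true,0,⟨0,[(19,0),(11,0)]⟩,⟨0,[(5,0),(27,0)]⟩⟩]⟩) (.Q [0,0,-1,0,1,0,0,-1,0,
  -1] (.pp true [-1,1]) (.R ⟨0,false,false,false,[1,0,-1],[1,-1],[1,1],(⟨0,[(22,0)]⟩,⟨0,[(23,0)]⟩),
  (⟨0,[(26,0)]⟩,⟨0,[(27,0)]⟩),⟨0,[(11,0)]⟩,.k,.k,.k,.k,.k,.k,⟨false,0,⟨0,[(33,0)]⟩,⟨3,[(9,1),(3,0),
  (0,0),(19,1),(1,0)]⟩⟩,⟨true,0,⟨0,[(20,0)]⟩,⟨0,[(6,0)]⟩⟩,⟨false,0,⟨0,[(3,0)]⟩,⟨3,[(0,1),(18,1),(0,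
  1),(9,0),(5,2)]⟩⟩,⟨true,0,⟨0,[(1,0),(32,0)]⟩,⟨0,[(4,0)]⟩⟩,⟨false,0,⟨0,[]⟩,⟨0,[]⟩⟩,⟨false,0,⟨0,[]⟩,
  ⟨0,[]⟩⟩,[.o ⟨false,0,⟨0,[(34,0)]⟩,⟨10,[(7,0),(0,4),(19,1),(2,4),(1,0)]⟩⟩,.a ⟨true,0,⟨1,[(30,0),(3,
  1),(1,0)]⟩,⟨0,[(33,0)]⟩⟩ ⟨true,0,⟨0,[]⟩,⟨1,[(20,0),(0,0)]⟩⟩ ⟨false,1,⟨0,[(9,0),(10,0)]⟩,⟨0,[(6,0),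
  (26,0)]⟩⟩,.o ⟨false,0,⟨0,[(6,0)]⟩,⟨3,[(0,1),(17,1),(1,1),(10,0),(4,0)]⟩⟩,.o ⟨false,0,⟨0,[(21,0)]⟩,
  ⟨0,[(0,0),(0,0)]⟩⟩]⟩) (.I [1,-1,0,1,1,0,0,-1] (.R ⟨0,false,false,false,[1,0,-1],[1,-1],[1,1],(⟨0,
  [(23,0)]⟩,⟨0,[(24,0)]⟩),(⟨0,[(27,0)]⟩,⟨0,[(28,0)]⟩),⟨0,[(12,0)]⟩,.k,.k,.k,.k,.k,.k,⟨false,0,⟨0,
  [(34,0)]⟩,⟨3,[(10,1),(3,0),(0,0),(19,1),(1,0)]⟩⟩,⟨true,0,⟨0,[(21,0)]⟩,⟨0,[(7,0)]⟩⟩,⟨false,0,⟨0,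
  [(4,0)]⟩,⟨0,[(0,0),(34,0)]⟩⟩,⟨true,0,⟨0,[(2,0),(32,0)]⟩,⟨0,[(5,0)]⟩⟩,⟨false,0,⟨0,[]⟩,⟨0,[]⟩⟩,
  ⟨false,0,⟨0,[]⟩,⟨0,[]⟩⟩,[.o ⟨false,0,⟨0,[(35,0)]⟩,⟨10,[(8,0),(0,4),(19,1),(2,4),(1,0)]⟩⟩,.a ⟨true,
  0,⟨1,[(31,0),(3,1),(1,0)]⟩,⟨0,[(34,0)]⟩⟩ ⟨true,0,⟨0,[]⟩,⟨1,[(21,0),(0,0)]⟩⟩ ⟨false,1,⟨0,[(10,0),
  (10,0)]⟩,⟨0,[(7,0),(26,0)]⟩⟩,.o ⟨false,0,⟨0,[(7,0)]⟩,⟨1,[(21,1),(10,0),(3,0)]⟩⟩,.o ⟨false,0,⟨0,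
  [(22,0)]⟩,⟨3,[(8,1),(12,3),(10,0),(3,0)]⟩⟩]⟩) (.R ⟨0,false,false,false,[0,1,-1],[0,1],[1,0,1],(⟨0,
  [(13,0)]⟩,⟨0,[(24,0),(2,0)]⟩),(⟨0,[(28,0)]⟩,⟨0,[(27,0)]⟩),⟨0,[(24,0)]⟩,.k,.k,.k,.k,.k,.k,⟨true,0,
  ⟨0,[(35,0)]⟩,⟨0,[(3,0)]⟩⟩,⟨false,1,⟨0,[(21,0),(14,0)]⟩,⟨0,[(7,0)]⟩⟩,⟨false,0,⟨0,[(0,0),(36,0)]⟩,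
  ⟨2,[(5,2),(3,0),(0,1),(10,2)]⟩⟩,⟨true,0,⟨0,[(2,0)]⟩,⟨0,[(20,0)]⟩⟩,⟨false,0,⟨0,[]⟩,⟨0,[]⟩⟩,⟨false,
  0,⟨0,[]⟩,⟨0,[]⟩⟩,[.o ⟨false,1,⟨10,[(8,0),(0,4),(19,1),(2,4),(1,0)]⟩,⟨0,[(35,0)]⟩⟩,.e ⟨false,1,⟨1,
  [(14,0),(0,0),(21,0)]⟩,⟨8,[(0,0),(7,1),(11,0),(0,0),(7,2),(1,0),(1,0)]⟩⟩ ⟨false,1,⟨4,[(8,1),(0,1),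
  (11,4),(9,0),(1,0),(3,1)]⟩,⟨18,[(0,9),(5,0),(3,7),(0,3),(8,10),(8,2),(2,1)]⟩⟩,.o ⟨false,1,⟨7,[(8,
  1),(2,3),(20,4),(3,0)]⟩,⟨0,[(21,0)]⟩⟩,.a ⟨true,0,⟨0,[(7,0)]⟩,⟨4,[(10,0),(10,4),(3,0),(1,0),(3,1),
  (1,0),(2,0)]⟩⟩ ⟨true,0,⟨0,[]⟩,⟨0,[(39,0)]⟩⟩ ⟨false,1,⟨4,[(8,1),(0,1),(11,4),(9,0),(1,0),(3,1)]⟩,
  ⟨0,[(7,0),(27,0)]⟩⟩]⟩)))) (.R ⟨0,false,false,false,[1,0,-1],[1,-1],[1,1],(⟨0,[(20,0)]⟩,⟨0,[(21,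
  0)]⟩),(⟨0,[(24,0)]⟩,⟨0,[(25,0)]⟩),⟨0,[(9,0)]⟩,.k,.k,.k,.k,.k,.k,⟨false,0,⟨0,[(31,0)]⟩,⟨3,[(7,1),
  (3,0),(0,0),(19,1),(1,0)]⟩⟩,⟨true,0,⟨0,[(18,0)]⟩,⟨0,[(4,0)]⟩⟩,⟨false,0,⟨0,[(1,0)]⟩,⟨0,[(0,0),(1,
  0),(15,0),(15,0)]⟩⟩,⟨true,0,⟨0,[(0,0),(0,0),(16,0)]⟩,⟨0,[(2,0)]⟩⟩,⟨false,0,⟨0,[]⟩,⟨0,[]⟩⟩,⟨false,
  0,⟨0,[]⟩,⟨0,[]⟩⟩,[.o ⟨false,0,⟨0,[(32,0)]⟩,⟨10,[(5,0),(0,4),(19,1),(2,4),(1,0)]⟩⟩,.a ⟨true,0,⟨1,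
  [(28,0),(3,1),(1,0)]⟩,⟨0,[(31,0)]⟩⟩ ⟨true,0,⟨0,[]⟩,⟨1,[(18,0),(0,0)]⟩⟩ ⟨false,1,⟨0,[(7,0),(10,
  0)]⟩,⟨0,[(4,0),(26,0)]⟩⟩,.o ⟨false,0,⟨0,[(4,0)]⟩,⟨1,[(18,1),(10,0),(3,0)]⟩⟩,.o ⟨false,0,⟨0,[(19,
  0)]⟩,⟨3,[(5,1),(12,3),(10,0),(3,0)]⟩⟩]⟩)))))

theorem ok16 : chk K t16 r3 = true := by decide +kernel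

noncomputable def t6 : Tre :=
  .I [1,0,1,1,0,0,0,-1] t4 t5

theorem ok6 : chk K t6 l8 = true :=
  chk_I (e' := [0,0,-1,-1,0,0,0,1]) (by decide +kernel) (by decide +kernel) ok4 ok5

noncomputable def t8 : Tre :=
  .Q [0,0,0,1,1,0,-1,-1,0,-1,-1] (.p false [1,-1,1] [] (⟨0,[(21,0),(2,0)]⟩,⟨0,[(10,0)]⟩) .k 0 (⟨0,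
  []⟩,⟨0,[]⟩) .k .k) t6 t7

theorem ok8 : chk K t8 l7 = true :=
  chk_Q (e' := [0,0,0,-1,-1,0,1,1,0,1,1]) (by decide +kernel) (by decide +kernel) ok6 ok7

noncomputable def t10 : Tre :=
  .I [0,0,1,1,0,0,0,1] t8 t9

theorem ok10 : chk K t10 l6 = true :=
  chk_I (e' := [1,0,-1,-1,0,0,0,-1]) (by decide +kernel) (by decide +kernel) ok8 ok9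

noncomputable def t12 : Tre :=
  .I [1,0,1,1,0,0,0,1] t10 t11

theorem ok12 : chk K t12 r5 = true :=
  chk_I (e' := [0,0,-1,-1,0,0,0,-1]) (by decide +kernel) (by decide +kernel) ok10 ok11

noncomputable def t13 : Tre :=
  .I [1,0,-1,0,0,0,0,-1] t3 t12

theorem ok13 : chk K t13 l4 = true :=
  chk_I (e' := [0,0,1,0,0,0,0,1]) (by decide +kernel) (by decide +kernel) ok3 ok12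

noncomputable def t15 : Tre :=
  .Q [0,-1,0,-1,0,0,0,-1,0,1] (.pp false [-1,1]) t13 t14

theorem ok15 : chk K t15 l3 = true :=
  chk_Q (e' := [0,1,0,1,0,0,0,1,0,-1]) (by decide +kernel) (by decide +kernel) ok13 ok14

noncomputable def t17 : Tre :=
  .Q [0,0,0,0,0,0,1,0,0,0,1] (.p true [0,0,1] [] (⟨0,[(16,0)]⟩,⟨0,[(15,0)]⟩) .k 0 (⟨0,[]⟩,⟨0,[]⟩)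
  .k .k) t15 t16

theorem ok17 : chk K t17 r2 = true :=
  chk_Q (e' := [0,0,0,0,0,0,-1,0,0,0,-1]) (by decide +kernel) (by decide +kernel) ok15 ok16

noncomputable def t18 : Tre :=
  .Q [0,0,3,0,-1,0,0,0,0,1] (.pp false [-1,1]) t2 t17

theorem ok18 : chk K t18 r1 = true :=
  chk_Q (e' := [0,0,-3,0,1,0,0,0,0,-1]) (by decide +kernel) (by decide +kernel) ok2 ok17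

noncomputable def t19 : Tre :=
  .I [0,1,-1,-2,-1] t1 t18

theorem ok19 : chk K t19 r0 = true :=
  chk_I (e' := [1,-1,1,2,1]) (by decide +kernel) (by decide +kernel) ok1 ok18

noncomputable def t20 : Tre :=
  .I [1,1,2,1,-1] t0 t19

theorem ok20 : chk K t20 base = true :=
  chk_I (e' := [0,-1,-2,-1,1]) (by decide +kernel) (by decide +kernel) ok0 ok19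

theorem closed {p a b c J l q : ℤ} {D dl : ℝ} {Cl : ℤ → ℤ → ℤ → ℤ → ℝ → Prop}
    (W : World p a b c J 1 l q D dl Cl) (g : G0 p a b c J D)
    {N X R : ℤ} {I : ℝ} (hk : KCl p l Cl N X R I) (kz : KF a b D (X + (1 : ℤ) * I) (X + (1 : ℤ) * I + R) I)
    {Ne Xe : ℤ} {Ie : ℝ} (he : EFac p 1 D Cl (a) Ne Xe Ie)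
    (hkf : ∀ kf ∈ (kfY 1 [0,0,0,0,0,0,1,0,0,0,1]), KOk p l Cl 1
      (xv [1, a, b, c, p, J, X, R, Xe] [D, I, Ie]) N kf)
    (h0 : 1 ≤ -(c : ℝ))
    (h1 : 1 ≤ (a : ℝ) - (b : ℝ) + (c : ℝ))
    (h2 : 0 < -1 + (p : ℝ) - 2 * D)
    (h3 : 0 < 3 - (p : ℝ) + 2 * D)
    (h4 : 0 < 1 + 3 * (J : ℝ) - D)
    (h5 : 1 ≤ 2 * (a : ℝ) - (b : ℝ))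
    (h6 : 1 ≤ -2 + (J : ℝ))
    (h7 : 0 < -(b : ℝ) - (X : ℝ) + D - I)
    (h8 : 0 < (J : ℝ) - I)
    (h9 : 0 < (J : ℝ) - D + I)
    (h10 : 0 < -2 * (X : ℝ) + D - 2 * I) : False := by
  have g1 := g.a2
  have g2 := g.b2
  have g3 := g.pa
  have g4 := g.pb
  have g5 := g.J1
  have g6 := g.JD
  have g7 := g.D2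
  have g8 := g.ca
  have g9 := g.ca'
  have k1 := kz.I0
  have k2 := kz.ID
  have k3 := kz.z1
  have k4 := kz.z2
  have k5 := kz.s1
  have k6 := kz.s2
  have e1 := he.I0
  have e2 := he.ID
  have e3 := he.x0
  have e4 := he.xp
  push_cast at *
  refine (val_E W.toBase hk he (row := [0,1]) (by simp) (by simp) (kfY 1 [0,0,0,0,0,0,1,0,0,0,1])).sound W rfl (Nk := N)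
    (fun kf _ _ => ⟨_, rfl⟩) hkf ?_ ok20
  · simp only [base, List.forall_mem_cons, List.not_mem_nil, false_imp_iff, implies_true,
      and_true, hld, xv, evg_cons, evg_nil, List.map_cons, List.map_nil, List.cons_append,
      List.nil_append, if_true, if_false, Bool.false_eq_true]
    push_cast
    refine ⟨?_, ?_, ?_, ?_, ?_, ?_, ?_, ?_, ?_, ?_, ?_, ?_, ?_, ?_, ?_, ?_, ?_, ?_, ?_, ?_, ?_, ?_, ?_, ?_, ?_, ?_, ?_, ?_, ?_⟩ <;> linarith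

end Helper25.S1T.Ymp_1aP3
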