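import Pool.Agent.Helper25.KG.S1b
import Pool.Agent.Helper11.CT.Cut

set_option autoImplicit false
set_option linter.all false

namespace Helper25.S1T.Ymp_1b

open Helper25.KG Helper25.KW Helper55.KE Helper11.CT

noncomputable def K : Cls :=
  cE 1 [0,1] (kfY 1 [0,0,0,0,0,0,1,0,0,0,1])

noncomputable def base : List Con :=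
  [(false,[0,0,0,0,0,0,-2,0,0,1,-2]),
  (false,[0,0,0,0,0,-1,0,0,0,1,-1]),
  (false,[0,0,0,0,0,1,0,0,0,0,-1]),
  (false,[0,0,0,0,1,0,0,0,-1,0,0,-1]),
  (false,[0,0,0,0,0,0,0,0,1,0,0,1]),
  (false,[0,0,0,0,0,0,0,0,0,1,0,-1]),
  (false,[0,0,0,0,0,0,0,0,0,0,0,1]),
  (false,[0,0,-1,0,0,0,-1,0,0,1,-1]),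
  (false,[0,1,0,0,0,0,1,1,0,0,1]),
  (false,[0,1,0,0,0,0,-1,-1,0,0,-1]),
  (false,[0,0,1,0,0,0,1,0,0,0,1]),
  (false,[0,0,1,0,0,0,-1,0,0,0,-1]),
  (false,[0,0,0,0,0,0,0,0,0,1,-1]),
  (false,[0,0,0,0,0,0,0,0,0,0,1]),
  (false,[0,0,0,0,1,0,0,0,0,-2]),
  (false,[0,0,0,0,0,-1,0,0,0,1]),
  (true,[0,0,0,0,0,1]),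
  (true,[0,2,-1]),
  (true,[0,1,-1,1]),
  (true,[0,1,0,1]),
  (true,[0,0,0,-1]),
  (true,[0,0,-2,0,1]),
  (true,[0,-2,0,0,1]),
  (true,[-1,0,1]),
  (true,[-1,1])]

noncomputable def l0 : List Con := (false, [0,0,0,-2,-1,0,0,0,0,1]) :: base

noncomputable def r0 : List Con := (false, [0,0,0,2,1,0,0,0,0,-1]) :: base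

noncomputable def l1 : List Con := (false, [0,0,0,0,0,0,-1,0,0,0,-1]) :: r0

noncomputable def r1 : List Con := (false, [0,0,0,0,0,0,1,0,0,0,1]) :: r0

noncomputable def t0 : Tre :=
  (.I [0,-1,-1,-2] (.R ⟨2,true,false,false,[0,1],[1,-1],[0,0,0,-1],(⟨0,[]⟩,⟨0,[]⟩),(⟨0,[(17,0)]⟩,⟨0,
  [(18,0)]⟩),⟨0,[]⟩,.k,.k,.k,(.r (-1) ⟨0,[(12,0),(0,0),(7,1),(2,0)]⟩ ⟨4,[(0,5),(18,1),(0,1)]⟩),.k,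
  .k,⟨true,0,⟨1,[(12,0),(0,0)]⟩,⟨0,[]⟩⟩,⟨false,0,⟨1,[(2,0),(6,0),(2,2)]⟩,⟨3,[(0,1),(15,1),(3,3),(2,
  0),(0,0)]⟩⟩,⟨false,0,⟨0,[(0,0)]⟩,⟨1,[(12,0),(0,0),(7,3),(2,1)]⟩⟩,⟨true,(-1),⟨0,[(1,0)]⟩,⟨1,[(16,
  0),(4,3),(2,0)]⟩⟩,⟨true,0,⟨4,[(0,2),(18,0),(0,0)]⟩,⟨1,[(12,0),(0,0),(7,1)]⟩⟩,⟨false,0,⟨1,[(1,0),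
  (7,0),(2,0),(11,0)]⟩,⟨1,[(16,0),(4,1),(2,0)]⟩⟩,[]⟩) (.I [1,-1,-1,-1,0,0,0,-1] (.Q [0,0,0,0,0,0,1,
  0,0,0,1] (.p true [0,0,1] [] (⟨0,[(16,0)]⟩,⟨0,[(15,0)]⟩) .k 0 (⟨0,[]⟩,⟨0,[]⟩) .k .k) (.R ⟨2,true,
  false,true,[0,1],[0,1,1],[0,1,1],(⟨0,[]⟩,⟨0,[]⟩),(⟨0,[(17,0),(2,0)]⟩,⟨0,[(5,0)]⟩),⟨0,[]⟩,.k,.k,.k,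
  .k,.k,.k,⟨false,0,⟨5,[(1,4),(11,0),(0,0),(6,1),(2,0)]⟩,⟨0,[(12,0),(2,0),(6,0),(3,0)]⟩⟩,⟨true,0,⟨0,
  [(0,0)]⟩,⟨0,[(15,0)]⟩⟩,⟨false,0,⟨0,[(24,0)]⟩,⟨3,[(2,1),(22,0),(0,2)]⟩⟩,⟨true,0,⟨0,[(12,0)]⟩,⟨3,
  [(1,2),(0,0),(10,0),(1,2),(6,0)]⟩⟩,⟨true,0,⟨0,[(28,0)]⟩,⟨0,[]⟩⟩,⟨false,1,⟨3,[(2,1),(9,3),(12,0),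
  (0,2)]⟩,⟨0,[(1,0),(13,0)]⟩⟩,[]⟩) (.R ⟨2,true,false,false,[0,1],[1,0,-1],[1,0,0,0,0,0,0,-1],(⟨0,
  []⟩,⟨0,[]⟩),(⟨0,[(16,0)]⟩,⟨0,[(17,0)]⟩),⟨0,[]⟩,.k,.k,.k,.k,.k,.k,⟨true,0,⟨0,[]⟩,⟨1,[(14,0),(0,
  0)]⟩⟩,⟨false,0,⟨1,[(4,0),(6,0),(2,0)]⟩,⟨3,[(1,1),(10,1),(1,1),(3,1),(3,1),(2,0),(0,0)]⟩⟩,⟨false,0,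
  ⟨0,[(1,0)]⟩,⟨7,[(2,3),(1,1),(2,0),(0,0),(3,7),(2,3),(2,0),(7,5)]⟩⟩,⟨true,(-1),⟨0,[(0,0),(0,0),(0,
  0),(0,0)]⟩,⟨3,[(2,1),(9,3),(5,1),(6,0),(0,0)]⟩⟩,⟨true,0,⟨4,[(1,4),(0,1),(18,0),(0,0)]⟩,⟨0,[(12,0),
  (2,0)]⟩⟩,⟨false,0,⟨1,[(1,1),(0,1),(0,0),(0,0),(21,0)]⟩,⟨1,[(12,1),(5,0),(7,0)]⟩⟩,[]⟩)) (.I [1,-1,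
  0,0,0,0,0,1] (.R ⟨2,true,false,false,[0,1],[0,0,1],[0,0,1],(⟨0,[]⟩,⟨0,[]⟩),(⟨0,[(17,0)]⟩,⟨0,[(16,
  0)]⟩),⟨0,[]⟩,.k,.k,.k,.k,.k,.k,⟨false,1,⟨1,[(13,1),(0,1),(10,0),(0,0)]⟩,⟨7,[(0,7),(2,1),(14,0),(2,
  1),(0,3),(2,0)]⟩⟩,⟨true,0,⟨0,[(14,0)]⟩,⟨0,[(0,0),(12,0)]⟩⟩,⟨true,0,⟨0,[(24,0)]⟩,⟨4,[(2,1),(18,0),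
  (0,0)]⟩⟩,⟨false,0,⟨1,[(0,1),(2,1),(10,1),(3,0),(3,1),(3,0)]⟩,⟨3,[(2,1),(10,3),(11,0),(0,2)]⟩⟩,
  ⟨false,1,⟨1,[(7,0),(0,0),(17,0)]⟩,⟨0,[]⟩⟩,⟨true,0,⟨7,[(0,5),(2,1),(8,1),(1,5),(3,0),(3,3),(2,0)]⟩,
  ⟨0,[(13,0)]⟩⟩,[]⟩) (.Q [0,0,0,0,0,0,1,0,0,0,1] (.p true [0,0,1] [] (⟨0,[(17,0)]⟩,⟨0,[(16,0)]⟩) .k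
  0 (⟨0,[]⟩,⟨0,[]⟩) .k .k) (.I [1,0,-1,0,0,0,0,-1] (.S ⟨1,0,[0,0,1,0,0,0,0,1],[0,1,1],[0,1,1,0,0,0,
  0,1],(⟨0,[(19,0),(2,0)]⟩,⟨0,[(7,0)]⟩),⟨0,[(19,0)]⟩,.k,.k,⟨false,0,⟨0,[(26,0)]⟩,⟨3,[(4,1),(22,0),
  (0,2)]⟩⟩,⟨true,0,⟨0,[(26,0)]⟩,⟨4,[(4,1),(18,0),(0,0)]⟩⟩,⟨true,0,⟨0,[(30,0)]⟩,⟨0,[]⟩⟩,⟨false,1,⟨1,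
  [(9,0),(0,0),(17,0)]⟩,⟨0,[]⟩⟩,[.o ⟨false,1,⟨1,[(14,1),(5,0),(7,0)]⟩,⟨0,[(0,0),(16,0)]⟩⟩,.e ⟨false,
  1,⟨3,[(6,1),(2,0),(0,0),(3,3),(5,0),(7,1)]⟩,⟨0,[(0,0)]⟩⟩ ⟨false,1,⟨1,[(3,1),(1,1),(14,0),(3,1),(3,
  2)]⟩,⟨2,[(0,1),(1,0),(20,0)]⟩⟩,.o ⟨false,1,⟨1,[(1,1),(18,0),(6,0)]⟩,⟨0,[(17,0)]⟩⟩,.a ⟨true,0,⟨0,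
  [(1,0)]⟩,⟨1,[(6,0),(6,0),(2,0)]⟩⟩ ⟨true,0,⟨1,[(3,1),(1,1),(14,0),(3,1),(3,0)]⟩,⟨1,[(0,1),(15,0),
  (0,0)]⟩⟩ ⟨false,1,⟨1,[(3,1),(1,1),(14,0),(3,1),(3,2)]⟩,⟨1,[(0,1),(15,0),(0,0)]⟩⟩]⟩) (.I [0,0,-2,
  -2,0,0,0,-1] (.K ⟨0,[0,1,1],0,0,(⟨0,[(20,0),(2,0)]⟩,⟨0,[(8,0)]⟩),.k,.k,(.r (-1) ⟨3,[(4,3),(0,1),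
  (4,0),(0,0),(5,0),(0,0),(10,2)]⟩ ⟨0,[(0,0)]⟩),.k,.k,[⟨1,[(17,0),(0,0)]⟩,⟨0,[(2,0)]⟩,⟨0,[(16,0),
  (10,0)]⟩,⟨0,[(1,0),(0,0),(22,0)]⟩]⟩) (.I [0,0,0,1,0,0,0,1] (.S ⟨1,0,[0,0,1,0,0,0,0,1],[0,1,1],[1,
  1,1,1,0,0,0,1],(⟨0,[(21,0),(2,0)]⟩,⟨0,[(9,0)]⟩),⟨0,[(21,0)]⟩,.k,.k,⟨false,0,⟨0,[]⟩,⟨1,[(11,0),(0,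
  0),(17,0)]⟩⟩,⟨true,0,⟨0,[(28,0)]⟩,⟨4,[(6,1),(18,0),(0,0)]⟩⟩,⟨true,0,⟨4,[(6,1),(18,0),(0,0)]⟩,⟨0,
  [(28,0)]⟩⟩,⟨false,1,⟨1,[(11,0),(0,0),(17,0)]⟩,⟨0,[]⟩⟩,[.e ⟨false,0,⟨2,[(0,1),(4,0),(19,0)]⟩,⟨1,
  [(4,1),(2,1),(14,0),(3,1),(3,2)]⟩⟩ ⟨false,0,⟨5,[(0,3),(1,1),(4,1),(14,0),(6,0)]⟩,⟨1,[(4,1),(24,0),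
  (0,0)]⟩⟩,.o ⟨false,1,⟨2,[(0,1),(2,1),(3,0),(8,0),(5,1),(7,1)]⟩,⟨0,[(17,0)]⟩⟩,.o ⟨false,1,⟨1,[(3,
  1),(18,0),(6,0)]⟩,⟨0,[(19,0)]⟩⟩,.a ⟨true,0,⟨0,[(3,0)]⟩,⟨1,[(8,0),(6,0),(2,0)]⟩⟩ ⟨false,0,⟨0,[(0,
  0)]⟩,⟨0,[(4,0),(23,0),(1,0)]⟩⟩ ⟨true,0,⟨5,[(0,3),(1,1),(4,1),(14,0),(6,0)]⟩,⟨0,[(4,0)]⟩⟩]⟩) (.S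
  ⟨1,0,[0,0,1,0,0,0,0,1],[0,1,1],[1,1,1],(⟨0,[(21,0),(2,0)]⟩,⟨0,[(9,0)]⟩),⟨0,[(21,0)]⟩,.k,.k,⟨false,
  0,⟨0,[(0,0)]⟩,⟨0,[(2,0),(23,0),(3,0)]⟩⟩,⟨true,0,⟨0,[(28,0)]⟩,⟨4,[(6,1),(18,0),(0,0)]⟩⟩,⟨true,0,⟨0,
  [(4,0)]⟩,⟨0,[(1,0),(5,1),(14,0),(3,1),(3,0)]⟩⟩,⟨false,1,⟨1,[(11,0),(0,0),(17,0)]⟩,⟨0,[]⟩⟩,[.e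
  ⟨false,0,⟨0,[(32,0)]⟩,⟨1,[(29,0),(0,0)]⟩⟩ ⟨false,0,⟨0,[(1,0),(5,1),(14,0),(3,1),(3,0)]⟩,⟨1,[(4,1),
  (24,0),(0,0)]⟩⟩,.o ⟨false,1,⟨1,[(1,1),(1,1),(3,3),(14,2),(3,3),(3,2)]⟩,⟨0,[(17,0)]⟩⟩,.o ⟨false,1,
  ⟨1,[(3,1),(18,0),(6,0)]⟩,⟨0,[(19,0)]⟩⟩,.a ⟨true,0,⟨0,[(3,0)]⟩,⟨1,[(8,0),(6,0),(2,0)]⟩⟩ ⟨false,0,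
  ⟨0,[]⟩,⟨1,[(11,0),(0,0),(17,0)]⟩⟩ ⟨true,0,⟨0,[(1,0),(5,1),(14,0),(3,1),(3,0)]⟩,⟨0,[(4,0)]⟩⟩]⟩))))
  (.I [1,0,-1,0,0,0,0,-1] (.R ⟨0,false,false,false,[0,1,-1],[1,0,-1],[1,0,0,0,0,0,0,-1],(⟨0,[(8,
  0)]⟩,⟨0,[(19,0),(1,0)]⟩),(⟨0,[(18,0)]⟩,⟨0,[(19,0)]⟩),⟨0,[(19,0)]⟩,.k,.k,.k,.k,.k,.k,⟨true,0,⟨0,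
  []⟩,⟨1,[(16,0),(0,0)]⟩⟩,⟨false,0,⟨0,[(13,0),(2,0)]⟩,⟨1,[(20,0),(6,0)]⟩⟩,⟨true,0,⟨1,[(5,1),(14,0),
  (3,1),(3,0)]⟩,⟨2,[(3,0),(0,0),(10,0),(0,0)]⟩⟩,⟨false,0,⟨1,[(5,0),(7,0),(2,0),(11,0)]⟩,⟨3,[(4,1),
  (15,1),(6,0),(0,0)]⟩⟩,⟨false,0,⟨0,[]⟩,⟨0,[]⟩⟩,⟨false,0,⟨0,[]⟩,⟨0,[]⟩⟩,[.o ⟨false,0,⟨0,[(0,0),(16,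
  0)]⟩,⟨1,[(14,1),(5,0),(7,0)]⟩⟩,.e ⟨false,1,⟨3,[(0,1),(1,1),(24,0),(0,2)]⟩,⟨0,[(1,0),(12,0)]⟩⟩
  ⟨false,0,⟨0,[(0,0),(3,0),(0,0),(22,0)]⟩,⟨0,[(13,0),(0,0),(5,0)]⟩⟩,.o ⟨false,1,⟨0,[(13,0),(6,0)]⟩,
  ⟨0,[(16,0)]⟩⟩,.a ⟨true,0,⟨0,[(1,0)]⟩,⟨1,[(5,0),(7,0),(2,2),(7,1),(3,0)]⟩⟩ ⟨true,0,⟨0,[(0,0)]⟩,⟨0,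
  [(3,0),(22,0)]⟩⟩ ⟨false,0,⟨0,[(0,0),(3,0),(0,0),(22,0)]⟩,⟨1,[(1,1),(12,1),(5,0),(7,0)]⟩⟩]⟩) (.Q
  [0,-1,0,-1,0,0,1,1,0,0,1] (.p true [0,0,1] [] (⟨0,[(19,0)]⟩,⟨0,[(18,0)]⟩) .k 0 (⟨0,[]⟩,⟨0,[]⟩) .k
  .k) (.R ⟨2,true,false,false,[0,1],[0,0,1],[0,0,1],(⟨0,[]⟩,⟨0,[]⟩),(⟨0,[(20,0)]⟩,⟨0,[(19,0)]⟩),⟨0,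
  []⟩,.k,.k,.k,.k,.k,.k,⟨false,1,⟨1,[(3,1),(6,0),(0,0),(17,0)]⟩,⟨0,[(0,0),(1,0),(22,0)]⟩⟩,⟨true,0,
  ⟨0,[(17,0)]⟩,⟨0,[(2,0)]⟩⟩,⟨true,0,⟨0,[(27,0)]⟩,⟨4,[(5,1),(18,0),(0,0)]⟩⟩,⟨false,0,⟨0,[(0,0)]⟩,⟨3,
  [(5,1),(10,3),(11,0),(0,2)]⟩⟩,⟨false,1,⟨1,[(10,0),(0,0),(17,0)]⟩,⟨0,[]⟩⟩,⟨true,0,⟨3,[(0,2),(4,0),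
  (9,0),(9,0)]⟩,⟨0,[(16,0)]⟩⟩,[]⟩) (.I [1,0,-2,-1,0,0,0,1] (.R ⟨0,false,false,false,[0,0,1],[1,-1,
  1],[1,0,-1,-1,0,0,0,1],(⟨0,[(21,0)]⟩,⟨0,[(20,0)]⟩),(⟨0,[(21,0),(1,0)]⟩,⟨0,[(10,0)]⟩),⟨0,[(10,0)]⟩,
  .k,.k,.k,.k,.k,.k,⟨true,0,⟨0,[]⟩,⟨1,[(18,0),(0,0)]⟩⟩,⟨false,0,⟨0,[(15,0),(2,0)]⟩,⟨1,[(22,0),(6,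
  0)]⟩⟩,⟨true,0,⟨1,[(7,1),(14,0),(3,1),(3,0)]⟩,⟨2,[(5,0),(0,0),(10,0),(0,0)]⟩⟩,⟨false,0,⟨1,[(7,0),
  (7,0),(2,0),(11,0)]⟩,⟨3,[(6,1),(15,1),(6,0),(0,0)]⟩⟩,⟨false,0,⟨0,[]⟩,⟨0,[]⟩⟩,⟨false,0,⟨0,[]⟩,⟨0,
  []⟩⟩,[.o ⟨false,0,⟨7,[(0,3),(1,1),(4,1),(8,1),(1,5),(3,0),(7,0)]⟩,⟨1,[(1,1),(20,0),(7,0)]⟩⟩,.e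
  ⟨false,1,⟨5,[(0,3),(1,1),(25,1),(0,2),(0,2)]⟩,⟨0,[(1,0),(16,0)]⟩⟩ ⟨false,0,⟨0,[(0,0),(5,0),(0,0),
  (22,0)]⟩,⟨3,[(4,3),(1,1),(15,1),(6,0),(0,0)]⟩⟩,.o ⟨false,1,⟨1,[(18,1),(3,0),(6,0)]⟩,⟨0,[(3,0)]⟩⟩,
  .a ⟨true,0,⟨0,[(18,0)]⟩,⟨0,[(15,0)]⟩⟩ ⟨true,0,⟨0,[(0,0)]⟩,⟨1,[(1,1),(16,2),(0,0)]⟩⟩ ⟨false,0,⟨0,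
  [(0,0),(5,0),(0,0),(22,0)]⟩,⟨1,[(1,1),(16,1),(3,0),(7,0)]⟩⟩]⟩) (.I [0,0,-1,-1,0,0,0,1] (.Q [0,1,0,
  0,-1,0,-1,-1,0,1,-1] (.p false [0,0,1] [1] (⟨0,[(22,0)]⟩,⟨0,[(21,0)]⟩) .k 1 (⟨0,[]⟩,⟨0,[]⟩) .k
  .k) (.R ⟨2,true,false,false,[0,1],[0,0,1],[0,1,1],(⟨0,[]⟩,⟨0,[]⟩),(⟨0,[(23,0)]⟩,⟨0,[(22,0)]⟩),⟨0,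
  []⟩,.k,.k,.k,.k,.k,.k,⟨false,0,⟨0,[(6,0)]⟩,⟨5,[(1,3),(5,1),(20,1),(2,0),(0,4)]⟩⟩,⟨true,0,⟨0,[(20,
  0)]⟩,⟨0,[(5,0)]⟩⟩,⟨false,0,⟨0,[(30,0)]⟩,⟨3,[(8,1),(22,0),(0,2)]⟩⟩,⟨true,0,⟨0,[(1,0),(18,0)]⟩,⟨0,
  [(3,0)]⟩⟩,⟨true,0,⟨0,[(34,0)]⟩,⟨0,[]⟩⟩,⟨false,1,⟨0,[(18,0),(13,0)]⟩,⟨1,[(0,1),(23,0),(7,0)]⟩⟩,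
  []⟩) (.R ⟨0,false,false,false,[0,0,1],[1,-1],[0,0,0,-1],(⟨0,[(23,0)]⟩,⟨0,[(22,0)]⟩),(⟨0,[(25,0)]⟩,
  ⟨0,[(26,0)]⟩),⟨0,[(12,0)]⟩,.k,.k,.k,.k,.k,.k,⟨true,0,⟨2,[(2,0),(1,0),(25,0)]⟩,⟨0,[]⟩⟩,⟨false,0,⟨1,
  [(10,0),(6,0),(2,0)]⟩,⟨0,[(9,0),(10,0),(3,0),(3,1),(3,0)]⟩⟩,⟨true,0,⟨0,[(2,0),(6,1),(14,0),(3,1),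
  (3,0)]⟩,⟨0,[(4,0),(23,0)]⟩⟩,⟨false,0,⟨0,[(3,0),(5,0),(22,0)]⟩,⟨4,[(0,4),(7,1),(18,0),(0,0)]⟩⟩,
  ⟨false,0,⟨0,[]⟩,⟨0,[]⟩⟩,⟨false,0,⟨0,[]⟩,⟨0,[]⟩⟩,[.o ⟨false,0,⟨0,[(30,0)]⟩,⟨3,[(8,1),(15,1),(6,0),
  (0,0)]⟩⟩,.e ⟨false,1,⟨1,[(30,1),(0,0),(0,0)]⟩,⟨4,[(8,1),(18,0),(0,0)]⟩⟩ ⟨false,0,⟨0,[(5,0),(3,0),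
  (18,0),(3,0)]⟩,⟨9,[(8,3),(11,9),(3,4),(2,1),(0,1),(2,4)]⟩⟩,.o ⟨false,1,⟨1,[(20,1),(3,0),(6,0)]⟩,
  ⟨0,[(5,0)]⟩⟩,.a ⟨true,0,⟨0,[(20,0)]⟩,⟨0,[(17,0)]⟩⟩ ⟨true,0,⟨1,[(9,1),(14,0),(3,1),(3,0)]⟩,⟨7,[(2,
  2),(4,2),(0,0),(18,1)]⟩⟩ ⟨false,0,⟨0,[(5,0),(3,0),(18,0),(3,0)]⟩,⟨2,[(0,0),(1,0),(5,0),(11,1),(3,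
  0),(6,0)]⟩⟩]⟩)) (.S ⟨1,0,[0,1,1,0,0,0,0,1],[0,1,1],[1],(⟨0,[(22,0),(2,0)]⟩,⟨0,[(10,0)]⟩),⟨0,[(22,
  0)]⟩,.k,.k,⟨true,0,⟨0,[(0,0),(7,1),(14,0),(3,1),(3,0)]⟩,⟨0,[(6,0)]⟩⟩,⟨false,0,⟨0,[(29,0)]⟩,⟨3,[(7,
  1),(22,0),(0,2)]⟩⟩,⟨false,1,⟨1,[(0,1),(7,1),(14,0),(3,1),(2,0),(0,1)]⟩,⟨0,[(3,0)]⟩⟩,⟨true,0,⟨0,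
  [(33,0)]⟩,⟨0,[]⟩⟩,[.a ⟨true,0,⟨0,[(17,0)]⟩,⟨0,[(0,0),(3,0),(3,0),(18,0),(3,0)]⟩⟩ ⟨true,0,⟨0,[]⟩,
  ⟨2,[(1,0),(1,0),(25,0)]⟩⟩ ⟨false,0,⟨0,[(4,0),(12,0)]⟩,⟨1,[(0,1),(7,1),(14,0),(3,1),(2,0),(0,1)]⟩⟩,
  .o ⟨false,1,⟨1,[(17,1),(5,0),(7,0)]⟩,⟨1,[(0,1),(3,1),(3,1),(14,0),(3,1),(3,0)]⟩⟩,.o ⟨false,1,⟨0,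
  [(8,0),(10,0),(3,0),(3,1),(3,0)]⟩,⟨0,[(20,0)]⟩⟩,.o ⟨false,1,⟨1,[(19,1),(3,0),(6,0)]⟩,⟨0,[(4,
  0)]⟩⟩]⟩)))))))))

theorem ok0 : chk K t0 l0 = true := by decide +kernel

noncomputable def t1 : Tre :=
  (.Q [0,1,0,1,0,0,-1,-1,0,0,-1] (.p false [0,0,1] [] (⟨0,[(15,0)]⟩,⟨0,[(14,0)]⟩) .k 0 (⟨0,[]⟩,⟨0,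
  []⟩) .k .k) (.I [0,1,-1,-1,0,0,0,1] (.I [1,0,0,0,0,0,0,1] (.Q [0,0,0,0,0,0,-1,-1,0,0,-1] (.p
  false [0,0,1] [] (⟨0,[(18,0)]⟩,⟨0,[(17,0)]⟩) .k 0 (⟨0,[]⟩,⟨0,[]⟩) .k .k) (.Q [0,0,0,-1,0,0,1,1,0,
  0,1] (.p true [0,0,1] [] (⟨0,[(19,0)]⟩,⟨0,[(18,0)]⟩) .k 0 (⟨0,[]⟩,⟨0,[]⟩) .k .k) (.R ⟨2,true,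
  false,true,[0,1],[0,0,1],[1,0,1,1],(⟨0,[]⟩,⟨0,[]⟩),(⟨0,[(20,0)]⟩,⟨0,[(19,0)]⟩),⟨0,[]⟩,.k,.k,.k,.k,
  .k,.k,⟨false,1,⟨0,[(1,0),(15,0),(7,0),(3,0)]⟩,⟨0,[(3,0)]⟩⟩,⟨true,0,⟨0,[(17,0)]⟩,⟨0,[(5,0)]⟩⟩,
  ⟨true,0,⟨0,[]⟩,⟨0,[(31,0)]⟩⟩,⟨false,0,⟨0,[(0,0)]⟩,⟨0,[(4,0),(24,0)]⟩⟩,⟨false,1,⟨0,[(26,0),(2,0)]⟩,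
  ⟨0,[(27,0)]⟩⟩,⟨true,0,⟨0,[(15,0)]⟩,⟨0,[(1,0)]⟩⟩,[]⟩) (.Q [0,0,0,0,0,0,1,0,0,1,1] (.p true [1,-1,
  1] [] (⟨0,[(20,0),(1,0)]⟩,⟨0,[(9,0)]⟩) .k 0 (⟨0,[]⟩,⟨0,[]⟩) .k .k) (.R ⟨0,false,false,true,[0,1,
  -1],[0,1],[1,1,1],(⟨0,[(10,0)]⟩,⟨0,[(21,0),(1,0)]⟩),(⟨0,[(24,0)]⟩,⟨0,[(23,0)]⟩),⟨0,[(21,0)]⟩,.k,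
  .k,.k,.k,.k,.k,⟨true,0,⟨0,[(28,0)]⟩,⟨0,[(1,0),(1,0),(14,0)]⟩⟩,⟨false,1,⟨1,[(0,1),(21,0),(6,0)]⟩,
  ⟨0,[(6,0)]⟩⟩,⟨false,0,⟨0,[(3,0),(24,0)]⟩,⟨1,[(0,1),(0,1),(20,0),(7,0)]⟩⟩,⟨true,0,⟨0,[(16,0)]⟩,⟨0,
  [(2,0)]⟩⟩,⟨false,0,⟨0,[]⟩,⟨0,[]⟩⟩,⟨false,0,⟨0,[]⟩,⟨0,[]⟩⟩,[.e ⟨false,0,⟨0,[(32,0)]⟩,⟨1,[(29,0),(0,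
  0)]⟩⟩ ⟨false,0,⟨0,[(18,0),(7,0)]⟩,⟨1,[(15,1),(6,0),(5,1),(1,0)]⟩⟩,.o ⟨false,1,⟨3,[(7,1),(3,0),(0,
  0),(9,0)]⟩,⟨0,[(28,0)]⟩⟩,.o ⟨false,1,⟨0,[(15,0),(6,0)]⟩,⟨0,[(18,0)]⟩⟩,.a ⟨true,0,⟨0,[(6,0)]⟩,⟨0,
  [(0,0)]⟩⟩ ⟨false,0,⟨0,[]⟩,⟨1,[(11,0),(0,0),(17,0)]⟩⟩ ⟨true,0,⟨0,[(18,0),(7,0)]⟩,⟨0,[(6,0),(21,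
  0)]⟩⟩]⟩) (.Q [0,0,-1,-1,0,0,0,1,0,1] (.pp false [-1,1]) (.R ⟨0,false,false,false,[0,0,1],[1,-1,1],
  [],(⟨0,[(22,0)]⟩,⟨0,[(21,0)]⟩),(⟨0,[(22,0),(1,0)]⟩,⟨0,[(11,0)]⟩),⟨0,[(11,0)]⟩,.k,.k,.k,.k,.k,.k,
  ⟨true,0,⟨0,[(2,0),(16,0)]⟩,⟨0,[(4,0),(24,0)]⟩⟩,⟨false,0,⟨0,[(16,0),(2,0)]⟩,⟨1,[(23,0),(6,0)]⟩⟩,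
  ⟨false,1,⟨1,[(3,1),(15,1),(10,0),(0,0)]⟩,⟨0,[(4,0)]⟩⟩,⟨true,0,⟨0,[(16,0),(2,0),(9,0)]⟩,⟨0,[(1,0),
  (17,0),(7,0)]⟩⟩,⟨false,0,⟨0,[]⟩,⟨0,[]⟩⟩,⟨false,0,⟨0,[]⟩,⟨0,[]⟩⟩,[.e ⟨false,1,⟨1,[(12,0),(0,0),(16,
  0)]⟩,⟨0,[]⟩⟩ ⟨false,0,⟨0,[(0,0)]⟩,⟨1,[(2,1),(16,1),(3,0),(6,0)]⟩⟩,.o ⟨false,1,⟨0,[(17,0),(11,0),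
  (1,0)]⟩,⟨0,[(1,0),(1,0),(15,0),(7,0)]⟩⟩,.o ⟨false,1,⟨1,[(19,1),(3,0),(6,0)]⟩,⟨0,[(7,0)]⟩⟩,.a
  ⟨true,0,⟨0,[(19,0)]⟩,⟨0,[(16,0)]⟩⟩ ⟨false,1,⟨1,[(30,0),(0,0)]⟩,⟨1,[(19,0),(0,0)]⟩⟩ ⟨true,0,⟨0,[(0,
  0)]⟩,⟨0,[(1,0),(1,0),(15,1),(7,0)]⟩⟩]⟩) (.I [0,-1,2,1,0,0,0,-1] (.R ⟨0,false,false,false,[0,0,1],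
  [0,1],[0,0,2,1],(⟨0,[(23,0)]⟩,⟨0,[(22,0)]⟩),(⟨0,[(26,0)]⟩,⟨0,[(25,0)]⟩),⟨0,[(12,0)]⟩,.k,.k,.k,.k,
  .k,.k,⟨true,0,⟨1,[(20,0),(0,0)]⟩,⟨0,[]⟩⟩,⟨false,1,⟨2,[(2,0),(7,0),(20,2)]⟩,⟨0,[(20,0)]⟩⟩,⟨false,0,
  ⟨0,[(0,0)]⟩,⟨1,[(6,1),(24,0),(0,0)]⟩⟩,⟨true,0,⟨0,[(3,0)]⟩,⟨0,[(18,0),(11,0)]⟩⟩,⟨false,0,⟨0,[]⟩,⟨0,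
  []⟩⟩,⟨false,0,⟨0,[]⟩,⟨0,[]⟩⟩,[.o ⟨false,1,⟨3,[(9,1),(3,0),(0,0),(9,0)]⟩,⟨0,[(30,0)]⟩⟩,.o ⟨false,1,
  ⟨3,[(1,1),(3,1),(18,0),(3,1),(3,2)]⟩,⟨0,[(30,0),(3,0)]⟩⟩,.o ⟨false,1,⟨1,[(20,1),(3,0),(6,0)]⟩,⟨0,
  [(8,0)]⟩⟩,.a ⟨true,0,⟨0,[(20,0)]⟩,⟨0,[(17,0)]⟩⟩ ⟨true,0,⟨1,[(0,0),(4,0),(23,0)]⟩,⟨0,[(28,0),(1,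
  1)]⟩⟩ ⟨false,1,⟨2,[(2,0),(6,0),(7,1),(10,0),(3,1)]⟩,⟨0,[(20,0),(9,0)]⟩⟩]⟩) (.Q [0,1,0,1,0,0,1,1,0,
  -1,1] (.p true [0,0,1] [1] (⟨0,[(23,0)]⟩,⟨0,[(22,0)]⟩) .k 1 (⟨0,[]⟩,⟨0,[]⟩) .k .k) (.R ⟨0,false,
  false,false,[0,0,1],[1,-1],[],(⟨0,[(24,0)]⟩,⟨0,[(23,0)]⟩),(⟨0,[(26,0)]⟩,⟨0,[(27,0)]⟩),⟨0,[(13,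
  0)]⟩,.k,.k,.k,.k,.k,.k,⟨true,0,⟨0,[(4,0),(1,0),(14,0)]⟩,⟨0,[(31,0)]⟩⟩,⟨false,0,⟨1,[(11,0),(6,0),
  (2,0)]⟩,⟨1,[(1,1),(0,1),(18,1),(10,0),(0,0)]⟩⟩,⟨false,1,⟨1,[(5,1),(15,1),(10,0),(0,0)]⟩,⟨0,[(6,
  0)]⟩⟩,⟨true,0,⟨0,[(5,0),(12,0),(2,0),(9,0)]⟩,⟨0,[(0,0)]⟩⟩,⟨false,0,⟨0,[]⟩,⟨0,[]⟩⟩,⟨false,0,⟨0,[]⟩,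
  ⟨0,[]⟩⟩,[.o ⟨false,0,⟨0,[(31,0)]⟩,⟨3,[(10,1),(3,0),(0,0),(9,0)]⟩⟩,.o ⟨false,1,⟨1,[(14,0),(0,0),
  (15,1),(1,0)]⟩,⟨6,[(0,2),(1,1),(0,1),(4,0),(19,0),(0,0)]⟩⟩,.o ⟨false,1,⟨1,[(21,1),(3,0),(6,0)]⟩,
  ⟨0,[(9,0)]⟩⟩,.a ⟨true,0,⟨0,[(21,0)]⟩,⟨0,[(18,0)]⟩⟩ ⟨false,1,⟨1,[(32,0),(0,0)]⟩,⟨1,[(21,0),(0,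
  0)]⟩⟩ ⟨true,0,⟨0,[(18,0),(12,0)]⟩,⟨2,[(0,1),(1,0),(17,0),(0,1)]⟩⟩]⟩) (.R ⟨2,true,false,false,[0,
  1],[1,0,-1],[0,0,1,0,0,0,0,-1],(⟨0,[]⟩,⟨0,[]⟩),(⟨0,[(23,0)]⟩,⟨0,[(24,0)]⟩),⟨0,[]⟩,.k,.k,.k,.k,.k,
  .k,⟨true,0,⟨1,[(21,0),(0,0)]⟩,⟨0,[]⟩⟩,⟨false,0,⟨1,[(11,0),(6,0),(2,0)]⟩,⟨1,[(1,1),(0,1),(18,1),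
  (10,0),(0,0)]⟩⟩,⟨true,0,⟨0,[(0,0),(0,0),(0,0),(18,0)]⟩,⟨0,[(6,0),(23,0)]⟩⟩,⟨false,0,⟨0,[(0,0)]⟩,
  ⟨2,[(1,0),(0,1),(3,0),(3,0),(8,2),(13,1)]⟩⟩,⟨false,1,⟨5,[(0,1),(1,1),(17,1),(0,3),(10,2),(0,2)]⟩,
  ⟨0,[(6,0)]⟩⟩,⟨true,0,⟨0,[(0,0),(29,0)]⟩,⟨0,[(1,0),(0,0),(3,0),(14,0)]⟩⟩,[]⟩)))))) (.I [1,0,1,1]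
  (.Q [0,1,0,0,0,0,1,1,0,-1,1] (.p true [0,0,1] [1] (⟨0,[(20,0)]⟩,⟨0,[(19,0)]⟩) .k 1 (⟨0,[]⟩,⟨0,
  []⟩) .k .k) (.I [0,0,-1,-1,0,0,0,1] (.I [0,0,1,1] (.I [0,0,-1,0,0,0,0,1] (.I [1,0,1,1,1,0,0,-2]
  (.I [0,-1,1,0,0,0,0,1] (.Q [0,-1,0,-1,0,0,-1,-1,0,1,-1] (.p false [0,0,1] [1] (⟨0,[(26,0)]⟩,⟨0,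
  [(25,0)]⟩) .k 1 (⟨0,[]⟩,⟨0,[]⟩) .k .k) (.R ⟨0,false,false,false,[0,1,-1],[1,0,-1],[0,0,1,0,0,0,0,
  -1],(⟨0,[(16,0)]⟩,⟨0,[(27,0),(1,0)]⟩),(⟨0,[(26,0)]⟩,⟨0,[(27,0)]⟩),⟨0,[(27,0)]⟩,.k,.k,.k,.k,.k,.k,
  ⟨true,0,⟨1,[(24,0),(0,0)]⟩,⟨0,[]⟩⟩,⟨false,0,⟨0,[(21,0),(2,0)]⟩,⟨1,[(28,0),(6,0)]⟩⟩,⟨true,0,⟨0,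
  [(34,0)]⟩,⟨0,[(33,0)]⟩⟩,⟨false,0,⟨0,[(0,0),(7,0)]⟩,⟨3,[(13,1),(3,0),(0,0),(9,0)]⟩⟩,⟨false,0,⟨0,
  []⟩,⟨0,[]⟩⟩,⟨false,0,⟨0,[]⟩,⟨0,[]⟩⟩,[.e ⟨false,1,⟨5,[(2,3),(7,1),(23,1),(0,0),(0,0)]⟩,⟨0,[(3,
  0)]⟩⟩ ⟨false,0,⟨0,[(0,0),(23,0),(7,0)]⟩,⟨2,[(3,0),(6,1),(2,0),(14,0),(7,0)]⟩⟩,.o ⟨false,1,⟨9,[(0,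
  3),(1,1),(8,1),(2,1),(13,2),(6,0),(0,3)]⟩,⟨0,[(6,0)]⟩⟩,.o ⟨false,1,⟨0,[(21,0),(6,0)]⟩,⟨0,[(24,
  0)]⟩⟩,.a ⟨true,0,⟨0,[(12,0)]⟩,⟨0,[(0,0),(7,0),(15,0),(7,0)]⟩⟩ ⟨false,1,⟨1,[(0,1),(23,1),(3,0),(3,
  1),(3,0)]⟩,⟨0,[(9,0)]⟩⟩ ⟨true,0,⟨0,[(0,0),(23,0),(7,0)]⟩,⟨0,[(6,0),(5,0)]⟩⟩]⟩) (.I [1,-1,0,-1,0,0,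
  0,1] (.Q [0,0,0,0,0,0,1,0,0,1,1] (.p true [1,-1,1] [] (⟨0,[(28,0),(1,0)]⟩,⟨0,[(17,0)]⟩) .k 0 (⟨0,
  []⟩,⟨0,[]⟩) .k .k) (.R ⟨0,false,false,false,[0,1,-1],[0,1],[1,0,1],(⟨0,[(18,0)]⟩,⟨0,[(29,0),(1,
  0)]⟩),(⟨0,[(32,0)]⟩,⟨0,[(31,0)]⟩),⟨0,[(29,0)]⟩,.k,.k,.k,.k,.k,.k,⟨true,0,⟨0,[(36,0)]⟩,⟨0,[(6,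
  0)]⟩⟩,⟨false,1,⟨1,[(0,1),(29,0),(6,0)]⟩,⟨0,[(14,0)]⟩⟩,⟨false,0,⟨0,[(1,0)]⟩,⟨11,[(0,1),(3,5),(10,
  2),(0,0),(20,2)]⟩⟩,⟨true,0,⟨0,[(10,0)]⟩,⟨0,[(25,0)]⟩⟩,⟨false,0,⟨0,[]⟩,⟨0,[]⟩⟩,⟨false,0,⟨0,[]⟩,⟨0,
  []⟩⟩,[.o ⟨false,1,⟨3,[(15,1),(3,0),(0,0),(9,0)]⟩,⟨0,[(36,0)]⟩⟩,.e ⟨false,1,⟨1,[(19,0),(0,0),(17,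
  0)]⟩,⟨0,[(34,0),(1,0)]⟩⟩ ⟨false,1,⟨0,[(26,0),(7,0),(3,0)]⟩,⟨0,[(7,0),(17,0)]⟩⟩,.o ⟨false,1,⟨0,
  [(23,0),(6,0)]⟩,⟨0,[(26,0)]⟩⟩,.a ⟨true,0,⟨0,[(14,0)]⟩,⟨0,[(0,0)]⟩⟩ ⟨true,0,⟨0,[]⟩,⟨0,[(40,0)]⟩⟩
  ⟨false,1,⟨0,[(26,0),(7,0),(3,0)]⟩,⟨0,[(1,0),(23,0)]⟩⟩]⟩) (.Q [0,0,0,0,0,0,-1,-1,0,1,-1] (.p false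
  [0,0,1] [1] (⟨0,[(29,0)]⟩,⟨0,[(28,0)]⟩) .k 1 (⟨0,[]⟩,⟨0,[]⟩) .k .k) (.R ⟨0,false,false,false,[0,1,
  -1],[1,0,-1],[0,0,1,1,0,0,0,-1],(⟨0,[(19,0)]⟩,⟨0,[(30,0),(1,0)]⟩),(⟨0,[(29,0)]⟩,⟨0,[(30,0)]⟩),⟨0,
  [(30,0)]⟩,.k,.k,.k,.k,.k,.k,⟨true,0,⟨0,[(7,0)]⟩,⟨0,[(37,0)]⟩⟩,⟨false,0,⟨0,[(24,0),(2,0)]⟩,⟨1,[(31,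
  0),(6,0)]⟩⟩,⟨false,1,⟨1,[(20,0),(0,0),(17,0)]⟩,⟨0,[]⟩⟩,⟨true,0,⟨0,[(24,0),(2,0),(9,0)]⟩,⟨0,[(1,0),
  (25,0),(7,0)]⟩⟩,⟨false,0,⟨0,[]⟩,⟨0,[]⟩⟩,⟨false,0,⟨0,[]⟩,⟨0,[]⟩⟩,[.a ⟨true,0,⟨0,[(0,0)]⟩,⟨0,[(11,
  0)]⟩⟩ ⟨false,1,⟨4,[(5,2),(5,0),(4,0),(7,0),(13,0)]⟩,⟨0,[(8,0)]⟩⟩ ⟨true,0,⟨0,[(0,0),(26,0)]⟩,⟨1,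
  [(1,0),(0,0),(0,0)]⟩⟩,.o ⟨false,1,⟨0,[(26,0),(12,0)]⟩,⟨0,[(9,0)]⟩⟩,.o ⟨false,1,⟨5,[(1,1),(15,1),
  (13,2),(6,2)]⟩,⟨0,[(27,0)]⟩⟩,.o ⟨false,0,⟨0,[(1,0)]⟩,⟨2,[(5,0),(19,1),(1,0),(9,0),(0,0),(0,
  0)]⟩⟩]⟩) (.Q [0,1,0,-1,-1,0,2,2,0,0,2] (.p true [0,0,1] [0,1,-1] (⟨0,[(30,0)]⟩,⟨0,[(29,0)]⟩) .k 2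
  (⟨0,[(19,0)]⟩,⟨0,[(30,0),(1,0)]⟩) .k (.i 0 ⟨0,[(30,1)]⟩ ⟨0,[(18,0),(0,0)]⟩)) (.I [0,0,2,1,0,0,0,
  -1] (.R ⟨0,false,false,true,[0,0,1],[0,1],[0,1,2,1],(⟨0,[(32,0)]⟩,⟨0,[(31,0)]⟩),(⟨0,[(35,0)]⟩,⟨0,
  [(34,0)]⟩),⟨0,[(21,0)]⟩,.k,.k,.k,.k,.k,.k,⟨true,0,⟨1,[(29,0),(0,0)]⟩,⟨0,[]⟩⟩,⟨false,1,⟨2,[(3,0),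
  (15,0),(20,2)]⟩,⟨0,[(29,0)]⟩⟩,⟨false,0,⟨0,[(0,0)]⟩,⟨0,[(4,0),(35,0)]⟩⟩,⟨true,0,⟨0,[(16,0)]⟩,⟨2,
  [(1,0),(25,0),(11,1),(1,0)]⟩⟩,⟨false,0,⟨0,[]⟩,⟨0,[]⟩⟩,⟨false,0,⟨0,[]⟩,⟨0,[]⟩⟩,[.o ⟨false,0,⟨0,[(2,
  0),(13,0)]⟩,⟨1,[(22,0),(0,0),(15,1),(1,0)]⟩⟩,.o ⟨false,1,⟨3,[(18,1),(3,0),(0,0),(9,0)]⟩,⟨0,[(39,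
  0)]⟩⟩,.o ⟨false,1,⟨3,[(1,1),(5,1),(25,1),(6,0),(0,0)]⟩,⟨0,[(17,0)]⟩⟩,.a ⟨true,0,⟨0,[(29,0)]⟩,⟨0,
  [(26,0)]⟩⟩ ⟨false,0,⟨0,[(9,0)]⟩,⟨1,[(39,1),(0,0),(0,0)]⟩⟩ ⟨true,0,⟨2,[(3,0),(15,0),(17,2)]⟩,⟨0,
  [(29,0),(9,0)]⟩⟩]⟩) (.Q [0,-1,-1,-1,0,0,0,1,0,1] (.pp false [-1,1]) (.R ⟨0,false,false,false,[0,0,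
  1],[1,-1,1],[1,0,-1,-1,0,0,0,1],(⟨0,[(33,0)]⟩,⟨0,[(32,0)]⟩),(⟨0,[(33,0),(1,0)]⟩,⟨0,[(22,0)]⟩),⟨0,
  [(22,0)]⟩,.k,.k,.k,.k,.k,.k,⟨true,0,⟨0,[]⟩,⟨1,[(30,0),(0,0)]⟩⟩,⟨false,0,⟨0,[(27,0),(2,0)]⟩,⟨1,
  [(34,0),(6,0)]⟩⟩,⟨false,1,⟨1,[(40,1),(0,0),(0,0)]⟩,⟨0,[(10,0)]⟩⟩,⟨true,0,⟨0,[(0,0),(28,0),(0,0)]⟩,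
  ⟨0,[(3,0),(13,0)]⟩⟩,⟨false,0,⟨0,[]⟩,⟨0,[]⟩⟩,⟨false,0,⟨0,[]⟩,⟨0,[]⟩⟩,[.o ⟨false,0,⟨2,[(2,0),(25,0),
  (11,1),(1,0)]⟩,⟨11,[(4,9),(3,5),(10,2),(0,0),(20,2)]⟩⟩,.e ⟨false,1,⟨1,[(0,1),(33,0),(6,0)]⟩,⟨0,
  [(17,0),(12,0)]⟩⟩ ⟨false,0,⟨0,[(0,0)]⟩,⟨11,[(6,0),(1,5),(8,0),(1,0),(14,4),(2,3),(0,1)]⟩⟩,.o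
  ⟨false,1,⟨3,[(2,1),(5,1),(25,1),(6,0),(0,0)]⟩,⟨0,[(18,0)]⟩⟩,.a ⟨true,0,⟨0,[(30,0)]⟩,⟨0,[(27,0)]⟩⟩
  ⟨true,0,⟨0,[(1,0)]⟩,⟨0,[(10,0),(18,0),(0,0)]⟩⟩ ⟨false,0,⟨0,[(0,0)]⟩,⟨1,[(8,0),(1,0),(23,0)]⟩⟩]⟩)
  (.Q [0,-1,0,-1,0,0,1,1,0,1,1] (.p true [1,-1,1] [] (⟨0,[(33,0),(1,0)]⟩,⟨0,[(22,0)]⟩) .k 0 (⟨0,[]⟩,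
  ⟨0,[]⟩) .k .k) (.R ⟨0,false,false,false,[0,0,1],[1,-1,1],[1,0,-1,-1,0,0,0,1],(⟨0,[(34,0)]⟩,⟨0,
  [(33,0)]⟩),(⟨0,[(34,0),(1,0)]⟩,⟨0,[(23,0)]⟩),⟨0,[(23,0)]⟩,.k,.k,.k,.k,.k,.k,⟨true,0,⟨0,[]⟩,⟨1,
  [(31,0),(0,0)]⟩⟩,⟨false,0,⟨0,[(0,0),(17,0)]⟩,⟨1,[(35,0),(6,0)]⟩⟩,⟨false,1,⟨1,[(41,1),(0,0),(0,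
  0)]⟩,⟨0,[(11,0)]⟩⟩,⟨true,0,⟨0,[(0,0),(29,0)]⟩,⟨2,[(1,0),(3,0),(1,0),(31,0)]⟩⟩,⟨false,0,⟨0,[]⟩,⟨0,
  []⟩⟩,⟨false,0,⟨0,[]⟩,⟨0,[]⟩⟩,[.o ⟨false,0,⟨4,[(0,1),(2,0),(25,0),(5,0),(5,1)]⟩,⟨11,[(5,9),(3,5),
  (10,2),(0,0),(20,2)]⟩⟩,.a ⟨true,0,⟨0,[(0,0)]⟩,⟨0,[(18,0)]⟩⟩ ⟨false,1,⟨3,[(2,1),(14,1),(24,0),(0,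
  2)]⟩,⟨0,[(18,0),(12,0)]⟩⟩ ⟨true,0,⟨2,[(0,1),(5,0),(14,0)]⟩,⟨0,[(1,0)]⟩⟩,.o ⟨false,1,⟨3,[(3,1),(5,
  1),(25,1),(6,0),(0,0)]⟩,⟨0,[(19,0)]⟩⟩,.e ⟨true,0,⟨0,[(2,0)]⟩,⟨0,[(11,0),(18,0),(0,0)]⟩⟩ ⟨true,0,
  ⟨1,[(0,0),(16,0),(10,0)]⟩,⟨0,[(1,0)]⟩⟩]⟩) (.I [0,-1,0,-1,1,0,0,-1] (.I [0,0,1,1,1,0,0,-2] (.R ⟨0,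
  false,false,false,[0,0,1],[0,1,-1],[0,0,0,0,0,0,0,1],(⟨0,[(36,0)]⟩,⟨0,[(35,0)]⟩),(⟨0,[(25,0)]⟩,⟨0,
  [(36,0),(1,0)]⟩),⟨0,[(25,0)]⟩,.k,.k,.k,(.r 0 ⟨2,[(8,0),(1,0),(1,1),(6,1)]⟩ ⟨0,[(0,0)]⟩),.k,.k,
  ⟨false,0,⟨2,[(4,0),(3,0),(3,2),(6,0)]⟩,⟨0,[(11,0)]⟩⟩,⟨true,0,⟨0,[(7,0),(22,0)]⟩,⟨0,[(33,1)]⟩⟩,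
  ⟨false,1,⟨1,[(26,0),(0,0),(17,0)]⟩,⟨0,[]⟩⟩,⟨true,1,⟨10,[(0,4),(0,2),(0,8),(20,3),(6,4),(14,2)]⟩,
  ⟨0,[(5,0)]⟩⟩,⟨false,0,⟨0,[]⟩,⟨0,[]⟩⟩,⟨false,0,⟨0,[]⟩,⟨0,[]⟩⟩,[.o ⟨false,1,⟨17,[(0,3),(1,9),(19,1),
  (0,3),(13,4),(6,1),(0,4)]⟩,⟨2,[(1,0),(3,0),(2,0),(22,0)]⟩⟩,.o ⟨false,1,⟨0,[(2,0),(42,0)]⟩,⟨4,[(1,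
  1),(3,1),(13,0),(11,1),(2,0),(12,1)]⟩⟩,.o ⟨false,1,⟨3,[(0,1),(4,1),(31,1),(6,0),(0,0)]⟩,⟨0,[(21,
  0)]⟩⟩,.a ⟨true,0,⟨0,[(33,0)]⟩,⟨0,[(30,0)]⟩⟩ ⟨true,0,⟨0,[(12,0)]⟩,⟨0,[(32,0),(0,0)]⟩⟩ ⟨false,1,⟨0,
  [(2,0),(27,0),(14,0)]⟩,⟨3,[(1,1),(3,1),(4,0),(20,0),(1,2)]⟩⟩]⟩) (.N [0,-1,2] 1 ⟨0,[(0,0)]⟩ ⟨0,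
  [(11,0)]⟩ (.x (-1) ⟨1,[(5,1),(5,1),(13,1),(9,1),(1,0),(7,0)]⟩ ⟨3,[(0,1),(0,0),(0,2),(4,2),(22,1),
  (5,7),(1,3),(6,0)]⟩))) (.R ⟨0,false,false,false,[0,0,1],[1,-1],[0,0,0,-1],(⟨0,[(35,0)]⟩,⟨0,[(34,
  0)]⟩),(⟨0,[(37,0)]⟩,⟨0,[(38,0)]⟩),⟨0,[(24,0)]⟩,.k,.k,.k,.k,.k,.k,⟨true,0,⟨1,[(32,0),(0,0)]⟩,⟨0,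
  []⟩⟩,⟨false,0,⟨1,[(22,0),(6,0),(2,0)]⟩,⟨0,[(3,0),(1,0),(4,0)]⟩⟩,⟨true,1,⟨5,[(10,3),(7,1),(23,7),
  (0,0),(0,0)]⟩,⟨0,[(0,0)]⟩⟩,⟨false,1,⟨3,[(10,1),(11,0),(6,2),(2,0),(9,5),(1,1)]⟩,⟨0,[(0,0),(1,0),
  (0,0),(28,0),(11,0)]⟩⟩,⟨false,0,⟨0,[]⟩,⟨0,[]⟩⟩,⟨false,0,⟨0,[]⟩,⟨0,[]⟩⟩,[.o ⟨false,0,⟨0,[(42,0)]⟩,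
  ⟨3,[(21,1),(3,0),(0,0),(9,0)]⟩⟩,.o ⟨false,1,⟨1,[(25,0),(0,0),(15,1),(1,0)]⟩,⟨1,[(1,0),(6,0)]⟩⟩,.o
  ⟨false,1,⟨3,[(4,1),(5,1),(25,1),(6,0),(0,0)]⟩,⟨0,[(20,0)]⟩⟩,.a ⟨true,0,⟨0,[(32,0)]⟩,⟨0,[(29,0)]⟩⟩
  ⟨false,1,⟨1,[(42,1),(0,0),(0,0)]⟩,⟨0,[(15,0)]⟩⟩ ⟨true,0,⟨0,[(29,0),(12,0)]⟩,⟨1,[(2,0),(5,0),(23,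
  0)]⟩⟩]⟩))))) (.R ⟨0,false,false,false,[0,0,1],[0,1,-1],[1,0,0,0,0,0,0,1],(⟨0,[(31,0)]⟩,⟨0,[(30,
  0)]⟩),(⟨0,[(20,0)]⟩,⟨0,[(31,0),(1,0)]⟩),⟨0,[(20,0)]⟩,.k,.k,.k,(.r 0 ⟨2,[(3,0),(1,0),(1,1),(6,1)]⟩
  ⟨0,[(0,0),(27,1),(7,0),(1,0)]⟩),.k,.k,⟨false,0,⟨0,[(7,0),(1,0)]⟩,⟨0,[(0,0),(27,1),(7,0),(1,0)]⟩⟩,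
  ⟨true,0,⟨0,[(2,0),(22,0)]⟩,⟨0,[(28,1)]⟩⟩,⟨true,0,⟨0,[]⟩,⟨0,[(42,0)]⟩⟩,⟨false,1,⟨0,[(0,0)]⟩,⟨0,
  [(12,1),(25,0)]⟩⟩,⟨false,0,⟨0,[]⟩,⟨0,[]⟩⟩,⟨false,0,⟨0,[]⟩,⟨0,[]⟩⟩,[.o ⟨false,1,⟨2,[(0,0),(16,0),
  (9,0),(4,0)]⟩,⟨0,[(12,0),(25,0)]⟩⟩,.o ⟨false,1,⟨0,[(0,0),(0,0)]⟩,⟨0,[(26,0),(11,0)]⟩⟩,.o ⟨false,1,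
  ⟨1,[(28,1),(3,0),(6,0)]⟩,⟨0,[(16,0)]⟩⟩,.a ⟨true,0,⟨0,[(28,0)]⟩,⟨0,[(25,0)]⟩⟩ ⟨true,0,⟨0,[(7,0)]⟩,
  ⟨0,[(27,0),(0,0)]⟩⟩ ⟨false,1,⟨0,[(0,0),(6,0)]⟩,⟨0,[(12,0),(15,0),(9,0)]⟩⟩]⟩)))) (.I [0,0,2,1,0,0,
  0,-1] (.R ⟨0,false,false,true,[0,0,1],[0,1],[1,1,0,0,0,0,0,1],(⟨0,[(29,0)]⟩,⟨0,[(28,0)]⟩),(⟨0,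
  [(32,0)]⟩,⟨0,[(31,0)]⟩),⟨0,[(18,0)]⟩,.k,.k,.k,.k,.k,.k,⟨true,0,⟨0,[(7,0)]⟩,⟨0,[(0,0)]⟩⟩,⟨false,1,
  ⟨1,[(23,1),(6,0),(6,0)]⟩,⟨0,[(26,0)]⟩⟩,⟨false,0,⟨0,[]⟩,⟨1,[(19,0),(0,0),(17,0)]⟩⟩,⟨true,0,⟨0,[(13,
  0)]⟩,⟨0,[(10,0),(25,0)]⟩⟩,⟨false,0,⟨0,[]⟩,⟨0,[]⟩⟩,⟨false,0,⟨0,[]⟩,⟨0,[]⟩⟩,[.e ⟨false,0,⟨6,[(2,0),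
  (2,3),(6,0),(3,0),(7,0),(8,1)]⟩,⟨0,[(1,0),(34,0),(1,0)]⟩⟩ ⟨false,0,⟨0,[(5,0),(7,0)]⟩,⟨1,[(26,1),
  (9,1),(0,0),(0,0)]⟩⟩,.o ⟨false,1,⟨3,[(15,1),(3,0),(0,0),(9,0)]⟩,⟨0,[(36,0)]⟩⟩,.o ⟨false,1,⟨1,[(26,
  1),(3,0),(6,0)]⟩,⟨0,[(14,0)]⟩⟩,.a ⟨true,0,⟨0,[(26,0)]⟩,⟨0,[(23,0)]⟩⟩ ⟨false,0,⟨0,[(5,0)]⟩,⟨2,[(3,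
  0),(0,1),(31,1),(1,0)]⟩⟩ ⟨true,0,⟨0,[(5,0),(7,0)]⟩,⟨0,[(26,0),(9,0)]⟩⟩]⟩) (.Q [0,0,0,0,0,0,1,0,0,
  1,1] (.p true [1,-1,1] [] (⟨0,[(29,0),(1,0)]⟩,⟨0,[(18,0)]⟩) .k 0 (⟨0,[]⟩,⟨0,[]⟩) .k .k) (.R ⟨0,
  false,false,false,[0,1,-1],[0,1],[0,0,2,1],(⟨0,[(19,0)]⟩,⟨0,[(30,0),(1,0)]⟩),(⟨0,[(33,0)]⟩,⟨0,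
  [(32,0)]⟩),⟨0,[(30,0)]⟩,.k,.k,.k,.k,.k,.k,⟨true,0,⟨1,[(27,0),(0,0)]⟩,⟨0,[]⟩⟩,⟨false,1,⟨1,[(0,1),
  (30,0),(6,0)]⟩,⟨0,[(15,0)]⟩⟩,⟨false,0,⟨0,[(4,0)]⟩,⟨0,[(1,0),(3,0)]⟩⟩,⟨true,0,⟨0,[(11,0)]⟩,⟨0,[(26,
  0)]⟩⟩,⟨false,0,⟨0,[]⟩,⟨0,[]⟩⟩,⟨false,0,⟨0,[]⟩,⟨0,[]⟩⟩,[.o ⟨false,1,⟨3,[(16,1),(3,0),(0,0),(9,0)]⟩,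
  ⟨0,[(37,0)]⟩⟩,.e ⟨false,1,⟨29,[(0,3),(3,17),(0,11),(10,8),(0,4),(7,5),(13,8)]⟩,⟨0,[(1,0),(0,0),
  (34,0)]⟩⟩ ⟨false,1,⟨1,[(0,0),(1,0),(0,0),(35,1)]⟩,⟨3,[(1,1),(11,0),(12,2),(1,0),(8,0)]⟩⟩,.o
  ⟨false,1,⟨0,[(24,0),(6,0)]⟩,⟨0,[(27,0)]⟩⟩,.a ⟨true,0,⟨0,[(15,0)]⟩,⟨0,[(0,0)]⟩⟩ ⟨true,0,⟨0,[(7,
  0)]⟩,⟨2,[(1,0),(0,0),(31,0),(2,2)]⟩⟩ ⟨false,1,⟨1,[(0,0),(1,0),(0,0),(35,1)]⟩,⟨0,[(15,0),(21,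
  0)]⟩⟩]⟩) (.Q [0,-1,0,1,1,0,-2,-2,0,0,-2] (.p false [0,0,1] [0,1,-1] (⟨0,[(30,0)]⟩,⟨0,[(29,0)]⟩)
  .k 2 (⟨0,[(19,0)]⟩,⟨0,[(30,0),(1,0)]⟩) .k (.r 0 ⟨0,[(1,1),(0,3),(1,3),(32,1)]⟩ ⟨0,[(2,1),(34,1),
  (1,0)]⟩)) (.R ⟨0,false,false,false,[0,0,1],[0,1,-1],[0,1,1],(⟨0,[(31,0)]⟩,⟨0,[(30,0)]⟩),(⟨0,[(20,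
  0)]⟩,⟨0,[(31,0),(1,0)]⟩),⟨0,[(20,0)]⟩,.k,.k,.k,(.r 0 ⟨2,[(2,0),(2,1),(1,0),(6,1)]⟩ ⟨0,[(3,2),(1,
  0),(32,1),(1,0)]⟩),.k,.k,⟨false,0,⟨0,[(14,0)]⟩,⟨0,[(3,0),(36,0)]⟩⟩,⟨true,0,⟨0,[(1,0),(23,0)]⟩,⟨0,
  [(28,1)]⟩⟩,⟨true,0,⟨0,[(27,0),(0,0)]⟩,⟨0,[(7,0)]⟩⟩,⟨false,1,⟨0,[(0,0)]⟩,⟨0,[(12,1),(25,0)]⟩⟩,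
  ⟨false,0,⟨0,[]⟩,⟨0,[]⟩⟩,⟨false,0,⟨0,[]⟩,⟨0,[]⟩⟩,[.o ⟨false,1,⟨2,[(0,0),(16,0),(9,0),(4,0)]⟩,⟨0,
  [(12,0),(25,0)]⟩⟩,.o ⟨false,1,⟨0,[(1,0),(1,0),(36,0)]⟩,⟨0,[(26,0),(11,0)]⟩⟩,.o ⟨false,1,⟨1,[(28,
  1),(3,0),(6,0)]⟩,⟨0,[(16,0)]⟩⟩,.a ⟨true,0,⟨0,[(28,0)]⟩,⟨0,[(25,0)]⟩⟩ ⟨true,0,⟨0,[(42,0)]⟩,⟨0,[]⟩⟩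
  ⟨false,1,⟨0,[(0,0),(6,0)]⟩,⟨0,[(12,0),(15,0),(9,0)]⟩⟩]⟩) (.R ⟨0,false,false,false,[0,0,1],[0,1,
  -1],[0,0,0,0,0,0,0,1],(⟨0,[(31,0)]⟩,⟨0,[(30,0)]⟩),(⟨0,[(20,0)]⟩,⟨0,[(31,0),(1,0)]⟩),⟨0,[(20,0)]⟩,
  .k,.k,.k,(.r 0 ⟨2,[(2,0),(2,1),(1,0),(6,1)]⟩ ⟨0,[(3,2),(1,0),(32,1),(1,0)]⟩),.k,.k,⟨false,0,⟨2,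
  [(2,1),(2,0),(1,1),(6,0)]⟩,⟨0,[(6,0)]⟩⟩,⟨true,0,⟨0,[(1,0),(23,0)]⟩,⟨0,[(28,1)]⟩⟩,⟨false,1,⟨1,[(21,
  0),(0,0),(17,0)]⟩,⟨0,[]⟩⟩,⟨true,1,⟨0,[(15,0),(11,0),(12,0)]⟩,⟨0,[(0,0)]⟩⟩,⟨false,0,⟨0,[]⟩,⟨0,[]⟩⟩,
  ⟨false,0,⟨0,[]⟩,⟨0,[]⟩⟩,[.o ⟨false,1,⟨1,[(15,1),(16,0),(7,0)]⟩,⟨2,[(0,0),(25,0),(11,1),(1,0)]⟩⟩,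
  .o ⟨false,1,⟨0,[(1,0),(1,0),(36,0)]⟩,⟨0,[(26,0),(11,0)]⟩⟩,.o ⟨false,1,⟨3,[(0,1),(5,1),(25,1),(6,
  0),(0,0)]⟩,⟨0,[(16,0)]⟩⟩,.a ⟨true,0,⟨0,[(28,0)]⟩,⟨0,[(25,0)]⟩⟩ ⟨true,0,⟨0,[(7,0)]⟩,⟨0,[(27,0),(0,
  0)]⟩⟩ ⟨false,1,⟨0,[(1,0),(1,0),(21,0),(14,0)]⟩,⟨2,[(0,0),(25,0),(1,2),(9,1),(1,0)]⟩⟩]⟩)))))) (.Q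
  [0,-1,0,-1,0,0,0,0,0,1] (.pp false [-1,1]) (.R ⟨0,false,false,false,[0,1,-1],[1,0,-1],[1,0,1,1,0,
  0,0,-1],(⟨0,[(16,0)]⟩,⟨0,[(27,0),(1,0)]⟩),(⟨0,[(26,0)]⟩,⟨0,[(27,0)]⟩),⟨0,[(27,0)]⟩,.k,.k,.k,.k,.k,
  .k,⟨true,0,⟨0,[(7,0)]⟩,⟨0,[(34,0)]⟩⟩,⟨false,0,⟨0,[(21,0),(2,0)]⟩,⟨1,[(28,0),(6,0)]⟩⟩,⟨true,0,⟨0,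
  []⟩,⟨0,[(38,0)]⟩⟩,⟨false,0,⟨0,[(0,0)]⟩,⟨3,[(13,1),(3,0),(0,0),(9,0)]⟩⟩,⟨false,0,⟨0,[]⟩,⟨0,[]⟩⟩,
  ⟨false,0,⟨0,[]⟩,⟨0,[]⟩⟩,[.e ⟨false,1,⟨4,[(2,2),(5,0),(4,0),(7,0),(13,0)]⟩,⟨0,[(5,0)]⟩⟩ ⟨false,0,
  ⟨0,[(0,0),(0,0),(2,0)]⟩,⟨2,[(3,0),(6,1),(2,0),(14,0),(7,0)]⟩⟩,.o ⟨false,1,⟨0,[(23,0),(12,0)]⟩,⟨0,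
  [(6,0)]⟩⟩,.o ⟨false,1,⟨0,[(21,0),(6,0)]⟩,⟨0,[(24,0)]⟩⟩,.a ⟨true,0,⟨0,[(12,0)]⟩,⟨0,[(0,0),(23,0),
  (7,0)]⟩⟩ ⟨false,1,⟨0,[(1,0),(2,0),(31,0)]⟩,⟨0,[(9,0),(24,0)]⟩⟩ ⟨true,0,⟨0,[(0,0),(0,0),(2,0)]⟩,⟨0,
  [(6,0),(5,0)]⟩⟩]⟩) (.Q [0,0,0,-1,0,0,-1,-1,0,1,-1] (.p false [0,0,1] [1] (⟨0,[(27,0)]⟩,⟨0,[(26,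
  0)]⟩) .k 1 (⟨0,[]⟩,⟨0,[]⟩) .k .k) (.R ⟨0,false,false,false,[0,0,1],[1,-1],[],(⟨0,[(28,0)]⟩,⟨0,
  [(27,0)]⟩),(⟨0,[(30,0)]⟩,⟨0,[(31,0)]⟩),⟨0,[(17,0)]⟩,.k,.k,.k,.k,.k,.k,⟨true,0,⟨0,[(5,0)]⟩,⟨0,[(35,
  0)]⟩⟩,⟨false,0,⟨1,[(15,0),(6,0),(2,0)]⟩,⟨1,[(2,1),(6,1),(19,0),(7,0)]⟩⟩,⟨false,1,⟨2,[(2,0),(0,0),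
  (31,0),(1,1)]⟩,⟨0,[(10,0)]⟩⟩,⟨true,0,⟨0,[(0,0)]⟩,⟨0,[(1,0),(7,0)]⟩⟩,⟨false,0,⟨0,[]⟩,⟨0,[]⟩⟩,
  ⟨false,0,⟨0,[]⟩,⟨0,[]⟩⟩,[.o ⟨false,0,⟨0,[(35,0)]⟩,⟨3,[(14,1),(3,0),(0,0),(9,0)]⟩⟩,.o ⟨false,1,⟨1,
  [(18,0),(0,0),(15,1),(1,0)]⟩,⟨0,[(1,0)]⟩⟩,.o ⟨false,1,⟨1,[(25,1),(3,0),(6,0)]⟩,⟨0,[(13,0)]⟩⟩,.a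
  ⟨true,0,⟨0,[(25,0)]⟩,⟨0,[(22,0)]⟩⟩ ⟨false,1,⟨1,[(36,0),(0,0)]⟩,⟨1,[(25,0),(0,0)]⟩⟩ ⟨true,0,⟨1,[(0,
  0),(5,0),(15,0)]⟩,⟨0,[(1,0),(23,0)]⟩⟩]⟩) (.Q [0,0,-1,0,0,0,-2,0,0,0,-2] (.p false [0,0,1] [0,1,
  -1] (⟨0,[(28,0)]⟩,⟨0,[(27,0)]⟩) .k 2 (⟨0,[(17,0)]⟩,⟨0,[(28,0),(1,0)]⟩) .k (.r 0 ⟨0,[(0,1),(21,1),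
  (12,1),(2,1)]⟩ ⟨2,[(2,1),(0,1),(31,1),(1,0)]⟩)) (.Q [0,1,0,-1,-1,0,2,2,0,0,2] (.p true [0,0,1] [0,
  1,-1] (⟨0,[(29,0)]⟩,⟨0,[(28,0)]⟩) .k 2 (⟨0,[(18,0)]⟩,⟨0,[(29,0),(1,0)]⟩) .k (.r 0 ⟨0,[(0,0),(0,1),
  (15,1),(11,1),(2,1),(3,1),(2,0)]⟩ ⟨2,[(3,1),(0,1),(31,1),(1,0)]⟩)) (.R ⟨0,false,false,false,[0,0,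
  1],[0,1,-1],[0,0,0,0,0,0,0,1],(⟨0,[(30,0)]⟩,⟨0,[(29,0)]⟩),(⟨0,[(19,0)]⟩,⟨0,[(30,0),(1,0)]⟩),⟨0,
  [(19,0)]⟩,.k,.k,.k,(.r 0 ⟨0,[(8,0),(3,0)]⟩ ⟨0,[(4,1),(2,0),(31,0),(0,1)]⟩),.k,.k,⟨false,0,⟨0,[(6,
  0),(1,0)]⟩,⟨0,[(5,0)]⟩⟩,⟨true,0,⟨0,[(1,0)]⟩,⟨0,[(27,1)]⟩⟩,⟨false,1,⟨1,[(20,0),(0,0),(17,0)]⟩,⟨0,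
  []⟩⟩,⟨true,1,⟨0,[(1,0),(3,0)]⟩,⟨0,[(0,0)]⟩⟩,⟨false,0,⟨0,[]⟩,⟨0,[]⟩⟩,⟨false,0,⟨0,[]⟩,⟨0,[]⟩⟩,[.o
  ⟨false,1,⟨1,[(14,1),(16,0),(7,0)]⟩,⟨2,[(0,0),(24,0),(11,1),(1,0)]⟩⟩,.e ⟨false,1,⟨1,[(12,1),(25,0),
  (0,0)]⟩,⟨1,[(4,0),(21,0),(0,0)]⟩⟩ ⟨false,1,⟨0,[(1,0),(2,0),(2,0),(31,0)]⟩,⟨2,[(0,1),(4,0),(19,0),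
  (1,0),(9,1),(0,0)]⟩⟩,.o ⟨false,1,⟨1,[(27,1),(3,0),(6,0)]⟩,⟨0,[(15,0)]⟩⟩,.a ⟨true,0,⟨0,[(27,0)]⟩,
  ⟨0,[(24,0)]⟩⟩ ⟨true,0,⟨0,[(6,0)]⟩,⟨0,[(26,0),(0,0)]⟩⟩ ⟨false,1,⟨0,[(1,0),(2,0),(2,0),(31,0)]⟩,⟨2,
  [(0,0),(24,0),(1,2),(9,1),(1,0)]⟩⟩]⟩) (.R ⟨0,false,false,false,[0,0,1],[0,1,-1],[0,1,1],(⟨0,[(30,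
  0)]⟩,⟨0,[(29,0)]⟩),(⟨0,[(19,0)]⟩,⟨0,[(30,0),(1,0)]⟩),⟨0,[(19,0)]⟩,.k,.k,.k,(.r 0 ⟨0,[(8,0),(3,
  0)]⟩ ⟨0,[(4,1),(2,0),(31,0),(0,1)]⟩),.k,.k,⟨false,0,⟨0,[(13,0)]⟩,⟨0,[(4,0),(2,0),(31,0)]⟩⟩,⟨true,
  0,⟨0,[(1,0)]⟩,⟨0,[(27,1)]⟩⟩,⟨true,0,⟨0,[(26,0),(0,0)]⟩,⟨0,[(6,0)]⟩⟩,⟨false,1,⟨0,[(0,0)]⟩,⟨0,[(11,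
  1),(25,0)]⟩⟩,⟨false,0,⟨0,[]⟩,⟨0,[]⟩⟩,⟨false,0,⟨0,[]⟩,⟨0,[]⟩⟩,[.o ⟨false,1,⟨2,[(0,0),(15,0),(9,0),
  (4,0)]⟩,⟨0,[(11,0),(25,0)]⟩⟩,.o ⟨false,1,⟨0,[(0,0),(1,0),(34,0)]⟩,⟨0,[(25,0),(11,0)]⟩⟩,.o ⟨false,
  1,⟨1,[(27,1),(3,0),(6,0)]⟩,⟨0,[(15,0)]⟩⟩,.a ⟨true,0,⟨0,[(27,0)]⟩,⟨0,[(24,0)]⟩⟩ ⟨true,0,⟨0,[(41,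
  0)]⟩,⟨0,[]⟩⟩ ⟨false,1,⟨0,[(0,0),(5,0)]⟩,⟨0,[(11,0),(15,0),(9,0)]⟩⟩]⟩)) (.K ⟨0,[0,1,-1],0,0,(⟨0,
  [(18,0)]⟩,⟨0,[(29,0),(1,0)]⟩),.k,.k,(.x (-1) ⟨0,[(1,1),(1,1),(10,2),(14,0),(1,1),(4,1),(1,0)]⟩ ⟨0,
  [(0,0),(17,0),(8,0),(4,0)]⟩),(.r (-1) ⟨0,[(3,1),(2,0),(31,0),(0,1)]⟩ ⟨0,[(7,0),(3,0)]⟩),.k,[⟨0,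
  [(0,0)]⟩,⟨0,[(14,0)]⟩,⟨0,[(24,0),(11,0)]⟩,⟨0,[(13,0)]⟩]⟩))))) (.Q [0,1,0,1,0,0,0,0,0,-1] (.pp
  true [-1,1]) (.Q [0,-1,-1,-1,0,0,0,1,0,1] (.pp false [-1,1]) (.R ⟨0,false,false,false,[0,0,1],[1,
  -1,1],[0,1],(⟨0,[(27,0)]⟩,⟨0,[(26,0)]⟩),(⟨0,[(27,0),(1,0)]⟩,⟨0,[(16,0)]⟩),⟨0,[(16,0)]⟩,.k,.k,.k,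
  .k,.k,.k,⟨true,0,⟨0,[(11,0),(12,0)]⟩,⟨3,[(2,1),(21,0),(0,0),(8,1),(1,1)]⟩⟩,⟨false,0,⟨0,[(21,0),(2,
  0)]⟩,⟨1,[(28,0),(6,0)]⟩⟩,⟨false,1,⟨1,[(23,1),(0,1),(10,0),(0,0)]⟩,⟨1,[(2,0),(1,0),(31,0)]⟩⟩,⟨true,
  0,⟨0,[(21,0),(2,0),(9,0)]⟩,⟨0,[(1,0)]⟩⟩,⟨false,0,⟨0,[]⟩,⟨0,[]⟩⟩,⟨false,0,⟨0,[]⟩,⟨0,[]⟩⟩,[.o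
  ⟨false,0,⟨0,[(8,0),(25,0)]⟩,⟨1,[(11,1),(16,0),(7,0)]⟩⟩,.e ⟨false,1,⟨1,[(17,0),(0,0),(16,0)]⟩,⟨0,
  []⟩⟩ ⟨false,0,⟨0,[(0,0)]⟩,⟨1,[(11,1),(12,1),(3,0),(6,0)]⟩⟩,.o ⟨false,1,⟨1,[(24,1),(3,0),(6,0)]⟩,
  ⟨0,[(12,0)]⟩⟩,.a ⟨true,0,⟨0,[(24,0)]⟩,⟨0,[(21,0)]⟩⟩ ⟨true,0,⟨0,[(32,0),(1,0)]⟩,⟨1,[(24,0),(0,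
  0)]⟩⟩ ⟨false,0,⟨0,[(0,0)]⟩,⟨1,[(11,1),(12,1),(3,0),(7,0)]⟩⟩]⟩) (.Q [0,-1,-2,-1,1,0,1,1,0,0,1] (.p
  true [0,0,1] [] (⟨0,[(27,0)]⟩,⟨0,[(26,0)]⟩) .k 0 (⟨0,[]⟩,⟨0,[]⟩) .k .k) (.R ⟨0,false,false,true,
  [0,0,1],[1,-1],[0,1],(⟨0,[(28,0)]⟩,⟨0,[(27,0)]⟩),(⟨0,[(30,0)]⟩,⟨0,[(31,0)]⟩),⟨0,[(17,0)]⟩,.k,.k,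
  .k,.k,.k,.k,⟨true,0,⟨0,[(5,0)]⟩,⟨0,[(35,0)]⟩⟩,⟨false,0,⟨1,[(15,0),(6,0),(2,0)]⟩,⟨0,[(0,0),(0,
  0)]⟩⟩,⟨false,1,⟨1,[(24,1),(0,1),(10,0),(0,0)]⟩,⟨1,[(3,0),(1,0),(31,0)]⟩⟩,⟨true,0,⟨0,[(22,0),(1,0),
  (0,0),(9,0)]⟩,⟨0,[(1,0),(1,0),(21,0),(7,0),(3,0)]⟩⟩,⟨false,0,⟨0,[]⟩,⟨0,[]⟩⟩,⟨false,0,⟨0,[]⟩,⟨0,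
  []⟩⟩,[.o ⟨false,0,⟨0,[(35,0),(3,0)]⟩,⟨0,[(2,0),(34,0)]⟩⟩,.o ⟨false,0,⟨0,[(35,0)]⟩,⟨3,[(14,1),(3,
  0),(0,0),(9,0)]⟩⟩,.o ⟨false,1,⟨1,[(25,1),(3,0),(6,0)]⟩,⟨0,[(13,0)]⟩⟩,.a ⟨true,0,⟨0,[(25,0)]⟩,⟨0,
  [(22,0)]⟩⟩ ⟨true,0,⟨0,[(33,0),(1,0)]⟩,⟨1,[(25,0),(0,0)]⟩⟩ ⟨false,0,⟨0,[(22,0),(12,0)]⟩,⟨0,[(2,0),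
  (22,0),(11,0)]⟩⟩]⟩) (.R ⟨0,false,false,true,[0,0,1],[0,1],[0,1,2,1],(⟨0,[(28,0)]⟩,⟨0,[(27,0)]⟩),
  (⟨0,[(31,0)]⟩,⟨0,[(30,0)]⟩),⟨0,[(17,0)]⟩,.k,.k,.k,.k,.k,.k,⟨true,0,⟨1,[(25,0),(0,0)]⟩,⟨0,[]⟩⟩,
  ⟨false,1,⟨1,[(22,1),(6,0),(6,0)]⟩,⟨0,[(25,0)]⟩⟩,⟨false,0,⟨1,[(0,0),(11,0),(12,1),(11,0)]⟩,⟨1,[(6,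
  1),(29,0),(0,0)]⟩⟩,⟨true,0,⟨0,[(12,0)]⟩,⟨0,[(9,0),(25,0)]⟩⟩,⟨false,0,⟨0,[]⟩,⟨0,[]⟩⟩,⟨false,0,⟨0,
  []⟩,⟨0,[]⟩⟩,[.o ⟨false,0,⟨0,[(2,0)]⟩,⟨1,[(18,0),(0,0),(15,1),(1,0)]⟩⟩,.o ⟨false,1,⟨3,[(14,1),(3,
  0),(0,0),(9,0)]⟩,⟨0,[(35,0)]⟩⟩,.o ⟨false,1,⟨1,[(25,1),(3,0),(6,0)]⟩,⟨0,[(13,0)]⟩⟩,.a ⟨true,0,⟨0,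
  [(25,0)]⟩,⟨0,[(22,0)]⟩⟩ ⟨false,0,⟨0,[(5,0)]⟩,⟨1,[(35,1),(0,0),(0,0)]⟩⟩ ⟨true,0,⟨5,[(3,1),(8,3),(1,
  0),(0,0),(17,1),(2,0)]⟩,⟨0,[(25,0),(9,0)]⟩⟩]⟩))) (.R ⟨0,false,false,false,[0,1,-1],[0,1],[1,0,1],
  (⟨0,[(15,0)]⟩,⟨0,[(26,0),(1,0)]⟩),(⟨0,[(29,0)]⟩,⟨0,[(28,0)]⟩),⟨0,[(26,0)]⟩,.k,.k,.k,.k,.k,.k,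
  ⟨true,0,⟨0,[(33,0)]⟩,⟨0,[(3,0)]⟩⟩,⟨false,1,⟨0,[(23,0),(10,0)]⟩,⟨0,[(11,0)]⟩⟩,⟨false,0,⟨3,[(0,1),
  (0,1),(21,0),(0,0),(2,0),(7,0)]⟩,⟨1,[(10,1),(12,1),(10,0),(0,0)]⟩⟩,⟨true,0,⟨0,[(7,0)]⟩,⟨0,[(22,
  0)]⟩⟩,⟨false,0,⟨0,[]⟩,⟨0,[]⟩⟩,⟨false,0,⟨0,[]⟩,⟨0,[]⟩⟩,[.o ⟨false,1,⟨3,[(12,1),(3,0),(0,0),(9,0)]⟩,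
  ⟨0,[(33,0)]⟩⟩,.e ⟨false,1,⟨1,[(16,0),(0,0),(17,0)]⟩,⟨0,[(31,0),(1,0)]⟩⟩ ⟨false,1,⟨0,[(23,0),(7,0),
  (3,0)]⟩,⟨0,[(4,0),(17,0)]⟩⟩,.o ⟨false,1,⟨0,[(20,0),(6,0)]⟩,⟨0,[(23,0)]⟩⟩,.a ⟨true,0,⟨0,[(11,0)]⟩,
  ⟨0,[(0,0),(22,0),(7,0)]⟩⟩ ⟨true,0,⟨0,[]⟩,⟨0,[(37,0)]⟩⟩ ⟨false,1,⟨0,[(23,0),(7,0),(3,0)]⟩,⟨0,[(11,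
  0),(21,0)]⟩⟩]⟩))) (.R ⟨0,false,false,true,[0,0,1],[0,1],[1,1,1],(⟨0,[(24,0)]⟩,⟨0,[(23,0)]⟩),(⟨0,
  [(27,0)]⟩,⟨0,[(26,0)]⟩),⟨0,[(13,0)]⟩,.k,.k,.k,.k,.k,.k,⟨true,0,⟨0,[(31,0)]⟩,⟨0,[(1,0)]⟩⟩,⟨false,1,
  ⟨1,[(18,1),(6,0),(6,0)]⟩,⟨0,[(21,0)]⟩⟩,⟨false,0,⟨0,[(0,0)]⟩,⟨1,[(6,1),(25,0),(0,0)]⟩⟩,⟨true,0,⟨0,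
  [(8,0)]⟩,⟨0,[(5,0),(25,0)]⟩⟩,⟨false,0,⟨0,[]⟩,⟨0,[]⟩⟩,⟨false,0,⟨0,[]⟩,⟨0,[]⟩⟩,[.e ⟨false,0,⟨0,[(35,
  0)]⟩,⟨1,[(32,0),(0,0)]⟩⟩ ⟨false,0,⟨0,[(9,0),(19,0)]⟩,⟨1,[(21,1),(9,1),(0,0),(0,0)]⟩⟩,.o ⟨false,1,
  ⟨3,[(10,1),(3,0),(0,0),(9,0)]⟩,⟨0,[(31,0)]⟩⟩,.o ⟨false,1,⟨1,[(21,1),(3,0),(6,0)]⟩,⟨0,[(9,0)]⟩⟩,.a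
  ⟨true,0,⟨0,[(21,0)]⟩,⟨0,[(18,0)]⟩⟩ ⟨false,0,⟨0,[]⟩,⟨1,[(14,0),(0,0),(17,0)]⟩⟩ ⟨true,0,⟨0,[(9,0),
  (19,0)]⟩,⟨0,[(21,0),(9,0)]⟩⟩]⟩)) (.N [0,1] 0 ⟨0,[(3,0)]⟩ ⟨0,[(0,0)]⟩ .k)) (.R ⟨0,false,false,true,
  [0,0,1],[0,1],[1,1,1],(⟨0,[(22,0)]⟩,⟨0,[(21,0)]⟩),(⟨0,[(25,0)]⟩,⟨0,[(24,0)]⟩),⟨0,[(11,0)]⟩,.k,.k,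
  .k,.k,.k,.k,⟨true,0,⟨0,[(29,0)]⟩,⟨0,[(0,0),(2,0),(3,0)]⟩⟩,⟨false,1,⟨1,[(16,1),(6,0),(6,0)]⟩,⟨0,
  [(19,0)]⟩⟩,⟨false,0,⟨0,[(0,0),(28,0)]⟩,⟨1,[(4,1),(25,0),(0,0)]⟩⟩,⟨true,0,⟨0,[(6,0)]⟩,⟨0,[(3,0),
  (25,0)]⟩⟩,⟨false,0,⟨0,[]⟩,⟨0,[]⟩⟩,⟨false,0,⟨0,[]⟩,⟨0,[]⟩⟩,[.e ⟨false,0,⟨0,[(33,0)]⟩,⟨1,[(30,0),(0,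
  0)]⟩⟩ ⟨false,0,⟨0,[(7,0),(19,0)]⟩,⟨1,[(19,1),(9,1),(0,0),(0,0)]⟩⟩,.o ⟨false,1,⟨3,[(8,1),(3,0),(0,
  0),(9,0)]⟩,⟨0,[(29,0)]⟩⟩,.o ⟨false,1,⟨1,[(19,1),(3,0),(6,0)]⟩,⟨0,[(7,0)]⟩⟩,.a ⟨true,0,⟨0,[(19,
  0)]⟩,⟨0,[(16,0)]⟩⟩ ⟨false,0,⟨0,[]⟩,⟨1,[(12,0),(0,0),(17,0)]⟩⟩ ⟨true,0,⟨0,[(7,0),(19,0)]⟩,⟨0,[(19,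
  0),(9,0)]⟩⟩]⟩)) (.R ⟨2,false,false,true,[0,1],[0,0,1],[1,0,1,1],(⟨0,[]⟩,⟨0,[]⟩),(⟨0,[(21,0)]⟩,⟨0,
  [(20,0)]⟩),⟨0,[]⟩,.k,.k,.k,.k,.k,.k,⟨false,1,⟨1,[(0,1),(17,1),(3,0),(3,1),(3,0)]⟩,⟨0,[(4,0)]⟩⟩,
  ⟨true,0,⟨0,[(18,0)]⟩,⟨0,[(6,0)]⟩⟩,⟨true,0,⟨0,[]⟩,⟨0,[(32,0)]⟩⟩,⟨false,0,⟨0,[(2,0),(25,0)]⟩,⟨1,[(0,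
  0),(6,0),(9,0),(12,0)]⟩⟩,⟨false,1,⟨0,[(27,0),(2,0)]⟩,⟨0,[(28,0)]⟩⟩,⟨false,0,⟨0,[(2,0)]⟩,⟨0,[(17,
  0),(12,0)]⟩⟩,[.a ⟨true,0,⟨0,[(16,0)]⟩,⟨0,[(0,0)]⟩⟩ ⟨true,0,⟨0,[(1,0)]⟩,⟨0,[(28,0)]⟩⟩ ⟨false,0,⟨0,
  [(16,0)]⟩,⟨1,[(0,1),(21,0),(6,0)]⟩⟩,.e ⟨false,1,⟨0,[(27,0),(2,0)]⟩,⟨0,[(26,0),(1,1)]⟩⟩ ⟨false,0,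
  ⟨0,[(2,0)]⟩,⟨1,[(17,1),(11,0),(0,0)]⟩⟩,.o ⟨false,1,⟨1,[(22,0),(6,0)]⟩,⟨1,[(18,0),(0,0)]⟩⟩,.fo]⟩))
  (.Q [0,0,-1,0,0,0,-2,0,0,0,-2] (.p false [0,0,1] [0,1,-1] (⟨0,[(20,0)]⟩,⟨0,[(19,0)]⟩) .k 2 (⟨0,
  [(9,0)]⟩,⟨0,[(20,0),(1,0)]⟩) .k (.r 0 ⟨0,[(1,1),(3,1)]⟩ ⟨0,[(0,1),(3,1),(12,1),(11,0)]⟩)) (.Q [0,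
  -1,0,1,1,0,-2,-2,0,0,-2] (.p false [0,0,1] [0,1,-1] (⟨0,[(21,0)]⟩,⟨0,[(20,0)]⟩) .k 2 (⟨0,[(10,
  0)]⟩,⟨0,[(21,0),(1,0)]⟩) .k (.r 0 ⟨0,[(0,0),(1,1),(28,0)]⟩ ⟨0,[(1,1),(3,1),(12,1),(11,0)]⟩)) (.R
  ⟨0,false,false,false,[0,0,1],[0,1,-1],[0,1],(⟨0,[(22,0)]⟩,⟨0,[(21,0)]⟩),(⟨0,[(11,0)]⟩,⟨0,[(22,0),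
  (1,0)]⟩),⟨0,[(11,0)]⟩,.k,.k,.k,(.r 0 ⟨0,[(2,0),(1,1)]⟩ ⟨2,[(0,1),(1,0),(3,1),(12,5),(10,0)]⟩),.k,
  .k,⟨false,0,⟨4,[(1,0),(0,3),(0,1),(1,2),(21,1)]⟩,⟨1,[(0,0),(18,1),(8,0),(2,0)]⟩⟩,⟨true,0,⟨0,[(1,
  0)]⟩,⟨0,[(19,1)]⟩⟩,⟨true,0,⟨0,[(2,0),(3,0),(12,0)]⟩,⟨0,[(4,0)]⟩⟩,⟨false,1,⟨0,[(0,0)]⟩,⟨0,[(3,1),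
  (25,0)]⟩⟩,⟨false,0,⟨0,[]⟩,⟨0,[]⟩⟩,⟨false,0,⟨0,[]⟩,⟨0,[]⟩⟩,[.o ⟨false,1,⟨2,[(0,0),(7,0),(9,0),(4,
  0)]⟩,⟨0,[(3,0),(25,0)]⟩⟩,.e ⟨false,1,⟨1,[(12,0),(0,0),(16,0)]⟩,⟨0,[]⟩⟩ ⟨false,1,⟨1,[(0,0),(0,0),
  (25,0),(3,0)]⟩,⟨0,[(2,0),(14,0),(1,0)]⟩⟩,.o ⟨false,1,⟨1,[(19,1),(3,0),(6,0)]⟩,⟨0,[(7,0)]⟩⟩,.a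
  ⟨true,0,⟨0,[(19,0)]⟩,⟨0,[(16,0)]⟩⟩ ⟨true,0,⟨2,[(2,0),(23,0),(0,0)]⟩,⟨1,[(19,0),(0,0)]⟩⟩ ⟨false,1,
  ⟨1,[(0,0),(0,0),(25,0),(3,0)]⟩,⟨0,[(3,0),(15,0),(9,0)]⟩⟩]⟩) (.Q [0,0,0,0,0,0,-2,-2,0,1,-2] (.p
  false [0,0,1] [1,0,-1] (⟨0,[(22,0)]⟩,⟨0,[(21,0)]⟩) .k 2 (⟨0,[(21,0)]⟩,⟨0,[(22,0)]⟩) .k (.r 0 ⟨0,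
  [(0,0),(0,0),(25,0),(3,0),(0,1)]⟩ ⟨0,[(2,1),(3,1),(12,1),(11,0)]⟩)) (.R ⟨0,false,false,false,[0,0,
  1],[1,-1,1],[1,0,-1,-1,0,0,0,1],(⟨0,[(23,0)]⟩,⟨0,[(22,0)]⟩),(⟨0,[(23,0),(1,0)]⟩,⟨0,[(12,0)]⟩),⟨0,
  [(12,0)]⟩,.k,.k,.k,.k,.k,.k,⟨true,0,⟨0,[]⟩,⟨1,[(20,0),(0,0)]⟩⟩,⟨false,0,⟨0,[(17,0),(2,0)]⟩,⟨1,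
  [(24,0),(6,0)]⟩⟩,⟨true,0,⟨0,[(3,0)]⟩,⟨1,[(20,0),(0,0),(7,1)]⟩⟩,⟨false,0,⟨0,[(0,0),(0,0),(30,0)]⟩,
  ⟨3,[(9,1),(3,0),(0,0),(9,0)]⟩⟩,⟨false,0,⟨0,[]⟩,⟨0,[]⟩⟩,⟨false,0,⟨0,[]⟩,⟨0,[]⟩⟩,[.o ⟨false,0,⟨2,
  [(1,0),(16,0),(11,1),(1,0)]⟩,⟨1,[(0,0),(8,0),(14,0)]⟩⟩,.e ⟨false,1,⟨5,[(1,1),(0,1),(0,1),(2,1),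
  (24,2),(0,4)]⟩,⟨0,[(7,0),(12,0)]⟩⟩ ⟨false,0,⟨1,[(0,1),(0,2),(0,0),(25,0),(3,2)]⟩,⟨1,[(7,1),(12,1),
  (3,0),(6,0)]⟩⟩,.o ⟨false,1,⟨1,[(20,1),(3,0),(6,0)]⟩,⟨0,[(8,0)]⟩⟩,.a ⟨true,0,⟨0,[(20,0)]⟩,⟨0,[(17,
  0)]⟩⟩ ⟨true,0,⟨1,[(1,0),(0,0),(0,1),(24,0),(3,0)]⟩,⟨1,[(7,1),(12,2),(0,0)]⟩⟩ ⟨false,0,⟨1,[(0,1),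
  (0,2),(0,0),(25,0),(3,2)]⟩,⟨1,[(0,0),(8,0),(10,1),(3,0)]⟩⟩]⟩) (.Q [0,-1,0,1,1,0,0,0,0,-1] (.pp
  true [-1,1]) (.Q [0,-1,-1,1,1,0,-2,-1,0,0,-2] (.p false [0,0,1] [0,1,-1] (⟨0,[(24,0)]⟩,⟨0,[(23,
  0)]⟩) .k 2 (⟨0,[(13,0)]⟩,⟨0,[(24,0),(1,0)]⟩) .k (.r 0 ⟨0,[(1,0),(9,0)]⟩ ⟨0,[(4,1),(3,1),(12,1),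
  (11,0)]⟩)) (.R ⟨0,false,false,false,[0,0,1],[0,1,-1],[1,0,1],(⟨0,[(25,0)]⟩,⟨0,[(24,0)]⟩),(⟨0,[(14,
  0)]⟩,⟨0,[(25,0),(1,0)]⟩),⟨0,[(14,0)]⟩,.k,.k,.k,(.r 0 ⟨3,[(2,0),(0,1),(0,1),(3,1),(3,0),(21,1)]⟩
  ⟨0,[(5,0),(3,1),(12,1),(11,0)]⟩),.k,.k,⟨false,0,⟨2,[(3,0),(0,0),(0,0),(2,0),(25,0)]⟩,⟨1,[(9,1),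
  (12,1),(10,0),(0,0)]⟩⟩,⟨true,0,⟨0,[(4,0)]⟩,⟨0,[(22,1)]⟩⟩,⟨false,1,⟨0,[(21,0),(0,0),(11,0)]⟩,⟨1,
  [(3,0),(0,0),(25,0),(3,0)]⟩⟩,⟨true,1,⟨0,[(9,0),(11,0),(12,0)]⟩,⟨0,[(3,0)]⟩⟩,⟨false,0,⟨0,[]⟩,⟨0,
  []⟩⟩,⟨false,0,⟨0,[]⟩,⟨0,[]⟩⟩,[.o ⟨false,1,⟨0,[(1,0),(19,0)]⟩,⟨2,[(3,0),(16,0),(11,1),(1,0)]⟩⟩,.e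
  ⟨false,1,⟨1,[(15,0),(0,0),(17,0)]⟩,⟨2,[(5,0),(23,0),(0,0)]⟩⟩ ⟨false,1,⟨0,[(0,0)]⟩,⟨4,[(3,1),(16,
  0),(1,4),(6,0),(2,2),(0,1)]⟩⟩,.o ⟨false,1,⟨1,[(22,1),(3,0),(6,0)]⟩,⟨0,[(10,0)]⟩⟩,.a ⟨true,0,⟨0,
  [(22,0)]⟩,⟨0,[(19,0)]⟩⟩ ⟨true,0,⟨0,[]⟩,⟨0,[(36,0)]⟩⟩ ⟨false,1,⟨0,[(0,0)]⟩,⟨2,[(3,0),(16,0),(1,2),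
  (9,1),(1,0)]⟩⟩]⟩) (.R ⟨0,false,false,false,[0,0,1],[0,1,-1],[1,0,1],(⟨0,[(25,0)]⟩,⟨0,[(24,0)]⟩),
  (⟨0,[(14,0)]⟩,⟨0,[(25,0),(1,0)]⟩),⟨0,[(14,0)]⟩,.k,.k,.k,(.r 0 ⟨3,[(2,0),(0,1),(0,1),(3,1),(3,0),
  (21,1)]⟩ ⟨0,[(5,0),(3,1),(12,1),(11,0)]⟩),.k,.k,⟨false,0,⟨2,[(3,0),(0,0),(0,0),(2,0),(25,0)]⟩,⟨1,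
  [(9,1),(12,1),(10,0),(0,0)]⟩⟩,⟨true,0,⟨0,[(4,0)]⟩,⟨0,[(22,1)]⟩⟩,⟨false,1,⟨0,[(21,0),(0,0),(11,
  0)]⟩,⟨1,[(3,0),(0,0),(25,0),(3,0)]⟩⟩,⟨true,1,⟨0,[(9,0),(11,0),(12,0)]⟩,⟨0,[(3,0)]⟩⟩,⟨false,0,⟨0,
  []⟩,⟨0,[]⟩⟩,⟨false,0,⟨0,[]⟩,⟨0,[]⟩⟩,[.o ⟨false,1,⟨0,[(1,0),(19,0)]⟩,⟨1,[(0,0),(7,0),(25,0)]⟩⟩,.a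
  ⟨true,1,⟨0,[(9,0),(24,0)]⟩,⟨0,[(0,0),(18,0)]⟩⟩ ⟨false,1,⟨1,[(15,0),(0,0),(17,0)]⟩,⟨2,[(5,0),(23,
  0),(0,0)]⟩⟩ ⟨true,1,⟨2,[(4,0),(4,2),(13,0),(10,2)]⟩,⟨0,[(0,0)]⟩⟩,.o ⟨false,1,⟨1,[(22,1),(3,0),(6,
  0)]⟩,⟨0,[(10,0)]⟩⟩,.e ⟨true,0,⟨0,[]⟩,⟨0,[(36,0)]⟩⟩ ⟨true,1,⟨5,[(4,1),(4,3),(1,0),(0,0),(8,1),(11,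
  1),(0,2)]⟩,⟨0,[(0,0)]⟩⟩]⟩)) (.R ⟨0,false,false,true,[0,0,1],[1,-1,1],[1,1,-1,-1,0,0,0,1],(⟨0,[(24,
  0)]⟩,⟨0,[(23,0)]⟩),(⟨0,[(24,0),(1,0)]⟩,⟨0,[(13,0)]⟩),⟨0,[(13,0)]⟩,.k,.k,.k,.k,.k,.k,⟨true,0,⟨0,
  []⟩,⟨1,[(21,0),(0,0)]⟩⟩,⟨false,0,⟨0,[(18,0),(2,0)]⟩,⟨1,[(25,0),(6,0)]⟩⟩,⟨false,0,⟨0,[(4,0)]⟩,⟨1,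
  [(10,0),(0,0),(9,1),(11,0)]⟩⟩,⟨true,(-1),⟨0,[(0,0)]⟩,⟨3,[(10,1),(3,0),(0,0),(9,0)]⟩⟩,⟨false,0,⟨0,
  []⟩,⟨0,[]⟩⟩,⟨false,0,⟨0,[]⟩,⟨0,[]⟩⟩,[.e ⟨false,0,⟨4,[(2,1),(0,1),(0,1),(2,0),(20,0),(3,1)]⟩,⟨0,
  [(8,0),(12,0),(11,0)]⟩⟩ ⟨false,(-1),⟨1,[(0,1),(1,0),(0,0),(25,0),(3,0)]⟩,⟨1,[(8,1),(12,1),(3,0),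
  (6,0),(0,1)]⟩⟩,.o ⟨false,0,⟨2,[(2,0),(16,0),(11,1),(1,0)]⟩,⟨1,[(8,1),(16,0),(7,0)]⟩⟩,.o ⟨false,1,
  ⟨1,[(21,1),(3,0),(6,0)]⟩,⟨0,[(9,0)]⟩⟩,.a ⟨true,0,⟨0,[(21,0)]⟩,⟨0,[(18,0)]⟩⟩ ⟨false,0,⟨1,[(2,0),(0,
  0),(0,1),(24,0),(3,0)]⟩,⟨1,[(8,1),(12,2),(0,0),(10,1)]⟩⟩ ⟨true,(-1),⟨1,[(0,1),(1,0),(0,0),(25,0),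
  (3,0)]⟩,⟨1,[(8,1),(12,1),(3,0),(7,0)]⟩⟩]⟩)))) (.K ⟨0,[0,1,-1],0,0,(⟨0,[(10,0)]⟩,⟨0,[(21,0),(1,
  0)]⟩),.k,.k,(.r (-1) ⟨5,[(0,7),(4,5),(1,2),(0,2),(10,3),(10,2)]⟩ ⟨0,[(1,1),(1,0)]⟩),(.r (-1) ⟨0,
  [(0,0),(4,0),(11,0),(12,0)]⟩ ⟨0,[(1,0),(1,1)]⟩),.k,[⟨0,[(0,0)]⟩,⟨0,[(6,0)]⟩,⟨0,[(16,0),(11,0)]⟩,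
  ⟨0,[(5,0)]⟩]⟩)))) (.I [1,1,-1,0,0,0,0,1] (.Q [0,0,0,1,0,0,-1,-1,0,0,-1] (.p false [0,0,1] [] (⟨0,
  [(19,0)]⟩,⟨0,[(18,0)]⟩) .k 0 (⟨0,[]⟩,⟨0,[]⟩) .k .k) (.Q [0,-1,0,-1,0,0,0,0,0,1] (.pp false [-1,
  1]) (.Q [0,-1,0,0,0,0,0,-1,0,1] (.pp false [-1,1]) (.R ⟨0,false,false,false,[0,1,-1],[1,0,-1],[0,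
  0,1,0,0,0,0,-1],(⟨0,[(11,0)]⟩,⟨0,[(22,0),(1,0)]⟩),(⟨0,[(21,0)]⟩,⟨0,[(22,0)]⟩),⟨0,[(22,0)]⟩,.k,.k,
  .k,.k,.k,.k,⟨true,0,⟨1,[(19,0),(0,0)]⟩,⟨0,[]⟩⟩,⟨false,0,⟨2,[(0,1),(8,0),(7,1)]⟩,⟨1,[(23,0),(6,
  0)]⟩⟩,⟨true,0,⟨0,[(29,0)]⟩,⟨0,[(28,0)]⟩⟩,⟨false,0,⟨0,[(1,0)]⟩,⟨3,[(8,1),(3,0),(0,0),(9,0)]⟩⟩,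
  ⟨false,0,⟨0,[]⟩,⟨0,[]⟩⟩,⟨false,0,⟨0,[]⟩,⟨0,[]⟩⟩,[.o ⟨false,0,⟨0,[(2,0),(26,0)]⟩,⟨1,[(17,1),(5,0),
  (7,0)]⟩⟩,.e ⟨false,1,⟨3,[(4,1),(13,1),(0,1),(10,0),(0,2)]⟩,⟨0,[(3,0)]⟩⟩ ⟨false,0,⟨0,[(0,0)]⟩,⟨3,
  [(5,3),(2,1),(3,0),(0,0),(9,0)]⟩⟩,.o ⟨false,1,⟨0,[(16,0),(6,0)]⟩,⟨0,[(19,0)]⟩⟩,.a ⟨true,0,⟨0,[(7,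
  0)]⟩,⟨0,[(0,0),(16,0)]⟩⟩ ⟨true,0,⟨0,[(4,0)]⟩,⟨1,[(3,0),(13,0),(2,0)]⟩⟩ ⟨false,0,⟨0,[(0,0)]⟩,⟨1,
  [(3,0),(13,0),(2,0),(2,0),(7,0)]⟩⟩]⟩) (.R ⟨0,false,false,false,[0,1,-1],[1,0,-1],[0,0,1,0,0,0,0,
  -1],(⟨0,[(11,0)]⟩,⟨0,[(22,0),(1,0)]⟩),(⟨0,[(21,0)]⟩,⟨0,[(22,0)]⟩),⟨0,[(22,0)]⟩,.k,.k,.k,.k,.k,.k,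
  ⟨true,0,⟨1,[(19,0),(0,0)]⟩,⟨0,[]⟩⟩,⟨false,0,⟨0,[(1,0),(26,0)]⟩,⟨1,[(23,0),(6,0)]⟩⟩,⟨true,0,⟨0,
  [(29,0)]⟩,⟨0,[(28,0)]⟩⟩,⟨false,0,⟨0,[(1,0)]⟩,⟨3,[(8,1),(3,0),(0,0),(9,0)]⟩⟩,⟨false,0,⟨0,[]⟩,⟨0,
  []⟩⟩,⟨false,0,⟨0,[]⟩,⟨0,[]⟩⟩,[.o ⟨false,0,⟨0,[(4,0),(2,0)]⟩,⟨1,[(17,1),(5,0),(7,0)]⟩⟩,.a ⟨true,0,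
  ⟨0,[(1,0),(0,0)]⟩,⟨0,[(17,0)]⟩⟩ ⟨false,1,⟨3,[(4,1),(13,1),(0,1),(10,0),(0,2)]⟩,⟨0,[(3,0)]⟩⟩ ⟨true,
  0,⟨0,[(1,0),(0,0),(16,0)]⟩,⟨0,[(0,0)]⟩⟩,.o ⟨false,1,⟨0,[(16,0),(6,0)]⟩,⟨0,[(19,0)]⟩⟩,.e ⟨true,0,
  ⟨0,[(4,0)]⟩,⟨2,[(0,0),(8,0),(7,1)]⟩⟩ ⟨true,0,⟨0,[(1,0),(2,0),(23,0)]⟩,⟨0,[(0,0)]⟩⟩]⟩)) (.I [0,-1,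
  2,1,0,0,0,-1] (.R ⟨0,false,false,false,[0,0,1],[0,1],[1,1,0,0,0,0,0,1],(⟨0,[(22,0)]⟩,⟨0,[(21,
  0)]⟩),(⟨0,[(25,0)]⟩,⟨0,[(24,0)]⟩),⟨0,[(11,0)]⟩,.k,.k,.k,.k,.k,.k,⟨true,0,⟨0,[(5,0)]⟩,⟨0,[(0,0)]⟩⟩,
  ⟨false,1,⟨1,[(16,1),(6,0),(6,0)]⟩,⟨0,[(19,0)]⟩⟩,⟨false,0,⟨0,[]⟩,⟨1,[(12,0),(0,0),(17,0)]⟩⟩,⟨true,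
  0,⟨0,[(2,0)]⟩,⟨0,[(17,0),(11,0)]⟩⟩,⟨false,0,⟨0,[]⟩,⟨0,[]⟩⟩,⟨false,0,⟨0,[]⟩,⟨0,[]⟩⟩,[.o ⟨false,1,
  ⟨3,[(8,1),(3,0),(0,0),(9,0)]⟩,⟨0,[(29,0)]⟩⟩,.o ⟨false,1,⟨0,[(1,0),(29,0)]⟩,⟨0,[(29,0),(3,0)]⟩⟩,.o
  ⟨false,1,⟨1,[(19,1),(3,0),(6,0)]⟩,⟨0,[(7,0)]⟩⟩,.a ⟨true,0,⟨0,[(19,0)]⟩,⟨0,[(16,0)]⟩⟩ ⟨true,0,⟨0,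
  [(3,0)]⟩,⟨2,[(0,0),(3,0),(13,0),(0,0),(9,0)]⟩⟩ ⟨false,1,⟨0,[(1,0),(14,0),(14,0)]⟩,⟨0,[(19,0),(9,
  0)]⟩⟩]⟩) (.Q [0,0,0,0,-1,0,-2,-2,0,1,-2] (.p false [0,0,1] [1,0,-1] (⟨0,[(22,0)]⟩,⟨0,[(21,0)]⟩)
  .k 2 (⟨0,[(21,0)]⟩,⟨0,[(22,0)]⟩) .k (.r (-1) ⟨0,[(3,0),(13,0),(2,0),(10,0)]⟩ ⟨0,[(4,1)]⟩)) (.I [1,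
  -1,0,0,0,0,0,-2] (.R ⟨0,false,false,false,[0,0,1],[1,0,-1],[0,0,1,0,0,0,0,-1],(⟨0,[(24,0)]⟩,⟨0,
  [(23,0)]⟩),(⟨0,[(23,0)]⟩,⟨0,[(24,0)]⟩),⟨0,[(13,0)]⟩,.k,.k,.k,.k,.k,.k,⟨true,0,⟨1,[(21,0),(0,0)]⟩,
  ⟨0,[]⟩⟩,⟨false,0,⟨0,[(9,0),(8,0)]⟩,⟨1,[(0,1),(18,3),(5,0),(7,0)]⟩⟩,⟨false,0,⟨1,[(0,1),(20,0),(0,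
  0)]⟩,⟨1,[(5,2),(13,0),(2,0),(10,1)]⟩⟩,⟨true,(-1),⟨0,[(1,0)]⟩,⟨1,[(19,3),(5,0),(7,0)]⟩⟩,⟨false,0,
  ⟨0,[]⟩,⟨0,[]⟩⟩,⟨false,0,⟨0,[]⟩,⟨0,[]⟩⟩,[.o ⟨false,0,⟨4,[(0,0),(0,0),(9,0),(8,0),(4,0)]⟩,⟨1,[(19,
  1),(5,0),(7,0)]⟩⟩,.e ⟨false,1,⟨3,[(0,1),(13,2),(0,2),(17,0)]⟩,⟨0,[(5,0)]⟩⟩ ⟨false,0,⟨0,[(1,0),(3,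
  0),(27,0)]⟩,⟨1,[(19,1),(1,1),(3,0),(6,0)]⟩⟩,.o ⟨false,1,⟨1,[(21,1),(3,0),(6,0)]⟩,⟨0,[(9,0)]⟩⟩,.a
  ⟨true,0,⟨0,[(21,0)]⟩,⟨0,[(18,0)]⟩⟩ ⟨true,0,⟨0,[(6,0)]⟩,⟨1,[(5,0),(13,0),(2,0)]⟩⟩ ⟨false,0,⟨0,[(1,
  0),(3,0),(27,0)]⟩,⟨1,[(19,1),(1,1),(3,0),(7,0)]⟩⟩]⟩) (.I [1,0,1,1] (.R ⟨0,false,false,false,[0,0,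
  1],[1,-1],[1],(⟨0,[(25,0)]⟩,⟨0,[(24,0)]⟩),(⟨0,[(27,0)]⟩,⟨0,[(28,0)]⟩),⟨0,[(14,0)]⟩,.k,.k,.k,.k,.k,
  .k,⟨true,0,⟨0,[(0,0)]⟩,⟨0,[(32,0)]⟩⟩,⟨false,0,⟨1,[(12,0),(6,0),(2,0)]⟩,⟨0,[(3,0),(0,0),(2,0),(14,
  0),(11,0)]⟩⟩,⟨true,0,⟨0,[(7,0)]⟩,⟨1,[(1,0),(34,0)]⟩⟩,⟨false,0,⟨1,[(2,0),(16,0),(2,0),(9,1),(1,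
  0)]⟩,⟨0,[(4,0),(15,0),(13,0)]⟩⟩,⟨false,0,⟨0,[]⟩,⟨0,[]⟩⟩,⟨false,0,⟨0,[]⟩,⟨0,[]⟩⟩,[.o ⟨false,0,⟨0,
  [(32,0)]⟩,⟨3,[(11,1),(3,0),(0,0),(9,0)]⟩⟩,.o ⟨false,1,⟨1,[(15,0),(0,0),(15,1),(1,0)]⟩,⟨0,[(4,
  0)]⟩⟩,.o ⟨false,1,⟨1,[(22,1),(3,0),(6,0)]⟩,⟨0,[(10,0)]⟩⟩,.a ⟨true,0,⟨0,[(22,0)]⟩,⟨0,[(19,0)]⟩⟩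
  ⟨false,1,⟨1,[(33,0),(0,0)]⟩,⟨1,[(22,0),(0,0)]⟩⟩ ⟨true,0,⟨0,[(19,0),(12,0)]⟩,⟨0,[(4,0),(17,
  0)]⟩⟩]⟩) (.R ⟨2,true,false,false,[0,1],[1,-1],[0,0,1],(⟨0,[]⟩,⟨0,[]⟩),(⟨0,[(27,0)]⟩,⟨0,[(28,0)]⟩),
  ⟨0,[]⟩,.k,.k,.k,(.r (-1) ⟨0,[(11,0),(0,0),(9,1)]⟩ ⟨0,[(0,1)]⟩),.k,.k,⟨true,0,⟨0,[(1,0),(0,0),(1,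
  0),(17,1),(11,0)]⟩,⟨0,[(0,0)]⟩⟩,⟨false,0,⟨1,[(12,0),(6,0),(2,2)]⟩,⟨0,[(0,1),(10,0)]⟩⟩,⟨true,0,⟨0,
  [(32,0)]⟩,⟨0,[(31,0)]⟩⟩,⟨false,0,⟨0,[(0,1),(0,0),(0,0),(19,1),(11,0)]⟩,⟨0,[(11,0)]⟩⟩,⟨false,1,⟨1,
  [(15,0),(0,0),(17,0)]⟩,⟨0,[]⟩⟩,⟨true,0,⟨0,[(19,0),(2,0),(9,0)]⟩,⟨0,[(4,0)]⟩⟩,[]⟩))) (.Q [0,0,1,0,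
  0,0,2,0,0,0,2] (.p true [0,0,1] [0,1,-1] (⟨0,[(23,0)]⟩,⟨0,[(22,0)]⟩) .k 2 (⟨0,[(12,0)]⟩,⟨0,[(23,
  0),(1,0)]⟩) .k (.r (-1) ⟨0,[(0,0),(9,0)]⟩ ⟨0,[(5,1)]⟩)) (.Q [0,1,0,0,0,0,2,2,0,0,2] (.p true [0,0,
  1] [0,1,-1] (⟨0,[(24,0)]⟩,⟨0,[(23,0)]⟩) .k 2 (⟨0,[(13,0)]⟩,⟨0,[(24,0),(1,0)]⟩) .k (.r (-1) ⟨0,[(1,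
  0),(9,0)]⟩ ⟨0,[(6,1)]⟩)) (.R ⟨0,false,false,false,[0,1,-1],[0,0,1],[0,0,1,0,0,0,0,-1],(⟨0,[(14,
  0)]⟩,⟨0,[(25,0),(1,0)]⟩),(⟨0,[(25,0)]⟩,⟨0,[(24,0)]⟩),⟨0,[(25,0)]⟩,.k,.k,.k,(.r 0 ⟨2,[(1,1),(3,2),
  (1,2),(15,0)]⟩ ⟨1,[(2,0),(5,1),(3,0),(21,0)]⟩),.k,.k,⟨false,0,⟨0,[(7,1)]⟩,⟨1,[(2,0),(3,1),(5,0),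
  (21,0)]⟩⟩,⟨true,0,⟨0,[(1,0)]⟩,⟨0,[(10,1)]⟩⟩,⟨true,0,⟨0,[(32,0)]⟩,⟨0,[(31,0)]⟩⟩,⟨false,1,⟨0,[(0,0),
  (31,0),(1,0)]⟩,⟨0,[(5,1),(26,0)]⟩⟩,⟨false,0,⟨0,[]⟩,⟨0,[]⟩⟩,⟨false,0,⟨0,[]⟩,⟨0,[]⟩⟩,[.o ⟨false,1,
  ⟨3,[(2,1),(12,0),(0,0),(9,0)]⟩,⟨0,[(7,0),(2,0)]⟩⟩,.e ⟨false,1,⟨5,[(1,1),(5,1),(13,3),(11,0),(0,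
  4)]⟩,⟨0,[(6,0)]⟩⟩ ⟨false,1,⟨3,[(0,1),(0,1),(31,0),(0,2)]⟩,⟨1,[(3,0),(1,1),(4,0),(10,0),(10,0)]⟩⟩,
  .o ⟨false,1,⟨0,[(19,0),(6,0)]⟩,⟨0,[(22,0)]⟩⟩,.a ⟨true,0,⟨0,[(10,0)]⟩,⟨0,[(1,0),(17,0)]⟩⟩ ⟨true,0,
  ⟨0,[(7,0)]⟩,⟨6,[(0,1),(5,2),(16,3),(5,0)]⟩⟩ ⟨false,1,⟨3,[(0,1),(0,1),(31,0),(0,2)]⟩,⟨0,[(5,0),(4,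
  0),(21,0)]⟩⟩]⟩) (.I [0,0,-2,0,1,-2,-1] (.K ⟨0,[0,1,-1],0,0,(⟨0,[(15,0)]⟩,⟨0,[(26,0),(1,0)]⟩),.k,
  .k,(.x (-1) ⟨0,[(0,0)]⟩ ⟨0,[(2,0),(12,0),(8,0),(4,0)]⟩),(.r 0 ⟨1,[(1,0),(0,1),(3,0),(3,0)]⟩ ⟨1,
  [(3,0),(5,1),(3,0),(21,0)]⟩),.k,[⟨0,[(2,0)]⟩,⟨0,[(11,0)]⟩,⟨0,[(21,0),(11,0)]⟩,⟨0,[(10,0)]⟩]⟩) (.K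
  ⟨0,[0,1,-1],0,0,(⟨0,[(15,0)]⟩,⟨0,[(26,0),(1,0)]⟩),.k,.k,(.r 0 ⟨1,[(0,0),(1,0),(2,1),(0,1),(17,0),
  (1,0),(1,1),(6,0)]⟩ ⟨1,[(9,1),(23,1),(0,0),(0,0)]⟩),(.r 0 ⟨1,[(1,0),(0,1),(3,0),(3,0)]⟩ ⟨1,[(3,0),
  (5,1),(3,0),(21,0)]⟩),.k,[⟨0,[(2,0)]⟩,⟨0,[(11,0)]⟩,⟨0,[(21,0),(11,0)]⟩,⟨0,[(10,0)]⟩]⟩))) (.Q [0,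
  -1,0,1,0,0,-2,-2,0,0,-2] (.p false [0,0,1] [0,1,-1] (⟨0,[(24,0)]⟩,⟨0,[(23,0)]⟩) .k 2 (⟨0,[(13,
  0)]⟩,⟨0,[(24,0),(1,0)]⟩) .k (.r (-1) ⟨0,[(1,0),(9,0)]⟩ ⟨0,[(6,1)]⟩)) (.R ⟨0,false,false,false,[0,
  0,1],[0,1,-1],[1,0,0,0,0,0,0,1],(⟨0,[(25,0)]⟩,⟨0,[(24,0)]⟩),(⟨0,[(14,0)]⟩,⟨0,[(25,0),(1,0)]⟩),⟨0,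
  [(14,0)]⟩,.k,.k,.k,(.r (-1) ⟨1,[(2,0),(5,1),(3,0),(21,0)]⟩ ⟨1,[(0,0),(6,1),(14,1),(8,0)]⟩),.k,.k,
  ⟨false,1,⟨1,[(2,0),(0,1),(8,0),(21,0)]⟩,⟨1,[(0,0),(6,1),(14,1),(8,0)]⟩⟩,⟨true,0,⟨0,[(1,0)]⟩,⟨0,
  [(22,1)]⟩⟩,⟨true,0,⟨0,[]⟩,⟨0,[(36,0)]⟩⟩,⟨false,0,⟨0,[(0,0)]⟩,⟨0,[(2,0),(16,0),(2,0),(9,0)]⟩⟩,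
  ⟨false,0,⟨0,[]⟩,⟨0,[]⟩⟩,⟨false,0,⟨0,[]⟩,⟨0,[]⟩⟩,[.e ⟨false,1,⟨1,[(2,0),(9,0),(20,0)]⟩,⟨0,[(7,
  0)]⟩⟩ ⟨false,0,⟨1,[(0,0),(0,0),(28,0)]⟩,⟨1,[(2,0),(16,0),(2,2),(9,1),(0,0)]⟩⟩,.o ⟨false,1,⟨13,[(0,
  5),(10,3),(9,1),(4,4),(7,4)]⟩,⟨0,[(20,0),(11,0)]⟩⟩,.o ⟨false,1,⟨1,[(22,1),(3,0),(6,0)]⟩,⟨0,[(10,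
  0)]⟩⟩,.a ⟨true,0,⟨0,[(22,0)]⟩,⟨0,[(19,0)]⟩⟩ ⟨false,1,⟨0,[(6,0),(27,0)]⟩,⟨2,[(0,0),(20,0),(0,2),(9,
  0)]⟩⟩ ⟨true,0,⟨1,[(0,0),(0,0),(28,0)]⟩,⟨0,[(20,0),(1,0),(9,0)]⟩⟩]⟩) (.Q [0,0,-1,1,0,0,-2,-1,0,0,
  -2] (.p false [0,0,1] [0,1,-1] (⟨0,[(25,0)]⟩,⟨0,[(24,0)]⟩) .k 2 (⟨0,[(14,0)]⟩,⟨0,[(25,0),(1,0)]⟩)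
  .k (.r (-1) ⟨0,[(2,0),(9,0)]⟩ ⟨0,[(7,1)]⟩)) (.R ⟨0,false,false,false,[0,0,1],[0,1,-1],[1,1,1],(⟨0,
  [(26,0)]⟩,⟨0,[(25,0)]⟩),(⟨0,[(15,0)]⟩,⟨0,[(26,0),(1,0)]⟩),⟨0,[(15,0)]⟩,.k,.k,.k,(.r (-1) ⟨1,[(3,
  0),(5,1),(3,0),(21,0)]⟩ ⟨0,[(6,0),(1,0),(14,0)]⟩),.k,.k,⟨false,0,⟨0,[(9,0)]⟩,⟨0,[(8,0),(23,0),(2,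
  0)]⟩⟩,⟨true,0,⟨0,[(2,0)]⟩,⟨0,[(23,1)]⟩⟩,⟨false,0,⟨1,[(8,1),(14,0),(0,0)]⟩,⟨0,[(7,0),(27,0)]⟩⟩,
  ⟨true,0,⟨1,[(0,0),(5,0),(1,1),(15,0)]⟩,⟨0,[(1,0)]⟩⟩,⟨false,0,⟨0,[]⟩,⟨0,[]⟩⟩,⟨false,0,⟨0,[]⟩,⟨0,
  []⟩⟩,[.e ⟨false,0,⟨0,[(37,0)]⟩,⟨1,[(34,0),(0,0)]⟩⟩ ⟨false,0,⟨0,[(0,0)]⟩,⟨3,[(1,1),(14,0),(0,0),(5,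
  3),(9,1),(0,1),(0,0)]⟩⟩,.o ⟨false,1,⟨1,[(6,1),(20,0),(7,0)]⟩,⟨2,[(1,1),(20,0),(10,0)]⟩⟩,.o ⟨false,
  1,⟨1,[(23,1),(3,0),(6,0)]⟩,⟨0,[(11,0)]⟩⟩,.a ⟨true,0,⟨0,[(23,0)]⟩,⟨0,[(20,0)]⟩⟩ ⟨false,0,⟨0,[]⟩,⟨1,
  [(16,0),(0,0),(17,0)]⟩⟩ ⟨true,0,⟨0,[(0,0)]⟩,⟨2,[(1,1),(20,0),(0,2),(9,0)]⟩⟩]⟩) (.R ⟨0,false,false,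
  false,[0,0,1],[0,1,-1],[1,1,1],(⟨0,[(26,0)]⟩,⟨0,[(25,0)]⟩),(⟨0,[(15,0)]⟩,⟨0,[(26,0),(1,0)]⟩),⟨0,
  [(15,0)]⟩,.k,.k,.k,(.r (-1) ⟨1,[(3,0),(5,1),(3,0),(21,0)]⟩ ⟨0,[(6,0),(1,0),(14,0)]⟩),.k,.k,⟨false,
  0,⟨0,[(9,0)]⟩,⟨0,[(8,0),(23,0),(2,0)]⟩⟩,⟨true,0,⟨0,[(2,0)]⟩,⟨0,[(23,1)]⟩⟩,⟨false,0,⟨1,[(8,1),(14,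
  0),(0,0)]⟩,⟨0,[(7,0),(27,0)]⟩⟩,⟨true,0,⟨2,[(2,0),(3,2),(1,2),(15,0)]⟩,⟨0,[(1,0)]⟩⟩,⟨false,0,⟨0,
  []⟩,⟨0,[]⟩⟩,⟨false,0,⟨0,[]⟩,⟨0,[]⟩⟩,[.a ⟨true,0,⟨0,[(6,0)]⟩,⟨0,[(0,0),(19,0)]⟩⟩ ⟨false,0,⟨0,[(37,
  0)]⟩,⟨1,[(34,0),(0,0)]⟩⟩ ⟨true,0,⟨2,[(2,0),(3,2),(17,0)]⟩,⟨0,[(0,0)]⟩⟩,.o ⟨false,1,⟨1,[(6,1),(20,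
  0),(7,0)]⟩,⟨2,[(1,1),(20,0),(10,0)]⟩⟩,.o ⟨false,1,⟨1,[(23,1),(3,0),(6,0)]⟩,⟨0,[(11,0)]⟩⟩,.e
  ⟨false,0,⟨0,[]⟩,⟨1,[(16,0),(0,0),(17,0)]⟩⟩ ⟨false,1,⟨3,[(2,1),(3,1),(3,1),(23,0),(0,2)]⟩,⟨0,[(0,
  0)]⟩⟩]⟩))))))) (.R ⟨2,true,false,true,[0,1],[0,0,1],[0,0,1],(⟨0,[]⟩,⟨0,[]⟩),(⟨0,[(20,0)]⟩,⟨0,[(19,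
  0)]⟩),⟨0,[]⟩,.k,.k,.k,.k,.k,.k,⟨false,1,⟨3,[(2,1),(13,1),(0,1),(10,0),(0,2)]⟩,⟨0,[(1,0)]⟩⟩,⟨true,
  0,⟨0,[(17,0)]⟩,⟨0,[(5,0)]⟩⟩,⟨true,0,⟨0,[(27,0)]⟩,⟨0,[(26,0)]⟩⟩,⟨false,0,⟨0,[(0,0)]⟩,⟨0,[(4,0),(24,
  0)]⟩⟩,⟨false,1,⟨1,[(10,0),(0,0),(17,0)]⟩,⟨0,[]⟩⟩,⟨true,0,⟨0,[(15,0)]⟩,⟨0,[(2,0),(2,0)]⟩⟩,[]⟩))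
  (.Q [0,-1,0,-1,0,0,0,0,0,1] (.pp false [-1,1]) (.R ⟨0,false,false,false,[0,1,-1],[1,0,-1],[0,1],
  (⟨0,[(9,0)]⟩,⟨0,[(20,0),(1,0)]⟩),(⟨0,[(19,0)]⟩,⟨0,[(20,0)]⟩),⟨0,[(20,0)]⟩,.k,.k,.k,.k,.k,.k,⟨true,
  0,⟨0,[(5,0),(9,0)]⟩,⟨0,[(1,0)]⟩⟩,⟨false,0,⟨0,[(14,0),(2,0)]⟩,⟨1,[(21,0),(6,0)]⟩⟩,⟨true,0,⟨0,[(3,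
  0)]⟩,⟨0,[(1,0),(24,0)]⟩⟩,⟨false,0,⟨0,[(0,0)]⟩,⟨3,[(6,1),(3,0),(0,0),(9,0)]⟩⟩,⟨false,0,⟨0,[]⟩,⟨0,
  []⟩⟩,⟨false,0,⟨0,[]⟩,⟨0,[]⟩⟩,[.o ⟨false,0,⟨0,[(2,0),(2,0)]⟩,⟨1,[(15,1),(5,0),(7,0)]⟩⟩,.e ⟨false,1,
  ⟨1,[(10,0),(0,0),(16,0)]⟩,⟨0,[]⟩⟩ ⟨false,0,⟨0,[(0,0),(0,0),(23,0)]⟩,⟨3,[(3,3),(2,1),(3,0),(0,0),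
  (9,0)]⟩⟩,.o ⟨false,1,⟨0,[(14,0),(6,0)]⟩,⟨0,[(17,0)]⟩⟩,.a ⟨true,0,⟨0,[(5,0)]⟩,⟨0,[(0,0),(16,0),(7,
  0)]⟩⟩ ⟨true,0,⟨1,[(2,0),(0,0),(21,0)]⟩,⟨1,[(17,0),(0,0)]⟩⟩ ⟨false,0,⟨0,[(0,0),(0,0),(23,0)]⟩,⟨1,
  [(5,1),(9,1),(5,0),(7,0)]⟩⟩]⟩) (.Q [0,0,1,0,0,0,2,0,0,0,2] (.p true [0,0,1] [0,1,-1] (⟨0,[(20,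
  0)]⟩,⟨0,[(19,0)]⟩) .k 2 (⟨0,[(9,0)]⟩,⟨0,[(20,0),(1,0)]⟩) .k (.r (-1) ⟨0,[(5,1),(9,1),(13,0)]⟩ ⟨0,
  [(2,1)]⟩)) (.I [1,1,1,1,0,0,0,1] (.K ⟨0,[0,1,-1],0,0,(⟨0,[(11,0)]⟩,⟨0,[(22,0),(1,0)]⟩),.k,.k,(.r
  0 ⟨0,[(0,0),(2,1),(23,0)]⟩ ⟨1,[(5,1),(23,1),(0,0),(0,0)]⟩),(.r 0 ⟨2,[(1,0),(1,2),(0,0),(1,1),(20,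
  0)]⟩ ⟨1,[(0,0),(4,2),(25,1)]⟩),.k,[⟨0,[(1,0)]⟩,⟨0,[(7,0)]⟩,⟨0,[(17,0),(11,0)]⟩,⟨0,[(6,0)]⟩]⟩) (.K
  ⟨0,[0,1,-1],0,0,(⟨0,[(11,0)]⟩,⟨0,[(22,0),(1,0)]⟩),.k,.k,(.x (-1) ⟨0,[(0,0),(1,1),(2,0),(1,0),(14,
  0),(1,1),(6,0)]⟩ ⟨0,[(1,0),(9,0),(8,0),(4,0)]⟩),(.r 0 ⟨2,[(1,0),(1,2),(0,0),(1,1),(20,0)]⟩ ⟨0,[(5,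
  0),(1,0),(9,0),(13,0)]⟩),.k,[⟨0,[(1,0)]⟩,⟨0,[(7,0)]⟩,⟨0,[(17,0),(11,0)]⟩,⟨0,[(6,0)]⟩]⟩)) (.R ⟨0,
  false,false,false,[0,0,1],[0,1,-1],[],(⟨0,[(21,0)]⟩,⟨0,[(20,0)]⟩),(⟨0,[(10,0)]⟩,⟨0,[(21,0),(1,
  0)]⟩),⟨0,[(10,0)]⟩,.k,.k,.k,(.r (-1) ⟨2,[(0,0),(3,2),(11,2),(2,0),(10,2)]⟩ ⟨0,[(2,0),(0,0),(23,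
  0)]⟩),.k,.k,⟨false,1,⟨1,[(4,1),(24,0),(0,0)]⟩,⟨0,[(2,0),(24,0)]⟩⟩,⟨true,0,⟨0,[(0,0)]⟩,⟨0,[(18,
  1)]⟩⟩,⟨true,0,⟨0,[(3,0)]⟩,⟨2,[(0,0),(15,2),(2,0)]⟩⟩,⟨false,0,⟨0,[(0,0),(1,1),(23,0)]⟩,⟨0,[(16,1),
  (11,0),(1,0)]⟩⟩,⟨false,0,⟨0,[]⟩,⟨0,[]⟩⟩,⟨false,0,⟨0,[]⟩,⟨0,[]⟩⟩,[.e ⟨false,1,⟨1,[(11,0),(0,0),(16,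
  0)]⟩,⟨0,[]⟩⟩ ⟨false,0,⟨0,[(0,0),(1,0),(23,0)]⟩,⟨1,[(16,1),(1,1),(9,1),(0,0),(0,0)]⟩⟩,.o ⟨false,1,
  ⟨3,[(0,1),(1,3),(4,1),(14,0),(6,0)]⟩,⟨0,[(16,0),(11,0)]⟩⟩,.o ⟨false,1,⟨1,[(18,1),(3,0),(6,0)]⟩,⟨0,
  [(6,0)]⟩⟩,.a ⟨true,0,⟨0,[(18,0)]⟩,⟨0,[(15,0)]⟩⟩ ⟨false,1,⟨1,[(29,0),(0,0)]⟩,⟨1,[(18,0),(0,0)]⟩⟩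
  ⟨true,0,⟨0,[(0,0),(1,0),(23,0)]⟩,⟨0,[(16,0),(1,0),(9,0)]⟩⟩]⟩))))) (.R ⟨0,false,false,false,[0,0,
  1],[0,1],[1,0,1],(⟨0,[(17,0)]⟩,⟨0,[(16,0)]⟩),(⟨0,[(20,0)]⟩,⟨0,[(19,0)]⟩),⟨0,[(6,0)]⟩,.k,.k,.k,.k,
  .k,.k,⟨true,0,⟨0,[(24,0)]⟩,⟨0,[(0,0),(1,0),(9,0)]⟩⟩,⟨false,1,⟨1,[(11,1),(6,0),(6,0)]⟩,⟨0,[(14,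
  0)]⟩⟩,⟨false,0,⟨0,[(0,0),(23,0)]⟩,⟨1,[(11,1),(0,1),(5,0),(7,0)]⟩⟩,⟨true,0,⟨0,[(0,0),(1,0),(19,0),
  (1,0)]⟩,⟨0,[(12,0),(11,0)]⟩⟩,⟨false,0,⟨0,[]⟩,⟨0,[]⟩⟩,⟨false,0,⟨0,[]⟩,⟨0,[]⟩⟩,[.o ⟨false,1,⟨3,[(3,
  1),(3,0),(0,0),(9,0)]⟩,⟨0,[(24,0)]⟩⟩,.e ⟨false,1,⟨1,[(7,0),(0,0),(17,0)]⟩,⟨0,[(22,0),(1,0)]⟩⟩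
  ⟨false,1,⟨0,[(2,0),(19,0),(3,0)]⟩,⟨0,[(14,0),(7,0),(1,1)]⟩⟩,.o ⟨false,1,⟨1,[(14,1),(3,0),(6,0)]⟩,
  ⟨0,[(2,0)]⟩⟩,.a ⟨true,0,⟨0,[(14,0)]⟩,⟨0,[(11,0)]⟩⟩ ⟨true,0,⟨0,[]⟩,⟨0,[(28,0)]⟩⟩ ⟨false,1,⟨0,[(2,
  0),(19,0),(3,0)]⟩,⟨0,[(14,0),(9,0)]⟩⟩]⟩)) (.R ⟨2,true,false,false,[0,1],[0,0,1],[0,0,1],(⟨0,[]⟩,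
  ⟨0,[]⟩),(⟨0,[(16,0)]⟩,⟨0,[(15,0)]⟩),⟨0,[]⟩,.k,.k,.k,.k,.k,.k,⟨false,1,⟨1,[(12,1),(0,1),(10,0),(0,
  0)]⟩,⟨0,[(0,0),(0,0),(19,0)]⟩⟩,⟨true,0,⟨0,[(13,0)]⟩,⟨0,[(1,0)]⟩⟩,⟨true,0,⟨0,[(23,0)]⟩,⟨0,[(22,
  0)]⟩⟩,⟨false,0,⟨0,[(0,0)]⟩,⟨0,[(12,0),(9,0),(2,0)]⟩⟩,⟨false,1,⟨1,[(6,0),(0,0),(17,0)]⟩,⟨0,[]⟩⟩,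
  ⟨true,0,⟨0,[(0,0),(21,0)]⟩,⟨0,[(12,0)]⟩⟩,[]⟩))

theorem ok1 : chk K t1 l1 = true := by decide +kernel

noncomputable def t2 : Tre :=
  (.Q [0,1,0,1,0,0,1,1,0,0,1] (.p true [0,0,1] [] (⟨0,[(15,0)]⟩,⟨0,[(14,0)]⟩) .k 0 (⟨0,[]⟩,⟨0,[]⟩)
  .k .k) (.I [0,0,-2,0,1,-2,1] (.K ⟨0,[0,1,1],0,0,(⟨0,[(17,0),(2,0)]⟩,⟨0,[(5,0)]⟩),.k,.k,(.x (-1)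
  ⟨0,[(0,0)]⟩ ⟨1,[(14,0),(0,2),(1,1),(2,3)]⟩),.k,.k,[⟨1,[(14,0),(0,0)]⟩,⟨0,[(2,0)]⟩,⟨0,[(13,0),(10,
  0)]⟩,⟨0,[(1,0)]⟩]⟩) (.I [0,0,-2,-2,0,0,0,-1] (.K ⟨0,[0,1,1],0,0,(⟨1,[(1,0),(1,0),(14,0),(7,0)]⟩,
  ⟨0,[(6,0)]⟩),.k,.k,(.r (-1) ⟨1,[(2,1),(1,0),(0,0),(9,1),(0,1),(10,0)]⟩ ⟨0,[(0,0)]⟩),.k,.k,[⟨1,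
  [(15,0),(0,0)]⟩,⟨0,[(3,0)]⟩,⟨0,[(14,0),(10,0)]⟩,⟨0,[(2,0)]⟩]⟩) (.I [0,0,-2,-2,1,0,0,-1] (.I [0,0,
  2,2,0,0,0,1] (.K ⟨0,[0,1,1],0,0,(⟨1,[(3,0),(1,0),(14,0),(7,0)]⟩,⟨0,[(8,0)]⟩),.k,.k,(.r 0 ⟨0,[(0,
  0)]⟩ ⟨0,[(1,0)]⟩),.k,.k,[⟨1,[(17,0),(0,0)]⟩,⟨0,[(5,0)]⟩,⟨0,[(16,0),(10,0)]⟩,⟨0,[(4,0)]⟩]⟩) (.I [0,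
  0,2,0,-1,2,-1] (.N [0,2,1] 0 ⟨0,[(3,0)]⟩ ⟨0,[(1,0)]⟩ (.x (-2) ⟨0,[(6,0),(2,0),(12,0),(0,0),(5,
  0)]⟩ ⟨0,[(0,0)]⟩)) (.I [1,0,-1,0,0,0,0,-1] (.I [0,1,0,0,0,0,0,1] (.S ⟨1,0,[0,1,1,0,0,0,0,1],[0,1,
  1],[0,0,1,0,0,0,0,1],(⟨1,[(6,0),(1,0),(14,0),(7,0)]⟩,⟨0,[(11,0)]⟩),⟨0,[(23,0)]⟩,.k,.k,⟨true,0,⟨0,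
  [(30,0)]⟩,⟨0,[(29,0)]⟩⟩,⟨false,0,⟨0,[(30,0)]⟩,⟨0,[(29,0),(2,0)]⟩⟩,⟨false,1,⟨1,[(4,0),(0,0),(26,
  0)]⟩,⟨0,[]⟩⟩,⟨true,0,⟨0,[(34,0)]⟩,⟨0,[]⟩⟩,[.e ⟨false,1,⟨1,[(0,1),(3,0),(0,0),(26,0)]⟩,⟨0,[(1,
  0)]⟩⟩ ⟨false,0,⟨0,[(0,0)]⟩,⟨8,[(1,5),(2,1),(14,0),(0,0),(8,3),(2,6)]⟩⟩,.o ⟨false,1,⟨1,[(18,1),(5,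
  0),(7,0)]⟩,⟨0,[(1,0),(19,0)]⟩⟩,.o ⟨false,1,⟨1,[(8,1),(15,0),(6,0)]⟩,⟨0,[(21,0)]⟩⟩,.a ⟨true,0,⟨0,
  [(8,0)]⟩,⟨6,[(4,0),(0,0),(0,0),(3,1),(6,1),(4,0),(2,1)]⟩⟩ ⟨false,1,⟨0,[(0,0),(31,0)]⟩,⟨1,[(1,1),
  (18,0),(0,0)]⟩⟩ ⟨true,0,⟨0,[(0,0)]⟩,⟨1,[(1,1),(18,0),(0,0)]⟩⟩]⟩) (.I [1,-1,0,0,1,0,0,1] (.Q [0,0,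
  2,0,-1,0,1,0,0,1,1] (.p true [1,-1,1] [] (⟨0,[(24,0),(1,0)]⟩,⟨0,[(13,0)]⟩) .k 0 (⟨0,[]⟩,⟨0,[]⟩)
  .k .k) (.Q [0,-1,0,-1,0,0,0,0,0,1] (.pp false [-1,1]) (.R ⟨0,false,false,true,[0,1,-1],[0,1],[0,0,
  1],(⟨0,[(15,0)]⟩,⟨0,[(26,0),(1,0)]⟩),(⟨0,[(29,0)]⟩,⟨0,[(28,0)]⟩),⟨0,[(26,0)]⟩,.k,.k,.k,.k,.k,.k,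
  ⟨false,1,⟨3,[(2,1),(3,0),(0,0),(27,0)]⟩,⟨0,[(32,0)]⟩⟩,⟨true,0,⟨0,[(11,0)]⟩,⟨0,[(24,0)]⟩⟩,⟨false,1,
  ⟨0,[(2,0),(30,0)]⟩,⟨0,[(3,0),(28,0)]⟩⟩,⟨true,0,⟨0,[(21,0)]⟩,⟨0,[(4,0),(19,0)]⟩⟩,⟨false,0,⟨0,[]⟩,
  ⟨0,[]⟩⟩,⟨false,0,⟨0,[]⟩,⟨0,[]⟩⟩,[.a ⟨true,0,⟨0,[(32,0)]⟩,⟨0,[(0,0)]⟩⟩ ⟨true,0,⟨1,[(23,0),(0,0)]⟩,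
  ⟨0,[]⟩⟩ ⟨false,0,⟨0,[(11,0),(20,0)]⟩,⟨3,[(2,1),(3,1),(6,1),(13,0),(7,0)]⟩⟩,.o ⟨false,1,⟨3,[(7,0),
  (0,0),(3,1),(14,0)]⟩,⟨0,[(33,0)]⟩⟩,.o ⟨false,1,⟨0,[(20,0),(6,0)]⟩,⟨0,[(23,0)]⟩⟩,.o ⟨false,1,⟨2,
  [(2,0),(10,0),(8,0),(4,1)]⟩,⟨0,[(11,0)]⟩⟩]⟩) (.R ⟨0,false,false,false,[0,1,-1],[1,0,-1],[1,0,0,0,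
  0,0,0,-1],(⟨0,[(15,0)]⟩,⟨0,[(26,0),(1,0)]⟩),(⟨0,[(25,0)]⟩,⟨0,[(26,0)]⟩),⟨0,[(26,0)]⟩,.k,.k,.k,.k,
  .k,.k,⟨true,0,⟨0,[]⟩,⟨1,[(23,0),(0,0)]⟩⟩,⟨false,0,⟨3,[(1,1),(5,0),(0,0),(11,1),(13,0)]⟩,⟨1,[(27,
  0),(6,0)]⟩⟩,⟨false,1,⟨3,[(2,1),(3,0),(0,0),(27,0)]⟩,⟨5,[(1,0),(1,0),(4,1),(3,0),(9,0)]⟩⟩,⟨true,0,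
  ⟨5,[(1,2),(0,0),(4,1),(5,0),(6,1),(0,0),(11,1)]⟩,⟨0,[(0,0)]⟩⟩,⟨false,0,⟨0,[]⟩,⟨0,[]⟩⟩,⟨false,0,⟨0,
  []⟩,⟨0,[]⟩⟩,[.o ⟨false,0,⟨8,[(0,1),(2,4),(2,0),(6,1),(8,2),(1,1)]⟩,⟨1,[(2,0),(8,0),(9,0),(5,0)]⟩⟩,
  .a ⟨true,0,⟨3,[(1,0),(1,2),(9,0),(6,1),(1,0),(12,0)]⟩,⟨0,[(21,0)]⟩⟩ ⟨true,0,⟨0,[(3,0)]⟩,⟨0,[(21,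
  0),(2,0)]⟩⟩ ⟨false,0,⟨9,[(1,5),(1,7),(3,1),(4,1),(7,5),(13,0),(0,0)]⟩,⟨0,[(20,0),(0,0),(5,0)]⟩⟩,
  .o ⟨false,1,⟨0,[(20,0),(6,0)]⟩,⟨0,[(23,0)]⟩⟩,.o ⟨false,1,⟨2,[(2,0),(10,0),(8,0),(4,1)]⟩,⟨0,[(11,
  0)]⟩⟩]⟩)) (.R ⟨0,false,false,false,[0,0,1],[0,1],[0,0,1],(⟨0,[(25,0)]⟩,⟨0,[(24,0)]⟩),(⟨0,[(28,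
  0)]⟩,⟨0,[(27,0)]⟩),⟨0,[(14,0)]⟩,.k,.k,.k,.k,.k,.k,⟨true,0,⟨0,[(32,0)]⟩,⟨6,[(2,1),(4,2),(13,0),(0,
  0),(8,0)]⟩⟩,⟨false,1,⟨2,[(0,0),(11,0),(20,1)]⟩,⟨0,[(22,0)]⟩⟩,⟨false,0,⟨1,[(2,1),(19,0),(0,0)]⟩,⟨5,
  [(0,0),(0,3),(17,0),(0,1),(8,0),(3,0)]⟩⟩,⟨true,0,⟨0,[(2,0),(20,0),(6,0)]⟩,⟨0,[(20,0),(11,0)]⟩⟩,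
  ⟨false,0,⟨0,[]⟩,⟨0,[]⟩⟩,⟨false,0,⟨0,[]⟩,⟨0,[]⟩⟩,[.o ⟨false,1,⟨3,[(6,0),(0,0),(3,1),(14,0)]⟩,⟨0,
  [(32,0)]⟩⟩,.o ⟨false,1,⟨2,[(0,0),(1,1),(4,0),(1,0),(16,0),(7,0)]⟩,⟨0,[(32,0),(3,0)]⟩⟩,.a ⟨true,0,
  ⟨0,[(10,0)]⟩,⟨6,[(6,0),(0,0),(0,0),(3,1),(6,1),(4,0),(2,1)]⟩⟩ ⟨true,0,⟨1,[(22,0),(0,0)]⟩,⟨2,[(5,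
  0),(14,0),(2,0),(6,1)]⟩⟩ ⟨false,1,⟨1,[(11,0),(0,0),(21,0)]⟩,⟨0,[(10,0),(21,0)]⟩⟩,.e ⟨false,1,⟨1,
  [(6,0),(0,0),(26,0)]⟩,⟨0,[]⟩⟩ ⟨false,1,⟨6,[(0,2),(1,1),(4,1),(3,0),(7,3),(10,0),(3,2)]⟩,⟨0,[(22,
  0),(9,0)]⟩⟩]⟩)) (.R ⟨0,false,false,true,[0,1,-1],[0,0,1],[1],(⟨0,[(13,0)]⟩,⟨0,[(24,0),(1,0)]⟩),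
  (⟨0,[(24,0)]⟩,⟨0,[(23,0)]⟩),⟨0,[(24,0)]⟩,.k,.k,.k,(.r 1 ⟨6,[(0,6),(0,8),(4,2),(13,0),(0,0),(8,
  0)]⟩ ⟨1,[(11,1),(7,3),(5,0),(5,1),(0,0),(0,1)]⟩),.k,.k,⟨true,0,⟨0,[(1,0)]⟩,⟨0,[(19,0),(2,0)]⟩⟩,
  ⟨false,0,⟨0,[(9,1)]⟩,⟨1,[(11,1),(13,0),(6,0)]⟩⟩,⟨true,1,⟨1,[(18,1),(0,1),(5,0),(5,1),(1,0)]⟩,⟨6,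
  [(0,6),(0,1),(4,2),(13,0),(0,0),(8,0)]⟩⟩,⟨false,1,⟨0,[(19,1),(11,0),(1,0)]⟩,⟨3,[(0,2),(0,6),(4,1),
  (4,1),(6,3),(6,2)]⟩⟩,⟨false,0,⟨0,[]⟩,⟨0,[]⟩⟩,⟨false,0,⟨0,[]⟩,⟨0,[]⟩⟩,[.a ⟨true,0,⟨0,[(19,0)]⟩,⟨5,
  [(1,4),(5,0),(3,0),(6,1),(1,0),(2,0),(2,1),(6,0)]⟩⟩ ⟨true,0,⟨0,[]⟩,⟨1,[(21,0),(0,0)]⟩⟩ ⟨false,0,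
  ⟨0,[(9,0),(9,0)]⟩,⟨3,[(1,1),(2,1),(5,1),(0,3),(13,0),(7,0)]⟩⟩,.o ⟨false,1,⟨1,[(19,1),(5,0),(7,
  0)]⟩,⟨5,[(0,0),(0,2),(9,1),(8,1),(4,0)]⟩⟩,.o ⟨false,1,⟨0,[(18,0),(6,0)]⟩,⟨0,[(21,0)]⟩⟩,.o ⟨false,
  1,⟨3,[(5,0),(0,0),(4,1),(13,2)]⟩,⟨0,[(9,0)]⟩⟩]⟩))) (.I [0,0,-2,-2] (.S ⟨1,0,[0,0,1,0,0,0,0,1],[0,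
  1,1],[0,1,1,0,0,0,0,1],(⟨1,[(6,0),(1,0),(14,0),(7,0)]⟩,⟨0,[(11,0)]⟩),⟨0,[(23,0)]⟩,.k,.k,⟨false,0,
  ⟨0,[(30,0)]⟩,⟨0,[(29,0),(2,0)]⟩⟩,⟨true,0,⟨0,[(30,0)]⟩,⟨0,[(29,0)]⟩⟩,⟨true,0,⟨0,[(34,0)]⟩,⟨0,[]⟩⟩,
  ⟨false,1,⟨1,[(4,0),(0,0),(26,0)]⟩,⟨0,[]⟩⟩,[.e ⟨false,0,⟨5,[(0,0),(0,5),(25,1),(0,1)]⟩,⟨1,[(3,1),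
  (2,0),(1,0),(0,1),(1,0),(13,0),(6,0)]⟩⟩ ⟨false,0,⟨0,[(0,0),(4,0)]⟩,⟨2,[(4,0),(3,2),(0,0),(7,0),(1,
  1),(12,0)]⟩⟩,.o ⟨false,1,⟨1,[(0,1),(4,1),(2,1),(15,0),(7,0)]⟩,⟨0,[(19,0)]⟩⟩,.o ⟨false,1,⟨1,[(8,1),
  (15,0),(6,0)]⟩,⟨0,[(21,0)]⟩⟩,.a ⟨true,0,⟨0,[(8,0)]⟩,⟨6,[(4,0),(0,0),(0,0),(3,1),(6,1),(4,0),(2,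
  1)]⟩⟩ ⟨false,0,⟨0,[(0,0),(4,0)]⟩,⟨0,[(8,0),(10,0),(12,0)]⟩⟩ ⟨true,0,⟨0,[(0,0),(4,0)]⟩,⟨0,[(8,0),
  (10,0)]⟩⟩]⟩) (.I [1,0,-1,-1] (.N [0,1] 0 ⟨1,[(1,0)]⟩ ⟨0,[(0,0)]⟩ .k) (.S ⟨1,0,[0,0,0,-1,0,0,0,-1],
  [1,0,-1],[0,1,0,-1,0,0,0,-1],(⟨0,[(23,0)]⟩,⟨0,[(24,0)]⟩),⟨0,[(12,0)]⟩,.k,.k,⟨false,0,⟨0,[(31,0)]⟩,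
  ⟨1,[(1,0),(30,0),(0,0)]⟩⟩,⟨true,0,⟨0,[(31,0)]⟩,⟨0,[(30,0)]⟩⟩,⟨true,0,⟨0,[(35,0)]⟩,⟨0,[]⟩⟩,⟨false,
  1,⟨1,[(5,0),(0,0),(26,0)]⟩,⟨0,[]⟩⟩,[.o ⟨false,0,⟨1,[(1,0),(2,1),(17,1)]⟩,⟨1,[(8,1),(16,0),(7,
  0)]⟩⟩,.e ⟨false,0,⟨0,[(0,0),(3,0)]⟩,⟨3,[(2,1),(2,0),(0,2),(25,2)]⟩⟩ ⟨false,1,⟨1,[(1,0),(2,0),(0,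
  0),(27,0)]⟩,⟨0,[(2,0),(26,0)]⟩⟩,.a ⟨true,0,⟨6,[(5,0),(0,0),(0,0),(3,1),(6,1),(4,0),(2,1)]⟩,⟨0,[(9,
  0)]⟩⟩ ⟨false,0,⟨1,[(1,0),(2,1),(16,0),(0,0)]⟩,⟨0,[(2,0),(26,0),(3,0)]⟩⟩ ⟨true,0,⟨1,[(1,0),(2,1),
  (16,0),(0,0)]⟩,⟨0,[(2,0),(26,0)]⟩⟩,.o ⟨false,0,⟨0,[(22,0)]⟩,⟨1,[(9,1),(15,0),(6,0)]⟩⟩]⟩)))))) (.Q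
  [0,0,2,0,-1,0,1,0,0,1,1] (.p true [1,-1,1] [] (⟨0,[(19,0),(1,0)]⟩,⟨0,[(8,0)]⟩) .k 0 (⟨0,[]⟩,⟨0,
  []⟩) .k .k) (.K ⟨0,[1,-1,1],(-1),(-1),(⟨0,[(20,0),(1,0)]⟩,⟨0,[(9,0)]⟩),.k,(.r (-1) ⟨0,[(1,0),(25,
  3),(0,1)]⟩ ⟨0,[(1,0),(3,1),(10,1),(12,0)]⟩),.k,.k,.k,[⟨1,[(21,0),(6,0)]⟩,⟨0,[(0,0)]⟩,⟨3,[(6,1),(3,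
  0),(0,0),(4,3),(4,0)]⟩,⟨0,[(1,0),(3,1),(8,0),(10,0),(1,3)]⟩]⟩) (.S ⟨1,0,[0,0,0,-1,0,0,0,-1],[1,0,
  -1],[1,1,0,0,0,0,0,-1],(⟨0,[(19,0)]⟩,⟨0,[(20,0)]⟩),⟨0,[(8,0)]⟩,.k,.k,⟨false,0,⟨0,[]⟩,⟨1,[(10,0),
  (0,0),(17,0)]⟩⟩,⟨true,0,⟨0,[(27,0)]⟩,⟨0,[(26,0)]⟩⟩,⟨true,0,⟨0,[(26,0)]⟩,⟨0,[(27,0)]⟩⟩,⟨false,1,⟨1,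
  [(10,0),(0,0),(17,0)]⟩,⟨0,[]⟩⟩,[.o ⟨false,1,⟨1,[(10,0),(0,0),(4,1),(10,1),(1,0)]⟩,⟨0,[(0,0),(0,0),
  (3,1),(21,0)]⟩⟩,.o ⟨false,1,⟨0,[(16,0),(10,0),(1,0)]⟩,⟨4,[(0,2),(0,3),(3,6),(9,0),(5,0),(2,1),(2,
  2)]⟩⟩,.a ⟨true,0,⟨6,[(3,0),(3,1),(2,0),(0,0),(2,1),(4,0),(2,1)]⟩,⟨0,[(5,0)]⟩⟩ ⟨true,0,⟨0,[(5,0),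
  (10,0)]⟩,⟨4,[(0,1),(0,2),(3,1),(8,1),(0,1),(11,5),(1,0)]⟩⟩ ⟨false,1,⟨0,[(5,0),(10,0),(10,0),(1,
  0)]⟩,⟨4,[(0,1),(0,2),(3,1),(8,1),(0,1),(11,0),(1,0)]⟩⟩,.o ⟨false,0,⟨0,[(18,0)]⟩,⟨1,[(5,1),(15,0),
  (6,0)]⟩⟩]⟩))))) (.R ⟨2,true,false,true,[0,1],[0,1,1],[0,1,1],(⟨0,[]⟩,⟨0,[]⟩),(⟨0,[(16,0),(2,0)]⟩,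
  ⟨0,[(4,0)]⟩),⟨0,[]⟩,.k,.k,.k,.k,.k,.k,⟨false,0,⟨0,[(0,0),(0,0),(19,0),(1,0)]⟩,⟨1,[(2,0),(0,0),(7,
  1),(13,0)]⟩⟩,⟨true,0,⟨0,[(1,0)]⟩,⟨0,[(14,0)]⟩⟩,⟨false,0,⟨0,[(23,0)]⟩,⟨0,[(22,0),(2,0)]⟩⟩,⟨true,0,
  ⟨0,[(11,0)]⟩,⟨0,[(0,0),(21,0)]⟩⟩,⟨true,0,⟨0,[(27,0)]⟩,⟨0,[]⟩⟩,⟨false,1,⟨0,[(11,0),(10,0),(2,0)]⟩,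
  ⟨0,[(0,0)]⟩⟩,[]⟩))

theorem ok2 : chk K t2 r1 = true := by decide +kernel

noncomputable def t3 : Tre :=
  .Q [0,0,0,0,0,0,-1,0,0,0,-1] (.p false [0,0,1] [] (⟨0,[(14,0)]⟩,⟨0,[(13,0)]⟩) .k 0 (⟨0,[]⟩,⟨0,
  []⟩) .k .k) t1 t2

theorem ok3 : chk K t3 r0 = true :=
  chk_Q (e' := [0,0,0,0,0,0,1,0,0,0,1]) (by decide +kernel) (by decide +kernel) ok1 ok2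

noncomputable def t4 : Tre :=
  .Q [0,0,0,-2,-1,0,0,0,0,1] (.pp false [-1,1]) t0 t3

theorem ok4 : chk K t4 base = true :=
  chk_Q (e' := [0,0,0,2,1,0,0,0,0,-1]) (by decide +kernel) (by decide +kernel) ok0 ok3

theorem closed {p a b c J l q : ℤ} {D dl : ℝ} {Cl : ℤ → ℤ → ℤ → ℤ → ℝ → Prop}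
    (W : World p a b c J 1 l q D dl Cl) (g : G0 p a b c J D)
    {N X R : ℤ} {I : ℝ} (hk : KCl p l Cl N X R I) (kz : KF a b D (X + (1 : ℤ) * I) (X + (1 : ℤ) * I + R) I)
    {Ne Xe : ℤ} {Ie : ℝ} (he : EFac p 1 D Cl (a) Ne Xe Ie)
    (hkf : ∀ kf ∈ (kfY 1 [0,0,0,0,0,0,1,0,0,0,1]), KOk p l Cl 1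
      (xv [1, a, b, c, p, J, X, R, Xe] [D, I, Ie]) N kf)
    (h0 : 1 ≤ -(c : ℝ))
    (h1 : 1 ≤ (a : ℝ) - (b : ℝ) + (c : ℝ))
    (h2 : 1 ≤ 2 * (a : ℝ) - (b : ℝ))
    (h3 : 0 < -(b : ℝ) - (X : ℝ) + D - I)
    (h4 : 0 < (J : ℝ) - I)
    (h5 : 0 < -(J : ℝ) + D - I)
    (h6 : 0 < -2 * (X : ℝ) + D - 2 * I) : False := by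
  have g1 := g.a2
  have g2 := g.b2
  have g3 := g.pa
  have g4 := g.pb
  have g5 := g.J1
  have g6 := g.JD
  have g7 := g.D2
  have g8 := g.ca
  have g9 := g.ca'
  have k1 := kz.I0
  have k2 := kz.ID
  have k3 := kz.z1
  have k4 := kz.z2
  have k5 := kz.s1
  have k6 := kz.s2
  have e1 := he.I0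
  have e2 := he.ID
  have e3 := he.x0
  have e4 := he.xp
  push_cast at *
  refine (val_E W.toBase hk he (row := [0,1]) (by simp) (by simp) (kfY 1 [0,0,0,0,0,0,1,0,0,0,1])).sound W rfl (Nk := N)
    (fun kf _ _ => ⟨_, rfl⟩) hkf ?_ ok4
  · simp only [base, List.forall_mem_cons, List.not_mem_nil, false_imp_iff, implies_true,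
      and_true, hld, xv, evg_cons, evg_nil, List.map_cons, List.map_nil, List.cons_append,
      List.nil_append, if_true, if_false, Bool.false_eq_true]
    push_cast
    refine ⟨?_, ?_, ?_, ?_, ?_, ?_, ?_, ?_, ?_, ?_, ?_, ?_, ?_, ?_, ?_, ?_, ?_, ?_, ?_, ?_, ?_, ?_, ?_, ?_, ?_⟩ <;> linarith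

end Helper25.S1T.Ymp_1b
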