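import Pool.Agent.Helper25.KG.S1b
import Pool.Agent.Helper11.CT.Cut

set_option autoImplicit false
set_option linter.all false

namespace Helper25.S1T.Ymp_1cL2

open Helper25.KG Helper25.KW Helper55.KE Helper11.CT

noncomputable def K : Cls :=
  cE 1 [0,1] (kfY 1 [0,0,0,0,0,0,1,0,0,0,1])

noncomputable def base : List Con :=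
  [(false,[0,0,0,0,0,0,-2,0,0,1,-2]),
  (false,[0,0,0,0,0,-1,0,0,0,1,-1]),
  (false,[0,0,0,0,0,-1,0,0,0,0,1]),
  (false,[0,0,0,0,1,0,0,0,-1,0,0,-1]),
  (false,[0,0,0,0,0,0,0,0,1,0,0,1]),
  (false,[0,0,0,0,0,0,0,0,0,1,0,-1]),
  (false,[0,0,0,0,0,0,0,0,0,0,0,1]),
  (false,[0,0,-1,0,0,0,-1,0,0,1,-1]),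
  (false,[0,1,0,0,0,0,1,1,0,0,1]),
  (false,[0,1,0,0,0,0,-1,-1,0,0,-1]),
  (false,[0,0,1,0,0,0,1,0,0,0,1]),
  (false,[0,0,1,0,0,0,-1,0,0,0,-1]),
  (false,[0,0,0,0,0,0,0,0,0,1,-1]),
  (false,[0,0,0,0,0,0,0,0,0,0,1]),
  (true,[2,0,0,0,0,-1]),
  (false,[0,0,0,0,1,0,0,0,0,-2]),
  (false,[0,0,0,0,0,-1,0,0,0,1]),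
  (true,[0,0,0,0,0,1]),
  (true,[0,2,-1]),
  (false,[1,0,0,0,-1,0,0,0,0,2]),
  (true,[0,1,-1,1]),
  (true,[0,1,0,1]),
  (true,[0,0,0,-1]),
  (true,[0,0,-2,0,1]),
  (true,[0,-2,0,0,1]),
  (true,[-1,0,1]),
  (true,[-1,1])]

noncomputable def l0 : List Con := (false, [0,0,0,0,0,0,1,0,0,0,1]) :: base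

noncomputable def r0 : List Con := (false, [0,0,0,0,0,0,-1,0,0,0,-1]) :: base

noncomputable def t0 : Tre :=
  (.Q [0,-1,0,-1,0,0,-1,-1,0,0,-1] (.p false [0,0,1] [] (⟨0,[(14,0)]⟩,⟨0,[(13,0)]⟩) .k 0 (⟨0,[]⟩,⟨0,
  []⟩) .k .k) (.R ⟨2,true,false,true,[0,1],[0,1,1],[0,1,1],(⟨0,[]⟩,⟨0,[]⟩),(⟨0,[(15,0),(3,0)]⟩,⟨0,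
  [(3,0)]⟩),⟨0,[]⟩,.k,.k,.k,.k,.k,.k,⟨false,0,⟨0,[(0,0),(0,0),(20,0),(1,0)]⟩,⟨0,[(10,0),(2,0),(8,0),
  (3,0)]⟩⟩,⟨true,0,⟨0,[(1,0)]⟩,⟨0,[(13,0)]⟩⟩,⟨false,0,⟨0,[(24,0)]⟩,⟨0,[(23,0),(2,0)]⟩⟩,⟨true,0,⟨0,
  [(10,0)]⟩,⟨0,[(0,0),(22,0)]⟩⟩,⟨true,0,⟨0,[(28,0)]⟩,⟨0,[]⟩⟩,⟨false,1,⟨0,[(10,0),(12,0),(2,0)]⟩,⟨0,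
  [(0,0)]⟩⟩,[]⟩) (.I [0,0,-2,-2,0,0,0,-1] (.K ⟨0,[0,1,1],0,0,(⟨0,[(16,0),(3,0)]⟩,⟨0,[(4,0)]⟩),.k,.k,
  (.r (-1) ⟨1,[(1,1),(11,0),(0,2),(9,1),(2,1)]⟩ ⟨0,[(0,0)]⟩),.k,.k,[⟨1,[(13,0),(0,0)]⟩,⟨0,[(2,0)]⟩,
  ⟨0,[(12,0),(12,0)]⟩,⟨0,[(1,0)]⟩]⟩) (.I [0,0,-2,-2,1,0,0,-1] (.I [0,0,2,2,0,0,0,1] (.K ⟨0,[0,1,1],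
  0,0,(⟨0,[(18,0),(3,0)]⟩,⟨0,[(6,0)]⟩),.k,.k,(.r 0 ⟨0,[(0,0)]⟩ ⟨0,[(1,0)]⟩),.k,.k,[⟨1,[(15,0),(0,
  0)]⟩,⟨0,[(4,0)]⟩,⟨0,[(14,0),(12,0)]⟩,⟨0,[(3,0)]⟩]⟩) (.I [0,0,-2,0,1,-2,1] (.N [0,2,1] 0 ⟨0,[(3,
  0)]⟩ ⟨0,[(1,0)]⟩ (.x (-1) ⟨0,[(0,0)]⟩ ⟨1,[(16,0),(0,2),(1,1),(3,3)]⟩)) (.I [1,1,0,1,0,0,0,1] (.S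
  ⟨1,0,[0,0,0,-1,0,0,0,-1],[1,0,-1],[0,1,0,-1,0,0,0,-1],(⟨0,[(19,0)]⟩,⟨0,[(20,0)]⟩),⟨0,[(8,0)]⟩,.k,
  .k,⟨false,0,⟨0,[(29,0)]⟩,⟨0,[(28,0),(2,0)]⟩⟩,⟨true,0,⟨0,[(29,0)]⟩,⟨0,[(28,0)]⟩⟩,⟨true,0,⟨0,[(33,
  0)]⟩,⟨0,[]⟩⟩,⟨false,1,⟨1,[(3,0),(0,0),(26,0)]⟩,⟨0,[]⟩⟩,[.o ⟨false,0,⟨10,[(1,5),(0,5),(5,5),(7,4),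
  (4,5),(0,2),(4,0),(3,2),(0,0)]⟩,⟨1,[(5,1),(16,0),(8,0)]⟩⟩,.e ⟨false,0,⟨1,[(1,1),(0,1),(3,1),(1,1),
  (12,1),(0,0),(4,1),(3,0)]⟩,⟨7,[(3,0),(0,4),(2,1),(7,3),(6,0),(7,3),(0,1)]⟩⟩ ⟨false,1,⟨3,[(2,0),(0,
  0),(2,1),(9,1),(14,2)]⟩,⟨0,[(0,0)]⟩⟩,.a ⟨true,0,⟨3,[(3,0),(0,0),(2,1),(18,0)]⟩,⟨0,[(6,0)]⟩⟩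
  ⟨false,0,⟨10,[(1,5),(0,5),(3,10),(1,5),(7,4),(4,5),(0,2),(4,0),(3,2),(0,0)]⟩,⟨0,[(0,0),(30,0)]⟩⟩
  ⟨true,0,⟨10,[(1,5),(0,5),(3,10),(1,5),(7,4),(4,5),(0,2),(4,0),(3,2),(0,0)]⟩,⟨0,[(0,0)]⟩⟩,.o
  ⟨false,0,⟨0,[(18,0)]⟩,⟨1,[(6,1),(15,0),(7,0)]⟩⟩]⟩) (.I [0,-1,-2,-2,1] (.S ⟨1,0,[0,0,0,-1,0,0,0,
  -1],[1,0,-1],[1,1,0,0,0,0,0,-1],(⟨0,[(20,0)]⟩,⟨0,[(21,0)]⟩),⟨0,[(9,0)]⟩,.k,.k,⟨false,0,⟨0,[]⟩,⟨1,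
  [(4,0),(0,0),(26,0)]⟩⟩,⟨true,0,⟨0,[(30,0)]⟩,⟨0,[(29,0)]⟩⟩,⟨true,0,⟨0,[(29,0)]⟩,⟨0,[(30,0)]⟩⟩,
  ⟨false,1,⟨1,[(4,0),(0,0),(26,0)]⟩,⟨0,[]⟩⟩,[.o ⟨false,0,⟨2,[(1,0),(1,0),(13,0),(1,1)]⟩,⟨1,[(6,1),
  (16,0),(8,0)]⟩⟩,.a ⟨true,0,⟨19,[(1,15),(0,1),(1,1),(3,7),(8,1),(2,1),(3,3),(2,2),(4,2)]⟩,⟨0,[(6,
  0)]⟩⟩ ⟨false,0,⟨0,[(1,0),(26,0)]⟩,⟨7,[(0,3),(3,2),(0,6),(2,1),(7,3),(6,0)]⟩⟩ ⟨true,0,⟨0,[(1,0)]⟩,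
  ⟨0,[(6,0),(12,0)]⟩⟩,.e ⟨false,0,⟨0,[(1,0),(27,0)]⟩,⟨0,[(0,0),(4,0)]⟩⟩ ⟨false,0,⟨0,[(1,0)]⟩,⟨15,
  [(0,3),(3,2),(0,14),(2,1),(7,3),(6,0),(7,7)]⟩⟩,.o ⟨false,0,⟨0,[(19,0)]⟩,⟨1,[(7,1),(15,0),(7,
  0)]⟩⟩]⟩) (.Q [0,0,1,0,0,0,2,0,0,-1,2] (.p true [0,0,1] [1,0,-1] (⟨0,[(21,0)]⟩,⟨0,[(20,0)]⟩) .k 2
  (⟨0,[(20,0)]⟩,⟨0,[(21,0)]⟩) .k (.r (-2) ⟨1,[(4,0),(0,0),(2,1),(7,3),(6,0),(8,1)]⟩ ⟨0,[(0,1),(2,1),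
  (28,0)]⟩)) (.K ⟨0,[1,1,-1],0,(-1),(⟨0,[(21,0),(4,0)]⟩,⟨0,[(11,0)]⟩),.k,.k,(.r 1 ⟨0,[(1,1),(2,0),
  (28,0)]⟩ ⟨2,[(5,0),(3,1),(7,3),(6,0),(6,3),(0,1),(0,1)]⟩),(.r 1 ⟨0,[(1,0),(0,1),(26,0)]⟩ ⟨1,[(9,
  1),(7,3),(6,0),(6,1),(0,0),(0,1)]⟩),.k,[⟨0,[(0,0)]⟩,⟨3,[(5,0),(0,0),(2,1),(18,0)]⟩,⟨5,[(5,1),(11,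
  7),(1,0),(0,2),(3,2),(6,1),(1,0)]⟩,⟨8,[(1,7),(0,3),(1,2),(11,6),(1,1),(9,0),(0,2)]⟩]⟩) (.I [0,-1,
  0,-1,1,0,0,1] (.S ⟨1,0,[0,0,1,0,0,0,0,-1],[1,1,-1],[1,1,1,1,0,0,0,-1],(⟨0,[(22,0),(4,0)]⟩,⟨0,[(12,
  0)]⟩),⟨0,[(22,0)]⟩,.k,.k,⟨false,0,⟨0,[]⟩,⟨1,[(6,0),(0,0),(26,0)]⟩⟩,⟨true,0,⟨0,[(32,0)]⟩,⟨0,[(31,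
  0)]⟩⟩,⟨true,0,⟨0,[(31,0)]⟩,⟨0,[(32,0)]⟩⟩,⟨false,1,⟨1,[(6,0),(0,0),(26,0)]⟩,⟨0,[]⟩⟩,[.o ⟨false,0,
  ⟨12,[(1,3),(0,2),(0,7),(15,4),(5,1),(4,1),(3,0)]⟩,⟨1,[(0,0),(7,0),(0,0),(15,0)]⟩⟩,.e ⟨false,0,⟨2,
  [(2,0),(0,2),(26,1),(0,1),(2,0)]⟩,⟨27,[(0,19),(0,5),(3,3),(12,11),(6,2),(2,3),(4,4)]⟩⟩ ⟨false,0,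
  ⟨0,[(2,0),(2,0),(28,0)]⟩,⟨31,[(0,19),(0,1),(5,7),(0,3),(16,0),(2,23),(4,10)]⟩⟩,.a ⟨true,0,⟨0,[(17,
  0)]⟩,⟨0,[(20,0)]⟩⟩ ⟨true,(-1),⟨4,[(2,4),(0,1),(1,1),(3,0),(9,0),(10,0)]⟩,⟨27,[(0,19),(0,5),(3,3),
  (12,11),(6,2),(2,3),(4,4)]⟩⟩ ⟨false,0,⟨4,[(2,1),(0,3),(15,0),(0,0),(13,1)]⟩,⟨7,[(0,3),(0,1),(6,3),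
  (16,0),(7,2)]⟩⟩,.e ⟨false,0,⟨2,[(2,0),(0,2),(26,1),(0,1),(2,0)]⟩,⟨0,[(0,0)]⟩⟩ ⟨false,0,⟨0,[(2,0),
  (2,0),(28,0)]⟩,⟨5,[(0,3),(5,0),(0,2),(20,1),(4,0)]⟩⟩]⟩) (.Q [0,0,-1,0,1,0,0,0,-1,0,0,-1] (.p
  false [0,0,0,0,1] [] (⟨0,[(16,0)]⟩,⟨0,[(15,0)]⟩) .k 0 (⟨0,[]⟩,⟨0,[]⟩) .k .k) (.I [0,0,2,0,-1,2,
  -1] (.N [0,2,1] 0 ⟨0,[(9,0)]⟩ ⟨0,[(7,0)]⟩ (.x (-2) ⟨0,[(11,0),(1,0),(13,0),(0,0),(6,0)]⟩ ⟨0,[(0,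
  0)]⟩)) (.Q [0,0,-1,0,0,0,0,0,-1,1,0,-1] (.p false [0,0,0,0,1] [1] (⟨0,[(18,0)]⟩,⟨0,[(17,0)]⟩) .k
  1 (⟨0,[]⟩,⟨0,[]⟩) .k .k) (.Q [0,0,0,0,0,0,0,0,0,0,1,-1] (.ed true [1,0,-1,0,1] (.r 1 ⟨0,[(3,0),
  (31,0)]⟩ ⟨3,[(9,2),(0,2),(2,1),(7,3),(6,0),(8,3)]⟩)) (.K ⟨0,[0,0,1,0,-1],0,1,(⟨0,[(0,0)]⟩,⟨0,[(20,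
  0),(5,0)]⟩),.k,(.r (-2) ⟨13,[(5,1),(4,5),(3,7),(7,19),(6,4),(6,1),(1,16)]⟩ ⟨4,[(4,1),(1,2),(0,0),
  (1,0),(13,0),(0,0)]⟩),(.r (-1) ⟨7,[(10,0),(0,4),(2,1),(7,3),(6,0),(8,5)]⟩ ⟨10,[(4,0),(4,4),(0,0),
  (12,3),(0,3),(7,2)]⟩),.k,.k,[⟨0,[(18,0)]⟩,⟨1,[(1,1),(4,0),(0,0),(3,0),(1,1),(15,0),(6,2)]⟩,⟨6,[(4,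
  6),(0,1),(0,0),(11,6),(6,2),(3,0),(2,2),(3,8)]⟩,⟨7,[(1,5),(9,1),(5,1),(4,5),(1,1),(4,2),(6,3),(1,
  2)]⟩]⟩) (.Q [0,-1,0,-1,1,0,1,1,-1,0,1,-1] (.p false [0,0,-1,0,1] [] (⟨0,[(0,0)]⟩,⟨0,[(19,0),(7,
  0)]⟩) .k 0 (⟨0,[]⟩,⟨0,[]⟩) .k (.r 1 ⟨0,[(4,0),(31,0)]⟩ ⟨3,[(10,2),(0,2),(2,1),(7,3),(6,0),(8,
  3)]⟩)) (.K ⟨0,[0,0,-1,0,1],0,(-1),(⟨0,[(1,0)]⟩,⟨0,[(20,0),(7,0)]⟩),.k,(.r 0 ⟨10,[(5,0),(4,4),(0,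
  0),(12,3),(0,3),(7,2)]⟩ ⟨11,[(0,3),(10,0),(0,8),(2,1),(3,3),(10,0),(7,1),(0,3)]⟩),(.r 1 ⟨4,[(5,1),
  (1,2),(0,0),(1,0),(13,0),(0,0)]⟩ ⟨3,[(0,3),(10,0),(0,0),(2,1),(3,3),(10,0),(7,1)]⟩),.k,.k,[⟨0,[(0,
  0),(4,0),(8,0)]⟩,⟨0,[(19,0),(6,0)]⟩,⟨1,[(0,0),(12,0),(4,0)]⟩,⟨6,[(5,6),(0,1),(0,0),(11,6),(6,2),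
  (3,0),(2,2),(3,8)]⟩]⟩) (.S ⟨1,0,[0,-1,1],[1,1,0,0,-1],[1,0,1,1],(⟨0,[(20,0),(11,0)]⟩,⟨0,[(1,0),
  (15,0)]⟩),⟨0,[(20,0)]⟩,(.r (-1) ⟨5,[(11,0),(0,2),(11,1),(0,1),(10,1),(2,4)]⟩ ⟨10,[(6,1),(0,0),(2,
  3),(12,3),(6,0),(2,2),(3,4)]⟩),.k,⟨false,0,⟨0,[]⟩,⟨1,[(11,0),(0,0),(26,0)]⟩⟩,⟨true,0,⟨0,[(37,0)]⟩,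
  ⟨0,[(36,0)]⟩⟩,⟨true,0,⟨0,[(36,0)]⟩,⟨0,[(37,0)]⟩⟩,⟨false,1,⟨1,[(11,0),(0,0),(26,0)]⟩,⟨0,[]⟩⟩,[.o
  ⟨false,1,⟨2,[(2,1),(5,0),(3,0),(5,0),(11,0),(6,0),(1,0)]⟩,⟨1,[(0,0),(18,0),(3,0),(6,0),(6,0)]⟩⟩,
  .e ⟨false,1,⟨0,[(36,0),(2,0)]⟩,⟨10,[(6,1),(0,0),(2,3),(12,3),(6,0),(2,2),(3,4)]⟩⟩ ⟨false,1,⟨0,
  [(39,0)]⟩,⟨0,[(33,0)]⟩⟩,.a ⟨true,0,⟨0,[(2,0)]⟩,⟨1,[(19,1),(5,0),(0,0)]⟩⟩ ⟨true,0,⟨6,[(7,1),(4,0),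
  (11,0),(0,0),(10,0),(2,1)]⟩,⟨10,[(6,1),(0,0),(2,3),(12,3),(6,0),(2,2),(3,4)]⟩⟩ ⟨false,1,⟨1,[(25,
  0),(0,0),(12,1)]⟩,⟨15,[(5,0),(0,1),(3,2),(12,3),(6,0),(2,2),(1,4)]⟩⟩,.e ⟨false,1,⟨0,[(36,0),(2,
  0)]⟩,⟨0,[(37,0)]⟩⟩ ⟨false,1,⟨0,[(39,0)]⟩,⟨0,[(41,0)]⟩⟩]⟩))) (.Q [0,-1,0,0,1,0,0,1,-1,1,0,-1] (.p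
  false [0,0,0,0,1] [1] (⟨0,[(19,0)]⟩,⟨0,[(18,0)]⟩) .k 1 (⟨0,[]⟩,⟨0,[]⟩) .k .k) (.Q [0,0,0,0,0,-1,0,
  0,0,0,0,1] (.ed false [1,-1,0,0,1] .k) (.K ⟨0,[1,1,0,0,-1],0,0,(⟨0,[(20,0),(11,0)]⟩,⟨0,[(0,0)]⟩),
  (.r (-1) ⟨5,[(11,0),(0,2),(11,1),(0,1),(10,1),(2,4)]⟩ ⟨10,[(6,1),(0,0),(2,3),(12,3),(6,0),(2,2),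
  (3,4)]⟩),.k,(.r 0 ⟨0,[(7,0),(31,0)]⟩ ⟨9,[(6,2),(4,7),(3,0),(7,7),(6,1),(2,0),(3,3)]⟩),(.r 0 ⟨9,
  [(5,4),(1,3),(0,2),(15,1),(0,1),(13,8)]⟩ ⟨12,[(1,2),(0,2),(3,3),(4,5),(3,3),(7,15),(6,3),(6,0)]⟩),
  .k,[⟨0,[(2,0),(11,0)]⟩,⟨0,[(1,0),(5,0),(2,0)]⟩,⟨0,[(2,0),(30,0),(3,0)]⟩,⟨0,[(1,0),(3,0)]⟩]⟩) (.R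
  ⟨0,false,false,false,[0,0,0,0,1],[1,-1],[1,1,1],(⟨0,[(21,0)]⟩,⟨0,[(20,0)]⟩),(⟨0,[(31,0)]⟩,⟨0,[(32,
  0)]⟩),⟨0,[(0,0)]⟩,.k,.k,(.r 0 ⟨10,[(6,1),(0,0),(2,3),(12,3),(6,0),(2,2),(3,4)]⟩ ⟨5,[(11,0),(0,2),
  (11,1),(0,1),(10,1),(2,4)]⟩),(.r 0 ⟨2,[(12,0),(11,0),(0,0),(10,0),(4,0)]⟩ ⟨3,[(1,1),(8,1),(8,1),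
  (10,0),(8,0)]⟩),.k,.k,⟨true,(-1),⟨0,[(7,0),(29,0)]⟩,⟨3,[(1,1),(8,1),(8,1),(10,0),(8,0)]⟩⟩,⟨false,
  0,⟨0,[(1,0),(5,0),(2,0)]⟩,⟨1,[(19,1),(10,0),(7,0)]⟩⟩,⟨true,0,⟨1,[(25,0),(0,0)]⟩,⟨15,[(5,0),(0,1),
  (3,2),(12,3),(6,0),(2,2),(1,4)]⟩⟩,⟨false,1,⟨0,[(1,0),(6,0)]⟩,⟨0,[(2,0),(32,0)]⟩⟩,⟨false,0,⟨0,[]⟩,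
  ⟨0,[]⟩⟩,⟨false,0,⟨0,[]⟩,⟨0,[]⟩⟩,[.o ⟨false,0,⟨0,[(37,0)]⟩,⟨1,[(30,0),(5,1),(2,0)]⟩⟩,.e ⟨false,0,
  ⟨0,[]⟩,⟨1,[(11,0),(0,0),(25,0)]⟩⟩ ⟨false,1,⟨5,[(1,3),(2,1),(3,1),(1,0),(0,0),(22,0)]⟩,⟨0,[(2,0),
  (32,0)]⟩⟩,.a ⟨true,0,⟨0,[(19,0)]⟩,⟨0,[(1,0),(5,0),(2,0)]⟩⟩ ⟨false,0,⟨1,[(25,0),(0,0)]⟩,⟨1,[(38,0),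
  (0,0)]⟩⟩ ⟨true,0,⟨0,[(1,0),(5,0),(2,0),(26,0)]⟩,⟨0,[(2,0),(32,0)]⟩⟩,.o ⟨false,0,⟨0,[(2,0)]⟩,⟨0,
  [(4,0)]⟩⟩]⟩)) (.Q [0,2,0,0,-1,0,0,0,1,-1,0,1] (.p true [0,0,0,0,1] [1] (⟨0,[(20,0)]⟩,⟨0,[(19,
  0)]⟩) .k 1 (⟨0,[]⟩,⟨0,[]⟩) .k .k) (.K ⟨0,[1,0,0,0,-1],0,1,(⟨0,[(20,0)]⟩,⟨0,[(21,0)]⟩),.k,(.r (-1)
  ⟨9,[(6,1),(3,1),(0,1),(11,3),(6,0),(6,1),(1,6)]⟩ ⟨2,[(12,0),(11,0),(0,0),(10,0),(4,0)]⟩),(.r (-1)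
  ⟨5,[(11,0),(0,2),(11,1),(0,1),(10,1),(2,4)]⟩ ⟨7,[(0,0),(3,0),(1,0),(3,1),(12,1),(9,1),(3,3)]⟩),.k,
  .k,[⟨0,[(1,0),(21,0),(15,0)]⟩,⟨1,[(4,1),(2,0),(0,0),(3,0),(21,0),(2,2)]⟩,⟨0,[(0,0)]⟩,⟨1,[(11,0),
  (0,0),(5,1),(15,0)]⟩]⟩) (.Q [0,0,0,0,0,-1,0,0,0,0,0,1] (.ed false [1,-1,0,0,1] .k) (.K ⟨0,[0,-1,0,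
  0,1],(-1),(-1),(⟨0,[(0,0)]⟩,⟨0,[(21,0),(11,0)]⟩),(.r 0 ⟨10,[(7,1),(0,0),(2,3),(12,3),(6,0),(2,2),
  (3,4)]⟩ ⟨5,[(12,0),(0,2),(11,1),(0,1),(10,1),(2,4)]⟩),(.r (-1) ⟨9,[(7,2),(4,7),(3,0),(7,7),(6,1),
  (2,0),(3,3)]⟩ ⟨0,[(8,0),(31,0)]⟩),.k,(.r 0 ⟨10,[(6,0),(4,4),(0,0),(12,3),(0,3),(7,2)]⟩ ⟨7,[(12,0),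
  (0,4),(2,1),(7,3),(6,0),(8,5)]⟩),.k,[⟨0,[(5,0),(9,0)]⟩,⟨1,[(2,1),(10,1),(21,0),(2,3),(1,0)]⟩,⟨2,
  [(5,1),(2,0),(10,0),(17,0),(2,0)]⟩,⟨2,[(2,1),(0,0),(12,0),(7,1),(9,0),(0,0),(2,2)]⟩]⟩) (.K ⟨0,[1,
  0,-1,0,-1],0,0,(⟨0,[(0,0),(16,0)]⟩,⟨0,[(22,0),(6,0)]⟩),.k,(.r (-1) ⟨13,[(6,2),(2,0),(2,7),(12,1),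
  (0,1),(13,8)]⟩ ⟨15,[(7,1),(0,0),(4,6),(10,8),(2,4),(3,0),(2,2)]⟩),(.r 0 ⟨9,[(6,4),(1,3),(0,2),(15,
  1),(0,1),(13,8)]⟩ ⟨13,[(7,1),(4,5),(3,7),(7,19),(6,4),(6,1),(1,2)]⟩),.k,.k,[⟨0,[(2,0),(12,0),(8,
  0),(15,0)]⟩,⟨5,[(1,0),(3,4),(1,0),(0,1),(1,3),(6,3),(12,3),(7,3)]⟩,⟨7,[(2,1),(0,2),(3,0),(12,2),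
  (3,9),(6,1),(2,1)]⟩,⟨1,[(5,1),(0,0),(2,0),(17,1),(7,0)]⟩]⟩)))))) (.K ⟨0,[0,0,0,0,1],(-1),(-1),(⟨0,
  [(17,0)]⟩,⟨0,[(16,0)]⟩),.k,(.r 0 ⟨10,[(2,1),(0,0),(2,3),(12,3),(6,0),(2,2),(3,4)]⟩ ⟨5,[(7,0),(0,
  2),(11,1),(0,1),(10,1),(2,4)]⟩),(.r 0 ⟨2,[(8,0),(11,0),(0,0),(10,0),(4,0)]⟩ ⟨9,[(2,1),(3,1),(0,1),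
  (11,3),(6,0),(6,1),(1,6)]⟩),.k,.k,[⟨0,[(10,0),(3,0)]⟩,⟨0,[(0,0)]⟩,⟨0,[(14,0)]⟩,⟨0,[(0,0),(28,
  0)]⟩]⟩)))))))) (.I [0,0,2,0,-1,2,-1] (.K ⟨0,[0,1,1],0,0,(⟨1,[(0,0),(3,0),(13,0),(9,0)]⟩,⟨0,[(6,
  0)]⟩),.k,.k,(.x (-2) ⟨0,[(4,0),(1,0),(13,0),(0,0),(6,0)]⟩ ⟨0,[(0,0)]⟩),.k,.k,[⟨1,[(15,0),(0,0)]⟩,
  ⟨0,[(4,0)]⟩,⟨0,[(14,0),(12,0)]⟩,⟨0,[(3,0)]⟩]⟩) (.I [0,0,-2,0,1,-2,1] (.K ⟨0,[0,1,1],0,0,(⟨0,[(19,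
  0),(3,0)]⟩,⟨0,[(7,0)]⟩),.k,.k,(.x (-1) ⟨0,[(0,0)]⟩ ⟨1,[(16,0),(0,2),(1,1),(3,3)]⟩),.k,.k,[⟨1,[(16,
  0),(0,0)]⟩,⟨0,[(5,0)]⟩,⟨0,[(15,0),(12,0)]⟩,⟨0,[(4,0)]⟩]⟩) (.Q [0,-1,0,-1,0,0,1,1,0,0,1] (.p true
  [0,0,1] [] (⟨0,[(19,0)]⟩,⟨0,[(18,0)]⟩) .k 0 (⟨0,[]⟩,⟨0,[]⟩) .k .k) (.R ⟨1,false,false,false,[1,0,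
  -1],[1,-1],[],(⟨0,[(19,0)]⟩,⟨0,[(20,0)]⟩),(⟨0,[(23,0)]⟩,⟨0,[(24,0)]⟩),⟨0,[(8,0)]⟩,.k,.k,.k,.k,.k,
  .k,⟨true,0,⟨2,[(3,0),(12,0),(0,0),(10,0),(2,0)]⟩,⟨0,[(29,0)]⟩⟩,⟨false,0,⟨0,[(6,0)]⟩,⟨3,[(7,1),(2,
  0),(0,0),(10,0),(7,1)]⟩⟩,⟨true,0,⟨10,[(0,5),(2,2),(3,1),(6,3),(0,1),(6,2),(2,1)]⟩,⟨0,[(6,0),(9,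
  0)]⟩⟩,⟨false,0,⟨0,[(0,0)]⟩,⟨0,[(16,0),(11,0),(2,0)]⟩⟩,⟨true,0,⟨4,[(0,0),(2,2),(10,1),(0,0),(6,0),
  (7,1)]⟩,⟨0,[(6,0),(9,0),(12,0)]⟩⟩,⟨true,0,⟨1,[(0,0),(4,0)]⟩,⟨0,[(16,0)]⟩⟩,[.o ⟨false,0,⟨0,[(29,
  0)]⟩,⟨1,[(22,0),(5,1),(2,0)]⟩⟩,.e ⟨false,1,⟨1,[(30,0),(0,0)]⟩,⟨0,[(33,0)]⟩⟩ ⟨false,1,⟨1,[(6,1),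
  (22,1),(0,0),(0,0)]⟩,⟨9,[(3,1),(3,3),(8,1),(5,1),(2,0),(1,2),(0,2)]⟩⟩,.a ⟨true,0,⟨19,[(7,9),(2,3),
  (0,3),(14,4),(4,0),(1,1)]⟩,⟨0,[(6,0)]⟩⟩ ⟨false,1,⟨1,[(10,0),(0,0),(19,0)]⟩,⟨0,[]⟩⟩ ⟨true,0,⟨0,[(6,
  0),(22,0)]⟩,⟨9,[(3,1),(3,3),(8,1),(5,1),(2,0),(1,2),(0,2)]⟩⟩,.o ⟨false,0,⟨0,[(18,0)]⟩,⟨1,[(6,1),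
  (15,0),(7,0)]⟩⟩]⟩) (.I [0,0,1,0,0,0,0,-1] (.S ⟨1,0,[0,1,1,0,0,0,0,-1],[1,1,-1],[0,0,1,0,0,0,0,-1],
  (⟨0,[(20,0),(4,0)]⟩,⟨0,[(10,0)]⟩),⟨0,[(20,0)]⟩,.k,.k,⟨true,0,⟨0,[(30,0)]⟩,⟨0,[(29,0)]⟩⟩,⟨false,0,
  ⟨0,[(30,0)]⟩,⟨0,[(29,0),(2,0)]⟩⟩,⟨false,1,⟨1,[(11,0),(0,0),(19,0)]⟩,⟨0,[]⟩⟩,⟨true,0,⟨0,[(34,0)]⟩,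
  ⟨0,[]⟩⟩,[.o ⟨false,0,⟨0,[(17,0)]⟩,⟨1,[(4,1),(2,1),(15,0),(6,3),(0,1),(0,0)]⟩⟩,.a ⟨true,0,⟨1,[(17,
  1),(9,0),(4,0)]⟩,⟨0,[(4,0),(2,0),(22,1),(0,0)]⟩⟩ ⟨false,1,⟨1,[(0,1),(30,0),(0,0)]⟩,⟨0,[(4,0),(23,
  0),(1,2),(0,0)]⟩⟩ ⟨true,0,⟨0,[(0,0)]⟩,⟨0,[(4,0),(25,1),(0,0)]⟩⟩,.a ⟨true,0,⟨0,[(15,0)]⟩,⟨0,[(18,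
  0)]⟩⟩ ⟨true,0,⟨0,[(0,0)]⟩,⟨0,[(4,0),(23,0),(1,2),(0,0)]⟩⟩ ⟨false,0,⟨0,[(0,0)]⟩,⟨1,[(4,1),(25,3),
  (0,2),(0,0)]⟩⟩,.a ⟨true,0,⟨19,[(8,9),(2,3),(0,3),(14,4),(4,0),(1,1)]⟩,⟨0,[(7,0)]⟩⟩ ⟨false,1,⟨1,
  [(0,1),(30,0),(0,0)]⟩,⟨0,[(4,0),(25,1),(0,0)]⟩⟩ ⟨true,0,⟨0,[(7,0),(9,0)]⟩,⟨0,[(4,0),(25,1),(0,
  0)]⟩⟩]⟩) (.Q [0,-1,0,-2,0,0,1,1,0,0,1] (.p true [0,0,1] [] (⟨0,[(21,0)]⟩,⟨0,[(20,0)]⟩) .k 0 (⟨0,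
  []⟩,⟨0,[]⟩) .k .k) (.R ⟨1,true,false,true,[0,0,1],[0,1],[1,1,0,0,0,0,0,1],(⟨0,[(22,0)]⟩,⟨0,[(21,
  0)]⟩),(⟨0,[(26,0)]⟩,⟨0,[(25,0)]⟩),⟨0,[(11,0)]⟩,.k,.k,.k,.k,(.r (-1) ⟨3,[(0,3),(8,1),(14,0),(2,1),
  (4,2)]⟩ ⟨0,[(5,0),(2,1),(9,1),(14,0)]⟩),.k,⟨true,0,⟨1,[(0,0),(0,1),(16,0)]⟩,⟨3,[(3,1),(1,1),(2,7),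
  (1,1),(7,5),(4,1),(0,0),(8,2)]⟩⟩,⟨false,1,⟨1,[(16,1),(7,0),(7,0)]⟩,⟨0,[(19,0)]⟩⟩,⟨false,0,⟨0,[]⟩,
  ⟨1,[(12,0),(0,0),(19,0)]⟩⟩,⟨true,0,⟨0,[(2,0)]⟩,⟨1,[(0,0),(16,0)]⟩⟩,⟨true,0,⟨0,[(30,0)]⟩,⟨0,[(31,
  0)]⟩⟩,⟨false,1,⟨0,[(2,0),(27,0),(2,0)]⟩,⟨0,[(0,0)]⟩⟩,[]⟩) (.I [0,0,2,2,-1,0,0,1] (.K ⟨0,[0,1,1],0,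
  0,(⟨1,[(4,0),(4,0),(13,0),(9,0)]⟩,⟨0,[(11,0)]⟩),.k,.k,(.r 1 ⟨0,[(0,0)]⟩ ⟨1,[(19,1),(0,1),(11,3),
  (0,2),(0,0)]⟩),.k,.k,[⟨1,[(20,0),(0,0)]⟩,⟨0,[(9,0)]⟩,⟨0,[(19,0),(12,0)]⟩,⟨0,[(8,0)]⟩]⟩) (.Q [0,0,
  -1,0,1,0,0,0,-1,0,0,-1] (.p false [0,0,0,0,1] [] (⟨0,[(16,0)]⟩,⟨0,[(15,0)]⟩) .k 0 (⟨0,[]⟩,⟨0,[]⟩)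
  .k .k) (.Q [0,-2,0,1,1,0,-1,-1,-1,1,-1,-1] (.p false [0,0,1] [1,0,0,0,-1] (⟨0,[(24,0)]⟩,⟨0,[(23,
  0)]⟩) .k 2 (⟨0,[(16,0)]⟩,⟨0,[(17,0)]⟩) .k (.r 0 ⟨4,[(3,1),(15,2),(2,2),(6,0)]⟩ ⟨0,[(10,0),(9,0),
  (14,0)]⟩)) (.Q [0,0,0,0,0,0,0,0,0,-1,1,1] (.ed false [0,0,1,0,1] (.r 0 ⟨4,[(4,1),(15,2),(2,2),(6,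
  0)]⟩ ⟨0,[(11,0),(9,0),(14,0)]⟩)) (.Q [0,0,1,0,-1,0,-1,0,-1,2,-1,-1] (.p false [-1,0,1,0,1] [1]
  (⟨0,[(0,0)]⟩,⟨0,[(18,0),(6,0)]⟩) .k 1 (⟨0,[]⟩,⟨0,[]⟩) .k (.r 0 ⟨4,[(5,1),(15,2),(2,2),(6,0)]⟩ ⟨0,
  [(12,0),(9,0),(14,0)]⟩)) (.K ⟨0,[2,0,-1,0,-1],(-1),0,(⟨0,[(19,0),(6,0)]⟩,⟨0,[(1,0)]⟩),.k,(.r (-2)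
  ⟨5,[(4,3),(0,0),(11,3),(0,3),(4,0),(0,1),(13,3)]⟩ ⟨0,[(10,0),(23,0),(1,1)]⟩),(.r (-1) ⟨1,[(5,0),
  (17,0),(0,1),(13,1)]⟩ ⟨4,[(6,3),(15,0),(2,0),(6,1),(3,4)]⟩),.k,.k,[⟨0,[(13,1),(4,0),(10,0)]⟩,⟨0,
  [(0,0)]⟩,⟨0,[(10,0),(2,0),(4,0),(10,0),(4,1),(1,3)]⟩,⟨19,[(0,8),(1,5),(1,5),(0,2),(11,4),(5,4),(0,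
  2),(8,7),(6,3)]⟩]⟩) (.K ⟨0,[1,1,0,0,-1],0,0,(⟨0,[(19,0),(11,0)]⟩,⟨0,[(1,0),(13,0)]⟩),(.r (-1) ⟨9,
  [(0,0),(1,1),(8,3),(5,2),(0,3),(4,1),(0,2),(13,3)]⟩ ⟨0,[(34,0),(1,1)]⟩),.k,(.r 0 ⟨8,[(0,2),(1,3),
  (5,1),(1,6),(2,2),(1,1),(2,0),(4,2),(0,2),(3,1),(9,1)]⟩ ⟨5,[(4,4),(1,0),(7,1),(7,3),(6,0),(2,0),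
  (3,1)]⟩),(.r (-1) ⟨1,[(5,0),(17,0),(0,1),(13,1)]⟩ ⟨4,[(6,3),(15,0),(2,0),(6,1),(3,4)]⟩),.k,[⟨5,
  [(0,5),(7,3),(1,1),(2,5),(1,3),(7,1),(4,3),(4,0),(2,3),(1,0)]⟩,⟨0,[(2,0),(7,0),(2,0),(20,1),(1,
  4)]⟩,⟨1,[(0,0),(9,0),(7,0),(4,0),(8,0),(3,3),(3,0)]⟩,⟨0,[(2,0),(7,0),(2,0),(20,1),(1,3)]⟩]⟩)) (.Q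
  [0,-1,0,2,1,0,0,0,0,-1] (.pp true [-1,1]) (.S ⟨1,0,[0,1,-1,-2],[1,-1],[1,0,-1,-1],(⟨0,[(30,0)]⟩,
  ⟨0,[(31,0)]⟩),⟨0,[(15,0),(0,0)]⟩,.k,(.r (-1) ⟨12,[(4,9),(1,5),(7,1),(7,3),(6,0),(6,5),(1,1)]⟩ ⟨3,
  [(5,1),(4,0),(0,0),(12,2),(0,0),(12,0)]⟩),⟨true,0,⟨0,[]⟩,⟨0,[(40,0)]⟩⟩,⟨false,0,⟨0,[(36,0)]⟩,⟨9,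
  [(0,1),(1,1),(8,1),(5,0),(0,2),(5,1),(12,2),(0,1)]⟩⟩,⟨false,1,⟨9,[(0,1),(1,1),(8,1),(5,0),(0,2),
  (5,1),(12,2),(0,1)]⟩,⟨0,[(36,0)]⟩⟩,⟨true,0,⟨0,[(40,0)]⟩,⟨0,[]⟩⟩,[.o ⟨false,0,⟨0,[(36,1),(3,0)]⟩,
  ⟨0,[(0,0)]⟩⟩,.o ⟨false,0,⟨0,[(36,1)]⟩,⟨5,[(0,3),(16,0),(0,0),(10,0),(5,3)]⟩⟩,.o ⟨false,0,⟨1,[(24,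
  0),(0,0)]⟩,⟨1,[(29,0),(7,0)]⟩⟩,.a ⟨true,(-1),⟨5,[(8,3),(1,1),(2,5),(1,3),(7,1),(4,3),(4,0),(2,3),
  (1,0)]⟩,⟨0,[(37,0)]⟩⟩ ⟨true,1,⟨19,[(4,9),(1,5),(7,1),(7,3),(6,0),(7,6),(0,1)]⟩,⟨0,[(10,0),(2,0),
  (9,0),(12,0)]⟩⟩ ⟨false,1,⟨12,[(4,9),(1,5),(7,1),(7,3),(6,0),(6,5),(1,1)]⟩,⟨0,[(10,0),(2,0),(9,0),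
  (14,0)]⟩⟩]⟩) (.Q [0,0,2,0,-1,0,0,0,-1,1,0,-1] (.p false [0,0,0,0,1] [1] (⟨0,[(20,0)]⟩,⟨0,[(19,
  0)]⟩) .k 1 (⟨0,[]⟩,⟨0,[]⟩) .k .k) (.K ⟨0,[1,-1,0,0,-1],(-1),0,(⟨0,[(2,0),(14,0)]⟩,⟨0,[(21,0),(10,
  0)]⟩),(.r (-1) ⟨51,[(1,5),(3,19),(1,11),(7,3),(7,7),(6,4),(8,32)]⟩ ⟨5,[(6,0),(5,1),(11,0),(0,1),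
  (15,3)]⟩),(.r (-2) ⟨12,[(1,0),(3,11),(1,1),(7,4),(7,9),(6,2),(8,11)]⟩ ⟨0,[(11,0),(2,0),(9,0)]⟩),
  .k,(.r (-2) ⟨5,[(5,3),(0,0),(11,3),(0,3),(4,0),(0,1),(13,3)]⟩ ⟨4,[(1,1),(5,0),(3,3),(18,0),(2,0),
  (1,0)]⟩),.k,[⟨1,[(14,1),(4,1),(10,0),(7,0)]⟩,⟨0,[(0,0)]⟩,⟨10,[(1,2),(4,3),(4,3),(2,3),(4,10),(10,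
  6),(2,6),(1,0)]⟩,⟨11,[(0,3),(0,5),(2,7),(29,0),(4,2)]⟩]⟩) (.K ⟨0,[0,1,0,0,1],0,(-1),(⟨0,[(21,0),
  (10,0)]⟩,⟨0,[(2,0),(14,0)]⟩),(.r 0 ⟨5,[(6,0),(5,1),(11,0),(0,1),(15,3)]⟩ ⟨51,[(1,5),(3,19),(1,11),
  (7,3),(7,7),(6,4),(8,32)]⟩),.k,(.r 1 ⟨0,[(11,0),(2,0),(9,0)]⟩ ⟨12,[(1,0),(3,11),(1,1),(7,4),(7,9),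
  (6,2),(8,11)]⟩),(.r 0 ⟨1,[(6,0),(17,0),(0,1)]⟩ ⟨51,[(1,17),(3,7),(1,35),(7,11),(7,23),(6,14),(8,
  46)]⟩),.k,[⟨3,[(1,4),(1,2),(0,0),(6,2),(2,6),(15,3),(4,0)]⟩,⟨0,[(19,0)]⟩,⟨3,[(1,1),(16,3),(11,0),
  (8,0)]⟩,⟨5,[(0,4),(0,6),(4,4),(4,4),(2,4),(4,0),(10,0)]⟩]⟩)))) (.Q [0,-2,0,0,1,0,0,0,-1,1,0,-1]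
  (.p false [0,0,0,0,1] [1] (⟨0,[(18,0)]⟩,⟨0,[(17,0)]⟩) .k 1 (⟨0,[]⟩,⟨0,[]⟩) .k .k) (.Q [0,0,-1,0,0,
  0,0,0,-1,1,0,-1] (.p false [0,0,0,0,1] [1] (⟨0,[(19,0)]⟩,⟨0,[(18,0)]⟩) .k 1 (⟨0,[]⟩,⟨0,[]⟩) .k
  .k) (.Q [0,0,0,0,0,-1,0,0,0,1,0,-1] (.ed true [0,1,0,0,1] .k) (.K ⟨0,[0,1,0,0,1],0,(-1),(⟨0,[(21,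
  0),(10,0)]⟩,⟨0,[(0,0)]⟩),(.r 0 ⟨5,[(6,0),(5,1),(11,0),(0,1),(15,3)]⟩ ⟨25,[(5,9),(1,5),(7,1),(7,3),
  (6,0),(6,5),(1,14)]⟩),.k,(.r 1 ⟨0,[(11,0),(2,0),(9,0)]⟩ ⟨25,[(5,23),(1,3),(7,9),(7,19),(6,4),(6,
  3),(1,22)]⟩),(.r 0 ⟨1,[(6,0),(17,0),(0,1)]⟩ ⟨25,[(5,3),(1,17),(7,5),(7,11),(6,2),(6,17),(1,18)]⟩),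
  .k,[⟨6,[(1,6),(7,4),(1,1),(2,13),(1,4),(7,1),(4,4),(0,5),(6,3),(1,0)]⟩,⟨0,[(19,0)]⟩,⟨0,[(18,0),
  (18,0)]⟩,⟨1,[(3,1),(2,1),(27,0),(4,0)]⟩]⟩) (.K ⟨0,[2,0,-1,0,-1],(-1),0,(⟨0,[(20,0),(6,0)]⟩,⟨0,[(0,
  0),(16,0)]⟩),.k,(.r (-2) ⟨5,[(5,3),(0,0),(11,3),(0,3),(4,0),(0,1),(13,3)]⟩ ⟨18,[(1,6),(1,6),(7,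
  12),(3,1),(8,0),(1,1),(3,0),(2,1)]⟩),(.r (-1) ⟨1,[(6,0),(17,0),(0,1),(13,1)]⟩ ⟨12,[(1,0),(1,4),(0,
  3),(0,0),(1,5),(7,3),(7,2),(13,5)]⟩),.k,.k,[⟨0,[(14,1),(4,0),(10,0)]⟩,⟨5,[(1,5),(7,3),(1,1),(4,3),
  (7,1),(4,3),(4,0),(2,3),(1,0)]⟩,⟨2,[(3,1),(9,0),(5,0),(10,1),(5,0)]⟩,⟨9,[(1,4),(0,4),(6,0),(6,0),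
  (7,9),(0,0),(5,0),(2,3),(5,1)]⟩]⟩)) (.Q [0,0,0,0,0,0,0,0,-1,1,0,-1] (.p false [0,0,0,0,1] [1] (⟨0,
  [(20,0)]⟩,⟨0,[(19,0)]⟩) .k 1 (⟨0,[]⟩,⟨0,[]⟩) .k .k) (.Q [0,0,0,0,0,-1,0,0,0,0,0,1] (.ed false [1,
  -1,0,0,1] .k) (.S ⟨1,0,[0,0,1],[1,1,0,0,-1],[0,-1,1],(⟨0,[(21,0),(11,0)]⟩,⟨0,[(0,0)]⟩),⟨0,[(21,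
  0)]⟩,(.r (-1) ⟨5,[(7,0),(5,1),(5,1),(0,1),(4,0),(0,1),(13,3)]⟩ ⟨2,[(1,0),(2,0),(1,0),(1,0),(16,
  0)]⟩),.k,⟨true,0,⟨0,[(38,0)]⟩,⟨0,[(37,0)]⟩⟩,⟨false,0,⟨0,[(38,0)]⟩,⟨7,[(7,1),(5,1),(12,1),(12,2),
  (0,4)]⟩⟩,⟨false,1,⟨1,[(19,0),(0,0),(19,0)]⟩,⟨0,[]⟩⟩,⟨true,0,⟨0,[(42,0)]⟩,⟨0,[]⟩⟩,[.a ⟨true,0,⟨0,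
  [(1,0)]⟩,⟨0,[(20,0)]⟩⟩ ⟨false,1,⟨1,[(19,0),(0,0),(19,0)]⟩,⟨5,[(1,0),(2,0),(1,0),(1,0),(16,0),(10,
  2)]⟩⟩ ⟨true,0,⟨1,[(26,0),(0,0)]⟩,⟨0,[]⟩⟩,.o ⟨false,1,⟨1,[(1,0),(1,0),(27,0)]⟩,⟨5,[(2,3),(1,1),(2,
  0),(17,0),(13,1)]⟩⟩,.o ⟨false,1,⟨0,[(5,0)]⟩,⟨0,[(2,0)]⟩⟩,.e ⟨false,1,⟨0,[(40,0)]⟩,⟨0,[(42,0)]⟩⟩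
  ⟨false,1,⟨1,[(19,0),(0,0),(19,0)]⟩,⟨0,[]⟩⟩]⟩) (.R ⟨0,false,false,false,[0,0,0,0,1],[1,-1],[1,1,1],
  (⟨0,[(22,0)]⟩,⟨0,[(21,0)]⟩),(⟨0,[(32,0)]⟩,⟨0,[(33,0)]⟩),⟨0,[(0,0)]⟩,.k,.k,(.r 0 ⟨2,[(1,0),(2,0),
  (1,0),(1,0),(16,0)]⟩ ⟨5,[(7,0),(5,1),(5,1),(0,1),(4,0),(0,1),(13,3)]⟩),(.r 0 ⟨5,[(7,0),(5,1),(11,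
  0),(0,1),(15,3)]⟩ ⟨25,[(6,9),(1,5),(7,1),(7,3),(6,0),(6,5),(1,14)]⟩),.k,.k,⟨true,(-1),⟨0,[(12,0),
  (2,0),(9,0),(12,0)]⟩,⟨25,[(6,9),(1,5),(7,1),(7,3),(6,0),(6,5),(1,14)]⟩⟩,⟨false,0,⟨0,[(1,0)]⟩,⟨0,
  [(2,0),(36,0)]⟩⟩,⟨true,0,⟨1,[(26,0),(0,0)]⟩,⟨5,[(1,0),(2,0),(1,0),(1,0),(16,0),(10,2)]⟩⟩,⟨false,1,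
  ⟨0,[(3,0),(34,0)]⟩,⟨0,[(2,0),(33,0)]⟩⟩,⟨false,0,⟨0,[]⟩,⟨0,[]⟩⟩,⟨false,0,⟨0,[]⟩,⟨0,[]⟩⟩,[.o ⟨false,
  0,⟨0,[(38,0)]⟩,⟨7,[(7,1),(5,1),(12,1),(4,3),(7,2),(0,0)]⟩⟩,.e ⟨false,0,⟨0,[]⟩,⟨1,[(19,0),(0,0),
  (18,0)]⟩⟩ ⟨false,1,⟨13,[(1,4),(1,7),(1,0),(0,4),(1,2),(7,0),(7,1),(13,3)]⟩,⟨0,[(2,0),(33,0)]⟩⟩,.a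
  ⟨true,0,⟨0,[(20,0)]⟩,⟨0,[(1,0)]⟩⟩ ⟨false,0,⟨1,[(26,0),(0,0)]⟩,⟨1,[(39,0),(0,0)]⟩⟩ ⟨true,0,⟨0,[(1,
  0),(36,0)]⟩,⟨0,[(2,0),(33,0)]⟩⟩,.o ⟨false,0,⟨0,[(2,0)]⟩,⟨0,[(5,0)]⟩⟩]⟩)) (.Q [0,0,0,0,0,-1,0,0,0,
  0,0,1] (.ed false [1,-1,0,0,1] .k) (.K ⟨0,[0,-1,0,0,1],(-1),(-1),(⟨0,[(0,0)]⟩,⟨0,[(21,0),(11,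
  0)]⟩),(.r 0 ⟨0,[(36,0),(1,1)]⟩ ⟨5,[(7,0),(5,1),(5,1),(0,1),(4,0),(0,1),(13,3)]⟩),(.r (-1) ⟨9,[(4,
  1),(0,0),(0,8),(1,0),(7,3),(2,0),(4,5),(6,0)]⟩ ⟨0,[(12,0),(2,0),(9,0),(14,0)]⟩),.k,(.r (-1) ⟨5,
  [(6,3),(0,0),(11,1),(0,1),(4,0),(0,1),(15,3)]⟩ ⟨13,[(3,1),(0,1),(3,3),(3,6),(0,0),(13,1),(12,
  6)]⟩),.k,[⟨0,[(5,0),(9,0)]⟩,⟨5,[(1,5),(8,3),(1,1),(2,5),(1,3),(7,1),(4,3),(4,0),(2,3),(1,0)]⟩,⟨15,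
  [(3,1),(1,11),(1,3),(4,0),(0,2),(5,1),(6,3),(4,0)]⟩,⟨2,[(4,1),(15,0),(4,1),(9,0),(2,0)]⟩]⟩) (.K
  ⟨0,[1,0,-1,0,-1],0,1,(⟨0,[(0,0),(16,0)]⟩,⟨0,[(22,0),(6,0)]⟩),.k,(.r (-2) ⟨5,[(6,3),(0,0),(11,3),
  (0,3),(4,0),(0,1),(13,3)]⟩ ⟨0,[(12,0),(23,0),(1,1)]⟩),(.r (-1) ⟨1,[(7,0),(17,0),(0,1),(13,1)]⟩
  ⟨16,[(4,6),(0,6),(0,0),(1,7),(7,4),(7,2),(10,0),(2,7)]⟩),.k,.k,[⟨0,[(1,0),(13,1)]⟩,⟨5,[(3,0),(1,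
  4),(4,2),(1,1),(4,2),(7,1),(1,0),(2,2),(4,0),(2,3)]⟩,⟨4,[(1,0),(2,3),(7,0),(2,0),(20,1)]⟩,⟨8,[(3,
  4),(15,5),(0,1),(4,8),(9,1),(6,0)]⟩]⟩)))) (.K ⟨0,[1,0,0,0,-1],0,1,(⟨0,[(18,0)]⟩,⟨0,[(19,0)]⟩),.k,
  (.r (-1) ⟨25,[(3,9),(1,5),(7,1),(7,3),(6,0),(6,5),(1,14)]⟩ ⟨5,[(4,0),(5,1),(11,0),(0,1),(15,3)]⟩),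
  (.r (-1) ⟨5,[(4,0),(5,1),(5,1),(0,1),(4,0),(0,1),(13,3)]⟩ ⟨5,[(0,1),(0,0),(0,2),(0,0),(16,0),(11,
  0),(2,2)]⟩),.k,.k,[⟨0,[(0,0),(11,0),(24,0)]⟩,⟨5,[(2,5),(4,3),(1,1),(2,5),(1,3),(7,1),(4,3),(4,0),
  (2,3),(1,0)]⟩,⟨0,[(0,0)]⟩,⟨9,[(16,13),(0,3),(14,4),(4,0),(1,1)]⟩]⟩))) (.K ⟨0,[0,0,0,0,1],(-1),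
  (-1),(⟨0,[(17,0)]⟩,⟨0,[(16,0)]⟩),.k,(.r 0 ⟨0,[(31,0),(1,1)]⟩ ⟨5,[(2,0),(5,1),(5,1),(0,1),(4,0),(0,
  1),(13,3)]⟩),(.r 0 ⟨5,[(2,0),(5,1),(11,0),(0,1),(15,3)]⟩ ⟨25,[(1,9),(1,5),(7,1),(7,3),(6,0),(6,5),
  (1,14)]⟩),.k,.k,[⟨0,[(10,0),(3,0)]⟩,⟨0,[(0,0)]⟩,⟨0,[(14,0)]⟩,⟨0,[(0,0),(28,0)]⟩]⟩)))))))))))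

theorem ok0 : chk K t0 l0 = true := by decide +kernel

noncomputable def t1 : Tre :=
  (.Q [0,1,0,1,0,0,-1,-1,0,0,-1] (.p false [0,0,1] [] (⟨0,[(14,0)]⟩,⟨0,[(13,0)]⟩) .k 0 (⟨0,[]⟩,⟨0,
  []⟩) .k .k) (.Q [0,1,0,0,0,0,0,0,1,-1,0,1] (.p true [0,0,0,0,1] [1] (⟨0,[(8,0)]⟩,⟨0,[(7,0)]⟩) .k
  1 (⟨0,[]⟩,⟨0,[]⟩) .k .k) (.Q [0,0,-1,0,0,0,0,0,-1,1,0,-1] (.p false [0,0,0,0,1] [1] (⟨0,[(9,0)]⟩,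
  ⟨0,[(8,0)]⟩) .k 1 (⟨0,[]⟩,⟨0,[]⟩) .k .k) (.Q [0,0,0,0,0,-1,0,0,0,0,0,1] (.ed false [1,-1,0,0,1]
  .k) (.S ⟨1,0,[0,-1,1],[1,1,0,0,-1],[0,0,1],(⟨0,[(10,0),(11,0)]⟩,⟨0,[(0,0)]⟩),⟨0,[(10,0)]⟩,(.r
  (-1) ⟨1,[(15,0),(0,0),(9,1),(2,1)]⟩ ⟨0,[(1,0),(0,0),(24,0)]⟩),.k,⟨false,0,⟨0,[(27,0)]⟩,⟨0,[(26,0),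
  (2,0)]⟩⟩,⟨true,0,⟨0,[(27,0)]⟩,⟨0,[(26,0)]⟩⟩,⟨true,0,⟨0,[(31,0)]⟩,⟨0,[]⟩⟩,⟨false,1,⟨1,[(8,0),(0,0),
  (19,0)]⟩,⟨0,[]⟩⟩,[.o ⟨false,1,⟨1,[(1,1),(13,0),(0,0),(3,0),(8,0)]⟩,⟨0,[(2,0)]⟩⟩,.e ⟨false,1,⟨1,
  [(8,0),(0,0),(19,0)]⟩,⟨0,[(1,0),(0,0)]⟩⟩ ⟨false,1,⟨0,[(29,0)]⟩,⟨0,[(23,0)]⟩⟩,.a ⟨true,0,⟨0,[(1,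
  0)]⟩,⟨1,[(9,1),(5,0),(0,0)]⟩⟩ ⟨true,0,⟨1,[(15,0),(0,0)]⟩,⟨0,[(1,0),(0,0)]⟩⟩ ⟨false,1,⟨1,[(15,0),
  (0,0),(12,1)]⟩,⟨0,[(1,0),(0,0)]⟩⟩,.e ⟨false,1,⟨1,[(8,0),(0,0),(19,0)]⟩,⟨0,[]⟩⟩ ⟨false,1,⟨0,[(29,
  0)]⟩,⟨0,[(31,0)]⟩⟩]⟩) (.Q [0,1,0,-1,-1,0,0,0,0,1] (.pp false [-1,1]) (.R ⟨0,false,false,true,[0,1,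
  0,0,-1],[1,0,0,0,-1],[0,0,1],(⟨0,[(1,0)]⟩,⟨0,[(12,0),(9,0)]⟩),(⟨0,[(11,0)]⟩,⟨0,[(12,0)]⟩),⟨0,[(12,
  0)]⟩,(.r (-1) ⟨1,[(16,0),(0,0),(9,1),(2,1)]⟩ ⟨1,[(0,1),(20,0),(7,0)]⟩),.k,.k,.k,.k,.k,⟨true,0,⟨1,
  [(16,0),(0,0)]⟩,⟨0,[]⟩⟩,⟨false,0,⟨9,[(9,3),(0,3),(14,4),(4,0),(1,1)]⟩,⟨1,[(21,0),(7,0)]⟩⟩,⟨false,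
  0,⟨0,[(28,0)]⟩,⟨0,[(27,0),(2,0)]⟩⟩,⟨true,(-1),⟨0,[(0,0)]⟩,⟨1,[(21,0),(5,1),(2,0)]⟩⟩,⟨false,0,⟨0,
  []⟩,⟨0,[]⟩⟩,⟨false,0,⟨0,[]⟩,⟨0,[]⟩⟩,[.a ⟨true,0,⟨1,[(2,1),(13,0),(0,0)]⟩,⟨0,[(10,0)]⟩⟩ ⟨true,0,⟨1,
  [(16,0),(0,0)]⟩,⟨0,[]⟩⟩ ⟨false,0,⟨9,[(9,3),(0,3),(14,4),(4,0),(1,1)]⟩,⟨1,[(21,0),(7,0)]⟩⟩,.o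
  ⟨false,1,⟨1,[(2,1),(13,0),(0,0),(3,0),(8,0)]⟩,⟨0,[(3,0)]⟩⟩,.o ⟨false,1,⟨0,[(2,0),(18,0)]⟩,⟨1,[(10,
  1),(5,0),(0,0)]⟩⟩,.o ⟨false,1,⟨1,[(2,1),(13,0),(0,0),(3,1)]⟩,⟨0,[(10,0)]⟩⟩]⟩) (.I [1,0,1,1] (.R
  ⟨0,false,false,false,[0,0,0,0,1],[1,-1,0,0,1],[0,1,0,-1],(⟨0,[(13,0)]⟩,⟨0,[(12,0)]⟩),(⟨0,[(13,0),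
  (9,0)]⟩,⟨0,[(2,0)]⟩),⟨0,[(2,0)]⟩,.k,(.r 0 ⟨0,[(3,0),(0,0),(24,0)]⟩ ⟨1,[(0,1),(9,0),(0,0),(19,
  0)]⟩),(.r 0 ⟨0,[(3,0),(0,0),(24,0)]⟩ ⟨1,[(0,1),(9,0),(0,0),(19,0)]⟩),.k,.k,.k,⟨true,0,⟨1,[(17,0),
  (0,0)]⟩,⟨0,[]⟩⟩,⟨false,0,⟨9,[(10,3),(0,3),(14,4),(4,0),(1,1)]⟩,⟨1,[(22,0),(7,0)]⟩⟩,⟨true,0,⟨0,
  [(29,0)]⟩,⟨0,[(28,0)]⟩⟩,⟨false,0,⟨1,[(26,0),(2,1),(1,0)]⟩,⟨2,[(1,1),(2,0),(5,0),(17,0)]⟩⟩,⟨false,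
  0,⟨0,[]⟩,⟨0,[]⟩⟩,⟨false,0,⟨0,[]⟩,⟨0,[]⟩⟩,[.e ⟨false,0,⟨0,[(3,0),(0,0),(24,0)]⟩,⟨0,[(28,0),(2,
  0)]⟩⟩ ⟨false,0,⟨3,[(10,0),(0,0),(13,1),(0,1),(2,3),(0,0)]⟩,⟨0,[(1,0)]⟩⟩,.o ⟨false,0,⟨0,[(11,0),
  (17,0)]⟩,⟨0,[(0,0),(2,0),(18,0)]⟩⟩,.e ⟨false,0,⟨0,[(29,0)]⟩,⟨0,[(28,0),(2,0)]⟩⟩ ⟨false,0,⟨1,[(10,
  0),(0,0),(14,0),(2,1)]⟩,⟨0,[(1,0)]⟩⟩,.a ⟨true,0,⟨1,[(11,1),(5,0),(0,0)]⟩,⟨0,[(3,0)]⟩⟩ ⟨true,0,⟨0,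
  [(3,0),(0,0),(24,0)]⟩,⟨0,[(0,0)]⟩⟩ ⟨false,0,⟨1,[(26,0),(2,1),(0,0)]⟩,⟨1,[(1,1),(15,0),(0,0)]⟩⟩]⟩)
  (.S ⟨1,0,[0,2,1],[0,1,0,0,1],[0,1,1],(⟨0,[(13,0),(10,0)]⟩,⟨0,[(2,0),(5,0),(0,0)]⟩),⟨0,[(13,0)]⟩,
  (.r 0 ⟨1,[(17,0),(0,0),(9,1)]⟩ ⟨1,[(29,1),(0,0),(0,0)]⟩),.k,⟨true,0,⟨0,[(29,0)]⟩,⟨0,[(28,0)]⟩⟩,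
  ⟨false,0,⟨0,[(29,0)]⟩,⟨0,[(28,0),(2,0)]⟩⟩,⟨false,1,⟨1,[(10,0),(0,0),(19,0)]⟩,⟨0,[]⟩⟩,⟨true,0,⟨0,
  [(33,0)]⟩,⟨0,[]⟩⟩,[.e ⟨false,0,⟨0,[(33,0)]⟩,⟨1,[(30,0),(0,0)]⟩⟩ ⟨false,0,⟨0,[(33,1)]⟩,⟨1,[(0,1),
  (0,1),(24,0),(4,0)]⟩⟩,.o ⟨false,0,⟨0,[(4,0)]⟩,⟨1,[(3,1),(13,0),(0,0),(3,0),(8,0)]⟩⟩,.e ⟨false,0,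
  ⟨1,[(17,0),(0,0)]⟩,⟨1,[(30,0),(0,0)]⟩⟩ ⟨false,0,⟨1,[(17,0),(0,0),(14,1)]⟩,⟨1,[(0,1),(0,1),(24,0),
  (4,0)]⟩⟩,.a ⟨true,0,⟨0,[(11,0)]⟩,⟨1,[(3,1),(13,0),(0,0)]⟩⟩ ⟨true,0,⟨0,[(33,0)]⟩,⟨0,[]⟩⟩ ⟨false,0,
  ⟨0,[(33,0)]⟩,⟨0,[(31,0)]⟩⟩]⟩)))) (.Q [0,1,0,0,-1,0,0,0,1,0,0,1] (.p true [0,0,0,0,1] [] (⟨0,[(10,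
  0)]⟩,⟨0,[(9,0)]⟩) .k 0 (⟨0,[]⟩,⟨0,[]⟩) .k .k) (.Q [0,0,-1,0,0,0,0,0,1,-1,0,1] (.p true [0,0,0,0,
  1] [1] (⟨0,[(11,0)]⟩,⟨0,[(10,0)]⟩) .k 1 (⟨0,[]⟩,⟨0,[]⟩) .k .k) (.Q [0,2,0,0,-1,0,0,0,1,-1,0,1]
  (.p true [0,0,0,0,1] [1] (⟨0,[(12,0)]⟩,⟨0,[(11,0)]⟩) .k 1 (⟨0,[]⟩,⟨0,[]⟩) .k .k) (.Q [0,0,0,0,0,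
  -1,0,0,0,1,0,-1] (.ed true [0,1,0,0,1] .k) (.S ⟨1,0,[0,2,1],[0,1,0,0,1],[0,1,1],(⟨0,[(14,0),(10,
  0)]⟩,⟨0,[(0,0)]⟩),⟨0,[(14,0)]⟩,(.r 0 ⟨1,[(18,0),(0,0),(9,1)]⟩ ⟨1,[(30,1),(0,0),(0,0)]⟩),.k,⟨true,
  0,⟨0,[(30,0)]⟩,⟨0,[(29,0)]⟩⟩,⟨false,0,⟨0,[(30,0)]⟩,⟨0,[(29,0),(2,0)]⟩⟩,⟨false,1,⟨1,[(11,0),(0,0),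
  (19,0)]⟩,⟨0,[]⟩⟩,⟨true,0,⟨0,[(34,0)]⟩,⟨0,[]⟩⟩,[.o ⟨false,(-1),⟨0,[(1,0)]⟩,⟨0,[(11,0),(20,0)]⟩⟩,.a
  ⟨true,(-1),⟨0,[(3,0)]⟩,⟨1,[(11,1),(15,0),(4,0)]⟩⟩ ⟨true,0,⟨1,[(18,0),(0,0)]⟩,⟨0,[]⟩⟩ ⟨false,0,⟨0,
  [(34,0)]⟩,⟨1,[(31,0),(0,0)]⟩⟩,.o ⟨false,0,⟨0,[(2,0)]⟩,⟨1,[(11,1),(6,0),(0,0)]⟩⟩,.o ⟨false,0,⟨1,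
  [(2,0),(1,0)]⟩,⟨0,[(11,0)]⟩⟩]⟩) (.Q [0,0,-1,0,1,0,0,0,-1,0,0,-1] (.p false [0,0,0,0,1] [] (⟨0,
  [(14,0)]⟩,⟨0,[(13,0)]⟩) .k 0 (⟨0,[]⟩,⟨0,[]⟩) .k .k) (.S ⟨1,0,[0,-1,1],[1,1,0,0,-1],[0,0,1],(⟨0,
  [(14,0),(11,0)]⟩,⟨0,[(1,0),(8,0),(0,0)]⟩),⟨0,[(14,0)]⟩,(.r (-1) ⟨1,[(19,0),(0,0),(9,1),(2,1)]⟩ ⟨3,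
  [(0,1),(1,0),(0,0),(23,0),(0,0),(2,3)]⟩),.k,⟨false,0,⟨0,[(31,0)]⟩,⟨0,[(30,0),(2,0)]⟩⟩,⟨true,0,⟨0,
  [(31,0)]⟩,⟨0,[(30,0)]⟩⟩,⟨true,0,⟨0,[(35,0)]⟩,⟨0,[]⟩⟩,⟨false,1,⟨1,[(12,0),(0,0),(19,0)]⟩,⟨0,[]⟩⟩,
  [.a ⟨true,1,⟨1,[(12,1),(15,0),(4,0)]⟩,⟨0,[(4,0)]⟩⟩ ⟨true,0,⟨1,[(19,0),(0,0)]⟩,⟨0,[]⟩⟩ ⟨false,1,⟨1,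
  [(12,0),(0,0),(19,0)]⟩,⟨3,[(0,1),(1,0),(0,0),(23,0),(0,0)]⟩⟩,.o ⟨false,2,⟨0,[(12,0),(20,0)]⟩,⟨0,
  [(2,0)]⟩⟩,.o ⟨false,1,⟨0,[(0,0)]⟩,⟨0,[(5,0)]⟩⟩,.o ⟨false,1,⟨0,[(12,0)]⟩,⟨1,[(3,0),(1,0)]⟩⟩]⟩) (.S
  ⟨1,0,[0,0,1],[1,1,0,0,-1],[0,-1,1],(⟨0,[(14,0),(11,0)]⟩,⟨0,[(1,0),(8,0),(0,0)]⟩),⟨0,[(14,0)]⟩,(.r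
  (-1) ⟨1,[(19,0),(0,0),(9,1),(2,1)]⟩ ⟨0,[(29,0),(1,1)]⟩),.k,⟨true,0,⟨0,[(31,0)]⟩,⟨0,[(30,0)]⟩⟩,
  ⟨false,0,⟨0,[(31,0)]⟩,⟨0,[(30,0),(2,0)]⟩⟩,⟨false,1,⟨1,[(12,0),(0,0),(19,0)]⟩,⟨0,[]⟩⟩,⟨true,0,⟨0,
  [(35,0)]⟩,⟨0,[]⟩⟩,[.o ⟨false,1,⟨0,[(12,0)]⟩,⟨1,[(3,0),(1,0)]⟩⟩,.e ⟨false,1,⟨0,[(33,0)]⟩,⟨0,[(27,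
  0)]⟩⟩ ⟨false,1,⟨1,[(12,0),(0,0),(19,0)]⟩,⟨0,[(29,0),(1,0)]⟩⟩,.a ⟨true,1,⟨1,[(12,1),(15,0),(3,0)]⟩,
  ⟨0,[(0,0)]⟩⟩ ⟨false,1,⟨1,[(19,0),(0,0),(12,1)]⟩,⟨0,[(29,0),(1,0)]⟩⟩ ⟨true,0,⟨1,[(19,0),(0,0)]⟩,⟨0,
  [(29,0),(1,0)]⟩⟩,.o ⟨false,1,⟨0,[(12,0)]⟩,⟨1,[(3,0),(1,0)]⟩⟩]⟩))) (.Q [0,0,0,0,0,-1,0,0,0,1,0,-1]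
  (.ed true [0,1,0,0,1] .k) (.S ⟨1,0,[0,2,1],[0,1,0,0,1],[0,1,1],(⟨0,[(14,0),(10,0)]⟩,⟨0,[(0,0)]⟩),
  ⟨0,[(14,0)]⟩,(.r 0 ⟨1,[(18,0),(0,0),(9,1)]⟩ ⟨1,[(30,1),(0,0),(0,0)]⟩),.k,⟨true,0,⟨0,[(30,0)]⟩,⟨0,
  [(29,0)]⟩⟩,⟨false,0,⟨0,[(30,0)]⟩,⟨0,[(29,0),(2,0)]⟩⟩,⟨false,1,⟨1,[(11,0),(0,0),(19,0)]⟩,⟨0,[]⟩⟩,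
  ⟨true,0,⟨0,[(34,0)]⟩,⟨0,[]⟩⟩,[.e ⟨false,0,⟨0,[(34,0)]⟩,⟨1,[(31,0),(0,0)]⟩⟩ ⟨false,0,⟨0,[(34,1)]⟩,
  ⟨0,[(1,0),(0,0)]⟩⟩,.a ⟨true,(-1),⟨0,[(3,0)]⟩,⟨8,[(1,4),(9,5),(0,1),(14,1),(6,0)]⟩⟩ ⟨true,0,⟨1,
  [(18,0),(0,0)]⟩,⟨0,[]⟩⟩ ⟨false,0,⟨0,[(34,0)]⟩,⟨1,[(31,0),(0,0)]⟩⟩,.o ⟨false,0,⟨0,[(2,0)]⟩,⟨1,[(11,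
  1),(6,0),(0,0)]⟩⟩,.o ⟨false,0,⟨1,[(2,0),(1,0)]⟩,⟨0,[(11,0)]⟩⟩]⟩) (.Q [0,0,-1,0,1,0,0,0,-1,0,0,-1]
  (.p false [0,0,0,0,1] [] (⟨0,[(14,0)]⟩,⟨0,[(13,0)]⟩) .k 0 (⟨0,[]⟩,⟨0,[]⟩) .k .k) (.S ⟨1,0,[0,-1,
  1],[1,1,0,0,-1],[0,0,1],(⟨0,[(14,0),(11,0)]⟩,⟨0,[(1,0),(8,0),(0,0)]⟩),⟨0,[(14,0)]⟩,(.r (-1) ⟨1,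
  [(19,0),(0,0),(9,1),(2,1)]⟩ ⟨0,[(0,0),(3,0),(26,0)]⟩),.k,⟨false,0,⟨0,[(31,0)]⟩,⟨0,[(30,0),(2,
  0)]⟩⟩,⟨true,0,⟨0,[(31,0)]⟩,⟨0,[(30,0)]⟩⟩,⟨true,0,⟨0,[(35,0)]⟩,⟨0,[]⟩⟩,⟨false,1,⟨1,[(12,0),(0,0),
  (19,0)]⟩,⟨0,[]⟩⟩,[.a ⟨true,1,⟨8,[(2,4),(9,5),(0,1),(14,1),(6,0)]⟩,⟨0,[(4,0)]⟩⟩ ⟨true,0,⟨1,[(19,0),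
  (0,0)]⟩,⟨0,[]⟩⟩ ⟨false,1,⟨1,[(12,0),(0,0),(19,0)]⟩,⟨0,[(0,0),(3,0)]⟩⟩,.e ⟨false,1,⟨1,[(12,0),(0,
  0),(19,0)]⟩,⟨0,[(0,0),(3,0)]⟩⟩ ⟨false,1,⟨0,[(33,0)]⟩,⟨0,[(27,0)]⟩⟩,.o ⟨false,1,⟨0,[(0,0)]⟩,⟨0,[(5,
  0)]⟩⟩,.o ⟨false,1,⟨0,[(12,0)]⟩,⟨1,[(3,0),(1,0)]⟩⟩]⟩) (.R ⟨2,false,false,true,[0,1],[0,0,0,0,1],[0,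
  0,1],(⟨0,[]⟩,⟨0,[]⟩),(⟨0,[(15,0)]⟩,⟨0,[(14,0)]⟩),⟨0,[]⟩,.k,.k,.k,(.r (-1) ⟨1,[(19,0),(0,0),(9,1),
  (2,1)]⟩ ⟨0,[(29,0),(1,1)]⟩),.k,.k,⟨false,1,⟨0,[(33,0)]⟩,⟨0,[(27,0)]⟩⟩,⟨true,(-1),⟨0,[(0,0)]⟩,⟨0,
  [(12,0)]⟩⟩,⟨true,0,⟨0,[(31,0)]⟩,⟨0,[(30,0)]⟩⟩,⟨false,(-1),⟨0,[(4,0),(26,0)]⟩,⟨1,[(2,1),(21,0),(5,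
  1),(2,0)]⟩⟩,⟨false,1,⟨1,[(12,0),(0,0),(19,0)]⟩,⟨0,[]⟩⟩,⟨false,(-1),⟨0,[(4,0)]⟩,⟨0,[(12,0),(20,
  0)]⟩⟩,[.a ⟨true,(-1),⟨0,[(4,0),(30,0)]⟩,⟨0,[(2,0)]⟩⟩ ⟨true,0,⟨1,[(19,0),(0,0)]⟩,⟨0,[]⟩⟩ ⟨false,
  (-1),⟨0,[(4,0),(30,0)]⟩,⟨1,[(2,1),(21,0),(7,0)]⟩⟩,.e ⟨false,1,⟨1,[(12,0),(0,0),(19,0)]⟩,⟨0,[(29,
  0),(1,0)]⟩⟩ ⟨false,(-1),⟨0,[(4,0)]⟩,⟨1,[(12,1),(19,0),(0,0)]⟩⟩,.o ⟨false,1,⟨1,[(24,0),(7,0)]⟩,⟨1,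
  [(19,0),(0,0)]⟩⟩,.fo]⟩)))) (.Q [0,0,0,-1,0,0,0,0,-1,1,0,-1] (.p false [0,0,0,0,1] [1] (⟨0,[(12,
  0)]⟩,⟨0,[(11,0)]⟩) .k 1 (⟨0,[]⟩,⟨0,[]⟩) .k .k) (.R ⟨2,true,false,true,[0,1],[1,0,0,0,-1],[1,1,1,
  1],(⟨0,[]⟩,⟨0,[]⟩),(⟨0,[(12,0)]⟩,⟨0,[(13,0)]⟩),⟨0,[]⟩,.k,.k,.k,(.r 0 ⟨1,[(1,0),(1,0),(24,1)]⟩ ⟨1,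
  [(29,1),(0,0),(0,0)]⟩),.k,.k,⟨false,0,⟨0,[(28,0)]⟩,⟨1,[(29,1),(0,0),(0,0)]⟩⟩,⟨true,0,⟨0,[(1,0)]⟩,
  ⟨1,[(2,1),(19,0),(8,0)]⟩⟩,⟨false,0,⟨0,[]⟩,⟨1,[(10,0),(0,0),(19,0)]⟩⟩,⟨true,0,⟨0,[(0,0)]⟩,⟨0,[(3,
  0),(23,0)]⟩⟩,⟨true,0,⟨0,[(28,0)]⟩,⟨0,[(29,0)]⟩⟩,⟨false,1,⟨1,[(1,1),(28,0),(0,0)]⟩,⟨1,[(2,1),(19,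
  0),(8,0)]⟩⟩,[]⟩) (.Q [0,0,0,0,0,1,0,0,0,-1,0,1] (.ed false [0,1,0,0,1] .k) (.R ⟨0,false,false,
  true,[-1,1,0,0,1],[0,1],[1,1,1],(⟨0,[(0,0)]⟩,⟨0,[(13,0),(10,0)]⟩),(⟨0,[(25,0)]⟩,⟨0,[(24,0)]⟩),⟨0,
  [(13,0)]⟩,(.r 0 ⟨1,[(2,0),(1,0),(24,1)]⟩ ⟨1,[(30,1),(0,0),(0,0)]⟩),.k,.k,.k,.k,.k,⟨true,0,⟨0,[(30,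
  0)]⟩,⟨0,[(1,0),(0,0)]⟩⟩,⟨false,1,⟨0,[(2,0),(28,0)]⟩,⟨1,[(3,1),(19,0),(8,0)]⟩⟩,⟨true,0,⟨0,[(30,
  0)]⟩,⟨0,[(29,0)]⟩⟩,⟨false,1,⟨1,[(2,1),(28,0),(0,0)]⟩,⟨1,[(3,1),(19,0),(8,0)]⟩⟩,⟨false,0,⟨0,[]⟩,⟨0,
  []⟩⟩,⟨false,0,⟨0,[]⟩,⟨0,[]⟩⟩,[.e ⟨false,0,⟨0,[(34,0)]⟩,⟨1,[(31,0),(0,0)]⟩⟩ ⟨false,0,⟨0,[(2,0),(25,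
  0)]⟩,⟨1,[(3,1),(19,0),(6,1),(0,0),(0,1)]⟩⟩,.o ⟨false,1,⟨1,[(23,0),(5,1),(2,0)]⟩,⟨0,[(30,0)]⟩⟩,.o
  ⟨false,1,⟨1,[(3,1),(19,1),(7,0),(0,0)]⟩,⟨0,[(2,0)]⟩⟩,.a ⟨true,0,⟨1,[(3,1),(19,0),(8,0)]⟩,⟨1,[(2,
  1),(24,0),(3,0)]⟩⟩ ⟨false,0,⟨0,[]⟩,⟨1,[(11,0),(0,0),(19,0)]⟩⟩ ⟨true,0,⟨0,[(2,0),(25,0)]⟩,⟨1,[(3,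
  1),(19,0),(6,1),(1,0)]⟩⟩]⟩) (.Q [0,0,-1,0,1,0,0,0,-1,0,0,-1] (.p false [0,0,0,0,1] [] (⟨0,[(14,
  0)]⟩,⟨0,[(13,0)]⟩) .k 0 (⟨0,[]⟩,⟨0,[]⟩) .k .k) (.Q [0,0,0,0,0,-1,0,0,0,0,0,1] (.ed false [1,-1,0,
  0,1] .k) (.S ⟨1,0,[0,-1,1],[1,1,0,0,-1],[1,0,1,1],(⟨0,[(15,0),(11,0)]⟩,⟨0,[(0,0)]⟩),⟨0,[(15,0)]⟩,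
  (.r (-1) ⟨1,[(4,0),(1,0),(24,1),(2,1)]⟩ ⟨0,[(1,0),(3,0),(26,0)]⟩),.k,⟨false,0,⟨0,[]⟩,⟨1,[(13,0),
  (0,0),(19,0)]⟩⟩,⟨true,0,⟨0,[(32,0)]⟩,⟨0,[(31,0)]⟩⟩,⟨true,0,⟨0,[(31,0)]⟩,⟨0,[(32,0)]⟩⟩,⟨false,1,⟨1,
  [(13,0),(0,0),(19,0)]⟩,⟨0,[]⟩⟩,[.a ⟨true,1,⟨1,[(4,1),(28,0),(0,0)]⟩,⟨0,[(5,0)]⟩⟩ ⟨true,0,⟨0,[(3,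
  0),(0,0)]⟩,⟨0,[(32,0)]⟩⟩ ⟨false,1,⟨1,[(13,0),(0,0),(19,0)]⟩,⟨0,[(1,0),(3,0)]⟩⟩,.e ⟨false,1,⟨0,
  [(31,0),(2,0)]⟩,⟨0,[(1,0),(3,0),(26,0)]⟩⟩ ⟨false,1,⟨0,[(34,0)]⟩,⟨0,[(28,0)]⟩⟩,.o ⟨false,1,⟨0,[(1,
  0)]⟩,⟨0,[(6,0)]⟩⟩,.o ⟨false,1,⟨0,[(13,0)]⟩,⟨1,[(5,1),(19,0),(8,0)]⟩⟩]⟩) (.R ⟨0,false,false,false,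
  [0,1,0,0,-1],[0,1],[1,0,1,1],(⟨0,[(0,0)]⟩,⟨0,[(16,0),(9,0)]⟩),(⟨0,[(27,0)]⟩,⟨0,[(26,0)]⟩),⟨0,[(16,
  0)]⟩,(.r (-1) ⟨1,[(4,0),(1,0),(24,1),(2,1)]⟩ ⟨0,[(1,0),(3,0),(26,0)]⟩),.k,.k,.k,.k,.k,⟨true,0,⟨0,
  []⟩,⟨1,[(4,0),(1,0)]⟩⟩,⟨false,0,⟨1,[(5,1),(27,0),(0,0)]⟩,⟨0,[(13,0)]⟩⟩,⟨false,0,⟨0,[]⟩,⟨1,[(13,0),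
  (0,0),(19,0)]⟩⟩,⟨true,(-1),⟨0,[(5,0)]⟩,⟨0,[(13,0)]⟩⟩,⟨false,0,⟨0,[]⟩,⟨0,[]⟩⟩,⟨false,0,⟨0,[]⟩,⟨0,
  []⟩⟩,[.o ⟨false,1,⟨1,[(25,0),(5,1),(2,0)]⟩,⟨0,[(32,0)]⟩⟩,.e ⟨false,1,⟨0,[(31,0),(2,0)]⟩,⟨0,[(1,0),
  (3,0),(26,0)]⟩⟩ ⟨false,0,⟨1,[(3,1),(25,0),(4,0)]⟩,⟨1,[(1,0),(11,0),(14,0),(3,1)]⟩⟩,.a ⟨true,1,⟨0,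
  [(1,0)]⟩,⟨5,[(5,1),(0,3),(22,4),(4,0),(0,1)]⟩⟩ ⟨true,0,⟨0,[(3,0),(0,0)]⟩,⟨0,[(1,0),(3,0),(26,
  0)]⟩⟩ ⟨false,0,⟨1,[(3,1),(0,0),(1,0),(22,0),(4,0)]⟩,⟨0,[(1,0),(30,0)]⟩⟩,.e ⟨false,1,⟨0,[(31,0),(2,
  0)]⟩,⟨0,[(32,0)]⟩⟩ ⟨false,0,⟨1,[(3,1),(25,0),(4,0)]⟩,⟨0,[(13,0),(18,0)]⟩⟩]⟩)) (.Q [0,0,0,0,0,-1,0,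
  0,0,0,0,1] (.ed false [1,-1,0,0,1] .k) (.S ⟨1,0,[0,1,0,-1],[0,0,0,0,1],[1,2],(⟨0,[(16,0)]⟩,⟨0,
  [(15,0)]⟩),⟨0,[(0,0)]⟩,.k,(.r 0 ⟨0,[(30,0),(1,1)]⟩ ⟨1,[(4,0),(1,0),(24,1),(2,1)]⟩),⟨false,0,⟨0,
  []⟩,⟨1,[(13,0),(0,0),(19,0)]⟩⟩,⟨true,0,⟨0,[(32,0)]⟩,⟨0,[(31,0)]⟩⟩,⟨true,0,⟨0,[(31,0)]⟩,⟨0,[(32,
  0)]⟩⟩,⟨false,1,⟨1,[(13,0),(0,0),(19,0)]⟩,⟨0,[]⟩⟩,[.e ⟨false,0,⟨0,[(28,0)]⟩,⟨0,[(34,0)]⟩⟩ ⟨false,0,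
  ⟨0,[(30,0),(1,1)]⟩,⟨0,[(31,0),(2,0)]⟩⟩,.o ⟨false,0,⟨1,[(1,1),(23,0),(6,1),(0,0)]⟩,⟨1,[(4,1),(20,
  0),(4,1),(3,0)]⟩⟩,.o ⟨false,0,⟨1,[(1,1),(23,0),(7,0)]⟩,⟨0,[(13,0)]⟩⟩,.a ⟨true,(-1),⟨0,[(1,0)]⟩,⟨0,
  [(4,0),(28,0)]⟩⟩ ⟨false,0,⟨0,[(30,0),(1,0)]⟩,⟨1,[(4,0),(1,0),(27,1)]⟩⟩ ⟨true,0,⟨0,[(30,0),(1,1)]⟩,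
  ⟨0,[(3,0),(0,0)]⟩⟩]⟩) (.R ⟨0,false,false,false,[0,1,0,0,-1],[0,1],[1,0,1],(⟨0,[(0,0)]⟩,⟨0,[(16,0),
  (9,0)]⟩),(⟨0,[(27,0)]⟩,⟨0,[(26,0)]⟩),⟨0,[(16,0)]⟩,(.r (-1) ⟨1,[(4,0),(1,0),(24,1),(2,1)]⟩ ⟨0,[(30,
  0),(1,1)]⟩),.k,.k,.k,.k,.k,⟨true,0,⟨0,[(32,0)]⟩,⟨0,[(3,0),(0,0)]⟩⟩,⟨false,0,⟨0,[(1,0),(31,0)]⟩,⟨0,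
  [(13,0)]⟩⟩,⟨false,0,⟨0,[(32,0)]⟩,⟨0,[(31,0),(2,0)]⟩⟩,⟨true,(-1),⟨0,[(5,0)]⟩,⟨0,[(13,0)]⟩⟩,⟨false,
  0,⟨0,[]⟩,⟨0,[]⟩⟩,⟨false,0,⟨0,[]⟩,⟨0,[]⟩⟩,[.o ⟨false,1,⟨1,[(25,0),(5,1),(2,0)]⟩,⟨0,[(32,0)]⟩⟩,.e
  ⟨false,1,⟨1,[(13,0),(0,0),(19,0)]⟩,⟨0,[(30,0),(1,0)]⟩⟩ ⟨false,0,⟨1,[(3,1),(25,0),(4,0)]⟩,⟨0,[(13,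
  0),(16,0),(1,1)]⟩⟩,.o ⟨false,2,⟨1,[(13,1),(11,0),(7,0)]⟩,⟨0,[(1,0)]⟩⟩,.a ⟨true,1,⟨0,[(13,0)]⟩,⟨1,
  [(1,1),(27,0),(3,0)]⟩⟩ ⟨true,0,⟨0,[]⟩,⟨0,[(36,0)]⟩⟩ ⟨false,0,⟨1,[(3,1),(25,0),(4,0)]⟩,⟨0,[(13,0),
  (18,0)]⟩⟩]⟩)))))) (.Q [0,1,0,-1,-1,0,0,0,1,0,0,1] (.p true [0,0,0,0,1] [] (⟨0,[(11,0)]⟩,⟨0,[(10,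
  0)]⟩) .k 0 (⟨0,[]⟩,⟨0,[]⟩) .k .k) (.R ⟨2,true,false,false,[0,1],[0,0,0,0,1],[0,1,1],(⟨0,[]⟩,⟨0,
  []⟩),(⟨0,[(12,0)]⟩,⟨0,[(11,0)]⟩),⟨0,[]⟩,.k,.k,.k,(.r (-1) ⟨1,[(16,0),(0,0),(9,1),(2,1)]⟩ ⟨0,[(26,
  0),(1,1)]⟩),.k,.k,⟨true,0,⟨1,[(16,0),(0,0)]⟩,⟨0,[]⟩⟩,⟨false,0,⟨0,[(10,0)]⟩,⟨0,[(1,0),(24,0),(1,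
  0)]⟩⟩,⟨false,0,⟨0,[(28,0)]⟩,⟨0,[(27,0),(2,0)]⟩⟩,⟨true,(-1),⟨0,[(0,0)]⟩,⟨0,[(1,0),(25,0)]⟩⟩,⟨true,
  0,⟨0,[(32,0)]⟩,⟨0,[]⟩⟩,⟨false,0,⟨0,[(10,0)]⟩,⟨0,[(1,0)]⟩⟩,[]⟩) (.Q [0,0,0,0,0,0,0,0,-1,1,0,-1]
  (.p false [0,0,0,0,1] [1] (⟨0,[(12,0)]⟩,⟨0,[(11,0)]⟩) .k 1 (⟨0,[]⟩,⟨0,[]⟩) .k .k) (.Q [0,0,0,0,0,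
  -1,0,0,0,0,0,1] (.ed false [1,-1,0,0,1] .k) (.S ⟨1,0,[0,0,1],[1,1,0,0,-1],[0,-1,1],(⟨0,[(13,0),
  (11,0)]⟩,⟨0,[(0,0)]⟩),⟨0,[(13,0)]⟩,(.r (-1) ⟨1,[(18,0),(0,0),(9,1),(2,1)]⟩ ⟨0,[(28,0),(1,1)]⟩),.k,
  ⟨true,0,⟨0,[(30,0)]⟩,⟨0,[(29,0)]⟩⟩,⟨false,0,⟨0,[(30,0)]⟩,⟨0,[(29,0),(2,0)]⟩⟩,⟨false,1,⟨1,[(11,0),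
  (0,0),(19,0)]⟩,⟨0,[]⟩⟩,⟨true,0,⟨0,[(34,0)]⟩,⟨0,[]⟩⟩,[.a ⟨true,0,⟨0,[(1,0)]⟩,⟨0,[(12,0)]⟩⟩ ⟨false,
  1,⟨1,[(11,0),(0,0),(19,0)]⟩,⟨0,[(28,0),(1,0)]⟩⟩ ⟨true,0,⟨1,[(18,0),(0,0)]⟩,⟨0,[]⟩⟩,.o ⟨false,1,⟨0,
  [(3,0)]⟩,⟨0,[(5,0)]⟩⟩,.o ⟨false,1,⟨1,[(1,1),(21,0),(7,0)]⟩,⟨0,[(4,0)]⟩⟩,.e ⟨false,1,⟨0,[(32,0)]⟩,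
  ⟨0,[(34,0)]⟩⟩ ⟨false,1,⟨1,[(11,0),(0,0),(19,0)]⟩,⟨0,[]⟩⟩]⟩) (.I [0,0,1,1] (.R ⟨0,false,false,true,
  [0,0,0,0,1],[1,-1],[0,1],(⟨0,[(15,0)]⟩,⟨0,[(14,0)]⟩),(⟨0,[(25,0)]⟩,⟨0,[(26,0)]⟩),⟨0,[(1,0)]⟩,.k,
  .k,(.r 0 ⟨0,[(29,0),(1,1)]⟩ ⟨1,[(0,1),(11,0),(0,0),(19,0)]⟩),(.r 0 ⟨0,[(0,0),(34,0)]⟩ ⟨1,[(31,1),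
  (0,0),(0,0)]⟩),.k,.k,⟨true,0,⟨0,[(0,0)]⟩,⟨0,[(31,0)]⟩⟩,⟨false,0,⟨0,[(2,0)]⟩,⟨0,[(5,0),(26,0)]⟩⟩,
  ⟨false,1,⟨1,[(12,0),(0,0),(19,0)]⟩,⟨0,[]⟩⟩,⟨true,0,⟨0,[(2,0),(28,0)]⟩,⟨0,[(5,0),(23,0)]⟩⟩,⟨false,
  0,⟨0,[]⟩,⟨0,[]⟩⟩,⟨false,0,⟨0,[]⟩,⟨0,[]⟩⟩,[.e ⟨false,0,⟨0,[(29,0),(1,0)]⟩,⟨1,[(12,0),(0,0),(19,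
  0)]⟩⟩ ⟨false,0,⟨0,[(2,0),(26,0),(1,1)]⟩,⟨0,[(5,0),(23,0),(3,0)]⟩⟩,.o ⟨false,0,⟨0,[(31,0)]⟩,⟨1,
  [(24,0),(5,1),(2,0)]⟩⟩,.a ⟨true,0,⟨0,[(13,0)]⟩,⟨0,[(2,0)]⟩⟩ ⟨true,0,⟨0,[(35,0)]⟩,⟨0,[]⟩⟩ ⟨false,0,
  ⟨0,[(2,0),(28,0)]⟩,⟨0,[(5,0),(23,0),(3,0)]⟩⟩,.o ⟨false,0,⟨0,[(5,0)]⟩,⟨1,[(2,1),(21,0),(7,0)]⟩⟩]⟩)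
  (.S ⟨1,0,[0,-1,0,-1],[1,0,0,0,-1],[1],(⟨0,[(14,0)]⟩,⟨0,[(15,0)]⟩),⟨0,[(1,0),(8,0),(0,0)]⟩,.k,(.r
  (-1) ⟨1,[(31,1),(0,0),(0,0)]⟩ ⟨1,[(19,0),(0,0),(9,1)]⟩),⟨false,0,⟨0,[]⟩,⟨1,[(12,0),(0,0),(19,
  0)]⟩⟩,⟨true,0,⟨0,[(31,0)]⟩,⟨0,[(30,0)]⟩⟩,⟨true,0,⟨0,[(30,0)]⟩,⟨0,[(31,0)]⟩⟩,⟨false,1,⟨1,[(12,0),
  (0,0),(19,0)]⟩,⟨0,[]⟩⟩,[.o ⟨false,1,⟨0,[(4,0),(26,0)]⟩,⟨0,[(5,0),(23,0)]⟩⟩,.e ⟨false,1,⟨1,[(32,0),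
  (0,0)]⟩,⟨0,[(35,0)]⟩⟩ ⟨false,1,⟨0,[(0,0),(32,0)]⟩,⟨0,[(30,0),(4,0)]⟩⟩,.a ⟨true,0,⟨0,[(2,0)]⟩,⟨0,
  [(13,0)]⟩⟩ ⟨true,0,⟨0,[]⟩,⟨0,[(35,0)]⟩⟩ ⟨false,1,⟨0,[(31,0),(1,0)]⟩,⟨0,[(30,0)]⟩⟩,.e ⟨false,1,⟨1,
  [(32,0),(0,0)]⟩,⟨1,[(19,0),(0,0)]⟩⟩ ⟨false,1,⟨0,[(0,0),(32,0)]⟩,⟨1,[(19,0),(0,0),(9,1)]⟩⟩]⟩)))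
  (.Q [0,0,0,0,0,-1,0,0,0,0,0,1] (.ed false [1,-1,0,0,1] .k) (.Q [0,0,1,0,0,0,0,0,-1,1,0,-1] (.p
  false [0,0,0,0,1] [1] (⟨0,[(14,0)]⟩,⟨0,[(13,0)]⟩) .k 1 (⟨0,[]⟩,⟨0,[]⟩) .k .k) (.R ⟨1,false,false,
  false,[0,0,0,0,1],[1,-1],[1,1],(⟨0,[(15,0)]⟩,⟨0,[(14,0)]⟩),(⟨0,[(25,0)]⟩,⟨0,[(26,0)]⟩),⟨0,[(1,
  0)]⟩,.k,.k,(.r 0 ⟨0,[(29,0),(1,1)]⟩ ⟨1,[(0,0),(4,0),(24,1),(2,1)]⟩),(.r 0 ⟨1,[(0,0),(4,0),(24,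
  1)]⟩ ⟨1,[(31,1),(0,0),(0,0)]⟩),.k,.k,⟨false,0,⟨0,[(30,0)]⟩,⟨1,[(31,1),(0,0),(0,0)]⟩⟩,⟨true,0,⟨0,
  [(0,0)]⟩,⟨0,[(2,0)]⟩⟩,⟨true,0,⟨0,[]⟩,⟨0,[(35,0)]⟩⟩,⟨false,1,⟨1,[(4,1),(23,0),(2,1),(1,0)]⟩,⟨0,[(5,
  0),(23,0)]⟩⟩,⟨false,1,⟨0,[(30,0),(2,0)]⟩,⟨0,[(31,0)]⟩⟩,⟨false,1,⟨1,[(4,1),(23,0),(4,0)]⟩,⟨0,[(6,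
  0)]⟩⟩,[.o ⟨false,0,⟨0,[(31,0)]⟩,⟨1,[(24,0),(5,1),(2,0)]⟩⟩,.a ⟨true,0,⟨1,[(28,0),(2,1),(1,0)]⟩,⟨0,
  [(30,0)]⟩⟩ ⟨true,0,⟨0,[]⟩,⟨1,[(0,0),(4,0)]⟩⟩ ⟨false,1,⟨1,[(4,1),(23,0),(2,1),(0,0)]⟩,⟨0,[(5,0),
  (23,0)]⟩⟩,.o ⟨false,0,⟨0,[(2,0)]⟩,⟨0,[(12,0)]⟩⟩,.o ⟨false,0,⟨0,[(5,0)]⟩,⟨0,[(4,0),(24,0),(1,
  0)]⟩⟩]⟩) (.I [1,0,1,1,0,0,0,-1] (.I [1,1,-1,0,0,0,0,1] (.I [1,0,0,0,0,0,0,1] (.Q [0,-1,0,0,1,0,1,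
  1,-1,0,1,-1] (.p true [0,0,1] [0,0,0,0,1] (⟨0,[(25,0)]⟩,⟨0,[(24,0)]⟩) .k 2 (⟨0,[(18,0)]⟩,⟨0,[(17,
  0)]⟩) .k (.r (-1) ⟨5,[(0,1),(11,1),(7,3),(6,0),(8,4)]⟩ ⟨0,[(2,0),(29,0),(1,1)]⟩)) (.R ⟨1,false,
  false,false,[0,0,1],[0,0,0,0,1],[1,1,0,0,0,0,0,1],(⟨0,[(26,0)]⟩,⟨0,[(25,0)]⟩),(⟨0,[(19,0)]⟩,⟨0,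
  [(18,0)]⟩),⟨0,[(15,0)]⟩,.k,.k,.k,.k,(.r (-1) ⟨0,[(2,0),(32,0),(1,0)]⟩ ⟨0,[(3,0),(35,0)]⟩),.k,
  ⟨true,0,⟨0,[(1,0)]⟩,⟨0,[(3,0),(31,0)]⟩⟩,⟨false,0,⟨2,[(4,1),(8,0),(3,0),(2,0)]⟩,⟨0,[(8,0),(14,0),
  (9,0),(1,0)]⟩⟩,⟨false,0,⟨0,[]⟩,⟨1,[(16,0),(0,0),(19,0)]⟩⟩,⟨false,0,⟨1,[(4,0),(4,0),(12,1),(9,0),
  (4,0)]⟩,⟨0,[(0,0)]⟩⟩,⟨true,0,⟨0,[(34,0)]⟩,⟨0,[(35,0)]⟩⟩,⟨false,0,⟨5,[(3,3),(0,3),(6,1),(1,1),(3,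
  1),(14,0),(4,0)]⟩,⟨0,[(0,0),(34,0)]⟩⟩,[.o ⟨false,0,⟨0,[(10,0)]⟩,⟨0,[(8,0)]⟩⟩,.o ⟨false,0,⟨0,[(6,
  0)]⟩,⟨0,[(16,0)]⟩⟩,.o ⟨false,1,⟨1,[(23,1),(4,0),(7,0)]⟩,⟨0,[(12,0)]⟩⟩,.a ⟨true,0,⟨0,[(23,0)]⟩,⟨0,
  [(20,0)]⟩⟩ ⟨true,0,⟨0,[(2,0)]⟩,⟨0,[(3,0),(31,0)]⟩⟩ ⟨false,0,⟨2,[(4,1),(8,0),(3,0),(2,0)]⟩,⟨0,[(8,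
  0),(14,0)]⟩⟩]⟩) (.S ⟨1,0,[0,0,0,-1,0,0,0,1],[0,0,1],[1,1,0,0,0,0,0,1],(⟨0,[(26,0)]⟩,⟨0,[(25,0)]⟩),
  ⟨0,[(15,0)]⟩,.k,.k,⟨false,0,⟨0,[]⟩,⟨1,[(16,0),(0,0),(19,0)]⟩⟩,⟨true,0,⟨0,[(35,0)]⟩,⟨0,[(34,0)]⟩⟩,
  ⟨true,0,⟨0,[(34,0)]⟩,⟨0,[(35,0)]⟩⟩,⟨false,1,⟨1,[(16,0),(0,0),(19,0)]⟩,⟨0,[]⟩⟩,[.o ⟨false,1,⟨1,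
  [(21,1),(6,0),(6,1),(1,0)]⟩,⟨0,[(0,0),(6,0)]⟩⟩,.o ⟨false,1,⟨0,[(1,0),(2,0),(3,0),(14,0),(11,0)]⟩,
  ⟨0,[(11,0)]⟩⟩,.o ⟨false,1,⟨1,[(23,1),(4,0),(7,0)]⟩,⟨0,[(12,0)]⟩⟩,.a ⟨true,0,⟨0,[(23,0)]⟩,⟨0,[(20,
  0)]⟩⟩ ⟨true,0,⟨0,[(2,0)]⟩,⟨0,[(3,0),(31,0)]⟩⟩ ⟨false,1,⟨0,[(2,0),(32,0),(1,0)]⟩,⟨0,[(3,0)]⟩⟩]⟩))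
  (.S ⟨1,0,[0,0,1,0,0,0,0,-1],[1,1,-1],[0,1,1,0,0,0,0,-1],(⟨0,[(24,0),(4,0)]⟩,⟨0,[(14,0)]⟩),⟨0,[(24,
  0)]⟩,.k,.k,⟨false,0,⟨0,[(34,0)]⟩,⟨0,[(33,0),(2,0)]⟩⟩,⟨true,0,⟨0,[(34,0)]⟩,⟨0,[(33,0)]⟩⟩,⟨true,0,
  ⟨0,[(38,0)]⟩,⟨0,[]⟩⟩,⟨false,1,⟨1,[(15,0),(0,0),(19,0)]⟩,⟨0,[]⟩⟩,[.o ⟨false,0,⟨0,[(0,0),(10,0)]⟩,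
  ⟨1,[(20,1),(6,0),(8,0)]⟩⟩,.e ⟨false,0,⟨0,[(0,0)]⟩,⟨5,[(1,1),(10,1),(7,3),(6,0),(7,1),(0,2)]⟩⟩
  ⟨false,1,⟨3,[(0,1),(20,1),(0,1),(12,0),(0,2)]⟩,⟨0,[(1,0)]⟩⟩,.a ⟨true,0,⟨0,[(19,0)]⟩,⟨0,[(22,0)]⟩⟩
  ⟨false,0,⟨0,[(2,0),(31,0)]⟩,⟨0,[(1,0),(34,0)]⟩⟩ ⟨true,0,⟨0,[(2,0),(31,0)]⟩,⟨0,[(1,0)]⟩⟩,.o ⟨false,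
  0,⟨0,[(11,0)]⟩,⟨1,[(22,1),(4,0),(7,0)]⟩⟩]⟩)) (.S ⟨1,0,[0,0,1,0,0,0,0,-1],[1,1,-1],[1,1,1,1,0,0,0,
  -1],(⟨0,[(23,0),(4,0)]⟩,⟨0,[(13,0)]⟩),⟨0,[(23,0)]⟩,.k,.k,⟨false,0,⟨0,[]⟩,⟨1,[(14,0),(0,0),(19,
  0)]⟩⟩,⟨true,0,⟨0,[(33,0)]⟩,⟨0,[(32,0)]⟩⟩,⟨true,0,⟨0,[(32,0)]⟩,⟨0,[(33,0)]⟩⟩,⟨false,1,⟨1,[(14,0),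
  (0,0),(19,0)]⟩,⟨0,[]⟩⟩,[.o ⟨false,0,⟨0,[(0,0),(9,0),(20,0),(1,0)]⟩,⟨1,[(19,1),(6,0),(8,0)]⟩⟩,.a
  ⟨true,0,⟨0,[(0,0),(17,0)]⟩,⟨0,[(19,0)]⟩⟩ ⟨false,0,⟨0,[(0,0),(30,0)]⟩,⟨1,[(10,1),(8,1),(13,1),(0,
  0),(0,0)]⟩⟩ ⟨true,0,⟨0,[(0,0)]⟩,⟨0,[(10,0),(8,0)]⟩⟩,.e ⟨false,0,⟨0,[(1,0)]⟩,⟨1,[(2,1),(3,1),(3,1),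
  (8,1),(10,0),(2,1),(1,0)]⟩⟩ ⟨false,0,⟨0,[(0,0)]⟩,⟨1,[(10,1),(8,1),(14,0),(0,0)]⟩⟩,.o ⟨false,0,⟨0,
  [(10,0)]⟩,⟨1,[(21,1),(4,0),(7,0)]⟩⟩]⟩)) (.S ⟨1,0,[0,0,0,-1,0,0,0,1],[0,0,1],[0,1,0,-1,0,0,0,1],
  (⟨0,[(23,0)]⟩,⟨0,[(22,0)]⟩),⟨0,[(12,0)]⟩,.k,.k,⟨false,0,⟨0,[(32,0)]⟩,⟨0,[(31,0),(2,0)]⟩⟩,⟨true,0,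
  ⟨0,[(32,0)]⟩,⟨0,[(31,0)]⟩⟩,⟨true,0,⟨0,[(36,0)]⟩,⟨0,[]⟩⟩,⟨false,1,⟨1,[(13,0),(0,0),(19,0)]⟩,⟨0,
  []⟩⟩,[.e ⟨false,0,⟨4,[(0,3),(17,0),(2,0),(6,1),(3,0)]⟩,⟨1,[(1,1),(2,1),(14,1),(0,1),(8,0),(4,
  0)]⟩⟩ ⟨false,0,⟨0,[(0,0)]⟩,⟨1,[(8,1),(11,1),(12,0),(0,0)]⟩⟩,.o ⟨false,1,⟨1,[(0,1),(19,1),(4,0),(8,
  0)]⟩,⟨0,[(8,0)]⟩⟩,.o ⟨false,1,⟨1,[(20,1),(4,0),(7,0)]⟩,⟨0,[(9,0)]⟩⟩,.a ⟨true,0,⟨0,[(20,0)]⟩,⟨0,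
  [(17,0)]⟩⟩ ⟨false,0,⟨0,[(0,0)]⟩,⟨0,[(8,0),(11,0),(13,0)]⟩⟩ ⟨true,0,⟨0,[(0,0)]⟩,⟨0,[(8,0),(11,
  0)]⟩⟩]⟩))) (.Q [0,0,1,0,0,0,0,0,-1,1,0,-1] (.p false [0,0,0,0,1] [1] (⟨0,[(14,0)]⟩,⟨0,[(13,0)]⟩)
  .k 1 (⟨0,[]⟩,⟨0,[]⟩) .k .k) (.R ⟨0,false,false,false,[0,0,0,0,1],[1,-1],[1,1],(⟨0,[(15,0)]⟩,⟨0,
  [(14,0)]⟩),(⟨0,[(25,0)]⟩,⟨0,[(26,0)]⟩),⟨0,[(1,0)]⟩,.k,.k,(.r 0 ⟨0,[(29,0),(1,1)]⟩ ⟨1,[(0,0),(4,0),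
  (24,1),(2,1)]⟩),(.r 0 ⟨1,[(0,0),(4,0),(24,1)]⟩ ⟨1,[(31,1),(0,0),(0,0)]⟩),.k,.k,⟨false,0,⟨0,[(30,
  0)]⟩,⟨1,[(31,1),(0,0),(0,0)]⟩⟩,⟨true,0,⟨0,[(0,0)]⟩,⟨0,[(2,0)]⟩⟩,⟨true,0,⟨0,[]⟩,⟨0,[(35,0)]⟩⟩,
  ⟨false,1,⟨1,[(4,1),(23,0),(2,1),(1,0)]⟩,⟨0,[(5,0),(23,0)]⟩⟩,⟨false,0,⟨0,[]⟩,⟨0,[]⟩⟩,⟨false,0,⟨0,
  []⟩,⟨0,[]⟩⟩,[.o ⟨false,0,⟨0,[(31,0)]⟩,⟨1,[(24,0),(5,1),(2,0)]⟩⟩,.a ⟨true,0,⟨1,[(28,0),(2,1),(1,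
  0)]⟩,⟨0,[(30,0)]⟩⟩ ⟨true,0,⟨0,[]⟩,⟨1,[(0,0),(4,0)]⟩⟩ ⟨false,1,⟨1,[(4,1),(23,0),(2,1),(0,0)]⟩,⟨0,
  [(5,0),(23,0)]⟩⟩,.o ⟨false,0,⟨0,[(2,0)]⟩,⟨0,[(12,0)]⟩⟩,.o ⟨false,0,⟨0,[(5,0)]⟩,⟨0,[(4,0),(24,0),
  (1,0)]⟩⟩]⟩) (.I [0,0,-1,-1] (.Q [0,0,2,0,0,0,0,0,-1,1,0,-1] (.p false [0,0,0,0,1] [1] (⟨0,[(16,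
  0)]⟩,⟨0,[(15,0)]⟩) .k 1 (⟨0,[]⟩,⟨0,[]⟩) .k .k) (.R ⟨1,false,false,false,[1,-1,0,0,-1],[1,-1],[0,0,
  0,-1],(⟨0,[(3,0),(8,0),(0,0)]⟩,⟨0,[(17,0),(10,0)]⟩),(⟨0,[(27,0)]⟩,⟨0,[(28,0)]⟩),⟨7,[(1,1),(0,0),
  (0,7),(1,0),(6,6),(0,6),(11,9),(4,0),(0,0),(4,3)]⟩,(.r (-1) ⟨1,[(33,1),(0,0),(0,0)]⟩ ⟨2,[(0,0),(6,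
  0),(24,2)]⟩),.k,(.x (-1) ⟨2,[(0,1),(6,1),(6,2),(2,2),(10,5)]⟩ ⟨7,[(1,5),(0,10),(0,7),(1,2),(6,4),
  (0,4),(11,13),(4,2),(0,2),(4,3)]⟩),.k,(.r (-1) ⟨1,[(33,1),(0,0),(0,0)]⟩ ⟨2,[(0,0),(6,0),(24,2)]⟩),
  .k,⟨true,0,⟨2,[(0,0),(6,0)]⟩,⟨0,[]⟩⟩,⟨false,0,⟨3,[(2,1),(12,1),(14,0),(3,0)]⟩,⟨0,[(14,0)]⟩⟩,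
  ⟨false,0,⟨2,[(0,0),(6,0)]⟩,⟨1,[(34,0),(0,0)]⟩⟩,⟨false,0,⟨0,[(15,0)]⟩,⟨0,[(6,0)]⟩⟩,⟨true,0,⟨2,[(0,
  0),(6,0),(24,2)]⟩,⟨0,[(1,0)]⟩⟩,⟨false,0,⟨1,[(2,0),(4,0),(22,0),(1,1),(2,0)]⟩,⟨0,[(6,0),(26,0)]⟩⟩,
  [.o ⟨false,0,⟨0,[(33,0)]⟩,⟨1,[(26,0),(5,1),(2,0)]⟩⟩,.e ⟨false,1,⟨1,[(33,1),(0,0),(0,0)]⟩,⟨0,[(32,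
  0)]⟩⟩ ⟨false,0,⟨1,[(1,1),(0,1),(27,0),(4,0)]⟩,⟨2,[(0,0),(6,0),(6,2),(17,2)]⟩⟩,.o ⟨false,1,⟨2,[(0,
  0),(6,0),(6,2)]⟩,⟨0,[(2,0)]⟩⟩,.a ⟨true,0,⟨0,[(0,0)]⟩,⟨1,[(2,1),(27,0),(3,0)]⟩⟩ ⟨true,0,⟨0,[(1,
  0)]⟩,⟨2,[(0,0),(6,0),(24,2)]⟩⟩ ⟨false,0,⟨1,[(1,1),(0,1),(27,0),(4,0)]⟩,⟨5,[(0,3),(4,2),(1,3),(6,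
  2),(17,2)]⟩⟩]⟩) (.I [1,0,-1,0,0,0,0,-1] (.R ⟨1,false,false,false,[0,0,1],[0,0,1,0,1],[0,1,1,0,0,0,
  0,1],(⟨0,[(25,0)]⟩,⟨0,[(24,0)]⟩),(⟨0,[(18,0),(6,0)]⟩,⟨0,[(4,0),(8,0)]⟩),⟨0,[(14,0)]⟩,.k,.k,.k,.k,
  (.r (-1) ⟨1,[(34,1),(0,0),(0,0)]⟩ ⟨1,[(22,0),(0,0),(9,1)]⟩),.k,⟨true,0,⟨1,[(22,0),(0,0)]⟩,⟨0,[]⟩⟩,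
  ⟨false,0,⟨5,[(1,1),(14,3),(14,0),(3,0)]⟩,⟨0,[(15,0)]⟩⟩,⟨false,0,⟨1,[(22,0),(0,0)]⟩,⟨1,[(35,0),(0,
  0)]⟩⟩,⟨false,0,⟨0,[(16,0)]⟩,⟨0,[(7,0)]⟩⟩,⟨true,0,⟨1,[(22,0),(0,0),(9,1)]⟩,⟨0,[(2,0)]⟩⟩,⟨false,0,
  ⟨1,[(3,0),(4,0),(22,0),(1,1),(2,0)]⟩,⟨0,[(7,0),(26,0)]⟩⟩,[.o ⟨false,0,⟨1,[(3,0),(4,0),(11,1)]⟩,⟨0,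
  [(0,0),(6,0),(15,0)]⟩⟩,.e ⟨false,1,⟨7,[(8,1),(3,3),(2,1),(4,7),(6,0),(7,0),(0,3)]⟩,⟨0,[(0,0)]⟩⟩
  ⟨false,0,⟨1,[(1,1),(18,1),(2,1),(7,0),(4,0)]⟩,⟨1,[(0,0),(6,0),(7,0),(5,0),(0,0)]⟩⟩,.o ⟨false,1,⟨1,
  [(22,1),(4,0),(7,0)]⟩,⟨0,[(11,0)]⟩⟩,.a ⟨true,0,⟨0,[(22,0)]⟩,⟨0,[(19,0)]⟩⟩ ⟨true,0,⟨0,[(11,0),(8,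
  0)]⟩,⟨1,[(0,1),(21,0),(0,0)]⟩⟩ ⟨false,0,⟨1,[(1,1),(18,1),(2,1),(7,0),(4,0)]⟩,⟨0,[(0,0),(6,0),(14,
  0),(0,0)]⟩⟩]⟩) (.Q [0,0,0,0,0,0,1,1,0,0,1] (.p true [0,0,1] [] (⟨0,[(25,0)]⟩,⟨0,[(24,0)]⟩) .k 0
  (⟨0,[]⟩,⟨0,[]⟩) .k .k) (.S ⟨1,0,[0,0,0,-1,0,0,0,1],[0,0,1],[0,1,0,-1,0,0,0,1],(⟨0,[(26,0)]⟩,⟨0,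
  [(25,0)]⟩),⟨0,[(15,0)]⟩,.k,.k,⟨false,0,⟨0,[(35,0)]⟩,⟨0,[(34,0),(2,0)]⟩⟩,⟨true,0,⟨0,[(35,0)]⟩,⟨0,
  [(34,0)]⟩⟩,⟨true,0,⟨0,[(39,0)]⟩,⟨0,[]⟩⟩,⟨false,1,⟨1,[(16,0),(0,0),(19,0)]⟩,⟨0,[]⟩⟩,[.e ⟨false,0,
  ⟨0,[(3,0),(8,0),(8,0)]⟩,⟨3,[(2,1),(4,1),(3,1),(10,1),(0,3),(8,0),(4,2)]⟩⟩ ⟨false,0,⟨0,[(0,0),(2,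
  0),(8,0)]⟩,⟨1,[(11,1),(11,1),(12,0),(0,0)]⟩⟩,.o ⟨false,1,⟨1,[(0,1),(27,0),(6,1),(1,0)]⟩,⟨0,[(11,
  0)]⟩⟩,.o ⟨false,1,⟨1,[(23,1),(4,0),(7,0)]⟩,⟨0,[(12,0)]⟩⟩,.a ⟨true,0,⟨0,[(23,0)]⟩,⟨0,[(20,0)]⟩⟩
  ⟨false,0,⟨0,[(0,0),(2,0),(8,0)]⟩,⟨0,[(11,0),(11,0),(13,0)]⟩⟩ ⟨true,0,⟨0,[(0,0),(2,0),(8,0)]⟩,⟨0,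
  [(11,0),(11,0)]⟩⟩]⟩) (.S ⟨1,0,[0,1,1,0,0,0,0,-1],[1,1,-1],[0,0,1,0,0,0,0,-1],(⟨0,[(25,0),(4,0)]⟩,
  ⟨0,[(15,0)]⟩),⟨0,[(25,0)]⟩,.k,.k,⟨true,0,⟨0,[(35,0)]⟩,⟨0,[(34,0)]⟩⟩,⟨false,0,⟨0,[(35,0)]⟩,⟨0,[(34,
  0),(2,0)]⟩⟩,⟨false,1,⟨1,[(16,0),(0,0),(19,0)]⟩,⟨0,[]⟩⟩,⟨true,0,⟨0,[(39,0)]⟩,⟨0,[]⟩⟩,[.o ⟨false,0,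
  ⟨0,[(22,0)]⟩,⟨0,[(1,0),(0,0),(5,0),(14,0)]⟩⟩,.o ⟨false,0,⟨0,[(0,0)]⟩,⟨1,[(21,1),(6,0),(8,0)]⟩⟩,.a
  ⟨true,0,⟨0,[(20,0)]⟩,⟨0,[(23,0)]⟩⟩ ⟨true,0,⟨0,[(0,0),(22,0)]⟩,⟨0,[(1,0),(1,0),(29,0)]⟩⟩ ⟨false,0,
  ⟨0,[(0,0),(22,0)]⟩,⟨1,[(1,0),(0,0),(5,0),(11,0),(0,0),(15,0)]⟩⟩,.o ⟨false,0,⟨0,[(12,0)]⟩,⟨1,[(23,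
  1),(4,0),(7,0)]⟩⟩]⟩)))) (.R ⟨2,false,false,true,[0,1],[0,1,0,0,-1],[1,0,1,1],(⟨0,[]⟩,⟨0,[]⟩),(⟨0,
  [(2,0)]⟩,⟨0,[(16,0),(9,0)]⟩),⟨0,[]⟩,.k,(.r (-1) ⟨1,[(0,1),(12,0),(0,0),(19,0)]⟩ ⟨0,[(30,0),(1,
  1)]⟩),.k,.k,(.r 0 ⟨0,[(30,0),(1,1)]⟩ ⟨1,[(0,1),(12,0),(0,0),(19,0)]⟩),.k,⟨true,0,⟨0,[]⟩,⟨1,[(20,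
  0),(0,0)]⟩⟩,⟨false,1,⟨0,[(5,0),(24,0),(1,0)]⟩,⟨0,[(14,0)]⟩⟩,⟨true,0,⟨0,[]⟩,⟨0,[(36,0)]⟩⟩,⟨false,1,
  ⟨0,[(5,0)]⟩,⟨0,[(14,0)]⟩⟩,⟨false,1,⟨0,[(31,0),(2,0)]⟩,⟨0,[(32,0)]⟩⟩,⟨false,1,⟨0,[(4,0)]⟩,⟨0,[(14,
  0),(17,0)]⟩⟩,[.a ⟨true,1,⟨1,[(4,0),(8,0),(17,0)]⟩,⟨1,[(1,0),(4,0),(22,1),(2,1)]⟩⟩ ⟨true,0,⟨0,[(0,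
  0)]⟩,⟨0,[(32,0)]⟩⟩ ⟨false,1,⟨1,[(4,0),(8,0),(17,0)]⟩,⟨3,[(1,1),(12,1),(14,0),(2,3),(0,0)]⟩⟩,.e
  ⟨false,1,⟨0,[(31,0),(2,0)]⟩,⟨0,[(30,0),(1,1)]⟩⟩ ⟨false,1,⟨0,[(4,0)]⟩,⟨7,[(1,1),(12,5),(13,3),(0,
  0),(2,7),(0,0)]⟩⟩,.o ⟨false,1,⟨1,[(25,0),(7,0)]⟩,⟨1,[(20,0),(0,0)]⟩⟩,.fo]⟩)))))))) (.R ⟨2,false,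
  false,true,[0,1],[1,0,0,0,-1],[0,0,1],(⟨0,[]⟩,⟨0,[]⟩),(⟨0,[(8,0)]⟩,⟨0,[(9,0)]⟩),⟨0,[]⟩,.k,.k,.k,
  (.r 0 ⟨1,[(13,0),(0,0),(9,1)]⟩ ⟨1,[(25,1),(0,0),(0,0)]⟩),.k,.k,⟨true,0,⟨1,[(13,0),(0,0)]⟩,⟨0,[]⟩⟩,
  ⟨false,0,⟨0,[(0,0),(28,0)]⟩,⟨1,[(7,1),(10,0),(7,0)]⟩⟩,⟨true,0,⟨0,[(25,0)]⟩,⟨0,[(24,0)]⟩⟩,⟨false,0,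
  ⟨0,[(0,0),(24,0)]⟩,⟨1,[(7,1),(10,0),(5,1),(2,0)]⟩⟩,⟨false,1,⟨1,[(6,0),(0,0),(19,0)]⟩,⟨0,[]⟩⟩,
  ⟨false,0,⟨0,[(0,0)]⟩,⟨1,[(6,0),(0,2),(10,0)]⟩⟩,[.a ⟨true,0,⟨0,[(0,0),(28,0)]⟩,⟨0,[(7,0)]⟩⟩ ⟨true,
  0,⟨1,[(13,0),(0,0)]⟩,⟨0,[]⟩⟩ ⟨false,0,⟨0,[(0,0),(28,0)]⟩,⟨1,[(7,1),(10,0),(7,0)]⟩⟩,.e ⟨false,1,⟨1,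
  [(6,0),(0,0),(19,0)]⟩,⟨0,[(23,0),(1,0)]⟩⟩ ⟨false,0,⟨0,[(0,0)]⟩,⟨3,[(6,0),(0,4),(10,1),(2,1),(4,
  0)]⟩⟩,.o ⟨false,1,⟨1,[(18,0),(7,0)]⟩,⟨1,[(13,0),(0,0)]⟩⟩,.fo]⟩)) (.R ⟨2,true,false,false,[0,1],[0,
  0,1],[0,0,1],(⟨0,[]⟩,⟨0,[]⟩),(⟨0,[(15,0)]⟩,⟨0,[(14,0)]⟩),⟨0,[]⟩,.k,.k,.k,.k,.k,.k,⟨false,1,⟨1,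
  [(11,1),(0,1),(12,0),(0,0)]⟩,⟨0,[(0,0),(0,0),(20,0)]⟩⟩,⟨true,0,⟨0,[(12,0)]⟩,⟨0,[(1,0)]⟩⟩,⟨true,0,
  ⟨0,[(24,0)]⟩,⟨0,[(23,0)]⟩⟩,⟨false,0,⟨0,[(0,0)]⟩,⟨0,[(11,0),(11,0),(2,0)]⟩⟩,⟨false,1,⟨1,[(5,0),(0,
  0),(19,0)]⟩,⟨0,[]⟩⟩,⟨true,0,⟨0,[(0,0),(22,0)]⟩,⟨0,[(11,0)]⟩⟩,[]⟩))

theorem ok1 : chk K t1 r0 = true := by decide +kernel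

noncomputable def t2 : Tre :=
  .Q [0,0,0,0,0,0,1,0,0,0,1] (.p true [0,0,1] [] (⟨0,[(13,0)]⟩,⟨0,[(12,0)]⟩) .k 0 (⟨0,[]⟩,⟨0,[]⟩)
  .k .k) t0 t1

theorem ok2 : chk K t2 base = true :=
  chk_Q (e' := [0,0,0,0,0,0,-1,0,0,0,-1]) (by decide +kernel) (by decide +kernel) ok0 ok1

theorem closed {p a b c J l q : ℤ} {D dl : ℝ} {Cl : ℤ → ℤ → ℤ → ℤ → ℝ → Prop}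
    (W : World p a b c J 1 l q D dl Cl) (g : G0 p a b c J D)
    {N X R : ℤ} {I : ℝ} (hk : KCl p l Cl N X R I) (kz : KF a b D (X + (1 : ℤ) * I) (X + (1 : ℤ) * I + R) I)
    {Ne Xe : ℤ} {Ie : ℝ} (he : EFac p 1 D Cl (a) Ne Xe Ie)
    (hkf : ∀ kf ∈ (kfY 1 [0,0,0,0,0,0,1,0,0,0,1]), KOk p l Cl 1
      (xv [1, a, b, c, p, J, X, R, Xe] [D, I, Ie]) N kf)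
    (h0 : 1 ≤ -(c : ℝ))
    (h1 : 1 ≤ (a : ℝ) - (b : ℝ) + (c : ℝ))
    (h2 : 0 < 1 - (p : ℝ) + 2 * D)
    (h3 : 1 ≤ 2 * (a : ℝ) - (b : ℝ))
    (h4 : 1 ≤ 2 - (J : ℝ))
    (h5 : 0 < -(b : ℝ) - (X : ℝ) + D - I)
    (h6 : 0 < -(J : ℝ) + I)
    (h7 : 0 < -(J : ℝ) + D - I)
    (h8 : 0 < -2 * (X : ℝ) + D - 2 * I) : False := by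
  have g1 := g.a2
  have g2 := g.b2
  have g3 := g.pa
  have g4 := g.pb
  have g5 := g.J1
  have g6 := g.JD
  have g7 := g.D2
  have g8 := g.ca
  have g9 := g.ca'
  have k1 := kz.I0
  have k2 := kz.ID
  have k3 := kz.z1
  have k4 := kz.z2
  have k5 := kz.s1
  have k6 := kz.s2
  have e1 := he.I0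
  have e2 := he.ID
  have e3 := he.x0
  have e4 := he.xp
  push_cast at *
  refine (val_E W.toBase hk he (row := [0,1]) (by simp) (by simp) (kfY 1 [0,0,0,0,0,0,1,0,0,0,1])).sound W rfl (Nk := N)
    (fun kf _ _ => ⟨_, rfl⟩) hkf ?_ ok2
  · simp only [base, List.forall_mem_cons, List.not_mem_nil, false_imp_iff, implies_true,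
      and_true, hld, xv, evg_cons, evg_nil, List.map_cons, List.map_nil, List.cons_append,
      List.nil_append, if_true, if_false, Bool.false_eq_true]
    push_cast
    refine ⟨?_, ?_, ?_, ?_, ?_, ?_, ?_, ?_, ?_, ?_, ?_, ?_, ?_, ?_, ?_, ?_, ?_, ?_, ?_, ?_, ?_, ?_, ?_, ?_, ?_, ?_, ?_⟩ <;> linarith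

end Helper25.S1T.Ymp_1cL2
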