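import Pool.Agent.Helper25.KG.S1b
import Pool.Agent.Helper11.CT.Cut

set_option autoImplicit false
set_option linter.all false

namespace Helper25.S1T.Ymp_1cP1

open Helper25.KG Helper25.KW Helper55.KE Helper11.CT

noncomputable def K : Cls :=
  cE 1 [0,1] (kfY 1 [0,0,0,0,0,0,1,0,0,0,1])

noncomputable def base : List Con :=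
  [(false,[0,0,0,0,0,0,-2,0,0,1,-2]),
  (false,[0,0,0,0,0,-1,0,0,0,1,-1]),
  (false,[0,0,0,0,0,-1,0,0,0,0,1]),
  (false,[0,0,0,0,1,0,0,0,-1,0,0,-1]),
  (false,[0,0,0,0,0,0,0,0,1,0,0,1]),
  (false,[0,0,0,0,0,0,0,0,0,1,0,-1]),
  (false,[0,0,0,0,0,0,0,0,0,0,0,1]),
  (false,[0,0,-1,0,0,0,-1,0,0,1,-1]),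
  (false,[0,1,0,0,0,0,1,1,0,0,1]),
  (false,[0,1,0,0,0,0,-1,-1,0,0,-1]),
  (false,[0,0,1,0,0,0,1,0,0,0,1]),
  (false,[0,0,1,0,0,0,-1,0,0,0,-1]),
  (false,[0,0,0,0,0,0,0,0,0,1,-1]),
  (false,[0,0,0,0,0,0,0,0,0,0,1]),
  (true,[2,0,0,0,0,-1]),
  (false,[0,0,0,0,1,0,0,0,0,-2]),
  (false,[0,0,0,0,0,-1,0,0,0,1]),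
  (true,[0,0,0,0,0,1]),
  (true,[0,2,-1]),
  (false,[1,0,0,0,1,0,0,0,0,-3]),
  (true,[0,1,-1,1]),
  (true,[0,1,0,1]),
  (true,[0,0,0,-1]),
  (true,[0,0,-2,0,1]),
  (true,[0,-2,0,0,1]),
  (true,[-1,0,1]),
  (true,[-1,1])]

noncomputable def l0 : List Con := (true, [0,0,3,2,-1]) :: base

noncomputable def r0 : List Con := (true, [1,0,-3,-2,1]) :: base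

noncomputable def l1 : List Con := (true, [1,1,0,0,0,0,0,1]) :: r0

noncomputable def r1 : List Con := (true, [0,-1,0,0,0,0,0,-1]) :: r0

noncomputable def l2 : List Con := (false, [0,0,0,-2,-1,0,0,0,0,1]) :: l1

noncomputable def r2 : List Con := (false, [0,0,0,2,1,0,0,0,0,-1]) :: l1

noncomputable def l3 : List Con := (true, [1,0,-1,0,0,0,0,1]) :: r2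

noncomputable def r3 : List Con := (true, [0,0,1,0,0,0,0,-1]) :: r2

noncomputable def l4 : List Con := (false, [0,0,0,0,0,0,-1,0,0,0,-1]) :: r3

noncomputable def r4 : List Con := (false, [0,0,0,0,0,0,1,0,0,0,1]) :: r3

noncomputable def l5 : List Con := (true, [1,0,1,1,0,0,0,-1]) :: l4

noncomputable def r5 : List Con := (true, [0,0,-1,-1,0,0,0,1]) :: l4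

noncomputable def l6 : List Con := (true, [1,1,-1,0,0,0,0,1]) :: l5

noncomputable def r6 : List Con := (true, [0,-1,1,0,0,0,0,-1]) :: l5

noncomputable def l7 : List Con := (true, [0,0,0,0,0,0,0,-1]) :: l6

noncomputable def r7 : List Con := (true, [1,0,0,0,0,0,0,1]) :: l6

noncomputable def l8 : List Con := (true, [1,0,-1,-1,0,0,0,1]) :: r7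

noncomputable def r8 : List Con := (true, [0,0,1,1,0,0,0,-1]) :: r7

noncomputable def l9 : List Con := (true, [1,0,0,0,0,0,0,-1]) :: r8

noncomputable def r9 : List Con := (true, [0,0,0,0,0,0,0,1]) :: r8

noncomputable def l10 : List Con := (true, [1,0,1,2]) :: r9

noncomputable def r10 : List Con := (true, [0,0,-1,-2]) :: r9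

noncomputable def l11 : List Con := (false, [0,0,0,1,0,0,-1,-1,0,0,-1]) :: l10

noncomputable def r11 : List Con := (false, [0,0,0,-1,0,0,1,1,0,0,1]) :: l10

noncomputable def t0 : Tre :=
  (.I [0,0,-2,-2,1,0,0,1] (.Q [0,0,0,0,0,0,1,1,0,-1,1] (.p true [0,0,1] [1] (⟨0,[(15,0)]⟩,⟨0,[(14,
  0)]⟩) .k 1 (⟨0,[]⟩,⟨0,[]⟩) .k .k) (.S ⟨1,0,[0,1,1,0,0,0,0,-1],[1,1,-1],[0,0,1,0,0,0,0,-1],(⟨0,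
  [(15,0),(4,0)]⟩,⟨0,[(5,0)]⟩),⟨0,[(15,0)]⟩,.k,.k,⟨true,0,⟨0,[(25,0)]⟩,⟨0,[(24,0)]⟩⟩,⟨false,0,⟨0,
  [(25,0)]⟩,⟨0,[(24,0),(2,0)]⟩⟩,⟨false,1,⟨1,[(6,0),(0,0),(19,0)]⟩,⟨0,[]⟩⟩,⟨true,0,⟨0,[(29,0)]⟩,⟨0,
  []⟩⟩,[.o ⟨false,0,⟨0,[(12,0)]⟩,⟨4,[(0,1),(10,2),(10,0),(4,3)]⟩⟩,.o ⟨false,1,⟨1,[(6,0),(0,0),(4,1),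
  (14,0)]⟩,⟨0,[(0,0)]⟩⟩,.a ⟨true,0,⟨0,[(10,0)]⟩,⟨0,[(13,0)]⟩⟩ ⟨false,1,⟨0,[(12,0),(0,0),(13,0)]⟩,⟨0,
  [(0,0),(9,0)]⟩⟩ ⟨true,0,⟨0,[(12,0),(0,0)]⟩,⟨0,[(0,0),(9,0)]⟩⟩,.o ⟨false,0,⟨2,[(2,0),(7,2),(11,0),
  (2,1)]⟩,⟨1,[(13,1),(4,0),(7,0)]⟩⟩]⟩) (.I [1,1,2,2,-1,0,0,1] (.Q [0,1,0,2,0,0,0,0,0,-1] (.pp true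
  [-1,1]) (.Q [0,0,2,0,-1,0,0,0,0,1] (.pp false [-1,1]) (.S ⟨1,0,[0,0,-1,-2],[1,-1],[1,1,-1,-1],(⟨0,
  [(22,0)]⟩,⟨0,[(23,0)]⟩),⟨0,[(7,0),(0,0)]⟩,.k,(.r (-1) ⟨0,[(28,1),(0,0)]⟩ ⟨2,[(5,1),(3,0),(0,0),
  (16,1),(2,0)]⟩),⟨false,0,⟨0,[]⟩,⟨1,[(9,0),(0,0),(19,0)]⟩⟩,⟨true,0,⟨0,[(28,0)]⟩,⟨0,[(27,0)]⟩⟩,
  ⟨true,0,⟨0,[(27,0)]⟩,⟨0,[(28,0)]⟩⟩,⟨false,1,⟨1,[(9,0),(0,0),(19,0)]⟩,⟨0,[]⟩⟩,[.o ⟨false,0,⟨0,[(28,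
  1)]⟩,⟨3,[(1,1),(19,0),(5,3),(2,2)]⟩⟩,.o ⟨false,1,⟨5,[(4,1),(10,1),(0,2),(0,0),(10,7),(1,3)]⟩,⟨0,
  [(1,0)]⟩⟩,.o ⟨false,0,⟨1,[(16,0),(0,0)]⟩,⟨1,[(21,0),(7,0)]⟩⟩,.a ⟨true,(-1),⟨0,[(0,0)]⟩,⟨0,[(29,
  0)]⟩⟩ ⟨false,1,⟨0,[(28,0),(0,0)]⟩,⟨3,[(5,1),(10,0),(0,0),(12,1)]⟩⟩ ⟨true,1,⟨0,[(28,1),(0,0)]⟩,⟨0,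
  [(0,0),(0,0)]⟩⟩]⟩) (.I [1,0,1,1,0,0,0,-1] (.Q [0,-1,0,0,0,0,-1,-1,0,1,-1] (.p false [0,0,1] [1]
  (⟨0,[(20,0)]⟩,⟨0,[(19,0)]⟩) .k 1 (⟨0,[]⟩,⟨0,[]⟩) .k .k) (.R ⟨1,false,false,true,[1,-1],[0,0,1],[0,
  1,-1,-2],(⟨0,[(24,0)]⟩,⟨0,[(25,0)]⟩),(⟨0,[(21,0)]⟩,⟨0,[(20,0)]⟩),⟨0,[(9,0),(0,0)]⟩,.k,.k,(.r (-1)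
  ⟨0,[(30,1),(0,0)]⟩ ⟨2,[(7,1),(3,0),(0,0),(16,1),(2,0)]⟩),.k,(.r (-1) ⟨0,[(0,0),(1,0),(15,0),(9,0),
  (1,2)]⟩ ⟨1,[(4,1),(6,0),(0,0),(19,0)]⟩),.k,⟨false,1,⟨0,[(0,0),(1,0),(15,0),(9,0),(1,2)]⟩,⟨1,[(4,
  1),(26,0),(0,0)]⟩⟩,⟨true,1,⟨0,[(2,0),(15,0)]⟩,⟨0,[(0,0),(3,0),(25,1)]⟩⟩,⟨false,0,⟨0,[(30,0)]⟩,⟨0,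
  [(29,0),(2,0)]⟩⟩,⟨false,1,⟨3,[(3,1),(12,3),(6,0),(8,2)]⟩,⟨0,[(0,0),(29,0)]⟩⟩,⟨true,0,⟨0,[(34,0)]⟩,
  ⟨0,[]⟩⟩,⟨false,1,⟨0,[(3,0),(12,0),(15,0)]⟩,⟨0,[(0,0),(29,1)]⟩⟩,[.a ⟨true,0,⟨0,[(16,0)]⟩,⟨0,[(0,
  0)]⟩⟩ ⟨true,0,⟨0,[(28,0),(1,2)]⟩,⟨3,[(7,2),(20,0),(0,0),(2,2)]⟩⟩ ⟨false,1,⟨0,[(2,0),(13,0)]⟩,⟨1,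
  [(0,1),(17,0),(0,0)]⟩⟩,.o ⟨false,1,⟨1,[(16,1),(6,0),(8,0)]⟩,⟨0,[(0,0),(2,0),(26,1)]⟩⟩,.o ⟨false,0,
  ⟨1,[(18,0),(0,0)]⟩,⟨1,[(23,0),(7,0)]⟩⟩,.o ⟨false,0,⟨0,[(18,0),(0,0)]⟩,⟨0,[(2,0)]⟩⟩]⟩) (.Q [0,0,0,
  0,0,0,-1,-1,0,0,-1] (.p false [0,0,1] [] (⟨0,[(21,0)]⟩,⟨0,[(20,0)]⟩) .k 0 (⟨0,[]⟩,⟨0,[]⟩) .k .k)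
  (.S ⟨1,0,[0,0,1,0,0,0,0,-1],[1,1,-1],[1,1,1,1,0,0,0,-1],(⟨0,[(21,0),(4,0)]⟩,⟨0,[(11,0)]⟩),⟨0,[(21,
  0)]⟩,.k,.k,⟨false,0,⟨0,[]⟩,⟨1,[(12,0),(0,0),(19,0)]⟩⟩,⟨true,0,⟨0,[(31,0)]⟩,⟨0,[(30,0)]⟩⟩,⟨true,0,
  ⟨0,[(30,0)]⟩,⟨0,[(31,0)]⟩⟩,⟨false,1,⟨1,[(12,0),(0,0),(19,0)]⟩,⟨0,[]⟩⟩,[.o ⟨false,0,⟨0,[(0,0)]⟩,⟨1,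
  [(17,1),(6,0),(8,0)]⟩⟩,.o ⟨false,1,⟨0,[(18,0),(14,0)]⟩,⟨0,[(1,0)]⟩⟩,.a ⟨true,0,⟨0,[(16,0)]⟩,⟨0,
  [(19,0)]⟩⟩ ⟨false,0,⟨0,[(2,0)]⟩,⟨0,[(1,0),(14,0),(14,0),(1,0)]⟩⟩ ⟨true,0,⟨0,[(0,0),(18,0)]⟩,⟨0,
  [(1,0),(14,0)]⟩⟩,.o ⟨false,0,⟨2,[(8,0),(7,2),(11,0),(2,1)]⟩,⟨1,[(19,1),(4,0),(7,0)]⟩⟩]⟩) (.I [0,
  -1,1,1,0,0,0,1] (.S ⟨1,0,[0,1,1,0,0,0,0,1],[0,1,1],[1,0,1,1,0,0,0,1],(⟨0,[(23,0),(3,0)]⟩,⟨0,[(11,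
  0)]⟩),⟨0,[(23,0)]⟩,.k,.k,⟨true,0,⟨0,[]⟩,⟨0,[(36,0)]⟩⟩,⟨false,0,⟨0,[(32,0)]⟩,⟨0,[(31,0),(2,0)]⟩⟩,
  ⟨false,1,⟨0,[(31,0),(2,0)]⟩,⟨0,[(32,0)]⟩⟩,⟨true,0,⟨0,[(36,0)]⟩,⟨0,[]⟩⟩,[.o ⟨false,0,⟨0,[(2,0)]⟩,
  ⟨0,[(19,0),(14,0)]⟩⟩,.a ⟨true,0,⟨0,[(1,0)]⟩,⟨0,[(7,0)]⟩⟩ ⟨true,0,⟨0,[(0,0)]⟩,⟨0,[(3,0),(26,0),(1,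
  2)]⟩⟩ ⟨false,0,⟨1,[(0,0),(1,0),(14,0),(14,0)]⟩,⟨0,[(4,0),(2,0),(12,0)]⟩⟩,.o ⟨false,1,⟨0,[(4,0),
  (15,0)]⟩,⟨0,[(21,0)]⟩⟩,.o ⟨false,1,⟨1,[(20,1),(4,0),(7,0)]⟩,⟨2,[(9,0),(7,2),(11,0),(2,1)]⟩⟩]⟩)
  (.K ⟨0,[1,-1,-1],(-1),0,(⟨0,[(11,0)]⟩,⟨0,[(23,0),(3,0)]⟩),.k,(.r (-1) ⟨2,[(0,3),(7,0),(25,1)]⟩ ⟨1,
  [(6,1),(6,0),(0,0),(19,0)]⟩),.k,(.r (-1) ⟨3,[(0,5),(2,1),(9,0),(0,0),(19,2)]⟩ ⟨3,[(1,5),(4,1),(3,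
  2),(18,0),(4,0)]⟩),.k,[⟨0,[(0,1),(0,1),(2,0),(4,0),(24,0)]⟩,⟨0,[(9,0),(7,0),(14,1)]⟩,⟨1,[(1,0),(0,
  0),(2,0)]⟩,⟨0,[(7,0),(24,0),(3,0)]⟩]⟩)))) (.R ⟨1,false,false,false,[0,0,1],[0,1],[0,0,0,-1,0,0,0,
  1],(⟨0,[(20,0)]⟩,⟨0,[(19,0)]⟩),(⟨0,[(24,0)]⟩,⟨0,[(23,0)]⟩),⟨0,[(9,0)]⟩,.k,.k,.k,.k,(.r (-1) ⟨0,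
  [(5,0)]⟩ ⟨0,[(1,0),(2,0),(1,0),(10,0)]⟩),.k,⟨true,0,⟨0,[(0,0),(28,0)]⟩,⟨0,[(1,0),(2,0),(1,0),(10,
  0)]⟩⟩,⟨false,1,⟨1,[(1,0),(5,0),(22,0)]⟩,⟨0,[(17,0)]⟩⟩,⟨true,0,⟨0,[(29,0)]⟩,⟨0,[(28,0)]⟩⟩,⟨false,1,
  ⟨1,[(2,0),(1,0),(11,0),(14,1)]⟩,⟨0,[(0,0),(16,0)]⟩⟩,⟨false,1,⟨1,[(10,0),(0,0),(19,0)]⟩,⟨0,[]⟩⟩,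
  ⟨false,1,⟨0,[(2,0),(1,0),(26,0)]⟩,⟨0,[(0,0),(16,0),(11,0)]⟩⟩,[.o ⟨false,1,⟨1,[(22,0),(5,1),(2,
  0)]⟩,⟨0,[(29,0)]⟩⟩,.o ⟨false,1,⟨3,[(2,1),(19,0),(8,2)]⟩,⟨0,[(29,0),(3,0)]⟩⟩,.o ⟨false,1,⟨1,[(17,
  1),(4,0),(7,0)]⟩,⟨2,[(6,0),(7,2),(11,0),(2,1)]⟩⟩,.a ⟨true,0,⟨0,[(17,0)]⟩,⟨0,[(14,0)]⟩⟩ ⟨true,0,⟨0,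
  [(0,0)]⟩,⟨1,[(2,0),(1,0),(11,0),(0,1)]⟩⟩ ⟨false,1,⟨3,[(1,0),(0,1),(4,0),(6,1),(16,2)]⟩,⟨0,[(17,0),
  (11,0)]⟩⟩]⟩))) (.R ⟨2,true,false,false,[0,1],[1,-1],[1,0,1,1],(⟨0,[]⟩,⟨0,[]⟩),(⟨0,[(21,0)]⟩,⟨0,
  [(22,0)]⟩),⟨0,[]⟩,.k,.k,.k,(.r 0 ⟨2,[(4,1),(3,0),(0,0),(16,1),(2,0)]⟩ ⟨0,[(27,1),(0,0)]⟩),.k,.k,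
  ⟨false,0,⟨1,[(4,0),(20,0),(0,0),(2,0)]⟩,⟨0,[(27,1),(0,0)]⟩⟩,⟨true,(-1),⟨0,[(0,0),(3,0),(20,0),(1,
  0)]⟩,⟨1,[(20,0),(7,0)]⟩⟩,⟨true,0,⟨0,[]⟩,⟨0,[(31,0)]⟩⟩,⟨false,0,⟨0,[(0,0)]⟩,⟨5,[(4,0),(19,1),(0,2),
  (0,6),(2,4)]⟩⟩,⟨false,1,⟨0,[(26,0),(2,0)]⟩,⟨0,[(27,0)]⟩⟩,⟨true,0,⟨1,[(0,0),(1,0),(10,0)]⟩,⟨2,[(4,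
  0),(19,0),(0,2),(1,1)]⟩⟩,[]⟩)) (.Q [0,0,-1,0,1,0,1,0,0,-1,1] (.p true [0,0,1] [1] (⟨0,[(17,0)]⟩,
  ⟨0,[(16,0)]⟩) .k 1 (⟨0,[]⟩,⟨0,[]⟩) .k .k) (.S ⟨1,0,[0,1,1,0,0,0,0,1],[0,1,1],[0,0,1,0,0,0,0,1],
  (⟨0,[(18,0),(3,0)]⟩,⟨0,[(6,0)]⟩),⟨0,[(18,0)]⟩,.k,.k,⟨true,0,⟨0,[(27,0)]⟩,⟨0,[(26,0)]⟩⟩,⟨false,0,
  ⟨0,[(27,0)]⟩,⟨0,[(26,0),(2,0)]⟩⟩,⟨false,1,⟨1,[(8,0),(0,0),(19,0)]⟩,⟨0,[]⟩⟩,⟨true,0,⟨0,[(31,0)]⟩,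
  ⟨0,[]⟩⟩,[.a ⟨true,0,⟨0,[(13,0)]⟩,⟨0,[(1,0),(2,0),(7,0)]⟩⟩ ⟨true,0,⟨0,[(3,0),(0,0)]⟩,⟨0,[(1,0),(2,
  0),(20,0),(1,0)]⟩⟩ ⟨false,0,⟨2,[(4,0),(7,2),(0,2),(10,0),(2,1)]⟩,⟨6,[(0,1),(0,4),(0,1),(1,2),(20,
  3),(3,2)]⟩⟩,.o ⟨false,1,⟨1,[(13,1),(6,0),(8,0)]⟩,⟨2,[(1,2),(2,3),(7,2),(11,0),(0,2),(1,4)]⟩⟩,.o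
  ⟨false,1,⟨0,[(0,0)]⟩,⟨0,[(16,0)]⟩⟩,.o ⟨false,1,⟨3,[(0,1),(7,0),(0,0),(5,1),(4,0)]⟩,⟨2,[(4,0),(7,
  2),(11,0),(2,1)]⟩⟩]⟩) (.R ⟨1,false,false,true,[1,0,-1],[1,-1],[1,1,0,0,0,0,0,-1],(⟨0,[(17,0)]⟩,⟨0,
  [(18,0)]⟩),(⟨0,[(21,0)]⟩,⟨0,[(22,0)]⟩),⟨0,[(6,0)]⟩,.k,.k,.k,.k,.k,.k,⟨false,0,⟨0,[(1,0),(2,0),(20,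
  0)]⟩,⟨7,[(3,3),(1,1),(2,0),(0,0),(3,3),(6,0),(8,1)]⟩⟩,⟨true,0,⟨0,[(15,0)]⟩,⟨61,[(0,21),(0,1),(1,
  1),(1,16),(6,5),(11,14),(0,7),(3,2)]⟩⟩,⟨false,0,⟨0,[]⟩,⟨1,[(8,0),(0,0),(19,0)]⟩⟩,⟨true,0,⟨0,[(13,
  0),(13,0)]⟩,⟨8,[(0,1),(0,6),(0,1),(1,7),(7,4),(11,2),(0,6)]⟩⟩,⟨true,0,⟨0,[(26,0)]⟩,⟨0,[(27,0)]⟩⟩,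
  ⟨true,0,⟨0,[(13,0)]⟩,⟨9,[(0,4),(0,4),(0,3),(1,2),(9,0),(9,2),(0,3)]⟩⟩,[.o ⟨false,0,⟨0,[(27,0),(3,
  0)]⟩,⟨5,[(4,0),(19,1),(0,2),(0,0),(2,4)]⟩⟩,.o ⟨false,0,⟨0,[(27,0)]⟩,⟨1,[(20,0),(5,1),(2,0)]⟩⟩,.o
  ⟨false,0,⟨61,[(0,21),(0,1),(1,1),(1,16),(6,5),(11,14),(0,7),(3,2)]⟩,⟨1,[(15,1),(4,0),(7,0)]⟩⟩,.a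
  ⟨true,(-1),⟨0,[(0,0)]⟩,⟨0,[(15,0),(12,0)]⟩⟩ ⟨true,0,⟨0,[(1,0),(2,0),(20,1),(1,1)]⟩,⟨0,[(3,0),(0,
  0)]⟩⟩ ⟨false,1,⟨15,[(1,3),(1,3),(4,0),(0,0),(5,15),(7,1),(4,6)]⟩,⟨2,[(0,1),(3,0),(7,0),(11,0),(0,
  0),(3,1)]⟩⟩]⟩)))) (.R ⟨1,false,false,false,[0,0,1],[0,1],[0,0,0,-1,0,0,0,1],(⟨0,[(15,0)]⟩,⟨0,[(14,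
  0)]⟩),(⟨0,[(19,0)]⟩,⟨0,[(18,0)]⟩),⟨0,[(4,0)]⟩,.k,.k,.k,.k,(.x 0 ⟨2,[(1,0),(10,2),(1,2),(4,5),(1,
  0),(2,1)]⟩ ⟨1,[(3,0),(0,2),(4,1),(11,0),(3,0)]⟩),.k,⟨true,1,⟨3,[(2,0),(6,1),(0,3),(10,0),(2,7),(0,
  0),(0,1)]⟩,⟨0,[(0,0)]⟩⟩,⟨false,1,⟨3,[(2,0),(6,1),(11,0),(3,2)]⟩,⟨0,[(12,0)]⟩⟩,⟨true,0,⟨0,[(24,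
  0)]⟩,⟨0,[(23,0)]⟩⟩,⟨true,0,⟨7,[(0,5),(8,5),(1,1),(9,1),(2,3),(0,2),(0,0)]⟩,⟨0,[(10,0),(13,0)]⟩⟩,
  ⟨false,1,⟨1,[(5,0),(0,0),(19,0)]⟩,⟨0,[]⟩⟩,⟨true,0,⟨3,[(0,3),(1,0),(6,1),(11,0),(3,2)]⟩,⟨0,[(10,0),
  (13,1)]⟩⟩,[.o ⟨false,1,⟨1,[(17,0),(5,1),(2,0)]⟩,⟨0,[(24,0)]⟩⟩,.o ⟨false,1,⟨5,[(1,0),(19,1),(0,2),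
  (0,0),(2,4)]⟩,⟨0,[(24,0),(3,0)]⟩⟩,.o ⟨false,1,⟨1,[(12,1),(4,0),(7,0)]⟩,⟨2,[(1,0),(7,2),(11,0),(2,
  1)]⟩⟩,.a ⟨true,0,⟨0,[(12,0)]⟩,⟨0,[(9,0)]⟩⟩ ⟨true,1,⟨3,[(2,0),(6,1),(0,3),(10,0),(2,3),(0,0),(0,
  1)]⟩,⟨0,[(0,0),(21,0),(1,1)]⟩⟩ ⟨false,1,⟨6,[(1,0),(0,0),(6,4),(11,1),(0,4),(3,5)]⟩,⟨0,[(12,0),(11,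
  0)]⟩⟩]⟩))

theorem ok0 : chk K t0 l0 = true := by decide +kernel

noncomputable def t1 : Tre :=
  (.R ⟨2,true,false,false,[0,1],[1,-1],[0,0,0,-1],(⟨0,[]⟩,⟨0,[]⟩),(⟨0,[(19,0)]⟩,⟨0,[(20,0)]⟩),⟨0,
  []⟩,.k,.k,.k,(.r (-1) ⟨0,[(13,0),(0,0),(9,1),(2,0)]⟩ ⟨6,[(0,8),(1,1),(19,2),(0,7),(3,3)]⟩),.k,.k,
  ⟨true,0,⟨1,[(13,0),(0,0)]⟩,⟨0,[]⟩⟩,⟨false,0,⟨1,[(3,0),(9,1),(5,0),(0,0)]⟩,⟨6,[(0,1),(1,1),(19,2),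
  (0,7),(3,3)]⟩⟩,⟨false,0,⟨1,[(0,2),(21,0),(0,1),(3,1)]⟩,⟨1,[(13,0),(0,0),(9,3),(2,1)]⟩⟩,⟨true,(-1),
  ⟨0,[(0,0)]⟩,⟨1,[(18,0),(5,3),(2,0)]⟩⟩,⟨true,0,⟨13,[(0,8),(1,1),(19,2),(0,7),(3,3)]⟩,⟨1,[(13,0),(0,
  0),(9,1)]⟩⟩,⟨false,0,⟨1,[(0,0),(18,0),(0,0),(6,0)]⟩,⟨1,[(18,0),(5,1),(2,0)]⟩⟩,[]⟩)

theorem ok1 : chk K t1 l2 = true := by decide +kernel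

noncomputable def t2 : Tre :=
  (.I [0,-1,0,0,1,0,0,-1] (.Q [0,0,0,0,0,0,-1,0,0,0,-1] (.p false [0,0,1] [] (⟨0,[(18,0)]⟩,⟨0,[(17,
  0)]⟩) .k 0 (⟨0,[]⟩,⟨0,[]⟩) .k .k) (.S ⟨1,0,[0,1,1,0,0,0,0,-1],[1,1,-1],[0,0,1,0,0,0,0,-1],(⟨0,
  [(18,0),(4,0)]⟩,⟨0,[(8,0)]⟩),⟨0,[(18,0)]⟩,.k,.k,⟨true,0,⟨0,[(28,0)]⟩,⟨0,[(27,0)]⟩⟩,⟨false,0,⟨0,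
  [(28,0)]⟩,⟨0,[(27,0),(2,0)]⟩⟩,⟨false,1,⟨1,[(9,0),(0,0),(19,0)]⟩,⟨0,[]⟩⟩,⟨true,0,⟨0,[(32,0)]⟩,⟨0,
  []⟩⟩,[.o ⟨false,0,⟨0,[(15,0)]⟩,⟨2,[(2,1),(11,0),(1,1),(8,0),(4,1)]⟩⟩,.e ⟨false,1,⟨0,[(1,0)]⟩,⟨2,
  [(2,1),(1,0),(19,0)]⟩⟩ ⟨false,1,⟨0,[(1,0),(30,0)]⟩,⟨0,[(2,0)]⟩⟩,.a ⟨true,0,⟨0,[(13,0)]⟩,⟨0,[(16,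
  0)]⟩⟩ ⟨false,1,⟨1,[(1,1),(14,0),(0,0)]⟩,⟨0,[(2,0)]⟩⟩ ⟨true,0,⟨0,[(15,0),(0,0)]⟩,⟨0,[(2,0)]⟩⟩,.o
  ⟨false,0,⟨0,[(0,0)]⟩,⟨2,[(3,0),(1,0),(10,2),(4,0)]⟩⟩]⟩) (.I [0,0,-2,-2,1,0,0,-1] (.I [0,0,2,2,0,0,
  0,1] (.K ⟨0,[0,1,1],0,0,(⟨0,[(21,0),(3,0)]⟩,⟨0,[(9,0)]⟩),.k,.k,(.r 0 ⟨0,[(0,0)]⟩ ⟨0,[(1,0)]⟩),.k,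
  .k,[⟨1,[(18,0),(0,0)]⟩,⟨0,[(2,0)]⟩,⟨0,[(17,0),(12,0)]⟩,⟨6,[(0,1),(1,2),(1,0),(11,3),(11,2)]⟩]⟩)
  (.I [1,1,-1,0,0,0,0,-1] (.S ⟨1,0,[0,0,1,0,0,0,0,1],[0,1,1],[0,1,1,0,0,0,0,1],(⟨0,[(22,0),(3,0)]⟩,
  ⟨0,[(10,0)]⟩),⟨0,[(22,0)]⟩,.k,.k,⟨false,0,⟨0,[(31,0)]⟩,⟨0,[(30,0),(2,0)]⟩⟩,⟨true,0,⟨0,[(31,0)]⟩,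
  ⟨0,[(30,0)]⟩⟩,⟨true,0,⟨0,[(35,0)]⟩,⟨0,[]⟩⟩,⟨false,1,⟨1,[(12,0),(0,0),(19,0)]⟩,⟨0,[]⟩⟩,[.e ⟨false,
  0,⟨1,[(1,0),(3,2),(23,1),(4,6)]⟩,⟨0,[(0,0),(32,0)]⟩⟩ ⟨false,0,⟨1,[(5,1),(13,0),(0,0)]⟩,⟨3,[(0,0),
  (3,2),(22,0),(4,0)]⟩⟩,.o ⟨false,1,⟨2,[(5,1),(11,0),(1,1),(8,0),(4,1)]⟩,⟨0,[(18,0)]⟩⟩,.o ⟨false,1,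
  ⟨2,[(3,2),(2,0),(1,0),(15,0)]⟩,⟨0,[(20,0)]⟩⟩,.a ⟨true,0,⟨0,[(3,0)]⟩,⟨1,[(9,0),(15,0),(0,0)]⟩⟩
  ⟨false,0,⟨1,[(5,1),(13,0),(0,0)]⟩,⟨0,[(4,0)]⟩⟩ ⟨true,0,⟨1,[(5,1),(13,0),(0,0)]⟩,⟨1,[(0,0),(17,0),
  (0,0)]⟩⟩]⟩) (.K ⟨0,[0,1,1],0,0,(⟨0,[(22,0),(3,0)]⟩,⟨0,[(10,0)]⟩),.k,.k,(.x (-1) ⟨7,[(1,1),(1,7),
  (1,1),(4,8),(0,0),(11,5),(4,2),(0,3),(2,2),(0,1)]⟩ ⟨1,[(19,0),(0,2),(1,1),(3,3)]⟩),.k,.k,[⟨1,[(19,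
  0),(0,0)]⟩,⟨0,[(3,0)]⟩,⟨0,[(18,0),(12,0)]⟩,⟨1,[(0,0),(2,0),(13,0),(11,0),(0,0)]⟩]⟩))) (.S ⟨1,0,[0,
  0,0,-1,0,0,0,-1],[1,0,-1],[1,1,0,0,0,0,0,-1],(⟨0,[(19,0)]⟩,⟨0,[(20,0)]⟩),⟨0,[(8,0)]⟩,.k,.k,⟨false,
  0,⟨0,[]⟩,⟨1,[(10,0),(0,0),(19,0)]⟩⟩,⟨true,0,⟨0,[(29,0)]⟩,⟨0,[(28,0)]⟩⟩,⟨true,0,⟨0,[(28,0)]⟩,⟨0,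
  [(29,0)]⟩⟩,⟨false,1,⟨1,[(10,0),(0,0),(19,0)]⟩,⟨0,[]⟩⟩,[.o ⟨false,1,⟨1,[(2,0),(3,0),(9,0),(0,0),(0,
  1)]⟩,⟨0,[(0,0),(0,2),(12,1),(11,0),(2,0)]⟩⟩,.o ⟨false,1,⟨0,[(16,0),(12,0),(1,0)]⟩,⟨8,[(0,2),(0,4),
  (1,1),(11,3),(9,0),(0,2),(0,2)]⟩⟩,.a ⟨true,0,⟨1,[(7,0),(15,0),(0,0)]⟩,⟨0,[(1,0)]⟩⟩ ⟨true,0,⟨0,[(1,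
  0),(14,0)]⟩,⟨4,[(0,0),(2,1),(1,1),(23,1),(1,0)]⟩⟩ ⟨false,1,⟨0,[(2,0),(26,0)]⟩,⟨25,[(0,7),(2,11),
  (0,4),(2,0),(6,3),(0,5),(15,2)]⟩⟩,.o ⟨false,0,⟨0,[(18,0)]⟩,⟨2,[(1,2),(2,0),(1,0),(15,0)]⟩⟩]⟩)))
  (.Q [0,-1,0,-1,0,0,1,1,0,0,1] (.p true [0,0,1] [] (⟨0,[(18,0)]⟩,⟨0,[(17,0)]⟩) .k 0 (⟨0,[]⟩,⟨0,
  []⟩) .k .k) (.R ⟨2,true,false,false,[0,1],[0,0,1],[0,0,1],(⟨0,[]⟩,⟨0,[]⟩),(⟨0,[(19,0)]⟩,⟨0,[(18,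
  0)]⟩),⟨0,[]⟩,.k,.k,.k,.k,.k,.k,⟨false,1,⟨1,[(15,1),(0,1),(12,0),(0,0)]⟩,⟨0,[(2,0)]⟩⟩,⟨true,0,⟨0,
  [(16,0)]⟩,⟨0,[(1,0),(13,0),(14,0)]⟩⟩,⟨true,0,⟨0,[(28,0)]⟩,⟨0,[(27,0)]⟩⟩,⟨false,0,⟨0,[(0,0)]⟩,⟨0,
  [(15,0),(11,0),(2,0)]⟩⟩,⟨false,1,⟨1,[(9,0),(0,0),(19,0)]⟩,⟨0,[]⟩⟩,⟨true,0,⟨0,[(0,0),(26,0)]⟩,⟨0,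
  [(15,0)]⟩⟩,[]⟩) (.Q [0,0,0,-1,0,0,1,1,0,-1,1] (.p true [0,0,1] [1] (⟨0,[(19,0)]⟩,⟨0,[(18,0)]⟩) .k
  1 (⟨0,[]⟩,⟨0,[]⟩) .k .k) (.S ⟨1,0,[0,0,0,-1,0,0,0,1],[0,0,1],[1,1,0,0,0,0,0,1],(⟨0,[(20,0)]⟩,⟨0,
  [(19,0)]⟩),⟨0,[(9,0)]⟩,.k,.k,⟨false,0,⟨0,[]⟩,⟨1,[(10,0),(0,0),(19,0)]⟩⟩,⟨true,0,⟨0,[(29,0)]⟩,⟨0,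
  [(28,0)]⟩⟩,⟨true,0,⟨0,[(28,0)]⟩,⟨0,[(29,0)]⟩⟩,⟨false,1,⟨1,[(10,0),(0,0),(19,0)]⟩,⟨0,[]⟩⟩,[.o
  ⟨false,0,⟨0,[(0,0)]⟩,⟨1,[(1,1),(8,0),(0,0),(19,0)]⟩⟩,.o ⟨false,1,⟨11,[(0,7),(5,1),(8,3),(1,2),(0,
  2),(3,1),(8,7)]⟩,⟨0,[(1,0)]⟩⟩,.o ⟨false,1,⟨2,[(4,0),(1,0),(10,2),(4,0)]⟩,⟨0,[(2,0),(13,0),(14,
  0)]⟩⟩,.a ⟨true,0,⟨0,[(17,0)]⟩,⟨0,[(14,0)]⟩⟩ ⟨false,0,⟨0,[(3,0)]⟩,⟨0,[(16,0),(0,0),(13,0)]⟩⟩ ⟨true,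
  0,⟨0,[(3,0),(25,0)]⟩,⟨0,[(1,0),(15,0)]⟩⟩]⟩) (.I [0,0,2,1,0,0,0,-1] (.I [0,0,2,0,0,2,1] (.R ⟨1,
  false,false,true,[0,0,1],[0,1],[1,1,0,0,0,0,0,1],(⟨0,[(22,0)]⟩,⟨0,[(21,0)]⟩),(⟨0,[(26,0)]⟩,⟨0,
  [(25,0)]⟩),⟨0,[(11,0)]⟩,.k,.k,.k,.k,(.x 0 ⟨0,[(0,0)]⟩ ⟨1,[(10,0),(0,2),(4,1),(11,0),(3,0)]⟩),.k,
  ⟨true,0,⟨0,[(5,0),(25,0)]⟩,⟨0,[(1,0)]⟩⟩,⟨false,1,⟨5,[(6,1),(1,1),(0,0),(6,3),(11,0),(3,0)]⟩,⟨0,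
  [(19,0)]⟩⟩,⟨false,0,⟨0,[]⟩,⟨1,[(12,0),(0,0),(19,0)]⟩⟩,⟨true,0,⟨0,[(3,0)]⟩,⟨0,[(5,0),(13,0),(11,
  0)]⟩⟩,⟨true,0,⟨0,[(30,0)]⟩,⟨0,[(31,0)]⟩⟩,⟨true,0,⟨2,[(1,0),(0,2),(1,0),(23,0),(0,1)]⟩,⟨0,[(5,0),
  (13,0),(11,1)]⟩⟩,[.o ⟨false,0,⟨2,[(1,0),(2,0),(23,0),(0,1)]⟩,⟨3,[(8,1),(10,2),(0,2),(12,1)]⟩⟩,.o
  ⟨false,1,⟨3,[(6,1),(5,0),(0,0),(10,0)]⟩,⟨0,[(31,0)]⟩⟩,.o ⟨false,1,⟨2,[(6,0),(1,0),(10,2),(4,0)]⟩,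
  ⟨3,[(2,1),(1,1),(4,0),(18,0),(2,1),(1,0)]⟩⟩,.a ⟨true,0,⟨0,[(19,0)]⟩,⟨0,[(16,0)]⟩⟩ ⟨false,0,⟨0,[(5,
  0)]⟩,⟨3,[(1,3),(6,1),(10,0),(0,0),(12,1)]⟩⟩ ⟨true,0,⟨0,[(3,0),(1,0)]⟩,⟨0,[(19,0),(11,0)]⟩⟩]⟩) (.I
  [0,0,2,2,-1,0,0,1] (.R ⟨1,false,false,false,[1,-1],[0,0,1],[1,1,-1,-1],(⟨0,[(26,0)]⟩,⟨0,[(27,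
  0)]⟩),(⟨0,[(23,0)]⟩,⟨0,[(22,0)]⟩),⟨0,[(11,0),(0,0)]⟩,.k,.k,(.r (-1) ⟨1,[(9,1),(10,0),(0,0)]⟩ ⟨29,
  [(0,11),(1,17),(0,3),(3,6),(2,2),(7,9),(15,4)]⟩),.k,(.r (-2) ⟨3,[(2,3),(6,5),(3,1),(0,1),(5,0),(0,
  0)]⟩ ⟨0,[(0,0)]⟩),.k,⟨false,1,⟨0,[(4,0),(4,0),(10,0)]⟩,⟨3,[(0,1),(4,0),(2,0),(25,2)]⟩⟩,⟨true,1,⟨0,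
  [(1,1),(18,2),(1,1),(4,3),(1,0)]⟩,⟨0,[(0,0),(2,0),(28,2)]⟩⟩,⟨false,0,⟨0,[]⟩,⟨1,[(13,0),(0,0),(19,
  0)]⟩⟩,⟨false,1,⟨6,[(0,0),(5,5),(0,0),(12,6),(8,1),(0,2),(3,4)]⟩,⟨0,[(3,0),(28,1)]⟩⟩,⟨true,0,⟨0,
  [(31,0)]⟩,⟨0,[(32,0)]⟩⟩,⟨false,1,⟨2,[(0,0),(4,0),(0,0),(13,2),(8,0),(0,3),(3,3)]⟩,⟨0,[(3,0),(28,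
  2)]⟩⟩,[.a ⟨true,0,⟨0,[(6,0),(13,0)]⟩,⟨0,[(3,0),(28,0)]⟩⟩ ⟨true,0,⟨1,[(5,0),(3,0),(9,0),(0,0)]⟩,⟨1,
  [(0,0),(1,0),(29,0),(1,0)]⟩⟩ ⟨false,1,⟨1,[(1,0),(3,1),(3,0),(10,2),(1,0),(4,1),(1,0),(0,1),(3,
  1)]⟩,⟨2,[(2,0),(0,1),(6,0),(9,0),(11,2)]⟩⟩,.o ⟨false,1,⟨2,[(6,1),(11,0),(1,1),(8,0),(4,1)]⟩,⟨0,
  [(19,0)]⟩⟩,.o ⟨false,0,⟨1,[(20,0),(0,0)]⟩,⟨2,[(7,0),(1,0),(15,0)]⟩⟩,.o ⟨false,0,⟨0,[(20,0),(0,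
  0)]⟩,⟨0,[(1,1),(18,1),(1,1),(4,3),(1,0)]⟩⟩]⟩) (.S ⟨1,0,[0,0,1,0,0,0,0,1],[0,1,1],[1,1,1,1,0,0,0,
  1],(⟨0,[(23,0),(3,0)]⟩,⟨0,[(11,0)]⟩),⟨0,[(23,0)]⟩,.k,.k,⟨false,0,⟨0,[]⟩,⟨1,[(13,0),(0,0),(19,
  0)]⟩⟩,⟨true,0,⟨0,[(32,0)]⟩,⟨0,[(31,0)]⟩⟩,⟨true,0,⟨0,[(31,0)]⟩,⟨0,[(32,0)]⟩⟩,⟨false,1,⟨1,[(13,0),
  (0,0),(19,0)]⟩,⟨0,[]⟩⟩,[.a ⟨true,0,⟨0,[(6,0),(13,0)]⟩,⟨0,[(3,0),(28,0)]⟩⟩ ⟨true,(-1),⟨5,[(2,2),(0,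
  0),(1,8),(1,0),(10,0),(15,1)]⟩,⟨1,[(0,0),(1,0),(29,0),(1,0)]⟩⟩ ⟨false,0,⟨1,[(5,0),(2,0),(25,0)]⟩,
  ⟨4,[(0,2),(1,0),(0,0),(3,0),(12,0),(9,1),(3,0)]⟩⟩,.o ⟨false,1,⟨2,[(6,1),(11,0),(1,1),(8,0),(4,
  1)]⟩,⟨0,[(19,0)]⟩⟩,.o ⟨false,1,⟨0,[(1,1),(18,2),(1,1),(4,3),(1,0)]⟩,⟨0,[(21,0)]⟩⟩,.o ⟨false,1,⟨2,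
  [(7,0),(1,0),(10,2),(4,0)]⟩,⟨3,[(3,1),(1,1),(4,0),(18,0),(2,1),(1,0)]⟩⟩]⟩))) (.I [1,-1,0,0,1,0,0,
  -1] (.S ⟨1,0,[0,1,0,-1,0,0,0,-1],[1,0,-1],[1,0,0,0,0,0,0,-1],(⟨0,[(21,0)]⟩,⟨0,[(22,0)]⟩),⟨0,[(10,
  0)]⟩,.k,.k,⟨true,0,⟨0,[]⟩,⟨0,[(35,0)]⟩⟩,⟨false,0,⟨0,[(31,0)]⟩,⟨2,[(2,0),(3,0),(10,0),(15,1)]⟩⟩,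
  ⟨false,1,⟨2,[(2,0),(3,0),(10,0),(15,1)]⟩,⟨0,[(31,0)]⟩⟩,⟨true,0,⟨0,[(35,0)]⟩,⟨0,[]⟩⟩,[.o ⟨false,0,
  ⟨0,[(18,0),(12,0)]⟩,⟨3,[(4,1),(0,1),(0,0),(12,3),(8,0),(0,1),(3,3)]⟩⟩,.a ⟨true,0,⟨0,[(2,0),(28,
  1)]⟩,⟨0,[(4,0),(14,0),(9,0),(3,0)]⟩⟩ ⟨true,1,⟨0,[(0,0)]⟩,⟨1,[(4,1),(14,0),(0,0)]⟩⟩ ⟨false,1,⟨1,
  [(0,0),(7,0),(9,0),(0,0)]⟩,⟨2,[(2,0),(1,2),(1,0),(10,0),(15,1)]⟩⟩,.o ⟨false,0,⟨3,[(2,1),(1,1),(4,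
  0),(18,0),(2,1),(1,0)]⟩,⟨2,[(6,0),(1,0),(10,2),(4,0)]⟩⟩,.o ⟨false,0,⟨0,[(20,0)]⟩,⟨2,[(0,1),(0,1),
  (17,2),(8,0),(0,1)]⟩⟩]⟩) (.Q [0,0,-1,0,1,0,1,0,0,-1,1] (.p true [0,0,1] [1] (⟨0,[(22,0)]⟩,⟨0,[(21,
  0)]⟩) .k 1 (⟨0,[]⟩,⟨0,[]⟩) .k .k) (.I [0,-1,0,-1,1,0,0,-1] (.S ⟨1,0,[0,0,1,0,0,0,0,1],[0,1,1],[1,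
  1,1,1,0,0,0,1],(⟨0,[(24,0),(3,0)]⟩,⟨0,[(12,0)]⟩),⟨0,[(24,0)]⟩,.k,.k,⟨false,0,⟨0,[]⟩,⟨1,[(14,0),(0,
  0),(19,0)]⟩⟩,⟨true,0,⟨0,[(33,0)]⟩,⟨0,[(32,0)]⟩⟩,⟨true,0,⟨0,[(32,0)]⟩,⟨0,[(33,0)]⟩⟩,⟨false,1,⟨1,
  [(14,0),(0,0),(19,0)]⟩,⟨0,[]⟩⟩,[.a ⟨true,0,⟨0,[(7,0),(13,0)]⟩,⟨0,[(4,0),(28,0)]⟩⟩ ⟨true,(-1),⟨5,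
  [(2,9),(1,3),(3,0),(12,4),(0,0),(7,0),(4,1)]⟩,⟨0,[(0,0)]⟩⟩ ⟨false,0,⟨1,[(2,0),(6,0),(25,0)]⟩,⟨0,
  [(0,0),(30,0)]⟩⟩,.o ⟨false,1,⟨2,[(7,1),(11,0),(1,1),(8,0),(4,1)]⟩,⟨0,[(20,0)]⟩⟩,.o ⟨false,1,⟨0,
  [(1,0)]⟩,⟨0,[(22,0)]⟩⟩,.o ⟨false,1,⟨7,[(0,1),(0,2),(6,0),(10,1),(1,2),(4,1)]⟩,⟨3,[(2,1),(1,1),(6,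
  0),(18,0),(2,1),(1,0)]⟩⟩]⟩) (.I [0,-1,2,1] (.Q [0,0,-2,0,1,0,0,0,0,-1] (.pp true [-1,1]) (.R ⟨1,
  false,false,false,[1,-1],[0,0,1],[1,1,-1,-1],(⟨0,[(29,0)]⟩,⟨0,[(30,0)]⟩),(⟨0,[(26,0)]⟩,⟨0,[(25,
  0)]⟩),⟨0,[(14,0),(0,0)]⟩,.k,.k,(.r (-1) ⟨1,[(12,1),(10,0),(0,0)]⟩ ⟨0,[(1,0),(32,0)]⟩),.k,(.r (-2)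
  ⟨1,[(12,1),(3,0),(0,0),(4,1),(0,1),(13,0)]⟩ ⟨0,[(1,0),(0,0)]⟩),.k,⟨false,1,⟨0,[(7,0),(4,0),(10,
  0)]⟩,⟨0,[(1,0),(7,0)]⟩⟩,⟨true,1,⟨0,[(3,0)]⟩,⟨0,[(1,0),(2,0),(1,0),(28,1)]⟩⟩,⟨false,0,⟨0,[]⟩,⟨1,
  [(16,0),(0,0),(19,0)]⟩⟩,⟨false,1,⟨25,[(1,7),(0,15),(0,15),(6,0),(10,9),(10,2),(4,21)]⟩,⟨0,[(6,0),
  (28,1)]⟩⟩,⟨true,0,⟨0,[(34,0)]⟩,⟨0,[(35,0)]⟩⟩,⟨false,1,⟨1,[(2,1),(0,0),(6,0),(12,0),(13,1)]⟩,⟨0,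
  [(6,0),(28,2)]⟩⟩,[.a ⟨true,0,⟨0,[(9,0),(13,0)]⟩,⟨0,[(6,0),(28,0)]⟩⟩ ⟨true,0,⟨1,[(4,0),(7,0),(9,0),
  (0,0)]⟩,⟨0,[(1,0)]⟩⟩ ⟨false,1,⟨0,[(3,0),(5,0)]⟩,⟨1,[(6,1),(16,0),(0,0),(10,1)]⟩⟩,.o ⟨false,1,⟨2,
  [(9,1),(11,0),(1,1),(8,0),(4,1)]⟩,⟨0,[(22,0)]⟩⟩,.o ⟨false,0,⟨1,[(23,0),(0,0)]⟩,⟨2,[(10,0),(1,0),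
  (15,0)]⟩⟩,.o ⟨false,0,⟨0,[(23,0),(0,0)]⟩,⟨0,[(0,0)]⟩⟩]⟩) (.I [0,0,0,0,1,0,0,0,-1] (.I [0,0,-1,1,1,
  0,0,-1] (.C [(0,0),(1,2),(2,0),(1,1),(0,0),(25,0)]) (.C [(0,0),(4,0),(2,0)])) (.C [(0,0),(16,0),
  (2,0)]))) (.Q [0,1,0,0,-1,0,-1,-1,1,0,-1,1] (.p false [0,0,1] [0,0,0,0,1] (⟨0,[(25,0)]⟩,⟨0,[(24,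
  0)]⟩) .k 2 (⟨0,[(18,0)]⟩,⟨0,[(17,0)]⟩) .k (.r 0 ⟨0,[(3,0),(32,0)]⟩ ⟨7,[(2,1),(2,1),(5,0),(3,4),(0,
  4),(4,5),(0,5),(7,0)]⟩)) (.Q [0,0,0,0,0,0,0,0,0,1,-1,-1] (.ed true [0,0,1,0,1] (.r 1 ⟨0,[(4,0)]⟩
  ⟨6,[(3,1),(2,1),(5,0),(3,4),(0,4),(4,4),(0,4),(13,5)]⟩)) (.R ⟨1,false,false,true,[1,0,0,0,-1],[1,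
  0,-1,0,-1],[1],(⟨0,[(19,0)]⟩,⟨0,[(20,0)]⟩),(⟨0,[(0,0)]⟩,⟨0,[(20,0),(6,0)]⟩),⟨0,[(0,0),(15,0)]⟩,.k,
  .k,(.r (-1) ⟨3,[(13,1),(10,0),(0,0),(12,1)]⟩ ⟨1,[(24,0),(0,0),(9,1)]⟩),.k,.k,.k,⟨false,0,⟨0,[(10,
  0)]⟩,⟨13,[(4,3),(2,3),(5,1),(3,2),(0,2),(4,9),(0,9),(13,4)]⟩⟩,⟨true,0,⟨3,[(5,1),(1,1),(6,0),(18,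
  0),(2,1),(1,0)]⟩,⟨0,[(24,0)]⟩⟩,⟨false,0,⟨0,[]⟩,⟨1,[(17,0),(0,0),(19,0)]⟩⟩,⟨true,0,⟨0,[(23,0)]⟩,⟨0,
  [(10,0),(13,0)]⟩⟩,⟨true,0,⟨0,[(35,0)]⟩,⟨0,[(36,0)]⟩⟩,⟨true,0,⟨0,[(8,0)]⟩,⟨2,[(5,0),(0,0),(15,0),
  (1,1),(11,1),(1,0)]⟩⟩,[.a ⟨true,1,⟨0,[(7,0),(9,0),(18,0)]⟩,⟨0,[(1,0),(1,0),(2,0),(17,1),(13,0)]⟩⟩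
  ⟨true,0,⟨0,[]⟩,⟨1,[(24,0),(0,0)]⟩⟩ ⟨false,1,⟨1,[(23,1),(13,0),(0,0)]⟩,⟨0,[(10,0),(13,0)]⟩⟩,.o
  ⟨false,2,⟨0,[(17,0),(5,0),(14,0)]⟩,⟨8,[(1,6),(1,7),(2,7),(11,1),(5,15),(8,2),(4,2)]⟩⟩,.o ⟨false,1,
  ⟨0,[(17,0)]⟩,⟨8,[(1,3),(1,1),(2,1),(11,4),(5,3),(8,2),(4,2)]⟩⟩,.o ⟨false,1,⟨1,[(17,1),(6,0),(0,
  0)]⟩,⟨17,[(1,15),(1,7),(0,8),(1,7),(11,1),(5,6),(8,2),(4,11)]⟩⟩]⟩) (.S ⟨1,0,[0,0,1],[1,1,0,0,-1],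
  [0,-1,1],(⟨0,[(19,0),(11,0)]⟩,⟨0,[(0,0),(14,0)]⟩),⟨0,[(19,0)]⟩,(.r (-1) ⟨1,[(11,0),(2,0),(9,1),
  (13,0)]⟩ ⟨2,[(2,0),(29,0),(3,1)]⟩),.k,⟨true,0,⟨0,[(36,0)]⟩,⟨0,[(35,0)]⟩⟩,⟨false,0,⟨0,[(36,0)]⟩,⟨2,
  [(7,0),(3,0),(10,0),(15,1)]⟩⟩,⟨false,1,⟨1,[(17,0),(0,0),(19,0)]⟩,⟨0,[]⟩⟩,⟨true,0,⟨0,[(40,0)]⟩,⟨0,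
  []⟩⟩,[.o ⟨false,1,⟨0,[(17,0)]⟩,⟨8,[(1,3),(1,1),(2,1),(11,4),(5,3),(8,2),(4,2)]⟩⟩,.e ⟨false,1,⟨0,
  [(38,0)]⟩,⟨0,[(32,0)]⟩⟩ ⟨false,1,⟨1,[(17,0),(0,0),(19,0)]⟩,⟨3,[(2,0),(29,0),(1,0)]⟩⟩,.a ⟨true,1,
  ⟨0,[(6,0),(0,0),(9,0),(6,0)]⟩,⟨0,[(1,0),(3,0),(18,0),(13,0)]⟩⟩ ⟨false,1,⟨1,[(24,0),(0,0),(12,1)]⟩,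
  ⟨3,[(2,0),(29,0),(1,0)]⟩⟩ ⟨true,0,⟨1,[(24,0),(0,0)]⟩,⟨3,[(2,0),(29,0),(1,0)]⟩⟩,.o ⟨false,1,⟨0,
  [(17,0)]⟩,⟨8,[(1,3),(1,1),(2,1),(11,4),(5,3),(8,2),(4,2)]⟩⟩]⟩)) (.Q [0,0,-1,0,0,0,0,0,-1,1,0,-1]
  (.p false [0,0,0,0,1] [1] (⟨0,[(19,0)]⟩,⟨0,[(18,0)]⟩) .k 1 (⟨0,[]⟩,⟨0,[]⟩) .k .k) (.Q [0,0,0,0,0,
  -1,0,0,0,0,0,1] (.ed false [1,-1,0,0,1] .k) (.S ⟨1,0,[0,-1,1],[1,1,0,0,-1],[1,0,1,1],(⟨0,[(20,0),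
  (11,0)]⟩,⟨0,[(0,0)]⟩),⟨0,[(20,0)]⟩,(.r (-1) ⟨1,[(12,0),(2,0),(9,1),(13,0)]⟩ ⟨2,[(3,0),(29,0),(3,
  1)]⟩),.k,⟨false,0,⟨0,[]⟩,⟨1,[(18,0),(0,0),(19,0)]⟩⟩,⟨true,0,⟨0,[(37,0)]⟩,⟨0,[(36,0)]⟩⟩,⟨true,0,⟨0,
  [(36,0)]⟩,⟨0,[(37,0)]⟩⟩,⟨false,1,⟨1,[(18,0),(0,0),(19,0)]⟩,⟨0,[]⟩⟩,[.o ⟨false,1,⟨7,[(1,5),(16,1),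
  (6,2),(0,2),(7,1),(4,3)]⟩,⟨8,[(3,0),(2,2),(2,0),(9,8),(4,1),(0,2),(7,0),(0,2)]⟩⟩,.e ⟨false,1,⟨2,
  [(2,0),(5,0),(3,0),(6,0),(19,0)]⟩,⟨2,[(3,0),(29,0),(3,1)]⟩⟩ ⟨false,1,⟨0,[(39,0)]⟩,⟨0,[(33,0)]⟩⟩,
  .a ⟨true,0,⟨0,[(1,0)]⟩,⟨1,[(19,1),(5,0),(0,0)]⟩⟩ ⟨true,0,⟨9,[(4,3),(3,3),(3,0),(12,6),(0,2),(7,0),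
  (4,1)]⟩,⟨2,[(3,0),(29,0),(3,1)]⟩⟩ ⟨false,1,⟨1,[(25,0),(0,0),(12,1)]⟩,⟨3,[(3,0),(29,0),(1,0)]⟩⟩,.e
  ⟨false,1,⟨2,[(2,0),(5,0),(3,0),(6,0),(19,0)]⟩,⟨0,[(37,0)]⟩⟩ ⟨false,1,⟨0,[(39,0)]⟩,⟨0,[(41,
  0)]⟩⟩]⟩) (.R ⟨0,false,false,true,[0,1,0,0,-1],[1,0,0,0,-1],[1],(⟨0,[(0,0)]⟩,⟨0,[(21,0),(9,0)]⟩),
  (⟨0,[(20,0)]⟩,⟨0,[(21,0)]⟩),⟨0,[(21,0)]⟩,(.r (-1) ⟨1,[(12,0),(2,0),(9,1),(13,0)]⟩ ⟨2,[(3,0),(29,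
  0),(3,1)]⟩),.k,.k,.k,.k,.k,⟨true,0,⟨0,[]⟩,⟨1,[(25,0),(0,0)]⟩⟩,⟨false,0,⟨0,[(31,0),(0,0)]⟩,⟨2,[(12,
  0),(1,0),(15,0)]⟩⟩,⟨true,0,⟨2,[(3,0),(29,0),(3,1)]⟩,⟨9,[(4,3),(3,3),(3,0),(12,6),(0,2),(7,0),(4,
  1)]⟩⟩,⟨false,0,⟨0,[(31,0),(0,0),(4,0)]⟩,⟨5,[(4,1),(0,0),(2,1),(3,0),(12,0),(8,1),(4,3)]⟩⟩,⟨false,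
  0,⟨0,[]⟩,⟨0,[]⟩⟩,⟨false,0,⟨0,[]⟩,⟨0,[]⟩⟩,[.a ⟨true,0,⟨1,[(1,1),(23,0),(0,0)]⟩,⟨0,[(19,0)]⟩⟩ ⟨true,
  0,⟨0,[]⟩,⟨1,[(25,0),(0,0)]⟩⟩ ⟨false,0,⟨0,[(31,0),(0,0)]⟩,⟨2,[(12,0),(1,0),(15,0)]⟩⟩,.o ⟨false,1,
  ⟨7,[(1,5),(16,1),(6,2),(0,2),(7,1),(4,3)]⟩,⟨8,[(3,0),(2,2),(2,0),(9,8),(4,1),(0,2),(7,0),(0,2)]⟩⟩,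
  .o ⟨false,1,⟨9,[(1,7),(16,1),(15,5),(3,0),(0,0),(1,1)]⟩,⟨1,[(19,1),(5,0),(0,0)]⟩⟩,.o ⟨false,1,⟨7,
  [(1,3),(16,3),(6,0),(0,0),(7,3),(5,1)]⟩,⟨0,[(19,0)]⟩⟩]⟩)) (.Q [0,0,0,0,0,0,0,0,1,-1,0,1] (.p true
  [0,0,0,0,1] [1] (⟨0,[(20,0)]⟩,⟨0,[(19,0)]⟩) .k 1 (⟨0,[]⟩,⟨0,[]⟩) .k .k) (.Q [0,1,0,-1,-1,0,1,1,1,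
  -1,1,1] (.p true [0,0,1] [1,0,0,0,-1] (⟨0,[(28,0)]⟩,⟨0,[(27,0)]⟩) .k 2 (⟨0,[(20,0)]⟩,⟨0,[(21,
  0)]⟩) .k (.r 1 ⟨0,[(6,0)]⟩ ⟨6,[(5,1),(2,1),(5,0),(3,4),(0,4),(4,4),(0,4),(13,5)]⟩)) (.Q [0,-1,0,1,
  1,0,1,1,-1,0,1,-1] (.p true [0,0,1] [0,0,0,0,1] (⟨0,[(29,0)]⟩,⟨0,[(28,0)]⟩) .k 2 (⟨0,[(22,0)]⟩,⟨0,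
  [(21,0)]⟩) .k (.r 0 ⟨0,[(7,0),(32,0)]⟩ ⟨7,[(6,1),(2,1),(5,0),(3,4),(0,4),(4,5),(0,5),(7,0)]⟩))
  (.Q [0,0,-1,0,1,0,0,0,-1,0,0,-1] (.p false [0,0,0,0,1] [] (⟨0,[(23,0)]⟩,⟨0,[(22,0)]⟩) .k 0 (⟨0,
  []⟩,⟨0,[]⟩) .k .k) (.Q [0,0,0,0,0,-1,0,0,0,0,0,1] (.ed false [1,-1,0,0,1] .k) (.S ⟨1,0,[0,2,0,-1],
  [0,0,0,0,1],[1,1],(⟨0,[(25,0)]⟩,⟨0,[(24,0)]⟩),⟨0,[(0,0)]⟩,.k,(.r 0 ⟨2,[(7,0),(29,0),(3,1)]⟩ ⟨1,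
  [(16,0),(2,0),(9,1),(13,0)]⟩),⟨true,0,⟨0,[]⟩,⟨0,[(45,0)]⟩⟩,⟨false,0,⟨0,[(41,0)]⟩,⟨7,[(2,1),(9,1),
  (3,1),(5,0),(0,2),(19,2)]⟩⟩,⟨false,1,⟨7,[(2,1),(9,1),(3,1),(5,0),(0,2),(19,2)]⟩,⟨0,[(41,0)]⟩⟩,
  ⟨true,0,⟨0,[(45,0)]⟩,⟨0,[]⟩⟩,[.o ⟨false,(-1),⟨0,[(3,0),(24,0)]⟩,⟨9,[(2,3),(9,3),(3,0),(5,5),(15,
  0),(4,7)]⟩⟩,.a ⟨true,(-1),⟨0,[(3,0),(8,0),(28,0)]⟩,⟨0,[(6,0),(5,0)]⟩⟩ ⟨true,0,⟨0,[]⟩,⟨1,[(29,0),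
  (0,0)]⟩⟩ ⟨false,0,⟨2,[(7,0),(29,0),(3,1)]⟩,⟨7,[(2,1),(9,1),(3,1),(5,0),(0,2),(19,2)]⟩⟩,.o ⟨false,
  0,⟨0,[(4,0)]⟩,⟨0,[(22,0)]⟩⟩,.o ⟨false,0,⟨0,[(5,0)]⟩,⟨0,[(1,0)]⟩⟩]⟩) (.R ⟨0,false,false,true,[0,0,
  0,0,1],[1,0,-1,0,1],[0,2,1,0,0,0,0,-1],(⟨0,[(25,0)]⟩,⟨0,[(24,0)]⟩),(⟨0,[(25,0),(5,0)]⟩,⟨0,[(0,0),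
  (20,0)]⟩),⟨0,[(0,0)]⟩,.k,.k,(.r 0 ⟨2,[(7,0),(29,0),(3,1)]⟩ ⟨1,[(16,0),(2,0),(9,1),(13,0)]⟩),.k,.k,
  .k,⟨true,0,⟨1,[(29,0),(0,0)]⟩,⟨0,[]⟩⟩,⟨false,0,⟨0,[(26,0)]⟩,⟨2,[(5,0),(3,1),(12,0),(6,0)]⟩⟩,⟨true,
  0,⟨0,[(28,0),(0,0)]⟩,⟨0,[(15,0)]⟩⟩,⟨false,0,⟨0,[(12,0),(28,0)]⟩,⟨23,[(3,5),(1,7),(0,13),(2,3),(5,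
  3),(0,2),(21,0),(4,7)]⟩⟩,⟨false,0,⟨0,[]⟩,⟨0,[]⟩⟩,⟨false,0,⟨0,[]⟩,⟨0,[]⟩⟩,[.o ⟨false,(-1),⟨0,[(3,
  0),(8,0),(15,0)]⟩,⟨1,[(6,1),(27,0),(8,0)]⟩⟩,.a ⟨true,(-1),⟨0,[(3,0),(8,1),(28,0)]⟩,⟨0,[(6,0)]⟩⟩
  ⟨true,0,⟨0,[(28,0),(0,0)]⟩,⟨0,[(10,0),(32,0)]⟩⟩ ⟨false,0,⟨2,[(7,0),(4,2),(24,0),(3,1)]⟩,⟨23,[(3,
  5),(1,7),(0,13),(2,3),(5,3),(0,2),(21,0),(4,7)]⟩⟩,.o ⟨false,0,⟨0,[(4,0)]⟩,⟨0,[(22,0)]⟩⟩,.o ⟨false,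
  0,⟨0,[(5,0)]⟩,⟨0,[(1,0)]⟩⟩]⟩)) (.Q [0,0,0,0,0,-1,0,0,0,0,0,1] (.ed false [1,-1,0,0,1] .k) (.S ⟨1,
  0,[0,1,0,-1],[0,0,0,0,1],[1,2],(⟨0,[(25,0)]⟩,⟨0,[(24,0)]⟩),⟨0,[(0,0)]⟩,.k,(.r 0 ⟨2,[(7,0),(29,0),
  (3,1)]⟩ ⟨1,[(16,0),(2,0),(9,1),(13,0)]⟩),⟨false,0,⟨0,[]⟩,⟨1,[(22,0),(0,0),(19,0)]⟩⟩,⟨true,0,⟨0,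
  [(41,0)]⟩,⟨0,[(40,0)]⟩⟩,⟨true,0,⟨0,[(40,0)]⟩,⟨0,[(41,0)]⟩⟩,⟨false,1,⟨1,[(22,0),(0,0),(19,0)]⟩,⟨0,
  []⟩⟩,[.e ⟨false,0,⟨0,[(37,0)]⟩,⟨0,[(43,0)]⟩⟩ ⟨false,0,⟨2,[(7,0),(29,0),(3,1)]⟩,⟨7,[(2,1),(9,1),(3,
  1),(5,0),(0,2),(19,2)]⟩⟩,.o ⟨false,0,⟨5,[(1,2),(3,2),(12,1),(19,0),(2,1)]⟩,⟨1,[(2,0),(10,0),(8,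
  0)]⟩⟩,.o ⟨false,0,⟨0,[(4,0)]⟩,⟨0,[(22,0)]⟩⟩,.a ⟨true,(-1),⟨0,[(1,0)]⟩,⟨1,[(6,0),(0,0),(4,0),(9,0),
  (12,0),(0,0)]⟩⟩ ⟨false,0,⟨3,[(7,0),(29,0),(1,0)]⟩,⟨1,[(29,0),(0,0),(12,1)]⟩⟩ ⟨true,0,⟨2,[(7,0),
  (29,0),(3,1)]⟩,⟨3,[(1,1),(0,1),(10,1),(15,0),(0,0)]⟩⟩]⟩) (.S ⟨1,0,[0,-1,0,-1],[1,0,0,0,-1],[1],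
  (⟨0,[(24,0)]⟩,⟨0,[(25,0)]⟩),⟨0,[(0,0),(19,0),(0,0)]⟩,.k,(.r (-1) ⟨3,[(18,1),(10,0),(0,0),(12,1)]⟩
  ⟨1,[(29,0),(0,0),(9,1)]⟩),⟨false,0,⟨0,[]⟩,⟨1,[(22,0),(0,0),(19,0)]⟩⟩,⟨true,0,⟨0,[(41,0)]⟩,⟨0,[(40,
  0)]⟩⟩,⟨true,0,⟨0,[(40,0)]⟩,⟨0,[(41,0)]⟩⟩,⟨false,1,⟨1,[(22,0),(0,0),(19,0)]⟩,⟨0,[]⟩⟩,[.a ⟨true,1,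
  ⟨0,[(6,0),(5,0),(28,1)]⟩,⟨0,[(1,0),(37,0)]⟩⟩ ⟨true,0,⟨0,[]⟩,⟨1,[(29,0),(0,0)]⟩⟩ ⟨false,1,⟨3,[(18,
  1),(10,0),(0,0),(12,1)]⟩,⟨0,[(40,0)]⟩⟩,.o ⟨false,2,⟨0,[(22,0),(18,0),(1,0)]⟩,⟨5,[(1,2),(1,2),(4,
  0),(4,3),(15,0),(8,0),(0,3)]⟩⟩,.o ⟨false,1,⟨0,[(22,0)]⟩,⟨0,[(4,0)]⟩⟩,.o ⟨false,1,⟨1,[(22,1),(6,0),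
  (0,0)]⟩,⟨2,[(1,2),(5,1),(30,0),(0,1),(3,1)]⟩⟩]⟩))) (.Q [0,0,0,0,0,0,0,0,0,0,1,-1] (.ed true [1,0,
  -1,0,1] (.r (-1) ⟨7,[(7,1),(2,1),(5,0),(3,4),(0,4),(4,5),(0,5),(7,0)]⟩ ⟨0,[(8,0),(32,0)]⟩)) (.S
  ⟨1,0,[0,-1,0,-1],[1,0,0,0,-1],[1],(⟨0,[(23,0)]⟩,⟨0,[(24,0)]⟩),⟨0,[(0,0),(18,0)]⟩,.k,(.r (-1) ⟨3,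
  [(17,1),(10,0),(0,0),(12,1)]⟩ ⟨1,[(28,0),(0,0),(9,1)]⟩),⟨false,0,⟨0,[]⟩,⟨1,[(21,0),(0,0),(19,
  0)]⟩⟩,⟨true,0,⟨0,[(40,0)]⟩,⟨0,[(39,0)]⟩⟩,⟨true,0,⟨0,[(39,0)]⟩,⟨0,[(40,0)]⟩⟩,⟨false,1,⟨1,[(21,0),
  (0,0),(19,0)]⟩,⟨0,[]⟩⟩,[.a ⟨true,1,⟨0,[(5,0),(5,0),(28,1)]⟩,⟨1,[(1,0),(0,0),(4,1),(0,0),(2,1),(16,
  0),(13,0)]⟩⟩ ⟨true,0,⟨0,[]⟩,⟨1,[(28,0),(0,0)]⟩⟩ ⟨false,1,⟨3,[(17,1),(10,0),(0,0),(12,1)]⟩,⟨0,[(39,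
  0)]⟩⟩,.o ⟨false,2,⟨0,[(21,0),(18,0),(1,0)]⟩,⟨5,[(1,2),(1,2),(3,3),(4,0),(15,3),(8,0),(0,3)]⟩⟩,.o
  ⟨false,1,⟨0,[(21,0)]⟩,⟨0,[(3,0)]⟩⟩,.o ⟨false,1,⟨1,[(21,1),(6,0),(0,0)]⟩,⟨0,[(1,0),(5,0),(0,0),(33,
  0)]⟩⟩]⟩) (.S ⟨1,0,[0,0,1],[1,1,0,0,-1],[0,-1,1],(⟨0,[(23,0),(11,0)]⟩,⟨0,[(0,0),(19,0)]⟩),⟨0,[(23,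
  0)]⟩,(.r (-1) ⟨1,[(15,0),(2,0),(9,1),(13,0)]⟩ ⟨2,[(6,0),(29,0),(3,1)]⟩),.k,⟨true,0,⟨0,[(40,0)]⟩,
  ⟨0,[(39,0)]⟩⟩,⟨false,0,⟨0,[(40,0)]⟩,⟨2,[(5,0),(5,0),(3,0),(6,0),(19,0)]⟩⟩,⟨false,1,⟨1,[(21,0),(0,
  0),(19,0)]⟩,⟨0,[]⟩⟩,⟨true,0,⟨0,[(44,0)]⟩,⟨0,[]⟩⟩,[.o ⟨false,1,⟨0,[(21,0)]⟩,⟨0,[(3,0)]⟩⟩,.e ⟨false,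
  1,⟨0,[(42,0)]⟩,⟨0,[(36,0)]⟩⟩ ⟨false,1,⟨1,[(21,0),(0,0),(19,0)]⟩,⟨3,[(6,0),(29,0),(1,0)]⟩⟩,.a
  ⟨true,1,⟨1,[(5,0),(0,0),(4,0),(9,0),(12,0),(0,0)]⟩,⟨0,[(1,0),(5,0),(20,0),(13,0)]⟩⟩ ⟨false,1,⟨1,
  [(28,0),(0,0),(12,1)]⟩,⟨3,[(6,0),(29,0),(1,0)]⟩⟩ ⟨true,0,⟨1,[(28,0),(0,0)]⟩,⟨3,[(6,0),(29,0),(1,
  0)]⟩⟩,.o ⟨false,1,⟨0,[(21,0)]⟩,⟨0,[(3,0)]⟩⟩]⟩))) (.Q [0,-1,0,0,1,0,0,0,-1,0,0,-1] (.p false [0,0,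
  0,0,1] [] (⟨0,[(22,0)]⟩,⟨0,[(21,0)]⟩) .k 0 (⟨0,[]⟩,⟨0,[]⟩) .k .k) (.R ⟨1,false,false,false,[0,0,
  1],[0,0,0,0,1],[1,0,0,0,0,0,0,1],(⟨0,[(30,0)]⟩,⟨0,[(29,0)]⟩),(⟨0,[(23,0)]⟩,⟨0,[(22,0)]⟩),⟨0,[(19,
  0)]⟩,.k,.k,.k,.k,(.r (-1) ⟨6,[(9,1),(5,4),(0,0),(22,2),(1,5)]⟩ ⟨0,[(11,0),(15,0)]⟩),.k,⟨true,0,⟨0,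
  [(8,0),(32,0)]⟩,⟨0,[(26,0),(0,0)]⟩⟩,⟨false,0,⟨0,[(2,0),(21,0)]⟩,⟨2,[(0,1),(4,0),(14,0),(6,2),(9,
  0)]⟩⟩,⟨true,0,⟨0,[]⟩,⟨0,[(43,0)]⟩⟩,⟨false,0,⟨0,[(2,0),(7,0),(28,0)]⟩,⟨0,[(4,0)]⟩⟩,⟨false,1,⟨2,[(4,
  0),(5,0),(3,0),(6,0),(19,0)]⟩,⟨0,[(39,0)]⟩⟩,⟨false,0,⟨0,[(2,0),(7,0)]⟩,⟨0,[(4,0),(34,0)]⟩⟩,[.o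
  ⟨false,0,⟨1,[(2,0),(0,0),(31,0)]⟩,⟨0,[(0,0)]⟩⟩,.o ⟨false,0,⟨0,[(2,0)]⟩,⟨0,[(20,0)]⟩⟩,.o ⟨false,1,
  ⟨2,[(3,0),(3,1),(12,0),(6,0)]⟩,⟨3,[(8,1),(1,1),(6,0),(18,0),(2,1),(1,0)]⟩⟩,.a ⟨true,0,⟨0,[(27,
  0)]⟩,⟨0,[(24,0)]⟩⟩ ⟨true,0,⟨0,[(13,0)]⟩,⟨0,[(26,0),(0,0)]⟩⟩ ⟨false,0,⟨0,[(2,0),(21,0)]⟩,⟨0,[(0,0),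
  (26,0)]⟩⟩]⟩) (.Q [0,0,0,0,0,-1,0,0,0,1,0,-1] (.ed true [0,1,0,0,1] .k) (.R ⟨1,false,false,false,
  [1,0,0,0,-1],[1,-1],[0,0,0,-1],(⟨0,[(23,0)]⟩,⟨0,[(24,0)]⟩),(⟨0,[(34,0)]⟩,⟨0,[(35,0)]⟩),⟨0,[(0,
  0)]⟩,.k,.k,(.r (-1) ⟨3,[(17,1),(10,0),(0,0),(12,1)]⟩ ⟨1,[(28,0),(0,0),(9,1)]⟩),(.r (-1) ⟨1,[(15,
  0),(2,0),(9,1),(13,0)]⟩ ⟨2,[(6,0),(29,0),(3,1)]⟩),.k,.k,⟨true,0,⟨1,[(28,0),(0,0)]⟩,⟨0,[]⟩⟩,⟨false,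
  0,⟨0,[(22,0)]⟩,⟨19,[(2,8),(2,5),(0,10),(0,0),(1,1),(11,4),(6,2),(8,2),(0,0)]⟩⟩,⟨false,0,⟨0,[(40,
  0)]⟩,⟨2,[(5,0),(5,0),(3,0),(6,0),(19,0)]⟩⟩,⟨true,(-1),⟨0,[(1,0),(38,0)]⟩,⟨19,[(2,5),(2,1),(1,3),
  (7,2),(5,11),(6,3),(8,0),(0,3)]⟩⟩,⟨true,0,⟨0,[(44,0)]⟩,⟨0,[]⟩⟩,⟨true,(-1),⟨0,[(1,0)]⟩,⟨0,[(21,
  0)]⟩⟩,[.o ⟨false,0,⟨0,[(40,0)]⟩,⟨11,[(4,2),(10,6),(1,0),(3,2),(11,0)]⟩⟩,.o ⟨false,1,⟨3,[(17,1),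
  (10,2),(0,2),(12,1)]⟩,⟨2,[(7,0),(4,0),(15,0),(8,0),(0,0)]⟩⟩,.o ⟨false,1,⟨0,[(21,0)]⟩,⟨0,[(3,0)]⟩⟩,
  .a ⟨true,0,⟨0,[(2,0),(6,0),(18,0),(11,0)]⟩,⟨1,[(1,1),(39,0),(0,0)]⟩⟩ ⟨false,1,⟨3,[(17,1),(10,0),
  (0,0),(12,1)]⟩,⟨1,[(2,0),(1,0),(2,0),(20,0)]⟩⟩ ⟨true,0,⟨2,[(1,1),(15,0),(4,0),(17,0),(1,0)]⟩,⟨6,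
  [(2,5),(3,0),(2,8),(2,1),(8,0),(5,0),(0,8),(8,1)]⟩⟩]⟩) (.S ⟨1,0,[0,2,0,-1],[0,0,0,0,1],[1,1],(⟨0,
  [(24,0)]⟩,⟨0,[(23,0)]⟩),⟨0,[(0,0),(18,0),(0,0)]⟩,.k,(.r 0 ⟨2,[(6,0),(29,0),(3,1)]⟩ ⟨1,[(15,0),(2,
  0),(9,1),(13,0)]⟩),⟨true,0,⟨0,[]⟩,⟨0,[(44,0)]⟩⟩,⟨false,0,⟨0,[(40,0)]⟩,⟨2,[(5,0),(5,0),(3,0),(6,0),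
  (19,0)]⟩⟩,⟨false,1,⟨2,[(5,0),(5,0),(3,0),(6,0),(19,0)]⟩,⟨0,[(40,0)]⟩⟩,⟨true,0,⟨0,[(44,0)]⟩,⟨0,
  []⟩⟩,[.o ⟨false,(-1),⟨8,[(1,8),(4,0),(2,2),(17,2),(0,2),(7,0),(0,2),(2,7)]⟩,⟨2,[(2,0),(2,0),(9,0),
  (5,0),(20,1)]⟩⟩,.a ⟨true,(-1),⟨0,[(1,0),(38,0)]⟩,⟨0,[(5,0),(5,0)]⟩⟩ ⟨true,0,⟨0,[]⟩,⟨1,[(28,0),(0,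
  0)]⟩⟩ ⟨false,0,⟨2,[(6,0),(29,0),(3,1)]⟩,⟨2,[(5,0),(5,0),(3,0),(6,0),(19,0)]⟩⟩,.o ⟨false,0,⟨0,[(3,
  0)]⟩,⟨0,[(21,0)]⟩⟩,.o ⟨false,0,⟨0,[(4,0)]⟩,⟨19,[(2,8),(2,5),(0,10),(0,0),(1,1),(11,4),(6,2),(8,2),
  (0,0)]⟩⟩]⟩)))) (.Q [0,0,0,0,0,-1,0,0,0,0,0,1] (.ed false [1,-1,0,0,1] .k) (.S ⟨1,0,[0,0,1],[1,1,0,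
  0,-1],[0,-1,1],(⟨0,[(21,0),(11,0)]⟩,⟨0,[(0,0)]⟩),⟨0,[(21,0)]⟩,(.r (-1) ⟨1,[(13,0),(2,0),(9,1),(13,
  0)]⟩ ⟨2,[(4,0),(29,0),(3,1)]⟩),.k,⟨true,0,⟨0,[(38,0)]⟩,⟨0,[(37,0)]⟩⟩,⟨false,0,⟨0,[(38,0)]⟩,⟨2,[(3,
  0),(5,0),(3,0),(6,0),(19,0)]⟩⟩,⟨false,1,⟨1,[(19,0),(0,0),(19,0)]⟩,⟨0,[]⟩⟩,⟨true,0,⟨0,[(42,0)]⟩,⟨0,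
  []⟩⟩,[.a ⟨true,0,⟨0,[(1,0)]⟩,⟨0,[(20,0)]⟩⟩ ⟨false,1,⟨1,[(19,0),(0,0),(19,0)]⟩,⟨3,[(4,0),(29,0),(1,
  0)]⟩⟩ ⟨true,0,⟨1,[(26,0),(0,0)]⟩,⟨0,[]⟩⟩,.o ⟨false,1,⟨3,[(1,2),(17,0),(15,0),(4,1)]⟩,⟨3,[(2,3),(1,
  0),(29,0),(1,0)]⟩⟩,.o ⟨false,1,⟨3,[(1,2),(17,0),(15,0),(3,1)]⟩,⟨0,[(2,0)]⟩⟩,.e ⟨false,1,⟨0,[(40,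
  0)]⟩,⟨0,[(42,0)]⟩⟩ ⟨false,1,⟨1,[(19,0),(0,0),(19,0)]⟩,⟨0,[]⟩⟩]⟩) (.R ⟨0,false,false,false,[0,0,0,
  0,1],[0,1],[1,0,1,1],(⟨0,[(22,0)]⟩,⟨0,[(21,0)]⟩),(⟨0,[(33,0)]⟩,⟨0,[(32,0)]⟩),⟨0,[(0,0)]⟩,.k,.k,
  (.r 0 ⟨2,[(4,0),(29,0),(3,1)]⟩ ⟨1,[(13,0),(2,0),(9,1),(13,0)]⟩),(.r 0 ⟨2,[(4,0),(29,0),(3,1)]⟩ ⟨1,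
  [(13,0),(2,0),(9,1),(13,0)]⟩),.k,.k,⟨true,0,⟨0,[]⟩,⟨1,[(26,0),(0,0)]⟩⟩,⟨false,1,⟨2,[(1,2),(2,1),
  (30,0),(0,1),(3,1)]⟩,⟨1,[(20,1),(5,0),(0,0)]⟩⟩,⟨false,1,⟨9,[(5,3),(3,3),(3,0),(12,6),(0,2),(7,0),
  (4,11)]⟩,⟨2,[(4,0),(29,0),(3,1)]⟩⟩,⟨true,1,⟨5,[(1,5),(3,1),(0,0),(2,1),(3,0),(12,0),(8,1),(4,3)]⟩,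
  ⟨0,[(2,0),(1,0),(2,0),(1,0),(16,0),(11,0)]⟩⟩,⟨false,0,⟨0,[]⟩,⟨0,[]⟩⟩,⟨false,0,⟨0,[]⟩,⟨0,[]⟩⟩,[.o
  ⟨false,1,⟨11,[(2,2),(10,6),(1,0),(3,2),(11,0)]⟩,⟨0,[(38,0)]⟩⟩,.o ⟨false,1,⟨5,[(5,1),(0,0),(2,1),
  (3,0),(12,0),(8,1),(4,3)]⟩,⟨0,[(38,0),(3,0)]⟩⟩,.a ⟨true,0,⟨0,[(20,0)]⟩,⟨0,[(1,0)]⟩⟩ ⟨true,0,⟨9,
  [(5,3),(3,3),(3,0),(12,6),(0,2),(7,0),(4,1)]⟩,⟨2,[(4,0),(29,0),(3,1)]⟩⟩ ⟨false,1,⟨5,[(1,5),(3,1),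
  (0,0),(2,1),(3,0),(12,0),(8,1),(4,3)]⟩,⟨0,[(20,0),(17,0)]⟩⟩,.o ⟨false,0,⟨0,[(2,0)]⟩,⟨3,[(1,2),(17,
  0),(15,0),(3,1)]⟩⟩]⟩))))))) (.S ⟨1,0,[0,1,0,-1,0,0,0,-1],[1,0,-1],[1,0,0,0,0,0,0,-1],(⟨0,[(22,
  0)]⟩,⟨0,[(23,0)]⟩),⟨0,[(11,0)]⟩,.k,.k,⟨true,0,⟨0,[]⟩,⟨0,[(36,0)]⟩⟩,⟨false,0,⟨0,[(32,0)]⟩,⟨2,[(3,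
  0),(3,0),(10,0),(15,1)]⟩⟩,⟨false,1,⟨2,[(3,0),(3,0),(10,0),(15,1)]⟩,⟨0,[(32,0)]⟩⟩,⟨true,0,⟨0,[(36,
  0)]⟩,⟨0,[]⟩⟩,[.o ⟨false,0,⟨0,[(19,0),(12,0)]⟩,⟨3,[(1,1),(4,1),(0,0),(12,3),(8,0),(0,1),(3,3)]⟩⟩,
  .e ⟨false,2,⟨0,[(19,0),(0,0),(12,0),(0,0)]⟩,⟨0,[(1,0)]⟩⟩ ⟨false,1,⟨2,[(3,2),(5,1),(10,2),(8,0),(2,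
  1)]⟩,⟨1,[(0,0),(5,1),(0,0),(12,0)]⟩⟩,.o ⟨false,0,⟨16,[(0,3),(0,0),(0,1),(1,1),(5,4),(8,0),(9,2),
  (4,1)]⟩,⟨2,[(7,0),(1,0),(10,2),(4,0)]⟩⟩,.a ⟨true,(-1),⟨0,[(0,0)]⟩,⟨0,[(20,0),(12,0)]⟩⟩ ⟨true,1,⟨1,
  [(2,0),(0,2),(5,0),(10,2),(8,0)]⟩,⟨1,[(1,1),(18,0),(0,0)]⟩⟩ ⟨false,1,⟨2,[(3,2),(5,1),(10,2),(8,0),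
  (2,1)]⟩,⟨1,[(0,0),(0,1),(5,0),(12,0),(13,1)]⟩⟩]⟩)))))))

theorem ok2 : chk K t2 l3 = true := by decide +kernel

noncomputable def t3 : Tre :=
  (.S ⟨1,0,[0,0,1,0,0,0,0,-1],[1,1,-1],[0,1,1,0,0,0,0,-1],(⟨0,[(20,0),(4,0)]⟩,⟨0,[(10,0)]⟩),⟨0,[(20,
  0)]⟩,.k,.k,⟨false,0,⟨0,[(30,0)]⟩,⟨0,[(29,0),(2,0)]⟩⟩,⟨true,0,⟨0,[(30,0)]⟩,⟨0,[(29,0)]⟩⟩,⟨true,0,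
  ⟨0,[(34,0)]⟩,⟨0,[]⟩⟩,⟨false,1,⟨1,[(11,0),(0,0),(19,0)]⟩,⟨0,[]⟩⟩,[.o ⟨false,0,⟨0,[(0,0),(2,0)]⟩,⟨1,
  [(16,1),(6,0),(8,0)]⟩⟩,.e ⟨false,0,⟨0,[(0,0)]⟩,⟨1,[(6,1),(24,0),(0,0)]⟩⟩ ⟨false,1,⟨1,[(4,1),(26,
  0),(0,0)]⟩,⟨0,[(1,0)]⟩⟩,.a ⟨true,0,⟨0,[(15,0)]⟩,⟨0,[(18,0)]⟩⟩ ⟨false,0,⟨0,[(4,0)]⟩,⟨0,[(1,0),(30,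
  0)]⟩⟩ ⟨true,0,⟨0,[(4,0)]⟩,⟨0,[(1,0)]⟩⟩,.o ⟨false,0,⟨0,[(3,0)]⟩,⟨2,[(5,0),(1,0),(10,2),(4,0)]⟩⟩]⟩)

theorem ok3 : chk K t3 l7 = true := by decide +kernel

noncomputable def t4 : Tre :=
  (.N [0,-1,1] 0 ⟨0,[(0,0)]⟩ ⟨0,[(3,0)]⟩ .k)

theorem ok4 : chk K t4 l8 = true := by decide +kernel

noncomputable def t5 : Tre :=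
  (.N [0,0,1] 0 ⟨0,[(2,0)]⟩ ⟨0,[(0,0)]⟩ .k)

theorem ok5 : chk K t5 l9 = true := by decide +kernel

noncomputable def t6 : Tre :=
  (.Q [0,-1,0,-1,1,0,1,1,0,-1,1] (.p true [0,0,1] [1] (⟨0,[(25,0)]⟩,⟨0,[(24,0)]⟩) .k 1 (⟨0,[]⟩,⟨0,
  []⟩) .k .k) (.S ⟨1,0,[0,0,0,-1,0,0,0,1],[0,0,1],[1,1,0,0,0,0,0,1],(⟨0,[(26,0)]⟩,⟨0,[(25,0)]⟩),⟨0,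
  [(15,0)]⟩,.k,.k,⟨false,0,⟨0,[]⟩,⟨1,[(16,0),(0,0),(19,0)]⟩⟩,⟨true,0,⟨0,[(35,0)]⟩,⟨0,[(34,0)]⟩⟩,
  ⟨true,0,⟨0,[(34,0)]⟩,⟨0,[(35,0)]⟩⟩,⟨false,1,⟨1,[(16,0),(0,0),(19,0)]⟩,⟨0,[]⟩⟩,[.o ⟨false,1,⟨0,[(0,
  0),(38,0)]⟩,⟨0,[(1,0)]⟩⟩,.o ⟨false,1,⟨0,[(0,0)]⟩,⟨1,[(1,0),(20,0),(11,0)]⟩⟩,.o ⟨false,1,⟨2,[(10,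
  0),(1,0),(10,2),(4,0)]⟩,⟨0,[(8,0)]⟩⟩,.a ⟨true,0,⟨0,[(23,0)]⟩,⟨0,[(20,0)]⟩⟩ ⟨true,0,⟨0,[(6,0)]⟩,⟨0,
  [(9,0)]⟩⟩ ⟨false,1,⟨0,[(0,0),(19,0)]⟩,⟨0,[(7,0)]⟩⟩]⟩) (.I [0,-1,2,1,0,0,0,-1] (.R ⟨1,false,false,
  false,[0,0,1],[0,1],[1,1,0,0,0,0,0,1],(⟨0,[(27,0)]⟩,⟨0,[(26,0)]⟩),(⟨0,[(31,0)]⟩,⟨0,[(30,0)]⟩),⟨0,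
  [(16,0)]⟩,.k,.k,.k,.k,(.r (-1) ⟨2,[(6,0),(5,1),(0,1),(22,1),(1,0)]⟩ ⟨0,[(0,0),(34,0)]⟩),.k,⟨true,
  0,⟨0,[(7,0),(28,0)]⟩,⟨0,[(0,0)]⟩⟩,⟨false,1,⟨5,[(11,1),(1,1),(0,0),(6,3),(11,0),(3,0)]⟩,⟨0,[(24,
  0)]⟩⟩,⟨false,0,⟨0,[]⟩,⟨1,[(17,0),(0,0),(19,0)]⟩⟩,⟨true,0,⟨0,[(2,0)]⟩,⟨0,[(22,0),(13,0)]⟩⟩,⟨true,0,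
  ⟨0,[(35,0)]⟩,⟨0,[(36,0)]⟩⟩,⟨true,0,⟨2,[(1,2),(1,0),(29,0),(0,0),(3,1)]⟩,⟨0,[(22,0),(13,1)]⟩⟩,[.o
  ⟨false,1,⟨3,[(11,1),(5,0),(0,0),(10,0)]⟩,⟨0,[(36,0)]⟩⟩,.o ⟨false,1,⟨2,[(3,0),(29,0),(0,0),(3,1)]⟩,
  ⟨0,[(36,0),(3,0)]⟩⟩,.o ⟨false,1,⟨2,[(11,0),(1,0),(10,2),(4,0)]⟩,⟨0,[(9,0)]⟩⟩,.a ⟨true,0,⟨0,[(24,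
  0)]⟩,⟨0,[(21,0)]⟩⟩ ⟨true,0,⟨0,[(7,0)]⟩,⟨0,[(10,0)]⟩⟩ ⟨false,1,⟨2,[(3,0),(17,2),(11,0),(0,0),(3,
  1)]⟩,⟨0,[(24,0),(11,0)]⟩⟩]⟩) (.I [0,-1,2,1] (.R ⟨1,false,false,true,[1,-1],[0,0,1],[1,1,-1,-1],
  (⟨0,[(31,0)]⟩,⟨0,[(32,0)]⟩),(⟨0,[(28,0)]⟩,⟨0,[(27,0)]⟩),⟨0,[(16,0),(0,0)]⟩,.k,.k,(.r (-1) ⟨1,[(14,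
  1),(10,0),(0,0)]⟩ ⟨1,[(4,1),(20,0),(0,0)]⟩),.k,(.r (-1) ⟨0,[(11,0),(2,0)]⟩ ⟨2,[(0,1),(3,1),(2,0),
  (5,1)]⟩),.k,⟨false,1,⟨0,[(6,0),(7,0)]⟩,⟨2,[(0,0),(3,0),(2,1),(5,0)]⟩⟩,⟨true,1,⟨0,[(1,1),(0,1),(22,
  2),(8,0),(4,1)]⟩,⟨0,[(0,0),(1,0),(4,0),(29,1)]⟩⟩,⟨false,0,⟨0,[]⟩,⟨1,[(18,0),(0,0),(19,0)]⟩⟩,
  ⟨false,1,⟨2,[(4,0),(18,2),(10,0),(0,0),(3,1)]⟩,⟨0,[(2,0),(34,1),(1,0)]⟩⟩,⟨true,0,⟨0,[(36,0)]⟩,⟨0,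
  [(37,0)]⟩⟩,⟨false,1,⟨2,[(1,2),(2,3),(20,2),(8,0),(0,0),(3,1)]⟩,⟨0,[(2,0),(34,2),(1,0)]⟩⟩,[.a
  ⟨true,0,⟨0,[(23,0)]⟩,⟨0,[(2,0),(34,0),(1,0)]⟩⟩ ⟨true,0,⟨0,[(1,0),(9,0)]⟩,⟨0,[(0,0)]⟩⟩ ⟨false,1,⟨8,
  [(1,3),(12,1),(8,4),(1,3),(8,2),(0,7),(3,3)]⟩,⟨5,[(0,1),(1,3),(8,1),(3,0),(15,0),(0,0),(4,5),(1,
  3)]⟩⟩,.o ⟨false,1,⟨1,[(23,1),(6,0),(8,0)]⟩,⟨0,[(3,0),(33,0)]⟩⟩,.o ⟨false,0,⟨1,[(25,0),(0,0)]⟩,⟨2,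
  [(12,0),(1,0),(15,0)]⟩⟩,.o ⟨false,0,⟨0,[(25,0),(0,0)]⟩,⟨0,[(1,1),(0,1),(22,1),(8,0),(4,1)]⟩⟩]⟩)
  (.I [0,0,0,-1,0,0,0,-1] (.S ⟨1,0,[0,1,1,0,0,0,0,1],[0,1,1],[1,0,1,1,0,0,0,1],(⟨0,[(29,0),(3,0)]⟩,
  ⟨0,[(17,0)]⟩),⟨0,[(29,0)]⟩,.k,.k,⟨true,0,⟨0,[]⟩,⟨0,[(42,0)]⟩⟩,⟨false,0,⟨0,[(38,0)]⟩,⟨3,[(5,1),(13,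
  0),(0,0),(18,0),(0,1)]⟩⟩,⟨false,1,⟨3,[(5,1),(13,0),(0,0),(18,0),(0,1)]⟩,⟨0,[(38,0)]⟩⟩,⟨true,0,⟨0,
  [(42,0)]⟩,⟨0,[]⟩⟩,[.a ⟨true,0,⟨0,[(24,0)]⟩,⟨0,[(3,0),(34,0),(1,0)]⟩⟩ ⟨true,0,⟨3,[(5,1),(2,3),(17,
  0),(0,0)]⟩,⟨0,[(0,0)]⟩⟩ ⟨false,0,⟨0,[(0,2),(0,2),(1,5),(2,9),(19,5),(8,1),(4,3)]⟩,⟨0,[(1,0),(5,0),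
  (32,0)]⟩⟩,.o ⟨false,1,⟨1,[(24,1),(6,0),(8,0)]⟩,⟨1,[(0,0),(3,0),(6,0)]⟩⟩,.o ⟨false,1,⟨2,[(1,1),(24,
  2),(8,0),(0,1),(3,1)]⟩,⟨0,[(27,0)]⟩⟩,.o ⟨false,1,⟨2,[(13,0),(1,0),(10,2),(4,0)]⟩,⟨0,[(11,0)]⟩⟩]⟩)
  (.Q [0,0,0,0,-1,0,-1,-1,1,0,-1,1] (.p false [0,0,1] [0,0,0,0,1] (⟨0,[(29,0)]⟩,⟨0,[(28,0)]⟩) .k 2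
  (⟨0,[(22,0)]⟩,⟨0,[(21,0)]⟩) .k (.r (-1) ⟨0,[(14,0),(25,0)]⟩ ⟨2,[(1,0),(5,0),(4,1),(21,0)]⟩)) (.Q
  [0,0,0,0,0,-1,0,0,0,0,0,1] (.ed false [1,-1,0,0,1] .k) (.S ⟨1,0,[0,0,1],[1,1,0,0,-1],[0,-1,1],(⟨0,
  [(23,0),(11,0)]⟩,⟨0,[(0,0)]⟩),⟨0,[(23,0)]⟩,(.r (-1) ⟨3,[(7,1),(13,1),(0,1),(5,0),(0,0),(12,1)]⟩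
  ⟨2,[(3,0),(32,0),(3,1)]⟩),.k,⟨true,0,⟨0,[(40,0)]⟩,⟨0,[(39,0)]⟩⟩,⟨false,0,⟨0,[(40,0)]⟩,⟨3,[(7,1),
  (13,0),(0,0),(18,0),(0,1)]⟩⟩,⟨false,1,⟨1,[(21,0),(0,0),(19,0)]⟩,⟨0,[]⟩⟩,⟨true,0,⟨0,[(44,0)]⟩,⟨0,
  []⟩⟩,[.o ⟨false,1,⟨0,[(21,0)]⟩,⟨2,[(1,1),(20,0),(3,1),(10,0),(4,0)]⟩⟩,.e ⟨false,1,⟨0,[(42,0)]⟩,⟨0,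
  [(36,0)]⟩⟩ ⟨false,1,⟨1,[(21,0),(0,0),(19,0)]⟩,⟨3,[(3,0),(32,0),(1,0)]⟩⟩,.a ⟨true,1,⟨0,[(4,0),(0,
  0),(15,0),(6,0),(13,0)]⟩,⟨0,[(1,0),(8,0),(17,0)]⟩⟩ ⟨false,1,⟨1,[(28,0),(0,0),(12,1)]⟩,⟨3,[(3,0),
  (32,0),(1,0)]⟩⟩ ⟨true,0,⟨1,[(28,0),(0,0)]⟩,⟨3,[(3,0),(32,0),(1,0)]⟩⟩,.o ⟨false,1,⟨0,[(21,0)]⟩,⟨2,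
  [(1,1),(20,0),(3,1),(10,0),(4,0)]⟩⟩]⟩) (.R ⟨0,false,false,false,[0,1,0,0,-1],[0,1],[0,0,2,1],(⟨0,
  [(0,0)]⟩,⟨0,[(24,0),(9,0)]⟩),(⟨0,[(35,0)]⟩,⟨0,[(34,0)]⟩),⟨0,[(24,0)]⟩,(.r (-1) ⟨3,[(7,1),(13,1),
  (0,1),(5,0),(0,0),(12,1)]⟩ ⟨2,[(3,0),(32,0),(3,1)]⟩),.k,.k,.k,.k,.k,⟨true,0,⟨1,[(28,0),(0,0)]⟩,⟨0,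
  []⟩⟩,⟨false,0,⟨1,[(1,0),(2,0),(17,0),(5,0),(9,0),(3,0)]⟩,⟨0,[(21,0)]⟩⟩,⟨false,0,⟨1,[(28,0),(0,
  0)]⟩,⟨1,[(41,0),(0,0)]⟩⟩,⟨true,(-1),⟨0,[(1,0),(24,0)]⟩,⟨0,[(21,0)]⟩⟩,⟨false,0,⟨0,[]⟩,⟨0,[]⟩⟩,
  ⟨false,0,⟨0,[]⟩,⟨0,[]⟩⟩,[.o ⟨false,1,⟨3,[(15,1),(5,0),(0,0),(10,0)]⟩,⟨0,[(40,0)]⟩⟩,.o ⟨false,1,⟨2,
  [(7,0),(29,0),(0,0),(3,1)]⟩,⟨0,[(40,0),(3,0)]⟩⟩,.o ⟨false,2,⟨2,[(15,0),(1,0),(3,2),(11,0)]⟩,⟨0,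
  [(1,0),(8,0),(17,0)]⟩⟩,.a ⟨true,1,⟨0,[(21,0)]⟩,⟨0,[(1,0),(2,0),(0,0),(4,0),(17,1),(13,0)]⟩⟩ ⟨true,
  0,⟨3,[(7,1),(20,0),(0,0)]⟩,⟨2,[(3,0),(32,0),(3,1)]⟩⟩ ⟨false,0,⟨5,[(1,4),(0,3),(1,0),(17,0),(5,4),
  (9,2),(3,4)]⟩,⟨0,[(21,0),(18,0)]⟩⟩]⟩)) (.Q [0,0,-1,0,0,0,0,0,-2,1,0,-2] (.p false [0,0,0,0,1] [1,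
  0,0,0,-1] (⟨0,[(23,0)]⟩,⟨0,[(22,0)]⟩) .k 2 (⟨0,[(22,0)]⟩,⟨0,[(23,0)]⟩) .k (.r 0 ⟨0,[(43,1)]⟩ ⟨0,
  [(41,0)]⟩)) (.Q [0,0,0,0,0,-1,0,0,0,0,0,1] (.ed false [1,-1,0,0,1] .k) (.S ⟨1,0,[0,-1,1],[1,1,0,0,
  -1],[1,0,1,1],(⟨0,[(24,0),(11,0)]⟩,⟨0,[(0,0)]⟩),⟨0,[(24,0)]⟩,(.r (-1) ⟨17,[(2,7),(5,3),(1,7),(5,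
  0),(2,0),(3,7),(6,5),(12,8)]⟩ ⟨2,[(4,0),(32,0),(3,1)]⟩),.k,⟨false,0,⟨0,[]⟩,⟨1,[(22,0),(0,0),(19,
  0)]⟩⟩,⟨true,0,⟨0,[(41,0)]⟩,⟨0,[(40,0)]⟩⟩,⟨true,0,⟨0,[(40,0)]⟩,⟨0,[(41,0)]⟩⟩,⟨false,1,⟨1,[(22,0),
  (0,0),(19,0)]⟩,⟨0,[]⟩⟩,[.o ⟨false,1,⟨19,[(1,5),(0,2),(12,2),(6,4),(7,2),(7,1),(4,9)]⟩,⟨1,[(6,0),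
  (16,1),(3,0),(10,0),(2,0)]⟩⟩,.e ⟨false,1,⟨11,[(2,1),(5,3),(1,1),(5,0),(2,0),(3,1),(18,2),(0,5)]⟩,
  ⟨2,[(4,0),(32,0),(3,1)]⟩⟩ ⟨false,1,⟨0,[(43,0)]⟩,⟨0,[(37,0)]⟩⟩,.a ⟨true,0,⟨0,[(1,0),(21,0)]⟩,⟨1,
  [(23,1),(5,0),(0,0)]⟩⟩ ⟨true,0,⟨3,[(8,1),(20,0),(0,0)]⟩,⟨2,[(4,0),(32,0),(3,1)]⟩⟩ ⟨false,1,⟨1,
  [(29,0),(0,0),(12,1)]⟩,⟨3,[(4,0),(32,0),(1,0)]⟩⟩,.e ⟨false,1,⟨11,[(2,1),(5,3),(1,1),(5,0),(2,0),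
  (3,1),(18,2),(0,5)]⟩,⟨0,[(41,0)]⟩⟩ ⟨false,1,⟨0,[(43,0)]⟩,⟨0,[(45,0)]⟩⟩]⟩) (.R ⟨0,false,false,
  false,[0,0,0,0,1],[0,0,1,0,1],[1,1,0,0,0,0,0,1],(⟨0,[(25,0)]⟩,⟨0,[(24,0)]⟩),(⟨0,[(25,0),(6,0)]⟩,
  ⟨0,[(0,0),(19,0)]⟩),⟨0,[(0,0)]⟩,.k,.k,(.r 0 ⟨2,[(4,0),(32,0),(3,1)]⟩ ⟨17,[(2,7),(5,3),(1,7),(5,0),
  (2,0),(3,7),(6,5),(12,8)]⟩),.k,.k,.k,⟨true,0,⟨0,[]⟩,⟨1,[(29,0),(0,0)]⟩⟩,⟨false,1,⟨0,[(29,0),(12,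
  0)]⟩,⟨0,[(14,0)]⟩⟩,⟨true,0,⟨0,[(11,0)]⟩,⟨2,[(4,0),(5,0),(4,1),(21,0)]⟩⟩,⟨false,1,⟨0,[(27,0),(15,
  0)]⟩,⟨0,[(7,0),(33,0)]⟩⟩,⟨false,0,⟨0,[]⟩,⟨0,[]⟩⟩,⟨false,0,⟨0,[]⟩,⟨0,[]⟩⟩,[.e ⟨false,0,⟨0,[(12,
  0)]⟩,⟨1,[(15,1),(26,0),(0,0)]⟩⟩ ⟨false,0,⟨0,[(3,0),(0,0),(24,0)]⟩,⟨0,[(28,0),(14,0)]⟩⟩,.o ⟨false,
  1,⟨2,[(2,0),(20,3),(3,1),(10,0),(4,0)]⟩,⟨3,[(1,1),(4,3),(22,0),(0,0),(7,1),(2,3),(1,1)]⟩⟩,.a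
  ⟨true,0,⟨0,[(23,0)]⟩,⟨3,[(1,1),(17,0),(9,1),(5,0),(0,0)]⟩⟩ ⟨false,0,⟨0,[(11,0)]⟩,⟨1,[(15,1),(26,
  0),(0,0)]⟩⟩ ⟨true,0,⟨0,[(27,0)]⟩,⟨0,[(7,0),(33,0)]⟩⟩,.e ⟨true,0,⟨0,[(12,0)]⟩,⟨0,[(15,0)]⟩⟩ ⟨true,
  0,⟨0,[(3,0),(0,0),(24,0)]⟩,⟨1,[(7,0),(7,0),(14,0),(10,0)]⟩⟩]⟩)) (.Q [0,-1,0,0,1,0,1,1,-1,0,1,-1]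
  (.p true [0,0,1] [0,0,0,0,1] (⟨0,[(31,0)]⟩,⟨0,[(30,0)]⟩) .k 2 (⟨0,[(24,0)]⟩,⟨0,[(23,0)]⟩) .k (.r
  (-1) ⟨8,[(0,1),(0,3),(0,0),(1,0),(5,2),(7,1),(23,4)]⟩ ⟨2,[(3,0),(5,0),(4,1),(21,0)]⟩)) (.Q [0,0,0,
  0,0,-1,0,0,0,-1,1,1] (.p true [0,0,1] [1,0,0,0,-1] (⟨0,[(32,0)]⟩,⟨0,[(31,0)]⟩) .k 2 (⟨0,[(24,0)]⟩,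
  ⟨0,[(25,0)]⟩) .k (.r 0 ⟨0,[(4,2),(1,5),(2,6),(19,5),(8,1),(2,2),(1,3)]⟩ ⟨1,[(15,1),(26,0),(0,
  0)]⟩)) (.Q [0,0,1,0,0,0,0,0,1,-1,0,1] (.p true [0,0,0,0,1] [1] (⟨0,[(26,0)]⟩,⟨0,[(25,0)]⟩) .k 1
  (⟨0,[]⟩,⟨0,[]⟩) .k .k) (.S ⟨1,0,[0,1,0,-1],[0,0,0,0,1],[1,2],(⟨0,[(27,0)]⟩,⟨0,[(26,0)]⟩),⟨1,[(1,
  0),(20,0),(4,0)]⟩,.k,(.r 0 ⟨2,[(6,0),(32,0),(3,1)]⟩ ⟨3,[(3,0),(0,1),(5,0),(1,1),(8,0),(23,1)]⟩),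
  ⟨false,0,⟨0,[]⟩,⟨1,[(24,0),(0,0),(19,0)]⟩⟩,⟨true,0,⟨0,[(43,0)]⟩,⟨0,[(42,0)]⟩⟩,⟨true,0,⟨0,[(42,
  0)]⟩,⟨0,[(43,0)]⟩⟩,⟨false,1,⟨1,[(24,0),(0,0),(19,0)]⟩,⟨0,[]⟩⟩,[.o ⟨false,0,⟨2,[(0,2),(5,0),(32,0),
  (3,1)]⟩,⟨0,[(2,0),(6,0)]⟩⟩,.a ⟨true,0,⟨0,[(25,0),(17,0)]⟩,⟨0,[(2,0),(5,0)]⟩⟩ ⟨false,0,⟨3,[(6,0),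
  (32,0),(1,0)]⟩,⟨1,[(24,0),(0,0),(19,0)]⟩⟩ ⟨true,0,⟨0,[(43,0)]⟩,⟨3,[(10,1),(20,0),(0,0)]⟩⟩,.e
  ⟨false,0,⟨0,[(47,0)]⟩,⟨0,[(45,0)]⟩⟩ ⟨false,0,⟨0,[(43,0)]⟩,⟨11,[(4,1),(5,3),(1,1),(5,0),(2,0),(3,
  1),(18,2),(0,5)]⟩⟩,.o ⟨false,0,⟨0,[(0,0)]⟩,⟨1,[(2,0),(3,0),(2,0),(14,0)]⟩⟩]⟩) (.S ⟨1,0,[0,-1,1],
  [1,1,0,0,-1],[1,0,1,1],(⟨0,[(26,0),(11,0)]⟩,⟨1,[(1,0),(20,0),(4,0)]⟩),⟨0,[(26,0)]⟩,(.r (-1) ⟨3,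
  [(3,0),(0,1),(5,0),(1,1),(8,0),(23,1)]⟩ ⟨2,[(6,0),(32,0),(3,1)]⟩),.k,⟨false,0,⟨0,[]⟩,⟨1,[(24,0),
  (0,0),(19,0)]⟩⟩,⟨true,0,⟨0,[(43,0)]⟩,⟨0,[(42,0)]⟩⟩,⟨true,0,⟨0,[(42,0)]⟩,⟨0,[(43,0)]⟩⟩,⟨false,1,⟨1,
  [(24,0),(0,0),(19,0)]⟩,⟨0,[]⟩⟩,[.o ⟨false,1,⟨10,[(0,5),(1,2),(14,2),(6,1),(7,2),(7,1),(4,3)]⟩,⟨11,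
  [(3,5),(2,1),(1,2),(20,2),(9,1),(0,2),(2,0)]⟩⟩,.e ⟨false,1,⟨11,[(4,1),(5,3),(1,1),(5,0),(2,0),(3,
  1),(18,2),(0,5)]⟩,⟨2,[(6,0),(32,0),(3,1)]⟩⟩ ⟨false,1,⟨0,[(45,0)]⟩,⟨0,[(39,0)]⟩⟩,.a ⟨true,0,⟨0,[(0,
  0)]⟩,⟨2,[(3,0),(17,0),(3,0),(5,1)]⟩⟩ ⟨true,0,⟨3,[(10,1),(20,0),(0,0)]⟩,⟨2,[(6,0),(32,0),(3,1)]⟩⟩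
  ⟨false,1,⟨1,[(31,0),(0,0),(12,1)]⟩,⟨3,[(6,0),(32,0),(1,0)]⟩⟩,.e ⟨false,1,⟨11,[(4,1),(5,3),(1,1),
  (5,0),(2,0),(3,1),(18,2),(0,5)]⟩,⟨0,[(43,0)]⟩⟩ ⟨false,1,⟨0,[(45,0)]⟩,⟨0,[(47,0)]⟩⟩]⟩)) (.Q [0,0,0,
  0,0,0,0,0,0,0,1,-1] (.ed true [1,0,-1,0,1] (.r 0 ⟨2,[(5,0),(5,0),(4,1),(21,0)]⟩ ⟨7,[(1,5),(0,2),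
  (1,1),(14,0),(0,2),(23,0)]⟩)) (.Q [0,0,0,0,0,-1,0,0,0,0,1,-1] (.p false [1,0,-1,0,1] [1] (⟨0,[(27,
  0),(5,0)]⟩,⟨0,[(0,0)]⟩) .k 1 (⟨0,[]⟩,⟨0,[]⟩) .k (.r 0 ⟨2,[(6,0),(5,0),(4,1),(21,0)]⟩ ⟨7,[(2,5),(0,
  2),(1,1),(14,0),(0,2),(23,0)]⟩)) (.Q [0,0,-1,0,0,0,-1,0,1,0,-1,1] (.p true [1,0,-1,0,1] [1] (⟨0,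
  [(28,0),(5,0)]⟩,⟨0,[(1,0)]⟩) .k 1 (⟨0,[]⟩,⟨0,[]⟩) .k (.r 0 ⟨2,[(7,0),(5,0),(4,1),(21,0)]⟩ ⟨7,[(3,
  5),(0,2),(1,1),(14,0),(0,2),(23,0)]⟩)) (.S ⟨1,0,[0,-1,0,-1,0,0,0,1],[0,0,1,0,-1],[1,0,0,0,0,0,0,
  1],(⟨0,[(2,0)]⟩,⟨0,[(29,0),(5,0)]⟩),⟨0,[(1,0)]⟩,.k,(.r (-1) ⟨7,[(4,1),(0,0),(9,5),(6,2),(0,0),(21,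
  1),(1,2)]⟩ ⟨0,[(14,0),(34,0)]⟩),⟨false,0,⟨0,[]⟩,⟨1,[(26,0),(0,0),(19,0)]⟩⟩,⟨true,0,⟨0,[(45,0)]⟩,
  ⟨0,[(44,0)]⟩⟩,⟨true,0,⟨0,[(44,0)]⟩,⟨0,[(45,0)]⟩⟩,⟨false,1,⟨1,[(26,0),(0,0),(19,0)]⟩,⟨0,[]⟩⟩,[.a
  ⟨true,1,⟨0,[(4,0),(40,0)]⟩,⟨0,[(10,0),(16,0)]⟩⟩ ⟨true,0,⟨0,[(15,0)]⟩,⟨0,[(19,0)]⟩⟩ ⟨false,1,⟨7,
  [(4,1),(0,0),(9,5),(6,2),(0,0),(21,1),(1,2)]⟩,⟨3,[(8,0),(5,3),(26,0),(1,0)]⟩⟩,.o ⟨false,2,⟨35,[(4,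
  35),(0,2),(16,0),(3,5),(15,10),(2,33),(1,17)]⟩,⟨11,[(5,5),(2,1),(1,14),(20,2),(9,1),(0,2),(2,
  0)]⟩⟩,.o ⟨false,1,⟨1,[(4,1),(3,0),(1,0),(8,0),(13,0),(8,0)]⟩,⟨2,[(0,0),(4,0),(17,0)]⟩⟩,.o ⟨false,
  1,⟨1,[(4,0),(1,0),(3,0),(8,0),(13,0),(8,0),(2,0)]⟩,⟨0,[(0,0)]⟩⟩]⟩) (.K ⟨0,[0,0,1,0,-1],0,1,(⟨0,
  [(2,0)]⟩,⟨0,[(29,0),(5,0)]⟩),.k,(.r (-1) ⟨7,[(4,1),(0,0),(9,5),(6,2),(0,0),(21,1),(1,2)]⟩ ⟨0,[(14,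
  0),(34,0)]⟩),(.r (-1) ⟨1,[(4,1),(0,0),(6,0),(10,0)]⟩ ⟨0,[(8,0),(10,0)]⟩),.k,.k,[⟨0,[(27,0)]⟩,⟨0,
  [(0,0)]⟩,⟨14,[(0,2),(4,8),(2,0),(0,2),(0,17),(30,3),(0,2),(2,13)]⟩,⟨0,[(6,0)]⟩]⟩)) (.Q [0,0,-1,0,
  0,0,-1,0,1,0,-1,1] (.p true [1,0,-1,0,1] [1] (⟨0,[(28,0),(5,0)]⟩,⟨0,[(1,0)]⟩) .k 1 (⟨0,[]⟩,⟨0,
  []⟩) .k (.r 0 ⟨2,[(7,0),(5,0),(4,1),(21,0)]⟩ ⟨7,[(3,5),(0,2),(1,1),(14,0),(0,2),(23,0)]⟩)) (.R ⟨0,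
  false,false,true,[0,0,1,0,-1],[1,0,0,0,-1],[1,0,0,0,0,0,0,1],(⟨0,[(2,0)]⟩,⟨0,[(29,0),(5,0)]⟩),(⟨0,
  [(28,0)]⟩,⟨0,[(29,0)]⟩),⟨0,[(1,0)]⟩,.k,.k,(.r (-1) ⟨7,[(4,1),(0,0),(9,5),(6,2),(0,0),(21,1),(1,
  2)]⟩ ⟨0,[(14,0),(34,0)]⟩),.k,.k,.k,⟨true,0,⟨0,[(15,0)]⟩,⟨0,[(19,0)]⟩⟩,⟨false,0,⟨0,[(30,0)]⟩,⟨2,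
  [(20,0),(1,0),(10,2),(4,0)]⟩⟩,⟨false,0,⟨0,[]⟩,⟨1,[(26,0),(0,0),(19,0)]⟩⟩,⟨true,(-1),⟨0,[(10,0),
  (34,0)]⟩,⟨6,[(4,2),(0,1),(0,0),(24,2),(6,0),(3,0),(3,0)]⟩⟩,⟨false,0,⟨0,[]⟩,⟨0,[]⟩⟩,⟨false,0,⟨0,
  []⟩,⟨0,[]⟩⟩,[.a ⟨true,0,⟨0,[(4,0),(5,0),(34,0)]⟩,⟨0,[(27,0)]⟩⟩ ⟨true,0,⟨0,[(15,0)]⟩,⟨0,[(19,0)]⟩⟩
  ⟨false,0,⟨0,[(30,0)]⟩,⟨2,[(20,0),(1,0),(10,2),(4,0)]⟩⟩,.o ⟨false,1,⟨0,[(4,0),(6,0),(33,0)]⟩,⟨11,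
  [(5,5),(2,1),(1,2),(20,2),(9,1),(0,2),(2,0)]⟩⟩,.o ⟨false,1,⟨1,[(4,1),(3,0),(1,0),(8,0),(13,0),(8,
  0)]⟩,⟨2,[(0,0),(4,0),(17,0)]⟩⟩,.o ⟨false,1,⟨1,[(4,0),(1,0),(3,0),(8,0),(13,0),(8,0),(2,0)]⟩,⟨0,
  [(0,0)]⟩⟩]⟩) (.K ⟨0,[0,0,1,0,-1],0,1,(⟨0,[(2,0)]⟩,⟨0,[(29,0),(5,0)]⟩),.k,(.r (-1) ⟨7,[(4,1),(0,0),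
  (9,5),(6,2),(0,0),(21,1),(1,2)]⟩ ⟨0,[(14,0),(34,0)]⟩),(.r (-1) ⟨1,[(4,1),(0,0),(6,0),(10,0)]⟩ ⟨0,
  [(8,0),(10,0)]⟩),.k,.k,[⟨0,[(27,0)]⟩,⟨0,[(0,0)]⟩,⟨14,[(0,2),(4,8),(2,0),(0,2),(0,17),(30,3),(0,2),
  (2,13)]⟩,⟨0,[(6,0)]⟩]⟩))) (.Q [0,0,1,0,0,0,0,0,1,-1,0,1] (.p true [0,0,0,0,1] [1] (⟨0,[(27,0)]⟩,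
  ⟨0,[(26,0)]⟩) .k 1 (⟨0,[]⟩,⟨0,[]⟩) .k .k) (.S ⟨1,0,[0,1,0,-1],[0,0,0,0,1],[1,2],(⟨0,[(28,0)]⟩,⟨0,
  [(27,0)]⟩),⟨0,[(1,0),(22,0)]⟩,.k,(.r 0 ⟨2,[(7,0),(32,0),(3,1)]⟩ ⟨3,[(4,0),(0,1),(5,0),(1,1),(8,0),
  (23,1)]⟩),⟨false,0,⟨0,[]⟩,⟨1,[(25,0),(0,0),(19,0)]⟩⟩,⟨true,0,⟨0,[(44,0)]⟩,⟨0,[(43,0)]⟩⟩,⟨true,0,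
  ⟨0,[(43,0)]⟩,⟨0,[(44,0)]⟩⟩,⟨false,1,⟨1,[(25,0),(0,0),(19,0)]⟩,⟨0,[]⟩⟩,[.o ⟨false,0,⟨2,[(0,2),(6,
  0),(32,0),(3,1)]⟩,⟨0,[(3,0),(6,0)]⟩⟩,.a ⟨true,0,⟨0,[(26,0),(17,0)]⟩,⟨0,[(3,0),(5,0)]⟩⟩ ⟨false,0,
  ⟨3,[(7,0),(32,0),(1,0)]⟩,⟨1,[(25,0),(0,0),(19,0)]⟩⟩ ⟨true,0,⟨0,[(44,0)]⟩,⟨3,[(11,1),(20,0),(0,
  0)]⟩⟩,.e ⟨false,0,⟨0,[(48,0)]⟩,⟨0,[(46,0)]⟩⟩ ⟨false,0,⟨0,[(44,0)]⟩,⟨11,[(5,1),(5,3),(1,1),(5,0),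
  (2,0),(3,1),(18,2),(0,5)]⟩⟩,.o ⟨false,0,⟨0,[(0,0)]⟩,⟨1,[(3,0),(3,0),(2,0),(14,0)]⟩⟩]⟩) (.S ⟨1,0,
  [0,-1,1],[1,1,0,0,-1],[1,0,1,1],(⟨0,[(27,0),(11,0)]⟩,⟨0,[(1,0),(22,0)]⟩),⟨0,[(27,0)]⟩,(.r (-1) ⟨3,
  [(4,0),(0,1),(5,0),(1,1),(8,0),(23,1)]⟩ ⟨2,[(7,0),(32,0),(3,1)]⟩),.k,⟨false,0,⟨0,[]⟩,⟨1,[(25,0),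
  (0,0),(19,0)]⟩⟩,⟨true,0,⟨0,[(44,0)]⟩,⟨0,[(43,0)]⟩⟩,⟨true,0,⟨0,[(43,0)]⟩,⟨0,[(44,0)]⟩⟩,⟨false,1,⟨1,
  [(25,0),(0,0),(19,0)]⟩,⟨0,[]⟩⟩,[.o ⟨false,1,⟨10,[(0,5),(2,2),(14,2),(6,1),(7,2),(7,1),(4,3)]⟩,⟨11,
  [(4,5),(2,1),(1,2),(20,2),(9,1),(0,2),(2,0)]⟩⟩,.e ⟨false,1,⟨11,[(5,1),(5,3),(1,1),(5,0),(2,0),(3,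
  1),(18,2),(0,5)]⟩,⟨2,[(7,0),(32,0),(3,1)]⟩⟩ ⟨false,1,⟨0,[(46,0)]⟩,⟨0,[(40,0)]⟩⟩,.a ⟨true,0,⟨0,[(0,
  0)]⟩,⟨2,[(4,0),(17,0),(3,0),(5,1)]⟩⟩ ⟨true,0,⟨3,[(11,1),(20,0),(0,0)]⟩,⟨2,[(7,0),(32,0),(3,1)]⟩⟩
  ⟨false,1,⟨1,[(32,0),(0,0),(12,1)]⟩,⟨3,[(7,0),(32,0),(1,0)]⟩⟩,.e ⟨false,1,⟨11,[(5,1),(5,3),(1,1),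
  (5,0),(2,0),(3,1),(18,2),(0,5)]⟩,⟨0,[(44,0)]⟩⟩ ⟨false,1,⟨0,[(46,0)]⟩,⟨0,[(48,0)]⟩⟩]⟩)))) (.Q [0,2,
  0,0,-1,0,1,1,1,-1,1,1] (.p true [0,0,1] [1,0,0,0,-1] (⟨0,[(32,0)]⟩,⟨0,[(31,0)]⟩) .k 2 (⟨0,[(24,
  0)]⟩,⟨0,[(25,0)]⟩) .k (.r 0 ⟨0,[(4,2),(1,5),(2,6),(19,5),(8,1),(2,2),(1,3)]⟩ ⟨1,[(15,1),(26,0),(0,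
  0)]⟩)) (.Q [0,0,-1,0,0,0,0,0,1,-1,0,1] (.p true [0,0,0,0,1] [1] (⟨0,[(26,0)]⟩,⟨0,[(25,0)]⟩) .k 1
  (⟨0,[]⟩,⟨0,[]⟩) .k .k) (.Q [0,0,0,0,0,-2,0,0,0,1,0,-1] (.p false [0,0,0,0,1] [1] (⟨0,[(27,0)]⟩,⟨0,
  [(26,0)]⟩) .k 1 (⟨0,[]⟩,⟨0,[]⟩) .k .k) (.S ⟨1,0,[0,-1,0,-1],[1,0,0,0,-1],[1],(⟨0,[(27,0)]⟩,⟨0,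
  [(28,0)]⟩),⟨1,[(0,0),(26,0)]⟩,.k,(.r (-1) ⟨17,[(4,0),(0,1),(12,1),(2,6),(0,0),(21,3),(1,8)]⟩ ⟨3,
  [(11,1),(20,0),(0,0),(14,3)]⟩),⟨false,0,⟨0,[]⟩,⟨1,[(25,0),(0,0),(19,0)]⟩⟩,⟨true,0,⟨0,[(44,0)]⟩,⟨0,
  [(43,0)]⟩⟩,⟨true,0,⟨0,[(43,0)]⟩,⟨0,[(44,0)]⟩⟩,⟨false,1,⟨1,[(25,0),(0,0),(19,0)]⟩,⟨0,[]⟩⟩,[.a
  ⟨true,1,⟨0,[(5,0),(3,0),(34,1),(1,0)]⟩,⟨0,[(2,0),(6,0),(36,0)]⟩⟩ ⟨true,0,⟨0,[]⟩,⟨1,[(32,0),(0,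
  0)]⟩⟩ ⟨false,1,⟨17,[(4,0),(0,1),(12,1),(2,6),(0,0),(21,3),(1,8)]⟩,⟨0,[(43,0)]⟩⟩,.o ⟨false,2,⟨0,
  [(25,0),(18,0),(1,0)]⟩,⟨14,[(1,0),(0,8),(0,4),(5,3),(1,3),(29,2),(0,2)]⟩⟩,.o ⟨false,1,⟨0,[(25,
  0)]⟩,⟨6,[(1,0),(0,1),(0,1),(0,0),(36,0),(4,2)]⟩⟩,.o ⟨false,1,⟨1,[(5,0),(12,0),(6,0),(7,0)]⟩,⟨0,
  [(1,0)]⟩⟩]⟩) (.Q [0,0,0,0,1,0,1,0,-1,0,1,-1] (.p true [0,0,1] [0,0,0,0,1] (⟨0,[(35,0)]⟩,⟨0,[(34,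
  0)]⟩) .k 2 (⟨0,[(28,0)]⟩,⟨0,[(27,0)]⟩) .k (.r (-1) ⟨8,[(4,1),(0,3),(0,0),(1,0),(5,2),(7,1),(23,
  4)]⟩ ⟨2,[(7,0),(5,0),(4,1),(21,0)]⟩)) (.Q [0,0,-1,0,1,0,0,0,-1,0,0,-1] (.p false [0,0,0,0,1] []
  (⟨0,[(29,0)]⟩,⟨0,[(28,0)]⟩) .k 0 (⟨0,[]⟩,⟨0,[]⟩) .k .k) (.S ⟨1,0,[0,2,0,-1],[0,0,0,0,1],[1,1],(⟨0,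
  [(30,0)]⟩,⟨0,[(29,0)]⟩),⟨2,[(2,0),(8,0),(2,0),(15,1),(3,0),(3,4),(5,0),(1,1),(1,0)]⟩,.k,(.r 0 ⟨2,
  [(9,0),(32,0),(3,1)]⟩ ⟨7,[(1,3),(4,1),(6,3),(10,1),(9,0),(0,0),(12,3)]⟩),⟨true,0,⟨0,[]⟩,⟨0,[(50,
  0)]⟩⟩,⟨false,0,⟨0,[(46,0)]⟩,⟨9,[(1,1),(11,3),(7,0),(2,0),(3,1),(18,1),(0,4)]⟩⟩,⟨false,1,⟨9,[(1,1),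
  (11,3),(7,0),(2,0),(3,1),(18,1),(0,4)]⟩,⟨0,[(46,0)]⟩⟩,⟨true,0,⟨0,[(50,0)]⟩,⟨0,[]⟩⟩,[.o ⟨false,
  (-1),⟨5,[(4,3),(0,1),(5,0),(21,0),(9,0),(2,6)]⟩,⟨1,[(0,0),(12,0),(13,0),(20,1)]⟩⟩,.a ⟨true,(-1),
  ⟨0,[(4,0),(6,0),(34,1),(1,0)]⟩,⟨0,[(7,0),(3,0),(36,0)]⟩⟩ ⟨true,0,⟨0,[]⟩,⟨1,[(34,0),(0,0)]⟩⟩
  ⟨false,0,⟨2,[(9,0),(32,0),(3,1)]⟩,⟨9,[(1,1),(11,3),(7,0),(2,0),(3,1),(18,1),(0,4)]⟩⟩,.o ⟨false,0,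
  ⟨6,[(3,0),(0,1),(0,1),(0,0),(36,0),(4,2)]⟩,⟨0,[(27,0)]⟩⟩,.o ⟨false,0,⟨11,[(4,3),(0,3),(0,1),(27,
  4),(0,4),(7,1),(4,5)]⟩,⟨0,[(0,0)]⟩⟩]⟩) (.K ⟨0,[0,0,0,0,1],(-1),(-1),(⟨0,[(30,0)]⟩,⟨0,[(29,0)]⟩),
  .k,(.r 0 ⟨2,[(9,0),(32,0),(3,1)]⟩ ⟨7,[(1,3),(4,1),(6,3),(10,1),(9,0),(0,0),(12,3)]⟩),(.r 0 ⟨3,
  [(13,1),(20,0),(0,0),(14,3)]⟩ ⟨13,[(1,1),(4,0),(16,4),(0,0),(21,3),(1,6)]⟩),.k,.k,[⟨0,[(1,0)]⟩,⟨0,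
  [(0,0)]⟩,⟨0,[(27,0)]⟩,⟨0,[(5,0),(26,0)]⟩]⟩)) (.S ⟨1,0,[0,1,0,-1],[0,0,0,0,1],[1,2],(⟨0,[(29,0)]⟩,
  ⟨0,[(28,0)]⟩),⟨2,[(1,0),(8,0),(2,0),(15,1),(3,0),(3,4),(5,0),(1,1),(1,0)]⟩,.k,(.r 0 ⟨2,[(8,0),(32,
  0),(3,1)]⟩ ⟨3,[(5,0),(0,1),(5,0),(1,1),(8,0),(23,1)]⟩),⟨false,0,⟨0,[]⟩,⟨1,[(26,0),(0,0),(19,0)]⟩⟩,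
  ⟨true,0,⟨0,[(45,0)]⟩,⟨0,[(44,0)]⟩⟩,⟨true,0,⟨0,[(44,0)]⟩,⟨0,[(45,0)]⟩⟩,⟨false,1,⟨1,[(26,0),(0,0),
  (19,0)]⟩,⟨0,[]⟩⟩,[.e ⟨false,0,⟨0,[(41,0)]⟩,⟨0,[(47,0)]⟩⟩ ⟨false,0,⟨2,[(8,0),(32,0),(3,1)]⟩,⟨11,
  [(6,1),(5,3),(1,1),(5,0),(2,0),(3,1),(18,2),(0,5)]⟩⟩,.o ⟨false,0,⟨7,[(0,0),(1,2),(2,1),(27,0),(8,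
  0),(2,7)]⟩,⟨0,[(6,0),(4,0)]⟩⟩,.o ⟨false,0,⟨16,[(0,1),(1,5),(0,0),(1,3),(13,0),(13,0),(8,1),(4,
  0)]⟩,⟨0,[(26,0)]⟩⟩,.a ⟨true,(-1),⟨0,[(0,0),(32,0)]⟩,⟨2,[(6,1),(3,1),(11,0),(3,0),(12,0),(0,0),(6,
  0)]⟩⟩ ⟨false,0,⟨3,[(8,0),(32,0),(1,0)]⟩,⟨1,[(33,0),(0,0),(12,1)]⟩⟩ ⟨true,0,⟨2,[(8,0),(32,0),(3,
  1)]⟩,⟨3,[(12,1),(20,0),(0,0)]⟩⟩]⟩))) (.Q [0,0,0,0,0,-1,0,0,0,0,0,1] (.ed false [1,-1,0,0,1] .k)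
  (.S ⟨1,0,[0,2,0,-1],[0,0,0,0,1],[1,1],(⟨0,[(28,0)]⟩,⟨0,[(27,0)]⟩),⟨0,[(0,0)]⟩,.k,(.r 0 ⟨2,[(7,0),
  (32,0),(3,1)]⟩ ⟨3,[(1,2),(2,0),(14,1),(6,0),(19,1)]⟩),⟨true,0,⟨0,[]⟩,⟨0,[(48,0)]⟩⟩,⟨false,0,⟨0,
  [(44,0)]⟩,⟨3,[(1,0),(9,0),(7,0),(6,0),(18,0),(0,1)]⟩⟩,⟨false,1,⟨3,[(1,0),(9,0),(7,0),(6,0),(18,0),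
  (0,1)]⟩,⟨0,[(44,0)]⟩⟩,⟨true,0,⟨0,[(48,0)]⟩,⟨0,[]⟩⟩,[.o ⟨false,(-1),⟨10,[(1,1),(0,6),(0,5),(3,0),
  (23,0),(9,1),(2,9)]⟩,⟨0,[(5,0),(4,0),(35,0)]⟩⟩,.a ⟨true,(-1),⟨0,[(2,0),(6,0),(34,1),(1,0)]⟩,⟨0,
  [(1,0),(40,0),(3,0)]⟩⟩ ⟨true,0,⟨0,[]⟩,⟨1,[(32,0),(0,0)]⟩⟩ ⟨false,0,⟨2,[(7,0),(32,0),(3,1)]⟩,⟨3,
  [(1,0),(9,0),(7,0),(6,0),(18,0),(0,1)]⟩⟩,.o ⟨false,0,⟨23,[(2,9),(0,9),(0,1),(36,3),(3,0),(0,14)]⟩,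
  ⟨0,[(25,0)]⟩⟩,.o ⟨false,0,⟨11,[(2,3),(0,3),(0,1),(27,4),(0,4),(7,1),(4,5)]⟩,⟨2,[(1,2),(5,1),(33,
  0),(0,1),(3,1)]⟩⟩]⟩) (.R ⟨0,false,false,false,[0,0,0,0,1],[1,0,-1,0,1],[0,1,1,0,0,0,0,-1],(⟨0,
  [(28,0)]⟩,⟨0,[(27,0)]⟩),(⟨0,[(28,0),(5,0)]⟩,⟨0,[(0,0),(23,0)]⟩),⟨0,[(0,0)]⟩,.k,.k,(.r 0 ⟨2,[(7,0),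
  (32,0),(3,1)]⟩ ⟨3,[(1,2),(2,0),(14,1),(6,0),(19,1)]⟩),.k,.k,.k,⟨true,0,⟨1,[(32,0),(0,0)]⟩,⟨0,[]⟩⟩,
  ⟨false,0,⟨0,[(29,0)]⟩,⟨2,[(19,0),(1,0),(10,2),(4,0)]⟩⟩,⟨true,0,⟨0,[(18,0)]⟩,⟨0,[(15,0)]⟩⟩,⟨false,
  0,⟨0,[(9,0),(34,0),(1,0)]⟩,⟨13,[(2,3),(1,2),(0,9),(13,0),(1,0),(19,1),(4,3)]⟩⟩,⟨false,0,⟨0,[]⟩,⟨0,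
  []⟩⟩,⟨false,0,⟨0,[]⟩,⟨0,[]⟩⟩,[.o ⟨false,(-1),⟨0,[(3,0)]⟩,⟨1,[(5,1),(31,0),(8,0)]⟩⟩,.a ⟨true,(-1),
  ⟨0,[(2,0),(6,1),(34,1),(1,1)]⟩,⟨0,[(5,0)]⟩⟩ ⟨true,0,⟨0,[(18,0)]⟩,⟨0,[(14,0)]⟩⟩ ⟨false,0,⟨2,[(9,1),
  (8,0),(2,0),(7,0),(16,0)]⟩,⟨13,[(2,3),(1,2),(0,9),(13,0),(1,0),(19,1),(4,3)]⟩⟩,.o ⟨false,0,⟨23,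
  [(2,9),(0,9),(0,1),(36,3),(3,0),(0,14)]⟩,⟨0,[(25,0)]⟩⟩,.o ⟨false,0,⟨11,[(2,3),(0,3),(0,1),(27,4),
  (0,4),(7,1),(4,5)]⟩,⟨2,[(1,2),(5,1),(33,0),(0,1),(3,1)]⟩⟩]⟩))) (.Q [0,0,0,0,0,0,0,0,1,-1,0,1] (.p
  true [0,0,0,0,1] [1] (⟨0,[(26,0)]⟩,⟨0,[(25,0)]⟩) .k 1 (⟨0,[]⟩,⟨0,[]⟩) .k .k) (.Q [0,-1,0,0,1,0,0,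
  0,-1,0,0,-1] (.p false [0,0,0,0,1] [] (⟨0,[(27,0)]⟩,⟨0,[(26,0)]⟩) .k 0 (⟨0,[]⟩,⟨0,[]⟩) .k .k) (.R
  ⟨1,false,false,false,[0,0,1],[0,0,0,0,1],[1,1,0,0,0,0,0,1],(⟨0,[(35,0)]⟩,⟨0,[(34,0)]⟩),(⟨0,[(28,
  0)]⟩,⟨0,[(27,0)]⟩),⟨0,[(24,0)]⟩,.k,.k,.k,.k,(.r (-1) ⟨13,[(4,0),(0,1),(8,11),(6,4),(0,0),(21,3),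
  (1,6)]⟩ ⟨0,[(13,0),(34,0)]⟩),.k,⟨true,0,⟨0,[(14,0)]⟩,⟨0,[(18,0)]⟩⟩,⟨false,0,⟨0,[(1,0),(27,0)]⟩,⟨1,
  [(0,0),(4,0),(1,0),(5,0),(18,0)]⟩⟩,⟨false,0,⟨0,[]⟩,⟨5,[(2,1),(1,1),(0,1),(39,0),(0,0)]⟩⟩,⟨true,
  (-1),⟨0,[(3,0)]⟩,⟨0,[(5,0)]⟩⟩,⟨true,0,⟨0,[(43,0)]⟩,⟨0,[(44,0)]⟩⟩,⟨true,(-1),⟨0,[(1,0),(7,0)]⟩,⟨0,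
  [(5,0),(38,0)]⟩⟩,[.o ⟨false,0,⟨5,[(1,0),(1,0),(0,1),(25,0),(9,1),(0,0)]⟩,⟨0,[(0,0)]⟩⟩,.o ⟨false,0,
  ⟨0,[(1,0)]⟩,⟨0,[(25,0)]⟩⟩,.o ⟨false,1,⟨2,[(19,0),(1,0),(10,2),(4,0)]⟩,⟨0,[(17,0)]⟩⟩,.a ⟨true,0,⟨0,
  [(32,0)]⟩,⟨0,[(29,0)]⟩⟩ ⟨true,0,⟨0,[(15,0)]⟩,⟨0,[(18,0)]⟩⟩ ⟨false,0,⟨0,[(1,0),(27,0)]⟩,⟨0,[(0,0),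
  (31,0)]⟩⟩]⟩) (.Q [0,0,0,0,0,-1,0,0,0,0,0,1] (.ed false [1,-1,0,0,1] .k) (.S ⟨1,0,[0,2,0,-1],[0,0,
  0,0,1],[1,1],(⟨0,[(29,0)]⟩,⟨0,[(28,0)]⟩),⟨0,[(0,0)]⟩,.k,(.r 0 ⟨2,[(8,0),(32,0),(3,1)]⟩ ⟨1,[(3,0),
  (1,0),(0,0),(5,0)]⟩),⟨true,0,⟨0,[]⟩,⟨0,[(49,0)]⟩⟩,⟨false,0,⟨0,[(45,0)]⟩,⟨5,[(3,0),(2,0),(5,1),(7,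
  0),(6,1),(18,0),(0,1)]⟩⟩,⟨false,1,⟨5,[(3,0),(2,0),(5,1),(7,0),(6,1),(18,0),(0,1)]⟩,⟨0,[(45,0)]⟩⟩,
  ⟨true,0,⟨0,[(49,0)]⟩,⟨0,[]⟩⟩,[.o ⟨false,(-1),⟨1,[(1,1),(8,0),(20,0),(10,0),(2,2)]⟩,⟨1,[(3,0),(2,
  0),(13,0),(26,0)]⟩⟩,.a ⟨true,(-1),⟨0,[(1,0),(43,0)]⟩,⟨0,[(6,0),(3,0),(36,0)]⟩⟩ ⟨true,0,⟨0,[]⟩,⟨1,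
  [(33,0),(0,0)]⟩⟩ ⟨false,0,⟨2,[(8,0),(32,0),(3,1)]⟩,⟨5,[(3,0),(2,0),(5,1),(7,0),(6,1),(18,0),(0,
  1)]⟩⟩,.o ⟨false,0,⟨0,[(2,0)]⟩,⟨0,[(26,0)]⟩⟩,.o ⟨false,0,⟨1,[(2,1),(30,0),(0,0)]⟩,⟨4,[(3,1),(2,2),
  (1,1),(1,0),(31,0),(0,0)]⟩⟩]⟩) (.R ⟨0,false,false,false,[0,0,0,0,1],[1,0,-1,0,1],[0,1,1,0,0,0,0,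
  -1],(⟨0,[(29,0)]⟩,⟨0,[(28,0)]⟩),(⟨0,[(29,0),(5,0)]⟩,⟨0,[(0,0),(24,0)]⟩),⟨0,[(0,0)]⟩,.k,.k,(.r 0
  ⟨2,[(8,0),(32,0),(3,1)]⟩ ⟨1,[(3,0),(1,0),(0,0),(5,0)]⟩),.k,.k,.k,⟨true,0,⟨1,[(33,0),(0,0)]⟩,⟨0,
  []⟩⟩,⟨false,0,⟨0,[(30,0)]⟩,⟨2,[(20,0),(1,0),(10,2),(4,0)]⟩⟩,⟨true,0,⟨0,[(19,0)]⟩,⟨0,[(16,0)]⟩⟩,
  ⟨false,0,⟨0,[(1,0),(1,0)]⟩,⟨21,[(5,2),(0,5),(13,0),(1,0),(8,15),(10,5),(4,7)]⟩⟩,⟨false,0,⟨0,[]⟩,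
  ⟨0,[]⟩⟩,⟨false,0,⟨0,[]⟩,⟨0,[]⟩⟩,[.o ⟨false,(-1),⟨0,[(4,0)]⟩,⟨1,[(6,1),(31,0),(8,0)]⟩⟩,.a ⟨true,
  (-1),⟨0,[(1,1),(1,0)]⟩,⟨0,[(6,0)]⟩⟩ ⟨true,0,⟨0,[(19,0)]⟩,⟨0,[(15,0)]⟩⟩ ⟨false,0,⟨2,[(3,0),(6,1),
  (11,0),(4,0)]⟩,⟨21,[(5,2),(0,5),(13,0),(1,0),(8,15),(10,5),(4,7)]⟩⟩,.o ⟨false,0,⟨0,[(2,0)]⟩,⟨0,
  [(26,0)]⟩⟩,.o ⟨false,0,⟨1,[(2,1),(30,0),(0,0)]⟩,⟨4,[(3,1),(2,2),(1,1),(1,0),(31,0),(0,0)]⟩⟩]⟩)))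
  (.Q [0,0,0,0,0,-1,0,0,0,0,0,1] (.ed false [1,-1,0,0,1] .k) (.S ⟨1,0,[0,0,1],[1,1,0,0,-1],[0,-1,1],
  (⟨0,[(27,0),(11,0)]⟩,⟨0,[(0,0)]⟩),⟨0,[(27,0)]⟩,(.r (-1) ⟨1,[(2,0),(1,0),(0,0),(5,0)]⟩ ⟨2,[(7,0),
  (32,0),(3,1)]⟩),.k,⟨true,0,⟨0,[(44,0)]⟩,⟨0,[(43,0)]⟩⟩,⟨false,0,⟨0,[(44,0)]⟩,⟨5,[(2,0),(2,0),(5,1),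
  (7,0),(6,1),(18,0),(0,1)]⟩⟩,⟨false,1,⟨5,[(2,1),(1,1),(0,1),(39,0),(0,0)]⟩,⟨0,[]⟩⟩,⟨true,0,⟨0,[(48,
  0)]⟩,⟨0,[]⟩⟩,[.a ⟨true,0,⟨0,[(1,0)]⟩,⟨0,[(26,0)]⟩⟩ ⟨false,1,⟨5,[(2,1),(1,1),(0,1),(39,0),(0,0)]⟩,
  ⟨3,[(7,0),(32,0),(1,0)]⟩⟩ ⟨true,0,⟨1,[(32,0),(0,0)]⟩,⟨0,[]⟩⟩,.o ⟨false,1,⟨3,[(1,1),(0,0),(2,0),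
  (35,0),(4,0)]⟩,⟨19,[(3,3),(0,7),(2,0),(22,3),(9,4),(0,3),(0,0)]⟩⟩,.o ⟨false,1,⟨4,[(1,3),(17,0),(1,
  0),(3,0),(15,0),(3,0)]⟩,⟨7,[(3,3),(0,1),(9,3),(17,4),(0,0),(7,1),(4,1)]⟩⟩,.e ⟨false,1,⟨0,[(46,
  0)]⟩,⟨0,[(48,0)]⟩⟩ ⟨false,1,⟨5,[(2,1),(1,1),(0,1),(39,0),(0,0)]⟩,⟨0,[]⟩⟩]⟩) (.R ⟨0,false,false,
  true,[0,1,0,0,-1],[1,0,0,0,-1],[1],(⟨0,[(0,0)]⟩,⟨0,[(28,0),(9,0)]⟩),(⟨0,[(27,0)]⟩,⟨0,[(28,0)]⟩),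
  ⟨0,[(28,0)]⟩,(.r (-1) ⟨1,[(2,0),(1,0),(0,0),(5,0)]⟩ ⟨2,[(7,0),(32,0),(3,1)]⟩),.k,.k,.k,.k,.k,
  ⟨true,0,⟨0,[]⟩,⟨1,[(32,0),(0,0)]⟩⟩,⟨false,0,⟨0,[(1,0),(24,0)]⟩,⟨2,[(19,0),(1,0),(15,0)]⟩⟩,⟨true,0,
  ⟨2,[(7,0),(32,0),(3,1)]⟩,⟨3,[(11,1),(20,0),(0,0)]⟩⟩,⟨false,0,⟨0,[(1,0),(24,0),(17,0)]⟩,⟨2,[(11,0),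
  (29,0),(0,0),(3,1)]⟩⟩,⟨false,0,⟨0,[]⟩,⟨0,[]⟩⟩,⟨false,0,⟨0,[]⟩,⟨0,[]⟩⟩,[.a ⟨true,0,⟨0,[(1,0)]⟩,⟨0,
  [(26,0)]⟩⟩ ⟨true,0,⟨0,[]⟩,⟨1,[(32,0),(0,0)]⟩⟩ ⟨false,0,⟨0,[(1,0),(24,0)]⟩,⟨2,[(19,0),(1,0),(15,
  0)]⟩⟩,.o ⟨false,1,⟨3,[(1,1),(0,0),(2,0),(35,0),(4,0)]⟩,⟨19,[(3,3),(0,7),(2,0),(22,3),(9,4),(0,3),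
  (0,0)]⟩⟩,.o ⟨false,1,⟨2,[(1,2),(5,0),(33,1),(0,0),(3,0)]⟩,⟨2,[(4,0),(17,0),(3,0),(5,1)]⟩⟩,.o
  ⟨false,1,⟨6,[(1,3),(0,0),(2,0),(19,0),(15,3),(6,1)]⟩,⟨0,[(26,0)]⟩⟩]⟩)))))))))))

theorem ok6 : chk K t6 l11 = true := by decide +kernel

noncomputable def t7 : Tre :=
  (.Q [0,0,0,0,0,0,1,1,0,0,1] (.p true [0,0,1] [] (⟨0,[(25,0)]⟩,⟨0,[(24,0)]⟩) .k 0 (⟨0,[]⟩,⟨0,[]⟩)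
  .k .k) (.Q [0,0,0,0,0,2,0,0,0,0,-1] (.p false [0,0,1] [] (⟨0,[(26,0)]⟩,⟨0,[(25,0)]⟩) .k 0 (⟨0,[]⟩,
  ⟨0,[]⟩) .k .k) (.Q [0,0,2,0,0,0,1,0,0,-1,1] (.p true [0,0,1] [1] (⟨0,[(27,0)]⟩,⟨0,[(26,0)]⟩) .k 1
  (⟨0,[]⟩,⟨0,[]⟩) .k .k) (.R ⟨0,false,false,true,[0,-1,1],[1,-1],[0,1,-1,-1,0,0,0,1],(⟨0,[(17,0)]⟩,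
  ⟨0,[(1,0),(29,0)]⟩),(⟨0,[(31,0)]⟩,⟨0,[(32,0)]⟩),⟨0,[(1,0)]⟩,.k,.k,(.r (-1) ⟨4,[(3,1),(3,0),(5,1),
  (0,3),(11,1),(12,0)]⟩ ⟨0,[(4,0),(6,0)]⟩),.k,.k,.k,⟨true,0,⟨0,[(5,0)]⟩,⟨0,[(11,0)]⟩⟩,⟨false,0,⟨0,
  [(22,0)]⟩,⟨1,[(0,0),(11,0),(1,0),(10,0)]⟩⟩,⟨true,0,⟨0,[(41,0)]⟩,⟨0,[]⟩⟩,⟨false,0,⟨0,[(11,0),(10,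
  0)]⟩,⟨2,[(2,1),(20,0),(10,0),(4,1)]⟩⟩,⟨false,0,⟨0,[]⟩,⟨0,[]⟩⟩,⟨false,0,⟨0,[]⟩,⟨0,[]⟩⟩,[.o ⟨false,
  0,⟨0,[(37,0),(3,0)]⟩,⟨2,[(4,0),(29,0),(0,0),(3,1)]⟩⟩,.o ⟨false,0,⟨0,[(37,0)]⟩,⟨3,[(12,1),(5,0),(0,
  0),(10,0)]⟩⟩,.a ⟨true,0,⟨0,[(25,0)]⟩,⟨0,[(22,0)]⟩⟩ ⟨true,0,⟨0,[(8,0),(28,0)]⟩,⟨0,[(9,0)]⟩⟩ ⟨false,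
  0,⟨0,[(22,0),(14,0)]⟩,⟨3,[(2,1),(3,1),(5,0),(12,1),(8,0),(4,1)]⟩⟩,.o ⟨false,0,⟨0,[(0,0)]⟩,⟨5,[(12,
  1),(1,1),(0,0),(6,3),(11,0),(3,0)]⟩⟩]⟩) (.Q [0,-1,0,0,0,0,-1,-1,0,1,-1] (.p false [0,0,1] [1] (⟨0,
  [(28,0)]⟩,⟨0,[(27,0)]⟩) .k 1 (⟨0,[]⟩,⟨0,[]⟩) .k .k) (.S ⟨1,0,[0,0,1,0,0,0,0,-1],[1,1,-1],[1,1,1,1,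
  0,0,0,-1],(⟨0,[(2,0),(29,0)]⟩,⟨0,[(18,0)]⟩),⟨0,[(28,0)]⟩,.k,.k,⟨false,0,⟨0,[]⟩,⟨1,[(19,0),(0,0),
  (19,0)]⟩⟩,⟨true,0,⟨0,[(38,0)]⟩,⟨0,[(37,0)]⟩⟩,⟨true,0,⟨0,[(37,0)]⟩,⟨0,[(38,0)]⟩⟩,⟨false,1,⟨1,[(19,
  0),(0,0),(19,0)]⟩,⟨0,[]⟩⟩,[.a ⟨true,0,⟨11,[(0,7),(1,0),(9,3),(3,1),(12,0),(2,1),(1,3)]⟩,⟨0,[(3,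
  0)]⟩⟩ ⟨false,0,⟨0,[(12,0),(23,0)]⟩,⟨4,[(4,0),(3,2),(5,0),(0,1),(11,0),(12,2)]⟩⟩ ⟨true,0,⟨0,[(12,
  0)]⟩,⟨0,[(8,0)]⟩⟩,.a ⟨true,0,⟨0,[(0,0)]⟩,⟨0,[(24,0)]⟩⟩ ⟨true,0,⟨0,[(10,0)]⟩,⟨0,[(8,0),(29,0)]⟩⟩
  ⟨false,1,⟨1,[(12,1),(26,0),(0,0)]⟩,⟨0,[(9,0)]⟩⟩,.a ⟨true,0,⟨0,[(23,0)]⟩,⟨0,[(26,0)]⟩⟩ ⟨false,0,⟨0,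
  [(10,0)]⟩,⟨4,[(4,0),(3,2),(5,0),(0,1),(11,0),(12,2)]⟩⟩ ⟨true,0,⟨0,[(12,0)]⟩,⟨0,[(9,0)]⟩⟩,.o
  ⟨false,0,⟨0,[(11,0)]⟩,⟨2,[(13,0),(1,0),(10,2),(4,0)]⟩⟩]⟩) (.I [1,-1,2,2] (.R ⟨0,false,false,true,
  [0,-1,1],[1,-1],[1,1,-1,-1],(⟨0,[(19,0)]⟩,⟨0,[(3,0),(29,0)]⟩),(⟨0,[(33,0)]⟩,⟨0,[(34,0)]⟩),⟨0,[(3,
  0)]⟩,.k,.k,(.r (-1) ⟨4,[(5,1),(3,0),(5,1),(0,3),(11,1),(12,0)]⟩ ⟨0,[(6,0),(6,0)]⟩),.k,.k,.k,⟨true,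
  0,⟨0,[]⟩,⟨1,[(27,0),(0,0)]⟩⟩,⟨false,0,⟨0,[(24,0)]⟩,⟨2,[(14,0),(1,0),(10,2),(4,0)]⟩⟩,⟨true,0,⟨0,
  [(13,0),(23,0),(1,0)]⟩,⟨0,[(7,0)]⟩⟩,⟨false,0,⟨0,[(13,0),(10,0)]⟩,⟨0,[(1,0),(39,0)]⟩⟩,⟨false,0,⟨0,
  []⟩,⟨0,[]⟩⟩,⟨false,0,⟨0,[]⟩,⟨0,[]⟩⟩,[.o ⟨false,0,⟨0,[(39,0),(3,0)]⟩,⟨9,[(0,1),(13,0),(21,2),(0,3),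
  (3,5)]⟩⟩,.o ⟨false,0,⟨0,[(39,0)]⟩,⟨3,[(14,1),(5,0),(0,0),(10,0)]⟩⟩,.a ⟨true,0,⟨0,[(27,0)]⟩,⟨0,
  [(24,0)]⟩⟩ ⟨true,0,⟨0,[(37,0),(1,1)]⟩,⟨3,[(6,1),(20,0),(0,0)]⟩⟩ ⟨false,0,⟨0,[(24,0),(14,0)]⟩,⟨3,
  [(4,1),(3,1),(5,0),(12,1),(8,0),(4,1)]⟩⟩,.e ⟨false,1,⟨3,[(16,1),(3,0),(0,0),(18,0)]⟩,⟨0,[(0,0),
  (38,0)]⟩⟩ ⟨false,0,⟨0,[(2,0),(36,0)]⟩,⟨7,[(0,1),(13,1),(12,9),(0,1),(3,2),(8,2)]⟩⟩]⟩) (.Q [0,-1,0,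
  -1,0,0,-1,-1,0,1,-1] (.p false [0,0,1] [1] (⟨0,[(30,0)]⟩,⟨0,[(29,0)]⟩) .k 1 (⟨0,[]⟩,⟨0,[]⟩) .k
  .k) (.R ⟨1,false,false,true,[1,-1],[0,-1,1],[1,1],(⟨0,[(34,0)]⟩,⟨0,[(35,0)]⟩),(⟨0,[(20,0)]⟩,⟨0,
  [(4,0),(29,0)]⟩),⟨0,[(19,0),(0,0)]⟩,.k,.k,(.r (-1) ⟨1,[(17,1),(10,0),(0,0)]⟩ ⟨1,[(7,1),(20,0),(0,
  0)]⟩),.k,.k,.k,⟨true,0,⟨0,[(12,0)]⟩,⟨0,[(10,0),(29,0)]⟩⟩,⟨false,1,⟨4,[(3,0),(1,5),(3,5),(7,2),(19,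
  1)]⟩,⟨3,[(4,0),(13,1),(12,0),(2,1)]⟩⟩,⟨false,0,⟨3,[(7,1),(20,0),(0,0)]⟩,⟨3,[(17,1),(10,0),(0,0),
  (12,1)]⟩⟩,⟨true,0,⟨0,[(2,0)]⟩,⟨15,[(0,7),(3,0),(4,7),(8,1),(6,3),(5,0),(2,1),(1,3)]⟩⟩,⟨false,0,⟨0,
  [(7,0)]⟩,⟨3,[(6,0),(7,0),(2,1),(11,0),(10,2),(1,1)]⟩⟩,⟨false,1,⟨1,[(2,0),(12,0),(10,0),(15,0)]⟩,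
  ⟨0,[(0,0)]⟩⟩,[.o ⟨false,0,⟨0,[(2,0),(37,0)]⟩,⟨0,[(0,0),(14,0)]⟩⟩,.a ⟨true,0,⟨0,[(6,0)]⟩,⟨0,[(9,0),
  (15,0)]⟩⟩ ⟨true,0,⟨0,[]⟩,⟨1,[(28,0),(0,0)]⟩⟩ ⟨false,1,⟨12,[(1,0),(1,1),(1,14),(3,1),(7,6),(19,4),
  (0,0),(3,0)]⟩,⟨3,[(4,0),(4,3),(8,1),(12,0),(2,1)]⟩⟩,.o ⟨false,0,⟨1,[(28,0),(0,0)]⟩,⟨2,[(15,0),(1,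
  0),(15,0)]⟩⟩,.o ⟨false,0,⟨0,[(28,0),(0,0)]⟩,⟨4,[(3,3),(1,3),(3,3),(7,1),(19,2)]⟩⟩]⟩) (.Q [0,1,-2,
  0,-1,0,-1,0,1,0,-1,1] (.p false [0,0,1] [0,0,0,0,1] (⟨0,[(31,0)]⟩,⟨0,[(30,0)]⟩) .k 2 (⟨0,[(24,
  0)]⟩,⟨0,[(23,0)]⟩) .k (.r (-1) ⟨0,[(16,0),(25,0)]⟩ ⟨2,[(1,0),(7,1),(4,0),(21,0)]⟩)) (.R ⟨0,false,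
  false,false,[0,-1,1],[0,0,0,0,1],[1,1],(⟨0,[(21,0)]⟩,⟨0,[(5,0),(29,0)]⟩),(⟨0,[(25,0)]⟩,⟨0,[(24,
  0)]⟩),⟨0,[(5,0)]⟩,.k,.k,(.r (-1) ⟨4,[(7,1),(3,0),(5,1),(0,3),(11,1),(12,0)]⟩ ⟨0,[(8,0),(6,0)]⟩),
  (.r (-1) ⟨4,[(7,0),(3,2),(5,0),(0,1),(11,0),(12,2)]⟩ ⟨0,[(15,0),(24,0)]⟩),.k,.k,⟨true,0,⟨0,[]⟩,⟨1,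
  [(29,0),(0,0)]⟩⟩,⟨false,0,⟨13,[(0,9),(15,1),(1,1),(0,1),(3,3),(18,0),(0,4)]⟩,⟨0,[(22,0),(6,0)]⟩⟩,
  ⟨false,0,⟨0,[(13,0)]⟩,⟨4,[(7,0),(3,2),(5,0),(0,1),(11,0),(12,2)]⟩⟩,⟨true,(-1),⟨3,[(0,3),(7,1),(6,
  3),(13,0),(0,0)]⟩,⟨0,[(7,0),(14,0)]⟩⟩,⟨false,0,⟨0,[]⟩,⟨0,[]⟩⟩,⟨false,0,⟨0,[]⟩,⟨0,[]⟩⟩,[.e ⟨false,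
  0,⟨4,[(2,0),(34,0),(1,1)]⟩,⟨1,[(22,0),(0,0),(19,0)]⟩⟩ ⟨false,(-1),⟨0,[(0,0)]⟩,⟨1,[(22,2),(0,0),(5,
  1),(13,0)]⟩⟩,.o ⟨false,0,⟨2,[(0,1),(22,0),(5,2),(0,0),(7,0),(4,0)]⟩,⟨0,[(22,0)]⟩⟩,.a ⟨true,0,⟨0,
  [(29,0)]⟩,⟨0,[(26,0)]⟩⟩ ⟨false,0,⟨0,[]⟩,⟨1,[(22,0),(0,0),(19,0)]⟩⟩ ⟨true,(-1),⟨1,[(0,1),(28,0),(0,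
  0)]⟩,⟨0,[(22,0),(6,0)]⟩⟩,.e ⟨true,0,⟨4,[(2,0),(34,0),(1,1)]⟩,⟨1,[(29,0),(0,0)]⟩⟩ ⟨true,(-1),⟨0,
  [(0,0)]⟩,⟨1,[(22,1),(6,2),(0,0)]⟩⟩]⟩) (.Q [0,0,0,1,0,0,0,0,-1,1,0,-1] (.p false [0,0,0,0,1] [1]
  (⟨0,[(25,0)]⟩,⟨0,[(24,0)]⟩) .k 1 (⟨0,[]⟩,⟨0,[]⟩) .k .k) (.Q [0,0,-1,0,0,0,0,0,-1,1,0,-1] (.p
  false [0,0,0,0,1] [1] (⟨0,[(26,0)]⟩,⟨0,[(25,0)]⟩) .k 1 (⟨0,[]⟩,⟨0,[]⟩) .k .k) (.Q [0,0,0,0,0,-1,0,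
  0,0,0,0,1] (.ed false [1,-1,0,0,1] .k) (.Q [0,1,0,0,0,0,0,0,1,-1,0,1] (.p true [0,0,0,0,1] [1]
  (⟨0,[(28,0)]⟩,⟨0,[(27,0)]⟩) .k 1 (⟨0,[]⟩,⟨0,[]⟩) .k .k) (.S ⟨1,0,[0,-1,1],[1,1,0,0,-1],[1,0,1,1],
  (⟨1,[(9,0),(18,1),(7,0)]⟩,⟨0,[(1,0)]⟩),⟨0,[(28,0)]⟩,(.r (-1) ⟨13,[(4,5),(7,3),(7,2),(2,2),(3,5),
  (18,0),(0,3)]⟩ ⟨1,[(6,0),(42,0)]⟩),.k,⟨false,0,⟨0,[]⟩,⟨13,[(4,3),(15,1),(1,1),(0,1),(3,3),(18,0),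
  (0,4)]⟩⟩,⟨true,0,⟨0,[(45,0)]⟩,⟨0,[(44,0)]⟩⟩,⟨true,0,⟨0,[(44,0)]⟩,⟨0,[(45,0)]⟩⟩,⟨false,1,⟨13,[(4,
  3),(15,1),(1,1),(0,1),(3,3),(18,0),(0,4)]⟩,⟨0,[]⟩⟩,[.o ⟨false,1,⟨19,[(2,11),(1,5),(18,2),(2,1),
  (15,4),(4,6)]⟩,⟨0,[(0,0)]⟩⟩,.e ⟨false,1,⟨13,[(4,1),(7,5),(7,0),(2,0),(3,1),(18,4),(0,5)]⟩,⟨1,[(6,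
  0),(42,0)]⟩⟩ ⟨false,1,⟨0,[(47,0)]⟩,⟨0,[(41,0)]⟩⟩,.a ⟨true,0,⟨0,[(2,0)]⟩,⟨1,[(27,1),(5,0),(0,0)]⟩⟩
  ⟨true,0,⟨3,[(12,1),(20,0),(0,0)]⟩,⟨1,[(6,0),(42,0)]⟩⟩ ⟨false,1,⟨1,[(33,0),(0,0),(12,1)]⟩,⟨4,[(6,
  0),(34,0),(1,1)]⟩⟩,.e ⟨false,1,⟨13,[(4,1),(7,5),(7,0),(2,0),(3,1),(18,4),(0,5)]⟩,⟨0,[(45,0)]⟩⟩
  ⟨false,1,⟨0,[(47,0)]⟩,⟨0,[(49,0)]⟩⟩]⟩) (.R ⟨2,false,false,true,[0,1],[1,0,0,0,-1],[0,0,1],(⟨0,[]⟩,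
  ⟨0,[]⟩),(⟨0,[(28,0)]⟩,⟨0,[(29,0)]⟩),⟨0,[]⟩,.k,.k,.k,(.r 0 ⟨3,[(12,1),(20,0),(0,0),(14,3)]⟩ ⟨8,[(4,
  0),(17,3),(4,0),(6,0),(10,0),(1,3)]⟩),.k,.k,⟨true,0,⟨1,[(33,0),(0,0)]⟩,⟨0,[]⟩⟩,⟨false,0,⟨0,[(0,0),
  (48,0)]⟩,⟨2,[(20,0),(1,0),(4,2),(10,0)]⟩⟩,⟨true,0,⟨0,[(45,0)]⟩,⟨0,[(44,0)]⟩⟩,⟨false,0,⟨0,[(0,0),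
  (44,0)]⟩,⟨15,[(4,1),(15,8),(1,0),(0,0),(3,17),(10,3),(2,0)]⟩⟩,⟨false,1,⟨13,[(4,3),(15,1),(1,1),(0,
  1),(3,3),(18,0),(0,4)]⟩,⟨0,[]⟩⟩,⟨false,0,⟨0,[(0,0)]⟩,⟨7,[(4,1),(15,0),(1,0),(0,0),(3,9),(10,3),(2,
  0)]⟩⟩,[.a ⟨true,0,⟨0,[(0,0),(48,0)]⟩,⟨0,[(27,0)]⟩⟩ ⟨true,0,⟨1,[(33,0),(0,0)]⟩,⟨0,[]⟩⟩ ⟨false,0,⟨0,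
  [(0,0),(48,0)]⟩,⟨2,[(20,0),(1,0),(4,2),(10,0)]⟩⟩,.e ⟨false,1,⟨13,[(4,3),(15,1),(1,1),(0,1),(3,3),
  (18,0),(0,4)]⟩,⟨4,[(6,0),(34,0),(1,1)]⟩⟩ ⟨false,0,⟨0,[(0,0)]⟩,⟨47,[(4,5),(15,10),(1,10),(0,2),(3,
  53),(10,19),(2,26)]⟩⟩,.o ⟨false,1,⟨2,[(20,0),(1,0),(15,0)]⟩,⟨1,[(33,0),(0,0)]⟩⟩,.fo]⟩)) (.R ⟨0,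
  false,false,true,[0,1,0,0,-1],[1,0,-1,0,-1],[1],(⟨0,[(0,0)]⟩,⟨0,[(28,0),(9,0)]⟩),(⟨0,[(0,0),(22,
  0)]⟩,⟨0,[(28,0),(6,0)]⟩),⟨0,[(28,0)]⟩,(.r (-1) ⟨13,[(3,5),(7,3),(7,2),(2,2),(3,5),(18,0),(0,3)]⟩
  ⟨1,[(5,0),(42,0)]⟩),.k,.k,.k,.k,.k,⟨true,0,⟨0,[(14,0)]⟩,⟨0,[(18,0)]⟩⟩,⟨false,0,⟨3,[(8,0),(13,1),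
  (12,0),(2,1)]⟩,⟨4,[(7,0),(1,5),(3,5),(7,2),(19,1)]⟩⟩,⟨true,0,⟨1,[(5,0),(42,0)]⟩,⟨3,[(11,1),(20,0),
  (0,0)]⟩⟩,⟨false,0,⟨0,[(18,0),(10,0),(14,0)]⟩,⟨0,[(4,0),(41,0)]⟩⟩,⟨false,0,⟨0,[]⟩,⟨0,[]⟩⟩,⟨false,0,
  ⟨0,[]⟩,⟨0,[]⟩⟩,[.a ⟨true,0,⟨0,[(1,0),(15,0),(0,0)]⟩,⟨0,[(9,0),(16,0)]⟩⟩ ⟨true,0,⟨0,[]⟩,⟨1,[(32,0),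
  (0,0)]⟩⟩ ⟨false,0,⟨0,[(18,0),(10,0)]⟩,⟨2,[(6,1),(2,0),(9,0),(1,0),(24,0)]⟩⟩,.o ⟨false,1,⟨1,[(1,1),
  (16,1),(3,0),(18,0),(4,0)]⟩,⟨0,[(6,0),(19,0)]⟩⟩,.o ⟨false,1,⟨9,[(1,7),(23,1),(15,5),(3,0),(0,0),
  (1,1)]⟩,⟨1,[(26,1),(5,0),(0,0)]⟩⟩,.o ⟨false,1,⟨7,[(1,3),(1,0),(21,2),(7,0),(7,3),(5,0),(0,0)]⟩,⟨0,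
  [(26,0)]⟩⟩]⟩)) (.Q [0,0,0,0,0,-1,0,0,0,0,0,1] (.ed false [1,-1,0,0,1] .k) (.S ⟨1,0,[0,1,0,-1],[0,
  0,0,0,1],[1,2],(⟨0,[(28,0)]⟩,⟨0,[(27,0)]⟩),⟨0,[(0,0)]⟩,.k,(.r 0 ⟨1,[(5,0),(42,0)]⟩ ⟨13,[(3,5),(7,
  3),(7,2),(2,2),(3,5),(18,0),(0,3)]⟩),⟨false,0,⟨0,[]⟩,⟨13,[(3,3),(15,1),(1,1),(0,1),(3,3),(18,0),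
  (0,4)]⟩⟩,⟨true,0,⟨0,[(44,0)]⟩,⟨0,[(43,0)]⟩⟩,⟨true,0,⟨0,[(43,0)]⟩,⟨0,[(44,0)]⟩⟩,⟨false,1,⟨13,[(3,
  3),(15,1),(1,1),(0,1),(3,3),(18,0),(0,4)]⟩,⟨0,[]⟩⟩,[.o ⟨false,0,⟨1,[(1,1),(3,0),(42,0)]⟩,⟨11,[(2,
  9),(16,0),(5,1),(15,2),(4,5)]⟩⟩,.a ⟨true,0,⟨0,[(26,0),(17,0)]⟩,⟨0,[(2,0)]⟩⟩ ⟨false,0,⟨4,[(5,0),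
  (34,0),(1,1)]⟩,⟨13,[(3,3),(15,1),(1,1),(0,1),(3,3),(18,0),(0,4)]⟩⟩ ⟨true,0,⟨0,[(44,0)]⟩,⟨3,[(11,
  1),(20,0),(0,0)]⟩⟩,.e ⟨false,0,⟨0,[(48,0)]⟩,⟨0,[(46,0)]⟩⟩ ⟨false,0,⟨0,[(44,0)]⟩,⟨13,[(3,1),(7,5),
  (7,0),(2,0),(3,1),(18,4),(0,5)]⟩⟩,.o ⟨false,0,⟨0,[(1,0)]⟩,⟨43,[(2,23),(2,1),(15,9),(3,19),(15,7),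
  (3,4),(0,0)]⟩⟩]⟩) (.R ⟨0,false,false,true,[0,0,0,0,1],[0,0,1],[1,1,1],(⟨0,[(28,0)]⟩,⟨0,[(27,0)]⟩),
  (⟨0,[(35,0)]⟩,⟨0,[(34,0)]⟩),⟨0,[(0,0)]⟩,.k,.k,(.r 0 ⟨1,[(5,0),(42,0)]⟩ ⟨13,[(3,5),(7,3),(7,2),(2,
  2),(3,5),(18,0),(0,3)]⟩),.k,.k,.k,⟨true,0,⟨0,[(18,0)]⟩,⟨0,[(12,0)]⟩⟩,⟨false,1,⟨2,[(2,2),(6,0),(3,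
  0),(7,1),(10,1),(8,0)]⟩,⟨2,[(1,1),(5,0),(14,0),(3,0)]⟩⟩,⟨true,0,⟨1,[(32,0),(0,0)]⟩,⟨4,[(5,0),(34,
  0),(1,1)]⟩⟩,⟨false,1,⟨14,[(2,11),(0,2),(5,3),(0,7),(3,2),(6,1),(19,3),(4,5)]⟩,⟨0,[(1,0),(5,0),(10,
  0)]⟩⟩,⟨false,0,⟨0,[]⟩,⟨0,[]⟩⟩,⟨false,0,⟨0,[]⟩,⟨0,[]⟩⟩,[.o ⟨false,0,⟨0,[(6,0)]⟩,⟨0,[(31,0),(14,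
  0)]⟩⟩,.e ⟨false,0,⟨0,[]⟩,⟨7,[(3,1),(15,0),(1,0),(0,0),(3,1),(13,0),(4,3)]⟩⟩ ⟨false,1,⟨8,[(2,4),(1,
  0),(1,0),(2,6),(11,2),(3,3),(15,0),(4,0)]⟩,⟨0,[(1,0),(5,0),(10,0)]⟩⟩,.a ⟨true,0,⟨0,[(26,0)]⟩,⟨0,
  [(2,0),(41,0)]⟩⟩ ⟨false,0,⟨1,[(32,0),(0,0)]⟩,⟨1,[(45,0),(0,0)]⟩⟩ ⟨true,0,⟨0,[(2,0),(3,0),(37,0)]⟩,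
  ⟨0,[(1,0),(5,0),(10,0)]⟩⟩,.o ⟨false,0,⟨0,[(1,0)]⟩,⟨43,[(2,23),(2,1),(15,9),(3,19),(15,7),(3,4),(0,
  0)]⟩⟩]⟩))) (.Q [0,-1,0,-1,1,0,1,1,-1,0,1,-1] (.p true [0,0,1] [0,0,0,0,1] (⟨0,[(33,0)]⟩,⟨0,[(32,
  0)]⟩) .k 2 (⟨0,[(26,0)]⟩,⟨0,[(25,0)]⟩) .k (.r (-1) ⟨0,[(18,0),(25,0)]⟩ ⟨2,[(3,0),(7,1),(4,0),(21,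
  0)]⟩)) (.Q [0,0,0,0,0,0,0,0,1,-1,0,1] (.p true [0,0,0,0,1] [1] (⟨0,[(27,0)]⟩,⟨0,[(26,0)]⟩) .k 1
  (⟨0,[]⟩,⟨0,[]⟩) .k .k) (.Q [0,-1,-2,0,1,0,-1,0,-1,1,-1,-1] (.p false [0,0,1] [1,0,0,0,-1] (⟨0,
  [(35,0)]⟩,⟨0,[(34,0)]⟩) .k 2 (⟨0,[(27,0)]⟩,⟨0,[(28,0)]⟩) .k (.r 0 ⟨0,[(4,0),(2,0),(4,1),(0,1),(30,
  2)]⟩ ⟨1,[(18,1),(26,0),(0,0)]⟩)) (.R ⟨0,false,false,true,[0,-1,1],[1,0,0,0,-1],[1],(⟨0,[(25,0)]⟩,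
  ⟨0,[(9,0),(29,0)]⟩),(⟨0,[(28,0)]⟩,⟨0,[(29,0)]⟩),⟨0,[(9,0)]⟩,.k,.k,(.r (-1) ⟨8,[(2,2),(0,1),(7,0),
  (3,1),(5,2),(0,5),(0,1),(3,0)]⟩ ⟨0,[(12,0),(6,0)]⟩),(.r 0 ⟨1,[(6,0),(8,0),(5,0)]⟩ ⟨13,[(4,3),(9,
  11),(5,0),(2,0),(3,3),(4,1),(13,2),(0,5)]⟩),.k,.k,⟨true,0,⟨0,[]⟩,⟨1,[(33,0),(0,0)]⟩⟩,⟨false,1,⟨7,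
  [(0,6),(3,0),(18,0),(17,3)]⟩,⟨0,[(1,0),(31,0)]⟩⟩,⟨true,0,⟨0,[(17,0)]⟩,⟨1,[(6,0),(8,0),(5,0)]⟩⟩,
  ⟨false,1,⟨3,[(0,2),(3,0),(9,3),(8,0)]⟩,⟨0,[(3,0),(6,0)]⟩⟩,⟨false,0,⟨0,[]⟩,⟨0,[]⟩⟩,⟨false,0,⟨0,[]⟩,
  ⟨0,[]⟩⟩,[.o ⟨false,1,⟨0,[(26,0)]⟩,⟨0,[(1,0)]⟩⟩,.e ⟨false,1,⟨1,[(46,0),(0,0)]⟩,⟨0,[(49,0)]⟩⟩
  ⟨false,1,⟨0,[(0,0)]⟩,⟨0,[(7,0),(11,0),(7,0)]⟩⟩,.a ⟨true,0,⟨0,[(33,0)]⟩,⟨0,[(30,0)]⟩⟩ ⟨true,0,⟨0,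
  []⟩,⟨0,[(49,0)]⟩⟩ ⟨false,1,⟨3,[(0,2),(3,0),(18,0)]⟩,⟨0,[(1,0),(31,0)]⟩⟩,.e ⟨false,1,⟨1,[(46,0),(0,
  0)]⟩,⟨1,[(33,0),(0,0)]⟩⟩ ⟨false,1,⟨0,[(0,0)]⟩,⟨3,[(3,3),(8,1),(20,4),(0,0)]⟩⟩]⟩) (.R ⟨0,false,
  false,true,[0,-1,1],[1,0,0,0,-1],[1],(⟨0,[(25,0)]⟩,⟨0,[(9,0),(29,0)]⟩),(⟨0,[(28,0)]⟩,⟨0,[(29,
  0)]⟩),⟨0,[(9,0)]⟩,.k,.k,(.r (-1) ⟨8,[(2,2),(0,1),(7,0),(3,1),(5,2),(0,5),(0,1),(3,0)]⟩ ⟨7,[(0,0),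
  (3,0),(7,3),(1,7),(8,0)]⟩),(.r 0 ⟨1,[(6,0),(8,0),(5,0)]⟩ ⟨13,[(4,3),(9,11),(5,0),(2,0),(3,3),(4,
  1),(13,2),(0,5)]⟩),.k,.k,⟨true,0,⟨0,[]⟩,⟨3,[(0,0),(3,0),(18,0)]⟩⟩,⟨false,1,⟨0,[(8,0),(17,0)]⟩,⟨1,
  [(0,1),(45,0),(0,0)]⟩⟩,⟨true,0,⟨0,[(17,0)]⟩,⟨1,[(6,0),(8,0),(5,0)]⟩⟩,⟨false,1,⟨0,[(2,0),(5,0),(5,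
  1),(3,0)]⟩,⟨0,[(3,0),(6,0)]⟩⟩,⟨false,0,⟨0,[]⟩,⟨0,[]⟩⟩,⟨false,0,⟨0,[]⟩,⟨0,[]⟩⟩,[.o ⟨false,1,⟨0,
  [(26,0)]⟩,⟨0,[(1,0)]⟩⟩,.a ⟨true,1,⟨0,[(4,0),(3,0)]⟩,⟨0,[(0,0),(7,0)]⟩⟩ ⟨false,1,⟨1,[(46,0),(0,
  0)]⟩,⟨0,[(49,0)]⟩⟩ ⟨true,1,⟨0,[(2,0),(5,0),(5,0),(3,0)]⟩,⟨0,[(0,0)]⟩⟩,.a ⟨true,0,⟨0,[(33,0)]⟩,⟨0,
  [(30,0)]⟩⟩ ⟨true,0,⟨0,[]⟩,⟨0,[(49,0)]⟩⟩ ⟨false,1,⟨0,[(2,0),(5,0),(5,0),(3,0)]⟩,⟨1,[(0,1),(45,0),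
  (0,0)]⟩⟩,.a ⟨true,0,⟨3,[(0,0),(3,0),(18,0),(9,3)]⟩,⟨0,[(8,0)]⟩⟩ ⟨false,1,⟨1,[(46,0),(0,0)]⟩,⟨3,
  [(0,0),(3,0),(18,0)]⟩⟩ ⟨true,1,⟨0,[(8,0),(17,0)]⟩,⟨0,[(0,0)]⟩⟩]⟩)) (.Q [0,0,0,0,0,-1,0,0,0,0,0,1]
  (.ed false [1,-1,0,0,1] .k) (.R ⟨2,true,false,true,[0,1],[1,1,0,0,-1],[0,1,1],(⟨0,[]⟩,⟨0,[]⟩),(⟨1,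
  [(9,0),(18,1),(7,0)]⟩,⟨0,[(0,0)]⟩),⟨0,[]⟩,.k,(.r (-1) ⟨13,[(4,5),(7,3),(7,2),(2,2),(3,5),(18,0),
  (0,3)]⟩ ⟨1,[(6,0),(42,0)]⟩),.k,.k,(.r 0 ⟨1,[(6,0),(42,0)]⟩ ⟨13,[(4,5),(7,3),(7,2),(2,2),(3,5),(18,
  0),(0,3)]⟩),.k,⟨false,0,⟨1,[(6,0),(42,0)]⟩,⟨13,[(4,1),(7,5),(7,0),(2,0),(3,1),(18,4),(0,5)]⟩⟩,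
  ⟨true,0,⟨0,[(1,0)]⟩,⟨3,[(3,3),(8,1),(20,0),(0,0)]⟩⟩,⟨false,0,⟨0,[(45,0)]⟩,⟨13,[(4,1),(7,5),(7,0),
  (2,0),(3,1),(18,4),(0,5)]⟩⟩,⟨true,0,⟨0,[(1,0)]⟩,⟨0,[(3,0),(40,0)]⟩⟩,⟨true,0,⟨0,[(49,0)]⟩,⟨0,[]⟩⟩,
  ⟨false,1,⟨3,[(1,1),(2,1),(3,1),(3,1),(33,0),(0,0)]⟩,⟨0,[(3,0)]⟩⟩,[]⟩) (.R ⟨0,false,false,true,[0,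
  1,0,0,-1],[1,0,0,0,-1],[1],(⟨0,[(0,0)]⟩,⟨0,[(29,0),(9,0)]⟩),(⟨0,[(28,0)]⟩,⟨0,[(29,0)]⟩),⟨0,[(29,
  0)]⟩,(.r (-1) ⟨13,[(4,5),(7,3),(7,2),(2,2),(3,5),(18,0),(0,3)]⟩ ⟨1,[(6,0),(42,0)]⟩),.k,.k,.k,.k,
  .k,⟨true,0,⟨0,[]⟩,⟨1,[(33,0),(0,0)]⟩⟩,⟨false,0,⟨1,[(9,0),(26,0),(2,1)]⟩,⟨2,[(20,0),(1,0),(15,
  0)]⟩⟩,⟨true,0,⟨1,[(6,0),(42,0)]⟩,⟨3,[(12,1),(20,0),(0,0)]⟩⟩,⟨false,0,⟨1,[(9,0),(26,0),(2,1),(5,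
  1)]⟩,⟨2,[(12,0),(29,0),(0,0),(3,1)]⟩⟩,⟨false,0,⟨0,[]⟩,⟨0,[]⟩⟩,⟨false,0,⟨0,[]⟩,⟨0,[]⟩⟩,[.a ⟨true,0,
  ⟨0,[(1,0)]⟩,⟨0,[(27,0)]⟩⟩ ⟨true,0,⟨0,[]⟩,⟨1,[(33,0),(0,0)]⟩⟩ ⟨false,0,⟨1,[(9,0),(26,0),(2,1)]⟩,⟨2,
  [(20,0),(1,0),(15,0)]⟩⟩,.o ⟨false,1,⟨3,[(1,2),(24,0),(15,0),(4,1)]⟩,⟨0,[(3,0),(40,0)]⟩⟩,.o ⟨false,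
  1,⟨12,[(1,12),(4,1),(1,3),(1,3),(3,3),(7,0),(19,9),(0,1),(3,1)]⟩,⟨1,[(27,1),(5,0),(0,0)]⟩⟩,.o
  ⟨false,1,⟨8,[(1,5),(24,2),(15,4),(4,0),(1,1)]⟩,⟨0,[(27,0)]⟩⟩]⟩))) (.Q [0,1,-1,0,-1,0,-1,0,1,0,-1,
  1] (.p false [0,0,1] [0,0,0,0,1] (⟨0,[(34,0)]⟩,⟨0,[(33,0)]⟩) .k 2 (⟨0,[(27,0)]⟩,⟨0,[(26,0)]⟩) .k
  (.r (-1) ⟨0,[(19,0),(25,0)]⟩ ⟨2,[(4,0),(7,1),(4,0),(21,0)]⟩)) (.R ⟨0,false,false,false,[0,-1,1],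
  [0,0,0,0,1],[1,1],(⟨0,[(24,0)]⟩,⟨0,[(8,0),(29,0)]⟩),(⟨0,[(28,0)]⟩,⟨0,[(27,0)]⟩),⟨0,[(8,0)]⟩,.k,.k,
  (.r (-1) ⟨4,[(10,1),(3,0),(5,1),(0,3),(11,1),(12,0)]⟩ ⟨1,[(1,0),(1,0),(7,0),(1,0)]⟩),(.r (-1) ⟨4,
  [(10,0),(3,2),(5,0),(0,1),(11,0),(12,2)]⟩ ⟨0,[(18,0),(24,0)]⟩),.k,.k,⟨true,0,⟨0,[]⟩,⟨1,[(32,0),(0,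
  0)]⟩⟩,⟨false,0,⟨1,[(0,1),(44,0),(0,0)]⟩,⟨4,[(3,4),(1,0),(34,0),(1,1)]⟩⟩,⟨false,0,⟨0,[(16,0)]⟩,⟨4,
  [(10,0),(3,2),(5,0),(0,1),(11,0),(12,2)]⟩⟩,⟨true,(-1),⟨0,[(1,0)]⟩,⟨0,[(10,0),(14,0)]⟩⟩,⟨false,0,
  ⟨0,[]⟩,⟨0,[]⟩⟩,⟨false,0,⟨0,[]⟩,⟨0,[]⟩⟩,[.a ⟨true,(-1),⟨0,[(1,0),(8,0)]⟩,⟨0,[(3,0),(3,0)]⟩⟩ ⟨false,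
  0,⟨4,[(5,0),(34,0),(1,1)]⟩,⟨13,[(3,3),(15,1),(1,1),(0,1),(3,3),(18,0),(0,4)]⟩⟩ ⟨true,(-1),⟨0,[(0,
  0)]⟩,⟨0,[(3,0)]⟩⟩,.o ⟨false,0,⟨2,[(1,0),(0,1),(1,0),(41,0)]⟩,⟨0,[(25,0)]⟩⟩,.a ⟨true,0,⟨0,[(32,
  0)]⟩,⟨0,[(29,0)]⟩⟩ ⟨false,0,⟨0,[]⟩,⟨13,[(3,3),(15,1),(1,1),(0,1),(3,3),(18,0),(0,4)]⟩⟩ ⟨true,(-1),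
  ⟨0,[(0,0)]⟩,⟨4,[(3,4),(1,0),(34,0),(1,1)]⟩⟩,.a ⟨true,0,⟨1,[(32,2),(0,0)]⟩,⟨0,[(7,0)]⟩⟩ ⟨true,0,⟨4,
  [(5,0),(34,0),(1,1)]⟩,⟨1,[(32,0),(0,0)]⟩⟩ ⟨false,0,⟨1,[(0,1),(44,0),(0,0)]⟩,⟨0,[(3,0)]⟩⟩]⟩) (.R
  ⟨0,false,false,false,[0,-1,1],[0,0,0,0,1],[1,1],(⟨0,[(24,0)]⟩,⟨0,[(8,0),(29,0)]⟩),(⟨0,[(28,0)]⟩,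
  ⟨0,[(27,0)]⟩),⟨0,[(8,0)]⟩,.k,.k,(.r (-1) ⟨4,[(10,1),(3,0),(5,1),(0,3),(11,1),(12,0)]⟩ ⟨1,[(1,0),
  (1,0),(7,0),(1,0)]⟩),(.r (-1) ⟨4,[(10,0),(3,2),(5,0),(0,1),(11,0),(12,2)]⟩ ⟨0,[(18,0),(24,0)]⟩),
  .k,.k,⟨true,0,⟨0,[]⟩,⟨1,[(32,0),(0,0)]⟩⟩,⟨false,0,⟨2,[(1,0),(0,1),(1,0),(2,2),(38,0)]⟩,⟨1,[(0,0),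
  (2,0),(36,0)]⟩⟩,⟨false,0,⟨0,[(16,0)]⟩,⟨4,[(10,0),(3,2),(5,0),(0,1),(11,0),(12,2)]⟩⟩,⟨true,(-1),⟨0,
  [(1,0)]⟩,⟨0,[(10,0),(14,0)]⟩⟩,⟨false,0,⟨0,[]⟩,⟨0,[]⟩⟩,⟨false,0,⟨0,[]⟩,⟨0,[]⟩⟩,[.e ⟨false,0,⟨4,[(5,
  0),(34,0),(1,1)]⟩,⟨13,[(3,3),(15,1),(1,1),(0,1),(3,3),(18,0),(0,4)]⟩⟩ ⟨false,0,⟨7,[(1,3),(5,1),(7,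
  3),(5,1),(0,0),(3,3),(14,0),(3,0)]⟩,⟨0,[(0,0)]⟩⟩,.o ⟨false,0,⟨2,[(1,0),(0,1),(1,0),(41,0)]⟩,⟨0,
  [(25,0)]⟩⟩,.e ⟨false,0,⟨0,[]⟩,⟨13,[(3,3),(15,1),(1,1),(0,1),(3,3),(18,0),(0,4)]⟩⟩ ⟨false,0,⟨7,[(1,
  1),(0,1),(4,3),(6,1),(7,0),(3,3),(14,0),(4,0)]⟩,⟨0,[(0,0)]⟩⟩,.a ⟨true,0,⟨1,[(32,2),(0,0)]⟩,⟨0,[(7,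
  0)]⟩⟩ ⟨true,0,⟨4,[(5,0),(34,0),(1,1)]⟩,⟨1,[(32,0),(0,0)]⟩⟩ ⟨false,0,⟨2,[(1,0),(0,1),(1,0),(2,2),
  (38,0)]⟩,⟨0,[(3,0)]⟩⟩]⟩))))))))) (.Q [0,0,2,0,0,0,1,0,0,-1,1] (.p true [0,0,1] [1] (⟨0,[(27,0)]⟩,
  ⟨0,[(26,0)]⟩) .k 1 (⟨0,[]⟩,⟨0,[]⟩) .k .k) (.R ⟨1,false,false,true,[0,-1,1],[1,-1],[1,1,-1,-1,0,0,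
  0,1],(⟨0,[(17,0)]⟩,⟨0,[(27,0),(4,0)]⟩),(⟨0,[(31,0)]⟩,⟨0,[(32,0)]⟩),⟨0,[(1,0)]⟩,.k,.k,(.r (-1) ⟨4,
  [(3,1),(3,0),(5,1),(0,3),(11,1),(12,0)]⟩ ⟨0,[(4,0),(6,0)]⟩),.k,.k,.k,⟨true,0,⟨0,[(7,0)]⟩,⟨0,[(11,
  0)]⟩⟩,⟨false,0,⟨0,[(22,0)]⟩,⟨1,[(0,0),(11,0),(1,0),(10,0)]⟩⟩,⟨false,0,⟨0,[]⟩,⟨1,[(18,0),(0,0),(19,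
  0)]⟩⟩,⟨false,0,⟨0,[(11,0),(10,0)]⟩,⟨2,[(2,1),(20,0),(10,0),(4,1)]⟩⟩,⟨true,0,⟨0,[(36,0)]⟩,⟨0,[(37,
  0)]⟩⟩,⟨false,0,⟨0,[(6,0),(15,0)]⟩,⟨1,[(3,1),(26,0),(8,0)]⟩⟩,[.o ⟨false,0,⟨0,[(37,0),(3,0)]⟩,⟨2,
  [(4,0),(29,0),(0,0),(3,1)]⟩⟩,.o ⟨false,0,⟨0,[(37,0)]⟩,⟨3,[(12,1),(5,0),(0,0),(10,0)]⟩⟩,.a ⟨true,0,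
  ⟨0,[(25,0)]⟩,⟨0,[(22,0)]⟩⟩ ⟨true,0,⟨0,[(8,0),(28,0)]⟩,⟨0,[(6,0)]⟩⟩ ⟨false,0,⟨0,[(22,0),(14,0)]⟩,
  ⟨3,[(2,1),(3,1),(5,0),(12,1),(8,0),(4,1)]⟩⟩,.o ⟨false,0,⟨0,[(0,0)]⟩,⟨5,[(12,1),(1,1),(0,0),(6,3),
  (11,0),(3,0)]⟩⟩]⟩) (.Q [0,-1,0,0,0,0,-1,-1,0,1,-1] (.p false [0,0,1] [1] (⟨0,[(28,0)]⟩,⟨0,[(27,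
  0)]⟩) .k 1 (⟨0,[]⟩,⟨0,[]⟩) .k .k) (.S ⟨1,0,[0,0,1,0,0,0,0,-1],[1,1,-1],[1,1,1,1,0,0,0,-1],(⟨0,
  [(28,0),(4,0)]⟩,⟨0,[(18,0)]⟩),⟨0,[(28,0)]⟩,.k,.k,⟨false,0,⟨0,[]⟩,⟨1,[(19,0),(0,0),(19,0)]⟩⟩,⟨true,
  0,⟨0,[(38,0)]⟩,⟨0,[(37,0)]⟩⟩,⟨true,0,⟨0,[(37,0)]⟩,⟨0,[(38,0)]⟩⟩,⟨false,1,⟨1,[(19,0),(0,0),(19,
  0)]⟩,⟨0,[]⟩⟩,[.a ⟨true,0,⟨5,[(0,3),(11,1),(3,0),(15,0),(0,0),(0,1)]⟩,⟨0,[(3,0)]⟩⟩ ⟨false,0,⟨0,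
  [(12,0),(23,0)]⟩,⟨4,[(4,0),(3,2),(5,0),(0,1),(11,0),(12,2)]⟩⟩ ⟨true,0,⟨0,[(12,0)]⟩,⟨0,[(8,0)]⟩⟩,
  .a ⟨true,0,⟨0,[(0,0)]⟩,⟨0,[(24,0)]⟩⟩ ⟨true,0,⟨0,[(10,0)]⟩,⟨0,[(8,0),(29,0)]⟩⟩ ⟨false,1,⟨1,[(12,1),
  (26,0),(0,0)]⟩,⟨0,[(9,0)]⟩⟩,.a ⟨true,0,⟨0,[(23,0)]⟩,⟨0,[(26,0)]⟩⟩ ⟨false,0,⟨0,[(10,0)]⟩,⟨4,[(4,0),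
  (3,2),(5,0),(0,1),(11,0),(12,2)]⟩⟩ ⟨true,0,⟨0,[(12,0)]⟩,⟨0,[(9,0)]⟩⟩,.o ⟨false,0,⟨0,[(11,0)]⟩,⟨2,
  [(13,0),(1,0),(10,2),(4,0)]⟩⟩]⟩) (.I [0,0,-1,-2,0,0,0,1] (.S ⟨1,0,[0,0,-1,-2,0,0,0,1],[0,-1,1],[1,
  1],(⟨0,[(19,0)]⟩,⟨0,[(29,0),(4,0)]⟩),⟨0,[(3,0)]⟩,.k,(.r (-1) ⟨6,[(0,0),(4,1),(9,3),(0,4),(11,1),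
  (12,1)]⟩ ⟨0,[(6,0),(6,0)]⟩),⟨false,0,⟨0,[(11,0)]⟩,⟨3,[(0,0),(8,0),(5,1),(0,0),(24,2)]⟩⟩,⟨true,0,
  ⟨0,[(39,0)]⟩,⟨0,[(38,0)]⟩⟩,⟨true,0,⟨0,[(8,0),(29,0)]⟩,⟨0,[(0,0)]⟩⟩,⟨false,1,⟨1,[(20,0),(0,0),(19,
  0)]⟩,⟨0,[]⟩⟩,[.a ⟨true,0,⟨1,[(0,0),(4,1),(7,0)]⟩,⟨1,[(2,0),(3,0),(1,1),(15,0)]⟩⟩ ⟨false,0,⟨1,[(0,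
  0),(12,0),(23,1)]⟩,⟨1,[(20,0),(0,0),(19,0)]⟩⟩ ⟨true,0,⟨0,[(0,0)]⟩,⟨0,[(6,0),(6,0)]⟩⟩,.o ⟨false,1,
  ⟨1,[(0,0),(4,1),(7,0),(18,0),(8,0)]⟩,⟨0,[(8,0),(3,0),(24,0)]⟩⟩,.a ⟨true,0,⟨0,[(27,0)]⟩,⟨0,[(24,
  0)]⟩⟩ ⟨false,0,⟨0,[]⟩,⟨1,[(20,0),(0,0),(19,0)]⟩⟩ ⟨true,0,⟨0,[(0,0)]⟩,⟨0,[(8,0),(29,0)]⟩⟩,.a ⟨true,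
  0,⟨1,[(27,2),(0,0)]⟩,⟨0,[(2,0)]⟩⟩ ⟨true,0,⟨1,[(0,0),(12,0),(23,1)]⟩,⟨1,[(27,0),(0,0)]⟩⟩ ⟨false,1,
  ⟨1,[(0,0),(8,0),(6,0),(24,0)]⟩,⟨0,[(6,0),(6,0)]⟩⟩]⟩) (.I [1,-1,1,1,0,0,0,1] (.S ⟨1,0,[0,1,1,0,0,0,
  0,1],[0,1,1],[1,0,1,1,0,0,0,1],(⟨0,[(31,0),(3,0)]⟩,⟨0,[(19,0)]⟩),⟨0,[(31,0)]⟩,.k,.k,⟨true,0,⟨0,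
  []⟩,⟨0,[(44,0)]⟩⟩,⟨false,0,⟨0,[(40,0)]⟩,⟨3,[(7,1),(13,0),(0,0),(18,0),(0,1)]⟩⟩,⟨false,1,⟨3,[(7,1),
  (13,0),(0,0),(18,0),(0,1)]⟩,⟨0,[(40,0)]⟩⟩,⟨true,0,⟨0,[(44,0)]⟩,⟨0,[]⟩⟩,[.o ⟨false,0,⟨0,[(2,0)]⟩,
  ⟨0,[(27,0),(14,0)]⟩⟩,.a ⟨true,0,⟨0,[(5,0)]⟩,⟨0,[(14,0),(10,0)]⟩⟩ ⟨true,0,⟨0,[(0,0)]⟩,⟨0,[(14,0),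
  (23,0),(1,1)]⟩⟩ ⟨false,0,⟨0,[(8,0)]⟩,⟨0,[(14,0),(26,0)]⟩⟩,.o ⟨false,1,⟨5,[(1,2),(3,4),(3,1),(7,3),
  (10,0),(8,1)]⟩,⟨0,[(29,0)]⟩⟩,.o ⟨false,1,⟨2,[(15,0),(1,0),(10,2),(4,0)]⟩,⟨0,[(13,0)]⟩⟩]⟩) (.Q [0,
  -1,0,-1,0,0,-1,-1,0,1,-1] (.p false [0,0,1] [1] (⟨0,[(31,0)]⟩,⟨0,[(30,0)]⟩) .k 1 (⟨0,[]⟩,⟨0,[]⟩)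
  .k .k) (.R ⟨1,false,false,true,[1,-1],[0,-1,1],[1,1],(⟨0,[(35,0)]⟩,⟨0,[(36,0)]⟩),(⟨0,[(21,0)]⟩,⟨0,
  [(31,0),(4,0)]⟩),⟨1,[(5,0),(14,0),(14,0)]⟩,.k,.k,(.r (-1) ⟨1,[(18,1),(10,0),(0,0)]⟩ ⟨1,[(8,1),(20,
  0),(0,0)]⟩),.k,.k,.k,⟨true,0,⟨0,[(13,0)]⟩,⟨0,[(11,0),(29,0)]⟩⟩,⟨false,1,⟨11,[(1,1),(0,6),(3,8),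
  (11,5),(10,2),(8,3),(3,0),(0,0)]⟩,⟨1,[(19,0),(15,0),(0,0)]⟩⟩,⟨false,0,⟨3,[(8,1),(20,0),(0,0)]⟩,⟨3,
  [(18,1),(10,0),(0,0),(12,1)]⟩⟩,⟨true,0,⟨0,[(3,0)]⟩,⟨0,[(0,0),(39,0)]⟩⟩,⟨false,0,⟨0,[(8,0)]⟩,⟨3,
  [(7,0),(7,0),(2,1),(11,0),(10,2),(1,1)]⟩⟩,⟨false,1,⟨1,[(3,0),(12,0),(10,0),(15,0)]⟩,⟨0,[(0,0)]⟩⟩,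
  [.o ⟨false,0,⟨0,[(3,0),(37,0)]⟩,⟨0,[(0,0),(15,0)]⟩⟩,.a ⟨true,0,⟨0,[(7,0)]⟩,⟨0,[(10,0),(15,0)]⟩⟩
  ⟨true,0,⟨0,[]⟩,⟨1,[(29,0),(0,0)]⟩⟩ ⟨false,1,⟨7,[(1,0),(2,0),(1,8),(11,3),(19,2),(0,0),(3,0)]⟩,⟨1,
  [(10,1),(8,0),(15,0),(0,0)]⟩⟩,.o ⟨false,0,⟨1,[(29,0),(0,0)]⟩,⟨2,[(16,0),(1,0),(15,0)]⟩⟩,.o ⟨false,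
  0,⟨0,[(29,0),(0,0)]⟩,⟨5,[(1,0),(0,1),(1,2),(1,2),(11,1),(19,2),(0,0),(3,0)]⟩⟩]⟩) (.Q [0,1,0,0,-1,
  0,0,0,1,-1,0,1] (.p true [0,0,0,0,1] [1] (⟨0,[(25,0)]⟩,⟨0,[(24,0)]⟩) .k 1 (⟨0,[]⟩,⟨0,[]⟩) .k .k)
  (.R ⟨1,false,false,true,[0,0,1],[1,0,0,0,-1],[1,0,0,0,0,0,0,1],(⟨0,[(33,0)]⟩,⟨0,[(32,0)]⟩),(⟨0,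
  [(25,0)]⟩,⟨0,[(26,0)]⟩),⟨0,[(22,0)]⟩,.k,.k,.k,.k,(.r 0 ⟨0,[(13,0),(28,0)]⟩ ⟨1,[(11,1),(11,0),(0,
  0),(19,0)]⟩),.k,⟨true,0,⟨0,[(12,0)]⟩,⟨0,[(16,0)]⟩⟩,⟨false,1,⟨0,[(23,0),(3,0)]⟩,⟨11,[(0,9),(0,1),
  (1,2),(3,0),(11,3),(4,1),(5,8),(13,5)]⟩⟩,⟨true,0,⟨0,[]⟩,⟨0,[(46,0)]⟩⟩,⟨true,1,⟨0,[(16,0),(6,0),(3,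
  0)]⟩,⟨0,[(0,0),(6,0)]⟩⟩,⟨false,1,⟨3,[(9,1),(13,0),(0,0),(18,0),(0,1)]⟩,⟨0,[(42,0)]⟩⟩,⟨true,1,⟨0,
  [(11,0),(11,0),(3,0)]⟩,⟨0,[(0,0),(7,0)]⟩⟩,[.o ⟨false,1,⟨0,[(23,0)]⟩,⟨4,[(0,1),(23,2),(14,0),(4,
  0)]⟩⟩,.o ⟨false,2,⟨1,[(23,2),(0,0),(19,0)]⟩,⟨0,[(0,0)]⟩⟩,.o ⟨false,1,⟨2,[(17,0),(1,0),(10,2),(4,
  0)]⟩,⟨0,[(15,0)]⟩⟩,.a ⟨true,0,⟨0,[(30,0)]⟩,⟨0,[(27,0)]⟩⟩ ⟨false,1,⟨1,[(12,1),(30,0),(0,0)]⟩,⟨0,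
  [(16,0)]⟩⟩ ⟨true,1,⟨0,[(23,0),(3,0)]⟩,⟨0,[(0,0),(29,0)]⟩⟩]⟩) (.Q [0,-1,0,-2,0,0,-1,-1,0,1,-1] (.p
  false [0,0,1] [1] (⟨0,[(33,0)]⟩,⟨0,[(32,0)]⟩) .k 1 (⟨0,[]⟩,⟨0,[]⟩) .k .k) (.Q [0,0,-2,0,1,0,1,0,0,
  -1,1] (.p true [0,0,1] [1] (⟨0,[(34,0)]⟩,⟨0,[(33,0)]⟩) .k 1 (⟨0,[]⟩,⟨0,[]⟩) .k .k) (.R ⟨1,false,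
  false,true,[1,-1],[0,0,1],[0,1,1],(⟨0,[(38,0)]⟩,⟨0,[(39,0)]⟩),(⟨0,[(35,0)]⟩,⟨0,[(34,0)]⟩),⟨1,[(8,
  0),(14,0),(14,0)]⟩,.k,.k,(.r (-1) ⟨5,[(1,1),(19,3),(3,0),(0,0),(3,1),(6,0)]⟩ ⟨1,[(11,1),(20,0),(0,
  0)]⟩),.k,(.r (-1) ⟨0,[(18,0),(2,0)]⟩ ⟨0,[(9,0),(1,0),(21,0)]⟩),.k,⟨true,0,⟨0,[(18,0)]⟩,⟨0,[(14,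
  0)]⟩⟩,⟨false,1,⟨0,[(0,0)]⟩,⟨0,[(22,0),(9,0)]⟩⟩,⟨false,0,⟨3,[(11,1),(20,2),(0,2)]⟩,⟨12,[(0,4),(0,
  2),(5,4),(2,2),(10,1),(19,0),(4,4)]⟩⟩,⟨true,0,⟨0,[(3,0)]⟩,⟨5,[(1,3),(11,1),(8,0),(15,0),(0,0),(0,
  1)]⟩⟩,⟨false,0,⟨1,[(11,1),(20,0),(0,0)]⟩,⟨25,[(0,6),(0,11),(5,6),(2,11),(10,7),(19,3),(4,6)]⟩⟩,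
  ⟨false,1,⟨0,[(9,0),(9,0)]⟩,⟨0,[(1,0)]⟩⟩,[.o ⟨false,0,⟨0,[(6,0)]⟩,⟨0,[(31,0),(14,0)]⟩⟩,.a ⟨true,0,
  ⟨0,[(9,0)]⟩,⟨11,[(1,3),(11,7),(8,0),(6,5),(8,0),(0,0),(0,1)]⟩⟩ ⟨true,0,⟨1,[(32,0),(0,0)]⟩,⟨0,[]⟩⟩
  ⟨false,1,⟨0,[(0,0),(13,0)]⟩,⟨1,[(18,1),(3,0),(15,0),(0,0)]⟩⟩,.o ⟨false,0,⟨1,[(32,0),(0,0)]⟩,⟨2,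
  [(19,0),(1,0),(15,0)]⟩⟩,.o ⟨false,0,⟨0,[(32,0),(0,0)]⟩,⟨2,[(0,0),(6,0),(33,0),(3,0)]⟩⟩]⟩) (.K ⟨0,
  [1,-1,-1],(-1),0,(⟨0,[(23,0)]⟩,⟨0,[(35,0),(3,0)]⟩),.k,(.r (-1) ⟨0,[(18,0),(2,0)]⟩ ⟨0,[(9,0),(1,0),
  (21,0)]⟩),.k,(.r (-1) ⟨0,[(13,0),(4,0),(2,0)]⟩ ⟨1,[(9,0),(1,0),(2,2),(18,0)]⟩),.k,[⟨4,[(1,3),(2,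
  5),(0,6),(1,2),(1,16),(31,3),(4,0)]⟩,⟨0,[(0,0)]⟩,⟨0,[(3,0)]⟩,⟨3,[(0,0),(0,1),(0,0),(15,0),(7,0),
  (4,0),(8,2)]⟩]⟩)) (.Q [0,-1,0,0,1,0,0,0,-1,0,0,-1] (.p false [0,0,0,0,1] [] (⟨0,[(27,0)]⟩,⟨0,[(26,
  0)]⟩) .k 0 (⟨0,[]⟩,⟨0,[]⟩) .k .k) (.Q [0,0,0,0,0,0,0,0,-1,1,0,-1] (.p false [0,0,0,0,1] [1] (⟨0,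
  [(28,0)]⟩,⟨0,[(27,0)]⟩) .k 1 (⟨0,[]⟩,⟨0,[]⟩) .k .k) (.Q [0,0,-1,0,0,0,0,0,-1,1,0,-1] (.p false [0,
  0,0,0,1] [1] (⟨0,[(29,0)]⟩,⟨0,[(28,0)]⟩) .k 1 (⟨0,[]⟩,⟨0,[]⟩) .k .k) (.Q [0,0,0,0,0,-1,0,0,0,0,0,
  1] (.ed false [1,-1,0,0,1] .k) (.Q [0,1,0,0,0,0,0,0,1,-1,0,1] (.p true [0,0,0,0,1] [1] (⟨0,[(31,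
  0)]⟩,⟨0,[(30,0)]⟩) .k 1 (⟨0,[]⟩,⟨0,[]⟩) .k .k) (.S ⟨1,0,[0,-1,1],[1,1,0,0,-1],[1,0,1,1],(⟨0,[(31,
  0),(11,0)]⟩,⟨0,[(1,0)]⟩),⟨0,[(31,0)]⟩,(.r (-1) ⟨11,[(6,3),(8,1),(7,3),(6,3),(5,4),(0,4),(12,3)]⟩
  ⟨1,[(8,0),(10,0),(28,0)]⟩),.k,⟨false,0,⟨0,[]⟩,⟨1,[(0,0),(5,0),(43,0)]⟩⟩,⟨true,0,⟨0,[(48,0)]⟩,⟨0,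
  [(47,0)]⟩⟩,⟨true,0,⟨0,[(47,0)]⟩,⟨0,[(48,0)]⟩⟩,⟨false,1,⟨1,[(0,0),(5,0),(43,0)]⟩,⟨0,[]⟩⟩,[.o
  ⟨false,1,⟨0,[(4,0)]⟩,⟨0,[(0,0)]⟩⟩,.e ⟨false,1,⟨7,[(6,1),(8,1),(7,1),(6,1),(18,0),(0,2)]⟩,⟨1,[(8,
  0),(10,0),(28,0)]⟩⟩ ⟨false,1,⟨0,[(50,0)]⟩,⟨0,[(44,0)]⟩⟩,.a ⟨true,0,⟨0,[(2,0)]⟩,⟨1,[(30,1),(5,0),
  (0,0)]⟩⟩ ⟨true,0,⟨3,[(15,1),(20,0),(0,0)]⟩,⟨1,[(8,0),(10,0),(28,0)]⟩⟩ ⟨false,1,⟨1,[(36,0),(0,0),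
  (12,1)]⟩,⟨3,[(7,0),(0,0),(2,0),(32,0)]⟩⟩,.e ⟨false,1,⟨7,[(6,1),(8,1),(7,1),(6,1),(18,0),(0,2)]⟩,
  ⟨0,[(48,0)]⟩⟩ ⟨false,1,⟨0,[(50,0)]⟩,⟨0,[(52,0)]⟩⟩]⟩) (.R ⟨2,false,false,true,[0,1],[1,0,0,0,-1],
  [0,0,1],(⟨0,[]⟩,⟨0,[]⟩),(⟨0,[(31,0)]⟩,⟨0,[(32,0)]⟩),⟨0,[]⟩,.k,.k,.k,(.r 0 ⟨3,[(15,1),(20,0),(0,0),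
  (14,3)]⟩ ⟨3,[(25,1),(10,0),(0,0),(12,1)]⟩),.k,.k,⟨true,0,⟨1,[(36,0),(0,0)]⟩,⟨0,[]⟩⟩,⟨false,0,⟨0,
  [(3,0)]⟩,⟨2,[(23,0),(1,0),(4,2),(10,0)]⟩⟩,⟨true,0,⟨0,[(48,0)]⟩,⟨0,[(47,0)]⟩⟩,⟨false,0,⟨0,[(0,0),
  (47,0)]⟩,⟨3,[(23,1),(5,0),(0,4),(10,0)]⟩⟩,⟨false,1,⟨3,[(6,1),(23,1),(10,0),(8,0)]⟩,⟨0,[]⟩⟩,⟨false,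
  0,⟨0,[(0,0)]⟩,⟨1,[(29,0),(0,2),(10,0)]⟩⟩,[.a ⟨true,0,⟨0,[(3,0)]⟩,⟨0,[(30,0)]⟩⟩ ⟨true,0,⟨1,[(36,0),
  (0,0)]⟩,⟨0,[]⟩⟩ ⟨false,0,⟨0,[(3,0)]⟩,⟨2,[(23,0),(1,0),(4,2),(10,0)]⟩⟩,.e ⟨false,1,⟨3,[(6,1),(23,
  1),(10,0),(8,0)]⟩,⟨3,[(7,0),(0,0),(2,0),(32,0)]⟩⟩ ⟨false,0,⟨0,[(0,0)]⟩,⟨11,[(23,1),(1,1),(3,2),(0,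
  14),(10,4),(2,5)]⟩⟩,.o ⟨false,1,⟨2,[(23,0),(1,0),(15,0)]⟩,⟨1,[(36,0),(0,0)]⟩⟩,.fo]⟩)) (.R ⟨0,
  false,false,true,[0,1,0,0,-1],[1,0,-1,0,-1],[1],(⟨0,[(0,0)]⟩,⟨0,[(31,0),(9,0)]⟩),(⟨0,[(0,0),(25,
  0)]⟩,⟨0,[(31,0),(6,0)]⟩),⟨0,[(31,0)]⟩,(.r (-1) ⟨11,[(5,3),(8,1),(7,3),(6,3),(5,4),(0,4),(12,3)]⟩
  ⟨1,[(7,0),(10,0),(28,0)]⟩),.k,.k,.k,.k,.k,⟨true,0,⟨0,[(17,0)]⟩,⟨0,[(21,0)]⟩⟩,⟨false,0,⟨1,[(25,0),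
  (15,0),(0,0)]⟩,⟨6,[(4,3),(2,3),(16,1),(10,2),(8,0),(4,3)]⟩⟩,⟨true,0,⟨1,[(7,0),(10,0),(28,0)]⟩,⟨3,
  [(14,1),(20,0),(0,0)]⟩⟩,⟨false,0,⟨0,[(21,0),(10,0),(14,0)]⟩,⟨0,[(6,0),(42,0)]⟩⟩,⟨false,0,⟨0,[]⟩,
  ⟨0,[]⟩⟩,⟨false,0,⟨0,[]⟩,⟨0,[]⟩⟩,[.a ⟨true,0,⟨0,[(1,0),(18,0),(0,0)]⟩,⟨0,[(12,0),(16,0)]⟩⟩ ⟨true,0,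
  ⟨0,[]⟩,⟨1,[(35,0),(0,0)]⟩⟩ ⟨false,0,⟨0,[(21,0),(10,0)]⟩,⟨5,[(6,1),(2,2),(12,0),(1,1),(8,0),(15,
  2)]⟩⟩,.o ⟨false,1,⟨1,[(1,1),(19,1),(3,0),(18,0),(4,0)]⟩,⟨0,[(9,0),(19,0)]⟩⟩,.o ⟨false,1,⟨13,[(1,
  9),(1,2),(24,0),(15,7),(3,1),(2,2)]⟩,⟨1,[(29,1),(5,0),(0,0)]⟩⟩,.o ⟨false,1,⟨3,[(2,1),(0,0),(24,0),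
  (15,1),(6,0)]⟩,⟨0,[(29,0)]⟩⟩]⟩)) (.Q [0,0,0,0,0,-1,0,0,0,0,0,1] (.ed false [1,-1,0,0,1] .k) (.S
  ⟨1,0,[0,0,1],[1,1,0,0,-1],[0,-1,1],(⟨0,[(30,0),(11,0)]⟩,⟨0,[(0,0)]⟩),⟨0,[(30,0)]⟩,(.r (-1) ⟨7,[(1,
  4),(3,5),(8,2),(7,0),(6,0),(19,0)]⟩ ⟨1,[(7,0),(10,0),(28,0)]⟩),.k,⟨true,0,⟨0,[(47,0)]⟩,⟨0,[(46,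
  0)]⟩⟩,⟨false,0,⟨0,[(47,0)]⟩,⟨7,[(5,1),(8,1),(7,1),(6,1),(18,0),(0,2)]⟩⟩,⟨false,1,⟨7,[(1,2),(3,3),
  (16,0),(1,0),(4,0),(19,1)]⟩,⟨0,[]⟩⟩,⟨true,0,⟨0,[(51,0)]⟩,⟨0,[]⟩⟩,[.a ⟨true,0,⟨0,[(2,0)]⟩,⟨0,[(29,
  0)]⟩⟩ ⟨false,1,⟨7,[(1,2),(3,3),(16,0),(1,0),(4,0),(19,1)]⟩,⟨3,[(6,0),(0,0),(2,0),(32,0)]⟩⟩ ⟨true,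
  0,⟨1,[(35,0),(0,0)]⟩,⟨0,[]⟩⟩,.o ⟨false,1,⟨0,[(3,0)]⟩,⟨3,[(1,3),(4,0),(0,0),(2,0),(32,0)]⟩⟩,.o
  ⟨false,1,⟨9,[(2,2),(0,3),(20,1),(3,2),(15,0),(0,3)]⟩,⟨0,[(1,0)]⟩⟩,.e ⟨false,1,⟨0,[(49,0)]⟩,⟨0,
  [(51,0)]⟩⟩ ⟨false,1,⟨7,[(1,2),(3,3),(16,0),(1,0),(4,0),(19,1)]⟩,⟨0,[]⟩⟩]⟩) (.R ⟨0,false,false,
  true,[0,1,0,0,-1],[1,0,0,0,-1],[1],(⟨0,[(0,0)]⟩,⟨0,[(31,0),(9,0)]⟩),(⟨0,[(30,0)]⟩,⟨0,[(31,0)]⟩),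
  ⟨0,[(31,0)]⟩,(.r (-1) ⟨7,[(1,4),(3,5),(8,2),(7,0),(6,0),(19,0)]⟩ ⟨1,[(7,0),(10,0),(28,0)]⟩),.k,.k,
  .k,.k,.k,⟨true,0,⟨0,[]⟩,⟨1,[(35,0),(0,0)]⟩⟩,⟨false,0,⟨0,[(41,0),(0,0)]⟩,⟨2,[(22,0),(1,0),(15,
  0)]⟩⟩,⟨true,0,⟨1,[(7,0),(10,0),(28,0)]⟩,⟨3,[(14,1),(20,0),(0,0)]⟩⟩,⟨false,0,⟨0,[(41,0),(0,0),(4,
  0)]⟩,⟨17,[(4,1),(3,1),(1,1),(3,1),(7,2),(21,4),(4,9)]⟩⟩,⟨false,0,⟨0,[]⟩,⟨0,[]⟩⟩,⟨false,0,⟨0,[]⟩,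
  ⟨0,[]⟩⟩,[.a ⟨true,0,⟨0,[(2,0)]⟩,⟨0,[(29,0)]⟩⟩ ⟨true,0,⟨0,[]⟩,⟨1,[(35,0),(0,0)]⟩⟩ ⟨false,0,⟨0,[(41,
  0),(0,0)]⟩,⟨2,[(22,0),(1,0),(15,0)]⟩⟩,.o ⟨false,1,⟨0,[(3,0)]⟩,⟨3,[(1,3),(4,0),(0,0),(2,0),(32,
  0)]⟩⟩,.o ⟨false,1,⟨14,[(2,14),(1,3),(2,3),(2,3),(13,0),(19,9),(2,1),(1,3)]⟩,⟨1,[(29,1),(5,0),(0,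
  0)]⟩⟩,.o ⟨false,1,⟨3,[(2,1),(0,0),(24,0),(15,1),(6,0)]⟩,⟨0,[(29,0)]⟩⟩]⟩))) (.R ⟨1,false,false,
  false,[0,0,1],[0,0,0,0,1],[1,1,0,0,0,0,0,1],(⟨0,[(36,0)]⟩,⟨0,[(35,0)]⟩),(⟨0,[(29,0)]⟩,⟨0,[(28,
  0)]⟩),⟨0,[(25,0)]⟩,.k,.k,.k,.k,(.r (-1) ⟨4,[(11,0),(3,2),(5,0),(0,1),(11,0),(12,2)]⟩ ⟨0,[(14,0),
  (34,0)]⟩),.k,⟨true,0,⟨0,[(15,0)]⟩,⟨0,[(19,0)]⟩⟩,⟨false,0,⟨3,[(0,2),(7,1),(14,0),(3,0)]⟩,⟨1,[(1,0),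
  (1,0),(0,0),(0,0),(27,0)]⟩⟩,⟨false,0,⟨0,[]⟩,⟨3,[(3,1),(23,1),(10,0),(8,0)]⟩⟩,⟨false,0,⟨3,[(0,2),
  (7,1),(10,3),(3,0),(3,0)]⟩,⟨0,[(1,0),(8,0)]⟩⟩,⟨true,0,⟨0,[(44,0)]⟩,⟨0,[(45,0)]⟩⟩,⟨false,0,⟨3,[(0,
  2),(7,1),(5,3),(8,0),(3,0)]⟩,⟨0,[(1,0),(9,0)]⟩⟩,[.o ⟨false,0,⟨0,[(0,0),(48,0)]⟩,⟨0,[(1,0)]⟩⟩,.o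
  ⟨false,0,⟨0,[(0,0)]⟩,⟨0,[(26,0)]⟩⟩,.o ⟨false,1,⟨2,[(20,0),(1,0),(10,2),(4,0)]⟩,⟨0,[(18,0)]⟩⟩,.a
  ⟨true,0,⟨0,[(33,0)]⟩,⟨0,[(30,0)]⟩⟩ ⟨true,0,⟨0,[(16,0)]⟩,⟨0,[(19,0)]⟩⟩ ⟨false,0,⟨3,[(0,2),(7,1),
  (14,0),(3,0)]⟩,⟨0,[(1,0),(31,0)]⟩⟩]⟩)) (.Q [0,1,0,2,-1,0,-1,-1,1,0,-1,1] (.p false [0,0,1] [0,0,0,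
  0,1] (⟨0,[(35,0)]⟩,⟨0,[(34,0)]⟩) .k 2 (⟨0,[(28,0)]⟩,⟨0,[(27,0)]⟩) .k (.r (-1) ⟨0,[(20,0),(25,0)]⟩
  ⟨2,[(4,0),(8,0),(4,0),(21,0)]⟩)) (.Q [0,0,0,0,0,0,0,0,0,0,1,-1] (.ed true [1,0,-1,0,1] (.r 0 ⟨2,
  [(5,0),(8,0),(4,0),(21,0)]⟩ ⟨0,[(21,0),(25,0)]⟩)) (.Q [0,0,-1,0,0,0,0,0,1,-1,0,1] (.p true [0,0,0,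
  0,1] [1] (⟨0,[(30,0)]⟩,⟨0,[(29,0)]⟩) .k 1 (⟨0,[]⟩,⟨0,[]⟩) .k .k) (.S ⟨1,0,[0,-1,0,-1],[1,0,0,0,
  -1],[1],(⟨0,[(30,0)]⟩,⟨0,[(31,0)]⟩),⟨0,[(1,0),(24,0)]⟩,.k,(.r (-1) ⟨3,[(24,1),(10,0),(0,0),(12,
  1)]⟩ ⟨3,[(14,1),(20,0),(0,0),(14,3)]⟩),⟨false,0,⟨0,[]⟩,⟨3,[(5,1),(23,1),(10,0),(8,0)]⟩⟩,⟨true,0,
  ⟨0,[(47,0)]⟩,⟨0,[(46,0)]⟩⟩,⟨true,0,⟨0,[(46,0)]⟩,⟨0,[(47,0)]⟩⟩,⟨false,1,⟨3,[(5,1),(23,1),(10,0),(8,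
  0)]⟩,⟨0,[]⟩⟩,[.a ⟨true,1,⟨0,[(5,0),(41,0)]⟩,⟨1,[(2,0),(0,0),(8,0)]⟩⟩ ⟨true,0,⟨0,[]⟩,⟨1,[(35,0),(0,
  0)]⟩⟩ ⟨false,1,⟨3,[(24,1),(10,0),(0,0),(12,1)]⟩,⟨0,[(46,0)]⟩⟩,.o ⟨false,2,⟨1,[(5,1),(34,0),(6,1),
  (1,0)]⟩,⟨0,[(2,0),(6,0),(37,0)]⟩⟩,.o ⟨false,1,⟨0,[(28,0)]⟩,⟨2,[(3,1),(25,0),(14,0),(4,0)]⟩⟩,.o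
  ⟨false,1,⟨1,[(28,1),(6,0),(0,0)]⟩,⟨0,[(0,0)]⟩⟩]⟩) (.R ⟨1,false,false,true,[0,0,1],[0,0,1,0,-1],[1,
  0,0,0,0,0,0,1],(⟨0,[(38,0)]⟩,⟨0,[(37,0)]⟩),(⟨0,[(1,0)]⟩,⟨0,[(31,0),(5,0)]⟩),⟨0,[(27,0)]⟩,.k,.k,.k,
  .k,(.r 0 ⟨1,[(7,0),(10,0),(28,0)]⟩ ⟨11,[(5,3),(8,1),(7,3),(6,3),(5,4),(0,4),(12,3)]⟩),.k,⟨true,0,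
  ⟨0,[]⟩,⟨1,[(35,0),(0,0)]⟩⟩,⟨false,1,⟨8,[(0,8),(3,3),(2,3),(2,3),(13,1),(19,2),(4,3)]⟩,⟨0,[(29,
  0)]⟩⟩,⟨true,0,⟨0,[]⟩,⟨0,[(51,0)]⟩⟩,⟨true,1,⟨0,[(28,0)]⟩,⟨0,[(3,0)]⟩⟩,⟨false,1,⟨7,[(5,1),(8,1),(7,
  1),(6,1),(18,0),(0,2)]⟩,⟨0,[(47,0)]⟩⟩,⟨true,1,⟨6,[(0,1),(3,0),(0,1),(2,0),(1,0),(11,0),(5,2),(15,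
  0),(0,0)]⟩,⟨0,[(3,0),(43,0)]⟩⟩,[.o ⟨false,1,⟨14,[(0,14),(3,3),(2,3),(2,3),(1,14),(11,0),(19,9),(2,
  1),(1,3)]⟩,⟨7,[(2,1),(0,3),(17,5),(2,1),(0,2),(3,1),(14,0),(4,2)]⟩⟩,.o ⟨false,2,⟨1,[(5,1),(3,1),
  (30,0),(8,0)]⟩,⟨0,[(2,0),(44,1)]⟩⟩,.o ⟨false,1,⟨2,[(22,0),(1,0),(10,2),(4,0)]⟩,⟨0,[(20,0)]⟩⟩,.a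
  ⟨true,0,⟨0,[(35,0)]⟩,⟨0,[(32,0)]⟩⟩ ⟨false,1,⟨1,[(17,1),(30,0),(0,0)]⟩,⟨0,[(21,0)]⟩⟩ ⟨true,1,⟨8,
  [(0,4),(4,3),(0,3),(3,3),(4,2),(1,1),(6,1),(19,2)]⟩,⟨0,[(3,0),(17,0)]⟩⟩]⟩)) (.Q [0,0,-1,0,1,0,0,0,
  -1,0,0,-1] (.p false [0,0,0,0,1] [] (⟨0,[(30,0)]⟩,⟨0,[(29,0)]⟩) .k 0 (⟨0,[]⟩,⟨0,[]⟩) .k .k) (.S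
  ⟨1,0,[0,-1,1],[1,1,0,0,-1],[1,0,1,1],(⟨0,[(30,0),(11,0)]⟩,⟨1,[(1,0),(9,0),(19,0)]⟩),⟨0,[(30,0)]⟩,
  (.r (-1) ⟨11,[(5,3),(8,1),(7,3),(6,3),(5,4),(0,4),(12,3)]⟩ ⟨1,[(7,0),(10,0),(28,0)]⟩),.k,⟨false,0,
  ⟨0,[]⟩,⟨3,[(5,1),(23,1),(10,0),(8,0)]⟩⟩,⟨true,0,⟨0,[(47,0)]⟩,⟨0,[(46,0)]⟩⟩,⟨true,0,⟨0,[(46,0)]⟩,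
  ⟨0,[(47,0)]⟩⟩,⟨false,1,⟨3,[(5,1),(23,1),(10,0),(8,0)]⟩,⟨0,[]⟩⟩,[.a ⟨true,1,⟨0,[(5,0)]⟩,⟨0,[(3,
  0)]⟩⟩ ⟨true,0,⟨3,[(14,1),(20,0),(0,0)]⟩,⟨0,[(47,0)]⟩⟩ ⟨false,1,⟨3,[(5,1),(23,1),(10,0),(8,0)]⟩,⟨3,
  [(6,0),(0,0),(2,0),(32,0)]⟩⟩,.o ⟨false,2,⟨1,[(5,1),(34,0),(8,0)]⟩,⟨0,[(2,0),(6,0),(37,1)]⟩⟩,.o
  ⟨false,1,⟨0,[(0,0)]⟩,⟨5,[(3,3),(25,1),(5,2),(0,2),(7,1),(4,1)]⟩⟩,.o ⟨false,1,⟨0,[(28,0)]⟩,⟨2,[(3,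
  1),(25,0),(14,0),(4,0)]⟩⟩]⟩) (.S ⟨1,0,[0,0,1],[1,1,0,0,-1],[0,-1,1],(⟨0,[(30,0),(11,0)]⟩,⟨1,[(1,
  0),(9,0),(19,0)]⟩),⟨0,[(30,0)]⟩,(.r (-1) ⟨11,[(5,3),(8,1),(7,3),(6,3),(5,4),(0,4),(12,3)]⟩ ⟨1,[(7,
  0),(10,0),(28,0)]⟩),.k,⟨true,0,⟨0,[(47,0)]⟩,⟨0,[(46,0)]⟩⟩,⟨false,0,⟨0,[(47,0)]⟩,⟨7,[(5,1),(8,1),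
  (7,1),(6,1),(18,0),(0,2)]⟩⟩,⟨false,1,⟨3,[(5,1),(23,1),(10,0),(8,0)]⟩,⟨0,[]⟩⟩,⟨true,0,⟨0,[(51,0)]⟩,
  ⟨0,[]⟩⟩,[.o ⟨false,1,⟨0,[(28,0)]⟩,⟨2,[(3,1),(25,0),(14,0),(4,0)]⟩⟩,.e ⟨false,1,⟨0,[(49,0)]⟩,⟨0,
  [(43,0)]⟩⟩ ⟨false,1,⟨3,[(5,1),(23,1),(10,0),(8,0)]⟩,⟨3,[(6,0),(0,0),(2,0),(32,0)]⟩⟩,.a ⟨true,1,⟨3,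
  [(5,3),(0,0),(0,0),(2,0),(32,0)]⟩,⟨0,[(0,0)]⟩⟩ ⟨false,1,⟨1,[(35,0),(0,0),(12,1)]⟩,⟨3,[(6,0),(0,0),
  (2,0),(32,0)]⟩⟩ ⟨true,0,⟨1,[(35,0),(0,0)]⟩,⟨3,[(6,0),(0,0),(2,0),(32,0)]⟩⟩,.o ⟨false,1,⟨0,[(28,
  0)]⟩,⟨2,[(3,1),(25,0),(14,0),(4,0)]⟩⟩]⟩))) (.Q [0,0,0,0,0,0,0,0,0,1,-1,-1] (.ed true [0,0,1,0,1]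
  (.r 0 ⟨0,[(2,0),(5,0),(4,1),(0,1),(30,3)]⟩ ⟨1,[(19,1),(26,0),(0,0)]⟩)) (.Q [0,0,-1,0,0,0,0,0,1,-1,
  0,1] (.p true [0,0,0,0,1] [1] (⟨0,[(30,0)]⟩,⟨0,[(29,0)]⟩) .k 1 (⟨0,[]⟩,⟨0,[]⟩) .k .k) (.R ⟨1,
  false,false,false,[1,0,0,0,-1],[1,0,-1,0,-1],[1],(⟨0,[(30,0)]⟩,⟨0,[(31,0)]⟩),(⟨0,[(1,0)]⟩,⟨0,[(31,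
  0),(6,0)]⟩),⟨1,[(1,0),(9,0),(18,0)]⟩,.k,.k,(.r (-1) ⟨5,[(2,0),(21,1),(4,0),(4,0),(14,2)]⟩ ⟨3,[(14,
  1),(20,0),(0,0),(14,3)]⟩),.k,.k,.k,⟨false,0,⟨0,[(18,0)]⟩,⟨1,[(21,1),(26,0),(0,0)]⟩⟩,⟨true,0,⟨0,
  [(20,0)]⟩,⟨0,[(35,0)]⟩⟩,⟨false,0,⟨0,[]⟩,⟨3,[(5,1),(23,1),(10,0),(8,0)]⟩⟩,⟨false,1,⟨0,[(34,0),(14,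
  0)]⟩,⟨0,[(12,0)]⟩⟩,⟨true,0,⟨0,[(46,0)]⟩,⟨0,[(47,0)]⟩⟩,⟨false,1,⟨21,[(8,7),(1,3),(11,2),(2,1),(8,
  13),(9,0),(4,17)]⟩,⟨0,[(13,0)]⟩⟩,[.a ⟨true,1,⟨0,[(2,0),(7,0),(5,1),(3,0)]⟩,⟨0,[(3,0),(8,0)]⟩⟩
  ⟨true,0,⟨0,[]⟩,⟨1,[(35,0),(0,0)]⟩⟩ ⟨false,1,⟨4,[(7,0),(2,2),(5,0),(4,0),(12,1),(9,0),(4,3)]⟩,⟨0,
  [(33,0)]⟩⟩,.o ⟨false,2,⟨1,[(5,1),(4,0),(9,0),(0,1),(22,0),(4,0)]⟩,⟨0,[(3,0),(5,0)]⟩⟩,.o ⟨false,1,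
  ⟨0,[(28,0)]⟩,⟨2,[(3,1),(25,0),(14,0),(4,0)]⟩⟩,.o ⟨false,1,⟨1,[(28,1),(6,0),(0,0)]⟩,⟨0,[(0,
  0)]⟩⟩]⟩) (.R ⟨1,false,false,false,[1,0,0,0,-1],[1,-1],[0,0,0,-1],(⟨0,[(30,0)]⟩,⟨0,[(31,0)]⟩),(⟨0,
  [(41,0)]⟩,⟨0,[(42,0)]⟩),⟨1,[(1,0),(9,0),(18,0)]⟩,.k,.k,(.r (-1) ⟨5,[(2,0),(21,1),(4,0),(4,0),(14,
  2)]⟩ ⟨3,[(14,1),(20,0),(0,0),(14,3)]⟩),(.r (-1) ⟨11,[(5,3),(8,1),(7,3),(6,3),(5,4),(0,4),(12,3)]⟩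
  ⟨1,[(7,0),(10,0),(28,0)]⟩),.k,.k,⟨true,0,⟨1,[(35,0),(0,0)]⟩,⟨0,[]⟩⟩,⟨false,0,⟨0,[(29,0)]⟩,⟨20,[(0,
  6),(1,5),(1,5),(0,7),(1,7),(0,3),(1,11),(33,6)]⟩⟩,⟨false,0,⟨0,[(47,0)]⟩,⟨7,[(5,1),(8,1),(7,1),(6,
  1),(18,0),(0,2)]⟩⟩,⟨true,(-1),⟨0,[(3,0),(43,0)]⟩,⟨6,[(0,1),(3,0),(0,1),(2,0),(1,0),(11,0),(5,2),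
  (15,0),(0,0)]⟩⟩,⟨true,0,⟨0,[(51,0)]⟩,⟨0,[]⟩⟩,⟨true,(-1),⟨0,[(3,0)]⟩,⟨0,[(28,0)]⟩⟩,[.o ⟨false,0,⟨0,
  [(47,0)]⟩,⟨3,[(22,1),(5,0),(0,0),(10,0)]⟩⟩,.o ⟨false,1,⟨1,[(2,0),(26,0),(4,0),(14,0)]⟩,⟨3,[(0,1),
  (2,1),(0,0),(5,0),(5,0),(27,1),(0,0)]⟩⟩,.o ⟨false,1,⟨0,[(28,0)]⟩,⟨2,[(3,1),(25,0),(14,0),(4,0)]⟩⟩,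
  .a ⟨true,0,⟨0,[(0,0)]⟩,⟨1,[(3,1),(44,0),(0,0)]⟩⟩ ⟨false,1,⟨5,[(2,0),(21,1),(4,0),(4,0),(14,2)]⟩,
  ⟨3,[(14,1),(20,0),(0,0)]⟩⟩ ⟨true,0,⟨2,[(3,1),(20,0),(4,0),(17,0),(1,0)]⟩,⟨3,[(0,5),(2,1),(0,0),(5,
  0),(5,0),(27,1),(0,0)]⟩⟩]⟩)) (.Q [0,0,-1,0,1,0,0,0,-1,0,0,-1] (.p false [0,0,0,0,1] [] (⟨0,[(30,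
  0)]⟩,⟨0,[(29,0)]⟩) .k 0 (⟨0,[]⟩,⟨0,[]⟩) .k .k) (.S ⟨1,0,[0,-1,1],[1,1,0,0,-1],[1,0,1,1],(⟨0,[(30,
  0),(11,0)]⟩,⟨0,[(1,0),(24,0)]⟩),⟨0,[(30,0)]⟩,(.r (-1) ⟨11,[(5,3),(8,1),(7,3),(6,3),(5,4),(0,4),
  (12,3)]⟩ ⟨1,[(7,0),(10,0),(28,0)]⟩),.k,⟨false,0,⟨0,[]⟩,⟨3,[(5,1),(23,1),(10,0),(8,0)]⟩⟩,⟨true,0,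
  ⟨0,[(47,0)]⟩,⟨0,[(46,0)]⟩⟩,⟨true,0,⟨0,[(46,0)]⟩,⟨0,[(47,0)]⟩⟩,⟨false,1,⟨3,[(5,1),(23,1),(10,0),(8,
  0)]⟩,⟨0,[]⟩⟩,[.a ⟨true,1,⟨0,[(5,0)]⟩,⟨0,[(3,0)]⟩⟩ ⟨true,0,⟨3,[(14,1),(20,0),(0,0)]⟩,⟨0,[(47,0)]⟩⟩
  ⟨false,1,⟨3,[(5,1),(23,1),(10,0),(8,0)]⟩,⟨3,[(6,0),(0,0),(2,0),(32,0)]⟩⟩,.e ⟨false,1,⟨7,[(5,1),(8,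
  1),(7,1),(6,1),(18,0),(0,2)]⟩,⟨1,[(7,0),(10,0),(28,0)]⟩⟩ ⟨false,1,⟨0,[(49,0)]⟩,⟨0,[(43,0)]⟩⟩,.o
  ⟨false,1,⟨0,[(0,0)]⟩,⟨5,[(3,3),(25,1),(5,2),(0,2),(7,1),(4,1)]⟩⟩,.o ⟨false,1,⟨0,[(28,0)]⟩,⟨2,[(3,
  1),(25,0),(14,0),(4,0)]⟩⟩]⟩) (.K ⟨0,[0,0,0,0,1],(-1),(-1),(⟨0,[(31,0)]⟩,⟨0,[(30,0)]⟩),.k,(.r 0 ⟨1,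
  [(7,0),(10,0),(28,0)]⟩ ⟨11,[(5,3),(8,1),(7,3),(6,3),(5,4),(0,4),(12,3)]⟩),(.r 0 ⟨3,[(14,1),(20,0),
  (0,0),(14,3)]⟩ ⟨5,[(2,0),(21,1),(4,0),(4,0),(14,2)]⟩),.k,.k,[⟨7,[(2,3),(1,2),(0,2),(1,3),(0,2),
  (19,0),(6,0)]⟩,⟨0,[(0,0)]⟩,⟨0,[(28,0)]⟩,⟨0,[(3,0),(47,0)]⟩]⟩))))))))))))) (.R ⟨2,true,false,true,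
  [0,1],[0,0,1],[0,0,1],(⟨0,[]⟩,⟨0,[]⟩),(⟨0,[(26,0)]⟩,⟨0,[(25,0)]⟩),⟨0,[]⟩,.k,.k,.k,.k,.k,.k,⟨false,
  1,⟨1,[(9,1),(26,0),(0,0)]⟩,⟨0,[(6,0)]⟩⟩,⟨true,0,⟨0,[(23,0)]⟩,⟨0,[(8,0)]⟩⟩,⟨true,0,⟨0,[(35,0)]⟩,⟨0,
  [(34,0)]⟩⟩,⟨false,0,⟨0,[(1,0)]⟩,⟨3,[(0,1),(3,1),(5,0),(2,0),(22,0),(0,1)]⟩⟩,⟨false,1,⟨1,[(16,0),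
  (0,0),(19,0)]⟩,⟨0,[]⟩⟩,⟨true,0,⟨0,[(21,0)]⟩,⟨0,[(0,0)]⟩⟩,[]⟩))

theorem ok7 : chk K t7 r11 = true := by decide +kernel

noncomputable def t9 : Tre :=
  (.Q [0,-1,0,-2,0,0,0,0,0,1] (.pp false [-1,1]) (.S ⟨1,0,[0,0,-1,-2],[1,-1],[1,1],(⟨0,[(28,0)]⟩,⟨0,
  [(29,0)]⟩),⟨0,[(13,0),(0,0)]⟩,.k,(.r (-1) ⟨5,[(0,1),(10,3),(3,0),(0,0),(10,0),(10,1)]⟩ ⟨0,[(3,1),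
  (0,1)]⟩),⟨false,0,⟨0,[(3,0),(0,0)]⟩,⟨11,[(0,1),(10,3),(3,1),(0,1),(10,0),(8,4)]⟩⟩,⟨true,0,⟨0,[(34,
  0)]⟩,⟨0,[(33,0)]⟩⟩,⟨true,0,⟨0,[(3,0),(0,0),(28,0)]⟩,⟨0,[(1,0)]⟩⟩,⟨false,1,⟨1,[(15,0),(0,0),(19,
  0)]⟩,⟨0,[]⟩⟩,[.o ⟨false,0,⟨1,[(1,1),(20,0),(0,0)]⟩,⟨0,[(9,0)]⟩⟩,.a ⟨true,0,⟨0,[(0,0)]⟩,⟨0,[(3,0),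
  (0,0),(27,0)]⟩⟩ ⟨true,0,⟨0,[]⟩,⟨1,[(22,0),(0,0)]⟩⟩ ⟨false,1,⟨1,[(1,0),(9,0),(24,0)]⟩,⟨0,[(3,0),(0,
  0),(28,0)]⟩⟩,.o ⟨false,0,⟨1,[(22,0),(0,0)]⟩,⟨2,[(9,0),(1,0),(15,0)]⟩⟩,.o ⟨false,0,⟨0,[(22,0),(0,
  0)]⟩,⟨2,[(1,1),(29,0),(0,3),(3,1)]⟩⟩]⟩) (.Q [0,1,0,1,0,0,1,1,0,-1,1] (.p true [0,0,1] [1] (⟨0,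
  [(25,0)]⟩,⟨0,[(24,0)]⟩) .k 1 (⟨0,[]⟩,⟨0,[]⟩) .k .k) (.R ⟨1,false,false,false,[0,0,1],[1,-1],[1,0,
  0,0,0,0,0,1],(⟨0,[(26,0)]⟩,⟨0,[(25,0)]⟩),(⟨0,[(29,0)]⟩,⟨0,[(30,0)]⟩),⟨0,[(15,0)]⟩,.k,.k,.k,.k,.k,
  .k,⟨true,0,⟨0,[(4,0),(0,1)]⟩,⟨0,[(2,0),(1,0)]⟩⟩,⟨false,0,⟨1,[(13,0),(15,0),(0,0)]⟩,⟨1,[(0,1),(1,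
  0),(1,1),(7,0),(24,0)]⟩⟩,⟨true,0,⟨0,[]⟩,⟨0,[(39,0)]⟩⟩,⟨true,0,⟨3,[(2,1),(6,3),(3,0),(6,1),(8,0),
  (0,0)]⟩,⟨0,[(0,0)]⟩⟩,⟨false,1,⟨0,[(34,0),(2,0)]⟩,⟨0,[(35,0)]⟩⟩,⟨true,0,⟨0,[(9,0),(10,0)]⟩,⟨3,[(0,
  3),(1,1),(20,0),(0,0)]⟩⟩,[.o ⟨false,0,⟨0,[(35,0)]⟩,⟨3,[(10,1),(5,0),(0,0),(10,0)]⟩⟩,.o ⟨false,1,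
  ⟨3,[(12,1),(10,2),(0,2),(12,1)]⟩,⟨4,[(0,0),(0,3),(0,1),(6,0),(14,0)]⟩⟩,.o ⟨false,1,⟨2,[(10,0),(1,
  0),(10,2),(4,0)]⟩,⟨0,[(8,0)]⟩⟩,.a ⟨true,0,⟨0,[(23,0)]⟩,⟨0,[(20,0)]⟩⟩ ⟨false,1,⟨1,[(5,1),(30,0),(0,
  0)]⟩,⟨0,[(9,0)]⟩⟩ ⟨true,0,⟨3,[(2,1),(10,0),(6,1),(8,0),(0,0)]⟩,⟨0,[(0,0),(8,0)]⟩⟩]⟩) (.S ⟨1,0,[0,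
  0,0,-1,0,0,0,1],[0,0,1],[1,1,0,0,0,0,0,1],(⟨0,[(26,0)]⟩,⟨0,[(25,0)]⟩),⟨0,[(15,0)]⟩,.k,.k,⟨false,0,
  ⟨0,[]⟩,⟨1,[(16,0),(0,0),(19,0)]⟩⟩,⟨true,0,⟨0,[(35,0)]⟩,⟨0,[(34,0)]⟩⟩,⟨true,0,⟨0,[(34,0)]⟩,⟨0,[(35,
  0)]⟩⟩,⟨false,1,⟨1,[(16,0),(0,0),(19,0)]⟩,⟨0,[]⟩⟩,[.o ⟨false,1,⟨3,[(2,1),(18,3),(1,0),(0,0),(3,1),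
  (8,1)]⟩,⟨0,[(0,0),(0,0)]⟩⟩,.o ⟨false,1,⟨3,[(1,0),(0,2),(2,2),(15,0),(1,2),(8,0),(4,2)]⟩,⟨2,[(1,0),
  (2,0),(15,0),(1,1)]⟩⟩,.o ⟨false,1,⟨2,[(10,0),(1,0),(10,2),(4,0)]⟩,⟨0,[(8,0)]⟩⟩,.a ⟨true,0,⟨0,[(23,
  0)]⟩,⟨0,[(20,0)]⟩⟩ ⟨true,0,⟨0,[(6,0)]⟩,⟨0,[(9,0)]⟩⟩ ⟨false,1,⟨3,[(2,0),(2,1),(5,1),(0,0),(24,2)]⟩,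
  ⟨0,[(7,0)]⟩⟩]⟩)))

theorem ok9 : chk K t9 r10 = true := by decide +kernel

noncomputable def t14 : Tre :=
  (.I [1,-1,-1,-1,1,0,0,1] (.I [0,-1,-1,-1,1,0,0,1] (.S ⟨1,0,[0,0,1,0,0,0,0,-1],[1,1,-1],[1,1,1,1,0,
  0,0,-1],(⟨0,[(21,0),(4,0)]⟩,⟨0,[(11,0)]⟩),⟨0,[(21,0)]⟩,.k,.k,⟨false,0,⟨0,[]⟩,⟨1,[(12,0),(0,0),(19,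
  0)]⟩⟩,⟨true,0,⟨0,[(31,0)]⟩,⟨0,[(30,0)]⟩⟩,⟨true,0,⟨0,[(30,0)]⟩,⟨0,[(31,0)]⟩⟩,⟨false,1,⟨1,[(12,0),
  (0,0),(19,0)]⟩,⟨0,[]⟩⟩,[.o ⟨false,0,⟨0,[(2,0),(1,0),(24,0),(1,0)]⟩,⟨3,[(0,1),(5,0),(10,1),(1,1),
  (8,0)]⟩⟩,.a ⟨true,0,⟨0,[(2,0),(13,0)]⟩,⟨0,[(17,0)]⟩⟩ ⟨false,0,⟨0,[(2,0),(26,0)]⟩,⟨0,[(0,0),(34,
  0)]⟩⟩ ⟨true,0,⟨0,[(2,0)]⟩,⟨0,[(7,0)]⟩⟩,.e ⟨false,0,⟨0,[(3,0)]⟩,⟨0,[(0,0)]⟩⟩ ⟨false,0,⟨0,[(2,0)]⟩,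
  ⟨3,[(0,1),(5,0),(2,0),(7,1),(14,0)]⟩⟩,.o ⟨false,0,⟨0,[(4,0)]⟩,⟨2,[(6,0),(1,0),(10,2),(4,0)]⟩⟩]⟩)
  (.I [0,0,1,0,0,1,1,0,-1] (.N [0,-1,1,0,-1] (-1) ⟨0,[(2,0)]⟩ ⟨0,[(1,0)]⟩ (.x 0 ⟨0,[(0,0)]⟩ ⟨1,[(10,
  0),(1,1),(1,1),(0,1),(13,0),(3,0)]⟩)) (.I [0,-1,0,-1,0,0,0,-1] (.Q [0,-1,0,-1,0,0,0,0,0,1] (.pp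
  false [-1,1]) (.R ⟨1,false,false,false,[1,0,-1],[1,-1],[1,1],(⟨0,[(24,0)]⟩,⟨0,[(25,0)]⟩),(⟨0,[(28,
  0)]⟩,⟨0,[(29,0)]⟩),⟨0,[(13,0)]⟩,.k,.k,.k,.k,.k,.k,⟨false,0,⟨0,[(33,0)]⟩,⟨2,[(4,0),(3,0),(2,0),(24,
  0)]⟩⟩,⟨true,0,⟨0,[(22,0)]⟩,⟨0,[(7,0)]⟩⟩,⟨true,0,⟨0,[(10,0)]⟩,⟨3,[(1,0),(1,0),(2,1),(4,0)]⟩⟩,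
  ⟨false,1,⟨0,[(4,0),(17,0)]⟩,⟨5,[(1,1),(1,3),(5,1),(2,0),(6,3),(11,0),(4,0)]⟩⟩,⟨false,1,⟨1,[(9,0),
  (2,0),(7,1),(15,0)]⟩,⟨0,[(1,0)]⟩⟩,⟨false,1,⟨0,[(20,0),(15,0)]⟩,⟨7,[(1,3),(1,1),(5,0),(2,1),(6,1),
  (1,1),(9,0)]⟩⟩,[.o ⟨false,0,⟨0,[(34,0)]⟩,⟨3,[(9,1),(5,0),(0,0),(10,0)]⟩⟩,.a ⟨true,0,⟨0,[(0,0)]⟩,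
  ⟨0,[(33,0)]⟩⟩ ⟨true,0,⟨0,[]⟩,⟨1,[(22,0),(0,0)]⟩⟩ ⟨false,1,⟨2,[(1,1),(9,0),(8,1),(1,0),(9,0),(3,
  1)]⟩,⟨7,[(3,1),(5,0),(0,1),(1,3),(18,0),(0,1),(0,1)]⟩⟩,.o ⟨false,0,⟨0,[(7,0)]⟩,⟨2,[(9,0),(1,0),
  (10,2),(4,0)]⟩⟩,.o ⟨false,0,⟨0,[(23,0)]⟩,⟨8,[(1,3),(9,1),(8,3),(1,4),(8,2),(0,7),(3,3)]⟩⟩]⟩) (.R
  ⟨1,false,false,false,[0,0,1],[1,-1],[1,1,0,0,0,0,0,1],(⟨0,[(25,0)]⟩,⟨0,[(24,0)]⟩),(⟨0,[(28,0)]⟩,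
  ⟨0,[(29,0)]⟩),⟨0,[(14,0)]⟩,.k,.k,.k,.k,.k,.k,⟨true,0,⟨0,[(3,0),(6,1),(25,0)]⟩,⟨0,[(1,0)]⟩⟩,⟨false,
  0,⟨1,[(12,0),(15,0),(0,0)]⟩,⟨8,[(1,3),(9,1),(8,3),(1,4),(8,2),(0,7),(3,3)]⟩⟩,⟨false,0,⟨0,[]⟩,⟨1,
  [(15,0),(0,0),(19,0)]⟩⟩,⟨false,0,⟨1,[(1,1),(10,0),(15,0),(0,0)]⟩,⟨0,[(0,0),(19,0),(15,0)]⟩⟩,⟨true,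
  0,⟨0,[(33,0)]⟩,⟨0,[(34,0)]⟩⟩,⟨false,0,⟨0,[(5,0),(13,0)]⟩,⟨5,[(4,1),(4,0),(10,3),(1,1),(4,0),(3,0),
  (4,0)]⟩⟩,[.o ⟨false,0,⟨0,[(34,0)]⟩,⟨3,[(9,1),(5,0),(0,0),(10,0)]⟩⟩,.o ⟨false,1,⟨0,[(4,0),(3,0)]⟩,
  ⟨0,[(0,0)]⟩⟩,.o ⟨false,1,⟨2,[(9,0),(1,0),(10,2),(4,0)]⟩,⟨0,[(7,0)]⟩⟩,.a ⟨true,0,⟨0,[(22,0)]⟩,⟨0,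
  [(19,0)]⟩⟩ ⟨false,1,⟨3,[(4,1),(4,0),(2,0),(7,1),(14,0)]⟩,⟨0,[(5,0)]⟩⟩ ⟨true,0,⟨0,[(19,0),(14,0)]⟩,
  ⟨0,[(0,0),(21,0)]⟩⟩]⟩)) (.Q [0,0,2,0,0,0,1,0,0,-1,1] (.p true [0,0,1] [1] (⟨0,[(24,0)]⟩,⟨0,[(23,
  0)]⟩) .k 1 (⟨0,[]⟩,⟨0,[]⟩) .k .k) (.Q [0,0,0,0,0,-2,0,0,0,0,1] (.p true [0,0,1] [] (⟨0,[(25,0)]⟩,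
  ⟨0,[(24,0)]⟩) .k 0 (⟨0,[]⟩,⟨0,[]⟩) .k .k) (.R ⟨1,false,false,false,[0,-1,1],[1,-1],[1,1,-1,-1,0,0,
  0,1],(⟨0,[(15,0)]⟩,⟨0,[(25,0),(4,0)]⟩),(⟨0,[(29,0)]⟩,⟨0,[(30,0)]⟩),⟨0,[(0,0)]⟩,.k,.k,(.r (-1) ⟨1,
  [(5,0),(5,0),(0,0),(22,0)]⟩ ⟨3,[(2,1),(1,1),(2,3),(15,0),(0,0),(12,1)]⟩),.k,.k,.k,⟨true,0,⟨0,[(11,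
  0)]⟩,⟨0,[(6,0)]⟩⟩,⟨false,0,⟨0,[(20,0)]⟩,⟨2,[(10,0),(1,0),(10,2),(4,0)]⟩⟩,⟨false,0,⟨0,[]⟩,⟨1,[(16,
  0),(0,0),(19,0)]⟩⟩,⟨false,0,⟨0,[(6,0),(13,0)]⟩,⟨5,[(5,1),(4,0),(10,3),(1,1),(4,0),(3,0),(4,0)]⟩⟩,
  ⟨true,0,⟨0,[(34,0)]⟩,⟨0,[(35,0)]⟩⟩,⟨false,0,⟨0,[(4,0),(15,0),(16,0)]⟩,⟨4,[(1,2),(3,2),(6,0),(8,1),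
  (6,0),(10,0)]⟩⟩,[.o ⟨false,0,⟨0,[(35,0)]⟩,⟨3,[(10,1),(5,0),(0,0),(10,0)]⟩⟩,.o ⟨false,1,⟨0,[(5,0),
  (3,0)]⟩,⟨2,[(2,0),(1,0),(27,0),(0,0)]⟩⟩,.a ⟨true,0,⟨0,[(23,0)]⟩,⟨0,[(20,0)]⟩⟩ ⟨false,1,⟨0,[(5,0),
  (33,0)]⟩,⟨0,[(4,0),(32,0)]⟩⟩ ⟨true,0,⟨0,[(20,0),(14,0)]⟩,⟨4,[(1,0),(2,1),(5,0),(10,1),(1,1),(8,0),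
  (0,0)]⟩⟩,.o ⟨false,0,⟨0,[(1,0)]⟩,⟨5,[(10,1),(1,1),(0,0),(6,3),(11,0),(3,0)]⟩⟩]⟩) (.R ⟨0,false,
  false,true,[0,-1,1],[1,-1],[0,1],(⟨0,[(15,0)]⟩,⟨0,[(0,0),(28,0)]⟩),(⟨0,[(29,0)]⟩,⟨0,[(30,0)]⟩),⟨0,
  [(0,0)]⟩,.k,.k,(.r (-1) ⟨1,[(5,0),(5,0),(0,0),(22,0)]⟩ ⟨3,[(2,1),(1,1),(2,3),(15,0),(0,0),(12,
  1)]⟩),.k,.k,.k,⟨true,0,⟨3,[(2,1),(1,1),(18,0),(0,0),(12,1)]⟩,⟨0,[(35,0)]⟩⟩,⟨false,0,⟨0,[(20,0)]⟩,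
  ⟨2,[(10,0),(1,0),(10,2),(4,0)]⟩⟩,⟨false,0,⟨0,[(2,0),(1,1),(28,0),(1,2),(1,1)]⟩,⟨0,[(5,0)]⟩⟩,⟨true,
  (-1),⟨0,[(4,0),(15,0),(14,0)]⟩,⟨5,[(5,1),(4,0),(10,3),(1,1),(4,0),(3,0),(4,0)]⟩⟩,⟨false,0,⟨0,[]⟩,
  ⟨0,[]⟩⟩,⟨false,0,⟨0,[]⟩,⟨0,[]⟩⟩,[.o ⟨false,0,⟨0,[(35,0),(3,0)]⟩,⟨2,[(2,0),(1,0),(27,0),(0,0),(3,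
  2)]⟩⟩,.o ⟨false,0,⟨0,[(35,0)]⟩,⟨3,[(10,1),(5,0),(0,0),(10,0)]⟩⟩,.a ⟨true,0,⟨0,[(23,0)]⟩,⟨0,[(20,
  0)]⟩⟩ ⟨true,0,⟨0,[(39,0)]⟩,⟨0,[]⟩⟩ ⟨false,0,⟨0,[(20,0),(14,0)]⟩,⟨3,[(4,1),(5,0),(10,1),(1,1),(8,
  0),(4,3)]⟩⟩,.o ⟨false,0,⟨0,[(1,0)]⟩,⟨5,[(10,1),(1,1),(0,0),(6,3),(11,0),(3,0)]⟩⟩]⟩)) (.Q [0,0,0,0,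
  0,-2,0,0,0,0,1] (.p true [0,0,1] [] (⟨0,[(25,0)]⟩,⟨0,[(24,0)]⟩) .k 0 (⟨0,[]⟩,⟨0,[]⟩) .k .k) (.R
  ⟨1,false,false,true,[0,-1,1],[1,-1],[0,0,-1,-2,0,0,0,1],(⟨0,[(15,0)]⟩,⟨0,[(25,0),(4,0)]⟩),(⟨0,
  [(29,0)]⟩,⟨0,[(30,0)]⟩),⟨0,[(0,0)]⟩,.k,.k,(.r (-1) ⟨1,[(5,0),(5,0),(0,0),(22,0)]⟩ ⟨3,[(2,1),(1,1),
  (2,3),(15,0),(0,0),(12,1)]⟩),.k,.k,.k,⟨true,1,⟨1,[(5,1),(17,0),(0,0)]⟩,⟨0,[(4,0)]⟩⟩,⟨false,0,⟨0,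
  [(20,0)]⟩,⟨2,[(10,0),(1,0),(10,2),(4,0)]⟩⟩,⟨true,0,⟨0,[(35,0)]⟩,⟨0,[(34,0)]⟩⟩,⟨true,(-1),⟨0,[(4,
  0),(15,0),(14,0)]⟩,⟨5,[(5,1),(4,0),(10,3),(1,1),(4,0),(3,0),(4,0)]⟩⟩,⟨false,1,⟨1,[(16,0),(0,0),
  (19,0)]⟩,⟨0,[]⟩⟩,⟨true,(-1),⟨0,[(4,0),(15,0)]⟩,⟨1,[(5,0),(15,0),(1,0),(4,0),(6,0)]⟩⟩,[.o ⟨false,0,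
  ⟨0,[(35,0),(3,0)]⟩,⟨2,[(2,0),(1,0),(27,0),(0,0),(3,2)]⟩⟩,.o ⟨false,0,⟨0,[(35,0)]⟩,⟨3,[(10,1),(5,
  0),(0,0),(10,0)]⟩⟩,.e ⟨false,1,⟨0,[(5,0),(29,0)]⟩,⟨2,[(2,0),(1,1),(2,1),(25,0),(3,1)]⟩⟩ ⟨false,0,
  ⟨0,[(20,0),(14,0)]⟩,⟨3,[(4,1),(5,0),(10,1),(1,1),(8,0),(4,3)]⟩⟩,.a ⟨true,0,⟨1,[(23,2),(0,0)]⟩,⟨0,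
  [(1,0)]⟩⟩ ⟨true,1,⟨1,[(5,0),(5,0),(0,0),(22,0)]⟩,⟨3,[(2,1),(1,5),(18,0),(0,0),(12,1)]⟩⟩ ⟨false,0,
  ⟨0,[(1,0),(33,0)]⟩,⟨7,[(2,1),(1,1),(5,1),(12,10),(0,2),(7,1),(4,5)]⟩⟩]⟩) (.I [0,0,-1,0,0,-1,-1,0,
  1] (.N [0,-1,1,0,-1] (-1) ⟨0,[(6,0)]⟩ ⟨0,[(5,0)]⟩ (.x (-1) ⟨0,[(1,0),(5,0),(9,0),(2,0),(1,0),(5,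
  0)]⟩ ⟨0,[(0,0)]⟩)) (.Q [0,0,0,0,0,0,0,0,-1,1,0,-1] (.p false [0,0,0,0,1] [1] (⟨0,[(20,0)]⟩,⟨0,
  [(19,0)]⟩) .k 1 (⟨0,[]⟩,⟨0,[]⟩) .k .k) (.Q [0,0,-1,0,0,0,0,0,1,0,0,1] (.p true [0,0,0,0,1] [] (⟨0,
  [(21,0)]⟩,⟨0,[(20,0)]⟩) .k 0 (⟨0,[]⟩,⟨0,[]⟩) .k .k) (.S ⟨1,0,[0,1,1],[0,1,0,0,1],[1,2,1,1],(⟨0,
  [(22,0),(10,0)]⟩,⟨0,[(1,0),(1,0),(2,0),(0,0),(16,0),(5,1),(7,0),(1,0)]⟩),⟨0,[(22,0)]⟩,(.r 0 ⟨0,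
  [(5,0),(6,0)]⟩ ⟨2,[(8,0),(3,0),(2,0),(24,0)]⟩),.k,⟨false,0,⟨0,[]⟩,⟨1,[(19,0),(0,0),(19,0)]⟩⟩,
  ⟨true,0,⟨0,[(38,0)]⟩,⟨0,[(37,0)]⟩⟩,⟨true,0,⟨0,[(37,0)]⟩,⟨0,[(38,0)]⟩⟩,⟨false,1,⟨1,[(19,0),(0,0),
  (19,0)]⟩,⟨0,[]⟩⟩,[.o ⟨false,0,⟨5,[(0,0),(6,1),(6,1),(5,4),(13,0),(0,1),(2,1)]⟩,⟨3,[(1,2),(17,0),
  (15,0),(4,1)]⟩⟩,.a ⟨true,0,⟨0,[(20,0)]⟩,⟨0,[(1,0)]⟩⟩ ⟨false,0,⟨0,[(37,0)]⟩,⟨2,[(8,0),(3,0),(2,0),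
  (24,0)]⟩⟩ ⟨true,0,⟨1,[(26,0),(0,0)]⟩,⟨0,[]⟩⟩,.a ⟨true,0,⟨0,[(0,0)]⟩,⟨1,[(1,1),(24,0),(0,0)]⟩⟩
  ⟨true,(-1),⟨0,[(7,0),(6,0)]⟩,⟨2,[(8,0),(3,0),(2,0),(24,0)]⟩⟩ ⟨false,0,⟨1,[(26,0),(0,0)]⟩,⟨1,[(39,
  0),(0,0)]⟩⟩,.a ⟨true,0,⟨0,[(20,0)]⟩,⟨0,[(1,0)]⟩⟩ ⟨false,0,⟨0,[(37,0)]⟩,⟨0,[(38,0),(1,0)]⟩⟩ ⟨true,
  0,⟨0,[(42,0)]⟩,⟨0,[]⟩⟩]⟩) (.Q [0,0,2,0,0,0,1,0,1,-1,1,1] (.p true [0,0,1,0,1] [1] (⟨0,[(22,0),(6,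
  0)]⟩,⟨2,[(0,1),(2,4),(0,1),(1,1),(0,3),(13,0),(2,3),(5,7),(7,3),(1,3)]⟩) .k 1 (⟨0,[]⟩,⟨0,[]⟩) .k
  (.r 0 ⟨0,[(5,0),(32,0)]⟩ ⟨1,[(12,1),(26,0),(0,0)]⟩)) (.R ⟨0,false,false,true,[0,-1,1],[1,0,0,0,
  -1],[1,1],(⟨0,[(19,0)]⟩,⟨0,[(4,0),(28,0)]⟩),(⟨0,[(22,0)]⟩,⟨0,[(23,0)]⟩),⟨0,[(4,0)]⟩,.k,.k,(.r
  (-1) ⟨1,[(9,0),(5,0),(0,0),(22,0)]⟩ ⟨3,[(6,1),(1,1),(2,3),(15,0),(0,0),(12,1)]⟩),(.r (-1) ⟨0,[(9,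
  0),(33,1)]⟩ ⟨0,[(8,0),(32,0)]⟩),.k,.k,⟨false,0,⟨12,[(5,2),(2,2),(7,1),(8,2),(9,2),(0,0),(0,0)]⟩,
  ⟨1,[(20,0),(0,0),(19,0)]⟩⟩,⟨true,0,⟨0,[(1,0),(3,0)]⟩,⟨0,[(0,0)]⟩⟩,⟨true,(-1),⟨0,[(8,0)]⟩,⟨0,[(9,
  0),(33,0)]⟩⟩,⟨false,0,⟨0,[(1,0),(3,0),(2,0),(32,0)]⟩,⟨1,[(0,1),(5,0),(2,0),(6,0)]⟩⟩,⟨false,0,⟨0,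
  []⟩,⟨0,[]⟩⟩,⟨false,0,⟨0,[]⟩,⟨0,[]⟩⟩,[.a ⟨true,0,⟨0,[(2,0)]⟩,⟨0,[(21,0)]⟩⟩ ⟨false,0,⟨12,[(5,2),(2,
  2),(7,1),(8,2),(9,2),(0,0),(0,0)]⟩,⟨1,[(20,0),(0,0),(19,0)]⟩⟩ ⟨true,0,⟨0,[(1,0),(3,0)]⟩,⟨0,[(0,
  0)]⟩⟩,.o ⟨false,1,⟨3,[(2,2),(17,0),(15,0),(4,1)]⟩,⟨13,[(5,0),(2,5),(6,4),(0,0),(4,13),(3,0),(9,0),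
  (0,4),(2,3)]⟩⟩,.a ⟨true,0,⟨0,[(27,0)]⟩,⟨0,[(24,0)]⟩⟩ ⟨false,0,⟨0,[]⟩,⟨1,[(20,0),(0,0),(19,0)]⟩⟩
  ⟨true,0,⟨0,[(1,0),(3,0)]⟩,⟨12,[(0,9),(7,2),(7,1),(4,2),(3,2),(9,2),(0,0),(0,0)]⟩⟩,.a ⟨true,0,⟨1,
  [(27,2),(0,0)]⟩,⟨0,[(5,0)]⟩⟩ ⟨true,0,⟨12,[(5,2),(2,2),(7,1),(8,2),(9,2),(0,0),(0,0)]⟩,⟨1,[(27,0),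
  (0,0)]⟩⟩ ⟨false,1,⟨3,[(2,2),(2,3),(14,0),(15,0),(4,1)]⟩,⟨0,[(0,0)]⟩⟩]⟩) (.Q [0,0,0,0,0,0,0,0,0,0,
  1,-1] (.ed true [1,0,-1,0,1] (.r 0 ⟨4,[(8,0),(2,0),(1,2),(2,0),(18,1)]⟩ ⟨3,[(6,1),(2,1),(17,0),(0,
  0),(12,1)]⟩)) (.R ⟨0,false,false,false,[0,-1,1],[0,0,1,0,-1],[1,-1,0,0,0,0,0,1],(⟨0,[(20,0)]⟩,⟨0,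
  [(5,0),(28,0)]⟩),(⟨0,[(0,0)]⟩,⟨0,[(24,0),(5,0)]⟩),⟨0,[(5,0)]⟩,.k,.k,(.r (-1) ⟨1,[(10,0),(5,0),(0,
  0),(22,0)]⟩ ⟨3,[(7,1),(1,1),(2,3),(15,0),(0,0),(12,1)]⟩),(.r 0 ⟨1,[(9,0),(6,0),(0,0),(22,0)]⟩ ⟨1,
  [(15,0),(2,0),(9,1),(13,0)]⟩),.k,.k,⟨true,0,⟨0,[]⟩,⟨1,[(28,0),(0,0)]⟩⟩,⟨false,1,⟨2,[(1,1),(1,0),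
  (24,1),(8,0),(3,1)]⟩,⟨1,[(22,1),(5,0),(0,0)]⟩⟩,⟨false,1,⟨3,[(7,1),(1,1),(18,0),(0,0),(12,5)]⟩,⟨1,
  [(9,0),(6,0),(0,0),(22,0)]⟩⟩,⟨true,1,⟨3,[(0,0),(0,0),(0,0),(0,0),(0,0),(10,1),(16,0),(9,1)]⟩,⟨0,
  [(5,0),(2,0),(0,0),(14,0),(1,0),(5,0),(7,1)]⟩⟩,⟨false,0,⟨0,[]⟩,⟨0,[]⟩⟩,⟨false,0,⟨0,[]⟩,⟨0,[]⟩⟩,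
  [.o ⟨false,2,⟨1,[(3,0),(17,0),(4,1),(10,0),(4,1)]⟩,⟨0,[(5,0),(2,0),(0,0),(14,0),(7,0),(7,0)]⟩⟩,.o
  ⟨false,2,⟨3,[(0,0),(0,0),(0,0),(0,0),(0,0),(21,3),(5,0),(4,1),(4,5)]⟩,⟨7,[(6,2),(2,8),(3,4),(2,0),
  (5,7),(13,2),(0,0),(2,8)]⟩⟩,.a ⟨true,0,⟨0,[(28,0)]⟩,⟨0,[(25,0)]⟩⟩ ⟨true,1,⟨3,[(7,1),(2,1),(17,0),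
  (0,0),(12,1)]⟩,⟨1,[(9,2),(6,0),(0,0),(22,0)]⟩⟩ ⟨false,2,⟨7,[(1,1),(0,1),(0,3),(6,5),(4,2),(10,1),
  (10,0),(4,5)]⟩,⟨0,[(9,0),(12,0),(17,0)]⟩⟩,.e ⟨false,2,⟨3,[(7,1),(2,1),(10,0),(0,0),(18,0),(0,3)]⟩,
  ⟨0,[(9,0),(30,0)]⟩⟩ ⟨false,2,⟨17,[(1,15),(8,1),(4,0),(5,1),(4,15),(10,4),(3,0),(0,24)]⟩,⟨1,[(9,1),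
  (12,1),(5,0),(0,0),(10,1)]⟩⟩]⟩) (.S ⟨1,0,[0,-1,1],[1,1,0,0,-1],[1,0,1,1],(⟨0,[(23,0),(11,0)]⟩,⟨0,
  [(0,0),(19,0)]⟩),⟨0,[(23,0)]⟩,(.r (-1) ⟨1,[(15,0),(2,0),(9,1),(13,0)]⟩ ⟨1,[(9,0),(6,0),(0,0),(22,
  0)]⟩),.k,⟨false,0,⟨0,[]⟩,⟨1,[(21,0),(0,0),(19,0)]⟩⟩,⟨true,0,⟨0,[(40,0)]⟩,⟨0,[(39,0)]⟩⟩,⟨true,0,⟨0,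
  [(39,0)]⟩,⟨0,[(40,0)]⟩⟩,⟨false,1,⟨1,[(21,0),(0,0),(19,0)]⟩,⟨0,[]⟩⟩,[.o ⟨false,1,⟨3,[(3,2),(17,0),
  (15,0),(4,1)]⟩,⟨23,[(0,0),(4,0),(2,1),(0,9),(6,7),(0,1),(4,21),(1,0),(1,1),(9,1),(0,7),(2,5)]⟩⟩,
  .e ⟨false,1,⟨0,[(39,0),(2,0)]⟩,⟨1,[(9,0),(6,0),(0,0),(22,0)]⟩⟩ ⟨false,1,⟨0,[(42,0)]⟩,⟨0,[(36,
  0)]⟩⟩,.a ⟨true,0,⟨0,[(1,0),(26,0)]⟩,⟨1,[(22,1),(5,0),(0,0)]⟩⟩ ⟨true,0,⟨3,[(7,1),(1,1),(18,0),(0,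
  0),(12,1)]⟩,⟨1,[(9,0),(6,0),(0,0),(22,0)]⟩⟩ ⟨false,1,⟨1,[(28,0),(0,0),(12,1)]⟩,⟨12,[(6,2),(2,2),
  (7,1),(8,2),(9,2),(0,0),(0,0)]⟩⟩,.e ⟨false,1,⟨0,[(39,0),(2,0)]⟩,⟨0,[(40,0)]⟩⟩ ⟨false,1,⟨0,[(42,
  0)]⟩,⟨0,[(44,0)]⟩⟩]⟩)))) (.R ⟨0,false,false,true,[0,-1,1],[1,0,0,0,-1],[1],(⟨0,[(17,0)]⟩,⟨0,[(2,
  0),(28,0)]⟩),(⟨0,[(20,0)]⟩,⟨0,[(21,0)]⟩),⟨0,[(2,0)]⟩,.k,.k,(.r (-1) ⟨1,[(7,0),(5,0),(0,0),(22,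
  0)]⟩ ⟨3,[(4,1),(1,1),(2,3),(15,0),(0,0),(12,1)]⟩),(.r (-1) ⟨0,[(7,0),(33,1)]⟩ ⟨0,[(6,0),(32,0)]⟩),
  .k,.k,⟨true,0,⟨0,[]⟩,⟨1,[(25,0),(0,0)]⟩⟩,⟨false,1,⟨0,[(3,0),(14,0)]⟩,⟨0,[(0,0),(24,0)]⟩⟩,⟨false,0,
  ⟨0,[(6,0),(32,0)]⟩,⟨0,[(7,0),(33,0)]⟩⟩,⟨true,0,⟨5,[(1,3),(1,4),(2,5),(3,4),(6,3),(0,1),(1,3),(13,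
  0),(4,2)]⟩,⟨0,[(0,0),(22,0),(13,0)]⟩⟩,⟨false,0,⟨0,[]⟩,⟨0,[]⟩⟩,⟨false,0,⟨0,[]⟩,⟨0,[]⟩⟩,[.o ⟨false,
  1,⟨0,[(18,0)]⟩,⟨0,[(0,0)]⟩⟩,.o ⟨false,1,⟨1,[(1,1),(1,0),(6,0),(6,1),(2,1),(13,0),(4,0)]⟩,⟨0,[(0,
  0),(40,0)]⟩⟩,.a ⟨true,0,⟨0,[(25,0)]⟩,⟨0,[(22,0)]⟩⟩ ⟨true,0,⟨0,[]⟩,⟨0,[(41,0)]⟩⟩ ⟨false,1,⟨5,[(1,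
  3),(1,4),(6,4),(6,3),(0,1),(1,3),(13,0),(4,2)]⟩,⟨0,[(0,0),(24,0)]⟩⟩,.e ⟨false,1,⟨1,[(38,0),(0,
  0)]⟩,⟨1,[(25,0),(0,0)]⟩⟩ ⟨false,1,⟨1,[(1,1),(1,2),(6,0),(6,1),(2,1),(13,0),(4,0)]⟩,⟨1,[(0,1),(24,
  2),(0,0)]⟩⟩]⟩)))))))) (.Q [0,-2,0,0,1,0,0,0,-1,0,0,-1] (.p false [0,0,0,0,1] [] (⟨0,[(14,0)]⟩,⟨0,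
  [(13,0)]⟩) .k 0 (⟨0,[]⟩,⟨0,[]⟩) .k .k) (.R ⟨1,false,false,true,[0,0,1],[0,0,0,0,1],[1,0,0,0,0,0,0,
  1],(⟨0,[(22,0)]⟩,⟨0,[(21,0)]⟩),(⟨0,[(15,0)]⟩,⟨0,[(14,0)]⟩),⟨0,[(11,0)]⟩,.k,.k,.k,.k,(.r (-2) ⟨1,
  [(7,0),(0,0),(3,0),(0,0),(3,0),(2,0),(12,1)]⟩ ⟨0,[(1,0)]⟩),.k,⟨false,2,⟨1,[(7,1),(24,0),(0,2)]⟩,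
  ⟨1,[(1,2),(5,0),(0,0),(22,0)]⟩⟩,⟨true,0,⟨0,[(4,0),(8,0)]⟩,⟨0,[(0,0),(0,0),(15,0),(13,0)]⟩⟩,⟨true,
  0,⟨0,[]⟩,⟨0,[(35,0)]⟩⟩,⟨true,(-1),⟨1,[(1,2),(2,1),(2,0),(0,0),(4,1),(17,0)]⟩,⟨0,[(0,0),(16,0)]⟩⟩,
  ⟨false,1,⟨0,[(30,0),(2,0)]⟩,⟨0,[(31,0)]⟩⟩,⟨true,(-1),⟨2,[(1,3),(2,2),(2,0),(0,0),(4,2),(15,0)]⟩,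
  ⟨0,[(0,0),(16,0),(13,0)]⟩⟩,[.o ⟨false,0,⟨2,[(1,0),(5,0),(5,2),(13,0),(0,0),(2,0),(3,1)]⟩,⟨0,[(0,
  0)]⟩⟩,.o ⟨false,0,⟨5,[(1,2),(5,2),(0,0),(4,5),(14,1),(2,0)]⟩,⟨1,[(0,0),(11,0)]⟩⟩,.o ⟨false,1,⟨2,
  [(6,0),(1,0),(10,2),(4,0)]⟩,⟨0,[(4,0)]⟩⟩,.a ⟨true,0,⟨0,[(19,0)]⟩,⟨0,[(16,0)]⟩⟩ ⟨true,1,⟨1,[(7,1),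
  (24,0),(0,0)]⟩,⟨0,[(1,0),(29,0)]⟩⟩ ⟨false,0,⟨2,[(1,0),(2,2),(2,0),(0,0),(4,2),(15,0)]⟩,⟨0,[(0,0),
  (18,0)]⟩⟩]⟩) (.Q [0,1,0,0,-1,0,0,0,1,-1,0,1] (.p true [0,0,0,0,1] [1] (⟨0,[(15,0)]⟩,⟨0,[(14,0)]⟩)
  .k 1 (⟨0,[]⟩,⟨0,[]⟩) .k .k) (.R ⟨1,false,false,true,[0,0,1],[1,0,0,0,-1],[1,1,0,0,0,0,0,1],(⟨0,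
  [(23,0)]⟩,⟨0,[(22,0)]⟩),(⟨0,[(15,0)]⟩,⟨0,[(16,0)]⟩),⟨0,[(12,0)]⟩,.k,.k,.k,.k,(.r (-1) ⟨1,[(8,0),
  (0,0),(3,0),(0,0),(3,0),(2,0)]⟩ ⟨0,[(2,0),(31,0)]⟩),.k,⟨true,0,⟨0,[(8,0)]⟩,⟨0,[(3,0)]⟩⟩,⟨false,1,
  ⟨0,[(13,0),(3,0)]⟩,⟨1,[(0,1),(19,1),(12,0),(0,0)]⟩⟩,⟨false,0,⟨0,[]⟩,⟨1,[(13,0),(0,0),(19,0)]⟩⟩,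
  ⟨false,1,⟨0,[(3,0),(9,0),(3,0)]⟩,⟨0,[(0,0),(17,0),(15,0)]⟩⟩,⟨true,0,⟨0,[(31,0)]⟩,⟨0,[(32,0)]⟩⟩,
  ⟨false,1,⟨0,[(2,0),(10,0),(3,0),(16,0)]⟩,⟨0,[(0,0),(17,0),(13,0),(1,0)]⟩⟩,[.o ⟨false,1,⟨0,[(13,
  0)]⟩,⟨4,[(0,1),(13,2),(14,0),(4,0)]⟩⟩,.o ⟨false,2,⟨1,[(13,2),(0,0),(19,0)]⟩,⟨0,[(0,0)]⟩⟩,.o
  ⟨false,1,⟨2,[(7,0),(1,0),(10,2),(4,0)]⟩,⟨0,[(5,0)]⟩⟩,.a ⟨true,0,⟨0,[(20,0)]⟩,⟨0,[(17,0)]⟩⟩ ⟨false,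
  1,⟨1,[(8,1),(24,0),(0,0)]⟩,⟨0,[(3,0)]⟩⟩ ⟨true,1,⟨0,[(13,0),(3,0)]⟩,⟨0,[(0,0),(19,0)]⟩⟩]⟩) (.Q [0,
  0,-1,0,0,0,0,0,1,-1,0,1] (.p true [0,0,0,0,1] [1] (⟨0,[(16,0)]⟩,⟨0,[(15,0)]⟩) .k 1 (⟨0,[]⟩,⟨0,
  []⟩) .k .k) (.Q [0,0,0,0,0,0,0,0,0,0,-1,1] (.ed false [1,0,-1,0,1] (.r 0 ⟨4,[(3,0),(1,0),(1,2),(2,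
  0),(18,1)]⟩ ⟨0,[(9,0),(25,0)]⟩)) (.Q [0,0,0,0,1,0,1,0,-1,0,1,-1] (.p false [0,0,-1,0,1] [] (⟨0,
  [(0,0)]⟩,⟨0,[(17,0),(7,0)]⟩) .k 0 (⟨0,[]⟩,⟨0,[]⟩) .k (.r 0 ⟨4,[(4,0),(1,0),(1,2),(2,0),(18,1)]⟩
  ⟨0,[(10,0),(25,0)]⟩)) (.R ⟨1,false,false,false,[1,0,1,0,-1],[0,0,1],[1,0,0,0,0,0,0,1],(⟨0,[(18,0),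
  (7,0)]⟩,⟨0,[(1,0)]⟩),(⟨0,[(26,0)]⟩,⟨0,[(25,0)]⟩),⟨0,[(15,0),(2,0)]⟩,.k,.k,(.r (-2) ⟨1,[(0,0),(10,
  1),(0,0),(4,0),(6,0),(12,1)]⟩ ⟨0,[(5,0)]⟩),.k,(.r (-1) ⟨3,[(12,1),(10,0),(0,0),(12,1)]⟩ ⟨1,[(23,
  0),(0,0),(9,1)]⟩),.k,⟨true,0,⟨0,[]⟩,⟨1,[(23,0),(0,0)]⟩⟩,⟨false,0,⟨0,[(2,0)]⟩,⟨0,[(3,0),(35,0)]⟩⟩,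
  ⟨false,0,⟨0,[]⟩,⟨3,[(3,1),(13,1),(10,0),(8,0)]⟩⟩,⟨false,0,⟨1,[(2,1),(20,0),(0,0)]⟩,⟨0,[(3,0)]⟩⟩,
  ⟨true,0,⟨0,[(34,0)]⟩,⟨0,[(35,0)]⟩⟩,⟨false,0,⟨0,[(2,0),(2,0),(5,0),(25,0)]⟩,⟨0,[(3,0),(31,0)]⟩⟩,
  [.o ⟨false,1,⟨1,[(21,1),(6,0),(8,0)]⟩,⟨9,[(5,3),(0,4),(5,1),(0,2),(6,2),(1,0),(9,1)]⟩⟩,.a ⟨true,1,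
  ⟨0,[(21,0),(15,0)]⟩,⟨0,[(5,0),(14,0),(14,0)]⟩⟩ ⟨true,1,⟨0,[(11,0),(25,0)]⟩,⟨0,[(5,0),(29,0)]⟩⟩
  ⟨false,1,⟨0,[(2,0),(8,0),(25,0)]⟩,⟨0,[(0,0),(4,0),(14,0),(14,0)]⟩⟩,.o ⟨false,1,⟨0,[(0,0)]⟩,⟨0,[(2,
  0),(21,0)]⟩⟩,.o ⟨false,1,⟨1,[(0,1),(22,0),(0,0)]⟩,⟨0,[(2,0),(5,0)]⟩⟩]⟩) (.S ⟨1,0,[0,0,1],[1,1,0,0,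
  -1],[0,-1,1],(⟨0,[(18,0),(11,0)]⟩,⟨0,[(1,0),(13,0)]⟩),⟨0,[(18,0)]⟩,(.r (-1) ⟨1,[(10,0),(2,0),(9,
  1),(13,0)]⟩ ⟨1,[(5,0),(5,0),(0,0),(22,0)]⟩),.k,⟨true,0,⟨0,[(35,0)]⟩,⟨0,[(34,0)]⟩⟩,⟨false,0,⟨0,
  [(35,0)]⟩,⟨0,[(34,0),(2,0)]⟩⟩,⟨false,1,⟨3,[(3,1),(13,1),(10,0),(8,0)]⟩,⟨0,[]⟩⟩,⟨true,0,⟨0,[(39,
  0)]⟩,⟨0,[]⟩⟩,[.o ⟨false,1,⟨0,[(16,0)]⟩,⟨8,[(0,1),(1,2),(14,3),(5,1),(8,1),(5,0)]⟩⟩,.e ⟨false,1,⟨0,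
  [(37,0)]⟩,⟨0,[(31,0)]⟩⟩ ⟨false,1,⟨3,[(3,1),(13,1),(10,0),(8,0)]⟩,⟨2,[(5,0),(5,0),(0,0),(20,0)]⟩⟩,
  .a ⟨true,1,⟨3,[(3,2),(1,0),(6,0),(3,0),(3,0),(0,0),(11,0)]⟩,⟨0,[(0,0),(22,0)]⟩⟩ ⟨false,1,⟨1,[(23,
  0),(0,0),(12,1)]⟩,⟨2,[(5,0),(5,0),(0,0),(20,0)]⟩⟩ ⟨true,0,⟨1,[(23,0),(0,0)]⟩,⟨2,[(5,0),(5,0),(0,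
  0),(20,0)]⟩⟩,.o ⟨false,1,⟨0,[(16,0)]⟩,⟨8,[(0,1),(1,2),(14,3),(5,1),(8,1),(5,0)]⟩⟩]⟩)) (.Q [0,0,0,
  1,0,0,-1,-1,-1,1,-1,-1] (.p false [0,0,1] [1,0,0,0,-1] (⟨0,[(25,0)]⟩,⟨0,[(24,0)]⟩) .k 2 (⟨0,[(17,
  0)]⟩,⟨0,[(18,0)]⟩) .k (.r 0 ⟨0,[(7,0),(12,0)]⟩ ⟨1,[(8,1),(26,0),(0,0)]⟩)) (.R ⟨1,false,false,
  false,[1,0,0,0,-1],[0,-1,1],[0,-1,0,-1],(⟨0,[(18,0)]⟩,⟨0,[(19,0)]⟩),(⟨0,[(15,0)]⟩,⟨0,[(25,0),(4,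
  0)]⟩),⟨0,[(1,0),(12,0)]⟩,.k,.k,(.r (-1) ⟨3,[(12,1),(10,0),(0,0),(12,1)]⟩ ⟨1,[(23,0),(0,0),(9,
  1)]⟩),(.r 0 ⟨0,[(5,0),(31,0)]⟩ ⟨1,[(11,0),(0,0),(3,0),(0,0),(3,0),(2,0)]⟩),.k,.k,⟨true,0,⟨0,[(6,
  0)]⟩,⟨0,[(11,0)]⟩⟩,⟨false,0,⟨0,[(2,0),(20,0)]⟩,⟨0,[(16,0),(3,0)]⟩⟩,⟨true,0,⟨0,[(35,0)]⟩,⟨0,[(34,
  0)]⟩⟩,⟨true,0,⟨1,[(2,1),(18,1),(1,0),(0,0),(10,1)]⟩,⟨0,[(0,0)]⟩⟩,⟨false,1,⟨3,[(3,1),(13,1),(10,0),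
  (8,0)]⟩,⟨0,[]⟩⟩,⟨true,0,⟨1,[(2,1),(18,1),(1,0),(0,0)]⟩,⟨0,[(0,0),(34,0)]⟩⟩,[.o ⟨false,1,⟨1,[(21,
  1),(6,0),(6,1),(1,0)]⟩,⟨15,[(0,7),(1,7),(2,1),(0,1),(0,3),(2,0),(2,3),(18,0)]⟩⟩,.a ⟨true,1,⟨0,
  [(21,0),(13,0),(1,0)]⟩,⟨0,[(5,0),(14,0)]⟩⟩ ⟨true,1,⟨0,[(35,0),(1,0)]⟩,⟨0,[(5,0),(5,0)]⟩⟩ ⟨false,1,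
  ⟨0,[(2,0),(18,0),(13,0),(1,0)]⟩,⟨0,[(0,0),(38,0)]⟩⟩,.o ⟨false,1,⟨0,[(16,0)]⟩,⟨1,[(2,1),(20,0),(0,
  0)]⟩⟩,.o ⟨false,1,⟨1,[(16,1),(6,0),(0,0)]⟩,⟨0,[(2,0)]⟩⟩]⟩) (.S ⟨1,0,[0,1,1],[0,1,0,0,1],[1,2,1,1],
  (⟨0,[(19,0),(10,0)]⟩,⟨0,[(1,0),(12,0)]⟩),⟨0,[(19,0)]⟩,(.r 0 ⟨1,[(23,0),(0,0),(9,1)]⟩ ⟨6,[(0,0),(2,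
  0),(5,0),(2,2),(11,0),(12,2)]⟩),.k,⟨false,0,⟨0,[]⟩,⟨3,[(3,1),(13,1),(10,0),(8,0)]⟩⟩,⟨true,0,⟨0,
  [(35,0)]⟩,⟨0,[(34,0)]⟩⟩,⟨true,0,⟨0,[(34,0)]⟩,⟨0,[(35,0)]⟩⟩,⟨false,1,⟨3,[(3,1),(13,1),(10,0),(8,
  0)]⟩,⟨0,[]⟩⟩,[.a ⟨true,(-1),⟨0,[(0,0),(4,0),(14,0)]⟩,⟨0,[(3,0)]⟩⟩ ⟨true,(-1),⟨0,[(5,0),(5,0)]⟩,⟨0,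
  [(35,0),(1,0)]⟩⟩ ⟨false,0,⟨0,[(39,0)]⟩,⟨1,[(36,0),(0,0)]⟩⟩,.o ⟨false,0,⟨15,[(0,3),(1,7),(2,1),(0,
  1),(3,0),(6,3),(6,3),(7,0)]⟩,⟨0,[(16,0)]⟩⟩,.o ⟨false,0,⟨0,[(2,0)]⟩,⟨1,[(16,1),(6,0),(0,0)]⟩⟩,.o
  ⟨false,0,⟨15,[(0,3),(1,7),(2,1),(0,1),(3,0),(6,3),(6,3),(7,0)]⟩,⟨0,[(16,0)]⟩⟩]⟩))) (.I [0,0,1,0,0,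
  0,0,1] (.Q [0,-1,0,-1,0,0,-1,-1,0,0,-1] (.p false [0,0,1] [] (⟨0,[(25,0)]⟩,⟨0,[(24,0)]⟩) .k 0 (⟨0,
  []⟩,⟨0,[]⟩) .k .k) (.R ⟨2,true,false,true,[0,1],[0,1,1],[1,1,1,1],(⟨0,[]⟩,⟨0,[]⟩),(⟨0,[(26,0),(3,
  0)]⟩,⟨0,[(14,0)]⟩),⟨0,[]⟩,.k,.k,.k,.k,.k,.k,⟨true,0,⟨2,[(5,0),(0,0),(0,0),(4,0)]⟩,⟨0,[(1,0)]⟩⟩,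
  ⟨false,1,⟨0,[(23,0),(12,0)]⟩,⟨0,[(8,0)]⟩⟩,⟨false,0,⟨0,[]⟩,⟨3,[(3,1),(13,1),(10,0),(8,0)]⟩⟩,⟨true,
  0,⟨0,[(21,0)]⟩,⟨5,[(0,2),(4,0),(4,0),(9,0),(1,1)]⟩⟩,⟨true,0,⟨0,[(34,0)]⟩,⟨0,[(35,0)]⟩⟩,⟨false,1,
  ⟨0,[(21,0),(12,0),(2,0)]⟩,⟨0,[(0,0)]⟩⟩,[]⟩) (.S ⟨1,0,[0,0,0,-1,0,0,0,-1],[1,0,-1],[1,1,0,0,0,0,0,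
  -1],(⟨0,[(25,0)]⟩,⟨0,[(26,0)]⟩),⟨0,[(14,0)]⟩,.k,.k,⟨false,0,⟨0,[]⟩,⟨3,[(3,1),(13,1),(10,0),(8,
  0)]⟩⟩,⟨true,0,⟨0,[(35,0)]⟩,⟨0,[(34,0)]⟩⟩,⟨true,0,⟨0,[(34,0)]⟩,⟨0,[(35,0)]⟩⟩,⟨false,1,⟨3,[(3,1),
  (13,1),(10,0),(8,0)]⟩,⟨0,[]⟩⟩,[.o ⟨false,0,⟨3,[(5,0),(0,1),(1,2),(3,0),(9,0),(12,2)]⟩,⟨1,[(0,1),
  (27,0),(8,0)]⟩⟩,.a ⟨true,0,⟨0,[(6,0),(13,0),(14,0)]⟩,⟨0,[(0,0)]⟩⟩ ⟨true,0,⟨2,[(5,0),(0,0),(0,0),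
  (4,0)]⟩,⟨0,[(1,0)]⟩⟩ ⟨false,1,⟨2,[(6,0),(0,0),(1,0),(2,1),(24,0)]⟩,⟨0,[(0,0),(7,0)]⟩⟩,.o ⟨false,0,
  ⟨0,[(8,0)]⟩,⟨2,[(10,0),(1,0),(10,2),(4,0)]⟩⟩,.o ⟨false,0,⟨0,[(24,0)]⟩,⟨2,[(0,1),(4,1),(6,1),(10,
  0),(8,0),(4,1)]⟩⟩]⟩)) (.Q [0,-2,0,-1,1,0,0,0,-1,1,0,-1] (.p false [0,0,0,0,1] [1] (⟨0,[(18,0)]⟩,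
  ⟨0,[(17,0)]⟩) .k 1 (⟨0,[]⟩,⟨0,[]⟩) .k .k) (.I [1,0,-2,-1,1,0,0,1] (.Q [0,0,2,0,0,0,1,0,0,-1,1]
  (.p true [0,0,1] [1] (⟨0,[(27,0)]⟩,⟨0,[(26,0)]⟩) .k 1 (⟨0,[]⟩,⟨0,[]⟩) .k .k) (.Q [0,0,0,0,0,-2,0,
  0,0,0,1] (.p true [0,0,1] [] (⟨0,[(28,0)]⟩,⟨0,[(27,0)]⟩) .k 0 (⟨0,[]⟩,⟨0,[]⟩) .k .k) (.R ⟨1,false,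
  false,false,[0,-1,1],[1,-1],[1,1,-1,-1,0,0,0,1],(⟨0,[(18,0)]⟩,⟨0,[(28,0),(4,0)]⟩),(⟨0,[(32,0)]⟩,
  ⟨0,[(33,0)]⟩),⟨0,[(0,0)]⟩,.k,.k,(.r (-1) ⟨0,[(2,0),(35,0)]⟩ ⟨7,[(1,0),(3,4),(2,7),(4,3),(6,4),(6,
  0),(12,3)]⟩),.k,.k,.k,⟨true,0,⟨0,[(14,0)]⟩,⟨0,[(9,0)]⟩⟩,⟨false,0,⟨0,[(23,0)]⟩,⟨1,[(1,0),(11,0),(1,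
  0),(10,0)]⟩⟩,⟨false,0,⟨0,[]⟩,⟨3,[(6,1),(13,1),(10,0),(8,0)]⟩⟩,⟨false,0,⟨0,[(9,0),(13,0)]⟩,⟨5,[(1,
  1),(0,1),(10,0),(10,3),(10,0),(4,1)]⟩⟩,⟨true,0,⟨0,[(37,0)]⟩,⟨0,[(38,0)]⟩⟩,⟨false,0,⟨0,[(8,0),(14,
  0),(16,0)]⟩,⟨0,[(1,0),(0,0)]⟩⟩,[.o ⟨false,0,⟨0,[(38,0)]⟩,⟨3,[(13,1),(5,0),(0,0),(10,0)]⟩⟩,.e
  ⟨false,1,⟨0,[(2,0)]⟩,⟨0,[(8,1),(2,0),(12,0),(11,0),(1,1),(1,1)]⟩⟩ ⟨false,1,⟨10,[(3,0),(2,0),(8,4),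
  (0,1),(3,1),(2,6),(16,3)]⟩,⟨3,[(8,1),(4,0),(10,1),(1,1),(8,0)]⟩⟩,.a ⟨true,0,⟨0,[(26,0)]⟩,⟨0,[(23,
  0)]⟩⟩ ⟨false,1,⟨3,[(1,0),(0,3),(2,0),(14,0),(6,0)]⟩,⟨0,[(8,0),(31,0)]⟩⟩ ⟨true,0,⟨0,[(23,0),(14,
  0)]⟩,⟨3,[(8,1),(4,0),(10,1),(1,1),(8,0)]⟩⟩,.o ⟨false,0,⟨0,[(1,0)]⟩,⟨5,[(13,1),(1,1),(0,0),(6,3),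
  (11,0),(3,0)]⟩⟩]⟩) (.I [1,1,2,1,-1] (.R ⟨0,false,false,false,[0,-1,1],[1,-1],[1,0,-1,-1],(⟨0,[(19,
  0)]⟩,⟨0,[(1,0),(31,0)]⟩),(⟨0,[(33,0)]⟩,⟨0,[(34,0)]⟩),⟨0,[(1,0)]⟩,.k,.k,(.r (-1) ⟨0,[(3,0),(35,
  0)]⟩ ⟨1,[(0,0),(10,1),(26,0),(2,0)]⟩),.k,.k,.k,⟨true,0,⟨0,[]⟩,⟨3,[(2,0),(3,0),(14,0),(6,0)]⟩⟩,
  ⟨false,0,⟨0,[(24,0)]⟩,⟨1,[(2,0),(11,0),(1,0),(10,0)]⟩⟩,⟨true,0,⟨1,[(5,0),(7,0)]⟩,⟨0,[(12,0),(12,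
  0)]⟩⟩,⟨false,0,⟨0,[(10,0),(13,0)]⟩,⟨5,[(2,1),(0,1),(10,0),(10,3),(10,0),(4,1)]⟩⟩,⟨false,0,⟨0,[]⟩,
  ⟨0,[]⟩⟩,⟨false,0,⟨0,[]⟩,⟨0,[]⟩⟩,[.o ⟨false,0,⟨0,[(39,0)]⟩,⟨3,[(14,1),(5,0),(0,0),(10,0)]⟩⟩,.o
  ⟨false,1,⟨13,[(2,2),(0,2),(0,6),(8,2),(2,1),(4,6),(6,2),(3,1)]⟩,⟨2,[(0,0),(35,0),(0,1)]⟩⟩,.a
  ⟨true,0,⟨0,[(27,0)]⟩,⟨0,[(24,0)]⟩⟩ ⟨false,1,⟨5,[(4,1),(11,1),(4,1),(10,0),(8,0)]⟩,⟨1,[(0,0),(37,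
  0),(2,0)]⟩⟩ ⟨true,0,⟨0,[(24,0),(14,0)]⟩,⟨3,[(9,1),(4,0),(10,1),(1,1),(8,0)]⟩⟩,.o ⟨false,0,⟨0,[(2,
  0)]⟩,⟨5,[(14,1),(1,1),(0,0),(6,3),(11,0),(3,0)]⟩⟩]⟩) (.R ⟨0,false,false,false,[0,-1,1],[1,-1],[0,
  1,-1,-1,0,0,0,1],(⟨0,[(19,0)]⟩,⟨0,[(1,0),(31,0)]⟩),(⟨0,[(33,0)]⟩,⟨0,[(34,0)]⟩),⟨0,[(1,0)]⟩,.k,.k,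
  (.r (-1) ⟨0,[(3,0),(35,0)]⟩ ⟨7,[(2,0),(3,4),(2,7),(4,3),(6,4),(6,0),(12,3)]⟩),.k,.k,.k,⟨true,0,⟨0,
  [(12,0),(12,0)]⟩,⟨0,[(10,0)]⟩⟩,⟨false,0,⟨0,[(24,0)]⟩,⟨1,[(2,0),(11,0),(1,0),(10,0)]⟩⟩,⟨true,0,⟨0,
  [(43,0)]⟩,⟨0,[]⟩⟩,⟨false,0,⟨0,[(10,0),(13,0)]⟩,⟨5,[(2,1),(0,1),(10,0),(10,3),(10,0),(4,1)]⟩⟩,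
  ⟨false,0,⟨0,[]⟩,⟨0,[]⟩⟩,⟨false,0,⟨0,[]⟩,⟨0,[]⟩⟩,[.o ⟨false,0,⟨0,[(39,0)]⟩,⟨3,[(14,1),(5,0),(0,0),
  (10,0)]⟩⟩,.e ⟨false,1,⟨0,[(0,0),(11,0),(12,0)]⟩,⟨0,[(11,0)]⟩⟩ ⟨false,1,⟨10,[(4,0),(2,0),(8,4),(0,
  1),(3,1),(2,6),(16,3)]⟩,⟨3,[(9,1),(4,0),(10,1),(1,1),(8,0)]⟩⟩,.a ⟨true,0,⟨0,[(27,0)]⟩,⟨0,[(24,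
  0)]⟩⟩ ⟨false,1,⟨3,[(2,0),(0,3),(2,0),(14,0),(6,0)]⟩,⟨0,[(9,0),(31,0)]⟩⟩ ⟨true,0,⟨0,[(24,0),(14,
  0)]⟩,⟨3,[(9,1),(4,0),(10,1),(1,1),(8,0)]⟩⟩,.o ⟨false,0,⟨0,[(2,0)]⟩,⟨5,[(14,1),(1,1),(0,0),(6,3),
  (11,0),(3,0)]⟩⟩]⟩))) (.Q [0,0,-1,0,0,0,0,0,-1,1,0,-1] (.p false [0,0,0,0,1] [1] (⟨0,[(21,0)]⟩,⟨0,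
  [(20,0)]⟩) .k 1 (⟨0,[]⟩,⟨0,[]⟩) .k .k) (.Q [0,0,0,0,0,-1,0,0,0,0,0,1] (.ed false [1,-1,0,0,1] .k)
  (.S ⟨1,0,[0,-1,1],[1,1,0,0,-1],[1,0,1,1],(⟨0,[(22,0),(11,0)]⟩,⟨0,[(0,0)]⟩),⟨0,[(22,0)]⟩,(.r (-1)
  ⟨3,[(6,1),(7,1),(6,1),(5,0),(0,0),(12,1)]⟩ ⟨11,[(1,2),(6,2),(7,1),(18,2),(0,0),(2,7)]⟩),.k,⟨false,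
  0,⟨0,[]⟩,⟨3,[(7,1),(13,1),(10,0),(8,0)]⟩⟩,⟨true,0,⟨0,[(39,0)]⟩,⟨0,[(38,0)]⟩⟩,⟨true,0,⟨0,[(38,0)]⟩,
  ⟨0,[(39,0)]⟩⟩,⟨false,1,⟨3,[(7,1),(13,1),(10,0),(8,0)]⟩,⟨0,[]⟩⟩,[.o ⟨false,1,⟨15,[(1,4),(2,3),(1,
  4),(7,1),(5,1),(15,3),(4,3)]⟩,⟨1,[(8,0),(12,0),(10,0)]⟩⟩,.e ⟨false,1,⟨0,[(38,0),(2,0)]⟩,⟨11,[(1,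
  2),(6,2),(7,1),(18,2),(0,0),(2,7)]⟩⟩ ⟨false,1,⟨0,[(41,0)]⟩,⟨0,[(35,0)]⟩⟩,.a ⟨true,0,⟨0,[(1,0)]⟩,
  ⟨1,[(21,1),(5,0),(0,0)]⟩⟩ ⟨true,0,⟨0,[(9,0),(5,0),(25,0)]⟩,⟨11,[(1,2),(6,2),(7,1),(18,2),(0,0),(2,
  7)]⟩⟩ ⟨false,1,⟨1,[(27,0),(0,0),(12,1)]⟩,⟨15,[(1,2),(6,2),(7,1),(18,2),(0,0),(0,3)]⟩⟩,.e ⟨false,1,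
  ⟨0,[(38,0),(2,0)]⟩,⟨0,[(39,0)]⟩⟩ ⟨false,1,⟨0,[(41,0)]⟩,⟨0,[(43,0)]⟩⟩]⟩) (.R ⟨0,false,false,true,
  [0,1,0,0,-1],[1,0,0,0,-1],[1],(⟨0,[(0,0)]⟩,⟨0,[(23,0),(9,0)]⟩),(⟨0,[(22,0)]⟩,⟨0,[(23,0)]⟩),⟨0,
  [(23,0)]⟩,(.r (-1) ⟨3,[(6,1),(7,1),(6,1),(5,0),(0,0),(12,1)]⟩ ⟨11,[(1,2),(6,2),(7,1),(18,2),(0,0),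
  (2,7)]⟩),.k,.k,.k,.k,.k,⟨true,0,⟨0,[]⟩,⟨1,[(27,0),(0,0)]⟩⟩,⟨false,0,⟨1,[(1,0),(4,0),(14,1)]⟩,⟨2,
  [(14,0),(1,0),(15,0)]⟩⟩,⟨true,0,⟨11,[(1,2),(6,2),(7,1),(18,2),(0,0),(2,7)]⟩,⟨0,[(9,0),(5,0),(25,
  0)]⟩⟩,⟨false,0,⟨0,[(4,0),(3,0)]⟩,⟨1,[(2,0),(6,1),(5,0),(9,0),(10,0),(4,2)]⟩⟩,⟨false,0,⟨0,[]⟩,⟨0,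
  []⟩⟩,⟨false,0,⟨0,[]⟩,⟨0,[]⟩⟩,[.a ⟨true,0,⟨1,[(1,0),(4,0)]⟩,⟨0,[(21,0)]⟩⟩ ⟨true,0,⟨0,[]⟩,⟨1,[(27,
  0),(0,0)]⟩⟩ ⟨false,0,⟨1,[(1,0),(4,0),(14,1)]⟩,⟨2,[(14,0),(1,0),(15,0)]⟩⟩,.o ⟨false,1,⟨15,[(1,4),
  (2,3),(1,4),(7,1),(5,1),(15,3),(4,3)]⟩,⟨1,[(8,0),(12,0),(10,0)]⟩⟩,.o ⟨false,1,⟨9,[(1,7),(18,1),
  (15,5),(3,0),(0,0),(1,1)]⟩,⟨1,[(21,1),(5,0),(0,0)]⟩⟩,.o ⟨false,1,⟨7,[(1,2),(4,0),(13,3),(15,3),(5,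
  1)]⟩,⟨0,[(21,0)]⟩⟩]⟩)) (.Q [0,0,0,0,0,0,0,0,1,-1,0,1] (.p true [0,0,0,0,1] [1] (⟨0,[(22,0)]⟩,⟨0,
  [(21,0)]⟩) .k 1 (⟨0,[]⟩,⟨0,[]⟩) .k .k) (.R ⟨1,false,false,false,[0,0,1],[0,0,0,0,1],[1,0,0,0,0,0,
  0,1],(⟨0,[(30,0)]⟩,⟨0,[(29,0)]⟩),(⟨0,[(23,0)]⟩,⟨0,[(22,0)]⟩),⟨0,[(19,0)]⟩,.k,.k,.k,.k,(.r (-2) ⟨0,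
  [(1,0),(1,0),(3,0)]⟩ ⟨0,[(9,0)]⟩),.k,⟨true,1,⟨0,[(15,0),(25,0)]⟩,⟨0,[(9,0),(29,0)]⟩⟩,⟨false,0,⟨3,
  [(0,2),(1,1),(14,0),(3,0)]⟩,⟨3,[(4,0),(0,1),(0,0),(0,0),(12,0),(4,1),(1,1),(8,0),(0,0)]⟩⟩,⟨true,0,
  ⟨0,[]⟩,⟨0,[(43,0)]⟩⟩,⟨true,(-1),⟨1,[(0,0),(1,0),(5,0),(0,0),(0,0),(1,0),(26,0)]⟩,⟨1,[(2,0),(1,0),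
  (1,0),(2,0),(15,2),(10,0),(4,0)]⟩⟩,⟨false,1,⟨0,[(38,0),(2,0)]⟩,⟨0,[(39,0)]⟩⟩,⟨true,(-1),⟨3,[(0,2),
  (1,1),(6,3),(7,0),(3,0)]⟩,⟨14,[(4,7),(1,6),(9,1),(8,14),(10,4),(0,0),(1,3)]⟩⟩,[.o ⟨false,0,⟨5,[(1,
  2),(6,2),(5,0),(1,0),(15,0)]⟩,⟨1,[(2,0),(1,0),(1,0),(2,0),(15,0),(10,0),(4,0)]⟩⟩,.o ⟨false,0,⟨0,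
  [(0,0)]⟩,⟨0,[(20,0)]⟩⟩,.o ⟨false,1,⟨2,[(14,0),(1,0),(10,2),(4,0)]⟩,⟨0,[(12,0)]⟩⟩,.a ⟨true,0,⟨0,
  [(27,0)]⟩,⟨0,[(24,0)]⟩⟩ ⟨true,1,⟨3,[(3,1),(10,0),(2,0),(7,1),(15,0)]⟩,⟨0,[(9,0),(29,0)]⟩⟩ ⟨false,
  0,⟨3,[(0,2),(1,1),(14,0),(3,0)]⟩,⟨3,[(4,3),(4,1),(4,0),(10,1),(1,1),(8,0)]⟩⟩]⟩) (.Q [0,0,0,0,0,-1,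
  0,0,0,0,0,1] (.ed false [1,-1,0,0,1] .k) (.S ⟨1,0,[0,0,1],[1,1,0,0,-1],[0,-1,1],(⟨0,[(23,0),(11,
  0)]⟩,⟨0,[(0,0)]⟩),⟨0,[(23,0)]⟩,(.r (-1) ⟨3,[(2,0),(4,2),(7,1),(6,1),(19,1)]⟩ ⟨5,[(1,2),(7,2),(7,
  1),(19,0),(2,1)]⟩),.k,⟨true,0,⟨0,[(40,0)]⟩,⟨0,[(39,0)]⟩⟩,⟨false,0,⟨0,[(40,0)]⟩,⟨0,[(39,0),(2,
  0)]⟩⟩,⟨false,1,⟨7,[(2,2),(5,3),(6,0),(1,0),(4,0),(19,1)]⟩,⟨0,[]⟩⟩,⟨true,0,⟨0,[(44,0)]⟩,⟨0,[]⟩⟩,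
  [.a ⟨true,0,⟨0,[(1,0)]⟩,⟨0,[(22,0)]⟩⟩ ⟨false,1,⟨7,[(2,2),(5,3),(6,0),(1,0),(4,0),(19,1)]⟩,⟨12,[(3,
  2),(6,2),(6,1),(8,2),(9,2),(0,0),(0,0)]⟩⟩ ⟨true,0,⟨1,[(2,0),(4,0)]⟩,⟨0,[]⟩⟩,.o ⟨false,1,⟨7,[(1,4),
  (3,1),(9,0),(5,0),(15,1),(4,1)]⟩,⟨5,[(2,2),(6,2),(5,0),(1,0),(15,0)]⟩⟩,.o ⟨false,1,⟨3,[(1,2),(19,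
  0),(15,0),(3,1)]⟩,⟨0,[(2,0)]⟩⟩,.e ⟨false,1,⟨0,[(42,0)]⟩,⟨0,[(44,0)]⟩⟩ ⟨false,1,⟨7,[(2,2),(5,3),(6,
  0),(1,0),(4,0),(19,1)]⟩,⟨0,[]⟩⟩]⟩) (.R ⟨0,false,false,false,[0,0,0,0,1],[0,1],[1,0,1,1],(⟨0,[(24,
  0)]⟩,⟨0,[(23,0)]⟩),(⟨0,[(35,0)]⟩,⟨0,[(34,0)]⟩),⟨0,[(0,0)]⟩,.k,.k,(.r 0 ⟨5,[(1,2),(7,2),(7,1),(19,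
  0),(2,1)]⟩ ⟨3,[(2,0),(4,2),(7,1),(6,1),(19,1)]⟩),(.r 0 ⟨5,[(1,2),(7,2),(7,1),(19,0),(2,1)]⟩ ⟨3,
  [(2,0),(4,2),(7,1),(6,1),(19,1)]⟩),.k,.k,⟨true,0,⟨0,[]⟩,⟨1,[(2,0),(4,0)]⟩⟩,⟨false,1,⟨6,[(1,6),(1,
  1),(0,1),(1,3),(19,1),(10,2),(0,1),(3,1)]⟩,⟨1,[(2,0),(4,0),(14,1)]⟩⟩,⟨false,1,⟨0,[(10,0),(5,0),
  (25,1)]⟩,⟨5,[(1,2),(7,2),(7,1),(19,0),(2,1)]⟩⟩,⟨true,1,⟨1,[(1,1),(1,0),(6,1),(5,0),(9,0),(10,0),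
  (4,2)]⟩,⟨0,[(9,0),(30,0)]⟩⟩,⟨false,0,⟨0,[]⟩,⟨0,[]⟩⟩,⟨false,0,⟨0,[]⟩,⟨0,[]⟩⟩,[.o ⟨false,1,⟨11,[(2,
  2),(12,6),(1,0),(3,2),(11,0)]⟩,⟨0,[(40,0)]⟩⟩,.o ⟨false,1,⟨1,[(3,0),(6,1),(5,0),(9,0),(10,0),(4,
  2)]⟩,⟨0,[(40,0),(3,0)]⟩⟩,.a ⟨true,0,⟨0,[(22,0)]⟩,⟨0,[(1,0)]⟩⟩ ⟨true,0,⟨0,[(10,0),(5,0),(25,0)]⟩,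
  ⟨5,[(1,2),(7,2),(7,1),(19,0),(2,1)]⟩⟩ ⟨false,1,⟨1,[(1,1),(1,0),(6,1),(5,0),(9,0),(10,0),(4,2)]⟩,
  ⟨0,[(22,0),(17,0)]⟩⟩,.o ⟨false,0,⟨0,[(2,0)]⟩,⟨3,[(1,2),(19,0),(15,0),(3,1)]⟩⟩]⟩))))) (.R ⟨1,false,
  false,true,[0,0,1],[0,1],[1,1,0,0,0,0,0,1],(⟨0,[(27,0)]⟩,⟨0,[(26,0)]⟩),(⟨0,[(31,0)]⟩,⟨0,[(30,
  0)]⟩),⟨0,[(16,0)]⟩,.k,.k,.k,.k,(.x 0 ⟨5,[(0,3),(21,3),(1,2),(0,0),(0,5),(4,11),(1,1),(2,3),(1,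
  1)]⟩ ⟨1,[(15,0),(0,2),(4,1),(11,0),(3,0)]⟩),.k,⟨true,1,⟨5,[(1,1),(10,5),(0,1),(4,1),(10,0),(8,
  0)]⟩,⟨0,[(0,0)]⟩⟩,⟨false,1,⟨5,[(11,1),(1,1),(0,0),(6,3),(11,0),(3,0)]⟩,⟨0,[(24,0)]⟩⟩,⟨false,0,⟨0,
  []⟩,⟨3,[(4,1),(13,1),(10,0),(8,0)]⟩⟩,⟨false,0,⟨9,[(0,3),(1,5),(8,2),(2,3),(6,1),(11,0)]⟩,⟨0,[(22,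
  0),(13,0),(1,0)]⟩⟩,⟨true,0,⟨0,[(35,0)]⟩,⟨0,[(36,0)]⟩⟩,⟨false,0,⟨4,[(0,3),(1,0),(8,1),(9,4),(11,0),
  (0,1),(3,0)]⟩,⟨0,[(22,0),(13,1),(1,0)]⟩⟩,[.o ⟨false,0,⟨2,[(0,0),(11,0),(20,0),(0,1)]⟩,⟨7,[(1,3),
  (11,1),(4,3),(5,2),(0,2),(3,1)]⟩⟩,.o ⟨false,1,⟨3,[(11,1),(5,0),(0,0),(10,0)]⟩,⟨0,[(36,0)]⟩⟩,.o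
  ⟨false,1,⟨2,[(11,0),(1,0),(10,2),(4,0)]⟩,⟨0,[(9,0)]⟩⟩,.a ⟨true,0,⟨0,[(24,0)]⟩,⟨0,[(21,0)]⟩⟩
  ⟨false,1,⟨1,[(12,1),(24,0),(0,0)]⟩,⟨0,[(7,0)]⟩⟩ ⟨true,0,⟨0,[(9,0),(24,0)]⟩,⟨0,[(24,0),(11,
  0)]⟩⟩]⟩)) (.Q [0,-1,0,0,0,0,0,-1,1,-1,0,1] (.p true [0,0,0,0,1] [1] (⟨0,[(19,0)]⟩,⟨0,[(18,0)]⟩)
  .k 1 (⟨0,[]⟩,⟨0,[]⟩) .k .k) (.K ⟨0,[1,0,0,0,-1],0,1,(⟨0,[(19,0)]⟩,⟨0,[(20,0)]⟩),.k,(.r (-1) ⟨3,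
  [(13,1),(10,0),(0,0),(12,1)]⟩ ⟨1,[(24,0),(0,0),(9,1)]⟩),(.r (-1) ⟨3,[(3,1),(7,1),(6,1),(5,0),(0,
  0),(12,1)]⟩ ⟨1,[(1,0),(1,0),(9,0),(22,0)]⟩),.k,.k,[⟨0,[(0,0),(21,0)]⟩,⟨0,[(3,0)]⟩,⟨0,[(1,0),(34,
  0)]⟩,⟨0,[(4,0),(35,0)]⟩]⟩) (.Q [0,0,0,0,0,0,1,0,1,-1,1,1] (.p true [0,0,1] [1,0,0,0,-1] (⟨0,[(27,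
  0)]⟩,⟨0,[(26,0)]⟩) .k 2 (⟨0,[(19,0)]⟩,⟨0,[(20,0)]⟩) .k (.r 0 ⟨0,[(0,0),(0,0),(34,0),(1,0)]⟩ ⟨1,
  [(10,1),(26,0),(0,0)]⟩)) (.K ⟨0,[1,0,0,0,-1],0,1,(⟨0,[(20,0)]⟩,⟨0,[(21,0)]⟩),.k,(.r (-1) ⟨3,[(14,
  1),(10,0),(0,0),(12,1)]⟩ ⟨1,[(25,0),(0,0),(9,1)]⟩),(.r (-1) ⟨3,[(4,1),(7,1),(6,1),(5,0),(0,0),(12,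
  1)]⟩ ⟨11,[(1,2),(4,2),(0,2),(6,4),(19,0),(2,4)]⟩),.k,.k,[⟨0,[(0,0)]⟩,⟨0,[(4,0)]⟩,⟨0,[(2,0),(34,
  0)]⟩,⟨0,[(5,0),(35,0)]⟩]⟩) (.Q [0,-1,0,0,1,0,0,0,-1,0,0,-1] (.p false [0,0,0,0,1] [] (⟨0,[(21,
  0)]⟩,⟨0,[(20,0)]⟩) .k 0 (⟨0,[]⟩,⟨0,[]⟩) .k .k) (.R ⟨1,false,false,false,[0,0,1],[0,0,0,0,1],[1,0,
  0,0,0,0,0,1],(⟨0,[(29,0)]⟩,⟨0,[(28,0)]⟩),(⟨0,[(22,0)]⟩,⟨0,[(21,0)]⟩),⟨0,[(18,0)]⟩,.k,.k,.k,.k,(.r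
  (-2) ⟨3,[(6,1),(7,1),(0,1),(4,1),(3,1),(2,1),(3,0),(8,2)]⟩ ⟨0,[(8,0)]⟩),.k,⟨true,1,⟨0,[(14,0),(25,
  0)]⟩,⟨0,[(8,0),(29,0)]⟩⟩,⟨false,0,⟨0,[(3,0),(19,0),(14,0),(1,0)]⟩,⟨1,[(0,0),(3,0),(14,0),(4,0),(1,
  0)]⟩⟩,⟨true,0,⟨0,[]⟩,⟨0,[(42,0)]⟩⟩,⟨true,(-1),⟨0,[(3,0),(5,0),(13,0),(14,0)]⟩,⟨0,[(0,0),(23,0)]⟩⟩,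
  ⟨false,1,⟨0,[(37,0),(2,0)]⟩,⟨0,[(38,0)]⟩⟩,⟨true,(-1),⟨0,[(3,0),(5,0),(13,0)]⟩,⟨0,[(0,0),(23,0),
  (13,0)]⟩⟩,[.o ⟨false,0,⟨1,[(7,0),(12,0),(10,0)]⟩,⟨0,[(0,0)]⟩⟩,.o ⟨false,0,⟨0,[(3,0),(34,0),(1,
  0)]⟩,⟨0,[(19,0)]⟩⟩,.o ⟨false,1,⟨2,[(13,0),(1,0),(10,2),(4,0)]⟩,⟨0,[(11,0)]⟩⟩,.a ⟨true,0,⟨0,[(26,
  0)]⟩,⟨0,[(23,0)]⟩⟩ ⟨true,1,⟨1,[(14,1),(24,0),(0,0)]⟩,⟨0,[(8,0),(29,0)]⟩⟩ ⟨false,0,⟨0,[(3,0),(19,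
  0),(14,0),(1,0)]⟩,⟨0,[(0,0),(25,0)]⟩⟩]⟩) (.Q [0,0,0,0,0,-1,0,0,0,1,0,-1] (.ed true [0,1,0,0,1]
  .k) (.R ⟨1,false,false,false,[1,0,0,0,-1],[1,-1],[0,0,0,-1],(⟨0,[(22,0)]⟩,⟨0,[(23,0)]⟩),(⟨0,[(33,
  0)]⟩,⟨0,[(34,0)]⟩),⟨0,[(0,0)]⟩,.k,.k,(.r (-1) ⟨3,[(16,1),(10,0),(0,0),(12,1)]⟩ ⟨1,[(27,0),(0,0),
  (9,1)]⟩),(.r (-1) ⟨3,[(6,1),(7,1),(6,1),(5,0),(0,0),(12,1)]⟩ ⟨11,[(3,2),(4,2),(0,2),(6,4),(19,0),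
  (2,4)]⟩),.k,.k,⟨true,0,⟨1,[(27,0),(0,0)]⟩,⟨0,[]⟩⟩,⟨false,0,⟨0,[(21,0)]⟩,⟨11,[(3,6),(1,6),(1,4),(8,
  0),(19,3),(0,1),(3,1)]⟩⟩,⟨false,0,⟨0,[(39,0)]⟩,⟨0,[(38,0),(2,0)]⟩⟩,⟨true,(-1),⟨0,[(1,0),(37,0)]⟩,
  ⟨4,[(3,1),(1,0),(1,2),(1,0),(4,1),(21,0)]⟩⟩,⟨true,0,⟨0,[(43,0)]⟩,⟨0,[]⟩⟩,⟨true,(-1),⟨0,[(1,0)]⟩,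
  ⟨0,[(20,0)]⟩⟩,[.o ⟨false,0,⟨0,[(39,0)]⟩,⟨3,[(14,1),(5,0),(0,0),(10,0)]⟩⟩,.o ⟨false,1,⟨3,[(16,1),
  (10,2),(0,2),(12,1)]⟩,⟨2,[(3,0),(0,0),(4,0),(26,0),(0,0),(3,0)]⟩⟩,.o ⟨false,1,⟨0,[(20,0)]⟩,⟨2,[(1,
  1),(19,0),(14,0),(4,0)]⟩⟩,.a ⟨true,0,⟨0,[(6,0)]⟩,⟨1,[(1,1),(38,0),(0,0)]⟩⟩ ⟨false,1,⟨3,[(16,1),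
  (10,0),(0,0),(12,1)]⟩,⟨3,[(3,1),(0,1),(4,1),(17,0),(0,0),(12,3)]⟩⟩ ⟨true,0,⟨2,[(1,1),(14,0),(4,0),
  (17,0),(1,0)]⟩,⟨3,[(3,1),(2,1),(2,1),(4,0),(21,0)]⟩⟩]⟩) (.S ⟨1,0,[0,2,0,-1],[0,0,0,0,1],[1,1],(⟨0,
  [(23,0)]⟩,⟨0,[(22,0)]⟩),⟨0,[(0,0),(17,0),(0,0)]⟩,.k,(.r 0 ⟨11,[(3,2),(4,2),(0,2),(6,4),(19,0),(2,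
  4)]⟩ ⟨3,[(6,1),(7,1),(6,1),(5,0),(0,0),(12,1)]⟩),⟨true,0,⟨0,[]⟩,⟨0,[(43,0)]⟩⟩,⟨false,0,⟨0,[(39,
  0)]⟩,⟨0,[(38,0),(2,0)]⟩⟩,⟨false,1,⟨0,[(38,0),(2,0)]⟩,⟨0,[(39,0)]⟩⟩,⟨true,0,⟨0,[(43,0)]⟩,⟨0,[]⟩⟩,
  [.o ⟨false,(-1),⟨0,[(4,0),(34,1)]⟩,⟨5,[(3,1),(1,1),(0,1),(0,1),(6,2),(21,0),(4,5)]⟩⟩,.a ⟨true,
  (-1),⟨0,[(1,0),(37,0)]⟩,⟨1,[(3,0),(3,0),(1,0),(27,0),(3,1)]⟩⟩ ⟨true,0,⟨0,[]⟩,⟨1,[(27,0),(0,0)]⟩⟩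
  ⟨false,0,⟨11,[(3,2),(4,2),(0,2),(6,4),(19,0),(2,4)]⟩,⟨0,[(38,0),(2,0)]⟩⟩,.o ⟨false,0,⟨2,[(1,1),
  (19,0),(14,0),(4,0)]⟩,⟨0,[(20,0)]⟩⟩,.o ⟨false,0,⟨5,[(1,3),(19,1),(5,2),(0,2),(7,1),(4,1)]⟩,⟨11,
  [(3,6),(1,6),(1,4),(8,0),(19,3),(0,1),(3,1)]⟩⟩]⟩)))))))))))

theorem ok14 : chk K t14 r6 = true := by decide +kernel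

noncomputable def t16 : Tre :=
  (.S ⟨1,0,[0,0,0,-1,0,0,0,1],[0,0,1],[1,1,1],(⟨0,[(19,0)]⟩,⟨0,[(18,0)]⟩),⟨0,[(8,0)]⟩,.k,.k,⟨false,
  0,⟨0,[(2,0)]⟩,⟨2,[(0,1),(2,0),(9,0),(0,0),(15,1)]⟩⟩,⟨true,0,⟨0,[(28,0)]⟩,⟨0,[(27,0)]⟩⟩,⟨true,0,⟨0,
  [(2,0),(24,0)]⟩,⟨0,[(0,0)]⟩⟩,⟨false,1,⟨1,[(9,0),(0,0),(19,0)]⟩,⟨0,[]⟩⟩,[.e ⟨false,0,⟨0,[(32,0)]⟩,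
  ⟨1,[(29,0),(0,0)]⟩⟩ ⟨false,0,⟨0,[(0,0)]⟩,⟨1,[(2,1),(24,1),(1,0),(0,0)]⟩⟩,.o ⟨false,1,⟨2,[(0,1),
  (13,0),(1,1),(8,0),(2,0),(1,1)]⟩,⟨0,[(1,0),(0,0),(23,0)]⟩⟩,.o ⟨false,1,⟨2,[(3,0),(1,0),(10,2),(4,
  0)]⟩,⟨0,[(1,0)]⟩⟩,.a ⟨true,0,⟨0,[(16,0)]⟩,⟨0,[(13,0)]⟩⟩ ⟨false,0,⟨0,[]⟩,⟨1,[(9,0),(0,0),(19,0)]⟩⟩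
  ⟨true,0,⟨0,[(0,0)]⟩,⟨0,[(2,0),(24,0)]⟩⟩]⟩)

theorem ok16 : chk K t16 r5 = true := by decide +kernel

noncomputable def t18 : Tre :=
  (.Q [0,1,0,1,0,0,1,1,0,0,1] (.p true [0,0,1] [] (⟨0,[(18,0)]⟩,⟨0,[(17,0)]⟩) .k 0 (⟨0,[]⟩,⟨0,[]⟩)
  .k .k) (.Q [0,0,-2,0,1,0,1,0,0,-1,1] (.p true [0,0,1] [1] (⟨0,[(19,0)]⟩,⟨0,[(18,0)]⟩) .k 1 (⟨0,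
  []⟩,⟨0,[]⟩) .k .k) (.I [0,0,-2,0,1,-2,1] (.K ⟨0,[0,1,1],0,0,(⟨0,[(21,0),(3,0)]⟩,⟨0,[(9,0)]⟩),.k,
  .k,(.x (-1) ⟨0,[(0,0)]⟩ ⟨1,[(18,0),(0,2),(1,1),(3,3)]⟩),.k,.k,[⟨1,[(18,0),(0,0)]⟩,⟨0,[(3,0)]⟩,⟨0,
  [(17,0),(12,0)]⟩,⟨0,[(2,0)]⟩]⟩) (.K ⟨0,[0,1,1],0,0,(⟨0,[(21,0),(3,0)]⟩,⟨0,[(9,0)]⟩),.k,.k,(.r 0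
  ⟨1,[(0,2),(1,1),(0,0),(5,2),(12,2),(4,0),(0,1),(3,1)]⟩ ⟨0,[(4,0),(2,0)]⟩),.k,.k,[⟨1,[(18,0),(0,
  0)]⟩,⟨0,[(3,0)]⟩,⟨0,[(17,0),(12,0)]⟩,⟨0,[(2,0)]⟩]⟩)) (.K ⟨0,[0,1,1],0,0,(⟨0,[(20,0),(3,0)]⟩,⟨0,
  [(8,0)]⟩),.k,.k,(.r 0 ⟨1,[(0,2),(0,1),(0,0),(23,0),(0,1),(3,1)]⟩ ⟨0,[(3,0),(2,0)]⟩),.k,.k,[⟨1,
  [(17,0),(0,0)]⟩,⟨0,[(2,0)]⟩,⟨0,[(16,0),(12,0)]⟩,⟨0,[(1,0)]⟩]⟩)) (.R ⟨2,true,false,true,[0,1],[0,1,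
  1],[0,1,1],(⟨0,[]⟩,⟨0,[]⟩),(⟨0,[(19,0),(3,0)]⟩,⟨0,[(7,0)]⟩),⟨0,[]⟩,.k,.k,.k,.k,.k,.k,⟨false,0,⟨0,
  [(0,0),(0,0),(24,0),(1,0)]⟩,⟨1,[(3,0),(2,0),(7,1),(15,0)]⟩⟩,⟨true,0,⟨0,[(1,0)]⟩,⟨0,[(17,0)]⟩⟩,
  ⟨false,0,⟨0,[(28,0)]⟩,⟨0,[(27,0),(2,0)]⟩⟩,⟨true,0,⟨0,[(14,0)]⟩,⟨0,[(0,0),(26,0)]⟩⟩,⟨true,0,⟨0,
  [(32,0)]⟩,⟨0,[]⟩⟩,⟨false,1,⟨0,[(14,0),(12,0),(2,0)]⟩,⟨0,[(0,0)]⟩⟩,[]⟩))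

theorem ok18 : chk K t18 r4 = true := by decide +kernel

noncomputable def t22 : Tre :=
  (.Q [0,-1,0,-1,0,0,-1,-1,0,0,-1] (.p false [0,0,1] [] (⟨0,[(15,0)]⟩,⟨0,[(14,0)]⟩) .k 0 (⟨0,[]⟩,⟨0,
  []⟩) .k .k) (.R ⟨2,true,false,true,[0,1],[0,1,1],[0,1,1],(⟨0,[]⟩,⟨0,[]⟩),(⟨0,[(16,0),(3,0)]⟩,⟨0,
  [(4,0)]⟩),⟨0,[]⟩,.k,.k,.k,.k,.k,.k,⟨false,0,⟨0,[(1,0),(21,0),(1,1)]⟩,⟨0,[(11,0),(2,0),(8,0),(3,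
  0)]⟩⟩,⟨true,0,⟨0,[(1,0),(9,0)]⟩,⟨0,[(14,0)]⟩⟩,⟨false,0,⟨0,[(25,0)]⟩,⟨0,[(24,0),(2,0)]⟩⟩,⟨true,0,
  ⟨0,[(11,0)]⟩,⟨2,[(0,0),(0,0),(10,0),(1,0),(8,0)]⟩⟩,⟨true,0,⟨0,[(29,0)]⟩,⟨0,[]⟩⟩,⟨false,1,⟨0,[(11,
  0),(12,0),(2,0)]⟩,⟨0,[(0,0)]⟩⟩,[]⟩) (.I [0,-1,0,0,1,0,0,1] (.S ⟨1,0,[0,0,0,-1,0,0,0,-1],[1,0,-1],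
  [1,1,0,0,0,0,0,-1],(⟨0,[(16,0)]⟩,⟨0,[(17,0)]⟩),⟨0,[(5,0)]⟩,.k,.k,⟨false,0,⟨0,[]⟩,⟨1,[(7,0),(0,0),
  (19,0)]⟩⟩,⟨true,0,⟨0,[(26,0)]⟩,⟨0,[(25,0)]⟩⟩,⟨true,0,⟨0,[(25,0)]⟩,⟨0,[(26,0)]⟩⟩,⟨false,1,⟨1,[(7,
  0),(0,0),(19,0)]⟩,⟨0,[]⟩⟩,[.o ⟨false,0,⟨0,[(2,0),(12,0),(8,0),(1,1)]⟩,⟨1,[(1,1),(17,0),(8,0)]⟩⟩,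
  .a ⟨true,0,⟨1,[(2,1),(1,0),(15,0),(0,0),(4,1)]⟩,⟨0,[(1,0)]⟩⟩ ⟨false,0,⟨0,[(2,0),(21,0),(1,0)]⟩,⟨0,
  [(0,0),(29,0)]⟩⟩ ⟨true,0,⟨0,[(2,0),(23,0)]⟩,⟨0,[(1,0),(13,0)]⟩⟩,.e ⟨false,0,⟨3,[(2,2),(10,0),(0,
  0),(7,0)]⟩,⟨0,[(0,0)]⟩⟩ ⟨false,0,⟨0,[(2,0),(23,0)]⟩,⟨0,[(0,0),(24,0)]⟩⟩,.o ⟨false,0,⟨0,[(15,0)]⟩,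
  ⟨8,[(1,3),(0,3),(0,1),(10,4),(8,2),(3,3)]⟩⟩]⟩) (.K ⟨0,[0,1,1],0,0,(⟨0,[(17,0),(3,0)]⟩,⟨0,[(5,
  0)]⟩),.k,.k,(.x (-1) ⟨6,[(1,8),(0,8),(0,3),(1,6),(5,1),(6,6),(4,2),(2,0)]⟩ ⟨1,[(14,0),(0,2),(1,1),
  (3,3)]⟩),.k,.k,[⟨1,[(14,0),(0,0)]⟩,⟨0,[(2,0),(9,0)]⟩,⟨0,[(13,0),(12,0)]⟩,⟨0,[(1,0)]⟩]⟩)))

theorem ok22 : chk K t22 r1 = true := by decide +kernel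

noncomputable def t8 : Tre :=
  .Q [0,0,0,1,0,0,-1,-1,0,0,-1] (.p false [0,0,1] [] (⟨0,[(24,0)]⟩,⟨0,[(23,0)]⟩) .k 0 (⟨0,[]⟩,⟨0,
  []⟩) .k .k) t6 t7

theorem ok8 : chk K t8 l10 = true :=
  chk_Q (e' := [0,0,0,-1,0,0,1,1,0,0,1]) (by decide +kernel) (by decide +kernel) ok6 ok7

noncomputable def t10 : Tre :=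
  .I [1,0,1,2] t8 t9

theorem ok10 : chk K t10 r9 = true :=
  chk_I (e' := [0,0,-1,-2]) (by decide +kernel) (by decide +kernel) ok8 ok9

noncomputable def t11 : Tre :=
  .I [1,0,0,0,0,0,0,-1] t5 t10

theorem ok11 : chk K t11 r8 = true :=
  chk_I (e' := [0,0,0,0,0,0,0,1]) (by decide +kernel) (by decide +kernel) ok5 ok10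

noncomputable def t12 : Tre :=
  .I [1,0,-1,-1,0,0,0,1] t4 t11

theorem ok12 : chk K t12 r7 = true :=
  chk_I (e' := [0,0,1,1,0,0,0,-1]) (by decide +kernel) (by decide +kernel) ok4 ok11

noncomputable def t13 : Tre :=
  .I [0,0,0,0,0,0,0,-1] t3 t12

theorem ok13 : chk K t13 l6 = true :=
  chk_I (e' := [1,0,0,0,0,0,0,1]) (by decide +kernel) (by decide +kernel) ok3 ok12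

noncomputable def t15 : Tre :=
  .I [1,1,-1,0,0,0,0,1] t13 t14

theorem ok15 : chk K t15 l5 = true :=
  chk_I (e' := [0,-1,1,0,0,0,0,-1]) (by decide +kernel) (by decide +kernel) ok13 ok14

noncomputable def t17 : Tre :=
  .I [1,0,1,1,0,0,0,-1] t15 t16

theorem ok17 : chk K t17 l4 = true :=
  chk_I (e' := [0,0,-1,-1,0,0,0,1]) (by decide +kernel) (by decide +kernel) ok15 ok16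

noncomputable def t19 : Tre :=
  .Q [0,0,0,0,0,0,-1,0,0,0,-1] (.p false [0,0,1] [] (⟨0,[(17,0)]⟩,⟨0,[(16,0)]⟩) .k 0 (⟨0,[]⟩,⟨0,
  []⟩) .k .k) t17 t18

theorem ok19 : chk K t19 r3 = true :=
  chk_Q (e' := [0,0,0,0,0,0,1,0,0,0,1]) (by decide +kernel) (by decide +kernel) ok17 ok18

noncomputable def t20 : Tre :=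
  .I [1,0,-1,0,0,0,0,1] t2 t19

theorem ok20 : chk K t20 r2 = true :=
  chk_I (e' := [0,0,1,0,0,0,0,-1]) (by decide +kernel) (by decide +kernel) ok2 ok19

noncomputable def t21 : Tre :=
  .Q [0,0,0,-2,-1,0,0,0,0,1] (.pp false [-1,1]) t1 t20

theorem ok21 : chk K t21 l1 = true :=
  chk_Q (e' := [0,0,0,2,1,0,0,0,0,-1]) (by decide +kernel) (by decide +kernel) ok1 ok20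

noncomputable def t23 : Tre :=
  .I [1,1,0,0,0,0,0,1] t21 t22

theorem ok23 : chk K t23 r0 = true :=
  chk_I (e' := [0,-1,0,0,0,0,0,-1]) (by decide +kernel) (by decide +kernel) ok21 ok22

noncomputable def t24 : Tre :=
  .I [0,0,3,2,-1] t0 t23

theorem ok24 : chk K t24 base = true :=
  chk_I (e' := [1,0,-3,-2,1]) (by decide +kernel) (by decide +kernel) ok0 ok23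

theorem closed {p a b c J l q : ℤ} {D dl : ℝ} {Cl : ℤ → ℤ → ℤ → ℤ → ℝ → Prop}
    (W : World p a b c J 1 l q D dl Cl) (g : G0 p a b c J D)
    {N X R : ℤ} {I : ℝ} (hk : KCl p l Cl N X R I) (kz : KF a b D (X + (1 : ℤ) * I) (X + (1 : ℤ) * I + R) I)
    {Ne Xe : ℤ} {Ie : ℝ} (he : EFac p 1 D Cl (a) Ne Xe Ie)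
    (hkf : ∀ kf ∈ (kfY 1 [0,0,0,0,0,0,1,0,0,0,1]), KOk p l Cl 1
      (xv [1, a, b, c, p, J, X, R, Xe] [D, I, Ie]) N kf)
    (h0 : 1 ≤ -(c : ℝ))
    (h1 : 1 ≤ (a : ℝ) - (b : ℝ) + (c : ℝ))
    (h2 : 0 < 1 + (p : ℝ) - 3 * D)
    (h3 : 1 ≤ 2 * (a : ℝ) - (b : ℝ))
    (h4 : 1 ≤ 2 - (J : ℝ))
    (h5 : 0 < -(b : ℝ) - (X : ℝ) + D - I)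
    (h6 : 0 < -(J : ℝ) + I)
    (h7 : 0 < -(J : ℝ) + D - I)
    (h8 : 0 < -2 * (X : ℝ) + D - 2 * I) : False := by
  have g1 := g.a2
  have g2 := g.b2
  have g3 := g.pa
  have g4 := g.pb
  have g5 := g.J1
  have g6 := g.JD
  have g7 := g.D2
  have g8 := g.ca
  have g9 := g.ca'
  have k1 := kz.I0
  have k2 := kz.ID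
  have k3 := kz.z1
  have k4 := kz.z2
  have k5 := kz.s1
  have k6 := kz.s2
  have e1 := he.I0
  have e2 := he.ID
  have e3 := he.x0
  have e4 := he.xp
  push_cast at *
  refine (val_E W.toBase hk he (row := [0,1]) (by simp) (by simp) (kfY 1 [0,0,0,0,0,0,1,0,0,0,1])).sound W rfl (Nk := N)
    (fun kf _ _ => ⟨_, rfl⟩) hkf ?_ ok24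
  · simp only [base, List.forall_mem_cons, List.not_mem_nil, false_imp_iff, implies_true,
      and_true, hld, xv, evg_cons, evg_nil, List.map_cons, List.map_nil, List.cons_append,
      List.nil_append, if_true, if_false, Bool.false_eq_true]
    push_cast
    refine ⟨?_, ?_, ?_, ?_, ?_, ?_, ?_, ?_, ?_, ?_, ?_, ?_, ?_, ?_, ?_, ?_, ?_, ?_, ?_, ?_, ?_, ?_, ?_, ?_, ?_, ?_, ?_⟩ <;> linarith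

end Helper25.S1T.Ymp_1cP1
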