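import Pool.Agent.Helper25.S1T.Ymp_1cP2_q

set_option autoImplicit false
set_option linter.all false

namespace Helper25.S1T.Ymp_1cP2

open Helper25.KG Helper25.KW Helper55.KE Helper11.CT

noncomputable def t27 : Tre :=
  (.Q [0,0,0,-1,0,0,1,1,0,-1,1] (.p true [0,0,1] [1] (⟨0,[(23,0)]⟩,⟨0,[(22,0)]⟩) .k 1 (⟨0,[]⟩,⟨0,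
  []⟩) .k .k) (.R ⟨2,true,false,false,[0,1],[1,1,-1],[0,1,1],(⟨0,[]⟩,⟨0,[]⟩),(⟨0,[(23,0),(2,0)]⟩,⟨0,
  [(13,0)]⟩),⟨0,[]⟩,.k,.k,.k,.k,.k,.k,⟨true,(-1),⟨16,[(0,16),(5,4),(1,13),(9,2),(11,0),(0,0),(0,
  9)]⟩,⟨0,[(9,0),(26,0)]⟩⟩,⟨false,0,⟨0,[(18,0)]⟩,⟨9,[(14,0),(0,0),(5,9),(9,1),(3,4)]⟩⟩,⟨false,0,⟨0,
  [(34,0)]⟩,⟨1,[(2,0),(0,0),(32,0)]⟩⟩,⟨true,0,⟨0,[(2,0),(2,0),(30,0)]⟩,⟨11,[(0,6),(3,1),(14,4),(10,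
  0),(0,0),(0,2)]⟩⟩,⟨true,0,⟨0,[(38,0)]⟩,⟨0,[]⟩⟩,⟨false,1,⟨0,[(9,0),(8,0),(17,0)]⟩,⟨0,[(0,0)]⟩⟩,
  []⟩) (.I [0,0,2,0,0,2,1] (.R ⟨1,false,false,true,[0,0,1],[0,1],[1,1,1],(⟨0,[(25,0)]⟩,⟨0,[(24,
  0)]⟩),(⟨0,[(30,0)]⟩,⟨0,[(29,0)]⟩),⟨0,[(14,0)]⟩,.k,.k,.k,.k,(.x 0 ⟨0,[(0,0)]⟩ ⟨15,[(13,3),(0,19),
  (4,15),(6,7),(5,3),(0,5),(1,5),(0,4),(0,2)]⟩),.k,⟨true,0,⟨19,[(7,9),(7,0),(0,0),(15,1),(4,4)]⟩,⟨5,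
  [(4,0),(0,1),(4,0),(12,0),(13,0)]⟩⟩,⟨false,1,⟨5,[(12,0),(6,3),(12,0),(3,3)]⟩,⟨0,[(22,0)]⟩⟩,⟨true,
  0,⟨19,[(7,9),(2,19),(4,0),(0,0),(15,1),(4,4)]⟩,⟨19,[(2,17),(1,1),(4,16),(9,2),(12,3),(0,33),(3,
  6)]⟩⟩,⟨true,0,⟨0,[(3,0)]⟩,⟨1,[(2,0),(17,0)]⟩⟩,⟨true,0,⟨0,[(10,0)]⟩,⟨9,[(2,8),(6,3),(9,5),(0,0),
  (11,1),(0,7)]⟩⟩,⟨false,1,⟨15,[(1,9),(8,5),(0,7),(0,2),(19,0),(3,2),(0,2)]⟩,⟨0,[(2,0)]⟩⟩,[.e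
  ⟨false,0,⟨0,[(39,0)]⟩,⟨1,[(36,0),(0,0)]⟩⟩ ⟨false,0,⟨5,[(9,1),(2,0),(6,1),(12,0),(0,5)]⟩,⟨19,[(7,
  9),(7,0),(0,0),(5,19),(9,1),(3,9),(0,14)]⟩⟩,.o ⟨false,1,⟨21,[(4,5),(5,5),(0,4),(0,2),(19,3),(3,
  2)]⟩,⟨0,[(35,0)]⟩⟩,.o ⟨false,1,⟨9,[(15,0),(0,0),(5,9),(9,1),(3,4)]⟩,⟨27,[(9,10),(2,2),(6,10),(12,
  4),(4,0),(1,1)]⟩⟩,.a ⟨true,0,⟨0,[(22,0)]⟩,⟨0,[(19,0)]⟩⟩ ⟨false,0,⟨0,[]⟩,⟨1,[(15,0),(0,0),(20,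
  0)]⟩⟩ ⟨true,0,⟨5,[(9,1),(2,0),(6,1),(12,0),(0,5)]⟩,⟨19,[(7,9),(7,0),(0,0),(5,19),(9,1),(4,
  4)]⟩⟩]⟩) (.R ⟨1,false,false,true,[0,0,1],[0,1],[1,1,1],(⟨0,[(25,0)]⟩,⟨0,[(24,0)]⟩),(⟨0,[(30,0)]⟩,
  ⟨0,[(29,0)]⟩),⟨0,[(14,0)]⟩,.k,.k,.k,.k,(.r 0 ⟨9,[(0,6),(1,9),(3,4),(2,0),(9,1),(4,6),(2,13),(4,2),
  (0,4)]⟩ ⟨1,[(4,0),(5,2),(12,0),(13,0)]⟩),.k,⟨true,0,⟨19,[(7,9),(7,0),(0,0),(15,1),(4,4)]⟩,⟨5,[(4,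
  0),(0,1),(4,0),(12,0),(13,0)]⟩⟩,⟨false,1,⟨5,[(12,0),(6,3),(12,0),(3,3)]⟩,⟨0,[(22,0)]⟩⟩,⟨true,0,
  ⟨19,[(7,9),(2,19),(4,0),(0,0),(15,1),(4,4)]⟩,⟨19,[(2,17),(1,1),(4,16),(9,2),(12,3),(0,33),(3,
  6)]⟩⟩,⟨true,0,⟨0,[(3,0)]⟩,⟨1,[(2,0),(17,0)]⟩⟩,⟨true,0,⟨0,[(10,0)]⟩,⟨9,[(2,8),(6,3),(9,5),(0,0),
  (11,1),(0,7)]⟩⟩,⟨false,1,⟨15,[(1,9),(8,5),(0,7),(0,2),(19,0),(3,2),(0,2)]⟩,⟨0,[(2,0)]⟩⟩,[.e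
  ⟨false,0,⟨0,[(39,0)]⟩,⟨1,[(36,0),(0,0)]⟩⟩ ⟨false,0,⟨5,[(9,1),(2,0),(6,1),(12,0),(0,5)]⟩,⟨19,[(7,
  9),(7,0),(0,0),(5,19),(9,1),(3,9),(0,14)]⟩⟩,.o ⟨false,1,⟨21,[(4,5),(5,5),(0,4),(0,2),(19,3),(3,
  2)]⟩,⟨0,[(35,0)]⟩⟩,.o ⟨false,1,⟨9,[(15,0),(0,0),(5,9),(9,1),(3,4)]⟩,⟨24,[(0,0),(8,7),(2,4),(6,5),
  (4,0),(2,1),(4,3)]⟩⟩,.a ⟨true,0,⟨0,[(22,0)]⟩,⟨0,[(19,0)]⟩⟩ ⟨false,0,⟨0,[]⟩,⟨1,[(15,0),(0,0),(20,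
  0)]⟩⟩ ⟨true,0,⟨5,[(9,1),(2,0),(6,1),(12,0),(0,5)]⟩,⟨19,[(7,9),(7,0),(0,0),(5,19),(9,1),(4,
  4)]⟩⟩]⟩)))

theorem ok27 : chk K t27 l19 = true := by decide +kernel

noncomputable def t28 : Tre :=
  (.I [0,0,2,0,-1,2,0,0,-1] (.I [1,-1,-2,-2,1] (.N [0,2,0,0,1] 1 ⟨0,[(6,0)]⟩ ⟨0,[(0,0)]⟩ (.x (-2)
  ⟨1,[(14,0),(0,0),(1,1),(0,1),(11,1),(2,0),(3,1)]⟩ ⟨0,[(1,0)]⟩)) (.I [1,0,0,1,0,0,0,-1] (.S ⟨1,0,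
  [0,0,0,-1,0,0,0,1],[0,0,1],[0,1,0,-1,0,0,0,1],(⟨0,[(27,0)]⟩,⟨0,[(26,0)]⟩),⟨0,[(16,0)]⟩,.k,.k,
  ⟨false,0,⟨0,[(37,0)]⟩,⟨11,[(4,1),(1,3),(5,1),(0,0),(0,0),(23,0),(0,5)]⟩⟩,⟨true,0,⟨0,[(37,0)]⟩,⟨0,
  [(36,0)]⟩⟩,⟨true,0,⟨0,[(41,0)]⟩,⟨0,[]⟩⟩,⟨false,1,⟨1,[(17,0),(0,0),(20,0)]⟩,⟨0,[]⟩⟩,[.o ⟨false,1,
  ⟨20,[(6,20),(2,18),(7,2),(0,2),(15,7),(2,3),(3,1)]⟩,⟨23,[(0,19),(3,2),(6,9),(9,9),(1,0),(10,3),(2,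
  1),(1,1)]⟩⟩,.e ⟨false,1,⟨2,[(6,2),(2,2),(4,0),(6,0),(12,0),(3,0)]⟩,⟨0,[(0,0)]⟩⟩ ⟨false,1,⟨0,[(6,
  0),(1,3),(2,0),(22,0),(0,1),(3,2)]⟩,⟨2,[(0,1),(11,0),(20,0)]⟩⟩,.o ⟨false,1,⟨9,[(17,0),(0,0),(5,9),
  (9,1),(3,4)]⟩,⟨27,[(11,10),(2,2),(6,10),(12,4),(4,0),(1,1)]⟩⟩,.a ⟨true,0,⟨0,[(24,0)]⟩,⟨0,[(21,
  0)]⟩⟩ ⟨true,0,⟨0,[(6,0),(1,3),(2,0),(22,0),(0,1),(3,1)]⟩,⟨15,[(0,9),(10,4),(0,5),(11,4),(9,0),(4,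
  2)]⟩⟩ ⟨false,1,⟨0,[(6,0),(1,3),(2,0),(22,0),(0,1),(3,2)]⟩,⟨15,[(0,9),(10,4),(0,5),(11,4),(9,0),(4,
  2)]⟩⟩]⟩) (.I [0,0,0,0,0,0,0,-1] (.S ⟨1,0,[0,0,0,-1,0,0,0,1],[0,0,1],[1,1,0,0,0,0,0,1],(⟨0,[(28,
  0)]⟩,⟨0,[(27,0)]⟩),⟨0,[(17,0)]⟩,.k,.k,⟨false,0,⟨0,[]⟩,⟨1,[(18,0),(0,0),(20,0)]⟩⟩,⟨true,0,⟨0,[(38,
  0)]⟩,⟨0,[(37,0)]⟩⟩,⟨true,0,⟨0,[(37,0)]⟩,⟨0,[(38,0)]⟩⟩,⟨false,1,⟨1,[(18,0),(0,0),(20,0)]⟩,⟨0,[]⟩⟩,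
  [.o ⟨false,1,⟨20,[(7,20),(2,18),(7,2),(0,2),(15,7),(2,3),(3,1)]⟩,⟨11,[(0,9),(4,1),(6,8),(9,0),(12,
  1),(0,7),(3,4)]⟩⟩,.e ⟨false,1,⟨29,[(1,9),(5,9),(7,9),(2,0),(0,0),(3,9),(11,1),(3,14)]⟩,⟨0,[(0,
  0)]⟩⟩ ⟨false,1,⟨1,[(1,1),(37,0),(0,0)]⟩,⟨1,[(0,0),(12,0),(22,0)]⟩⟩,.o ⟨false,1,⟨9,[(18,0),(0,0),
  (5,9),(9,1),(3,4)]⟩,⟨27,[(12,10),(2,2),(6,10),(12,4),(4,0),(1,1)]⟩⟩,.a ⟨true,0,⟨0,[(25,0)]⟩,⟨0,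
  [(22,0)]⟩⟩ ⟨true,0,⟨0,[(1,0),(34,0)]⟩,⟨1,[(0,1),(24,0),(0,0)]⟩⟩ ⟨false,1,⟨1,[(1,1),(37,0),(0,0)]⟩,
  ⟨2,[(0,1),(1,0),(10,0),(26,0)]⟩⟩]⟩) (.I [1,-1,-1,0,1,0,0,-1] (.I [0,0,0,0,0,0,0,1] (.S ⟨1,0,[0,1,
  0,-1,0,0,0,-1],[1,0,-1],[1,0,0,0,0,0,0,-1],(⟨0,[(29,0)]⟩,⟨0,[(30,0)]⟩),⟨0,[(18,0)]⟩,.k,.k,⟨true,0,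
  ⟨0,[]⟩,⟨0,[(44,0)]⟩⟩,⟨false,0,⟨0,[(40,0)]⟩,⟨7,[(1,0),(5,0),(1,2),(5,0),(0,0),(0,0),(24,2)]⟩⟩,
  ⟨false,1,⟨7,[(1,0),(5,0),(1,2),(5,0),(0,0),(0,0),(24,2)]⟩,⟨0,[(40,0)]⟩⟩,⟨true,0,⟨0,[(44,0)]⟩,⟨0,
  []⟩⟩,[.e ⟨false,1,⟨64,[(1,54),(10,4),(2,9),(4,12),(0,12),(14,19),(0,0)]⟩,⟨0,[(0,0)]⟩⟩ ⟨false,0,⟨6,
  [(1,5),(9,9),(3,0),(21,1),(0,1)]⟩,⟨2,[(2,0),(3,0),(2,0),(7,0),(24,0)]⟩⟩,.o ⟨false,0,⟨7,[(1,5),(5,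
  0),(4,3),(1,5),(11,0),(10,1),(2,1)]⟩,⟨94,[(6,25),(2,40),(5,1),(1,0),(7,29),(10,1),(0,13),(6,4)]⟩⟩,
  .o ⟨false,0,⟨27,[(14,10),(2,2),(6,10),(12,4),(4,0),(1,1)]⟩,⟨9,[(20,0),(0,0),(5,9),(9,1),(3,4)]⟩⟩,
  .a ⟨true,(-1),⟨0,[(14,0)]⟩,⟨0,[(27,0),(13,0)]⟩⟩ ⟨false,1,⟨0,[(1,0)]⟩,⟨2,[(3,1),(5,0),(3,0),(14,
  0)]⟩⟩ ⟨true,0,⟨6,[(1,5),(9,9),(3,0),(21,1),(0,1)]⟩,⟨2,[(2,1),(1,0),(4,0),(18,0)]⟩⟩]⟩) (.N [0,0,1]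
  0 ⟨0,[(2,0)]⟩ ⟨0,[(0,0)]⟩ .k)) (.I [0,-1,-1,-1,1,0,0,-1] (.R ⟨1,false,false,true,[1,0,-1],[0,1],
  [0,0,0,-1,0,0,0,-1],(⟨0,[(29,0)]⟩,⟨0,[(30,0)]⟩),(⟨0,[(35,0)]⟩,⟨0,[(34,0)]⟩),⟨0,[(18,0)]⟩,.k,.k,.k,
  .k,(.r (-1) ⟨16,[(0,16),(11,9),(23,1),(0,1),(0,2),(2,5)]⟩ ⟨2,[(2,0),(1,1),(4,1),(18,1)]⟩),.k,
  ⟨true,1,⟨23,[(0,25),(2,1),(8,9),(14,0),(0,0),(8,1),(4,3)]⟩,⟨0,[(2,0),(1,0)]⟩⟩,⟨false,2,⟨6,[(0,3),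
  (5,1),(18,1),(1,2),(8,0),(0,0),(3,5)]⟩,⟨0,[(14,0)]⟩⟩,⟨true,0,⟨0,[(40,0)]⟩,⟨0,[(39,0)]⟩⟩,⟨false,1,
  ⟨94,[(6,25),(2,40),(5,1),(1,0),(7,29),(10,1),(0,13),(6,4)]⟩,⟨0,[(0,0),(13,0)]⟩⟩,⟨false,1,⟨1,[(0,
  0),(8,0),(18,0)]⟩,⟨0,[]⟩⟩,⟨false,1,⟨0,[(6,0)]⟩,⟨11,[(0,11),(11,5),(1,10),(13,0),(8,0),(4,2)]⟩⟩,
  [.e ⟨false,1,⟨0,[(0,0),(43,0)]⟩,⟨0,[(1,0),(36,0),(3,0)]⟩⟩ ⟨false,1,⟨5,[(0,0),(5,0),(20,4),(8,0),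
  (0,0),(0,4),(2,1)]⟩,⟨11,[(12,5),(1,4),(2,0),(6,4),(12,0),(4,8)]⟩⟩,.o ⟨false,1,⟨21,[(9,5),(5,5),(0,
  4),(0,2),(19,3),(3,2)]⟩,⟨0,[(40,0)]⟩⟩,.o ⟨false,0,⟨27,[(14,10),(2,2),(6,10),(12,4),(4,0),(1,1)]⟩,
  ⟨18,[(0,8),(5,3),(8,0),(9,5),(1,8),(8,0),(0,2)]⟩⟩,.a ⟨true,(-1),⟨0,[(14,0)]⟩,⟨0,[(27,0),(13,0)]⟩⟩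
  ⟨false,1,⟨0,[(0,0)]⟩,⟨2,[(2,1),(1,0),(4,0),(18,0)]⟩⟩ ⟨true,1,⟨5,[(0,0),(5,0),(20,4),(8,0),(0,0),
  (0,4),(2,1)]⟩,⟨11,[(12,5),(1,10),(13,0),(8,0),(4,2)]⟩⟩]⟩) (.I [0,1,0,0,0,0,0,-1] (.I [0,0,1,0,0,0,
  0,-1] (.I [0,0,-1,-1,0,0,0,1] (.S ⟨1,0,[0,0,0,-1,0,0,0,1],[0,0,1],[1,1,1],(⟨0,[(33,0)]⟩,⟨0,[(32,
  0)]⟩),⟨0,[(22,0)]⟩,.k,.k,⟨false,0,⟨0,[(1,0)]⟩,⟨11,[(0,5),(11,5),(7,0),(6,3),(12,0),(3,0),(0,2)]⟩⟩,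
  ⟨true,0,⟨0,[(43,0)]⟩,⟨0,[(42,0)]⟩⟩,⟨true,0,⟨0,[(18,0)]⟩,⟨0,[(0,0)]⟩⟩,⟨false,1,⟨1,[(23,0),(0,0),
  (20,0)]⟩,⟨0,[]⟩⟩,[.e ⟨false,0,⟨0,[(47,0)]⟩,⟨1,[(44,0),(0,0)]⟩⟩ ⟨false,0,⟨0,[(0,0)]⟩,⟨1,[(18,1),
  (25,0),(0,0)]⟩⟩,.o ⟨false,1,⟨3,[(0,2),(11,0),(2,0),(14,2),(9,0),(4,1)]⟩,⟨0,[(11,0)]⟩⟩,.o ⟨false,1,
  ⟨9,[(23,0),(0,0),(5,9),(9,1),(3,4)]⟩,⟨24,[(0,1),(1,0),(7,0),(6,8),(2,3),(6,6),(12,3),(4,0)]⟩⟩,.a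
  ⟨true,0,⟨0,[(30,0)]⟩,⟨0,[(27,0)]⟩⟩ ⟨false,0,⟨0,[]⟩,⟨1,[(23,0),(0,0),(20,0)]⟩⟩ ⟨true,0,⟨0,[(0,0)]⟩,
  ⟨0,[(18,0)]⟩⟩]⟩) (.Q [0,1,0,0,0,0,1,1,0,-1,1] (.p true [0,0,1] [1] (⟨0,[(33,0)]⟩,⟨0,[(32,0)]⟩) .k
  1 (⟨0,[]⟩,⟨0,[]⟩) .k .k) (.Q [0,0,0,0,0,0,-1,-1,0,0,-1] (.p false [0,0,1] [] (⟨0,[(34,0)]⟩,⟨0,
  [(33,0)]⟩) .k 0 (⟨0,[]⟩,⟨0,[]⟩) .k .k) (.R ⟨2,true,false,false,[0,1],[0,0,1],[0,1,1],(⟨0,[]⟩,⟨0,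
  []⟩),(⟨0,[(35,0)]⟩,⟨0,[(34,0)]⟩),⟨0,[]⟩,.k,.k,.k,.k,.k,.k,⟨false,0,⟨0,[(4,0)]⟩,⟨1,[(7,1),(38,0),
  (0,0)]⟩⟩,⟨true,0,⟨0,[(32,0)]⟩,⟨27,[(19,10),(2,2),(6,10),(12,4),(4,0),(1,1)]⟩⟩,⟨false,0,⟨0,[(45,
  0)]⟩,⟨11,[(12,1),(1,3),(5,1),(0,0),(0,0),(23,0),(0,5)]⟩⟩,⟨true,0,⟨0,[(1,0),(14,0),(30,0)]⟩,⟨0,
  [(13,0)]⟩⟩,⟨true,0,⟨0,[(49,0)]⟩,⟨0,[]⟩⟩,⟨false,1,⟨19,[(14,19),(2,9),(7,0),(0,0),(15,1),(4,4)]⟩,⟨0,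
  [(0,0)]⟩⟩,[]⟩) (.R ⟨2,true,false,false,[0,1],[0,1,1],[0,1,1],(⟨0,[]⟩,⟨0,[]⟩),(⟨0,[(35,0),(1,0)]⟩,
  ⟨0,[(23,0)]⟩),⟨0,[]⟩,.k,.k,.k,.k,.k,.k,⟨true,0,⟨19,[(4,19),(12,9),(7,0),(0,0),(15,1),(4,4)]⟩,⟨0,
  [(5,0),(41,0)]⟩⟩,⟨false,1,⟨0,[(32,0),(13,0)]⟩,⟨27,[(19,10),(2,2),(6,10),(12,4),(4,0),(1,1)]⟩⟩,
  ⟨false,0,⟨0,[(45,0)]⟩,⟨11,[(12,1),(1,3),(5,1),(0,0),(0,0),(23,0),(0,5)]⟩⟩,⟨true,0,⟨0,[(0,0)]⟩,⟨0,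
  [(31,0)]⟩⟩,⟨true,0,⟨0,[(49,0)]⟩,⟨0,[]⟩⟩,⟨false,1,⟨0,[(14,0)]⟩,⟨0,[(2,0),(13,3),(2,0),(22,0),(0,1),
  (3,2)]⟩⟩,[]⟩)) (.R ⟨2,true,false,false,[0,1],[1,1,-1],[0,0,1],(⟨0,[]⟩,⟨0,[]⟩),(⟨0,[(33,0),(2,0)]⟩,
  ⟨0,[(23,0)]⟩),⟨0,[]⟩,.k,.k,.k,.k,.k,.k,⟨true,0,⟨0,[(7,0)]⟩,⟨0,[(1,0)]⟩⟩,⟨false,0,⟨0,[(28,0)]⟩,⟨9,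
  [(24,0),(0,0),(5,9),(9,1),(3,4)]⟩⟩,⟨true,0,⟨0,[(44,0)]⟩,⟨0,[(43,0)]⟩⟩,⟨false,0,⟨0,[(0,0)]⟩,⟨28,
  [(13,21),(2,10),(7,1),(0,1),(3,6),(11,7),(6,3)]⟩⟩,⟨false,1,⟨1,[(24,0),(0,0),(20,0)]⟩,⟨0,[]⟩⟩,
  ⟨true,0,⟨4,[(0,2),(10,1),(1,0),(1,0),(3,0),(8,0)]⟩,⟨0,[(4,0),(10,3),(15,0),(9,0),(0,1),(3,2)]⟩⟩,
  []⟩))) (.S ⟨1,0,[0,0,0,-1,0,0,0,1],[0,0,1],[1,1,0,0,0,0,0,1],(⟨0,[(32,0)]⟩,⟨0,[(31,0)]⟩),⟨0,[(21,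
  0)]⟩,.k,.k,⟨false,0,⟨0,[]⟩,⟨1,[(22,0),(0,0),(20,0)]⟩⟩,⟨true,0,⟨0,[(42,0)]⟩,⟨0,[(41,0)]⟩⟩,⟨true,0,
  ⟨0,[(41,0)]⟩,⟨0,[(42,0)]⟩⟩,⟨false,1,⟨1,[(22,0),(0,0),(20,0)]⟩,⟨0,[]⟩⟩,[.e ⟨false,0,⟨1,[(0,0),(3,
  0),(33,0)]⟩,⟨0,[(1,0),(42,0)]⟩⟩ ⟨false,0,⟨21,[(0,19),(4,1),(8,9),(24,1),(3,0),(0,4)]⟩,⟨1,[(17,1),
  (25,0),(0,0)]⟩⟩,.o ⟨false,1,⟨2,[(0,1),(10,0),(2,1),(14,1),(9,0),(4,1)]⟩,⟨0,[(10,0)]⟩⟩,.o ⟨false,1,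
  ⟨9,[(22,0),(0,0),(5,9),(9,1),(3,4)]⟩,⟨27,[(16,10),(2,2),(6,10),(12,4),(4,0),(1,1)]⟩⟩,.a ⟨true,0,
  ⟨0,[(29,0)]⟩,⟨0,[(26,0)]⟩⟩ ⟨false,0,⟨0,[(0,0)]⟩,⟨1,[(1,1),(27,0),(0,0),(13,1)]⟩⟩ ⟨true,0,⟨21,[(0,
  19),(4,1),(8,9),(24,1),(3,0),(0,4)]⟩,⟨0,[(17,0)]⟩⟩]⟩)) (.I [0,-1,0,0,0,0,0,1] (.I [1,0,1,0,-1,0,0,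
  1] (.S ⟨1,0,[0,0,0,-1,0,0,0,-1],[1,0,-1],[1,1,1],(⟨0,[(32,0)]⟩,⟨0,[(33,0)]⟩),⟨0,[(21,0)]⟩,.k,.k,
  ⟨false,(-1),⟨0,[(0,0)]⟩,⟨19,[(15,9),(2,19),(4,0),(0,0),(15,1),(3,19),(0,24)]⟩⟩,⟨true,0,⟨0,[(43,
  0)]⟩,⟨0,[(42,0)]⟩⟩,⟨true,(-1),⟨0,[(3,0)]⟩,⟨0,[(10,0),(3,4),(15,0),(9,0),(0,1),(3,3)]⟩⟩,⟨false,1,
  ⟨1,[(23,0),(0,0),(20,0)]⟩,⟨0,[]⟩⟩,[.e ⟨false,0,⟨0,[(47,0)]⟩,⟨1,[(44,0),(0,0)]⟩⟩ ⟨false,1,⟨0,[(10,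
  0),(3,4),(15,0),(9,0),(0,1),(3,3)]⟩,⟨2,[(2,0),(0,0),(5,0),(17,0)]⟩⟩,.o ⟨false,1,⟨19,[(15,9),(7,0),
  (0,0),(4,19),(10,1),(4,24)]⟩,⟨13,[(0,4),(1,5),(12,0),(12,2),(1,10),(9,2),(0,15)]⟩⟩,.o ⟨false,0,
  ⟨27,[(17,10),(2,2),(6,10),(12,4),(4,0),(1,1)]⟩,⟨9,[(23,0),(0,0),(5,9),(9,1),(3,4)]⟩⟩,.a ⟨true,
  (-1),⟨0,[(17,0)]⟩,⟨0,[(30,0),(13,0)]⟩⟩ ⟨false,0,⟨0,[]⟩,⟨1,[(23,0),(0,0),(20,0)]⟩⟩ ⟨true,1,⟨0,[(10,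
  0),(3,4),(15,0),(9,0),(0,1),(3,3)]⟩,⟨0,[(3,0)]⟩⟩]⟩) (.S ⟨1,0,[0,0,0,-1,0,0,0,-1],[1,0,-1],[1,1,0,
  0,0,0,0,-1],(⟨0,[(32,0)]⟩,⟨0,[(33,0)]⟩),⟨0,[(21,0)]⟩,.k,.k,⟨false,0,⟨0,[]⟩,⟨1,[(23,0),(0,0),(20,
  0)]⟩⟩,⟨true,0,⟨0,[(43,0)]⟩,⟨0,[(42,0)]⟩⟩,⟨true,0,⟨0,[(42,0)]⟩,⟨0,[(43,0)]⟩⟩,⟨false,1,⟨1,[(23,0),
  (0,0),(20,0)]⟩,⟨0,[]⟩⟩,[.e ⟨false,1,⟨0,[(0,0),(46,0)]⟩,⟨0,[(1,0)]⟩⟩ ⟨false,1,⟨19,[(0,19),(14,9),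
  (7,0),(0,0),(15,1),(4,4)]⟩,⟨2,[(2,0),(0,0),(5,0),(17,0)]⟩⟩,.o ⟨false,1,⟨9,[(0,0),(14,4),(13,8),(1,
  0),(8,0),(4,11)]⟩,⟨14,[(2,10),(0,2),(10,4),(13,0),(1,13),(9,3),(0,16)]⟩⟩,.o ⟨false,0,⟨27,[(17,10),
  (2,2),(6,10),(12,4),(4,0),(1,1)]⟩,⟨13,[(0,2),(11,1),(2,0),(12,0),(1,10),(9,2),(3,3)]⟩⟩,.a ⟨true,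
  (-1),⟨0,[(17,0)]⟩,⟨0,[(30,0),(13,0)]⟩⟩ ⟨false,1,⟨0,[(0,0)]⟩,⟨1,[(2,1),(27,0),(0,0)]⟩⟩ ⟨true,1,⟨19,
  [(0,19),(14,9),(7,0),(0,0),(15,1),(4,4)]⟩,⟨0,[(3,0)]⟩⟩]⟩)) (.S ⟨1,0,[0,0,0,-1,0,0,0,1],[0,0,1],[1,
  1,0,0,0,0,0,1],(⟨0,[(32,0)]⟩,⟨0,[(31,0)]⟩),⟨0,[(21,0)]⟩,.k,.k,⟨false,0,⟨0,[]⟩,⟨1,[(22,0),(0,0),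
  (20,0)]⟩⟩,⟨true,0,⟨0,[(42,0)]⟩,⟨0,[(41,0)]⟩⟩,⟨true,0,⟨0,[(41,0)]⟩,⟨0,[(42,0)]⟩⟩,⟨false,1,⟨1,[(22,
  0),(0,0),(20,0)]⟩,⟨0,[]⟩⟩,[.e ⟨false,0,⟨0,[(1,0),(36,0)]⟩,⟨0,[(0,0),(43,0)]⟩⟩ ⟨false,0,⟨16,[(1,
  16),(12,9),(23,1),(0,1),(0,2),(2,5)]⟩,⟨1,[(17,1),(25,0),(0,0)]⟩⟩,.o ⟨false,1,⟨2,[(1,1),(9,0),(2,
  1),(14,1),(9,0),(3,0),(0,0)]⟩,⟨0,[(10,0)]⟩⟩,.o ⟨false,1,⟨9,[(22,0),(0,0),(5,9),(9,1),(3,4)]⟩,⟨27,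
  [(16,10),(2,2),(6,10),(12,4),(4,0),(1,1)]⟩⟩,.a ⟨true,0,⟨0,[(29,0)]⟩,⟨0,[(26,0)]⟩⟩ ⟨false,0,⟨16,
  [(1,16),(12,4),(23,0),(0,0),(0,9),(2,2)]⟩,⟨19,[(14,9),(2,19),(4,0),(0,0),(15,1),(4,24)]⟩⟩ ⟨true,0,
  ⟨16,[(1,16),(12,9),(23,1),(0,1),(0,2),(2,5)]⟩,⟨0,[(17,0)]⟩⟩]⟩)))))))) (.I [0,0,2,0,0,2,0,0,-1]
  (.I [1,1,2,1,-1,0,0,1] (.I [0,0,0,0,0,0,0,-1] (.I [1,0,0,-1,0,0,0,1] (.S ⟨1,0,[0,0,0,-1,0,0,0,1],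
  [0,0,1],[1,1,0,0,0,0,0,1],(⟨0,[(29,0)]⟩,⟨0,[(28,0)]⟩),⟨0,[(18,0)]⟩,.k,.k,⟨false,0,⟨0,[]⟩,⟨1,[(3,
  0),(0,0),(36,0)]⟩⟩,⟨true,0,⟨0,[(39,0)]⟩,⟨0,[(38,0)]⟩⟩,⟨true,0,⟨0,[(38,0)]⟩,⟨0,[(39,0)]⟩⟩,⟨false,1,
  ⟨1,[(3,0),(0,0),(36,0)]⟩,⟨0,[]⟩⟩,[.o ⟨false,1,⟨15,[(3,2),(0,2),(3,14),(2,13),(12,0),(11,5),(2,
  2)]⟩,⟨11,[(1,9),(4,1),(6,8),(9,0),(12,1),(0,7),(3,4)]⟩⟩,.e ⟨false,1,⟨29,[(0,9),(2,0),(0,0),(3,9),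
  (7,9),(7,9),(11,1),(3,14)]⟩,⟨0,[(1,0)]⟩⟩ ⟨false,1,⟨1,[(0,1),(39,0),(0,0)]⟩,⟨1,[(1,0),(12,0),(22,
  0)]⟩⟩,.o ⟨false,1,⟨9,[(3,0),(0,0),(21,9),(9,1),(3,4)]⟩,⟨27,[(13,10),(2,2),(6,10),(12,4),(4,0),(1,
  1)]⟩⟩,.a ⟨true,0,⟨0,[(26,0)]⟩,⟨0,[(23,0)]⟩⟩ ⟨true,0,⟨0,[(0,0),(36,0)]⟩,⟨1,[(1,1),(24,0),(0,0)]⟩⟩
  ⟨false,1,⟨1,[(0,1),(39,0),(0,0)]⟩,⟨2,[(1,1),(7,0),(4,0),(26,0)]⟩⟩]⟩) (.S ⟨1,0,[0,0,0,-1,0,0,0,1],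
  [0,0,1],[0,1,0,-1,0,0,0,1],(⟨0,[(29,0)]⟩,⟨0,[(28,0)]⟩),⟨0,[(18,0)]⟩,.k,.k,⟨false,0,⟨0,[(39,0)]⟩,
  ⟨11,[(6,1),(1,3),(5,1),(0,0),(0,0),(23,0),(0,5)]⟩⟩,⟨true,0,⟨0,[(39,0)]⟩,⟨0,[(38,0)]⟩⟩,⟨true,0,⟨0,
  [(43,0)]⟩,⟨0,[]⟩⟩,⟨false,1,⟨1,[(3,0),(0,0),(36,0)]⟩,⟨0,[]⟩⟩,[.o ⟨false,1,⟨15,[(3,2),(0,2),(3,14),
  (2,13),(12,0),(11,5),(2,2)]⟩,⟨5,[(0,5),(12,1),(2,0),(6,1),(12,0)]⟩⟩,.e ⟨false,1,⟨2,[(8,2),(2,2),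
  (4,0),(6,0),(12,0),(3,0)]⟩,⟨0,[(0,0)]⟩⟩ ⟨false,1,⟨0,[(8,0),(1,3),(2,0),(22,0),(0,1),(3,2)]⟩,⟨2,
  [(0,1),(13,0),(20,0)]⟩⟩,.o ⟨false,1,⟨9,[(3,0),(0,0),(21,9),(9,1),(3,4)]⟩,⟨27,[(13,10),(2,2),(6,
  10),(12,4),(4,0),(1,1)]⟩⟩,.a ⟨true,0,⟨0,[(26,0)]⟩,⟨0,[(23,0)]⟩⟩ ⟨true,0,⟨0,[(8,0),(1,3),(2,0),(22,
  0),(0,1),(3,1)]⟩,⟨2,[(1,1),(7,0),(4,0),(26,0)]⟩⟩ ⟨false,1,⟨0,[(8,0),(1,3),(2,0),(22,0),(0,1),(3,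
  2)]⟩,⟨2,[(1,1),(7,0),(4,0),(26,0)]⟩⟩]⟩)) (.I [1,-1,-2,-2,1] (.I [0,0,-2,0,1,-2,0,0,1] (.N [0,2,0,
  0,1] 1 ⟨0,[(10,0)]⟩ ⟨0,[(1,0)]⟩ (.x (-1) ⟨0,[(0,0)]⟩ ⟨0,[(4,0)]⟩)) (.I [0,0,2,2,0,0,0,-1] (.I [0,
  -1,-1,-2,1,0,0,-1] (.I [0,0,0,0,0,0,0,1] (.I [1,-1,-1,0,1,0,0,-1] (.S ⟨1,0,[0,1,0,-1,0,0,0,-1],[1,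
  0,-1],[1,0,0,0,0,0,0,-1],(⟨0,[(33,0)]⟩,⟨0,[(34,0)]⟩),⟨0,[(22,0)]⟩,.k,.k,⟨true,0,⟨0,[]⟩,⟨0,[(48,
  0)]⟩⟩,⟨false,0,⟨0,[(44,0)]⟩,⟨15,[(0,3),(2,1),(9,5),(6,2),(0,2),(24,2)]⟩⟩,⟨false,1,⟨15,[(0,3),(2,
  1),(9,5),(6,2),(0,2),(24,2)]⟩,⟨0,[(44,0)]⟩⟩,⟨true,0,⟨0,[(48,0)]⟩,⟨0,[]⟩⟩,[.e ⟨false,1,⟨3,[(0,0),
  (1,0),(16,1),(25,1)]⟩,⟨0,[(1,0)]⟩⟩ ⟨false,0,⟨6,[(0,5),(14,9),(3,0),(21,1),(0,1)]⟩,⟨2,[(6,0),(3,0),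
  (2,0),(7,0),(24,0)]⟩⟩,.o ⟨false,0,⟨3,[(0,1),(1,0),(8,0),(4,1),(1,2),(22,0)]⟩,⟨94,[(10,25),(2,40),
  (5,1),(1,0),(7,29),(10,1),(0,13),(6,4)]⟩⟩,.o ⟨false,0,⟨27,[(18,10),(2,2),(6,10),(12,4),(4,0),(1,
  1)]⟩,⟨6,[(2,1),(7,1),(20,4),(8,0),(0,0),(3,0)]⟩⟩,.a ⟨true,(-1),⟨0,[(18,0)]⟩,⟨0,[(31,0),(13,0)]⟩⟩
  ⟨false,1,⟨0,[(0,0)]⟩,⟨28,[(6,8),(0,8),(5,10),(2,9),(15,10),(8,1),(4,3)]⟩⟩ ⟨true,0,⟨6,[(0,5),(14,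
  9),(3,0),(21,1),(0,1)]⟩,⟨5,[(6,0),(0,2),(2,0),(2,0),(7,0),(24,0)]⟩⟩]⟩) (.I [0,0,-1,-1,0,0,0,1]
  (.S ⟨1,0,[0,0,0,-1,0,0,0,1],[0,0,1],[1,1,1],(⟨0,[(35,0)]⟩,⟨0,[(34,0)]⟩),⟨0,[(24,0)]⟩,.k,.k,⟨false,
  0,⟨0,[(3,0),(11,0)]⟩,⟨19,[(0,8),(5,0),(7,10),(7,0),(6,8),(12,1),(4,3)]⟩⟩,⟨true,0,⟨0,[(45,0)]⟩,⟨0,
  [(44,0)]⟩⟩,⟨true,0,⟨0,[(20,0)]⟩,⟨0,[(0,0)]⟩⟩,⟨false,1,⟨81,[(3,29),(0,9),(9,39),(7,14),(10,9),(8,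
  2),(4,5)]⟩,⟨0,[]⟩⟩,[.e ⟨false,0,⟨0,[(49,0)]⟩,⟨1,[(46,0),(0,0)]⟩⟩ ⟨false,0,⟨0,[(0,0)]⟩,⟨1,[(3,0),
  (8,0),(1,0),(5,0)]⟩⟩,.o ⟨false,1,⟨3,[(0,2),(13,0),(2,0),(14,2),(9,0),(4,1)]⟩,⟨0,[(13,0)]⟩⟩,.o
  ⟨false,1,⟨6,[(3,1),(7,1),(20,4),(8,0),(0,0),(3,0)]⟩,⟨39,[(0,3),(2,0),(8,2),(6,13),(2,6),(6,8),(12,
  5),(4,0)]⟩⟩,.a ⟨true,0,⟨0,[(32,0)]⟩,⟨0,[(29,0)]⟩⟩ ⟨false,0,⟨0,[]⟩,⟨81,[(3,29),(0,9),(9,39),(7,14),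
  (10,9),(8,2),(4,5)]⟩⟩ ⟨true,0,⟨0,[(0,0)]⟩,⟨0,[(20,0)]⟩⟩]⟩) (.I [0,-1,-1,-1,1,0,0,-1] (.R ⟨1,false,
  false,true,[1,0,-1],[0,1],[0,0,0,-1,0,0,0,-1],(⟨0,[(35,0)]⟩,⟨0,[(36,0)]⟩),(⟨0,[(41,0)]⟩,⟨0,[(40,
  0)]⟩),⟨0,[(24,0)]⟩,.k,.k,.k,.k,(.r (-1) ⟨12,[(0,12),(6,2),(10,4),(23,3),(0,0),(0,2)]⟩ ⟨4,[(5,0),
  (3,3),(5,1),(6,0),(0,0),(24,0)]⟩),.k,⟨true,1,⟨0,[(4,0)]⟩,⟨0,[(8,0),(7,0)]⟩⟩,⟨false,2,⟨16,[(0,16),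
  (11,6),(18,9),(10,1),(0,1),(0,2),(2,5)]⟩,⟨0,[(20,0)]⟩⟩,⟨true,0,⟨0,[(46,0)]⟩,⟨0,[(45,0)]⟩⟩,⟨false,
  1,⟨94,[(12,25),(2,40),(5,1),(1,0),(7,29),(10,1),(0,13),(6,4)]⟩,⟨0,[(0,0),(19,0)]⟩⟩,⟨false,1,⟨81,
  [(4,29),(0,9),(9,39),(7,14),(10,9),(8,2),(4,5)]⟩,⟨0,[]⟩⟩,⟨false,1,⟨0,[(12,0)]⟩,⟨0,[(4,0),(15,
  0)]⟩⟩,[.e ⟨false,1,⟨5,[(0,2),(3,1),(5,0),(0,0),(9,0),(20,1)]⟩,⟨0,[(2,0),(41,0),(3,0)]⟩⟩ ⟨false,1,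
  ⟨19,[(0,8),(11,4),(18,3),(1,10),(8,2),(0,2),(0,18)]⟩,⟨3,[(7,0),(10,0),(1,1),(2,0),(24,1)]⟩⟩,.o
  ⟨false,1,⟨9,[(10,2),(0,2),(10,4),(20,0)]⟩,⟨0,[(46,0)]⟩⟩,.o ⟨false,0,⟨27,[(20,10),(2,2),(6,10),(12,
  4),(4,0),(1,1)]⟩,⟨18,[(0,8),(11,3),(8,0),(9,5),(1,8),(8,0),(0,2)]⟩⟩,.a ⟨true,(-1),⟨0,[(20,0)]⟩,⟨0,
  [(33,0),(13,0)]⟩⟩ ⟨false,1,⟨0,[(0,0)]⟩,⟨5,[(8,0),(0,2),(2,0),(2,0),(7,0),(24,0)]⟩⟩ ⟨true,1,⟨19,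
  [(0,8),(11,4),(18,3),(1,10),(8,2),(0,2),(0,18)]⟩,⟨11,[(18,5),(1,10),(13,0),(8,0),(4,2)]⟩⟩]⟩) (.N
  [0,-1,1] 0 ⟨0,[(0,0),(6,0)]⟩ ⟨0,[(1,0)]⟩ .k)))) (.N [0,0,1] 0 ⟨0,[(5,0)]⟩ ⟨0,[(0,0)]⟩ .k)) (.S ⟨1,
  0,[0,0,0,-1,0,0,0,1],[0,0,1],[1,1,0,0,0,0,0,1],(⟨0,[(32,0)]⟩,⟨0,[(31,0)]⟩),⟨0,[(21,0)]⟩,.k,.k,
  ⟨false,0,⟨0,[]⟩,⟨1,[(6,0),(0,0),(36,0)]⟩⟩,⟨true,0,⟨0,[(42,0)]⟩,⟨0,[(41,0)]⟩⟩,⟨true,0,⟨0,[(41,0)]⟩,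
  ⟨0,[(42,0)]⟩⟩,⟨false,1,⟨1,[(6,0),(0,0),(36,0)]⟩,⟨0,[]⟩⟩,[.e ⟨false,0,⟨1,[(0,0),(2,0),(0,0),(33,
  0)]⟩,⟨0,[(1,0),(1,0)]⟩⟩ ⟨false,0,⟨11,[(0,9),(2,10),(0,1),(9,4),(24,0),(4,1)]⟩,⟨1,[(17,1),(25,0),
  (0,0)]⟩⟩,.o ⟨false,1,⟨3,[(0,1),(2,2),(0,1),(9,0),(14,3),(9,0),(4,1)]⟩,⟨0,[(10,0)]⟩⟩,.o ⟨false,1,
  ⟨14,[(3,1),(7,1),(5,1),(11,12),(8,0),(0,2),(3,4)]⟩,⟨27,[(16,10),(2,2),(6,10),(12,4),(4,0),(1,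
  1)]⟩⟩,.a ⟨true,0,⟨0,[(29,0)]⟩,⟨0,[(26,0)]⟩⟩ ⟨false,0,⟨0,[(0,0),(2,0)]⟩,⟨11,[(3,0),(10,4),(2,11),
  (11,0),(0,0),(8,0),(4,13)]⟩⟩ ⟨true,0,⟨11,[(0,9),(2,10),(0,1),(9,4),(24,0),(4,1)]⟩,⟨0,[(17,
  0)]⟩⟩]⟩)) (.S ⟨1,0,[0,0,0,-1,0,0,0,-1],[1,0,-1],[1,1,0,0,0,0,0,-1],(⟨0,[(30,0)]⟩,⟨0,[(31,0)]⟩),⟨0,
  [(19,0)]⟩,.k,.k,⟨false,0,⟨0,[]⟩,⟨1,[(5,0),(0,0),(36,0)]⟩⟩,⟨true,0,⟨0,[(41,0)]⟩,⟨0,[(40,0)]⟩⟩,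
  ⟨true,0,⟨0,[(40,0)]⟩,⟨0,[(41,0)]⟩⟩,⟨false,1,⟨1,[(5,0),(0,0),(36,0)]⟩,⟨0,[]⟩⟩,[.e ⟨false,1,⟨7,[(2,
  3),(2,0),(0,0),(9,7),(20,1),(4,2)]⟩,⟨0,[(0,0),(10,0),(31,0)]⟩⟩ ⟨false,1,⟨0,[(2,0),(13,0)]⟩,⟨4,[(0,
  1),(6,2),(3,0),(3,2),(23,0),(3,0)]⟩⟩,.o ⟨false,1,⟨10,[(2,0),(10,4),(2,0),(10,9),(1,0),(8,0),(4,
  12)]⟩,⟨18,[(0,14),(6,3),(3,13),(16,14),(9,2),(0,12),(3,3)]⟩⟩,.o ⟨false,0,⟨68,[(0,10),(7,10),(6,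
  21),(2,17),(19,7),(4,5),(1,0)]⟩,⟨14,[(2,1),(7,1),(5,1),(11,12),(8,0),(0,2),(3,4)]⟩⟩,.a ⟨true,(-1),
  ⟨0,[(15,0)]⟩,⟨0,[(28,0),(13,0)]⟩⟩ ⟨false,1,⟨0,[(2,0),(5,0),(19,0)]⟩,⟨21,[(0,9),(3,11),(6,3),(3,4),
  (12,4),(9,0),(4,18)]⟩⟩ ⟨true,1,⟨0,[(2,0),(13,0)]⟩,⟨1,[(0,0),(2,0),(7,1)]⟩⟩]⟩))) (.I [0,0,0,0,0,0,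
  0,1] (.I [0,1,1,0,-1,0,0,1] (.I [1,1,1,1,-1,0,0,1] (.I [1,1,0,0,0,0,0,-1] (.I [0,0,1,0,0,0,0,-1]
  (.I [0,0,-1,-1,0,0,0,1] (.S ⟨1,0,[0,0,0,-1,0,0,0,1],[0,0,1],[1,1,1],(⟨0,[(35,0)]⟩,⟨0,[(34,0)]⟩),
  ⟨0,[(24,0)]⟩,.k,.k,⟨false,0,⟨0,[(1,0)]⟩,⟨11,[(0,5),(13,5),(7,0),(6,3),(12,0),(3,0),(0,2)]⟩⟩,⟨true,
  0,⟨0,[(45,0)]⟩,⟨0,[(44,0)]⟩⟩,⟨true,0,⟨0,[(20,0)]⟩,⟨0,[(0,0)]⟩⟩,⟨false,1,⟨1,[(9,0),(0,0),(36,0)]⟩,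
  ⟨0,[]⟩⟩,[.e ⟨false,0,⟨0,[(49,0)]⟩,⟨1,[(46,0),(0,0)]⟩⟩ ⟨false,0,⟨0,[(0,0)]⟩,⟨1,[(20,1),(25,0),(0,
  0)]⟩⟩,.o ⟨false,1,⟨3,[(0,2),(13,0),(2,0),(14,2),(9,0),(4,1)]⟩,⟨0,[(13,0)]⟩⟩,.o ⟨false,1,⟨9,[(9,0),
  (0,0),(21,9),(9,1),(3,4)]⟩,⟨31,[(0,1),(11,1),(6,10),(2,4),(6,8),(12,4),(2,1),(1,0)]⟩⟩,.a ⟨true,0,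
  ⟨0,[(32,0)]⟩,⟨0,[(29,0)]⟩⟩ ⟨false,0,⟨0,[]⟩,⟨1,[(9,0),(0,0),(36,0)]⟩⟩ ⟨true,0,⟨0,[(0,0)]⟩,⟨0,[(20,
  0)]⟩⟩]⟩) (.Q [0,1,0,0,0,0,1,1,0,-1,1] (.p true [0,0,1] [1] (⟨0,[(35,0)]⟩,⟨0,[(34,0)]⟩) .k 1 (⟨0,
  []⟩,⟨0,[]⟩) .k .k) (.Q [0,0,0,0,0,0,-1,-1,0,0,-1] (.p false [0,0,1] [] (⟨0,[(36,0)]⟩,⟨0,[(35,
  0)]⟩) .k 0 (⟨0,[]⟩,⟨0,[]⟩) .k .k) (.R ⟨2,true,false,false,[0,1],[0,0,1],[1,1,1,1],(⟨0,[]⟩,⟨0,[]⟩),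
  (⟨0,[(37,0)]⟩,⟨0,[(36,0)]⟩),⟨0,[]⟩,.k,.k,.k,.k,.k,.k,⟨false,0,⟨1,[(2,0),(1,0),(40,0)]⟩,⟨25,[(9,
  23),(6,1),(2,13),(4,0),(19,2),(3,12),(0,18)]⟩⟩,⟨true,0,⟨0,[(34,0)]⟩,⟨19,[(0,1),(5,1),(14,4),(2,2),
  (6,6),(12,2),(4,0)]⟩⟩,⟨false,0,⟨0,[]⟩,⟨1,[(11,0),(0,0),(36,0)]⟩⟩,⟨true,0,⟨0,[(1,0),(16,0),(30,
  0)]⟩,⟨0,[(15,0)]⟩⟩,⟨true,0,⟨0,[(46,0)]⟩,⟨0,[(47,0)]⟩⟩,⟨false,1,⟨19,[(11,0),(0,0),(3,19),(2,9),(24,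
  1),(4,4)]⟩,⟨0,[(0,0)]⟩⟩,[]⟩) (.R ⟨2,true,false,false,[0,1],[0,1,1],[1,1,1,1],(⟨0,[]⟩,⟨0,[]⟩),(⟨0,
  [(37,0),(1,0)]⟩,⟨0,[(25,0)]⟩),⟨0,[]⟩,.k,.k,.k,.k,.k,.k,⟨true,0,⟨0,[(4,0)]⟩,⟨0,[(6,0),(42,0)]⟩⟩,
  ⟨false,1,⟨0,[(34,0),(13,0)]⟩,⟨27,[(21,10),(2,2),(6,10),(12,4),(4,0),(1,1)]⟩⟩,⟨false,0,⟨0,[]⟩,⟨1,
  [(11,0),(0,0),(36,0)]⟩⟩,⟨true,0,⟨0,[(0,0)]⟩,⟨0,[(33,0)]⟩⟩,⟨true,0,⟨0,[(46,0)]⟩,⟨0,[(47,0)]⟩⟩,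
  ⟨false,1,⟨0,[(16,0)]⟩,⟨0,[(2,0),(15,3),(2,0),(22,0),(0,1),(3,2)]⟩⟩,[]⟩)) (.R ⟨2,true,false,false,
  [0,1],[1,1,-1],[1,0,1,1],(⟨0,[]⟩,⟨0,[]⟩),(⟨0,[(35,0),(2,0)]⟩,⟨0,[(25,0)]⟩),⟨0,[]⟩,.k,.k,.k,.k,.k,
  .k,⟨true,0,⟨0,[(8,0)]⟩,⟨0,[(2,0)]⟩⟩,⟨false,0,⟨0,[(30,0)]⟩,⟨9,[(10,0),(0,0),(21,9),(9,1),(3,4)]⟩⟩,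
  ⟨true,0,⟨0,[]⟩,⟨0,[(50,0)]⟩⟩,⟨false,0,⟨0,[(0,0)]⟩,⟨7,[(10,0),(0,0),(3,4),(2,1),(12,2),(11,1),(2,
  0)]⟩⟩,⟨false,1,⟨11,[(13,1),(1,3),(5,1),(0,0),(0,0),(23,0),(0,5)]⟩,⟨0,[(46,0)]⟩⟩,⟨true,0,⟨4,[(0,2),
  (12,1),(1,0),(1,0),(3,0),(8,0)]⟩,⟨0,[(4,0),(12,3),(15,0),(9,0),(0,1),(3,2)]⟩⟩,[]⟩))) (.S ⟨1,0,[0,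
  0,0,-1,0,0,0,1],[0,0,1],[1,1,0,0,0,0,0,1],(⟨0,[(34,0)]⟩,⟨0,[(33,0)]⟩),⟨0,[(23,0)]⟩,.k,.k,⟨false,0,
  ⟨0,[]⟩,⟨1,[(8,0),(0,0),(36,0)]⟩⟩,⟨true,0,⟨0,[(44,0)]⟩,⟨0,[(43,0)]⟩⟩,⟨true,0,⟨0,[(43,0)]⟩,⟨0,[(44,
  0)]⟩⟩,⟨false,1,⟨1,[(8,0),(0,0),(36,0)]⟩,⟨0,[]⟩⟩,[.e ⟨false,0,⟨1,[(0,0),(5,0),(33,0)]⟩,⟨0,[(1,0),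
  (44,0)]⟩⟩ ⟨false,0,⟨19,[(0,17),(5,1),(9,9),(24,1),(3,0),(0,4)]⟩,⟨1,[(19,1),(25,0),(0,0)]⟩⟩,.o
  ⟨false,1,⟨2,[(0,1),(12,0),(2,1),(14,1),(9,0),(4,1)]⟩,⟨0,[(12,0)]⟩⟩,.o ⟨false,1,⟨9,[(8,0),(0,0),
  (21,9),(9,1),(3,4)]⟩,⟨27,[(18,10),(2,2),(6,10),(12,4),(4,0),(1,1)]⟩⟩,.a ⟨true,0,⟨0,[(31,0)]⟩,⟨0,
  [(28,0)]⟩⟩ ⟨false,0,⟨0,[(0,0)]⟩,⟨19,[(8,0),(0,0),(6,9),(2,19),(21,1),(4,24)]⟩⟩ ⟨true,0,⟨19,[(0,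
  17),(5,1),(9,9),(24,1),(3,0),(0,4)]⟩,⟨0,[(19,0)]⟩⟩]⟩)) (.I [1,1,-1,-1,1,0,0,-2] (.S ⟨1,0,[0,0,0,
  -1,0,0,0,-1],[1,0,-1],[1,1,0,0,0,0,0,-1],(⟨0,[(33,0)]⟩,⟨0,[(34,0)]⟩),⟨0,[(22,0)]⟩,.k,.k,⟨false,0,
  ⟨0,[]⟩,⟨52,[(0,9),(12,19),(2,4),(4,4),(10,9),(8,1),(4,23)]⟩⟩,⟨true,0,⟨0,[(44,0)]⟩,⟨0,[(43,0)]⟩⟩,
  ⟨true,0,⟨0,[(43,0)]⟩,⟨0,[(44,0)]⟩⟩,⟨false,1,⟨52,[(0,9),(12,19),(2,4),(4,4),(10,9),(8,1),(4,23)]⟩,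
  ⟨0,[]⟩⟩,[.e ⟨false,1,⟨43,[(0,26),(9,4),(0,3),(1,8),(7,4),(18,10),(4,2)]⟩,⟨0,[(1,0)]⟩⟩ ⟨false,1,
  ⟨93,[(0,47),(12,1),(2,23),(4,0),(19,4),(3,22),(0,34)]⟩,⟨2,[(1,0),(0,0),(7,0),(17,0)]⟩⟩,.o ⟨false,
  1,⟨23,[(0,11),(15,5),(1,12),(2,4),(6,0),(12,4),(4,20)]⟩,⟨14,[(1,10),(0,2),(12,4),(13,0),(1,13),(9,
  3),(0,16)]⟩⟩,.o ⟨false,0,⟨18,[(1,0),(9,0),(6,5),(2,2),(6,5),(12,2),(2,1)]⟩,⟨28,[(0,2),(12,4),(2,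
  0),(12,0),(1,22),(9,5),(3,9)]⟩⟩,.a ⟨true,(-1),⟨0,[(18,0)]⟩,⟨0,[(31,0),(13,0)]⟩⟩ ⟨false,1,⟨1,[(0,
  0),(41,0),(3,0)]⟩,⟨0,[(3,0),(42,0)]⟩⟩ ⟨true,1,⟨93,[(0,47),(12,1),(2,23),(4,0),(19,4),(3,22),(0,
  34)]⟩,⟨0,[(2,0)]⟩⟩]⟩) (.S ⟨1,0,[0,0,0,-1,0,0,0,-1],[1,0,-1],[0,1,0,-1,0,0,0,-1],(⟨0,[(33,0)]⟩,⟨0,
  [(34,0)]⟩),⟨0,[(22,0)]⟩,.k,.k,⟨false,0,⟨0,[(44,0)]⟩,⟨11,[(11,1),(1,3),(5,1),(0,0),(0,0),(23,0),(0,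
  5)]⟩⟩,⟨true,0,⟨0,[(44,0)]⟩,⟨0,[(43,0)]⟩⟩,⟨true,0,⟨0,[(48,0)]⟩,⟨0,[]⟩⟩,⟨false,1,⟨1,[(8,0),(0,0),
  (36,0)]⟩,⟨0,[]⟩⟩,[.e ⟨false,1,⟨9,[(8,0),(0,0),(6,9),(2,9),(21,1),(3,9),(0,4)]⟩,⟨1,[(0,0),(41,0),
  (3,0)]⟩⟩ ⟨false,1,⟨0,[(11,0),(3,4),(15,0),(9,0),(0,1),(3,3)]⟩,⟨14,[(0,3),(1,0),(7,4),(10,0),(6,3),
  (0,0),(10,0)]⟩⟩,.o ⟨false,1,⟨19,[(8,0),(0,0),(6,9),(13,19),(10,1),(4,24)]⟩,⟨33,[(0,12),(15,5),(12,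
  7),(1,25),(9,7),(0,32),(2,2)]⟩⟩,.o ⟨false,0,⟨18,[(1,0),(9,0),(6,5),(2,2),(6,5),(12,2),(2,1)]⟩,⟨9,
  [(8,0),(0,0),(21,9),(9,1),(3,4)]⟩⟩,.a ⟨true,(-1),⟨0,[(18,0)]⟩,⟨0,[(31,0),(13,0)]⟩⟩ ⟨false,1,⟨0,
  [(11,0),(3,4),(15,0),(9,0),(0,1),(3,3)]⟩,⟨10,[(0,3),(12,2),(0,1),(17,2),(13,2)]⟩⟩ ⟨true,1,⟨0,[(11,
  0),(3,4),(15,0),(9,0),(0,1),(3,3)]⟩,⟨0,[(2,0)]⟩⟩]⟩))) (.R ⟨1,false,false,true,[1,0,-1],[0,1],[0,0,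
  0,-1,0,0,0,-1],(⟨0,[(31,0)]⟩,⟨0,[(32,0)]⟩),(⟨0,[(37,0)]⟩,⟨0,[(36,0)]⟩),⟨0,[(20,0)]⟩,.k,.k,.k,.k,
  (.r (-1) ⟨16,[(0,16),(13,9),(23,1),(0,1),(0,2),(2,5)]⟩ ⟨31,[(5,9),(5,21),(0,15),(6,4),(10,11),(8,
  0),(4,1)]⟩),.k,⟨true,1,⟨19,[(0,19),(5,0),(0,0),(6,9),(24,1),(4,4)]⟩,⟨1,[(1,0),(6,0),(3,0),(3,
  0)]⟩⟩,⟨false,2,⟨6,[(0,3),(7,1),(18,1),(1,2),(8,0),(0,0),(3,5)]⟩,⟨0,[(16,0)]⟩⟩,⟨true,0,⟨0,[(42,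
  0)]⟩,⟨0,[(41,0)]⟩⟩,⟨false,1,⟨94,[(8,25),(2,40),(5,1),(1,0),(7,29),(10,1),(0,13),(6,4)]⟩,⟨0,[(0,0),
  (15,0)]⟩⟩,⟨false,1,⟨1,[(6,0),(0,0),(36,0)]⟩,⟨0,[]⟩⟩,⟨false,1,⟨0,[(8,0)]⟩,⟨11,[(0,11),(13,5),(1,
  10),(13,0),(8,0),(4,2)]⟩⟩,[.e ⟨false,1,⟨0,[(0,0),(45,0)]⟩,⟨0,[(1,0),(38,0),(3,0)]⟩⟩ ⟨false,1,⟨5,
  [(0,0),(7,0),(20,4),(8,0),(0,0),(0,4),(2,1)]⟩,⟨11,[(14,5),(1,4),(2,0),(6,4),(12,0),(4,8)]⟩⟩,.o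
  ⟨false,1,⟨21,[(11,5),(5,5),(0,4),(0,2),(19,3),(3,2)]⟩,⟨0,[(42,0)]⟩⟩,.o ⟨false,0,⟨27,[(16,10),(2,
  2),(6,10),(12,4),(4,0),(1,1)]⟩,⟨18,[(0,8),(7,3),(8,0),(9,5),(1,8),(8,0),(0,2)]⟩⟩,.a ⟨true,(-1),⟨0,
  [(16,0)]⟩,⟨0,[(29,0),(13,0)]⟩⟩ ⟨false,1,⟨0,[(0,0)]⟩,⟨5,[(4,0),(0,2),(2,0),(2,0),(7,0),(24,0)]⟩⟩
  ⟨true,1,⟨5,[(0,0),(7,0),(20,4),(8,0),(0,0),(0,4),(2,1)]⟩,⟨11,[(14,5),(1,10),(13,0),(8,0),(4,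
  2)]⟩⟩]⟩)) (.S ⟨1,0,[0,1,0,-1,0,0,0,-1],[1,0,-1],[1,0,0,0,0,0,0,-1],(⟨0,[(30,0)]⟩,⟨0,[(31,0)]⟩),⟨0,
  [(19,0)]⟩,.k,.k,⟨true,0,⟨0,[]⟩,⟨0,[(45,0)]⟩⟩,⟨false,0,⟨0,[(41,0)]⟩,⟨7,[(0,0),(7,0),(1,2),(5,0),(0,
  0),(0,0),(24,2)]⟩⟩,⟨false,1,⟨7,[(0,0),(7,0),(1,2),(5,0),(0,0),(0,0),(24,2)]⟩,⟨0,[(41,0)]⟩⟩,⟨true,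
  0,⟨0,[(45,0)]⟩,⟨0,[]⟩⟩,[.e ⟨false,1,⟨64,[(0,54),(4,12),(0,12),(6,4),(2,9),(20,19),(0,0)]⟩,⟨0,[(1,
  0)]⟩⟩ ⟨false,0,⟨6,[(0,5),(11,9),(3,0),(21,1),(0,1)]⟩,⟨2,[(3,0),(3,0),(2,0),(7,0),(24,0)]⟩⟩,.o
  ⟨false,0,⟨7,[(0,5),(7,0),(4,3),(1,5),(11,0),(10,1),(2,1)]⟩,⟨94,[(7,25),(2,40),(5,1),(1,0),(7,29),
  (10,1),(0,13),(6,4)]⟩⟩,.o ⟨false,0,⟨27,[(15,10),(2,2),(6,10),(12,4),(4,0),(1,1)]⟩,⟨9,[(0,3),(4,0),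
  (0,0),(19,3),(1,5),(9,1),(3,0)]⟩⟩,.a ⟨true,(-1),⟨0,[(15,0)]⟩,⟨0,[(0,0),(25,0)]⟩⟩ ⟨false,1,⟨0,[(0,
  0)]⟩,⟨28,[(3,8),(0,8),(5,10),(2,9),(15,10),(8,1),(4,3)]⟩⟩ ⟨true,0,⟨6,[(0,5),(11,9),(3,0),(21,1),
  (0,1)]⟩,⟨5,[(3,0),(0,2),(2,0),(2,0),(7,0),(24,0)]⟩⟩]⟩)) (.N [0,0,1] 0 ⟨0,[(2,0)]⟩ ⟨0,[(0,0)]⟩
  .k)))) (.S ⟨1,0,[0,0,0,-1,0,0,0,1],[0,0,1],[0,1,0,-1,0,0,0,1],(⟨0,[(27,0)]⟩,⟨0,[(26,0)]⟩),⟨0,[(16,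
  0)]⟩,.k,.k,⟨false,0,⟨0,[(37,0)]⟩,⟨11,[(4,1),(1,3),(5,1),(0,0),(0,0),(23,0),(0,5)]⟩⟩,⟨true,0,⟨0,
  [(37,0)]⟩,⟨0,[(36,0)]⟩⟩,⟨true,0,⟨0,[(41,0)]⟩,⟨0,[]⟩⟩,⟨false,1,⟨1,[(1,0),(0,0),(36,0)]⟩,⟨0,[]⟩⟩,
  [.o ⟨false,1,⟨15,[(1,2),(0,2),(3,14),(2,13),(12,0),(11,5),(2,2)]⟩,⟨7,[(0,4),(3,2),(2,2),(3,4),(22,
  0),(0,0),(3,0)]⟩⟩,.e ⟨false,1,⟨2,[(6,2),(2,2),(4,0),(6,0),(12,0),(3,0)]⟩,⟨0,[(0,0),(6,0)]⟩⟩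
  ⟨false,1,⟨1,[(0,2),(5,4),(1,4),(2,4),(22,1),(0,0)]⟩,⟨29,[(0,12),(6,9),(0,4),(3,16),(21,0),(0,
  10)]⟩⟩,.o ⟨false,1,⟨29,[(0,9),(0,2),(0,2),(3,4),(5,4),(9,9),(1,14),(9,5)]⟩,⟨27,[(11,10),(2,2),(6,
  10),(12,4),(4,0),(1,1)]⟩⟩,.a ⟨true,0,⟨0,[(24,0)]⟩,⟨0,[(21,0)]⟩⟩ ⟨true,0,⟨0,[(0,0),(5,1),(1,2),(2,
  1),(22,0),(0,0)]⟩,⟨2,[(0,1),(6,0),(2,1),(1,0),(26,0)]⟩⟩ ⟨false,1,⟨1,[(0,2),(5,4),(1,4),(2,4),(22,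
  1),(0,0)]⟩,⟨2,[(0,1),(6,0),(2,1),(1,0),(26,0)]⟩⟩]⟩)) (.I [1,-1,0,1,0,0,0,1] (.S ⟨1,0,[0,0,0,-1,0,
  0,0,-1],[1,0,-1],[0,1,0,-1,0,0,0,-1],(⟨0,[(26,0)]⟩,⟨0,[(27,0)]⟩),⟨0,[(15,0)]⟩,.k,.k,⟨false,0,⟨0,
  [(37,0)]⟩,⟨11,[(4,1),(1,3),(5,1),(0,0),(0,0),(23,0),(0,5)]⟩⟩,⟨true,0,⟨0,[(37,0)]⟩,⟨0,[(36,0)]⟩⟩,
  ⟨true,0,⟨0,[(41,0)]⟩,⟨0,[]⟩⟩,⟨false,1,⟨1,[(17,0),(0,0),(20,0)]⟩,⟨0,[]⟩⟩,[.e ⟨false,1,⟨9,[(9,9),(2,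
  9),(4,0),(0,0),(15,1),(3,9),(0,4)]⟩,⟨0,[(0,0)]⟩⟩ ⟨false,1,⟨0,[(4,0),(3,4),(15,0),(9,0),(0,1),(3,
  3)]⟩,⟨53,[(0,37),(2,2),(3,4),(6,7),(7,12),(10,9),(0,0)]⟩⟩,.o ⟨false,1,⟨19,[(9,9),(7,0),(0,0),(4,
  19),(10,1),(4,24)]⟩,⟨24,[(0,17),(6,0),(0,14),(13,6),(1,17),(9,7),(0,19)]⟩⟩,.o ⟨false,0,⟨27,[(11,
  10),(2,2),(6,10),(12,4),(4,0),(1,1)]⟩,⟨9,[(17,0),(0,0),(5,9),(9,1),(3,4)]⟩⟩,.a ⟨true,(-1),⟨0,[(11,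
  0)]⟩,⟨0,[(24,0),(13,0)]⟩⟩ ⟨false,1,⟨0,[(4,0),(3,4),(15,0),(9,0),(0,1),(3,3)]⟩,⟨6,[(0,3),(5,2),(4,
  4),(12,1),(9,0)]⟩⟩ ⟨true,1,⟨0,[(4,0),(3,4),(15,0),(9,0),(0,1),(3,3)]⟩,⟨37,[(0,33),(6,22),(1,20),
  (1,3),(10,3),(10,11),(0,4)]⟩⟩]⟩) (.I [1,-1,-2,-2,1] (.I [0,0,-2,0,0,-2,0,0,1] (.N [0,2,0,0,1] 1
  ⟨0,[(9,0)]⟩ ⟨0,[(1,0)]⟩ (.x 0 ⟨0,[(0,0)]⟩ ⟨0,[(19,0),(2,0),(3,0),(0,0),(3,1)]⟩)) (.I [0,1,0,0,0,0,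
  0,-1] (.I [1,0,0,0,0,0,0,1] (.I [0,0,-2,-1,1,0,0,-1] (.Q [0,0,0,-1,0,0,1,1,0,0,1] (.p true [0,0,
  1] [] (⟨0,[(32,0)]⟩,⟨0,[(31,0)]⟩) .k 0 (⟨0,[]⟩,⟨0,[]⟩) .k .k) (.Q [0,0,0,0,0,0,-1,-1,0,0,-1] (.p
  false [0,0,1] [] (⟨0,[(33,0)]⟩,⟨0,[(32,0)]⟩) .k 0 (⟨0,[]⟩,⟨0,[]⟩) .k .k) (.R ⟨2,true,false,false,
  [0,1],[0,0,1],[0,1,1],(⟨0,[]⟩,⟨0,[]⟩),(⟨0,[(34,0)]⟩,⟨0,[(33,0)]⟩),⟨0,[]⟩,.k,.k,.k,.k,.k,.k,⟨false,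
  0,⟨0,[(4,0)]⟩,⟨2,[(3,1),(2,0),(3,0),(17,0),(17,0)]⟩⟩,⟨true,0,⟨0,[(31,0)]⟩,⟨27,[(18,10),(2,2),(6,
  10),(12,4),(4,0),(1,1)]⟩⟩,⟨false,0,⟨0,[(44,0)]⟩,⟨31,[(2,1),(8,5),(1,11),(5,3),(0,2),(0,2),(24,
  14)]⟩⟩,⟨true,0,⟨0,[(1,0)]⟩,⟨0,[(12,0)]⟩⟩,⟨true,0,⟨0,[(48,0)]⟩,⟨0,[]⟩⟩,⟨false,1,⟨3,[(1,0),(4,0),(6,
  2),(17,0),(0,0)]⟩,⟨0,[(0,0)]⟩⟩,[]⟩) (.Q [0,-1,0,-1,0,0,-1,-1,0,1,-1] (.p false [0,0,1] [1] (⟨0,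
  [(34,0)]⟩,⟨0,[(33,0)]⟩) .k 1 (⟨0,[]⟩,⟨0,[]⟩) .k .k) (.R ⟨2,true,false,false,[0,1],[1,0,-1],[0,0,
  1],(⟨0,[]⟩,⟨0,[]⟩),(⟨0,[(34,0)]⟩,⟨0,[(35,0)]⟩),⟨0,[]⟩,.k,.k,.k,.k,.k,.k,⟨false,0,⟨0,[(1,0),(13,1),
  (0,8),(2,0),(22,1),(0,4),(3,7)]⟩,⟨31,[(3,21),(8,1),(1,3),(5,11),(0,0),(0,0),(24,4)]⟩⟩,⟨true,(-1),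
  ⟨0,[(19,0)]⟩,⟨24,[(3,7),(4,0),(5,6),(5,1),(9,3),(1,13),(9,4)]⟩⟩,⟨true,0,⟨0,[(45,0)]⟩,⟨0,[(44,
  0)]⟩⟩,⟨false,0,⟨0,[(0,0)]⟩,⟨94,[(11,25),(2,40),(5,1),(1,0),(7,29),(10,1),(0,13),(6,4)]⟩⟩,⟨false,1,
  ⟨1,[(25,0),(0,0),(20,0)]⟩,⟨0,[]⟩⟩,⟨true,0,⟨1,[(0,0),(19,0),(8,0)]⟩,⟨6,[(1,5),(13,0),(0,1),(0,0),
  (12,0),(11,1),(0,1)]⟩⟩,[]⟩) (.S ⟨1,0,[0,0,0,-1,0,0,0,1],[0,0,1],[0,1,0,-1,0,0,0,1],(⟨0,[(35,0)]⟩,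
  ⟨0,[(34,0)]⟩),⟨0,[(24,0)]⟩,.k,.k,⟨false,0,⟨0,[(45,0)]⟩,⟨31,[(3,1),(8,5),(1,11),(5,3),(0,2),(0,2),
  (24,14)]⟩⟩,⟨true,0,⟨0,[(45,0)]⟩,⟨0,[(44,0)]⟩⟩,⟨true,0,⟨0,[(49,0)]⟩,⟨0,[]⟩⟩,⟨false,1,⟨1,[(25,0),(0,
  0),(20,0)]⟩,⟨0,[]⟩⟩,[.e ⟨false,0,⟨12,[(0,2),(3,9),(2,2),(9,4),(11,2),(11,3),(0,0)]⟩,⟨0,[(3,0),(11,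
  0),(31,0)]⟩⟩ ⟨false,0,⟨0,[(0,0),(6,0),(11,0)]⟩,⟨15,[(3,5),(8,1),(1,3),(5,11),(0,0),(0,0),(24,
  4)]⟩⟩,.o ⟨false,1,⟨9,[(2,8),(4,0),(6,0),(17,0),(0,0),(8,1),(4,3)]⟩,⟨0,[(13,0)]⟩⟩,.o ⟨false,1,⟨24,
  [(3,7),(4,0),(5,6),(5,1),(9,3),(1,13),(9,4)]⟩,⟨27,[(19,10),(2,2),(6,10),(12,4),(4,0),(1,1)]⟩⟩,.a
  ⟨true,0,⟨0,[(32,0)]⟩,⟨0,[(29,0)]⟩⟩ ⟨false,0,⟨0,[(0,0),(6,0),(11,0)]⟩,⟨0,[(20,0),(26,0)]⟩⟩ ⟨true,0,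
  ⟨0,[(0,0),(6,0),(11,0)]⟩,⟨0,[(20,0)]⟩⟩]⟩))) (.Q [0,0,0,-2,0,0,1,1,0,0,1] (.p true [0,0,1] [] (⟨0,
  [(33,0)]⟩,⟨0,[(32,0)]⟩) .k 0 (⟨0,[]⟩,⟨0,[]⟩) .k .k) (.R ⟨1,false,false,false,[0,0,1],[0,1],[0,1],
  (⟨0,[(34,0)]⟩,⟨0,[(33,0)]⟩),(⟨0,[(39,0)]⟩,⟨0,[(38,0)]⟩),⟨0,[(23,0)]⟩,.k,.k,.k,.k,(.r (-1) ⟨17,[(0,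
  1),(2,7),(2,15),(14,4),(7,7),(10,3),(0,0)]⟩ ⟨1,[(1,0),(12,0),(4,0),(11,0),(14,0)]⟩),.k,⟨true,0,
  ⟨12,[(6,2),(9,4),(23,3),(0,0),(0,2)]⟩,⟨0,[(17,0),(28,0)]⟩⟩,⟨false,1,⟨5,[(21,0),(6,3),(12,0),(3,
  3)]⟩,⟨0,[(31,0)]⟩⟩,⟨true,0,⟨0,[(4,0)]⟩,⟨0,[(3,0)]⟩⟩,⟨true,0,⟨0,[(1,0)]⟩,⟨1,[(0,0),(28,0),(18,
  0)]⟩⟩,⟨true,0,⟨1,[(1,0),(2,0),(26,0),(10,0)]⟩,⟨15,[(0,5),(2,9),(2,0),(9,0),(1,1),(2,1),(19,0)]⟩⟩,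
  ⟨false,1,⟨0,[(11,0),(34,0)]⟩,⟨0,[(0,0)]⟩⟩,[.o ⟨false,1,⟨147,[(2,11),(10,41),(5,29),(0,43),(0,20),
  (18,5),(0,24)]⟩,⟨0,[(44,0)]⟩⟩,.e ⟨false,1,⟨24,[(2,9),(10,9),(7,4),(2,2),(0,2),(14,4),(0,0)]⟩,⟨0,
  []⟩⟩ ⟨false,1,⟨8,[(1,3),(1,2),(6,0),(17,5),(12,0),(0,2),(3,5)]⟩,⟨22,[(2,5),(1,1),(11,9),(12,7),(1,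
  14),(9,1),(0,2)]⟩⟩,.o ⟨false,1,⟨24,[(2,7),(4,0),(5,6),(5,1),(9,3),(1,13),(9,4)]⟩,⟨27,[(18,10),(2,
  2),(6,10),(12,4),(4,0),(1,1)]⟩⟩,.a ⟨true,0,⟨0,[(31,0)]⟩,⟨0,[(28,0)]⟩⟩ ⟨true,0,⟨25,[(6,2),(9,4),
  (23,3),(0,0),(0,15)]⟩,⟨1,[(31,0),(0,0)]⟩⟩ ⟨false,1,⟨8,[(1,3),(1,2),(6,0),(17,5),(12,0),(0,2),(3,
  5)]⟩,⟨25,[(0,1),(6,1),(8,9),(14,24),(0,0),(8,1),(4,5)]⟩⟩]⟩) (.I [0,0,0,0,0,0,0,1] (.S ⟨1,0,[0,1,0,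
  -1,0,0,0,-1],[1,0,-1],[1,0,0,0,0,0,0,-1],(⟨0,[(34,0)]⟩,⟨0,[(35,0)]⟩),⟨0,[(23,0)]⟩,.k,.k,⟨true,0,
  ⟨0,[]⟩,⟨0,[(49,0)]⟩⟩,⟨false,0,⟨0,[(45,0)]⟩,⟨31,[(3,1),(8,5),(1,11),(5,3),(0,2),(0,2),(24,14)]⟩⟩,
  ⟨false,1,⟨31,[(3,1),(8,5),(1,11),(5,3),(0,2),(0,2),(24,14)]⟩,⟨0,[(45,0)]⟩⟩,⟨true,0,⟨0,[(49,0)]⟩,
  ⟨0,[]⟩⟩,[.e ⟨false,1,⟨31,[(3,21),(8,1),(1,3),(5,11),(0,0),(0,0),(24,4)]⟩,⟨0,[(0,0)]⟩⟩ ⟨false,0,⟨7,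
  [(1,4),(1,2),(3,2),(8,9),(15,4),(9,1),(0,0)]⟩,⟨2,[(4,0),(6,0),(2,0),(7,0),(24,0)]⟩⟩,.o ⟨false,0,
  ⟨5,[(2,3),(4,0),(0,1),(8,2),(1,1),(22,0),(4,1)]⟩,⟨94,[(11,25),(2,40),(5,1),(1,0),(7,29),(10,1),(0,
  13),(6,4)]⟩⟩,.o ⟨false,0,⟨25,[(0,1),(1,1),(4,0),(11,8),(2,3),(6,6),(12,3),(6,0)]⟩,⟨24,[(3,7),(4,
  0),(5,6),(5,1),(9,3),(1,13),(9,4)]⟩⟩,.a ⟨true,(-1),⟨0,[(19,0)]⟩,⟨4,[(3,2),(10,1),(15,0),(1,1),(10,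
  0)]⟩⟩ ⟨false,1,⟨0,[(1,0),(5,0),(24,0)]⟩,⟨1,[(4,1),(27,0),(0,0)]⟩⟩ ⟨true,0,⟨7,[(1,4),(1,2),(3,2),
  (8,9),(15,4),(9,1),(0,0)]⟩,⟨2,[(4,1),(9,0),(0,0),(17,0)]⟩⟩]⟩) (.N [0,0,1] 0 ⟨0,[(4,0)]⟩ ⟨0,[(0,
  0)]⟩ .k)))) (.S ⟨1,0,[0,0,0,-1,0,0,0,1],[0,0,1],[1,1,0,0,0,0,0,1],(⟨0,[(32,0)]⟩,⟨0,[(31,0)]⟩),⟨0,
  [(21,0)]⟩,.k,.k,⟨false,0,⟨0,[]⟩,⟨1,[(22,0),(0,0),(20,0)]⟩⟩,⟨true,0,⟨0,[(42,0)]⟩,⟨0,[(41,0)]⟩⟩,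
  ⟨true,0,⟨0,[(41,0)]⟩,⟨0,[(42,0)]⟩⟩,⟨false,1,⟨1,[(22,0),(0,0),(20,0)]⟩,⟨0,[]⟩⟩,[.e ⟨false,0,⟨25,
  [(1,25),(2,2),(9,4),(23,3),(0,0),(0,15)]⟩,⟨0,[(2,0),(41,0)]⟩⟩ ⟨false,0,⟨17,[(0,13),(0,3),(2,16),
  (9,4),(24,0),(0,11)]⟩,⟨1,[(17,1),(25,0),(0,0)]⟩⟩,.o ⟨false,1,⟨18,[(0,9),(3,14),(6,6),(2,0),(12,1),
  (1,9),(9,3),(2,3)]⟩,⟨0,[(10,0)]⟩⟩,.o ⟨false,1,⟨4,[(5,0),(5,0),(17,3),(9,0),(3,1)]⟩,⟨27,[(16,10),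
  (2,2),(6,10),(12,4),(4,0),(1,1)]⟩⟩,.a ⟨true,0,⟨0,[(29,0)]⟩,⟨0,[(26,0)]⟩⟩ ⟨false,0,⟨0,[(0,0),(3,0),
  (35,0)]⟩,⟨3,[(5,1),(11,1),(11,0),(0,0),(13,3)]⟩⟩ ⟨true,0,⟨17,[(0,13),(0,3),(2,16),(9,4),(24,0),(0,
  11)]⟩,⟨0,[(17,0)]⟩⟩]⟩)) (.S ⟨1,0,[0,1,0,-1,0,0,0,1],[0,0,1],[1,0,0,0,0,0,0,1],(⟨0,[(31,0)]⟩,⟨0,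
  [(30,0)]⟩),⟨0,[(20,0)]⟩,.k,.k,⟨true,0,⟨0,[]⟩,⟨0,[(45,0)]⟩⟩,⟨false,0,⟨0,[(41,0)]⟩,⟨11,[(8,1),(1,3),
  (5,1),(0,0),(0,0),(23,0),(0,5)]⟩⟩,⟨false,1,⟨11,[(8,1),(1,3),(5,1),(0,0),(0,0),(23,0),(0,5)]⟩,⟨0,
  [(41,0)]⟩⟩,⟨true,0,⟨0,[(45,0)]⟩,⟨0,[]⟩⟩,[.e ⟨false,1,⟨1,[(3,0),(3,0),(10,0),(7,0)]⟩,⟨0,[(0,0)]⟩⟩
  ⟨false,0,⟨3,[(3,2),(3,0),(4,1),(2,3),(10,2),(11,0),(0,1)]⟩,⟨7,[(0,5),(7,1),(1,1),(5,1),(25,0),(0,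
  4)]⟩⟩,.o ⟨false,1,⟨39,[(3,11),(6,23),(2,19),(12,15),(1,8),(0,8),(8,11),(5,5)]⟩,⟨11,[(0,9),(7,1),
  (6,8),(9,0),(12,1),(0,7),(3,4)]⟩⟩,.o ⟨false,1,⟨4,[(4,0),(5,0),(17,3),(9,0),(3,1)]⟩,⟨27,[(15,10),
  (2,2),(6,10),(12,4),(4,0),(1,1)]⟩⟩,.a ⟨true,0,⟨0,[(28,0)]⟩,⟨0,[(25,0)]⟩⟩ ⟨false,1,⟨0,[(3,0),(3,0),
  (7,0)]⟩,⟨1,[(0,1),(27,0),(0,0)]⟩⟩ ⟨true,0,⟨3,[(3,2),(3,0),(4,1),(2,3),(10,2),(11,0),(0,1)]⟩,⟨2,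
  [(0,1),(10,0),(4,0),(26,0)]⟩⟩]⟩)) (.I [0,0,2,2,-1,0,0,1] (.S ⟨1,0,[0,0,0,-1,0,0,0,-1],[1,0,-1],[1,
  1,0,0,0,0,0,-1],(⟨0,[(30,0)]⟩,⟨0,[(31,0)]⟩),⟨0,[(19,0)]⟩,.k,.k,⟨false,0,⟨0,[]⟩,⟨1,[(21,0),(0,0),
  (20,0)]⟩⟩,⟨true,0,⟨0,[(41,0)]⟩,⟨0,[(40,0)]⟩⟩,⟨true,0,⟨0,[(40,0)]⟩,⟨0,[(41,0)]⟩⟩,⟨false,1,⟨1,[(21,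
  0),(0,0),(20,0)]⟩,⟨0,[]⟩⟩,[.e ⟨false,1,⟨47,[(4,33),(5,9),(5,23),(1,4),(19,0),(3,35)]⟩,⟨0,[(0,0),
  (2,0)]⟩⟩ ⟨false,1,⟨0,[(3,0),(12,0)]⟩,⟨3,[(0,0),(0,1),(5,0),(17,0),(11,0)]⟩⟩,.o ⟨false,1,⟨29,[(3,
  3),(0,21),(10,7),(2,6),(8,7),(10,2),(4,27)]⟩,⟨6,[(0,0),(0,4),(10,2),(13,0),(1,5),(9,1),(0,7)]⟩⟩,
  .o ⟨false,0,⟨27,[(15,10),(2,2),(6,10),(12,4),(4,0),(1,1)]⟩,⟨4,[(4,0),(5,0),(17,3),(9,0),(3,1)]⟩⟩,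
  .a ⟨true,(-1),⟨0,[(15,0)]⟩,⟨0,[(28,0),(13,0)]⟩⟩ ⟨false,1,⟨0,[(3,0),(4,0),(19,0)]⟩,⟨1,[(1,1),(26,
  0),(0,0)]⟩⟩ ⟨true,1,⟨0,[(3,0),(12,0)]⟩,⟨12,[(0,9),(0,2),(11,4),(23,3),(0,0),(0,2)]⟩⟩]⟩) (.S ⟨1,0,
  [0,0,0,-1,0,0,0,1],[0,0,1],[1,1,0,0,0,0,0,1],(⟨0,[(31,0)]⟩,⟨0,[(30,0)]⟩),⟨0,[(20,0)]⟩,.k,.k,
  ⟨false,0,⟨0,[]⟩,⟨7,[(0,1),(9,2),(5,0),(12,2),(13,2)]⟩⟩,⟨true,0,⟨0,[(41,0)]⟩,⟨0,[(40,0)]⟩⟩,⟨true,0,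
  ⟨0,[(40,0)]⟩,⟨0,[(41,0)]⟩⟩,⟨false,1,⟨7,[(0,1),(9,2),(5,0),(12,2),(13,2)]⟩,⟨0,[]⟩⟩,[.e ⟨false,0,⟨0,
  [(1,0),(35,0)]⟩,⟨0,[(0,0),(10,0),(31,0)]⟩⟩ ⟨false,0,⟨12,[(1,12),(1,2),(9,4),(23,3),(0,0),(0,2)]⟩,
  ⟨2,[(0,0),(7,0),(1,0),(5,1),(26,0)]⟩⟩,.o ⟨false,1,⟨20,[(1,9),(1,4),(6,10),(2,8),(14,9),(9,5),(2,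
  3),(1,1)]⟩,⟨0,[(9,0)]⟩⟩,.o ⟨false,1,⟨59,[(0,19),(6,14),(2,6),(5,2),(9,0),(1,36),(9,8),(6,2)]⟩,⟨27,
  [(15,10),(2,2),(6,10),(12,4),(4,0),(1,1)]⟩⟩,.a ⟨true,0,⟨0,[(28,0)]⟩,⟨0,[(25,0)]⟩⟩ ⟨false,0,⟨25,
  [(1,25),(1,2),(9,4),(23,3),(0,0),(0,15)]⟩,⟨3,[(4,1),(11,1),(11,0),(0,0),(13,3)]⟩⟩ ⟨true,0,⟨12,[(1,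
  12),(1,2),(9,4),(23,3),(0,0),(0,2)]⟩,⟨0,[(16,0)]⟩⟩]⟩)))) (.I [0,0,0,0,0,0,0,1] (.I [0,1,1,0,-1,0,
  0,1] (.I [0,-1,0,0,0,0,0,1] (.S ⟨1,0,[0,0,0,-1,0,0,0,-1],[1,0,-1],[1,1,0,0,0,0,0,-1],(⟨0,[(30,
  0)]⟩,⟨0,[(31,0)]⟩),⟨0,[(19,0)]⟩,.k,.k,⟨false,0,⟨0,[]⟩,⟨1,[(21,0),(0,0),(20,0)]⟩⟩,⟨true,0,⟨0,[(41,
  0)]⟩,⟨0,[(40,0)]⟩⟩,⟨true,0,⟨0,[(40,0)]⟩,⟨0,[(41,0)]⟩⟩,⟨false,1,⟨1,[(21,0),(0,0),(20,0)]⟩,⟨0,[]⟩⟩,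
  [.e ⟨false,1,⟨47,[(4,33),(5,9),(5,23),(1,4),(19,0),(3,35)]⟩,⟨0,[(0,0)]⟩⟩ ⟨false,1,⟨1,[(4,1),(37,
  0),(0,0)]⟩,⟨8,[(0,3),(0,1),(1,0),(3,2),(17,2),(13,0)]⟩⟩,.o ⟨false,1,⟨9,[(4,1),(8,3),(4,0),(8,7),
  (10,0),(4,11)]⟩,⟨3,[(0,2),(0,0),(10,0),(15,3),(9,0),(0,4)]⟩⟩,.o ⟨false,0,⟨18,[(0,0),(7,0),(6,5),
  (2,2),(6,5),(12,2),(2,1)]⟩,⟨4,[(4,0),(5,0),(17,3),(9,0),(3,1)]⟩⟩,.a ⟨true,(-1),⟨0,[(15,0)]⟩,⟨0,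
  [(28,0),(13,0)]⟩⟩ ⟨false,1,⟨0,[(4,0),(34,0),(3,0)]⟩,⟨1,[(0,1),(27,0),(0,0)]⟩⟩ ⟨true,1,⟨1,[(4,1),
  (37,0),(0,0)]⟩,⟨2,[(0,0),(0,1),(1,0),(35,0)]⟩⟩]⟩) (.I [0,0,1,0,0,0,0,-1] (.I [0,-1,-1,-1,1,0,0,
  -1] (.R ⟨1,false,false,true,[1,0,-1],[0,1],[0,0,0,-1,0,0,0,-1],(⟨0,[(32,0)]⟩,⟨0,[(33,0)]⟩),(⟨0,
  [(38,0)]⟩,⟨0,[(37,0)]⟩),⟨0,[(21,0)]⟩,.k,.k,.k,.k,(.r (-1) ⟨16,[(0,16),(14,9),(23,1),(0,1),(0,2),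
  (2,5)]⟩ ⟨29,[(3,5),(1,17),(6,23),(4,1),(2,2),(10,15),(8,0)]⟩),.k,⟨true,1,⟨19,[(0,20),(11,0),(2,9),
  (15,0),(8,1),(4,3)]⟩,⟨1,[(3,0),(1,0),(3,0),(7,0)]⟩⟩,⟨false,2,⟨6,[(0,3),(1,0),(6,1),(18,2),(1,1),
  (9,0),(3,5)]⟩,⟨0,[(17,0)]⟩⟩,⟨true,0,⟨0,[(43,0)]⟩,⟨0,[(42,0)]⟩⟩,⟨false,1,⟨94,[(9,25),(2,40),(5,1),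
  (1,0),(7,29),(10,1),(0,13),(6,4)]⟩,⟨0,[(0,0),(16,0)]⟩⟩,⟨false,1,⟨1,[(0,0),(11,0),(18,0)]⟩,⟨0,[]⟩⟩,
  ⟨false,1,⟨0,[(9,0)]⟩,⟨11,[(0,11),(14,5),(1,10),(13,0),(8,0),(4,2)]⟩⟩,[.e ⟨false,1,⟨3,[(0,2),(5,0),
  (16,0),(0,0),(14,0)]⟩,⟨0,[(3,0),(37,0),(3,0)]⟩⟩ ⟨false,1,⟨16,[(2,2),(6,1),(18,0),(1,13),(9,2),(0,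
  12),(2,8)]⟩,⟨11,[(15,5),(1,4),(2,0),(6,4),(12,0),(4,8)]⟩⟩,.o ⟨false,1,⟨21,[(12,5),(5,5),(0,4),(0,
  2),(19,3),(3,2)]⟩,⟨0,[(43,0)]⟩⟩,.o ⟨false,0,⟨27,[(17,10),(2,2),(6,10),(12,4),(4,0),(1,1)]⟩,⟨11,
  [(0,4),(1,1),(6,1),(2,0),(15,3),(1,4),(9,1)]⟩⟩,.a ⟨true,(-1),⟨0,[(17,0)]⟩,⟨0,[(30,0),(13,0)]⟩⟩
  ⟨false,1,⟨0,[(0,0)]⟩,⟨14,[(3,5),(1,2),(6,8),(4,1),(2,2),(10,0),(8,0)]⟩⟩ ⟨true,1,⟨16,[(2,2),(6,1),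
  (18,0),(1,13),(9,2),(0,12),(2,8)]⟩,⟨11,[(15,5),(1,10),(13,0),(8,0),(4,2)]⟩⟩]⟩) (.I [0,0,-1,-1,0,0,
  0,1] (.S ⟨1,0,[0,0,0,-1,0,0,0,1],[0,0,1],[1,1,1],(⟨0,[(34,0)]⟩,⟨0,[(33,0)]⟩),⟨0,[(23,0)]⟩,.k,.k,
  ⟨false,0,⟨0,[(2,0)]⟩,⟨11,[(0,5),(12,5),(7,0),(6,3),(12,0),(3,0),(0,2)]⟩⟩,⟨true,0,⟨0,[(44,0)]⟩,⟨0,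
  [(43,0)]⟩⟩,⟨true,0,⟨0,[(19,0)]⟩,⟨0,[(0,0)]⟩⟩,⟨false,1,⟨1,[(24,0),(0,0),(20,0)]⟩,⟨0,[]⟩⟩,[.e
  ⟨false,0,⟨0,[(48,0)]⟩,⟨1,[(45,0),(0,0)]⟩⟩ ⟨false,0,⟨0,[(0,0)]⟩,⟨1,[(19,1),(25,0),(0,0)]⟩⟩,.o
  ⟨false,1,⟨3,[(0,2),(12,0),(2,0),(14,2),(9,0),(4,1)]⟩,⟨0,[(12,0)]⟩⟩,.o ⟨false,1,⟨4,[(7,0),(5,0),
  (17,3),(9,0),(3,1)]⟩,⟨27,[(18,10),(2,2),(6,10),(12,4),(4,0),(1,1)]⟩⟩,.a ⟨true,0,⟨0,[(31,0)]⟩,⟨0,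
  [(28,0)]⟩⟩ ⟨false,0,⟨0,[]⟩,⟨1,[(24,0),(0,0),(20,0)]⟩⟩ ⟨true,0,⟨0,[(0,0)]⟩,⟨0,[(19,0)]⟩⟩]⟩) (.Q [0,
  1,0,0,0,0,1,1,0,-1,1] (.p true [0,0,1] [1] (⟨0,[(34,0)]⟩,⟨0,[(33,0)]⟩) .k 1 (⟨0,[]⟩,⟨0,[]⟩) .k
  .k) (.Q [0,0,0,0,0,0,-1,-1,0,0,-1] (.p false [0,0,1] [] (⟨0,[(35,0)]⟩,⟨0,[(34,0)]⟩) .k 0 (⟨0,[]⟩,
  ⟨0,[]⟩) .k .k) (.R ⟨2,true,false,false,[0,1],[0,0,1],[1,1,1,1],(⟨0,[]⟩,⟨0,[]⟩),(⟨0,[(36,0)]⟩,⟨0,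
  [(35,0)]⟩),⟨0,[]⟩,.k,.k,.k,.k,.k,.k,⟨false,0,⟨1,[(2,0),(2,0),(38,0)]⟩,⟨25,[(7,23),(7,1),(2,13),(4,
  0),(19,2),(3,12),(0,18)]⟩⟩,⟨true,0,⟨0,[(33,0)]⟩,⟨19,[(0,1),(5,1),(13,4),(2,2),(6,6),(12,2),(4,
  0)]⟩⟩,⟨false,0,⟨0,[]⟩,⟨1,[(26,0),(0,0),(20,0)]⟩⟩,⟨true,0,⟨0,[(1,0),(15,0),(30,0)]⟩,⟨0,[(14,0)]⟩⟩,
  ⟨true,0,⟨0,[(45,0)]⟩,⟨0,[(46,0)]⟩⟩,⟨false,1,⟨47,[(9,1),(5,49),(2,23),(4,0),(19,4),(4,11)]⟩,⟨0,[(0,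
  0)]⟩⟩,[]⟩) (.R ⟨2,true,false,false,[0,1],[0,1,1],[0,1,1],(⟨0,[]⟩,⟨0,[]⟩),(⟨0,[(36,0),(1,0)]⟩,⟨0,
  [(24,0)]⟩),⟨0,[]⟩,.k,.k,.k,.k,.k,.k,⟨true,0,⟨0,[(9,0)]⟩,⟨0,[(3,0),(44,0)]⟩⟩,⟨false,1,⟨0,[(33,0),
  (13,0)]⟩,⟨27,[(20,10),(2,2),(6,10),(12,4),(4,0),(1,1)]⟩⟩,⟨false,0,⟨0,[(46,0)]⟩,⟨11,[(13,1),(1,3),
  (5,1),(0,0),(0,0),(23,0),(0,5)]⟩⟩,⟨true,0,⟨0,[(0,0)]⟩,⟨0,[(32,0)]⟩⟩,⟨true,0,⟨0,[(50,0)]⟩,⟨0,[]⟩⟩,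
  ⟨false,1,⟨0,[(15,0)]⟩,⟨0,[(2,0),(14,3),(2,0),(22,0),(0,1),(3,2)]⟩⟩,[]⟩)) (.R ⟨2,true,false,false,
  [0,1],[1,1,-1],[0,0,1],(⟨0,[]⟩,⟨0,[]⟩),(⟨0,[(34,0),(2,0)]⟩,⟨0,[(24,0)]⟩),⟨0,[]⟩,.k,.k,.k,.k,.k,.k,
  ⟨true,0,⟨25,[(6,23),(7,1),(2,13),(4,0),(19,2),(4,5)]⟩,⟨0,[(1,0)]⟩⟩,⟨false,0,⟨0,[(29,0)]⟩,⟨4,[(8,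
  0),(5,0),(17,3),(9,0),(3,1)]⟩⟩,⟨true,0,⟨0,[(45,0)]⟩,⟨0,[(44,0)]⟩⟩,⟨false,0,⟨0,[(0,0)]⟩,⟨56,[(8,3),
  (5,45),(2,20),(4,1),(7,14),(11,15),(6,5)]⟩⟩,⟨false,1,⟨1,[(25,0),(0,0),(20,0)]⟩,⟨0,[]⟩⟩,⟨true,0,⟨4,
  [(0,2),(11,1),(1,0),(1,0),(3,0),(8,0)]⟩,⟨0,[(2,0),(13,3),(15,0),(9,0),(0,1),(3,2)]⟩⟩,[]⟩)))) (.S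
  ⟨1,0,[0,0,0,-1,0,0,0,1],[0,0,1],[1,1,0,0,0,0,0,1],(⟨0,[(32,0)]⟩,⟨0,[(31,0)]⟩),⟨0,[(21,0)]⟩,.k,.k,
  ⟨false,0,⟨0,[]⟩,⟨1,[(22,0),(0,0),(20,0)]⟩⟩,⟨true,0,⟨0,[(42,0)]⟩,⟨0,[(41,0)]⟩⟩,⟨true,0,⟨0,[(41,
  0)]⟩,⟨0,[(42,0)]⟩⟩,⟨false,1,⟨1,[(22,0),(0,0),(20,0)]⟩,⟨0,[]⟩⟩,[.e ⟨false,0,⟨39,[(0,27),(1,1),(16,
  4),(7,9),(10,13),(0,0)]⟩,⟨0,[(1,0),(42,0)]⟩⟩ ⟨false,0,⟨45,[(0,43),(10,1),(2,23),(4,0),(19,4),(3,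
  0),(0,10)]⟩,⟨1,[(17,1),(25,0),(0,0)]⟩⟩,.o ⟨false,1,⟨2,[(0,1),(10,0),(2,1),(14,1),(9,0),(4,1)]⟩,⟨0,
  [(10,0)]⟩⟩,.o ⟨false,1,⟨4,[(5,0),(5,0),(17,3),(9,0),(3,1)]⟩,⟨27,[(16,10),(2,2),(6,10),(12,4),(4,
  0),(1,1)]⟩⟩,.a ⟨true,0,⟨0,[(29,0)]⟩,⟨0,[(26,0)]⟩⟩ ⟨false,0,⟨0,[(0,0)]⟩,⟨3,[(5,1),(11,1),(11,0),(0,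
  0),(13,3)]⟩⟩ ⟨true,0,⟨45,[(0,43),(10,1),(2,23),(4,0),(19,4),(3,0),(0,10)]⟩,⟨0,[(17,0)]⟩⟩]⟩))) (.S
  ⟨1,0,[0,1,0,-1,0,0,0,-1],[1,0,-1],[1,0,0,0,0,0,0,-1],(⟨0,[(29,0)]⟩,⟨0,[(30,0)]⟩),⟨0,[(18,0)]⟩,.k,
  .k,⟨true,0,⟨0,[]⟩,⟨0,[(44,0)]⟩⟩,⟨false,0,⟨0,[(40,0)]⟩,⟨7,[(0,0),(6,0),(1,2),(5,0),(0,0),(0,0),(24,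
  2)]⟩⟩,⟨false,1,⟨7,[(0,0),(6,0),(1,2),(5,0),(0,0),(0,0),(24,2)]⟩,⟨0,[(40,0)]⟩⟩,⟨true,0,⟨0,[(44,
  0)]⟩,⟨0,[]⟩⟩,[.e ⟨false,1,⟨95,[(0,47),(2,33),(5,9),(5,23),(1,4),(19,0),(3,35)]⟩,⟨0,[(1,0)]⟩⟩
  ⟨false,0,⟨15,[(0,12),(1,0),(0,2),(7,19),(25,3),(0,4)]⟩,⟨2,[(1,0),(4,0),(2,0),(7,0),(24,0)]⟩⟩,.o
  ⟨false,0,⟨21,[(0,15),(2,4),(8,8),(1,18),(9,1),(1,0),(10,5),(0,0)]⟩,⟨94,[(6,25),(2,40),(5,1),(1,0),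
  (7,29),(10,1),(0,13),(6,4)]⟩⟩,.o ⟨false,0,⟨27,[(14,10),(2,2),(6,10),(12,4),(4,0),(1,1)]⟩,⟨4,[(0,
  1),(2,0),(5,0),(15,1),(1,1),(9,0)]⟩⟩,.a ⟨true,(-1),⟨0,[(14,0)]⟩,⟨0,[(0,0),(24,0)]⟩⟩ ⟨false,1,⟨0,
  [(0,0)]⟩,⟨1,[(1,1),(25,0),(0,0)]⟩⟩ ⟨true,0,⟨15,[(0,12),(1,0),(0,2),(7,19),(25,3),(0,4)]⟩,⟨2,[(1,
  1),(0,0),(6,0),(18,0)]⟩⟩]⟩)) (.Q [0,0,0,0,0,-2,0,0,0,0,1] (.p true [0,0,1] [] (⟨0,[(29,0)]⟩,⟨0,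
  [(28,0)]⟩) .k 0 (⟨0,[]⟩,⟨0,[]⟩) .k .k) (.I [0,0,0,0,0,0,0,-1] (.I [1,0,0,-1,0,0,0,1] (.S ⟨1,0,[0,
  0,0,-1,0,0,0,1],[0,0,1],[1,1,0,0,0,0,0,1],(⟨0,[(32,0)]⟩,⟨0,[(31,0)]⟩),⟨0,[(21,0)]⟩,.k,.k,⟨false,0,
  ⟨0,[]⟩,⟨1,[(22,0),(0,0),(20,0)]⟩⟩,⟨true,0,⟨0,[(42,0)]⟩,⟨0,[(41,0)]⟩⟩,⟨true,0,⟨0,[(41,0)]⟩,⟨0,[(42,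
  0)]⟩⟩,⟨false,1,⟨1,[(22,0),(0,0),(20,0)]⟩,⟨0,[]⟩⟩,[.o ⟨false,1,⟨2,[(0,0),(4,0),(5,2),(2,1),(24,
  0)]⟩,⟨11,[(1,9),(7,1),(6,8),(9,0),(12,1),(0,7),(3,4)]⟩⟩,.e ⟨false,1,⟨71,[(0,23),(4,1),(5,25),(7,
  24),(7,23),(11,4),(3,35)]⟩,⟨0,[(1,0)]⟩⟩ ⟨false,1,⟨1,[(0,1),(42,0),(0,0)]⟩,⟨1,[(1,0),(15,0),(22,
  0)]⟩⟩,.o ⟨false,1,⟨4,[(5,0),(5,0),(17,3),(9,0),(3,1)]⟩,⟨27,[(16,10),(2,2),(6,10),(12,4),(4,0),(1,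
  1)]⟩⟩,.a ⟨true,0,⟨0,[(29,0)]⟩,⟨0,[(26,0)]⟩⟩ ⟨true,0,⟨0,[(0,0),(39,0)]⟩,⟨1,[(1,1),(27,0),(0,0)]⟩⟩
  ⟨false,1,⟨1,[(0,1),(42,0),(0,0)]⟩,⟨2,[(1,1),(2,0),(12,0),(26,0)]⟩⟩]⟩) (.S ⟨1,0,[0,0,0,-1,0,0,0,1],
  [0,0,1],[0,1,0,-1,0,0,0,1],(⟨0,[(32,0)]⟩,⟨0,[(31,0)]⟩),⟨0,[(21,0)]⟩,.k,.k,⟨false,0,⟨0,[(42,0)]⟩,
  ⟨11,[(9,1),(1,3),(5,1),(0,0),(0,0),(23,0),(0,5)]⟩⟩,⟨true,0,⟨0,[(42,0)]⟩,⟨0,[(41,0)]⟩⟩,⟨true,0,⟨0,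
  [(46,0)]⟩,⟨0,[]⟩⟩,⟨false,1,⟨1,[(22,0),(0,0),(20,0)]⟩,⟨0,[]⟩⟩,[.o ⟨false,1,⟨14,[(5,1),(5,16),(2,
  13),(4,0),(19,5),(2,1),(3,0)]⟩,⟨5,[(0,5),(15,1),(2,0),(6,1),(12,0)]⟩⟩,.e ⟨false,1,⟨2,[(11,2),(2,
  2),(4,0),(6,0),(12,0),(3,0)]⟩,⟨0,[(0,0)]⟩⟩ ⟨false,1,⟨0,[(11,0),(1,3),(2,0),(22,0),(0,1),(3,2)]⟩,
  ⟨2,[(0,1),(16,0),(20,0)]⟩⟩,.o ⟨false,1,⟨4,[(5,0),(5,0),(17,3),(9,0),(3,1)]⟩,⟨27,[(16,10),(2,2),(6,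
  10),(12,4),(4,0),(1,1)]⟩⟩,.a ⟨true,0,⟨0,[(29,0)]⟩,⟨0,[(26,0)]⟩⟩ ⟨true,0,⟨0,[(11,0),(1,3),(2,0),
  (22,0),(0,1),(3,1)]⟩,⟨2,[(1,1),(2,0),(12,0),(26,0)]⟩⟩ ⟨false,1,⟨0,[(11,0),(1,3),(2,0),(22,0),(0,
  1),(3,2)]⟩,⟨2,[(1,1),(2,0),(12,0),(26,0)]⟩⟩]⟩)) (.N [0,0,1] 0 ⟨0,[(0,0)]⟩ ⟨0,[(2,0)]⟩ .k)) (.Q [0,
  0,0,0,1,0,2,0,0,-1,2] (.p true [0,0,1] [1,0,-1] (⟨0,[(30,0)]⟩,⟨0,[(29,0)]⟩) .k 2 (⟨0,[(29,0)]⟩,⟨0,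
  [(30,0)]⟩) .k (.x (-1) ⟨16,[(0,26),(1,5),(8,57),(6,6),(8,33),(3,46),(5,12),(0,45),(3,54)]⟩ ⟨5,
  [(14,3),(2,1),(1,0),(4,3),(5,10),(1,0),(4,1)]⟩)) (.R ⟨0,false,false,false,[0,-1,1],[1,-1],[],(⟨0,
  [(20,0)]⟩,⟨0,[(30,0),(2,0)]⟩),(⟨0,[(35,0)]⟩,⟨0,[(36,0)]⟩),⟨0,[(1,0)]⟩,.k,.k,(.r (-1) ⟨0,[(10,0),
  (1,3),(12,0),(12,0),(0,0),(3,1)]⟩ ⟨2,[(2,0),(0,1),(12,1),(26,1)]⟩),.k,.k,.k,⟨true,0,⟨5,[(3,1),(6,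
  0),(5,0),(12,0),(13,0)]⟩,⟨19,[(0,0),(12,9),(4,0),(19,1),(4,4)]⟩⟩,⟨false,0,⟨0,[(25,0)]⟩,⟨49,[(0,
  38),(17,13),(19,4),(4,0),(1,1)]⟩⟩,⟨true,0,⟨2,[(2,1),(0,0),(12,0),(26,0)]⟩,⟨0,[(10,0),(1,3),(2,0),
  (22,0),(0,1),(3,1)]⟩⟩,⟨false,0,⟨1,[(2,1),(12,0),(9,0),(17,0)]⟩,⟨16,[(0,1),(9,9),(2,2),(4,1),(7,6),
  (11,3),(2,3)]⟩⟩,⟨false,0,⟨0,[]⟩,⟨0,[]⟩⟩,⟨false,0,⟨0,[]⟩,⟨0,[]⟩⟩,[.o ⟨false,0,⟨0,[(41,0)]⟩,⟨23,[(0,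
  4),(9,1),(5,1),(0,9),(0,5),(19,2),(3,0)]⟩⟩,.e ⟨false,1,⟨1,[(42,0),(0,0)]⟩,⟨0,[(45,0)]⟩⟩ ⟨false,1,
  ⟨11,[(13,5),(4,0),(6,9),(12,0),(3,6),(0,8)]⟩,⟨51,[(0,25),(2,30),(9,8),(23,1),(0,6),(0,7)]⟩⟩,.a
  ⟨true,0,⟨0,[(28,0)]⟩,⟨0,[(25,0)]⟩⟩ ⟨false,1,⟨1,[(0,0),(17,0),(24,0)]⟩,⟨0,[]⟩⟩ ⟨true,0,⟨11,[(13,5),
  (4,0),(6,9),(12,0),(3,0),(0,2)]⟩,⟨51,[(0,25),(2,30),(9,8),(23,1),(0,6),(0,7)]⟩⟩,.o ⟨false,0,⟨1,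
  [(0,0),(2,1),(8,3),(25,0),(4,2)]⟩,⟨5,[(18,0),(6,3),(12,0),(3,3)]⟩⟩]⟩) (.S ⟨1,0,[0,0,-1,-2,0,0,0,
  -1],[1,-1,-1],[1,1,-1,-1,0,0,0,-1],(⟨0,[(19,0)]⟩,⟨0,[(31,0),(1,0)]⟩),⟨16,[(1,1),(1,7),(8,31),(6,
  14),(12,22),(5,5),(0,15),(3,27)]⟩,.k,(.r (-1) ⟨10,[(2,8),(1,1),(8,9),(24,1),(3,10),(0,5)]⟩ ⟨29,
  [(0,2),(2,17),(6,23),(4,6),(10,5),(2,16),(8,1)]⟩),⟨false,0,⟨0,[]⟩,⟨1,[(21,0),(0,0),(20,0)]⟩⟩,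
  ⟨true,0,⟨0,[(41,0)]⟩,⟨0,[(40,0)]⟩⟩,⟨true,0,⟨0,[(40,0)]⟩,⟨0,[(41,0)]⟩⟩,⟨false,1,⟨1,[(21,0),(0,0),
  (20,0)]⟩,⟨0,[]⟩⟩,[.o ⟨false,0,⟨21,[(0,10),(1,5),(1,15),(8,13),(24,4),(4,14)]⟩,⟨0,[(7,0)]⟩⟩,.o
  ⟨false,0,⟨1,[(0,0),(1,1),(9,3),(25,0),(4,2)]⟩,⟨59,[(7,51),(2,1),(5,13),(1,6),(7,19),(10,13),(0,
  2)]⟩⟩,.a ⟨true,(-1),⟨0,[(15,0)]⟩,⟨0,[(28,0),(13,0)]⟩⟩ ⟨true,0,⟨16,[(2,14),(1,1),(8,9),(24,1),(0,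
  4),(2,5)]⟩,⟨14,[(0,2),(2,2),(6,8),(4,6),(10,5),(2,1),(8,1)]⟩⟩ ⟨false,1,⟨21,[(2,17),(1,3),(8,19),
  (24,3),(3,10),(0,22)]⟩,⟨29,[(0,13),(2,14),(3,4),(2,19),(7,0),(7,4),(11,1)]⟩⟩,.o ⟨false,(-1),⟨1,
  [(0,0),(2,1),(8,3),(25,0),(4,2)]⟩,⟨4,[(4,0),(5,0),(17,3),(9,0),(3,6)]⟩⟩]⟩))))))))

theorem ok28 : chk K t28 l20 = true := by decide +kernel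

noncomputable def t29 : Tre :=
  (.R ⟨1,false,false,false,[1,0,-1],[0,1],[1,0,1],(⟨0,[(23,0)]⟩,⟨0,[(24,0)]⟩),(⟨0,[(29,0)]⟩,⟨0,[(28,
  0)]⟩),⟨0,[(12,0)]⟩,.k,.k,.k,.k,(.r (-1) ⟨37,[(0,33),(5,5),(2,3),(11,33),(9,7),(3,56),(0,4)]⟩ ⟨27,
  [(3,22),(0,14),(2,2),(0,10),(2,3),(7,4),(2,8),(8,2)]⟩),.k,⟨true,0,⟨19,[(6,9),(7,0),(0,0),(15,1),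
  (4,4)]⟩,⟨5,[(3,0),(0,1),(4,0),(12,0),(13,0)]⟩⟩,⟨false,2,⟨9,[(14,0),(0,0),(5,9),(9,1),(3,14)]⟩,⟨0,
  [(8,0)]⟩⟩,⟨true,0,⟨8,[(3,5),(2,2),(1,6),(10,2),(2,1),(8,1)]⟩,⟨10,[(0,9),(0,0),(19,10),(9,1),(0,
  17),(2,1),(0,3)]⟩⟩,⟨true,1,⟨20,[(3,12),(0,0),(5,0),(8,7),(11,3),(0,1),(0,1)]⟩,⟨1,[(0,0),(0,0),(4,
  0)]⟩⟩,⟨true,0,⟨15,[(3,9),(0,1),(3,13),(2,0),(7,5),(11,2),(0,1)]⟩,⟨15,[(0,14),(8,0),(11,14),(8,0),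
  (0,2),(0,12),(2,8)]⟩⟩,⟨false,2,⟨21,[(3,27),(5,5),(0,4),(0,2),(19,3),(3,2)]⟩,⟨0,[(0,0)]⟩⟩,[.o
  ⟨false,1,⟨21,[(3,5),(5,5),(0,4),(0,2),(19,3),(3,2)]⟩,⟨0,[(34,0)]⟩⟩,.e ⟨false,1,⟨1,[(14,0),(0,0),
  (20,0)]⟩,⟨16,[(6,4),(23,0),(0,0),(0,9),(2,2)]⟩⟩ ⟨false,2,⟨5,[(10,0),(10,5),(9,0),(0,3),(2,3),(0,
  4)]⟩,⟨16,[(6,9),(1,10),(9,5),(11,1),(0,1),(0,2)]⟩⟩,.o ⟨false,0,⟨27,[(8,10),(2,2),(6,10),(12,4),(4,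
  0),(1,1)]⟩,⟨9,[(14,0),(0,0),(5,9),(9,1),(3,4)]⟩⟩,.a ⟨true,(-1),⟨0,[(8,0)]⟩,⟨0,[(21,0),(13,0)]⟩⟩
  ⟨true,0,⟨0,[]⟩,⟨0,[(38,0)]⟩⟩ ⟨false,2,⟨5,[(10,0),(10,5),(9,0),(0,3),(2,3),(0,4)]⟩,⟨11,[(6,5),(1,
  10),(13,0),(8,0),(4,2)]⟩⟩]⟩)

theorem ok29 : chk K t29 r20 = true := by decide +kernel

noncomputable def t37 : Tre :=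
  (.R ⟨1,false,false,true,[1,-1],[0,1],[1,0,-1,-1],(⟨0,[(21,0)]⟩,⟨0,[(22,0)]⟩),(⟨0,[(22,0)]⟩,⟨0,
  [(21,0)]⟩),⟨0,[(5,0),(0,0)]⟩,.k,.k,(.r (-1) ⟨4,[(0,3),(6,0),(0,0),(14,1),(3,5)]⟩ ⟨0,[(1,0),(1,0),
  (10,0)]⟩),(.r (-1) ⟨4,[(0,3),(6,0),(0,0),(14,1),(3,5)]⟩ ⟨0,[(1,0),(1,0),(10,0)]⟩),(.r (-1) ⟨0,[(0,
  0),(24,0),(1,2)]⟩ ⟨1,[(1,2),(1,2),(10,2)]⟩),.k,⟨true,1,⟨0,[(0,0),(26,0)]⟩,⟨1,[(1,4),(12,4),(9,0),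
  (0,3),(3,0)]⟩⟩,⟨false,2,⟨9,[(7,0),(0,0),(15,1),(3,14)]⟩,⟨0,[(1,0),(12,0)]⟩⟩,⟨true,0,⟨0,[]⟩,⟨0,
  [(31,0)]⟩⟩,⟨false,1,⟨0,[(3,0)]⟩,⟨0,[(0,0),(0,0),(12,0),(12,0)]⟩⟩,⟨false,1,⟨0,[(26,0),(2,0)]⟩,⟨0,
  [(27,0)]⟩⟩,⟨false,1,⟨1,[(1,2),(12,2),(9,0),(0,5),(3,2)]⟩,⟨0,[(0,0),(0,0),(12,0),(12,1)]⟩⟩,[.e
  ⟨false,1,⟨4,[(0,3),(6,0),(0,0),(14,1),(3,0)]⟩,⟨1,[(1,0),(1,0),(10,0)]⟩⟩ ⟨false,1,⟨10,[(3,0),(19,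
  0),(0,1),(0,8),(2,5)]⟩,⟨1,[(1,0),(9,0),(2,1),(12,1),(1,0)]⟩⟩,.o ⟨false,1,⟨49,[(3,24),(3,13),(0,
  13),(15,4),(4,0),(1,1)]⟩,⟨0,[(27,0)]⟩⟩,.o ⟨false,0,⟨1,[(14,0),(0,0)]⟩,⟨9,[(7,0),(0,0),(15,1),(3,
  4)]⟩⟩,.a ⟨true,(-1),⟨0,[(1,0),(12,0)]⟩,⟨0,[(28,0)]⟩⟩ ⟨false,1,⟨0,[(0,0)]⟩,⟨1,[(1,0),(1,0),(10,1),
  (0,0)]⟩⟩ ⟨true,1,⟨10,[(3,0),(19,0),(0,1),(0,8),(2,5)]⟩,⟨0,[(1,0),(12,0),(12,0)]⟩⟩]⟩)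

theorem ok37 : chk K t37 r13 = true := by decide +kernel

noncomputable def t41 : Tre :=
  (.I [0,-1,-1,-2] (.R ⟨2,true,false,false,[0,1],[1,-1],[0,0,0,-1],(⟨0,[]⟩,⟨0,[]⟩),(⟨0,[(19,0)]⟩,⟨0,
  [(20,0)]⟩),⟨0,[]⟩,.k,.k,.k,(.r (-1) ⟨0,[(12,0),(0,0),(10,1),(2,0)]⟩ ⟨4,[(0,5),(20,1),(1,1)]⟩),.k,
  .k,⟨true,0,⟨1,[(12,0),(0,0)]⟩,⟨0,[]⟩⟩,⟨false,0,⟨1,[(2,0),(6,0),(2,2)]⟩,⟨4,[(0,1),(21,0),(0,3),(2,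
  1),(0,0)]⟩⟩,⟨false,0,⟨0,[(0,0)]⟩,⟨1,[(12,0),(0,0),(10,3),(2,1)]⟩⟩,⟨true,(-1),⟨0,[(1,0)]⟩,⟨9,[(5,
  0),(0,0),(15,1),(1,19),(2,4)]⟩⟩,⟨true,0,⟨4,[(0,2),(20,0),(1,0)]⟩,⟨1,[(12,0),(0,0),(10,1)]⟩⟩,
  ⟨false,0,⟨1,[(1,0),(7,0),(2,0),(14,0)]⟩,⟨9,[(5,0),(0,0),(15,1),(1,9),(2,4)]⟩⟩,[]⟩) (.I [0,0,2,1]
  (.S ⟨1,4,[],[1,-1],[0,1,1],(⟨0,[(20,0)]⟩,⟨0,[(21,0)]⟩),⟨0,[(4,0),(0,0)]⟩,.k,(.r 0 ⟨2,[(2,4),(20,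
  0),(0,3),(2,0),(0,1)]⟩ ⟨0,[(0,1),(26,0)]⟩),⟨false,0,⟨0,[(0,0)]⟩,⟨5,[(2,4),(20,0),(0,3),(2,3),(0,
  4)]⟩⟩,⟨true,0,⟨0,[(25,0)]⟩,⟨0,[(26,0)]⟩⟩,⟨true,0,⟨4,[(0,3),(0,2),(20,0)]⟩,⟨2,[(2,4),(20,0),(0,3),
  (2,0),(0,1)]⟩⟩,⟨false,1,⟨1,[(1,1),(25,0),(0,0)]⟩,⟨5,[(2,4),(20,0),(2,1),(1,2)]⟩⟩,[.o ⟨false,0,⟨0,
  [(30,0)]⟩,⟨9,[(6,0),(0,0),(15,1),(4,4)]⟩⟩,.fa ⟨true,0,⟨1,[(0,0),(25,0)]⟩,⟨0,[]⟩⟩ ⟨false,1,⟨0,[(27,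
  0)]⟩,⟨1,[(0,0),(25,0)]⟩⟩,.o ⟨false,0,⟨1,[(0,0),(25,0)]⟩,⟨9,[(6,0),(0,0),(15,1),(3,4)]⟩⟩,.o ⟨false,
  0,⟨0,[(0,0),(25,0)]⟩,⟨2,[(2,1),(20,0),(0,3),(2,0),(0,1)]⟩⟩]⟩) (.I [1,1,-1,-1,-1,0,0,-1] (.Q [0,0,
  0,0,0,0,1,0,0,0,1] (.p true [0,0,1] [] (⟨0,[(17,0)]⟩,⟨0,[(16,0)]⟩) .k 0 (⟨0,[]⟩,⟨0,[]⟩) .k .k)
  (.K ⟨0,[0,1,1],0,1,(⟨0,[(18,0),(1,0)]⟩,⟨0,[(6,0)]⟩),.k,.k,(.r (-1) ⟨0,[(3,0),(9,0),(2,0),(13,0)]⟩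
  ⟨1,[(1,1),(26,1),(0,0),(0,0)]⟩),.k,.k,[⟨1,[(15,0),(0,0)]⟩,⟨0,[(0,0)]⟩,⟨0,[(1,0),(14,0)]⟩,⟨3,[(3,
  1),(4,1),(0,1),(3,3),(15,0),(0,0)]⟩]⟩) (.R ⟨2,true,false,true,[0,1],[1,0,-1],[1,1,0,0,0,0,0,-1],
  (⟨0,[]⟩,⟨0,[]⟩),(⟨0,[(17,0)]⟩,⟨0,[(18,0)]⟩),⟨0,[]⟩,.k,.k,.k,.k,.k,.k,⟨true,0,⟨0,[]⟩,⟨1,[(15,0),(0,
  0)]⟩⟩,⟨false,0,⟨1,[(5,0),(6,0),(2,0)]⟩,⟨4,[(2,1),(12,4),(9,0),(0,1),(2,1),(0,0)]⟩⟩,⟨true,(-1),⟨0,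
  [(1,0)]⟩,⟨19,[(3,9),(1,4),(2,2),(0,2),(3,19),(2,9),(8,0),(4,14)]⟩⟩,⟨false,(-1),⟨0,[(0,0),(0,0),(1,
  0),(0,0),(25,0)]⟩,⟨19,[(3,9),(4,1),(0,1),(3,19),(11,3),(3,4),(0,24)]⟩⟩,⟨false,0,⟨3,[(1,3),(1,1),
  (25,0),(0,2)]⟩,⟨0,[(13,0),(2,0),(13,0)]⟩⟩,⟨true,(-1),⟨1,[(1,1),(1,1),(0,0),(0,0),(24,0)]⟩,⟨9,[(8,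
  0),(0,0),(3,9),(11,1),(4,4)]⟩⟩,[]⟩)) (.I [1,1,1,0,-1,0,0,1] (.Q [0,0,0,0,0,0,-1,0,0,0,-1] (.p
  false [0,0,1] [] (⟨0,[(18,0)]⟩,⟨0,[(17,0)]⟩) .k 0 (⟨0,[]⟩,⟨0,[]⟩) .k .k) (.R ⟨2,true,false,false,
  [0,1],[0,0,1],[0,0,1],(⟨0,[]⟩,⟨0,[]⟩),(⟨0,[(19,0)]⟩,⟨0,[(18,0)]⟩),⟨0,[]⟩,.k,.k,.k,.k,.k,.k,⟨false,
  1,⟨1,[(15,1),(0,1),(13,0),(0,0)]⟩,⟨3,[(1,2),(0,0),(0,2),(23,1),(3,1)]⟩⟩,⟨true,0,⟨0,[(16,0)]⟩,⟨0,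
  [(0,0)]⟩⟩,⟨true,0,⟨0,[(29,0)]⟩,⟨4,[(4,1),(20,0),(1,0)]⟩⟩,⟨false,0,⟨0,[(1,0),(1,0),(12,0),(14,0)]⟩,
  ⟨3,[(4,1),(10,3),(14,0),(0,2)]⟩⟩,⟨false,1,⟨1,[(9,0),(0,0),(20,0)]⟩,⟨0,[]⟩⟩,⟨true,0,⟨3,[(1,2),(1,
  1),(10,0),(1,2),(10,1),(3,2)]⟩,⟨0,[(15,0)]⟩⟩,[]⟩) (.K ⟨0,[0,1,1],0,0,(⟨0,[(19,0),(1,0)]⟩,⟨0,[(7,
  0)]⟩),.k,.k,(.r 0 ⟨0,[(1,0),(2,0),(26,0)]⟩ ⟨1,[(3,1),(11,1),(0,1),(12,1),(0,0),(0,0)]⟩),.k,.k,[⟨1,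
  [(16,0),(0,0)]⟩,⟨0,[(0,0)]⟩,⟨0,[(15,0),(13,0)]⟩,⟨2,[(0,1),(0,0),(0,0),(11,0),(12,1)]⟩]⟩)) (.Q [0,
  0,0,1,0,0,-1,-1,0,0,-1] (.p false [0,0,1] [] (⟨0,[(18,0)]⟩,⟨0,[(17,0)]⟩) .k 0 (⟨0,[]⟩,⟨0,[]⟩) .k
  .k) (.I [0,1,0,-1,-1,0,0,-1] (.R ⟨2,true,false,true,[0,1],[1,0,-1],[1,0,1,1],(⟨0,[]⟩,⟨0,[]⟩),(⟨0,
  [(19,0)]⟩,⟨0,[(20,0)]⟩),⟨0,[]⟩,.k,.k,.k,.k,.k,.k,⟨true,1,⟨0,[(3,0)]⟩,⟨0,[(0,0)]⟩⟩,⟨false,0,⟨1,[(7,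
  0),(6,0),(2,0)]⟩,⟨4,[(2,1),(1,1),(10,1),(1,2),(9,0),(0,1),(3,0)]⟩⟩,⟨true,0,⟨0,[]⟩,⟨0,[(34,0)]⟩⟩,
  ⟨false,(-1),⟨0,[(1,0),(4,0)]⟩,⟨4,[(2,0),(0,0),(1,1),(9,4),(11,0),(3,0),(0,4)]⟩⟩,⟨false,1,⟨3,[(5,
  1),(25,0),(0,2)]⟩,⟨0,[(30,0)]⟩⟩,⟨true,(-1),⟨1,[(0,0),(0,0),(3,0),(0,0),(7,0)]⟩,⟨9,[(2,0),(0,0),
  (11,9),(11,1),(2,0),(1,3)]⟩⟩,[]⟩) (.R ⟨2,true,false,true,[0,1],[1,1,-1],[0,1,1],(⟨0,[]⟩,⟨0,[]⟩),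
  (⟨0,[(19,0),(2,0)]⟩,⟨0,[(9,0)]⟩),⟨0,[]⟩,.k,.k,.k,.k,.k,.k,⟨true,0,⟨6,[(0,5),(4,1),(0,9),(8,0),(2,
  0),(8,1),(0,2)]⟩,⟨0,[(1,0),(15,0)]⟩⟩,⟨false,0,⟨0,[(14,0)]⟩,⟨9,[(2,4),(7,0),(0,0),(3,4),(1,4),(9,
  1)]⟩⟩,⟨false,0,⟨0,[(30,0)]⟩,⟨2,[(0,0),(1,0),(2,0),(26,0)]⟩⟩,⟨true,(-1),⟨4,[(1,3),(3,1),(0,4),(9,
  0),(11,1)]⟩,⟨9,[(2,0),(0,0),(11,9),(11,1),(2,0),(1,3)]⟩⟩,⟨true,0,⟨0,[(34,0)]⟩,⟨0,[]⟩⟩,⟨false,0,⟨0,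
  [(1,0),(12,0),(2,0)]⟩,⟨2,[(0,1),(3,0),(1,1),(8,0),(1,1),(9,0),(4,0)]⟩⟩,[]⟩)) (.I [0,1,-1,-2,-1,0,
  0,-1] (.Q [0,0,0,0,0,0,-1,0,0,0,-1] (.p false [0,0,1] [] (⟨0,[(20,0)]⟩,⟨0,[(19,0)]⟩) .k 0 (⟨0,[]⟩,
  ⟨0,[]⟩) .k .k) (.R ⟨2,true,false,true,[0,1],[0,0,1],[0,0,1],(⟨0,[]⟩,⟨0,[]⟩),(⟨0,[(21,0)]⟩,⟨0,[(20,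
  0)]⟩),⟨0,[]⟩,.k,.k,.k,.k,.k,.k,⟨false,1,⟨1,[(3,1),(14,0),(0,0)]⟩,⟨0,[(0,0),(1,0),(26,0)]⟩⟩,⟨true,
  0,⟨0,[(18,0)]⟩,⟨0,[(0,0)]⟩⟩,⟨true,0,⟨0,[(31,0)]⟩,⟨4,[(6,1),(20,0),(1,0)]⟩⟩,⟨false,0,⟨0,[(2,0)]⟩,
  ⟨1,[(0,1),(0,0),(1,0),(2,1),(26,1)]⟩⟩,⟨false,1,⟨1,[(3,0),(0,0),(26,0)]⟩,⟨0,[]⟩⟩,⟨true,0,⟨0,[(16,
  0)]⟩,⟨0,[(0,0),(0,0),(4,0),(26,0)]⟩⟩,[]⟩) (.I [0,-1,0,-1,0,0,0,-1] (.S ⟨1,0,[0,0,1,0,0,0,0,1],[0,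
  1,1],[0,1,1,0,0,0,0,1],(⟨0,[(22,0),(1,0)]⟩,⟨0,[(10,0)]⟩),⟨0,[(22,0)]⟩,.k,.k,⟨false,0,⟨0,[(32,0)]⟩,
  ⟨3,[(7,1),(25,0),(0,2)]⟩⟩,⟨true,0,⟨0,[(32,0)]⟩,⟨4,[(7,1),(20,0),(1,0)]⟩⟩,⟨true,0,⟨0,[(36,0)]⟩,⟨0,
  []⟩⟩,⟨false,1,⟨1,[(4,0),(0,0),(26,0)]⟩,⟨0,[]⟩⟩,[.o ⟨false,1,⟨4,[(3,0),(0,0),(0,0),(11,3),(11,0),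
  (4,0)]⟩,⟨0,[(0,0),(19,0),(9,0)]⟩⟩,.e ⟨false,1,⟨39,[(3,19),(1,19),(3,9),(2,10),(0,10),(14,9),(0,1),
  (3,4)]⟩,⟨0,[(0,0),(29,0)]⟩⟩ ⟨false,1,⟨23,[(3,9),(1,13),(0,3),(2,4),(19,0),(3,2),(0,4)]⟩,⟨9,[(2,4),
  (1,4),(2,3),(20,1),(1,1)]⟩⟩,.o ⟨false,1,⟨4,[(1,3),(2,0),(12,0),(11,0),(3,1)]⟩,⟨0,[(20,0)]⟩⟩,.a
  ⟨true,0,⟨0,[(1,0)]⟩,⟨1,[(9,0),(6,0),(2,0)]⟩⟩ ⟨true,0,⟨0,[(3,0),(16,0),(9,0)]⟩,⟨3,[(0,1),(1,0),(1,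
  0),(2,1)]⟩⟩ ⟨false,1,⟨23,[(3,9),(1,13),(0,3),(2,4),(19,0),(3,2),(0,4)]⟩,⟨3,[(0,1),(1,0),(1,0),(2,
  1)]⟩⟩]⟩) (.K ⟨0,[0,1,1],0,0,(⟨0,[(22,0),(1,0)]⟩,⟨0,[(10,0)]⟩),.k,.k,(.r (-1) ⟨3,[(5,3),(1,1),(11,
  0),(0,0),(15,1)]⟩ ⟨1,[(2,0),(1,0),(1,0),(25,0)]⟩),.k,.k,[⟨1,[(19,0),(0,0)]⟩,⟨0,[(1,0)]⟩,⟨0,[(18,
  0),(13,0)]⟩,⟨0,[(0,0),(0,0)]⟩]⟩))) (.Q [0,0,0,0,0,0,-1,0,0,0,-1] (.p false [0,0,1] [] (⟨0,[(20,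
  0)]⟩,⟨0,[(19,0)]⟩) .k 0 (⟨0,[]⟩,⟨0,[]⟩) .k .k) (.I [1,1,0,1,0,0,0,-1] (.S ⟨1,0,[0,1,0,-1,0,0,0,1],
  [0,0,1],[0,0,0,-1,0,0,0,1],(⟨0,[(22,0)]⟩,⟨0,[(21,0)]⟩),⟨0,[(11,0)]⟩,.k,.k,⟨true,0,⟨0,[(32,0)]⟩,⟨4,
  [(7,1),(20,0),(1,0)]⟩⟩,⟨false,0,⟨0,[(32,0)]⟩,⟨1,[(2,0),(1,0)]⟩⟩,⟨false,1,⟨1,[(4,0),(0,0),(26,0)]⟩,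
  ⟨0,[]⟩⟩,⟨true,0,⟨0,[(36,0)]⟩,⟨0,[]⟩⟩,[.o ⟨false,0,⟨2,[(3,1),(3,0),(0,1),(8,0),(11,0),(0,0)]⟩,⟨0,
  [(0,0),(0,0),(32,0)]⟩⟩,.e ⟨false,1,⟨11,[(3,9),(1,1),(0,3),(2,4),(19,0),(3,2),(0,4)]⟩,⟨0,[(0,0)]⟩⟩
  ⟨false,0,⟨3,[(1,0),(0,2),(0,0),(2,1),(1,4),(20,0),(0,2)]⟩,⟨11,[(0,6),(3,6),(0,4),(12,2),(0,2),(8,
  0)]⟩⟩,.o ⟨false,1,⟨9,[(4,4),(7,0),(0,0),(3,4),(1,4),(9,1)]⟩,⟨0,[(1,0)]⟩⟩,.a ⟨true,0,⟨0,[(19,0)]⟩,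
  ⟨0,[(16,0)]⟩⟩ ⟨true,0,⟨3,[(1,0),(0,2),(0,0),(2,1),(1,4),(20,0),(0,2)]⟩,⟨1,[(0,1),(18,0),(0,0)]⟩⟩
  ⟨false,0,⟨3,[(1,0),(0,2),(0,0),(2,1),(1,4),(20,0),(0,2)]⟩,⟨1,[(0,1),(18,0),(0,0),(13,1)]⟩⟩]⟩) (.S
  ⟨1,0,[0,1,1,0,0,0,0,-1],[1,1,-1],[0,0,1,0,0,0,0,-1],(⟨0,[(21,0),(2,0)]⟩,⟨0,[(11,0)]⟩),⟨0,[(21,
  0)]⟩,.k,.k,⟨true,0,⟨0,[(32,0)]⟩,⟨4,[(7,1),(20,0),(1,0)]⟩⟩,⟨false,0,⟨0,[(32,0)]⟩,⟨1,[(2,0),(1,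
  0)]⟩⟩,⟨false,1,⟨1,[(4,0),(0,0),(26,0)]⟩,⟨0,[]⟩⟩,⟨true,0,⟨0,[(36,0)]⟩,⟨0,[]⟩⟩,[.o ⟨false,0,⟨0,[(18,
  0)]⟩,⟨4,[(0,1),(1,2),(3,3),(12,4),(9,0)]⟩⟩,.e ⟨false,1,⟨1,[(4,1),(14,0),(0,0)]⟩,⟨2,[(0,1),(0,0),
  (15,0),(10,0),(1,1)]⟩⟩ ⟨false,1,⟨1,[(4,0),(7,0),(0,0),(4,0),(0,0)]⟩,⟨0,[(0,0),(29,0)]⟩⟩,.a ⟨true,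
  0,⟨0,[(16,0)]⟩,⟨0,[(19,0)]⟩⟩ ⟨false,1,⟨0,[(4,0),(14,0),(0,0)]⟩,⟨0,[(0,0),(29,0)]⟩⟩ ⟨true,0,⟨0,
  [(18,0),(0,0)]⟩,⟨0,[(0,0),(29,0)]⟩⟩,.o ⟨false,0,⟨0,[(1,0)]⟩,⟨9,[(4,4),(7,0),(0,0),(3,4),(1,4),(9,
  1)]⟩⟩]⟩)) (.K ⟨0,[0,1,1],0,0,(⟨0,[(21,0),(1,0)]⟩,⟨0,[(9,0)]⟩),.k,.k,(.x (-1) ⟨52,[(0,52),(0,9),(1,
  9),(1,39),(3,74),(0,21),(11,8),(5,14),(0,19),(2,2)]⟩ ⟨1,[(18,0),(0,2),(1,1),(1,3)]⟩),.k,.k,[⟨1,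
  [(18,0),(0,0)]⟩,⟨0,[(0,0)]⟩,⟨0,[(17,0),(13,0)]⟩,⟨3,[(0,2),(0,2),(0,0),(3,1),(0,4),(20,0),(0,
  4)]⟩]⟩))))))))

theorem ok41 : chk K t41 r0 = true := by decide +kernel


end Helper25.S1T.Ymp_1cP2
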