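import Pool.Agent.Helper25.S1T.Ymp_1cP2_p0
import Pool.Agent.Helper25.S1T.Ymp_1cP2_p1

set_option autoImplicit false
set_option linter.all false

namespace Helper25.S1T.Ymp_1cP2

open Helper25.KG Helper25.KW Helper55.KE Helper11.CT

noncomputable def t7 : Tre :=
  .Q [0,-1,0,-1,0,0,-1,-1,0,1,-1] (.p false [0,0,1] [1] (⟨0,[(25,0)]⟩,⟨0,[(24,0)]⟩) .k 1 (⟨0,[]⟩,⟨0,
  []⟩) .k .k) t5 t6

theorem ok7 : chk K t7 r11 = true :=
  chk_Q (e' := [0,1,0,1,0,0,1,1,0,-1,1]) (by decide +kernel) (by decide +kernel) ok5 ok6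

noncomputable def t8 : Tre :=
  .I [0,-1,1,0,0,0,0,1] t4 t7

theorem ok8 : chk K t8 l10 = true :=
  chk_I (e' := [1,1,-1,0,0,0,0,-1]) (by decide +kernel) (by decide +kernel) ok4 ok7

noncomputable def t10 : Tre :=
  .Q [0,1,0,0,0,0,1,1,0,-1,1] (.p true [0,0,1] [1] (⟨0,[(23,0)]⟩,⟨0,[(22,0)]⟩) .k 1 (⟨0,[]⟩,⟨0,[]⟩)
  .k .k) t8 t9

theorem ok10 : chk K t10 r9 = true :=
  chk_Q (e' := [0,-1,0,0,0,0,-1,-1,0,1,-1]) (by decide +kernel) (by decide +kernel) ok8 ok9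

noncomputable def t11 : Tre :=
  .Q [0,0,0,0,0,0,-1,-1,0,0,-1] (.p false [0,0,1] [] (⟨0,[(22,0)]⟩,⟨0,[(21,0)]⟩) .k 0 (⟨0,[]⟩,⟨0,
  []⟩) .k .k) t3 t10

theorem ok11 : chk K t11 l8 = true :=
  chk_Q (e' := [0,0,0,0,0,0,1,1,0,0,1]) (by decide +kernel) (by decide +kernel) ok3 ok10

noncomputable def t13 : Tre :=
  .I [0,0,0,-1,0,0,0,1] t11 t12

theorem ok13 : chk K t13 r7 = true :=
  chk_I (e' := [1,0,0,1,0,0,0,-1]) (by decide +kernel) (by decide +kernel) ok11 ok12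

noncomputable def t14 : Tre :=
  .I [1,0,-1,-1,0,0,0,1] t2 t13

theorem ok14 : chk K t14 l6 = true :=
  chk_I (e' := [0,0,1,1,0,0,0,-1]) (by decide +kernel) (by decide +kernel) ok2 ok13

noncomputable def t16 : Tre :=
  .Q [0,-1,0,0,1,0,1,1,0,-1,1] (.p true [0,0,1] [1] (⟨0,[(19,0)]⟩,⟨0,[(18,0)]⟩) .k 1 (⟨0,[]⟩,⟨0,
  []⟩) .k .k) t14 t15

theorem ok16 : chk K t16 l5 = true :=
  chk_Q (e' := [0,1,0,0,-1,0,-1,-1,0,1,-1]) (by decide +kernel) (by decide +kernel) ok14 ok15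

noncomputable def t18 : Tre :=
  .I [0,0,1,0,0,0,0,1] t16 t17

theorem ok18 : chk K t18 r4 = true :=
  chk_I (e' := [1,0,-1,0,0,0,0,-1]) (by decide +kernel) (by decide +kernel) ok16 ok17

noncomputable def t19 : Tre :=
  .I [0,0,-1,-1,0,0,0,1] t1 t18

theorem ok19 : chk K t19 l3 = true :=
  chk_I (e' := [1,0,1,1,0,0,0,-1]) (by decide +kernel) (by decide +kernel) ok1 ok18

noncomputable def t21 : Tre :=
  .Q [0,0,0,0,0,0,-1,0,0,0,-1] (.p false [0,0,1] [] (⟨0,[(16,0)]⟩,⟨0,[(15,0)]⟩) .k 0 (⟨0,[]⟩,⟨0,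
  []⟩) .k .k) t19 t20

theorem ok21 : chk K t21 l2 = true :=
  chk_Q (e' := [0,0,0,0,0,0,1,0,0,0,1]) (by decide +kernel) (by decide +kernel) ok19 ok20

noncomputable def t30 : Tre :=
  .Q [0,0,0,2,1,0,1,1,0,-1,1] (.p true [0,0,1] [1] (⟨0,[(23,0)]⟩,⟨0,[(22,0)]⟩) .k 1 (⟨0,[]⟩,⟨0,[]⟩)
  .k .k) t28 t29

theorem ok30 : chk K t30 r19 = true :=
  chk_Q (e' := [0,0,0,-2,-1,0,-1,-1,0,1,-1]) (by decide +kernel) (by decide +kernel) ok28 ok29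

noncomputable def t31 : Tre :=
  .Q [0,-1,0,-2,0,0,1,1,0,0,1] (.p true [0,0,1] [] (⟨0,[(22,0)]⟩,⟨0,[(21,0)]⟩) .k 0 (⟨0,[]⟩,⟨0,[]⟩)
  .k .k) t27 t30

theorem ok31 : chk K t31 r18 = true :=
  chk_Q (e' := [0,1,0,2,0,0,-1,-1,0,0,-1]) (by decide +kernel) (by decide +kernel) ok27 ok30

noncomputable def t32 : Tre :=
  .Q [0,-1,0,-1,0,0,1,1,0,0,1] (.p true [0,0,1] [] (⟨0,[(21,0)]⟩,⟨0,[(20,0)]⟩) .k 0 (⟨0,[]⟩,⟨0,[]⟩)
  .k .k) t26 t31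

theorem ok32 : chk K t32 r17 = true :=
  chk_Q (e' := [0,1,0,1,0,0,-1,-1,0,0,-1]) (by decide +kernel) (by decide +kernel) ok26 ok31

noncomputable def t33 : Tre :=
  .Q [0,1,0,-1,-1,0,-1,-1,0,0,-1] (.p false [0,0,1] [] (⟨0,[(20,0)]⟩,⟨0,[(19,0)]⟩) .k 0 (⟨0,[]⟩,⟨0,
  []⟩) .k .k) t25 t32

theorem ok33 : chk K t33 r16 = true :=
  chk_Q (e' := [0,-1,0,1,1,0,1,1,0,0,1]) (by decide +kernel) (by decide +kernel) ok25 ok32

noncomputable def t34 : Tre :=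
  .I [0,-1,-2,-2,1] t24 t33

theorem ok34 : chk K t34 r15 = true :=
  chk_I (e' := [1,1,2,2,-1]) (by decide +kernel) (by decide +kernel) ok24 ok33

noncomputable def t35 : Tre :=
  .Q [0,-1,0,1,1,0,0,0,0,-1] (.pp true [-1,1]) t23 t34

theorem ok35 : chk K t35 r14 = true :=
  chk_Q (e' := [0,1,0,-1,-1,0,0,0,0,1]) (by decide +kernel) (by decide +kernel) ok23 ok34

noncomputable def t36 : Tre :=
  .Q [0,-1,0,2,1,0,0,0,0,-1] (.pp true [-1,1]) t22 t35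

theorem ok36 : chk K t36 l13 = true :=
  chk_Q (e' := [0,1,0,-2,-1,0,0,0,0,1]) (by decide +kernel) (by decide +kernel) ok22 ok35

noncomputable def t38 : Tre :=
  .I [0,1,2,1,-1] t36 t37

theorem ok38 : chk K t38 r2 = true :=
  chk_I (e' := [1,-1,-2,-1,1]) (by decide +kernel) (by decide +kernel) ok36 ok37

noncomputable def t39 : Tre :=
  .Q [0,0,-1,0,1,0,1,0,0,-1,1] (.p true [0,0,1] [1] (⟨0,[(15,0)]⟩,⟨0,[(14,0)]⟩) .k 1 (⟨0,[]⟩,⟨0,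
  []⟩) .k .k) t21 t38

theorem ok39 : chk K t39 r1 = true :=
  chk_Q (e' := [0,0,1,0,-1,0,-1,0,0,1,-1]) (by decide +kernel) (by decide +kernel) ok21 ok38

noncomputable def t40 : Tre :=
  .I [1,-1,-1,-1,0,0,0,1] t0 t39

theorem ok40 : chk K t40 l0 = true :=
  chk_I (e' := [0,1,1,1,0,0,0,-1]) (by decide +kernel) (by decide +kernel) ok0 ok39

noncomputable def t42 : Tre :=
  .Q [0,0,0,2,1,0,0,0,0,-1] (.pp true [-1,1]) t40 t41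

theorem ok42 : chk K t42 base = true :=
  chk_Q (e' := [0,0,0,-2,-1,0,0,0,0,1]) (by decide +kernel) (by decide +kernel) ok40 ok41

theorem closed {p a b c J l q : ℤ} {D dl : ℝ} {Cl : ℤ → ℤ → ℤ → ℤ → ℝ → Prop}
    (W : World p a b c J 1 l q D dl Cl) (g : G0 p a b c J D)
    {N X R : ℤ} {I : ℝ} (hk : KCl p l Cl N X R I) (kz : KF a b D (X + (1 : ℤ) * I) (X + (1 : ℤ) * I + R) I)
    {Ne Xe : ℤ} {Ie : ℝ} (he : EFac p 1 D Cl (a) Ne Xe Ie)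
    (hkf : ∀ kf ∈ (kfY 1 [0,0,0,0,0,0,1,0,0,0,1]), KOk p l Cl 1
      (xv [1, a, b, c, p, J, X, R, Xe] [D, I, Ie]) N kf)
    (h0 : 1 ≤ -(c : ℝ))
    (h1 : 1 ≤ (a : ℝ) - (b : ℝ) + (c : ℝ))
    (h2 : 0 < 1 + 2 * (p : ℝ) - 5 * D)
    (h3 : 1 ≤ 2 * (a : ℝ) - (b : ℝ))
    (h4 : 1 ≤ -1 + (J : ℝ))
    (h5 : 1 ≤ 3 - (J : ℝ))
    (h6 : 0 < -(b : ℝ) - (X : ℝ) + D - I)
    (h7 : 0 < -(J : ℝ) + I)
    (h8 : 0 < -(J : ℝ) + D - I)
    (h9 : 0 < -2 * (X : ℝ) + D - 2 * I) : False := by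
  have g1 := g.a2
  have g2 := g.b2
  have g3 := g.pa
  have g4 := g.pb
  have g5 := g.J1
  have g6 := g.JD
  have g7 := g.D2
  have g8 := g.ca
  have g9 := g.ca'
  have k1 := kz.I0
  have k2 := kz.ID
  have k3 := kz.z1
  have k4 := kz.z2
  have k5 := kz.s1
  have k6 := kz.s2
  have e1 := he.I0
  have e2 := he.ID
  have e3 := he.x0
  have e4 := he.xp
  push_cast at *
  refine (val_E W.toBase hk he (row := [0,1]) (by simp) (by simp) (kfY 1 [0,0,0,0,0,0,1,0,0,0,1])).sound W rfl (Nk := N)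
    (fun kf _ _ => ⟨_, rfl⟩) hkf ?_ ok42
  · simp only [base, List.forall_mem_cons, List.not_mem_nil, false_imp_iff, implies_true,
      and_true, hld, xv, evg_cons, evg_nil, List.map_cons, List.map_nil, List.cons_append,
      List.nil_append, if_true, if_false, Bool.false_eq_true]
    push_cast
    refine ⟨?_, ?_, ?_, ?_, ?_, ?_, ?_, ?_, ?_, ?_, ?_, ?_, ?_, ?_, ?_, ?_, ?_, ?_, ?_, ?_, ?_, ?_, ?_, ?_, ?_, ?_, ?_, ?_⟩ <;> linarith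

end Helper25.S1T.Ymp_1cP2
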