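import Pool.Agent.Helper25.S1T.Ymp_1cP2_q

set_option autoImplicit false
set_option linter.all false

namespace Helper25.S1T.Ymp_1cP2

open Helper25.KG Helper25.KW Helper55.KE Helper11.CT

noncomputable def t0 : Tre :=
  (.Q [0,0,0,0,0,0,-1,0,0,0,-1] (.p false [0,0,1] [] (⟨0,[(15,0)]⟩,⟨0,[(14,0)]⟩) .k 0 (⟨0,[]⟩,⟨0,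
  []⟩) .k .k) (.R ⟨2,true,false,false,[0,1],[0,0,1],[0,0,1],(⟨0,[]⟩,⟨0,[]⟩),(⟨0,[(16,0)]⟩,⟨0,[(15,
  0)]⟩),⟨0,[]⟩,.k,.k,.k,.k,.k,.k,⟨false,1,⟨1,[(12,1),(0,1),(13,0),(0,0)]⟩,⟨0,[(1,0),(23,0)]⟩⟩,⟨true,
  0,⟨0,[(13,0)]⟩,⟨0,[(0,0)]⟩⟩,⟨true,0,⟨0,[(26,0)]⟩,⟨0,[(25,0)]⟩⟩,⟨false,0,⟨0,[(1,0),(11,0)]⟩,⟨0,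
  [(12,0),(12,0),(2,0)]⟩⟩,⟨false,1,⟨1,[(6,0),(0,0),(20,0)]⟩,⟨0,[]⟩⟩,⟨true,0,⟨0,[(1,0),(11,0),(11,
  0)]⟩,⟨0,[(12,0)]⟩⟩,[]⟩) (.K ⟨0,[0,1,1],0,0,(⟨0,[(16,0),(1,0)]⟩,⟨0,[(4,0)]⟩),.k,.k,(.x (-1) ⟨20,
  [(0,40),(0,19),(2,24),(0,3),(6,19),(4,12),(5,4),(0,19),(2,0),(0,9)]⟩ ⟨1,[(13,0),(0,2),(1,1),(1,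
  3)]⟩),.k,.k,[⟨1,[(13,0),(0,0)]⟩,⟨0,[(0,0)]⟩,⟨0,[(12,0),(13,0)]⟩,⟨0,[(1,0),(11,0),(11,1)]⟩]⟩))

theorem ok0 : chk K t0 l1 = true := by decide +kernel

noncomputable def t1 : Tre :=
  (.Q [0,1,0,1,0,0,-1,-1,0,0,-1] (.p false [0,0,1] [] (⟨0,[(18,0)]⟩,⟨0,[(17,0)]⟩) .k 0 (⟨0,[]⟩,⟨0,
  []⟩) .k .k) (.I [1,-1,0,1,1,0,0,-1] (.S ⟨1,0,[0,0,0,-1,0,0,0,1],[0,0,1],[0,1,0,-1,0,0,0,1],(⟨0,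
  [(20,0)]⟩,⟨0,[(19,0)]⟩),⟨0,[(9,0)]⟩,.k,.k,⟨false,0,⟨0,[(30,0)]⟩,⟨0,[(29,0),(2,0)]⟩⟩,⟨true,0,⟨0,
  [(30,0)]⟩,⟨0,[(29,0)]⟩⟩,⟨true,0,⟨0,[(34,0)]⟩,⟨0,[]⟩⟩,⟨false,1,⟨1,[(10,0),(0,0),(20,0)]⟩,⟨0,[]⟩⟩,
  [.e ⟨false,0,⟨4,[(2,3),(12,0),(2,0),(7,1),(3,0)]⟩,⟨0,[(0,0)]⟩⟩ ⟨false,0,⟨0,[(2,0)]⟩,⟨3,[(0,2),(4,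
  0),(4,0),(0,0),(14,0)]⟩⟩,.o ⟨false,1,⟨4,[(2,3),(12,0),(1,3),(9,0),(2,0),(1,2)]⟩,⟨0,[(1,0)]⟩⟩,.o
  ⟨false,1,⟨49,[(4,24),(5,13),(0,13),(5,24),(9,4),(4,0),(1,1)]⟩,⟨0,[(3,0)]⟩⟩,.a ⟨true,0,⟨0,[(17,
  0)]⟩,⟨0,[(14,0)]⟩⟩ ⟨false,0,⟨0,[(2,0)]⟩,⟨0,[(5,0),(26,0)]⟩⟩ ⟨true,0,⟨0,[(2,0)]⟩,⟨0,[(5,0)]⟩⟩]⟩)
  (.Q [0,0,0,-1,0,0,1,1,0,-1,1] (.p true [0,0,1] [1] (⟨0,[(20,0)]⟩,⟨0,[(19,0)]⟩) .k 1 (⟨0,[]⟩,⟨0,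
  []⟩) .k .k) (.S ⟨1,0,[0,0,0,-1,0,0,0,1],[0,0,1],[1,1,0,0,0,0,0,1],(⟨0,[(21,0)]⟩,⟨0,[(20,0)]⟩),⟨0,
  [(10,0)]⟩,.k,.k,⟨false,0,⟨0,[]⟩,⟨1,[(11,0),(0,0),(20,0)]⟩⟩,⟨true,0,⟨0,[(31,0)]⟩,⟨0,[(30,0)]⟩⟩,
  ⟨true,0,⟨0,[(30,0)]⟩,⟨0,[(31,0)]⟩⟩,⟨false,1,⟨1,[(11,0),(0,0),(20,0)]⟩,⟨0,[]⟩⟩,[.o ⟨false,0,⟨0,[(0,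
  0)]⟩,⟨13,[(2,3),(3,9),(1,4),(19,0),(3,4),(0,6)]⟩⟩,.o ⟨false,1,⟨8,[(0,3),(15,4),(11,0),(2,4),(1,
  6)]⟩,⟨0,[(2,0)]⟩⟩,.o ⟨false,1,⟨49,[(5,24),(5,13),(0,13),(5,24),(9,4),(4,0),(1,1)]⟩,⟨0,[(4,0)]⟩⟩,
  .a ⟨true,0,⟨0,[(18,0)]⟩,⟨0,[(15,0)]⟩⟩ ⟨false,0,⟨0,[(1,0),(27,0),(3,0)]⟩,⟨0,[(6,0),(24,0),(1,0)]⟩⟩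
  ⟨true,0,⟨0,[(3,0)]⟩,⟨0,[(6,0)]⟩⟩]⟩) (.I [0,-1,0,0,1,0,0,-1] (.S ⟨1,0,[0,0,0,-1,0,0,0,1],[0,0,1],
  [1,1,0,0,0,0,0,1],(⟨0,[(22,0)]⟩,⟨0,[(21,0)]⟩),⟨0,[(11,0)]⟩,.k,.k,⟨false,0,⟨0,[]⟩,⟨1,[(12,0),(0,0),
  (20,0)]⟩⟩,⟨true,0,⟨0,[(32,0)]⟩,⟨0,[(31,0)]⟩⟩,⟨true,0,⟨0,[(31,0)]⟩,⟨0,[(32,0)]⟩⟩,⟨false,1,⟨1,[(12,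
  0),(0,0),(20,0)]⟩,⟨0,[]⟩⟩,[.e ⟨false,0,⟨35,[(2,3),(1,17),(3,1),(0,6),(7,13),(11,0),(0,17)]⟩,⟨0,
  [(0,0)]⟩⟩ ⟨false,0,⟨0,[(4,0)]⟩,⟨4,[(0,2),(0,0),(5,1),(0,0),(8,0),(15,0)]⟩⟩,.o ⟨false,1,⟨4,[(4,3),
  (12,0),(1,3),(9,0),(2,0),(1,2)]⟩,⟨0,[(3,0)]⟩⟩,.o ⟨false,1,⟨6,[(0,2),(5,1),(10,2),(1,1),(9,0)]⟩,⟨0,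
  [(5,0)]⟩⟩,.a ⟨true,0,⟨0,[(19,0)]⟩,⟨0,[(16,0)]⟩⟩ ⟨false,0,⟨0,[(2,0),(27,0),(3,0)]⟩,⟨1,[(0,1),(18,
  0),(0,0)]⟩⟩ ⟨true,0,⟨0,[(4,0)]⟩,⟨0,[(7,0)]⟩⟩]⟩) (.I [0,-1,0,-1,1,0,0,-1] (.S ⟨1,0,[0,0,1,0,0,0,0,
  1],[0,1,1],[1,1,1,1,0,0,0,1],(⟨0,[(23,0),(1,0)]⟩,⟨0,[(11,0)]⟩),⟨0,[(23,0)]⟩,.k,.k,⟨false,0,⟨0,[]⟩,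
  ⟨5,[(0,1),(8,0),(0,0),(7,1),(16,2)]⟩⟩,⟨true,0,⟨0,[(33,0)]⟩,⟨0,[(32,0)]⟩⟩,⟨true,0,⟨0,[(32,0)]⟩,⟨0,
  [(33,0)]⟩⟩,⟨false,1,⟨5,[(0,1),(8,0),(0,0),(7,1),(16,2)]⟩,⟨0,[]⟩⟩,[.a ⟨true,0,⟨1,[(1,0),(3,0),(14,
  1),(10,0),(3,0)]⟩,⟨1,[(0,0),(1,1),(0,0)]⟩⟩ ⟨true,(-1),⟨7,[(1,13),(0,5),(6,0),(10,6),(0,0),(8,0),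
  (4,2)]⟩,⟨0,[(0,0)]⟩⟩ ⟨false,0,⟨23,[(1,13),(8,4),(7,9),(11,0),(4,11)]⟩,⟨0,[(0,0),(30,0)]⟩⟩,.o
  ⟨false,1,⟨6,[(1,3),(5,1),(10,2),(1,1),(9,0),(4,6)]⟩,⟨0,[(19,0)]⟩⟩,.o ⟨false,1,⟨0,[(7,0)]⟩,⟨0,[(21,
  0)]⟩⟩,.o ⟨false,1,⟨19,[(0,5),(6,6),(1,2),(8,5),(1,6),(9,1)]⟩,⟨0,[(6,0)]⟩⟩]⟩) (.Q [0,0,-2,0,1,0,0,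
  0,0,-1] (.pp true [-1,1]) (.I [0,-1,2,1] (.R ⟨1,false,false,false,[1,-1],[0,0,1],[1,1,-1,-1],(⟨0,
  [(29,0)]⟩,⟨0,[(30,0)]⟩),(⟨0,[(25,0)]⟩,⟨0,[(24,0)]⟩),⟨0,[(13,0),(0,0)]⟩,.k,.k,(.r (-1) ⟨0,[(35,1),
  (0,0)]⟩ ⟨0,[(0,0),(33,0)]⟩),.k,(.r (-2) ⟨1,[(10,1),(24,5),(0,2),(0,0)]⟩ ⟨0,[(0,0),(1,0)]⟩),.k,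
  ⟨false,1,⟨0,[(4,0),(4,0),(23,0),(1,2)]⟩,⟨17,[(0,11),(1,9),(4,5),(3,0),(0,0),(7,1),(16,8)]⟩⟩,⟨true,
  1,⟨0,[(9,0)]⟩,⟨0,[(0,0),(3,0),(0,0),(29,0)]⟩⟩,⟨false,0,⟨0,[]⟩,⟨1,[(15,0),(0,0),(20,0)]⟩⟩,⟨false,1,
  ⟨43,[(0,13),(1,27),(6,27),(1,0),(8,15),(11,2),(4,36)]⟩,⟨0,[(4,0),(30,1)]⟩⟩,⟨true,0,⟨0,[(34,0)]⟩,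
  ⟨0,[(35,0)]⟩⟩,⟨false,1,⟨1,[(2,1),(6,0),(1,0),(10,0),(14,1)]⟩,⟨0,[(4,0),(30,2)]⟩⟩,[.a ⟨true,0,⟨3,
  [(2,1),(4,1),(14,3),(13,0),(0,0)]⟩,⟨0,[(4,0),(30,0)]⟩⟩ ⟨true,0,⟨0,[(33,0),(1,1)]⟩,⟨0,[(0,0)]⟩⟩
  ⟨false,1,⟨3,[(2,1),(4,1),(1,3),(26,0),(0,0)]⟩,⟨1,[(4,1),(17,0),(0,0),(11,1)]⟩⟩,.o ⟨false,1,⟨5,[(2,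
  1),(4,1),(1,0),(10,1),(1,2),(9,0),(4,4)]⟩,⟨0,[(21,0)]⟩⟩,.o ⟨false,0,⟨1,[(22,0),(0,0)]⟩,⟨9,[(15,0),
  (0,0),(15,1),(3,4)]⟩⟩,.o ⟨false,0,⟨0,[(22,0),(0,0)]⟩,⟨0,[(1,0)]⟩⟩]⟩) (.Q [0,-2,0,1,1,0,-1,-1,-1,1,
  -1,-1] (.p false [0,0,1] [1,0,0,0,-1] (⟨0,[(25,0)]⟩,⟨0,[(24,0)]⟩) .k 2 (⟨0,[(17,0)]⟩,⟨0,[(18,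
  0)]⟩) .k (.r 1 ⟨1,[(2,0),(2,0)]⟩ ⟨1,[(10,1),(4,0),(0,0),(18,1),(0,0),(0,1)]⟩)) (.Q [0,0,0,0,0,-1,
  0,0,0,0,0,1] (.ed false [1,-1,0,0,1] .k) (.S ⟨1,0,[0,-1,1],[1,1,0,0,-1],[1,0,1,1],(⟨0,[(19,0),(9,
  0)]⟩,⟨0,[(0,0)]⟩),⟨0,[(19,0)]⟩,(.r (-1) ⟨1,[(13,0),(0,0),(9,1),(14,0)]⟩ ⟨2,[(2,0),(30,0),(3,1)]⟩),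
  .k,⟨false,0,⟨0,[]⟩,⟨1,[(17,0),(0,0),(20,0)]⟩⟩,⟨true,0,⟨0,[(37,0)]⟩,⟨0,[(36,0)]⟩⟩,⟨true,0,⟨0,[(36,
  0)]⟩,⟨0,[(37,0)]⟩⟩,⟨false,1,⟨1,[(17,0),(0,0),(20,0)]⟩,⟨0,[]⟩⟩,[.o ⟨false,1,⟨9,[(1,6),(5,3),(1,2),
  (1,1),(5,2),(6,4),(9,0)]⟩,⟨9,[(2,1),(1,0),(2,2),(4,3),(5,9),(15,1)]⟩⟩,.e ⟨false,1,⟨2,[(6,0),(6,0),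
  (8,0),(16,1)]⟩,⟨2,[(2,0),(30,0),(3,1)]⟩⟩ ⟨false,1,⟨0,[(39,0)]⟩,⟨0,[(33,0)]⟩⟩,.a ⟨true,0,⟨1,[(1,1),
  (0,1),(1,0),(2,0),(16,1)]⟩,⟨1,[(18,1),(5,0),(0,0)]⟩⟩ ⟨true,0,⟨3,[(4,1),(7,1),(11,0),(0,0),(13,
  1)]⟩,⟨2,[(2,0),(30,0),(3,1)]⟩⟩ ⟨false,1,⟨1,[(24,0),(0,0),(13,1)]⟩,⟨3,[(2,0),(30,0),(1,0)]⟩⟩,.e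
  ⟨false,1,⟨2,[(6,0),(6,0),(8,0),(16,1)]⟩,⟨0,[(37,0)]⟩⟩ ⟨false,1,⟨0,[(39,0)]⟩,⟨0,[(41,0)]⟩⟩]⟩) (.R
  ⟨0,false,false,true,[0,1,0,0,-1],[1,0,0,0,-1],[1],(⟨0,[(0,0)]⟩,⟨0,[(20,0),(10,0)]⟩),(⟨0,[(19,0)]⟩,
  ⟨0,[(20,0)]⟩),⟨0,[(20,0)]⟩,(.r (-1) ⟨1,[(13,0),(0,0),(9,1),(14,0)]⟩ ⟨2,[(2,0),(30,0),(3,1)]⟩),.k,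
  .k,.k,.k,.k,⟨true,0,⟨0,[]⟩,⟨1,[(24,0),(0,0)]⟩⟩,⟨false,0,⟨0,[(21,0),(2,0)]⟩,⟨9,[(17,0),(0,0),(15,
  1),(3,4)]⟩⟩,⟨true,0,⟨2,[(2,0),(30,0),(3,1)]⟩,⟨3,[(4,1),(7,1),(11,0),(0,0),(13,1)]⟩⟩,⟨false,0,⟨0,
  [(21,0),(2,0),(12,0)]⟩,⟨3,[(4,1),(1,1),(4,0),(12,0),(9,0),(4,2)]⟩⟩,⟨false,0,⟨0,[]⟩,⟨0,[]⟩⟩,⟨false,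
  0,⟨0,[]⟩,⟨0,[]⟩⟩,[.a ⟨true,0,⟨5,[(1,5),(0,1),(1,0),(2,4),(16,5),(8,1)]⟩,⟨0,[(18,0)]⟩⟩ ⟨true,0,⟨0,
  []⟩,⟨1,[(24,0),(0,0)]⟩⟩ ⟨false,0,⟨0,[(21,0),(2,0)]⟩,⟨9,[(17,0),(0,0),(15,1),(3,4)]⟩⟩,.o ⟨false,1,
  ⟨9,[(1,6),(5,3),(1,2),(1,1),(5,2),(6,4),(9,0)]⟩,⟨9,[(2,1),(1,0),(2,2),(4,3),(5,9),(15,1)]⟩⟩,.o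
  ⟨false,1,⟨17,[(1,13),(0,13),(1,6),(2,6),(3,1),(5,3),(6,11),(9,5)]⟩,⟨1,[(18,1),(5,0),(0,0)]⟩⟩,.o
  ⟨false,1,⟨19,[(1,9),(0,5),(1,2),(2,8),(4,1),(4,9),(6,9),(9,5)]⟩,⟨0,[(18,0)]⟩⟩]⟩)) (.Q [0,1,0,0,-1,
  0,0,0,1,-1,0,1] (.p true [0,0,0,0,1] [1] (⟨0,[(19,0)]⟩,⟨0,[(18,0)]⟩) .k 1 (⟨0,[]⟩,⟨0,[]⟩) .k .k)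
  (.R ⟨1,false,false,false,[0,0,1],[0,0,0,0,1],[0,1,0,-1,0,0,0,1],(⟨0,[(27,0)]⟩,⟨0,[(26,0)]⟩),(⟨0,
  [(20,0)]⟩,⟨0,[(19,0)]⟩),⟨0,[(16,0)]⟩,.k,.k,.k,.k,(.r (-1) ⟨1,[(9,1),(7,0),(0,0),(20,0)]⟩ ⟨0,[(12,
  0)]⟩),.k,⟨false,0,⟨0,[(9,0)]⟩,⟨1,[(12,1),(25,0),(0,0)]⟩⟩,⟨true,(-1),⟨0,[(0,0),(5,0),(0,0),(31,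
  0)]⟩,⟨0,[(17,0),(6,0)]⟩⟩,⟨false,0,⟨0,[(37,0)]⟩,⟨2,[(6,0),(6,0),(8,0),(16,1)]⟩⟩,⟨true,(-1),⟨0,[(0,
  0),(5,0),(30,0)]⟩,⟨3,[(2,0),(1,1),(4,0),(7,3),(4,0),(1,2),(14,1)]⟩⟩,⟨true,0,⟨0,[(41,0)]⟩,⟨0,[]⟩⟩,
  ⟨true,(-1),⟨0,[(0,0),(5,0)]⟩,⟨0,[(9,0),(7,0),(6,0)]⟩⟩,[.o ⟨false,(-1),⟨0,[(0,0)]⟩,⟨1,[(17,2),(0,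
  0),(20,0)]⟩⟩,.o ⟨false,0,⟨8,[(0,3),(17,4),(15,0),(4,1)]⟩,⟨0,[(17,0)]⟩⟩,.o ⟨false,1,⟨49,[(11,24),
  (5,13),(0,13),(5,24),(9,4),(4,0),(1,1)]⟩,⟨0,[(10,0)]⟩⟩,.a ⟨true,0,⟨0,[(24,0)]⟩,⟨0,[(21,0)]⟩⟩
  ⟨false,0,⟨0,[(9,0)]⟩,⟨0,[(12,0),(26,0)]⟩⟩ ⟨true,(-1),⟨0,[(0,0),(20,0)]⟩,⟨0,[(17,0),(6,0)]⟩⟩]⟩)
  (.Q [0,0,0,0,0,2,0,0,0,0,-1] (.p false [0,0,1] [] (⟨0,[(27,0)]⟩,⟨0,[(26,0)]⟩) .k 0 (⟨0,[]⟩,⟨0,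
  []⟩) .k .k) (.R ⟨0,false,false,true,[0,-1,1],[1,-1],[1,1],(⟨0,[(17,0)]⟩,⟨0,[(0,0),(31,0)]⟩),(⟨0,
  [(32,0)]⟩,⟨0,[(33,0)]⟩),⟨0,[(0,0)]⟩,.k,.k,(.r 0 ⟨0,[(3,0),(4,0),(31,0)]⟩ ⟨1,[(13,1),(0,0),(0,0),
  (9,1),(14,0)]⟩),.k,.k,.k,⟨true,0,⟨3,[(5,1),(7,1),(11,0),(0,0),(13,1)]⟩,⟨0,[(38,0)]⟩⟩,⟨false,0,⟨0,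
  [(22,0)]⟩,⟨49,[(12,24),(5,13),(0,13),(5,24),(9,4),(4,0),(1,1)]⟩⟩,⟨true,0,⟨0,[(13,0)]⟩,⟨0,[(10,
  0)]⟩⟩,⟨false,0,⟨0,[(7,0),(30,0)]⟩,⟨5,[(5,1),(4,1),(1,0),(10,1),(1,2),(9,0),(4,4)]⟩⟩,⟨false,0,⟨0,
  []⟩,⟨0,[]⟩⟩,⟨false,0,⟨0,[]⟩,⟨0,[]⟩⟩,[.o ⟨false,0,⟨0,[(38,0),(3,0)]⟩,⟨3,[(5,1),(1,1),(4,0),(12,0),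
  (9,0),(4,2)]⟩⟩,.o ⟨false,0,⟨0,[(38,0)]⟩,⟨49,[(14,24),(3,13),(0,13),(15,4),(4,0),(1,1)]⟩⟩,.e
  ⟨false,0,⟨0,[]⟩,⟨8,[(1,4),(17,4),(15,0),(4,1)]⟩⟩ ⟨false,0,⟨0,[(22,0),(15,0)]⟩,⟨3,[(5,1),(1,1),(4,
  0),(12,4),(9,0),(4,2)]⟩⟩,.a ⟨true,0,⟨1,[(25,2),(0,0)]⟩,⟨1,[(3,1),(1,0),(1,1),(0,0),(31,1)]⟩⟩
  ⟨true,0,⟨3,[(3,0),(30,0),(1,0)]⟩,⟨1,[(25,0),(0,0)]⟩⟩ ⟨false,0,⟨0,[(3,0),(3,0),(0,0),(31,0)]⟩,⟨5,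
  [(5,1),(7,1),(0,0),(10,7),(0,1),(8,0),(4,4)]⟩⟩]⟩) (.Q [0,-2,0,-1,1,0,1,1,-1,0,1,-1] (.p true [0,0,
  1] [0,0,0,0,1] (⟨0,[(28,0)]⟩,⟨0,[(27,0)]⟩) .k 2 (⟨0,[(21,0)]⟩,⟨0,[(20,0)]⟩) .k (.r 0 ⟨1,[(5,0),(2,
  0),(31,1)]⟩ ⟨4,[(1,1),(10,1),(0,2),(4,0),(0,2),(4,1),(9,0),(3,2)]⟩)) (.Q [0,-2,0,0,1,0,-1,-1,-1,1,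
  -1,-1] (.p false [0,0,1] [1,0,0,0,-1] (⟨0,[(29,0)]⟩,⟨0,[(28,0)]⟩) .k 2 (⟨0,[(21,0)]⟩,⟨0,[(22,
  0)]⟩) .k (.r 1 ⟨1,[(6,0),(2,0)]⟩ ⟨17,[(2,13),(10,8),(0,8),(5,13),(4,8),(10,0),(2,8),(1,10)]⟩))
  (.R ⟨1,true,false,false,[0,0,1],[1,0,0,0,-1],[1,0,0,0,0,0,0,1],(⟨0,[(30,0)]⟩,⟨0,[(29,0)]⟩),(⟨0,
  [(22,0)]⟩,⟨0,[(23,0)]⟩),⟨0,[(19,0)]⟩,.k,.k,.k,.k,(.r 0 ⟨6,[(3,0),(0,1),(7,4),(4,0),(2,0),(15,1)]⟩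
  ⟨0,[(15,0),(26,0)]⟩),.k,⟨true,(-1),⟨0,[(8,0)]⟩,⟨13,[(0,8),(2,0),(11,4),(5,9),(5,8),(9,1),(2,4)]⟩⟩,
  ⟨false,0,⟨2,[(0,2),(4,0),(1,1),(2,0),(25,0)]⟩,⟨49,[(14,24),(5,13),(0,63),(5,24),(9,4),(4,0),(1,
  1)]⟩⟩,⟨true,0,⟨0,[]⟩,⟨0,[(44,0)]⟩⟩,⟨false,1,⟨0,[(0,0)]⟩,⟨2,[(4,1),(11,0),(4,0),(3,0),(16,0)]⟩⟩,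
  ⟨false,1,⟨2,[(9,0),(6,0),(8,0),(16,1)]⟩,⟨0,[(40,0)]⟩⟩,⟨true,1,⟨7,[(0,4),(2,0),(3,0),(1,2),(5,0),
  (0,0),(3,1),(17,0)]⟩,⟨0,[(4,0)]⟩⟩,[]⟩) (.Q [0,0,0,0,0,0,0,0,-1,1,0,-1] (.p false [0,0,0,0,1] [1]
  (⟨0,[(23,0)]⟩,⟨0,[(22,0)]⟩) .k 1 (⟨0,[]⟩,⟨0,[]⟩) .k .k) (.Q [0,0,1,0,0,0,0,0,1,-1,0,1] (.p true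
  [0,0,0,0,1] [1] (⟨0,[(24,0)]⟩,⟨0,[(23,0)]⟩) .k 1 (⟨0,[]⟩,⟨0,[]⟩) .k .k) (.Q [0,0,0,0,0,-1,0,0,0,0,
  0,1] (.ed false [1,-1,0,0,1] .k) (.S ⟨1,0,[0,0,1],[1,1,0,0,-1],[0,-1,1],(⟨0,[(25,0),(9,0)]⟩,⟨0,
  [(0,0)]⟩),⟨0,[(25,0)]⟩,(.r (-1) ⟨1,[(19,0),(0,0),(9,1),(14,0)]⟩ ⟨2,[(8,0),(30,0),(3,1)]⟩),.k,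
  ⟨true,0,⟨0,[(43,0)]⟩,⟨0,[(42,0)]⟩⟩,⟨false,0,⟨0,[(43,0)]⟩,⟨2,[(12,0),(6,0),(8,0),(16,1)]⟩⟩,⟨false,
  1,⟨8,[(6,4),(17,4),(15,0),(4,1)]⟩,⟨0,[]⟩⟩,⟨true,0,⟨0,[(47,0)]⟩,⟨0,[]⟩⟩,[.a ⟨true,0,⟨0,[(2,0)]⟩,⟨0,
  [(24,0)]⟩⟩ ⟨false,1,⟨8,[(6,4),(17,4),(15,0),(4,1)]⟩,⟨3,[(8,0),(30,0),(1,0)]⟩⟩ ⟨true,0,⟨1,[(30,0),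
  (0,0)]⟩,⟨0,[]⟩⟩,.o ⟨false,1,⟨4,[(2,3),(3,0),(33,0),(4,1)]⟩,⟨7,[(1,0),(5,1),(6,1),(9,4),(14,0),(0,
  0)]⟩⟩,.o ⟨false,1,⟨1,[(2,0),(6,0),(13,0)]⟩,⟨0,[(1,0)]⟩⟩,.e ⟨false,1,⟨0,[(45,0)]⟩,⟨0,[(47,0)]⟩⟩
  ⟨false,1,⟨8,[(6,4),(17,4),(15,0),(4,1)]⟩,⟨0,[]⟩⟩]⟩) (.R ⟨0,false,false,false,[0,0,0,0,1],[0,1],[1,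
  0,1,1],(⟨0,[(26,0)]⟩,⟨0,[(25,0)]⟩),(⟨0,[(38,0)]⟩,⟨0,[(37,0)]⟩),⟨0,[(0,0)]⟩,.k,.k,(.r 0 ⟨2,[(8,0),
  (30,0),(3,1)]⟩ ⟨1,[(19,0),(0,0),(9,1),(14,0)]⟩),(.r 0 ⟨2,[(8,0),(30,0),(3,1)]⟩ ⟨1,[(19,0),(0,0),
  (9,1),(14,0)]⟩),.k,.k,⟨true,0,⟨0,[]⟩,⟨1,[(30,0),(0,0)]⟩⟩,⟨false,1,⟨0,[(2,0),(6,0)]⟩,⟨2,[(1,0),(18,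
  0),(3,1),(5,1)]⟩⟩,⟨false,1,⟨3,[(10,1),(7,1),(11,0),(0,0),(13,5)]⟩,⟨2,[(8,0),(30,0),(3,1)]⟩⟩,⟨true,
  1,⟨3,[(2,3),(7,1),(1,1),(4,0),(12,0),(9,0),(4,2)]⟩,⟨0,[(7,0),(4,0),(30,0)]⟩⟩,⟨false,0,⟨0,[]⟩,⟨0,
  []⟩⟩,⟨false,0,⟨0,[]⟩,⟨0,[]⟩⟩,[.o ⟨false,1,⟨49,[(19,24),(3,13),(0,13),(15,4),(4,0),(1,1)]⟩,⟨0,[(43,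
  0)]⟩⟩,.o ⟨false,1,⟨3,[(10,1),(1,1),(4,0),(12,0),(9,0),(4,2)]⟩,⟨0,[(43,0),(3,0)]⟩⟩,.a ⟨true,0,⟨0,
  [(24,0)]⟩,⟨0,[(2,0)]⟩⟩ ⟨true,0,⟨3,[(10,1),(7,1),(11,0),(0,0),(13,1)]⟩,⟨2,[(8,0),(30,0),(3,1)]⟩⟩
  ⟨false,1,⟨3,[(2,3),(7,1),(1,1),(4,0),(12,0),(9,0),(4,2)]⟩,⟨0,[(24,0),(18,0)]⟩⟩,.o ⟨false,0,⟨0,[(1,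
  0)]⟩,⟨1,[(2,0),(6,0),(13,0)]⟩⟩]⟩)) (.Q [0,0,0,0,0,-1,0,0,0,0,0,1] (.ed false [1,-1,0,0,1] .k) (.S
  ⟨1,0,[0,-1,1],[1,1,0,0,-1],[1,0,1,1],(⟨0,[(25,0),(9,0)]⟩,⟨0,[(0,0)]⟩),⟨0,[(25,0)]⟩,(.r (-1) ⟨1,
  [(19,0),(0,0),(9,1),(14,0)]⟩ ⟨2,[(8,0),(30,0),(3,1)]⟩),.k,⟨false,0,⟨0,[]⟩,⟨8,[(6,4),(17,4),(15,0),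
  (4,1)]⟩⟩,⟨true,0,⟨0,[(43,0)]⟩,⟨0,[(42,0)]⟩⟩,⟨true,0,⟨0,[(42,0)]⟩,⟨0,[(43,0)]⟩⟩,⟨false,1,⟨8,[(6,4),
  (17,4),(15,0),(4,1)]⟩,⟨0,[]⟩⟩,[.o ⟨false,1,⟨4,[(2,3),(3,0),(33,0),(4,1)]⟩,⟨40,[(7,11),(6,9),(3,1),
  (1,0),(3,28),(14,1),(0,5),(6,0)]⟩⟩,.e ⟨false,1,⟨2,[(12,0),(6,0),(8,0),(16,1)]⟩,⟨2,[(8,0),(30,0),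
  (3,1)]⟩⟩ ⟨false,1,⟨0,[(45,0)]⟩,⟨0,[(39,0)]⟩⟩,.a ⟨true,0,⟨0,[(1,0)]⟩,⟨1,[(24,1),(5,0),(0,0)]⟩⟩
  ⟨true,0,⟨3,[(10,1),(7,1),(11,0),(0,0),(13,1)]⟩,⟨2,[(8,0),(30,0),(3,1)]⟩⟩ ⟨false,1,⟨1,[(30,0),(0,
  0),(13,1)]⟩,⟨3,[(8,0),(30,0),(1,0)]⟩⟩,.e ⟨false,1,⟨2,[(12,0),(6,0),(8,0),(16,1)]⟩,⟨0,[(43,0)]⟩⟩
  ⟨false,1,⟨0,[(45,0)]⟩,⟨0,[(47,0)]⟩⟩]⟩) (.R ⟨0,false,false,true,[0,1,0,0,-1],[1,0,0,0,-1],[1],(⟨0,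
  [(0,0)]⟩,⟨0,[(26,0),(10,0)]⟩),(⟨0,[(25,0)]⟩,⟨0,[(26,0)]⟩),⟨0,[(26,0)]⟩,(.r (-1) ⟨1,[(19,0),(0,0),
  (9,1),(14,0)]⟩ ⟨2,[(8,0),(30,0),(3,1)]⟩),.k,.k,.k,.k,.k,⟨true,0,⟨0,[]⟩,⟨1,[(30,0),(0,0)]⟩⟩,⟨false,
  0,⟨0,[(27,0),(2,0)]⟩,⟨9,[(23,0),(0,0),(15,1),(3,4)]⟩⟩,⟨true,0,⟨2,[(8,0),(30,0),(3,1)]⟩,⟨3,[(10,1),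
  (7,1),(11,0),(0,0),(13,1)]⟩⟩,⟨false,0,⟨0,[(27,0),(2,0),(12,0)]⟩,⟨3,[(10,1),(1,1),(4,0),(12,0),(9,
  0),(4,2)]⟩⟩,⟨false,0,⟨0,[]⟩,⟨0,[]⟩⟩,⟨false,0,⟨0,[]⟩,⟨0,[]⟩⟩,[.a ⟨true,0,⟨0,[(2,0)]⟩,⟨0,[(24,0)]⟩⟩
  ⟨true,0,⟨0,[]⟩,⟨1,[(30,0),(0,0)]⟩⟩ ⟨false,0,⟨0,[(27,0),(2,0)]⟩,⟨9,[(23,0),(0,0),(15,1),(3,4)]⟩⟩,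
  .o ⟨false,1,⟨4,[(2,3),(3,0),(33,0),(4,1)]⟩,⟨40,[(7,11),(6,9),(3,1),(1,0),(3,28),(14,1),(0,5),(6,
  0)]⟩⟩,.o ⟨false,1,⟨15,[(1,13),(21,1),(16,5),(3,0),(0,0),(1,1)]⟩,⟨1,[(24,1),(5,0),(0,0)]⟩⟩,.o
  ⟨false,1,⟨5,[(1,0),(0,2),(20,1),(16,1),(5,0)]⟩,⟨0,[(24,0)]⟩⟩]⟩))) (.R ⟨1,false,false,false,[0,0,
  1],[0,0,0,0,1],[0,0,0,-1,0,0,0,1],(⟨0,[(31,0)]⟩,⟨0,[(30,0)]⟩),(⟨0,[(24,0)]⟩,⟨0,[(23,0)]⟩),⟨0,[(20,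
  0)]⟩,.k,.k,.k,.k,(.r (-1) ⟨19,[(2,9),(10,9),(4,4),(2,2),(0,12),(15,0),(3,4)]⟩ ⟨0,[(16,0)]⟩),.k,
  ⟨true,0,⟨0,[(11,0),(31,0)]⟩,⟨0,[(16,0)]⟩⟩,⟨false,0,⟨0,[(0,0),(24,0)]⟩,⟨2,[(2,1),(3,0),(9,1),(4,0),
  (6,0),(10,0)]⟩⟩,⟨true,0,⟨0,[(41,0)]⟩,⟨0,[(40,0)]⟩⟩,⟨false,0,⟨0,[(0,0),(9,0),(30,0)]⟩,⟨6,[(2,3),(1,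
  1),(3,1),(6,0),(1,0),(3,0),(4,0),(1,0)]⟩⟩,⟨false,1,⟨8,[(4,4),(17,4),(15,0),(4,1)]⟩,⟨0,[]⟩⟩,⟨false,
  0,⟨0,[(0,0),(9,0)]⟩,⟨2,[(2,1),(1,0),(0,0),(15,0)]⟩⟩,[.o ⟨false,0,⟨9,[(0,3),(4,1),(10,1),(1,0),(3,
  3),(14,1),(0,0)]⟩,⟨0,[(2,0),(9,0)]⟩⟩,.o ⟨false,0,⟨0,[(0,0)]⟩,⟨0,[(21,0)]⟩⟩,.o ⟨false,1,⟨49,[(15,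
  24),(5,13),(0,13),(5,24),(9,4),(4,0),(1,1)]⟩,⟨0,[(14,0)]⟩⟩,.a ⟨true,0,⟨0,[(28,0)]⟩,⟨0,[(25,0)]⟩⟩
  ⟨true,0,⟨0,[(13,0)]⟩,⟨0,[(16,0)]⟩⟩ ⟨false,0,⟨0,[(0,0),(24,0)]⟩,⟨0,[(2,0),(13,0)]⟩⟩]⟩))) (.Q [0,0,
  0,0,0,0,1,0,1,-1,1,1] (.p true [0,0,1] [1,0,0,0,-1] (⟨0,[(29,0)]⟩,⟨0,[(28,0)]⟩) .k 2 (⟨0,[(21,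
  0)]⟩,⟨0,[(22,0)]⟩) .k (.r 1 ⟨1,[(6,0),(2,0)]⟩ ⟨17,[(2,13),(10,8),(0,8),(5,13),(4,8),(10,0),(2,8),
  (1,10)]⟩)) (.Q [0,0,0,0,0,0,0,0,0,-1,1,1] (.ed false [0,0,1,0,1] (.r 1 ⟨1,[(7,0),(2,0)]⟩ ⟨17,[(3,
  13),(10,8),(0,8),(5,13),(4,8),(10,0),(2,8),(1,10)]⟩)) (.Q [0,0,1,0,0,0,-1,0,-1,1,-1,-1] (.p false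
  [-1,0,1,0,1] [] (⟨0,[(0,0)]⟩,⟨0,[(23,0),(6,0)]⟩) .k 0 (⟨0,[]⟩,⟨0,[]⟩) .k (.r 1 ⟨1,[(8,0),(2,0)]⟩
  ⟨17,[(4,13),(10,8),(0,8),(5,13),(4,8),(10,0),(2,8),(1,10)]⟩)) (.S ⟨1,0,[0,-1,0,-1,0,0,0,-1],[2,0,
  -1,0,-1],[1,0,0,0,0,0,0,-1],(⟨0,[(24,0),(6,0)]⟩,⟨0,[(1,0)]⟩),⟨0,[(20,0),(3,0)]⟩,.k,(.r (-2) ⟨1,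
  [(5,0),(5,0),(4,1),(6,0),(4,0),(13,2),(1,0)]⟩ ⟨1,[(9,1),(19,0),(0,0)]⟩),⟨false,0,⟨0,[]⟩,⟨8,[(5,4),
  (17,4),(15,0),(4,1)]⟩⟩,⟨true,0,⟨0,[(42,0)]⟩,⟨0,[(41,0)]⟩⟩,⟨true,0,⟨0,[(41,0)]⟩,⟨0,[(42,0)]⟩⟩,
  ⟨false,1,⟨8,[(5,4),(17,4),(15,0),(4,1)]⟩,⟨0,[]⟩⟩,[.e ⟨false,1,⟨0,[(11,0),(4,0),(25,0)]⟩,⟨2,[(9,0),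
  (4,0),(12,0),(2,0),(13,0)]⟩⟩ ⟨false,2,⟨1,[(5,0),(5,0),(4,1),(6,0),(4,0),(13,2),(1,0)]⟩,⟨0,[(9,
  0)]⟩⟩,.o ⟨false,2,⟨0,[(5,0),(22,0),(13,0),(1,0)]⟩,⟨9,[(2,9),(4,1),(1,10),(2,2),(4,3),(21,1)]⟩⟩,.a
  ⟨true,0,⟨0,[(5,0),(5,0),(0,0)]⟩,⟨0,[(2,0)]⟩⟩ ⟨true,1,⟨3,[(5,0),(5,0),(4,1),(0,1),(5,0),(4,0),(13,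
  2),(1,0)]⟩,⟨1,[(9,0),(2,0)]⟩⟩ ⟨false,2,⟨3,[(5,0),(5,0),(4,1),(0,1),(5,0),(4,0),(13,6),(1,4)]⟩,⟨0,
  [(9,0)]⟩⟩,.o ⟨false,0,⟨0,[(0,0)]⟩,⟨4,[(2,3),(13,0),(6,0),(15,0),(3,1)]⟩⟩]⟩) (.Q [0,0,0,0,0,-1,0,0,
  0,1,0,-1] (.ed true [0,1,0,0,1] .k) (.S ⟨1,0,[0,-1,0,-1],[1,0,0,0,-1],[1],(⟨0,[(25,0)]⟩,⟨0,[(26,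
  0)]⟩),⟨0,[(0,0)]⟩,.k,(.r (-1) ⟨1,[(43,1),(0,0),(0,0)]⟩ ⟨11,[(10,1),(7,5),(0,1),(0,1),(7,3),(1,2),
  (0,2)]⟩),⟨false,0,⟨0,[]⟩,⟨8,[(6,4),(17,4),(15,0),(4,1)]⟩⟩,⟨true,0,⟨0,[(43,0)]⟩,⟨0,[(42,0)]⟩⟩,
  ⟨true,0,⟨0,[(42,0)]⟩,⟨0,[(43,0)]⟩⟩,⟨false,1,⟨8,[(6,4),(17,4),(15,0),(4,1)]⟩,⟨0,[]⟩⟩,[.a ⟨true,1,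
  ⟨0,[(6,0),(36,0)]⟩,⟨1,[(3,1),(6,0),(1,1),(0,0)]⟩⟩ ⟨true,0,⟨0,[]⟩,⟨1,[(30,0),(0,0)]⟩⟩ ⟨false,1,⟨1,
  [(43,1),(0,0),(0,0)]⟩,⟨0,[(42,0)]⟩⟩,.o ⟨false,2,⟨8,[(6,9),(17,0),(15,1),(2,8),(1,3)]⟩,⟨25,[(1,5),
  (1,1),(0,14),(2,2),(2,12),(2,0),(4,1),(11,3),(9,2)]⟩⟩,.o ⟨false,1,⟨0,[(23,0)]⟩,⟨0,[(3,0),(12,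
  0)]⟩⟩,.o ⟨false,1,⟨1,[(23,1),(6,0),(0,0)]⟩,⟨0,[(1,0),(14,0)]⟩⟩]⟩) (.R ⟨0,false,false,false,[1,0,0,
  0,-1],[2,0,-1,0,-1],[1],(⟨0,[(25,0)]⟩,⟨0,[(26,0)]⟩),(⟨0,[(25,0),(6,0)]⟩,⟨0,[(2,0)]⟩),⟨0,[(0,0)]⟩,
  .k,.k,(.r (-1) ⟨1,[(43,1),(0,0),(0,0)]⟩ ⟨11,[(10,1),(7,5),(0,1),(0,1),(7,3),(1,2),(0,2)]⟩),.k,.k,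
  .k,⟨true,(-1),⟨0,[(11,0)]⟩,⟨0,[(18,0),(24,0),(1,0)]⟩⟩,⟨false,0,⟨0,[(27,0)]⟩,⟨49,[(17,24),(5,13),
  (0,13),(5,24),(9,4),(4,0),(1,1)]⟩⟩,⟨false,0,⟨0,[]⟩,⟨8,[(6,4),(17,4),(15,0),(4,1)]⟩⟩,⟨true,0,⟨0,
  [(12,0),(30,0)]⟩,⟨6,[(10,1),(2,1),(3,1),(10,2),(1,1),(9,0)]⟩⟩,⟨false,0,⟨0,[]⟩,⟨0,[]⟩⟩,⟨false,0,⟨0,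
  []⟩,⟨0,[]⟩⟩,[.a ⟨true,1,⟨0,[(6,0),(5,0),(30,0)]⟩,⟨1,[(3,1),(6,0),(2,0)]⟩⟩ ⟨true,0,⟨0,[]⟩,⟨1,[(30,
  0),(0,0)]⟩⟩ ⟨false,1,⟨1,[(12,1),(30,1),(0,0),(0,0)]⟩,⟨6,[(10,1),(2,1),(3,1),(10,2),(1,1),(9,0)]⟩⟩,
  .o ⟨false,2,⟨0,[(6,0),(22,0),(15,0)]⟩,⟨3,[(1,1),(2,0),(2,0),(2,1),(2,1),(16,1),(9,0)]⟩⟩,.o ⟨false,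
  1,⟨0,[(23,0)]⟩,⟨0,[(3,0),(12,0)]⟩⟩,.o ⟨false,1,⟨1,[(23,1),(6,0),(0,0)]⟩,⟨0,[(1,0),(14,0)]⟩⟩]⟩)))
  (.Q [0,0,-1,0,1,0,-1,0,-1,0,-1,-1] (.p false [0,0,1,0,1] [] (⟨0,[(24,0),(6,0)]⟩,⟨0,[(0,0)]⟩) .k 0
  (⟨0,[]⟩,⟨0,[]⟩) .k (.r 1 ⟨1,[(8,0),(2,0)]⟩ ⟨17,[(4,13),(10,8),(0,8),(5,13),(4,8),(10,0),(2,8),(1,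
  10)]⟩)) (.R ⟨1,false,false,true,[0,0,1,0,1],[0,0,0,0,1],[0,2,0,-1,0,0,0,1],(⟨0,[(25,0),(6,0)]⟩,⟨0,
  [(1,0)]⟩),(⟨0,[(25,0)]⟩,⟨0,[(24,0)]⟩),⟨0,[(21,0),(3,0)]⟩,.k,.k,(.r 0 ⟨6,[(5,0),(0,1),(7,4),(4,0),
  (2,0),(15,1)]⟩ ⟨0,[(17,0),(26,0)]⟩),.k,.k,.k,⟨false,0,⟨0,[(14,0)]⟩,⟨1,[(17,1),(25,0),(0,0)]⟩⟩,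
  ⟨true,0,⟨0,[(15,0)]⟩,⟨0,[(29,0)]⟩⟩,⟨false,0,⟨0,[(42,0)]⟩,⟨2,[(11,0),(6,0),(8,0),(16,1)]⟩⟩,⟨true,0,
  ⟨0,[(28,0)]⟩,⟨3,[(7,0),(1,1),(4,0),(12,0),(1,2),(14,1)]⟩⟩,⟨true,0,⟨0,[(46,0)]⟩,⟨0,[]⟩⟩,⟨true,0,⟨0,
  [(13,0)]⟩,⟨0,[(14,0),(14,0)]⟩⟩,[.o ⟨false,(-1),⟨19,[(2,9),(0,9),(3,1),(1,0),(2,12),(4,3),(21,1)]⟩,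
  ⟨8,[(5,9),(17,0),(15,1),(4,3)]⟩⟩,.a ⟨true,(-1),⟨0,[(2,0),(8,0),(0,0)]⟩,⟨0,[(5,0)]⟩⟩ ⟨true,(-1),⟨0,
  [(12,0)]⟩,⟨0,[(17,0),(26,0)]⟩⟩ ⟨false,0,⟨85,[(0,13),(2,13),(3,27),(0,3),(0,13),(9,28),(18,7),(0,
  4)]⟩,⟨1,[(29,1),(13,0),(0,0)]⟩⟩,.o ⟨false,0,⟨0,[(2,0)]⟩,⟨1,[(0,0),(21,0),(7,0)]⟩⟩,.o ⟨false,0,⟨1,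
  [(2,1),(26,0),(0,0)]⟩,⟨0,[(0,0)]⟩⟩]⟩) (.S ⟨1,0,[0,2,1],[0,1,0,0,1],[1,1,1,1],(⟨0,[(25,0),(8,0)]⟩,
  ⟨1,[(1,0),(2,0),(19,0)]⟩),⟨0,[(25,0)]⟩,(.r 0 ⟨11,[(9,1),(7,5),(0,1),(0,1),(7,3),(1,2),(0,2)]⟩ ⟨1,
  [(42,1),(0,0),(0,0)]⟩),.k,⟨true,0,⟨0,[]⟩,⟨0,[(46,0)]⟩⟩,⟨false,0,⟨0,[(42,0)]⟩,⟨2,[(11,0),(6,0),(8,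
  0),(16,1)]⟩⟩,⟨false,1,⟨2,[(11,0),(6,0),(8,0),(16,1)]⟩,⟨0,[(42,0)]⟩⟩,⟨true,0,⟨0,[(46,0)]⟩,⟨0,[]⟩⟩,
  [.o ⟨false,(-1),⟨39,[(0,9),(2,19),(2,9),(0,5),(1,2),(2,8),(4,1),(21,5)]⟩,⟨8,[(5,9),(17,0),(15,1),
  (4,3)]⟩⟩,.a ⟨true,(-1),⟨1,[(0,0),(2,0),(10,0)]⟩,⟨0,[(5,0)]⟩⟩ ⟨true,0,⟨3,[(9,1),(7,1),(11,0),(0,0),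
  (13,1)]⟩,⟨0,[(42,0)]⟩⟩ ⟨false,0,⟨0,[(46,0)]⟩,⟨1,[(43,0),(0,0)]⟩⟩,.o ⟨false,0,⟨0,[(0,0),(7,0),(6,
  0)]⟩,⟨1,[(22,1),(6,0),(0,0)]⟩⟩,.o ⟨false,0,⟨8,[(0,3),(1,3),(0,0),(10,0),(4,1),(6,2),(12,1),(4,
  0)]⟩,⟨0,[(22,0)]⟩⟩]⟩))) (.Q [0,0,0,0,0,2,0,0,0,-1,1] (.p true [0,0,1] [1] (⟨0,[(30,0)]⟩,⟨0,[(29,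
  0)]⟩) .k 1 (⟨0,[]⟩,⟨0,[]⟩) .k .k) (.Q [0,0,2,0,-1,0,-1,0,0,1,-1] (.p false [0,0,1] [1] (⟨0,[(31,
  0)]⟩,⟨0,[(30,0)]⟩) .k 1 (⟨0,[]⟩,⟨0,[]⟩) .k .k) (.R ⟨0,false,false,true,[1,-1,-1],[1,-1],[1,1,-1,
  -1],(⟨0,[(20,0)]⟩,⟨0,[(1,0),(34,0)]⟩),(⟨0,[(36,0)]⟩,⟨0,[(37,0)]⟩),⟨0,[(1,0)]⟩,.k,.k,(.x 1 ⟨0,[(0,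
  0),(0,0)]⟩ ⟨9,[(16,9),(3,9),(1,0),(0,0),(12,9),(2,1),(3,4)]⟩),.k,.k,.k,⟨true,0,⟨0,[]⟩,⟨1,[(29,0),
  (0,0)]⟩⟩,⟨false,1,⟨0,[(29,0),(13,0)]⟩,⟨0,[(15,0)]⟩⟩,⟨true,(-1),⟨0,[(10,0)]⟩,⟨3,[(5,0),(5,0),(4,1),
  (0,1),(5,0),(4,0),(13,2),(1,0)]⟩⟩,⟨false,0,⟨3,[(7,0),(1,1),(4,0),(12,0),(1,2),(14,1)]⟩,⟨0,[(28,0),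
  (15,0)]⟩⟩,⟨false,0,⟨0,[]⟩,⟨0,[]⟩⟩,⟨false,0,⟨0,[]⟩,⟨0,[]⟩⟩,[.o ⟨false,0,⟨0,[(42,0),(3,0)]⟩,⟨3,[(9,
  1),(1,1),(4,0),(12,0),(9,0),(4,2)]⟩⟩,.o ⟨false,0,⟨0,[(42,0)]⟩,⟨49,[(18,24),(3,13),(0,13),(15,4),
  (4,0),(1,1)]⟩⟩,.o ⟨false,0,⟨0,[(30,0)]⟩,⟨0,[(16,0)]⟩⟩,.a ⟨true,(-1),⟨0,[(0,0)]⟩,⟨0,[(7,0),(21,0),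
  (10,0),(3,0)]⟩⟩ ⟨true,0,⟨0,[(7,0)]⟩,⟨3,[(0,1),(17,1),(10,2),(0,0)]⟩⟩ ⟨false,1,⟨1,[(7,1),(21,1),
  (13,0),(0,0)]⟩,⟨25,[(0,21),(8,11),(1,3),(5,7),(0,0),(20,4),(4,22)]⟩⟩]⟩) (.Q [0,0,2,0,-1,0,-2,0,0,
  1,-2] (.p false [0,0,1] [1,0,-1] (⟨0,[(32,0)]⟩,⟨0,[(31,0)]⟩) .k 2 (⟨0,[(31,0)]⟩,⟨0,[(32,0)]⟩) .k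
  (.r 1 ⟨0,[(9,0),(2,0),(31,0)]⟩ ⟨1,[(5,0),(5,0),(4,1),(0,1),(5,0),(4,0),(13,2),(1,0)]⟩)) (.R ⟨0,
  false,false,false,[1,-1,-1],[0,0,1],[1],(⟨0,[(21,0)]⟩,⟨0,[(2,0),(34,0)]⟩),(⟨0,[(33,0)]⟩,⟨0,[(32,
  0)]⟩),⟨0,[(2,0)]⟩,.k,.k,(.r (-1) ⟨0,[(1,0),(10,0),(30,2)]⟩ ⟨14,[(0,8),(9,8),(1,0),(6,9),(8,6),(1,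
  11),(14,7)]⟩),(.r (-2) ⟨3,[(6,0),(5,4),(4,5),(0,1),(5,0),(4,0),(13,10),(1,0)]⟩ ⟨16,[(0,4),(9,23),
  (2,6),(14,2),(1,6),(9,0),(4,16)]⟩),.k,.k,⟨false,1,⟨0,[(12,0),(4,0),(25,0)]⟩,⟨47,[(0,6),(9,13),(4,
  13),(4,2),(7,19),(11,1),(4,16)]⟩⟩,⟨true,1,⟨0,[(1,0),(28,0)]⟩,⟨0,[(0,0)]⟩⟩,⟨false,0,⟨45,[(0,12),(9,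
  39),(8,2),(8,5),(1,19),(9,1),(4,45)]⟩,⟨0,[(12,0),(4,0),(25,1)]⟩⟩,⟨true,0,⟨38,[(1,18),(8,56),(4,
  17),(12,2),(1,55),(9,3),(4,29)]⟩,⟨0,[(12,0),(16,0),(13,1)]⟩⟩,⟨false,0,⟨0,[]⟩,⟨0,[]⟩⟩,⟨false,0,⟨0,
  []⟩,⟨0,[]⟩⟩,[.a ⟨true,0,⟨13,[(1,1),(0,0),(7,5),(4,5),(12,1),(1,9),(1,0),(4,1),(7,3)]⟩,⟨0,[(12,0),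
  (30,0)]⟩⟩ ⟨true,0,⟨0,[]⟩,⟨1,[(30,0),(0,0)]⟩⟩ ⟨false,1,⟨13,[(1,15),(0,0),(7,5),(4,5),(12,1),(1,9),
  (1,0),(4,1),(7,3)]⟩,⟨3,[(0,1),(5,0),(5,0),(11,0),(4,2),(13,0),(1,0)]⟩⟩,.o ⟨false,1,⟨38,[(1,3),(8,
  11),(4,11),(12,14),(1,19),(9,6),(4,32)]⟩,⟨0,[(29,0)]⟩⟩,.o ⟨false,0,⟨0,[(31,0)]⟩,⟨0,[(17,0)]⟩⟩,.o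
  ⟨false,0,⟨1,[(30,0),(0,2)]⟩,⟨0,[(1,0)]⟩⟩]⟩) (.Q [0,-1,0,0,1,0,0,0,-1,0,0,-1] (.p false [0,0,0,0,
  1] [] (⟨0,[(26,0)]⟩,⟨0,[(25,0)]⟩) .k 0 (⟨0,[]⟩,⟨0,[]⟩) .k .k) (.Q [0,0,0,0,0,0,0,0,1,-1,0,1] (.p
  true [0,0,0,0,1] [1] (⟨0,[(27,0)]⟩,⟨0,[(26,0)]⟩) .k 1 (⟨0,[]⟩,⟨0,[]⟩) .k .k) (.R ⟨1,false,false,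
  false,[0,0,1],[0,0,0,0,1],[0,0,0,-1,0,0,0,1],(⟨0,[(35,0)]⟩,⟨0,[(34,0)]⟩),(⟨0,[(28,0)]⟩,⟨0,[(27,
  0)]⟩),⟨0,[(24,0)]⟩,.k,.k,.k,.k,(.r (-1) ⟨8,[(8,4),(8,8),(8,4),(15,0),(4,1)]⟩ ⟨0,[(20,0)]⟩),.k,
  ⟨true,0,⟨0,[(15,0),(31,0)]⟩,⟨0,[(20,0)]⟩⟩,⟨false,0,⟨0,[(0,0),(28,0)]⟩,⟨2,[(2,0),(2,0),(19,1),(6,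
  1)]⟩⟩,⟨true,0,⟨0,[(45,0)]⟩,⟨0,[(44,0)]⟩⟩,⟨false,0,⟨0,[(0,0),(13,0),(30,0)]⟩,⟨9,[(1,8),(0,0),(5,0),
  (3,3),(4,3),(12,1),(1,5),(14,2)]⟩⟩,⟨false,1,⟨8,[(8,4),(17,4),(15,0),(4,1)]⟩,⟨0,[]⟩⟩,⟨false,0,⟨0,
  [(0,0),(13,0)]⟩,⟨0,[(1,0),(15,0),(14,0)]⟩⟩,[.o ⟨false,0,⟨17,[(6,1),(2,3),(10,1),(1,0),(3,11),(14,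
  1),(0,2)]⟩,⟨0,[(1,0)]⟩⟩,.o ⟨false,0,⟨0,[(0,0)]⟩,⟨0,[(25,0)]⟩⟩,.o ⟨false,1,⟨49,[(19,24),(5,13),(0,
  13),(5,24),(9,4),(4,0),(1,1)]⟩,⟨0,[(18,0)]⟩⟩,.a ⟨true,0,⟨0,[(32,0)]⟩,⟨0,[(29,0)]⟩⟩ ⟨true,0,⟨0,
  [(17,0)]⟩,⟨0,[(20,0)]⟩⟩ ⟨false,0,⟨0,[(0,0),(28,0)]⟩,⟨0,[(1,0),(30,0)]⟩⟩]⟩) (.R ⟨0,false,false,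
  false,[1,-1,-1],[0,0,0,0,1],[1,1],(⟨0,[(23,0)]⟩,⟨0,[(4,0),(34,0)]⟩),(⟨0,[(28,0)]⟩,⟨0,[(27,0)]⟩),
  ⟨0,[(4,0)]⟩,.k,.k,(.r (-1) ⟨1,[(2,0),(7,0),(3,0),(16,0),(13,3),(1,0)]⟩ ⟨1,[(12,1),(8,0),(0,0),(9,
  2),(0,0),(13,0)]⟩),(.r (-2) ⟨2,[(2,0),(5,1),(10,0),(6,1),(4,2),(13,2),(1,1)]⟩ ⟨1,[(12,1),(19,0),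
  (0,0)]⟩),.k,.k,⟨true,0,⟨0,[]⟩,⟨1,[(32,0),(0,0)]⟩⟩,⟨false,1,⟨1,[(2,0),(8,0),(14,1)]⟩,⟨1,[(5,1),(26,
  0),(0,0)]⟩⟩,⟨true,(-1),⟨1,[(12,1),(19,0),(0,0)]⟩,⟨3,[(2,1),(5,0),(5,0),(11,0),(4,2),(13,4),(1,
  0)]⟩⟩,⟨false,0,⟨7,[(2,1),(3,0),(2,0),(2,7),(13,5),(5,3),(9,0),(4,5)]⟩,⟨0,[(1,0),(12,0),(30,1)]⟩⟩,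
  ⟨false,0,⟨0,[]⟩,⟨0,[]⟩⟩,⟨false,0,⟨0,[]⟩,⟨0,[]⟩⟩,[.o ⟨false,0,⟨17,[(6,1),(2,3),(10,1),(1,0),(3,11),
  (14,1),(0,2)]⟩,⟨0,[(1,0)]⟩⟩,.a ⟨true,0,⟨0,[(26,0)]⟩,⟨0,[(0,0)]⟩⟩ ⟨true,0,⟨0,[]⟩,⟨1,[(32,0),(0,
  0)]⟩⟩ ⟨false,1,⟨1,[(2,0),(8,0),(14,1)]⟩,⟨1,[(5,1),(26,0),(0,0)]⟩⟩,.o ⟨false,0,⟨0,[(33,0)]⟩,⟨0,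
  [(19,0)]⟩⟩,.o ⟨false,0,⟨1,[(32,0),(0,2)]⟩,⟨0,[(3,0)]⟩⟩]⟩)) (.Q [0,0,0,0,0,-1,0,0,0,1,0,-1] (.ed
  true [0,1,0,0,1] .k) (.R ⟨1,false,false,false,[1,0,0,0,-1],[1,-1],[0,0,0,-1],(⟨0,[(27,0)]⟩,⟨0,
  [(28,0)]⟩),(⟨0,[(39,0)]⟩,⟨0,[(40,0)]⟩),⟨0,[(0,0)]⟩,.k,.k,(.r (-1) ⟨1,[(45,1),(0,0),(0,0)]⟩ ⟨11,
  [(12,1),(7,5),(0,1),(0,1),(7,3),(1,2),(0,2)]⟩),(.r (-1) ⟨1,[(21,0),(0,0),(9,1),(14,0)]⟩ ⟨2,[(10,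
  0),(30,0),(3,1)]⟩),.k,.k,⟨true,0,⟨1,[(32,0),(0,0)]⟩,⟨0,[]⟩⟩,⟨false,0,⟨0,[(26,0)]⟩,⟨3,[(2,0),(2,1),
  (5,0),(13,1)]⟩⟩,⟨false,0,⟨0,[(45,0)]⟩,⟨2,[(14,0),(6,0),(8,0),(16,1)]⟩⟩,⟨true,(-1),⟨0,[(1,0),(43,
  0)]⟩,⟨5,[(2,0),(2,3),(15,2),(3,1),(6,1)]⟩⟩,⟨true,0,⟨0,[(49,0)]⟩,⟨0,[]⟩⟩,⟨true,(-1),⟨0,[(1,0)]⟩,⟨0,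
  [(25,0)]⟩⟩,[.o ⟨false,0,⟨0,[(45,0)]⟩,⟨49,[(21,24),(3,13),(0,13),(15,4),(4,0),(1,1)]⟩⟩,.o ⟨false,1,
  ⟨8,[(8,4),(17,4),(15,0),(2,8),(1,1)]⟩,⟨10,[(2,0),(9,4),(3,1),(3,2),(21,1),(0,0)]⟩⟩,.o ⟨false,1,⟨0,
  [(25,0)]⟩,⟨4,[(1,3),(24,0),(15,0),(4,1)]⟩⟩,.a ⟨true,0,⟨0,[(5,0),(26,0)]⟩,⟨5,[(1,3),(0,0),(8,0),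
  (14,1),(2,1),(17,1)]⟩⟩ ⟨false,1,⟨1,[(45,1),(0,0),(0,0)]⟩,⟨3,[(12,1),(7,1),(11,0),(0,0),(13,1)]⟩⟩
  ⟨true,0,⟨1,[(1,0),(8,0),(15,0),(18,0),(1,0)]⟩,⟨17,[(2,1),(2,16),(6,8),(7,8),(4,0),(6,12),(9,
  2)]⟩⟩]⟩) (.S ⟨1,0,[0,2,0,-1],[0,0,0,0,1],[1,1],(⟨0,[(28,0)]⟩,⟨0,[(27,0)]⟩),⟨1,[(0,0),(6,0),(15,0),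
  (4,0)]⟩,.k,(.r 0 ⟨2,[(10,0),(30,0),(3,1)]⟩ ⟨1,[(21,0),(0,0),(9,1),(14,0)]⟩),⟨true,0,⟨0,[]⟩,⟨0,
  [(49,0)]⟩⟩,⟨false,0,⟨0,[(45,0)]⟩,⟨2,[(14,0),(6,0),(8,0),(16,1)]⟩⟩,⟨false,1,⟨2,[(14,0),(6,0),(8,0),
  (16,1)]⟩,⟨0,[(45,0)]⟩⟩,⟨true,0,⟨0,[(49,0)]⟩,⟨0,[]⟩⟩,[.o ⟨false,(-1),⟨17,[(1,7),(0,1),(3,8),(2,0),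
  (5,7),(16,3),(9,2),(2,17)]⟩,⟨13,[(2,1),(2,7),(2,5),(12,6),(10,3),(9,0),(4,10)]⟩⟩,.a ⟨true,(-1),⟨0,
  [(1,0),(43,0)]⟩,⟨5,[(2,0),(2,1),(2,3),(3,1),(1,1),(6,0),(10,1),(14,1)]⟩⟩ ⟨true,0,⟨0,[]⟩,⟨1,[(32,
  0),(0,0)]⟩⟩ ⟨false,0,⟨2,[(10,0),(30,0),(3,1)]⟩,⟨2,[(14,0),(6,0),(8,0),(16,1)]⟩⟩,.o ⟨false,0,⟨4,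
  [(1,3),(24,0),(15,0),(4,1)]⟩,⟨0,[(25,0)]⟩⟩,.o ⟨false,0,⟨9,[(1,7),(24,1),(5,4),(0,4),(8,1),(4,3)]⟩,
  ⟨3,[(2,0),(2,1),(5,0),(13,1)]⟩⟩]⟩))))) (.Q [0,1,0,0,-1,0,0,0,1,0,0,1] (.p true [0,0,0,0,1] [] (⟨0,
  [(24,0)]⟩,⟨0,[(23,0)]⟩) .k 0 (⟨0,[]⟩,⟨0,[]⟩) .k .k) (.Q [0,0,0,0,0,-1,0,0,0,0,0,1] (.ed false [1,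
  -1,0,0,1] .k) (.S ⟨1,0,[0,2,0,-1],[0,0,0,0,1],[1,1],(⟨0,[(26,0)]⟩,⟨0,[(25,0)]⟩),⟨0,[(0,0)]⟩,.k,
  (.r 0 ⟨2,[(8,0),(30,0),(3,1)]⟩ ⟨1,[(19,0),(0,0),(9,1),(14,0)]⟩),⟨true,0,⟨0,[]⟩,⟨0,[(47,0)]⟩⟩,
  ⟨false,0,⟨0,[(43,0)]⟩,⟨2,[(12,0),(6,0),(8,0),(16,1)]⟩⟩,⟨false,1,⟨2,[(12,0),(6,0),(8,0),(16,1)]⟩,
  ⟨0,[(43,0)]⟩⟩,⟨true,0,⟨0,[(47,0)]⟩,⟨0,[]⟩⟩,[.o ⟨false,(-1),⟨4,[(1,2),(2,1),(3,0),(4,1),(16,1),(9,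
  0),(2,3)]⟩,⟨3,[(6,3),(3,1),(1,1),(4,0),(12,0),(9,0),(4,2)]⟩⟩,.a ⟨true,(-1),⟨0,[(1,0),(41,0)]⟩,⟨1,
  [(3,0),(2,0),(3,0),(1,0),(4,0),(12,0),(14,0)]⟩⟩ ⟨true,0,⟨0,[]⟩,⟨1,[(30,0),(0,0)]⟩⟩ ⟨false,0,⟨2,
  [(8,0),(30,0),(3,1)]⟩,⟨2,[(12,0),(6,0),(8,0),(16,1)]⟩⟩,.o ⟨false,0,⟨4,[(1,3),(22,0),(15,0),(4,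
  1)]⟩,⟨0,[(23,0)]⟩⟩,.o ⟨false,0,⟨9,[(1,7),(22,1),(5,4),(0,4),(8,1),(4,3)]⟩,⟨0,[(3,0),(13,0)]⟩⟩]⟩)
  (.R ⟨0,false,false,true,[0,0,0,0,1],[1,0,-1,0,1],[1,1,0,-1],(⟨0,[(26,0)]⟩,⟨0,[(25,0)]⟩),(⟨0,[(26,
  0),(5,0)]⟩,⟨0,[(0,0),(21,0)]⟩),⟨0,[(0,0)]⟩,.k,.k,(.r 0 ⟨2,[(8,0),(30,0),(3,1)]⟩ ⟨1,[(19,0),(0,0),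
  (9,1),(14,0)]⟩),.k,.k,.k,⟨true,0,⟨0,[(13,0),(31,0)]⟩,⟨0,[(18,0)]⟩⟩,⟨false,0,⟨0,[(27,0)]⟩,⟨49,[(17,
  24),(5,13),(0,13),(5,24),(9,4),(4,0),(1,1)]⟩⟩,⟨true,0,⟨0,[(43,0)]⟩,⟨0,[(42,0)]⟩⟩,⟨false,0,⟨0,[(12,
  0),(30,0)]⟩,⟨5,[(10,1),(4,1),(1,0),(10,1),(1,2),(9,0),(4,4)]⟩⟩,⟨false,0,⟨0,[]⟩,⟨0,[]⟩⟩,⟨false,0,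
  ⟨0,[]⟩,⟨0,[]⟩⟩,[.o ⟨false,(-1),⟨0,[(4,0),(38,0)]⟩,⟨3,[(3,1),(2,1),(3,1),(2,1),(3,2),(12,2),(9,0),
  (4,4)]⟩⟩,.a ⟨true,(-1),⟨0,[(1,0),(10,0),(30,0)]⟩,⟨1,[(3,1),(6,0),(2,0),(3,1),(12,1),(14,1)]⟩⟩
  ⟨true,0,⟨0,[(43,0)]⟩,⟨3,[(10,1),(7,1),(11,0),(0,0),(13,1)]⟩⟩ ⟨false,0,⟨2,[(8,0),(3,2),(26,0),(3,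
  1)]⟩,⟨5,[(10,1),(4,1),(1,0),(10,1),(1,2),(9,0),(4,4)]⟩⟩,.o ⟨false,0,⟨4,[(1,3),(22,0),(15,0),(4,
  1)]⟩,⟨0,[(23,0)]⟩⟩,.o ⟨false,0,⟨9,[(1,7),(22,1),(5,4),(0,4),(8,1),(4,3)]⟩,⟨0,[(3,0),(13,0)]⟩⟩]⟩))
  (.Q [0,0,0,0,0,0,0,0,1,-1,0,1] (.p true [0,0,0,0,1] [1] (⟨0,[(25,0)]⟩,⟨0,[(24,0)]⟩) .k 1 (⟨0,[]⟩,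
  ⟨0,[]⟩) .k .k) (.R ⟨1,false,false,false,[0,0,1],[0,0,0,0,1],[0,0,0,-1,0,0,0,1],(⟨0,[(33,0)]⟩,⟨0,
  [(32,0)]⟩),(⟨0,[(26,0)]⟩,⟨0,[(25,0)]⟩),⟨0,[(22,0)]⟩,.k,.k,.k,.k,(.r (-1) ⟨8,[(6,4),(8,8),(8,4),
  (15,0),(4,1)]⟩ ⟨0,[(18,0)]⟩),.k,⟨true,0,⟨0,[(13,0),(31,0)]⟩,⟨0,[(18,0)]⟩⟩,⟨false,0,⟨0,[(0,0),(26,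
  0)]⟩,⟨2,[(1,1),(6,0),(14,0),(6,2),(10,0)]⟩⟩,⟨true,0,⟨0,[(43,0)]⟩,⟨0,[(42,0)]⟩⟩,⟨false,0,⟨0,[(0,0),
  (11,0),(30,0)]⟩,⟨3,[(1,2),(4,0),(3,1),(4,1),(1,0),(12,2),(14,0)]⟩⟩,⟨false,1,⟨8,[(6,4),(17,4),(15,
  0),(4,1)]⟩,⟨0,[]⟩⟩,⟨false,0,⟨0,[(0,0),(11,0)]⟩,⟨0,[(1,0),(13,0),(14,0)]⟩⟩,[.o ⟨false,0,⟨17,[(4,1),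
  (2,3),(10,1),(1,0),(3,11),(14,1),(0,2)]⟩,⟨0,[(1,0)]⟩⟩,.o ⟨false,0,⟨0,[(0,0)]⟩,⟨0,[(23,0)]⟩⟩,.o
  ⟨false,1,⟨49,[(17,24),(5,13),(0,13),(5,24),(9,4),(4,0),(1,1)]⟩,⟨0,[(16,0)]⟩⟩,.a ⟨true,0,⟨0,[(30,
  0)]⟩,⟨0,[(27,0)]⟩⟩ ⟨true,0,⟨0,[(15,0)]⟩,⟨0,[(18,0)]⟩⟩ ⟨false,0,⟨0,[(0,0),(26,0)]⟩,⟨0,[(1,0),(28,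
  0)]⟩⟩]⟩) (.Q [0,0,0,0,0,-1,0,0,0,0,0,1] (.ed false [1,-1,0,0,1] .k) (.S ⟨1,0,[0,0,1],[1,1,0,0,-1],
  [0,-1,1],(⟨0,[(26,0),(9,0)]⟩,⟨0,[(0,0)]⟩),⟨0,[(26,0)]⟩,(.r (-1) ⟨1,[(20,0),(0,0),(9,1),(14,0)]⟩
  ⟨2,[(9,0),(30,0),(3,1)]⟩),.k,⟨true,0,⟨0,[(44,0)]⟩,⟨0,[(43,0)]⟩⟩,⟨false,0,⟨0,[(44,0)]⟩,⟨2,[(13,0),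
  (6,0),(8,0),(16,1)]⟩⟩,⟨false,1,⟨8,[(7,4),(17,4),(15,0),(4,1)]⟩,⟨0,[]⟩⟩,⟨true,0,⟨0,[(48,0)]⟩,⟨0,
  []⟩⟩,[.a ⟨true,0,⟨0,[(1,0)]⟩,⟨0,[(25,0)]⟩⟩ ⟨false,1,⟨8,[(7,4),(17,4),(15,0),(4,1)]⟩,⟨3,[(9,0),(30,
  0),(1,0)]⟩⟩ ⟨true,0,⟨1,[(31,0),(0,0)]⟩,⟨0,[]⟩⟩,.o ⟨false,1,⟨0,[(2,0)]⟩,⟨17,[(5,1),(2,3),(10,1),(1,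
  0),(3,11),(14,1),(0,2)]⟩⟩,.o ⟨false,1,⟨1,[(1,0),(8,0),(13,0)]⟩,⟨5,[(5,4),(2,0),(5,3),(16,4),(0,0),
  (8,0),(4,7)]⟩⟩,.e ⟨false,1,⟨0,[(46,0)]⟩,⟨0,[(48,0)]⟩⟩ ⟨false,1,⟨8,[(7,4),(17,4),(15,0),(4,1)]⟩,⟨0,
  []⟩⟩]⟩) (.S ⟨1,0,[0,1,1],[0,1,0,0,1],[1,2,1,1],(⟨0,[(27,0),(8,0)]⟩,⟨2,[(0,0),(2,0),(2,0),(19,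
  1)]⟩),⟨0,[(27,0)]⟩,(.r 0 ⟨11,[(11,1),(7,5),(0,1),(0,1),(7,3),(1,2),(0,2)]⟩ ⟨1,[(44,1),(0,0),(0,
  0)]⟩),.k,⟨false,0,⟨0,[]⟩,⟨8,[(7,4),(17,4),(15,0),(4,1)]⟩⟩,⟨true,0,⟨0,[(44,0)]⟩,⟨0,[(43,0)]⟩⟩,
  ⟨true,0,⟨0,[(43,0)]⟩,⟨0,[(44,0)]⟩⟩,⟨false,1,⟨8,[(7,4),(17,4),(15,0),(4,1)]⟩,⟨0,[]⟩⟩,[.o ⟨false,0,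
  ⟨17,[(5,1),(2,3),(10,1),(1,0),(3,11),(14,1),(0,2)]⟩,⟨0,[(2,0)]⟩⟩,.a ⟨true,0,⟨0,[(25,0)]⟩,⟨0,[(1,
  0)]⟩⟩ ⟨false,0,⟨0,[(43,0)]⟩,⟨1,[(44,1),(0,0),(0,0)]⟩⟩ ⟨true,0,⟨1,[(31,0),(0,0)]⟩,⟨0,[]⟩⟩,.a ⟨true,
  0,⟨1,[(5,1),(3,1),(1,0),(2,0),(16,1),(14,3)]⟩,⟨0,[(4,0),(26,0)]⟩⟩ ⟨true,(-1),⟨1,[(11,0),(2,0),(4,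
  1)]⟩,⟨1,[(44,1),(0,0),(0,0)]⟩⟩ ⟨false,0,⟨1,[(31,0),(0,0)]⟩,⟨1,[(45,0),(0,0)]⟩⟩,.a ⟨true,0,⟨0,[(25,
  0)]⟩,⟨0,[(1,0)]⟩⟩ ⟨false,0,⟨0,[(43,0)]⟩,⟨0,[(44,0),(1,0)]⟩⟩ ⟨true,0,⟨0,[(48,0)]⟩,⟨0,
  []⟩⟩]⟩))))))))))) (.I [1,1,2,2,-1] (.Q [0,-1,0,2,1,0,0,0,0,-1] (.pp true [-1,1]) (.S ⟨1,0,[0,1,-1,
  -2],[1,-1],[1,0,-1,-1],(⟨0,[(30,0)]⟩,⟨0,[(31,0)]⟩),⟨0,[(14,0),(0,0)]⟩,.k,(.r (-1) ⟨0,[(36,1),(0,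
  0)]⟩ ⟨0,[(2,0),(9,0)]⟩),⟨true,0,⟨0,[]⟩,⟨0,[(40,0)]⟩⟩,⟨false,0,⟨0,[(36,0)]⟩,⟨2,[(5,0),(6,0),(8,0),
  (16,1)]⟩⟩,⟨false,1,⟨2,[(5,0),(6,0),(8,0),(16,1)]⟩,⟨0,[(36,0)]⟩⟩,⟨true,0,⟨0,[(40,0)]⟩,⟨0,[]⟩⟩,[.o
  ⟨false,0,⟨0,[(36,1),(3,0)]⟩,⟨0,[(0,0)]⟩⟩,.o ⟨false,0,⟨0,[(36,1)]⟩,⟨0,[(12,0)]⟩⟩,.o ⟨false,0,⟨1,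
  [(23,0),(0,0)]⟩,⟨9,[(16,0),(0,0),(15,1),(3,4)]⟩⟩,.a ⟨true,(-1),⟨0,[(2,0)]⟩,⟨0,[(37,0)]⟩⟩ ⟨true,1,
  ⟨0,[(36,0),(0,0)]⟩,⟨0,[(1,0),(34,0)]⟩⟩ ⟨false,1,⟨0,[(36,1),(0,0)]⟩,⟨0,[(1,0),(36,0)]⟩⟩]⟩) (.R ⟨2,
  true,false,true,[0,1],[1,-1],[1,1,1,1],(⟨0,[]⟩,⟨0,[]⟩),(⟨0,[(30,0)]⟩,⟨0,[(31,0)]⟩),⟨0,[]⟩,.k,.k,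
  .k,(.r 0 ⟨0,[(2,0),(9,0)]⟩ ⟨9,[(0,9),(15,0),(0,0),(15,1),(3,9),(0,4)]⟩),.k,.k,⟨false,0,⟨8,[(1,5),
  (3,0),(6,0),(8,0),(12,2),(3,4)]⟩,⟨9,[(0,9),(15,0),(0,0),(15,1),(3,9),(0,4)]⟩⟩,⟨true,(-1),⟨0,[(2,
  0)]⟩,⟨9,[(16,0),(0,0),(15,1),(3,4)]⟩⟩,⟨false,0,⟨0,[]⟩,⟨1,[(16,0),(0,0),(20,0)]⟩⟩,⟨true,(-1),⟨0,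
  [(0,0)]⟩,⟨0,[(12,0)]⟩⟩,⟨true,0,⟨0,[(35,0)]⟩,⟨0,[(36,0)]⟩⟩,⟨false,0,⟨5,[(0,3),(4,1),(10,0),(0,0),
  (3,1),(16,2)]⟩,⟨4,[(1,0),(1,0),(1,0),(4,0),(22,0),(0,0),(3,3)]⟩⟩,[]⟩)) (.R ⟨1,false,false,false,
  [1,-1],[1,-1,-1],[0,0,-1,-2],(⟨0,[(29,0)]⟩,⟨0,[(30,0)]⟩),(⟨0,[(13,0)]⟩,⟨0,[(25,0),(1,0)]⟩),⟨0,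
  [(13,0),(0,0)]⟩,.k,.k,(.r (-1) ⟨0,[(0,0),(38,0)]⟩ ⟨0,[(1,0),(9,0)]⟩),.k,.k,.k,⟨false,0,⟨0,[(7,
  0)]⟩,⟨1,[(10,1),(25,0),(0,0)]⟩⟩,⟨true,0,⟨0,[(8,0)]⟩,⟨0,[(22,0)]⟩⟩,⟨true,0,⟨0,[(35,0)]⟩,⟨0,[(34,
  0)]⟩⟩,⟨false,1,⟨0,[(21,0),(15,0)]⟩,⟨2,[(0,0),(1,1),(17,0),(1,1),(14,0)]⟩⟩,⟨false,1,⟨1,[(15,0),(0,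
  0),(20,0)]⟩,⟨0,[]⟩⟩,⟨false,1,⟨15,[(4,13),(5,1),(1,0),(19,2),(3,0),(0,8)]⟩,⟨0,[(7,0),(14,0)]⟩⟩,[.e
  ⟨false,1,⟨0,[(0,0),(38,0)]⟩,⟨0,[(2,0),(7,0),(26,0)]⟩⟩ ⟨false,1,⟨0,[(0,0),(5,0)]⟩,⟨3,[(1,0),(0,1),
  (8,0),(8,1),(1,1),(14,1)]⟩⟩,.o ⟨false,1,⟨10,[(0,5),(0,4),(8,0),(10,9),(1,0),(8,0),(4,7)]⟩,⟨20,[(2,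
  14),(6,7),(1,2),(8,5),(1,6),(9,1),(5,0)]⟩⟩,.o ⟨false,0,⟨1,[(22,0),(0,0)]⟩,⟨9,[(15,0),(0,0),(15,1),
  (3,4)]⟩⟩,.a ⟨true,(-1),⟨0,[(1,0)]⟩,⟨0,[(36,0)]⟩⟩ ⟨false,1,⟨0,[(0,0)]⟩,⟨0,[(1,0),(9,0)]⟩⟩ ⟨true,1,
  ⟨0,[(0,0),(5,0)]⟩,⟨20,[(1,12),(0,14),(8,2),(8,5),(1,14),(9,1),(5,0)]⟩⟩]⟩))))))) (.R ⟨2,true,false,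
  false,[0,1],[0,0,1],[1,0,1,1],(⟨0,[]⟩,⟨0,[]⟩),(⟨0,[(19,0)]⟩,⟨0,[(18,0)]⟩),⟨0,[]⟩,.k,.k,.k,.k,.k,
  .k,⟨false,1,⟨1,[(4,1),(25,0),(0,0)]⟩,⟨0,[(1,0)]⟩⟩,⟨true,0,⟨0,[(16,0)]⟩,⟨0,[(2,0)]⟩⟩,⟨true,0,⟨0,
  []⟩,⟨0,[(33,0)]⟩⟩,⟨false,0,⟨0,[(0,0)]⟩,⟨3,[(4,1),(0,0),(0,0),(8,1),(14,0),(0,1)]⟩⟩,⟨false,1,⟨0,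
  [(28,0),(2,0)]⟩,⟨0,[(29,0)]⟩⟩,⟨true,0,⟨0,[(0,0),(27,0)]⟩,⟨0,[(15,0)]⟩⟩,[]⟩))

theorem ok1 : chk K t1 l4 = true := by decide +kernel

noncomputable def t2 : Tre :=
  (.N [0,-1,1] 0 ⟨0,[(0,0)]⟩ ⟨0,[(3,0)]⟩ .k)

theorem ok2 : chk K t2 l7 = true := by decide +kernel

noncomputable def t3 : Tre :=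
  (.S ⟨1,0,[0,1,1,0,0,0,0,-1],[1,1,-1],[1,0,1,1,0,0,0,-1],(⟨0,[(22,0),(2,0)]⟩,⟨0,[(12,0)]⟩),⟨0,[(22,
  0)]⟩,.k,.k,⟨true,0,⟨0,[]⟩,⟨0,[(37,0)]⟩⟩,⟨false,0,⟨0,[(33,0)]⟩,⟨0,[(32,0),(2,0)]⟩⟩,⟨false,1,⟨0,
  [(32,0),(2,0)]⟩,⟨0,[(33,0)]⟩⟩,⟨true,0,⟨0,[(37,0)]⟩,⟨0,[]⟩⟩,[.o ⟨false,0,⟨0,[(19,0)]⟩,⟨0,[(3,0)]⟩⟩,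
  .o ⟨false,0,⟨0,[(0,0)]⟩,⟨20,[(3,10),(9,5),(0,5),(3,9),(11,1),(6,0)]⟩⟩,.a ⟨true,0,⟨0,[(17,0)]⟩,⟨0,
  [(20,0)]⟩⟩ ⟨true,0,⟨0,[(5,0)]⟩,⟨0,[(1,0),(29,0),(1,0)]⟩⟩ ⟨false,0,⟨0,[(0,0),(19,0)]⟩,⟨0,[(3,0),
  (13,0)]⟩⟩,.o ⟨false,0,⟨0,[(6,0)]⟩,⟨49,[(7,24),(5,13),(0,13),(5,24),(9,4),(4,0),(1,1)]⟩⟩]⟩)

theorem ok3 : chk K t3 l9 = true := by decide +kernel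

noncomputable def t4 : Tre :=
  (.S ⟨1,0,[0,1,1,0,0,0,0,1],[0,1,1],[0,0,1,0,0,0,0,1],(⟨0,[(25,0),(1,0)]⟩,⟨0,[(13,0)]⟩),⟨0,[(25,
  0)]⟩,.k,.k,⟨true,0,⟨0,[(35,0)]⟩,⟨0,[(34,0)]⟩⟩,⟨false,0,⟨0,[(35,0)]⟩,⟨0,[(34,0),(2,0)]⟩⟩,⟨false,1,
  ⟨1,[(15,0),(0,0),(20,0)]⟩,⟨0,[]⟩⟩,⟨true,0,⟨0,[(39,0)]⟩,⟨0,[]⟩⟩,[.o ⟨false,0,⟨0,[(1,0)]⟩,⟨0,[(21,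
  0),(15,0)]⟩⟩,.a ⟨true,0,⟨0,[(2,0)]⟩,⟨0,[(4,0),(14,0),(15,0)]⟩⟩ ⟨true,0,⟨0,[(0,0)]⟩,⟨0,[(4,0),(28,
  0),(1,1)]⟩⟩ ⟨false,0,⟨1,[(0,0),(0,0),(17,0)]⟩,⟨0,[(4,0),(30,0),(0,0)]⟩⟩,.o ⟨false,1,⟨0,[(9,0)]⟩,
  ⟨0,[(23,0)]⟩⟩,.o ⟨false,1,⟨49,[(9,24),(5,13),(0,13),(5,24),(9,4),(4,0),(1,1)]⟩,⟨0,[(8,0)]⟩⟩]⟩)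

theorem ok4 : chk K t4 l11 = true := by decide +kernel

noncomputable def t5 : Tre :=
  (.Q [0,0,-2,0,1,0,0,0,0,-1] (.pp true [-1,1]) (.R ⟨1,false,false,true,[1,-1],[0,-1,1],[0,1,0,-1,0,
  0,0,1],(⟨0,[(31,0)]⟩,⟨0,[(32,0)]⟩),(⟨0,[(16,0)]⟩,⟨0,[(26,0),(2,0)]⟩),⟨0,[(15,0),(0,0)]⟩,.k,.k,(.r
  (-1) ⟨0,[(37,1),(0,0)]⟩ ⟨0,[(4,1),(1,1),(3,1)]⟩),.k,.k,.k,⟨true,0,⟨1,[(24,0),(0,0)]⟩,⟨0,[]⟩⟩,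
  ⟨false,1,⟨0,[(11,0)]⟩,⟨1,[(14,0),(6,0),(2,0)]⟩⟩,⟨false,0,⟨0,[(8,0)]⟩,⟨0,[(2,0),(36,0)]⟩⟩,⟨true,0,
  ⟨0,[(3,0)]⟩,⟨1,[(1,0),(10,0),(8,0)]⟩⟩,⟨false,0,⟨0,[(4,1),(1,0),(3,1)]⟩,⟨0,[(1,0),(9,0)]⟩⟩,⟨false,
  1,⟨1,[(7,0),(5,0),(8,0)]⟩,⟨0,[(1,0)]⟩⟩,[.o ⟨false,0,⟨0,[(3,0),(33,0)]⟩,⟨0,[(1,0),(11,0)]⟩⟩,.a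
  ⟨true,0,⟨0,[(4,0),(32,0)]⟩,⟨0,[(6,0),(14,0)]⟩⟩ ⟨true,0,⟨0,[(5,0)]⟩,⟨0,[(9,0)]⟩⟩ ⟨false,1,⟨0,[(0,
  0),(3,0),(32,0)]⟩,⟨1,[(6,1),(7,0),(6,0),(2,0)]⟩⟩,.o ⟨false,0,⟨1,[(24,0),(0,0)]⟩,⟨9,[(17,0),(0,0),
  (15,1),(3,4)]⟩⟩,.o ⟨false,0,⟨0,[(24,0),(0,0)]⟩,⟨0,[(0,0)]⟩⟩]⟩) (.I [1,-1,-2,-1,1] (.R ⟨1,false,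
  false,true,[1,-1],[0,1],[1,0,-1,-1],(⟨0,[(32,0)]⟩,⟨0,[(33,0)]⟩),(⟨0,[(33,0)]⟩,⟨0,[(32,0)]⟩),⟨0,
  [(16,0),(0,0)]⟩,.k,.k,(.r (-1) ⟨4,[(0,3),(17,0),(0,0),(14,1),(3,5)]⟩ ⟨0,[(1,0),(12,0)]⟩),(.r (-1)
  ⟨4,[(0,3),(17,0),(0,0),(14,1),(3,5)]⟩ ⟨0,[(1,0),(12,0)]⟩),(.r (-1) ⟨0,[(0,0),(2,0),(2,0),(31,0)]⟩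
  ⟨1,[(1,2),(12,2)]⟩),.k,⟨true,1,⟨0,[(0,0),(37,0)]⟩,⟨1,[(1,4),(33,0),(0,3),(3,0)]⟩⟩,⟨false,2,⟨9,
  [(18,0),(0,0),(15,1),(3,14)]⟩,⟨0,[(1,0)]⟩⟩,⟨true,0,⟨0,[]⟩,⟨0,[(42,0)]⟩⟩,⟨false,1,⟨0,[(14,0)]⟩,⟨0,
  [(2,0),(2,0),(32,0)]⟩⟩,⟨false,1,⟨0,[(37,0),(2,0)]⟩,⟨0,[(38,0)]⟩⟩,⟨false,1,⟨1,[(1,2),(33,0),(0,5),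
  (3,2)]⟩,⟨0,[(2,0),(2,0),(32,1)]⟩⟩,[.e ⟨false,1,⟨4,[(0,3),(17,0),(0,0),(14,1),(3,0)]⟩,⟨1,[(1,0),
  (12,0)]⟩⟩ ⟨false,1,⟨10,[(14,0),(19,0),(0,1),(0,8),(2,5)]⟩,⟨2,[(1,0),(0,1),(3,0),(16,0),(1,0),(14,
  0)]⟩⟩,.o ⟨false,1,⟨49,[(14,24),(3,13),(0,13),(15,4),(4,0),(1,1)]⟩,⟨0,[(38,0)]⟩⟩,.o ⟨false,0,⟨1,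
  [(25,0),(0,0)]⟩,⟨9,[(18,0),(0,0),(15,1),(3,4)]⟩⟩,.a ⟨true,(-1),⟨0,[(1,0)]⟩,⟨0,[(39,0)]⟩⟩ ⟨false,1,
  ⟨0,[(0,0)]⟩,⟨0,[(7,0),(1,0)]⟩⟩ ⟨true,1,⟨10,[(14,0),(19,0),(0,1),(0,8),(2,5)]⟩,⟨0,[(1,0),(36,
  0)]⟩⟩]⟩) (.I [1,1,2,2,-1] (.R ⟨1,false,false,true,[1,-1],[0,-1,1],[0,1],(⟨0,[(33,0)]⟩,⟨0,[(34,
  0)]⟩),(⟨0,[(18,0)]⟩,⟨0,[(28,0),(2,0)]⟩),⟨0,[(17,0),(0,0)]⟩,.k,.k,(.r (-1) ⟨0,[(39,1),(0,0)]⟩ ⟨0,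
  [(2,0),(12,0)]⟩),.k,.k,.k,⟨true,0,⟨0,[(8,0)]⟩,⟨0,[(7,0)]⟩⟩,⟨false,1,⟨0,[(13,0)]⟩,⟨1,[(16,0),(6,0),
  (2,0)]⟩⟩,⟨false,0,⟨1,[(2,0),(12,0)]⟩,⟨3,[(3,1),(3,1),(5,1),(26,0),(0,0)]⟩⟩,⟨true,0,⟨0,[(5,0)]⟩,⟨1,
  [(3,0),(10,0),(8,0)]⟩⟩,⟨false,0,⟨4,[(0,2),(5,0),(1,0),(6,0),(7,0),(13,0),(3,1)]⟩,⟨0,[(3,0),(3,0),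
  (5,0)]⟩⟩,⟨false,1,⟨1,[(9,0),(5,0),(8,0)]⟩,⟨0,[(3,0)]⟩⟩,[.o ⟨false,0,⟨0,[(5,0),(33,0)]⟩,⟨0,[(3,0),
  (11,0)]⟩⟩,.a ⟨true,0,⟨0,[(6,0),(32,0)]⟩,⟨0,[(8,0),(14,0)]⟩⟩ ⟨false,1,⟨1,[(19,0),(0,0),(19,0)]⟩,⟨0,
  []⟩⟩ ⟨true,1,⟨0,[(7,0),(5,0)]⟩,⟨0,[(0,0),(2,0)]⟩⟩,.o ⟨false,0,⟨1,[(26,0),(0,0)]⟩,⟨9,[(19,0),(0,0),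
  (15,1),(3,4)]⟩⟩,.e ⟨true,0,⟨1,[(4,0),(0,0),(17,0)]⟩,⟨1,[(26,0),(0,0)]⟩⟩ ⟨true,1,⟨1,[(4,0),(0,0),
  (1,1),(5,0),(26,0)]⟩,⟨0,[(0,0),(2,0)]⟩⟩]⟩) (.R ⟨1,false,false,true,[1,-1],[0,1],[0,0,-1,-2],(⟨0,
  [(33,0)]⟩,⟨0,[(34,0)]⟩),(⟨0,[(34,0)]⟩,⟨0,[(33,0)]⟩),⟨0,[(17,0),(0,0)]⟩,.k,.k,(.r (-1) ⟨0,[(0,0),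
  (42,0)]⟩ ⟨0,[(2,0),(12,0)]⟩),(.r (-1) ⟨0,[(0,0),(42,0)]⟩ ⟨0,[(2,0),(12,0)]⟩),(.r (-1) ⟨0,[(0,0),
  (3,0),(2,0)]⟩ ⟨1,[(2,2),(12,2)]⟩),.k,⟨true,1,⟨0,[(0,0),(38,0)]⟩,⟨0,[(1,1),(35,0),(3,0)]⟩⟩,⟨false,
  2,⟨9,[(19,0),(0,0),(15,1),(3,14)]⟩,⟨0,[(2,0)]⟩⟩,⟨true,0,⟨0,[(39,0)]⟩,⟨0,[(38,0)]⟩⟩,⟨false,1,⟨0,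
  [(15,0)]⟩,⟨0,[(0,0),(1,0)]⟩⟩,⟨false,1,⟨1,[(19,0),(0,0),(20,0)]⟩,⟨0,[]⟩⟩,⟨false,1,⟨7,[(1,5),(13,2),
  (20,0),(0,11),(3,8)]⟩,⟨0,[(0,0),(1,0),(36,0)]⟩⟩,[.e ⟨false,1,⟨0,[(0,0),(42,0)]⟩,⟨0,[(1,0),(35,0),
  (3,0)]⟩⟩ ⟨false,1,⟨10,[(15,0),(19,0),(0,1),(0,8),(2,5)]⟩,⟨3,[(0,0),(1,1),(0,1),(6,0),(13,0),(1,0),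
  (14,0)]⟩⟩,.o ⟨false,1,⟨49,[(15,24),(3,13),(0,13),(15,4),(4,0),(1,1)]⟩,⟨0,[(39,0)]⟩⟩,.o ⟨false,0,
  ⟨1,[(26,0),(0,0)]⟩,⟨9,[(19,0),(0,0),(15,1),(3,4)]⟩⟩,.a ⟨true,(-1),⟨0,[(2,0)]⟩,⟨0,[(40,0)]⟩⟩
  ⟨false,1,⟨0,[(0,0)]⟩,⟨0,[(2,0),(12,0)]⟩⟩ ⟨true,1,⟨10,[(15,0),(19,0),(0,1),(0,8),(2,5)]⟩,⟨0,[(2,0),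
  (36,0)]⟩⟩]⟩))))

theorem ok5 : chk K t5 l12 = true := by decide +kernel

noncomputable def t6 : Tre :=
  (.I [0,0,0,-1,0,0,0,-2] (.R ⟨1,false,false,false,[1,0,-1],[0,0,1],[0,0,0,-1,0,0,0,-1],(⟨0,[(26,
  0)]⟩,⟨0,[(27,0)]⟩),(⟨0,[(27,0)]⟩,⟨0,[(26,0)]⟩),⟨0,[(15,0)]⟩,.k,.k,.k,.k,(.r (-1) ⟨1,[(0,1),(16,0),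
  (0,0),(19,0)]⟩ ⟨0,[(4,2),(1,0),(3,2)]⟩),.k,⟨true,0,⟨0,[(0,0)]⟩,⟨0,[(4,2),(1,0),(3,2)]⟩⟩,⟨false,1,
  ⟨2,[(0,1),(0,0),(2,2),(6,1),(23,0),(3,0)]⟩,⟨0,[(14,0)]⟩⟩,⟨true,0,⟨0,[(37,0)]⟩,⟨0,[(36,0)]⟩⟩,
  ⟨false,1,⟨0,[(4,0),(2,0)]⟩,⟨2,[(0,1),(5,1),(3,1),(3,0),(6,1)]⟩⟩,⟨false,1,⟨1,[(17,0),(0,0),(20,
  0)]⟩,⟨0,[]⟩⟩,⟨false,1,⟨0,[(1,0),(2,0),(34,0)]⟩,⟨0,[(0,0),(13,0)]⟩⟩,[.a ⟨true,0,⟨0,[(4,0)]⟩,⟨2,[(0,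
  0),(5,0),(7,0),(6,1),(2,0)]⟩⟩ ⟨true,0,⟨1,[(0,0),(36,0)]⟩,⟨0,[(4,1),(1,0),(3,1)]⟩⟩ ⟨false,1,⟨0,[(4,
  0),(6,0)]⟩,⟨2,[(0,0),(5,0),(3,0),(3,1),(6,0)]⟩⟩,.o ⟨false,1,⟨0,[(7,0)]⟩,⟨0,[(23,0)]⟩⟩,.o ⟨false,0,
  ⟨0,[(10,0)]⟩,⟨49,[(11,24),(5,13),(0,13),(5,24),(9,4),(4,0),(1,1)]⟩⟩,.o ⟨false,0,⟨0,[(25,0)]⟩,⟨0,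
  [(11,0)]⟩⟩]⟩) (.I [0,-1,2,1,0,0,0,-1] (.Q [0,-1,0,2,1,0,1,1,0,-1,1] (.p true [0,0,1] [1] (⟨0,[(28,
  0)]⟩,⟨0,[(27,0)]⟩) .k 1 (⟨0,[]⟩,⟨0,[]⟩) .k .k) (.Q [0,-1,0,1,1,0,0,0,0,-1] (.pp true [-1,1]) (.R
  ⟨1,false,false,false,[0,0,1],[0,1],[1,1,0,0,0,0,0,1],(⟨0,[(30,0)]⟩,⟨0,[(29,0)]⟩),(⟨0,[(35,0)]⟩,⟨0,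
  [(34,0)]⟩),⟨0,[(19,0)]⟩,.k,.k,.k,.k,(.r (-1) ⟨0,[(8,0),(31,0),(0,0)]⟩ ⟨0,[(2,0),(36,0)]⟩),.k,
  ⟨true,0,⟨1,[(5,0),(0,0),(1,1),(15,0)]⟩,⟨0,[(2,0)]⟩⟩,⟨false,1,⟨5,[(17,0),(6,3),(12,0),(3,3)]⟩,⟨0,
  [(27,0)]⟩⟩,⟨false,0,⟨0,[]⟩,⟨1,[(20,0),(0,0),(20,0)]⟩⟩,⟨false,1,⟨1,[(0,0),(4,0),(3,0),(7,0),(24,
  0)]⟩,⟨0,[(7,0),(32,0)]⟩⟩,⟨true,0,⟨0,[(39,0)]⟩,⟨0,[(40,0)]⟩⟩,⟨false,1,⟨0,[(0,0),(8,0),(14,0)]⟩,⟨0,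
  [(7,0),(32,1)]⟩⟩,[.o ⟨false,1,⟨49,[(16,24),(3,13),(0,13),(15,4),(4,0),(1,1)]⟩,⟨0,[(40,0)]⟩⟩,.o
  ⟨false,1,⟨0,[(0,0)]⟩,⟨0,[(40,0),(3,0)]⟩⟩,.o ⟨false,1,⟨49,[(14,24),(5,13),(0,13),(5,24),(9,4),(4,
  0),(1,1)]⟩,⟨0,[(13,0)]⟩⟩,.a ⟨true,0,⟨0,[(27,0)]⟩,⟨0,[(24,0)]⟩⟩ ⟨true,0,⟨0,[(6,0),(17,0)]⟩,⟨3,[(2,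
  1),(2,0),(9,0),(24,2)]⟩⟩ ⟨false,1,⟨0,[(0,0),(23,0)]⟩,⟨0,[(27,0),(12,0)]⟩⟩]⟩) (.K ⟨0,[1,-1,-1],
  (-1),0,(⟨0,[(18,0)]⟩,⟨0,[(30,0),(1,0)]⟩),.k,(.r (-1) ⟨1,[(5,1),(34,3),(0,0),(0,0)]⟩ ⟨8,[(2,4),(0,
  7),(7,2),(3,4)]⟩),.k,(.r (-1) ⟨1,[(5,2),(9,0),(24,2),(1,1)]⟩ ⟨8,[(2,0),(0,6),(7,5),(3,0)]⟩),.k,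
  [⟨2,[(0,2),(0,0),(0,0),(2,4),(1,4),(29,0),(4,2)]⟩,⟨2,[(0,2),(1,2),(0,0),(4,0),(4,2)]⟩,⟨0,[(4,0)]⟩,
  ⟨1,[(0,1),(19,0),(0,0),(4,1),(15,0)]⟩]⟩)) (.R ⟨1,true,false,false,[1,0,-1],[0,1],[0,0,0,-1,0,0,0,
  -1],(⟨0,[(28,0)]⟩,⟨0,[(29,0)]⟩),(⟨0,[(34,0)]⟩,⟨0,[(33,0)]⟩),⟨0,[(17,0)]⟩,.k,.k,.k,.k,(.r (-1) ⟨1,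
  [(0,1),(12,1),(26,0),(0,0)]⟩ ⟨8,[(1,4),(0,7),(7,2),(3,4)]⟩),.k,⟨false,1,⟨1,[(0,1),(12,1),(26,0),
  (0,0)]⟩,⟨0,[(2,0),(5,0)]⟩⟩,⟨true,1,⟨0,[(13,0)]⟩,⟨0,[(0,0),(0,0),(0,0)]⟩⟩,⟨true,0,⟨0,[(39,0)]⟩,⟨0,
  [(38,0)]⟩⟩,⟨false,1,⟨0,[(3,0),(37,0)]⟩,⟨5,[(0,3),(13,1),(4,0),(0,0),(2,1),(17,2)]⟩⟩,⟨false,1,⟨1,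
  [(19,0),(0,0),(20,0)]⟩,⟨0,[]⟩⟩,⟨true,1,⟨0,[(6,0),(8,0)]⟩,⟨0,[(0,0)]⟩⟩,[]⟩)) (.Q [0,0,0,0,0,2,0,0,
  0,0,-1] (.p false [0,0,1] [] (⟨0,[(28,0)]⟩,⟨0,[(27,0)]⟩) .k 0 (⟨0,[]⟩,⟨0,[]⟩) .k .k) (.Q [0,0,2,0,
  0,0,1,0,0,-1,1] (.p true [0,0,1] [1] (⟨0,[(29,0)]⟩,⟨0,[(28,0)]⟩) .k 1 (⟨0,[]⟩,⟨0,[]⟩) .k .k) (.R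
  ⟨0,false,false,false,[0,-1,1],[1,-1],[0,0,-1,-1,0,0,0,1],(⟨0,[(19,0)]⟩,⟨0,[(29,0),(2,0)]⟩),(⟨0,
  [(34,0)]⟩,⟨0,[(35,0)]⟩),⟨0,[(1,0)]⟩,.k,.k,(.r (-1) ⟨0,[(8,0),(31,0),(0,0)]⟩ ⟨3,[(3,0),(5,6),(1,
  0)]⟩),.k,.k,.k,⟨true,0,⟨2,[(3,0),(4,0)]⟩,⟨0,[(9,0),(30,0)]⟩⟩,⟨false,0,⟨0,[(24,0)]⟩,⟨2,[(0,0),(13,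
  1),(5,0),(0,0)]⟩⟩,⟨false,1,⟨1,[(20,0),(0,0),(20,0)]⟩,⟨0,[]⟩⟩,⟨true,0,⟨0,[(9,0),(14,0),(15,0)]⟩,⟨0,
  [(6,0)]⟩⟩,⟨false,0,⟨0,[]⟩,⟨0,[]⟩⟩,⟨false,0,⟨0,[]⟩,⟨0,[]⟩⟩,[.o ⟨false,0,⟨0,[(40,0)]⟩,⟨49,[(16,24),
  (3,13),(0,13),(15,4),(4,0),(1,1)]⟩⟩,.e ⟨false,1,⟨0,[(2,0),(39,0)]⟩,⟨0,[(15,0)]⟩⟩ ⟨false,1,⟨1,[(24,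
  1),(15,1),(0,0),(0,0)]⟩,⟨4,[(0,1),(3,2),(0,0),(3,0),(5,0)]⟩⟩,.a ⟨true,0,⟨0,[(27,0)]⟩,⟨0,[(24,
  0)]⟩⟩ ⟨false,1,⟨1,[(8,1),(32,0),(0,0)]⟩,⟨0,[(12,0)]⟩⟩ ⟨true,0,⟨0,[(24,0),(15,0)]⟩,⟨4,[(0,1),(3,2),
  (0,0),(3,0),(5,0)]⟩⟩,.o ⟨false,0,⟨0,[(0,0)]⟩,⟨5,[(17,0),(6,3),(12,0),(3,3)]⟩⟩]⟩) (.I [0,-1,2,1]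
  (.R ⟨0,false,false,true,[0,-1,1],[1,-1],[0,0,1],(⟨0,[(20,0)]⟩,⟨0,[(30,0),(2,0)]⟩),(⟨0,[(35,0)]⟩,
  ⟨0,[(36,0)]⟩),⟨0,[(2,0)]⟩,.k,.k,(.r (-1) ⟨0,[(9,0),(31,0),(0,0)]⟩ ⟨1,[(0,0),(9,1),(29,0)]⟩),.k,.k,
  .k,⟨true,0,⟨0,[(0,0)]⟩,⟨3,[(3,0),(2,0),(30,0),(3,2)]⟩⟩,⟨false,0,⟨0,[(25,0)]⟩,⟨49,[(15,24),(5,13),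
  (0,13),(5,24),(9,4),(4,0),(1,1)]⟩⟩,⟨true,0,⟨1,[(10,1),(17,0),(0,0)]⟩,⟨0,[(3,0)]⟩⟩,⟨false,0,⟨0,
  [(10,0),(14,0),(15,0)]⟩,⟨0,[(11,0)]⟩⟩,⟨false,0,⟨0,[]⟩,⟨0,[]⟩⟩,⟨false,0,⟨0,[]⟩,⟨0,[]⟩⟩,[.o ⟨false,
  0,⟨0,[(41,0),(3,0)]⟩,⟨4,[(0,0),(0,1),(3,1),(4,1),(27,0),(4,2)]⟩⟩,.o ⟨false,0,⟨0,[(41,0)]⟩,⟨49,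
  [(17,24),(3,13),(0,13),(15,4),(4,0),(1,1)]⟩⟩,.a ⟨true,0,⟨0,[(28,0)]⟩,⟨0,[(25,0)]⟩⟩ ⟨true,0,⟨1,
  [(28,0),(0,0)]⟩,⟨4,[(3,0),(2,0),(30,0),(1,0)]⟩⟩ ⟨false,0,⟨0,[(25,0),(15,0)]⟩,⟨0,[(0,0),(14,0)]⟩⟩,
  .e ⟨false,1,⟨1,[(21,0),(0,0),(20,0)]⟩,⟨0,[]⟩⟩ ⟨false,0,⟨0,[(1,0),(39,0)]⟩,⟨19,[(0,9),(10,9),(4,9),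
  (4,0),(0,0),(5,9),(9,1),(4,4)]⟩⟩]⟩) (.Q [0,1,-2,0,-1,0,-1,0,1,0,-1,1] (.p false [0,0,1] [0,0,0,0,
  1] (⟨0,[(31,0)]⟩,⟨0,[(30,0)]⟩) .k 2 (⟨0,[(24,0)]⟩,⟨0,[(23,0)]⟩) .k (.r (-1) ⟨1,[(11,0),(6,0),(7,
  0),(16,0)]⟩ ⟨1,[(6,0),(9,0),(24,0)]⟩)) (.R ⟨0,false,false,false,[0,-1,1],[0,0,0,0,1],[1,1],(⟨0,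
  [(21,0)]⟩,⟨0,[(31,0),(2,0)]⟩),(⟨0,[(25,0)]⟩,⟨0,[(24,0)]⟩),⟨0,[(3,0)]⟩,.k,.k,(.r (-1) ⟨0,[(10,0),
  (31,0),(0,0)]⟩ ⟨3,[(5,0),(5,6),(1,0)]⟩),(.r (-1) ⟨1,[(10,1),(32,0),(0,0)]⟩ ⟨0,[(17,0)]⟩),.k,.k,
  ⟨true,0,⟨0,[]⟩,⟨1,[(29,0),(0,0)]⟩⟩,⟨false,0,⟨33,[(0,23),(18,4),(3,9),(15,0),(3,9),(0,11)]⟩,⟨0,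
  [(22,0),(6,0)]⟩⟩,⟨false,0,⟨0,[(14,0)]⟩,⟨1,[(10,1),(32,0),(0,0)]⟩⟩,⟨true,(-1),⟨1,[(0,1),(10,1),(17,
  0),(0,0)]⟩,⟨0,[(9,0),(12,0),(19,0)]⟩⟩,⟨false,0,⟨0,[]⟩,⟨0,[]⟩⟩,⟨false,0,⟨0,[]⟩,⟨0,[]⟩⟩,[.e ⟨false,
  0,⟨3,[(1,0),(36,0),(1,0)]⟩,⟨1,[(22,0),(0,0),(20,0)]⟩⟩ ⟨false,(-1),⟨0,[(0,0)]⟩,⟨1,[(22,2),(0,0),(5,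
  1),(14,0)]⟩⟩,.o ⟨false,0,⟨4,[(0,3),(22,0),(5,5),(0,1),(8,0),(4,1)]⟩,⟨0,[(22,0)]⟩⟩,.a ⟨true,0,⟨0,
  [(29,0)]⟩,⟨0,[(26,0)]⟩⟩ ⟨false,0,⟨0,[]⟩,⟨1,[(22,0),(0,0),(20,0)]⟩⟩ ⟨true,(-1),⟨1,[(0,1),(28,0),(0,
  0)]⟩,⟨0,[(22,0),(6,0)]⟩⟩,.e ⟨true,0,⟨3,[(1,0),(36,0),(1,0)]⟩,⟨1,[(29,0),(0,0)]⟩⟩ ⟨true,(-1),⟨0,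
  [(0,0)]⟩,⟨1,[(22,1),(6,2),(0,0)]⟩⟩]⟩) (.Q [0,0,0,0,0,0,1,1,-1,0,1,-1] (.p true [0,0,1] [0,0,0,0,
  1] (⟨0,[(32,0)]⟩,⟨0,[(31,0)]⟩) .k 2 (⟨0,[(25,0)]⟩,⟨0,[(24,0)]⟩) .k (.r (-1) ⟨1,[(12,0),(6,0),(7,
  0),(16,0)]⟩ ⟨1,[(7,0),(9,0),(24,0)]⟩)) (.Q [0,0,0,0,0,-1,0,0,0,0,0,1] (.ed false [1,-1,0,0,1] .k)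
  (.R ⟨1,false,false,false,[0,0,0,0,1],[0,-1,1],[1,1],(⟨0,[(27,0)]⟩,⟨0,[(26,0)]⟩),(⟨0,[(23,0)]⟩,⟨0,
  [(33,0),(2,0)]⟩),⟨0,[(0,0)]⟩,.k,.k,(.r 0 ⟨2,[(3,0),(36,0),(3,1)]⟩ ⟨7,[(2,1),(4,1),(11,3),(0,0),(0,
  0),(3,1),(20,4)]⟩),(.r 0 ⟨0,[(19,0)]⟩ ⟨1,[(12,1),(32,0),(0,0)]⟩),.k,.k,⟨false,0,⟨2,[(9,0),(3,0),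
  (5,0),(22,0)]⟩,⟨1,[(12,1),(32,0),(0,0)]⟩⟩,⟨true,0,⟨0,[(1,0),(11,0),(30,0)]⟩,⟨0,[(17,0),(7,0)]⟩⟩,
  ⟨true,0,⟨0,[]⟩,⟨0,[(48,0)]⟩⟩,⟨false,1,⟨0,[(1,0),(42,0),(1,0)]⟩,⟨1,[(13,0),(3,0),(7,1),(4,0),(11,
  0)]⟩⟩,⟨false,1,⟨0,[(43,0),(2,0)]⟩,⟨0,[(44,0)]⟩⟩,⟨false,1,⟨0,[(1,0),(44,0)]⟩,⟨0,[(25,0),(4,0)]⟩⟩,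
  [.a ⟨true,0,⟨0,[(11,0),(32,0)]⟩,⟨0,[(13,0),(14,0)]⟩⟩ ⟨false,0,⟨3,[(3,0),(36,0),(1,0)]⟩,⟨33,[(2,9),
  (18,4),(3,9),(15,0),(3,9),(0,11)]⟩⟩ ⟨true,0,⟨0,[(1,0),(42,0)]⟩,⟨0,[(13,0),(3,0),(7,0)]⟩⟩,.o
  ⟨false,1,⟨0,[(14,0),(29,0)]⟩,⟨1,[(13,0),(3,0),(12,0),(11,0)]⟩⟩,.a ⟨true,0,⟨0,[(25,0)]⟩,⟨0,[(1,0),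
  (11,0),(14,0),(15,0)]⟩⟩ ⟨false,0,⟨0,[]⟩,⟨33,[(2,9),(18,4),(3,9),(15,0),(3,9),(0,11)]⟩⟩ ⟨true,0,⟨0,
  [(1,0),(42,0)]⟩,⟨1,[(13,0),(3,0),(7,1),(4,0),(11,0)]⟩⟩,.a ⟨true,0,⟨1,[(25,1),(5,0),(0,0)]⟩,⟨0,[(1,
  0),(2,0),(8,0),(30,0)]⟩⟩ ⟨true,0,⟨3,[(3,0),(36,0),(1,0)]⟩,⟨1,[(31,0),(0,0)]⟩⟩ ⟨false,1,⟨3,[(1,2),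
  (0,0),(0,1),(2,0),(37,0),(1,2)]⟩,⟨0,[(13,0),(3,0),(7,0)]⟩⟩]⟩) (.K ⟨0,[0,0,1,0,-1],0,0,(⟨0,[(0,0),
  (22,0)]⟩,⟨0,[(27,0),(5,0)]⟩),.k,(.r (-1) ⟨1,[(12,1),(32,0),(0,0)]⟩ ⟨0,[(19,0)]⟩),(.r (-1) ⟨3,[(2,
  1),(4,1),(12,0),(0,0),(3,1),(20,0)]⟩ ⟨0,[(9,0),(34,0)]⟩),.k,.k,[⟨0,[(25,0)]⟩,⟨0,[(1,0),(11,0),(30,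
  0)]⟩,⟨0,[(25,0),(4,0),(17,0)]⟩,⟨0,[(1,0)]⟩]⟩)) (.Q [0,0,1,0,0,0,0,0,1,-1,0,1] (.p true [0,0,0,0,
  1] [1] (⟨0,[(26,0)]⟩,⟨0,[(25,0)]⟩) .k 1 (⟨0,[]⟩,⟨0,[]⟩) .k .k) (.Q [0,1,0,0,-1,0,-1,-1,1,0,-1,1]
  (.p false [0,0,1] [0,0,0,0,1] (⟨0,[(34,0)]⟩,⟨0,[(33,0)]⟩) .k 2 (⟨0,[(27,0)]⟩,⟨0,[(26,0)]⟩) .k (.r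
  (-1) ⟨1,[(14,0),(6,0),(7,0),(16,0)]⟩ ⟨1,[(9,0),(9,0),(24,0)]⟩)) (.Q [0,1,-1,0,-1,0,-1,0,1,0,-1,1]
  (.p false [0,0,1] [0,0,0,0,1] (⟨0,[(35,0)]⟩,⟨0,[(34,0)]⟩) .k 2 (⟨0,[(28,0)]⟩,⟨0,[(27,0)]⟩) .k (.r
  (-1) ⟨1,[(15,0),(6,0),(7,0),(16,0)]⟩ ⟨1,[(10,0),(9,0),(24,0)]⟩)) (.R ⟨0,false,false,false,[0,-1,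
  1],[0,0,0,0,1],[1,1],(⟨0,[(25,0)]⟩,⟨0,[(35,0),(2,0)]⟩),(⟨0,[(29,0)]⟩,⟨0,[(28,0)]⟩),⟨0,[(7,0)]⟩,.k,
  .k,(.r (-1) ⟨0,[(14,0),(31,0),(0,0)]⟩ ⟨3,[(9,0),(5,6),(1,0)]⟩),(.r (-1) ⟨1,[(14,1),(32,0),(0,0)]⟩
  ⟨0,[(21,0)]⟩),.k,.k,⟨true,0,⟨0,[]⟩,⟨1,[(33,0),(0,0)]⟩⟩,⟨false,0,⟨1,[(0,1),(46,0),(0,0)]⟩,⟨2,[(4,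
  1),(6,0),(14,0),(4,0)]⟩⟩,⟨false,0,⟨0,[(18,0)]⟩,⟨1,[(14,1),(32,0),(0,0)]⟩⟩,⟨true,(-1),⟨0,[(0,0),
  (14,0)]⟩,⟨0,[(4,0),(3,0)]⟩⟩,⟨false,0,⟨0,[]⟩,⟨0,[]⟩⟩,⟨false,0,⟨0,[]⟩,⟨0,[]⟩⟩,[.a ⟨true,(-1),⟨0,[(0,
  0),(32,0)]⟩,⟨0,[(4,0),(1,0)]⟩⟩ ⟨false,0,⟨3,[(5,0),(36,0),(1,0)]⟩,⟨6,[(3,0),(0,1),(11,0),(6,0),(3,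
  0),(19,1),(0,1)]⟩⟩ ⟨true,(-1),⟨0,[(0,0)]⟩,⟨0,[(4,0)]⟩⟩,.o ⟨false,0,⟨0,[(1,0),(14,0)]⟩,⟨0,[(26,
  0)]⟩⟩,.a ⟨true,0,⟨0,[(33,0)]⟩,⟨0,[(30,0)]⟩⟩ ⟨false,0,⟨0,[]⟩,⟨6,[(3,0),(0,1),(11,0),(6,0),(3,0),
  (19,1),(0,1)]⟩⟩ ⟨true,(-1),⟨0,[(0,0)]⟩,⟨2,[(4,1),(6,0),(14,0),(4,0)]⟩⟩,.a ⟨true,0,⟨1,[(33,2),(0,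
  0)]⟩,⟨0,[(6,0)]⟩⟩ ⟨true,0,⟨3,[(5,0),(36,0),(1,0)]⟩,⟨1,[(33,0),(0,0)]⟩⟩ ⟨false,0,⟨1,[(0,1),(46,0),
  (0,0)]⟩,⟨0,[(4,0)]⟩⟩]⟩) (.Q [0,-1,0,-1,1,0,1,1,-1,0,1,-1] (.p true [0,0,1] [0,0,0,0,1] (⟨0,[(36,
  0)]⟩,⟨0,[(35,0)]⟩) .k 2 (⟨0,[(29,0)]⟩,⟨0,[(28,0)]⟩) .k (.r (-1) ⟨1,[(16,0),(6,0),(7,0),(16,0)]⟩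
  ⟨1,[(11,0),(9,0),(24,0)]⟩)) (.R ⟨1,true,false,false,[0,0,1],[0,0,0,0,1],[0,1,0,-1,0,0,0,1],(⟨0,
  [(37,0)]⟩,⟨0,[(36,0)]⟩),(⟨0,[(30,0)]⟩,⟨0,[(29,0)]⟩),⟨0,[(26,0)]⟩,.k,.k,.k,.k,(.r (-1) ⟨1,[(15,1),
  (32,0),(0,0)]⟩ ⟨0,[(22,0)]⟩),.k,⟨true,0,⟨0,[(15,0)]⟩,⟨0,[(19,0)]⟩⟩,⟨false,0,⟨0,[(3,0),(3,0)]⟩,⟨3,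
  [(1,3),(4,0),(36,0),(1,0)]⟩⟩,⟨false,0,⟨0,[(47,0)]⟩,⟨0,[(46,0),(2,0)]⟩⟩,⟨true,(-1),⟨0,[(2,0)]⟩,⟨7,
  [(0,2),(0,1),(8,0),(16,2),(4,2),(12,1)]⟩⟩,⟨true,0,⟨0,[(51,0)]⟩,⟨0,[]⟩⟩,⟨false,0,⟨8,[(2,3),(1,2),
  (2,1),(2,0),(5,3),(6,1),(4,1),(20,1)]⟩,⟨0,[(0,0)]⟩⟩,[]⟩) (.R ⟨0,false,false,false,[0,-1,1],[0,0,0,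
  0,1],[1,1],(⟨0,[(26,0)]⟩,⟨0,[(36,0),(2,0)]⟩),(⟨0,[(30,0)]⟩,⟨0,[(29,0)]⟩),⟨0,[(8,0)]⟩,.k,.k,(.r
  (-1) ⟨0,[(15,0),(31,0),(0,0)]⟩ ⟨3,[(10,0),(5,6),(1,0)]⟩),(.r (-1) ⟨1,[(15,1),(32,0),(0,0)]⟩ ⟨0,
  [(22,0)]⟩),.k,.k,⟨true,0,⟨0,[]⟩,⟨1,[(34,0),(0,0)]⟩⟩,⟨false,0,⟨0,[(0,0),(8,0),(39,0)]⟩,⟨1,[(1,0),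
  (3,0),(37,0)]⟩⟩,⟨false,0,⟨0,[(19,0)]⟩,⟨1,[(15,1),(32,0),(0,0)]⟩⟩,⟨true,(-1),⟨0,[(0,0)]⟩,⟨0,[(5,0),
  (3,0)]⟩⟩,⟨false,0,⟨0,[]⟩,⟨0,[]⟩⟩,⟨false,0,⟨0,[]⟩,⟨0,[]⟩⟩,[.e ⟨false,0,⟨3,[(6,0),(36,0),(1,0)]⟩,⟨6,
  [(4,0),(0,1),(11,0),(6,0),(3,0),(19,1),(0,1)]⟩⟩ ⟨false,0,⟨4,[(0,1),(3,2),(4,2),(0,0),(37,1)]⟩,⟨0,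
  [(1,0)]⟩⟩,.o ⟨false,0,⟨0,[(2,0),(14,0)]⟩,⟨0,[(27,0)]⟩⟩,.e ⟨false,0,⟨0,[]⟩,⟨6,[(4,0),(0,1),(11,0),
  (6,0),(3,0),(19,1),(0,1)]⟩⟩ ⟨false,0,⟨0,[(3,0),(3,0)]⟩,⟨0,[(1,0)]⟩⟩,.a ⟨true,0,⟨1,[(34,2),(0,0)]⟩,
  ⟨0,[(7,0)]⟩⟩ ⟨true,0,⟨3,[(6,0),(36,0),(1,0)]⟩,⟨1,[(34,0),(0,0)]⟩⟩ ⟨false,0,⟨0,[(0,0),(8,0),(39,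
  0)]⟩,⟨0,[(5,0)]⟩⟩]⟩))) (.Q [0,0,2,0,0,0,1,0,-1,0,1,-1] (.p true [0,0,1] [0,0,0,0,1] (⟨0,[(35,0)]⟩,
  ⟨0,[(34,0)]⟩) .k 2 (⟨0,[(28,0)]⟩,⟨0,[(27,0)]⟩) .k (.r (-1) ⟨1,[(15,0),(6,0),(7,0),(16,0)]⟩ ⟨1,
  [(10,0),(9,0),(24,0)]⟩)) (.R ⟨0,false,false,false,[0,-1,1],[0,0,0,0,1],[1],(⟨0,[(25,0)]⟩,⟨0,[(35,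
  0),(2,0)]⟩),(⟨0,[(29,0)]⟩,⟨0,[(28,0)]⟩),⟨0,[(7,0)]⟩,.k,.k,(.r (-1) ⟨0,[(14,0),(31,0),(0,0)]⟩ ⟨3,
  [(9,0),(5,6),(1,0)]⟩),(.r (-1) ⟨1,[(14,1),(32,0),(0,0)]⟩ ⟨0,[(21,0)]⟩),.k,.k,⟨false,1,⟨1,[(47,0),
  (0,0)]⟩,⟨0,[(50,0)]⟩⟩,⟨true,0,⟨0,[(2,0),(3,0)]⟩,⟨0,[(0,0)]⟩⟩,⟨true,0,⟨0,[(18,0)]⟩,⟨2,[(8,0),(5,1),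
  (27,0)]⟩⟩,⟨false,0,⟨0,[(2,0),(3,0),(8,0)]⟩,⟨0,[(1,0),(44,0)]⟩⟩,⟨false,0,⟨0,[]⟩,⟨0,[]⟩⟩,⟨false,0,
  ⟨0,[]⟩,⟨0,[]⟩⟩,[.o ⟨false,0,⟨3,[(2,2),(0,0),(1,0),(4,0),(31,0)]⟩,⟨5,[(0,4),(5,4),(19,0),(16,0),(4,
  2)]⟩⟩,.a ⟨true,0,⟨0,[(27,0)]⟩,⟨0,[(0,0),(5,0)]⟩⟩ ⟨false,1,⟨1,[(47,0),(0,0)]⟩,⟨0,[(50,0)]⟩⟩ ⟨true,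
  0,⟨0,[(2,0),(3,0)]⟩,⟨0,[(0,0)]⟩⟩,.a ⟨true,0,⟨0,[(33,0)]⟩,⟨0,[(30,0)]⟩⟩ ⟨true,0,⟨0,[]⟩,⟨0,[(50,
  0)]⟩⟩ ⟨false,0,⟨0,[(2,0),(3,0)]⟩,⟨2,[(0,0),(0,0),(2,0),(6,0),(36,0)]⟩⟩,.a ⟨true,0,⟨3,[(0,0),(1,0),
  (20,0),(9,4)]⟩,⟨0,[(6,0)]⟩⟩ ⟨false,1,⟨1,[(47,0),(0,0)]⟩,⟨3,[(0,0),(1,0),(20,0),(9,0)]⟩⟩ ⟨true,0,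
  ⟨1,[(3,1),(2,0),(1,0),(1,0)]⟩,⟨0,[(0,0)]⟩⟩]⟩) (.Q [0,0,0,0,0,1,0,0,0,0,0,-1] (.ed true [1,-1,0,0,
  1] .k) (.Q [0,0,0,0,0,0,0,0,1,-1,0,1] (.p true [0,0,0,0,1] [1] (⟨0,[(30,0)]⟩,⟨0,[(29,0)]⟩) .k 1
  (⟨0,[]⟩,⟨0,[]⟩) .k .k) (.R ⟨0,false,false,true,[0,0,0,0,1],[0,0,1],[0,1,1],(⟨0,[(31,0)]⟩,⟨0,[(30,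
  0)]⟩),(⟨0,[(38,0)]⟩,⟨0,[(37,0)]⟩),⟨0,[(1,0)]⟩,.k,.k,(.r 0 ⟨2,[(7,0),(36,0),(3,1)]⟩ ⟨7,[(6,1),(4,
  1),(11,3),(0,0),(0,0),(3,1),(20,4)]⟩),.k,.k,.k,⟨true,0,⟨0,[(17,0),(30,0)]⟩,⟨2,[(11,0),(4,0)]⟩⟩,
  ⟨false,1,⟨0,[(3,0),(9,0)]⟩,⟨4,[(2,0),(1,1),(20,1),(3,1)]⟩⟩,⟨true,0,⟨1,[(35,0),(0,0)]⟩,⟨3,[(7,0),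
  (36,0),(1,0)]⟩⟩,⟨false,1,⟨0,[(3,0)]⟩,⟨0,[(5,0)]⟩⟩,⟨false,0,⟨0,[]⟩,⟨0,[]⟩⟩,⟨false,0,⟨0,[]⟩,⟨0,[]⟩⟩,
  [.o ⟨false,0,⟨0,[(14,0)]⟩,⟨0,[(34,0),(15,0)]⟩⟩,.a ⟨true,0,⟨0,[(15,0)]⟩,⟨0,[(17,0),(14,0),(15,
  0)]⟩⟩ ⟨true,0,⟨1,[(35,0),(0,0)]⟩,⟨0,[]⟩⟩ ⟨false,1,⟨3,[(3,3),(3,0),(36,0),(1,0)]⟩,⟨0,[(5,0)]⟩⟩,.o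
  ⟨false,0,⟨0,[(0,0)]⟩,⟨0,[(28,0)]⟩⟩,.o ⟨false,0,⟨0,[(4,0)]⟩,⟨0,[(3,0),(9,0),(7,0)]⟩⟩]⟩) (.R ⟨0,
  false,false,true,[0,0,0,0,1],[0,0,1],[0,1,1,0,0,0,0,1],(⟨0,[(31,0)]⟩,⟨0,[(30,0)]⟩),(⟨0,[(38,0)]⟩,
  ⟨0,[(37,0)]⟩),⟨0,[(1,0)]⟩,.k,.k,(.r 0 ⟨2,[(7,0),(36,0),(3,1)]⟩ ⟨7,[(6,1),(4,1),(11,3),(0,0),(0,0),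
  (3,1),(20,4)]⟩),.k,.k,.k,⟨true,0,⟨1,[(35,0),(0,0)]⟩,⟨0,[]⟩⟩,⟨false,1,⟨0,[(0,0),(21,0)]⟩,⟨4,[(2,0),
  (1,1),(20,1),(3,1)]⟩⟩,⟨true,0,⟨0,[(19,0)]⟩,⟨0,[(13,0)]⟩⟩,⟨false,1,⟨0,[(3,0)]⟩,⟨0,[(5,0)]⟩⟩,⟨false,
  0,⟨0,[]⟩,⟨0,[]⟩⟩,⟨false,0,⟨0,[]⟩,⟨0,[]⟩⟩,[.o ⟨false,0,⟨0,[(14,0)]⟩,⟨0,[(34,0),(15,0)]⟩⟩,.e ⟨false,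
  0,⟨2,[(11,0),(4,0)]⟩,⟨5,[(5,1),(0,1),(6,3),(35,2),(0,0)]⟩⟩ ⟨false,1,⟨3,[(3,3),(3,0),(36,0),(1,
  0)]⟩,⟨0,[(5,0)]⟩⟩,.a ⟨true,0,⟨0,[(29,0)]⟩,⟨0,[(0,0)]⟩⟩ ⟨false,0,⟨0,[(19,0)]⟩,⟨0,[(13,0),(36,0)]⟩⟩
  ⟨true,0,⟨0,[(0,0),(13,0)]⟩,⟨0,[(5,0)]⟩⟩,.o ⟨false,0,⟨0,[(4,0)]⟩,⟨5,[(0,4),(27,0),(16,0),(3,
  2)]⟩⟩]⟩)) (.Q [0,0,0,0,0,0,0,0,1,-1,0,1] (.p true [0,0,0,0,1] [1] (⟨0,[(30,0)]⟩,⟨0,[(29,0)]⟩) .k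
  1 (⟨0,[]⟩,⟨0,[]⟩) .k .k) (.R ⟨1,false,false,true,[0,0,0,0,1],[0,-1,1],[1,1],(⟨0,[(31,0)]⟩,⟨0,[(30,
  0)]⟩),(⟨0,[(27,0)]⟩,⟨0,[(37,0),(2,0)]⟩),⟨0,[(1,0)]⟩,.k,.k,(.r 0 ⟨2,[(7,0),(36,0),(3,1)]⟩ ⟨7,[(6,
  1),(4,1),(11,3),(0,0),(0,0),(3,1),(20,4)]⟩),(.r 0 ⟨0,[(23,0)]⟩ ⟨1,[(16,1),(32,0),(0,0)]⟩),.k,.k,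
  ⟨true,0,⟨0,[(20,0)]⟩,⟨0,[(16,0)]⟩⟩,⟨false,1,⟨4,[(3,2),(2,1),(6,2),(30,0)]⟩,⟨4,[(2,2),(1,0),(20,0),
  (3,0)]⟩⟩,⟨true,0,⟨0,[]⟩,⟨0,[(52,0)]⟩⟩,⟨false,1,⟨0,[(3,0),(44,0)]⟩,⟨4,[(2,1),(2,2),(5,0),(5,3)]⟩⟩,
  ⟨false,1,⟨0,[(47,0),(2,0)]⟩,⟨0,[(48,0)]⟩⟩,⟨false,1,⟨0,[(3,0)]⟩,⟨0,[(5,0)]⟩⟩,[.o ⟨false,0,⟨0,[(14,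
  0),(33,0)]⟩,⟨19,[(8,5),(8,11),(6,3),(0,2),(8,7),(10,0),(4,13)]⟩⟩,.a ⟨true,0,⟨0,[(15,0),(32,0)]⟩,
  ⟨0,[(17,0),(14,0)]⟩⟩ ⟨true,0,⟨0,[]⟩,⟨1,[(35,0),(0,0)]⟩⟩ ⟨false,1,⟨1,[(3,0),(2,0),(0,0),(2,0)]⟩,⟨4,
  [(2,1),(2,2),(5,0),(5,3)]⟩⟩,.o ⟨false,0,⟨0,[(0,0)]⟩,⟨0,[(28,0)]⟩⟩,.o ⟨false,0,⟨0,[(4,0)]⟩,⟨0,[(3,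
  0),(9,0),(7,0)]⟩⟩]⟩) (.S ⟨1,0,[0,0,1],[1,1,0,0,-1],[0,-1,1],(⟨0,[(30,0),(9,0)]⟩,⟨0,[(1,0)]⟩),⟨0,
  [(30,0)]⟩,(.r (-1) ⟨7,[(6,1),(4,1),(11,3),(0,0),(0,0),(3,1),(20,4)]⟩ ⟨2,[(7,0),(36,0),(3,1)]⟩),.k,
  ⟨true,0,⟨0,[(48,0)]⟩,⟨0,[(47,0)]⟩⟩,⟨false,0,⟨0,[(48,0)]⟩,⟨0,[(47,0),(2,0)]⟩⟩,⟨false,1,⟨6,[(5,0),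
  (0,1),(11,0),(6,0),(3,0),(19,1),(0,1)]⟩,⟨0,[]⟩⟩,⟨true,0,⟨0,[(52,0)]⟩,⟨0,[]⟩⟩,[.a ⟨true,0,⟨0,[(0,
  0)]⟩,⟨0,[(29,0)]⟩⟩ ⟨false,1,⟨6,[(5,0),(0,1),(11,0),(6,0),(3,0),(19,1),(0,1)]⟩,⟨3,[(7,0),(36,0),(1,
  0)]⟩⟩ ⟨true,0,⟨1,[(35,0),(0,0)]⟩,⟨0,[]⟩⟩,.o ⟨false,1,⟨5,[(0,4),(27,0),(16,0),(4,2)]⟩,⟨8,[(2,0),(1,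
  7),(2,0),(4,0),(0,0),(30,2)]⟩⟩,.o ⟨false,1,⟨5,[(0,4),(27,0),(16,0),(3,2)]⟩,⟨0,[(4,0)]⟩⟩,.e ⟨false,
  1,⟨0,[(50,0)]⟩,⟨0,[(52,0)]⟩⟩ ⟨false,1,⟨6,[(5,0),(0,1),(11,0),(6,0),(3,0),(19,1),(0,1)]⟩,⟨0,
  []⟩⟩]⟩))))) (.Q [0,0,0,0,0,-1,0,0,0,0,0,1] (.ed false [1,-1,0,0,1] .k) (.S ⟨1,0,[0,-1,1],[1,1,0,0,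
  -1],[1,0,1,1],(⟨0,[(27,0),(9,0)]⟩,⟨0,[(0,0)]⟩),⟨0,[(27,0)]⟩,(.r (-1) ⟨7,[(3,1),(4,1),(11,3),(0,0),
  (0,0),(3,1),(20,4)]⟩ ⟨2,[(4,0),(36,0),(3,1)]⟩),.k,⟨false,0,⟨0,[]⟩,⟨6,[(2,0),(0,1),(11,0),(6,0),(3,
  0),(19,1),(0,1)]⟩⟩,⟨true,0,⟨0,[(45,0)]⟩,⟨0,[(44,0)]⟩⟩,⟨true,0,⟨0,[(44,0)]⟩,⟨0,[(45,0)]⟩⟩,⟨false,1,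
  ⟨6,[(2,0),(0,1),(11,0),(6,0),(3,0),(19,1),(0,1)]⟩,⟨0,[]⟩⟩,[.o ⟨false,1,⟨5,[(1,3),(1,1),(18,0),(19,
  0),(4,1)]⟩,⟨0,[(2,0),(8,0)]⟩⟩,.e ⟨false,1,⟨0,[(44,0),(2,0)]⟩,⟨2,[(4,0),(36,0),(3,1)]⟩⟩ ⟨false,1,
  ⟨0,[(47,0)]⟩,⟨0,[(41,0)]⟩⟩,.a ⟨true,0,⟨0,[(1,0)]⟩,⟨1,[(2,0),(13,0),(9,0),(5,0)]⟩⟩ ⟨true,0,⟨3,[(8,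
  0),(5,2),(1,0)]⟩,⟨2,[(4,0),(36,0),(3,1)]⟩⟩ ⟨false,1,⟨1,[(32,0),(0,0),(13,1)]⟩,⟨3,[(4,0),(36,0),(1,
  0)]⟩⟩,.e ⟨false,1,⟨0,[(44,0),(2,0)]⟩,⟨0,[(45,0)]⟩⟩ ⟨false,1,⟨0,[(47,0)]⟩,⟨0,[(49,0)]⟩⟩]⟩) (.R ⟨0,
  false,false,true,[0,1,0,0,-1],[1,0,-1,0,-1],[1],(⟨0,[(0,0)]⟩,⟨0,[(28,0),(10,0)]⟩),(⟨0,[(0,0),(22,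
  0)]⟩,⟨0,[(28,0),(6,0)]⟩),⟨0,[(28,0)]⟩,(.r (-1) ⟨7,[(3,1),(4,1),(11,3),(0,0),(0,0),(3,1),(20,4)]⟩
  ⟨2,[(4,0),(36,0),(3,1)]⟩),.k,.k,.k,.k,.k,⟨true,0,⟨2,[(8,0),(4,0)]⟩,⟨0,[(14,0),(30,0)]⟩⟩,⟨false,0,
  ⟨1,[(22,0),(6,0),(2,0)]⟩,⟨0,[(19,0)]⟩⟩,⟨true,0,⟨2,[(4,0),(36,0),(3,1)]⟩,⟨3,[(8,0),(5,2),(1,0)]⟩⟩,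
  ⟨false,0,⟨2,[(1,1),(0,1),(11,0),(7,0),(9,0),(12,3)]⟩,⟨0,[(9,0),(37,0)]⟩⟩,⟨false,0,⟨0,[]⟩,⟨0,[]⟩⟩,
  ⟨false,0,⟨0,[]⟩,⟨0,[]⟩⟩,[.a ⟨true,0,⟨0,[(1,0),(12,0),(3,0),(26,0)]⟩,⟨0,[(12,0),(13,0)]⟩⟩ ⟨true,0,
  ⟨0,[]⟩,⟨1,[(32,0),(0,0)]⟩⟩ ⟨false,0,⟨2,[(1,1),(0,1),(11,0),(7,0),(9,0),(12,0)]⟩,⟨25,[(7,3),(0,3),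
  (6,8),(3,11),(10,4),(11,0),(3,2)]⟩⟩,.o ⟨false,1,⟨4,[(1,4),(12,3),(3,2),(12,0),(1,0),(8,0),(2,3),
  (1,2)]⟩,⟨0,[(11,0),(14,0)]⟩⟩,.o ⟨false,1,⟨15,[(1,13),(23,1),(16,5),(3,0),(0,0),(1,1)]⟩,⟨1,[(2,0),
  (13,0),(9,0),(5,0)]⟩⟩,.o ⟨false,1,⟨36,[(1,23),(1,7),(7,0),(13,4),(5,0),(1,7),(8,11),(6,5)]⟩,⟨0,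
  [(26,0)]⟩⟩]⟩))))))) (.Q [0,0,-2,0,0,0,-1,0,0,1,-1] (.p false [0,0,1] [1] (⟨0,[(29,0)]⟩,⟨0,[(28,
  0)]⟩) .k 1 (⟨0,[]⟩,⟨0,[]⟩) .k .k) (.I [0,0,-1,-2,0,0,0,1] (.S ⟨1,0,[0,0,-1,-2,0,0,0,1],[0,-1,1],
  [1,1],(⟨0,[(20,0)]⟩,⟨0,[(30,0),(2,0)]⟩),⟨0,[(2,0)]⟩,.k,(.r (-1) ⟨1,[(0,1),(20,0),(0,0),(19,0)]⟩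
  ⟨3,[(4,0),(5,6),(1,0)]⟩),⟨false,0,⟨0,[(13,0)]⟩,⟨3,[(0,1),(10,0),(6,0),(7,0),(15,0),(0,1)]⟩⟩,⟨true,
  0,⟨0,[(41,0)]⟩,⟨0,[(40,0)]⟩⟩,⟨true,0,⟨0,[(10,0),(29,0)]⟩,⟨0,[(0,0)]⟩⟩,⟨false,1,⟨1,[(21,0),(0,0),
  (20,0)]⟩,⟨0,[]⟩⟩,[.a ⟨true,0,⟨0,[(0,0),(27,0)]⟩,⟨2,[(1,1),(2,0),(5,4),(14,0)]⟩⟩ ⟨false,0,⟨4,[(3,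
  0),(2,0),(30,0),(1,0)]⟩,⟨1,[(21,0),(0,0),(20,0)]⟩⟩ ⟨true,0,⟨0,[(0,0)]⟩,⟨3,[(4,0),(5,6),(1,0)]⟩⟩,
  .o ⟨false,1,⟨9,[(0,9),(20,0),(0,0),(5,9),(9,1),(4,4)]⟩,⟨0,[(10,0),(3,0),(24,0)]⟩⟩,.a ⟨true,0,⟨0,
  [(28,0)]⟩,⟨0,[(25,0)]⟩⟩ ⟨false,0,⟨0,[]⟩,⟨1,[(21,0),(0,0),(20,0)]⟩⟩ ⟨true,0,⟨0,[(0,0)]⟩,⟨0,[(10,0),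
  (29,0)]⟩⟩,.a ⟨true,0,⟨1,[(28,2),(0,0)]⟩,⟨0,[(1,0)]⟩⟩ ⟨true,0,⟨4,[(3,0),(2,0),(30,0),(1,0)]⟩,⟨1,
  [(28,0),(0,0)]⟩⟩ ⟨false,1,⟨1,[(0,1),(41,0),(0,0)]⟩,⟨3,[(4,0),(5,6),(1,0)]⟩⟩]⟩) (.Q [0,0,-1,0,1,0,
  2,0,0,-1,2] (.p true [0,0,1] [1,0,-1] (⟨0,[(31,0)]⟩,⟨0,[(30,0)]⟩) .k 2 (⟨0,[(30,0)]⟩,⟨0,[(31,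
  0)]⟩) .k (.r 0 ⟨2,[(4,1),(4,1)]⟩ ⟨0,[(6,0),(9,0),(24,0),(1,0)]⟩)) (.Q [0,0,-2,0,1,0,1,0,0,-1,1]
  (.p true [0,0,1] [1] (⟨0,[(32,0)]⟩,⟨0,[(31,0)]⟩) .k 1 (⟨0,[]⟩,⟨0,[]⟩) .k .k) (.Q [0,0,0,0,0,2,0,0,
  0,-1,1] (.p true [0,0,1] [1] (⟨0,[(33,0)]⟩,⟨0,[(32,0)]⟩) .k 1 (⟨0,[]⟩,⟨0,[]⟩) .k .k) (.R ⟨0,false,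
  false,false,[1,-1,-1],[0,-1,1],[1],(⟨0,[(22,0)]⟩,⟨0,[(34,0),(1,0)]⟩),(⟨0,[(23,0)]⟩,⟨0,[(33,0),(2,
  0)]⟩),⟨0,[(0,0)]⟩,.k,.k,(.r (-1) ⟨1,[(9,1),(34,3),(0,0),(0,0)]⟩ ⟨5,[(3,4),(3,1),(7,6)]⟩),.k,.k,.k,
  ⟨true,0,⟨0,[(16,0)]⟩,⟨0,[(12,0)]⟩⟩,⟨false,1,⟨0,[(2,0)]⟩,⟨0,[(21,0)]⟩⟩,⟨true,0,⟨2,[(3,0),(3,0),(7,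
  1)]⟩,⟨0,[(9,0),(34,0)]⟩⟩,⟨false,1,⟨0,[(11,0),(2,0)]⟩,⟨0,[(4,0),(8,1),(3,0),(26,1)]⟩⟩,⟨false,0,⟨0,
  []⟩,⟨0,[]⟩⟩,⟨false,0,⟨0,[]⟩,⟨0,[]⟩⟩,[.a ⟨true,0,⟨0,[(11,0),(32,0)]⟩,⟨0,[(13,0),(14,0)]⟩⟩ ⟨true,0,
  ⟨0,[]⟩,⟨1,[(31,0),(0,0)]⟩⟩ ⟨false,1,⟨0,[(1,0),(9,0),(32,0)]⟩,⟨0,[(13,0),(7,0)]⟩⟩,.o ⟨false,1,⟨0,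
  [(14,0),(29,0)]⟩,⟨2,[(3,0),(13,0),(12,1),(11,0)]⟩⟩,.o ⟨false,0,⟨0,[(32,0)]⟩,⟨0,[(18,0)]⟩⟩,.o
  ⟨false,0,⟨1,[(31,0),(0,2)]⟩,⟨0,[(1,0)]⟩⟩]⟩) (.Q [0,-1,0,-2,0,0,-1,-1,0,1,-1] (.p false [0,0,1]
  [1] (⟨0,[(34,0)]⟩,⟨0,[(33,0)]⟩) .k 1 (⟨0,[]⟩,⟨0,[]⟩) .k .k) (.R ⟨1,false,false,true,[1,-1],[0,0,
  1],[0,1,1],(⟨0,[(39,0)]⟩,⟨0,[(40,0)]⟩),(⟨0,[(35,0)]⟩,⟨0,[(34,0)]⟩),⟨2,[(1,0),(4,0),(32,1)]⟩,.k,.k,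
  (.r (-1) ⟨10,[(0,8),(6,3),(11,3),(10,4),(11,0),(3,4)]⟩ ⟨0,[(4,0),(11,0)]⟩),.k,(.r (-1) ⟨1,[(0,1),
  (1,0),(16,0),(21,0)]⟩ ⟨5,[(4,4),(3,1),(7,6)]⟩),.k,⟨true,0,⟨0,[(14,0),(30,0)]⟩,⟨2,[(8,0),(4,0)]⟩⟩,
  ⟨false,1,⟨0,[(2,0)]⟩,⟨0,[(22,0),(9,0)]⟩⟩,⟨false,0,⟨1,[(4,0),(11,0),(15,0),(0,0)]⟩,⟨5,[(0,1),(1,2),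
  (2,0),(1,1),(39,2)]⟩⟩,⟨true,0,⟨0,[(9,0)]⟩,⟨15,[(0,10),(19,5),(1,0),(6,3),(0,0),(10,1)]⟩⟩,⟨false,0,
  ⟨0,[(4,0),(11,0)]⟩,⟨3,[(0,2),(1,1),(4,1),(7,0),(31,0)]⟩⟩,⟨false,1,⟨13,[(3,3),(0,3),(3,5),(6,2),(5,
  6),(8,2)]⟩,⟨0,[(0,0)]⟩⟩,[.o ⟨false,0,⟨0,[(11,0)]⟩,⟨0,[(31,0),(15,0)]⟩⟩,.a ⟨true,0,⟨0,[(12,0)]⟩,⟨4,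
  [(0,1),(3,0),(15,1),(8,2)]⟩⟩ ⟨true,0,⟨1,[(32,0),(0,0)]⟩,⟨0,[]⟩⟩ ⟨false,1,⟨3,[(2,2),(4,0),(0,0),(6,
  0)]⟩,⟨9,[(0,3),(3,1),(15,3),(1,4),(6,0),(2,4)]⟩⟩,.o ⟨false,0,⟨1,[(32,0),(0,0)]⟩,⟨9,[(25,0),(0,0),
  (15,1),(3,4)]⟩⟩,.o ⟨false,0,⟨0,[(32,0),(0,0)]⟩,⟨4,[(2,1),(2,1),(36,0),(3,0)]⟩⟩]⟩) (.I [0,-1,1,0,0,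
  0,0,2] (.R ⟨1,false,false,false,[1,-1,-1],[0,-1,1],[1,1,-1,-1,0,0,0,-1],(⟨0,[(24,0)]⟩,⟨0,[(36,0),
  (1,0)]⟩),(⟨0,[(25,0)]⟩,⟨0,[(35,0),(2,0)]⟩),⟨0,[(2,0)]⟩,.k,.k,(.r (-1) ⟨1,[(11,1),(34,3),(0,0),(0,
  0)]⟩ ⟨8,[(0,6),(4,3),(3,2),(11,6)]⟩),.k,(.r (-1) ⟨1,[(11,2),(9,0),(24,2),(1,1)]⟩ ⟨2,[(0,0),(8,1),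
  (7,0),(3,0)]⟩),.k,⟨true,0,⟨0,[(11,0),(3,0),(30,0)]⟩,⟨0,[(0,0)]⟩⟩,⟨false,1,⟨0,[(4,0)]⟩,⟨0,[(23,
  0)]⟩⟩,⟨false,0,⟨0,[]⟩,⟨1,[(26,0),(0,0),(20,0)]⟩⟩,⟨false,1,⟨0,[(13,0),(2,0)]⟩,⟨0,[(6,0),(8,1),(3,
  0),(26,1)]⟩⟩,⟨true,0,⟨0,[(45,0)]⟩,⟨0,[(46,0)]⟩⟩,⟨false,1,⟨1,[(1,0),(11,1),(2,0),(31,0)]⟩,⟨0,[(6,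
  0),(8,1),(3,0),(26,2)]⟩⟩,[.a ⟨true,0,⟨0,[(13,0),(32,0)]⟩,⟨0,[(15,0),(14,0)]⟩⟩ ⟨true,0,⟨0,[(11,0),
  (34,0)]⟩,⟨0,[(0,0),(14,0)]⟩⟩ ⟨false,1,⟨0,[(3,0),(9,0),(32,0)]⟩,⟨0,[(15,0),(7,0)]⟩⟩,.o ⟨false,1,⟨0,
  [(16,0),(29,0)]⟩,⟨5,[(1,0),(3,1),(0,0),(12,0),(12,4)]⟩⟩,.o ⟨false,0,⟨0,[(34,0)]⟩,⟨0,[(20,0)]⟩⟩,.o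
  ⟨false,0,⟨1,[(33,0),(0,2)]⟩,⟨0,[(3,0)]⟩⟩]⟩) (.Q [0,1,0,0,-1,0,1,1,1,-1,1,1] (.p true [0,0,1] [1,0,
  0,0,-1] (⟨0,[(36,0)]⟩,⟨0,[(35,0)]⟩) .k 2 (⟨0,[(28,0)]⟩,⟨0,[(29,0)]⟩) .k (.r 0 ⟨8,[(8,0),(0,0),(7,
  5),(24,3)]⟩ ⟨5,[(0,1),(20,1),(4,0),(0,0),(18,1),(1,4)]⟩)) (.Q [0,0,0,0,0,-1,0,0,0,1,0,-1] (.ed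
  true [0,1,0,0,1] .k) (.R ⟨1,false,false,false,[1,0,0,0,-1],[0,-1,1],[1],(⟨0,[(30,0)]⟩,⟨0,[(31,
  0)]⟩),(⟨0,[(27,0)]⟩,⟨0,[(37,0),(2,0)]⟩),⟨0,[(0,0)]⟩,.k,.k,(.r (-1) ⟨1,[(48,1),(0,0),(0,0)]⟩ ⟨1,
  [(19,0),(3,0),(23,0)]⟩),(.r (-1) ⟨0,[(23,0),(26,0)]⟩ ⟨2,[(10,0),(5,1),(27,0)]⟩),.k,.k,⟨true,0,⟨0,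
  [(20,0)]⟩,⟨0,[(16,0)]⟩⟩,⟨false,0,⟨56,[(1,35),(0,17),(3,0),(22,20),(5,18),(9,3),(4,26)]⟩,⟨0,[(28,
  0),(3,0)]⟩⟩,⟨false,0,⟨0,[]⟩,⟨1,[(28,0),(0,0),(20,0)]⟩⟩,⟨true,(-1),⟨0,[(1,0),(46,0)]⟩,⟨0,[(17,0),
  (10,0),(3,0)]⟩⟩,⟨true,0,⟨0,[(47,0)]⟩,⟨0,[(48,0)]⟩⟩,⟨true,(-1),⟨0,[(1,0)]⟩,⟨0,[(17,0),(10,0),(3,0),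
  (15,0)]⟩⟩,[.a ⟨true,0,⟨0,[(15,0),(32,0)]⟩,⟨0,[(17,0),(14,0)]⟩⟩ ⟨true,0,⟨0,[]⟩,⟨1,[(35,0),(0,0)]⟩⟩
  ⟨false,0,⟨3,[(1,2),(3,0),(4,0),(18,0),(18,2),(1,1)]⟩,⟨0,[(17,0),(10,0),(3,0)]⟩⟩,.o ⟨false,1,⟨0,
  [(18,0),(29,0)]⟩,⟨5,[(3,0),(3,1),(0,0),(12,0),(12,4)]⟩⟩,.o ⟨false,1,⟨0,[(28,0)]⟩,⟨12,[(1,7),(0,3),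
  (18,3),(7,4),(6,3),(8,0),(4,5)]⟩⟩,.o ⟨false,1,⟨1,[(28,1),(6,0),(0,0)]⟩,⟨9,[(1,7),(0,3),(5,2),(12,
  4),(7,1),(15,0),(4,5)]⟩⟩]⟩) (.R ⟨0,false,false,false,[1,0,0,0,-1],[0,0,1],[0,0,1],(⟨0,[(30,0)]⟩,
  ⟨0,[(31,0)]⟩),(⟨0,[(38,0)]⟩,⟨0,[(37,0)]⟩),⟨0,[(0,0)]⟩,.k,.k,(.r (-1) ⟨1,[(48,1),(0,0),(0,0)]⟩ ⟨1,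
  [(19,0),(3,0),(23,0)]⟩),.k,.k,.k,⟨true,0,⟨0,[(17,0),(30,0)]⟩,⟨2,[(11,0),(4,0)]⟩⟩,⟨false,0,⟨13,[(1,
  11),(0,5),(2,2),(2,0),(20,1),(20,8)]⟩,⟨1,[(25,0),(2,1),(3,0),(2,0)]⟩⟩,⟨false,0,⟨1,[(35,0),(0,0)]⟩,
  ⟨1,[(49,0),(0,0)]⟩⟩,⟨true,(-1),⟨0,[(1,0)]⟩,⟨0,[(17,0),(10,0),(3,0),(15,0)]⟩⟩,⟨false,0,⟨0,[]⟩,⟨0,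
  []⟩⟩,⟨false,0,⟨0,[]⟩,⟨0,[]⟩⟩,[.a ⟨true,0,⟨0,[(15,0)]⟩,⟨0,[(17,0),(14,0),(15,0)]⟩⟩ ⟨true,0,⟨1,[(35,
  0),(0,0)]⟩,⟨0,[]⟩⟩ ⟨false,0,⟨11,[(1,8),(3,3),(2,0),(1,0),(0,0),(17,2),(20,4)]⟩,⟨0,[(17,0),(10,0),
  (3,0),(15,0)]⟩⟩,.o ⟨false,1,⟨0,[(18,0)]⟩,⟨0,[(34,0)]⟩⟩,.o ⟨false,1,⟨0,[(28,0)]⟩,⟨12,[(1,7),(0,3),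
  (18,3),(7,4),(6,3),(8,0),(4,5)]⟩⟩,.o ⟨false,1,⟨1,[(28,1),(6,0),(0,0)]⟩,⟨9,[(1,7),(0,3),(5,2),(12,
  4),(7,1),(15,0),(4,5)]⟩⟩]⟩)) (.Q [0,-1,0,0,1,0,0,0,-1,0,0,-1] (.p false [0,0,0,0,1] [] (⟨0,[(30,
  0)]⟩,⟨0,[(29,0)]⟩) .k 0 (⟨0,[]⟩,⟨0,[]⟩) .k .k) (.Q [0,0,0,0,0,0,0,0,-1,1,0,-1] (.p false [0,0,0,0,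
  1] [1] (⟨0,[(31,0)]⟩,⟨0,[(30,0)]⟩) .k 1 (⟨0,[]⟩,⟨0,[]⟩) .k .k) (.Q [0,0,-1,0,0,0,0,0,-1,1,0,-1]
  (.p false [0,0,0,0,1] [1] (⟨0,[(32,0)]⟩,⟨0,[(31,0)]⟩) .k 1 (⟨0,[]⟩,⟨0,[]⟩) .k .k) (.Q [0,1,0,1,0,
  0,0,0,1,-1,0,1] (.p true [0,0,0,0,1] [1] (⟨0,[(33,0)]⟩,⟨0,[(32,0)]⟩) .k 1 (⟨0,[]⟩,⟨0,[]⟩) .k .k)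
  (.Q [0,0,0,0,0,-1,0,0,0,0,0,1] (.ed false [1,-1,0,0,1] .k) (.S ⟨1,0,[0,-1,1],[1,1,0,0,-1],[1,0,1,
  1],(⟨0,[(34,0),(9,0)]⟩,⟨0,[(0,0)]⟩),⟨0,[(34,0)]⟩,(.r (-1) ⟨13,[(15,1),(7,3),(3,9),(0,0),(0,0),(7,
  1),(16,12)]⟩ ⟨6,[(6,0),(7,1),(33,1),(3,4)]⟩),.k,⟨false,0,⟨0,[]⟩,⟨1,[(32,0),(0,0),(20,0)]⟩⟩,⟨true,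
  0,⟨0,[(52,0)]⟩,⟨0,[(51,0)]⟩⟩,⟨true,0,⟨0,[(51,0)]⟩,⟨0,[(52,0)]⟩⟩,⟨false,1,⟨1,[(32,0),(0,0),(20,
  0)]⟩,⟨0,[]⟩⟩,[.o ⟨false,1,⟨0,[(4,0)]⟩,⟨0,[(1,0),(50,0)]⟩⟩,.e ⟨false,1,⟨15,[(5,2),(5,3),(3,1),(12,
  2),(4,2),(3,2),(15,1),(0,7)]⟩,⟨6,[(6,0),(7,1),(33,1),(3,4)]⟩⟩ ⟨false,1,⟨0,[(54,0)]⟩,⟨0,[(48,0)]⟩⟩,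
  .a ⟨true,0,⟨0,[(2,0)]⟩,⟨1,[(33,1),(5,0),(0,0)]⟩⟩ ⟨true,0,⟨1,[(11,0),(11,0)]⟩,⟨6,[(6,0),(7,1),(33,
  1),(3,4)]⟩⟩ ⟨false,1,⟨1,[(39,0),(0,0),(13,1)]⟩,⟨8,[(6,0),(7,1),(33,1),(1,1)]⟩⟩,.e ⟨false,1,⟨15,
  [(5,2),(5,3),(3,1),(12,2),(4,2),(3,2),(15,1),(0,7)]⟩,⟨0,[(52,0)]⟩⟩ ⟨false,1,⟨0,[(54,0)]⟩,⟨0,[(56,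
  0)]⟩⟩]⟩) (.R ⟨0,false,false,true,[0,1,0,0,-1],[1,0,0,0,-1],[1],(⟨0,[(0,0)]⟩,⟨0,[(35,0),(10,0)]⟩),
  (⟨0,[(34,0)]⟩,⟨0,[(35,0)]⟩),⟨0,[(35,0)]⟩,(.r (-1) ⟨13,[(15,1),(7,3),(3,9),(0,0),(0,0),(7,1),(16,
  12)]⟩ ⟨6,[(6,0),(7,1),(33,1),(3,4)]⟩),.k,.k,.k,.k,.k,⟨true,0,⟨0,[]⟩,⟨1,[(39,0),(0,0)]⟩⟩,⟨false,0,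
  ⟨0,[(36,0),(2,0)]⟩,⟨9,[(32,0),(0,0),(15,1),(3,4)]⟩⟩,⟨true,0,⟨6,[(6,0),(7,1),(33,1),(3,4)]⟩,⟨1,
  [(11,0),(11,0)]⟩⟩,⟨false,0,⟨0,[(36,0),(2,0),(12,0)]⟩,⟨57,[(7,7),(3,15),(0,7),(2,3),(12,2),(20,10),
  (4,32)]⟩⟩,⟨false,0,⟨0,[]⟩,⟨0,[]⟩⟩,⟨false,0,⟨0,[]⟩,⟨0,[]⟩⟩,[.a ⟨true,0,⟨0,[(3,0)]⟩,⟨0,[(33,0)]⟩⟩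
  ⟨true,0,⟨0,[]⟩,⟨1,[(39,0),(0,0)]⟩⟩ ⟨false,0,⟨0,[(36,0),(2,0)]⟩,⟨9,[(32,0),(0,0),(15,1),(3,4)]⟩⟩,
  .o ⟨false,1,⟨0,[(4,0)]⟩,⟨0,[(1,0),(50,0)]⟩⟩,.o ⟨false,1,⟨21,[(2,17),(1,2),(27,0),(16,7),(3,1),(2,
  2)]⟩,⟨1,[(33,1),(5,0),(0,0)]⟩⟩,.o ⟨false,1,⟨5,[(3,3),(0,0),(27,0),(16,1),(6,0)]⟩,⟨0,[(33,
  0)]⟩⟩]⟩)) (.Q [0,0,0,0,0,-1,0,0,0,0,0,1] (.ed false [1,-1,0,0,1] .k) (.R ⟨1,false,false,false,[0,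
  0,0,0,1],[0,-1,1],[1,1],(⟨0,[(35,0)]⟩,⟨0,[(34,0)]⟩),(⟨0,[(31,0)]⟩,⟨0,[(41,0),(2,0)]⟩),⟨0,[(0,0)]⟩,
  .k,.k,(.r 0 ⟨6,[(6,0),(7,1),(33,1),(3,4)]⟩ ⟨13,[(15,1),(7,3),(3,9),(0,0),(0,0),(7,1),(16,12)]⟩),
  (.r 0 ⟨0,[(27,0)]⟩ ⟨1,[(20,1),(32,0),(0,0)]⟩),.k,.k,⟨false,0,⟨5,[(6,1),(4,0),(15,0),(23,2)]⟩,⟨1,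
  [(20,1),(32,0),(0,0)]⟩⟩,⟨true,0,⟨0,[(1,0),(16,0),(2,0)]⟩,⟨0,[(25,0),(7,0)]⟩⟩,⟨true,0,⟨0,[]⟩,⟨0,
  [(56,0)]⟩⟩,⟨false,1,⟨0,[(1,0),(20,0)]⟩,⟨5,[(7,0),(3,1),(0,0),(12,0),(7,5),(4,4)]⟩⟩,⟨false,1,⟨15,
  [(5,2),(5,3),(3,1),(12,2),(4,2),(3,2),(15,1),(0,7)]⟩,⟨0,[(52,0)]⟩⟩,⟨false,1,⟨1,[(1,1),(5,0),(14,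
  0),(31,0)]⟩,⟨0,[(33,0),(4,0)]⟩⟩,[.a ⟨true,0,⟨0,[(19,0),(32,0)]⟩,⟨0,[(21,0),(14,0)]⟩⟩ ⟨false,0,⟨8,
  [(6,0),(7,1),(33,1),(1,1)]⟩,⟨1,[(32,0),(0,0),(20,0)]⟩⟩ ⟨true,0,⟨0,[(1,0),(16,0)]⟩,⟨0,[(21,0),(3,
  0),(7,0)]⟩⟩,.o ⟨false,1,⟨0,[(22,0),(29,0)]⟩,⟨5,[(7,0),(3,1),(0,0),(12,0),(12,4)]⟩⟩,.a ⟨true,0,⟨0,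
  [(33,0)]⟩,⟨0,[(3,0)]⟩⟩ ⟨false,0,⟨0,[]⟩,⟨1,[(32,0),(0,0),(20,0)]⟩⟩ ⟨true,0,⟨0,[(1,0),(16,0)]⟩,⟨5,
  [(7,0),(3,1),(0,0),(12,0),(7,5),(4,4)]⟩⟩,.a ⟨true,0,⟨1,[(33,1),(5,0),(0,0)]⟩,⟨0,[(2,0)]⟩⟩ ⟨true,0,
  ⟨8,[(6,0),(7,1),(33,1),(1,1)]⟩,⟨1,[(39,0),(0,0)]⟩⟩ ⟨false,1,⟨5,[(1,3),(0,0),(7,0),(3,1),(7,3),(9,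
  0)]⟩,⟨0,[(21,0),(3,0),(7,0)]⟩⟩]⟩) (.K ⟨0,[0,0,1,0,-1],0,0,(⟨0,[(0,0),(30,0)]⟩,⟨0,[(35,0),(5,0)]⟩),
  .k,(.r (-1) ⟨1,[(20,1),(32,0),(0,0)]⟩ ⟨0,[(27,0)]⟩),(.r (-1) ⟨6,[(15,1),(7,3),(3,2),(0,0),(0,0),
  (7,1),(16,5)]⟩ ⟨6,[(6,3),(7,0),(33,0),(3,5)]⟩),.k,.k,[⟨0,[(33,0)]⟩,⟨0,[(1,0),(16,0),(2,0)]⟩,⟨0,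
  [(33,0),(4,0),(17,0)]⟩,⟨0,[(1,0),(14,0)]⟩]⟩))) (.Q [0,0,0,0,0,-1,0,0,0,0,0,1] (.ed false [1,-1,0,
  0,1] .k) (.S ⟨1,0,[0,0,1],[1,1,0,0,-1],[0,-1,1],(⟨0,[(33,0),(9,0)]⟩,⟨0,[(0,0)]⟩),⟨0,[(33,0)]⟩,(.r
  (-1) ⟨13,[(14,1),(7,3),(3,9),(0,0),(0,0),(7,1),(16,12)]⟩ ⟨6,[(5,0),(7,1),(33,1),(3,4)]⟩),.k,⟨true,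
  0,⟨0,[(51,0)]⟩,⟨0,[(50,0)]⟩⟩,⟨false,0,⟨0,[(51,0)]⟩,⟨15,[(4,2),(5,3),(3,1),(12,2),(4,2),(3,2),(15,
  1),(0,7)]⟩⟩,⟨false,1,⟨1,[(31,0),(0,0),(20,0)]⟩,⟨0,[]⟩⟩,⟨true,0,⟨0,[(55,0)]⟩,⟨0,[]⟩⟩,[.a ⟨true,0,
  ⟨0,[(2,0)]⟩,⟨0,[(32,0)]⟩⟩ ⟨false,1,⟨1,[(31,0),(0,0),(20,0)]⟩,⟨8,[(5,0),(7,1),(33,1),(1,1)]⟩⟩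
  ⟨true,0,⟨1,[(38,0),(0,0)]⟩,⟨0,[]⟩⟩,.o ⟨false,1,⟨0,[(3,0)]⟩,⟨8,[(1,8),(3,0),(7,1),(33,1),(1,1)]⟩⟩,
  .o ⟨false,1,⟨30,[(2,9),(0,4),(1,0),(2,5),(2,5),(1,1),(17,15),(16,1),(0,1)]⟩,⟨0,[(1,0)]⟩⟩,.e
  ⟨false,1,⟨0,[(53,0)]⟩,⟨0,[(55,0)]⟩⟩ ⟨false,1,⟨1,[(31,0),(0,0),(20,0)]⟩,⟨0,[]⟩⟩]⟩) (.R ⟨0,false,
  false,true,[0,0,0,0,1],[0,0,1],[0,1,1,0,0,0,0,1],(⟨0,[(34,0)]⟩,⟨0,[(33,0)]⟩),(⟨0,[(41,0)]⟩,⟨0,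
  [(40,0)]⟩),⟨0,[(0,0)]⟩,.k,.k,(.r 0 ⟨6,[(5,0),(7,1),(33,1),(3,4)]⟩ ⟨13,[(14,1),(7,3),(3,9),(0,0),
  (0,0),(7,1),(16,12)]⟩),.k,.k,.k,⟨true,0,⟨1,[(38,0),(0,0)]⟩,⟨0,[]⟩⟩,⟨false,1,⟨2,[(2,1),(5,0),(0,0),
  (21,0)]⟩,⟨2,[(1,1),(9,0),(16,0),(3,0)]⟩⟩,⟨true,0,⟨0,[(22,0)]⟩,⟨0,[(16,0)]⟩⟩,⟨false,1,⟨0,[(3,0),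
  (14,0)]⟩,⟨0,[(1,0),(9,0),(8,0),(30,0)]⟩⟩,⟨false,0,⟨0,[]⟩,⟨0,[]⟩⟩,⟨false,0,⟨0,[]⟩,⟨0,[]⟩⟩,[.o
  ⟨false,0,⟨0,[(17,0)]⟩,⟨12,[(1,3),(2,4),(0,3),(22,3),(3,0),(15,0),(4,5)]⟩⟩,.e ⟨false,0,⟨2,[(14,0),
  (4,0)]⟩,⟨10,[(4,4),(0,2),(19,4),(6,4),(14,0),(4,0)]⟩⟩ ⟨false,1,⟨6,[(2,2),(0,2),(5,2),(3,1),(0,1),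
  (16,0),(4,0)]⟩,⟨0,[(1,0),(9,0),(8,0),(30,0)]⟩⟩,.a ⟨true,0,⟨0,[(32,0)]⟩,⟨0,[(2,0)]⟩⟩ ⟨false,0,⟨0,
  [(22,0)]⟩,⟨3,[(5,1),(46,0),(0,2)]⟩⟩ ⟨true,0,⟨0,[(2,0),(14,0)]⟩,⟨0,[(1,0),(9,0),(8,0),(30,0)]⟩⟩,.o
  ⟨false,0,⟨0,[(1,0)]⟩,⟨30,[(2,9),(0,4),(1,0),(2,5),(2,5),(1,1),(17,15),(16,1),(0,1)]⟩⟩]⟩))) (.R ⟨1,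
  false,false,false,[0,0,1],[0,0,0,0,1],[0,1,0,-1,0,0,0,1],(⟨0,[(39,0)]⟩,⟨0,[(38,0)]⟩),(⟨0,[(32,
  0)]⟩,⟨0,[(31,0)]⟩),⟨0,[(28,0)]⟩,.k,.k,.k,.k,(.r (-1) ⟨1,[(17,1),(32,0),(0,0)]⟩ ⟨0,[(24,0)]⟩),.k,
  ⟨true,0,⟨0,[(17,0)]⟩,⟨0,[(21,0)]⟩⟩,⟨false,0,⟨3,[(0,2),(8,1),(16,0),(3,0)]⟩,⟨2,[(1,2),(1,0),(30,1),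
  (1,0)]⟩⟩,⟨false,0,⟨0,[(49,0)]⟩,⟨15,[(2,2),(5,3),(3,1),(12,2),(4,2),(3,2),(15,1),(0,7)]⟩⟩,⟨false,0,
  ⟨3,[(0,2),(8,1),(8,3),(7,0),(3,0),(18,3)]⟩,⟨0,[(1,0),(14,0)]⟩⟩,⟨true,0,⟨0,[(53,0)]⟩,⟨0,[]⟩⟩,
  ⟨false,0,⟨3,[(0,2),(8,1),(8,3),(7,0),(3,0)]⟩,⟨0,[(1,0),(14,0),(32,0)]⟩⟩,[.o ⟨false,0,⟨0,[(0,0),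
  (52,0)]⟩,⟨0,[(1,0)]⟩⟩,.o ⟨false,0,⟨0,[(0,0)]⟩,⟨0,[(29,0)]⟩⟩,.o ⟨false,1,⟨74,[(7,24),(21,27),(0,
  27),(5,24),(9,9),(4,1),(1,3)]⟩,⟨0,[(22,0)]⟩⟩,.a ⟨true,0,⟨0,[(36,0)]⟩,⟨0,[(33,0)]⟩⟩ ⟨true,0,⟨2,
  [(11,0),(5,1),(27,0)]⟩,⟨0,[(21,0)]⟩⟩ ⟨false,0,⟨3,[(0,2),(8,1),(16,0),(3,0)]⟩,⟨0,[(1,0),(34,
  0)]⟩⟩]⟩)) (.Q [0,1,1,1,-1,0,1,0,1,-1,1,1] (.p true [0,0,1] [1,0,0,0,-1] (⟨0,[(38,0)]⟩,⟨0,[(37,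
  0)]⟩) .k 2 (⟨0,[(30,0)]⟩,⟨0,[(31,0)]⟩) .k (.r 0 ⟨8,[(10,0),(0,0),(7,5),(24,3)]⟩ ⟨56,[(1,20),(0,
  17),(3,0),(22,20),(5,18),(9,3),(4,26)]⟩)) (.Q [0,0,0,0,0,-1,0,0,0,1,0,-1] (.ed true [0,1,0,0,1]
  .k) (.S ⟨1,0,[0,-1,0,-1],[1,0,0,0,-1],[1],(⟨0,[(32,0)]⟩,⟨0,[(33,0)]⟩),⟨0,[(0,0)]⟩,.k,(.r (-1) ⟨1,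
  [(50,1),(0,0),(0,0)]⟩ ⟨1,[(21,0),(3,0),(23,0)]⟩),⟨false,0,⟨0,[]⟩,⟨1,[(30,0),(0,0),(20,0)]⟩⟩,⟨true,
  0,⟨0,[(50,0)]⟩,⟨0,[(49,0)]⟩⟩,⟨true,0,⟨0,[(49,0)]⟩,⟨0,[(50,0)]⟩⟩,⟨false,1,⟨1,[(30,0),(0,0),(20,
  0)]⟩,⟨0,[]⟩⟩,[.a ⟨true,1,⟨0,[(3,0),(13,0),(32,0)]⟩,⟨6,[(1,1),(0,4),(6,1),(0,1),(2,0)]⟩⟩ ⟨true,0,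
  ⟨0,[]⟩,⟨1,[(37,0),(0,0)]⟩⟩ ⟨false,1,⟨1,[(50,1),(0,0),(0,0)]⟩,⟨0,[(49,0)]⟩⟩,.o ⟨false,2,⟨0,[(30,0),
  (19,0),(1,0)]⟩,⟨6,[(1,4),(0,1),(1,0),(0,1),(6,1),(10,4),(12,1)]⟩⟩,.o ⟨false,1,⟨0,[(30,0)]⟩,⟨4,[(2,
  3),(28,0),(15,0),(4,1)]⟩⟩,.o ⟨false,1,⟨1,[(30,1),(6,0),(0,0)]⟩,⟨9,[(1,5),(0,3),(4,0),(2,6),(36,1),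
  (2,5),(1,4)]⟩⟩]⟩) (.R ⟨0,false,false,false,[1,0,0,0,-1],[1,1,-1],[1,0,1,1,0,0,0,-1],(⟨0,[(32,0)]⟩,
  ⟨0,[(33,0)]⟩),(⟨0,[(39,0),(2,0)]⟩,⟨0,[(29,0)]⟩),⟨0,[(0,0)]⟩,.k,.k,(.r (-1) ⟨1,[(50,1),(0,0),(0,
  0)]⟩ ⟨1,[(21,0),(3,0),(23,0)]⟩),(.r (-1) ⟨1,[(18,1),(32,0),(0,0)]⟩ ⟨0,[(25,0)]⟩),.k,.k,⟨true,0,⟨0,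
  []⟩,⟨1,[(37,0),(0,0)]⟩⟩,⟨false,0,⟨4,[(2,3),(7,4),(20,0),(15,0),(4,1)]⟩,⟨0,[(30,0),(6,0)]⟩⟩,⟨false,
  0,⟨0,[(22,0)]⟩,⟨1,[(18,1),(32,0),(0,0)]⟩⟩,⟨true,(-1),⟨0,[(1,0),(8,0),(8,0),(3,0),(26,0)]⟩,⟨0,[(17,
  0),(12,0),(19,0)]⟩⟩,⟨false,0,⟨0,[]⟩,⟨0,[]⟩⟩,⟨false,0,⟨0,[]⟩,⟨0,[]⟩⟩,[.a ⟨true,0,⟨0,[(19,0),(14,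
  0)]⟩,⟨0,[(17,0),(32,0)]⟩⟩ ⟨true,0,⟨0,[(22,0)]⟩,⟨0,[(18,0)]⟩⟩ ⟨false,0,⟨79,[(2,71),(1,19),(4,39),
  (0,49),(16,14),(3,7),(15,12),(4,45)]⟩,⟨0,[(17,0),(12,0),(19,0)]⟩⟩,.o ⟨false,1,⟨43,[(3,1),(0,13),
  (4,13),(16,7),(0,20),(3,1),(15,2),(4,27)]⟩,⟨0,[(16,0),(33,0)]⟩⟩,.o ⟨false,1,⟨0,[(30,0)]⟩,⟨4,[(2,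
  3),(28,0),(15,0),(4,1)]⟩⟩,.o ⟨false,1,⟨1,[(30,1),(6,0),(0,0)]⟩,⟨9,[(1,5),(0,3),(4,0),(2,6),(36,1),
  (2,5),(1,4)]⟩⟩]⟩)) (.Q [0,0,0,0,0,-1,0,0,0,0,0,1] (.ed false [1,-1,0,0,1] .k) (.Q [0,0,-1,0,1,0,0,
  0,-1,0,0,-1] (.p false [0,0,0,0,1] [] (⟨0,[(33,0)]⟩,⟨0,[(32,0)]⟩) .k 0 (⟨0,[]⟩,⟨0,[]⟩) .k .k) (.S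
  ⟨1,0,[0,-1,1],[1,1,0,0,-1],[1,0,1,1],(⟨0,[(33,0),(9,0)]⟩,⟨0,[(1,0)]⟩),⟨0,[(33,0)]⟩,(.r (-1) ⟨13,
  [(14,1),(7,3),(3,9),(0,0),(0,0),(7,1),(16,12)]⟩ ⟨6,[(5,0),(7,1),(33,1),(3,4)]⟩),.k,⟨false,0,⟨0,
  []⟩,⟨1,[(31,0),(0,0),(20,0)]⟩⟩,⟨true,0,⟨0,[(51,0)]⟩,⟨0,[(50,0)]⟩⟩,⟨true,0,⟨0,[(50,0)]⟩,⟨0,[(51,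
  0)]⟩⟩,⟨false,1,⟨1,[(31,0),(0,0),(20,0)]⟩,⟨0,[]⟩⟩,[.a ⟨true,1,⟨0,[(4,0),(13,0)]⟩,⟨0,[(3,0)]⟩⟩
  ⟨true,0,⟨1,[(10,0),(11,0)]⟩,⟨0,[(51,0)]⟩⟩ ⟨false,1,⟨1,[(31,0),(0,0),(20,0)]⟩,⟨8,[(5,0),(7,1),(33,
  1),(1,1)]⟩⟩,.e ⟨false,1,⟨15,[(4,2),(5,3),(3,1),(12,2),(4,2),(3,2),(15,1),(0,7)]⟩,⟨6,[(5,0),(7,1),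
  (33,1),(3,4)]⟩⟩ ⟨false,1,⟨0,[(53,0)]⟩,⟨0,[(47,0)]⟩⟩,.o ⟨false,1,⟨0,[(0,0)]⟩,⟨9,[(3,7),(28,1),(5,
  4),(0,4),(8,1),(4,3)]⟩⟩,.o ⟨false,1,⟨0,[(31,0)]⟩,⟨4,[(3,3),(28,0),(15,0),(4,1)]⟩⟩]⟩) (.S ⟨1,0,[0,
  1,0,-1],[0,0,0,0,1],[1,2],(⟨0,[(34,0)]⟩,⟨0,[(33,0)]⟩),⟨0,[(1,0)]⟩,.k,(.r 0 ⟨6,[(5,0),(7,1),(33,1),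
  (3,4)]⟩ ⟨13,[(14,1),(7,3),(3,9),(0,0),(0,0),(7,1),(16,12)]⟩),⟨false,0,⟨0,[]⟩,⟨1,[(31,0),(0,0),(20,
  0)]⟩⟩,⟨true,0,⟨0,[(51,0)]⟩,⟨0,[(50,0)]⟩⟩,⟨true,0,⟨0,[(50,0)]⟩,⟨0,[(51,0)]⟩⟩,⟨false,1,⟨1,[(31,0),
  (0,0),(20,0)]⟩,⟨0,[]⟩⟩,[.e ⟨false,0,⟨0,[(47,0)]⟩,⟨0,[(53,0)]⟩⟩ ⟨false,0,⟨6,[(5,0),(7,1),(33,1),(3,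
  4)]⟩,⟨15,[(4,2),(5,3),(3,1),(12,2),(4,2),(3,2),(15,1),(0,7)]⟩⟩,.o ⟨false,0,⟨34,[(0,19),(4,3),(7,
  7),(18,14),(15,6),(2,26),(1,5)]⟩,⟨1,[(4,0),(1,0),(24,0)]⟩⟩,.o ⟨false,0,⟨14,[(0,3),(2,5),(4,0),(2,
  0),(20,4),(15,2),(4,2)]⟩,⟨0,[(31,0)]⟩⟩,.a ⟨true,(-1),⟨0,[(0,0)]⟩,⟨4,[(4,2),(0,0),(5,1),(6,2),(12,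
  1),(4,1)]⟩⟩ ⟨false,0,⟨8,[(5,0),(7,1),(33,1),(1,1)]⟩,⟨1,[(38,0),(0,0),(13,1)]⟩⟩ ⟨true,0,⟨6,[(5,0),
  (7,1),(33,1),(3,4)]⟩,⟨1,[(10,0),(11,0)]⟩⟩]⟩)) (.Q [0,0,-1,0,1,0,0,0,-1,0,0,-1] (.p false [0,0,0,0,
  1] [] (⟨0,[(33,0)]⟩,⟨0,[(32,0)]⟩) .k 0 (⟨0,[]⟩,⟨0,[]⟩) .k .k) (.R ⟨0,false,false,true,[0,0,0,0,1],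
  [1,1,-1],[1,1,1,1,0,0,0,-1],(⟨0,[(34,0)]⟩,⟨0,[(33,0)]⟩),(⟨0,[(40,0),(2,0)]⟩,⟨0,[(30,0)]⟩),⟨0,[(1,
  0)]⟩,.k,.k,(.r 0 ⟨6,[(5,0),(7,1),(33,1),(3,4)]⟩ ⟨13,[(14,1),(7,3),(3,9),(0,0),(0,0),(7,1),(16,
  12)]⟩),(.r 0 ⟨2,[(13,0),(5,1),(27,0)]⟩ ⟨0,[(26,0),(26,0)]⟩),.k,.k,⟨true,0,⟨0,[]⟩,⟨1,[(38,0),(0,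
  0)]⟩⟩,⟨false,1,⟨0,[(0,0),(34,0)]⟩,⟨4,[(3,3),(28,0),(5,4),(9,0),(4,1)]⟩⟩,⟨true,0,⟨0,[(23,0)]⟩,⟨2,
  [(13,0),(5,1),(27,0)]⟩⟩,⟨false,1,⟨0,[(2,0),(7,0)]⟩,⟨0,[(3,0),(17,0),(29,0)]⟩⟩,⟨false,0,⟨0,[]⟩,⟨0,
  []⟩⟩,⟨false,0,⟨0,[]⟩,⟨0,[]⟩⟩,[.o ⟨false,0,⟨5,[(6,0),(3,1),(0,0),(12,0),(12,4)]⟩,⟨0,[(21,0),(29,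
  0)]⟩⟩,.a ⟨true,0,⟨0,[(20,0),(14,0)]⟩,⟨0,[(18,0),(32,0)]⟩⟩ ⟨true,0,⟨0,[(23,0)]⟩,⟨0,[(19,0)]⟩⟩
  ⟨false,1,⟨0,[(4,0),(44,0)]⟩,⟨0,[(3,0),(17,0),(29,0)]⟩⟩,.o ⟨false,0,⟨4,[(3,3),(28,0),(15,0),(4,
  1)]⟩,⟨0,[(31,0)]⟩⟩,.o ⟨false,0,⟨9,[(3,7),(28,1),(5,4),(0,4),(8,1),(4,3)]⟩,⟨0,[(0,0)]⟩⟩]⟩) (.S ⟨1,
  0,[0,-1,0,-1],[1,0,0,0,-1],[1],(⟨0,[(33,0)]⟩,⟨0,[(34,0)]⟩),⟨2,[(1,0),(5,0),(4,0),(20,1)]⟩,.k,(.r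
  (-1) ⟨2,[(2,0),(5,0),(23,0),(18,1),(1,0)]⟩ ⟨1,[(22,0),(3,0),(23,0)]⟩),⟨false,0,⟨0,[]⟩,⟨1,[(31,0),
  (0,0),(20,0)]⟩⟩,⟨true,0,⟨0,[(51,0)]⟩,⟨0,[(50,0)]⟩⟩,⟨true,0,⟨0,[(50,0)]⟩,⟨0,[(51,0)]⟩⟩,⟨false,1,⟨1,
  [(31,0),(0,0),(20,0)]⟩,⟨0,[]⟩⟩,[.a ⟨true,1,⟨0,[(2,0),(35,0)]⟩,⟨3,[(0,0),(2,2),(2,0),(3,0),(0,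
  0)]⟩⟩ ⟨true,0,⟨0,[]⟩,⟨1,[(38,0),(0,0)]⟩⟩ ⟨false,1,⟨2,[(2,0),(5,0),(23,0),(18,1),(1,0)]⟩,⟨0,[(50,
  0)]⟩⟩,.o ⟨false,2,⟨9,[(2,9),(28,0),(0,0),(5,9),(9,1),(4,4)]⟩,⟨1,[(0,0),(2,0),(1,0),(9,1),(8,1)]⟩⟩,
  .o ⟨false,1,⟨0,[(31,0)]⟩,⟨14,[(0,3),(2,5),(4,0),(2,0),(20,4),(15,2),(4,2)]⟩⟩,.o ⟨false,1,⟨1,[(31,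
  1),(6,0),(0,0)]⟩,⟨4,[(0,2),(2,1),(4,1),(2,1),(36,0),(4,0)]⟩⟩]⟩))))))))) (.K ⟨0,[1,-1,-1],(-1),0,
  (⟨0,[(21,0)]⟩,⟨0,[(33,0),(1,0)]⟩),.k,(.r (-1) ⟨1,[(8,1),(34,3),(0,0),(0,0)]⟩ ⟨5,[(2,4),(3,1),(7,
  6)]⟩),.k,(.r (-1) ⟨1,[(8,2),(9,0),(24,2),(1,1)]⟩ ⟨5,[(2,0),(3,3),(7,4)]⟩),.k,[⟨0,[(1,0)]⟩,⟨0,[(0,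
  0)]⟩,⟨0,[(7,0)]⟩,⟨0,[(8,0),(11,0),(9,0),(12,0)]⟩]⟩)) (.Q [0,0,0,-1,0,0,-1,-1,0,0,-1] (.p false [0,
  0,1] [] (⟨0,[(32,0)]⟩,⟨0,[(31,0)]⟩) .k 0 (⟨0,[]⟩,⟨0,[]⟩) .k .k) (.R ⟨1,false,false,false,[0,0,1],
  [1,-1,-1],[1,0,0,0,0,0,0,1],(⟨0,[(33,0)]⟩,⟨0,[(32,0)]⟩),(⟨0,[(21,0)]⟩,⟨0,[(33,0),(1,0)]⟩),⟨0,[(22,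
  0)]⟩,.k,.k,.k,(.r 0 ⟨5,[(2,0),(3,3),(7,4)]⟩ ⟨1,[(0,1),(7,1),(21,1),(13,0),(0,0)]⟩),.k,.k,⟨false,0,
  ⟨0,[(6,0)]⟩,⟨1,[(0,1),(7,1),(21,1),(13,0),(0,0)]⟩⟩,⟨true,(-1),⟨0,[(1,0)]⟩,⟨0,[(17,0),(12,0)]⟩⟩,
  ⟨true,0,⟨0,[]⟩,⟨0,[(47,0)]⟩⟩,⟨true,0,⟨1,[(0,2),(11,0),(14,1),(2,0)]⟩,⟨0,[(7,0),(2,0)]⟩⟩,⟨false,1,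
  ⟨5,[(2,1),(16,0),(0,0),(7,1),(15,0),(0,3)]⟩,⟨0,[(43,0)]⟩⟩,⟨true,0,⟨0,[(0,0),(11,0),(14,0)]⟩,⟨0,
  [(9,0),(0,0)]⟩⟩,[.o ⟨false,0,⟨0,[(0,0)]⟩,⟨1,[(13,0),(5,0),(8,0)]⟩⟩,.o ⟨false,1,⟨1,[(0,1),(22,0),
  (0,0),(20,0)]⟩,⟨0,[(7,0)]⟩⟩,.o ⟨false,1,⟨49,[(17,24),(5,13),(0,13),(5,24),(9,4),(4,0),(1,1)]⟩,⟨0,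
  [(16,0)]⟩⟩,.a ⟨true,0,⟨0,[(30,0)]⟩,⟨0,[(27,0)]⟩⟩ ⟨false,1,⟨5,[(6,1),(4,1),(32,2),(0,2)]⟩,⟨1,[(0,
  0),(11,0),(17,0)]⟩⟩ ⟨true,0,⟨0,[(0,0),(26,0)]⟩,⟨0,[(7,0),(22,0)]⟩⟩]⟩) (.I [0,-1,2,1] (.R ⟨1,false,
  false,false,[1,-1],[1,-1,-1],[1,1,-1,-1],(⟨0,[(38,0)]⟩,⟨0,[(39,0)]⟩),(⟨0,[(22,0)]⟩,⟨0,[(34,0),(1,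
  0)]⟩),⟨1,[(5,0),(16,0),(15,0)]⟩,.k,.k,(.r (-1) ⟨0,[(44,1),(0,0)]⟩ ⟨4,[(0,2),(2,0),(3,1),(11,2)]⟩),
  .k,.k,.k,⟨false,0,⟨2,[(6,0),(0,0),(32,0)]⟩,⟨1,[(9,0),(9,0),(24,0),(1,1)]⟩⟩,⟨true,0,⟨0,[(17,0)]⟩,
  ⟨0,[(31,0)]⟩⟩,⟨false,0,⟨0,[]⟩,⟨1,[(24,0),(0,0),(20,0)]⟩⟩,⟨false,1,⟨0,[(30,0),(15,0)]⟩,⟨0,[(11,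
  0)]⟩⟩,⟨true,0,⟨0,[(43,0)]⟩,⟨0,[(44,0)]⟩⟩,⟨false,1,⟨15,[(3,7),(0,1),(16,2),(8,7),(10,0),(3,1),(0,
  11)]⟩,⟨0,[(11,0),(32,0)]⟩⟩,[.a ⟨true,0,⟨0,[(13,0),(14,0),(15,1)]⟩,⟨0,[(1,0)]⟩⟩ ⟨true,0,⟨3,[(6,0),
  (2,0),(30,0),(3,2)]⟩,⟨0,[(0,0)]⟩⟩ ⟨false,1,⟨21,[(4,9),(4,9),(20,11),(10,1),(2,21),(0,6),(0,10)]⟩,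
  ⟨1,[(0,0),(0,0),(27,0)]⟩⟩,.o ⟨false,1,⟨0,[(30,0),(13,0),(1,0)]⟩,⟨0,[(8,0)]⟩⟩,.o ⟨false,0,⟨1,[(31,
  0),(0,0)]⟩,⟨9,[(24,0),(0,0),(15,1),(3,4)]⟩⟩,.o ⟨false,0,⟨0,[(31,0),(0,0)]⟩,⟨2,[(4,1),(4,1),(1,1),
  (29,0),(4,0)]⟩⟩]⟩) (.Q [0,0,0,0,0,-2,0,0,0,1,-1] (.p false [0,0,1] [1] (⟨0,[(34,0)]⟩,⟨0,[(33,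
  0)]⟩) .k 1 (⟨0,[]⟩,⟨0,[]⟩) .k .k) (.Q [0,0,0,-2,0,0,-1,-1,0,0,-1] (.p false [0,0,1] [] (⟨0,[(35,
  0)]⟩,⟨0,[(34,0)]⟩) .k 0 (⟨0,[]⟩,⟨0,[]⟩) .k .k) (.S ⟨1,0,[0,0,-1,-2,0,0,0,-1],[1,-1,-1],[1,1,-1,-1,
  0,0,0,-1],(⟨0,[(24,0)]⟩,⟨0,[(36,0),(1,0)]⟩),⟨0,[(1,0)]⟩,.k,(.r (-1) ⟨5,[(0,3),(1,3),(8,1),(21,3),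
  (13,2),(0,2)]⟩ ⟨5,[(5,4),(3,1),(7,6)]⟩),⟨false,0,⟨0,[]⟩,⟨1,[(26,0),(0,0),(20,0)]⟩⟩,⟨true,0,⟨0,
  [(46,0)]⟩,⟨0,[(45,0)]⟩⟩,⟨true,0,⟨0,[(45,0)]⟩,⟨0,[(46,0)]⟩⟩,⟨false,1,⟨1,[(26,0),(0,0),(20,0)]⟩,⟨0,
  []⟩⟩,[.o ⟨false,0,⟨0,[(0,0)]⟩,⟨3,[(3,1),(12,0),(5,2),(8,0)]⟩⟩,.o ⟨false,1,⟨1,[(0,1),(25,0),(0,0),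
  (20,0)]⟩,⟨7,[(2,2),(0,6),(0,1),(0,2),(4,4),(4,0),(27,0)]⟩⟩,.o ⟨false,0,⟨0,[(34,0)]⟩,⟨0,[(20,0)]⟩⟩,
  .a ⟨true,(-1),⟨0,[(4,0),(28,0)]⟩,⟨0,[(6,0),(13,0),(12,0)]⟩⟩ ⟨false,1,⟨5,[(0,1),(1,1),(8,3),(21,1),
  (13,2),(0,2)]⟩,⟨2,[(3,0),(0,2),(0,0),(10,2),(16,1)]⟩⟩ ⟨true,1,⟨5,[(0,3),(1,3),(8,1),(21,3),(13,2),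
  (0,2)]⟩,⟨2,[(3,0),(0,2),(0,0),(4,2),(22,1)]⟩⟩]⟩) (.Q [0,0,-1,0,0,0,0,0,-1,1,0,-1] (.p false [0,0,
  0,0,1] [1] (⟨0,[(29,0)]⟩,⟨0,[(28,0)]⟩) .k 1 (⟨0,[]⟩,⟨0,[]⟩) .k .k) (.Q [0,0,0,0,0,-1,0,0,0,0,0,1]
  (.ed false [1,-1,0,0,1] .k) (.S ⟨1,0,[0,-1,1],[1,1,0,0,-1],[1,0,1,1],(⟨0,[(30,0),(9,0)]⟩,⟨0,[(0,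
  0)]⟩),⟨0,[(30,0)]⟩,(.r (-1) ⟨25,[(2,1),(16,9),(3,15),(0,2),(0,2),(7,3),(16,22)]⟩ ⟨2,[(4,0),(39,0),
  (3,1)]⟩),.k,⟨false,0,⟨0,[]⟩,⟨1,[(28,0),(0,0),(20,0)]⟩⟩,⟨true,0,⟨0,[(48,0)]⟩,⟨0,[(47,0)]⟩⟩,⟨true,0,
  ⟨0,[(47,0)]⟩,⟨0,[(48,0)]⟩⟩,⟨false,1,⟨1,[(28,0),(0,0),(20,0)]⟩,⟨0,[]⟩⟩,[.o ⟨false,1,⟨23,[(1,14),(4,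
  4),(21,8),(6,9),(9,3),(4,11)]⟩,⟨12,[(6,3),(6,5),(0,6),(2,0),(11,12),(5,0),(9,1),(2,0)]⟩⟩,.e
  ⟨false,1,⟨19,[(2,3),(20,5),(0,2),(0,2),(7,1),(15,2),(0,13)]⟩,⟨2,[(4,0),(39,0),(3,1)]⟩⟩ ⟨false,1,
  ⟨0,[(50,0)]⟩,⟨0,[(44,0)]⟩⟩,.a ⟨true,0,⟨0,[(1,0)]⟩,⟨1,[(29,1),(5,0),(0,0)]⟩⟩ ⟨true,0,⟨1,[(7,0),(11,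
  0)]⟩,⟨2,[(4,0),(39,0),(3,1)]⟩⟩ ⟨false,1,⟨1,[(35,0),(0,0),(13,1)]⟩,⟨3,[(4,0),(39,0),(1,0)]⟩⟩,.e
  ⟨false,1,⟨19,[(2,3),(20,5),(0,2),(0,2),(7,1),(15,2),(0,13)]⟩,⟨0,[(48,0)]⟩⟩ ⟨false,1,⟨0,[(50,0)]⟩,
  ⟨0,[(52,0)]⟩⟩]⟩) (.R ⟨0,false,false,true,[0,1,0,0,-1],[1,0,0,0,-1],[1],(⟨0,[(0,0)]⟩,⟨0,[(31,0),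
  (10,0)]⟩),(⟨0,[(30,0)]⟩,⟨0,[(31,0)]⟩),⟨0,[(31,0)]⟩,(.r (-1) ⟨25,[(2,1),(16,9),(3,15),(0,2),(0,2),
  (7,3),(16,22)]⟩ ⟨2,[(4,0),(39,0),(3,1)]⟩),.k,.k,.k,.k,.k,⟨true,0,⟨0,[]⟩,⟨1,[(35,0),(0,0)]⟩⟩,
  ⟨false,0,⟨0,[(32,0),(2,0)]⟩,⟨9,[(28,0),(0,0),(15,1),(3,4)]⟩⟩,⟨true,0,⟨2,[(4,0),(39,0),(3,1)]⟩,⟨1,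
  [(7,0),(11,0)]⟩⟩,⟨false,0,⟨0,[(32,0),(2,0),(12,0)]⟩,⟨53,[(2,9),(3,1),(0,9),(0,5),(15,6),(20,10),
  (4,26)]⟩⟩,⟨false,0,⟨0,[]⟩,⟨0,[]⟩⟩,⟨false,0,⟨0,[]⟩,⟨0,[]⟩⟩,[.a ⟨true,0,⟨3,[(1,2),(4,0),(21,0),(6,
  1)]⟩,⟨0,[(29,0)]⟩⟩ ⟨true,0,⟨0,[]⟩,⟨1,[(35,0),(0,0)]⟩⟩ ⟨false,0,⟨0,[(32,0),(2,0)]⟩,⟨9,[(28,0),(0,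
  0),(15,1),(3,4)]⟩⟩,.o ⟨false,1,⟨23,[(1,14),(4,4),(21,8),(6,9),(9,3),(4,11)]⟩,⟨12,[(6,3),(6,5),(0,
  6),(2,0),(11,12),(5,0),(9,1),(2,0)]⟩⟩,.o ⟨false,1,⟨15,[(1,13),(26,1),(16,5),(3,0),(0,0),(1,1)]⟩,
  ⟨1,[(29,1),(5,0),(0,0)]⟩⟩,.o ⟨false,1,⟨23,[(1,12),(4,2),(21,10),(6,5),(9,7),(5,3)]⟩,⟨0,[(29,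
  0)]⟩⟩]⟩)) (.Q [0,1,0,0,-1,0,0,0,1,-1,0,1] (.p true [0,0,0,0,1] [1] (⟨0,[(30,0)]⟩,⟨0,[(29,0)]⟩) .k
  1 (⟨0,[]⟩,⟨0,[]⟩) .k .k) (.R ⟨1,false,false,false,[0,0,1],[0,0,0,0,1],[0,0,0,-1,0,0,0,1],(⟨0,[(38,
  0)]⟩,⟨0,[(37,0)]⟩),(⟨0,[(31,0)]⟩,⟨0,[(30,0)]⟩),⟨0,[(27,0)]⟩,.k,.k,.k,.k,(.r (-1) ⟨1,[(16,1),(32,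
  0),(0,0)]⟩ ⟨0,[(23,0)]⟩),.k,⟨false,1,⟨1,[(16,1),(32,0),(0,0)]⟩,⟨4,[(7,1),(5,1),(9,0),(20,0)]⟩⟩,
  ⟨true,(-1),⟨1,[(0,1),(5,0),(1,0),(26,0),(14,0)]⟩,⟨0,[(28,0),(6,0)]⟩⟩,⟨true,0,⟨0,[(48,0)]⟩,⟨0,[(47,
  0)]⟩⟩,⟨true,(-1),⟨2,[(0,1),(5,0),(1,0),(4,0),(3,1),(11,0),(18,1)]⟩,⟨0,[(15,0),(12,0)]⟩⟩,⟨false,1,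
  ⟨1,[(28,0),(0,0),(20,0)]⟩,⟨0,[]⟩⟩,⟨true,(-1),⟨2,[(0,1),(5,0),(0,0),(0,0),(4,0),(3,0),(11,0)]⟩,⟨0,
  [(15,0),(12,0),(19,0)]⟩⟩,[.o ⟨false,(-1),⟨0,[(0,0)]⟩,⟨1,[(28,2),(0,0),(20,0)]⟩⟩,.o ⟨false,0,⟨8,
  [(0,3),(28,4),(15,0),(4,1)]⟩,⟨0,[(28,0)]⟩⟩,.o ⟨false,1,⟨2,[(1,0),(20,1),(5,0),(6,0)]⟩,⟨0,[(21,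
  0)]⟩⟩,.a ⟨true,0,⟨0,[(35,0)]⟩,⟨0,[(32,0)]⟩⟩ ⟨false,1,⟨1,[(16,1),(32,0),(0,0)]⟩,⟨0,[(20,0)]⟩⟩
  ⟨true,(-1),⟨0,[(0,0),(31,0)]⟩,⟨0,[(28,0),(6,0)]⟩⟩]⟩) (.Q [0,-2,0,-1,1,0,0,0,-1,1,0,-1] (.p false
  [0,0,0,0,1] [1] (⟨0,[(31,0)]⟩,⟨0,[(30,0)]⟩) .k 1 (⟨0,[]⟩,⟨0,[]⟩) .k .k) (.Q [0,0,0,-1,0,0,0,0,-1,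
  1,0,-1] (.p false [0,0,0,0,1] [1] (⟨0,[(32,0)]⟩,⟨0,[(31,0)]⟩) .k 1 (⟨0,[]⟩,⟨0,[]⟩) .k .k) (.Q [0,
  0,0,0,0,-1,0,0,0,0,0,1] (.ed false [1,-1,0,0,1] .k) (.Q [0,0,0,0,0,0,0,0,-1,1,0,-1] (.p false [0,
  0,0,0,1] [1] (⟨0,[(34,0)]⟩,⟨0,[(33,0)]⟩) .k 1 (⟨0,[]⟩,⟨0,[]⟩) .k .k) (.S ⟨1,0,[0,0,1],[1,1,0,0,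
  -1],[0,-1,1],(⟨0,[(34,0),(9,0)]⟩,⟨0,[(1,0)]⟩),⟨0,[(34,0)]⟩,(.r (-1) ⟨9,[(4,5),(0,3),(5,2),(11,2),
  (4,1),(4,1),(20,1)]⟩ ⟨2,[(8,0),(39,0),(3,1)]⟩),.k,⟨true,0,⟨0,[(52,0)]⟩,⟨0,[(51,0)]⟩⟩,⟨false,0,⟨0,
  [(52,0)]⟩,⟨13,[(4,3),(1,0),(4,0),(16,4),(4,3),(2,0),(17,4)]⟩⟩,⟨false,1,⟨8,[(4,4),(28,4),(15,0),(4,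
  1)]⟩,⟨0,[]⟩⟩,⟨true,0,⟨0,[(56,0)]⟩,⟨0,[]⟩⟩,[.a ⟨true,0,⟨0,[(0,0)]⟩,⟨0,[(33,0)]⟩⟩ ⟨false,1,⟨8,[(4,
  4),(28,4),(15,0),(4,1)]⟩,⟨3,[(8,0),(39,0),(1,0)]⟩⟩ ⟨true,0,⟨1,[(39,0),(0,0)]⟩,⟨0,[]⟩⟩,.o ⟨false,1,
  ⟨100,[(0,61),(2,19),(0,18),(1,4),(3,0),(0,4),(0,2),(36,20),(4,20)]⟩,⟨3,[(5,3),(2,0),(39,0),(1,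
  0)]⟩⟩,.o ⟨false,1,⟨7,[(0,4),(11,1),(13,1),(5,2),(16,0),(3,0)]⟩,⟨0,[(5,0)]⟩⟩,.e ⟨false,1,⟨0,[(54,
  0)]⟩,⟨0,[(56,0)]⟩⟩ ⟨false,1,⟨8,[(4,4),(28,4),(15,0),(4,1)]⟩,⟨0,[]⟩⟩]⟩) (.R ⟨2,true,false,true,[0,
  1],[1,0,0,0,-1],[1,1,1,1],(⟨0,[]⟩,⟨0,[]⟩),(⟨0,[(34,0)]⟩,⟨0,[(35,0)]⟩),⟨0,[]⟩,.k,.k,.k,(.r 0 ⟨1,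
  [(23,0),(3,0),(23,0)]⟩ ⟨17,[(3,9),(4,7),(24,9),(15,1),(3,0),(0,2)]⟩),.k,.k,⟨false,0,⟨0,[(51,0)]⟩,
  ⟨17,[(3,9),(4,7),(24,9),(15,1),(3,0),(0,2)]⟩⟩,⟨true,0,⟨1,[(2,1),(8,0),(11,0)]⟩,⟨0,[(0,0)]⟩⟩,
  ⟨false,0,⟨0,[]⟩,⟨8,[(4,4),(28,4),(15,0),(4,1)]⟩⟩,⟨true,0,⟨0,[(2,0)]⟩,⟨0,[(0,0),(50,0)]⟩⟩,⟨true,0,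
  ⟨0,[(51,0)]⟩,⟨0,[(52,0)]⟩⟩,⟨false,1,⟨0,[(4,0)]⟩,⟨0,[(0,0)]⟩⟩,[]⟩)) (.Q [0,0,-1,0,0,0,-1,0,-1,1,-1,
  -1] (.p false [0,0,1,0,1] [1] (⟨0,[(34,0),(6,0)]⟩,⟨1,[(0,1),(5,0),(33,0)]⟩) .k 1 (⟨0,[]⟩,⟨0,[]⟩)
  .k (.r 0 ⟨8,[(13,0),(0,0),(7,5),(24,3)]⟩ ⟨2,[(2,0),(1,0),(11,1),(9,0),(26,1)]⟩)) (.R ⟨0,false,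
  false,false,[0,0,0,0,1],[0,0,1],[0,0,1,0,0,0,0,1],(⟨0,[(35,0)]⟩,⟨0,[(34,0)]⟩),(⟨0,[(42,0)]⟩,⟨0,
  [(41,0)]⟩),⟨0,[(1,0)]⟩,.k,.k,(.r 0 ⟨2,[(8,0),(39,0),(3,1)]⟩ ⟨9,[(4,5),(0,3),(5,2),(11,2),(4,1),(4,
  1),(20,1)]⟩),.k,.k,.k,⟨true,0,⟨1,[(39,0),(0,0)]⟩,⟨0,[]⟩⟩,⟨false,1,⟨4,[(0,0),(1,3),(3,0),(4,0),(14,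
  4)]⟩,⟨2,[(5,1),(6,0),(16,0),(3,0)]⟩⟩,⟨false,1,⟨0,[(23,0),(30,0)]⟩,⟨0,[(17,0)]⟩⟩,⟨true,1,⟨0,[(3,0),
  (12,0)]⟩,⟨0,[(5,0),(4,0),(6,1),(1,0)]⟩⟩,⟨false,0,⟨0,[]⟩,⟨0,[]⟩⟩,⟨false,0,⟨0,[]⟩,⟨0,[]⟩⟩,[.e
  ⟨false,0,⟨2,[(15,0),(4,0)]⟩,⟨3,[(3,0),(13,1),(8,0),(0,0),(5,0),(4,0),(14,0),(0,0)]⟩⟩ ⟨false,1,⟨2,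
  [(2,0),(0,0),(2,0),(7,0),(1,0),(9,0),(5,0)]⟩,⟨1,[(5,0),(4,0),(6,1),(15,0),(20,0)]⟩⟩,.o ⟨false,1,
  ⟨0,[(22,0)]⟩,⟨0,[(38,0)]⟩⟩,.a ⟨true,0,⟨0,[(33,0)]⟩,⟨4,[(0,0),(1,3),(3,0),(4,0)]⟩⟩ ⟨true,0,⟨0,[(23,
  0)]⟩,⟨0,[(17,0)]⟩⟩ ⟨false,1,⟨0,[(3,0),(12,0)]⟩,⟨1,[(5,0),(4,0),(6,1),(15,0),(20,0)]⟩⟩,.o ⟨false,0,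
  ⟨0,[(5,0)]⟩,⟨1,[(0,0),(25,0),(5,0)]⟩⟩]⟩) (.S ⟨1,0,[0,0,0,-1,0,0,0,-1],[1,0,-1,0,-1],[0,-1,0,-1,0,
  0,0,-1],(⟨1,[(1,1),(5,0),(33,0)]⟩,⟨0,[(35,0),(6,0)]⟩),⟨0,[(1,0),(5,0)]⟩,.k,(.r (-1) ⟨0,[(17,0),
  (34,0),(1,0)]⟩ ⟨0,[(23,0),(27,0)]⟩),⟨true,0,⟨0,[(52,0)]⟩,⟨0,[(51,0)]⟩⟩,⟨false,0,⟨0,[(52,0)]⟩,⟨13,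
  [(4,3),(1,0),(4,0),(16,4),(4,3),(2,0),(17,4)]⟩⟩,⟨false,1,⟨8,[(4,4),(28,4),(15,0),(4,1)]⟩,⟨0,[]⟩⟩,
  ⟨true,0,⟨0,[(56,0)]⟩,⟨0,[]⟩⟩,[.e ⟨false,1,⟨0,[(17,0),(34,0),(1,0)]⟩,⟨4,[(15,1),(7,0),(24,0),(2,
  2)]⟩⟩ ⟨false,1,⟨1,[(3,0),(13,0),(8,0),(6,0),(4,0),(13,0)]⟩,⟨60,[(6,14),(3,5),(1,2),(2,22),(12,3),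
  (20,0)]⟩⟩,.o ⟨false,1,⟨16,[(2,1),(0,14),(6,7),(6,11),(3,3),(16,0),(10,4),(2,3)]⟩,⟨0,[(16,0),(16,
  0)]⟩⟩,.a ⟨true,0,⟨56,[(2,42),(0,2),(2,9),(3,25),(0,9),(0,14),(19,10),(16,5),(0,5)]⟩,⟨0,[(0,0),(11,
  0),(26,0)]⟩⟩ ⟨true,1,⟨1,[(0,0),(2,0),(13,0),(20,0),(13,0),(1,0)]⟩,⟨0,[(10,0),(5,0),(0,0),(1,0)]⟩⟩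
  ⟨false,1,⟨1,[(0,0),(2,0),(13,0),(20,0),(13,0),(1,0)]⟩,⟨60,[(6,14),(3,5),(1,2),(2,22),(12,3),(20,
  0)]⟩⟩,.o ⟨false,0,⟨2,[(2,2),(3,0),(3,1),(10,0),(27,0)]⟩,⟨0,[(26,0),(6,0)]⟩⟩]⟩))) (.R ⟨1,false,
  false,false,[0,0,1],[0,0,0,0,1],[0,1,0,-1,0,0,0,1],(⟨0,[(40,0)]⟩,⟨0,[(39,0)]⟩),(⟨0,[(33,0)]⟩,⟨0,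
  [(32,0)]⟩),⟨0,[(29,0)]⟩,.k,.k,.k,.k,(.r (-1) ⟨1,[(18,1),(32,0),(0,0)]⟩ ⟨0,[(25,0)]⟩),.k,⟨true,0,
  ⟨0,[(18,0)]⟩,⟨0,[(22,0)]⟩⟩,⟨false,0,⟨0,[(3,0),(6,0)]⟩,⟨1,[(1,0),(12,0),(0,0),(14,0),(6,0)]⟩⟩,
  ⟨false,0,⟨0,[(50,0)]⟩,⟨13,[(2,3),(1,0),(4,0),(16,4),(4,3),(2,0),(17,4)]⟩⟩,⟨false,0,⟨1,[(3,0),(4,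
  0),(6,1),(15,0),(20,0)]⟩,⟨0,[(1,0),(12,0)]⟩⟩,⟨true,0,⟨0,[(54,0)]⟩,⟨0,[]⟩⟩,⟨false,0,⟨3,[(0,1),(7,
  0),(1,0),(4,0),(3,1),(11,1),(4,0),(15,0)]⟩,⟨0,[(1,0),(14,0)]⟩⟩,[.o ⟨false,0,⟨4,[(0,0),(2,3),(2,0),
  (39,1)]⟩,⟨5,[(1,5),(2,0),(3,1),(5,2),(0,2),(3,0),(27,0)]⟩⟩,.o ⟨false,0,⟨0,[(0,0),(49,0)]⟩,⟨0,[(30,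
  0)]⟩⟩,.o ⟨false,1,⟨2,[(3,0),(20,1),(5,0),(6,0)]⟩,⟨0,[(23,0)]⟩⟩,.a ⟨true,0,⟨0,[(37,0)]⟩,⟨0,[(34,
  0)]⟩⟩ ⟨true,0,⟨2,[(12,0),(5,1),(27,0)]⟩,⟨0,[(22,0)]⟩⟩ ⟨false,0,⟨0,[(3,0),(6,0)]⟩,⟨0,[(1,0),(14,0),
  (2,0)]⟩⟩]⟩)) (.Q [0,-1,0,0,1,0,0,0,-1,0,0,-1] (.p false [0,0,0,0,1] [] (⟨0,[(32,0)]⟩,⟨0,[(31,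
  0)]⟩) .k 0 (⟨0,[]⟩,⟨0,[]⟩) .k .k) (.R ⟨1,false,false,false,[0,0,1],[0,0,0,0,1],[0,1,0,-1,0,0,0,1],
  (⟨0,[(40,0)]⟩,⟨0,[(39,0)]⟩),(⟨0,[(33,0)]⟩,⟨0,[(32,0)]⟩),⟨0,[(29,0)]⟩,.k,.k,.k,.k,(.r (-1) ⟨1,[(18,
  1),(32,0),(0,0)]⟩ ⟨0,[(25,0)]⟩),.k,⟨true,0,⟨0,[(18,0)]⟩,⟨0,[(22,0)]⟩⟩,⟨false,0,⟨0,[(3,0),(6,0)]⟩,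
  ⟨3,[(0,1),(1,0),(3,0),(7,0),(0,0),(14,0),(6,2)]⟩⟩,⟨false,0,⟨0,[(50,0)]⟩,⟨13,[(2,3),(1,0),(4,0),
  (16,4),(4,3),(2,0),(17,4)]⟩⟩,⟨false,0,⟨1,[(3,0),(4,0),(6,1),(15,0),(20,0)]⟩,⟨0,[(0,0),(16,0)]⟩⟩,
  ⟨true,0,⟨0,[(54,0)]⟩,⟨0,[]⟩⟩,⟨false,0,⟨0,[(3,0),(6,0),(8,0)]⟩,⟨0,[(0,0),(16,0),(32,0)]⟩⟩,[.o
  ⟨false,0,⟨15,[(1,1),(1,8),(2,1),(24,4),(14,4),(0,0)]⟩,⟨0,[(0,0)]⟩⟩,.o ⟨false,0,⟨0,[(1,0),(48,0),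
  (1,0)]⟩,⟨0,[(30,0)]⟩⟩,.o ⟨false,1,⟨2,[(3,0),(20,1),(5,0),(6,0)]⟩,⟨0,[(23,0)]⟩⟩,.a ⟨true,0,⟨0,[(37,
  0)]⟩,⟨0,[(34,0)]⟩⟩ ⟨true,0,⟨2,[(12,0),(5,1),(27,0)]⟩,⟨0,[(22,0)]⟩⟩ ⟨false,0,⟨0,[(3,0),(6,0)]⟩,⟨0,
  [(0,0),(36,0)]⟩⟩]⟩) (.Q [0,1,0,2,-1,0,-1,-1,1,0,-1,1] (.p false [0,0,1] [0,0,0,0,1] (⟨0,[(40,0)]⟩,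
  ⟨0,[(39,0)]⟩) .k 2 (⟨0,[(33,0)]⟩,⟨0,[(32,0)]⟩) .k (.r (-1) ⟨8,[(2,2),(10,0),(4,0),(1,5),(6,2),(3,
  2)]⟩ ⟨1,[(15,0),(9,0),(24,0)]⟩)) (.Q [0,0,-1,0,1,0,0,0,-1,0,0,-1] (.p false [0,0,0,0,1] [] (⟨0,
  [(34,0)]⟩,⟨0,[(33,0)]⟩) .k 0 (⟨0,[]⟩,⟨0,[]⟩) .k .k) (.Q [0,0,0,0,0,-1,0,0,0,0,0,1] (.ed false [1,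
  -1,0,0,1] .k) (.S ⟨1,0,[0,2,0,-1],[0,0,0,0,1],[1,1],(⟨0,[(36,0)]⟩,⟨0,[(35,0)]⟩),⟨0,[(0,0)]⟩,.k,
  (.r 0 ⟨2,[(9,0),(39,0),(3,1)]⟩ ⟨9,[(5,5),(0,3),(5,2),(11,2),(4,1),(4,1),(20,1)]⟩),⟨true,0,⟨0,[]⟩,
  ⟨0,[(57,0)]⟩⟩,⟨false,0,⟨0,[(53,0)]⟩,⟨13,[(5,3),(1,0),(4,0),(16,4),(4,3),(2,0),(17,4)]⟩⟩,⟨false,1,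
  ⟨13,[(5,3),(1,0),(4,0),(16,4),(4,3),(2,0),(17,4)]⟩,⟨0,[(53,0)]⟩⟩,⟨true,0,⟨0,[(57,0)]⟩,⟨0,[]⟩⟩,[.o
  ⟨false,(-1),⟨0,[(4,0),(48,1)]⟩,⟨53,[(5,53),(1,9),(3,1),(0,9),(0,5),(15,6),(20,10),(4,26)]⟩⟩,.a
  ⟨true,(-1),⟨0,[(3,0),(49,0)]⟩,⟨11,[(1,1),(3,9),(1,2),(3,0),(0,2),(0,0),(41,0)]⟩⟩ ⟨true,0,⟨0,[]⟩,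
  ⟨1,[(40,0),(0,0)]⟩⟩ ⟨false,0,⟨2,[(9,0),(39,0),(3,1)]⟩,⟨13,[(5,3),(1,0),(4,0),(16,4),(4,3),(2,0),
  (17,4)]⟩⟩,.o ⟨false,0,⟨4,[(3,3),(30,0),(15,0),(4,1)]⟩,⟨0,[(33,0)]⟩⟩,.o ⟨false,0,⟨0,[(6,0)]⟩,⟨0,
  [(1,0)]⟩⟩]⟩) (.R ⟨0,false,false,true,[0,0,0,0,1],[1,1,-1],[1,1,1,1,0,0,0,-1],(⟨0,[(36,0)]⟩,⟨0,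
  [(35,0)]⟩),(⟨0,[(42,0),(2,0)]⟩,⟨0,[(32,0)]⟩),⟨0,[(0,0)]⟩,.k,.k,(.r 0 ⟨2,[(9,0),(39,0),(3,1)]⟩ ⟨9,
  [(5,5),(0,3),(5,2),(11,2),(4,1),(4,1),(20,1)]⟩),(.r 0 ⟨2,[(15,0),(5,1),(27,0)]⟩ ⟨0,[(28,0),(26,
  0)]⟩),.k,.k,⟨true,0,⟨0,[]⟩,⟨1,[(40,0),(0,0)]⟩⟩,⟨false,1,⟨8,[(1,6),(3,1),(7,4),(16,1),(18,0)]⟩,⟨7,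
  [(3,5),(2,1),(20,0),(12,6),(9,0),(4,2)]⟩⟩,⟨true,0,⟨0,[(25,0)]⟩,⟨2,[(15,0),(5,1),(27,0)]⟩⟩,⟨false,
  1,⟨2,[(1,1),(3,0),(5,0),(1,0),(8,2),(32,0)]⟩,⟨0,[(3,0),(19,0),(29,0)]⟩⟩,⟨false,0,⟨0,[]⟩,⟨0,[]⟩⟩,
  ⟨false,0,⟨0,[]⟩,⟨0,[]⟩⟩,[.o ⟨false,0,⟨1,[(2,0),(30,0),(5,0)]⟩,⟨0,[(23,0),(29,0)]⟩⟩,.a ⟨true,0,⟨0,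
  [(22,0),(14,0)]⟩,⟨0,[(20,0),(32,0)]⟩⟩ ⟨true,0,⟨0,[(25,0)]⟩,⟨0,[(21,0)]⟩⟩ ⟨false,1,⟨1,[(1,0),(3,0),
  (6,0),(0,0),(25,0)]⟩,⟨0,[(3,0),(19,0),(29,0)]⟩⟩,.o ⟨false,0,⟨4,[(3,3),(30,0),(15,0),(4,1)]⟩,⟨0,
  [(33,0)]⟩⟩,.o ⟨false,0,⟨0,[(6,0)]⟩,⟨0,[(1,0)]⟩⟩]⟩)) (.Q [0,0,0,0,0,0,0,0,0,1,-1,-1] (.ed true [0,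
  0,1,0,1] (.r 0 ⟨8,[(14,0),(0,0),(7,5),(24,3)]⟩ ⟨1,[(17,0),(9,0),(24,0),(1,1)]⟩)) (.S ⟨1,0,[0,-1,0,
  -1],[1,0,0,0,-1],[1],(⟨0,[(35,0)]⟩,⟨0,[(36,0)]⟩),⟨1,[(0,0),(13,0),(20,0)]⟩,.k,(.r (-1) ⟨1,[(53,1),
  (0,0),(0,0)]⟩ ⟨1,[(24,0),(3,0),(23,0)]⟩),⟨false,0,⟨0,[]⟩,⟨8,[(5,4),(28,4),(15,0),(4,1)]⟩⟩,⟨true,0,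
  ⟨0,[(53,0)]⟩,⟨0,[(52,0)]⟩⟩,⟨true,0,⟨0,[(52,0)]⟩,⟨0,[(53,0)]⟩⟩,⟨false,1,⟨8,[(5,4),(28,4),(15,0),(4,
  1)]⟩,⟨0,[]⟩⟩,[.a ⟨true,1,⟨0,[(5,0),(47,0)]⟩,⟨3,[(2,0),(0,2),(3,0)]⟩⟩ ⟨true,0,⟨0,[]⟩,⟨1,[(40,0),(0,
  0)]⟩⟩ ⟨false,1,⟨1,[(53,1),(0,0),(0,0)]⟩,⟨0,[(52,0)]⟩⟩,.o ⟨false,2,⟨8,[(5,9),(28,0),(15,1),(2,8),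
  (1,3)]⟩,⟨0,[(4,0)]⟩⟩,.o ⟨false,1,⟨0,[(33,0)]⟩,⟨4,[(3,3),(30,0),(15,0),(4,1)]⟩⟩,.o ⟨false,1,⟨1,
  [(33,1),(6,0),(0,0)]⟩,⟨14,[(1,12),(0,1),(4,1),(1,7),(3,3),(13,3),(22,2),(4,4)]⟩⟩]⟩) (.S ⟨1,0,[0,1,
  0,-1],[0,0,0,0,1],[1,2],(⟨0,[(36,0)]⟩,⟨0,[(35,0)]⟩),⟨1,[(0,0),(7,0),(27,0)]⟩,.k,(.r 0 ⟨2,[(9,0),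
  (39,0),(3,1)]⟩ ⟨9,[(5,5),(0,3),(5,2),(11,2),(4,1),(4,1),(20,1)]⟩),⟨false,0,⟨0,[]⟩,⟨8,[(5,4),(28,
  4),(15,0),(4,1)]⟩⟩,⟨true,0,⟨0,[(53,0)]⟩,⟨0,[(52,0)]⟩⟩,⟨true,0,⟨0,[(52,0)]⟩,⟨0,[(53,0)]⟩⟩,⟨false,1,
  ⟨8,[(5,4),(28,4),(15,0),(4,1)]⟩,⟨0,[]⟩⟩,[.e ⟨false,0,⟨0,[(49,0)]⟩,⟨0,[(55,0)]⟩⟩ ⟨false,0,⟨2,[(9,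
  0),(39,0),(3,1)]⟩,⟨13,[(5,3),(1,0),(4,0),(16,4),(4,3),(2,0),(17,4)]⟩⟩,.o ⟨false,0,⟨14,[(1,7),(7,
  3),(24,6),(15,2),(2,10),(1,1)]⟩,⟨11,[(5,2),(1,3),(1,2),(1,1),(0,2),(9,0),(10,8),(16,0)]⟩⟩,.o
  ⟨false,0,⟨4,[(3,3),(30,0),(15,0),(4,1)]⟩,⟨0,[(33,0)]⟩⟩,.a ⟨true,(-1),⟨0,[(1,0)]⟩,⟨3,[(5,3),(3,0),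
  (39,0),(1,0)]⟩⟩ ⟨false,0,⟨3,[(9,0),(39,0),(1,0)]⟩,⟨1,[(40,0),(0,0),(13,1)]⟩⟩ ⟨true,0,⟨2,[(9,0),
  (39,0),(3,1)]⟩,⟨1,[(12,0),(11,0)]⟩⟩]⟩))) (.Q [0,0,0,0,0,-1,0,0,0,1,0,-1] (.ed true [0,1,0,0,1]
  .k) (.R ⟨1,false,false,false,[1,0,0,0,-1],[1,-1],[0,0,0,-1],(⟨0,[(34,0)]⟩,⟨0,[(35,0)]⟩),(⟨0,[(46,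
  0)]⟩,⟨0,[(47,0)]⟩),⟨0,[(0,0)]⟩,.k,.k,(.r (-1) ⟨1,[(52,1),(0,0),(0,0)]⟩ ⟨1,[(23,0),(3,0),(23,0)]⟩),
  (.r (-1) ⟨9,[(4,5),(0,3),(5,2),(11,2),(4,1),(4,1),(20,1)]⟩ ⟨2,[(8,0),(39,0),(3,1)]⟩),.k,.k,⟨true,
  0,⟨1,[(39,0),(0,0)]⟩,⟨0,[]⟩⟩,⟨false,0,⟨0,[(33,0)]⟩,⟨37,[(1,30),(4,10),(3,11),(0,16),(0,17),(4,24),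
  (14,6),(16,5),(0,5)]⟩⟩,⟨false,0,⟨0,[(52,0)]⟩,⟨13,[(4,3),(1,0),(4,0),(16,4),(4,3),(2,0),(17,4)]⟩⟩,
  ⟨true,(-1),⟨0,[(2,0),(49,0)]⟩,⟨18,[(1,1),(4,4),(3,1),(0,5),(0,2),(4,0),(14,16),(16,0),(0,0)]⟩⟩,
  ⟨true,0,⟨0,[(56,0)]⟩,⟨0,[]⟩⟩,⟨true,(-1),⟨0,[(2,0)]⟩,⟨0,[(32,0)]⟩⟩,[.o ⟨false,0,⟨0,[(52,0)]⟩,⟨17,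
  [(4,0),(23,8),(3,3),(0,4),(15,1),(6,0)]⟩⟩,.o ⟨false,1,⟨1,[(1,0),(31,0),(4,0),(15,0)]⟩,⟨5,[(6,0),
  (3,1),(5,2),(0,2),(3,0),(27,0)]⟩⟩,.o ⟨false,1,⟨0,[(32,0)]⟩,⟨4,[(2,3),(30,0),(15,0),(4,1)]⟩⟩,.a
  ⟨true,0,⟨1,[(1,1),(4,0),(3,1),(0,0),(5,1),(21,0)]⟩,⟨2,[(2,1),(9,0),(13,0),(6,0),(20,0)]⟩⟩ ⟨false,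
  1,⟨1,[(52,1),(0,0),(0,0)]⟩,⟨1,[(11,0),(11,0)]⟩⟩ ⟨true,0,⟨1,[(2,0),(5,0),(24,0),(18,0),(1,0)]⟩,⟨0,
  [(1,0),(8,0),(0,0),(4,0),(0,0)]⟩⟩]⟩) (.S ⟨1,0,[0,-1,1],[1,1,0,0,-1],[1,0,1,1],(⟨0,[(34,0),(9,0)]⟩,
  ⟨2,[(0,0),(6,0),(5,0),(21,1)]⟩),⟨0,[(34,0)]⟩,(.r (-1) ⟨9,[(4,5),(0,3),(5,2),(11,2),(4,1),(4,1),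
  (20,1)]⟩ ⟨2,[(8,0),(39,0),(3,1)]⟩),.k,⟨false,0,⟨0,[]⟩,⟨8,[(4,4),(28,4),(15,0),(4,1)]⟩⟩,⟨true,0,⟨0,
  [(52,0)]⟩,⟨0,[(51,0)]⟩⟩,⟨true,0,⟨0,[(51,0)]⟩,⟨0,[(52,0)]⟩⟩,⟨false,1,⟨8,[(4,4),(28,4),(15,0),(4,
  1)]⟩,⟨0,[]⟩⟩,[.a ⟨true,1,⟨0,[(4,0)]⟩,⟨0,[(2,0)]⟩⟩ ⟨true,0,⟨1,[(11,0),(11,0)]⟩,⟨0,[(52,0)]⟩⟩
  ⟨false,1,⟨8,[(4,4),(28,4),(15,0),(4,1)]⟩,⟨3,[(8,0),(39,0),(1,0)]⟩⟩,.o ⟨false,2,⟨8,[(4,9),(28,0),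
  (15,1),(4,3)]⟩,⟨0,[(3,0),(48,0)]⟩⟩,.o ⟨false,1,⟨37,[(1,30),(4,10),(3,11),(0,16),(0,17),(4,24),(14,
  6),(16,5),(0,5)]⟩,⟨0,[(5,0)]⟩⟩,.o ⟨false,1,⟨0,[(32,0)]⟩,⟨4,[(2,3),(30,0),(15,0),(4,
  1)]⟩⟩]⟩)))))))) (.R ⟨0,false,false,false,[1,-1,-1],[0,-1,1],[0,0,-1,-1,0,0,0,1],(⟨0,[(23,0)]⟩,⟨0,
  [(0,0),(38,0)]⟩),(⟨0,[(24,0)]⟩,⟨1,[(0,0),(33,2)]⟩),⟨0,[(0,0)]⟩,.k,.k,(.r (-1) ⟨1,[(10,1),(34,3),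
  (0,0),(0,0)]⟩ ⟨5,[(4,4),(3,1),(7,6)]⟩),.k,.k,.k,⟨false,1,⟨1,[(25,0),(0,0),(19,0)]⟩,⟨0,[]⟩⟩,⟨true,
  1,⟨0,[(19,0),(12,0)]⟩,⟨0,[(3,0)]⟩⟩,⟨true,0,⟨2,[(8,1),(4,1)]⟩,⟨0,[(10,0),(3,0),(30,0)]⟩⟩,⟨false,1,
  ⟨0,[(12,0),(2,0)]⟩,⟨2,[(3,1),(6,3),(3,1),(7,0),(22,1),(1,1)]⟩⟩,⟨false,0,⟨0,[]⟩,⟨0,[]⟩⟩,⟨false,0,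
  ⟨0,[]⟩,⟨0,[]⟩⟩,[.a ⟨true,0,⟨0,[(12,0),(32,0)]⟩,⟨0,[(14,0),(14,0)]⟩⟩ ⟨false,1,⟨0,[(13,0),(32,0)]⟩,
  ⟨0,[(17,0)]⟩⟩ ⟨true,1,⟨0,[(12,0),(6,0),(25,0)]⟩,⟨0,[(3,0),(10,0)]⟩⟩,.o ⟨false,1,⟨0,[(15,0),(29,
  0)]⟩,⟨26,[(3,1),(0,8),(0,0),(16,1),(8,17),(10,0),(0,8)]⟩⟩,.o ⟨false,0,⟨0,[(33,0)]⟩,⟨0,[(19,0)]⟩⟩,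
  .e ⟨false,1,⟨0,[(7,0),(39,0)]⟩,⟨1,[(14,1),(17,0),(0,0)]⟩⟩ ⟨false,2,⟨0,[(7,0),(11,0),(12,0),(14,
  0)]⟩,⟨0,[(3,0),(10,0)]⟩⟩]⟩)))))) (.R ⟨1,false,false,false,[0,-1,1],[1,-1],[1,0,-1,-1,0,0,0,1],(⟨0,
  [(19,0)]⟩,⟨0,[(29,0),(2,0)]⟩),(⟨0,[(34,0)]⟩,⟨0,[(35,0)]⟩),⟨0,[(1,0)]⟩,.k,.k,(.r (-1) ⟨0,[(8,0),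
  (31,0),(0,0)]⟩ ⟨3,[(3,0),(5,6),(1,0)]⟩),.k,.k,.k,⟨true,0,⟨2,[(3,0),(4,0)]⟩,⟨0,[(9,0),(30,0)]⟩⟩,
  ⟨false,0,⟨0,[(24,0)]⟩,⟨2,[(0,0),(13,1),(5,0),(0,0)]⟩⟩,⟨true,0,⟨0,[]⟩,⟨0,[(44,0)]⟩⟩,⟨true,0,⟨0,[(9,
  0),(14,0),(15,0)]⟩,⟨0,[(6,0)]⟩⟩,⟨false,1,⟨0,[(39,0),(2,0)]⟩,⟨0,[(40,0)]⟩⟩,⟨true,0,⟨0,[(9,0),(14,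
  0)]⟩,⟨0,[(0,0),(1,0)]⟩⟩,[.o ⟨false,0,⟨0,[(40,0)]⟩,⟨49,[(16,24),(3,13),(0,13),(15,4),(4,0),(1,
  1)]⟩⟩,.e ⟨false,1,⟨0,[(2,0),(39,0)]⟩,⟨0,[(15,0)]⟩⟩ ⟨false,1,⟨1,[(24,1),(15,1),(0,0),(0,0)]⟩,⟨4,
  [(0,1),(3,2),(0,0),(3,0),(5,0)]⟩⟩,.a ⟨true,0,⟨0,[(27,0)]⟩,⟨0,[(24,0)]⟩⟩ ⟨false,1,⟨1,[(8,1),(32,0),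
  (0,0)]⟩,⟨0,[(9,0)]⟩⟩ ⟨true,0,⟨0,[(24,0),(15,0)]⟩,⟨4,[(0,1),(3,2),(0,0),(3,0),(5,0)]⟩⟩,.o ⟨false,0,
  ⟨0,[(0,0)]⟩,⟨5,[(17,0),(6,3),(12,0),(3,3)]⟩⟩]⟩)))))

theorem ok6 : chk K t6 r12 = true := by decide +kernel

noncomputable def t9 : Tre :=
  (.S ⟨1,0,[0,0,1,0,0,0,0,-1],[1,1,-1],[1,1,1,1,0,0,0,-1],(⟨0,[(23,0),(2,0)]⟩,⟨0,[(13,0)]⟩),⟨0,[(23,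
  0)]⟩,.k,.k,⟨false,0,⟨0,[]⟩,⟨1,[(14,0),(0,0),(20,0)]⟩⟩,⟨true,0,⟨0,[(34,0)]⟩,⟨0,[(33,0)]⟩⟩,⟨true,0,
  ⟨0,[(33,0)]⟩,⟨0,[(34,0)]⟩⟩,⟨false,1,⟨1,[(14,0),(0,0),(20,0)]⟩,⟨0,[]⟩⟩,[.a ⟨true,0,⟨5,[(0,4),(8,0),
  (1,0),(9,0),(8,1),(3,0)]⟩,⟨0,[(1,0)]⟩⟩ ⟨false,0,⟨0,[(3,0),(28,0),(1,0)]⟩,⟨1,[(2,1),(32,0),(0,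
  0)]⟩⟩ ⟨true,0,⟨0,[(3,0),(30,0)]⟩,⟨0,[(1,0),(5,0)]⟩⟩,.a ⟨true,0,⟨0,[(0,0)]⟩,⟨0,[(19,0)]⟩⟩ ⟨true,0,
  ⟨0,[(6,0)]⟩,⟨0,[(2,0)]⟩⟩ ⟨false,1,⟨1,[(0,0),(7,0),(0,0),(24,0),(1,0)]⟩,⟨0,[(2,0),(29,0)]⟩⟩,.a
  ⟨true,0,⟨0,[(18,0)]⟩,⟨0,[(21,0)]⟩⟩ ⟨false,0,⟨0,[(6,0)]⟩,⟨1,[(2,1),(32,0),(0,0)]⟩⟩ ⟨true,0,⟨0,[(3,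
  0),(30,0)]⟩,⟨0,[(2,0),(29,0)]⟩⟩,.o ⟨false,0,⟨0,[(7,0)]⟩,⟨49,[(8,24),(5,13),(0,13),(5,24),(9,4),(4,
  0),(1,1)]⟩⟩]⟩)

theorem ok9 : chk K t9 r10 = true := by decide +kernel

noncomputable def t12 : Tre :=
  (.Q [0,-1,0,0,0,0,-1,-1,0,1,-1] (.p false [0,0,1] [1] (⟨0,[(22,0)]⟩,⟨0,[(21,0)]⟩) .k 1 (⟨0,[]⟩,⟨0,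
  []⟩) .k .k) (.S ⟨1,0,[0,1,1,0,0,0,0,1],[0,1,1],[0,0,1,0,0,0,0,1],(⟨0,[(23,0),(1,0)]⟩,⟨0,[(11,
  0)]⟩),⟨0,[(23,0)]⟩,.k,.k,⟨true,0,⟨0,[(33,0)]⟩,⟨0,[(32,0)]⟩⟩,⟨false,0,⟨0,[(33,0)]⟩,⟨0,[(32,0),(2,
  0)]⟩⟩,⟨false,1,⟨1,[(13,0),(0,0),(20,0)]⟩,⟨0,[]⟩⟩,⟨true,0,⟨0,[(37,0)]⟩,⟨0,[]⟩⟩,[.a ⟨true,0,⟨0,[(18,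
  0)]⟩,⟨0,[(0,0)]⟩⟩ ⟨true,0,⟨0,[(4,0)]⟩,⟨0,[(1,0),(31,0)]⟩⟩ ⟨false,0,⟨0,[(6,0),(11,0)]⟩,⟨0,[(0,0),
  (6,0)]⟩⟩,.o ⟨false,1,⟨20,[(3,10),(9,5),(0,5),(3,9),(11,1),(6,0)]⟩,⟨0,[(1,0),(4,0),(26,0)]⟩⟩,.o
  ⟨false,1,⟨0,[(7,0)]⟩,⟨0,[(21,0)]⟩⟩,.o ⟨false,1,⟨49,[(7,24),(5,13),(0,13),(5,24),(9,4),(4,0),(1,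
  1)]⟩,⟨0,[(6,0)]⟩⟩]⟩) (.S ⟨1,0,[0,1,1,0,0,0,0,-1],[1,1,-1],[1,0,1,1,0,0,0,-1],(⟨0,[(22,0),(2,0)]⟩,
  ⟨0,[(12,0)]⟩),⟨0,[(22,0)]⟩,.k,.k,⟨true,0,⟨0,[]⟩,⟨0,[(37,0)]⟩⟩,⟨false,0,⟨0,[(33,0)]⟩,⟨0,[(32,0),(2,
  0)]⟩⟩,⟨false,1,⟨0,[(32,0),(2,0)]⟩,⟨0,[(33,0)]⟩⟩,⟨true,0,⟨0,[(37,0)]⟩,⟨0,[]⟩⟩,[.o ⟨false,0,⟨0,[(19,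
  0)]⟩,⟨0,[(3,0)]⟩⟩,.o ⟨false,0,⟨0,[(1,0),(4,0),(26,0)]⟩,⟨20,[(3,10),(9,5),(0,5),(3,9),(11,1),(6,
  0)]⟩⟩,.a ⟨true,0,⟨0,[(17,0)]⟩,⟨0,[(20,0)]⟩⟩ ⟨true,0,⟨0,[(5,0)]⟩,⟨0,[(0,0),(16,0),(15,0)]⟩⟩ ⟨false,
  0,⟨0,[(2,0),(30,0)]⟩,⟨0,[(3,0),(13,0)]⟩⟩,.o ⟨false,0,⟨0,[(6,0)]⟩,⟨49,[(7,24),(5,13),(0,13),(5,24),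
  (9,4),(4,0),(1,1)]⟩⟩]⟩))

theorem ok12 : chk K t12 r8 = true := by decide +kernel

noncomputable def t15 : Tre :=
  (.I [1,0,0,0,0,0,0,-1] (.S ⟨1,0,[0,0,1,0,0,0,0,1],[0,1,1],[0,1,1,0,0,0,0,1],(⟨0,[(21,0),(1,0)]⟩,
  ⟨0,[(9,0)]⟩),⟨0,[(21,0)]⟩,.k,.k,⟨false,0,⟨0,[(31,0)]⟩,⟨0,[(30,0),(2,0)]⟩⟩,⟨true,0,⟨0,[(31,0)]⟩,⟨0,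
  [(30,0)]⟩⟩,⟨true,0,⟨0,[(35,0)]⟩,⟨0,[]⟩⟩,⟨false,1,⟨1,[(11,0),(0,0),(20,0)]⟩,⟨0,[]⟩⟩,[.o ⟨false,1,
  ⟨9,[(11,0),(0,0),(3,9),(11,1),(4,4)]⟩,⟨5,[(0,1),(0,3),(6,0),(19,0),(4,1)]⟩⟩,.a ⟨true,1,⟨0,[(16,0),
  (16,0)]⟩,⟨0,[(1,0)]⟩⟩ ⟨true,0,⟨0,[(2,0)]⟩,⟨0,[(0,0)]⟩⟩ ⟨false,1,⟨1,[(2,1),(29,0),(0,0)]⟩,⟨0,[(1,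
  0),(3,0)]⟩⟩,.o ⟨false,1,⟨0,[(5,0)]⟩,⟨0,[(19,0)]⟩⟩,.o ⟨false,1,⟨49,[(5,24),(5,13),(0,13),(5,24),(9,
  4),(4,0),(1,1)]⟩,⟨0,[(4,0)]⟩⟩]⟩) (.Q [0,-1,0,-1,1,0,1,1,0,-1,1] (.p true [0,0,1] [1] (⟨0,[(21,
  0)]⟩,⟨0,[(20,0)]⟩) .k 1 (⟨0,[]⟩,⟨0,[]⟩) .k .k) (.R ⟨2,true,false,true,[0,1],[1,1,-1],[0,1,1],(⟨0,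
  []⟩,⟨0,[]⟩),(⟨0,[(21,0),(2,0)]⟩,⟨0,[(11,0)]⟩),⟨0,[]⟩,.k,.k,.k,.k,.k,.k,⟨true,0,⟨0,[(1,0),(30,0)]⟩,
  ⟨0,[(4,0)]⟩⟩,⟨false,0,⟨0,[(16,0)]⟩,⟨1,[(0,0),(5,0),(0,0)]⟩⟩,⟨false,0,⟨0,[(32,0)]⟩,⟨0,[(31,0),(2,
  0)]⟩⟩,⟨true,(-1),⟨0,[(2,0)]⟩,⟨42,[(0,21),(7,10),(3,5),(0,5),(3,20),(11,1),(6,0)]⟩⟩,⟨true,0,⟨0,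
  [(36,0)]⟩,⟨0,[]⟩⟩,⟨false,0,⟨0,[(4,0),(11,0)]⟩,⟨0,[(0,0)]⟩⟩,[]⟩) (.I [0,-1,2,1,0,0,0,-1] (.I [1,-2,
  0,1,1,0,0,1] (.R ⟨1,false,false,false,[0,0,1],[0,1],[1,1,0,0,0,0,0,1],(⟨0,[(24,0)]⟩,⟨0,[(23,0)]⟩),
  (⟨0,[(29,0)]⟩,⟨0,[(28,0)]⟩),⟨0,[(13,0)]⟩,.k,.k,.k,.k,(.r (-1) ⟨0,[(3,0),(30,1),(0,0)]⟩ ⟨0,[(1,0),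
  (31,0)]⟩),.k,⟨true,0,⟨0,[(3,0),(28,0),(1,1)]⟩,⟨0,[(1,0)]⟩⟩,⟨false,1,⟨5,[(11,0),(6,3),(12,0),(3,
  3)]⟩,⟨0,[(21,0)]⟩⟩,⟨false,0,⟨0,[]⟩,⟨1,[(14,0),(0,0),(20,0)]⟩⟩,⟨true,0,⟨17,[(2,15),(7,0),(9,1),(10,
  2),(4,8)]⟩,⟨0,[(19,0),(14,0)]⟩⟩,⟨true,0,⟨0,[(33,0)]⟩,⟨0,[(34,0)]⟩⟩,⟨true,0,⟨25,[(0,11),(0,3),(0,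
  33),(5,7),(1,0),(20,4),(4,2)]⟩,⟨0,[(19,0),(14,1)]⟩⟩,[.o ⟨false,1,⟨49,[(10,24),(3,13),(0,13),(15,
  4),(4,0),(1,1)]⟩,⟨0,[(34,0)]⟩⟩,.o ⟨false,1,⟨25,[(0,11),(0,3),(0,7),(5,7),(1,0),(20,4),(4,2)]⟩,⟨0,
  [(34,0),(3,0)]⟩⟩,.o ⟨false,1,⟨49,[(8,24),(5,13),(0,13),(5,24),(9,4),(4,0),(1,1)]⟩,⟨0,[(7,0)]⟩⟩,.a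
  ⟨true,0,⟨0,[(21,0)]⟩,⟨0,[(18,0)]⟩⟩ ⟨true,0,⟨0,[(3,0),(28,0),(1,0)]⟩,⟨3,[(1,1),(2,0),(3,0),(0,0),
  (24,2)]⟩⟩ ⟨false,1,⟨5,[(0,1),(1,1),(7,0),(7,3),(12,0),(3,0),(0,1)]⟩,⟨0,[(21,0),(12,0)]⟩⟩]⟩) (.S
  ⟨1,0,[0,0,1,0,0,0,0,1],[0,1,1],[1,1,1,1,0,0,0,1],(⟨0,[(24,0),(1,0)]⟩,⟨0,[(12,0)]⟩),⟨0,[(24,0)]⟩,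
  .k,.k,⟨false,0,⟨0,[]⟩,⟨1,[(14,0),(0,0),(20,0)]⟩⟩,⟨true,0,⟨0,[(34,0)]⟩,⟨0,[(33,0)]⟩⟩,⟨true,0,⟨0,
  [(33,0)]⟩,⟨0,[(34,0)]⟩⟩,⟨false,1,⟨1,[(14,0),(0,0),(20,0)]⟩,⟨0,[]⟩⟩,[.o ⟨false,1,⟨9,[(14,0),(0,0),
  (3,9),(11,1),(4,4)]⟩,⟨5,[(4,4),(15,0),(10,0),(4,2)]⟩⟩,.a ⟨true,1,⟨0,[(19,0),(16,0)]⟩,⟨0,[(4,0)]⟩⟩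
  ⟨true,0,⟨1,[(1,0),(1,2),(29,0)]⟩,⟨0,[(0,0),(35,0)]⟩⟩ ⟨false,1,⟨1,[(5,1),(29,0),(0,0)]⟩,⟨0,[(4,0),
  (3,0)]⟩⟩,.o ⟨false,1,⟨0,[(8,0)]⟩,⟨0,[(22,0)]⟩⟩,.o ⟨false,1,⟨49,[(8,24),(5,13),(0,13),(5,24),(9,4),
  (4,0),(1,1)]⟩,⟨0,[(7,0)]⟩⟩]⟩)) (.I [0,0,0,-1,0,0,0,-1] (.S ⟨1,0,[0,0,1,0,0,0,0,1],[0,1,1],[1,1,1,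
  1,0,0,0,1],(⟨0,[(24,0),(1,0)]⟩,⟨0,[(12,0)]⟩),⟨0,[(24,0)]⟩,.k,.k,⟨false,0,⟨0,[]⟩,⟨1,[(14,0),(0,0),
  (20,0)]⟩⟩,⟨true,0,⟨0,[(34,0)]⟩,⟨0,[(33,0)]⟩⟩,⟨true,0,⟨0,[(33,0)]⟩,⟨0,[(34,0)]⟩⟩,⟨false,1,⟨1,[(14,
  0),(0,0),(20,0)]⟩,⟨0,[]⟩⟩,[.o ⟨false,1,⟨9,[(14,0),(0,0),(3,9),(11,1),(4,4)]⟩,⟨5,[(4,4),(15,0),(10,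
  0),(4,2)]⟩⟩,.a ⟨true,1,⟨0,[(19,0),(16,0)]⟩,⟨0,[(4,0)]⟩⟩ ⟨true,0,⟨0,[(3,1),(2,0)]⟩,⟨0,[(0,0)]⟩⟩
  ⟨false,1,⟨1,[(5,1),(29,0),(0,0)]⟩,⟨0,[(4,0),(3,0)]⟩⟩,.o ⟨false,1,⟨0,[(8,0)]⟩,⟨0,[(22,0)]⟩⟩,.o
  ⟨false,1,⟨49,[(8,24),(5,13),(0,13),(5,24),(9,4),(4,0),(1,1)]⟩,⟨0,[(7,0)]⟩⟩]⟩) (.Q [0,0,0,1,-1,0,
  -1,-1,1,0,-1,1] (.p false [0,0,1] [0,0,0,0,1] (⟨0,[(24,0)]⟩,⟨0,[(23,0)]⟩) .k 2 (⟨0,[(17,0)]⟩,⟨0,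
  [(16,0)]⟩) .k (.r (-1) ⟨1,[(5,1),(29,0),(0,0)]⟩ ⟨1,[(4,0),(3,0),(0,0),(24,0)]⟩)) (.Q [0,0,0,0,0,0,
  0,0,0,1,-1,-1] (.ed true [0,0,1,0,1] (.r 0 ⟨1,[(4,0),(1,0),(24,0)]⟩ ⟨1,[(5,0),(3,0),(0,0),(24,0),
  (1,1)]⟩)) (.R ⟨1,false,false,false,[1,0,0,0,-1],[1,0,-1,0,-1],[1],(⟨0,[(18,0)]⟩,⟨0,[(19,0)]⟩),(⟨0,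
  [(0,0)]⟩,⟨0,[(19,0),(6,0)]⟩),⟨0,[(0,0),(14,0)]⟩,.k,.k,(.r (-1) ⟨1,[(36,1),(0,0),(0,0)]⟩ ⟨1,[(7,0),
  (3,0),(23,0)]⟩),.k,.k,.k,⟨false,0,⟨2,[(2,0),(0,0),(1,0),(26,0)]⟩,⟨1,[(6,0),(3,0),(0,0),(24,0),(1,
  1)]⟩⟩,⟨true,0,⟨0,[(9,0)]⟩,⟨0,[(23,0)]⟩⟩,⟨false,0,⟨0,[]⟩,⟨1,[(16,0),(0,0),(20,0)]⟩⟩,⟨true,0,⟨5,[(6,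
  4),(15,0),(10,0),(4,2)]⟩,⟨0,[(21,0)]⟩⟩,⟨true,0,⟨0,[(35,0)]⟩,⟨0,[(36,0)]⟩⟩,⟨true,0,⟨17,[(4,15),(7,
  0),(9,1),(10,2),(4,8)]⟩,⟨0,[(21,0),(14,0)]⟩⟩,[.a ⟨true,1,⟨0,[(6,0),(9,0),(21,0)]⟩,⟨0,[(1,0),(1,0),
  (1,0),(17,1)]⟩⟩ ⟨true,0,⟨0,[]⟩,⟨1,[(23,0),(0,0)]⟩⟩ ⟨false,1,⟨5,[(6,4),(15,0),(10,0),(3,2),(0,5)]⟩,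
  ⟨0,[(21,0)]⟩⟩,.o ⟨false,2,⟨5,[(6,4),(9,5),(5,0),(10,0),(4,8)]⟩,⟨2,[(1,2),(1,3),(0,0),(0,3),(0,0),
  (16,7),(9,0)]⟩⟩,.o ⟨false,1,⟨0,[(16,0)]⟩,⟨14,[(1,7),(1,3),(1,3),(11,6),(5,7),(9,2),(2,3),(1,1)]⟩⟩,
  .o ⟨false,1,⟨1,[(16,1),(6,0),(0,0)]⟩,⟨15,[(1,13),(1,13),(6,0),(6,1),(5,12),(9,2),(4,6)]⟩⟩]⟩) (.S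
  ⟨1,0,[0,0,1],[1,1,0,0,-1],[0,-1,1],(⟨0,[(18,0),(9,0)]⟩,⟨0,[(0,0),(13,0)]⟩),⟨0,[(18,0)]⟩,(.r (-1)
  ⟨1,[(12,0),(0,0),(9,1),(14,0)]⟩ ⟨3,[(3,0),(2,0),(3,0),(21,0),(3,2)]⟩),.k,⟨true,0,⟨0,[(36,0)]⟩,⟨0,
  [(35,0)]⟩⟩,⟨false,0,⟨0,[(36,0)]⟩,⟨0,[(35,0),(2,0)]⟩⟩,⟨false,1,⟨1,[(16,0),(0,0),(20,0)]⟩,⟨0,[]⟩⟩,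
  ⟨true,0,⟨0,[(40,0)]⟩,⟨0,[]⟩⟩,[.o ⟨false,1,⟨0,[(16,0)]⟩,⟨14,[(1,7),(1,3),(1,3),(11,6),(5,7),(9,2),
  (2,3),(1,1)]⟩⟩,.e ⟨false,1,⟨0,[(38,0)]⟩,⟨0,[(32,0)]⟩⟩ ⟨false,1,⟨1,[(16,0),(0,0),(20,0)]⟩,⟨3,[(3,
  0),(0,0),(5,0),(21,0)]⟩⟩,.a ⟨true,1,⟨0,[(3,0),(0,0),(11,0),(6,0),(14,0)]⟩,⟨0,[(1,0),(3,0),(17,0),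
  (12,0)]⟩⟩ ⟨false,1,⟨1,[(23,0),(0,0),(13,1)]⟩,⟨3,[(3,0),(0,0),(5,0),(21,0)]⟩⟩ ⟨true,0,⟨1,[(23,0),
  (0,0)]⟩,⟨3,[(3,0),(0,0),(5,0),(21,0)]⟩⟩,.o ⟨false,1,⟨0,[(16,0)]⟩,⟨14,[(1,7),(1,3),(1,3),(11,6),(5,
  7),(9,2),(2,3),(1,1)]⟩⟩]⟩)) (.Q [0,0,-1,0,0,0,0,0,-1,1,0,-1] (.p false [0,0,0,0,1] [1] (⟨0,[(18,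
  0)]⟩,⟨0,[(17,0)]⟩) .k 1 (⟨0,[]⟩,⟨0,[]⟩) .k .k) (.Q [0,0,0,0,0,-1,0,0,0,0,0,1] (.ed false [1,-1,0,
  0,1] .k) (.S ⟨1,0,[0,-1,1],[1,1,0,0,-1],[1,0,1,1],(⟨0,[(19,0),(9,0)]⟩,⟨0,[(0,0)]⟩),⟨0,[(19,0)]⟩,
  (.r (-1) ⟨1,[(13,0),(0,0),(9,1),(14,0)]⟩ ⟨3,[(4,0),(2,0),(3,0),(21,0),(3,2)]⟩),.k,⟨false,0,⟨0,[]⟩,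
  ⟨1,[(17,0),(0,0),(20,0)]⟩⟩,⟨true,0,⟨0,[(37,0)]⟩,⟨0,[(36,0)]⟩⟩,⟨true,0,⟨0,[(36,0)]⟩,⟨0,[(37,0)]⟩⟩,
  ⟨false,1,⟨1,[(17,0),(0,0),(20,0)]⟩,⟨0,[]⟩⟩,[.o ⟨false,1,⟨11,[(1,9),(15,1),(6,4),(0,4),(8,1),(4,
  5)]⟩,⟨2,[(4,0),(0,0),(0,0),(0,0),(10,2),(5,1),(9,0)]⟩⟩,.e ⟨false,1,⟨0,[(36,0),(2,0)]⟩,⟨3,[(4,0),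
  (2,0),(3,0),(21,0),(3,2)]⟩⟩ ⟨false,1,⟨0,[(39,0)]⟩,⟨0,[(33,0)]⟩⟩,.a ⟨true,0,⟨0,[(1,0)]⟩,⟨1,[(18,1),
  (5,0),(0,0)]⟩⟩ ⟨true,0,⟨2,[(3,0),(4,0),(0,1)]⟩,⟨3,[(4,0),(2,0),(3,0),(21,0),(3,2)]⟩⟩ ⟨false,1,⟨1,
  [(24,0),(0,0),(13,1)]⟩,⟨3,[(4,0),(0,0),(5,0),(21,0)]⟩⟩,.e ⟨false,1,⟨0,[(36,0),(2,0)]⟩,⟨0,[(37,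
  0)]⟩⟩ ⟨false,1,⟨0,[(39,0)]⟩,⟨0,[(41,0)]⟩⟩]⟩) (.R ⟨0,false,false,true,[0,1,0,0,-1],[1,0,0,0,-1],
  [1],(⟨0,[(0,0)]⟩,⟨0,[(20,0),(10,0)]⟩),(⟨0,[(19,0)]⟩,⟨0,[(20,0)]⟩),⟨0,[(20,0)]⟩,(.r (-1) ⟨1,[(13,
  0),(0,0),(9,1),(14,0)]⟩ ⟨3,[(4,0),(2,0),(3,0),(21,0),(3,2)]⟩),.k,.k,.k,.k,.k,⟨true,0,⟨0,[]⟩,⟨1,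
  [(24,0),(0,0)]⟩⟩,⟨false,0,⟨0,[(21,0),(2,0)]⟩,⟨9,[(17,0),(0,0),(15,1),(3,4)]⟩⟩,⟨true,0,⟨3,[(4,0),
  (2,0),(3,0),(21,0),(3,2)]⟩,⟨2,[(3,0),(4,0),(0,1)]⟩⟩,⟨false,0,⟨0,[(21,0),(2,0),(12,0)]⟩,⟨3,[(3,1),
  (1,1),(5,0),(12,0),(9,0),(4,2)]⟩⟩,⟨false,0,⟨0,[]⟩,⟨0,[]⟩⟩,⟨false,0,⟨0,[]⟩,⟨0,[]⟩⟩,[.a ⟨true,0,⟨1,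
  [(1,1),(22,0),(0,0)]⟩,⟨0,[(18,0)]⟩⟩ ⟨true,0,⟨0,[]⟩,⟨1,[(24,0),(0,0)]⟩⟩ ⟨false,0,⟨0,[(21,0),(2,
  0)]⟩,⟨9,[(17,0),(0,0),(15,1),(3,4)]⟩⟩,.o ⟨false,1,⟨11,[(1,9),(15,1),(6,4),(0,4),(8,1),(4,5)]⟩,⟨2,
  [(4,0),(0,0),(0,0),(0,0),(10,2),(5,1),(9,0)]⟩⟩,.o ⟨false,1,⟨15,[(1,13),(15,1),(16,5),(3,0),(0,0),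
  (1,1)]⟩,⟨1,[(18,1),(5,0),(0,0)]⟩⟩,.o ⟨false,1,⟨11,[(1,7),(15,3),(6,2),(0,2),(8,3),(5,1)]⟩,⟨0,[(18,
  0)]⟩⟩]⟩)) (.Q [0,-1,0,0,1,0,0,0,-1,0,0,-1] (.p false [0,0,0,0,1] [] (⟨0,[(19,0)]⟩,⟨0,[(18,0)]⟩)
  .k 0 (⟨0,[]⟩,⟨0,[]⟩) .k .k) (.Q [0,0,0,0,0,0,0,0,-1,1,0,-1] (.p false [0,0,0,0,1] [1] (⟨0,[(20,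
  0)]⟩,⟨0,[(19,0)]⟩) .k 1 (⟨0,[]⟩,⟨0,[]⟩) .k .k) (.Q [0,0,0,0,0,-1,0,0,0,0,0,1] (.ed false [1,-1,0,
  0,1] .k) (.S ⟨1,0,[0,0,1],[1,1,0,0,-1],[0,-1,1],(⟨0,[(21,0),(9,0)]⟩,⟨0,[(0,0)]⟩),⟨0,[(21,0)]⟩,(.r
  (-1) ⟨1,[(15,0),(0,0),(9,1),(14,0)]⟩ ⟨3,[(6,0),(2,0),(3,0),(21,0),(3,2)]⟩),.k,⟨true,0,⟨0,[(39,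
  0)]⟩,⟨0,[(38,0)]⟩⟩,⟨false,0,⟨0,[(39,0)]⟩,⟨0,[(38,0),(2,0)]⟩⟩,⟨false,1,⟨1,[(19,0),(0,0),(20,0)]⟩,
  ⟨0,[]⟩⟩,⟨true,0,⟨0,[(43,0)]⟩,⟨0,[]⟩⟩,[.a ⟨true,0,⟨0,[(1,0)]⟩,⟨0,[(20,0)]⟩⟩ ⟨false,1,⟨1,[(19,0),(0,
  0),(20,0)]⟩,⟨3,[(6,0),(0,0),(5,0),(21,0)]⟩⟩ ⟨true,0,⟨1,[(26,0),(0,0)]⟩,⟨0,[]⟩⟩,.o ⟨false,1,⟨0,[(2,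
  0)]⟩,⟨3,[(3,3),(2,0),(0,0),(5,0),(21,0)]⟩⟩,.o ⟨false,1,⟨5,[(1,4),(17,0),(16,0),(3,2)]⟩,⟨0,[(3,
  0)]⟩⟩,.e ⟨false,1,⟨0,[(41,0)]⟩,⟨0,[(43,0)]⟩⟩ ⟨false,1,⟨1,[(19,0),(0,0),(20,0)]⟩,⟨0,[]⟩⟩]⟩) (.R ⟨0,
  false,false,true,[0,0,0,0,1],[1,-1],[0,1],(⟨0,[(22,0)]⟩,⟨0,[(21,0)]⟩),(⟨0,[(33,0)]⟩,⟨0,[(34,0)]⟩),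
  ⟨0,[(0,0)]⟩,.k,.k,(.r 0 ⟨3,[(6,0),(2,0),(3,0),(21,0),(3,2)]⟩ ⟨1,[(15,0),(0,0),(9,1),(14,0)]⟩),(.r
  0 ⟨1,[(10,0),(3,0),(23,0)]⟩ ⟨1,[(39,1),(0,0),(0,0)]⟩),.k,.k,⟨true,0,⟨2,[(5,0),(4,0),(0,1)]⟩,⟨0,
  [(39,0)]⟩⟩,⟨false,0,⟨0,[(1,0)]⟩,⟨0,[(3,0),(36,0)]⟩⟩,⟨false,1,⟨1,[(19,0),(0,0),(20,0)]⟩,⟨0,[]⟩⟩,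
  ⟨true,0,⟨0,[(1,0),(37,0)]⟩,⟨0,[(3,0),(33,0)]⟩⟩,⟨false,0,⟨0,[]⟩,⟨0,[]⟩⟩,⟨false,0,⟨0,[]⟩,⟨0,[]⟩⟩,
  [.o ⟨false,0,⟨0,[(39,0),(3,0)]⟩,⟨3,[(5,1),(1,1),(5,0),(12,0),(9,0),(4,2)]⟩⟩,.o ⟨false,0,⟨0,[(39,
  0)]⟩,⟨21,[(3,5),(11,10),(3,5),(16,0),(3,2)]⟩⟩,.a ⟨true,0,⟨0,[(20,0)]⟩,⟨0,[(1,0)]⟩⟩ ⟨true,0,⟨0,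
  [(43,0)]⟩,⟨0,[]⟩⟩ ⟨false,0,⟨0,[(1,0),(37,0)]⟩,⟨0,[(3,0),(33,0),(3,0)]⟩⟩,.o ⟨false,0,⟨0,[(3,0)]⟩,
  ⟨5,[(1,4),(17,0),(16,0),(3,2)]⟩⟩]⟩)) (.R ⟨1,false,false,false,[0,0,1],[0,0,0,0,1],[0,1,0,-1,0,0,0,
  1],(⟨0,[(28,0)]⟩,⟨0,[(27,0)]⟩),(⟨0,[(21,0)]⟩,⟨0,[(20,0)]⟩),⟨0,[(17,0)]⟩,.k,.k,.k,.k,(.r (-1) ⟨10,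
  [(2,0),(0,1),(1,6),(3,1),(5,0),(3,0),(18,1),(1,8)]⟩ ⟨0,[(13,0)]⟩),.k,⟨true,0,⟨0,[(7,0),(30,0)]⟩,
  ⟨0,[(10,0)]⟩⟩,⟨false,0,⟨0,[(0,0),(21,0)]⟩,⟨1,[(1,0),(1,0),(2,0),(5,0),(12,0)]⟩⟩,⟨false,0,⟨0,[(38,
  0)]⟩,⟨0,[(37,0),(2,0)]⟩⟩,⟨true,(-1),⟨0,[(0,0),(7,0)]⟩,⟨0,[(1,0),(21,0)]⟩⟩,⟨true,0,⟨0,[(42,0)]⟩,⟨0,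
  []⟩⟩,⟨true,(-1),⟨0,[(0,0),(5,0)]⟩,⟨0,[(3,0)]⟩⟩,[.o ⟨false,0,⟨1,[(0,0),(1,0),(31,0)]⟩,⟨0,[(1,0)]⟩⟩,
  .o ⟨false,0,⟨0,[(0,0)]⟩,⟨0,[(18,0)]⟩⟩,.o ⟨false,1,⟨27,[(2,5),(0,5),(8,16),(0,5),(11,4),(9,0),(4,
  2)]⟩,⟨0,[(11,0)]⟩⟩,.a ⟨true,0,⟨0,[(25,0)]⟩,⟨0,[(22,0)]⟩⟩ ⟨true,0,⟨2,[(5,1),(3,0),(28,0),(3,0)]⟩,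
  ⟨0,[(10,0)]⟩⟩ ⟨false,0,⟨0,[(0,0),(21,0)]⟩,⟨0,[(1,0),(23,0)]⟩⟩]⟩)) (.Q [0,0,0,0,-1,0,-1,-1,1,0,-1,
  1] (.p false [0,0,1] [0,0,0,0,1] (⟨0,[(27,0)]⟩,⟨0,[(26,0)]⟩) .k 2 (⟨0,[(20,0)]⟩,⟨0,[(19,0)]⟩) .k
  (.r (-1) ⟨5,[(2,1),(3,3),(6,0),(0,0),(3,1),(20,2)]⟩ ⟨1,[(7,0),(3,0),(0,0),(24,0)]⟩)) (.R ⟨1,true,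
  false,false,[0,0,1],[0,0,0,0,1],[0,0,0,-1,0,0,0,1],(⟨0,[(28,0)]⟩,⟨0,[(27,0)]⟩),(⟨0,[(21,0)]⟩,⟨0,
  [(20,0)]⟩),⟨0,[(17,0)]⟩,.k,.k,.k,.k,(.r (-1) ⟨10,[(2,0),(0,1),(1,6),(3,1),(5,0),(3,0),(18,1),(1,
  8)]⟩ ⟨0,[(13,0)]⟩),.k,⟨false,1,⟨10,[(2,0),(0,1),(1,6),(3,1),(5,0),(3,0),(18,1),(1,8)]⟩,⟨1,[(6,0),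
  (5,0),(0,0)]⟩⟩,⟨true,(-1),⟨0,[(0,0),(6,0)]⟩,⟨0,[(18,0),(6,0)]⟩⟩,⟨true,0,⟨0,[(38,0)]⟩,⟨0,[(37,
  0)]⟩⟩,⟨false,(-1),⟨0,[(0,0)]⟩,⟨0,[(3,0),(33,0),(2,0)]⟩⟩,⟨false,1,⟨1,[(18,0),(0,0),(20,0)]⟩,⟨0,
  []⟩⟩,⟨true,(-1),⟨0,[(0,0),(36,0)]⟩,⟨0,[(3,0)]⟩⟩,[]⟩) (.Q [0,0,0,1,1,0,1,1,-1,0,1,-1] (.p true [0,
  0,1] [0,0,0,0,1] (⟨0,[(28,0)]⟩,⟨0,[(27,0)]⟩) .k 2 (⟨0,[(21,0)]⟩,⟨0,[(20,0)]⟩) .k (.r (-1) ⟨23,[(0,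
  9),(6,13),(7,4),(3,9),(15,0),(4,11)]⟩ ⟨1,[(8,0),(3,0),(0,0),(24,0)]⟩)) (.Q [0,0,1,0,0,0,0,0,-1,1,
  0,-1] (.p false [0,0,0,0,1] [1] (⟨0,[(22,0)]⟩,⟨0,[(21,0)]⟩) .k 1 (⟨0,[]⟩,⟨0,[]⟩) .k .k) (.Q [0,0,
  0,0,0,-1,0,0,0,0,0,1] (.ed false [1,-1,0,0,1] .k) (.Q [0,0,-1,0,1,0,0,0,-1,0,0,-1] (.p false [0,0,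
  0,0,1] [] (⟨0,[(24,0)]⟩,⟨0,[(23,0)]⟩) .k 0 (⟨0,[]⟩,⟨0,[]⟩) .k .k) (.S ⟨1,0,[0,2,0,-1],[0,0,0,0,1],
  [1,1],(⟨0,[(25,0)]⟩,⟨0,[(24,0)]⟩),⟨0,[(1,0)]⟩,.k,(.r 0 ⟨3,[(9,0),(2,0),(3,0),(21,0),(3,2)]⟩ ⟨9,
  [(3,1),(9,3),(0,1),(2,3),(0,0),(0,0),(3,1),(20,6)]⟩),⟨true,0,⟨0,[]⟩,⟨0,[(46,0)]⟩⟩,⟨false,0,⟨0,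
  [(42,0)]⟩,⟨3,[(3,0),(10,0),(3,0),(4,0),(2,0),(17,1)]⟩⟩,⟨false,1,⟨3,[(3,0),(10,0),(3,0),(4,0),(2,
  0),(17,1)]⟩,⟨0,[(42,0)]⟩⟩,⟨true,0,⟨0,[(46,0)]⟩,⟨0,[]⟩⟩,[.o ⟨false,(-1),⟨2,[(2,0),(2,3),(3,0),(2,
  0),(16,0),(9,0),(2,1)]⟩,⟨1,[(0,0),(1,0),(15,0),(25,1)]⟩⟩,.a ⟨true,(-1),⟨0,[(5,0),(36,0)]⟩,⟨3,[(2,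
  1),(0,1),(6,1),(32,0),(0,2)]⟩⟩ ⟨true,0,⟨0,[]⟩,⟨1,[(2,0),(3,0)]⟩⟩ ⟨false,0,⟨3,[(9,0),(2,0),(3,0),
  (21,0),(3,2)]⟩,⟨3,[(3,0),(10,0),(3,0),(4,0),(2,0),(17,1)]⟩⟩,.o ⟨false,0,⟨4,[(5,3),(17,0),(15,0),
  (4,1)]⟩,⟨0,[(22,0)]⟩⟩,.o ⟨false,0,⟨0,[(6,0)]⟩,⟨0,[(0,0)]⟩⟩]⟩) (.K ⟨0,[0,0,0,0,1],(-1),(-1),(⟨0,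
  [(25,0)]⟩,⟨0,[(24,0)]⟩),.k,(.r 0 ⟨3,[(9,0),(2,0),(3,0),(21,0),(3,2)]⟩ ⟨9,[(3,1),(9,3),(0,1),(2,3),
  (0,0),(0,0),(3,1),(20,6)]⟩),(.r 0 ⟨1,[(13,0),(3,0),(23,0)]⟩ ⟨1,[(42,1),(0,0),(0,0)]⟩),.k,.k,[⟨0,
  [(2,0),(13,0)]⟩,⟨0,[(0,0)]⟩,⟨0,[(22,0)]⟩,⟨0,[(5,0),(40,0)]⟩]⟩)) (.I [1,-1,2,2,0,0,0,1] (.Q [0,0,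
  -1,0,1,0,0,0,-1,0,0,-1] (.p false [0,0,0,0,1] [] (⟨0,[(25,0)]⟩,⟨0,[(24,0)]⟩) .k 0 (⟨0,[]⟩,⟨0,[]⟩)
  .k .k) (.R ⟨0,false,false,false,[0,0,0,0,1],[1,0,-1,0,1],[0,1,0,-1],(⟨0,[(26,0)]⟩,⟨0,[(25,0)]⟩),
  (⟨0,[(26,0),(5,0)]⟩,⟨0,[(2,0),(19,0)]⟩),⟨0,[(2,0)]⟩,.k,.k,(.r 0 ⟨3,[(10,0),(2,0),(3,0),(21,0),(3,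
  2)]⟩ ⟨19,[(1,3),(3,5),(1,1),(10,9),(0,0),(0,2),(3,3),(20,12)]⟩),.k,.k,.k,⟨true,0,⟨0,[(12,0),(30,
  0)]⟩,⟨0,[(15,0)]⟩⟩,⟨false,0,⟨0,[(27,0)]⟩,⟨27,[(7,5),(0,5),(8,16),(0,5),(11,4),(9,0),(4,2)]⟩⟩,
  ⟨true,0,⟨0,[(43,0)]⟩,⟨0,[(42,0)]⟩⟩,⟨false,0,⟨0,[(13,0),(31,0)]⟩,⟨4,[(5,0),(18,0),(3,3),(11,0),(4,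
  1)]⟩⟩,⟨false,0,⟨0,[]⟩,⟨0,[]⟩⟩,⟨false,0,⟨0,[]⟩,⟨0,[]⟩⟩,[.o ⟨false,(-1),⟨4,[(6,3),(6,4),(10,0),(15,
  0),(4,1)]⟩,⟨5,[(5,3),(2,1),(10,0),(20,0),(4,2)]⟩⟩,.a ⟨true,(-1),⟨0,[(6,0),(6,0),(31,0)]⟩,⟨0,[(5,
  0)]⟩⟩ ⟨true,0,⟨0,[(43,0)]⟩,⟨2,[(1,0),(16,0)]⟩⟩ ⟨false,0,⟨1,[(13,1),(30,0),(0,0)]⟩,⟨4,[(5,0),(18,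
  0),(3,3),(11,0),(4,1)]⟩⟩,.o ⟨false,0,⟨4,[(6,3),(17,0),(15,0),(4,1)]⟩,⟨0,[(23,0)]⟩⟩,.o ⟨false,0,⟨0,
  [(7,0)]⟩,⟨0,[(0,0)]⟩⟩]⟩) (.K ⟨0,[0,0,0,0,1],(-1),(-1),(⟨0,[(26,0)]⟩,⟨0,[(25,0)]⟩),.k,(.r 0 ⟨3,
  [(10,0),(2,0),(3,0),(21,0),(3,2)]⟩ ⟨19,[(1,3),(3,5),(1,1),(10,9),(0,0),(0,2),(3,3),(20,12)]⟩),(.r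
  0 ⟨1,[(14,0),(3,0),(23,0)]⟩ ⟨1,[(43,1),(0,0),(0,0)]⟩),.k,.k,[⟨0,[(3,0),(13,0)]⟩,⟨0,[(0,0)]⟩,⟨0,
  [(23,0)]⟩,⟨0,[(6,0),(40,0)]⟩]⟩)) (.R ⟨0,false,false,false,[0,0,0,0,1],[1,0,-1,0,1],[0,1,0,-1],(⟨0,
  [(25,0)]⟩,⟨0,[(24,0)]⟩),(⟨0,[(25,0),(5,0)]⟩,⟨0,[(1,0),(19,0)]⟩),⟨0,[(1,0)]⟩,.k,.k,(.r 0 ⟨8,[(0,3),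
  (8,0),(3,2),(24,1)]⟩ ⟨9,[(3,1),(9,3),(0,1),(2,3),(0,0),(0,0),(3,1),(20,6)]⟩),.k,.k,.k,⟨true,0,⟨0,
  [(11,0),(30,0)]⟩,⟨0,[(14,0)]⟩⟩,⟨false,0,⟨0,[(26,0)]⟩,⟨27,[(6,5),(0,5),(8,16),(0,5),(11,4),(9,0),
  (4,2)]⟩⟩,⟨true,0,⟨0,[(42,0)]⟩,⟨0,[(41,0)]⟩⟩,⟨false,0,⟨0,[(12,0),(31,0)]⟩,⟨4,[(4,0),(18,0),(3,3),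
  (11,0),(4,1)]⟩⟩,⟨false,0,⟨0,[]⟩,⟨0,[]⟩⟩,⟨false,0,⟨0,[]⟩,⟨0,[]⟩⟩,[.o ⟨false,(-1),⟨19,[(0,1),(4,15),
  (0,3),(3,3),(1,13),(6,0),(19,2),(4,7)]⟩,⟨5,[(4,3),(2,1),(10,0),(20,0),(4,2)]⟩⟩,.a ⟨true,(-1),⟨0,
  [(5,0),(6,0),(31,0)]⟩,⟨0,[(4,0)]⟩⟩ ⟨true,0,⟨0,[(42,0)]⟩,⟨2,[(8,0),(4,0),(0,1)]⟩⟩ ⟨false,0,⟨2,[(0,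
  0),(9,0),(3,0),(11,1),(17,0)]⟩,⟨4,[(4,0),(18,0),(3,3),(11,0),(4,1)]⟩⟩,.o ⟨false,0,⟨4,[(5,3),(17,
  0),(15,0),(4,1)]⟩,⟨0,[(22,0)]⟩⟩,.o ⟨false,0,⟨0,[(6,0)]⟩,⟨4,[(0,3),(1,2),(0,1),(4,3),(1,1),(28,0),
  (4,2)]⟩⟩]⟩))) (.Q [0,0,0,0,0,-1,0,0,0,1,0,-1] (.ed true [0,1,0,0,1] .k) (.S ⟨1,0,[0,-1,0,-1],[1,0,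
  0,0,-1],[1],(⟨0,[(23,0)]⟩,⟨0,[(24,0)]⟩),⟨0,[(0,0)]⟩,.k,(.r (-1) ⟨1,[(41,1),(0,0),(0,0)]⟩ ⟨1,[(12,
  0),(3,0),(23,0)]⟩),⟨false,0,⟨0,[]⟩,⟨1,[(21,0),(0,0),(20,0)]⟩⟩,⟨true,0,⟨0,[(41,0)]⟩,⟨0,[(40,0)]⟩⟩,
  ⟨true,0,⟨0,[(40,0)]⟩,⟨0,[(41,0)]⟩⟩,⟨false,1,⟨1,[(21,0),(0,0),(20,0)]⟩,⟨0,[]⟩⟩,[.a ⟨true,1,⟨0,[(6,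
  0),(4,0),(31,0)]⟩,⟨1,[(1,0),(2,0),(2,0),(1,0),(18,0)]⟩⟩ ⟨true,0,⟨0,[]⟩,⟨1,[(28,0),(0,0)]⟩⟩ ⟨false,
  1,⟨1,[(41,1),(0,0),(0,0)]⟩,⟨0,[(40,0)]⟩⟩,.o ⟨false,2,⟨0,[(21,0),(19,0),(1,0)]⟩,⟨2,[(1,0),(2,1),(2,
  0),(0,0),(0,2),(0,0),(17,2),(9,0)]⟩⟩,.o ⟨false,1,⟨0,[(21,0)]⟩,⟨1,[(1,0),(3,0)]⟩⟩,.o ⟨false,1,⟨1,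
  [(21,1),(6,0),(0,0)]⟩,⟨0,[(1,0)]⟩⟩]⟩) (.R ⟨0,false,false,true,[1,0,0,0,-1],[2,0,-1,0,-1],[0,0,0,
  -1],(⟨0,[(23,0)]⟩,⟨0,[(24,0)]⟩),(⟨0,[(23,0),(6,0)]⟩,⟨0,[(0,0),(19,0)]⟩),⟨0,[(0,0)]⟩,.k,.k,(.r
  (-1) ⟨1,[(41,1),(0,0),(0,0)]⟩ ⟨1,[(12,0),(3,0),(23,0)]⟩),.k,.k,.k,⟨true,0,⟨0,[(10,0),(30,0)]⟩,⟨0,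
  [(13,0)]⟩⟩,⟨false,0,⟨0,[(25,0)]⟩,⟨27,[(5,5),(0,5),(8,16),(0,5),(11,4),(9,0),(4,2)]⟩⟩,⟨false,0,⟨0,
  [(41,0)]⟩,⟨3,[(2,0),(10,0),(3,0),(4,0),(2,0),(17,1)]⟩⟩,⟨true,(-1),⟨0,[(11,0)]⟩,⟨4,[(3,0),(18,0),
  (3,3),(11,0),(4,1)]⟩⟩,⟨false,0,⟨0,[]⟩,⟨0,[]⟩⟩,⟨false,0,⟨0,[]⟩,⟨0,[]⟩⟩,[.a ⟨true,0,⟨0,[(3,0),(7,1),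
  (31,0)]⟩,⟨0,[(1,0),(8,0),(17,0)]⟩⟩ ⟨true,0,⟨0,[(41,0)]⟩,⟨2,[(7,0),(4,0),(0,1)]⟩⟩ ⟨false,0,⟨1,[(11,
  1),(30,0),(0,0)]⟩,⟨4,[(3,0),(18,0),(3,3),(11,0),(4,1)]⟩⟩,.o ⟨false,1,⟨0,[(11,0),(9,0),(21,0)]⟩,⟨2,
  [(1,0),(2,1),(2,0),(0,0),(1,0),(17,2),(9,0)]⟩⟩,.o ⟨false,1,⟨0,[(21,0)]⟩,⟨1,[(1,0),(3,0)]⟩⟩,.o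
  ⟨false,1,⟨1,[(21,1),(6,0),(0,0)]⟩,⟨0,[(1,0)]⟩⟩]⟩))) (.Q [0,0,0,0,0,-1,0,0,0,1,0,-1] (.ed true [0,
  1,0,0,1] .k) (.S ⟨1,0,[0,-1,0,-1],[1,0,0,0,-1],[1],(⟨0,[(22,0)]⟩,⟨0,[(23,0)]⟩),⟨0,[(0,0)]⟩,.k,(.r
  (-1) ⟨1,[(40,1),(0,0),(0,0)]⟩ ⟨1,[(11,0),(3,0),(23,0)]⟩),⟨false,0,⟨0,[]⟩,⟨1,[(20,0),(0,0),(20,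
  0)]⟩⟩,⟨true,0,⟨0,[(40,0)]⟩,⟨0,[(39,0)]⟩⟩,⟨true,0,⟨0,[(39,0)]⟩,⟨0,[(40,0)]⟩⟩,⟨false,1,⟨1,[(20,0),
  (0,0),(20,0)]⟩,⟨0,[]⟩⟩,[.a ⟨true,1,⟨0,[(5,0),(4,0),(31,0)]⟩,⟨1,[(1,0),(1,0),(2,1),(1,0),(5,0),(12,
  0)]⟩⟩ ⟨true,0,⟨0,[]⟩,⟨1,[(27,0),(0,0)]⟩⟩ ⟨false,1,⟨1,[(40,1),(0,0),(0,0)]⟩,⟨0,[(39,0)]⟩⟩,.o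
  ⟨false,2,⟨0,[(20,0),(19,0),(1,0)]⟩,⟨2,[(1,0),(1,1),(2,1),(0,0),(0,1),(18,2),(9,0),(0,0)]⟩⟩,.o
  ⟨false,1,⟨0,[(20,0)]⟩,⟨4,[(3,3),(17,0),(15,0),(4,1)]⟩⟩,.o ⟨false,1,⟨1,[(20,1),(6,0),(0,0)]⟩,⟨0,
  [(1,0),(4,0),(7,0)]⟩⟩]⟩) (.S ⟨1,0,[0,0,1],[1,1,0,0,-1],[0,-1,1],(⟨0,[(22,0),(9,0)]⟩,⟨0,[(0,0),(17,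
  0),(0,0)]⟩),⟨0,[(22,0)]⟩,(.r (-1) ⟨17,[(2,1),(3,3),(4,5),(3,11),(0,0),(0,0),(3,1),(20,14)]⟩ ⟨3,
  [(7,0),(2,0),(3,0),(21,0),(3,2)]⟩),.k,⟨true,0,⟨0,[(40,0)]⟩,⟨0,[(39,0)]⟩⟩,⟨false,0,⟨0,[(40,0)]⟩,⟨0,
  [(39,0),(2,0)]⟩⟩,⟨false,1,⟨1,[(20,0),(0,0),(20,0)]⟩,⟨0,[]⟩⟩,⟨true,0,⟨0,[(44,0)]⟩,⟨0,[]⟩⟩,[.o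
  ⟨false,1,⟨0,[(20,0)]⟩,⟨4,[(3,3),(17,0),(15,0),(4,1)]⟩⟩,.e ⟨false,1,⟨0,[(42,0)]⟩,⟨0,[(36,0)]⟩⟩
  ⟨false,1,⟨1,[(20,0),(0,0),(20,0)]⟩,⟨3,[(7,0),(0,0),(5,0),(21,0)]⟩⟩,.a ⟨true,1,⟨1,[(2,1),(7,1),(30,
  0),(0,0)]⟩,⟨0,[(1,0),(4,0),(20,0)]⟩⟩ ⟨false,1,⟨1,[(27,0),(0,0),(13,1)]⟩,⟨3,[(7,0),(0,0),(5,0),(21,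
  0)]⟩⟩ ⟨true,0,⟨1,[(27,0),(0,0)]⟩,⟨3,[(7,0),(0,0),(5,0),(21,0)]⟩⟩,.o ⟨false,1,⟨0,[(20,0)]⟩,⟨4,[(3,
  3),(17,0),(15,0),(4,1)]⟩⟩]⟩)))))))))))

theorem ok15 : chk K t15 r6 = true := by decide +kernel

noncomputable def t17 : Tre :=
  (.I [1,1,-1,0,0,0,0,1] (.S ⟨1,0,[0,0,1,0,0,0,0,-1],[1,1,-1],[0,1,1,0,0,0,0,-1],(⟨0,[(19,0),(2,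
  0)]⟩,⟨0,[(9,0)]⟩),⟨0,[(19,0)]⟩,.k,.k,⟨false,0,⟨0,[(30,0)]⟩,⟨0,[(29,0),(2,0)]⟩⟩,⟨true,0,⟨0,[(30,
  0)]⟩,⟨0,[(29,0)]⟩⟩,⟨true,0,⟨0,[(34,0)]⟩,⟨0,[]⟩⟩,⟨false,1,⟨1,[(10,0),(0,0),(20,0)]⟩,⟨0,[]⟩⟩,[.o
  ⟨false,0,⟨0,[(1,0),(16,0)]⟩,⟨9,[(10,0),(0,0),(3,9),(11,1),(4,4)]⟩⟩,.e ⟨false,0,⟨1,[(1,0),(0,0),
  (27,0)]⟩,⟨13,[(0,3),(6,4),(7,9),(11,0),(3,4),(0,6)]⟩⟩ ⟨false,1,⟨5,[(1,1),(3,3),(24,3),(0,0),(0,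
  4)]⟩,⟨0,[(0,0)]⟩⟩,.a ⟨true,0,⟨0,[(14,0)]⟩,⟨0,[(17,0)]⟩⟩ ⟨false,0,⟨0,[(2,0),(27,0)]⟩,⟨0,[(0,0),(31,
  0)]⟩⟩ ⟨true,0,⟨0,[(2,0),(27,0)]⟩,⟨0,[(0,0)]⟩⟩,.o ⟨false,0,⟨0,[(3,0)]⟩,⟨49,[(4,24),(5,13),(0,13),
  (5,24),(9,4),(4,0),(1,1)]⟩⟩]⟩) (.I [0,-1,-1,-1,1,0,0,1] (.S ⟨1,0,[0,0,1,0,0,0,0,-1],[1,1,-1],[1,1,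
  1,1,0,0,0,-1],(⟨0,[(20,0),(2,0)]⟩,⟨0,[(10,0)]⟩),⟨0,[(20,0)]⟩,.k,.k,⟨false,0,⟨0,[]⟩,⟨1,[(0,0),(5,
  0),(26,0)]⟩⟩,⟨true,0,⟨0,[(31,0)]⟩,⟨0,[(30,0)]⟩⟩,⟨true,0,⟨0,[(30,0)]⟩,⟨0,[(31,0)]⟩⟩,⟨false,1,⟨1,
  [(0,0),(5,0),(26,0)]⟩,⟨0,[]⟩⟩,[.o ⟨false,0,⟨2,[(1,0),(0,0),(1,1),(12,0)]⟩,⟨5,[(0,1),(6,0),(8,3),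
  (1,1),(9,0),(4,0)]⟩⟩,.a ⟨true,0,⟨0,[(1,0),(13,0)]⟩,⟨0,[(16,0)]⟩⟩ ⟨false,0,⟨0,[(1,0),(27,0)]⟩,⟨0,
  [(0,0),(34,0)]⟩⟩ ⟨true,0,⟨0,[(1,0)]⟩,⟨0,[(4,0),(11,0)]⟩⟩,.e ⟨false,0,⟨0,[(3,0)]⟩,⟨0,[(0,0)]⟩⟩
  ⟨false,0,⟨0,[(1,0)]⟩,⟨3,[(0,1),(6,0),(0,0),(7,1),(15,0)]⟩⟩,.o ⟨false,0,⟨0,[(4,0)]⟩,⟨9,[(0,2),(4,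
  4),(0,2),(11,4),(9,0)]⟩⟩]⟩) (.I [1,0,-2,-1,1,0,0,1] (.Q [0,0,0,0,0,2,0,0,0,0,-1] (.p false [0,0,
  1] [] (⟨0,[(22,0)]⟩,⟨0,[(21,0)]⟩) .k 0 (⟨0,[]⟩,⟨0,[]⟩) .k .k) (.I [0,0,-2,-1,1,0,0,1] (.Q [0,0,2,
  0,0,0,1,0,0,-1,1] (.p true [0,0,1] [1] (⟨0,[(24,0)]⟩,⟨0,[(23,0)]⟩) .k 1 (⟨0,[]⟩,⟨0,[]⟩) .k .k)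
  (.R ⟨0,false,false,false,[0,-1,1],[1,-1],[0,1,-1,-1,0,0,0,1],(⟨0,[(14,0)]⟩,⟨0,[(2,0),(26,0)]⟩),
  (⟨0,[(29,0)]⟩,⟨0,[(30,0)]⟩),⟨0,[(2,0)]⟩,.k,.k,(.r (-1) ⟨0,[(3,0),(31,0)]⟩ ⟨1,[(4,1),(6,0),(0,0),
  (9,1),(14,0)]⟩),.k,.k,.k,⟨true,0,⟨0,[(8,0),(11,0)]⟩,⟨0,[(5,0)]⟩⟩,⟨false,0,⟨0,[(19,0)]⟩,⟨2,[(0,0),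
  (8,1),(5,0),(0,0)]⟩⟩,⟨true,0,⟨0,[(39,0)]⟩,⟨0,[]⟩⟩,⟨false,0,⟨0,[(5,0),(13,0)]⟩,⟨9,[(15,0),(0,0),(3,
  9),(11,1),(4,4)]⟩⟩,⟨false,0,⟨0,[]⟩,⟨0,[]⟩⟩,⟨false,0,⟨0,[]⟩,⟨0,[]⟩⟩,[.o ⟨false,0,⟨0,[(35,0)]⟩,⟨89,
  [(1,1),(8,1),(0,44),(3,23),(0,23),(15,8),(4,0),(0,1)]⟩⟩,.e ⟨false,1,⟨0,[(1,0)]⟩,⟨0,[(7,0)]⟩⟩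
  ⟨false,1,⟨1,[(19,1),(15,1),(0,0),(0,0)]⟩,⟨13,[(0,3),(3,7),(4,1),(1,2),(8,7),(11,0),(4,0)]⟩⟩,.a
  ⟨true,0,⟨0,[(22,0)]⟩,⟨0,[(19,0)]⟩⟩ ⟨false,1,⟨2,[(0,0),(2,2),(8,0),(9,0)]⟩,⟨0,[(4,0),(32,0)]⟩⟩
  ⟨true,0,⟨0,[(19,0),(15,0)]⟩,⟨13,[(0,3),(3,7),(4,1),(1,2),(8,7),(11,0),(4,0)]⟩⟩,.o ⟨false,0,⟨0,[(0,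
  0)]⟩,⟨5,[(12,0),(6,3),(12,0),(3,3)]⟩⟩]⟩) (.Q [0,1,-2,0,-1,0,-1,0,1,0,-1,1] (.p false [0,0,1] [0,0,
  0,0,1] (⟨0,[(25,0)]⟩,⟨0,[(24,0)]⟩) .k 2 (⟨0,[(18,0)]⟩,⟨0,[(17,0)]⟩) .k (.r (-1) ⟨0,[(8,0),(11,0),
  (16,0)]⟩ ⟨4,[(6,1),(3,2),(20,0),(3,2)]⟩)) (.R ⟨0,false,false,false,[0,-1,1],[0,0,0,0,1],[1,1],(⟨0,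
  [(15,0)]⟩,⟨0,[(3,0),(26,0)]⟩),(⟨0,[(19,0)]⟩,⟨0,[(18,0)]⟩),⟨0,[(3,0)]⟩,.k,.k,(.r (-1) ⟨0,[(4,0),
  (31,0)]⟩ ⟨1,[(5,1),(6,0),(0,0),(9,1),(14,0)]⟩),(.x (-1) ⟨0,[(3,0),(1,0),(10,0),(2,0),(1,0),(5,0),
  (8,0),(1,0)]⟩ ⟨4,[(0,3),(14,4),(1,0),(0,4),(4,0),(0,1),(8,0),(4,1)]⟩),.k,.k,⟨true,0,⟨0,[]⟩,⟨1,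
  [(23,0),(0,0)]⟩⟩,⟨false,0,⟨33,[(0,23),(12,4),(3,9),(15,0),(3,9),(0,11)]⟩,⟨0,[(16,0),(6,0)]⟩⟩,
  ⟨true,(-1),⟨0,[(5,0)]⟩,⟨1,[(4,1),(18,0),(0,0)]⟩⟩,⟨false,(-1),⟨1,[(0,1),(4,1),(17,0),(0,0),(13,
  1)]⟩,⟨0,[(16,0),(4,0),(14,0),(1,0)]⟩⟩,⟨false,0,⟨0,[]⟩,⟨0,[]⟩⟩,⟨false,0,⟨0,[]⟩,⟨0,[]⟩⟩,[.e ⟨false,
  0,⟨3,[(0,0),(6,0),(8,0),(4,0),(10,0)]⟩,⟨1,[(16,0),(0,0),(20,0)]⟩⟩ ⟨false,(-1),⟨0,[(0,0)]⟩,⟨1,[(16,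
  2),(0,0),(5,1),(14,0)]⟩⟩,.o ⟨false,0,⟨4,[(0,3),(16,0),(5,5),(0,1),(8,0),(4,1)]⟩,⟨0,[(16,0)]⟩⟩,.a
  ⟨true,0,⟨0,[(23,0)]⟩,⟨0,[(20,0)]⟩⟩ ⟨false,0,⟨0,[]⟩,⟨1,[(16,0),(0,0),(20,0)]⟩⟩ ⟨true,(-1),⟨1,[(0,
  1),(22,0),(0,0)]⟩,⟨0,[(16,0),(6,0)]⟩⟩,.e ⟨true,0,⟨3,[(0,0),(6,0),(8,0),(4,0),(10,0)]⟩,⟨1,[(23,0),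
  (0,0)]⟩⟩ ⟨true,(-1),⟨0,[(0,0)]⟩,⟨1,[(16,1),(6,2),(0,0)]⟩⟩]⟩) (.I [0,0,1,0,0,1,1,0,-1] (.I [1,-1,
  -1,-1,1,0,0,1] (.N [0,-1,1,0,-1] (-1) ⟨0,[(0,0)]⟩ ⟨0,[(7,0)]⟩ (.x 0 ⟨0,[(1,0)]⟩ ⟨15,[(3,1),(11,6),
  (1,15),(1,15),(0,15),(14,4),(3,5)]⟩)) (.Q [0,0,2,0,0,0,1,0,1,-1,1,1] (.p true [0,0,1] [1,0,0,0,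
  -1] (⟨0,[(28,0)]⟩,⟨0,[(27,0)]⟩) .k 2 (⟨0,[(20,0)]⟩,⟨0,[(21,0)]⟩) .k (.r 0 ⟨0,[(11,0),(11,0)]⟩ ⟨7,
  [(2,1),(5,5),(10,1),(4,1),(14,4),(0,0)]⟩)) (.Q [0,0,-1,0,0,0,-1,0,-1,1,-1,-1] (.p false [0,0,1]
  [1,0,0,0,-1] (⟨0,[(29,0)]⟩,⟨0,[(28,0)]⟩) .k 2 (⟨0,[(21,0)]⟩,⟨0,[(22,0)]⟩) .k (.r 0 ⟨0,[(12,0),(11,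
  0)]⟩ ⟨7,[(3,1),(5,5),(10,1),(4,1),(14,4),(0,0)]⟩)) (.R ⟨0,false,false,true,[0,-1,1],[1,0,0,0,-1],
  [1,1],(⟨0,[(19,0)]⟩,⟨0,[(7,0),(26,0)]⟩),(⟨0,[(22,0)]⟩,⟨0,[(23,0)]⟩),⟨0,[(7,0)]⟩,.k,.k,(.r (-1) ⟨0,
  [(8,0),(31,0)]⟩ ⟨1,[(9,1),(6,0),(0,0),(9,1),(14,0)]⟩),(.r (-1) ⟨6,[(1,0),(2,0),(3,5),(8,0),(7,0),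
  (2,0),(11,0),(3,6)]⟩ ⟨0,[(9,0),(32,0)]⟩),.k,.k,⟨false,0,⟨14,[(5,4),(3,1),(1,2),(13,4),(10,3),(0,
  0),(2,1)]⟩,⟨4,[(1,0),(2,0),(12,0),(23,1),(0,1)]⟩⟩,⟨true,0,⟨0,[(0,0)]⟩,⟨0,[(1,0)]⟩⟩,⟨true,(-1),⟨0,
  [(9,0)]⟩,⟨6,[(1,0),(2,0),(3,5),(8,0),(7,0),(2,0),(11,0)]⟩⟩,⟨false,0,⟨0,[(0,0),(8,0),(32,0)]⟩,⟨0,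
  [(1,0),(6,0)]⟩⟩,⟨false,0,⟨0,[]⟩,⟨0,[]⟩⟩,⟨false,0,⟨0,[]⟩,⟨0,[]⟩⟩,[.a ⟨true,0,⟨0,[(0,0),(26,0)]⟩,⟨0,
  [(21,0)]⟩⟩ ⟨false,0,⟨14,[(5,4),(3,1),(1,2),(13,4),(10,3),(0,0),(2,1)]⟩,⟨4,[(1,0),(2,0),(12,0),(23,
  1),(0,1)]⟩⟩ ⟨true,0,⟨0,[(0,0)]⟩,⟨0,[(1,0)]⟩⟩,.o ⟨false,1,⟨7,[(0,5),(3,1),(9,0),(12,2),(9,0),(4,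
  2)]⟩,⟨3,[(5,0),(3,1),(3,0),(7,3),(3,1),(11,0),(2,1)]⟩⟩,.a ⟨true,0,⟨0,[(27,0)]⟩,⟨0,[(24,0)]⟩⟩
  ⟨false,0,⟨0,[]⟩,⟨4,[(1,0),(2,0),(12,0),(23,1),(0,1)]⟩⟩ ⟨true,0,⟨0,[(0,0)]⟩,⟨14,[(1,9),(7,1),(1,2),
  (9,4),(3,4),(10,3),(0,0),(2,1)]⟩⟩,.a ⟨true,0,⟨1,[(27,2),(0,0)]⟩,⟨0,[(5,0)]⟩⟩ ⟨true,0,⟨14,[(5,4),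
  (3,1),(1,2),(13,4),(10,3),(0,0),(2,1)]⟩,⟨1,[(27,0),(0,0)]⟩⟩ ⟨false,1,⟨1,[(0,1),(40,0),(0,0)]⟩,⟨0,
  [(1,0)]⟩⟩]⟩) (.Q [0,0,0,0,0,0,0,0,-1,1,0,-1] (.p false [0,0,0,0,1] [1] (⟨0,[(23,0)]⟩,⟨0,[(22,
  0)]⟩) .k 1 (⟨0,[]⟩,⟨0,[]⟩) .k .k) (.Q [0,0,0,0,0,-1,0,0,0,0,0,1] (.ed false [1,-1,0,0,1] .k) (.S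
  ⟨1,0,[0,0,1],[1,1,0,0,-1],[0,-1,1],(⟨0,[(24,0),(9,0)]⟩,⟨0,[(0,0)]⟩),⟨0,[(24,0)]⟩,(.r (-1) ⟨1,[(18,
  0),(0,0),(9,1),(14,0)]⟩ ⟨14,[(7,4),(3,1),(1,2),(13,4),(10,3),(0,0),(2,16)]⟩),.k,⟨true,0,⟨0,[(42,
  0)]⟩,⟨0,[(41,0)]⟩⟩,⟨false,0,⟨0,[(42,0)]⟩,⟨0,[(41,0),(2,0)]⟩⟩,⟨false,1,⟨4,[(3,0),(2,0),(12,0),(23,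
  1),(0,1)]⟩,⟨0,[]⟩⟩,⟨true,0,⟨0,[(46,0)]⟩,⟨0,[]⟩⟩,[.a ⟨true,0,⟨0,[(1,0)]⟩,⟨0,[(23,0)]⟩⟩ ⟨false,1,⟨4,
  [(3,0),(2,0),(12,0),(23,1),(0,1)]⟩,⟨14,[(7,4),(3,1),(1,2),(13,4),(10,3),(0,0),(2,1)]⟩⟩ ⟨true,0,⟨1,
  [(29,0),(0,0)]⟩,⟨0,[]⟩⟩,.o ⟨false,1,⟨5,[(1,4),(20,0),(16,0),(4,2)]⟩,⟨11,[(2,11),(4,4),(3,1),(3,8),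
  (11,1),(10,3),(0,0),(2,1)]⟩⟩,.o ⟨false,1,⟨5,[(1,4),(20,0),(16,0),(3,2)]⟩,⟨0,[(2,0),(12,0)]⟩⟩,.e
  ⟨false,1,⟨0,[(44,0)]⟩,⟨0,[(46,0)]⟩⟩ ⟨false,1,⟨4,[(3,0),(2,0),(12,0),(23,1),(0,1)]⟩,⟨0,[]⟩⟩]⟩) (.I
  [0,1,0,0,0,0,0,1] (.I [0,0,0,0,0,-1,-1] (.C [(0,0),(1,0),(1,0),(2,0),(1,0),(25,0)]) (.C [(0,0),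
  (16,0),(5,0)])) (.C [(0,0),(15,0),(11,0)]))) (.K ⟨0,[1,0,1,0,-1],0,1,(⟨0,[(23,0),(7,0)]⟩,⟨2,[(0,
  1),(3,1),(1,0),(7,0),(4,0),(4,0),(7,0)]⟩),.k,(.r (-2) ⟨9,[(2,3),(2,3),(3,9),(8,3),(23,2),(0,2)]⟩
  ⟨0,[(3,0)]⟩),(.r (-1) ⟨0,[(10,0),(3,1),(11,1),(16,1)]⟩ ⟨4,[(12,3),(3,0),(20,1),(3,5)]⟩),.k,.k,[⟨0,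
  [(0,0)]⟩,⟨0,[(4,0),(15,0),(2,0)]⟩,⟨11,[(0,11),(5,4),(3,13),(3,8),(11,1),(10,3),(0,0),(2,13)]⟩,⟨0,
  [(5,0),(0,0),(19,0)]⟩]⟩))) (.Q [0,0,0,0,0,-1,0,0,0,0,0,1] (.ed false [1,-1,0,0,1] .k) (.S ⟨1,0,[0,
  -1,1],[1,1,0,0,-1],[1,0,1,1],(⟨0,[(22,0),(9,0)]⟩,⟨0,[(0,0)]⟩),⟨0,[(22,0)]⟩,(.r (-1) ⟨1,[(16,0),(0,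
  0),(9,1),(14,0)]⟩ ⟨14,[(5,4),(3,1),(1,2),(13,4),(10,3),(0,0),(2,16)]⟩),.k,⟨false,0,⟨0,[]⟩,⟨33,[(4,
  9),(12,4),(3,9),(15,0),(3,9),(0,11)]⟩⟩,⟨true,0,⟨0,[(40,0)]⟩,⟨0,[(39,0)]⟩⟩,⟨true,0,⟨0,[(39,0)]⟩,⟨0,
  [(40,0)]⟩⟩,⟨false,1,⟨33,[(4,9),(12,4),(3,9),(15,0),(3,9),(0,11)]⟩,⟨0,[]⟩⟩,[.o ⟨false,1,⟨10,[(1,4),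
  (2,4),(15,0),(16,0),(4,2)]⟩,⟨3,[(5,0),(3,1),(3,0),(7,3),(3,1),(11,0),(2,1)]⟩⟩,.e ⟨false,1,⟨0,[(39,
  0),(2,0)]⟩,⟨14,[(5,4),(3,1),(1,2),(13,4),(10,3),(0,0),(2,16)]⟩⟩ ⟨false,1,⟨0,[(42,0)]⟩,⟨0,[(36,
  0)]⟩⟩,.a ⟨true,0,⟨0,[(1,0),(25,0)]⟩,⟨1,[(21,1),(5,0),(0,0)]⟩⟩ ⟨true,0,⟨0,[(9,0),(3,0),(11,0),(16,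
  0)]⟩,⟨14,[(5,4),(3,1),(1,2),(13,4),(10,3),(0,0),(2,16)]⟩⟩ ⟨false,1,⟨1,[(27,0),(0,0),(13,1)]⟩,⟨14,
  [(5,4),(3,1),(1,2),(13,4),(10,3),(0,0),(2,1)]⟩⟩,.e ⟨false,1,⟨0,[(39,0),(2,0)]⟩,⟨0,[(40,0)]⟩⟩
  ⟨false,1,⟨0,[(42,0)]⟩,⟨0,[(44,0)]⟩⟩]⟩) (.R ⟨0,false,false,true,[0,0,0,0,1],[0,1],[1,1,1,1],(⟨0,
  [(23,0)]⟩,⟨0,[(22,0)]⟩),(⟨0,[(35,0)]⟩,⟨0,[(34,0)]⟩),⟨0,[(0,0)]⟩,.k,.k,(.r 0 ⟨14,[(5,4),(3,1),(1,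
  2),(13,4),(10,3),(0,0),(2,16)]⟩ ⟨1,[(16,0),(0,0),(9,1),(14,0)]⟩),(.r 0 ⟨14,[(5,4),(3,1),(1,2),(13,
  4),(10,3),(0,0),(2,16)]⟩ ⟨1,[(16,0),(0,0),(9,1),(14,0)]⟩),.k,.k,⟨true,0,⟨0,[]⟩,⟨1,[(27,0),(0,
  0)]⟩⟩,⟨false,1,⟨2,[(1,1),(12,1),(5,0)]⟩,⟨1,[(21,1),(5,0),(0,0)]⟩⟩,⟨true,0,⟨0,[(9,0),(3,0),(11,0),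
  (16,0)]⟩,⟨14,[(5,4),(3,1),(1,2),(13,4),(10,3),(0,0),(2,16)]⟩⟩,⟨false,1,⟨10,[(0,4),(0,4),(1,4),(0,
  0),(4,0),(6,4),(2,4),(5,0),(2,1),(2,4),(10,5)]⟩,⟨0,[(21,0),(18,0)]⟩⟩,⟨false,0,⟨0,[]⟩,⟨0,[]⟩⟩,
  ⟨false,0,⟨0,[]⟩,⟨0,[]⟩⟩,[.e ⟨false,0,⟨0,[(39,0)]⟩,⟨1,[(40,1),(0,0),(0,0)]⟩⟩ ⟨false,0,⟨5,[(1,5),(7,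
  3),(6,0),(8,3),(1,1),(9,0),(4,0)]⟩,⟨3,[(4,0),(3,0),(12,4),(4,0),(13,2),(1,1)]⟩⟩,.o ⟨false,1,⟨17,
  [(4,1),(3,1),(6,1),(0,8),(0,0),(3,1),(15,1),(3,0)]⟩,⟨0,[(40,0)]⟩⟩,.a ⟨true,0,⟨0,[(21,0)]⟩,⟨4,[(1,
  1),(1,2),(15,2),(2,2),(5,0)]⟩⟩ ⟨false,0,⟨0,[(9,0),(3,0),(11,0),(16,0)]⟩,⟨1,[(40,1),(0,0),(0,0)]⟩⟩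
  ⟨true,0,⟨50,[(0,4),(0,34),(0,9),(0,4),(0,10),(4,20),(6,9),(2,4),(5,30),(2,11),(2,4),(5,4)]⟩,⟨0,
  [(21,0),(18,0)]⟩⟩,.e ⟨true,0,⟨0,[(39,0)]⟩,⟨0,[(40,0)]⟩⟩ ⟨true,0,⟨5,[(1,5),(7,3),(6,0),(8,3),(1,1),
  (9,0),(4,0)]⟩,⟨1,[(21,1),(5,0),(0,0),(11,1)]⟩⟩]⟩)))) (.Q [0,1,-1,0,-1,0,-1,0,1,0,-1,1] (.p false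
  [0,0,1] [0,0,0,0,1] (⟨0,[(27,0)]⟩,⟨0,[(26,0)]⟩) .k 2 (⟨0,[(20,0)]⟩,⟨0,[(19,0)]⟩) .k (.r (-1) ⟨0,
  [(10,0),(11,0),(16,0)]⟩ ⟨4,[(8,1),(3,2),(20,0),(3,2)]⟩)) (.R ⟨0,false,false,false,[0,-1,1],[0,0,0,
  0,1],[1,1],(⟨0,[(17,0)]⟩,⟨0,[(5,0),(26,0)]⟩),(⟨0,[(21,0)]⟩,⟨0,[(20,0)]⟩),⟨0,[(5,0)]⟩,.k,.k,(.r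
  (-1) ⟨0,[(6,0),(31,0)]⟩ ⟨1,[(7,1),(6,0),(0,0),(9,1),(14,0)]⟩),(.x (-1) ⟨17,[(2,9),(2,11),(1,2),(1,
  3),(2,0),(3,5),(1,7),(2,17),(1,6),(11,0),(2,2)]⟩ ⟨3,[(0,3),(2,0),(3,1),(3,0),(5,3),(2,3),(2,1),
  (11,0),(2,1),(1,3)]⟩),.k,.k,⟨true,0,⟨0,[]⟩,⟨1,[(25,0),(0,0)]⟩⟩,⟨false,0,⟨1,[(0,1),(38,0),(0,0)]⟩,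
  ⟨3,[(2,2),(6,0),(8,0),(4,0),(10,0)]⟩⟩,⟨true,(-1),⟨0,[(7,0)]⟩,⟨5,[(2,0),(3,4),(12,0),(3,0),(2,1),
  (11,0)]⟩⟩,⟨false,(-1),⟨0,[(0,0),(6,0),(32,0)]⟩,⟨0,[(2,0),(3,0)]⟩⟩,⟨false,0,⟨0,[]⟩,⟨0,[]⟩⟩,⟨false,
  0,⟨0,[]⟩,⟨0,[]⟩⟩,[.a ⟨true,(-1),⟨0,[(0,0),(24,0)]⟩,⟨0,[(2,0),(0,0)]⟩⟩ ⟨false,0,⟨14,[(3,4),(3,1),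
  (1,2),(13,4),(10,3),(0,0),(2,1)]⟩,⟨33,[(2,9),(12,4),(3,9),(15,0),(3,9),(0,11)]⟩⟩ ⟨true,(-1),⟨0,
  [(0,0)]⟩,⟨0,[(2,0)]⟩⟩,.o ⟨false,0,⟨4,[(0,3),(18,0),(5,3),(9,0),(4,1)]⟩,⟨0,[(18,0)]⟩⟩,.a ⟨true,0,
  ⟨0,[(25,0)]⟩,⟨0,[(22,0)]⟩⟩ ⟨false,0,⟨0,[]⟩,⟨33,[(2,9),(12,4),(3,9),(15,0),(3,9),(0,11)]⟩⟩ ⟨true,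
  (-1),⟨0,[(0,0)]⟩,⟨3,[(2,2),(6,0),(8,0),(4,0),(10,0)]⟩⟩,.a ⟨true,0,⟨1,[(25,2),(0,0)]⟩,⟨0,[(3,0)]⟩⟩
  ⟨true,0,⟨14,[(3,4),(3,1),(1,2),(13,4),(10,3),(0,0),(2,1)]⟩,⟨1,[(25,0),(0,0)]⟩⟩ ⟨false,0,⟨1,[(0,1),
  (38,0),(0,0)]⟩,⟨0,[(2,0)]⟩⟩]⟩) (.Q [0,-1,-2,0,1,0,-1,0,-1,1,-1,-1] (.p false [0,0,1] [1,0,0,0,-1]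
  (⟨0,[(28,0)]⟩,⟨0,[(27,0)]⟩) .k 2 (⟨0,[(20,0)]⟩,⟨0,[(21,0)]⟩) .k (.r 0 ⟨0,[(11,0),(11,0)]⟩ ⟨7,[(2,
  1),(5,5),(10,1),(4,1),(14,4),(0,0)]⟩)) (.Q [0,0,0,0,0,0,0,0,1,-1,0,1] (.p true [0,0,0,0,1] [1]
  (⟨0,[(22,0)]⟩,⟨0,[(21,0)]⟩) .k 1 (⟨0,[]⟩,⟨0,[]⟩) .k .k) (.R ⟨0,false,false,true,[0,-1,1],[1,0,0,0,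
  -1],[0,0,1],(⟨0,[(19,0)]⟩,⟨0,[(7,0),(26,0)]⟩),(⟨0,[(22,0)]⟩,⟨0,[(23,0)]⟩),⟨0,[(7,0)]⟩,.k,.k,(.r
  (-1) ⟨0,[(8,0),(31,0)]⟩ ⟨1,[(9,1),(6,0),(0,0),(9,1),(14,0)]⟩),(.r (-1) ⟨5,[(4,0),(3,4),(12,0),(3,
  0),(2,1),(11,0),(3,5)]⟩ ⟨0,[(9,0),(32,0)]⟩),.k,.k,⟨true,0,⟨1,[(27,0),(0,0)]⟩,⟨0,[]⟩⟩,⟨false,1,⟨2,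
  [(1,1),(18,0),(3,0),(11,0)]⟩,⟨0,[(0,0),(26,0)]⟩⟩,⟨false,0,⟨1,[(9,1),(17,0),(0,0),(13,1)]⟩,⟨0,[(8,
  0)]⟩⟩,⟨true,0,⟨3,[(1,2),(2,0),(4,3),(7,0)]⟩,⟨0,[(0,0),(24,0),(14,0)]⟩⟩,⟨false,0,⟨0,[]⟩,⟨0,[]⟩⟩,
  ⟨false,0,⟨0,[]⟩,⟨0,[]⟩⟩,[.o ⟨false,1,⟨0,[(20,0)]⟩,⟨0,[(0,0)]⟩⟩,.e ⟨false,1,⟨33,[(4,9),(12,4),(3,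
  9),(15,0),(3,9),(0,11)]⟩,⟨14,[(5,4),(3,1),(1,2),(13,4),(10,3),(0,0),(2,1)]⟩⟩ ⟨false,1,⟨0,[(1,0)]⟩,
  ⟨0,[(0,0),(26,0),(16,0)]⟩⟩,.a ⟨true,0,⟨0,[(27,0)]⟩,⟨0,[(24,0)]⟩⟩ ⟨true,0,⟨1,[(27,0),(0,0)]⟩,⟨14,
  [(5,4),(3,1),(1,2),(13,4),(10,3),(0,0),(2,1)]⟩⟩ ⟨false,1,⟨3,[(1,2),(2,0),(12,0)]⟩,⟨0,[(0,0),(26,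
  0)]⟩⟩,.e ⟨false,1,⟨33,[(4,9),(12,4),(3,9),(15,0),(3,9),(0,11)]⟩,⟨0,[]⟩⟩ ⟨false,1,⟨0,[(1,0)]⟩,⟨1,
  [(0,1),(26,2),(0,0)]⟩⟩]⟩) (.Q [0,0,-1,0,0,0,0,0,1,0,0,1] (.p true [0,0,0,0,1] [] (⟨0,[(23,0)]⟩,⟨0,
  [(22,0)]⟩) .k 0 (⟨0,[]⟩,⟨0,[]⟩) .k .k) (.Q [0,0,0,0,0,-1,0,0,0,1,0,-1] (.ed true [0,1,0,0,1] .k)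
  (.S ⟨1,0,[0,1,1],[0,1,0,0,1],[1,2,1,1],(⟨0,[(25,0),(8,0)]⟩,⟨0,[(0,0)]⟩),⟨0,[(25,0)]⟩,(.r 0 ⟨1,
  [(29,0),(0,0),(10,1)]⟩ ⟨1,[(42,1),(0,0),(0,0)]⟩),.k,⟨false,0,⟨0,[]⟩,⟨33,[(6,9),(12,4),(3,9),(15,
  0),(3,9),(0,11)]⟩⟩,⟨true,0,⟨0,[(42,0)]⟩,⟨0,[(41,0)]⟩⟩,⟨true,0,⟨0,[(41,0)]⟩,⟨0,[(42,0)]⟩⟩,⟨false,1,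
  ⟨33,[(6,9),(12,4),(3,9),(15,0),(3,9),(0,11)]⟩,⟨0,[]⟩⟩,[.o ⟨false,0,⟨9,[(1,6),(9,3),(11,2),(3,3),
  (2,3),(7,0),(0,1),(2,3)]⟩,⟨5,[(2,3),(0,0),(2,0),(32,0),(4,1)]⟩⟩,.a ⟨true,0,⟨0,[(23,0)]⟩,⟨0,[(2,
  0)]⟩⟩ ⟨false,0,⟨0,[(41,0)]⟩,⟨1,[(42,1),(0,0),(0,0)]⟩⟩ ⟨true,0,⟨1,[(29,0),(0,0)]⟩,⟨0,[]⟩⟩,.a ⟨true,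
  0,⟨0,[(1,0)]⟩,⟨1,[(2,1),(26,0),(0,0)]⟩⟩ ⟨true,(-1),⟨0,[(11,0),(3,0),(11,0)]⟩,⟨1,[(42,1),(0,0),(0,
  0)]⟩⟩ ⟨false,0,⟨1,[(29,0),(0,0)]⟩,⟨1,[(43,0),(0,0)]⟩⟩,.a ⟨true,0,⟨0,[(23,0)]⟩,⟨0,[(2,0)]⟩⟩ ⟨false,
  0,⟨0,[(41,0)]⟩,⟨0,[(42,0),(1,0)]⟩⟩ ⟨true,0,⟨0,[(46,0)]⟩,⟨0,[]⟩⟩]⟩) (.K ⟨0,[-1,0,1,0,1],0,0,(⟨0,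
  [(0,0),(20,0)]⟩,⟨0,[(24,0),(6,0)]⟩),.k,(.r (-1) ⟨5,[(6,0),(3,4),(12,0),(3,0),(2,1),(11,0),(3,5)]⟩
  ⟨0,[(11,0),(32,0)]⟩),(.r 0 ⟨0,[(11,0),(3,1),(11,1),(16,0)]⟩ ⟨0,[(12,0),(29,0),(0,0)]⟩),.k,.k,[⟨0,
  [(2,0)]⟩,⟨0,[(0,0),(4,0),(3,0),(1,1),(15,1),(5,1),(8,1),(1,1)]⟩,⟨25,[(2,15),(0,9),(7,11),(0,7),(6,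
  4),(8,5),(10,0),(2,11)]⟩,⟨9,[(1,6),(9,3),(11,2),(3,13),(2,3),(7,0),(0,1),(2,3)]⟩]⟩)) (.Q [0,-1,0,
  0,0,0,0,-1,1,0,0,1] (.p true [0,0,0,0,1] [] (⟨0,[(24,0)]⟩,⟨0,[(23,0)]⟩) .k 0 (⟨0,[]⟩,⟨0,[]⟩) .k
  .k) (.Q [0,0,0,0,0,0,0,0,0,1,-1,-1] (.ed true [0,0,1,0,1] (.r 0 ⟨0,[(15,0),(11,0)]⟩ ⟨41,[(0,27),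
  (2,8),(2,18),(9,3),(11,13),(10,0),(3,7)]⟩)) (.R ⟨1,false,false,false,[0,0,1,0,1],[0,0,0,0,1],[1,1,
  0,0,0,0,0,1],(⟨0,[(26,0),(6,0)]⟩,⟨0,[(0,0)]⟩),(⟨0,[(26,0)]⟩,⟨0,[(25,0)]⟩),⟨0,[(22,0),(3,0)]⟩,.k,
  .k,(.r (-1) ⟨5,[(7,0),(3,4),(12,0),(3,0),(2,1),(11,0),(3,5)]⟩ ⟨0,[(12,0),(32,0)]⟩),.k,.k,.k,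
  ⟨false,1,⟨3,[(11,1),(7,0),(0,0),(7,1),(16,0)]⟩,⟨3,[(13,0),(0,1),(3,0),(24,0)]⟩⟩,⟨true,0,⟨0,[(16,
  0)]⟩,⟨0,[(30,0)]⟩⟩,⟨true,0,⟨0,[]⟩,⟨0,[(47,0)]⟩⟩,⟨true,0,⟨10,[(12,1),(0,2),(0,4),(5,4),(8,0),(10,
  0),(2,1)]⟩,⟨0,[(28,0)]⟩⟩,⟨false,1,⟨0,[(42,0),(2,0)]⟩,⟨0,[(43,0)]⟩⟩,⟨true,0,⟨18,[(1,4),(2,4),(3,1),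
  (3,12),(0,0),(5,2),(0,5),(19,1),(4,0)]⟩,⟨0,[(28,0),(14,0)]⟩⟩,[.o ⟨false,0,⟨3,[(8,0),(3,1),(3,0),
  (7,3),(3,1),(11,0),(2,1)]⟩,⟨13,[(2,3),(1,4),(0,3),(1,0),(32,0),(4,1)]⟩⟩,.a ⟨true,0,⟨0,[(24,0)]⟩,
  ⟨0,[(3,0)]⟩⟩ ⟨false,1,⟨3,[(11,1),(7,0),(0,0),(7,1),(16,0)]⟩,⟨3,[(13,0),(0,1),(3,0),(24,0)]⟩⟩
  ⟨true,0,⟨0,[(16,0)]⟩,⟨0,[(30,0)]⟩⟩,.a ⟨true,0,⟨0,[(1,0),(26,0)]⟩,⟨2,[(2,1),(0,0),(4,0),(11,0)]⟩⟩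
  ⟨true,0,⟨0,[(16,0),(11,0)]⟩,⟨3,[(13,0),(0,1),(3,0),(24,0)]⟩⟩ ⟨false,0,⟨0,[(16,0)]⟩,⟨1,[(30,1),(13,
  0),(0,0)]⟩⟩,.a ⟨true,0,⟨0,[(24,0),(5,0)]⟩,⟨0,[(2,0),(5,0)]⟩⟩ ⟨false,1,⟨3,[(11,1),(7,0),(0,0),(7,
  1),(16,0)]⟩,⟨0,[(13,0)]⟩⟩ ⟨true,0,⟨11,[(8,4),(3,1),(3,8),(11,1),(10,3),(0,0),(2,1)]⟩,⟨0,[(30,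
  0)]⟩⟩]⟩) (.I [0,1,0,0,0,0,0,1] (.I [0,0,-1,0,0,0,-1,0,-1] (.I [0,0,1,0,0,-1,0,0,-1] (.I [0,1,0,0,
  0,2,1,1] (.C [(0,1),(3,0),(1,0),(3,0),(1,0),(3,1),(21,2),(8,1),(1,1)]) (.C [(0,0),(13,0),(17,
  0)])) (.C [(0,0),(2,0),(1,0),(18,0)])) (.C [(0,0),(1,0),(1,0),(5,0)])) (.C [(0,0),(0,0),(1,0),(3,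
  0),(3,0),(10,0),(6,0)]))) (.Q [0,0,0,0,0,1,0,0,0,0,0,-1] (.ed true [1,-1,0,0,1] .k) (.R ⟨0,false,
  false,false,[0,1,0,0,-1],[0,0,0,0,1],[1,1],(⟨0,[(0,0)]⟩,⟨0,[(26,0),(10,0)]⟩),(⟨0,[(26,0)]⟩,⟨0,
  [(25,0)]⟩),⟨0,[(26,0)]⟩,(.r (-1) ⟨1,[(19,0),(0,0),(9,1),(14,0)]⟩ ⟨14,[(8,4),(3,1),(1,2),(13,4),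
  (10,3),(0,0),(2,16)]⟩),.k,.k,(.r (-1) ⟨0,[(12,0),(3,0),(11,0),(16,1)]⟩ ⟨0,[(39,0),(3,0)]⟩),.k,.k,
  ⟨true,0,⟨0,[]⟩,⟨1,[(30,0),(0,0)]⟩⟩,⟨false,0,⟨0,[(24,1)]⟩,⟨1,[(1,0),(0,1),(1,0),(9,0),(2,0)]⟩⟩,
  ⟨false,0,⟨14,[(8,4),(3,1),(1,2),(13,4),(10,3),(0,0),(2,16)]⟩,⟨0,[(12,0),(3,0),(11,0),(16,1)]⟩⟩,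
  ⟨true,(-1),⟨0,[(6,0),(3,0),(1,0),(11,0),(1,0),(1,0),(5,0),(8,1)]⟩,⟨0,[(1,1),(10,0),(1,0),(30,
  1)]⟩⟩,⟨false,0,⟨0,[]⟩,⟨0,[]⟩⟩,⟨false,0,⟨0,[]⟩,⟨0,[]⟩⟩,[.o ⟨false,0,⟨3,[(8,0),(3,1),(3,0),(7,3),(3,
  1),(11,0),(2,1)]⟩,⟨13,[(2,3),(1,4),(0,3),(1,0),(32,0),(4,1)]⟩⟩,.a ⟨true,0,⟨0,[(24,0)]⟩,⟨0,[(3,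
  0)]⟩⟩ ⟨true,0,⟨0,[]⟩,⟨1,[(30,0),(0,0)]⟩⟩ ⟨false,0,⟨0,[(24,1)]⟩,⟨1,[(1,0),(0,1),(1,0),(9,0),(2,
  0)]⟩⟩,.o ⟨false,1,⟨4,[(1,2),(0,0),(1,0),(9,2),(2,0),(22,0),(4,0)]⟩,⟨1,[(24,1),(5,0),(0,0)]⟩⟩,.o
  ⟨false,1,⟨39,[(2,22),(1,6),(12,6),(5,9),(15,1),(0,7),(6,2)]⟩,⟨0,[(24,0)]⟩⟩]⟩) (.Q [0,0,2,0,0,0,1,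
  0,1,-1,1,1] (.p true [0,0,1,0,1] [1] (⟨0,[(26,0),(6,0)]⟩,⟨0,[(1,0),(4,0),(1,0),(1,1),(1,2),(15,1),
  (5,2),(8,2),(1,2)]⟩) .k 1 (⟨0,[]⟩,⟨0,[]⟩) .k (.r 0 ⟨0,[(16,0),(11,0)]⟩ ⟨7,[(7,1),(5,5),(10,1),(4,
  1),(14,4),(0,0)]⟩)) (.R ⟨0,false,false,true,[0,-1,1],[1,0,0,0,-1],[1,1],(⟨0,[(23,0)]⟩,⟨0,[(11,0),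
  (26,0)]⟩),(⟨0,[(26,0)]⟩,⟨0,[(27,0)]⟩),⟨0,[(11,0)]⟩,.k,.k,(.r (-1) ⟨0,[(12,0),(31,0)]⟩ ⟨1,[(13,1),
  (6,0),(0,0),(9,1),(14,0)]⟩),(.r (-1) ⟨13,[(0,2),(1,0),(5,1),(3,11),(8,2),(7,0),(14,1),(3,13)]⟩ ⟨0,
  [(13,0),(32,0)]⟩),.k,.k,⟨false,0,⟨14,[(9,4),(3,1),(1,2),(13,4),(10,3),(0,0),(2,1)]⟩,⟨4,[(0,0),(7,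
  0),(12,0),(23,1),(0,1)]⟩⟩,⟨true,0,⟨0,[(3,0),(5,0)]⟩,⟨0,[(0,0)]⟩⟩,⟨true,(-1),⟨0,[(13,0)]⟩,⟨13,[(0,
  2),(1,0),(5,1),(3,11),(8,2),(7,0),(14,1)]⟩⟩,⟨false,0,⟨0,[(3,0),(5,0),(3,0),(32,0)]⟩,⟨0,[(0,0),(11,
  0)]⟩⟩,⟨false,0,⟨0,[]⟩,⟨0,[]⟩⟩,⟨false,0,⟨0,[]⟩,⟨0,[]⟩⟩,[.a ⟨true,0,⟨0,[(4,0)]⟩,⟨0,[(25,0)]⟩⟩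
  ⟨false,0,⟨14,[(9,4),(3,1),(1,2),(13,4),(10,3),(0,0),(2,1)]⟩,⟨4,[(0,0),(7,0),(12,0),(23,1),(0,
  1)]⟩⟩ ⟨true,0,⟨0,[(3,0),(5,0)]⟩,⟨0,[(0,0)]⟩⟩,.o ⟨false,1,⟨13,[(3,3),(1,4),(0,3),(1,0),(32,0),(4,
  1)]⟩,⟨9,[(1,2),(5,2),(3,2),(1,3),(3,0),(7,6),(3,3),(10,0),(0,1),(2,3)]⟩⟩,.a ⟨true,0,⟨0,[(31,0)]⟩,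
  ⟨0,[(28,0)]⟩⟩ ⟨false,0,⟨0,[]⟩,⟨4,[(0,0),(7,0),(12,0),(23,1),(0,1)]⟩⟩ ⟨true,0,⟨0,[(3,0),(5,0)]⟩,
  ⟨14,[(0,9),(12,1),(1,2),(9,4),(3,4),(10,3),(0,0),(2,1)]⟩⟩,.a ⟨true,0,⟨3,[(0,0),(2,0),(17,0),(9,
  4)]⟩,⟨0,[(9,0)]⟩⟩ ⟨true,0,⟨14,[(9,4),(3,1),(1,2),(13,4),(10,3),(0,0),(2,1)]⟩,⟨3,[(0,0),(2,0),(17,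
  0),(9,0)]⟩⟩ ⟨false,1,⟨0,[(5,0)]⟩,⟨0,[(0,0)]⟩⟩]⟩) (.S ⟨1,0,[0,-1,1],[1,1,0,0,-1],[1,0,1,1],(⟨0,
  [(26,0),(9,0)]⟩,⟨0,[(1,0)]⟩),⟨0,[(26,0)]⟩,(.r (-1) ⟨1,[(20,0),(0,0),(9,1),(14,0)]⟩ ⟨14,[(9,4),(3,
  1),(1,2),(13,4),(10,3),(0,0),(2,16)]⟩),.k,⟨false,0,⟨0,[]⟩,⟨33,[(8,9),(12,4),(3,9),(15,0),(3,9),(0,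
  11)]⟩⟩,⟨true,0,⟨0,[(44,0)]⟩,⟨0,[(43,0)]⟩⟩,⟨true,0,⟨0,[(43,0)]⟩,⟨0,[(44,0)]⟩⟩,⟨false,1,⟨33,[(8,9),
  (12,4),(3,9),(15,0),(3,9),(0,11)]⟩,⟨0,[]⟩⟩,[.o ⟨false,1,⟨13,[(3,3),(1,4),(0,3),(1,0),(32,0),(4,
  1)]⟩,⟨9,[(1,2),(5,2),(3,2),(1,3),(3,0),(7,6),(3,3),(10,0),(0,1),(2,3)]⟩⟩,.e ⟨false,1,⟨0,[(43,0),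
  (2,0)]⟩,⟨14,[(9,4),(3,1),(1,2),(13,4),(10,3),(0,0),(2,16)]⟩⟩ ⟨false,1,⟨0,[(46,0)]⟩,⟨0,[(40,0)]⟩⟩,
  .a ⟨true,0,⟨0,[(0,0),(30,0)]⟩,⟨1,[(25,1),(5,0),(0,0)]⟩⟩ ⟨true,0,⟨0,[(13,0),(3,0),(11,0),(16,0)]⟩,
  ⟨14,[(9,4),(3,1),(1,2),(13,4),(10,3),(0,0),(2,16)]⟩⟩ ⟨false,1,⟨1,[(31,0),(0,0),(13,1)]⟩,⟨14,[(9,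
  4),(3,1),(1,2),(13,4),(10,3),(0,0),(2,1)]⟩⟩,.e ⟨false,1,⟨0,[(43,0),(2,0)]⟩,⟨0,[(44,0)]⟩⟩ ⟨false,1,
  ⟨0,[(46,0)]⟩,⟨0,[(48,0)]⟩⟩]⟩)))))) (.R ⟨0,false,false,true,[0,-1,1],[1,0,0,0,-1],[0,0,1],(⟨0,[(18,
  0)]⟩,⟨0,[(6,0),(26,0)]⟩),(⟨0,[(21,0)]⟩,⟨0,[(22,0)]⟩),⟨0,[(6,0)]⟩,.k,.k,(.r (-1) ⟨0,[(7,0),(31,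
  0)]⟩ ⟨1,[(8,1),(6,0),(0,0),(9,1),(14,0)]⟩),(.r (-1) ⟨3,[(0,0),(2,0),(3,3),(8,0),(26,3)]⟩ ⟨0,[(8,
  0),(32,0)]⟩),.k,.k,⟨true,0,⟨3,[(0,0),(2,0),(12,0)]⟩,⟨0,[]⟩⟩,⟨false,1,⟨0,[(4,0),(14,0)]⟩,⟨2,[(0,1),
  (12,0),(6,0),(20,0)]⟩⟩,⟨false,0,⟨3,[(0,0),(2,0),(4,3),(7,0),(24,3)]⟩,⟨0,[(7,0)]⟩⟩,⟨true,0,⟨0,[(1,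
  0),(2,0),(3,0),(3,0)]⟩,⟨0,[(0,0),(6,0)]⟩⟩,⟨false,0,⟨0,[]⟩,⟨0,[]⟩⟩,⟨false,0,⟨0,[]⟩,⟨0,[]⟩⟩,[.o
  ⟨false,1,⟨0,[(19,0)]⟩,⟨4,[(0,3),(3,3),(15,0),(15,0),(4,1)]⟩⟩,.a ⟨true,1,⟨0,[(1,0),(21,0)]⟩,⟨0,[(0,
  0),(3,0)]⟩⟩ ⟨false,1,⟨33,[(3,9),(12,4),(3,9),(15,0),(3,9),(0,11)]⟩,⟨14,[(4,4),(3,1),(1,2),(13,4),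
  (10,3),(0,0),(2,1)]⟩⟩ ⟨true,1,⟨0,[(1,0),(2,0),(7,0)]⟩,⟨0,[(0,0)]⟩⟩,.a ⟨true,0,⟨0,[(26,0)]⟩,⟨0,
  [(23,0)]⟩⟩ ⟨true,0,⟨3,[(0,0),(2,0),(12,0)]⟩,⟨14,[(4,4),(3,1),(1,2),(13,4),(10,3),(0,0),(2,1)]⟩⟩
  ⟨false,1,⟨0,[(1,0),(2,0),(7,0)]⟩,⟨2,[(0,1),(12,0),(6,0),(20,0)]⟩⟩,.a ⟨true,0,⟨3,[(0,0),(2,0),(12,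
  0),(9,3)]⟩,⟨0,[(4,0)]⟩⟩ ⟨false,1,⟨33,[(3,9),(12,4),(3,9),(15,0),(3,9),(0,11)]⟩,⟨0,[]⟩⟩ ⟨true,1,⟨0,
  [(4,0),(14,0)]⟩,⟨0,[(0,0)]⟩⟩]⟩)))))) (.I [0,-1,0,-1,0,0,0,-1] (.R ⟨1,false,false,false,[1,0,-1],
  [0,-1,1],[1,1],(⟨0,[(24,0)]⟩,⟨0,[(25,0)]⟩),(⟨0,[(14,0)]⟩,⟨0,[(2,0),(26,0)]⟩),⟨0,[(13,0)]⟩,.k,.k,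
  .k,(.r 1 ⟨0,[(0,0),(0,0),(31,0)]⟩ ⟨1,[(3,1),(11,0),(0,0),(3,1),(2,1),(13,0)]⟩),.k,.k,⟨true,(-1),
  ⟨0,[(4,0)]⟩,⟨0,[(8,0),(11,0),(14,0),(1,0)]⟩⟩,⟨false,1,⟨0,[(9,0),(12,0)]⟩,⟨0,[(8,0),(10,0)]⟩⟩,
  ⟨true,0,⟨0,[(8,0),(11,0)]⟩,⟨2,[(0,0),(5,0),(3,0)]⟩⟩,⟨false,2,⟨9,[(3,1),(16,17),(1,2),(0,0),(8,1),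
  (2,7),(1,13)]⟩,⟨0,[(1,0),(4,0),(1,0),(10,0)]⟩⟩,⟨false,1,⟨1,[(11,0),(0,0),(7,1),(16,0)]⟩,⟨0,[(0,
  0)]⟩⟩,⟨false,2,⟨9,[(15,0),(0,0),(3,19),(11,1),(4,14)]⟩,⟨0,[(0,0),(3,0),(3,0),(10,0)]⟩⟩,[.o ⟨false,
  1,⟨9,[(3,1),(16,7),(1,2),(0,0),(8,1),(2,7),(1,3)]⟩,⟨41,[(1,17),(4,23),(4,10),(0,15),(6,9),(12,2),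
  (0,1),(3,0)]⟩⟩,.a ⟨true,1,⟨0,[(20,0),(14,0),(1,0)]⟩,⟨0,[(4,0),(14,0)]⟩⟩ ⟨true,0,⟨0,[]⟩,⟨1,[(22,0),
  (0,0)]⟩⟩ ⟨false,2,⟨9,[(0,3),(2,5),(5,4),(10,7),(1,6),(9,0),(4,6)]⟩,⟨0,[(4,0),(3,0),(10,0)]⟩⟩,.o
  ⟨false,0,⟨0,[(8,0)]⟩,⟨27,[(3,1),(5,12),(0,1),(4,5),(0,5),(5,14),(9,2),(4,0)]⟩⟩,.o ⟨false,0,⟨0,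
  [(23,0)]⟩,⟨0,[(9,0)]⟩⟩]⟩) (.Q [0,1,0,1,0,0,0,0,0,-1] (.pp true [-1,1]) (.R ⟨0,false,false,false,
  [0,-1,1],[1,-1],[0,1,1],(⟨0,[(15,0)]⟩,⟨0,[(3,0),(26,0)]⟩),(⟨0,[(30,0)]⟩,⟨0,[(31,0)]⟩),⟨0,[(3,0)]⟩,
  .k,.k,(.r (-1) ⟨0,[(4,0),(31,0)]⟩ ⟨7,[(1,3),(0,1),(5,9),(14,0),(0,0),(13,1)]⟩),.k,.k,.k,⟨true,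
  (-1),⟨0,[(1,0),(0,0),(33,0)]⟩,⟨1,[(36,1),(0,0),(0,0)]⟩⟩,⟨false,0,⟨0,[(20,0)]⟩,⟨27,[(4,1),(5,12),
  (0,1),(4,5),(0,5),(5,14),(9,2),(4,0)]⟩⟩,⟨true,(-1),⟨1,[(5,1),(17,0),(0,0)]⟩,⟨0,[(4,0)]⟩⟩,⟨false,0,
  ⟨0,[(6,0),(13,0)]⟩,⟨9,[(16,0),(0,0),(3,9),(11,1),(4,4)]⟩⟩,⟨false,0,⟨0,[]⟩,⟨0,[]⟩⟩,⟨false,0,⟨0,[]⟩,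
  ⟨0,[]⟩⟩,[.o ⟨false,0,⟨0,[(36,0)]⟩,⟨49,[(12,24),(3,13),(0,13),(15,4),(4,0),(1,1)]⟩⟩,.o ⟨false,1,⟨1,
  [(16,0),(0,0),(18,1),(1,0)]⟩,⟨0,[(0,0)]⟩⟩,.a ⟨true,0,⟨0,[(23,0)]⟩,⟨0,[(20,0)]⟩⟩ ⟨false,0,⟨1,[(23,
  0),(0,0)]⟩,⟨1,[(37,0),(0,0)]⟩⟩ ⟨true,0,⟨0,[(20,0),(15,0)]⟩,⟨0,[(0,0),(22,0)]⟩⟩,.o ⟨false,0,⟨9,[(2,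
  7),(18,7),(1,2),(0,0),(8,1),(2,7),(1,3)]⟩,⟨5,[(13,0),(6,3),(12,0),(3,3)]⟩⟩]⟩) (.Q [0,0,-1,0,1,0,2,
  0,0,-1,2] (.p true [0,0,1] [1,0,-1] (⟨0,[(26,0)]⟩,⟨0,[(25,0)]⟩) .k 2 (⟨0,[(25,0)]⟩,⟨0,[(26,0)]⟩)
  .k (.r (-1) ⟨8,[(0,9),(0,11),(2,1),(16,3),(2,3),(8,1),(4,2)]⟩ ⟨1,[(6,0),(0,1),(3,0),(24,0)]⟩))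
  (.K ⟨0,[1,-1,-1],(-1),(-1),(⟨0,[(15,0)]⟩,⟨0,[(27,0),(1,0)]⟩),.k,(.r (-1) ⟨2,[(1,1),(3,0),(2,1),(2,
  1),(11,1),(13,2)]⟩ ⟨8,[(1,4),(0,14),(0,7),(18,1),(2,1),(8,0),(4,5)]⟩),.k,(.r 0 ⟨3,[(7,0),(0,5),(3,
  0),(24,4)]⟩ ⟨0,[(2,0),(19,0),(2,0),(13,0)]⟩),.k,[⟨0,[(0,0)]⟩,⟨0,[(1,0),(0,0),(0,0),(6,0),(26,0)]⟩,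
  ⟨49,[(13,24),(3,13),(0,13),(3,49),(11,4),(4,0),(1,1)]⟩,⟨0,[(6,0),(14,0),(15,1)]⟩]⟩) (.Q [0,0,0,1,
  1,0,1,1,0,-1,1] (.p true [0,0,1] [1] (⟨0,[(27,0)]⟩,⟨0,[(26,0)]⟩) .k 1 (⟨0,[]⟩,⟨0,[]⟩) .k .k) (.R
  ⟨1,true,false,true,[1,0,-1],[0,1],[0,0,0,-1,0,0,0,-1],(⟨0,[(27,0)]⟩,⟨0,[(28,0)]⟩),(⟨0,[(33,0)]⟩,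
  ⟨0,[(32,0)]⟩),⟨0,[(16,0)]⟩,.k,.k,.k,.k,(.r (-1) ⟨2,[(2,1),(3,0),(2,1),(2,1),(11,1),(13,2)]⟩ ⟨1,
  [(0,0),(0,0),(1,1),(0,0),(20,0),(14,0)]⟩),.k,⟨false,1,⟨14,[(2,18),(3,4),(2,15),(2,3),(11,3),(10,
  2),(2,5)]⟩,⟨5,[(0,0),(0,0),(1,7),(0,0),(5,1),(14,0),(14,0)]⟩⟩,⟨true,1,⟨0,[(12,0)]⟩,⟨0,[(1,0),(23,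
  0)]⟩⟩,⟨true,0,⟨0,[(38,0)]⟩,⟨0,[(37,0)]⟩⟩,⟨false,1,⟨0,[(0,0)]⟩,⟨13,[(1,1),(0,13),(5,3),(0,5),(5,2),
  (8,3),(10,0)]⟩⟩,⟨false,1,⟨1,[(18,0),(0,0),(20,0)]⟩,⟨0,[]⟩⟩,⟨true,1,⟨0,[(0,0),(36,0)]⟩,⟨1,[(1,2),
  (0,3),(1,0),(4,4),(13,3),(11,0),(2,0)]⟩⟩,[]⟩) (.R ⟨1,false,false,true,[1,-1],[0,-1,1],[1,1,-1,-1,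
  0,0,0,1],(⟨0,[(32,0)]⟩,⟨0,[(33,0)]⟩),(⟨0,[(17,0)]⟩,⟨1,[(2,0),(2,0),(21,0),(9,0)]⟩),⟨0,[(16,0),(0,
  0)]⟩,.k,.k,(.r (-1) ⟨2,[(0,0),(1,0),(3,1),(5,1),(11,0),(13,1)]⟩ ⟨3,[(3,3),(0,1),(5,1),(14,0),(0,
  0),(13,1)]⟩),.k,.k,.k,⟨true,0,⟨0,[]⟩,⟨1,[(25,0),(0,0)]⟩⟩,⟨false,1,⟨0,[(12,0)]⟩,⟨4,[(2,1),(0,0),(9,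
  0),(1,1),(6,0)]⟩⟩,⟨true,0,⟨37,[(1,9),(1,3),(2,3),(8,4),(7,29),(10,1),(0,2)]⟩,⟨3,[(0,0),(7,0),(0,
  0),(2,0),(0,0)]⟩⟩,⟨false,1,⟨9,[(18,0),(0,0),(3,9),(11,1),(4,4)]⟩,⟨1,[(0,0),(9,0),(11,0),(17,0)]⟩⟩,
  ⟨true,0,⟨0,[(3,0)]⟩,⟨3,[(0,1),(7,0),(3,1),(0,0),(24,2)]⟩⟩,⟨true,1,⟨49,[(14,24),(3,13),(0,13),(3,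
  49),(11,4),(4,0),(1,1)]⟩,⟨0,[(0,0)]⟩⟩,[.a ⟨true,0,⟨0,[(23,0),(14,0)]⟩,⟨0,[(7,0),(14,0),(17,0)]⟩⟩
  ⟨false,1,⟨0,[(6,0),(35,0)]⟩,⟨0,[(7,0),(32,0)]⟩⟩ ⟨true,1,⟨10,[(6,5),(5,0),(10,4),(1,4),(8,2),(0,1),
  (2,4)]⟩,⟨1,[(1,0),(0,0),(1,1),(31,0),(3,0)]⟩⟩,.o ⟨false,1,⟨11,[(2,7),(3,3),(16,7),(1,4),(0,0),(8,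
  3),(5,1)]⟩,⟨35,[(1,13),(5,0),(0,0),(0,24),(0,8),(3,12),(0,3),(19,0)]⟩⟩,.o ⟨false,0,⟨1,[(25,0),(0,
  0)]⟩,⟨19,[(6,1),(6,1),(21,3),(3,8),(0,0)]⟩⟩,.e ⟨false,1,⟨0,[(6,0)]⟩,⟨3,[(4,1),(5,1),(14,0),(0,0),
  (13,1)]⟩⟩ ⟨false,2,⟨27,[(6,29),(5,12),(0,1),(4,5),(0,5),(5,14),(9,2),(4,0)]⟩,⟨1,[(1,0),(0,0),(1,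
  1),(31,0),(3,0)]⟩⟩]⟩)))))) (.Q [0,0,2,0,0,0,1,0,0,-1,1] (.p true [0,0,1] [1] (⟨0,[(23,0)]⟩,⟨0,
  [(22,0)]⟩) .k 1 (⟨0,[]⟩,⟨0,[]⟩) .k .k) (.R ⟨1,false,false,false,[0,-1,1],[1,-1],[1,1,-1,-1,0,0,0,
  1],(⟨0,[(13,0)]⟩,⟨0,[(23,0),(2,0)]⟩),(⟨0,[(28,0)]⟩,⟨0,[(29,0)]⟩),⟨0,[(1,0)]⟩,.k,.k,(.r (-1) ⟨0,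
  [(2,0),(31,0)]⟩ ⟨1,[(3,1),(6,0),(0,0),(9,1),(14,0)]⟩),.k,.k,.k,⟨true,0,⟨0,[(7,0),(11,0)]⟩,⟨0,[(4,
  0)]⟩⟩,⟨false,0,⟨0,[(18,0)]⟩,⟨27,[(2,1),(5,12),(0,1),(4,5),(0,5),(5,14),(9,2),(4,0)]⟩⟩,⟨false,0,⟨0,
  []⟩,⟨1,[(14,0),(0,0),(20,0)]⟩⟩,⟨false,0,⟨0,[(4,0),(13,0)]⟩,⟨9,[(14,0),(0,0),(3,9),(11,1),(4,4)]⟩⟩,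
  ⟨true,0,⟨0,[(33,0)]⟩,⟨0,[(34,0)]⟩⟩,⟨false,0,⟨0,[(3,0),(14,0),(17,0)]⟩,⟨0,[(0,0),(1,0)]⟩⟩,[.o
  ⟨false,0,⟨0,[(34,0)]⟩,⟨49,[(10,24),(3,13),(0,13),(15,4),(4,0),(1,1)]⟩⟩,.e ⟨false,1,⟨0,[(2,0)]⟩,⟨3,
  [(1,4),(1,3),(8,4),(13,14),(4,0),(4,1)]⟩⟩ ⟨false,1,⟨1,[(18,1),(15,1),(0,0),(0,0)]⟩,⟨13,[(0,3),(2,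
  7),(4,1),(1,2),(8,7),(11,0),(4,0)]⟩⟩,.a ⟨true,0,⟨0,[(21,0)]⟩,⟨0,[(18,0)]⟩⟩ ⟨false,1,⟨2,[(0,0),(1,
  2),(8,0),(9,0)]⟩,⟨0,[(3,0),(32,0)]⟩⟩ ⟨true,0,⟨0,[(18,0),(15,0)]⟩,⟨13,[(0,3),(2,7),(4,1),(1,2),(8,
  7),(11,0),(4,0)]⟩⟩,.o ⟨false,0,⟨0,[(0,0)]⟩,⟨5,[(11,0),(6,3),(12,0),(3,3)]⟩⟩]⟩) (.I [1,-1,1,2,0,0,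
  0,-1] (.I [0,-1,-1,-2,1,0,0,1] (.S ⟨1,0,[0,1,-1,-2,0,0,0,1],[0,-1,1],[0,0,-1,-2,0,0,0,1],(⟨0,[(15,
  0)]⟩,⟨0,[(25,0),(2,0)]⟩),⟨0,[(3,0)]⟩,.k,(.r (-1) ⟨0,[(4,0),(31,0)]⟩ ⟨3,[(1,2),(9,1),(9,0),(1,0),
  (0,1)]⟩),⟨true,0,⟨0,[(36,0)]⟩,⟨0,[(35,0)]⟩⟩,⟨false,0,⟨0,[(36,0)]⟩,⟨0,[(35,0),(2,0)]⟩⟩,⟨false,1,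
  ⟨19,[(0,3),(3,1),(6,7),(0,0),(0,0),(7,1),(16,12)]⟩,⟨0,[]⟩⟩,⟨true,0,⟨0,[(40,0)]⟩,⟨0,[]⟩⟩,[.e
  ⟨false,1,⟨0,[(4,0),(31,0)]⟩,⟨2,[(1,1),(9,0),(23,0)]⟩⟩ ⟨false,1,⟨0,[(0,0),(31,0)]⟩,⟨0,[(1,0)]⟩⟩,.o
  ⟨false,1,⟨4,[(0,2),(20,1),(1,2),(9,0),(2,3),(3,0)]⟩,⟨72,[(1,39),(0,30),(2,28),(6,14),(0,18),(8,3),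
  (10,6),(0,6)]⟩⟩,.e ⟨false,1,⟨0,[(0,0)]⟩,⟨2,[(1,1),(9,0),(23,0)]⟩⟩ ⟨false,1,⟨0,[(0,0),(39,0)]⟩,⟨0,
  [(1,0)]⟩⟩,.a ⟨true,0,⟨1,[(23,2),(0,0)]⟩,⟨0,[(2,0)]⟩⟩ ⟨true,1,⟨0,[(4,0),(31,0)]⟩,⟨1,[(1,0),(3,1),
  (15,0),(2,0)]⟩⟩ ⟨false,1,⟨0,[(4,0),(31,0)]⟩,⟨1,[(1,1),(21,0),(0,0)]⟩⟩]⟩) (.Q [0,1,0,0,-1,0,0,0,1,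
  -1,0,1] (.p true [0,0,0,0,1] [1] (⟨0,[(19,0)]⟩,⟨0,[(18,0)]⟩) .k 1 (⟨0,[]⟩,⟨0,[]⟩) .k .k) (.R ⟨1,
  false,false,true,[0,0,1],[1,0,0,0,-1],[1,1,0,0,0,0,0,1],(⟨0,[(27,0)]⟩,⟨0,[(26,0)]⟩),(⟨0,[(19,0)]⟩,
  ⟨0,[(20,0)]⟩),⟨0,[(16,0)]⟩,.k,.k,.k,.k,(.r (-1) ⟨1,[(5,1),(18,0),(0,0),(15,1)]⟩ ⟨1,[(2,0),(4,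
  0)]⟩),.k,⟨true,0,⟨0,[(10,0),(11,0)]⟩,⟨0,[(7,0)]⟩⟩,⟨false,1,⟨0,[(17,0),(3,0)]⟩,⟨3,[(0,2),(7,0),(2,
  0),(6,0),(3,0),(1,1),(14,1)]⟩⟩,⟨false,0,⟨0,[]⟩,⟨1,[(17,0),(0,0),(20,0)]⟩⟩,⟨false,1,⟨0,[(7,0),(9,
  0),(3,0)]⟩,⟨0,[(0,0),(21,0),(16,0)]⟩⟩,⟨true,0,⟨0,[(36,0)]⟩,⟨0,[(37,0)]⟩⟩,⟨false,1,⟨1,[(2,0),(4,0),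
  (9,1),(3,1)]⟩,⟨0,[(0,0),(21,0),(14,0),(1,0)]⟩⟩,[.o ⟨false,1,⟨0,[(17,0)]⟩,⟨8,[(0,3),(17,4),(15,0),
  (4,1)]⟩⟩,.o ⟨false,2,⟨1,[(17,2),(0,0),(20,0)]⟩,⟨0,[(0,0)]⟩⟩,.o ⟨false,1,⟨27,[(5,1),(5,12),(0,1),
  (4,5),(0,5),(5,14),(9,2),(4,0)]⟩,⟨0,[(10,0)]⟩⟩,.a ⟨true,0,⟨0,[(24,0)]⟩,⟨0,[(21,0)]⟩⟩ ⟨false,1,⟨3,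
  [(5,1),(7,0),(0,0),(7,1),(16,0)]⟩,⟨0,[(7,0)]⟩⟩ ⟨true,1,⟨0,[(17,0),(3,0)]⟩,⟨0,[(0,0),(23,0)]⟩⟩]⟩)
  (.Q [0,-2,0,0,1,0,0,0,-1,0,0,-1] (.p false [0,0,0,0,1] [] (⟨0,[(20,0)]⟩,⟨0,[(19,0)]⟩) .k 0 (⟨0,
  []⟩,⟨0,[]⟩) .k .k) (.R ⟨1,false,false,true,[0,0,1],[0,0,0,0,1],[0,0,0,-1,0,0,0,1],(⟨0,[(28,0)]⟩,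
  ⟨0,[(27,0)]⟩),(⟨0,[(21,0)]⟩,⟨0,[(20,0)]⟩),⟨0,[(17,0)]⟩,.k,.k,.k,.k,(.r (-2) ⟨17,[(1,9),(4,17),(12,
  9),(5,8),(0,8),(8,1),(4,3)]⟩ ⟨0,[(2,0),(35,0)]⟩),.k,⟨false,2,⟨1,[(6,1),(18,0),(0,0),(13,1)]⟩,⟨14,
  [(4,4),(2,16),(1,2),(13,4),(10,3),(0,0),(2,1)]⟩⟩,⟨true,0,⟨0,[(11,0),(7,0)]⟩,⟨0,[(0,0),(6,0),(15,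
  0),(14,0)]⟩⟩,⟨true,0,⟨0,[(38,0)]⟩,⟨0,[(37,0)]⟩⟩,⟨true,(-1),⟨11,[(4,4),(2,13),(3,8),(7,11),(3,1),
  (10,3),(0,0),(2,13)]⟩,⟨0,[(0,0),(22,0)]⟩⟩,⟨false,1,⟨8,[(1,4),(17,4),(15,0),(4,1)]⟩,⟨0,[]⟩⟩,⟨true,
  (-1),⟨11,[(4,4),(2,13),(3,8),(7,11),(3,1),(10,3),(0,0),(2,1)]⟩,⟨0,[(0,0),(22,0),(14,0)]⟩⟩,[.o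
  ⟨false,0,⟨4,[(7,1),(3,0),(7,4),(3,1),(2,0),(7,2),(0,0),(2,1)]⟩,⟨0,[(0,0)]⟩⟩,.o ⟨false,0,⟨3,[(4,0),
  (2,1),(3,0),(7,3),(3,1),(11,0),(2,1)]⟩,⟨1,[(0,0),(17,0)]⟩⟩,.o ⟨false,1,⟨27,[(6,1),(5,12),(0,1),(4,
  5),(0,5),(5,14),(9,2),(4,0)]⟩,⟨0,[(11,0)]⟩⟩,.a ⟨true,0,⟨0,[(25,0)]⟩,⟨0,[(22,0)]⟩⟩ ⟨true,1,⟨1,[(6,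
  1),(18,0),(0,0)]⟩,⟨0,[(7,0)]⟩⟩ ⟨false,0,⟨11,[(4,4),(2,1),(3,8),(7,11),(3,1),(10,3),(0,0),(2,1)]⟩,
  ⟨0,[(0,0),(24,0)]⟩⟩]⟩) (.Q [0,0,-1,0,0,0,-1,0,1,0,-1,1] (.p false [0,0,1] [0,0,0,0,1] (⟨0,[(28,
  0)]⟩,⟨0,[(27,0)]⟩) .k 2 (⟨0,[(21,0)]⟩,⟨0,[(20,0)]⟩) .k (.r (-1) ⟨0,[(11,0),(11,0),(16,0)]⟩ ⟨4,[(9,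
  1),(3,2),(20,0),(3,2)]⟩)) (.Q [0,0,0,0,0,0,0,0,-1,1,0,-1] (.p false [0,0,0,0,1] [1] (⟨0,[(22,0)]⟩,
  ⟨0,[(21,0)]⟩) .k 1 (⟨0,[]⟩,⟨0,[]⟩) .k .k) (.Q [0,0,0,0,0,0,0,0,0,0,-1,1] (.ed false [1,0,-1,0,1]
  (.r 0 ⟨4,[(11,1),(3,2),(20,0),(3,2)]⟩ ⟨0,[(13,0),(11,0),(16,0)]⟩)) (.Q [0,0,0,0,0,0,1,0,-1,1,1,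
  -1] (.p false [0,0,-1,0,1] [1] (⟨0,[(0,0)]⟩,⟨0,[(23,0),(7,0)]⟩) .k 1 (⟨0,[]⟩,⟨0,[]⟩) .k (.r 0 ⟨4,
  [(12,1),(3,2),(20,0),(3,2)]⟩ ⟨0,[(14,0),(11,0),(16,0)]⟩)) (.R ⟨1,false,false,true,[1,0,1,0,-1],[1,
  0,0,0,-1],[0,0,0,-1,0,0,0,1],(⟨0,[(24,0),(7,0)]⟩,⟨0,[(1,0)]⟩),(⟨0,[(24,0)]⟩,⟨0,[(25,0)]⟩),⟨0,[(21,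
  0),(2,0)]⟩,.k,.k,(.r (-2) ⟨17,[(5,9),(4,17),(12,9),(5,8),(0,8),(8,1),(4,3)]⟩ ⟨0,[(6,0),(35,0)]⟩),
  .k,.k,.k,⟨false,1,⟨1,[(10,1),(18,0),(0,0)]⟩,⟨9,[(6,0),(0,2),(5,3),(3,1),(25,0)]⟩⟩,⟨true,0,⟨0,[(15,
  0)]⟩,⟨0,[(29,0)]⟩⟩,⟨false,0,⟨0,[(42,0)]⟩,⟨7,[(5,1),(1,0),(10,2),(4,1),(2,0),(0,0),(16,2)]⟩⟩,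
  ⟨false,0,⟨10,[(11,1),(0,2),(0,4),(5,4),(8,0),(10,0),(2,1)]⟩,⟨0,[(27,0),(16,0)]⟩⟩,⟨true,0,⟨0,[(46,
  0)]⟩,⟨0,[]⟩⟩,⟨false,0,⟨9,[(6,1),(0,2),(0,1),(3,0),(0,1),(5,2),(8,1),(10,0)]⟩,⟨0,[(27,0),(14,0),(1,
  0)]⟩⟩,[.a ⟨true,0,⟨0,[(2,0)]⟩,⟨0,[(23,0)]⟩⟩ ⟨false,1,⟨1,[(10,1),(18,0),(0,0)]⟩,⟨9,[(6,0),(0,2),(5,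
  3),(3,1),(25,0)]⟩⟩ ⟨true,0,⟨0,[(15,0)]⟩,⟨0,[(29,0)]⟩⟩,.o ⟨false,1,⟨4,[(2,3),(2,0),(33,0),(4,1)]⟩,
  ⟨4,[(4,1),(18,2),(15,0),(6,0)]⟩⟩,.a ⟨true,0,⟨0,[(0,0)]⟩,⟨1,[(3,0),(19,0),(6,0)]⟩⟩ ⟨false,1,⟨0,
  [(15,0),(11,0),(14,0),(1,0)]⟩,⟨9,[(6,0),(0,2),(5,3),(3,1),(25,0)]⟩⟩ ⟨true,0,⟨0,[(15,0)]⟩,⟨3,[(0,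
  0),(3,0),(11,0),(12,1),(8,0)]⟩⟩,.a ⟨true,0,⟨0,[(2,0),(26,0)]⟩,⟨0,[(3,0)]⟩⟩ ⟨true,1,⟨1,[(10,1),(18,
  0),(0,0)]⟩,⟨0,[(11,0)]⟩⟩ ⟨false,1,⟨7,[(8,1),(10,2),(19,0),(3,1),(0,3)]⟩,⟨0,[(29,0)]⟩⟩]⟩) (.S ⟨1,0,
  [0,0,1],[1,1,0,0,-1],[0,-1,1],(⟨0,[(24,0),(9,0)]⟩,⟨1,[(1,0),(7,0),(15,0)]⟩),⟨0,[(24,0)]⟩,(.r (-1)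
  ⟨1,[(18,0),(0,0),(9,1),(14,0)]⟩ ⟨10,[(2,1),(1,1),(3,2),(4,2),(13,2),(10,1),(0,0),(2,10)]⟩),.k,
  ⟨true,0,⟨0,[(42,0)]⟩,⟨0,[(41,0)]⟩⟩,⟨false,0,⟨0,[(42,0)]⟩,⟨7,[(5,1),(1,0),(10,2),(4,1),(2,0),(0,0),
  (16,2)]⟩⟩,⟨false,1,⟨8,[(5,4),(17,4),(15,0),(4,1)]⟩,⟨0,[]⟩⟩,⟨true,0,⟨0,[(46,0)]⟩,⟨0,[]⟩⟩,[.a ⟨true,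
  0,⟨0,[(2,0)]⟩,⟨0,[(23,0)]⟩⟩ ⟨false,1,⟨8,[(5,4),(17,4),(15,0),(4,1)]⟩,⟨10,[(2,1),(1,1),(3,2),(4,2),
  (13,2),(10,1),(0,0)]⟩⟩ ⟨true,0,⟨1,[(29,0),(0,0)]⟩,⟨0,[]⟩⟩,.o ⟨false,1,⟨4,[(2,3),(2,0),(33,0),(4,
  1)]⟩,⟨4,[(4,1),(18,2),(15,0),(6,0)]⟩⟩,.o ⟨false,1,⟨5,[(2,4),(19,0),(16,0),(3,2)]⟩,⟨0,[(0,0),(28,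
  0)]⟩⟩,.e ⟨false,1,⟨0,[(44,0)]⟩,⟨0,[(46,0)]⟩⟩ ⟨false,1,⟨8,[(5,4),(17,4),(15,0),(4,1)]⟩,⟨0,[]⟩⟩]⟩))
  (.Q [0,0,-1,0,0,0,0,0,1,0,0,1] (.p true [0,0,0,0,1] [] (⟨0,[(24,0)]⟩,⟨0,[(23,0)]⟩) .k 0 (⟨0,[]⟩,
  ⟨0,[]⟩) .k .k) (.S ⟨1,0,[0,1,1],[0,1,0,0,1],[1,2,1,1],(⟨0,[(25,0),(8,0)]⟩,⟨0,[(1,0),(18,0)]⟩),⟨0,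
  [(25,0)]⟩,(.r 0 ⟨9,[(6,0),(0,0),(9,3),(0,0),(0,0),(7,5),(2,3)]⟩ ⟨1,[(42,1),(0,0),(0,0)]⟩),.k,
  ⟨false,0,⟨0,[]⟩,⟨8,[(5,4),(17,4),(15,0),(4,1)]⟩⟩,⟨true,0,⟨0,[(42,0)]⟩,⟨0,[(41,0)]⟩⟩,⟨true,0,⟨0,
  [(41,0)]⟩,⟨0,[(42,0)]⟩⟩,⟨false,1,⟨8,[(5,4),(17,4),(15,0),(4,1)]⟩,⟨0,[]⟩⟩,[.o ⟨false,0,⟨4,[(4,1),
  (18,2),(15,0),(6,0)]⟩,⟨4,[(2,3),(2,0),(33,0),(4,1)]⟩⟩,.a ⟨true,0,⟨0,[(23,0)]⟩,⟨0,[(2,0)]⟩⟩ ⟨false,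
  0,⟨0,[(41,0)]⟩,⟨1,[(42,1),(0,0),(0,0)]⟩⟩ ⟨true,0,⟨1,[(29,0),(0,0)]⟩,⟨0,[]⟩⟩,.a ⟨true,0,⟨0,[(0,
  0)]⟩,⟨1,[(2,1),(26,0),(0,0)]⟩⟩ ⟨true,(-1),⟨0,[(11,0),(3,0),(11,0)]⟩,⟨1,[(42,1),(0,0),(0,0)]⟩⟩
  ⟨false,0,⟨1,[(29,0),(0,0)]⟩,⟨1,[(43,0),(0,0)]⟩⟩,.a ⟨true,0,⟨0,[(23,0)]⟩,⟨0,[(2,0)]⟩⟩ ⟨false,0,⟨0,
  [(41,0)]⟩,⟨0,[(42,0),(1,0)]⟩⟩ ⟨true,0,⟨0,[(46,0)]⟩,⟨0,[]⟩⟩]⟩) (.Q [0,0,0,0,0,-1,0,0,0,0,1,-1] (.p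
  false [1,0,-1,0,1] [1] (⟨0,[(25,0),(5,0)]⟩,⟨0,[(1,0)]⟩) .k 1 (⟨0,[]⟩,⟨0,[]⟩) .k (.r 0 ⟨4,[(13,1),
  (3,2),(20,0),(3,2)]⟩ ⟨0,[(15,0),(11,0),(16,0)]⟩)) (.R ⟨1,false,false,true,[0,0,1,0,-1],[1,0,0,0,
  -1],[0,-1,0,-1,0,0,0,1],(⟨0,[(2,0)]⟩,⟨0,[(26,0),(5,0)]⟩),(⟨0,[(25,0)]⟩,⟨0,[(26,0)]⟩),⟨0,[(0,0)]⟩,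
  .k,.k,(.r (-2) ⟨17,[(6,9),(4,17),(12,9),(5,8),(0,8),(8,1),(4,3)]⟩ ⟨0,[(7,0),(35,0)]⟩),.k,.k,.k,
  ⟨true,1,⟨0,[(16,0),(11,0),(14,0),(1,0)]⟩,⟨0,[(12,0)]⟩⟩,⟨false,0,⟨0,[(27,0)]⟩,⟨27,[(11,1),(5,12),
  (0,1),(4,5),(0,5),(5,14),(9,2),(4,0)]⟩⟩,⟨true,0,⟨0,[(43,0)]⟩,⟨0,[(42,0)]⟩⟩,⟨true,(-1),⟨0,[(12,0),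
  (14,0),(15,0)]⟩,⟨8,[(6,0),(17,0),(3,8),(11,1),(4,3)]⟩⟩,⟨false,1,⟨8,[(6,4),(17,4),(15,0),(4,1)]⟩,
  ⟨0,[]⟩⟩,⟨true,(-1),⟨0,[(12,0),(14,0)]⟩,⟨9,[(11,1),(16,7),(1,2),(0,0),(8,1),(2,7),(1,3)]⟩⟩,[.a
  ⟨true,0,⟨0,[(3,0)]⟩,⟨0,[(24,0)]⟩⟩ ⟨true,1,⟨0,[(16,0),(11,0),(14,0),(1,0)]⟩,⟨0,[(12,0)]⟩⟩ ⟨false,0,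
  ⟨0,[(27,0)]⟩,⟨27,[(11,1),(5,12),(0,1),(4,5),(0,5),(5,14),(9,2),(4,0)]⟩⟩,.o ⟨false,1,⟨4,[(3,3),(2,
  0),(33,0),(4,1)]⟩,⟨4,[(5,1),(18,2),(15,0),(6,0)]⟩⟩,.o ⟨false,1,⟨0,[(1,0),(15,0)]⟩,⟨1,[(4,0),(19,
  0),(6,0)]⟩⟩,.o ⟨false,1,⟨14,[(1,8),(15,4),(5,5),(6,9),(9,1),(5,0)]⟩,⟨0,[(4,0)]⟩⟩]⟩) (.R ⟨0,false,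
  false,true,[0,0,1,0,-1],[1,0,0,0,-1],[1],(⟨0,[(2,0)]⟩,⟨0,[(0,0),(36,0)]⟩),(⟨0,[(25,0)]⟩,⟨0,[(26,
  0)]⟩),⟨0,[(0,0)]⟩,.k,.k,(.r (-2) ⟨17,[(6,9),(4,17),(12,9),(5,8),(0,8),(8,1),(4,3)]⟩ ⟨0,[(7,0),(35,
  0)]⟩),.k,.k,.k,⟨true,0,⟨0,[]⟩,⟨1,[(30,0),(0,0)]⟩⟩,⟨false,0,⟨0,[(27,0)]⟩,⟨27,[(11,1),(5,12),(0,1),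
  (4,5),(0,5),(5,14),(9,2),(4,0)]⟩⟩,⟨false,0,⟨3,[(13,0),(0,1),(3,0),(24,0)]⟩,⟨0,[(16,0),(11,0),(16,
  0)]⟩⟩,⟨true,(-1),⟨0,[(12,0),(14,0),(15,0)]⟩,⟨8,[(6,0),(17,0),(3,8),(11,1),(4,3)]⟩⟩,⟨false,0,⟨0,
  []⟩,⟨0,[]⟩⟩,⟨false,0,⟨0,[]⟩,⟨0,[]⟩⟩,[.a ⟨true,0,⟨0,[(3,0)]⟩,⟨0,[(24,0)]⟩⟩ ⟨true,0,⟨0,[]⟩,⟨1,[(30,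
  0),(0,0)]⟩⟩ ⟨false,0,⟨0,[(27,0)]⟩,⟨27,[(11,1),(5,12),(0,1),(4,5),(0,5),(5,14),(9,2),(4,0)]⟩⟩,.o
  ⟨false,1,⟨4,[(3,3),(2,0),(33,0),(4,1)]⟩,⟨4,[(5,1),(18,2),(15,0),(6,0)]⟩⟩,.o ⟨false,1,⟨0,[(1,0),
  (15,0)]⟩,⟨1,[(4,0),(19,0),(6,0)]⟩⟩,.o ⟨false,1,⟨14,[(1,8),(15,4),(5,5),(6,9),(9,1),(5,0)]⟩,⟨0,[(4,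
  0)]⟩⟩]⟩)))) (.Q [0,-1,0,0,1,0,0,0,-1,0,0,-1] (.p false [0,0,0,0,1] [] (⟨0,[(23,0)]⟩,⟨0,[(22,0)]⟩)
  .k 0 (⟨0,[]⟩,⟨0,[]⟩) .k .k) (.R ⟨1,false,false,false,[0,0,1],[0,0,0,0,1],[0,0,0,-1,0,0,0,1],(⟨0,
  [(31,0)]⟩,⟨0,[(30,0)]⟩),(⟨0,[(24,0)]⟩,⟨0,[(23,0)]⟩),⟨0,[(20,0)]⟩,.k,.k,.k,.k,(.r (-2) ⟨17,[(4,9),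
  (4,17),(12,9),(5,8),(0,8),(8,1),(4,3)]⟩ ⟨0,[(5,0),(35,0)]⟩),.k,⟨true,1,⟨0,[(14,0),(11,0),(14,0),
  (1,0)]⟩,⟨0,[(10,0)]⟩⟩,⟨false,0,⟨0,[(2,0)]⟩,⟨1,[(0,0),(11,0),(8,0),(4,0),(1,0)]⟩⟩,⟨true,0,⟨0,[(41,
  0)]⟩,⟨0,[(40,0)]⟩⟩,⟨true,(-1),⟨0,[(2,0),(7,0),(30,0)]⟩,⟨0,[(0,0),(25,0)]⟩⟩,⟨false,1,⟨8,[(4,4),(17,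
  4),(15,0),(4,1)]⟩,⟨0,[]⟩⟩,⟨true,(-1),⟨0,[(2,0),(7,0)]⟩,⟨0,[(0,0),(25,0),(14,0)]⟩⟩,[.o ⟨false,0,⟨4,
  [(3,1),(18,2),(15,0),(6,0)]⟩,⟨0,[(0,0)]⟩⟩,.o ⟨false,0,⟨0,[(1,0)]⟩,⟨0,[(21,0)]⟩⟩,.o ⟨false,1,⟨27,
  [(9,1),(5,12),(0,1),(4,5),(0,5),(5,14),(9,2),(4,0)]⟩,⟨0,[(14,0)]⟩⟩,.a ⟨true,0,⟨0,[(28,0)]⟩,⟨0,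
  [(25,0)]⟩⟩ ⟨true,1,⟨1,[(9,1),(18,0),(0,0)]⟩,⟨0,[(10,0)]⟩⟩ ⟨false,0,⟨0,[(2,0)]⟩,⟨0,[(0,0),(27,
  0)]⟩⟩]⟩) (.Q [0,2,0,1,-2,0,-1,-1,1,0,-1,1] (.p false [0,0,1] [0,0,0,0,1] (⟨0,[(31,0)]⟩,⟨0,[(30,
  0)]⟩) .k 2 (⟨0,[(24,0)]⟩,⟨0,[(23,0)]⟩) .k (.r (-1) ⟨0,[(14,0),(11,0),(16,0)]⟩ ⟨4,[(12,1),(3,2),
  (20,0),(3,2)]⟩)) (.Q [0,0,0,0,0,-1,0,0,0,1,0,-1] (.ed true [0,1,0,0,1] .k) (.Q [0,0,-1,0,0,0,0,0,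
  1,-1,0,1] (.p true [0,0,0,0,1] [1] (⟨0,[(26,0)]⟩,⟨0,[(25,0)]⟩) .k 1 (⟨0,[]⟩,⟨0,[]⟩) .k .k) (.S ⟨1,
  0,[0,-1,0,-1],[1,0,0,0,-1],[1],(⟨0,[(26,0)]⟩,⟨0,[(27,0)]⟩),⟨0,[(1,0)]⟩,.k,(.r (-1) ⟨1,[(44,1),(0,
  0),(0,0)]⟩ ⟨9,[(8,0),(0,0),(9,3),(0,0),(0,0),(7,5),(2,3)]⟩),⟨false,0,⟨0,[]⟩,⟨8,[(7,4),(17,4),(15,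
  0),(4,1)]⟩⟩,⟨true,0,⟨0,[(44,0)]⟩,⟨0,[(43,0)]⟩⟩,⟨true,0,⟨0,[(43,0)]⟩,⟨0,[(44,0)]⟩⟩,⟨false,1,⟨8,[(7,
  4),(17,4),(15,0),(4,1)]⟩,⟨0,[]⟩⟩,[.a ⟨true,1,⟨0,[(7,0),(36,0)]⟩,⟨0,[(2,0),(26,0),(16,0)]⟩⟩ ⟨true,
  0,⟨0,[]⟩,⟨1,[(31,0),(0,0)]⟩⟩ ⟨false,1,⟨1,[(44,1),(0,0),(0,0)]⟩,⟨0,[(43,0)]⟩⟩,.o ⟨false,2,⟨8,[(7,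
  9),(17,0),(15,1),(2,8),(1,3)]⟩,⟨7,[(2,5),(1,1),(15,0),(8,5),(11,0),(4,0)]⟩⟩,.o ⟨false,1,⟨0,[(24,
  0)]⟩,⟨0,[(4,0)]⟩⟩,.o ⟨false,1,⟨1,[(24,1),(6,0),(0,0)]⟩,⟨0,[(0,0)]⟩⟩]⟩) (.R ⟨1,false,false,false,
  [1,0,0,0,-1],[1,-1],[0,0,0,-1],(⟨0,[(26,0)]⟩,⟨0,[(27,0)]⟩),(⟨0,[(38,0)]⟩,⟨0,[(39,0)]⟩),⟨0,[(1,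
  0)]⟩,.k,.k,(.r (-1) ⟨1,[(44,1),(0,0),(0,0)]⟩ ⟨9,[(8,0),(0,0),(9,3),(0,0),(0,0),(7,5),(2,3)]⟩),(.r
  (-1) ⟨1,[(20,0),(0,0),(9,1),(14,0)]⟩ ⟨14,[(0,0),(1,0),(7,3),(4,3),(13,4),(10,3),(0,0),(2,15)]⟩),
  .k,.k,⟨true,0,⟨1,[(31,0),(0,0)]⟩,⟨0,[]⟩⟩,⟨false,0,⟨0,[(25,0)]⟩,⟨2,[(0,2),(9,1),(4,1),(13,1),(11,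
  0),(4,0)]⟩⟩,⟨false,0,⟨0,[(44,0)]⟩,⟨7,[(7,1),(1,0),(10,2),(4,1),(2,0),(0,0),(16,2)]⟩⟩,⟨true,(-1),
  ⟨0,[(3,0),(40,0)]⟩,⟨10,[(0,5),(6,4),(1,0),(0,0),(9,1),(8,0),(11,1),(0,4)]⟩⟩,⟨true,0,⟨0,[(48,0)]⟩,
  ⟨0,[]⟩⟩,⟨true,(-1),⟨0,[(3,0)]⟩,⟨0,[(24,0)]⟩⟩,[.o ⟨false,0,⟨0,[(44,0)]⟩,⟨49,[(20,24),(3,13),(0,13),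
  (15,4),(4,0),(1,1)]⟩⟩,.o ⟨false,1,⟨8,[(7,4),(17,4),(15,0),(2,8),(1,1)]⟩,⟨2,[(0,0),(1,0),(5,0),(1,
  0),(18,1),(11,0),(4,0)]⟩⟩,.o ⟨false,1,⟨0,[(24,0)]⟩,⟨0,[(4,0)]⟩⟩,.a ⟨true,0,⟨0,[(0,0)]⟩,⟨1,[(3,1),
  (41,0),(0,0)]⟩⟩ ⟨false,1,⟨1,[(44,1),(0,0),(0,0)]⟩,⟨1,[(9,0),(19,0),(2,0)]⟩⟩ ⟨true,0,⟨2,[(3,1),(8,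
  0),(2,0),(9,0),(18,1),(1,0)]⟩,⟨2,[(0,3),(1,0),(5,0),(1,0),(18,1),(11,0),(4,0)]⟩⟩]⟩)) (.Q [0,0,-1,
  0,0,0,0,0,1,-1,0,1] (.p true [0,0,0,0,1] [1] (⟨0,[(26,0)]⟩,⟨0,[(25,0)]⟩) .k 1 (⟨0,[]⟩,⟨0,[]⟩) .k
  .k) (.R ⟨0,false,false,true,[1,0,0,0,-1],[1,1,-1],[0,0,1],(⟨0,[(26,0)]⟩,⟨0,[(27,0)]⟩),(⟨0,[(33,0),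
  (2,0)]⟩,⟨0,[(23,0)]⟩),⟨0,[(1,0)]⟩,.k,.k,(.r (-1) ⟨1,[(44,1),(0,0),(0,0)]⟩ ⟨9,[(8,0),(0,0),(9,3),
  (0,0),(0,0),(7,5),(2,3)]⟩),(.r (-2) ⟨17,[(7,9),(4,17),(12,9),(5,8),(0,8),(8,1),(4,3)]⟩ ⟨0,[(8,0),
  (35,0)]⟩),.k,.k,⟨true,1,⟨0,[(17,0),(11,0),(14,0),(1,0)]⟩,⟨0,[(13,0)]⟩⟩,⟨false,0,⟨1,[(0,0),(4,0),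
  (4,0)]⟩,⟨0,[(24,0),(6,0)]⟩⟩,⟨false,0,⟨1,[(31,0),(0,0)]⟩,⟨1,[(45,0),(0,0)]⟩⟩,⟨true,(-2),⟨0,[(2,
  0)]⟩,⟨9,[(7,9),(4,1),(16,7),(1,2),(0,0),(8,1),(2,7),(1,3)]⟩⟩,⟨false,0,⟨0,[]⟩,⟨0,[]⟩⟩,⟨false,0,⟨0,
  []⟩,⟨0,[]⟩⟩,[.a ⟨true,(-1),⟨0,[(13,0),(14,0)]⟩,⟨0,[(29,0),(14,0),(1,0)]⟩⟩ ⟨true,0,⟨1,[(31,0),(0,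
  0)]⟩,⟨0,[]⟩⟩ ⟨false,(-1),⟨9,[(0,0),(1,5),(2,2),(3,1),(0,0),(4,1),(29,1)]⟩,⟨9,[(7,9),(4,1),(16,7),
  (1,2),(0,0),(8,1),(2,7),(1,3)]⟩⟩,.o ⟨false,0,⟨9,[(8,1),(0,2),(0,1),(3,0),(0,1),(5,2),(8,1),(10,
  0)]⟩,⟨9,[(12,1),(16,7),(1,2),(0,0),(8,1),(2,7),(1,3)]⟩⟩,.o ⟨false,1,⟨0,[(24,0)]⟩,⟨0,[(4,0)]⟩⟩,.o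
  ⟨false,1,⟨1,[(24,1),(6,0),(0,0)]⟩,⟨0,[(0,0)]⟩⟩]⟩) (.S ⟨1,0,[0,-1,1],[1,1,0,0,-1],[1,0,1,1],(⟨0,
  [(26,0),(9,0)]⟩,⟨1,[(1,0),(9,0),(10,0),(4,0)]⟩),⟨0,[(26,0)]⟩,(.r (-1) ⟨1,[(20,0),(0,0),(9,1),(14,
  0)]⟩ ⟨14,[(0,0),(1,0),(7,3),(4,3),(13,4),(10,3),(0,0),(2,15)]⟩),.k,⟨false,0,⟨0,[]⟩,⟨8,[(7,4),(17,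
  4),(15,0),(4,1)]⟩⟩,⟨true,0,⟨0,[(44,0)]⟩,⟨0,[(43,0)]⟩⟩,⟨true,0,⟨0,[(43,0)]⟩,⟨0,[(44,0)]⟩⟩,⟨false,1,
  ⟨8,[(7,4),(17,4),(15,0),(4,1)]⟩,⟨0,[]⟩⟩,[.a ⟨true,1,⟨0,[(7,0)]⟩,⟨0,[(3,0)]⟩⟩ ⟨true,0,⟨1,[(9,0),
  (19,0),(2,0)]⟩,⟨0,[(44,0)]⟩⟩ ⟨false,1,⟨8,[(7,4),(17,4),(15,0),(4,1)]⟩,⟨14,[(0,0),(1,0),(7,3),(4,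
  3),(13,4),(10,3),(0,0),(2,0)]⟩⟩,.o ⟨false,2,⟨8,[(7,9),(17,0),(15,1),(4,3)]⟩,⟨4,[(2,1),(0,1),(2,0),
  (22,1),(11,0),(2,1)]⟩⟩,.o ⟨false,1,⟨2,[(0,2),(9,1),(4,1),(13,1),(11,0),(4,0)]⟩,⟨1,[(4,1),(26,0),
  (0,0)]⟩⟩,.o ⟨false,1,⟨0,[(24,0)]⟩,⟨0,[(4,0)]⟩⟩]⟩))) (.Q [0,0,0,0,0,-1,0,0,0,0,0,1] (.ed false [1,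
  -1,0,0,1] .k) (.S ⟨1,0,[0,2,0,-1],[0,0,0,0,1],[1,1],(⟨0,[(26,0)]⟩,⟨0,[(25,0)]⟩),⟨0,[(0,0)]⟩,.k,
  (.r 0 ⟨14,[(9,4),(2,1),(1,2),(13,4),(10,3),(0,0),(2,16)]⟩ ⟨5,[(1,1),(6,1),(10,1),(0,1),(3,1),(5,
  2),(0,0)]⟩),⟨true,0,⟨0,[]⟩,⟨0,[(47,0)]⟩⟩,⟨false,0,⟨0,[(43,0)]⟩,⟨7,[(6,1),(1,0),(10,2),(4,1),(2,0),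
  (0,0),(16,2)]⟩⟩,⟨false,1,⟨7,[(6,1),(1,0),(10,2),(4,1),(2,0),(0,0),(16,2)]⟩,⟨0,[(43,0)]⟩⟩,⟨true,0,
  ⟨0,[(47,0)]⟩,⟨0,[]⟩⟩,[.o ⟨false,(-1),⟨3,[(2,3),(6,0),(2,1),(3,0),(11,1),(11,0),(2,5)]⟩,⟨9,[(1,3),
  (4,5),(1,3),(0,1),(6,1),(2,2),(20,0),(4,0)]⟩⟩,.a ⟨true,(-1),⟨0,[(2,0),(40,0)]⟩,⟨4,[(1,2),(4,1),(0,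
  2),(0,0),(0,1),(10,0),(7,0)]⟩⟩ ⟨true,0,⟨0,[]⟩,⟨1,[(30,0),(0,0)]⟩⟩ ⟨false,0,⟨14,[(9,4),(2,1),(1,2),
  (13,4),(10,3),(0,0),(2,16)]⟩,⟨7,[(6,1),(1,0),(10,2),(4,1),(2,0),(0,0),(16,2)]⟩⟩,.o ⟨false,0,⟨0,
  [(3,0)]⟩,⟨0,[(23,0)]⟩⟩,.o ⟨false,0,⟨1,[(3,1),(26,0),(0,0)]⟩,⟨3,[(1,3),(7,4),(2,5),(3,0),(11,1),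
  (11,0),(2,1)]⟩⟩]⟩) (.R ⟨0,false,false,false,[0,0,0,0,1],[0,-1,1],[1,1],(⟨0,[(26,0)]⟩,⟨0,[(25,
  0)]⟩),(⟨0,[(22,0)]⟩,⟨0,[(32,0),(2,0)]⟩),⟨0,[(0,0)]⟩,.k,.k,(.r 0 ⟨14,[(9,4),(2,1),(1,2),(13,4),(10,
  3),(0,0),(2,16)]⟩ ⟨5,[(1,1),(6,1),(10,1),(0,1),(3,1),(5,2),(0,0)]⟩),(.r 1 ⟨0,[(7,0),(35,0)]⟩ ⟨15,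
  [(1,9),(9,9),(6,3),(1,4),(3,9),(15,0)]⟩),.k,.k,⟨true,(-1),⟨0,[(12,0)]⟩,⟨0,[(1,0),(0,0),(13,0)]⟩⟩,
  ⟨false,1,⟨1,[(1,0),(10,0),(1,0),(8,0),(4,0)]⟩,⟨0,[(4,0)]⟩⟩,⟨true,0,⟨0,[]⟩,⟨0,[(47,0)]⟩⟩,⟨false,2,
  ⟨0,[(1,0)]⟩,⟨0,[(4,0),(7,0)]⟩⟩,⟨false,0,⟨0,[]⟩,⟨0,[]⟩⟩,⟨false,0,⟨0,[]⟩,⟨0,[]⟩⟩,[.o ⟨false,1,⟨6,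
  [(1,2),(1,1),(1,0),(22,3),(11,0),(2,3)]⟩,⟨9,[(7,1),(0,2),(0,1),(3,0),(0,1),(5,2),(8,1),(10,0)]⟩⟩,
  .a ⟨true,1,⟨0,[(1,0),(0,0)]⟩,⟨0,[(12,0),(14,0)]⟩⟩ ⟨true,0,⟨0,[]⟩,⟨1,[(30,0),(0,0)]⟩⟩ ⟨false,2,⟨2,
  [(1,1),(9,0),(2,0),(8,0),(4,0)]⟩,⟨0,[(4,0),(7,0)]⟩⟩,.o ⟨false,0,⟨0,[(3,0)]⟩,⟨0,[(23,0)]⟩⟩,.o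
  ⟨false,0,⟨1,[(3,1),(26,0),(0,0)]⟩,⟨3,[(1,3),(7,4),(2,5),(3,0),(11,1),(11,0),(2,1)]⟩⟩]⟩))))) (.Q
  [0,0,0,0,0,-1,0,0,0,0,0,1] (.ed false [1,-1,0,0,1] .k) (.S ⟨1,0,[0,-1,1],[1,1,0,0,-1],[1,0,1,1],
  (⟨0,[(22,0),(9,0)]⟩,⟨0,[(0,0)]⟩),⟨0,[(22,0)]⟩,(.r (-1) ⟨1,[(16,0),(0,0),(9,1),(14,0)]⟩ ⟨17,[(1,4),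
  (0,4),(3,4),(1,2),(2,2),(24,3),(0,0),(2,14)]⟩),.k,⟨false,0,⟨0,[]⟩,⟨8,[(3,4),(17,4),(15,0),(4,
  1)]⟩⟩,⟨true,0,⟨0,[(40,0)]⟩,⟨0,[(39,0)]⟩⟩,⟨true,0,⟨0,[(39,0)]⟩,⟨0,[(40,0)]⟩⟩,⟨false,1,⟨8,[(3,4),
  (17,4),(15,0),(4,1)]⟩,⟨0,[]⟩⟩,[.o ⟨false,1,⟨5,[(1,3),(1,1),(2,1),(10,0),(19,0),(4,1)]⟩,⟨4,[(2,1),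
  (18,2),(15,0),(6,0)]⟩⟩,.e ⟨false,1,⟨7,[(3,1),(1,0),(10,2),(4,1),(2,0),(0,0),(16,2)]⟩,⟨17,[(1,4),
  (0,4),(3,4),(1,2),(2,2),(24,3),(0,0),(2,14)]⟩⟩ ⟨false,1,⟨0,[(42,0)]⟩,⟨0,[(36,0)]⟩⟩,.a ⟨true,0,⟨0,
  [(1,0),(4,0)]⟩,⟨1,[(21,1),(5,0),(0,0)]⟩⟩ ⟨true,0,⟨1,[(5,0),(19,0),(2,0)]⟩,⟨17,[(1,4),(0,4),(3,4),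
  (1,2),(2,2),(24,3),(0,0),(2,14)]⟩⟩ ⟨false,1,⟨1,[(27,0),(0,0),(13,1)]⟩,⟨14,[(1,1),(0,1),(3,4),(4,
  2),(13,2),(10,3),(0,0)]⟩⟩,.e ⟨false,1,⟨7,[(3,1),(1,0),(10,2),(4,1),(2,0),(0,0),(16,2)]⟩,⟨0,[(40,
  0)]⟩⟩ ⟨false,1,⟨0,[(42,0)]⟩,⟨0,[(44,0)]⟩⟩]⟩) (.K ⟨0,[0,0,1,0,-1],0,1,(⟨0,[(0,0),(18,0)]⟩,⟨0,[(23,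
  0),(5,0)]⟩),.k,(.r (-2) ⟨17,[(3,9),(4,17),(12,9),(5,8),(0,8),(8,1),(4,3)]⟩ ⟨0,[(4,0),(35,0)]⟩),
  (.r (-1) ⟨1,[(5,0),(7,1),(11,2),(2,0),(13,1)]⟩ ⟨4,[(11,3),(3,0),(20,1),(3,5)]⟩),.k,.k,[⟨0,[(21,
  0)]⟩,⟨0,[(1,0)]⟩,⟨10,[(2,10),(6,1),(0,2),(0,4),(5,4),(8,0),(10,0),(2,1)]⟩,⟨3,[(1,3),(6,1),(7,0),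
  (0,0),(7,1),(16,0)]⟩]⟩)))))) (.S ⟨1,0,[0,0,-1,-2,0,0,0,1],[0,-1,1],[0,1,-1,-2,0,0,0,1],(⟨0,[(14,
  0)]⟩,⟨0,[(24,0),(2,0)]⟩),⟨0,[(2,0)]⟩,.k,(.r (-1) ⟨1,[(0,1),(35,0),(0,0)]⟩ ⟨1,[(4,1),(6,0),(0,0),
  (9,1),(14,0)]⟩),⟨false,0,⟨0,[(35,0)]⟩,⟨0,[(34,0),(2,0)]⟩⟩,⟨true,0,⟨0,[(35,0)]⟩,⟨0,[(34,0)]⟩⟩,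
  ⟨true,0,⟨0,[(39,0)]⟩,⟨0,[]⟩⟩,⟨false,1,⟨1,[(15,0),(0,0),(20,0)]⟩,⟨0,[]⟩⟩,[.o ⟨false,1,⟨9,[(0,9),
  (14,0),(0,0),(5,9),(9,1),(4,4)]⟩,⟨1,[(1,0),(2,1),(3,0),(2,0),(25,0)]⟩⟩,.a ⟨true,1,⟨0,[(0,0),(21,
  0),(14,0)]⟩,⟨0,[(1,0),(2,1),(3,0),(11,0),(16,0)]⟩⟩ ⟨false,1,⟨1,[(0,1),(35,0),(0,0)]⟩,⟨0,[(4,0),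
  (29,0),(2,0)]⟩⟩ ⟨true,1,⟨0,[(0,0),(36,0)]⟩,⟨0,[(4,1),(3,0),(11,0),(16,0)]⟩⟩,.a ⟨true,0,⟨0,[(22,
  0)]⟩,⟨0,[(19,0)]⟩⟩ ⟨true,0,⟨0,[(0,0)]⟩,⟨0,[(4,0),(29,0),(2,0)]⟩⟩ ⟨false,1,⟨0,[(0,0),(36,0)]⟩,⟨0,
  [(4,0),(29,0),(2,0)]⟩⟩,.a ⟨true,0,⟨1,[(22,2),(0,0)]⟩,⟨0,[(1,0)]⟩⟩ ⟨false,1,⟨1,[(0,1),(35,0),(0,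
  0)]⟩,⟨0,[(4,1),(3,0),(11,0),(16,1)]⟩⟩ ⟨true,1,⟨1,[(0,1),(35,0),(0,0)]⟩,⟨0,[(4,1),(3,0),(11,0),(16,
  0)]⟩⟩]⟩)))) (.Q [0,-1,0,1,1,0,0,0,0,-1] (.pp true [-1,1]) (.R ⟨1,false,false,false,[0,0,1],[0,1],
  [1,0,0,0,0,0,0,1],(⟨0,[(23,0)]⟩,⟨0,[(22,0)]⟩),(⟨0,[(28,0)]⟩,⟨0,[(27,0)]⟩),⟨0,[(12,0)]⟩,.k,.k,.k,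
  .k,(.x 0 ⟨9,[(1,7),(16,7),(1,2),(0,0),(0,9),(2,19),(4,1),(2,7),(1,3)]⟩ ⟨15,[(11,3),(0,19),(4,15),
  (6,7),(5,3),(0,5),(1,5),(0,4),(0,2)]⟩),.k,⟨true,1,⟨5,[(10,0),(6,3),(0,5),(11,0),(2,5),(0,0),(0,
  2)]⟩,⟨0,[(1,0)]⟩⟩,⟨false,1,⟨5,[(10,0),(6,3),(12,0),(3,3)]⟩,⟨0,[(20,0)]⟩⟩,⟨true,0,⟨0,[]⟩,⟨0,[(37,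
  0)]⟩⟩,⟨true,0,⟨1,[(0,0),(1,0),(1,0),(5,0)]⟩,⟨0,[(18,0),(14,0)]⟩⟩,⟨false,1,⟨0,[(32,0),(2,0)]⟩,⟨0,
  [(33,0)]⟩⟩,⟨true,0,⟨0,[(0,0),(1,0),(14,0)]⟩,⟨0,[(18,0),(14,1)]⟩⟩,[.o ⟨false,1,⟨49,[(9,24),(3,13),
  (0,13),(15,4),(4,0),(1,1)]⟩,⟨0,[(33,0)]⟩⟩,.o ⟨false,1,⟨0,[(0,0)]⟩,⟨0,[(33,0),(3,0)]⟩⟩,.o ⟨false,1,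
  ⟨49,[(7,24),(5,13),(0,13),(5,24),(9,4),(4,0),(1,1)]⟩,⟨0,[(6,0)]⟩⟩,.a ⟨true,0,⟨0,[(20,0)]⟩,⟨0,[(17,
  0)]⟩⟩ ⟨true,1,⟨5,[(10,0),(6,3),(0,5),(11,0),(3,0),(0,2)]⟩,⟨0,[(2,0),(30,0)]⟩⟩ ⟨false,1,⟨0,[(0,0),
  (16,0)]⟩,⟨0,[(20,0),(12,0)]⟩⟩]⟩) (.I [0,-1,0,-1,0,0,0,-1] (.R ⟨1,false,false,false,[1,0,-1],[1,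
  -1],[0,0,0,-1,0,0,0,-1],(⟨0,[(23,0)]⟩,⟨0,[(24,0)]⟩),(⟨0,[(28,0)]⟩,⟨0,[(29,0)]⟩),⟨0,[(12,0)]⟩,.k,
  .k,.k,.k,.k,.k,⟨false,0,⟨2,[(0,0),(4,0),(3,0)]⟩,⟨5,[(11,0),(6,3),(0,5),(11,0),(3,0),(0,2)]⟩⟩,
  ⟨true,0,⟨0,[(21,0)]⟩,⟨0,[(7,0)]⟩⟩,⟨true,0,⟨0,[(34,0)]⟩,⟨0,[(33,0)]⟩⟩,⟨false,1,⟨0,[(19,0),(14,0),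
  (1,0)]⟩,⟨13,[(2,5),(2,7),(4,3),(0,4),(6,3),(12,0)]⟩⟩,⟨false,1,⟨1,[(14,0),(0,0),(20,0)]⟩,⟨0,[]⟩⟩,
  ⟨false,1,⟨0,[(19,0),(16,0)]⟩,⟨11,[(0,1),(2,1),(0,1),(0,3),(5,4),(8,1),(10,0)]⟩⟩,[.o ⟨false,0,⟨0,
  [(34,0)]⟩,⟨49,[(10,24),(3,13),(0,13),(15,4),(4,0),(1,1)]⟩⟩,.a ⟨true,0,⟨0,[(1,0),(34,0)]⟩,⟨0,[(33,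
  0)]⟩⟩ ⟨true,0,⟨0,[(0,0)]⟩,⟨3,[(2,1),(4,3),(2,0),(0,0),(7,5),(16,0)]⟩⟩ ⟨false,1,⟨0,[(1,0),(6,0),
  (27,0)]⟩,⟨0,[(7,0),(25,0)]⟩⟩,.o ⟨false,0,⟨0,[(7,0)]⟩,⟨49,[(8,24),(5,13),(0,13),(5,24),(9,4),(4,0),
  (1,1)]⟩⟩,.o ⟨false,0,⟨0,[(22,0)]⟩,⟨0,[(8,0)]⟩⟩]⟩) (.Q [0,0,-1,0,1,0,2,0,0,-1,2] (.p true [0,0,1]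
  [1,0,-1] (⟨0,[(24,0)]⟩,⟨0,[(23,0)]⟩) .k 2 (⟨0,[(23,0)]⟩,⟨0,[(24,0)]⟩) .k (.r (-1) ⟨0,[(7,1),(11,
  1),(16,0)]⟩ ⟨3,[(1,0),(2,2),(0,2),(2,0),(0,0),(10,0)]⟩)) (.K ⟨0,[1,-1,-1],(-1),(-1),(⟨0,[(13,0)]⟩,
  ⟨0,[(25,0),(1,0)]⟩),.k,(.r (-1) ⟨6,[(0,0),(1,0),(2,2),(0,1),(14,1),(13,12),(0,6)]⟩ ⟨8,[(1,14),(0,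
  4),(0,7),(16,1),(2,1),(8,0),(4,10)]⟩),.k,(.r 0 ⟨6,[(0,0),(1,0),(2,2),(0,8),(14,1),(13,5)]⟩ ⟨0,[(1,
  0),(18,0),(2,0),(13,0)]⟩),.k,[⟨0,[(0,0)]⟩,⟨6,[(1,5),(0,11),(0,5),(4,4),(14,1),(8,0),(4,8)]⟩,⟨49,
  [(11,24),(3,13),(0,13),(3,49),(11,4),(4,0),(1,1)]⟩,⟨18,[(2,20),(0,1),(1,4),(0,8),(5,7),(8,2),(10,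
  1)]⟩]⟩) (.Q [0,0,0,-1,-1,0,-1,-1,0,1,-1] (.p false [0,0,1] [1] (⟨0,[(25,0)]⟩,⟨0,[(24,0)]⟩) .k 1
  (⟨0,[]⟩,⟨0,[]⟩) .k .k) (.R ⟨1,false,false,false,[1,-1],[0,-1,1],[1,0,1],(⟨0,[(30,0)]⟩,⟨0,[(31,
  0)]⟩),(⟨0,[(15,0)]⟩,⟨0,[(25,0),(2,0)]⟩),⟨0,[(14,0),(0,0)]⟩,.k,.k,(.r (-1) ⟨0,[(36,1),(0,0)]⟩ ⟨2,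
  [(1,0),(0,1),(1,0),(3,0),(3,0),(10,1),(14,0)]⟩),.k,.k,.k,⟨true,(-1),⟨0,[(4,0)]⟩,⟨5,[(13,0),(6,3),
  (0,5),(11,0),(2,5),(0,0),(0,2)]⟩⟩,⟨false,1,⟨0,[(10,0)]⟩,⟨1,[(13,0),(6,0),(2,0)]⟩⟩,⟨false,0,⟨14,
  [(1,4),(0,5),(1,8),(16,2),(1,6),(9,0),(4,11)]⟩,⟨0,[(36,0),(0,0)]⟩⟩,⟨true,1,⟨9,[(16,0),(0,0),(3,9),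
  (11,1),(4,4)]⟩,⟨10,[(0,4),(2,0),(1,4),(5,0),(1,0),(6,3),(11,1)]⟩⟩,⟨false,0,⟨0,[(2,0),(1,0),(33,
  0)]⟩,⟨0,[(36,1),(0,0)]⟩⟩,⟨false,2,⟨9,[(12,4),(3,2),(0,2),(3,9),(11,0),(4,9)]⟩,⟨0,[(0,0)]⟩⟩,[.o
  ⟨false,1,⟨9,[(16,0),(0,0),(3,9),(11,1),(2,9),(1,4)]⟩,⟨33,[(1,12),(2,0),(2,23),(0,8),(3,11),(0,3),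
  (19,0)]⟩⟩,.a ⟨true,1,⟨0,[(21,0),(14,0),(1,0)]⟩,⟨0,[(5,0),(14,0)]⟩⟩ ⟨false,1,⟨1,[(16,0),(0,0),(20,
  0)]⟩,⟨11,[(3,4),(28,0),(0,0),(0,4),(2,2)]⟩⟩ ⟨true,2,⟨9,[(16,0),(0,0),(3,9),(11,1),(2,9),(0,4),(0,
  9)]⟩,⟨1,[(1,0),(1,0),(0,1),(29,0)]⟩⟩,.o ⟨false,0,⟨1,[(23,0),(0,0)]⟩,⟨9,[(16,0),(0,0),(15,1),(3,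
  4)]⟩⟩,.e ⟨true,0,⟨0,[]⟩,⟨0,[(40,0)]⟩⟩ ⟨true,2,⟨9,[(16,0),(0,0),(3,9),(11,1),(2,9),(0,9),(0,4)]⟩,
  ⟨1,[(1,0),(1,0),(0,1),(29,0)]⟩⟩]⟩) (.R ⟨1,true,false,false,[1,0,-1],[0,1],[0,1,0,-1,0,0,0,-1],(⟨0,
  [(25,0)]⟩,⟨0,[(26,0)]⟩),(⟨0,[(31,0)]⟩,⟨0,[(30,0)]⟩),⟨0,[(14,0)]⟩,.k,.k,.k,.k,(.r (-1) ⟨3,[(3,0),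
  (2,1),(0,0),(2,0),(11,0),(13,6),(0,3)]⟩ ⟨1,[(0,0),(0,0),(0,1),(1,0),(18,0),(14,0)]⟩),.k,⟨false,0,
  ⟨6,[(3,4),(3,6),(24,0),(0,0),(2,8),(0,2)]⟩,⟨5,[(0,0),(0,0),(0,7),(1,0),(3,1),(14,0),(14,6)]⟩⟩,
  ⟨true,1,⟨0,[(10,0)]⟩,⟨0,[(1,0),(21,0)]⟩⟩,⟨false,0,⟨0,[(36,0)]⟩,⟨1,[(0,0),(7,0),(11,0),(17,0)]⟩⟩,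
  ⟨true,1,⟨0,[(0,0)]⟩,⟨6,[(1,1),(1,4),(2,0),(0,2),(14,2),(13,1)]⟩⟩,⟨true,0,⟨0,[(40,0)]⟩,⟨0,[]⟩⟩,
  ⟨false,2,⟨1,[(0,2),(7,0),(11,0),(17,0)]⟩,⟨3,[(1,1),(1,6),(2,0),(0,2),(25,0),(2,0),(1,2)]⟩⟩,
  []⟩))))))))

theorem ok17 : chk K t17 r5 = true := by decide +kernel

noncomputable def t20 : Tre :=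
  (.Q [0,1,0,1,0,0,1,1,0,0,1] (.p true [0,0,1] [] (⟨0,[(17,0)]⟩,⟨0,[(16,0)]⟩) .k 0 (⟨0,[]⟩,⟨0,[]⟩)
  .k .k) (.I [0,0,-2,0,1,-2,1] (.K ⟨0,[0,1,1],0,0,(⟨0,[(19,0),(1,0)]⟩,⟨0,[(7,0)]⟩),.k,.k,(.x (-1)
  ⟨0,[(0,0)]⟩ ⟨1,[(16,0),(0,2),(1,1),(1,3)]⟩),.k,.k,[⟨1,[(16,0),(0,0)]⟩,⟨0,[(2,0)]⟩,⟨0,[(15,0),(13,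
  0)]⟩,⟨0,[(1,0)]⟩]⟩) (.I [0,0,2,2,0,0,0,1] (.I [0,0,-2,-2,1,0,0,-1] (.K ⟨0,[0,1,1],0,0,(⟨0,[(21,0),
  (1,0)]⟩,⟨0,[(9,0)]⟩),.k,.k,(.r 0 ⟨0,[(1,0)]⟩ ⟨0,[(0,0)]⟩),.k,.k,[⟨1,[(18,0),(0,0)]⟩,⟨0,[(4,0)]⟩,
  ⟨0,[(17,0),(13,0)]⟩,⟨0,[(3,0)]⟩]⟩) (.I [0,0,2,0,-1,2,-1] (.K ⟨0,[0,1,1],0,0,(⟨0,[(22,0),(1,0)]⟩,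
  ⟨0,[(10,0)]⟩),.k,.k,(.x (-2) ⟨9,[(6,9),(3,9),(1,0),(0,0),(12,9),(2,1),(3,4)]⟩ ⟨0,[(0,0)]⟩),.k,.k,
  [⟨1,[(19,0),(0,0)]⟩,⟨0,[(5,0)]⟩,⟨0,[(18,0),(13,0)]⟩,⟨0,[(4,0)]⟩]⟩) (.Q [0,0,0,0,0,0,1,1,0,-1,1]
  (.p true [0,0,1] [1] (⟨0,[(22,0)]⟩,⟨0,[(21,0)]⟩) .k 1 (⟨0,[]⟩,⟨0,[]⟩) .k .k) (.S ⟨1,0,[0,0,1,0,0,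
  0,0,1],[0,1,1],[1,1,1,1,0,0,0,1],(⟨0,[(23,0),(1,0)]⟩,⟨0,[(11,0)]⟩),⟨0,[(23,0)]⟩,.k,.k,⟨false,0,⟨0,
  []⟩,⟨1,[(13,0),(0,0),(20,0)]⟩⟩,⟨true,0,⟨0,[(33,0)]⟩,⟨0,[(32,0)]⟩⟩,⟨true,0,⟨0,[(32,0)]⟩,⟨0,[(33,
  0)]⟩⟩,⟨false,1,⟨1,[(13,0),(0,0),(20,0)]⟩,⟨0,[]⟩⟩,[.o ⟨false,0,⟨0,[(0,0)]⟩,⟨1,[(13,0),(0,0),(4,1),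
  (15,0)]⟩⟩,.o ⟨false,1,⟨8,[(0,3),(17,4),(11,0),(4,6)]⟩,⟨0,[(19,0)]⟩⟩,.o ⟨false,1,⟨0,[(7,0)]⟩,⟨0,
  [(21,0)]⟩⟩,.a ⟨true,0,⟨0,[(6,0)]⟩,⟨4,[(4,0),(5,1),(11,0),(4,1),(6,0)]⟩⟩ ⟨false,0,⟨3,[(0,1),(1,0),
  (0,0),(13,1),(16,0)]⟩,⟨0,[(6,0),(12,0),(13,0),(1,0)]⟩⟩ ⟨true,0,⟨10,[(0,8),(3,0),(5,3),(6,1),(0,1),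
  (3,0),(4,1),(7,0)]⟩,⟨0,[(6,0),(12,0)]⟩⟩]⟩) (.Q [0,-1,0,2,1,0,0,0,0,-1] (.pp true [-1,1]) (.S ⟨1,0,
  [0,1,-1,-2],[1,-1],[1,0,-1,-1],(⟨0,[(28,0)]⟩,⟨0,[(29,0)]⟩),⟨0,[(12,0),(0,0)]⟩,.k,(.r (-1) ⟨0,[(34,
  1),(0,0)]⟩ ⟨2,[(3,0),(0,0),(4,1),(26,0)]⟩),⟨true,0,⟨0,[]⟩,⟨0,[(38,0)]⟩⟩,⟨false,0,⟨0,[(34,0)]⟩,⟨2,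
  [(1,0),(4,0),(3,0),(25,1)]⟩⟩,⟨false,1,⟨2,[(1,0),(4,0),(3,0),(25,1)]⟩,⟨0,[(34,0)]⟩⟩,⟨true,0,⟨0,
  [(38,0)]⟩,⟨0,[]⟩⟩,[.o ⟨false,0,⟨0,[(34,1),(3,0)]⟩,⟨0,[(0,0)]⟩⟩,.o ⟨false,0,⟨0,[(34,1)]⟩,⟨0,[(10,
  0)]⟩⟩,.o ⟨false,0,⟨1,[(21,0),(0,0)]⟩,⟨9,[(14,0),(0,0),(15,1),(3,4)]⟩⟩,.a ⟨true,(-1),⟨1,[(1,0),(1,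
  0),(1,0),(1,1),(4,0),(12,0),(8,1)]⟩,⟨0,[(35,0)]⟩⟩ ⟨true,1,⟨0,[(34,0),(0,0)]⟩,⟨0,[(3,0),(3,0),(12,
  0),(13,0)]⟩⟩ ⟨false,1,⟨0,[(34,1),(0,0)]⟩,⟨7,[(1,4),(1,6),(3,4),(1,1),(21,0),(4,4)]⟩⟩]⟩) (.R ⟨2,
  true,false,true,[0,1],[1,-1],[1,1,1,1],(⟨0,[]⟩,⟨0,[]⟩),(⟨0,[(28,0)]⟩,⟨0,[(29,0)]⟩),⟨0,[]⟩,.k,.k,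
  .k,(.r 0 ⟨2,[(3,0),(0,0),(4,1),(26,0)]⟩ ⟨9,[(0,9),(13,0),(0,0),(15,1),(3,9),(0,4)]⟩),.k,.k,⟨false,
  0,⟨1,[(3,0),(5,0),(22,0),(3,0)]⟩,⟨9,[(0,9),(13,0),(0,0),(15,1),(3,9),(0,4)]⟩⟩,⟨true,(-1),⟨6,[(0,
  5),(0,5),(1,5),(3,3),(13,1),(9,0),(4,2)]⟩,⟨9,[(14,0),(0,0),(15,1),(3,4)]⟩⟩,⟨false,0,⟨0,[]⟩,⟨1,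
  [(14,0),(0,0),(20,0)]⟩⟩,⟨true,(-1),⟨0,[(0,0)]⟩,⟨0,[(10,0)]⟩⟩,⟨true,0,⟨0,[(33,0)]⟩,⟨0,[(34,0)]⟩⟩,
  ⟨false,0,⟨1,[(0,0),(0,0),(17,0),(16,0)]⟩,⟨3,[(1,0),(1,0),(3,0),(23,0),(0,1),(3,2)]⟩⟩,[]⟩))))) (.I
  [0,1,1,0,-1,0,0,-1] (.I [1,-1,-2,-1,1] (.I [1,1,0,0,0,0,0,1] (.S ⟨1,0,[0,0,1,0,0,0,0,-1],[1,1,-1],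
  [0,1,1,0,0,0,0,-1],(⟨0,[(22,0),(2,0)]⟩,⟨0,[(12,0)]⟩),⟨0,[(22,0)]⟩,.k,.k,⟨false,0,⟨0,[(33,0)]⟩,⟨3,
  [(5,0),(2,0),(0,0),(7,0),(17,2)]⟩⟩,⟨true,0,⟨0,[(33,0)]⟩,⟨0,[(32,0)]⟩⟩,⟨true,0,⟨0,[(37,0)]⟩,⟨0,
  []⟩⟩,⟨false,1,⟨1,[(13,0),(0,0),(20,0)]⟩,⟨0,[]⟩⟩,[.o ⟨false,0,⟨9,[(2,7),(0,1),(5,1),(0,2),(6,3),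
  (12,0),(4,3)]⟩,⟨9,[(13,0),(0,0),(3,9),(11,1),(4,4)]⟩⟩,.a ⟨true,0,⟨0,[(2,0),(14,0),(17,0)]⟩,⟨0,
  [(18,0)]⟩⟩ ⟨false,0,⟨3,[(2,1),(0,0),(4,0),(22,0),(3,1)]⟩,⟨1,[(0,1),(33,0),(0,0)]⟩⟩ ⟨true,0,⟨0,[(2,
  0),(32,0)]⟩,⟨0,[(0,0)]⟩⟩,.a ⟨true,0,⟨0,[(17,0)]⟩,⟨0,[(20,0)]⟩⟩ ⟨true,(-1),⟨0,[(2,0)]⟩,⟨1,[(0,1),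
  (33,0),(0,0)]⟩⟩ ⟨false,0,⟨0,[(2,0),(32,0)]⟩,⟨1,[(0,1),(33,0),(0,0)]⟩⟩,.a ⟨true,0,⟨4,[(4,0),(5,1),
  (11,0),(4,1),(6,0)]⟩,⟨0,[(6,0)]⟩⟩ ⟨false,0,⟨3,[(2,1),(0,0),(4,0),(22,0),(3,1)]⟩,⟨0,[(0,0),(34,
  0)]⟩⟩ ⟨true,0,⟨3,[(2,1),(0,0),(4,0),(22,0),(3,1)]⟩,⟨0,[(0,0)]⟩⟩]⟩) (.S ⟨1,0,[0,0,1,0,0,0,0,-1],[1,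
  1,-1],[0,1,1,0,0,0,0,-1],(⟨0,[(22,0),(2,0)]⟩,⟨0,[(12,0)]⟩),⟨0,[(22,0)]⟩,.k,.k,⟨false,0,⟨0,[(33,
  0)]⟩,⟨3,[(5,0),(2,0),(0,0),(7,0),(17,2)]⟩⟩,⟨true,0,⟨0,[(33,0)]⟩,⟨0,[(32,0)]⟩⟩,⟨true,0,⟨0,[(37,
  0)]⟩,⟨0,[]⟩⟩,⟨false,1,⟨1,[(13,0),(0,0),(20,0)]⟩,⟨0,[]⟩⟩,[.o ⟨false,0,⟨11,[(0,5),(1,1),(7,2),(6,1),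
  (1,3),(10,0)]⟩,⟨9,[(13,0),(0,0),(3,9),(11,1),(4,4)]⟩⟩,.e ⟨false,0,⟨4,[(0,1),(2,0),(4,1)]⟩,⟨9,[(1,
  3),(3,3),(4,4),(7,5),(11,0),(3,0),(0,2)]⟩⟩ ⟨false,0,⟨0,[(0,0)]⟩,⟨9,[(10,4),(2,2),(0,2),(3,9),(11,
  0),(3,4)]⟩⟩,.a ⟨true,0,⟨0,[(17,0)]⟩,⟨0,[(20,0)]⟩⟩ ⟨true,(-1),⟨0,[(2,0)]⟩,⟨9,[(1,3),(3,3),(4,4),(7,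
  5),(11,0),(3,0),(0,2)]⟩⟩ ⟨false,0,⟨0,[(2,0),(32,0)]⟩,⟨9,[(1,3),(3,3),(4,4),(7,5),(11,0),(3,0),(0,
  2)]⟩⟩,.e ⟨false,0,⟨4,[(0,1),(2,0),(4,1)]⟩,⟨4,[(1,1),(2,2),(0,1),(5,2),(5,1),(0,2),(5,2),(5,0),(4,
  3)]⟩⟩ ⟨false,0,⟨0,[(0,0)]⟩,⟨9,[(10,4),(2,2),(0,2),(3,9),(11,0),(4,4)]⟩⟩]⟩)) (.I [0,0,-2,-2,1,0,0,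
  1] (.S ⟨1,0,[0,0,0,-1,0,0,0,-1],[1,0,-1],[1,1,0,0,0,0,0,-1],(⟨0,[(22,0)]⟩,⟨0,[(23,0)]⟩),⟨0,[(11,
  0)]⟩,.k,.k,⟨false,0,⟨0,[]⟩,⟨1,[(13,0),(0,0),(20,0)]⟩⟩,⟨true,0,⟨0,[(33,0)]⟩,⟨0,[(32,0)]⟩⟩,⟨true,0,
  ⟨0,[(32,0)]⟩,⟨0,[(33,0)]⟩⟩,⟨false,1,⟨1,[(13,0),(0,0),(20,0)]⟩,⟨0,[]⟩⟩,[.o ⟨false,0,⟨3,[(2,0),(0,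
  1),(15,0),(1,2),(13,0)]⟩,⟨5,[(5,3),(3,0),(8,1),(11,0),(4,2)]⟩⟩,.a ⟨true,0,⟨7,[(2,3),(0,3),(0,1),
  (5,2),(0,0),(10,0),(4,2),(7,5)]⟩,⟨0,[(5,0)]⟩⟩ ⟨false,0,⟨0,[(1,0),(1,0),(27,0),(3,0)]⟩,⟨4,[(0,0),
  (8,0),(0,0),(2,0),(0,0),(3,3),(2,1),(13,1)]⟩⟩ ⟨true,0,⟨0,[(1,0),(1,0),(31,0)]⟩,⟨0,[(5,0),(15,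
  0)]⟩⟩,.e ⟨false,0,⟨3,[(2,1),(0,0),(4,0),(22,0),(3,1)]⟩,⟨23,[(0,7),(3,9),(0,15),(4,0),(0,9),(5,3),
  (6,9),(5,2),(4,19)]⟩⟩ ⟨false,0,⟨0,[(1,0),(1,0),(31,0)]⟩,⟨1,[(9,0),(0,0),(7,1),(16,0)]⟩⟩,.o ⟨false,
  0,⟨0,[(21,0)]⟩,⟨0,[(7,0)]⟩⟩]⟩) (.R ⟨2,true,false,false,[0,1],[1,-1],[1,0,1,1],(⟨0,[]⟩,⟨0,[]⟩),(⟨0,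
  [(27,0)]⟩,⟨0,[(28,0)]⟩),⟨0,[]⟩,.k,.k,.k,(.r 0 ⟨15,[(0,1),(0,11),(3,5),(2,3),(0,2),(0,2),(24,10)]⟩
  ⟨0,[(33,1),(0,0)]⟩),.k,.k,⟨false,0,⟨3,[(0,1),(4,1),(3,0),(0,0),(24,0)]⟩,⟨0,[(33,1),(0,0)]⟩⟩,⟨true,
  (-1),⟨0,[(1,0),(1,0),(0,0),(0,0),(5,0),(12,0),(10,0)]⟩,⟨9,[(13,0),(0,0),(15,1),(3,4)]⟩⟩,⟨true,0,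
  ⟨0,[]⟩,⟨0,[(37,0)]⟩⟩,⟨false,0,⟨0,[(3,0),(0,0),(0,0),(5,0),(12,0),(8,0),(1,0)]⟩,⟨0,[(9,0)]⟩⟩,
  ⟨false,1,⟨3,[(5,0),(2,0),(0,0),(7,0),(17,2)]⟩,⟨0,[(33,0)]⟩⟩,⟨true,0,⟨5,[(3,1),(0,1),(8,0),(0,0),
  (3,1),(3,1),(4,3),(5,1),(1,0)]⟩,⟨2,[(0,0),(0,0),(1,0),(1,1),(11,1),(12,0)]⟩⟩,[]⟩))) (.S ⟨1,0,[0,0,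
  0,-1,0,0,0,-1],[1,0,-1],[0,1,0,-1,0,0,0,-1],(⟨0,[(20,0)]⟩,⟨0,[(21,0)]⟩),⟨0,[(9,0)]⟩,.k,.k,⟨false,
  0,⟨0,[(31,0)]⟩,⟨3,[(3,0),(2,0),(0,0),(7,0),(17,2)]⟩⟩,⟨true,0,⟨0,[(31,0)]⟩,⟨0,[(30,0)]⟩⟩,⟨true,0,
  ⟨0,[(35,0)]⟩,⟨0,[]⟩⟩,⟨false,1,⟨1,[(11,0),(0,0),(20,0)]⟩,⟨0,[]⟩⟩,[.o ⟨false,0,⟨81,[(1,46),(0,49),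
  (3,2),(2,69),(0,19),(6,31),(4,9),(5,13),(0,8),(3,21)]⟩,⟨5,[(0,1),(2,3),(3,0),(10,1),(9,0),(4,
  0)]⟩⟩,.e ⟨false,0,⟨13,[(1,12),(0,9),(1,9),(1,0),(2,9),(12,9),(5,1),(0,10),(3,5),(0,1)]⟩,⟨1,[(0,1),
  (2,0),(2,0),(12,0)]⟩⟩ ⟨false,1,⟨2,[(1,1),(4,0),(4,0),(0,0),(20,1)]⟩,⟨5,[(0,1),(0,0),(0,3),(0,4),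
  (5,3),(5,0),(6,3),(5,0),(0,2)]⟩⟩,.a ⟨true,0,⟨4,[(2,0),(5,1),(11,0),(4,1),(6,0)]⟩,⟨0,[(4,0)]⟩⟩
  ⟨false,0,⟨17,[(1,11),(0,4),(3,5),(2,4),(8,5),(0,0),(2,4),(5,0),(4,2),(0,0)]⟩,⟨2,[(0,1),(1,0),(0,
  0),(3,0),(1,0),(12,0),(10,0)]⟩⟩ ⟨true,0,⟨17,[(1,11),(0,4),(3,5),(2,4),(8,5),(0,0),(2,4),(5,0),(4,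
  2),(0,0)]⟩,⟨5,[(0,1),(0,0),(0,3),(0,4),(5,3),(5,0),(6,3),(5,0),(0,2)]⟩⟩,.o ⟨false,0,⟨0,[(19,0)]⟩,
  ⟨0,[(5,0)]⟩⟩]⟩)))) (.R ⟨2,true,false,true,[0,1],[0,1,1],[0,1,1],(⟨0,[]⟩,⟨0,[]⟩),(⟨0,[(18,0),(1,
  0)]⟩,⟨0,[(6,0)]⟩),⟨0,[]⟩,.k,.k,.k,.k,.k,.k,⟨false,0,⟨0,[(0,0),(0,0),(24,0),(1,0)]⟩,⟨1,[(4,0),(0,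
  0),(7,1),(16,0)]⟩⟩,⟨true,0,⟨0,[(1,0)]⟩,⟨0,[(16,0)]⟩⟩,⟨false,0,⟨0,[(28,0)]⟩,⟨0,[(27,0),(2,0)]⟩⟩,
  ⟨true,0,⟨0,[(13,0)]⟩,⟨3,[(0,2),(2,0),(12,0),(9,1)]⟩⟩,⟨true,0,⟨0,[(32,0)]⟩,⟨0,[]⟩⟩,⟨false,1,⟨0,
  [(13,0),(13,0),(2,0)]⟩,⟨0,[(0,0)]⟩⟩,[]⟩))

theorem ok20 : chk K t20 r3 = true := by decide +kernel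

noncomputable def t22 : Tre :=
  (.S ⟨1,0,[0,1,-1,-2],[1,-1],[1,0,-1,-1],(⟨0,[(22,0)]⟩,⟨0,[(23,0)]⟩),⟨0,[(6,0),(0,0)]⟩,.k,(.r (-1)
  ⟨0,[(28,1),(0,0)]⟩ ⟨2,[(0,1),(0,0),(0,0),(2,0),(9,2),(11,0)]⟩),⟨true,0,⟨0,[]⟩,⟨0,[(32,0)]⟩⟩,
  ⟨false,0,⟨0,[(28,0)]⟩,⟨0,[(27,0),(2,0)]⟩⟩,⟨false,1,⟨0,[(27,0),(2,0)]⟩,⟨0,[(28,0)]⟩⟩,⟨true,0,⟨0,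
  [(32,0)]⟩,⟨0,[]⟩⟩,[.o ⟨false,0,⟨0,[(28,1),(3,0)]⟩,⟨0,[(0,0)]⟩⟩,.o ⟨false,0,⟨0,[(28,1)]⟩,⟨0,[(4,
  0)]⟩⟩,.o ⟨false,0,⟨1,[(15,0),(0,0)]⟩,⟨9,[(8,0),(0,0),(15,1),(3,4)]⟩⟩,.a ⟨true,(-1),⟨0,[(2,0),(12,
  0)]⟩,⟨0,[(29,0)]⟩⟩ ⟨true,1,⟨0,[(28,0),(0,0)]⟩,⟨0,[(1,0)]⟩⟩ ⟨false,1,⟨0,[(28,1),(0,0)]⟩,⟨0,[(0,0),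
  (1,0),(12,0)]⟩⟩]⟩)

theorem ok22 : chk K t22 l14 = true := by decide +kernel

noncomputable def t23 : Tre :=
  (.R ⟨2,true,false,true,[0,1],[1,-1],[1,1,1,1],(⟨0,[]⟩,⟨0,[]⟩),(⟨0,[(23,0)]⟩,⟨0,[(24,0)]⟩),⟨0,[]⟩,
  .k,.k,.k,(.r 0 ⟨0,[(2,0),(25,0),(2,0)]⟩ ⟨9,[(1,9),(7,0),(0,0),(15,1),(3,9),(0,4)]⟩),.k,.k,⟨false,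
  0,⟨0,[(2,0),(24,0),(3,0)]⟩,⟨9,[(1,9),(7,0),(0,0),(15,1),(3,9),(0,4)]⟩⟩,⟨true,(-1),⟨0,[(3,0),(12,
  0)]⟩,⟨9,[(9,0),(0,0),(15,1),(3,4)]⟩⟩,⟨false,0,⟨0,[]⟩,⟨1,[(9,0),(0,0),(20,0)]⟩⟩,⟨true,(-1),⟨0,[(1,
  0)]⟩,⟨0,[(5,0)]⟩⟩,⟨true,0,⟨0,[(28,0)]⟩,⟨0,[(29,0)]⟩⟩,⟨false,0,⟨3,[(1,1),(7,0),(0,0),(2,1),(2,1),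
  (14,0)]⟩,⟨0,[(0,0)]⟩⟩,[]⟩)

theorem ok23 : chk K t23 l15 = true := by decide +kernel

noncomputable def t24 : Tre :=
  (.R ⟨1,false,false,true,[1,-1],[0,1],[0,0,-1,-2],(⟨0,[(24,0)]⟩,⟨0,[(25,0)]⟩),(⟨0,[(25,0)]⟩,⟨0,
  [(24,0)]⟩),⟨0,[(8,0),(0,0)]⟩,.k,.k,(.r (-1) ⟨0,[(0,0),(33,0)]⟩ ⟨0,[(3,0),(25,0),(2,0)]⟩),(.r (-1)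
  ⟨0,[(0,0),(33,0)]⟩ ⟨0,[(3,0),(25,0),(2,0)]⟩),(.r (-1) ⟨12,[(0,15),(1,4),(23,3),(0,0),(0,2)]⟩ ⟨1,
  [(3,2),(25,2),(2,2)]⟩),.k,⟨true,1,⟨11,[(0,12),(1,4),(14,0),(0,0),(8,0),(4,1)]⟩,⟨0,[(3,1),(24,0),
  (3,0)]⟩⟩,⟨false,2,⟨9,[(10,0),(0,0),(15,1),(3,14)]⟩,⟨0,[(4,0),(12,0)]⟩⟩,⟨true,0,⟨0,[(30,0)]⟩,⟨0,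
  [(29,0)]⟩⟩,⟨false,1,⟨0,[(6,0)]⟩,⟨0,[(2,0),(29,0)]⟩⟩,⟨false,1,⟨1,[(10,0),(0,0),(20,0)]⟩,⟨0,[]⟩⟩,
  ⟨false,1,⟨7,[(3,5),(2,2),(20,0),(0,11),(3,8)]⟩,⟨11,[(0,0),(1,16),(14,0),(0,0),(8,0),(4,13)]⟩⟩,[.e
  ⟨false,1,⟨0,[(0,0),(33,0)]⟩,⟨0,[(3,0),(24,0),(3,0)]⟩⟩ ⟨false,1,⟨10,[(6,0),(19,0),(0,1),(0,8),(2,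
  5)]⟩,⟨3,[(2,1),(1,0),(2,0),(9,2),(14,2)]⟩⟩,.o ⟨false,1,⟨49,[(6,24),(3,13),(0,13),(15,4),(4,0),(1,
  1)]⟩,⟨0,[(30,0)]⟩⟩,.o ⟨false,0,⟨1,[(17,0),(0,0)]⟩,⟨9,[(10,0),(0,0),(15,1),(3,4)]⟩⟩,.a ⟨true,(-1),
  ⟨0,[(4,0),(12,0)]⟩,⟨0,[(31,0)]⟩⟩ ⟨false,1,⟨0,[(0,0)]⟩,⟨0,[(3,0),(25,0),(2,0)]⟩⟩ ⟨true,1,⟨10,[(6,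
  0),(19,0),(0,1),(0,8),(2,5)]⟩,⟨11,[(2,5),(1,10),(12,11),(0,0),(8,0),(4,2)]⟩⟩]⟩)

theorem ok24 : chk K t24 l16 = true := by decide +kernel

noncomputable def t25 : Tre :=
  (.R ⟨2,true,false,false,[0,1],[0,1,1],[1,0,1,1],(⟨0,[]⟩,⟨0,[]⟩),(⟨0,[(21,0),(1,0)]⟩,⟨0,[(9,0)]⟩),
  ⟨0,[]⟩,.k,.k,.k,.k,.k,.k,⟨true,0,⟨0,[(0,0),(17,0),(10,0),(3,0)]⟩,⟨5,[(5,4),(10,5),(2,0),(8,0),(4,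
  2)]⟩⟩,⟨false,1,⟨0,[(18,0),(13,0)]⟩,⟨27,[(5,10),(2,2),(6,10),(12,4),(4,0),(1,1)]⟩⟩,⟨true,0,⟨0,[]⟩,
  ⟨0,[(35,0)]⟩⟩,⟨false,1,⟨0,[(16,0),(16,0)]⟩,⟨3,[(0,2),(5,0),(0,0),(7,0),(17,1)]⟩⟩,⟨false,1,⟨0,[(30,
  0),(2,0)]⟩,⟨0,[(31,0)]⟩⟩,⟨true,1,⟨0,[(16,0),(13,0),(2,0)]⟩,⟨0,[(0,0)]⟩⟩,[]⟩)

theorem ok25 : chk K t25 l17 = true := by decide +kernel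

noncomputable def t26 : Tre :=
  (.R ⟨2,true,false,false,[0,1],[0,0,1],[0,0,1],(⟨0,[]⟩,⟨0,[]⟩),(⟨0,[(22,0)]⟩,⟨0,[(21,0)]⟩),⟨0,[]⟩,
  .k,.k,.k,.k,.k,.k,⟨false,1,⟨19,[(4,9),(2,19),(4,0),(0,0),(15,1),(3,9),(0,14)]⟩,⟨5,[(0,5),(5,1),(2,
  0),(6,1),(12,0),(0,5)]⟩⟩,⟨true,0,⟨0,[(19,0)]⟩,⟨27,[(6,10),(2,2),(6,10),(12,4),(4,0),(1,1)]⟩⟩,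
  ⟨true,0,⟨0,[(32,0)]⟩,⟨0,[(31,0)]⟩⟩,⟨false,0,⟨0,[(0,0)]⟩,⟨3,[(7,1),(0,0),(0,0),(8,1),(14,0),(0,
  1)]⟩⟩,⟨false,1,⟨1,[(12,0),(0,0),(20,0)]⟩,⟨0,[]⟩⟩,⟨true,0,⟨8,[(0,4),(0,0),(0,0),(14,2),(12,1)]⟩,⟨0,
  [(18,0)]⟩⟩,[]⟩)

theorem ok26 : chk K t26 l18 = true := by decide +kernel


end Helper25.S1T.Ymp_1cP2
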