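import Pool.Agent.Helper25.S1T.Ymp_1cP3_q

set_option autoImplicit false
set_option linter.all false

namespace Helper25.S1T.Ymp_1cP3

open Helper25.KG Helper25.KW Helper55.KE Helper11.CT

noncomputable def t36 : Tre :=
  (.Q [0,-1,0,-1,1,0,1,1,-1,0,1,-1] (.p true [0,0,1] [0,0,0,0,1] (⟨0,[(28,0)]⟩,⟨0,[(27,0)]⟩) .k 2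
  (⟨0,[(21,0)]⟩,⟨0,[(20,0)]⟩) .k (.r (-1) ⟨0,[(11,0),(11,0),(17,0)]⟩ ⟨2,[(8,1),(15,0),(0,0),(7,
  0)]⟩)) (.Q [0,-2,0,0,1,0,0,0,-1,0,0,-1] (.p false [0,0,0,0,1] [] (⟨0,[(22,0)]⟩,⟨0,[(21,0)]⟩) .k 0
  (⟨0,[]⟩,⟨0,[]⟩) .k .k) (.Q [0,1,-2,0,0,0,-1,0,1,0,-1,1] (.p false [0,0,1] [0,0,0,0,1] (⟨0,[(30,
  0)]⟩,⟨0,[(29,0)]⟩) .k 2 (⟨0,[(23,0)]⟩,⟨0,[(22,0)]⟩) .k (.r (-1) ⟨1,[(1,0),(5,0),(5,0),(7,0),(21,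
  0)]⟩ ⟨2,[(10,1),(15,0),(0,0),(7,0)]⟩)) (.R ⟨0,false,false,true,[0,-1,1],[0,0,0,0,1],[1],(⟨0,[(20,
  0)]⟩,⟨22,[(21,2),(0,2),(7,22),(1,4),(4,5),(0,2)]⟩),(⟨0,[(24,0)]⟩,⟨0,[(23,0)]⟩),⟨2,[(4,0),(14,1),
  (12,0),(4,2)]⟩,.k,.k,(.r (-1) ⟨0,[(0,0),(1,0),(39,0)]⟩ ⟨5,[(9,3),(0,0),(5,3),(10,0),(0,1),(0,
  0)]⟩),(.x 0 ⟨0,[(1,0),(2,0),(4,0),(14,0),(1,0),(10,0),(4,0)]⟩ ⟨5,[(0,1),(17,1),(1,5),(1,3),(0,5),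
  (15,3),(3,0),(0,0)]⟩),.k,.k,⟨true,1,⟨0,[(44,0)]⟩,⟨0,[(9,0),(4,0),(11,0),(15,0)]⟩⟩,⟨false,1,⟨5,[(0,
  1),(17,1),(3,3),(16,0),(3,3),(0,0)]⟩,⟨0,[(2,0),(6,0)]⟩⟩,⟨false,0,⟨6,[(3,1),(5,0),(0,5),(27,0)]⟩,
  ⟨6,[(0,2),(1,5),(15,1),(3,2),(3,0),(9,0),(2,0),(2,0)]⟩⟩,⟨true,(-1),⟨4,[(0,2),(8,4),(12,1),(6,1),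
  (6,0)]⟩,⟨0,[(2,0)]⟩⟩,⟨false,0,⟨0,[]⟩,⟨0,[]⟩⟩,⟨false,0,⟨0,[]⟩,⟨0,[]⟩⟩,[.o ⟨false,0,⟨9,[(0,1),(8,4),
  (12,7),(3,4),(2,2),(6,3),(2,4),(2,4)]⟩,⟨0,[(1,0)]⟩⟩,.e ⟨false,1,⟨1,[(43,0),(0,0)]⟩,⟨0,[(46,0)]⟩⟩
  ⟨false,0,⟨0,[(0,0)]⟩,⟨1,[(1,0),(19,0),(6,1)]⟩⟩,.a ⟨true,0,⟨0,[(28,0)]⟩,⟨0,[(25,0)]⟩⟩ ⟨true,0,⟨0,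
  []⟩,⟨0,[(46,0)]⟩⟩ ⟨false,0,⟨4,[(0,2),(21,1),(6,1),(6,0)]⟩,⟨0,[(1,0),(26,0)]⟩⟩,.e ⟨false,1,⟨1,[(43,
  0),(0,0)]⟩,⟨1,[(28,0),(0,0)]⟩⟩ ⟨false,0,⟨0,[(0,0)]⟩,⟨1,[(1,1),(26,2),(0,0)]⟩⟩]⟩) (.R ⟨0,false,
  false,true,[0,-1,1],[0,0,0,0,1],[1],(⟨0,[(20,0)]⟩,⟨22,[(21,2),(0,2),(7,22),(1,4),(4,5),(0,2)]⟩),
  (⟨0,[(24,0)]⟩,⟨0,[(23,0)]⟩),⟨2,[(4,0),(14,1),(12,0),(4,2)]⟩,.k,.k,(.r (-1) ⟨0,[(2,0),(2,0),(2,0),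
  (5,0),(7,0)]⟩ ⟨5,[(9,3),(0,0),(5,3),(10,0),(0,1),(0,0)]⟩),(.x 0 ⟨81,[(0,81),(3,81),(0,21),(2,22),
  (0,0),(14,81),(7,5),(3,18),(0,79),(1,0),(0,19)]⟩ ⟨1,[(6,0),(7,0),(3,0),(1,1),(1,1),(0,1),(15,
  0)]⟩),.k,.k,⟨true,1,⟨0,[(44,0)]⟩,⟨0,[(9,0),(4,0),(11,0),(15,0)]⟩⟩,⟨false,1,⟨0,[(6,0),(11,0),(3,
  0)]⟩,⟨0,[(2,0),(6,0)]⟩⟩,⟨false,0,⟨6,[(3,1),(5,0),(0,5),(27,0)]⟩,⟨9,[(2,5),(2,1),(0,2),(7,4),(3,4),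
  (3,5),(3,5),(12,0)]⟩⟩,⟨true,(-1),⟨3,[(5,0),(2,0),(0,3),(4,3),(7,3),(13,0),(3,0)]⟩,⟨0,[(2,0)]⟩⟩,
  ⟨false,0,⟨0,[]⟩,⟨0,[]⟩⟩,⟨false,0,⟨0,[]⟩,⟨0,[]⟩⟩,[.o ⟨false,0,⟨1,[(9,0),(4,0),(7,1),(3,0),(9,0),(2,
  0),(2,0)]⟩,⟨0,[(1,0)]⟩⟩,.a ⟨true,0,⟨0,[(22,0),(23,0)]⟩,⟨0,[(0,0),(2,0),(1,0),(2,0),(5,0),(23,0),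
  (3,1)]⟩⟩ ⟨false,1,⟨1,[(43,0),(0,0)]⟩,⟨0,[(46,0)]⟩⟩ ⟨true,0,⟨3,[(5,0),(2,0),(5,3),(7,3),(13,0),(3,
  0)]⟩,⟨0,[(0,0)]⟩⟩,.a ⟨true,0,⟨0,[(28,0)]⟩,⟨0,[(25,0)]⟩⟩ ⟨true,0,⟨0,[]⟩,⟨0,[(46,0)]⟩⟩ ⟨false,0,⟨3,
  [(5,0),(2,0),(5,3),(7,3),(13,0),(3,0)]⟩,⟨7,[(0,5),(0,0),(5,1),(13,0),(22,3)]⟩⟩,.a ⟨true,0,⟨1,[(28,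
  2),(0,0)]⟩,⟨0,[(3,0),(1,0),(2,0),(5,0),(23,0),(3,1)]⟩⟩ ⟨false,1,⟨1,[(43,0),(0,0)]⟩,⟨1,[(28,0),(0,
  0)]⟩⟩ ⟨true,0,⟨1,[(5,0),(2,0),(5,1),(7,1),(13,0),(3,0)]⟩,⟨0,[(0,0)]⟩⟩]⟩)) (.Q [0,0,0,0,0,-1,0,0,0,
  0,0,1] (.ed false [1,-1,0,0,1] .k) (.S ⟨1,0,[0,2,0,-1],[0,0,0,0,1],[1,1],(⟨0,[(24,0)]⟩,⟨0,[(23,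
  0)]⟩),⟨0,[(0,0)]⟩,.k,(.r 0 ⟨2,[(1,0),(0,0),(2,0),(8,0),(21,0)]⟩ ⟨2,[(10,0),(5,0),(0,0),(3,0),(0,
  0)]⟩),⟨true,0,⟨0,[]⟩,⟨1,[(1,0),(19,0)]⟩⟩,⟨false,0,⟨0,[(42,0)]⟩,⟨3,[(16,1),(26,0),(0,0)]⟩⟩,⟨false,
  1,⟨3,[(16,1),(26,0),(0,0)]⟩,⟨0,[(42,0)]⟩⟩,⟨true,0,⟨1,[(1,0),(19,0)]⟩,⟨0,[]⟩⟩,[.e ⟨false,0,⟨3,[(5,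
  0),(2,0),(27,0),(3,0)]⟩,⟨1,[(21,0),(0,0),(21,0)]⟩⟩ ⟨false,0,⟨0,[(36,0),(5,0)]⟩,⟨5,[(3,1),(34,0),
  (5,4)]⟩⟩,.o ⟨false,0,⟨1,[(1,0),(20,0),(16,0),(2,1)]⟩,⟨2,[(2,2),(0,0),(5,0),(2,1),(12,0)]⟩⟩,.e
  ⟨false,0,⟨0,[]⟩,⟨1,[(21,0),(0,0),(21,0)]⟩⟩ ⟨false,0,⟨1,[(1,0),(19,0),(20,1)]⟩,⟨5,[(3,1),(34,0),(5,
  4)]⟩⟩,.a ⟨true,0,⟨1,[(22,1),(5,0),(0,0)]⟩,⟨0,[(2,0),(0,0),(1,0),(2,0),(0,0),(4,0),(23,0),(3,1)]⟩⟩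
  ⟨true,0,⟨3,[(5,0),(2,0),(27,0),(3,0)]⟩,⟨1,[(28,0),(0,0)]⟩⟩ ⟨false,0,⟨2,[(1,0),(0,0),(2,0),(8,0),
  (21,0)]⟩,⟨11,[(3,1),(6,5),(6,5),(20,0),(5,4)]⟩⟩]⟩) (.R ⟨0,false,false,true,[0,1,0,0,-1],[1,0,0,0,
  -1],[0,0,1,1],(⟨0,[(0,0)]⟩,⟨0,[(24,0),(9,0)]⟩),(⟨0,[(23,0)]⟩,⟨0,[(24,0)]⟩),⟨0,[(24,0)]⟩,(.r (-1)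
  ⟨2,[(10,0),(5,0),(0,0),(3,0),(0,0)]⟩ ⟨2,[(1,0),(0,0),(2,0),(8,0),(21,0)]⟩),.k,.k,.k,.k,.k,⟨true,0,
  ⟨1,[(9,0),(7,0)]⟩,⟨0,[(42,0)]⟩⟩,⟨false,0,⟨2,[(21,0),(0,0),(9,0),(1,0),(3,0)]⟩,⟨1,[(39,0),(3,0)]⟩⟩,
  ⟨true,0,⟨1,[(1,0),(19,0)]⟩,⟨0,[]⟩⟩,⟨false,0,⟨8,[(21,3),(0,3),(9,0),(1,0),(3,3),(3,8)]⟩,⟨2,[(3,0),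
  (35,0),(4,0)]⟩⟩,⟨false,0,⟨0,[]⟩,⟨0,[]⟩⟩,⟨false,0,⟨0,[]⟩,⟨0,[]⟩⟩,[.a ⟨true,0,⟨0,[(2,0),(6,0),(15,
  0)]⟩,⟨0,[(22,0)]⟩⟩ ⟨true,0,⟨1,[(9,0),(7,0)]⟩,⟨0,[(42,0)]⟩⟩ ⟨false,0,⟨2,[(21,0),(0,0),(9,0),(1,0),
  (3,0)]⟩,⟨1,[(39,0),(3,0)]⟩⟩,.o ⟨false,1,⟨0,[(2,0),(9,0)]⟩,⟨1,[(1,0),(20,0),(16,0)]⟩⟩,.o ⟨false,1,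
  ⟨2,[(2,2),(0,0),(1,1),(2,0),(0,1),(4,2),(24,0),(0,0)]⟩,⟨1,[(22,1),(5,0),(0,0)]⟩⟩,.o ⟨false,1,⟨12,
  [(2,8),(0,0),(1,1),(3,6),(4,8),(6,3),(17,5),(0,2)]⟩,⟨0,[(22,0)]⟩⟩]⟩))) (.I [0,0,1,0,0,1,1,0,-1]
  (.I [1,-1,-1,-1,1,0,0,1] (.N [0,-1,1,0,-1] (-1) ⟨0,[(0,0)]⟩ ⟨0,[(9,0)]⟩ (.x 0 ⟨0,[(1,0)]⟩ ⟨2,[(0,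
  0),(1,0),(15,0),(1,2),(1,1),(0,2),(15,1),(3,0)]⟩)) (.Q [0,0,-1,0,0,0,0,0,-1,1,0,-1] (.p false [0,
  0,0,0,1] [1] (⟨0,[(24,0)]⟩,⟨0,[(23,0)]⟩) .k 1 (⟨0,[]⟩,⟨0,[]⟩) .k .k) (.Q [0,0,0,0,0,0,0,0,0,0,-1,
  1] (.ed false [1,0,-1,0,1] (.r 0 ⟨2,[(12,1),(15,0),(0,0),(7,0)]⟩ ⟨0,[(15,0),(11,0),(17,0)]⟩)) (.S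
  ⟨1,0,[0,2,0,-1],[0,0,0,0,1],[1,1],(⟨0,[(26,0)]⟩,⟨0,[(25,0)]⟩),⟨0,[(0,0),(21,0)]⟩,.k,(.r 0 ⟨2,[(7,
  0),(8,0),(11,0),(9,0),(5,0)]⟩ ⟨2,[(12,0),(5,0),(0,0),(3,0),(0,0)]⟩),⟨true,0,⟨0,[]⟩,⟨0,[(48,0)]⟩⟩,
  ⟨false,0,⟨0,[(44,0)]⟩,⟨3,[(18,1),(26,0),(0,0)]⟩⟩,⟨false,1,⟨3,[(18,1),(26,0),(0,0)]⟩,⟨0,[(44,0)]⟩⟩,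
  ⟨true,0,⟨0,[(48,0)]⟩,⟨0,[]⟩⟩,[.e ⟨false,0,⟨3,[(7,0),(2,0),(27,0),(3,0)]⟩,⟨1,[(23,0),(0,0),(21,
  0)]⟩⟩ ⟨false,0,⟨0,[(38,0),(5,0)]⟩,⟨5,[(5,1),(34,0),(5,4)]⟩⟩,.o ⟨false,0,⟨1,[(4,0),(19,0),(3,0),
  (12,0),(2,2)]⟩,⟨13,[(1,13),(3,1),(5,0),(0,5),(6,6),(21,5)]⟩⟩,.e ⟨false,0,⟨0,[]⟩,⟨1,[(23,0),(0,0),
  (21,0)]⟩⟩ ⟨false,0,⟨0,[(44,0),(3,0)]⟩,⟨5,[(5,1),(34,0),(5,4)]⟩⟩,.a ⟨true,0,⟨1,[(24,1),(5,0),(0,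
  0)]⟩,⟨0,[(1,0)]⟩⟩ ⟨true,0,⟨3,[(7,0),(2,0),(27,0),(3,0)]⟩,⟨1,[(30,0),(0,0)]⟩⟩ ⟨false,0,⟨2,[(7,0),
  (8,0),(11,0),(9,0),(5,0)]⟩,⟨11,[(5,1),(6,5),(6,5),(20,0),(5,4)]⟩⟩]⟩) (.Q [0,0,0,0,0,1,0,0,0,0,0,
  -1] (.ed true [1,-1,0,0,1] .k) (.R ⟨0,false,false,true,[0,1,0,0,-1],[1,0,0,0,-1],[1],(⟨0,[(0,0)]⟩,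
  ⟨0,[(27,0),(9,0)]⟩),(⟨0,[(26,0)]⟩,⟨0,[(27,0)]⟩),⟨0,[(27,0)]⟩,(.r (-1) ⟨2,[(13,0),(5,0),(0,0),(3,
  0),(0,0)]⟩ ⟨2,[(8,0),(8,0),(11,0),(9,0),(5,0)]⟩),.k,.k,.k,.k,.k,⟨true,0,⟨0,[]⟩,⟨1,[(31,0),(0,
  0)]⟩⟩,⟨false,0,⟨2,[(24,0),(0,0),(9,0),(1,0),(3,0)]⟩,⟨1,[(42,0),(3,0)]⟩⟩,⟨true,0,⟨2,[(8,0),(8,0),
  (11,0),(9,0),(5,0)]⟩,⟨1,[(12,0),(7,0)]⟩⟩,⟨false,0,⟨8,[(24,3),(0,3),(9,0),(1,0),(3,3),(3,8)]⟩,⟨2,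
  [(6,0),(35,0),(4,0)]⟩⟩,⟨false,0,⟨0,[]⟩,⟨0,[]⟩⟩,⟨false,0,⟨0,[]⟩,⟨0,[]⟩⟩,[.a ⟨true,0,⟨24,[(1,5),(0,
  14),(1,5),(2,1),(15,1),(0,3),(7,5),(8,3),(6,2)]⟩,⟨0,[(25,0)]⟩⟩ ⟨true,0,⟨0,[]⟩,⟨1,[(31,0),(0,0)]⟩⟩
  ⟨false,0,⟨2,[(24,0),(0,0),(9,0),(1,0),(3,0)]⟩,⟨1,[(42,0),(3,0)]⟩⟩,.o ⟨false,1,⟨21,[(1,5),(0,11),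
  (1,5),(2,1),(15,1),(0,3),(7,5),(9,6),(4,10)]⟩,⟨1,[(5,0),(19,0),(3,0),(12,0),(2,0)]⟩⟩,.o ⟨false,1,
  ⟨0,[(2,0),(39,0)]⟩,⟨1,[(25,1),(5,0),(0,0)]⟩⟩,.o ⟨false,1,⟨10,[(1,2),(0,5),(1,2),(2,0),(15,0),(0,
  1),(7,2),(9,8)]⟩,⟨0,[(25,0)]⟩⟩]⟩) (.S ⟨1,0,[0,2,0,-1],[0,0,0,0,1],[1,1],(⟨0,[(27,0)]⟩,⟨0,[(26,
  0)]⟩),⟨0,[(0,0)]⟩,.k,(.r 0 ⟨2,[(8,0),(8,0),(11,0),(9,0),(5,0)]⟩ ⟨2,[(13,0),(5,0),(0,0),(3,0),(0,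
  0)]⟩),⟨true,0,⟨0,[]⟩,⟨0,[(49,0)]⟩⟩,⟨false,0,⟨0,[(45,0)]⟩,⟨3,[(19,1),(26,0),(0,0)]⟩⟩,⟨false,1,⟨3,
  [(19,1),(26,0),(0,0)]⟩,⟨0,[(45,0)]⟩⟩,⟨true,0,⟨0,[(49,0)]⟩,⟨0,[]⟩⟩,[.e ⟨false,0,⟨3,[(8,0),(2,0),
  (27,0),(3,0)]⟩,⟨1,[(24,0),(0,0),(21,0)]⟩⟩ ⟨false,0,⟨0,[(39,0),(5,0)]⟩,⟨5,[(6,1),(34,0),(5,4)]⟩⟩,
  .o ⟨false,0,⟨1,[(5,0),(19,0),(3,0),(12,0),(2,2)]⟩,⟨54,[(1,2),(0,49),(1,2),(1,10),(0,0),(5,21),(6,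
  21),(2,0),(0,1),(7,2),(9,19)]⟩⟩,.e ⟨false,0,⟨0,[]⟩,⟨1,[(24,0),(0,0),(21,0)]⟩⟩ ⟨false,0,⟨0,[(45,0),
  (3,0)]⟩,⟨5,[(6,1),(34,0),(5,4)]⟩⟩,.a ⟨true,0,⟨1,[(25,1),(5,0),(0,0)]⟩,⟨0,[(2,0)]⟩⟩ ⟨true,0,⟨3,[(8,
  0),(2,0),(27,0),(3,0)]⟩,⟨1,[(31,0),(0,0)]⟩⟩ ⟨false,0,⟨2,[(8,0),(8,0),(11,0),(9,0),(5,0)]⟩,⟨11,[(6,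
  1),(6,5),(6,5),(20,0),(5,4)]⟩⟩]⟩))) (.Q [0,0,0,0,0,0,0,0,-1,1,0,-1] (.p false [0,0,0,0,1] [1] (⟨0,
  [(25,0)]⟩,⟨0,[(24,0)]⟩) .k 1 (⟨0,[]⟩,⟨0,[]⟩) .k .k) (.Q [0,0,0,0,0,-1,0,0,0,0,0,1] (.ed false [1,
  -1,0,0,1] .k) (.S ⟨1,0,[0,0,1],[1,1,0,0,-1],[1,-1,1,1],(⟨22,[(24,2),(0,2),(0,22),(8,4),(4,5),(0,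
  2)]⟩,⟨0,[(0,0)]⟩),⟨0,[(26,0)]⟩,(.r (-1) ⟨2,[(13,0),(5,0),(0,0),(3,0),(0,0)]⟩ ⟨2,[(8,0),(8,0),(11,
  0),(9,0),(5,0)]⟩),.k,⟨true,0,⟨0,[]⟩,⟨0,[(49,0)]⟩⟩,⟨false,0,⟨0,[(45,0)]⟩,⟨3,[(19,1),(26,0),(0,
  0)]⟩⟩,⟨false,1,⟨3,[(19,1),(26,0),(0,0)]⟩,⟨0,[(45,0)]⟩⟩,⟨true,0,⟨0,[(49,0)]⟩,⟨0,[]⟩⟩,[.a ⟨true,0,
  ⟨0,[(1,0)]⟩,⟨0,[(25,0)]⟩⟩ ⟨false,1,⟨3,[(19,1),(26,0),(0,0)]⟩,⟨2,[(8,0),(8,0),(11,0),(9,0),(5,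
  0)]⟩⟩ ⟨true,0,⟨1,[(31,0),(0,0)]⟩,⟨0,[]⟩⟩,.o ⟨false,1,⟨1,[(1,1),(40,0),(4,0)]⟩,⟨9,[(2,8),(2,0),(2,
  1),(0,0),(1,2),(27,2)]⟩⟩,.o ⟨false,1,⟨1,[(1,0),(7,0),(7,0),(6,0)]⟩,⟨0,[(2,0)]⟩⟩,.e ⟨false,1,⟨5,
  [(6,1),(34,0),(5,4)]⟩,⟨0,[(45,0),(3,0)]⟩⟩ ⟨false,1,⟨1,[(24,0),(0,0),(21,0)]⟩,⟨0,[]⟩⟩]⟩) (.R ⟨0,
  false,false,true,[0,0,0,0,1],[1,-1],[0,1],(⟨0,[(27,0)]⟩,⟨0,[(26,0)]⟩),(⟨0,[(37,0)]⟩,⟨0,[(38,0)]⟩),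
  ⟨0,[(0,0)]⟩,.k,.k,(.r 0 ⟨2,[(8,0),(8,0),(11,0),(9,0),(5,0)]⟩ ⟨2,[(13,0),(5,0),(0,0),(3,0),(0,
  0)]⟩),(.r 0 ⟨16,[(12,2),(5,7),(0,2),(10,4),(0,4),(7,1)]⟩ ⟨1,[(45,1),(0,0),(0,0)]⟩),.k,.k,⟨true,0,
  ⟨1,[(12,0),(7,0)]⟩,⟨0,[(45,0)]⟩⟩,⟨false,0,⟨0,[(1,0)]⟩,⟨1,[(25,1),(16,0),(3,0)]⟩⟩,⟨false,1,⟨1,[(24,
  0),(0,0),(21,0)]⟩,⟨0,[]⟩⟩,⟨true,0,⟨0,[(1,0),(43,0)]⟩,⟨13,[(2,8),(2,4),(0,1),(2,2),(1,2),(17,1),(9,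
  2)]⟩⟩,⟨false,0,⟨0,[]⟩,⟨0,[]⟩⟩,⟨false,0,⟨0,[]⟩,⟨0,[]⟩⟩,[.o ⟨false,0,⟨0,[(45,0),(3,0)]⟩,⟨2,[(6,0),
  (35,0),(4,0)]⟩⟩,.o ⟨false,0,⟨0,[(45,0)]⟩,⟨12,[(6,0),(12,4),(19,2),(2,5),(3,0)]⟩⟩,.a ⟨true,0,⟨0,
  [(25,0)]⟩,⟨0,[(1,0)]⟩⟩ ⟨true,0,⟨0,[(49,0)]⟩,⟨0,[]⟩⟩ ⟨false,0,⟨0,[(1,0),(43,0)]⟩,⟨2,[(6,0),(18,2),
  (16,0),(4,0)]⟩⟩,.o ⟨false,0,⟨0,[(2,0)]⟩,⟨1,[(1,0),(7,0),(7,0),(6,0)]⟩⟩]⟩)) (.K ⟨0,[1,0,1,0,-1],0,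
  1,(⟨0,[(25,0),(7,0)]⟩,⟨20,[(0,13),(2,13),(1,0),(0,6),(0,2),(0,3),(1,2),(5,17),(9,6),(13,5),(5,
  0)]⟩),.k,(.r (-2) ⟨0,[(19,0),(24,1),(0,0)]⟩ ⟨0,[(2,0)]⟩),(.r (-1) ⟨0,[(19,0)]⟩ ⟨5,[(7,2),(5,0),
  (15,1),(0,1),(7,1)]⟩),.k,.k,[⟨0,[(0,0)]⟩,⟨0,[(3,0),(18,0),(2,0)]⟩,⟨2,[(0,0),(3,1),(2,0),(3,1),(4,
  2),(11,1),(12,0),(2,1)]⟩,⟨3,[(3,0),(18,0),(0,2),(1,0),(1,0),(0,3),(11,0),(5,1)]⟩]⟩)))) (.Q [0,1,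
  -2,0,-1,0,-1,0,1,0,-1,1] (.p false [0,0,1] [0,0,0,0,1] (⟨0,[(30,0)]⟩,⟨0,[(29,0)]⟩) .k 2 (⟨0,[(23,
  0)]⟩,⟨0,[(22,0)]⟩) .k (.r (-1) ⟨0,[(13,0),(11,0),(17,0)]⟩ ⟨2,[(10,1),(15,0),(0,0),(7,0)]⟩)) (.R
  ⟨0,false,false,false,[0,-1,1],[0,0,0,0,1],[1,1],(⟨0,[(20,0)]⟩,⟨22,[(21,2),(0,2),(7,22),(1,4),(4,
  5),(0,2)]⟩),(⟨0,[(24,0)]⟩,⟨0,[(23,0)]⟩),⟨2,[(4,0),(14,1),(12,0),(4,2)]⟩,.k,.k,(.r (-1) ⟨0,[(5,0),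
  (8,1),(11,1),(17,0)]⟩ ⟨5,[(9,3),(0,0),(5,3),(10,0),(0,1),(0,0)]⟩),(.x (-1) ⟨0,[(4,0),(5,0),(10,0),
  (2,0),(1,0),(10,0)]⟩ ⟨0,[(0,0),(2,2),(4,0),(0,0),(10,0),(2,0),(14,0),(3,10)]⟩),.k,.k,⟨true,0,⟨0,
  []⟩,⟨1,[(28,0),(0,0)]⟩⟩,⟨false,0,⟨13,[(0,9),(17,1),(3,3),(16,0),(3,3),(0,4)]⟩,⟨0,[(21,0),(6,0)]⟩⟩,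
  ⟨true,(-1),⟨0,[(9,0)]⟩,⟨3,[(5,1),(8,1),(3,1),(7,5),(12,0),(4,2)]⟩⟩,⟨false,(-1),⟨1,[(0,1),(8,0),(0,
  1),(6,0)]⟩,⟨0,[(21,0),(4,0),(15,0),(1,0)]⟩⟩,⟨false,0,⟨0,[]⟩,⟨0,[]⟩⟩,⟨false,0,⟨0,[]⟩,⟨0,[]⟩⟩,[.e
  ⟨false,0,⟨7,[(0,0),(4,0),(15,0),(4,0),(9,1),(3,1)]⟩,⟨1,[(21,0),(0,0),(21,0)]⟩⟩ ⟨false,(-1),⟨0,[(0,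
  0)]⟩,⟨1,[(21,2),(0,0),(5,1),(15,0)]⟩⟩,.o ⟨false,0,⟨1,[(0,1),(27,2),(0,0),(9,0),(4,0)]⟩,⟨0,[(21,
  0)]⟩⟩,.a ⟨true,0,⟨0,[(28,0)]⟩,⟨0,[(25,0)]⟩⟩ ⟨false,0,⟨0,[]⟩,⟨1,[(21,0),(0,0),(21,0)]⟩⟩ ⟨true,(-1),
  ⟨1,[(0,1),(27,0),(0,0)]⟩,⟨0,[(21,0),(6,0)]⟩⟩,.e ⟨true,0,⟨7,[(0,0),(4,0),(15,0),(4,0),(9,1),(3,
  1)]⟩,⟨1,[(28,0),(0,0)]⟩⟩ ⟨true,(-1),⟨0,[(0,0)]⟩,⟨1,[(21,1),(6,2),(0,0)]⟩⟩]⟩) (.Q [0,1,-1,0,-1,0,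
  -1,0,1,0,-1,1] (.p false [0,0,1] [0,0,0,0,1] (⟨0,[(31,0)]⟩,⟨0,[(30,0)]⟩) .k 2 (⟨0,[(24,0)]⟩,⟨0,
  [(23,0)]⟩) .k (.r (-1) ⟨0,[(14,0),(11,0),(17,0)]⟩ ⟨2,[(11,1),(15,0),(0,0),(7,0)]⟩)) (.R ⟨0,false,
  false,false,[0,-1,1],[0,0,0,0,1],[1,1],(⟨0,[(21,0)]⟩,⟨177,[(1,7),(6,5),(10,6),(3,7),(7,177),(4,
  72),(0,3),(0,34),(0,13)]⟩),(⟨0,[(25,0)]⟩,⟨0,[(24,0)]⟩),⟨2,[(5,0),(14,1),(12,0),(4,2)]⟩,.k,.k,(.r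
  (-1) ⟨0,[(6,0),(8,1),(11,1),(17,0)]⟩ ⟨1,[(1,0),(1,0),(6,0),(6,0)]⟩),(.x (-1) ⟨25,[(1,14),(4,2),(0,
  1),(2,5),(9,24),(1,10),(2,25),(1,8),(3,0),(1,2),(4,15),(1,3)]⟩ ⟨0,[(0,0),(3,0),(16,0),(2,0),(18,
  2)]⟩),.k,.k,⟨true,0,⟨0,[]⟩,⟨1,[(29,0),(0,0)]⟩⟩,⟨false,0,⟨1,[(0,1),(43,0),(0,0)]⟩,⟨17,[(1,12),(4,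
  0),(1,1),(1,1),(11,4),(4,2),(9,3)]⟩⟩,⟨true,(-1),⟨0,[(10,0)]⟩,⟨3,[(6,1),(8,1),(3,1),(7,5),(12,0),
  (4,2)]⟩⟩,⟨false,(-1),⟨6,[(0,6),(3,1),(5,0),(0,5),(27,0)]⟩,⟨0,[(22,0),(4,0),(15,0),(1,0)]⟩⟩,⟨false,
  0,⟨0,[]⟩,⟨0,[]⟩⟩,⟨false,0,⟨0,[]⟩,⟨0,[]⟩⟩,[.a ⟨true,(-1),⟨0,[(0,0),(28,0)]⟩,⟨0,[(4,0),(17,0),(16,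
  0),(3,2)]⟩⟩ ⟨false,0,⟨3,[(6,0),(2,0),(27,0),(3,0)]⟩,⟨1,[(22,0),(0,0),(21,0)]⟩⟩ ⟨true,(-1),⟨0,[(0,
  0)]⟩,⟨0,[(1,0)]⟩⟩,.o ⟨false,0,⟨1,[(0,1),(28,1),(10,0),(4,0)]⟩,⟨0,[(22,0)]⟩⟩,.a ⟨true,0,⟨0,[(29,
  0)]⟩,⟨0,[(26,0)]⟩⟩ ⟨false,0,⟨0,[]⟩,⟨1,[(22,0),(0,0),(21,0)]⟩⟩ ⟨true,(-1),⟨0,[(0,0)]⟩,⟨17,[(1,12),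
  (4,0),(1,1),(1,1),(11,4),(4,2),(9,3)]⟩⟩,.a ⟨true,0,⟨1,[(29,2),(0,0)]⟩,⟨0,[(4,0),(1,0),(2,0),(5,0),
  (23,0),(3,1)]⟩⟩ ⟨true,0,⟨3,[(6,0),(2,0),(27,0),(3,0)]⟩,⟨1,[(29,0),(0,0)]⟩⟩ ⟨false,0,⟨1,[(0,1),(43,
  0),(0,0)]⟩,⟨0,[(1,0)]⟩⟩]⟩) (.Q [0,1,1,0,0,0,2,1,1,-1,2,1] (.p true [0,0,0,0,1] [1,0,-2] (⟨0,[(25,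
  0)]⟩,⟨0,[(24,0)]⟩) .k 2 (⟨2,[(5,3),(14,1),(12,0),(4,2)]⟩,⟨0,[(32,1)]⟩) .k (.r (-1) ⟨1,[(19,1),(7,
  3),(12,0),(4,0)]⟩ ⟨13,[(4,3),(1,6),(3,1),(0,11),(0,6),(26,1)]⟩)) (.Q [0,-1,-2,0,1,0,-1,0,-1,1,-1,
  -1] (.p false [0,0,1] [1,0,0,0,-1] (⟨0,[(33,0)]⟩,⟨0,[(32,0)]⟩) .k 2 (⟨0,[(25,0)]⟩,⟨0,[(26,0)]⟩)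
  .k (.r 0 ⟨0,[(16,0),(11,0)]⟩ ⟨4,[(2,0),(6,0),(3,2),(10,0),(4,1),(16,2)]⟩)) (.Q [0,0,0,0,0,0,0,0,
  -1,1,0,-1] (.p false [0,0,0,0,1] [1] (⟨0,[(27,0)]⟩,⟨0,[(26,0)]⟩) .k 1 (⟨0,[]⟩,⟨0,[]⟩) .k .k) (.Q
  [0,0,0,0,0,0,0,0,0,1,-1,-1] (.ed true [0,0,1,0,1] (.r 0 ⟨0,[(18,0),(11,0)]⟩ ⟨4,[(4,0),(6,0),(3,2),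
  (10,0),(4,1),(16,2)]⟩)) (.Q [0,0,-1,0,0,0,0,0,1,0,0,1] (.p true [0,0,0,0,1] [] (⟨0,[(29,0)]⟩,⟨0,
  [(28,0)]⟩) .k 0 (⟨0,[]⟩,⟨0,[]⟩) .k .k) (.S ⟨1,0,[0,1,1],[0,1,0,0,1],[1,2,1,1],(⟨177,[(6,7),(6,5),
  (10,6),(3,7),(1,177),(10,72),(0,3),(0,34),(0,13)]⟩,⟨0,[(1,0),(24,0)]⟩),⟨0,[(30,0)]⟩,(.r 0 ⟨101,
  [(4,9),(1,9),(8,22),(5,42),(0,17),(10,29),(8,11),(1,4)]⟩ ⟨1,[(48,1),(0,0),(0,0)]⟩),.k,⟨false,0,⟨0,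
  []⟩,⟨1,[(27,0),(0,0),(21,0)]⟩⟩,⟨true,0,⟨0,[(48,0)]⟩,⟨0,[(47,0)]⟩⟩,⟨true,0,⟨0,[(47,0)]⟩,⟨0,[(48,
  0)]⟩⟩,⟨false,1,⟨1,[(27,0),(0,0),(21,0)]⟩,⟨0,[]⟩⟩,[.o ⟨false,0,⟨16,[(0,1),(3,8),(3,5),(2,2),(8,3),
  (3,3),(17,0),(2,5)]⟩,⟨1,[(2,1),(42,0),(4,0)]⟩⟩,.a ⟨true,0,⟨0,[(28,0)]⟩,⟨0,[(2,0)]⟩⟩ ⟨false,0,⟨0,
  [(47,0)]⟩,⟨1,[(48,1),(0,0),(0,0)]⟩⟩ ⟨true,0,⟨28,[(4,3),(1,3),(8,1),(0,1),(18,11),(8,1),(3,1),(2,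
  0)]⟩,⟨0,[]⟩⟩,.a ⟨true,0,⟨0,[(0,0)]⟩,⟨8,[(2,6),(3,1),(8,0),(16,0),(2,2),(8,0),(3,0),(2,0)]⟩⟩ ⟨true,
  (-1),⟨0,[(15,0),(4,0),(11,0)]⟩,⟨1,[(48,1),(0,0),(0,0)]⟩⟩ ⟨false,0,⟨28,[(4,3),(1,3),(8,1),(0,1),
  (18,11),(8,1),(3,1),(2,0)]⟩,⟨1,[(49,0),(0,0)]⟩⟩,.a ⟨true,0,⟨0,[(28,0)]⟩,⟨0,[(2,0)]⟩⟩ ⟨false,0,⟨0,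
  [(47,0)]⟩,⟨0,[(48,0),(1,0)]⟩⟩ ⟨true,0,⟨0,[(52,0)]⟩,⟨0,[]⟩⟩]⟩) (.I [0,0,0,0,0,-1,-1] (.I [0,0,1,0,
  0,0,0,0,-1] (.I [1,1,0,0,0,1,1,1] (.I [4,-1,0,3,0,3] (.C [(0,0),(2,0),(0,0),(3,0),(5,0),(0,0),(8,
  0),(27,0)]) (.C [(0,0),(12,0),(33,0),(0,0)])) (.C [(0,0),(12,0),(21,0),(10,0)])) (.C [(0,0),(1,0),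
  (29,0)])) (.C [(0,0),(20,0),(5,0)]))) (.Q [0,0,1,0,0,0,1,0,1,-1,1,1] (.p true [-1,0,1,0,1] [] (⟨0,
  [(0,0)]⟩,⟨0,[(28,0),(6,0)]⟩) .k 0 (⟨0,[]⟩,⟨0,[]⟩) .k (.r 0 ⟨0,[(19,0),(11,0)]⟩ ⟨4,[(5,0),(6,0),(3,
  2),(10,0),(4,1),(16,2)]⟩)) (.K ⟨0,[-1,0,1,0,1],0,0,(⟨0,[(1,0)]⟩,⟨0,[(29,0),(6,0)]⟩),.k,(.r (-1)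
  ⟨4,[(4,0),(19,2),(2,0),(4,3),(12,0),(2,4),(0,2)]⟩ ⟨6,[(9,1),(5,0),(0,5),(27,0)]⟩),(.r 0 ⟨0,[(21,
  0)]⟩ ⟨9,[(6,1),(4,4),(1,1),(3,0),(10,1),(4,3),(16,5)]⟩),.k,.k,[⟨0,[(2,0)]⟩,⟨0,[(0,0)]⟩,⟨7,[(2,7),
  (8,1),(4,0),(1,3),(14,0),(1,2)]⟩,⟨13,[(4,11),(3,0),(2,3),(2,6),(5,8),(7,0),(13,3),(2,0)]⟩]⟩) (.R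
  ⟨0,false,false,false,[-1,0,1,0,1],[0,0,0,0,1],[1,1],(⟨0,[(1,0)]⟩,⟨0,[(29,0),(6,0)]⟩),(⟨0,[(30,
  0)]⟩,⟨0,[(29,0)]⟩),⟨2,[(0,0),(6,0),(2,3),(4,1),(13,1),(2,1),(10,3),(4,1),(1,1)]⟩,.k,.k,(.r (-1)
  ⟨4,[(4,0),(19,2),(2,0),(4,3),(12,0),(2,4),(0,2)]⟩ ⟨6,[(9,1),(5,0),(0,5),(27,0)]⟩),.k,.k,.k,⟨true,
  0,⟨0,[]⟩,⟨28,[(4,3),(1,3),(8,1),(0,1),(18,11),(8,1),(3,1),(2,0)]⟩⟩,⟨false,0,⟨0,[(31,0)]⟩,⟨27,[(4,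
  5),(1,6),(6,9),(3,4),(10,0),(4,0),(11,10)]⟩⟩,⟨true,0,⟨0,[(17,0)]⟩,⟨0,[(20,0),(11,0)]⟩⟩,⟨false,0,
  ⟨11,[(3,1),(4,1),(2,0),(4,5),(0,2),(6,3),(19,2),(5,2)]⟩,⟨1,[(32,1),(12,0),(4,0)]⟩⟩,⟨false,0,⟨0,
  []⟩,⟨0,[]⟩⟩,⟨false,0,⟨0,[]⟩,⟨0,[]⟩⟩,[.o ⟨false,0,⟨6,[(4,2),(3,1),(2,0),(8,3),(7,1),(13,0),(2,1)]⟩,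
  ⟨3,[(0,1),(4,1),(39,0),(4,0)]⟩⟩,.a ⟨true,0,⟨0,[(28,0)]⟩,⟨0,[(2,0)]⟩⟩ ⟨true,0,⟨0,[]⟩,⟨28,[(4,3),(1,
  3),(8,1),(0,1),(18,11),(8,1),(3,1),(2,0)]⟩⟩ ⟨false,0,⟨0,[(31,0)]⟩,⟨27,[(4,5),(1,6),(6,9),(3,4),
  (10,0),(4,0),(11,10)]⟩⟩,.o ⟨false,1,⟨2,[(4,0),(7,0),(3,0),(11,1),(16,1)]⟩,⟨1,[(0,0),(1,0),(32,
  0)]⟩⟩,.o ⟨false,1,⟨4,[(4,1),(1,0),(9,0),(0,0),(10,3),(16,3)]⟩,⟨0,[(0,0)]⟩⟩]⟩))) (.R ⟨0,false,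
  false,true,[0,-1,1],[1,0,0,0,-1],[1],(⟨0,[(24,0)]⟩,⟨177,[(4,7),(6,5),(10,6),(3,7),(7,177),(4,72),
  (0,3),(0,34),(0,13)]⟩),(⟨0,[(27,0)]⟩,⟨0,[(28,0)]⟩),⟨2,[(8,0),(14,1),(12,0),(4,2)]⟩,.k,.k,(.r (-1)
  ⟨0,[(0,0),(0,0),(28,0),(15,1)]⟩ ⟨1,[(4,0),(1,0),(6,0),(6,0)]⟩),(.r (-1) ⟨4,[(2,0),(19,2),(2,0),(4,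
  3),(12,0),(2,4),(0,2)]⟩ ⟨6,[(7,1),(5,0),(0,5),(27,0)]⟩),.k,.k,⟨true,0,⟨0,[]⟩,⟨28,[(2,3),(1,3),(8,
  1),(0,1),(18,11),(8,1),(3,1),(2,0)]⟩⟩,⟨false,1,⟨20,[(1,15),(9,0),(10,2),(2,4),(14,7),(1,0)]⟩,⟨1,
  [(0,0),(1,0),(11,0)]⟩⟩,⟨false,0,⟨6,[(7,1),(5,0),(0,5),(27,0)]⟩,⟨13,[(0,5),(0,5),(19,3),(0,1),(7,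
  9),(12,0),(2,17),(0,2)]⟩⟩,⟨true,0,⟨3,[(1,2),(2,0),(8,3),(8,0)]⟩,⟨0,[(0,0),(29,0),(15,0)]⟩⟩,⟨false,
  0,⟨0,[]⟩,⟨0,[]⟩⟩,⟨false,0,⟨0,[]⟩,⟨0,[]⟩⟩,[.o ⟨false,1,⟨0,[(25,0)]⟩,⟨0,[(0,0)]⟩⟩,.e ⟨false,1,⟨1,
  [(47,0),(0,0)]⟩,⟨0,[(50,0)]⟩⟩ ⟨false,1,⟨0,[(1,0)]⟩,⟨3,[(0,0),(1,2),(11,0),(16,1)]⟩⟩,.a ⟨true,0,⟨0,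
  [(32,0)]⟩,⟨0,[(29,0)]⟩⟩ ⟨true,0,⟨0,[]⟩,⟨0,[(50,0)]⟩⟩ ⟨false,1,⟨3,[(1,2),(2,0),(17,0)]⟩,⟨1,[(0,0),
  (1,0),(11,0)]⟩⟩,.e ⟨false,1,⟨1,[(47,0),(0,0)]⟩,⟨28,[(2,3),(1,3),(8,1),(0,1),(18,11),(8,1),(3,1),
  (2,0)]⟩⟩ ⟨false,1,⟨0,[(1,0)]⟩,⟨3,[(0,0),(1,2),(11,2),(18,1)]⟩⟩]⟩)) (.R ⟨0,false,false,true,[0,-1,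
  1],[1,0,0,0,-1],[1],(⟨0,[(23,0)]⟩,⟨177,[(3,7),(6,5),(10,6),(3,7),(7,177),(4,72),(0,3),(0,34),(0,
  13)]⟩),(⟨0,[(26,0)]⟩,⟨0,[(27,0)]⟩),⟨2,[(7,0),(14,1),(12,0),(4,2)]⟩,.k,.k,(.r (-1) ⟨0,[(8,0),(8,1),
  (11,1),(17,0)]⟩ ⟨1,[(3,0),(1,0),(6,0),(6,0)]⟩),(.r (-1) ⟨4,[(1,0),(19,2),(2,0),(4,3),(12,0),(2,4),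
  (0,2)]⟩ ⟨6,[(6,1),(5,0),(0,5),(27,0)]⟩),.k,.k,⟨true,0,⟨0,[]⟩,⟨3,[(0,0),(2,0),(17,0)]⟩⟩,⟨false,1,
  ⟨2,[(2,1),(3,0),(1,2),(2,2),(5,2),(6,0),(3,1),(12,0)]⟩,⟨11,[(0,5),(0,1),(7,1),(3,1),(11,3),(16,0),
  (4,2)]⟩⟩,⟨false,0,⟨6,[(6,1),(5,0),(0,5),(27,0)]⟩,⟨3,[(8,1),(8,1),(3,1),(7,5),(12,0),(4,2)]⟩⟩,
  ⟨true,0,⟨0,[(2,0),(3,0),(1,0),(2,0),(0,0),(4,1),(23,0),(3,1)]⟩,⟨0,[(0,0),(7,0),(2,0),(5,0),(11,0),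
  (17,0)]⟩⟩,⟨false,0,⟨0,[]⟩,⟨0,[]⟩⟩,⟨false,0,⟨0,[]⟩,⟨0,[]⟩⟩,[.o ⟨false,1,⟨0,[(24,0)]⟩,⟨13,[(0,13),
  (5,1),(1,5),(0,7),(1,5),(5,21),(23,4),(5,8)]⟩⟩,.a ⟨true,1,⟨0,[(2,0),(25,0)]⟩,⟨0,[(0,0),(5,0),(1,
  0),(2,0),(5,0),(23,0),(3,1)]⟩⟩ ⟨false,1,⟨1,[(46,0),(0,0)]⟩,⟨7,[(0,0),(2,0),(17,0),(17,3)]⟩⟩ ⟨true,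
  1,⟨0,[(2,0),(3,0),(1,0),(2,0),(5,1),(23,0),(3,1)]⟩,⟨0,[(0,0)]⟩⟩,.a ⟨true,0,⟨0,[(31,0)]⟩,⟨0,[(28,
  0)]⟩⟩ ⟨true,0,⟨0,[]⟩,⟨7,[(0,0),(2,0),(17,0),(17,3)]⟩⟩ ⟨false,1,⟨0,[(2,0),(3,0),(1,0),(2,0),(5,1),
  (23,0),(3,1)]⟩,⟨11,[(0,5),(0,1),(7,1),(3,1),(11,3),(16,0),(4,2)]⟩⟩,.a ⟨true,0,⟨16,[(0,6),(2,9),
  (21,2),(9,0),(1,0),(3,2),(7,2)]⟩,⟨0,[(6,0),(1,0),(2,0),(5,0),(23,0),(3,1)]⟩⟩ ⟨false,1,⟨1,[(46,0),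
  (0,0)]⟩,⟨3,[(0,0),(2,0),(17,0)]⟩⟩ ⟨true,1,⟨2,[(2,1),(3,0),(1,2),(2,2),(5,2),(6,0),(3,1),(12,0)]⟩,
  ⟨0,[(0,0)]⟩⟩]⟩)) (.Q [0,-2,-2,0,2,0,0,1,-1,0,0,-1] (.p false [0,0,0,0,1] [] (⟨0,[(26,0)]⟩,⟨0,[(25,
  0)]⟩) .k 0 (⟨0,[]⟩,⟨0,[]⟩) .k .k) (.Q [0,0,0,0,0,0,0,0,0,1,-1,-1] (.ed true [0,0,1,0,1] (.r 0 ⟨0,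
  [(17,0),(11,0)]⟩ ⟨4,[(3,0),(6,0),(3,2),(10,0),(4,1),(16,2)]⟩)) (.Q [0,0,0,0,0,0,1,0,1,0,1,1] (.p
  true [0,0,1,0,1] [] (⟨0,[(28,0),(6,0)]⟩,⟨0,[(0,0)]⟩) .k 0 (⟨0,[]⟩,⟨0,[]⟩) .k (.r 0 ⟨0,[(18,0),(11,
  0)]⟩ ⟨4,[(4,0),(6,0),(3,2),(10,0),(4,1),(16,2)]⟩)) (.R ⟨1,false,false,false,[0,0,1,0,1],[0,0,0,0,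
  1],[1,1,0,0,0,0,0,1],(⟨0,[(29,0),(6,0)]⟩,⟨0,[(1,0)]⟩),(⟨0,[(29,0)]⟩,⟨0,[(28,0)]⟩),⟨0,[(25,0),(3,
  0)]⟩,.k,.k,(.r (-1) ⟨20,[(2,5),(19,6),(0,3),(3,5),(3,7),(9,15),(2,1),(2,27)]⟩ ⟨6,[(8,1),(5,0),(0,
  5),(27,0)]⟩),.k,.k,.k,⟨false,1,⟨6,[(2,2),(20,1),(3,2),(3,3),(9,0),(2,0)]⟩,⟨0,[(16,0)]⟩⟩,⟨true,0,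
  ⟨0,[(19,0)]⟩,⟨0,[(33,0)]⟩⟩,⟨true,0,⟨0,[]⟩,⟨0,[(51,0)]⟩⟩,⟨true,0,⟨53,[(3,7),(3,7),(2,3),(4,15),(7,
  5),(8,17),(11,6),(4,0)]⟩,⟨0,[(31,0)]⟩⟩,⟨false,1,⟨3,[(21,1),(26,0),(0,0)]⟩,⟨0,[(47,0)]⟩⟩,⟨true,0,
  ⟨0,[(17,0)]⟩,⟨0,[(31,0),(15,0)]⟩⟩,[.o ⟨false,0,⟨1,[(7,0),(19,0),(3,0),(12,0),(2,0)]⟩,⟨5,[(2,0),(0,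
  1),(0,1),(0,0),(25,0),(12,0)]⟩⟩,.a ⟨true,0,⟨0,[(27,0)]⟩,⟨6,[(3,4),(0,1),(9,0),(0,1),(15,7),(11,0),
  (3,0)]⟩⟩ ⟨false,1,⟨6,[(2,2),(20,1),(3,2),(3,3),(9,0),(2,0)]⟩,⟨0,[(16,0)]⟩⟩ ⟨true,0,⟨0,[(19,0)]⟩,
  ⟨0,[(33,0)]⟩⟩,.a ⟨true,0,⟨0,[(0,0)]⟩,⟨11,[(3,9),(1,1),(8,0),(5,0),(10,9),(2,3),(8,0),(3,1)]⟩⟩
  ⟨true,0,⟨0,[(19,0),(11,0)]⟩,⟨0,[(16,0)]⟩⟩ ⟨false,0,⟨0,[(19,0)]⟩,⟨2,[(0,0),(4,0),(6,0),(36,0)]⟩⟩,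
  .a ⟨true,0,⟨1,[(0,1),(32,0),(0,0)]⟩,⟨0,[(3,0),(27,0)]⟩⟩ ⟨false,1,⟨6,[(2,2),(20,1),(3,2),(3,3),(9,
  0),(2,0)]⟩,⟨0,[(15,0)]⟩⟩ ⟨true,0,⟨3,[(10,0),(2,0),(5,3),(21,0),(3,0)]⟩,⟨0,[(33,0)]⟩⟩]⟩) (.R ⟨0,
  false,false,true,[0,1,0,0,-1],[1,0,0,0,-1],[0,0,1,1],(⟨8,[(0,8),(5,8),(2,8),(0,1),(0,0),(2,3),(0,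
  10),(15,16),(10,11),(0,1),(5,4)]⟩,⟨0,[(29,0),(9,0)]⟩),(⟨0,[(28,0)]⟩,⟨0,[(29,0)]⟩),⟨0,[(29,0)]⟩,
  (.r (-1) ⟨4,[(5,0),(15,1),(0,0),(4,0),(4,0),(16,0)]⟩ ⟨2,[(10,0),(8,0),(11,0),(9,0),(5,0)]⟩),.k,.k,
  .k,.k,.k,⟨true,0,⟨1,[(14,0),(7,0)]⟩,⟨0,[(47,0)]⟩⟩,⟨false,0,⟨142,[(5,23),(6,17),(10,20),(3,23),(9,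
  37),(1,37),(1,11),(1,41)]⟩,⟨1,[(44,0),(3,0)]⟩⟩,⟨true,0,⟨0,[(51,0)]⟩,⟨0,[]⟩⟩,⟨false,0,⟨142,[(5,31),
  (6,23),(10,27),(3,31),(9,2),(1,2),(1,15),(1,55),(3,142)]⟩,⟨2,[(8,0),(35,0),(4,0)]⟩⟩,⟨false,0,⟨0,
  []⟩,⟨0,[]⟩⟩,⟨false,0,⟨0,[]⟩,⟨0,[]⟩⟩,[.a ⟨true,0,⟨38,[(0,8),(2,14),(0,14),(4,0),(0,2),(3,5),(10,0),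
  (5,23),(5,7),(1,4),(3,8)]⟩,⟨0,[(27,0)]⟩⟩ ⟨true,0,⟨1,[(14,0),(7,0)]⟩,⟨0,[(47,0)]⟩⟩ ⟨false,0,⟨142,
  [(5,23),(6,17),(10,20),(3,23),(9,37),(1,37),(1,11),(1,41)]⟩,⟨1,[(44,0),(3,0)]⟩⟩,.o ⟨false,1,⟨10,
  [(0,0),(1,1),(0,1),(0,3),(0,0),(20,0),(17,0)]⟩,⟨1,[(7,0),(19,0),(3,0),(12,0),(2,0)]⟩⟩,.o ⟨false,1,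
  ⟨8,[(0,6),(3,1),(6,4),(29,0),(2,1)]⟩,⟨1,[(27,1),(5,0),(0,0)]⟩⟩,.o ⟨false,1,⟨8,[(0,4),(3,3),(6,0),
  (29,1),(2,3)]⟩,⟨0,[(27,0)]⟩⟩]⟩)) (.R ⟨0,false,false,false,[-1,0,1,0,1],[0,0,0,0,1],[0,2,0,0,0,0,0,
  1],(⟨0,[(0,0)]⟩,⟨0,[(27,0),(6,0)]⟩),(⟨0,[(28,0)]⟩,⟨0,[(27,0)]⟩),⟨2,[(2,0),(2,0),(2,3),(4,1),(13,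
  1),(2,2),(10,3),(4,1),(1,1)]⟩,.k,.k,(.r (-1) ⟨20,[(1,5),(19,6),(0,3),(3,5),(3,7),(9,15),(2,1),(2,
  27)]⟩ ⟨6,[(7,1),(5,0),(0,5),(27,0)]⟩),.k,.k,.k,⟨true,0,⟨0,[(18,0),(11,0)]⟩,⟨0,[(14,0)]⟩⟩,⟨false,0,
  ⟨0,[(29,0)]⟩,⟨13,[(4,1),(6,4),(14,1),(5,6),(7,0),(2,6)]⟩⟩,⟨true,0,⟨0,[(50,0)]⟩,⟨0,[]⟩⟩,⟨false,0,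
  ⟨17,[(2,1),(3,1),(2,0),(4,3),(0,8),(6,5),(19,4),(5,6)]⟩,⟨1,[(30,1),(12,0),(4,0)]⟩⟩,⟨false,0,⟨0,
  []⟩,⟨0,[]⟩⟩,⟨false,0,⟨0,[]⟩,⟨0,[]⟩⟩,[.o ⟨false,0,⟨1,[(6,0),(19,0),(3,0),(12,0),(2,0)]⟩,⟨5,[(1,0),
  (0,1),(0,1),(0,0),(25,0),(12,0)]⟩⟩,.a ⟨true,0,⟨0,[(26,0)]⟩,⟨6,[(2,4),(0,1),(9,0),(0,1),(15,7),(11,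
  0),(3,0)]⟩⟩ ⟨true,0,⟨0,[(18,0),(11,0)]⟩,⟨0,[(14,0)]⟩⟩ ⟨false,0,⟨0,[(29,0)]⟩,⟨13,[(4,1),(6,4),(14,
  1),(5,6),(7,0),(2,6)]⟩⟩,.o ⟨false,1,⟨5,[(0,2),(4,2),(2,5),(1,1),(3,0),(11,2),(3,0),(1,5),(8,4),(1,
  3)]⟩,⟨11,[(2,9),(1,1),(8,0),(5,0),(10,9),(2,3),(8,0),(3,1)]⟩⟩,.o ⟨false,1,⟨0,[(26,0),(5,0),(10,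
  0)]⟩,⟨0,[(2,0),(27,0)]⟩⟩]⟩)) (.R ⟨0,false,false,true,[0,-1,1],[1,0,0,0,-1],[1,1],(⟨0,[(23,0)]⟩,
  ⟨177,[(3,7),(6,5),(10,6),(3,7),(7,177),(4,72),(0,3),(0,34),(0,13)]⟩),(⟨0,[(26,0)]⟩,⟨0,[(27,0)]⟩),
  ⟨2,[(7,0),(14,1),(12,0),(4,2)]⟩,.k,.k,(.r (-1) ⟨0,[(8,0),(8,1),(11,1),(17,0)]⟩ ⟨6,[(0,0),(2,0),(8,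
  3),(0,0),(5,4),(10,0)]⟩),(.r (-1) ⟨5,[(20,1),(0,1),(7,3),(9,1),(2,0),(2,7),(0,2)]⟩ ⟨6,[(6,1),(5,
  0),(0,5),(27,0)]⟩),.k,.k,⟨false,0,⟨3,[(8,0),(2,0),(27,0),(3,0)]⟩,⟨1,[(24,0),(0,0),(21,0)]⟩⟩,⟨true,
  0,⟨0,[(1,0),(27,0)]⟩,⟨1,[(0,1),(28,1),(12,0),(4,2)]⟩⟩,⟨true,(-1),⟨0,[(12,0)]⟩,⟨3,[(8,1),(8,1),(3,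
  1),(7,5),(12,0),(4,2)]⟩⟩,⟨false,0,⟨31,[(1,25),(0,5),(3,3),(5,19),(16,13),(11,4),(5,14)]⟩,⟨1,[(25,
  1),(3,1),(12,0),(2,1),(1,0)]⟩⟩,⟨false,0,⟨0,[]⟩,⟨0,[]⟩⟩,⟨false,0,⟨0,[]⟩,⟨0,[]⟩⟩,[.a ⟨true,0,⟨6,[(1,
  4),(0,1),(9,0),(0,1),(15,7),(11,0),(3,0)]⟩,⟨0,[(25,0)]⟩⟩ ⟨false,0,⟨3,[(8,0),(2,0),(27,0),(3,0)]⟩,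
  ⟨1,[(24,0),(0,0),(21,0)]⟩⟩ ⟨true,0,⟨0,[(1,0),(27,0)]⟩,⟨1,[(0,1),(28,1),(12,0),(4,2)]⟩⟩,.o ⟨false,
  1,⟨3,[(1,1),(0,1),(26,1),(12,0),(4,0)]⟩,⟨7,[(0,0),(4,1),(2,0),(8,1),(7,4),(3,3),(12,3)]⟩⟩,.a
  ⟨true,0,⟨0,[(31,0)]⟩,⟨0,[(28,0)]⟩⟩ ⟨false,0,⟨0,[]⟩,⟨1,[(24,0),(0,0),(21,0)]⟩⟩ ⟨true,0,⟨0,[(1,0),
  (27,0)]⟩,⟨4,[(0,1),(2,0),(5,0),(15,3),(3,1),(1,0),(10,1)]⟩⟩,.a ⟨true,0,⟨3,[(0,0),(2,0),(16,0),(10,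
  2),(13,0)]⟩,⟨2,[(1,0),(2,0),(1,1),(0,0),(0,1),(2,2),(15,0),(12,0),(0,1),(3,4)]⟩⟩ ⟨true,0,⟨3,[(8,
  0),(2,0),(27,0),(3,0)]⟩,⟨5,[(0,0),(2,0),(16,0),(11,0),(12,0)]⟩⟩ ⟨false,1,⟨1,[(1,1),(27,1),(16,0),
  (0,0)]⟩,⟨1,[(0,1),(28,1),(12,0),(4,2)]⟩⟩]⟩)))))))

theorem ok36 : chk K t36 r25 = true := by decide +kernel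

noncomputable def t39 : Tre :=
  (.I [0,0,2,0,-1,2,-1] (.R ⟨0,false,false,false,[1,-1,-1],[0,-1,1],[1,1],(⟨0,[(15,0)]⟩,⟨1,[(0,0),
  (2,0),(23,0)]⟩),(⟨0,[(16,0)]⟩,⟨4,[(0,0),(2,0),(22,5),(6,0)]⟩),⟨0,[(0,0),(1,0)]⟩,.k,.k,(.x 1 ⟨0,
  [(0,0)]⟩ ⟨0,[(3,0),(11,0),(14,0),(4,0)]⟩),.k,.k,.k,⟨true,(-1),⟨0,[(5,0)]⟩,⟨0,[(10,0),(11,0),(15,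
  0),(1,0)]⟩⟩,⟨false,1,⟨0,[(2,0),(21,0)]⟩,⟨0,[(14,0)]⟩⟩,⟨true,0,⟨0,[(11,0)]⟩,⟨1,[(2,1),(2,0),(0,0),
  (3,1),(23,0),(3,2)]⟩⟩,⟨false,2,⟨1,[(22,3),(12,0),(4,2)]⟩,⟨0,[(2,0),(2,1),(4,2),(23,0),(3,1),(1,
  0)]⟩⟩,⟨false,0,⟨0,[]⟩,⟨0,[]⟩⟩,⟨false,0,⟨0,[]⟩,⟨0,[]⟩⟩,[.o ⟨false,1,⟨1,[(22,1),(12,0),(2,1),(1,
  0)]⟩,⟨0,[(8,0)]⟩⟩,.a ⟨true,1,⟨0,[(22,0),(15,0),(1,0)]⟩,⟨0,[(5,0),(15,0)]⟩⟩ ⟨true,0,⟨0,[]⟩,⟨1,[(24,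
  0),(0,0)]⟩⟩ ⟨false,2,⟨0,[(2,0),(19,0),(15,0),(1,0)]⟩,⟨0,[(5,0),(8,0)]⟩⟩,.o ⟨false,0,⟨0,[(25,0)]⟩,
  ⟨2,[(2,0),(0,0),(20,0),(10,0)]⟩⟩,.o ⟨false,0,⟨1,[(24,0),(0,2)]⟩,⟨0,[(2,0)]⟩⟩]⟩) (.Q [0,0,-2,0,0,0,
  -1,0,0,1,-1] (.p false [0,0,1] [1] (⟨0,[(27,0)]⟩,⟨0,[(26,0)]⟩) .k 1 (⟨0,[]⟩,⟨0,[]⟩) .k .k) (.Q [0,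
  1,2,1,0,0,2,1,0,-1,2] (.p true [0,0,1] [1,0,-1] (⟨0,[(28,0)]⟩,⟨0,[(27,0)]⟩) .k 2 (⟨0,[(27,0)]⟩,⟨0,
  [(28,0)]⟩) .k (.r (-1) ⟨0,[(11,1),(11,1),(17,0)]⟩ ⟨0,[(8,1)]⟩)) (.Q [0,0,0,0,0,2,0,0,0,0,-1] (.p
  false [0,0,1] [] (⟨0,[(29,0)]⟩,⟨0,[(28,0)]⟩) .k 0 (⟨0,[]⟩,⟨0,[]⟩) .k .k) (.R ⟨0,false,false,false,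
  [0,-1,1],[1,-1,-1],[1,0,-1,-1,0,0,0,-1],(⟨0,[(19,0)]⟩,⟨4,[(0,1),(19,0),(0,0),(7,2),(1,0),(5,0)]⟩),
  (⟨0,[(18,0)]⟩,⟨22,[(20,2),(0,2),(8,22),(0,4),(4,5),(0,2)]⟩),⟨0,[(0,0)]⟩,.k,.k,(.r (-1) ⟨1,[(2,1),
  (22,1),(12,0),(2,3),(1,0)]⟩ ⟨5,[(8,3),(0,0),(5,3),(10,0),(0,1),(0,0)]⟩),.k,.k,.k,⟨true,0,⟨0,[]⟩,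
  ⟨1,[(27,0),(0,0)]⟩⟩,⟨false,0,⟨1,[(2,0),(10,0),(3,0)]⟩,⟨2,[(5,0),(0,0),(20,3),(10,0)]⟩⟩,⟨false,0,
  ⟨1,[(2,0),(2,0),(2,0),(0,2),(31,0)]⟩,⟨0,[(13,1),(11,1),(17,0)]⟩⟩,⟨true,(-1),⟨0,[(2,0),(5,0),(0,0),
  (3,0),(27,0)]⟩,⟨1,[(25,3),(12,0),(4,0)]⟩⟩,⟨false,0,⟨0,[]⟩,⟨0,[]⟩⟩,⟨false,0,⟨0,[]⟩,⟨0,[]⟩⟩,[.o
  ⟨false,0,⟨0,[(10,0),(2,0),(27,0)]⟩,⟨3,[(4,1),(0,1),(19,1),(12,0),(4,0)]⟩⟩,.a ⟨true,0,⟨5,[(2,1),(6,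
  3),(0,1),(6,1),(19,0),(3,5),(1,0)]⟩,⟨0,[(1,0),(0,0)]⟩⟩ ⟨false,1,⟨1,[(2,0),(2,0),(4,1),(30,1),(1,
  0)]⟩,⟨0,[(14,0)]⟩⟩ ⟨true,0,⟨0,[(2,0),(6,0),(3,0),(27,0)]⟩,⟨0,[(1,0)]⟩⟩,.a ⟨true,0,⟨0,[(27,0)]⟩,⟨0,
  [(24,0)]⟩⟩ ⟨true,0,⟨1,[(2,0),(2,0),(2,0),(0,0),(31,2)]⟩,⟨0,[(14,0)]⟩⟩ ⟨false,0,⟨0,[(2,0),(6,0),(3,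
  0),(27,0)]⟩,⟨9,[(1,7),(4,3),(9,1),(21,0),(4,2)]⟩⟩,.a ⟨true,0,⟨1,[(27,2),(0,0)]⟩,⟨0,[(2,0)]⟩⟩
  ⟨false,1,⟨1,[(2,0),(2,0),(4,1),(30,1),(1,0)]⟩,⟨0,[(4,0),(36,0)]⟩⟩ ⟨true,0,⟨0,[(2,0),(7,0),(2,0),
  (27,0)]⟩,⟨0,[(1,0)]⟩⟩]⟩) (.I [0,0,0,0,1,0,0,0,-1] (.I [0,1,0,1,0,0,0,1] (.I [0,0,0,0,0,-2,-1] (.C
  [(0,2),(5,2),(0,1),(3,1),(27,3),(0,1),(3,5),(1,0)]) (.C [(0,0),(2,0),(12,0)])) (.C [(0,0),(2,0),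
  (0,0),(10,0)])) (.C [(0,0),(20,0),(2,0)]))) (.R ⟨0,false,false,false,[0,-1,1],[1,-1,-1],[1,0,-1,
  -1,0,0,0,-1],(⟨0,[(18,0)]⟩,⟨22,[(19,2),(0,2),(7,22),(1,4),(4,5),(0,2)]⟩),(⟨0,[(17,0)]⟩,⟨22,[(19,
  2),(0,2),(8,22),(0,4),(4,5),(0,2)]⟩),⟨11,[(0,5),(1,11),(0,13),(3,7),(27,15),(0,4),(3,29),(1,0)]⟩,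
  .k,.k,(.r (-1) ⟨1,[(0,1),(23,3),(12,0),(2,1),(1,0)]⟩ ⟨5,[(7,3),(0,0),(5,3),(10,0),(0,1),(0,0)]⟩),
  .k,.k,.k,⟨true,0,⟨0,[]⟩,⟨1,[(26,0),(0,0)]⟩⟩,⟨false,0,⟨1,[(1,0),(10,0),(3,0)]⟩,⟨2,[(4,0),(0,0),(20,
  3),(10,0)]⟩⟩,⟨false,0,⟨7,[(0,1),(3,3),(2,2),(0,8),(0,1),(26,0),(3,0)]⟩,⟨0,[(12,1),(11,1),(17,
  0)]⟩⟩,⟨true,(-1),⟨7,[(0,5),(6,6),(0,1),(16,0),(1,2),(8,0),(3,0)]⟩,⟨1,[(24,3),(12,0),(4,0)]⟩⟩,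
  ⟨false,0,⟨0,[]⟩,⟨0,[]⟩⟩,⟨false,0,⟨0,[]⟩,⟨0,[]⟩⟩,[.o ⟨false,0,⟨7,[(0,1),(6,0),(0,1),(16,2),(1,0),
  (9,0),(2,6)]⟩,⟨3,[(3,1),(0,1),(19,1),(12,0),(4,0)]⟩⟩,.e ⟨false,1,⟨2,[(0,0),(3,0),(0,0),(3,1),(30,
  1),(1,0)]⟩,⟨0,[(13,0)]⟩⟩ ⟨false,0,⟨0,[(0,0)]⟩,⟨32,[(4,2),(2,0),(6,15),(9,33),(1,28),(7,6),(2,
  14)]⟩⟩,.a ⟨true,0,⟨0,[(26,0)]⟩,⟨0,[(23,0)]⟩⟩ ⟨true,0,⟨7,[(0,1),(3,3),(2,2),(0,0),(0,1),(26,0),(3,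
  8)]⟩,⟨0,[(13,0)]⟩⟩ ⟨false,0,⟨2,[(0,1),(7,0),(7,0),(23,0)]⟩,⟨3,[(3,1),(0,1),(19,1),(1,3),(10,0),(4,
  0)]⟩⟩,.e ⟨false,1,⟨2,[(0,0),(3,0),(0,0),(3,1),(30,1),(1,0)]⟩,⟨0,[(3,0),(36,0)]⟩⟩ ⟨false,0,⟨0,[(0,
  0)]⟩,⟨11,[(3,2),(0,1),(9,0),(0,3),(8,4),(1,16),(10,4)]⟩⟩]⟩)) (.Q [0,0,0,0,0,2,0,0,0,0,-1] (.p
  false [0,0,1] [] (⟨0,[(28,0)]⟩,⟨0,[(27,0)]⟩) .k 0 (⟨0,[]⟩,⟨0,[]⟩) .k .k) (.R ⟨0,false,false,true,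
  [0,-1,1],[1,-1],[0,0,-1,-1,0,0,0,1],(⟨0,[(18,0)]⟩,⟨4,[(0,1),(18,0),(0,0),(7,2),(1,0),(5,0)]⟩),(⟨0,
  [(32,0)]⟩,⟨0,[(33,0)]⟩),⟨0,[(0,0)]⟩,.k,.k,(.r (-1) ⟨1,[(4,1),(7,3),(11,1),(11,0),(3,3),(1,0)]⟩
  ⟨18,[(1,1),(5,11),(0,2),(5,12),(10,3),(0,3),(0,1),(8,0)]⟩),.k,.k,.k,⟨true,1,⟨0,[(12,0),(11,0),(17,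
  0)]⟩,⟨0,[(7,0),(32,0)]⟩⟩,⟨false,0,⟨0,[(23,0)]⟩,⟨3,[(1,1),(3,1),(13,0),(0,0),(16,0)]⟩⟩,⟨false,1,⟨1,
  [(19,0),(0,0),(21,0)]⟩,⟨0,[]⟩⟩,⟨true,(-1),⟨0,[(7,0),(15,0),(16,0)]⟩,⟨1,[(24,1),(12,0),(4,0)]⟩⟩,
  ⟨false,0,⟨0,[]⟩,⟨0,[]⟩⟩,⟨false,0,⟨0,[]⟩,⟨0,[]⟩⟩,[.e ⟨false,1,⟨1,[(4,1),(7,3),(11,1),(11,0),(3,1),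
  (1,0)]⟩,⟨5,[(7,1),(0,0),(0,1),(4,1),(10,0),(0,0)]⟩⟩ ⟨false,0,⟨1,[(4,0),(7,1),(10,0),(10,0),(1,0),
  (3,1)]⟩,⟨6,[(1,3),(1,0),(0,2),(2,0),(6,1),(27,2)]⟩⟩,.o ⟨false,0,⟨0,[(40,0)]⟩,⟨13,[(14,5),(19,1),
  (2,6),(0,1),(2,0)]⟩⟩,.a ⟨true,0,⟨0,[(26,0)]⟩,⟨0,[(23,0)]⟩⟩ ⟨true,1,⟨1,[(4,0),(7,0),(3,0),(7,1),
  (15,1),(1,0)]⟩,⟨0,[(7,0)]⟩⟩ ⟨false,0,⟨0,[(23,0),(16,0)]⟩,⟨6,[(1,3),(1,0),(0,2),(2,0),(6,1),(27,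
  2)]⟩⟩,.o ⟨false,0,⟨0,[(1,0)]⟩,⟨0,[(4,0),(11,0)]⟩⟩]⟩) (.I [0,0,0,0,1,0,0,0,-1] (.I [0,0,0,0,0,-2,
  -1] (.C [(0,0),(2,0),(0,0),(9,0),(17,0),(4,0),(0,0)]) (.C [(0,0),(1,0),(11,0)])) (.C [(0,0),(19,
  0),(2,0)])))))

theorem ok39 : chk K t39 r23 = true := by decide +kernel

noncomputable def t42 : Tre :=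
  (.R ⟨1,false,false,true,[1,0,-1],[1,-1],[0,1,0,-1,0,0,0,-1],(⟨0,[(24,0)]⟩,⟨0,[(25,0)]⟩),(⟨0,[(28,
  0)]⟩,⟨0,[(29,0)]⟩),⟨0,[(13,0)]⟩,.k,.k,.k,.k,.k,.k,⟨false,0,⟨0,[(5,0)]⟩,⟨1,[(8,1),(11,1),(16,0),(0,
  0)]⟩⟩,⟨true,0,⟨0,[(22,0)]⟩,⟨0,[(8,0)]⟩⟩,⟨false,0,⟨0,[(36,0)]⟩,⟨3,[(10,1),(26,0),(0,0)]⟩⟩,⟨true,0,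
  ⟨0,[(20,0),(15,0)]⟩,⟨0,[(6,0)]⟩⟩,⟨true,0,⟨0,[(40,0)]⟩,⟨0,[]⟩⟩,⟨true,0,⟨0,[(20,0)]⟩,⟨0,[(5,0),(2,
  0)]⟩⟩,[.o ⟨false,0,⟨0,[(36,0),(3,0)]⟩,⟨0,[(0,0)]⟩⟩,.o ⟨false,0,⟨0,[(36,0)]⟩,⟨2,[(0,0),(9,0),(19,
  0),(2,0)]⟩⟩,.o ⟨false,0,⟨0,[(8,0)]⟩,⟨1,[(22,1),(10,0),(3,0)]⟩⟩,.a ⟨true,(-1),⟨11,[(1,9),(17,1),
  (12,4),(1,5),(1,5),(1,2)]⟩,⟨0,[(22,0),(14,0)]⟩⟩ ⟨true,0,⟨0,[(5,0),(28,0),(1,1)]⟩,⟨3,[(0,1),(0,1),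
  (0,1),(17,1),(11,0),(5,0)]⟩⟩ ⟨false,1,⟨0,[(22,0),(13,0),(0,0)]⟩,⟨8,[(0,5),(0,6),(17,1),(12,1),(1,
  2),(3,2)]⟩⟩]⟩)

theorem ok42 : chk K t42 l28 = true := by decide +kernel

noncomputable def t43 : Tre :=
  (.R ⟨0,false,false,true,[1,-1,-1],[1,-1],[0,1],(⟨0,[(15,0)]⟩,⟨4,[(0,1),(16,0),(0,0),(8,2),(0,0),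
  (5,0)]⟩),(⟨0,[(30,0)]⟩,⟨0,[(31,0)]⟩),⟨0,[(0,0)]⟩,.k,.k,(.r (-1) ⟨0,[(7,0),(30,1),(0,0)]⟩ ⟨10,[(1,
  6),(1,2),(7,2),(0,1),(0,0),(10,2)]⟩),.k,.k,.k,⟨true,0,⟨16,[(1,0),(1,1),(1,2),(5,1),(0,4),(11,1)]⟩,
  ⟨0,[(38,0)]⟩⟩,⟨false,1,⟨0,[(24,0),(14,0)]⟩,⟨0,[(10,0)]⟩⟩,⟨false,0,⟨2,[(1,0),(1,0),(0,0),(17,0),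
  (17,0)]⟩,⟨1,[(7,1),(30,1),(0,0),(0,0)]⟩⟩,⟨true,0,⟨0,[(22,0)]⟩,⟨0,[(7,0),(2,0)]⟩⟩,⟨false,0,⟨0,[]⟩,
  ⟨0,[]⟩⟩,⟨false,0,⟨0,[]⟩,⟨0,[]⟩⟩,[.e ⟨false,0,⟨3,[(2,1),(32,0),(0,1),(2,0)]⟩,⟨1,[(17,0),(0,0),(21,
  0)]⟩⟩ ⟨false,1,⟨0,[(7,0),(14,0),(15,0),(0,0)]⟩,⟨0,[(3,0),(32,0),(3,0)]⟩⟩,.o ⟨false,0,⟨0,[(38,0)]⟩,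
  ⟨13,[(12,5),(19,1),(2,6),(0,1),(2,0)]⟩⟩,.a ⟨true,(-1),⟨8,[(2,2),(0,6),(17,1),(12,1),(1,2),(3,2)]⟩,
  ⟨0,[(24,0),(14,0)]⟩⟩ ⟨true,0,⟨0,[(42,0)]⟩,⟨0,[]⟩⟩ ⟨false,1,⟨0,[(24,0),(13,0),(0,0)]⟩,⟨0,[(3,0),
  (32,0),(3,0)]⟩⟩,.o ⟨false,(-1),⟨0,[(3,0)]⟩,⟨1,[(24,1),(10,0),(3,2)]⟩⟩]⟩)

theorem ok43 : chk K t43 l30 = true := by decide +kernel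

noncomputable def t44 : Tre :=
  (.R ⟨1,false,false,true,[1,-1,-1],[1,-1],[0,1],(⟨0,[(16,0)]⟩,⟨22,[(18,2),(0,2),(8,22),(0,4),(4,5),
  (0,2)]⟩),(⟨0,[(31,0)]⟩,⟨0,[(32,0)]⟩),⟨0,[(1,0)]⟩,.k,.k,(.r (-1) ⟨0,[(8,0),(30,1),(0,0)]⟩ ⟨10,[(2,
  6),(1,2),(7,2),(0,1),(0,0),(10,2)]⟩),.k,.k,.k,⟨true,0,⟨16,[(2,0),(1,1),(1,2),(5,1),(0,4),(11,1)]⟩,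
  ⟨0,[(39,0)]⟩⟩,⟨false,1,⟨0,[(25,0),(14,0)]⟩,⟨0,[(11,0)]⟩⟩,⟨false,0,⟨2,[(2,0),(1,0),(0,0),(17,0),
  (17,0)]⟩,⟨1,[(8,1),(30,1),(0,0),(0,0)]⟩⟩,⟨true,0,⟨0,[(23,0)]⟩,⟨5,[(0,1),(8,1),(14,1),(11,0),(4,
  0)]⟩⟩,⟨false,0,⟨0,[(2,0)]⟩,⟨1,[(8,1),(30,3),(0,0),(0,0)]⟩⟩,⟨false,1,⟨3,[(13,1),(9,3),(16,0),(0,
  0)]⟩,⟨1,[(0,1),(35,0),(4,0)]⟩⟩,[.e ⟨false,0,⟨3,[(3,1),(32,0),(0,1),(2,0)]⟩,⟨1,[(18,0),(0,0),(21,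
  0)]⟩⟩ ⟨false,1,⟨0,[(8,0),(14,0),(15,0),(0,0)]⟩,⟨0,[(4,0),(32,0),(3,0)]⟩⟩,.o ⟨false,0,⟨0,[(39,0)]⟩,
  ⟨13,[(13,5),(19,1),(2,6),(0,1),(2,0)]⟩⟩,.a ⟨true,(-1),⟨7,[(0,1),(1,1),(0,1),(0,3),(17,1),(12,0),
  (5,0)]⟩,⟨0,[(25,0),(14,0)]⟩⟩ ⟨true,0,⟨0,[(43,0)]⟩,⟨0,[]⟩⟩ ⟨false,1,⟨0,[(25,0),(13,0),(0,0)]⟩,⟨0,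
  [(4,0),(32,0),(3,0)]⟩⟩,.o ⟨false,(-1),⟨0,[(4,0)]⟩,⟨1,[(25,1),(10,0),(3,2)]⟩⟩]⟩)

theorem ok44 : chk K t44 l31 = true := by decide +kernel

noncomputable def t45 : Tre :=
  (.Q [0,0,0,-2,-1,0,-1,-1,0,1,-1] (.p false [0,0,1] [1] (⟨0,[(29,0)]⟩,⟨0,[(28,0)]⟩) .k 1 (⟨0,[]⟩,
  ⟨0,[]⟩) .k .k) (.S ⟨1,1,[],[1,-1,-1],[1,1,-1,-1,0,0,0,-1],(⟨0,[(18,0)]⟩,⟨22,[(20,2),(0,2),(8,22),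
  (0,4),(4,5),(0,2)]⟩),⟨0,[(3,0)]⟩,.k,(.r (-1) ⟨0,[(1,0),(8,1)]⟩ ⟨10,[(4,6),(1,2),(7,2),(0,1),(0,0),
  (10,2)]⟩),⟨false,0,⟨0,[]⟩,⟨1,[(20,0),(0,0),(21,0)]⟩⟩,⟨true,1,⟨0,[(2,0)]⟩,⟨1,[(0,0),(4,0),(6,0)]⟩⟩,
  ⟨true,0,⟨0,[(40,0)]⟩,⟨0,[(41,0)]⟩⟩,⟨false,2,⟨3,[(2,3),(12,1),(26,0),(0,0)]⟩,⟨0,[(0,0)]⟩⟩,[.fo,.o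
  ⟨false,1,⟨1,[(38,0),(4,0)]⟩,⟨0,[(45,0)]⟩⟩,.a ⟨true,(-1),⟨5,[(0,2),(3,2),(1,1),(17,0),(12,0)]⟩,⟨0,
  [(27,0),(14,0)]⟩⟩ ⟨true,0,⟨2,[(1,0),(3,1),(4,3),(27,0),(0,0)]⟩,⟨10,[(1,0),(2,5),(1,2),(9,0),(8,2),
  (17,0)]⟩⟩ ⟨false,2,⟨1,[(27,1),(10,0),(3,1),(0,0)]⟩,⟨5,[(0,2),(3,2),(1,1),(17,0),(12,0)]⟩⟩,.o
  ⟨false,(-1),⟨0,[(6,0)]⟩,⟨1,[(27,1),(10,0),(3,2)]⟩⟩]⟩) (.I [0,0,-2,-1,1,0,0,1] (.Q [0,0,2,0,0,0,1,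
  0,0,-1,1] (.p true [0,0,1] [1] (⟨0,[(31,0)]⟩,⟨0,[(30,0)]⟩) .k 1 (⟨0,[]⟩,⟨0,[]⟩) .k .k) (.R ⟨0,
  false,false,true,[0,-1,1],[1,-1],[0,0,-1,-1,0,0,0,1],(⟨0,[(21,0)]⟩,⟨22,[(22,2),(0,2),(7,22),(1,4),
  (4,5),(0,2)]⟩),(⟨0,[(35,0)]⟩,⟨0,[(36,0)]⟩),⟨2,[(5,0),(14,1),(12,0),(4,2)]⟩,.k,.k,(.r (-1) ⟨0,[(3,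
  0)]⟩ ⟨16,[(0,3),(6,1),(2,9),(0,2),(5,12),(10,3),(10,0)]⟩),.k,.k,.k,⟨true,1,⟨10,[(3,3),(2,1),(1,0),
  (9,3),(8,0),(17,3)]⟩,⟨2,[(7,1),(2,1),(0,0),(28,0)]⟩⟩,⟨false,0,⟨0,[(26,0)]⟩,⟨0,[(0,0),(43,0)]⟩⟩,
  ⟨false,1,⟨1,[(22,0),(0,0),(21,0)]⟩,⟨0,[]⟩⟩,⟨true,(-1),⟨0,[(7,0),(5,0)]⟩,⟨2,[(0,0),(2,0),(0,1)]⟩⟩,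
  ⟨false,0,⟨0,[]⟩,⟨0,[]⟩⟩,⟨false,0,⟨0,[]⟩,⟨0,[]⟩⟩,[.e ⟨false,1,⟨0,[(1,0)]⟩,⟨5,[(10,1),(0,0),(0,1),
  (4,1),(10,0),(0,0)]⟩⟩ ⟨false,0,⟨2,[(3,1),(3,1),(5,1),(12,0),(14,0)]⟩,⟨1,[(0,0),(1,0),(9,0),(32,
  0)]⟩⟩,.o ⟨false,0,⟨0,[(43,0)]⟩,⟨8,[(2,0),(11,0),(2,2),(19,0),(2,3),(3,0)]⟩⟩,.a ⟨true,0,⟨0,[(29,
  0)]⟩,⟨0,[(26,0)]⟩⟩ ⟨true,1,⟨2,[(3,1),(14,0),(28,0)]⟩,⟨0,[(10,0)]⟩⟩ ⟨false,0,⟨2,[(3,0),(3,0),(3,0),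
  (3,0),(10,1)]⟩,⟨1,[(0,0),(1,0),(9,0),(32,0)]⟩⟩,.o ⟨false,0,⟨0,[(0,0)]⟩,⟨0,[(15,0),(28,0)]⟩⟩]⟩)
  (.Q [0,-1,2,0,1,0,2,1,0,-1,2] (.p true [0,0,1] [1,0,-1] (⟨0,[(32,0)]⟩,⟨0,[(31,0)]⟩) .k 2 (⟨0,[(31,
  0)]⟩,⟨0,[(32,0)]⟩) .k (.r (-1) ⟨10,[(3,7),(2,3),(1,1),(7,2),(1,4),(8,1)]⟩ ⟨0,[(12,1)]⟩)) (.R ⟨0,
  false,false,true,[0,-1,1],[1,0,-1],[1,1,0,0,0,0,0,-1],(⟨0,[(22,0)]⟩,⟨22,[(23,2),(0,2),(7,22),(1,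
  4),(4,5),(0,2)]⟩),(⟨0,[(32,0)]⟩,⟨0,[(33,0)]⟩),⟨2,[(6,0),(14,1),(12,0),(4,2)]⟩,.k,.k,(.r (-1) ⟨0,
  [(4,0)]⟩ ⟨19,[(9,1),(1,11),(0,2),(5,13),(10,4),(0,6)]⟩),(.r (-1) ⟨36,[(0,1),(3,41),(2,21),(1,8),
  (9,2),(8,4),(11,0)]⟩ ⟨5,[(11,1),(0,0),(0,7),(4,1),(10,0),(0,0)]⟩),.k,.k,⟨true,0,⟨0,[]⟩,⟨1,[(30,0),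
  (0,0)]⟩⟩,⟨false,0,⟨0,[(1,0),(14,0)]⟩,⟨5,[(0,3),(12,7),(14,3),(12,0),(3,0)]⟩⟩,⟨true,(-1),⟨0,[(11,
  0),(1,0)]⟩,⟨36,[(0,1),(3,41),(2,21),(1,8),(9,2),(8,4),(11,0)]⟩⟩,⟨false,(-1),⟨1,[(1,1),(7,0),(1,0),
  (0,0),(0,0),(0,0)]⟩,⟨0,[(0,0),(1,0)]⟩⟩,⟨false,0,⟨0,[]⟩,⟨0,[]⟩⟩,⟨false,0,⟨0,[]⟩,⟨0,[]⟩⟩,[.a ⟨true,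
  (-1),⟨0,[(8,0),(5,0)]⟩,⟨11,[(0,3),(1,3),(0,1),(24,1),(11,2),(5,4)]⟩⟩ ⟨false,0,⟨5,[(4,0),(3,1),(4,
  6),(27,0),(0,3)]⟩,⟨55,[(0,1),(3,21),(2,11),(1,3),(9,19),(20,0),(5,16)]⟩⟩ ⟨true,(-1),⟨12,[(1,15),
  (6,4),(0,6),(1,4),(1,4),(15,2),(11,3)]⟩,⟨0,[(0,0)]⟩⟩,.o ⟨false,0,⟨4,[(1,1),(7,0),(2,1),(0,0),(15,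
  1),(11,0)]⟩,⟨3,[(0,0),(2,0),(0,0),(23,0),(12,0)]⟩⟩,.a ⟨true,0,⟨0,[(30,0)]⟩,⟨0,[(27,0)]⟩⟩ ⟨false,0,
  ⟨0,[(13,0)]⟩,⟨55,[(0,1),(3,21),(2,11),(1,3),(9,19),(20,0),(5,16)]⟩⟩ ⟨true,(-1),⟨12,[(1,15),(6,4),
  (0,6),(1,4),(1,4),(15,2),(11,3)]⟩,⟨5,[(0,3),(12,1),(14,3),(12,0),(3,0)]⟩⟩,.a ⟨true,0,⟨1,[(30,2),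
  (0,0)]⟩,⟨0,[(1,0)]⟩⟩ ⟨true,0,⟨5,[(4,0),(3,1),(4,6),(27,0),(0,3)]⟩,⟨36,[(0,3),(3,9),(2,6),(1,17),
  (9,5),(8,9),(11,1)]⟩⟩ ⟨false,0,⟨4,[(1,6),(7,0),(2,1),(0,0),(15,1),(11,0)]⟩,⟨0,[(0,0)]⟩⟩]⟩) (.R ⟨0,
  false,false,true,[0,-1,1],[1,0,-1],[1,1,0,0,0,0,0,-1],(⟨0,[(22,0)]⟩,⟨22,[(23,2),(0,2),(7,22),(1,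
  4),(4,5),(0,2)]⟩),(⟨0,[(32,0)]⟩,⟨0,[(33,0)]⟩),⟨2,[(6,0),(14,1),(12,0),(4,2)]⟩,.k,.k,(.r (-1) ⟨0,
  [(4,0)]⟩ ⟨19,[(9,1),(1,11),(0,2),(5,13),(10,4),(0,6)]⟩),(.r (-1) ⟨10,[(4,11),(2,5),(1,2),(9,0),(8,
  2),(17,0)]⟩ ⟨5,[(11,1),(0,0),(0,7),(4,1),(10,0),(0,0)]⟩),.k,.k,⟨true,0,⟨0,[]⟩,⟨1,[(30,0),(0,0)]⟩⟩,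
  ⟨false,0,⟨0,[(1,0),(14,0)]⟩,⟨1,[(30,3),(10,0),(3,0)]⟩⟩,⟨true,(-1),⟨0,[(11,0),(1,0)]⟩,⟨10,[(4,11),
  (2,5),(1,2),(9,0),(8,2),(17,0)]⟩⟩,⟨false,(-1),⟨26,[(0,14),(6,0),(1,3),(1,2),(0,16),(1,19),(3,0),
  (21,5)]⟩,⟨1,[(28,3),(12,0),(2,1),(1,2)]⟩⟩,⟨false,0,⟨0,[]⟩,⟨0,[]⟩⟩,⟨false,0,⟨0,[]⟩,⟨0,[]⟩⟩,[.e
  ⟨false,0,⟨5,[(4,0),(3,1),(4,6),(27,0),(0,3)]⟩,⟨10,[(4,3),(2,1),(1,0),(9,3),(8,0),(17,3)]⟩⟩ ⟨false,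
  (-1),⟨0,[(0,0)]⟩,⟨19,[(4,11),(0,5),(12,7),(0,1),(10,33),(10,6),(4,4)]⟩⟩,.o ⟨false,0,⟨17,[(0,3),
  (11,7),(7,1),(8,5),(11,2),(4,0)]⟩,⟨1,[(28,1),(12,0),(4,0)]⟩⟩,.a ⟨true,0,⟨0,[(30,0)]⟩,⟨0,[(27,
  0)]⟩⟩ ⟨false,0,⟨0,[(13,0)]⟩,⟨10,[(4,3),(2,1),(1,0),(9,3),(8,0),(17,3)]⟩⟩ ⟨true,(-1),⟨58,[(0,39),
  (7,5),(0,5),(1,5),(0,2),(7,10),(8,9),(10,0)]⟩,⟨1,[(28,1),(1,1),(10,0),(4,0)]⟩⟩,.e ⟨true,0,⟨5,[(4,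
  0),(3,1),(4,6),(27,0),(0,3)]⟩,⟨10,[(4,1),(2,0),(1,5),(9,1),(8,5),(17,1)]⟩⟩ ⟨true,(-1),⟨0,[(0,0)]⟩,
  ⟨19,[(4,3),(4,1),(9,7),(8,7),(1,34),(0,0),(9,9)]⟩⟩]⟩))) (.Q [0,-1,0,1,1,0,0,0,-1,0,0,-1] (.p
  false [0,0,0,0,1] [] (⟨0,[(24,0)]⟩,⟨0,[(23,0)]⟩) .k 0 (⟨0,[]⟩,⟨0,[]⟩) .k .k) (.Q [0,-2,-1,0,1,0,
  -1,0,-1,1,-1,-1] (.p false [0,0,1] [1,0,0,0,-1] (⟨0,[(32,0)]⟩,⟨0,[(31,0)]⟩) .k 2 (⟨0,[(24,0)]⟩,⟨0,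
  [(25,0)]⟩) .k (.r 0 ⟨7,[(3,1),(4,1),(0,2),(6,0),(10,1),(9,0)]⟩ ⟨1,[(12,1),(9,0),(0,0),(21,0)]⟩))
  (.Q [0,0,0,0,0,0,0,0,0,0,-1,1] (.ed false [1,0,-1,0,1] (.r 0 ⟨2,[(13,1),(15,0),(0,0),(7,0)]⟩ ⟨10,
  [(4,3),(2,1),(1,0),(9,3),(8,0),(17,3)]⟩)) (.Q [0,0,-1,0,0,0,0,0,-1,1,0,-1] (.p false [0,0,0,0,1]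
  [1] (⟨0,[(27,0)]⟩,⟨0,[(26,0)]⟩) .k 1 (⟨0,[]⟩,⟨0,[]⟩) .k .k) (.R ⟨0,false,false,true,[0,-1,1],[1,0,
  0,0,-1],[0,1],(⟨0,[(24,0)]⟩,⟨22,[(25,2),(0,2),(7,22),(1,4),(4,5),(0,2)]⟩),(⟨0,[(27,0)]⟩,⟨0,[(28,
  0)]⟩),⟨2,[(8,0),(14,1),(12,0),(4,2)]⟩,.k,.k,(.r (-1) ⟨0,[(6,0)]⟩ ⟨2,[(4,0),(8,0),(6,1),(10,0),(0,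
  0)]⟩),(.r (-1) ⟨2,[(6,1),(14,0),(28,3)]⟩ ⟨0,[(13,0),(34,0)]⟩),.k,.k,⟨false,0,⟨5,[(6,0),(3,1),(4,
  0),(27,0),(0,3)]⟩,⟨1,[(25,0),(0,0),(21,0)]⟩⟩,⟨true,0,⟨0,[(0,0),(17,0)]⟩,⟨1,[(4,1),(21,1),(3,1),
  (12,0),(2,1),(1,0)]⟩⟩,⟨true,(-1),⟨1,[(4,1),(5,1),(32,0),(0,1),(3,0)]⟩,⟨2,[(6,1),(14,0),(28,0)]⟩⟩,
  ⟨false,0,⟨1,[(0,0),(1,0),(1,0),(11,0)]⟩,⟨1,[(26,1),(3,1),(12,0),(2,1),(1,0)]⟩⟩,⟨false,0,⟨0,[]⟩,⟨0,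
  []⟩⟩,⟨false,0,⟨0,[]⟩,⟨0,[]⟩⟩,[.a ⟨true,0,⟨12,[(0,8),(10,1),(13,3),(6,1),(9,1),(6,2)]⟩,⟨0,[(26,
  0)]⟩⟩ ⟨false,0,⟨5,[(6,0),(3,1),(4,0),(27,0),(0,3)]⟩,⟨1,[(25,0),(0,0),(21,0)]⟩⟩ ⟨true,0,⟨0,[(0,0),
  (17,0)]⟩,⟨1,[(4,1),(21,1),(3,1),(12,0),(2,1),(1,0)]⟩⟩,.e ⟨false,1,⟨1,[(25,0),(0,0),(20,0)]⟩,⟨0,
  []⟩⟩ ⟨false,1,⟨1,[(0,0),(1,0),(15,0),(28,0)]⟩,⟨2,[(10,0),(2,0),(12,2),(3,0),(1,1),(10,1)]⟩⟩,.e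
  ⟨true,0,⟨0,[(50,0)]⟩,⟨0,[]⟩⟩ ⟨true,0,⟨0,[(0,0),(17,0)]⟩,⟨2,[(10,0),(2,0),(12,2),(3,0),(1,1),(10,
  1)]⟩⟩,.o ⟨false,0,⟨1,[(4,1),(25,1),(12,0),(2,1),(1,0)]⟩,⟨0,[(18,0),(28,0)]⟩⟩]⟩) (.S ⟨1,0,[0,1,0,
  -1],[0,0,0,0,1],[1,2],(⟨0,[(28,0)]⟩,⟨0,[(27,0)]⟩),⟨0,[(1,0),(22,0)]⟩,.k,(.r 0 ⟨2,[(6,0),(3,1),(4,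
  0),(27,0),(0,0)]⟩ ⟨2,[(14,0),(5,0),(0,0),(3,0),(0,0)]⟩),⟨false,0,⟨0,[]⟩,⟨1,[(25,0),(0,0),(21,
  0)]⟩⟩,⟨true,0,⟨0,[(46,0)]⟩,⟨0,[(45,0)]⟩⟩,⟨true,0,⟨0,[(45,0)]⟩,⟨0,[(46,0)]⟩⟩,⟨false,1,⟨1,[(25,0),
  (0,0),(21,0)]⟩,⟨0,[]⟩⟩,[.o ⟨false,0,⟨2,[(0,2),(5,0),(3,1),(4,0),(27,0),(0,0)]⟩,⟨0,[(3,0)]⟩⟩,.a
  ⟨true,0,⟨2,[(0,0),(5,0),(3,0),(3,0),(11,1)]⟩,⟨1,[(2,0),(0,0),(1,0),(4,1),(2,0)]⟩⟩ ⟨false,0,⟨5,[(6,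
  0),(3,1),(4,0),(27,0),(0,3)]⟩,⟨1,[(25,0),(0,0),(21,0)]⟩⟩ ⟨true,0,⟨0,[(46,0)]⟩,⟨3,[(4,0),(14,0),(0,
  0)]⟩⟩,.e ⟨false,0,⟨0,[(50,0)]⟩,⟨0,[(48,0)]⟩⟩ ⟨false,0,⟨0,[(46,0)]⟩,⟨3,[(20,1),(26,0),(0,0)]⟩⟩,.o
  ⟨false,0,⟨0,[(0,0)]⟩,⟨2,[(3,2),(2,0),(3,1),(4,0),(27,0),(0,0)]⟩⟩]⟩)) (.Q [0,2,0,1,-1,0,0,0,1,0,0,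
  1] (.p true [0,0,0,0,1] [] (⟨0,[(27,0)]⟩,⟨0,[(26,0)]⟩) .k 0 (⟨0,[]⟩,⟨0,[]⟩) .k .k) (.Q [0,1,0,0,
  -1,0,-1,-1,1,0,-1,1] (.p true [1,0,-1,0,1] [1] (⟨0,[(28,0),(5,0)]⟩,⟨0,[(1,0)]⟩) .k 1 (⟨0,[]⟩,⟨0,
  []⟩) .k (.r 0 ⟨2,[(15,1),(15,0),(0,0),(7,0)]⟩ ⟨10,[(6,3),(2,1),(1,0),(9,3),(8,0),(17,3)]⟩)) (.Q
  [0,0,2,0,-1,0,0,0,1,0,0,1] (.p true [0,0,0,0,1] [] (⟨0,[(29,0)]⟩,⟨0,[(28,0)]⟩) .k 0 (⟨0,[]⟩,⟨0,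
  []⟩) .k .k) (.Q [0,0,0,0,-1,0,-1,-1,1,1,-1,1] (.p true [1,0,-1,0,1] [] (⟨0,[(30,0),(5,0)]⟩,⟨0,[(3,
  0)]⟩) .k 0 (⟨0,[]⟩,⟨0,[]⟩) .k (.r 0 ⟨2,[(17,1),(15,0),(0,0),(7,0)]⟩ ⟨10,[(8,3),(2,1),(1,0),(9,3),
  (8,0),(17,3)]⟩)) (.R ⟨0,false,false,true,[0,-1,1],[0,0,1,0,-1],[0,1],(⟨0,[(27,0)]⟩,⟨22,[(28,2),(0,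
  2),(7,22),(1,4),(4,5),(0,2)]⟩),(⟨0,[(4,0)]⟩,⟨0,[(31,0),(5,0)]⟩),⟨2,[(11,0),(14,1),(12,0),(4,2)]⟩,
  .k,.k,(.r (-1) ⟨0,[(9,0)]⟩ ⟨2,[(7,0),(8,0),(6,1),(10,0),(0,0)]⟩),(.r 0 ⟨2,[(9,0),(3,1),(4,0),(27,
  0),(0,0)]⟩ ⟨3,[(1,0),(21,1),(4,1),(0,0),(21,0)]⟩),.k,.k,⟨false,0,⟨5,[(9,0),(3,1),(4,6),(27,0),(0,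
  3)]⟩,⟨10,[(9,3),(2,1),(1,0),(9,3),(8,0),(17,3)]⟩⟩,⟨true,1,⟨2,[(6,2),(2,0),(3,1),(4,0),(27,0),(0,
  0)]⟩,⟨0,[(1,0)]⟩⟩,⟨true,(-1),⟨1,[(7,1),(5,1),(32,0),(0,1),(3,0)]⟩,⟨2,[(9,1),(14,0),(28,0)]⟩⟩,
  ⟨false,1,⟨0,[(6,0)]⟩,⟨1,[(1,0),(7,0),(8,0),(10,0)]⟩⟩,⟨false,0,⟨0,[]⟩,⟨0,[]⟩⟩,⟨false,0,⟨0,[]⟩,⟨0,
  []⟩⟩,[.a ⟨true,1,⟨0,[(6,0),(26,0),(15,0)]⟩,⟨0,[(0,0)]⟩⟩ ⟨false,0,⟨5,[(9,0),(3,1),(4,0),(27,0),(0,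
  3)]⟩,⟨1,[(28,0),(0,0),(21,0)]⟩⟩ ⟨true,1,⟨0,[(5,0),(2,0),(4,1),(32,0)]⟩,⟨0,[(1,0),(16,0)]⟩⟩,.o
  ⟨false,2,⟨1,[(6,1),(26,1),(12,0),(2,1),(1,0)]⟩,⟨0,[(2,0)]⟩⟩,.e ⟨true,0,⟨0,[(53,0)]⟩,⟨0,[]⟩⟩ ⟨true,
  1,⟨0,[(5,0),(2,0),(4,1),(32,0)]⟩,⟨0,[(2,0),(32,0)]⟩⟩,.o ⟨false,0,⟨1,[(7,1),(25,1),(12,0),(2,1),(1,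
  0)]⟩,⟨0,[(21,0),(28,0)]⟩⟩]⟩) (.K ⟨0,[0,0,1,0,-1],0,1,(⟨0,[(4,0)]⟩,⟨0,[(31,0),(5,0)]⟩),.k,(.r (-2)
  ⟨2,[(9,1),(14,0),(3,1),(0,1),(21,0)]⟩ ⟨0,[(0,0),(1,0),(4,0),(5,0),(33,0),(3,0)]⟩),(.r (-1) ⟨0,
  [(24,0)]⟩ ⟨2,[(9,0),(3,1),(4,3),(27,0),(0,0)]⟩),.k,.k,[⟨0,[(29,0)]⟩,⟨6,[(0,6),(6,1),(5,2),(3,3),
  (0,0),(26,1),(1,0)]⟩,⟨3,[(1,0),(0,2),(31,0),(8,1)]⟩,⟨2,[(0,0),(4,0),(22,0),(4,1),(1,0)]⟩]⟩)) (.Q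
  [0,0,1,0,0,0,1,0,-1,0,1,-1] (.p false [1,0,-1,0,1] [1] (⟨0,[(30,0),(5,0)]⟩,⟨0,[(3,0)]⟩) .k 1 (⟨0,
  []⟩,⟨0,[]⟩) .k (.r 0 ⟨2,[(17,1),(15,0),(0,0),(7,0)]⟩ ⟨10,[(8,3),(2,1),(1,0),(9,3),(8,0),(17,
  3)]⟩)) (.K ⟨0,[0,0,1,0,-1],0,1,(⟨0,[(4,0)]⟩,⟨0,[(31,0),(5,0)]⟩),.k,(.r (-2) ⟨2,[(9,1),(14,0),(3,
  1),(0,1),(21,0)]⟩ ⟨1,[(7,1),(5,1),(32,0),(0,1),(3,0)]⟩),(.r (-1) ⟨0,[(24,0)]⟩ ⟨9,[(1,1),(1,1),(5,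
  2),(3,5),(4,12),(27,2)]⟩),.k,.k,[⟨0,[(29,0)]⟩,⟨0,[(0,0)]⟩,⟨5,[(2,2),(0,1),(9,1),(15,0),(4,2),(11,
  0)]⟩,⟨6,[(0,2),(5,2),(2,1),(14,0),(3,0),(4,3)]⟩]⟩) (.Q [0,0,0,0,0,1,0,0,0,0,0,-1] (.ed true [1,-1,
  0,0,1] .k) (.R ⟨0,false,false,false,[0,0,0,0,1],[0,0,1],[0,2],(⟨0,[(32,0)]⟩,⟨0,[(31,0)]⟩),(⟨0,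
  [(39,0)]⟩,⟨0,[(38,0)]⟩),⟨0,[(0,0)]⟩,.k,.k,(.r 0 ⟨9,[(2,1),(1,1),(5,2),(3,5),(4,2),(27,2)]⟩ ⟨2,
  [(18,0),(5,0),(0,0),(3,0),(0,0)]⟩),.k,.k,.k,⟨true,(-1),⟨6,[(2,1),(1,1),(9,5),(2,3),(1,2),(27,2)]⟩,
  ⟨10,[(10,1),(2,0),(1,5),(9,1),(8,5),(17,12)]⟩⟩,⟨false,1,⟨0,[(2,0),(33,0)]⟩,⟨1,[(1,0),(28,0),(6,
  0)]⟩⟩,⟨true,0,⟨0,[(54,0)]⟩,⟨0,[]⟩⟩,⟨false,2,⟨0,[(7,0),(26,0),(15,0),(1,0)]⟩,⟨0,[(3,0)]⟩⟩,⟨false,0,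
  ⟨0,[]⟩,⟨0,[]⟩⟩,⟨false,0,⟨0,[]⟩,⟨0,[]⟩⟩,[.o ⟨false,1,⟨1,[(34,1),(12,0),(4,0)]⟩,⟨6,[(3,1),(2,1),(8,
  0),(3,2),(15,1),(11,0)]⟩⟩,.e ⟨false,0,⟨9,[(2,3),(1,3),(5,0),(3,1),(4,0),(27,0)]⟩,⟨1,[(29,0),(0,0),
  (21,0)]⟩⟩ ⟨false,2,⟨1,[(2,0),(26,0),(4,1),(17,1)]⟩,⟨0,[(3,0)]⟩⟩,.a ⟨true,0,⟨0,[(30,0)]⟩,⟨0,[(7,0),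
  (6,0)]⟩⟩ ⟨false,0,⟨0,[(54,0)]⟩,⟨0,[(52,0)]⟩⟩ ⟨true,1,⟨0,[(7,0),(26,0),(15,0)]⟩,⟨0,[(3,0)]⟩⟩,.o
  ⟨false,0,⟨1,[(1,1),(6,1),(25,1),(12,0),(2,1),(1,0)]⟩,⟨1,[(2,0),(26,0)]⟩⟩]⟩) (.S ⟨1,0,[0,0,1],[1,1,
  0,0,-1],[0,-1,1],(⟨22,[(29,2),(0,2),(0,22),(8,4),(4,5),(0,2)]⟩,⟨0,[(0,0)]⟩),⟨0,[(31,0)]⟩,(.r (-1)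
  ⟨2,[(18,0),(5,0),(0,0),(3,0),(0,0)]⟩ ⟨9,[(2,1),(1,1),(5,2),(3,5),(4,2),(27,2)]⟩),.k,⟨true,0,⟨0,
  [(50,0)]⟩,⟨0,[(49,0)]⟩⟩,⟨false,0,⟨0,[(50,0)]⟩,⟨3,[(24,1),(26,0),(0,0)]⟩⟩,⟨false,1,⟨1,[(29,0),(0,
  0),(21,0)]⟩,⟨0,[]⟩⟩,⟨true,0,⟨0,[(54,0)]⟩,⟨0,[]⟩⟩,[.a ⟨true,0,⟨0,[(7,0),(6,0)]⟩,⟨0,[(30,0)]⟩⟩
  ⟨false,1,⟨1,[(29,0),(0,0),(21,0)]⟩,⟨9,[(2,3),(1,3),(5,0),(3,1),(4,0),(27,0)]⟩⟩ ⟨true,0,⟨1,[(36,0),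
  (0,0)]⟩,⟨0,[]⟩⟩,.o ⟨false,1,⟨0,[(7,0),(42,0)]⟩,⟨2,[(4,0),(9,0),(15,1),(16,1)]⟩⟩,.o ⟨false,1,⟨1,
  [(2,0),(26,0)]⟩,⟨1,[(1,1),(6,1),(25,1),(12,0),(2,1),(1,0)]⟩⟩,.e ⟨false,1,⟨0,[(52,0)]⟩,⟨0,[(54,
  0)]⟩⟩ ⟨false,1,⟨1,[(29,0),(0,0),(21,0)]⟩,⟨0,[]⟩⟩]⟩)))) (.K ⟨0,[0,0,1,0,-1],0,1,(⟨0,[(2,0)]⟩,⟨0,
  [(29,0),(5,0)]⟩),.k,(.r (-2) ⟨2,[(7,1),(14,0),(3,1),(0,1),(21,0)]⟩ ⟨1,[(5,1),(5,1),(32,0),(0,1),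
  (3,0)]⟩),(.r (-1) ⟨0,[(22,0)]⟩ ⟨2,[(7,0),(3,1),(4,3),(27,0),(0,0)]⟩),.k,.k,[⟨0,[(27,0)]⟩,⟨2,[(0,
  2),(4,0),(5,1),(2,0),(1,0),(27,0)]⟩,⟨2,[(1,1),(9,1),(4,2),(2,2),(7,0),(16,0)]⟩,⟨1,[(0,0),(25,0),
  (4,0)]⟩]⟩)) (.K ⟨0,[0,0,1,0,-1],0,1,(⟨0,[(1,0)]⟩,⟨0,[(28,0),(5,0)]⟩),.k,(.r (-2) ⟨2,[(6,1),(14,0),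
  (3,1),(0,1),(21,0)]⟩ ⟨1,[(4,1),(5,1),(32,0),(0,1),(3,0)]⟩),(.r (-1) ⟨0,[(21,0)]⟩ ⟨2,[(6,0),(3,1),
  (4,3),(27,0),(0,0)]⟩),.k,.k,[⟨0,[(26,0)]⟩,⟨0,[(0,0),(12,0),(16,0)]⟩,⟨2,[(10,3),(2,0),(2,1),(1,0),
  (7,2),(16,1),(0,0)]⟩,⟨2,[(0,0),(2,0),(21,0),(4,2)]⟩]⟩))) (.Q [0,-1,-1,-1,0,0,-2,-1,0,1,-2] (.p
  false [0,0,1] [1,0,-1] (⟨0,[(33,0)]⟩,⟨0,[(32,0)]⟩) .k 2 (⟨0,[(32,0)]⟩,⟨0,[(33,0)]⟩) .k (.r (-1)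
  ⟨10,[(4,7),(2,3),(1,1),(7,2),(1,4),(8,1)]⟩ ⟨0,[(13,1)]⟩)) (.Q [0,0,0,0,0,-1,0,0,0,0,0,1] (.ed
  false [1,-1,0,0,1] .k) (.S ⟨1,0,[0,0,1],[1,1,0,0,-1],[0,-1,1],(⟨22,[(25,2),(0,2),(0,22),(8,4),(4,
  5),(0,2)]⟩,⟨0,[(0,0)]⟩),⟨0,[(27,0)]⟩,(.r (-1) ⟨2,[(14,0),(5,0),(0,0),(3,0),(0,0)]⟩ ⟨2,[(6,0),(3,
  1),(4,0),(27,0),(0,0)]⟩),.k,⟨true,0,⟨0,[(46,0)]⟩,⟨0,[(45,0)]⟩⟩,⟨false,0,⟨0,[(46,0)]⟩,⟨3,[(20,1),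
  (26,0),(0,0)]⟩⟩,⟨false,1,⟨1,[(25,0),(0,0),(21,0)]⟩,⟨0,[]⟩⟩,⟨true,0,⟨0,[(50,0)]⟩,⟨0,[]⟩⟩,[.a ⟨true,
  0,⟨0,[(3,0),(6,0)]⟩,⟨0,[(26,0)]⟩⟩ ⟨false,1,⟨1,[(25,0),(0,0),(21,0)]⟩,⟨5,[(6,0),(3,1),(4,0),(27,0),
  (0,3)]⟩⟩ ⟨true,0,⟨1,[(32,0),(0,0)]⟩,⟨0,[]⟩⟩,.o ⟨false,1,⟨0,[(3,0),(42,0)]⟩,⟨17,[(1,0),(0,6),(3,0),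
  (11,4),(7,10),(13,0),(2,5),(0,2)]⟩⟩,.o ⟨false,1,⟨2,[(3,2),(2,0),(3,1),(4,0),(27,0),(0,0)]⟩,⟨2,[(2,
  0),(8,0),(14,1),(16,0),(4,0)]⟩⟩,.e ⟨false,1,⟨0,[(48,0)]⟩,⟨0,[(50,0)]⟩⟩ ⟨false,1,⟨1,[(25,0),(0,0),
  (21,0)]⟩,⟨0,[]⟩⟩]⟩) (.R ⟨0,false,false,false,[0,0,0,0,1],[0,1],[],(⟨0,[(28,0)]⟩,⟨0,[(27,0)]⟩),(⟨0,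
  [(39,0)]⟩,⟨0,[(38,0)]⟩),⟨0,[(0,0)]⟩,.k,.k,(.r 0 ⟨2,[(6,0),(3,1),(4,0),(27,0),(0,0)]⟩ ⟨2,[(14,0),
  (5,0),(0,0),(3,0),(0,0)]⟩),(.r 0 ⟨2,[(6,0),(3,1),(4,0),(27,0),(0,0)]⟩ ⟨2,[(14,0),(5,0),(0,0),(3,
  0),(0,0)]⟩),.k,.k,⟨false,1,⟨1,[(6,0),(8,0),(31,0)]⟩,⟨3,[(4,0),(14,0),(0,0)]⟩⟩,⟨true,1,⟨2,[(3,2),
  (2,0),(3,1),(4,0),(27,0),(0,0)]⟩,⟨9,[(2,6),(7,0),(0,6),(14,2),(15,2),(1,0),(3,7)]⟩⟩,⟨false,1,⟨0,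
  [(48,0)]⟩,⟨0,[(50,0)]⟩⟩,⟨true,1,⟨0,[(3,0)]⟩,⟨13,[(1,2),(0,11),(3,2),(3,4),(11,1),(3,1),(2,1),(10,
  0)]⟩⟩,⟨false,0,⟨0,[]⟩,⟨0,[]⟩⟩,⟨false,0,⟨0,[]⟩,⟨0,[]⟩⟩,[.o ⟨false,1,⟨8,[(5,0),(11,0),(2,2),(19,0),
  (2,3),(3,0)]⟩,⟨0,[(46,0)]⟩⟩,.a ⟨true,1,⟨3,[(20,1),(26,0),(0,0)]⟩,⟨0,[(10,0)]⟩⟩ ⟨false,1,⟨1,[(47,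
  0),(0,0)]⟩,⟨0,[(50,0)]⟩⟩ ⟨true,1,⟨0,[(3,0)]⟩,⟨2,[(2,0),(7,0),(0,0),(14,1),(19,1)]⟩⟩,.e ⟨false,1,
  ⟨1,[(25,0),(0,0),(21,0)]⟩,⟨0,[]⟩⟩ ⟨false,1,⟨0,[(3,0)]⟩,⟨0,[(26,0),(19,0)]⟩⟩,.o ⟨false,0,⟨2,[(2,0),
  (8,0),(14,1),(16,0),(4,0)]⟩,⟨2,[(3,2),(2,0),(3,1),(4,0),(27,0),(0,0)]⟩⟩]⟩)) (.Q [0,0,-1,0,0,0,-1,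
  0,1,0,-1,1] (.p false [0,0,1] [0,0,0,0,1] (⟨0,[(34,0)]⟩,⟨0,[(33,0)]⟩) .k 2 (⟨0,[(27,0)]⟩,⟨0,[(26,
  0)]⟩) .k (.r (-1) ⟨45,[(0,1),(4,17),(2,7),(1,3),(9,17),(20,0),(5,14)]⟩ ⟨2,[(14,1),(15,0),(0,0),(7,
  0)]⟩)) (.R ⟨0,false,false,false,[0,-1,1],[0,0,0,0,1],[],(⟨0,[(24,0)]⟩,⟨22,[(25,2),(0,2),(7,22),(1,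
  4),(4,5),(0,2)]⟩),(⟨0,[(28,0)]⟩,⟨0,[(27,0)]⟩),⟨2,[(8,0),(14,1),(12,0),(4,2)]⟩,.k,.k,(.r (-1) ⟨0,
  [(6,0)]⟩ ⟨2,[(4,0),(8,0),(6,1),(10,0),(0,0)]⟩),(.r (-2) ⟨2,[(6,1),(14,0),(3,1),(0,1),(21,0)]⟩ ⟨1,
  [(4,1),(5,1),(32,0),(0,1),(3,0)]⟩),.k,.k,⟨false,1,⟨1,[(47,0),(0,0)]⟩,⟨0,[(50,0)]⟩⟩,⟨true,0,⟨0,[(0,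
  0)]⟩,⟨2,[(1,1),(1,1),(6,1),(0,0),(2,1),(10,0),(20,1)]⟩⟩,⟨false,0,⟨0,[(13,0),(34,0)]⟩,⟨2,[(6,1),
  (14,0),(28,0)]⟩⟩,⟨true,(-1),⟨0,[(0,0),(12,0)]⟩,⟨4,[(1,1),(1,3),(2,2),(3,1),(0,0),(13,0),(6,1),(13,
  2)]⟩⟩,⟨false,0,⟨0,[]⟩,⟨0,[]⟩⟩,⟨false,0,⟨0,[]⟩,⟨0,[]⟩⟩,[.o ⟨false,0,⟨11,[(0,2),(1,3),(23,4),(6,0),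
  (6,1),(2,3)]⟩,⟨0,[(3,0),(42,0)]⟩⟩,.a ⟨true,0,⟨0,[(26,0)]⟩,⟨0,[(3,0),(6,0)]⟩⟩ ⟨false,1,⟨1,[(47,0),
  (0,0)]⟩,⟨0,[(50,0)]⟩⟩ ⟨true,0,⟨0,[(0,0)]⟩,⟨2,[(1,1),(1,1),(6,1),(0,0),(2,1),(10,0),(20,1)]⟩⟩,.e
  ⟨false,1,⟨1,[(25,0),(0,0),(21,0)]⟩,⟨0,[]⟩⟩ ⟨false,0,⟨0,[(0,0)]⟩,⟨0,[(3,0),(28,0),(13,0)]⟩⟩,.o
  ⟨false,0,⟨2,[(1,0),(9,0),(2,0),(17,1),(10,0),(2,0)]⟩,⟨0,[(18,0),(28,0)]⟩⟩]⟩) (.Q [0,0,0,0,0,-1,0,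
  0,0,0,0,1] (.ed false [1,-1,0,0,1] .k) (.K ⟨0,[0,-1,0,0,1],(-1),(-1),(⟨0,[(0,0)]⟩,⟨22,[(26,2),(0,
  2),(0,22),(8,4),(4,5),(0,2)]⟩),(.r 0 ⟨2,[(7,0),(3,1),(4,0),(27,0),(0,0)]⟩ ⟨2,[(15,0),(5,0),(0,0),
  (3,0),(0,0)]⟩),(.r (-1) ⟨2,[(7,2),(8,1),(15,0),(0,0),(7,0)]⟩ ⟨7,[(5,4),(4,3),(10,0),(0,0),(26,
  2)]⟩),.k,(.r 0 ⟨2,[(7,0),(3,1),(4,3),(27,0),(0,0)]⟩ ⟨0,[(22,0)]⟩),.k,[⟨0,[(1,0),(46,0)]⟩,⟨9,[(3,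
  6),(7,0),(0,6),(14,2),(15,2),(1,0),(3,7)]⟩,⟨1,[(4,0),(21,0),(19,0)]⟩,⟨2,[(3,1),(3,0),(3,1),(5,0),
  (1,0),(7,0)]⟩]⟩) (.K ⟨0,[0,0,1,0,-1],0,1,(⟨0,[(0,0),(24,0)]⟩,⟨0,[(29,0),(5,0)]⟩),.k,(.r (-2) ⟨2,
  [(7,1),(14,0),(3,1),(0,1),(21,0)]⟩ ⟨1,[(5,1),(5,1),(32,0),(0,1),(3,0)]⟩),(.r (-1) ⟨0,[(22,0)]⟩ ⟨2,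
  [(7,0),(3,1),(4,3),(27,0),(0,0)]⟩),.k,.k,[⟨0,[(27,0)]⟩,⟨0,[(1,0)]⟩,⟨2,[(3,1),(3,0),(3,1),(5,3),(1,
  0),(7,0)]⟩,⟨6,[(1,2),(2,2),(2,1),(14,0),(3,0),(4,3)]⟩]⟩))))) (.Q [0,0,0,0,0,0,0,0,0,1,-1,-1] (.ed
  true [0,0,1,0,1] (.r 0 ⟨7,[(3,1),(4,1),(0,2),(6,0),(10,1),(9,0)]⟩ ⟨1,[(12,1),(9,0),(0,0),(21,
  0)]⟩)) (.Q [0,0,0,0,0,1,0,0,0,0,0,-1] (.ed true [1,-1,0,0,1] .k) (.Q [0,0,1,0,-1,0,0,0,1,0,0,1]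
  (.p true [0,0,0,0,1] [] (⟨0,[(27,0)]⟩,⟨0,[(26,0)]⟩) .k 0 (⟨0,[]⟩,⟨0,[]⟩) .k .k) (.R ⟨0,false,
  false,false,[0,1,0,0,-1],[0,1],[1,0,1],(⟨0,[(1,0)]⟩,⟨0,[(28,0),(9,0)]⟩),(⟨0,[(39,0)]⟩,⟨0,[(38,
  0)]⟩),⟨0,[(28,0)]⟩,(.r (-1) ⟨2,[(14,0),(5,0),(0,0),(3,0),(0,0)]⟩ ⟨2,[(6,0),(3,1),(4,0),(27,0),(0,
  0)]⟩),.k,.k,.k,.k,.k,⟨true,0,⟨0,[(46,0)]⟩,⟨3,[(4,0),(14,0),(0,0)]⟩⟩,⟨false,0,⟨0,[(0,0),(46,0)]⟩,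
  ⟨0,[(25,0)]⟩⟩,⟨false,0,⟨0,[(46,0)]⟩,⟨3,[(20,1),(26,0),(0,0)]⟩⟩,⟨true,(-1),⟨1,[(0,0),(2,0),(40,
  0)]⟩,⟨0,[(25,0)]⟩⟩,⟨false,0,⟨0,[]⟩,⟨0,[]⟩⟩,⟨false,0,⟨0,[]⟩,⟨0,[]⟩⟩,[.o ⟨false,1,⟨8,[(5,0),(11,0),
  (2,2),(19,0),(2,3),(3,0)]⟩,⟨0,[(46,0)]⟩⟩,.e ⟨false,1,⟨1,[(25,0),(0,0),(21,0)]⟩,⟨5,[(6,0),(3,1),(4,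
  0),(27,0),(0,3)]⟩⟩ ⟨false,0,⟨0,[(0,0),(43,0),(3,0)]⟩,⟨2,[(6,0),(3,1),(4,0),(9,2),(17,0),(0,0)]⟩⟩,
  .o ⟨false,2,⟨1,[(25,1),(17,0),(3,0)]⟩,⟨0,[(0,0)]⟩⟩,.a ⟨true,1,⟨0,[(25,0)]⟩,⟨2,[(0,2),(9,0),(31,0),
  (1,0),(2,0),(0,0)]⟩⟩ ⟨true,0,⟨0,[]⟩,⟨0,[(50,0)]⟩⟩ ⟨false,0,⟨0,[(0,0),(43,0),(3,0)]⟩,⟨0,[(25,0),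
  (20,0)]⟩⟩]⟩) (.Q [0,-1,0,0,1,0,0,0,-1,0,0,-1] (.p false [0,0,0,0,1] [] (⟨0,[(28,0)]⟩,⟨0,[(27,
  0)]⟩) .k 0 (⟨0,[]⟩,⟨0,[]⟩) .k .k) (.R ⟨2,true,false,false,[0,1],[0,0,0,0,1],[1,1,1,1],(⟨0,[]⟩,⟨0,
  []⟩),(⟨0,[(29,0)]⟩,⟨0,[(28,0)]⟩),⟨0,[]⟩,.k,.k,.k,(.r (-1) ⟨2,[(15,0),(5,0),(0,0),(3,0),(0,0)]⟩ ⟨0,
  [(1,0),(2,0)]⟩),.k,.k,⟨true,0,⟨3,[(5,0),(14,0),(0,0)]⟩,⟨0,[(47,0)]⟩⟩,⟨false,0,⟨0,[(27,0)]⟩,⟨0,[(1,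
  0)]⟩⟩,⟨false,0,⟨0,[]⟩,⟨1,[(26,0),(0,0),(21,0)]⟩⟩,⟨true,(-1),⟨0,[(4,0)]⟩,⟨4,[(1,2),(8,0),(3,0),(6,
  0),(4,1)]⟩⟩,⟨true,0,⟨0,[(46,0)]⟩,⟨0,[(47,0)]⟩⟩,⟨false,0,⟨0,[(27,0)]⟩,⟨0,[(0,0)]⟩⟩,[]⟩) (.R ⟨0,
  false,false,false,[0,0,0,0,1],[0,1],[1,0,2,1],(⟨0,[(29,0)]⟩,⟨0,[(28,0)]⟩),(⟨0,[(40,0)]⟩,⟨0,[(39,
  0)]⟩),⟨0,[(2,0)]⟩,.k,.k,(.r 0 ⟨0,[(1,0),(2,0)]⟩ ⟨2,[(15,0),(5,0),(0,0),(3,0),(0,0)]⟩),(.r 0 ⟨0,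
  [(1,0),(2,0)]⟩ ⟨2,[(15,0),(5,0),(0,0),(3,0),(0,0)]⟩),.k,.k,⟨false,0,⟨0,[]⟩,⟨1,[(26,0),(0,0),(20,
  0)]⟩⟩,⟨true,1,⟨0,[(1,0)]⟩,⟨8,[(4,8),(0,3),(4,0),(1,1),(9,2),(10,1),(15,2)]⟩⟩,⟨true,0,⟨8,[(5,3),(4,
  0),(1,1),(9,2),(10,1),(15,2)]⟩,⟨1,[(1,2),(2,2),(40,0)]⟩⟩,⟨false,2,⟨6,[(1,4),(3,0),(4,0),(10,1),(4,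
  1),(22,5)]⟩,⟨0,[(4,0)]⟩⟩,⟨false,0,⟨0,[]⟩,⟨0,[]⟩⟩,⟨false,0,⟨0,[]⟩,⟨0,[]⟩⟩,[.o ⟨false,1,⟨8,[(6,0),
  (11,0),(2,2),(19,0),(2,3),(3,0)]⟩,⟨0,[(47,0)]⟩⟩,.a ⟨true,1,⟨3,[(21,1),(26,0),(0,0)]⟩,⟨0,[(11,
  0)]⟩⟩ ⟨true,0,⟨8,[(5,3),(4,0),(1,1),(9,2),(10,1),(15,2)]⟩,⟨0,[(1,0),(2,0)]⟩⟩ ⟨false,2,⟨3,[(1,3),
  (19,1),(26,0),(0,0)]⟩,⟨0,[(4,0)]⟩⟩,.o ⟨false,0,⟨1,[(0,1),(43,0),(4,0)]⟩,⟨0,[(26,0)]⟩⟩,.o ⟨false,0,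
  ⟨19,[(4,5),(0,1),(0,1),(5,5),(14,13),(5,3),(10,8),(4,2)]⟩,⟨0,[(1,0)]⟩⟩]⟩))) (.Q [0,0,0,0,0,0,1,0,
  1,-1,1,1] (.p true [0,0,1,0,1] [1] (⟨0,[(27,0),(6,0)]⟩,⟨0,[(1,0)]⟩) .k 1 (⟨0,[]⟩,⟨0,[]⟩) .k (.r 0
  ⟨7,[(5,1),(4,1),(0,2),(6,0),(10,1),(9,0)]⟩ ⟨1,[(14,1),(9,0),(0,0),(21,0)]⟩)) (.S ⟨1,0,[0,0,1],[1,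
  1,0,0,-1],[0,-1,1],(⟨22,[(25,2),(0,2),(0,22),(8,4),(4,5),(0,2)]⟩,⟨0,[(1,0)]⟩),⟨0,[(27,0)]⟩,(.r
  (-1) ⟨2,[(14,0),(5,0),(0,0),(3,0),(0,0)]⟩ ⟨2,[(6,0),(3,1),(4,0),(27,0),(0,0)]⟩),.k,⟨true,0,⟨0,
  [(46,0)]⟩,⟨0,[(45,0)]⟩⟩,⟨false,0,⟨0,[(46,0)]⟩,⟨3,[(20,1),(26,0),(0,0)]⟩⟩,⟨false,1,⟨1,[(25,0),(0,
  0),(21,0)]⟩,⟨0,[]⟩⟩,⟨true,0,⟨0,[(50,0)]⟩,⟨0,[]⟩⟩,[.o ⟨false,1,⟨0,[(25,0)]⟩,⟨0,[(0,0),(17,0)]⟩⟩,.e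
  ⟨false,1,⟨0,[(48,0)]⟩,⟨0,[(40,0)]⟩⟩ ⟨false,1,⟨1,[(25,0),(0,0),(21,0)]⟩,⟨5,[(6,0),(3,1),(4,0),(27,
  0),(0,3)]⟩⟩,.a ⟨true,1,⟨2,[(10,0),(14,2),(16,0),(1,0),(2,0),(0,0)]⟩,⟨6,[(0,4),(2,1),(6,0),(0,4),
  (30,1),(1,2),(3,2)]⟩⟩ ⟨false,1,⟨1,[(32,0),(0,0),(14,1)]⟩,⟨5,[(6,0),(3,1),(4,0),(27,0),(0,3)]⟩⟩
  ⟨true,0,⟨1,[(32,0),(0,0)]⟩,⟨5,[(6,0),(3,1),(4,0),(27,0),(0,3)]⟩⟩,.o ⟨false,1,⟨0,[(25,0)]⟩,⟨0,[(0,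
  0),(17,0)]⟩⟩]⟩) (.Q [0,0,0,0,1,0,1,1,-1,0,1,-1] (.p true [0,0,1] [0,0,0,0,1] (⟨0,[(35,0)]⟩,⟨0,
  [(34,0)]⟩) .k 2 (⟨0,[(28,0)]⟩,⟨0,[(27,0)]⟩) .k (.r (-1) ⟨10,[(6,3),(2,1),(1,0),(9,3),(8,0),(17,
  3)]⟩ ⟨2,[(15,1),(15,0),(0,0),(7,0)]⟩)) (.Q [0,0,0,0,1,0,2,0,0,-1,2] (.p true [0,0,1] [1,0,-1] (⟨0,
  [(36,0)]⟩,⟨0,[(35,0)]⟩) .k 2 (⟨0,[(35,0)]⟩,⟨0,[(36,0)]⟩) .k (.r (-1) ⟨10,[(7,7),(2,3),(1,1),(7,2),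
  (1,4),(8,1)]⟩ ⟨0,[(16,1)]⟩)) (.Q [0,-1,-1,-1,0,0,-2,-1,0,1,-2] (.p false [0,0,1] [1,0,-1] (⟨0,
  [(37,0)]⟩,⟨0,[(36,0)]⟩) .k 2 (⟨0,[(36,0)]⟩,⟨0,[(37,0)]⟩) .k (.r (-1) ⟨10,[(8,7),(2,3),(1,1),(7,2),
  (1,4),(8,1)]⟩ ⟨0,[(17,1)]⟩)) (.R ⟨0,false,false,false,[0,-1,1],[1,-1,-1],[],(⟨0,[(27,0)]⟩,⟨22,
  [(28,2),(0,2),(7,22),(1,4),(4,5),(0,2)]⟩),(⟨0,[(26,0)]⟩,⟨22,[(28,2),(0,2),(8,22),(0,4),(4,5),(0,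
  2)]⟩),⟨2,[(11,0),(14,1),(12,0),(4,2)]⟩,.k,.k,(.r (-1) ⟨0,[(9,0)]⟩ ⟨2,[(7,0),(8,0),(6,1),(10,0),(0,
  0)]⟩),.k,.k,.k,⟨true,0,⟨10,[(9,0),(2,5),(1,2),(9,0),(8,2),(17,0)]⟩,⟨0,[(18,0),(30,0)]⟩⟩,⟨false,0,
  ⟨0,[(21,0),(10,0)]⟩,⟨0,[(1,0)]⟩⟩,⟨false,0,⟨0,[(16,0),(34,0)]⟩,⟨2,[(9,1),(14,0),(28,0)]⟩⟩,⟨true,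
  (-1),⟨0,[(0,0),(15,0)]⟩,⟨2,[(1,0),(7,0),(0,1),(3,0),(18,2)]⟩⟩,⟨false,0,⟨0,[]⟩,⟨0,[]⟩⟩,⟨false,0,⟨0,
  []⟩,⟨0,[]⟩⟩,[.o ⟨false,0,⟨6,[(0,1),(13,0),(3,2),(15,1),(11,0),(2,4)]⟩,⟨0,[(10,0)]⟩⟩,.a ⟨true,0,⟨0,
  [(0,0),(34,0)]⟩,⟨0,[(8,0),(4,0)]⟩⟩ ⟨false,1,⟨1,[(50,0),(0,0)]⟩,⟨0,[(53,0)]⟩⟩ ⟨true,0,⟨0,[(0,0)]⟩,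
  ⟨2,[(1,1),(5,0),(0,0),(5,1),(18,2)]⟩⟩,.e ⟨false,1,⟨1,[(28,0),(0,0),(21,0)]⟩,⟨0,[]⟩⟩ ⟨false,0,⟨0,
  [(0,0)]⟩,⟨6,[(1,3),(6,2),(5,1),(9,0),(8,2),(1,1),(15,0)]⟩⟩,.o ⟨false,0,⟨0,[(1,0),(12,0)]⟩,⟨0,[(21,
  0),(28,0)]⟩⟩]⟩) (.Q [0,0,0,0,0,2,0,0,0,-1,0,1] (.p true [0,0,0,0,1] [1] (⟨0,[(31,0)]⟩,⟨0,[(30,
  0)]⟩) .k 1 (⟨0,[]⟩,⟨0,[]⟩) .k .k) (.R ⟨0,false,false,false,[1,-1,0,0,-1],[1,-1,-1],[],(⟨0,[(6,0),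
  (21,0)]⟩,⟨4,[(0,1),(28,0),(0,0),(1,2),(7,0),(5,0)]⟩),(⟨0,[(27,0)]⟩,⟨22,[(29,2),(0,2),(8,22),(0,4),
  (4,5),(0,2)]⟩),⟨0,[(0,0)]⟩,(.r (-1) ⟨1,[(10,0),(8,0),(32,0)]⟩ ⟨16,[(17,2),(5,7),(0,2),(10,4),(0,
  4),(7,1)]⟩),.k,(.r (-2) ⟨5,[(2,1),(7,5),(8,1),(15,3),(10,0),(5,4)]⟩ ⟨21,[(1,1),(6,1),(4,9),(1,3),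
  (1,14),(5,4),(22,0)]⟩),.k,.k,.k,⟨true,0,⟨18,[(1,1),(8,2),(2,9),(1,4),(9,2),(8,0),(11,0)]⟩,⟨0,[(19,
  0),(30,0)]⟩⟩,⟨false,0,⟨0,[(7,0),(14,0),(25,0),(3,0)]⟩,⟨0,[(2,0),(1,0)]⟩⟩,⟨false,0,⟨3,[(8,0),(14,
  0),(0,0)]⟩,⟨1,[(10,0),(8,0),(32,0)]⟩⟩,⟨true,(-1),⟨0,[(7,0),(12,0)]⟩,⟨0,[(3,0)]⟩⟩,⟨false,0,⟨0,[]⟩,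
  ⟨0,[]⟩⟩,⟨false,0,⟨0,[]⟩,⟨0,[]⟩⟩,[.o ⟨false,0,⟨1,[(10,0),(4,0),(3,2),(2,0)]⟩,⟨0,[(11,0)]⟩⟩,.e
  ⟨false,1,⟨1,[(51,0),(0,0)]⟩,⟨0,[(54,0)]⟩⟩ ⟨false,1,⟨1,[(7,1),(2,0),(8,0),(0,1),(30,0),(0,1)]⟩,⟨0,
  [(1,0),(2,0)]⟩⟩,.a ⟨true,0,⟨0,[(4,0),(31,0)]⟩,⟨0,[(7,0),(40,0),(3,0)]⟩⟩ ⟨false,1,⟨1,[(29,0),(0,0),
  (21,0)]⟩,⟨0,[]⟩⟩ ⟨true,0,⟨1,[(7,1),(2,0),(8,0),(0,1),(31,0)]⟩,⟨0,[(1,0),(2,0)]⟩⟩,.o ⟨false,0,⟨1,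
  [(3,0),(4,0),(6,0),(13,0),(20,0)]⟩,⟨1,[(7,1),(39,0),(0,1),(2,0),(0,1)]⟩⟩]⟩) (.Q [0,0,1,0,-1,0,0,0,
  1,0,0,1] (.p true [0,0,0,0,1] [] (⟨0,[(32,0)]⟩,⟨0,[(31,0)]⟩) .k 0 (⟨0,[]⟩,⟨0,[]⟩) .k .k) (.K ⟨0,
  [0,0,0,0,1],(-1),(-1),(⟨0,[(33,0)]⟩,⟨0,[(32,0)]⟩),.k,(.r 0 ⟨2,[(11,0),(3,1),(4,0),(27,0),(0,0)]⟩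
  ⟨2,[(19,0),(5,0),(0,0),(3,0),(0,0)]⟩),(.r 0 ⟨16,[(18,2),(5,7),(0,2),(10,4),(0,4),(7,1)]⟩ ⟨1,[(11,
  0),(8,0),(32,0)]⟩),.k,.k,[⟨0,[(3,0),(1,0)]⟩,⟨0,[(0,0)]⟩,⟨0,[(30,0)]⟩,⟨0,[(0,0),(44,0)]⟩]⟩) (.R ⟨0,
  false,false,false,[0,-1,0,0,1],[1,-1,-1],[0,1],(⟨0,[(6,0)]⟩,⟨22,[(30,2),(0,2),(0,22),(8,4),(4,5),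
  (0,2)]⟩),(⟨0,[(28,0)]⟩,⟨22,[(30,2),(0,2),(8,22),(0,4),(4,5),(0,2)]⟩),⟨2,[(1,1),(30,0),(8,0),(4,
  2)]⟩,(.r 0 ⟨0,[(0,0),(7,0)]⟩ ⟨2,[(19,0),(5,0),(0,0),(3,0),(0,0)]⟩),.k,(.r (-1) ⟨13,[(3,3),(7,12),
  (3,1),(4,4),(15,7),(8,1),(1,0)]⟩ ⟨7,[(9,4),(4,3),(10,0),(0,0),(26,2)]⟩),.k,.k,.k,⟨false,0,⟨0,[(2,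
  0),(12,4),(0,1),(31,1),(0,4),(3,4)]⟩,⟨1,[(11,0),(8,2),(32,0)]⟩⟩,⟨true,0,⟨0,[(5,0)]⟩,⟨21,[(2,5),(0,
  5),(4,11),(0,5),(6,1),(14,9),(16,4),(4,8)]⟩⟩,⟨true,0,⟨3,[(9,0),(14,0),(0,0)]⟩,⟨0,[(0,0),(7,0)]⟩⟩,
  ⟨false,1,⟨0,[(5,0),(14,0),(32,0)]⟩,⟨0,[(8,0),(3,0)]⟩⟩,⟨false,0,⟨0,[]⟩,⟨0,[]⟩⟩,⟨false,0,⟨0,[]⟩,⟨0,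
  []⟩⟩,[.o ⟨false,0,⟨1,[(11,0),(4,0),(3,2),(2,0)]⟩,⟨0,[(12,0)]⟩⟩,.a ⟨true,0,⟨2,[(11,0),(3,0),(3,3),
  (3,0),(10,1)]⟩,⟨6,[(2,0),(7,0),(3,0),(20,3),(11,0),(1,1)]⟩⟩ ⟨false,1,⟨13,[(3,1),(7,3),(13,3),(10,
  3),(10,0),(4,4)]⟩,⟨0,[]⟩⟩ ⟨true,1,⟨1,[(5,1),(5,0),(8,2),(32,0)]⟩,⟨0,[(2,0),(5,0),(7,0),(32,0),(3,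
  0)]⟩⟩,.o ⟨false,0,⟨21,[(2,1),(0,1),(4,3),(0,1),(6,7),(14,17),(16,8),(4,2)]⟩,⟨0,[(0,0)]⟩⟩,.e ⟨true,
  0,⟨1,[(0,0),(7,0),(40,0)]⟩,⟨1,[(37,0),(0,0)]⟩⟩ ⟨true,1,⟨1,[(0,0),(4,0),(5,0),(8,2),(13,0)]⟩,⟨0,
  [(2,0),(5,0),(7,0),(32,0),(3,0)]⟩⟩]⟩)))) (.Q [0,0,0,0,0,1,0,0,0,-1,1,1] (.p true [0,0,1,0,1] [1]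
  (⟨0,[(30,0),(6,0)]⟩,⟨0,[(4,0)]⟩) .k 1 (⟨0,[]⟩,⟨0,[]⟩) .k (.r 0 ⟨7,[(8,1),(4,1),(0,2),(6,0),(10,1),
  (9,0)]⟩ ⟨1,[(17,1),(9,0),(0,0),(21,0)]⟩)) (.R ⟨0,false,false,true,[1,0,-1,0,-1],[1,-1],[0,1],(⟨0,
  [(5,0)]⟩,⟨0,[(31,0),(6,0)]⟩),(⟨0,[(41,0)]⟩,⟨0,[(42,0)]⟩),⟨0,[(0,0)]⟩,.k,.k,(.r (-1) ⟨1,[(9,0),(8,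
  2),(32,0)]⟩ ⟨0,[(22,0)]⟩),(.r 0 ⟨0,[(16,0),(34,0)]⟩ ⟨2,[(9,1),(14,0),(28,3)]⟩),.k,.k,⟨true,0,⟨3,
  [(7,0),(14,0),(0,0)]⟩,⟨0,[(49,0)]⟩⟩,⟨false,0,⟨3,[(6,3),(1,1),(9,1),(16,1),(9,0),(4,0),(0,1)]⟩,⟨1,
  [(3,1),(42,0),(3,0)]⟩⟩,⟨false,0,⟨7,[(9,1),(4,1),(0,2),(6,0),(10,1),(9,0)]⟩,⟨0,[(18,0),(32,0)]⟩⟩,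
  ⟨true,(-1),⟨0,[(6,0),(26,0)]⟩,⟨1,[(3,1),(12,0),(1,0),(27,0),(0,0),(3,1)]⟩⟩,⟨false,0,⟨0,[]⟩,⟨0,
  []⟩⟩,⟨false,0,⟨0,[]⟩,⟨0,[]⟩⟩,[.e ⟨false,0,⟨5,[(9,0),(3,1),(4,0),(27,0),(0,3)]⟩,⟨1,[(28,0),(0,0),
  (21,0)]⟩⟩ ⟨false,0,⟨0,[(6,0),(28,0),(14,0)]⟩,⟨5,[(1,1),(0,1),(0,3),(3,1),(38,2),(0,3),(3,4)]⟩⟩,.o
  ⟨false,0,⟨0,[(49,0)]⟩,⟨8,[(8,0),(11,0),(2,2),(19,0),(2,3),(3,0)]⟩⟩,.a ⟨true,0,⟨0,[(3,0)]⟩,⟨3,[(6,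
  3),(1,1),(9,1),(16,1),(9,0),(4,0),(0,1)]⟩⟩ ⟨true,0,⟨0,[(53,0)]⟩,⟨0,[]⟩⟩ ⟨false,0,⟨1,[(6,1),(28,1),
  (14,0),(0,0)]⟩,⟨5,[(1,1),(0,1),(0,3),(3,1),(38,2),(0,3),(3,4)]⟩⟩,.o ⟨false,0,⟨1,[(1,0),(0,0),(0,
  0),(3,0),(38,0),(2,0)]⟩,⟨3,[(6,3),(1,1),(9,1),(16,1),(10,0),(3,2),(0,1)]⟩⟩]⟩) (.Q [0,-1,0,0,1,0,0,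
  0,-1,0,0,-1] (.p false [0,0,0,0,1] [] (⟨0,[(31,0)]⟩,⟨0,[(30,0)]⟩) .k 0 (⟨0,[]⟩,⟨0,[]⟩) .k .k) (.R
  ⟨2,true,false,false,[0,1],[0,0,0,0,1],[1,1,1,1],(⟨0,[]⟩,⟨0,[]⟩),(⟨0,[(32,0)]⟩,⟨0,[(31,0)]⟩),⟨0,
  []⟩,.k,.k,.k,(.r (-1) ⟨2,[(18,0),(5,0),(0,0),(3,0),(0,0)]⟩ ⟨2,[(10,0),(3,1),(4,0),(27,0),(0,0)]⟩),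
  .k,.k,⟨true,0,⟨3,[(8,0),(14,0),(0,0)]⟩,⟨0,[(50,0)]⟩⟩,⟨false,0,⟨0,[(30,0)]⟩,⟨5,[(0,5),(9,0),(3,1),
  (4,0),(27,0),(0,3)]⟩⟩,⟨false,0,⟨0,[]⟩,⟨1,[(29,0),(0,0),(21,0)]⟩⟩,⟨true,(-1),⟨0,[(7,0)]⟩,⟨6,[(0,1),
  (3,0),(4,0),(7,0),(6,0),(4,3),(18,1)]⟩⟩,⟨true,0,⟨0,[(49,0)]⟩,⟨0,[(50,0)]⟩⟩,⟨false,0,⟨0,[(30,0)]⟩,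
  ⟨0,[(0,0)]⟩⟩,[]⟩) (.Q [0,0,0,0,0,0,0,0,0,0,1,-1] (.ed true [1,0,-1,0,1] (.r 0 ⟨2,[(19,1),(15,0),
  (0,0),(7,0)]⟩ ⟨10,[(10,3),(2,1),(1,0),(9,3),(8,0),(17,3)]⟩)) (.R ⟨0,false,false,false,[0,0,1,0,
  -1],[0,1],[],(⟨0,[(0,0)]⟩,⟨0,[(33,0),(5,0)]⟩),(⟨0,[(44,0)]⟩,⟨0,[(43,0)]⟩),⟨2,[(6,0),(6,2),(19,1),
  (7,0),(4,2)]⟩,.k,.k,(.r (-2) ⟨2,[(11,1),(14,0),(3,1),(0,1),(21,0)]⟩ ⟨1,[(9,1),(5,1),(32,0),(0,1),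
  (3,0)]⟩),(.r (-2) ⟨2,[(11,1),(14,0),(3,1),(0,1),(21,0)]⟩ ⟨1,[(9,1),(5,1),(32,0),(0,1),(3,0)]⟩),.k,
  .k,⟨false,1,⟨1,[(11,0),(8,0),(31,0)]⟩,⟨3,[(9,0),(14,0),(0,0)]⟩⟩,⟨true,0,⟨3,[(1,1),(1,1),(27,1),
  (16,0),(3,1),(0,0)]⟩,⟨0,[(4,0),(4,0),(41,0)]⟩⟩,⟨false,0,⟨0,[(20,0)]⟩,⟨10,[(11,3),(2,1),(1,0),(9,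
  3),(8,0),(17,3)]⟩⟩,⟨true,(-1),⟨0,[(1,0),(19,0)]⟩,⟨0,[(4,0),(46,0)]⟩⟩,⟨false,0,⟨0,[]⟩,⟨0,[]⟩⟩,
  ⟨false,0,⟨0,[]⟩,⟨0,[]⟩⟩,[.o ⟨false,1,⟨8,[(10,0),(11,0),(2,2),(19,0),(2,3),(3,0)]⟩,⟨0,[(51,0)]⟩⟩,
  .a ⟨true,1,⟨3,[(25,1),(26,0),(0,0)]⟩,⟨0,[(15,0)]⟩⟩ ⟨false,1,⟨1,[(52,0),(0,0)]⟩,⟨0,[(55,0)]⟩⟩
  ⟨true,0,⟨11,[(1,9),(1,5),(6,3),(10,3),(9,1),(16,0),(4,10)]⟩,⟨2,[(4,2),(4,0),(5,3),(3,0),(0,0),(27,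
  1)]⟩⟩,.e ⟨false,1,⟨1,[(30,0),(0,0),(21,0)]⟩,⟨0,[]⟩⟩ ⟨false,0,⟨11,[(1,9),(1,5),(6,3),(10,3),(9,1),
  (16,0),(4,10)]⟩,⟨0,[(4,0),(15,0),(30,0)]⟩⟩,.o ⟨false,1,⟨2,[(4,2),(4,0),(5,0),(3,0),(0,0),(27,1)]⟩,
  ⟨3,[(1,1),(1,1),(27,1),(16,0),(3,1),(0,0)]⟩⟩]⟩) (.K ⟨0,[1,0,1,0,-1],0,1,(⟨0,[(32,0),(7,0)]⟩,⟨0,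
  [(0,0)]⟩),.k,(.r (-2) ⟨2,[(11,1),(14,0),(3,1),(0,1),(21,0)]⟩ ⟨1,[(9,1),(5,1),(32,0),(0,1),(3,
  0)]⟩),(.r (-1) ⟨0,[(26,0)]⟩ ⟨2,[(11,0),(3,1),(4,3),(27,0),(0,0)]⟩),.k,.k,[⟨1,[(1,1),(46,0),(4,
  0)]⟩,⟨6,[(4,6),(4,1),(5,2),(3,3),(0,0),(26,1),(1,0)]⟩,⟨7,[(3,1),(4,7),(9,2),(1,0),(0,3),(23,1),(2,
  4),(0,0)]⟩,⟨4,[(4,3),(6,0),(13,0),(4,0),(6,0),(3,0),(1,0),(3,1),(7,0)]⟩]⟩))))) (.Q [0,0,1,0,-1,0,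
  0,0,1,0,0,1] (.p true [0,0,0,0,1] [] (⟨0,[(29,0)]⟩,⟨0,[(28,0)]⟩) .k 0 (⟨0,[]⟩,⟨0,[]⟩) .k .k) (.S
  ⟨1,0,[0,0,1],[1,1,0,0,-1],[0,-1,1],(⟨22,[(27,2),(0,2),(0,22),(8,4),(4,5),(0,2)]⟩,⟨0,[(3,0)]⟩),⟨0,
  [(29,0)]⟩,(.r (-1) ⟨2,[(16,0),(5,0),(0,0),(3,0),(0,0)]⟩ ⟨2,[(8,0),(3,1),(4,0),(27,0),(0,0)]⟩),.k,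
  ⟨true,0,⟨0,[(48,0)]⟩,⟨0,[(47,0)]⟩⟩,⟨false,0,⟨0,[(48,0)]⟩,⟨3,[(22,1),(26,0),(0,0)]⟩⟩,⟨false,1,⟨1,
  [(27,0),(0,0),(21,0)]⟩,⟨0,[]⟩⟩,⟨true,0,⟨0,[(52,0)]⟩,⟨0,[]⟩⟩,[.o ⟨false,1,⟨0,[(27,0)]⟩,⟨2,[(1,0),
  (3,1),(1,0),(37,0),(4,0)]⟩⟩,.e ⟨false,1,⟨0,[(50,0)]⟩,⟨0,[(42,0)]⟩⟩ ⟨false,1,⟨1,[(27,0),(0,0),(21,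
  0)]⟩,⟨5,[(8,0),(3,1),(4,0),(27,0),(0,3)]⟩⟩,.a ⟨true,1,⟨3,[(2,1),(24,1),(6,1),(9,0),(4,2)]⟩,⟨0,[(0,
  0)]⟩⟩ ⟨false,1,⟨1,[(34,0),(0,0),(14,1)]⟩,⟨5,[(8,0),(3,1),(4,0),(27,0),(0,3)]⟩⟩ ⟨true,0,⟨1,[(34,0),
  (0,0)]⟩,⟨5,[(8,0),(3,1),(4,0),(27,0),(0,3)]⟩⟩,.o ⟨false,1,⟨0,[(27,0)]⟩,⟨2,[(1,0),(3,1),(1,0),(37,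
  0),(4,0)]⟩⟩]⟩) (.S ⟨1,0,[0,-1,1],[1,1,0,0,-1],[0,0,1],(⟨22,[(27,2),(0,2),(0,22),(8,4),(4,5),(0,
  2)]⟩,⟨0,[(3,0)]⟩),⟨0,[(29,0)]⟩,(.r (-1) ⟨2,[(16,0),(5,0),(0,0),(3,0),(0,0)]⟩ ⟨0,[(0,0),(4,0)]⟩),
  .k,⟨false,0,⟨0,[(48,0)]⟩,⟨3,[(22,1),(26,0),(0,0)]⟩⟩,⟨true,0,⟨0,[(48,0)]⟩,⟨0,[(47,0)]⟩⟩,⟨true,0,⟨0,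
  [(52,0)]⟩,⟨0,[]⟩⟩,⟨false,1,⟨1,[(27,0),(0,0),(21,0)]⟩,⟨0,[]⟩⟩,[.a ⟨true,1,⟨5,[(0,0),(1,0),(24,3),
  (6,0),(3,0),(1,0),(3,1),(5,2)]⟩,⟨1,[(1,0),(3,0),(1,0),(4,0)]⟩⟩ ⟨true,0,⟨1,[(34,0),(0,0)]⟩,⟨0,[]⟩⟩
  ⟨false,1,⟨1,[(27,0),(0,0),(21,0)]⟩,⟨1,[(0,0),(4,0),(40,0)]⟩⟩,.e ⟨false,1,⟨1,[(27,0),(0,0),(21,
  0)]⟩,⟨1,[(0,0),(4,0),(40,0)]⟩⟩ ⟨false,1,⟨0,[(50,0)]⟩,⟨0,[(42,0)]⟩⟩,.o ⟨false,1,⟨0,[(0,0)]⟩,⟨19,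
  [(5,5),(0,1),(0,1),(5,5),(14,13),(5,3),(10,8),(4,2)]⟩⟩,.o ⟨false,1,⟨0,[(27,0)]⟩,⟨2,[(1,0),(3,1),
  (1,0),(37,0),(4,0)]⟩⟩]⟩))))) (.Q [0,1,-1,1,0,0,-1,0,-1,1,-1,-1] (.p false [-1,0,1,0,1] [] (⟨0,[(0,
  0)]⟩,⟨0,[(25,0),(6,0)]⟩) .k 0 (⟨0,[]⟩,⟨0,[]⟩) .k (.r 0 ⟨7,[(4,1),(4,1),(0,2),(6,0),(10,1),(9,0)]⟩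
  ⟨1,[(13,1),(9,0),(0,0),(21,0)]⟩)) (.Q [0,0,0,0,1,0,1,1,-1,0,1,-1] (.p false [0,0,-1,0,1] [] (⟨2,
  [(1,1),(5,4),(19,0),(7,0),(4,2)]⟩,⟨0,[(26,0),(7,0)]⟩) .k 0 (⟨0,[]⟩,⟨0,[]⟩) .k (.r 0 ⟨2,[(14,1),
  (15,0),(0,0),(7,0)]⟩ ⟨10,[(5,3),(2,1),(1,0),(9,3),(8,0),(17,3)]⟩)) (.Q [0,0,0,0,-1,0,-2,-2,0,1,
  -2] (.p false [0,0,1] [1,0,-1] (⟨0,[(35,0)]⟩,⟨0,[(34,0)]⟩) .k 2 (⟨0,[(34,0)]⟩,⟨0,[(35,0)]⟩) .k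
  (.r (-1) ⟨10,[(6,7),(2,3),(1,1),(7,2),(1,4),(8,1)]⟩ ⟨0,[(15,1)]⟩)) (.Q [0,0,0,0,1,0,2,0,-1,0,2,
  -1] (.p true [0,0,1] [0,0,-1,0,1] (⟨0,[(36,0)]⟩,⟨0,[(35,0)]⟩) .k 2 (⟨2,[(3,1),(5,4),(19,0),(7,0),
  (4,2)]⟩,⟨0,[(28,0),(7,0)]⟩) .k (.r (-1) ⟨1,[(6,1),(0,1),(4,1),(30,0),(5,0)]⟩ ⟨2,[(16,4),(15,0),(0,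
  0),(7,0)]⟩)) (.K ⟨0,[0,0,-1,0,1],(-1),(-1),(⟨2,[(4,1),(5,4),(19,0),(7,0),(4,2)]⟩,⟨0,[(29,0),(7,
  0)]⟩),.k,(.r 0 ⟨2,[(8,0),(3,1),(4,3),(27,0),(0,0)]⟩ ⟨0,[(23,0)]⟩),(.r 1 ⟨1,[(6,1),(5,1),(32,0),(0,
  1),(3,0)]⟩ ⟨2,[(8,1),(14,0),(3,1),(0,1),(21,0)]⟩),.k,.k,[⟨0,[(0,0)]⟩,⟨0,[(5,0),(7,0),(32,0),(3,
  0)]⟩,⟨0,[(2,0)]⟩,⟨0,[(5,0),(13,0)]⟩]⟩) (.Q [0,0,0,0,0,0,0,0,1,-1,0,1] (.p true [0,0,0,0,1] [1]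
  (⟨0,[(30,0)]⟩,⟨0,[(29,0)]⟩) .k 1 (⟨0,[]⟩,⟨0,[]⟩) .k .k) (.K ⟨0,[1,0,1,0,-1],0,1,(⟨0,[(30,0),(7,
  0)]⟩,⟨2,[(5,1),(5,4),(19,0),(7,0),(4,2)]⟩),.k,(.r (-2) ⟨2,[(9,1),(14,0),(3,1),(0,1),(21,0)]⟩ ⟨1,
  [(7,1),(5,1),(32,0),(0,1),(3,0)]⟩),(.r (-1) ⟨0,[(24,0)]⟩ ⟨2,[(9,0),(3,1),(4,3),(27,0),(0,0)]⟩),.k,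
  .k,[⟨0,[(0,0)]⟩,⟨6,[(3,6),(3,1),(5,2),(3,3),(0,0),(26,1),(1,0)]⟩,⟨3,[(0,0),(0,0),(0,0),(3,1),(9,
  1),(26,1),(2,1)]⟩,⟨46,[(3,37),(5,8),(3,5),(9,11),(4,8),(6,8),(3,10),(1,10),(1,2),(1,14)]⟩]⟩) (.K
  ⟨0,[-1,0,1,0,1],0,0,(⟨0,[(5,0)]⟩,⟨0,[(30,0),(6,0)]⟩),.k,(.r (-1) ⟨2,[(9,1),(14,0),(28,3)]⟩ ⟨0,
  [(16,0),(34,0)]⟩),(.r 0 ⟨0,[(22,0)]⟩ ⟨1,[(9,0),(8,2),(32,0)]⟩),.k,.k,[⟨0,[(0,0)]⟩,⟨3,[(6,3),(1,1),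
  (8,1),(17,1),(10,0),(4,0)]⟩,⟨1,[(0,0),(1,0),(25,0)]⟩,⟨12,[(6,7),(1,2),(13,1),(6,4),(3,7),(1,1),(7,
  3),(2,4)]⟩]⟩))) (.Q [0,0,0,0,1,0,2,0,-1,0,2,-1] (.p true [0,0,1] [0,0,-1,0,1] (⟨0,[(36,0)]⟩,⟨0,
  [(35,0)]⟩) .k 2 (⟨2,[(3,1),(5,4),(19,0),(7,0),(4,2)]⟩,⟨0,[(28,0),(7,0)]⟩) .k (.r (-1) ⟨9,[(0,1),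
  (6,7),(2,7),(1,3),(30,0),(5,4)]⟩ ⟨2,[(16,4),(15,0),(0,0),(7,0)]⟩)) (.K ⟨0,[0,0,-1,0,1],(-1),(-1),
  (⟨2,[(4,1),(5,4),(19,0),(7,0),(4,2)]⟩,⟨0,[(29,0),(7,0)]⟩),.k,(.r 0 ⟨2,[(8,0),(3,1),(4,3),(27,0),
  (0,0)]⟩ ⟨0,[(23,0)]⟩),(.r 1 ⟨1,[(6,1),(5,1),(32,0),(0,1),(3,0)]⟩ ⟨2,[(8,1),(14,0),(3,1),(0,1),(21,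
  0)]⟩),.k,.k,[⟨0,[(0,0)]⟩,⟨0,[(5,0),(7,0),(32,0),(3,0)]⟩,⟨0,[(2,0)]⟩,⟨0,[(5,0),(13,0)]⟩]⟩) (.K ⟨0,
  [1,0,1,0,-1],0,1,(⟨0,[(29,0),(7,0)]⟩,⟨2,[(4,1),(5,4),(19,0),(7,0),(4,2)]⟩),.k,(.r (-2) ⟨2,[(8,1),
  (14,0),(3,1),(0,1),(21,0)]⟩ ⟨1,[(6,1),(5,1),(32,0),(0,1),(3,0)]⟩),(.r (-1) ⟨0,[(23,0)]⟩ ⟨2,[(8,0),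
  (3,1),(4,3),(27,0),(0,0)]⟩),.k,.k,[⟨6,[(0,0),(0,0),(3,5),(0,1),(38,2),(0,3),(3,4)]⟩,⟨6,[(2,6),(3,
  1),(5,2),(3,3),(0,0),(26,1),(1,0)]⟩,⟨1,[(0,0),(4,0),(9,0),(1,0),(24,0),(2,0)]⟩,⟨46,[(2,37),(5,8),
  (3,5),(9,11),(4,8),(6,8),(3,10),(1,10),(1,2),(1,14)]⟩]⟩))) (.Q [0,0,1,0,-1,0,0,0,1,0,0,1] (.p
  true [0,0,0,0,1] [] (⟨0,[(28,0)]⟩,⟨0,[(27,0)]⟩) .k 0 (⟨0,[]⟩,⟨0,[]⟩) .k .k) (.S ⟨1,0,[0,0,1],[1,1,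
  0,0,-1],[0,-1,1],(⟨22,[(26,2),(0,2),(0,22),(8,4),(4,5),(0,2)]⟩,⟨1,[(3,0),(5,0),(19,0)]⟩),⟨0,[(28,
  0)]⟩,(.r (-1) ⟨2,[(15,0),(5,0),(0,0),(3,0),(0,0)]⟩ ⟨2,[(7,0),(3,1),(4,0),(27,0),(0,0)]⟩),.k,⟨true,
  0,⟨0,[(47,0)]⟩,⟨0,[(46,0)]⟩⟩,⟨false,0,⟨0,[(47,0)]⟩,⟨3,[(21,1),(26,0),(0,0)]⟩⟩,⟨false,1,⟨1,[(26,0),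
  (0,0),(21,0)]⟩,⟨0,[]⟩⟩,⟨true,0,⟨0,[(51,0)]⟩,⟨0,[]⟩⟩,[.o ⟨false,1,⟨0,[(26,0)]⟩,⟨2,[(1,0),(2,1),(1,
  0),(37,0),(4,0)]⟩⟩,.e ⟨false,1,⟨0,[(49,0)]⟩,⟨0,[(41,0)]⟩⟩ ⟨false,1,⟨1,[(26,0),(0,0),(21,0)]⟩,⟨5,
  [(7,0),(3,1),(4,0),(27,0),(0,3)]⟩⟩,.a ⟨true,1,⟨3,[(2,0),(8,0),(14,2),(6,0),(9,0),(4,1),(0,0)]⟩,⟨0,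
  [(0,0)]⟩⟩ ⟨false,1,⟨1,[(33,0),(0,0),(14,1)]⟩,⟨5,[(7,0),(3,1),(4,0),(27,0),(0,3)]⟩⟩ ⟨true,0,⟨1,
  [(33,0),(0,0)]⟩,⟨5,[(7,0),(3,1),(4,0),(27,0),(0,3)]⟩⟩,.o ⟨false,1,⟨0,[(26,0)]⟩,⟨2,[(1,0),(2,1),(1,
  0),(37,0),(4,0)]⟩⟩]⟩) (.K ⟨0,[1,0,1,0,-1],0,1,(⟨0,[(28,0),(7,0)]⟩,⟨2,[(3,1),(5,4),(19,0),(7,0),(4,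
  2)]⟩),.k,(.r (-2) ⟨2,[(7,1),(14,0),(3,1),(0,1),(21,0)]⟩ ⟨1,[(5,1),(5,1),(32,0),(0,1),(3,0)]⟩),(.r
  (-1) ⟨0,[(22,0)]⟩ ⟨2,[(7,0),(3,1),(4,3),(27,0),(0,0)]⟩),.k,.k,[⟨2,[(1,0),(2,1),(1,0),(37,0),(4,
  0)]⟩,⟨0,[(0,0),(4,0),(5,0),(19,0),(17,0)]⟩,⟨3,[(1,2),(2,0),(7,0),(1,0),(26,2),(2,1)]⟩,⟨8,[(0,1),
  (9,0),(0,1),(14,6),(4,7),(1,0),(3,0),(1,0),(3,2),(5,4)]⟩]⟩))) (.S ⟨1,0,[0,0,1],[1,1,0,0,-1],[0,-1,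
  1],(⟨22,[(24,2),(0,2),(0,22),(8,4),(4,5),(0,2)]⟩,⟨1,[(1,0),(5,0),(19,0)]⟩),⟨0,[(26,0)]⟩,(.r (-1)
  ⟨2,[(13,0),(5,0),(0,0),(3,0),(0,0)]⟩ ⟨2,[(5,0),(3,1),(4,0),(27,0),(0,0)]⟩),.k,⟨true,0,⟨0,[(45,
  0)]⟩,⟨0,[(44,0)]⟩⟩,⟨false,0,⟨0,[(45,0)]⟩,⟨3,[(19,1),(26,0),(0,0)]⟩⟩,⟨false,1,⟨1,[(24,0),(0,0),(21,
  0)]⟩,⟨0,[]⟩⟩,⟨true,0,⟨0,[(49,0)]⟩,⟨0,[]⟩⟩,[.o ⟨false,1,⟨0,[(24,0)]⟩,⟨0,[(0,0),(16,0),(25,0)]⟩⟩,.e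
  ⟨false,1,⟨0,[(47,0)]⟩,⟨0,[(39,0)]⟩⟩ ⟨false,1,⟨1,[(24,0),(0,0),(21,0)]⟩,⟨5,[(5,0),(3,1),(4,0),(27,
  0),(0,3)]⟩⟩,.a ⟨true,1,⟨2,[(9,0),(14,2),(16,0),(1,0),(2,0),(0,0)]⟩,⟨2,[(0,1),(1,0),(7,1),(30,0),
  (1,2),(3,0)]⟩⟩ ⟨false,1,⟨5,[(0,0),(8,0),(3,1),(6,1),(3,0),(7,0),(14,3)]⟩,⟨5,[(5,0),(3,1),(4,0),
  (27,0),(0,3)]⟩⟩ ⟨true,0,⟨1,[(31,0),(0,0)]⟩,⟨5,[(5,0),(3,1),(4,0),(27,0),(0,3)]⟩⟩,.o ⟨false,1,⟨0,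
  [(24,0)]⟩,⟨0,[(0,0),(16,0),(25,0)]⟩⟩]⟩))))))

theorem ok45 : chk K t45 l32 = true := by decide +kernel

noncomputable def t46 : Tre :=
  (.Q [0,0,0,-2,-1,0,-1,-1,0,1,-1] (.p false [0,0,1] [1] (⟨0,[(29,0)]⟩,⟨0,[(28,0)]⟩) .k 1 (⟨0,[]⟩,
  ⟨0,[]⟩) .k .k) (.S ⟨1,1,[],[1,-1,-1],[1,1,-1,-1,0,0,0,-1],(⟨0,[(18,0)]⟩,⟨22,[(20,2),(0,2),(8,22),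
  (0,4),(4,5),(0,2)]⟩),⟨0,[(3,0)]⟩,.k,(.r (-1) ⟨0,[(10,0),(30,1),(0,0)]⟩ ⟨5,[(1,0),(2,2),(1,0),(7,
  1),(1,1),(10,0)]⟩),⟨false,0,⟨0,[]⟩,⟨1,[(20,0),(0,0),(21,0)]⟩⟩,⟨true,1,⟨0,[(2,0)]⟩,⟨1,[(0,0),(4,0),
  (6,0)]⟩⟩,⟨true,0,⟨0,[(40,0)]⟩,⟨0,[(41,0)]⟩⟩,⟨false,2,⟨3,[(2,3),(12,1),(26,0),(0,0)]⟩,⟨0,[(0,0)]⟩⟩,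
  [.fo,.o ⟨false,1,⟨1,[(38,0),(4,0)]⟩,⟨0,[(45,0)]⟩⟩,.a ⟨true,(-1),⟨5,[(0,2),(3,2),(1,1),(17,0),(12,
  0)]⟩,⟨0,[(27,0),(14,0)]⟩⟩ ⟨true,0,⟨1,[(5,1),(4,1),(27,0),(3,0)]⟩,⟨2,[(4,0),(1,0),(0,0),(17,0),(17,
  0)]⟩⟩ ⟨false,2,⟨1,[(27,1),(10,0),(3,1),(0,0)]⟩,⟨5,[(0,2),(3,2),(1,1),(17,0),(12,0)]⟩⟩,.o ⟨false,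
  (-1),⟨0,[(6,0)]⟩,⟨1,[(27,1),(10,0),(3,2)]⟩⟩]⟩) (.I [1,0,-2,-2,1,0,0,1] (.I [0,0,-2,0,1,-2,-1] (.N
  [0,-2,1] (-1) ⟨0,[(1,0)]⟩ ⟨0,[(3,0)]⟩ (.x 0 ⟨23,[(8,3),(20,30),(0,2),(0,23),(6,15),(1,3),(5,5)]⟩
  ⟨0,[(0,0)]⟩)) (.Q [0,-1,0,0,1,0,0,0,-1,0,0,-1] (.p false [0,0,0,0,1] [] (⟨0,[(25,0)]⟩,⟨0,[(24,
  0)]⟩) .k 0 (⟨0,[]⟩,⟨0,[]⟩) .k .k) (.Q [0,0,0,0,0,1,0,0,0,-1,0,1] (.ed false [0,1,0,0,1] .k) (.Q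
  [0,-1,0,1,1,0,0,0,-1,0,0,-1] (.p false [0,0,0,0,1] [] (⟨0,[(27,0)]⟩,⟨0,[(26,0)]⟩) .k 0 (⟨0,[]⟩,⟨0,
  []⟩) .k .k) (.Q [0,0,2,0,-1,0,0,0,-1,1,0,-1] (.p false [0,0,0,0,1] [1] (⟨0,[(28,0)]⟩,⟨0,[(27,
  0)]⟩) .k 1 (⟨0,[]⟩,⟨0,[]⟩) .k .k) (.R ⟨0,false,false,false,[1,0,0,0,-1],[1,-1],[],(⟨0,[(28,0)]⟩,
  ⟨0,[(29,0)]⟩),(⟨0,[(39,0)]⟩,⟨0,[(40,0)]⟩),⟨0,[(2,0)]⟩,.k,.k,(.r (-1) ⟨1,[(5,0),(10,0),(32,0)]⟩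
  ⟨16,[(14,2),(5,7),(0,2),(10,4),(0,4),(7,1)]⟩),(.r (-1) ⟨2,[(15,0),(5,0),(0,0),(3,0),(0,0)]⟩ ⟨2,
  [(5,0),(5,1),(4,0),(27,0),(0,0)]⟩),.k,.k,⟨true,0,⟨9,[(7,1),(12,1),(0,1),(11,0),(0,0)]⟩,⟨0,[(47,
  0)]⟩⟩,⟨false,0,⟨0,[(27,0)]⟩,⟨3,[(3,3),(7,1),(32,0),(0,1),(2,0)]⟩⟩,⟨true,0,⟨0,[(51,0)]⟩,⟨0,[]⟩⟩,
  ⟨false,0,⟨0,[(27,0),(19,0)]⟩,⟨0,[(1,0)]⟩⟩,⟨false,0,⟨0,[]⟩,⟨0,[]⟩⟩,⟨false,0,⟨0,[]⟩,⟨0,[]⟩⟩,[.o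
  ⟨false,0,⟨0,[(47,0)]⟩,⟨8,[(6,0),(11,0),(2,2),(19,0),(2,3),(3,0)]⟩⟩,.e ⟨false,1,⟨1,[(48,0),(0,0)]⟩,
  ⟨0,[(51,0)]⟩⟩ ⟨false,1,⟨1,[(5,0),(10,0),(10,1),(21,0)]⟩,⟨4,[(0,2),(2,1),(7,0),(32,1),(0,5)]⟩⟩,.a
  ⟨true,0,⟨0,[(1,0),(9,0)]⟩,⟨0,[(27,0)]⟩⟩ ⟨false,1,⟨1,[(26,0),(0,0),(21,0)]⟩,⟨0,[]⟩⟩ ⟨true,0,⟨0,
  [(27,0),(19,0)]⟩,⟨4,[(0,2),(2,1),(7,0),(32,1),(0,5)]⟩⟩,.o ⟨false,0,⟨4,[(0,2),(2,1),(7,0),(32,1),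
  (0,0)]⟩,⟨1,[(27,1),(16,0),(3,0)]⟩⟩]⟩) (.K ⟨0,[2,0,-1,0,-1],(-1),0,(⟨0,[(28,0),(6,0)]⟩,⟨0,[(2,0),
  (22,0)]⟩),.k,(.r (-1) ⟨1,[(5,0),(10,2),(32,0)]⟩ ⟨0,[(20,0)]⟩),(.r 0 ⟨1,[(7,0),(8,0),(32,0)]⟩ ⟨2,
  [(5,1),(16,0),(28,3)]⟩),.k,.k,[⟨3,[(0,3),(3,5),(4,1),(15,7),(7,1),(10,2),(3,2)]⟩,⟨8,[(1,8),(9,11),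
  (0,6),(17,1),(12,1),(1,2),(3,2)]⟩,⟨12,[(0,12),(3,14),(0,4),(3,4),(1,3),(0,9),(12,19),(5,7),(12,
  10),(0,13)]⟩,⟨11,[(1,6),(9,6),(4,11),(6,5),(2,4),(10,0),(1,0),(3,4)]⟩]⟩)) (.R ⟨2,true,false,false,
  [0,1],[0,0,0,0,1],[0,1,1],(⟨0,[]⟩,⟨0,[]⟩),(⟨0,[(28,0)]⟩,⟨0,[(27,0)]⟩),⟨0,[]⟩,.k,.k,.k,(.r (-1) ⟨2,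
  [(14,0),(5,0),(0,0),(3,0),(0,0)]⟩ ⟨2,[(4,0),(5,1),(4,0),(27,0),(0,0)]⟩),.k,.k,⟨true,0,⟨1,[(32,0),
  (0,0)]⟩,⟨0,[]⟩⟩,⟨false,0,⟨0,[(26,0)]⟩,⟨3,[(2,3),(7,1),(32,0),(0,1),(2,0)]⟩⟩,⟨false,0,⟨0,[(46,0)]⟩,
  ⟨3,[(20,1),(26,0),(0,0)]⟩⟩,⟨true,(-1),⟨0,[(0,0)]⟩,⟨9,[(2,2),(3,0),(2,0),(10,0),(4,6),(18,3)]⟩⟩,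
  ⟨true,0,⟨0,[(50,0)]⟩,⟨0,[]⟩⟩,⟨false,0,⟨0,[(26,0)]⟩,⟨0,[(2,0)]⟩⟩,[]⟩)) (.Q [0,0,0,0,0,0,0,0,0,0,-1,
  1] (.ed false [1,0,-1,0,1] (.r 0 ⟨2,[(14,1),(15,0),(0,0),(7,0)]⟩ ⟨10,[(3,3),(4,1),(1,0),(9,3),(8,
  0),(17,3)]⟩)) (.Q [0,0,0,0,0,2,0,0,0,-1,0,1] (.p true [0,0,0,0,1] [1] (⟨0,[(28,0)]⟩,⟨0,[(27,0)]⟩)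
  .k 1 (⟨0,[]⟩,⟨0,[]⟩) .k .k) (.Q [0,0,1,0,0,0,1,0,-1,0,1,-1] (.p false [0,0,-1,0,1] [] (⟨0,[(1,
  0)]⟩,⟨0,[(28,0),(7,0)]⟩) .k 0 (⟨0,[]⟩,⟨0,[]⟩) .k (.r 0 ⟨2,[(16,1),(15,0),(0,0),(7,0)]⟩ ⟨10,[(5,3),
  (4,1),(1,0),(9,3),(8,0),(17,3)]⟩)) (.R ⟨0,false,false,false,[1,-1,0,0,-1],[1,-1],[1,0,1],(⟨0,[(3,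
  0)]⟩,⟨4,[(1,1),(25,0),(0,0),(1,2),(7,0),(5,0)]⟩),(⟨0,[(40,0)]⟩,⟨0,[(41,0)]⟩),⟨0,[(1,0)]⟩,(.r (-1)
  ⟨1,[(6,0),(10,0),(32,0)]⟩ ⟨16,[(15,2),(5,7),(0,2),(10,4),(0,4),(7,1)]⟩),.k,(.r (-2) ⟨1,[(6,1),(10,
  1),(9,0),(0,0),(21,0)]⟩ ⟨4,[(8,0),(2,1),(1,0),(1,2),(5,0),(10,0)]⟩),.k,.k,.k,⟨false,0,⟨9,[(8,1),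
  (12,1),(0,1),(11,0),(0,0)]⟩,⟨1,[(6,0),(10,0),(31,0)]⟩⟩,⟨true,0,⟨0,[(28,0)]⟩,⟨0,[(0,0),(19,0)]⟩⟩,
  ⟨true,(-1),⟨6,[(8,0),(4,2),(1,2),(5,1),(10,1),(1,0)]⟩,⟨1,[(6,0),(10,0),(31,0)]⟩⟩,⟨false,0,⟨0,[(28,
  0)]⟩,⟨0,[(4,0)]⟩⟩,⟨false,0,⟨0,[]⟩,⟨0,[]⟩⟩,⟨false,0,⟨0,[]⟩,⟨0,[]⟩⟩,[.o ⟨false,0,⟨0,[(48,0)]⟩,⟨8,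
  [(7,0),(11,0),(2,2),(19,0),(2,3),(3,0)]⟩⟩,.a ⟨true,0,⟨0,[(12,0),(37,0)]⟩,⟨0,[(47,0)]⟩⟩ ⟨false,1,
  ⟨1,[(27,0),(0,0),(21,0)]⟩,⟨3,[(12,1),(32,0),(0,1),(2,0)]⟩⟩ ⟨true,1,⟨1,[(6,0),(10,0),(10,1),(21,
  0)]⟩,⟨0,[(0,0),(12,0),(32,0)]⟩⟩,.o ⟨false,0,⟨0,[(0,0),(19,0)]⟩,⟨1,[(28,1),(16,0),(3,0)]⟩⟩,.e
  ⟨true,0,⟨0,[]⟩,⟨0,[(52,0)]⟩⟩ ⟨true,1,⟨1,[(6,0),(10,0),(10,1),(20,0)]⟩,⟨0,[(0,0),(12,0),(32,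
  0)]⟩⟩]⟩) (.Q [0,0,0,0,0,0,0,0,0,1,-1,-1] (.ed true [0,0,1,0,1] (.r 0 ⟨7,[(6,1),(6,1),(0,2),(6,0),
  (10,1),(9,0)]⟩ ⟨1,[(17,1),(9,0),(0,0),(21,0)]⟩)) (.R ⟨0,false,false,true,[1,0,-1,0,-1],[1,-1,0,0,
  -1],[0,1],(⟨0,[(0,0)]⟩,⟨0,[(31,0),(6,0)]⟩),(⟨0,[(4,0)]⟩,⟨4,[(2,1),(25,0),(0,0),(1,2),(7,0),(5,
  0)]⟩),⟨0,[(2,0),(24,0)]⟩,.k,(.r (-1) ⟨1,[(7,0),(10,0),(32,0)]⟩ ⟨16,[(16,2),(5,7),(0,2),(10,4),(0,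
  4),(7,1)]⟩),(.r (-1) ⟨1,[(7,0),(10,2),(32,0)]⟩ ⟨0,[(22,0)]⟩),.k,.k,.k,⟨false,0,⟨0,[(48,0)]⟩,⟨1,
  [(7,0),(10,0),(32,0)]⟩⟩,⟨true,0,⟨0,[(35,0)]⟩,⟨0,[(21,0)]⟩⟩,⟨false,0,⟨7,[(7,1),(6,1),(0,2),(6,0),
  (10,1),(9,0)]⟩,⟨0,[(18,0),(32,0)]⟩⟩,⟨true,0,⟨0,[(33,0),(15,0)]⟩,⟨0,[(19,0)]⟩⟩,⟨false,0,⟨0,[]⟩,⟨0,
  []⟩⟩,⟨false,0,⟨0,[]⟩,⟨0,[]⟩⟩,[.e ⟨false,0,⟨3,[(13,1),(32,0),(0,1),(2,0)]⟩,⟨1,[(28,0),(0,0),(21,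
  0)]⟩⟩ ⟨false,1,⟨1,[(7,0),(10,0),(16,1),(14,0)]⟩,⟨1,[(14,0),(6,0),(25,1),(3,0)]⟩⟩,.o ⟨false,1,⟨0,
  [(5,0),(43,0)]⟩,⟨4,[(1,2),(6,0),(7,2),(12,1),(3,1),(12,1)]⟩⟩,.a ⟨true,0,⟨1,[(5,1),(7,0),(0,0),(17,
  0),(14,0)]⟩,⟨3,[(1,1),(4,5),(4,1),(15,7),(1,1),(16,0),(3,4)]⟩⟩ ⟨true,0,⟨0,[(53,0)]⟩,⟨0,[]⟩⟩
  ⟨false,1,⟨1,[(7,0),(10,0),(16,1),(15,0)]⟩,⟨1,[(14,0),(6,0),(25,1),(3,0)]⟩⟩,.e ⟨true,0,⟨3,[(13,1),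
  (32,0),(0,1),(2,0)]⟩,⟨1,[(35,0),(0,0)]⟩⟩ ⟨true,1,⟨1,[(7,0),(10,0),(16,1),(14,0)]⟩,⟨0,[(14,0),(32,
  0)]⟩⟩]⟩) (.K ⟨0,[2,0,-1,0,-1],(-1),0,(⟨0,[(30,0),(6,0)]⟩,⟨0,[(0,0)]⟩),.k,(.r (-1) ⟨1,[(7,0),(10,
  2),(32,0)]⟩ ⟨0,[(22,0)]⟩),(.r 0 ⟨1,[(9,0),(8,0),(32,0)]⟩ ⟨2,[(7,1),(16,0),(28,3)]⟩),.k,.k,[⟨1,[(1,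
  1),(4,5),(4,1),(15,7),(18,2),(3,4)]⟩,⟨1,[(5,1),(7,1),(0,1),(30,0),(1,1),(3,0)]⟩,⟨12,[(1,12),(4,
  20),(0,6),(3,6),(1,2),(0,0),(12,27),(5,5),(12,17),(0,16)]⟩,⟨3,[(9,0),(3,1),(3,1),(0,0),(9,3),(3,
  3),(12,0)]⟩]⟩))) (.Q [0,0,-1,0,1,0,1,0,-1,0,1,-1] (.p false [0,0,-1,0,1] [] (⟨0,[(1,0)]⟩,⟨0,[(28,
  0),(7,0)]⟩) .k 0 (⟨0,[]⟩,⟨0,[]⟩) .k (.r 0 ⟨2,[(16,1),(15,0),(0,0),(7,0)]⟩ ⟨10,[(5,3),(4,1),(1,0),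
  (9,3),(8,0),(17,3)]⟩)) (.Q [0,0,2,0,-1,0,0,0,1,0,0,1] (.p true [0,0,0,0,1] [] (⟨0,[(30,0)]⟩,⟨0,
  [(29,0)]⟩) .k 0 (⟨0,[]⟩,⟨0,[]⟩) .k .k) (.K ⟨0,[0,-1,0,0,1],(-1),(-1),(⟨0,[(3,0),(23,0)]⟩,⟨22,[(28,
  2),(0,2),(0,22),(8,4),(4,5),(0,2)]⟩),(.r 0 ⟨1,[(13,1),(32,0),(3,0)]⟩ ⟨2,[(17,0),(5,0),(0,0),(3,0),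
  (0,0)]⟩),(.r (-1) ⟨2,[(7,2),(10,1),(15,0),(0,0),(7,0)]⟩ ⟨11,[(9,6),(2,2),(1,0),(9,3),(10,0),(15,
  3)]⟩),.k,(.r 0 ⟨2,[(7,0),(5,1),(4,3),(27,0),(0,0)]⟩ ⟨0,[(24,0)]⟩),.k,[⟨0,[(1,0)]⟩,⟨0,[(0,0)]⟩,⟨2,
  [(1,0),(10,0),(6,0),(8,1)]⟩,⟨3,[(0,0),(12,5),(15,2),(16,2),(0,1)]⟩]⟩) (.R ⟨0,false,false,false,[0,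
  0,-1,0,1],[1,-1],[1,1,1],(⟨0,[(3,0)]⟩,⟨0,[(30,0),(7,0)]⟩),(⟨0,[(41,0)]⟩,⟨0,[(42,0)]⟩),⟨2,[(2,2),
  (24,0),(10,1),(0,0),(4,2)]⟩,.k,.k,(.r 0 ⟨2,[(7,0),(5,1),(4,3),(27,0),(0,0)]⟩ ⟨0,[(24,0)]⟩),(.r 1
  ⟨0,[(9,0),(3,1),(32,0),(0,0),(3,0)]⟩ ⟨2,[(7,1),(16,0),(3,1),(0,1),(21,0)]⟩),.k,.k,⟨true,(-1),⟨6,
  [(9,0),(4,2),(1,2),(5,1),(10,1),(1,0)]⟩,⟨1,[(7,0),(10,0),(32,0)]⟩⟩,⟨false,0,⟨65,[(0,17),(0,41),(3,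
  5),(0,23),(2,9),(1,7),(0,9),(0,39),(13,31),(17,8),(5,16)]⟩,⟨1,[(21,1),(7,1),(16,0),(3,0)]⟩⟩,⟨true,
  0,⟨10,[(7,1),(4,0),(1,5),(9,1),(8,5),(17,1)]⟩,⟨3,[(13,1),(4,3),(27,0),(0,1),(2,0)]⟩⟩,⟨false,1,⟨19,
  [(0,15),(4,3),(0,17),(0,9),(3,5),(2,7),(12,23),(5,9),(11,6),(5,22)]⟩,⟨2,[(13,0),(2,0),(2,1),(1,0),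
  (7,2),(16,1),(0,0)]⟩⟩,⟨false,0,⟨0,[]⟩,⟨0,[]⟩⟩,⟨false,0,⟨0,[]⟩,⟨0,[]⟩⟩,[.o ⟨false,0,⟨0,[(49,0)]⟩,
  ⟨8,[(8,0),(11,0),(2,2),(19,0),(2,3),(3,0)]⟩⟩,.e ⟨false,0,⟨0,[]⟩,⟨1,[(28,0),(0,0),(20,0)]⟩⟩ ⟨false,
  1,⟨0,[(1,0),(11,0),(37,0)]⟩,⟨1,[(14,0),(6,0),(7,1),(16,0),(0,1)]⟩⟩,.a ⟨true,0,⟨0,[(21,0),(7,0)]⟩,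
  ⟨65,[(0,17),(0,41),(3,5),(0,23),(2,9),(1,7),(0,9),(0,39),(13,31),(17,8),(5,16)]⟩⟩ ⟨false,0,⟨1,
  [(35,0),(0,0)]⟩,⟨1,[(50,0),(0,0)]⟩⟩ ⟨true,0,⟨6,[(0,0),(0,3),(3,1),(0,2),(4,0),(1,5),(13,3),(21,0),
  (1,1)]⟩,⟨1,[(14,0),(6,0),(7,1),(16,0),(0,1)]⟩⟩,.o ⟨false,0,⟨1,[(14,0),(6,0),(7,1),(16,0)]⟩,⟨0,[(1,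
  0)]⟩⟩]⟩)) (.K ⟨0,[0,0,-1,0,1],(-1),(-1),(⟨0,[(2,0)]⟩,⟨0,[(29,0),(7,0)]⟩),.k,(.r 0 ⟨2,[(6,0),(5,1),
  (4,3),(27,0),(0,0)]⟩ ⟨0,[(23,0)]⟩),(.r 1 ⟨0,[(8,0),(3,1),(32,0),(0,0),(3,0)]⟩ ⟨2,[(6,1),(16,0),(3,
  1),(0,1),(21,0)]⟩),.k,.k,[⟨7,[(4,7),(0,11),(4,3),(1,1),(4,3),(8,15),(5,3),(12,2),(0,1),(2,10)]⟩,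
  ⟨0,[(0,0)]⟩,⟨0,[(4,0),(27,0)]⟩,⟨0,[(0,0),(16,0),(24,0)]⟩]⟩))) (.Q [0,0,0,0,0,0,1,0,1,0,1,1] (.p
  true [0,0,1,0,1] [] (⟨0,[(28,0),(6,0)]⟩,⟨2,[(0,0),(0,1),(6,3),(27,0),(4,2)]⟩) .k 0 (⟨0,[]⟩,⟨0,
  []⟩) .k (.r 0 ⟨7,[(4,1),(6,1),(0,2),(6,0),(10,1),(9,0)]⟩ ⟨1,[(15,1),(9,0),(0,0),(21,0)]⟩)) (.Q [0,
  0,0,0,0,1,0,0,0,0,0,-1] (.ed true [1,-1,0,0,1] .k) (.Q [0,0,0,0,1,0,0,0,-1,-1,0,-1] (.p false [1,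
  -1,0,0,1] [] (⟨0,[(30,0),(9,0)]⟩,⟨0,[(0,0)]⟩) (.r 0 ⟨2,[(6,0),(5,1),(4,0),(27,0),(0,0)]⟩ ⟨10,[(1,
  1),(14,2),(5,2),(0,4),(3,1),(5,1),(16,0)]⟩) 0 (⟨0,[]⟩,⟨0,[]⟩) .k .k) (.R ⟨0,false,false,false,[0,
  1,0,0,-1],[1,0,0,0,-1],[0,-1,1],(⟨0,[(1,0)]⟩,⟨0,[(31,0),(9,0)]⟩),(⟨0,[(30,0)]⟩,⟨0,[(31,0)]⟩),⟨0,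
  [(31,0)]⟩,(.r (-1) ⟨10,[(2,1),(14,2),(5,2),(0,4),(3,1),(5,1),(16,0)]⟩ ⟨2,[(7,0),(5,1),(4,0),(27,
  0),(0,0)]⟩),.k,.k,.k,.k,.k,⟨true,0,⟨1,[(35,0),(0,0)]⟩,⟨0,[]⟩⟩,⟨false,0,⟨6,[(2,1),(22,0),(2,1),(10,
  1),(1,1),(3,1)]⟩,⟨1,[(46,0),(3,0)]⟩⟩,⟨true,0,⟨0,[(49,0)]⟩,⟨0,[(48,0)]⟩⟩,⟨false,0,⟨0,[(13,0),(37,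
  0)]⟩,⟨8,[(8,0),(11,0),(2,2),(19,0),(2,3),(3,0)]⟩⟩,⟨false,0,⟨0,[]⟩,⟨0,[]⟩⟩,⟨false,0,⟨0,[]⟩,⟨0,[]⟩⟩,
  [.o ⟨false,1,⟨0,[(5,0)]⟩,⟨3,[(2,0),(10,1),(0,0),(14,2),(16,2),(0,1)]⟩⟩,.e ⟨false,1,⟨0,[(51,0)]⟩,
  ⟨0,[(43,0)]⟩⟩ ⟨false,1,⟨20,[(2,7),(22,3),(2,7),(10,0),(1,0),(3,7),(5,20)]⟩,⟨0,[(13,0),(32,0),(0,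
  0)]⟩⟩,.a ⟨true,1,⟨2,[(0,0),(4,1),(7,0),(33,0),(2,0)]⟩,⟨8,[(2,8),(10,2),(0,6),(17,1),(12,1),(1,2),
  (3,2)]⟩⟩ ⟨false,1,⟨1,[(35,0),(0,0),(14,1)]⟩,⟨3,[(13,1),(32,0),(0,1),(2,0)]⟩⟩ ⟨true,0,⟨3,[(13,1),
  (3,1),(6,1),(20,0),(5,0)]⟩,⟨0,[(13,0),(32,0),(0,0)]⟩⟩,.o ⟨false,1,⟨0,[(0,0)]⟩,⟨0,[(29,0)]⟩⟩]⟩)
  (.R ⟨2,true,false,false,[0,1],[0,0,0,0,1],[1,1,1,1],(⟨0,[]⟩,⟨0,[]⟩),(⟨0,[(31,0)]⟩,⟨0,[(30,0)]⟩),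
  ⟨0,[]⟩,.k,.k,.k,(.r (-1) ⟨10,[(2,1),(14,2),(5,2),(0,4),(3,1),(5,1),(16,0)]⟩ ⟨2,[(7,0),(5,1),(4,0),
  (27,0),(0,0)]⟩),.k,.k,⟨true,0,⟨9,[(9,1),(12,1),(0,1),(11,0),(0,0)]⟩,⟨0,[(49,0)]⟩⟩,⟨false,0,⟨0,
  [(29,0)]⟩,⟨3,[(5,3),(7,1),(32,0),(0,1),(2,0)]⟩⟩,⟨false,0,⟨0,[]⟩,⟨1,[(28,0),(0,0),(21,0)]⟩⟩,⟨true,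
  (-1),⟨0,[(0,0),(12,0),(32,0)]⟩,⟨9,[(5,2),(3,0),(2,0),(10,0),(4,6),(18,3)]⟩⟩,⟨true,0,⟨0,[(48,0)]⟩,
  ⟨0,[(49,0)]⟩⟩,⟨false,0,⟨0,[(29,0)]⟩,⟨0,[(5,0)]⟩⟩,[]⟩)) (.Q [0,1,0,0,-1,0,-1,-1,1,0,-1,1] (.p true
  [1,0,-1,0,1] [1] (⟨0,[(30,0),(5,0)]⟩,⟨0,[(2,0)]⟩) .k 1 (⟨0,[]⟩,⟨0,[]⟩) .k (.r 0 ⟨2,[(17,1),(15,0),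
  (0,0),(7,0)]⟩ ⟨10,[(6,3),(4,1),(1,0),(9,3),(8,0),(17,3)]⟩)) (.Q [0,1,2,0,-1,0,1,1,1,-1,1,1] (.p
  true [0,0,1,0,1] [1] (⟨0,[(31,0),(6,0)]⟩,⟨2,[(3,0),(0,1),(6,3),(27,0),(4,2)]⟩) .k 1 (⟨0,[]⟩,⟨0,
  []⟩) .k (.r 0 ⟨7,[(7,1),(6,1),(0,2),(6,0),(10,1),(9,0)]⟩ ⟨2,[(2,0),(15,1),(9,0),(5,0),(16,1)]⟩))
  (.R ⟨0,false,false,false,[0,-1,0,0,1],[1,0,-1],[0,1],(⟨0,[(2,0)]⟩,⟨55,[(3,5),(22,2),(2,5),(1,55),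
  (8,10),(4,14),(0,5)]⟩),(⟨0,[(38,0)]⟩,⟨0,[(39,0)]⟩),⟨2,[(4,0),(0,1),(6,0),(27,0),(4,2)]⟩,(.r 0 ⟨2,
  [(8,0),(5,1),(4,0),(27,0),(0,0)]⟩ ⟨10,[(3,1),(14,2),(5,2),(0,4),(3,1),(5,1),(16,0)]⟩),.k,(.r (-1)
  ⟨2,[(8,2),(10,1),(15,0),(0,0),(7,0)]⟩ ⟨41,[(0,1),(5,1),(3,25),(2,7),(1,1),(9,15),(20,0),(5,12)]⟩),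
  (.r (-1) ⟨2,[(8,1),(16,0),(28,3)]⟩ ⟨1,[(10,0),(8,0),(32,0)]⟩),.k,.k,⟨true,0,⟨7,[(8,1),(6,1),(0,2),
  (6,0),(10,1),(9,0)]⟩,⟨0,[(18,0)]⟩⟩,⟨false,1,⟨2,[(6,2),(1,0),(5,0),(5,0),(12,1),(14,1)]⟩,⟨2,[(0,0),
  (2,1),(14,0),(28,0)]⟩⟩,⟨true,0,⟨9,[(10,1),(12,1),(0,1),(11,0),(0,0)]⟩,⟨2,[(8,0),(5,1),(4,0),(27,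
  0),(0,0)]⟩⟩,⟨false,1,⟨3,[(6,3),(3,0),(8,0),(0,1),(12,1),(12,0),(5,1)]⟩,⟨10,[(0,5),(2,4),(4,4),(5,
  2),(32,3),(0,1)]⟩⟩,⟨false,0,⟨0,[]⟩,⟨0,[]⟩⟩,⟨false,0,⟨0,[]⟩,⟨0,[]⟩⟩,[.o ⟨false,0,⟨0,[(19,0),(2,
  0)]⟩,⟨6,[(0,0),(5,0),(1,1),(2,3),(24,1),(10,0)]⟩⟩,.a ⟨true,0,⟨0,[(18,0),(14,0)]⟩,⟨0,[(34,0)]⟩⟩
  ⟨false,1,⟨4,[(3,0),(4,0),(15,0),(4,0),(5,0),(15,1)]⟩,⟨0,[]⟩⟩ ⟨true,1,⟨0,[(6,0),(12,0),(13,0)]⟩,⟨0,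
  [(0,0)]⟩⟩,.o ⟨false,0,⟨4,[(0,0),(14,0),(2,0),(11,3),(16,1)]⟩,⟨3,[(6,3),(7,1),(32,0),(0,1),(2,
  0)]⟩⟩,.e ⟨true,0,⟨3,[(14,1),(32,0),(0,1),(2,0)]⟩,⟨1,[(36,0),(0,0)]⟩⟩ ⟨true,1,⟨0,[(6,0),(7,0),(5,
  0),(30,0)]⟩,⟨0,[(0,0)]⟩⟩]⟩) (.K ⟨0,[1,1,0,0,-1],0,0,(⟨55,[(3,5),(22,2),(2,5),(1,55),(8,10),(4,14),
  (0,5)]⟩,⟨0,[(2,0)]⟩),(.r (-1) ⟨10,[(3,1),(14,2),(5,2),(0,4),(3,1),(5,1),(16,0)]⟩ ⟨2,[(8,0),(5,1),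
  (4,0),(27,0),(0,0)]⟩),.k,(.r 0 ⟨11,[(10,6),(2,2),(1,0),(9,3),(10,0),(15,3)]⟩ ⟨2,[(8,2),(10,1),(15,
  0),(0,0),(7,0)]⟩),(.r 0 ⟨1,[(10,0),(8,0),(32,0)]⟩ ⟨2,[(8,1),(16,0),(28,3)]⟩),.k,[⟨3,[(1,1),(1,1),
  (3,2),(0,0),(0,0),(2,0),(15,3),(18,1),(4,0)]⟩,⟨9,[(0,0),(5,8),(0,2),(0,0),(3,0),(1,3),(0,1),(12,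
  3),(17,1),(1,5)]⟩,⟨0,[(14,0),(15,0),(16,0),(6,0)]⟩,⟨3,[(0,1),(5,1),(0,2),(0,0),(0,0),(2,0),(2,1),
  (12,3),(17,0),(1,3)]⟩]⟩)) (.K ⟨0,[0,0,1,0,-1],0,1,(⟨0,[(3,0)]⟩,⟨0,[(31,0),(5,0)]⟩),.k,(.r (-2) ⟨2,
  [(7,1),(16,0),(3,1),(0,1),(21,0)]⟩ ⟨0,[(9,0),(3,1),(32,0),(0,0),(3,0)]⟩),(.r (-1) ⟨0,[(24,0)]⟩ ⟨2,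
  [(7,0),(5,1),(4,3),(27,0),(0,0)]⟩),.k,.k,[⟨0,[(29,0)]⟩,⟨2,[(0,2),(12,1),(2,1),(0,0),(28,0)]⟩,⟨2,
  [(13,3),(2,0),(2,1),(1,0),(7,2),(16,1),(0,0)]⟩,⟨1,[(0,0),(27,0),(4,0)]⟩]⟩))) (.K ⟨0,[0,0,1,0,-1],
  0,1,(⟨0,[(1,0)]⟩,⟨0,[(29,0),(5,0)]⟩),.k,(.r (-2) ⟨2,[(5,1),(16,0),(3,1),(0,1),(21,0)]⟩ ⟨0,[(7,0),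
  (3,1),(32,0),(0,0),(3,0)]⟩),(.r (-1) ⟨0,[(22,0)]⟩ ⟨2,[(5,0),(5,1),(4,3),(27,0),(0,0)]⟩),.k,.k,[⟨0,
  [(27,0)]⟩,⟨3,[(0,2),(2,0),(0,5),(4,1),(6,0),(8,7),(5,0),(12,0),(3,3)]⟩,⟨2,[(11,3),(2,0),(2,1),(1,
  0),(7,2),(16,1),(0,0)]⟩,⟨0,[(3,0),(27,0)]⟩]⟩)))) (.Q [0,0,0,-1,-1,0,0,0,1,0,0,1] (.p true [0,0,0,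
  0,1] [] (⟨0,[(26,0)]⟩,⟨0,[(25,0)]⟩) .k 0 (⟨0,[]⟩,⟨0,[]⟩) .k .k) (.R ⟨2,true,false,false,[0,1],[0,
  0,0,0,1],[1,0,1,1],(⟨0,[]⟩,⟨0,[]⟩),(⟨0,[(27,0)]⟩,⟨0,[(26,0)]⟩),⟨0,[]⟩,.k,.k,.k,(.r (-1) ⟨2,[(13,
  0),(5,0),(0,0),(3,0),(0,0)]⟩ ⟨2,[(3,0),(5,1),(4,0),(27,0),(0,0)]⟩),.k,.k,⟨false,1,⟨3,[(19,1),(26,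
  0),(0,0)]⟩,⟨2,[(3,0),(5,1),(4,0),(27,0),(0,0)]⟩⟩,⟨true,(-1),⟨14,[(0,11),(4,3),(4,0),(7,1),(1,1),
  (4,2),(5,0)]⟩,⟨0,[(24,0)]⟩⟩,⟨true,0,⟨0,[]⟩,⟨0,[(49,0)]⟩⟩,⟨false,(-1),⟨0,[(0,0)]⟩,⟨3,[(19,1),(4,3),
  (21,0),(0,0)]⟩⟩,⟨false,1,⟨3,[(19,1),(26,0),(0,0)]⟩,⟨0,[(45,0)]⟩⟩,⟨true,(-1),⟨0,[(1,0)]⟩,⟨0,[(24,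
  0)]⟩⟩,[]⟩) (.Q [0,0,0,0,0,0,0,0,0,-1,1,1] (.ed false [0,0,1,0,1] (.r 0 ⟨7,[(3,1),(6,1),(0,2),(6,
  0),(10,1),(9,0)]⟩ ⟨1,[(14,1),(9,0),(0,0),(21,0)]⟩)) (.Q [0,0,0,0,1,0,1,1,-1,0,1,-1] (.p false [0,
  0,-1,0,1] [] (⟨2,[(0,1),(7,4),(19,0),(7,0),(4,2)]⟩,⟨0,[(27,0),(7,0)]⟩) .k 0 (⟨0,[]⟩,⟨0,[]⟩) .k
  (.r 0 ⟨2,[(15,1),(15,0),(0,0),(7,0)]⟩ ⟨10,[(4,3),(4,1),(1,0),(9,3),(8,0),(17,3)]⟩)) (.K ⟨0,[1,0,1,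
  0,-1],0,1,(⟨0,[(28,0),(7,0)]⟩,⟨2,[(1,1),(7,4),(19,0),(7,0),(4,2)]⟩),.k,(.r (-2) ⟨2,[(5,1),(16,0),
  (3,1),(0,1),(21,0)]⟩ ⟨0,[(7,0),(3,1),(32,0),(0,0),(3,0)]⟩),(.r (-1) ⟨0,[(22,0)]⟩ ⟨2,[(5,0),(5,1),
  (4,3),(27,0),(0,0)]⟩),.k,.k,[⟨1,[(3,1),(40,0),(4,0)]⟩,⟨3,[(0,3),(6,0),(3,1),(3,1),(0,0),(26,0)]⟩,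
  ⟨0,[(3,0),(7,0),(5,0),(26,0)]⟩,⟨93,[(0,72),(4,14),(15,11),(0,5),(3,20),(6,20),(3,27),(1,27),(1,8),
  (1,32)]⟩]⟩) (.S ⟨1,0,[0,0,1],[1,1,0,0,-1],[0,-1,1],(⟨22,[(26,2),(0,2),(0,22),(8,4),(4,5),(0,2)]⟩,
  ⟨1,[(1,0),(7,0),(19,0)]⟩),⟨0,[(28,0)]⟩,(.r (-1) ⟨2,[(15,0),(5,0),(0,0),(3,0),(0,0)]⟩ ⟨2,[(5,0),(5,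
  1),(4,0),(27,0),(0,0)]⟩),.k,⟨true,0,⟨0,[(47,0)]⟩,⟨0,[(46,0)]⟩⟩,⟨false,0,⟨0,[(47,0)]⟩,⟨3,[(21,1),
  (26,0),(0,0)]⟩⟩,⟨false,1,⟨1,[(26,0),(0,0),(21,0)]⟩,⟨0,[]⟩⟩,⟨true,0,⟨0,[(51,0)]⟩,⟨0,[]⟩⟩,[.o
  ⟨false,1,⟨0,[(26,0)]⟩,⟨1,[(3,1),(40,0),(4,0)]⟩⟩,.e ⟨false,1,⟨0,[(49,0)]⟩,⟨0,[(41,0)]⟩⟩ ⟨false,1,
  ⟨1,[(26,0),(0,0),(21,0)]⟩,⟨5,[(5,0),(5,1),(4,0),(27,0),(0,3)]⟩⟩,.a ⟨true,1,⟨3,[(2,1),(8,1),(14,1),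
  (16,0),(4,1),(0,0)]⟩,⟨7,[(0,1),(2,5),(0,2),(0,0),(0,0),(2,0),(2,1),(12,3),(23,2)]⟩⟩ ⟨false,1,⟨1,
  [(33,0),(0,0),(14,1)]⟩,⟨5,[(5,0),(5,1),(4,0),(27,0),(0,3)]⟩⟩ ⟨true,0,⟨1,[(33,0),(0,0)]⟩,⟨5,[(5,0),
  (5,1),(4,0),(27,0),(0,3)]⟩⟩,.o ⟨false,1,⟨0,[(26,0)]⟩,⟨1,[(3,1),(40,0),(4,0)]⟩⟩]⟩)) (.Q [0,0,0,0,0,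
  0,0,0,0,0,-1,1] (.ed false [1,0,-1,0,1] (.r 0 ⟨2,[(15,1),(15,0),(0,0),(7,0)]⟩ ⟨10,[(4,3),(4,1),(1,
  0),(9,3),(8,0),(17,3)]⟩)) (.Q [0,0,0,0,1,0,1,0,-1,0,1,-1] (.p false [0,0,-1,0,1] [] (⟨0,[(0,0)]⟩,
  ⟨0,[(28,0),(7,0)]⟩) .k 0 (⟨0,[]⟩,⟨0,[]⟩) .k (.r 0 ⟨2,[(16,1),(15,0),(0,0),(7,0)]⟩ ⟨10,[(5,3),(4,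
  1),(1,0),(9,3),(8,0),(17,3)]⟩)) (.Q [0,0,0,0,0,2,0,0,0,-1,0,1] (.p true [0,0,0,0,1] [1] (⟨0,[(30,
  0)]⟩,⟨0,[(29,0)]⟩) .k 1 (⟨0,[]⟩,⟨0,[]⟩) .k .k) (.R ⟨0,false,false,false,[1,-1,0,0,-1],[1,-1],[],
  (⟨0,[(3,0),(23,0)]⟩,⟨11,[(0,4),(0,1),(23,0),(3,1),(1,6),(7,1),(5,1)]⟩),(⟨0,[(41,0)]⟩,⟨0,[(42,
  0)]⟩),⟨0,[(0,0)]⟩,(.r (-1) ⟨1,[(7,0),(10,0),(32,0)]⟩ ⟨16,[(16,2),(5,7),(0,2),(10,4),(0,4),(7,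
  1)]⟩),.k,(.r (-2) ⟨2,[(1,0),(5,2),(10,1),(10,0),(4,0),(16,1)]⟩ ⟨4,[(9,0),(2,1),(1,0),(1,2),(5,0),
  (10,0)]⟩),.k,.k,.k,⟨true,0,⟨9,[(9,1),(12,1),(0,1),(11,0),(0,0)]⟩,⟨0,[(49,0)]⟩⟩,⟨false,0,⟨1,[(5,1),
  (44,0),(0,0)]⟩,⟨0,[(28,0)]⟩⟩,⟨false,0,⟨9,[(9,1),(12,1),(0,1),(11,0),(0,0)]⟩,⟨1,[(7,0),(10,0),(32,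
  0)]⟩⟩,⟨true,(-1),⟨0,[(5,0)]⟩,⟨0,[(28,0)]⟩⟩,⟨false,0,⟨0,[]⟩,⟨0,[]⟩⟩,⟨false,0,⟨0,[]⟩,⟨0,[]⟩⟩,[.o
  ⟨false,0,⟨0,[(49,0)]⟩,⟨8,[(8,0),(11,0),(2,2),(19,0),(2,3),(3,0)]⟩⟩,.e ⟨false,1,⟨1,[(50,0),(0,0)]⟩,
  ⟨0,[(53,0)]⟩⟩ ⟨false,1,⟨1,[(5,1),(1,0),(10,0),(31,0),(0,1)]⟩,⟨0,[(1,0),(12,0),(32,0)]⟩⟩,.a ⟨true,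
  0,⟨4,[(1,2),(2,1),(8,2),(0,2),(30,0),(1,0),(3,1)]⟩,⟨1,[(5,1),(44,0),(0,0)]⟩⟩ ⟨false,1,⟨1,[(28,0),
  (0,0),(21,0)]⟩,⟨0,[]⟩⟩ ⟨true,0,⟨1,[(5,1),(1,0),(10,0),(32,0)]⟩,⟨0,[(1,0),(12,0),(32,0)]⟩⟩,.o
  ⟨false,0,⟨0,[(1,0),(12,0)]⟩,⟨1,[(5,1),(40,0),(3,1),(0,0)]⟩⟩]⟩) (.R ⟨0,false,false,false,[0,0,-1,0,
  1],[0,-1,0,0,1],[1,1,1],(⟨0,[(2,0)]⟩,⟨0,[(30,0),(7,0)]⟩),(⟨0,[(2,0),(24,0)]⟩,⟨55,[(1,5),(23,2),(3,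
  5),(0,55),(8,10),(4,14),(0,5)]⟩),⟨2,[(0,2),(26,0),(10,1),(0,0),(4,2)]⟩,.k,(.r 0 ⟨2,[(7,0),(5,1),
  (4,0),(27,0),(0,0)]⟩ ⟨10,[(1,1),(15,2),(5,2),(0,4),(4,1),(4,1),(16,0)]⟩),(.r 0 ⟨2,[(7,0),(5,1),(4,
  3),(27,0),(0,0)]⟩ ⟨0,[(24,0)]⟩),.k,.k,.k,⟨false,0,⟨9,[(9,1),(12,1),(0,1),(11,0),(0,0)]⟩,⟨1,[(7,0),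
  (10,0),(31,0)]⟩⟩,⟨true,0,⟨0,[(35,0)]⟩,⟨0,[(21,0)]⟩⟩,⟨true,0,⟨10,[(7,1),(4,0),(1,5),(9,1),(8,5),
  (17,1)]⟩,⟨3,[(13,1),(4,3),(27,0),(0,1),(2,0)]⟩⟩,⟨false,1,⟨35,[(6,5),(0,17),(3,1),(2,3),(12,7),(5,
  17),(1,15),(10,0),(4,26)]⟩,⟨0,[(19,0)]⟩⟩,⟨false,0,⟨0,[]⟩,⟨0,[]⟩⟩,⟨false,0,⟨0,[]⟩,⟨0,[]⟩⟩,[.a
  ⟨true,(-1),⟨0,[(5,0),(43,0)]⟩,⟨4,[(1,0),(2,3),(8,0),(0,0),(30,1),(1,1),(3,3)]⟩⟩ ⟨false,0,⟨0,[(53,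
  0)]⟩,⟨1,[(50,0),(0,0)]⟩⟩ ⟨true,0,⟨3,[(7,0),(5,1),(4,2),(14,1),(1,1),(10,0)]⟩,⟨0,[(14,0),(32,0),(3,
  0)]⟩⟩,.o ⟨false,0,⟨1,[(5,1),(40,0),(2,1),(1,0)]⟩,⟨0,[(4,0)]⟩⟩,.o ⟨false,0,⟨1,[(5,1),(15,1),(24,0),
  (4,0)]⟩,⟨0,[(1,0)]⟩⟩,.e ⟨false,0,⟨0,[]⟩,⟨1,[(28,0),(0,0),(21,0)]⟩⟩ ⟨false,1,⟨1,[(7,0),(10,0),(16,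
  1),(14,0)]⟩,⟨0,[(14,0),(32,0),(3,0)]⟩⟩]⟩)) (.K ⟨0,[0,0,1,0,1],(-1),(-1),(⟨0,[(30,0),(6,0)]⟩,⟨0,
  [(2,0)]⟩),.k,(.r (-1) ⟨2,[(6,1),(16,0),(28,3)]⟩ ⟨1,[(8,0),(8,0),(32,0)]⟩),(.r 0 ⟨0,[(21,0)]⟩ ⟨1,
  [(6,0),(10,2),(32,0)]⟩),.k,.k,[⟨0,[(27,0)]⟩,⟨3,[(0,1),(3,1),(0,5),(4,1),(15,7),(18,0),(3,3),(0,
  0)]⟩,⟨0,[(17,0),(2,0),(6,0)]⟩,⟨0,[(4,0),(27,0)]⟩]⟩)) (.Q [0,0,1,0,-1,0,0,0,1,0,0,1] (.p true [0,0,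
  0,0,1] [] (⟨0,[(29,0)]⟩,⟨0,[(28,0)]⟩) .k 0 (⟨0,[]⟩,⟨0,[]⟩) .k .k) (.Q [0,0,0,0,1,0,1,0,-1,0,1,-1]
  (.p false [1,0,-1,0,1] [1] (⟨0,[(30,0),(5,0)]⟩,⟨0,[(1,0)]⟩) .k 1 (⟨0,[]⟩,⟨0,[]⟩) .k (.r 0 ⟨2,[(17,
  1),(15,0),(0,0),(7,0)]⟩ ⟨10,[(6,3),(4,1),(1,0),(9,3),(8,0),(17,3)]⟩)) (.K ⟨0,[0,0,0,0,1],(-1),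
  (-1),(⟨0,[(31,0)]⟩,⟨0,[(30,0)]⟩),.k,(.r 0 ⟨2,[(7,0),(5,1),(4,0),(27,0),(0,0)]⟩ ⟨2,[(17,0),(5,0),
  (0,0),(3,0),(0,0)]⟩),(.r 0 ⟨16,[(16,2),(5,7),(0,2),(10,4),(0,4),(7,1)]⟩ ⟨1,[(7,0),(10,0),(32,
  0)]⟩),.k,.k,[⟨0,[(0,0)]⟩,⟨0,[(1,0)]⟩,⟨0,[(28,0)]⟩,⟨0,[(1,0),(41,0)]⟩]⟩) (.K ⟨0,[0,0,1,0,1],(-1),
  (-1),(⟨0,[(31,0),(6,0)]⟩,⟨0,[(3,0)]⟩),.k,(.r (-1) ⟨2,[(7,1),(16,0),(28,3)]⟩ ⟨1,[(9,0),(8,0),(32,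
  0)]⟩),(.r 0 ⟨0,[(22,0)]⟩ ⟨1,[(7,0),(10,2),(32,0)]⟩),.k,.k,[⟨0,[(28,0)]⟩,⟨3,[(0,1),(0,1),(4,5),(4,
  1),(15,7),(18,0),(3,4)]⟩,⟨0,[(18,0),(2,0),(6,0)]⟩,⟨0,[(5,0),(27,0)]⟩]⟩)) (.Q [0,0,0,0,0,1,0,0,0,0,
  -1,1] (.p true [1,0,-1,0,1] [1] (⟨0,[(30,0),(5,0)]⟩,⟨0,[(1,0)]⟩) .k 1 (⟨0,[]⟩,⟨0,[]⟩) .k (.r 0 ⟨2,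
  [(17,1),(15,0),(0,0),(7,0)]⟩ ⟨10,[(6,3),(4,1),(1,0),(9,3),(8,0),(17,3)]⟩)) (.R ⟨0,false,false,
  false,[0,0,1,0,-1],[0,0,1],[],(⟨0,[(2,0)]⟩,⟨0,[(31,0),(5,0)]⟩),(⟨0,[(38,0)]⟩,⟨0,[(37,0)]⟩),⟨0,[(0,
  0)]⟩,.k,.k,(.r (-2) ⟨2,[(7,1),(16,0),(3,1),(0,1),(21,0)]⟩ ⟨0,[(9,0),(3,1),(32,0),(0,0),(3,0)]⟩),
  .k,.k,.k,⟨true,0,⟨0,[(18,0)]⟩,⟨10,[(7,1),(4,0),(1,5),(9,1),(8,5),(17,1)]⟩⟩,⟨false,0,⟨1,[(5,1),(44,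
  0),(0,0)]⟩,⟨0,[(28,0)]⟩⟩,⟨false,0,⟨0,[(18,0)]⟩,⟨10,[(7,3),(4,1),(1,0),(9,3),(8,0),(17,3)]⟩⟩,⟨true,
  (-1),⟨0,[(5,0)]⟩,⟨0,[(28,0)]⟩⟩,⟨false,0,⟨0,[]⟩,⟨0,[]⟩⟩,⟨false,0,⟨0,[]⟩,⟨0,[]⟩⟩,[.o ⟨false,1,⟨1,
  [(33,1),(12,0),(4,0)]⟩,⟨0,[(18,0),(2,0)]⟩⟩,.e ⟨false,1,⟨1,[(50,0),(0,0)]⟩,⟨0,[(53,0)]⟩⟩ ⟨false,1,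
  ⟨3,[(5,1),(1,1),(0,0),(3,0),(16,1),(2,0),(18,2)]⟩,⟨2,[(1,2),(11,1),(2,1),(0,0),(28,0)]⟩⟩,.a ⟨true,
  1,⟨0,[(1,0),(33,0)]⟩,⟨5,[(5,5),(8,1),(17,3),(12,0),(5,2)]⟩⟩ ⟨false,1,⟨1,[(28,0),(0,0),(21,0)]⟩,⟨0,
  []⟩⟩ ⟨true,0,⟨10,[(5,10),(1,3),(4,1),(1,0),(9,3),(8,0),(17,3)]⟩,⟨2,[(1,2),(11,1),(2,1),(0,0),(28,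
  0)]⟩⟩,.o ⟨false,1,⟨4,[(1,2),(4,2),(4,0),(15,3),(0,1),(6,1),(10,2)]⟩,⟨1,[(5,1),(15,1),(28,0),(0,
  0)]⟩⟩]⟩) (.R ⟨0,false,false,false,[0,0,0,0,1],[0,0,1,0,1],[1,1,0,-1],(⟨0,[(31,0)]⟩,⟨0,[(30,0)]⟩),
  (⟨0,[(31,0),(6,0)]⟩,⟨0,[(3,0)]⟩),⟨4,[(0,2),(2,1),(7,0),(27,0),(4,2)]⟩,.k,.k,(.r 0 ⟨2,[(7,0),(5,1),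
  (4,0),(27,0),(0,0)]⟩ ⟨2,[(17,0),(5,0),(0,0),(3,0),(0,0)]⟩),.k,.k,.k,⟨true,0,⟨0,[(18,0),(30,0)]⟩,
  ⟨10,[(7,0),(4,5),(1,2),(9,0),(8,2),(17,0)]⟩⟩,⟨false,1,⟨0,[(35,0),(14,0)]⟩,⟨0,[(21,0)]⟩⟩,⟨true,0,
  ⟨0,[(49,0)]⟩,⟨0,[(48,0)]⟩⟩,⟨false,1,⟨0,[(33,0),(17,0)]⟩,⟨0,[(18,0),(2,0)]⟩⟩,⟨false,0,⟨0,[]⟩,⟨0,
  []⟩⟩,⟨false,0,⟨0,[]⟩,⟨0,[]⟩⟩,[.o ⟨false,0,⟨1,[(5,1),(27,1),(12,0),(4,0)]⟩,⟨0,[(1,0),(15,0),(3,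
  0)]⟩⟩,.a ⟨true,0,⟨0,[(5,0),(27,0),(17,0)]⟩,⟨5,[(1,5),(11,2),(0,1),(2,2),(1,2),(12,0),(12,0)]⟩⟩
  ⟨true,0,⟨0,[(49,0)]⟩,⟨9,[(9,1),(12,1),(0,1),(11,0),(0,0)]⟩⟩ ⟨false,1,⟨1,[(33,1),(16,0),(0,0)]⟩,⟨0,
  [(18,0),(2,0)]⟩⟩,.o ⟨false,0,⟨1,[(5,1),(40,0),(4,0)]⟩,⟨0,[(28,0)]⟩⟩,.o ⟨false,0,⟨5,[(5,1),(8,1),
  (14,3),(5,1),(10,2),(4,0)]⟩,⟨0,[(1,0)]⟩⟩]⟩)))))))) (.Q [0,0,1,0,0,0,1,0,-1,0,1,-1] (.p true [0,0,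
  1] [0,0,0,0,1] (⟨0,[(31,0)]⟩,⟨0,[(30,0)]⟩) .k 2 (⟨0,[(24,0)]⟩,⟨0,[(23,0)]⟩) .k (.r (-1) ⟨0,[(14,
  0),(11,0),(17,0)]⟩ ⟨2,[(11,1),(15,0),(0,0),(7,0)]⟩)) (.Q [0,0,0,0,0,1,0,0,0,-1,0,1] (.ed false [0,
  1,0,0,1] .k) (.R ⟨0,false,false,false,[1,0,0,0,-1],[1,-1],[],(⟨0,[(25,0)]⟩,⟨0,[(26,0)]⟩),(⟨0,[(36,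
  0)]⟩,⟨0,[(37,0)]⟩),⟨0,[(0,0)]⟩,.k,.k,(.r (-1) ⟨1,[(44,1),(0,0),(0,0)]⟩ ⟨16,[(11,2),(5,7),(0,2),
  (10,4),(0,4),(7,1)]⟩),(.r (-1) ⟨2,[(12,0),(5,0),(0,0),(3,0),(0,0)]⟩ ⟨1,[(8,1),(32,0),(3,0)]⟩),.k,
  .k,⟨true,0,⟨9,[(4,1),(12,1),(0,1),(11,0),(0,0)]⟩,⟨0,[(44,0)]⟩⟩,⟨false,0,⟨0,[(24,0)]⟩,⟨0,[(1,0),
  (14,0),(28,0)]⟩⟩,⟨true,0,⟨0,[(48,0)]⟩,⟨0,[]⟩⟩,⟨false,0,⟨0,[(24,0),(19,0)]⟩,⟨0,[(1,0),(14,0),(25,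
  0),(3,0)]⟩⟩,⟨false,0,⟨0,[]⟩,⟨0,[]⟩⟩,⟨false,0,⟨0,[]⟩,⟨0,[]⟩⟩,[.o ⟨false,0,⟨0,[(44,0)]⟩,⟨8,[(3,0),
  (11,0),(2,2),(19,0),(2,3),(3,0)]⟩⟩,.e ⟨false,1,⟨1,[(45,0),(0,0)]⟩,⟨0,[(48,0)]⟩⟩ ⟨false,1,⟨1,[(24,
  1),(19,1),(0,0),(0,0)]⟩,⟨0,[(1,0),(14,0),(25,0)]⟩⟩,.a ⟨true,0,⟨0,[(1,0),(25,0)]⟩,⟨0,[(24,0)]⟩⟩
  ⟨false,1,⟨1,[(23,0),(0,0),(21,0)]⟩,⟨0,[]⟩⟩ ⟨true,0,⟨0,[(24,0),(19,0)]⟩,⟨0,[(1,0),(14,0),(25,0)]⟩⟩,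
  .o ⟨false,0,⟨0,[(1,0),(14,0)]⟩,⟨1,[(24,1),(16,0),(3,0)]⟩⟩]⟩) (.Q [0,0,0,0,-1,0,-2,-2,0,1,-2] (.p
  false [0,0,1] [1,0,-1] (⟨0,[(33,0)]⟩,⟨0,[(32,0)]⟩) .k 2 (⟨0,[(32,0)]⟩,⟨0,[(33,0)]⟩) .k (.r (-1)
  ⟨0,[(16,1),(11,1),(17,0)]⟩ ⟨0,[(13,1)]⟩)) (.Q [0,2,0,1,-1,0,0,0,1,0,0,1] (.p true [0,0,0,0,1] []
  (⟨0,[(27,0)]⟩,⟨0,[(26,0)]⟩) .k 0 (⟨0,[]⟩,⟨0,[]⟩) .k .k) (.K ⟨0,[0,1,0,0,1],0,(-1),(⟨22,[(25,2),(0,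
  2),(1,22),(7,4),(4,5),(0,2)]⟩,⟨0,[(2,0)]⟩),(.r 0 ⟨16,[(13,2),(5,7),(0,2),(10,4),(0,4),(7,1)]⟩ ⟨1,
  [(46,1),(0,0),(0,0)]⟩),.k,(.r 1 ⟨4,[(0,0),(2,0),(2,0),(2,1),(1,0),(1,1),(5,0)]⟩ ⟨1,[(25,0),(0,0),
  (19,3),(0,1),(0,0)]⟩),(.r 1 ⟨0,[(4,0),(5,1),(32,0),(0,0),(3,0)]⟩ ⟨0,[(21,0),(24,1),(0,0)]⟩),.k,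
  [⟨0,[(3,0)]⟩,⟨0,[(26,0)]⟩,⟨0,[(25,0),(20,0)]⟩,⟨0,[(0,0)]⟩]⟩) (.R ⟨0,false,false,true,[0,-1,1],[1,
  0,0,0,-1],[0,1],(⟨0,[(24,0)]⟩,⟨22,[(25,2),(0,2),(7,22),(1,4),(4,5),(0,2)]⟩),(⟨0,[(27,0)]⟩,⟨0,[(28,
  0)]⟩),⟨2,[(8,0),(14,1),(12,0),(4,2)]⟩,.k,.k,(.r (-2) ⟨11,[(21,7),(0,1),(7,3),(9,1),(2,0),(2,31),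
  (0,14)]⟩ ⟨0,[(4,0)]⟩),(.r (-1) ⟨5,[(21,1),(0,1),(7,3),(9,1),(2,0),(2,7),(0,2)]⟩ ⟨1,[(6,0),(8,0),
  (32,0)]⟩),.k,.k,⟨false,0,⟨3,[(10,1),(32,0),(0,1),(2,0)]⟩,⟨1,[(25,0),(0,0),(21,0)]⟩⟩,⟨true,0,⟨1,
  [(0,1),(9,0),(0,0),(17,0),(14,2)]⟩,⟨1,[(0,0),(5,1),(19,2),(3,1),(12,0),(2,2)]⟩⟩,⟨true,(-1),⟨0,[(4,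
  0),(5,1),(32,0),(0,0),(3,0)]⟩,⟨1,[(0,0),(17,1),(7,0),(3,1),(15,0),(0,0)]⟩⟩,⟨false,0,⟨67,[(0,60),
  (0,33),(4,17),(2,17),(10,0),(4,6),(16,16),(1,54)]⟩,⟨1,[(0,0),(25,2),(3,1),(12,0),(2,0)]⟩⟩,⟨false,
  0,⟨0,[]⟩,⟨0,[]⟩⟩,⟨false,0,⟨0,[]⟩,⟨0,[]⟩⟩,[.a ⟨true,0,⟨0,[(3,0),(25,0)]⟩,⟨0,[(26,0)]⟩⟩ ⟨false,0,⟨3,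
  [(10,1),(32,0),(0,1),(2,0)]⟩,⟨1,[(25,0),(0,0),(21,0)]⟩⟩ ⟨true,0,⟨1,[(0,1),(9,0),(0,0),(17,0),(14,
  2)]⟩,⟨1,[(0,0),(5,1),(19,2),(3,1),(12,0),(2,2)]⟩⟩,.e ⟨false,1,⟨1,[(25,0),(0,0),(20,0)]⟩,⟨0,[]⟩⟩
  ⟨false,1,⟨0,[(0,0),(28,0),(14,0)]⟩,⟨2,[(10,0),(2,0),(12,2),(3,0),(1,1),(10,1)]⟩⟩,.e ⟨true,0,⟨0,
  [(50,0)]⟩,⟨0,[]⟩⟩ ⟨true,0,⟨1,[(0,1),(9,0),(0,0),(17,0),(14,2)]⟩,⟨2,[(10,0),(2,0),(12,2),(3,0),(1,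
  1),(10,1)]⟩⟩,.o ⟨false,0,⟨1,[(0,0),(5,1),(19,0),(3,1),(12,0),(2,2)]⟩,⟨0,[(18,0),(28,0)]⟩⟩]⟩)) (.Q
  [0,2,0,1,-1,0,0,0,1,0,0,1] (.p true [0,0,0,0,1] [] (⟨0,[(27,0)]⟩,⟨0,[(26,0)]⟩) .k 0 (⟨0,[]⟩,⟨0,
  []⟩) .k .k) (.K ⟨0,[0,1,0,0,1],0,(-1),(⟨22,[(25,2),(0,2),(1,22),(7,4),(4,5),(0,2)]⟩,⟨0,[(2,0)]⟩),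
  (.r 0 ⟨16,[(13,2),(5,7),(0,2),(10,4),(0,4),(7,1)]⟩ ⟨1,[(46,1),(0,0),(0,0)]⟩),.k,(.r 1 ⟨4,[(0,0),
  (2,0),(2,0),(2,1),(1,0),(1,1),(5,0)]⟩ ⟨1,[(25,0),(0,0),(19,3),(0,1),(0,0)]⟩),(.r 1 ⟨0,[(4,0),(5,
  1),(32,0),(0,0),(3,0)]⟩ ⟨1,[(1,0),(20,0),(2,0),(0,0),(19,1),(0,0),(0,0)]⟩),.k,[⟨0,[(3,0)]⟩,⟨0,
  [(26,0)]⟩,⟨0,[(25,0),(20,0)]⟩,⟨0,[(0,0)]⟩]⟩) (.R ⟨0,false,false,true,[0,-1,1],[1,0,0,0,-1],[0,1],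
  (⟨0,[(24,0)]⟩,⟨22,[(25,2),(0,2),(7,22),(1,4),(4,5),(0,2)]⟩),(⟨0,[(27,0)]⟩,⟨0,[(28,0)]⟩),⟨2,[(8,0),
  (14,1),(12,0),(4,2)]⟩,.k,.k,(.r (-2) ⟨1,[(1,0),(20,0),(2,0),(0,0),(19,3),(0,1)]⟩ ⟨0,[(4,0)]⟩),(.r
  (-1) ⟨3,[(1,1),(20,1),(2,0),(0,0),(13,1),(5,3),(0,0)]⟩ ⟨1,[(6,0),(8,0),(32,0)]⟩),.k,.k,⟨false,0,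
  ⟨3,[(10,1),(32,0),(0,1),(2,0)]⟩,⟨1,[(25,0),(0,0),(21,0)]⟩⟩,⟨true,0,⟨1,[(0,1),(9,0),(0,0),(17,0),
  (14,2)]⟩,⟨8,[(1,2),(8,1),(0,2),(1,1),(0,3),(11,8),(5,5),(10,3)]⟩⟩,⟨true,(-1),⟨0,[(4,0),(5,1),(32,
  0),(0,0),(3,0)]⟩,⟨1,[(1,0),(20,0),(23,1),(0,0)]⟩⟩,⟨false,0,⟨1,[(0,1),(5,0),(6,0),(15,1),(14,0)]⟩,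
  ⟨3,[(1,1),(23,0),(0,4),(16,0),(2,3)]⟩⟩,⟨false,0,⟨0,[]⟩,⟨0,[]⟩⟩,⟨false,0,⟨0,[]⟩,⟨0,[]⟩⟩,[.a ⟨true,
  0,⟨0,[(3,0),(25,0)]⟩,⟨0,[(26,0)]⟩⟩ ⟨false,0,⟨3,[(10,1),(32,0),(0,1),(2,0)]⟩,⟨1,[(25,0),(0,0),(21,
  0)]⟩⟩ ⟨true,0,⟨1,[(0,1),(9,0),(0,0),(17,0),(14,2)]⟩,⟨8,[(1,2),(8,1),(0,2),(1,1),(0,3),(11,8),(5,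
  5),(10,3)]⟩⟩,.e ⟨false,1,⟨1,[(25,0),(0,0),(20,0)]⟩,⟨0,[]⟩⟩ ⟨false,1,⟨0,[(0,0),(28,0),(14,0)]⟩,⟨2,
  [(10,0),(2,0),(12,2),(3,0),(1,1),(10,1)]⟩⟩,.e ⟨true,0,⟨0,[(50,0)]⟩,⟨0,[]⟩⟩ ⟨true,0,⟨1,[(0,1),(9,
  0),(0,0),(17,0),(14,2)]⟩,⟨2,[(10,0),(2,0),(12,2),(3,0),(1,1),(10,1)]⟩⟩,.o ⟨false,0,⟨8,[(1,2),(8,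
  1),(0,2),(1,1),(0,3),(17,5),(10,3)]⟩,⟨0,[(18,0),(28,0)]⟩⟩]⟩)))) (.Q [0,0,1,0,-1,0,0,0,1,0,0,1]
  (.p true [0,0,0,0,1] [] (⟨0,[(25,0)]⟩,⟨0,[(24,0)]⟩) .k 0 (⟨0,[]⟩,⟨0,[]⟩) .k .k) (.Q [0,0,0,0,0,-1,
  0,0,0,0,0,1] (.ed false [1,-1,0,0,1] .k) (.S ⟨1,0,[0,0,1],[1,1,0,0,-1],[0,-1,1],(⟨22,[(24,2),(0,
  2),(0,22),(8,4),(4,5),(0,2)]⟩,⟨0,[(0,0)]⟩),⟨0,[(26,0)]⟩,(.r (-1) ⟨2,[(13,0),(5,0),(0,0),(3,0),(0,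
  0)]⟩ ⟨1,[(9,1),(32,0),(3,0)]⟩),.k,⟨true,0,⟨0,[(45,0)]⟩,⟨0,[(44,0)]⟩⟩,⟨false,0,⟨0,[(45,0)]⟩,⟨3,
  [(19,1),(26,0),(0,0)]⟩⟩,⟨false,1,⟨1,[(24,0),(0,0),(21,0)]⟩,⟨0,[]⟩⟩,⟨true,0,⟨0,[(49,0)]⟩,⟨0,[]⟩⟩,
  [.o ⟨false,1,⟨0,[(24,0)]⟩,⟨1,[(1,1),(40,0),(3,0)]⟩⟩,.e ⟨false,1,⟨0,[(47,0)]⟩,⟨0,[(39,0)]⟩⟩ ⟨false,
  1,⟨1,[(24,0),(0,0),(21,0)]⟩,⟨3,[(9,1),(32,0),(0,1),(2,0)]⟩⟩,.a ⟨true,1,⟨2,[(9,0),(14,2),(16,0),(1,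
  0),(2,0),(0,0)]⟩,⟨0,[(1,0)]⟩⟩ ⟨false,1,⟨1,[(31,0),(0,0),(14,1)]⟩,⟨3,[(9,1),(32,0),(0,1),(2,0)]⟩⟩
  ⟨true,0,⟨1,[(31,0),(0,0)]⟩,⟨3,[(9,1),(32,0),(0,1),(2,0)]⟩⟩,.o ⟨false,1,⟨0,[(24,0)]⟩,⟨1,[(1,1),(40,
  0),(3,0)]⟩⟩]⟩) (.R ⟨0,false,false,false,[0,1,0,0,-1],[0,1],[1,0,1],(⟨0,[(0,0)]⟩,⟨0,[(27,0),(9,
  0)]⟩),(⟨0,[(38,0)]⟩,⟨0,[(37,0)]⟩),⟨0,[(27,0)]⟩,(.r (-1) ⟨2,[(13,0),(5,0),(0,0),(3,0),(0,0)]⟩ ⟨1,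
  [(9,1),(32,0),(3,0)]⟩),.k,.k,.k,.k,.k,⟨true,0,⟨0,[(45,0)]⟩,⟨9,[(5,1),(12,1),(0,1),(11,0),(0,0)]⟩⟩,
  ⟨false,0,⟨0,[(1,0),(44,0)]⟩,⟨0,[(24,0)]⟩⟩,⟨false,0,⟨0,[(45,0)]⟩,⟨3,[(19,1),(26,0),(0,0)]⟩⟩,⟨true,
  (-1),⟨3,[(1,3),(7,1),(32,0),(0,1),(2,0)]⟩,⟨0,[(24,0)]⟩⟩,⟨false,0,⟨0,[]⟩,⟨0,[]⟩⟩,⟨false,0,⟨0,[]⟩,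
  ⟨0,[]⟩⟩,[.o ⟨false,1,⟨8,[(4,0),(11,0),(2,2),(19,0),(2,3),(3,0)]⟩,⟨0,[(45,0)]⟩⟩,.e ⟨false,1,⟨1,
  [(24,0),(0,0),(21,0)]⟩,⟨3,[(9,1),(32,0),(0,1),(2,0)]⟩⟩ ⟨false,0,⟨0,[(1,0),(41,0),(3,0)]⟩,⟨1,[(9,
  1),(14,1),(17,0),(3,0)]⟩⟩,.o ⟨false,2,⟨1,[(24,1),(17,0),(3,0)]⟩,⟨0,[(1,0)]⟩⟩,.a ⟨true,1,⟨0,[(24,
  0)]⟩,⟨2,[(1,2),(7,0),(31,0),(1,0),(2,0),(0,0)]⟩⟩ ⟨true,0,⟨0,[]⟩,⟨0,[(49,0)]⟩⟩ ⟨false,0,⟨0,[(1,0),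
  (41,0),(3,0)]⟩,⟨0,[(24,0),(20,0)]⟩⟩]⟩)) (.Q [0,0,0,-1,0,0,0,0,-1,1,0,-1] (.p false [0,0,0,0,1]
  [1] (⟨0,[(26,0)]⟩,⟨0,[(25,0)]⟩) .k 1 (⟨0,[]⟩,⟨0,[]⟩) .k .k) (.Q [0,0,0,0,1,0,2,0,0,-1,2] (.p true
  [0,0,1] [1,0,-1] (⟨0,[(34,0)]⟩,⟨0,[(33,0)]⟩) .k 2 (⟨0,[(33,0)]⟩,⟨0,[(34,0)]⟩) .k (.r (-1) ⟨0,[(17,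
  1),(11,1),(17,0)]⟩ ⟨0,[(14,1)]⟩)) (.Q [0,0,0,0,-1,0,-2,-2,0,1,-2] (.p false [0,0,1] [1,0,-1] (⟨0,
  [(35,0)]⟩,⟨0,[(34,0)]⟩) .k 2 (⟨0,[(34,0)]⟩,⟨0,[(35,0)]⟩) .k (.r (-1) ⟨0,[(18,1),(11,1),(17,0)]⟩
  ⟨0,[(15,1)]⟩)) (.Q [0,-1,0,0,1,0,0,0,-1,0,0,-1] (.p false [0,0,0,0,1] [] (⟨0,[(29,0)]⟩,⟨0,[(28,
  0)]⟩) .k 0 (⟨0,[]⟩,⟨0,[]⟩) .k .k) (.Q [0,1,-1,-1,-1,0,-2,-1,0,1,-2] (.p false [0,0,1] [1,0,-1]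
  (⟨0,[(37,0)]⟩,⟨0,[(36,0)]⟩) .k 2 (⟨0,[(36,0)]⟩,⟨0,[(37,0)]⟩) .k (.r (-1) ⟨0,[(20,1),(11,1),(17,
  0)]⟩ ⟨0,[(17,1)]⟩)) (.R ⟨0,false,false,true,[0,-1,1],[1,-1,-1],[0,1],(⟨0,[(27,0)]⟩,⟨22,[(28,2),(0,
  2),(7,22),(1,4),(4,5),(0,2)]⟩),(⟨0,[(26,0)]⟩,⟨22,[(28,2),(0,2),(8,22),(0,4),(4,5),(0,2)]⟩),⟨2,
  [(11,0),(14,1),(12,0),(4,2)]⟩,.k,.k,(.r (-2) ⟨11,[(24,7),(0,1),(7,3),(9,1),(2,0),(2,31),(0,14)]⟩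
  ⟨0,[(7,0)]⟩),.k,.k,.k,⟨true,0,⟨2,[(12,0),(1,0),(0,0),(17,0),(17,0)]⟩,⟨0,[(18,0),(30,0)]⟩⟩,⟨false,
  0,⟨0,[(21,0),(10,0)]⟩,⟨0,[(3,0)]⟩⟩,⟨true,(-1),⟨0,[(7,0),(5,1),(32,0),(0,0),(3,0)]⟩,⟨1,[(4,1),(1,
  1),(26,1),(12,0),(4,0)]⟩⟩,⟨false,(-1),⟨0,[(2,0)]⟩,⟨1,[(33,3),(12,0),(4,2)]⟩⟩,⟨false,0,⟨0,[]⟩,⟨0,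
  []⟩⟩,⟨false,0,⟨0,[]⟩,⟨0,[]⟩⟩,[.a ⟨true,(-1),⟨2,[(2,0),(10,1),(20,0),(14,0)]⟩,⟨3,[(8,1),(24,1),(11,
  0),(5,2)]⟩⟩ ⟨false,0,⟨3,[(13,1),(32,0),(0,1),(2,0)]⟩,⟨1,[(28,0),(0,0),(21,0)]⟩⟩ ⟨true,(-1),⟨0,[(0,
  0)]⟩,⟨3,[(3,2),(4,0),(0,0),(4,2),(18,3),(17,3)]⟩⟩,.o ⟨false,0,⟨5,[(2,1),(31,1),(11,0),(2,5),(1,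
  0)]⟩,⟨0,[(10,0)]⟩⟩,.e ⟨true,0,⟨0,[(53,0)]⟩,⟨0,[]⟩⟩ ⟨true,(-1),⟨0,[(0,0)]⟩,⟨6,[(3,5),(4,0),(3,1),
  (1,1),(9,0),(8,2),(17,0)]⟩⟩,.o ⟨false,0,⟨0,[(3,0),(10,0)]⟩,⟨0,[(5,0),(0,0)]⟩⟩]⟩) (.R ⟨0,false,
  false,true,[0,-1,1],[1,-1,-1],[0,1],(⟨0,[(27,0)]⟩,⟨22,[(28,2),(0,2),(7,22),(1,4),(4,5),(0,2)]⟩),
  (⟨0,[(26,0)]⟩,⟨22,[(28,2),(0,2),(8,22),(0,4),(4,5),(0,2)]⟩),⟨2,[(11,0),(14,1),(12,0),(4,2)]⟩,.k,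
  .k,(.r (-2) ⟨11,[(24,7),(0,1),(7,3),(9,1),(2,0),(2,31),(0,14)]⟩ ⟨0,[(7,0)]⟩),.k,.k,.k,⟨true,0,⟨2,
  [(12,0),(1,0),(0,0),(17,0),(17,0)]⟩,⟨0,[(18,0),(30,0)]⟩⟩,⟨false,0,⟨0,[(21,0),(10,0)]⟩,⟨0,[(3,
  0)]⟩⟩,⟨true,(-1),⟨0,[(7,0),(5,1),(32,0),(0,0),(3,0)]⟩,⟨1,[(4,1),(1,1),(26,1),(12,0),(4,0)]⟩⟩,
  ⟨false,(-1),⟨0,[(2,0)]⟩,⟨1,[(33,3),(12,0),(4,2)]⟩⟩,⟨false,0,⟨0,[]⟩,⟨0,[]⟩⟩,⟨false,0,⟨0,[]⟩,⟨0,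
  []⟩⟩,[.e ⟨false,0,⟨3,[(13,1),(32,0),(0,1),(2,0)]⟩,⟨1,[(28,0),(0,0),(21,0)]⟩⟩ ⟨false,0,⟨3,[(2,1),
  (1,3),(1,3),(36,1),(2,0),(3,0)]⟩,⟨0,[(0,0)]⟩⟩,.o ⟨false,0,⟨5,[(2,1),(31,1),(11,0),(2,5),(1,0)]⟩,
  ⟨0,[(10,0)]⟩⟩,.a ⟨true,0,⟨0,[(35,0)]⟩,⟨0,[(32,0)]⟩⟩ ⟨true,0,⟨0,[(53,0)]⟩,⟨0,[]⟩⟩ ⟨false,0,⟨1,[(2,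
  0),(22,0),(23,1),(0,0)]⟩,⟨0,[(0,0)]⟩⟩,.o ⟨false,0,⟨0,[(3,0),(10,0)]⟩,⟨0,[(5,0),(0,0)]⟩⟩]⟩)) (.R
  ⟨2,true,false,true,[0,1],[1,0,0,0,-1],[1,1,1,1],(⟨0,[]⟩,⟨0,[]⟩),(⟨0,[(29,0)]⟩,⟨0,[(30,0)]⟩),⟨0,
  []⟩,.k,.k,.k,(.r 0 ⟨16,[(15,2),(5,7),(0,2),(10,4),(0,4),(7,1)]⟩ ⟨1,[(48,1),(0,0),(0,0)]⟩),.k,.k,
  ⟨false,0,⟨0,[(47,0)]⟩,⟨1,[(48,1),(0,0),(0,0)]⟩⟩,⟨true,0,⟨9,[(3,9),(4,1),(12,1),(0,1),(11,0),(0,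
  0)]⟩,⟨1,[(0,1),(44,0),(4,0)]⟩⟩,⟨false,0,⟨0,[]⟩,⟨1,[(27,0),(0,0),(21,0)]⟩⟩,⟨true,0,⟨0,[(3,0)]⟩,⟨2,
  [(0,1),(6,0),(11,0),(8,0),(16,0)]⟩⟩,⟨true,0,⟨0,[(47,0)]⟩,⟨0,[(48,0)]⟩⟩,⟨false,1,⟨5,[(3,3),(18,1),
  (4,1),(16,0),(4,0),(0,1)]⟩,⟨1,[(0,1),(44,0),(4,0)]⟩⟩,[]⟩)) (.Q [0,0,0,-1,-1,0,-2,-2,0,1,-2] (.p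
  false [0,0,1] [1,0,-1] (⟨0,[(36,0)]⟩,⟨0,[(35,0)]⟩) .k 2 (⟨0,[(35,0)]⟩,⟨0,[(36,0)]⟩) .k (.r (-1)
  ⟨0,[(0,0),(22,0)]⟩ ⟨0,[(16,1)]⟩)) (.R ⟨1,true,false,false,[0,0,1],[1,-1,-1],[1,1,0,0,0,0,0,1],(⟨0,
  [(37,0)]⟩,⟨0,[(36,0)]⟩),(⟨0,[(25,0)]⟩,⟨22,[(27,2),(0,2),(8,22),(0,4),(4,5),(0,2)]⟩),⟨0,[(26,0)]⟩,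
  .k,.k,.k,(.r 0 ⟨5,[(1,5),(11,7),(17,3),(12,0),(1,5),(3,2)]⟩ ⟨1,[(0,1),(1,1),(24,0),(0,0),(20,
  0)]⟩),.k,.k,⟨false,0,⟨0,[(1,0),(11,0),(17,0),(14,0)]⟩,⟨1,[(0,1),(1,1),(46,0),(0,0)]⟩⟩,⟨true,(-1),
  ⟨0,[(13,0),(17,0)]⟩,⟨0,[(2,0)]⟩⟩,⟨false,0,⟨0,[]⟩,⟨1,[(27,0),(0,0),(21,0)]⟩⟩,⟨true,(-1),⟨0,[(0,
  0)]⟩,⟨9,[(1,4),(0,0),(4,3),(13,1),(10,3),(9,1)]⟩⟩,⟨true,0,⟨0,[(47,0)]⟩,⟨0,[(48,0)]⟩⟩,⟨false,0,⟨3,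
  [(0,3),(21,1),(26,0),(0,0)]⟩,⟨0,[(1,0)]⟩⟩,[]⟩) (.Q [0,0,0,-2,-1,0,-2,-2,0,1,-2] (.p false [0,0,1]
  [1,0,-1] (⟨0,[(37,0)]⟩,⟨0,[(36,0)]⟩) .k 2 (⟨0,[(36,0)]⟩,⟨0,[(37,0)]⟩) .k (.r (-1) ⟨0,[(1,0),(22,
  0)]⟩ ⟨0,[(17,1)]⟩)) (.R ⟨1,true,false,false,[1,0,-1],[0,1,1],[1,1,0,0,0,0,0,-1],(⟨0,[(37,0)]⟩,⟨0,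
  [(38,0)]⟩),(⟨22,[(28,2),(0,2),(8,22),(0,4),(4,5),(0,2)]⟩,⟨0,[(26,0)]⟩),⟨0,[(26,0)]⟩,.k,.k,.k,(.r
  (-1) ⟨13,[(0,10),(2,12),(14,1),(4,3),(10,3),(10,0),(4,8)]⟩ ⟨0,[(1,0),(12,0),(17,0)]⟩),(.r (-1) ⟨0,
  [(0,0),(2,0),(46,0)]⟩ ⟨8,[(2,3),(9,7),(1,3),(7,0),(1,0),(0,1),(19,0)]⟩),.k,⟨true,0,⟨0,[(0,0),(2,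
  0),(43,0)]⟩,⟨5,[(1,5),(12,7),(17,3),(12,0),(5,2)]⟩⟩,⟨false,2,⟨0,[(3,0),(46,0)]⟩,⟨0,[(14,0),(17,
  0)]⟩⟩,⟨false,0,⟨0,[]⟩,⟨1,[(28,0),(0,0),(21,0)]⟩⟩,⟨true,1,⟨0,[(1,0)]⟩,⟨2,[(0,1),(12,0),(6,1)]⟩⟩,
  ⟨true,0,⟨0,[(48,0)]⟩,⟨0,[(49,0)]⟩⟩,⟨false,2,⟨3,[(1,3),(21,1),(26,0),(0,0)]⟩,⟨0,[(0,0)]⟩⟩,[]⟩) (.Q
  [0,0,0,0,0,0,0,0,1,-1,0,1] (.p true [0,0,0,0,1] [1] (⟨0,[(31,0)]⟩,⟨0,[(30,0)]⟩) .k 1 (⟨0,[]⟩,⟨0,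
  []⟩) .k .k) (.R ⟨2,true,false,true,[0,1],[1,0,0,0,-1],[1,1,1,1],(⟨0,[]⟩,⟨0,[]⟩),(⟨0,[(31,0)]⟩,⟨0,
  [(32,0)]⟩),⟨0,[]⟩,.k,.k,.k,(.r 0 ⟨16,[(17,2),(5,7),(0,2),(10,4),(0,4),(7,1)]⟩ ⟨1,[(50,1),(0,0),(0,
  0)]⟩),.k,.k,⟨false,0,⟨0,[(49,0)]⟩,⟨1,[(50,1),(0,0),(0,0)]⟩⟩,⟨true,0,⟨9,[(5,9),(4,1),(12,1),(0,1),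
  (11,0),(0,0)]⟩,⟨0,[(0,0)]⟩⟩,⟨false,0,⟨0,[]⟩,⟨1,[(29,0),(0,0),(21,0)]⟩⟩,⟨true,0,⟨0,[(5,0)]⟩,⟨0,[(0,
  0),(48,0)]⟩⟩,⟨true,0,⟨0,[(49,0)]⟩,⟨0,[(50,0)]⟩⟩,⟨false,1,⟨5,[(5,3),(18,1),(4,1),(16,0),(4,0),(0,
  1)]⟩,⟨0,[(0,0)]⟩⟩,[]⟩) (.R ⟨0,false,false,false,[0,-1,1],[0,0,0,0,1],[1,1,1],(⟨0,[(28,0)]⟩,⟨22,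
  [(29,2),(0,2),(7,22),(1,4),(4,5),(0,2)]⟩),(⟨0,[(32,0)]⟩,⟨0,[(31,0)]⟩),⟨2,[(12,0),(14,1),(12,0),(4,
  2)]⟩,.k,.k,(.r (-2) ⟨1,[(3,0),(22,0),(2,0),(0,0),(19,3),(0,1)]⟩ ⟨0,[(8,0)]⟩),(.r (-2) ⟨1,[(3,0),
  (22,0),(2,0),(0,0),(19,1),(0,0),(0,0)]⟩ ⟨0,[(8,0),(5,1),(32,0),(0,0),(3,0)]⟩),.k,.k,⟨false,0,⟨0,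
  []⟩,⟨1,[(29,0),(0,0),(20,0)]⟩⟩,⟨true,0,⟨0,[(7,0)]⟩,⟨4,[(3,0),(0,2),(0,3),(4,1),(4,2),(13,0)]⟩⟩,
  ⟨false,(-1),⟨0,[(10,0),(39,0)]⟩,⟨1,[(3,0),(22,0),(23,1),(0,1),(0,0)]⟩⟩,⟨true,(-1),⟨0,[(7,0),(9,
  0)]⟩,⟨1,[(3,0),(1,0),(23,0),(20,0)]⟩⟩,⟨false,0,⟨0,[]⟩,⟨0,[]⟩⟩,⟨false,0,⟨0,[]⟩,⟨0,[]⟩⟩,[.o ⟨false,
  0,⟨2,[(7,0),(6,0),(2,0),(12,1),(3,0),(12,1)]⟩,⟨1,[(0,1),(46,0),(4,0)]⟩⟩,.a ⟨true,0,⟨0,[(30,0)]⟩,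
  ⟨0,[(0,0)]⟩⟩ ⟨false,0,⟨0,[]⟩,⟨1,[(29,0),(0,0),(20,0)]⟩⟩ ⟨true,0,⟨0,[(7,0)]⟩,⟨4,[(3,0),(0,2),(0,3),
  (4,1),(4,2),(13,0)]⟩⟩,.e ⟨false,0,⟨1,[(36,0),(0,0)]⟩,⟨1,[(51,0),(0,0)]⟩⟩ ⟨false,0,⟨0,[(7,0)]⟩,⟨7,
  [(3,2),(0,0),(0,3),(4,1),(7,3),(10,3),(22,1)]⟩⟩,.o ⟨false,0,⟨0,[(4,0),(10,0)]⟩,⟨0,[(6,0),(0,
  0)]⟩⟩]⟩))))) (.Q [0,-1,0,0,1,0,0,0,-1,0,0,-1] (.p false [0,0,0,0,1] [] (⟨0,[(28,0)]⟩,⟨0,[(27,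
  0)]⟩) .k 0 (⟨0,[]⟩,⟨0,[]⟩) .k .k) (.Q [0,0,0,0,0,0,0,0,-1,1,0,-1] (.p false [0,0,0,0,1] [1] (⟨0,
  [(29,0)]⟩,⟨0,[(28,0)]⟩) .k 1 (⟨0,[]⟩,⟨0,[]⟩) .k .k) (.R ⟨0,false,false,false,[0,-1,1],[0,0,0,0,1],
  [],(⟨0,[(26,0)]⟩,⟨22,[(27,2),(0,2),(7,22),(1,4),(4,5),(0,2)]⟩),(⟨0,[(30,0)]⟩,⟨0,[(29,0)]⟩),⟨2,
  [(10,0),(14,1),(12,0),(4,2)]⟩,.k,.k,(.r (-2) ⟨11,[(23,7),(0,1),(7,3),(9,1),(2,0),(2,31),(0,14)]⟩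
  ⟨0,[(6,0)]⟩),(.r (-2) ⟨0,[(23,0),(24,1),(0,0)]⟩ ⟨0,[(6,0),(5,1),(32,0),(0,0),(3,0)]⟩),.k,.k,
  ⟨false,1,⟨1,[(49,0),(0,0)]⟩,⟨0,[(52,0)]⟩⟩,⟨true,0,⟨0,[(5,0)]⟩,⟨1,[(3,1),(4,1),(23,1),(12,0),(2,1),
  (1,0)]⟩⟩,⟨false,0,⟨1,[(8,0),(8,0),(32,0)]⟩,⟨5,[(2,1),(20,1),(8,3),(12,0),(2,7),(0,3),(0,0)]⟩⟩,
  ⟨true,(-1),⟨0,[(5,0),(9,0)]⟩,⟨1,[(3,1),(28,1),(12,0),(4,0)]⟩⟩,⟨false,0,⟨0,[]⟩,⟨0,[]⟩⟩,⟨false,0,⟨0,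
  []⟩,⟨0,[]⟩⟩,[.o ⟨false,0,⟨2,[(5,0),(6,0),(2,0),(12,1),(3,0),(12,1)]⟩,⟨0,[(1,0)]⟩⟩,.a ⟨true,0,⟨0,
  [(28,0)]⟩,⟨0,[(0,0)]⟩⟩ ⟨false,1,⟨1,[(49,0),(0,0)]⟩,⟨0,[(52,0)]⟩⟩ ⟨true,0,⟨0,[(5,0)]⟩,⟨1,[(3,1),(4,
  1),(23,1),(12,0),(2,1),(1,0)]⟩⟩,.e ⟨false,1,⟨1,[(27,0),(0,0),(21,0)]⟩,⟨0,[]⟩⟩ ⟨false,0,⟨0,[(5,
  0)]⟩,⟨0,[(1,0),(32,0)]⟩⟩,.o ⟨false,0,⟨1,[(8,1),(23,1),(12,0),(2,3),(1,0)]⟩,⟨3,[(2,0),(21,0),(20,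
  0),(3,3)]⟩⟩]⟩) (.R ⟨0,false,false,false,[0,-1,1],[0,0,0,0,1],[0,0,-1,-1,0,0,0,1],(⟨0,[(26,0)]⟩,
  ⟨22,[(27,2),(0,2),(7,22),(1,4),(4,5),(0,2)]⟩),(⟨0,[(30,0)]⟩,⟨0,[(29,0)]⟩),⟨2,[(10,0),(14,1),(12,
  0),(4,2)]⟩,.k,.k,(.r (-2) ⟨11,[(23,7),(0,1),(7,3),(9,1),(2,0),(2,31),(0,14)]⟩ ⟨0,[(6,0)]⟩),(.r
  (-2) ⟨0,[(23,0),(24,1),(0,0)]⟩ ⟨0,[(6,0),(5,1),(32,0),(0,0),(3,0)]⟩),.k,.k,⟨false,2,⟨5,[(2,1),(20,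
  1),(8,3),(12,0),(2,7),(0,6),(0,3)]⟩,⟨0,[(15,0)]⟩⟩,⟨true,0,⟨0,[(5,0)]⟩,⟨1,[(3,1),(4,1),(23,1),(12,
  0),(2,1),(1,0)]⟩⟩,⟨false,1,⟨1,[(27,0),(0,0),(21,0)]⟩,⟨0,[]⟩⟩,⟨true,(-1),⟨0,[(5,0),(9,0)]⟩,⟨1,[(3,
  1),(28,1),(12,0),(4,0)]⟩⟩,⟨false,0,⟨0,[]⟩,⟨0,[]⟩⟩,⟨false,0,⟨0,[]⟩,⟨0,[]⟩⟩,[.o ⟨false,0,⟨0,[(0,0),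
  (51,0)]⟩,⟨0,[(1,0)]⟩⟩,.o ⟨false,0,⟨0,[(0,0)]⟩,⟨0,[(27,0)]⟩⟩,.a ⟨true,0,⟨0,[(34,0)]⟩,⟨0,[(31,0)]⟩⟩
  ⟨true,1,⟨5,[(2,1),(20,1),(8,3),(12,0),(2,7),(0,3),(0,0)]⟩,⟨0,[(15,0)]⟩⟩ ⟨false,0,⟨0,[(5,0)]⟩,⟨0,
  [(1,0),(32,0)]⟩⟩,.o ⟨false,0,⟨1,[(8,1),(23,1),(12,0),(2,3),(1,0)]⟩,⟨3,[(2,0),(21,0),(20,0),(3,
  3)]⟩⟩]⟩)) (.R ⟨2,true,false,true,[0,1],[1,0,0,0,-1],[1,1,1,1],(⟨0,[]⟩,⟨0,[]⟩),(⟨0,[(28,0)]⟩,⟨0,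
  [(29,0)]⟩),⟨0,[]⟩,.k,.k,.k,(.r 0 ⟨16,[(14,2),(5,7),(0,2),(10,4),(0,4),(7,1)]⟩ ⟨1,[(47,1),(0,0),(0,
  0)]⟩),.k,.k,⟨false,0,⟨0,[(46,0)]⟩,⟨1,[(47,1),(0,0),(0,0)]⟩⟩,⟨true,0,⟨9,[(2,9),(4,1),(12,1),(0,1),
  (11,0),(0,0)]⟩,⟨1,[(0,1),(43,0),(4,0)]⟩⟩,⟨false,0,⟨0,[]⟩,⟨1,[(26,0),(0,0),(21,0)]⟩⟩,⟨true,0,⟨0,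
  [(2,0)]⟩,⟨2,[(0,1),(5,0),(11,0),(8,0),(16,0)]⟩⟩,⟨true,0,⟨0,[(46,0)]⟩,⟨0,[(47,0)]⟩⟩,⟨false,1,⟨5,
  [(2,3),(18,1),(4,1),(16,0),(4,0),(0,1)]⟩,⟨1,[(0,1),(43,0),(4,0)]⟩⟩,[]⟩))) (.Q [0,0,0,0,0,0,0,0,0,
  0,-1,1] (.ed false [1,0,-1,0,1] (.r 0 ⟨2,[(14,1),(15,0),(0,0),(7,0)]⟩ ⟨0,[(17,0),(11,0),(17,
  0)]⟩)) (.K ⟨0,[1,0,1,0,-1],0,1,(⟨0,[(27,0),(7,0)]⟩,⟨0,[(0,0)]⟩),.k,(.r (-2) ⟨0,[(21,0),(24,1),(0,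
  0)]⟩ ⟨0,[(4,0),(5,1),(32,0),(0,0),(3,0)]⟩),(.r (-1) ⟨0,[(21,0)]⟩ ⟨1,[(10,1),(4,1),(27,0),(3,0)]⟩),
  .k,.k,[⟨0,[(1,0),(44,0)]⟩,⟨0,[(2,0),(3,0),(3,0),(19,0),(15,0),(1,0)]⟩,⟨0,[(3,0),(6,0),(2,0),(29,
  0)]⟩,⟨37,[(2,5),(1,1),(4,1),(0,7),(14,31),(4,37),(5,3),(1,3),(3,12),(5,22)]⟩]⟩) (.Q [0,0,0,-2,0,0,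
  0,0,-1,1,0,-1] (.p false [0,0,0,0,1] [1] (⟨0,[(28,0)]⟩,⟨0,[(27,0)]⟩) .k 1 (⟨0,[]⟩,⟨0,[]⟩) .k .k)
  (.R ⟨1,true,false,false,[1,0,0,0,-1],[0,1],[0,-1,0,-1],(⟨0,[(28,0)]⟩,⟨0,[(29,0)]⟩),(⟨0,[(40,0)]⟩,
  ⟨0,[(39,0)]⟩),⟨1,[(1,0),(7,0),(18,0)]⟩,.k,.k,(.r (-1) ⟨1,[(47,1),(0,0),(0,0)]⟩ ⟨16,[(14,2),(5,7),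
  (0,2),(10,4),(0,4),(7,1)]⟩),(.r (-1) ⟨1,[(47,1),(0,0),(0,0)]⟩ ⟨16,[(14,2),(5,7),(0,2),(10,4),(0,
  4),(7,1)]⟩),(.r (-2) ⟨1,[(0,1),(26,1),(16,0),(3,1),(0,0)]⟩ ⟨4,[(7,0),(2,1),(1,0),(1,2),(5,0),(10,
  0)]⟩),.k,⟨true,1,⟨1,[(47,3),(0,0),(0,0)]⟩,⟨4,[(7,0),(2,1),(1,0),(1,2),(5,0),(10,0)]⟩⟩,⟨false,1,⟨0,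
  [(2,0),(44,0),(0,0)]⟩,⟨16,[(0,10),(4,3),(1,0),(2,2),(9,1),(0,1),(4,5),(16,2)]⟩⟩,⟨true,0,⟨0,[(47,
  0)]⟩,⟨0,[(46,0)]⟩⟩,⟨false,0,⟨0,[(2,0)]⟩,⟨3,[(0,3),(20,1),(26,0),(0,0)]⟩⟩,⟨false,1,⟨1,[(26,0),(0,
  0),(21,0)]⟩,⟨0,[]⟩⟩,⟨true,0,⟨0,[(2,0),(43,0)]⟩,⟨0,[(0,0)]⟩⟩,[]⟩) (.Q [0,-1,0,-2,1,0,0,0,-1,0,0,
  -1] (.p false [0,0,0,0,1] [] (⟨0,[(29,0)]⟩,⟨0,[(28,0)]⟩) .k 0 (⟨0,[]⟩,⟨0,[]⟩) .k .k) (.R ⟨1,true,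
  false,false,[1,-1,-1],[1,0,-1,0,1],[0,1,-1,-2,0,0,0,-1],(⟨0,[(25,0)]⟩,⟨14,[(0,0),(21,0),(5,0),(8,
  14),(0,2),(3,0),(0,3),(0,1)]⟩),(⟨0,[(30,0),(5,0)]⟩,⟨0,[(2,0)]⟩),⟨0,[(10,0)]⟩,.k,.k,(.r (-1) ⟨0,
  [(17,0),(30,1),(0,0)]⟩ ⟨5,[(8,0),(2,2),(1,0),(7,1),(1,1),(10,0)]⟩),(.r (-1) ⟨1,[(48,1),(0,0),(0,
  0)]⟩ ⟨16,[(15,2),(5,7),(0,2),(10,4),(0,4),(7,1)]⟩),(.r (-2) ⟨0,[(0,0),(27,0),(20,0)]⟩ ⟨4,[(8,0),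
  (2,1),(1,0),(1,2),(5,0),(10,0)]⟩),.k,⟨false,1,⟨0,[(48,1),(0,0)]⟩,⟨6,[(8,1),(2,1),(10,1),(23,0),(0,
  0)]⟩⟩,⟨true,0,⟨1,[(3,1),(8,1),(36,0),(0,0)]⟩,⟨1,[(0,0),(7,0),(4,0),(13,0),(4,0)]⟩⟩,⟨false,0,⟨0,
  [(48,0)]⟩,⟨3,[(22,1),(26,0),(0,0)]⟩⟩,⟨true,(-1),⟨0,[(1,0),(10,0)]⟩,⟨1,[(0,0),(26,0),(24,0)]⟩⟩,
  ⟨true,0,⟨0,[(52,0)]⟩,⟨0,[]⟩⟩,⟨false,0,⟨24,[(1,15),(20,5),(5,8),(9,3),(1,3),(3,5),(1,5)]⟩,⟨0,[(0,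
  0)]⟩⟩,[]⟩) (.R ⟨0,false,false,false,[0,-1,1],[0,0,1,0,1],[1,1,1],(⟨0,[(26,0)]⟩,⟨22,[(27,2),(0,2),
  (7,22),(1,4),(4,5),(0,2)]⟩),(⟨0,[(30,0),(6,0)]⟩,⟨2,[(2,1),(7,4),(18,0),(8,0),(4,2)]⟩),⟨2,[(10,0),
  (14,1),(12,0),(4,2)]⟩,.k,.k,(.r (-2) ⟨11,[(23,7),(0,1),(7,3),(9,1),(2,0),(2,31),(0,14)]⟩ ⟨0,[(6,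
  0)]⟩),(.r (-1) ⟨1,[(48,1),(0,0),(0,0)]⟩ ⟨16,[(15,2),(5,7),(0,2),(10,4),(0,4),(7,1)]⟩),.k,.k,
  ⟨false,0,⟨0,[(17,0)]⟩,⟨1,[(4,0),(0,0),(14,0),(11,1),(17,0)]⟩⟩,⟨true,0,⟨1,[(3,1),(8,1),(36,0),(0,
  0)]⟩,⟨0,[(4,0),(8,0),(20,0)]⟩⟩,⟨false,(-1),⟨0,[(8,0),(39,0)]⟩,⟨0,[(4,0),(0,0),(26,0),(15,0),(1,
  0)]⟩⟩,⟨true,(-1),⟨1,[(0,0),(2,0),(8,0)]⟩,⟨0,[(27,0),(20,0)]⟩⟩,⟨false,0,⟨0,[]⟩,⟨0,[]⟩⟩,⟨false,0,⟨0,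
  []⟩,⟨0,[]⟩⟩,[.o ⟨false,0,⟨0,[(3,0),(28,0),(15,0)]⟩,⟨0,[(4,0),(11,0),(3,0)]⟩⟩,.e ⟨false,0,⟨0,[]⟩,
  ⟨1,[(27,0),(0,0),(20,0)]⟩⟩ ⟨false,1,⟨1,[(5,1),(26,1),(16,0),(0,0)]⟩,⟨0,[(4,0),(3,0),(39,1)]⟩⟩,.a
  ⟨true,0,⟨0,[(34,0)]⟩,⟨0,[(31,0)]⟩⟩ ⟨false,0,⟨1,[(34,0),(0,0)]⟩,⟨1,[(49,0),(0,0)]⟩⟩ ⟨true,0,⟨0,[(5,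
  0),(26,0)]⟩,⟨0,[(4,0),(3,0),(39,1)]⟩⟩,.o ⟨false,0,⟨1,[(8,1),(23,1),(12,0),(2,3),(1,0)]⟩,⟨0,[(4,0),
  (0,0)]⟩⟩]⟩)))))))))

theorem ok46 : chk K t46 r32 = true := by decide +kernel

noncomputable def t50 : Tre :=
  (.R ⟨2,true,false,false,[0,1],[1,0,-1],[1,1,1,1],(⟨0,[]⟩,⟨0,[]⟩),(⟨0,[(25,0)]⟩,⟨0,[(26,0)]⟩),⟨0,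
  []⟩,.k,.k,.k,.k,.k,.k,⟨false,0,⟨0,[(3,0)]⟩,⟨3,[(0,3),(10,1),(26,0),(0,0)]⟩⟩,⟨true,(-1),⟨8,[(1,2),
  (0,6),(17,1),(12,1),(1,2),(3,2)]⟩,⟨1,[(23,1),(10,0),(3,0)]⟩⟩,⟨false,0,⟨0,[]⟩,⟨1,[(16,0),(0,0),(21,
  0)]⟩⟩,⟨true,(-1),⟨1,[(0,1),(1,1),(30,0),(1,1),(3,0)]⟩,⟨13,[(11,5),(9,13),(9,1),(2,6),(0,1),(2,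
  0)]⟩⟩,⟨true,0,⟨0,[(36,0)]⟩,⟨0,[(37,0)]⟩⟩,⟨false,0,⟨11,[(0,1),(4,5),(1,3),(5,1),(6,3),(12,2),(5,
  2)]⟩,⟨1,[(21,1),(12,0),(4,0)]⟩⟩,[]⟩)

theorem ok50 : chk K t50 r29 = true := by decide +kernel

noncomputable def t57 : Tre :=
  (.S ⟨1,0,[0,0,0,-1,0,0,0,1],[0,0,1],[1,1,0,0,0,0,0,1],(⟨0,[(22,0)]⟩,⟨0,[(21,0)]⟩),⟨0,[(11,0)]⟩,.k,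
  .k,⟨false,0,⟨0,[]⟩,⟨1,[(12,0),(0,0),(21,0)]⟩⟩,⟨true,0,⟨0,[(33,0)]⟩,⟨0,[(32,0)]⟩⟩,⟨true,0,⟨0,[(32,
  0)]⟩,⟨0,[(33,0)]⟩⟩,⟨false,1,⟨1,[(12,0),(0,0),(21,0)]⟩,⟨0,[]⟩⟩,[.o ⟨false,1,⟨0,[(0,0),(36,0)]⟩,⟨0,
  [(3,0)]⟩⟩,.o ⟨false,1,⟨0,[(0,0)]⟩,⟨0,[(4,0)]⟩⟩,.o ⟨false,1,⟨1,[(19,1),(10,0),(3,0)]⟩,⟨0,[(5,0)]⟩⟩,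
  .a ⟨true,0,⟨0,[(19,0)]⟩,⟨0,[(16,0)]⟩⟩ ⟨true,0,⟨0,[(2,0),(28,0),(1,0)]⟩,⟨0,[(3,0),(15,0),(13,0)]⟩⟩
  ⟨false,1,⟨0,[(0,0),(15,0)]⟩,⟨0,[(3,0),(15,0)]⟩⟩]⟩)

theorem ok57 : chk K t57 l34 = true := by decide +kernel

noncomputable def t58 : Tre :=
  (.Q [0,0,0,0,0,2,0,0,0,0,-1] (.p false [0,0,1] [] (⟨0,[(24,0)]⟩,⟨0,[(23,0)]⟩) .k 0 (⟨0,[]⟩,⟨0,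
  []⟩) .k .k) (.R ⟨0,false,false,false,[0,-1,1],[1,-1],[1],(⟨0,[(14,0)]⟩,⟨4,[(0,1),(14,0),(0,0),(7,
  2),(1,0),(5,0)]⟩),(⟨0,[(28,0)]⟩,⟨0,[(29,0)]⟩),⟨0,[(0,0)]⟩,.k,.k,(.r (-1) ⟨1,[(1,1),(18,1),(12,0),
  (2,1),(0,0)]⟩ ⟨1,[(4,1),(17,2),(0,0)]⟩),.k,.k,.k,⟨true,0,⟨3,[(4,1),(0,1),(16,2),(0,0)]⟩,⟨0,[(36,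
  0)]⟩⟩,⟨false,0,⟨0,[(19,0)]⟩,⟨1,[(22,1),(10,0),(3,0)]⟩⟩,⟨true,0,⟨0,[(6,0),(15,0)]⟩,⟨0,[(5,0),(28,
  0),(1,1)]⟩⟩,⟨false,0,⟨0,[(3,0),(32,0),(1,0)]⟩,⟨1,[(20,1),(12,0),(4,0)]⟩⟩,⟨false,0,⟨0,[]⟩,⟨0,[]⟩⟩,
  ⟨false,0,⟨0,[]⟩,⟨0,[]⟩⟩,[.o ⟨false,0,⟨0,[(36,0)]⟩,⟨13,[(10,5),(19,1),(2,6),(0,1),(2,0)]⟩⟩,.a
  ⟨true,0,⟨1,[(32,0),(3,1),(1,0)]⟩,⟨0,[(35,0)]⟩⟩ ⟨false,1,⟨1,[(37,0),(0,0)]⟩,⟨0,[(40,0)]⟩⟩ ⟨true,0,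
  ⟨0,[(1,0)]⟩,⟨0,[(3,0),(1,0),(16,1),(10,0)]⟩⟩,.a ⟨true,0,⟨0,[(22,0)]⟩,⟨0,[(19,0)]⟩⟩ ⟨true,0,⟨0,[]⟩,
  ⟨0,[(40,0)]⟩⟩ ⟨false,0,⟨0,[(1,0)]⟩,⟨13,[(10,5),(11,13),(7,1),(2,6),(0,1),(2,0)]⟩⟩,.a ⟨true,0,⟨1,
  [(22,2),(0,0)]⟩,⟨0,[(2,0)]⟩⟩ ⟨false,1,⟨1,[(37,0),(0,0)]⟩,⟨1,[(22,0),(0,0)]⟩⟩ ⟨true,0,⟨0,[(2,0),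
  (33,0)]⟩,⟨0,[(3,0),(1,0),(16,1),(10,0)]⟩⟩]⟩) (.I [0,0,0,0,0,0,0,1] (.Q [0,-1,0,1,1,0,0,0,0,-1]
  (.pp true [-1,1]) (.Q [0,0,1,0,-1,0,-1,0,0,1,-1] (.p false [0,0,1] [1] (⟨0,[(27,0)]⟩,⟨0,[(26,
  0)]⟩) .k 1 (⟨0,[]⟩,⟨0,[]⟩) .k .k) (.R ⟨1,false,false,true,[0,0,1],[1,-1],[0,1,0,-1,0,0,0,1],(⟨0,
  [(28,0)]⟩,⟨0,[(27,0)]⟩),(⟨0,[(31,0)]⟩,⟨0,[(32,0)]⟩),⟨0,[(17,0)]⟩,.k,.k,.k,.k,.k,.k,⟨false,0,⟨0,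
  [(2,0)]⟩,⟨0,[(9,0),(15,0),(13,0),(0,0)]⟩⟩,⟨true,(-1),⟨0,[(0,0)]⟩,⟨1,[(25,1),(10,0),(3,0)]⟩⟩,
  ⟨false,0,⟨0,[(39,0)]⟩,⟨3,[(13,1),(26,0),(0,0)]⟩⟩,⟨true,(-1),⟨0,[(6,0),(32,1)]⟩,⟨0,[(1,0),(21,
  0)]⟩⟩,⟨true,0,⟨0,[(43,0)]⟩,⟨0,[]⟩⟩,⟨true,(-1),⟨0,[(6,0),(32,0)]⟩,⟨1,[(23,1),(12,0),(4,0)]⟩⟩,[.o
  ⟨false,0,⟨0,[(39,0),(3,0)]⟩,⟨0,[(1,0)]⟩⟩,.o ⟨false,0,⟨0,[(39,0)]⟩,⟨13,[(13,5),(19,1),(2,6),(0,1),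
  (2,0)]⟩⟩,.o ⟨false,1,⟨1,[(25,1),(10,0),(3,0)]⟩,⟨0,[(11,0)]⟩⟩,.a ⟨true,0,⟨0,[(25,0)]⟩,⟨0,[(22,
  0)]⟩⟩ ⟨true,0,⟨0,[(8,0),(28,0),(1,1)]⟩,⟨0,[(9,0),(15,0)]⟩⟩ ⟨false,0,⟨11,[(4,7),(10,1),(2,0),(0,0),
  (13,3),(1,0),(3,3)]⟩,⟨0,[(1,0),(23,0)]⟩⟩]⟩) (.Q [0,0,2,0,-1,0,-1,0,0,1,-1] (.p false [0,0,1] [1]
  (⟨0,[(28,0)]⟩,⟨0,[(27,0)]⟩) .k 1 (⟨0,[]⟩,⟨0,[]⟩) .k .k) (.R ⟨0,false,false,true,[1,-1,-1],[1,-1],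
  [1,1],(⟨0,[(17,0)]⟩,⟨22,[(19,2),(0,2),(8,22),(0,4),(4,5),(0,2)]⟩),(⟨0,[(32,0)]⟩,⟨0,[(33,0)]⟩),⟨2,
  [(4,1),(24,0),(0,0),(4,2)]⟩,.k,.k,(.r (-1) ⟨3,[(1,5),(3,1),(1,1),(17,1),(10,0),(3,7),(1,0)]⟩ ⟨2,
  [(0,0),(1,0),(5,1),(0,3),(3,0),(12,2)]⟩),.k,.k,.k,⟨true,0,⟨5,[(0,0),(1,0),(5,1),(0,0),(3,0),(12,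
  2)]⟩,⟨0,[(40,0)]⟩⟩,⟨false,1,⟨0,[(26,0),(14,0)]⟩,⟨0,[(12,0)]⟩⟩,⟨false,0,⟨5,[(0,0),(1,0),(5,1),(0,
  6),(3,0),(12,2)]⟩,⟨0,[(1,0),(5,0),(32,1),(1,0)]⟩⟩,⟨true,0,⟨0,[(24,0)]⟩,⟨0,[(10,0),(29,0)]⟩⟩,
  ⟨false,0,⟨0,[]⟩,⟨0,[]⟩⟩,⟨false,0,⟨0,[]⟩,⟨0,[]⟩⟩,[.o ⟨false,0,⟨0,[(40,0),(3,0)]⟩,⟨0,[(2,0)]⟩⟩,.o
  ⟨false,0,⟨0,[(40,0)]⟩,⟨13,[(14,5),(19,1),(2,6),(0,1),(2,0)]⟩⟩,.o ⟨false,0,⟨0,[(27,0)]⟩,⟨0,[(1,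
  0)]⟩⟩,.a ⟨true,(-1),⟨0,[(0,0)]⟩,⟨8,[(1,9),(2,0),(1,0),(10,0),(12,2),(5,3),(4,2)]⟩⟩ ⟨true,0,⟨0,
  [(38,0),(1,0)]⟩,⟨1,[(26,0),(0,0)]⟩⟩ ⟨false,1,⟨1,[(1,1),(34,0),(3,1),(0,0)]⟩,⟨0,[(0,0),(1,0)]⟩⟩]⟩)
  (.Q [0,0,2,0,-1,0,-2,0,0,1,-2] (.p false [0,0,1] [1,0,-1] (⟨0,[(29,0)]⟩,⟨0,[(28,0)]⟩) .k 2 (⟨0,
  [(28,0)]⟩,⟨0,[(29,0)]⟩) .k (.r 0 ⟨0,[(3,1)]⟩ ⟨2,[(0,1),(6,1),(17,3),(0,3),(13,1),(1,2)]⟩)) (.R ⟨0,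
  false,false,true,[1,-1,-1],[0,0,1],[1],(⟨0,[(18,0)]⟩,⟨22,[(20,2),(0,2),(8,22),(0,4),(4,5),(0,
  2)]⟩),(⟨0,[(30,0)]⟩,⟨0,[(29,0)]⟩),⟨2,[(5,1),(24,0),(0,0),(4,2)]⟩,.k,.k,(.r (-1) ⟨1,[(1,1),(24,1),
  (10,0),(3,3),(1,0)]⟩ ⟨3,[(0,0),(2,0),(5,2),(0,5),(3,0),(12,4)]⟩),(.r (-1) ⟨0,[(1,0),(6,0),(17,0),
  (0,0),(13,1),(1,0)]⟩ ⟨7,[(0,0),(2,0),(5,2),(0,17),(3,0),(12,4)]⟩),.k,.k,⟨false,1,⟨2,[(1,1),(6,1),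
  (17,0),(0,0),(13,1),(1,2)]⟩,⟨7,[(0,0),(9,3),(6,0),(7,3),(9,1),(2,0)]⟩⟩,⟨true,1,⟨0,[(1,0),(25,0)]⟩,
  ⟨0,[(0,0)]⟩⟩,⟨true,0,⟨7,[(0,0),(2,0),(5,2),(0,9),(3,0),(12,4)]⟩,⟨2,[(1,1),(6,1),(17,0),(0,0),(13,
  4)]⟩⟩,⟨false,1,⟨2,[(1,1),(1,0),(5,0),(0,5),(14,0),(1,3)]⟩,⟨0,[(8,0),(2,0),(29,2),(1,0)]⟩⟩,⟨false,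
  0,⟨0,[]⟩,⟨0,[]⟩⟩,⟨false,0,⟨0,[]⟩,⟨0,[]⟩⟩,[.a ⟨true,0,⟨0,[(25,0)]⟩,⟨0,[(8,0),(32,0),(1,0)]⟩⟩ ⟨true,
  0,⟨0,[]⟩,⟨1,[(27,0),(0,0)]⟩⟩ ⟨false,1,⟨0,[(1,0),(23,0)]⟩,⟨1,[(0,0),(7,0),(17,0),(14,0),(1,1)]⟩⟩,
  .o ⟨false,1,⟨1,[(25,1),(12,0),(4,0)]⟩,⟨0,[(11,0),(29,0)]⟩⟩,.o ⟨false,0,⟨0,[(28,0)]⟩,⟨0,[(2,0)]⟩⟩,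
  .o ⟨false,0,⟨1,[(27,0),(0,2)]⟩,⟨0,[(1,0)]⟩⟩]⟩) (.Q [0,-1,-2,0,1,0,1,0,-1,0,1,-1] (.p true [0,0,1]
  [0,0,0,0,1] (⟨0,[(30,0)]⟩,⟨0,[(29,0)]⟩) .k 2 (⟨0,[(23,0)]⟩,⟨0,[(22,0)]⟩) .k (.r (-1) ⟨3,[(6,1),(9,
  1),(8,1),(12,0),(4,0)]⟩ ⟨3,[(0,0),(7,0),(17,2),(0,1),(13,0)]⟩)) (.R ⟨0,false,false,true,[1,-1,-1],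
  [1,0,0,0,-1],[1],(⟨0,[(19,0)]⟩,⟨22,[(21,2),(0,2),(8,22),(0,4),(4,5),(0,2)]⟩),(⟨0,[(23,0)]⟩,⟨0,
  [(24,0)]⟩),⟨2,[(6,1),(24,0),(0,0),(4,2)]⟩,.k,.k,(.r (-1) ⟨7,[(1,5),(5,3),(13,0),(0,0),(4,7),(10,
  0),(3,11),(1,1)]⟩ ⟨1,[(10,1),(0,3),(16,2),(0,0)]⟩),(.r 0 ⟨1,[(1,0),(7,0),(17,0),(14,2)]⟩ ⟨0,[(17,
  0)]⟩),.k,.k,⟨true,0,⟨0,[]⟩,⟨1,[(28,0),(0,0)]⟩⟩,⟨false,1,⟨6,[(0,5),(20,0),(6,0),(7,2)]⟩,⟨0,[(22,0),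
  (6,0)]⟩⟩,⟨true,0,⟨3,[(10,1),(0,5),(16,2),(0,0)]⟩,⟨1,[(1,0),(7,0),(17,0),(14,2)]⟩⟩,⟨false,1,⟨3,[(0,
  3),(9,1),(0,5),(16,4),(0,2)]⟩,⟨0,[(12,0),(9,0),(19,1)]⟩⟩,⟨false,0,⟨0,[]⟩,⟨0,[]⟩⟩,⟨false,0,⟨0,[]⟩,
  ⟨0,[]⟩⟩,[.a ⟨true,0,⟨0,[(0,0),(8,0),(1,0),(16,0),(0,0),(12,0)]⟩,⟨0,[(22,0)]⟩⟩ ⟨true,0,⟨0,[]⟩,⟨1,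
  [(28,0),(0,0)]⟩⟩ ⟨false,1,⟨6,[(0,5),(20,0),(6,0),(7,2)]⟩,⟨0,[(22,0),(6,0)]⟩⟩,.e ⟨false,1,⟨1,[(43,
  0),(0,0)]⟩,⟨0,[(46,0)]⟩⟩ ⟨false,1,⟨0,[(0,0)]⟩,⟨0,[(22,0),(6,0),(16,0)]⟩⟩,.o ⟨false,0,⟨0,[(29,0)]⟩,
  ⟨0,[(3,0)]⟩⟩,.o ⟨false,0,⟨1,[(28,0),(0,2)]⟩,⟨0,[(2,0)]⟩⟩]⟩) (.Q [0,-1,0,1,1,0,1,1,-1,0,1,-1] (.p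
  true [0,0,1] [0,0,0,0,1] (⟨0,[(31,0)]⟩,⟨0,[(30,0)]⟩) .k 2 (⟨0,[(24,0)]⟩,⟨0,[(23,0)]⟩) .k (.r (-1)
  ⟨3,[(7,1),(9,1),(8,1),(12,0),(4,0)]⟩ ⟨3,[(1,0),(7,0),(17,2),(0,1),(13,0)]⟩)) (.R ⟨0,false,false,
  true,[1,-1,-1],[1,0,0,0,-1],[1],(⟨0,[(20,0)]⟩,⟨22,[(22,2),(0,2),(8,22),(0,4),(4,5),(0,2)]⟩),(⟨0,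
  [(24,0)]⟩,⟨0,[(25,0)]⟩),⟨2,[(7,1),(24,0),(0,0),(4,2)]⟩,.k,.k,(.r (-1) ⟨7,[(2,5),(5,3),(13,0),(0,
  0),(4,7),(10,0),(3,11),(1,1)]⟩ ⟨2,[(0,1),(0,1),(9,1),(0,2),(16,1)]⟩),(.r 0 ⟨1,[(2,0),(7,0),(17,0),
  (14,2)]⟩ ⟨0,[(18,0)]⟩),.k,.k,⟨true,0,⟨0,[]⟩,⟨1,[(29,0),(0,0)]⟩⟩,⟨false,1,⟨0,[(0,0),(2,0),(6,0),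
  (32,1)]⟩,⟨7,[(1,3),(17,1),(2,0),(0,4),(16,0),(4,1)]⟩⟩,⟨true,0,⟨2,[(0,0),(0,0),(9,0),(0,2),(16,
  0)]⟩,⟨1,[(2,0),(7,0),(17,0),(14,2)]⟩⟩,⟨false,1,⟨0,[(0,0)]⟩,⟨0,[(13,0),(9,0),(19,1)]⟩⟩,⟨false,0,⟨0,
  []⟩,⟨0,[]⟩⟩,⟨false,0,⟨0,[]⟩,⟨0,[]⟩⟩,[.a ⟨true,0,⟨0,[(0,0),(9,0),(32,1)]⟩,⟨0,[(23,0)]⟩⟩ ⟨true,0,⟨0,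
  []⟩,⟨1,[(29,0),(0,0)]⟩⟩ ⟨false,1,⟨0,[(0,0),(2,0),(6,0),(32,1)]⟩,⟨7,[(1,3),(17,1),(2,0),(0,4),(16,
  0),(4,1)]⟩⟩,.o ⟨false,1,⟨0,[(0,0),(12,0),(29,1)]⟩,⟨0,[(1,0),(1,0)]⟩⟩,.o ⟨false,0,⟨0,[(30,0)]⟩,⟨0,
  [(4,0)]⟩⟩,.o ⟨false,0,⟨1,[(29,0),(0,2)]⟩,⟨0,[(3,0)]⟩⟩]⟩) (.Q [0,-1,0,1,0,0,0,0,1,0,0,1] (.p true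
  [0,0,0,0,1] [] (⟨0,[(25,0)]⟩,⟨0,[(24,0)]⟩) .k 0 (⟨0,[]⟩,⟨0,[]⟩) .k .k) (.Q [0,0,0,0,0,0,0,0,0,0,1,
  -1] (.ed true [1,0,-1,0,1] (.r 0 ⟨3,[(1,0),(1,0),(7,0),(11,0),(5,1),(0,1)]⟩ ⟨3,[(9,1),(9,1),(8,1),
  (12,0),(4,0)]⟩)) (.Q [0,2,0,1,-1,0,0,0,1,-1,0,1] (.p true [0,0,0,0,1] [1] (⟨0,[(27,0)]⟩,⟨0,[(26,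
  0)]⟩) .k 1 (⟨0,[]⟩,⟨0,[]⟩) .k .k) (.Q [0,0,-1,0,0,0,0,0,1,-1,0,1] (.p true [0,0,0,0,1] [1] (⟨0,
  [(28,0)]⟩,⟨0,[(27,0)]⟩) .k 1 (⟨0,[]⟩,⟨0,[]⟩) .k .k) (.S ⟨1,0,[0,-1,0,-1],[1,0,0,0,-1],[1],(⟨0,
  [(28,0)]⟩,⟨0,[(29,0)]⟩),⟨0,[(2,0),(21,0)]⟩,.k,(.r (-1) ⟨1,[(47,1),(0,0),(0,0)]⟩ ⟨1,[(18,0),(1,0),
  (12,0)]⟩),⟨false,0,⟨0,[]⟩,⟨1,[(26,0),(0,0),(21,0)]⟩⟩,⟨true,0,⟨0,[(47,0)]⟩,⟨0,[(46,0)]⟩⟩,⟨true,0,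
  ⟨0,[(46,0)]⟩,⟨0,[(47,0)]⟩⟩,⟨false,1,⟨1,[(26,0),(0,0),(21,0)]⟩,⟨0,[]⟩⟩,[.a ⟨true,1,⟨1,[(26,1),(16,
  0),(3,1),(1,0)]⟩,⟨5,[(0,2),(0,1),(1,0),(6,2),(3,2),(18,2),(9,0)]⟩⟩ ⟨true,0,⟨0,[]⟩,⟨1,[(33,0),(0,
  0)]⟩⟩ ⟨false,1,⟨1,[(47,1),(0,0),(0,0)]⟩,⟨0,[(46,0)]⟩⟩,.o ⟨false,2,⟨0,[(26,0),(20,0),(1,0)]⟩,⟨0,
  [(1,0)]⟩⟩,.o ⟨false,1,⟨0,[(26,0)]⟩,⟨7,[(0,5),(4,1),(27,1),(10,0),(4,0)]⟩⟩,.o ⟨false,1,⟨1,[(26,1),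
  (6,0),(0,0)]⟩,⟨0,[(0,0)]⟩⟩]⟩) (.R ⟨0,false,false,true,[1,-1,-1],[0,0,1,0,-1],[1,0,0,0,0,0,0,1],
  (⟨0,[(24,0)]⟩,⟨22,[(26,2),(0,2),(8,22),(0,4),(4,5),(0,2)]⟩),(⟨0,[(2,0)]⟩,⟨0,[(29,0),(5,0)]⟩),⟨2,
  [(11,1),(24,0),(0,0),(4,2)]⟩,.k,.k,(.r (-1) ⟨7,[(4,7),(1,5),(5,3),(13,8),(0,0),(15,0),(3,3),(1,
  1)]⟩ ⟨6,[(0,1),(4,1),(3,1),(5,5),(0,12),(16,7)]⟩),(.r 0 ⟨0,[(0,0),(3,0),(1,0),(10,0),(29,0)]⟩ ⟨0,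
  [(16,0),(5,0)]⟩),.k,.k,⟨true,0,⟨0,[]⟩,⟨1,[(33,0),(0,0)]⟩⟩,⟨false,2,⟨0,[(6,0),(19,0)]⟩,⟨8,[(3,0),
  (1,7),(4,2),(1,6),(2,2),(27,0)]⟩⟩,⟨true,0,⟨6,[(0,0),(4,0),(3,0),(5,2),(0,16),(16,3)]⟩,⟨0,[(0,0),
  (3,0),(1,0),(10,0),(29,0)]⟩⟩,⟨false,2,⟨4,[(0,4),(5,3),(2,3),(6,8),(5,0),(10,1),(10,0)]⟩,⟨0,[(4,0),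
  (9,0),(32,0),(1,0)]⟩⟩,⟨false,0,⟨0,[]⟩,⟨0,[]⟩⟩,⟨false,0,⟨0,[]⟩,⟨0,[]⟩⟩,[.a ⟨true,1,⟨5,[(0,3),(5,1),
  (9,3),(9,1),(4,1),(12,0),(4,0)]⟩,⟨3,[(3,1),(0,1),(9,1),(28,0),(3,1),(1,0)]⟩⟩ ⟨true,0,⟨0,[(16,0)]⟩,
  ⟨0,[(17,0),(15,0),(13,0)]⟩⟩ ⟨false,2,⟨0,[(6,0),(9,0),(9,0)]⟩,⟨2,[(4,0),(0,1),(6,0),(1,1),(34,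
  1)]⟩⟩,.o ⟨false,2,⟨2,[(0,1),(5,0),(9,1),(9,0),(4,0),(12,1),(4,1)]⟩,⟨6,[(1,0),(1,0),(0,4),(9,0),(0,
  0)]⟩⟩,.o ⟨false,0,⟨0,[(34,0)]⟩,⟨0,[(8,0)]⟩⟩,.o ⟨false,0,⟨1,[(33,0),(0,2)]⟩,⟨0,[(7,0)]⟩⟩]⟩)) (.Q
  [0,0,0,0,0,0,0,0,1,-1,0,1] (.p true [0,0,0,0,1] [1] (⟨0,[(28,0)]⟩,⟨0,[(27,0)]⟩) .k 1 (⟨0,[]⟩,⟨0,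
  []⟩) .k .k) (.R ⟨0,false,false,true,[1,-1,-1],[0,0,1,0,-1],[1,0,0,0,0,0,0,1],(⟨0,[(24,0)]⟩,⟨237,
  [(1,13),(3,2),(15,6),(5,10),(5,2),(2,237),(3,87),(0,15),(0,49),(0,17)]⟩),(⟨0,[(2,0)]⟩,⟨0,[(29,0),
  (5,0)]⟩),⟨2,[(11,1),(24,0),(0,0),(4,2)]⟩,.k,.k,(.r (-1) ⟨3,[(1,3),(2,3),(1,1),(34,1),(2,0),(3,
  0)]⟩ ⟨1,[(15,1),(0,3),(16,2),(0,0)]⟩),(.r 0 ⟨3,[(1,1),(2,2),(1,2),(7,4),(11,0),(6,1),(10,1),(2,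
  3)]⟩ ⟨0,[(16,0),(5,0)]⟩),.k,.k,⟨true,0,⟨0,[]⟩,⟨1,[(33,0),(0,0)]⟩⟩,⟨false,2,⟨0,[(6,0),(19,0)]⟩,⟨8,
  [(3,0),(1,7),(4,2),(1,6),(2,2),(27,0)]⟩⟩,⟨true,0,⟨3,[(15,1),(0,9),(16,2),(0,0)]⟩,⟨3,[(1,1),(2,2),
  (1,2),(7,4),(11,0),(6,1),(10,1),(2,3)]⟩⟩,⟨false,2,⟨4,[(1,3),(4,3),(7,2),(0,2),(0,15),(9,0),(6,7),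
  (10,3)]⟩,⟨2,[(1,0),(2,3),(9,1),(34,1)]⟩⟩,⟨false,0,⟨0,[]⟩,⟨0,[]⟩⟩,⟨false,0,⟨0,[]⟩,⟨0,[]⟩⟩,[.a
  ⟨true,1,⟨1,[(1,0),(4,0),(7,1),(1,3),(9,0),(6,1),(10,0),(2,0)]⟩,⟨3,[(3,1),(0,1),(9,1),(28,0),(3,1),
  (1,0)]⟩⟩ ⟨true,0,⟨0,[(16,0)]⟩,⟨2,[(1,0),(2,0),(9,0),(2,0),(15,2),(10,0)]⟩⟩ ⟨false,2,⟨0,[(6,0),(9,
  0),(9,0)]⟩,⟨2,[(4,0),(0,1),(6,0),(1,1),(34,1)]⟩⟩,.o ⟨false,2,⟨4,[(1,1),(4,0),(2,1),(6,3),(9,2),(4,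
  0),(1,1),(10,1)]⟩,⟨1,[(0,0),(3,0),(9,0)]⟩⟩,.o ⟨false,0,⟨0,[(34,0)]⟩,⟨0,[(8,0)]⟩⟩,.o ⟨false,0,⟨1,
  [(33,0),(0,2)]⟩,⟨0,[(7,0)]⟩⟩]⟩) (.R ⟨0,false,false,false,[1,-1,-1],[0,0,0,0,1],[1,1],(⟨0,[(24,
  0)]⟩,⟨237,[(1,13),(3,2),(15,6),(5,10),(5,2),(2,237),(3,87),(0,15),(0,49),(0,17)]⟩),(⟨0,[(29,0)]⟩,
  ⟨0,[(28,0)]⟩),⟨2,[(11,1),(24,0),(0,0),(4,2)]⟩,.k,.k,(.r (-1) ⟨3,[(1,3),(2,3),(1,1),(34,1),(2,0),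
  (3,0)]⟩ ⟨1,[(15,1),(0,3),(16,2),(0,0)]⟩),(.r (-1) ⟨1,[(1,0),(2,0),(1,0),(25,0),(16,0)]⟩ ⟨0,[(20,
  0)]⟩),.k,.k,⟨true,0,⟨0,[]⟩,⟨1,[(33,0),(0,0)]⟩⟩,⟨false,1,⟨0,[(7,0),(19,0)]⟩,⟨0,[(0,0),(33,0)]⟩⟩,
  ⟨false,0,⟨3,[(15,1),(0,5),(16,2),(0,0)]⟩,⟨1,[(1,0),(2,0),(1,0),(25,0),(16,0)]⟩⟩,⟨true,0,⟨4,[(3,1),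
  (1,2),(0,3),(7,2),(1,6),(14,0),(1,1),(10,1)]⟩,⟨4,[(0,6),(0,1),(2,3),(12,0),(26,1)]⟩⟩,⟨false,0,⟨0,
  []⟩,⟨0,[]⟩⟩,⟨false,0,⟨0,[]⟩,⟨0,[]⟩⟩,[.o ⟨false,0,⟨8,[(3,2),(0,2),(0,1),(0,0),(20,0),(3,2),(9,1),
  (2,3)]⟩,⟨2,[(0,1),(0,0),(7,0),(34,0)]⟩⟩,.a ⟨true,0,⟨0,[(27,0)]⟩,⟨0,[(0,0)]⟩⟩ ⟨true,0,⟨0,[]⟩,⟨1,
  [(33,0),(0,0)]⟩⟩ ⟨false,1,⟨0,[(7,0),(19,0)]⟩,⟨0,[(0,0),(33,0)]⟩⟩,.o ⟨false,0,⟨0,[(34,0)]⟩,⟨0,[(8,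
  0)]⟩⟩,.o ⟨false,0,⟨1,[(33,0),(0,2)]⟩,⟨0,[(7,0)]⟩⟩]⟩))) (.Q [0,1,0,1,0,0,2,2,1,-2,2,1] (.p true [0,
  0,1] [2,0,-1,0,-1] (⟨0,[(34,0)]⟩,⟨0,[(33,0)]⟩) .k 2 (⟨0,[(26,0),(6,0)]⟩,⟨2,[(0,1),(8,4),(17,0),(7,
  0),(4,2)]⟩) .k (.r 0 ⟨2,[(14,4),(14,0),(2,0),(6,0)]⟩ ⟨1,[(2,0),(1,0),(7,0),(2,1),(8,0),(6,1),(13,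
  1),(1,1)]⟩)) (.R ⟨0,false,false,false,[1,-1,-1],[-1,0,1,0,1],[1,1,0,0,0,0,0,1],(⟨0,[(23,0)]⟩,⟨22,
  [(25,2),(0,2),(8,22),(0,4),(4,5),(0,2)]⟩),(⟨2,[(1,1),(8,4),(17,0),(7,0),(4,2)]⟩,⟨0,[(27,0),(6,
  0)]⟩),⟨2,[(10,1),(24,0),(0,0),(4,2)]⟩,.k,.k,(.r (-1) ⟨7,[(3,7),(1,5),(5,3),(13,8),(0,0),(15,0),(3,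
  3),(1,1)]⟩ ⟨1,[(14,1),(0,3),(16,2),(0,0)]⟩),(.r (-1) ⟨3,[(3,0),(1,2),(7,2),(2,3),(8,0),(6,1),(13,
  9),(1,3)]⟩ ⟨0,[(15,0),(3,0)]⟩),.k,.k,⟨true,0,⟨0,[]⟩,⟨1,[(32,0),(0,0)]⟩⟩,⟨false,1,⟨3,[(0,0),(1,0),
  (0,1),(1,3),(37,0),(4,0)]⟩,⟨1,[(9,0),(1,0),(1,0),(11,1),(7,1),(8,0),(6,0)]⟩⟩,⟨false,0,⟨3,[(14,1),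
  (0,9),(16,2),(0,0)]⟩,⟨3,[(3,0),(1,2),(7,2),(2,3),(8,0),(6,1),(13,9),(1,3)]⟩⟩,⟨true,0,⟨0,[(0,0)]⟩,
  ⟨0,[(13,1),(11,0),(20,2),(1,0)]⟩⟩,⟨false,0,⟨0,[]⟩,⟨0,[]⟩⟩,⟨false,0,⟨0,[]⟩,⟨0,[]⟩⟩,[.o ⟨false,0,⟨2,
  [(0,1),(2,0),(39,0),(2,0)]⟩,⟨0,[(13,0),(11,0),(20,0),(1,0)]⟩⟩,.a ⟨true,0,⟨5,[(0,3),(2,1),(38,0),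
  (3,1),(1,2)]⟩,⟨1,[(13,1),(11,1),(16,0),(3,1),(1,0)]⟩⟩ ⟨true,0,⟨0,[(15,0)]⟩,⟨0,[(16,0),(15,0),(13,
  0)]⟩⟩ ⟨false,1,⟨4,[(0,2),(2,0),(1,2),(0,0),(4,1),(14,0),(16,0),(4,0)]⟩,⟨1,[(13,1),(11,1),(7,1),(8,
  0),(3,1),(1,0)]⟩⟩,.o ⟨false,0,⟨0,[(33,0)]⟩,⟨0,[(7,0)]⟩⟩,.o ⟨false,0,⟨1,[(32,0),(0,2)]⟩,⟨0,[(6,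
  0)]⟩⟩]⟩) (.Q [0,1,0,-1,-1,0,0,0,1,0,0,1] (.p true [0,0,0,0,1] [] (⟨0,[(28,0)]⟩,⟨0,[(27,0)]⟩) .k 0
  (⟨0,[]⟩,⟨0,[]⟩) .k .k) (.S ⟨1,0,[0,2,0,-1],[0,0,0,0,1],[1,1],(⟨0,[(29,0)]⟩,⟨0,[(28,0)]⟩),⟨1,[(2,
  0),(8,0),(17,0)]⟩,.k,(.r 0 ⟨2,[(7,0),(6,0),(1,0),(24,0),(5,3)]⟩ ⟨5,[(5,0),(15,2),(4,1),(0,0),(5,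
  0),(15,1)]⟩),⟨true,0,⟨0,[]⟩,⟨6,[(5,0),(20,0),(6,0),(7,2)]⟩⟩,⟨false,0,⟨0,[(47,0)]⟩,⟨3,[(21,1),(26,
  0),(0,0)]⟩⟩,⟨false,1,⟨3,[(21,1),(26,0),(0,0)]⟩,⟨0,[(47,0)]⟩⟩,⟨true,0,⟨6,[(5,0),(20,0),(6,0),(7,
  2)]⟩,⟨0,[]⟩⟩,[.e ⟨false,0,⟨2,[(7,0),(6,0),(1,0),(24,0),(5,0)]⟩,⟨1,[(26,0),(0,0),(21,0)]⟩⟩ ⟨false,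
  0,⟨0,[(41,0),(5,0)]⟩,⟨1,[(9,1),(33,0),(5,0)]⟩⟩,.a ⟨true,(-1),⟨0,[(0,0)]⟩,⟨10,[(1,2),(4,2),(2,1),
  (0,11),(4,5),(10,7),(6,5),(9,4),(5,2)]⟩⟩ ⟨true,0,⟨0,[]⟩,⟨1,[(33,0),(0,0)]⟩⟩ ⟨false,0,⟨2,[(7,0),(6,
  0),(1,0),(24,0),(5,3)]⟩,⟨3,[(21,1),(26,0),(0,0)]⟩⟩,.o ⟨false,0,⟨1,[(0,0),(2,0),(40,0)]⟩,⟨0,[(26,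
  0)]⟩⟩,.o ⟨false,0,⟨5,[(0,1),(2,1),(1,1),(27,1),(10,2),(4,0)]⟩,⟨0,[(1,0),(4,0),(7,0),(1,2),(16,0),
  (10,0)]⟩⟩]⟩) (.Q [0,0,0,0,0,1,0,0,0,-1,0,1] (.ed false [0,1,0,0,1] .k) (.R ⟨0,false,false,true,[1,
  0,0,0,-1],[1,-1],[0,1,0,-1],(⟨0,[(29,0)]⟩,⟨0,[(30,0)]⟩),(⟨0,[(40,0)]⟩,⟨0,[(41,0)]⟩),⟨0,[(0,0)]⟩,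
  .k,.k,(.r (-1) ⟨1,[(48,1),(0,0),(0,0)]⟩ ⟨1,[(19,0),(1,0),(12,0)]⟩),(.r (-1) ⟨5,[(6,0),(15,2),(4,
  1),(0,0),(5,0),(15,1)]⟩ ⟨2,[(8,0),(6,0),(1,0),(24,0),(5,3)]⟩),.k,.k,⟨true,0,⟨1,[(34,0),(0,0)]⟩,⟨0,
  []⟩⟩,⟨false,0,⟨0,[(28,0)]⟩,⟨1,[(1,0),(6,0),(6,0),(1,0),(9,0),(20,1)]⟩⟩,⟨false,0,⟨6,[(6,0),(20,0),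
  (6,0),(7,2),(5,6)]⟩,⟨1,[(1,0),(2,0),(45,0)]⟩⟩,⟨true,(-1),⟨0,[(5,0),(26,0)]⟩,⟨0,[(1,0)]⟩⟩,⟨false,0,
  ⟨0,[]⟩,⟨0,[]⟩⟩,⟨false,0,⟨0,[]⟩,⟨0,[]⟩⟩,[.o ⟨false,0,⟨6,[(6,0),(20,0),(6,0),(7,2),(5,6)]⟩,⟨0,[(10,
  0)]⟩⟩,.o ⟨false,0,⟨0,[(48,0)]⟩,⟨13,[(22,5),(19,1),(2,6),(0,1),(2,0)]⟩⟩,.e ⟨false,0,⟨0,[(48,0)]⟩,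
  ⟨3,[(22,1),(26,0),(0,0)]⟩⟩ ⟨false,0,⟨0,[(28,0),(19,0)]⟩,⟨0,[(1,0)]⟩⟩,.a ⟨true,0,⟨0,[(1,0),(13,0),
  (1,0),(16,0),(13,1)]⟩,⟨3,[(4,0),(0,0),(1,0),(6,0),(2,0),(10,1)]⟩⟩ ⟨true,0,⟨2,[(8,0),(6,0),(1,0),
  (24,0),(5,3)]⟩,⟨4,[(1,0),(4,0),(9,1),(0,1),(16,2)]⟩⟩ ⟨false,0,⟨2,[(5,0),(1,0),(5,0),(3,0),(10,1),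
  (19,0)]⟩,⟨1,[(1,1),(32,0),(0,0)]⟩⟩]⟩) (.R ⟨0,false,false,false,[1,-1,0,0,-1],[0,-1,1],[1],(⟨0,[(0,
  0)]⟩,⟨99,[(2,3),(20,3),(4,3),(1,99),(1,3),(1,3),(6,33),(0,1),(0,21),(0,6),(4,2)]⟩),(⟨0,[(26,0)]⟩,
  ⟨99,[(2,3),(20,3),(4,3),(3,3),(1,3),(1,99),(4,33),(0,1),(0,21),(0,6),(4,2)]⟩),⟨2,[(3,1),(8,1),(17,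
  0),(7,0),(4,2)]⟩,(.r (-1) ⟨1,[(48,1),(0,0),(0,0)]⟩ ⟨1,[(19,0),(1,0),(12,0)]⟩),.k,(.r (-1) ⟨5,[(7,
  1),(5,3),(31,0),(2,7),(0,1),(0,0)]⟩ ⟨9,[(6,1),(9,5),(2,0),(1,6),(5,1),(6,8)]⟩),.k,.k,.k,⟨true,0,
  ⟨0,[(18,0),(15,0)]⟩,⟨0,[(17,0),(30,0)]⟩⟩,⟨false,1,⟨0,[(9,0),(18,0)]⟩,⟨0,[(1,0),(13,0),(1,0),(30,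
  1)]⟩⟩,⟨false,0,⟨4,[(1,0),(4,0),(9,1),(0,1),(16,2)]⟩,⟨1,[(48,1),(0,0),(0,0)]⟩⟩,⟨true,0,⟨0,[(6,0),
  (0,0),(9,0)]⟩,⟨0,[(1,0),(13,0),(32,1)]⟩⟩,⟨false,0,⟨0,[]⟩,⟨0,[]⟩⟩,⟨false,0,⟨0,[]⟩,⟨0,[]⟩⟩,[.o
  ⟨false,1,⟨1,[(32,1),(12,0),(2,1),(1,0)]⟩,⟨0,[(18,0)]⟩⟩,.e ⟨false,1,⟨1,[(49,0),(0,0)]⟩,⟨6,[(6,0),
  (20,0),(6,0),(7,2)]⟩⟩ ⟨false,1,⟨0,[(5,0),(1,0),(9,1),(32,0)]⟩,⟨1,[(15,1),(11,1),(6,0),(0,0)]⟩⟩,.a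
  ⟨true,0,⟨0,[(1,0),(13,0),(1,0),(16,0),(13,1)]⟩,⟨3,[(4,0),(0,0),(1,0),(6,0),(2,0),(10,1)]⟩⟩ ⟨true,
  0,⟨0,[]⟩,⟨6,[(6,0),(20,0),(6,0),(7,2)]⟩⟩ ⟨false,1,⟨3,[(4,1),(2,1),(9,3),(10,1),(16,0),(2,5),(1,
  0)]⟩,⟨1,[(1,1),(13,1),(18,0),(0,0),(12,1)]⟩⟩,.e ⟨false,1,⟨1,[(49,0),(0,0)]⟩,⟨1,[(34,0),(0,0)]⟩⟩
  ⟨false,1,⟨0,[(5,0),(1,0),(9,1),(32,0)]⟩,⟨0,[(1,0),(13,0),(18,0),(0,0),(12,0)]⟩⟩]⟩))))) (.Q [0,-2,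
  0,0,1,0,0,0,-1,1,0,-1] (.p false [0,0,0,0,1] [1] (⟨0,[(26,0)]⟩,⟨0,[(25,0)]⟩) .k 1 (⟨0,[]⟩,⟨0,[]⟩)
  .k .k) (.I [0,2,1,0,-1] (.R ⟨0,false,false,true,[1,-1,-1],[0,0,0,0,1],[1],(⟨0,[(23,0)]⟩,⟨22,[(25,
  2),(0,2),(8,22),(0,4),(4,5),(0,2)]⟩),(⟨0,[(28,0)]⟩,⟨0,[(27,0)]⟩),⟨2,[(10,1),(24,0),(0,0),(4,2)]⟩,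
  .k,.k,(.r (-1) ⟨1,[(1,0),(1,1),(1,0),(19,0),(20,1),(0,0)]⟩ ⟨6,[(0,1),(0,1),(2,1),(3,1),(5,5),(0,
  12),(16,7)]⟩),(.r (-1) ⟨1,[(1,0),(1,1),(1,0),(19,0),(22,0)]⟩ ⟨0,[(19,0)]⟩),.k,.k,⟨true,1,⟨0,[(48,
  0)]⟩,⟨0,[(0,0)]⟩⟩,⟨false,1,⟨0,[(6,0),(19,0)]⟩,⟨2,[(0,0),(0,1),(0,0),(10,0),(1,0),(17,1)]⟩⟩,⟨true,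
  0,⟨6,[(0,0),(0,0),(2,0),(3,0),(5,2),(0,9),(16,3)]⟩,⟨130,[(1,41),(0,47),(0,89),(1,60),(7,6),(17,
  33),(0,8),(7,17),(1,5)]⟩⟩,⟨false,0,⟨2,[(3,0),(0,1),(0,2),(8,1),(0,5),(16,1)]⟩,⟨6,[(1,10),(0,1),(0,
  5),(12,0),(26,1)]⟩⟩,⟨false,0,⟨0,[]⟩,⟨0,[]⟩⟩,⟨false,0,⟨0,[]⟩,⟨0,[]⟩⟩,[.a ⟨true,(-1),⟨8,[(0,1),(2,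
  3),(0,4),(0,3),(9,2),(14,0),(11,1),(1,3)]⟩,⟨0,[(1,0)]⟩⟩ ⟨true,0,⟨0,[]⟩,⟨1,[(32,0),(0,0)]⟩⟩ ⟨false,
  0,⟨2,[(3,1),(0,0),(0,1),(0,0),(8,0),(14,0),(13,1)]⟩,⟨0,[(1,0),(31,0)]⟩⟩,.o ⟨false,0,⟨0,[(4,0),(1,
  0)]⟩,⟨1,[(1,0),(0,0),(5,0)]⟩⟩,.o ⟨false,0,⟨0,[(33,0)]⟩,⟨0,[(7,0)]⟩⟩,.o ⟨false,0,⟨1,[(32,0),(0,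
  2)]⟩,⟨0,[(6,0)]⟩⟩]⟩) (.R ⟨0,false,false,false,[1,-1,-1],[0,0,0,0,1],[1,1],(⟨0,[(23,0)]⟩,⟨22,[(25,
  2),(0,2),(8,22),(0,4),(4,5),(0,2)]⟩),(⟨0,[(28,0)]⟩,⟨0,[(27,0)]⟩),⟨2,[(10,1),(24,0),(0,0),(4,2)]⟩,
  .k,.k,(.r (-1) ⟨1,[(1,0),(1,1),(1,0),(19,0),(20,1),(0,0)]⟩ ⟨1,[(14,1),(0,3),(16,2),(0,0)]⟩),(.r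
  (-1) ⟨1,[(1,0),(1,1),(1,0),(19,0),(22,0)]⟩ ⟨0,[(19,0)]⟩),.k,.k,⟨true,0,⟨0,[]⟩,⟨1,[(32,0),(0,0)]⟩⟩,
  ⟨false,1,⟨0,[(6,0),(19,0)]⟩,⟨3,[(1,1),(0,1),(10,1),(1,1),(16,0),(0,2)]⟩⟩,⟨false,0,⟨3,[(14,1),(0,
  5),(16,2),(0,0)]⟩,⟨1,[(1,0),(1,1),(1,0),(19,0),(22,0)]⟩⟩,⟨true,0,⟨2,[(3,0),(0,1),(0,2),(8,1),(0,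
  5),(16,1)]⟩,⟨4,[(1,3),(0,3),(0,2),(9,0),(2,0)]⟩⟩,⟨false,0,⟨0,[]⟩,⟨0,[]⟩⟩,⟨false,0,⟨0,[]⟩,⟨0,[]⟩⟩,
  [.o ⟨false,0,⟨0,[(4,0),(1,0)]⟩,⟨1,[(1,0),(0,0),(5,0)]⟩⟩,.a ⟨true,0,⟨0,[(26,0)]⟩,⟨3,[(0,2),(1,3),
  (6,2),(3,1),(0,0),(17,2),(9,0)]⟩⟩ ⟨true,0,⟨0,[]⟩,⟨1,[(32,0),(0,0)]⟩⟩ ⟨false,1,⟨0,[(6,0),(19,0)]⟩,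
  ⟨3,[(1,1),(0,1),(10,1),(1,1),(16,0),(0,2)]⟩⟩,.o ⟨false,0,⟨0,[(33,0)]⟩,⟨0,[(7,0)]⟩⟩,.o ⟨false,0,⟨1,
  [(32,0),(0,2)]⟩,⟨0,[(6,0)]⟩⟩]⟩)) (.R ⟨2,true,false,false,[0,1],[1,0,0,0,-1],[1,0,1,1],(⟨0,[]⟩,⟨0,
  []⟩),(⟨0,[(26,0)]⟩,⟨0,[(27,0)]⟩),⟨0,[]⟩,.k,.k,.k,(.r 0 ⟨1,[(16,0),(1,0),(12,0)]⟩ ⟨1,[(45,1),(0,0),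
  (0,0)]⟩),.k,.k,⟨false,0,⟨0,[(44,0)]⟩,⟨1,[(45,1),(0,0),(0,0)]⟩⟩,⟨true,0,⟨1,[(1,1),(11,0),(0,0),(16,
  0),(9,0),(5,0),(0,0)]⟩,⟨0,[(0,0),(46,0)]⟩⟩,⟨true,0,⟨0,[]⟩,⟨6,[(3,0),(20,0),(6,0),(7,2)]⟩⟩,⟨false,
  1,⟨1,[(1,1),(39,0),(5,2)]⟩,⟨4,[(0,3),(6,0),(11,1),(5,0),(20,0)]⟩⟩,⟨false,1,⟨3,[(19,1),(26,0),(0,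
  0)]⟩,⟨0,[(45,0)]⟩⟩,⟨true,1,⟨79,[(1,7),(2,0),(3,3),(0,6),(3,3),(8,6),(1,71),(6,1),(3,20),(5,36),(5,
  43)]⟩,⟨0,[(0,0)]⟩⟩,[]⟩)))))))) (.Q [0,0,1,0,-1,0,-1,0,0,1,-1] (.p false [0,0,1] [1] (⟨0,[(27,0)]⟩,
  ⟨0,[(26,0)]⟩) .k 1 (⟨0,[]⟩,⟨0,[]⟩) .k .k) (.I [1,-1,-1,0,1,0,0,-1] (.Q [0,-1,-2,0,2,0,1,1,0,-1,1]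
  (.p true [0,0,1] [1] (⟨0,[(29,0)]⟩,⟨0,[(28,0)]⟩) .k 1 (⟨0,[]⟩,⟨0,[]⟩) .k .k) (.Q [0,-1,1,1,0,0,-1,
  0,0,0,-1] (.p false [0,0,1] [] (⟨0,[(30,0)]⟩,⟨0,[(29,0)]⟩) .k 0 (⟨0,[]⟩,⟨0,[]⟩) .k .k) (.R ⟨1,
  false,false,true,[1,0,-1],[1,-1],[1,0,0,0,0,0,0,-1],(⟨0,[(30,0)]⟩,⟨0,[(31,0)]⟩),(⟨0,[(34,0)]⟩,⟨0,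
  [(35,0)]⟩),⟨0,[(19,0)]⟩,.k,.k,.k,.k,.k,.k,⟨false,1,⟨2,[(2,1),(9,0),(3,0),(11,0)]⟩,⟨8,[(1,1),(2,7),
  (2,0),(0,0),(2,6),(24,1),(2,3)]⟩⟩,⟨true,0,⟨0,[(28,0)]⟩,⟨0,[(14,0)]⟩⟩,⟨true,0,⟨0,[]⟩,⟨0,[(46,0)]⟩⟩,
  ⟨true,0,⟨0,[(26,0),(15,0)]⟩,⟨0,[(12,0)]⟩⟩,⟨false,1,⟨6,[(1,0),(0,0),(4,0),(8,3)]⟩,⟨0,[(42,0)]⟩⟩,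
  ⟨true,0,⟨0,[(26,0)]⟩,⟨0,[(12,0),(29,0)]⟩⟩,[.a ⟨true,(-1),⟨0,[(4,0)]⟩,⟨6,[(1,0),(0,0),(4,0),(8,
  3)]⟩⟩ ⟨false,1,⟨5,[(2,4),(18,0),(0,0),(4,0),(0,0),(7,1)]⟩,⟨0,[(5,0)]⟩⟩ ⟨true,0,⟨4,[(1,0),(0,0),(1,
  4),(23,3),(7,0),(2,1)]⟩,⟨0,[(0,0)]⟩⟩,.o ⟨false,0,⟨0,[(42,0)]⟩,⟨10,[(1,0),(8,0),(5,3),(19,1),(2,4),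
  (1,0)]⟩⟩,.o ⟨false,0,⟨0,[(14,0)]⟩,⟨4,[(1,0),(0,0),(25,3),(7,0),(2,1)]⟩⟩,.e ⟨false,1,⟨0,[(2,0)]⟩,
  ⟨1,[(11,1),(16,0),(0,0)]⟩⟩ ⟨false,1,⟨8,[(1,3),(0,3),(1,3),(16,0),(0,0),(5,4),(7,1),(5,4)]⟩,⟨0,[(0,
  0)]⟩⟩]⟩) (.S ⟨1,0,[0,1,0,-1,0,0,0,-1],[1,0,-1],[1,0,0,0,0,0,0,-1],(⟨0,[(30,0)]⟩,⟨0,[(31,0)]⟩),⟨0,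
  [(19,0)]⟩,.k,.k,⟨true,0,⟨0,[]⟩,⟨0,[(46,0)]⟩⟩,⟨false,0,⟨0,[(42,0)]⟩,⟨6,[(1,0),(0,0),(4,0),(8,3)]⟩⟩,
  ⟨false,1,⟨6,[(1,0),(0,0),(4,0),(8,3)]⟩,⟨0,[(42,0)]⟩⟩,⟨true,0,⟨0,[(46,0)]⟩,⟨0,[]⟩⟩,[.e ⟨false,1,⟨5,
  [(2,4),(18,0),(0,0),(4,0),(0,0),(7,1)]⟩,⟨0,[(5,0)]⟩⟩ ⟨false,0,⟨2,[(0,0),(1,1),(1,2),(4,0),(29,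
  1)]⟩,⟨6,[(1,0),(6,0),(2,4),(4,2),(0,0),(26,0)]⟩⟩,.o ⟨false,0,⟨0,[(12,0),(29,1)]⟩,⟨2,[(1,0),(8,0),
  (0,2),(16,2),(10,0),(0,0)]⟩⟩,.o ⟨false,0,⟨0,[(14,0)]⟩,⟨4,[(1,0),(0,0),(25,3),(7,0),(2,1)]⟩⟩,.a
  ⟨true,(-1),⟨0,[(3,0)]⟩,⟨15,[(0,13),(0,1),(0,3),(13,5),(0,1),(20,0),(4,0)]⟩⟩ ⟨false,1,⟨0,[(2,0)]⟩,
  ⟨1,[(11,1),(16,0),(0,0)]⟩⟩ ⟨true,0,⟨2,[(0,0),(1,1),(1,2),(4,0),(29,1)]⟩,⟨8,[(3,1),(6,2),(0,10),(3,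
  0),(0,0),(11,4),(10,0)]⟩⟩]⟩)) (.R ⟨1,false,false,true,[1,0,-1],[1,-1],[1,0,0,0,0,0,0,-1],(⟨0,[(29,
  0)]⟩,⟨0,[(30,0)]⟩),(⟨0,[(33,0)]⟩,⟨0,[(34,0)]⟩),⟨0,[(18,0)]⟩,.k,.k,.k,.k,.k,.k,⟨false,1,⟨24,[(0,1),
  (0,18),(7,2),(2,0),(2,8),(11,5),(10,0)]⟩,⟨2,[(3,1),(2,0),(0,0),(2,0),(14,1),(12,1)]⟩⟩,⟨true,0,⟨0,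
  [(27,0)]⟩,⟨0,[(13,0)]⟩⟩,⟨true,0,⟨0,[]⟩,⟨0,[(45,0)]⟩⟩,⟨true,0,⟨0,[(25,0),(15,0)]⟩,⟨0,[(11,0)]⟩⟩,
  ⟨false,1,⟨3,[(15,1),(26,0),(0,0)]⟩,⟨0,[(41,0)]⟩⟩,⟨true,0,⟨0,[(25,0)]⟩,⟨3,[(0,0),(0,0),(4,0),(4,0),
  (14,0),(11,0)]⟩⟩,[.a ⟨true,(-1),⟨0,[(3,0)]⟩,⟨3,[(15,1),(26,0),(0,0)]⟩⟩ ⟨false,1,⟨5,[(1,4),(18,0),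
  (0,0),(4,0),(0,0),(7,1)]⟩,⟨0,[(4,0)]⟩⟩ ⟨true,0,⟨1,[(1,0),(1,1),(21,0),(1,0),(10,0)]⟩,⟨3,[(0,1),(8,
  1),(0,3),(27,0),(4,2)]⟩⟩,.o ⟨false,0,⟨0,[(41,0)]⟩,⟨13,[(15,5),(19,1),(2,6),(0,1),(2,0)]⟩⟩,.o
  ⟨false,0,⟨0,[(13,0)]⟩,⟨1,[(1,0),(23,0),(1,0),(10,0)]⟩⟩,.e ⟨false,1,⟨0,[(1,0)]⟩,⟨1,[(10,1),(16,0),
  (0,0)]⟩⟩ ⟨false,1,⟨0,[(1,0),(23,0),(15,0)]⟩,⟨3,[(0,1),(8,1),(0,3),(27,0),(4,2)]⟩⟩]⟩)) (.I [0,-1,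
  -1,-1,1,0,0,-1] (.S ⟨1,0,[0,0,1,0,0,0,0,1],[0,1,1],[1,1,1,1,0,0,0,1],(⟨123,[(0,8),(2,11),(11,5),
  (0,8),(13,123),(0,15),(3,5),(0,35),(0,11)]⟩,⟨0,[(18,0)]⟩),⟨0,[(30,0)]⟩,.k,.k,⟨false,0,⟨0,[]⟩,⟨1,
  [(0,0),(15,0)]⟩⟩,⟨true,0,⟨0,[(41,0)]⟩,⟨0,[(40,0)]⟩⟩,⟨true,0,⟨0,[(40,0)]⟩,⟨0,[(41,0)]⟩⟩,⟨false,1,
  ⟨1,[(0,0),(15,0)]⟩,⟨0,[]⟩⟩,[.o ⟨false,1,⟨1,[(25,1),(12,0),(4,0)]⟩,⟨1,[(0,0),(1,0),(5,0),(29,0)]⟩⟩,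
  .a ⟨true,1,⟨0,[(25,0),(17,0)]⟩,⟨3,[(0,0),(1,0),(0,1),(4,2),(29,0)]⟩⟩ ⟨false,0,⟨0,[(1,0),(37,0),(3,
  0)]⟩,⟨0,[(0,0),(44,0)]⟩⟩ ⟨true,0,⟨0,[(1,0),(41,0)]⟩,⟨10,[(0,3),(2,1),(4,5),(17,0),(0,6),(7,2),(2,
  3)]⟩⟩,.e ⟨false,0,⟨1,[(1,0),(8,0),(4,0)]⟩,⟨0,[(0,0)]⟩⟩ ⟨false,0,⟨0,[(1,0),(41,0)]⟩,⟨10,[(0,8),(8,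
  1),(5,1),(11,1),(7,4),(3,0)]⟩⟩,.o ⟨false,1,⟨1,[(27,1),(10,0),(3,0)]⟩,⟨0,[(13,0)]⟩⟩]⟩) (.I [0,1,2,
  1,-1,0,0,-1] (.I [1,-1,2,2,0,0,0,-1] (.S ⟨1,0,[0,1,-1,-2,0,0,0,1],[0,-1,1],[1,0,-1,-1,0,0,0,1],
  (⟨0,[(21,0)]⟩,⟨22,[(22,2),(0,2),(7,22),(1,4),(4,5),(0,2)]⟩),⟨0,[(7,0)]⟩,.k,(.r (-1) ⟨1,[(8,1),(18,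
  1),(12,0),(2,1),(0,0)]⟩ ⟨5,[(0,2),(0,1),(15,1),(10,0),(0,0),(7,0)]⟩),⟨true,0,⟨0,[]⟩,⟨0,[(47,0)]⟩⟩,
  ⟨false,0,⟨0,[(43,0)]⟩,⟨3,[(17,1),(26,0),(0,0)]⟩⟩,⟨false,1,⟨3,[(17,1),(26,0),(0,0)]⟩,⟨0,[(43,0)]⟩⟩,
  ⟨true,0,⟨0,[(47,0)]⟩,⟨0,[]⟩⟩,[.a ⟨true,0,⟨0,[(27,0),(15,1)]⟩,⟨0,[(0,0),(8,0)]⟩⟩ ⟨false,1,⟨1,[(8,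
  1),(18,1),(12,0),(3,0)]⟩,⟨1,[(0,0),(0,0),(41,0),(0,0)]⟩⟩ ⟨true,0,⟨0,[(5,0),(2,0),(18,0),(12,0)]⟩,
  ⟨0,[(0,0)]⟩⟩,.o ⟨false,1,⟨1,[(27,1),(12,0),(2,3),(1,0)]⟩,⟨0,[(11,0)]⟩⟩,.a ⟨true,0,⟨0,[(29,0)]⟩,⟨0,
  [(26,0)]⟩⟩ ⟨false,1,⟨1,[(8,1),(18,1),(12,0),(4,0)]⟩,⟨1,[(0,0),(0,0),(41,0),(0,0)]⟩⟩ ⟨true,0,⟨0,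
  [(5,0),(2,0),(18,0),(12,0)]⟩,⟨2,[(0,1),(0,0),(39,0),(2,0)]⟩⟩,.a ⟨true,0,⟨1,[(29,2),(0,0)]⟩,⟨0,[(9,
  0)]⟩⟩ ⟨true,1,⟨1,[(8,1),(18,1),(12,0),(3,0)]⟩,⟨0,[(1,0)]⟩⟩ ⟨false,1,⟨1,[(8,1),(18,1),(12,0),(2,1),
  (0,0)]⟩,⟨0,[(0,0)]⟩⟩]⟩) (.S ⟨1,0,[0,1,-1,-2,0,0,0,1],[0,-1,1],[1,0,-1,-1,0,0,0,1],(⟨0,[(21,0)]⟩,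
  ⟨22,[(22,2),(0,2),(7,22),(1,4),(4,5),(0,2)]⟩),⟨0,[(7,0)]⟩,.k,(.r (-1) ⟨1,[(0,1),(21,0),(0,0),(21,
  0)]⟩ ⟨1,[(1,0),(11,0),(3,0),(11,0)]⟩),⟨true,0,⟨0,[]⟩,⟨0,[(47,0)]⟩⟩,⟨false,0,⟨0,[(43,0)]⟩,⟨3,[(17,
  1),(26,0),(0,0)]⟩⟩,⟨false,1,⟨3,[(17,1),(26,0),(0,0)]⟩,⟨0,[(43,0)]⟩⟩,⟨true,0,⟨0,[(47,0)]⟩,⟨0,[]⟩⟩,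
  [.e ⟨false,1,⟨5,[(0,3),(17,1),(25,2),(0,0)]⟩,⟨0,[(13,0),(15,0)]⟩⟩ ⟨false,0,⟨0,[(0,0)]⟩,⟨3,[(13,3),
  (3,1),(11,3),(14,0),(0,0)]⟩⟩,.o ⟨false,1,⟨5,[(0,3),(17,1),(10,5),(10,2),(2,5),(1,0)]⟩,⟨0,[(11,
  0)]⟩⟩,.a ⟨true,0,⟨0,[(29,0)]⟩,⟨0,[(26,0)]⟩⟩ ⟨false,1,⟨2,[(0,1),(17,0),(26,1)]⟩,⟨0,[(13,0),(15,
  0)]⟩⟩ ⟨true,0,⟨2,[(0,1),(26,0),(2,0),(12,1)]⟩,⟨0,[(11,0),(17,0)]⟩⟩,.e ⟨true,1,⟨5,[(0,3),(17,1),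
  (25,2),(0,0)]⟩,⟨0,[(1,0)]⟩⟩ ⟨true,0,⟨0,[(0,0)]⟩,⟨1,[(1,0),(11,0),(3,0),(11,0)]⟩⟩]⟩)) (.I [0,0,2,2,
  -1,0,0,1] (.R ⟨0,false,false,false,[1,-1,-1],[0,-1,1],[1,0,-1,-1,0,0,0,1],(⟨0,[(20,0)]⟩,⟨22,[(22,
  2),(0,2),(8,22),(0,4),(4,5),(0,2)]⟩),(⟨0,[(21,0)]⟩,⟨22,[(22,2),(0,2),(7,22),(1,4),(4,5),(0,2)]⟩),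
  ⟨2,[(7,1),(24,0),(0,0),(4,2)]⟩,.k,.k,(.r (-2) ⟨1,[(28,1),(0,1),(13,3),(0,2),(0,0)]⟩ ⟨0,[(0,0)]⟩),
  .k,.k,.k,⟨true,0,⟨0,[]⟩,⟨1,[(29,0),(0,0)]⟩⟩,⟨false,2,⟨1,[(29,3),(10,0),(3,2)]⟩,⟨1,[(2,0),(1,0),(3,
  1),(1,0),(29,0)]⟩⟩,⟨false,0,⟨0,[(0,0),(0,0),(41,0)]⟩,⟨0,[(13,1),(15,1),(13,1),(0,0)]⟩⟩,⟨true,1,⟨3,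
  [(0,0),(0,3),(0,0),(24,1),(1,5),(10,1),(0,0)]⟩,⟨0,[(5,0),(7,1),(29,0)]⟩⟩,⟨false,0,⟨0,[]⟩,⟨0,[]⟩⟩,
  ⟨false,0,⟨0,[]⟩,⟨0,[]⟩⟩,[.o ⟨false,1,⟨5,[(1,1),(16,0),(8,2),(1,2),(10,2),(2,4)]⟩,⟨0,[(13,0)]⟩⟩,.a
  ⟨true,1,⟨2,[(1,1),(16,0),(10,2),(13,1)]⟩,⟨0,[(10,0)]⟩⟩ ⟨false,1,⟨0,[(1,0)]⟩,⟨0,[(14,0),(14,0)]⟩⟩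
  ⟨true,2,⟨1,[(1,1),(27,3),(10,0),(3,0)]⟩,⟨0,[(0,0),(4,0),(7,1),(29,1)]⟩⟩,.e ⟨false,1,⟨2,[(1,1),(16,
  0),(24,1)]⟩,⟨0,[(13,0),(15,0)]⟩⟩ ⟨false,2,⟨1,[(1,1),(27,3),(10,0),(3,0)]⟩,⟨0,[(4,0),(8,0)]⟩⟩,.o
  ⟨false,(-1),⟨0,[(0,0),(12,0),(29,2)]⟩,⟨1,[(29,1),(10,0),(3,2)]⟩⟩]⟩) (.Q [0,0,2,0,-1,0,-1,0,0,0,
  -1] (.p false [0,0,1] [] (⟨0,[(32,0)]⟩,⟨0,[(31,0)]⟩) .k 0 (⟨0,[]⟩,⟨0,[]⟩) .k .k) (.R ⟨0,false,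
  false,false,[1,-1,-1],[0,-1,1],[],(⟨0,[(21,0)]⟩,⟨160,[(1,8),(4,14),(11,11),(0,8),(13,160),(0,25),
  (3,2),(0,44),(0,14)]⟩),(⟨0,[(22,0)]⟩,⟨160,[(1,8),(4,14),(11,11),(0,8),(12,160),(1,25),(3,2),(0,
  44),(0,14)]⟩),⟨2,[(8,1),(24,0),(0,0),(4,2)]⟩,.k,.k,(.x 1 ⟨14,[(0,6),(4,5),(25,1),(1,14),(5,9),(0,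
  1),(6,7)]⟩ ⟨2,[(1,0),(0,0),(5,0),(12,3),(8,2),(10,1),(0,2),(2,0),(0,0)]⟩),.k,.k,.k,⟨true,0,⟨0,
  [(14,0),(15,0)]⟩,⟨5,[(2,1),(1,2),(14,0),(24,4)]⟩⟩,⟨false,2,⟨1,[(30,3),(10,0),(3,2)]⟩,⟨0,[(0,0),(9,
  0)]⟩⟩,⟨false,0,⟨0,[(3,0),(42,0)]⟩,⟨3,[(1,2),(16,0),(10,0),(0,0)]⟩⟩,⟨true,1,⟨5,[(2,5),(0,3),(24,1),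
  (1,9),(10,2),(0,1),(3,0)]⟩,⟨2,[(0,1),(0,1),(9,2),(2,0)]⟩⟩,⟨false,0,⟨0,[]⟩,⟨0,[]⟩⟩,⟨false,0,⟨0,[]⟩,
  ⟨0,[]⟩⟩,[.o ⟨false,1,⟨5,[(2,1),(16,0),(8,2),(1,2),(10,2),(2,4)]⟩,⟨0,[(14,0)]⟩⟩,.a ⟨true,1,⟨2,[(2,
  1),(16,0),(10,2),(13,1)]⟩,⟨0,[(11,0)]⟩⟩ ⟨false,1,⟨1,[(45,0),(0,0)]⟩,⟨0,[(48,0)]⟩⟩ ⟨true,2,⟨1,[(2,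
  1),(27,3),(10,0),(3,0)]⟩,⟨0,[(0,0),(10,0)]⟩⟩,.e ⟨false,1,⟨13,[(1,3),(16,1),(0,3),(10,0),(0,0),(14,
  3)]⟩,⟨0,[]⟩⟩ ⟨false,2,⟨1,[(2,1),(27,3),(10,0),(3,0)]⟩,⟨0,[(5,0),(8,0)]⟩⟩,.o ⟨false,(-1),⟨0,[(0,
  0)]⟩,⟨1,[(30,1),(10,0),(3,2)]⟩⟩]⟩) (.Q [0,-1,-2,0,2,0,2,1,0,-1,2] (.p true [0,0,1] [1,0,-1] (⟨0,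
  [(33,0)]⟩,⟨0,[(32,0)]⟩) .k 2 (⟨0,[(32,0)]⟩,⟨0,[(33,0)]⟩) .k (.r 0 ⟨0,[(7,1)]⟩ ⟨3,[(1,2),(12,3),(3,
  0),(10,0),(0,4)]⟩)) (.R ⟨0,false,false,false,[1,-1,-1],[0,0,1],[1,0,0,0,0,0,0,1],(⟨0,[(22,0)]⟩,
  ⟨160,[(2,8),(4,14),(11,11),(0,8),(13,160),(0,25),(3,2),(0,44),(0,14)]⟩),(⟨0,[(34,0)]⟩,⟨0,[(33,
  0)]⟩),⟨2,[(9,1),(24,0),(0,0),(4,2)]⟩,.k,.k,(.r (-1) ⟨1,[(0,1),(6,11),(5,3),(28,4),(4,4)]⟩ ⟨3,[(4,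
  2),(14,1),(0,0),(10,0),(0,0)]⟩),(.r (-1) ⟨0,[(2,0),(12,0),(15,0)]⟩ ⟨1,[(4,0),(9,1),(5,0)]⟩),.k,.k,
  ⟨true,0,⟨0,[]⟩,⟨1,[(31,0),(0,0)]⟩⟩,⟨false,2,⟨15,[(0,5),(0,12),(0,1),(13,3),(14,10),(7,0),(2,4)]⟩,
  ⟨0,[(6,0),(10,0)]⟩⟩,⟨false,0,⟨0,[(4,0),(9,0),(32,0)]⟩,⟨0,[(2,0),(12,0),(15,0)]⟩⟩,⟨true,1,⟨7,[(0,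
  5),(3,5),(0,0),(14,1),(8,0),(1,2),(10,0)]⟩,⟨0,[(7,0),(7,1),(29,1)]⟩⟩,⟨false,0,⟨0,[]⟩,⟨0,[]⟩⟩,
  ⟨false,0,⟨0,[]⟩,⟨0,[]⟩⟩,[.o ⟨false,1,⟨7,[(0,1),(4,0),(14,1),(8,2),(1,0),(10,2),(2,1)]⟩,⟨0,[(15,0),
  (29,0)]⟩⟩,.e ⟨false,1,⟨7,[(3,5),(0,0),(14,1),(0,0)]⟩,⟨6,[(2,1),(9,3),(17,0),(0,4),(7,0),(2,1)]⟩⟩
  ⟨false,2,⟨0,[(0,0)]⟩,⟨0,[(6,0),(23,0)]⟩⟩,.a ⟨true,(-1),⟨0,[(6,0)]⟩,⟨3,[(1,1),(0,0),(16,0),(9,0),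
  (1,0)]⟩⟩ ⟨true,0,⟨0,[(14,0)]⟩,⟨6,[(2,1),(9,3),(17,0),(0,4),(7,0),(2,1)]⟩⟩ ⟨false,2,⟨25,[(0,19),(1,
  1),(17,6),(8,0),(1,10),(10,2),(2,2)]⟩,⟨0,[(6,0),(8,0),(29,0)]⟩⟩,.e ⟨false,1,⟨7,[(3,5),(0,0),(14,
  1),(0,0)]⟩,⟨0,[(15,0),(15,0),(13,0)]⟩⟩ ⟨false,2,⟨0,[(0,0)]⟩,⟨1,[(6,1),(8,1),(15,0),(0,0),(12,
  1)]⟩⟩]⟩) (.R ⟨0,false,false,false,[1,-1,-1],[0,0,1],[1,0,0,0,0,0,0,1],(⟨0,[(22,0)]⟩,⟨160,[(2,8),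
  (4,14),(11,11),(0,8),(13,160),(0,25),(3,2),(0,44),(0,14)]⟩),(⟨0,[(34,0)]⟩,⟨0,[(33,0)]⟩),⟨2,[(9,1),
  (24,0),(0,0),(4,2)]⟩,.k,.k,(.r (-1) ⟨0,[(1,0),(5,3),(5,0),(28,1),(4,1)]⟩ ⟨17,[(0,1),(3,11),(13,0),
  (0,7),(0,6),(10,3),(10,0)]⟩),(.r (-1) ⟨0,[(2,0),(12,0),(15,0)]⟩ ⟨1,[(4,0),(9,1),(5,0)]⟩),.k,.k,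
  ⟨true,0,⟨0,[]⟩,⟨1,[(31,0),(0,0)]⟩⟩,⟨false,2,⟨7,[(1,9),(0,0),(16,0),(9,0),(1,4),(10,3)]⟩,⟨3,[(0,1),
  (3,0),(5,1),(6,1),(2,0)]⟩⟩,⟨false,0,⟨0,[(4,0),(9,0),(32,0)]⟩,⟨0,[(2,0),(12,0),(15,0)]⟩⟩,⟨true,1,
  ⟨3,[(1,2),(1,0),(0,4),(24,1),(1,2),(10,1),(4,2)]⟩,⟨3,[(0,2),(1,2),(9,0),(2,0)]⟩⟩,⟨false,0,⟨0,[]⟩,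
  ⟨0,[]⟩⟩,⟨false,0,⟨0,[]⟩,⟨0,[]⟩⟩,[.o ⟨false,1,⟨1,[(29,1),(12,0),(4,0)]⟩,⟨7,[(0,1),(1,1),(12,3),(26,
  0),(4,0)]⟩⟩,.a ⟨true,1,⟨0,[(29,0),(17,0)]⟩,⟨4,[(0,0),(1,0),(4,0),(4,2)]⟩⟩ ⟨false,1,⟨7,[(3,5),(0,
  0),(14,1),(0,0)]⟩,⟨6,[(2,1),(9,3),(17,0),(0,4),(7,0),(2,1)]⟩⟩ ⟨true,2,⟨3,[(1,2),(1,0),(0,0),(24,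
  1),(1,2),(10,1),(4,2)]⟩,⟨0,[(0,0)]⟩⟩,.a ⟨true,(-1),⟨0,[(6,0)]⟩,⟨3,[(1,1),(0,0),(16,0),(9,0),(1,
  0)]⟩⟩ ⟨true,0,⟨0,[(14,0)]⟩,⟨6,[(2,1),(9,3),(17,0),(0,4),(7,0),(2,1)]⟩⟩ ⟨false,2,⟨3,[(1,2),(1,0),
  (0,0),(24,1),(1,2),(10,1),(4,2)]⟩,⟨13,[(0,8),(1,0),(7,1),(1,0),(2,2),(5,1),(25,3)]⟩⟩,.a ⟨true,
  (-1),⟨2,[(0,0),(5,1),(13,0),(10,0),(13,0)]⟩,⟨0,[(1,0)]⟩⟩ ⟨false,1,⟨7,[(3,5),(0,0),(14,1),(0,0)]⟩,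
  ⟨7,[(0,1),(1,1),(12,3),(15,7),(10,0),(4,0)]⟩⟩ ⟨true,2,⟨1,[(1,1),(27,1),(12,0),(4,0)]⟩,⟨0,[(0,
  0)]⟩⟩]⟩))))))) (.I [0,-1,2,1,0,0,0,2] (.Q [0,0,1,0,-1,0,-2,0,0,1,-2] (.p false [0,0,1] [1,0,-1]
  (⟨0,[(29,0)]⟩,⟨0,[(28,0)]⟩) .k 2 (⟨0,[(28,0)]⟩,⟨0,[(29,0)]⟩) .k (.r 0 ⟨0,[(3,1)]⟩ ⟨0,[(1,0),(0,0),
  (7,0),(14,0),(0,0),(15,0)]⟩)) (.R ⟨0,false,false,false,[1,-1,-1],[0,-1,1],[0,1],(⟨0,[(18,0)]⟩,⟨22,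
  [(20,2),(0,2),(8,22),(0,4),(4,5),(0,2)]⟩),(⟨0,[(19,0)]⟩,⟨22,[(20,2),(0,2),(7,22),(1,4),(4,5),(0,
  2)]⟩),⟨2,[(5,1),(24,0),(0,0),(4,2)]⟩,.k,.k,(.r (-1) ⟨1,[(2,2),(0,1),(2,0),(4,0),(14,0),(14,1),(1,
  0)]⟩ ⟨1,[(1,0),(7,0),(4,0),(12,0)]⟩),.k,.k,.k,⟨false,0,⟨1,[(2,0),(5,0),(3,0),(14,0)]⟩,⟨1,[(6,1),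
  (18,1),(12,0),(4,0)]⟩⟩,⟨true,1,⟨0,[(2,0),(24,0)]⟩,⟨0,[(0,0)]⟩⟩,⟨false,0,⟨1,[(1,0),(38,0)]⟩,⟨0,[(2,
  0),(0,0),(7,0),(29,0),(1,0)]⟩⟩,⟨true,1,⟨0,[(2,0),(7,1),(16,0)]⟩,⟨0,[(3,0),(7,1),(29,0)]⟩⟩,⟨false,
  0,⟨0,[]⟩,⟨0,[]⟩⟩,⟨false,0,⟨0,[]⟩,⟨0,[]⟩⟩,[.o ⟨false,1,⟨1,[(25,1),(12,0),(2,1),(1,0)]⟩,⟨0,[(11,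
  0)]⟩⟩,.e ⟨false,1,⟨1,[(20,0),(0,0),(20,0)]⟩,⟨0,[]⟩⟩ ⟨false,2,⟨0,[(2,1),(0,0),(6,0),(32,0)]⟩,⟨0,
  [(8,0),(19,0)]⟩⟩,.o ⟨false,0,⟨0,[(28,0)]⟩,⟨0,[(2,0)]⟩⟩,.a ⟨true,(-1),⟨0,[(0,0),(26,0)]⟩,⟨8,[(2,9),
  (2,0),(1,0),(10,0),(12,2),(5,3),(4,2)]⟩⟩ ⟨true,0,⟨5,[(2,0),(0,1),(3,0),(27,0),(2,0),(0,1)]⟩,⟨1,
  [(27,0),(0,0)]⟩⟩ ⟨false,2,⟨0,[(2,1),(0,0),(6,0),(32,0)]⟩,⟨0,[(0,0),(10,0),(15,0)]⟩⟩]⟩) (.Q [0,0,2,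
  0,-1,0,-1,0,0,1,-1] (.p false [0,0,1] [1] (⟨0,[(30,0)]⟩,⟨0,[(29,0)]⟩) .k 1 (⟨0,[]⟩,⟨0,[]⟩) .k .k)
  (.K ⟨0,[1,-1,-1],(-1),(-1),(⟨0,[(19,0)]⟩,⟨22,[(21,2),(0,2),(8,22),(0,4),(4,5),(0,2)]⟩),.k,(.r
  (-1) ⟨0,[(1,0),(5,0),(19,0),(14,0)]⟩ ⟨1,[(2,0),(7,0),(4,0),(12,0)]⟩),.k,(.r (-1) ⟨0,[(1,0),(2,0),
  (7,0),(14,0),(14,0),(1,0)]⟩ ⟨3,[(2,2),(8,1),(24,0),(3,0)]⟩),.k,[⟨0,[(1,0)]⟩,⟨0,[(0,0)]⟩,⟨3,[(1,1),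
  (13,3),(23,0),(3,0)]⟩,⟨0,[(4,0),(7,0),(29,0)]⟩]⟩) (.R ⟨0,false,false,true,[1,-1,-1],[0,0,1],[1],
  (⟨0,[(19,0)]⟩,⟨22,[(21,2),(0,2),(8,22),(0,4),(4,5),(0,2)]⟩),(⟨0,[(31,0)]⟩,⟨0,[(30,0)]⟩),⟨2,[(6,1),
  (24,0),(0,0),(4,2)]⟩,.k,.k,(.r (-1) ⟨0,[(1,0),(5,0),(19,0),(14,0)]⟩ ⟨1,[(2,0),(7,0),(4,0),(12,
  0)]⟩),(.r (-1) ⟨0,[(1,0),(2,0),(7,0),(14,0),(14,0),(1,0)]⟩ ⟨3,[(2,2),(8,1),(24,0),(3,0)]⟩),.k,.k,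
  ⟨false,1,⟨2,[(1,1),(2,0),(2,0),(4,1),(14,0),(16,1)]⟩,⟨2,[(11,1),(14,0),(2,0),(6,0)]⟩⟩,⟨true,1,⟨0,
  [(1,0)]⟩,⟨0,[(2,0),(1,0),(7,1),(29,1)]⟩⟩,⟨true,0,⟨1,[(2,0),(38,0)]⟩,⟨2,[(0,0),(0,0),(2,1),(7,1),
  (14,0),(14,2)]⟩⟩,⟨false,1,⟨6,[(0,2),(0,3),(0,4),(12,0),(10,2),(13,0)]⟩,⟨0,[(4,0),(7,1),(29,1),(1,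
  0)]⟩⟩,⟨false,0,⟨0,[]⟩,⟨0,[]⟩⟩,⟨false,0,⟨0,[]⟩,⟨0,[]⟩⟩,[.a ⟨true,0,⟨0,[(26,0)]⟩,⟨0,[(4,0),(7,0),
  (31,0)]⟩⟩ ⟨true,0,⟨0,[]⟩,⟨1,[(28,0),(0,0)]⟩⟩ ⟨false,1,⟨0,[(0,0),(25,0)]⟩,⟨0,[(4,0),(7,0),(16,0),
  (14,0)]⟩⟩,.o ⟨false,1,⟨1,[(26,1),(12,0),(4,0)]⟩,⟨0,[(12,0),(29,0)]⟩⟩,.o ⟨false,0,⟨0,[(29,0)]⟩,⟨0,
  [(3,0)]⟩⟩,.o ⟨false,0,⟨1,[(28,0),(0,2)]⟩,⟨0,[(0,0)]⟩⟩]⟩))) (.I [0,0,0,-1,0,0,0,-1] (.S ⟨1,0,[0,1,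
  1,0,0,0,0,1],[0,1,1],[1,0,1,1,0,0,0,1],(⟨22,[(20,2),(0,2),(8,22),(0,4),(4,5),(0,2)]⟩,⟨0,[(18,
  0)]⟩),⟨0,[(30,0)]⟩,.k,.k,⟨true,0,⟨0,[]⟩,⟨0,[(45,0)]⟩⟩,⟨false,0,⟨0,[(41,0)]⟩,⟨3,[(15,1),(26,0),(0,
  0)]⟩⟩,⟨false,1,⟨3,[(15,1),(26,0),(0,0)]⟩,⟨0,[(41,0)]⟩⟩,⟨true,0,⟨0,[(45,0)]⟩,⟨0,[]⟩⟩,[.a ⟨true,0,
  ⟨0,[(25,0)]⟩,⟨9,[(0,3),(5,1),(1,5),(19,1),(8,0),(5,6)]⟩⟩ ⟨true,0,⟨3,[(9,1),(0,5),(16,2),(0,0)]⟩,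
  ⟨0,[(0,0)]⟩⟩ ⟨false,0,⟨2,[(10,1),(14,0),(2,0),(6,0)]⟩,⟨7,[(1,3),(13,1),(26,0),(0,4)]⟩⟩,.o ⟨false,
  1,⟨1,[(25,1),(12,0),(4,0)]⟩,⟨1,[(0,0),(10,0),(1,0)]⟩⟩,.o ⟨false,1,⟨0,[(2,0)]⟩,⟨0,[(28,0)]⟩⟩,.o
  ⟨false,1,⟨3,[(2,1),(17,0),(0,0),(5,1),(10,0)]⟩,⟨0,[(13,0)]⟩⟩]⟩) (.Q [0,0,-2,0,1,0,1,0,0,-1,1] (.p
  true [0,0,1] [1] (⟨0,[(30,0)]⟩,⟨0,[(29,0)]⟩) .k 1 (⟨0,[]⟩,⟨0,[]⟩) .k .k) (.Q [0,0,2,0,-1,0,-2,0,0,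
  1,-2] (.p false [0,0,1] [1,0,-1] (⟨0,[(31,0)]⟩,⟨0,[(30,0)]⟩) .k 2 (⟨0,[(30,0)]⟩,⟨0,[(31,0)]⟩) .k
  (.r 0 ⟨0,[(5,1)]⟩ ⟨6,[(2,3),(13,1),(4,0),(0,0),(4,5),(0,5),(15,3)]⟩)) (.R ⟨0,false,false,true,[1,
  -1,-1],[0,0,1],[1],(⟨0,[(20,0)]⟩,⟨22,[(22,2),(0,2),(8,22),(0,4),(4,5),(0,2)]⟩),(⟨0,[(32,0)]⟩,⟨0,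
  [(31,0)]⟩),⟨2,[(7,1),(24,0),(0,0),(4,2)]⟩,.k,.k,(.r (-1) ⟨3,[(3,1),(18,0),(0,0),(19,5),(0,1),(0,
  0)]⟩ ⟨27,[(0,9),(1,28),(8,5),(4,4),(0,4),(11,25),(10,4)]⟩),(.r (-1) ⟨7,[(3,5),(18,2),(0,2),(4,3),
  (0,3),(13,1),(1,4)]⟩ ⟨9,[(0,1),(1,7),(9,9),(3,0),(1,0),(10,3),(10,0)]⟩),.k,.k,⟨false,1,⟨7,[(3,3),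
  (13,1),(26,0),(0,4)]⟩,⟨7,[(0,0),(11,3),(6,0),(7,3),(9,1),(2,0)]⟩⟩,⟨true,1,⟨0,[(1,0),(27,0)]⟩,⟨0,
  [(0,0)]⟩⟩,⟨true,0,⟨9,[(0,1),(1,7),(13,0),(1,0),(10,3),(10,0)]⟩,⟨8,[(3,3),(24,0),(0,0),(7,1),(5,
  4)]⟩⟩,⟨false,1,⟨3,[(1,1),(0,3),(9,1),(14,1),(1,3),(10,0),(4,0)]⟩,⟨0,[(0,0),(2,0),(41,0)]⟩⟩,⟨false,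
  0,⟨0,[]⟩,⟨0,[]⟩⟩,⟨false,0,⟨0,[]⟩,⟨0,[]⟩⟩,[.a ⟨true,0,⟨0,[(27,0)]⟩,⟨5,[(0,1),(2,1),(6,1),(28,0),(5,
  4)]⟩⟩ ⟨true,0,⟨0,[]⟩,⟨1,[(29,0),(0,0)]⟩⟩ ⟨false,1,⟨0,[(1,0),(25,0)]⟩,⟨7,[(0,6),(2,3),(13,1),(1,0),
  (25,4)]⟩⟩,.o ⟨false,1,⟨1,[(27,1),(12,0),(4,0)]⟩,⟨5,[(0,1),(2,1),(9,1),(26,0),(4,0)]⟩⟩,.o ⟨false,0,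
  ⟨0,[(30,0)]⟩,⟨0,[(4,0)]⟩⟩,.o ⟨false,0,⟨1,[(29,0),(0,2)]⟩,⟨0,[(1,0)]⟩⟩]⟩) (.Q [0,0,-1,0,1,0,1,0,-1,
  0,1,-1] (.p true [0,0,1] [0,0,0,0,1] (⟨0,[(32,0)]⟩,⟨0,[(31,0)]⟩) .k 2 (⟨0,[(25,0)]⟩,⟨0,[(24,0)]⟩)
  .k (.r (-1) ⟨3,[(8,1),(9,1),(8,1),(12,0),(4,0)]⟩ ⟨8,[(3,1),(10,1),(13,2),(0,4),(7,0)]⟩)) (.Q [0,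
  -1,-2,0,1,0,1,0,-1,0,1,-1] (.p true [0,0,1] [0,0,0,0,1] (⟨0,[(33,0)]⟩,⟨0,[(32,0)]⟩) .k 2 (⟨0,[(26,
  0)]⟩,⟨0,[(25,0)]⟩) .k (.r (-1) ⟨3,[(9,1),(9,1),(8,1),(12,0),(4,0)]⟩ ⟨8,[(4,1),(10,1),(13,2),(0,4),
  (7,0)]⟩)) (.R ⟨0,false,false,true,[1,-1,-1],[1,0,0,0,-1],[1],(⟨0,[(22,0)]⟩,⟨22,[(24,2),(0,2),(8,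
  22),(0,4),(4,5),(0,2)]⟩),(⟨0,[(26,0)]⟩,⟨0,[(27,0)]⟩),⟨2,[(9,1),(24,0),(0,0),(4,2)]⟩,.k,.k,(.r
  (-1) ⟨3,[(5,1),(18,0),(0,0),(19,5),(0,1),(0,0)]⟩ ⟨5,[(4,7),(8,1),(17,6),(0,4)]⟩),(.r 0 ⟨8,[(5,3),
  (24,0),(0,0),(7,1),(5,4)]⟩ ⟨0,[(20,0)]⟩),.k,.k,⟨true,0,⟨0,[]⟩,⟨1,[(31,0),(0,0)]⟩⟩,⟨false,1,⟨2,[(0,
  1),(0,0),(37,0)]⟩,⟨0,[(25,0),(6,0)]⟩⟩,⟨true,0,⟨1,[(4,1),(26,0),(0,0)]⟩,⟨8,[(5,3),(24,0),(0,0),(7,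
  1),(5,4)]⟩⟩,⟨false,1,⟨0,[(0,0),(3,0),(26,0),(0,0)]⟩,⟨0,[(15,0),(9,0),(19,1)]⟩⟩,⟨false,0,⟨0,[]⟩,⟨0,
  []⟩⟩,⟨false,0,⟨0,[]⟩,⟨0,[]⟩⟩,[.a ⟨true,0,⟨2,[(0,2),(3,0),(2,1),(4,0),(18,1),(0,3)]⟩,⟨0,[(25,0)]⟩⟩
  ⟨true,0,⟨0,[]⟩,⟨1,[(31,0),(0,0)]⟩⟩ ⟨false,1,⟨2,[(0,1),(0,0),(37,0)]⟩,⟨0,[(25,0),(6,0)]⟩⟩,.e
  ⟨false,1,⟨1,[(46,0),(0,0)]⟩,⟨0,[(49,0)]⟩⟩ ⟨false,1,⟨0,[(0,0)]⟩,⟨0,[(25,0),(6,0),(16,0)]⟩⟩,.o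
  ⟨false,0,⟨0,[(32,0)]⟩,⟨0,[(6,0)]⟩⟩,.o ⟨false,0,⟨1,[(31,0),(0,2)]⟩,⟨0,[(3,0)]⟩⟩]⟩) (.Q [0,-1,0,1,1,
  0,0,0,-1,0,0,-1] (.p false [0,0,0,0,1] [] (⟨0,[(27,0)]⟩,⟨0,[(26,0)]⟩) .k 0 (⟨0,[]⟩,⟨0,[]⟩) .k .k)
  (.R ⟨0,false,false,false,[1,-1,-1],[0,0,0,0,1],[1,1],(⟨0,[(23,0)]⟩,⟨22,[(25,2),(0,2),(8,22),(0,4),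
  (4,5),(0,2)]⟩),(⟨0,[(28,0)]⟩,⟨0,[(27,0)]⟩),⟨2,[(10,1),(24,0),(0,0),(4,2)]⟩,.k,.k,(.r (-1) ⟨3,[(6,
  1),(18,0),(0,0),(19,5),(0,1),(0,0)]⟩ ⟨7,[(0,4),(0,4),(3,8),(8,0),(17,5)]⟩),(.r (-1) ⟨3,[(6,1),(18,
  0),(0,0),(19,1),(1,2)]⟩ ⟨0,[(19,0)]⟩),.k,.k,⟨true,0,⟨0,[]⟩,⟨1,[(32,0),(0,0)]⟩⟩,⟨false,1,⟨0,[(4,0),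
  (21,0)]⟩,⟨0,[(0,0),(7,0),(24,0)]⟩⟩,⟨false,0,⟨2,[(0,0),(0,0),(3,1),(9,0),(16,0)]⟩,⟨3,[(6,1),(18,0),
  (0,0),(19,1),(1,2)]⟩⟩,⟨true,0,⟨0,[(1,0),(1,0),(1,0)]⟩,⟨0,[(0,0),(7,0),(7,0),(29,1)]⟩⟩,⟨false,0,⟨0,
  []⟩,⟨0,[]⟩⟩,⟨false,0,⟨0,[]⟩,⟨0,[]⟩⟩,[.o ⟨false,0,⟨0,[(1,0),(2,0)]⟩,⟨0,[(0,0),(45,0)]⟩⟩,.a ⟨true,0,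
  ⟨0,[(26,0)]⟩,⟨0,[(0,0),(7,0)]⟩⟩ ⟨true,0,⟨0,[]⟩,⟨1,[(32,0),(0,0)]⟩⟩ ⟨false,1,⟨0,[(4,0),(21,0)]⟩,⟨0,
  [(0,0),(7,0),(24,0)]⟩⟩,.o ⟨false,0,⟨0,[(33,0)]⟩,⟨0,[(7,0)]⟩⟩,.o ⟨false,0,⟨1,[(32,0),(0,2)]⟩,⟨0,
  [(4,0)]⟩⟩]⟩) (.Q [0,0,0,0,0,-1,0,0,0,1,0,-1] (.ed true [0,1,0,0,1] .k) (.Q [0,0,0,0,0,0,0,0,0,1,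
  -1,-1] (.ed true [0,0,1,0,1] (.r 0 ⟨2,[(16,1),(14,0),(2,0),(6,0)]⟩ ⟨3,[(2,0),(4,1),(13,0),(4,0),
  (6,0),(15,2)]⟩)) (.R ⟨0,false,false,true,[1,-1,-1],[0,0,1,0,-1],[1,0,0,0,0,0,0,1],(⟨0,[(25,0)]⟩,
  ⟨22,[(27,2),(0,2),(8,22),(0,4),(4,5),(0,2)]⟩),(⟨2,[(0,0),(0,1),(10,3),(25,0),(4,2)]⟩,⟨0,[(30,0),
  (5,0)]⟩),⟨2,[(12,1),(24,0),(0,0),(4,2)]⟩,.k,.k,(.r (-1) ⟨3,[(8,1),(18,0),(0,0),(19,5),(0,1),(0,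
  0)]⟩ ⟨5,[(7,7),(8,1),(17,6),(0,4)]⟩),(.r 0 ⟨1,[(8,1),(25,0),(0,0)]⟩ ⟨0,[(17,0),(5,0)]⟩),.k,.k,
  ⟨true,0,⟨0,[]⟩,⟨1,[(34,0),(0,0)]⟩⟩,⟨false,2,⟨0,[(5,0),(21,0)]⟩,⟨17,[(2,1),(0,15),(3,5),(5,13),(1,
  1),(0,3),(27,0),(5,2)]⟩⟩,⟨true,0,⟨1,[(7,1),(9,1),(16,0),(0,0)]⟩,⟨1,[(8,1),(25,0),(0,0)]⟩⟩,⟨false,
  2,⟨1,[(4,1),(2,1),(9,1),(16,1),(10,0),(4,0)]⟩,⟨0,[(2,0),(7,0),(7,1),(29,0),(1,0)]⟩⟩,⟨false,0,⟨0,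
  []⟩,⟨0,[]⟩⟩,⟨false,0,⟨0,[]⟩,⟨0,[]⟩⟩,[.a ⟨true,1,⟨1,[(4,0),(12,1),(9,0),(6,0)]⟩,⟨0,[(2,0),(12,0),
  (34,0)]⟩⟩ ⟨true,0,⟨0,[(17,0)]⟩,⟨0,[(18,0),(15,0),(13,0)]⟩⟩ ⟨false,2,⟨0,[(5,0),(11,0),(9,0)]⟩,⟨2,
  [(2,0),(0,1),(6,0),(2,0),(1,0),(2,1),(31,1)]⟩⟩,.o ⟨false,2,⟨1,[(4,0),(12,1),(9,0),(6,0),(10,0),(4,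
  0)]⟩,⟨0,[(2,0),(15,0)]⟩⟩,.o ⟨false,0,⟨0,[(35,0)]⟩,⟨0,[(9,0)]⟩⟩,.o ⟨false,0,⟨1,[(34,0),(0,2)]⟩,⟨0,
  [(6,0)]⟩⟩]⟩) (.Q [0,0,0,0,0,2,0,0,0,0,0,-1] (.p false [0,0,0,0,1] [] (⟨0,[(30,0)]⟩,⟨0,[(29,0)]⟩)
  .k 0 (⟨0,[]⟩,⟨0,[]⟩) .k .k) (.R ⟨0,false,false,true,[1,-1,-1],[0,0,1,0,-1],[1,0,0,0,0,0,0,1],(⟨0,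
  [(26,0)]⟩,⟨22,[(28,2),(0,2),(8,22),(0,4),(4,5),(0,2)]⟩),(⟨0,[(0,0),(12,0)]⟩,⟨0,[(31,0),(5,0)]⟩),
  ⟨0,[(0,0),(0,0)]⟩,.k,.k,(.r (-1) ⟨3,[(9,1),(18,0),(0,0),(19,5),(0,1),(0,0)]⟩ ⟨5,[(8,7),(8,1),(17,
  6),(0,4)]⟩),(.r 0 ⟨1,[(9,1),(25,0),(0,0)]⟩ ⟨0,[(18,0),(5,0)]⟩),.k,.k,⟨true,0,⟨0,[]⟩,⟨1,[(35,0),(0,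
  0)]⟩⟩,⟨false,2,⟨0,[(6,0),(21,0)]⟩,⟨17,[(3,1),(0,15),(3,5),(5,13),(1,1),(0,3),(27,0),(5,2)]⟩⟩,
  ⟨true,0,⟨1,[(8,1),(9,1),(16,0),(0,0)]⟩,⟨1,[(9,1),(25,0),(0,0)]⟩⟩,⟨false,2,⟨1,[(5,1),(2,1),(9,1),
  (16,1),(10,0),(4,0)]⟩,⟨0,[(3,0),(7,0),(7,1),(29,0),(1,0)]⟩⟩,⟨false,0,⟨0,[]⟩,⟨0,[]⟩⟩,⟨false,0,⟨0,
  []⟩,⟨0,[]⟩⟩,[.a ⟨true,1,⟨1,[(5,0),(12,1),(9,0),(6,0)]⟩,⟨0,[(3,0),(12,0),(34,0)]⟩⟩ ⟨true,0,⟨0,[(18,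
  0)]⟩,⟨0,[(19,0),(15,0),(13,0)]⟩⟩ ⟨false,2,⟨0,[(6,0),(11,0),(9,0)]⟩,⟨2,[(3,0),(0,1),(6,0),(2,0),(1,
  0),(2,1),(31,1)]⟩⟩,.o ⟨false,2,⟨1,[(5,0),(12,1),(9,0),(6,0),(10,0),(4,0)]⟩,⟨0,[(3,0),(15,0)]⟩⟩,.o
  ⟨false,0,⟨0,[(36,0)]⟩,⟨0,[(10,0)]⟩⟩,.o ⟨false,0,⟨1,[(35,0),(0,2)]⟩,⟨0,[(7,0)]⟩⟩]⟩) (.Q [0,0,0,0,0,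
  0,1,1,1,-1,1,1] (.p true [-1,0,1,0,1] [] (⟨0,[(1,0)]⟩,⟨0,[(30,0),(6,0)]⟩) .k 0 (⟨0,[]⟩,⟨0,[]⟩) .k
  (.r 0 ⟨2,[(18,1),(14,0),(2,0),(6,0)]⟩ ⟨3,[(4,0),(4,1),(13,0),(4,0),(6,0),(15,2)]⟩)) (.S ⟨1,0,[0,2,
  0,-1],[0,0,0,0,1],[1,1],(⟨0,[(32,0)]⟩,⟨0,[(31,0)]⟩),⟨1,[(1,0),(30,0)]⟩,.k,(.r 0 ⟨4,[(8,0),(3,1),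
  (2,0),(28,1),(2,0),(2,1)]⟩ ⟨5,[(5,0),(18,2),(4,1),(0,0),(5,0),(15,1)]⟩),⟨true,0,⟨0,[]⟩,⟨6,[(5,0),
  (23,0),(6,0),(7,2)]⟩⟩,⟨false,0,⟨0,[(50,0)]⟩,⟨3,[(24,1),(26,0),(0,0)]⟩⟩,⟨false,1,⟨3,[(24,1),(26,0),
  (0,0)]⟩,⟨0,[(50,0)]⟩⟩,⟨true,0,⟨6,[(5,0),(23,0),(6,0),(7,2)]⟩,⟨0,[]⟩⟩,[.o ⟨false,(-1),⟨1,[(0,0),(3,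
  0),(7,1),(4,0),(29,1)]⟩,⟨5,[(6,0),(2,1),(8,1),(10,4),(6,0),(15,5)]⟩⟩,.a ⟨true,(-1),⟨0,[(4,0)]⟩,
  ⟨15,[(6,5),(2,5),(7,1),(0,3),(10,9),(16,6),(5,8),(0,5)]⟩⟩ ⟨true,0,⟨0,[]⟩,⟨1,[(36,0),(0,0)]⟩⟩
  ⟨false,0,⟨4,[(8,0),(3,1),(2,0),(28,1),(2,0),(2,1)]⟩,⟨3,[(24,1),(26,0),(0,0)]⟩⟩,.o ⟨false,0,⟨2,[(0,
  0),(3,1),(13,0),(28,0),(4,0)]⟩,⟨0,[(29,0)]⟩⟩,.o ⟨false,0,⟨17,[(0,3),(3,7),(0,5),(12,3),(17,5),(10,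
  6),(4,6)]⟩,⟨0,[(6,0),(15,0)]⟩⟩]⟩) (.R ⟨0,false,false,true,[1,-1,0,0,-1],[2,0,-1,0,-1],[1],(⟨0,[(3,
  0)]⟩,⟨22,[(29,2),(0,2),(1,22),(7,4),(4,5),(0,2)]⟩),(⟨0,[(31,0),(6,0)]⟩,⟨0,[(2,0)]⟩),⟨2,[(1,1),(30,
  0),(7,0),(4,2)]⟩,(.r (-1) ⟨1,[(50,1),(0,0),(0,0)]⟩ ⟨1,[(21,0),(1,0),(12,0)]⟩),.k,(.r (-1) ⟨5,[(7,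
  1),(7,3),(31,0),(2,7),(0,1),(0,0)]⟩ ⟨9,[(5,1),(12,5),(2,0),(1,6),(5,1),(6,8)]⟩),.k,.k,.k,⟨true,0,
  ⟨0,[(19,0)]⟩,⟨3,[(0,1),(3,1),(15,1),(15,3),(10,0),(4,0)]⟩⟩,⟨false,0,⟨0,[(16,0)]⟩,⟨1,[(29,0),(0,0),
  (5,1),(10,0)]⟩⟩,⟨false,0,⟨2,[(9,0),(8,0),(17,1),(0,0)]⟩,⟨1,[(50,1),(0,0),(0,0)]⟩⟩,⟨true,(-1),⟨0,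
  [(17,0)]⟩,⟨1,[(34,1),(12,0),(2,1),(1,0)]⟩⟩,⟨false,0,⟨0,[]⟩,⟨0,[]⟩⟩,⟨false,0,⟨0,[]⟩,⟨0,[]⟩⟩,[.o
  ⟨false,0,⟨0,[(0,0)]⟩,⟨4,[(4,4),(2,1),(1,1),(15,2),(10,0),(10,3),(4,0)]⟩⟩,.e ⟨false,1,⟨1,[(51,0),
  (0,0)]⟩,⟨6,[(5,0),(23,0),(6,0),(7,2)]⟩⟩ ⟨false,1,⟨5,[(10,2),(4,4),(8,3),(8,0),(17,1)]⟩,⟨0,[(9,0),
  (2,0),(23,0),(10,0)]⟩⟩,.e ⟨true,0,⟨0,[]⟩,⟨6,[(5,0),(23,0),(6,0),(7,2)]⟩⟩ ⟨true,0,⟨37,[(10,14),(4,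
  12),(1,7),(6,9),(1,5),(6,4),(6,1),(1,1),(3,1)]⟩,⟨0,[(9,0),(2,0),(23,0),(10,0)]⟩⟩,.a ⟨true,0,⟨1,
  [(0,1),(18,1),(16,2),(0,0)]⟩,⟨5,[(4,5),(2,1),(0,0),(0,1),(6,2),(1,1),(33,2)]⟩⟩ ⟨false,1,⟨1,[(51,
  0),(0,0)]⟩,⟨1,[(36,0),(0,0)]⟩⟩ ⟨true,0,⟨49,[(10,17),(4,5),(0,29),(0,7),(0,5),(5,1),(21,2),(5,8)]⟩,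
  ⟨1,[(9,1),(2,1),(23,2),(0,0),(9,1)]⟩⟩]⟩)))) (.Q [0,0,0,0,0,0,0,0,1,-1,0,1] (.p true [0,0,0,0,1]
  [1] (⟨0,[(29,0)]⟩,⟨0,[(28,0)]⟩) .k 1 (⟨0,[]⟩,⟨0,[]⟩) .k .k) (.R ⟨1,false,false,true,[0,0,0,0,1],
  [0,0,-1,0,1],[1,1],(⟨0,[(30,0)]⟩,⟨0,[(29,0)]⟩),(⟨0,[(1,0),(23,0)]⟩,⟨0,[(29,0),(7,0)]⟩),⟨1,[(1,0),
  (10,0),(12,0),(4,0)]⟩,.k,.k,(.r 0 ⟨4,[(6,0),(3,1),(2,0),(28,1),(2,0),(2,1)]⟩ ⟨5,[(3,0),(18,2),(4,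
  1),(0,0),(5,0),(15,1)]⟩),.k,.k,.k,⟨false,1,⟨1,[(17,1),(31,0),(0,0)]⟩,⟨8,[(8,1),(10,1),(13,2),(0,
  4),(7,0)]⟩⟩,⟨true,0,⟨0,[(20,0)]⟩,⟨0,[(34,0)]⟩⟩,⟨true,0,⟨0,[]⟩,⟨6,[(3,0),(23,0),(6,0),(7,2)]⟩⟩,
  ⟨false,0,⟨0,[(18,0),(29,0)]⟩,⟨0,[(32,0),(17,0)]⟩⟩,⟨false,1,⟨3,[(22,1),(26,0),(0,0)]⟩,⟨0,[(48,
  0)]⟩⟩,⟨false,0,⟨0,[(18,0)]⟩,⟨0,[(32,0),(15,0),(1,0)]⟩⟩,[.o ⟨false,(-1),⟨0,[(2,0),(12,0),(29,0)]⟩,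
  ⟨1,[(4,0),(12,1),(9,0),(6,0),(15,1)]⟩⟩,.a ⟨true,(-1),⟨0,[(2,0),(15,0)]⟩,⟨1,[(4,0),(6,1),(15,0),(6,
  0),(9,0),(5,0)]⟩⟩ ⟨true,0,⟨0,[]⟩,⟨1,[(34,0),(0,0)]⟩⟩ ⟨false,0,⟨8,[(8,1),(5,1),(0,1),(4,1),(12,2),
  (8,0),(2,1)]⟩,⟨0,[(32,0),(17,0)]⟩⟩,.o ⟨false,0,⟨0,[(0,0)]⟩,⟨0,[(27,0)]⟩⟩,.o ⟨false,0,⟨5,[(0,3),(2,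
  1),(30,1),(10,0),(4,0)]⟩,⟨0,[(4,0),(15,0)]⟩⟩]⟩) (.R ⟨2,true,false,false,[0,1],[0,0,0,0,1],[1,1,1,
  1],(⟨0,[]⟩,⟨0,[]⟩),(⟨0,[(30,0)]⟩,⟨0,[(29,0)]⟩),⟨0,[]⟩,.k,.k,.k,(.r (-1) ⟨5,[(3,0),(18,2),(4,1),(0,
  0),(5,0),(15,1)]⟩ ⟨4,[(6,0),(3,1),(2,0),(28,1),(2,0),(2,1)]⟩),.k,.k,⟨true,0,⟨2,[(7,0),(8,0),(17,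
  1),(0,0)]⟩,⟨0,[(48,0)]⟩⟩,⟨false,0,⟨0,[(28,0)]⟩,⟨2,[(0,0),(3,0),(9,0),(12,0),(17,0)]⟩⟩,⟨false,0,⟨0,
  []⟩,⟨1,[(27,0),(0,0),(21,0)]⟩⟩,⟨true,(-1),⟨0,[(2,0)]⟩,⟨7,[(0,1),(3,1),(2,0),(8,1),(4,0),(0,0),(4,
  3),(17,0)]⟩⟩,⟨true,0,⟨0,[(47,0)]⟩,⟨0,[(48,0)]⟩⟩,⟨false,0,⟨0,[(28,0)]⟩,⟨1,[(0,1),(44,0),(4,0)]⟩⟩,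
  []⟩))))) (.Q [0,0,0,0,0,0,0,0,0,1,-1,-1] (.ed true [0,0,1,0,1] (.r 0 ⟨2,[(13,1),(14,0),(2,0),(6,
  0)]⟩ ⟨13,[(4,3),(13,1),(4,0),(0,0),(4,5),(0,5),(15,10)]⟩)) (.S ⟨1,0,[0,-1,0,-1],[1,0,0,0,-1],[1],
  (⟨0,[(26,0)]⟩,⟨0,[(27,0)]⟩),⟨1,[(0,0),(8,0),(16,0)]⟩,.k,(.r (-1) ⟨1,[(45,1),(0,0),(0,0)]⟩ ⟨1,[(16,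
  0),(1,0),(12,0)]⟩),⟨false,0,⟨0,[]⟩,⟨1,[(24,0),(0,0),(21,0)]⟩⟩,⟨true,0,⟨0,[(45,0)]⟩,⟨0,[(44,0)]⟩⟩,
  ⟨true,0,⟨0,[(44,0)]⟩,⟨0,[(45,0)]⟩⟩,⟨false,1,⟨1,[(24,0),(0,0),(21,0)]⟩,⟨0,[]⟩⟩,[.a ⟨true,1,⟨0,[(7,
  0),(16,0),(22,0)]⟩,⟨6,[(1,6),(0,3),(1,1),(7,3),(16,1),(1,0),(12,0)]⟩⟩ ⟨true,0,⟨0,[]⟩,⟨1,[(31,0),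
  (0,0)]⟩⟩ ⟨false,1,⟨1,[(45,1),(0,0),(0,0)]⟩,⟨0,[(44,0)]⟩⟩,.o ⟨false,2,⟨0,[(24,0),(20,0),(1,0)]⟩,⟨2,
  [(1,2),(0,1),(1,1),(2,1),(4,2),(16,0),(1,0),(10,2)]⟩⟩,.o ⟨false,1,⟨0,[(24,0)]⟩,⟨2,[(1,1),(0,0),
  (22,0),(16,0)]⟩⟩,.o ⟨false,1,⟨1,[(24,1),(6,0),(0,0)]⟩,⟨0,[(1,0),(1,0)]⟩⟩]⟩) (.R ⟨0,false,false,
  false,[1,-1,-1],[-1,0,1,0,1],[1,1,0,0,0,0,0,1],(⟨0,[(22,0)]⟩,⟨22,[(24,2),(0,2),(8,22),(0,4),(4,5),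
  (0,2)]⟩),(⟨0,[(0,0)]⟩,⟨0,[(26,0),(6,0)]⟩),⟨2,[(9,1),(24,0),(0,0),(4,2)]⟩,.k,.k,(.r (-1) ⟨3,[(5,1),
  (18,0),(0,0),(19,5),(0,1),(0,0)]⟩ ⟨5,[(4,7),(8,1),(17,6),(0,4)]⟩),(.r (-1) ⟨1,[(5,1),(25,0),(0,0),
  (14,1)]⟩ ⟨0,[(14,0),(3,0)]⟩),.k,.k,⟨true,0,⟨0,[]⟩,⟨1,[(31,0),(0,0)]⟩⟩,⟨false,1,⟨2,[(1,1),(0,3),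
  (22,0),(16,0)]⟩,⟨1,[(8,0),(1,0),(1,0),(11,1),(7,1),(8,0),(6,0)]⟩⟩,⟨false,0,⟨1,[(4,1),(9,1),(16,0),
  (0,0)]⟩,⟨1,[(5,1),(25,0),(0,0),(14,1)]⟩⟩,⟨true,0,⟨0,[(1,0),(0,0),(1,1),(2,0),(23,0),(10,0)]⟩,⟨0,
  [(7,1),(7,1),(8,0),(20,0),(1,0)]⟩⟩,⟨false,0,⟨0,[]⟩,⟨0,[]⟩⟩,⟨false,0,⟨0,[]⟩,⟨0,[]⟩⟩,[.o ⟨false,0,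
  ⟨2,[(1,2),(0,1),(1,1),(2,1),(21,0),(1,0),(10,2)]⟩,⟨0,[(7,0),(7,0),(8,0),(22,0)]⟩⟩,.a ⟨true,0,⟨5,
  [(1,5),(0,3),(11,3),(14,1),(1,1),(10,0),(4,0)]⟩,⟨0,[(7,0),(4,0),(11,0),(22,0)]⟩⟩ ⟨true,0,⟨0,[(14,
  0)]⟩,⟨0,[(15,0),(15,0),(13,0)]⟩⟩ ⟨false,1,⟨2,[(1,1),(0,3),(11,2),(10,0),(16,0)]⟩,⟨0,[(7,0),(4,0),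
  (11,0),(7,0),(14,0)]⟩⟩,.o ⟨false,0,⟨0,[(32,0)]⟩,⟨0,[(6,0)]⟩⟩,.o ⟨false,0,⟨1,[(31,0),(0,2)]⟩,⟨0,
  [(3,0)]⟩⟩]⟩)))) (.Q [0,0,1,0,-1,0,-2,0,0,1,-2] (.p false [0,0,1] [1,0,-1] (⟨0,[(31,0)]⟩,⟨0,[(30,
  0)]⟩) .k 2 (⟨0,[(30,0)]⟩,⟨0,[(31,0)]⟩) .k (.r 0 ⟨0,[(5,1)]⟩ ⟨6,[(2,3),(13,1),(4,0),(0,0),(4,5),(0,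
  5),(15,3)]⟩)) (.R ⟨0,false,false,false,[1,-1,-1],[0,-1,1],[0,1,-1,-2,0,0,0,-1],(⟨0,[(20,0)]⟩,⟨22,
  [(22,2),(0,2),(8,22),(0,4),(4,5),(0,2)]⟩),(⟨0,[(21,0)]⟩,⟨22,[(22,2),(0,2),(7,22),(1,4),(4,5),(0,
  2)]⟩),⟨2,[(7,1),(24,0),(0,0),(4,2)]⟩,.k,.k,(.r (-1) ⟨3,[(3,1),(18,0),(0,0),(19,5),(0,1),(0,0)]⟩
  ⟨21,[(1,9),(0,20),(8,3),(4,4),(0,4),(11,13),(10,4)]⟩),.k,.k,.k,⟨false,0,⟨1,[(3,1),(25,0),(0,0)]⟩,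
  ⟨3,[(2,1),(9,3),(5,1),(25,0),(0,0)]⟩⟩,⟨true,1,⟨0,[(4,0),(24,0)]⟩,⟨0,[(0,0)]⟩⟩,⟨false,0,⟨0,[(43,
  0)]⟩,⟨3,[(17,1),(26,0),(0,0)]⟩⟩,⟨true,1,⟨0,[(4,0),(7,1),(16,0)]⟩,⟨4,[(0,1),(0,1),(1,2),(6,0),(2,
  1),(14,0)]⟩⟩,⟨false,0,⟨0,[]⟩,⟨0,[]⟩⟩,⟨false,0,⟨0,[]⟩,⟨0,[]⟩⟩,[.o ⟨false,1,⟨1,[(27,1),(12,0),(2,1),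
  (1,0)]⟩,⟨0,[(13,0)]⟩⟩,.e ⟨false,1,⟨3,[(3,1),(18,0),(0,0),(19,5),(0,1),(0,0)]⟩,⟨10,[(1,1),(0,12),
  (8,2),(4,0),(0,0),(11,4),(10,0)]⟩⟩ ⟨false,2,⟨0,[(4,1),(0,0),(6,0),(32,0)]⟩,⟨2,[(0,0),(0,0),(8,0),
  (3,1)]⟩⟩,.o ⟨false,0,⟨0,[(30,0)]⟩,⟨0,[(4,0)]⟩⟩,.a ⟨true,(-1),⟨0,[(1,0)]⟩,⟨8,[(4,9),(2,0),(1,0),
  (10,0),(12,2),(5,3),(4,2)]⟩⟩ ⟨true,0,⟨0,[(3,0),(8,0),(30,0)]⟩,⟨21,[(1,9),(0,20),(8,3),(4,4),(0,4),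
  (11,13),(10,4)]⟩⟩ ⟨false,2,⟨0,[(4,1),(0,0),(6,0),(32,0)]⟩,⟨0,[(1,0),(11,0)]⟩⟩]⟩) (.K ⟨0,[1,-1,-1],
  (-1),(-1),(⟨0,[(20,0)]⟩,⟨22,[(22,2),(0,2),(8,22),(0,4),(4,5),(0,2)]⟩),.k,(.r (-1) ⟨3,[(3,1),(18,
  0),(0,0),(19,5),(0,1),(0,0)]⟩ ⟨21,[(1,9),(0,20),(8,3),(4,4),(0,4),(11,13),(10,4)]⟩),.k,(.r (-1)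
  ⟨7,[(3,5),(18,2),(0,2),(4,3),(0,3),(13,1),(1,4)]⟩ ⟨7,[(1,1),(0,5),(9,7),(3,0),(1,0),(10,1),(10,
  0)]⟩),.k,[⟨0,[(0,0)]⟩,⟨0,[(1,0)]⟩,⟨11,[(0,5),(1,1),(13,6),(1,2),(18,3),(2,2)]⟩,⟨1,[(1,0),(1,0),(1,
  0),(9,0)]⟩]⟩))))))) (.N [0,0,1] 0 ⟨0,[(6,0)]⟩ ⟨0,[(0,0)]⟩ .k)))

theorem ok58 : chk K t58 l36 = true := by decide +kernel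

noncomputable def t59 : Tre :=
  (.Q [0,0,0,0,0,2,0,0,0,0,-1] (.p false [0,0,1] [] (⟨0,[(24,0)]⟩,⟨0,[(23,0)]⟩) .k 0 (⟨0,[]⟩,⟨0,
  []⟩) .k .k) (.R ⟨0,false,false,false,[0,-1,1],[1,-1],[1],(⟨0,[(14,0)]⟩,⟨4,[(0,1),(14,0),(0,0),(7,
  2),(1,0),(5,0)]⟩),(⟨0,[(28,0)]⟩,⟨0,[(29,0)]⟩),⟨0,[(0,0)]⟩,.k,.k,(.r (-1) ⟨0,[(5,0),(30,1),(0,0)]⟩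
  ⟨1,[(4,1),(17,2),(0,0)]⟩),.k,.k,.k,⟨true,0,⟨9,[(1,5),(2,1),(0,1),(17,3),(8,2),(5,2)]⟩,⟨0,[(36,
  0)]⟩⟩,⟨false,0,⟨0,[(19,0)]⟩,⟨1,[(22,1),(10,0),(3,0)]⟩⟩,⟨true,0,⟨0,[(6,0),(15,0)]⟩,⟨0,[(5,0),(28,
  0),(1,1)]⟩⟩,⟨false,0,⟨0,[(3,0),(32,0),(1,0)]⟩,⟨1,[(20,1),(12,0),(4,0)]⟩⟩,⟨false,0,⟨0,[]⟩,⟨0,[]⟩⟩,
  ⟨false,0,⟨0,[]⟩,⟨0,[]⟩⟩,[.o ⟨false,0,⟨0,[(36,0)]⟩,⟨13,[(10,5),(19,1),(2,6),(0,1),(2,0)]⟩⟩,.e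
  ⟨false,1,⟨1,[(37,0),(0,0)]⟩,⟨0,[(40,0)]⟩⟩ ⟨false,1,⟨1,[(19,1),(16,1),(0,0),(0,0)]⟩,⟨0,[(1,0)]⟩⟩,
  .e ⟨true,0,⟨0,[]⟩,⟨0,[(40,0)]⟩⟩ ⟨true,0,⟨0,[(19,0),(16,0)]⟩,⟨0,[(1,0)]⟩⟩,.a ⟨true,0,⟨1,[(22,2),(0,
  0)]⟩,⟨0,[(2,0)]⟩⟩ ⟨false,1,⟨1,[(37,0),(0,0)]⟩,⟨1,[(22,0),(0,0)]⟩⟩ ⟨true,0,⟨0,[(2,0),(33,0)]⟩,⟨1,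
  [(1,1),(20,0),(0,0)]⟩⟩]⟩) (.I [1,0,0,0,0,0,0,-1] (.N [0,0,1] 0 ⟨0,[(6,0)]⟩ ⟨0,[(0,0)]⟩ .k) (.I [0,
  -1,-2,-2,1,0,0,1] (.I [1,-1,2,2,0,0,0,-1] (.Q [0,-1,0,1,1,0,0,0,0,-1] (.pp true [-1,1]) (.R ⟨1,
  false,false,false,[0,0,1],[0,1],[0,1,0,-1,0,0,0,1],(⟨0,[(29,0)]⟩,⟨0,[(28,0)]⟩),(⟨0,[(33,0)]⟩,⟨0,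
  [(32,0)]⟩),⟨0,[(18,0)]⟩,.k,.k,.k,.k,(.r (-1) ⟨0,[(2,0),(41,0)]⟩ ⟨11,[(1,10),(11,1),(11,2),(0,2),
  (7,2)]⟩),.k,⟨true,0,⟨0,[(9,0),(28,0),(1,2)]⟩,⟨0,[(1,0)]⟩⟩,⟨false,1,⟨2,[(6,0),(9,0),(20,0),(3,1)]⟩,
  ⟨0,[(26,0)]⟩⟩,⟨false,0,⟨0,[(40,0)]⟩,⟨3,[(14,1),(26,0),(0,0)]⟩⟩,⟨true,0,⟨0,[(10,0)]⟩,⟨0,[(24,0),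
  (15,0)]⟩⟩,⟨true,0,⟨0,[(44,0)]⟩,⟨0,[]⟩⟩,⟨true,0,⟨0,[(8,0)]⟩,⟨0,[(24,0),(15,1)]⟩⟩,[.o ⟨false,1,⟨13,
  [(14,5),(19,1),(2,6),(0,1),(2,0)]⟩,⟨0,[(40,0)]⟩⟩,.o ⟨false,1,⟨0,[(0,0)]⟩,⟨0,[(40,0),(3,0)]⟩⟩,.o
  ⟨false,1,⟨1,[(26,1),(10,0),(3,0)]⟩,⟨0,[(12,0)]⟩⟩,.a ⟨true,0,⟨0,[(26,0)]⟩,⟨0,[(23,0)]⟩⟩ ⟨true,0,⟨0,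
  [(9,0),(28,0),(1,1)]⟩,⟨0,[(10,0),(15,0)]⟩⟩ ⟨false,1,⟨15,[(0,11),(5,7),(7,1),(1,3),(24,0),(0,0)]⟩,
  ⟨0,[(26,0),(13,0)]⟩⟩]⟩) (.S ⟨1,0,[0,0,-1,-2,0,0,0,1],[0,-1,1],[0,1,-1,-2,0,0,0,1],(⟨0,[(18,0)]⟩,
  ⟨22,[(19,2),(0,2),(7,22),(1,4),(4,5),(0,2)]⟩),⟨0,[(4,0)]⟩,.k,(.r (-1) ⟨0,[(2,0),(41,0)]⟩ ⟨11,[(1,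
  10),(11,1),(11,2),(0,2),(7,2)]⟩),⟨false,0,⟨0,[(40,0)]⟩,⟨3,[(14,1),(26,0),(0,0)]⟩⟩,⟨true,0,⟨0,[(40,
  0)]⟩,⟨0,[(39,0)]⟩⟩,⟨true,0,⟨0,[(44,0)]⟩,⟨0,[]⟩⟩,⟨false,1,⟨1,[(19,0),(0,0),(21,0)]⟩,⟨0,[]⟩⟩,[.o
  ⟨false,1,⟨3,[(2,1),(21,1),(1,2),(0,0),(9,1),(2,3)]⟩,⟨0,[(8,0)]⟩⟩,.e ⟨false,1,⟨0,[(2,0),(41,0)]⟩,
  ⟨2,[(1,1),(3,0),(1,0),(33,0)]⟩⟩ ⟨false,1,⟨0,[(2,0)]⟩,⟨0,[(1,0),(32,0)]⟩⟩,.a ⟨true,0,⟨0,[(26,0)]⟩,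
  ⟨0,[(23,0)]⟩⟩ ⟨true,0,⟨8,[(0,9),(1,4),(6,1),(3,1),(20,0),(2,4)]⟩,⟨2,[(1,1),(3,0),(1,0),(33,0)]⟩⟩
  ⟨false,1,⟨1,[(2,1),(23,0),(0,0)]⟩,⟨2,[(1,1),(3,0),(1,0),(33,0)]⟩⟩,.e ⟨false,1,⟨0,[(2,0),(41,0)]⟩,
  ⟨0,[(1,0)]⟩⟩ ⟨false,1,⟨0,[(2,0)]⟩,⟨11,[(1,10),(11,1),(11,2),(0,2),(7,2)]⟩⟩]⟩)) (.Q [0,-1,0,1,0,0,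
  -1,-1,-1,1,-1,-1] (.p false [0,0,1] [1,0,0,0,-1] (⟨0,[(28,0)]⟩,⟨0,[(27,0)]⟩) .k 2 (⟨0,[(20,0)]⟩,
  ⟨0,[(21,0)]⟩) .k (.r 0 ⟨2,[(0,0),(11,1)]⟩ ⟨1,[(9,1),(15,1),(13,1),(0,0),(0,0)]⟩)) (.Q [0,0,0,0,0,
  1,0,0,0,-1,0,1] (.ed false [0,1,0,0,1] .k) (.R ⟨0,false,false,true,[1,0,0,0,-1],[1,0,1,0,-1],[1,0,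
  1],(⟨0,[(22,0)]⟩,⟨0,[(23,0)]⟩),(⟨0,[(22,0),(7,0)]⟩,⟨0,[(0,0),(17,0)]⟩),⟨0,[(0,0)]⟩,.k,.k,(.r (-1)
  ⟨1,[(41,1),(0,0),(0,0)]⟩ ⟨21,[(6,2),(1,2),(5,9),(0,2),(10,6),(0,6),(7,0)]⟩),.k,.k,.k,⟨true,0,⟨0,
  [(11,0),(15,0),(13,0)]⟩,⟨0,[(4,0)]⟩⟩,⟨false,1,⟨0,[(27,0),(14,0)]⟩,⟨0,[(13,0)]⟩⟩,⟨false,0,⟨1,[(27,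
  0),(0,0)]⟩,⟨1,[(42,0),(0,0)]⟩⟩,⟨true,0,⟨0,[(25,0)]⟩,⟨0,[(11,0),(29,0)]⟩⟩,⟨false,0,⟨0,[]⟩,⟨0,[]⟩⟩,
  ⟨false,0,⟨0,[]⟩,⟨0,[]⟩⟩,[.e ⟨false,0,⟨0,[]⟩,⟨1,[(20,0),(0,0),(20,0)]⟩⟩ ⟨false,1,⟨1,[(25,1),(16,0),
  (0,0)]⟩,⟨0,[(11,0),(29,0)]⟩⟩,.o ⟨false,1,⟨0,[(1,0),(1,0),(2,0),(3,0),(16,0)]⟩,⟨0,[(8,0),(12,0),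
  (16,0),(2,0)]⟩⟩,.a ⟨true,0,⟨0,[(1,0),(23,0),(15,0)]⟩,⟨0,[(21,0)]⟩⟩ ⟨true,0,⟨1,[(27,0),(0,0)]⟩,⟨2,
  [(2,0),(3,0),(1,0),(33,0)]⟩⟩ ⟨false,1,⟨0,[(25,0),(17,0)]⟩,⟨0,[(11,0),(29,0)]⟩⟩,.o ⟨false,0,⟨0,[(1,
  0),(4,0),(3,0),(30,1)]⟩,⟨1,[(21,1),(16,0),(3,0)]⟩⟩]⟩) (.Q [0,0,0,0,0,-1,0,0,0,0,0,1] (.ed false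
  [1,-1,0,0,1] .k) (.Q [0,0,0,-1,0,0,0,0,-1,0,0,-1] (.p false [0,0,0,0,1] [] (⟨0,[(24,0)]⟩,⟨0,[(23,
  0)]⟩) .k 0 (⟨0,[]⟩,⟨0,[]⟩) .k .k) (.R ⟨2,true,false,false,[0,1],[0,1,0,0,1],[0,0,1],(⟨0,[]⟩,⟨0,
  []⟩),(⟨22,[(22,2),(0,2),(1,22),(7,4),(4,5),(0,2)]⟩,⟨0,[(2,0)]⟩),⟨0,[]⟩,.k,(.r 0 ⟨21,[(8,2),(1,2),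
  (5,9),(0,2),(10,6),(0,6),(7,0)]⟩ ⟨1,[(43,1),(0,0),(0,0)]⟩),.k,.k,(.r (-1) ⟨1,[(43,1),(0,0),(0,
  0)]⟩ ⟨21,[(8,2),(1,2),(5,9),(0,2),(10,6),(0,6),(7,0)]⟩),.k,⟨false,1,⟨1,[(43,1),(0,0),(0,0)]⟩,⟨0,
  [(42,0)]⟩⟩,⟨true,0,⟨0,[(23,0)]⟩,⟨2,[(0,1),(2,0),(4,0),(3,0),(16,0),(0,0)]⟩⟩,⟨true,0,⟨0,[(43,0)]⟩,
  ⟨0,[(42,0)]⟩⟩,⟨false,0,⟨0,[(23,0)]⟩,⟨5,[(0,1),(2,1),(18,1),(4,1),(12,0),(4,2)]⟩⟩,⟨false,1,⟨1,[(22,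
  0),(0,0),(21,0)]⟩,⟨0,[]⟩⟩,⟨true,0,⟨0,[(23,0),(18,0)]⟩,⟨0,[(0,0)]⟩⟩,[]⟩) (.Q [0,1,0,0,0,0,0,0,1,-1,
  0,1] (.p true [0,0,0,0,1] [1] (⟨0,[(25,0)]⟩,⟨0,[(24,0)]⟩) .k 1 (⟨0,[]⟩,⟨0,[]⟩) .k .k) (.S ⟨1,0,[0,
  -1,1],[1,1,0,0,-1],[0,0,1],(⟨22,[(23,2),(0,2),(0,22),(8,4),(4,5),(0,2)]⟩,⟨0,[(2,0)]⟩),⟨0,[(25,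
  0)]⟩,(.r (-1) ⟨2,[(18,0),(0,0),(9,0),(0,0),(15,0)]⟩ ⟨2,[(5,0),(3,0),(1,0),(32,2),(0,0)]⟩),.k,
  ⟨false,0,⟨0,[(44,0)]⟩,⟨3,[(18,1),(26,0),(0,0)]⟩⟩,⟨true,0,⟨0,[(44,0)]⟩,⟨0,[(43,0)]⟩⟩,⟨true,0,⟨0,
  [(48,0)]⟩,⟨0,[]⟩⟩,⟨false,1,⟨1,[(23,0),(0,0),(21,0)]⟩,⟨0,[]⟩⟩,[.o ⟨false,1,⟨2,[(4,1),(1,0),(6,0),
  (9,0),(6,1),(10,0)]⟩,⟨0,[(0,0)]⟩⟩,.e ⟨false,1,⟨1,[(23,0),(0,0),(21,0)]⟩,⟨2,[(5,0),(3,0),(1,0),(33,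
  0)]⟩⟩ ⟨false,1,⟨0,[(46,0)]⟩,⟨0,[(38,0)]⟩⟩,.a ⟨true,0,⟨1,[(4,1),(0,1),(3,1),(30,0),(5,0)]⟩,⟨1,[(24,
  1),(5,0),(0,0)]⟩⟩ ⟨true,0,⟨1,[(30,0),(0,0)]⟩,⟨2,[(5,0),(3,0),(1,0),(33,0)]⟩⟩ ⟨false,1,⟨1,[(30,0),
  (0,0),(14,1)]⟩,⟨2,[(5,0),(3,0),(1,0),(33,0)]⟩⟩,.e ⟨false,1,⟨1,[(23,0),(0,0),(21,0)]⟩,⟨0,[]⟩⟩
  ⟨false,1,⟨0,[(46,0)]⟩,⟨0,[(48,0)]⟩⟩]⟩) (.R ⟨2,false,false,true,[0,1],[1,0,0,0,-1],[0,0,1],(⟨0,[]⟩,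
  ⟨0,[]⟩),(⟨0,[(25,0)]⟩,⟨0,[(26,0)]⟩),⟨0,[]⟩,.k,.k,.k,(.r 0 ⟨21,[(9,2),(1,2),(5,9),(0,2),(10,6),(0,
  6),(7,0)]⟩ ⟨1,[(44,1),(0,0),(0,0)]⟩),.k,.k,⟨true,0,⟨1,[(30,0),(0,0)]⟩,⟨0,[]⟩⟩,⟨false,0,⟨2,[(0,1),
  (10,0),(11,0),(4,0),(15,0)]⟩,⟨1,[(24,1),(16,0),(3,0)]⟩⟩,⟨true,0,⟨0,[(44,0)]⟩,⟨0,[(43,0)]⟩⟩,⟨false,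
  0,⟨0,[(0,0),(43,0)]⟩,⟨9,[(1,1),(16,3),(5,7),(13,1),(2,4),(3,0)]⟩⟩,⟨false,1,⟨1,[(23,0),(0,0),(21,
  0)]⟩,⟨0,[]⟩⟩,⟨false,0,⟨0,[(0,0)]⟩,⟨1,[(23,0),(0,2),(16,0)]⟩⟩,[.a ⟨true,0,⟨2,[(0,1),(10,0),(11,0),
  (4,0),(15,0)]⟩,⟨0,[(24,0)]⟩⟩ ⟨true,0,⟨1,[(30,0),(0,0)]⟩,⟨0,[]⟩⟩ ⟨false,0,⟨2,[(0,1),(10,0),(11,0),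
  (4,0),(15,0)]⟩,⟨1,[(24,1),(16,0),(3,0)]⟩⟩,.e ⟨false,1,⟨1,[(23,0),(0,0),(21,0)]⟩,⟨2,[(5,0),(3,0),
  (1,0),(33,0)]⟩⟩ ⟨false,0,⟨0,[(0,0)]⟩,⟨3,[(23,0),(0,4),(13,1),(2,1),(3,0)]⟩⟩,.o ⟨false,1,⟨1,[(41,
  0),(3,0)]⟩,⟨1,[(30,0),(0,0)]⟩⟩,.fo]⟩))) (.R ⟨0,false,false,false,[0,0,0,0,1],[1,0,-1],[1],(⟨0,
  [(24,0)]⟩,⟨0,[(23,0)]⟩),(⟨0,[(30,0)]⟩,⟨0,[(31,0)]⟩),⟨0,[(0,0)]⟩,.k,.k,(.r 0 ⟨2,[(3,0),(3,0),(1,0),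
  (32,2),(0,0)]⟩ ⟨2,[(16,0),(0,0),(9,0),(0,0),(15,0)]⟩),.k,.k,.k,⟨true,0,⟨0,[(11,0)]⟩,⟨0,[(12,0),
  (15,0),(13,0)]⟩⟩,⟨false,0,⟨2,[(2,2),(0,1),(11,0)]⟩,⟨1,[(22,1),(5,1),(10,0),(3,0)]⟩⟩,⟨false,1,⟨0,
  [(44,0)]⟩,⟨0,[(46,0)]⟩⟩,⟨true,0,⟨0,[(2,0),(39,0)]⟩,⟨2,[(3,1),(3,2),(7,0),(6,2)]⟩⟩,⟨false,0,⟨0,[]⟩,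
  ⟨0,[]⟩⟩,⟨false,0,⟨0,[]⟩,⟨0,[]⟩⟩,[.o ⟨false,0,⟨0,[(12,0),(29,0)]⟩,⟨1,[(26,1),(12,0),(4,0)]⟩⟩,.a
  ⟨true,0,⟨0,[(9,0),(32,0),(1,0)]⟩,⟨0,[(26,0)]⟩⟩ ⟨false,1,⟨1,[(43,0),(0,0)]⟩,⟨0,[(46,0)]⟩⟩ ⟨true,0,
  ⟨0,[(2,0),(39,0)]⟩,⟨0,[(7,0),(3,0),(10,0),(19,0)]⟩⟩,.a ⟨true,0,⟨0,[(22,0)]⟩,⟨0,[(2,0),(23,0),(15,
  0)]⟩⟩ ⟨true,0,⟨0,[]⟩,⟨0,[(46,0)]⟩⟩ ⟨false,0,⟨0,[(2,0),(39,0)]⟩,⟨1,[(22,1),(3,1),(12,0),(4,0)]⟩⟩,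
  .a ⟨true,0,⟨1,[(22,1),(5,0),(0,0)]⟩,⟨1,[(2,1),(0,1),(3,1),(30,0),(5,0)]⟩⟩ ⟨false,1,⟨1,[(43,0),(0,
  0)]⟩,⟨1,[(28,0),(0,0)]⟩⟩ ⟨true,0,⟨2,[(2,2),(0,0),(3,0),(1,0),(32,2),(0,0)]⟩,⟨0,[(7,0),(3,0),(10,
  0),(19,0)]⟩⟩]⟩))) (.Q [0,-2,0,0,1,0,0,0,-1,1,0,-1] (.p false [0,0,0,0,1] [1] (⟨0,[(22,0)]⟩,⟨0,
  [(21,0)]⟩) .k 1 (⟨0,[]⟩,⟨0,[]⟩) .k .k) (.Q [0,0,-1,0,0,0,0,0,-1,1,0,-1] (.p false [0,0,0,0,1] [1]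
  (⟨0,[(23,0)]⟩,⟨0,[(22,0)]⟩) .k 1 (⟨0,[]⟩,⟨0,[]⟩) .k .k) (.Q [0,0,0,0,0,-1,0,0,0,0,0,1] (.ed false
  [1,-1,0,0,1] .k) (.S ⟨1,0,[0,-1,1],[1,1,0,0,-1],[1,0,1,1],(⟨22,[(22,2),(0,2),(0,22),(8,4),(4,5),
  (0,2)]⟩,⟨0,[(0,0)]⟩),⟨0,[(24,0)]⟩,(.r (-1) ⟨2,[(17,0),(0,0),(9,0),(0,0),(15,0)]⟩ ⟨2,[(4,0),(3,0),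
  (1,0),(32,2),(0,0)]⟩),.k,⟨false,0,⟨0,[]⟩,⟨1,[(22,0),(0,0),(21,0)]⟩⟩,⟨true,0,⟨0,[(43,0)]⟩,⟨0,[(42,
  0)]⟩⟩,⟨true,0,⟨0,[(42,0)]⟩,⟨0,[(43,0)]⟩⟩,⟨false,1,⟨1,[(22,0),(0,0),(21,0)]⟩,⟨0,[]⟩⟩,[.o ⟨false,1,
  ⟨4,[(1,1),(0,2),(5,0),(21,0),(9,1),(2,0)]⟩,⟨1,[(3,0),(6,0),(12,0),(16,0)]⟩⟩,.e ⟨false,1,⟨3,[(17,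
  1),(26,0),(0,0)]⟩,⟨2,[(4,0),(3,0),(1,0),(32,2),(0,0)]⟩⟩ ⟨false,1,⟨0,[(45,0)]⟩,⟨0,[(37,0)]⟩⟩,.a
  ⟨true,0,⟨0,[(1,0)]⟩,⟨1,[(23,1),(5,0),(0,0)]⟩⟩ ⟨true,0,⟨9,[(8,5),(2,1),(0,1),(17,3),(8,2),(5,2)]⟩,
  ⟨2,[(4,0),(3,0),(1,0),(32,2),(0,0)]⟩⟩ ⟨false,1,⟨1,[(29,0),(0,0),(14,1)]⟩,⟨2,[(4,0),(3,0),(1,0),
  (33,0)]⟩⟩,.e ⟨false,1,⟨3,[(17,1),(26,0),(0,0)]⟩,⟨0,[(43,0)]⟩⟩ ⟨false,1,⟨0,[(45,0)]⟩,⟨0,[(47,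
  0)]⟩⟩]⟩) (.R ⟨0,false,false,false,[0,1,0,0,-1],[0,0,1,0,-1],[0,0,1,1],(⟨0,[(0,0)]⟩,⟨0,[(25,0),(9,
  0)]⟩),(⟨1,[(0,1),(6,0),(24,0)]⟩,⟨0,[(25,0),(5,0)]⟩),⟨0,[(25,0)]⟩,(.r (-1) ⟨2,[(17,0),(0,0),(9,0),
  (0,0),(15,0)]⟩ ⟨2,[(4,0),(3,0),(1,0),(32,2),(0,0)]⟩),.k,.k,.k,.k,.k,⟨false,0,⟨1,[(10,1),(18,1),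
  (10,0),(3,0)]⟩,⟨2,[(5,1),(12,0)]⟩⟩,⟨true,0,⟨0,[(29,0)]⟩,⟨0,[(15,0)]⟩⟩,⟨true,0,⟨0,[(47,0)]⟩,⟨0,
  []⟩⟩,⟨false,1,⟨0,[(2,0),(0,0)]⟩,⟨0,[(13,0)]⟩⟩,⟨false,0,⟨0,[]⟩,⟨0,[]⟩⟩,⟨false,0,⟨0,[]⟩,⟨0,[]⟩⟩,[.a
  ⟨true,1,⟨1,[(1,1),(10,1),(16,1),(10,0),(4,0)]⟩,⟨0,[(10,0),(12,0),(19,0)]⟩⟩ ⟨true,0,⟨3,[(8,1),(2,
  0),(0,0),(17,0),(8,0),(5,0),(0,0)]⟩,⟨0,[(43,0)]⟩⟩ ⟨false,1,⟨0,[(27,0),(17,0)]⟩,⟨1,[(10,1),(29,0),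
  (2,1),(0,0)]⟩⟩,.o ⟨false,2,⟨0,[(1,0),(10,0),(16,0),(10,0),(4,0)]⟩,⟨1,[(3,0),(6,2),(12,0),(16,0),
  (2,1)]⟩⟩,.o ⟨false,1,⟨0,[(1,0),(38,0)]⟩,⟨1,[(23,1),(5,0),(0,0)]⟩⟩,.o ⟨false,1,⟨4,[(1,3),(0,0),(5,
  1),(21,1),(9,3),(2,1)]⟩,⟨0,[(23,0)]⟩⟩]⟩)) (.Q [0,0,0,0,0,-1,0,0,0,0,0,1] (.ed false [1,-1,0,0,1]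
  .k) (.Q [0,-1,0,1,1,0,0,0,-1,0,0,-1] (.p false [0,0,0,0,1] [] (⟨0,[(25,0)]⟩,⟨0,[(24,0)]⟩) .k 0
  (⟨0,[]⟩,⟨0,[]⟩) .k .k) (.Q [0,0,0,0,0,0,0,0,-1,1,0,-1] (.p false [0,0,0,0,1] [1] (⟨0,[(26,0)]⟩,⟨0,
  [(25,0)]⟩) .k 1 (⟨0,[]⟩,⟨0,[]⟩) .k .k) (.S ⟨1,0,[0,0,1],[1,1,0,0,-1],[0,-1,1],(⟨22,[(24,2),(0,2),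
  (0,22),(8,4),(4,5),(0,2)]⟩,⟨0,[(2,0)]⟩),⟨0,[(26,0)]⟩,(.r (-1) ⟨6,[(3,1),(0,1),(14,2),(0,0),(3,0),
  (0,0),(4,0),(0,0)]⟩ ⟨2,[(6,0),(3,0),(1,0),(32,2),(0,0)]⟩),.k,⟨true,0,⟨0,[(45,0)]⟩,⟨0,[(44,0)]⟩⟩,
  ⟨false,0,⟨0,[(45,0)]⟩,⟨3,[(19,1),(26,0),(0,0)]⟩⟩,⟨false,1,⟨1,[(24,0),(0,0),(21,0)]⟩,⟨0,[]⟩⟩,⟨true,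
  0,⟨0,[(49,0)]⟩,⟨0,[]⟩⟩,[.a ⟨true,0,⟨0,[(0,0)]⟩,⟨0,[(25,0)]⟩⟩ ⟨false,1,⟨1,[(24,0),(0,0),(21,0)]⟩,
  ⟨2,[(6,0),(3,0),(1,0),(33,0)]⟩⟩ ⟨true,0,⟨1,[(31,0),(0,0)]⟩,⟨0,[]⟩⟩,.o ⟨false,1,⟨1,[(0,0),(3,0),
  (37,0)]⟩,⟨1,[(5,0),(6,0),(12,0),(16,0)]⟩⟩,.o ⟨false,1,⟨1,[(0,1),(41,0),(3,0)]⟩,⟨0,[(3,0)]⟩⟩,.e
  ⟨false,1,⟨0,[(47,0)]⟩,⟨0,[(49,0)]⟩⟩ ⟨false,1,⟨1,[(24,0),(0,0),(21,0)]⟩,⟨0,[]⟩⟩]⟩) (.R ⟨1,false,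
  false,true,[0,0,1],[1,0,0,0,-1],[0,1,0,-1,0,0,0,1],(⟨0,[(34,0)]⟩,⟨0,[(33,0)]⟩),(⟨0,[(26,0)]⟩,⟨0,
  [(27,0)]⟩),⟨0,[(23,0)]⟩,.k,.k,.k,.k,(.r 0 ⟨2,[(6,1),(11,0)]⟩ ⟨7,[(15,3),(3,1),(10,3),(0,7),(14,0),
  (0,4)]⟩),.k,⟨false,0,⟨2,[(6,1),(11,0)]⟩,⟨1,[(15,1),(15,1),(14,0),(0,0)]⟩⟩,⟨true,0,⟨0,[(1,0),(10,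
  0),(1,0),(30,1)]⟩,⟨0,[(0,0),(30,0)]⟩⟩,⟨false,0,⟨0,[(45,0)]⟩,⟨3,[(19,1),(26,0),(0,0)]⟩⟩,⟨true,0,⟨0,
  [(1,0),(10,0),(32,1)]⟩,⟨0,[(0,0),(28,0)]⟩⟩,⟨true,0,⟨0,[(49,0)]⟩,⟨0,[]⟩⟩,⟨true,0,⟨0,[(1,0),(10,0),
  (32,0)]⟩,⟨0,[(5,0)]⟩⟩,[.o ⟨false,1,⟨0,[(24,0)]⟩,⟨0,[(0,0)]⟩⟩,.o ⟨false,1,⟨0,[(1,0),(43,0)]⟩,⟨1,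
  [(0,0),(2,0),(35,0)]⟩⟩,.o ⟨false,1,⟨1,[(31,1),(10,0),(3,0)]⟩,⟨0,[(17,0)]⟩⟩,.a ⟨true,0,⟨0,[(31,
  0)]⟩,⟨0,[(28,0)]⟩⟩ ⟨true,0,⟨2,[(6,1),(11,0)]⟩,⟨0,[(15,0),(15,0)]⟩⟩ ⟨false,1,⟨1,[(4,0),(6,0),(5,0),
  (6,0)]⟩,⟨0,[(0,0),(30,0)]⟩⟩]⟩)) (.Q [0,0,0,0,0,0,0,0,1,-1,0,1] (.p true [0,0,0,0,1] [1] (⟨0,[(26,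
  0)]⟩,⟨0,[(25,0)]⟩) .k 1 (⟨0,[]⟩,⟨0,[]⟩) .k .k) (.R ⟨1,false,false,false,[0,0,0,0,1],[1,-1],[1,1],
  (⟨0,[(27,0)]⟩,⟨0,[(26,0)]⟩),(⟨0,[(37,0)]⟩,⟨0,[(38,0)]⟩),⟨0,[(2,0)]⟩,.k,.k,(.r 0 ⟨2,[(6,0),(3,0),
  (1,0),(32,2),(0,0)]⟩ ⟨6,[(3,1),(0,1),(14,2),(0,0),(3,0),(0,0),(4,0),(0,0)]⟩),(.r 0 ⟨21,[(10,2),(1,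
  2),(5,9),(0,2),(10,6),(0,6),(7,0)]⟩ ⟨1,[(45,1),(0,0),(0,0)]⟩),.k,.k,⟨false,0,⟨0,[(44,0)]⟩,⟨1,[(45,
  1),(0,0),(0,0)]⟩⟩,⟨true,0,⟨0,[(4,0),(5,0),(1,0),(1,0),(30,1)]⟩,⟨0,[(0,0)]⟩⟩,⟨true,0,⟨0,[]⟩,⟨0,
  [(49,0)]⟩⟩,⟨false,1,⟨0,[(4,0),(40,0)]⟩,⟨0,[(0,0),(43,0)]⟩⟩,⟨false,1,⟨3,[(19,1),(26,0),(0,0)]⟩,⟨0,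
  [(45,0)]⟩⟩,⟨false,1,⟨0,[(4,0)]⟩,⟨1,[(0,0),(2,0),(35,0)]⟩⟩,[.o ⟨false,0,⟨0,[(45,0)]⟩,⟨13,[(19,5),
  (19,1),(2,6),(0,1),(2,0)]⟩⟩,.a ⟨true,0,⟨0,[(1,0),(2,0)]⟩,⟨0,[(44,0)]⟩⟩ ⟨true,0,⟨0,[]⟩,⟨1,[(31,0),
  (0,0)]⟩⟩ ⟨false,1,⟨2,[(4,2),(1,0),(3,0),(1,0),(32,2),(0,0)]⟩,⟨0,[(0,0),(43,0)]⟩⟩,.o ⟨false,0,⟨0,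
  [(0,0)]⟩,⟨0,[(24,0)]⟩⟩,.o ⟨false,0,⟨0,[(3,0)]⟩,⟨5,[(4,5),(1,3),(3,3),(1,3),(29,2),(3,0)]⟩⟩]⟩) (.R
  ⟨2,true,false,false,[0,1],[0,0,0,0,1],[0,1,1],(⟨0,[]⟩,⟨0,[]⟩),(⟨0,[(27,0)]⟩,⟨0,[(26,0)]⟩),⟨0,[]⟩,
  .k,.k,.k,(.r (-1) ⟨6,[(3,1),(0,1),(14,2),(0,0),(3,0),(0,0),(4,0),(0,0)]⟩ ⟨2,[(6,0),(3,0),(1,0),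
  (32,2),(0,0)]⟩),.k,.k,⟨true,0,⟨1,[(31,0),(0,0)]⟩,⟨0,[]⟩⟩,⟨false,0,⟨0,[(25,0)]⟩,⟨1,[(0,1),(41,0),
  (3,0)]⟩⟩,⟨false,0,⟨0,[(45,0)]⟩,⟨3,[(19,1),(26,0),(0,0)]⟩⟩,⟨true,(-1),⟨0,[(1,0)]⟩,⟨3,[(4,0),(5,0),
  (2,0),(0,0),(9,2),(18,0)]⟩⟩,⟨true,0,⟨0,[(49,0)]⟩,⟨0,[]⟩⟩,⟨false,0,⟨0,[(25,0)]⟩,⟨1,[(0,0),(3,0),
  (37,0)]⟩⟩,[]⟩))) (.Q [0,0,0,0,0,0,0,0,1,-1,0,1] (.p true [0,0,0,0,1] [1] (⟨0,[(25,0)]⟩,⟨0,[(24,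
  0)]⟩) .k 1 (⟨0,[]⟩,⟨0,[]⟩) .k .k) (.R ⟨0,false,false,false,[0,0,0,0,1],[1,-1],[1,1],(⟨0,[(26,0)]⟩,
  ⟨0,[(25,0)]⟩),(⟨0,[(36,0)]⟩,⟨0,[(37,0)]⟩),⟨0,[(1,0)]⟩,.k,.k,(.r 0 ⟨2,[(5,0),(3,0),(1,0),(32,2),(0,
  0)]⟩ ⟨6,[(2,1),(0,1),(14,2),(0,0),(3,0),(0,0),(4,0),(0,0)]⟩),(.r 0 ⟨21,[(9,2),(1,2),(5,9),(0,2),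
  (10,6),(0,6),(7,0)]⟩ ⟨1,[(44,1),(0,0),(0,0)]⟩),.k,.k,⟨false,0,⟨0,[(43,0)]⟩,⟨1,[(44,1),(0,0),(0,
  0)]⟩⟩,⟨true,0,⟨0,[(3,0),(5,0),(1,0),(1,0),(30,1)]⟩,⟨0,[(0,0)]⟩⟩,⟨true,0,⟨0,[]⟩,⟨0,[(48,0)]⟩⟩,
  ⟨false,1,⟨0,[(3,0),(40,0)]⟩,⟨0,[(0,0),(42,0)]⟩⟩,⟨false,0,⟨0,[]⟩,⟨0,[]⟩⟩,⟨false,0,⟨0,[]⟩,⟨0,[]⟩⟩,
  [.o ⟨false,0,⟨0,[(44,0)]⟩,⟨13,[(18,5),(19,1),(2,6),(0,1),(2,0)]⟩⟩,.a ⟨true,0,⟨1,[(40,0),(3,1),(1,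
  0)]⟩,⟨0,[(43,0)]⟩⟩ ⟨true,0,⟨0,[]⟩,⟨1,[(30,0),(0,0)]⟩⟩ ⟨false,1,⟨2,[(3,2),(1,0),(3,0),(1,0),(32,2),
  (0,0)]⟩,⟨0,[(0,0),(42,0)]⟩⟩,.o ⟨false,0,⟨0,[(0,0)]⟩,⟨0,[(23,0)]⟩⟩,.o ⟨false,0,⟨0,[(2,0)]⟩,⟨5,[(3,
  5),(1,3),(3,3),(1,3),(29,2),(3,0)]⟩⟩]⟩) (.R ⟨0,false,false,false,[0,0,0,0,1],[1,-1],[0,2],(⟨0,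
  [(26,0)]⟩,⟨0,[(25,0)]⟩),(⟨0,[(36,0)]⟩,⟨0,[(37,0)]⟩),⟨0,[(1,0)]⟩,.k,.k,(.r 0 ⟨2,[(5,0),(3,0),(1,0),
  (32,2),(0,0)]⟩ ⟨6,[(2,1),(0,1),(14,2),(0,0),(3,0),(0,0),(4,0),(0,0)]⟩),(.r 0 ⟨21,[(9,2),(1,2),(5,
  9),(0,2),(10,6),(0,6),(7,0)]⟩ ⟨1,[(44,1),(0,0),(0,0)]⟩),.k,.k,⟨true,(-1),⟨0,[(9,0),(1,0),(1,0),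
  (30,0)]⟩,⟨0,[(44,0),(1,0)]⟩⟩,⟨false,0,⟨0,[(0,0)]⟩,⟨1,[(24,1),(16,0),(3,0)]⟩⟩,⟨true,0,⟨0,[(48,0)]⟩,
  ⟨0,[]⟩⟩,⟨false,1,⟨0,[(3,0),(40,0)]⟩,⟨0,[(4,0),(7,0)]⟩⟩,⟨false,0,⟨0,[]⟩,⟨0,[]⟩⟩,⟨false,0,⟨0,[]⟩,⟨0,
  []⟩⟩,[.o ⟨false,0,⟨0,[(44,0)]⟩,⟨13,[(18,5),(19,1),(2,6),(0,1),(2,0)]⟩⟩,.e ⟨false,0,⟨2,[(5,0),(3,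
  0),(1,0),(33,0)]⟩,⟨1,[(23,0),(0,0),(21,0)]⟩⟩ ⟨false,1,⟨1,[(0,0),(2,0),(40,1),(0,0)]⟩,⟨0,[(4,0),(7,
  0)]⟩⟩,.a ⟨true,0,⟨0,[(24,0)]⟩,⟨0,[(0,0)]⟩⟩ ⟨false,0,⟨0,[(48,0)]⟩,⟨0,[(46,0)]⟩⟩ ⟨true,0,⟨0,[(0,0),
  (43,0)]⟩,⟨0,[(4,0),(7,0)]⟩⟩,.o ⟨false,0,⟨0,[(2,0)]⟩,⟨1,[(0,1),(40,0),(3,0)]⟩⟩]⟩)))) (.Q [0,2,0,0,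
  -1,0,1,1,1,-1,1,1] (.p true [0,0,1] [1,0,0,0,-1] (⟨0,[(30,0)]⟩,⟨0,[(29,0)]⟩) .k 2 (⟨0,[(22,0)]⟩,
  ⟨0,[(23,0)]⟩) .k (.r 0 ⟨2,[(2,0),(11,1)]⟩ ⟨1,[(11,1),(15,1),(13,1),(0,0),(0,0)]⟩)) (.Q [0,0,0,0,0,
  0,0,0,0,0,-1,1] (.ed false [1,0,-1,0,1] (.r 0 ⟨1,[(9,1),(18,1),(10,0),(2,1),(0,0)]⟩ ⟨2,[(4,0),(12,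
  1)]⟩)) (.Q [0,0,1,0,-1,0,0,0,1,0,0,1] (.p true [0,0,0,0,1] [] (⟨0,[(25,0)]⟩,⟨0,[(24,0)]⟩) .k 0
  (⟨0,[]⟩,⟨0,[]⟩) .k .k) (.S ⟨1,0,[0,0,1],[1,1,0,0,-1],[0,-1,1],(⟨22,[(23,2),(0,2),(0,22),(8,4),(4,
  5),(0,2)]⟩,⟨1,[(1,0),(6,0),(17,0)]⟩),⟨0,[(25,0)]⟩,(.r (-1) ⟨2,[(18,0),(0,0),(9,0),(0,0),(15,0)]⟩
  ⟨2,[(5,0),(3,0),(1,0),(32,2),(0,0)]⟩),.k,⟨true,0,⟨0,[(44,0)]⟩,⟨0,[(43,0)]⟩⟩,⟨false,0,⟨0,[(44,0)]⟩,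
  ⟨3,[(18,1),(26,0),(0,0)]⟩⟩,⟨false,1,⟨1,[(23,0),(0,0),(21,0)]⟩,⟨0,[]⟩⟩,⟨true,0,⟨0,[(48,0)]⟩,⟨0,
  []⟩⟩,[.o ⟨false,1,⟨0,[(23,0)]⟩,⟨0,[(3,0),(42,0)]⟩⟩,.e ⟨false,1,⟨0,[(46,0)]⟩,⟨0,[(38,0)]⟩⟩ ⟨false,
  1,⟨1,[(23,0),(0,0),(21,0)]⟩,⟨2,[(5,0),(3,0),(1,0),(33,0)]⟩⟩,.a ⟨true,1,⟨5,[(6,1),(4,1),(11,5),(6,
  1),(9,1),(1,1),(2,0),(0,0)]⟩,⟨0,[(0,0)]⟩⟩ ⟨false,1,⟨1,[(30,0),(0,0),(14,1)]⟩,⟨2,[(5,0),(3,0),(1,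
  0),(33,0)]⟩⟩ ⟨true,0,⟨1,[(30,0),(0,0)]⟩,⟨2,[(5,0),(3,0),(1,0),(33,0)]⟩⟩,.o ⟨false,1,⟨0,[(23,0)]⟩,
  ⟨0,[(3,0),(42,0)]⟩⟩]⟩) (.S ⟨1,0,[0,2,0,-1],[0,0,0,0,1],[1,1],(⟨0,[(26,0)]⟩,⟨0,[(25,0)]⟩),⟨1,[(1,
  0),(6,0),(17,0)]⟩,.k,(.r 0 ⟨3,[(0,0),(2,0),(1,0),(5,0),(18,0),(13,2),(0,0)]⟩ ⟨2,[(18,0),(0,0),(9,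
  0),(0,0),(15,0)]⟩),⟨true,0,⟨0,[]⟩,⟨0,[(48,0)]⟩⟩,⟨false,0,⟨0,[(44,0)]⟩,⟨3,[(18,1),(26,0),(0,0)]⟩⟩,
  ⟨false,1,⟨3,[(18,1),(26,0),(0,0)]⟩,⟨0,[(44,0)]⟩⟩,⟨true,0,⟨0,[(48,0)]⟩,⟨0,[]⟩⟩,[.o ⟨false,(-1),⟨0,
  [(3,0),(40,0)]⟩,⟨5,[(0,1),(8,1),(2,1),(0,1),(9,3),(16,0),(5,6)]⟩⟩,.a ⟨true,(-1),⟨1,[(3,1),(36,0),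
  (3,1),(1,0)]⟩,⟨4,[(0,2),(6,2),(3,0),(0,1),(10,1),(6,2),(9,1),(5,2)]⟩⟩ ⟨true,0,⟨0,[]⟩,⟨1,[(30,0),
  (0,0)]⟩⟩ ⟨false,0,⟨3,[(0,0),(2,0),(1,0),(5,0),(18,0),(13,2),(0,0)]⟩,⟨3,[(18,1),(26,0),(0,0)]⟩⟩,.o
  ⟨false,0,⟨0,[(3,0),(42,0)]⟩,⟨0,[(23,0)]⟩⟩,.o ⟨false,0,⟨1,[(3,1),(26,0),(0,0),(14,1)]⟩,⟨0,[(0,
  0)]⟩⟩]⟩)) (.Q [0,0,-1,0,0,0,0,0,1,-1,0,1] (.p true [0,0,0,0,1] [1] (⟨0,[(25,0)]⟩,⟨0,[(24,0)]⟩) .k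
  1 (⟨0,[]⟩,⟨0,[]⟩) .k .k) (.S ⟨1,0,[0,-1,0,-1],[1,0,0,0,-1],[1],(⟨0,[(25,0)]⟩,⟨0,[(26,0)]⟩),⟨0,[(1,
  0),(19,0)]⟩,.k,(.r (-1) ⟨1,[(44,1),(0,0),(0,0)]⟩ ⟨21,[(9,2),(1,2),(5,9),(0,2),(10,6),(0,6),(7,
  0)]⟩),⟨false,0,⟨0,[]⟩,⟨1,[(23,0),(0,0),(21,0)]⟩⟩,⟨true,0,⟨0,[(44,0)]⟩,⟨0,[(43,0)]⟩⟩,⟨true,0,⟨0,
  [(43,0)]⟩,⟨0,[(44,0)]⟩⟩,⟨false,1,⟨1,[(23,0),(0,0),(21,0)]⟩,⟨0,[]⟩⟩,[.a ⟨true,1,⟨1,[(23,1),(16,0),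
  (3,1),(1,0)]⟩,⟨3,[(2,2),(0,0),(7,1),(0,0),(27,0),(5,2)]⟩⟩ ⟨true,0,⟨0,[]⟩,⟨1,[(30,0),(0,0)]⟩⟩
  ⟨false,1,⟨1,[(44,1),(0,0),(0,0)]⟩,⟨0,[(43,0)]⟩⟩,.o ⟨false,2,⟨0,[(23,0),(20,0),(1,0)]⟩,⟨1,[(2,0),
  (0,0),(8,0)]⟩⟩,.o ⟨false,1,⟨0,[(23,0)]⟩,⟨0,[(3,0),(42,0)]⟩⟩,.o ⟨false,1,⟨1,[(23,1),(6,0),(0,0)]⟩,
  ⟨0,[(0,0)]⟩⟩]⟩) (.Q [0,0,0,0,0,0,1,0,1,-1,1,1] (.p true [0,0,1] [1,0,0,0,-1] (⟨0,[(33,0)]⟩,⟨0,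
  [(32,0)]⟩) .k 2 (⟨0,[(25,0)]⟩,⟨0,[(26,0)]⟩) .k (.r 0 ⟨2,[(5,0),(11,1)]⟩ ⟨1,[(14,1),(15,1),(13,1),
  (0,0),(0,0)]⟩)) (.K ⟨0,[1,0,0,0,-1],0,1,(⟨0,[(26,0)]⟩,⟨0,[(27,0)]⟩),.k,(.r (-1) ⟨1,[(45,1),(0,0),
  (0,0)]⟩ ⟨21,[(10,2),(1,2),(5,9),(0,2),(10,6),(0,6),(7,0)]⟩),(.r (-1) ⟨2,[(19,0),(0,0),(9,0),(0,0),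
  (15,0)]⟩ ⟨2,[(6,0),(3,0),(1,0),(32,2),(0,0)]⟩),.k,.k,[⟨0,[(0,0)]⟩,⟨0,[(1,0)]⟩,⟨0,[(4,0)]⟩,⟨2,[(24,
  3),(0,0),(9,0),(1,0),(3,0)]⟩]⟩) (.I [0,-1,1,1,0,0,0,1] (.Q [0,-1,0,1,1,0,0,0,0,-1] (.pp true [-1,
  1]) (.R ⟨1,false,false,true,[0,0,1],[1,-1],[0,1,0,-1,0,0,0,1],(⟨0,[(36,0)]⟩,⟨0,[(35,0)]⟩),(⟨0,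
  [(39,0)]⟩,⟨0,[(40,0)]⟩),⟨0,[(25,0)]⟩,.k,.k,.k,.k,.k,.k,⟨false,0,⟨0,[(10,0)]⟩,⟨0,[(17,0),(15,0),
  (13,0),(0,0)]⟩⟩,⟨true,(-1),⟨0,[(1,0),(12,0),(32,1)]⟩,⟨1,[(33,1),(10,0),(3,0)]⟩⟩,⟨false,0,⟨0,[(47,
  0)]⟩,⟨3,[(21,1),(26,0),(0,0)]⟩⟩,⟨true,(-1),⟨0,[(14,0),(32,1)]⟩,⟨0,[(0,0),(30,0)]⟩⟩,⟨true,0,⟨9,[(3,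
  0),(3,0),(12,0),(11,1),(0,0),(7,2)]⟩,⟨0,[]⟩⟩,⟨true,(-1),⟨0,[(14,0),(32,0)]⟩,⟨1,[(31,1),(12,0),(4,
  0)]⟩⟩,[.o ⟨false,0,⟨3,[(3,0),(3,0),(24,0),(8,0),(5,2)]⟩,⟨0,[(0,0)]⟩⟩,.o ⟨false,0,⟨0,[(47,0)]⟩,⟨13,
  [(21,5),(19,1),(2,6),(0,1),(2,0)]⟩⟩,.o ⟨false,1,⟨1,[(33,1),(10,0),(3,0)]⟩,⟨0,[(19,0)]⟩⟩,.a ⟨true,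
  0,⟨0,[(33,0)]⟩,⟨0,[(30,0)]⟩⟩ ⟨true,0,⟨2,[(8,1),(11,0)]⟩,⟨0,[(17,0),(15,0)]⟩⟩ ⟨false,0,⟨3,[(9,1),
  (4,0),(8,0),(8,0),(10,0),(3,0)]⟩,⟨0,[(12,0),(36,0)]⟩⟩]⟩) (.Q [0,0,2,0,-1,0,-1,0,0,0,-1] (.p false
  [0,0,1] [] (⟨0,[(36,0)]⟩,⟨0,[(35,0)]⟩) .k 0 (⟨0,[]⟩,⟨0,[]⟩) .k .k) (.I [0,0,-2,0,2,-2,1] (.R ⟨0,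
  false,false,false,[1,-1,-1],[0,-1,1],[],(⟨0,[(26,0)]⟩,⟨22,[(28,2),(0,2),(8,22),(0,4),(4,5),(0,
  2)]⟩),(⟨0,[(27,0)]⟩,⟨22,[(28,2),(0,2),(7,22),(1,4),(4,5),(0,2)]⟩),⟨2,[(13,1),(24,0),(0,0),(4,2)]⟩,
  .k,.k,(.x 1 ⟨7,[(1,5),(23,0),(12,7),(0,0),(4,4),(0,1),(6,3)]⟩ ⟨0,[(0,0)]⟩),.k,.k,.k,⟨true,0,⟨0,
  [(19,0),(15,0)]⟩,⟨1,[(1,0),(9,0),(21,0)]⟩⟩,⟨false,2,⟨1,[(0,1),(12,0),(21,1),(2,0),(5,1)]⟩,⟨0,[(1,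
  0),(13,0)]⟩⟩,⟨false,0,⟨0,[(3,0)]⟩,⟨0,[(19,0),(15,0),(13,1),(0,0)]⟩⟩,⟨true,1,⟨3,[(3,1),(7,3),(2,5),
  (18,1),(11,0),(5,0)]⟩,⟨0,[(16,0),(2,0),(29,1)]⟩⟩,⟨false,0,⟨0,[]⟩,⟨0,[]⟩⟩,⟨false,0,⟨0,[]⟩,⟨0,[]⟩⟩,
  [.o ⟨false,1,⟨7,[(3,0),(1,0),(3,2),(1,2),(16,1),(4,0),(1,3),(10,2)]⟩,⟨0,[(19,0)]⟩⟩,.a ⟨true,1,⟨2,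
  [(11,1),(12,0),(10,2)]⟩,⟨0,[(16,0)]⟩⟩ ⟨false,1,⟨1,[(50,0),(0,0)]⟩,⟨9,[(5,0),(3,0),(12,0),(11,1),
  (0,0),(7,2)]⟩⟩ ⟨true,2,⟨1,[(11,1),(2,1),(20,1),(14,0),(0,0)]⟩,⟨0,[(1,0),(14,0)]⟩⟩,.e ⟨false,1,⟨1,
  [(28,0),(0,0),(21,0)]⟩,⟨0,[]⟩⟩ ⟨false,2,⟨1,[(11,1),(2,1),(20,1),(14,0),(0,0)]⟩,⟨7,[(1,4),(13,0),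
  (0,5),(2,1),(5,0),(25,2)]⟩⟩,.o ⟨false,(-1),⟨0,[(1,0)]⟩,⟨1,[(0,1),(12,0),(24,0),(5,1)]⟩⟩]⟩) (.R ⟨0,
  false,false,false,[1,-1,-1],[0,-1,1],[],(⟨0,[(26,0)]⟩,⟨22,[(28,2),(0,2),(8,22),(0,4),(4,5),(0,
  2)]⟩),(⟨0,[(27,0)]⟩,⟨22,[(28,2),(0,2),(7,22),(1,4),(4,5),(0,2)]⟩),⟨2,[(13,1),(24,0),(0,0),(4,2)]⟩,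
  .k,.k,(.r (-2) ⟨1,[(34,1),(0,1),(13,3),(0,2),(0,0)]⟩ ⟨5,[(0,5),(2,3),(7,1),(1,1),(0,5),(11,7),(19,
  0),(0,5),(3,2)]⟩),.k,.k,.k,⟨true,0,⟨0,[(19,0),(15,0)]⟩,⟨1,[(1,0),(9,0),(21,0)]⟩⟩,⟨false,2,⟨1,[(35,
  3),(10,0),(3,2)]⟩,⟨0,[(1,0),(13,0)]⟩⟩,⟨false,0,⟨0,[(3,0)]⟩,⟨0,[(19,0),(15,0),(13,1),(0,0)]⟩⟩,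
  ⟨true,1,⟨3,[(3,1),(7,3),(2,5),(18,1),(11,0),(5,0)]⟩,⟨0,[(16,0),(2,0),(29,1)]⟩⟩,⟨false,0,⟨0,[]⟩,⟨0,
  []⟩⟩,⟨false,0,⟨0,[]⟩,⟨0,[]⟩⟩,[.o ⟨false,1,⟨7,[(3,0),(1,0),(3,2),(1,2),(16,1),(4,0),(1,3),(10,2)]⟩,
  ⟨0,[(19,0)]⟩⟩,.a ⟨true,1,⟨2,[(11,1),(12,0),(10,2)]⟩,⟨0,[(16,0)]⟩⟩ ⟨false,1,⟨1,[(50,0),(0,0)]⟩,⟨9,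
  [(5,0),(3,0),(12,0),(11,1),(0,0),(7,2)]⟩⟩ ⟨true,2,⟨1,[(11,1),(2,1),(20,1),(14,0),(0,0)]⟩,⟨0,[(1,
  0),(14,0)]⟩⟩,.e ⟨false,1,⟨1,[(28,0),(0,0),(21,0)]⟩,⟨0,[]⟩⟩ ⟨false,2,⟨1,[(11,1),(2,1),(20,1),(14,
  0),(0,0)]⟩,⟨7,[(1,4),(13,0),(0,5),(2,1),(5,0),(25,2)]⟩⟩,.o ⟨false,(-1),⟨0,[(1,0)]⟩,⟨1,[(35,1),(10,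
  0),(3,2)]⟩⟩]⟩)) (.Q [0,1,2,0,-2,0,-2,-1,0,1,-2] (.p false [0,0,1] [1,0,-1] (⟨0,[(37,0)]⟩,⟨0,[(36,
  0)]⟩) .k 2 (⟨0,[(36,0)]⟩,⟨0,[(37,0)]⟩) .k (.r 0 ⟨0,[(11,1)]⟩ ⟨2,[(0,1),(17,3),(14,1),(0,3),(13,3),
  (1,0)]⟩)) (.R ⟨0,false,false,true,[1,-1,-1],[1,0,0,0,-1],[1],(⟨0,[(26,0)]⟩,⟨31,[(1,1),(3,3),(19,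
  0),(3,3),(8,31),(0,4),(4,8),(0,1)]⟩),(⟨0,[(30,0)]⟩,⟨0,[(31,0)]⟩),⟨2,[(13,1),(24,0),(0,0),(4,2)]⟩,
  .k,.k,(.r (-1) ⟨0,[(1,0),(17,0),(29,2)]⟩ ⟨21,[(0,2),(2,12),(10,4),(7,11),(0,6),(11,0),(9,0)]⟩),
  (.r (-1) ⟨1,[(1,0),(9,0),(22,2),(0,1)]⟩ ⟨0,[(3,0)]⟩),.k,.k,⟨true,0,⟨0,[]⟩,⟨1,[(35,0),(0,0)]⟩⟩,
  ⟨false,2,⟨0,[(1,0),(26,0)]⟩,⟨5,[(0,2),(2,1),(4,4),(2,0),(17,0),(15,0),(5,4)]⟩⟩,⟨false,0,⟨0,[(3,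
  0)]⟩,⟨2,[(1,1),(17,0),(14,1),(0,0),(13,3),(1,0)]⟩⟩,⟨true,1,⟨4,[(1,3),(1,3),(0,1),(0,2),(4,0),(3,
  2),(31,0)]⟩,⟨0,[(8,0),(7,0),(32,1),(1,0)]⟩⟩,⟨false,0,⟨0,[]⟩,⟨0,[]⟩⟩,⟨false,0,⟨0,[]⟩,⟨0,[]⟩⟩,[.o
  ⟨false,1,⟨0,[(28,0)]⟩,⟨0,[(8,0),(42,0)]⟩⟩,.a ⟨true,1,⟨5,[(1,0),(3,2),(22,2),(3,0),(12,0),(5,2)]⟩,
  ⟨3,[(2,0),(4,0),(0,2),(7,0),(28,0),(5,2)]⟩⟩ ⟨false,1,⟨1,[(50,0),(0,0)]⟩,⟨9,[(5,0),(3,0),(12,0),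
  (11,1),(0,0),(7,2)]⟩⟩ ⟨true,2,⟨1,[(1,1),(3,1),(40,0),(4,0)]⟩,⟨0,[(0,0),(6,0),(43,0)]⟩⟩,.a ⟨true,
  (-1),⟨11,[(0,4),(1,1),(0,3),(7,0),(13,0),(19,1),(5,0)]⟩,⟨2,[(1,1),(26,0),(0,0),(5,0)]⟩⟩ ⟨true,0,
  ⟨0,[]⟩,⟨9,[(5,0),(3,0),(12,0),(11,1),(0,0),(7,2)]⟩⟩ ⟨false,2,⟨1,[(1,1),(3,1),(40,0),(4,0)]⟩,⟨5,
  [(0,2),(2,1),(4,4),(2,0),(17,0),(15,0),(5,4)]⟩⟩,.a ⟨true,(-1),⟨7,[(0,5),(2,0),(7,1),(12,2),(10,3),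
  (9,0)]⟩,⟨0,[(1,0)]⟩⟩ ⟨false,1,⟨1,[(50,0),(0,0)]⟩,⟨1,[(35,0),(0,0)]⟩⟩ ⟨true,2,⟨0,[(1,0),(26,0)]⟩,
  ⟨0,[(0,0),(6,0),(43,0)]⟩⟩]⟩) (.R ⟨0,false,false,false,[1,-1,-1],[0,0,1],[1,0,0,0,0,0,0,1],(⟨0,
  [(26,0)]⟩,⟨31,[(1,1),(3,3),(19,0),(3,3),(8,31),(0,4),(4,8),(0,1)]⟩),(⟨0,[(38,0)]⟩,⟨0,[(37,0)]⟩),
  ⟨2,[(13,1),(24,0),(0,0),(4,2)]⟩,.k,.k,(.r (-1) ⟨0,[(1,0),(17,0),(29,2)]⟩ ⟨9,[(3,6),(10,1),(1,1),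
  (5,4),(0,1),(11,1),(0,1)]⟩),(.r (-1) ⟨0,[(1,0),(17,1),(15,0),(13,2)]⟩ ⟨1,[(3,0),(14,1),(3,0)]⟩),
  .k,.k,⟨true,0,⟨0,[]⟩,⟨1,[(35,0),(0,0)]⟩⟩,⟨false,2,⟨2,[(0,0),(0,2),(32,0),(0,1),(10,0)]⟩,⟨0,[(3,0),
  (12,0),(4,0),(27,1)]⟩⟩,⟨false,0,⟨0,[(3,0),(14,0)]⟩,⟨0,[(1,0),(17,1),(15,0),(13,2)]⟩⟩,⟨true,1,⟨1,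
  [(0,0),(2,0),(10,0),(3,0),(14,0)]⟩,⟨0,[(16,0),(2,0),(29,2)]⟩⟩,⟨false,0,⟨0,[]⟩,⟨0,[]⟩⟩,⟨false,0,⟨0,
  []⟩,⟨0,[]⟩⟩,[.o ⟨false,1,⟨19,[(0,3),(2,4),(5,5),(14,0),(3,5),(4,3),(1,1),(10,4)]⟩,⟨0,[(19,0),(29,
  0)]⟩⟩,.e ⟨false,1,⟨35,[(0,5),(2,8),(7,9),(3,11),(8,10),(21,2)]⟩,⟨2,[(1,0),(14,1),(17,0),(0,1),(10,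
  0),(2,1)]⟩⟩ ⟨false,2,⟨0,[(0,0)]⟩,⟨0,[(16,0),(19,0),(12,0)]⟩⟩,.a ⟨true,(-1),⟨0,[(3,0),(12,0),(32,
  1)]⟩,⟨2,[(1,1),(26,0),(0,0),(5,0)]⟩⟩ ⟨true,0,⟨0,[(18,0)]⟩,⟨2,[(1,0),(14,1),(17,0),(0,1),(10,0),(2,
  1)]⟩⟩ ⟨false,2,⟨29,[(0,21),(8,5),(13,1),(0,1),(3,5),(6,9),(10,0),(4,4)]⟩,⟨0,[(3,0),(12,0),(2,0),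
  (29,2)]⟩⟩,.e ⟨false,1,⟨35,[(0,5),(2,8),(7,9),(3,11),(8,10),(21,2)]⟩,⟨0,[(19,0),(15,0),(13,0)]⟩⟩
  ⟨false,2,⟨0,[(0,0)]⟩,⟨1,[(3,1),(12,1),(2,1),(15,0),(0,0),(12,5)]⟩⟩]⟩)))) (.Q [0,-2,0,-1,1,0,-1,-1,
  -1,1,-1,-1] (.p false [0,0,1] [1,0,0,0,-1] (⟨0,[(35,0)]⟩,⟨0,[(34,0)]⟩) .k 2 (⟨0,[(27,0)]⟩,⟨0,[(28,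
  0)]⟩) .k (.r 0 ⟨2,[(7,0),(11,1)]⟩ ⟨4,[(0,2),(15,0),(3,0),(10,0),(0,1),(15,3)]⟩)) (.R ⟨1,false,
  false,true,[1,0,0,0,-1],[0,0,1],[1,1,1],(⟨0,[(28,0)]⟩,⟨0,[(29,0)]⟩),(⟨0,[(36,0)]⟩,⟨0,[(35,0)]⟩),
  ⟨0,[(4,0),(19,0)]⟩,.k,.k,(.r (-1) ⟨12,[(0,0),(0,4),(5,0),(1,4),(11,1),(27,4)]⟩ ⟨21,[(12,2),(1,2),
  (5,9),(0,2),(10,6),(0,6),(7,0)]⟩),.k,(.r (-1) ⟨0,[(1,0),(47,0)]⟩ ⟨0,[(20,0)]⟩),.k,⟨true,0,⟨1,[(0,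
  0),(5,0),(10,0),(15,1)]⟩,⟨0,[(10,0)]⟩⟩,⟨false,1,⟨1,[(1,0),(3,0),(6,0),(14,0),(20,0),(0,1)]⟩,⟨0,
  [(2,0)]⟩⟩,⟨true,(-1),⟨0,[(3,0),(2,0)]⟩,⟨1,[(48,0),(0,0)]⟩⟩,⟨true,(-1),⟨0,[(5,0)]⟩,⟨3,[(0,2),(13,
  0),(6,0),(4,0),(14,0)]⟩⟩,⟨true,(-1),⟨3,[(2,0),(0,0),(1,1),(6,1),(1,1),(19,0)]⟩,⟨12,[(0,0),(0,4),
  (5,0),(1,4),(11,1),(27,4)]⟩⟩,⟨false,0,⟨3,[(5,3),(15,1),(26,0),(0,0)]⟩,⟨0,[(0,0)]⟩⟩,[.e ⟨false,0,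
  ⟨9,[(3,0),(3,0),(12,0),(11,1),(0,0),(7,2)]⟩,⟨1,[(48,0),(0,0)]⟩⟩ ⟨false,0,⟨1,[(5,1),(42,0),(0,0)]⟩,
  ⟨3,[(0,2),(13,0),(6,0),(4,0),(14,0)]⟩⟩,.o ⟨false,1,⟨1,[(31,1),(12,0),(4,0)]⟩,⟨1,[(0,0),(5,0),(10,
  0)]⟩⟩,.o ⟨false,1,⟨0,[(26,0)]⟩,⟨0,[(6,0),(42,0)]⟩⟩,.a ⟨true,0,⟨0,[(3,0)]⟩,⟨5,[(1,1),(3,2),(0,0),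
  (6,1),(1,0),(11,1),(15,0),(5,4)]⟩⟩ ⟨false,0,⟨0,[]⟩,⟨12,[(0,2),(0,1),(5,2),(1,1),(11,5),(27,1)]⟩⟩
  ⟨true,0,⟨1,[(5,1),(42,0),(0,0)]⟩,⟨6,[(0,3),(2,4),(2,1),(5,0),(1,2),(19,0),(9,0)]⟩⟩]⟩) (.Q [0,0,1,
  0,-1,0,-1,0,0,1,-1] (.p false [0,0,1] [1] (⟨0,[(36,0)]⟩,⟨0,[(35,0)]⟩) .k 1 (⟨0,[]⟩,⟨0,[]⟩) .k .k)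
  (.R ⟨1,false,false,true,[1,0,-1],[0,1],[0,0,0,-1,0,0,0,-1],(⟨0,[(36,0)]⟩,⟨0,[(37,0)]⟩),(⟨0,[(41,
  0)]⟩,⟨0,[(40,0)]⟩),⟨0,[(25,0)]⟩,.k,.k,.k,.k,(.r (-1) ⟨5,[(2,7),(7,1),(16,0),(0,0),(21,2)]⟩ ⟨2,[(0,
  1),(12,1),(3,2),(4,1)]⟩),.k,⟨true,1,⟨0,[(2,0),(45,0),(1,0)]⟩,⟨0,[(0,0),(0,0),(1,0),(9,0),(36,
  0)]⟩⟩,⟨false,2,⟨1,[(34,1),(10,0),(3,2)]⟩,⟨0,[(0,0)]⟩⟩,⟨true,0,⟨0,[(48,0)]⟩,⟨0,[(47,0)]⟩⟩,⟨false,1,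
  ⟨3,[(13,1),(3,1),(14,1),(12,0),(0,1),(3,2)]⟩,⟨0,[(0,0),(1,0),(47,0)]⟩⟩,⟨false,1,⟨1,[(27,0),(0,0),
  (21,0)]⟩,⟨0,[]⟩⟩,⟨false,1,⟨0,[(13,0),(3,0),(28,0),(3,0)]⟩,⟨0,[(0,0),(1,0),(45,0),(1,0)]⟩⟩,[.e
  ⟨false,1,⟨1,[(2,1),(24,0),(0,0),(21,0)]⟩,⟨0,[(1,0),(1,0),(46,0)]⟩⟩ ⟨false,1,⟨0,[(13,0),(35,0)]⟩,
  ⟨9,[(0,5),(1,1),(7,1),(13,1),(19,0),(3,3),(1,4)]⟩⟩,.o ⟨false,1,⟨13,[(22,5),(19,1),(2,6),(0,1),(2,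
  0)]⟩,⟨0,[(48,0)]⟩⟩,.o ⟨false,0,⟨0,[(20,0)]⟩,⟨1,[(34,1),(10,0),(3,0)]⟩⟩,.a ⟨true,(-1),⟨0,[(0,0)]⟩,
  ⟨0,[(34,0),(14,0)]⟩⟩ ⟨false,1,⟨0,[(2,0),(47,0)]⟩,⟨2,[(0,0),(12,0),(3,2),(4,0)]⟩⟩ ⟨true,1,⟨0,[(13,
  0),(35,0)]⟩,⟨0,[(0,0),(47,0)]⟩⟩]⟩) (.Q [0,-1,2,1,0,0,-1,0,0,0,-1] (.p false [0,0,1] [] (⟨0,[(37,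
  0)]⟩,⟨0,[(36,0)]⟩) .k 0 (⟨0,[]⟩,⟨0,[]⟩) .k .k) (.Q [0,0,1,0,-1,0,-2,0,0,1,-2] (.p false [0,0,1]
  [1,0,-1] (⟨0,[(38,0)]⟩,⟨0,[(37,0)]⟩) .k 2 (⟨0,[(37,0)]⟩,⟨0,[(38,0)]⟩) .k (.r 0 ⟨0,[(12,1)]⟩ ⟨4,
  [(3,5),(15,1),(3,1),(10,1),(0,3),(15,2)]⟩)) (.R ⟨0,false,false,true,[1,-1,-1],[0,-1,1],[],(⟨0,
  [(27,0)]⟩,⟨21,[(4,2),(20,2),(13,21),(0,3),(4,5),(0,2)]⟩),(⟨0,[(28,0)]⟩,⟨21,[(4,2),(20,2),(12,21),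
  (1,3),(4,5),(0,2)]⟩),⟨2,[(14,1),(24,0),(0,0),(4,2)]⟩,.k,.k,(.r (-1) ⟨5,[(4,7),(7,1),(16,0),(0,0),
  (21,2)]⟩ ⟨1,[(1,0),(1,0),(2,0),(12,0),(4,0)]⟩),.k,.k,.k,⟨false,1,⟨17,[(2,1),(1,9),(13,7),(5,5),
  (11,5),(9,0),(5,10)]⟩,⟨2,[(11,1),(11,0)]⟩⟩,⟨true,1,⟨0,[(2,0),(33,0)]⟩,⟨0,[(0,0)]⟩⟩,⟨true,0,⟨3,[(1,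
  0),(1,0),(2,0),(12,2),(4,0)]⟩,⟨0,[(4,0)]⟩⟩,⟨false,1,⟨0,[(2,0),(16,1),(16,0)]⟩,⟨0,[(17,0),(2,0),
  (29,1),(1,0)]⟩⟩,⟨false,0,⟨0,[]⟩,⟨0,[]⟩⟩,⟨false,0,⟨0,[]⟩,⟨0,[]⟩⟩,[.e ⟨false,1,⟨1,[(29,0),(0,0),(20,
  0)]⟩,⟨0,[]⟩⟩ ⟨false,1,⟨5,[(2,7),(0,1),(2,1),(4,2),(0,0),(23,1),(9,0)]⟩,⟨13,[(0,1),(0,5),(15,7),(8,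
  1),(8,5),(10,0),(5,10)]⟩⟩,.o ⟨false,1,⟨11,[(6,2),(3,2),(1,4),(12,0),(8,2),(1,5),(10,5)]⟩,⟨0,[(20,
  0)]⟩⟩,.o ⟨false,0,⟨0,[(37,0)]⟩,⟨0,[(2,0)]⟩⟩,.a ⟨true,(-1),⟨0,[(0,0),(35,0)]⟩,⟨8,[(2,9),(11,0),(1,
  0),(10,0),(12,2),(5,3),(4,2)]⟩⟩ ⟨false,1,⟨1,[(51,0),(0,0)]⟩,⟨1,[(36,0),(0,0)]⟩⟩ ⟨true,1,⟨5,[(2,7),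
  (0,1),(2,1),(4,2),(0,0),(23,1),(9,0)]⟩,⟨0,[(1,0),(15,0),(32,0)]⟩⟩]⟩) (.Q [0,0,2,0,-1,0,-1,0,0,1,
  -1] (.p false [0,0,1] [1] (⟨0,[(39,0)]⟩,⟨0,[(38,0)]⟩) .k 1 (⟨0,[]⟩,⟨0,[]⟩) .k .k) (.K ⟨0,[1,-1,
  -1],(-1),(-1),(⟨0,[(28,0)]⟩,⟨21,[(5,2),(20,2),(13,21),(0,3),(4,5),(0,2)]⟩),.k,(.r (-1) ⟨5,[(5,7),
  (7,1),(16,0),(0,0),(21,2)]⟩ ⟨1,[(2,0),(1,0),(2,0),(12,0),(4,0)]⟩),.k,(.r (-1) ⟨4,[(5,7),(15,0),(3,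
  0),(10,0),(0,1),(15,3)]⟩ ⟨3,[(2,0),(1,0),(2,0),(12,6),(4,0)]⟩),.k,[⟨0,[(1,0)]⟩,⟨0,[(0,0)]⟩,⟨0,[(3,
  0),(20,0)]⟩,⟨0,[(18,0),(32,1)]⟩]⟩) (.R ⟨0,false,false,true,[1,-1,-1],[0,0,1],[1],(⟨0,[(28,0)]⟩,
  ⟨21,[(5,2),(20,2),(13,21),(0,3),(4,5),(0,2)]⟩),(⟨0,[(40,0)]⟩,⟨0,[(39,0)]⟩),⟨2,[(15,1),(24,0),(0,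
  0),(4,2)]⟩,.k,.k,(.r (-1) ⟨5,[(5,7),(7,1),(16,0),(0,0),(21,2)]⟩ ⟨1,[(2,0),(1,0),(2,0),(12,0),(4,
  0)]⟩),(.r (-1) ⟨4,[(5,7),(15,0),(3,0),(10,0),(0,1),(15,3)]⟩ ⟨3,[(2,0),(1,0),(2,0),(12,6),(4,0)]⟩),
  .k,.k,⟨false,1,⟨11,[(1,1),(3,7),(13,3),(27,0),(4,0),(0,9)]⟩,⟨2,[(12,0),(11,1)]⟩⟩,⟨true,1,⟨0,[(1,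
  0)]⟩,⟨4,[(2,5),(3,1),(3,1),(1,0),(5,0),(4,0),(23,1),(3,4)]⟩⟩,⟨true,0,⟨3,[(2,0),(1,0),(2,0),(12,2),
  (4,0)]⟩,⟨0,[(0,0),(3,0),(1,0),(9,0),(1,1),(32,4),(1,1)]⟩⟩,⟨false,1,⟨15,[(1,11),(2,1),(2,1),(8,5),
  (3,29),(4,3),(21,0),(5,2)]⟩,⟨0,[(18,0),(2,0),(29,2),(1,0)]⟩⟩,⟨false,0,⟨0,[]⟩,⟨0,[]⟩⟩,⟨false,0,⟨0,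
  []⟩,⟨0,[]⟩⟩,[.a ⟨true,0,⟨0,[(35,0)]⟩,⟨0,[(18,0),(32,0),(1,0)]⟩⟩ ⟨true,0,⟨0,[]⟩,⟨1,[(37,0),(0,
  0)]⟩⟩ ⟨false,1,⟨0,[(0,0),(34,0)]⟩,⟨2,[(2,1),(2,0),(12,1),(8,0),(23,2),(1,1)]⟩⟩,.o ⟨false,1,⟨14,
  [(1,2),(11,1),(6,2),(5,3),(8,5),(1,2),(10,5)]⟩,⟨0,[(21,0),(29,0)]⟩⟩,.o ⟨false,0,⟨0,[(38,0)]⟩,⟨0,
  [(3,0)]⟩⟩,.o ⟨false,0,⟨1,[(37,0),(0,2)]⟩,⟨0,[(0,0)]⟩⟩]⟩))) (.Q [0,0,-2,0,1,0,1,0,0,-1,1] (.p true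
  [0,0,1] [1] (⟨0,[(38,0)]⟩,⟨0,[(37,0)]⟩) .k 1 (⟨0,[]⟩,⟨0,[]⟩) .k .k) (.R ⟨0,false,false,true,[1,-1,
  -1],[0,0,1,0,-1],[1,0,0,0,0,0,0,1],(⟨0,[(27,0)]⟩,⟨21,[(4,2),(20,2),(13,21),(0,3),(4,5),(0,2)]⟩),
  (⟨0,[(7,0)]⟩,⟨0,[(32,0),(5,0)]⟩),⟨2,[(14,1),(24,0),(0,0),(4,2)]⟩,.k,.k,(.r (-1) ⟨5,[(4,7),(7,1),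
  (16,0),(0,0),(21,2)]⟩ ⟨1,[(15,1),(2,0),(0,2),(17,0),(8,0),(5,0),(0,0)]⟩),(.r 0 ⟨0,[(1,0),(18,1),
  (15,0),(13,1)]⟩ ⟨0,[(19,0),(5,0)]⟩),.k,.k,⟨true,0,⟨0,[]⟩,⟨1,[(36,0),(0,0)]⟩⟩,⟨false,2,⟨1,[(0,2),
  (5,0),(22,0),(6,0)]⟩,⟨3,[(9,3),(3,1),(3,1),(4,1),(14,3),(8,2),(3,1),(1,4)]⟩⟩,⟨true,0,⟨9,[(15,5),
  (2,1),(0,21),(17,3),(8,2),(5,2)]⟩,⟨0,[(1,0),(18,1),(15,0),(13,1)]⟩⟩,⟨false,2,⟨0,[(0,0),(5,0),(8,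
  0),(3,1),(32,0)]⟩,⟨0,[(9,0),(7,1),(32,2),(1,1)]⟩⟩,⟨false,0,⟨0,[]⟩,⟨0,[]⟩⟩,⟨false,0,⟨0,[]⟩,⟨0,[]⟩⟩,
  [.a ⟨true,1,⟨1,[(0,0),(5,0),(12,1),(9,0),(6,0)]⟩,⟨1,[(9,1),(7,1),(28,0),(3,1),(1,2)]⟩⟩ ⟨true,0,⟨0,
  [(19,0)]⟩,⟨0,[(20,0),(15,0),(13,0)]⟩⟩ ⟨false,2,⟨1,[(0,2),(5,0),(12,1),(9,0),(6,0)]⟩,⟨1,[(9,1),(7,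
  1),(19,1),(8,0),(3,1),(1,2)]⟩⟩,.o ⟨false,2,⟨1,[(0,0),(5,0),(12,1),(9,0),(6,0),(10,0),(4,0)]⟩,⟨0,
  [(9,0),(7,0),(32,0),(1,0)]⟩⟩,.o ⟨false,0,⟨0,[(37,0)]⟩,⟨0,[(2,0)]⟩⟩,.o ⟨false,0,⟨1,[(36,0),(0,2)]⟩,
  ⟨0,[(0,0)]⟩⟩]⟩) (.K ⟨0,[1,-1,-1],(-1),(-1),(⟨0,[(27,0)]⟩,⟨21,[(4,2),(20,2),(13,21),(0,3),(4,5),(0,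
  2)]⟩),.k,(.r (-1) ⟨5,[(4,7),(7,1),(16,0),(0,0),(21,2)]⟩ ⟨17,[(0,7),(2,1),(2,1),(8,9),(2,3),(0,19),
  (4,7),(21,0),(5,2)]⟩),.k,(.r (-1) ⟨4,[(4,7),(15,0),(3,0),(10,0),(0,1),(15,3)]⟩ ⟨35,[(0,7),(2,1),
  (2,1),(8,9),(2,3),(0,73),(4,7),(21,0),(5,2)]⟩),.k,[⟨0,[(1,0),(13,0),(36,0)]⟩,⟨0,[(0,0)]⟩,⟨0,[(2,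
  0),(20,0)]⟩,⟨0,[(17,0),(32,1)]⟩]⟩))))))))) (.Q [0,-2,0,1,1,0,-1,-1,-1,1,-1,-1] (.p false [0,0,1]
  [1,0,0,0,-1] (⟨0,[(31,0)]⟩,⟨0,[(30,0)]⟩) .k 2 (⟨0,[(23,0)]⟩,⟨0,[(24,0)]⟩) .k (.r 0 ⟨2,[(3,0),(11,
  1)]⟩ ⟨1,[(0,1),(0,1),(26,1),(14,0),(0,0)]⟩)) (.Q [0,0,0,0,0,-1,0,0,0,0,0,1] (.ed false [1,-1,0,0,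
  1] .k) (.S ⟨1,0,[0,2,0,-1],[0,0,0,0,1],[1,1],(⟨0,[(26,0)]⟩,⟨0,[(25,0)]⟩),⟨0,[(0,0)]⟩,.k,(.r 0 ⟨2,
  [(5,0),(3,0),(1,0),(32,2),(0,0)]⟩ ⟨5,[(2,1),(1,1),(13,3),(11,0),(0,0)]⟩),⟨true,0,⟨0,[]⟩,⟨0,[(48,
  0)]⟩⟩,⟨false,0,⟨0,[(44,0)]⟩,⟨3,[(18,1),(26,0),(0,0)]⟩⟩,⟨false,1,⟨3,[(18,1),(26,0),(0,0)]⟩,⟨0,[(44,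
  0)]⟩⟩,⟨true,0,⟨0,[(48,0)]⟩,⟨0,[]⟩⟩,[.o ⟨false,(-1),⟨0,[(3,0),(40,0)]⟩,⟨1,[(1,1),(26,1),(12,0),(4,
  0)]⟩⟩,.a ⟨true,(-1),⟨1,[(3,1),(36,0),(3,1),(1,0)]⟩,⟨0,[(1,0),(26,0)]⟩⟩ ⟨true,0,⟨0,[]⟩,⟨1,[(30,0),
  (0,0)]⟩⟩ ⟨false,0,⟨2,[(5,0),(3,0),(1,0),(32,2),(0,0)]⟩,⟨3,[(18,1),(26,0),(0,0)]⟩⟩,.o ⟨false,0,⟨0,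
  [(3,0),(42,0)]⟩,⟨0,[(23,0)]⟩⟩,.o ⟨false,0,⟨1,[(3,1),(26,0),(0,0),(14,1)]⟩,⟨0,[(1,0),(3,0),(3,
  0)]⟩⟩]⟩) (.R ⟨0,false,false,false,[0,0,0,0,1],[1,0,-1,0,1],[1,1],(⟨0,[(26,0)]⟩,⟨0,[(25,0)]⟩),(⟨0,
  [(26,0),(5,0)]⟩,⟨1,[(0,1),(7,0),(24,0)]⟩),⟨0,[(0,0)]⟩,.k,.k,(.r 0 ⟨2,[(5,0),(3,0),(1,0),(32,2),(0,
  0)]⟩ ⟨5,[(2,1),(1,1),(13,3),(11,0),(0,0)]⟩),.k,.k,.k,⟨true,0,⟨0,[(13,0)]⟩,⟨0,[(2,0),(0,0),(26,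
  0)]⟩⟩,⟨false,0,⟨0,[(27,0)]⟩,⟨1,[(30,1),(10,0),(3,0)]⟩⟩,⟨true,0,⟨0,[]⟩,⟨0,[(48,0)]⟩⟩,⟨false,0,⟨0,
  [(11,0),(32,0),(1,0)]⟩,⟨1,[(28,1),(12,0),(4,0)]⟩⟩,⟨false,0,⟨0,[]⟩,⟨0,[]⟩⟩,⟨false,0,⟨0,[]⟩,⟨0,[]⟩⟩,
  [.o ⟨false,(-1),⟨0,[(3,0),(7,0),(32,0),(1,0)]⟩,⟨0,[(2,0),(3,0),(2,1),(3,0)]⟩⟩,.a ⟨true,(-1),⟨1,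
  [(3,1),(7,1),(28,0),(3,1),(1,2)]⟩,⟨0,[(1,0),(3,0),(3,0),(3,0),(16,0)]⟩⟩ ⟨true,0,⟨0,[]⟩,⟨1,[(30,0),
  (0,0)]⟩⟩ ⟨false,0,⟨1,[(11,1),(32,1),(0,0),(0,0)]⟩,⟨1,[(28,1),(12,0),(4,0)]⟩⟩,.o ⟨false,0,⟨0,[(3,
  0),(42,0)]⟩,⟨0,[(23,0)]⟩⟩,.o ⟨false,0,⟨1,[(3,1),(26,0),(0,0),(14,1)]⟩,⟨0,[(1,0),(3,0),(3,
  0)]⟩⟩]⟩)) (.Q [0,0,0,0,0,0,-1,0,-1,1,-1,-1] (.p false [0,0,1] [1,0,0,0,-1] (⟨0,[(32,0)]⟩,⟨0,[(31,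
  0)]⟩) .k 2 (⟨0,[(24,0)]⟩,⟨0,[(25,0)]⟩) .k (.r 0 ⟨2,[(4,0),(11,1)]⟩ ⟨1,[(1,1),(0,1),(26,1),(14,0),
  (0,0)]⟩)) (.R ⟨1,true,false,false,[0,0,1],[1,0,0,0,-1],[0,0,0,-1,0,0,0,1],(⟨0,[(33,0)]⟩,⟨0,[(32,
  0)]⟩),(⟨0,[(25,0)]⟩,⟨0,[(26,0)]⟩),⟨0,[(22,0)]⟩,.k,.k,.k,.k,(.r 0 ⟨2,[(5,1),(11,0)]⟩ ⟨0,[(2,0),(6,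
  0),(14,0)]⟩),.k,⟨false,0,⟨2,[(5,1),(11,0)]⟩,⟨1,[(14,1),(15,1),(14,0),(0,0)]⟩⟩,⟨true,0,⟨0,[(0,0)]⟩,
  ⟨0,[(3,0),(26,0),(15,0)]⟩⟩,⟨true,0,⟨0,[(44,0)]⟩,⟨0,[(43,0)]⟩⟩,⟨false,1,⟨0,[(2,0)]⟩,⟨3,[(1,3),(16,
  1),(26,0),(0,0)]⟩⟩,⟨false,1,⟨1,[(23,0),(0,0),(21,0)]⟩,⟨0,[]⟩⟩,⟨true,1,⟨6,[(2,3),(8,2),(6,1),(4,2),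
  (21,0)]⟩,⟨0,[(1,0)]⟩⟩,[]⟩) (.R ⟨1,false,false,false,[0,0,1],[1,0,0,0,-1],[1,1,1],(⟨0,[(33,0)]⟩,⟨0,
  [(32,0)]⟩),(⟨0,[(25,0)]⟩,⟨0,[(26,0)]⟩),⟨0,[(22,0)]⟩,.k,.k,.k,.k,(.r 0 ⟨2,[(5,1),(11,0)]⟩ ⟨1,[(0,
  0),(1,0),(15,0),(10,0),(0,0)]⟩),.k,⟨true,(-1),⟨0,[(9,0),(1,0),(1,0),(30,1)]⟩,⟨0,[(46,0)]⟩⟩,⟨false,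
  1,⟨0,[(23,0),(3,0)]⟩,⟨0,[(0,0)]⟩⟩,⟨false,0,⟨0,[(2,0),(0,0),(26,0)]⟩,⟨4,[(6,1),(6,2),(4,0),(23,1),
  (3,1)]⟩⟩,⟨false,1,⟨0,[(2,0)]⟩,⟨2,[(0,0),(0,0),(2,0),(14,0),(22,0)]⟩⟩,⟨false,0,⟨0,[(14,0),(15,0)]⟩,
  ⟨2,[(6,1),(12,0)]⟩⟩,⟨true,1,⟨6,[(2,3),(8,2),(6,1),(4,2),(21,0)]⟩,⟨0,[(1,0)]⟩⟩,[.e ⟨false,0,⟨0,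
  [(48,0)]⟩,⟨1,[(45,0),(0,0)]⟩⟩ ⟨false,1,⟨1,[(2,0),(7,0),(2,0),(9,0)]⟩,⟨6,[(0,4),(3,0),(4,0),(14,0),
  (4,0),(0,0),(7,1)]⟩⟩,.o ⟨false,2,⟨0,[(23,0),(22,0)]⟩,⟨0,[(3,0)]⟩⟩,.o ⟨false,1,⟨0,[(0,0),(22,0)]⟩,
  ⟨0,[(16,0)]⟩⟩,.a ⟨true,0,⟨0,[(30,0)]⟩,⟨0,[(27,0)]⟩⟩ ⟨false,0,⟨0,[]⟩,⟨1,[(23,0),(0,0),(21,0)]⟩⟩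
  ⟨true,1,⟨1,[(2,0),(7,0),(2,0),(9,0)]⟩,⟨0,[(3,0),(26,0)]⟩⟩]⟩))))))) (.S ⟨1,0,[0,0,-1,-2,0,0,0,1],
  [0,-1,1],[1,1,-1,-1,0,0,0,1],(⟨0,[(16,0)]⟩,⟨22,[(17,2),(0,2),(7,22),(1,4),(4,5),(0,2)]⟩),⟨0,[(2,
  0)]⟩,.k,(.r (-1) ⟨0,[(7,0),(30,1),(0,0)]⟩ ⟨2,[(0,1),(11,0),(10,0),(0,0),(15,0)]⟩),⟨false,0,⟨0,[]⟩,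
  ⟨1,[(17,0),(0,0),(21,0)]⟩⟩,⟨true,0,⟨0,[(38,0)]⟩,⟨0,[(37,0)]⟩⟩,⟨true,0,⟨0,[(37,0)]⟩,⟨0,[(38,0)]⟩⟩,
  ⟨false,1,⟨1,[(17,0),(0,0),(21,0)]⟩,⟨0,[]⟩⟩,[.o ⟨false,1,⟨1,[(22,1),(12,0),(2,3),(1,0)]⟩,⟨0,[(6,
  0)]⟩⟩,.a ⟨true,1,⟨0,[(22,0),(15,1),(1,0)]⟩,⟨0,[(0,0),(3,0)]⟩⟩ ⟨false,1,⟨0,[(7,0),(30,0),(0,0)]⟩,
  ⟨0,[(8,0),(15,0)]⟩⟩ ⟨true,1,⟨1,[(7,1),(30,3),(0,0),(0,0)]⟩,⟨0,[(0,0)]⟩⟩,.a ⟨true,0,⟨0,[(24,0)]⟩,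
  ⟨0,[(21,0)]⟩⟩ ⟨true,0,⟨0,[(7,0),(28,0),(1,1)]⟩,⟨0,[(8,0),(15,0)]⟩⟩ ⟨false,1,⟨1,[(7,1),(30,3),(0,
  0),(0,0)]⟩,⟨1,[(0,1),(38,0),(0,0)]⟩⟩,.a ⟨true,0,⟨1,[(24,2),(0,0)]⟩,⟨0,[(4,0)]⟩⟩ ⟨false,1,⟨0,[(7,
  0),(30,0),(0,0)]⟩,⟨0,[(0,0),(37,0),(1,0)]⟩⟩ ⟨true,1,⟨0,[(7,0),(30,1),(0,0)]⟩,⟨0,[(0,0)]⟩⟩]⟩))))

theorem ok59 : chk K t59 r36 = true := by decide +kernel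


end Helper25.S1T.Ymp_1cP3
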