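import Pool.Agent.Helper25.S1T.Ymp_1cP3_q

set_option autoImplicit false
set_option linter.all false

namespace Helper25.S1T.Ymp_1cP3

open Helper25.KG Helper25.KW Helper55.KE Helper11.CT

noncomputable def t61 : Tre :=
  (.R ⟨0,false,false,false,[0,-1,1],[1,-1],[],(⟨0,[(13,0)]⟩,⟨4,[(0,1),(13,0),(0,0),(7,2),(1,0),(5,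
  0)]⟩),(⟨0,[(27,0)]⟩,⟨0,[(28,0)]⟩),⟨0,[(0,0)]⟩,.k,.k,(.r (-1) ⟨0,[(4,0),(30,1),(0,0)]⟩ ⟨1,[(1,0),
  (0,0),(2,0),(3,0),(11,0)]⟩),.k,.k,.k,⟨true,0,⟨2,[(1,0),(0,0),(1,0),(4,0)]⟩,⟨0,[(35,0)]⟩⟩,⟨false,0,
  ⟨0,[(18,0)]⟩,⟨1,[(21,1),(10,0),(3,0)]⟩⟩,⟨true,0,⟨0,[(5,0),(15,0)]⟩,⟨0,[(4,0),(28,0),(1,1)]⟩⟩,
  ⟨false,0,⟨0,[(2,0),(32,0),(1,0)]⟩,⟨1,[(19,1),(12,0),(4,0)]⟩⟩,⟨false,0,⟨0,[]⟩,⟨0,[]⟩⟩,⟨false,0,⟨0,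
  []⟩,⟨0,[]⟩⟩,[.o ⟨false,0,⟨0,[(35,0)]⟩,⟨13,[(9,5),(19,1),(2,6),(0,1),(2,0)]⟩⟩,.e ⟨false,1,⟨1,[(36,
  0),(0,0)]⟩,⟨0,[(39,0)]⟩⟩ ⟨false,1,⟨1,[(18,1),(16,1),(0,0),(0,0)]⟩,⟨0,[(1,0),(31,0)]⟩⟩,.a ⟨true,0,
  ⟨0,[(21,0)]⟩,⟨0,[(18,0)]⟩⟩ ⟨false,1,⟨1,[(14,0),(0,0),(21,0)]⟩,⟨0,[]⟩⟩ ⟨true,0,⟨0,[(18,0),(16,0)]⟩,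
  ⟨0,[(1,0),(31,0)]⟩⟩,.o ⟨false,0,⟨0,[(1,0)]⟩,⟨0,[(7,0),(28,0)]⟩⟩]⟩)

theorem ok61 : chk K t61 l37 = true := by decide +kernel

noncomputable def t62 : Tre :=
  (.R ⟨1,false,false,false,[0,0,1],[0,1],[1,1,0,0,0,0,0,1],(⟨0,[(25,0)]⟩,⟨0,[(24,0)]⟩),(⟨0,[(29,
  0)]⟩,⟨0,[(28,0)]⟩),⟨0,[(14,0)]⟩,.k,.k,.k,.k,(.r (-1) ⟨0,[(5,0),(30,1),(0,0)]⟩ ⟨1,[(2,0),(0,0),(2,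
  0),(3,0),(11,0)]⟩),.k,⟨true,0,⟨0,[(5,0),(28,0),(1,1)]⟩,⟨0,[(2,0),(0,0),(34,0)]⟩⟩,⟨false,1,⟨0,[(8,
  0),(28,0)]⟩,⟨0,[(22,0)]⟩⟩,⟨false,0,⟨0,[]⟩,⟨1,[(15,0),(0,0),(21,0)]⟩⟩,⟨true,0,⟨0,[(6,0)]⟩,⟨0,[(20,
  0),(15,0)]⟩⟩,⟨true,0,⟨0,[(35,0)]⟩,⟨0,[(36,0)]⟩⟩,⟨true,0,⟨0,[(4,0)]⟩,⟨0,[(20,0),(15,1)]⟩⟩,[.o
  ⟨false,1,⟨2,[(0,0),(9,0),(19,0),(2,0)]⟩,⟨0,[(36,0)]⟩⟩,.o ⟨false,1,⟨0,[(0,0)]⟩,⟨0,[(36,0),(3,0)]⟩⟩,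
  .o ⟨false,1,⟨1,[(22,1),(10,0),(3,0)]⟩,⟨0,[(8,0)]⟩⟩,.a ⟨true,0,⟨0,[(22,0)]⟩,⟨0,[(19,0)]⟩⟩ ⟨true,0,
  ⟨0,[(5,0),(28,0),(1,0)]⟩,⟨0,[(6,0),(15,0),(13,0)]⟩⟩ ⟨false,1,⟨0,[(0,0),(18,0)]⟩,⟨0,[(22,0),(13,
  0)]⟩⟩]⟩)

theorem ok62 : chk K t62 l38 = true := by decide +kernel

noncomputable def t63 : Tre :=
  (.S ⟨1,0,[0,0,-1,-2,0,0,0,1],[0,-1,1],[1,1,-1,-1,0,0,0,1],(⟨0,[(15,0)]⟩,⟨22,[(16,2),(0,2),(7,22),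
  (1,4),(4,5),(0,2)]⟩),⟨0,[(2,0)]⟩,.k,(.r (-1) ⟨2,[(0,1),(0,1),(4,0),(2,1),(28,2)]⟩ ⟨1,[(3,0),(0,0),
  (2,0),(3,0),(11,0)]⟩),⟨false,0,⟨0,[]⟩,⟨1,[(16,0),(0,0),(21,0)]⟩⟩,⟨true,0,⟨0,[(37,0)]⟩,⟨0,[(36,
  0)]⟩⟩,⟨true,0,⟨0,[(36,0)]⟩,⟨0,[(37,0)]⟩⟩,⟨false,1,⟨1,[(16,0),(0,0),(21,0)]⟩,⟨0,[]⟩⟩,[.o ⟨false,1,
  ⟨0,[(0,0),(40,0)]⟩,⟨0,[(5,0)]⟩⟩,.o ⟨false,1,⟨0,[(0,0)]⟩,⟨1,[(5,0),(2,0),(27,0)]⟩⟩,.a ⟨true,0,⟨0,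
  [(23,0)]⟩,⟨0,[(20,0)]⟩⟩ ⟨true,0,⟨1,[(1,1),(4,1),(27,0),(3,0)]⟩,⟨0,[(7,0),(15,0)]⟩⟩ ⟨false,1,⟨0,
  [(0,0),(19,0)]⟩,⟨0,[(5,0),(17,0)]⟩⟩,.o ⟨false,0,⟨0,[(3,0)]⟩,⟨0,[(9,0),(28,0)]⟩⟩]⟩)

theorem ok63 : chk K t63 l39 = true := by decide +kernel

noncomputable def t64 : Tre :=
  (.Q [0,0,2,0,-1,0,-1,0,0,0,-1] (.p false [0,0,1] [] (⟨0,[(28,0)]⟩,⟨0,[(27,0)]⟩) .k 0 (⟨0,[]⟩,⟨0,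
  []⟩) .k .k) (.R ⟨0,false,false,false,[1,-1,-1],[1,-1],[],(⟨0,[(17,0)]⟩,⟨22,[(19,2),(0,2),(8,22),
  (0,4),(4,5),(0,2)]⟩),(⟨0,[(32,0)]⟩,⟨0,[(33,0)]⟩),⟨2,[(5,1),(23,0),(0,0),(4,2)]⟩,.k,.k,(.r (-1) ⟨1,
  [(1,1),(38,1),(0,0),(0,0)]⟩ ⟨2,[(0,0),(2,0),(2,0),(2,2),(4,1),(9,0)]⟩),.k,.k,.k,⟨true,0,⟨5,[(0,0),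
  (2,0),(2,0),(7,1),(9,0)]⟩,⟨0,[(40,0)]⟩⟩,⟨false,1,⟨0,[(26,0),(14,0)]⟩,⟨0,[(12,0)]⟩⟩,⟨true,0,⟨5,[(0,
  0),(2,0),(2,0),(2,5),(4,1),(9,0)]⟩,⟨0,[(1,0)]⟩⟩,⟨false,1,⟨0,[(24,0),(17,0)]⟩,⟨3,[(0,0),(0,1),(8,
  1),(1,0),(29,0)]⟩⟩,⟨false,0,⟨0,[]⟩,⟨0,[]⟩⟩,⟨false,0,⟨0,[]⟩,⟨0,[]⟩⟩,[.o ⟨false,0,⟨0,[(40,0)]⟩,⟨13,
  [(14,5),(19,1),(2,6),(0,1),(2,0)]⟩⟩,.e ⟨false,1,⟨1,[(41,0),(0,0)]⟩,⟨0,[(44,0)]⟩⟩ ⟨false,2,⟨1,[(1,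
  1),(22,1),(16,0),(0,2)]⟩,⟨0,[(0,0),(37,0)]⟩⟩,.a ⟨true,(-1),⟨35,[(0,21),(1,5),(0,5),(0,11),(18,7),
  (12,4),(5,8)]⟩,⟨0,[(26,0),(14,0)]⟩⟩ ⟨false,1,⟨1,[(19,0),(0,0),(21,0)]⟩,⟨0,[]⟩⟩ ⟨true,1,⟨0,[(1,0),
  (22,0),(17,0)]⟩,⟨0,[(0,0),(37,0)]⟩⟩,.o ⟨false,(-1),⟨0,[(0,0)]⟩,⟨1,[(26,1),(10,0),(3,2)]⟩⟩]⟩) (.Q
  [0,0,1,-1,-1,0,-1,0,0,1,-1] (.p false [0,0,1] [1] (⟨0,[(29,0)]⟩,⟨0,[(28,0)]⟩) .k 1 (⟨0,[]⟩,⟨0,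
  []⟩) .k .k) (.Q [0,0,1,0,-1,0,-1,0,0,1,-1] (.p false [0,0,1] [1] (⟨0,[(30,0)]⟩,⟨0,[(29,0)]⟩) .k 1
  (⟨0,[]⟩,⟨0,[]⟩) .k .k) (.I [1,-1,-1,0,1,0,0,-1] (.R ⟨1,false,false,true,[1,0,-1],[0,1],[1,0,0,0,0,
  0,0,-1],(⟨0,[(31,0)]⟩,⟨0,[(32,0)]⟩),(⟨0,[(36,0)]⟩,⟨0,[(35,0)]⟩),⟨0,[(20,0)]⟩,.k,.k,.k,.k,(.r (-1)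
  ⟨1,[(0,0),(3,0),(38,2),(0,0)]⟩ ⟨10,[(1,1),(4,3),(2,5),(2,12),(3,1),(0,5)]⟩),.k,⟨true,1,⟨0,[(0,0),
  (42,0)]⟩,⟨12,[(1,2),(4,7),(0,3),(1,10),(2,19),(3,0),(23,1)]⟩⟩,⟨false,2,⟨1,[(3,1),(18,0),(0,0),(16,
  0)]⟩,⟨0,[(1,0)]⟩⟩,⟨true,0,⟨0,[]⟩,⟨0,[(47,0)]⟩⟩,⟨false,1,⟨4,[(3,2),(5,2),(1,0),(0,5),(4,0),(22,0),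
  (0,0)]⟩,⟨0,[(0,0),(1,0)]⟩⟩,⟨false,1,⟨3,[(17,1),(26,0),(0,0)]⟩,⟨0,[(43,0)]⟩⟩,⟨false,1,⟨0,[(3,0),(5,
  0),(1,0),(0,1)]⟩,⟨0,[(0,0),(1,0),(40,0)]⟩⟩,[.e ⟨false,1,⟨4,[(0,2),(3,1),(12,0),(4,0),(0,0),(13,
  0)]⟩,⟨0,[(5,0)]⟩⟩ ⟨false,1,⟨2,[(3,1),(5,0),(30,0),(0,0),(0,1)]⟩,⟨1,[(2,1),(41,0),(0,0)]⟩⟩,.o
  ⟨false,1,⟨13,[(17,5),(19,1),(2,6),(0,1),(2,0)]⟩,⟨0,[(43,0)]⟩⟩,.o ⟨false,0,⟨0,[(15,0)]⟩,⟨3,[(3,1),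
  (5,1),(12,0),(0,0),(16,0)]⟩⟩,.a ⟨true,(-1),⟨0,[(1,0)]⟩,⟨2,[(3,1),(18,0),(0,0),(5,0)]⟩⟩ ⟨false,1,
  ⟨0,[(0,0)]⟩,⟨11,[(2,3),(6,1),(2,5),(3,0),(1,2),(8,1),(12,0)]⟩⟩ ⟨true,1,⟨2,[(3,1),(5,0),(30,0),(0,
  0),(0,1)]⟩,⟨0,[(2,0)]⟩⟩]⟩) (.R ⟨1,false,false,true,[1,0,-1],[0,1],[0,0,0,-1,0,0,0,-1],(⟨0,[(31,
  0)]⟩,⟨0,[(32,0)]⟩),(⟨0,[(36,0)]⟩,⟨0,[(35,0)]⟩),⟨0,[(20,0)]⟩,.k,.k,.k,.k,(.r (-1) ⟨1,[(4,1),(38,1),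
  (0,0),(0,0)]⟩ ⟨0,[(0,0),(16,0)]⟩),.k,⟨true,1,⟨0,[(4,0),(38,0),(1,0)]⟩,⟨2,[(0,4),(2,0),(2,0),(2,0),
  (1,0),(5,0),(27,0)]⟩⟩,⟨false,2,⟨1,[(3,1),(18,0),(0,0),(16,0)]⟩,⟨0,[(1,0)]⟩⟩,⟨true,0,⟨0,[(43,0)]⟩,
  ⟨0,[(42,0)]⟩⟩,⟨false,1,⟨4,[(3,2),(5,2),(1,0),(0,5),(4,0),(22,0),(0,0)]⟩,⟨2,[(2,1),(1,1),(5,0),(34,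
  2)]⟩⟩,⟨false,1,⟨1,[(22,0),(0,0),(21,0)]⟩,⟨0,[]⟩⟩,⟨false,1,⟨0,[(3,0),(5,0),(1,0),(0,1)]⟩,⟨0,[(2,0),
  (1,0),(40,0)]⟩⟩,[.e ⟨false,1,⟨1,[(4,1),(17,0),(0,0),(21,0)]⟩,⟨1,[(0,1),(2,0),(7,0),(0,0),(32,
  0)]⟩⟩ ⟨false,1,⟨2,[(3,1),(5,0),(30,0),(0,0),(0,1)]⟩,⟨1,[(2,1),(41,0),(0,0)]⟩⟩,.o ⟨false,1,⟨13,
  [(17,5),(19,1),(2,6),(0,1),(2,0)]⟩,⟨0,[(43,0)]⟩⟩,.o ⟨false,0,⟨0,[(15,0)]⟩,⟨3,[(3,1),(5,1),(12,0),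
  (0,0),(16,0)]⟩⟩,.a ⟨true,(-1),⟨0,[(1,0)]⟩,⟨2,[(3,1),(18,0),(0,0),(5,0)]⟩⟩ ⟨false,1,⟨0,[(4,0),(40,
  0)]⟩,⟨1,[(0,0),(11,0),(4,0)]⟩⟩ ⟨true,1,⟨2,[(3,1),(5,0),(30,0),(0,0),(0,1)]⟩,⟨0,[(2,0)]⟩⟩]⟩)) (.R
  ⟨0,false,false,true,[1,-1,-1],[0,-1,1],[],(⟨0,[(19,0)]⟩,⟨22,[(21,2),(0,2),(8,22),(0,4),(4,5),(0,
  2)]⟩),(⟨0,[(20,0)]⟩,⟨22,[(21,2),(0,2),(7,22),(1,4),(4,5),(0,2)]⟩),⟨2,[(7,1),(23,0),(0,0),(4,2)]⟩,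
  .k,.k,(.r (-1) ⟨1,[(3,1),(38,1),(0,0),(0,0)]⟩ ⟨2,[(5,1),(2,1),(2,2),(5,1)]⟩),.k,.k,.k,⟨false,1,
  ⟨12,[(2,0),(0,6),(6,5),(5,3),(11,4),(15,7)]⟩,⟨1,[(6,1),(4,1),(27,0),(3,0)]⟩⟩,⟨true,1,⟨0,[(2,0),(5,
  0)]⟩,⟨1,[(1,1),(8,0),(0,0),(2,0)]⟩⟩,⟨true,0,⟨2,[(5,0),(2,0),(2,2),(5,0)]⟩,⟨0,[(3,0)]⟩⟩,⟨false,1,
  ⟨0,[(2,0),(5,0),(2,1)]⟩,⟨2,[(1,1),(1,1),(5,0),(2,2),(31,2)]⟩⟩,⟨false,0,⟨0,[]⟩,⟨0,[]⟩⟩,⟨false,0,⟨0,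
  []⟩,⟨0,[]⟩⟩,[.e ⟨false,1,⟨1,[(21,0),(0,0),(20,0)]⟩,⟨0,[]⟩⟩ ⟨false,1,⟨0,[(0,1),(5,0),(4,0)]⟩,⟨10,
  [(1,6),(7,1),(2,7),(3,3),(1,1),(8,0),(16,4)]⟩⟩,.o ⟨false,1,⟨1,[(26,1),(12,0),(2,1),(1,0)]⟩,⟨0,
  [(12,0)]⟩⟩,.o ⟨false,0,⟨0,[(29,0)]⟩,⟨0,[(0,0)]⟩⟩,.a ⟨true,(-1),⟨2,[(1,2),(3,0),(2,0),(8,0)]⟩,⟨0,
  [(2,0)]⟩⟩ ⟨false,1,⟨1,[(43,0),(0,0)]⟩,⟨4,[(1,0),(6,0),(8,0),(9,0),(0,0)]⟩⟩ ⟨true,1,⟨0,[(0,1),(5,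
  0),(4,0)]⟩,⟨3,[(1,3),(6,0),(0,0),(0,1),(1,0),(3,0),(12,0)]⟩⟩]⟩)) (.Q [0,0,1,0,-1,0,-2,0,0,1,-2]
  (.p false [0,0,1] [1,0,-1] (⟨0,[(30,0)]⟩,⟨0,[(29,0)]⟩) .k 2 (⟨0,[(29,0)]⟩,⟨0,[(30,0)]⟩) .k (.r 0
  ⟨0,[(3,1)]⟩ ⟨4,[(2,5),(8,1),(3,1),(10,1),(0,3),(15,2)]⟩)) (.R ⟨0,false,false,true,[1,-1,-1],[0,-1,
  1],[],(⟨0,[(19,0)]⟩,⟨22,[(21,2),(0,2),(8,22),(0,4),(4,5),(0,2)]⟩),(⟨0,[(20,0)]⟩,⟨22,[(21,2),(0,2),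
  (7,22),(1,4),(4,5),(0,2)]⟩),⟨2,[(7,1),(23,0),(0,0),(4,2)]⟩,.k,.k,(.r (-1) ⟨1,[(3,1),(38,1),(0,0),
  (0,0)]⟩ ⟨36,[(0,3),(4,13),(2,21),(2,44),(3,5),(0,19),(21,1)]⟩),.k,.k,.k,⟨false,1,⟨12,[(2,0),(0,6),
  (6,5),(5,3),(11,4),(15,7)]⟩,⟨1,[(6,1),(4,1),(27,0),(3,0)]⟩⟩,⟨true,1,⟨0,[(2,0),(5,0)]⟩,⟨0,[(0,
  0)]⟩⟩,⟨true,0,⟨36,[(0,1),(4,6),(2,10),(2,40),(3,2),(0,9),(21,0)]⟩,⟨0,[(3,0)]⟩⟩,⟨false,1,⟨0,[(2,0),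
  (5,0),(2,1)]⟩,⟨0,[(6,0),(5,1),(29,0),(1,0)]⟩⟩,⟨false,0,⟨0,[]⟩,⟨0,[]⟩⟩,⟨false,0,⟨0,[]⟩,⟨0,[]⟩⟩,[.e
  ⟨false,1,⟨1,[(21,0),(0,0),(20,0)]⟩,⟨0,[]⟩⟩ ⟨false,1,⟨0,[(1,1),(4,0),(4,0),(30,1)]⟩,⟨8,[(0,4),(7,
  0),(0,4),(6,1),(10,3),(16,7)]⟩⟩,.o ⟨false,1,⟨1,[(26,1),(12,0),(2,1),(1,0)]⟩,⟨0,[(12,0)]⟩⟩,.o
  ⟨false,0,⟨0,[(29,0)]⟩,⟨0,[(1,0),(40,0)]⟩⟩,.a ⟨true,(-1),⟨10,[(0,6),(7,3),(20,0),(8,3),(6,5)]⟩,⟨0,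
  [(2,0)]⟩⟩ ⟨false,1,⟨1,[(43,0),(0,0)]⟩,⟨1,[(28,0),(0,0)]⟩⟩ ⟨true,1,⟨0,[(1,1),(4,0),(4,0),(30,1)]⟩,
  ⟨8,[(0,6),(7,4),(0,6),(6,0),(10,1),(16,3)]⟩⟩]⟩) (.K ⟨0,[1,-1,-1],(-1),(-1),(⟨0,[(19,0)]⟩,⟨22,[(21,
  2),(0,2),(8,22),(0,4),(4,5),(0,2)]⟩),.k,(.r (-1) ⟨1,[(3,1),(38,1),(0,0),(0,0)]⟩ ⟨2,[(5,1),(2,1),
  (2,2),(5,1)]⟩),.k,(.r (-1) ⟨4,[(3,7),(8,0),(3,0),(10,0),(0,1),(15,3)]⟩ ⟨2,[(5,0),(2,0),(2,5),(5,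
  0)]⟩),.k,[⟨0,[(0,0)]⟩,⟨4,[(4,2),(1,2),(1,4),(0,2),(4,6),(23,1),(5,2)]⟩,⟨7,[(1,1),(13,0),(0,1),(0,
  0),(8,5),(9,1),(2,2)]⟩,⟨0,[(6,0),(5,0),(29,0)]⟩]⟩))))

theorem ok64 : chk K t64 l41 = true := by decide +kernel

noncomputable def t65 : Tre :=
  (.Q [0,-1,-1,0,2,0,2,1,0,-1,2] (.p true [0,0,1] [1,0,-1] (⟨0,[(29,0)]⟩,⟨0,[(28,0)]⟩) .k 2 (⟨0,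
  [(28,0)]⟩,⟨0,[(29,0)]⟩) .k (.r 0 ⟨0,[(2,1)]⟩ ⟨0,[(10,1),(15,1),(13,1),(0,0)]⟩)) (.Q [0,0,0,0,-1,0,
  -2,0,0,1,-2] (.p false [0,0,1] [1,0,-1] (⟨0,[(30,0)]⟩,⟨0,[(29,0)]⟩) .k 2 (⟨0,[(29,0)]⟩,⟨0,[(30,
  0)]⟩) .k (.r 0 ⟨0,[(3,1)]⟩ ⟨0,[(11,1),(15,1),(13,1),(0,0)]⟩)) (.R ⟨0,false,false,false,[1,-1,-1],
  [0,-1,1],[],(⟨0,[(19,0)]⟩,⟨22,[(21,2),(0,2),(8,22),(0,4),(4,5),(0,2)]⟩),(⟨0,[(20,0)]⟩,⟨22,[(21,2),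
  (0,2),(7,22),(1,4),(4,5),(0,2)]⟩),⟨2,[(7,1),(23,0),(0,0),(4,2)]⟩,.k,.k,(.r (-2) ⟨1,[(27,1),(0,1),
  (13,3),(0,2),(0,0)]⟩ ⟨0,[(2,0)]⟩),.k,.k,.k,⟨true,0,⟨0,[(12,0),(15,0)]⟩,⟨0,[(11,0),(30,0)]⟩⟩,
  ⟨false,2,⟨1,[(28,3),(10,0),(3,2)]⟩,⟨0,[(0,0)]⟩⟩,⟨false,0,⟨0,[(3,0)]⟩,⟨0,[(12,0),(15,0),(13,1),(0,
  0)]⟩⟩,⟨true,1,⟨1,[(1,1),(0,0),(3,1),(4,0),(27,0)]⟩,⟨0,[(6,0),(5,1),(29,0)]⟩⟩,⟨false,0,⟨0,[]⟩,⟨0,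
  []⟩⟩,⟨false,0,⟨0,[]⟩,⟨0,[]⟩⟩,[.o ⟨false,1,⟨10,[(1,3),(6,0),(2,2),(14,3),(2,1),(9,2),(2,10)]⟩,⟨0,
  [(12,0)]⟩⟩,.a ⟨true,1,⟨8,[(1,3),(4,4),(1,0),(2,2),(5,1),(24,5),(1,3)]⟩,⟨0,[(9,0)]⟩⟩ ⟨false,1,⟨1,
  [(43,0),(0,0)]⟩,⟨0,[(46,0)]⟩⟩ ⟨true,2,⟨0,[(1,0),(40,0)]⟩,⟨0,[(0,0),(7,0),(0,0)]⟩⟩,.e ⟨false,1,⟨1,
  [(21,0),(0,0),(21,0)]⟩,⟨0,[]⟩⟩ ⟨false,2,⟨0,[(1,0),(40,0)]⟩,⟨4,[(0,2),(7,1),(0,3),(2,0),(16,0),(14,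
  1)]⟩⟩,.o ⟨false,(-1),⟨0,[(0,0),(7,0)]⟩,⟨1,[(28,1),(10,0),(3,2)]⟩⟩]⟩) (.Q [0,0,-1,0,0,0,-1,0,-1,1,
  -1,-1] (.p false [0,0,1] [1,0,0,0,-1] (⟨0,[(31,0)]⟩,⟨0,[(30,0)]⟩) .k 2 (⟨0,[(23,0)]⟩,⟨0,[(24,
  0)]⟩) .k (.r 0 ⟨2,[(11,1),(14,0),(2,0),(6,0)]⟩ ⟨1,[(0,0),(5,0),(5,0),(14,0),(16,1)]⟩)) (.R ⟨0,
  false,false,true,[1,-1,-1],[1,0,0,0,-1],[0,1],(⟨0,[(20,0)]⟩,⟨22,[(22,2),(0,2),(8,22),(0,4),(4,5),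
  (0,2)]⟩),(⟨0,[(24,0)]⟩,⟨0,[(25,0)]⟩),⟨2,[(8,1),(23,0),(0,0),(4,2)]⟩,.k,.k,(.r (-2) ⟨5,[(1,1),(0,
  1),(4,3),(20,7),(14,7),(0,4),(0,4)]⟩ ⟨0,[(3,0)]⟩),(.r (-1) ⟨2,[(1,0),(0,0),(4,1),(20,3),(14,0),(0,
  0),(0,0)]⟩ ⟨0,[(4,0)]⟩),.k,.k,⟨false,0,⟨3,[(7,1),(32,0),(0,1),(2,0)]⟩,⟨1,[(22,0),(0,0),(21,0)]⟩⟩,
  ⟨true,1,⟨0,[(0,0),(0,0)]⟩,⟨0,[(3,0),(9,0),(9,0),(19,2)]⟩⟩,⟨true,(-1),⟨2,[(3,1),(3,1),(4,0),(27,0),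
  (0,0)]⟩,⟨1,[(1,0),(5,0),(5,0),(14,0),(14,1),(0,0),(0,0)]⟩⟩,⟨false,1,⟨0,[(0,0),(0,0),(2,0)]⟩,⟨0,
  [(13,0),(9,0),(19,1)]⟩⟩,⟨false,0,⟨0,[]⟩,⟨0,[]⟩⟩,⟨false,0,⟨0,[]⟩,⟨0,[]⟩⟩,[.a ⟨true,0,⟨0,[(0,0),(28,
  0)]⟩,⟨0,[(23,0)]⟩⟩ ⟨false,0,⟨3,[(7,1),(32,0),(0,1),(2,0)]⟩,⟨1,[(22,0),(0,0),(21,0)]⟩⟩ ⟨true,1,⟨0,
  [(0,0),(0,0)]⟩,⟨0,[(3,0),(9,0),(9,0),(19,2)]⟩⟩,.e ⟨false,1,⟨9,[(2,3),(16,1),(8,3),(10,0),(4,2)]⟩,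
  ⟨0,[]⟩⟩ ⟨false,2,⟨1,[(0,1),(0,1),(42,0),(0,0)]⟩,⟨1,[(3,0),(3,1),(5,0),(1,0),(7,1),(16,0),(2,0)]⟩⟩,
  .e ⟨true,0,⟨0,[(47,0)]⟩,⟨0,[]⟩⟩ ⟨true,1,⟨0,[(0,0),(0,0)]⟩,⟨1,[(3,0),(3,1),(5,0),(1,0),(7,1),(16,
  0),(2,0)]⟩⟩,.o ⟨false,(-1),⟨0,[(3,0),(9,0),(29,2)]⟩,⟨5,[(1,1),(0,1),(25,1),(11,0),(3,4)]⟩⟩]⟩) (.Q
  [0,1,0,0,-1,0,0,0,1,0,0,1] (.p true [0,0,0,0,1] [] (⟨0,[(25,0)]⟩,⟨0,[(24,0)]⟩) .k 0 (⟨0,[]⟩,⟨0,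
  []⟩) .k .k) (.Q [0,0,0,0,0,0,0,0,0,1,-1,-1] (.ed true [0,0,1,0,1] (.r 0 ⟨2,[(13,1),(14,0),(2,0),
  (6,0)]⟩ ⟨1,[(2,0),(5,0),(5,0),(14,0),(16,1)]⟩)) (.Q [0,2,0,0,-1,0,1,1,1,-1,1,1] (.p true [0,0,1,0,
  1] [1] (⟨0,[(27,0),(6,0)]⟩,⟨0,[(0,0)]⟩) .k 1 (⟨0,[]⟩,⟨0,[]⟩) .k (.r 0 ⟨2,[(14,1),(14,0),(2,0),(6,
  0)]⟩ ⟨1,[(3,0),(5,0),(5,0),(14,0),(16,1)]⟩)) (.Q [0,0,0,0,1,0,1,0,-1,0,1,-1] (.p false [1,0,-1,0,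
  1] [1] (⟨0,[(28,0),(5,0)]⟩,⟨2,[(1,1),(9,4),(15,0),(8,0),(4,2)]⟩) .k 1 (⟨0,[]⟩,⟨0,[]⟩) .k (.r 0 ⟨1,
  [(4,0),(5,0),(5,0),(14,0)]⟩ ⟨3,[(5,0),(9,1),(5,0),(0,0),(23,0),(1,0)]⟩)) (.I [1,-2,-2,-2,2,0,0,
  -1] (.Q [0,0,1,0,-1,0,0,0,1,0,0,1] (.p true [0,0,0,0,1] [] (⟨0,[(30,0)]⟩,⟨0,[(29,0)]⟩) .k 0 (⟨0,
  []⟩,⟨0,[]⟩) .k .k) (.K ⟨0,[0,0,0,0,1],(-1),(-1),(⟨0,[(31,0)]⟩,⟨0,[(30,0)]⟩),.k,(.r 0 ⟨1,[(13,1),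
  (32,0),(3,0)]⟩ ⟨6,[(1,0),(21,3),(0,0),(10,1),(0,1)]⟩),(.r 0 ⟨4,[(15,0),(0,0),(5,1),(0,0),(10,0),
  (0,0),(7,0)]⟩ ⟨1,[(1,0),(9,0)]⟩),.k,.k,[⟨0,[(2,0)]⟩,⟨0,[(0,0)]⟩,⟨0,[(28,0)]⟩,⟨20,[(3,9),(2,0),(6,
  5),(2,4),(5,0),(6,9),(4,5),(8,1)]⟩]⟩) (.Q [0,-2,0,-1,1,0,-1,-1,-1,1,-1,-1] (.p false [0,0,1,0,1]
  [1] (⟨0,[(31,0),(6,0)]⟩,⟨0,[(4,0)]⟩) .k 1 (⟨0,[]⟩,⟨0,[]⟩) .k (.r 0 ⟨2,[(18,1),(14,0),(2,0),(6,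
  0)]⟩ ⟨6,[(1,3),(10,0),(2,2),(0,1),(6,1)]⟩)) (.R ⟨1,true,false,true,[1,0,-1],[0,0,0,0,1],[1,1,0,0,
  0,0,0,-1],(⟨0,[(38,0)]⟩,⟨0,[(39,0)]⟩),(⟨0,[(32,0)]⟩,⟨0,[(31,0)]⟩),⟨0,[(27,0)]⟩,.k,.k,.k,.k,(.r
  (-2) ⟨24,[(2,21),(20,6),(0,5),(10,9),(0,9),(7,3)]⟩ ⟨2,[(1,0),(2,0),(5,1),(3,0),(7,0)]⟩),.k,⟨true,
  1,⟨59,[(0,18),(1,14),(4,18),(0,12),(8,12),(0,6),(5,10),(10,5)]⟩,⟨1,[(10,0),(3,1),(4,0),(27,0)]⟩⟩,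
  ⟨false,1,⟨0,[(7,0),(43,0)]⟩,⟨12,[(0,3),(0,8),(8,4),(3,6),(2,0),(4,6),(10,0)]⟩⟩,⟨false,0,⟨0,[]⟩,
  ⟨26,[(0,0),(1,6),(4,0),(16,2),(0,8),(9,0),(0,0)]⟩⟩,⟨true,(-1),⟨0,[(4,0)]⟩,⟨3,[(0,2),(16,0),(6,0),
  (4,0),(14,0)]⟩⟩,⟨true,0,⟨0,[(49,0)]⟩,⟨0,[(50,0)]⟩⟩,⟨false,0,⟨9,[(4,7),(4,1),(1,0),(6,1),(5,1),(0,
  0),(4,1),(20,0)]⟩,⟨0,[(0,0)]⟩⟩,[]⟩) (.Q [0,0,0,0,0,1,0,0,0,0,0,-1] (.ed true [1,-1,0,0,1] .k) (.R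
  ⟨0,false,false,false,[0,0,0,0,1],[0,1],[1,0,2,1],(⟨0,[(33,0)]⟩,⟨0,[(32,0)]⟩),(⟨0,[(44,0)]⟩,⟨0,
  [(43,0)]⟩),⟨0,[(0,0)]⟩,.k,.k,(.r 0 ⟨1,[(15,1),(32,0),(3,0)]⟩ ⟨6,[(3,0),(21,3),(0,0),(10,1),(0,
  1)]⟩),(.r 0 ⟨1,[(15,1),(32,0),(3,0)]⟩ ⟨6,[(3,0),(21,3),(0,0),(10,1),(0,1)]⟩),.k,.k,⟨false,0,⟨0,
  []⟩,⟨5,[(3,0),(6,0),(14,0),(1,0),(17,1),(6,0)]⟩⟩,⟨true,1,⟨0,[(2,0)]⟩,⟨4,[(7,4),(3,0),(3,2),(1,2),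
  (3,0),(16,1),(14,3)]⟩⟩,⟨true,0,⟨21,[(11,5),(5,11),(0,5),(6,1),(12,5),(8,2),(5,12)]⟩,⟨7,[(2,1),(2,
  1),(9,9),(2,1),(29,4),(3,6)]⟩⟩,⟨false,2,⟨7,[(2,3),(1,0),(6,0),(7,0),(5,1),(4,2),(22,6)]⟩,⟨0,[(7,
  0),(43,0)]⟩⟩,⟨false,0,⟨0,[]⟩,⟨0,[]⟩⟩,⟨false,0,⟨0,[]⟩,⟨0,[]⟩⟩,[.o ⟨false,1,⟨13,[(25,5),(19,1),(2,
  6),(0,1),(2,0)]⟩,⟨0,[(51,0)]⟩⟩,.a ⟨true,1,⟨3,[(25,1),(26,0),(0,0)]⟩,⟨0,[(15,0)]⟩⟩ ⟨true,0,⟨21,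
  [(11,5),(5,11),(0,5),(6,1),(12,5),(8,2),(5,12)]⟩,⟨1,[(15,1),(32,0),(3,0)]⟩⟩ ⟨false,2,⟨3,[(2,3),
  (22,1),(26,0),(0,0)]⟩,⟨0,[(7,0),(43,0)]⟩⟩,.o ⟨false,0,⟨1,[(7,1),(40,0),(4,0)]⟩,⟨0,[(30,0)]⟩⟩,.o
  ⟨false,0,⟨0,[(8,0),(14,0)]⟩,⟨0,[(2,0)]⟩⟩]⟩) (.S ⟨1,0,[0,-1,1],[1,1,0,0,-1],[1,0,1,1],(⟨73,[(3,2),
  (11,8),(9,5),(0,2),(5,73),(8,10),(3,2),(0,20),(0,5)]⟩,⟨0,[(0,0)]⟩),⟨0,[(32,0)]⟩,(.r (-1) ⟨6,[(3,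
  0),(21,3),(0,0),(10,1),(0,1)]⟩ ⟨1,[(15,1),(32,0),(3,0)]⟩),.k,⟨false,0,⟨0,[]⟩,⟨13,[(3,3),(21,1),(0,
  3),(10,0),(0,0)]⟩⟩,⟨true,0,⟨0,[(51,0)]⟩,⟨0,[(50,0)]⟩⟩,⟨true,0,⟨0,[(50,0)]⟩,⟨0,[(51,0)]⟩⟩,⟨false,1,
  ⟨13,[(3,3),(21,1),(0,3),(10,0),(0,0)]⟩,⟨0,[]⟩⟩,[.a ⟨true,1,⟨17,[(2,1),(1,0),(6,0),(3,2),(2,0),(11,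
  14),(10,1),(1,1),(3,5),(5,10)]⟩,⟨0,[(7,0)]⟩⟩ ⟨true,0,⟨60,[(11,4),(5,12),(0,10),(5,5),(0,16),(12,
  1),(8,0)]⟩,⟨0,[(51,0)]⟩⟩ ⟨false,1,⟨13,[(3,3),(21,1),(0,3),(10,0),(0,0)]⟩,⟨7,[(2,1),(2,1),(9,1),(2,
  1),(29,0),(3,2)]⟩⟩,.e ⟨false,1,⟨3,[(25,1),(26,0),(0,0)]⟩,⟨1,[(15,1),(32,0),(3,0)]⟩⟩ ⟨false,1,⟨0,
  [(53,0)]⟩,⟨0,[(45,0)]⟩⟩,.o ⟨false,1,⟨0,[(2,0)]⟩,⟨0,[(8,0),(14,0)]⟩⟩,.o ⟨false,1,⟨0,[(30,0)]⟩,⟨1,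
  [(7,1),(40,0),(4,0)]⟩⟩]⟩)))) (.Q [0,0,1,0,0,0,0,1,-1,0,0,-1] (.p false [0,0,0,0,1] [] (⟨0,[(30,
  0)]⟩,⟨0,[(29,0)]⟩) .k 0 (⟨0,[]⟩,⟨0,[]⟩) .k .k) (.R ⟨0,false,false,false,[1,-1,-1],[1,0,-1,0,1],[1,
  1,1],(⟨0,[(26,0)]⟩,⟨55,[(2,5),(22,2),(3,5),(8,55),(0,10),(4,14),(0,5)]⟩),(⟨0,[(31,0),(5,0)]⟩,⟨2,
  [(4,1),(9,4),(15,0),(8,0),(4,2)]⟩),⟨2,[(14,1),(23,0),(0,0),(4,2)]⟩,.k,.k,(.r (-2) ⟨5,[(7,1),(0,1),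
  (4,3),(20,7),(14,7),(0,4),(0,4)]⟩ ⟨0,[(9,0)]⟩),(.r (-1) ⟨1,[(49,1),(0,0),(0,0)]⟩ ⟨24,[(1,2),(20,
  6),(0,5),(10,9),(0,9),(7,3)]⟩),.k,.k,⟨false,0,⟨0,[(18,0)]⟩,⟨1,[(7,0),(5,0),(5,0),(14,0),(15,0),(0,
  0)]⟩⟩,⟨true,0,⟨1,[(5,1),(44,0),(0,0)]⟩,⟨2,[(0,1),(12,1),(1,1),(3,1),(8,0),(22,0)]⟩⟩,⟨false,(-1),
  ⟨0,[(9,0),(39,0)]⟩,⟨1,[(7,0),(5,0),(5,0),(14,0),(14,1),(0,1),(0,1)]⟩⟩,⟨true,(-1),⟨1,[(3,0),(1,0),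
  (6,0),(38,0)]⟩,⟨0,[(28,0),(20,0)]⟩⟩,⟨false,0,⟨0,[]⟩,⟨0,[]⟩⟩,⟨false,0,⟨0,[]⟩,⟨0,[]⟩⟩,[.o ⟨false,
  (-1),⟨0,[(5,0),(13,0),(29,0)]⟩,⟨3,[(0,1),(7,1),(19,1),(17,0),(4,0)]⟩⟩,.e ⟨false,0,⟨0,[]⟩,⟨9,[(8,
  3),(16,1),(8,3),(10,0),(4,2)]⟩⟩ ⟨false,1,⟨1,[(6,1),(6,1),(5,1),(30,2),(0,0)]⟩,⟨0,[(0,0)]⟩⟩,.a
  ⟨true,(-1),⟨1,[(9,0),(3,1),(5,0),(1,0),(27,0),(1,0)]⟩,⟨5,[(2,1),(4,1),(21,1),(15,0),(4,2)]⟩⟩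
  ⟨false,0,⟨1,[(35,0),(0,0)]⟩,⟨1,[(50,0),(0,0)]⟩⟩ ⟨true,0,⟨0,[(6,0),(6,0),(5,0),(30,0)]⟩,⟨0,[(0,
  0)]⟩⟩,.o ⟨false,(-1),⟨0,[(9,0),(9,0),(29,2)]⟩,⟨5,[(7,1),(0,1),(25,1),(11,0),(3,4)]⟩⟩]⟩) (.K ⟨0,[0,
  0,0,0,1],(-1),(-1),(⟨0,[(31,0)]⟩,⟨0,[(30,0)]⟩),.k,(.r 0 ⟨1,[(13,1),(32,0),(3,0)]⟩ ⟨2,[(23,0),(0,
  0),(9,0),(0,0),(15,0)]⟩),(.r 0 ⟨24,[(1,2),(20,6),(0,5),(10,9),(0,9),(7,3)]⟩ ⟨1,[(49,1),(0,0),(0,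
  0)]⟩),.k,.k,[⟨0,[(2,0)]⟩,⟨0,[(0,0),(8,0),(39,1)]⟩,⟨0,[(28,0)]⟩,⟨20,[(1,0),(1,8),(2,0),(6,5),(2,3),
  (12,10),(4,5),(8,2)]⟩]⟩))) (.Q [0,0,0,0,0,1,0,0,0,0,0,-1] (.ed true [1,-1,0,0,1] .k) (.R ⟨0,false,
  false,false,[0,1,0,0,-1],[0,1],[0,1],(⟨0,[(0,0)]⟩,⟨0,[(30,0),(9,0)]⟩),(⟨0,[(41,0)]⟩,⟨0,[(40,0)]⟩),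
  ⟨0,[(30,0)]⟩,(.r (-1) ⟨2,[(22,0),(0,0),(9,0),(0,0),(15,0)]⟩ ⟨1,[(12,1),(32,0),(3,0)]⟩),.k,.k,.k,
  .k,.k,⟨true,0,⟨1,[(12,1),(32,0),(3,0)]⟩,⟨21,[(8,5),(5,11),(0,5),(6,1),(12,5),(8,2),(5,12)]⟩⟩,
  ⟨false,0,⟨3,[(1,1),(3,1),(38,0),(4,2)]⟩,⟨0,[(27,0)]⟩⟩,⟨false,0,⟨1,[(12,1),(32,0),(3,0)]⟩,⟨21,[(8,
  1),(5,3),(0,1),(6,7),(12,1),(8,0),(5,18)]⟩⟩,⟨true,(-1),⟨0,[(4,0)]⟩,⟨0,[(27,0)]⟩⟩,⟨false,0,⟨0,[]⟩,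
  ⟨0,[]⟩⟩,⟨false,0,⟨0,[]⟩,⟨0,[]⟩⟩,[.o ⟨false,1,⟨13,[(22,5),(19,1),(2,6),(0,1),(2,0)]⟩,⟨0,[(48,0)]⟩⟩,
  .e ⟨false,1,⟨9,[(7,3),(16,1),(8,3),(10,0),(4,2)]⟩,⟨0,[]⟩⟩ ⟨false,0,⟨35,[(1,25),(3,9),(0,1),(0,13),
  (0,1),(2,15),(32,4),(5,18)]⟩,⟨1,[(12,1),(14,1),(17,0),(3,0)]⟩⟩,.o ⟨false,2,⟨1,[(27,1),(17,0),(3,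
  0)]⟩,⟨0,[(1,0),(32,0)]⟩⟩,.a ⟨true,1,⟨0,[(27,0)]⟩,⟨7,[(1,1),(2,5),(1,0),(6,0),(11,0),(12,2),(5,3),
  (5,2)]⟩⟩ ⟨true,0,⟨3,[(12,1),(32,0),(0,1),(2,0)]⟩,⟨1,[(34,0),(0,0)]⟩⟩ ⟨false,0,⟨35,[(1,25),(3,9),
  (0,1),(0,13),(0,1),(2,15),(32,4),(5,18)]⟩,⟨0,[(27,0),(20,0)]⟩⟩]⟩) (.S ⟨1,0,[0,0,1],[1,1,0,0,-1],
  [0,-1,1],(⟨22,[(27,2),(0,2),(0,22),(8,4),(4,5),(0,2)]⟩,⟨0,[(0,0)]⟩),⟨0,[(29,0)]⟩,(.r (-1) ⟨2,[(22,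
  0),(0,0),(9,0),(0,0),(15,0)]⟩ ⟨1,[(12,1),(32,0),(3,0)]⟩),.k,⟨true,0,⟨0,[(48,0)]⟩,⟨0,[(47,0)]⟩⟩,
  ⟨false,0,⟨0,[(48,0)]⟩,⟨3,[(22,1),(26,0),(0,0)]⟩⟩,⟨false,1,⟨1,[(27,0),(0,0),(21,0)]⟩,⟨0,[]⟩⟩,⟨true,
  0,⟨0,[(52,0)]⟩,⟨0,[]⟩⟩,[.o ⟨false,1,⟨0,[(27,0)]⟩,⟨3,[(1,1),(3,1),(39,0),(3,0)]⟩⟩,.e ⟨false,1,⟨0,
  [(50,0)]⟩,⟨0,[(42,0)]⟩⟩ ⟨false,1,⟨1,[(27,0),(0,0),(21,0)]⟩,⟨3,[(12,1),(32,0),(0,1),(2,0)]⟩⟩,.a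
  ⟨true,1,⟨2,[(12,0),(14,2),(16,0),(1,0),(2,0),(0,0)]⟩,⟨0,[(1,0),(32,0)]⟩⟩ ⟨false,1,⟨1,[(34,0),(0,
  0),(14,1)]⟩,⟨3,[(12,1),(32,0),(0,1),(2,0)]⟩⟩ ⟨true,0,⟨1,[(34,0),(0,0)]⟩,⟨3,[(12,1),(32,0),(0,1),
  (2,0)]⟩⟩,.o ⟨false,1,⟨0,[(27,0)]⟩,⟨3,[(1,1),(3,1),(39,0),(3,0)]⟩⟩]⟩))) (.Q [0,0,0,0,0,1,0,0,0,-1,
  1,1] (.p true [0,0,1,0,1] [1] (⟨0,[(28,0),(6,0)]⟩,⟨0,[(1,0)]⟩) .k 1 (⟨0,[]⟩,⟨0,[]⟩) .k (.r 0 ⟨2,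
  [(15,1),(14,0),(2,0),(6,0)]⟩ ⟨3,[(0,2),(1,0),(0,1),(0,0),(26,0),(15,0)]⟩)) (.R ⟨0,false,false,
  true,[1,0,-1,0,-1],[0,1],[1,0,1],(⟨0,[(2,0)]⟩,⟨0,[(29,0),(6,0)]⟩),(⟨0,[(40,0)]⟩,⟨0,[(39,0)]⟩),⟨0,
  [(0,0)]⟩,.k,.k,(.r (-2) ⟨2,[(1,1),(3,0),(0,0),(20,1),(4,1),(14,2),(0,0)]⟩ ⟨2,[(7,1),(3,1),(4,0),
  (27,0),(0,0)]⟩),(.r (-2) ⟨2,[(1,1),(3,0),(0,0),(20,1),(4,1),(14,2),(0,0)]⟩ ⟨2,[(7,1),(3,1),(4,0),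
  (27,0),(0,0)]⟩),.k,.k,⟨false,1,⟨1,[(47,1),(0,0),(0,0)]⟩,⟨0,[(46,0)]⟩⟩,⟨true,1,⟨0,[(4,0),(43,0)]⟩,
  ⟨0,[(1,0),(5,0),(3,1),(32,0)]⟩⟩,⟨true,(-1),⟨1,[(7,0),(3,1),(4,0),(27,0)]⟩,⟨1,[(1,0),(1,0),(1,0),
  (26,0),(15,0)]⟩⟩,⟨false,0,⟨3,[(3,3),(2,1),(0,0),(12,0),(23,0),(0,0)]⟩,⟨0,[(1,0),(45,0)]⟩⟩,⟨false,
  0,⟨0,[]⟩,⟨0,[]⟩⟩,⟨false,0,⟨0,[]⟩,⟨0,[]⟩⟩,[.a ⟨true,0,⟨0,[(46,0)]⟩,⟨0,[(11,0),(37,0)]⟩⟩ ⟨false,0,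
  ⟨0,[]⟩,⟨12,[(1,1),(4,3),(16,1),(3,1),(4,1),(8,2),(6,2)]⟩⟩ ⟨true,0,⟨0,[(4,0),(40,0)]⟩,⟨1,[(1,1),(5,
  0),(3,1),(4,0),(27,0),(2,1)]⟩⟩,.o ⟨false,1,⟨13,[(21,5),(19,1),(2,6),(0,1),(2,0)]⟩,⟨0,[(47,0)]⟩⟩,
  .e ⟨true,0,⟨1,[(33,0),(0,0)]⟩,⟨3,[(11,1),(32,0),(0,1),(2,0)]⟩⟩ ⟨true,0,⟨0,[(4,0),(40,0)]⟩,⟨5,[(1,
  5),(5,0),(3,9),(4,4),(27,4),(0,1)]⟩⟩,.o ⟨false,0,⟨2,[(1,2),(5,1),(3,4),(4,0),(27,3),(0,0)]⟩,⟨0,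
  [(4,0),(43,0)]⟩⟩]⟩) (.Q [0,-2,0,1,1,0,-1,-1,-1,1,-1,-1] (.p false [0,0,1,0,1] [1] (⟨0,[(29,0),(6,
  0)]⟩,⟨0,[(2,0)]⟩) .k 1 (⟨0,[]⟩,⟨0,[]⟩) .k (.r 0 ⟨2,[(16,1),(14,0),(2,0),(6,0)]⟩ ⟨3,[(1,2),(1,0),
  (0,1),(0,0),(26,0),(15,0)]⟩)) (.Q [0,0,-1,0,1,0,0,0,-1,0,0,-1] (.p false [0,0,0,0,1] [] (⟨0,[(30,
  0)]⟩,⟨0,[(29,0)]⟩) .k 0 (⟨0,[]⟩,⟨0,[]⟩) .k .k) (.R ⟨0,false,false,false,[0,0,0,0,1],[0,1],[1,0,2,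
  1],(⟨0,[(31,0)]⟩,⟨0,[(30,0)]⟩),(⟨0,[(42,0)]⟩,⟨0,[(41,0)]⟩),⟨8,[(2,6),(11,6),(15,1),(8,2),(4,8)]⟩,
  .k,.k,(.r 0 ⟨1,[(13,1),(32,0),(3,0)]⟩ ⟨16,[(3,3),(2,2),(0,0),(15,4),(0,6),(4,0),(4,2),(0,1)]⟩),
  (.r 0 ⟨1,[(13,1),(32,0),(3,0)]⟩ ⟨16,[(3,3),(2,2),(0,0),(15,4),(0,6),(4,0),(4,2),(0,1)]⟩),.k,.k,
  ⟨false,0,⟨0,[]⟩,⟨12,[(3,1),(4,3),(16,1),(3,1),(4,1),(8,2),(6,2)]⟩⟩,⟨true,1,⟨0,[(0,0)]⟩,⟨4,[(3,0),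
  (1,5),(3,0),(3,1),(1,2),(20,1),(14,2)]⟩⟩,⟨true,0,⟨40,[(3,18),(2,18),(2,17),(5,7),(7,1),(0,0),(11,
  7),(8,3)]⟩,⟨3,[(13,5),(32,2),(0,1),(2,2)]⟩⟩,⟨false,2,⟨5,[(1,3),(6,1),(1,0),(13,0),(3,1),(17,0)]⟩,
  ⟨0,[(5,0),(43,0)]⟩⟩,⟨false,0,⟨0,[]⟩,⟨0,[]⟩⟩,⟨false,0,⟨0,[]⟩,⟨0,[]⟩⟩,[.o ⟨false,1,⟨13,[(23,5),(19,
  1),(2,6),(0,1),(2,0)]⟩,⟨0,[(49,0)]⟩⟩,.a ⟨true,1,⟨3,[(23,1),(26,0),(0,0)]⟩,⟨0,[(13,0)]⟩⟩ ⟨true,0,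
  ⟨40,[(3,18),(2,18),(2,17),(5,7),(7,1),(0,0),(11,7),(8,3)]⟩,⟨1,[(13,1),(32,0),(3,0)]⟩⟩ ⟨false,2,
  ⟨17,[(0,13),(0,3),(6,1),(14,5),(0,1),(21,0),(3,4)]⟩,⟨0,[(5,0),(43,0)]⟩⟩,.o ⟨false,0,⟨1,[(5,1),(40,
  0),(4,0)]⟩,⟨0,[(28,0)]⟩⟩,.o ⟨false,0,⟨0,[(6,0),(14,0)]⟩,⟨0,[(0,0)]⟩⟩]⟩) (.K ⟨0,[0,0,0,0,1],(-1),
  (-1),(⟨0,[(31,0)]⟩,⟨0,[(30,0)]⟩),.k,(.r 0 ⟨1,[(13,1),(32,0),(3,0)]⟩ ⟨16,[(3,3),(2,2),(0,0),(15,4),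
  (0,6),(4,0),(4,2),(0,1)]⟩),(.r 0 ⟨4,[(15,0),(0,0),(5,1),(0,0),(10,0),(0,0),(7,0)]⟩ ⟨1,[(49,1),(0,
  0),(0,0)]⟩),.k,.k,[⟨2,[(3,2),(3,2),(1,0),(3,3),(4,1),(27,1),(0,1)]⟩,⟨0,[(0,0)]⟩,⟨0,[(28,0)]⟩,⟨5,
  [(5,4),(0,0),(6,0),(8,0),(11,0),(8,1)]⟩]⟩)) (.R ⟨1,true,false,false,[0,0,1],[1,0,0,0,-1],[0,0,0,
  -1,0,0,0,1],(⟨0,[(37,0)]⟩,⟨0,[(36,0)]⟩),(⟨0,[(29,0)]⟩,⟨0,[(30,0)]⟩),⟨0,[(26,0)]⟩,.k,.k,.k,.k,(.r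
  0 ⟨1,[(12,1),(4,1),(27,0),(3,0)]⟩ ⟨18,[(2,9),(2,8),(0,3),(8,2),(6,7),(5,0),(4,5),(0,1)]⟩),.k,
  ⟨false,0,⟨1,[(12,1),(4,1),(27,0),(3,0)]⟩,⟨1,[(2,0),(3,0),(9,0),(11,0)]⟩⟩,⟨true,0,⟨2,[(2,2),(5,0),
  (3,3),(4,1),(27,1),(0,1)]⟩,⟨0,[(5,0)]⟩⟩,⟨true,0,⟨0,[(48,0)]⟩,⟨0,[(47,0)]⟩⟩,⟨false,1,⟨0,[(2,0)]⟩,
  ⟨41,[(0,25),(6,7),(0,2),(13,3),(0,4),(4,15),(16,3),(0,6)]⟩⟩,⟨false,1,⟨2,[(2,0),(4,0),(20,0),(6,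
  0)]⟩,⟨0,[]⟩⟩,⟨true,1,⟨3,[(2,2),(8,0),(10,0),(4,0),(14,0)]⟩,⟨0,[(0,0)]⟩⟩,[]⟩)))) (.Q [0,0,1,0,-1,0,
  -1,0,-1,2,-1,-1] (.p false [-1,0,1,0,1] [1] (⟨0,[(0,0)]⟩,⟨0,[(26,0),(6,0)]⟩) .k 1 (⟨0,[]⟩,⟨0,[]⟩)
  .k (.r 0 ⟨2,[(14,1),(14,0),(2,0),(6,0)]⟩ ⟨1,[(3,0),(5,0),(5,0),(14,0),(16,1)]⟩)) (.K ⟨0,[2,0,-1,0,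
  -1],(-1),0,(⟨0,[(27,0),(6,0)]⟩,⟨0,[(1,0)]⟩),.k,(.r (-2) ⟨2,[(4,0),(0,0),(4,1),(20,3),(14,0),(0,0),
  (0,3)]⟩ ⟨2,[(6,1),(3,1),(4,0),(27,0),(0,0)]⟩),(.r (-1) ⟨6,[(4,0),(8,0),(2,1),(3,1),(10,3),(0,4),
  (15,4)]⟩ ⟨1,[(10,1),(4,1),(27,0),(3,0)]⟩),.k,.k,[⟨1,[(2,1),(1,1),(38,0),(4,0)]⟩,⟨0,[(0,0)]⟩,⟨0,
  [(2,0),(27,0),(12,0)]⟩,⟨0,[(10,0),(2,0),(11,0),(22,0)]⟩]⟩) (.S ⟨1,0,[0,0,1],[1,1,0,0,-1],[0,-1,1],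
  (⟨22,[(25,2),(0,2),(0,22),(8,4),(4,5),(0,2)]⟩,⟨0,[(1,0),(21,0)]⟩),⟨0,[(27,0)]⟩,(.r (-1) ⟨2,[(20,
  0),(0,0),(9,0),(0,0),(15,0)]⟩ ⟨1,[(10,1),(32,0),(3,0)]⟩),.k,⟨true,0,⟨0,[(46,0)]⟩,⟨0,[(45,0)]⟩⟩,
  ⟨false,0,⟨0,[(46,0)]⟩,⟨3,[(20,1),(26,0),(0,0)]⟩⟩,⟨false,1,⟨1,[(25,0),(0,0),(21,0)]⟩,⟨0,[]⟩⟩,⟨true,
  0,⟨0,[(50,0)]⟩,⟨0,[]⟩⟩,[.o ⟨false,1,⟨0,[(25,0)]⟩,⟨1,[(2,1),(40,0),(4,0)]⟩⟩,.e ⟨false,1,⟨0,[(48,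
  0)]⟩,⟨0,[(40,0)]⟩⟩ ⟨false,1,⟨1,[(25,0),(0,0),(21,0)]⟩,⟨3,[(10,1),(32,0),(0,1),(2,0)]⟩⟩,.a ⟨true,1,
  ⟨2,[(10,0),(14,2),(16,0),(1,0),(2,0),(0,0)]⟩,⟨0,[(0,0),(5,0),(3,1),(5,0),(29,0),(1,0)]⟩⟩ ⟨false,1,
  ⟨1,[(32,0),(0,0),(14,1)]⟩,⟨3,[(10,1),(32,0),(0,1),(2,0)]⟩⟩ ⟨true,0,⟨1,[(32,0),(0,0)]⟩,⟨3,[(10,1),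
  (32,0),(0,1),(2,0)]⟩⟩,.o ⟨false,1,⟨0,[(25,0)]⟩,⟨1,[(2,1),(40,0),(4,0)]⟩⟩]⟩))) (.Q [0,0,0,0,0,0,0,
  0,-1,1,0,-1] (.p false [0,0,0,0,1] [1] (⟨0,[(26,0)]⟩,⟨0,[(25,0)]⟩) .k 1 (⟨0,[]⟩,⟨0,[]⟩) .k .k)
  (.R ⟨0,false,false,false,[1,-1,-1],[0,0,0,0,1],[],(⟨0,[(22,0)]⟩,⟨22,[(24,2),(0,2),(8,22),(0,4),(4,
  5),(0,2)]⟩),(⟨0,[(27,0)]⟩,⟨0,[(26,0)]⟩),⟨2,[(10,1),(23,0),(0,0),(4,2)]⟩,.k,.k,(.r (-2) ⟨5,[(3,1),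
  (0,1),(4,3),(20,7),(14,7),(0,4),(0,4)]⟩ ⟨0,[(5,0)]⟩),(.r (-2) ⟨2,[(3,0),(0,0),(4,1),(20,3),(14,0),
  (0,0),(0,3)]⟩ ⟨2,[(5,1),(3,1),(4,0),(27,0),(0,0)]⟩),.k,.k,⟨false,1,⟨1,[(46,0),(0,0)]⟩,⟨0,[(49,
  0)]⟩⟩,⟨true,1,⟨0,[(2,0),(43,0)]⟩,⟨0,[(1,0),(3,0),(3,0),(5,0),(29,1)]⟩⟩,⟨false,0,⟨0,[(6,0)]⟩,⟨1,
  [(3,0),(5,0),(5,0),(14,0),(14,1),(0,0),(0,0)]⟩⟩,⟨true,0,⟨0,[(2,0),(11,0),(28,0)]⟩,⟨0,[(1,0),(7,0),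
  (5,0),(29,0)]⟩⟩,⟨false,0,⟨0,[]⟩,⟨0,[]⟩⟩,⟨false,0,⟨0,[]⟩,⟨0,[]⟩⟩,[.o ⟨false,0,⟨9,[(2,0),(2,0),(3,
  5),(2,0),(12,8),(16,7),(0,2)]⟩,⟨0,[(1,0)]⟩⟩,.a ⟨true,0,⟨0,[(25,0)]⟩,⟨0,[(0,0)]⟩⟩ ⟨false,1,⟨1,[(46,
  0),(0,0)]⟩,⟨0,[(49,0)]⟩⟩ ⟨true,1,⟨0,[(2,0),(43,0)]⟩,⟨0,[(1,0),(3,0),(3,0),(5,0),(29,1)]⟩⟩,.e
  ⟨false,1,⟨1,[(24,0),(0,0),(21,0)]⟩,⟨0,[]⟩⟩ ⟨false,1,⟨0,[(2,0),(43,0)]⟩,⟨1,[(1,1),(3,0),(3,1),(5,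
  0),(1,0),(27,0),(1,0)]⟩⟩,.o ⟨false,(-1),⟨0,[(5,0),(9,0),(29,2)]⟩,⟨5,[(3,1),(0,1),(25,1),(11,0),(3,
  4)]⟩⟩]⟩) (.R ⟨2,true,false,false,[0,1],[0,0,0,0,1],[1,1,1,1],(⟨0,[]⟩,⟨0,[]⟩),(⟨0,[(27,0)]⟩,⟨0,
  [(26,0)]⟩),⟨0,[]⟩,.k,.k,.k,(.r (-1) ⟨2,[(19,0),(0,0),(9,0),(0,0),(15,0)]⟩ ⟨1,[(9,1),(32,0),(3,
  0)]⟩),.k,.k,⟨true,0,⟨60,[(5,4),(5,12),(0,10),(5,5),(0,16),(12,1),(8,0)]⟩,⟨0,[(45,0)]⟩⟩,⟨false,0,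
  ⟨0,[(25,0)]⟩,⟨3,[(1,3),(7,1),(32,0),(0,1),(2,0)]⟩⟩,⟨false,0,⟨0,[]⟩,⟨1,[(24,0),(0,0),(21,0)]⟩⟩,
  ⟨true,(-1),⟨0,[(0,0),(8,0)]⟩,⟨6,[(1,0),(2,0),(0,0),(2,0),(4,0),(10,5),(18,0)]⟩⟩,⟨true,0,⟨0,[(44,
  0)]⟩,⟨0,[(45,0)]⟩⟩,⟨false,0,⟨0,[(25,0)]⟩,⟨0,[(1,0)]⟩⟩,[]⟩))))) (.Q [0,2,0,0,-1,0,1,1,1,-1,1,1]
  (.p true [0,0,1] [1,0,0,0,-1] (⟨0,[(30,0)]⟩,⟨0,[(29,0)]⟩) .k 2 (⟨0,[(22,0)]⟩,⟨0,[(23,0)]⟩) .k (.r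
  0 ⟨2,[(10,1),(14,0),(2,0),(6,0)]⟩ ⟨1,[(11,1),(15,1),(13,1),(0,0),(0,0)]⟩)) (.Q [0,0,0,0,0,0,0,0,0,
  1,-1,-1] (.ed true [0,0,1,0,1] (.r 0 ⟨2,[(11,1),(14,0),(2,0),(6,0)]⟩ ⟨1,[(12,1),(15,1),(13,1),(0,
  0),(0,0)]⟩)) (.Q [0,0,0,0,0,1,0,0,0,0,0,-1] (.ed true [1,-1,0,0,1] .k) (.R ⟨0,false,false,false,
  [0,1,0,0,-1],[0,1],[0,1],(⟨0,[(0,0)]⟩,⟨0,[(26,0),(9,0)]⟩),(⟨0,[(37,0)]⟩,⟨0,[(36,0)]⟩),⟨0,[(26,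
  0)]⟩,(.r (-1) ⟨2,[(18,0),(0,0),(9,0),(0,0),(15,0)]⟩ ⟨1,[(8,1),(32,0),(3,0)]⟩),.k,.k,.k,.k,.k,
  ⟨true,0,⟨1,[(8,1),(32,0),(3,0)]⟩,⟨69,[(3,17),(0,11),(5,35),(7,19),(0,5),(20,8),(5,30)]⟩⟩,⟨false,0,
  ⟨1,[(2,1),(5,1),(5,1),(30,0),(0,2)]⟩,⟨0,[(23,0)]⟩⟩,⟨false,0,⟨1,[(8,1),(32,0),(3,0)]⟩,⟨69,[(3,5),
  (0,3),(5,11),(7,29),(0,1),(20,2),(5,56)]⟩⟩,⟨true,(-1),⟨0,[(2,0),(5,0),(5,0),(31,0)]⟩,⟨0,[(23,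
  0)]⟩⟩,⟨false,0,⟨0,[]⟩,⟨0,[]⟩⟩,⟨false,0,⟨0,[]⟩,⟨0,[]⟩⟩,[.o ⟨false,1,⟨13,[(18,5),(19,1),(2,6),(0,1),
  (2,0)]⟩,⟨0,[(44,0)]⟩⟩,.e ⟨false,1,⟨1,[(23,0),(0,0),(20,0)]⟩,⟨0,[]⟩⟩ ⟨false,0,⟨0,[(2,0),(8,0),(34,
  1)]⟩,⟨1,[(8,1),(14,1),(17,0),(3,0)]⟩⟩,.o ⟨false,2,⟨1,[(23,1),(17,0),(3,0)]⟩,⟨1,[(2,1),(0,0),(4,0),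
  (5,0),(15,0),(15,2)]⟩⟩,.a ⟨true,1,⟨0,[(23,0)]⟩,⟨0,[(2,0),(5,0),(2,0),(34,1)]⟩⟩ ⟨true,0,⟨3,[(8,1),
  (32,0),(0,1),(2,0)]⟩,⟨1,[(30,0),(0,0)]⟩⟩ ⟨false,0,⟨0,[(2,0),(8,0),(34,1)]⟩,⟨0,[(23,0),(20,
  0)]⟩⟩]⟩) (.S ⟨1,0,[0,0,1],[1,1,0,0,-1],[0,-1,1],(⟨22,[(23,2),(0,2),(0,22),(8,4),(4,5),(0,2)]⟩,⟨0,
  [(0,0)]⟩),⟨0,[(25,0)]⟩,(.r (-1) ⟨2,[(18,0),(0,0),(9,0),(0,0),(15,0)]⟩ ⟨1,[(8,1),(32,0),(3,0)]⟩),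
  .k,⟨true,0,⟨0,[(44,0)]⟩,⟨0,[(43,0)]⟩⟩,⟨false,0,⟨0,[(44,0)]⟩,⟨3,[(18,1),(26,0),(0,0)]⟩⟩,⟨false,1,
  ⟨1,[(23,0),(0,0),(21,0)]⟩,⟨0,[]⟩⟩,⟨true,0,⟨0,[(48,0)]⟩,⟨0,[]⟩⟩,[.o ⟨false,1,⟨0,[(23,0)]⟩,⟨0,[(2,
  0),(11,0),(29,0),(1,0)]⟩⟩,.e ⟨false,1,⟨0,[(46,0)]⟩,⟨0,[(38,0)]⟩⟩ ⟨false,1,⟨1,[(23,0),(0,0),(21,
  0)]⟩,⟨3,[(8,1),(32,0),(0,1),(2,0)]⟩⟩,.a ⟨true,1,⟨2,[(8,0),(14,2),(16,0),(1,0),(2,0),(0,0)]⟩,⟨1,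
  [(2,1),(0,0),(4,0),(5,0),(15,0),(15,2)]⟩⟩ ⟨false,1,⟨1,[(30,0),(0,0),(14,1)]⟩,⟨3,[(8,1),(32,0),(0,
  1),(2,0)]⟩⟩ ⟨true,0,⟨1,[(30,0),(0,0)]⟩,⟨3,[(8,1),(32,0),(0,1),(2,0)]⟩⟩,.o ⟨false,1,⟨0,[(23,0)]⟩,
  ⟨0,[(2,0),(11,0),(29,0),(1,0)]⟩⟩]⟩)) (.S ⟨1,0,[0,0,1],[1,1,0,0,-1],[0,-1,1],(⟨22,[(22,2),(0,2),(0,
  22),(8,4),(4,5),(0,2)]⟩,⟨0,[(0,0),(19,0)]⟩),⟨0,[(24,0)]⟩,(.r (-1) ⟨2,[(17,0),(0,0),(9,0),(0,0),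
  (15,0)]⟩ ⟨1,[(7,1),(32,0),(3,0)]⟩),.k,⟨true,0,⟨0,[(43,0)]⟩,⟨0,[(42,0)]⟩⟩,⟨false,0,⟨0,[(43,0)]⟩,⟨3,
  [(17,1),(26,0),(0,0)]⟩⟩,⟨false,1,⟨1,[(22,0),(0,0),(21,0)]⟩,⟨0,[]⟩⟩,⟨true,0,⟨0,[(47,0)]⟩,⟨0,[]⟩⟩,
  [.o ⟨false,1,⟨0,[(22,0)]⟩,⟨0,[(1,0),(11,0),(29,0),(1,0)]⟩⟩,.e ⟨false,1,⟨0,[(45,0)]⟩,⟨0,[(37,0)]⟩⟩
  ⟨false,1,⟨1,[(22,0),(0,0),(21,0)]⟩,⟨3,[(7,1),(32,0),(0,1),(2,0)]⟩⟩,.a ⟨true,1,⟨2,[(7,0),(14,2),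
  (16,0),(1,0),(2,0),(0,0)]⟩,⟨1,[(1,1),(0,0),(4,0),(5,0),(15,0),(15,2)]⟩⟩ ⟨false,1,⟨1,[(29,0),(0,0),
  (14,1)]⟩,⟨3,[(7,1),(32,0),(0,1),(2,0)]⟩⟩ ⟨true,0,⟨1,[(29,0),(0,0)]⟩,⟨3,[(7,1),(32,0),(0,1),(2,
  0)]⟩⟩,.o ⟨false,1,⟨0,[(22,0)]⟩,⟨0,[(1,0),(11,0),(29,0),(1,0)]⟩⟩]⟩)) (.Q [0,0,1,0,0,0,0,0,-1,0,0,
  -1] (.p false [0,0,0,0,1] [] (⟨0,[(24,0)]⟩,⟨0,[(23,0)]⟩) .k 0 (⟨0,[]⟩,⟨0,[]⟩) .k .k) (.Q [0,0,-1,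
  0,1,0,1,0,-1,0,1,-1] (.p true [0,0,1] [0,0,0,0,1] (⟨0,[(32,0)]⟩,⟨0,[(31,0)]⟩) .k 2 (⟨0,[(25,0)]⟩,
  ⟨0,[(24,0)]⟩) .k (.r (-1) ⟨3,[(12,1),(5,1),(24,1),(0,0),(0,0)]⟩ ⟨1,[(7,1),(5,1),(15,1),(10,0),(3,
  0)]⟩)) (.R ⟨0,false,false,true,[1,-1,-1],[1,0,0,0,-1],[0,1],(⟨0,[(21,0)]⟩,⟨22,[(23,2),(0,2),(8,
  22),(0,4),(4,5),(0,2)]⟩),(⟨0,[(25,0)]⟩,⟨0,[(26,0)]⟩),⟨2,[(9,1),(23,0),(0,0),(4,2)]⟩,.k,.k,(.r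
  (-2) ⟨1,[(0,1),(23,1),(4,1),(14,3),(0,0),(0,0)]⟩ ⟨0,[(4,0)]⟩),(.r (-1) ⟨0,[(0,0),(23,0),(4,0),(14,
  0)]⟩ ⟨0,[(5,0)]⟩),.k,.k,⟨false,0,⟨3,[(8,1),(32,0),(0,1),(2,0)]⟩,⟨1,[(23,0),(0,0),(21,0)]⟩⟩,⟨true,
  1,⟨0,[(0,0)]⟩,⟨8,[(3,4),(1,4),(4,2),(13,8),(6,1),(9,0),(2,4)]⟩⟩,⟨true,(-1),⟨2,[(4,1),(3,1),(4,0),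
  (27,0),(0,0)]⟩,⟨0,[(0,0),(13,0),(9,0),(19,1)]⟩⟩,⟨false,1,⟨0,[(0,0),(4,0)]⟩,⟨0,[(14,0),(9,0),(19,
  1)]⟩⟩,⟨false,0,⟨0,[]⟩,⟨0,[]⟩⟩,⟨false,0,⟨0,[]⟩,⟨0,[]⟩⟩,[.a ⟨true,0,⟨14,[(0,6),(0,4),(0,2),(1,2),(3,
  5),(18,3),(12,0)]⟩,⟨0,[(24,0)]⟩⟩ ⟨false,0,⟨3,[(8,1),(32,0),(0,1),(2,0)]⟩,⟨1,[(23,0),(0,0),(21,
  0)]⟩⟩ ⟨true,1,⟨0,[(0,0)]⟩,⟨8,[(3,4),(1,4),(4,2),(13,8),(6,1),(9,0),(2,4)]⟩⟩,.e ⟨false,1,⟨1,[(23,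
  0),(0,0),(20,0)]⟩,⟨0,[]⟩⟩ ⟨false,2,⟨1,[(0,1),(44,0),(0,0)]⟩,⟨10,[(3,6),(6,0),(2,2),(10,10),(3,3),
  (2,1),(9,2)]⟩⟩,.e ⟨true,0,⟨0,[(48,0)]⟩,⟨0,[]⟩⟩ ⟨true,1,⟨0,[(0,0)]⟩,⟨10,[(3,6),(6,0),(2,2),(10,10),
  (3,3),(2,1),(9,2)]⟩⟩,.o ⟨false,(-1),⟨8,[(3,4),(1,4),(4,2),(20,1),(9,0),(2,4)]⟩,⟨1,[(0,1),(23,1),
  (16,0),(3,0)]⟩⟩]⟩) (.Q [0,0,0,0,0,-1,0,0,0,0,0,1] (.ed false [1,-1,0,0,1] .k) (.S ⟨1,0,[0,1,0,-1],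
  [0,0,0,0,1],[1,2],(⟨0,[(27,0)]⟩,⟨0,[(26,0)]⟩),⟨0,[(0,0)]⟩,.k,(.r 0 ⟨1,[(9,1),(32,0),(3,0)]⟩ ⟨4,
  [(3,0),(7,0),(7,1),(0,0),(3,0),(0,1)]⟩),⟨false,0,⟨0,[]⟩,⟨1,[(24,0),(0,0),(21,0)]⟩⟩,⟨true,0,⟨0,
  [(45,0)]⟩,⟨0,[(44,0)]⟩⟩,⟨true,0,⟨0,[(44,0)]⟩,⟨0,[(45,0)]⟩⟩,⟨false,1,⟨1,[(24,0),(0,0),(21,0)]⟩,⟨0,
  []⟩⟩,[.o ⟨false,0,⟨0,[(9,0),(15,0),(16,0)]⟩,⟨0,[(2,0),(40,0),(3,0)]⟩⟩,.a ⟨true,0,⟨0,[(25,0),(19,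
  0)]⟩,⟨1,[(2,1),(38,0),(1,1),(3,0)]⟩⟩ ⟨false,0,⟨3,[(9,1),(32,0),(0,1),(2,0)]⟩,⟨1,[(24,0),(0,0),(21,
  0)]⟩⟩ ⟨true,0,⟨0,[(45,0)]⟩,⟨70,[(4,1),(0,4),(5,14),(0,10),(5,7),(0,20),(21,0)]⟩⟩,.e ⟨false,0,⟨0,
  [(49,0)]⟩,⟨0,[(47,0)]⟩⟩ ⟨false,0,⟨0,[(45,0)]⟩,⟨3,[(19,1),(26,0),(0,0)]⟩⟩,.o ⟨false,0,⟨2,[(1,0),(9,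
  0),(13,1),(16,0)]⟩,⟨0,[(2,0),(43,0)]⟩⟩]⟩) (.R ⟨0,false,false,false,[0,1,0,0,-1],[0,1],[],(⟨0,[(0,
  0)]⟩,⟨0,[(27,0),(9,0)]⟩),(⟨0,[(38,0)]⟩,⟨0,[(37,0)]⟩),⟨0,[(27,0)]⟩,(.r (-1) ⟨4,[(3,0),(7,0),(7,1),
  (0,0),(3,0),(0,1)]⟩ ⟨1,[(9,1),(32,0),(3,0)]⟩),.k,.k,.k,.k,.k,⟨false,1,⟨0,[(45,0),(0,0)]⟩,⟨70,[(4,
  1),(0,4),(5,14),(0,10),(5,7),(0,20),(21,0)]⟩⟩,⟨true,0,⟨0,[(25,0)]⟩,⟨0,[(2,0)]⟩⟩,⟨true,0,⟨1,[(9,1),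
  (32,0),(3,0)]⟩,⟨70,[(4,1),(0,4),(5,14),(0,10),(5,7),(0,20),(21,0)]⟩⟩,⟨false,0,⟨0,[(25,0)]⟩,⟨1,[(2,
  1),(43,0),(0,0)]⟩⟩,⟨false,0,⟨0,[]⟩,⟨0,[]⟩⟩,⟨false,0,⟨0,[]⟩,⟨0,[]⟩⟩,[.o ⟨false,1,⟨13,[(19,5),(19,
  1),(2,6),(0,1),(2,0)]⟩,⟨0,[(45,0)]⟩⟩,.a ⟨true,1,⟨3,[(19,1),(26,0),(0,0)]⟩,⟨0,[(9,0)]⟩⟩ ⟨false,1,
  ⟨1,[(46,0),(0,0)]⟩,⟨0,[(49,0)]⟩⟩ ⟨true,0,⟨2,[(1,1),(9,1),(13,0),(15,0),(1,2),(3,2)]⟩,⟨1,[(2,1),(6,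
  1),(32,0),(3,0)]⟩⟩,.e ⟨false,1,⟨1,[(24,0),(0,0),(21,0)]⟩,⟨0,[]⟩⟩ ⟨false,0,⟨2,[(1,1),(9,1),(13,0),
  (15,0),(1,2),(3,2)]⟩,⟨0,[(2,0),(42,0),(0,0)]⟩⟩,.o ⟨false,1,⟨1,[(2,1),(39,0),(3,0)]⟩,⟨0,[(25,
  0)]⟩⟩]⟩))) (.Q [0,0,0,1,1,0,2,2,0,-1,2] (.p true [0,0,1] [1,0,-1] (⟨0,[(32,0)]⟩,⟨0,[(31,0)]⟩) .k
  2 (⟨0,[(31,0)]⟩,⟨0,[(32,0)]⟩) .k (.r 0 ⟨0,[(5,1)]⟩ ⟨0,[(13,1),(15,1),(13,1),(0,0)]⟩)) (.I [0,0,-1,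
  -1,1,0,0,-2] (.R ⟨0,false,false,false,[1,-1,-1],[0,0,1],[],(⟨0,[(22,0)]⟩,⟨97,[(0,5),(19,5),(0,2),
  (7,5),(4,97),(0,16),(4,26),(0,11)]⟩),(⟨0,[(34,0)]⟩,⟨0,[(33,0)]⟩),⟨2,[(10,1),(23,0),(0,0),(4,2)]⟩,
  .k,.k,(.r (-2) ⟨11,[(0,9),(19,3),(0,1),(7,3),(12,0),(2,17),(0,8)]⟩ ⟨0,[(5,0)]⟩),(.r (-1) ⟨0,[(0,
  0)]⟩ ⟨3,[(5,0),(8,4),(3,0),(1,0)]⟩),.k,.k,⟨false,1,⟨13,[(0,6),(18,2),(19,0),(3,0),(2,3)]⟩,⟨0,[(14,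
  0)]⟩⟩,⟨true,2,⟨0,[(0,0),(0,0)]⟩,⟨0,[(4,0),(1,0),(38,0)]⟩⟩,⟨false,0,⟨0,[(6,0)]⟩,⟨35,[(0,21),(19,3),
  (0,1),(7,3),(12,0),(2,17),(0,8)]⟩⟩,⟨true,1,⟨0,[(1,0)]⟩,⟨11,[(0,6),(3,9),(16,1),(17,0),(5,4),(0,
  0)]⟩⟩,⟨false,0,⟨0,[]⟩,⟨0,[]⟩⟩,⟨false,0,⟨0,[]⟩,⟨0,[]⟩⟩,[.o ⟨false,1,⟨23,[(0,1),(0,9),(18,3),(8,3),
  (12,6),(2,11),(0,0)]⟩,⟨13,[(0,2),(1,0),(0,0),(0,3),(10,2),(5,0),(20,2),(4,0)]⟩⟩,.e ⟨false,1,⟨1,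
  [(46,0),(0,0)]⟩,⟨10,[(0,0),(8,0),(1,0),(6,1),(13,0),(6,3)]⟩⟩ ⟨false,3,⟨4,[(0,2),(0,4),(18,0),(24,
  2),(0,3),(0,1)]⟩,⟨0,[(4,0)]⟩⟩,.a ⟨true,(-1),⟨5,[(4,1),(1,1),(2,1),(22,1),(8,0),(5,0)]⟩,⟨3,[(0,1),
  (0,1),(39,0),(4,0)]⟩⟩ ⟨false,1,⟨9,[(0,1),(19,3),(24,1),(0,0),(0,2)]⟩,⟨0,[]⟩⟩ ⟨true,2,⟨23,[(0,13),
  (0,21),(18,3),(8,3),(12,0),(2,11),(0,6)]⟩,⟨0,[(4,0)]⟩⟩,.o ⟨false,(-1),⟨8,[(4,4),(1,4),(4,2),(20,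
  1),(9,0),(2,4)]⟩,⟨3,[(0,1),(0,1),(40,0),(3,2)]⟩⟩]⟩) (.R ⟨0,false,false,false,[1,-1,-1],[0,0,1],[],
  (⟨0,[(22,0)]⟩,⟨22,[(24,2),(0,2),(8,22),(0,4),(4,5),(0,2)]⟩),(⟨0,[(34,0)]⟩,⟨0,[(33,0)]⟩),⟨2,[(10,
  1),(23,0),(0,0),(4,2)]⟩,.k,.k,(.r (-2) ⟨1,[(30,1),(0,1),(13,3),(0,2),(0,0)]⟩ ⟨0,[(5,0)]⟩),(.x 2
  ⟨11,[(0,5),(3,11),(4,5),(0,21),(23,1),(0,1),(4,17),(5,2),(0,8)]⟩ ⟨1,[(22,1),(1,0),(0,0),(5,3),(1,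
  1),(8,1),(3,2)]⟩),.k,.k,⟨false,1,⟨0,[(15,0),(15,0),(13,0),(0,0)]⟩,⟨0,[(14,0)]⟩⟩,⟨true,2,⟨1,[(31,
  3),(10,0),(3,2)]⟩,⟨18,[(0,8),(3,17),(4,3),(1,2),(20,4),(12,4),(1,10)]⟩⟩,⟨false,0,⟨0,[(6,0)]⟩,⟨0,
  [(15,0),(15,0),(13,1),(0,0)]⟩⟩,⟨true,1,⟨0,[(1,0)]⟩,⟨0,[(9,0),(5,1),(29,1)]⟩⟩,⟨false,0,⟨0,[]⟩,⟨0,
  []⟩⟩,⟨false,0,⟨0,[]⟩,⟨0,[]⟩⟩,[.o ⟨false,1,⟨3,[(1,1),(22,0),(0,0),(16,0),(2,1)]⟩,⟨0,[(15,0),(29,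
  0)]⟩⟩,.e ⟨false,1,⟨1,[(46,0),(0,0)]⟩,⟨0,[(49,0)]⟩⟩ ⟨false,3,⟨3,[(1,1),(22,0),(0,0),(5,3),(10,0),
  (2,1),(0,5),(0,1)]⟩,⟨0,[(4,0)]⟩⟩,.a ⟨true,(-1),⟨45,[(0,5),(3,19),(4,13),(1,1),(8,7),(11,7),(8,6),
  (5,12)]⟩,⟨0,[(31,0),(14,0)]⟩⟩ ⟨false,1,⟨1,[(24,0),(0,0),(21,0)]⟩,⟨0,[]⟩⟩ ⟨true,2,⟨3,[(1,1),(22,0),
  (0,0),(5,3),(10,0),(2,1),(0,3)]⟩,⟨0,[(4,0)]⟩⟩,.o ⟨false,(-1),⟨18,[(0,4),(3,9),(6,7),(20,6),(9,0),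
  (2,4),(1,4)]⟩,⟨1,[(31,1),(10,0),(3,2)]⟩⟩]⟩)) (.Q [0,0,0,0,1,0,2,2,0,-1,2] (.p true [0,0,1] [1,0,
  -1] (⟨0,[(33,0)]⟩,⟨0,[(32,0)]⟩) .k 2 (⟨0,[(32,0)]⟩,⟨0,[(33,0)]⟩) .k (.r 0 ⟨0,[(6,1)]⟩ ⟨8,[(0,3),
  (0,1),(0,1),(11,3),(14,3),(0,17),(10,2),(3,7)]⟩)) (.R ⟨1,true,false,false,[1,0,-1],[0,0,1],[1,1,0,
  0,0,0,0,-1],(⟨0,[(33,0)]⟩,⟨0,[(34,0)]⟩),(⟨0,[(34,0)]⟩,⟨0,[(33,0)]⟩),⟨0,[(22,0)]⟩,.k,.k,.k,.k,(.r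
  (-1) ⟨1,[(1,1),(29,3),(10,0),(3,2)]⟩ ⟨3,[(5,0),(8,4),(3,0),(1,0)]⟩),.k,⟨true,0,⟨1,[(1,1),(29,3),
  (10,0),(0,1),(2,0)]⟩,⟨0,[(6,0),(7,0),(30,0)]⟩⟩,⟨false,2,⟨1,[(31,3),(10,0),(3,2)]⟩,⟨1,[(4,1),(9,1),
  (31,0),(0,0)]⟩⟩,⟨false,0,⟨0,[]⟩,⟨1,[(24,0),(0,0),(21,0)]⟩⟩,⟨true,1,⟨0,[(0,0)]⟩,⟨1,[(1,0),(10,0),
  (17,0)]⟩⟩,⟨true,0,⟨0,[(44,0)]⟩,⟨0,[(45,0)]⟩⟩,⟨false,2,⟨3,[(0,3),(18,1),(26,0),(0,0)]⟩,⟨0,[(1,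
  0)]⟩⟩,[]⟩) (.Q [0,0,0,0,0,1,0,0,0,0,0,-1] (.ed true [1,-1,0,0,1] .k) (.Q [0,1,0,-1,-1,0,1,1,1,0,1,
  1] (.p true [0,0,1,0,1] [] (⟨0,[(28,0),(6,0)]⟩,⟨0,[(0,0),(22,0)]⟩) .k 0 (⟨0,[]⟩,⟨0,[]⟩) .k (.r 0
  ⟨2,[(15,1),(14,0),(2,0),(6,0)]⟩ ⟨13,[(1,1),(1,7),(0,7),(26,1),(0,13),(10,4),(3,2)]⟩)) (.R ⟨0,
  false,false,false,[0,1,0,0,-1],[0,1],[0,1],(⟨0,[(1,0)]⟩,⟨0,[(29,0),(9,0)]⟩),(⟨0,[(40,0)]⟩,⟨0,[(39,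
  0)]⟩),⟨0,[(29,0)]⟩,(.r (-1) ⟨4,[(5,0),(7,0),(7,1),(0,0),(3,0),(0,1)]⟩ ⟨1,[(11,1),(32,0),(3,0)]⟩),
  .k,.k,.k,.k,.k,⟨true,0,⟨1,[(11,1),(32,0),(3,0)]⟩,⟨69,[(6,17),(0,11),(5,35),(7,19),(0,5),(20,8),(5,
  30)]⟩⟩,⟨false,0,⟨0,[(4,0)]⟩,⟨0,[(26,0)]⟩⟩,⟨false,0,⟨1,[(11,1),(32,0),(3,0)]⟩,⟨69,[(6,5),(0,3),(5,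
  11),(7,29),(0,1),(20,2),(5,56)]⟩⟩,⟨true,(-1),⟨19,[(0,10),(1,0),(1,8),(1,2),(3,4),(2,2),(4,0),(25,
  2)]⟩,⟨0,[(26,0)]⟩⟩,⟨false,0,⟨0,[]⟩,⟨0,[]⟩⟩,⟨false,0,⟨0,[]⟩,⟨0,[]⟩⟩,[.o ⟨false,1,⟨13,[(21,5),(19,
  1),(2,6),(0,1),(2,0)]⟩,⟨0,[(47,0)]⟩⟩,.e ⟨false,1,⟨1,[(26,0),(0,0),(20,0)]⟩,⟨0,[]⟩⟩ ⟨false,0,⟨0,
  [(0,0),(14,0),(33,0)]⟩,⟨1,[(11,1),(14,1),(17,0),(3,0)]⟩⟩,.o ⟨false,2,⟨1,[(26,1),(17,0),(3,0)]⟩,⟨8,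
  [(0,3),(1,1),(1,4),(1,1),(0,1),(5,3),(35,2)]⟩⟩,.a ⟨true,1,⟨0,[(26,0)]⟩,⟨4,[(0,3),(1,0),(7,1),(16,
  0),(15,0),(5,2)]⟩⟩ ⟨true,0,⟨3,[(11,1),(32,0),(0,1),(2,0)]⟩,⟨1,[(33,0),(0,0)]⟩⟩ ⟨false,0,⟨0,[(0,0),
  (14,0),(33,0)]⟩,⟨0,[(26,0),(20,0)]⟩⟩]⟩) (.Q [0,2,0,1,-1,0,0,0,1,-1,0,1] (.p true [0,0,0,0,1] [1]
  (⟨0,[(29,0)]⟩,⟨0,[(28,0)]⟩) .k 1 (⟨0,[]⟩,⟨0,[]⟩) .k .k) (.Q [0,-2,0,0,2,0,1,1,-1,0,1,-1] (.p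
  false [1,0,-1,0,1] [1] (⟨0,[(30,0),(5,0)]⟩,⟨1,[(2,1),(10,0),(23,0)]⟩) .k 1 (⟨0,[]⟩,⟨0,[]⟩) .k (.r
  0 ⟨3,[(3,1),(30,3),(7,1),(2,0),(3,0)]⟩ ⟨3,[(17,1),(5,1),(24,1),(0,0),(0,0)]⟩)) (.Q [0,1,1,1,-1,0,
  0,0,1,-1,0,1] (.p true [0,0,0,0,1] [1] (⟨0,[(31,0)]⟩,⟨0,[(30,0)]⟩) .k 1 (⟨0,[]⟩,⟨0,[]⟩) .k .k)
  (.R ⟨0,false,false,false,[0,0,0,0,1],[1,-1],[0,1],(⟨0,[(32,0)]⟩,⟨0,[(31,0)]⟩),(⟨0,[(42,0)]⟩,⟨0,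
  [(43,0)]⟩),⟨0,[(4,0)]⟩,.k,.k,(.r 0 ⟨1,[(14,1),(32,0),(3,0)]⟩ ⟨17,[(1,1),(6,2),(7,2),(7,6),(0,3),
  (4,4),(4,2),(0,0)]⟩),(.r 0 ⟨4,[(16,0),(0,0),(5,1),(0,0),(10,0),(0,0),(7,0)]⟩ ⟨1,[(50,1),(0,0),(0,
  0)]⟩),.k,.k,⟨false,0,⟨0,[(49,0)]⟩,⟨1,[(50,1),(0,0),(0,0)]⟩⟩,⟨true,0,⟨9,[(8,2),(1,2),(3,5),(1,0),
  (12,6),(6,1),(9,0)]⟩,⟨3,[(0,1),(6,1),(39,0),(2,1),(1,0)]⟩⟩,⟨false,1,⟨2,[(1,0),(28,0),(4,0),(16,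
  0)]⟩,⟨0,[]⟩⟩,⟨true,1,⟨2,[(1,1),(6,0),(5,1),(20,0),(14,0)]⟩,⟨0,[(2,0)]⟩⟩,⟨false,0,⟨0,[]⟩,⟨0,[]⟩⟩,
  ⟨false,0,⟨0,[]⟩,⟨0,[]⟩⟩,[.o ⟨false,0,⟨0,[(50,0)]⟩,⟨13,[(24,5),(19,1),(2,6),(0,1),(2,0)]⟩⟩,.a
  ⟨true,0,⟨0,[(14,0),(37,0)]⟩,⟨0,[(49,0)]⟩⟩ ⟨false,1,⟨6,[(1,1),(28,1),(4,1),(8,0),(6,2)]⟩,⟨0,[]⟩⟩
  ⟨true,1,⟨2,[(1,1),(6,0),(5,1),(20,0),(14,0)]⟩,⟨0,[(0,0)]⟩⟩,.o ⟨false,0,⟨3,[(0,1),(6,1),(39,0),(2,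
  1),(1,0)]⟩,⟨0,[(29,0)]⟩⟩,.e ⟨true,0,⟨3,[(14,1),(32,0),(0,1),(2,0)]⟩,⟨1,[(36,0),(0,0)]⟩⟩ ⟨true,1,
  ⟨2,[(1,0),(6,0),(5,1),(14,0),(14,0),(5,0),(0,0)]⟩,⟨0,[(0,0)]⟩⟩]⟩) (.Q [0,-2,0,-2,1,0,0,0,-1,1,0,
  -1] (.p false [0,0,0,0,1] [1] (⟨0,[(32,0)]⟩,⟨0,[(31,0)]⟩) .k 1 (⟨0,[]⟩,⟨0,[]⟩) .k .k) (.R ⟨1,true,
  false,true,[1,0,0,0,-1],[0,1],[1],(⟨0,[(32,0)]⟩,⟨0,[(33,0)]⟩),(⟨0,[(44,0)]⟩,⟨0,[(43,0)]⟩),⟨1,[(5,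
  0),(10,0),(11,0),(3,0)]⟩,.k,.k,(.r (-1) ⟨3,[(0,1),(7,1),(39,0),(3,0)]⟩ ⟨4,[(17,0),(0,0),(5,1),(0,
  0),(10,0),(0,0),(7,0)]⟩),(.r (-1) ⟨3,[(0,1),(7,1),(39,0),(3,0)]⟩ ⟨4,[(17,0),(0,0),(5,1),(0,0),(10,
  0),(0,0),(7,0)]⟩),(.r (-2) ⟨1,[(0,1),(7,0),(22,0),(13,0),(2,0),(3,0)]⟩ ⟨25,[(10,0),(0,9),(2,13),
  (2,14),(6,3),(10,0),(9,2)]⟩),.k,⟨true,1,⟨3,[(0,1),(7,1),(39,0),(3,0)]⟩,⟨20,[(10,4),(0,2),(2,5),(0,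
  1),(1,12),(6,4),(10,2)]⟩⟩,⟨false,1,⟨1,[(8,1),(39,0),(3,0)]⟩,⟨10,[(0,2),(9,0),(0,2),(2,0),(0,2),(2,
  0),(11,7),(6,3),(9,0)]⟩⟩,⟨false,0,⟨0,[]⟩,⟨5,[(0,1),(24,1),(5,1),(16,0),(3,0)]⟩⟩,⟨true,(-1),⟨0,[(3,
  0)]⟩,⟨5,[(0,3),(24,0),(4,1),(14,0),(1,0),(7,0)]⟩⟩,⟨true,0,⟨0,[(50,0)]⟩,⟨0,[(51,0)]⟩⟩,⟨false,0,⟨7,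
  [(3,5),(4,1),(16,3),(22,0),(0,1),(3,0)]⟩,⟨0,[(0,0)]⟩⟩,[]⟩) (.Q [0,0,1,0,-1,0,0,0,1,0,0,1] (.p
  true [0,0,0,0,1] [] (⟨0,[(33,0)]⟩,⟨0,[(32,0)]⟩) .k 0 (⟨0,[]⟩,⟨0,[]⟩) .k .k) (.K ⟨0,[0,0,0,0,1],
  (-1),(-1),(⟨0,[(34,0)]⟩,⟨0,[(33,0)]⟩),.k,(.r 0 ⟨1,[(16,1),(32,0),(3,0)]⟩ ⟨17,[(3,1),(6,2),(7,2),
  (7,6),(0,3),(4,4),(4,2),(0,0)]⟩),(.r 0 ⟨4,[(18,0),(0,0),(5,1),(0,0),(10,0),(0,0),(7,0)]⟩ ⟨3,[(2,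
  1),(6,1),(39,0),(2,1),(1,0)]⟩),.k,.k,[⟨0,[(2,0),(15,0),(31,0)]⟩,⟨0,[(0,0)]⟩,⟨0,[(31,0)]⟩,⟨14,[(4,
  6),(11,7),(1,0),(6,0),(6,7),(4,0),(8,2)]⟩]⟩) (.R ⟨0,false,false,false,[0,0,0,0,1],[0,1],[1,0,2,1],
  (⟨0,[(34,0)]⟩,⟨0,[(33,0)]⟩),(⟨0,[(45,0)]⟩,⟨0,[(44,0)]⟩),⟨0,[(6,0)]⟩,.k,.k,(.r 0 ⟨1,[(16,1),(32,0),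
  (3,0)]⟩ ⟨17,[(3,1),(6,2),(7,2),(7,6),(0,3),(4,4),(4,2),(0,0)]⟩),(.r 0 ⟨1,[(16,1),(32,0),(3,0)]⟩
  ⟨17,[(3,1),(6,2),(7,2),(7,6),(0,3),(4,4),(4,2),(0,0)]⟩),.k,.k,⟨false,0,⟨0,[]⟩,⟨6,[(3,1),(28,1),(4,
  1),(8,0),(6,2)]⟩⟩,⟨true,1,⟨0,[(0,0)]⟩,⟨4,[(9,1),(1,1),(1,1),(2,1),(1,3),(13,2),(21,0)]⟩⟩,⟨true,0,
  ⟨69,[(11,17),(0,11),(5,35),(7,19),(0,5),(20,8),(5,30)]⟩,⟨5,[(0,1),(3,1),(11,7),(32,2),(3,4)]⟩⟩,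
  ⟨false,2,⟨7,[(3,3),(1,3),(20,1),(26,0),(0,0)]⟩,⟨0,[(4,0),(11,0),(35,0),(1,0)]⟩⟩,⟨false,0,⟨0,[]⟩,
  ⟨0,[]⟩⟩,⟨false,0,⟨0,[]⟩,⟨0,[]⟩⟩,[.o ⟨false,1,⟨27,[(0,1),(0,1),(24,11),(19,3),(2,12),(3,2)]⟩,⟨0,
  [(52,0)]⟩⟩,.a ⟨true,1,⟨3,[(26,1),(26,0),(0,0)]⟩,⟨0,[(16,0)]⟩⟩ ⟨true,0,⟨69,[(11,17),(0,11),(5,35),
  (7,19),(0,5),(20,8),(5,30)]⟩,⟨1,[(16,1),(32,0),(3,0)]⟩⟩ ⟨false,2,⟨4,[(0,2),(2,0),(1,0),(20,1),(26,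
  1)]⟩,⟨0,[(4,0),(11,0),(35,0),(1,0)]⟩⟩,.o ⟨false,0,⟨0,[(4,0),(47,0),(1,0)]⟩,⟨0,[(31,0)]⟩⟩,.o
  ⟨false,0,⟨4,[(9,0),(1,0),(1,0),(4,1),(13,3),(16,1),(2,0)]⟩,⟨0,[(0,0)]⟩⟩]⟩)))) (.R ⟨0,false,false,
  false,[0,0,0,0,1],[1,-1],[0,1],(⟨0,[(31,0)]⟩,⟨0,[(30,0)]⟩),(⟨0,[(41,0)]⟩,⟨0,[(42,0)]⟩),⟨0,[(3,
  0)]⟩,.k,.k,(.r 0 ⟨1,[(13,1),(32,0),(3,0)]⟩ ⟨4,[(7,0),(7,0),(7,1),(0,0),(3,0),(0,1)]⟩),(.r 0 ⟨4,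
  [(15,0),(0,0),(5,1),(0,0),(10,0),(0,0),(7,0)]⟩ ⟨1,[(49,1),(0,0),(0,0)]⟩),.k,.k,⟨false,0,⟨0,[(48,
  0)]⟩,⟨1,[(49,1),(0,0),(0,0)]⟩⟩,⟨true,0,⟨9,[(7,2),(1,2),(3,5),(1,0),(12,6),(6,1),(9,0)]⟩,⟨7,[(0,1),
  (5,5),(3,1),(4,1),(30,2),(2,1),(1,0)]⟩⟩,⟨false,1,⟨1,[(28,0),(0,0),(21,0)]⟩,⟨0,[]⟩⟩,⟨true,1,⟨0,
  [(13,0),(14,0),(22,0)]⟩,⟨0,[(1,0)]⟩⟩,⟨false,0,⟨0,[]⟩,⟨0,[]⟩⟩,⟨false,0,⟨0,[]⟩,⟨0,[]⟩⟩,[.o ⟨false,0,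
  ⟨0,[(49,0)]⟩,⟨13,[(23,5),(19,1),(2,6),(0,1),(2,0)]⟩⟩,.a ⟨true,0,⟨0,[(13,0),(37,0)]⟩,⟨0,[(48,0)]⟩⟩
  ⟨false,1,⟨1,[(28,0),(0,0),(20,0)]⟩,⟨0,[]⟩⟩ ⟨true,1,⟨0,[(13,0),(14,0),(22,0)]⟩,⟨5,[(0,1),(0,1),(4,
  1),(2,1),(5,1),(30,0),(4,0)]⟩⟩,.o ⟨false,0,⟨7,[(0,1),(5,5),(3,1),(4,1),(30,2),(2,1),(1,0)]⟩,⟨0,
  [(28,0)]⟩⟩,.e ⟨true,0,⟨3,[(13,1),(32,0),(0,1),(2,0)]⟩,⟨1,[(35,0),(0,0)]⟩⟩ ⟨true,1,⟨1,[(13,1),(14,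
  1),(21,0),(0,0)]⟩,⟨5,[(0,1),(0,1),(4,1),(2,1),(5,1),(30,0),(4,0)]⟩⟩]⟩)) (.Q [0,0,0,0,0,1,0,0,0,-1,
  1,1] (.p true [0,0,1,0,1] [1] (⟨0,[(30,0),(6,0)]⟩,⟨0,[(2,0),(22,0)]⟩) .k 1 (⟨0,[]⟩,⟨0,[]⟩) .k (.r
  0 ⟨2,[(17,1),(14,0),(2,0),(6,0)]⟩ ⟨13,[(3,1),(1,7),(0,7),(26,1),(0,13),(10,4),(3,2)]⟩)) (.R ⟨0,
  false,false,false,[1,0,-1,0,-1],[0,1],[],(⟨0,[(3,0),(22,0)]⟩,⟨0,[(31,0),(6,0)]⟩),(⟨0,[(42,0)]⟩,⟨0,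
  [(41,0)]⟩),⟨0,[(0,0)]⟩,.k,.k,(.r (-2) ⟨3,[(1,2),(3,0),(23,2),(4,1),(0,3),(10,1),(3,3)]⟩ ⟨2,[(9,1),
  (3,1),(4,0),(27,0),(0,0)]⟩),(.r (-2) ⟨3,[(1,2),(3,0),(23,2),(4,1),(0,3),(10,1),(3,3)]⟩ ⟨2,[(9,1),
  (3,1),(4,0),(27,0),(0,0)]⟩),.k,.k,⟨false,1,⟨0,[(49,0),(0,0)]⟩,⟨70,[(8,1),(0,4),(5,14),(0,10),(5,
  7),(0,20),(21,0)]⟩⟩,⟨true,1,⟨1,[(6,1),(28,1),(10,0),(3,0)]⟩,⟨6,[(1,3),(6,3),(0,3),(3,3),(1,0),(12,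
  2),(17,1)]⟩⟩,⟨false,0,⟨0,[(11,0)]⟩,⟨13,[(4,1),(1,7),(0,7),(26,1),(0,13),(10,4),(3,2)]⟩⟩,⟨true,0,
  ⟨2,[(6,2),(2,0),(5,0),(17,1),(12,0),(0,0)]⟩,⟨3,[(1,0),(0,1),(2,0),(7,3),(14,0),(17,0)]⟩⟩,⟨false,0,
  ⟨0,[]⟩,⟨0,[]⟩⟩,⟨false,0,⟨0,[]⟩,⟨0,[]⟩⟩,[.o ⟨false,1,⟨13,[(23,5),(19,1),(2,6),(0,1),(2,0)]⟩,⟨0,
  [(49,0)]⟩⟩,.a ⟨true,1,⟨3,[(23,1),(26,0),(0,0)]⟩,⟨0,[(13,0)]⟩⟩ ⟨false,1,⟨1,[(50,0),(0,0)]⟩,⟨0,[(53,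
  0)]⟩⟩ ⟨true,1,⟨0,[(6,0),(8,0),(31,0),(3,0)]⟩,⟨5,[(1,2),(6,2),(0,1),(3,7),(4,0),(9,2),(17,3),(0,
  0)]⟩⟩,.e ⟨false,1,⟨1,[(28,0),(0,0),(21,0)]⟩,⟨0,[]⟩⟩ ⟨false,1,⟨0,[(6,0),(8,0),(31,0),(3,0)]⟩,⟨3,
  [(1,1),(6,1),(4,1),(4,1),(9,1),(17,0),(3,0)]⟩⟩,.o ⟨false,0,⟨5,[(1,2),(6,2),(0,1),(3,1),(4,0),(9,
  2),(17,3),(0,0)]⟩,⟨1,[(6,1),(28,1),(10,0),(3,0)]⟩⟩]⟩) (.Q [0,-1,0,1,1,0,0,0,-1,0,0,-1] (.p false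
  [0,0,0,0,1] [] (⟨0,[(31,0)]⟩,⟨0,[(30,0)]⟩) .k 0 (⟨0,[]⟩,⟨0,[]⟩) .k .k) (.R ⟨0,false,false,false,
  [0,0,0,0,1],[0,1],[],(⟨0,[(32,0)]⟩,⟨0,[(31,0)]⟩),(⟨0,[(43,0)]⟩,⟨0,[(42,0)]⟩),⟨0,[(4,0)]⟩,.k,.k,
  (.r 0 ⟨1,[(14,1),(32,0),(3,0)]⟩ ⟨25,[(2,5),(13,3),(7,13),(0,3),(3,0),(0,6),(4,3),(11,0)]⟩),(.r 0
  ⟨1,[(14,1),(32,0),(3,0)]⟩ ⟨25,[(2,5),(13,3),(7,13),(0,3),(3,0),(0,6),(4,3),(11,0)]⟩),.k,.k,⟨false,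
  1,⟨0,[(50,0),(0,0)]⟩,⟨70,[(9,1),(0,4),(5,14),(0,10),(5,7),(0,20),(21,0)]⟩⟩,⟨true,1,⟨1,[(0,1),(13,
  1),(32,0),(3,0)]⟩,⟨4,[(7,1),(1,1),(1,1),(2,1),(1,3),(13,2),(21,0)]⟩⟩,⟨false,1,⟨0,[(52,0)]⟩,⟨0,
  [(54,0)]⟩⟩,⟨true,1,⟨0,[(0,0)]⟩,⟨3,[(7,1),(1,0),(4,3),(1,0),(13,1),(3,0),(9,0),(2,1)]⟩⟩,⟨false,0,
  ⟨0,[]⟩,⟨0,[]⟩⟩,⟨false,0,⟨0,[]⟩,⟨0,[]⟩⟩,[.o ⟨false,1,⟨13,[(24,5),(19,1),(2,6),(0,1),(2,0)]⟩,⟨0,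
  [(50,0)]⟩⟩,.a ⟨true,1,⟨3,[(24,1),(26,0),(0,0)]⟩,⟨0,[(14,0)]⟩⟩ ⟨false,1,⟨1,[(51,0),(0,0)]⟩,⟨0,[(54,
  0)]⟩⟩ ⟨true,1,⟨0,[(0,0)]⟩,⟨3,[(7,0),(1,0),(4,2),(1,1),(2,0),(10,2),(16,0),(2,0)]⟩⟩,.e ⟨false,1,⟨1,
  [(29,0),(0,0),(21,0)]⟩,⟨0,[]⟩⟩ ⟨false,1,⟨0,[(0,0)]⟩,⟨0,[(30,0),(19,0)]⟩⟩,.o ⟨false,0,⟨4,[(7,0),(1,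
  0),(1,0),(4,1),(13,3),(16,1),(2,0)]⟩,⟨1,[(0,1),(13,1),(32,0),(3,0)]⟩⟩]⟩) (.Q [0,-1,0,0,1,0,0,0,-1,
  0,0,-1] (.p false [0,0,0,0,1] [] (⟨0,[(32,0)]⟩,⟨0,[(31,0)]⟩) .k 0 (⟨0,[]⟩,⟨0,[]⟩) .k .k) (.R ⟨2,
  true,false,false,[0,1],[0,0,0,0,1],[1,1,1,1],(⟨0,[]⟩,⟨0,[]⟩),(⟨0,[(33,0)]⟩,⟨0,[(32,0)]⟩),⟨0,[]⟩,
  .k,.k,.k,(.r (-1) ⟨25,[(3,5),(13,3),(7,13),(0,3),(3,0),(0,6),(4,3),(11,0)]⟩ ⟨1,[(15,1),(32,0),(3,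
  0)]⟩),.k,.k,⟨true,0,⟨70,[(10,1),(0,4),(5,14),(0,10),(5,7),(0,20),(21,0)]⟩,⟨0,[(51,0)]⟩⟩,⟨false,0,
  ⟨0,[(31,0)]⟩,⟨3,[(0,3),(14,1),(32,0),(0,1),(2,0)]⟩⟩,⟨false,0,⟨0,[]⟩,⟨1,[(30,0),(0,0),(21,0)]⟩⟩,
  ⟨true,(-1),⟨0,[(1,0)]⟩,⟨13,[(0,4),(10,0),(2,0),(2,0),(7,1),(4,8),(18,5)]⟩⟩,⟨true,0,⟨0,[(50,0)]⟩,
  ⟨0,[(51,0)]⟩⟩,⟨false,0,⟨0,[(31,0)]⟩,⟨0,[(0,0)]⟩⟩,[]⟩) (.Q [0,-1,0,-1,1,0,0,0,-1,0,0,-1] (.p false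
  [0,0,0,0,1] [] (⟨0,[(33,0)]⟩,⟨0,[(32,0)]⟩) .k 0 (⟨0,[]⟩,⟨0,[]⟩) .k .k) (.R ⟨1,true,false,false,[0,
  0,1],[0,0,1,0,1],[1,1,0,0,0,0,0,1],(⟨0,[(41,0)]⟩,⟨0,[(40,0)]⟩),(⟨0,[(34,0),(6,0)]⟩,⟨1,[(3,0),(2,
  0),(33,0)]⟩),⟨0,[(30,0)]⟩,.k,.k,.k,.k,(.r (-1) ⟨2,[(2,0),(1,1),(4,0),(39,0),(3,0)]⟩ ⟨4,[(18,0),(0,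
  0),(5,1),(0,0),(10,0),(0,0),(7,0)]⟩),.k,⟨true,0,⟨0,[]⟩,⟨1,[(38,0),(0,0)]⟩⟩,⟨false,0,⟨0,[(9,0)]⟩,
  ⟨0,[(31,0)]⟩⟩,⟨false,0,⟨0,[]⟩,⟨1,[(31,0),(0,0),(21,0)]⟩⟩,⟨true,(-1),⟨0,[(1,0)]⟩,⟨0,[(31,0)]⟩⟩,
  ⟨true,0,⟨0,[(51,0)]⟩,⟨0,[(52,0)]⟩⟩,⟨false,0,⟨1,[(1,0),(7,0),(16,0)]⟩,⟨0,[(0,0)]⟩⟩,[]⟩) (.R ⟨2,
  true,false,false,[0,1],[1,0,0,0,-1],[0,0,1],(⟨0,[]⟩,⟨0,[]⟩),(⟨0,[(33,0)]⟩,⟨0,[(34,0)]⟩),⟨0,[]⟩,.k,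
  .k,.k,(.r 0 ⟨4,[(18,0),(0,0),(5,1),(0,0),(10,0),(0,0),(7,0)]⟩ ⟨2,[(2,0),(1,1),(4,0),(39,0),(3,
  0)]⟩),.k,.k,⟨false,0,⟨0,[(56,0)]⟩,⟨1,[(53,0),(0,0)]⟩⟩,⟨true,0,⟨108,[(4,30),(6,14),(0,24),(3,32),
  (2,11),(5,1),(5,77),(6,41),(9,8)]⟩,⟨1,[(1,1),(47,0),(4,0)]⟩⟩,⟨true,0,⟨0,[(52,0)]⟩,⟨0,[(51,0)]⟩⟩,
  ⟨false,1,⟨0,[(4,0)]⟩,⟨3,[(0,1),(0,0),(24,0),(5,0),(13,0),(2,1)]⟩⟩,⟨false,1,⟨1,[(31,0),(0,0),(21,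
  0)]⟩,⟨0,[]⟩⟩,⟨true,1,⟨28,[(4,20),(10,3),(10,5),(4,7),(4,3),(9,4),(1,1),(1,0)]⟩,⟨0,[(0,0),(15,0),
  (32,0)]⟩⟩,[]⟩))))))) (.Q [0,0,0,-1,1,0,2,2,0,-1,2] (.p true [0,0,1] [1,0,-1] (⟨0,[(35,0)]⟩,⟨0,
  [(34,0)]⟩) .k 2 (⟨0,[(34,0)]⟩,⟨0,[(35,0)]⟩) .k (.r 0 ⟨0,[(8,1)]⟩ ⟨6,[(1,3),(1,1),(0,1),(26,3),(0,
  13),(10,2),(3,5)]⟩)) (.R ⟨1,true,false,false,[0,0,1],[1,0,-1],[1,1,0,0,0,0,0,1],(⟨0,[(36,0)]⟩,⟨0,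
  [(35,0)]⟩),(⟨0,[(35,0)]⟩,⟨0,[(36,0)]⟩),⟨0,[(25,0)]⟩,.k,.k,.k,.k,(.r (-1) ⟨0,[(0,0),(18,0),(10,
  0)]⟩ ⟨1,[(2,1),(30,3),(10,0),(0,1),(3,0)]⟩),.k,⟨false,0,⟨3,[(11,1),(4,7),(27,0),(0,1),(2,0)]⟩,⟨1,
  [(2,1),(30,3),(10,0),(3,1),(0,0)]⟩⟩,⟨true,(-1),⟨0,[(2,0),(13,1)]⟩,⟨1,[(33,3),(10,0),(3,0)]⟩⟩,
  ⟨false,0,⟨0,[]⟩,⟨1,[(26,0),(0,0),(21,0)]⟩⟩,⟨true,(-1),⟨0,[(2,0)]⟩,⟨0,[(0,0),(45,0)]⟩⟩,⟨true,0,⟨0,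
  [(46,0)]⟩,⟨0,[(47,0)]⟩⟩,⟨false,0,⟨2,[(2,1),(1,0),(0,0),(11,0),(3,0)]⟩,⟨0,[(0,0)]⟩⟩,[]⟩) (.Q [0,0,
  1,0,-1,0,0,0,1,0,0,1] (.p true [0,0,0,0,1] [] (⟨0,[(29,0)]⟩,⟨0,[(28,0)]⟩) .k 0 (⟨0,[]⟩,⟨0,[]⟩) .k
  .k) (.S ⟨1,0,[0,1,0,-1],[0,0,0,0,1],[1,2],(⟨0,[(30,0)]⟩,⟨0,[(29,0)]⟩),⟨0,[(2,0)]⟩,.k,(.r 0 ⟨1,
  [(12,1),(32,0),(3,0)]⟩ ⟨4,[(6,0),(7,0),(7,1),(0,0),(3,0),(0,1)]⟩),⟨false,0,⟨0,[]⟩,⟨1,[(27,0),(0,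
  0),(21,0)]⟩⟩,⟨true,0,⟨0,[(48,0)]⟩,⟨0,[(47,0)]⟩⟩,⟨true,0,⟨0,[(47,0)]⟩,⟨0,[(48,0)]⟩⟩,⟨false,1,⟨1,
  [(27,0),(0,0),(21,0)]⟩,⟨0,[]⟩⟩,[.e ⟨false,0,⟨0,[(42,0)]⟩,⟨0,[(50,0)]⟩⟩ ⟨false,0,⟨1,[(12,1),(32,0),
  (3,0)]⟩,⟨3,[(22,1),(26,0),(0,0)]⟩⟩,.o ⟨false,0,⟨1,[(0,0),(4,0),(39,0),(2,1)]⟩,⟨5,[(6,0),(1,0),(5,
  0),(12,4),(18,3),(3,0)]⟩⟩,.o ⟨false,0,⟨1,[(0,0),(4,0),(39,0)]⟩,⟨0,[(27,0)]⟩⟩,.a ⟨true,(-1),⟨0,[(0,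
  0)]⟩,⟨4,[(6,1),(5,0),(14,2),(4,1),(11,0),(1,0),(2,1)]⟩⟩ ⟨false,0,⟨3,[(12,1),(32,0),(0,1),(2,0)]⟩,
  ⟨5,[(6,0),(5,0),(1,1),(8,0),(4,0),(6,0),(14,4)]⟩⟩ ⟨true,0,⟨1,[(12,1),(32,0),(3,0)]⟩,⟨70,[(7,1),(0,
  4),(5,14),(0,10),(5,7),(0,20),(21,0)]⟩⟩]⟩) (.Q [0,0,0,0,0,0,0,0,-1,1,0,-1] (.p false [0,0,0,0,1]
  [1] (⟨0,[(30,0)]⟩,⟨0,[(29,0)]⟩) .k 1 (⟨0,[]⟩,⟨0,[]⟩) .k .k) (.S ⟨1,0,[0,0,1],[1,1,0,0,-1],[0,-1,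
  1],(⟨22,[(28,2),(0,2),(0,22),(8,4),(4,5),(0,2)]⟩,⟨0,[(3,0)]⟩),⟨0,[(30,0)]⟩,(.r (-1) ⟨4,[(7,0),(7,
  0),(7,1),(0,0),(3,0),(0,1)]⟩ ⟨1,[(13,1),(32,0),(3,0)]⟩),.k,⟨true,0,⟨0,[(49,0)]⟩,⟨0,[(48,0)]⟩⟩,
  ⟨false,0,⟨0,[(49,0)]⟩,⟨3,[(23,1),(26,0),(0,0)]⟩⟩,⟨false,1,⟨1,[(28,0),(0,0),(21,0)]⟩,⟨0,[]⟩⟩,⟨true,
  0,⟨0,[(53,0)]⟩,⟨0,[]⟩⟩,[.a ⟨true,0,⟨0,[(0,0)]⟩,⟨0,[(29,0)]⟩⟩ ⟨false,1,⟨1,[(28,0),(0,0),(21,0)]⟩,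
  ⟨3,[(13,1),(32,0),(0,1),(2,0)]⟩⟩ ⟨true,0,⟨1,[(35,0),(0,0)]⟩,⟨0,[]⟩⟩,.o ⟨false,1,⟨1,[(0,1),(45,0),
  (4,0)]⟩,⟨3,[(6,1),(1,0),(6,0),(13,1),(3,0),(9,0),(2,1)]⟩⟩,.o ⟨false,1,⟨0,[(1,0)]⟩,⟨4,[(6,0),(1,0),
  (1,0),(4,1),(13,3),(16,1),(2,0)]⟩⟩,.e ⟨false,1,⟨0,[(51,0)]⟩,⟨0,[(53,0)]⟩⟩ ⟨false,1,⟨1,[(28,0),(0,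
  0),(21,0)]⟩,⟨0,[]⟩⟩]⟩) (.R ⟨1,false,false,false,[0,0,0,0,1],[1,0,-1],[0,1,0,-1],(⟨0,[(31,0)]⟩,⟨0,
  [(30,0)]⟩),(⟨0,[(37,0)]⟩,⟨0,[(38,0)]⟩),⟨0,[(3,0)]⟩,.k,.k,(.r 0 ⟨1,[(13,1),(32,0),(3,0)]⟩ ⟨4,[(7,
  0),(7,0),(7,1),(0,0),(3,0),(0,1)]⟩),.k,(.r 0 ⟨1,[(13,1),(4,1),(27,0),(3,0)]⟩ ⟨13,[(4,2),(1,4),(0,
  4),(15,6),(10,2),(0,13),(10,3),(3,0)]⟩),.k,⟨false,0,⟨1,[(13,1),(4,1),(27,0),(3,0)]⟩,⟨3,[(6,1),(0,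
  1),(9,1),(17,3),(10,0),(3,0)]⟩⟩,⟨true,0,⟨4,[(1,1),(5,0),(0,1),(2,2),(16,1),(16,0)]⟩,⟨0,[(6,0),(8,
  0)]⟩⟩,⟨true,0,⟨0,[(49,0)]⟩,⟨0,[(48,0)]⟩⟩,⟨false,1,⟨0,[(7,0)]⟩,⟨0,[(0,0),(32,0)]⟩⟩,⟨false,1,⟨1,
  [(28,0),(0,0),(21,0)]⟩,⟨0,[]⟩⟩,⟨false,1,⟨6,[(1,2),(0,0),(4,3),(1,0),(2,1),(22,0),(15,3)]⟩,⟨0,[(0,
  0),(32,0),(15,0)]⟩⟩,[.o ⟨false,0,⟨5,[(4,1),(29,1),(11,0),(4,0)]⟩,⟨1,[(33,1),(12,0),(4,0)]⟩⟩,.a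
  ⟨true,0,⟨13,[(4,4),(2,3),(21,3),(9,0),(1,0),(3,1),(5,2)]⟩,⟨0,[(33,0)]⟩⟩ ⟨true,0,⟨0,[(49,0)]⟩,⟨70,
  [(8,1),(0,4),(5,14),(0,10),(5,7),(0,20),(21,0)]⟩⟩ ⟨false,1,⟨11,[(1,3),(2,1),(2,7),(35,1),(1,0),(4,
  2)]⟩,⟨0,[(0,0),(32,0)]⟩⟩,.o ⟨false,0,⟨0,[(0,0)]⟩,⟨0,[(28,0)]⟩⟩,.o ⟨false,0,⟨2,[(0,1),(14,0),(13,
  0),(6,0)]⟩,⟨0,[(1,0)]⟩⟩]⟩))))))))))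

theorem ok65 : chk K t65 l42 = true := by decide +kernel

noncomputable def t66 : Tre :=
  (.I [0,0,-2,-1,1,0,0,-1] (.Q [0,0,2,0,-1,0,-1,0,0,0,-1] (.p false [0,0,1] [] (⟨0,[(30,0)]⟩,⟨0,
  [(29,0)]⟩) .k 0 (⟨0,[]⟩,⟨0,[]⟩) .k .k) (.R ⟨0,false,false,true,[1,-1,-1],[1,-1],[1,0,1],(⟨0,[(19,
  0)]⟩,⟨160,[(2,8),(3,14),(9,11),(0,8),(13,160),(0,25),(3,2),(0,44),(0,14)]⟩),(⟨0,[(34,0)]⟩,⟨0,[(35,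
  0)]⟩),⟨2,[(7,1),(23,0),(0,0),(4,2)]⟩,.k,.k,(.r (-1) ⟨1,[(1,1),(4,1),(32,0),(4,0)]⟩ ⟨61,[(0,3),(2,
  32),(1,9),(2,13),(6,38),(0,15),(21,1)]⟩),.k,.k,.k,⟨true,0,⟨18,[(0,5),(2,2),(1,2),(2,8),(7,4),(21,
  2),(5,6)]⟩,⟨2,[(2,0),(3,1),(4,0),(27,0),(0,0)]⟩⟩,⟨false,1,⟨0,[(28,0),(14,0)]⟩,⟨0,[(14,0)]⟩⟩,
  ⟨false,0,⟨7,[(0,1),(2,4),(4,1),(8,2),(20,0)]⟩,⟨0,[(1,0)]⟩⟩,⟨true,0,⟨0,[(26,0)]⟩,⟨2,[(0,0),(1,0),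
  (9,1)]⟩⟩,⟨false,0,⟨0,[]⟩,⟨0,[]⟩⟩,⟨false,0,⟨0,[]⟩,⟨0,[]⟩⟩,[.e ⟨false,0,⟨0,[]⟩,⟨4,[(1,1),(15,1),(18,
  0),(6,0)]⟩⟩ ⟨false,1,⟨0,[(1,0),(24,0)]⟩,⟨2,[(0,0),(2,0),(6,0),(3,0),(29,0)]⟩⟩,.o ⟨false,0,⟨0,[(42,
  0)]⟩,⟨13,[(16,5),(19,1),(2,6),(0,1),(2,0)]⟩⟩,.a ⟨true,(-1),⟨17,[(0,9),(2,2),(2,5),(2,2),(15,4),
  (12,1),(5,2)]⟩,⟨0,[(28,0),(14,0)]⟩⟩ ⟨true,0,⟨1,[(28,0),(0,0)]⟩,⟨5,[(2,0),(3,1),(4,0),(27,0),(0,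
  3)]⟩⟩ ⟨false,1,⟨2,[(1,0),(0,0),(23,1),(1,0),(15,0)]⟩,⟨2,[(0,0),(2,0),(6,0),(3,0),(29,0)]⟩⟩,.o
  ⟨false,(-1),⟨0,[(0,0)]⟩,⟨1,[(28,1),(10,0),(3,2)]⟩⟩]⟩) (.I [0,-1,-1,-2,1,0,0,-1] (.Q [0,-1,2,0,-1,
  0,-2,-1,0,1,-2] (.p false [0,0,1] [1,0,-1] (⟨0,[(32,0)]⟩,⟨0,[(31,0)]⟩) .k 2 (⟨0,[(31,0)]⟩,⟨0,[(32,
  0)]⟩) .k (.r 0 ⟨0,[(5,1)]⟩ ⟨12,[(0,4),(1,9),(6,7),(0,7),(6,5),(10,2),(0,2)]⟩)) (.R ⟨0,false,false,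
  true,[1,-1,-1],[0,0,1],[1,1,0,0,0,0,0,1],(⟨0,[(21,0)]⟩,⟨52,[(1,2),(6,2),(9,2),(0,2),(13,52),(0,7),
  (3,2),(0,14),(0,5)]⟩),(⟨0,[(33,0)]⟩,⟨0,[(32,0)]⟩),⟨2,[(9,1),(23,0),(0,0),(4,2)]⟩,.k,.k,(.r (-1)
  ⟨1,[(2,1),(4,1),(0,7),(32,4),(4,4)]⟩ ⟨105,[(0,3),(4,58),(1,17),(2,25),(6,68),(0,23),(21,1)]⟩),(.r
  (-1) ⟨12,[(1,5),(1,11),(6,6),(0,6),(6,1),(10,0),(0,0)]⟩ ⟨1,[(5,0),(7,1),(3,0)]⟩),.k,.k,⟨true,0,⟨0,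
  []⟩,⟨1,[(30,0),(0,0)]⟩⟩,⟨false,2,⟨10,[(2,14),(1,1),(5,4),(7,1),(9,1),(12,2)]⟩,⟨3,[(0,1),(7,0),(2,
  0),(1,2),(2,2)]⟩⟩,⟨true,(-1),⟨0,[(5,1),(2,1),(32,0),(0,0)]⟩,⟨12,[(1,5),(1,11),(6,6),(0,6),(6,1),
  (10,0),(0,0)]⟩⟩,⟨false,1,⟨1,[(2,1),(2,0),(4,1),(2,2),(28,0)]⟩,⟨0,[(0,0),(2,0)]⟩⟩,⟨false,0,⟨0,[]⟩,
  ⟨0,[]⟩⟩,⟨false,0,⟨0,[]⟩,⟨0,[]⟩⟩,[.a ⟨true,0,⟨0,[(28,0)]⟩,⟨4,[(0,1),(2,1),(3,0),(32,0),(5,1)]⟩⟩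
  ⟨false,0,⟨5,[(4,0),(3,1),(4,6),(27,0),(0,3)]⟩,⟨2,[(1,1),(10,0),(5,0),(11,0)]⟩⟩ ⟨true,1,⟨2,[(2,2),
  (5,0),(1,1),(2,1),(14,0),(12,0),(0,0)]⟩,⟨0,[(0,0)]⟩⟩,.o ⟨false,1,⟨1,[(28,1),(12,0),(4,0)]⟩,⟨3,[(0,
  0),(3,0),(6,0),(2,0),(26,0)]⟩⟩,.a ⟨true,(-1),⟨6,[(0,2),(4,0),(1,0),(0,2),(4,2)]⟩,⟨3,[(2,1),(1,0),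
  (13,0),(9,0),(1,0)]⟩⟩ ⟨false,0,⟨0,[(13,0)]⟩,⟨2,[(1,1),(10,0),(5,0),(11,0)]⟩⟩ ⟨true,1,⟨2,[(2,2),(5,
  0),(1,1),(2,1),(14,0),(12,0),(0,0)]⟩,⟨13,[(0,7),(3,0),(3,2),(2,4),(4,6),(24,0)]⟩⟩,.a ⟨true,(-1),
  ⟨6,[(0,3),(4,0),(2,3),(1,0),(6,1),(1,0)]⟩,⟨0,[(2,0)]⟩⟩ ⟨true,0,⟨5,[(4,0),(3,1),(4,6),(27,0),(0,
  3)]⟩,⟨27,[(0,0),(0,10),(8,14),(0,13),(6,3),(10,1),(0,2)]⟩⟩ ⟨false,2,⟨1,[(2,1),(25,1),(12,0),(4,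
  0)]⟩,⟨0,[(0,0)]⟩⟩]⟩) (.R ⟨0,false,false,true,[1,-1,-1],[0,0,1],[1,1,0,0,0,0,0,1],(⟨0,[(21,0)]⟩,
  ⟨52,[(1,2),(6,2),(9,2),(0,2),(13,52),(0,7),(3,2),(0,14),(0,5)]⟩),(⟨0,[(33,0)]⟩,⟨0,[(32,0)]⟩),⟨2,
  [(9,1),(23,0),(0,0),(4,2)]⟩,.k,.k,(.r (-1) ⟨1,[(0,1),(6,3),(0,11),(32,6),(4,8)]⟩ ⟨53,[(5,30),(1,
  9),(2,13),(6,32),(0,11),(12,3),(8,1)]⟩),(.r (-1) ⟨12,[(1,5),(1,11),(6,6),(0,6),(6,1),(10,0),(0,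
  0)]⟩ ⟨1,[(5,0),(7,1),(3,0)]⟩),.k,.k,⟨true,0,⟨0,[]⟩,⟨1,[(30,0),(0,0)]⟩⟩,⟨false,2,⟨12,[(0,5),(0,1),
  (0,8),(0,3),(6,4),(7,3),(22,0)]⟩,⟨0,[(5,0),(2,0),(5,0),(1,0),(27,0)]⟩⟩,⟨true,(-1),⟨6,[(0,1),(4,
  10),(1,3),(0,11),(4,4),(27,6)]⟩,⟨12,[(1,5),(1,11),(6,6),(0,6),(6,1),(10,0),(0,0)]⟩⟩,⟨false,1,⟨3,
  [(0,2),(4,2),(4,0),(8,0),(8,0)]⟩,⟨0,[(8,0),(5,1),(29,1),(1,0)]⟩⟩,⟨false,0,⟨0,[]⟩,⟨0,[]⟩⟩,⟨false,0,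
  ⟨0,[]⟩,⟨0,[]⟩⟩,[.e ⟨false,0,⟨2,[(0,0),(7,0),(4,1),(2,1),(25,0)]⟩,⟨2,[(1,1),(10,0),(5,0),(11,0)]⟩⟩
  ⟨false,1,⟨0,[(0,0)]⟩,⟨0,[(8,0),(5,0),(16,0),(14,0)]⟩⟩,.o ⟨false,1,⟨12,[(0,3),(0,1),(8,2),(2,4),(5,
  3),(8,1),(12,2)]⟩,⟨0,[(14,0),(29,0)]⟩⟩,.a ⟨true,(-1),⟨0,[(5,0),(2,0),(5,0),(29,0)]⟩,⟨3,[(2,1),(1,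
  0),(13,0),(9,0),(1,0)]⟩⟩ ⟨false,0,⟨0,[(13,0)]⟩,⟨2,[(1,1),(10,0),(5,0),(11,0)]⟩⟩ ⟨true,1,⟨34,[(0,
  24),(3,3),(5,9),(7,1),(0,3),(8,9),(9,2)]⟩,⟨0,[(5,0),(2,0),(5,1),(29,1)]⟩⟩,.e ⟨true,0,⟨2,[(0,0),(7,
  0),(4,1),(2,1),(25,0)]⟩,⟨25,[(1,10),(8,15),(0,13),(6,3),(10,0),(1,0),(8,0)]⟩⟩ ⟨true,1,⟨0,[(0,0)]⟩,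
  ⟨0,[(8,0),(1,0),(0,0),(4,1),(29,0)]⟩⟩]⟩)) (.Q [0,-1,-2,0,2,0,2,1,0,-1,2] (.p true [0,0,1] [1,0,
  -1] (⟨0,[(32,0)]⟩,⟨0,[(31,0)]⟩) .k 2 (⟨0,[(31,0)]⟩,⟨0,[(32,0)]⟩) .k (.r 0 ⟨0,[(5,1)]⟩ ⟨6,[(2,1),
  (0,5),(5,5),(0,5),(6,3),(27,0)]⟩)) (.R ⟨0,false,false,false,[1,-1,-1],[0,0,1],[1,0,0,0,0,0,0,1],
  (⟨0,[(21,0)]⟩,⟨160,[(4,8),(3,14),(9,11),(0,8),(13,160),(0,25),(3,2),(0,44),(0,14)]⟩),(⟨0,[(33,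
  0)]⟩,⟨0,[(32,0)]⟩),⟨2,[(9,1),(23,0),(0,0),(4,2)]⟩,.k,.k,(.r (-1) ⟨1,[(0,1),(6,3),(0,11),(32,6),(4,
  6)]⟩ ⟨7,[(1,3),(8,1),(6,0),(0,1),(0,2),(11,1),(8,0)]⟩),(.r (-1) ⟨6,[(3,3),(0,4),(5,4),(0,4),(6,0),
  (27,1)]⟩ ⟨1,[(5,0),(7,1),(3,0)]⟩),.k,.k,⟨true,0,⟨0,[]⟩,⟨1,[(30,0),(0,0)]⟩⟩,⟨false,2,⟨28,[(0,7),(1,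
  26),(0,7),(6,14),(7,3),(19,5),(2,2)]⟩,⟨0,[(5,0),(2,0),(5,0),(1,0),(27,0)]⟩⟩,⟨false,0,⟨0,[(5,0),(7,
  0)]⟩,⟨6,[(3,3),(0,4),(5,4),(0,4),(6,0),(27,1)]⟩⟩,⟨true,1,⟨21,[(0,11),(0,5),(3,8),(4,3),(8,0),(8,
  15),(12,2)]⟩,⟨0,[(8,0),(5,1),(29,1)]⟩⟩,⟨false,0,⟨0,[]⟩,⟨0,[]⟩⟩,⟨false,0,⟨0,[]⟩,⟨0,[]⟩⟩,[.o ⟨false,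
  1,⟨8,[(0,1),(9,0),(2,0),(5,1),(8,3),(12,2),(2,1)]⟩,⟨0,[(14,0),(29,0)]⟩⟩,.e ⟨false,1,⟨1,[(13,1),
  (31,0),(0,0)]⟩,⟨4,[(3,1),(6,1),(0,1),(17,0),(0,0),(7,0)]⟩⟩ ⟨false,2,⟨0,[(0,0)]⟩,⟨0,[(8,0),(5,0),
  (16,0)]⟩⟩,.a ⟨true,(-1),⟨0,[(5,0),(2,0),(5,0),(29,0)]⟩,⟨3,[(2,1),(1,0),(13,0),(9,0),(1,0)]⟩⟩
  ⟨true,0,⟨0,[(13,0)]⟩,⟨4,[(3,1),(6,1),(0,1),(17,0),(0,0),(7,0)]⟩⟩ ⟨false,2,⟨13,[(0,10),(3,1),(5,2),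
  (8,3),(8,0),(1,1)]⟩,⟨0,[(5,0),(2,0),(5,1),(29,1)]⟩⟩,.e ⟨false,1,⟨1,[(13,1),(31,0),(0,0)]⟩,⟨7,[(4,
  1),(5,5),(0,3),(17,1),(10,0),(5,2)]⟩⟩ ⟨false,2,⟨0,[(0,0)]⟩,⟨0,[(8,0),(1,0),(0,0),(4,1),(29,
  0)]⟩⟩]⟩) (.R ⟨0,false,false,false,[1,-1,-1],[0,0,1],[1,0,0,0,0,0,0,1],(⟨0,[(21,0)]⟩,⟨160,[(4,8),
  (3,14),(9,11),(0,8),(13,160),(0,25),(3,2),(0,44),(0,14)]⟩),(⟨0,[(33,0)]⟩,⟨0,[(32,0)]⟩),⟨2,[(9,1),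
  (23,0),(0,0),(4,2)]⟩,.k,.k,(.r (-1) ⟨1,[(2,1),(4,1),(0,7),(32,4),(4,4)]⟩ ⟨17,[(0,1),(0,7),(8,3),
  (6,2),(0,3),(0,8),(20,0)]⟩),(.r (-1) ⟨16,[(0,4),(2,23),(6,4),(3,4),(3,0),(11,9),(15,1)]⟩ ⟨1,[(5,
  0),(7,1),(3,0)]⟩),.k,.k,⟨true,0,⟨0,[]⟩,⟨1,[(30,0),(0,0)]⟩⟩,⟨false,2,⟨10,[(2,14),(1,1),(5,4),(7,1),
  (9,1),(12,2)]⟩,⟨2,[(0,1),(12,1),(2,0),(10,0),(18,0)]⟩⟩,⟨false,0,⟨0,[(5,0),(7,0)]⟩,⟨16,[(0,4),(2,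
  23),(6,4),(3,4),(3,0),(11,9),(15,1)]⟩⟩,⟨true,1,⟨4,[(1,0),(0,4),(2,2),(4,2),(2,3),(14,1),(12,0)]⟩,
  ⟨0,[(0,0),(2,0)]⟩⟩,⟨false,0,⟨0,[]⟩,⟨0,[]⟩⟩,⟨false,0,⟨0,[]⟩,⟨0,[]⟩⟩,[.o ⟨false,1,⟨1,[(28,1),(12,0),
  (4,0)]⟩,⟨7,[(0,1),(3,1),(9,3),(26,0),(4,0)]⟩⟩,.a ⟨true,1,⟨0,[(28,0),(17,0)]⟩,⟨4,[(0,0),(3,0),(3,
  0),(2,2)]⟩⟩ ⟨false,1,⟨1,[(13,1),(31,0),(0,0)]⟩,⟨4,[(3,1),(6,1),(0,1),(17,0),(0,0),(7,0)]⟩⟩ ⟨true,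
  2,⟨3,[(2,3),(7,1),(2,1),(14,1),(12,0),(4,2)]⟩,⟨0,[(0,0)]⟩⟩,.a ⟨true,(-1),⟨3,[(0,1),(5,1),(33,0),
  (5,0)]⟩,⟨3,[(2,1),(1,0),(13,0),(9,0),(1,0)]⟩⟩ ⟨true,0,⟨0,[(13,0)]⟩,⟨4,[(3,1),(6,1),(0,1),(17,0),
  (0,0),(7,0)]⟩⟩ ⟨false,2,⟨3,[(2,3),(7,1),(2,1),(14,1),(12,0),(4,2)]⟩,⟨10,[(0,7),(3,0),(9,1),(1,0),
  (10,2),(18,3)]⟩⟩,.a ⟨true,(-1),⟨6,[(0,3),(4,0),(2,3),(1,0),(8,2),(26,1)]⟩,⟨0,[(2,0)]⟩⟩ ⟨false,1,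
  ⟨1,[(13,1),(31,0),(0,0)]⟩,⟨16,[(0,4),(2,6),(6,4),(3,4),(3,0),(11,9),(15,1)]⟩⟩ ⟨true,2,⟨1,[(2,1),
  (25,1),(12,0),(4,0)]⟩,⟨0,[(0,0)]⟩⟩]⟩)))) (.Q [0,0,-1,0,1,0,1,0,-1,0,1,-1] (.p true [0,0,1] [0,0,0,
  0,1] (⟨0,[(30,0)]⟩,⟨0,[(29,0)]⟩) .k 2 (⟨0,[(23,0)]⟩,⟨0,[(22,0)]⟩) .k (.r (-1) ⟨3,[(1,0),(8,2),(5,
  1),(26,0)]⟩ ⟨4,[(1,1),(2,0),(2,1),(0,0),(3,0),(14,0),(7,0)]⟩)) (.Q [0,1,0,0,0,0,0,0,1,-1,0,1] (.p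
  true [0,0,0,0,1] [1] (⟨0,[(24,0)]⟩,⟨0,[(23,0)]⟩) .k 1 (⟨0,[]⟩,⟨0,[]⟩) .k .k) (.I [0,0,-2,0,2,-2,
  1] (.R ⟨0,false,false,true,[1,-1,-1],[1,0,0,0,-1],[1,0,1],(⟨0,[(21,0)]⟩,⟨160,[(4,8),(3,14),(9,11),
  (0,8),(13,160),(0,25),(3,2),(0,44),(0,14)]⟩),(⟨0,[(25,0)]⟩,⟨0,[(26,0)]⟩),⟨2,[(9,1),(23,0),(0,0),
  (4,2)]⟩,.k,.k,(.x 1 ⟨14,[(3,8),(4,11),(1,1),(3,8),(16,7),(1,14),(5,9),(4,5),(1,5)]⟩ ⟨0,[(0,0)]⟩),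
  (.r (-1) ⟨15,[(4,12),(12,3),(0,2),(10,6),(0,6),(7,3)]⟩ ⟨0,[(5,0)]⟩),.k,.k,⟨false,0,⟨0,[]⟩,⟨14,[(4,
  3),(13,1),(0,3),(18,2),(6,4)]⟩⟩,⟨true,1,⟨0,[(2,0)]⟩,⟨0,[(3,0),(10,0),(9,0),(19,1)]⟩⟩,⟨true,(-1),
  ⟨0,[(3,0)]⟩,⟨22,[(1,2),(0,2),(1,18),(2,2),(7,0),(2,3),(11,0),(7,9)]⟩⟩,⟨false,1,⟨0,[(2,0),(2,0)]⟩,
  ⟨0,[(14,0),(9,0),(19,1)]⟩⟩,⟨false,0,⟨0,[]⟩,⟨0,[]⟩⟩,⟨false,0,⟨0,[]⟩,⟨0,[]⟩⟩,[.a ⟨true,0,⟨1,[(2,1),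
  (0,0),(4,1),(5,0),(1,0),(29,0)]⟩,⟨0,[(24,0)]⟩⟩ ⟨false,0,⟨0,[]⟩,⟨14,[(4,3),(13,1),(0,3),(18,2),(6,
  4)]⟩⟩ ⟨true,1,⟨0,[(2,0)]⟩,⟨0,[(3,0),(10,0),(9,0),(19,1)]⟩⟩,.o ⟨false,1,⟨1,[(2,1),(0,0),(10,0),(1,
  0),(27,1),(1,0)]⟩,⟨0,[(1,0)]⟩⟩,.e ⟨true,0,⟨1,[(30,0),(0,0)]⟩,⟨5,[(4,0),(3,1),(4,0),(27,0),(0,
  3)]⟩⟩ ⟨true,1,⟨0,[(2,0)]⟩,⟨1,[(1,0),(1,0),(4,0),(5,0),(1,0),(7,0),(19,0)]⟩⟩,.o ⟨false,(-1),⟨0,[(3,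
  0),(10,0),(29,1)]⟩,⟨1,[(1,1),(0,1),(42,0),(0,0)]⟩⟩]⟩) (.Q [0,0,0,0,0,0,0,0,0,1,-1,-1] (.ed true
  [0,0,1,0,1] (.r 0 ⟨2,[(13,1),(14,0),(2,0),(6,0)]⟩ ⟨3,[(4,1),(5,0),(0,0),(2,0),(3,0),(11,0),(15,
  1)]⟩)) (.Q [0,2,0,1,-1,0,0,0,1,0,0,1] (.p true [0,0,0,0,1] [] (⟨0,[(27,0)]⟩,⟨0,[(26,0)]⟩) .k 0
  (⟨0,[]⟩,⟨0,[]⟩) .k .k) (.I [0,0,-2,-2,1,0,0,-1] (.R ⟨0,false,false,true,[1,-1,-1],[1,0,0,0,-1],[1,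
  0,1],(⟨0,[(24,0)]⟩,⟨157,[(0,8),(10,14),(9,11),(0,8),(13,157),(0,22),(3,2),(0,44),(0,14)]⟩),(⟨0,
  [(28,0)]⟩,⟨0,[(29,0)]⟩),⟨2,[(12,1),(23,0),(0,0),(4,2)]⟩,.k,.k,(.r (-1) ⟨0,[(0,0)]⟩ ⟨1,[(6,0),(13,
  0),(0,0)]⟩),(.r (-1) ⟨15,[(7,12),(12,3),(0,2),(10,6),(0,6),(7,3)]⟩ ⟨0,[(8,0)]⟩),.k,.k,⟨false,0,⟨0,
  []⟩,⟨14,[(7,3),(13,1),(0,3),(18,2),(6,4)]⟩⟩,⟨true,1,⟨0,[(5,0)]⟩,⟨20,[(3,14),(0,17),(7,4),(0,1),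
  (10,19),(2,2),(6,7),(14,8)]⟩⟩,⟨true,(-1),⟨0,[(6,0)]⟩,⟨5,[(1,0),(3,0),(1,4),(10,0),(2,0),(19,1)]⟩⟩,
  ⟨false,1,⟨0,[(5,0),(2,0)]⟩,⟨62,[(3,29),(0,35),(2,41),(4,9),(0,3),(3,20),(6,39),(2,26),(6,15),(14,
  17)]⟩⟩,⟨false,0,⟨0,[]⟩,⟨0,[]⟩⟩,⟨false,0,⟨0,[]⟩,⟨0,[]⟩⟩,[.a ⟨true,0,⟨7,[(3,3),(1,5),(6,0),(11,4),
  (1,1),(3,1),(8,0)]⟩,⟨0,[(27,0)]⟩⟩ ⟨false,0,⟨0,[]⟩,⟨14,[(7,3),(13,1),(0,3),(18,2),(6,4)]⟩⟩ ⟨true,1,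
  ⟨0,[(5,0)]⟩,⟨20,[(3,14),(0,17),(7,4),(0,1),(10,19),(2,2),(6,7),(14,8)]⟩⟩,.o ⟨false,1,⟨7,[(3,2),(1,
  5),(6,0),(6,2),(4,3),(1,1),(17,1),(4,3)]⟩,⟨0,[(4,0)]⟩⟩,.e ⟨true,0,⟨1,[(33,0),(0,0)]⟩,⟨5,[(7,0),(3,
  1),(4,0),(27,0),(0,3)]⟩⟩ ⟨true,1,⟨0,[(5,0)]⟩,⟨25,[(1,0),(1,11),(0,22),(6,0),(0,3),(10,5),(0,15),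
  (2,1),(6,1)]⟩⟩,.o ⟨false,(-1),⟨20,[(3,14),(8,4),(0,1),(10,19),(9,7),(9,8)]⟩,⟨1,[(4,1),(0,1),(42,
  0),(0,0)]⟩⟩]⟩) (.Q [0,0,0,0,0,1,0,0,0,0,0,-1] (.ed true [1,-1,0,0,1] .k) (.Q [0,0,1,0,0,0,0,0,1,
  -1,0,1] (.p true [0,0,0,0,1] [1] (⟨0,[(30,0)]⟩,⟨0,[(29,0)]⟩) .k 1 (⟨0,[]⟩,⟨0,[]⟩) .k .k) (.R ⟨0,
  false,false,true,[0,0,0,0,1],[1,-1],[1,0,1],(⟨0,[(31,0)]⟩,⟨0,[(30,0)]⟩),(⟨0,[(41,0)]⟩,⟨0,[(42,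
  0)]⟩),⟨0,[(1,0)]⟩,.k,.k,(.r 0 ⟨2,[(9,0),(3,1),(4,0),(27,0),(0,0)]⟩ ⟨6,[(9,0),(13,3),(0,0),(10,1),
  (0,1),(14,0)]⟩),(.r 0 ⟨4,[(15,0),(0,0),(5,1),(0,0),(10,0),(0,0),(7,0)]⟩ ⟨1,[(9,0),(8,0),(32,0)]⟩),
  .k,.k,⟨true,0,⟨9,[(5,2),(2,0),(5,0),(0,3),(3,0),(3,3),(2,3),(24,2)]⟩,⟨2,[(9,0),(3,1),(4,0),(27,0),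
  (0,0)]⟩⟩,⟨false,0,⟨7,[(5,3),(1,5),(6,0),(11,4),(1,1),(3,1),(8,0)]⟩,⟨1,[(6,1),(43,0),(0,0)]⟩⟩,
  ⟨false,1,⟨1,[(35,0),(0,0),(14,1)]⟩,⟨5,[(9,0),(3,1),(4,0),(27,0),(0,3)]⟩⟩,⟨true,0,⟨12,[(5,5),(1,8),
  (5,1),(0,1),(11,7),(1,3),(3,2),(16,10),(1,0)]⟩,⟨1,[(3,1),(42,0),(4,0)]⟩⟩,⟨false,0,⟨0,[]⟩,⟨0,[]⟩⟩,
  ⟨false,0,⟨0,[]⟩,⟨0,[]⟩⟩,[.e ⟨false,0,⟨0,[]⟩,⟨14,[(9,3),(13,1),(0,3),(18,2),(6,4)]⟩⟩ ⟨false,0,⟨0,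
  [(7,0),(5,0),(7,0)]⟩,⟨1,[(3,1),(42,0),(4,2)]⟩⟩,.o ⟨false,0,⟨0,[(49,0)]⟩,⟨13,[(23,5),(19,1),(2,6),
  (0,1),(2,0)]⟩⟩,.a ⟨true,0,⟨0,[(29,0)]⟩,⟨7,[(5,3),(1,5),(6,0),(11,4),(1,1),(3,1),(8,0)]⟩⟩ ⟨true,0,
  ⟨1,[(35,0),(0,0)]⟩,⟨5,[(9,0),(3,1),(4,0),(27,0),(0,3)]⟩⟩ ⟨false,0,⟨12,[(5,5),(1,8),(5,1),(0,1),
  (11,7),(1,3),(3,2),(16,10),(1,0)]⟩,⟨1,[(3,1),(42,0),(4,2)]⟩⟩,.o ⟨false,0,⟨0,[(0,0)]⟩,⟨0,[(7,0),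
  (13,0)]⟩⟩]⟩) (.R ⟨0,false,false,true,[0,1,0,0,-1],[1,0,0,0,-1],[1,0,1,1],(⟨0,[(1,0)]⟩,⟨0,[(31,0),
  (9,0)]⟩),(⟨0,[(30,0)]⟩,⟨0,[(31,0)]⟩),⟨0,[(31,0)]⟩,(.r (-1) ⟨6,[(9,0),(13,3),(0,0),(10,1),(0,1),
  (14,0)]⟩ ⟨2,[(9,0),(3,1),(4,0),(27,0),(0,0)]⟩),.k,.k,.k,.k,.k,⟨true,0,⟨9,[(8,0),(6,1),(0,1),(5,0),
  (0,2)]⟩,⟨0,[(49,0)]⟩⟩,⟨false,0,⟨5,[(9,0),(3,0),(9,0),(0,0),(14,0),(1,0),(3,1),(7,0)]⟩,⟨1,[(46,0),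
  (3,0)]⟩⟩,⟨false,0,⟨0,[]⟩,⟨13,[(9,3),(13,1),(0,3),(10,0),(0,0),(14,3)]⟩⟩,⟨true,(-1),⟨0,[(13,0)]⟩,
  ⟨13,[(23,5),(19,1),(2,6),(0,1),(2,0)]⟩⟩,⟨false,0,⟨0,[]⟩,⟨0,[]⟩⟩,⟨false,0,⟨0,[]⟩,⟨0,[]⟩⟩,[.a ⟨true,
  0,⟨16,[(0,10),(4,1),(9,1),(10,1),(1,5),(12,1),(3,1),(6,2)]⟩,⟨0,[(29,0)]⟩⟩ ⟨true,0,⟨9,[(8,0),(6,1),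
  (0,1),(5,0),(0,2)]⟩,⟨0,[(49,0)]⟩⟩ ⟨false,0,⟨5,[(9,0),(3,0),(9,0),(0,0),(14,0),(1,0),(3,1),(7,0)]⟩,
  ⟨1,[(46,0),(3,0)]⟩⟩,.o ⟨false,1,⟨45,[(0,23),(4,5),(8,1),(0,5),(10,7),(1,21),(17,12),(4,22)]⟩,⟨0,
  [(6,0)]⟩⟩,.o ⟨false,1,⟨0,[(0,0),(45,0)]⟩,⟨1,[(29,1),(5,0),(0,0)]⟩⟩,.o ⟨false,1,⟨22,[(0,11),(4,2),
  (8,0),(0,2),(10,3),(1,10),(17,17)]⟩,⟨0,[(29,0)]⟩⟩]⟩)) (.R ⟨0,false,false,true,[1,0,-1,0,-1],[0,1],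
  [],(⟨0,[(3,0)]⟩,⟨0,[(30,0),(6,0)]⟩),(⟨0,[(41,0)]⟩,⟨0,[(40,0)]⟩),⟨2,[(0,2),(12,1),(23,0),(0,0),(4,
  2)]⟩,.k,.k,(.r (-2) ⟨6,[(8,7),(13,3),(0,0),(10,1),(0,1),(14,0)]⟩ ⟨4,[(7,3),(4,1),(4,0),(27,0),(0,
  2)]⟩),(.r (-2) ⟨6,[(8,7),(13,3),(0,0),(10,1),(0,1),(14,0)]⟩ ⟨4,[(7,3),(4,1),(4,0),(27,0),(0,2)]⟩),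
  .k,.k,⟨true,1,⟨1,[(8,0),(8,0),(32,0)]⟩,⟨15,[(7,6),(4,0),(1,8),(0,7),(5,1),(11,0),(8,1)]⟩⟩,⟨false,
  2,⟨1,[(5,1),(0,1),(21,1),(20,0),(0,0)]⟩,⟨1,[(4,2),(1,1),(6,0),(6,0),(4,3),(19,0),(3,0)]⟩⟩,⟨false,
  0,⟨0,[(10,0)]⟩,⟨3,[(8,1),(5,0),(0,0),(2,0),(3,0),(11,0),(15,1)]⟩⟩,⟨true,0,⟨1,[(2,1),(29,1),(12,0),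
  (4,0)]⟩,⟨3,[(4,5),(1,3),(1,2),(4,1),(2,0),(3,0),(4,7),(19,1),(3,0),(0,1)]⟩⟩,⟨false,0,⟨0,[]⟩,⟨0,
  []⟩⟩,⟨false,0,⟨0,[]⟩,⟨0,[]⟩⟩,[.e ⟨false,1,⟨14,[(8,3),(13,1),(0,3),(18,2),(6,4)]⟩,⟨0,[]⟩⟩ ⟨false,1,
  ⟨0,[(2,0),(2,0),(0,0),(43,0)]⟩,⟨1,[(4,2),(1,1),(1,0),(4,0),(3,0),(2,0),(4,3),(19,0),(3,0),(0,
  0)]⟩⟩,.o ⟨false,1,⟨13,[(22,5),(19,1),(2,6),(0,1),(2,0)]⟩,⟨0,[(48,0)]⟩⟩,.o ⟨false,0,⟨1,[(4,2),(1,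
  1),(6,0),(6,0),(4,3),(19,1),(3,1)]⟩,⟨1,[(5,1),(0,0),(21,0),(5,0),(15,0)]⟩⟩,.a ⟨true,(-1),⟨1,[(4,
  2),(1,1),(6,0),(6,0),(4,3),(19,0),(3,0)]⟩,⟨0,[(6,0),(21,1)]⟩⟩ ⟨false,1,⟨1,[(49,0),(0,0)]⟩,⟨1,[(34,
  0),(0,0)]⟩⟩ ⟨true,1,⟨0,[(2,0),(2,0),(0,0),(43,0)]⟩,⟨1,[(4,2),(1,1),(1,0),(4,0),(3,0),(2,0),(4,3),
  (19,0)]⟩⟩]⟩))) (.Q [0,0,1,0,0,0,1,0,-1,0,1,-1] (.p false [1,0,-1,0,1] [1] (⟨0,[(28,0),(5,0)]⟩,⟨2,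
  [(1,1),(9,4),(15,0),(8,0),(4,2)]⟩) .k 1 (⟨0,[]⟩,⟨0,[]⟩) .k (.r 0 ⟨4,[(6,1),(2,0),(2,1),(0,0),(3,
  0),(14,0),(7,0)]⟩ ⟨3,[(6,0),(8,2),(5,1),(26,0)]⟩)) (.K ⟨0,[0,0,1,0,-1],0,1,(⟨2,[(2,1),(9,4),(15,
  0),(8,0),(4,2)]⟩,⟨0,[(29,0),(5,0)]⟩),.k,(.r (-1) ⟨1,[(7,0),(8,2),(32,0)]⟩ ⟨0,[(18,0),(14,0)]⟩),
  (.r 0 ⟨0,[(8,0)]⟩ ⟨15,[(7,12),(12,3),(0,2),(10,6),(0,6),(7,3)]⟩),.k,.k,[⟨0,[(27,0)]⟩,⟨0,[(0,0)]⟩,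
  ⟨13,[(3,2),(0,13),(2,2),(3,2),(0,0),(1,8),(9,3),(7,1),(11,0)]⟩,⟨7,[(1,1),(3,2),(0,0),(9,0),(5,0),
  (3,2),(4,4)]⟩]⟩) (.R ⟨1,true,false,true,[1,0,-1],[1,0,-1,0,1],[0,1,0,-1,0,0,0,-1],(⟨0,[(35,0)]⟩,
  ⟨0,[(36,0)]⟩),(⟨0,[(29,0),(5,0)]⟩,⟨2,[(2,1),(9,4),(15,0),(8,0),(4,2)]⟩),⟨0,[(24,0)]⟩,.k,.k,.k,.k,
  (.r (-1) ⟨1,[(7,0),(8,0),(32,0)]⟩ ⟨4,[(13,0),(0,0),(5,1),(0,0),(10,0),(0,0),(7,0)]⟩),.k,⟨false,1,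
  ⟨1,[(7,0),(8,0),(32,0)]⟩,⟨0,[(46,0)]⟩⟩,⟨true,0,⟨0,[(27,0)]⟩,⟨10,[(1,4),(3,2),(0,4),(4,4),(1,1),(0,
  4),(11,2),(17,3)]⟩⟩,⟨false,0,⟨0,[(47,0)]⟩,⟨3,[(21,1),(26,0),(0,0)]⟩⟩,⟨true,(-1),⟨0,[(0,0),(10,0),
  (1,0),(31,0)]⟩,⟨6,[(1,2),(3,0),(2,0),(6,0),(10,2)]⟩⟩,⟨true,0,⟨0,[(51,0)]⟩,⟨0,[]⟩⟩,⟨false,0,⟨0,
  [(27,0),(18,0)]⟩,⟨0,[(1,0)]⟩⟩,[]⟩))) (.Q [0,0,-1,0,0,0,0,0,-1,1,0,-1] (.p false [0,0,0,0,1] [1]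
  (⟨0,[(27,0)]⟩,⟨0,[(26,0)]⟩) .k 1 (⟨0,[]⟩,⟨0,[]⟩) .k .k) (.S ⟨1,0,[0,-1,1],[1,1,0,0,-1],[1,0,1,1],
  (⟨160,[(6,8),(3,14),(9,11),(0,8),(5,160),(8,25),(3,2),(0,44),(0,14)]⟩,⟨0,[(1,0),(21,0)]⟩),⟨0,[(27,
  0)]⟩,(.r (-1) ⟨6,[(6,0),(13,3),(0,0),(10,1),(0,1),(14,0)]⟩ ⟨2,[(6,0),(3,1),(4,0),(27,0),(0,0)]⟩),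
  .k,⟨false,0,⟨0,[]⟩,⟨13,[(6,3),(13,1),(0,3),(10,0),(0,0),(14,3)]⟩⟩,⟨true,0,⟨0,[(46,0)]⟩,⟨0,[(45,
  0)]⟩⟩,⟨true,0,⟨0,[(45,0)]⟩,⟨0,[(46,0)]⟩⟩,⟨false,1,⟨13,[(6,3),(13,1),(0,3),(10,0),(0,0),(14,3)]⟩,
  ⟨0,[]⟩⟩,[.o ⟨false,1,⟨3,[(0,2),(11,0),(12,0),(7,0),(9,0),(4,1)]⟩,⟨0,[(3,0)]⟩⟩,.e ⟨false,1,⟨3,[(20,
  1),(26,0),(0,0)]⟩,⟨2,[(6,0),(3,1),(4,0),(27,0),(0,0)]⟩⟩ ⟨false,1,⟨0,[(48,0)]⟩,⟨0,[(40,0)]⟩⟩,.a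
  ⟨true,0,⟨0,[(0,0)]⟩,⟨1,[(26,1),(5,0),(0,0)]⟩⟩ ⟨true,0,⟨9,[(5,0),(6,1),(0,1),(5,0),(0,2)]⟩,⟨2,[(6,
  0),(3,1),(4,0),(27,0),(0,0)]⟩⟩ ⟨false,1,⟨1,[(32,0),(0,0),(14,1)]⟩,⟨5,[(6,0),(3,1),(4,0),(27,0),(0,
  3)]⟩⟩,.e ⟨false,1,⟨3,[(20,1),(26,0),(0,0)]⟩,⟨0,[(46,0)]⟩⟩ ⟨false,1,⟨0,[(48,0)]⟩,⟨0,[(50,0)]⟩⟩]⟩)
  (.S ⟨1,0,[0,0,1],[1,1,0,0,-1],[0,-1,1],(⟨160,[(6,8),(3,14),(9,11),(0,8),(5,160),(8,25),(3,2),(0,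
  44),(0,14)]⟩,⟨0,[(1,0),(21,0)]⟩),⟨0,[(27,0)]⟩,(.r (-1) ⟨6,[(6,0),(13,3),(0,0),(10,1),(0,1),(14,
  0)]⟩ ⟨2,[(6,0),(3,1),(4,0),(27,0),(0,0)]⟩),.k,⟨true,0,⟨0,[(46,0)]⟩,⟨0,[(45,0)]⟩⟩,⟨false,0,⟨0,[(46,
  0)]⟩,⟨3,[(20,1),(26,0),(0,0)]⟩⟩,⟨false,1,⟨13,[(6,3),(13,1),(0,3),(10,0),(0,0),(14,3)]⟩,⟨0,[]⟩⟩,
  ⟨true,0,⟨0,[(50,0)]⟩,⟨0,[]⟩⟩,[.a ⟨true,0,⟨7,[(2,3),(1,5),(6,0),(11,4),(1,1),(3,1),(8,0)]⟩,⟨0,[(26,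
  0)]⟩⟩ ⟨false,1,⟨13,[(6,3),(13,1),(0,3),(10,0),(0,0),(14,3)]⟩,⟨5,[(6,0),(3,1),(4,0),(27,0),(0,
  3)]⟩⟩ ⟨true,0,⟨1,[(32,0),(0,0)]⟩,⟨0,[]⟩⟩,.o ⟨false,1,⟨7,[(2,2),(1,5),(6,0),(6,2),(4,3),(1,1),(17,
  1),(4,3)]⟩,⟨0,[(3,0)]⟩⟩,.o ⟨false,1,⟨0,[(4,0),(13,0)]⟩,⟨0,[(0,0)]⟩⟩,.e ⟨false,1,⟨0,[(48,0)]⟩,⟨0,
  [(50,0)]⟩⟩ ⟨false,1,⟨13,[(6,3),(13,1),(0,3),(10,0),(0,0),(14,3)]⟩,⟨0,[]⟩⟩]⟩)))) (.R ⟨2,false,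
  false,true,[0,1],[1,0,0,0,-1],[0,0,1],(⟨0,[]⟩,⟨0,[]⟩),(⟨0,[(24,0)]⟩,⟨0,[(25,0)]⟩),⟨0,[]⟩,.k,.k,.k,
  (.r 0 ⟨4,[(9,0),(0,0),(5,1),(0,0),(10,0),(0,0),(7,0)]⟩ ⟨1,[(3,0),(8,0),(32,0)]⟩),.k,.k,⟨true,0,⟨1,
  [(29,0),(0,0)]⟩,⟨0,[]⟩⟩,⟨false,0,⟨6,[(0,3),(5,0),(0,1),(14,2),(4,0)]⟩,⟨1,[(23,1),(16,0),(3,0)]⟩⟩,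
  ⟨true,0,⟨0,[(43,0)]⟩,⟨0,[(42,0)]⟩⟩,⟨false,0,⟨0,[(0,0),(42,0)]⟩,⟨13,[(17,5),(5,13),(13,1),(2,6),(0,
  1),(2,0)]⟩⟩,⟨false,1,⟨13,[(3,3),(13,1),(0,3),(10,0),(0,0),(14,3)]⟩,⟨0,[]⟩⟩,⟨false,0,⟨0,[(0,0)]⟩,
  ⟨54,[(3,10),(5,4),(7,2),(0,15),(4,54),(4,4),(8,6),(2,24)]⟩⟩,[.a ⟨true,0,⟨6,[(0,3),(5,0),(0,1),(14,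
  2),(4,0)]⟩,⟨0,[(23,0)]⟩⟩ ⟨true,0,⟨1,[(29,0),(0,0)]⟩,⟨0,[]⟩⟩ ⟨false,0,⟨6,[(0,3),(5,0),(0,1),(14,2),
  (4,0)]⟩,⟨1,[(23,1),(16,0),(3,0)]⟩⟩,.e ⟨false,1,⟨13,[(3,3),(13,1),(0,3),(10,0),(0,0),(14,3)]⟩,⟨5,
  [(3,0),(3,1),(4,0),(27,0),(0,3)]⟩⟩ ⟨false,0,⟨0,[(0,0)]⟩,⟨29,[(3,3),(13,1),(0,3),(4,29),(13,17),(2,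
  14),(3,4)]⟩⟩,.o ⟨false,1,⟨1,[(40,0),(3,0)]⟩,⟨1,[(29,0),(0,0)]⟩⟩,.fo]⟩)) (.Q [0,-2,0,-1,1,0,-1,-1,
  -1,1,-1,-1] (.p false [0,0,1] [1,0,0,0,-1] (⟨0,[(31,0)]⟩,⟨0,[(30,0)]⟩) .k 2 (⟨0,[(23,0)]⟩,⟨0,[(24,
  0)]⟩) .k (.r 0 ⟨2,[(11,1),(14,0),(2,0),(6,0)]⟩ ⟨3,[(2,1),(5,0),(0,0),(2,0),(3,0),(11,0),(15,
  1)]⟩)) (.Q [0,-2,0,0,1,0,-1,-1,-1,1,-1,-1] (.p false [0,0,1] [1,0,0,0,-1] (⟨0,[(32,0)]⟩,⟨0,[(31,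
  0)]⟩) .k 2 (⟨0,[(24,0)]⟩,⟨0,[(25,0)]⟩) .k (.r 0 ⟨2,[(12,1),(14,0),(2,0),(6,0)]⟩ ⟨22,[(0,3),(2,9),
  (5,3),(1,8),(5,2),(5,3),(5,8),(15,5)]⟩)) (.Q [0,0,0,0,0,0,0,0,-1,1,0,-1] (.p false [0,0,0,0,1]
  [1] (⟨0,[(26,0)]⟩,⟨0,[(25,0)]⟩) .k 1 (⟨0,[]⟩,⟨0,[]⟩) .k .k) (.Q [0,0,-1,0,1,0,1,0,1,-1,1,1] (.p
  true [0,0,1] [1,0,0,0,-1] (⟨0,[(34,0)]⟩,⟨0,[(33,0)]⟩) .k 2 (⟨0,[(26,0)]⟩,⟨0,[(27,0)]⟩) .k (.r 0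
  ⟨2,[(14,1),(14,0),(2,0),(6,0)]⟩ ⟨22,[(2,3),(2,9),(5,3),(1,8),(5,2),(5,3),(5,8),(15,5)]⟩)) (.I [0,
  0,-2,0,2,-2,1] (.R ⟨0,false,false,false,[1,-1,-1],[0,0,0,0,1],[],(⟨0,[(24,0)]⟩,⟨160,[(7,8),(3,14),
  (9,11),(0,8),(13,160),(0,25),(3,2),(0,44),(0,14)]⟩),(⟨0,[(29,0)]⟩,⟨0,[(28,0)]⟩),⟨2,[(12,1),(23,0),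
  (0,0),(4,2)]⟩,.k,.k,(.x 1 ⟨19,[(4,5),(0,5),(0,10),(4,6),(1,2),(0,1),(17,2),(1,5),(1,19),(0,3),(4,
  11)]⟩ ⟨0,[(0,0)]⟩),(.r (-2) ⟨13,[(4,1),(2,14),(5,1),(7,6),(0,3),(4,1),(4,0),(0,0)]⟩ ⟨4,[(6,3),(4,
  1),(4,0),(27,0),(0,2)]⟩),.k,.k,⟨false,1,⟨1,[(48,0),(0,0)]⟩,⟨0,[(51,0)]⟩⟩,⟨true,1,⟨0,[(1,0)]⟩,⟨4,
  [(2,1),(1,2),(1,4),(4,3),(2,1),(29,2)]⟩⟩,⟨false,0,⟨0,[(8,0)]⟩,⟨3,[(7,2),(13,0),(10,0),(0,0)]⟩⟩,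
  ⟨true,0,⟨4,[(1,4),(4,3),(4,1),(4,0),(27,0),(0,2)]⟩,⟨4,[(2,1),(1,2),(6,3),(2,1),(29,2)]⟩⟩,⟨false,0,
  ⟨0,[]⟩,⟨0,[]⟩⟩,⟨false,0,⟨0,[]⟩,⟨0,[]⟩⟩,[.o ⟨false,0,⟨11,[(1,4),(3,6),(5,0),(1,1),(27,4),(2,2),(0,
  0)]⟩,⟨1,[(2,1),(41,0),(4,0)]⟩⟩,.a ⟨true,0,⟨0,[(27,0)]⟩,⟨0,[(2,0)]⟩⟩ ⟨false,1,⟨1,[(48,0),(0,0)]⟩,
  ⟨0,[(51,0)]⟩⟩ ⟨true,1,⟨0,[(1,0)]⟩,⟨4,[(2,1),(1,2),(1,4),(4,3),(2,1),(29,2)]⟩⟩,.e ⟨false,1,⟨2,[(1,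
  0),(2,0),(17,0)]⟩,⟨0,[]⟩⟩ ⟨false,1,⟨0,[(1,0)]⟩,⟨1,[(2,0),(1,0),(1,0),(12,0)]⟩⟩,.o ⟨false,(-1),⟨0,
  [(6,0),(10,0),(29,1)]⟩,⟨1,[(1,1),(0,1),(41,0),(3,0)]⟩⟩]⟩) (.Q [0,0,0,0,0,-1,0,0,0,0,0,1] (.ed
  false [1,-1,0,0,1] .k) (.S ⟨1,0,[0,0,1],[1,1,0,0,-1],[0,-1,1],(⟨160,[(8,8),(3,14),(9,11),(0,8),(5,
  160),(8,25),(3,2),(0,44),(0,14)]⟩,⟨0,[(0,0)]⟩),⟨0,[(29,0)]⟩,(.r (-1) ⟨13,[(5,1),(2,0),(5,1),(7,6),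
  (0,3),(4,1),(4,0),(0,0)]⟩ ⟨2,[(8,0),(3,1),(4,0),(27,0),(0,0)]⟩),.k,⟨true,0,⟨0,[(48,0)]⟩,⟨0,[(47,
  0)]⟩⟩,⟨false,0,⟨0,[(48,0)]⟩,⟨3,[(22,1),(26,0),(0,0)]⟩⟩,⟨false,1,⟨2,[(2,0),(2,0),(17,0)]⟩,⟨0,[]⟩⟩,
  ⟨true,0,⟨0,[(52,0)]⟩,⟨0,[]⟩⟩,[.a ⟨true,0,⟨0,[(3,0)]⟩,⟨0,[(28,0)]⟩⟩ ⟨false,1,⟨2,[(2,0),(2,0),(17,
  0)]⟩,⟨5,[(8,0),(3,1),(4,0),(27,0),(0,3)]⟩⟩ ⟨true,0,⟨1,[(34,0),(0,0)]⟩,⟨0,[]⟩⟩,.o ⟨false,1,⟨1,[(3,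
  1),(41,0),(4,0)]⟩,⟨11,[(2,4),(3,6),(5,0),(1,1),(27,4),(2,2),(0,0)]⟩⟩,.o ⟨false,1,⟨1,[(3,1),(41,0),
  (3,0)]⟩,⟨8,[(2,3),(3,4),(7,2),(20,1),(9,0)]⟩⟩,.e ⟨false,1,⟨0,[(50,0)]⟩,⟨0,[(52,0)]⟩⟩ ⟨false,1,⟨2,
  [(2,0),(2,0),(17,0)]⟩,⟨0,[]⟩⟩]⟩) (.R ⟨0,false,false,false,[0,0,0,0,1],[1,-1],[1,1,1],(⟨0,[(30,
  0)]⟩,⟨0,[(29,0)]⟩),(⟨0,[(40,0)]⟩,⟨0,[(41,0)]⟩),⟨0,[(0,0)]⟩,.k,.k,(.r 0 ⟨2,[(8,0),(3,1),(4,0),(27,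
  0),(0,0)]⟩ ⟨13,[(5,1),(2,0),(5,1),(7,6),(0,3),(4,1),(4,0),(0,0)]⟩),(.r 0 ⟨4,[(14,0),(0,0),(5,1),
  (0,0),(10,0),(0,0),(7,0)]⟩ ⟨1,[(8,0),(8,0),(32,0)]⟩),.k,.k,⟨true,(-1),⟨15,[(7,6),(4,0),(1,8),(0,
  7),(5,1),(11,0),(8,1)]⟩,⟨1,[(8,0),(8,0),(32,0)]⟩⟩,⟨false,0,⟨0,[(3,0)]⟩,⟨3,[(2,2),(3,0),(17,0),(20,
  0),(3,0)]⟩⟩,⟨true,0,⟨1,[(34,0),(0,0)]⟩,⟨5,[(8,0),(3,1),(4,0),(27,0),(0,3)]⟩⟩,⟨false,1,⟨0,[(3,0),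
  (44,0),(1,0)]⟩,⟨2,[(2,1),(3,0),(0,0),(3,0),(30,0),(2,0)]⟩⟩,⟨false,0,⟨0,[]⟩,⟨0,[]⟩⟩,⟨false,0,⟨0,
  []⟩,⟨0,[]⟩⟩,[.o ⟨false,0,⟨0,[(48,0)]⟩,⟨13,[(22,5),(19,1),(2,6),(0,1),(2,0)]⟩⟩,.e ⟨false,0,⟨0,[]⟩,
  ⟨14,[(8,3),(13,1),(0,3),(18,2),(6,4)]⟩⟩ ⟨false,1,⟨1,[(3,1),(4,0),(8,0),(32,0)]⟩,⟨2,[(2,1),(3,0),
  (0,0),(3,0),(30,0),(2,0)]⟩⟩,.a ⟨true,0,⟨0,[(28,0)]⟩,⟨0,[(3,0)]⟩⟩ ⟨false,0,⟨1,[(34,0),(0,0)]⟩,⟨1,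
  [(49,0),(0,0)]⟩⟩ ⟨true,0,⟨0,[(3,0),(44,0)]⟩,⟨2,[(2,1),(3,0),(0,0),(3,0),(30,0),(2,0)]⟩⟩,.o ⟨false,
  0,⟨8,[(2,3),(3,4),(7,2),(20,1),(9,0)]⟩,⟨1,[(3,1),(41,0),(3,0)]⟩⟩]⟩))) (.Q [0,0,0,0,0,0,0,0,0,-1,1,
  1] (.ed false [0,0,1,0,1] (.r 0 ⟨2,[(15,1),(14,0),(2,0),(6,0)]⟩ ⟨22,[(3,3),(2,9),(5,3),(1,8),(5,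
  2),(5,3),(5,8),(15,5)]⟩)) (.S ⟨1,0,[0,1,0,-1],[0,0,0,0,1],[1,2],(⟨0,[(29,0)]⟩,⟨0,[(28,0)]⟩),⟨0,
  [(0,0),(23,0)]⟩,.k,(.r 0 ⟨2,[(7,0),(3,1),(4,0),(27,0),(0,0)]⟩ ⟨13,[(4,1),(2,0),(5,1),(7,6),(0,3),
  (4,1),(4,0),(0,0)]⟩),⟨false,0,⟨0,[]⟩,⟨21,[(4,0),(2,5),(5,0),(7,2),(0,6),(4,0),(21,4)]⟩⟩,⟨true,0,
  ⟨0,[(47,0)]⟩,⟨0,[(46,0)]⟩⟩,⟨true,0,⟨0,[(46,0)]⟩,⟨0,[(47,0)]⟩⟩,⟨false,1,⟨21,[(4,0),(2,5),(5,0),(7,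
  2),(0,6),(4,0),(21,4)]⟩,⟨0,[]⟩⟩,[.o ⟨false,0,⟨0,[(11,0),(15,0),(16,0)]⟩,⟨2,[(1,0),(0,1),(10,0),
  (30,0),(0,2),(3,2)]⟩⟩,.a ⟨true,0,⟨0,[(27,0),(19,0)]⟩,⟨1,[(1,0),(0,0),(30,0),(11,1),(3,0)]⟩⟩
  ⟨false,0,⟨5,[(7,0),(3,1),(4,0),(27,0),(0,3)]⟩,⟨21,[(4,0),(2,5),(5,0),(7,2),(0,6),(4,0),(21,4)]⟩⟩
  ⟨true,0,⟨0,[(47,0)]⟩,⟨9,[(6,0),(6,1),(0,1),(5,0),(0,2)]⟩⟩,.e ⟨false,0,⟨0,[(51,0)]⟩,⟨0,[(49,0)]⟩⟩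
  ⟨false,0,⟨0,[(47,0)]⟩,⟨3,[(21,1),(26,0),(0,0)]⟩⟩,.o ⟨false,0,⟨2,[(5,0),(7,0),(13,1),(16,0)]⟩,⟨1,
  [(2,1),(41,0),(3,0)]⟩⟩]⟩) (.I [0,0,-2,0,2,-2,1] (.Q [0,0,0,0,1,0,2,0,1,-1,2,1] (.p true [0,0,1]
  [1,0,-1,0,-1] (⟨0,[(37,0)]⟩,⟨0,[(36,0)]⟩) .k 2 (⟨0,[(1,0)]⟩,⟨0,[(30,0),(6,0)]⟩) .k (.r 0 ⟨2,[(17,
  4),(14,0),(2,0),(6,0)]⟩ ⟨0,[(8,0),(2,0),(2,0),(35,0)]⟩)) (.K ⟨0,[1,0,-1,0,-1],(-1),0,(⟨0,[(2,0)]⟩,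
  ⟨0,[(31,0),(6,0)]⟩),.k,(.r (-2) ⟨7,[(0,1),(5,1),(2,6),(13,2),(0,1),(9,0),(1,0)]⟩ ⟨4,[(8,3),(4,1),
  (4,0),(27,0),(0,2)]⟩),(.r (-1) ⟨30,[(0,11),(5,12),(0,0),(7,7),(0,6),(2,8),(3,13),(10,1)]⟩ ⟨2,[(9,
  0),(3,1),(4,3),(27,0),(0,0)]⟩),.k,.k,[⟨0,[(0,0)]⟩,⟨0,[(3,0)]⟩,⟨12,[(0,3),(6,8),(1,0),(3,0),(19,
  13),(9,3),(2,4),(0,2)]⟩,⟨8,[(3,3),(2,1),(2,2),(2,3),(2,0),(12,2)]⟩]⟩) (.Q [0,-1,0,0,1,0,1,1,-1,0,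
  1,-1] (.p false [1,0,-1,0,1] [1] (⟨0,[(31,0),(5,0)]⟩,⟨2,[(2,1),(11,4),(15,0),(8,0),(4,2)]⟩) .k 1
  (⟨0,[]⟩,⟨0,[]⟩) .k (.r 0 ⟨4,[(9,1),(2,1),(2,1),(18,0),(0,0),(7,0)]⟩ ⟨3,[(9,0),(8,2),(5,1),(26,
  0)]⟩)) (.R ⟨0,false,false,true,[1,-1,-1],[1,0,-1,0,1],[],(⟨0,[(27,0)]⟩,⟨160,[(10,8),(3,14),(9,11),
  (0,8),(13,160),(0,25),(3,2),(0,44),(0,14)]⟩),(⟨0,[(32,0),(5,0)]⟩,⟨2,[(3,1),(11,4),(15,0),(8,0),(4,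
  2)]⟩),⟨2,[(15,1),(23,0),(0,0),(4,2)]⟩,.k,.k,(.x 1 ⟨71,[(4,28),(3,28),(7,8),(20,22),(1,71),(5,47),
  (0,13),(6,44)]⟩ ⟨0,[(2,0)]⟩),(.r (-1) ⟨1,[(10,0),(8,0),(32,0)]⟩ ⟨4,[(16,0),(0,0),(5,1),(0,0),(10,
  0),(0,0),(7,0)]⟩),.k,.k,⟨true,1,⟨0,[(19,0),(32,0)]⟩,⟨5,[(10,0),(3,3),(1,4),(0,4),(26,0),(2,1),(0,
  0)]⟩⟩,⟨false,1,⟨0,[(30,0),(20,0)]⟩,⟨2,[(4,0),(0,1),(10,0),(30,0)]⟩⟩,⟨false,0,⟨0,[(11,0)]⟩,⟨3,[(10,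
  2),(13,0),(10,0),(0,0)]⟩⟩,⟨true,(-1),⟨1,[(8,0),(5,0),(1,0),(13,0),(17,2)]⟩,⟨23,[(0,9),(3,3),(2,6),
  (2,2),(5,0),(12,2),(17,4),(2,10)]⟩⟩,⟨false,0,⟨0,[]⟩,⟨0,[]⟩⟩,⟨false,0,⟨0,[]⟩,⟨0,[]⟩⟩,[.e ⟨false,1,
  ⟨14,[(10,3),(13,1),(0,3),(18,2),(6,4)]⟩,⟨0,[]⟩⟩ ⟨false,0,⟨2,[(8,1),(1,2),(5,1),(13,0),(15,0),(1,
  5)]⟩,⟨3,[(0,1),(6,1),(1,1),(9,1),(27,0),(4,0)]⟩⟩,.a ⟨true,(-1),⟨18,[(7,0),(0,3),(1,2),(3,5),(1,0),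
  (0,12),(12,15),(4,1)]⟩,⟨0,[(0,0)]⟩⟩ ⟨false,1,⟨1,[(51,0),(0,0)]⟩,⟨0,[(54,0)]⟩⟩ ⟨true,0,⟨1,[(8,1),
  (1,1),(5,1),(29,0),(1,3),(3,0)]⟩,⟨20,[(0,10),(3,4),(2,4),(1,14),(6,1),(20,2),(9,3),(2,9)]⟩⟩,.e
  ⟨false,1,⟨21,[(7,0),(2,5),(5,0),(7,2),(0,6),(4,0),(21,4)]⟩,⟨0,[]⟩⟩ ⟨false,0,⟨1,[(8,1),(1,1),(5,1),
  (29,0),(1,3),(3,0)]⟩,⟨3,[(0,1),(6,1),(1,1),(9,1),(27,0),(4,0)]⟩⟩,.o ⟨false,(-1),⟨8,[(4,4),(3,4),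
  (7,2),(20,1),(9,0)]⟩,⟨1,[(2,1),(12,0),(23,0),(5,1)]⟩⟩]⟩) (.Q [0,-2,0,0,2,0,1,1,-1,-1,1,-1] (.p
  false [1,0,-1,0,1] [] (⟨0,[(32,0),(5,0)]⟩,⟨2,[(3,1),(11,4),(15,0),(8,0),(4,2)]⟩) .k 0 (⟨0,[]⟩,⟨0,
  []⟩) .k (.r 0 ⟨4,[(10,1),(2,1),(2,1),(18,0),(0,0),(7,0)]⟩ ⟨3,[(10,0),(8,2),(5,1),(26,0)]⟩)) (.R
  ⟨2,true,false,true,[0,1],[1,0,-1,0,1],[1,1,1,1],(⟨0,[]⟩,⟨0,[]⟩),(⟨0,[(33,0),(5,0)]⟩,⟨2,[(4,1),(11,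
  4),(15,0),(8,0),(4,2)]⟩),⟨0,[]⟩,.k,.k,.k,(.r 0 ⟨0,[(12,0)]⟩ ⟨15,[(11,12),(12,3),(0,2),(10,6),(0,
  6),(7,3)]⟩),.k,.k,⟨true,0,⟨0,[(12,0)]⟩,⟨10,[(11,4),(3,2),(1,4),(0,1),(17,3),(0,0),(7,0)]⟩⟩,⟨false,
  (-1),⟨2,[(9,2),(5,0),(31,0),(1,0),(2,0),(0,0)]⟩,⟨1,[(0,0),(10,0),(5,0),(12,0),(18,1)]⟩⟩,⟨false,0,
  ⟨0,[]⟩,⟨21,[(8,0),(2,5),(5,0),(7,2),(0,6),(4,0),(21,4)]⟩⟩,⟨true,(-2),⟨0,[(1,0),(13,0)]⟩,⟨0,[(0,0),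
  (49,0)]⟩⟩,⟨true,0,⟨0,[(50,0)]⟩,⟨0,[(51,0)]⟩⟩,⟨false,(-1),⟨7,[(1,1),(6,0),(6,2),(2,3),(12,6),(4,
  0)]⟩,⟨0,[(0,0)]⟩⟩,[]⟩) (.Q [0,-1,0,-1,1,0,1,1,-1,0,1,-1] (.p false [1,0,-1,0,1] [1] (⟨0,[(33,0),
  (5,0)]⟩,⟨2,[(4,1),(11,4),(15,0),(8,0),(4,2)]⟩) .k 1 (⟨0,[]⟩,⟨0,[]⟩) .k (.r 0 ⟨4,[(11,1),(2,1),(2,
  1),(18,0),(0,0),(7,0)]⟩ ⟨3,[(11,0),(8,2),(5,1),(26,0)]⟩)) (.R ⟨2,true,false,false,[0,1],[0,0,1,0,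
  -1],[1,1,1,1],(⟨0,[]⟩,⟨0,[]⟩),(⟨2,[(5,1),(11,4),(15,0),(8,0),(4,2)]⟩,⟨0,[(34,0),(5,0)]⟩),⟨0,[]⟩,
  .k,.k,.k,(.r 0 ⟨0,[(23,0),(14,0)]⟩ ⟨1,[(12,0),(8,2),(32,0)]⟩),.k,.k,⟨true,(-1),⟨5,[(1,0),(4,0),(5,
  0),(5,5),(0,3),(26,0),(3,3)]⟩,⟨3,[(0,1),(9,1),(1,0),(8,2),(32,2)]⟩⟩,⟨false,1,⟨3,[(0,1),(6,0),(4,
  0),(5,0),(1,0),(10,0),(6,1),(11,1)]⟩,⟨0,[(10,0),(42,0)]⟩⟩,⟨false,0,⟨0,[]⟩,⟨21,[(9,0),(2,5),(5,0),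
  (7,2),(0,6),(4,0),(21,4)]⟩⟩,⟨true,1,⟨0,[(0,0)]⟩,⟨0,[(2,0),(48,0)]⟩⟩,⟨true,0,⟨0,[(51,0)]⟩,⟨0,[(52,
  0)]⟩⟩,⟨false,2,⟨3,[(0,3),(25,1),(26,0),(0,0)]⟩,⟨0,[(2,0)]⟩⟩,[]⟩) (.Q [0,0,0,0,0,1,0,0,0,0,0,-1]
  (.ed true [1,-1,0,0,1] .k) (.R ⟨0,false,false,false,[0,0,0,0,1],[0,1],[],(⟨0,[(35,0)]⟩,⟨0,[(34,
  0)]⟩),(⟨0,[(46,0)]⟩,⟨0,[(45,0)]⟩),⟨0,[(0,0)]⟩,.k,.k,(.r 0 ⟨2,[(13,0),(3,1),(4,0),(27,0),(0,0)]⟩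
  ⟨13,[(10,1),(2,0),(5,1),(7,6),(0,3),(4,1),(4,0),(0,0)]⟩),(.r 0 ⟨2,[(13,0),(3,1),(4,0),(27,0),(0,
  0)]⟩ ⟨13,[(10,1),(2,0),(5,1),(7,6),(0,3),(4,1),(4,0),(0,0)]⟩),.k,.k,⟨false,1,⟨1,[(13,0),(8,0),(31,
  0)]⟩,⟨9,[(12,0),(6,1),(0,1),(5,0),(0,2)]⟩⟩,⟨true,1,⟨1,[(8,1),(41,0),(3,0)]⟩,⟨0,[(11,0),(27,0)]⟩⟩,
  ⟨false,1,⟨0,[(55,0)]⟩,⟨0,[(57,0)]⟩⟩,⟨true,1,⟨2,[(7,0),(0,1),(10,0),(30,0),(0,2),(3,2)]⟩,⟨14,[(2,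
  6),(8,7),(1,5),(3,2),(1,1),(17,12),(12,3)]⟩⟩,⟨false,0,⟨0,[]⟩,⟨0,[]⟩⟩,⟨false,0,⟨0,[]⟩,⟨0,[]⟩⟩,[.o
  ⟨false,1,⟨13,[(27,5),(19,1),(2,6),(0,1),(2,0)]⟩,⟨0,[(53,0)]⟩⟩,.a ⟨true,1,⟨3,[(27,1),(26,0),(0,
  0)]⟩,⟨0,[(17,0)]⟩⟩ ⟨false,1,⟨1,[(54,0),(0,0)]⟩,⟨0,[(57,0)]⟩⟩ ⟨true,1,⟨2,[(7,0),(0,1),(10,0),(30,
  0),(0,2),(3,2)]⟩,⟨8,[(2,0),(8,6),(1,2),(3,2),(1,3),(13,0),(3,3)]⟩⟩,.e ⟨false,1,⟨21,[(10,0),(2,5),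
  (5,0),(7,2),(0,6),(4,0),(21,4)]⟩,⟨0,[]⟩⟩ ⟨false,1,⟨2,[(7,0),(0,1),(10,0),(30,0),(0,2),(3,2)]⟩,⟨0,
  [(33,0),(19,0)]⟩⟩,.o ⟨false,0,⟨2,[(11,0),(7,0),(13,1),(16,0)]⟩,⟨1,[(8,1),(41,0),(3,0)]⟩⟩]⟩) (.S
  ⟨1,0,[0,1,0,-1],[0,0,0,0,1],[1,2],(⟨0,[(35,0)]⟩,⟨0,[(34,0)]⟩),⟨0,[(0,0)]⟩,.k,(.r 0 ⟨2,[(13,0),(3,
  1),(4,0),(27,0),(0,0)]⟩ ⟨13,[(10,1),(2,0),(5,1),(7,6),(0,3),(4,1),(4,0),(0,0)]⟩),⟨false,0,⟨0,[]⟩,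
  ⟨21,[(10,0),(2,5),(5,0),(7,2),(0,6),(4,0),(21,4)]⟩⟩,⟨true,0,⟨0,[(53,0)]⟩,⟨0,[(52,0)]⟩⟩,⟨true,0,⟨0,
  [(52,0)]⟩,⟨0,[(53,0)]⟩⟩,⟨false,1,⟨21,[(10,0),(2,5),(5,0),(7,2),(0,6),(4,0),(21,4)]⟩,⟨0,[]⟩⟩,[.o
  ⟨false,0,⟨5,[(2,0),(8,3),(1,2),(5,0),(13,0),(3,3),(12,2)]⟩,⟨2,[(7,0),(0,1),(10,0),(30,0),(0,2),(3,
  2)]⟩⟩,.a ⟨true,0,⟨0,[(33,0),(19,0)]⟩,⟨1,[(7,0),(0,0),(30,0),(11,1),(3,0)]⟩⟩ ⟨false,0,⟨5,[(13,0),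
  (3,1),(4,0),(27,0),(0,3)]⟩,⟨21,[(10,0),(2,5),(5,0),(7,2),(0,6),(4,0),(21,4)]⟩⟩ ⟨true,0,⟨0,[(53,
  0)]⟩,⟨9,[(12,0),(6,1),(0,1),(5,0),(0,2)]⟩⟩,.e ⟨false,0,⟨0,[(57,0)]⟩,⟨0,[(55,0)]⟩⟩ ⟨false,0,⟨0,
  [(53,0)]⟩,⟨3,[(27,1),(26,0),(0,0)]⟩⟩,.o ⟨false,0,⟨2,[(11,0),(7,0),(13,1),(16,0)]⟩,⟨1,[(8,1),(41,
  0),(3,0)]⟩⟩]⟩)))))) (.Q [0,0,0,0,0,1,0,0,0,-1,1,1] (.p true [0,0,1,0,1] [1] (⟨0,[(30,0),(6,0)]⟩,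
  ⟨0,[(1,0)]⟩) .k 1 (⟨0,[]⟩,⟨0,[]⟩) .k (.r 0 ⟨2,[(17,1),(14,0),(2,0),(6,0)]⟩ ⟨22,[(5,3),(2,9),(5,3),
  (1,8),(5,2),(5,3),(5,8),(15,5)]⟩)) (.R ⟨0,false,false,true,[1,0,-1,0,-1],[1,-1,-1],[],(⟨0,[(2,
  0)]⟩,⟨0,[(31,0),(6,0)]⟩),(⟨0,[(26,0)]⟩,⟨160,[(9,8),(3,14),(9,11),(0,8),(13,160),(0,25),(3,2),(0,
  44),(0,14)]⟩),⟨0,[(0,0)]⟩,.k,.k,(.r (-2) ⟨13,[(6,1),(2,14),(5,1),(7,6),(0,3),(4,1),(4,0),(0,0)]⟩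
  ⟨4,[(8,3),(4,1),(4,0),(27,0),(0,2)]⟩),(.r (-1) ⟨13,[(6,1),(2,0),(5,1),(7,6),(0,3),(4,1),(4,0),(0,
  0)]⟩ ⟨2,[(9,0),(3,1),(4,0),(27,0),(0,0)]⟩),.k,.k,⟨true,0,⟨0,[(10,0)]⟩,⟨10,[(9,4),(3,2),(1,4),(0,
  1),(17,3),(0,0),(7,0)]⟩⟩,⟨false,0,⟨0,[(29,0)]⟩,⟨1,[(4,1),(41,0),(3,0)]⟩⟩,⟨false,0,⟨0,[(11,0)]⟩,
  ⟨22,[(6,3),(2,9),(5,3),(1,8),(5,2),(5,3),(5,8),(15,5)]⟩⟩,⟨true,(-1),⟨5,[(7,0),(5,8),(1,0),(13,4),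
  (16,3),(0,2)]⟩,⟨2,[(3,0),(0,1),(10,0),(30,0),(0,2),(3,2)]⟩⟩,⟨false,0,⟨0,[]⟩,⟨0,[]⟩⟩,⟨false,0,⟨0,
  []⟩,⟨0,[]⟩⟩,[.e ⟨false,1,⟨14,[(9,3),(13,1),(0,3),(18,2),(6,4)]⟩,⟨0,[]⟩⟩ ⟨false,0,⟨2,[(7,1),(1,2),
  (5,1),(13,0),(15,0),(1,2)]⟩,⟨1,[(4,1),(5,1),(35,0),(3,0)]⟩⟩,.o ⟨false,0,⟨52,[(3,17),(2,3),(0,21),
  (1,29),(5,9),(3,10),(14,7),(11,5)]⟩,⟨7,[(10,1),(4,1),(17,5),(12,2),(0,5),(3,4)]⟩⟩,.o ⟨false,0,⟨1,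
  [(3,1),(42,0),(3,0)]⟩,⟨1,[(29,1),(5,1),(10,0),(3,0)]⟩⟩,.a ⟨true,(-1),⟨0,[(3,0)]⟩,⟨0,[(29,0),(5,0),
  (14,0)]⟩⟩ ⟨false,1,⟨1,[(50,0),(0,0)]⟩,⟨1,[(35,0),(0,0)]⟩⟩ ⟨true,0,⟨2,[(7,1),(1,2),(5,1),(13,0),
  (15,0),(1,2)]⟩,⟨3,[(4,3),(3,1),(1,0),(7,0),(27,1),(0,0)]⟩⟩]⟩) (.R ⟨0,false,false,false,[0,0,0,0,
  1],[0,1],[],(⟨0,[(31,0)]⟩,⟨0,[(30,0)]⟩),(⟨0,[(42,0)]⟩,⟨0,[(41,0)]⟩),⟨8,[(0,6),(13,6),(15,1),(8,2),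
  (4,8)]⟩,.k,.k,(.r 0 ⟨2,[(9,0),(3,1),(4,0),(27,0),(0,0)]⟩ ⟨13,[(6,1),(2,0),(5,1),(7,6),(0,3),(4,1),
  (4,0),(0,0)]⟩),(.r 0 ⟨2,[(9,0),(3,1),(4,0),(27,0),(0,0)]⟩ ⟨13,[(6,1),(2,0),(5,1),(7,6),(0,3),(4,
  1),(4,0),(0,0)]⟩),.k,.k,⟨false,1,⟨1,[(9,0),(8,0),(31,0)]⟩,⟨9,[(8,0),(6,1),(0,1),(5,0),(0,2)]⟩⟩,
  ⟨true,1,⟨1,[(4,1),(41,0),(3,0)]⟩,⟨0,[(7,0),(27,0)]⟩⟩,⟨false,1,⟨0,[(51,0)]⟩,⟨0,[(53,0)]⟩⟩,⟨true,1,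
  ⟨2,[(3,0),(0,1),(10,0),(30,0),(0,2),(3,2)]⟩,⟨5,[(7,0),(5,8),(1,0),(13,4),(16,3),(0,2)]⟩⟩,⟨false,0,
  ⟨0,[]⟩,⟨0,[]⟩⟩,⟨false,0,⟨0,[]⟩,⟨0,[]⟩⟩,[.o ⟨false,1,⟨13,[(23,5),(19,1),(2,6),(0,1),(2,0)]⟩,⟨0,
  [(49,0)]⟩⟩,.a ⟨true,1,⟨3,[(23,1),(26,0),(0,0)]⟩,⟨0,[(13,0)]⟩⟩ ⟨false,1,⟨1,[(50,0),(0,0)]⟩,⟨0,[(53,
  0)]⟩⟩ ⟨true,1,⟨2,[(3,0),(0,1),(10,0),(30,0),(0,2),(3,2)]⟩,⟨2,[(7,0),(5,2),(1,0),(13,1),(16,0)]⟩⟩,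
  .e ⟨false,1,⟨21,[(6,0),(2,5),(5,0),(7,2),(0,6),(4,0),(21,4)]⟩,⟨0,[]⟩⟩ ⟨false,1,⟨2,[(3,0),(0,1),
  (10,0),(30,0),(0,2),(3,2)]⟩,⟨0,[(29,0),(19,0)]⟩⟩,.o ⟨false,0,⟨2,[(7,0),(7,0),(13,1),(16,0)]⟩,⟨1,
  [(4,1),(41,0),(3,0)]⟩⟩]⟩))))) (.Q [0,-2,0,1,1,0,-1,-1,-1,1,-1,-1] (.p false [0,0,1] [1,0,0,0,-1]
  (⟨0,[(34,0)]⟩,⟨0,[(33,0)]⟩) .k 2 (⟨0,[(26,0)]⟩,⟨0,[(27,0)]⟩) .k (.r 0 ⟨2,[(14,1),(14,0),(2,0),(6,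
  0)]⟩ ⟨22,[(2,3),(2,9),(5,3),(1,8),(5,2),(5,3),(5,8),(15,5)]⟩)) (.Q [0,0,0,0,0,1,0,0,0,-1,0,1]
  (.ed false [0,1,0,0,1] .k) (.R ⟨0,false,false,true,[-1,1,0,0,1],[0,1],[],(⟨0,[(0,0)]⟩,⟨0,[(28,0),
  (10,0)]⟩),(⟨0,[(40,0)]⟩,⟨0,[(39,0)]⟩),⟨0,[(28,0)]⟩,(.r 0 ⟨4,[(13,0),(0,0),(5,1),(0,0),(10,0),(0,
  0),(7,0)]⟩ ⟨1,[(7,0),(8,0),(32,0)]⟩),.k,.k,.k,.k,.k,⟨true,1,⟨1,[(7,0),(8,0),(32,0)]⟩,⟨15,[(6,6),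
  (4,0),(1,8),(0,7),(5,1),(11,0),(8,1)]⟩⟩,⟨false,1,⟨5,[(1,1),(9,1),(14,3),(4,1),(11,0),(4,2)]⟩,⟨0,
  [(2,0)]⟩⟩,⟨true,1,⟨1,[(7,0),(8,0),(32,0)]⟩,⟨11,[(6,4),(3,4),(0,3),(1,4),(27,6),(2,1),(0,0)]⟩⟩,
  ⟨false,1,⟨1,[(1,0),(2,0),(26,1)]⟩,⟨0,[(2,0)]⟩⟩,⟨false,0,⟨0,[]⟩,⟨0,[]⟩⟩,⟨false,0,⟨0,[]⟩,⟨0,[]⟩⟩,
  [.e ⟨false,1,⟨14,[(7,3),(13,1),(0,3),(18,2),(6,4)]⟩,⟨0,[]⟩⟩ ⟨false,0,⟨3,[(1,0),(4,0),(4,1),(1,0),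
  (12,2),(16,0),(1,3)]⟩,⟨1,[(2,1),(4,0),(8,0),(32,0)]⟩⟩,.o ⟨false,1,⟨13,[(21,5),(19,1),(2,6),(0,1),
  (2,0)]⟩,⟨0,[(47,0)]⟩⟩,.o ⟨false,1,⟨1,[(2,1),(41,0),(3,0)]⟩,⟨2,[(1,0),(4,0),(4,1),(14,1),(6,0)]⟩⟩,
  .a ⟨true,0,⟨0,[(2,0)]⟩,⟨0,[(1,0),(9,0),(19,0)]⟩⟩ ⟨false,1,⟨1,[(48,0),(0,0)]⟩,⟨1,[(33,0),(0,0)]⟩⟩
  ⟨true,0,⟨3,[(1,0),(4,0),(4,1),(1,0),(12,2),(16,0),(1,3)]⟩,⟨0,[(2,0),(44,0)]⟩⟩]⟩) (.Q [0,2,0,-2,-1,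
  0,1,1,1,-1,1,1] (.p true [0,0,1] [1,0,0,0,-1] (⟨0,[(36,0)]⟩,⟨0,[(35,0)]⟩) .k 2 (⟨0,[(28,0)]⟩,⟨0,
  [(29,0)]⟩) .k (.r 0 ⟨2,[(16,1),(14,0),(2,0),(6,0)]⟩ ⟨12,[(1,3),(5,5),(5,3),(1,2),(5,0),(5,3),(5,
  2),(15,1)]⟩)) (.R ⟨1,true,false,false,[0,-1,1],[1,0,0,0,-1],[1,0,-1,-1,0,0,0,1],(⟨0,[(26,0)]⟩,
  ⟨160,[(8,8),(3,14),(9,11),(0,8),(12,160),(1,25),(3,2),(0,44),(0,14)]⟩),(⟨0,[(29,0)]⟩,⟨0,[(30,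
  0)]⟩),⟨0,[(13,0)]⟩,.k,.k,(.r (-1) ⟨0,[(8,0),(1,1)]⟩ ⟨13,[(2,0),(5,0),(5,9),(0,8),(0,2),(5,6),(5,
  0),(5,2)]⟩),(.r 0 ⟨2,[(8,0),(3,1),(4,3),(27,0),(0,0)]⟩ ⟨13,[(2,4),(5,4),(5,7),(0,2),(0,0),(5,6),
  (5,4),(5,0)]⟩),(.r (-1) ⟨2,[(0,0),(7,1),(8,2),(6,0),(2,0),(4,0),(16,0)]⟩ ⟨0,[(11,0),(2,0),(35,
  0)]⟩),.k,⟨true,0,⟨2,[(8,0),(3,1),(4,3),(27,0),(0,0)]⟩,⟨0,[(14,0),(0,0),(34,0)]⟩⟩,⟨false,1,⟨5,[(5,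
  5),(2,0),(3,1),(4,6),(27,0),(0,9)]⟩,⟨0,[(3,0),(30,0)]⟩⟩,⟨true,0,⟨0,[]⟩,⟨0,[(52,0)]⟩⟩,⟨false,1,⟨0,
  [(2,0)]⟩,⟨3,[(0,1),(27,1),(3,1),(12,0),(4,0)]⟩⟩,⟨false,1,⟨3,[(22,1),(26,0),(0,0)]⟩,⟨0,[(48,0)]⟩⟩,
  ⟨true,1,⟨6,[(2,4),(8,1),(10,1),(4,1),(14,0),(3,0)]⟩,⟨0,[(0,0)]⟩⟩,[]⟩) (.Q [0,0,0,0,0,-1,0,0,0,0,0,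
  1] (.ed false [1,-1,0,0,1] .k) (.Q [0,-2,0,-1,1,0,0,0,-1,1,0,-1] (.p false [0,0,0,0,1] [1] (⟨0,
  [(31,0)]⟩,⟨0,[(30,0)]⟩) .k 1 (⟨0,[]⟩,⟨0,[]⟩) .k .k) (.Q [0,0,-1,0,1,0,0,0,-1,0,0,-1] (.p false [0,
  0,0,0,1] [] (⟨0,[(32,0)]⟩,⟨0,[(31,0)]⟩) .k 0 (⟨0,[]⟩,⟨0,[]⟩) .k .k) (.R ⟨1,false,false,false,[0,0,
  0,0,1],[1,0,-1],[0,1,0,-1],(⟨0,[(33,0)]⟩,⟨0,[(32,0)]⟩),(⟨0,[(39,0)]⟩,⟨0,[(40,0)]⟩),⟨0,[(2,0)]⟩,.k,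
  .k,(.r 0 ⟨2,[(11,0),(3,1),(4,0),(27,0),(0,0)]⟩ ⟨13,[(8,1),(2,0),(5,1),(7,6),(0,3),(4,1),(4,0),(0,
  0)]⟩),.k,(.r 0 ⟨2,[(11,0),(3,1),(4,3),(27,0),(0,0)]⟩ ⟨7,[(3,0),(1,1),(5,2),(5,4),(0,1),(6,3),(5,
  2)]⟩),.k,⟨false,0,⟨2,[(11,0),(3,1),(4,3),(27,0),(0,0)]⟩,⟨11,[(3,4),(2,4),(4,3),(7,2),(5,1),(11,7),
  (14,0)]⟩⟩,⟨true,0,⟨10,[(0,7),(7,2),(1,4),(4,3),(2,1),(4,3),(10,1)]⟩,⟨0,[(6,0),(30,0)]⟩⟩,⟨true,0,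
  ⟨0,[(51,0)]⟩,⟨0,[(50,0)]⟩⟩,⟨false,1,⟨0,[(7,0)]⟩,⟨0,[(6,0),(28,0)]⟩⟩,⟨false,1,⟨21,[(8,0),(2,5),(5,
  0),(7,2),(0,6),(4,0),(21,4)]⟩,⟨0,[]⟩⟩,⟨false,1,⟨0,[(5,0)]⟩,⟨0,[(6,0),(28,0),(15,0)]⟩⟩,[.o ⟨false,
  0,⟨4,[(6,1),(1,1),(6,0),(2,2),(29,1)]⟩,⟨1,[(35,1),(12,0),(4,0)]⟩⟩,.a ⟨true,0,⟨6,[(6,2),(1,2),(6,
  0),(2,3),(28,0),(5,2)]⟩,⟨0,[(35,0)]⟩⟩ ⟨true,0,⟨0,[(51,0)]⟩,⟨9,[(10,0),(6,1),(0,1),(5,0),(0,2)]⟩⟩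
  ⟨false,1,⟨4,[(0,1),(4,1),(2,0),(2,0),(6,0),(15,0)]⟩,⟨0,[(6,0),(28,0)]⟩⟩,.o ⟨false,0,⟨0,[(6,0)]⟩,
  ⟨0,[(30,0)]⟩⟩,.o ⟨false,0,⟨2,[(6,1),(10,0),(13,0),(6,0)]⟩,⟨0,[(0,0)]⟩⟩]⟩) (.K ⟨0,[0,0,0,0,1],(-1),
  (-1),(⟨0,[(33,0)]⟩,⟨0,[(32,0)]⟩),.k,(.r 0 ⟨2,[(11,0),(3,1),(4,0),(27,0),(0,0)]⟩ ⟨13,[(8,1),(2,0),
  (5,1),(7,6),(0,3),(4,1),(4,0),(0,0)]⟩),(.r 0 ⟨4,[(17,0),(0,0),(5,1),(0,0),(10,0),(0,0),(7,0)]⟩ ⟨1,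
  [(11,0),(8,0),(32,0)]⟩),.k,.k,[⟨8,[(1,8),(9,0),(3,2),(1,7),(17,0),(12,1),(0,13)]⟩,⟨0,[(0,0)]⟩,⟨0,
  [(30,0)]⟩,⟨0,[(0,0),(44,0)]⟩]⟩)) (.Q [0,0,0,0,1,0,1,0,-1,0,1,-1] (.p true [0,0,1] [0,0,0,0,1] (⟨0,
  [(39,0)]⟩,⟨0,[(38,0)]⟩) .k 2 (⟨0,[(32,0)]⟩,⟨0,[(31,0)]⟩) .k (.r (-1) ⟨3,[(10,0),(8,2),(5,1),(26,
  0)]⟩ ⟨4,[(10,1),(2,1),(2,1),(18,0),(0,0),(7,0)]⟩)) (.Q [0,0,0,0,0,2,0,0,0,-1,0,1] (.p true [0,0,0,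
  0,1] [1] (⟨0,[(33,0)]⟩,⟨0,[(32,0)]⟩) .k 1 (⟨0,[]⟩,⟨0,[]⟩) .k .k) (.R ⟨0,false,false,false,[1,-1,0,
  0,-1],[1,-1],[1,1,1],(⟨0,[(5,0)]⟩,⟨100,[(0,44),(11,8),(3,14),(9,11),(0,8),(6,55),(7,10),(3,2),(1,
  14)]⟩),(⟨0,[(44,0)]⟩,⟨0,[(45,0)]⟩),⟨0,[(0,0)]⟩,(.r (-1) ⟨1,[(12,0),(8,0),(32,0)]⟩ ⟨4,[(18,0),(0,
  0),(5,1),(0,0),(10,0),(0,0),(7,0)]⟩),.k,(.r (-2) ⟨3,[(12,4),(8,2),(5,1),(26,0)]⟩ ⟨1,[(11,0),(3,0),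
  (2,0),(32,0)]⟩),.k,.k,.k,⟨true,(-1),⟨15,[(11,6),(4,0),(1,8),(0,7),(5,1),(11,0),(8,1)]⟩,⟨1,[(12,0),
  (8,0),(32,0)]⟩⟩,⟨false,0,⟨5,[(2,1),(4,3),(8,1),(31,1),(4,2),(0,2)]⟩,⟨0,[(31,0)]⟩⟩,⟨false,(-1),⟨15,
  [(11,6),(4,0),(1,8),(0,7),(5,1),(11,0),(8,1)]⟩,⟨1,[(12,0),(8,0),(31,0),(0,1)]⟩⟩,⟨true,(-1),⟨5,[(2,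
  3),(4,1),(8,3),(31,0),(5,2)]⟩,⟨0,[(31,0)]⟩⟩,⟨false,0,⟨0,[]⟩,⟨0,[]⟩⟩,⟨false,0,⟨0,[]⟩,⟨0,[]⟩⟩,[.o
  ⟨false,0,⟨0,[(52,0)]⟩,⟨13,[(26,5),(19,1),(2,6),(0,1),(2,0)]⟩⟩,.e ⟨false,0,⟨0,[]⟩,⟨14,[(12,3),(13,
  1),(0,3),(18,2),(6,4)]⟩⟩ ⟨false,1,⟨1,[(7,1),(4,0),(1,0),(33,0),(4,0),(0,0)]⟩,⟨6,[(1,3),(9,3),(4,
  1),(2,3),(11,2),(17,2),(0,0)]⟩⟩,.a ⟨true,0,⟨4,[(1,2),(7,1),(1,1),(4,1),(2,0),(5,0)]⟩,⟨5,[(2,1),(4,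
  3),(8,1),(31,1),(4,2),(0,2)]⟩⟩ ⟨false,0,⟨1,[(38,0),(0,0)]⟩,⟨1,[(53,0),(0,0)]⟩⟩ ⟨true,0,⟨3,[(7,3),
  (4,0),(1,0),(1,1),(31,0),(4,0),(0,0)]⟩,⟨6,[(1,3),(9,3),(4,1),(2,3),(11,2),(17,2),(0,0)]⟩⟩,.o
  ⟨false,0,⟨7,[(1,1),(7,2),(1,4),(4,3),(1,2),(0,1),(11,2),(17,2)]⟩,⟨0,[(7,0),(45,0)]⟩⟩]⟩) (.Q [0,-2,
  1,0,1,0,0,1,-1,0,0,-1] (.p false [0,0,0,0,1] [] (⟨0,[(34,0)]⟩,⟨0,[(33,0)]⟩) .k 0 (⟨0,[]⟩,⟨0,[]⟩)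
  .k .k) (.I [0,0,-2,0,2,-2,1] (.Q [0,1,0,1,-1,0,0,0,1,0,0,1] (.p true [0,0,0,0,1] [] (⟨0,[(36,0)]⟩,
  ⟨0,[(35,0)]⟩) .k 0 (⟨0,[]⟩,⟨0,[]⟩) .k .k) (.R ⟨0,false,false,true,[1,-1,-1],[1,0,-1,0,1],[1,0,1],
  (⟨0,[(32,0)]⟩,⟨160,[(15,8),(3,14),(9,11),(0,8),(13,160),(0,25),(3,2),(0,44),(0,14)]⟩),(⟨0,[(37,0),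
  (5,0)]⟩,⟨2,[(3,2),(16,1),(23,0),(0,0),(4,2)]⟩),⟨2,[(20,1),(23,0),(0,0),(4,2)]⟩,.k,.k,(.x 1 ⟨19,
  [(12,5),(0,5),(0,10),(4,6),(1,2),(0,1),(17,2),(1,5),(1,19),(0,3),(4,11)]⟩ ⟨0,[(1,0)]⟩),(.r (-1)
  ⟨1,[(15,0),(8,0),(32,0)]⟩ ⟨4,[(21,0),(0,0),(5,1),(0,0),(10,0),(0,0),(7,0)]⟩),.k,.k,⟨false,1,⟨0,
  [(24,0),(32,0)]⟩,⟨6,[(4,2),(0,2),(9,2),(6,2),(17,0),(0,0),(7,1)]⟩⟩,⟨true,0,⟨3,[(0,1),(9,1),(4,0),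
  (1,0),(33,0),(4,0),(0,0)]⟩,⟨7,[(4,1),(7,2),(1,4),(4,3),(1,2),(0,1),(11,2),(17,2)]⟩⟩,⟨true,(-1),⟨0,
  [(14,0)]⟩,⟨8,[(4,0),(0,0),(9,7),(2,0),(10,1),(19,3)]⟩⟩,⟨false,(-1),⟨0,[(0,0)]⟩,⟨28,[(2,13),(1,5),
  (7,8),(2,14),(5,2),(8,9),(21,2),(4,0)]⟩⟩,⟨false,0,⟨0,[]⟩,⟨0,[]⟩⟩,⟨false,0,⟨0,[]⟩,⟨0,[]⟩⟩,[.e
  ⟨false,0,⟨0,[]⟩,⟨14,[(15,3),(13,1),(0,3),(18,2),(6,4)]⟩⟩ ⟨false,0,⟨8,[(0,8),(3,0),(0,0),(9,7),(2,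
  0),(10,1),(19,3)]⟩,⟨0,[(2,0)]⟩⟩,.o ⟨false,(-1),⟨4,[(10,5),(1,0),(6,2),(2,3),(29,0)]⟩,⟨3,[(2,1),(1,
  1),(34,1),(12,1),(3,0),(0,0)]⟩⟩,.a ⟨true,(-1),⟨10,[(12,2),(0,2),(0,4),(4,3),(2,1),(4,0),(10,1)]⟩,
  ⟨0,[(41,0),(14,0)]⟩⟩ ⟨true,0,⟨1,[(41,0),(0,0)]⟩,⟨5,[(15,0),(3,1),(4,0),(27,0),(0,3)]⟩⟩ ⟨false,0,
  ⟨6,[(0,1),(4,1),(9,4),(2,1),(10,0),(5,2),(5,1)]⟩,⟨0,[(2,0)]⟩⟩,.o ⟨false,(-1),⟨4,[(10,2),(1,2),(1,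
  4),(4,3),(2,1),(29,2)]⟩,⟨0,[(4,0),(5,0),(45,0)]⟩⟩]⟩) (.I [0,0,2,0,0,-1,1] (.I [0,-1,0,-1,1,-1,0,0,
  -1] (.I [-1,2,0,-2,-1] (.I [1,1,0,-1,-1,3] (.I [0,2,0,1,-1,-2,0,0,1] (.C [(0,1),(2,1),(51,1),(0,
  0),(5,0)]) (.C [(0,0),(7,0),(1,0)])) (.C [(0,0),(22,0),(30,0)])) (.C [(0,0),(21,1),(32,0)])) (.C
  [(0,0),(1,0),(5,0)])) (.C [(0,0),(21,0),(10,0)]))) (.Q [0,0,1,0,-1,0,0,0,1,0,0,1] (.p true [0,0,0,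
  0,1] [] (⟨0,[(36,0)]⟩,⟨0,[(35,0)]⟩) .k 0 (⟨0,[]⟩,⟨0,[]⟩) .k .k) (.K ⟨0,[0,0,0,0,1],(-1),(-1),(⟨0,
  [(37,0)]⟩,⟨0,[(36,0)]⟩),.k,(.r 0 ⟨2,[(15,0),(3,1),(4,0),(27,0),(0,0)]⟩ ⟨13,[(12,1),(2,0),(5,1),(7,
  6),(0,3),(4,1),(4,0),(0,0)]⟩),(.r 0 ⟨4,[(21,0),(0,0),(5,1),(0,0),(10,0),(0,0),(7,0)]⟩ ⟨1,[(15,0),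
  (8,0),(32,0)]⟩),.k,.k,[⟨0,[(4,0)]⟩,⟨0,[(0,0)]⟩,⟨0,[(34,0)]⟩,⟨14,[(5,6),(13,7),(1,0),(6,0),(6,7),
  (4,0),(8,2)]⟩]⟩) (.S ⟨1,0,[0,2,0,-1],[0,0,0,0,1],[1,1],(⟨0,[(37,0)]⟩,⟨0,[(36,0)]⟩),⟨0,[(6,0)]⟩,.k,
  (.r 0 ⟨7,[(0,1),(4,1),(9,2),(3,3),(4,2),(27,0)]⟩ ⟨13,[(12,1),(2,0),(5,1),(7,6),(0,3),(4,1),(4,0),
  (0,0)]⟩),⟨true,0,⟨0,[]⟩,⟨0,[(59,0)]⟩⟩,⟨false,0,⟨0,[(55,0)]⟩,⟨3,[(29,1),(26,0),(0,0)]⟩⟩,⟨false,1,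
  ⟨3,[(29,1),(26,0),(0,0)]⟩,⟨0,[(55,0)]⟩⟩,⟨true,0,⟨0,[(59,0)]⟩,⟨0,[]⟩⟩,[.o ⟨false,(-1),⟨2,[(5,0),(4,
  1),(8,3),(32,1)]⟩,⟨13,[(0,7),(1,1),(1,1),(4,1),(19,5),(22,0),(4,6)]⟩⟩,.a ⟨true,(-1),⟨0,[(10,0),(8,
  0)]⟩,⟨47,[(2,4),(1,21),(2,20),(22,5),(7,10),(0,9),(5,3),(1,3),(3,5)]⟩⟩ ⟨true,0,⟨0,[]⟩,⟨1,[(41,0),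
  (0,0)]⟩⟩ ⟨false,0,⟨7,[(0,1),(4,1),(9,2),(3,3),(4,2),(27,0)]⟩,⟨3,[(29,1),(26,0),(0,0)]⟩⟩,.o ⟨false,
  0,⟨0,[(10,0)]⟩,⟨0,[(34,0)]⟩⟩,.o ⟨false,0,⟨2,[(10,1),(10,0),(13,0),(6,0)]⟩,⟨0,[(0,0)]⟩⟩]⟩))) (.K
  ⟨0,[0,0,0,0,1],(-1),(-1),(⟨0,[(35,0)]⟩,⟨0,[(34,0)]⟩),.k,(.r 0 ⟨2,[(13,0),(3,1),(4,0),(27,0),(0,
  0)]⟩ ⟨13,[(10,1),(2,0),(5,1),(7,6),(0,3),(4,1),(4,0),(0,0)]⟩),(.r 0 ⟨4,[(19,0),(0,0),(5,1),(0,0),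
  (10,0),(0,0),(7,0)]⟩ ⟨1,[(13,0),(8,0),(32,0)]⟩),.k,.k,[⟨0,[(2,0)]⟩,⟨0,[(0,0),(11,0),(40,0),(1,
  0)]⟩,⟨0,[(32,0)]⟩,⟨10,[(0,0),(2,3),(7,0),(5,4),(1,0),(6,0),(6,4),(13,2)]⟩]⟩))) (.S ⟨1,0,[0,0,1],
  [1,1,0,0,-1],[0,-1,1],(⟨160,[(11,8),(3,14),(9,11),(0,8),(5,160),(8,25),(3,2),(0,44),(0,14)]⟩,⟨0,
  [(2,0)]⟩),⟨0,[(32,0)]⟩,(.r (-1) ⟨13,[(8,1),(2,0),(5,1),(7,6),(0,3),(4,1),(4,0),(0,0)]⟩ ⟨2,[(11,0),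
  (3,1),(4,0),(27,0),(0,0)]⟩),.k,⟨true,0,⟨0,[(51,0)]⟩,⟨0,[(50,0)]⟩⟩,⟨false,0,⟨0,[(51,0)]⟩,⟨3,[(25,
  1),(26,0),(0,0)]⟩⟩,⟨false,1,⟨21,[(8,0),(2,5),(5,0),(7,2),(0,6),(4,0),(21,4)]⟩,⟨0,[]⟩⟩,⟨true,0,⟨0,
  [(55,0)]⟩,⟨0,[]⟩⟩,[.o ⟨false,1,⟨0,[(30,0)]⟩,⟨0,[(6,0)]⟩⟩,.e ⟨false,1,⟨0,[(53,0)]⟩,⟨0,[(45,0)]⟩⟩
  ⟨false,1,⟨21,[(8,0),(2,5),(5,0),(7,2),(0,6),(4,0),(21,4)]⟩,⟨5,[(11,0),(3,1),(4,0),(27,0),(0,3)]⟩⟩,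
  .a ⟨true,1,⟨5,[(5,1),(9,1),(14,3),(4,1),(11,0),(4,2)]⟩,⟨0,[(0,0),(36,0)]⟩⟩ ⟨false,1,⟨23,[(8,5),(0,
  1),(7,7),(8,5),(4,3),(15,0),(5,14)]⟩,⟨5,[(11,0),(3,1),(4,0),(27,0),(0,3)]⟩⟩ ⟨true,0,⟨1,[(37,0),(0,
  0)]⟩,⟨5,[(11,0),(3,1),(4,0),(27,0),(0,3)]⟩⟩,.o ⟨false,1,⟨0,[(30,0)]⟩,⟨0,[(6,0)]⟩⟩]⟩))) (.Q [0,0,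
  -1,0,1,0,0,0,-1,0,0,-1] (.p false [0,0,0,0,1] [] (⟨0,[(31,0)]⟩,⟨0,[(30,0)]⟩) .k 0 (⟨0,[]⟩,⟨0,[]⟩)
  .k .k) (.R ⟨0,false,false,false,[0,0,0,0,1],[0,1],[1,0,2,1],(⟨0,[(32,0)]⟩,⟨0,[(31,0)]⟩),(⟨0,[(43,
  0)]⟩,⟨0,[(42,0)]⟩),⟨0,[(1,0)]⟩,.k,.k,(.r 0 ⟨2,[(10,0),(3,1),(4,0),(27,0),(0,0)]⟩ ⟨13,[(7,1),(2,0),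
  (5,1),(7,6),(0,3),(4,1),(4,0),(0,0)]⟩),(.r 0 ⟨2,[(10,0),(3,1),(4,0),(27,0),(0,0)]⟩ ⟨13,[(7,1),(2,
  0),(5,1),(7,6),(0,3),(4,1),(4,0),(0,0)]⟩),.k,.k,⟨false,0,⟨0,[]⟩,⟨14,[(10,3),(13,1),(0,3),(18,2),
  (6,4)]⟩⟩,⟨true,1,⟨0,[(0,0)]⟩,⟨0,[(8,0),(27,0)]⟩⟩,⟨true,0,⟨7,[(4,1),(3,1),(0,1),(6,3),(7,1),(21,0),
  (5,0)]⟩,⟨1,[(10,0),(3,1),(4,0),(27,0),(0,1)]⟩⟩,⟨false,2,⟨8,[(0,5),(1,0),(8,0),(4,0),(7,2),(4,1),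
  (22,5)]⟩,⟨0,[(5,0),(8,0)]⟩⟩,⟨false,0,⟨0,[]⟩,⟨0,[]⟩⟩,⟨false,0,⟨0,[]⟩,⟨0,[]⟩⟩,[.o ⟨false,1,⟨13,[(24,
  5),(19,1),(2,6),(0,1),(2,0)]⟩,⟨0,[(50,0)]⟩⟩,.a ⟨true,1,⟨3,[(24,1),(26,0),(0,0)]⟩,⟨0,[(14,0)]⟩⟩
  ⟨true,0,⟨7,[(4,1),(3,1),(0,1),(6,3),(7,1),(21,0),(5,0)]⟩,⟨2,[(10,0),(3,1),(4,0),(27,0),(0,0)]⟩⟩
  ⟨false,2,⟨3,[(0,3),(23,1),(26,0),(0,0)]⟩,⟨0,[(5,0),(8,0)]⟩⟩,.o ⟨false,0,⟨0,[(5,0)]⟩,⟨0,[(29,0)]⟩⟩,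
  .o ⟨false,0,⟨2,[(5,1),(10,0),(13,0),(6,0)]⟩,⟨0,[(0,0)]⟩⟩]⟩) (.R ⟨0,false,false,true,[0,0,0,0,1],
  [0,1],[],(⟨0,[(32,0)]⟩,⟨0,[(31,0)]⟩),(⟨0,[(43,0)]⟩,⟨0,[(42,0)]⟩),⟨0,[(1,0)]⟩,.k,.k,(.r 0 ⟨2,[(10,
  0),(3,1),(4,0),(27,0),(0,0)]⟩ ⟨13,[(7,1),(2,0),(5,1),(7,6),(0,3),(4,1),(4,0),(0,0)]⟩),(.r 0 ⟨2,
  [(10,0),(3,1),(4,0),(27,0),(0,0)]⟩ ⟨13,[(7,1),(2,0),(5,1),(7,6),(0,3),(4,1),(4,0),(0,0)]⟩),.k,.k,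
  ⟨true,1,⟨1,[(10,0),(8,0),(32,0)]⟩,⟨15,[(9,6),(4,0),(1,8),(0,7),(5,1),(11,0),(8,1)]⟩⟩,⟨false,2,⟨0,
  [(29,0),(21,0)]⟩,⟨0,[(0,0)]⟩⟩,⟨false,1,⟨0,[(52,0)]⟩,⟨0,[(54,0)]⟩⟩,⟨true,1,⟨10,[(2,2),(6,0),(6,0),
  (12,7),(4,1),(12,0),(0,3)]⟩,⟨0,[(5,0),(8,0)]⟩⟩,⟨false,0,⟨0,[]⟩,⟨0,[]⟩⟩,⟨false,0,⟨0,[]⟩,⟨0,[]⟩⟩,
  [.e ⟨false,1,⟨14,[(10,3),(13,1),(0,3),(18,2),(6,4)]⟩,⟨0,[]⟩⟩ ⟨false,1,⟨0,[(29,0),(18,0)]⟩,⟨1,[(0,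
  1),(9,0),(8,0),(32,0)]⟩⟩,.o ⟨false,1,⟨13,[(24,5),(19,1),(2,6),(0,1),(2,0)]⟩,⟨0,[(50,0)]⟩⟩,.o
  ⟨false,0,⟨0,[(5,0)]⟩,⟨0,[(29,0)]⟩⟩,.a ⟨true,(-1),⟨0,[(0,0)]⟩,⟨5,[(4,1),(9,1),(14,3),(4,1),(11,0),
  (4,2)]⟩⟩ ⟨false,1,⟨1,[(51,0),(0,0)]⟩,⟨1,[(36,0),(0,0)]⟩⟩ ⟨true,1,⟨0,[(29,0),(18,0)]⟩,⟨0,[(0,0),
  (49,0)]⟩⟩]⟩))))) (.R ⟨1,true,false,false,[0,0,1],[1,0,0,0,-1],[0,0,0,-1,0,0,0,1],(⟨0,[(35,0)]⟩,⟨0,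
  [(34,0)]⟩),(⟨0,[(27,0)]⟩,⟨0,[(28,0)]⟩),⟨0,[(24,0)]⟩,.k,.k,.k,.k,(.r 0 ⟨2,[(6,0),(3,1),(4,3),(27,
  0),(0,0)]⟩ ⟨3,[(3,0),(2,0),(5,0),(1,0),(1,0),(3,1),(5,0),(5,1)]⟩),.k,⟨false,0,⟨2,[(6,0),(3,1),(4,
  3),(27,0),(0,0)]⟩,⟨11,[(6,3),(7,7),(5,1),(11,7),(14,0),(0,4)]⟩⟩,⟨true,0,⟨4,[(3,4),(1,2),(4,3),(4,
  1),(27,1),(0,5)]⟩,⟨0,[(1,0),(30,0)]⟩⟩,⟨true,0,⟨0,[(46,0)]⟩,⟨0,[(45,0)]⟩⟩,⟨false,1,⟨0,[(2,0)]⟩,⟨3,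
  [(0,3),(19,1),(26,0),(0,0)]⟩⟩,⟨false,1,⟨21,[(3,0),(2,5),(5,0),(7,2),(0,6),(4,0),(21,4)]⟩,⟨0,[]⟩⟩,
  ⟨true,1,⟨3,[(2,2),(6,0),(10,0),(4,0),(14,0)]⟩,⟨0,[(0,0)]⟩⟩,[]⟩))) (.R ⟨1,true,false,true,[1,0,-1],
  [0,0,0,0,1],[1,1,0,0,0,0,0,-1],(⟨0,[(32,0)]⟩,⟨0,[(33,0)]⟩),(⟨0,[(26,0)]⟩,⟨0,[(25,0)]⟩),⟨0,[(21,
  0)]⟩,.k,.k,.k,.k,(.r (-2) ⟨13,[(1,1),(2,14),(5,1),(7,6),(0,3),(4,1),(4,0),(0,0)]⟩ ⟨4,[(3,3),(4,1),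
  (4,0),(27,0),(0,2)]⟩),.k,⟨true,1,⟨22,[(1,3),(2,9),(5,3),(1,8),(5,2),(5,3),(5,8),(15,5)]⟩,⟨4,[(3,
  2),(4,3),(4,1),(27,1),(0,0)]⟩⟩,⟨false,1,⟨5,[(0,5),(3,3),(7,1),(5,1),(11,1),(14,0),(0,4)]⟩,⟨4,[(1,
  4),(1,2),(4,3),(4,1),(27,1),(0,5)]⟩⟩,⟨false,0,⟨0,[]⟩,⟨21,[(1,0),(2,5),(5,0),(7,2),(0,6),(4,0),(21,
  4)]⟩⟩,⟨true,(-1),⟨0,[(0,0)]⟩,⟨3,[(1,2),(9,0),(6,0),(4,0),(14,0)]⟩⟩,⟨true,0,⟨0,[(43,0)]⟩,⟨0,[(44,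
  0)]⟩⟩,⟨false,0,⟨3,[(0,3),(17,1),(26,0),(0,0)]⟩,⟨0,[(1,0)]⟩⟩,[]⟩)) (.Q [0,0,0,0,0,1,0,0,0,0,0,-1]
  (.ed true [1,-1,0,0,1] .k) (.Q [0,0,1,0,-1,0,0,0,1,0,0,1] (.p true [0,0,0,0,1] [] (⟨0,[(26,0)]⟩,
  ⟨0,[(25,0)]⟩) .k 0 (⟨0,[]⟩,⟨0,[]⟩) .k .k) (.R ⟨0,false,false,false,[0,1,0,0,-1],[0,1],[0,1],(⟨0,
  [(1,0)]⟩,⟨0,[(27,0),(9,0)]⟩),(⟨0,[(38,0)]⟩,⟨0,[(37,0)]⟩),⟨0,[(27,0)]⟩,(.r (-1) ⟨6,[(5,0),(13,3),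
  (0,0),(10,1),(0,1),(14,0)]⟩ ⟨2,[(5,0),(3,1),(4,0),(27,0),(0,0)]⟩),.k,.k,.k,.k,.k,⟨true,0,⟨2,[(5,
  0),(3,1),(4,0),(27,0),(0,0)]⟩,⟨11,[(4,3),(6,5),(0,3),(6,1),(12,1),(8,0),(5,6)]⟩⟩,⟨false,0,⟨0,[(0,
  0),(45,0)]⟩,⟨0,[(24,0)]⟩⟩,⟨false,0,⟨2,[(5,0),(3,1),(4,0),(27,0),(0,0)]⟩,⟨35,[(4,3),(6,5),(0,3),(6,
  13),(12,1),(8,0),(5,30)]⟩⟩,⟨true,(-1),⟨12,[(0,6),(1,4),(0,0),(1,2),(3,0),(2,1),(15,1)]⟩,⟨0,[(24,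
  0)]⟩⟩,⟨false,0,⟨0,[]⟩,⟨0,[]⟩⟩,⟨false,0,⟨0,[]⟩,⟨0,[]⟩⟩,[.o ⟨false,1,⟨13,[(19,5),(19,1),(2,6),(0,1),
  (2,0)]⟩,⟨0,[(45,0)]⟩⟩,.e ⟨false,1,⟨14,[(5,3),(13,1),(0,3),(18,2),(6,4)]⟩,⟨0,[]⟩⟩ ⟨false,0,⟨2,[(0,
  1),(1,0),(5,0),(37,0),(0,2)]⟩,⟨2,[(5,0),(3,1),(4,0),(9,2),(17,0),(0,0)]⟩⟩,.o ⟨false,2,⟨1,[(24,1),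
  (17,0),(3,0)]⟩,⟨0,[(0,0)]⟩⟩,.a ⟨true,1,⟨0,[(24,0)]⟩,⟨2,[(0,2),(8,0),(31,0),(1,0),(2,0),(0,0)]⟩⟩
  ⟨true,0,⟨5,[(5,0),(3,1),(4,0),(27,0),(0,3)]⟩,⟨1,[(31,0),(0,0)]⟩⟩ ⟨false,0,⟨2,[(0,1),(1,0),(5,0),
  (37,0),(0,2)]⟩,⟨0,[(24,0),(20,0)]⟩⟩]⟩) (.R ⟨0,false,false,false,[0,1,0,0,-1],[0,1],[1,0,1,1],(⟨0,
  [(1,0)]⟩,⟨0,[(27,0),(9,0)]⟩),(⟨0,[(38,0)]⟩,⟨0,[(37,0)]⟩),⟨0,[(27,0)]⟩,(.r (-1) ⟨6,[(5,0),(13,3),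
  (0,0),(10,1),(0,1),(14,0)]⟩ ⟨7,[(0,1),(1,1),(2,2),(3,3),(4,0),(2,1),(24,0)]⟩),.k,.k,.k,.k,.k,
  ⟨true,0,⟨0,[]⟩,⟨1,[(31,0),(0,0)]⟩⟩,⟨false,0,⟨13,[(2,7),(0,5),(1,5),(2,1),(32,2),(4,3),(0,8)]⟩,⟨0,
  [(24,0)]⟩⟩,⟨false,0,⟨0,[]⟩,⟨13,[(5,3),(13,1),(0,3),(10,0),(0,0),(14,3)]⟩⟩,⟨true,(-1),⟨0,[(2,0),(6,
  0),(5,0),(29,0),(1,0)]⟩,⟨0,[(24,0)]⟩⟩,⟨false,0,⟨0,[]⟩,⟨0,[]⟩⟩,⟨false,0,⟨0,[]⟩,⟨0,[]⟩⟩,[.o ⟨false,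
  1,⟨13,[(19,5),(19,1),(2,6),(0,1),(2,0)]⟩,⟨0,[(45,0)]⟩⟩,.e ⟨false,1,⟨3,[(19,1),(26,0),(0,0)]⟩,⟨7,
  [(0,1),(1,1),(2,2),(3,3),(4,0),(2,1),(24,0)]⟩⟩ ⟨false,0,⟨0,[(2,0),(6,0),(5,0),(31,1)]⟩,⟨3,[(0,0),
  (4,0),(3,1),(4,0),(9,2),(14,0),(2,0)]⟩⟩,.a ⟨true,1,⟨0,[(0,0)]⟩,⟨11,[(2,0),(0,5),(4,0),(0,2),(0,0),
  (11,0),(2,4),(5,5),(3,2),(5,3),(5,2)]⟩⟩ ⟨true,0,⟨9,[(4,0),(6,1),(0,1),(5,0),(0,2)]⟩,⟨7,[(0,1),(1,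
  1),(2,2),(3,3),(4,0),(2,1),(24,0)]⟩⟩ ⟨false,0,⟨47,[(2,11),(0,13),(4,11),(2,13),(7,5),(5,21),(15,
  6),(5,38)]⟩,⟨0,[(0,0),(44,0)]⟩⟩,.e ⟨false,1,⟨3,[(19,1),(26,0),(0,0)]⟩,⟨0,[(45,0)]⟩⟩ ⟨false,0,⟨0,
  [(2,0),(6,0),(5,0),(31,1)]⟩,⟨0,[(24,0),(20,0)]⟩⟩]⟩)) (.Q [0,0,1,0,-1,0,0,0,1,0,0,1] (.p true [0,0,
  0,0,1] [] (⟨0,[(26,0)]⟩,⟨0,[(25,0)]⟩) .k 0 (⟨0,[]⟩,⟨0,[]⟩) .k .k) (.S ⟨1,0,[0,0,1],[1,1,0,0,-1],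
  [0,-1,1],(⟨160,[(5,8),(3,14),(9,11),(0,8),(5,160),(8,25),(3,2),(0,44),(0,14)]⟩,⟨0,[(1,0)]⟩),⟨0,
  [(26,0)]⟩,(.r (-1) ⟨6,[(5,0),(13,3),(0,0),(10,1),(0,1),(14,0)]⟩ ⟨2,[(5,0),(3,1),(4,0),(27,0),(0,
  0)]⟩),.k,⟨true,0,⟨0,[(45,0)]⟩,⟨0,[(44,0)]⟩⟩,⟨false,0,⟨0,[(45,0)]⟩,⟨3,[(19,1),(26,0),(0,0)]⟩⟩,
  ⟨false,1,⟨13,[(5,3),(13,1),(0,3),(10,0),(0,0),(14,3)]⟩,⟨0,[]⟩⟩,⟨true,0,⟨0,[(49,0)]⟩,⟨0,[]⟩⟩,[.o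
  ⟨false,1,⟨0,[(24,0)]⟩,⟨1,[(0,1),(41,0),(3,0)]⟩⟩,.e ⟨false,1,⟨0,[(47,0)]⟩,⟨0,[(39,0)]⟩⟩ ⟨false,1,
  ⟨13,[(5,3),(13,1),(0,3),(10,0),(0,0),(14,3)]⟩,⟨5,[(5,0),(3,1),(4,0),(27,0),(0,3)]⟩⟩,.a ⟨true,1,⟨2,
  [(9,0),(14,2),(16,0),(1,0),(2,0),(0,0)]⟩,⟨0,[(0,0)]⟩⟩ ⟨false,1,⟨1,[(31,0),(0,0),(14,1)]⟩,⟨5,[(5,
  0),(3,1),(4,0),(27,0),(0,3)]⟩⟩ ⟨true,0,⟨1,[(31,0),(0,0)]⟩,⟨5,[(5,0),(3,1),(4,0),(27,0),(0,3)]⟩⟩,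
  .o ⟨false,1,⟨0,[(24,0)]⟩,⟨1,[(0,1),(41,0),(3,0)]⟩⟩]⟩) (.S ⟨1,0,[0,-1,1],[1,1,0,0,-1],[0,0,1],
  (⟨160,[(5,8),(3,14),(9,11),(0,8),(5,160),(8,25),(3,2),(0,44),(0,14)]⟩,⟨0,[(1,0)]⟩),⟨0,[(26,0)]⟩,
  (.r (-1) ⟨6,[(5,0),(13,3),(0,0),(10,1),(0,1),(14,0)]⟩ ⟨7,[(0,1),(1,1),(2,2),(3,3),(4,0),(2,1),(24,
  0)]⟩),.k,⟨false,0,⟨0,[(45,0)]⟩,⟨3,[(19,1),(26,0),(0,0)]⟩⟩,⟨true,0,⟨0,[(45,0)]⟩,⟨0,[(44,0)]⟩⟩,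
  ⟨true,0,⟨0,[(49,0)]⟩,⟨0,[]⟩⟩,⟨false,1,⟨13,[(5,3),(13,1),(0,3),(10,0),(0,0),(14,3)]⟩,⟨0,[]⟩⟩,[.a
  ⟨true,1,⟨33,[(0,5),(3,1),(3,1),(0,5),(14,27),(6,1),(3,3),(1,3),(3,10),(5,20)]⟩,⟨0,[(2,0),(6,0),(5,
  0),(29,0),(1,0)]⟩⟩ ⟨true,0,⟨1,[(31,0),(0,0)]⟩,⟨0,[]⟩⟩ ⟨false,1,⟨13,[(5,3),(13,1),(0,3),(10,0),(0,
  0),(14,3)]⟩,⟨4,[(0,0),(1,0),(2,0),(3,0),(7,0),(25,1)]⟩⟩,.e ⟨false,1,⟨13,[(5,3),(13,1),(0,3),(10,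
  0),(0,0),(14,3)]⟩,⟨4,[(0,0),(1,0),(2,0),(3,0),(7,0),(25,1)]⟩⟩ ⟨false,1,⟨0,[(47,0)]⟩,⟨0,[(39,0)]⟩⟩,
  .o ⟨false,1,⟨0,[(0,0)]⟩,⟨2,[(3,0),(7,0),(13,1),(16,0)]⟩⟩,.o ⟨false,1,⟨0,[(24,0)]⟩,⟨0,[(2,0),(12,
  0),(29,1),(1,0)]⟩⟩]⟩))))))

theorem ok66 : chk K t66 r42 = true := by decide +kernel

noncomputable def t69 : Tre :=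
  (.N [0,0,1] 0 ⟨0,[(7,0)]⟩ ⟨0,[(0,0)]⟩ .k)

theorem ok69 : chk K t69 r40 = true := by decide +kernel

noncomputable def t76 : Tre :=
  (.R ⟨1,false,false,false,[0,0,1],[0,1],[1,0,1],(⟨0,[(21,0)]⟩,⟨0,[(20,0)]⟩),(⟨0,[(25,0)]⟩,⟨0,[(24,
  0)]⟩),⟨0,[(10,0)]⟩,.k,.k,.k,.k,(.r (-1) ⟨0,[(0,0),(3,0),(28,0)]⟩ ⟨0,[(1,0),(0,1),(15,1)]⟩),.k,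
  ⟨true,0,⟨0,[(32,0)]⟩,⟨0,[(1,0),(0,0),(15,0)]⟩⟩,⟨false,1,⟨0,[(4,0),(28,0)]⟩,⟨0,[(18,0)]⟩⟩,⟨true,0,
  ⟨0,[(2,0),(15,0),(13,0)]⟩,⟨1,[(0,0),(0,0),(2,0),(25,1)]⟩⟩,⟨true,0,⟨0,[(2,0)]⟩,⟨1,[(0,0),(15,0),
  (19,0)]⟩⟩,⟨true,0,⟨0,[(2,0),(15,0)]⟩,⟨0,[(0,0),(3,0),(25,0)]⟩⟩,⟨false,1,⟨3,[(2,3),(3,1),(26,0),(0,
  0)]⟩,⟨0,[(0,0)]⟩⟩,[.o ⟨false,1,⟨13,[(6,5),(19,1),(2,6),(0,1),(2,0)]⟩,⟨0,[(32,0)]⟩⟩,.e ⟨false,1,⟨1,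
  [(11,0),(0,0),(21,0)]⟩,⟨0,[(30,0),(1,0)]⟩⟩ ⟨false,1,⟨1,[(1,1),(0,1),(30,0),(0,0)]⟩,⟨0,[(18,0),(11,
  0),(1,1)]⟩⟩,.o ⟨false,1,⟨1,[(18,1),(10,0),(3,0)]⟩,⟨0,[(4,0)]⟩⟩,.a ⟨true,0,⟨0,[(18,0)]⟩,⟨0,[(15,
  0)]⟩⟩ ⟨true,0,⟨0,[]⟩,⟨0,[(36,0)]⟩⟩ ⟨false,1,⟨1,[(1,1),(0,1),(30,0),(0,0)]⟩,⟨0,[(18,0),(13,0)]⟩⟩]⟩)

theorem ok76 : chk K t76 r33 = true := by decide +kernel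

noncomputable def t79 : Tre :=
  (.S ⟨1,0,[0,0,0,-1,0,0,0,1],[0,0,1],[1,1,0,0,0,0,0,1],(⟨0,[(26,0)]⟩,⟨0,[(25,0)]⟩),⟨0,[(15,0)]⟩,.k,
  .k,⟨false,0,⟨0,[]⟩,⟨1,[(16,0),(0,0),(21,0)]⟩⟩,⟨true,0,⟨0,[(37,0)]⟩,⟨0,[(36,0)]⟩⟩,⟨true,0,⟨0,[(36,
  0)]⟩,⟨0,[(37,0)]⟩⟩,⟨false,1,⟨1,[(16,0),(0,0),(21,0)]⟩,⟨0,[]⟩⟩,[.e ⟨false,0,⟨5,[(0,1),(2,1),(1,2),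
  (7,0),(7,0),(9,1)]⟩,⟨1,[(0,1),(7,1),(14,3),(10,0),(4,0)]⟩⟩ ⟨false,0,⟨1,[(0,0),(4,0),(1,0),(1,0)]⟩,
  ⟨2,[(2,1),(5,0),(2,0),(10,1),(0,0),(9,0),(5,0)]⟩⟩,.o ⟨false,1,⟨1,[(7,1),(26,0),(4,0)]⟩,⟨0,[(8,
  0)]⟩⟩,.o ⟨false,1,⟨3,[(2,1),(13,0),(0,0),(5,1),(10,0)]⟩,⟨0,[(9,0)]⟩⟩,.a ⟨true,0,⟨0,[(23,0)]⟩,⟨0,
  [(20,0)]⟩⟩ ⟨false,0,⟨1,[(0,0),(2,0),(1,0)]⟩,⟨0,[(22,0),(0,0),(15,0)]⟩⟩ ⟨true,0,⟨1,[(0,0),(4,0),(1,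
  0),(1,0)]⟩,⟨0,[(8,0),(14,0)]⟩⟩]⟩)

theorem ok79 : chk K t79 l49 = true := by decide +kernel

noncomputable def t80 : Tre :=
  (.I [1,-1,0,1,1,0,0,-1] (.S ⟨1,0,[0,0,0,-1,0,0,0,1],[0,0,1],[0,1,0,-1,0,0,0,1],(⟨0,[(28,0)]⟩,⟨0,
  [(27,0)]⟩),⟨0,[(17,0)]⟩,.k,.k,⟨false,0,⟨0,[(39,0)]⟩,⟨2,[(6,0),(6,1)]⟩⟩,⟨true,0,⟨0,[(39,0)]⟩,⟨0,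
  [(38,0)]⟩⟩,⟨true,0,⟨0,[(43,0)]⟩,⟨0,[]⟩⟩,⟨false,1,⟨1,[(18,0),(0,0),(21,0)]⟩,⟨0,[]⟩⟩,[.e ⟨false,0,
  ⟨3,[(1,2),(7,0),(16,0),(6,1)]⟩,⟨0,[(0,0)]⟩⟩ ⟨false,0,⟨0,[(1,0)]⟩,⟨8,[(0,6),(12,0),(4,0),(0,0),(4,
  1),(0,1),(7,2)]⟩⟩,.o ⟨false,1,⟨1,[(9,1),(26,0),(4,0)]⟩,⟨0,[(10,0)]⟩⟩,.o ⟨false,1,⟨3,[(4,1),(13,0),
  (0,0),(5,1),(10,0)]⟩,⟨0,[(11,0)]⟩⟩,.a ⟨true,0,⟨0,[(25,0)]⟩,⟨0,[(22,0)]⟩⟩ ⟨false,0,⟨0,[(1,0)]⟩,⟨1,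
  [(0,1),(24,0),(0,0)]⟩⟩ ⟨true,0,⟨0,[(1,0)]⟩,⟨0,[(10,0),(14,0)]⟩⟩]⟩) (.I [0,-1,0,0,1,0,0,-1] (.S ⟨1,
  0,[0,0,0,-1,0,0,0,1],[0,0,1],[1,1,0,0,0,0,0,1],(⟨0,[(29,0)]⟩,⟨0,[(28,0)]⟩),⟨0,[(18,0)]⟩,.k,.k,
  ⟨false,0,⟨0,[]⟩,⟨4,[(0,1),(6,0),(7,1),(24,0)]⟩⟩,⟨true,0,⟨0,[(40,0)]⟩,⟨0,[(39,0)]⟩⟩,⟨true,0,⟨0,
  [(39,0)]⟩,⟨0,[(40,0)]⟩⟩,⟨false,1,⟨4,[(0,1),(6,0),(7,1),(24,0)]⟩,⟨0,[]⟩⟩,[.e ⟨false,0,⟨1,[(2,0),(3,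
  0),(27,0)]⟩,⟨0,[(0,0)]⟩⟩ ⟨false,0,⟨0,[(2,0)]⟩,⟨0,[(0,0),(38,0)]⟩⟩,.o ⟨false,1,⟨1,[(10,1),(26,0),
  (4,0)]⟩,⟨0,[(11,0)]⟩⟩,.o ⟨false,1,⟨4,[(0,1),(2,0),(1,1),(4,0),(13,0),(12,0)]⟩,⟨0,[(12,0)]⟩⟩,.a
  ⟨true,0,⟨0,[(26,0)]⟩,⟨0,[(23,0)]⟩⟩ ⟨false,0,⟨3,[(1,1),(2,1),(1,1),(29,0),(5,0)]⟩,⟨1,[(0,1),(25,0),
  (0,0)]⟩⟩ ⟨true,0,⟨0,[(2,0)]⟩,⟨0,[(11,0),(14,0)]⟩⟩]⟩) (.Q [0,-1,0,-2,0,0,1,1,0,0,1] (.p true [0,0,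
  1] [] (⟨0,[(29,0)]⟩,⟨0,[(28,0)]⟩) .k 0 (⟨0,[]⟩,⟨0,[]⟩) .k .k) (.R ⟨1,false,false,true,[0,0,1],[0,
  1],[1,1,1],(⟨0,[(30,0)]⟩,⟨0,[(29,0)]⟩),(⟨0,[(34,0)]⟩,⟨0,[(33,0)]⟩),⟨0,[(19,0)]⟩,.k,.k,.k,.k,(.r 0
  ⟨0,[(2,0),(5,0)]⟩ ⟨0,[(15,0),(10,0),(0,0)]⟩),.k,⟨true,0,⟨1,[(0,0),(25,0)]⟩,⟨3,[(1,1),(2,1),(7,1),
  (24,0),(5,2)]⟩⟩,⟨false,1,⟨1,[(5,0),(11,0),(24,0)]⟩,⟨0,[(27,0)]⟩⟩,⟨true,0,⟨0,[(26,0),(0,0)]⟩,⟨1,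
  [(1,1),(3,0),(12,0),(0,0),(11,1),(11,0)]⟩⟩,⟨true,0,⟨0,[(12,0)]⟩,⟨0,[(11,0)]⟩⟩,⟨true,0,⟨0,[(12,0),
  (14,0)]⟩,⟨0,[(3,0)]⟩⟩,⟨false,1,⟨2,[(8,0),(3,2),(2,1)]⟩,⟨0,[(0,0)]⟩⟩,[.e ⟨false,0,⟨0,[(45,0)]⟩,⟨1,
  [(42,0),(0,0)]⟩⟩ ⟨false,0,⟨0,[(13,0),(25,0)]⟩,⟨3,[(0,0),(7,1),(11,0),(0,0),(4,0),(0,3),(15,0)]⟩⟩,
  .o ⟨false,1,⟨6,[(5,0),(9,2),(19,0),(2,2),(1,0)]⟩,⟨0,[(41,0)]⟩⟩,.o ⟨false,1,⟨3,[(6,1),(13,0),(0,0),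
  (5,1),(10,0)]⟩,⟨0,[(13,0)]⟩⟩,.a ⟨true,0,⟨0,[(27,0)]⟩,⟨0,[(24,0)]⟩⟩ ⟨false,0,⟨0,[]⟩,⟨1,[(20,0),(0,
  0),(21,0)]⟩⟩ ⟨true,0,⟨0,[(13,0),(25,0)]⟩,⟨1,[(0,0),(25,0),(0,1)]⟩⟩]⟩) (.I [0,-1,0,-1,1,0,0,-1]
  (.R ⟨1,false,false,false,[1,0,-1],[1,-1],[1,1],(⟨0,[(30,0)]⟩,⟨0,[(31,0)]⟩),(⟨0,[(34,0)]⟩,⟨0,[(35,
  0)]⟩),⟨0,[(19,0)]⟩,.k,.k,.k,.k,.k,.k,⟨false,0,⟨1,[(1,0),(24,0)]⟩,⟨6,[(0,2),(3,1),(4,2),(7,0)]⟩⟩,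
  ⟨true,0,⟨0,[(28,0)]⟩,⟨0,[(14,0)]⟩⟩,⟨true,(-1),⟨0,[(2,0)]⟩,⟨4,[(0,3),(0,0),(14,0),(11,0),(7,1)]⟩⟩,
  ⟨true,0,⟨0,[(12,0)]⟩,⟨0,[(13,0)]⟩⟩,⟨false,0,⟨0,[(8,0)]⟩,⟨0,[(0,0)]⟩⟩,⟨true,0,⟨0,[(11,0)]⟩,⟨0,[(27,
  0)]⟩⟩,[.o ⟨false,0,⟨0,[(42,0)]⟩,⟨21,[(1,0),(4,2),(3,0),(5,9),(19,3),(2,8)]⟩⟩,.a ⟨true,0,⟨1,[(38,
  0),(3,1),(1,0)]⟩,⟨0,[(41,0)]⟩⟩ ⟨true,0,⟨0,[]⟩,⟨1,[(28,0),(0,0)]⟩⟩ ⟨false,1,⟨0,[(9,0),(18,0)]⟩,⟨55,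
  [(1,21),(0,9),(3,2),(8,11),(2,16),(17,5),(2,6)]⟩⟩,.o ⟨false,0,⟨0,[(14,0)]⟩,⟨11,[(0,2),(4,2),(1,6),
  (4,0),(4,0),(8,0),(12,0)]⟩⟩,.o ⟨false,0,⟨0,[(29,0)]⟩,⟨0,[(7,0)]⟩⟩]⟩) (.I [1,0,2,1,-1,0,0,1] (.I
  [1,1,-2,-1] (.Q [0,-1,-1,-1,0,0,-1,0,0,1,-1] (.p false [0,0,1] [1] (⟨0,[(33,0)]⟩,⟨0,[(32,0)]⟩) .k
  1 (⟨0,[]⟩,⟨0,[]⟩) .k .k) (.Q [0,0,0,0,0,2,0,0,0,0,-1] (.p false [0,0,1] [] (⟨0,[(34,0)]⟩,⟨0,[(33,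
  0)]⟩) .k 0 (⟨0,[]⟩,⟨0,[]⟩) .k .k) (.R ⟨0,false,false,false,[0,-1,1],[1,-1],[1],(⟨0,[(24,0)]⟩,⟨4,
  [(0,1),(24,0),(0,0),(7,2),(1,0),(5,0)]⟩),(⟨0,[(38,0)]⟩,⟨0,[(39,0)]⟩),⟨0,[(0,0)]⟩,.k,.k,(.r 0 ⟨0,
  [(7,0),(5,0)]⟩ ⟨0,[(20,0),(10,0),(0,0)]⟩),.k,.k,.k,⟨true,0,⟨9,[(3,1),(1,1),(14,1),(11,2),(0,0)]⟩,
  ⟨0,[(46,0)]⟩⟩,⟨false,0,⟨0,[(29,0)]⟩,⟨3,[(11,1),(13,0),(0,0),(5,1),(10,0)]⟩⟩,⟨false,1,⟨1,[(5,0),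
  (25,0),(0,1),(15,1)]⟩,⟨0,[(8,0)]⟩⟩,⟨true,0,⟨1,[(5,0),(25,0),(10,0),(3,1),(1,0)]⟩,⟨0,[(14,0)]⟩⟩,
  ⟨false,0,⟨0,[]⟩,⟨0,[]⟩⟩,⟨false,0,⟨0,[]⟩,⟨0,[]⟩⟩,[.o ⟨false,0,⟨0,[(46,0)]⟩,⟨21,[(5,0),(4,2),(3,0),
  (5,9),(19,3),(2,8)]⟩⟩,.a ⟨true,0,⟨1,[(42,0),(3,1),(1,0)]⟩,⟨0,[(45,0)]⟩⟩ ⟨false,1,⟨2,[(13,1),(6,
  0)]⟩,⟨0,[(50,0)]⟩⟩ ⟨true,0,⟨0,[(1,0)]⟩,⟨0,[(9,0)]⟩⟩,.a ⟨true,0,⟨0,[(32,0)]⟩,⟨0,[(29,0)]⟩⟩ ⟨true,0,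
  ⟨0,[]⟩,⟨0,[(50,0)]⟩⟩ ⟨false,0,⟨0,[(1,0)]⟩,⟨4,[(9,2),(1,1),(8,0),(4,0),(0,0),(21,0)]⟩⟩,.a ⟨true,0,
  ⟨1,[(32,2),(0,0)]⟩,⟨0,[(1,0),(42,0)]⟩⟩ ⟨false,1,⟨2,[(13,1),(6,0)]⟩,⟨1,[(32,0),(0,0)]⟩⟩ ⟨true,0,⟨1,
  [(1,0),(0,0),(26,0)]⟩,⟨0,[(9,0)]⟩⟩]⟩) (.R ⟨0,false,false,false,[1,-1,-1],[0,-1,1],[1,1,1],(⟨0,
  [(23,0)]⟩,⟨22,[(25,2),(0,2),(8,22),(0,4),(4,5),(0,2)]⟩),(⟨0,[(24,0)]⟩,⟨22,[(25,2),(0,2),(7,22),(1,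
  4),(4,5),(0,2)]⟩),⟨2,[(0,1),(34,0),(0,0),(4,2)]⟩,.k,.k,(.x 1 ⟨13,[(0,13),(0,3),(1,9),(27,9),(4,1),
  (4,17),(0,6),(3,5),(1,2),(0,11)]⟩ ⟨5,[(0,1),(10,5),(11,7),(1,1),(0,1),(16,0),(3,2)]⟩),.k,.k,.k,
  ⟨false,0,⟨1,[(5,0),(25,0),(0,1)]⟩,⟨4,[(8,2),(3,0),(0,3),(7,0)]⟩⟩,⟨true,1,⟨0,[(11,0),(20,0)]⟩,⟨0,
  [(1,0),(1,0),(27,0)]⟩⟩,⟨false,(-1),⟨0,[(3,0)]⟩,⟨2,[(13,4),(6,0),(10,2),(0,2)]⟩⟩,⟨true,0,⟨0,[(3,0),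
  (2,0),(4,0),(1,0),(18,0)]⟩,⟨1,[(5,0),(25,2),(10,0),(3,1),(1,0)]⟩⟩,⟨false,0,⟨0,[]⟩,⟨0,[]⟩⟩,⟨false,
  0,⟨0,[]⟩,⟨0,[]⟩⟩,[.e ⟨false,0,⟨0,[(50,0)]⟩,⟨1,[(47,0),(0,0)]⟩⟩ ⟨false,1,⟨0,[(6,0),(4,0),(1,0),(18,
  0)]⟩,⟨4,[(1,0),(3,2),(25,1),(1,3),(8,1),(5,1),(0,1)]⟩⟩,.o ⟨false,1,⟨1,[(16,1),(26,0),(4,0)]⟩,⟨0,
  [(17,0)]⟩⟩,.o ⟨false,0,⟨0,[(33,0)]⟩,⟨0,[(11,0)]⟩⟩,.a ⟨true,(-1),⟨1,[(3,1),(27,1),(10,0),(3,1),(1,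
  0)]⟩,⟨7,[(11,7),(1,1),(22,1),(1,1),(3,2),(1,1),(2,0)]⟩⟩ ⟨false,0,⟨0,[]⟩,⟨1,[(25,0),(0,0),(21,
  0)]⟩⟩ ⟨true,1,⟨0,[(6,0),(4,0),(1,0),(18,0)]⟩,⟨1,[(3,1),(1,0),(25,2),(10,0),(3,1),(1,0)]⟩⟩]⟩)) (.Q
  [0,0,0,0,0,2,0,0,0,0,-1] (.p false [0,0,1] [] (⟨0,[(34,0)]⟩,⟨0,[(33,0)]⟩) .k 0 (⟨0,[]⟩,⟨0,[]⟩) .k
  .k) (.R ⟨0,false,false,false,[0,-1,1],[1,-1],[1],(⟨0,[(24,0)]⟩,⟨4,[(0,1),(24,0),(0,0),(7,2),(1,0),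
  (5,0)]⟩),(⟨0,[(38,0)]⟩,⟨0,[(39,0)]⟩),⟨0,[(0,0)]⟩,.k,.k,(.r 0 ⟨0,[(7,0),(5,0)]⟩ ⟨0,[(20,0),(10,0),
  (0,0)]⟩),.k,.k,.k,⟨true,0,⟨9,[(3,1),(1,1),(14,1),(11,2),(0,0)]⟩,⟨0,[(46,0)]⟩⟩,⟨false,0,⟨0,[(29,
  0)]⟩,⟨3,[(11,1),(13,0),(0,0),(5,1),(10,0)]⟩⟩,⟨false,1,⟨1,[(5,0),(25,0),(0,1),(15,1)]⟩,⟨0,[(8,
  0)]⟩⟩,⟨true,0,⟨1,[(5,0),(25,0),(10,0),(3,1),(1,0)]⟩,⟨0,[(14,0)]⟩⟩,⟨false,0,⟨0,[]⟩,⟨0,[]⟩⟩,⟨false,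
  0,⟨0,[]⟩,⟨0,[]⟩⟩,[.o ⟨false,0,⟨0,[(46,0)]⟩,⟨29,[(1,0),(3,0),(4,4),(8,0),(0,12),(19,4),(2,11)]⟩⟩,
  .e ⟨false,1,⟨2,[(13,1),(6,0)]⟩,⟨0,[(50,0)]⟩⟩ ⟨false,1,⟨5,[(13,5),(8,2),(2,0),(0,0),(9,0),(1,0),(3,
  0)]⟩,⟨0,[(1,0)]⟩⟩,.e ⟨true,0,⟨0,[]⟩,⟨0,[(50,0)]⟩⟩ ⟨true,0,⟨4,[(2,0),(10,0),(8,1),(6,0),(12,0),(3,
  2)]⟩,⟨0,[(1,0)]⟩⟩,.a ⟨true,0,⟨1,[(32,2),(0,0)]⟩,⟨1,[(5,1),(1,1),(5,1),(28,0),(5,0)]⟩⟩ ⟨false,1,⟨2,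
  [(13,1),(6,0)]⟩,⟨1,[(32,0),(0,0)]⟩⟩ ⟨true,0,⟨5,[(5,3),(1,3),(5,5),(4,1),(23,2),(3,3),(1,0)]⟩,⟨0,
  [(9,0)]⟩⟩]⟩) (.Q [0,-1,0,1,1,0,0,0,0,-1] (.pp true [-1,1]) (.R ⟨0,false,false,true,[1,-1,-1],[1,
  -1],[1,1,-1,-1],(⟨0,[(24,0)]⟩,⟨22,[(26,2),(0,2),(8,22),(0,4),(4,5),(0,2)]⟩),(⟨0,[(39,0)]⟩,⟨0,[(40,
  0)]⟩),⟨2,[(1,1),(34,0),(0,0),(4,2)]⟩,.k,.k,(.x 1 ⟨5,[(1,3),(2,5),(27,5),(3,1),(0,1),(4,5),(0,2),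
  (3,5),(1,2)]⟩ ⟨5,[(1,1),(10,5),(11,7),(1,1),(0,1),(16,0),(3,2)]⟩),.k,.k,.k,⟨true,0,⟨0,[]⟩,⟨1,[(33,
  0),(0,0)]⟩⟩,⟨false,1,⟨0,[(33,0),(14,0)]⟩,⟨0,[(19,0)]⟩⟩,⟨true,(-1),⟨0,[(7,0)]⟩,⟨2,[(14,1),(6,0),
  (10,2),(0,2)]⟩⟩,⟨false,0,⟨0,[(16,0)]⟩,⟨0,[(32,0),(16,0)]⟩⟩,⟨false,0,⟨0,[]⟩,⟨0,[]⟩⟩,⟨false,0,⟨0,
  []⟩,⟨0,[]⟩⟩,[.o ⟨false,0,⟨0,[(47,0),(3,0)]⟩,⟨0,[(0,0)]⟩⟩,.o ⟨false,0,⟨0,[(47,0)]⟩,⟨29,[(2,0),(3,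
  0),(4,4),(8,0),(0,12),(19,4),(2,11)]⟩⟩,.o ⟨false,0,⟨0,[(34,0)]⟩,⟨0,[(12,0)]⟩⟩,.a ⟨true,(-1),⟨1,
  [(4,1),(27,1),(10,0),(3,1),(1,0)]⟩,⟨7,[(12,7),(1,1),(22,1),(1,1),(3,2),(1,1),(2,0)]⟩⟩ ⟨true,0,⟨0,
  [(3,0)]⟩,⟨4,[(4,0),(1,0),(14,0),(11,3),(0,2)]⟩⟩ ⟨false,1,⟨7,[(3,1),(8,1),(1,5),(18,5),(7,1),(1,0),
  (4,0)]⟩,⟨0,[(4,0),(27,0),(16,0)]⟩⟩]⟩) (.Q [0,0,1,0,-1,0,-2,0,0,1,-2] (.p false [0,0,1] [1,0,-1]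
  (⟨0,[(36,0)]⟩,⟨0,[(35,0)]⟩) .k 2 (⟨0,[(35,0)]⟩,⟨0,[(36,0)]⟩) .k (.r 1 ⟨0,[(5,0),(2,0),(40,0)]⟩ ⟨2,
  [(14,3),(6,1),(10,5),(0,5)]⟩)) (.I [0,0,-2,-2,1,0,0,-1] (.R ⟨0,false,false,false,[1,-1,-1],[0,-1,
  1],[1,1,1],(⟨0,[(26,0)]⟩,⟨168,[(0,8),(22,2),(0,11),(9,2),(0,2),(2,168),(0,24),(4,47),(0,23),(7,
  11)]⟩),(⟨0,[(27,0)]⟩,⟨168,[(0,8),(22,2),(0,11),(9,2),(0,2),(1,168),(1,24),(4,47),(0,23),(7,11)]⟩),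
  ⟨2,[(3,1),(34,0),(0,0),(4,2)]⟩,.k,.k,(.r (-1) ⟨0,[(0,0)]⟩ ⟨1,[(6,0),(15,0),(0,0)]⟩),.k,.k,.k,
  ⟨false,0,⟨1,[(8,0),(25,0),(0,1)]⟩,⟨4,[(11,2),(3,0),(0,3),(7,0)]⟩⟩,⟨true,1,⟨0,[(14,0),(20,0)]⟩,⟨0,
  [(1,0)]⟩⟩,⟨false,(-1),⟨0,[(6,0)]⟩,⟨2,[(0,2),(15,0),(6,1)]⟩⟩,⟨true,0,⟨0,[(6,0),(2,0),(4,0),(1,0),
  (18,0)]⟩,⟨3,[(2,1),(5,0),(25,6),(10,0),(5,2)]⟩⟩,⟨false,0,⟨0,[]⟩,⟨0,[]⟩⟩,⟨false,0,⟨0,[]⟩,⟨0,[]⟩⟩,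
  [.e ⟨false,0,⟨0,[(53,0)]⟩,⟨1,[(50,0),(0,0)]⟩⟩ ⟨false,1,⟨0,[(9,0),(4,0),(1,0),(18,0)]⟩,⟨13,[(1,6),
  (6,0),(14,5),(10,12),(4,0),(1,0),(3,2),(5,3),(0,0)]⟩⟩,.o ⟨false,1,⟨1,[(19,1),(26,0),(4,0)]⟩,⟨0,
  [(20,0)]⟩⟩,.o ⟨false,0,⟨0,[(36,0)]⟩,⟨0,[(14,0)]⟩⟩,.a ⟨true,(-1),⟨0,[(1,0),(33,0)]⟩,⟨7,[(14,7),(1,
  1),(22,1),(1,1),(3,2),(1,1),(2,0)]⟩⟩ ⟨false,0,⟨0,[]⟩,⟨13,[(0,3),(22,1),(0,3),(10,0),(0,0),(14,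
  3)]⟩⟩ ⟨true,1,⟨0,[(9,0),(4,0),(1,0),(18,0)]⟩,⟨1,[(1,1),(6,0),(25,0),(0,1)]⟩⟩]⟩) (.R ⟨0,false,
  false,false,[1,-1,-1],[0,-1,1],[1,1,1],(⟨0,[(26,0)]⟩,⟨22,[(28,2),(0,2),(8,22),(0,4),(4,5),(0,
  2)]⟩),(⟨0,[(27,0)]⟩,⟨22,[(28,2),(0,2),(7,22),(1,4),(4,5),(0,2)]⟩),⟨2,[(3,1),(34,0),(0,0),(4,2)]⟩,
  .k,.k,(.x 1 ⟨2,[(1,2),(1,1),(31,2),(2,0),(0,0),(4,2)]⟩ ⟨5,[(3,1),(10,5),(11,7),(1,1),(0,1),(16,0),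
  (3,2)]⟩),.k,.k,.k,⟨false,0,⟨1,[(8,0),(25,0),(0,1)]⟩,⟨4,[(11,2),(3,0),(0,3),(7,0)]⟩⟩,⟨true,1,⟨0,
  [(14,0),(20,0)]⟩,⟨0,[(1,0)]⟩⟩,⟨false,(-1),⟨0,[(6,0)]⟩,⟨2,[(16,4),(6,0),(10,2),(0,2)]⟩⟩,⟨true,0,⟨0,
  [(6,0),(2,0),(4,0),(1,0),(18,0)]⟩,⟨3,[(2,1),(5,0),(25,6),(10,0),(5,2)]⟩⟩,⟨false,0,⟨0,[]⟩,⟨0,[]⟩⟩,
  ⟨false,0,⟨0,[]⟩,⟨0,[]⟩⟩,[.e ⟨false,0,⟨0,[(53,0)]⟩,⟨1,[(50,0),(0,0)]⟩⟩ ⟨false,1,⟨0,[(9,0),(4,0),(1,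
  0),(18,0)]⟩,⟨13,[(1,6),(6,0),(14,5),(10,12),(4,0),(1,0),(3,2),(5,3),(0,0)]⟩⟩,.o ⟨false,1,⟨1,[(19,
  1),(26,0),(4,0)]⟩,⟨0,[(20,0)]⟩⟩,.o ⟨false,0,⟨0,[(36,0)]⟩,⟨0,[(14,0)]⟩⟩,.a ⟨true,(-1),⟨0,[(1,0),
  (33,0)]⟩,⟨7,[(14,7),(1,1),(22,1),(1,1),(3,2),(1,1),(2,0)]⟩⟩ ⟨false,0,⟨0,[]⟩,⟨1,[(28,0),(0,0),(21,
  0)]⟩⟩ ⟨true,1,⟨0,[(9,0),(4,0),(1,0),(18,0)]⟩,⟨1,[(1,1),(6,0),(25,0),(0,1)]⟩⟩]⟩)) (.I [0,0,-2,-2,1,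
  0,0,-1] (.K ⟨0,[1,-1,-1],(-1),0,(⟨0,[(26,0)]⟩,⟨168,[(0,8),(22,2),(0,11),(9,2),(0,2),(2,168),(0,
  24),(4,47),(0,23),(7,11)]⟩),.k,(.r (-1) ⟨0,[(0,0)]⟩ ⟨1,[(6,0),(15,0),(0,0)]⟩),.k,(.r (-2) ⟨3,[(0,
  4),(22,2),(10,2),(0,2)]⟩ ⟨3,[(6,2),(0,1),(3,1),(3,0),(35,0)]⟩),.k,[⟨0,[(1,0)]⟩,⟨0,[(2,0),(3,0),
  (27,0),(16,0)]⟩,⟨15,[(1,1),(2,2),(2,6),(5,1),(3,8),(5,2)]⟩,⟨10,[(0,3),(1,3),(21,0),(0,4),(8,7),(0,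
  6),(9,0)]⟩]⟩) (.K ⟨0,[1,-1,-1],(-1),0,(⟨0,[(26,0)]⟩,⟨22,[(28,2),(0,2),(8,22),(0,4),(4,5),(0,2)]⟩),
  .k,(.x 1 ⟨1,[(2,1),(0,0),(2,1),(27,1),(3,0),(5,1),(6,1)]⟩ ⟨11,[(1,5),(1,3),(22,15),(1,3),(0,3),
  (16,4),(3,8)]⟩),.k,(.r (-2) ⟨5,[(1,1),(14,5),(11,1),(0,1),(4,11),(0,7),(9,0),(5,2)]⟩ ⟨0,[(0,0),
  (10,0)]⟩),.k,[⟨0,[(1,0)]⟩,⟨0,[(2,0),(3,0),(27,0),(16,0)]⟩,⟨15,[(1,1),(2,2),(2,6),(5,1),(3,8),(5,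
  2)]⟩,⟨1,[(2,1),(25,0),(0,0),(4,1),(16,0)]⟩]⟩)))))) (.R ⟨1,false,false,true,[1,-1],[0,1],[1,1,-1,
  -1],(⟨0,[(36,0)]⟩,⟨0,[(37,0)]⟩),(⟨0,[(37,0)]⟩,⟨0,[(36,0)]⟩),⟨0,[(21,0),(0,0)]⟩,.k,.k,(.r (-1) ⟨4,
  [(11,3),(11,0),(0,0),(13,1),(5,5)]⟩ ⟨14,[(0,5),(0,1),(1,3),(3,3),(9,1),(0,3),(21,1)]⟩),(.r (-1)
  ⟨4,[(11,3),(11,0),(0,0),(13,1),(5,5)]⟩ ⟨14,[(0,5),(0,1),(1,3),(3,3),(9,1),(0,3),(21,1)]⟩),(.r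
  (-1) ⟨4,[(5,1),(3,1),(1,5),(17,1),(8,0),(1,0),(3,6)]⟩ ⟨4,[(0,2),(0,0),(1,1),(3,1),(9,0),(0,1),(21,
  0)]⟩),.k,⟨false,1,⟨4,[(5,1),(3,1),(1,5),(17,1),(8,0),(1,0),(3,1)]⟩,⟨14,[(0,5),(0,1),(1,3),(3,3),
  (9,1),(0,3),(21,1)]⟩⟩,⟨true,1,⟨0,[(8,0)]⟩,⟨3,[(0,1),(0,1),(27,1),(0,2),(0,0),(8,1),(3,3)]⟩⟩,
  ⟨false,0,⟨0,[]⟩,⟨1,[(23,0),(0,0),(21,0)]⟩⟩,⟨false,1,⟨6,[(2,1),(0,1),(4,0),(0,1),(8,3),(22,1)]⟩,⟨1,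
  [(40,0),(3,3),(1,0)]⟩⟩,⟨true,0,⟨1,[(3,0),(24,0)]⟩,⟨0,[(44,0)]⟩⟩,⟨false,1,⟨1,[(0,0),(1,0),(0,0),(4,
  0),(0,0),(8,0)]⟩,⟨1,[(40,0),(3,5),(1,0)]⟩⟩,[.a ⟨true,0,⟨0,[(43,0)]⟩,⟨1,[(40,0),(3,1),(1,0)]⟩⟩
  ⟨true,0,⟨4,[(5,1),(3,1),(1,0),(17,1),(8,0),(1,0),(3,1)]⟩,⟨0,[(0,0)]⟩⟩ ⟨false,1,⟨1,[(3,0),(4,1),
  (19,0)]⟩,⟨1,[(30,0),(0,0),(8,0),(3,1),(1,0)]⟩⟩,.o ⟨false,1,⟨21,[(3,0),(4,2),(3,0),(5,9),(19,3),(2,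
  8)]⟩,⟨0,[(44,0)]⟩⟩,.o ⟨false,0,⟨1,[(30,0),(0,0)]⟩,⟨1,[(41,0),(3,0)]⟩⟩,.o ⟨false,0,⟨0,[(30,0),(0,
  0)]⟩,⟨0,[(8,0)]⟩⟩]⟩)) (.Q [0,-1,1,1,1,0,1,0,0,-1,1] (.p true [0,0,1] [1] (⟨0,[(32,0)]⟩,⟨0,[(31,
  0)]⟩) .k 1 (⟨0,[]⟩,⟨0,[]⟩) .k .k) (.Q [0,0,0,0,0,2,0,0,0,0,-1] (.p false [0,0,1] [] (⟨0,[(33,0)]⟩,
  ⟨0,[(32,0)]⟩) .k 0 (⟨0,[]⟩,⟨0,[]⟩) .k .k) (.R ⟨0,false,false,true,[0,-1,1],[1,-1],[1,1],(⟨0,[(23,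
  0)]⟩,⟨57,[(0,26),(1,5),(17,5),(0,2),(9,5),(1,30),(1,3),(5,11),(7,5)]⟩),(⟨0,[(37,0)]⟩,⟨0,[(38,
  0)]⟩),⟨0,[(0,0)]⟩,.k,.k,(.r 0 ⟨0,[(6,0),(5,0)]⟩ ⟨0,[(19,0),(10,0),(0,0)]⟩),.k,.k,.k,⟨true,0,⟨18,
  [(1,7),(1,2),(0,2),(3,1),(23,6),(8,4)]⟩,⟨0,[(45,0)]⟩⟩,⟨false,0,⟨0,[(28,0)]⟩,⟨22,[(1,4),(0,7),(5,
  6),(1,4),(4,5),(4,1),(21,2)]⟩⟩,⟨true,0,⟨1,[(4,0),(25,0),(0,1)]⟩,⟨0,[(7,0)]⟩⟩,⟨false,0,⟨1,[(4,0),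
  (25,0),(10,0),(3,1),(1,0)]⟩,⟨1,[(14,1),(27,0),(4,0)]⟩⟩,⟨false,0,⟨0,[]⟩,⟨0,[]⟩⟩,⟨false,0,⟨0,[]⟩,⟨0,
  []⟩⟩,[.e ⟨false,0,⟨2,[(2,0),(0,0),(35,0)]⟩,⟨5,[(2,1),(17,1),(10,0),(0,0),(14,1)]⟩⟩ ⟨false,0,⟨9,
  [(2,4),(3,3),(0,0),(13,1),(6,5),(10,2),(1,0)]⟩,⟨0,[(1,0)]⟩⟩,.o ⟨false,0,⟨0,[(45,0)]⟩,⟨21,[(4,0),
  (4,2),(3,0),(5,9),(19,3),(2,8)]⟩⟩,.e ⟨false,0,⟨0,[]⟩,⟨5,[(2,1),(17,1),(10,0),(0,0),(14,1)]⟩⟩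
  ⟨false,0,⟨3,[(2,0),(3,0),(5,0),(8,1),(19,0),(3,0)]⟩,⟨0,[(1,0)]⟩⟩,.a ⟨true,0,⟨1,[(31,2),(0,0)]⟩,⟨1,
  [(2,1),(0,1),(13,1),(23,0),(5,0)]⟩⟩ ⟨true,0,⟨2,[(2,0),(0,0),(35,0)]⟩,⟨1,[(31,0),(0,0)]⟩⟩ ⟨false,0,
  ⟨9,[(2,3),(1,3),(1,7),(5,5),(4,5),(23,4),(5,2)]⟩,⟨0,[(8,0),(38,0)]⟩⟩]⟩) (.Q [0,0,1,0,-1,0,-2,0,0,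
  1,-2] (.p false [0,0,1] [1,0,-1] (⟨0,[(34,0)]⟩,⟨0,[(33,0)]⟩) .k 2 (⟨0,[(33,0)]⟩,⟨0,[(34,0)]⟩) .k
  (.r 1 ⟨0,[(5,1),(41,0)]⟩ ⟨2,[(2,3),(16,1),(10,1),(0,3),(0,1)]⟩)) (.R ⟨0,false,false,false,[1,-1,
  -1],[0,-1,1],[0,1,-1,-2,0,0,0,-1],(⟨0,[(23,0)]⟩,⟨93,[(3,5),(17,5),(0,2),(9,5),(2,93),(0,12),(4,
  26),(0,11),(7,5)]⟩),(⟨0,[(24,0)]⟩,⟨93,[(3,5),(17,5),(0,2),(9,5),(1,93),(1,12),(4,26),(0,11),(7,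
  5)]⟩),⟨2,[(1,1),(33,0),(0,0),(4,2)]⟩,.k,.k,(.r (-1) ⟨0,[(3,0),(42,0)]⟩ ⟨35,[(0,9),(1,4),(1,16),(4,
  14),(10,7),(0,18),(20,4)]⟩),.k,.k,.k,⟨false,1,⟨0,[(3,0),(27,0),(0,0)]⟩,⟨2,[(4,2),(1,0),(1,0),(12,
  0),(26,2)]⟩⟩,⟨true,1,⟨0,[(11,0),(20,0)]⟩,⟨0,[(0,0)]⟩⟩,⟨false,0,⟨0,[(46,0)]⟩,⟨2,[(13,0),(6,1)]⟩⟩,
  ⟨true,0,⟨0,[(6,1),(4,0),(20,0),(15,0)]⟩,⟨3,[(0,1),(2,1),(1,0),(25,4),(0,1),(9,0),(5,0)]⟩⟩,⟨false,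
  0,⟨0,[]⟩,⟨0,[]⟩⟩,⟨false,0,⟨0,[]⟩,⟨0,[]⟩⟩,[.e ⟨false,1,⟨0,[(3,0),(42,0),(3,0)]⟩,⟨7,[(0,1),(1,3),(1,
  7),(15,1),(21,0),(5,4)]⟩⟩ ⟨false,1,⟨0,[(6,0),(4,0),(1,0),(18,0)]⟩,⟨21,[(0,11),(2,1),(1,1),(14,9),
  (10,17),(10,4),(5,4),(0,3)]⟩⟩,.o ⟨false,1,⟨1,[(16,1),(26,0),(4,0)]⟩,⟨0,[(17,0)]⟩⟩,.o ⟨false,0,⟨0,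
  [(33,0)]⟩,⟨0,[(11,0)]⟩⟩,.a ⟨true,(-1),⟨0,[(0,0),(31,0)]⟩,⟨5,[(3,1),(7,3),(3,1),(26,1),(1,1),(2,0),
  (0,0)]⟩⟩ ⟨false,1,⟨0,[(3,0),(42,0)]⟩,⟨7,[(0,4),(1,8),(1,4),(10,0),(5,1),(20,1),(5,0)]⟩⟩ ⟨true,1,
  ⟨0,[(6,0),(4,0),(1,0),(18,0)]⟩,⟨1,[(0,1),(4,0),(25,0),(0,1)]⟩⟩]⟩) (.Q [0,0,-2,0,1,0,1,0,0,-1,1]
  (.p true [0,0,1] [1] (⟨0,[(35,0)]⟩,⟨0,[(34,0)]⟩) .k 1 (⟨0,[]⟩,⟨0,[]⟩) .k .k) (.Q [0,0,2,0,-1,0,-2,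
  0,0,1,-2] (.p false [0,0,1] [1,0,-1] (⟨0,[(36,0)]⟩,⟨0,[(35,0)]⟩) .k 2 (⟨0,[(35,0)]⟩,⟨0,[(36,0)]⟩)
  .k (.r 1 ⟨0,[(7,1),(41,0)]⟩ ⟨2,[(4,3),(16,1),(10,1),(0,3),(0,1)]⟩)) (.R ⟨0,false,false,false,[1,
  -1,-1],[0,0,1],[1],(⟨0,[(25,0)]⟩,⟨154,[(0,2),(4,11),(17,11),(10,5),(2,154),(0,19),(4,44),(0,20),
  (7,11)]⟩),(⟨0,[(37,0)]⟩,⟨0,[(36,0)]⟩),⟨2,[(3,1),(33,0),(0,0),(4,2)]⟩,.k,.k,(.r (-1) ⟨0,[(5,0),(42,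
  0)]⟩ ⟨15,[(0,4),(5,6),(4,4),(5,4),(4,7),(0,3)]⟩),(.r (-2) ⟨5,[(0,1),(4,11),(5,1),(10,1),(11,4),(0,
  2)]⟩ ⟨2,[(0,0),(3,0),(1,1),(1,2),(8,0),(32,1)]⟩),.k,.k,⟨false,1,⟨7,[(5,5),(1,0),(14,1),(10,0),(0,
  1)]⟩,⟨2,[(8,0),(1,0),(12,0)]⟩⟩,⟨true,1,⟨0,[(2,0)]⟩,⟨0,[(0,0)]⟩⟩,⟨false,0,⟨2,[(0,0),(3,0),(1,1),
  (10,0),(32,1)]⟩,⟨1,[(5,1),(28,0),(0,0)]⟩⟩,⟨true,0,⟨1,[(2,0),(1,0),(1,0),(1,1),(8,0),(32,0)]⟩,⟨1,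
  [(33,3),(10,0),(3,1),(1,0)]⟩⟩,⟨false,0,⟨0,[]⟩,⟨0,[]⟩⟩,⟨false,0,⟨0,[]⟩,⟨0,[]⟩⟩,[.a ⟨true,0,⟨0,[(17,
  0)]⟩,⟨1,[(7,0),(25,0),(10,0),(3,1),(1,0)]⟩⟩ ⟨true,0,⟨0,[]⟩,⟨1,[(34,0),(0,0)]⟩⟩ ⟨false,1,⟨0,[(1,0),
  (15,0)]⟩,⟨13,[(0,11),(4,7),(16,3),(10,5),(0,1),(9,0),(5,0)]⟩⟩,.o ⟨false,1,⟨1,[(17,1),(27,0),(4,
  0)]⟩,⟨0,[(33,0)]⟩⟩,.o ⟨false,0,⟨0,[(35,0)]⟩,⟨0,[(13,0)]⟩⟩,.o ⟨false,0,⟨1,[(34,0),(0,2)]⟩,⟨0,[(1,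
  0)]⟩⟩]⟩) (.Q [0,0,-2,0,1,0,1,0,-1,0,1,-1] (.p true [0,0,1] [0,0,0,0,1] (⟨0,[(37,0)]⟩,⟨0,[(36,
  0)]⟩) .k 2 (⟨0,[(30,0)]⟩,⟨0,[(29,0)]⟩) .k (.r 0 ⟨0,[(8,0),(41,0)]⟩ ⟨16,[(5,8),(16,0),(0,6),(9,14),
  (0,14),(7,4)]⟩)) (.Q [0,-1,-2,0,1,0,1,0,-1,0,1,-1] (.p true [0,0,1] [0,0,0,0,1] (⟨0,[(38,0)]⟩,⟨0,
  [(37,0)]⟩) .k 2 (⟨0,[(31,0)]⟩,⟨0,[(30,0)]⟩) .k (.r 0 ⟨0,[(9,0),(41,0)]⟩ ⟨16,[(6,8),(16,0),(0,6),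
  (9,14),(0,14),(7,4)]⟩)) (.R ⟨0,false,false,true,[1,-1,-1],[1,0,0,0,-1],[1],(⟨0,[(27,0)]⟩,⟨93,[(7,
  5),(17,5),(0,2),(9,5),(2,93),(0,12),(4,26),(0,11),(7,5)]⟩),(⟨0,[(31,0)]⟩,⟨0,[(32,0)]⟩),⟨2,[(5,1),
  (33,0),(0,0),(4,2)]⟩,.k,.k,(.r (-1) ⟨0,[(7,0),(42,0)]⟩ ⟨49,[(8,31),(4,21),(10,13),(0,17),(11,21),
  (8,10),(5,10),(0,1)]⟩),(.r (-1) ⟨1,[(7,1),(28,0),(0,0),(16,1)]⟩ ⟨5,[(8,3),(1,1),(2,1),(23,1),(8,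
  0),(5,6)]⟩),.k,.k,⟨true,0,⟨0,[]⟩,⟨1,[(36,0),(0,0)]⟩⟩,⟨false,1,⟨0,[(1,0)]⟩,⟨0,[(30,0),(6,0)]⟩⟩,
  ⟨false,0,⟨5,[(8,3),(1,1),(2,1),(23,1),(8,0),(5,6)]⟩,⟨1,[(7,1),(28,0),(0,0)]⟩⟩,⟨true,0,⟨6,[(0,6),
  (7,2),(1,3),(2,3),(23,3),(8,1),(5,1),(0,1)]⟩,⟨0,[(30,0),(4,0),(14,0)]⟩⟩,⟨false,0,⟨0,[]⟩,⟨0,[]⟩⟩,
  ⟨false,0,⟨0,[]⟩,⟨0,[]⟩⟩,[.a ⟨true,0,⟨35,[(0,35),(8,2),(1,13),(1,7),(21,10),(1,29),(8,21),(6,25)]⟩,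
  ⟨0,[(30,0)]⟩⟩ ⟨true,0,⟨0,[]⟩,⟨1,[(36,0),(0,0)]⟩⟩ ⟨false,1,⟨0,[(1,0)]⟩,⟨0,[(30,0),(6,0)]⟩⟩,.e
  ⟨false,1,⟨2,[(17,1),(6,0)]⟩,⟨0,[(54,0)]⟩⟩ ⟨false,1,⟨0,[(0,0)]⟩,⟨0,[(30,0),(6,0),(16,0)]⟩⟩,.o
  ⟨false,0,⟨0,[(37,0)]⟩,⟨0,[(15,0)]⟩⟩,.o ⟨false,0,⟨1,[(36,0),(0,2)]⟩,⟨0,[(3,0)]⟩⟩]⟩) (.Q [0,-1,0,0,
  1,0,0,0,-1,0,0,-1] (.p false [0,0,0,0,1] [] (⟨0,[(32,0)]⟩,⟨0,[(31,0)]⟩) .k 0 (⟨0,[]⟩,⟨0,[]⟩) .k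
  .k) (.Q [0,-2,0,0,1,0,0,0,-1,1,0,-1] (.p false [0,0,0,0,1] [1] (⟨0,[(33,0)]⟩,⟨0,[(32,0)]⟩) .k 1
  (⟨0,[]⟩,⟨0,[]⟩) .k .k) (.R ⟨0,false,false,true,[1,-1,-1],[0,0,0,0,1],[1],(⟨0,[(29,0)]⟩,⟨101,[(2,
  2),(6,6),(17,6),(3,2),(6,2),(2,101),(0,17),(3,1),(0,27),(0,13)]⟩),(⟨0,[(34,0)]⟩,⟨0,[(33,0)]⟩),⟨2,
  [(7,1),(33,0),(0,0),(4,2)]⟩,.k,.k,(.r (-1) ⟨0,[(9,0),(42,0)]⟩ ⟨2,[(0,0),(1,0),(7,1),(4,0),(10,0),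
  (0,0)]⟩),(.r (-2) ⟨4,[(2,1),(6,5),(17,0),(3,1),(6,1),(15,2)]⟩ ⟨3,[(0,0),(1,0),(7,2),(1,0),(2,
  0)]⟩),.k,.k,⟨true,1,⟨0,[(54,0)]⟩,⟨0,[(12,0),(24,0),(0,0)]⟩⟩,⟨false,1,⟨1,[(4,0),(11,0),(15,1)]⟩,⟨3,
  [(1,3),(9,0),(1,1),(23,0),(1,1),(8,1),(6,1)]⟩⟩,⟨false,0,⟨2,[(0,0),(1,0),(5,0),(1,1),(1,0),(41,
  1)]⟩,⟨2,[(1,0),(0,0),(6,2),(28,0)]⟩⟩,⟨true,(-1),⟨0,[(2,0),(1,0),(5,0)]⟩,⟨0,[(0,0),(36,0),(14,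
  0)]⟩⟩,⟨false,0,⟨0,[]⟩,⟨0,[]⟩⟩,⟨false,0,⟨0,[]⟩,⟨0,[]⟩⟩,[.a ⟨true,(-1),⟨5,[(2,4),(1,3),(4,0),(1,2),
  (1,3),(18,0),(15,1),(3,0)]⟩,⟨0,[(0,0)]⟩⟩ ⟨true,0,⟨0,[]⟩,⟨2,[(1,0),(0,0),(35,0)]⟩⟩ ⟨false,0,⟨2,[(2,
  1),(1,2),(4,1),(1,0),(0,2),(19,0)]⟩,⟨0,[(0,0),(38,0)]⟩⟩,.o ⟨false,0,⟨1,[(2,1),(1,0),(11,0)]⟩,⟨0,
  [(1,0)]⟩⟩,.o ⟨false,0,⟨0,[(39,0)]⟩,⟨0,[(17,0)]⟩⟩,.o ⟨false,0,⟨0,[(1,0),(0,0)]⟩,⟨0,[(5,0)]⟩⟩]⟩)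
  (.R ⟨2,true,false,false,[0,1],[0,0,0,0,1],[0,1,1],(⟨0,[]⟩,⟨0,[]⟩),(⟨0,[(34,0)]⟩,⟨0,[(33,0)]⟩),⟨0,
  []⟩,.k,.k,.k,(.r (-1) ⟨9,[(2,1),(6,0),(16,4),(0,0),(3,1),(6,1),(15,2)]⟩ ⟨2,[(9,0),(3,0),(32,0),(5,
  0)]⟩),.k,.k,⟨true,0,⟨2,[(1,0),(0,0),(35,0)]⟩,⟨0,[]⟩⟩,⟨false,0,⟨0,[(32,0)]⟩,⟨1,[(3,0),(20,0),(6,
  0)]⟩⟩,⟨false,0,⟨0,[(52,0)]⟩,⟨2,[(19,0),(6,1)]⟩⟩,⟨true,(-1),⟨1,[(0,1),(47,0),(3,1),(1,0)]⟩,⟨51,[(1,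
  12),(1,6),(6,8),(0,8),(3,1),(10,9),(4,31),(16,0),(2,2)]⟩⟩,⟨true,0,⟨6,[(2,0),(28,0),(6,0),(7,2)]⟩,
  ⟨0,[]⟩⟩,⟨false,0,⟨0,[(32,0)]⟩,⟨0,[(1,0)]⟩⟩,[]⟩)) (.Q [0,0,0,0,0,-1,0,0,0,0,0,1] (.ed false [1,-1,
  0,0,1] .k) (.S ⟨1,0,[0,-1,1],[1,1,0,0,-1],[1,0,1,1],(⟨101,[(2,2),(6,6),(17,6),(3,2),(1,101),(4,2),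
  (3,17),(3,1),(0,27),(0,13)]⟩,⟨0,[(0,0)]⟩),⟨0,[(33,0)]⟩,(.r (-1) ⟨9,[(2,1),(6,0),(16,4),(0,0),(3,
  1),(6,1),(15,2)]⟩ ⟨2,[(9,0),(3,0),(32,0),(5,0)]⟩),.k,⟨false,0,⟨0,[]⟩,⟨9,[(2,0),(6,2),(17,2),(3,0),
  (6,0),(15,3)]⟩⟩,⟨true,0,⟨0,[(52,0)]⟩,⟨1,[(11,0),(24,0)]⟩⟩,⟨true,0,⟨1,[(11,0),(24,0)]⟩,⟨0,[(52,
  0)]⟩⟩,⟨false,1,⟨9,[(2,0),(6,2),(17,2),(3,0),(6,0),(15,3)]⟩,⟨0,[]⟩⟩,[.a ⟨true,1,⟨3,[(3,0),(20,0),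
  (6,2),(16,1),(5,1),(0,1)]⟩,⟨0,[(1,0)]⟩⟩ ⟨true,0,⟨18,[(8,7),(1,2),(0,2),(3,1),(23,6),(8,4)]⟩,⟨0,
  [(52,0)]⟩⟩ ⟨false,1,⟨9,[(2,0),(6,2),(17,2),(3,0),(6,0),(15,3)]⟩,⟨2,[(9,0),(0,0),(35,0)]⟩⟩,.e
  ⟨false,1,⟨2,[(19,0),(6,1)]⟩,⟨2,[(9,0),(3,0),(32,0),(5,0)]⟩⟩ ⟨false,1,⟨0,[(54,0)]⟩,⟨0,[(46,0)]⟩⟩,
  .o ⟨false,1,⟨1,[(3,0),(20,0),(6,0)]⟩,⟨5,[(1,3),(0,1),(35,1),(10,2),(4,2)]⟩⟩,.o ⟨false,1,⟨0,[(31,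
  0)]⟩,⟨1,[(1,1),(47,0),(4,0)]⟩⟩]⟩) (.R ⟨0,false,false,false,[0,0,0,0,1],[1,-1,0,0,1],[1,1],(⟨0,
  [(34,0)]⟩,⟨0,[(33,0)]⟩),(⟨0,[(34,0),(9,0)]⟩,⟨0,[(0,0)]⟩),⟨0,[(0,0)]⟩,.k,(.r 0 ⟨2,[(9,0),(3,0),(32,
  0),(5,0)]⟩ ⟨9,[(2,1),(6,0),(16,4),(0,0),(3,1),(6,1),(15,2)]⟩),(.r 0 ⟨2,[(9,0),(3,0),(32,0),(5,
  0)]⟩ ⟨9,[(2,1),(6,0),(16,4),(0,0),(3,1),(6,1),(15,2)]⟩),.k,.k,.k,⟨true,0,⟨18,[(8,7),(1,2),(0,2),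
  (3,1),(23,6),(8,4)]⟩,⟨0,[(52,0)]⟩⟩,⟨false,0,⟨43,[(2,2),(6,8),(17,8),(3,2),(6,2),(3,7),(1,7),(3,
  17),(7,5)]⟩,⟨12,[(9,1),(6,4),(10,1),(18,0),(2,3)]⟩⟩,⟨true,0,⟨0,[]⟩,⟨6,[(2,0),(28,0),(6,0),(7,
  2)]⟩⟩,⟨false,0,⟨1,[(48,0),(3,1),(1,0)]⟩,⟨37,[(4,0),(6,1),(4,4),(8,1),(0,15),(19,5),(2,15)]⟩⟩,
  ⟨false,0,⟨0,[]⟩,⟨0,[]⟩⟩,⟨false,0,⟨0,[]⟩,⟨0,[]⟩⟩,[.o ⟨false,(-1),⟨0,[(1,0),(50,0)]⟩,⟨21,[(3,1),(4,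
  3),(1,5),(0,5),(19,19),(17,8),(4,14)]⟩⟩,.a ⟨true,(-1),⟨1,[(1,1),(46,0),(3,1),(1,0)]⟩,⟨57,[(3,5),
  (4,9),(1,15),(0,15),(19,51),(16,4),(5,10),(0,1)]⟩⟩ ⟨true,0,⟨0,[]⟩,⟨1,[(38,0),(0,0)]⟩⟩ ⟨false,0,
  ⟨32,[(9,12),(4,6),(7,5),(5,2),(13,3),(1,3),(3,12),(3,6)]⟩,⟨37,[(4,0),(6,1),(4,4),(8,1),(0,15),(19,
  5),(2,15)]⟩⟩,.o ⟨false,0,⟨1,[(1,1),(47,0),(4,0)]⟩,⟨0,[(31,0)]⟩⟩,.o ⟨false,0,⟨5,[(1,3),(0,1),(35,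
  1),(10,2),(4,2)]⟩,⟨1,[(3,0),(20,0),(6,0)]⟩⟩]⟩)))) (.Q [0,0,0,0,0,0,0,0,0,0,1,-1] (.ed true [1,0,
  -1,0,1] (.r (-1) ⟨16,[(6,8),(16,0),(0,6),(9,14),(0,14),(7,4)]⟩ ⟨0,[(9,0),(41,0)]⟩)) (.Q [0,0,0,0,
  0,1,0,0,0,0,0,-1] (.ed true [1,-1,0,0,1] .k) (.Q [0,0,0,1,1,0,0,0,-1,0,0,-1] (.p false [0,0,0,0,
  1] [] (⟨0,[(33,0)]⟩,⟨0,[(32,0)]⟩) .k 0 (⟨0,[]⟩,⟨0,[]⟩) .k .k) (.R ⟨0,false,false,false,[1,-1,-1],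
  [1,-1,0,0,1],[1,1],(⟨0,[(29,0)]⟩,⟨93,[(9,5),(17,5),(0,2),(9,5),(2,93),(0,12),(4,26),(0,11),(7,
  5)]⟩),(⟨0,[(34,0),(9,0)]⟩,⟨0,[(1,0)]⟩),⟨2,[(7,1),(33,0),(0,0),(4,2)]⟩,.k,(.r 0 ⟨2,[(9,0),(3,0),
  (32,0),(5,0)]⟩ ⟨5,[(9,0),(16,2),(0,0),(10,1),(0,1),(14,0)]⟩),(.r (-1) ⟨0,[(9,0),(42,0)]⟩ ⟨49,[(10,
  31),(4,21),(10,13),(0,17),(11,21),(8,10),(5,10),(0,1)]⟩),.k,.k,.k,⟨true,0,⟨25,[(0,6),(2,6),(4,7),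
  (1,2),(0,2),(3,1),(32,4)]⟩,⟨0,[(52,0)]⟩⟩,⟨false,0,⟨13,[(3,7),(0,10),(2,0),(1,3),(0,3),(18,0),(2,
  5),(9,2),(5,4),(5,1)]⟩,⟨0,[(24,0),(6,0)]⟩⟩,⟨true,(-1),⟨5,[(10,3),(1,1),(2,1),(23,1),(8,0),(5,0)]⟩,
  ⟨1,[(9,1),(28,0),(0,0)]⟩⟩,⟨false,(-1),⟨1,[(3,1),(0,1),(5,1),(37,0),(3,1),(1,0)]⟩,⟨0,[(31,0),(5,0),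
  (16,0)]⟩⟩,⟨false,0,⟨0,[]⟩,⟨0,[]⟩⟩,⟨false,0,⟨0,[]⟩,⟨0,[]⟩⟩,[.o ⟨false,(-1),⟨2,[(3,2),(0,1),(4,0),
  (3,1),(23,0),(10,0)]⟩,⟨1,[(0,1),(48,0),(4,0)]⟩⟩,.a ⟨true,(-1),⟨4,[(3,4),(0,2),(4,1),(0,2),(0,0),
  (36,3),(3,7),(1,1)]⟩,⟨0,[(0,0)]⟩⟩ ⟨true,0,⟨0,[]⟩,⟨1,[(38,0),(0,0)]⟩⟩ ⟨false,0,⟨9,[(3,9),(0,9),(4,
  7),(0,3),(2,3),(5,1),(28,4),(5,2)]⟩,⟨0,[(0,0),(38,0)]⟩⟩,.o ⟨false,0,⟨0,[(39,0)]⟩,⟨0,[(17,0)]⟩⟩,.o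
  ⟨false,0,⟨1,[(38,0),(0,2)]⟩,⟨0,[(5,0)]⟩⟩]⟩) (.R ⟨2,true,false,false,[0,1],[0,0,0,0,1],[1,0,1,1],
  (⟨0,[]⟩,⟨0,[]⟩),(⟨0,[(34,0)]⟩,⟨0,[(33,0)]⟩),⟨0,[]⟩,.k,.k,.k,(.r (-1) ⟨5,[(9,0),(16,2),(0,0),(10,
  1),(0,1),(14,0)]⟩ ⟨2,[(9,0),(3,0),(32,0),(5,0)]⟩),.k,.k,⟨false,1,⟨2,[(19,0),(6,1)]⟩,⟨2,[(9,0),(3,
  0),(32,0),(5,0)]⟩⟩,⟨true,(-1),⟨24,[(0,19),(2,4),(4,7),(1,3),(0,3),(26,0),(9,3),(6,5)]⟩,⟨0,[(31,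
  0)]⟩⟩,⟨true,0,⟨0,[]⟩,⟨0,[(56,0)]⟩⟩,⟨false,(-1),⟨0,[(0,0)]⟩,⟨2,[(19,0),(6,1),(4,2)]⟩⟩,⟨false,1,⟨2,
  [(19,0),(6,1)]⟩,⟨0,[(52,0)]⟩⟩,⟨true,(-1),⟨35,[(0,26),(3,0),(5,6),(0,6),(3,4),(16,8),(13,7),(1,2),
  (2,0)]⟩,⟨0,[(31,0)]⟩⟩,[]⟩)) (.Q [0,-1,0,1,1,0,0,0,-1,1,0,-1] (.p false [0,0,0,0,1] [1] (⟨0,[(33,
  0)]⟩,⟨0,[(32,0)]⟩) .k 1 (⟨0,[]⟩,⟨0,[]⟩) .k .k) (.Q [0,-1,0,0,1,0,1,1,-1,0,1,-1] (.p false [1,0,-1,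
  0,1] [1] (⟨0,[(34,0),(5,0)]⟩,⟨0,[(2,0)]⟩) .k 1 (⟨0,[]⟩,⟨0,[]⟩) .k (.r (-1) ⟨16,[(9,8),(16,0),(0,
  6),(9,14),(0,14),(7,4)]⟩ ⟨0,[(12,0),(41,0)]⟩)) (.R ⟨0,false,false,true,[1,-1,-1],[1,0,-1,0,1],[0,
  2,1,0,0,0,0,-1],(⟨0,[(30,0)]⟩,⟨93,[(10,5),(17,5),(0,2),(9,5),(2,93),(0,12),(4,26),(0,11),(7,5)]⟩),
  (⟨0,[(35,0),(5,0)]⟩,⟨0,[(3,0)]⟩),⟨2,[(8,1),(33,0),(0,0),(4,2)]⟩,.k,.k,(.r (-1) ⟨0,[(10,0),(42,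
  0)]⟩ ⟨13,[(1,4),(2,4),(6,7),(4,4),(10,1),(0,5)]⟩),(.r (-1) ⟨4,[(10,0),(9,1),(7,0),(24,2),(1,0)]⟩
  ⟨31,[(12,0),(3,9),(9,9),(0,4),(10,8),(8,2),(1,4),(7,0)]⟩),.k,.k,⟨true,0,⟨1,[(39,0),(0,0)]⟩,⟨0,
  []⟩⟩,⟨false,0,⟨12,[(4,12),(0,7),(4,8),(0,11),(0,2),(7,8),(28,3),(5,2)]⟩,⟨1,[(32,1),(6,0),(0,0)]⟩⟩,
  ⟨true,(-1),⟨35,[(12,14),(1,21),(1,27),(21,6),(1,5),(8,13),(6,9)]⟩,⟨0,[(20,0)]⟩⟩,⟨false,(-1),⟨4,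
  [(4,4),(0,3),(4,0),(0,3),(0,2),(36,1),(3,3),(1,0)]⟩,⟨0,[(32,0),(20,0),(1,0)]⟩⟩,⟨false,0,⟨0,[]⟩,⟨0,
  []⟩⟩,⟨false,0,⟨0,[]⟩,⟨0,[]⟩⟩,[.o ⟨false,(-1),⟨5,[(4,5),(0,3),(4,1),(1,2),(1,3),(23,4),(10,1)]⟩,⟨1,
  [(0,1),(49,0),(4,0)]⟩⟩,.a ⟨true,(-1),⟨9,[(4,9),(0,3),(4,5),(0,3),(0,7),(36,6),(3,13),(1,0)]⟩,⟨0,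
  [(0,0)]⟩⟩ ⟨true,0,⟨0,[(38,0),(0,0)]⟩,⟨0,[(13,0),(41,0)]⟩⟩ ⟨false,0,⟨2,[(4,2),(0,1),(4,3),(0,1),(0,
  0),(36,0)]⟩,⟨0,[(0,0),(39,0)]⟩⟩,.o ⟨false,0,⟨0,[(40,0)]⟩,⟨0,[(18,0)]⟩⟩,.o ⟨false,0,⟨1,[(39,0),(0,
  2)]⟩,⟨0,[(6,0)]⟩⟩]⟩) (.S ⟨1,0,[0,-1,0,-1],[1,0,0,0,-1],[1],(⟨0,[(34,0)]⟩,⟨0,[(35,0)]⟩),⟨0,[(3,0),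
  (26,0)]⟩,.k,(.r (-1) ⟨4,[(10,0),(9,1),(7,0),(24,2),(1,0)]⟩ ⟨31,[(12,0),(3,9),(9,9),(0,4),(10,8),
  (8,2),(1,4),(7,0)]⟩),⟨false,0,⟨0,[]⟩,⟨5,[(10,1),(17,1),(10,0),(0,0),(14,1)]⟩⟩,⟨true,0,⟨0,[(53,
  0)]⟩,⟨1,[(12,0),(24,0)]⟩⟩,⟨true,0,⟨1,[(12,0),(24,0)]⟩,⟨0,[(53,0)]⟩⟩,⟨false,1,⟨5,[(10,1),(17,1),
  (10,0),(0,0),(14,1)]⟩,⟨0,[]⟩⟩,[.a ⟨true,1,⟨1,[(32,1),(16,0),(3,1),(1,0)]⟩,⟨51,[(0,35),(4,10),(2,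
  0),(2,35),(15,7),(2,0),(2,15),(5,13),(3,2),(5,4),(5,5)]⟩⟩ ⟨true,0,⟨0,[]⟩,⟨1,[(39,0),(0,0)]⟩⟩
  ⟨false,1,⟨4,[(10,0),(9,1),(7,0),(24,2),(1,0)]⟩,⟨1,[(12,0),(24,0)]⟩⟩,.o ⟨false,2,⟨0,[(32,0),(20,0),
  (1,0)]⟩,⟨21,[(0,16),(4,3),(5,11),(0,2),(3,3),(4,7),(11,4),(16,2)]⟩⟩,.o ⟨false,1,⟨0,[(32,0)]⟩,⟨1,
  [(4,1),(0,0),(11,0)]⟩⟩,.o ⟨false,1,⟨1,[(32,1),(6,0),(0,0)]⟩,⟨1,[(0,0),(3,0),(0,0),(7,0),(3,0),(37,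
  0)]⟩⟩]⟩)) (.S ⟨1,0,[0,-1,0,-1],[1,0,0,0,-1],[1],(⟨0,[(33,0)]⟩,⟨0,[(34,0)]⟩),⟨0,[(2,0),(26,0)]⟩,.k,
  (.r (-1) ⟨4,[(9,0),(9,1),(7,0),(24,2),(1,0)]⟩ ⟨31,[(11,0),(3,9),(9,9),(0,4),(10,8),(8,2),(1,4),(7,
  0)]⟩),⟨false,0,⟨0,[]⟩,⟨5,[(9,1),(17,1),(10,0),(0,0),(14,1)]⟩⟩,⟨true,0,⟨0,[(52,0)]⟩,⟨1,[(11,0),(24,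
  0)]⟩⟩,⟨true,0,⟨1,[(11,0),(24,0)]⟩,⟨0,[(52,0)]⟩⟩,⟨false,1,⟨5,[(9,1),(17,1),(10,0),(0,0),(14,1)]⟩,
  ⟨0,[]⟩⟩,[.a ⟨true,1,⟨1,[(31,1),(16,0),(3,1),(1,0)]⟩,⟨139,[(0,45),(2,61),(0,61),(2,13),(2,61),(0,
  61),(17,13),(2,31),(9,41),(5,46),(5,14)]⟩⟩ ⟨true,0,⟨0,[]⟩,⟨1,[(38,0),(0,0)]⟩⟩ ⟨false,1,⟨4,[(9,0),
  (9,1),(7,0),(24,2),(1,0)]⟩,⟨1,[(11,0),(24,0)]⟩⟩,.o ⟨false,2,⟨0,[(31,0),(20,0),(1,0)]⟩,⟨46,[(0,30),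
  (3,6),(5,22),(0,22),(3,8),(16,15),(13,3)]⟩⟩,.o ⟨false,1,⟨0,[(31,0)]⟩,⟨4,[(0,3),(15,0),(9,1),(5,0),
  (21,0)]⟩⟩,.o ⟨false,1,⟨1,[(31,1),(6,0),(0,0)]⟩,⟨7,[(0,5),(3,0),(5,1),(0,1),(4,2),(15,1),(15,0),(5,
  4)]⟩⟩]⟩))) (.Q [0,1,0,1,-1,0,2,2,1,-2,2,1] (.p true [0,0,1] [2,0,-1,0,-1] (⟨0,[(39,0)]⟩,⟨0,[(38,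
  0)]⟩) .k 2 (⟨0,[(31,0),(6,0)]⟩,⟨2,[(0,1),(4,4),(26,0),(7,0),(4,2)]⟩) .k (.r 1 ⟨2,[(10,3),(1,0),
  (12,0)]⟩ ⟨7,[(7,5),(1,0),(14,1),(10,8),(0,9),(15,7)]⟩)) (.R ⟨0,false,false,false,[1,-1,-1],[-1,0,
  1,0,1],[1,1,0,0,0,0,0,1],(⟨0,[(28,0)]⟩,⟨93,[(8,5),(17,5),(0,2),(9,5),(2,93),(0,12),(4,26),(0,11),
  (7,5)]⟩),(⟨2,[(1,1),(4,4),(26,0),(7,0),(4,2)]⟩,⟨0,[(32,0),(6,0)]⟩),⟨2,[(6,1),(33,0),(0,0),(4,2)]⟩,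
  .k,.k,(.r (-1) ⟨0,[(8,0),(42,0)]⟩ ⟨49,[(9,31),(4,21),(10,13),(0,17),(11,21),(8,10),(5,10),(0,
  1)]⟩),(.r (-2) ⟨0,[(8,0),(27,0),(0,0),(15,0)]⟩ ⟨11,[(9,3),(1,13),(2,1),(11,5),(11,1),(8,0),(5,
  0)]⟩),.k,.k,⟨true,0,⟨0,[]⟩,⟨1,[(37,0),(0,0)]⟩⟩,⟨false,1,⟨1,[(2,1),(0,2),(11,0)]⟩,⟨2,[(10,0),(1,0),
  (10,4),(6,2),(16,2),(3,0),(1,0),(0,2)]⟩⟩,⟨false,(-1),⟨5,[(9,3),(1,7),(2,1),(23,1),(8,0),(5,6)]⟩,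
  ⟨0,[(8,0),(27,0),(0,0),(15,0)]⟩⟩,⟨true,(-1),⟨0,[(0,0)]⟩,⟨1,[(10,0),(19,1),(5,2),(10,1),(3,3),(1,
  1)]⟩⟩,⟨false,0,⟨0,[]⟩,⟨0,[]⟩⟩,⟨false,0,⟨0,[]⟩,⟨0,[]⟩⟩,[.a ⟨true,(-1),⟨5,[(0,2),(1,2),(0,1),(4,0),
  (3,1),(23,0),(10,0)]⟩,⟨0,[(10,0),(19,0),(16,0),(3,1),(1,0)]⟩⟩ ⟨true,(-1),⟨0,[(11,0)]⟩,⟨0,[(36,0),
  (0,0),(15,0)]⟩⟩ ⟨false,0,⟨0,[(0,0),(7,0)]⟩,⟨0,[(23,0),(6,0),(5,0),(10,0),(5,0),(0,0)]⟩⟩,.o ⟨false,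
  0,⟨7,[(0,3),(1,3),(0,1),(14,1),(29,2),(2,1),(1,0)]⟩,⟨1,[(10,0),(19,1),(5,0),(10,0),(3,1),(1,0)]⟩⟩,
  .o ⟨false,0,⟨0,[(38,0)]⟩,⟨0,[(16,0)]⟩⟩,.o ⟨false,0,⟨1,[(37,0),(0,2)]⟩,⟨0,[(4,0)]⟩⟩]⟩) (.S ⟨1,0,[0,
  2,0,-1],[0,0,0,0,1],[1,1],(⟨0,[(33,0)]⟩,⟨0,[(32,0)]⟩),⟨1,[(1,0),(4,0),(26,0)]⟩,.k,(.r 0 ⟨2,[(8,0),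
  (3,0),(32,0),(5,0)]⟩ ⟨37,[(0,5),(1,0),(4,10),(6,0),(10,9),(0,11),(4,4),(5,0)]⟩),⟨true,0,⟨0,[]⟩,
  ⟨15,[(0,0),(1,0),(11,1),(6,0),(13,0),(2,0),(6,6)]⟩⟩,⟨false,0,⟨0,[(51,0)]⟩,⟨2,[(18,0),(6,1)]⟩⟩,
  ⟨false,1,⟨2,[(18,0),(6,1)]⟩,⟨0,[(51,0)]⟩⟩,⟨true,0,⟨15,[(0,0),(1,0),(11,1),(6,0),(13,0),(2,0),(6,
  6)]⟩,⟨0,[]⟩⟩,[.o ⟨false,(-1),⟨0,[(2,0),(0,0),(8,0),(23,0)]⟩,⟨17,[(0,1),(2,1),(3,3),(1,7),(0,3),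
  (19,15),(16,0),(5,20)]⟩⟩,.a ⟨true,(-1),⟨2,[(2,2),(0,1),(4,0),(3,1),(23,0),(10,0)]⟩,⟨139,[(0,57),
  (2,32),(2,8),(0,49),(1,115),(15,15),(2,8),(1,81),(10,26),(5,48),(5,65)]⟩⟩ ⟨true,0,⟨0,[]⟩,⟨1,[(37,
  0),(0,0)]⟩⟩ ⟨false,0,⟨2,[(8,0),(3,0),(32,0),(5,0)]⟩,⟨2,[(18,0),(6,1)]⟩⟩,.o ⟨false,0,⟨1,[(2,1),(0,
  0),(11,0)]⟩,⟨0,[(30,0)]⟩⟩,.o ⟨false,0,⟨2,[(2,1),(2,0),(25,0),(16,0)]⟩,⟨3,[(0,1),(2,1),(5,1),(1,1),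
  (18,1),(17,0),(4,0)]⟩⟩]⟩))))) (.K ⟨0,[1,-1,-1],(-1),0,(⟨0,[(24,0)]⟩,⟨112,[(0,2),(3,8),(17,8),(10,
  2),(2,112),(0,13),(4,32),(0,14),(7,8)]⟩),.k,(.r (-1) ⟨0,[(4,0),(42,0)]⟩ ⟨16,[(0,4),(4,8),(4,4),
  (10,5),(0,7)]⟩),.k,(.r (-2) ⟨2,[(0,0),(3,5),(5,0),(10,0),(11,1),(0,1)]⟩ ⟨6,[(0,1),(2,1),(1,3),(1,
  8),(14,0),(26,4)]⟩),.k,[⟨0,[(1,0)]⟩,⟨0,[(0,0)]⟩,⟨39,[(1,8),(3,18),(0,2),(3,0),(4,23),(5,6),(22,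
  2)]⟩,⟨0,[(0,0),(3,0),(46,0)]⟩]⟩)))) (.Q [0,0,0,0,0,2,0,0,0,0,-1] (.p false [0,0,1] [] (⟨0,[(33,
  0)]⟩,⟨0,[(32,0)]⟩) .k 0 (⟨0,[]⟩,⟨0,[]⟩) .k .k) (.R ⟨0,false,false,false,[0,-1,1],[1,-1],[1],(⟨0,
  [(23,0)]⟩,⟨57,[(0,26),(1,5),(17,5),(0,2),(9,5),(1,30),(1,3),(5,11),(7,5)]⟩),(⟨0,[(37,0)]⟩,⟨0,[(38,
  0)]⟩),⟨0,[(0,0)]⟩,.k,.k,(.r 0 ⟨0,[(6,0),(5,0)]⟩ ⟨0,[(19,0),(10,0),(0,0)]⟩),.k,.k,.k,⟨true,0,⟨4,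
  [(3,0),(0,0),(3,1),(23,0),(8,0),(5,1)]⟩,⟨0,[(45,0)]⟩⟩,⟨false,0,⟨0,[(28,0)]⟩,⟨27,[(2,7),(5,11),(1,
  9),(4,5),(4,1),(21,2),(4,4)]⟩⟩,⟨false,1,⟨1,[(4,0),(25,0),(0,1),(15,1)]⟩,⟨0,[(7,0)]⟩⟩,⟨true,0,⟨1,
  [(4,0),(25,0),(10,0),(3,1),(1,0)]⟩,⟨0,[(13,0)]⟩⟩,⟨false,0,⟨0,[]⟩,⟨0,[]⟩⟩,⟨false,0,⟨0,[]⟩,⟨0,[]⟩⟩,
  [.o ⟨false,0,⟨0,[(45,0)]⟩,⟨21,[(4,0),(4,2),(3,0),(5,9),(19,3),(2,8)]⟩⟩,.a ⟨true,0,⟨1,[(41,0),(3,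
  1),(1,0)]⟩,⟨0,[(44,0)]⟩⟩ ⟨false,1,⟨2,[(12,1),(6,0)]⟩,⟨0,[(49,0)]⟩⟩ ⟨true,0,⟨0,[(1,0),(45,0)]⟩,⟨0,
  [(8,0)]⟩⟩,.a ⟨true,0,⟨0,[(31,0)]⟩,⟨0,[(28,0)]⟩⟩ ⟨true,0,⟨0,[]⟩,⟨0,[(49,0)]⟩⟩ ⟨false,0,⟨0,[(1,0),
  (45,0)]⟩,⟨5,[(2,0),(5,3),(1,1),(8,0),(0,0),(26,0)]⟩⟩,.a ⟨true,0,⟨1,[(31,2),(0,0)]⟩,⟨6,[(1,2),(1,
  1),(0,1),(7,3),(15,1),(12,0),(1,0),(3,1)]⟩⟩ ⟨false,1,⟨2,[(12,1),(6,0)]⟩,⟨1,[(31,0),(0,0)]⟩⟩ ⟨true,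
  0,⟨1,[(1,0),(10,0),(15,0)]⟩,⟨0,[(8,0)]⟩⟩]⟩) (.Q [0,0,1,0,-1,0,-2,0,0,1,-2] (.p false [0,0,1] [1,0,
  -1] (⟨0,[(34,0)]⟩,⟨0,[(33,0)]⟩) .k 2 (⟨0,[(33,0)]⟩,⟨0,[(34,0)]⟩) .k (.r 1 ⟨0,[(5,1),(41,0)]⟩ ⟨2,
  [(2,3),(16,1),(10,1),(0,3),(0,1)]⟩)) (.R ⟨0,false,false,false,[1,-1,-1],[0,-1,1],[0,1,-1,-2,0,0,0,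
  -1],(⟨0,[(23,0)]⟩,⟨93,[(3,5),(17,5),(0,2),(9,5),(2,93),(0,12),(4,26),(0,11),(7,5)]⟩),(⟨0,[(24,
  0)]⟩,⟨93,[(3,5),(17,5),(0,2),(9,5),(1,93),(1,12),(4,26),(0,11),(7,5)]⟩),⟨2,[(1,1),(33,0),(0,0),(4,
  2)]⟩,.k,.k,(.r (-1) ⟨0,[(3,0),(42,0)]⟩ ⟨11,[(0,4),(3,3),(4,4),(5,4),(4,5),(0,2)]⟩),.k,.k,.k,
  ⟨false,1,⟨0,[(3,0),(27,0),(0,0)]⟩,⟨2,[(4,2),(1,0),(1,0),(12,0),(26,2)]⟩⟩,⟨true,1,⟨0,[(11,0),(20,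
  0)]⟩,⟨0,[(0,0)]⟩⟩,⟨false,0,⟨0,[(46,0)]⟩,⟨2,[(13,0),(6,1)]⟩⟩,⟨true,0,⟨0,[(6,1),(4,0),(20,0),(15,
  0)]⟩,⟨3,[(0,1),(2,1),(1,0),(25,4),(0,1),(9,0),(5,0)]⟩⟩,⟨false,0,⟨0,[]⟩,⟨0,[]⟩⟩,⟨false,0,⟨0,[]⟩,⟨0,
  []⟩⟩,[.e ⟨false,1,⟨0,[(3,0),(42,0),(3,0)]⟩,⟨7,[(0,0),(3,8),(0,0),(3,2),(10,0),(21,0),(5,9)]⟩⟩
  ⟨false,1,⟨0,[(6,0),(4,0),(1,0),(18,0)]⟩,⟨21,[(0,11),(2,1),(1,1),(14,9),(10,17),(10,4),(5,4),(0,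
  3)]⟩⟩,.o ⟨false,1,⟨1,[(16,1),(26,0),(4,0)]⟩,⟨0,[(17,0)]⟩⟩,.o ⟨false,0,⟨0,[(33,0)]⟩,⟨0,[(11,0)]⟩⟩,
  .a ⟨true,(-1),⟨0,[(0,0),(31,0)]⟩,⟨5,[(3,1),(7,3),(3,1),(26,1),(1,1),(2,0),(0,0)]⟩⟩ ⟨false,1,⟨0,
  [(3,0),(42,0)]⟩,⟨8,[(0,3),(3,7),(4,3),(5,0),(4,2),(11,2),(15,8)]⟩⟩ ⟨true,1,⟨0,[(6,0),(4,0),(1,0),
  (18,0)]⟩,⟨1,[(0,1),(4,0),(25,0),(0,1)]⟩⟩]⟩) (.Q [0,0,-1,0,0,0,0,0,1,-1,0,1] (.p true [0,0,0,0,1]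
  [1] (⟨0,[(28,0)]⟩,⟨0,[(27,0)]⟩) .k 1 (⟨0,[]⟩,⟨0,[]⟩) .k .k) (.Q [0,0,0,0,0,-1,0,0,0,1,0,-1] (.ed
  true [0,1,0,0,1] .k) (.S ⟨1,0,[0,-1,0,-1],[1,0,0,0,-1],[1],(⟨0,[(29,0)]⟩,⟨0,[(30,0)]⟩),⟨0,[(0,
  0)]⟩,.k,(.r (-1) ⟨4,[(5,0),(9,1),(7,0),(24,2),(1,0)]⟩ ⟨31,[(7,0),(3,9),(9,9),(0,4),(10,8),(8,2),
  (1,4),(7,0)]⟩),⟨false,0,⟨0,[]⟩,⟨5,[(5,1),(17,1),(10,0),(0,0),(14,1)]⟩⟩,⟨true,0,⟨0,[(48,0)]⟩,⟨1,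
  [(7,0),(24,0)]⟩⟩,⟨true,0,⟨1,[(7,0),(24,0)]⟩,⟨0,[(48,0)]⟩⟩,⟨false,1,⟨5,[(5,1),(17,1),(10,0),(0,0),
  (14,1)]⟩,⟨0,[]⟩⟩,[.a ⟨true,1,⟨1,[(27,1),(16,0),(3,1),(1,0)]⟩,⟨4,[(1,4),(2,0),(1,1),(0,1),(26,2),
  (9,1),(6,2)]⟩⟩ ⟨true,0,⟨0,[]⟩,⟨1,[(34,0),(0,0)]⟩⟩ ⟨false,1,⟨4,[(5,0),(9,1),(7,0),(24,2),(1,0)]⟩,
  ⟨1,[(7,0),(24,0)]⟩⟩,.o ⟨false,2,⟨0,[(27,0),(20,0),(1,0)]⟩,⟨2,[(1,2),(2,1),(1,0),(0,0),(3,1),(22,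
  0)]⟩⟩,.o ⟨false,1,⟨0,[(27,0)]⟩,⟨1,[(1,1),(32,0),(0,0)]⟩⟩,.o ⟨false,1,⟨1,[(27,1),(6,0),(0,0)]⟩,⟨0,
  [(1,0)]⟩⟩]⟩) (.R ⟨0,false,false,false,[1,0,0,0,-1],[2,0,-1,0,-1],[1],(⟨0,[(29,0)]⟩,⟨0,[(30,0)]⟩),
  (⟨0,[(29,0),(6,0)]⟩,⟨1,[(0,1),(2,0),(33,0)]⟩),⟨0,[(0,0)]⟩,.k,.k,(.r (-1) ⟨4,[(5,0),(9,1),(7,0),
  (24,2),(1,0)]⟩ ⟨31,[(7,0),(3,9),(9,9),(0,4),(10,8),(8,2),(1,4),(7,0)]⟩),.k,.k,.k,⟨true,(-1),⟨0,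
  [(8,0)]⟩,⟨0,[(33,0),(0,0),(15,0)]⟩⟩,⟨false,0,⟨0,[(31,0)]⟩,⟨20,[(2,4),(2,5),(5,3),(6,1),(4,3),(10,
  4),(10,5)]⟩⟩,⟨false,0,⟨0,[]⟩,⟨5,[(5,1),(17,1),(10,0),(0,0),(14,1)]⟩⟩,⟨true,0,⟨1,[(7,0),(25,0),(10,
  0),(3,1),(1,0)]⟩,⟨0,[(16,0)]⟩⟩,⟨false,0,⟨0,[]⟩,⟨0,[]⟩⟩,⟨false,0,⟨0,[]⟩,⟨0,[]⟩⟩,[.a ⟨true,1,⟨0,[(7,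
  0),(19,0),(16,0),(3,1),(1,0)]⟩,⟨0,[(1,0),(6,0),(25,0)]⟩⟩ ⟨true,0,⟨0,[]⟩,⟨1,[(34,0),(0,0)]⟩⟩
  ⟨false,1,⟨13,[(5,7),(1,1),(14,1),(1,3),(8,3),(10,4),(5,8)]⟩,⟨0,[(16,0)]⟩⟩,.o ⟨false,2,⟨1,[(27,1),
  (5,1),(10,0),(5,2)]⟩,⟨0,[(1,0),(2,0),(1,0),(27,1),(10,0)]⟩⟩,.o ⟨false,1,⟨0,[(27,0)]⟩,⟨1,[(1,1),
  (32,0),(0,0)]⟩⟩,.o ⟨false,1,⟨1,[(27,1),(6,0),(0,0)]⟩,⟨0,[(1,0)]⟩⟩]⟩)) (.Q [0,0,-2,0,1,0,1,0,0,-1,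
  1] (.p true [0,0,1] [1] (⟨0,[(36,0)]⟩,⟨0,[(35,0)]⟩) .k 1 (⟨0,[]⟩,⟨0,[]⟩) .k .k) (.Q [0,0,2,0,-1,0,
  -2,0,0,1,-2] (.p false [0,0,1] [1,0,-1] (⟨0,[(37,0)]⟩,⟨0,[(36,0)]⟩) .k 2 (⟨0,[(36,0)]⟩,⟨0,[(37,
  0)]⟩) .k (.r 1 ⟨0,[(8,1),(41,0)]⟩ ⟨2,[(5,3),(16,1),(10,1),(0,3),(0,1)]⟩)) (.R ⟨0,false,false,
  false,[1,-1,-1],[0,0,1],[1],(⟨0,[(26,0)]⟩,⟨38,[(2,2),(3,1),(17,1),(4,2),(8,38),(0,5),(3,0),(0,10),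
  (0,3)]⟩),(⟨0,[(38,0)]⟩,⟨0,[(37,0)]⟩),⟨2,[(4,1),(33,0),(0,0),(4,2)]⟩,.k,.k,(.r (-1) ⟨0,[(6,0),(42,
  0)]⟩ ⟨15,[(0,4),(6,6),(4,4),(5,4),(4,7),(0,3)]⟩),(.r (-2) ⟨5,[(6,9),(16,1),(10,1),(0,6),(0,4)]⟩
  ⟨3,[(0,0),(6,2),(1,3),(2,0),(5,0),(32,3)]⟩),.k,.k,⟨false,1,⟨7,[(6,5),(1,0),(14,1),(10,0),(0,1)]⟩,
  ⟨2,[(9,0),(1,0),(12,0)]⟩⟩,⟨true,1,⟨0,[(3,0)]⟩,⟨0,[(0,0)]⟩⟩,⟨false,0,⟨3,[(0,0),(6,2),(4,0),(5,0),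
  (32,3)]⟩,⟨1,[(6,1),(28,0),(0,0)]⟩⟩,⟨true,0,⟨2,[(3,1),(3,1),(1,2),(2,0),(5,0),(32,2)]⟩,⟨1,[(34,3),
  (10,0),(3,1),(1,0)]⟩⟩,⟨false,0,⟨0,[]⟩,⟨0,[]⟩⟩,⟨false,0,⟨0,[]⟩,⟨0,[]⟩⟩,[.a ⟨true,0,⟨0,[(18,0)]⟩,⟨1,
  [(8,0),(25,0),(10,0),(3,1),(1,0)]⟩⟩ ⟨true,0,⟨0,[]⟩,⟨1,[(35,0),(0,0)]⟩⟩ ⟨false,1,⟨0,[(1,0),(16,
  0)]⟩,⟨13,[(0,11),(5,7),(16,3),(10,5),(0,1),(9,0),(5,0)]⟩⟩,.o ⟨false,1,⟨1,[(18,1),(27,0),(4,0)]⟩,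
  ⟨0,[(34,0)]⟩⟩,.o ⟨false,0,⟨0,[(36,0)]⟩,⟨0,[(14,0)]⟩⟩,.o ⟨false,0,⟨1,[(35,0),(0,2)]⟩,⟨0,[(1,
  0)]⟩⟩]⟩) (.Q [0,0,0,1,0,0,1,1,-1,0,1,-1] (.p true [0,0,1] [0,0,0,0,1] (⟨0,[(38,0)]⟩,⟨0,[(37,0)]⟩)
  .k 2 (⟨0,[(31,0)]⟩,⟨0,[(30,0)]⟩) .k (.r 0 ⟨0,[(9,0),(41,0)]⟩ ⟨31,[(2,14),(3,23),(5,14),(10,0),(0,
  6),(4,14),(4,14),(8,4)]⟩)) (.Q [0,0,0,1,0,0,1,1,1,-1,1,1] (.p true [0,0,1] [1,0,0,0,-1] (⟨0,[(39,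
  0)]⟩,⟨0,[(38,0)]⟩) .k 2 (⟨0,[(31,0)]⟩,⟨0,[(32,0)]⟩) .k (.r 1 ⟨1,[(8,0),(2,0)]⟩ ⟨5,[(7,6),(16,2),
  (0,0),(10,4),(0,4),(14,0)]⟩)) (.R ⟨0,false,false,false,[1,-1,-1],[0,0,0,0,1],[1,1],(⟨0,[(28,0)]⟩,
  ⟨38,[(4,2),(3,1),(17,1),(4,2),(8,38),(0,5),(3,0),(0,10),(0,3)]⟩),(⟨0,[(33,0)]⟩,⟨0,[(32,0)]⟩),⟨2,
  [(6,1),(33,0),(0,0),(4,2)]⟩,.k,.k,(.r (-1) ⟨0,[(8,0),(42,0)]⟩ ⟨49,[(9,31),(4,21),(10,13),(0,17),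
  (11,21),(8,10),(5,10),(0,1)]⟩),(.r (-2) ⟨2,[(8,3),(17,0),(10,1),(0,1),(14,0)]⟩ ⟨6,[(9,4),(1,1),(2,
  1),(23,1),(8,0),(5,0),(0,0)]⟩),.k,.k,⟨true,0,⟨0,[]⟩,⟨1,[(37,0),(0,0)]⟩⟩,⟨false,1,⟨0,[(0,0),(7,
  0)]⟩,⟨0,[(4,0),(18,0)]⟩⟩,⟨true,(-1),⟨5,[(9,3),(1,1),(2,1),(23,1),(8,0),(5,0)]⟩,⟨1,[(8,1),(28,0),
  (0,0)]⟩⟩,⟨false,0,⟨0,[(0,0)]⟩,⟨1,[(1,1),(34,3),(10,0),(3,3),(1,2)]⟩⟩,⟨false,0,⟨0,[]⟩,⟨0,[]⟩⟩,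
  ⟨false,0,⟨0,[]⟩,⟨0,[]⟩⟩,[.o ⟨false,0,⟨0,[(0,0),(35,0),(14,0)]⟩,⟨0,[(1,0),(34,0),(14,0),(1,0)]⟩⟩,
  .a ⟨true,0,⟨0,[(31,0)]⟩,⟨1,[(1,1),(34,1),(10,0),(3,1),(1,0)]⟩⟩ ⟨true,0,⟨0,[]⟩,⟨1,[(37,0),(0,0)]⟩⟩
  ⟨false,1,⟨0,[(0,0),(7,0)]⟩,⟨0,[(4,0),(18,0)]⟩⟩,.o ⟨false,0,⟨0,[(38,0)]⟩,⟨0,[(16,0)]⟩⟩,.o ⟨false,0,
  ⟨1,[(37,0),(0,2)]⟩,⟨0,[(3,0)]⟩⟩]⟩) (.R ⟨0,false,false,true,[1,-1,-1],[1,0,0,0,-1],[1],(⟨0,[(28,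
  0)]⟩,⟨38,[(4,2),(3,1),(17,1),(4,2),(8,38),(0,5),(3,0),(0,10),(0,3)]⟩),(⟨0,[(32,0)]⟩,⟨0,[(33,0)]⟩),
  ⟨2,[(6,1),(33,0),(0,0),(4,2)]⟩,.k,.k,(.r (-1) ⟨0,[(8,0),(42,0)]⟩ ⟨49,[(9,31),(4,21),(10,13),(0,
  17),(11,21),(8,10),(5,10),(0,1)]⟩),(.r (-1) ⟨2,[(0,0),(7,2),(5,0),(16,0),(3,0),(2,0),(16,0)]⟩ ⟨5,
  [(9,3),(1,1),(2,1),(23,1),(8,0),(5,6)]⟩),.k,.k,⟨true,0,⟨0,[]⟩,⟨1,[(37,0),(0,0)]⟩⟩,⟨false,1,⟨0,[(1,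
  0),(6,0)]⟩,⟨0,[(31,0),(6,0)]⟩⟩,⟨false,0,⟨5,[(9,3),(1,1),(2,1),(23,1),(8,0),(5,6)]⟩,⟨1,[(8,1),(28,
  0),(0,0)]⟩⟩,⟨true,0,⟨0,[(1,0)]⟩,⟨0,[(31,0),(4,0),(14,0)]⟩⟩,⟨false,0,⟨0,[]⟩,⟨0,[]⟩⟩,⟨false,0,⟨0,
  []⟩,⟨0,[]⟩⟩,[.a ⟨true,0,⟨21,[(0,7),(0,7),(2,5),(36,1),(1,1),(3,2),(4,2)]⟩,⟨0,[(31,0)]⟩⟩ ⟨true,0,
  ⟨0,[]⟩,⟨1,[(37,0),(0,0)]⟩⟩ ⟨false,1,⟨0,[(1,0),(6,0)]⟩,⟨0,[(31,0),(6,0)]⟩⟩,.e ⟨false,1,⟨2,[(18,1),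
  (6,0)]⟩,⟨0,[(55,0)]⟩⟩ ⟨false,1,⟨0,[(0,0),(1,0),(6,0),(43,0)]⟩,⟨0,[(31,0),(6,0),(16,0)]⟩⟩,.o
  ⟨false,0,⟨0,[(38,0)]⟩,⟨0,[(16,0)]⟩⟩,.o ⟨false,0,⟨1,[(37,0),(0,2)]⟩,⟨0,[(3,0)]⟩⟩]⟩)) (.Q [0,0,0,0,
  0,-1,0,0,0,0,0,1] (.ed false [1,-1,0,0,1] .k) (.Q [0,-2,0,0,1,0,0,0,-1,1,0,-1] (.p false [0,0,0,0,
  1] [1] (⟨0,[(33,0)]⟩,⟨0,[(32,0)]⟩) .k 1 (⟨0,[]⟩,⟨0,[]⟩) .k .k) (.R ⟨0,false,false,true,[1,-1,-1],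
  [0,0,0,0,1],[1],(⟨0,[(29,0)]⟩,⟨144,[(2,5),(2,5),(3,6),(16,2),(0,6),(8,5),(4,144),(0,24),(3,1),(0,
  39),(0,16)]⟩),(⟨0,[(34,0)]⟩,⟨0,[(33,0)]⟩),⟨2,[(7,1),(33,0),(0,0),(4,2)]⟩,.k,.k,(.r (-1) ⟨0,[(9,0),
  (42,0)]⟩ ⟨49,[(10,31),(4,21),(10,13),(0,17),(11,21),(8,10),(5,10),(0,1)]⟩),(.r (-2) ⟨8,[(0,2),(1,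
  6),(3,2),(2,4),(17,2),(3,3),(6,0)]⟩ ⟨6,[(10,4),(1,1),(2,1),(23,1),(8,0),(5,0),(0,0)]⟩),.k,.k,
  ⟨true,1,⟨0,[(54,0)]⟩,⟨0,[(8,0),(6,0)]⟩⟩,⟨false,1,⟨0,[(4,0),(27,0)]⟩,⟨0,[(5,0),(18,0)]⟩⟩,⟨false,0,
  ⟨5,[(10,3),(1,1),(2,1),(23,1),(8,0),(5,6)]⟩,⟨2,[(2,0),(6,1),(21,0),(6,0)]⟩⟩,⟨true,(-1),⟨1,[(2,0),
  (0,0),(6,1),(1,0),(2,0),(16,0)]⟩,⟨0,[(0,0),(36,0),(14,0)]⟩⟩,⟨false,0,⟨0,[]⟩,⟨0,[]⟩⟩,⟨false,0,⟨0,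
  []⟩,⟨0,[]⟩⟩,[.a ⟨true,(-1),⟨21,[(2,7),(0,4),(4,17),(1,7),(4,14),(16,13),(5,0),(9,0),(1,2)]⟩,⟨0,
  [(0,0)]⟩⟩ ⟨true,0,⟨0,[]⟩,⟨1,[(38,0),(0,0)]⟩⟩ ⟨false,0,⟨7,[(2,6),(0,6),(6,5),(1,0),(2,0),(16,0),
  (13,3)]⟩,⟨0,[(0,0),(38,0)]⟩⟩,.e ⟨false,1,⟨2,[(19,1),(6,0)]⟩,⟨9,[(2,0),(2,0),(9,0),(20,0),(2,0),(6,
  3)]⟩⟩ ⟨false,0,⟨0,[(2,0),(0,0),(6,0)]⟩,⟨4,[(0,1),(1,0),(2,1),(21,0),(0,0),(2,1),(7,1)]⟩⟩,.o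
  ⟨false,0,⟨0,[(39,0)]⟩,⟨0,[(17,0)]⟩⟩,.o ⟨false,0,⟨1,[(38,0),(0,2)]⟩,⟨0,[(4,0)]⟩⟩]⟩) (.S ⟨1,0,[0,2,
  0,-1],[0,0,0,0,1],[1,1],(⟨0,[(34,0)]⟩,⟨0,[(33,0)]⟩),⟨0,[(1,0)]⟩,.k,(.r 0 ⟨2,[(9,0),(3,0),(32,0),
  (5,0)]⟩ ⟨14,[(2,2),(2,0),(9,0),(10,6),(0,2),(3,1),(6,1),(15,2)]⟩),⟨true,0,⟨0,[]⟩,⟨9,[(2,0),(2,0),
  (9,0),(20,0),(2,0),(6,3)]⟩⟩,⟨false,0,⟨0,[(52,0)]⟩,⟨2,[(19,0),(6,1)]⟩⟩,⟨false,1,⟨2,[(19,0),(6,1)]⟩,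
  ⟨0,[(52,0)]⟩⟩,⟨true,0,⟨9,[(2,0),(2,0),(9,0),(20,0),(2,0),(6,3)]⟩,⟨0,[]⟩⟩,[.o ⟨false,(-1),⟨0,[(0,
  0),(51,0)]⟩,⟨27,[(3,3),(1,5),(4,7),(0,7),(14,1),(4,21),(17,0),(4,34)]⟩⟩,.a ⟨true,(-1),⟨1,[(0,1),
  (47,0),(3,1),(1,0)]⟩,⟨20,[(4,3),(0,10),(4,3),(0,3),(14,1),(4,9),(16,6),(1,4),(3,15)]⟩⟩ ⟨true,0,⟨0,
  []⟩,⟨1,[(38,0),(0,0)]⟩⟩ ⟨false,0,⟨2,[(9,0),(3,0),(32,0),(5,0)]⟩,⟨2,[(19,0),(6,1)]⟩⟩,.o ⟨false,0,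
  ⟨0,[(0,0),(53,0)]⟩,⟨0,[(31,0)]⟩⟩,.o ⟨false,0,⟨1,[(0,0),(1,0),(9,0),(2,0),(38,1)]⟩,⟨0,[(5,0),(10,
  0)]⟩⟩]⟩)) (.Q [0,2,0,0,-1,0,0,0,1,-1,0,1] (.p true [0,0,0,0,1] [1] (⟨0,[(33,0)]⟩,⟨0,[(32,0)]⟩) .k
  1 (⟨0,[]⟩,⟨0,[]⟩) .k .k) (.R ⟨0,false,false,false,[0,0,0,0,1],[1,-1,0,0,1],[1,1],(⟨0,[(34,0)]⟩,⟨0,
  [(33,0)]⟩),(⟨0,[(34,0),(9,0)]⟩,⟨0,[(1,0)]⟩),⟨0,[(1,0)]⟩,.k,(.r 0 ⟨2,[(9,0),(3,0),(32,0),(5,0)]⟩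
  ⟨14,[(2,2),(2,0),(9,0),(10,6),(0,2),(3,1),(6,1),(15,2)]⟩),(.r 0 ⟨2,[(9,0),(3,0),(32,0),(5,0)]⟩
  ⟨14,[(2,2),(2,0),(9,0),(10,6),(0,2),(3,1),(6,1),(15,2)]⟩),.k,.k,.k,⟨true,0,⟨4,[(10,0),(0,0),(3,1),
  (23,0),(8,0),(5,1)]⟩,⟨0,[(52,0)]⟩⟩,⟨false,0,⟨16,[(5,2),(3,2),(17,2),(4,2),(9,1),(1,1),(3,5),(7,
  2)]⟩,⟨12,[(9,1),(6,4),(10,1),(18,0),(2,3)]⟩⟩,⟨true,0,⟨0,[]⟩,⟨9,[(2,0),(2,0),(9,0),(20,0),(2,0),(6,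
  3)]⟩⟩,⟨false,0,⟨1,[(48,0),(3,1),(1,0)]⟩,⟨33,[(6,0),(4,1),(4,4),(8,1),(0,13),(19,4),(2,13)]⟩⟩,
  ⟨false,0,⟨0,[]⟩,⟨0,[]⟩⟩,⟨false,0,⟨0,[]⟩,⟨0,[]⟩⟩,[.o ⟨false,(-1),⟨1,[(0,1),(47,0),(3,1),(1,0)]⟩,
  ⟨27,[(3,3),(1,5),(4,7),(0,7),(14,1),(4,21),(17,14),(4,20)]⟩⟩,.a ⟨true,(-1),⟨1,[(0,1),(7,1),(29,1),
  (9,0),(5,2)]⟩,⟨27,[(3,3),(1,5),(4,7),(0,7),(14,1),(4,21),(17,0),(4,6)]⟩⟩ ⟨true,0,⟨0,[]⟩,⟨1,[(38,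
  0),(0,0)]⟩⟩ ⟨false,0,⟨32,[(9,12),(4,6),(7,5),(5,2),(13,3),(1,3),(3,12),(3,6)]⟩,⟨33,[(6,0),(4,1),
  (4,4),(8,1),(0,13),(19,4),(2,13)]⟩⟩,.o ⟨false,0,⟨0,[(0,0),(53,0)]⟩,⟨0,[(31,0)]⟩⟩,.o ⟨false,0,⟨1,
  [(0,0),(1,0),(9,0),(2,0),(38,1)]⟩,⟨0,[(5,0),(10,0)]⟩⟩]⟩) (.R ⟨0,false,false,false,[1,-1,-1],[0,0,
  1,0,1],[1,1,0,0,0,0,0,1],(⟨0,[(29,0)]⟩,⟨144,[(2,5),(2,5),(3,6),(16,2),(0,6),(8,5),(4,144),(0,24),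
  (3,1),(0,39),(0,16)]⟩),(⟨0,[(34,0),(6,0)]⟩,⟨0,[(1,0),(27,0)]⟩),⟨2,[(7,1),(33,0),(0,0),(4,2)]⟩,.k,
  .k,(.r (-1) ⟨0,[(9,0),(42,0)]⟩ ⟨49,[(10,31),(4,21),(10,13),(0,17),(11,21),(8,10),(5,10),(0,1)]⟩),
  (.r (-2) ⟨0,[(0,0),(1,0),(3,0),(30,0)]⟩ ⟨11,[(10,3),(1,13),(2,1),(11,5),(11,1),(8,0),(5,0)]⟩),.k,
  .k,⟨true,0,⟨0,[]⟩,⟨1,[(38,0),(0,0)]⟩⟩,⟨false,1,⟨0,[(3,0),(28,0)]⟩,⟨0,[(5,0),(18,1)]⟩⟩,⟨false,(-1),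
  ⟨5,[(10,3),(1,7),(2,1),(23,1),(8,0),(5,6)]⟩,⟨0,[(0,0),(1,0),(3,0),(30,0)]⟩⟩,⟨true,(-1),⟨5,[(2,3),
  (0,3),(6,9),(1,5),(19,1),(5,7),(10,0),(4,4)]⟩,⟨0,[(0,0),(36,1),(14,0)]⟩⟩,⟨false,0,⟨0,[]⟩,⟨0,[]⟩⟩,
  ⟨false,0,⟨0,[]⟩,⟨0,[]⟩⟩,[.a ⟨true,(-1),⟨5,[(2,1),(0,1),(6,3),(1,1),(0,1),(18,3),(5,3),(9,0),(5,
  0)]⟩,⟨0,[(0,0),(36,0)]⟩⟩ ⟨true,(-1),⟨0,[(12,0)]⟩,⟨0,[(37,0),(0,0),(15,0)]⟩⟩ ⟨false,0,⟨0,[(3,0),(8,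
  0),(19,0)]⟩,⟨0,[(0,0),(36,0),(1,0)]⟩⟩,.o ⟨false,0,⟨2,[(2,0),(0,0),(6,0),(1,2),(19,1),(5,1),(10,0),
  (4,1)]⟩,⟨1,[(0,1),(7,1),(2,0),(25,0),(0,1),(10,1)]⟩⟩,.o ⟨false,0,⟨0,[(39,0)]⟩,⟨0,[(17,0)]⟩⟩,.o
  ⟨false,0,⟨1,[(38,0),(0,2)]⟩,⟨0,[(4,0)]⟩⟩]⟩))))) (.K ⟨0,[1,-1,-1],(-1),0,(⟨0,[(25,0)]⟩,⟨38,[(1,2),
  (3,1),(17,1),(4,2),(8,38),(0,5),(3,0),(0,10),(0,3)]⟩),.k,(.r (-1) ⟨0,[(5,0),(42,0)]⟩ ⟨16,[(0,4),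
  (5,8),(4,4),(10,5),(0,7)]⟩),.k,(.r (-2) ⟨8,[(0,6),(4,19),(5,6),(10,0),(0,1),(26,1)]⟩ ⟨3,[(0,1),(5,
  3),(1,1),(8,1),(27,0),(4,2)]⟩),.k,[⟨0,[(2,0)]⟩,⟨0,[(0,0)]⟩,⟨39,[(2,8),(3,18),(0,2),(3,0),(4,23),
  (5,6),(22,2)]⟩,⟨0,[(0,0),(4,0),(46,0)]⟩]⟩)))))))))))

theorem ok80 : chk K t80 l50 = true := by decide +kernel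

noncomputable def t81 : Tre :=
  (.R ⟨1,false,false,true,[1,-1],[0,-1,1],[1,1],(⟨0,[(31,0)]⟩,⟨0,[(32,0)]⟩),(⟨0,[(17,0)]⟩,⟨22,[(18,
  2),(0,2),(7,22),(1,4),(4,5),(0,2)]⟩),⟨0,[(16,0),(0,0)]⟩,.k,.k,(.r (-1) ⟨4,[(6,3),(11,0),(0,0),(13,
  1),(5,5)]⟩ ⟨5,[(1,4),(0,1),(2,4),(20,1),(8,0),(5,0),(0,0)]⟩),.k,.k,.k,⟨true,0,⟨0,[(1,0)]⟩,⟨0,[(9,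
  0),(1,0)]⟩⟩,⟨false,1,⟨0,[(4,0)]⟩,⟨16,[(0,2),(13,2),(0,6),(13,0),(1,0),(1,2),(1,2)]⟩⟩,⟨false,0,⟨9,
  [(1,3),(0,1),(2,3),(20,1),(8,0),(5,0)]⟩,⟨3,[(6,1),(11,0),(0,0),(19,1),(1,0)]⟩⟩,⟨true,0,⟨0,[(7,
  0)]⟩,⟨45,[(0,28),(0,5),(8,10),(2,5),(1,2),(13,1),(1,1),(1,11),(1,5)]⟩⟩,⟨false,0,⟨0,[(1,0),(3,0)]⟩,
  ⟨3,[(6,1),(11,0),(0,0),(19,5),(1,0)]⟩⟩,⟨false,1,⟨4,[(3,0),(0,0),(2,2),(0,0),(4,1),(0,0)]⟩,⟨0,[(0,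
  0)]⟩⟩,[.o ⟨false,0,⟨0,[(7,0),(31,0)]⟩,⟨0,[(10,0),(30,0)]⟩⟩,.a ⟨true,0,⟨0,[(9,0)]⟩,⟨0,[(1,0),(20,
  0)]⟩⟩ ⟨true,0,⟨0,[]⟩,⟨1,[(25,0),(0,0)]⟩⟩ ⟨false,1,⟨0,[(3,0),(5,0)]⟩,⟨22,[(0,4),(0,16),(10,0),(0,
  4),(1,7),(8,1),(10,4),(7,6)]⟩⟩,.o ⟨false,0,⟨1,[(25,0),(0,0)]⟩,⟨1,[(36,0),(3,0)]⟩⟩,.o ⟨false,0,⟨0,
  [(25,0),(0,0)]⟩,⟨0,[(3,0)]⟩⟩]⟩)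

theorem ok81 : chk K t81 l51 = true := by decide +kernel

noncomputable def t82 : Tre :=
  (.N [0,-1,1] 0 ⟨0,[(0,0)]⟩ ⟨0,[(2,0)]⟩ .k)

theorem ok82 : chk K t82 l52 = true := by decide +kernel

noncomputable def t83 : Tre :=
  (.R ⟨1,false,false,true,[1,-1],[0,1],[1,1,-1,-1],(⟨0,[(33,0)]⟩,⟨0,[(34,0)]⟩),(⟨0,[(34,0)]⟩,⟨0,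
  [(33,0)]⟩),⟨0,[(18,0),(0,0)]⟩,.k,.k,(.r (-1) ⟨4,[(8,3),(11,0),(0,0),(13,1),(5,5)]⟩ ⟨0,[(0,0),(39,
  0)]⟩),(.r (-1) ⟨4,[(8,3),(11,0),(0,0),(13,1),(5,5)]⟩ ⟨0,[(0,0),(39,0)]⟩),(.r (-1) ⟨2,[(5,1),(2,1),
  (26,0),(1,0),(3,6)]⟩ ⟨1,[(0,2),(39,2)]⟩),.k,⟨false,1,⟨2,[(5,1),(2,1),(26,0),(1,0),(3,3)]⟩,⟨0,[(0,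
  0),(39,0)]⟩⟩,⟨true,1,⟨0,[(5,0)]⟩,⟨0,[(0,0),(2,0),(5,0),(3,0),(23,0),(3,1)]⟩⟩,⟨false,0,⟨0,[]⟩,⟨1,
  [(20,0),(0,0),(21,0)]⟩⟩,⟨false,1,⟨4,[(0,1),(4,0),(9,1),(22,1),(0,3)]⟩,⟨1,[(37,0),(3,3),(1,0)]⟩⟩,
  ⟨true,0,⟨0,[(40,0)]⟩,⟨0,[(41,0)]⟩⟩,⟨false,1,⟨4,[(0,5),(4,2),(9,0),(22,0),(0,6)]⟩,⟨1,[(37,0),(3,5),
  (1,0)]⟩⟩,[.a ⟨true,0,⟨0,[(40,0)]⟩,⟨1,[(37,0),(3,1),(1,0)]⟩⟩ ⟨true,0,⟨1,[(5,0),(3,0),(16,0),(10,0),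
  (3,1)]⟩,⟨0,[(0,0)]⟩⟩ ⟨false,1,⟨0,[(5,0),(34,0)]⟩,⟨1,[(27,0),(0,0),(8,0),(3,1),(1,0)]⟩⟩,.o ⟨false,
  1,⟨6,[(5,0),(9,2),(19,0),(2,2),(1,0)]⟩,⟨0,[(41,0)]⟩⟩,.o ⟨false,0,⟨1,[(27,0),(0,0)]⟩,⟨1,[(38,0),(3,
  0)]⟩⟩,.o ⟨false,0,⟨0,[(27,0),(0,0)]⟩,⟨0,[(5,0)]⟩⟩]⟩)

theorem ok83 : chk K t83 l53 = true := by decide +kernel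

noncomputable def t84 : Tre :=
  (.Q [0,0,0,0,0,2,0,0,0,-1,1] (.p true [0,0,1] [1] (⟨0,[(31,0)]⟩,⟨0,[(30,0)]⟩) .k 1 (⟨0,[]⟩,⟨0,
  []⟩) .k .k) (.R ⟨0,false,false,false,[1,-1,-1],[0,-1,1],[1],(⟨0,[(20,0)]⟩,⟨36,[(0,17),(0,2),(16,
  5),(13,18),(0,0),(5,8),(7,8)]⟩),(⟨0,[(21,0)]⟩,⟨60,[(1,2),(16,5),(12,60),(1,6),(4,17),(0,8),(7,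
  8)]⟩),⟨0,[(0,0)]⟩,.k,.k,(.r (-1) ⟨74,[(1,57),(8,2),(2,35),(4,4),(0,17),(17,32),(2,8)]⟩ ⟨25,[(3,5),
  (2,13),(2,31),(20,13),(8,6),(5,6),(0,3)]⟩),.k,.k,.k,⟨true,0,⟨0,[(5,0)]⟩,⟨0,[(13,0),(1,0)]⟩⟩,
  ⟨false,1,⟨1,[(1,0),(2,0),(0,0),(2,0),(3,1)]⟩,⟨0,[(19,0)]⟩⟩,⟨true,0,⟨7,[(6,1),(2,5),(2,1),(17,3),
  (8,0),(5,0)]⟩,⟨0,[(2,0),(2,0),(37,0)]⟩⟩,⟨false,1,⟨1,[(12,3),(27,0),(4,0)]⟩,⟨10,[(1,3),(1,9),(11,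
  13),(3,0),(6,1),(1,3),(10,3),(3,1)]⟩⟩,⟨false,0,⟨0,[]⟩,⟨0,[]⟩⟩,⟨false,0,⟨0,[]⟩,⟨0,[]⟩⟩,[.a ⟨true,0,
  ⟨0,[(13,0)]⟩,⟨0,[(5,0),(20,0)]⟩⟩ ⟨true,0,⟨0,[]⟩,⟨1,[(29,0),(0,0)]⟩⟩ ⟨false,1,⟨1,[(1,0),(5,0),(3,
  0),(0,2)]⟩,⟨0,[(5,0),(13,0)]⟩⟩,.o ⟨false,1,⟨1,[(13,1),(26,0),(4,0)]⟩,⟨0,[(14,0)]⟩⟩,.o ⟨false,0,⟨0,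
  [(30,0)]⟩,⟨0,[(8,0)]⟩⟩,.o ⟨false,0,⟨1,[(29,0),(0,2)]⟩,⟨0,[(1,0),(2,0),(4,0)]⟩⟩]⟩) (.Q [0,-1,0,-2,
  0,0,-1,-1,0,1,-1] (.p false [0,0,1] [1] (⟨0,[(32,0)]⟩,⟨0,[(31,0)]⟩) .k 1 (⟨0,[]⟩,⟨0,[]⟩) .k .k)
  (.R ⟨1,false,false,true,[1,-1],[0,0,1],[0,1,1],(⟨0,[(36,0)]⟩,⟨0,[(37,0)]⟩),(⟨0,[(33,0)]⟩,⟨0,[(32,
  0)]⟩),⟨1,[(1,0),(20,0),(13,0)]⟩,.k,.k,(.r (-1) ⟨68,[(0,29),(1,1),(8,47),(2,29),(4,3),(18,41),(2,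
  14)]⟩ ⟨4,[(4,1),(1,1),(0,1),(2,3),(20,1),(8,0),(5,0)]⟩),.k,(.r (-1) ⟨68,[(0,17),(1,37),(8,14),(2,
  17),(4,6),(18,38),(2,8)]⟩ ⟨25,[(4,5),(2,13),(2,31),(20,13),(8,6),(5,6),(0,3)]⟩),.k,⟨true,0,⟨0,[(6,
  0),(37,0)]⟩,⟨1,[(10,0),(3,0),(1,0)]⟩⟩,⟨false,1,⟨0,[(2,0),(2,0),(4,0)]⟩,⟨5,[(0,2),(6,0),(9,2),(0,
  0),(1,1),(19,0)]⟩⟩,⟨false,0,⟨25,[(4,5),(2,13),(2,5),(20,13),(8,6),(5,6),(0,3)]⟩,⟨0,[(11,0)]⟩⟩,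
  ⟨true,0,⟨0,[(5,0)]⟩,⟨5,[(0,3),(17,0),(10,1),(8,0),(1,0),(7,0)]⟩⟩,⟨false,0,⟨4,[(4,1),(1,1),(0,1),
  (2,3),(20,1),(8,0),(5,0)]⟩,⟨5,[(0,1),(2,0),(7,4),(2,1),(26,0)]⟩⟩,⟨false,1,⟨2,[(5,1),(2,0),(4,0),
  (4,1)]⟩,⟨0,[(0,0)]⟩⟩,[.o ⟨false,0,⟨0,[(12,0)]⟩,⟨15,[(2,5),(12,3),(2,3),(1,1),(10,7),(9,0),(4,
  4)]⟩⟩,.a ⟨true,0,⟨0,[(13,0)]⟩,⟨30,[(0,2),(1,5),(1,15),(13,0),(1,13),(17,4),(1,6)]⟩⟩ ⟨true,0,⟨1,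
  [(30,0),(0,0)]⟩,⟨0,[]⟩⟩ ⟨false,1,⟨0,[(8,0),(4,0)]⟩,⟨4,[(0,2),(3,0),(1,0),(10,1),(0,0),(10,1),(10,
  0)]⟩⟩,.o ⟨false,0,⟨1,[(30,0),(0,0)]⟩,⟨1,[(41,0),(3,0)]⟩⟩,.o ⟨false,0,⟨0,[(30,0),(0,0)]⟩,⟨0,[(8,
  0)]⟩⟩]⟩) (.Q [0,2,0,0,-1,0,0,0,1,0,0,1] (.p true [0,0,0,0,1] [] (⟨0,[(26,0)]⟩,⟨0,[(25,0)]⟩) .k 0
  (⟨0,[]⟩,⟨0,[]⟩) .k .k) (.Q [0,0,2,0,0,0,1,0,1,-1,1,1] (.p true [0,0,1] [1,0,0,0,-1] (⟨0,[(34,0)]⟩,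
  ⟨0,[(33,0)]⟩) .k 2 (⟨0,[(26,0)]⟩,⟨0,[(27,0)]⟩) .k (.r 0 ⟨1,[(13,0),(7,0),(7,0)]⟩ ⟨3,[(3,1),(15,1),
  (11,0),(0,0)]⟩)) (.Q [0,0,-1,0,0,0,-1,0,-1,1,-1,-1] (.p false [0,0,1] [1,0,0,0,-1] (⟨0,[(35,0)]⟩,
  ⟨0,[(34,0)]⟩) .k 2 (⟨0,[(27,0)]⟩,⟨0,[(28,0)]⟩) .k (.r 0 ⟨1,[(14,0),(7,0),(7,0)]⟩ ⟨23,[(0,3),(3,9),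
  (3,3),(11,7),(1,1),(2,3),(16,0),(5,2)]⟩)) (.Q [0,0,-2,0,0,0,-1,0,0,1,-1] (.p false [0,0,1] [1]
  (⟨0,[(36,0)]⟩,⟨0,[(35,0)]⟩) .k 1 (⟨0,[]⟩,⟨0,[]⟩) .k .k) (.R ⟨0,false,false,true,[0,-1,1],[1,0,0,0,
  -1],[1,1],(⟨0,[(26,0)]⟩,⟨28,[(6,1),(14,2),(1,0),(12,28),(4,10),(1,5),(0,2)]⟩),(⟨0,[(29,0)]⟩,⟨0,
  [(30,0)]⟩),⟨2,[(5,0),(19,1),(12,0),(4,2)]⟩,.k,.k,(.r (-1) ⟨39,[(6,1),(0,4),(7,26),(2,43),(5,21),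
  (17,11),(2,10)]⟩ ⟨9,[(8,1),(1,11),(0,1),(2,3),(20,1),(8,0),(5,0)]⟩),(.r 0 ⟨1,[(7,0),(8,0),(1,0),
  (5,0)]⟩ ⟨17,[(2,3),(3,3),(3,9),(11,7),(1,1),(2,3),(16,0),(5,2)]⟩),.k,.k,⟨false,0,⟨3,[(7,0),(34,0),
  (3,0)]⟩,⟨2,[(6,0),(16,1)]⟩⟩,⟨true,0,⟨0,[(1,0)]⟩,⟨0,[(2,0)]⟩⟩,⟨false,0,⟨0,[(10,0)]⟩,⟨2,[(15,1),(2,
  1),(1,1),(2,0)]⟩⟩,⟨true,0,⟨0,[(1,0),(8,0)]⟩,⟨1,[(3,0),(14,1),(9,0),(16,0)]⟩⟩,⟨false,0,⟨0,[]⟩,⟨0,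
  []⟩⟩,⟨false,0,⟨0,[]⟩,⟨0,[]⟩⟩,[.a ⟨true,0,⟨0,[(1,0),(32,0)]⟩,⟨0,[(28,0)]⟩⟩ ⟨false,0,⟨3,[(7,0),(34,
  0),(3,0)]⟩,⟨2,[(6,0),(16,1)]⟩⟩ ⟨true,0,⟨0,[(1,0)]⟩,⟨0,[(2,0)]⟩⟩,.o ⟨false,1,⟨1,[(1,1),(32,1),(10,
  0),(4,0)]⟩,⟨1,[(3,0),(24,0),(16,0)]⟩⟩,.a ⟨true,0,⟨0,[(34,0)]⟩,⟨0,[(31,0)]⟩⟩ ⟨false,0,⟨0,[]⟩,⟨2,
  [(6,0),(16,1)]⟩⟩ ⟨true,0,⟨0,[(1,0)]⟩,⟨3,[(2,2),(0,0),(9,0),(28,0)]⟩⟩,.a ⟨true,0,⟨1,[(34,2),(0,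
  0)]⟩,⟨0,[(0,0)]⟩⟩ ⟨true,0,⟨3,[(7,0),(34,0),(3,0)]⟩,⟨1,[(34,0),(0,0)]⟩⟩ ⟨false,1,⟨2,[(1,2),(13,1),
  (6,0)]⟩,⟨0,[(2,0)]⟩⟩]⟩) (.I [0,0,0,0,0,-1,-1] (.I [0,0,1,0,0,0,0,0,-1] (.I [0,2,1,0,-1] (.I [0,0,
  2,0,0,-2,1] (.I [0,1,-1,2,0,0,0,1,-1] (.I [5,0,0,0,-1,6] (.C [(0,1),(1,1),(2,5),(4,3),(0,3),(0,1),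
  (36,1),(0,0),(3,3),(1,0)]) (.C [(0,0),(48,1),(0,0)])) (.C [(0,0),(5,0),(2,0),(25,0)])) (.C [(0,0),
  (3,0),(4,0)])) (.C [(0,0),(2,0),(0,0),(1,0)])) (.C [(0,0),(1,0),(0,0),(28,0)])) (.C [(0,0),(20,0),
  (5,0)]))) (.I [1,1,2,2,-1,0,0,2] (.I [0,0,-2,0,1,-2,2,0,1] (.I [0,0,2,0,0,2,-2,0,-1] (.N [0,2,2,0,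
  1] 1 ⟨0,[(2,0)]⟩ ⟨0,[(8,0)]⟩ (.x (-1) ⟨0,[(1,0)]⟩ ⟨0,[(0,0)]⟩)) (.S ⟨1,0,[0,-1,0,-1],[1,0,0,0,-1],
  [1],(⟨0,[(31,0)]⟩,⟨0,[(32,0)]⟩),⟨9,[(0,3),(1,1),(7,1),(1,1),(9,7),(5,7),(0,3),(1,5),(13,1),(0,2),
  (3,7),(1,0)]⟩,.k,(.r (-1) ⟨3,[(8,0),(8,1),(2,0),(4,0),(11,0)]⟩ ⟨7,[(12,0),(0,1),(9,2),(0,0),(10,
  1),(8,0),(1,0)]⟩),⟨false,0,⟨0,[]⟩,⟨2,[(8,0),(16,1)]⟩⟩,⟨true,0,⟨0,[(50,0)]⟩,⟨0,[(49,0)]⟩⟩,⟨true,0,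
  ⟨0,[(49,0)]⟩,⟨0,[(50,0)]⟩⟩,⟨false,1,⟨2,[(8,0),(16,1)]⟩,⟨0,[]⟩⟩,[.a ⟨true,1,⟨1,[(29,1),(16,0),(3,
  1),(1,0)]⟩,⟨152,[(0,89),(1,42),(0,7),(1,54),(4,85),(11,187),(5,179),(3,89),(7,53),(4,101),(0,54),
  (3,18)]⟩⟩ ⟨true,0,⟨0,[]⟩,⟨1,[(36,0),(0,0)]⟩⟩ ⟨false,1,⟨3,[(8,0),(8,1),(2,0),(4,0),(11,0)]⟩,⟨0,
  [(49,0)]⟩⟩,.o ⟨false,2,⟨0,[(29,0),(20,0),(1,0)]⟩,⟨3,[(0,2),(1,2),(2,0),(3,2),(2,5),(9,5),(5,5),(3,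
  2),(12,3),(4,4)]⟩⟩,.o ⟨false,1,⟨0,[(29,0)]⟩,⟨15,[(0,4),(2,9),(18,19),(5,9),(1,0),(1,4),(7,1),(4,
  5)]⟩⟩,.o ⟨false,1,⟨1,[(29,1),(6,0),(0,0)]⟩,⟨7,[(0,4),(2,1),(18,11),(5,9),(1,0),(1,4),(7,1),(4,
  5)]⟩⟩]⟩)) (.Q [0,-1,0,0,1,0,0,0,-1,0,0,-1] (.p false [0,0,0,0,1] [] (⟨0,[(31,0)]⟩,⟨0,[(30,0)]⟩)
  .k 0 (⟨0,[]⟩,⟨0,[]⟩) .k .k) (.Q [0,0,0,0,0,-1,0,0,0,0,0,1] (.ed false [1,-1,0,0,1] .k) (.Q [0,0,0,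
  0,0,0,0,0,-1,1,0,-1] (.p false [0,0,0,0,1] [1] (⟨0,[(33,0)]⟩,⟨0,[(32,0)]⟩) .k 1 (⟨0,[]⟩,⟨0,[]⟩)
  .k .k) (.S ⟨1,0,[0,0,1],[1,1,0,0,-1],[0,-1,1],(⟨0,[(33,0),(8,0)]⟩,⟨0,[(1,0)]⟩),⟨0,[(33,0)]⟩,(.r
  (-1) ⟨47,[(6,11),(3,1),(15,23),(0,3),(0,5),(2,11),(16,2),(5,8)]⟩ ⟨2,[(11,0),(34,0),(5,1)]⟩),.k,
  ⟨true,0,⟨0,[(52,0)]⟩,⟨0,[(51,0)]⟩⟩,⟨false,0,⟨0,[(52,0)]⟩,⟨2,[(19,0),(6,1)]⟩⟩,⟨false,1,⟨2,[(10,0),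
  (16,1)]⟩,⟨0,[]⟩⟩,⟨true,0,⟨0,[(56,0)]⟩,⟨0,[]⟩⟩,[.a ⟨true,0,⟨0,[(0,0)]⟩,⟨0,[(32,0)]⟩⟩ ⟨false,1,⟨2,
  [(10,0),(16,1)]⟩,⟨3,[(11,0),(34,0),(3,0)]⟩⟩ ⟨true,0,⟨2,[(0,0),(5,0),(32,0)]⟩,⟨0,[]⟩⟩,.o ⟨false,1,
  ⟨0,[(2,0)]⟩,⟨1,[(7,0),(24,0),(16,0)]⟩⟩,.o ⟨false,1,⟨1,[(0,0),(15,0),(14,0)]⟩,⟨0,[(5,0),(18,0)]⟩⟩,
  .e ⟨false,1,⟨0,[(54,0)]⟩,⟨0,[(56,0)]⟩⟩ ⟨false,1,⟨2,[(10,0),(16,1)]⟩,⟨0,[]⟩⟩]⟩) (.R ⟨1,false,false,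
  true,[0,0,0,0,1],[0,-1,1],[1,1],(⟨0,[(34,0)]⟩,⟨0,[(33,0)]⟩),(⟨0,[(30,0)]⟩,⟨0,[(9,0),(32,2)]⟩),⟨0,
  [(1,0)]⟩,.k,.k,(.r 0 ⟨2,[(11,0),(34,0),(5,1)]⟩ ⟨47,[(6,11),(3,1),(15,23),(0,3),(0,5),(2,11),(16,
  2),(5,8)]⟩),(.r 0 ⟨23,[(6,1),(7,17),(0,3),(10,0),(4,1),(5,5),(8,6),(1,2),(7,0)]⟩ ⟨17,[(4,1),(14,
  11),(2,11),(4,1),(0,5),(20,2),(4,2)]⟩),.k,.k,⟨true,0,⟨0,[(14,0)]⟩,⟨0,[(22,0),(1,0)]⟩⟩,⟨false,1,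
  ⟨16,[(2,8),(5,1),(1,0),(0,4),(19,7),(6,14),(9,0),(1,2)]⟩,⟨0,[(0,0),(34,0)]⟩⟩,⟨true,0,⟨0,[]⟩,⟨0,
  [(56,0)]⟩⟩,⟨false,1,⟨0,[(2,0),(19,0)]⟩,⟨0,[(0,0),(13,0),(20,0)]⟩⟩,⟨false,1,⟨2,[(19,0),(6,1)]⟩,⟨0,
  [(52,0)]⟩⟩,⟨false,1,⟨0,[(2,0),(18,0)]⟩,⟨7,[(0,5),(6,0),(2,1),(1,2),(1,0),(13,3),(3,0),(15,0)]⟩⟩,
  [.o ⟨false,0,⟨0,[(20,0),(31,0)]⟩,⟨0,[(23,0),(30,0)]⟩⟩,.a ⟨true,0,⟨0,[(22,0)]⟩,⟨0,[(14,0),(20,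
  0)]⟩⟩ ⟨true,0,⟨0,[]⟩,⟨1,[(38,0),(0,0)]⟩⟩ ⟨false,1,⟨1,[(2,0),(8,0),(9,0),(0,0),(8,0)]⟩,⟨0,[(0,0),
  (13,0),(20,0)]⟩⟩,.o ⟨false,0,⟨0,[(0,0)]⟩,⟨0,[(31,0)]⟩⟩,.o ⟨false,0,⟨2,[(0,1),(5,0),(32,0)]⟩,⟨2,
  [(2,1),(8,0),(19,0),(18,0)]⟩⟩]⟩)) (.R ⟨0,false,false,true,[0,0,0,0,1],[1,0,-1],[1,2],(⟨0,[(33,
  0)]⟩,⟨0,[(32,0)]⟩),(⟨0,[(39,0)]⟩,⟨0,[(40,0)]⟩),⟨0,[(0,0)]⟩,.k,.k,(.r 0 ⟨2,[(10,0),(34,0),(5,1)]⟩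
  ⟨47,[(5,11),(3,1),(15,23),(0,3),(0,5),(2,11),(16,2),(5,8)]⟩),.k,.k,.k,⟨false,0,⟨5,[(3,1),(6,2),(4,
  0),(2,0),(8,0),(7,1)]⟩,⟨119,[(2,1),(2,15),(3,53),(3,11),(11,47),(4,13),(1,1),(5,11),(0,3),(3,3),
  (3,2),(5,8)]⟩⟩,⟨true,0,⟨50,[(0,24),(0,25),(0,24),(5,49),(1,12),(4,4),(18,0),(6,3),(4,6),(0,5),(1,
  12)]⟩,⟨0,[(4,0)]⟩⟩,⟨false,0,⟨0,[]⟩,⟨2,[(9,0),(16,1)]⟩⟩,⟨true,0,⟨25,[(0,18),(0,6),(0,18),(4,11),(0,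
  37),(0,14),(0,5),(0,7),(29,0),(4,5),(0,2),(1,3)]⟩,⟨0,[(19,0),(11,0)]⟩⟩,⟨false,0,⟨0,[]⟩,⟨0,[]⟩⟩,
  ⟨false,0,⟨0,[]⟩,⟨0,[]⟩⟩,[.o ⟨false,0,⟨0,[(36,0)]⟩,⟨1,[(20,1),(27,0),(4,0)]⟩⟩,.a ⟨true,0,⟨48,[(9,
  11),(1,21),(13,0),(1,22),(8,2),(8,4),(1,12),(6,5)]⟩,⟨0,[(20,0)]⟩⟩ ⟨false,0,⟨3,[(10,0),(34,0),(3,
  0)]⟩,⟨2,[(9,0),(16,1)]⟩⟩ ⟨true,0,⟨25,[(0,18),(0,6),(0,18),(4,11),(0,37),(0,14),(0,5),(0,7),(29,0),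
  (4,5),(0,2),(1,3)]⟩,⟨2,[(3,0),(0,2),(13,0),(2,0),(1,0)]⟩⟩,.e ⟨false,0,⟨0,[(55,0)]⟩,⟨0,[(53,0)]⟩⟩
  ⟨false,0,⟨25,[(0,18),(0,6),(0,18),(4,11),(0,37),(0,14),(0,5),(0,7),(29,0),(4,5),(0,2),(1,3)]⟩,⟨2,
  [(3,0),(0,2),(13,2),(7,0)]⟩⟩,.o ⟨false,0,⟨0,[(4,0),(18,0)]⟩,⟨2,[(1,1),(8,0),(19,0),(18,0)]⟩⟩]⟩))
  (.S ⟨1,0,[0,-1,1],[1,1,0,0,-1],[0,0,1],(⟨0,[(31,0),(8,0)]⟩,⟨3,[(0,1),(0,1),(4,1),(0,3),(0,1),(10,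
  1),(12,1),(14,0),(4,0)]⟩),⟨0,[(31,0)]⟩,(.r (-1) ⟨47,[(4,11),(3,1),(15,23),(0,3),(0,5),(2,11),(16,
  2),(5,8)]⟩ ⟨2,[(9,0),(34,0),(5,1)]⟩),.k,⟨false,0,⟨0,[(50,0)]⟩,⟨2,[(17,0),(6,1)]⟩⟩,⟨true,0,⟨0,[(50,
  0)]⟩,⟨0,[(49,0)]⟩⟩,⟨true,0,⟨0,[(54,0)]⟩,⟨0,[]⟩⟩,⟨false,1,⟨2,[(8,0),(16,1)]⟩,⟨0,[]⟩⟩,[.a ⟨true,1,
  ⟨17,[(1,1),(4,1),(0,3),(0,1),(10,1),(9,15),(1,1),(8,3),(5,6),(5,8)]⟩,⟨0,[(0,0)]⟩⟩ ⟨true,0,⟨1,[(36,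
  0),(0,0)]⟩,⟨0,[]⟩⟩ ⟨false,1,⟨2,[(8,0),(16,1)]⟩,⟨3,[(9,0),(34,0),(3,0)]⟩⟩,.e ⟨false,1,⟨2,[(8,0),
  (16,1)]⟩,⟨3,[(9,0),(34,0),(3,0)]⟩⟩ ⟨false,1,⟨0,[(52,0)]⟩,⟨0,[(44,0)]⟩⟩,.o ⟨false,1,⟨15,[(1,11),(4,
  13),(0,23),(0,11),(0,3),(4,3),(4,9),(9,3),(1,11),(13,7),(1,4),(4,2)]⟩,⟨3,[(0,1),(3,1),(17,1),(24,
  0),(4,0)]⟩⟩,.e ⟨false,1,⟨2,[(8,0),(16,1)]⟩,⟨0,[]⟩⟩ ⟨false,1,⟨0,[(52,0)]⟩,⟨0,[(54,0)]⟩⟩]⟩))) (.Q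
  [0,1,-1,0,-1,0,-1,0,1,0,-1,1] (.p false [0,0,1] [0,0,0,0,1] (⟨0,[(37,0)]⟩,⟨0,[(36,0)]⟩) .k 2 (⟨0,
  [(30,0)]⟩,⟨0,[(29,0)]⟩) .k (.r (-1) ⟨2,[(15,0),(2,0),(1,0),(2,1)]⟩ ⟨10,[(0,1),(6,2),(0,2),(2,3),
  (21,3),(8,0),(1,1)]⟩)) (.Q [0,0,0,0,0,-1,0,0,0,1,0,-1] (.ed true [0,1,0,0,1] .k) (.Q [0,0,0,0,0,0,
  0,0,0,1,-1,-1] (.ed true [0,0,1,0,1] (.r 0 ⟨1,[(18,0),(7,0),(7,0)]⟩ ⟨43,[(2,19),(1,5),(7,3),(11,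
  17),(4,5),(7,5),(8,2),(5,2)]⟩)) (.Q [0,0,-1,0,0,0,0,0,1,-1,0,1] (.p true [0,0,0,0,1] [1] (⟨0,[(33,
  0)]⟩,⟨0,[(32,0)]⟩) .k 1 (⟨0,[]⟩,⟨0,[]⟩) .k .k) (.S ⟨1,0,[0,-1,0,-1],[1,0,0,0,-1],[1],(⟨0,[(33,
  0)]⟩,⟨0,[(34,0)]⟩),⟨0,[(2,0)]⟩,.k,(.r (-1) ⟨3,[(4,0),(14,1),(2,0),(4,0),(11,0)]⟩ ⟨7,[(14,0),(0,1),
  (9,2),(0,0),(10,1),(8,0),(1,0)]⟩),⟨false,0,⟨0,[]⟩,⟨2,[(4,0),(22,1)]⟩⟩,⟨true,0,⟨0,[(52,0)]⟩,⟨0,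
  [(51,0)]⟩⟩,⟨true,0,⟨0,[(51,0)]⟩,⟨0,[(52,0)]⟩⟩,⟨false,1,⟨2,[(4,0),(22,1)]⟩,⟨0,[]⟩⟩,[.a ⟨true,1,⟨1,
  [(31,1),(16,0),(3,1),(1,0)]⟩,⟨4,[(3,3),(1,0),(2,0),(3,2),(8,1),(26,0)]⟩⟩ ⟨true,0,⟨0,[]⟩,⟨1,[(38,
  0),(0,0)]⟩⟩ ⟨false,1,⟨3,[(4,0),(14,1),(2,0),(4,0),(11,0)]⟩,⟨0,[(51,0)]⟩⟩,.o ⟨false,2,⟨0,[(31,0),
  (20,0),(1,0)]⟩,⟨0,[(3,0),(10,0),(5,0)]⟩⟩,.o ⟨false,1,⟨0,[(31,0)]⟩,⟨3,[(0,2),(5,0),(32,0)]⟩⟩,.o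
  ⟨false,1,⟨1,[(31,1),(6,0),(0,0)]⟩,⟨0,[(0,0)]⟩⟩]⟩) (.R ⟨0,false,false,false,[0,-1,1],[0,0,0,0,1],
  [1,1],(⟨0,[(30,0)]⟩,⟨52,[(0,2),(3,1),(22,3),(4,2),(7,52),(1,7),(3,2),(0,14),(0,5)]⟩),(⟨0,[(34,
  0)]⟩,⟨0,[(33,0)]⟩),⟨2,[(9,0),(19,1),(12,0),(4,2)]⟩,.k,.k,(.r (-1) ⟨39,[(4,1),(6,4),(7,26),(2,43),
  (5,21),(17,11),(2,10)]⟩ ⟨7,[(0,0),(5,0),(7,11),(3,3),(20,0)]⟩),(.r (-1) ⟨2,[(19,1),(2,1),(1,1),(2,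
  0)]⟩ ⟨18,[(0,2),(5,1),(0,0),(6,15),(0,0),(10,0),(10,2),(8,6)]⟩),.k,.k,⟨true,0,⟨0,[]⟩,⟨3,[(0,0),(5,
  0),(32,0)]⟩⟩,⟨false,0,⟨2,[(3,2),(15,1),(6,0)]⟩,⟨0,[(31,0),(6,0)]⟩⟩,⟨false,0,⟨0,[(14,0)]⟩,⟨2,[(19,
  1),(2,1),(1,1),(2,0)]⟩⟩,⟨true,(-1),⟨0,[(3,0),(10,0)]⟩,⟨0,[(22,0),(8,0)]⟩⟩,⟨false,0,⟨0,[]⟩,⟨0,[]⟩⟩,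
  ⟨false,0,⟨0,[]⟩,⟨0,[]⟩⟩,[.a ⟨true,(-1),⟨0,[(3,0),(34,0)]⟩,⟨2,[(0,2),(18,1),(6,0)]⟩⟩ ⟨false,0,⟨3,
  [(11,0),(34,0),(3,0)]⟩,⟨2,[(4,0),(22,1)]⟩⟩ ⟨true,(-1),⟨0,[(3,0)]⟩,⟨1,[(0,1),(37,1),(10,0),(4,
  0)]⟩⟩,.o ⟨false,0,⟨3,[(3,1),(1,1),(43,0),(4,0)]⟩,⟨0,[(31,0)]⟩⟩,.a ⟨true,0,⟨0,[(38,0)]⟩,⟨0,[(35,
  0)]⟩⟩ ⟨false,0,⟨0,[]⟩,⟨2,[(4,0),(22,1)]⟩⟩ ⟨true,(-1),⟨0,[(3,0)]⟩,⟨0,[(31,0),(6,0)]⟩⟩,.a ⟨true,0,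
  ⟨1,[(0,0),(5,0),(31,0)]⟩,⟨3,[(0,3),(2,3),(0,1),(11,1),(1,3),(29,0),(5,0)]⟩⟩ ⟨true,0,⟨3,[(11,0),
  (34,0),(3,0)]⟩,⟨3,[(0,0),(5,0),(32,0)]⟩⟩ ⟨false,0,⟨2,[(3,2),(15,1),(6,0)]⟩,⟨1,[(0,1),(37,1),(10,
  0),(4,0)]⟩⟩]⟩)) (.Q [0,0,0,1,1,0,0,0,-1,0,0,-1] (.p false [0,0,0,0,1] [] (⟨0,[(33,0)]⟩,⟨0,[(32,
  0)]⟩) .k 0 (⟨0,[]⟩,⟨0,[]⟩) .k .k) (.Q [0,0,0,0,1,0,1,0,-1,0,1,-1] (.p false [0,0,-1,0,1] [] (⟨2,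
  [(1,1),(7,4),(24,0),(7,0),(4,2)]⟩,⟨0,[(33,0),(7,0)]⟩) .k 0 (⟨0,[]⟩,⟨0,[]⟩) .k (.r 0 ⟨10,[(4,1),(6,
  2),(0,2),(2,3),(21,3),(8,0),(1,1)]⟩ ⟨2,[(19,0),(2,0),(1,0),(2,1)]⟩)) (.R ⟨1,false,false,false,[1,
  0,1,0,-1],[1,0,0,0,-1],[0,0,0,-1,0,0,0,1],(⟨0,[(34,0),(7,0)]⟩,⟨2,[(2,1),(7,4),(24,0),(7,0),(4,
  2)]⟩),(⟨0,[(34,0)]⟩,⟨0,[(35,0)]⟩),⟨0,[(3,0),(38,0)]⟩,.k,.k,(.r (-1) ⟨2,[(20,1),(2,1),(1,1),(2,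
  0)]⟩ ⟨36,[(0,2),(6,2),(7,27),(0,4),(9,1),(0,0),(10,10),(8,9),(1,3)]⟩),.k,.k,.k,⟨false,0,⟨1,[(12,
  0),(8,0),(1,0),(5,0)]⟩,⟨7,[(5,1),(9,3),(1,1),(9,3),(21,0),(5,0)]⟩⟩,⟨true,0,⟨0,[(25,0)]⟩,⟨0,[(39,
  0)]⟩⟩,⟨false,0,⟨0,[(53,0)]⟩,⟨2,[(20,0),(6,1)]⟩⟩,⟨false,1,⟨15,[(5,5),(18,3),(2,3),(1,1),(10,7),(9,
  0),(4,4)]⟩,⟨0,[(22,0)]⟩⟩,⟨true,0,⟨0,[(57,0)]⟩,⟨0,[]⟩⟩,⟨false,1,⟨0,[(24,0),(30,0)]⟩,⟨0,[(23,0)]⟩⟩,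
  [.a ⟨true,1,⟨1,[(1,1),(47,0),(3,1),(1,0)]⟩,⟨0,[(4,0),(34,0)]⟩⟩ ⟨true,0,⟨0,[(23,0),(1,0)]⟩,⟨0,[(15,
  0)]⟩⟩ ⟨false,1,⟨1,[(17,0),(11,0),(25,0)]⟩,⟨12,[(0,2),(4,0),(2,2),(0,1),(2,1),(26,7),(7,1),(1,
  0)]⟩⟩,.o ⟨false,2,⟨0,[(32,0),(22,0)]⟩,⟨0,[(4,0),(10,0),(5,0),(31,0)]⟩⟩,.o ⟨false,1,⟨0,[(0,0)]⟩,⟨4,
  [(4,3),(2,0),(32,1),(9,1),(4,1)]⟩⟩,.o ⟨false,1,⟨1,[(0,1),(38,0),(0,0)]⟩,⟨1,[(4,1),(45,0),(4,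
  0)]⟩⟩]⟩) (.S ⟨1,0,[0,2,1],[0,1,0,0,1],[1,1,1,1],(⟨207,[(5,7),(1,5),(20,15),(0,2),(2,5),(2,207),(7,
  36),(3,11),(0,56),(0,29)]⟩,⟨0,[(3,0)]⟩),⟨0,[(35,0)]⟩,(.r 0 ⟨7,[(15,0),(0,1),(9,2),(0,0),(10,1),(8,
  0),(1,0)]⟩ ⟨3,[(5,0),(14,1),(2,0),(4,0),(11,0)]⟩),.k,⟨true,0,⟨0,[]⟩,⟨0,[(57,0)]⟩⟩,⟨false,0,⟨0,
  [(53,0)]⟩,⟨2,[(20,0),(6,1)]⟩⟩,⟨false,1,⟨2,[(20,0),(6,1)]⟩,⟨0,[(53,0)]⟩⟩,⟨true,0,⟨0,[(57,0)]⟩,⟨0,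
  []⟩⟩,[.o ⟨false,(-1),⟨0,[(0,0),(11,0),(3,0)]⟩,⟨0,[(32,0),(22,0)]⟩⟩,.a ⟨true,(-1),⟨18,[(0,11),(4,
  0),(2,6),(0,1),(2,3),(0,1),(8,1),(16,7),(9,0)]⟩,⟨1,[(1,1),(47,0),(3,1),(1,0)]⟩⟩ ⟨true,0,⟨9,[(15,
  3),(0,1),(2,3),(20,1),(8,0),(5,0)]⟩,⟨0,[(53,0)]⟩⟩ ⟨false,0,⟨0,[(57,0)]⟩,⟨2,[(20,1),(6,0)]⟩⟩,.o
  ⟨false,0,⟨5,[(0,3),(4,0),(0,1),(2,0),(7,2),(4,0)]⟩,⟨1,[(32,1),(6,0),(0,0)]⟩⟩,.o ⟨false,0,⟨1,[(0,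
  0),(6,0),(9,0)]⟩,⟨0,[(32,0)]⟩⟩]⟩)) (.R ⟨2,true,false,false,[0,1],[0,0,0,0,1],[1,0,1,1],(⟨0,[]⟩,⟨0,
  []⟩),(⟨0,[(34,0)]⟩,⟨0,[(33,0)]⟩),⟨0,[]⟩,.k,.k,.k,(.r (-1) ⟨47,[(4,1),(1,11),(19,23),(0,3),(0,5),
  (2,11),(16,2),(5,8)]⟩ ⟨2,[(11,0),(34,0),(5,1)]⟩),.k,.k,⟨false,1,⟨2,[(19,0),(6,1)]⟩,⟨2,[(11,0),(34,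
  0),(5,1)]⟩⟩,⟨true,(-1),⟨9,[(0,9),(11,1),(1,1),(0,1),(2,3),(20,1),(8,0),(5,0)]⟩,⟨0,[(31,0)]⟩⟩,
  ⟨true,0,⟨0,[]⟩,⟨0,[(56,0)]⟩⟩,⟨false,(-1),⟨0,[(0,0)]⟩,⟨2,[(19,0),(6,1),(4,2)]⟩⟩,⟨false,1,⟨2,[(19,
  0),(6,1)]⟩,⟨0,[(52,0)]⟩⟩,⟨true,(-1),⟨17,[(0,8),(2,1),(3,6),(0,1),(3,1),(13,0),(21,0),(1,0)]⟩,⟨0,
  [(31,0)]⟩⟩,[]⟩))) (.Q [0,0,0,1,1,0,0,0,-1,0,0,-1] (.p false [0,0,0,0,1] [] (⟨0,[(32,0)]⟩,⟨0,[(31,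
  0)]⟩) .k 0 (⟨0,[]⟩,⟨0,[]⟩) .k .k) (.Q [0,0,0,0,1,0,1,0,-1,0,1,-1] (.p false [0,0,-1,0,1] [] (⟨0,
  [(1,0),(26,0)]⟩,⟨0,[(32,0),(7,0)]⟩) .k 0 (⟨0,[]⟩,⟨0,[]⟩) .k (.r 0 ⟨10,[(3,1),(6,2),(0,2),(2,3),
  (21,3),(8,0),(1,1)]⟩ ⟨2,[(18,0),(2,0),(1,0),(2,1)]⟩)) (.R ⟨1,false,false,false,[1,0,1,0,-1],[1,0,
  0,0,-1],[0,0,0,-1,0,0,0,1],(⟨0,[(33,0),(7,0)]⟩,⟨0,[(2,0),(26,0)]⟩),(⟨0,[(33,0)]⟩,⟨0,[(34,0)]⟩),⟨0,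
  [(30,0),(2,0)]⟩,.k,.k,(.r (-1) ⟨2,[(19,1),(2,1),(1,1),(2,0)]⟩ ⟨15,[(0,0),(5,0),(7,10),(0,2),(10,
  0),(10,4),(8,3),(1,1),(7,0)]⟩),.k,.k,.k,⟨false,0,⟨1,[(11,0),(8,0),(1,0),(5,0)]⟩,⟨7,[(4,1),(9,3),
  (1,1),(9,3),(21,0),(5,0)]⟩⟩,⟨true,0,⟨0,[(24,0)]⟩,⟨0,[(38,0)]⟩⟩,⟨false,0,⟨0,[(52,0)]⟩,⟨2,[(19,0),
  (6,1)]⟩⟩,⟨false,1,⟨15,[(4,5),(18,3),(2,3),(1,1),(10,7),(9,0),(4,4)]⟩,⟨0,[(21,0)]⟩⟩,⟨true,0,⟨0,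
  [(56,0)]⟩,⟨0,[]⟩⟩,⟨false,1,⟨0,[(23,0),(30,0)]⟩,⟨0,[(22,0)]⟩⟩,[.a ⟨true,1,⟨1,[(1,1),(46,0),(3,1),
  (1,0)]⟩,⟨0,[(3,0),(34,0)]⟩⟩ ⟨true,0,⟨0,[(22,0),(1,0)]⟩,⟨0,[(14,0)]⟩⟩ ⟨false,1,⟨1,[(16,0),(11,0),
  (25,0)]⟩,⟨6,[(4,0),(3,0),(2,0),(3,0),(20,0),(1,3),(7,1),(1,0)]⟩⟩,.o ⟨false,2,⟨0,[(31,0),(22,0)]⟩,
  ⟨0,[(3,0),(10,0),(5,0),(31,0)]⟩⟩,.o ⟨false,1,⟨0,[(0,0)]⟩,⟨4,[(3,3),(2,0),(32,1),(9,1),(4,1)]⟩⟩,.o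
  ⟨false,1,⟨0,[(31,0),(6,0)]⟩,⟨1,[(3,1),(45,0),(4,0)]⟩⟩]⟩) (.S ⟨1,0,[0,0,1],[1,1,0,0,-1],[0,-1,1],
  (⟨207,[(4,7),(1,5),(20,15),(0,2),(2,5),(1,207),(8,36),(3,11),(0,56),(0,29)]⟩,⟨1,[(2,0),(6,0),(20,
  0),(3,0)]⟩),⟨0,[(33,0)]⟩,(.r (-1) ⟨47,[(4,1),(1,11),(19,23),(0,3),(0,5),(2,11),(16,2),(5,8)]⟩ ⟨2,
  [(11,0),(34,0),(5,1)]⟩),.k,⟨true,0,⟨0,[(52,0)]⟩,⟨0,[(51,0)]⟩⟩,⟨false,0,⟨0,[(52,0)]⟩,⟨2,[(19,0),(6,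
  1)]⟩⟩,⟨false,1,⟨2,[(4,0),(22,1)]⟩,⟨0,[]⟩⟩,⟨true,0,⟨0,[(56,0)]⟩,⟨0,[]⟩⟩,[.o ⟨false,1,⟨0,[(31,0)]⟩,
  ⟨4,[(0,1),(4,1),(10,0),(15,0),(16,0)]⟩⟩,.e ⟨false,1,⟨0,[(54,0)]⟩,⟨0,[(46,0)]⟩⟩ ⟨false,1,⟨2,[(4,0),
  (22,1)]⟩,⟨3,[(11,0),(34,0),(3,0)]⟩⟩,.a ⟨true,1,⟨13,[(1,3),(9,1),(7,1),(11,9),(10,3),(1,3),(3,4),
  (4,2)]⟩,⟨0,[(0,0),(37,0)]⟩⟩ ⟨false,1,⟨1,[(38,0),(0,0),(14,1)]⟩,⟨3,[(11,0),(34,0),(3,0)]⟩⟩ ⟨true,0,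
  ⟨1,[(38,0),(0,0)]⟩,⟨3,[(11,0),(34,0),(3,0)]⟩⟩,.o ⟨false,1,⟨0,[(31,0)]⟩,⟨4,[(0,1),(4,1),(10,0),(15,
  0),(16,0)]⟩⟩]⟩)) (.R ⟨2,true,false,false,[0,1],[0,0,0,0,1],[1,0,1,1],(⟨0,[]⟩,⟨0,[]⟩),(⟨0,[(33,
  0)]⟩,⟨0,[(32,0)]⟩),⟨0,[]⟩,.k,.k,.k,(.r (-1) ⟨47,[(3,1),(1,11),(19,23),(0,3),(0,5),(2,11),(16,2),
  (5,8)]⟩ ⟨2,[(10,0),(34,0),(5,1)]⟩),.k,.k,⟨false,1,⟨2,[(18,0),(6,1)]⟩,⟨2,[(10,0),(34,0),(5,1)]⟩⟩,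
  ⟨true,(-1),⟨9,[(0,9),(10,1),(1,1),(0,1),(2,3),(20,1),(8,0),(5,0)]⟩,⟨0,[(30,0)]⟩⟩,⟨true,0,⟨0,[]⟩,
  ⟨0,[(55,0)]⟩⟩,⟨false,(-1),⟨0,[(0,0)]⟩,⟨2,[(18,0),(6,1),(4,2)]⟩⟩,⟨false,1,⟨2,[(18,0),(6,1)]⟩,⟨0,
  [(51,0)]⟩⟩,⟨true,(-1),⟨17,[(0,8),(1,1),(3,6),(0,1),(3,1),(13,0),(21,0),(1,0)]⟩,⟨0,[(30,0)]⟩⟩,
  []⟩))) (.Q [0,0,0,0,0,0,0,0,-1,1,0,-1] (.p false [0,0,0,0,1] [1] (⟨0,[(31,0)]⟩,⟨0,[(30,0)]⟩) .k 1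
  (⟨0,[]⟩,⟨0,[]⟩) .k .k) (.Q [0,0,0,0,0,-1,0,0,0,0,0,1] (.ed false [1,-1,0,0,1] .k) (.S ⟨1,0,[0,0,
  1],[1,1,0,0,-1],[0,-1,1],(⟨207,[(3,7),(1,5),(20,15),(0,2),(2,5),(1,207),(8,36),(3,11),(0,56),(0,
  29)]⟩,⟨0,[(0,0)]⟩),⟨0,[(32,0)]⟩,(.r (-1) ⟨17,[(2,2),(0,1),(1,2),(19,8),(0,3),(0,2)]⟩ ⟨2,[(10,0),
  (34,0),(5,1)]⟩),.k,⟨true,0,⟨0,[(51,0)]⟩,⟨0,[(50,0)]⟩⟩,⟨false,0,⟨0,[(51,0)]⟩,⟨2,[(18,0),(6,1)]⟩⟩,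
  ⟨false,1,⟨2,[(3,0),(22,1)]⟩,⟨0,[]⟩⟩,⟨true,0,⟨0,[(55,0)]⟩,⟨0,[]⟩⟩,[.a ⟨true,0,⟨0,[(1,0)]⟩,⟨0,[(31,
  0)]⟩⟩ ⟨false,1,⟨2,[(3,0),(22,1)]⟩,⟨3,[(10,0),(34,0),(3,0)]⟩⟩ ⟨true,0,⟨2,[(1,0),(3,0),(32,0)]⟩,⟨0,
  []⟩⟩,.o ⟨false,1,⟨1,[(1,1),(46,0),(4,0)]⟩,⟨1,[(6,0),(24,0),(16,0)]⟩⟩,.o ⟨false,1,⟨1,[(1,0),(13,0),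
  (14,0)]⟩,⟨0,[(4,0),(18,0)]⟩⟩,.e ⟨false,1,⟨0,[(53,0)]⟩,⟨0,[(55,0)]⟩⟩ ⟨false,1,⟨2,[(3,0),(22,1)]⟩,
  ⟨0,[]⟩⟩]⟩) (.R ⟨0,false,false,true,[0,0,0,0,1],[0,1,1],[1,1,1,1,0,0,0,1],(⟨0,[(33,0)]⟩,⟨0,[(32,
  0)]⟩),(⟨207,[(3,7),(1,5),(20,15),(0,2),(2,5),(9,207),(0,36),(3,11),(0,56),(0,29)]⟩,⟨0,[(28,0)]⟩),
  ⟨0,[(0,0)]⟩,.k,.k,(.r 0 ⟨2,[(10,0),(34,0),(5,1)]⟩ ⟨17,[(2,2),(0,1),(1,2),(19,8),(0,3),(0,2)]⟩),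
  (.r 0 ⟨0,[(10,0),(2,0),(37,0)]⟩ ⟨0,[(26,0)]⟩),.k,.k,⟨true,0,⟨0,[]⟩,⟨2,[(1,0),(3,0),(32,0)]⟩⟩,
  ⟨false,1,⟨1,[(1,1),(1,0),(3,0),(7,0),(4,0)]⟩,⟨0,[(31,0),(6,0)]⟩⟩,⟨true,0,⟨8,[(2,0),(2,0),(8,0),(2,
  7),(2,0),(17,3),(8,0)]⟩,⟨0,[(10,0),(2,0),(37,0)]⟩⟩,⟨false,1,⟨3,[(1,3),(5,1),(12,1),(27,0),(4,2)]⟩,
  ⟨7,[(3,3),(0,0),(0,2),(0,1),(16,11),(7,1),(15,1),(6,0)]⟩⟩,⟨false,0,⟨0,[]⟩,⟨0,[]⟩⟩,⟨false,0,⟨0,[]⟩,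
  ⟨0,[]⟩⟩,[.o ⟨false,0,⟨0,[(12,0)]⟩,⟨2,[(3,1),(22,0),(11,2)]⟩⟩,.e ⟨false,0,⟨0,[(17,0)]⟩,⟨56,[(3,34),
  (1,11),(20,12),(0,5),(2,11),(14,23),(1,2)]⟩⟩ ⟨false,1,⟨8,[(1,5),(5,5),(10,4),(1,2),(4,0),(4,2)]⟩,
  ⟨7,[(3,3),(0,0),(0,2),(0,1),(16,11),(7,1),(15,1),(6,0)]⟩⟩,.a ⟨true,0,⟨0,[(31,0)]⟩,⟨0,[(1,0)]⟩⟩
  ⟨false,0,⟨8,[(2,0),(2,0),(8,0),(2,7),(2,0),(17,3),(8,0)]⟩,⟨2,[(3,1),(22,0)]⟩⟩ ⟨true,0,⟨1,[(1,1),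
  (5,0),(11,0)]⟩,⟨7,[(3,3),(0,0),(0,2),(0,1),(16,11),(7,1),(15,1),(6,0)]⟩⟩,.o ⟨false,0,⟨0,[(4,0),
  (18,0)]⟩,⟨1,[(1,0),(13,0),(14,0)]⟩⟩]⟩)) (.Q [0,-1,0,-1,1,0,1,1,-1,0,1,-1] (.p true [0,0,1] [0,0,0,
  0,1] (⟨0,[(39,0)]⟩,⟨0,[(38,0)]⟩) .k 2 (⟨0,[(32,0)]⟩,⟨0,[(31,0)]⟩) .k (.r (-1) ⟨2,[(17,0),(2,0),(1,
  0),(2,1)]⟩ ⟨10,[(2,1),(6,2),(0,2),(2,3),(21,3),(8,0),(1,1)]⟩)) (.Q [0,-1,-2,0,1,0,-1,0,-1,1,-1,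
  -1] (.p false [0,0,1] [1,0,0,0,-1] (⟨0,[(40,0)]⟩,⟨0,[(39,0)]⟩) .k 2 (⟨0,[(32,0)]⟩,⟨0,[(33,0)]⟩)
  .k (.r 0 ⟨1,[(19,0),(7,0),(7,0)]⟩ ⟨21,[(2,2),(0,9),(1,2),(7,1),(11,8),(1,2)]⟩)) (.R ⟨0,false,
  false,true,[0,-1,1],[1,0,0,0,-1],[1],(⟨0,[(30,0)]⟩,⟨207,[(4,7),(1,5),(20,15),(0,2),(2,5),(8,207),
  (1,36),(3,11),(0,56),(0,29)]⟩),(⟨0,[(33,0)]⟩,⟨0,[(34,0)]⟩),⟨2,[(9,0),(19,1),(12,0),(4,2)]⟩,.k,.k,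
  (.r (-1) ⟨39,[(4,1),(6,4),(7,26),(2,43),(5,21),(17,11),(2,10)]⟩ ⟨14,[(3,0),(2,0),(5,2),(1,18),(0,
  0),(2,6),(20,2),(8,0)]⟩),(.r 0 ⟨1,[(11,0),(8,0),(1,0),(5,0)]⟩ ⟨10,[(3,1),(0,2),(1,1),(7,4),(11,5),
  (1,1)]⟩),.k,.k,⟨true,0,⟨0,[]⟩,⟨8,[(3,0),(2,0),(8,0),(23,2),(8,0),(3,0),(2,0)]⟩⟩,⟨false,1,⟨56,[(0,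
  44),(3,0),(22,1),(0,5),(2,11),(14,23),(1,2)]⟩,⟨0,[(5,0)]⟩⟩,⟨true,0,⟨0,[(14,0)]⟩,⟨1,[(11,0),(8,0),
  (1,0),(5,0)]⟩⟩,⟨false,1,⟨2,[(0,1),(2,0),(10,2),(13,0)]⟩,⟨0,[(2,0),(19,0)]⟩⟩,⟨false,0,⟨0,[]⟩,⟨0,
  []⟩⟩,⟨false,0,⟨0,[]⟩,⟨0,[]⟩⟩,[.o ⟨false,1,⟨0,[(31,0)]⟩,⟨0,[(2,0)]⟩⟩,.e ⟨false,1,⟨2,[(19,1),(6,
  0)]⟩,⟨0,[(56,0)]⟩⟩ ⟨false,1,⟨0,[(0,0)]⟩,⟨3,[(6,2),(0,0),(9,0),(28,0)]⟩⟩,.a ⟨true,0,⟨0,[(38,0)]⟩,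
  ⟨0,[(35,0)]⟩⟩ ⟨true,0,⟨0,[]⟩,⟨0,[(56,0)]⟩⟩ ⟨false,1,⟨2,[(0,1),(2,0),(24,0)]⟩,⟨0,[(5,0)]⟩⟩,.e
  ⟨false,1,⟨2,[(19,1),(6,0)]⟩,⟨8,[(3,0),(2,0),(8,0),(23,2),(8,0),(3,0),(2,0)]⟩⟩ ⟨false,1,⟨0,[(0,
  0)]⟩,⟨0,[(6,0)]⟩⟩]⟩) (.Q [0,1,0,0,-1,0,-1,-1,1,0,-1,1] (.p false [0,0,1] [0,0,0,0,1] (⟨0,[(41,
  0)]⟩,⟨0,[(40,0)]⟩) .k 2 (⟨0,[(34,0)]⟩,⟨0,[(33,0)]⟩) .k (.r (-1) ⟨10,[(1,1),(0,1),(15,0),(0,2),(2,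
  1),(4,5),(0,1)]⟩ ⟨10,[(4,1),(6,2),(0,2),(2,3),(21,3),(8,0),(1,1)]⟩)) (.R ⟨1,true,false,false,[0,0,
  1],[0,0,0,0,1],[0,1,0,-1,0,0,0,1],(⟨0,[(42,0)]⟩,⟨0,[(41,0)]⟩),(⟨0,[(35,0)]⟩,⟨0,[(34,0)]⟩),⟨0,[(31,
  0)]⟩,.k,.k,.k,.k,(.r (-1) ⟨10,[(2,3),(0,3),(15,1),(0,5),(2,3),(4,0),(0,3)]⟩ ⟨23,[(7,1),(7,17),(0,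
  3),(10,0),(4,1),(5,5),(8,6),(1,2),(7,0)]⟩),.k,⟨true,0,⟨0,[(23,0),(1,0)]⟩,⟨0,[(15,0)]⟩⟩,⟨false,0,
  ⟨0,[(3,0),(32,0)]⟩,⟨3,[(4,3),(7,0),(34,0),(3,0)]⟩⟩,⟨false,0,⟨0,[(53,0)]⟩,⟨2,[(20,0),(6,1)]⟩⟩,
  ⟨true,(-1),⟨0,[(0,0)]⟩,⟨15,[(2,8),(6,1),(17,0),(4,6),(4,4),(11,0),(1,0),(0,1)]⟩⟩,⟨true,0,⟨0,[(57,
  0)]⟩,⟨0,[]⟩⟩,⟨false,0,⟨2,[(0,2),(19,0),(6,1)]⟩,⟨0,[(2,0)]⟩⟩,[]⟩) (.I [0,0,0,0,0,-1,-1] (.I [0,-1,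
  0,0,1,0,0,1,-1] (.I [0,1,2,0,-1,0,0,0,1] (.I [0,1,0,2,0,-2,1,1] (.I [5,0,0,0,-1,6] (.C [(0,0),(0,
  0),(2,2),(0,0),(0,0),(3,0),(4,1),(37,0)]) (.C [(0,0),(52,1),(0,0)])) (.C [(0,0),(12,0),(0,0)]))
  (.C [(0,0),(3,0),(23,0),(8,0)])) (.C [(0,0),(1,0),(24,0),(9,0)])) (.C [(0,0),(25,0),(5,0)]))))
  (.Q [0,0,-2,0,0,0,-1,0,0,1,-1] (.p false [0,0,1] [1] (⟨0,[(40,0)]⟩,⟨0,[(39,0)]⟩) .k 1 (⟨0,[]⟩,⟨0,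
  []⟩) .k .k) (.R ⟨0,false,false,false,[0,-1,1],[0,0,0,0,1],[1,1],(⟨0,[(30,0)]⟩,⟨207,[(4,7),(1,5),
  (20,15),(0,2),(2,5),(8,207),(1,36),(3,11),(0,56),(0,29)]⟩),(⟨0,[(34,0)]⟩,⟨0,[(33,0)]⟩),⟨2,[(9,0),
  (19,1),(12,0),(4,2)]⟩,.k,.k,(.r (-1) ⟨39,[(4,1),(6,4),(7,26),(2,43),(5,21),(17,11),(2,10)]⟩ ⟨14,
  [(3,0),(2,0),(5,2),(1,18),(0,0),(2,6),(20,2),(8,0)]⟩),(.r (-1) ⟨2,[(19,1),(2,1),(1,1),(2,0)]⟩ ⟨23,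
  [(6,1),(7,17),(0,3),(10,0),(4,1),(5,5),(8,6),(1,2),(7,0)]⟩),.k,.k,⟨true,0,⟨0,[]⟩,⟨8,[(3,0),(2,0),
  (8,0),(23,2),(8,0),(3,0),(2,0)]⟩⟩,⟨false,0,⟨0,[(0,0),(1,0)]⟩,⟨0,[(31,0),(6,0)]⟩⟩,⟨false,0,⟨0,[(14,
  0)]⟩,⟨2,[(19,1),(2,1),(1,1),(2,0)]⟩⟩,⟨true,(-1),⟨0,[(1,0)]⟩,⟨0,[(22,0),(8,0)]⟩⟩,⟨false,0,⟨0,[]⟩,
  ⟨0,[]⟩⟩,⟨false,0,⟨0,[]⟩,⟨0,[]⟩⟩,[.e ⟨false,0,⟨3,[(11,0),(34,0),(3,0)]⟩,⟨2,[(4,0),(22,1)]⟩⟩ ⟨false,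
  0,⟨3,[(0,1),(1,0),(4,1),(8,1),(11,0),(3,0)]⟩,⟨0,[(3,0)]⟩⟩,.o ⟨false,0,⟨0,[(2,0)]⟩,⟨0,[(31,0)]⟩⟩,
  .e ⟨false,0,⟨0,[]⟩,⟨2,[(4,0),(22,1)]⟩⟩ ⟨false,0,⟨3,[(0,1),(1,2),(25,0),(3,0)]⟩,⟨0,[(3,0)]⟩⟩,.a
  ⟨true,0,⟨2,[(3,0),(2,0),(8,0),(32,0),(3,0),(2,0)]⟩,⟨0,[(0,0)]⟩⟩ ⟨true,0,⟨3,[(11,0),(34,0),(3,0)]⟩,
  ⟨8,[(3,0),(2,0),(8,0),(23,2),(8,0),(3,0),(2,0)]⟩⟩ ⟨false,0,⟨0,[(0,0),(1,0)]⟩,⟨8,[(3,9),(2,0),(8,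
  0),(23,2),(8,0),(3,0),(2,0)]⟩⟩]⟩) (.I [0,0,0,0,0,-1,-1] (.I [0,-1,1,0,1,0,0,0,-1] (.I [0,0,2,0,0,
  -2,1] (.C [(0,1),(1,1),(4,1),(3,3),(15,3),(22,1),(0,2),(3,3),(1,0)]) (.C [(0,0),(2,0),(8,0)]))
  (.C [(0,0),(4,0),(20,0),(9,0)])) (.C [(0,0),(24,0),(5,0)])))))))) (.Q [0,0,0,0,0,0,0,0,0,0,-1,1]
  (.ed false [1,0,-1,0,1] (.r 0 ⟨44,[(0,6),(0,6),(2,12),(1,6),(2,18),(21,11),(8,4),(1,5),(7,2)]⟩ ⟨2,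
  [(13,0),(2,0),(1,0),(2,1)]⟩)) (.S ⟨1,0,[0,-1,1],[1,1,0,0,-1],[0,0,1],(⟨60,[(5,2),(16,5),(5,60),(8,
  6),(4,17),(0,8),(7,8)]⟩,⟨0,[(0,0),(24,0)]⟩),⟨0,[(28,0)]⟩,(.r (-1) ⟨11,[(5,1),(15,5),(0,3),(10,2),
  (0,2)]⟩ ⟨2,[(6,0),(34,0),(5,1)]⟩),.k,⟨false,0,⟨0,[(47,0)]⟩,⟨2,[(14,0),(6,1)]⟩⟩,⟨true,0,⟨0,[(47,
  0)]⟩,⟨0,[(46,0)]⟩⟩,⟨true,0,⟨0,[(51,0)]⟩,⟨0,[]⟩⟩,⟨false,1,⟨2,[(5,0),(16,1)]⟩,⟨0,[]⟩⟩,[.o ⟨false,1,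
  ⟨0,[(1,0),(8,0),(36,0),(1,0)]⟩,⟨1,[(2,0),(24,0),(16,0)]⟩⟩,.e ⟨false,1,⟨2,[(5,0),(16,1)]⟩,⟨3,[(6,
  0),(34,0),(3,0)]⟩⟩ ⟨false,1,⟨0,[(49,0)]⟩,⟨0,[(41,0)]⟩⟩,.a ⟨true,0,⟨0,[(1,0),(31,0)]⟩,⟨1,[(27,1),
  (5,0),(0,0)]⟩⟩ ⟨true,0,⟨1,[(33,0),(0,0)]⟩,⟨3,[(6,0),(34,0),(3,0)]⟩⟩ ⟨false,1,⟨1,[(33,0),(0,0),(14,
  1)]⟩,⟨3,[(6,0),(34,0),(3,0)]⟩⟩,.e ⟨false,1,⟨2,[(5,0),(16,1)]⟩,⟨0,[]⟩⟩ ⟨false,1,⟨0,[(49,0)]⟩,⟨0,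
  [(51,0)]⟩⟩]⟩) (.Q [0,0,0,0,0,1,0,0,0,0,0,-1] (.ed true [1,-1,0,0,1] .k) (.R ⟨0,false,false,true,
  [0,0,0,0,1],[0,1],[1,1,1,1],(⟨0,[(30,0)]⟩,⟨0,[(29,0)]⟩),(⟨0,[(41,0)]⟩,⟨0,[(40,0)]⟩),⟨0,[(0,0)]⟩,
  .k,.k,(.r 0 ⟨2,[(7,0),(34,0),(5,1)]⟩ ⟨11,[(6,1),(15,5),(0,3),(10,2),(0,2)]⟩),(.r 0 ⟨2,[(7,0),(34,
  0),(5,1)]⟩ ⟨11,[(6,1),(15,5),(0,3),(10,2),(0,2)]⟩),.k,.k,⟨true,0,⟨0,[]⟩,⟨1,[(34,0),(0,0)]⟩⟩,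
  ⟨false,1,⟨2,[(2,1),(10,1),(13,0)]⟩,⟨1,[(28,1),(5,0),(0,0)]⟩⟩,⟨true,0,⟨9,[(10,3),(0,1),(2,3),(20,
  1),(8,0),(5,0)]⟩,⟨2,[(7,0),(34,0),(5,1)]⟩⟩,⟨false,1,⟨0,[(2,0),(8,0),(38,0)]⟩,⟨0,[(28,0),(19,0)]⟩⟩,
  ⟨false,0,⟨0,[]⟩,⟨0,[]⟩⟩,⟨false,0,⟨0,[]⟩,⟨0,[]⟩⟩,[.e ⟨false,0,⟨0,[(47,0)]⟩,⟨3,[(6,0),(8,1),(2,0),
  (4,0),(11,0)]⟩⟩ ⟨false,0,⟨0,[(2,0),(7,0),(5,0)]⟩,⟨1,[(6,0),(11,0),(4,0),(4,1),(6,0)]⟩⟩,.o ⟨false,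
  1,⟨30,[(4,0),(7,3),(6,0),(2,13),(19,5),(2,12)]⟩,⟨0,[(48,0)]⟩⟩,.a ⟨true,0,⟨0,[(28,0)]⟩,⟨1,[(2,1),
  (31,2),(0,0)]⟩⟩ ⟨false,0,⟨9,[(10,3),(0,1),(2,3),(20,1),(8,0),(5,0)]⟩,⟨3,[(6,0),(8,1),(2,0),(4,0),
  (11,0)]⟩⟩ ⟨true,0,⟨0,[(2,0),(8,0)]⟩,⟨0,[(28,0),(19,0)]⟩⟩,.e ⟨true,0,⟨0,[(47,0)]⟩,⟨0,[(48,0)]⟩⟩
  ⟨true,0,⟨0,[(2,0),(7,0),(5,0)]⟩,⟨1,[(28,1),(5,0),(0,0),(12,1)]⟩⟩]⟩) (.S ⟨1,0,[0,-1,1],[1,1,0,0,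
  -1],[0,0,1],(⟨60,[(6,2),(16,5),(5,60),(8,6),(4,17),(0,8),(7,8)]⟩,⟨0,[(0,0)]⟩),⟨0,[(29,0)]⟩,(.r
  (-1) ⟨11,[(6,1),(15,5),(0,3),(10,2),(0,2)]⟩ ⟨2,[(7,0),(34,0),(5,1)]⟩),.k,⟨false,0,⟨0,[(48,0)]⟩,⟨2,
  [(15,0),(6,1)]⟩⟩,⟨true,0,⟨0,[(48,0)]⟩,⟨0,[(47,0)]⟩⟩,⟨true,0,⟨0,[(52,0)]⟩,⟨0,[]⟩⟩,⟨false,1,⟨2,[(6,
  0),(16,1)]⟩,⟨0,[]⟩⟩,[.o ⟨false,1,⟨0,[(2,0),(8,0),(36,0),(1,0)]⟩,⟨1,[(3,0),(24,0),(16,0)]⟩⟩,.e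
  ⟨false,1,⟨2,[(6,0),(16,1)]⟩,⟨3,[(7,0),(34,0),(3,0)]⟩⟩ ⟨false,1,⟨0,[(50,0)]⟩,⟨0,[(42,0)]⟩⟩,.a
  ⟨true,0,⟨0,[(2,0),(31,0)]⟩,⟨1,[(28,1),(5,0),(0,0)]⟩⟩ ⟨true,0,⟨1,[(34,0),(0,0)]⟩,⟨3,[(7,0),(34,0),
  (3,0)]⟩⟩ ⟨false,1,⟨1,[(34,0),(0,0),(14,1)]⟩,⟨3,[(7,0),(34,0),(3,0)]⟩⟩,.e ⟨false,1,⟨2,[(6,0),(16,
  1)]⟩,⟨0,[]⟩⟩ ⟨false,1,⟨0,[(50,0)]⟩,⟨0,[(52,0)]⟩⟩]⟩)))) (.Q [0,0,0,0,0,0,0,0,0,-1,1,1] (.ed false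
  [0,0,1,0,1] (.r 0 ⟨1,[(13,0),(7,0),(7,0)]⟩ ⟨3,[(3,1),(15,1),(11,0),(0,0)]⟩)) (.I [0,2,0,-1,-1,0,0,
  1] (.Q [0,0,1,0,0,0,1,0,-1,0,1,-1] (.p false [0,0,-1,0,1] [] (⟨2,[(1,1),(2,4),(24,0),(7,0),(4,
  2)]⟩,⟨0,[(28,0),(7,0)]⟩) .k 0 (⟨0,[]⟩,⟨0,[]⟩) .k (.r 0 ⟨15,[(0,2),(4,3),(3,8),(0,1),(21,1),(8,4),
  (1,0)]⟩ ⟨2,[(14,0),(2,0),(1,0),(2,1)]⟩)) (.Q [0,1,-2,0,0,0,-1,0,1,0,-1,1] (.p true [0,0,-1,0,1]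
  [] (⟨2,[(2,1),(2,4),(24,0),(7,0),(4,2)]⟩,⟨0,[(29,0),(7,0)]⟩) .k 0 (⟨0,[]⟩,⟨0,[]⟩) .k (.r 0 ⟨15,
  [(1,2),(4,3),(3,8),(0,1),(21,1),(8,4),(1,0)]⟩ ⟨2,[(15,0),(2,0),(1,0),(2,1)]⟩)) (.R ⟨0,false,false,
  true,[0,-1,1],[0,0,0,0,1],[1],(⟨0,[(27,0)]⟩,⟨60,[(7,2),(16,5),(12,60),(1,6),(4,17),(0,8),(7,8)]⟩),
  (⟨0,[(31,0)]⟩,⟨0,[(30,0)]⟩),⟨2,[(6,0),(19,1),(12,0),(4,2)]⟩,.k,.k,(.r (-1) ⟨54,[(2,4),(4,2),(8,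
  42),(2,55),(5,27),(17,17),(2,13)]⟩ ⟨9,[(9,1),(1,11),(0,1),(2,3),(20,1),(8,0),(5,0)]⟩),(.r (-1) ⟨2,
  [(16,1),(2,1),(1,1),(2,0)]⟩ ⟨10,[(11,6),(0,1),(10,0),(10,3),(0,1),(7,2),(1,0)]⟩),.k,.k,⟨true,1,⟨0,
  [(51,0)]⟩,⟨0,[(2,0),(8,0)]⟩⟩,⟨false,1,⟨2,[(0,2),(6,0),(16,1)]⟩,⟨0,[(1,0)]⟩⟩,⟨true,0,⟨0,[(11,0)]⟩,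
  ⟨4,[(2,3),(13,1),(7,0),(25,0)]⟩⟩,⟨false,0,⟨0,[(20,0),(8,0)]⟩,⟨0,[(4,0),(14,0)]⟩⟩,⟨false,0,⟨0,[]⟩,
  ⟨0,[]⟩⟩,⟨false,0,⟨0,[]⟩,⟨0,[]⟩⟩,[.o ⟨false,0,⟨26,[(0,7),(1,8),(4,1),(4,12),(16,18),(4,4),(8,5),(2,
  6)]⟩,⟨0,[(4,0)]⟩⟩,.e ⟨false,1,⟨2,[(16,1),(6,0)]⟩,⟨0,[(53,0)]⟩⟩ ⟨false,0,⟨0,[(0,0)]⟩,⟨1,[(1,0),(26,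
  0),(6,0),(15,0)]⟩⟩,.a ⟨true,0,⟨0,[(35,0)]⟩,⟨0,[(32,0)]⟩⟩ ⟨true,0,⟨0,[]⟩,⟨0,[(53,0)]⟩⟩ ⟨false,0,⟨4,
  [(0,2),(28,1),(6,1),(6,0)]⟩,⟨0,[(1,0),(49,0)]⟩⟩,.e ⟨false,1,⟨2,[(16,1),(6,0)]⟩,⟨1,[(35,0),(0,
  0)]⟩⟩ ⟨false,0,⟨0,[(0,0)]⟩,⟨1,[(1,1),(33,0),(0,0),(14,1)]⟩⟩]⟩) (.I [0,0,0,0,0,-1,-1] (.I [0,-1,2]
  (.C [(0,0),(6,1),(1,0),(13,1),(23,0),(3,1)]) (.C [(0,0),(1,0),(20,0),(7,0)])) (.C [(0,0),(21,0),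
  (5,0)]))) (.S ⟨1,0,[0,-1,1],[1,1,0,0,-1],[0,0,1],(⟨60,[(6,2),(16,5),(5,60),(8,6),(4,17),(0,8),(7,
  8)]⟩,⟨1,[(2,0),(2,0),(24,0)]⟩),⟨0,[(29,0)]⟩,(.r (-1) ⟨11,[(6,1),(15,5),(0,3),(10,2),(0,2)]⟩ ⟨54,
  [(1,19),(4,11),(8,6),(2,3),(5,1),(17,16),(2,0)]⟩),.k,⟨false,0,⟨0,[(48,0)]⟩,⟨2,[(15,0),(6,1)]⟩⟩,
  ⟨true,0,⟨0,[(48,0)]⟩,⟨0,[(47,0)]⟩⟩,⟨true,0,⟨0,[(52,0)]⟩,⟨0,[]⟩⟩,⟨false,1,⟨2,[(6,0),(16,1)]⟩,⟨0,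
  []⟩⟩,[.o ⟨false,1,⟨1,[(3,0),(23,0)]⟩,⟨0,[(0,0),(9,0),(5,0),(31,0)]⟩⟩,.o ⟨false,1,⟨0,[(3,0)]⟩,⟨3,
  [(0,0),(0,0),(5,0),(3,1),(16,2),(4,0),(8,0),(2,0)]⟩⟩,.a ⟨true,0,⟨1,[(1,0),(1,1),(3,0),(0,0),(35,
  0),(1,0)]⟩,⟨1,[(28,1),(5,0),(0,0)]⟩⟩ ⟨true,0,⟨1,[(34,0),(0,0)]⟩,⟨3,[(7,0),(34,0),(3,0)]⟩⟩ ⟨false,
  1,⟨1,[(34,0),(0,0),(14,1)]⟩,⟨3,[(7,0),(34,0),(3,0)]⟩⟩,.e ⟨false,1,⟨2,[(6,0),(16,1)]⟩,⟨0,[]⟩⟩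
  ⟨false,1,⟨0,[(50,0)]⟩,⟨0,[(52,0)]⟩⟩]⟩)) (.Q [0,-1,-2,0,0,0,-2,-1,-1,2,-2,-1] (.p false [0,0,1] [2,
  0,-1,0,-1] (⟨0,[(36,0)]⟩,⟨0,[(35,0)]⟩) .k 2 (⟨0,[(28,0),(6,0)]⟩,⟨0,[(1,0)]⟩) .k (.r 0 ⟨3,[(13,1),
  (1,2),(1,1),(5,2),(7,0)]⟩ ⟨5,[(5,3),(3,3),(11,1),(11,0),(0,0)]⟩)) (.R ⟨0,false,false,true,[0,-1,
  1],[2,0,-1,0,-1],[1],(⟨0,[(26,0)]⟩,⟨60,[(6,2),(16,5),(12,60),(1,6),(4,17),(0,8),(7,8)]⟩),(⟨0,[(29,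
  0),(6,0)]⟩,⟨0,[(2,0)]⟩),⟨2,[(5,0),(19,1),(12,0),(4,2)]⟩,.k,.k,(.r (-1) ⟨39,[(6,1),(0,4),(7,26),(2,
  43),(5,21),(17,11),(2,10)]⟩ ⟨9,[(8,1),(1,11),(0,1),(2,3),(20,1),(8,0),(5,0)]⟩),(.r 0 ⟨1,[(7,0),(6,
  0),(1,0),(1,1),(1,0),(3,0)]⟩ ⟨3,[(6,1),(3,3),(11,1),(11,0),(0,0)]⟩),.k,.k,⟨true,0,⟨1,[(14,0),(3,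
  0),(1,0)]⟩,⟨0,[(10,0),(37,0)]⟩⟩,⟨false,0,⟨1,[(0,1),(15,0),(7,0),(7,0)]⟩,⟨0,[(1,0),(8,0),(5,1),(11,
  0),(19,1)]⟩⟩,⟨true,0,⟨0,[(10,0)]⟩,⟨1,[(7,0),(8,0),(1,0),(5,0)]⟩⟩,⟨false,0,⟨11,[(0,9),(2,0),(6,13),
  (16,0),(7,3),(8,1),(3,1),(2,1)]⟩,⟨0,[(17,0),(0,0),(9,0),(16,0)]⟩⟩,⟨false,0,⟨0,[]⟩,⟨0,[]⟩⟩,⟨false,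
  0,⟨0,[]⟩,⟨0,[]⟩⟩,[.o ⟨false,0,⟨0,[(0,0),(10,0),(36,0)]⟩,⟨0,[(17,0),(10,0),(16,0)]⟩⟩,.e ⟨false,1,
  ⟨2,[(15,1),(6,0)]⟩,⟨0,[(52,0)]⟩⟩ ⟨false,0,⟨0,[(0,0)]⟩,⟨8,[(6,0),(4,5),(1,1),(4,4),(4,0),(4,8),(3,
  4),(12,4)]⟩⟩,.a ⟨true,0,⟨0,[(34,0)]⟩,⟨0,[(31,0)]⟩⟩ ⟨true,0,⟨0,[]⟩,⟨0,[(52,0)]⟩⟩ ⟨false,0,⟨11,[(0,
  9),(2,0),(6,1),(16,0),(7,3),(8,1),(3,1),(2,1)]⟩,⟨0,[(17,0),(10,0),(5,0),(10,0)]⟩⟩,.e ⟨false,1,⟨2,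
  [(15,1),(6,0)]⟩,⟨1,[(34,0),(0,0)]⟩⟩ ⟨false,0,⟨0,[(0,0)]⟩,⟨1,[(11,1),(6,1),(9,1),(16,0),(4,
  0)]⟩⟩]⟩) (.Q [0,1,0,0,0,0,0,0,1,-1,0,1] (.p true [0,0,0,0,1] [1] (⟨0,[(30,0)]⟩,⟨0,[(29,0)]⟩) .k 1
  (⟨0,[]⟩,⟨0,[]⟩) .k .k) (.S ⟨1,0,[0,-1,1],[1,1,0,0,-1],[0,0,1],(⟨60,[(7,2),(16,5),(5,60),(8,6),(4,
  17),(0,8),(7,8)]⟩,⟨1,[(3,0),(2,0),(24,0)]⟩),⟨0,[(30,0)]⟩,(.r (-1) ⟨11,[(7,1),(15,5),(0,3),(10,2),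
  (0,2)]⟩ ⟨2,[(8,0),(34,0),(5,1)]⟩),.k,⟨false,0,⟨0,[(49,0)]⟩,⟨2,[(16,0),(6,1)]⟩⟩,⟨true,0,⟨0,[(49,
  0)]⟩,⟨0,[(48,0)]⟩⟩,⟨true,0,⟨0,[(53,0)]⟩,⟨0,[]⟩⟩,⟨false,1,⟨2,[(7,0),(16,1)]⟩,⟨0,[]⟩⟩,[.o ⟨false,1,
  ⟨1,[(4,0),(23,0)]⟩,⟨0,[(0,0)]⟩⟩,.o ⟨false,1,⟨0,[(4,0)]⟩,⟨8,[(0,5),(0,1),(23,0),(3,0),(4,1),(8,
  3)]⟩⟩,.a ⟨true,0,⟨0,[(4,0),(0,0),(2,0),(0,0),(11,0),(23,0),(3,1)]⟩,⟨1,[(29,1),(5,0),(0,0)]⟩⟩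
  ⟨true,0,⟨1,[(35,0),(0,0)]⟩,⟨3,[(8,0),(34,0),(3,0)]⟩⟩ ⟨false,1,⟨1,[(35,0),(0,0),(14,1)]⟩,⟨3,[(8,0),
  (34,0),(3,0)]⟩⟩,.e ⟨false,1,⟨2,[(7,0),(16,1)]⟩,⟨0,[]⟩⟩ ⟨false,1,⟨0,[(51,0)]⟩,⟨0,[(53,0)]⟩⟩]⟩) (.R
  ⟨2,false,false,true,[0,1],[1,0,0,0,-1],[0,0,1],(⟨0,[]⟩,⟨0,[]⟩),(⟨0,[(30,0)]⟩,⟨0,[(31,0)]⟩),⟨0,[]⟩,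
  .k,.k,.k,(.r 0 ⟨7,[(11,0),(0,1),(9,2),(0,0),(10,1),(8,0),(1,0)]⟩ ⟨3,[(7,0),(8,1),(2,0),(4,0),(11,
  0)]⟩),.k,.k,⟨true,0,⟨1,[(35,0),(0,0)]⟩,⟨0,[]⟩⟩,⟨false,0,⟨7,[(0,6),(11,0),(15,0),(7,0),(6,2),(1,0),
  (3,0)]⟩,⟨1,[(29,1),(16,0),(3,0)]⟩⟩,⟨true,0,⟨0,[(49,0)]⟩,⟨0,[(48,0)]⟩⟩,⟨false,0,⟨0,[(0,0),(48,0)]⟩,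
  ⟨30,[(5,0),(7,3),(6,0),(2,13),(5,30),(13,5),(2,12)]⟩⟩,⟨false,1,⟨2,[(7,0),(16,1)]⟩,⟨0,[]⟩⟩,⟨false,
  0,⟨0,[(0,0)]⟩,⟨20,[(1,1),(5,3),(16,7),(0,0),(3,18),(4,1),(8,3),(2,8)]⟩⟩,[.a ⟨true,0,⟨7,[(0,6),(11,
  0),(15,0),(7,0),(6,2),(1,0),(3,0)]⟩,⟨0,[(29,0)]⟩⟩ ⟨true,0,⟨1,[(35,0),(0,0)]⟩,⟨0,[]⟩⟩ ⟨false,0,⟨7,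
  [(0,6),(11,0),(15,0),(7,0),(6,2),(1,0),(3,0)]⟩,⟨1,[(29,1),(16,0),(3,0)]⟩⟩,.e ⟨false,1,⟨2,[(7,0),
  (16,1)]⟩,⟨3,[(8,0),(34,0),(3,0)]⟩⟩ ⟨false,0,⟨0,[(0,0)]⟩,⟨17,[(7,1),(16,3),(4,17),(13,11),(2,8),(3,
  2)]⟩⟩,.o ⟨false,1,⟨1,[(46,0),(3,0)]⟩,⟨1,[(35,0),(0,0)]⟩⟩,.fo]⟩)))) (.I [1,2,0,0,-1,0,0,1] (.Q [0,
  1,0,0,0,0,0,0,1,-1,0,1] (.p true [0,0,0,0,1] [1] (⟨0,[(29,0)]⟩,⟨0,[(28,0)]⟩) .k 1 (⟨0,[]⟩,⟨0,[]⟩)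
  .k .k) (.S ⟨1,0,[0,2,1],[0,1,0,0,1],[1,1,1,1],(⟨60,[(6,2),(16,5),(6,60),(7,6),(4,17),(0,8),(7,
  8)]⟩,⟨0,[(2,0),(23,0)]⟩),⟨0,[(30,0)]⟩,(.r 0 ⟨7,[(10,0),(0,1),(9,2),(0,0),(10,1),(8,0),(1,0)]⟩ ⟨3,
  [(6,0),(8,1),(2,0),(4,0),(11,0)]⟩),.k,⟨true,0,⟨0,[]⟩,⟨0,[(52,0)]⟩⟩,⟨false,0,⟨0,[(48,0)]⟩,⟨2,[(15,
  0),(6,1)]⟩⟩,⟨false,1,⟨2,[(15,0),(6,1)]⟩,⟨0,[(48,0)]⟩⟩,⟨true,0,⟨0,[(52,0)]⟩,⟨0,[]⟩⟩,[.o ⟨false,0,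
  ⟨0,[(0,0),(51,0)]⟩,⟨0,[(3,0)]⟩⟩,.o ⟨false,0,⟨0,[(0,0)]⟩,⟨1,[(3,0),(23,0)]⟩⟩,.o ⟨false,1,⟨2,[(0,2),
  (14,1),(6,0)]⟩,⟨0,[(1,0),(1,0),(6,0),(37,0)]⟩⟩,.a ⟨true,0,⟨0,[(28,0)]⟩,⟨23,[(1,15),(1,20),(2,3),
  (1,7),(18,2),(16,11),(7,13)]⟩⟩ ⟨true,0,⟨0,[(47,0)]⟩,⟨0,[(48,0)]⟩⟩ ⟨false,0,⟨0,[(52,0)]⟩,⟨0,[(50,
  0)]⟩⟩]⟩) (.R ⟨2,false,false,true,[0,1],[1,0,0,0,-1],[0,0,1],(⟨0,[]⟩,⟨0,[]⟩),(⟨0,[(29,0)]⟩,⟨0,[(30,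
  0)]⟩),⟨0,[]⟩,.k,.k,.k,(.r 0 ⟨7,[(10,0),(0,1),(9,2),(0,0),(10,1),(8,0),(1,0)]⟩ ⟨3,[(6,0),(8,1),(2,
  0),(4,0),(11,0)]⟩),.k,.k,⟨true,0,⟨1,[(34,0),(0,0)]⟩,⟨0,[]⟩⟩,⟨false,0,⟨7,[(0,5),(0,0),(25,1),(5,0),
  (0,0),(7,0),(1,0),(7,0)]⟩,⟨1,[(28,1),(16,0),(3,0)]⟩⟩,⟨true,0,⟨0,[(48,0)]⟩,⟨0,[(47,0)]⟩⟩,⟨false,0,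
  ⟨0,[(0,0),(47,0)]⟩,⟨30,[(4,0),(7,3),(6,0),(2,13),(5,30),(13,5),(2,12)]⟩⟩,⟨false,1,⟨2,[(6,0),(16,
  1)]⟩,⟨0,[]⟩⟩,⟨false,0,⟨0,[(0,0)]⟩,⟨1,[(27,0),(0,2),(16,0)]⟩⟩,[.a ⟨true,0,⟨7,[(0,5),(0,0),(25,1),
  (5,0),(0,0),(7,0),(1,0),(7,0)]⟩,⟨0,[(28,0)]⟩⟩ ⟨true,0,⟨1,[(34,0),(0,0)]⟩,⟨0,[]⟩⟩ ⟨false,0,⟨7,[(0,
  5),(0,0),(25,1),(5,0),(0,0),(7,0),(1,0),(7,0)]⟩,⟨1,[(28,1),(16,0),(3,0)]⟩⟩,.e ⟨false,1,⟨2,[(6,0),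
  (16,1)]⟩,⟨3,[(7,0),(34,0),(3,0)]⟩⟩ ⟨false,0,⟨0,[(0,0)]⟩,⟨17,[(6,1),(16,3),(4,17),(13,11),(2,8),(3,
  2)]⟩⟩,.o ⟨false,1,⟨1,[(45,0),(3,0)]⟩,⟨1,[(34,0),(0,0)]⟩⟩,.fo]⟩)) (.Q [0,-1,0,0,0,0,0,0,-1,1,0,-1]
  (.p false [0,0,0,0,1] [1] (⟨0,[(29,0)]⟩,⟨0,[(28,0)]⟩) .k 1 (⟨0,[]⟩,⟨0,[]⟩) .k .k) (.R ⟨2,false,
  false,true,[0,1],[1,0,0,0,-1],[0,0,1],(⟨0,[]⟩,⟨0,[]⟩),(⟨0,[(29,0)]⟩,⟨0,[(30,0)]⟩),⟨0,[]⟩,.k,.k,.k,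
  (.r 0 ⟨7,[(10,0),(0,1),(9,2),(0,0),(10,1),(8,0),(1,0)]⟩ ⟨3,[(6,0),(8,1),(2,0),(4,0),(11,0)]⟩),.k,
  .k,⟨true,0,⟨1,[(34,0),(0,0)]⟩,⟨0,[]⟩⟩,⟨false,0,⟨7,[(0,6),(10,0),(15,0),(7,0),(6,2),(1,0),(3,0)]⟩,
  ⟨1,[(28,1),(16,0),(3,0)]⟩⟩,⟨true,0,⟨0,[(48,0)]⟩,⟨0,[(47,0)]⟩⟩,⟨false,0,⟨0,[(0,0),(47,0)]⟩,⟨30,[(4,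
  0),(7,3),(6,0),(2,13),(5,30),(13,5),(2,12)]⟩⟩,⟨false,1,⟨2,[(6,0),(16,1)]⟩,⟨0,[]⟩⟩,⟨false,0,⟨0,[(0,
  0)]⟩,⟨1,[(27,0),(0,2),(16,0)]⟩⟩,[.a ⟨true,0,⟨7,[(0,6),(10,0),(15,0),(7,0),(6,2),(1,0),(3,0)]⟩,⟨0,
  [(28,0)]⟩⟩ ⟨true,0,⟨1,[(34,0),(0,0)]⟩,⟨0,[]⟩⟩ ⟨false,0,⟨7,[(0,6),(10,0),(15,0),(7,0),(6,2),(1,0),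
  (3,0)]⟩,⟨1,[(28,1),(16,0),(3,0)]⟩⟩,.e ⟨false,1,⟨2,[(6,0),(16,1)]⟩,⟨3,[(7,0),(34,0),(3,0)]⟩⟩
  ⟨false,0,⟨0,[(0,0)]⟩,⟨17,[(6,1),(16,3),(4,17),(13,11),(2,8),(3,2)]⟩⟩,.o ⟨false,1,⟨1,[(45,0),(3,
  0)]⟩,⟨1,[(34,0),(0,0)]⟩⟩,.fo]⟩) (.R ⟨1,false,false,true,[0,0,1,0,1],[0,0,0,0,1],[0,1,0,-1,0,0,0,
  1],(⟨0,[(30,0),(6,0)]⟩,⟨0,[(2,0)]⟩),(⟨0,[(30,0)]⟩,⟨0,[(29,0)]⟩),⟨0,[(26,0),(3,0)]⟩,.k,.k,(.r 0 ⟨1,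
  [(7,0),(8,0),(1,0),(5,0)]⟩ ⟨2,[(6,0),(3,0),(11,1),(11,0),(0,0)]⟩),.k,.k,.k,⟨false,1,⟨2,[(15,1),(2,
  1),(1,1),(2,0)]⟩,⟨3,[(7,0),(2,3),(31,0),(3,0)]⟩⟩,⟨true,0,⟨0,[(20,0)]⟩,⟨0,[(34,0)]⟩⟩,⟨true,0,⟨0,
  [(48,0)]⟩,⟨0,[(47,0)]⟩⟩,⟨true,0,⟨0,[(33,0)]⟩,⟨0,[(17,0)]⟩⟩,⟨false,1,⟨2,[(6,0),(16,1)]⟩,⟨0,[]⟩⟩,
  ⟨true,0,⟨0,[(19,0)]⟩,⟨0,[(18,0)]⟩⟩,[.o ⟨false,0,⟨0,[(0,0),(51,0)]⟩,⟨0,[(3,0)]⟩⟩,.o ⟨false,0,⟨0,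
  [(0,0)]⟩,⟨1,[(3,0),(23,0)]⟩⟩,.e ⟨false,0,⟨0,[(18,0),(1,0)]⟩,⟨3,[(1,0),(4,0),(3,0),(11,1),(23,
  0)]⟩⟩ ⟨false,0,⟨1,[(20,0),(14,0),(6,0)]⟩,⟨0,[(1,0),(15,0)]⟩⟩,.a ⟨true,0,⟨0,[(28,0),(5,0)]⟩,⟨0,[(3,
  0),(0,0),(2,0),(0,0),(11,1),(23,0),(3,1)]⟩⟩ ⟨true,0,⟨1,[(7,0),(8,0),(1,0),(5,0)]⟩,⟨0,[(10,0)]⟩⟩
  ⟨false,0,⟨3,[(7,0),(12,3),(21,0),(3,0)]⟩,⟨0,[(34,0),(15,0)]⟩⟩]⟩)))))))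

theorem ok84 : chk K t84 l54 = true := by decide +kernel


end Helper25.S1T.Ymp_1cP3
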