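import Pool.Agent.Helper25.S1T.Ymp_1cP3_q

set_option autoImplicit false
set_option linter.all false

namespace Helper25.S1T.Ymp_1cP3

open Helper25.KG Helper25.KW Helper55.KE Helper11.CT

noncomputable def t85 : Tre :=
  (.Q [0,0,-2,0,1,0,1,0,0,-1,1] (.p true [0,0,1] [1] (⟨0,[(31,0)]⟩,⟨0,[(30,0)]⟩) .k 1 (⟨0,[]⟩,⟨0,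
  []⟩) .k .k) (.Q [0,0,0,0,0,-2,0,0,0,1,-1] (.p false [0,0,1] [1] (⟨0,[(32,0)]⟩,⟨0,[(31,0)]⟩) .k 1
  (⟨0,[]⟩,⟨0,[]⟩) .k .k) (.Q [0,-1,0,-2,0,0,-1,-1,0,1,-1] (.p false [0,0,1] [1] (⟨0,[(33,0)]⟩,⟨0,
  [(32,0)]⟩) .k 1 (⟨0,[]⟩,⟨0,[]⟩) .k .k) (.R ⟨1,false,false,true,[1,-1],[0,0,1],[0,1,1],(⟨0,[(37,
  0)]⟩,⟨0,[(38,0)]⟩),(⟨0,[(34,0)]⟩,⟨0,[(33,0)]⟩),⟨1,[(1,0),(21,0),(13,0)]⟩,.k,.k,(.r (-1) ⟨3,[(0,1),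
  (11,2),(2,0),(13,0),(9,1),(2,0)]⟩ ⟨7,[(0,0),(2,2),(3,4),(0,0),(10,2)]⟩),.k,(.r (-1) ⟨1,[(0,1),(1,
  0),(7,0),(28,0)]⟩ ⟨17,[(0,2),(2,9),(4,2),(10,8),(0,0)]⟩),.k,⟨true,0,⟨0,[(7,0),(37,0)]⟩,⟨2,[(3,0),
  (8,0),(2,0),(1,0)]⟩⟩,⟨false,1,⟨0,[(2,0)]⟩,⟨5,[(0,2),(7,0),(9,2),(0,0),(1,1),(19,0)]⟩⟩,⟨false,0,
  ⟨15,[(0,6),(2,4),(3,2),(0,6),(10,4)]⟩,⟨0,[(12,0)]⟩⟩,⟨true,0,⟨0,[(6,0)]⟩,⟨5,[(0,3),(18,0),(10,1),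
  (8,0),(1,0),(7,0)]⟩⟩,⟨false,0,⟨7,[(0,0),(2,2),(3,4),(0,0),(10,2)]⟩,⟨5,[(0,1),(3,0),(7,4),(2,1),
  (26,0)]⟩⟩,⟨false,1,⟨5,[(2,2),(0,0),(2,2),(12,2),(0,0)]⟩,⟨0,[(0,0)]⟩⟩,[.o ⟨false,0,⟨0,[(13,0)]⟩,⟨0,
  [(30,0),(16,0)]⟩⟩,.a ⟨true,0,⟨0,[(14,0)]⟩,⟨6,[(0,2),(4,1),(10,1),(2,0),(8,1),(10,0),(1,0)]⟩⟩
  ⟨true,0,⟨8,[(0,2),(2,0),(4,2),(11,0)]⟩,⟨0,[]⟩⟩ ⟨false,1,⟨0,[(9,0),(4,0)]⟩,⟨4,[(0,2),(4,0),(1,0),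
  (10,1),(0,0),(10,1),(10,0)]⟩⟩,.o ⟨false,0,⟨8,[(0,2),(2,0),(4,2),(11,0)]⟩,⟨1,[(42,0),(3,0)]⟩⟩,.o
  ⟨false,0,⟨8,[(0,5),(2,1),(4,5),(11,1)]⟩,⟨0,[(9,0)]⟩⟩]⟩) (.I [0,-1,2,1,0,0,0,1] (.Q [0,0,0,2,0,0,1,
  1,0,0,1] (.p true [0,0,1] [] (⟨0,[(35,0)]⟩,⟨0,[(34,0)]⟩) .k 0 (⟨0,[]⟩,⟨0,[]⟩) .k .k) (.S ⟨1,0,[0,
  0,-1,-2,0,0,0,-1],[1,-1,-1],[1,1,-1,-1,0,0,0,-1],(⟨0,[(24,0)]⟩,⟨22,[(26,2),(0,2),(8,22),(0,4),(4,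
  5),(0,2)]⟩),⟨0,[(3,0)]⟩,.k,(.r (-1) ⟨1,[(6,0),(2,0),(4,1),(17,0),(0,0),(13,1)]⟩ ⟨41,[(1,8),(3,14),
  (4,7),(9,2),(0,16),(1,3),(19,1)]⟩),⟨false,0,⟨0,[]⟩,⟨1,[(26,0),(0,0),(21,0)]⟩⟩,⟨true,0,⟨0,[(47,
  0)]⟩,⟨0,[(46,0)]⟩⟩,⟨true,0,⟨0,[(46,0)]⟩,⟨0,[(47,0)]⟩⟩,⟨false,1,⟨1,[(26,0),(0,0),(21,0)]⟩,⟨0,[]⟩⟩,
  [.a ⟨true,0,⟨1,[(32,1),(10,0),(3,3),(1,0)]⟩,⟨0,[(0,0)]⟩⟩ ⟨true,0,⟨0,[(6,0),(2,0),(37,0)]⟩,⟨0,[(1,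
  0)]⟩⟩ ⟨false,1,⟨1,[(6,0),(2,0),(4,1),(17,0),(0,0),(13,1)]⟩,⟨2,[(0,0),(4,0),(13,0),(1,0)]⟩⟩,.o
  ⟨false,1,⟨0,[(32,0),(14,1),(1,0)]⟩,⟨0,[(2,0)]⟩⟩,.o ⟨false,0,⟨0,[(34,0)]⟩,⟨0,[(12,0)]⟩⟩,.o ⟨false,
  0,⟨1,[(33,0),(0,2)]⟩,⟨0,[(4,0)]⟩⟩]⟩) (.I [0,0,0,0,1,0,0,0,-1] (.I [0,0,0,0,0,-1,-1] (.I [0,0,-2,0,
  1,0,0,0,1] (.I [1,0,0,0,0,3,0,0,1] (.I [3,0,-4,0,1] (.I [4,0,-2,0,0,3] (.I [0,0,0,-2,0,-1,-1,-1]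
  (.I [0,0,-2,0,1,-2,1] (.I [5,0,0,0,-1,6] (.I [0,1,0,2,0,-2,1,1] (.C [(0,1),(2,1),(48,1),(0,0),(5,
  0)]) (.C [(0,0),(11,0),(0,0)])) (.C [(0,0),(50,1),(0,0)])) (.C [(0,0),(10,0),(0,0)])) (.C [(0,0),
  (6,0),(24,0)])) (.C [(0,0),(9,0),(14,0),(22,0),(0,0)])) (.C [(0,0),(8,1),(14,1),(23,0)])) (.C [(0,
  0),(30,0),(0,0),(13,0)])) (.C [(0,0),(6,0),(14,0),(7,0),(0,0)])) (.C [(0,0),(20,0),(5,0)])) (.C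
  [(0,0),(26,0),(2,0)]))) (.Q [0,-2,0,0,1,0,0,0,-1,0,0,-1] (.p false [0,0,0,0,1] [] (⟨0,[(28,0)]⟩,
  ⟨0,[(27,0)]⟩) .k 0 (⟨0,[]⟩,⟨0,[]⟩) .k .k) (.Q [0,0,1,0,0,0,1,0,-1,0,1,-1] (.p true [0,0,1] [0,0,0,
  0,1] (⟨0,[(36,0)]⟩,⟨0,[(35,0)]⟩) .k 2 (⟨0,[(29,0)]⟩,⟨0,[(28,0)]⟩) .k (.r (-1) ⟨35,[(5,1),(8,11),
  (2,11),(4,19),(0,5),(20,2),(4,2)]⟩ ⟨6,[(1,1),(7,1),(22,2),(0,2),(7,0)]⟩)) (.R ⟨0,false,false,true,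
  [0,-1,1],[0,0,0,0,1],[1],(⟨0,[(26,0)]⟩,⟨22,[(27,2),(0,2),(7,22),(1,4),(4,5),(0,2)]⟩),(⟨0,[(30,
  0)]⟩,⟨0,[(29,0)]⟩),⟨2,[(4,0),(20,1),(12,0),(4,2)]⟩,.k,.k,(.r (-1) ⟨11,[(7,0),(7,8),(2,11),(5,5),
  (17,3),(2,2),(2,1)]⟩ ⟨11,[(6,1),(3,15),(11,1),(11,0),(0,0)]⟩),(.r (-1) ⟨17,[(6,1),(8,11),(2,11),
  (4,1),(0,5),(20,2),(4,2)]⟩ ⟨10,[(10,6),(0,1),(10,0),(10,3),(0,1),(7,2),(1,0)]⟩),.k,.k,⟨true,1,⟨0,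
  [(50,0)]⟩,⟨0,[(2,0),(3,0),(3,0),(37,1)]⟩⟩,⟨false,1,⟨1,[(12,0),(11,0),(3,1),(20,0)]⟩,⟨0,[(0,0)]⟩⟩,
  ⟨true,0,⟨0,[(10,0)]⟩,⟨1,[(7,0),(8,0),(1,0),(5,0)]⟩⟩,⟨false,0,⟨0,[(19,0),(8,0)]⟩,⟨0,[(1,0),(16,
  0)]⟩⟩,⟨false,0,⟨0,[]⟩,⟨0,[]⟩⟩,⟨false,0,⟨0,[]⟩,⟨0,[]⟩⟩,[.o ⟨false,0,⟨0,[(16,0),(11,0),(4,0)]⟩,⟨0,
  [(1,0)]⟩⟩,.e ⟨false,1,⟨2,[(15,1),(6,0)]⟩,⟨0,[(52,0)]⟩⟩ ⟨false,0,⟨0,[(2,0),(11,0),(5,0),(7,0)]⟩,⟨1,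
  [(0,0),(26,0),(6,0),(15,0)]⟩⟩,.a ⟨true,0,⟨0,[(34,0)]⟩,⟨0,[(31,0)]⟩⟩ ⟨true,0,⟨0,[]⟩,⟨0,[(52,0)]⟩⟩
  ⟨false,0,⟨8,[(6,0),(0,3),(4,0),(6,1),(0,4),(3,0),(3,8),(13,0)]⟩,⟨0,[(0,0),(49,0)]⟩⟩,.e ⟨false,1,
  ⟨2,[(15,1),(6,0)]⟩,⟨1,[(34,0),(0,0)]⟩⟩ ⟨false,0,⟨0,[(2,0),(11,0),(5,0),(7,0)]⟩,⟨1,[(0,1),(33,0),
  (0,0),(14,1)]⟩⟩]⟩) (.R ⟨0,false,false,false,[0,-1,1],[0,0,0,0,1],[1],(⟨0,[(26,0)]⟩,⟨22,[(27,2),(0,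
  2),(7,22),(1,4),(4,5),(0,2)]⟩),(⟨0,[(30,0)]⟩,⟨0,[(29,0)]⟩),⟨2,[(4,0),(20,1),(12,0),(4,2)]⟩,.k,.k,
  (.r (-1) ⟨11,[(7,0),(7,8),(2,11),(5,5),(17,3),(2,2),(2,1)]⟩ ⟨11,[(6,1),(3,15),(11,1),(11,0),(0,
  0)]⟩),(.r (-1) ⟨17,[(6,1),(8,11),(2,11),(4,1),(0,5),(20,2),(4,2)]⟩ ⟨10,[(10,6),(0,1),(10,0),(10,
  3),(0,1),(7,2),(1,0)]⟩),.k,.k,⟨false,1,⟨2,[(15,1),(6,0)]⟩,⟨0,[(52,0)]⟩⟩,⟨true,0,⟨0,[(0,0)]⟩,⟨1,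
  [(1,1),(0,0),(3,0),(3,1),(0,0),(4,0),(27,0),(3,3)]⟩⟩,⟨true,0,⟨0,[(10,0)]⟩,⟨1,[(7,0),(8,0),(1,0),
  (5,0)]⟩⟩,⟨false,0,⟨0,[(0,0),(9,0)]⟩,⟨1,[(1,0),(16,1),(8,0)]⟩⟩,⟨false,0,⟨0,[]⟩,⟨0,[]⟩⟩,⟨false,0,⟨0,
  []⟩,⟨0,[]⟩⟩,[.o ⟨false,0,⟨0,[(0,0),(9,0),(5,0),(31,0)]⟩,⟨1,[(1,0),(25,0)]⟩⟩,.a ⟨true,0,⟨0,[(28,
  0)]⟩,⟨11,[(1,6),(0,7),(3,5),(1,3),(18,4),(16,5),(3,7)]⟩⟩ ⟨false,1,⟨2,[(15,1),(6,0)]⟩,⟨0,[(52,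
  0)]⟩⟩ ⟨true,0,⟨0,[(0,0)]⟩,⟨1,[(1,1),(0,0),(3,0),(3,1),(0,0),(4,0),(27,0),(3,3)]⟩⟩,.a ⟨true,0,⟨0,
  [(34,0)]⟩,⟨0,[(31,0)]⟩⟩ ⟨true,0,⟨0,[]⟩,⟨0,[(52,0)]⟩⟩ ⟨false,0,⟨0,[(0,0)]⟩,⟨1,[(1,0),(25,0),(6,
  1)]⟩⟩,.a ⟨true,0,⟨1,[(34,2),(0,0)]⟩,⟨67,[(0,40),(0,40),(0,43),(1,2),(1,21),(0,7),(18,2),(4,26),(6,
  8),(5,18),(1,7)]⟩⟩ ⟨false,1,⟨2,[(15,1),(6,0)]⟩,⟨1,[(34,0),(0,0)]⟩⟩ ⟨true,0,⟨3,[(0,3),(6,0),(34,0),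
  (3,0)]⟩,⟨1,[(1,1),(0,0),(3,0),(3,1),(0,0),(4,0),(27,0),(3,3)]⟩⟩]⟩)) (.Q [0,1,-2,0,-1,0,-1,0,1,0,
  -1,1] (.p false [0,0,1] [0,0,0,0,1] (⟨0,[(36,0)]⟩,⟨0,[(35,0)]⟩) .k 2 (⟨0,[(29,0)]⟩,⟨0,[(28,0)]⟩)
  .k (.r (-1) ⟨35,[(5,1),(8,11),(2,11),(4,19),(0,5),(20,2),(4,2)]⟩ ⟨6,[(1,1),(7,1),(22,2),(0,2),(7,
  0)]⟩)) (.R ⟨0,false,false,false,[0,-1,1],[0,0,0,0,1],[1,1],(⟨0,[(26,0)]⟩,⟨22,[(27,2),(0,2),(7,22),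
  (1,4),(4,5),(0,2)]⟩),(⟨0,[(30,0)]⟩,⟨0,[(29,0)]⟩),⟨2,[(4,0),(20,1),(12,0),(4,2)]⟩,.k,.k,(.r (-1)
  ⟨11,[(7,0),(7,8),(2,11),(5,5),(17,3),(2,2),(2,1)]⟩ ⟨11,[(6,1),(3,15),(11,1),(11,0),(0,0)]⟩),(.r
  (-1) ⟨17,[(6,1),(8,11),(2,11),(4,1),(0,5),(20,2),(4,2)]⟩ ⟨10,[(10,6),(0,1),(10,0),(10,3),(0,1),(7,
  2),(1,0)]⟩),.k,.k,⟨true,0,⟨0,[]⟩,⟨1,[(34,0),(0,0)]⟩⟩,⟨false,0,⟨17,[(0,11),(11,2),(2,3),(6,1),(1,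
  2),(3,5),(21,2)]⟩,⟨0,[(27,0),(6,0)]⟩⟩,⟨false,0,⟨0,[(10,0)]⟩,⟨17,[(6,1),(8,11),(2,11),(4,1),(0,5),
  (20,2),(4,2)]⟩⟩,⟨true,(-1),⟨1,[(0,1),(9,1),(23,0),(0,0)]⟩,⟨0,[(18,0),(8,0)]⟩⟩,⟨false,0,⟨0,[]⟩,⟨0,
  []⟩⟩,⟨false,0,⟨0,[]⟩,⟨0,[]⟩⟩,[.e ⟨false,0,⟨3,[(7,0),(34,0),(3,0)]⟩,⟨1,[(27,0),(0,0),(21,0)]⟩⟩
  ⟨false,(-1),⟨0,[(0,0)]⟩,⟨1,[(27,2),(0,0),(5,1),(15,0)]⟩⟩,.o ⟨false,0,⟨0,[(0,0),(10,0),(36,0),(1,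
  0)]⟩,⟨0,[(27,0)]⟩⟩,.a ⟨true,0,⟨0,[(34,0)]⟩,⟨0,[(31,0)]⟩⟩ ⟨false,0,⟨0,[]⟩,⟨1,[(27,0),(0,0),(21,
  0)]⟩⟩ ⟨true,(-1),⟨1,[(0,1),(33,0),(0,0)]⟩,⟨0,[(27,0),(6,0)]⟩⟩,.e ⟨true,0,⟨3,[(7,0),(34,0),(3,0)]⟩,
  ⟨1,[(34,0),(0,0)]⟩⟩ ⟨true,(-1),⟨0,[(0,0)]⟩,⟨1,[(27,1),(6,2),(0,0)]⟩⟩]⟩) (.Q [0,0,1,0,0,0,0,0,-1,1,
  0,-1] (.p false [0,0,0,0,1] [1] (⟨0,[(30,0)]⟩,⟨0,[(29,0)]⟩) .k 1 (⟨0,[]⟩,⟨0,[]⟩) .k .k) (.Q [0,0,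
  0,1,0,0,0,1,-1,1,0,-1] (.p false [0,0,0,0,1] [1] (⟨0,[(31,0)]⟩,⟨0,[(30,0)]⟩) .k 1 (⟨0,[]⟩,⟨0,[]⟩)
  .k .k) (.Q [0,0,0,0,0,0,0,0,0,0,-1,1] (.ed false [1,0,-1,0,1] (.r 0 ⟨12,[(2,2),(0,2),(0,4),(7,4),
  (22,2),(8,0)]⟩ ⟨35,[(8,1),(8,11),(2,11),(4,19),(0,5),(20,2),(4,2)]⟩)) (.Q [0,0,-1,0,0,0,-1,0,-1,1,
  -1,-1] (.p false [0,0,1] [1,0,0,0,-1] (⟨0,[(40,0)]⟩,⟨0,[(39,0)]⟩) .k 2 (⟨0,[(32,0)]⟩,⟨0,[(33,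
  0)]⟩) .k (.r 0 ⟨1,[(19,0),(7,0),(7,0)]⟩ ⟨15,[(3,3),(1,6),(7,4),(11,0),(5,3),(4,3),(16,10)]⟩)) (.Q
  [0,0,-1,0,0,0,0,0,-1,1,0,-1] (.p false [0,0,0,0,1] [1] (⟨0,[(34,0)]⟩,⟨0,[(33,0)]⟩) .k 1 (⟨0,[]⟩,
  ⟨0,[]⟩) .k .k) (.S ⟨1,0,[0,-1,1],[1,1,0,0,-1],[1,0,1,1],(⟨175,[(5,11),(23,5),(3,11),(0,175),(8,
  31),(3,5),(0,47),(0,20),(4,8)]⟩,⟨0,[(2,0),(28,0)]⟩),⟨0,[(34,0)]⟩,(.r (-1) ⟨4,[(5,0),(21,1),(0,0),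
  (4,0),(4,0),(16,0)]⟩ ⟨2,[(12,0),(34,0),(5,1)]⟩),.k,⟨false,0,⟨0,[]⟩,⟨14,[(5,2),(14,4),(6,0),(0,2),
  (4,2),(4,2),(16,2)]⟩⟩,⟨true,0,⟨0,[(53,0)]⟩,⟨0,[(52,0)]⟩⟩,⟨true,0,⟨0,[(52,0)]⟩,⟨0,[(53,0)]⟩⟩,
  ⟨false,1,⟨14,[(5,2),(14,4),(6,0),(0,2),(4,2),(4,2),(16,2)]⟩,⟨0,[]⟩⟩,[.o ⟨false,1,⟨2,[(0,0),(0,0),
  (3,0),(44,0),(4,0)]⟩,⟨1,[(6,0),(26,0),(16,0)]⟩⟩,.e ⟨false,1,⟨2,[(20,0),(6,1)]⟩,⟨2,[(12,0),(34,0),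
  (5,1)]⟩⟩ ⟨false,1,⟨0,[(55,0)]⟩,⟨0,[(47,0)]⟩⟩,.a ⟨true,0,⟨0,[(0,0)]⟩,⟨1,[(33,1),(5,0),(0,0)]⟩⟩
  ⟨true,0,⟨21,[(5,0),(5,3),(3,7),(11,2),(5,0),(6,0)]⟩,⟨2,[(12,0),(34,0),(5,1)]⟩⟩ ⟨false,1,⟨1,[(39,
  0),(0,0),(14,1)]⟩,⟨3,[(12,0),(34,0),(3,0)]⟩⟩,.e ⟨false,1,⟨2,[(20,0),(6,1)]⟩,⟨0,[(53,0)]⟩⟩ ⟨false,
  1,⟨0,[(55,0)]⟩,⟨6,[(5,0),(0,0),(33,0),(6,2)]⟩⟩]⟩) (.S ⟨1,0,[0,1,0,-1],[0,0,0,0,1],[1,2],(⟨0,[(35,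
  0)]⟩,⟨0,[(34,0)]⟩),⟨0,[(2,0),(28,0)]⟩,.k,(.r 0 ⟨2,[(12,0),(34,0),(5,1)]⟩ ⟨4,[(5,0),(21,1),(0,0),
  (4,0),(4,0),(16,0)]⟩),⟨false,0,⟨0,[]⟩,⟨14,[(5,2),(14,4),(6,0),(0,2),(4,2),(4,2),(16,2)]⟩⟩,⟨true,0,
  ⟨0,[(53,0)]⟩,⟨0,[(52,0)]⟩⟩,⟨true,0,⟨0,[(52,0)]⟩,⟨0,[(53,0)]⟩⟩,⟨false,1,⟨14,[(5,2),(14,4),(6,0),(0,
  2),(4,2),(4,2),(16,2)]⟩,⟨0,[]⟩⟩,[.o ⟨false,0,⟨2,[(0,2),(11,0),(34,0),(5,1)]⟩,⟨2,[(1,2),(6,0),(6,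
  0),(23,1),(10,0),(4,1)]⟩⟩,.a ⟨true,0,⟨0,[(33,0),(19,0)]⟩,⟨5,[(1,5),(6,1),(4,1),(25,3),(9,0),(5,
  0)]⟩⟩ ⟨false,0,⟨3,[(12,0),(34,0),(3,0)]⟩,⟨14,[(5,2),(14,4),(6,0),(0,2),(4,2),(4,2),(16,2)]⟩⟩
  ⟨true,0,⟨0,[(53,0)]⟩,⟨36,[(0,0),(4,0),(5,5),(3,11),(0,0),(10,5),(12,1),(8,0)]⟩⟩,.e ⟨false,0,⟨6,
  [(5,0),(0,0),(33,0),(6,2)]⟩,⟨0,[(55,0)]⟩⟩ ⟨false,0,⟨0,[(53,0)]⟩,⟨2,[(20,0),(6,1)]⟩⟩,.o ⟨false,0,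
  ⟨0,[(0,0)]⟩,⟨2,[(1,0),(8,0),(21,1)]⟩⟩]⟩)) (.Q [0,0,0,0,0,0,0,0,-1,1,0,-1] (.p false [0,0,0,0,1]
  [1] (⟨0,[(34,0)]⟩,⟨0,[(33,0)]⟩) .k 1 (⟨0,[]⟩,⟨0,[]⟩) .k .k) (.S ⟨1,0,[0,0,1],[1,1,0,0,-1],[0,-1,
  1],(⟨175,[(5,11),(23,5),(3,11),(0,175),(8,31),(3,5),(0,47),(0,20),(4,8)]⟩,⟨0,[(2,0),(28,0)]⟩),⟨0,
  [(34,0)]⟩,(.r (-1) ⟨4,[(5,0),(21,1),(0,0),(4,0),(4,0),(16,0)]⟩ ⟨2,[(12,0),(34,0),(5,1)]⟩),.k,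
  ⟨true,0,⟨0,[(53,0)]⟩,⟨0,[(52,0)]⟩⟩,⟨false,0,⟨0,[(53,0)]⟩,⟨2,[(20,0),(6,1)]⟩⟩,⟨false,1,⟨14,[(5,2),
  (14,4),(6,0),(0,2),(4,2),(4,2),(16,2)]⟩,⟨0,[]⟩⟩,⟨true,0,⟨6,[(5,0),(0,0),(33,0),(6,2)]⟩,⟨0,[]⟩⟩,
  [.a ⟨true,0,⟨0,[(0,0)]⟩,⟨0,[(33,0)]⟩⟩ ⟨false,1,⟨14,[(5,2),(14,4),(6,0),(0,2),(4,2),(4,2),(16,2)]⟩,
  ⟨3,[(12,0),(34,0),(3,0)]⟩⟩ ⟨true,0,⟨8,[(1,0),(3,0),(10,0),(23,2),(8,0),(3,0),(2,0)]⟩,⟨0,[]⟩⟩,.o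
  ⟨false,1,⟨1,[(0,1),(49,0),(4,0)]⟩,⟨1,[(6,0),(26,0),(16,0)]⟩⟩,.o ⟨false,1,⟨1,[(0,0),(16,0),(14,
  0)]⟩,⟨0,[(1,0),(23,0)]⟩⟩,.e ⟨false,1,⟨0,[(55,0)]⟩,⟨6,[(5,0),(0,0),(33,0),(6,2)]⟩⟩ ⟨false,1,⟨14,
  [(5,2),(14,4),(6,0),(0,2),(4,2),(4,2),(16,2)]⟩,⟨0,[]⟩⟩]⟩) (.R ⟨0,false,false,true,[0,-1,1],[1,0,0,
  0,-1],[1],(⟨0,[(31,0)]⟩,⟨175,[(5,11),(23,5),(3,11),(7,175),(1,31),(3,5),(0,47),(0,20),(4,8)]⟩),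
  (⟨0,[(34,0)]⟩,⟨0,[(35,0)]⟩),⟨2,[(9,0),(20,1),(12,0),(4,2)]⟩,.k,.k,(.r (-1) ⟨11,[(12,0),(7,8),(2,
  11),(5,5),(17,3),(2,2),(2,1)]⟩ ⟨42,[(1,0),(3,0),(5,6),(3,56),(0,0),(10,6),(12,2),(8,0)]⟩),(.r 0
  ⟨1,[(12,0),(8,0),(1,0),(5,0)]⟩ ⟨15,[(5,3),(1,2),(7,8),(11,4),(5,3),(4,3),(16,6)]⟩),.k,.k,⟨true,0,
  ⟨0,[]⟩,⟨8,[(1,0),(3,0),(10,0),(23,2),(8,0),(3,0),(2,0)]⟩⟩,⟨false,1,⟨2,[(3,1),(3,0),(12,1),(3,0),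
  (4,0),(2,0)]⟩,⟨0,[(1,0)]⟩⟩,⟨true,0,⟨0,[(15,0)]⟩,⟨1,[(12,0),(8,0),(1,0),(5,0)]⟩⟩,⟨false,1,⟨1,[(3,
  0),(0,0),(2,0),(7,0),(8,0),(0,0),(29,1)]⟩,⟨0,[(0,0),(22,0)]⟩⟩,⟨false,0,⟨0,[]⟩,⟨0,[]⟩⟩,⟨false,0,⟨0,
  []⟩,⟨0,[]⟩⟩,[.o ⟨false,1,⟨0,[(32,0)]⟩,⟨0,[(0,0)]⟩⟩,.e ⟨false,1,⟨2,[(20,1),(6,0)]⟩,⟨6,[(5,0),(0,0),
  (33,0),(6,2)]⟩⟩ ⟨false,1,⟨0,[(3,0),(3,0),(17,0),(29,0)]⟩,⟨6,[(1,6),(3,0),(0,0),(33,0),(6,2)]⟩⟩,.a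
  ⟨true,0,⟨0,[(39,0)]⟩,⟨0,[(36,0)]⟩⟩ ⟨true,0,⟨0,[]⟩,⟨6,[(5,0),(0,0),(33,0),(6,2)]⟩⟩ ⟨false,1,⟨4,[(3,
  2),(0,0),(2,2),(17,2),(3,0),(2,0),(22,3)]⟩,⟨0,[(1,0)]⟩⟩,.e ⟨false,1,⟨2,[(20,1),(6,0)]⟩,⟨8,[(1,0),
  (3,0),(10,0),(23,2),(8,0),(3,0),(2,0)]⟩⟩ ⟨false,1,⟨0,[(3,0),(3,0),(17,0),(29,0)]⟩,⟨8,[(1,9),(3,0),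
  (10,0),(23,2),(8,0),(3,0),(2,0)]⟩⟩]⟩))) (.Q [0,0,0,0,0,0,0,0,-1,1,0,-1] (.p false [0,0,0,0,1] [1]
  (⟨0,[(33,0)]⟩,⟨0,[(32,0)]⟩) .k 1 (⟨0,[]⟩,⟨0,[]⟩) .k .k) (.Q [0,0,-1,0,0,0,0,0,1,0,0,1] (.p true
  [0,0,0,0,1] [] (⟨0,[(34,0)]⟩,⟨0,[(33,0)]⟩) .k 0 (⟨0,[]⟩,⟨0,[]⟩) .k .k) (.S ⟨1,0,[0,1,1],[0,1,0,0,
  1],[1,2,1,1],(⟨175,[(5,11),(23,5),(3,11),(1,175),(7,31),(3,5),(0,47),(0,20),(4,8)]⟩,⟨1,[(2,0),(6,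
  0),(24,0)]⟩),⟨0,[(35,0)]⟩,(.r 0 ⟨12,[(5,0),(0,0),(8,5),(10,6),(11,0),(8,1)]⟩ ⟨4,[(5,0),(14,3),(12,
  0),(6,0),(12,0)]⟩),.k,⟨false,0,⟨0,[]⟩,⟨14,[(5,2),(14,4),(6,0),(0,2),(4,2),(4,2),(16,2)]⟩⟩,⟨true,0,
  ⟨0,[(53,0)]⟩,⟨0,[(52,0)]⟩⟩,⟨true,0,⟨0,[(52,0)]⟩,⟨0,[(53,0)]⟩⟩,⟨false,1,⟨14,[(5,2),(14,4),(6,0),(0,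
  2),(4,2),(4,2),(16,2)]⟩,⟨0,[]⟩⟩,[.o ⟨false,0,⟨1,[(6,0),(26,0),(16,0)]⟩,⟨1,[(1,1),(48,0),(4,0)]⟩⟩,
  .a ⟨true,0,⟨0,[(33,0)]⟩,⟨0,[(1,0)]⟩⟩ ⟨false,0,⟨0,[(52,0)]⟩,⟨4,[(5,0),(14,3),(12,0),(6,0),(12,
  0)]⟩⟩ ⟨true,0,⟨1,[(39,0),(0,0)]⟩,⟨0,[]⟩⟩,.a ⟨true,0,⟨0,[(0,0)]⟩,⟨0,[(4,0)]⟩⟩ ⟨true,(-1),⟨0,[(7,0),
  (3,0),(3,0),(37,0)]⟩,⟨4,[(5,0),(14,3),(12,0),(6,0),(12,0)]⟩⟩ ⟨false,0,⟨1,[(39,0),(0,0)]⟩,⟨2,[(20,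
  1),(6,0)]⟩⟩,.a ⟨true,0,⟨0,[(33,0)]⟩,⟨0,[(1,0)]⟩⟩ ⟨false,0,⟨0,[(52,0)]⟩,⟨0,[(53,0),(1,0)]⟩⟩ ⟨true,
  0,⟨6,[(5,0),(0,0),(33,0),(6,2)]⟩,⟨0,[]⟩⟩]⟩) (.Q [0,0,0,0,0,1,0,0,0,0,0,-1] (.ed true [1,-1,0,0,1]
  .k) (.R ⟨0,false,false,false,[0,0,0,0,1],[0,1],[1,0,1,1],(⟨0,[(36,0)]⟩,⟨0,[(35,0)]⟩),(⟨0,[(47,
  0)]⟩,⟨0,[(46,0)]⟩),⟨0,[(0,0)]⟩,.k,.k,(.r 0 ⟨2,[(13,0),(34,0),(5,1)]⟩ ⟨4,[(6,0),(21,1),(0,0),(4,0),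
  (4,0),(16,0)]⟩),(.r 0 ⟨2,[(13,0),(34,0),(5,1)]⟩ ⟨4,[(6,0),(21,1),(0,0),(4,0),(4,0),(16,0)]⟩),.k,
  .k,⟨true,0,⟨0,[]⟩,⟨1,[(40,0),(0,0)]⟩⟩,⟨false,1,⟨0,[(2,0),(15,0)]⟩,⟨1,[(34,1),(5,0),(0,0)]⟩⟩,
  ⟨false,1,⟨21,[(6,0),(5,3),(3,7),(11,2),(5,0),(6,0),(14,21)]⟩,⟨2,[(13,0),(34,0),(5,1)]⟩⟩,⟨true,1,
  ⟨1,[(1,0),(2,0),(11,0),(1,0),(37,0)]⟩,⟨0,[(7,0),(46,0)]⟩⟩,⟨false,0,⟨0,[]⟩,⟨0,[]⟩⟩,⟨false,0,⟨0,[]⟩,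
  ⟨0,[]⟩⟩,[.o ⟨false,1,⟨30,[(9,0),(8,3),(6,0),(2,13),(19,5),(2,12)]⟩,⟨0,[(54,0)]⟩⟩,.e ⟨false,1,⟨2,
  [(21,0),(6,1)]⟩,⟨2,[(13,0),(34,0),(5,1)]⟩⟩ ⟨false,1,⟨1,[(1,1),(6,1),(0,1),(16,1),(23,0),(5,2)]⟩,
  ⟨6,[(6,0),(0,0),(26,6),(6,0),(6,2),(5,6)]⟩⟩,.a ⟨true,0,⟨0,[(34,0)]⟩,⟨0,[(2,0)]⟩⟩ ⟨true,0,⟨21,[(6,
  0),(5,3),(3,7),(11,2),(5,0),(6,0)]⟩,⟨2,[(13,0),(34,0),(5,1)]⟩⟩ ⟨false,1,⟨1,[(1,0),(2,0),(11,0),(1,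
  0),(37,0)]⟩,⟨0,[(34,0),(19,0)]⟩⟩,.e ⟨false,1,⟨2,[(21,0),(6,1)]⟩,⟨0,[(54,0)]⟩⟩ ⟨false,1,⟨1,[(1,1),
  (6,1),(0,1),(16,1),(23,0),(5,2)]⟩,⟨1,[(34,1),(5,0),(0,0),(12,1)]⟩⟩]⟩) (.S ⟨1,0,[0,-1,1],[1,1,0,0,
  -1],[1,0,1,1],(⟨175,[(6,11),(23,5),(3,11),(0,175),(8,31),(3,5),(0,47),(0,20),(4,8)]⟩,⟨0,[(0,0)]⟩),
  ⟨0,[(35,0)]⟩,(.r (-1) ⟨4,[(6,0),(21,1),(0,0),(4,0),(4,0),(16,0)]⟩ ⟨2,[(13,0),(34,0),(5,1)]⟩),.k,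
  ⟨false,0,⟨0,[]⟩,⟨14,[(6,2),(14,4),(6,0),(0,2),(4,2),(4,2),(16,2)]⟩⟩,⟨true,0,⟨0,[(54,0)]⟩,⟨0,[(53,
  0)]⟩⟩,⟨true,0,⟨0,[(53,0)]⟩,⟨0,[(54,0)]⟩⟩,⟨false,1,⟨14,[(6,2),(14,4),(6,0),(0,2),(4,2),(4,2),(16,
  2)]⟩,⟨0,[]⟩⟩,[.o ⟨false,1,⟨3,[(1,1),(0,0),(15,0),(14,0),(22,1)]⟩,⟨1,[(7,0),(26,0),(16,0)]⟩⟩,.e
  ⟨false,1,⟨2,[(21,0),(6,1)]⟩,⟨2,[(13,0),(34,0),(5,1)]⟩⟩ ⟨false,1,⟨0,[(56,0)]⟩,⟨0,[(48,0)]⟩⟩,.a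
  ⟨true,0,⟨1,[(1,1),(6,2),(3,0),(7,0),(29,0),(5,1)]⟩,⟨1,[(34,1),(5,0),(0,0)]⟩⟩ ⟨true,0,⟨21,[(6,0),
  (5,3),(3,7),(11,2),(5,0),(6,0)]⟩,⟨2,[(13,0),(34,0),(5,1)]⟩⟩ ⟨false,1,⟨1,[(40,0),(0,0),(14,1)]⟩,⟨3,
  [(13,0),(34,0),(3,0)]⟩⟩,.e ⟨false,1,⟨2,[(21,0),(6,1)]⟩,⟨0,[(54,0)]⟩⟩ ⟨false,1,⟨0,[(56,0)]⟩,⟨6,[(6,
  0),(0,0),(33,0),(6,2)]⟩⟩]⟩))) (.R ⟨0,false,false,true,[0,-1,1],[1,0,0,0,-1],[1],(⟨0,[(30,0)]⟩,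
  ⟨175,[(4,11),(23,5),(3,11),(7,175),(1,31),(3,5),(0,47),(0,20),(4,8)]⟩),(⟨0,[(33,0)]⟩,⟨0,[(34,
  0)]⟩),⟨2,[(8,0),(20,1),(12,0),(4,2)]⟩,.k,.k,(.r (-1) ⟨11,[(11,0),(7,8),(2,11),(5,5),(17,3),(2,2),
  (2,1)]⟩ ⟨21,[(4,0),(5,3),(3,29),(11,2),(5,0),(6,0)]⟩),(.r 0 ⟨1,[(11,0),(8,0),(1,0),(5,0)]⟩ ⟨15,
  [(4,3),(1,2),(7,8),(11,4),(5,3),(4,3),(16,6)]⟩),.k,.k,⟨true,0,⟨0,[]⟩,⟨1,[(38,0),(0,0)]⟩⟩,⟨false,1,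
  ⟨2,[(2,1),(3,0),(12,1),(3,0),(4,0),(2,0)]⟩,⟨0,[(0,0),(37,0)]⟩⟩,⟨true,0,⟨0,[(14,0)]⟩,⟨1,[(11,0),(8,
  0),(1,0),(5,0)]⟩⟩,⟨false,1,⟨1,[(2,0),(0,0),(2,0),(7,0),(8,0),(0,0),(29,1)]⟩,⟨0,[(0,0),(21,0)]⟩⟩,
  ⟨false,0,⟨0,[]⟩,⟨0,[]⟩⟩,⟨false,0,⟨0,[]⟩,⟨0,[]⟩⟩,[.o ⟨false,1,⟨0,[(31,0)]⟩,⟨0,[(0,0)]⟩⟩,.e ⟨false,
  1,⟨2,[(19,1),(6,0)]⟩,⟨6,[(4,0),(0,0),(33,0),(6,2)]⟩⟩ ⟨false,1,⟨0,[(2,0),(3,0),(17,0),(29,0)]⟩,⟨3,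
  [(0,1),(3,0),(0,0),(0,0),(8,1),(6,0),(9,1)]⟩⟩,.a ⟨true,0,⟨0,[(38,0)]⟩,⟨0,[(35,0)]⟩⟩ ⟨true,0,⟨0,
  []⟩,⟨6,[(4,0),(0,0),(33,0),(6,2)]⟩⟩ ⟨false,1,⟨4,[(2,2),(0,0),(2,2),(17,2),(3,0),(2,0),(22,3)]⟩,⟨0,
  [(0,0),(37,0)]⟩⟩,.e ⟨false,1,⟨2,[(19,1),(6,0)]⟩,⟨1,[(38,0),(0,0)]⟩⟩ ⟨false,1,⟨0,[(2,0),(3,0),(17,
  0),(29,0)]⟩,⟨1,[(0,1),(37,2),(0,0)]⟩⟩]⟩))) (.K ⟨0,[1,0,0,0,-1],0,1,(⟨0,[(31,0)]⟩,⟨0,[(32,0)]⟩),.k,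
  (.r (-1) ⟨22,[(0,3),(1,4),(14,16),(2,2),(4,0),(0,3),(3,0)]⟩ ⟨12,[(2,0),(0,0),(8,5),(10,6),(11,0),
  (8,1)]⟩),(.r (-1) ⟨23,[(0,2),(1,5),(14,1),(6,12),(0,2),(0,2),(3,2)]⟩ ⟨2,[(9,0),(34,0),(5,1)]⟩),.k,
  .k,[⟨1,[(0,1),(4,1),(40,0),(3,1),(1,0)]⟩,⟨0,[(1,0)]⟩,⟨0,[(0,0),(3,0),(3,0)]⟩,⟨5,[(2,3),(26,1),(3,
  3),(10,1),(1,0),(4,0)]⟩]⟩)) (.Q [0,0,0,0,0,-1,0,0,0,1,0,-1] (.ed true [0,1,0,0,1] .k) (.S ⟨1,0,[0,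
  -1,0,-1],[1,0,0,0,-1],[1],(⟨0,[(31,0)]⟩,⟨0,[(32,0)]⟩),⟨0,[(0,0)]⟩,.k,(.r (-1) ⟨4,[(2,0),(14,3),
  (12,0),(6,0),(12,0)]⟩ ⟨12,[(2,0),(0,0),(8,5),(10,6),(11,0),(8,1)]⟩),⟨false,0,⟨0,[]⟩,⟨14,[(2,2),
  (14,4),(6,0),(0,2),(4,2),(4,2),(16,2)]⟩⟩,⟨true,0,⟨0,[(50,0)]⟩,⟨0,[(49,0)]⟩⟩,⟨true,0,⟨0,[(49,0)]⟩,
  ⟨0,[(50,0)]⟩⟩,⟨false,1,⟨14,[(2,2),(14,4),(6,0),(0,2),(4,2),(4,2),(16,2)]⟩,⟨0,[]⟩⟩,[.a ⟨true,1,⟨1,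
  [(29,1),(16,0),(3,1),(1,0)]⟩,⟨90,[(1,78),(1,11),(0,26),(1,0),(1,39),(1,52),(17,0),(11,2),(5,38),
  (3,14)]⟩⟩ ⟨true,0,⟨0,[]⟩,⟨1,[(36,0),(0,0)]⟩⟩ ⟨false,1,⟨4,[(2,0),(14,3),(12,0),(6,0),(12,0)]⟩,⟨0,
  [(49,0)]⟩⟩,.o ⟨false,2,⟨0,[(2,0),(14,0),(4,0)]⟩,⟨0,[(1,0),(2,0),(3,0),(3,0),(37,0)]⟩⟩,.o ⟨false,1,
  ⟨0,[(29,0)]⟩,⟨1,[(1,1),(34,0),(0,0)]⟩⟩,.o ⟨false,1,⟨4,[(2,1),(26,2),(7,1),(6,0)]⟩,⟨0,[(1,0)]⟩⟩]⟩)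
  (.Q [0,1,0,0,-1,0,-1,-1,1,0,-1,1] (.p true [0,0,-1,0,1] [] (⟨0,[(0,0),(26,0)]⟩,⟨0,[(31,0),(7,
  0)]⟩) .k 0 (⟨0,[]⟩,⟨0,[]⟩) .k (.r 0 ⟨12,[(2,2),(0,2),(0,4),(7,4),(22,2),(8,0)]⟩ ⟨35,[(8,1),(8,11),
  (2,11),(4,19),(0,5),(20,2),(4,2)]⟩)) (.R ⟨0,false,false,false,[1,0,0,0,-1],[1,0,-1],[1],(⟨0,[(32,
  0)]⟩,⟨0,[(33,0)]⟩),(⟨0,[(39,0)]⟩,⟨0,[(40,0)]⟩),⟨0,[(1,0)]⟩,.k,.k,(.r (-1) ⟨4,[(3,0),(14,3),(12,0),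
  (6,0),(12,0)]⟩ ⟨12,[(3,0),(0,0),(8,5),(10,6),(11,0),(8,1)]⟩),.k,.k,.k,⟨true,0,⟨2,[(9,0),(8,0),(2,
  0),(1,0)]⟩,⟨0,[(13,0),(37,0)]⟩⟩,⟨false,0,⟨2,[(2,1),(24,0),(3,0),(2,0)]⟩,⟨8,[(3,4),(1,5),(0,1),(2,
  0),(10,1),(9,3),(16,0),(5,1)]⟩⟩,⟨false,0,⟨0,[]⟩,⟨14,[(3,2),(14,4),(6,0),(0,2),(4,2),(4,2),(16,
  2)]⟩⟩,⟨true,(-1),⟨0,[(0,0)]⟩,⟨0,[(20,0),(9,0)]⟩⟩,⟨false,0,⟨0,[]⟩,⟨0,[]⟩⟩,⟨false,0,⟨0,[]⟩,⟨0,[]⟩⟩,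
  [.a ⟨true,0,⟨25,[(0,3),(2,3),(1,7),(5,7),(15,9),(8,5),(4,1),(1,1),(3,6),(5,6)]⟩,⟨0,[(20,0)]⟩⟩
  ⟨true,0,⟨0,[]⟩,⟨14,[(0,3),(2,4),(5,0),(11,1),(9,0),(6,2)]⟩⟩ ⟨false,0,⟨2,[(0,2),(17,1),(6,0)]⟩,⟨0,
  [(20,0),(9,0)]⟩⟩,.o ⟨false,1,⟨0,[(36,0),(16,0)]⟩,⟨0,[(19,0)]⟩⟩,.o ⟨false,1,⟨0,[(30,0)]⟩,⟨3,[(0,0),
  (1,2),(11,0),(6,0),(16,0),(14,0)]⟩⟩,.o ⟨false,1,⟨4,[(3,1),(26,2),(7,1),(6,0)]⟩,⟨0,[(2,0)]⟩⟩]⟩)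
  (.R ⟨0,false,false,true,[-1,1,0,0,1],[0,1],[0,1,1],(⟨0,[(1,0)]⟩,⟨0,[(32,0),(10,0)]⟩),(⟨0,[(44,
  0)]⟩,⟨0,[(43,0)]⟩),⟨0,[(32,0)]⟩,(.r 0 ⟨12,[(3,0),(0,0),(8,5),(10,6),(11,0),(8,1)]⟩ ⟨4,[(3,0),(14,
  3),(12,0),(6,0),(12,0)]⟩),.k,.k,.k,.k,.k,⟨true,0,⟨0,[(51,0)]⟩,⟨21,[(3,0),(5,3),(3,7),(11,2),(5,0),
  (6,0)]⟩⟩,⟨false,1,⟨20,[(0,2),(4,1),(5,0),(18,17),(3,2),(6,3),(1,3),(3,6),(1,0),(2,6)]⟩,⟨1,[(2,1),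
  (34,0),(0,0)]⟩⟩,⟨true,0,⟨0,[(51,0)]⟩,⟨0,[(50,0)]⟩⟩,⟨false,1,⟨37,[(0,11),(4,3),(1,1),(3,7),(15,5),
  (1,1),(0,25),(10,5),(5,14),(3,3),(1,14)]⟩,⟨1,[(2,1),(34,0),(0,0)]⟩⟩,⟨false,0,⟨0,[]⟩,⟨0,[]⟩⟩,
  ⟨false,0,⟨0,[]⟩,⟨0,[]⟩⟩,[.e ⟨false,0,⟨6,[(3,0),(0,0),(33,0),(6,2)]⟩,⟨2,[(18,1),(6,0)]⟩⟩ ⟨false,0,
  ⟨6,[(0,2),(4,5),(3,3),(1,4),(11,1),(6,3),(3,0),(12,2)]⟩,⟨2,[(2,0),(15,0),(12,1),(16,0),(2,1),(1,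
  0)]⟩⟩,.o ⟨false,1,⟨30,[(6,0),(8,3),(6,0),(2,13),(19,5),(2,12)]⟩,⟨0,[(51,0)]⟩⟩,.a ⟨true,0,⟨0,[(2,
  0)]⟩,⟨15,[(3,0),(3,1),(1,0),(1,1),(11,0),(5,1),(0,14),(10,5),(5,14),(3,3),(2,9)]⟩⟩ ⟨false,0,⟨1,
  [(37,0),(0,0)]⟩,⟨2,[(18,1),(6,0)]⟩⟩ ⟨true,0,⟨17,[(3,1),(1,7),(3,8),(1,7),(18,15),(5,1),(10,8),(6,
  3),(0,0)]⟩,⟨0,[(2,0),(48,0)]⟩⟩,.e ⟨true,0,⟨6,[(3,0),(0,0),(33,0),(6,2)]⟩,⟨0,[]⟩⟩ ⟨true,0,⟨6,[(0,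
  2),(4,5),(3,3),(1,4),(11,1),(6,3),(3,0),(12,2)]⟩,⟨1,[(2,1),(34,0),(0,0),(12,1)]⟩⟩]⟩)))))))) (.R
  ⟨0,false,false,false,[1,-1,-1],[0,-1,1],[1],(⟨0,[(21,0)]⟩,⟨22,[(23,2),(0,2),(8,22),(0,4),(4,5),(0,
  2)]⟩),(⟨0,[(22,0)]⟩,⟨22,[(23,2),(0,2),(7,22),(1,4),(4,5),(0,2)]⟩),⟨0,[(0,0)]⟩,.k,.k,(.r (-1) ⟨1,
  [(3,0),(2,0),(4,1),(17,0),(0,0),(13,1)]⟩ ⟨3,[(2,1),(15,1),(11,0),(0,0)]⟩),.k,.k,.k,⟨true,0,⟨0,[(6,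
  0)]⟩,⟨0,[(14,0),(1,0)]⟩⟩,⟨false,1,⟨0,[(1,0),(28,0)]⟩,⟨0,[(20,0)]⟩⟩,⟨true,0,⟨2,[(2,0),(16,0)]⟩,⟨0,
  [(3,0),(2,0),(37,0)]⟩⟩,⟨false,1,⟨1,[(13,3),(27,0),(4,0)]⟩,⟨1,[(3,0),(0,0),(1,2),(4,0),(4,3),(23,
  0),(3,1)]⟩⟩,⟨false,0,⟨0,[]⟩,⟨0,[]⟩⟩,⟨false,0,⟨0,[]⟩,⟨0,[]⟩⟩,[.a ⟨true,0,⟨0,[(14,0)]⟩,⟨0,[(6,0),
  (20,0)]⟩⟩ ⟨true,0,⟨0,[]⟩,⟨1,[(30,0),(0,0)]⟩⟩ ⟨false,1,⟨0,[(1,0),(12,0)]⟩,⟨0,[(6,0),(13,0)]⟩⟩,.o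
  ⟨false,1,⟨1,[(14,1),(26,0),(4,0)]⟩,⟨0,[(15,0)]⟩⟩,.o ⟨false,0,⟨0,[(31,0)]⟩,⟨0,[(9,0)]⟩⟩,.o ⟨false,
  0,⟨1,[(30,0),(0,2)]⟩,⟨0,[(1,0)]⟩⟩]⟩)) (.Q [0,0,1,0,-1,0,-2,0,0,1,-2] (.p false [0,0,1] [1,0,-1]
  (⟨0,[(32,0)]⟩,⟨0,[(31,0)]⟩) .k 2 (⟨0,[(31,0)]⟩,⟨0,[(32,0)]⟩) .k (.r 0 ⟨2,[(1,1),(8,1),(2,1),(1,
  1)]⟩ ⟨0,[(5,0),(4,0),(17,0),(0,0)]⟩)) (.Q [0,-1,0,-2,0,0,-1,-1,0,1,-1] (.p false [0,0,1] [1] (⟨0,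
  [(33,0)]⟩,⟨0,[(32,0)]⟩) .k 1 (⟨0,[]⟩,⟨0,[]⟩) .k .k) (.R ⟨1,true,false,true,[1,0,-1],[0,1],[0,1,0,
  -1,0,0,0,-1],(⟨0,[(33,0)]⟩,⟨0,[(34,0)]⟩),(⟨0,[(38,0)]⟩,⟨0,[(37,0)]⟩),⟨0,[(22,0)]⟩,.k,.k,.k,.k,(.r
  (-1) ⟨7,[(0,6),(3,2),(2,0),(2,6),(28,1),(6,0)]⟩ ⟨6,[(2,0),(0,2),(4,0),(10,2),(0,0)]⟩),.k,⟨false,1,
  ⟨7,[(0,6),(3,2),(2,0),(2,6),(28,1),(6,0)]⟩,⟨3,[(3,0),(3,0),(3,2),(7,0)]⟩⟩,⟨true,1,⟨0,[(10,0)]⟩,⟨0,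
  [(2,0)]⟩⟩,⟨false,0,⟨0,[(45,0)]⟩,⟨2,[(12,0),(6,1)]⟩⟩,⟨true,0,⟨0,[(6,0)]⟩,⟨95,[(0,66),(1,3),(2,5),
  (13,15),(1,0),(8,22),(8,29),(1,11)]⟩⟩,⟨true,0,⟨6,[(0,0),(7,0),(9,0),(20,2)]⟩,⟨0,[]⟩⟩,⟨false,1,⟨2,
  [(6,1),(2,0),(4,0),(4,1)]⟩,⟨0,[(0,0)]⟩⟩,[]⟩) (.Q [0,0,0,0,0,2,0,0,0,0,-1] (.p false [0,0,1] []
  (⟨0,[(34,0)]⟩,⟨0,[(33,0)]⟩) .k 0 (⟨0,[]⟩,⟨0,[]⟩) .k .k) (.R ⟨0,false,false,false,[0,-1,1],[1,-1,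
  -1],[0,1,1],(⟨0,[(24,0)]⟩,⟨4,[(0,1),(24,0),(0,0),(7,2),(1,0),(5,0)]⟩),(⟨0,[(23,0)]⟩,⟨22,[(25,2),
  (0,2),(8,22),(0,4),(4,5),(0,2)]⟩),⟨0,[(0,0)]⟩,.k,.k,(.r (-1) ⟨11,[(5,0),(7,8),(2,11),(5,5),(17,3),
  (2,2),(2,1)]⟩ ⟨14,[(3,0),(0,1),(3,18),(0,0),(10,2)]⟩),.k,.k,.k,⟨true,(-1),⟨1,[(1,0),(1,1),(10,
  0)]⟩,⟨0,[(8,0),(4,0),(32,0)]⟩⟩,⟨false,0,⟨2,[(2,0),(7,0),(11,0),(6,1)]⟩,⟨0,[(11,0),(20,0)]⟩⟩,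
  ⟨false,0,⟨3,[(3,0),(4,2),(0,0),(21,0),(0,0),(15,0)]⟩,⟨39,[(2,3),(1,13),(0,0),(7,54),(2,11),(5,1),
  (20,2)]⟩⟩,⟨true,0,⟨5,[(2,3),(2,0),(0,0),(1,6),(4,4),(17,3),(10,0),(3,1)]⟩,⟨0,[(14,0),(0,0)]⟩⟩,
  ⟨false,0,⟨0,[]⟩,⟨0,[]⟩⟩,⟨false,0,⟨0,[]⟩,⟨0,[]⟩⟩,[.e ⟨false,0,⟨0,[(50,0)]⟩,⟨2,[(13,1),(6,0)]⟩⟩
  ⟨false,0,⟨0,[(2,0),(2,0),(2,0),(4,0)]⟩,⟨6,[(9,2),(1,3),(3,4),(4,0),(0,1),(10,1)]⟩⟩,.o ⟨false,1,⟨0,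
  [(31,0),(14,0),(1,0)]⟩,⟨0,[(7,0)]⟩⟩,.a ⟨true,0,⟨0,[(32,0)]⟩,⟨0,[(29,0)]⟩⟩ ⟨false,0,⟨1,[(32,0),(0,
  0)]⟩,⟨2,[(13,1),(6,0)]⟩⟩ ⟨true,0,⟨5,[(2,3),(2,0),(0,0),(1,0),(4,4),(17,3),(10,0),(3,1)]⟩,⟨1,[(1,
  0),(12,0),(17,1)]⟩⟩,.e ⟨true,0,⟨0,[(50,0)]⟩,⟨0,[]⟩⟩ ⟨true,0,⟨0,[(2,0),(2,0),(2,0),(4,0)]⟩,⟨0,[(9,
  0),(5,0)]⟩⟩]⟩) (.R ⟨0,false,false,false,[1,-1,-1],[0,-1,1],[0,0,-1,-1,0,0,0,1],(⟨0,[(23,0)]⟩,⟨22,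
  [(25,2),(0,2),(8,22),(0,4),(4,5),(0,2)]⟩),(⟨0,[(24,0)]⟩,⟨22,[(25,2),(0,2),(7,22),(1,4),(4,5),(0,
  2)]⟩),⟨2,[(0,1),(34,0),(0,0),(4,2)]⟩,.k,.k,(.r (-1) ⟨1,[(5,0),(2,0),(4,1),(17,0),(0,0),(13,1)]⟩
  ⟨6,[(3,0),(0,2),(4,0),(10,2),(0,0)]⟩),.k,.k,.k,⟨false,1,⟨1,[(25,0),(0,0),(20,0)]⟩,⟨0,[]⟩⟩,⟨true,1,
  ⟨0,[(11,0),(20,0)]⟩,⟨0,[(2,0)]⟩⟩,⟨true,0,⟨19,[(2,3),(1,13),(0,0),(7,14),(2,11),(5,1),(20,2)]⟩,⟨0,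
  [(5,0),(2,1),(37,0)]⟩⟩,⟨false,1,⟨1,[(15,3),(27,0),(4,0)]⟩,⟨5,[(2,3),(2,0),(0,0),(1,6),(4,4),(17,
  3),(10,0),(3,1)]⟩⟩,⟨false,0,⟨0,[]⟩,⟨0,[]⟩⟩,⟨false,0,⟨0,[]⟩,⟨0,[]⟩⟩,[.a ⟨true,0,⟨0,[(16,0)]⟩,⟨0,
  [(8,0),(20,0)]⟩⟩ ⟨false,1,⟨1,[(10,0),(2,0),(2,0),(5,0),(7,0)]⟩,⟨0,[(8,0)]⟩⟩ ⟨true,1,⟨0,[(11,0),(4,
  0)]⟩,⟨0,[(2,0),(5,0)]⟩⟩,.o ⟨false,1,⟨1,[(16,1),(26,0),(4,0)]⟩,⟨0,[(17,0)]⟩⟩,.o ⟨false,0,⟨0,[(33,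
  0)]⟩,⟨0,[(11,0)]⟩⟩,.e ⟨false,1,⟨39,[(2,3),(1,13),(0,0),(7,54),(2,11),(5,1),(20,2)]⟩,⟨3,[(3,0),(4,
  2),(0,0),(21,0),(0,0),(15,0)]⟩⟩ ⟨false,2,⟨1,[(11,1),(1,0),(2,0),(13,0),(17,0)]⟩,⟨0,[(2,0),(5,
  0)]⟩⟩]⟩))) (.K ⟨0,[1,-1,-1],(-1),0,(⟨0,[(21,0)]⟩,⟨22,[(23,2),(0,2),(8,22),(0,4),(4,5),(0,2)]⟩),.k,
  (.r (-1) ⟨5,[(0,1),(2,0),(2,1),(4,4),(17,3),(10,0),(3,7)]⟩ ⟨6,[(1,0),(0,2),(4,0),(10,2),(0,0)]⟩),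
  .k,(.r (-1) ⟨5,[(0,1),(2,0),(2,7),(4,4),(17,3),(10,0),(3,7)]⟩ ⟨35,[(2,25),(8,11),(2,11),(4,7),(0,
  5),(20,2),(4,2)]⟩),.k,[⟨0,[(0,0)]⟩,⟨0,[(1,0)]⟩,⟨0,[(5,0)]⟩,⟨8,[(23,3),(0,3),(4,8),(4,0),(1,0),(3,
  3),(3,8)]⟩]⟩)))

theorem ok85 : chk K t85 r54 = true := by decide +kernel

noncomputable def t92 : Tre :=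
  (.I [0,1,3,2,-1] (.I [1,0,1,2] (.R ⟨1,false,false,true,[1,-1],[0,1],[1,0,-1,-1],(⟨0,[(30,0)]⟩,⟨0,
  [(31,0)]⟩),(⟨0,[(31,0)]⟩,⟨0,[(30,0)]⟩),⟨0,[(15,0),(0,0)]⟩,.k,.k,(.r (-1) ⟨4,[(5,3),(11,0),(0,0),
  (13,1),(5,5)]⟩ ⟨1,[(1,0),(10,0)]⟩),(.r (-1) ⟨4,[(5,3),(11,0),(0,0),(13,1),(5,5)]⟩ ⟨1,[(1,0),(10,
  0)]⟩),(.r (-1) ⟨0,[(5,0),(30,0),(1,2)]⟩ ⟨3,[(1,2),(10,2)]⟩),.k,⟨true,1,⟨0,[(5,0),(32,0)]⟩,⟨0,[(1,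
  0)]⟩⟩,⟨false,2,⟨1,[(35,0),(3,2)]⟩,⟨0,[(2,0)]⟩⟩,⟨true,0,⟨0,[]⟩,⟨0,[(42,0)]⟩⟩,⟨false,1,⟨5,[(0,2),(4,
  0),(6,1),(22,2),(0,2)]⟩,⟨0,[(2,0),(2,0),(32,0)]⟩⟩,⟨false,1,⟨2,[(5,0),(6,1)]⟩,⟨0,[(38,0)]⟩⟩,⟨false,
  1,⟨1,[(0,2),(4,0),(29,0),(0,0)]⟩,⟨0,[(2,0),(2,0),(32,1)]⟩⟩,[.e ⟨false,1,⟨4,[(5,3),(11,0),(0,0),
  (13,1),(5,0)]⟩,⟨3,[(1,0),(10,0)]⟩⟩ ⟨false,1,⟨1,[(35,0),(0,1),(2,0)]⟩,⟨3,[(2,3),(2,1),(11,0),(0,0),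
  (19,1),(1,0)]⟩⟩,.o ⟨false,1,⟨13,[(12,5),(19,1),(2,6),(0,1),(2,0)]⟩,⟨0,[(38,0)]⟩⟩,.o ⟨false,0,⟨1,
  [(24,0),(0,0)]⟩,⟨1,[(35,0),(3,0)]⟩⟩,.a ⟨true,(-1),⟨0,[(2,0)]⟩,⟨0,[(39,0)]⟩⟩ ⟨false,1,⟨0,[(5,0)]⟩,
  ⟨3,[(1,0),(10,0),(11,1),(0,1)]⟩⟩ ⟨true,1,⟨1,[(35,0),(0,1),(2,0)]⟩,⟨0,[(2,0),(35,0)]⟩⟩]⟩) (.S ⟨1,0,
  [0,1,-1,-2],[1,-1],[1,0,-1,-1],(⟨0,[(30,0)]⟩,⟨0,[(31,0)]⟩),⟨0,[(15,0),(0,0)]⟩,.k,(.r (-1) ⟨3,[(0,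
  2),(4,1),(11,1),(0,1),(13,0)]⟩ ⟨1,[(1,0),(10,0)]⟩),⟨true,0,⟨0,[]⟩,⟨0,[(42,0)]⟩⟩,⟨false,0,⟨0,[(38,
  0)]⟩,⟨2,[(5,0),(6,1)]⟩⟩,⟨false,1,⟨2,[(5,0),(6,1)]⟩,⟨0,[(38,0)]⟩⟩,⟨true,0,⟨0,[(42,0)]⟩,⟨0,[]⟩⟩,[.e
  ⟨false,1,⟨7,[(0,0),(4,5),(11,1),(0,1),(13,2)]⟩,⟨3,[(1,0),(10,0)]⟩⟩ ⟨false,0,⟨3,[(0,4),(31,0),(3,
  1)]⟩,⟨0,[(12,0)]⟩⟩,.o ⟨false,0,⟨1,[(0,1),(23,0),(0,0)]⟩,⟨3,[(1,0),(10,0),(22,1),(0,3),(3,1)]⟩⟩,.o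
  ⟨false,0,⟨1,[(24,0),(0,0)]⟩,⟨1,[(35,0),(3,0)]⟩⟩,.a ⟨true,(-1),⟨0,[(2,0)]⟩,⟨0,[(39,0)]⟩⟩ ⟨false,1,
  ⟨0,[(5,0)]⟩,⟨3,[(1,0),(10,0),(11,1),(0,1)]⟩⟩ ⟨true,0,⟨3,[(0,4),(31,0),(3,1)]⟩,⟨1,[(1,0),(10,
  0)]⟩⟩]⟩)) (.I [1,1,-3,-3] (.S ⟨1,0,[0,1,-1,-2],[1,-1],[1,0,-1,-1],(⟨0,[(30,0)]⟩,⟨0,[(31,0)]⟩),⟨0,
  [(15,0),(0,0)]⟩,.k,(.r (-1) ⟨2,[(0,1),(16,1),(0,1),(21,0)]⟩ ⟨0,[(2,1),(32,0),(0,1),(3,0)]⟩),⟨true,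
  0,⟨0,[]⟩,⟨0,[(42,0)]⟩⟩,⟨false,0,⟨0,[(38,0)]⟩,⟨2,[(5,0),(6,1)]⟩⟩,⟨false,1,⟨2,[(5,0),(6,1)]⟩,⟨0,
  [(38,0)]⟩⟩,⟨true,0,⟨0,[(42,0)]⟩,⟨0,[]⟩⟩,[.e ⟨false,1,⟨9,[(0,0),(4,6),(11,2),(0,2),(13,2)]⟩,⟨1,[(2,
  1),(32,0),(0,1),(3,0)]⟩⟩ ⟨false,0,⟨2,[(0,1),(41,0)]⟩,⟨0,[(12,0)]⟩⟩,.o ⟨false,0,⟨0,[(38,1)]⟩,⟨0,
  [(2,0),(32,0),(0,1),(3,0)]⟩⟩,.o ⟨false,0,⟨1,[(24,0),(0,0)]⟩,⟨1,[(35,0),(3,0)]⟩⟩,.a ⟨true,(-1),⟨0,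
  [(2,0)]⟩,⟨0,[(39,0)]⟩⟩ ⟨false,1,⟨0,[(5,0)]⟩,⟨5,[(2,3),(6,0),(1,0),(0,1),(11,0),(10,1)]⟩⟩ ⟨true,0,
  ⟨2,[(0,1),(41,0)]⟩,⟨0,[(2,1),(32,0),(0,1),(3,0)]⟩⟩]⟩) (.Q [0,-1,0,1,1,0,0,0,0,-1] (.pp true [-1,
  1]) (.I [1,0,-1,0,0,0,0,1] (.S ⟨1,0,[0,0,0,-1,0,0,0,1],[0,0,1],[1,1,0,0,0,0,0,1],(⟨0,[(29,0)]⟩,⟨0,
  [(28,0)]⟩),⟨0,[(18,0)]⟩,.k,.k,⟨false,0,⟨0,[]⟩,⟨1,[(19,0),(0,0),(21,0)]⟩⟩,⟨true,0,⟨0,[(40,0)]⟩,⟨0,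
  [(39,0)]⟩⟩,⟨true,0,⟨0,[(39,0)]⟩,⟨0,[(40,0)]⟩⟩,⟨false,1,⟨1,[(19,0),(0,0),(21,0)]⟩,⟨0,[]⟩⟩,[.e
  ⟨false,0,⟨5,[(0,3),(7,0),(7,0),(7,0),(9,1)]⟩,⟨0,[(1,0),(1,0),(0,0),(6,0),(14,0)]⟩⟩ ⟨false,0,⟨0,
  [(0,0),(39,0)]⟩,⟨2,[(5,1),(5,0),(2,0),(10,1),(0,0),(9,0),(5,0)]⟩⟩,.o ⟨false,1,⟨1,[(10,1),(26,0),
  (4,0)]⟩,⟨0,[(11,0)]⟩⟩,.o ⟨false,1,⟨3,[(5,1),(13,0),(0,0),(5,1),(10,0)]⟩,⟨0,[(12,0)]⟩⟩,.a ⟨true,0,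
  ⟨0,[(26,0)]⟩,⟨0,[(23,0)]⟩⟩ ⟨false,0,⟨0,[(0,0)]⟩,⟨0,[(25,0),(0,0),(15,0)]⟩⟩ ⟨true,0,⟨0,[(0,0),(39,
  0)]⟩,⟨0,[(11,0),(14,0)]⟩⟩]⟩) (.R ⟨1,false,false,false,[1,-1],[1,0,-1],[0,0,-1,-2],(⟨0,[(32,0)]⟩,
  ⟨0,[(33,0)]⟩),(⟨0,[(28,0)]⟩,⟨0,[(29,0)]⟩),⟨0,[(17,0),(0,0)]⟩,.k,.k,(.r (-1) ⟨6,[(3,3),(15,2),(0,
  2),(13,1),(5,5)]⟩ ⟨4,[(0,0),(1,2),(10,0),(20,0)]⟩),.k,(.r (-1) ⟨15,[(3,10),(6,12),(4,2),(0,3),(10,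
  4),(6,6),(2,1)]⟩ ⟨1,[(0,1),(1,0),(35,0)]⟩),.k,⟨true,0,⟨0,[(3,0),(0,0),(3,0),(3,0)]⟩,⟨1,[(0,1),(1,
  0),(35,0)]⟩⟩,⟨false,1,⟨15,[(1,1),(1,3),(12,7),(20,2),(0,5),(2,6)]⟩,⟨0,[(26,0)]⟩⟩,⟨true,0,⟨0,[(40,
  0)]⟩,⟨0,[(39,0)]⟩⟩,⟨false,1,⟨0,[(11,0),(30,0)]⟩,⟨0,[(10,0)]⟩⟩,⟨false,1,⟨1,[(19,0),(0,0),(21,0)]⟩,
  ⟨0,[]⟩⟩,⟨false,1,⟨0,[(2,0),(0,0),(7,0)]⟩,⟨0,[(10,0),(29,0)]⟩⟩,[.e ⟨false,1,⟨6,[(3,3),(15,2),(0,2),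
  (13,1),(5,5)]⟩,⟨1,[(2,0),(35,0)]⟩⟩ ⟨false,1,⟨0,[(7,0),(3,0)]⟩,⟨6,[(2,0),(1,0),(3,0),(1,3),(4,0),
  (8,0),(1,0)]⟩⟩,.o ⟨false,1,⟨0,[(25,0),(16,0)]⟩,⟨0,[(8,0)]⟩⟩,.o ⟨false,0,⟨1,[(26,0),(0,0)]⟩,⟨1,
  [(37,0),(3,0)]⟩⟩,.a ⟨true,(-1),⟨0,[(4,0)]⟩,⟨0,[(41,0)]⟩⟩ ⟨false,1,⟨5,[(3,3),(15,0),(0,0),(19,3),
  (1,0)]⟩,⟨4,[(0,0),(1,2),(10,0),(20,0)]⟩⟩ ⟨true,1,⟨0,[(7,0),(3,0)]⟩,⟨0,[(4,0),(3,0)]⟩⟩]⟩)) (.S ⟨1,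
  0,[0,1,-1,-2],[1,-1],[1,0,-1,-1],(⟨0,[(31,0)]⟩,⟨0,[(32,0)]⟩),⟨0,[(16,0),(0,0)]⟩,.k,(.r (-1) ⟨6,
  [(2,3),(15,2),(0,2),(13,1),(5,5)]⟩ ⟨12,[(1,7),(10,1),(11,1),(0,1),(7,1)]⟩),⟨true,0,⟨0,[]⟩,⟨0,[(43,
  0)]⟩⟩,⟨false,0,⟨0,[(39,0)]⟩,⟨2,[(6,0),(6,1)]⟩⟩,⟨false,1,⟨2,[(6,0),(6,1)]⟩,⟨0,[(39,0)]⟩⟩,⟨true,0,
  ⟨0,[(43,0)]⟩,⟨0,[]⟩⟩,[.e ⟨false,1,⟨2,[(2,0),(3,0),(11,0),(0,0),(13,0)]⟩,⟨12,[(1,3),(10,0),(11,0),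
  (0,0),(7,0)]⟩⟩ ⟨false,0,⟨8,[(0,9),(1,4),(30,0),(2,4),(0,1)]⟩,⟨0,[(13,0)]⟩⟩,.o ⟨false,0,⟨0,[(39,
  1)]⟩,⟨11,[(1,2),(4,1),(6,3),(22,5),(0,8)]⟩⟩,.o ⟨false,0,⟨1,[(25,0),(0,0)]⟩,⟨1,[(36,0),(3,0)]⟩⟩,.a
  ⟨true,(-1),⟨0,[(3,0)]⟩,⟨0,[(40,0)]⟩⟩ ⟨false,1,⟨0,[(6,0)]⟩,⟨6,[(1,1),(10,0),(11,0),(0,3),(0,2)]⟩⟩
  ⟨true,0,⟨8,[(0,9),(1,4),(30,0),(2,4),(0,1)]⟩,⟨12,[(1,7),(10,1),(11,1),(0,1),(7,1)]⟩⟩]⟩))))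

theorem ok92 : chk K t92 r48 = true := by decide +kernel

noncomputable def t94 : Tre :=
  (.I [0,1,3,2,-1] (.Q [0,-1,0,2,1,0,1,1,0,-1,1] (.p true [0,0,1] [1] (⟨0,[(25,0)]⟩,⟨0,[(24,0)]⟩)
  .k 1 (⟨0,[]⟩,⟨0,[]⟩) .k .k) (.R ⟨1,false,false,true,[1,-1],[0,1],[1,0,-1,-1],(⟨0,[(29,0)]⟩,⟨0,
  [(30,0)]⟩),(⟨0,[(30,0)]⟩,⟨0,[(29,0)]⟩),⟨0,[(14,0),(0,0)]⟩,.k,.k,(.r (-1) ⟨4,[(4,3),(11,0),(0,0),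
  (13,1),(5,5)]⟩ ⟨1,[(1,0),(9,0)]⟩),(.r (-1) ⟨4,[(4,3),(11,0),(0,0),(13,1),(5,5)]⟩ ⟨1,[(1,0),(9,
  0)]⟩),(.r (-1) ⟨0,[(4,0),(30,0),(1,2)]⟩ ⟨3,[(1,2),(9,2)]⟩),.k,⟨true,1,⟨0,[(4,0),(32,0)]⟩,⟨0,[(1,
  0)]⟩⟩,⟨false,2,⟨1,[(34,0),(3,2)]⟩,⟨0,[(2,0),(20,0)]⟩⟩,⟨true,0,⟨0,[]⟩,⟨0,[(41,0)]⟩⟩,⟨false,1,⟨21,
  [(0,11),(7,11),(2,3),(19,1),(2,4),(3,0)]⟩,⟨1,[(33,0),(3,3),(1,0)]⟩⟩,⟨false,1,⟨2,[(4,0),(6,1)]⟩,⟨0,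
  [(37,0)]⟩⟩,⟨false,1,⟨0,[(0,0),(7,0)]⟩,⟨1,[(33,0),(3,5),(1,0)]⟩⟩,[.e ⟨false,1,⟨4,[(4,3),(11,0),(0,
  0),(13,1),(5,0)]⟩,⟨3,[(1,0),(9,0)]⟩⟩ ⟨false,1,⟨1,[(34,0),(0,1),(2,0)]⟩,⟨1,[(23,0),(0,0),(8,0),(3,
  1),(1,0)]⟩⟩,.o ⟨false,1,⟨10,[(0,0),(7,0),(2,3),(19,1),(2,4),(3,0)]⟩,⟨0,[(37,0)]⟩⟩,.o ⟨false,0,⟨1,
  [(23,0),(0,0)]⟩,⟨1,[(34,0),(3,0)]⟩⟩,.a ⟨true,(-1),⟨0,[(2,0),(20,0)]⟩,⟨0,[(38,0)]⟩⟩ ⟨false,1,⟨0,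
  [(4,0)]⟩,⟨3,[(1,0),(9,0),(11,1),(0,1)]⟩⟩ ⟨true,1,⟨1,[(34,0),(0,1),(2,0)]⟩,⟨0,[(2,0),(20,0),(13,
  0)]⟩⟩]⟩) (.Q [0,-1,0,-1,0,0,-1,-1,0,1,-1] (.p false [0,0,1] [1] (⟨0,[(26,0)]⟩,⟨0,[(25,0)]⟩) .k 1
  (⟨0,[]⟩,⟨0,[]⟩) .k .k) (.R ⟨2,true,false,false,[0,1],[1,0,-1],[1,0,1,1],(⟨0,[]⟩,⟨0,[]⟩),(⟨0,[(26,
  0)]⟩,⟨0,[(27,0)]⟩),⟨0,[]⟩,.k,.k,.k,.k,.k,.k,⟨false,0,⟨0,[(4,0)]⟩,⟨0,[(5,0),(17,0),(0,0)]⟩⟩,⟨true,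
  (-1),⟨0,[(3,0)]⟩,⟨1,[(24,1),(10,0),(3,0)]⟩⟩,⟨true,0,⟨0,[]⟩,⟨0,[(42,0)]⟩⟩,⟨false,0,⟨0,[(0,0)]⟩,⟨3,
  [(6,1),(0,1),(4,1),(22,0),(3,0)]⟩⟩,⟨false,1,⟨2,[(5,0),(6,1)]⟩,⟨0,[(38,0)]⟩⟩,⟨true,0,⟨30,[(0,22),
  (1,0),(6,7),(2,4),(19,7),(1,3),(2,2)]⟩,⟨0,[(6,0)]⟩⟩,[]⟩) (.S ⟨1,0,[0,1,-1,-2],[1,-1],[1,0,-1,-1],
  (⟨0,[(30,0)]⟩,⟨0,[(31,0)]⟩),⟨0,[(15,0),(0,0)]⟩,.k,(.r (-1) ⟨15,[(1,5),(3,13),(2,5),(8,4),(0,4),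
  (13,3),(2,2)]⟩ ⟨1,[(2,0),(9,0)]⟩),⟨true,0,⟨0,[]⟩,⟨0,[(42,0)]⟩⟩,⟨false,0,⟨0,[(38,0)]⟩,⟨2,[(5,0),(6,
  1)]⟩⟩,⟨false,1,⟨2,[(5,0),(6,1)]⟩,⟨0,[(38,0)]⟩⟩,⟨true,0,⟨0,[(42,0)]⟩,⟨0,[]⟩⟩,[.e ⟨false,1,⟨31,[(1,
  1),(3,25),(2,1),(8,6),(0,6),(13,11),(2,0)]⟩,⟨3,[(2,0),(9,0)]⟩⟩ ⟨false,0,⟨0,[(0,0),(0,0),(3,0)]⟩,
  ⟨0,[(12,0)]⟩⟩,.o ⟨false,0,⟨2,[(1,1),(6,1),(26,0),(4,0)]⟩,⟨3,[(2,0),(9,0),(22,1),(0,3),(3,1)]⟩⟩,.o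
  ⟨false,0,⟨1,[(24,0),(0,0)]⟩,⟨1,[(35,0),(3,0)]⟩⟩,.a ⟨true,(-1),⟨0,[(3,0),(20,0)]⟩,⟨0,[(39,0)]⟩⟩
  ⟨false,1,⟨0,[(5,0)]⟩,⟨3,[(2,0),(9,0),(11,1),(0,1)]⟩⟩ ⟨true,0,⟨0,[(0,0),(0,0),(3,0)]⟩,⟨1,[(2,0),(9,
  0)]⟩⟩]⟩))) (.I [0,1,-2,-2] (.S ⟨1,0,[0,1,-1,-2],[1,-1],[1,0,-1,-1],(⟨0,[(29,0)]⟩,⟨0,[(30,0)]⟩),⟨0,
  [(14,0),(0,0)]⟩,.k,(.r (-1) ⟨4,[(0,1),(0,1),(14,2),(0,2),(19,1)]⟩ ⟨0,[(2,1),(20,1),(10,0),(0,1),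
  (3,0)]⟩),⟨true,0,⟨0,[]⟩,⟨0,[(41,0)]⟩⟩,⟨false,0,⟨0,[(37,0)]⟩,⟨3,[(1,0),(9,2)]⟩⟩,⟨false,1,⟨3,[(1,0),
  (9,2)]⟩,⟨0,[(37,0)]⟩⟩,⟨true,0,⟨0,[(41,0)]⟩,⟨0,[]⟩⟩,[.e ⟨false,1,⟨7,[(1,3),(14,2),(0,2),(13,1),(6,
  0)]⟩,⟨1,[(2,1),(20,1),(10,0),(0,1),(3,0)]⟩⟩ ⟨false,0,⟨0,[(0,0)]⟩,⟨0,[(11,0)]⟩⟩,.o ⟨false,0,⟨0,
  [(37,1)]⟩,⟨0,[(2,0),(20,0),(10,0),(0,1),(3,0)]⟩⟩,.o ⟨false,0,⟨1,[(23,0),(0,0)]⟩,⟨1,[(34,0),(3,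
  0)]⟩⟩,.a ⟨true,(-1),⟨0,[(2,0),(20,0)]⟩,⟨0,[(38,0)]⟩⟩ ⟨false,1,⟨0,[(4,0)]⟩,⟨5,[(2,3),(5,0),(1,0),
  (0,1),(11,4),(10,1)]⟩⟩ ⟨true,0,⟨0,[(0,0)]⟩,⟨0,[(2,1),(20,1),(10,0),(0,1),(3,0)]⟩⟩]⟩) (.S ⟨1,0,[0,
  0,0,-1,0,0,0,1],[0,0,1],[1,1,0,0,0,0,0,1],(⟨0,[(26,0)]⟩,⟨0,[(25,0)]⟩),⟨0,[(15,0)]⟩,.k,.k,⟨false,0,
  ⟨0,[]⟩,⟨1,[(16,0),(0,0),(21,0)]⟩⟩,⟨true,0,⟨0,[(37,0)]⟩,⟨0,[(36,0)]⟩⟩,⟨true,0,⟨0,[(36,0)]⟩,⟨0,[(37,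
  0)]⟩⟩,⟨false,1,⟨1,[(16,0),(0,0),(21,0)]⟩,⟨0,[]⟩⟩,[.e ⟨false,0,⟨13,[(1,3),(0,3),(0,7),(1,4),(7,0),
  (7,0),(9,5)]⟩,⟨0,[(0,0),(0,0),(20,0),(0,0)]⟩⟩ ⟨false,0,⟨3,[(1,1),(0,1),(0,0),(1,1),(1,0),(1,0)]⟩,
  ⟨1,[(1,0),(6,1),(2,0),(11,1)]⟩⟩,.o ⟨false,1,⟨1,[(7,1),(26,0),(4,0)]⟩,⟨0,[(8,0)]⟩⟩,.o ⟨false,1,⟨1,
  [(23,1),(10,0),(3,0)]⟩,⟨0,[(9,0)]⟩⟩,.a ⟨true,0,⟨0,[(23,0)]⟩,⟨0,[(20,0)]⟩⟩ ⟨false,0,⟨2,[(0,0),(0,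
  1),(0,1),(0,0),(1,1),(29,0)]⟩,⟨0,[(22,0),(0,0),(15,0)]⟩⟩ ⟨true,0,⟨3,[(1,1),(0,1),(0,0),(1,1),(1,
  0),(1,0)]⟩,⟨0,[(8,0),(14,0)]⟩⟩]⟩)))

theorem ok94 : chk K t94 r47 = true := by decide +kernel

noncomputable def t96 : Tre :=
  (.R ⟨2,true,false,false,[0,1],[1,0,-1],[0,0,1,0,0,0,0,-1],(⟨0,[]⟩,⟨0,[]⟩),(⟨0,[(22,0)]⟩,⟨0,[(23,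
  0)]⟩),⟨0,[]⟩,.k,.k,.k,.k,.k,.k,⟨true,0,⟨1,[(20,0),(0,0)]⟩,⟨0,[]⟩⟩,⟨false,0,⟨5,[(10,2),(2,0),(0,0),
  (9,0),(1,0),(3,0)]⟩,⟨1,[(0,1),(2,1),(27,0),(0,1),(3,0)]⟩⟩,⟨true,0,⟨0,[(0,0)]⟩,⟨1,[(3,0),(2,0),(0,
  0),(24,0)]⟩⟩,⟨false,0,⟨1,[(0,1),(5,1),(23,0),(5,0)]⟩,⟨3,[(2,1),(0,1),(4,1),(22,0),(3,0)]⟩⟩,⟨false,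
  1,⟨2,[(0,2),(0,0),(6,1)]⟩,⟨0,[(3,0),(2,0)]⟩⟩,⟨true,0,⟨3,[(0,2),(4,0),(2,0),(1,0),(6,0),(12,0)]⟩,
  ⟨0,[(2,0)]⟩⟩,[]⟩)

theorem ok96 : chk K t96 r46 = true := by decide +kernel

noncomputable def t98 : Tre :=
  (.R ⟨2,true,false,true,[0,1],[1,-1],[1,1,1,1],(⟨0,[]⟩,⟨0,[]⟩),(⟨0,[(27,0)]⟩,⟨0,[(28,0)]⟩),⟨0,[]⟩,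
  .k,.k,.k,(.r 0 ⟨2,[(2,1),(6,1)]⟩ ⟨0,[(35,1),(0,0)]⟩),.k,.k,⟨false,0,⟨8,[(0,5),(1,4),(6,1),(21,2),
  (1,2)]⟩,⟨0,[(35,1),(0,0)]⟩⟩,⟨true,(-1),⟨3,[(1,1),(0,3),(28,0),(5,2)]⟩,⟨1,[(32,0),(3,0)]⟩⟩,⟨false,
  0,⟨0,[]⟩,⟨1,[(14,0),(0,0),(21,0)]⟩⟩,⟨true,(-1),⟨0,[(1,0)]⟩,⟨8,[(0,2),(1,0),(6,3),(22,2),(0,5)]⟩⟩,
  ⟨true,0,⟨0,[(34,0)]⟩,⟨0,[(35,0)]⟩⟩,⟨false,0,⟨7,[(1,5),(7,1),(4,1),(0,1),(15,0),(4,0),(0,1)]⟩,⟨0,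
  [(0,0)]⟩⟩,[]⟩)

theorem ok98 : chk K t98 l56 = true := by decide +kernel

noncomputable def t99 : Tre :=
  (.R ⟨1,false,false,true,[1,-1],[0,1],[0,0,-1,-2],(⟨0,[(28,0)]⟩,⟨0,[(29,0)]⟩),(⟨0,[(29,0)]⟩,⟨0,
  [(28,0)]⟩),⟨0,[(13,0),(0,0)]⟩,.k,.k,(.r (-1) ⟨11,[(0,9),(1,1),(12,2),(0,2),(13,3),(2,0)]⟩ ⟨2,[(3,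
  1),(6,1)]⟩),(.r (-1) ⟨11,[(0,9),(1,1),(12,2),(0,2),(13,3),(2,0)]⟩ ⟨2,[(3,1),(6,1)]⟩),(.r (-1) ⟨8,
  [(0,10),(1,3),(27,1),(2,1),(0,2)]⟩ ⟨0,[(3,0),(6,0)]⟩),.k,⟨true,1,⟨0,[(0,0),(35,0)]⟩,⟨0,[(3,1),(30,
  0),(3,0)]⟩⟩,⟨false,2,⟨1,[(33,0),(3,2)]⟩,⟨3,[(2,1),(0,3),(28,0),(5,2)]⟩⟩,⟨true,0,⟨0,[(36,0)]⟩,⟨0,
  [(35,0)]⟩⟩,⟨false,1,⟨5,[(3,1),(6,1),(22,2),(0,5),(3,2)]⟩,⟨0,[(2,0),(35,0)]⟩⟩,⟨false,1,⟨8,[(0,2),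
  (9,1),(0,1),(9,1),(0,1),(15,1)]⟩,⟨0,[]⟩⟩,⟨false,1,⟨1,[(3,1),(29,0),(0,3),(3,2)]⟩,⟨0,[(2,0),(33,0),
  (1,0)]⟩⟩,[.e ⟨false,1,⟨11,[(0,9),(1,1),(12,2),(0,2),(13,3),(2,0)]⟩,⟨0,[(3,0),(30,0),(3,0)]⟩⟩
  ⟨false,1,⟨1,[(33,0),(0,1),(2,0)]⟩,⟨3,[(2,1),(19,1),(0,1),(8,0),(5,2)]⟩⟩,.o ⟨false,1,⟨13,[(10,5),
  (19,1),(2,6),(0,1),(2,0)]⟩,⟨0,[(36,0)]⟩⟩,.o ⟨false,0,⟨1,[(22,0),(0,0)]⟩,⟨1,[(33,0),(3,0)]⟩⟩,.a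
  ⟨true,(-1),⟨3,[(2,1),(0,3),(28,0),(5,2)]⟩,⟨0,[(37,0)]⟩⟩ ⟨false,1,⟨0,[(0,0)]⟩,⟨2,[(3,1),(6,1)]⟩⟩
  ⟨true,1,⟨1,[(33,0),(0,1),(2,0)]⟩,⟨0,[(2,0),(0,0),(34,0)]⟩⟩]⟩)

theorem ok99 : chk K t99 l57 = true := by decide +kernel

noncomputable def t100 : Tre :=
  (.I [0,0,2,2,-1,0,0,1] (.R ⟨1,true,false,true,[1,0,-1],[0,1],[1,1,0,0,0,0,0,-1],(⟨0,[(28,0)]⟩,⟨0,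
  [(29,0)]⟩),(⟨0,[(33,0)]⟩,⟨0,[(32,0)]⟩),⟨0,[(17,0)]⟩,.k,.k,.k,.k,(.r (-2) ⟨3,[(1,3),(17,0),(0,0),
  (5,3),(7,1),(2,1),(3,4)]⟩ ⟨0,[(0,0)]⟩),.k,⟨true,1,⟨1,[(1,1),(24,1),(10,0),(0,1),(2,0)]⟩,⟨4,[(0,4),
  (0,0),(4,0),(3,0),(26,0)]⟩⟩,⟨false,2,⟨1,[(26,1),(10,0),(3,2)]⟩,⟨0,[(3,0)]⟩⟩,⟨false,0,⟨0,[]⟩,⟨1,
  [(19,0),(0,0),(21,0)]⟩⟩,⟨true,0,⟨0,[(2,0)]⟩,⟨5,[(1,3),(12,0),(10,1),(8,0),(1,0),(7,0)]⟩⟩,⟨true,0,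
  ⟨0,[(39,0)]⟩,⟨0,[(40,0)]⟩⟩,⟨false,1,⟨3,[(2,3),(11,1),(26,0),(0,0)]⟩,⟨0,[(1,0)]⟩⟩,[]⟩) (.R ⟨1,
  false,false,true,[1,0,-1],[0,1],[],(⟨0,[(28,0)]⟩,⟨0,[(29,0)]⟩),(⟨0,[(33,0)]⟩,⟨0,[(32,0)]⟩),⟨0,
  [(17,0)]⟩,.k,.k,.k,.k,(.x 1 ⟨5,[(1,0),(1,4),(3,2),(2,0),(16,0),(1,5),(5,3),(1,0),(4,0)]⟩ ⟨9,[(0,
  8),(1,8),(11,1),(2,14),(0,4),(7,0),(10,2),(0,4),(3,5)]⟩),.k,⟨true,1,⟨5,[(0,1),(9,1),(1,1),(28,0),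
  (0,2)]⟩,⟨0,[(7,0)]⟩⟩,⟨false,2,⟨3,[(0,3),(1,3),(11,1),(26,0),(0,0)]⟩,⟨0,[(3,0)]⟩⟩,⟨true,0,⟨0,[(9,
  0),(2,0)]⟩,⟨0,[(0,0),(3,0)]⟩⟩,⟨true,0,⟨0,[(2,0)]⟩,⟨5,[(1,3),(12,0),(10,1),(8,0),(1,0),(7,0)]⟩⟩,
  ⟨true,0,⟨1,[(2,1),(0,0),(19,0),(18,0)]⟩,⟨0,[(0,0),(6,0)]⟩⟩,⟨false,1,⟨3,[(2,3),(11,1),(26,0),(0,
  0)]⟩,⟨0,[(1,0)]⟩⟩,[.e ⟨false,1,⟨14,[(0,3),(13,1),(0,3),(18,2),(6,4)]⟩,⟨0,[]⟩⟩ ⟨false,1,⟨9,[(0,3),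
  (1,3),(11,1),(11,5),(10,2),(0,9),(3,0)]⟩,⟨2,[(1,0),(1,0),(6,0),(1,0),(10,0),(18,0)]⟩⟩,.o ⟨false,1,
  ⟨13,[(14,5),(19,1),(2,6),(0,1),(2,0)]⟩,⟨0,[(40,0)]⟩⟩,.o ⟨false,0,⟨0,[(12,0)]⟩,⟨9,[(0,3),(1,3),(11,
  1),(11,5),(10,2),(4,0)]⟩⟩,.a ⟨true,(-1),⟨0,[(3,0)]⟩,⟨0,[(26,0),(14,0)]⟩⟩ ⟨false,1,⟨1,[(41,0),(0,
  0)]⟩,⟨1,[(26,0),(0,0)]⟩⟩ ⟨true,1,⟨9,[(0,3),(1,3),(11,1),(11,5),(10,2),(0,9),(3,0)]⟩,⟨4,[(1,0),(1,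
  4),(2,0),(3,0),(26,0)]⟩⟩]⟩))

theorem ok100 : chk K t100 l60 = true := by decide +kernel

noncomputable def t101 : Tre :=
  (.I [0,0,-2,0,1,-2,-1] (.R ⟨1,false,false,true,[0,0,1],[0,1],[1,1,1],(⟨0,[(30,0)]⟩,⟨0,[(29,0)]⟩),
  (⟨0,[(34,0)]⟩,⟨0,[(33,0)]⟩),⟨0,[(19,0)]⟩,.k,.k,.k,.k,(.x 0 ⟨3,[(18,3),(8,4),(0,0),(7,3),(7,1)]⟩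
  ⟨0,[(0,0)]⟩),.k,⟨true,0,⟨1,[(1,0),(24,0)]⟩,⟨2,[(8,0),(6,0)]⟩⟩,⟨false,1,⟨0,[(13,0),(28,0)]⟩,⟨0,
  [(27,0)]⟩⟩,⟨true,0,⟨0,[(26,0),(0,0)]⟩,⟨1,[(1,1),(2,1),(33,0),(0,3),(3,0)]⟩⟩,⟨true,0,⟨0,[(12,0)]⟩,
  ⟨0,[(11,0)]⟩⟩,⟨true,0,⟨0,[(12,0),(14,0)]⟩,⟨0,[(1,0),(11,0),(25,0)]⟩⟩,⟨false,1,⟨3,[(12,3),(2,1),
  (26,0),(0,0)]⟩,⟨0,[(1,0)]⟩⟩,[.e ⟨false,0,⟨0,[(45,0)]⟩,⟨1,[(42,0),(0,0)]⟩⟩ ⟨false,0,⟨0,[(13,0),(25,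
  0)]⟩,⟨1,[(1,0),(24,0),(0,1),(14,0),(0,0)]⟩⟩,.o ⟨false,1,⟨14,[(2,0),(9,0),(2,5),(19,1),(2,6),(3,
  1)]⟩,⟨0,[(41,0)]⟩⟩,.o ⟨false,1,⟨1,[(27,1),(10,0),(3,0)]⟩,⟨0,[(13,0)]⟩⟩,.a ⟨true,0,⟨0,[(27,0)]⟩,⟨0,
  [(24,0)]⟩⟩ ⟨false,0,⟨0,[]⟩,⟨1,[(20,0),(0,0),(21,0)]⟩⟩ ⟨true,0,⟨0,[(13,0),(25,0)]⟩,⟨1,[(1,0),(24,
  0),(0,1)]⟩⟩]⟩) (.R ⟨1,false,false,true,[0,0,1],[0,1],[1,1,1],(⟨0,[(30,0)]⟩,⟨0,[(29,0)]⟩),(⟨0,[(34,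
  0)]⟩,⟨0,[(33,0)]⟩),⟨0,[(19,0)]⟩,.k,.k,.k,.k,(.r (-1) ⟨3,[(1,3),(15,1),(17,1),(2,0),(3,2)]⟩ ⟨5,[(0,
  3),(4,1),(6,5),(5,1),(0,5),(7,1),(10,0),(0,1),(3,4)]⟩),.k,⟨true,0,⟨1,[(1,0),(24,0)]⟩,⟨2,[(8,0),(6,
  0)]⟩⟩,⟨false,1,⟨0,[(13,0),(28,0)]⟩,⟨0,[(27,0)]⟩⟩,⟨true,0,⟨0,[(26,0),(0,0)]⟩,⟨1,[(1,1),(2,1),(33,
  0),(0,3),(3,0)]⟩⟩,⟨true,0,⟨0,[(12,0)]⟩,⟨0,[(11,0)]⟩⟩,⟨true,0,⟨0,[(12,0),(14,0)]⟩,⟨0,[(1,0),(11,0),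
  (25,0)]⟩⟩,⟨false,1,⟨3,[(12,3),(2,1),(26,0),(0,0)]⟩,⟨0,[(1,0)]⟩⟩,[.e ⟨false,0,⟨0,[(45,0)]⟩,⟨1,[(42,
  0),(0,0)]⟩⟩ ⟨false,0,⟨0,[(13,0),(25,0)]⟩,⟨1,[(1,0),(24,0),(0,1),(14,0),(0,0)]⟩⟩,.o ⟨false,1,⟨14,
  [(2,0),(9,0),(2,5),(19,1),(2,6),(3,1)]⟩,⟨0,[(41,0)]⟩⟩,.o ⟨false,1,⟨1,[(27,1),(10,0),(3,0)]⟩,⟨0,
  [(13,0)]⟩⟩,.a ⟨true,0,⟨0,[(27,0)]⟩,⟨0,[(24,0)]⟩⟩ ⟨false,0,⟨0,[]⟩,⟨1,[(20,0),(0,0),(21,0)]⟩⟩ ⟨true,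
  0,⟨0,[(13,0),(25,0)]⟩,⟨1,[(1,0),(24,0),(0,1)]⟩⟩]⟩))

theorem ok101 : chk K t101 l61 = true := by decide +kernel

noncomputable def t102 : Tre :=
  (.Q [0,1,-1,-1,-1,0,-1,0,0,1,-1] (.p false [0,0,1] [1] (⟨0,[(32,0)]⟩,⟨0,[(31,0)]⟩) .k 1 (⟨0,[]⟩,
  ⟨0,[]⟩) .k .k) (.Q [0,0,0,0,0,2,0,0,0,0,-1] (.p false [0,0,1] [] (⟨0,[(33,0)]⟩,⟨0,[(32,0)]⟩) .k 0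
  (⟨0,[]⟩,⟨0,[]⟩) .k .k) (.R ⟨0,false,false,false,[0,-1,1],[1,-1],[1],(⟨0,[(23,0)]⟩,⟨187,[(0,83),(2,
  11),(7,17),(8,23),(12,103),(1,19),(5,32),(4,11),(0,2)]⟩),(⟨0,[(37,0)]⟩,⟨0,[(38,0)]⟩),⟨0,[(0,0)]⟩,
  .k,.k,(.r 0 ⟨0,[(2,0)]⟩ ⟨8,[(3,5),(0,2),(7,0),(6,3),(0,2),(10,2)]⟩),.k,.k,.k,⟨true,0,⟨2,[(12,0),
  (6,0)]⟩,⟨0,[(45,0)]⟩⟩,⟨false,0,⟨0,[(28,0)]⟩,⟨1,[(31,1),(10,0),(3,0)]⟩⟩,⟨false,1,⟨15,[(3,7),(0,2),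
  (4,2),(9,0),(11,2),(15,12)]⟩,⟨21,[(2,14),(1,0),(1,1),(1,1),(5,0),(3,0),(1,2)]⟩⟩,⟨true,0,⟨5,[(1,1),
  (1,1),(4,1),(21,1),(10,0),(5,2)]⟩,⟨0,[(13,0)]⟩⟩,⟨false,0,⟨0,[]⟩,⟨0,[]⟩⟩,⟨false,0,⟨0,[]⟩,⟨0,[]⟩⟩,
  [.o ⟨false,0,⟨0,[(45,0)]⟩,⟨39,[(5,1),(0,1),(12,15),(19,5),(2,18),(3,4)]⟩⟩,.a ⟨true,0,⟨3,[(11,1),
  (29,0),(5,2)]⟩,⟨0,[(44,0)]⟩⟩ ⟨false,1,⟨1,[(46,0),(0,0)]⟩,⟨47,[(3,4),(7,7),(0,0),(5,9),(20,11),(2,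
  3)]⟩⟩ ⟨true,0,⟨0,[(1,0),(45,0)]⟩,⟨7,[(3,0),(5,1),(2,2),(16,1),(1,5),(10,3)]⟩⟩,.a ⟨true,0,⟨0,[(31,
  0)]⟩,⟨0,[(28,0)]⟩⟩ ⟨true,0,⟨0,[]⟩,⟨47,[(3,4),(7,7),(0,0),(5,9),(20,11),(2,3)]⟩⟩ ⟨false,0,⟨0,[(1,
  0),(45,0)]⟩,⟨10,[(3,1),(3,0),(6,1),(4,3),(9,0),(1,6),(10,4)]⟩⟩,.a ⟨true,0,⟨1,[(31,2),(0,0)]⟩,⟨1,
  [(2,1),(2,1),(35,0),(5,0)]⟩⟩ ⟨false,1,⟨1,[(46,0),(0,0)]⟩,⟨1,[(31,0),(0,0)]⟩⟩ ⟨true,0,⟨1,[(1,1),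
  (44,0),(0,0)]⟩,⟨7,[(3,0),(5,1),(2,2),(16,1),(1,5),(10,3)]⟩⟩]⟩) (.R ⟨0,false,false,false,[1,-1,-1],
  [1,-1],[1,1,1],(⟨0,[(22,0)]⟩,⟨99,[(3,3),(7,5),(8,7),(13,99),(0,15),(4,27),(0,10),(4,3),(0,0)]⟩),
  (⟨0,[(37,0)]⟩,⟨0,[(38,0)]⟩),⟨2,[(0,1),(33,0),(0,0),(4,2)]⟩,.k,.k,(.r (-2) ⟨12,[(2,14),(0,15),(16,
  3),(24,15),(1,5)]⟩ ⟨2,[(2,0),(1,1),(1,1),(2,1),(31,0),(5,1)]⟩),.k,.k,.k,⟨true,(-1),⟨0,[(12,0)]⟩,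
  ⟨12,[(2,6),(0,3),(16,0),(24,3),(1,7)]⟩⟩,⟨false,1,⟨0,[(31,0),(14,0)]⟩,⟨0,[(17,0)]⟩⟩,⟨false,(-1),⟨3,
  [(4,3),(1,1),(7,1),(26,0),(5,0)]⟩,⟨0,[(2,0),(0,0),(43,0)]⟩⟩,⟨true,0,⟨0,[(14,0)]⟩,⟨0,[(30,0)]⟩⟩,
  ⟨false,0,⟨0,[]⟩,⟨0,[]⟩⟩,⟨false,0,⟨0,[]⟩,⟨0,[]⟩⟩,[.o ⟨false,0,⟨0,[(45,0)]⟩,⟨39,[(5,1),(0,1),(12,
  15),(19,5),(2,18),(3,4)]⟩⟩,.e ⟨false,0,⟨0,[]⟩,⟨2,[(2,0),(0,0),(16,0),(25,0)]⟩⟩ ⟨false,2,⟨3,[(2,1),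
  (0,1),(11,1),(15,1),(14,2),(0,2)]⟩,⟨2,[(1,0),(2,1),(0,0),(0,0)]⟩⟩,.a ⟨true,(-1),⟨0,[(8,0)]⟩,⟨0,
  [(31,0),(14,0)]⟩⟩ ⟨false,0,⟨1,[(31,0),(0,0)]⟩,⟨1,[(46,0),(0,0)]⟩⟩ ⟨true,1,⟨3,[(2,1),(0,1),(11,1),
  (15,1),(14,0),(0,0)]⟩,⟨2,[(1,0),(2,1),(0,0),(0,0)]⟩⟩,.o ⟨false,(-1),⟨0,[(4,0)]⟩,⟨1,[(31,1),(10,0),
  (3,2)]⟩⟩]⟩)) (.Q [0,0,0,0,0,2,0,0,0,0,-1] (.p false [0,0,1] [] (⟨0,[(33,0)]⟩,⟨0,[(32,0)]⟩) .k 0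
  (⟨0,[]⟩,⟨0,[]⟩) .k .k) (.R ⟨0,false,false,true,[0,-1,1],[1,-1],[1,1],(⟨0,[(23,0)]⟩,⟨187,[(0,83),
  (2,11),(7,17),(8,23),(12,103),(1,19),(5,32),(4,11),(0,2)]⟩),(⟨0,[(37,0)]⟩,⟨0,[(38,0)]⟩),⟨0,[(0,
  0)]⟩,.k,.k,(.r 0 ⟨0,[(2,0)]⟩ ⟨8,[(3,5),(0,2),(7,0),(6,3),(0,2),(10,2)]⟩),.k,.k,.k,⟨true,0,⟨2,[(12,
  0),(6,0)]⟩,⟨0,[(45,0)]⟩⟩,⟨false,0,⟨0,[(28,0)]⟩,⟨5,[(1,2),(0,1),(0,1),(9,0),(1,0),(15,0),(10,0)]⟩⟩,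
  ⟨true,0,⟨1,[(3,0),(8,0)]⟩,⟨21,[(2,14),(1,0),(1,1),(1,1),(5,0),(3,0),(1,2)]⟩⟩,⟨false,0,⟨3,[(5,0),
  (4,1),(19,2),(10,0),(5,2)]⟩,⟨1,[(14,1),(27,0),(4,0)]⟩⟩,⟨false,0,⟨0,[]⟩,⟨0,[]⟩⟩,⟨false,0,⟨0,[]⟩,⟨0,
  []⟩⟩,[.e ⟨false,0,⟨11,[(2,1),(0,0),(7,1),(27,0),(2,0),(0,6)]⟩,⟨12,[(2,1),(0,2),(16,3),(24,2),(1,
  5)]⟩⟩ ⟨false,0,⟨6,[(2,2),(0,0),(7,0),(16,5),(1,0),(8,1)]⟩,⟨0,[(1,0)]⟩⟩,.o ⟨false,0,⟨0,[(45,0)]⟩,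
  ⟨39,[(5,1),(0,1),(12,15),(19,5),(2,18),(3,4)]⟩⟩,.e ⟨false,0,⟨0,[]⟩,⟨12,[(2,1),(0,2),(16,3),(24,2),
  (1,5)]⟩⟩ ⟨false,0,⟨16,[(2,3),(0,0),(7,4),(9,2),(6,8),(1,1),(16,3)]⟩,⟨0,[(1,0)]⟩⟩,.a ⟨true,0,⟨1,
  [(31,2),(0,0)]⟩,⟨1,[(2,1),(2,1),(35,0),(5,0)]⟩⟩ ⟨true,0,⟨11,[(2,1),(0,0),(7,1),(27,0),(2,0),(0,
  6)]⟩,⟨1,[(31,0),(0,0)]⟩⟩ ⟨false,0,⟨1,[(2,1),(2,0),(24,0),(10,0),(5,0)]⟩,⟨1,[(1,1),(29,0),(0,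
  0)]⟩⟩]⟩) (.R ⟨0,false,false,false,[1,-1,-1],[1,-1],[1,1,1],(⟨0,[(22,0)]⟩,⟨99,[(3,3),(7,5),(8,7),
  (13,99),(0,15),(4,27),(0,10),(4,3),(0,0)]⟩),(⟨0,[(37,0)]⟩,⟨0,[(38,0)]⟩),⟨2,[(0,1),(33,0),(0,0),(4,
  2)]⟩,.k,.k,(.r (-2) ⟨12,[(2,14),(0,15),(16,3),(24,15),(1,5)]⟩ ⟨2,[(2,0),(1,1),(1,1),(2,1),(31,0),
  (5,1)]⟩),.k,.k,.k,⟨true,(-1),⟨0,[(12,0)]⟩,⟨12,[(2,6),(0,3),(16,0),(24,3),(1,7)]⟩⟩,⟨false,1,⟨0,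
  [(31,0),(14,0)]⟩,⟨0,[(17,0)]⟩⟩,⟨false,(-1),⟨3,[(4,3),(1,1),(7,1),(26,0),(5,0)]⟩,⟨0,[(2,0),(0,0),
  (43,0)]⟩⟩,⟨true,0,⟨0,[(14,0)]⟩,⟨0,[(30,0)]⟩⟩,⟨false,0,⟨0,[]⟩,⟨0,[]⟩⟩,⟨false,0,⟨0,[]⟩,⟨0,[]⟩⟩,[.o
  ⟨false,0,⟨0,[(45,0)]⟩,⟨39,[(5,1),(0,1),(12,15),(19,5),(2,18),(3,4)]⟩⟩,.e ⟨false,0,⟨0,[]⟩,⟨2,[(2,
  0),(0,0),(16,0),(25,0)]⟩⟩ ⟨false,2,⟨3,[(2,1),(0,1),(11,1),(15,1),(14,2),(0,2)]⟩,⟨1,[(2,0),(1,0),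
  (0,0),(3,0)]⟩⟩,.a ⟨true,(-1),⟨0,[(8,0)]⟩,⟨0,[(31,0),(14,0)]⟩⟩ ⟨false,0,⟨1,[(31,0),(0,0)]⟩,⟨1,[(46,
  0),(0,0)]⟩⟩ ⟨true,1,⟨3,[(2,1),(0,1),(11,1),(15,1),(14,0),(0,0)]⟩,⟨1,[(2,0),(1,0),(0,0),(3,0)]⟩⟩,
  .o ⟨false,(-1),⟨0,[(4,0)]⟩,⟨9,[(1,5),(0,3),(0,3),(9,1),(1,1),(26,0),(3,8)]⟩⟩]⟩)))

theorem ok102 : chk K t102 l64 = true := by decide +kernel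

noncomputable def t103 : Tre :=
  (.R ⟨0,false,false,false,[1,-1,-1],[1,-1],[],(⟨0,[(23,0)]⟩,⟨0,[(24,0),(11,1)]⟩),(⟨0,[(38,0)]⟩,⟨0,
  [(39,0)]⟩),⟨0,[(0,0)]⟩,.k,.k,(.r (-2) ⟨1,[(1,1),(10,1),(12,0),(0,0),(16,0),(3,1)]⟩ ⟨0,[(2,0)]⟩),
  .k,.k,.k,⟨true,0,⟨4,[(3,0),(6,0),(10,0)]⟩,⟨0,[(46,0)]⟩⟩,⟨false,1,⟨0,[(32,0),(14,0)]⟩,⟨0,[(18,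
  0)]⟩⟩,⟨false,0,⟨1,[(2,0),(12,0),(2,0),(29,0)]⟩,⟨2,[(1,2),(10,1),(30,0),(0,0),(2,0)]⟩⟩,⟨true,0,⟨0,
  [(15,0)]⟩,⟨0,[(31,0)]⟩⟩,⟨false,0,⟨0,[]⟩,⟨0,[]⟩⟩,⟨false,0,⟨0,[]⟩,⟨0,[]⟩⟩,[.o ⟨false,0,⟨0,[(46,0)]⟩,
  ⟨39,[(6,1),(0,1),(12,15),(19,5),(2,18),(3,4)]⟩⟩,.e ⟨false,1,⟨1,[(47,0),(0,0)]⟩,⟨47,[(4,4),(7,7),
  (0,0),(5,9),(20,11),(2,3)]⟩⟩ ⟨false,2,⟨0,[(1,0),(14,0),(30,0)]⟩,⟨0,[(5,0),(38,0)]⟩⟩,.a ⟨true,(-1),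
  ⟨0,[(9,0)]⟩,⟨0,[(32,0),(14,0)]⟩⟩ ⟨false,1,⟨17,[(1,7),(14,3),(4,3),(0,1),(20,0),(3,1),(0,2)]⟩,⟨0,
  []⟩⟩ ⟨true,1,⟨2,[(1,1),(10,0),(1,0),(1,0),(15,0),(14,1)]⟩,⟨0,[(5,0),(38,0)]⟩⟩,.o ⟨false,(-1),⟨0,
  [(5,0)]⟩,⟨0,[(1,0),(12,0),(32,0)]⟩⟩]⟩)

theorem ok103 : chk K t103 l67 = true := by decide +kernel

noncomputable def t104 : Tre :=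
  (.S ⟨1,0,[0,0,0,-1,0,0,0,1],[0,0,1],[1,1,0,0,0,0,0,1],(⟨0,[(36,0)]⟩,⟨0,[(35,0)]⟩),⟨0,[(25,0)]⟩,.k,
  .k,⟨false,0,⟨0,[]⟩,⟨17,[(2,7),(14,3),(4,3),(0,1),(20,0),(3,1),(0,2)]⟩⟩,⟨true,0,⟨0,[(47,0)]⟩,⟨0,
  [(46,0)]⟩⟩,⟨true,0,⟨0,[(46,0)]⟩,⟨0,[(47,0)]⟩⟩,⟨false,1,⟨17,[(2,7),(14,3),(4,3),(0,1),(20,0),(3,1),
  (0,2)]⟩,⟨0,[]⟩⟩,[.e ⟨false,0,⟨5,[(0,3),(14,0),(7,0),(7,0),(9,1)]⟩,⟨0,[(2,0)]⟩⟩ ⟨false,0,⟨0,[(0,0),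
  (46,0)]⟩,⟨7,[(5,3),(15,1),(26,0),(0,0)]⟩⟩,.o ⟨false,1,⟨1,[(17,1),(26,0),(4,0)]⟩,⟨0,[(18,0)]⟩⟩,.o
  ⟨false,1,⟨0,[(2,0),(12,0)]⟩,⟨0,[(19,0)]⟩⟩,.a ⟨true,0,⟨0,[(33,0)]⟩,⟨0,[(30,0)]⟩⟩ ⟨false,0,⟨0,[(0,
  0)]⟩,⟨1,[(2,1),(30,0),(0,0)]⟩⟩ ⟨true,0,⟨0,[(0,0),(46,0)]⟩,⟨1,[(5,0),(8,0)]⟩⟩]⟩)

theorem ok104 : chk K t104 l68 = true := by decide +kernel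

noncomputable def t105 : Tre :=
  (.Q [0,0,0,0,1,0,2,0,0,-1,2] (.p true [0,0,1] [1,0,-1] (⟨0,[(40,0)]⟩,⟨0,[(39,0)]⟩) .k 2 (⟨0,[(39,
  0)]⟩,⟨0,[(40,0)]⟩) .k (.r 0 ⟨0,[(20,1),(2,1)]⟩ ⟨0,[(4,1),(47,0)]⟩)) (.R ⟨0,false,false,false,[0,
  -1,1],[1,-1,-1],[0,1],(⟨0,[(30,0)]⟩,⟨225,[(7,1),(2,5),(7,9),(8,13),(12,225),(4,81),(1,47),(0,18),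
  (4,6)]⟩),(⟨0,[(29,0)]⟩,⟨225,[(7,1),(2,5),(7,9),(8,13),(13,225),(3,81),(1,47),(0,18),(4,6)]⟩),⟨2,
  [(6,0),(22,1),(12,0),(4,2)]⟩,.k,.k,(.r (-1) ⟨1,[(1,1),(20,3),(26,0),(3,0)]⟩ ⟨0,[(2,1),(5,0),(8,5),
  (31,2),(0,3),(3,5)]⟩),.k,.k,.k,⟨true,(-1),⟨2,[(8,0),(2,0),(2,1),(2,0),(17,0)]⟩,⟨0,[(7,0),(44,
  0)]⟩⟩,⟨false,0,⟨0,[(24,0),(10,0)]⟩,⟨0,[(0,0)]⟩⟩,⟨false,0,⟨0,[(4,0)]⟩,⟨1,[(22,1),(1,1),(28,0),(0,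
  0)]⟩⟩,⟨true,0,⟨0,[(1,0),(3,0)]⟩,⟨0,[(20,0),(0,0)]⟩⟩,⟨false,0,⟨0,[]⟩,⟨0,[]⟩⟩,⟨false,0,⟨0,[]⟩,⟨0,
  []⟩⟩,[.a ⟨true,0,⟨3,[(1,0),(3,0),(1,1),(10,1),(9,0)]⟩,⟨5,[(13,3),(3,1),(3,1),(26,0),(5,2)]⟩⟩
  ⟨false,0,⟨5,[(18,1),(30,0),(0,3),(2,0)]⟩,⟨17,[(7,7),(14,3),(4,3),(0,1),(20,0),(3,1),(0,2)]⟩⟩
  ⟨true,0,⟨0,[(1,0),(50,0)]⟩,⟨2,[(0,2),(7,1),(2,0),(10,0)]⟩⟩,.o ⟨false,1,⟨5,[(1,1),(5,3),(31,1),(9,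
  0),(2,5),(1,0)]⟩,⟨0,[(14,0)]⟩⟩,.e ⟨true,0,⟨47,[(10,4),(7,7),(0,0),(5,9),(20,11),(2,3)]⟩,⟨0,[]⟩⟩
  ⟨true,0,⟨0,[(1,0),(50,0)]⟩,⟨1,[(0,0),(13,0),(4,0),(1,0)]⟩⟩,.o ⟨false,0,⟨0,[(0,0),(10,0)]⟩,⟨0,[(24,
  0),(28,0)]⟩⟩]⟩) (.Q [0,0,0,0,0,0,0,0,-1,1,0,-1] (.p false [0,0,0,0,1] [1] (⟨0,[(34,0)]⟩,⟨0,[(33,
  0)]⟩) .k 1 (⟨0,[]⟩,⟨0,[]⟩) .k .k) (.Q [0,0,-1,0,0,0,-1,0,1,0,-1,1] (.p false [0,0,1] [0,0,0,0,1]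
  (⟨0,[(42,0)]⟩,⟨0,[(41,0)]⟩) .k 2 (⟨0,[(35,0)]⟩,⟨0,[(34,0)]⟩) .k (.r (-1) ⟨7,[(1,0),(21,3),(4,3),
  (0,0),(20,0),(3,1),(0,1)]⟩ ⟨5,[(3,3),(2,1),(12,1),(30,0),(3,4)]⟩)) (.R ⟨0,false,false,false,[0,-1,
  1],[0,0,0,0,1],[],(⟨0,[(32,0)]⟩,⟨225,[(9,1),(2,5),(7,9),(8,13),(12,225),(4,81),(1,47),(0,18),(4,
  6)]⟩),(⟨0,[(36,0)]⟩,⟨0,[(35,0)]⟩),⟨2,[(8,0),(22,1),(12,0),(4,2)]⟩,.k,.k,(.r (-1) ⟨3,[(2,0),(21,3),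
  (5,0),(20,0),(2,3),(0,3)]⟩ ⟨0,[(2,0),(1,2),(10,1),(3,8),(31,3),(0,3),(3,8)]⟩),(.r (-1) ⟨3,[(2,0),
  (21,3),(5,0),(20,0),(3,1),(0,1)]⟩ ⟨1,[(12,0),(8,0)]⟩),.k,.k,⟨false,1,⟨1,[(55,0),(0,0)]⟩,⟨47,[(12,
  4),(7,7),(0,0),(5,9),(20,11),(2,3)]⟩⟩,⟨true,0,⟨0,[(0,0)]⟩,⟨1,[(1,1),(2,0),(0,0),(18,1),(26,0)]⟩⟩,
  ⟨true,0,⟨0,[(6,0)]⟩,⟨3,[(2,1),(21,3),(23,1),(2,0),(3,0)]⟩⟩,⟨false,0,⟨0,[(0,0),(5,0)]⟩,⟨1,[(1,1),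
  (22,1),(26,0),(4,0)]⟩⟩,⟨false,0,⟨0,[]⟩,⟨0,[]⟩⟩,⟨false,0,⟨0,[]⟩,⟨0,[]⟩⟩,[.o ⟨false,0,⟨3,[(0,0),(3,
  0),(15,0),(1,0),(11,2),(16,1),(0,0)]⟩,⟨1,[(1,1),(49,0),(4,0)]⟩⟩,.a ⟨true,0,⟨0,[(34,0)]⟩,⟨0,[(1,
  0)]⟩⟩ ⟨false,1,⟨1,[(55,0),(0,0)]⟩,⟨47,[(12,4),(7,7),(0,0),(5,9),(20,11),(2,3)]⟩⟩ ⟨true,0,⟨0,[(0,
  0)]⟩,⟨1,[(1,1),(2,0),(0,0),(18,1),(26,0)]⟩⟩,.e ⟨false,1,⟨17,[(9,7),(14,3),(4,3),(0,1),(20,0),(3,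
  1),(0,2)]⟩,⟨0,[]⟩⟩ ⟨false,0,⟨0,[(0,0)]⟩,⟨1,[(1,1),(38,1),(10,0),(4,0)]⟩⟩,.o ⟨false,0,⟨1,[(4,0),(0,
  0),(18,1),(26,0)]⟩,⟨3,[(2,0),(27,0),(20,0),(3,3)]⟩⟩]⟩) (.R ⟨0,false,false,true,[0,-1,1],[1,0,0,0,
  -1],[0,1],(⟨0,[(32,0)]⟩,⟨225,[(9,1),(2,5),(7,9),(8,13),(12,225),(4,81),(1,47),(0,18),(4,6)]⟩),(⟨0,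
  [(35,0)]⟩,⟨0,[(36,0)]⟩),⟨2,[(8,0),(22,1),(12,0),(4,2)]⟩,.k,.k,(.r (-1) ⟨3,[(2,0),(21,3),(5,0),(20,
  0),(2,3),(0,3)]⟩ ⟨0,[(2,0),(1,2),(10,1),(3,8),(31,3),(0,3),(3,8)]⟩),(.r 0 ⟨3,[(2,1),(21,3),(23,1),
  (2,0),(3,0)]⟩ ⟨5,[(5,1),(3,2),(2,0),(15,0),(0,0)]⟩),.k,.k,⟨false,0,⟨5,[(20,1),(30,0),(0,3),(2,
  0)]⟩,⟨17,[(9,7),(14,3),(4,3),(0,1),(20,0),(3,1),(0,2)]⟩⟩,⟨true,0,⟨0,[(0,0),(1,0),(52,0)]⟩,⟨1,[(4,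
  0),(0,0),(18,1),(9,1),(16,0)]⟩⟩,⟨false,0,⟨0,[(6,0)]⟩,⟨3,[(2,0),(21,3),(5,0),(20,0),(3,1),(0,1)]⟩⟩,
  ⟨true,0,⟨3,[(0,3),(1,0),(0,2),(1,0),(46,2),(3,0)]⟩,⟨2,[(20,0),(1,1),(1,0),(9,2),(16,0)]⟩⟩,⟨false,
  0,⟨0,[]⟩,⟨0,[]⟩⟩,⟨false,0,⟨0,[]⟩,⟨0,[]⟩⟩,[.a ⟨true,0,⟨0,[(1,0)]⟩,⟨0,[(34,0)]⟩⟩ ⟨false,0,⟨5,[(20,
  1),(30,0),(0,3),(2,0)]⟩,⟨17,[(9,7),(14,3),(4,3),(0,1),(20,0),(3,1),(0,2)]⟩⟩ ⟨true,0,⟨0,[(0,0),(1,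
  0),(52,0)]⟩,⟨1,[(4,0),(0,0),(18,1),(9,1),(16,0)]⟩⟩,.e ⟨false,1,⟨1,[(33,0),(0,0),(20,0)]⟩,⟨0,[]⟩⟩
  ⟨false,1,⟨1,[(0,1),(1,1),(52,2),(0,0)]⟩,⟨0,[(7,0),(14,0),(11,0)]⟩⟩,.e ⟨true,0,⟨47,[(12,4),(7,7),
  (0,0),(5,9),(20,11),(2,3)]⟩,⟨0,[]⟩⟩ ⟨true,0,⟨0,[(0,0),(1,0),(52,0)]⟩,⟨0,[(7,0),(14,0),(11,0)]⟩⟩,
  .o ⟨false,0,⟨1,[(4,0),(0,0),(18,1),(26,0)]⟩,⟨3,[(2,0),(27,0),(20,0),(3,3)]⟩⟩]⟩)) (.Q [0,0,-2,0,0,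
  0,-1,0,1,0,-1,1] (.p false [0,0,1] [0,0,0,0,1] (⟨0,[(42,0)]⟩,⟨0,[(41,0)]⟩) .k 2 (⟨0,[(35,0)]⟩,⟨0,
  [(34,0)]⟩) .k (.r (-1) ⟨7,[(1,0),(21,3),(4,3),(0,0),(20,0),(3,1),(0,1)]⟩ ⟨5,[(3,3),(2,1),(12,1),
  (30,0),(3,4)]⟩)) (.Q [0,1,-1,0,-1,0,-1,0,1,0,-1,1] (.p false [0,0,1] [0,0,0,0,1] (⟨0,[(43,0)]⟩,⟨0,
  [(42,0)]⟩) .k 2 (⟨0,[(36,0)]⟩,⟨0,[(35,0)]⟩) .k (.r (-1) ⟨7,[(2,0),(21,3),(4,3),(0,0),(20,0),(3,1),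
  (0,1)]⟩ ⟨5,[(4,3),(2,1),(12,1),(30,0),(3,4)]⟩)) (.Q [0,-1,0,0,1,0,0,0,-1,1,0,-1] (.p false [0,0,0,
  0,1] [1] (⟨0,[(37,0)]⟩,⟨0,[(36,0)]⟩) .k 1 (⟨0,[]⟩,⟨0,[]⟩) .k .k) (.R ⟨0,false,false,true,[0,-1,1],
  [0,0,0,0,1],[],(⟨0,[(34,0)]⟩,⟨75,[(0,0),(13,1),(7,2),(8,3),(4,0),(7,75),(4,27),(1,15),(0,5),(4,
  1)]⟩),(⟨0,[(38,0)]⟩,⟨0,[(37,0)]⟩),⟨2,[(10,0),(22,1),(12,0),(4,2)]⟩,.k,.k,(.r (-1) ⟨3,[(4,0),(21,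
  3),(5,0),(20,0),(2,3),(0,3)]⟩ ⟨0,[(4,0),(1,2),(10,1),(3,8),(31,3),(0,3),(3,8)]⟩),(.r (-1) ⟨3,[(4,
  0),(21,3),(5,0),(20,0),(3,1),(0,1)]⟩ ⟨1,[(14,0),(8,0)]⟩),.k,.k,⟨true,1,⟨0,[(58,0)]⟩,⟨3,[(6,0),(8,
  0),(6,0),(0,0),(0,0),(25,1)]⟩⟩,⟨false,0,⟨0,[(2,0)]⟩,⟨0,[(35,0),(6,0)]⟩⟩,⟨true,0,⟨0,[(8,0)]⟩,⟨3,
  [(4,1),(21,3),(23,1),(2,0),(3,0)]⟩⟩,⟨false,(-1),⟨0,[(1,0),(6,0)]⟩,⟨1,[(0,1),(25,1),(26,0),(4,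
  0)]⟩⟩,⟨false,0,⟨0,[]⟩,⟨0,[]⟩⟩,⟨false,0,⟨0,[]⟩,⟨0,[]⟩⟩,[.o ⟨false,(-1),⟨4,[(1,1),(1,2),(2,1),(15,
  1),(1,1),(28,0),(0,1)]⟩,⟨1,[(0,1),(52,0),(4,0)]⟩⟩,.a ⟨true,(-1),⟨0,[(1,0),(40,0)]⟩,⟨0,[(0,0)]⟩⟩
  ⟨false,1,⟨1,[(57,0),(0,0)]⟩,⟨47,[(14,4),(7,7),(0,0),(5,9),(20,11),(2,3)]⟩⟩ ⟨true,(-1),⟨0,[(1,0)]⟩,
  ⟨0,[(7,0),(18,0),(8,0)]⟩⟩,.e ⟨false,1,⟨17,[(11,7),(14,3),(4,3),(0,1),(20,0),(3,1),(0,2)]⟩,⟨0,[]⟩⟩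
  ⟨false,(-1),⟨0,[(1,0)]⟩,⟨1,[(0,1),(41,1),(10,0),(4,0)]⟩⟩,.o ⟨false,0,⟨1,[(6,0),(0,0),(18,1),(26,
  0)]⟩,⟨3,[(4,0),(27,0),(20,0),(3,3)]⟩⟩]⟩) (.R ⟨0,false,false,false,[0,-1,1],[0,0,0,0,1],[0,0,-1,-1,
  0,0,0,1],(⟨0,[(34,0)]⟩,⟨225,[(11,1),(2,5),(7,9),(8,13),(12,225),(4,81),(1,47),(0,18),(4,6)]⟩),(⟨0,
  [(38,0)]⟩,⟨0,[(37,0)]⟩),⟨2,[(10,0),(22,1),(12,0),(4,2)]⟩,.k,.k,(.r (-1) ⟨3,[(4,0),(21,3),(5,0),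
  (20,0),(2,3),(0,3)]⟩ ⟨0,[(0,7),(3,0),(1,2),(10,1),(3,8),(13,7),(18,3),(3,12)]⟩),(.r (-1) ⟨3,[(4,
  0),(21,3),(5,0),(20,0),(3,1),(0,1)]⟩ ⟨1,[(14,0),(8,0)]⟩),.k,.k,⟨true,1,⟨3,[(4,0),(21,3),(5,0),(20,
  0),(3,1),(0,1)]⟩,⟨0,[(6,0)]⟩⟩,⟨false,0,⟨0,[(2,0)]⟩,⟨0,[(35,0),(6,0)]⟩⟩,⟨false,1,⟨17,[(11,7),(14,
  3),(4,3),(0,1),(20,0),(3,1),(0,2)]⟩,⟨0,[]⟩⟩,⟨true,(-1),⟨0,[(1,0),(6,0)]⟩,⟨0,[(26,0),(8,0)]⟩⟩,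
  ⟨false,0,⟨0,[]⟩,⟨0,[]⟩⟩,⟨false,0,⟨0,[]⟩,⟨0,[]⟩⟩,[.o ⟨false,(-1),⟨0,[(0,0)]⟩,⟨17,[(11,7),(14,3),(4,
  3),(0,1),(2,17),(17,0),(3,1),(0,2)]⟩⟩,.o ⟨false,0,⟨0,[(3,0)]⟩,⟨0,[(35,0)]⟩⟩,.a ⟨true,0,⟨0,[(42,
  0)]⟩,⟨0,[(39,0)]⟩⟩ ⟨false,1,⟨3,[(4,0),(21,3),(5,0),(20,0),(3,1),(0,1)]⟩,⟨0,[(8,0)]⟩⟩ ⟨true,(-1),
  ⟨0,[(1,0)]⟩,⟨0,[(35,0),(6,0)]⟩⟩,.o ⟨false,0,⟨1,[(6,0),(0,0),(18,1),(26,0)]⟩,⟨3,[(4,0),(27,0),(20,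
  0),(3,3)]⟩⟩]⟩)) (.R ⟨0,false,false,true,[0,-1,1],[0,0,0,0,1],[],(⟨0,[(33,0)]⟩,⟨225,[(10,1),(2,5),
  (7,9),(8,13),(12,225),(4,81),(1,47),(0,18),(4,6)]⟩),(⟨0,[(37,0)]⟩,⟨0,[(36,0)]⟩),⟨2,[(9,0),(22,1),
  (12,0),(4,2)]⟩,.k,.k,(.r (-1) ⟨3,[(3,0),(21,3),(5,0),(20,0),(2,3),(0,3)]⟩ ⟨0,[(3,0),(1,2),(10,1),
  (3,8),(31,3),(0,3),(3,8)]⟩),(.r (-1) ⟨3,[(3,0),(21,3),(5,0),(20,0),(3,1),(0,1)]⟩ ⟨1,[(13,0),(8,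
  0)]⟩),.k,.k,⟨true,1,⟨0,[(57,0)]⟩,⟨3,[(5,0),(8,0),(6,0),(0,0),(0,0),(25,1)]⟩⟩,⟨false,0,⟨0,[(1,0)]⟩,
  ⟨11,[(0,8),(12,1),(7,1),(0,0),(5,0),(5,2),(4,2),(12,0)]⟩⟩,⟨true,0,⟨0,[(7,0)]⟩,⟨3,[(3,1),(21,3),
  (23,1),(2,0),(3,0)]⟩⟩,⟨false,(-1),⟨0,[(1,0),(3,0)]⟩,⟨0,[(25,0),(8,0),(22,0)]⟩⟩,⟨false,0,⟨0,[]⟩,⟨0,
  []⟩⟩,⟨false,0,⟨0,[]⟩,⟨0,[]⟩⟩,[.o ⟨false,(-1),⟨4,[(1,3),(0,0),(2,3),(15,1),(1,3),(28,0)]⟩,⟨0,[(34,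
  0),(22,0)]⟩⟩,.e ⟨false,1,⟨1,[(56,0),(0,0)]⟩,⟨47,[(13,4),(7,7),(0,0),(5,9),(20,11),(2,3)]⟩⟩ ⟨false,
  0,⟨7,[(1,5),(0,0),(28,0),(3,0),(13,3)]⟩,⟨0,[(0,0)]⟩⟩,.a ⟨true,0,⟨0,[(41,0)]⟩,⟨0,[(38,0)]⟩⟩ ⟨false,
  1,⟨17,[(10,7),(14,3),(4,3),(0,1),(20,0),(3,1),(0,2)]⟩,⟨0,[]⟩⟩ ⟨true,(-1),⟨4,[(1,3),(0,0),(2,0),(8,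
  1),(2,0),(2,1),(28,2)]⟩,⟨0,[(0,0)]⟩⟩,.o ⟨false,0,⟨1,[(5,0),(0,0),(18,1),(26,0)]⟩,⟨3,[(3,0),(27,0),
  (20,0),(3,3)]⟩⟩]⟩)) (.Q [0,0,-1,0,1,0,0,0,-1,0,0,-1] (.p false [0,0,0,0,1] [] (⟨0,[(36,0)]⟩,⟨0,
  [(35,0)]⟩) .k 0 (⟨0,[]⟩,⟨0,[]⟩) .k .k) (.Q [0,0,0,0,0,0,0,0,0,0,-1,1] (.ed false [1,0,-1,0,1] (.r
  0 ⟨5,[(5,3),(2,1),(12,1),(30,0),(3,4)]⟩ ⟨7,[(3,0),(21,3),(4,3),(0,0),(20,0),(3,1),(0,1)]⟩)) (.Q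
  [0,2,0,-1,-1,0,0,0,1,-1,0,1] (.p true [0,0,0,0,1] [1] (⟨0,[(38,0)]⟩,⟨0,[(37,0)]⟩) .k 1 (⟨0,[]⟩,⟨0,
  []⟩) .k .k) (.S ⟨1,0,[0,2,0,-1],[0,0,0,0,1],[1,1],(⟨0,[(39,0)]⟩,⟨0,[(38,0)]⟩),⟨0,[(1,0),(33,0)]⟩,
  .k,(.r 0 ⟨2,[(0,0),(1,0),(20,0),(34,0)]⟩ ⟨11,[(8,1),(3,2),(2,0),(15,0),(0,6)]⟩),⟨true,0,⟨0,[]⟩,⟨9,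
  [(0,0),(14,0),(7,0),(6,1),(5,0),(14,1)]⟩⟩,⟨false,0,⟨0,[(57,0)]⟩,⟨3,[(31,1),(26,0),(0,0)]⟩⟩,⟨false,
  1,⟨3,[(31,1),(26,0),(0,0)]⟩,⟨0,[(57,0)]⟩⟩,⟨true,0,⟨9,[(0,0),(14,0),(7,0),(6,1),(5,0),(14,1)]⟩,⟨0,
  []⟩⟩,[.o ⟨false,(-1),⟨0,[(0,0)]⟩,⟨8,[(2,6),(5,0),(4,0),(17,2),(4,1),(22,6)]⟩⟩,.a ⟨true,(-1),⟨0,
  [(4,0),(17,0)]⟩,⟨65,[(2,57),(0,7),(2,3),(2,5),(3,9),(17,19),(15,11),(1,11),(3,24),(5,22)]⟩⟩ ⟨true,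
  0,⟨0,[]⟩,⟨2,[(3,0),(33,0),(6,0)]⟩⟩ ⟨false,0,⟨2,[(0,0),(1,0),(20,0),(34,0)]⟩,⟨3,[(31,1),(26,0),(0,
  0)]⟩⟩,.o ⟨false,0,⟨0,[(4,0)]⟩,⟨0,[(36,0)]⟩⟩,.o ⟨false,0,⟨3,[(3,0),(0,1),(11,0),(20,2),(16,0)]⟩,⟨0,
  [(2,0)]⟩⟩]⟩) (.R ⟨2,true,false,false,[0,1],[0,0,0,0,1],[0,1,1],(⟨0,[]⟩,⟨0,[]⟩),(⟨0,[(39,0)]⟩,⟨0,
  [(38,0)]⟩),⟨0,[]⟩,.k,.k,.k,(.r (-1) ⟨11,[(8,1),(3,2),(2,0),(15,0),(0,6)]⟩ ⟨2,[(23,1),(30,0),(0,0),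
  (2,0)]⟩),.k,.k,⟨true,0,⟨2,[(3,0),(33,0),(6,0)]⟩,⟨0,[]⟩⟩,⟨false,0,⟨0,[(37,0)]⟩,⟨0,[(2,0)]⟩⟩,⟨false,
  0,⟨0,[(57,0)]⟩,⟨3,[(31,1),(26,0),(0,0)]⟩⟩,⟨true,(-1),⟨0,[(4,0),(17,0)]⟩,⟨4,[(0,0),(16,0),(0,0),
  (17,3)]⟩⟩,⟨true,0,⟨47,[(15,4),(7,7),(0,0),(5,9),(20,11),(2,3)]⟩,⟨0,[]⟩⟩,⟨false,0,⟨0,[(37,0)]⟩,⟨0,
  [(0,0),(21,0),(31,0)]⟩⟩,[]⟩)) (.Q [0,0,0,0,0,1,0,0,0,0,0,-1] (.ed true [1,-1,0,0,1] .k) (.R ⟨0,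
  false,false,false,[0,0,0,0,1],[0,1],[1,0,2,1],(⟨0,[(39,0)]⟩,⟨0,[(38,0)]⟩),(⟨0,[(50,0)]⟩,⟨0,[(49,
  0)]⟩),⟨0,[(0,0)]⟩,.k,.k,(.r 0 ⟨2,[(23,1),(30,0),(0,0),(2,0)]⟩ ⟨11,[(8,1),(3,2),(2,0),(15,0),(0,
  6)]⟩),(.r 0 ⟨2,[(23,1),(30,0),(0,0),(2,0)]⟩ ⟨11,[(8,1),(3,2),(2,0),(15,0),(0,6)]⟩),.k,.k,⟨false,0,
  ⟨0,[]⟩,⟨1,[(36,0),(0,0),(20,0)]⟩⟩,⟨true,1,⟨0,[(2,0)]⟩,⟨23,[(4,12),(3,8),(4,5),(2,6),(6,8),(3,2),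
  (9,10),(5,3),(9,1)]⟩⟩,⟨true,0,⟨26,[(8,14),(4,4),(2,3),(10,3),(4,5),(26,2)]⟩,⟨1,[(23,1),(30,0),(0,
  1),(2,0)]⟩⟩,⟨false,2,⟨8,[(2,6),(5,0),(4,0),(17,2),(4,1),(22,6)]⟩,⟨0,[(4,0),(17,0)]⟩⟩,⟨false,0,⟨0,
  []⟩,⟨0,[]⟩⟩,⟨false,0,⟨0,[]⟩,⟨0,[]⟩⟩,[.o ⟨false,1,⟨39,[(17,1),(0,1),(12,15),(19,5),(2,18),(3,4)]⟩,
  ⟨0,[(57,0)]⟩⟩,.a ⟨true,1,⟨3,[(31,1),(26,0),(0,0)]⟩,⟨0,[(22,0)]⟩⟩ ⟨true,0,⟨26,[(8,14),(4,4),(2,3),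
  (10,3),(4,5),(26,2)]⟩,⟨2,[(23,1),(30,0),(0,0),(2,0)]⟩⟩ ⟨false,2,⟨3,[(2,3),(28,1),(26,0),(0,0)]⟩,
  ⟨0,[(4,0),(17,0)]⟩⟩,.o ⟨false,0,⟨0,[(4,0)]⟩,⟨0,[(36,0)]⟩⟩,.o ⟨false,0,⟨3,[(3,0),(0,1),(11,0),(20,
  2),(16,0)]⟩,⟨0,[(2,0)]⟩⟩]⟩) (.R ⟨1,false,false,true,[0,0,0,0,1],[0,0,1,0,1],[1,1],(⟨0,[(39,0)]⟩,
  ⟨0,[(38,0)]⟩),(⟨0,[(39,0),(6,0)]⟩,⟨2,[(1,1),(9,4),(26,0),(8,0),(4,2)]⟩),⟨0,[(0,0)]⟩,.k,.k,(.r 0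
  ⟨2,[(23,1),(30,0),(0,0),(2,0)]⟩ ⟨11,[(8,1),(3,2),(2,0),(15,0),(0,6)]⟩),.k,.k,.k,⟨true,1,⟨0,[(12,
  0)]⟩,⟨3,[(5,0),(7,0),(2,0),(6,0),(1,1),(15,0)]⟩⟩,⟨false,1,⟨0,[(43,0),(14,0)]⟩,⟨0,[(29,0)]⟩⟩,⟨true,
  0,⟨0,[]⟩,⟨47,[(15,4),(7,7),(0,0),(5,9),(20,11),(2,3)]⟩⟩,⟨false,0,⟨0,[(26,0)]⟩,⟨5,[(6,1),(5,3),(31,
  1),(9,0),(4,0)]⟩⟩,⟨false,1,⟨3,[(31,1),(26,0),(0,0)]⟩,⟨0,[(57,0)]⟩⟩,⟨false,0,⟨5,[(18,3),(3,1),(3,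
  1),(26,0),(5,2)]⟩,⟨5,[(6,1),(5,3),(31,1),(9,0),(2,5),(1,0)]⟩⟩,[.o ⟨false,(-1),⟨0,[(4,0),(14,0),(2,
  0)]⟩,⟨7,[(2,5),(3,1),(5,5),(3,3),(19,1),(17,0),(4,4)]⟩⟩,.a ⟨true,(-1),⟨5,[(4,5),(13,3),(3,7),(3,
  1),(26,0),(5,2)]⟩,⟨7,[(2,1),(0,3),(2,5),(5,1),(23,1),(16,0),(5,2)]⟩⟩ ⟨true,0,⟨0,[]⟩,⟨2,[(3,0),(33,
  0),(6,0)]⟩⟩ ⟨false,0,⟨1,[(19,0),(2,0),(3,0),(31,0)]⟩,⟨5,[(6,1),(5,3),(31,1),(9,0),(4,0)]⟩⟩,.o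
  ⟨false,0,⟨0,[(4,0)]⟩,⟨0,[(36,0)]⟩⟩,.o ⟨false,0,⟨3,[(3,0),(0,1),(11,0),(20,2),(16,0)]⟩,⟨0,[(2,
  0)]⟩⟩]⟩))) (.K ⟨0,[0,0,0,0,1],(-1),(-1),(⟨0,[(37,0)]⟩,⟨0,[(36,0)]⟩),.k,(.r 0 ⟨2,[(21,1),(30,0),(0,
  0),(2,0)]⟩ ⟨11,[(6,1),(3,2),(2,0),(15,0),(0,6)]⟩),(.r 0 ⟨3,[(13,0),(8,0),(5,1)]⟩ ⟨1,[(55,1),(0,0),
  (0,0)]⟩),.k,.k,[⟨0,[(1,0),(54,0)]⟩,⟨0,[(0,0)]⟩,⟨0,[(34,0)]⟩,⟨0,[(0,0),(48,0)]⟩]⟩)))))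

theorem ok105 : chk K t105 l72 = true := by decide +kernel

noncomputable def t106 : Tre :=
  (.I [1,-1,-2,-2,1,0,0,1] (.Q [0,0,0,1,0,0,-2,-2,0,1,-2] (.p false [0,0,1] [1,0,-1] (⟨0,[(41,0)]⟩,
  ⟨0,[(40,0)]⟩) .k 2 (⟨0,[(40,0)]⟩,⟨0,[(41,0)]⟩) .k (.r 0 ⟨12,[(0,9),(7,7),(5,1),(2,1),(2,1),(4,3),
  (2,1)]⟩ ⟨0,[(5,1),(47,0)]⟩)) (.R ⟨0,false,false,false,[0,-1,1],[1,0,-1],[0,1],(⟨0,[(31,0)]⟩,⟨0,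
  [(2,0),(0,0),(3,0),(4,1),(5,7),(29,0),(1,2),(0,6),(3,7)]⟩),(⟨0,[(41,0)]⟩,⟨0,[(42,0)]⟩),⟨2,[(7,0),
  (22,1),(12,0),(4,2)]⟩,.k,.k,(.r (-1) ⟨23,[(1,22),(9,1),(7,1),(17,4),(2,4),(6,6),(2,0)]⟩ ⟨0,[(2,0),
  (0,1),(8,1),(5,6),(31,2),(0,6),(3,7)]⟩),(.r 0 ⟨2,[(1,2),(7,0),(2,0),(2,1),(2,0),(17,0)]⟩ ⟨7,[(4,
  1),(1,2),(1,1),(2,4),(16,0)]⟩),.k,.k,⟨false,0,⟨10,[(1,2),(10,0),(2,7),(2,1),(10,0),(6,4),(10,1)]⟩,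
  ⟨0,[(8,0)]⟩⟩,⟨true,0,⟨0,[(25,0),(10,0)]⟩,⟨0,[(2,0),(3,0)]⟩⟩,⟨false,0,⟨0,[(5,0)]⟩,⟨2,[(1,1),(26,
  0)]⟩⟩,⟨true,0,⟨0,[(0,0)]⟩,⟨0,[(21,0),(1,0)]⟩⟩,⟨false,0,⟨0,[]⟩,⟨0,[]⟩⟩,⟨false,0,⟨0,[]⟩,⟨0,[]⟩⟩,[.e
  ⟨false,0,⟨5,[(19,1),(30,0),(0,3),(2,0)]⟩,⟨5,[(1,0),(6,2),(19,1)]⟩⟩ ⟨false,1,⟨14,[(0,8),(0,4),(9,
  0),(17,5),(17,1),(6,8)]⟩,⟨0,[(2,0)]⟩⟩,.o ⟨false,1,⟨5,[(0,1),(0,0),(6,2),(31,1),(9,0),(4,0)]⟩,⟨0,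
  [(21,0)]⟩⟩,.a ⟨true,0,⟨0,[(39,0)]⟩,⟨0,[(36,0)]⟩⟩ ⟨true,0,⟨47,[(11,4),(7,7),(0,0),(5,9),(20,11),(2,
  3)]⟩,⟨0,[]⟩⟩ ⟨false,1,⟨2,[(0,2),(0,1),(26,0)]⟩,⟨0,[(2,0)]⟩⟩,.o ⟨false,0,⟨6,[(2,4),(3,4),(5,0),(27,
  1),(9,0)]⟩,⟨0,[(25,0),(28,0)]⟩⟩]⟩) (.Q [0,0,0,0,0,0,-2,-2,0,1,-2] (.p false [0,0,1] [1,0,-1] (⟨0,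
  [(42,0)]⟩,⟨0,[(41,0)]⟩) .k 2 (⟨0,[(41,0)]⟩,⟨0,[(42,0)]⟩) .k (.r 0 ⟨5,[(0,2),(0,1),(7,1),(4,0),(11,
  0),(2,2),(6,0)]⟩ ⟨0,[(6,1),(47,0)]⟩)) (.R ⟨1,true,false,false,[0,0,1],[1,0,-1],[1,1,0,0,0,0,0,1],
  (⟨0,[(43,0)]⟩,⟨0,[(42,0)]⟩),(⟨0,[(42,0)]⟩,⟨0,[(43,0)]⟩),⟨0,[(32,0)]⟩,.k,.k,.k,.k,(.r 0 ⟨0,[(1,0),
  (24,0),(10,0)]⟩ ⟨7,[(5,1),(1,2),(1,1),(2,4),(16,0)]⟩),.k,⟨true,(-1),⟨0,[(1,0),(11,0),(23,0),(14,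
  0)]⟩,⟨0,[(7,0),(1,0)]⟩⟩,⟨false,0,⟨0,[(26,0),(10,0)]⟩,⟨0,[(3,0),(3,0),(47,0)]⟩⟩,⟨false,0,⟨0,[]⟩,⟨5,
  [(2,0),(6,2),(19,1)]⟩⟩,⟨true,0,⟨0,[(0,0)]⟩,⟨1,[(1,0),(14,0),(21,0)]⟩⟩,⟨true,0,⟨0,[(53,0)]⟩,⟨0,
  [(54,0)]⟩⟩,⟨false,1,⟨3,[(0,3),(27,1),(26,0),(0,0)]⟩,⟨0,[(1,0)]⟩⟩,[]⟩) (.Q [0,0,0,-1,0,0,-2,-2,0,1,
  -2] (.p false [0,0,1] [1,0,-1] (⟨0,[(43,0)]⟩,⟨0,[(42,0)]⟩) .k 2 (⟨0,[(42,0)]⟩,⟨0,[(43,0)]⟩) .k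
  (.r 0 ⟨0,[(0,0),(29,0)]⟩ ⟨0,[(7,1),(47,0)]⟩)) (.R ⟨1,true,false,false,[1,0,-1],[0,0,1],[1,1,0,0,0,
  0,0,-1],(⟨0,[(43,0)]⟩,⟨0,[(44,0)]⟩),(⟨0,[(44,0)]⟩,⟨0,[(43,0)]⟩),⟨0,[(32,0)]⟩,.k,.k,.k,.k,(.r (-2)
  ⟨9,[(0,0),(2,4),(6,6),(2,8),(7,2),(3,1),(26,1)]⟩ ⟨3,[(1,1),(1,1),(7,1),(2,3),(36,0),(1,3),(3,
  0)]⟩),.k,⟨false,1,⟨5,[(5,3),(2,7),(12,1),(30,0),(3,10)]⟩,⟨0,[(3,0),(7,0)]⟩⟩,⟨true,1,⟨0,[(4,0),(3,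
  0),(47,0)]⟩,⟨0,[(14,0),(23,0)]⟩⟩,⟨false,0,⟨0,[]⟩,⟨5,[(3,0),(6,2),(19,1)]⟩⟩,⟨true,0,⟨0,[(1,0)]⟩,
  ⟨51,[(0,38),(12,8),(1,7),(3,6),(11,8),(17,13),(1,1)]⟩⟩,⟨true,0,⟨0,[(54,0)]⟩,⟨0,[(55,0)]⟩⟩,⟨false,
  1,⟨3,[(1,3),(27,1),(26,0),(0,0)]⟩,⟨0,[(0,0)]⟩⟩,[]⟩) (.Q [0,0,0,0,0,0,0,0,-1,1,0,-1] (.p false [0,
  0,0,0,1] [1] (⟨0,[(37,0)]⟩,⟨0,[(36,0)]⟩) .k 1 (⟨0,[]⟩,⟨0,[]⟩) .k .k) (.Q [0,-2,0,0,1,0,-1,-1,-1,1,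
  -1,-1] (.p false [0,0,1] [1,0,0,0,-1] (⟨0,[(45,0)]⟩,⟨0,[(44,0)]⟩) .k 2 (⟨0,[(37,0)]⟩,⟨0,[(38,
  0)]⟩) .k (.r 0 ⟨2,[(3,0),(25,0),(2,0),(17,0)]⟩ ⟨0,[(11,0)]⟩)) (.Q [0,0,0,0,0,-1,0,0,0,0,0,1] (.ed
  false [1,-1,0,0,1] .k) (.I [1,1,-2,-2,0,0,0,1] (.Q [0,0,0,-2,0,0,-2,-2,0,1,-2] (.p false [0,0,1]
  [1,0,-1] (⟨0,[(48,0)]⟩,⟨0,[(47,0)]⟩) .k 2 (⟨0,[(47,0)]⟩,⟨0,[(48,0)]⟩) .k (.r 0 ⟨1,[(4,0),(1,0),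
  (28,1)]⟩ ⟨0,[(12,1),(47,0)]⟩)) (.R ⟨1,true,false,false,[1,0,-1],[0,1,1],[1,1,0,0,0,0,0,-1],(⟨0,
  [(48,0)]⟩,⟨0,[(49,0)]⟩),(⟨2,[(5,1),(4,3),(8,3),(5,21),(12,2),(16,1),(1,8),(0,15),(3,20)]⟩,⟨0,[(37,
  0)]⟩),⟨0,[(37,0)]⟩,.k,.k,.k,(.r (-2) ⟨2,[(0,0),(7,1),(0,0),(5,0),(2,2)]⟩ ⟨0,[(5,0),(13,0),(23,
  0)]⟩),(.r (-2) ⟨0,[(0,0),(8,0),(3,0),(47,1)]⟩ ⟨3,[(5,0),(1,0),(8,3),(19,1)]⟩),.k,⟨true,1,⟨2,[(10,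
  0),(2,4),(12,1),(30,0),(3,4)]⟩,⟨1,[(5,1),(13,1),(3,0),(19,0),(18,0)]⟩⟩,⟨false,2,⟨0,[(9,0),(3,0),
  (47,1)]⟩,⟨0,[(19,0),(23,0)]⟩⟩,⟨false,0,⟨0,[]⟩,⟨5,[(8,0),(6,2),(19,1)]⟩⟩,⟨true,0,⟨0,[(5,0)]⟩,⟨64,
  [(0,51),(17,10),(1,3),(3,9),(11,10),(17,19),(1,0)]⟩⟩,⟨true,0,⟨0,[(59,0)]⟩,⟨0,[(60,0)]⟩⟩,⟨false,1,
  ⟨3,[(5,3),(28,1),(26,0),(0,0)]⟩,⟨0,[(0,0)]⟩⟩,[]⟩) (.I [1,-1,2,2,0,0,0,-1] (.I [0,0,-2,0,1,-2,-1,0,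
  -1] (.N [0,-2,1,0,1] 0 ⟨0,[(3,0)]⟩ ⟨0,[(1,0)]⟩ (.x 0 ⟨2,[(11,1),(3,1),(5,0),(20,2),(0,2),(6,2),(6,
  1),(1,0)]⟩ ⟨0,[(0,0)]⟩)) (.K ⟨0,[1,1,0,0,-1],0,0,(⟨1,[(0,1),(0,1),(0,1),(2,1),(15,3),(5,23),(12,
  1),(18,10),(0,15),(3,16)]⟩,⟨0,[(4,0)]⟩),(.r (-1) ⟨11,[(13,1),(3,2),(2,0),(15,0),(0,6)]⟩ ⟨2,[(28,
  1),(30,0),(0,0),(2,0)]⟩),.k,(.r 0 ⟨8,[(1,4),(16,2),(18,1),(26,0)]⟩ ⟨59,[(3,32),(6,30),(9,35),(7,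
  13),(17,7),(2,7),(9,6)]⟩),(.r (-1) ⟨5,[(13,1),(3,2),(2,0),(15,0),(0,0)]⟩ ⟨2,[(3,1),(31,0)]⟩),.k,
  [⟨1,[(0,1),(3,1),(35,1),(18,0),(3,0)]⟩,⟨0,[(6,0)]⟩,⟨23,[(20,0),(7,15),(0,4),(5,1),(6,23),(13,11),
  (2,19)]⟩,⟨31,[(2,5),(2,6),(0,24),(5,1),(5,0),(2,0),(0,3),(35,2),(1,7)]⟩]⟩)) (.Q [0,0,0,0,0,1,0,0,
  0,-1,0,1] (.ed false [0,1,0,0,1] .k) (.R ⟨0,false,false,false,[1,0,0,0,-1],[2,0,-1,0,-1],[1,0,1],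
  (⟨0,[(43,0)]⟩,⟨0,[(44,0)]⟩),(⟨0,[(43,0),(6,0)]⟩,⟨0,[(0,0),(39,0)]⟩),⟨0,[(0,0)]⟩,.k,.k,(.r (-1) ⟨1,
  [(10,0),(6,0)]⟩ ⟨3,[(20,0),(8,0),(5,1)]⟩),.k,.k,.k,⟨true,(-1),⟨35,[(1,15),(7,2),(8,11),(2,5),(6,
  2),(0,14),(5,1)]⟩,⟨0,[(17,0)]⟩⟩,⟨false,0,⟨0,[(45,0)]⟩,⟨31,[(10,7),(0,15),(8,11),(15,1),(22,7),(3,
  0),(0,0)]⟩⟩,⟨false,0,⟨1,[(48,0),(0,0)]⟩,⟨1,[(63,0),(0,0)]⟩⟩,⟨true,0,⟨15,[(14,0),(2,7),(7,3),(1,0),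
  (17,4),(1,6),(10,2)]⟩,⟨0,[(30,0)]⟩⟩,⟨false,0,⟨0,[]⟩,⟨0,[]⟩⟩,⟨false,0,⟨0,[]⟩,⟨0,[]⟩⟩,[.e ⟨false,0,
  ⟨0,[]⟩,⟨8,[(10,1),(9,1),(16,1),(18,0),(6,2)]⟩⟩ ⟨false,1,⟨0,[(17,0),(27,0)]⟩,⟨0,[(30,0)]⟩⟩,.o
  ⟨false,1,⟨0,[(5,0)]⟩,⟨1,[(1,0),(10,0),(11,0),(5,0),(11,1),(16,0)]⟩⟩,.a ⟨true,0,⟨0,[(6,0)]⟩,⟨0,
  [(42,0)]⟩⟩ ⟨true,0,⟨1,[(48,0),(0,0)]⟩,⟨2,[(1,0),(10,0),(47,0),(2,0)]⟩⟩ ⟨false,1,⟨0,[(5,0),(36,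
  0)]⟩,⟨0,[(30,0)]⟩⟩,.o ⟨false,0,⟨23,[(1,2),(0,0),(2,5),(0,17),(2,4),(2,8),(8,5),(37,8)]⟩,⟨1,[(42,
  1),(16,0),(3,0)]⟩⟩]⟩) (.Q [0,0,2,0,-1,0,0,0,1,0,0,1] (.p true [0,0,0,0,1] [] (⟨0,[(44,0)]⟩,⟨0,
  [(43,0)]⟩) .k 0 (⟨0,[]⟩,⟨0,[]⟩) .k .k) (.K ⟨0,[0,1,0,0,1],0,(-1),(⟨2,[(2,19),(0,1),(1,2),(7,23),
  (8,3),(5,3),(29,1),(2,15),(3,31)]⟩,⟨0,[(1,0)]⟩),(.r 0 ⟨3,[(21,0),(8,0),(5,1)]⟩ ⟨1,[(11,0),(6,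
  0)]⟩),.k,(.r 1 ⟨0,[(2,6),(0,0),(9,8),(8,1),(5,0),(32,5),(3,10)]⟩ ⟨53,[(11,58),(6,20),(2,23),(7,
  11),(8,9),(21,5)]⟩),(.r 0 ⟨1,[(21,0),(8,0)]⟩ ⟨2,[(11,1),(26,0)]⟩),.k,[⟨4,[(2,3),(0,0),(2,4),(5,3),
  (0,4),(47,0)]⟩,⟨0,[(43,0)]⟩,⟨0,[(42,0),(20,0)]⟩,⟨2,[(0,1),(1,0),(10,0),(29,0),(17,3)]⟩]⟩) (.Q [0,
  1,0,0,0,0,0,0,1,-1,0,1] (.p true [0,0,0,0,1] [1] (⟨0,[(45,0)]⟩,⟨0,[(44,0)]⟩) .k 1 (⟨0,[]⟩,⟨0,[]⟩)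
  .k .k) (.R ⟨0,false,false,true,[0,-1,1],[1,0,0,0,-1],[0,1],(⟨0,[(42,0)]⟩,⟨0,[(3,9),(0,0),(9,11),
  (3,0),(4,1),(5,1),(29,0),(2,7),(3,15)]⟩),(⟨0,[(45,0)]⟩,⟨0,[(46,0)]⟩),⟨2,[(18,0),(22,1),(12,0),(4,
  2)]⟩,.k,.k,(.r (-1) ⟨59,[(3,32),(8,34),(9,11),(7,5),(8,15),(21,2)]⟩ ⟨0,[(3,9),(0,0),(9,12),(8,1),
  (5,0),(32,7),(3,15)]⟩),(.r 0 ⟨2,[(3,1),(33,0)]⟩ ⟨5,[(15,1),(3,2),(2,0),(15,0),(0,0)]⟩),.k,.k,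
  ⟨false,0,⟨3,[(0,0),(0,0),(28,0),(31,1)]⟩,⟨5,[(12,0),(6,2),(19,1)]⟩⟩,⟨true,0,⟨0,[(1,0),(25,0)]⟩,⟨6,
  [(13,4),(3,4),(5,0),(20,6),(6,1),(9,0)]⟩⟩,⟨false,0,⟨0,[(16,0)]⟩,⟨2,[(12,1),(26,0)]⟩⟩,⟨true,0,⟨13,
  [(1,8),(5,4),(6,5),(0,0),(8,1),(2,6),(32,0),(1,2)]⟩,⟨0,[(0,0),(33,0)]⟩⟩,⟨false,0,⟨0,[]⟩,⟨0,[]⟩⟩,
  ⟨false,0,⟨0,[]⟩,⟨0,[]⟩⟩,[.a ⟨true,0,⟨0,[(8,0)]⟩,⟨0,[(44,0)]⟩⟩ ⟨false,0,⟨3,[(0,0),(0,0),(28,0),(31,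
  1)]⟩,⟨5,[(12,0),(6,2),(19,1)]⟩⟩ ⟨true,0,⟨0,[(1,0),(25,0)]⟩,⟨6,[(13,4),(3,4),(5,0),(20,6),(6,1),(9,
  0)]⟩⟩,.o ⟨false,1,⟨59,[(1,8),(2,3),(2,29),(3,7),(1,5),(9,5),(19,20),(17,5)]⟩,⟨0,[(0,0)]⟩⟩,.e
  ⟨true,0,⟨47,[(22,4),(7,7),(0,0),(5,9),(20,11),(2,3)]⟩,⟨0,[]⟩⟩ ⟨true,0,⟨0,[(1,0),(25,0)]⟩,⟨0,[(0,
  0),(49,0)]⟩⟩,.o ⟨false,0,⟨6,[(13,4),(3,4),(5,0),(27,1),(9,0)]⟩,⟨0,[(36,0),(28,0)]⟩⟩]⟩) (.R ⟨0,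
  false,false,true,[0,-1,1],[1,0,0,0,-1],[0,1],(⟨0,[(42,0)]⟩,⟨0,[(0,33),(2,11),(0,0),(9,13),(3,0),
  (4,1),(20,33),(14,0),(1,15),(0,7)]⟩),(⟨0,[(45,0)]⟩,⟨0,[(46,0)]⟩),⟨2,[(18,0),(22,1),(12,0),(4,2)]⟩,
  .k,.k,(.r (-1) ⟨59,[(3,32),(8,34),(9,11),(7,5),(8,15),(21,2)]⟩ ⟨0,[(0,32),(2,10),(0,0),(9,13),(8,
  1),(20,32),(16,15),(0,7)]⟩),(.r 0 ⟨2,[(3,1),(33,0)]⟩ ⟨5,[(15,1),(3,2),(2,0),(15,0),(0,0)]⟩),.k,.k,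
  ⟨false,0,⟨2,[(3,0),(10,0),(47,0),(2,0)]⟩,⟨5,[(12,0),(6,2),(19,1)]⟩⟩,⟨true,0,⟨0,[(1,0),(25,0)]⟩,⟨6,
  [(13,4),(3,4),(5,0),(20,6),(6,1),(9,0)]⟩⟩,⟨false,0,⟨0,[(16,0)]⟩,⟨2,[(12,1),(26,0)]⟩⟩,⟨true,0,⟨1,
  [(0,1),(23,0),(24,0)]⟩,⟨4,[(11,0),(18,1),(1,1),(11,4),(3,0),(12,1)]⟩⟩,⟨false,0,⟨0,[]⟩,⟨0,[]⟩⟩,
  ⟨false,0,⟨0,[]⟩,⟨0,[]⟩⟩,[.a ⟨true,0,⟨0,[(8,0)]⟩,⟨0,[(44,0)]⟩⟩ ⟨false,0,⟨2,[(3,0),(10,0),(47,0),(2,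
  0)]⟩,⟨5,[(12,0),(6,2),(19,1)]⟩⟩ ⟨true,0,⟨0,[(1,0),(25,0)]⟩,⟨6,[(13,4),(3,4),(5,0),(20,6),(6,1),(9,
  0)]⟩⟩,.e ⟨false,1,⟨8,[(12,1),(9,1),(16,1),(18,0),(6,2)]⟩,⟨0,[]⟩⟩ ⟨false,1,⟨2,[(0,0),(0,1),(34,0),
  (10,1),(18,0)]⟩,⟨15,[(13,7),(0,1),(7,2),(7,3),(0,2),(12,15),(13,1),(2,5)]⟩⟩,.e ⟨true,0,⟨47,[(22,
  4),(7,7),(0,0),(5,9),(20,11),(2,3)]⟩,⟨0,[]⟩⟩ ⟨true,0,⟨0,[(1,0),(25,0)]⟩,⟨15,[(13,7),(0,1),(7,2),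
  (7,3),(0,2),(12,15),(13,1),(2,5)]⟩⟩,.o ⟨false,0,⟨6,[(13,4),(3,4),(5,0),(27,1),(9,0)]⟩,⟨0,[(36,0),
  (28,0)]⟩⟩]⟩)))))) (.I [1,1,2,2,-1,0,0,-1] (.I [0,0,2,0,-1,2,1,0,-1] (.N [0,-2,1,0,-1] (-1) ⟨0,[(9,
  0)]⟩ ⟨0,[(1,0)]⟩ (.x 1 ⟨0,[(0,0)]⟩ ⟨107,[(9,3),(5,35),(3,3),(16,3),(0,53),(1,143),(1,107),(0,107),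
  (12,1),(2,98),(3,104)]⟩)) (.K ⟨0,[0,1,0,0,1],0,(-1),(⟨2,[(2,3),(0,2),(2,1),(13,3),(5,25),(29,1),
  (1,10),(0,15),(3,18)]⟩,⟨1,[(0,1),(0,1),(2,1),(1,0),(1,0),(6,1),(10,1),(29,1),(4,1)]⟩),(.r 0 ⟨3,
  [(19,0),(8,0),(5,1)]⟩ ⟨1,[(9,0),(6,0)]⟩),.k,(.r 1 ⟨0,[(2,1),(3,0),(13,1),(5,8),(31,3),(0,5),(3,
  5)]⟩ ⟨53,[(9,58),(6,20),(2,23),(7,11),(8,9),(21,5)]⟩),(.r 0 ⟨1,[(19,0),(8,0)]⟩ ⟨2,[(9,1),(26,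
  0)]⟩),.k,[⟨4,[(4,4),(3,3),(1,0),(0,3),(15,1),(30,0),(0,3)]⟩,⟨0,[(41,0)]⟩,⟨0,[(40,0),(20,0)]⟩,⟨21,
  [(0,8),(0,11),(1,8),(2,5),(8,8),(4,2),(5,19),(14,12),(14,14),(1,3),(0,11)]⟩]⟩)) (.Q [0,0,0,-2,0,0,
  -2,-2,0,1,-2] (.p false [0,0,1] [1,0,-1] (⟨0,[(49,0)]⟩,⟨0,[(48,0)]⟩) .k 2 (⟨0,[(48,0)]⟩,⟨0,[(49,
  0)]⟩) .k (.r 0 ⟨1,[(5,0),(1,0),(28,1)]⟩ ⟨0,[(13,1),(47,0)]⟩)) (.R ⟨1,true,false,false,[1,0,-1],[0,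
  1,1],[1,1,0,0,0,0,0,-1],(⟨0,[(49,0)]⟩,⟨0,[(50,0)]⟩),(⟨143,[(0,2),(0,3),(17,5),(16,7),(8,5),(4,
  143),(0,26),(4,38),(0,17)]⟩,⟨0,[(38,0)]⟩),⟨0,[(38,0)]⟩,.k,.k,.k,(.r (-2) ⟨2,[(0,0),(0,1),(8,0),(5,
  0),(2,2)]⟩ ⟨0,[(6,0),(13,0),(23,0)]⟩),(.r (-2) ⟨0,[(0,0),(9,0),(3,0),(47,1)]⟩ ⟨3,[(6,0),(1,0),(8,
  3),(19,1)]⟩),.k,⟨true,1,⟨0,[(0,0),(9,0),(0,0),(50,1)]⟩,⟨1,[(6,1),(13,1),(3,0),(19,0),(18,0)]⟩⟩,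
  ⟨false,2,⟨0,[(10,0),(3,0),(47,1)]⟩,⟨0,[(20,0),(23,0)]⟩⟩,⟨false,0,⟨0,[]⟩,⟨5,[(1,0),(14,2),(19,
  1)]⟩⟩,⟨true,0,⟨0,[(6,0)]⟩,⟨64,[(0,51),(18,10),(1,3),(3,9),(11,10),(17,19),(1,0)]⟩⟩,⟨true,0,⟨0,
  [(60,0)]⟩,⟨0,[(61,0)]⟩⟩,⟨false,1,⟨3,[(6,3),(28,1),(26,0),(0,0)]⟩,⟨0,[(0,0)]⟩⟩,[]⟩) (.Q [0,0,-1,0,
  1,0,1,0,1,-1,1,1] (.p true [0,0,1] [1,0,0,0,-1] (⟨0,[(50,0)]⟩,⟨0,[(49,0)]⟩) .k 2 (⟨0,[(42,0)]⟩,⟨0,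
  [(43,0)]⟩) .k (.r 0 ⟨2,[(8,0),(25,0),(2,0),(17,0)]⟩ ⟨0,[(16,0)]⟩)) (.S ⟨1,0,[0,0,1],[1,1,0,0,-1],
  [0,-1,1],(⟨129,[(2,1),(17,5),(7,5),(8,9),(5,129),(8,21),(4,35),(0,14),(4,2)]⟩,⟨0,[(4,0)]⟩),⟨0,
  [(43,0)]⟩,(.r (-1) ⟨11,[(13,1),(3,2),(2,0),(15,0),(0,6)]⟩ ⟨2,[(28,1),(30,0),(0,0),(2,0)]⟩),.k,
  ⟨true,0,⟨0,[(62,0)]⟩,⟨0,[(61,0)]⟩⟩,⟨false,0,⟨0,[(62,0)]⟩,⟨3,[(36,1),(26,0),(0,0)]⟩⟩,⟨false,1,⟨5,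
  [(2,0),(14,2),(19,1)]⟩,⟨0,[]⟩⟩,⟨true,0,⟨47,[(20,4),(7,7),(0,0),(5,9),(20,11),(2,3)]⟩,⟨0,[]⟩⟩,[.a
  ⟨true,0,⟨0,[(6,0)]⟩,⟨0,[(42,0)]⟩⟩ ⟨false,1,⟨5,[(2,0),(14,2),(19,1)]⟩,⟨5,[(28,1),(30,0),(0,3),(2,
  0)]⟩⟩ ⟨true,0,⟨1,[(48,0),(0,0)]⟩,⟨0,[]⟩⟩,.o ⟨false,1,⟨11,[(1,0),(3,5),(0,2),(2,1),(31,2),(17,2)]⟩,
  ⟨1,[(0,0),(20,0),(5,0),(14,0),(16,0),(0,0)]⟩⟩,.o ⟨false,1,⟨1,[(6,1),(52,0),(3,0)]⟩,⟨0,[(0,0),(20,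
  0)]⟩⟩,.e ⟨false,1,⟨0,[(64,0)]⟩,⟨47,[(20,4),(7,7),(0,0),(5,9),(20,11),(2,3)]⟩⟩ ⟨false,1,⟨5,[(2,0),
  (14,2),(19,1)]⟩,⟨0,[]⟩⟩]⟩) (.R ⟨0,false,false,true,[0,-1,1],[1,0,0,0,-1],[0,1],(⟨0,[(40,0)]⟩,⟨129,
  [(2,1),(17,5),(7,5),(8,9),(12,129),(1,21),(4,35),(0,14),(4,2)]⟩),(⟨0,[(43,0)]⟩,⟨0,[(44,0)]⟩),⟨2,
  [(16,0),(22,1),(12,0),(4,2)]⟩,.k,.k,(.r (-1) ⟨68,[(2,67),(17,6),(7,11),(6,14),(20,16),(2,5)]⟩ ⟨1,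
  [(1,1),(0,18),(0,24),(17,3),(5,27),(31,12),(0,15)]⟩),(.r 0 ⟨35,[(1,4),(0,17),(6,3),(11,11),(5,5),
  (10,2),(17,23)]⟩ ⟨5,[(13,1),(3,2),(2,0),(15,0),(0,0)]⟩),.k,.k,⟨false,0,⟨5,[(28,1),(30,0),(0,3),(2,
  0)]⟩,⟨5,[(2,0),(14,2),(19,1)]⟩⟩,⟨true,0,⟨0,[(0,0),(62,0)]⟩,⟨6,[(11,4),(3,4),(5,0),(20,6),(6,1),(9,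
  0)]⟩⟩,⟨false,0,⟨0,[(14,0)]⟩,⟨2,[(2,1),(34,0)]⟩⟩,⟨true,0,⟨15,[(0,4),(4,10),(6,4),(15,1),(30,0),(0,
  14)]⟩,⟨4,[(9,0),(18,1),(1,1),(11,4),(3,0),(12,1)]⟩⟩,⟨false,0,⟨0,[]⟩,⟨0,[]⟩⟩,⟨false,0,⟨0,[]⟩,⟨0,
  []⟩⟩,[.a ⟨true,0,⟨0,[(6,0)]⟩,⟨0,[(42,0)]⟩⟩ ⟨false,0,⟨5,[(28,1),(30,0),(0,3),(2,0)]⟩,⟨5,[(2,0),(14,
  2),(19,1)]⟩⟩ ⟨true,0,⟨0,[(0,0),(62,0)]⟩,⟨6,[(11,4),(3,4),(5,0),(20,6),(6,1),(9,0)]⟩⟩,.e ⟨false,1,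
  ⟨8,[(2,1),(17,1),(16,1),(18,0),(6,2)]⟩,⟨0,[]⟩⟩ ⟨false,1,⟨4,[(0,1),(1,2),(2,2),(54,5),(3,0)]⟩,⟨15,
  [(11,7),(0,1),(7,2),(7,3),(0,2),(12,15),(13,1),(2,5)]⟩⟩,.e ⟨true,0,⟨47,[(20,4),(7,7),(0,0),(5,9),
  (20,11),(2,3)]⟩,⟨0,[]⟩⟩ ⟨true,0,⟨0,[(0,0),(62,0)]⟩,⟨15,[(11,7),(0,1),(7,2),(7,3),(0,2),(12,15),
  (13,1),(2,5)]⟩⟩,.o ⟨false,0,⟨6,[(11,4),(3,4),(5,0),(27,1),(9,0)]⟩,⟨0,[(2,0),(19,0)]⟩⟩]⟩))))) (.Q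
  [0,0,0,0,0,0,1,1,-1,0,1,-1] (.p false [1,0,-1,0,1] [1] (⟨0,[(40,0),(5,0)]⟩,⟨0,[(0,0),(35,0)]⟩) .k
  1 (⟨0,[]⟩,⟨0,[]⟩) .k (.r 0 ⟨5,[(8,3),(2,1),(12,1),(30,0),(3,4)]⟩ ⟨2,[(6,0),(26,1)]⟩)) (.K ⟨0,[0,0,
  1,0,-1],0,0,(⟨0,[(1,0),(35,0)]⟩,⟨0,[(41,0),(5,0)]⟩),.k,(.r (-1) ⟨2,[(7,1),(26,0)]⟩ ⟨1,[(17,0),(8,
  0)]⟩),(.r 0 ⟨8,[(7,1),(7,5),(18,0),(26,2)]⟩ ⟨23,[(7,10),(9,17),(7,9),(17,0),(2,0),(6,2),(2,4)]⟩),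
  .k,.k,[⟨0,[(39,0)]⟩,⟨0,[(0,0),(11,0)]⟩,⟨33,[(17,4),(7,3),(0,2),(12,33),(4,23),(1,9),(6,15),(2,
  1)]⟩,⟨0,[(0,0)]⟩]⟩) (.R ⟨2,true,false,true,[0,1],[0,0,1,0,-1],[1,1,1,1],(⟨0,[]⟩,⟨0,[]⟩),(⟨0,[(1,
  0),(35,0)]⟩,⟨0,[(41,0),(5,0)]⟩),⟨0,[]⟩,.k,.k,.k,(.r 0 ⟨1,[(17,0),(8,0)]⟩ ⟨2,[(7,1),(26,0)]⟩),.k,
  .k,⟨false,0,⟨0,[(9,0),(50,0)]⟩,⟨2,[(7,1),(26,0)]⟩⟩,⟨true,0,⟨4,[(2,4),(3,3),(1,0),(0,3),(15,1),(30,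
  0),(0,3)]⟩,⟨0,[(31,0),(7,0)]⟩⟩,⟨false,0,⟨0,[]⟩,⟨5,[(7,0),(6,2),(19,1)]⟩⟩,⟨true,0,⟨0,[(2,0),(1,0),
  (19,1),(31,0)]⟩,⟨18,[(0,11),(16,0),(1,6),(3,0),(8,1),(6,6),(13,3)]⟩⟩,⟨true,0,⟨0,[(58,0)]⟩,⟨0,[(59,
  0)]⟩⟩,⟨false,1,⟨3,[(3,1),(0,0),(1,0),(31,1),(22,1)]⟩,⟨0,[(0,0)]⟩⟩,[]⟩))) (.Q [0,0,0,0,0,-1,0,0,0,
  0,0,1] (.ed false [1,-1,0,0,1] .k) (.S ⟨1,0,[0,0,1],[1,1,0,0,-1],[0,-1,1],(⟨5,[(3,1),(4,3),(8,3),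
  (5,21),(15,5),(13,1),(1,8),(0,15),(3,20)]⟩,⟨0,[(0,0)]⟩),⟨0,[(39,0)]⟩,(.r (-1) ⟨11,[(9,1),(3,2),(2,
  0),(15,0),(0,6)]⟩ ⟨2,[(24,1),(30,0),(0,0),(2,0)]⟩),.k,⟨true,0,⟨0,[(58,0)]⟩,⟨0,[(57,0)]⟩⟩,⟨false,0,
  ⟨0,[(58,0)]⟩,⟨3,[(32,1),(26,0),(0,0)]⟩⟩,⟨false,1,⟨5,[(6,0),(6,2),(19,1)]⟩,⟨0,[]⟩⟩,⟨true,0,⟨47,
  [(16,4),(7,7),(0,0),(5,9),(20,11),(2,3)]⟩,⟨0,[]⟩⟩,[.a ⟨true,0,⟨0,[(2,0)]⟩,⟨0,[(38,0)]⟩⟩ ⟨false,1,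
  ⟨5,[(6,0),(6,2),(19,1)]⟩,⟨5,[(24,1),(30,0),(0,3),(2,0)]⟩⟩ ⟨true,0,⟨1,[(44,0),(0,0)]⟩,⟨0,[]⟩⟩,.o
  ⟨false,1,⟨1,[(2,1),(52,0),(4,0)]⟩,⟨2,[(1,0),(36,1),(4,0),(11,0)]⟩⟩,.o ⟨false,1,⟨1,[(2,1),(52,0),
  (3,0)]⟩,⟨7,[(1,1),(7,1),(7,1),(20,5),(16,2),(2,1),(1,0)]⟩⟩,.e ⟨false,1,⟨0,[(60,0)]⟩,⟨47,[(16,4),
  (7,7),(0,0),(5,9),(20,11),(2,3)]⟩⟩ ⟨false,1,⟨5,[(6,0),(6,2),(19,1)]⟩,⟨0,[]⟩⟩]⟩) (.R ⟨0,false,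
  false,false,[0,0,0,0,1],[1,0,-1],[0,1],(⟨0,[(40,0)]⟩,⟨0,[(39,0)]⟩),(⟨0,[(46,0)]⟩,⟨0,[(47,0)]⟩),⟨0,
  [(0,0)]⟩,.k,.k,(.r 0 ⟨2,[(24,1),(30,0),(0,0),(2,0)]⟩ ⟨11,[(9,1),(3,2),(2,0),(15,0),(0,6)]⟩),.k,.k,
  .k,⟨false,0,⟨3,[(3,0),(1,0),(24,1),(10,1),(10,1)]⟩,⟨0,[(13,0)]⟩⟩,⟨true,0,⟨0,[(2,0),(27,0)]⟩,⟨0,
  [(1,0),(9,0),(48,0)]⟩⟩,⟨false,1,⟨5,[(6,0),(6,2),(19,1)]⟩,⟨0,[]⟩⟩,⟨true,1,⟨0,[(2,0),(40,0),(16,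
  0)]⟩,⟨0,[(1,0)]⟩⟩,⟨false,0,⟨0,[]⟩,⟨0,[]⟩⟩,⟨false,0,⟨0,[]⟩,⟨0,[]⟩⟩,[.e ⟨false,0,⟨5,[(24,1),(30,0),
  (0,3),(2,0)]⟩,⟨5,[(6,0),(6,2),(19,1)]⟩⟩ ⟨false,1,⟨1,[(2,1),(3,0),(6,0),(4,0),(24,0)]⟩,⟨0,[(1,0),
  (58,0)]⟩⟩,.o ⟨false,1,⟨0,[(43,0),(16,0)]⟩,⟨0,[(26,0)]⟩⟩,.a ⟨true,0,⟨0,[(38,0)]⟩,⟨0,[(2,0)]⟩⟩
  ⟨true,0,⟨47,[(16,4),(7,7),(0,0),(5,9),(20,11),(2,3)]⟩,⟨0,[]⟩⟩ ⟨false,1,⟨0,[(2,0),(40,0),(16,0)]⟩,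
  ⟨0,[(1,0),(58,0)]⟩⟩,.o ⟨false,0,⟨7,[(1,1),(7,1),(7,1),(20,5),(16,2),(2,1),(1,0)]⟩,⟨1,[(2,1),(52,
  0),(3,0)]⟩⟩]⟩))) (.Q [0,0,0,0,0,0,0,0,0,1,-1,-1] (.ed true [0,0,1,0,1] (.r 0 ⟨2,[(3,0),(25,0),(2,
  0),(17,0)]⟩ ⟨0,[(11,0)]⟩)) (.Q [0,0,0,-2,0,0,-2,-2,0,1,-2] (.p false [0,0,1] [1,0,-1] (⟨0,[(46,
  0)]⟩,⟨0,[(45,0)]⟩) .k 2 (⟨0,[(45,0)]⟩,⟨0,[(46,0)]⟩) .k (.r 0 ⟨1,[(2,0),(1,0),(28,1)]⟩ ⟨0,[(10,1),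
  (47,0)]⟩)) (.R ⟨1,true,false,false,[1,0,-1],[0,1,1],[1,1,0,0,0,0,0,-1],(⟨0,[(46,0)]⟩,⟨0,[(47,
  0)]⟩),(⟨2,[(3,1),(4,3),(8,3),(5,21),(12,2),(16,1),(1,8),(0,15),(3,20)]⟩,⟨0,[(35,0)]⟩),⟨0,[(35,
  0)]⟩,.k,.k,.k,(.r (-2) ⟨2,[(0,0),(5,1),(0,0),(5,0),(2,2)]⟩ ⟨0,[(3,0),(13,0),(23,0)]⟩),(.r (-2) ⟨0,
  [(0,0),(6,0),(3,0),(47,1)]⟩ ⟨3,[(3,0),(1,0),(8,3),(19,1)]⟩),.k,⟨true,1,⟨2,[(8,0),(2,4),(12,1),(30,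
  0),(3,4)]⟩,⟨1,[(3,1),(13,1),(3,0),(19,0),(18,0)]⟩⟩,⟨false,2,⟨0,[(7,0),(3,0),(47,1)]⟩,⟨0,[(17,0),
  (23,0)]⟩⟩,⟨false,0,⟨0,[]⟩,⟨5,[(6,0),(6,2),(19,1)]⟩⟩,⟨true,0,⟨0,[(3,0)]⟩,⟨64,[(0,51),(15,10),(1,3),
  (3,9),(11,10),(17,19),(1,0)]⟩⟩,⟨true,0,⟨0,[(57,0)]⟩,⟨0,[(58,0)]⟩⟩,⟨false,1,⟨3,[(3,3),(28,1),(26,
  0),(0,0)]⟩,⟨0,[(0,0)]⟩⟩,[]⟩) (.Q [0,0,0,0,0,0,2,0,1,-1,2,1] (.p true [0,0,1] [1,0,-1,0,-1] (⟨0,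
  [(47,0)]⟩,⟨0,[(46,0)]⟩) .k 2 (⟨0,[(1,0)]⟩,⟨0,[(40,0),(6,0)]⟩) .k (.r 1 ⟨2,[(0,1),(4,0),(17,2),(6,
  5)]⟩ ⟨53,[(6,4),(6,74),(2,23),(7,11),(8,9),(21,5)]⟩)) (.K ⟨0,[1,0,-1,0,-1],0,1,(⟨0,[(2,0)]⟩,⟨0,
  [(41,0),(6,0)]⟩),.k,(.r (-2) ⟨26,[(7,15),(6,23),(2,11),(7,5),(8,4),(21,2)]⟩ ⟨1,[(1,0),(16,0),(3,
  0),(30,0)]⟩),(.r (-1) ⟨5,[(10,1),(3,2),(2,0),(15,0),(0,0)]⟩ ⟨2,[(6,0),(0,0),(10,0),(23,0),(10,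
  1)]⟩),.k,.k,[⟨0,[(0,0)]⟩,⟨0,[(22,0),(15,0)]⟩,⟨0,[(3,0),(17,0),(2,0)]⟩,⟨15,[(11,0),(2,7),(7,3),(1,
  0),(13,15),(3,4),(1,6),(10,2)]⟩]⟩) (.Q [0,0,0,0,0,0,0,0,0,0,-1,1] (.ed false [1,0,-1,0,1] (.r 0
  ⟨5,[(9,3),(2,1),(12,1),(30,0),(3,4)]⟩ ⟨2,[(7,0),(26,1)]⟩)) (.Q [0,0,0,0,0,0,1,1,-1,1,1,-1] (.p
  false [0,0,-1,0,1] [1] (⟨0,[(0,0)]⟩,⟨0,[(41,0),(7,0)]⟩) .k 1 (⟨0,[]⟩,⟨0,[]⟩) .k (.r 0 ⟨5,[(10,3),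
  (2,1),(12,1),(30,0),(3,4)]⟩ ⟨2,[(8,0),(26,1)]⟩)) (.K ⟨0,[1,0,1,0,-1],0,0,(⟨0,[(42,0),(7,0)]⟩,⟨0,
  [(1,0)]⟩),.k,(.r (-1) ⟨2,[(9,1),(26,0)]⟩ ⟨1,[(19,0),(8,0)]⟩),(.r 0 ⟨8,[(9,1),(7,5),(18,0),(26,
  2)]⟩ ⟨23,[(9,10),(9,17),(7,9),(17,0),(2,0),(6,2),(2,4)]⟩),.k,.k,[⟨0,[(5,0)]⟩,⟨0,[(0,0),(13,0)]⟩,
  ⟨33,[(5,33),(13,4),(7,3),(0,2),(17,23),(1,9),(6,15),(2,1)]⟩,⟨0,[(0,0)]⟩]⟩) (.K ⟨0,[1,0,0,0,-1],0,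
  1,(⟨0,[(42,0)]⟩,⟨0,[(43,0)]⟩),.k,(.r (-1) ⟨1,[(9,0),(6,0)]⟩ ⟨3,[(19,0),(8,0),(5,1)]⟩),(.r (-1)
  ⟨11,[(12,1),(3,2),(2,0),(15,0),(0,6)]⟩ ⟨2,[(27,1),(30,0),(0,0),(2,0)]⟩),.k,.k,[⟨7,[(0,7),(2,1),(6,
  5),(5,1),(9,3),(30,1),(4,2),(0,0)]⟩,⟨14,[(2,3),(0,2),(6,0),(1,6),(13,12),(13,10),(16,0),(5,2)]⟩,
  ⟨0,[(0,0),(22,0),(2,0)]⟩,⟨108,[(9,8),(9,14),(7,8),(8,20),(3,108),(10,27),(1,27),(1,2),(1,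
  35)]⟩]⟩)) (.Q [0,0,0,0,0,1,0,0,0,0,-1,1] (.p true [1,0,-1,0,1] [1] (⟨0,[(42,0),(5,0)]⟩,⟨0,[(0,
  0)]⟩) .k 1 (⟨0,[]⟩,⟨0,[]⟩) .k (.r 0 ⟨5,[(10,3),(2,1),(12,1),(30,0),(3,4)]⟩ ⟨2,[(8,0),(26,1)]⟩))
  (.Q [0,-1,0,-1,1,0,1,1,-1,0,1,-1] (.p false [1,0,-1,0,1] [1] (⟨0,[(0,0),(52,0)]⟩,⟨0,[(1,0)]⟩) .k
  1 (⟨0,[]⟩,⟨0,[]⟩) .k (.r 0 ⟨5,[(11,3),(2,1),(12,1),(30,0),(3,4)]⟩ ⟨2,[(9,0),(26,1)]⟩)) (.R ⟨0,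
  false,false,false,[0,0,1,0,-1],[0,1],[],(⟨0,[(2,0)]⟩,⟨0,[(1,0),(52,0)]⟩),(⟨0,[(55,0)]⟩,⟨0,[(54,
  0)]⟩),⟨0,[(1,0)]⟩,.k,.k,(.r (-1) ⟨2,[(10,1),(26,0)]⟩ ⟨1,[(20,0),(8,0)]⟩),(.r (-1) ⟨2,[(10,1),(26,
  0)]⟩ ⟨1,[(20,0),(8,0)]⟩),.k,.k,⟨false,1,⟨5,[(10,0),(6,0),(10,1),(30,0),(3,4)]⟩,⟨4,[(19,0),(6,0),
  (10,0)]⟩⟩,⟨true,0,⟨0,[(6,0),(38,0)]⟩,⟨0,[(0,0),(11,0)]⟩⟩,⟨true,0,⟨5,[(12,3),(2,1),(12,1),(30,0),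
  (3,4)]⟩,⟨5,[(4,0),(4,1),(28,2)]⟩⟩,⟨false,0,⟨4,[(6,4),(7,0),(2,1),(4,1),(2,0),(19,1),(12,0)]⟩,⟨0,
  [(0,0)]⟩⟩,⟨false,0,⟨0,[]⟩,⟨0,[]⟩⟩,⟨false,0,⟨0,[]⟩,⟨0,[]⟩⟩,[.o ⟨false,1,⟨39,[(22,1),(0,1),(12,15),
  (19,5),(2,18),(3,4)]⟩,⟨0,[(62,0)]⟩⟩,.a ⟨true,1,⟨3,[(36,1),(26,0),(0,0)]⟩,⟨0,[(27,0)]⟩⟩ ⟨false,1,
  ⟨1,[(63,0),(0,0)]⟩,⟨47,[(20,4),(7,7),(0,0),(5,9),(20,11),(2,3)]⟩⟩ ⟨true,0,⟨0,[(6,0),(18,0),(34,0),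
  (3,0)]⟩,⟨2,[(0,2),(11,2),(15,1),(30,0),(0,0),(2,0)]⟩⟩,.e ⟨false,1,⟨5,[(10,0),(6,2),(19,1)]⟩,⟨0,
  []⟩⟩ ⟨false,0,⟨0,[(6,0),(18,0),(34,0),(3,0)]⟩,⟨5,[(0,5),(11,3),(2,1),(12,1),(30,0),(3,4)]⟩⟩,.o
  ⟨false,1,⟨1,[(0,1),(11,1),(46,0),(3,0)]⟩,⟨0,[(6,0),(38,0)]⟩⟩]⟩) (.K ⟨0,[1,0,0,0,-1],0,1,(⟨0,[(43,
  0)]⟩,⟨0,[(44,0)]⟩),.k,(.r (-1) ⟨1,[(10,0),(6,0)]⟩ ⟨3,[(20,0),(8,0),(5,1)]⟩),(.r (-1) ⟨11,[(13,1),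
  (3,2),(2,0),(15,0),(0,6)]⟩ ⟨2,[(28,1),(30,0),(0,0),(2,0)]⟩),.k,.k,[⟨1,[(0,1),(9,0),(0,1),(5,0)]⟩,
  ⟨14,[(3,3),(0,2),(6,0),(1,6),(13,12),(13,10),(16,0),(5,2)]⟩,⟨4,[(0,3),(5,0),(21,1),(1,3),(28,0)]⟩,
  ⟨108,[(10,8),(9,14),(7,8),(8,20),(3,108),(10,27),(1,27),(1,2),(1,35)]⟩]⟩)) (.Q [0,0,1,0,-1,0,0,0,
  1,0,0,1] (.p true [0,0,0,0,1] [] (⟨0,[(43,0)]⟩,⟨0,[(42,0)]⟩) .k 0 (⟨0,[]⟩,⟨0,[]⟩) .k .k) (.R ⟨0,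
  false,false,true,[0,0,0,0,1],[0,1],[],(⟨0,[(44,0)]⟩,⟨0,[(43,0)]⟩),(⟨0,[(55,0)]⟩,⟨0,[(54,0)]⟩),⟨4,
  [(1,2),(3,1),(10,0),(35,0),(4,2)]⟩,.k,.k,(.r 0 ⟨2,[(28,1),(30,0),(0,0),(2,0)]⟩ ⟨11,[(13,1),(3,2),
  (2,0),(15,0),(0,6)]⟩),(.r 0 ⟨2,[(28,1),(30,0),(0,0),(2,0)]⟩ ⟨11,[(13,1),(3,2),(2,0),(15,0),(0,
  6)]⟩),.k,.k,⟨true,1,⟨1,[(10,0),(6,0)]⟩,⟨0,[(29,0)]⟩⟩,⟨false,2,⟨0,[(41,0),(21,0)]⟩,⟨0,[(0,0)]⟩⟩,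
  ⟨false,1,⟨0,[(64,0)]⟩,⟨47,[(20,4),(7,7),(0,0),(5,9),(20,11),(2,3)]⟩⟩,⟨true,1,⟨5,[(3,0),(0,0),(9,
  1),(26,4),(18,1),(3,0)]⟩,⟨0,[(6,0),(20,0)]⟩⟩,⟨false,0,⟨0,[]⟩,⟨0,[]⟩⟩,⟨false,0,⟨0,[]⟩,⟨0,[]⟩⟩,[.e
  ⟨false,1,⟨8,[(10,1),(9,1),(16,1),(18,0),(6,2)]⟩,⟨0,[]⟩⟩ ⟨false,1,⟨0,[(41,0),(18,0)]⟩,⟨1,[(0,1),(9,
  0),(6,0)]⟩⟩,.o ⟨false,1,⟨39,[(22,1),(0,1),(12,15),(19,5),(2,18),(3,4)]⟩,⟨0,[(62,0)]⟩⟩,.o ⟨false,0,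
  ⟨0,[(6,0)]⟩,⟨0,[(41,0)]⟩⟩,.a ⟨true,(-1),⟨0,[(0,0)]⟩,⟨2,[(27,0),(13,2),(16,0),(1,0),(2,0),(0,0)]⟩⟩
  ⟨false,1,⟨1,[(63,0),(0,0)]⟩,⟨1,[(48,0),(0,0)]⟩⟩ ⟨true,1,⟨0,[(41,0),(18,0)]⟩,⟨0,[(0,0),(61,
  0)]⟩⟩]⟩) (.R ⟨0,false,false,false,[0,0,0,0,1],[0,1],[1,0,2,1],(⟨0,[(44,0)]⟩,⟨0,[(43,0)]⟩),(⟨0,
  [(55,0)]⟩,⟨0,[(54,0)]⟩),⟨4,[(1,2),(3,1),(10,0),(35,0),(4,2)]⟩,.k,.k,(.r 0 ⟨2,[(28,1),(30,0),(0,0),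
  (2,0)]⟩ ⟨11,[(13,1),(3,2),(2,0),(15,0),(0,6)]⟩),(.r 0 ⟨2,[(28,1),(30,0),(0,0),(2,0)]⟩ ⟨11,[(13,1),
  (3,2),(2,0),(15,0),(0,6)]⟩),.k,.k,⟨false,0,⟨0,[]⟩,⟨8,[(10,1),(9,1),(16,1),(18,0),(6,2)]⟩⟩,⟨true,1,
  ⟨0,[(0,0)]⟩,⟨15,[(6,5),(4,2),(1,5),(4,2),(2,4),(3,0),(2,5),(13,9),(15,0)]⟩⟩,⟨true,0,⟨38,[(11,3),
  (1,18),(4,4),(2,7),(15,9),(20,1),(5,4)]⟩,⟨1,[(28,1),(30,0),(0,1),(2,0)]⟩⟩,⟨false,2,⟨11,[(0,7),(2,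
  0),(0,0),(8,1),(22,3),(4,2),(22,8)]⟩,⟨0,[(6,0),(20,0)]⟩⟩,⟨false,0,⟨0,[]⟩,⟨0,[]⟩⟩,⟨false,0,⟨0,[]⟩,
  ⟨0,[]⟩⟩,[.o ⟨false,1,⟨39,[(22,1),(0,1),(12,15),(19,5),(2,18),(3,4)]⟩,⟨0,[(62,0)]⟩⟩,.a ⟨true,1,⟨3,
  [(36,1),(26,0),(0,0)]⟩,⟨0,[(27,0)]⟩⟩ ⟨true,0,⟨38,[(11,3),(1,18),(4,4),(2,7),(15,9),(20,1),(5,4)]⟩,
  ⟨2,[(28,1),(30,0),(0,0),(2,0)]⟩⟩ ⟨false,2,⟨3,[(0,3),(35,1),(26,0),(0,0)]⟩,⟨0,[(6,0),(20,0)]⟩⟩,.o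
  ⟨false,0,⟨0,[(6,0)]⟩,⟨0,[(41,0)]⟩⟩,.o ⟨false,0,⟨3,[(6,2),(4,0),(3,0),(26,0),(6,1)]⟩,⟨0,[(0,
  0)]⟩⟩]⟩)))))) (.Q [0,-1,0,0,1,0,0,0,-1,1,0,-1] (.p false [0,0,0,0,1] [1] (⟨0,[(39,0)]⟩,⟨0,[(38,
  0)]⟩) .k 1 (⟨0,[]⟩,⟨0,[]⟩) .k .k) (.Q [0,0,1,0,-1,0,0,0,1,0,0,1] (.p true [0,0,0,0,1] [] (⟨0,[(40,
  0)]⟩,⟨0,[(39,0)]⟩) .k 0 (⟨0,[]⟩,⟨0,[]⟩) .k .k) (.S ⟨1,0,[0,0,1],[1,1,0,0,-1],[0,-1,1],(⟨171,[(1,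
  2),(15,5),(7,8),(8,11),(4,2),(0,171),(8,27),(4,47),(0,17),(4,5)]⟩,⟨1,[(2,0),(10,0),(27,0)]⟩),⟨0,
  [(40,0)]⟩,(.r (-1) ⟨11,[(10,1),(3,2),(2,0),(15,0),(0,6)]⟩ ⟨2,[(25,1),(30,0),(0,0),(2,0)]⟩),.k,
  ⟨true,0,⟨0,[(59,0)]⟩,⟨0,[(58,0)]⟩⟩,⟨false,0,⟨0,[(59,0)]⟩,⟨3,[(33,1),(26,0),(0,0)]⟩⟩,⟨false,1,⟨5,
  [(7,0),(6,2),(19,1)]⟩,⟨0,[]⟩⟩,⟨true,0,⟨47,[(17,4),(7,7),(0,0),(5,9),(20,11),(2,3)]⟩,⟨0,[]⟩⟩,[.o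
  ⟨false,1,⟨0,[(38,0)]⟩,⟨0,[(3,0)]⟩⟩,.e ⟨false,1,⟨0,[(61,0)]⟩,⟨0,[(53,0)]⟩⟩ ⟨false,1,⟨5,[(7,0),(6,
  2),(19,1)]⟩,⟨5,[(25,1),(30,0),(0,3),(2,0)]⟩⟩,.a ⟨true,1,⟨2,[(1,1),(22,0),(13,0),(18,0),(2,0)]⟩,⟨0,
  [(0,0)]⟩⟩ ⟨false,1,⟨6,[(8,0),(5,2),(3,1),(6,0),(8,1),(26,4)]⟩,⟨5,[(25,1),(30,0),(0,3),(2,0)]⟩⟩
  ⟨true,0,⟨1,[(45,0),(0,0)]⟩,⟨5,[(25,1),(30,0),(0,3),(2,0)]⟩⟩,.o ⟨false,1,⟨0,[(38,0)]⟩,⟨0,[(3,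
  0)]⟩⟩]⟩) (.K ⟨0,[1,0,1,0,-1],0,0,(⟨0,[(40,0),(7,0)]⟩,⟨2,[(2,1),(10,4),(27,0),(7,0),(4,2)]⟩),.k,
  (.r (-1) ⟨2,[(7,1),(26,0)]⟩ ⟨1,[(17,0),(8,0)]⟩),(.r 0 ⟨8,[(7,1),(7,5),(18,0),(26,2)]⟩ ⟨23,[(7,10),
  (9,17),(7,9),(17,0),(2,0),(6,2),(2,4)]⟩),.k,.k,[⟨0,[(3,0)]⟩,⟨15,[(0,7),(0,7),(2,2),(3,4),(0,0),(0,
  6),(0,2),(12,13),(30,0)]⟩,⟨33,[(3,33),(13,4),(7,3),(0,2),(17,23),(1,9),(6,15),(2,1)]⟩,⟨10,[(0,6),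
  (0,3),(2,5),(5,1),(4,0),(6,0),(1,9),(30,0),(5,1)]⟩]⟩)) (.R ⟨2,true,false,true,[0,1],[1,0,0,0,-1],
  [0,0,1],(⟨0,[]⟩,⟨0,[]⟩),(⟨0,[(39,0)]⟩,⟨0,[(40,0)]⟩),⟨0,[]⟩,.k,.k,.k,(.r 0 ⟨3,[(16,0),(8,0),(5,
  1)]⟩ ⟨1,[(6,0),(6,0)]⟩),.k,.k,⟨true,0,⟨1,[(44,0),(0,0)]⟩,⟨0,[]⟩⟩,⟨false,1,⟨108,[(6,8),(9,14),(7,
  8),(8,20),(3,108),(10,27),(1,27),(1,2),(1,35)]⟩,⟨1,[(0,1),(58,0),(0,0)]⟩⟩,⟨true,0,⟨0,[(58,0)]⟩,⟨0,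
  [(57,0)]⟩⟩,⟨false,1,⟨3,[(24,1),(12,3),(16,0),(5,2)]⟩,⟨9,[(0,1),(1,7),(0,1),(14,3),(35,0),(5,2)]⟩⟩,
  ⟨false,1,⟨5,[(6,0),(6,2),(19,1)]⟩,⟨0,[]⟩⟩,⟨true,1,⟨108,[(6,8),(9,14),(7,8),(8,20),(3,108),(10,27),
  (1,27),(1,2),(1,35)]⟩,⟨0,[(0,0)]⟩⟩,[]⟩))))))) (.Q [0,0,0,-1,0,0,2,2,0,-1,2] (.p true [0,0,1] [1,0,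
  -1] (⟨0,[(41,0)]⟩,⟨0,[(40,0)]⟩) .k 2 (⟨0,[(40,0)]⟩,⟨0,[(41,0)]⟩) .k (.r 0 ⟨0,[(21,1),(2,1)]⟩ ⟨0,
  [(5,1),(47,0)]⟩)) (.Q [0,0,0,0,0,0,0,0,-1,1,0,-1] (.p false [0,0,0,0,1] [1] (⟨0,[(35,0)]⟩,⟨0,[(34,
  0)]⟩) .k 1 (⟨0,[]⟩,⟨0,[]⟩) .k .k) (.Q [0,0,0,0,0,0,-2,-2,0,1,-2] (.p false [0,0,1] [1,0,-1] (⟨0,
  [(43,0)]⟩,⟨0,[(42,0)]⟩) .k 2 (⟨0,[(42,0)]⟩,⟨0,[(43,0)]⟩) .k (.r 0 ⟨14,[(1,11),(8,1),(4,3),(14,11),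
  (6,3),(18,1)]⟩ ⟨0,[(7,1),(47,0)]⟩)) (.R ⟨1,true,false,false,[0,0,1],[1,0,-1],[1,1,0,0,0,0,0,1],
  (⟨0,[(44,0)]⟩,⟨0,[(43,0)]⟩),(⟨0,[(43,0)]⟩,⟨0,[(44,0)]⟩),⟨0,[(33,0)]⟩,.k,.k,.k,.k,(.r 0 ⟨0,[(2,0),
  (24,0),(10,0)]⟩ ⟨7,[(6,1),(1,2),(1,1),(2,4),(16,0)]⟩),.k,⟨true,(-1),⟨0,[(2,0),(11,0),(23,0),(14,
  0)]⟩,⟨0,[(8,0),(1,0)]⟩⟩,⟨false,0,⟨0,[(27,0),(10,0)]⟩,⟨0,[(4,0),(3,0),(47,0)]⟩⟩,⟨false,0,⟨0,[]⟩,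
  ⟨17,[(10,7),(14,3),(4,3),(0,1),(20,0),(3,1),(0,2)]⟩⟩,⟨true,0,⟨0,[(0,0)]⟩,⟨1,[(2,0),(14,0),(21,
  0)]⟩⟩,⟨true,0,⟨0,[(54,0)]⟩,⟨0,[(55,0)]⟩⟩,⟨false,1,⟨3,[(0,3),(28,1),(26,0),(0,0)]⟩,⟨0,[(2,0)]⟩⟩,
  []⟩) (.Q [0,0,0,0,0,1,0,0,0,-1,0,1] (.ed false [0,1,0,0,1] .k) (.Q [0,-1,0,1,1,0,0,0,-1,0,0,-1]
  (.p false [0,0,0,0,1] [] (⟨0,[(38,0)]⟩,⟨0,[(37,0)]⟩) .k 0 (⟨0,[]⟩,⟨0,[]⟩) .k .k) (.Q [0,-2,0,-1,1,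
  0,1,1,-1,0,1,-1] (.p false [0,0,-1,0,1] [] (⟨0,[(1,0),(32,0)]⟩,⟨0,[(38,0),(7,0)]⟩) .k 0 (⟨0,[]⟩,
  ⟨0,[]⟩) .k (.r 0 ⟨5,[(7,3),(2,1),(12,1),(30,0),(3,4)]⟩ ⟨13,[(4,1),(22,3),(4,5),(0,3),(20,0),(3,2),
  (0,3)]⟩)) (.R ⟨0,false,false,false,[1,0,0,0,-1],[1,-1],[],(⟨0,[(39,0)]⟩,⟨0,[(40,0)]⟩),(⟨0,[(50,
  0)]⟩,⟨0,[(51,0)]⟩),⟨0,[(2,0)]⟩,.k,.k,(.r (-1) ⟨1,[(58,1),(0,0),(0,0)]⟩ ⟨3,[(16,0),(8,0),(5,1)]⟩),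
  (.r (-1) ⟨11,[(9,1),(3,2),(2,0),(15,0),(0,6)]⟩ ⟨2,[(24,1),(30,0),(0,0),(2,0)]⟩),.k,.k,⟨true,0,⟨4,
  [(15,0),(6,0),(10,0)]⟩,⟨0,[(58,0)]⟩⟩,⟨false,0,⟨0,[(38,0)]⟩,⟨1,[(4,1),(50,0),(3,0)]⟩⟩,⟨true,0,⟨47,
  [(16,4),(7,7),(0,0),(5,9),(20,11),(2,3)]⟩,⟨0,[]⟩⟩,⟨false,0,⟨0,[(38,0),(19,0)]⟩,⟨0,[(1,0)]⟩⟩,
  ⟨false,0,⟨0,[]⟩,⟨0,[]⟩⟩,⟨false,0,⟨0,[]⟩,⟨0,[]⟩⟩,[.o ⟨false,0,⟨0,[(58,0)]⟩,⟨39,[(18,1),(0,1),(12,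
  15),(19,5),(2,18),(3,4)]⟩⟩,.e ⟨false,1,⟨1,[(59,0),(0,0)]⟩,⟨47,[(16,4),(7,7),(0,0),(5,9),(20,11),
  (2,3)]⟩⟩ ⟨false,1,⟨1,[(38,1),(19,1),(0,0),(0,0)]⟩,⟨3,[(0,0),(3,2),(1,0),(10,0),(5,0),(31,1),(0,
  3)]⟩⟩,.a ⟨true,0,⟨0,[(4,0)]⟩,⟨0,[(38,0)]⟩⟩ ⟨false,1,⟨17,[(0,2),(12,7),(14,0),(4,3),(0,1),(3,2),
  (16,0),(3,1)]⟩,⟨0,[]⟩⟩ ⟨true,0,⟨0,[(38,0),(19,0)]⟩,⟨3,[(0,0),(3,2),(1,0),(10,0),(5,0),(31,1),(0,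
  3)]⟩⟩,.o ⟨false,0,⟨3,[(0,0),(3,2),(1,0),(10,0),(5,0),(31,1)]⟩,⟨1,[(38,1),(16,0),(3,0)]⟩⟩]⟩) (.K
  ⟨0,[-1,0,1,0,1],0,(-1),(⟨0,[(2,0),(33,0)]⟩,⟨0,[(39,0),(6,0)]⟩),.k,(.r 0 ⟨7,[(5,3),(18,1),(5,4),(3,
  0),(6,0),(10,2),(6,1)]⟩ ⟨5,[(9,1),(3,2),(2,0),(15,0),(0,0)]⟩),(.r 1 ⟨2,[(14,0),(2,0),(2,1),(2,0),
  (17,0)]⟩ ⟨2,[(13,3),(10,1),(8,0),(21,0),(3,1)]⟩),.k,.k,[⟨0,[(4,0)]⟩,⟨0,[(0,0),(6,0),(50,0),(1,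
  0)]⟩,⟨12,[(4,6),(8,5),(2,1),(7,0),(9,4),(2,5),(5,2)]⟩,⟨0,[(0,0),(4,0)]⟩]⟩)) (.R ⟨2,true,false,
  false,[0,1],[0,0,0,0,1],[0,1,1],(⟨0,[]⟩,⟨0,[]⟩),(⟨0,[(39,0)]⟩,⟨0,[(38,0)]⟩),⟨0,[]⟩,.k,.k,.k,(.r
  (-1) ⟨11,[(8,1),(3,2),(2,0),(15,0),(0,6)]⟩ ⟨2,[(23,1),(30,0),(0,0),(2,0)]⟩),.k,.k,⟨true,0,⟨1,[(43,
  0),(0,0)]⟩,⟨0,[]⟩⟩,⟨false,0,⟨0,[(37,0)]⟩,⟨1,[(3,1),(50,0),(3,0)]⟩⟩,⟨false,0,⟨0,[(57,0)]⟩,⟨3,[(31,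
  1),(26,0),(0,0)]⟩⟩,⟨true,(-1),⟨0,[(0,0)]⟩,⟨3,[(3,0),(13,0),(0,0),(17,2),(22,0)]⟩⟩,⟨true,0,⟨47,
  [(15,4),(7,7),(0,0),(5,9),(20,11),(2,3)]⟩,⟨0,[]⟩⟩,⟨false,0,⟨0,[(37,0)]⟩,⟨1,[(3,1),(50,0),(4,0)]⟩⟩,
  []⟩)) (.Q [0,0,0,-1,0,0,-2,-2,0,1,-2] (.p false [0,0,1] [1,0,-1] (⟨0,[(45,0)]⟩,⟨0,[(44,0)]⟩) .k 2
  (⟨0,[(44,0)]⟩,⟨0,[(45,0)]⟩) .k (.r 0 ⟨0,[(1,0),(30,0)]⟩ ⟨0,[(9,1),(47,0)]⟩)) (.R ⟨1,true,false,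
  false,[1,0,-1],[0,0,1],[1,1,0,0,0,0,0,-1],(⟨0,[(45,0)]⟩,⟨0,[(46,0)]⟩),(⟨0,[(46,0)]⟩,⟨0,[(45,0)]⟩),
  ⟨0,[(34,0)]⟩,.k,.k,.k,.k,(.r (-2) ⟨9,[(0,3),(11,7),(2,5),(7,1),(3,7),(26,2),(3,4)]⟩ ⟨1,[(2,1),(13,
  1),(3,0),(19,0),(14,1),(3,0)]⟩),.k,⟨false,1,⟨5,[(7,3),(2,7),(12,1),(30,0),(3,10)]⟩,⟨1,[(2,1),(13,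
  0),(12,0),(10,1),(18,0)]⟩⟩,⟨true,1,⟨0,[(6,0),(3,0),(47,0)]⟩,⟨0,[(16,0),(23,0)]⟩⟩,⟨false,0,⟨0,[]⟩,
  ⟨19,[(0,1),(11,5),(14,3),(4,5),(21,0),(3,2),(0,3)]⟩⟩,⟨true,0,⟨0,[(2,0)]⟩,⟨51,[(0,38),(14,8),(1,7),
  (3,6),(11,8),(17,13),(1,1)]⟩⟩,⟨true,0,⟨0,[(56,0)]⟩,⟨0,[(57,0)]⟩⟩,⟨false,1,⟨3,[(2,3),(28,1),(26,0),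
  (0,0)]⟩,⟨0,[(0,0)]⟩⟩,[]⟩) (.Q [0,0,0,0,0,1,0,0,0,0,0,-1] (.ed true [1,-1,0,0,1] .k) (.Q [0,0,1,0,
  0,0,0,0,1,-1,0,1] (.p true [0,0,0,0,1] [1] (⟨0,[(40,0)]⟩,⟨0,[(39,0)]⟩) .k 1 (⟨0,[]⟩,⟨0,[]⟩) .k
  .k) (.R ⟨0,false,false,false,[0,0,0,0,1],[1,-1],[1,1,1],(⟨0,[(41,0)]⟩,⟨0,[(40,0)]⟩),(⟨0,[(51,0)]⟩,
  ⟨0,[(52,0)]⟩),⟨0,[(1,0)]⟩,.k,.k,(.r 0 ⟨2,[(25,1),(30,0),(0,0),(2,0)]⟩ ⟨11,[(10,1),(3,2),(2,0),(15,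
  0),(0,6)]⟩),(.r 0 ⟨3,[(17,0),(8,0),(5,1)]⟩ ⟨1,[(59,1),(0,0),(0,0)]⟩),.k,.k,⟨true,(-1),⟨0,[(26,
  0)]⟩,⟨1,[(59,1),(0,0),(0,0)]⟩⟩,⟨false,0,⟨0,[(5,0)]⟩,⟨1,[(39,1),(16,0),(3,0)]⟩⟩,⟨true,0,⟨1,[(45,0),
  (0,0)]⟩,⟨5,[(25,1),(30,0),(0,3),(2,0)]⟩⟩,⟨false,1,⟨0,[(5,0),(53,0),(1,0)]⟩,⟨0,[(0,0),(56,0)]⟩⟩,
  ⟨false,0,⟨0,[]⟩,⟨0,[]⟩⟩,⟨false,0,⟨0,[]⟩,⟨0,[]⟩⟩,[.o ⟨false,0,⟨0,[(59,0)]⟩,⟨39,[(19,1),(0,1),(12,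
  15),(19,5),(2,18),(3,4)]⟩⟩,.e ⟨false,0,⟨0,[]⟩,⟨1,[(38,0),(0,0),(20,0)]⟩⟩ ⟨false,1,⟨1,[(5,1),(53,
  1),(0,0),(0,0)]⟩,⟨0,[(0,0),(56,0)]⟩⟩,.a ⟨true,0,⟨0,[(39,0)]⟩,⟨0,[(5,0)]⟩⟩ ⟨false,0,⟨1,[(45,0),(0,
  0)]⟩,⟨1,[(60,0),(0,0)]⟩⟩ ⟨true,0,⟨0,[(5,0),(53,0)]⟩,⟨0,[(0,0),(56,0)]⟩⟩,.o ⟨false,0,⟨0,[(0,0)]⟩,
  ⟨1,[(5,1),(50,0),(3,0)]⟩⟩]⟩) (.R ⟨0,false,false,false,[0,0,0,0,1],[1,-1,0,0,1],[1,1],(⟨0,[(41,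
  0)]⟩,⟨0,[(40,0)]⟩),(⟨0,[(41,0),(9,0)]⟩,⟨0,[(1,0)]⟩),⟨0,[(1,0)]⟩,.k,(.r 0 ⟨2,[(25,1),(30,0),(0,0),
  (2,0)]⟩ ⟨11,[(10,1),(3,2),(2,0),(15,0),(0,6)]⟩),(.r 0 ⟨2,[(25,1),(30,0),(0,0),(2,0)]⟩ ⟨11,[(10,1),
  (3,2),(2,0),(15,0),(0,6)]⟩),.k,.k,.k,⟨true,0,⟨4,[(16,0),(6,0),(10,0)]⟩,⟨0,[(59,0)]⟩⟩,⟨false,0,
  ⟨177,[(14,5),(2,17),(7,29),(8,41),(14,33),(1,33),(3,56),(4,20)]⟩,⟨1,[(56,0),(3,0)]⟩⟩,⟨true,0,⟨0,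
  []⟩,⟨47,[(17,4),(7,7),(0,0),(5,9),(20,11),(2,3)]⟩⟩,⟨false,0,⟨3,[(25,1),(29,0),(5,2)]⟩,⟨39,[(19,1),
  (0,1),(12,15),(19,5),(2,18),(3,4)]⟩⟩,⟨false,0,⟨0,[]⟩,⟨0,[]⟩⟩,⟨false,0,⟨0,[]⟩,⟨0,[]⟩⟩,[.a ⟨true,
  (-1),⟨0,[(24,0),(14,0)]⟩,⟨6,[(0,5),(9,0),(4,0),(17,1),(4,0),(17,2),(4,1)]⟩⟩ ⟨false,0,⟨5,[(25,1),
  (30,0),(0,3),(2,0)]⟩,⟨17,[(14,7),(14,3),(4,3),(0,1),(20,0),(3,1),(0,2)]⟩⟩ ⟨true,(-1),⟨0,[(24,0)]⟩,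
  ⟨12,[(8,0),(1,0),(7,1),(14,5),(22,5),(4,2)]⟩⟩,.o ⟨false,0,⟨0,[(39,0),(19,0)]⟩,⟨51,[(0,39),(14,8),
  (0,8),(2,1),(0,1),(12,3),(4,11),(17,44)]⟩⟩,.a ⟨true,0,⟨0,[(39,0)]⟩,⟨0,[(5,0)]⟩⟩ ⟨false,0,⟨0,[]⟩,
  ⟨17,[(14,7),(14,3),(4,3),(0,1),(20,0),(3,1),(0,2)]⟩⟩ ⟨true,(-1),⟨0,[(24,0)]⟩,⟨39,[(19,1),(0,1),
  (12,15),(19,5),(2,18),(3,4)]⟩⟩,.a ⟨true,0,⟨1,[(39,1),(5,0),(0,0)]⟩,⟨0,[(0,0)]⟩⟩ ⟨true,0,⟨5,[(25,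
  1),(30,0),(0,3),(2,0)]⟩,⟨1,[(45,0),(0,0)]⟩⟩ ⟨false,0,⟨3,[(25,1),(29,0),(4,1),(0,0)]⟩,⟨12,[(8,0),
  (1,0),(7,1),(14,5),(22,5),(4,2)]⟩⟩]⟩)) (.Q [0,0,0,0,0,0,1,1,1,-1,1,1] (.p true [0,0,1] [1,0,0,0,
  -1] (⟨0,[(47,0)]⟩,⟨0,[(46,0)]⟩) .k 2 (⟨0,[(39,0)]⟩,⟨0,[(40,0)]⟩) .k (.r 0 ⟨2,[(5,0),(25,0),(2,0),
  (17,0)]⟩ ⟨0,[(13,0)]⟩)) (.S ⟨1,0,[0,0,1],[1,1,0,0,-1],[0,-1,1],(⟨225,[(14,1),(2,5),(7,9),(8,13),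
  (5,225),(11,81),(1,47),(0,18),(4,6)]⟩,⟨0,[(1,0)]⟩),⟨0,[(40,0)]⟩,(.r (-1) ⟨11,[(10,1),(3,2),(2,0),
  (15,0),(0,6)]⟩ ⟨2,[(25,1),(30,0),(0,0),(2,0)]⟩),.k,⟨true,0,⟨0,[(59,0)]⟩,⟨0,[(58,0)]⟩⟩,⟨false,0,⟨0,
  [(59,0)]⟩,⟨3,[(33,1),(26,0),(0,0)]⟩⟩,⟨false,1,⟨17,[(14,7),(14,3),(4,3),(0,1),(20,0),(3,1),(0,2)]⟩,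
  ⟨0,[]⟩⟩,⟨true,0,⟨47,[(17,4),(7,7),(0,0),(5,9),(20,11),(2,3)]⟩,⟨0,[]⟩⟩,[.a ⟨true,0,⟨0,[(5,0)]⟩,⟨0,
  [(39,0)]⟩⟩ ⟨false,1,⟨17,[(14,7),(14,3),(4,3),(0,1),(20,0),(3,1),(0,2)]⟩,⟨5,[(25,1),(30,0),(0,3),
  (2,0)]⟩⟩ ⟨true,0,⟨1,[(45,0),(0,0)]⟩,⟨0,[]⟩⟩,.o ⟨false,1,⟨1,[(5,1),(50,0),(4,0)]⟩,⟨0,[(0,0),(43,
  0)]⟩⟩,.o ⟨false,1,⟨1,[(5,1),(50,0),(3,0)]⟩,⟨2,[(0,0),(11,0),(5,0),(20,1),(16,0)]⟩⟩,.e ⟨false,1,⟨0,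
  [(61,0)]⟩,⟨47,[(17,4),(7,7),(0,0),(5,9),(20,11),(2,3)]⟩⟩ ⟨false,1,⟨17,[(14,7),(14,3),(4,3),(0,1),
  (20,0),(3,1),(0,2)]⟩,⟨0,[]⟩⟩]⟩) (.Q [0,2,0,1,-1,0,0,0,1,0,0,1] (.p true [0,0,0,0,1] [] (⟨0,[(41,
  0)]⟩,⟨0,[(40,0)]⟩) .k 0 (⟨0,[]⟩,⟨0,[]⟩) .k .k) (.K ⟨0,[0,1,0,0,1],0,(-1),(⟨225,[(15,1),(2,5),(7,
  9),(8,13),(6,225),(10,81),(1,47),(0,18),(4,6)]⟩,⟨0,[(4,0)]⟩),(.r 0 ⟨3,[(18,0),(8,0),(5,1)]⟩ ⟨1,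
  [(60,1),(0,0),(0,0)]⟩),.k,(.r 1 ⟨0,[(3,0),(4,1),(10,1),(5,8),(31,3),(0,5),(3,7)]⟩ ⟨5,[(15,3),(14,
  3),(5,1),(20,0),(2,7),(0,5),(0,0)]⟩),(.r 0 ⟨1,[(18,0),(8,0)]⟩ ⟨1,[(7,0),(28,0),(23,0),(0,0),(0,
  0)]⟩),.k,[⟨0,[(1,0),(7,0)]⟩,⟨0,[(40,0)]⟩,⟨0,[(39,0),(20,0)]⟩,⟨0,[(0,0)]⟩]⟩) (.R ⟨0,false,false,
  true,[0,-1,1],[1,0,0,0,-1],[0,1],(⟨0,[(38,0)]⟩,⟨225,[(15,1),(2,5),(7,9),(8,13),(12,225),(4,81),(1,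
  47),(0,18),(4,6)]⟩),(⟨0,[(41,0)]⟩,⟨0,[(42,0)]⟩),⟨2,[(14,0),(22,1),(12,0),(4,2)]⟩,.k,.k,(.r (-1)
  ⟨1,[(7,0),(28,0),(23,2),(0,1)]⟩ ⟨0,[(3,0),(4,2),(10,1),(5,12),(31,5),(0,7),(3,11)]⟩),(.r 0 ⟨7,[(7,
  3),(18,1),(5,4),(3,0),(6,0),(10,2),(6,1)]⟩ ⟨5,[(11,1),(3,2),(2,0),(15,0),(0,0)]⟩),.k,.k,⟨false,0,
  ⟨5,[(26,1),(30,0),(0,3),(2,0)]⟩,⟨17,[(15,7),(14,3),(4,3),(0,1),(20,0),(3,1),(0,2)]⟩⟩,⟨true,0,⟨1,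
  [(0,1),(18,0),(5,0),(17,0),(14,2)]⟩,⟨6,[(9,4),(3,4),(5,0),(20,6),(6,1),(9,0)]⟩⟩,⟨false,0,⟨0,[(12,
  0)]⟩,⟨1,[(7,0),(28,0),(23,0),(0,0),(0,0)]⟩⟩,⟨true,0,⟨5,[(0,2),(0,2),(6,0),(11,1),(2,0),(32,0),(1,
  2)]⟩,⟨4,[(7,0),(18,1),(1,1),(11,4),(3,0),(12,1)]⟩⟩,⟨false,0,⟨0,[]⟩,⟨0,[]⟩⟩,⟨false,0,⟨0,[]⟩,⟨0,
  []⟩⟩,[.a ⟨true,0,⟨0,[(6,0)]⟩,⟨0,[(40,0)]⟩⟩ ⟨false,0,⟨5,[(26,1),(30,0),(0,3),(2,0)]⟩,⟨17,[(15,7),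
  (14,3),(4,3),(0,1),(20,0),(3,1),(0,2)]⟩⟩ ⟨true,0,⟨1,[(0,1),(18,0),(5,0),(17,0),(14,2)]⟩,⟨6,[(9,4),
  (3,4),(5,0),(20,6),(6,1),(9,0)]⟩⟩,.e ⟨false,1,⟨1,[(39,0),(0,0),(20,0)]⟩,⟨0,[]⟩⟩ ⟨false,1,⟨0,[(0,
  0),(42,0),(14,0)]⟩,⟨15,[(9,7),(0,1),(7,2),(7,3),(0,2),(12,15),(13,1),(2,5)]⟩⟩,.e ⟨true,0,⟨47,[(18,
  4),(7,7),(0,0),(5,9),(20,11),(2,3)]⟩,⟨0,[]⟩⟩ ⟨true,0,⟨1,[(0,1),(18,0),(5,0),(17,0),(14,2)]⟩,⟨15,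
  [(9,7),(0,1),(7,2),(7,3),(0,2),(12,15),(13,1),(2,5)]⟩⟩,.o ⟨false,0,⟨6,[(9,4),(3,4),(5,0),(27,1),
  (9,0)]⟩,⟨0,[(32,0),(28,0)]⟩⟩]⟩))))))) (.Q [0,0,0,0,0,0,-2,-2,0,1,-2] (.p false [0,0,1] [1,0,-1]
  (⟨0,[(43,0)]⟩,⟨0,[(42,0)]⟩) .k 2 (⟨0,[(42,0)]⟩,⟨0,[(43,0)]⟩) .k (.r 0 ⟨14,[(1,11),(8,1),(4,3),(14,
  11),(6,3),(18,1)]⟩ ⟨0,[(7,1),(47,0)]⟩)) (.R ⟨1,true,false,false,[0,0,1],[1,0,-1],[1,1,0,0,0,0,0,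
  1],(⟨0,[(44,0)]⟩,⟨0,[(43,0)]⟩),(⟨0,[(43,0)]⟩,⟨0,[(44,0)]⟩),⟨0,[(33,0)]⟩,.k,.k,.k,.k,(.r 0 ⟨0,[(2,
  0),(24,0),(10,0)]⟩ ⟨7,[(6,1),(1,2),(1,1),(2,4),(16,0)]⟩),.k,⟨true,(-1),⟨0,[(2,0),(11,0),(23,0),
  (14,0)]⟩,⟨0,[(8,0),(1,0)]⟩⟩,⟨false,0,⟨0,[(27,0),(10,0)]⟩,⟨0,[(4,0),(3,0),(47,0)]⟩⟩,⟨false,0,⟨0,
  []⟩,⟨17,[(10,7),(14,3),(4,3),(0,1),(20,0),(3,1),(0,2)]⟩⟩,⟨true,0,⟨0,[(0,0)]⟩,⟨1,[(2,0),(14,0),(21,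
  0)]⟩⟩,⟨true,0,⟨0,[(54,0)]⟩,⟨0,[(55,0)]⟩⟩,⟨false,1,⟨3,[(0,3),(28,1),(26,0),(0,0)]⟩,⟨0,[(2,0)]⟩⟩,
  []⟩) (.Q [0,0,0,-1,0,0,-2,-2,0,1,-2] (.p false [0,0,1] [1,0,-1] (⟨0,[(44,0)]⟩,⟨0,[(43,0)]⟩) .k 2
  (⟨0,[(43,0)]⟩,⟨0,[(44,0)]⟩) .k (.r 0 ⟨0,[(0,0),(30,0)]⟩ ⟨0,[(8,1),(47,0)]⟩)) (.R ⟨1,true,false,
  false,[1,0,-1],[0,0,1],[1,1,0,0,0,0,0,-1],(⟨0,[(44,0)]⟩,⟨0,[(45,0)]⟩),(⟨0,[(45,0)]⟩,⟨0,[(44,0)]⟩),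
  ⟨0,[(33,0)]⟩,.k,.k,.k,.k,(.r (-2) ⟨9,[(0,3),(10,7),(2,5),(7,1),(3,7),(26,2),(3,4)]⟩ ⟨1,[(1,1),(13,
  1),(3,0),(19,0),(14,1),(3,0)]⟩),.k,⟨false,1,⟨5,[(6,3),(2,7),(12,1),(30,0),(3,10)]⟩,⟨1,[(1,1),(13,
  0),(12,0),(10,1),(18,0)]⟩⟩,⟨true,1,⟨0,[(5,0),(3,0),(47,0)]⟩,⟨0,[(15,0),(23,0)]⟩⟩,⟨false,0,⟨0,[]⟩,
  ⟨19,[(0,1),(10,5),(14,3),(4,5),(21,0),(3,2),(0,3)]⟩⟩,⟨true,0,⟨0,[(1,0)]⟩,⟨51,[(0,38),(13,8),(1,7),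
  (3,6),(11,8),(17,13),(1,1)]⟩⟩,⟨true,0,⟨0,[(55,0)]⟩,⟨0,[(56,0)]⟩⟩,⟨false,1,⟨3,[(1,3),(28,1),(26,0),
  (0,0)]⟩,⟨0,[(0,0)]⟩⟩,[]⟩) (.Q [0,0,0,0,1,0,2,0,-1,0,2,-1] (.p false [0,0,0,0,1] [0,0,2] (⟨0,[(38,
  0)]⟩,⟨0,[(37,0)]⟩) .k 2 (⟨0,[(45,1)]⟩,⟨2,[(10,3),(22,1),(12,0),(4,2)]⟩) .k (.r (-1) ⟨13,[(11,3),
  (2,11),(7,5),(12,0),(0,0),(16,2)]⟩ ⟨1,[(0,0),(2,0),(11,0),(12,0),(10,1),(18,0)]⟩)) (.Q [0,0,0,0,0,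
  0,0,0,0,0,-1,1] (.ed false [1,0,-1,0,1] (.r 0 ⟨5,[(7,3),(2,1),(12,1),(30,0),(3,4)]⟩ ⟨13,[(4,1),
  (22,3),(4,5),(0,3),(20,0),(3,2),(0,3)]⟩)) (.K ⟨0,[0,0,-1,0,1],(-1),(-1),(⟨0,[(0,0)]⟩,⟨0,[(39,0),
  (7,0)]⟩),.k,(.r (-1) ⟨13,[(13,1),(2,5),(7,9),(12,3),(0,3),(16,4),(3,6)]⟩ ⟨7,[(2,0),(2,0),(8,3),
  (19,1),(25,3)]⟩),(.r 0 ⟨1,[(16,0),(8,0)]⟩ ⟨1,[(5,0),(28,0),(23,0),(0,0),(0,0)]⟩),.k,.k,[⟨0,[(1,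
  0)]⟩,⟨0,[(4,0),(16,0)]⟩,⟨0,[(27,0),(9,0)]⟩,⟨1,[(4,1),(13,0),(4,1),(19,0)]⟩]⟩) (.Q [0,-1,0,0,1,0,0,
  0,-1,0,0,-1] (.p false [0,0,0,0,1] [] (⟨0,[(40,0)]⟩,⟨0,[(39,0)]⟩) .k 0 (⟨0,[]⟩,⟨0,[]⟩) .k .k) (.R
  ⟨2,true,false,false,[0,1],[0,0,0,0,1],[1,1,1,1],(⟨0,[]⟩,⟨0,[]⟩),(⟨0,[(41,0)]⟩,⟨0,[(40,0)]⟩),⟨0,
  []⟩,.k,.k,.k,(.r (-1) ⟨11,[(10,1),(3,2),(2,0),(15,0),(0,6)]⟩ ⟨2,[(25,1),(30,0),(0,0),(2,0)]⟩),.k,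
  .k,⟨true,0,⟨4,[(16,0),(6,0),(10,0)]⟩,⟨0,[(59,0)]⟩⟩,⟨false,0,⟨0,[(39,0)]⟩,⟨5,[(0,5),(24,1),(30,0),
  (0,3),(2,0)]⟩⟩,⟨false,0,⟨0,[]⟩,⟨17,[(14,7),(14,3),(4,3),(0,1),(20,0),(3,1),(0,2)]⟩⟩,⟨true,(-1),⟨0,
  [(5,0),(18,0)]⟩,⟨61,[(0,21),(1,0),(12,1),(3,9),(0,7),(12,5),(4,38),(16,3),(1,9)]⟩⟩,⟨true,0,⟨0,
  [(58,0)]⟩,⟨0,[(59,0)]⟩⟩,⟨false,0,⟨0,[(39,0)]⟩,⟨0,[(0,0)]⟩⟩,[]⟩) (.Q [0,0,1,0,-1,0,0,0,1,0,0,1]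
  (.p true [0,0,0,0,1] [] (⟨0,[(41,0)]⟩,⟨0,[(40,0)]⟩) .k 0 (⟨0,[]⟩,⟨0,[]⟩) .k .k) (.K ⟨0,[0,0,0,0,
  1],(-1),(-1),(⟨0,[(42,0)]⟩,⟨0,[(41,0)]⟩),.k,(.r 0 ⟨2,[(26,1),(30,0),(0,0),(2,0)]⟩ ⟨11,[(11,1),(3,
  2),(2,0),(15,0),(0,6)]⟩),(.r 0 ⟨3,[(18,0),(8,0),(5,1)]⟩ ⟨1,[(60,1),(0,0),(0,0)]⟩),.k,.k,[⟨1,[(3,
  0),(35,0)]⟩,⟨0,[(0,0)]⟩,⟨0,[(39,0)]⟩,⟨0,[(0,0),(53,0)]⟩]⟩) (.Q [0,0,0,0,0,1,0,0,0,0,-1,1] (.p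
  true [1,0,-1,0,1] [1] (⟨0,[(42,0),(5,0)]⟩,⟨0,[(2,0)]⟩) .k 1 (⟨0,[]⟩,⟨0,[]⟩) .k (.r 0 ⟨5,[(10,3),
  (2,1),(12,1),(30,0),(3,4)]⟩ ⟨13,[(7,1),(22,3),(4,5),(0,3),(20,0),(3,2),(0,3)]⟩)) (.R ⟨0,false,
  false,false,[0,0,1,0,-1],[0,0,1],[0,1],(⟨0,[(3,0)]⟩,⟨0,[(0,0),(52,0)]⟩),(⟨0,[(50,0)]⟩,⟨0,[(49,
  0)]⟩),⟨0,[(0,0)]⟩,.k,.k,(.r (-1) ⟨1,[(8,0),(28,0),(23,0),(0,0),(0,0)]⟩ ⟨1,[(19,0),(8,0)]⟩),.k,.k,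
  .k,⟨true,0,⟨5,[(11,3),(2,1),(12,1),(30,0),(3,4)]⟩,⟨28,[(8,10),(8,3),(2,5),(3,5),(11,2),(0,4),(25,
  12)]⟩⟩,⟨false,0,⟨1,[(2,1),(59,0),(0,0)]⟩,⟨0,[(40,0)]⟩⟩,⟨false,0,⟨5,[(11,3),(2,1),(12,1),(30,0),(3,
  4)]⟩,⟨3,[(5,0),(2,0),(28,1),(25,3)]⟩⟩,⟨true,(-1),⟨0,[(2,0)]⟩,⟨0,[(40,0)]⟩⟩,⟨false,0,⟨0,[]⟩,⟨0,
  []⟩⟩,⟨false,0,⟨0,[]⟩,⟨0,[]⟩⟩,[.e ⟨false,0,⟨5,[(27,1),(30,0),(0,3),(2,0)]⟩,⟨17,[(16,7),(14,3),(4,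
  3),(0,1),(20,0),(3,1),(0,2)]⟩⟩ ⟨false,0,⟨3,[(5,0),(1,1),(0,0),(32,1),(2,3)]⟩,⟨0,[(1,0),(12,0)]⟩⟩,
  .o ⟨false,1,⟨7,[(8,3),(26,1),(22,1),(3,0),(0,2)]⟩,⟨0,[(46,0)]⟩⟩,.a ⟨true,1,⟨1,[(4,0),(35,0)]⟩,⟨1,
  [(2,1),(21,0),(19,0),(18,0)]⟩⟩ ⟨true,0,⟨47,[(19,4),(7,7),(0,0),(5,9),(20,11),(2,3)]⟩,⟨0,[]⟩⟩
  ⟨false,0,⟨3,[(5,0),(1,1),(0,0),(15,1),(16,1),(2,1),(18,1)]⟩,⟨0,[(1,0),(12,0)]⟩⟩,.o ⟨false,1,⟨3,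
  [(4,2),(15,1),(19,0),(17,1)]⟩,⟨0,[(7,0),(36,0)]⟩⟩]⟩) (.R ⟨0,false,false,true,[0,0,0,0,1],[0,0,1],
  [1,1],(⟨0,[(43,0)]⟩,⟨0,[(42,0)]⟩),(⟨0,[(50,0)]⟩,⟨0,[(49,0)]⟩),⟨8,[(0,6),(14,6),(26,1),(8,2),(4,
  8)]⟩,.k,.k,(.r 0 ⟨2,[(27,1),(30,0),(0,0),(2,0)]⟩ ⟨11,[(12,1),(3,2),(2,0),(15,0),(0,6)]⟩),.k,.k,.k,
  ⟨false,1,⟨0,[(14,0),(47,0)]⟩,⟨3,[(5,0),(2,0),(28,1)]⟩⟩,⟨true,1,⟨1,[(4,0),(35,0)]⟩,⟨0,[(7,0),(16,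
  0)]⟩⟩,⟨true,0,⟨0,[]⟩,⟨47,[(19,4),(7,7),(0,0),(5,9),(20,11),(2,3)]⟩⟩,⟨false,1,⟨19,[(1,11),(2,2),(3,
  7),(8,3),(2,1),(19,4),(16,3),(5,9)]⟩,⟨2,[(2,0),(4,1),(8,1),(7,0),(19,0),(1,0)]⟩⟩,⟨false,0,⟨0,[]⟩,
  ⟨0,[]⟩⟩,⟨false,0,⟨0,[]⟩,⟨0,[]⟩⟩,[.o ⟨false,0,⟨0,[(29,0)]⟩,⟨0,[(46,0),(16,0)]⟩⟩,.a ⟨true,0,⟨0,[(30,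
  0)]⟩,⟨15,[(13,0),(2,7),(7,3),(1,0),(17,4),(1,6),(10,2)]⟩⟩ ⟨true,0,⟨0,[]⟩,⟨1,[(47,0),(0,0)]⟩⟩
  ⟨false,1,⟨0,[(1,0),(28,0)]⟩,⟨2,[(2,0),(4,1),(8,1),(7,0),(19,0),(1,0)]⟩⟩,.o ⟨false,0,⟨0,[(7,0)]⟩,
  ⟨0,[(40,0)]⟩⟩,.o ⟨false,0,⟨5,[(7,0),(2,0),(3,0),(5,1),(20,4),(16,1)]⟩,⟨0,[(1,0)]⟩⟩]⟩))))) (.Q [0,
  0,0,0,1,0,1,0,-1,0,1,-1] (.p true [0,0,1] [0,0,0,0,1] (⟨0,[(46,0)]⟩,⟨0,[(45,0)]⟩) .k 2 (⟨0,[(39,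
  0)]⟩,⟨0,[(38,0)]⟩) .k (.r (-1) ⟨13,[(4,1),(22,3),(4,5),(0,3),(20,0),(3,2),(0,3)]⟩ ⟨5,[(7,3),(2,1),
  (12,1),(30,0),(3,4)]⟩)) (.K ⟨0,[0,0,0,0,1],(-1),(-1),(⟨0,[(40,0)]⟩,⟨0,[(39,0)]⟩),.k,(.r 0 ⟨2,[(24,
  1),(30,0),(0,0),(2,0)]⟩ ⟨11,[(9,1),(3,2),(2,0),(15,0),(0,6)]⟩),(.r 0 ⟨3,[(16,0),(8,0),(5,1)]⟩ ⟨1,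
  [(58,1),(0,0),(0,0)]⟩),.k,.k,[⟨0,[(0,0)]⟩,⟨23,[(1,7),(2,15),(1,5),(0,7),(1,1),(13,13),(30,4),(5,
  8)]⟩,⟨0,[(37,0)]⟩,⟨10,[(1,0),(0,0),(1,5),(1,1),(15,0),(0,6),(14,3),(13,5)]⟩]⟩) (.Q [0,-1,0,0,1,0,
  0,0,-1,1,0,-1] (.p false [0,0,0,0,1] [1] (⟨0,[(40,0)]⟩,⟨0,[(39,0)]⟩) .k 1 (⟨0,[]⟩,⟨0,[]⟩) .k .k)
  (.R ⟨0,false,false,true,[0,-1,1],[0,0,0,0,1],[],(⟨0,[(37,0)]⟩,⟨75,[(0,0),(16,1),(7,2),(8,3),(4,0),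
  (7,75),(4,27),(1,15),(0,5),(4,1)]⟩),(⟨0,[(41,0)]⟩,⟨0,[(40,0)]⟩),⟨2,[(13,0),(22,1),(12,0),(4,2)]⟩,
  .k,.k,(.r (-1) ⟨1,[(6,0),(28,0),(23,2),(0,1)]⟩ ⟨0,[(3,0),(3,2),(10,1),(5,12),(31,5),(0,7),(3,
  11)]⟩),(.r (-1) ⟨1,[(6,0),(28,0),(23,0),(0,0),(0,0)]⟩ ⟨1,[(17,0),(8,0)]⟩),.k,.k,⟨true,1,⟨0,[(61,
  0)]⟩,⟨3,[(9,0),(8,0),(6,0),(0,0),(0,0),(25,1)]⟩⟩,⟨false,0,⟨0,[(1,0),(58,0)]⟩,⟨0,[(38,0),(6,0)]⟩⟩,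
  ⟨true,0,⟨0,[(11,0)]⟩,⟨7,[(6,3),(18,1),(5,4),(3,0),(6,0),(10,2),(6,1)]⟩⟩,⟨false,(-1),⟨0,[(1,0),(7,
  0),(50,0)]⟩,⟨0,[(29,0),(8,0),(22,0)]⟩⟩,⟨false,0,⟨0,[]⟩,⟨0,[]⟩⟩,⟨false,0,⟨0,[]⟩,⟨0,[]⟩⟩,[.o ⟨false,
  (-1),⟨12,[(1,7),(3,4),(2,3),(0,3),(15,5),(27,3),(2,4),(0,7)]⟩,⟨0,[(38,0),(22,0)]⟩⟩,.a ⟨true,(-1),
  ⟨8,[(1,1),(3,5),(1,0),(0,0),(15,4),(14,0),(15,0),(1,2)]⟩,⟨0,[(0,0)]⟩⟩ ⟨false,1,⟨1,[(60,0),(0,0)]⟩,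
  ⟨47,[(17,4),(7,7),(0,0),(5,9),(20,11),(2,3)]⟩⟩ ⟨true,(-1),⟨5,[(1,5),(23,1),(30,0),(0,3),(2,0)]⟩,
  ⟨1,[(0,0),(7,0),(5,0),(3,0),(19,0),(6,0)]⟩⟩,.e ⟨false,1,⟨17,[(14,7),(14,3),(4,3),(0,1),(20,0),(3,
  1),(0,2)]⟩,⟨0,[]⟩⟩ ⟨false,(-1),⟨5,[(1,5),(23,1),(30,0),(0,3),(2,0)]⟩,⟨13,[(0,6),(7,7),(5,9),(3,1),
  (6,0),(8,1),(3,6),(22,4)]⟩⟩,.o ⟨false,0,⟨6,[(8,4),(3,4),(5,0),(27,1),(9,0)]⟩,⟨0,[(31,0),(28,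
  0)]⟩⟩]⟩) (.R ⟨0,false,false,false,[0,-1,1],[0,0,0,0,1],[0,0,-1,-1,0,0,0,1],(⟨0,[(37,0)]⟩,⟨225,
  [(14,1),(2,5),(7,9),(8,13),(12,225),(4,81),(1,47),(0,18),(4,6)]⟩),(⟨0,[(41,0)]⟩,⟨0,[(40,0)]⟩),⟨2,
  [(13,0),(22,1),(12,0),(4,2)]⟩,.k,.k,(.r (-1) ⟨1,[(6,0),(28,0),(23,2),(0,1)]⟩ ⟨0,[(0,11),(2,0),(3,
  2),(10,1),(5,12),(13,11),(18,7),(3,17)]⟩),(.r (-1) ⟨1,[(6,0),(28,0),(23,0),(0,0),(0,0)]⟩ ⟨1,[(17,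
  0),(8,0)]⟩),.k,.k,⟨true,1,⟨1,[(6,0),(28,0),(23,0),(0,0),(0,0)]⟩,⟨0,[(9,0)]⟩⟩,⟨false,0,⟨0,[(1,0),
  (58,0)]⟩,⟨0,[(38,0),(6,0)]⟩⟩,⟨false,1,⟨17,[(14,7),(14,3),(4,3),(0,1),(20,0),(3,1),(0,2)]⟩,⟨0,[]⟩⟩,
  ⟨true,(-1),⟨17,[(0,9),(0,7),(9,0),(2,6),(4,9),(4,3),(30,2),(1,0)]⟩,⟨0,[(29,0),(8,0)]⟩⟩,⟨false,0,
  ⟨0,[]⟩,⟨0,[]⟩⟩,⟨false,0,⟨0,[]⟩,⟨0,[]⟩⟩,[.o ⟨false,(-1),⟨0,[(0,0)]⟩,⟨17,[(14,7),(14,3),(4,3),(0,1),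
  (2,17),(17,0),(3,1),(0,2)]⟩⟩,.o ⟨false,0,⟨0,[(5,0)]⟩,⟨0,[(38,0)]⟩⟩,.a ⟨true,0,⟨0,[(45,0)]⟩,⟨0,
  [(42,0)]⟩⟩ ⟨false,1,⟨1,[(6,0),(28,0),(23,0),(0,0),(0,0)]⟩,⟨0,[(11,0)]⟩⟩ ⟨true,(-1),⟨2,[(0,0),(0,
  0),(0,0),(21,0),(32,0),(2,0)]⟩,⟨0,[(38,0),(6,0)]⟩⟩,.o ⟨false,0,⟨6,[(8,4),(3,4),(5,0),(27,1),(9,
  0)]⟩,⟨0,[(31,0),(28,0)]⟩⟩]⟩))))))) (.I [0,0,-1,-1,0,0,0,2] (.R ⟨0,false,false,false,[0,-1,1],[1,0,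
  -1],[0,1],(⟨0,[(32,0)]⟩,⟨225,[(9,1),(2,5),(7,9),(8,13),(12,225),(4,81),(1,47),(0,18),(4,6)]⟩),(⟨0,
  [(42,0)]⟩,⟨0,[(43,0)]⟩),⟨2,[(8,0),(22,1),(12,0),(4,2)]⟩,.k,.k,(.r (-1) ⟨9,[(0,7),(8,5),(10,5),(12,
  0),(0,0),(16,2),(3,5)]⟩ ⟨0,[(2,1),(0,0),(9,1),(5,8),(31,3),(0,6),(3,8)]⟩),(.r 0 ⟨0,[(0,0)]⟩ ⟨7,
  [(5,1),(1,2),(1,1),(2,4),(16,0)]⟩),.k,.k,⟨false,0,⟨4,[(0,1),(14,0),(21,0),(10,1)]⟩,⟨0,[(9,0)]⟩⟩,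
  ⟨true,0,⟨0,[(26,0),(10,0)]⟩,⟨0,[(3,0),(3,0)]⟩⟩,⟨false,0,⟨0,[(6,0)]⟩,⟨0,[(0,0),(8,0)]⟩⟩,⟨true,0,⟨0,
  [(1,0)]⟩,⟨0,[(22,0),(1,0)]⟩⟩,⟨false,0,⟨0,[]⟩,⟨0,[]⟩⟩,⟨false,0,⟨0,[]⟩,⟨0,[]⟩⟩,[.e ⟨false,0,⟨5,[(20,
  1),(30,0),(0,3),(2,0)]⟩,⟨3,[(0,0),(8,2),(19,0)]⟩⟩ ⟨false,1,⟨1,[(1,0),(28,0),(23,0),(0,1)]⟩,⟨0,[(3,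
  0)]⟩⟩,.o ⟨false,1,⟨3,[(1,0),(7,1),(20,0),(20,0),(2,0),(1,0)]⟩,⟨0,[(22,0)]⟩⟩,.a ⟨true,0,⟨0,[(40,
  0)]⟩,⟨0,[(37,0)]⟩⟩ ⟨true,0,⟨47,[(12,4),(7,7),(0,0),(5,9),(20,11),(2,3)]⟩,⟨0,[]⟩⟩ ⟨false,1,⟨1,[(1,
  0),(28,0),(23,0),(0,0),(0,0)]⟩,⟨0,[(3,0)]⟩⟩,.o ⟨false,0,⟨6,[(3,4),(3,4),(5,0),(27,1),(9,0)]⟩,⟨0,
  [(26,0),(28,0)]⟩⟩]⟩) (.R ⟨0,false,false,false,[0,-1,1],[1,0,-1],[0,1],(⟨0,[(32,0)]⟩,⟨225,[(9,1),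
  (2,5),(7,9),(8,13),(12,225),(4,81),(1,47),(0,18),(4,6)]⟩),(⟨0,[(42,0)]⟩,⟨0,[(43,0)]⟩),⟨2,[(8,0),
  (22,1),(12,0),(4,2)]⟩,.k,.k,(.r (-1) ⟨0,[(24,0),(1,0),(27,0),(0,0)]⟩ ⟨0,[(0,1),(2,2),(9,5),(5,14),
  (31,5),(0,14),(3,14)]⟩),(.x 0 ⟨7,[(0,3),(2,7),(4,15),(11,1),(23,3),(4,11),(0,0),(4,1),(0,0)]⟩ ⟨1,
  [(30,1),(1,1),(10,1),(7,0),(3,0)]⟩),.k,.k,⟨false,0,⟨0,[(22,0),(14,0)]⟩,⟨0,[(9,0)]⟩⟩,⟨true,0,⟨0,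
  [(26,0),(10,0)]⟩,⟨0,[(3,0),(3,0)]⟩⟩,⟨false,0,⟨0,[(6,0)]⟩,⟨1,[(24,1),(1,1),(28,0),(0,0)]⟩⟩,⟨true,0,
  ⟨0,[(1,0)]⟩,⟨0,[(22,0),(1,0)]⟩⟩,⟨false,0,⟨0,[]⟩,⟨0,[]⟩⟩,⟨false,0,⟨0,[]⟩,⟨0,[]⟩⟩,[.e ⟨false,0,⟨5,
  [(20,1),(30,0),(0,3),(2,0)]⟩,⟨17,[(9,7),(14,3),(4,3),(0,1),(20,0),(3,1),(0,2)]⟩⟩ ⟨false,1,⟨1,[(1,
  0),(28,0),(23,0),(0,1)]⟩,⟨0,[(3,0)]⟩⟩,.o ⟨false,1,⟨3,[(1,0),(7,1),(20,0),(20,0),(2,0),(1,0)]⟩,⟨0,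
  [(22,0)]⟩⟩,.a ⟨true,0,⟨0,[(40,0)]⟩,⟨0,[(37,0)]⟩⟩ ⟨true,0,⟨47,[(12,4),(7,7),(0,0),(5,9),(20,11),(2,
  3)]⟩,⟨0,[]⟩⟩ ⟨false,1,⟨1,[(1,0),(28,0),(23,0),(0,0),(0,0)]⟩,⟨0,[(3,0)]⟩⟩,.o ⟨false,0,⟨6,[(3,4),(3,
  4),(5,0),(27,1),(9,0)]⟩,⟨0,[(26,0),(28,0)]⟩⟩]⟩))))

theorem ok106 : chk K t106 r72 = true := by decide +kernel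

noncomputable def t108 : Tre :=
  (.R ⟨0,false,false,false,[0,-1,1],[1,-1],[1,1,1],(⟨0,[(28,0)]⟩,⟨105,[(0,1),(7,3),(7,3),(8,5),(12,
  105),(4,39),(1,21),(0,8),(4,0)]⟩),(⟨0,[(42,0)]⟩,⟨0,[(43,0)]⟩),⟨2,[(4,0),(22,1),(12,0),(4,2)]⟩,.k,
  .k,(.r (-1) ⟨8,[(0,8),(7,0),(7,5),(8,1),(18,1),(2,2)]⟩ ⟨0,[(1,1),(4,0),(8,5),(31,2),(0,3),(3,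
  3)]⟩),.k,.k,.k,⟨true,(-1),⟨0,[(17,0)]⟩,⟨1,[(0,0),(4,0),(44,0)]⟩⟩,⟨false,0,⟨0,[(33,0)]⟩,⟨0,[(5,0),
  (12,0)]⟩⟩,⟨false,0,⟨9,[(3,4),(3,3),(0,0),(0,1),(15,0),(10,1)]⟩,⟨0,[(0,0)]⟩⟩,⟨true,0,⟨15,[(2,0),(2,
  7),(7,3),(1,0),(17,4),(1,6),(10,2)]⟩,⟨0,[(18,0)]⟩⟩,⟨false,0,⟨0,[]⟩,⟨0,[]⟩⟩,⟨false,0,⟨0,[]⟩,⟨0,
  []⟩⟩,[.o ⟨false,0,⟨0,[(50,0)]⟩,⟨39,[(10,1),(0,1),(12,15),(19,5),(2,18),(3,4)]⟩⟩,.e ⟨false,0,⟨0,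
  []⟩,⟨5,[(0,2),(7,1),(16,0),(18,0)]⟩⟩ ⟨false,1,⟨4,[(0,2),(4,1),(10,0),(16,3),(1,0),(16,0)]⟩,⟨0,[(2,
  0),(15,0)]⟩⟩,.a ⟨true,0,⟨0,[(36,0)]⟩,⟨0,[(33,0)]⟩⟩ ⟨false,0,⟨1,[(36,0),(0,0)]⟩,⟨1,[(51,0),(0,
  0)]⟩⟩ ⟨true,0,⟨4,[(0,0),(15,1),(5,0),(10,2),(1,0),(16,0)]⟩,⟨0,[(2,0),(15,0)]⟩⟩,.o ⟨false,0,⟨2,[(1,
  2),(14,0),(1,1),(1,0),(26,0)]⟩,⟨1,[(0,1),(9,0),(24,0)]⟩⟩]⟩)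

theorem ok108 : chk K t108 r71 = true := by decide +kernel

noncomputable def t110 : Tre :=
  (.Q [0,0,2,0,0,0,1,0,0,-1,1] (.p true [0,0,1] [1] (⟨0,[(38,0)]⟩,⟨0,[(37,0)]⟩) .k 1 (⟨0,[]⟩,⟨0,
  []⟩) .k .k) (.R ⟨0,false,false,false,[0,-1,1],[1,-1],[1,1,1],(⟨0,[(28,0)]⟩,⟨225,[(5,1),(2,5),(7,
  9),(8,13),(12,225),(4,81),(1,47),(0,18),(4,6)]⟩),(⟨0,[(42,0)]⟩,⟨0,[(43,0)]⟩),⟨2,[(4,0),(22,1),(12,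
  0),(4,2)]⟩,.k,.k,(.r (-1) ⟨5,[(1,1),(18,3),(5,1),(20,0),(2,5),(0,3),(0,0)]⟩ ⟨0,[(2,1),(3,0),(8,3),
  (31,1),(0,1),(3,2)]⟩),.k,.k,.k,⟨true,(-1),⟨0,[(17,0)]⟩,⟨1,[(50,1),(0,0),(0,0)]⟩⟩,⟨false,0,⟨0,[(33,
  0)]⟩,⟨0,[(5,0),(12,0)]⟩⟩,⟨false,0,⟨10,[(0,0),(2,5),(3,5),(8,0),(8,0),(11,0)]⟩,⟨0,[(1,0),(50,0)]⟩⟩,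
  ⟨true,0,⟨15,[(2,0),(2,7),(7,3),(1,0),(17,4),(1,6),(10,2)]⟩,⟨0,[(18,0)]⟩⟩,⟨false,0,⟨0,[]⟩,⟨0,[]⟩⟩,
  ⟨false,0,⟨0,[]⟩,⟨0,[]⟩⟩,[.o ⟨false,0,⟨0,[(50,0)]⟩,⟨39,[(10,1),(0,1),(12,15),(19,5),(2,18),(3,
  4)]⟩⟩,.e ⟨false,0,⟨0,[]⟩,⟨1,[(29,0),(0,0),(20,0)]⟩⟩ ⟨false,1,⟨1,[(33,1),(16,1),(0,0),(0,0)]⟩,⟨0,
  [(2,0),(15,0)]⟩⟩,.a ⟨true,0,⟨0,[(36,0)]⟩,⟨0,[(33,0)]⟩⟩ ⟨false,0,⟨10,[(0,1),(2,0),(3,0),(8,1),(8,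
  1),(11,1)]⟩,⟨1,[(51,0),(0,0)]⟩⟩ ⟨true,0,⟨0,[(33,0),(16,0)]⟩,⟨0,[(2,0),(15,0)]⟩⟩,.o ⟨false,0,⟨0,
  [(0,0)]⟩,⟨0,[(22,0),(28,0)]⟩⟩]⟩) (.Q [0,0,2,0,0,0,2,1,0,-1,2] (.p true [0,0,1] [1,0,-1] (⟨0,[(39,
  0)]⟩,⟨0,[(38,0)]⟩) .k 2 (⟨0,[(38,0)]⟩,⟨0,[(39,0)]⟩) .k (.r 0 ⟨26,[(1,23),(4,9),(2,7),(10,7),(4,
  11),(26,5)]⟩ ⟨0,[(3,1),(47,0)]⟩)) (.R ⟨0,false,false,true,[0,-1,1],[1,0,-1],[1,1,0,0,0,0,0,-1],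
  (⟨0,[(29,0)]⟩,⟨225,[(6,1),(2,5),(7,9),(8,13),(12,225),(4,81),(1,47),(0,18),(4,6)]⟩),(⟨0,[(39,0)]⟩,
  ⟨0,[(40,0)]⟩),⟨2,[(5,0),(22,1),(12,0),(4,2)]⟩,.k,.k,(.r (-1) ⟨5,[(2,1),(18,3),(5,1),(20,0),(2,5),
  (0,3),(0,0)]⟩ ⟨0,[(1,1),(1,3),(3,0),(4,1),(3,7),(31,3),(4,4)]⟩),(.r 0 ⟨26,[(2,32),(4,6),(2,10),
  (10,10),(4,2),(26,14)]⟩ ⟨9,[(4,4),(1,3),(1,1),(0,4),(16,0)]⟩),.k,.k,⟨true,0,⟨0,[]⟩,⟨14,[(0,1),(3,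
  2),(3,0),(8,1),(8,1),(11,3)]⟩⟩,⟨false,0,⟨0,[(1,0),(21,0)]⟩,⟨0,[(0,0),(3,0),(47,0)]⟩⟩,⟨true,0,⟨0,
  [(4,1),(44,0)]⟩,⟨26,[(2,32),(4,6),(2,10),(10,10),(4,2),(26,14)]⟩⟩,⟨false,0,⟨1,[(1,1),(1,1),(2,0),
  (3,0),(25,0)]⟩,⟨1,[(20,1),(0,1),(26,0),(4,0)]⟩⟩,⟨false,0,⟨0,[]⟩,⟨0,[]⟩⟩,⟨false,0,⟨0,[]⟩,⟨0,[]⟩⟩,
  [.o ⟨false,0,⟨0,[(36,0)]⟩,⟨1,[(20,1),(27,0),(4,0)]⟩⟩,.a ⟨true,0,⟨69,[(1,12),(4,32),(2,7),(4,25),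
  (2,3),(9,4),(8,20),(10,10)]⟩,⟨0,[(20,0)]⟩⟩ ⟨false,1,⟨0,[(4,0),(47,0)]⟩,⟨26,[(2,11),(4,4),(2,3),
  (10,3),(4,5),(26,2)]⟩⟩ ⟨true,0,⟨1,[(1,1),(4,0),(3,0),(25,0)]⟩,⟨0,[(0,0)]⟩⟩,.a ⟨true,0,⟨0,[(37,
  0)]⟩,⟨0,[(34,0)]⟩⟩ ⟨true,0,⟨5,[(4,5),(12,1),(30,0),(0,3),(2,0)]⟩,⟨26,[(2,11),(4,4),(2,3),(10,3),
  (4,5),(26,2)]⟩⟩ ⟨false,0,⟨1,[(1,1),(4,0),(3,0),(25,0)]⟩,⟨1,[(0,1),(51,0),(0,0)]⟩⟩,.a ⟨true,0,⟨9,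
  [(0,4),(5,2),(1,3),(8,4),(8,1)]⟩,⟨0,[(1,0)]⟩⟩ ⟨false,1,⟨0,[(4,0),(47,0)]⟩,⟨26,[(2,5),(4,6),(2,10),
  (10,10),(4,2),(26,14)]⟩⟩ ⟨true,0,⟨0,[(1,0),(34,0)]⟩,⟨0,[(0,0)]⟩⟩]⟩) (.R ⟨0,false,false,true,[0,-1,
  1],[1,0,-1],[1,1,0,0,0,0,0,-1],(⟨0,[(29,0)]⟩,⟨225,[(6,1),(2,5),(7,9),(8,13),(12,225),(4,81),(1,
  47),(0,18),(4,6)]⟩),(⟨0,[(39,0)]⟩,⟨0,[(40,0)]⟩),⟨2,[(5,0),(22,1),(12,0),(4,2)]⟩,.k,.k,(.r (-1) ⟨5,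
  [(2,1),(18,3),(5,1),(20,0),(2,5),(0,3),(0,0)]⟩ ⟨0,[(0,1),(2,3),(3,0),(4,3),(3,11),(31,4),(4,7)]⟩),
  (.r 0 ⟨26,[(2,32),(4,6),(2,10),(10,10),(4,2),(26,14)]⟩ ⟨9,[(4,4),(1,3),(1,1),(0,4),(16,0)]⟩),.k,
  .k,⟨true,0,⟨0,[]⟩,⟨1,[(37,0),(0,0)]⟩⟩,⟨false,0,⟨0,[(1,0),(21,0)]⟩,⟨0,[(6,0),(12,0),(17,0)]⟩⟩,
  ⟨true,0,⟨0,[(4,1),(44,0)]⟩,⟨26,[(2,32),(4,6),(2,10),(10,10),(4,2),(26,14)]⟩⟩,⟨false,0,⟨4,[(0,3),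
  (3,0),(1,0),(1,1),(0,0),(0,0),(3,0)]⟩,⟨1,[(20,1),(0,1),(26,0),(4,0)]⟩⟩,⟨false,0,⟨0,[]⟩,⟨0,[]⟩⟩,
  ⟨false,0,⟨0,[]⟩,⟨0,[]⟩⟩,[.o ⟨false,0,⟨0,[(36,0)]⟩,⟨1,[(20,1),(27,0),(4,0)]⟩⟩,.e ⟨false,1,⟨0,[(4,
  0),(47,0)]⟩,⟨26,[(2,11),(4,4),(2,3),(10,3),(4,5),(26,2)]⟩⟩ ⟨false,0,⟨0,[(0,0)]⟩,⟨1,[(35,1),(1,1),
  (10,0),(4,0)]⟩⟩,.a ⟨true,0,⟨0,[(37,0)]⟩,⟨0,[(34,0)]⟩⟩ ⟨true,0,⟨5,[(4,5),(12,1),(30,0),(0,3),(2,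
  0)]⟩,⟨26,[(2,11),(4,4),(2,3),(10,3),(4,5),(26,2)]⟩⟩ ⟨false,0,⟨2,[(0,1),(3,0),(22,0)]⟩,⟨1,[(20,1),
  (16,1),(10,0),(4,0)]⟩⟩,.e ⟨false,1,⟨0,[(4,0),(47,0)]⟩,⟨26,[(2,5),(4,6),(2,10),(10,10),(4,2),(26,
  14)]⟩⟩ ⟨false,0,⟨0,[(0,0)]⟩,⟨13,[(7,1),(13,7),(4,3),(10,19),(10,6),(4,4)]⟩⟩]⟩)))

theorem ok110 : chk K t110 r70 = true := by decide +kernel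

noncomputable def t112 : Tre :=
  (.I [0,0,-1,-1,0,0,0,1] (.S ⟨1,0,[0,0,0,-1,0,0,0,1],[0,0,1],[1,1,1],(⟨0,[(38,0)]⟩,⟨0,[(37,0)]⟩),
  ⟨0,[(27,0)]⟩,.k,.k,⟨false,0,⟨0,[(2,0)]⟩,⟨6,[(1,3),(8,0),(13,1),(7,0),(17,1),(0,2)]⟩⟩,⟨true,0,⟨0,
  [(49,0)]⟩,⟨0,[(48,0)]⟩⟩,⟨true,0,⟨1,[(7,0),(8,0)]⟩,⟨0,[(0,0)]⟩⟩,⟨false,1,⟨2,[(1,0),(2,1),(19,0)]⟩,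
  ⟨0,[]⟩⟩,[.e ⟨false,0,⟨47,[(7,4),(7,7),(0,0),(5,9),(20,11),(2,3)]⟩,⟨1,[(50,0),(0,0)]⟩⟩ ⟨false,0,⟨0,
  [(0,0)]⟩,⟨7,[(7,3),(15,1),(26,0),(0,0)]⟩⟩,.o ⟨false,1,⟨1,[(19,1),(26,0),(4,0)]⟩,⟨0,[(20,0)]⟩⟩,.o
  ⟨false,1,⟨0,[(4,0),(12,0)]⟩,⟨0,[(21,0)]⟩⟩,.a ⟨true,0,⟨0,[(35,0)]⟩,⟨0,[(32,0)]⟩⟩ ⟨false,0,⟨0,[]⟩,
  ⟨2,[(1,0),(2,1),(19,0)]⟩⟩ ⟨true,0,⟨0,[(0,0)]⟩,⟨1,[(7,0),(8,0)]⟩⟩]⟩) (.N [0,-1,1] 0 ⟨0,[(1,0)]⟩ ⟨0,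
  [(0,0)]⟩ .k))

theorem ok112 : chk K t112 r69 = true := by decide +kernel

noncomputable def t116 : Tre :=
  (.I [1,0,-1,0,1,0,0,-1] (.S ⟨1,0,[0,0,0,-1,0,0,0,-1],[1,0,-1],[1,1,0,0,0,0,0,-1],(⟨0,[(34,0)]⟩,⟨0,
  [(35,0)]⟩),⟨0,[(23,0)]⟩,.k,.k,⟨false,0,⟨0,[]⟩,⟨2,[(0,0),(20,0),(24,0),(1,0)]⟩⟩,⟨true,0,⟨0,[(46,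
  0)]⟩,⟨0,[(45,0)]⟩⟩,⟨true,0,⟨0,[(45,0)]⟩,⟨0,[(46,0)]⟩⟩,⟨false,1,⟨2,[(0,0),(20,0),(24,0),(1,0)]⟩,⟨0,
  []⟩⟩,[.e ⟨false,1,⟨35,[(0,26),(3,6),(7,5),(8,4),(18,13),(2,2)]⟩,⟨0,[(1,0),(46,0)]⟩⟩ ⟨false,1,⟨0,
  [(0,0),(45,0)]⟩,⟨14,[(1,5),(0,0),(4,4),(13,2),(7,4),(18,3)]⟩⟩,.o ⟨false,1,⟨0,[(31,0),(14,0),(1,
  0)]⟩,⟨0,[(8,0)]⟩⟩,.o ⟨false,0,⟨0,[(18,0)]⟩,⟨1,[(0,0),(14,0),(16,0),(10,0)]⟩⟩,.a ⟨true,(-1),⟨0,[(9,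
  0)]⟩,⟨0,[(0,0),(14,0)]⟩⟩ ⟨false,1,⟨0,[(0,0)]⟩,⟨14,[(1,5),(0,0),(2,4),(10,4),(4,2),(26,8)]⟩⟩ ⟨true,
  1,⟨0,[(0,0),(45,0)]⟩,⟨4,[(1,2),(0,0),(7,0),(8,0)]⟩⟩]⟩) (.I [1,0,1,1,-1,0,0,1] (.I [0,0,1,1,-1,0,0,
  1] (.I [1,1,-2,-1,1,0,0,-1] (.Q [0,0,0,0,0,2,0,0,0,-1,1] (.p true [0,0,1] [1] (⟨0,[(38,0)]⟩,⟨0,
  [(37,0)]⟩) .k 1 (⟨0,[]⟩,⟨0,[]⟩) .k .k) (.R ⟨0,false,false,false,[1,-1,-1],[1,-1],[0,0,-1,-1,0,0,0,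
  -1],(⟨0,[(27,0)]⟩,⟨2,[(0,1),(1,1),(4,1),(7,11),(12,0),(18,4),(0,5),(3,8)]⟩),(⟨0,[(42,0)]⟩,⟨0,[(43,
  0)]⟩),⟨0,[(0,0)]⟩,.k,.k,(.r (-2) ⟨12,[(1,14),(6,0),(16,3),(24,15),(1,5)]⟩ ⟨0,[(6,0)]⟩),.k,.k,.k,
  ⟨true,1,⟨12,[(1,0),(6,6),(16,1),(24,7),(1,2)]⟩,⟨0,[(4,0)]⟩⟩,⟨false,1,⟨0,[(36,0),(14,0)]⟩,⟨0,[(22,
  0)]⟩⟩,⟨false,1,⟨12,[(1,1),(6,0),(16,3),(24,2),(1,5)]⟩,⟨0,[]⟩⟩,⟨true,0,⟨0,[(19,0)]⟩,⟨0,[(35,0)]⟩⟩,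
  ⟨false,0,⟨0,[]⟩,⟨0,[]⟩⟩,⟨false,0,⟨0,[]⟩,⟨0,[]⟩⟩,[.o ⟨false,0,⟨0,[(50,0)]⟩,⟨39,[(10,1),(0,1),(12,
  15),(19,5),(2,18),(3,4)]⟩⟩,.e ⟨false,2,⟨0,[(1,0),(50,0)]⟩,⟨4,[(5,2),(0,0),(7,0),(8,0)]⟩⟩ ⟨false,2,
  ⟨0,[(1,0),(17,0),(32,0)]⟩,⟨1,[(5,0),(3,0),(0,0)]⟩⟩,.a ⟨true,(-1),⟨0,[(13,0)]⟩,⟨0,[(36,0),(14,
  0)]⟩⟩ ⟨false,2,⟨12,[(1,7),(6,3),(16,2),(24,11),(1,10)]⟩,⟨0,[(3,0)]⟩⟩ ⟨true,1,⟨2,[(1,1),(17,0),(0,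
  0),(15,0),(15,0)]⟩,⟨1,[(5,0),(3,0),(0,0)]⟩⟩,.o ⟨false,(-1),⟨0,[(9,0)]⟩,⟨0,[(1,0),(10,0),(39,
  0)]⟩⟩]⟩) (.R ⟨1,false,false,false,[1,-1,-1],[1,-1],[1,0,-1,-1,0,0,0,-1],(⟨0,[(27,0)]⟩,⟨2,[(2,1),
  (4,1),(7,11),(12,2),(16,1),(1,4),(0,5),(3,8)]⟩),(⟨0,[(42,0)]⟩,⟨0,[(43,0)]⟩),⟨0,[(0,0)]⟩,.k,.k,(.r
  (-2) ⟨12,[(1,14),(6,0),(16,3),(24,15),(1,5)]⟩ ⟨0,[(6,0)]⟩),.k,.k,.k,⟨true,1,⟨12,[(1,0),(6,6),(16,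
  1),(24,7),(1,2)]⟩,⟨0,[(4,0)]⟩⟩,⟨false,1,⟨0,[(36,0),(14,0)]⟩,⟨0,[(22,0)]⟩⟩,⟨true,0,⟨0,[]⟩,⟨47,[(8,
  4),(7,7),(0,0),(5,9),(20,11),(2,3)]⟩⟩,⟨true,0,⟨0,[(19,0)]⟩,⟨0,[(35,0)]⟩⟩,⟨false,1,⟨3,[(24,1),(26,
  0),(0,0)]⟩,⟨0,[(50,0)]⟩⟩,⟨true,0,⟨10,[(2,0),(8,3),(7,5),(16,0),(9,1),(1,1),(3,2)]⟩,⟨0,[(35,0),(14,
  0)]⟩⟩,[.o ⟨false,0,⟨0,[(50,0)]⟩,⟨39,[(10,1),(0,1),(12,15),(19,5),(2,18),(3,4)]⟩⟩,.e ⟨false,2,⟨0,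
  [(1,0),(50,0)]⟩,⟨4,[(5,2),(0,0),(7,0),(8,0)]⟩⟩ ⟨false,2,⟨0,[(1,0),(17,0),(32,0)]⟩,⟨1,[(5,0),(3,0),
  (0,0)]⟩⟩,.a ⟨true,(-1),⟨0,[(13,0)]⟩,⟨0,[(36,0),(14,0)]⟩⟩ ⟨false,2,⟨12,[(1,7),(6,3),(16,2),(24,11),
  (1,10)]⟩,⟨0,[(2,0)]⟩⟩ ⟨true,1,⟨2,[(1,1),(17,0),(0,0),(15,0),(15,0)]⟩,⟨1,[(5,0),(3,0),(0,0)]⟩⟩,.o
  ⟨false,(-1),⟨0,[(9,0)]⟩,⟨0,[(1,0),(10,0),(39,0)]⟩⟩]⟩)) (.Q [0,0,-2,0,0,0,-1,0,0,1,-1] (.p false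
  [0,0,1] [1] (⟨0,[(38,0)]⟩,⟨0,[(37,0)]⟩) .k 1 (⟨0,[]⟩,⟨0,[]⟩) .k .k) (.Q [0,1,-1,-1,-1,0,-1,0,0,1,
  -1] (.p false [0,0,1] [1] (⟨0,[(39,0)]⟩,⟨0,[(38,0)]⟩) .k 1 (⟨0,[]⟩,⟨0,[]⟩) .k .k) (.Q [0,0,0,0,0,
  2,0,0,0,0,-1] (.p false [0,0,1] [] (⟨0,[(40,0)]⟩,⟨0,[(39,0)]⟩) .k 0 (⟨0,[]⟩,⟨0,[]⟩) .k .k) (.R ⟨0,
  false,false,false,[0,-1,1],[1,-1],[1],(⟨0,[(30,0)]⟩,⟨187,[(0,83),(9,11),(7,17),(8,23),(12,103),(1,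
  19),(5,32),(4,11),(0,2)]⟩),(⟨0,[(44,0)]⟩,⟨0,[(45,0)]⟩),⟨0,[(0,0)]⟩,.k,.k,(.r (-1) ⟨5,[(1,1),(20,
  5),(5,1),(20,1),(2,3),(0,4),(0,0)]⟩ ⟨0,[(3,0),(6,0)]⟩),.k,.k,.k,⟨true,0,⟨4,[(9,0),(6,0),(10,0)]⟩,
  ⟨0,[(52,0)]⟩⟩,⟨false,0,⟨0,[(35,0)]⟩,⟨1,[(38,1),(10,0),(3,0)]⟩⟩,⟨false,1,⟨14,[(9,3),(0,5),(0,1),
  (15,0),(10,1),(15,9)]⟩,⟨7,[(1,1),(0,3),(3,1),(15,5),(26,2),(4,0)]⟩⟩,⟨true,0,⟨1,[(1,0),(8,0),(4,0),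
  (38,0)]⟩,⟨0,[(20,0)]⟩⟩,⟨false,0,⟨0,[]⟩,⟨0,[]⟩⟩,⟨false,0,⟨0,[]⟩,⟨0,[]⟩⟩,[.o ⟨false,0,⟨0,[(52,0)]⟩,
  ⟨39,[(12,1),(0,1),(12,15),(19,5),(2,18),(3,4)]⟩⟩,.a ⟨true,0,⟨3,[(18,1),(29,0),(5,2)]⟩,⟨0,[(51,
  0)]⟩⟩ ⟨false,1,⟨1,[(53,0),(0,0)]⟩,⟨47,[(10,4),(7,7),(0,0),(5,9),(20,11),(2,3)]⟩⟩ ⟨true,0,⟨0,[(1,
  0),(52,0)]⟩,⟨9,[(9,1),(0,0),(8,4),(0,1),(15,1),(1,5),(10,3)]⟩⟩,.a ⟨true,0,⟨0,[(38,0)]⟩,⟨0,[(35,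
  0)]⟩⟩ ⟨true,0,⟨0,[]⟩,⟨47,[(10,4),(7,7),(0,0),(5,9),(20,11),(2,3)]⟩⟩ ⟨false,0,⟨0,[(1,0),(52,0)]⟩,
  ⟨10,[(10,1),(3,0),(6,1),(4,3),(9,0),(1,6),(10,4)]⟩⟩,.a ⟨true,0,⟨1,[(38,2),(0,0)]⟩,⟨0,[(2,0)]⟩⟩
  ⟨false,1,⟨1,[(53,0),(0,0)]⟩,⟨1,[(38,0),(0,0)]⟩⟩ ⟨true,0,⟨1,[(1,1),(51,0),(0,0)]⟩,⟨9,[(9,1),(0,0),
  (8,4),(0,1),(15,1),(1,5),(10,3)]⟩⟩]⟩) (.S ⟨1,0,[0,0,-1,-2,0,0,0,1],[0,-1,1],[1,1,-1,-1,0,0,0,1],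
  (⟨0,[(30,0)]⟩,⟨99,[(10,3),(7,5),(8,7),(12,99),(1,15),(4,27),(0,10),(4,3),(0,0)]⟩),⟨0,[(0,0)]⟩,.k,
  (.r (-1) ⟨5,[(1,1),(20,5),(5,1),(20,1),(2,3),(0,4),(0,0)]⟩ ⟨0,[(3,0),(6,0)]⟩),⟨false,0,⟨0,[]⟩,⟨1,
  [(31,0),(0,0),(21,0)]⟩⟩,⟨true,0,⟨0,[(52,0)]⟩,⟨0,[(51,0)]⟩⟩,⟨true,0,⟨0,[(51,0)]⟩,⟨0,[(52,0)]⟩⟩,
  ⟨false,1,⟨1,[(31,0),(0,0),(21,0)]⟩,⟨0,[]⟩⟩,[.a ⟨true,0,⟨0,[(22,0),(29,0)]⟩,⟨0,[(2,0),(6,0)]⟩⟩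
  ⟨false,0,⟨3,[(1,1),(0,1),(17,1),(1,1),(26,0),(3,0)]⟩,⟨14,[(9,3),(0,5),(0,1),(15,0),(10,1),(15,
  9)]⟩⟩ ⟨true,0,⟨1,[(1,1),(20,1),(26,0),(4,0)]⟩,⟨0,[(9,0)]⟩⟩,.o ⟨false,1,⟨1,[(22,1),(26,0),(2,1),(1,
  0)]⟩,⟨0,[(12,0)]⟩⟩,.a ⟨true,0,⟨0,[(38,0)]⟩,⟨0,[(35,0)]⟩⟩ ⟨false,0,⟨7,[(1,1),(0,3),(3,1),(15,5),
  (26,2),(4,0)]⟩,⟨14,[(9,3),(0,5),(0,1),(15,0),(10,1),(15,9)]⟩⟩ ⟨true,0,⟨1,[(1,1),(20,1),(26,0),(4,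
  0)]⟩,⟨2,[(9,0),(0,0),(5,0),(33,0)]⟩⟩,.a ⟨true,0,⟨1,[(38,2),(0,0)]⟩,⟨0,[(2,0)]⟩⟩ ⟨true,0,⟨3,[(1,1),
  (0,1),(17,1),(1,1),(26,0),(3,0)]⟩,⟨0,[(9,0),(42,0)]⟩⟩ ⟨false,1,⟨1,[(1,1),(20,1),(26,0),(3,0),(0,
  1)]⟩,⟨0,[(9,0)]⟩⟩]⟩)) (.Q [0,0,0,0,0,2,0,0,0,0,-1] (.p false [0,0,1] [] (⟨0,[(40,0)]⟩,⟨0,[(39,
  0)]⟩) .k 0 (⟨0,[]⟩,⟨0,[]⟩) .k .k) (.R ⟨0,false,false,true,[0,-1,1],[1,-1],[1,1],(⟨0,[(30,0)]⟩,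
  ⟨187,[(0,83),(9,11),(7,17),(8,23),(12,103),(1,19),(5,32),(4,11),(0,2)]⟩),(⟨0,[(44,0)]⟩,⟨0,[(45,
  0)]⟩),⟨0,[(0,0)]⟩,.k,.k,(.r (-1) ⟨2,[(2,0),(19,2),(5,0),(20,0),(2,2),(0,1)]⟩ ⟨0,[(3,0),(6,0)]⟩),
  .k,.k,.k,⟨true,0,⟨4,[(9,0),(6,0),(10,0)]⟩,⟨0,[(52,0)]⟩⟩,⟨false,0,⟨0,[(35,0)]⟩,⟨1,[(38,1),(10,0),
  (3,0)]⟩⟩,⟨true,0,⟨1,[(10,0),(8,0)]⟩,⟨2,[(2,1),(3,0),(15,1),(26,0),(2,0)]⟩⟩,⟨false,0,⟨7,[(2,3),(7,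
  3),(0,3),(6,1),(29,0),(5,2)]⟩,⟨1,[(21,1),(27,0),(4,0)]⟩⟩,⟨false,0,⟨0,[]⟩,⟨0,[]⟩⟩,⟨false,0,⟨0,[]⟩,
  ⟨0,[]⟩⟩,[.e ⟨false,0,⟨5,[(18,1),(30,0),(0,3),(2,0)]⟩,⟨1,[(31,0),(0,0),(21,0)]⟩⟩ ⟨false,0,⟨7,[(2,
  3),(15,3),(9,1),(17,1),(2,0),(3,2)]⟩,⟨0,[(1,0)]⟩⟩,.o ⟨false,0,⟨0,[(52,0)]⟩,⟨39,[(12,1),(0,1),(12,
  15),(19,5),(2,18),(3,4)]⟩⟩,.e ⟨false,0,⟨0,[]⟩,⟨1,[(31,0),(0,0),(21,0)]⟩⟩ ⟨false,0,⟨5,[(2,1),(15,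
  1),(9,1),(23,1),(0,0),(0,0)]⟩,⟨0,[(1,0)]⟩⟩,.a ⟨true,0,⟨1,[(38,2),(0,0)]⟩,⟨0,[(2,0)]⟩⟩ ⟨true,0,⟨5,
  [(18,1),(30,0),(0,3),(2,0)]⟩,⟨1,[(38,0),(0,0)]⟩⟩ ⟨false,0,⟨0,[(2,0),(49,0)]⟩,⟨1,[(1,1),(36,0),(0,
  0)]⟩⟩]⟩) (.S ⟨1,0,[0,0,-1,-2,0,0,0,1],[0,-1,1],[1,1,-1,-1,0,0,0,1],(⟨0,[(30,0)]⟩,⟨99,[(10,3),(7,
  5),(8,7),(12,99),(1,15),(4,27),(0,10),(4,3),(0,0)]⟩),⟨0,[(0,0)]⟩,.k,(.r (-1) ⟨2,[(2,0),(19,2),(5,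
  0),(20,0),(2,2),(0,1)]⟩ ⟨0,[(3,0),(6,0)]⟩),⟨false,0,⟨0,[]⟩,⟨1,[(31,0),(0,0),(21,0)]⟩⟩,⟨true,0,⟨0,
  [(52,0)]⟩,⟨0,[(51,0)]⟩⟩,⟨true,0,⟨0,[(51,0)]⟩,⟨0,[(52,0)]⟩⟩,⟨false,1,⟨1,[(31,0),(0,0),(21,0)]⟩,⟨0,
  []⟩⟩,[.a ⟨true,0,⟨0,[(22,0),(29,0)]⟩,⟨0,[(2,0),(6,0)]⟩⟩ ⟨false,0,⟨2,[(2,2),(15,0),(1,1),(1,0),(26,
  0)]⟩,⟨14,[(9,3),(0,5),(0,1),(15,0),(10,1),(15,9)]⟩⟩ ⟨true,0,⟨2,[(2,1),(3,0),(15,1),(26,0),(2,3)]⟩,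
  ⟨0,[(9,0)]⟩⟩,.o ⟨false,1,⟨1,[(22,1),(26,0),(2,1),(1,0)]⟩,⟨0,[(12,0)]⟩⟩,.a ⟨true,0,⟨0,[(38,0)]⟩,⟨0,
  [(35,0)]⟩⟩ ⟨false,0,⟨2,[(2,1),(3,0),(15,1),(26,0),(2,0)]⟩,⟨14,[(9,3),(0,5),(0,1),(15,0),(10,1),
  (15,9)]⟩⟩ ⟨true,0,⟨2,[(2,1),(3,0),(15,1),(26,0),(2,3)]⟩,⟨2,[(9,0),(0,0),(5,0),(33,0)]⟩⟩,.a ⟨true,
  0,⟨1,[(38,2),(0,0)]⟩,⟨0,[(2,0)]⟩⟩ ⟨true,0,⟨2,[(2,2),(15,0),(1,1),(1,0),(26,0)]⟩,⟨0,[(9,0),(42,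
  0)]⟩⟩ ⟨false,1,⟨1,[(2,1),(19,1),(26,0),(2,1),(1,0)]⟩,⟨0,[(9,0)]⟩⟩]⟩))) (.Q [0,0,0,0,0,2,0,0,0,0,
  -1] (.p false [0,0,1] [] (⟨0,[(39,0)]⟩,⟨0,[(38,0)]⟩) .k 0 (⟨0,[]⟩,⟨0,[]⟩) .k .k) (.R ⟨0,false,
  false,false,[0,-1,1],[1,-1],[],(⟨0,[(29,0)]⟩,⟨187,[(0,83),(8,11),(7,17),(8,23),(12,103),(1,19),(5,
  32),(4,11),(0,2)]⟩),(⟨0,[(43,0)]⟩,⟨0,[(44,0)]⟩),⟨0,[(0,0)]⟩,.k,.k,(.r (-1) ⟨0,[(21,0),(1,0),(27,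
  0),(0,0)]⟩ ⟨0,[(2,0),(6,0)]⟩),.k,.k,.k,⟨true,0,⟨4,[(8,0),(6,0),(10,0)]⟩,⟨0,[(51,0)]⟩⟩,⟨false,0,⟨0,
  [(34,0)]⟩,⟨0,[(1,0),(50,0)]⟩⟩,⟨false,1,⟨58,[(1,3),(6,21),(0,19),(7,3),(8,2),(11,3),(14,39)]⟩,⟨0,
  [(5,0),(45,0),(0,0)]⟩⟩,⟨true,0,⟨3,[(11,0),(4,1),(19,2),(10,0),(5,2)]⟩,⟨0,[(19,0)]⟩⟩,⟨false,0,⟨0,
  []⟩,⟨0,[]⟩⟩,⟨false,0,⟨0,[]⟩,⟨0,[]⟩⟩,[.o ⟨false,0,⟨0,[(51,0)]⟩,⟨39,[(11,1),(0,1),(12,15),(19,5),(2,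
  18),(3,4)]⟩⟩,.e ⟨false,1,⟨1,[(52,0),(0,0)]⟩,⟨22,[(1,0),(7,1),(7,2),(6,3),(13,0),(6,6),(2,0)]⟩⟩
  ⟨false,1,⟨1,[(34,1),(16,1),(0,0),(0,0)]⟩,⟨0,[(1,0),(47,0)]⟩⟩,.a ⟨true,0,⟨0,[(37,0)]⟩,⟨0,[(34,
  0)]⟩⟩ ⟨false,1,⟨1,[(30,0),(0,0),(21,0)]⟩,⟨0,[]⟩⟩ ⟨true,0,⟨0,[(34,0),(16,0)]⟩,⟨0,[(1,0),(47,0)]⟩⟩,
  .o ⟨false,0,⟨0,[(1,0)]⟩,⟨0,[(23,0),(28,0)]⟩⟩]⟩) (.Q [0,0,0,1,0,0,2,2,0,-1,2] (.p true [0,0,1] [1,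
  0,-1] (⟨0,[(40,0)]⟩,⟨0,[(39,0)]⟩) .k 2 (⟨0,[(39,0)]⟩,⟨0,[(40,0)]⟩) .k (.r 1 ⟨0,[(5,1),(46,0)]⟩ ⟨1,
  [(9,1),(20,0),(0,0),(19,1),(1,0)]⟩)) (.Q [0,0,-1,0,1,0,2,1,0,-1,2] (.p true [0,0,1] [1,0,-1] (⟨0,
  [(41,0)]⟩,⟨0,[(40,0)]⟩) .k 2 (⟨0,[(40,0)]⟩,⟨0,[(41,0)]⟩) .k (.r 1 ⟨0,[(6,1),(46,0)]⟩ ⟨1,[(10,1),
  (20,0),(0,0),(19,1),(1,0)]⟩)) (.Q [0,0,0,0,-1,0,-2,0,0,1,-2] (.p false [0,0,1] [1,0,-1] (⟨0,[(42,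
  0)]⟩,⟨0,[(41,0)]⟩) .k 2 (⟨0,[(41,0)]⟩,⟨0,[(42,0)]⟩) .k (.r 1 ⟨0,[(7,1),(46,0)]⟩ ⟨1,[(11,1),(20,0),
  (0,0),(19,1),(1,0)]⟩)) (.R ⟨0,false,false,false,[1,-1,-1],[0,-1,1],[0,1],(⟨0,[(31,0)]⟩,⟨99,[(12,
  3),(7,5),(8,7),(13,99),(0,15),(4,27),(0,10),(4,3),(0,0)]⟩),(⟨0,[(32,0)]⟩,⟨99,[(12,3),(7,5),(8,7),
  (12,99),(1,15),(4,27),(0,10),(4,3),(0,0)]⟩),⟨2,[(3,1),(39,0),(0,0),(4,2)]⟩,.k,.k,(.r (-2) ⟨3,[(12,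
  1),(20,0),(0,0),(19,9),(0,3),(0,0)]⟩ ⟨0,[(10,0)]⟩),.k,.k,.k,⟨true,0,⟨1,[(12,0),(8,0)]⟩,⟨1,[(8,1),
  (45,1),(0,0),(0,0)]⟩⟩,⟨false,2,⟨5,[(1,3),(10,3),(11,3),(26,0),(3,0),(0,1)]⟩,⟨0,[(0,0)]⟩⟩,⟨false,
  (-1),⟨0,[(6,0)]⟩,⟨3,[(12,1),(20,0),(0,0),(19,5),(0,1),(0,2)]⟩⟩,⟨true,0,⟨0,[(1,0),(6,0)]⟩,⟨2,[(0,
  1),(11,1),(7,0),(18,1),(16,0)]⟩⟩,⟨false,0,⟨0,[]⟩,⟨0,[]⟩⟩,⟨false,0,⟨0,[]⟩,⟨0,[]⟩⟩,[.a ⟨true,0,⟨0,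
  [(24,0)]⟩,⟨4,[(0,0),(11,0),(1,2),(4,1),(30,0),(5,2)]⟩⟩ ⟨false,0,⟨5,[(20,1),(30,0),(0,3),(2,0)]⟩,
  ⟨1,[(33,0),(0,0),(21,0)]⟩⟩ ⟨true,1,⟨0,[(1,0),(52,0)]⟩,⟨15,[(0,11),(10,7),(0,3),(0,7),(6,1),(29,0),
  (5,2)]⟩⟩,.o ⟨false,1,⟨1,[(24,1),(26,0),(4,0)]⟩,⟨0,[(25,0)]⟩⟩,.e ⟨true,0,⟨22,[(4,0),(7,1),(7,2),(6,
  3),(13,0),(6,6),(2,0)]⟩,⟨0,[]⟩⟩ ⟨true,1,⟨0,[(1,0),(52,0)]⟩,⟨1,[(14,0),(2,1),(21,0)]⟩⟩,.o ⟨false,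
  (-1),⟨0,[(13,0)]⟩,⟨5,[(1,1),(10,1),(11,1),(26,1),(3,4),(0,0)]⟩⟩]⟩) (.Q [0,0,-1,0,0,0,-1,0,-1,1,-1,
  -1] (.p false [0,0,1] [1,0,0,0,-1] (⟨0,[(43,0)]⟩,⟨0,[(42,0)]⟩) .k 2 (⟨0,[(35,0)]⟩,⟨0,[(36,0)]⟩)
  .k (.r 1 ⟨1,[(5,1),(13,5),(31,2),(0,3),(3,2)]⟩ ⟨3,[(12,1),(20,2),(0,2),(19,1),(1,2)]⟩)) (.R ⟨0,
  false,false,true,[1,-1,-1],[1,0,0,0,-1],[0,1],(⟨0,[(32,0)]⟩,⟨99,[(13,3),(7,5),(8,7),(13,99),(0,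
  15),(4,27),(0,10),(4,3),(0,0)]⟩),(⟨0,[(36,0)]⟩,⟨0,[(37,0)]⟩),⟨2,[(4,1),(39,0),(0,0),(4,2)]⟩,.k,.k,
  (.r (-2) ⟨3,[(13,1),(20,0),(0,0),(19,9),(0,3),(0,0)]⟩ ⟨0,[(11,0)]⟩),(.r (-1) ⟨3,[(13,1),(7,1),(12,
  0),(0,0),(16,0),(2,1),(0,1)]⟩ ⟨2,[(7,1),(22,0),(26,0)]⟩),.k,.k,⟨false,0,⟨5,[(21,1),(30,0),(0,3),
  (2,0)]⟩,⟨1,[(34,0),(0,0),(21,0)]⟩⟩,⟨true,1,⟨0,[(0,0),(0,0)]⟩,⟨0,[(14,0),(20,0)]⟩⟩,⟨false,(-1),⟨0,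
  [(7,0)]⟩,⟨3,[(13,1),(20,0),(0,0),(19,5),(0,1),(0,2)]⟩⟩,⟨true,0,⟨0,[(0,0),(0,0),(5,0)]⟩,⟨0,[(35,0),
  (4,0),(14,0)]⟩⟩,⟨false,0,⟨0,[]⟩,⟨0,[]⟩⟩,⟨false,0,⟨0,[]⟩,⟨0,[]⟩⟩,[.a ⟨true,0,⟨0,[(0,0),(40,0)]⟩,⟨0,
  [(35,0)]⟩⟩ ⟨false,0,⟨5,[(21,1),(30,0),(0,3),(2,0)]⟩,⟨1,[(34,0),(0,0),(21,0)]⟩⟩ ⟨true,1,⟨0,[(0,0),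
  (0,0)]⟩,⟨0,[(14,0),(20,0)]⟩⟩,.e ⟨false,1,⟨1,[(34,0),(0,0),(20,0)]⟩,⟨0,[]⟩⟩ ⟨false,2,⟨1,[(0,1),(0,
  1),(54,0),(0,0)]⟩,⟨1,[(10,0),(3,0),(20,1),(4,0)]⟩⟩,.e ⟨true,0,⟨22,[(5,0),(7,1),(7,2),(6,3),(13,0),
  (6,6),(2,0)]⟩,⟨0,[]⟩⟩ ⟨true,1,⟨0,[(0,0),(0,0)]⟩,⟨1,[(10,0),(3,0),(20,1),(4,0)]⟩⟩,.o ⟨false,(-1),
  ⟨0,[(14,0)]⟩,⟨3,[(1,1),(32,0),(0,0),(16,0),(3,3)]⟩⟩]⟩) (.Q [0,0,1,0,-1,0,0,0,1,0,0,1] (.p true [0,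
  0,0,0,1] [] (⟨0,[(37,0)]⟩,⟨0,[(36,0)]⟩) .k 0 (⟨0,[]⟩,⟨0,[]⟩) .k .k) (.Q [0,0,0,0,0,1,0,0,0,0,0,
  -1] (.ed true [1,-1,0,0,1] .k) (.R ⟨0,false,false,false,[0,1,0,0,-1],[0,1],[0,1],(⟨0,[(0,0)]⟩,⟨0,
  [(39,0),(9,0)]⟩),(⟨0,[(50,0)]⟩,⟨0,[(49,0)]⟩),⟨0,[(39,0)]⟩,(.r (-1) ⟨58,[(7,1),(6,10),(0,9),(7,1),
  (8,30),(11,1),(14,19)]⟩ ⟨2,[(23,1),(30,0),(0,0),(2,0)]⟩),.k,.k,.k,.k,.k,⟨true,0,⟨2,[(23,1),(30,0),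
  (0,0),(2,0)]⟩,⟨38,[(7,7),(0,6),(5,12),(1,7),(15,5),(20,3),(5,12)]⟩⟩,⟨false,0,⟨0,[(1,0),(56,0)]⟩,
  ⟨0,[(36,0)]⟩⟩,⟨false,0,⟨2,[(23,1),(30,0),(0,0),(2,0)]⟩,⟨10,[(8,0),(5,2),(16,0),(0,1),(26,8)]⟩⟩,
  ⟨true,(-1),⟨5,[(1,5),(21,1),(30,0),(0,3),(2,0)]⟩,⟨0,[(36,0)]⟩⟩,⟨false,0,⟨0,[]⟩,⟨0,[]⟩⟩,⟨false,0,
  ⟨0,[]⟩,⟨0,[]⟩⟩,[.o ⟨false,1,⟨39,[(17,1),(0,1),(12,15),(19,5),(2,18),(3,4)]⟩,⟨0,[(57,0)]⟩⟩,.e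
  ⟨false,1,⟨1,[(36,0),(0,0),(20,0)]⟩,⟨0,[]⟩⟩ ⟨false,0,⟨0,[(1,0),(53,0),(3,0)]⟩,⟨2,[(23,1),(12,2),
  (17,0),(0,0),(2,0)]⟩⟩,.o ⟨false,2,⟨1,[(36,1),(17,0),(3,0)]⟩,⟨0,[(1,0)]⟩⟩,.a ⟨true,1,⟨0,[(36,0)]⟩,
  ⟨2,[(1,2),(20,0),(30,0),(1,0),(2,0),(0,0)]⟩⟩ ⟨true,0,⟨5,[(23,1),(30,0),(0,3),(2,0)]⟩,⟨58,[(7,11),
  (6,6),(0,0),(7,11),(8,8),(11,11),(14,1)]⟩⟩ ⟨false,0,⟨0,[(1,0),(53,0),(3,0)]⟩,⟨0,[(36,0),(20,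
  0)]⟩⟩]⟩) (.S ⟨1,0,[0,0,1],[1,1,0,0,-1],[0,-1,1],(⟨99,[(15,3),(7,5),(8,7),(5,99),(8,15),(4,27),(0,
  10),(4,3),(0,0)]⟩,⟨0,[(0,0)]⟩),⟨0,[(38,0)]⟩,(.r (-1) ⟨58,[(7,1),(6,10),(0,9),(7,1),(8,30),(11,1),
  (14,19)]⟩ ⟨2,[(23,1),(30,0),(0,0),(2,0)]⟩),.k,⟨true,0,⟨0,[(57,0)]⟩,⟨0,[(56,0)]⟩⟩,⟨false,0,⟨0,[(57,
  0)]⟩,⟨3,[(31,1),(26,0),(0,0)]⟩⟩,⟨false,1,⟨1,[(36,0),(0,0),(21,0)]⟩,⟨0,[]⟩⟩,⟨true,0,⟨22,[(7,0),(7,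
  1),(7,2),(6,3),(13,0),(6,6),(2,0)]⟩,⟨0,[]⟩⟩,[.o ⟨false,1,⟨0,[(36,0)]⟩,⟨1,[(1,1),(52,0),(3,0)]⟩⟩,
  .e ⟨false,1,⟨0,[(59,0)]⟩,⟨0,[(51,0)]⟩⟩ ⟨false,1,⟨1,[(36,0),(0,0),(21,0)]⟩,⟨5,[(23,1),(30,0),(0,3),
  (2,0)]⟩⟩,.a ⟨true,1,⟨2,[(22,0),(13,2),(16,0),(1,0),(2,0),(0,0)]⟩,⟨0,[(1,0)]⟩⟩ ⟨false,1,⟨58,[(7,
  11),(6,6),(0,0),(7,11),(8,8),(11,11),(14,60)]⟩,⟨5,[(23,1),(30,0),(0,3),(2,0)]⟩⟩ ⟨true,0,⟨58,[(7,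
  11),(6,6),(0,0),(7,11),(8,8),(11,11),(14,1)]⟩,⟨5,[(23,1),(30,0),(0,3),(2,0)]⟩⟩,.o ⟨false,1,⟨0,
  [(36,0)]⟩,⟨1,[(1,1),(52,0),(3,0)]⟩⟩]⟩)) (.Q [0,0,0,0,0,-1,0,0,0,0,0,1] (.ed false [1,-1,0,0,1]
  .k) (.Q [0,0,0,0,0,0,0,0,-1,1,0,-1] (.p false [0,0,0,0,1] [1] (⟨0,[(39,0)]⟩,⟨0,[(38,0)]⟩) .k 1
  (⟨0,[]⟩,⟨0,[]⟩) .k .k) (.S ⟨1,0,[0,0,1],[1,1,0,0,-1],[0,-1,1],(⟨99,[(16,3),(7,5),(8,7),(5,99),(8,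
  15),(4,27),(0,10),(4,3),(0,0)]⟩,⟨0,[(1,0)]⟩),⟨0,[(39,0)]⟩,(.r (-1) ⟨58,[(8,1),(6,10),(0,9),(7,1),
  (8,30),(11,1),(14,19)]⟩ ⟨2,[(24,1),(30,0),(0,0),(2,0)]⟩),.k,⟨true,0,⟨0,[(58,0)]⟩,⟨0,[(57,0)]⟩⟩,
  ⟨false,0,⟨0,[(58,0)]⟩,⟨3,[(32,1),(26,0),(0,0)]⟩⟩,⟨false,1,⟨1,[(37,0),(0,0),(21,0)]⟩,⟨0,[]⟩⟩,⟨true,
  0,⟨22,[(8,0),(7,1),(7,2),(6,3),(13,0),(6,6),(2,0)]⟩,⟨0,[]⟩⟩,[.a ⟨true,0,⟨0,[(0,0)]⟩,⟨0,[(38,0)]⟩⟩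
  ⟨false,1,⟨1,[(37,0),(0,0),(21,0)]⟩,⟨5,[(24,1),(30,0),(0,3),(2,0)]⟩⟩ ⟨true,0,⟨58,[(8,11),(6,6),(0,
  0),(7,11),(8,8),(11,11),(14,1)]⟩,⟨0,[]⟩⟩,.o ⟨false,1,⟨1,[(0,1),(54,0),(4,0)]⟩,⟨6,[(3,1),(9,1),(10,
  0),(13,4),(4,1),(11,2),(0,1)]⟩⟩,.o ⟨false,1,⟨0,[(2,0)]⟩,⟨2,[(3,0),(13,0),(20,1),(16,0)]⟩⟩,.e
  ⟨false,1,⟨0,[(60,0)]⟩,⟨22,[(8,0),(7,1),(7,2),(6,3),(13,0),(6,6),(2,0)]⟩⟩ ⟨false,1,⟨1,[(37,0),(0,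
  0),(21,0)]⟩,⟨0,[]⟩⟩]⟩) (.Q [0,2,0,-1,-1,0,0,0,1,-1,0,1] (.p true [0,0,0,0,1] [1] (⟨0,[(40,0)]⟩,⟨0,
  [(39,0)]⟩) .k 1 (⟨0,[]⟩,⟨0,[]⟩) .k .k) (.S ⟨1,0,[0,2,0,-1],[0,0,0,0,1],[1,1],(⟨0,[(41,0)]⟩,⟨0,
  [(40,0)]⟩),⟨0,[(2,0)]⟩,.k,(.r 0 ⟨2,[(0,0),(2,0),(21,0),(34,0)]⟩ ⟨58,[(9,1),(6,10),(0,9),(7,1),(8,
  30),(11,1),(14,19)]⟩),⟨true,0,⟨0,[]⟩,⟨9,[(0,0),(16,0),(7,0),(6,1),(5,0),(14,1)]⟩⟩,⟨false,0,⟨0,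
  [(59,0)]⟩,⟨3,[(33,1),(26,0),(0,0)]⟩⟩,⟨false,1,⟨3,[(33,1),(26,0),(0,0)]⟩,⟨0,[(59,0)]⟩⟩,⟨true,0,⟨9,
  [(0,0),(16,0),(7,0),(6,1),(5,0),(14,1)]⟩,⟨0,[]⟩⟩,[.o ⟨false,(-1),⟨0,[(0,0)]⟩,⟨8,[(3,6),(6,0),(5,
  0),(16,2),(4,1),(22,6)]⟩⟩,.a ⟨true,(-1),⟨0,[(1,0),(22,0)]⟩,⟨85,[(3,77),(6,13),(5,13),(16,21),(4,
  7),(10,19),(1,19),(3,32),(5,24)]⟩⟩ ⟨true,0,⟨0,[]⟩,⟨58,[(9,11),(6,6),(0,0),(7,11),(8,8),(11,11),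
  (14,1)]⟩⟩ ⟨false,0,⟨2,[(0,0),(2,0),(21,0),(34,0)]⟩,⟨3,[(33,1),(26,0),(0,0)]⟩⟩,.o ⟨false,0,⟨0,[(1,
  0)]⟩,⟨0,[(38,0)]⟩⟩,.o ⟨false,0,⟨1,[(1,0),(2,0),(41,0)]⟩,⟨0,[(3,0)]⟩⟩]⟩) (.R ⟨2,true,false,false,
  [0,1],[0,0,0,0,1],[0,1,1],(⟨0,[]⟩,⟨0,[]⟩),(⟨0,[(41,0)]⟩,⟨0,[(40,0)]⟩),⟨0,[]⟩,.k,.k,.k,(.r (-1)
  ⟨58,[(9,1),(6,10),(0,9),(7,1),(8,30),(11,1),(14,19)]⟩ ⟨2,[(25,1),(30,0),(0,0),(2,0)]⟩),.k,.k,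
  ⟨true,0,⟨58,[(9,11),(6,6),(0,0),(7,11),(8,8),(11,11),(14,1)]⟩,⟨0,[]⟩⟩,⟨false,0,⟨0,[(39,0)]⟩,⟨0,
  [(3,0)]⟩⟩,⟨false,0,⟨0,[(59,0)]⟩,⟨3,[(33,1),(26,0),(0,0)]⟩⟩,⟨true,(-1),⟨0,[(1,0),(22,0)]⟩,⟨3,[(3,
  2),(19,0),(9,0),(4,0)]⟩⟩,⟨true,0,⟨22,[(9,0),(7,1),(7,2),(6,3),(13,0),(6,6),(2,0)]⟩,⟨0,[]⟩⟩,⟨false,
  0,⟨0,[(39,0)]⟩,⟨0,[(0,0),(23,0),(31,0)]⟩⟩,[]⟩))) (.Q [0,-1,0,-1,1,0,-1,-1,-1,1,-1,-1] (.p false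
  [0,0,1,0,1] [1] (⟨0,[(39,0),(6,0)]⟩,⟨0,[(0,0),(33,0)]⟩) .k 1 (⟨0,[]⟩,⟨0,[]⟩) .k (.r 1 ⟨1,[(8,1),
  (13,5),(31,2),(0,3),(3,2)]⟩ ⟨3,[(15,1),(20,2),(0,2),(19,1),(1,2)]⟩)) (.Q [0,0,0,0,0,1,0,0,0,-1,1,
  1] (.p true [0,0,1,0,1] [1] (⟨0,[(40,0),(6,0)]⟩,⟨0,[(1,0),(33,0)]⟩) .k 1 (⟨0,[]⟩,⟨0,[]⟩) .k (.r 1
  ⟨1,[(9,1),(13,5),(31,2),(0,3),(3,2)]⟩ ⟨31,[(0,19),(3,2),(0,6),(10,12),(16,6),(4,19),(16,4),(4,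
  8)]⟩)) (.Q [0,0,2,0,-1,0,-1,0,-1,1,-1,-1] (.p false [0,0,1,0,1] [1] (⟨0,[(41,0),(6,0)]⟩,⟨0,[(2,0),
  (33,0)]⟩) .k 1 (⟨0,[]⟩,⟨0,[]⟩) .k (.r 1 ⟨1,[(10,1),(13,5),(31,2),(0,3),(3,2)]⟩ ⟨31,[(1,19),(3,2),
  (0,6),(10,12),(16,6),(4,19),(16,4),(4,8)]⟩)) (.R ⟨0,false,false,false,[1,0,-1,0,-1],[0,1],[1,1,1],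
  (⟨0,[(3,0),(33,0)]⟩,⟨0,[(42,0),(6,0)]⟩),(⟨0,[(53,0)]⟩,⟨0,[(52,0)]⟩),⟨0,[(1,0)]⟩,.k,.k,(.r (-2) ⟨0,
  [(2,0),(2,0),(55,0)]⟩ ⟨4,[(15,2),(0,0),(7,0),(8,0)]⟩),(.r (-2) ⟨0,[(2,0),(2,0),(55,0)]⟩ ⟨4,[(15,
  2),(0,0),(7,0),(8,0)]⟩),.k,.k,⟨false,0,⟨2,[(26,1),(30,0),(0,0),(2,0)]⟩,⟨3,[(34,1),(26,0),(0,0)]⟩⟩,
  ⟨true,1,⟨0,[(5,0),(55,0)]⟩,⟨0,[(0,0)]⟩⟩,⟨true,(-2),⟨0,[(11,0),(13,1),(31,0),(0,0)]⟩,⟨9,[(2,3),(4,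
  1),(10,3),(21,3),(16,0),(3,3),(0,4)]⟩⟩,⟨false,0,⟨0,[(5,0),(6,0),(48,0)]⟩,⟨0,[(2,0)]⟩⟩,⟨false,0,⟨0,
  []⟩,⟨0,[]⟩⟩,⟨false,0,⟨0,[]⟩,⟨0,[]⟩⟩,[.o ⟨false,1,⟨39,[(20,1),(0,1),(12,15),(19,5),(2,18),(3,4)]⟩,
  ⟨0,[(60,0)]⟩⟩,.a ⟨true,1,⟨3,[(34,1),(26,0),(0,0)]⟩,⟨0,[(25,0)]⟩⟩ ⟨false,0,⟨0,[]⟩,⟨59,[(2,11),(4,
  5),(10,1),(16,9),(4,11),(13,9),(2,2),(3,26)]⟩⟩ ⟨true,1,⟨0,[(5,0),(52,0),(3,0)]⟩,⟨11,[(0,7),(3,3),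
  (10,2),(10,5),(5,0),(12,2),(11,0)]⟩⟩,.e ⟨false,0,⟨31,[(2,0),(2,0),(4,5),(6,3),(8,5),(8,4),(11,
  5)]⟩,⟨1,[(61,0),(0,0)]⟩⟩ ⟨false,1,⟨0,[(5,0),(52,0),(3,0)]⟩,⟨0,[(2,0),(12,0)]⟩⟩,.o ⟨false,0,⟨2,[(0,
  1),(3,0),(27,0),(24,0)]⟩,⟨0,[(5,0),(55,0)]⟩⟩]⟩) (.R ⟨0,false,false,false,[0,0,0,0,1],[0,1],[1,0,2,
  1],(⟨0,[(42,0)]⟩,⟨0,[(41,0)]⟩),(⟨0,[(53,0)]⟩,⟨0,[(52,0)]⟩),⟨0,[(3,0)]⟩,.k,.k,(.r 0 ⟨2,[(26,1),(30,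
  0),(0,0),(2,0)]⟩ ⟨3,[(2,0),(2,0),(28,1),(0,0)]⟩),(.r 0 ⟨2,[(26,1),(30,0),(0,0),(2,0)]⟩ ⟨3,[(2,0),
  (2,0),(28,1),(0,0)]⟩),.k,.k,⟨false,0,⟨0,[]⟩,⟨3,[(0,0),(1,0),(32,0),(18,0),(6,0)]⟩⟩,⟨true,1,⟨0,[(4,
  0)]⟩,⟨0,[(5,0),(17,0)]⟩⟩,⟨true,0,⟨38,[(10,7),(0,6),(5,12),(1,7),(15,5),(20,3),(5,12)]⟩,⟨1,[(26,1),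
  (30,0),(0,1),(2,0)]⟩⟩,⟨false,2,⟨8,[(4,6),(6,0),(5,0),(16,2),(4,1),(22,6)]⟩,⟨0,[(0,0),(18,0),(5,
  0)]⟩⟩,⟨false,0,⟨0,[]⟩,⟨0,[]⟩⟩,⟨false,0,⟨0,[]⟩,⟨0,[]⟩⟩,[.o ⟨false,1,⟨39,[(20,1),(0,1),(12,15),(19,
  5),(2,18),(3,4)]⟩,⟨0,[(60,0)]⟩⟩,.a ⟨true,1,⟨3,[(34,1),(26,0),(0,0)]⟩,⟨0,[(25,0)]⟩⟩ ⟨true,0,⟨38,
  [(10,7),(0,6),(5,12),(1,7),(15,5),(20,3),(5,12)]⟩,⟨2,[(26,1),(30,0),(0,0),(2,0)]⟩⟩ ⟨false,2,⟨3,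
  [(4,3),(29,1),(26,0),(0,0)]⟩,⟨0,[(0,0),(18,0),(5,0)]⟩⟩,.o ⟨false,0,⟨0,[(0,0),(18,0)]⟩,⟨0,[(39,
  0)]⟩⟩,.o ⟨false,0,⟨2,[(5,0),(13,0),(20,1),(16,0)]⟩,⟨0,[(4,0)]⟩⟩]⟩)) (.Q [0,0,0,-1,0,0,0,0,-1,1,0,
  -1] (.p false [0,0,0,0,1] [1] (⟨0,[(41,0)]⟩,⟨0,[(40,0)]⟩) .k 1 (⟨0,[]⟩,⟨0,[]⟩) .k .k) (.Q [0,-2,0,
  1,2,0,0,0,-1,-1,0,-1] (.p false [1,-1,0,0,1] [] (⟨0,[(42,0),(9,0)]⟩,⟨0,[(3,0)]⟩) (.r 0 ⟨2,[(26,1),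
  (30,0),(0,0),(2,0)]⟩ ⟨3,[(2,0),(2,0),(28,1),(0,0)]⟩) 0 (⟨0,[]⟩,⟨0,[]⟩) .k .k) (.Q [0,-2,0,0,1,0,0,
  0,-1,1,0,-1] (.p false [0,0,0,0,1] [1] (⟨0,[(43,0)]⟩,⟨0,[(42,0)]⟩) .k 1 (⟨0,[]⟩,⟨0,[]⟩) .k .k)
  (.R ⟨0,false,false,true,[1,-1,-1],[0,0,0,0,1],[0,1],(⟨0,[(39,0)]⟩,⟨136,[(0,0),(19,3),(7,5),(8,7),
  (4,0),(8,136),(3,49),(1,28),(0,10),(4,3)]⟩),(⟨0,[(44,0)]⟩,⟨0,[(43,0)]⟩),⟨2,[(11,1),(39,0),(0,0),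
  (4,2)]⟩,.k,.k,(.r (-2) ⟨17,[(4,13),(2,9),(0,1),(11,1),(7,11),(13,3),(16,6),(3,22)]⟩ ⟨0,[(18,0)]⟩),
  (.r (-2) ⟨0,[(4,0),(2,0),(55,0)]⟩ ⟨4,[(17,2),(0,0),(7,0),(8,0)]⟩),.k,.k,⟨false,1,⟨1,[(63,0),(0,
  0)]⟩,⟨22,[(12,0),(7,1),(7,2),(6,3),(13,0),(6,6),(2,0)]⟩⟩,⟨true,1,⟨0,[(7,0),(55,0)]⟩,⟨2,[(2,2),(10,
  0),(7,1),(0,0)]⟩⟩,⟨false,(-1),⟨0,[(14,0)]⟩,⟨0,[(4,0),(2,0),(55,0)]⟩⟩,⟨true,(-1),⟨0,[(7,0),(9,0),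
  (42,0)]⟩,⟨0,[(4,0)]⟩⟩,⟨false,0,⟨0,[]⟩,⟨0,[]⟩⟩,⟨false,0,⟨0,[]⟩,⟨0,[]⟩⟩,[.a ⟨true,(-1),⟨1,[(7,0),(9,
  0),(9,0),(14,0),(4,0),(12,0)]⟩,⟨0,[(0,0)]⟩⟩ ⟨false,0,⟨5,[(28,1),(30,0),(0,3),(2,0)]⟩,⟨49,[(4,11),
  (4,5),(10,1),(16,9),(4,11),(16,2),(3,1),(0,14)]⟩⟩ ⟨true,0,⟨2,[(7,2),(20,1),(30,0),(0,3),(2,0)]⟩,
  ⟨0,[(0,0),(20,0)]⟩⟩,.o ⟨false,0,⟨6,[(7,1),(9,1),(10,0),(13,4),(4,1),(11,2),(0,1)]⟩,⟨1,[(1,0),(0,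
  0)]⟩⟩,.e ⟨true,0,⟨22,[(12,0),(7,1),(7,2),(6,3),(13,0),(6,6),(2,0)]⟩,⟨0,[]⟩⟩ ⟨true,0,⟨2,[(7,2),(20,
  1),(30,0),(0,3),(2,0)]⟩,⟨0,[(4,0),(9,0)]⟩⟩,.o ⟨false,(-1),⟨0,[(21,0)]⟩,⟨9,[(4,1),(4,5),(10,1),(21,
  1),(16,2),(3,6)]⟩⟩]⟩) (.I [0,2,0,-1,-1] (.I [1,1,0,-1,-1,3] (.I [5,0,0,0,-1,6] (.I [0,1,0,2,0,-2,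
  -1,-1] (.I [2,0,0,1] (.C [(0,0),(4,0),(0,0),(25,1),(36,0)]) (.I [-1,2,0,-1,-1] (.C [(0,0),(5,0),
  (0,0),(56,0),(5,0)]) (.I [1,1,0,0,-1,0,0,0,1] (.C [(0,0),(7,0),(25,0),(16,0)]) (.C [(0,0),(0,0),
  (3,0),(1,0),(2,0),(7,0)])))) (.C [(0,0),(14,0),(10,0)])) (.C [(0,0),(59,1),(0,0)])) (.C [(0,0),
  (28,0),(29,0)])) (.C [(0,0),(0,0),(0,0),(25,1)]))) (.Q [0,0,0,0,0,0,0,0,1,-1,0,1] (.p true [0,0,0,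
  0,1] [1] (⟨0,[(43,0)]⟩,⟨0,[(42,0)]⟩) .k 1 (⟨0,[]⟩,⟨0,[]⟩) .k .k) (.R ⟨2,true,false,true,[0,1],[1,
  0,0,0,-1],[1,1,1,1],(⟨0,[]⟩,⟨0,[]⟩),(⟨0,[(43,0)]⟩,⟨0,[(44,0)]⟩),⟨0,[]⟩,.k,.k,.k,(.r 0 ⟨3,[(20,0),
  (8,0),(5,1)]⟩ ⟨1,[(62,1),(0,0),(0,0)]⟩),.k,.k,⟨false,0,⟨0,[(61,0)]⟩,⟨1,[(62,1),(0,0),(0,0)]⟩⟩,
  ⟨true,0,⟨4,[(2,4),(16,0),(6,0),(10,0)]⟩,⟨0,[(0,0)]⟩⟩,⟨false,0,⟨0,[]⟩,⟨49,[(4,11),(4,5),(10,1),(16,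
  9),(4,11),(16,2),(3,1),(0,14)]⟩⟩,⟨true,0,⟨0,[(2,0)]⟩,⟨17,[(0,12),(6,1),(14,4),(0,2),(11,1),(6,2),
  (13,3)]⟩⟩,⟨true,0,⟨0,[(61,0)]⟩,⟨0,[(62,0)]⟩⟩,⟨false,1,⟨31,[(2,21),(1,3),(1,5),(2,1),(26,11),(0,1),
  (20,3),(4,2),(0,6)]⟩,⟨0,[(0,0)]⟩⟩,[]⟩) (.R ⟨2,true,false,false,[0,1],[0,0,0,0,1],[1,1,1,1],(⟨0,
  []⟩,⟨0,[]⟩),(⟨0,[(44,0)]⟩,⟨0,[(43,0)]⟩),⟨0,[]⟩,.k,.k,.k,(.r (-1) ⟨3,[(4,0),(2,0),(28,1),(0,0)]⟩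
  ⟨2,[(1,0),(4,0),(21,0),(30,0),(3,0)]⟩),.k,.k,⟨true,0,⟨4,[(19,0),(6,0),(10,0)]⟩,⟨0,[(62,0)]⟩⟩,
  ⟨false,0,⟨0,[(42,0)]⟩,⟨0,[(6,0)]⟩⟩,⟨false,0,⟨0,[]⟩,⟨49,[(4,11),(4,5),(10,1),(16,9),(4,11),(16,2),
  (3,1),(0,14)]⟩⟩,⟨true,(-1),⟨1,[(1,1),(57,0),(4,0)]⟩,⟨3,[(6,2),(19,0),(9,0),(4,0)]⟩⟩,⟨true,0,⟨0,
  [(61,0)]⟩,⟨0,[(62,0)]⟩⟩,⟨false,0,⟨0,[(42,0)]⟩,⟨1,[(0,1),(58,0),(4,0)]⟩⟩,[]⟩))) (.R ⟨0,false,false,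
  false,[0,0,0,0,1],[0,1],[1,0,2,1],(⟨0,[(42,0)]⟩,⟨0,[(41,0)]⟩),(⟨0,[(53,0)]⟩,⟨0,[(52,0)]⟩),⟨0,[(3,
  0)]⟩,.k,.k,(.r 0 ⟨2,[(26,1),(30,0),(0,0),(2,0)]⟩ ⟨3,[(2,0),(2,0),(28,1),(0,0)]⟩),(.r 0 ⟨2,[(26,1),
  (30,0),(0,0),(2,0)]⟩ ⟨3,[(2,0),(2,0),(28,1),(0,0)]⟩),.k,.k,⟨false,0,⟨0,[]⟩,⟨59,[(2,11),(4,5),(10,
  1),(16,9),(4,11),(13,9),(2,2),(3,26)]⟩⟩,⟨true,1,⟨0,[(4,0)]⟩,⟨0,[(5,0),(17,0)]⟩⟩,⟨true,0,⟨38,[(10,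
  7),(0,6),(5,12),(1,7),(15,5),(20,3),(5,12)]⟩,⟨1,[(26,1),(30,0),(0,1),(2,0)]⟩⟩,⟨false,2,⟨8,[(4,6),
  (6,0),(5,0),(16,2),(4,1),(22,6)]⟩,⟨0,[(0,0),(25,0)]⟩⟩,⟨false,0,⟨0,[]⟩,⟨0,[]⟩⟩,⟨false,0,⟨0,[]⟩,⟨0,
  []⟩⟩,[.o ⟨false,1,⟨39,[(20,1),(0,1),(12,15),(19,5),(2,18),(3,4)]⟩,⟨0,[(60,0)]⟩⟩,.a ⟨true,1,⟨3,
  [(34,1),(26,0),(0,0)]⟩,⟨0,[(25,0)]⟩⟩ ⟨true,0,⟨38,[(10,7),(0,6),(5,12),(1,7),(15,5),(20,3),(5,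
  12)]⟩,⟨2,[(26,1),(30,0),(0,0),(2,0)]⟩⟩ ⟨false,2,⟨3,[(4,3),(29,1),(26,0),(0,0)]⟩,⟨0,[(0,0),(25,
  0)]⟩⟩,.o ⟨false,0,⟨0,[(0,0),(59,0)]⟩,⟨0,[(39,0)]⟩⟩,.o ⟨false,0,⟨2,[(5,0),(13,0),(20,1),(16,0)]⟩,
  ⟨0,[(4,0)]⟩⟩]⟩))) (.R ⟨0,false,false,false,[0,0,0,0,1],[0,1],[1,0,2,1],(⟨0,[(40,0)]⟩,⟨0,[(39,
  0)]⟩),(⟨0,[(51,0)]⟩,⟨0,[(50,0)]⟩),⟨0,[(1,0)]⟩,.k,.k,(.r 0 ⟨2,[(24,1),(30,0),(0,0),(2,0)]⟩ ⟨58,[(8,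
  1),(6,10),(0,9),(7,1),(8,30),(11,1),(14,19)]⟩),(.r 0 ⟨2,[(24,1),(30,0),(0,0),(2,0)]⟩ ⟨58,[(8,1),
  (6,10),(0,9),(7,1),(8,30),(11,1),(14,19)]⟩),.k,.k,⟨false,0,⟨0,[]⟩,⟨1,[(37,0),(0,0),(20,0)]⟩⟩,
  ⟨true,1,⟨0,[(2,0)]⟩,⟨0,[(3,0),(17,0)]⟩⟩,⟨true,0,⟨38,[(8,7),(0,6),(5,12),(1,7),(15,5),(20,3),(5,
  12)]⟩,⟨1,[(24,1),(30,0),(0,1),(2,0)]⟩⟩,⟨false,2,⟨8,[(2,6),(6,0),(5,0),(16,2),(4,1),(22,6)]⟩,⟨0,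
  [(0,0),(23,0),(18,0),(16,0)]⟩⟩,⟨false,0,⟨0,[]⟩,⟨0,[]⟩⟩,⟨false,0,⟨0,[]⟩,⟨0,[]⟩⟩,[.o ⟨false,1,⟨39,
  [(18,1),(0,1),(12,15),(19,5),(2,18),(3,4)]⟩,⟨0,[(58,0)]⟩⟩,.a ⟨true,1,⟨3,[(32,1),(26,0),(0,0)]⟩,⟨0,
  [(23,0)]⟩⟩ ⟨true,0,⟨38,[(8,7),(0,6),(5,12),(1,7),(15,5),(20,3),(5,12)]⟩,⟨2,[(24,1),(30,0),(0,0),
  (2,0)]⟩⟩ ⟨false,2,⟨3,[(2,3),(29,1),(26,0),(0,0)]⟩,⟨0,[(0,0),(23,0),(18,0),(16,0)]⟩⟩,.o ⟨false,0,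
  ⟨0,[(0,0),(42,0),(14,0),(1,0)]⟩,⟨0,[(37,0)]⟩⟩,.o ⟨false,0,⟨2,[(3,0),(13,0),(20,1),(16,0)]⟩,⟨0,[(2,
  0)]⟩⟩]⟩)))))) (.R ⟨0,false,false,true,[1,-1,-1],[0,0,1],[],(⟨0,[(30,0)]⟩,⟨99,[(11,3),(7,5),(8,7),
  (13,99),(0,15),(4,27),(0,10),(4,3),(0,0)]⟩),(⟨0,[(42,0)]⟩,⟨0,[(41,0)]⟩),⟨2,[(2,1),(39,0),(0,0),(4,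
  2)]⟩,.k,.k,(.r (-2) ⟨3,[(11,1),(20,0),(0,0),(19,9),(0,3),(0,0)]⟩ ⟨0,[(9,0)]⟩),(.r (-2) ⟨1,[(11,1),
  (41,3),(0,0),(0,0)]⟩ ⟨1,[(1,0),(3,0),(1,0),(21,0)]⟩),.k,.k,⟨false,2,⟨3,[(11,1),(20,0),(0,0),(19,
  1),(0,1),(0,2)]⟩,⟨0,[(8,0)]⟩⟩,⟨true,2,⟨0,[(3,0),(35,0),(14,1)]⟩,⟨0,[(0,0),(6,0)]⟩⟩,⟨true,(-1),⟨0,
  [(5,0)]⟩,⟨3,[(11,1),(7,1),(12,0),(0,0),(16,0),(2,1),(0,1)]⟩⟩,⟨false,0,⟨0,[(1,0)]⟩,⟨12,[(0,3),(10,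
  2),(7,7),(9,0),(8,15),(15,1),(0,19)]⟩⟩,⟨false,0,⟨0,[]⟩,⟨0,[]⟩⟩,⟨false,0,⟨0,[]⟩,⟨0,[]⟩⟩,[.o ⟨false,
  0,⟨0,[(21,0)]⟩,⟨0,[(38,0),(16,0)]⟩⟩,.e ⟨false,1,⟨1,[(54,0),(0,0)]⟩,⟨22,[(3,0),(7,1),(7,2),(6,3),
  (13,0),(6,6),(2,0)]⟩⟩ ⟨false,2,⟨3,[(1,1),(9,1),(11,3),(26,0),(3,3),(0,0)]⟩,⟨0,[(0,0)]⟩⟩,.a ⟨true,
  (-1),⟨0,[(16,0)]⟩,⟨0,[(39,0),(14,0)]⟩⟩ ⟨false,1,⟨1,[(32,0),(0,0),(21,0)]⟩,⟨0,[]⟩⟩ ⟨true,1,⟨5,[(1,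
  2),(9,2),(7,0),(1,1),(1,3),(26,0),(3,2)]⟩,⟨0,[(0,0)]⟩⟩,.o ⟨false,(-1),⟨0,[(12,0)]⟩,⟨0,[(3,0),(50,
  1)]⟩⟩]⟩)) (.Q [0,0,0,0,0,0,2,2,0,-1,2] (.p true [0,0,1] [1,0,-1] (⟨0,[(41,0)]⟩,⟨0,[(40,0)]⟩) .k 2
  (⟨0,[(40,0)]⟩,⟨0,[(41,0)]⟩) .k (.r 1 ⟨0,[(6,1),(46,0)]⟩ ⟨23,[(0,9),(9,25),(11,19),(4,3),(21,4),(3,
  1),(0,10)]⟩)) (.R ⟨1,true,false,true,[1,0,-1],[0,0,1],[0,0,0,-1,0,0,0,-1],(⟨0,[(41,0)]⟩,⟨0,[(42,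
  0)]⟩),(⟨0,[(42,0)]⟩,⟨0,[(41,0)]⟩),⟨0,[(30,0)]⟩,.k,.k,.k,.k,(.r (-2) ⟨1,[(11,1),(41,3),(0,0),(0,
  0)]⟩ ⟨1,[(0,0),(4,1),(23,0)]⟩),.k,⟨true,2,⟨0,[(11,0),(41,1),(1,0)]⟩,⟨0,[(5,0),(2,0)]⟩⟩,⟨false,2,
  ⟨1,[(0,1),(10,1),(41,1),(0,0),(0,0)]⟩,⟨0,[(1,0),(3,0),(1,0),(46,0)]⟩⟩,⟨true,0,⟨0,[(53,0)]⟩,⟨0,
  [(52,0)]⟩⟩,⟨false,0,⟨0,[(0,0)]⟩,⟨3,[(1,3),(25,1),(26,0),(0,0)]⟩⟩,⟨false,1,⟨15,[(1,1),(9,1),(11,3),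
  (4,3),(21,0),(3,1),(0,6)]⟩,⟨0,[]⟩⟩,⟨true,0,⟨1,[(0,0),(13,0),(22,0)]⟩,⟨0,[(1,0)]⟩⟩,[]⟩) (.Q [0,0,1,
  0,-1,0,0,0,1,0,0,1] (.p true [0,0,0,0,1] [] (⟨0,[(35,0)]⟩,⟨0,[(34,0)]⟩) .k 0 (⟨0,[]⟩,⟨0,[]⟩) .k
  .k) (.Q [0,0,0,0,0,1,0,0,0,0,0,-1] (.ed true [1,-1,0,0,1] .k) (.R ⟨0,false,false,false,[0,1,0,0,
  -1],[0,1],[0,1],(⟨0,[(0,0)]⟩,⟨0,[(37,0),(9,0)]⟩),(⟨0,[(48,0)]⟩,⟨0,[(47,0)]⟩),⟨0,[(37,0)]⟩,(.r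
  (-1) ⟨52,[(3,1),(1,1),(6,8),(0,7),(16,28),(10,1),(15,15)]⟩ ⟨2,[(21,1),(30,0),(0,0),(2,0)]⟩),.k,.k,
  .k,.k,.k,⟨true,0,⟨2,[(21,1),(30,0),(0,0),(2,0)]⟩,⟨38,[(5,7),(0,6),(5,12),(1,7),(15,5),(20,3),(5,
  12)]⟩⟩,⟨false,0,⟨0,[(1,0),(54,0)]⟩,⟨0,[(34,0)]⟩⟩,⟨false,0,⟨2,[(21,1),(30,0),(0,0),(2,0)]⟩,⟨10,[(6,
  0),(5,2),(16,0),(0,1),(26,8)]⟩⟩,⟨true,(-1),⟨5,[(1,5),(19,1),(30,0),(0,3),(2,0)]⟩,⟨0,[(34,0)]⟩⟩,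
  ⟨false,0,⟨0,[]⟩,⟨0,[]⟩⟩,⟨false,0,⟨0,[]⟩,⟨0,[]⟩⟩,[.o ⟨false,1,⟨39,[(15,1),(0,1),(12,15),(19,5),(2,
  18),(3,4)]⟩,⟨0,[(55,0)]⟩⟩,.e ⟨false,1,⟨16,[(3,1),(9,1),(11,3),(4,3),(18,0),(2,0),(3,9)]⟩,⟨0,[]⟩⟩
  ⟨false,0,⟨0,[(1,0),(51,0),(3,0)]⟩,⟨2,[(21,1),(12,2),(17,0),(0,0),(2,0)]⟩⟩,.o ⟨false,2,⟨1,[(34,1),
  (17,0),(3,0)]⟩,⟨0,[(1,0)]⟩⟩,.a ⟨true,1,⟨0,[(34,0)]⟩,⟨2,[(1,2),(18,0),(30,0),(1,0),(2,0),(0,0)]⟩⟩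
  ⟨true,0,⟨5,[(21,1),(30,0),(0,3),(2,0)]⟩,⟨7,[(3,0),(1,1),(15,0),(0,0),(7,1)]⟩⟩ ⟨false,0,⟨0,[(1,0),
  (51,0),(3,0)]⟩,⟨0,[(34,0),(20,0)]⟩⟩]⟩) (.S ⟨1,0,[0,0,1],[1,1,0,0,-1],[0,-1,1],(⟨99,[(13,3),(7,5),
  (8,7),(5,99),(8,15),(4,27),(0,10),(4,3),(0,0)]⟩,⟨0,[(0,0)]⟩),⟨0,[(36,0)]⟩,(.r (-1) ⟨52,[(3,1),(1,
  1),(6,8),(0,7),(16,28),(10,1),(15,15)]⟩ ⟨2,[(21,1),(30,0),(0,0),(2,0)]⟩),.k,⟨true,0,⟨0,[(55,0)]⟩,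
  ⟨0,[(54,0)]⟩⟩,⟨false,0,⟨0,[(55,0)]⟩,⟨3,[(29,1),(26,0),(0,0)]⟩⟩,⟨false,1,⟨15,[(3,1),(9,1),(11,3),
  (4,3),(21,0),(3,1),(0,6)]⟩,⟨0,[]⟩⟩,⟨true,0,⟨22,[(5,0),(7,1),(7,2),(6,3),(13,0),(6,6),(2,0)]⟩,⟨0,
  []⟩⟩,[.o ⟨false,1,⟨0,[(34,0)]⟩,⟨1,[(1,1),(50,0),(3,0)]⟩⟩,.e ⟨false,1,⟨0,[(57,0)]⟩,⟨0,[(49,0)]⟩⟩
  ⟨false,1,⟨15,[(3,1),(9,1),(11,3),(4,3),(21,0),(3,1),(0,6)]⟩,⟨5,[(21,1),(30,0),(0,3),(2,0)]⟩⟩,.a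
  ⟨true,1,⟨2,[(20,0),(13,2),(16,0),(1,0),(2,0),(0,0)]⟩,⟨0,[(1,0)]⟩⟩ ⟨false,1,⟨87,[(3,11),(1,27),(8,
  3),(6,5),(8,23),(20,4),(5,78)]⟩,⟨5,[(21,1),(30,0),(0,3),(2,0)]⟩⟩ ⟨true,0,⟨7,[(3,0),(1,1),(15,0),
  (0,0),(7,1)]⟩,⟨5,[(21,1),(30,0),(0,3),(2,0)]⟩⟩,.o ⟨false,1,⟨0,[(34,0)]⟩,⟨1,[(1,1),(50,0),(3,
  0)]⟩⟩]⟩)) (.Q [0,0,0,-1,0,0,2,2,0,-1,2] (.p true [0,0,1] [1,0,-1] (⟨0,[(43,0)]⟩,⟨0,[(42,0)]⟩) .k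
  2 (⟨0,[(42,0)]⟩,⟨0,[(43,0)]⟩) .k (.r 1 ⟨0,[(8,1),(46,0)]⟩ ⟨23,[(2,9),(9,25),(11,19),(4,3),(21,4),
  (3,1),(0,10)]⟩)) (.R ⟨1,true,false,true,[0,0,1],[1,0,-1],[0,0,0,-1,0,0,0,1],(⟨0,[(44,0)]⟩,⟨0,[(43,
  0)]⟩),(⟨0,[(43,0)]⟩,⟨0,[(44,0)]⟩),⟨0,[(33,0)]⟩,.k,.k,.k,.k,(.r 0 ⟨0,[(0,0),(26,0),(10,0)]⟩ ⟨5,[(2,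
  1),(2,3),(7,3),(37,0),(1,1),(3,2)]⟩),.k,⟨false,0,⟨1,[(9,3),(45,1),(0,2),(0,0)]⟩,⟨0,[(13,0)]⟩⟩,
  ⟨true,(-1),⟨0,[(2,0),(6,1),(46,0)]⟩,⟨2,[(0,1),(4,0),(7,1),(27,0),(15,0)]⟩⟩,⟨true,0,⟨0,[(55,0)]⟩,
  ⟨0,[(54,0)]⟩⟩,⟨false,0,⟨0,[(2,0)]⟩,⟨3,[(0,3),(28,1),(26,0),(0,0)]⟩⟩,⟨false,1,⟨15,[(3,1),(9,1),(11,
  3),(4,3),(21,0),(3,1),(0,6)]⟩,⟨0,[]⟩⟩,⟨true,0,⟨49,[(2,34),(10,7),(1,15),(3,3),(8,1),(2,6),(17,9),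
  (1,3)]⟩,⟨0,[(0,0)]⟩⟩,[]⟩) (.Q [0,0,0,0,0,0,0,0,0,0,-1,1] (.ed false [1,0,-1,0,1] (.r (-1) ⟨35,[(3,
  8),(9,22),(7,2),(3,17),(4,9),(18,9),(2,5)]⟩ ⟨1,[(9,1),(46,0),(0,0)]⟩)) (.Q [0,-1,0,0,1,0,0,0,-1,0,
  0,-1] (.p false [0,0,0,0,1] [] (⟨0,[(38,0)]⟩,⟨0,[(37,0)]⟩) .k 0 (⟨0,[]⟩,⟨0,[]⟩) .k .k) (.Q [0,0,0,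
  -2,0,0,2,2,0,-1,2] (.p true [0,0,1] [1,0,-1] (⟨0,[(46,0)]⟩,⟨0,[(45,0)]⟩) .k 2 (⟨0,[(45,0)]⟩,⟨0,
  [(46,0)]⟩) .k (.r 1 ⟨0,[(11,1),(46,0)]⟩ ⟨23,[(5,9),(9,25),(11,19),(4,3),(21,4),(3,1),(0,10)]⟩))
  (.R ⟨1,true,false,false,[0,0,1],[1,1,-1],[1,1,0,0,0,0,0,1],(⟨0,[(47,0)]⟩,⟨0,[(46,0)]⟩),(⟨99,[(16,
  3),(7,5),(8,7),(12,99),(1,15),(4,27),(0,10),(4,3),(0,0)]⟩,⟨0,[(36,0)]⟩),⟨0,[(36,0)]⟩,.k,.k,.k,(.r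
  0 ⟨3,[(0,2),(9,1),(19,1),(3,0),(6,1),(17,1)]⟩ ⟨7,[(3,1),(4,3),(7,5),(37,0),(5,2)]⟩),(.r 0 ⟨2,[(0,
  1),(5,1),(5,5),(46,5)]⟩ ⟨52,[(6,7),(1,7),(6,35),(0,31),(16,9),(10,7),(15,10)]⟩),.k,⟨true,(-1),⟨2,
  [(0,0),(5,0),(5,2),(0,2),(45,2)]⟩,⟨3,[(3,1),(4,3),(7,1),(37,0),(5,2)]⟩⟩,⟨false,0,⟨0,[(5,0),(6,1),
  (46,1)]⟩,⟨1,[(0,0),(7,0),(7,0),(27,0),(11,0),(3,0)]⟩⟩,⟨false,0,⟨0,[]⟩,⟨6,[(0,0),(5,0),(9,0),(16,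
  1),(25,0),(0,2)]⟩⟩,⟨true,0,⟨0,[(3,0)]⟩,⟨1,[(0,0),(25,0),(15,0)]⟩⟩,⟨true,0,⟨0,[(57,0)]⟩,⟨0,[(58,
  0)]⟩⟩,⟨false,1,⟨3,[(3,3),(28,1),(26,0),(0,0)]⟩,⟨0,[(0,0)]⟩⟩,[]⟩) (.Q [0,0,-1,0,1,0,1,0,-1,0,1,-1]
  (.p false [0,0,-1,0,1] [] (⟨0,[(2,0)]⟩,⟨0,[(39,0),(7,0)]⟩) .k 0 (⟨0,[]⟩,⟨0,[]⟩) .k (.r (-1) ⟨35,
  [(6,8),(9,22),(7,2),(3,17),(4,9),(18,9),(2,5)]⟩ ⟨1,[(12,1),(46,0),(0,0)]⟩)) (.R ⟨0,false,false,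
  true,[1,-1,-1],[1,0,0,0,-1],[0,1],(⟨0,[(36,0)]⟩,⟨99,[(17,3),(7,5),(8,7),(13,99),(0,15),(4,27),(0,
  10),(4,3),(0,0)]⟩),(⟨0,[(40,0)]⟩,⟨0,[(41,0)]⟩),⟨2,[(8,1),(39,0),(0,0),(4,2)]⟩,.k,.k,(.r (-2) ⟨3,
  [(7,1),(9,1),(11,3),(26,0),(2,3),(0,3),(0,0)]⟩ ⟨0,[(15,0)]⟩),(.r (-1) ⟨13,[(7,4),(9,6),(7,2),(3,
  9),(23,1),(2,3),(3,5)]⟩ ⟨2,[(11,1),(22,0),(26,0)]⟩),.k,.k,⟨false,0,⟨5,[(25,1),(30,0),(0,3),(2,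
  0)]⟩,⟨15,[(7,1),(9,1),(11,3),(4,3),(21,0),(3,1),(0,6)]⟩⟩,⟨true,1,⟨0,[(0,0)]⟩,⟨0,[(18,0),(20,0)]⟩⟩,
  ⟨false,(-1),⟨0,[(11,0)]⟩,⟨3,[(7,1),(9,1),(11,3),(26,0),(3,1),(0,2)]⟩⟩,⟨true,0,⟨0,[(0,0),(10,0)]⟩,
  ⟨12,[(7,4),(1,0),(15,3),(13,12),(4,2),(1,0),(6,2),(2,3)]⟩⟩,⟨false,0,⟨0,[]⟩,⟨0,[]⟩⟩,⟨false,0,⟨0,
  []⟩,⟨0,[]⟩⟩,[.a ⟨true,0,⟨0,[(0,0),(21,0)]⟩,⟨0,[(39,0)]⟩⟩ ⟨false,0,⟨5,[(25,1),(30,0),(0,3),(2,0)]⟩,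
  ⟨15,[(7,1),(9,1),(11,3),(4,3),(21,0),(3,1),(0,6)]⟩⟩ ⟨true,1,⟨0,[(0,0)]⟩,⟨0,[(18,0),(20,0)]⟩⟩,.e
  ⟨false,1,⟨16,[(7,1),(9,1),(11,3),(4,3),(18,0),(2,0),(3,9)]⟩,⟨0,[]⟩⟩ ⟨false,2,⟨1,[(0,1),(59,0),(0,
  0)]⟩,⟨1,[(14,0),(3,0),(20,1),(4,0)]⟩⟩,.e ⟨true,0,⟨22,[(9,0),(7,1),(7,2),(6,3),(13,0),(6,6),(2,
  0)]⟩,⟨0,[]⟩⟩ ⟨true,1,⟨0,[(0,0)]⟩,⟨1,[(14,0),(3,0),(20,1),(4,0)]⟩⟩,.o ⟨false,(-1),⟨0,[(18,0)]⟩,⟨1,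
  [(0,1),(38,1),(16,0),(3,0)]⟩⟩]⟩) (.Q [0,-2,0,0,1,0,-1,-1,-1,1,-1,-1] (.p false [-1,0,1,0,1] []
  (⟨2,[(3,1),(4,4),(32,0),(7,0),(4,2)]⟩,⟨0,[(40,0),(6,0)]⟩) .k 0 (⟨0,[]⟩,⟨0,[]⟩) .k (.r 1 ⟨1,[(10,
  1),(13,5),(31,2),(0,3),(3,2)]⟩ ⟨5,[(7,1),(9,3),(11,3),(4,1),(21,0),(3,0),(0,3)]⟩)) (.S ⟨1,0,[0,1,
  0,-1],[0,0,0,0,1],[1,2],(⟨0,[(42,0)]⟩,⟨0,[(41,0)]⟩),⟨1,[(4,0),(4,0),(32,0)]⟩,.k,(.r 0 ⟨2,[(26,1),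
  (30,0),(0,0),(2,0)]⟩ ⟨52,[(8,1),(1,1),(6,8),(0,7),(16,28),(10,1),(15,15)]⟩),⟨false,0,⟨0,[]⟩,⟨15,
  [(8,1),(9,1),(11,3),(4,3),(21,0),(3,1),(0,6)]⟩⟩,⟨true,0,⟨0,[(60,0)]⟩,⟨0,[(59,0)]⟩⟩,⟨true,0,⟨0,
  [(59,0)]⟩,⟨0,[(60,0)]⟩⟩,⟨false,1,⟨15,[(8,1),(9,1),(11,3),(4,3),(21,0),(3,1),(0,6)]⟩,⟨0,[]⟩⟩,[.o
  ⟨false,0,⟨0,[(25,0),(14,0),(16,0)]⟩,⟨1,[(0,0),(2,0),(17,0)]⟩⟩,.a ⟨true,0,⟨0,[(40,0),(19,0)]⟩,⟨0,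
  [(0,0),(20,0),(3,0)]⟩⟩ ⟨false,0,⟨5,[(26,1),(30,0),(0,3),(2,0)]⟩,⟨15,[(8,1),(9,1),(11,3),(4,3),(21,
  0),(3,1),(0,6)]⟩⟩ ⟨true,0,⟨0,[(60,0)]⟩,⟨4,[(17,0),(6,0),(10,0)]⟩⟩,.e ⟨false,0,⟨22,[(10,0),(7,1),
  (7,2),(6,3),(13,0),(6,6),(2,0)]⟩,⟨0,[(62,0)]⟩⟩ ⟨false,0,⟨0,[(60,0)]⟩,⟨3,[(34,1),(26,0),(0,0)]⟩⟩,
  .o ⟨false,0,⟨2,[(1,0),(8,0),(29,1),(16,0)]⟩,⟨0,[(6,0)]⟩⟩]⟩) (.Q [0,-1,0,1,1,0,0,0,-1,0,0,-1] (.p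
  false [0,0,0,0,1] [] (⟨0,[(42,0)]⟩,⟨0,[(41,0)]⟩) .k 0 (⟨0,[]⟩,⟨0,[]⟩) .k .k) (.S ⟨1,0,[0,0,1],[1,
  1,0,0,-1],[0,-1,1],(⟨99,[(19,3),(7,5),(8,7),(5,99),(8,15),(4,27),(0,10),(4,3),(0,0)]⟩,⟨1,[(5,0),
  (4,0),(32,0)]⟩),⟨0,[(42,0)]⟩,(.r (-1) ⟨52,[(9,1),(1,1),(6,8),(0,7),(16,28),(10,1),(15,15)]⟩ ⟨2,
  [(27,1),(30,0),(0,0),(2,0)]⟩),.k,⟨true,0,⟨0,[(61,0)]⟩,⟨0,[(60,0)]⟩⟩,⟨false,0,⟨0,[(61,0)]⟩,⟨3,[(35,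
  1),(26,0),(0,0)]⟩⟩,⟨false,1,⟨15,[(9,1),(9,1),(11,3),(4,3),(21,0),(3,1),(0,6)]⟩,⟨0,[]⟩⟩,⟨true,0,
  ⟨22,[(11,0),(7,1),(7,2),(6,3),(13,0),(6,6),(2,0)]⟩,⟨0,[]⟩⟩,[.a ⟨true,0,⟨0,[(0,0),(25,0)]⟩,⟨0,[(41,
  0)]⟩⟩ ⟨false,1,⟨15,[(9,1),(9,1),(11,3),(4,3),(21,0),(3,1),(0,6)]⟩,⟨5,[(27,1),(30,0),(0,3),(2,
  0)]⟩⟩ ⟨true,0,⟨7,[(9,0),(1,1),(15,0),(0,0),(7,1)]⟩,⟨0,[]⟩⟩,.o ⟨false,1,⟨0,[(4,0)]⟩,⟨2,[(1,0),(39,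
  1),(4,0),(11,0)]⟩⟩,.o ⟨false,1,⟨0,[(7,0)]⟩,⟨2,[(2,0),(8,0),(29,1),(16,0)]⟩⟩,.e ⟨false,1,⟨0,[(63,
  0)]⟩,⟨22,[(11,0),(7,1),(7,2),(6,3),(13,0),(6,6),(2,0)]⟩⟩ ⟨false,1,⟨15,[(9,1),(9,1),(11,3),(4,3),
  (21,0),(3,1),(0,6)]⟩,⟨0,[]⟩⟩]⟩) (.R ⟨2,true,false,false,[0,1],[0,0,0,0,1],[0,1,1],(⟨0,[]⟩,⟨0,[]⟩),
  (⟨0,[(43,0)]⟩,⟨0,[(42,0)]⟩),⟨0,[]⟩,.k,.k,.k,(.r (-1) ⟨52,[(9,1),(1,1),(6,8),(0,7),(16,28),(10,1),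
  (15,15)]⟩ ⟨2,[(27,1),(30,0),(0,0),(2,0)]⟩),.k,.k,⟨true,0,⟨7,[(9,0),(1,1),(15,0),(0,0),(7,1)]⟩,⟨0,
  []⟩⟩,⟨false,0,⟨0,[(41,0)]⟩,⟨0,[(7,0)]⟩⟩,⟨false,0,⟨0,[(61,0)]⟩,⟨3,[(35,1),(26,0),(0,0)]⟩⟩,⟨true,
  (-1),⟨0,[(0,0)]⟩,⟨3,[(7,2),(17,0),(9,0),(4,0)]⟩⟩,⟨true,0,⟨22,[(11,0),(7,1),(7,2),(6,3),(13,0),(6,
  6),(2,0)]⟩,⟨0,[]⟩⟩,⟨false,0,⟨0,[(41,0)]⟩,⟨0,[(4,0)]⟩⟩,[]⟩))))) (.S ⟨1,0,[0,2,0,-1],[0,0,0,0,1],[1,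
  1],(⟨0,[(39,0)]⟩,⟨0,[(38,0)]⟩),⟨1,[(1,0),(4,0),(32,0)]⟩,.k,(.r 0 ⟨2,[(23,1),(30,0),(0,0),(2,0)]⟩
  ⟨52,[(5,1),(1,1),(6,8),(0,7),(16,28),(10,1),(15,15)]⟩),⟨true,0,⟨0,[]⟩,⟨22,[(7,0),(7,1),(7,2),(6,
  3),(13,0),(6,6),(2,0)]⟩⟩,⟨false,0,⟨0,[(57,0)]⟩,⟨3,[(31,1),(26,0),(0,0)]⟩⟩,⟨false,1,⟨3,[(31,1),(26,
  0),(0,0)]⟩,⟨0,[(57,0)]⟩⟩,⟨true,0,⟨22,[(7,0),(7,1),(7,2),(6,3),(13,0),(6,6),(2,0)]⟩,⟨0,[]⟩⟩,[.o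
  ⟨false,(-1),⟨0,[(0,0),(21,0),(31,0)]⟩,⟨8,[(3,6),(4,0),(5,0),(16,2),(4,1),(22,6)]⟩⟩,.a ⟨true,(-1),
  ⟨0,[(0,0),(56,0)]⟩,⟨85,[(3,77),(4,13),(5,13),(16,21),(4,7),(10,19),(1,19),(3,32),(5,24)]⟩⟩ ⟨true,
  0,⟨0,[]⟩,⟨7,[(5,0),(1,1),(15,0),(0,0),(7,1)]⟩⟩ ⟨false,0,⟨2,[(23,1),(30,0),(0,0),(2,0)]⟩,⟨3,[(31,
  1),(26,0),(0,0)]⟩⟩,.o ⟨false,0,⟨1,[(0,1),(53,0),(4,0)]⟩,⟨0,[(36,0)]⟩⟩,.o ⟨false,0,⟨7,[(0,1),(6,1),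
  (8,1),(20,5),(16,2),(4,0)]⟩,⟨0,[(3,0)]⟩⟩]⟩)) (.Q [0,0,-1,0,1,0,1,0,-1,0,1,-1] (.p false [1,0,-1,0,
  1] [1] (⟨0,[(38,0),(5,0)]⟩,⟨0,[(0,0)]⟩) .k 1 (⟨0,[]⟩,⟨0,[]⟩) .k (.r (-1) ⟨35,[(4,8),(9,22),(7,2),
  (3,17),(4,9),(18,9),(2,5)]⟩ ⟨1,[(10,1),(46,0),(0,0)]⟩)) (.R ⟨0,false,false,true,[1,-1,-1],[1,0,0,
  0,-1],[0,1],(⟨0,[(34,0)]⟩,⟨99,[(15,3),(7,5),(8,7),(13,99),(0,15),(4,27),(0,10),(4,3),(0,0)]⟩),(⟨0,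
  [(38,0)]⟩,⟨0,[(39,0)]⟩),⟨2,[(6,1),(39,0),(0,0),(4,2)]⟩,.k,.k,(.r (-2) ⟨3,[(5,1),(9,1),(11,3),(26,
  0),(2,3),(0,3),(0,0)]⟩ ⟨0,[(13,0)]⟩),(.r (-1) ⟨13,[(5,4),(9,6),(7,2),(3,9),(23,1),(2,3),(3,5)]⟩
  ⟨2,[(9,1),(22,0),(26,0)]⟩),.k,.k,⟨false,0,⟨5,[(23,1),(30,0),(0,3),(2,0)]⟩,⟨15,[(5,1),(9,1),(11,3),
  (4,3),(21,0),(3,1),(0,6)]⟩⟩,⟨true,1,⟨0,[(0,0)]⟩,⟨0,[(16,0),(20,0)]⟩⟩,⟨false,(-1),⟨0,[(9,0)]⟩,⟨3,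
  [(5,1),(9,1),(11,3),(26,0),(3,1),(0,2)]⟩⟩,⟨true,0,⟨0,[(0,0),(8,0)]⟩,⟨12,[(5,4),(1,0),(15,3),(13,
  12),(4,2),(1,0),(6,2),(2,3)]⟩⟩,⟨false,0,⟨0,[]⟩,⟨0,[]⟩⟩,⟨false,0,⟨0,[]⟩,⟨0,[]⟩⟩,[.a ⟨true,0,⟨0,[(0,
  0),(19,0)]⟩,⟨0,[(37,0)]⟩⟩ ⟨false,0,⟨5,[(23,1),(30,0),(0,3),(2,0)]⟩,⟨15,[(5,1),(9,1),(11,3),(4,3),
  (21,0),(3,1),(0,6)]⟩⟩ ⟨true,1,⟨0,[(0,0)]⟩,⟨0,[(16,0),(20,0)]⟩⟩,.e ⟨false,1,⟨16,[(5,1),(9,1),(11,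
  3),(4,3),(18,0),(2,0),(3,9)]⟩,⟨0,[]⟩⟩ ⟨false,2,⟨1,[(0,1),(57,0),(0,0)]⟩,⟨1,[(12,0),(3,0),(20,1),
  (4,0)]⟩⟩,.e ⟨true,0,⟨22,[(7,0),(7,1),(7,2),(6,3),(13,0),(6,6),(2,0)]⟩,⟨0,[]⟩⟩ ⟨true,1,⟨0,[(0,0)]⟩,
  ⟨1,[(12,0),(3,0),(20,1),(4,0)]⟩⟩,.o ⟨false,(-1),⟨0,[(16,0)]⟩,⟨1,[(0,1),(36,1),(16,0),(3,0)]⟩⟩]⟩)
  (.Q [0,0,-1,0,0,0,0,0,1,0,0,1] (.p true [0,0,0,0,1] [] (⟨0,[(39,0)]⟩,⟨0,[(38,0)]⟩) .k 0 (⟨0,[]⟩,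
  ⟨0,[]⟩) .k .k) (.Q [0,0,0,0,0,1,0,0,0,0,0,-1] (.ed true [1,-1,0,0,1] .k) (.Q [0,0,0,0,0,0,0,0,1,
  -1,0,1] (.p true [0,0,0,0,1] [1] (⟨0,[(41,0)]⟩,⟨0,[(40,0)]⟩) .k 1 (⟨0,[]⟩,⟨0,[]⟩) .k .k) (.R ⟨0,
  false,false,false,[0,0,0,0,1],[0,1],[1,0,2,1],(⟨0,[(42,0)]⟩,⟨0,[(41,0)]⟩),(⟨0,[(53,0)]⟩,⟨0,[(52,
  0)]⟩),⟨0,[(1,0)]⟩,.k,.k,(.r 0 ⟨2,[(26,1),(30,0),(0,0),(2,0)]⟩ ⟨52,[(8,1),(1,1),(6,8),(0,7),(16,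
  28),(10,1),(15,15)]⟩),(.r 0 ⟨2,[(26,1),(30,0),(0,0),(2,0)]⟩ ⟨52,[(8,1),(1,1),(6,8),(0,7),(16,28),
  (10,1),(15,15)]⟩),.k,.k,⟨false,0,⟨0,[]⟩,⟨16,[(8,1),(9,1),(11,3),(4,3),(18,0),(2,0),(3,9)]⟩⟩,⟨true,
  1,⟨0,[(6,0)]⟩,⟨0,[(3,0),(42,0)]⟩⟩,⟨true,0,⟨38,[(10,7),(0,6),(5,12),(1,7),(15,5),(20,3),(5,12)]⟩,
  ⟨1,[(26,1),(30,0),(0,1),(2,0)]⟩⟩,⟨false,2,⟨8,[(6,6),(4,0),(5,0),(16,2),(4,1),(22,6)]⟩,⟨0,[(0,0),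
  (24,0)]⟩⟩,⟨false,0,⟨0,[]⟩,⟨0,[]⟩⟩,⟨false,0,⟨0,[]⟩,⟨0,[]⟩⟩,[.o ⟨false,1,⟨39,[(20,1),(0,1),(12,15),
  (19,5),(2,18),(3,4)]⟩,⟨0,[(60,0)]⟩⟩,.a ⟨true,1,⟨3,[(34,1),(26,0),(0,0)]⟩,⟨0,[(25,0)]⟩⟩ ⟨true,0,
  ⟨38,[(10,7),(0,6),(5,12),(1,7),(15,5),(20,3),(5,12)]⟩,⟨2,[(26,1),(30,0),(0,0),(2,0)]⟩⟩ ⟨false,2,
  ⟨3,[(6,3),(27,1),(26,0),(0,0)]⟩,⟨0,[(0,0),(24,0)]⟩⟩,.o ⟨false,0,⟨0,[(0,0)]⟩,⟨0,[(39,0)]⟩⟩,.o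
  ⟨false,0,⟨2,[(0,1),(9,0),(29,0),(6,0)]⟩,⟨0,[(6,0)]⟩⟩]⟩) (.S ⟨1,0,[0,1,1],[0,1,0,0,1],[1,2,1,1],
  (⟨99,[(18,3),(7,5),(8,7),(6,99),(7,15),(4,27),(0,10),(4,3),(0,0)]⟩,⟨0,[(4,0),(32,0)]⟩),⟨0,[(42,
  0)]⟩,(.r 0 ⟨3,[(18,0),(8,0),(5,1)]⟩ ⟨1,[(60,1),(0,0),(0,0)]⟩),.k,⟨false,0,⟨0,[]⟩,⟨15,[(8,1),(9,1),
  (11,3),(4,3),(21,0),(3,1),(0,6)]⟩⟩,⟨true,0,⟨0,[(60,0)]⟩,⟨0,[(59,0)]⟩⟩,⟨true,0,⟨0,[(59,0)]⟩,⟨0,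
  [(60,0)]⟩⟩,⟨false,1,⟨15,[(8,1),(9,1),(11,3),(4,3),(21,0),(3,1),(0,6)]⟩,⟨0,[]⟩⟩,[.o ⟨false,0,⟨5,
  [(2,2),(0,1),(6,1),(29,0),(13,2),(2,1)]⟩,⟨1,[(0,1),(56,0),(4,0)]⟩⟩,.a ⟨true,0,⟨0,[(40,0)]⟩,⟨0,[(0,
  0)]⟩⟩ ⟨false,0,⟨0,[(59,0)]⟩,⟨1,[(60,1),(0,0),(0,0)]⟩⟩ ⟨true,0,⟨7,[(8,0),(1,1),(15,0),(0,0),(7,
  1)]⟩,⟨0,[]⟩⟩,.a ⟨true,0,⟨0,[(2,0)]⟩,⟨22,[(0,20),(7,0),(1,3),(6,2),(1,1),(6,4),(8,4),(3,1)]⟩⟩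
  ⟨true,(-1),⟨7,[(20,0),(1,0),(1,4),(0,4),(28,1),(2,1)]⟩,⟨1,[(60,1),(0,0),(0,0)]⟩⟩ ⟨false,0,⟨7,[(8,
  0),(1,1),(15,0),(0,0),(7,1)]⟩,⟨1,[(61,0),(0,0)]⟩⟩,.a ⟨true,0,⟨0,[(40,0)]⟩,⟨0,[(0,0)]⟩⟩ ⟨false,0,
  ⟨0,[(59,0)]⟩,⟨0,[(60,0),(1,0)]⟩⟩ ⟨true,0,⟨22,[(10,0),(7,1),(7,2),(6,3),(13,0),(6,6),(2,0)]⟩,⟨0,
  []⟩⟩]⟩)) (.Q [0,0,0,0,0,1,0,0,0,0,-1,1] (.p true [1,0,-1,0,1] [1] (⟨0,[(41,0),(5,0)]⟩,⟨0,[(3,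
  0)]⟩) .k 1 (⟨0,[]⟩,⟨0,[]⟩) .k (.r (-1) ⟨35,[(7,8),(9,22),(7,2),(3,17),(4,9),(18,9),(2,5)]⟩ ⟨1,
  [(13,1),(46,0),(0,0)]⟩)) (.R ⟨0,false,false,true,[0,0,1,0,-1],[1,-1],[1,0,1],(⟨0,[(4,0)]⟩,⟨0,[(0,
  0),(51,0)]⟩),(⟨0,[(52,0)]⟩,⟨0,[(53,0)]⟩),⟨0,[(0,0)]⟩,.k,.k,(.r (-1) ⟨1,[(30,1),(1,1),(28,0),(0,
  0)]⟩ ⟨1,[(18,0),(8,0)]⟩),(.r 0 ⟨2,[(12,1),(22,0),(26,0)]⟩ ⟨13,[(8,4),(9,6),(7,2),(3,9),(23,1),(2,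
  3),(3,5)]⟩),.k,.k,⟨true,0,⟨38,[(10,7),(0,6),(5,12),(1,7),(15,5),(20,3),(5,12)]⟩,⟨2,[(26,1),(30,0),
  (0,0),(2,0)]⟩⟩,⟨false,(-1),⟨0,[(2,0),(20,0)]⟩,⟨0,[(6,0),(3,0),(50,0)]⟩⟩,⟨true,0,⟨23,[(8,1),(1,7),
  (7,8),(7,5),(0,2),(5,1),(11,3)]⟩,⟨0,[(14,0),(46,0)]⟩⟩,⟨false,(-1),⟨3,[(2,1),(0,1),(4,0),(9,0),(6,
  1),(0,0)]⟩,⟨3,[(6,3),(3,0),(0,0),(10,2),(39,4)]⟩⟩,⟨false,0,⟨0,[]⟩,⟨0,[]⟩⟩,⟨false,0,⟨0,[]⟩,⟨0,[]⟩⟩,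
  [.e ⟨false,0,⟨0,[]⟩,⟨16,[(8,1),(9,1),(11,3),(4,3),(18,0),(2,0),(3,9)]⟩⟩ ⟨false,(-1),⟨6,[(2,4),(0,
  1),(4,0),(6,1),(10,2),(16,2),(10,0)]⟩,⟨0,[(6,0),(3,0),(47,0),(3,0)]⟩⟩,.o ⟨false,0,⟨0,[(60,0)]⟩,
  ⟨39,[(20,1),(0,1),(12,15),(19,5),(2,18),(3,4)]⟩⟩,.a ⟨true,1,⟨0,[(6,0),(39,0)]⟩,⟨0,[(2,0),(20,
  0)]⟩⟩ ⟨true,0,⟨7,[(8,0),(1,1),(15,0),(0,0),(7,1)]⟩,⟨5,[(26,1),(30,0),(0,3),(2,0)]⟩⟩ ⟨false,(-1),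
  ⟨11,[(2,3),(0,7),(22,5),(16,3),(12,0),(5,2)]⟩,⟨0,[(6,0),(3,0),(47,0),(3,0)]⟩⟩,.o ⟨false,1,⟨0,[(6,
  0),(3,0)]⟩,⟨0,[(2,0),(29,0)]⟩⟩]⟩) (.R ⟨0,false,false,false,[0,-1,0,0,1],[0,0,1],[1,1,1],(⟨0,[(1,
  0)]⟩,⟨99,[(18,3),(7,5),(8,7),(5,99),(8,15),(4,27),(0,10),(4,3),(0,0)]⟩),(⟨0,[(49,0)]⟩,⟨0,[(48,
  0)]⟩),⟨2,[(0,1),(36,1),(3,0),(8,0),(4,2)]⟩,(.r 0 ⟨2,[(26,1),(30,0),(0,0),(2,0)]⟩ ⟨52,[(8,1),(1,1),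
  (6,8),(0,7),(16,28),(10,1),(15,15)]⟩),.k,(.r (-1) ⟨13,[(8,7),(17,1),(3,15),(23,5),(2,4),(3,10)]⟩
  ⟨45,[(11,19),(5,19),(2,1),(0,1),(12,11),(21,0),(5,8)]⟩),(.r (-1) ⟨13,[(8,4),(9,6),(7,2),(3,9),(23,
  1),(2,3),(3,5)]⟩ ⟨2,[(12,1),(22,0),(26,0)]⟩),.k,.k,⟨true,0,⟨23,[(8,1),(1,7),(7,8),(7,5),(0,2),(5,
  1),(11,3)]⟩,⟨1,[(14,1),(46,0),(0,0)]⟩⟩,⟨false,2,⟨0,[(6,0),(39,0),(14,0)]⟩,⟨0,[(3,0)]⟩⟩,⟨false,0,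
  ⟨38,[(10,7),(0,6),(5,12),(1,7),(15,5),(20,3),(5,12)]⟩,⟨0,[(60,0),(0,0)]⟩⟩,⟨true,1,⟨5,[(6,5),(4,1),
  (9,1),(7,1),(16,1),(9,0),(5,2)]⟩,⟨3,[(2,2),(0,0),(3,0),(2,0),(9,0),(4,5),(19,0),(11,2)]⟩⟩,⟨false,
  0,⟨0,[]⟩,⟨0,[]⟩⟩,⟨false,0,⟨0,[]⟩,⟨0,[]⟩⟩,[.a ⟨true,0,⟨0,[(29,0)]⟩,⟨36,[(7,10),(0,5),(9,2),(16,2),
  (7,2),(6,4),(1,4),(3,5)]⟩⟩ ⟨false,0,⟨22,[(10,0),(7,1),(7,2),(6,3),(13,0),(6,6),(2,0)]⟩,⟨1,[(61,0),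
  (0,0)]⟩⟩ ⟨true,1,⟨0,[(6,0),(22,0)]⟩,⟨3,[(2,2),(0,0),(3,2),(2,2),(0,1),(13,1),(31,0)]⟩⟩,.o ⟨false,
  1,⟨1,[(29,1),(27,0),(4,0)]⟩,⟨0,[(45,0)]⟩⟩,.o ⟨false,0,⟨2,[(3,0),(6,0),(29,1),(16,0)]⟩,⟨0,[(6,
  0)]⟩⟩,.e ⟨false,0,⟨0,[]⟩,⟨15,[(8,1),(9,1),(11,3),(4,3),(21,0),(3,1),(0,6)]⟩⟩ ⟨false,2,⟨1,[(6,1),
  (22,1),(31,0),(0,0)]⟩,⟨3,[(2,2),(0,0),(3,2),(2,2),(0,1),(13,1),(31,0)]⟩⟩]⟩))) (.Q [0,0,0,0,0,1,0,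
  0,0,0,0,-1] (.ed true [1,-1,0,0,1] .k) (.R ⟨0,false,false,false,[0,0,0,0,1],[0,1],[],(⟨0,[(41,
  0)]⟩,⟨0,[(40,0)]⟩),(⟨0,[(52,0)]⟩,⟨0,[(51,0)]⟩),⟨0,[(0,0)]⟩,.k,.k,(.r 0 ⟨2,[(25,1),(30,0),(0,0),(2,
  0)]⟩ ⟨52,[(7,1),(1,1),(6,8),(0,7),(16,28),(10,1),(15,15)]⟩),(.r 0 ⟨2,[(25,1),(30,0),(0,0),(2,0)]⟩
  ⟨52,[(7,1),(1,1),(6,8),(0,7),(16,28),(10,1),(15,15)]⟩),.k,.k,⟨false,1,⟨0,[(59,0),(0,0)]⟩,⟨4,[(16,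
  0),(6,0),(10,0)]⟩⟩,⟨true,1,⟨0,[(5,0)]⟩,⟨0,[(2,0),(42,0)]⟩⟩,⟨false,1,⟨0,[(61,0)]⟩,⟨22,[(9,0),(7,1),
  (7,2),(6,3),(13,0),(6,6),(2,0)]⟩⟩,⟨true,1,⟨0,[(1,0),(55,0),(3,0)]⟩,⟨5,[(2,0),(6,0),(14,8),(14,4),
  (16,3),(0,2)]⟩⟩,⟨false,0,⟨0,[]⟩,⟨0,[]⟩⟩,⟨false,0,⟨0,[]⟩,⟨0,[]⟩⟩,[.o ⟨false,1,⟨39,[(19,1),(0,1),
  (12,15),(19,5),(2,18),(3,4)]⟩,⟨0,[(59,0)]⟩⟩,.a ⟨true,1,⟨3,[(33,1),(26,0),(0,0)]⟩,⟨0,[(24,0)]⟩⟩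
  ⟨false,1,⟨1,[(60,0),(0,0)]⟩,⟨22,[(9,0),(7,1),(7,2),(6,3),(13,0),(6,6),(2,0)]⟩⟩ ⟨true,1,⟨0,[(1,0),
  (55,0),(3,0)]⟩,⟨2,[(2,0),(6,0),(14,2),(14,1),(16,0)]⟩⟩,.e ⟨false,1,⟨15,[(7,1),(9,1),(11,3),(4,3),
  (21,0),(3,1),(0,6)]⟩,⟨0,[]⟩⟩ ⟨false,1,⟨0,[(1,0),(55,0),(3,0)]⟩,⟨0,[(39,0),(19,0)]⟩⟩,.o ⟨false,0,
  ⟨2,[(2,0),(6,0),(29,1),(16,0)]⟩,⟨0,[(5,0)]⟩⟩]⟩) (.S ⟨1,0,[0,1,0,-1],[0,0,0,0,1],[1,2],(⟨0,[(41,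
  0)]⟩,⟨0,[(40,0)]⟩),⟨0,[(0,0)]⟩,.k,(.r 0 ⟨2,[(25,1),(30,0),(0,0),(2,0)]⟩ ⟨52,[(7,1),(1,1),(6,8),(0,
  7),(16,28),(10,1),(15,15)]⟩),⟨false,0,⟨0,[]⟩,⟨15,[(7,1),(9,1),(11,3),(4,3),(21,0),(3,1),(0,6)]⟩⟩,
  ⟨true,0,⟨0,[(59,0)]⟩,⟨0,[(58,0)]⟩⟩,⟨true,0,⟨0,[(58,0)]⟩,⟨0,[(59,0)]⟩⟩,⟨false,1,⟨15,[(7,1),(9,1),
  (11,3),(4,3),(21,0),(3,1),(0,6)]⟩,⟨0,[]⟩⟩,[.o ⟨false,0,⟨0,[(24,0),(14,0),(16,0)]⟩,⟨0,[(1,0),(55,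
  0),(3,0)]⟩⟩,.a ⟨true,0,⟨0,[(39,0),(19,0)]⟩,⟨1,[(1,1),(53,0),(1,1),(3,0)]⟩⟩ ⟨false,0,⟨5,[(25,1),
  (30,0),(0,3),(2,0)]⟩,⟨15,[(7,1),(9,1),(11,3),(4,3),(21,0),(3,1),(0,6)]⟩⟩ ⟨true,0,⟨0,[(59,0)]⟩,⟨4,
  [(16,0),(6,0),(10,0)]⟩⟩,.e ⟨false,0,⟨22,[(9,0),(7,1),(7,2),(6,3),(13,0),(6,6),(2,0)]⟩,⟨0,[(61,
  0)]⟩⟩ ⟨false,0,⟨0,[(59,0)]⟩,⟨3,[(33,1),(26,0),(0,0)]⟩⟩,.o ⟨false,0,⟨2,[(2,0),(6,0),(29,1),(16,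
  0)]⟩,⟨0,[(5,0)]⟩⟩]⟩)))))))))))) (.N [0,1,1] 1 ⟨0,[(1,0)]⟩ ⟨0,[(0,0)]⟩ .k)) (.S ⟨1,0,[0,1,1,0,0,0,
  0,1],[0,1,1],[1,0,1,1,0,0,0,1],(⟨28,[(0,1),(19,0),(1,0),(13,28),(3,10),(1,5),(0,2)]⟩,⟨0,[(24,
  0)]⟩),⟨0,[(36,0)]⟩,.k,.k,⟨true,0,⟨0,[]⟩,⟨47,[(5,4),(7,7),(0,0),(5,9),(20,11),(2,3)]⟩⟩,⟨false,0,⟨0,
  [(47,0)]⟩,⟨3,[(21,1),(26,0),(0,0)]⟩⟩,⟨false,1,⟨3,[(21,1),(26,0),(0,0)]⟩,⟨0,[(47,0)]⟩⟩,⟨true,0,⟨47,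
  [(5,4),(7,7),(0,0),(5,9),(20,11),(2,3)]⟩,⟨0,[]⟩⟩,[.o ⟨false,0,⟨0,[(15,0)]⟩,⟨0,[(32,0),(16,0)]⟩⟩,
  .a ⟨true,0,⟨0,[(16,0)]⟩,⟨3,[(0,1),(6,0),(2,1),(21,0),(10,0),(5,0)]⟩⟩ ⟨false,0,⟨0,[(1,0),(43,0),(3,
  0)]⟩,⟨32,[(0,31),(4,3),(7,5),(6,6),(20,7),(2,2)]⟩⟩ ⟨true,(-1),⟨0,[(1,0)]⟩,⟨14,[(0,9),(3,1),(0,2),
  (0,0),(15,2),(10,0)]⟩⟩,.e ⟨false,0,⟨14,[(1,5),(1,3),(4,1),(13,2),(7,1),(18,6)]⟩,⟨0,[(0,0)]⟩⟩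
  ⟨false,(-1),⟨0,[(1,0)]⟩,⟨3,[(0,3),(20,1),(26,0),(0,0)]⟩⟩,.o ⟨false,1,⟨3,[(0,1),(8,1),(23,1),(10,
  0),(4,0)]⟩,⟨0,[(19,0)]⟩⟩]⟩)))

theorem ok116 : chk K t116 r66 = true := by decide +kernel

noncomputable def t118 : Tre :=
  (.N [0,2,1] 1 ⟨1,[(3,1),(1,1),(34,0),(5,0)]⟩ ⟨0,[(0,0)]⟩ (.x (-2) ⟨11,[(0,7),(1,1),(2,1),(0,9),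
  (14,17),(0,5),(18,2),(3,3),(0,6)]⟩ ⟨159,[(1,23),(1,93),(3,59),(2,35),(8,23),(0,2),(12,159),(0,22),
  (4,98),(6,5)]⟩))

theorem ok118 : chk K t118 r65 = true := by decide +kernel

noncomputable def t121 : Tre :=
  (.Q [0,0,-1,0,1,0,2,1,0,-1,2] (.p true [0,0,1] [1,0,-1] (⟨0,[(31,0)]⟩,⟨0,[(30,0)]⟩) .k 2 (⟨0,[(30,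
  0)]⟩,⟨0,[(31,0)]⟩) .k (.r 1 ⟨31,[(0,26),(2,6),(2,4),(8,2),(9,6),(10,5)]⟩ ⟨0,[(27,1),(0,1),(14,0),
  (0,0)]⟩)) (.Q [0,0,0,0,0,2,0,0,0,-1,1] (.p true [0,0,1] [1] (⟨0,[(32,0)]⟩,⟨0,[(31,0)]⟩) .k 1 (⟨0,
  []⟩,⟨0,[]⟩) .k .k) (.R ⟨0,false,false,false,[1,-1,-1],[0,-1,1],[0,1],(⟨0,[(21,0)]⟩,⟨22,[(23,2),(0,
  2),(8,22),(0,4),(4,5),(0,2)]⟩),(⟨0,[(22,0)]⟩,⟨22,[(23,2),(0,2),(7,22),(1,4),(4,5),(0,2)]⟩),⟨0,[(0,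
  0)]⟩,.k,.k,(.r (-2) ⟨1,[(1,1),(8,1),(18,3),(15,0),(0,2)]⟩ ⟨39,[(2,19),(1,1),(0,1),(2,33),(9,11),
  (21,0),(5,2)]⟩),.k,.k,.k,⟨true,0,⟨1,[(4,0),(24,0),(0,1)]⟩,⟨15,[(2,5),(11,3),(5,1),(20,0),(2,5),(1,
  4)]⟩⟩,⟨false,2,⟨1,[(1,1),(27,1),(0,1),(14,0),(0,0)]⟩,⟨1,[(2,1),(1,0),(24,2),(10,0),(5,0)]⟩⟩,
  ⟨false,(-1),⟨0,[(2,0),(1,0),(25,0)]⟩,⟨1,[(1,0),(8,0),(18,2),(0,0),(14,0),(0,2)]⟩⟩,⟨true,0,⟨1,[(1,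
  1),(0,0),(8,0)]⟩,⟨3,[(4,0),(4,1),(19,6),(10,0),(5,2)]⟩⟩,⟨false,0,⟨0,[]⟩,⟨0,[]⟩⟩,⟨false,0,⟨0,[]⟩,
  ⟨0,[]⟩⟩,[.a ⟨true,0,⟨0,[(14,0)]⟩,⟨3,[(4,2),(4,1),(19,0),(10,0),(5,2)]⟩⟩ ⟨false,0,⟨5,[(10,1),(30,
  0),(0,3),(2,0)]⟩,⟨1,[(23,0),(0,0),(21,0)]⟩⟩ ⟨true,1,⟨0,[(1,0),(42,0)]⟩,⟨3,[(3,3),(0,2),(4,1),(19,
  0),(10,0),(5,2)]⟩⟩,.o ⟨false,1,⟨1,[(14,1),(26,0),(4,0)]⟩,⟨0,[(15,0)]⟩⟩,.e ⟨true,0,⟨0,[(48,0)]⟩,⟨0,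
  []⟩⟩ ⟨true,1,⟨0,[(1,0),(42,0)]⟩,⟨1,[(4,0),(2,1),(21,0)]⟩⟩,.o ⟨false,(-1),⟨0,[(3,0)]⟩,⟨1,[(1,1),
  (27,1),(15,0),(0,0)]⟩⟩]⟩) (.I [0,0,-2,-2,0,0,0,1] (.Q [0,-1,-1,-1,0,0,-1,0,0,1,-1] (.p false [0,0,
  1] [1] (⟨0,[(34,0)]⟩,⟨0,[(33,0)]⟩) .k 1 (⟨0,[]⟩,⟨0,[]⟩) .k .k) (.R ⟨0,false,false,false,[0,-1,1],
  [1,-1],[1],(⟨0,[(24,0)]⟩,⟨22,[(25,2),(0,2),(7,22),(1,4),(4,5),(0,2)]⟩),(⟨0,[(38,0)]⟩,⟨0,[(39,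
  0)]⟩),⟨2,[(2,0),(20,1),(12,0),(4,2)]⟩,.k,.k,(.r 0 ⟨0,[(1,0)]⟩ ⟨0,[(20,0),(10,0),(0,0)]⟩),.k,.k,.k,
  ⟨true,0,⟨2,[(13,0),(6,0)]⟩,⟨0,[(46,0)]⟩⟩,⟨false,0,⟨0,[(29,0)]⟩,⟨3,[(3,1),(27,1),(0,1),(10,0),(4,
  0)]⟩⟩,⟨false,1,⟨1,[(6,0),(24,0),(0,1),(15,1)]⟩,⟨36,[(1,21),(2,2),(2,0),(11,4),(1,2),(7,0)]⟩⟩,
  ⟨true,0,⟨3,[(6,0),(4,1),(19,2),(10,0),(5,2)]⟩,⟨0,[(14,0)]⟩⟩,⟨false,0,⟨0,[]⟩,⟨0,[]⟩⟩,⟨false,0,⟨0,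
  []⟩,⟨0,[]⟩⟩,[.o ⟨false,0,⟨0,[(46,0)]⟩,⟨39,[(6,1),(0,1),(12,15),(19,5),(2,18),(3,4)]⟩⟩,.a ⟨true,0,
  ⟨3,[(12,1),(29,0),(5,2)]⟩,⟨0,[(45,0)]⟩⟩ ⟨false,1,⟨1,[(47,0),(0,0)]⟩,⟨0,[(50,0)]⟩⟩ ⟨true,0,⟨0,[(0,
  0)]⟩,⟨11,[(10,2),(2,3),(6,0),(11,11),(7,2),(2,5)]⟩⟩,.a ⟨true,0,⟨0,[(32,0)]⟩,⟨0,[(29,0)]⟩⟩ ⟨true,0,
  ⟨0,[]⟩,⟨0,[(50,0)]⟩⟩ ⟨false,0,⟨0,[(0,0)]⟩,⟨13,[(3,1),(2,0),(13,5),(10,0),(0,11),(7,1),(2,5)]⟩⟩,.a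
  ⟨true,0,⟨1,[(32,2),(0,0)]⟩,⟨0,[(0,0),(43,0)]⟩⟩ ⟨false,1,⟨1,[(47,0),(0,0)]⟩,⟨1,[(32,0),(0,0)]⟩⟩
  ⟨true,0,⟨4,[(0,3),(0,0),(9,0),(19,0),(12,1),(2,0)]⟩,⟨11,[(10,2),(2,3),(6,0),(11,11),(7,2),(2,
  5)]⟩⟩]⟩) (.R ⟨0,false,false,false,[0,-1,1],[1,-1],[1],(⟨0,[(24,0)]⟩,⟨22,[(25,2),(0,2),(7,22),(1,
  4),(4,5),(0,2)]⟩),(⟨0,[(38,0)]⟩,⟨0,[(39,0)]⟩),⟨2,[(2,0),(20,1),(12,0),(4,2)]⟩,.k,.k,(.r 0 ⟨0,[(1,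
  0)]⟩ ⟨0,[(20,0),(10,0),(0,0)]⟩),.k,.k,.k,⟨true,0,⟨2,[(13,0),(6,0)]⟩,⟨0,[(46,0)]⟩⟩,⟨false,0,⟨0,
  [(29,0)]⟩,⟨3,[(3,1),(27,1),(0,1),(10,0),(4,0)]⟩⟩,⟨false,1,⟨1,[(6,0),(24,0),(0,1),(15,1)]⟩,⟨36,[(1,
  21),(2,2),(2,0),(11,4),(1,2),(7,0)]⟩⟩,⟨true,0,⟨3,[(6,0),(4,1),(19,2),(10,0),(5,2)]⟩,⟨0,[(14,0)]⟩⟩,
  ⟨false,0,⟨0,[]⟩,⟨0,[]⟩⟩,⟨false,0,⟨0,[]⟩,⟨0,[]⟩⟩,[.o ⟨false,0,⟨0,[(46,0)]⟩,⟨39,[(6,1),(0,1),(12,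
  15),(19,5),(2,18),(3,4)]⟩⟩,.e ⟨false,1,⟨1,[(47,0),(0,0)]⟩,⟨0,[(50,0)]⟩⟩ ⟨false,1,⟨11,[(1,1),(10,
  3),(9,1),(6,5),(1,1),(15,6),(0,8)]⟩,⟨0,[(0,0)]⟩⟩,.e ⟨true,0,⟨0,[]⟩,⟨0,[(50,0)]⟩⟩ ⟨true,0,⟨11,[(1,
  1),(10,3),(9,1),(6,5),(1,1),(15,0),(0,2)]⟩,⟨0,[(0,0)]⟩⟩,.a ⟨true,0,⟨1,[(32,2),(0,0)]⟩,⟨1,[(1,1),
  (4,1),(35,0),(5,0)]⟩⟩ ⟨false,1,⟨1,[(47,0),(0,0)]⟩,⟨1,[(32,0),(0,0)]⟩⟩ ⟨true,0,⟨1,[(1,1),(4,0),(24,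
  0),(10,0),(5,0)]⟩,⟨1,[(0,1),(31,0),(0,0)]⟩⟩]⟩)) (.Q [0,0,2,0,0,0,1,0,0,-1,1] (.p true [0,0,1] [1]
  (⟨0,[(34,0)]⟩,⟨0,[(33,0)]⟩) .k 1 (⟨0,[]⟩,⟨0,[]⟩) .k .k) (.I [0,0,2,2,0,0,0,-1] (.R ⟨0,false,false,
  false,[0,-1,1],[1,-1],[],(⟨0,[(25,0)]⟩,⟨22,[(26,2),(0,2),(7,22),(1,4),(4,5),(0,2)]⟩),(⟨0,[(39,
  0)]⟩,⟨0,[(40,0)]⟩),⟨2,[(3,0),(20,1),(12,0),(4,2)]⟩,.k,.k,(.r (-1) ⟨7,[(5,0),(7,0),(3,5),(5,2),(20,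
  1),(2,6),(0,7)]⟩ ⟨0,[(0,0)]⟩),.k,.k,.k,⟨true,0,⟨4,[(2,0),(8,0),(10,0)]⟩,⟨0,[(47,0)]⟩⟩,⟨false,0,⟨0,
  [(30,0)]⟩,⟨2,[(1,0),(2,1),(27,1),(16,0)]⟩⟩,⟨false,1,⟨3,[(2,1),(29,1),(0,1),(14,0),(0,2)]⟩,⟨19,[(5,
  7),(7,3),(3,3),(5,1),(17,1),(2,2),(3,8)]⟩⟩,⟨true,0,⟨3,[(7,0),(4,1),(19,2),(10,0),(5,2)]⟩,⟨0,[(15,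
  0)]⟩⟩,⟨false,0,⟨0,[]⟩,⟨0,[]⟩⟩,⟨false,0,⟨0,[]⟩,⟨0,[]⟩⟩,[.o ⟨false,0,⟨0,[(47,0)]⟩,⟨39,[(7,1),(0,1),
  (12,15),(19,5),(2,18),(3,4)]⟩⟩,.e ⟨false,1,⟨1,[(48,0),(0,0)]⟩,⟨27,[(1,2),(0,0),(10,2),(6,0),(1,2),
  (9,2),(8,11)]⟩⟩ ⟨false,1,⟨1,[(30,1),(16,1),(0,0),(0,0)]⟩,⟨0,[(1,0),(43,0)]⟩⟩,.a ⟨true,0,⟨0,[(33,
  0)]⟩,⟨0,[(30,0)]⟩⟩ ⟨false,1,⟨1,[(26,0),(0,0),(21,0)]⟩,⟨0,[]⟩⟩ ⟨true,0,⟨0,[(30,0),(16,0)]⟩,⟨0,[(1,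
  0),(43,0)]⟩⟩,.o ⟨false,0,⟨0,[(1,0)]⟩,⟨0,[(19,0),(28,0)]⟩⟩]⟩) (.I [0,0,0,0,1,0,0,0,-1] (.I [1,0,0,
  0,0,3,0,0,1] (.I [0,0,2,0,0,-2,1] (.I [-1,2,0,-2,-1] (.I [1,1,0,-1,-1,3] (.I [0,1,0,2,0,-1,-1,-1]
  (.C [(0,1),(2,1),(2,1),(41,1),(0,0),(5,0)]) (.C [(0,0),(12,0),(17,0)])) (.C [(0,0),(16,0),(29,
  0)])) (.C [(0,0),(15,1),(31,0)])) (.C [(0,0),(3,0),(1,0)])) (.C [(0,0),(28,0),(0,0),(13,0)])) (.C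
  [(0,0),(26,0),(2,0)]))) (.Q [0,0,-1,-1,0,0,-2,-1,0,1,-2] (.p false [0,0,1] [1,0,-1] (⟨0,[(35,0)]⟩,
  ⟨0,[(34,0)]⟩) .k 2 (⟨0,[(34,0)]⟩,⟨0,[(35,0)]⟩) .k (.r 1 ⟨5,[(0,0),(3,4),(2,0),(2,0),(8,0),(20,
  0)]⟩ ⟨0,[(31,1),(0,1),(14,0),(0,0)]⟩)) (.R ⟨0,false,false,false,[0,-1,1],[1,-1,-1],[1,1],(⟨0,[(25,
  0)]⟩,⟨22,[(26,2),(0,2),(7,22),(1,4),(4,5),(0,2)]⟩),(⟨0,[(24,0)]⟩,⟨22,[(26,2),(0,2),(8,22),(0,4),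
  (4,5),(0,2)]⟩),⟨2,[(3,0),(20,1),(12,0),(4,2)]⟩,.k,.k,(.x 0 ⟨23,[(6,3),(26,30),(0,2),(0,23),(6,15),
  (1,3),(5,5)]⟩ ⟨8,[(1,4),(1,2),(19,1),(1,11),(18,4),(3,3)]⟩),.k,.k,.k,⟨false,(-1),⟨3,[(5,1),(1,0),
  (1,0),(1,0),(0,0),(32,1)]⟩,⟨0,[(0,0),(3,0),(27,0),(0,0),(15,0)]⟩⟩,⟨true,(-1),⟨0,[(1,0),(4,0)]⟩,⟨3,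
  [(4,1),(27,1),(0,5),(10,0),(4,0)]⟩⟩,⟨true,0,⟨2,[(2,1),(1,0),(7,0),(19,1)]⟩,⟨9,[(0,1),(4,3),(11,3),
  (23,1),(2,0),(3,2)]⟩⟩,⟨false,1,⟨3,[(0,3),(1,1),(29,1),(0,1),(14,0),(0,2)]⟩,⟨1,[(4,1),(0,0),(8,
  0)]⟩⟩,⟨false,0,⟨0,[]⟩,⟨0,[]⟩⟩,⟨false,0,⟨0,[]⟩,⟨0,[]⟩⟩,[.a ⟨true,0,⟨0,[(0,0),(32,0)]⟩,⟨29,[(4,3),
  (0,1),(2,13),(2,1),(4,7),(20,3),(1,3),(3,6),(5,6)]⟩⟩ ⟨false,0,⟨5,[(13,1),(30,0),(0,3),(2,0)]⟩,⟨1,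
  [(26,0),(0,0),(21,0)]⟩⟩ ⟨true,0,⟨0,[(0,0)]⟩,⟨4,[(2,1),(1,4),(0,0),(0,2),(4,0),(21,2)]⟩⟩,.o ⟨false,
  1,⟨0,[(32,0),(14,0),(1,0)]⟩,⟨0,[(9,0)]⟩⟩,.a ⟨true,0,⟨0,[(33,0)]⟩,⟨0,[(30,0)]⟩⟩ ⟨false,0,⟨0,[]⟩,⟨1,
  [(26,0),(0,0),(21,0)]⟩⟩ ⟨true,0,⟨0,[(0,0)]⟩,⟨0,[(4,0),(9,0)]⟩⟩,.a ⟨true,0,⟨1,[(33,2),(0,0)]⟩,⟨0,
  [(1,0)]⟩⟩ ⟨true,0,⟨5,[(13,1),(30,0),(0,3),(2,0)]⟩,⟨1,[(33,0),(0,0)]⟩⟩ ⟨false,1,⟨1,[(0,1),(47,0),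
  (0,0)]⟩,⟨4,[(2,1),(1,4),(0,0),(0,2),(4,0),(21,2)]⟩⟩]⟩) (.R ⟨0,false,false,false,[0,-1,1],[1,-1,
  -1],[1,1],(⟨0,[(25,0)]⟩,⟨22,[(26,2),(0,2),(7,22),(1,4),(4,5),(0,2)]⟩),(⟨0,[(24,0)]⟩,⟨22,[(26,2),
  (0,2),(8,22),(0,4),(4,5),(0,2)]⟩),⟨2,[(3,0),(20,1),(12,0),(4,2)]⟩,.k,.k,(.x 0 ⟨23,[(6,3),(26,30),
  (0,2),(0,23),(6,15),(1,3),(5,5)]⟩ ⟨8,[(1,4),(1,2),(19,1),(1,11),(18,4),(3,3)]⟩),.k,.k,.k,⟨false,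
  (-1),⟨3,[(5,1),(1,0),(1,0),(1,0),(0,0),(32,1)]⟩,⟨1,[(4,0),(8,0),(18,2),(0,0),(14,0),(0,2)]⟩⟩,
  ⟨true,(-1),⟨0,[(1,0),(4,0)]⟩,⟨3,[(4,1),(27,1),(0,5),(10,0),(4,0)]⟩⟩,⟨true,0,⟨2,[(2,1),(1,0),(7,0),
  (19,1)]⟩,⟨19,[(5,7),(7,3),(3,3),(5,1),(17,1),(2,2),(3,8)]⟩⟩,⟨false,1,⟨1,[(32,3),(10,0),(5,2)]⟩,⟨4,
  [(0,1),(3,1),(0,1),(9,0),(15,0)]⟩⟩,⟨false,0,⟨0,[]⟩,⟨0,[]⟩⟩,⟨false,0,⟨0,[]⟩,⟨0,[]⟩⟩,[.e ⟨false,0,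
  ⟨5,[(13,1),(30,0),(0,3),(2,0)]⟩,⟨1,[(26,0),(0,0),(21,0)]⟩⟩ ⟨false,1,⟨2,[(1,0),(11,0),(9,0),(8,2),
  (14,0),(0,1),(0,1)]⟩,⟨0,[(0,0)]⟩⟩,.o ⟨false,1,⟨0,[(32,0),(14,0),(1,0)]⟩,⟨0,[(9,0)]⟩⟩,.e ⟨false,0,
  ⟨0,[]⟩,⟨1,[(26,0),(0,0),(21,0)]⟩⟩ ⟨false,1,⟨5,[(1,1),(11,1),(9,1),(8,5),(14,1),(0,0),(0,6)]⟩,⟨0,
  [(0,0)]⟩⟩,.a ⟨true,0,⟨1,[(33,2),(0,0)]⟩,⟨0,[(1,0)]⟩⟩ ⟨true,0,⟨5,[(13,1),(30,0),(0,3),(2,0)]⟩,⟨1,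
  [(33,0),(0,0)]⟩⟩ ⟨false,1,⟨0,[(1,0),(30,0),(14,0),(1,0)]⟩,⟨9,[(0,7),(5,1),(13,0),(1,0),(10,5),(10,
  0)]⟩⟩]⟩))))) (.Q [0,0,1,1,-1,0,-2,-1,0,1,-2] (.p false [0,0,1] [1,0,-1] (⟨0,[(32,0)]⟩,⟨0,[(31,
  0)]⟩) .k 2 (⟨0,[(31,0)]⟩,⟨0,[(32,0)]⟩) .k (.r 1 ⟨31,[(1,26),(2,6),(2,4),(8,2),(9,6),(10,5)]⟩ ⟨0,
  [(28,1),(0,1),(14,0),(0,0)]⟩)) (.Q [0,0,0,0,0,2,0,0,0,-1,1] (.p true [0,0,1] [1] (⟨0,[(33,0)]⟩,⟨0,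
  [(32,0)]⟩) .k 1 (⟨0,[]⟩,⟨0,[]⟩) .k .k) (.R ⟨0,false,false,false,[1,-1,-1],[0,-1,1],[0,1],(⟨0,[(22,
  0)]⟩,⟨4,[(0,1),(23,0),(0,0),(8,2),(0,0),(5,0)]⟩),(⟨0,[(23,0)]⟩,⟨22,[(24,2),(0,2),(7,22),(1,4),(4,
  5),(0,2)]⟩),⟨0,[(0,0)]⟩,.k,.k,(.r (-2) ⟨1,[(30,1),(0,1),(13,3),(0,2),(0,0)]⟩ ⟨45,[(1,1),(1,21),(2,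
  3),(2,37),(9,13),(21,0),(5,2)]⟩),.k,.k,.k,⟨true,0,⟨1,[(5,0),(24,0),(0,1)]⟩,⟨15,[(3,5),(11,3),(5,
  1),(20,0),(2,5),(1,4)]⟩⟩,⟨false,2,⟨1,[(31,3),(10,0),(3,2)]⟩,⟨8,[(2,5),(0,3),(1,1),(11,0),(10,2),
  (10,0),(6,0)]⟩⟩,⟨false,(-1),⟨1,[(1,0),(1,0),(2,0),(24,0)]⟩,⟨0,[(30,0),(0,0),(13,0),(0,0),(0,0)]⟩⟩,
  ⟨true,0,⟨1,[(3,1),(27,3),(10,0),(0,1),(2,0)]⟩,⟨3,[(5,0),(4,1),(19,6),(10,0),(5,2)]⟩⟩,⟨false,0,⟨0,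
  []⟩,⟨0,[]⟩⟩,⟨false,0,⟨0,[]⟩,⟨0,[]⟩⟩,[.e ⟨false,0,⟨5,[(11,1),(30,0),(0,3),(2,0)]⟩,⟨1,[(24,0),(0,0),
  (21,0)]⟩⟩ ⟨false,2,⟨1,[(15,1),(15,1),(10,0),(3,2)]⟩,⟨0,[(1,0)]⟩⟩,.o ⟨false,1,⟨1,[(15,1),(26,0),(4,
  0)]⟩,⟨0,[(16,0)]⟩⟩,.a ⟨true,(-1),⟨0,[(8,0)]⟩,⟨0,[(31,0),(14,0)]⟩⟩ ⟨true,0,⟨0,[(49,0)]⟩,⟨0,[]⟩⟩
  ⟨false,2,⟨1,[(15,1),(15,1),(10,0),(3,1),(0,0)]⟩,⟨0,[(1,0)]⟩⟩,.o ⟨false,(-1),⟨0,[(4,0)]⟩,⟨1,[(31,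
  1),(10,0),(3,2)]⟩⟩]⟩) (.Q [0,0,-2,0,0,0,-1,0,0,1,-1] (.p false [0,0,1] [1] (⟨0,[(34,0)]⟩,⟨0,[(33,
  0)]⟩) .k 1 (⟨0,[]⟩,⟨0,[]⟩) .k .k) (.R ⟨0,false,false,false,[0,-1,1],[1,-1,-1],[1,1],(⟨0,[(24,0)]⟩,
  ⟨22,[(25,2),(0,2),(7,22),(1,4),(4,5),(0,2)]⟩),(⟨0,[(23,0)]⟩,⟨22,[(25,2),(0,2),(8,22),(0,4),(4,5),
  (0,2)]⟩),⟨2,[(1,0),(21,1),(12,0),(4,2)]⟩,.k,.k,(.r (-1) ⟨7,[(4,0),(7,0),(3,5),(5,2),(20,1),(2,6),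
  (0,7)]⟩ ⟨1,[(2,1),(29,3),(10,0),(0,1),(3,0)]⟩),.k,.k,.k,⟨false,(-1),⟨6,[(3,0),(0,2),(3,1),(1,1),
  (0,0),(32,4)]⟩,⟨0,[(31,0),(0,0),(13,0),(0,0),(0,0)]⟩⟩,⟨true,(-1),⟨78,[(0,19),(2,47),(0,31),(1,15),
  (15,12),(17,7),(2,0)]⟩,⟨1,[(32,3),(10,0),(3,0)]⟩⟩,⟨true,0,⟨1,[(6,0),(24,0),(0,1)]⟩,⟨19,[(4,7),(7,
  3),(3,3),(5,1),(17,1),(2,2),(3,8)]⟩⟩,⟨false,1,⟨1,[(31,3),(10,0),(5,2)]⟩,⟨1,[(4,1),(27,3),(10,0),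
  (0,1),(2,0)]⟩⟩,⟨false,0,⟨0,[]⟩,⟨0,[]⟩⟩,⟨false,0,⟨0,[]⟩,⟨0,[]⟩⟩,[.a ⟨true,0,⟨3,[(12,1),(18,3),(10,
  0),(5,2)]⟩,⟨57,[(1,1),(2,1),(2,27),(7,25),(8,1),(7,3),(3,5),(5,12),(1,3),(3,14)]⟩⟩ ⟨false,0,⟨5,
  [(12,1),(30,0),(0,3),(2,0)]⟩,⟨1,[(25,0),(0,0),(21,0)]⟩⟩ ⟨true,0,⟨2,[(0,1),(2,0),(27,1),(14,2),(1,
  0)]⟩,⟨16,[(4,4),(2,6),(2,2),(9,0),(11,26),(10,4),(4,1)]⟩⟩,.o ⟨false,1,⟨0,[(31,0),(14,0),(1,0)]⟩,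
  ⟨0,[(8,0)]⟩⟩,.a ⟨true,0,⟨0,[(32,0)]⟩,⟨0,[(29,0)]⟩⟩ ⟨false,0,⟨0,[]⟩,⟨1,[(25,0),(0,0),(21,0)]⟩⟩
  ⟨true,0,⟨2,[(0,1),(2,0),(27,1),(14,2),(1,0)]⟩,⟨0,[(8,0),(23,0)]⟩⟩,.a ⟨true,0,⟨1,[(32,2),(0,0)]⟩,
  ⟨0,[(0,0)]⟩⟩ ⟨true,0,⟨5,[(12,1),(30,0),(0,3),(2,0)]⟩,⟨1,[(32,0),(0,0)]⟩⟩ ⟨false,1,⟨0,[(0,0),(30,
  0),(14,0),(1,0)]⟩,⟨16,[(4,4),(2,6),(2,2),(9,0),(11,26),(10,4),(4,1)]⟩⟩]⟩) (.R ⟨0,false,false,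
  false,[0,-1,1],[1,-1,-1],[0,1],(⟨0,[(24,0)]⟩,⟨22,[(25,2),(0,2),(7,22),(1,4),(4,5),(0,2)]⟩),(⟨0,
  [(23,0)]⟩,⟨22,[(25,2),(0,2),(8,22),(0,4),(4,5),(0,2)]⟩),⟨2,[(1,0),(21,1),(12,0),(4,2)]⟩,.k,.k,(.r
  (-1) ⟨7,[(4,0),(7,0),(3,5),(5,2),(20,1),(2,6),(0,7)]⟩ ⟨3,[(0,2),(1,0),(3,2),(25,1),(9,0),(1,0),(3,
  1)]⟩),.k,.k,.k,⟨false,(-1),⟨6,[(3,0),(0,2),(3,1),(1,1),(0,0),(32,4)]⟩,⟨3,[(0,1),(11,1),(18,3),(0,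
  1),(14,4),(0,4)]⟩⟩,⟨true,(-1),⟨8,[(3,5),(0,3),(1,1),(11,0),(10,2),(10,0),(6,0)]⟩,⟨0,[(0,0),(31,0),
  (14,0)]⟩⟩,⟨true,0,⟨1,[(6,0),(24,0),(0,1)]⟩,⟨19,[(4,7),(7,3),(3,3),(5,1),(17,1),(2,2),(3,8)]⟩⟩,
  ⟨false,1,⟨1,[(31,3),(10,0),(5,2)]⟩,⟨0,[(0,0),(3,0),(27,0),(11,0),(2,0)]⟩⟩,⟨false,0,⟨0,[]⟩,⟨0,[]⟩⟩,
  ⟨false,0,⟨0,[]⟩,⟨0,[]⟩⟩,[.a ⟨true,0,⟨3,[(12,1),(18,3),(10,0),(5,2)]⟩,⟨57,[(1,1),(2,1),(2,27),(7,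
  25),(8,1),(7,3),(3,5),(5,12),(1,3),(3,14)]⟩⟩ ⟨false,0,⟨5,[(12,1),(30,0),(0,3),(2,0)]⟩,⟨1,[(25,0),
  (0,0),(21,0)]⟩⟩ ⟨true,0,⟨0,[(3,0),(42,0),(0,0)]⟩,⟨29,[(0,21),(3,1),(2,13),(2,1),(4,11),(16,11),(9,
  2),(5,6)]⟩⟩,.o ⟨false,1,⟨0,[(31,0),(14,0),(1,0)]⟩,⟨0,[(8,0)]⟩⟩,.e ⟨true,0,⟨12,[(0,0),(11,0),(6,0),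
  (1,0),(9,1),(0,0),(7,4)]⟩,⟨0,[]⟩⟩ ⟨true,0,⟨0,[(3,0),(42,0),(0,0)]⟩,⟨0,[(8,0),(23,0)]⟩⟩,.o ⟨false,
  0,⟨0,[(0,0)]⟩,⟨0,[(18,0),(28,0)]⟩⟩]⟩))) (.Q [0,0,0,0,0,2,0,0,0,-1,1] (.p true [0,0,1] [1] (⟨0,
  [(33,0)]⟩,⟨0,[(32,0)]⟩) .k 1 (⟨0,[]⟩,⟨0,[]⟩) .k .k) (.R ⟨0,false,false,false,[1,-1,-1],[0,-1,1],
  [0,1],(⟨0,[(22,0)]⟩,⟨4,[(0,1),(23,0),(0,0),(8,2),(0,0),(5,0)]⟩),(⟨0,[(23,0)]⟩,⟨22,[(24,2),(0,2),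
  (7,22),(1,4),(4,5),(0,2)]⟩),⟨0,[(0,0)]⟩,.k,.k,(.r (-2) ⟨5,[(1,3),(9,3),(18,9),(0,1),(14,4),(0,
  6)]⟩ ⟨39,[(3,19),(1,1),(0,1),(2,33),(9,11),(21,0),(5,2)]⟩),.k,.k,.k,⟨true,0,⟨1,[(5,0),(24,0),(0,
  1)]⟩,⟨15,[(3,5),(11,3),(5,1),(20,0),(2,5),(1,4)]⟩⟩,⟨false,2,⟨1,[(1,1),(3,0),(24,0),(0,1),(14,0),
  (0,0)]⟩,⟨8,[(2,5),(0,3),(1,1),(11,0),(10,2),(10,0),(6,0)]⟩⟩,⟨false,(-1),⟨0,[(3,0),(1,0),(25,0)]⟩,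
  ⟨2,[(1,0),(9,0),(18,3),(0,1),(14,1),(0,3)]⟩⟩,⟨true,0,⟨1,[(1,0),(1,0),(2,0),(24,0)]⟩,⟨3,[(5,0),(4,
  1),(19,6),(10,0),(5,2)]⟩⟩,⟨false,0,⟨0,[]⟩,⟨0,[]⟩⟩,⟨false,0,⟨0,[]⟩,⟨0,[]⟩⟩,[.a ⟨true,0,⟨0,[(15,
  0)]⟩,⟨3,[(5,2),(4,1),(19,0),(10,0),(5,2)]⟩⟩ ⟨false,0,⟨5,[(11,1),(30,0),(0,3),(2,0)]⟩,⟨1,[(24,0),
  (0,0),(21,0)]⟩⟩ ⟨true,1,⟨0,[(1,0)]⟩,⟨2,[(2,2),(9,0),(6,0)]⟩⟩,.o ⟨false,1,⟨1,[(15,1),(26,0),(4,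
  0)]⟩,⟨0,[(16,0)]⟩⟩,.e ⟨true,0,⟨0,[(49,0)]⟩,⟨0,[]⟩⟩ ⟨true,1,⟨0,[(1,0)]⟩,⟨10,[(2,7),(2,2),(3,1),(8,
  0),(2,0),(8,0),(8,1),(1,0)]⟩⟩,.o ⟨false,(-1),⟨0,[(4,0)]⟩,⟨1,[(1,1),(3,0),(24,0),(15,0),(0,
  0)]⟩⟩]⟩) (.I [1,-1,2,2,-1,0,0,1] (.Q [0,0,-2,0,0,0,-1,0,0,1,-1] (.p false [0,0,1] [1] (⟨0,[(35,
  0)]⟩,⟨0,[(34,0)]⟩) .k 1 (⟨0,[]⟩,⟨0,[]⟩) .k .k) (.R ⟨0,false,false,false,[0,-1,1],[1,0,-1],[1,1],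
  (⟨0,[(25,0)]⟩,⟨22,[(26,2),(0,2),(7,22),(1,4),(4,5),(0,2)]⟩),(⟨0,[(35,0)]⟩,⟨0,[(36,0)]⟩),⟨2,[(2,0),
  (21,1),(12,0),(4,2)]⟩,.k,.k,(.x 0 ⟨23,[(6,3),(26,30),(0,2),(0,23),(6,15),(1,3),(5,5)]⟩ ⟨8,[(0,4),
  (1,2),(20,1),(1,11),(18,4),(3,3)]⟩),(.r 1 ⟨27,[(0,3),(2,1),(1,26),(7,7),(27,0),(2,4),(0,16)]⟩ ⟨3,
  [(21,1),(10,7),(0,7),(14,2),(0,2)]⟩),.k,.k,⟨true,(-1),⟨13,[(4,3),(0,4),(3,7),(2,5),(28,0),(2,0),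
  (0,2)]⟩,⟨0,[(32,0),(0,0),(15,0)]⟩⟩,⟨false,0,⟨0,[(0,0),(18,0)]⟩,⟨3,[(3,1),(3,0),(24,0),(0,5),(10,
  0),(4,0)]⟩⟩,⟨true,0,⟨1,[(7,0),(24,0),(0,1)]⟩,⟨18,[(3,2),(1,7),(7,3),(9,2),(17,1),(2,1),(3,6)]⟩⟩,
  ⟨false,1,⟨1,[(7,0),(24,2),(10,0),(5,2)]⟩,⟨1,[(3,1),(1,0),(8,0)]⟩⟩,⟨false,0,⟨0,[]⟩,⟨0,[]⟩⟩,⟨false,
  0,⟨0,[]⟩,⟨0,[]⟩⟩,[.a ⟨true,0,⟨3,[(7,0),(4,1),(19,2),(10,0),(5,2)]⟩,⟨0,[(16,0)]⟩⟩ ⟨false,0,⟨5,[(13,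
  1),(30,0),(0,3),(2,0)]⟩,⟨1,[(26,0),(0,0),(21,0)]⟩⟩ ⟨true,0,⟨2,[(0,1),(3,0),(27,1),(16,0)]⟩,⟨38,
  [(1,8),(1,28),(2,15),(7,9),(7,0),(10,35),(10,4)]⟩⟩,.o ⟨false,1,⟨0,[(32,0),(16,0)]⟩,⟨0,[(15,0)]⟩⟩,
  .a ⟨true,0,⟨0,[(33,0)]⟩,⟨0,[(30,0)]⟩⟩ ⟨false,0,⟨0,[]⟩,⟨1,[(26,0),(0,0),(21,0)]⟩⟩ ⟨true,0,⟨2,[(0,
  1),(3,0),(27,1),(16,0)]⟩,⟨0,[(3,0),(10,0)]⟩⟩,.a ⟨true,0,⟨1,[(33,2),(0,0)]⟩,⟨0,[(0,0)]⟩⟩ ⟨true,0,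
  ⟨5,[(13,1),(30,0),(0,3),(2,0)]⟩,⟨1,[(33,0),(0,0)]⟩⟩ ⟨false,1,⟨0,[(0,0),(31,0),(16,0)]⟩,⟨38,[(1,8),
  (1,28),(2,15),(7,9),(7,0),(10,35),(10,4)]⟩⟩]⟩) (.R ⟨0,false,false,false,[0,-1,1],[1,-1],[],(⟨0,
  [(25,0)]⟩,⟨22,[(26,2),(0,2),(7,22),(1,4),(4,5),(0,2)]⟩),(⟨0,[(39,0)]⟩,⟨0,[(40,0)]⟩),⟨2,[(2,0),(21,
  1),(12,0),(4,2)]⟩,.k,.k,(.r (-1) ⟨9,[(3,5),(1,1),(7,1),(9,5),(20,0),(2,7),(0,6)]⟩ ⟨7,[(0,7),(3,1),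
  (2,5),(25,1),(9,2),(1,3),(3,4)]⟩),.k,.k,.k,⟨true,0,⟨2,[(14,0),(6,0)]⟩,⟨0,[(47,0)]⟩⟩,⟨false,0,⟨0,
  [(30,0)]⟩,⟨2,[(0,0),(2,1),(3,0),(24,0),(16,0)]⟩⟩,⟨false,1,⟨1,[(7,0),(24,0),(0,1),(15,1)]⟩,⟨18,[(3,
  2),(1,7),(7,3),(9,2),(17,1),(2,1),(3,6)]⟩⟩,⟨true,0,⟨3,[(7,0),(4,1),(19,2),(10,0),(5,2)]⟩,⟨0,[(15,
  0)]⟩⟩,⟨false,0,⟨0,[]⟩,⟨0,[]⟩⟩,⟨false,0,⟨0,[]⟩,⟨0,[]⟩⟩,[.o ⟨false,0,⟨0,[(47,0)]⟩,⟨39,[(7,1),(0,1),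
  (12,15),(19,5),(2,18),(3,4)]⟩⟩,.e ⟨false,1,⟨1,[(48,0),(0,0)]⟩,⟨0,[(51,0)]⟩⟩ ⟨false,1,⟨21,[(4,3),
  (0,1),(7,9),(9,5),(6,1),(17,22),(0,14)]⟩,⟨0,[(0,0),(44,0)]⟩⟩,.a ⟨true,0,⟨0,[(33,0)]⟩,⟨0,[(30,
  0)]⟩⟩ ⟨false,1,⟨1,[(26,0),(0,0),(21,0)]⟩,⟨0,[]⟩⟩ ⟨true,0,⟨10,[(4,1),(0,0),(7,4),(9,2),(6,0),(17,
  5),(0,1)]⟩,⟨0,[(0,0),(44,0)]⟩⟩,.o ⟨false,0,⟨0,[(0,0)]⟩,⟨0,[(19,0),(28,0)]⟩⟩]⟩)) (.R ⟨0,false,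
  false,false,[0,-1,1],[1,-1],[1],(⟨0,[(24,0)]⟩,⟨72,[(0,3),(11,1),(6,0),(0,3),(0,2),(12,72),(1,12),
  (4,19),(0,8)]⟩),(⟨0,[(38,0)]⟩,⟨0,[(39,0)]⟩),⟨2,[(1,0),(21,1),(12,0),(4,2)]⟩,.k,.k,(.x 0 ⟨23,[(5,
  3),(26,30),(0,2),(0,23),(6,15),(1,3),(5,5)]⟩ ⟨23,[(0,0),(0,7),(1,3),(0,3),(1,2),(11,12),(5,31),
  (18,5),(3,24)]⟩),.k,.k,.k,⟨true,0,⟨2,[(13,0),(6,0)]⟩,⟨0,[(46,0)]⟩⟩,⟨false,0,⟨0,[(29,0)]⟩,⟨33,[(0,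
  3),(1,11),(3,7),(13,1),(11,17),(10,10),(4,4)]⟩⟩,⟨false,1,⟨1,[(6,0),(24,0),(0,1),(15,1)]⟩,⟨32,[(0,
  8),(3,18),(16,3),(18,6),(6,5)]⟩⟩,⟨true,0,⟨48,[(0,16),(2,21),(2,9),(13,6),(11,4),(3,2),(1,2),(3,
  11),(5,9)]⟩,⟨0,[(14,0)]⟩⟩,⟨false,0,⟨0,[]⟩,⟨0,[]⟩⟩,⟨false,0,⟨0,[]⟩,⟨0,[]⟩⟩,[.o ⟨false,0,⟨0,[(46,
  0)]⟩,⟨39,[(6,1),(0,1),(12,15),(19,5),(2,18),(3,4)]⟩⟩,.a ⟨true,0,⟨3,[(12,1),(29,0),(5,2)]⟩,⟨0,[(45,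
  0)]⟩⟩ ⟨false,1,⟨1,[(47,0),(0,0)]⟩,⟨4,[(0,0),(12,0),(5,0),(20,0)]⟩⟩ ⟨true,0,⟨3,[(0,1),(2,1),(0,1),
  (37,0),(1,1),(3,2)]⟩,⟨11,[(0,1),(9,6),(2,0),(5,0),(10,0),(1,10),(10,5)]⟩⟩,.a ⟨true,0,⟨0,[(32,0)]⟩,
  ⟨0,[(29,0)]⟩⟩ ⟨true,0,⟨0,[]⟩,⟨4,[(0,0),(12,0),(5,0),(20,0)]⟩⟩ ⟨false,0,⟨3,[(0,1),(2,1),(0,1),(37,
  0),(1,1),(3,2)]⟩,⟨14,[(0,2),(1,0),(4,1),(2,1),(9,6),(11,10),(10,5)]⟩⟩,.a ⟨true,0,⟨1,[(32,2),(0,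
  0)]⟩,⟨3,[(0,1),(2,1),(0,1),(37,0),(1,5),(3,2)]⟩⟩ ⟨false,1,⟨1,[(47,0),(0,0)]⟩,⟨1,[(32,0),(0,0)]⟩⟩
  ⟨true,0,⟨3,[(0,1),(2,1),(0,1),(37,0),(1,1),(2,1),(0,0)]⟩,⟨11,[(0,1),(9,6),(2,0),(5,0),(10,0),(1,
  10),(10,5)]⟩⟩]⟩)))))

theorem ok121 : chk K t121 r63 = true := by decide +kernel

noncomputable def t123 : Tre :=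
  (.Q [0,1,1,1,-1,0,-1,0,0,0,-1] (.p false [0,0,1] [] (⟨0,[(30,0)]⟩,⟨0,[(29,0)]⟩) .k 0 (⟨0,[]⟩,⟨0,
  []⟩) .k .k) (.I [1,1,-1,0,1,0,0,-2] (.Q [0,0,0,0,0,2,0,0,0,-1,1] (.p true [0,0,1] [1] (⟨0,[(32,
  0)]⟩,⟨0,[(31,0)]⟩) .k 1 (⟨0,[]⟩,⟨0,[]⟩) .k .k) (.R ⟨0,false,false,false,[1,-1,-1],[1,-1],[1],(⟨0,
  [(21,0)]⟩,⟨171,[(0,74),(0,11),(1,5),(6,11),(8,23),(0,2),(12,96),(0,21),(5,29)]⟩),(⟨0,[(36,0)]⟩,⟨0,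
  [(37,0)]⟩),⟨0,[(0,0)]⟩,.k,.k,(.x 1 ⟨1,[(0,1),(6,1),(22,0),(0,0)]⟩ ⟨0,[(3,0),(17,0),(14,0),(4,
  0)]⟩),.k,.k,.k,⟨true,0,⟨2,[(11,0),(6,0)]⟩,⟨0,[(44,0)]⟩⟩,⟨false,1,⟨4,[(1,0),(1,2),(10,0),(4,0),(10,
  0)]⟩,⟨0,[(16,0)]⟩⟩,⟨false,0,⟨0,[(2,0),(10,0),(32,0)]⟩,⟨3,[(1,1),(42,3),(0,0),(0,0)]⟩⟩,⟨true,0,⟨0,
  [(13,0)]⟩,⟨0,[(29,0)]⟩⟩,⟨false,0,⟨0,[]⟩,⟨0,[]⟩⟩,⟨false,0,⟨0,[]⟩,⟨0,[]⟩⟩,[.o ⟨false,0,⟨0,[(44,0)]⟩,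
  ⟨39,[(4,1),(0,1),(12,15),(19,5),(2,18),(3,4)]⟩⟩,.e ⟨false,1,⟨1,[(45,0),(0,0)]⟩,⟨40,[(1,4),(8,5),
  (0,1),(5,9),(20,8),(2,2)]⟩⟩ ⟨false,2,⟨3,[(1,1),(12,3),(30,2),(0,2)]⟩,⟨0,[(2,0)]⟩⟩,.e ⟨true,0,⟨0,
  []⟩,⟨40,[(1,4),(8,5),(0,1),(5,9),(20,8),(2,2)]⟩⟩ ⟨true,1,⟨3,[(1,1),(12,3),(30,0),(0,0)]⟩,⟨0,[(2,
  0)]⟩⟩,.a ⟨true,(-1),⟨1,[(7,1),(22,0),(0,0)]⟩,⟨0,[(3,0)]⟩⟩ ⟨false,1,⟨1,[(45,0),(0,0)]⟩,⟨1,[(30,0),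
  (0,0)]⟩⟩ ⟨true,1,⟨0,[(3,0),(40,0)]⟩,⟨1,[(2,0),(8,0),(19,0)]⟩⟩]⟩) (.I [1,0,2,2,-1,0,0,1] (.S ⟨1,0,
  [0,0,-1,-2,0,0,0,-1],[1,-1,-1],[1,1,-1,-1,0,0,0,-1],(⟨0,[(22,0)]⟩,⟨121,[(2,3),(1,1),(6,3),(8,7),
  (0,0),(12,121),(3,46),(1,24),(0,9)]⟩),⟨0,[(1,0)]⟩,.k,(.x 1 ⟨11,[(8,9),(3,5),(19,1),(1,11),(5,7),
  (1,0),(2,5),(1,2)]⟩ ⟨3,[(1,3),(0,0),(1,2),(10,0),(4,0),(21,1),(3,0)]⟩),⟨false,0,⟨0,[]⟩,⟨17,[(2,3),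
  (12,3),(4,3),(0,1),(20,0),(4,8)]⟩⟩,⟨true,0,⟨0,[(45,0)]⟩,⟨0,[(44,0)]⟩⟩,⟨true,0,⟨0,[(44,0)]⟩,⟨0,
  [(45,0)]⟩⟩,⟨false,1,⟨17,[(2,3),(12,3),(4,3),(0,1),(20,0),(4,8)]⟩,⟨0,[]⟩⟩,[.a ⟨true,0,⟨0,[(11,0),
  (18,0),(16,0)]⟩,⟨0,[(0,0),(3,0)]⟩⟩ ⟨false,1,⟨3,[(2,1),(8,1),(30,0),(3,2)]⟩,⟨1,[(0,0),(13,0),(2,0),
  (29,0)]⟩⟩ ⟨true,1,⟨3,[(2,1),(42,7),(0,0),(0,0)]⟩,⟨0,[(0,0)]⟩⟩,.o ⟨false,1,⟨0,[(30,0),(14,1),(1,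
  0)]⟩,⟨0,[(6,0)]⟩⟩,.a ⟨true,(-1),⟨0,[(8,0)]⟩,⟨4,[(2,0),(1,2),(10,0),(4,0),(10,0)]⟩⟩ ⟨false,1,⟨3,
  [(2,1),(42,3),(0,0),(0,0)]⟩,⟨1,[(0,0),(13,0),(2,0),(29,0)]⟩⟩ ⟨true,1,⟨3,[(2,1),(42,7),(0,0),(0,
  0)]⟩,⟨3,[(0,1),(2,0),(2,1),(3,0),(17,0)]⟩⟩,.a ⟨true,(-1),⟨1,[(8,1),(22,0),(0,0)]⟩,⟨0,[(4,0)]⟩⟩
  ⟨true,1,⟨3,[(2,1),(8,1),(30,0),(3,2)]⟩,⟨0,[(0,0),(44,0)]⟩⟩ ⟨false,2,⟨3,[(2,1),(42,7),(0,2),(0,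
  2)]⟩,⟨0,[(0,0)]⟩⟩]⟩) (.I [1,0,-1,-1,0,0,0,1] (.I [1,0,-1,0,0,0,0,1] (.S ⟨1,0,[0,0,1,0,0,0,0,-1],
  [1,1,-1],[0,1,1,0,0,0,0,-1],(⟨121,[(4,3),(1,1),(6,3),(8,7),(0,0),(11,121),(4,46),(1,24),(0,9)]⟩,
  ⟨0,[(25,0)]⟩),⟨0,[(35,0)]⟩,.k,.k,⟨false,0,⟨0,[(47,0)]⟩,⟨3,[(21,1),(26,0),(0,0)]⟩⟩,⟨true,0,⟨0,[(47,
  0)]⟩,⟨0,[(46,0)]⟩⟩,⟨true,0,⟨40,[(4,4),(8,5),(0,1),(5,9),(20,8),(2,2)]⟩,⟨0,[]⟩⟩,⟨false,1,⟨21,[(2,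
  3),(1,1),(17,7),(10,0),(0,0),(14,7)]⟩,⟨0,[]⟩⟩,[.e ⟨false,0,⟨0,[(2,0),(8,0)]⟩,⟨2,[(0,0),(0,0),(20,
  0),(25,0),(0,0)]⟩⟩ ⟨false,1,⟨10,[(2,0),(1,5),(17,1),(10,2),(0,2),(14,1)]⟩,⟨0,[(0,0)]⟩⟩,.o ⟨false,
  1,⟨0,[(32,0),(16,0)]⟩,⟨0,[(15,0)]⟩⟩,.a ⟨true,0,⟨0,[(30,0)]⟩,⟨0,[(33,0)]⟩⟩ ⟨true,0,⟨3,[(4,1),(9,1),
  (18,0),(0,0),(12,1)]⟩,⟨0,[(0,0)]⟩⟩ ⟨false,1,⟨3,[(4,1),(9,1),(18,0),(0,0),(12,1),(1,3)]⟩,⟨0,[(0,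
  0)]⟩⟩,.o ⟨false,0,⟨0,[(19,0)]⟩,⟨9,[(4,0),(1,2),(10,0),(4,0),(10,5),(10,4)]⟩⟩]⟩) (.I [0,0,-1,-1,0,
  0,0,1] (.S ⟨1,0,[0,0,0,-1,0,0,0,1],[0,0,1],[0,1,0,-1,0,0,0,1],(⟨0,[(37,0)]⟩,⟨0,[(36,0)]⟩),⟨0,[(26,
  0)]⟩,.k,.k,⟨false,0,⟨0,[(48,0)]⟩,⟨3,[(22,1),(26,0),(0,0)]⟩⟩,⟨true,0,⟨0,[(48,0)]⟩,⟨0,[(47,0)]⟩⟩,
  ⟨true,0,⟨40,[(5,4),(8,5),(0,1),(5,9),(20,8),(2,2)]⟩,⟨0,[]⟩⟩,⟨false,1,⟨14,[(1,0),(1,2),(1,0),(17,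
  5),(26,4)]⟩,⟨0,[]⟩⟩,[.e ⟨false,0,⟨26,[(2,21),(0,1),(10,3),(6,6),(20,7),(2,1)]⟩,⟨0,[(1,0),(44,0),
  (3,0)]⟩⟩ ⟨false,0,⟨0,[(0,0)]⟩,⟨1,[(5,0),(16,0)]⟩⟩,.o ⟨false,1,⟨1,[(18,1),(26,0),(4,0)]⟩,⟨0,[(19,
  0)]⟩⟩,.o ⟨false,1,⟨9,[(5,0),(1,2),(10,0),(4,0),(10,5),(10,4)]⟩,⟨0,[(20,0)]⟩⟩,.a ⟨true,0,⟨0,[(34,
  0)]⟩,⟨0,[(31,0)]⟩⟩ ⟨false,0,⟨0,[(0,0)]⟩,⟨5,[(1,3),(3,0),(16,2),(27,1)]⟩⟩ ⟨true,0,⟨0,[(0,0)]⟩,⟨5,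
  [(5,2),(9,3),(6,0)]⟩⟩]⟩) (.N [0,-1,1] 0 ⟨0,[(2,0)]⟩ ⟨0,[(0,0)]⟩ .k))) (.Q [0,0,2,0,0,0,1,0,0,-1,
  1] (.p true [0,0,1] [1] (⟨0,[(35,0)]⟩,⟨0,[(34,0)]⟩) .k 1 (⟨0,[]⟩,⟨0,[]⟩) .k .k) (.R ⟨0,false,
  false,false,[0,-1,1],[1,-1,-1],[0,1],(⟨0,[(25,0)]⟩,⟨121,[(4,3),(1,1),(6,3),(8,7),(0,0),(11,121),
  (4,46),(1,24),(0,9)]⟩),(⟨0,[(24,0)]⟩,⟨121,[(4,3),(1,1),(6,3),(8,7),(0,0),(12,121),(3,46),(1,24),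
  (0,9)]⟩),⟨2,[(3,0),(20,1),(12,0),(4,2)]⟩,.k,.k,(.r (-1) ⟨2,[(2,0),(14,3),(1,3),(28,1)]⟩ ⟨2,[(1,2),
  (12,0),(6,0)]⟩),.k,.k,.k,⟨true,(-1),⟨0,[(5,0),(10,0)]⟩,⟨8,[(0,1),(0,2),(0,3),(1,0),(8,1),(20,1),
  (14,5)]⟩⟩,⟨false,0,⟨0,[(19,0),(10,0)]⟩,⟨0,[(0,0),(5,0)]⟩⟩,⟨false,0,⟨0,[(1,0)]⟩,⟨1,[(17,1),(1,1),
  (28,0),(0,0)]⟩⟩,⟨true,0,⟨1,[(1,0),(0,1),(2,0),(1,0),(2,1),(38,0)]⟩,⟨0,[(15,0),(0,0)]⟩⟩,⟨false,0,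
  ⟨0,[]⟩,⟨0,[]⟩⟩,⟨false,0,⟨0,[]⟩,⟨0,[]⟩⟩,[.a ⟨true,0,⟨15,[(2,3),(1,5),(5,10),(2,3),(9,0),(10,2),(14,
  4)]⟩,⟨5,[(8,3),(3,1),(3,1),(26,0),(5,2)]⟩⟩ ⟨false,0,⟨5,[(2,0),(10,0),(1,0),(3,0),(25,3)]⟩,⟨47,[(0,
  0),(1,7),(1,4),(8,0),(8,17),(11,0),(14,17)]⟩⟩ ⟨true,0,⟨1,[(2,1),(2,1),(4,0),(19,0),(18,0)]⟩,⟨5,
  [(0,5),(7,3),(3,1),(3,1),(26,0),(5,2)]⟩⟩,.o ⟨false,1,⟨5,[(1,1),(0,3),(7,1),(23,3),(9,0),(4,2)]⟩,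
  ⟨0,[(9,0)]⟩⟩,.e ⟨true,0,⟨11,[(0,0),(3,0),(8,0),(6,1),(13,0),(6,3)]⟩,⟨0,[]⟩⟩ ⟨true,0,⟨1,[(2,1),(2,
  1),(4,0),(19,0),(18,0)]⟩,⟨0,[(9,0),(23,0)]⟩⟩,.o ⟨false,0,⟨0,[(0,0)]⟩,⟨0,[(19,0),(28,0)]⟩⟩]⟩) (.Q
  [0,0,2,0,0,0,2,1,0,-1,2] (.p true [0,0,1] [1,0,-1] (⟨0,[(36,0)]⟩,⟨0,[(35,0)]⟩) .k 2 (⟨0,[(35,0)]⟩,
  ⟨0,[(36,0)]⟩) .k (.r 0 ⟨0,[(16,1),(2,1)]⟩ ⟨4,[(1,3),(0,1),(1,1),(28,0),(0,0),(14,0)]⟩)) (.R ⟨0,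
  false,false,false,[0,-1,1],[1,0,-1],[1,0,0,0,0,0,0,-1],(⟨0,[(26,0)]⟩,⟨121,[(5,3),(1,1),(6,3),(8,
  7),(0,0),(11,121),(4,46),(1,24),(0,9)]⟩),(⟨0,[(36,0)]⟩,⟨0,[(37,0)]⟩),⟨2,[(4,0),(20,1),(12,0),(4,
  2)]⟩,.k,.k,(.r (-1) ⟨8,[(1,3),(1,2),(14,11),(5,3),(20,3),(3,1)]⟩ ⟨2,[(2,2),(12,0),(6,0)]⟩),(.r 0
  ⟨0,[(1,0),(9,0),(5,0),(0,0),(26,0)]⟩ ⟨15,[(2,13),(2,9),(17,1),(10,4),(0,4),(14,3)]⟩),.k,.k,⟨true,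
  0,⟨0,[]⟩,⟨1,[(34,0),(0,0)]⟩⟩,⟨false,0,⟨0,[(1,0),(18,0)]⟩,⟨113,[(0,103),(2,3),(1,53),(1,19),(15,7),
  (21,4),(4,22)]⟩⟩,⟨false,1,⟨24,[(0,0),(1,34),(0,3),(1,5),(8,0),(20,1),(14,15)]⟩,⟨0,[(1,0),(9,0),(5,
  0),(0,0),(26,0)]⟩⟩,⟨true,0,⟨2,[(1,1),(0,4),(0,0),(7,0),(8,2)]⟩,⟨0,[(16,0),(1,0)]⟩⟩,⟨false,0,⟨0,
  []⟩,⟨0,[]⟩⟩,⟨false,0,⟨0,[]⟩,⟨0,[]⟩⟩,[.a ⟨true,0,⟨19,[(1,1),(3,9),(5,13),(12,1),(19,0),(5,4)]⟩,⟨0,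
  [(17,0)]⟩⟩ ⟨false,1,⟨3,[(5,1),(43,0),(0,0)]⟩,⟨0,[(17,0),(2,0)]⟩⟩ ⟨true,0,⟨2,[(1,1),(0,1),(0,0),(7,
  0),(8,2)]⟩,⟨0,[(0,0)]⟩⟩,.o ⟨false,1,⟨0,[(33,0),(16,0)]⟩,⟨0,[(16,0)]⟩⟩,.a ⟨true,0,⟨0,[(34,0)]⟩,⟨0,
  [(31,0)]⟩⟩ ⟨false,1,⟨24,[(0,0),(1,9),(0,3),(1,5),(8,0),(20,1),(14,15)]⟩,⟨0,[(17,0),(2,0)]⟩⟩ ⟨true,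
  0,⟨2,[(1,1),(0,1),(0,0),(7,0),(8,2)]⟩,⟨9,[(0,6),(4,0),(1,0),(2,1),(2,1),(2,2),(25,0)]⟩⟩,.a ⟨true,
  0,⟨1,[(34,2),(0,0)]⟩,⟨0,[(1,0)]⟩⟩ ⟨true,1,⟨3,[(5,1),(43,0),(0,0)]⟩,⟨0,[(6,0),(11,0)]⟩⟩ ⟨false,1,
  ⟨0,[(1,0),(31,0),(16,0)]⟩,⟨0,[(0,0)]⟩⟩]⟩) (.R ⟨0,false,false,false,[0,-1,1],[1,0,-1],[1,0,0,0,0,0,
  0,-1],(⟨0,[(26,0)]⟩,⟨121,[(5,3),(1,1),(6,3),(8,7),(0,0),(11,121),(4,46),(1,24),(0,9)]⟩),(⟨0,[(36,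
  0)]⟩,⟨0,[(37,0)]⟩),⟨2,[(4,0),(20,1),(12,0),(4,2)]⟩,.k,.k,(.r (-1) ⟨8,[(1,3),(1,2),(14,11),(5,3),
  (20,3),(3,1)]⟩ ⟨2,[(2,2),(12,0),(6,0)]⟩),(.r 0 ⟨0,[(1,0),(9,0),(5,0),(0,0),(26,0)]⟩ ⟨15,[(2,13),
  (2,9),(17,1),(10,4),(0,4),(14,3)]⟩),.k,.k,⟨true,0,⟨0,[]⟩,⟨1,[(34,0),(0,0)]⟩⟩,⟨false,0,⟨0,[(1,0),
  (18,0)]⟩,⟨9,[(5,0),(1,2),(10,0),(4,0),(10,15),(10,4)]⟩⟩,⟨false,1,⟨9,[(2,13),(0,1),(1,1),(28,0),(0,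
  0),(14,5)]⟩,⟨0,[(1,0),(9,0),(5,0),(0,0),(26,0)]⟩⟩,⟨true,0,⟨11,[(0,7),(1,11),(2,1),(5,2),(12,0),
  (10,2),(14,0)]⟩,⟨0,[(16,0),(1,0)]⟩⟩,⟨false,0,⟨0,[]⟩,⟨0,[]⟩⟩,⟨false,0,⟨0,[]⟩,⟨0,[]⟩⟩,[.e ⟨false,1,
  ⟨3,[(5,1),(43,0),(0,0)]⟩,⟨0,[(17,0),(2,0)]⟩⟩ ⟨false,0,⟨0,[(0,0)]⟩,⟨9,[(7,1),(9,0),(0,2),(4,2),(8,
  2),(1,10),(10,4)]⟩⟩,.o ⟨false,1,⟨0,[(33,0),(16,0)]⟩,⟨0,[(16,0)]⟩⟩,.a ⟨true,0,⟨0,[(34,0)]⟩,⟨0,[(31,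
  0)]⟩⟩ ⟨false,1,⟨9,[(2,3),(0,1),(1,1),(28,0),(0,0),(14,5)]⟩,⟨0,[(17,0),(2,0)]⟩⟩ ⟨true,0,⟨11,[(0,7),
  (4,1),(5,2),(12,0),(10,2),(14,0)]⟩,⟨0,[(16,0),(17,0)]⟩⟩,.e ⟨true,1,⟨3,[(5,1),(43,0),(0,0)]⟩,⟨0,
  [(6,0),(11,0)]⟩⟩ ⟨true,0,⟨0,[(0,0)]⟩,⟨1,[(15,0),(2,0),(13,0),(1,1),(10,0)]⟩⟩]⟩)))))) (.I [1,0,-1,
  0,1,0,0,-1] (.S ⟨1,0,[0,0,0,-1,0,0,0,-1],[1,0,-1],[1,1,0,0,0,0,0,-1],(⟨0,[(32,0)]⟩,⟨0,[(33,0)]⟩),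
  ⟨0,[(21,0)]⟩,.k,.k,⟨false,0,⟨0,[]⟩,⟨2,[(0,0),(18,0),(24,0),(1,0)]⟩⟩,⟨true,0,⟨0,[(44,0)]⟩,⟨0,[(43,
  0)]⟩⟩,⟨true,0,⟨0,[(43,0)]⟩,⟨0,[(44,0)]⟩⟩,⟨false,1,⟨2,[(0,0),(18,0),(24,0),(1,0)]⟩,⟨0,[]⟩⟩,[.e
  ⟨false,1,⟨0,[(0,0),(47,0)]⟩,⟨3,[(1,1),(43,0),(0,0)]⟩⟩ ⟨false,1,⟨0,[(0,0),(43,0)]⟩,⟨4,[(1,0),(3,1),
  (13,0),(7,1)]⟩⟩,.o ⟨false,1,⟨0,[(29,0),(14,0),(1,0)]⟩,⟨0,[(6,0)]⟩⟩,.o ⟨false,0,⟨0,[(16,0)]⟩,⟨15,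
  [(0,2),(2,3),(10,0),(4,0),(8,0),(1,9),(10,7)]⟩⟩,.a ⟨true,(-1),⟨0,[(7,0)]⟩,⟨7,[(0,2),(2,3),(10,0),
  (4,0),(8,0),(1,1)]⟩⟩ ⟨false,1,⟨0,[(0,0)]⟩,⟨15,[(1,5),(12,1),(4,1),(10,2),(0,4),(14,3)]⟩⟩ ⟨true,1,
  ⟨0,[(0,0),(43,0)]⟩,⟨1,[(1,0),(6,0),(29,0)]⟩⟩]⟩) (.Q [0,0,2,0,-1,0,-2,-1,0,1,-2] (.p false [0,0,1]
  [1,0,-1] (⟨0,[(33,0)]⟩,⟨0,[(32,0)]⟩) .k 2 (⟨0,[(32,0)]⟩,⟨0,[(33,0)]⟩) .k (.r 1 ⟨5,[(1,5),(8,1),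
  (30,0),(0,3),(2,0)]⟩ ⟨2,[(3,1),(19,0),(0,0),(4,5),(0,3),(15,2)]⟩)) (.Q [0,0,0,0,0,2,0,0,0,-1,1]
  (.p true [0,0,1] [1] (⟨0,[(34,0)]⟩,⟨0,[(33,0)]⟩) .k 1 (⟨0,[]⟩,⟨0,[]⟩) .k .k) (.R ⟨0,false,false,
  false,[1,-1,-1],[0,0,1],[1,0,0,0,0,0,0,1],(⟨0,[(23,0)]⟩,⟨19,[(0,8),(4,1),(6,3),(7,3),(1,0),(12,
  10),(0,1),(5,1)]⟩),(⟨0,[(35,0)]⟩,⟨0,[(34,0)]⟩),⟨0,[(0,0)]⟩,.k,.k,(.r (-2) ⟨1,[(5,1),(19,0),(0,0),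
  (4,1),(14,3),(1,0)]⟩ ⟨19,[(3,9),(2,1),(0,1),(2,13),(9,1),(21,0),(5,2)]⟩),(.r (-2) ⟨0,[(5,0),(25,
  1),(0,0),(13,0),(1,0)]⟩ ⟨56,[(3,41),(0,9),(2,16),(11,12),(9,6),(10,0),(1,4)]⟩),.k,.k,⟨true,0,⟨0,
  []⟩,⟨1,[(32,0),(0,0)]⟩⟩,⟨false,2,⟨5,[(5,7),(19,0),(0,0),(5,3),(10,2)]⟩,⟨11,[(1,5),(1,2),(0,1),(7,
  0),(5,4),(10,4)]⟩⟩,⟨false,(-1),⟨1,[(2,2),(0,0),(1,0),(0,0),(41,0)]⟩,⟨0,[(5,0),(25,1),(0,0),(13,0),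
  (1,0)]⟩⟩,⟨true,0,⟨3,[(2,5),(2,3),(1,1),(24,1),(10,0),(4,0)]⟩,⟨1,[(1,0),(3,0),(6,0),(18,2),(16,
  0)]⟩⟩,⟨false,0,⟨0,[]⟩,⟨0,[]⟩⟩,⟨false,0,⟨0,[]⟩,⟨0,[]⟩⟩,[.a ⟨true,0,⟨0,[(15,0)]⟩,⟨0,[(1,0),(3,0)]⟩⟩
  ⟨false,0,⟨11,[(3,5),(8,1),(30,0),(0,3),(2,6)]⟩,⟨5,[(5,1),(19,0),(0,0),(4,5),(0,3),(15,2)]⟩⟩ ⟨true,
  1,⟨2,[(3,0),(1,2),(8,0),(17,1),(10,0)]⟩,⟨0,[(1,0)]⟩⟩,.o ⟨false,1,⟨1,[(15,1),(27,0),(4,0)]⟩,⟨0,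
  [(31,0)]⟩⟩,.a ⟨true,(-1),⟨0,[(9,0)]⟩,⟨2,[(5,1),(19,0),(0,0),(5,0)]⟩⟩ ⟨false,0,⟨3,[(3,1),(43,0),(0,
  0)]⟩,⟨5,[(5,1),(19,0),(0,0),(4,5),(0,3),(15,2)]⟩⟩ ⟨true,1,⟨2,[(3,0),(1,2),(8,0),(17,1),(10,0)]⟩,
  ⟨3,[(1,1),(2,0),(6,0),(17,0),(1,1)]⟩⟩,.a ⟨true,(-1),⟨42,[(1,23),(1,6),(8,8),(0,7),(7,9),(10,4),(9,
  4)]⟩,⟨0,[(5,0)]⟩⟩ ⟨true,0,⟨11,[(3,5),(8,1),(30,0),(0,3),(2,6)]⟩,⟨0,[(31,0),(0,0)]⟩⟩ ⟨false,2,⟨1,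
  [(5,1),(9,1),(27,0),(4,0)]⟩,⟨0,[(1,0)]⟩⟩]⟩) (.I [0,0,-2,-2,0,0,0,1] (.Q [0,0,-1,-1,0,0,-2,-1,0,1,
  -2] (.p false [0,0,1] [1,0,-1] (⟨0,[(36,0)]⟩,⟨0,[(35,0)]⟩) .k 2 (⟨0,[(35,0)]⟩,⟨0,[(36,0)]⟩) .k
  (.r 1 ⟨12,[(0,2),(3,10),(0,0),(2,0),(3,0),(28,1),(3,3)]⟩ ⟨2,[(6,1),(19,0),(0,0),(4,5),(0,3),(15,
  2)]⟩)) (.Q [0,-1,-1,-1,0,0,-1,0,0,1,-1] (.p false [0,0,1] [1] (⟨0,[(37,0)]⟩,⟨0,[(36,0)]⟩) .k 1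
  (⟨0,[]⟩,⟨0,[]⟩) .k .k) (.R ⟨0,false,false,false,[0,-1,1],[1,-1,-1],[1,1],(⟨0,[(27,0)]⟩,⟨41,[(8,1),
  (6,3),(7,3),(1,0),(11,41),(4,14),(1,8),(0,1)]⟩),(⟨0,[(26,0)]⟩,⟨41,[(8,1),(6,3),(7,3),(1,0),(12,
  41),(3,14),(1,8),(0,1)]⟩),⟨2,[(3,0),(22,1),(12,0),(4,2)]⟩,.k,.k,(.r 0 ⟨0,[(2,0)]⟩ ⟨0,[(23,0),(10,
  0),(0,0)]⟩),.k,.k,.k,⟨false,(-1),⟨0,[(5,0),(41,0)]⟩,⟨2,[(8,1),(19,0),(0,0),(4,2),(0,0),(13,2),(1,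
  2)]⟩⟩,⟨true,(-1),⟨0,[(0,0),(6,0)]⟩,⟨5,[(8,1),(19,0),(0,0),(5,9),(10,2)]⟩⟩,⟨true,0,⟨1,[(9,0),(24,
  0),(0,1)]⟩,⟨39,[(2,24),(3,2),(3,0),(11,4),(1,2),(7,0)]⟩⟩,⟨false,1,⟨0,[(4,0),(3,0),(25,0),(16,0)]⟩,
  ⟨5,[(2,0),(2,4),(0,1),(1,4),(2,1),(23,4),(10,1)]⟩⟩,⟨false,0,⟨0,[]⟩,⟨0,[]⟩⟩,⟨false,0,⟨0,[]⟩,⟨0,
  []⟩⟩,[.a ⟨true,0,⟨0,[(1,0),(33,0)]⟩,⟨31,[(6,5),(1,11),(1,5),(2,7),(4,13),(4,1),(21,2),(5,2)]⟩⟩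
  ⟨false,0,⟨10,[(2,0),(5,0),(6,1),(18,0),(8,0),(2,0),(0,5)]⟩,⟨1,[(28,0),(0,0),(21,0)]⟩⟩ ⟨true,0,⟨0,
  [(1,0)]⟩,⟨3,[(5,1),(4,1),(24,5),(10,0),(4,0)]⟩⟩,.o ⟨false,1,⟨0,[(34,0),(14,0),(1,0)]⟩,⟨0,[(11,
  0)]⟩⟩,.a ⟨true,0,⟨0,[(35,0)]⟩,⟨0,[(32,0)]⟩⟩ ⟨false,0,⟨0,[]⟩,⟨1,[(28,0),(0,0),(21,0)]⟩⟩ ⟨true,0,⟨0,
  [(1,0)]⟩,⟨0,[(11,0),(23,0)]⟩⟩,.a ⟨true,0,⟨1,[(35,2),(0,0)]⟩,⟨0,[(0,0),(46,0)]⟩⟩ ⟨true,0,⟨10,[(2,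
  0),(5,0),(6,1),(18,0),(8,0),(2,0),(0,5)]⟩,⟨1,[(35,0),(0,0)]⟩⟩ ⟨false,1,⟨1,[(1,1),(48,0),(0,0)]⟩,
  ⟨3,[(5,1),(4,1),(24,5),(10,0),(4,0)]⟩⟩]⟩) (.R ⟨0,false,false,false,[0,-1,1],[1,-1],[1],(⟨0,[(27,
  0)]⟩,⟨41,[(8,1),(6,3),(7,3),(1,0),(11,41),(4,14),(1,8),(0,1)]⟩),(⟨0,[(41,0)]⟩,⟨0,[(42,0)]⟩),⟨2,
  [(3,0),(22,1),(12,0),(4,2)]⟩,.k,.k,(.r 0 ⟨0,[(2,0)]⟩ ⟨0,[(23,0),(10,0),(0,0)]⟩),.k,.k,.k,⟨true,0,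
  ⟨2,[(16,0),(6,0)]⟩,⟨0,[(49,0)]⟩⟩,⟨false,0,⟨0,[(32,0)]⟩,⟨5,[(8,1),(19,0),(0,0),(5,3),(10,2)]⟩⟩,
  ⟨false,1,⟨1,[(9,0),(24,0),(0,1),(15,1)]⟩,⟨39,[(2,24),(3,2),(3,0),(11,4),(1,2),(7,0)]⟩⟩,⟨true,0,⟨0,
  [(4,0),(3,0)]⟩,⟨0,[(17,0)]⟩⟩,⟨false,0,⟨0,[]⟩,⟨0,[]⟩⟩,⟨false,0,⟨0,[]⟩,⟨0,[]⟩⟩,[.o ⟨false,0,⟨0,[(49,
  0)]⟩,⟨39,[(9,1),(0,1),(12,15),(19,5),(2,18),(3,4)]⟩⟩,.e ⟨false,1,⟨1,[(50,0),(0,0)]⟩,⟨0,[(53,0)]⟩⟩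
  ⟨false,1,⟨8,[(1,5),(0,2),(5,3),(15,2),(7,0),(12,0),(5,2)]⟩,⟨0,[(0,0)]⟩⟩,.e ⟨true,0,⟨0,[]⟩,⟨0,[(53,
  0)]⟩⟩ ⟨true,0,⟨38,[(1,14),(0,8),(5,4),(6,5),(8,5),(0,5),(6,1),(12,4)]⟩,⟨0,[(0,0)]⟩⟩,.a ⟨true,0,⟨1,
  [(35,2),(0,0)]⟩,⟨1,[(2,1),(6,1),(35,0),(5,0)]⟩⟩ ⟨false,1,⟨1,[(50,0),(0,0)]⟩,⟨1,[(35,0),(0,0)]⟩⟩
  ⟨true,0,⟨4,[(1,2),(0,1),(3,0),(1,1),(0,0),(35,0)]⟩,⟨1,[(0,1),(34,0),(0,0)]⟩⟩]⟩)) (.R ⟨0,false,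
  false,true,[0,-1,1],[1,-1],[1,1],(⟨0,[(26,0)]⟩,⟨31,[(7,1),(6,3),(7,3),(1,0),(11,31),(1,4),(4,8),
  (0,1)]⟩),(⟨0,[(40,0)]⟩,⟨0,[(41,0)]⟩),⟨2,[(2,0),(22,1),(12,0),(4,2)]⟩,.k,.k,(.r 0 ⟨0,[(1,0)]⟩ ⟨0,
  [(22,0),(10,0),(0,0)]⟩),.k,.k,.k,⟨true,0,⟨2,[(15,0),(6,0)]⟩,⟨0,[(48,0)]⟩⟩,⟨false,0,⟨0,[(31,0)]⟩,
  ⟨5,[(7,1),(19,0),(0,0),(5,3),(10,2)]⟩⟩,⟨true,0,⟨1,[(8,0),(24,0),(0,1)]⟩,⟨39,[(1,24),(3,2),(3,0),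
  (11,4),(1,2),(7,0)]⟩⟩,⟨false,0,⟨0,[(3,0),(3,0)]⟩,⟨12,[(0,4),(0,2),(5,0),(10,1),(4,2),(21,3),(4,
  4)]⟩⟩,⟨false,0,⟨0,[]⟩,⟨0,[]⟩⟩,⟨false,0,⟨0,[]⟩,⟨0,[]⟩⟩,[.e ⟨false,0,⟨10,[(1,0),(5,0),(6,1),(18,0),
  (8,0),(2,0),(0,5)]⟩,⟨1,[(27,0),(0,0),(21,0)]⟩⟩ ⟨false,0,⟨3,[(1,0),(12,0),(16,2),(1,0),(8,0),(6,
  0)]⟩,⟨2,[(0,0),(7,0),(25,1),(10,0),(4,1)]⟩⟩,.o ⟨false,0,⟨0,[(48,0)]⟩,⟨39,[(8,1),(0,1),(12,15),(19,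
  5),(2,18),(3,4)]⟩⟩,.e ⟨false,0,⟨0,[]⟩,⟨1,[(27,0),(0,0),(21,0)]⟩⟩ ⟨false,0,⟨11,[(1,1),(12,3),(9,1),
  (6,5),(1,1),(15,0),(0,2)]⟩,⟨2,[(0,0),(7,0),(25,1),(10,0),(4,1)]⟩⟩,.a ⟨true,0,⟨1,[(34,2),(0,0)]⟩,
  ⟨1,[(1,1),(6,1),(35,0),(5,0)]⟩⟩ ⟨true,0,⟨10,[(1,0),(5,0),(6,1),(18,0),(8,0),(2,0),(0,5)]⟩,⟨1,[(34,
  0),(0,0)]⟩⟩ ⟨false,0,⟨3,[(1,3),(1,1),(3,1),(0,1),(35,0),(5,0)]⟩,⟨9,[(0,1),(2,1),(18,3),(11,9),(10,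
  4),(4,2)]⟩⟩]⟩)) (.I [0,0,-1,-2,1,0,0,-1] (.S ⟨1,0,[0,0,-1,-2,0,0,0,-1],[1,-1,-1],[0,1,-1,-2,0,0,0,
  -1],(⟨0,[(25,0)]⟩,⟨196,[(0,11),(20,2),(0,5),(0,8),(13,196),(0,34),(3,5),(0,53),(0,26)]⟩),⟨0,[(2,
  0)]⟩,.k,(.r (-2) ⟨18,[(0,22),(21,1),(0,3),(18,2),(6,8)]⟩ ⟨16,[(1,2),(3,9),(2,1),(0,1),(2,7),(9,1),
  (21,0)]⟩),⟨false,0,⟨0,[(48,0)]⟩,⟨3,[(22,1),(26,0),(0,0)]⟩⟩,⟨true,0,⟨0,[(48,0)]⟩,⟨0,[(47,0)]⟩⟩,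
  ⟨true,0,⟨5,[(0,0),(14,0),(5,0),(20,1)]⟩,⟨0,[]⟩⟩,⟨false,1,⟨15,[(0,3),(21,1),(0,3),(25,0),(0,4)]⟩,
  ⟨0,[]⟩⟩,[.a ⟨true,0,⟨4,[(0,2),(2,1),(10,1),(16,0),(18,0)]⟩,⟨37,[(5,9),(1,19),(1,17),(2,15),(9,1),
  (21,8),(1,3),(3,12)]⟩⟩ ⟨false,1,⟨5,[(0,5),(13,1),(30,0),(0,3),(2,0)]⟩,⟨12,[(1,0),(3,6),(2,3),(0,
  3),(12,3),(21,1),(5,4)]⟩⟩ ⟨true,1,⟨0,[(0,0)]⟩,⟨16,[(1,2),(3,9),(2,1),(0,1),(2,7),(9,1),(21,0)]⟩⟩,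
  .o ⟨false,1,⟨4,[(0,4),(2,1),(1,0),(14,0),(24,0),(4,1)]⟩,⟨0,[(9,0)]⟩⟩,.a ⟨true,(-1),⟨0,[(11,0)]⟩,
  ⟨4,[(0,0),(6,2),(14,0),(9,0),(1,0)]⟩⟩ ⟨false,1,⟨0,[(0,0)]⟩,⟨12,[(1,0),(3,6),(2,3),(0,3),(12,3),
  (21,1),(5,4)]⟩⟩ ⟨true,1,⟨0,[(0,0)]⟩,⟨28,[(5,5),(0,9),(2,14),(2,7),(8,1),(9,4),(12,4)]⟩⟩,.a ⟨true,
  (-1),⟨42,[(3,23),(1,6),(8,8),(0,7),(7,9),(10,4),(9,4)]⟩,⟨0,[(7,0)]⟩⟩ ⟨true,1,⟨5,[(0,5),(13,1),(30,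
  0),(0,3),(2,0)]⟩,⟨16,[(1,2),(3,9),(2,1),(0,1),(2,7),(9,1),(21,0)]⟩⟩ ⟨false,2,⟨1,[(0,1),(48,0),(0,
  0)]⟩,⟨16,[(1,2),(3,9),(2,1),(0,1),(2,7),(9,1),(21,0)]⟩⟩]⟩) (.I [1,2,1,1,0,0,0,-2] (.Q [0,0,2,0,0,
  0,1,0,0,-1,1] (.p true [0,0,1] [1] (⟨0,[(38,0)]⟩,⟨0,[(37,0)]⟩) .k 1 (⟨0,[]⟩,⟨0,[]⟩) .k .k) (.R ⟨0,
  false,false,false,[0,-1,1],[1,-1],[],(⟨0,[(28,0)]⟩,⟨145,[(1,3),(7,5),(6,5),(8,7),(0,2),(11,145),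
  (4,52),(1,30),(0,10),(5,2)]⟩),(⟨0,[(42,0)]⟩,⟨0,[(43,0)]⟩),⟨2,[(4,0),(22,1),(12,0),(4,2)]⟩,.k,.k,
  (.r (-1) ⟨11,[(7,1),(8,1),(3,7),(5,3),(20,2),(2,11),(0,12)]⟩ ⟨1,[(1,1),(0,1),(12,1),(31,0),(4,
  2)]⟩),.k,.k,.k,⟨true,0,⟨4,[(3,0),(10,0),(10,0)]⟩,⟨0,[(50,0)]⟩⟩,⟨false,0,⟨0,[(33,0)]⟩,⟨3,[(0,1),(8,
  1),(19,0),(0,0),(16,0)]⟩⟩,⟨false,1,⟨24,[(0,0),(0,10),(1,1),(1,0),(18,4),(11,0),(15,20)]⟩,⟨3,[(7,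
  1),(8,1),(30,0),(3,2)]⟩⟩,⟨true,0,⟨0,[(5,0),(3,0)]⟩,⟨0,[(18,0)]⟩⟩,⟨false,0,⟨0,[]⟩,⟨0,[]⟩⟩,⟨false,0,
  ⟨0,[]⟩,⟨0,[]⟩⟩,[.o ⟨false,0,⟨0,[(50,0)]⟩,⟨39,[(10,1),(0,1),(12,15),(19,5),(2,18),(3,4)]⟩⟩,.e
  ⟨false,1,⟨1,[(51,0),(0,0)]⟩,⟨29,[(1,2),(14,1),(8,0),(8,4),(2,4),(6,8),(2,0)]⟩⟩ ⟨false,1,⟨1,[(33,
  1),(16,1),(0,0),(0,0)]⟩,⟨3,[(0,1),(0,0),(0,0),(6,0),(1,0),(3,0),(31,0)]⟩⟩,.a ⟨true,0,⟨0,[(36,0)]⟩,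
  ⟨0,[(33,0)]⟩⟩ ⟨false,1,⟨1,[(29,0),(0,0),(21,0)]⟩,⟨0,[]⟩⟩ ⟨true,0,⟨0,[(33,0),(16,0)]⟩,⟨3,[(0,1),(0,
  0),(0,0),(6,0),(1,0),(3,0),(31,0)]⟩⟩,.o ⟨false,0,⟨0,[(0,0)]⟩,⟨0,[(22,0),(28,0)]⟩⟩]⟩) (.R ⟨0,false,
  false,false,[0,-1,1],[1,-1],[0,0,0,-1],(⟨0,[(28,0)]⟩,⟨145,[(1,3),(7,5),(6,5),(8,7),(0,2),(11,145),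
  (4,52),(1,30),(0,10),(5,2)]⟩),(⟨0,[(42,0)]⟩,⟨0,[(43,0)]⟩),⟨2,[(4,0),(22,1),(12,0),(4,2)]⟩,.k,.k,
  (.r (-1) ⟨2,[(0,0),(19,2),(5,0),(20,0),(2,2),(0,1)]⟩ ⟨1,[(1,1),(0,1),(12,1),(31,0),(4,2)]⟩),.k,.k,
  .k,⟨true,0,⟨1,[(36,0),(0,0)]⟩,⟨0,[]⟩⟩,⟨false,0,⟨0,[(33,0)]⟩,⟨29,[(1,3),(7,9),(10,5),(4,1),(10,13),
  (10,14),(4,2)]⟩⟩,⟨false,1,⟨3,[(1,1),(34,0),(0,0),(12,1),(1,3)]⟩,⟨2,[(0,0),(6,0),(10,0),(32,0)]⟩⟩,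
  ⟨true,0,⟨20,[(0,8),(0,7),(3,4),(10,3),(9,0),(19,0),(5,9)]⟩,⟨0,[(18,0)]⟩⟩,⟨false,0,⟨0,[]⟩,⟨0,[]⟩⟩,
  ⟨false,0,⟨0,[]⟩,⟨0,[]⟩⟩,[.o ⟨false,0,⟨0,[(50,0)]⟩,⟨39,[(10,1),(0,1),(12,15),(19,5),(2,18),(3,
  4)]⟩⟩,.e ⟨false,1,⟨1,[(50,1),(0,0),(0,0)]⟩,⟨0,[(49,0)]⟩⟩ ⟨false,1,⟨2,[(0,0),(15,0),(9,0),(23,0),
  (0,1),(0,1)]⟩,⟨6,[(1,1),(0,3),(6,1),(5,2),(20,4),(10,4)]⟩⟩,.e ⟨true,0,⟨0,[(50,0)]⟩,⟨0,[(49,0)]⟩⟩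
  ⟨true,0,⟨5,[(0,1),(15,1),(9,1),(23,1),(0,0),(0,0)]⟩,⟨6,[(1,1),(0,3),(6,1),(5,2),(20,4),(10,4)]⟩⟩,
  .a ⟨true,0,⟨1,[(36,2),(0,0)]⟩,⟨0,[(0,0)]⟩⟩ ⟨false,1,⟨1,[(50,1),(0,0),(0,0)]⟩,⟨4,[(3,0),(10,0),(10,
  0)]⟩⟩ ⟨true,0,⟨0,[(0,0),(49,0)]⟩,⟨10,[(1,0),(1,1),(8,0),(4,4),(16,2),(1,6),(10,4)]⟩⟩]⟩)) (.Q [0,0,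
  -2,0,0,0,-1,0,0,1,-1] (.p false [0,0,1] [1] (⟨0,[(38,0)]⟩,⟨0,[(37,0)]⟩) .k 1 (⟨0,[]⟩,⟨0,[]⟩) .k
  .k) (.R ⟨0,false,false,false,[0,-1,1],[1,-1],[0,0,0,-1],(⟨0,[(28,0)]⟩,⟨31,[(9,1),(6,3),(7,3),(1,
  0),(11,31),(1,4),(4,8),(0,1)]⟩),(⟨0,[(42,0)]⟩,⟨0,[(43,0)]⟩),⟨2,[(4,0),(22,1),(12,0),(4,2)]⟩,.k,.k,
  (.x 0 ⟨83,[(5,11),(1,3),(9,3),(2,3),(15,110),(0,6),(0,83),(6,55),(1,19),(5,13)]⟩ ⟨8,[(0,4),(3,2),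
  (21,1),(1,11),(18,4),(3,3)]⟩),.k,.k,.k,⟨true,0,⟨1,[(36,0),(0,0)]⟩,⟨0,[]⟩⟩,⟨false,0,⟨0,[(33,0)]⟩,
  ⟨5,[(9,1),(19,0),(0,0),(5,3),(10,2)]⟩⟩,⟨false,1,⟨0,[(35,0),(0,0),(15,0)]⟩,⟨27,[(0,4),(0,10),(9,4),
  (11,0),(20,7)]⟩⟩,⟨true,0,⟨0,[(5,0),(3,0)]⟩,⟨0,[(18,0)]⟩⟩,⟨false,0,⟨0,[]⟩,⟨0,[]⟩⟩,⟨false,0,⟨0,[]⟩,
  ⟨0,[]⟩⟩,[.o ⟨false,0,⟨0,[(50,0)]⟩,⟨39,[(10,1),(0,1),(12,15),(19,5),(2,18),(3,4)]⟩⟩,.e ⟨false,1,⟨1,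
  [(50,1),(0,0),(0,0)]⟩,⟨0,[(49,0)]⟩⟩ ⟨false,1,⟨2,[(0,0),(15,0),(9,0),(23,0),(0,1),(0,1)]⟩,⟨1,[(2,
  0),(0,0),(5,0),(5,1),(20,0),(10,1)]⟩⟩,.e ⟨true,0,⟨0,[(50,0)]⟩,⟨0,[(49,0)]⟩⟩ ⟨true,0,⟨5,[(0,1),(15,
  1),(9,1),(23,1),(0,0),(0,0)]⟩,⟨1,[(2,0),(0,0),(5,0),(5,1),(20,0),(10,1)]⟩⟩,.a ⟨true,0,⟨1,[(36,2),
  (0,0)]⟩,⟨0,[(0,0)]⟩⟩ ⟨false,1,⟨1,[(50,1),(0,0),(0,0)]⟩,⟨4,[(3,0),(10,0),(10,0)]⟩⟩ ⟨true,0,⟨0,[(0,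
  0),(49,0)]⟩,⟨6,[(3,1),(13,2),(0,0),(15,0),(1,4),(7,0),(2,2)]⟩⟩]⟩) (.I [0,0,2,2,0,0,0,-1] (.R ⟨0,
  false,false,false,[0,-1,1],[1,-1],[],(⟨0,[(29,0)]⟩,⟨31,[(10,1),(6,3),(7,3),(1,0),(11,31),(1,4),(4,
  8),(0,1)]⟩),(⟨0,[(43,0)]⟩,⟨0,[(44,0)]⟩),⟨2,[(5,0),(22,1),(12,0),(4,2)]⟩,.k,.k,(.r (-1) ⟨15,[(2,1),
  (14,3),(3,11),(5,5),(20,4),(2,9),(0,14)]⟩ ⟨0,[(0,0)]⟩),.k,.k,.k,⟨true,0,⟨4,[(0,0),(14,0),(10,0)]⟩,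
  ⟨0,[(51,0)]⟩⟩,⟨false,0,⟨0,[(34,0)]⟩,⟨3,[(1,1),(8,1),(19,0),(0,0),(16,0)]⟩⟩,⟨false,1,⟨11,[(0,5),(9,
  1),(19,0),(0,0),(4,5),(0,3),(15,8)]⟩,⟨51,[(2,23),(14,11),(3,3),(5,1),(17,17),(2,6),(3,4)]⟩⟩,⟨true,
  0,⟨0,[(6,0),(3,0)]⟩,⟨0,[(19,0)]⟩⟩,⟨false,0,⟨0,[]⟩,⟨0,[]⟩⟩,⟨false,0,⟨0,[]⟩,⟨0,[]⟩⟩,[.o ⟨false,0,⟨0,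
  [(51,0)]⟩,⟨39,[(11,1),(0,1),(12,15),(19,5),(2,18),(3,4)]⟩⟩,.e ⟨false,1,⟨1,[(52,0),(0,0)]⟩,⟨27,[(0,
  0),(0,2),(15,2),(6,0),(1,2),(9,2),(8,11)]⟩⟩ ⟨false,1,⟨6,[(2,0),(14,2),(9,0),(6,2),(1,1),(15,4),(0,
  4)]⟩,⟨0,[(1,0),(47,0)]⟩⟩,.a ⟨true,0,⟨0,[(37,0)]⟩,⟨0,[(34,0)]⟩⟩ ⟨false,1,⟨1,[(30,0),(0,0),(21,0)]⟩,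
  ⟨0,[]⟩⟩ ⟨true,0,⟨13,[(2,1),(14,5),(9,1),(6,5),(1,3),(15,2),(0,2)]⟩,⟨0,[(1,0),(47,0)]⟩⟩,.o ⟨false,
  0,⟨0,[(1,0)]⟩,⟨0,[(23,0),(28,0)]⟩⟩]⟩) (.I [0,0,0,0,1,0,0,0,-1] (.I [1,0,0,0,0,3,0,0,1] (.I [0,0,2,
  0,0,-2,1] (.I [1,0,-2,0,1,1,1] (.I [-1,2,0,-2,-1] (.I [1,1,0,-1,-1,3] (.I [0,1,0,2,0,-1,-1,-1]
  (.C [(0,1),(3,1),(2,1),(45,1),(0,0),(5,0)]) (.C [(0,0),(17,0),(17,0)])) (.C [(0,0),(21,0),(29,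
  0)])) (.C [(0,0),(20,1),(31,0)])) (.C [(0,0),(8,0),(4,0),(35,0)])) (.C [(0,0),(3,0),(3,0)])) (.C
  [(0,0),(32,0),(0,0),(13,0)])) (.C [(0,0),(30,0),(2,0)])))))))) (.Q [0,0,0,0,0,2,0,0,0,-1,1] (.p
  true [0,0,1] [1] (⟨0,[(34,0)]⟩,⟨0,[(33,0)]⟩) .k 1 (⟨0,[]⟩,⟨0,[]⟩) .k .k) (.R ⟨0,false,false,false,
  [1,-1,-1],[0,0,1],[1,0,0,0,0,0,0,1],(⟨0,[(23,0)]⟩,⟨19,[(0,8),(4,1),(6,3),(7,3),(1,0),(12,10),(0,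
  1),(5,1)]⟩),(⟨0,[(35,0)]⟩,⟨0,[(34,0)]⟩),⟨0,[(0,0)]⟩,.k,.k,(.r (-2) ⟨1,[(5,1),(19,0),(0,0),(4,1),
  (14,3),(1,0)]⟩ ⟨19,[(3,9),(2,1),(0,1),(2,13),(9,1),(21,0),(5,2)]⟩),(.r (-2) ⟨0,[(5,0),(25,1),(0,
  0),(13,0),(1,0)]⟩ ⟨56,[(3,41),(0,9),(2,16),(11,12),(9,6),(10,0),(1,4)]⟩),.k,.k,⟨true,0,⟨0,[]⟩,⟨1,
  [(32,0),(0,0)]⟩⟩,⟨false,2,⟨5,[(5,7),(19,0),(0,0),(5,3),(10,2)]⟩,⟨0,[(9,0),(8,0)]⟩⟩,⟨false,(-1),⟨7,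
  [(1,1),(0,5),(0,5),(2,3),(35,0),(5,2)]⟩,⟨0,[(5,0),(25,1),(0,0),(13,0),(1,0)]⟩⟩,⟨true,0,⟨1,[(1,0),
  (1,0),(3,0),(24,0)]⟩,⟨3,[(12,1),(18,7),(10,0),(5,2)]⟩⟩,⟨false,0,⟨0,[]⟩,⟨0,[]⟩⟩,⟨false,0,⟨0,[]⟩,⟨0,
  []⟩⟩,[.e ⟨false,0,⟨11,[(3,5),(8,1),(30,0),(0,3),(2,6)]⟩,⟨5,[(5,1),(19,0),(0,0),(4,5),(0,3),(15,
  2)]⟩⟩ ⟨false,1,⟨0,[(1,0)]⟩,⟨17,[(9,5),(2,3),(7,3),(1,1),(8,17),(1,7),(8,2),(5,8)]⟩⟩,.o ⟨false,1,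
  ⟨30,[(1,8),(1,4),(12,5),(4,5),(10,6),(10,10),(4,9)]⟩,⟨0,[(31,0)]⟩⟩,.a ⟨true,(-1),⟨0,[(9,0)]⟩,⟨2,
  [(5,1),(19,0),(0,0),(5,0)]⟩⟩ ⟨false,0,⟨3,[(3,1),(43,0),(0,0)]⟩,⟨5,[(5,1),(19,0),(0,0),(4,5),(0,3),
  (15,2)]⟩⟩ ⟨true,1,⟨18,[(1,12),(3,0),(10,1),(4,1),(8,1),(1,6),(10,2)]⟩,⟨0,[(9,0),(21,0)]⟩⟩,.e
  ⟨true,0,⟨11,[(3,5),(8,1),(30,0),(0,3),(2,6)]⟩,⟨0,[(31,0),(0,0)]⟩⟩ ⟨true,1,⟨0,[(1,0)]⟩,⟨1,[(9,1),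
  (21,1),(0,0),(0,0)]⟩⟩]⟩) (.I [0,0,-1,-2,1,0,0,-1] (.S ⟨1,0,[0,0,-1,-2,0,0,0,-1],[1,-1,-1],[0,1,-1,
  -2,0,0,0,-1],(⟨0,[(24,0)]⟩,⟨196,[(0,11),(19,2),(0,5),(0,8),(13,196),(0,34),(3,5),(0,53),(0,26)]⟩),
  ⟨0,[(1,0)]⟩,.k,(.r (-2) ⟨18,[(0,22),(20,1),(0,3),(18,2),(6,8)]⟩ ⟨19,[(4,9),(2,1),(0,1),(2,13),(9,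
  1),(21,0),(5,2)]⟩),⟨false,0,⟨0,[(47,0)]⟩,⟨3,[(21,1),(26,0),(0,0)]⟩⟩,⟨true,0,⟨0,[(47,0)]⟩,⟨0,[(46,
  0)]⟩⟩,⟨true,0,⟨5,[(0,0),(13,0),(5,0),(20,1)]⟩,⟨0,[]⟩⟩,⟨false,1,⟨15,[(0,3),(20,1),(0,3),(25,0),(0,
  4)]⟩,⟨0,[]⟩⟩,[.a ⟨true,0,⟨0,[(0,0),(9,0)]⟩,⟨37,[(4,9),(1,19),(1,17),(2,15),(9,1),(21,8),(1,3),(3,
  12)]⟩⟩ ⟨false,1,⟨2,[(0,1),(1,0),(10,0),(18,1),(15,0)]⟩,⟨19,[(4,9),(2,5),(0,5),(2,1),(9,5),(21,2),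
  (5,8)]⟩⟩ ⟨true,1,⟨0,[(0,0)]⟩,⟨19,[(4,9),(2,1),(0,1),(2,13),(9,1),(21,0),(5,2)]⟩⟩,.o ⟨false,1,⟨1,
  [(0,1),(9,1),(33,0),(4,0)]⟩,⟨0,[(8,0)]⟩⟩,.a ⟨true,(-1),⟨0,[(10,0)]⟩,⟨4,[(0,0),(5,2),(14,0),(9,0),
  (1,0)]⟩⟩ ⟨false,1,⟨0,[(0,0)]⟩,⟨19,[(4,9),(2,5),(0,5),(2,1),(9,5),(21,2),(5,8)]⟩⟩ ⟨true,1,⟨0,[(0,
  0)]⟩,⟨28,[(4,5),(0,9),(2,14),(2,7),(8,1),(9,4),(12,4)]⟩⟩,.a ⟨true,(-1),⟨1,[(10,1),(22,0),(0,0)]⟩,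
  ⟨0,[(6,0)]⟩⟩ ⟨true,1,⟨2,[(0,1),(1,0),(10,0),(18,1),(15,0)]⟩,⟨19,[(4,9),(2,1),(0,1),(2,13),(9,1),
  (21,0),(5,2)]⟩⟩ ⟨false,2,⟨1,[(0,1),(47,0),(0,0)]⟩,⟨19,[(4,9),(2,1),(0,1),(2,13),(9,1),(21,0),(5,
  2)]⟩⟩]⟩) (.Q [0,-1,-2,-1,1,0,-2,-1,0,1,-2] (.p false [0,0,1] [1,0,-1] (⟨0,[(36,0)]⟩,⟨0,[(35,0)]⟩)
  .k 2 (⟨0,[(35,0)]⟩,⟨0,[(36,0)]⟩) .k (.r 1 ⟨5,[(4,5),(8,1),(30,0),(0,3),(2,0)]⟩ ⟨2,[(6,1),(19,0),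
  (0,0),(4,5),(0,3),(15,2)]⟩)) (.I [0,0,-2,-2,0,0,0,1] (.Q [0,-1,-1,-1,0,0,-1,0,0,1,-1] (.p false
  [0,0,1] [1] (⟨0,[(38,0)]⟩,⟨0,[(37,0)]⟩) .k 1 (⟨0,[]⟩,⟨0,[]⟩) .k .k) (.R ⟨0,false,false,false,[0,
  -1,1],[1,-1,-1],[1,1],(⟨0,[(28,0)]⟩,⟨159,[(2,2),(6,5),(6,17),(7,17),(0,2),(12,159),(1,24),(3,2),
  (0,44),(0,11)]⟩),(⟨0,[(27,0)]⟩,⟨159,[(2,2),(6,5),(6,17),(7,17),(0,2),(13,159),(0,24),(3,2),(0,44),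
  (0,11)]⟩),⟨2,[(4,0),(22,1),(12,0),(4,2)]⟩,.k,.k,(.r 0 ⟨0,[(1,0)]⟩ ⟨0,[(24,0),(10,0),(0,0)]⟩),.k,
  .k,.k,⟨false,(-1),⟨3,[(1,0),(1,1),(4,0),(3,0),(2,0),(32,0)]⟩,⟨5,[(2,5),(6,1),(19,0),(0,0),(5,9),
  (10,2)]⟩⟩,⟨true,(-1),⟨0,[(0,0),(7,0)]⟩,⟨5,[(9,1),(19,0),(0,0),(5,9),(10,2)]⟩⟩,⟨true,0,⟨1,[(10,0),
  (24,0),(0,1)]⟩,⟨19,[(1,11),(5,1),(15,2),(1,0),(25,0)]⟩⟩,⟨false,1,⟨1,[(35,3),(10,0),(5,2)]⟩,⟨1,[(5,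
  0),(1,0),(10,0),(17,0)]⟩⟩,⟨false,0,⟨0,[]⟩,⟨0,[]⟩⟩,⟨false,0,⟨0,[]⟩,⟨0,[]⟩⟩,[.a ⟨true,0,⟨3,[(16,1),
  (18,3),(10,0),(5,2)]⟩,⟨9,[(3,2),(5,2),(4,0),(4,6),(4,0)]⟩⟩ ⟨false,0,⟨7,[(1,0),(3,0),(9,0),(19,1),
  (8,0),(3,2)]⟩,⟨1,[(29,0),(0,0),(21,0)]⟩⟩ ⟨true,0,⟨0,[(0,0),(34,0)]⟩,⟨11,[(5,2),(1,3),(3,0),(2,3),
  (9,0),(11,16),(10,3)]⟩⟩,.o ⟨false,1,⟨0,[(35,0),(14,0),(1,0)]⟩,⟨0,[(12,0)]⟩⟩,.a ⟨true,0,⟨0,[(36,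
  0)]⟩,⟨0,[(33,0)]⟩⟩ ⟨false,0,⟨0,[]⟩,⟨1,[(29,0),(0,0),(21,0)]⟩⟩ ⟨true,0,⟨0,[(0,0),(34,0)]⟩,⟨0,[(12,
  0),(23,0)]⟩⟩,.a ⟨true,0,⟨1,[(36,2),(0,0)]⟩,⟨0,[(0,0),(47,0)]⟩⟩ ⟨true,0,⟨7,[(1,0),(3,0),(9,0),(19,
  1),(8,0),(3,2)]⟩,⟨1,[(36,0),(0,0)]⟩⟩ ⟨false,1,⟨0,[(2,0)]⟩,⟨11,[(5,2),(1,3),(3,0),(2,3),(9,0),(11,
  16),(10,3)]⟩⟩]⟩) (.R ⟨0,false,false,false,[0,-1,1],[1,-1],[1],(⟨0,[(28,0)]⟩,⟨159,[(2,2),(6,5),(6,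
  17),(7,17),(0,2),(12,159),(1,24),(3,2),(0,44),(0,11)]⟩),(⟨0,[(42,0)]⟩,⟨0,[(43,0)]⟩),⟨2,[(4,0),(22,
  1),(12,0),(4,2)]⟩,.k,.k,(.r 0 ⟨0,[(1,0)]⟩ ⟨0,[(24,0),(10,0),(0,0)]⟩),.k,.k,.k,⟨true,0,⟨2,[(17,0),
  (6,0)]⟩,⟨0,[(50,0)]⟩⟩,⟨false,0,⟨0,[(33,0)]⟩,⟨5,[(9,1),(19,0),(0,0),(5,3),(10,2)]⟩⟩,⟨false,1,⟨1,
  [(10,0),(24,0),(0,1),(15,1)]⟩,⟨19,[(1,11),(5,1),(15,2),(1,0),(25,0)]⟩⟩,⟨true,0,⟨3,[(10,0),(4,1),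
  (19,2),(10,0),(5,2)]⟩,⟨0,[(18,0)]⟩⟩,⟨false,0,⟨0,[]⟩,⟨0,[]⟩⟩,⟨false,0,⟨0,[]⟩,⟨0,[]⟩⟩,[.o ⟨false,0,
  ⟨0,[(50,0)]⟩,⟨39,[(10,1),(0,1),(12,15),(19,5),(2,18),(3,4)]⟩⟩,.e ⟨false,1,⟨6,[(2,1),(2,1),(18,0),
  (27,1)]⟩,⟨0,[(54,0)]⟩⟩ ⟨false,1,⟨27,[(1,7),(0,17),(6,5),(10,1),(4,7),(20,4),(5,0)]⟩,⟨0,[(0,0)]⟩⟩,
  .e ⟨true,0,⟨0,[]⟩,⟨0,[(54,0)]⟩⟩ ⟨true,0,⟨76,[(1,11),(0,19),(13,17),(8,2),(0,12),(6,15),(0,4),(11,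
  4)]⟩,⟨0,[(0,0)]⟩⟩,.a ⟨true,0,⟨1,[(36,2),(0,0)]⟩,⟨1,[(1,1),(8,1),(35,0),(5,0)]⟩⟩ ⟨false,1,⟨6,[(2,
  1),(2,1),(18,0),(27,1)]⟩,⟨1,[(36,0),(0,0)]⟩⟩ ⟨true,0,⟨6,[(1,4),(0,1),(7,2),(4,0),(30,1),(5,0)]⟩,
  ⟨1,[(0,1),(35,0),(0,0)]⟩⟩]⟩)) (.I [1,-2,-2,-2,1,0,0,1] (.Q [0,0,-2,0,0,0,-1,0,0,1,-1] (.p false
  [0,0,1] [1] (⟨0,[(39,0)]⟩,⟨0,[(38,0)]⟩) .k 1 (⟨0,[]⟩,⟨0,[]⟩) .k .k) (.R ⟨0,false,false,false,[0,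
  -1,1],[1,-1],[1],(⟨0,[(29,0)]⟩,⟨159,[(3,2),(6,5),(6,17),(7,17),(0,2),(12,159),(1,24),(3,2),(0,44),
  (0,11)]⟩),(⟨0,[(43,0)]⟩,⟨0,[(44,0)]⟩),⟨2,[(5,0),(22,1),(12,0),(4,2)]⟩,.k,.k,(.x 0 ⟨3,[(28,3),(8,
  4),(0,0),(7,3),(7,1)]⟩ ⟨14,[(0,10),(2,1),(1,4),(20,1),(2,19),(15,1),(2,8),(3,1)]⟩),.k,.k,.k,⟨true,
  0,⟨4,[(2,0),(12,0),(10,0)]⟩,⟨0,[(51,0)]⟩⟩,⟨false,0,⟨0,[(34,0)]⟩,⟨5,[(10,1),(19,0),(0,0),(5,3),(10,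
  2)]⟩⟩,⟨false,1,⟨37,[(2,23),(0,13),(6,3),(14,1),(11,23),(10,6),(4,10)]⟩,⟨25,[(0,2),(0,8),(6,6),(8,
  3),(1,2),(25,8),(2,1)]⟩⟩,⟨true,0,⟨1,[(2,0),(0,0),(12,0)]⟩,⟨0,[(19,0)]⟩⟩,⟨false,0,⟨0,[]⟩,⟨0,[]⟩⟩,
  ⟨false,0,⟨0,[]⟩,⟨0,[]⟩⟩,[.o ⟨false,0,⟨0,[(51,0)]⟩,⟨39,[(11,1),(0,1),(12,15),(19,5),(2,18),(3,
  4)]⟩⟩,.e ⟨false,1,⟨6,[(3,1),(2,1),(18,0),(27,1)]⟩,⟨0,[(55,0)]⟩⟩ ⟨false,1,⟨50,[(0,7),(0,10),(1,28),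
  (6,8),(6,5),(8,11),(8,5),(11,3)]⟩,⟨1,[(2,0),(3,0),(9,0),(1,0),(29,0)]⟩⟩,.e ⟨true,0,⟨0,[]⟩,⟨0,[(55,
  0)]⟩⟩ ⟨true,0,⟨92,[(0,19),(0,7),(1,19),(13,29),(8,2),(0,20),(7,8),(11,0)]⟩,⟨1,[(2,0),(3,0),(9,0),
  (1,0),(29,0)]⟩⟩,.a ⟨true,0,⟨1,[(37,2),(0,0)]⟩,⟨0,[(0,0)]⟩⟩ ⟨false,1,⟨6,[(3,1),(2,1),(18,0),(27,
  1)]⟩,⟨1,[(37,0),(0,0)]⟩⟩ ⟨true,0,⟨8,[(0,6),(0,0),(1,0),(13,2),(30,0)]⟩,⟨6,[(2,1),(15,2),(0,0),(15,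
  0),(1,4),(7,0),(2,2)]⟩⟩]⟩) (.I [0,0,2,2,0,0,0,-1] (.R ⟨0,false,false,false,[0,-1,1],[1,-1],[],(⟨0,
  [(30,0)]⟩,⟨159,[(4,2),(6,5),(6,17),(7,17),(0,2),(12,159),(1,24),(3,2),(0,44),(0,11)]⟩),(⟨0,[(44,
  0)]⟩,⟨0,[(45,0)]⟩),⟨2,[(6,0),(22,1),(12,0),(4,2)]⟩,.k,.k,(.r (-1) ⟨18,[(2,10),(1,5),(13,5),(8,1),
  (8,11),(9,5),(2,5)]⟩ ⟨0,[(0,0)]⟩),.k,.k,.k,⟨true,0,⟨4,[(0,0),(15,0),(10,0)]⟩,⟨8,[(1,1),(0,0),(1,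
  0),(13,2),(30,0)]⟩⟩,⟨false,0,⟨0,[(35,0)]⟩,⟨3,[(1,1),(9,1),(19,0),(0,0),(16,0)]⟩⟩,⟨false,1,⟨16,[(0,
  9),(0,6),(2,6),(6,3),(14,1),(11,2),(15,3)]⟩,⟨49,[(2,20),(4,2),(1,12),(0,5),(7,6),(27,20),(2,1)]⟩⟩,
  ⟨true,0,⟨6,[(0,2),(3,2),(12,0),(0,0),(18,0),(10,0)]⟩,⟨0,[(20,0)]⟩⟩,⟨false,0,⟨0,[]⟩,⟨0,[]⟩⟩,⟨false,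
  0,⟨0,[]⟩,⟨0,[]⟩⟩,[.o ⟨false,0,⟨0,[(52,0)]⟩,⟨39,[(12,1),(0,1),(12,15),(19,5),(2,18),(3,4)]⟩⟩,.e
  ⟨false,1,⟨6,[(4,1),(2,1),(18,0),(27,1)]⟩,⟨27,[(0,0),(0,2),(16,2),(6,0),(1,2),(9,2),(8,11)]⟩⟩
  ⟨false,1,⟨104,[(2,26),(1,62),(6,12),(15,11),(7,15),(0,23),(5,5),(1,5),(3,9)]⟩,⟨19,[(1,12),(5,6),
  (4,6),(3,4),(0,3),(28,1),(2,1)]⟩⟩,.a ⟨true,0,⟨0,[(38,0)]⟩,⟨0,[(35,0)]⟩⟩ ⟨false,1,⟨9,[(1,2),(2,2),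
  (6,1),(15,2),(10,0),(15,1)]⟩,⟨0,[]⟩⟩ ⟨true,0,⟨23,[(2,2),(1,3),(13,6),(9,3),(6,8),(0,0),(9,0)]⟩,
  ⟨19,[(1,12),(5,6),(4,6),(3,4),(0,3),(28,1),(2,1)]⟩⟩,.o ⟨false,0,⟨0,[(1,0)]⟩,⟨23,[(2,3),(1,15),(8,
  11),(14,1),(17,5),(2,2),(3,0)]⟩⟩]⟩) (.I [0,0,0,0,1,0,0,0,-1] (.I [1,0,0,0,0,3,0,0,1] (.I [0,0,2,0,
  0,-2,1] (.I [-1,2,0,-2,-1] (.I [1,1,0,-1,-1,3] (.I [0,1,0,2,0,-1,-1,-1] (.C [(0,1),(2,1),(2,1),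
  (46,1),(0,0),(5,0)]) (.C [(0,0),(17,0),(17,0)])) (.C [(0,0),(21,0),(29,0)])) (.C [(0,0),(20,1),
  (31,0)])) (.C [(0,0),(3,0),(4,0)])) (.C [(0,0),(33,0),(0,0),(13,0)])) (.C [(0,0),(31,0),(2,
  0)])))) (.Q [0,0,2,0,0,0,1,0,0,-1,1] (.p true [0,0,1] [1] (⟨0,[(39,0)]⟩,⟨0,[(38,0)]⟩) .k 1 (⟨0,
  []⟩,⟨0,[]⟩) .k .k) (.R ⟨0,false,false,false,[0,-1,1],[1,-1],[],(⟨0,[(29,0)]⟩,⟨159,[(3,2),(6,5),(6,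
  17),(7,17),(0,2),(12,159),(1,24),(3,2),(0,44),(0,11)]⟩),(⟨0,[(43,0)]⟩,⟨0,[(44,0)]⟩),⟨2,[(5,0),(22,
  1),(12,0),(4,2)]⟩,.k,.k,(.r (-1) ⟨43,[(3,32),(2,4),(1,7),(12,54),(13,0),(9,19),(2,13)]⟩ ⟨0,[(1,0),
  (51,0)]⟩),.k,.k,.k,⟨true,0,⟨4,[(2,0),(12,0),(10,0)]⟩,⟨0,[(51,0)]⟩⟩,⟨false,0,⟨0,[(34,0)]⟩,⟨3,[(0,
  1),(9,1),(19,0),(0,0),(16,0)]⟩⟩,⟨false,1,⟨16,[(0,6),(1,9),(0,6),(6,3),(14,1),(11,2),(15,3)]⟩,⟨82,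
  [(3,26),(2,23),(1,39),(8,24),(3,5),(23,20),(2,13)]⟩⟩,⟨true,0,⟨1,[(2,0),(0,0),(12,0)]⟩,⟨0,[(19,
  0)]⟩⟩,⟨false,0,⟨0,[]⟩,⟨0,[]⟩⟩,⟨false,0,⟨0,[]⟩,⟨0,[]⟩⟩,[.o ⟨false,0,⟨0,[(51,0)]⟩,⟨39,[(11,1),(0,1),
  (12,15),(19,5),(2,18),(3,4)]⟩⟩,.e ⟨false,1,⟨6,[(3,1),(2,1),(18,0),(27,1)]⟩,⟨27,[(0,2),(0,0),(15,
  2),(8,3),(9,2),(8,11)]⟩⟩ ⟨false,1,⟨63,[(3,53),(4,10),(1,18),(10,16),(4,6),(8,7),(11,4)]⟩,⟨72,[(0,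
  25),(0,28),(4,17),(6,10),(11,1),(19,2),(2,8)]⟩⟩,.a ⟨true,0,⟨0,[(37,0)]⟩,⟨0,[(34,0)]⟩⟩ ⟨false,1,⟨9,
  [(0,2),(2,2),(6,1),(15,2),(10,0),(15,1)]⟩,⟨0,[]⟩⟩ ⟨true,0,⟨23,[(3,9),(4,2),(8,6),(9,0),(6,5),(0,
  3),(9,0)]⟩,⟨72,[(0,25),(0,28),(4,17),(6,10),(11,1),(19,2),(2,8)]⟩⟩,.o ⟨false,0,⟨0,[(0,0)]⟩,⟨27,
  [(3,15),(4,3),(3,7),(14,1),(17,5),(2,4),(3,10)]⟩⟩]⟩) (.R ⟨0,false,false,false,[0,-1,1],[1,-1],[1],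
  (⟨0,[(29,0)]⟩,⟨159,[(3,2),(6,5),(6,17),(7,17),(0,2),(12,159),(1,24),(3,2),(0,44),(0,11)]⟩),(⟨0,
  [(43,0)]⟩,⟨0,[(44,0)]⟩),⟨2,[(5,0),(22,1),(12,0),(4,2)]⟩,.k,.k,(.r (-1) ⟨43,[(3,32),(2,4),(1,7),
  (12,54),(13,0),(9,19),(2,13)]⟩ ⟨0,[(1,0),(51,0)]⟩),.k,.k,.k,⟨true,0,⟨4,[(2,0),(12,0),(10,0)]⟩,⟨0,
  [(51,0)]⟩⟩,⟨false,0,⟨0,[(34,0)]⟩,⟨5,[(10,1),(19,0),(0,0),(5,3),(10,2)]⟩⟩,⟨false,1,⟨37,[(2,23),(0,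
  13),(6,3),(14,1),(11,23),(10,6),(4,10)]⟩,⟨82,[(3,26),(2,23),(1,39),(8,24),(3,5),(23,20),(2,13)]⟩⟩,
  ⟨true,0,⟨1,[(2,0),(0,0),(12,0)]⟩,⟨0,[(19,0)]⟩⟩,⟨false,0,⟨0,[]⟩,⟨0,[]⟩⟩,⟨false,0,⟨0,[]⟩,⟨0,[]⟩⟩,
  [.o ⟨false,0,⟨0,[(51,0)]⟩,⟨39,[(11,1),(0,1),(12,15),(19,5),(2,18),(3,4)]⟩⟩,.e ⟨false,1,⟨6,[(3,1),
  (2,1),(18,0),(27,1)]⟩,⟨0,[(55,0)]⟩⟩ ⟨false,1,⟨55,[(0,7),(2,41),(4,4),(1,12),(10,22),(4,8),(20,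
  2)]⟩,⟨2,[(1,0),(4,0),(11,0),(18,0),(10,0)]⟩⟩,.e ⟨true,0,⟨0,[]⟩,⟨0,[(55,0)]⟩⟩ ⟨true,0,⟨3,[(0,0),(2,
  0),(13,0),(3,0),(5,0)]⟩,⟨2,[(1,0),(4,0),(11,0),(18,0),(10,0)]⟩⟩,.a ⟨true,0,⟨1,[(37,2),(0,0)]⟩,⟨0,
  [(0,0)]⟩⟩ ⟨false,1,⟨6,[(3,1),(2,1),(18,0),(27,1)]⟩,⟨1,[(37,0),(0,0)]⟩⟩ ⟨true,0,⟨0,[(0,0),(50,0)]⟩,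
  ⟨8,[(1,2),(16,1),(0,0),(6,0),(8,0),(1,6),(10,3)]⟩⟩]⟩)))) (.R ⟨0,false,false,false,[0,-1,1],[1,-1],
  [],(⟨0,[(26,0)]⟩,⟨31,[(7,1),(6,3),(7,3),(1,0),(11,31),(1,4),(4,8),(0,1)]⟩),(⟨0,[(40,0)]⟩,⟨0,[(41,
  0)]⟩),⟨2,[(2,0),(22,1),(12,0),(4,2)]⟩,.k,.k,(.r (-1) ⟨11,[(5,1),(8,1),(3,7),(5,3),(20,2),(2,11),
  (0,12)]⟩ ⟨1,[(0,1),(7,0),(24,2),(10,0),(5,2)]⟩),.k,.k,.k,⟨true,0,⟨2,[(15,0),(6,0)]⟩,⟨0,[(48,0)]⟩⟩,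
  ⟨false,0,⟨0,[(31,0)]⟩,⟨5,[(7,1),(19,0),(0,0),(5,3),(10,2)]⟩⟩,⟨false,1,⟨1,[(8,0),(24,0),(0,1),(15,
  1)]⟩,⟨3,[(5,1),(8,1),(30,0),(3,2)]⟩⟩,⟨true,0,⟨3,[(8,0),(4,1),(19,2),(10,0),(5,2)]⟩,⟨0,[(16,0)]⟩⟩,
  ⟨false,0,⟨0,[]⟩,⟨0,[]⟩⟩,⟨false,0,⟨0,[]⟩,⟨0,[]⟩⟩,[.o ⟨false,0,⟨0,[(48,0)]⟩,⟨39,[(8,1),(0,1),(12,
  15),(19,5),(2,18),(3,4)]⟩⟩,.e ⟨false,1,⟨1,[(49,0),(0,0)]⟩,⟨0,[(52,0)]⟩⟩ ⟨false,1,⟨1,[(31,1),(16,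
  1),(0,0),(0,0)]⟩,⟨9,[(0,3),(6,0),(0,2),(24,0),(0,4),(7,0),(2,2)]⟩⟩,.a ⟨true,0,⟨0,[(34,0)]⟩,⟨0,
  [(31,0)]⟩⟩ ⟨false,1,⟨1,[(27,0),(0,0),(21,0)]⟩,⟨0,[]⟩⟩ ⟨true,0,⟨0,[(31,0),(16,0)]⟩,⟨9,[(0,3),(6,0),
  (0,2),(24,0),(0,4),(7,0),(2,2)]⟩⟩,.o ⟨false,0,⟨0,[(0,0),(32,0),(14,0),(1,0)]⟩,⟨0,[(20,0),(28,
  0)]⟩⟩]⟩))))))) (.Q [0,0,0,0,0,2,0,0,0,-1,1] (.p true [0,0,1] [1] (⟨0,[(31,0)]⟩,⟨0,[(30,0)]⟩) .k 1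
  (⟨0,[]⟩,⟨0,[]⟩) .k .k) (.R ⟨0,false,false,false,[1,-1,-1],[1,-1],[1],(⟨0,[(20,0)]⟩,⟨19,[(0,8),(1,
  1),(6,3),(7,3),(1,0),(12,10),(0,1),(5,1)]⟩),(⟨0,[(35,0)]⟩,⟨0,[(36,0)]⟩),⟨0,[(0,0)]⟩,.k,.k,(.x 1
  ⟨1,[(0,1),(5,1),(22,0),(0,0)]⟩ ⟨0,[(2,0),(17,0),(14,0),(4,0)]⟩),.k,.k,.k,⟨true,0,⟨2,[(10,0),(6,
  0)]⟩,⟨0,[(43,0)]⟩⟩,⟨false,1,⟨8,[(1,3),(0,2),(14,1),(11,1),(7,2)]⟩,⟨0,[(15,0)]⟩⟩,⟨false,0,⟨0,[(5,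
  0),(0,0),(38,0)]⟩,⟨0,[(1,0),(26,0)]⟩⟩,⟨true,0,⟨0,[(12,0)]⟩,⟨0,[(28,0)]⟩⟩,⟨false,0,⟨0,[]⟩,⟨0,[]⟩⟩,
  ⟨false,0,⟨0,[]⟩,⟨0,[]⟩⟩,[.o ⟨false,0,⟨0,[(43,0)]⟩,⟨39,[(3,1),(0,1),(12,15),(19,5),(2,18),(3,4)]⟩⟩,
  .a ⟨true,0,⟨3,[(9,1),(29,0),(5,2)]⟩,⟨0,[(42,0)]⟩⟩ ⟨false,1,⟨1,[(44,0),(0,0)]⟩,⟨0,[(47,0)]⟩⟩ ⟨true,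
  1,⟨0,[(1,0)]⟩,⟨0,[(10,0),(4,0)]⟩⟩,.a ⟨true,(-1),⟨0,[(6,0)]⟩,⟨8,[(1,3),(0,2),(14,1),(11,1),(7,
  2)]⟩⟩ ⟨true,0,⟨0,[]⟩,⟨0,[(47,0)]⟩⟩ ⟨false,1,⟨0,[(1,0)]⟩,⟨3,[(7,0),(7,2),(1,0),(12,0)]⟩⟩,.a ⟨true,
  (-1),⟨1,[(6,1),(22,0),(0,0)]⟩,⟨0,[(2,0)]⟩⟩ ⟨false,1,⟨1,[(44,0),(0,0)]⟩,⟨1,[(29,0),(0,0)]⟩⟩ ⟨true,
  1,⟨5,[(1,1),(0,3),(6,1),(30,0),(3,0)]⟩,⟨0,[(10,0),(4,0)]⟩⟩]⟩) (.I [1,0,2,2,-1,0,0,1] (.S ⟨1,0,[0,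
  0,-1,-2,0,0,0,-1],[1,-1,-1],[1,1,-1,-1,0,0,0,-1],(⟨0,[(21,0)]⟩,⟨31,[(3,1),(6,3),(7,3),(1,0),(12,
  31),(0,4),(4,8),(0,1)]⟩),⟨0,[(1,0)]⟩,.k,(.x 1 ⟨11,[(7,9),(3,5),(19,1),(1,11),(5,7),(1,0),(2,5),(1,
  2)]⟩ ⟨13,[(1,13),(0,4),(0,11),(14,0),(0,2),(9,2),(8,2),(2,6)]⟩),⟨false,0,⟨0,[]⟩,⟨2,[(2,0),(16,0),
  (9,0),(16,0)]⟩⟩,⟨true,0,⟨0,[(44,0)]⟩,⟨0,[(43,0)]⟩⟩,⟨true,0,⟨0,[(43,0)]⟩,⟨0,[(44,0)]⟩⟩,⟨false,1,⟨2,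
  [(2,0),(16,0),(9,0),(16,0)]⟩,⟨0,[]⟩⟩,[.a ⟨true,0,⟨0,[(10,0),(18,0),(16,0)]⟩,⟨0,[(0,0),(2,0)]⟩⟩
  ⟨false,1,⟨5,[(2,1),(0,3),(6,1),(18,5),(11,0),(3,0)]⟩,⟨1,[(0,0),(12,0),(2,0),(29,0)]⟩⟩ ⟨true,1,⟨0,
  [(2,0),(26,0),(14,0)]⟩,⟨0,[(0,0)]⟩⟩,.o ⟨false,1,⟨0,[(29,0),(14,1),(1,0)]⟩,⟨0,[(5,0)]⟩⟩,.a ⟨true,
  (-1),⟨0,[(7,0)]⟩,⟨8,[(2,3),(0,2),(14,1),(11,1),(7,2)]⟩⟩ ⟨false,1,⟨0,[(2,0),(26,0)]⟩,⟨1,[(0,0),(12,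
  0),(2,0),(29,0)]⟩⟩ ⟨true,1,⟨0,[(2,0),(26,0),(14,0)]⟩,⟨1,[(0,0),(5,0),(0,0),(34,0)]⟩⟩,.a ⟨true,
  (-1),⟨1,[(7,1),(22,0),(0,0)]⟩,⟨0,[(3,0)]⟩⟩ ⟨true,1,⟨5,[(2,1),(0,3),(6,1),(18,5),(11,0),(3,0)]⟩,⟨0,
  [(0,0),(43,0)]⟩⟩ ⟨false,2,⟨0,[(2,1),(13,0),(12,0)]⟩,⟨0,[(0,0)]⟩⟩]⟩) (.I [0,0,2,1,-1,0,0,1] (.S ⟨1,
  0,[0,0,-1,-2,0,0,0,-1],[1,-1,-1],[1,1,-1,-1,0,0,0,-1],(⟨0,[(22,0)]⟩,⟨76,[(1,3),(9,1),(6,2),(0,3),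
  (0,0),(13,76),(3,28),(1,15),(0,6)]⟩),⟨0,[(2,0)]⟩,.k,(.r (-1) ⟨0,[(1,0)]⟩ ⟨1,[(0,0),(17,0),(0,
  0)]⟩),⟨false,0,⟨0,[]⟩,⟨13,[(1,3),(17,1),(0,3),(10,0),(0,0),(14,3)]⟩⟩,⟨true,0,⟨0,[(45,0)]⟩,⟨0,[(44,
  0)]⟩⟩,⟨true,0,⟨0,[(44,0)]⟩,⟨0,[(45,0)]⟩⟩,⟨false,1,⟨13,[(1,3),(17,1),(0,3),(10,0),(0,0),(14,3)]⟩,
  ⟨0,[]⟩⟩,[.e ⟨false,1,⟨25,[(1,20),(2,1),(0,4),(13,2),(11,2),(7,11)]⟩,⟨2,[(0,1),(6,0),(20,0),(18,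
  1)]⟩⟩ ⟨false,1,⟨0,[(1,0)]⟩,⟨17,[(0,6),(5,7),(12,4),(0,2),(0,1),(6,3),(12,0)]⟩⟩,.o ⟨false,1,⟨0,
  [(30,0),(14,1),(1,0)]⟩,⟨0,[(6,0)]⟩⟩,.a ⟨true,(-1),⟨0,[(8,0)]⟩,⟨3,[(1,0),(2,1),(14,0),(9,0),(1,
  0)]⟩⟩ ⟨false,1,⟨3,[(1,2),(17,0),(10,0),(0,0)]⟩,⟨2,[(0,1),(6,0),(20,0),(18,1)]⟩⟩ ⟨true,1,⟨1,[(1,1),
  (29,0),(0,0)]⟩,⟨0,[(0,0),(42,0)]⟩⟩,.e ⟨true,1,⟨25,[(1,20),(2,1),(0,4),(13,2),(11,2),(7,11)]⟩,⟨0,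
  [(0,0)]⟩⟩ ⟨true,1,⟨0,[(1,0)]⟩,⟨33,[(0,18),(5,7),(2,12),(8,6),(2,3),(17,2),(1,1)]⟩⟩]⟩) (.I [1,0,-1,
  -1,0,0,0,1] (.I [0,0,-1,-1,0,0,0,1] (.S ⟨1,0,[0,0,0,-1,0,0,0,1],[0,0,1],[0,1,0,-1,0,0,0,1],(⟨0,
  [(36,0)]⟩,⟨0,[(35,0)]⟩),⟨0,[(25,0)]⟩,.k,.k,⟨false,0,⟨0,[(47,0)]⟩,⟨3,[(21,1),(26,0),(0,0)]⟩⟩,⟨true,
  0,⟨0,[(47,0)]⟩,⟨0,[(46,0)]⟩⟩,⟨true,0,⟨0,[(51,0)]⟩,⟨0,[]⟩⟩,⟨false,1,⟨13,[(3,3),(17,1),(0,3),(10,0),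
  (0,0),(14,3)]⟩,⟨0,[]⟩⟩,[.e ⟨false,0,⟨26,[(1,21),(1,1),(9,3),(6,6),(20,7),(2,1)]⟩,⟨0,[(2,0),(8,0),
  (37,0)]⟩⟩ ⟨false,0,⟨0,[(0,0)]⟩,⟨3,[(2,1),(4,0),(13,1),(10,0),(0,1)]⟩⟩,.o ⟨false,1,⟨1,[(17,1),(26,
  0),(4,0)]⟩,⟨0,[(18,0)]⟩⟩,.o ⟨false,1,⟨7,[(3,0),(2,1),(14,0),(9,0),(1,4),(10,3)]⟩,⟨0,[(19,0)]⟩⟩,.a
  ⟨true,0,⟨0,[(33,0)]⟩,⟨0,[(30,0)]⟩⟩ ⟨false,0,⟨0,[(0,0)]⟩,⟨1,[(7,0),(24,0),(0,1),(15,1)]⟩⟩ ⟨true,0,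
  ⟨0,[(0,0)]⟩,⟨1,[(7,0),(24,0),(0,1)]⟩⟩]⟩) (.N [0,-1,1] 0 ⟨0,[(1,0)]⟩ ⟨0,[(0,0)]⟩ .k)) (.Q [0,0,2,0,
  0,0,1,0,0,-1,1] (.p true [0,0,1] [1] (⟨0,[(35,0)]⟩,⟨0,[(34,0)]⟩) .k 1 (⟨0,[]⟩,⟨0,[]⟩) .k .k) (.R
  ⟨0,false,false,false,[0,-1,1],[1,-1,-1],[0,1],(⟨0,[(25,0)]⟩,⟨76,[(3,3),(9,1),(6,2),(0,3),(0,0),
  (12,76),(4,28),(1,15),(0,6)]⟩),(⟨0,[(24,0)]⟩,⟨76,[(3,3),(9,1),(6,2),(0,3),(0,0),(13,76),(3,28),(1,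
  15),(0,6)]⟩),⟨2,[(4,0),(19,1),(12,0),(4,2)]⟩,.k,.k,(.r (-1) ⟨2,[(3,0),(13,3),(1,3),(28,1)]⟩ ⟨2,
  [(1,2),(12,0),(6,0)]⟩),.k,.k,.k,⟨true,(-1),⟨0,[(9,0),(0,0)]⟩,⟨13,[(0,2),(0,5),(1,7),(9,2),(7,0),
  (12,2),(14,7)]⟩⟩,⟨false,0,⟨0,[(19,0),(10,0)]⟩,⟨0,[(0,0),(5,0)]⟩⟩,⟨false,0,⟨0,[(1,0)]⟩,⟨1,[(17,1),
  (1,1),(28,0),(0,0)]⟩⟩,⟨true,0,⟨0,[(1,0),(0,0),(7,0),(8,0)]⟩,⟨0,[(15,0),(0,0)]⟩⟩,⟨false,0,⟨0,[]⟩,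
  ⟨0,[]⟩⟩,⟨false,0,⟨0,[]⟩,⟨0,[]⟩⟩,[.a ⟨true,0,⟨4,[(1,2),(1,1),(6,0),(2,1),(9,1),(25,0)]⟩,⟨5,[(8,3),
  (3,1),(3,1),(26,0),(5,2)]⟩⟩ ⟨false,0,⟨5,[(3,0),(9,0),(1,0),(3,0),(25,3)]⟩,⟨27,[(0,0),(2,7),(9,0),
  (7,4),(0,7),(11,0),(14,7)]⟩⟩ ⟨true,0,⟨0,[(2,0),(7,0),(8,0)]⟩,⟨5,[(0,5),(7,3),(3,1),(3,1),(26,0),
  (5,2)]⟩⟩,.o ⟨false,1,⟨5,[(1,1),(1,3),(6,1),(23,3),(9,0),(4,2)]⟩,⟨0,[(9,0)]⟩⟩,.e ⟨true,0,⟨0,[(51,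
  0)]⟩,⟨0,[]⟩⟩ ⟨true,0,⟨0,[(2,0),(7,0),(8,0)]⟩,⟨0,[(9,0),(23,0)]⟩⟩,.o ⟨false,0,⟨0,[(0,0)]⟩,⟨0,[(19,
  0),(28,0)]⟩⟩]⟩) (.Q [0,0,2,0,0,0,2,1,0,-1,2] (.p true [0,0,1] [1,0,-1] (⟨0,[(36,0)]⟩,⟨0,[(35,
  0)]⟩) .k 2 (⟨0,[(35,0)]⟩,⟨0,[(36,0)]⟩) .k (.r 0 ⟨0,[(16,1),(2,1)]⟩ ⟨3,[(1,3),(1,2),(17,0),(10,0),
  (0,0)]⟩)) (.R ⟨0,false,false,false,[0,-1,1],[1,0,-1],[0,1,1],(⟨0,[(26,0)]⟩,⟨76,[(4,3),(9,1),(6,2),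
  (0,3),(0,0),(12,76),(4,28),(1,15),(0,6)]⟩),(⟨0,[(36,0)]⟩,⟨0,[(37,0)]⟩),⟨2,[(5,0),(19,1),(12,0),(4,
  2)]⟩,.k,.k,(.r (-1) ⟨8,[(1,3),(2,2),(13,11),(5,3),(20,3),(3,1)]⟩ ⟨2,[(2,2),(12,0),(6,0)]⟩),(.r 0
  ⟨0,[(1,0),(9,0),(5,0),(0,0),(26,0)]⟩ ⟨1,[(2,1),(1,0),(17,0),(10,0),(0,0)]⟩),.k,.k,⟨true,(-1),⟨0,
  [(11,0),(4,0)]⟩,⟨6,[(2,4),(1,2),(18,0),(26,2)]⟩⟩,⟨false,0,⟨0,[(1,0),(18,0)]⟩,⟨6,[(0,6),(1,1),(0,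
  3),(0,0),(17,1),(19,0)]⟩⟩,⟨false,0,⟨1,[(2,1),(31,0),(0,0)]⟩,⟨1,[(1,1),(16,1),(26,0),(4,0)]⟩⟩,
  ⟨true,0,⟨1,[(1,0),(0,2),(0,0),(7,0),(8,1)]⟩,⟨0,[(16,0),(1,0)]⟩⟩,⟨false,0,⟨0,[]⟩,⟨0,[]⟩⟩,⟨false,0,
  ⟨0,[]⟩,⟨0,[]⟩⟩,[.a ⟨true,0,⟨4,[(2,2),(0,0),(0,0),(6,0),(12,1),(19,0)]⟩,⟨0,[(17,0)]⟩⟩ ⟨false,0,⟨0,
  [(52,0)]⟩,⟨1,[(49,0),(0,0)]⟩⟩ ⟨true,0,⟨1,[(1,0),(0,0),(0,0),(7,0),(8,1)]⟩,⟨0,[(0,0)]⟩⟩,.o ⟨false,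
  1,⟨0,[(33,0),(16,0)]⟩,⟨0,[(16,0)]⟩⟩,.a ⟨true,0,⟨0,[(34,0)]⟩,⟨0,[(31,0)]⟩⟩ ⟨false,0,⟨1,[(34,0),(0,
  0)]⟩,⟨1,[(49,0),(0,0)]⟩⟩ ⟨true,0,⟨1,[(1,0),(0,0),(0,0),(7,0),(8,1)]⟩,⟨4,[(0,3),(2,0),(6,1),(2,0),
  (28,0)]⟩⟩,.a ⟨true,0,⟨1,[(34,2),(0,0)]⟩,⟨0,[(1,0)]⟩⟩ ⟨true,0,⟨0,[(52,0)]⟩,⟨0,[]⟩⟩ ⟨false,1,⟨0,[(1,
  0),(31,0),(16,0)]⟩,⟨0,[(0,0)]⟩⟩]⟩) (.R ⟨0,false,false,false,[0,-1,1],[1,0,-1],[0,1,1],(⟨0,[(26,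
  0)]⟩,⟨76,[(4,3),(9,1),(6,2),(0,3),(0,0),(12,76),(4,28),(1,15),(0,6)]⟩),(⟨0,[(36,0)]⟩,⟨0,[(37,
  0)]⟩),⟨2,[(5,0),(19,1),(12,0),(4,2)]⟩,.k,.k,(.r (-1) ⟨8,[(1,3),(2,2),(13,11),(5,3),(20,3),(3,1)]⟩
  ⟨2,[(2,2),(12,0),(6,0)]⟩),(.r 0 ⟨0,[(1,0),(9,0),(5,0),(0,0),(26,0)]⟩ ⟨1,[(2,1),(1,0),(17,0),(10,
  0),(0,0)]⟩),.k,.k,⟨true,(-1),⟨0,[(11,0),(4,0)]⟩,⟨6,[(2,4),(1,2),(18,0),(26,2)]⟩⟩,⟨false,0,⟨0,[(1,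
  0),(18,0)]⟩,⟨7,[(4,0),(2,1),(14,0),(9,0),(1,12),(10,3)]⟩⟩,⟨false,0,⟨1,[(2,1),(31,0),(0,0)]⟩,⟨1,
  [(1,1),(16,1),(26,0),(4,0)]⟩⟩,⟨true,0,⟨7,[(0,4),(1,9),(1,0),(6,0),(12,1),(10,0)]⟩,⟨0,[(16,0),(1,
  0)]⟩⟩,⟨false,0,⟨0,[]⟩,⟨0,[]⟩⟩,⟨false,0,⟨0,[]⟩,⟨0,[]⟩⟩,[.e ⟨false,0,⟨0,[(52,0)]⟩,⟨1,[(49,0),(0,
  0)]⟩⟩ ⟨false,0,⟨0,[(0,0)]⟩,⟨2,[(6,0),(9,0),(6,0),(8,0),(1,2),(10,0)]⟩⟩,.o ⟨false,1,⟨0,[(33,0),(16,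
  0)]⟩,⟨0,[(16,0)]⟩⟩,.a ⟨true,0,⟨0,[(34,0)]⟩,⟨0,[(31,0)]⟩⟩ ⟨false,0,⟨1,[(34,0),(0,0)]⟩,⟨1,[(49,0),
  (0,0)]⟩⟩ ⟨true,0,⟨7,[(0,4),(1,1),(1,0),(6,0),(12,1),(10,0)]⟩,⟨0,[(16,0),(17,0)]⟩⟩,.e ⟨true,0,⟨0,
  [(52,0)]⟩,⟨0,[]⟩⟩ ⟨true,0,⟨0,[(0,0)]⟩,⟨1,[(15,0),(2,0),(13,0),(1,1),(10,0)]⟩⟩]⟩))))))))

theorem ok123 : chk K t123 r62 = true := by decide +kernel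


end Helper25.S1T.Ymp_1cP3
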