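import Pool.Agent.Helper25.S1T.Ymp_1cP3_q

set_option autoImplicit false
set_option linter.all false

namespace Helper25.S1T.Ymp_1cP3

open Helper25.KG Helper25.KW Helper55.KE Helper11.CT

noncomputable def t127 : Tre :=
  (.R ⟨2,true,false,false,[0,1],[1,0,-1],[0,0,1],(⟨0,[]⟩,⟨0,[]⟩),(⟨0,[(26,0)]⟩,⟨0,[(27,0)]⟩),⟨0,[]⟩,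
  .k,.k,.k,.k,.k,.k,⟨false,0,⟨0,[(7,0),(2,0)]⟩,⟨1,[(0,1),(23,1),(10,0),(0,1),(2,0)]⟩⟩,⟨true,(-1),⟨0,
  [(1,0)]⟩,⟨1,[(24,1),(10,0),(3,0)]⟩⟩,⟨true,0,⟨0,[(38,0)]⟩,⟨0,[(37,0)]⟩⟩,⟨false,0,⟨0,[(0,0)]⟩,⟨3,
  [(6,1),(0,1),(4,1),(22,0),(3,0)]⟩⟩,⟨false,1,⟨1,[(17,0),(0,0),(21,0)]⟩,⟨0,[]⟩⟩,⟨true,0,⟨5,[(0,3),
  (8,1),(2,0),(19,0),(1,0),(7,0)]⟩,⟨0,[(6,0)]⟩⟩,[]⟩)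

theorem ok127 : chk K t127 r59 = true := by decide +kernel

noncomputable def t129 : Tre :=
  (.R ⟨1,false,false,true,[1,-1],[0,-1,1],[0,1],(⟨0,[(30,0)]⟩,⟨0,[(31,0)]⟩),(⟨0,[(16,0)]⟩,⟨63,[(0,
  7),(11,3),(9,7),(3,63),(1,9),(3,1),(0,17),(0,4),(4,0)]⟩),⟨0,[(15,0),(0,0)]⟩,.k,.k,(.r (-1) ⟨1,[(0,
  0),(3,0),(3,0),(26,0),(3,1)]⟩ ⟨2,[(5,1),(6,1)]⟩),.k,.k,.k,⟨true,0,⟨0,[(0,0),(0,0),(0,0)]⟩,⟨0,[(8,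
  0),(1,0)]⟩⟩,⟨false,1,⟨0,[(1,0)]⟩,⟨16,[(0,2),(12,2),(0,6),(13,0),(1,0),(1,2),(1,2)]⟩⟩,⟨false,0,⟨2,
  [(5,0),(6,0)]⟩,⟨3,[(0,1),(7,1),(26,0),(3,1),(0,0)]⟩⟩,⟨true,0,⟨0,[(6,0)]⟩,⟨5,[(0,3),(8,1),(2,0),
  (19,0),(1,0),(7,0)]⟩⟩,⟨false,0,⟨4,[(2,2),(9,0),(23,1),(3,1)]⟩,⟨1,[(0,1),(7,1),(26,0),(3,0)]⟩⟩,
  ⟨false,1,⟨3,[(6,1),(0,1),(4,1),(22,0),(3,0)]⟩,⟨0,[(0,0)]⟩⟩,[.o ⟨false,0,⟨2,[(4,0),(1,1),(1,0),(26,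
  0)]⟩,⟨0,[(9,0),(30,0)]⟩⟩,.a ⟨true,0,⟨0,[(8,0)]⟩,⟨15,[(0,9),(1,1),(6,5),(2,3),(21,2),(1,7),(3,
  0)]⟩⟩ ⟨false,1,⟨1,[(17,0),(0,0),(20,0)]⟩,⟨0,[]⟩⟩ ⟨true,1,⟨1,[(8,1),(26,0),(3,0)]⟩,⟨0,[(0,0),(1,
  0)]⟩⟩,.o ⟨false,0,⟨1,[(24,0),(0,0)]⟩,⟨1,[(35,0),(3,0)]⟩⟩,.e ⟨true,0,⟨5,[(4,1),(30,0),(0,3),(2,
  0)]⟩,⟨1,[(24,0),(0,0)]⟩⟩ ⟨true,1,⟨2,[(4,0),(1,1),(1,0),(26,0),(3,2)]⟩,⟨0,[(0,0),(1,0)]⟩⟩]⟩)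

theorem ok129 : chk K t129 l73 = true := by decide +kernel

noncomputable def t130 : Tre :=
  (.R ⟨1,true,false,true,[1,0,-1],[0,1],[0,1,0,-1,0,0,0,-1],(⟨0,[(27,0)]⟩,⟨0,[(28,0)]⟩),(⟨0,[(32,
  0)]⟩,⟨0,[(31,0)]⟩),⟨0,[(16,0)]⟩,.k,.k,.k,.k,(.r (-1) ⟨5,[(0,5),(1,5),(2,1),(30,0),(0,3),(2,0)]⟩
  ⟨2,[(3,1),(4,0),(2,0),(2,1)]⟩),.k,⟨false,1,⟨5,[(0,5),(1,5),(2,1),(30,0),(0,3),(2,0)]⟩,⟨5,[(1,2),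
  (1,3),(4,1),(2,1),(2,0),(7,2),(18,2)]⟩⟩,⟨true,1,⟨0,[(2,0)]⟩,⟨2,[(0,0),(5,2),(2,0),(1,2),(23,0),(5,
  0)]⟩⟩,⟨false,0,⟨0,[(39,0)]⟩,⟨3,[(13,1),(26,0),(0,0)]⟩⟩,⟨true,0,⟨0,[(1,0)]⟩,⟨5,[(0,3),(12,0),(10,
  1),(8,0),(1,0),(7,0)]⟩⟩,⟨true,0,⟨0,[(43,0)]⟩,⟨0,[]⟩⟩,⟨false,1,⟨3,[(1,3),(11,1),(26,0),(0,0)]⟩,⟨0,
  [(0,0)]⟩⟩,[]⟩)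

theorem ok130 : chk K t130 l74 = true := by decide +kernel

noncomputable def t131 : Tre :=
  (.I [0,-1,1,0,0,0,0,1] (.S ⟨1,0,[0,0,0,-1,0,0,0,-1],[1,0,-1],[1,1,0,0,0,0,0,-1],(⟨0,[(29,0)]⟩,⟨0,
  [(30,0)]⟩),⟨0,[(18,0)]⟩,.k,.k,⟨false,0,⟨0,[]⟩,⟨1,[(20,0),(0,0),(21,0)]⟩⟩,⟨true,0,⟨0,[(41,0)]⟩,⟨0,
  [(40,0)]⟩⟩,⟨true,0,⟨0,[(40,0)]⟩,⟨0,[(41,0)]⟩⟩,⟨false,1,⟨1,[(20,0),(0,0),(21,0)]⟩,⟨0,[]⟩⟩,[.a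
  ⟨true,0,⟨3,[(7,1),(18,3),(10,0),(5,2)]⟩,⟨5,[(2,3),(3,1),(3,1),(26,0),(5,2)]⟩⟩ ⟨true,0,⟨0,[(1,0)]⟩,
  ⟨0,[(0,0)]⟩⟩ ⟨false,1,⟨1,[(1,1),(39,1),(0,0),(0,0)]⟩,⟨1,[(0,0),(1,0),(21,0)]⟩⟩,.o ⟨false,1,⟨0,
  [(26,0),(14,0),(1,0)]⟩,⟨0,[(3,0)]⟩⟩,.o ⟨false,0,⟨0,[(13,0)]⟩,⟨3,[(4,1),(15,0),(0,0),(5,1),(10,
  0)]⟩⟩,.o ⟨false,0,⟨0,[(28,0)]⟩,⟨0,[(4,0)]⟩⟩]⟩) (.Q [0,0,-1,0,1,0,2,0,0,-1,2] (.p true [0,0,1] [1,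
  0,-1] (⟨0,[(30,0)]⟩,⟨0,[(29,0)]⟩) .k 2 (⟨0,[(29,0)]⟩,⟨0,[(30,0)]⟩) .k (.r 0 ⟨0,[(10,1),(2,1)]⟩ ⟨0,
  [(1,1),(41,0)]⟩)) (.K ⟨0,[1,-1,-1],(-1),0,(⟨0,[(19,0)]⟩,⟨22,[(21,2),(0,2),(8,22),(0,4),(4,5),(0,
  2)]⟩),.k,(.r (-1) ⟨1,[(1,1),(40,3),(0,0),(0,0)]⟩ ⟨2,[(6,1),(4,0),(2,0),(2,1)]⟩),.k,(.r (-1) ⟨0,
  [(1,0),(0,0),(39,0),(1,0)]⟩ ⟨2,[(6,0),(4,4),(2,4),(2,0)]⟩),.k,[⟨0,[(0,0)]⟩,⟨3,[(8,1),(0,3),(4,3),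
  (23,0),(5,2)]⟩,⟨0,[(4,0)]⟩,⟨3,[(2,3),(5,1),(9,1),(2,0),(0,0),(21,0)]⟩]⟩) (.I [1,1,-2,-1,0,0,0,1]
  (.Q [0,0,0,0,0,2,0,0,0,-1,1] (.p true [0,0,1] [1] (⟨0,[(32,0)]⟩,⟨0,[(31,0)]⟩) .k 1 (⟨0,[]⟩,⟨0,
  []⟩) .k .k) (.R ⟨0,false,false,false,[1,-1,-1],[0,-1,1],[1,1,1],(⟨0,[(21,0)]⟩,⟨22,[(23,2),(0,2),
  (8,22),(0,4),(4,5),(0,2)]⟩),(⟨0,[(22,0)]⟩,⟨22,[(23,2),(0,2),(7,22),(1,4),(4,5),(0,2)]⟩),⟨0,[(0,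
  0)]⟩,.k,.k,(.r (-1) ⟨1,[(3,1),(40,3),(0,0),(0,0)]⟩ ⟨6,[(2,0),(3,0),(1,3),(4,0),(5,4)]⟩),.k,.k,.k,
  ⟨false,0,⟨2,[(4,2),(6,0),(6,0)]⟩,⟨0,[(1,0),(44,0)]⟩⟩,⟨true,1,⟨0,[(7,0),(22,0)]⟩,⟨0,[(2,0)]⟩⟩,
  ⟨true,(-1),⟨6,[(2,2),(3,0),(4,4),(0,1),(0,2),(5,0)]⟩,⟨1,[(3,1),(40,1),(0,0),(0,0)]⟩⟩,⟨false,1,⟨1,
  [(13,3),(27,0),(4,0)]⟩,⟨0,[(2,0),(0,0),(0,0),(41,0)]⟩⟩,⟨false,0,⟨0,[]⟩,⟨0,[]⟩⟩,⟨false,0,⟨0,[]⟩,⟨0,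
  []⟩⟩,[.a ⟨true,0,⟨0,[(14,0)]⟩,⟨20,[(2,1),(0,5),(4,2),(6,14),(11,1),(6,2),(1,2),(3,6),(5,11)]⟩⟩
  ⟨false,0,⟨0,[(48,0)]⟩,⟨1,[(45,0),(0,0)]⟩⟩ ⟨true,1,⟨0,[(7,0),(6,0)]⟩,⟨0,[(2,0),(0,0),(7,0),(34,
  0)]⟩⟩,.o ⟨false,1,⟨1,[(14,1),(26,0),(4,0)]⟩,⟨0,[(15,0)]⟩⟩,.o ⟨false,0,⟨0,[(31,0)]⟩,⟨0,[(7,0)]⟩⟩,
  .e ⟨false,0,⟨0,[]⟩,⟨1,[(23,0),(0,0),(21,0)]⟩⟩ ⟨false,2,⟨1,[(7,1),(6,1),(30,0),(0,0)]⟩,⟨0,[(2,0),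
  (0,0),(7,0),(34,0)]⟩⟩]⟩) (.Q [0,0,-2,0,0,0,-1,0,0,1,-1] (.p false [0,0,1] [1] (⟨0,[(33,0)]⟩,⟨0,
  [(32,0)]⟩) .k 1 (⟨0,[]⟩,⟨0,[]⟩) .k .k) (.Q [0,0,2,1,0,0,2,1,0,-1,2] (.p true [0,0,1] [1,0,-1] (⟨0,
  [(34,0)]⟩,⟨0,[(33,0)]⟩) .k 2 (⟨0,[(33,0)]⟩,⟨0,[(34,0)]⟩) .k (.r 0 ⟨8,[(2,3),(0,5),(3,1),(6,9),(5,
  1),(21,1),(4,1)]⟩ ⟨0,[(5,1),(41,0)]⟩)) (.R ⟨0,false,false,false,[0,-1,1],[1,-1,-1],[0,1,1],(⟨0,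
  [(24,0)]⟩,⟨22,[(25,2),(0,2),(7,22),(1,4),(4,5),(0,2)]⟩),(⟨0,[(23,0)]⟩,⟨22,[(25,2),(0,2),(8,22),(0,
  4),(4,5),(0,2)]⟩),⟨2,[(2,0),(20,1),(12,0),(4,2)]⟩,.k,.k,(.r (-1) ⟨5,[(3,3),(17,1),(24,9),(0,2),(0,
  0)]⟩ ⟨0,[(6,0),(3,0),(37,0)]⟩),.k,.k,.k,⟨true,(-1),⟨2,[(0,0),(3,1),(3,0),(4,0),(16,0)]⟩,⟨0,[(5,0),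
  (40,0),(1,0)]⟩⟩,⟨false,0,⟨6,[(1,3),(2,0),(17,3),(20,0)]⟩,⟨0,[(9,0),(22,0)]⟩⟩,⟨false,0,⟨0,[(6,0),
  (6,0),(34,0)]⟩,⟨0,[(3,0),(44,0)]⟩⟩,⟨true,0,⟨0,[(4,0),(0,0),(0,0),(41,0)]⟩,⟨0,[(0,0),(2,0)]⟩⟩,
  ⟨false,0,⟨0,[]⟩,⟨0,[]⟩⟩,⟨false,0,⟨0,[]⟩,⟨0,[]⟩⟩,[.a ⟨true,0,⟨3,[(12,1),(18,3),(10,0),(5,2)]⟩,⟨0,
  [(0,0),(0,0)]⟩⟩ ⟨false,0,⟨0,[(50,0)]⟩,⟨1,[(47,0),(0,0)]⟩⟩ ⟨true,0,⟨1,[(1,0),(2,0),(0,0),(25,0),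
  (14,1),(1,0)]⟩,⟨0,[(0,0)]⟩⟩,.o ⟨false,1,⟨0,[(31,0),(14,0),(1,0)]⟩,⟨0,[(8,0)]⟩⟩,.a ⟨true,0,⟨0,[(32,
  0)]⟩,⟨0,[(29,0)]⟩⟩ ⟨false,0,⟨1,[(32,0),(0,0)]⟩,⟨1,[(47,0),(0,0)]⟩⟩ ⟨true,0,⟨1,[(1,0),(2,0),(0,0),
  (25,0),(14,1),(1,0)]⟩,⟨2,[(0,1),(4,0),(2,0),(21,0)]⟩⟩,.a ⟨true,0,⟨1,[(32,2),(0,0)]⟩,⟨0,[(1,0)]⟩⟩
  ⟨true,0,⟨0,[(50,0)]⟩,⟨0,[]⟩⟩ ⟨false,1,⟨0,[(1,0),(29,0),(14,0),(1,0)]⟩,⟨0,[(0,0)]⟩⟩]⟩) (.R ⟨0,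
  false,false,false,[0,-1,1],[1,-1,-1],[0,1,1],(⟨0,[(24,0)]⟩,⟨22,[(25,2),(0,2),(7,22),(1,4),(4,5),
  (0,2)]⟩),(⟨0,[(23,0)]⟩,⟨22,[(25,2),(0,2),(8,22),(0,4),(4,5),(0,2)]⟩),⟨2,[(2,0),(20,1),(12,0),(4,
  2)]⟩,.k,.k,(.r (-1) ⟨11,[(0,7),(2,1),(12,15),(4,1),(3,2),(0,2),(16,3),(3,2)]⟩ ⟨0,[(6,0),(3,0),(37,
  0)]⟩),.k,.k,.k,⟨true,(-1),⟨6,[(4,2),(3,0),(4,4),(0,1),(0,2),(5,0)]⟩,⟨0,[(5,0),(40,0),(1,0)]⟩⟩,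
  ⟨false,0,⟨6,[(1,3),(2,0),(17,3),(20,0)]⟩,⟨0,[(9,0),(22,0)]⟩⟩,⟨false,0,⟨0,[(6,0),(6,0),(34,0)]⟩,⟨0,
  [(3,0),(44,0)]⟩⟩,⟨true,0,⟨0,[(0,0),(5,0),(6,0),(34,0)]⟩,⟨0,[(14,0),(0,0)]⟩⟩,⟨false,0,⟨0,[]⟩,⟨0,
  []⟩⟩,⟨false,0,⟨0,[]⟩,⟨0,[]⟩⟩,[.e ⟨false,0,⟨0,[(50,0)]⟩,⟨1,[(47,0),(0,0)]⟩⟩ ⟨false,0,⟨0,[(0,0)]⟩,
  ⟨1,[(8,0),(0,0),(11,0),(10,1)]⟩⟩,.o ⟨false,1,⟨0,[(31,0),(14,0),(1,0)]⟩,⟨0,[(8,0)]⟩⟩,.a ⟨true,0,⟨0,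
  [(32,0)]⟩,⟨0,[(29,0)]⟩⟩ ⟨false,0,⟨1,[(32,0),(0,0)]⟩,⟨1,[(47,0),(0,0)]⟩⟩ ⟨true,0,⟨8,[(0,4),(3,0),
  (7,1),(9,0),(8,3),(16,2)]⟩,⟨0,[(8,0),(23,0)]⟩⟩,.e ⟨true,0,⟨0,[(50,0)]⟩,⟨0,[]⟩⟩ ⟨true,0,⟨0,[(0,
  0)]⟩,⟨5,[(8,2),(4,1),(0,0),(6,0),(8,0),(1,6),(10,0)]⟩⟩]⟩)) (.R ⟨0,false,false,false,[0,-1,1],[1,
  -1],[1,1,1],(⟨0,[(23,0)]⟩,⟨22,[(24,2),(0,2),(7,22),(1,4),(4,5),(0,2)]⟩),(⟨0,[(37,0)]⟩,⟨0,[(38,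
  0)]⟩),⟨2,[(1,0),(20,1),(12,0),(4,2)]⟩,.k,.k,(.r (-1) ⟨5,[(2,3),(17,1),(24,9),(0,2),(0,0)]⟩ ⟨0,[(5,
  0),(3,0),(37,0)]⟩),.k,.k,.k,⟨true,(-1),⟨0,[(12,0)]⟩,⟨1,[(45,1),(0,0),(0,0)]⟩⟩,⟨false,0,⟨0,[(28,
  0)]⟩,⟨2,[(0,0),(7,1),(15,0),(0,0)]⟩⟩,⟨false,0,⟨27,[(0,11),(2,5),(1,27),(3,11),(9,1),(21,2),(5,
  18)]⟩,⟨0,[(2,0),(44,0)]⟩⟩,⟨true,0,⟨5,[(3,0),(0,0),(0,0),(24,3),(4,0),(1,0),(3,1),(5,2)]⟩,⟨0,[(13,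
  0)]⟩⟩,⟨false,0,⟨0,[]⟩,⟨0,[]⟩⟩,⟨false,0,⟨0,[]⟩,⟨0,[]⟩⟩,[.o ⟨false,0,⟨0,[(45,0)]⟩,⟨14,[(6,0),(9,0),
  (2,5),(19,1),(2,6),(3,1)]⟩⟩,.e ⟨false,0,⟨0,[]⟩,⟨1,[(24,0),(0,0),(20,0)]⟩⟩ ⟨false,1,⟨2,[(2,0),(1,
  0),(6,0),(9,0),(6,0),(17,0),(0,2)]⟩,⟨1,[(0,0),(4,0),(0,0)]⟩⟩,.a ⟨true,0,⟨0,[(31,0)]⟩,⟨0,[(28,
  0)]⟩⟩ ⟨false,0,⟨3,[(0,0),(10,0),(7,0),(12,0)]⟩,⟨1,[(46,0),(0,0)]⟩⟩ ⟨true,0,⟨4,[(2,0),(1,0),(6,1),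
  (5,0),(3,0),(6,1),(18,1)]⟩,⟨1,[(0,0),(4,0),(0,0)]⟩⟩,.o ⟨false,0,⟨0,[(0,0)]⟩,⟨0,[(17,0),(28,
  0)]⟩⟩]⟩))) (.I [1,1,2,1,-1,0,0,-1] (.Q [0,0,2,0,-1,0,-1,0,-1,1,-1,-1] (.p false [0,0,1] [1,0,0,0,
  -1] (⟨0,[(33,0)]⟩,⟨0,[(32,0)]⟩) .k 2 (⟨0,[(25,0)]⟩,⟨0,[(26,0)]⟩) .k (.r 0 ⟨1,[(12,0),(7,0),(7,
  0)]⟩ ⟨0,[(4,0),(41,0)]⟩)) (.Q [0,0,0,0,0,2,0,0,0,-1,1] (.p true [0,0,1] [1] (⟨0,[(34,0)]⟩,⟨0,[(33,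
  0)]⟩) .k 1 (⟨0,[]⟩,⟨0,[]⟩) .k .k) (.R ⟨0,false,false,false,[1,-1,-1],[0,0,0,0,1],[0,1],(⟨0,[(23,
  0)]⟩,⟨25,[(0,11),(11,5),(7,5),(14,13),(0,1),(5,2),(4,2)]⟩),(⟨0,[(28,0)]⟩,⟨0,[(27,0)]⟩),⟨0,[(0,
  0)]⟩,.k,.k,(.r (-1) ⟨1,[(5,1),(40,3),(0,0),(0,0)]⟩ ⟨6,[(4,0),(3,0),(1,3),(4,0),(5,4)]⟩),(.r (-1)
  ⟨0,[(5,0),(40,0),(1,0)]⟩ ⟨0,[(19,0)]⟩),.k,.k,⟨false,1,⟨1,[(25,0),(0,0),(20,0)]⟩,⟨0,[]⟩⟩,⟨true,1,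
  ⟨0,[(9,0),(16,0)]⟩,⟨0,[(1,0)]⟩⟩,⟨false,0,⟨6,[(4,1),(3,1),(1,0),(4,1),(5,2)]⟩,⟨0,[(5,0),(40,0),(1,
  0)]⟩⟩,⟨true,0,⟨0,[(8,0),(17,0)]⟩,⟨1,[(1,1),(3,1),(40,1),(0,0),(0,0)]⟩⟩,⟨false,0,⟨0,[]⟩,⟨0,[]⟩⟩,
  ⟨false,0,⟨0,[]⟩,⟨0,[]⟩⟩,[.e ⟨false,0,⟨5,[(12,1),(30,0),(0,3),(2,0)]⟩,⟨1,[(25,0),(0,0),(21,0)]⟩⟩
  ⟨false,1,⟨1,[(5,0),(3,0),(4,0),(11,1),(20,0)]⟩,⟨1,[(1,1),(45,0),(0,0)]⟩⟩,.a ⟨true,0,⟨0,[(26,0)]⟩,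
  ⟨3,[(1,3),(3,1),(3,1),(5,1),(26,0),(4,1),(0,0)]⟩⟩ ⟨false,1,⟨1,[(25,0),(0,0),(20,0)]⟩,⟨0,[]⟩⟩
  ⟨true,1,⟨0,[(9,0),(16,0)]⟩,⟨0,[(1,0)]⟩⟩,.o ⟨false,0,⟨0,[(33,0)]⟩,⟨0,[(9,0)]⟩⟩,.e ⟨true,0,⟨5,[(12,
  1),(30,0),(0,3),(2,0)]⟩,⟨1,[(32,0),(0,0)]⟩⟩ ⟨true,1,⟨1,[(5,0),(3,0),(4,0),(11,1),(20,0)]⟩,⟨0,[(1,
  0)]⟩⟩]⟩) (.Q [0,0,2,0,0,0,2,0,0,-1,2] (.p true [0,0,1] [1,0,-1] (⟨0,[(35,0)]⟩,⟨0,[(34,0)]⟩) .k 2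
  (⟨0,[(34,0)]⟩,⟨0,[(35,0)]⟩) .k (.r 0 ⟨0,[(15,1),(2,1)]⟩ ⟨0,[(6,1),(41,0)]⟩)) (.R ⟨0,false,false,
  false,[0,-1,1],[1,0,-1],[1,0,1],(⟨0,[(25,0)]⟩,⟨22,[(26,2),(0,2),(7,22),(1,4),(4,5),(0,2)]⟩),(⟨0,
  [(35,0)]⟩,⟨0,[(36,0)]⟩),⟨2,[(1,0),(22,1),(12,0),(4,2)]⟩,.k,.k,(.r (-1) ⟨0,[(17,0),(1,0),(27,0),(0,
  0)]⟩ ⟨4,[(3,2),(0,0),(1,0),(14,2)]⟩),(.r (-1) ⟨1,[(16,1),(0,1),(5,1),(20,0),(3,0)]⟩ ⟨0,[(4,0),(1,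
  0)]⟩),.k,.k,⟨false,0,⟨0,[(16,0),(2,0)]⟩,⟨1,[(7,1),(40,0),(0,0)]⟩⟩,⟨true,0,⟨0,[(19,0),(10,0)]⟩,⟨0,
  [(0,0)]⟩⟩,⟨false,0,⟨0,[(4,0)]⟩,⟨0,[(17,0),(1,0),(28,0)]⟩⟩,⟨true,0,⟨1,[(4,0),(0,0),(0,1),(11,0),
  (11,0),(18,0)]⟩,⟨0,[(15,0),(1,0)]⟩⟩,⟨false,0,⟨0,[]⟩,⟨0,[]⟩⟩,⟨false,0,⟨0,[]⟩,⟨0,[]⟩⟩,[.a ⟨true,0,
  ⟨15,[(4,3),(1,7),(0,3),(5,1),(9,7),(19,2),(5,4)]⟩,⟨0,[(16,0)]⟩⟩ ⟨false,0,⟨0,[]⟩,⟨1,[(26,0),(0,0),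
  (20,0)]⟩⟩ ⟨true,0,⟨1,[(5,0),(0,1),(12,0),(10,0),(18,0)]⟩,⟨10,[(0,8),(4,2),(9,0),(0,7),(0,0),(4,0),
  (21,1)]⟩⟩,.o ⟨false,1,⟨0,[(32,0),(16,0)]⟩,⟨0,[(15,0)]⟩⟩,.e ⟨true,0,⟨26,[(0,3),(3,2),(2,1),(5,3),
  (6,0),(1,3),(11,7)]⟩,⟨5,[(13,1),(30,0),(0,3),(2,0)]⟩⟩ ⟨true,0,⟨1,[(5,0),(0,1),(12,0),(10,0),(18,
  0)]⟩,⟨1,[(0,0),(14,0),(15,0)]⟩⟩,.o ⟨false,0,⟨4,[(0,3),(4,0),(28,0),(9,0)]⟩,⟨0,[(19,0),(28,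
  0)]⟩⟩]⟩) (.Q [0,0,-1,0,0,0,-1,0,-1,1,-1,-1] (.p false [0,0,1] [1,0,0,0,-1] (⟨0,[(36,0)]⟩,⟨0,[(35,
  0)]⟩) .k 2 (⟨0,[(28,0)]⟩,⟨0,[(29,0)]⟩) .k (.r 0 ⟨1,[(15,0),(7,0),(7,0)]⟩ ⟨0,[(7,0),(41,0)]⟩)) (.Q
  [0,1,0,0,0,0,0,0,1,-1,0,1] (.p true [0,0,0,0,1] [1] (⟨0,[(30,0)]⟩,⟨0,[(29,0)]⟩) .k 1 (⟨0,[]⟩,⟨0,
  []⟩) .k .k) (.R ⟨0,false,false,true,[0,-1,1],[1,0,0,0,-1],[0,1],(⟨0,[(27,0)]⟩,⟨22,[(28,2),(0,2),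
  (7,22),(1,4),(4,5),(0,2)]⟩),(⟨0,[(30,0)]⟩,⟨0,[(31,0)]⟩),⟨2,[(3,0),(22,1),(12,0),(4,2)]⟩,.k,.k,(.r
  (-1) ⟨3,[(2,0),(16,3),(5,0),(20,0),(2,3),(0,2)]⟩ ⟨4,[(5,2),(0,0),(1,0),(14,2)]⟩),(.r 0 ⟨23,[(2,8),
  (12,3),(1,7),(1,15),(5,2),(17,5),(2,3)]⟩ ⟨5,[(6,1),(2,3),(13,1),(4,0),(0,0),(21,2)]⟩),.k,.k,
  ⟨false,0,⟨6,[(2,0),(5,1),(2,0),(2,0),(2,0),(25,0),(6,0)]⟩,⟨1,[(28,0),(0,0),(21,0)]⟩⟩,⟨true,0,⟨0,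
  [(1,0)]⟩,⟨0,[(0,0),(5,0),(12,0)]⟩⟩,⟨false,0,⟨4,[(5,0),(0,1),(1,1),(14,0)]⟩,⟨3,[(2,0),(16,3),(5,0),
  (20,0),(3,0),(0,1)]⟩⟩,⟨true,0,⟨4,[(1,4),(3,0),(0,1),(1,1),(14,0)]⟩,⟨0,[(0,0),(18,0)]⟩⟩,⟨false,0,
  ⟨0,[]⟩,⟨0,[]⟩⟩,⟨false,0,⟨0,[]⟩,⟨0,[]⟩⟩,[.a ⟨true,0,⟨0,[(1,0),(33,0)]⟩,⟨0,[(29,0)]⟩⟩ ⟨false,0,⟨6,
  [(2,0),(5,1),(2,0),(2,0),(2,0),(25,0),(6,0)]⟩,⟨1,[(28,0),(0,0),(21,0)]⟩⟩ ⟨true,0,⟨0,[(1,0)]⟩,⟨0,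
  [(0,0),(5,0),(12,0)]⟩⟩,.o ⟨false,1,⟨3,[(1,0),(2,1),(7,2),(15,0),(22,1)]⟩,⟨0,[(0,0)]⟩⟩,.e ⟨true,0,
  ⟨0,[(53,0)]⟩,⟨0,[]⟩⟩ ⟨true,0,⟨0,[(1,0)]⟩,⟨0,[(0,0),(34,0)]⟩⟩,.o ⟨false,0,⟨1,[(5,0),(0,0),(12,1),
  (26,0)]⟩,⟨3,[(2,0),(22,0),(20,0),(3,2)]⟩⟩]⟩) (.R ⟨0,false,false,true,[0,-1,1],[1,0,0,0,-1],[0,1],
  (⟨0,[(27,0)]⟩,⟨22,[(28,2),(0,2),(7,22),(1,4),(4,5),(0,2)]⟩),(⟨0,[(30,0)]⟩,⟨0,[(31,0)]⟩),⟨2,[(3,0),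
  (22,1),(12,0),(4,2)]⟩,.k,.k,(.r (-1) ⟨3,[(2,0),(16,3),(5,0),(20,0),(2,3),(0,2)]⟩ ⟨4,[(5,2),(0,0),
  (1,0),(14,2)]⟩),(.r 0 ⟨23,[(2,8),(12,3),(1,7),(1,15),(5,2),(17,5),(2,3)]⟩ ⟨5,[(6,1),(2,3),(13,1),
  (4,0),(0,0),(21,2)]⟩),.k,.k,⟨false,0,⟨6,[(2,0),(5,1),(2,0),(2,0),(2,0),(25,0),(6,0)]⟩,⟨1,[(28,0),
  (0,0),(21,0)]⟩⟩,⟨true,0,⟨0,[(1,0)]⟩,⟨1,[(5,0),(0,0),(12,1),(9,1),(16,0)]⟩⟩,⟨false,0,⟨4,[(5,0),(0,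
  1),(1,1),(14,0)]⟩,⟨3,[(2,0),(16,3),(5,0),(20,0),(3,0),(0,1)]⟩⟩,⟨true,0,⟨4,[(1,4),(3,0),(0,1),(1,
  1),(14,0)]⟩,⟨2,[(15,0),(1,1),(1,0),(9,2),(16,0)]⟩⟩,⟨false,0,⟨0,[]⟩,⟨0,[]⟩⟩,⟨false,0,⟨0,[]⟩,⟨0,
  []⟩⟩,[.a ⟨true,0,⟨8,[(0,5),(13,0),(1,0),(11,2),(14,1),(1,0)]⟩,⟨0,[(29,0)]⟩⟩ ⟨false,0,⟨6,[(2,0),(5,
  1),(2,0),(2,0),(2,0),(25,0),(6,0)]⟩,⟨1,[(28,0),(0,0),(21,0)]⟩⟩ ⟨true,0,⟨0,[(1,0)]⟩,⟨1,[(5,0),(0,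
  0),(12,1),(9,1),(16,0)]⟩⟩,.e ⟨false,1,⟨1,[(28,0),(0,0),(20,0)]⟩,⟨0,[]⟩⟩ ⟨false,1,⟨1,[(1,1),(48,0),
  (0,0)]⟩,⟨8,[(5,1),(3,1),(5,0),(1,3),(11,8),(5,4),(10,2)]⟩⟩,.e ⟨true,0,⟨0,[(53,0)]⟩,⟨0,[]⟩⟩ ⟨true,
  0,⟨0,[(1,0)]⟩,⟨8,[(5,1),(3,1),(5,0),(1,3),(11,8),(5,4),(10,2)]⟩⟩,.o ⟨false,0,⟨1,[(5,0),(0,0),(12,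
  1),(26,0)]⟩,⟨3,[(2,0),(22,0),(20,0),(3,2)]⟩⟩]⟩)) (.R ⟨0,false,false,false,[0,-1,1],[0,0,0,0,1],[1,
  1,1],(⟨0,[(26,0)]⟩,⟨22,[(27,2),(0,2),(7,22),(1,4),(4,5),(0,2)]⟩),(⟨0,[(30,0)]⟩,⟨0,[(29,0)]⟩),⟨2,
  [(2,0),(22,1),(12,0),(4,2)]⟩,.k,.k,(.r (-1) ⟨3,[(1,0),(16,3),(5,0),(20,0),(2,3),(0,2)]⟩ ⟨4,[(4,2),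
  (0,0),(1,0),(14,2)]⟩),(.r (-1) ⟨3,[(1,0),(16,3),(5,0),(20,0),(3,0),(0,1)]⟩ ⟨6,[(4,1),(3,5),(12,0),
  (0,1)]⟩),.k,.k,⟨false,0,⟨0,[]⟩,⟨1,[(27,0),(0,0),(20,0)]⟩⟩,⟨true,0,⟨0,[(0,0),(0,0)]⟩,⟨0,[(3,0),(7,
  0),(22,0)]⟩⟩,⟨true,(-1),⟨0,[(4,0)]⟩,⟨3,[(1,0),(16,3),(5,0),(20,0),(3,2)]⟩⟩,⟨false,0,⟨9,[(0,6),(0,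
  7),(3,5),(1,2),(1,0),(9,1),(8,2)]⟩,⟨9,[(1,1),(1,7),(7,11),(6,9),(8,1),(16,0),(5,4)]⟩⟩,⟨false,0,⟨0,
  []⟩,⟨0,[]⟩⟩,⟨false,0,⟨0,[]⟩,⟨0,[]⟩⟩,[.o ⟨false,0,⟨13,[(0,13),(0,4),(4,2),(0,1),(8,1),(25,4),(2,
  2)]⟩,⟨9,[(1,1),(1,7),(7,11),(15,1),(16,0),(5,4)]⟩⟩,.a ⟨true,0,⟨0,[(28,0)]⟩,⟨3,[(3,3),(3,1),(3,1),
  (5,1),(26,0),(4,1),(0,0)]⟩⟩ ⟨false,0,⟨0,[]⟩,⟨1,[(27,0),(0,0),(20,0)]⟩⟩ ⟨true,0,⟨0,[(0,0),(0,0)]⟩,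
  ⟨0,[(3,0),(7,0),(22,0)]⟩⟩,.e ⟨false,0,⟨1,[(34,0),(0,0)]⟩,⟨1,[(49,0),(0,0)]⟩⟩ ⟨false,0,⟨0,[(0,0),
  (0,0)]⟩,⟨5,[(3,3),(7,5),(15,1),(6,3),(9,0),(5,2)]⟩⟩,.o ⟨false,0,⟨1,[(4,0),(0,0),(12,1),(26,0)]⟩,
  ⟨3,[(1,0),(22,0),(20,0),(3,2)]⟩⟩]⟩)))) (.Q [0,1,0,0,-1,0,0,0,1,0,0,1] (.p true [0,0,0,0,1] [] (⟨0,
  [(27,0)]⟩,⟨0,[(26,0)]⟩) .k 0 (⟨0,[]⟩,⟨0,[]⟩) .k .k) (.Q [0,0,2,0,0,0,2,0,0,-1,2] (.p true [0,0,1]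
  [1,0,-1] (⟨0,[(35,0)]⟩,⟨0,[(34,0)]⟩) .k 2 (⟨0,[(34,0)]⟩,⟨0,[(35,0)]⟩) .k (.r 0 ⟨0,[(15,1),(2,1)]⟩
  ⟨0,[(6,1),(41,0)]⟩)) (.Q [0,0,0,0,0,2,0,0,0,0,-1] (.p false [0,0,1] [] (⟨0,[(36,0)]⟩,⟨0,[(35,
  0)]⟩) .k 0 (⟨0,[]⟩,⟨0,[]⟩) .k .k) (.R ⟨0,false,false,true,[0,-1,1],[1,0,-1],[],(⟨0,[(26,0)]⟩,⟨25,
  [(0,11),(13,5),(7,5),(13,13),(1,1),(5,2),(4,2)]⟩),(⟨0,[(36,0)]⟩,⟨0,[(37,0)]⟩),⟨0,[(0,0)]⟩,.k,.k,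
  (.r (-1) ⟨0,[(18,0),(1,0),(27,0),(0,0)]⟩ ⟨4,[(4,2),(0,0),(1,0),(14,2)]⟩),(.r (-1) ⟨1,[(17,1),(0,
  1),(5,1),(20,0),(3,0)]⟩ ⟨0,[(5,0),(1,0)]⟩),.k,.k,⟨false,1,⟨1,[(17,1),(2,1),(28,0),(0,0)]⟩,⟨0,[(8,
  0)]⟩⟩,⟨true,0,⟨0,[(20,0),(10,0)]⟩,⟨0,[(1,0)]⟩⟩,⟨true,0,⟨4,[(4,0),(0,1),(1,1),(14,0)]⟩,⟨2,[(14,0),
  (1,1),(1,0),(1,1),(10,0),(17,0)]⟩⟩,⟨false,0,⟨1,[(5,0),(0,0),(0,1),(11,0),(11,0),(18,0)]⟩,⟨1,[(17,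
  1),(0,1),(26,0),(4,0)]⟩⟩,⟨false,0,⟨0,[]⟩,⟨0,[]⟩⟩,⟨false,0,⟨0,[]⟩,⟨0,[]⟩⟩,[.o ⟨false,0,⟨0,[(33,
  0)]⟩,⟨1,[(17,1),(27,0),(4,0)]⟩⟩,.a ⟨true,0,⟨15,[(5,3),(1,7),(0,3),(5,1),(9,7),(19,2),(5,4)]⟩,⟨0,
  [(17,0)]⟩⟩ ⟨false,1,⟨1,[(49,0),(0,0)]⟩,⟨10,[(1,0),(12,0),(6,0),(1,0),(9,1),(8,3)]⟩⟩ ⟨true,0,⟨1,
  [(6,0),(0,1),(12,0),(10,0),(18,0)]⟩,⟨10,[(1,8),(4,2),(9,0),(0,7),(0,0),(4,0),(21,1)]⟩⟩,.e ⟨false,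
  1,⟨1,[(27,0),(0,0),(21,0)]⟩,⟨0,[]⟩⟩ ⟨false,0,⟨1,[(6,0),(0,1),(12,0),(10,0),(18,0)]⟩,⟨7,[(1,3),(9,
  1),(5,3),(0,1),(4,1),(21,0),(4,2)]⟩⟩,.o ⟨false,0,⟨4,[(1,3),(4,0),(28,0),(9,0)]⟩,⟨0,[(20,0),(28,
  0)]⟩⟩]⟩) (.I [0,-1,-2,-2,1,0,0,1] (.S ⟨1,0,[0,1,-1,-2,0,0,0,1],[0,-1,1],[0,0,-1,-2,0,0,0,1],(⟨0,
  [(27,0)]⟩,⟨22,[(28,2),(0,2),(7,22),(1,4),(4,5),(0,2)]⟩),⟨0,[(1,0)]⟩,.k,(.r (-1) ⟨29,[(0,25),(14,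
  5),(8,3),(3,2),(0,2),(13,11),(2,2)]⟩ ⟨4,[(5,2),(0,0),(1,0),(14,2)]⟩),⟨true,0,⟨0,[(49,0)]⟩,⟨0,[(48,
  0)]⟩⟩,⟨false,0,⟨0,[(49,0)]⟩,⟨3,[(23,1),(26,0),(0,0)]⟩⟩,⟨false,1,⟨1,[(28,0),(0,0),(21,0)]⟩,⟨0,[]⟩⟩,
  ⟨true,0,⟨10,[(2,0),(12,0),(6,0),(1,0),(9,1),(8,3)]⟩,⟨0,[]⟩⟩,[.o ⟨false,0,⟨2,[(15,1),(1,0),(1,1),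
  (26,1)]⟩,⟨9,[(6,3),(0,1),(12,5),(25,0),(0,9),(3,10)]⟩⟩,.e ⟨false,1,⟨0,[(0,0)]⟩,⟨1,[(8,0),(0,0),(3,
  0),(9,0)]⟩⟩ ⟨false,1,⟨29,[(0,25),(14,5),(8,3),(3,2),(0,2),(13,11),(2,2)]⟩,⟨0,[(6,0),(40,0)]⟩⟩,.a
  ⟨true,0,⟨0,[(35,0)]⟩,⟨0,[(32,0)]⟩⟩ ⟨false,1,⟨35,[(0,31),(1,5),(12,5),(8,3),(3,2),(0,2),(6,11),(14,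
  2)]⟩,⟨0,[(6,0),(40,0)]⟩⟩ ⟨true,0,⟨58,[(0,30),(6,9),(7,31),(1,19),(4,7),(20,14),(2,10)]⟩,⟨0,[(6,0),
  (40,0)]⟩⟩,.o ⟨false,0,⟨4,[(2,3),(4,0),(28,0),(9,0)]⟩,⟨0,[(21,0),(28,0)]⟩⟩]⟩) (.Q [0,-1,0,0,1,0,-1,
  -1,-1,1,-1,-1] (.p false [0,0,1] [1,0,0,0,-1] (⟨0,[(38,0)]⟩,⟨0,[(37,0)]⟩) .k 2 (⟨0,[(30,0)]⟩,⟨0,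
  [(31,0)]⟩) .k (.r 0 ⟨1,[(17,0),(7,0),(7,0)]⟩ ⟨0,[(9,0),(41,0)]⟩)) (.Q [0,0,-1,0,1,0,1,0,-1,0,1,
  -1] (.p true [0,0,1] [0,0,0,0,1] (⟨0,[(39,0)]⟩,⟨0,[(38,0)]⟩) .k 2 (⟨0,[(32,0)]⟩,⟨0,[(31,0)]⟩) .k
  (.r (-1) ⟨3,[(20,1),(1,1),(2,1),(25,0),(0,0)]⟩ ⟨0,[(1,0),(6,1),(0,3),(1,3),(3,9),(31,3),(4,8)]⟩))
  (.Q [0,0,0,0,0,-1,0,0,0,0,0,1] (.ed false [1,-1,0,0,1] .k) (.Q [0,0,0,0,0,1,0,0,0,-1,0,1] (.ed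
  false [0,1,0,0,1] .k) (.R ⟨0,false,false,true,[-1,1,0,0,1],[0,1],[],(⟨0,[(0,0)]⟩,⟨0,[(34,0),(10,
  0)]⟩),(⟨0,[(46,0)]⟩,⟨0,[(45,0)]⟩),⟨0,[(34,0)]⟩,(.r 0 ⟨6,[(9,0),(3,2),(12,3),(0,0)]⟩ ⟨1,[(53,1),(0,
  0),(0,0)]⟩),.k,.k,.k,.k,.k,⟨true,1,⟨1,[(53,1),(0,0),(0,0)]⟩,⟨0,[(20,0)]⟩⟩,⟨false,1,⟨1,[(2,0),(0,
  0),(32,0),(0,0)]⟩,⟨1,[(7,1),(42,0),(4,0)]⟩⟩,⟨true,1,⟨1,[(53,1),(0,0),(0,0)]⟩,⟨6,[(11,0),(0,1),(2,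
  1),(1,0),(0,0),(1,3),(26,1)]⟩⟩,⟨false,1,⟨0,[(3,0),(18,0)]⟩,⟨1,[(7,1),(42,0),(4,0)]⟩⟩,⟨false,0,⟨0,
  []⟩,⟨0,[]⟩⟩,⟨false,0,⟨0,[]⟩,⟨0,[]⟩⟩,[.e ⟨false,1,⟨20,[(3,3),(4,7),(10,1),(8,3),(0,1),(2,3),(14,2),
  (6,2)]⟩,⟨0,[]⟩⟩ ⟨false,0,⟨56,[(2,50),(0,5),(7,12),(5,29),(0,8),(7,5),(9,18),(10,8),(1,4)]⟩,⟨2,[(7,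
  0),(0,1),(2,0),(38,0),(2,2),(1,1)]⟩⟩,.o ⟨false,1,⟨14,[(14,0),(9,0),(2,5),(19,1),(2,6),(3,1)]⟩,⟨0,
  [(53,0)]⟩⟩,.o ⟨false,1,⟨5,[(7,1),(0,3),(2,1),(38,4),(4,0)]⟩,⟨6,[(2,3),(0,2),(2,0),(4,2),(8,2),(2,
  2),(25,0)]⟩⟩,.a ⟨true,0,⟨1,[(7,1),(42,0),(4,0)]⟩,⟨33,[(2,23),(0,9),(7,9),(6,8),(1,4),(1,5),(5,3),
  (14,10),(1,10),(3,13)]⟩⟩ ⟨false,1,⟨1,[(54,0),(0,0)]⟩,⟨26,[(6,3),(3,2),(2,1),(5,3),(6,0),(1,3),(11,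
  7)]⟩⟩ ⟨true,0,⟨56,[(2,50),(0,5),(7,12),(5,29),(0,8),(7,5),(9,18),(10,8),(1,4)]⟩,⟨1,[(7,1),(42,0),
  (2,1),(1,0)]⟩⟩]⟩) (.K ⟨0,[0,-1,0,0,1],(-1),(-1),(⟨0,[(1,0)]⟩,⟨10,[(3,0),(29,0),(0,10),(2,0),(5,1),
  (4,2),(0,0)]⟩),(.r 0 ⟨2,[(19,1),(30,0),(0,0),(2,0)]⟩ ⟨43,[(3,11),(2,5),(3,1),(16,13),(0,13),(4,
  11),(16,2),(4,0)]⟩),(.r (-1) ⟨2,[(8,1),(10,2),(9,0),(2,1),(17,0),(3,0)]⟩ ⟨0,[(17,0),(37,0)]⟩),.k,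
  (.r 0 ⟨0,[(12,0),(40,0)]⟩ ⟨0,[(28,0)]⟩),.k,[⟨0,[(2,0)]⟩,⟨2,[(6,1),(0,1),(3,1),(21,0),(21,0)]⟩,⟨1,
  [(3,0),(10,0),(17,0)]⟩,⟨9,[(6,0),(0,6),(11,4),(13,2),(6,1),(6,3),(2,1)]⟩]⟩)) (.R ⟨0,false,false,
  true,[0,0,0,0,1],[1,0,-1],[1,1,1,0,0,0,0,-1],(⟨0,[(34,0)]⟩,⟨0,[(33,0)]⟩),(⟨0,[(40,0)]⟩,⟨0,[(41,
  0)]⟩),⟨0,[(0,0)]⟩,.k,.k,(.r 0 ⟨2,[(18,1),(30,0),(0,0),(2,0)]⟩ ⟨43,[(2,11),(2,5),(3,1),(16,13),(0,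
  13),(4,11),(16,2),(4,0)]⟩),.k,.k,.k,⟨false,0,⟨0,[]⟩,⟨20,[(2,3),(4,7),(10,1),(8,3),(0,1),(2,3),(14,
  2),(6,2)]⟩⟩,⟨true,0,⟨0,[(1,0),(8,0)]⟩,⟨3,[(5,1),(0,1),(25,1),(16,0),(4,0)]⟩⟩,⟨true,0,⟨1,[(9,0),(2,
  0),(39,0)]⟩,⟨0,[(20,0),(14,0)]⟩⟩,⟨false,1,⟨0,[(2,0)]⟩,⟨1,[(6,1),(14,1),(27,0),(4,0)]⟩⟩,⟨false,0,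
  ⟨0,[]⟩,⟨0,[]⟩⟩,⟨false,0,⟨0,[]⟩,⟨0,[]⟩⟩,[.o ⟨false,0,⟨0,[(37,0)]⟩,⟨1,[(21,1),(27,0),(4,0)]⟩⟩,.a
  ⟨true,0,⟨0,[(2,0),(3,0)]⟩,⟨0,[(21,0)]⟩⟩ ⟨true,0,⟨1,[(9,0),(2,0),(39,0)]⟩,⟨0,[(21,0),(2,0)]⟩⟩
  ⟨false,1,⟨1,[(2,0),(8,0),(19,0),(3,0)]⟩,⟨1,[(6,1),(14,1),(27,0),(4,0)]⟩⟩,.o ⟨false,0,⟨1,[(6,1),
  (42,0),(4,0)]⟩,⟨0,[(31,0)]⟩⟩,.o ⟨false,0,⟨5,[(5,1),(0,1),(3,1),(21,3),(16,2),(4,0)]⟩,⟨0,[(1,0),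
  (22,0)]⟩⟩]⟩)) (.Q [0,0,0,0,1,0,1,0,-1,0,1,-1] (.p true [0,0,1] [0,0,0,0,1] (⟨0,[(40,0)]⟩,⟨0,[(39,
  0)]⟩) .k 2 (⟨0,[(33,0)]⟩,⟨0,[(32,0)]⟩) .k (.r (-1) ⟨3,[(21,1),(1,1),(2,1),(25,0),(0,0)]⟩ ⟨0,[(2,
  0),(6,1),(0,3),(1,3),(3,9),(31,3),(4,8)]⟩)) (.Q [0,0,0,0,0,-1,0,0,0,0,0,1] (.ed false [1,-1,0,0,
  1] .k) (.Q [0,0,1,0,-1,0,0,0,1,0,0,1] (.p true [0,0,0,0,1] [] (⟨0,[(35,0)]⟩,⟨0,[(34,0)]⟩) .k 0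
  (⟨0,[]⟩,⟨0,[]⟩) .k .k) (.K ⟨0,[0,0,0,0,1],(-1),(-1),(⟨0,[(36,0)]⟩,⟨0,[(35,0)]⟩),.k,(.r 0 ⟨2,[(20,
  1),(30,0),(0,0),(2,0)]⟩ ⟨43,[(4,11),(2,5),(3,1),(16,13),(0,13),(4,11),(16,2),(4,0)]⟩),(.r 0 ⟨6,
  [(10,0),(3,2),(12,3),(0,0)]⟩ ⟨1,[(54,1),(0,0),(0,0)]⟩),.k,.k,[⟨0,[(2,0)]⟩,⟨0,[(0,0)]⟩,⟨0,[(33,
  0)]⟩,⟨13,[(3,1),(3,0),(0,8),(11,0),(0,1),(12,2),(13,7)]⟩]⟩) (.S ⟨1,0,[0,2,0,-1],[0,0,0,0,1],[1,1],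
  (⟨0,[(36,0)]⟩,⟨0,[(35,0)]⟩),⟨0,[(1,0)]⟩,.k,(.r 0 ⟨2,[(20,1),(30,0),(0,0),(2,0)]⟩ ⟨43,[(4,11),(2,
  5),(3,1),(16,13),(0,13),(4,11),(16,2),(4,0)]⟩),⟨true,0,⟨0,[]⟩,⟨10,[(7,0),(12,0),(6,0),(1,0),(9,1),
  (8,3)]⟩⟩,⟨false,0,⟨0,[(54,0)]⟩,⟨3,[(28,1),(26,0),(0,0)]⟩⟩,⟨false,1,⟨3,[(28,1),(26,0),(0,0)]⟩,⟨0,
  [(54,0)]⟩⟩,⟨true,0,⟨10,[(7,0),(12,0),(6,0),(1,0),(9,1),(8,3)]⟩,⟨0,[]⟩⟩,[.o ⟨false,(-1),⟨0,[(8,0),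
  (10,0),(31,0)]⟩,⟨1,[(4,0),(10,0),(17,0),(22,1)]⟩⟩,.a ⟨true,(-1),⟨0,[(8,0),(45,0)]⟩,⟨19,[(0,1),(3,
  17),(1,0),(8,8),(2,0),(4,8),(7,0),(12,2),(5,4),(5,5)]⟩⟩ ⟨true,0,⟨0,[]⟩,⟨26,[(7,3),(3,2),(2,1),(5,
  3),(6,0),(1,3),(11,7)]⟩⟩ ⟨false,0,⟨2,[(20,1),(30,0),(0,0),(2,0)]⟩,⟨3,[(28,1),(26,0),(0,0)]⟩⟩,.o
  ⟨false,0,⟨1,[(8,1),(42,0),(4,0)]⟩,⟨0,[(33,0)]⟩⟩,.o ⟨false,0,⟨7,[(3,2),(3,1),(26,4),(6,0),(9,2)]⟩,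
  ⟨0,[(0,0)]⟩⟩]⟩)) (.Q [0,0,1,0,-1,0,0,0,1,0,0,1] (.p true [0,0,0,0,1] [] (⟨0,[(35,0)]⟩,⟨0,[(34,
  0)]⟩) .k 0 (⟨0,[]⟩,⟨0,[]⟩) .k .k) (.K ⟨0,[0,0,0,0,1],(-1),(-1),(⟨0,[(36,0)]⟩,⟨0,[(35,0)]⟩),.k,(.r
  0 ⟨2,[(20,1),(30,0),(0,0),(2,0)]⟩ ⟨43,[(4,11),(2,5),(3,1),(16,13),(0,13),(4,11),(16,2),(4,0)]⟩),
  (.r 0 ⟨6,[(10,0),(3,2),(12,3),(0,0)]⟩ ⟨1,[(54,1),(0,0),(0,0)]⟩),.k,.k,[⟨0,[(2,0)]⟩,⟨0,[(0,0)]⟩,⟨0,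
  [(33,0)]⟩,⟨13,[(3,1),(3,0),(0,8),(11,0),(0,1),(12,2),(13,7)]⟩]⟩) (.R ⟨0,false,false,true,[0,0,0,0,
  1],[0,1],[1,1,2,1],(⟨0,[(36,0)]⟩,⟨0,[(35,0)]⟩),(⟨0,[(47,0)]⟩,⟨0,[(46,0)]⟩),⟨0,[(1,0)]⟩,.k,.k,(.r
  0 ⟨2,[(20,1),(30,0),(0,0),(2,0)]⟩ ⟨43,[(4,11),(2,5),(3,1),(16,13),(0,13),(4,11),(16,2),(4,0)]⟩),
  (.r 0 ⟨2,[(20,1),(30,0),(0,0),(2,0)]⟩ ⟨43,[(4,11),(2,5),(3,1),(16,13),(0,13),(4,11),(16,2),(4,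
  0)]⟩),.k,.k,⟨false,0,⟨0,[]⟩,⟨20,[(4,3),(4,7),(10,1),(8,3),(0,1),(2,3),(14,2),(6,2)]⟩⟩,⟨true,1,⟨0,
  [(0,0)]⟩,⟨32,[(3,25),(3,12),(3,3),(7,4),(0,1),(0,0),(7,3),(4,6),(15,2)]⟩⟩,⟨false,0,⟨9,[(7,2),(3,
  0),(0,2),(5,3),(10,0),(26,5)]⟩,⟨0,[(54,0),(0,0)]⟩⟩,⟨true,1,⟨1,[(4,0),(10,0),(17,0)]⟩,⟨0,[(8,0),
  (45,0)]⟩⟩,⟨false,0,⟨0,[]⟩,⟨0,[]⟩⟩,⟨false,0,⟨0,[]⟩,⟨0,[]⟩⟩,[.a ⟨true,0,⟨0,[(53,0)]⟩,⟨3,[(20,1),(29,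
  0),(5,2)]⟩⟩ ⟨true,(-1),⟨0,[(21,0)]⟩,⟨1,[(54,1),(0,0),(0,0)]⟩⟩ ⟨false,1,⟨0,[(33,0),(18,0)]⟩,⟨0,[(8,
  0),(45,0),(1,0)]⟩⟩,.o ⟨false,1,⟨14,[(15,0),(9,0),(2,5),(19,1),(2,6),(3,1)]⟩,⟨0,[(54,0)]⟩⟩,.o
  ⟨false,0,⟨1,[(8,1),(42,0),(4,0)]⟩,⟨0,[(33,0)]⟩⟩,.o ⟨false,0,⟨7,[(3,2),(3,1),(26,4),(6,0),(9,2)]⟩,
  ⟨0,[(0,0)]⟩⟩]⟩))) (.R ⟨0,false,false,false,[1,-1,-1],[1,0,0,0,-1],[1,1,1],(⟨0,[(29,0)]⟩,⟨10,[(2,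
  0),(29,0),(3,0),(4,10),(0,1),(4,2),(0,0)]⟩),(⟨0,[(33,0)]⟩,⟨0,[(34,0)]⟩),⟨2,[(4,1),(36,0),(0,0),(4,
  2)]⟩,.k,.k,(.r (-1) ⟨1,[(11,1),(40,3),(0,0),(0,0)]⟩ ⟨6,[(10,0),(3,0),(1,3),(4,0),(5,4)]⟩),(.r 0
  ⟨0,[(11,0),(40,0)]⟩ ⟨0,[(27,0)]⟩),.k,.k,⟨true,(-1),⟨22,[(10,1),(0,3),(6,7),(0,15),(0,3),(25,6),(2,
  2)]⟩,⟨0,[(54,0)]⟩⟩,⟨false,2,⟨5,[(2,1),(8,1),(3,3),(5,3),(9,3),(16,0),(4,2)]⟩,⟨0,[(1,0)]⟩⟩,⟨true,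
  (-1),⟨6,[(10,2),(3,0),(4,4),(0,1),(0,2),(5,0)]⟩,⟨1,[(11,1),(40,1),(0,0),(0,0)]⟩⟩,⟨false,2,⟨1,[(2,
  0),(10,0),(7,1),(9,0),(22,1)]⟩,⟨0,[(1,0),(9,0),(40,0)]⟩⟩,⟨false,0,⟨0,[]⟩,⟨0,[]⟩⟩,⟨false,0,⟨0,[]⟩,
  ⟨0,[]⟩⟩,[.a ⟨true,1,⟨0,[(2,0),(18,0)]⟩,⟨0,[(6,0)]⟩⟩ ⟨false,0,⟨10,[(5,0),(12,0),(6,0),(1,0),(9,1),
  (8,3)]⟩,⟨1,[(53,0),(0,0)]⟩⟩ ⟨true,2,⟨0,[(2,0),(12,0),(5,0)]⟩,⟨5,[(0,4),(0,0),(3,0),(4,0),(7,1),(0,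
  3),(29,0)]⟩⟩,.o ⟨false,2,⟨0,[(31,0),(22,0)]⟩,⟨8,[(0,3),(5,4),(1,1),(2,1),(6,0),(1,3),(25,1),(2,
  2)]⟩⟩,.o ⟨false,0,⟨0,[(39,0)]⟩,⟨0,[(15,0)]⟩⟩,.e ⟨false,0,⟨0,[]⟩,⟨1,[(31,0),(0,0),(21,0)]⟩⟩ ⟨false,
  3,⟨1,[(2,1),(12,1),(5,1),(31,0),(0,0)]⟩,⟨5,[(0,4),(0,0),(3,0),(4,0),(7,1),(0,3),(29,0)]⟩⟩]⟩)))
  (.Q [0,0,0,0,0,-1,0,0,0,0,0,1] (.ed false [1,-1,0,0,1] .k) (.S ⟨1,0,[0,0,1],[1,1,0,0,-1],[0,-1,1],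
  (⟨22,[(30,2),(0,2),(0,22),(8,4),(4,5),(0,2)]⟩,⟨0,[(0,0)]⟩),⟨0,[(32,0)]⟩,(.r (-1) ⟨7,[(8,1),(16,1),
  (0,1),(3,2),(0,2),(21,0)]⟩ ⟨2,[(17,1),(30,0),(0,0),(2,0)]⟩),.k,⟨true,0,⟨0,[(51,0)]⟩,⟨0,[(50,0)]⟩⟩,
  ⟨false,0,⟨0,[(51,0)]⟩,⟨3,[(25,1),(26,0),(0,0)]⟩⟩,⟨false,1,⟨1,[(30,0),(0,0),(21,0)]⟩,⟨0,[]⟩⟩,⟨true,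
  0,⟨10,[(4,0),(12,0),(6,0),(1,0),(9,1),(8,3)]⟩,⟨0,[]⟩⟩,[.o ⟨false,1,⟨0,[(30,0)]⟩,⟨1,[(5,1),(42,0),
  (4,0)]⟩⟩,.e ⟨false,1,⟨0,[(53,0)]⟩,⟨0,[(45,0)]⟩⟩ ⟨false,1,⟨1,[(30,0),(0,0),(21,0)]⟩,⟨5,[(17,1),(30,
  0),(0,3),(2,0)]⟩⟩,.a ⟨true,1,⟨2,[(16,0),(13,2),(16,0),(1,0),(2,0),(0,0)]⟩,⟨4,[(1,1),(3,2),(2,1),
  (0,0),(7,0),(35,1)]⟩⟩ ⟨false,1,⟨13,[(4,1),(3,1),(8,1),(8,1),(3,0),(0,0),(6,3),(14,12)]⟩,⟨5,[(17,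
  1),(30,0),(0,3),(2,0)]⟩⟩ ⟨true,0,⟨26,[(4,3),(3,2),(2,1),(5,3),(6,0),(1,3),(11,7)]⟩,⟨5,[(17,1),(30,
  0),(0,3),(2,0)]⟩⟩,.o ⟨false,1,⟨0,[(30,0)]⟩,⟨1,[(5,1),(42,0),(4,0)]⟩⟩]⟩) (.R ⟨0,false,false,false,
  [0,0,0,0,1],[1,0,-1],[1,0,0,0,0,0,0,-1],(⟨0,[(33,0)]⟩,⟨0,[(32,0)]⟩),(⟨0,[(39,0)]⟩,⟨0,[(40,0)]⟩),
  ⟨0,[(0,0)]⟩,.k,.k,(.r 0 ⟨2,[(17,1),(30,0),(0,0),(2,0)]⟩ ⟨7,[(8,1),(16,1),(0,1),(3,2),(0,2),(21,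
  0)]⟩),.k,.k,.k,⟨true,0,⟨0,[]⟩,⟨26,[(4,3),(3,2),(2,1),(5,3),(6,0),(1,3),(11,7)]⟩⟩,⟨false,1,⟨0,[(30,
  0),(3,0)]⟩,⟨1,[(1,0),(4,0),(1,0),(42,0)]⟩⟩,⟨true,1,⟨0,[(11,0),(41,0)]⟩,⟨1,[(9,0),(6,0),(2,1),(29,
  0)]⟩⟩,⟨false,2,⟨1,[(30,1),(5,1),(10,0),(5,2)]⟩,⟨0,[(1,0)]⟩⟩,⟨false,0,⟨0,[]⟩,⟨0,[]⟩⟩,⟨false,0,⟨0,
  []⟩,⟨0,[]⟩⟩,[.e ⟨false,1,⟨1,[(11,1),(40,0),(0,0)]⟩,⟨0,[(20,0),(2,0)]⟩⟩ ⟨false,1,⟨5,[(9,1),(0,5),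
  (19,5),(3,1),(12,0),(5,2)]⟩,⟨65,[(1,41),(2,1),(1,7),(14,11),(4,11),(4,15),(16,6),(4,14)]⟩⟩,.o
  ⟨false,1,⟨0,[(36,0),(16,0)]⟩,⟨0,[(19,0)]⟩⟩,.o ⟨false,0,⟨1,[(5,1),(42,0),(4,0)]⟩,⟨0,[(30,0)]⟩⟩,.a
  ⟨true,(-1),⟨4,[(1,1),(3,2),(2,1),(0,0),(7,0),(35,1)]⟩,⟨2,[(16,0),(13,2),(16,0),(1,0),(2,0),(0,
  0)]⟩⟩ ⟨false,1,⟨0,[(10,0),(42,0)]⟩,⟨8,[(9,1),(8,0),(0,1),(1,3),(4,2),(11,1)]⟩⟩ ⟨true,1,⟨5,[(9,1),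
  (0,5),(19,5),(3,1),(12,0),(5,2)]⟩,⟨9,[(1,8),(2,1),(12,0),(0,0),(7,0),(4,0),(6,2)]⟩⟩]⟩))))) (.Q [0,
  1,-1,0,-1,0,-1,0,1,0,-1,1] (.p false [0,0,1] [0,0,0,0,1] (⟨0,[(36,0)]⟩,⟨0,[(35,0)]⟩) .k 2 (⟨0,
  [(29,0)]⟩,⟨0,[(28,0)]⟩) .k (.r (-1) ⟨7,[(0,0),(16,3),(4,3),(0,0),(20,0),(3,0),(0,1)]⟩ ⟨1,[(0,3),
  (3,5),(1,3),(1,7),(3,21),(31,8),(4,12)]⟩)) (.Q [0,0,0,0,0,-1,0,0,0,1,0,-1] (.ed true [0,1,0,0,1]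
  .k) (.Q [0,0,-1,0,0,0,1,0,1,-1,1,1] (.p true [0,0,1] [1,0,0,0,-1] (⟨0,[(38,0)]⟩,⟨0,[(37,0)]⟩) .k
  2 (⟨0,[(30,0)]⟩,⟨0,[(31,0)]⟩) .k (.r 0 ⟨1,[(17,0),(7,0),(7,0)]⟩ ⟨0,[(9,0),(41,0)]⟩)) (.K ⟨0,[1,-1,
  0,0,-1],0,1,(⟨0,[(1,0)]⟩,⟨22,[(29,2),(0,2),(1,22),(7,4),(4,5),(0,2)]⟩),(.r (-1) ⟨1,[(50,1),(0,0),
  (0,0)]⟩ ⟨6,[(6,0),(3,2),(12,3),(0,0)]⟩),(.r (-2) ⟨2,[(5,1),(10,0),(9,0),(2,1),(20,3),(0,0),(0,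
  1)]⟩ ⟨1,[(3,1),(3,3),(3,3),(3,7),(31,2),(4,2)]⟩),.k,(.r (-1) ⟨0,[(9,0),(40,0),(1,0)]⟩ ⟨0,[(23,
  0)]⟩),.k,[⟨0,[(0,0)]⟩,⟨40,[(7,20),(0,8),(7,9),(0,13),(2,17),(4,2),(3,40),(16,10)]⟩,⟨9,[(2,3),(1,
  5),(1,2),(2,0),(1,2),(0,0),(31,0),(2,2)]⟩,⟨7,[(16,5),(7,1),(4,9),(0,1),(15,0),(4,0),(0,1)]⟩]⟩)
  (.Q [0,0,0,0,0,2,0,0,0,0,-1] (.p false [0,0,1] [] (⟨0,[(39,0)]⟩,⟨0,[(38,0)]⟩) .k 0 (⟨0,[]⟩,⟨0,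
  []⟩) .k .k) (.R ⟨0,false,false,true,[0,-1,1],[0,0,0,0,1],[1,2],(⟨0,[(29,0)]⟩,⟨25,[(0,11),(16,5),
  (7,5),(13,13),(1,1),(5,2),(4,2)]⟩),(⟨0,[(33,0)]⟩,⟨0,[(32,0)]⟩),⟨0,[(0,0)]⟩,.k,.k,(.r (-1) ⟨3,[(4,
  0),(16,3),(5,0),(20,0),(2,3),(0,2)]⟩ ⟨4,[(7,2),(0,0),(1,0),(14,2)]⟩),(.r (-1) ⟨3,[(4,0),(16,3),(5,
  0),(20,0),(3,0),(0,1)]⟩ ⟨6,[(7,1),(3,5),(12,0),(0,1)]⟩),.k,.k,⟨true,0,⟨0,[]⟩,⟨1,[(37,0),(0,0)]⟩⟩,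
  ⟨false,0,⟨2,[(3,1),(0,0),(1,0),(46,0)]⟩,⟨0,[(30,0),(6,0)]⟩⟩,⟨true,(-1),⟨0,[(10,0),(7,0)]⟩,⟨3,[(4,
  0),(16,3),(5,0),(20,0),(3,0),(0,1)]⟩⟩,⟨false,(-1),⟨9,[(3,8),(1,0),(2,4),(1,3),(4,0),(6,0),(2,0)]⟩,
  ⟨0,[(21,0),(8,0),(22,0)]⟩⟩,⟨false,0,⟨0,[]⟩,⟨0,[]⟩⟩,⟨false,0,⟨0,[]⟩,⟨0,[]⟩⟩,[.o ⟨false,(-1),⟨22,
  [(3,7),(1,14),(1,5),(2,1),(6,2),(1,7),(25,1),(2,8)]⟩,⟨0,[(30,0),(22,0)]⟩⟩,.a ⟨true,(-1),⟨0,[(5,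
  0)]⟩,⟨3,[(1,1),(8,1),(9,1),(9,1),(16,0),(5,2)]⟩⟩ ⟨false,0,⟨6,[(4,0),(5,1),(2,0),(2,0),(2,0),(25,
  0),(6,0)]⟩,⟨1,[(30,0),(0,0),(21,0)]⟩⟩ ⟨true,(-1),⟨0,[(3,0)]⟩,⟨0,[(8,0),(12,0),(8,0)]⟩⟩,.e ⟨false,
  0,⟨0,[(55,0)]⟩,⟨0,[(53,0)]⟩⟩ ⟨false,(-1),⟨0,[(3,0)]⟩,⟨0,[(30,0),(6,0),(15,0)]⟩⟩,.o ⟨false,0,⟨1,
  [(7,0),(0,0),(12,1),(26,0)]⟩,⟨3,[(4,0),(22,0),(20,0),(3,2)]⟩⟩]⟩) (.Q [0,1,2,0,-2,0,-1,0,1,0,-1,1]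
  (.p false [0,0,1] [0,0,0,0,1] (⟨0,[(40,0)]⟩,⟨0,[(39,0)]⟩) .k 2 (⟨0,[(33,0)]⟩,⟨0,[(32,0)]⟩) .k (.r
  (-1) ⟨7,[(4,0),(16,3),(4,3),(0,0),(20,0),(3,0),(0,1)]⟩ ⟨1,[(4,3),(3,5),(1,3),(1,7),(3,21),(31,8),
  (4,12)]⟩)) (.R ⟨0,false,false,false,[1,-1,-1],[1,0,0,0,-1],[1,1,1],(⟨0,[(29,0)]⟩,⟨22,[(31,2),(0,
  2),(8,22),(0,4),(4,5),(0,2)]⟩),(⟨0,[(33,0)]⟩,⟨0,[(34,0)]⟩),⟨2,[(1,1),(39,0),(0,0),(4,2)]⟩,.k,.k,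
  (.r (-1) ⟨1,[(11,1),(40,3),(0,0),(0,0)]⟩ ⟨6,[(10,0),(3,0),(1,3),(4,0),(5,4)]⟩),(.r 0 ⟨0,[(11,0),
  (40,0)]⟩ ⟨0,[(27,0)]⟩),.k,.k,⟨true,(-1),⟨4,[(0,0),(1,0),(5,1),(9,0),(1,1),(25,1)]⟩,⟨0,[(54,0)]⟩⟩,
  ⟨false,2,⟨3,[(11,1),(3,1),(5,1),(9,3),(16,0),(4,1),(0,0)]⟩,⟨25,[(0,15),(3,5),(23,1),(3,3),(16,0),
  (4,10)]⟩⟩,⟨true,(-1),⟨6,[(0,2),(1,2),(11,2),(1,0),(2,0),(1,2),(5,0)]⟩,⟨1,[(11,1),(40,1),(0,0),(0,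
  0)]⟩⟩,⟨false,2,⟨3,[(13,1),(7,1),(9,3),(16,0),(5,4)]⟩,⟨7,[(0,4),(3,1),(2,0),(3,5),(6,0),(18,1),(14,
  5),(1,3)]⟩⟩,⟨false,0,⟨0,[]⟩,⟨0,[]⟩⟩,⟨false,0,⟨0,[]⟩,⟨0,[]⟩⟩,[.a ⟨true,1,⟨3,[(2,1),(8,1),(9,1),(9,
  1),(16,0),(5,2)]⟩,⟨0,[(6,0)]⟩⟩ ⟨false,0,⟨0,[(56,0)]⟩,⟨1,[(53,0),(0,0)]⟩⟩ ⟨true,2,⟨3,[(11,1),(3,1),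
  (5,1),(9,3),(16,0),(5,2)]⟩,⟨0,[(0,0)]⟩⟩,.o ⟨false,2,⟨0,[(31,0),(22,0)]⟩,⟨9,[(0,2),(3,0),(1,5),(4,
  3),(8,3),(25,0),(2,2)]⟩⟩,.o ⟨false,0,⟨0,[(39,0)]⟩,⟨0,[(15,0)]⟩⟩,.e ⟨false,0,⟨0,[]⟩,⟨1,[(31,0),(0,
  0),(21,0)]⟩⟩ ⟨false,3,⟨1,[(15,1),(15,1),(16,0),(4,0),(0,1)]⟩,⟨0,[(0,0)]⟩⟩]⟩) (.R ⟨0,false,false,
  false,[1,-1,-1],[1,0,0,0,-1],[1,1,1],(⟨0,[(29,0)]⟩,⟨150,[(0,5),(17,14),(7,14),(1,2),(3,5),(8,150),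
  (0,24),(3,2),(0,41),(0,11)]⟩),(⟨0,[(33,0)]⟩,⟨0,[(34,0)]⟩),⟨2,[(1,1),(39,0),(0,0),(4,2)]⟩,.k,.k,
  (.r (-1) ⟨13,[(0,2),(4,1),(1,2),(3,11),(6,0),(18,1),(14,25),(1,5)]⟩ ⟨6,[(10,0),(3,0),(1,3),(4,0),
  (5,4)]⟩),(.r 0 ⟨0,[(11,0),(40,0)]⟩ ⟨0,[(27,0)]⟩),.k,.k,⟨true,(-1),⟨22,[(10,1),(0,3),(6,7),(0,15),
  (0,3),(25,6),(2,2)]⟩,⟨0,[(54,0)]⟩⟩,⟨false,2,⟨6,[(0,5),(11,0),(18,1),(0,0),(3,0),(9,1)]⟩,⟨3,[(4,1),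
  (1,1),(2,1),(0,1),(11,1),(26,0),(4,0)]⟩⟩,⟨true,(-1),⟨6,[(10,2),(3,0),(4,4),(0,1),(0,2),(5,0)]⟩,
  ⟨13,[(0,2),(4,1),(1,2),(3,11),(6,0),(18,1),(14,11),(1,5)]⟩⟩,⟨false,2,⟨7,[(0,2),(1,2),(6,0),(3,2),
  (7,4),(5,0),(3,1),(22,6)]⟩,⟨7,[(4,6),(2,0),(1,4),(1,0),(6,2),(18,1),(11,0),(2,6)]⟩⟩,⟨false,0,⟨0,
  []⟩,⟨0,[]⟩⟩,⟨false,0,⟨0,[]⟩,⟨0,[]⟩⟩,[.e ⟨false,0,⟨0,[(56,0)]⟩,⟨9,[(0,1),(4,0),(1,1),(20,0),(25,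
  3)]⟩⟩ ⟨false,2,⟨0,[(0,0)]⟩,⟨0,[(6,0),(32,0)]⟩⟩,.o ⟨false,2,⟨0,[(31,0),(22,0)]⟩,⟨22,[(4,7),(1,14),
  (1,5),(2,1),(6,2),(1,7),(25,1),(2,8)]⟩⟩,.o ⟨false,0,⟨0,[(39,0)]⟩,⟨0,[(15,0)]⟩⟩,.a ⟨true,(-1),⟨40,
  [(9,14),(0,23),(7,12),(0,9),(2,6),(4,7),(20,1)]⟩,⟨29,[(0,12),(0,0),(2,0),(2,11),(3,5),(5,2),(3,5),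
  (7,0),(12,2),(5,3),(1,2)]⟩⟩ ⟨false,0,⟨0,[]⟩,⟨1,[(31,0),(0,0),(21,0)]⟩⟩ ⟨true,2,⟨0,[(0,0)]⟩,⟨2,[(6,
  2),(3,0),(7,0),(0,1),(19,0),(9,0)]⟩⟩]⟩)))) (.S ⟨1,0,[0,0,1],[1,1,0,0,-1],[0,-1,1],(⟨22,[(28,2),(0,
  2),(0,22),(8,4),(4,5),(0,2)]⟩,⟨0,[(0,0),(25,0),(0,0)]⟩),⟨0,[(30,0)]⟩,(.r (-1) ⟨7,[(6,1),(16,1),(0,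
  1),(3,2),(0,2),(21,0)]⟩ ⟨19,[(2,3),(5,0),(3,6),(2,9),(1,0),(25,3),(2,2)]⟩),.k,⟨true,0,⟨0,[(49,
  0)]⟩,⟨0,[(48,0)]⟩⟩,⟨false,0,⟨0,[(49,0)]⟩,⟨3,[(23,1),(26,0),(0,0)]⟩⟩,⟨false,1,⟨1,[(28,0),(0,0),(21,
  0)]⟩,⟨0,[]⟩⟩,⟨true,0,⟨0,[(53,0)]⟩,⟨0,[]⟩⟩,[.o ⟨false,1,⟨0,[(28,0)]⟩,⟨1,[(3,1),(42,0),(4,0)]⟩⟩,.e
  ⟨false,1,⟨0,[(51,0)]⟩,⟨0,[(43,0)]⟩⟩ ⟨false,1,⟨1,[(28,0),(0,0),(21,0)]⟩,⟨6,[(2,0),(5,1),(2,0),(2,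
  0),(2,0),(25,0),(6,0)]⟩⟩,.a ⟨true,1,⟨2,[(14,0),(13,2),(16,0),(1,0),(2,0),(0,0)]⟩,⟨0,[(1,0),(4,0),
  (12,0)]⟩⟩ ⟨false,1,⟨2,[(6,0),(17,0),(24,1),(1,1)]⟩,⟨6,[(2,0),(5,1),(2,0),(2,0),(2,0),(25,0),(6,
  0)]⟩⟩ ⟨true,0,⟨1,[(35,0),(0,0)]⟩,⟨6,[(2,0),(5,1),(2,0),(2,0),(2,0),(25,0),(6,0)]⟩⟩,.o ⟨false,1,⟨0,
  [(28,0)]⟩,⟨1,[(3,1),(42,0),(4,0)]⟩⟩]⟩)) (.Q [0,0,0,0,0,0,1,0,1,-1,1,1] (.p true [0,0,1] [1,0,0,0,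
  -1] (⟨0,[(37,0)]⟩,⟨0,[(36,0)]⟩) .k 2 (⟨0,[(29,0)]⟩,⟨0,[(30,0)]⟩) .k (.r 0 ⟨1,[(16,0),(7,0),(7,
  0)]⟩ ⟨0,[(8,0),(41,0)]⟩)) (.K ⟨0,[1,0,0,0,-1],0,1,(⟨0,[(30,0)]⟩,⟨0,[(31,0)]⟩),.k,(.r (-1) ⟨1,[(49,
  1),(0,0),(0,0)]⟩ ⟨6,[(5,0),(3,2),(12,3),(0,0)]⟩),(.r (-1) ⟨12,[(1,2),(4,0),(16,3),(0,3),(4,2),(4,
  2),(16,1)]⟩ ⟨19,[(2,3),(5,0),(3,6),(2,9),(1,0),(25,3),(2,2)]⟩),.k,.k,[⟨0,[(0,0)]⟩,⟨6,[(1,5),(0,1),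
  (4,0),(5,1),(0,3),(13,0)]⟩,⟨3,[(0,0),(1,0),(0,2),(1,0),(4,0),(3,2),(31,2)]⟩,⟨3,[(1,3),(23,1),(17,
  1),(1,0),(4,0)]⟩]⟩) (.Q [0,0,0,0,0,-1,0,0,0,0,0,1] (.ed false [1,-1,0,0,1] .k) (.S ⟨1,0,[0,2,0,
  -1],[0,0,0,0,1],[1,1],(⟨0,[(32,0)]⟩,⟨0,[(31,0)]⟩),⟨0,[(0,0)]⟩,.k,(.r 0 ⟨19,[(3,3),(5,0),(3,6),(2,
  9),(1,0),(25,3),(2,2)]⟩ ⟨12,[(2,2),(4,0),(16,3),(0,3),(4,2),(4,2),(16,1)]⟩),⟨true,0,⟨0,[]⟩,⟨0,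
  [(54,0)]⟩⟩,⟨false,0,⟨0,[(50,0)]⟩,⟨3,[(24,1),(26,0),(0,0)]⟩⟩,⟨false,1,⟨3,[(24,1),(26,0),(0,0)]⟩,⟨0,
  [(50,0)]⟩⟩,⟨true,0,⟨0,[(54,0)]⟩,⟨0,[]⟩⟩,[.o ⟨false,(-1),⟨0,[(4,0),(10,0),(31,0)]⟩,⟨14,[(2,4),(0,
  4),(3,2),(1,1),(1,4),(12,0),(4,9),(22,13)]⟩⟩,.a ⟨true,(-1),⟨0,[(4,0),(45,0)]⟩,⟨3,[(1,0),(0,2),(0,
  0),(20,0),(21,0),(1,1),(3,0)]⟩⟩ ⟨true,0,⟨0,[]⟩,⟨1,[(36,0),(0,0)]⟩⟩ ⟨false,0,⟨19,[(3,3),(5,0),(3,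
  6),(2,9),(1,0),(25,3),(2,2)]⟩,⟨3,[(24,1),(26,0),(0,0)]⟩⟩,.o ⟨false,0,⟨1,[(4,1),(42,0),(4,0)]⟩,⟨0,
  [(29,0)]⟩⟩,.o ⟨false,0,⟨4,[(4,1),(2,1),(0,0),(11,1),(9,2),(16,2)]⟩,⟨0,[(1,0),(11,0)]⟩⟩]⟩) (.R ⟨0,
  false,false,false,[0,0,0,0,1],[0,1],[1,0,2,1],(⟨0,[(32,0)]⟩,⟨0,[(31,0)]⟩),(⟨0,[(43,0)]⟩,⟨0,[(42,
  0)]⟩),⟨0,[(0,0)]⟩,.k,.k,(.r 0 ⟨19,[(3,3),(5,0),(3,6),(2,9),(1,0),(25,3),(2,2)]⟩ ⟨12,[(2,2),(4,0),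
  (16,3),(0,3),(4,2),(4,2),(16,1)]⟩),(.r 0 ⟨19,[(3,3),(5,0),(3,6),(2,9),(1,0),(25,3),(2,2)]⟩ ⟨12,
  [(2,2),(4,0),(16,3),(0,3),(4,2),(4,2),(16,1)]⟩),.k,.k,⟨false,0,⟨0,[]⟩,⟨1,[(29,0),(0,0),(20,0)]⟩⟩,
  ⟨true,1,⟨0,[(1,0),(11,0)]⟩,⟨4,[(4,3),(2,3),(0,1),(11,3),(9,0),(16,0)]⟩⟩,⟨true,0,⟨0,[(17,0),(34,
  0)]⟩,⟨19,[(3,7),(5,6),(3,8),(2,9),(1,6),(25,7),(2,0)]⟩⟩,⟨false,2,⟨14,[(2,4),(0,4),(3,2),(1,1),(1,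
  4),(12,0),(4,9),(22,13)]⟩,⟨0,[(4,0),(45,0)]⟩⟩,⟨false,0,⟨0,[]⟩,⟨0,[]⟩⟩,⟨false,0,⟨0,[]⟩,⟨0,[]⟩⟩,[.o
  ⟨false,1,⟨14,[(11,0),(9,0),(2,5),(19,1),(2,6),(3,1)]⟩,⟨0,[(50,0)]⟩⟩,.a ⟨true,1,⟨3,[(24,1),(26,0),
  (0,0)]⟩,⟨0,[(15,0)]⟩⟩ ⟨true,0,⟨0,[(17,0),(34,0)]⟩,⟨19,[(3,3),(5,0),(3,6),(2,9),(1,0),(25,3),(2,
  2)]⟩⟩ ⟨false,2,⟨0,[(29,0),(18,0),(3,0)]⟩,⟨0,[(4,0),(45,0)]⟩⟩,.o ⟨false,0,⟨1,[(4,1),(42,0),(4,0)]⟩,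
  ⟨0,[(29,0)]⟩⟩,.o ⟨false,0,⟨4,[(4,1),(2,1),(0,0),(11,1),(9,2),(16,2)]⟩,⟨0,[(1,0),(11,0)]⟩⟩]⟩)))))
  (.Q [0,-2,0,0,1,0,0,0,-1,1,0,-1] (.p false [0,0,0,0,1] [1] (⟨0,[(28,0)]⟩,⟨0,[(27,0)]⟩) .k 1 (⟨0,
  []⟩,⟨0,[]⟩) .k .k) (.Q [0,0,0,0,0,-1,0,0,0,0,0,1] (.ed false [1,-1,0,0,1] .k) (.Q [0,0,2,0,-1,0,0,
  0,1,0,0,1] (.p true [0,0,0,0,1] [] (⟨0,[(30,0)]⟩,⟨0,[(29,0)]⟩) .k 0 (⟨0,[]⟩,⟨0,[]⟩) .k .k) (.K ⟨0,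
  [0,-1,0,0,1],(-1),(-1),(⟨0,[(1,0)]⟩,⟨13,[(2,0),(12,0),(7,0),(5,0),(0,13),(8,1),(3,0),(0,3),(0,
  0)]⟩),(.r 0 ⟨2,[(15,1),(30,0),(0,0),(2,0)]⟩ ⟨7,[(6,1),(16,1),(0,1),(3,2),(0,2),(21,0)]⟩),(.r (-1)
  ⟨2,[(4,1),(10,2),(9,0),(2,1),(17,0),(3,0)]⟩ ⟨0,[(13,0),(37,0)]⟩),.k,(.r 0 ⟨0,[(8,0),(40,0)]⟩ ⟨0,
  [(24,0)]⟩),.k,[⟨0,[(3,0),(4,0),(9,0)]⟩,⟨0,[(0,0)]⟩,⟨6,[(3,2),(9,0),(9,0),(4,3),(18,2)]⟩,⟨31,[(0,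
  18),(3,12),(2,11),(0,10),(6,15),(1,10),(25,12),(2,1)]⟩]⟩) (.S ⟨1,0,[0,0,1],[1,1,0,0,-1],[0,-1,1],
  (⟨13,[(2,0),(12,0),(7,0),(5,0),(0,13),(8,1),(3,0),(0,3),(0,0)]⟩,⟨0,[(1,0)]⟩),⟨0,[(30,0)]⟩,(.r
  (-1) ⟨7,[(6,1),(16,1),(0,1),(3,2),(0,2),(21,0)]⟩ ⟨31,[(0,6),(3,6),(2,3),(0,0),(6,15),(1,0),(25,6),
  (2,5)]⟩),.k,⟨true,0,⟨0,[(49,0)]⟩,⟨0,[(48,0)]⟩⟩,⟨false,0,⟨0,[(49,0)]⟩,⟨3,[(23,1),(26,0),(0,0)]⟩⟩,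
  ⟨false,1,⟨1,[(28,0),(0,0),(21,0)]⟩,⟨0,[]⟩⟩,⟨true,0,⟨0,[(53,0)]⟩,⟨0,[]⟩⟩,[.a ⟨true,0,⟨2,[(0,0),(1,
  0),(0,0),(9,0),(0,1)]⟩,⟨0,[(29,0)]⟩⟩ ⟨false,1,⟨1,[(28,0),(0,0),(21,0)]⟩,⟨6,[(0,0),(3,0),(2,0),(0,
  0),(6,0),(1,0),(25,0),(3,1)]⟩⟩ ⟨true,0,⟨1,[(35,0),(0,0)]⟩,⟨0,[]⟩⟩,.o ⟨false,1,⟨0,[(3,0)]⟩,⟨18,[(4,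
  11),(2,5),(7,4),(0,9),(12,6),(13,1),(2,8)]⟩⟩,.o ⟨false,1,⟨1,[(0,0),(27,0)]⟩,⟨1,[(4,1),(0,0),(0,0),
  (0,1),(11,1),(26,0)]⟩⟩,.e ⟨false,1,⟨0,[(51,0)]⟩,⟨0,[(53,0)]⟩⟩ ⟨false,1,⟨1,[(28,0),(0,0),(21,0)]⟩,
  ⟨0,[]⟩⟩]⟩)) (.Q [0,0,0,0,1,0,0,0,-1,-1,0,-1] (.p false [1,-1,0,0,1] [] (⟨0,[(30,0),(9,0)]⟩,⟨0,[(0,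
  0)]⟩) (.r 0 ⟨2,[(14,1),(30,0),(0,0),(2,0)]⟩ ⟨7,[(5,1),(16,1),(0,1),(3,2),(0,2),(21,0)]⟩) 0 (⟨0,
  []⟩,⟨0,[]⟩) .k .k) (.R ⟨0,false,false,false,[0,1,0,0,-1],[0,0,1,0,-1],[0,1],(⟨0,[(1,0)]⟩,⟨0,[(31,
  0),(9,0)]⟩),(⟨0,[(1,0),(25,0)]⟩,⟨0,[(31,0),(5,0)]⟩),⟨0,[(31,0)]⟩,(.r (-1) ⟨7,[(6,1),(16,1),(0,1),
  (3,2),(0,2),(21,0)]⟩ ⟨2,[(15,1),(30,0),(0,0),(2,0)]⟩),.k,.k,.k,.k,.k,⟨false,0,⟨1,[(8,0),(0,0),(33,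
  0)]⟩,⟨0,[(18,0),(2,0),(29,0)]⟩⟩,⟨true,0,⟨0,[(35,0)]⟩,⟨0,[(21,0)]⟩⟩,⟨false,0,⟨2,[(15,1),(30,0),(0,
  0),(2,0)]⟩,⟨5,[(6,0),(6,0),(9,0),(0,0),(26,4)]⟩⟩,⟨true,0,⟨0,[(19,0)]⟩,⟨0,[(20,0)]⟩⟩,⟨false,0,⟨0,
  []⟩,⟨0,[]⟩⟩,⟨false,0,⟨0,[]⟩,⟨0,[]⟩⟩,[.e ⟨false,0,⟨5,[(15,1),(30,0),(0,3),(2,0)]⟩,⟨1,[(28,0),(0,0),
  (21,0)]⟩⟩ ⟨false,1,⟨6,[(2,1),(1,1),(13,0),(0,2),(4,2),(10,0)]⟩,⟨0,[(8,0),(12,0)]⟩⟩,.o ⟨false,2,⟨1,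
  [(3,1),(14,1),(27,0),(4,0)]⟩,⟨4,[(4,4),(0,2),(1,4),(0,1),(6,1),(0,0),(26,0),(2,0)]⟩⟩,.a ⟨true,1,
  ⟨2,[(0,0),(2,1),(10,0),(32,0),(2,0)]⟩,⟨3,[(4,3),(0,0),(0,2),(0,3),(7,1),(2,3),(26,0)]⟩⟩ ⟨true,0,
  ⟨0,[(53,0)]⟩,⟨0,[]⟩⟩ ⟨false,1,⟨2,[(6,0),(11,0),(0,1),(4,0),(26,1)]⟩,⟨0,[(8,0),(12,0)]⟩⟩,.o ⟨false,
  1,⟨0,[(0,0)]⟩,⟨0,[(29,0)]⟩⟩]⟩) (.R ⟨2,true,false,false,[0,1],[0,0,0,0,1],[1,1,1,1],(⟨0,[]⟩,⟨0,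
  []⟩),(⟨0,[(31,0)]⟩,⟨0,[(30,0)]⟩),⟨0,[]⟩,.k,.k,.k,(.r (-1) ⟨7,[(6,1),(16,1),(0,1),(3,2),(0,2),(21,
  0)]⟩ ⟨2,[(15,1),(30,0),(0,0),(2,0)]⟩),.k,.k,⟨true,0,⟨2,[(16,0),(6,0)]⟩,⟨0,[(49,0)]⟩⟩,⟨false,0,⟨0,
  [(29,0)]⟩,⟨5,[(3,5),(11,1),(30,0),(0,3),(2,0)]⟩⟩,⟨false,0,⟨0,[]⟩,⟨1,[(28,0),(0,0),(21,0)]⟩⟩,⟨true,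
  (-1),⟨0,[(0,0),(13,0),(31,0)]⟩,⟨6,[(3,2),(9,0),(9,0),(4,3),(18,2)]⟩⟩,⟨true,0,⟨0,[(48,0)]⟩,⟨0,[(49,
  0)]⟩⟩,⟨false,0,⟨0,[(29,0)]⟩,⟨0,[(3,0)]⟩⟩,[]⟩))) (.R ⟨2,true,false,false,[0,1],[0,0,0,0,1],[0,1,1],
  (⟨0,[]⟩,⟨0,[]⟩),(⟨0,[(29,0)]⟩,⟨0,[(28,0)]⟩),⟨0,[]⟩,.k,.k,.k,(.r (-1) ⟨7,[(4,1),(16,1),(0,1),(3,2),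
  (0,2),(21,0)]⟩ ⟨2,[(13,1),(30,0),(0,0),(2,0)]⟩),.k,.k,⟨true,0,⟨1,[(33,0),(0,0)]⟩,⟨0,[]⟩⟩,⟨false,0,
  ⟨0,[(27,0)]⟩,⟨5,[(1,5),(11,1),(30,0),(0,3),(2,0)]⟩⟩,⟨false,0,⟨0,[(47,0)]⟩,⟨3,[(21,1),(26,0),(0,
  0)]⟩⟩,⟨true,(-1),⟨3,[(0,3),(12,1),(29,0),(5,2)]⟩,⟨6,[(1,2),(9,0),(9,0),(4,3),(18,2)]⟩⟩,⟨true,0,⟨0,
  [(51,0)]⟩,⟨0,[]⟩⟩,⟨false,0,⟨0,[(27,0)]⟩,⟨0,[(1,0)]⟩⟩,[]⟩)))) (.Q [0,0,0,0,0,-1,0,0,0,0,0,1] (.ed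
  false [1,-1,0,0,1] .k) (.Q [0,0,0,0,0,2,0,0,0,0,-1] (.p false [0,0,1] [] (⟨0,[(34,0)]⟩,⟨0,[(33,
  0)]⟩) .k 0 (⟨0,[]⟩,⟨0,[]⟩) .k .k) (.R ⟨0,false,false,false,[0,-1,1],[1,-1],[1,1,1],(⟨0,[(24,0)]⟩,
  ⟨25,[(0,11),(11,5),(7,5),(13,13),(1,1),(5,2),(4,2)]⟩),(⟨0,[(38,0)]⟩,⟨0,[(39,0)]⟩),⟨0,[(0,0)]⟩,.k,
  .k,(.r (-1) ⟨13,[(2,12),(9,7),(8,0),(3,3),(0,3),(13,2),(2,3)]⟩ ⟨7,[(3,3),(1,0),(0,2),(3,2),(9,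
  2)]⟩),.k,.k,.k,⟨true,(-1),⟨0,[(13,0)]⟩,⟨1,[(46,1),(0,0),(0,0)]⟩⟩,⟨false,0,⟨0,[(29,0)]⟩,⟨3,[(9,1),
  (15,0),(0,0),(5,1),(10,0)]⟩⟩,⟨false,0,⟨7,[(3,5),(2,3),(12,1),(12,0),(0,0)]⟩,⟨0,[(2,0)]⟩⟩,⟨true,0,
  ⟨15,[(3,3),(1,7),(0,3),(5,1),(9,7),(19,2),(5,4)]⟩,⟨0,[(14,0)]⟩⟩,⟨false,0,⟨0,[]⟩,⟨0,[]⟩⟩,⟨false,0,
  ⟨0,[]⟩,⟨0,[]⟩⟩,[.o ⟨false,0,⟨0,[(46,0)]⟩,⟨14,[(7,0),(9,0),(2,5),(19,1),(2,6),(3,1)]⟩⟩,.e ⟨false,0,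
  ⟨0,[]⟩,⟨1,[(25,0),(0,0),(20,0)]⟩⟩ ⟨false,1,⟨2,[(2,0),(2,0),(6,0),(9,0),(6,0),(17,0),(0,1)]⟩,⟨4,
  [(3,0),(1,0),(0,0),(1,2),(4,0),(18,1),(10,0)]⟩⟩,.a ⟨true,0,⟨0,[(32,0)]⟩,⟨0,[(29,0)]⟩⟩ ⟨false,0,⟨1,
  [(32,0),(0,0)]⟩,⟨1,[(47,0),(0,0)]⟩⟩ ⟨true,0,⟨10,[(2,2),(1,0),(0,2),(6,3),(9,2),(6,2),(18,1)]⟩,⟨4,
  [(3,0),(1,0),(0,0),(1,2),(4,0),(18,1),(10,0)]⟩⟩,.o ⟨false,0,⟨2,[(3,2),(8,0),(1,1),(1,0),(26,0)]⟩,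
  ⟨0,[(18,0),(28,0)]⟩⟩]⟩) (.S ⟨1,0,[0,1,-1,-2,0,0,0,1],[0,-1,1],[1,0,-1,-1,0,0,0,1],(⟨0,[(24,0)]⟩,
  ⟨22,[(25,2),(0,2),(7,22),(1,4),(4,5),(0,2)]⟩),⟨0,[(0,0)]⟩,.k,(.r (-1) ⟨13,[(2,12),(9,7),(8,0),(3,
  3),(0,3),(13,2),(2,3)]⟩ ⟨7,[(3,3),(1,0),(0,2),(3,2),(9,2)]⟩),⟨true,0,⟨0,[]⟩,⟨0,[(50,0)]⟩⟩,⟨false,
  0,⟨0,[(46,0)]⟩,⟨3,[(20,1),(26,0),(0,0)]⟩⟩,⟨false,1,⟨3,[(20,1),(26,0),(0,0)]⟩,⟨0,[(46,0)]⟩⟩,⟨true,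
  0,⟨0,[(50,0)]⟩,⟨0,[]⟩⟩,[.o ⟨false,0,⟨2,[(12,1),(1,0),(1,1),(26,1)]⟩,⟨9,[(3,3),(0,1),(12,5),(25,0),
  (0,9),(3,10)]⟩⟩,.e ⟨false,1,⟨0,[(2,0)]⟩,⟨2,[(6,2),(6,0),(6,0)]⟩⟩ ⟨false,1,⟨13,[(2,12),(9,7),(8,0),
  (3,3),(0,3),(13,2),(2,3)]⟩,⟨0,[(3,0),(40,0)]⟩⟩,.a ⟨true,0,⟨0,[(32,0)]⟩,⟨0,[(29,0)]⟩⟩ ⟨false,1,⟨2,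
  [(2,1),(18,0),(24,1)]⟩,⟨7,[(3,3),(1,2),(0,0),(3,0),(9,0)]⟩⟩ ⟨true,0,⟨9,[(2,4),(9,7),(1,3),(4,0),
  (2,1),(17,0),(2,2)]⟩,⟨0,[(3,0),(40,0)]⟩⟩,.o ⟨false,0,⟨2,[(3,2),(8,0),(1,1),(1,0),(26,0)]⟩,⟨0,[(18,
  0),(28,0)]⟩⟩]⟩)) (.Q [0,0,0,0,0,2,0,0,0,0,-1] (.p false [0,0,1] [] (⟨0,[(34,0)]⟩,⟨0,[(33,0)]⟩) .k
  0 (⟨0,[]⟩,⟨0,[]⟩) .k .k) (.R ⟨0,false,false,false,[0,-1,1],[1,-1],[1,1,1],(⟨0,[(24,0)]⟩,⟨25,[(0,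
  11),(11,5),(7,5),(13,13),(1,1),(5,2),(4,2)]⟩),(⟨0,[(38,0)]⟩,⟨0,[(39,0)]⟩),⟨0,[(0,0)]⟩,.k,.k,(.r
  (-1) ⟨13,[(2,12),(9,7),(8,0),(3,3),(0,3),(13,2),(2,3)]⟩ ⟨7,[(3,3),(1,0),(0,2),(3,2),(9,2)]⟩),.k,
  .k,.k,⟨true,(-1),⟨0,[(13,0)]⟩,⟨1,[(46,1),(0,0),(0,0)]⟩⟩,⟨false,0,⟨0,[(29,0)]⟩,⟨3,[(9,1),(15,0),(0,
  0),(5,1),(10,0)]⟩⟩,⟨false,0,⟨7,[(3,5),(2,3),(12,1),(12,0),(0,0)]⟩,⟨0,[(2,0)]⟩⟩,⟨true,0,⟨15,[(3,3),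
  (1,7),(0,3),(5,1),(9,7),(19,2),(5,4)]⟩,⟨0,[(14,0)]⟩⟩,⟨false,0,⟨0,[]⟩,⟨0,[]⟩⟩,⟨false,0,⟨0,[]⟩,⟨0,
  []⟩⟩,[.o ⟨false,0,⟨0,[(46,0)]⟩,⟨14,[(7,0),(9,0),(2,5),(19,1),(2,6),(3,1)]⟩⟩,.e ⟨false,0,⟨0,[]⟩,⟨1,
  [(25,0),(0,0),(20,0)]⟩⟩ ⟨false,1,⟨2,[(2,0),(2,0),(6,0),(9,0),(6,0),(17,0),(0,1)]⟩,⟨4,[(3,0),(1,0),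
  (0,0),(1,2),(4,0),(18,1),(10,0)]⟩⟩,.a ⟨true,0,⟨0,[(32,0)]⟩,⟨0,[(29,0)]⟩⟩ ⟨false,0,⟨1,[(32,0),(0,
  0)]⟩,⟨1,[(47,0),(0,0)]⟩⟩ ⟨true,0,⟨10,[(2,2),(1,0),(0,2),(6,3),(9,2),(6,2),(18,1)]⟩,⟨4,[(3,0),(1,
  0),(0,0),(1,2),(4,0),(18,1),(10,0)]⟩⟩,.o ⟨false,0,⟨2,[(3,2),(8,0),(1,1),(1,0),(26,0)]⟩,⟨0,[(18,0),
  (28,0)]⟩⟩]⟩) (.R ⟨1,false,false,false,[0,-1,1],[1,-1],[0,0,-1,-2,0,0,0,1],(⟨0,[(24,0)]⟩,⟨22,[(25,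
  2),(0,2),(7,22),(1,4),(4,5),(0,2)]⟩),(⟨0,[(38,0)]⟩,⟨0,[(39,0)]⟩),⟨0,[(0,0)]⟩,.k,.k,(.r (-1) ⟨13,
  [(2,12),(9,7),(8,0),(3,3),(0,3),(13,2),(2,3)]⟩ ⟨7,[(3,3),(1,0),(0,2),(3,2),(9,2)]⟩),.k,.k,.k,
  ⟨true,0,⟨11,[(2,2),(1,2),(7,0),(1,1),(1,6),(16,2),(9,0)]⟩,⟨7,[(3,3),(1,2),(0,0),(3,0),(9,0)]⟩⟩,
  ⟨false,0,⟨0,[(29,0)]⟩,⟨3,[(9,1),(15,0),(0,0),(5,1),(10,0)]⟩⟩,⟨true,0,⟨0,[(46,0)]⟩,⟨0,[(45,0)]⟩⟩,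
  ⟨true,0,⟨15,[(3,3),(1,7),(0,3),(5,1),(9,7),(19,2),(5,4)]⟩,⟨0,[(14,0)]⟩⟩,⟨false,1,⟨1,[(25,0),(0,0),
  (21,0)]⟩,⟨0,[]⟩⟩,⟨true,0,⟨6,[(3,2),(1,1),(11,1),(2,0),(8,4),(12,0)]⟩,⟨2,[(12,0),(1,1),(1,0),(26,
  0)]⟩⟩,[.o ⟨false,0,⟨0,[(46,0)]⟩,⟨14,[(7,0),(9,0),(2,5),(19,1),(2,6),(3,1)]⟩⟩,.e ⟨false,1,⟨0,[(2,
  0),(43,0)]⟩,⟨1,[(5,0),(0,0),(3,0),(9,0)]⟩⟩ ⟨false,1,⟨2,[(2,0),(2,0),(6,0),(9,0),(6,0),(17,0),(0,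
  1)]⟩,⟨4,[(3,0),(1,0),(0,0),(1,2),(4,0),(18,1),(10,0)]⟩⟩,.a ⟨true,0,⟨0,[(32,0)]⟩,⟨0,[(29,0)]⟩⟩
  ⟨false,1,⟨2,[(2,1),(18,0),(24,4)]⟩,⟨0,[(3,0),(40,0)]⟩⟩ ⟨true,0,⟨10,[(2,2),(1,0),(0,2),(6,3),(9,2),
  (6,2),(18,1)]⟩,⟨4,[(3,0),(1,0),(0,0),(1,2),(4,0),(18,1),(10,0)]⟩⟩,.o ⟨false,0,⟨2,[(3,2),(8,0),(1,
  1),(1,0),(26,0)]⟩,⟨0,[(18,0),(28,0)]⟩⟩]⟩)))))))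

theorem ok131 : chk K t131 l75 = true := by decide +kernel

noncomputable def t132 : Tre :=
  (.Q [0,1,0,-2,-1,0,1,1,0,0,1] (.p true [0,0,1] [] (⟨0,[(29,0)]⟩,⟨0,[(28,0)]⟩) .k 0 (⟨0,[]⟩,⟨0,
  []⟩) .k .k) (.I [0,0,2,2,0,0,0,-1] (.R ⟨1,true,false,false,[0,0,1],[0,1],[1,0,0,0,0,0,0,1],(⟨0,
  [(31,0)]⟩,⟨0,[(30,0)]⟩),(⟨0,[(35,0)]⟩,⟨0,[(34,0)]⟩),⟨0,[(20,0)]⟩,.k,.k,.k,.k,(.r (-1) ⟨3,[(1,1),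
  (10,1),(5,1),(20,0),(2,1),(0,3),(0,0)]⟩ ⟨0,[(0,0)]⟩),.k,⟨true,0,⟨1,[(1,0),(0,0),(11,0),(28,0)]⟩,
  ⟨0,[(0,0),(41,0)]⟩⟩,⟨false,1,⟨0,[(14,0),(28,0)]⟩,⟨0,[(28,0)]⟩⟩,⟨true,0,⟨0,[]⟩,⟨0,[(46,0)]⟩⟩,
  ⟨false,1,⟨0,[(13,0),(30,0)]⟩,⟨0,[(12,0)]⟩⟩,⟨false,1,⟨3,[(16,1),(26,0),(0,0)]⟩,⟨0,[(42,0)]⟩⟩,⟨true,
  1,⟨3,[(13,3),(2,1),(26,0),(0,0)]⟩,⟨0,[(1,0)]⟩⟩,[]⟩) (.R ⟨1,false,false,false,[0,0,1],[0,1],[0,1],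
  (⟨0,[(31,0)]⟩,⟨0,[(30,0)]⟩),(⟨0,[(35,0)]⟩,⟨0,[(34,0)]⟩),⟨0,[(20,0)]⟩,.k,.k,.k,.k,(.x 0 ⟨3,[(19,3),
  (8,4),(0,0),(7,3),(7,1)]⟩ ⟨3,[(0,1),(12,1),(0,1),(4,1),(0,5),(18,0),(0,1),(2,0),(0,1)]⟩),.k,⟨true,
  0,⟨3,[(0,0),(4,0),(2,0),(18,0),(8,0)]⟩,⟨0,[(9,0),(34,0)]⟩⟩,⟨false,1,⟨0,[(14,0),(28,0)]⟩,⟨0,[(28,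
  0)]⟩⟩,⟨false,1,⟨1,[(27,1),(0,1),(14,0),(0,0)]⟩,⟨0,[(2,0)]⟩⟩,⟨false,1,⟨0,[(13,0),(30,0)]⟩,⟨0,[(12,
  0)]⟩⟩,⟨false,1,⟨4,[(5,1),(7,2),(2,0),(10,1),(0,2),(9,0),(4,0),(0,1)]⟩,⟨1,[(1,0),(0,0),(11,0),(29,
  0)]⟩⟩,⟨true,1,⟨3,[(13,3),(2,1),(26,0),(0,0)]⟩,⟨0,[(1,0)]⟩⟩,[.o ⟨false,1,⟨14,[(3,0),(9,0),(2,5),
  (19,1),(2,6),(3,1)]⟩,⟨0,[(42,0)]⟩⟩,.e ⟨false,1,⟨1,[(21,0),(0,0),(20,0)]⟩,⟨0,[]⟩⟩ ⟨false,1,⟨0,[(14,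
  0),(25,0),(3,0)]⟩,⟨15,[(5,5),(2,7),(12,0),(0,0),(5,9),(7,3),(2,0)]⟩⟩,.o ⟨false,1,⟨3,[(5,1),(15,0),
  (0,0),(5,1),(10,0)]⟩,⟨0,[(14,0)]⟩⟩,.a ⟨true,0,⟨0,[(28,0)]⟩,⟨0,[(25,0)]⟩⟩ ⟨true,0,⟨6,[(0,0),(4,0),
  (1,0),(19,0),(8,0),(3,2)]⟩,⟨1,[(28,0),(0,0)]⟩⟩ ⟨false,1,⟨0,[(14,0),(25,0),(3,0)]⟩,⟨0,[(28,0),(13,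
  0)]⟩⟩]⟩)) (.I [1,-1,0,0,1,0,0,-1] (.R ⟨1,false,false,false,[1,0,-1],[1,-1],[1,0,0,0,0,0,0,-1],(⟨0,
  [(30,0)]⟩,⟨0,[(31,0)]⟩),(⟨0,[(34,0)]⟩,⟨0,[(35,0)]⟩),⟨0,[(19,0)]⟩,.k,.k,.k,.k,.k,.k,⟨false,1,⟨0,
  [(0,0),(40,0)]⟩,⟨2,[(2,2),(5,1),(30,0),(0,0),(2,0)]⟩⟩,⟨true,0,⟨0,[(28,0)]⟩,⟨0,[(14,0)]⟩⟩,⟨true,0,
  ⟨0,[]⟩,⟨0,[(46,0)]⟩⟩,⟨true,0,⟨0,[(12,0)]⟩,⟨0,[(13,0)]⟩⟩,⟨false,1,⟨3,[(16,1),(26,0),(0,0)]⟩,⟨0,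
  [(42,0)]⟩⟩,⟨true,0,⟨0,[(11,0)]⟩,⟨0,[(27,0)]⟩⟩,[.o ⟨false,0,⟨0,[(42,0)]⟩,⟨31,[(1,1),(1,1),(12,11),
  (19,5),(2,14),(3,2)]⟩⟩,.a ⟨true,0,⟨3,[(8,1),(29,0),(5,2)]⟩,⟨0,[(41,0)]⟩⟩ ⟨true,1,⟨0,[(0,0)]⟩,⟨1,
  [(2,0),(4,0),(1,0),(0,0),(3,0)]⟩⟩ ⟨false,1,⟨3,[(5,3),(2,1),(29,0),(5,2)]⟩,⟨10,[(3,2),(2,0),(6,2),
  (0,0),(3,4),(17,1),(2,0)]⟩⟩,.o ⟨false,0,⟨0,[(14,0)]⟩,⟨2,[(0,0),(4,0),(20,0),(1,0),(10,0)]⟩⟩,.o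
  ⟨false,0,⟨0,[(29,0)]⟩,⟨0,[(5,0)]⟩⟩]⟩) (.I [0,-1,0,-1,1,0,0,-1] (.S ⟨1,0,[0,0,1,0,0,0,0,1],[0,1,1],
  [1,1,1,1,0,0,0,1],(⟨42,[(0,2),(17,2),(13,42),(0,6),(3,2),(0,11),(0,5)]⟩,⟨0,[(20,0)]⟩),⟨0,[(32,
  0)]⟩,.k,.k,⟨false,0,⟨0,[]⟩,⟨5,[(0,1),(17,1),(25,0),(0,0)]⟩⟩,⟨true,0,⟨0,[(43,0)]⟩,⟨0,[(42,0)]⟩⟩,
  ⟨true,0,⟨0,[(42,0)]⟩,⟨0,[(43,0)]⟩⟩,⟨false,1,⟨5,[(0,1),(17,1),(25,0),(0,0)]⟩,⟨0,[]⟩⟩,[.a ⟨true,0,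
  ⟨0,[(12,0)]⟩,⟨0,[(2,0),(6,0)]⟩⟩ ⟨true,(-1),⟨4,[(1,3),(5,1),(10,0)]⟩,⟨0,[(0,0)]⟩⟩ ⟨false,0,⟨3,[(3,
  1),(7,0),(7,0),(7,0)]⟩,⟨0,[(0,0),(40,0)]⟩⟩,.o ⟨false,1,⟨1,[(12,1),(27,0),(4,0)]⟩,⟨0,[(28,0)]⟩⟩,.o
  ⟨false,1,⟨0,[(6,0)]⟩,⟨0,[(30,0)]⟩⟩,.o ⟨false,1,⟨20,[(0,3),(5,8),(10,1),(9,3),(1,7),(7,0),(2,5)]⟩,
  ⟨0,[(15,0)]⟩⟩]⟩) (.I [1,-1,0,-1,1,0,0,-1] (.Q [0,0,1,1,0,0,2,1,0,-1,2] (.p true [0,0,1] [1,0,-1]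
  (⟨0,[(33,0)]⟩,⟨0,[(32,0)]⟩) .k 2 (⟨0,[(32,0)]⟩,⟨0,[(33,0)]⟩) .k (.r 1 ⟨0,[(2,0),(1,0)]⟩ ⟨6,[(0,9),
  (2,1),(11,1),(2,1),(11,3),(7,5)]⟩)) (.Q [0,0,-2,-1,0,0,-1,0,0,1,-1] (.p false [0,0,1] [1] (⟨0,
  [(34,0)]⟩,⟨0,[(33,0)]⟩) .k 1 (⟨0,[]⟩,⟨0,[]⟩) .k .k) (.Q [0,-1,0,-2,0,0,1,1,0,0,1] (.p true [0,0,
  1] [] (⟨0,[(35,0)]⟩,⟨0,[(34,0)]⟩) .k 0 (⟨0,[]⟩,⟨0,[]⟩) .k .k) (.R ⟨1,false,false,true,[0,0,1],[0,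
  1],[],(⟨0,[(36,0)]⟩,⟨0,[(35,0)]⟩),(⟨0,[(40,0)]⟩,⟨0,[(39,0)]⟩),⟨0,[(25,0)]⟩,.k,.k,.k,.k,(.x 0 ⟨23,
  [(0,3),(2,5),(10,11),(7,1),(10,20),(0,0),(0,23),(6,15),(1,3)]⟩ ⟨9,[(1,7),(4,1),(1,1),(14,0),(0,4),
  (0,14),(18,5),(3,1)]⟩),.k,⟨true,1,⟨23,[(0,5),(0,5),(1,7),(18,1),(21,2),(3,6),(0,3)]⟩,⟨0,[(14,
  0)]⟩⟩,⟨false,1,⟨9,[(1,3),(4,0),(1,0),(14,2),(20,2),(3,5)]⟩,⟨0,[(33,0)]⟩⟩,⟨true,1,⟨6,[(3,4),(2,0),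
  (11,0),(2,0),(11,1),(7,2)]⟩,⟨0,[(5,0)]⟩⟩,⟨true,0,⟨0,[(18,0)]⟩,⟨0,[(17,0)]⟩⟩,⟨true,1,⟨15,[(3,4),(2,
  9),(3,1),(7,0),(14,8),(7,6),(1,0)]⟩,⟨5,[(0,0),(4,4),(7,1),(5,0),(24,0)]⟩⟩,⟨false,1,⟨2,[(6,1),(14,
  0),(10,0),(8,0)]⟩,⟨0,[(0,0)]⟩⟩,[.e ⟨false,1,⟨3,[(3,0),(18,0),(18,0),(6,1)]⟩,⟨0,[]⟩⟩ ⟨false,0,⟨47,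
  [(1,16),(2,24),(1,14),(11,9),(4,2),(17,13),(2,9)]⟩,⟨0,[(3,0),(12,0)]⟩⟩,.o ⟨false,1,⟨31,[(6,1),(1,
  1),(12,11),(19,5),(2,14),(3,2)]⟩,⟨0,[(47,0)]⟩⟩,.o ⟨false,1,⟨20,[(3,3),(6,8),(10,1),(9,3),(1,7),(7,
  0),(2,5)]⟩,⟨0,[(19,0)]⟩⟩,.a ⟨true,0,⟨0,[(33,0)]⟩,⟨0,[(30,0)]⟩⟩ ⟨false,1,⟨1,[(48,0),(0,0)]⟩,⟨1,
  [(33,0),(0,0)]⟩⟩ ⟨true,0,⟨47,[(1,16),(2,24),(1,14),(11,9),(4,2),(17,13),(2,9)]⟩,⟨13,[(0,1),(2,1),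
  (9,3),(19,12),(0,0),(9,1)]⟩⟩]⟩) (.I [1,-1,2,1,1,0,0,-2] (.I [0,0,2,2,0,0,0,-1] (.I [1,0,3,3,-2,0,
  0,2] (.Q [0,0,0,0,0,2,0,0,0,-1,1] (.p true [0,0,1] [1] (⟨0,[(39,0)]⟩,⟨0,[(38,0)]⟩) .k 1 (⟨0,[]⟩,
  ⟨0,[]⟩) .k .k) (.R ⟨0,false,false,false,[1,-1,-1],[0,0,1],[1,1,1],(⟨0,[(28,0)]⟩,⟨2,[(0,1),(1,1),
  (1,3),(3,5),(5,3),(1,17),(12,0),(18,5),(4,13)]⟩),(⟨0,[(40,0)]⟩,⟨0,[(39,0)]⟩),⟨0,[(0,0)]⟩,.k,.k,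
  (.r (-2) ⟨11,[(5,3),(1,16),(13,3),(4,0),(18,8),(2,1),(3,3)]⟩ ⟨25,[(1,12),(1,0),(11,3),(9,0),(0,
  1)]⟩),(.r (-2) ⟨4,[(3,1),(1,0),(1,5),(6,0),(30,3),(6,0)]⟩ ⟨3,[(1,0),(7,2),(1,1),(14,0)]⟩),.k,.k,
  ⟨true,0,⟨21,[(3,8),(2,3),(10,7),(0,2),(17,7),(8,5),(2,1)]⟩,⟨0,[(11,0)]⟩⟩,⟨false,2,⟨15,[(3,1),(3,
  1),(6,21),(5,1),(14,3),(1,3),(9,2),(4,8)]⟩,⟨4,[(1,4),(3,4),(1,5),(9,1),(5,0),(12,3),(11,0)]⟩⟩,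
  ⟨false,(-1),⟨37,[(1,20),(1,2),(3,4),(9,7),(3,6),(16,6),(9,3)]⟩,⟨0,[(7,0),(44,0)]⟩⟩,⟨true,0,⟨1,[(5,
  0),(0,1),(4,0),(1,0)]⟩,⟨1,[(3,0),(1,0),(11,0),(5,0),(12,1)]⟩⟩,⟨false,0,⟨0,[]⟩,⟨0,[]⟩⟩,⟨false,0,⟨0,
  []⟩,⟨0,[]⟩⟩,[.e ⟨false,0,⟨57,[(3,4),(13,7),(0,0),(5,9),(20,21),(2,3)]⟩,⟨1,[(52,0),(0,0)]⟩⟩ ⟨false,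
  1,⟨0,[(5,0),(0,0),(7,0)]⟩,⟨21,[(1,1),(1,10),(1,2),(11,6),(5,12),(3,11),(8,3)]⟩⟩,.o ⟨false,1,⟨11,
  [(6,1),(4,3),(2,3),(6,3),(4,1),(21,2),(4,2)]⟩,⟨0,[(36,0)]⟩⟩,.o ⟨false,0,⟨0,[(38,0)]⟩,⟨0,[(14,
  0)]⟩⟩,.a ⟨true,(-1),⟨4,[(1,1),(1,1),(13,3),(5,2),(3,0),(25,0)]⟩,⟨2,[(14,2),(1,0),(30,0),(1,0),(2,
  0),(0,0)]⟩⟩ ⟨false,0,⟨0,[]⟩,⟨5,[(7,1),(18,1),(25,0),(0,0)]⟩⟩ ⟨true,1,⟨0,[(5,0),(0,0),(7,0)]⟩,⟨21,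
  [(1,7),(1,10),(1,0),(11,16),(5,18),(3,3),(8,15)]⟩⟩]⟩) (.Q [0,0,2,0,0,0,1,0,0,-1,1] (.p true [0,0,
  1] [1] (⟨0,[(40,0)]⟩,⟨0,[(39,0)]⟩) .k 1 (⟨0,[]⟩,⟨0,[]⟩) .k .k) (.R ⟨0,false,false,false,[0,-1,1],
  [1,-1],[],(⟨0,[(30,0)]⟩,⟨19,[(8,0),(18,0),(12,19),(4,7),(0,0),(0,3),(0,1)]⟩),(⟨0,[(44,0)]⟩,⟨0,
  [(45,0)]⟩),⟨2,[(1,0),(27,1),(12,0),(4,2)]⟩,.k,.k,(.r (-1) ⟨3,[(6,3),(1,0),(13,3),(4,0),(18,0),(2,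
  1)]⟩ ⟨0,[(3,0)]⟩),.k,.k,.k,⟨true,0,⟨12,[(4,0),(11,3),(9,0),(0,1)]⟩,⟨0,[(52,0)]⟩⟩,⟨false,0,⟨0,[(35,
  0)]⟩,⟨19,[(0,2),(3,1),(3,2),(6,10),(11,0),(8,5),(12,2)]⟩⟩,⟨false,1,⟨7,[(4,3),(21,1),(26,0),(0,
  0)]⟩,⟨3,[(6,1),(3,0),(1,0),(9,1),(26,0)]⟩⟩,⟨true,0,⟨31,[(2,1),(1,14),(1,23),(10,2),(1,5),(8,0),(8,
  5),(10,1)]⟩,⟨0,[(20,0)]⟩⟩,⟨false,0,⟨0,[]⟩,⟨0,[]⟩⟩,⟨false,0,⟨0,[]⟩,⟨0,[]⟩⟩,[.o ⟨false,0,⟨0,[(52,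
  0)]⟩,⟨31,[(11,1),(1,1),(12,11),(19,5),(2,14),(3,2)]⟩⟩,.e ⟨false,1,⟨1,[(53,0),(0,0)]⟩,⟨40,[(0,2),
  (3,1),(3,0),(9,2),(6,4),(13,2),(6,17)]⟩⟩ ⟨false,1,⟨5,[(6,5),(1,1),(18,1),(25,0),(0,0)]⟩,⟨9,[(0,2),
  (14,6),(0,5),(0,1),(28,0),(2,0)]⟩⟩,.a ⟨true,0,⟨0,[(38,0)]⟩,⟨0,[(35,0)]⟩⟩ ⟨false,1,⟨5,[(8,1),(18,
  1),(25,0),(0,0)]⟩,⟨0,[]⟩⟩ ⟨true,0,⟨8,[(6,4),(1,0),(9,1),(8,0),(0,1)]⟩,⟨9,[(0,2),(14,6),(0,5),(0,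
  1),(28,0),(2,0)]⟩⟩,.o ⟨false,0,⟨0,[(0,0)]⟩,⟨9,[(6,3),(4,0),(1,0),(14,2),(20,2),(3,5)]⟩⟩]⟩) (.R ⟨0,
  false,false,false,[0,-1,1],[1,-1],[1],(⟨0,[(30,0)]⟩,⟨19,[(8,0),(18,0),(12,19),(4,7),(0,0),(0,3),
  (0,1)]⟩),(⟨0,[(44,0)]⟩,⟨0,[(45,0)]⟩),⟨2,[(1,0),(27,1),(12,0),(4,2)]⟩,.k,.k,(.r (-1) ⟨3,[(6,3),(1,
  0),(13,3),(4,0),(18,0),(2,1)]⟩ ⟨0,[(3,0)]⟩),.k,.k,.k,⟨true,0,⟨12,[(4,0),(11,3),(9,0),(0,1)]⟩,⟨0,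
  [(52,0)]⟩⟩,⟨false,0,⟨0,[(35,0)]⟩,⟨3,[(4,0),(10,1),(6,0),(13,0),(12,0)]⟩⟩,⟨false,1,⟨7,[(4,3),(21,
  1),(26,0),(0,0)]⟩,⟨3,[(6,1),(3,0),(1,0),(9,1),(26,0)]⟩⟩,⟨true,0,⟨31,[(2,1),(1,14),(1,23),(10,2),
  (1,5),(8,0),(8,5),(10,1)]⟩,⟨0,[(20,0)]⟩⟩,⟨false,0,⟨0,[]⟩,⟨0,[]⟩⟩,⟨false,0,⟨0,[]⟩,⟨0,[]⟩⟩,[.o
  ⟨false,0,⟨0,[(52,0)]⟩,⟨31,[(11,1),(1,1),(12,11),(19,5),(2,14),(3,2)]⟩⟩,.e ⟨false,1,⟨1,[(53,0),(0,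
  0)]⟩,⟨57,[(4,4),(13,7),(0,0),(5,9),(20,21),(2,3)]⟩⟩ ⟨false,1,⟨5,[(6,5),(1,1),(18,1),(25,0),(0,
  0)]⟩,⟨0,[(7,0),(29,0)]⟩⟩,.e ⟨true,0,⟨0,[]⟩,⟨57,[(4,4),(13,7),(0,0),(5,9),(20,21),(2,3)]⟩⟩ ⟨true,0,
  ⟨8,[(6,4),(1,0),(9,1),(8,0),(0,1)]⟩,⟨0,[(7,0),(29,0)]⟩⟩,.a ⟨true,0,⟨1,[(4,0),(14,0),(2,1)]⟩,⟨0,
  [(0,0)]⟩⟩ ⟨false,1,⟨1,[(53,0),(0,0)]⟩,⟨5,[(4,0),(14,0),(2,1),(16,1)]⟩⟩ ⟨true,0,⟨0,[(6,0)]⟩,⟨1,[(4,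
  0),(14,0),(0,1)]⟩⟩]⟩))) (.Q [0,0,1,0,-1,0,-2,0,0,1,-2] (.p false [0,0,1] [1,0,-1] (⟨0,[(39,0)]⟩,
  ⟨0,[(38,0)]⟩) .k 2 (⟨0,[(38,0)]⟩,⟨0,[(39,0)]⟩) .k (.r 1 ⟨0,[(8,0),(1,0)]⟩ ⟨18,[(0,9),(1,11),(20,
  5),(0,5),(19,5)]⟩)) (.Q [0,0,0,0,0,2,0,0,0,-1,1] (.p true [0,0,1] [1] (⟨0,[(40,0)]⟩,⟨0,[(39,0)]⟩)
  .k 1 (⟨0,[]⟩,⟨0,[]⟩) .k .k) (.R ⟨0,false,false,false,[1,-1,-1],[0,0,1],[1,1,1],(⟨0,[(29,0)]⟩,⟨106,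
  [(0,45),(1,5),(1,1),(20,6),(1,8),(13,60),(0,14),(3,1),(1,22)]⟩),(⟨0,[(41,0)]⟩,⟨0,[(40,0)]⟩),⟨0,
  [(0,0)]⟩,.k,.k,(.r (-2) ⟨21,[(2,17),(22,2),(1,6),(0,1),(7,3),(12,0)]⟩ ⟨0,[(12,0),(3,0)]⟩),(.r
  (-2) ⟨18,[(2,12),(1,7),(20,3),(0,3),(19,3)]⟩ ⟨4,[(1,1),(5,1),(1,1),(0,1),(1,2),(14,0)]⟩),.k,.k,
  ⟨true,0,⟨12,[(2,4),(1,1),(14,11),(5,0),(20,0)]⟩,⟨0,[(12,0)]⟩⟩,⟨false,2,⟨28,[(2,15),(4,25),(5,4),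
  (12,5),(9,0),(11,0),(4,20)]⟩,⟨0,[(1,0)]⟩⟩,⟨false,(-1),⟨0,[(1,0),(5,0)]⟩,⟨7,[(2,3),(23,1),(26,2),
  (0,2)]⟩⟩,⟨true,0,⟨1,[(6,0),(0,1),(4,0),(1,0)]⟩,⟨39,[(1,17),(0,11),(1,8),(12,8),(0,1),(9,2),(8,37),
  (10,3)]⟩⟩,⟨false,0,⟨0,[]⟩,⟨0,[]⟩⟩,⟨false,0,⟨0,[]⟩,⟨0,[]⟩⟩,[.e ⟨false,0,⟨46,[(2,4),(15,1),(0,8),(5,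
  9),(20,12),(2,0)]⟩,⟨1,[(53,0),(0,0)]⟩⟩ ⟨false,1,⟨0,[(6,0),(0,0),(7,0)]⟩,⟨40,[(1,10),(0,0),(1,14),
  (13,5),(9,23),(8,8),(1,2)]⟩⟩,.o ⟨false,1,⟨11,[(7,1),(4,3),(2,3),(6,3),(4,1),(21,2),(4,2)]⟩,⟨0,
  [(37,0)]⟩⟩,.o ⟨false,0,⟨0,[(39,0)]⟩,⟨0,[(15,0)]⟩⟩,.a ⟨true,(-1),⟨0,[(1,0),(36,0)]⟩,⟨5,[(2,0),(3,
  0),(0,1),(7,2),(32,1),(1,1),(2,1),(0,0)]⟩⟩ ⟨false,0,⟨0,[]⟩,⟨33,[(2,4),(1,0),(21,0),(0,11),(26,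
  9)]⟩⟩ ⟨true,1,⟨0,[(6,0),(0,0),(7,0)]⟩,⟨17,[(1,11),(2,4),(13,5),(0,4),(5,1),(11,9),(1,1)]⟩⟩]⟩) (.Q
  [0,0,2,0,0,0,1,0,0,-1,1] (.p true [0,0,1] [1] (⟨0,[(41,0)]⟩,⟨0,[(40,0)]⟩) .k 1 (⟨0,[]⟩,⟨0,[]⟩) .k
  .k) (.R ⟨0,false,false,false,[0,-1,1],[1,-1],[],(⟨0,[(31,0)]⟩,⟨0,[(1,0),(1,1),(0,2),(5,6),(7,6),
  (29,0),(1,2),(4,6)]⟩),(⟨0,[(45,0)]⟩,⟨0,[(46,0)]⟩),⟨2,[(1,0),(28,1),(12,0),(4,2)]⟩,.k,.k,(.r (-1)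
  ⟨66,[(3,9),(3,58),(15,58),(4,13),(0,6),(7,13),(12,32)]⟩ ⟨0,[(4,0)]⟩),.k,.k,.k,⟨true,0,⟨12,[(5,0),
  (11,3),(9,0),(0,1)]⟩,⟨0,[(53,0)]⟩⟩,⟨false,0,⟨0,[(36,0)]⟩,⟨97,[(3,22),(1,8),(2,37),(18,8),(0,3),(8,
  21),(12,29)]⟩⟩,⟨false,1,⟨65,[(3,3),(1,27),(2,1),(3,3),(14,19),(21,0),(5,6)]⟩,⟨3,[(7,1),(3,0),(1,
  0),(9,1),(26,0)]⟩⟩,⟨true,0,⟨6,[(2,0),(2,2),(0,0),(0,2),(10,1),(17,0)]⟩,⟨0,[(21,0)]⟩⟩,⟨false,0,⟨0,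
  []⟩,⟨0,[]⟩⟩,⟨false,0,⟨0,[]⟩,⟨0,[]⟩⟩,[.o ⟨false,0,⟨0,[(53,0)]⟩,⟨31,[(12,1),(1,1),(12,11),(19,5),(2,
  14),(3,2)]⟩⟩,.e ⟨false,1,⟨1,[(54,0),(0,0)]⟩,⟨89,[(0,6),(2,1),(1,2),(13,6),(6,16),(11,6),(8,30)]⟩⟩
  ⟨false,1,⟨73,[(3,11),(3,69),(19,3),(0,23),(0,1),(19,0),(5,22)]⟩,⟨5,[(0,0),(2,1),(4,1),(1,0),(4,0),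
  (1,3),(32,0)]⟩⟩,.a ⟨true,0,⟨0,[(39,0)]⟩,⟨0,[(36,0)]⟩⟩ ⟨false,1,⟨33,[(3,4),(1,0),(21,0),(0,11),(26,
  9)]⟩,⟨0,[]⟩⟩ ⟨true,0,⟨91,[(3,3),(3,43),(11,21),(8,7),(0,23),(19,0),(5,6)]⟩,⟨5,[(0,0),(2,1),(4,1),
  (1,0),(4,0),(1,3),(32,0)]⟩⟩,.o ⟨false,0,⟨0,[(0,0)]⟩,⟨9,[(7,3),(4,0),(1,0),(14,2),(20,2),(3,
  5)]⟩⟩]⟩) (.R ⟨0,false,false,false,[0,-1,1],[1,-1],[1],(⟨0,[(31,0)]⟩,⟨0,[(1,0),(1,1),(0,2),(5,6),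
  (7,6),(29,0),(1,2),(4,6)]⟩),(⟨0,[(45,0)]⟩,⟨0,[(46,0)]⟩),⟨2,[(1,0),(28,1),(12,0),(4,2)]⟩,.k,.k,(.r
  (-1) ⟨66,[(3,9),(3,58),(15,58),(4,13),(0,6),(7,13),(12,32)]⟩ ⟨0,[(4,0)]⟩),.k,.k,.k,⟨true,0,⟨12,
  [(5,0),(11,3),(9,0),(0,1)]⟩,⟨0,[(53,0)]⟩⟩,⟨false,0,⟨0,[(36,0)]⟩,⟨97,[(3,22),(1,8),(2,37),(18,8),
  (0,3),(8,21),(12,29)]⟩⟩,⟨false,1,⟨65,[(3,3),(1,27),(2,1),(3,3),(14,19),(21,0),(5,6)]⟩,⟨3,[(7,1),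
  (3,0),(1,0),(9,1),(26,0)]⟩⟩,⟨true,0,⟨75,[(0,27),(1,15),(0,5),(1,28),(0,5),(11,22),(10,4),(19,1)]⟩,
  ⟨0,[(21,0)]⟩⟩,⟨false,0,⟨0,[]⟩,⟨0,[]⟩⟩,⟨false,0,⟨0,[]⟩,⟨0,[]⟩⟩,[.o ⟨false,0,⟨0,[(53,0)]⟩,⟨31,[(12,
  1),(1,1),(12,11),(19,5),(2,14),(3,2)]⟩⟩,.e ⟨false,1,⟨1,[(54,0),(0,0)]⟩,⟨46,[(3,4),(15,1),(0,8),(5,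
  9),(20,12),(2,0)]⟩⟩ ⟨false,1,⟨73,[(3,11),(3,69),(19,3),(0,23),(0,1),(19,0),(5,22)]⟩,⟨25,[(3,6),(4,
  12),(1,0),(6,17),(0,2),(28,1),(2,7)]⟩⟩,.e ⟨true,0,⟨0,[]⟩,⟨46,[(3,4),(15,1),(0,8),(5,9),(20,12),(2,
  0)]⟩⟩ ⟨true,0,⟨91,[(3,3),(3,43),(11,21),(8,7),(0,23),(19,0),(5,6)]⟩,⟨25,[(3,6),(4,12),(1,0),(6,
  17),(0,2),(28,1),(2,7)]⟩⟩,.a ⟨true,0,⟨1,[(5,0),(14,0),(2,1)]⟩,⟨0,[(0,0)]⟩⟩ ⟨false,1,⟨1,[(54,0),(0,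
  0)]⟩,⟨5,[(5,0),(14,0),(2,1),(16,1)]⟩⟩ ⟨true,0,⟨0,[(7,0)]⟩,⟨1,[(5,0),(14,0),(0,1)]⟩⟩]⟩))) (.K ⟨0,
  [1,-1,-1],(-1),0,(⟨0,[(28,0)]⟩,⟨2,[(0,3),(1,1),(1,7),(3,9),(7,29),(12,2),(16,1),(1,11),(4,23)]⟩),
  .k,(.r (-2) ⟨21,[(1,17),(22,2),(1,6),(0,1),(7,3),(12,0)]⟩ ⟨0,[(11,0),(3,0)]⟩),.k,(.r (-2) ⟨18,[(1,
  12),(1,7),(20,3),(0,3),(19,3)]⟩ ⟨4,[(8,1),(0,1),(1,4),(6,1),(7,0)]⟩),.k,[⟨0,[(0,0)]⟩,⟨3,[(17,1),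
  (0,3),(4,3),(23,0),(5,2)]⟩,⟨0,[(13,0)]⟩,⟨66,[(1,6),(1,21),(13,33),(9,28),(8,8),(8,22),(1,
  1)]⟩]⟩))) (.N [0,-2,1] 0 ⟨0,[(0,0)]⟩ ⟨0,[(1,0),(4,0)]⟩ (.x 0 ⟨8,[(1,3),(2,0),(11,3),(2,6),(6,5),
  (10,2),(6,7),(4,1),(2,0)]⟩ ⟨9,[(3,7),(4,1),(1,1),(14,0),(0,4),(0,14),(18,5),(3,1)]⟩))) (.Q [0,0,0,
  0,0,2,0,0,0,0,-1] (.p false [0,0,1] [] (⟨0,[(37,0)]⟩,⟨0,[(36,0)]⟩) .k 0 (⟨0,[]⟩,⟨0,[]⟩) .k .k)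
  (.R ⟨0,false,false,false,[0,-1,1],[1,-1],[1],(⟨0,[(27,0)]⟩,⟨27,[(0,11),(4,2),(18,2),(12,15),(1,3),
  (3,2),(1,5)]⟩),(⟨0,[(41,0)]⟩,⟨0,[(42,0)]⟩),⟨0,[(0,0)]⟩,.k,.k,(.r 0 ⟨0,[(1,0),(3,0)]⟩ ⟨0,[(23,0),
  (10,0),(0,0)]⟩),.k,.k,.k,⟨true,0,⟨2,[(16,0),(6,0)]⟩,⟨0,[(49,0)]⟩⟩,⟨false,0,⟨0,[(32,0)]⟩,⟨20,[(5,
  3),(6,8),(10,1),(9,3),(1,7),(7,0),(2,5)]⟩⟩,⟨false,1,⟨4,[(5,2),(2,1),(4,0),(9,0),(11,1)]⟩,⟨7,[(1,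
  2),(1,0),(1,0),(13,2),(5,0),(20,0),(4,0)]⟩⟩,⟨true,0,⟨0,[(8,0),(6,0)]⟩,⟨0,[(17,0)]⟩⟩,⟨false,0,⟨0,
  []⟩,⟨0,[]⟩⟩,⟨false,0,⟨0,[]⟩,⟨0,[]⟩⟩,[.o ⟨false,0,⟨0,[(49,0)]⟩,⟨31,[(8,1),(1,1),(12,11),(19,5),(2,
  14),(3,2)]⟩⟩,.e ⟨false,1,⟨1,[(50,0),(0,0)]⟩,⟨0,[(53,0)]⟩⟩ ⟨false,1,⟨5,[(3,5),(1,1),(18,1),(25,0),
  (0,0)]⟩,⟨0,[(4,0),(29,0)]⟩⟩,.e ⟨true,0,⟨0,[]⟩,⟨0,[(53,0)]⟩⟩ ⟨true,0,⟨8,[(3,4),(1,0),(9,1),(8,0),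
  (0,1)]⟩,⟨0,[(4,0),(29,0)]⟩⟩,.a ⟨true,0,⟨1,[(35,2),(0,0)]⟩,⟨1,[(1,1),(0,1),(2,1),(39,0),(5,0)]⟩⟩
  ⟨false,1,⟨1,[(50,0),(0,0)]⟩,⟨1,[(35,0),(0,0)]⟩⟩ ⟨true,0,⟨0,[(3,0)]⟩,⟨11,[(13,2),(2,3),(6,0),(11,
  11),(7,2),(2,5)]⟩⟩]⟩) (.I [0,0,2,1,0,0,0,-1] (.S ⟨1,0,[0,1,-1,-2,0,0,0,1],[0,-1,1],[1,0,-1,-1,0,0,
  0,1],(⟨0,[(28,0)]⟩,⟨43,[(6,2),(18,2),(12,43),(1,7),(3,2),(0,11),(0,5)]⟩),⟨0,[(1,0)]⟩,.k,(.r 0 ⟨0,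
  [(2,0),(3,0)]⟩ ⟨7,[(0,6),(5,1),(17,4),(0,0),(18,3)]⟩),⟨true,0,⟨0,[]⟩,⟨17,[(0,1),(5,0),(9,1),(6,2),
  (20,6),(2,0)]⟩⟩,⟨false,0,⟨0,[(50,0)]⟩,⟨3,[(24,1),(26,0),(0,0)]⟩⟩,⟨false,1,⟨3,[(24,1),(26,0),(0,
  0)]⟩,⟨0,[(50,0)]⟩⟩,⟨true,0,⟨17,[(0,1),(5,0),(9,1),(6,2),(20,6),(2,0)]⟩,⟨0,[]⟩⟩,[.o ⟨false,0,⟨2,
  [(16,1),(1,0),(1,1),(26,1)]⟩,⟨0,[(9,0)]⟩⟩,.e ⟨false,1,⟨23,[(2,5),(1,9),(15,9),(4,1),(21,4),(3,8),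
  (0,13)]⟩,⟨3,[(0,2),(2,0),(9,0),(1,0),(28,0)]⟩⟩ ⟨false,0,⟨0,[(2,0),(3,0)]⟩,⟨43,[(0,26),(5,4),(2,
  11),(3,11),(10,20),(19,18),(1,5)]⟩⟩,.a ⟨true,0,⟨0,[(36,0)]⟩,⟨0,[(33,0)]⟩⟩ ⟨true,0,⟨7,[(2,2),(1,0),
  (1,0),(13,2),(5,0),(20,0),(4,0)]⟩,⟨3,[(0,2),(2,0),(9,0),(1,0),(28,0)]⟩⟩ ⟨false,0,⟨2,[(2,1),(3,1),
  (13,0),(16,0),(12,0)]⟩,⟨4,[(0,1),(4,0),(0,0),(2,2),(3,0),(10,0),(21,0)]⟩⟩,.e ⟨false,1,⟨23,[(2,5),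
  (1,9),(15,9),(4,1),(21,4),(3,8),(0,13)]⟩,⟨0,[(0,0)]⟩⟩ ⟨false,0,⟨0,[(2,0),(3,0)]⟩,⟨24,[(0,16),(4,
  0),(0,5),(2,2),(3,0),(10,15),(21,0)]⟩⟩]⟩) (.Q [0,0,1,0,-1,0,-2,0,0,1,-2] (.p false [0,0,1] [1,0,
  -1] (⟨0,[(39,0)]⟩,⟨0,[(38,0)]⟩) .k 2 (⟨0,[(38,0)]⟩,⟨0,[(39,0)]⟩) .k (.r 1 ⟨1,[(2,0),(7,1),(6,0)]⟩
  ⟨4,[(3,1),(2,7),(17,1),(11,1),(7,3)]⟩)) (.R ⟨0,false,false,false,[1,-1,-1],[0,0,1],[1,1,1],(⟨0,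
  [(28,0)]⟩,⟨43,[(7,2),(18,2),(13,43),(0,7),(3,2),(0,11),(0,5)]⟩),(⟨0,[(40,0)]⟩,⟨0,[(39,0)]⟩),⟨2,
  [(2,1),(37,0),(0,0),(4,2)]⟩,.k,.k,(.r (-2) ⟨11,[(5,3),(1,16),(13,3),(4,0),(18,8),(2,1),(3,3)]⟩ ⟨0,
  [(11,0),(3,0)]⟩),(.r (-2) ⟨8,[(4,0),(2,14),(2,1),(3,1),(22,0),(7,7),(1,0)]⟩ ⟨4,[(0,1),(2,1),(2,1),
  (4,2),(3,1),(10,0)]⟩),.k,.k,⟨true,0,⟨0,[(36,0),(0,0)]⟩,⟨0,[(11,0)]⟩⟩,⟨false,2,⟨45,[(7,7),(6,63),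
  (10,3),(9,7),(1,19),(7,1),(1,8),(4,24)]⟩,⟨0,[(0,0)]⟩⟩,⟨false,(-1),⟨0,[(0,0),(5,0)]⟩,⟨0,[(7,0),(44,
  0)]⟩⟩,⟨true,0,⟨2,[(1,0),(1,0),(2,2),(18,0)]⟩,⟨10,[(0,1),(4,0),(1,6),(2,1),(5,6),(10,0),(8,12)]⟩⟩,
  ⟨false,0,⟨0,[]⟩,⟨0,[]⟩⟩,⟨false,0,⟨0,[]⟩,⟨0,[]⟩⟩,[.e ⟨false,0,⟨0,[(55,0)]⟩,⟨1,[(52,0),(0,0)]⟩⟩
  ⟨false,1,⟨37,[(1,19),(0,1),(3,17),(7,39),(13,1),(12,5),(5,8),(1,1),(2,5),(0,0)]⟩,⟨46,[(0,12),(6,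
  26),(2,1),(7,14),(6,3),(1,23),(8,17),(10,4)]⟩⟩,.o ⟨false,1,⟨9,[(1,1),(4,2),(7,0),(6,2),(4,1),(21,
  2),(4,3)]⟩,⟨0,[(36,0)]⟩⟩,.o ⟨false,0,⟨0,[(38,0)]⟩,⟨0,[(14,0)]⟩⟩,.a ⟨true,(-1),⟨0,[(0,0),(36,0)]⟩,
  ⟨19,[(2,1),(2,1),(8,21),(13,1),(12,5),(5,8),(1,1),(2,5),(0,0)]⟩⟩ ⟨false,0,⟨0,[]⟩,⟨5,[(7,1),(18,1),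
  (25,0),(0,0)]⟩⟩ ⟨true,1,⟨37,[(1,19),(0,1),(3,17),(7,39),(13,1),(12,5),(5,8),(1,1),(2,5),(0,0)]⟩,
  ⟨32,[(0,15),(6,14),(9,4),(0,24),(8,7),(8,17),(10,1)]⟩⟩]⟩) (.K ⟨0,[1,-1,-1],(-1),0,(⟨0,[(28,0)]⟩,
  ⟨43,[(7,2),(18,2),(13,43),(0,7),(3,2),(0,11),(0,5)]⟩),.k,(.r (-2) ⟨11,[(5,3),(1,16),(13,3),(4,0),
  (18,8),(2,1),(3,3)]⟩ ⟨0,[(11,0),(3,0)]⟩),.k,(.r (-2) ⟨39,[(0,5),(3,4),(2,67),(2,6),(14,1),(19,35),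
  (1,2)]⟩ ⟨4,[(3,1),(7,4),(3,1),(2,1),(7,0)]⟩),.k,[⟨0,[(0,0)]⟩,⟨3,[(17,1),(0,3),(4,3),(23,0),(5,
  2)]⟩,⟨0,[(13,0)]⟩,⟨37,[(7,15),(9,19),(7,8),(1,7),(8,21),(8,8),(1,4),(7,2)]⟩]⟩)))))) (.Q [0,0,0,0,
  0,2,0,0,0,0,-1] (.p false [0,0,1] [] (⟨0,[(35,0)]⟩,⟨0,[(34,0)]⟩) .k 0 (⟨0,[]⟩,⟨0,[]⟩) .k .k) (.R
  ⟨0,false,false,false,[0,-1,1],[1,-1],[],(⟨0,[(25,0)]⟩,⟨27,[(0,11),(2,2),(18,2),(12,15),(1,3),(3,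
  2),(1,5)]⟩),(⟨0,[(39,0)]⟩,⟨0,[(40,0)]⟩),⟨0,[(0,0)]⟩,.k,.k,(.r (-1) ⟨2,[(7,0),(5,0),(3,1),(5,0),
  (20,0),(2,1),(0,2)]⟩ ⟨0,[(1,0),(4,0),(5,0)]⟩),.k,.k,.k,⟨true,0,⟨2,[(14,0),(6,0)]⟩,⟨0,[(47,0)]⟩⟩,
  ⟨false,0,⟨0,[(30,0)]⟩,⟨36,[(1,7),(1,11),(6,16),(10,1),(9,11),(9,0),(2,5)]⟩⟩,⟨false,1,⟨4,[(3,2),(2,
  1),(4,0),(9,0),(11,1)]⟩,⟨3,[(5,0),(1,2),(5,1),(30,0),(3,1)]⟩⟩,⟨true,0,⟨0,[(6,0),(6,0)]⟩,⟨0,[(15,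
  0)]⟩⟩,⟨false,0,⟨0,[]⟩,⟨0,[]⟩⟩,⟨false,0,⟨0,[]⟩,⟨0,[]⟩⟩,[.o ⟨false,0,⟨0,[(47,0)]⟩,⟨31,[(6,1),(1,1),
  (12,11),(19,5),(2,14),(3,2)]⟩⟩,.e ⟨false,1,⟨1,[(48,0),(0,0)]⟩,⟨10,[(1,0),(1,0),(9,0),(6,1),(11,0),
  (8,3)]⟩⟩ ⟨false,1,⟨1,[(30,1),(16,1),(0,0),(0,0)]⟩,⟨5,[(1,4),(2,0),(5,1),(1,0),(19,0),(8,0),(3,
  0)]⟩⟩,.a ⟨true,0,⟨0,[(33,0)]⟩,⟨0,[(30,0)]⟩⟩ ⟨false,1,⟨5,[(3,1),(18,1),(25,0),(0,0)]⟩,⟨0,[]⟩⟩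
  ⟨true,0,⟨0,[(30,0),(16,0)]⟩,⟨5,[(1,4),(2,0),(5,1),(1,0),(19,0),(8,0),(3,0)]⟩⟩,.o ⟨false,0,⟨0,[(1,
  0),(45,0)]⟩,⟨0,[(19,0),(28,0)]⟩⟩]⟩) (.I [0,0,-2,0,0,-2,-1,0,2] (.Q [0,-1,0,-2,0,0,1,1,0,0,1] (.p
  true [0,0,1] [] (⟨0,[(37,0)]⟩,⟨0,[(36,0)]⟩) .k 0 (⟨0,[]⟩,⟨0,[]⟩) .k .k) (.R ⟨1,true,false,true,[0,
  0,1],[0,1],[1,1,0,0,0,0,0,1],(⟨0,[(38,0)]⟩,⟨0,[(37,0)]⟩),(⟨0,[(42,0)]⟩,⟨0,[(41,0)]⟩),⟨0,[(27,0)]⟩,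
  .k,.k,.k,.k,(.r (-1) ⟨3,[(0,3),(24,1),(17,1),(2,0),(3,2)]⟩ ⟨0,[(3,0),(4,0),(5,0)]⟩),.k,⟨true,0,⟨1,
  [(0,0),(6,0),(13,0),(28,0)]⟩,⟨1,[(3,1),(4,1),(5,3),(31,0),(4,0)]⟩⟩,⟨false,1,⟨0,[(21,0),(28,0)]⟩,
  ⟨0,[(35,0)]⟩⟩,⟨false,0,⟨0,[]⟩,⟨5,[(5,1),(18,1),(25,0),(0,0)]⟩⟩,⟨true,0,⟨0,[(20,0)]⟩,⟨0,[(19,0)]⟩⟩,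
  ⟨true,0,⟨0,[(48,0)]⟩,⟨0,[(49,0)]⟩⟩,⟨false,1,⟨2,[(8,1),(14,0),(10,0),(8,0)]⟩,⟨0,[(0,0)]⟩⟩,[]⟩) (.Q
  [0,0,1,0,-1,0,-2,0,0,1,-2] (.p false [0,0,1] [1,0,-1] (⟨0,[(38,0)]⟩,⟨0,[(37,0)]⟩) .k 2 (⟨0,[(37,
  0)]⟩,⟨0,[(38,0)]⟩) .k (.r 1 ⟨0,[(7,0),(1,0)]⟩ ⟨4,[(0,1),(4,7),(17,1),(11,1),(7,3)]⟩)) (.R ⟨0,
  false,false,false,[1,-1,-1],[0,-1,1],[1,1,1],(⟨0,[(27,0)]⟩,⟨43,[(6,2),(18,2),(13,43),(0,7),(3,2),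
  (0,11),(0,5)]⟩),(⟨0,[(28,0)]⟩,⟨43,[(6,2),(18,2),(12,43),(1,7),(3,2),(0,11),(0,5)]⟩),⟨2,[(3,1),(35,
  0),(0,0),(4,2)]⟩,.k,.k,(.r (-2) ⟨39,[(6,51),(9,7),(3,11),(5,5),(17,21),(2,6),(3,28)]⟩ ⟨0,[(10,0),
  (3,0)]⟩),.k,.k,.k,⟨false,0,⟨1,[(1,0),(33,0),(0,1)]⟩,⟨0,[(10,0),(39,0),(0,0)]⟩⟩,⟨true,1,⟨0,[(13,0),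
  (22,0)]⟩,⟨0,[(0,0)]⟩⟩,⟨false,(-1),⟨0,[(10,0),(6,0)]⟩,⟨0,[(6,0),(44,0)]⟩⟩,⟨true,0,⟨1,[(5,0),(2,0),
  (1,0),(2,0),(6,0)]⟩,⟨8,[(0,0),(5,2),(2,4),(5,6),(17,0),(1,9)]⟩⟩,⟨false,0,⟨0,[]⟩,⟨0,[]⟩⟩,⟨false,0,
  ⟨0,[]⟩,⟨0,[]⟩⟩,[.e ⟨false,0,⟨10,[(4,0),(1,0),(9,0),(6,1),(11,0),(8,3)]⟩,⟨1,[(51,0),(0,0)]⟩⟩
  ⟨false,1,⟨3,[(8,0),(1,2),(2,7),(2,1),(29,0)]⟩,⟨53,[(0,5),(5,15),(2,22),(7,23),(8,28),(8,14),(4,0),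
  (1,0),(3,8)]⟩⟩,.o ⟨false,1,⟨1,[(20,1),(26,0),(4,0)]⟩,⟨0,[(21,0)]⟩⟩,.o ⟨false,0,⟨0,[(37,0)]⟩,⟨0,
  [(13,0)]⟩⟩,.a ⟨true,(-1),⟨0,[(0,0),(35,0)]⟩,⟨2,[(13,2),(1,0),(30,0),(1,0),(2,0),(0,0)]⟩⟩ ⟨false,0,
  ⟨0,[]⟩,⟨5,[(6,1),(18,1),(25,0),(0,0)]⟩⟩ ⟨true,1,⟨3,[(8,0),(1,2),(2,7),(2,1),(29,0)]⟩,⟨46,[(0,25),
  (5,6),(2,3),(7,29),(6,7),(1,0),(8,35),(10,9)]⟩⟩]⟩) (.K ⟨0,[1,-1,-1],(-1),0,(⟨0,[(27,0)]⟩,⟨43,[(6,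
  2),(18,2),(13,43),(0,7),(3,2),(0,11),(0,5)]⟩),.k,(.r (-2) ⟨39,[(6,51),(9,7),(3,11),(5,5),(17,21),
  (2,6),(3,28)]⟩ ⟨0,[(10,0),(3,0)]⟩),.k,(.r (-2) ⟨39,[(0,5),(0,4),(4,67),(2,6),(14,1),(19,35),(1,
  2)]⟩ ⟨4,[(7,1),(0,1),(1,4),(6,1),(7,0)]⟩),.k,[⟨0,[(0,0)]⟩,⟨3,[(16,1),(0,3),(4,3),(23,0),(5,2)]⟩,
  ⟨0,[(12,0)]⟩,⟨37,[(6,15),(9,19),(7,8),(1,7),(8,21),(8,8),(1,4),(7,2)]⟩]⟩))) (.Q [0,0,1,0,-1,0,-2,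
  0,0,1,-2] (.p false [0,0,1] [1,0,-1] (⟨0,[(37,0)]⟩,⟨0,[(36,0)]⟩) .k 2 (⟨0,[(36,0)]⟩,⟨0,[(37,0)]⟩)
  .k (.r 1 ⟨0,[(6,0),(1,0)]⟩ ⟨6,[(4,9),(2,1),(11,1),(2,1),(11,3),(7,5)]⟩)) (.R ⟨0,false,false,false,
  [1,-1,-1],[0,-1,1],[1,1,1],(⟨0,[(26,0)]⟩,⟨43,[(5,2),(18,2),(13,43),(0,7),(3,2),(0,11),(0,5)]⟩),
  (⟨0,[(27,0)]⟩,⟨43,[(5,2),(18,2),(12,43),(1,7),(3,2),(0,11),(0,5)]⟩),⟨2,[(2,1),(35,0),(0,0),(4,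
  2)]⟩,.k,.k,(.r (-2) ⟨39,[(5,51),(9,7),(3,11),(5,5),(17,21),(2,6),(3,28)]⟩ ⟨0,[(9,0),(3,0)]⟩),.k,
  .k,.k,⟨false,0,⟨0,[(20,0),(14,0)]⟩,⟨0,[(9,0),(39,0),(0,0)]⟩⟩,⟨true,1,⟨0,[(12,0),(22,0)]⟩,⟨0,[(0,
  0)]⟩⟩,⟨false,(-1),⟨0,[(9,0),(6,0)]⟩,⟨0,[(5,0),(44,0)]⟩⟩,⟨true,0,⟨1,[(4,0),(2,0),(1,0),(2,0),(6,
  0)]⟩,⟨0,[(8,0),(6,0),(18,0)]⟩⟩,⟨false,0,⟨0,[]⟩,⟨0,[]⟩⟩,⟨false,0,⟨0,[]⟩,⟨0,[]⟩⟩,[.e ⟨false,0,⟨10,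
  [(3,0),(1,0),(9,0),(6,1),(11,0),(8,3)]⟩,⟨1,[(50,0),(0,0)]⟩⟩ ⟨false,1,⟨3,[(7,0),(1,2),(2,7),(2,1),
  (29,0)]⟩,⟨53,[(0,5),(4,15),(2,22),(7,23),(8,28),(8,14),(4,0),(1,0),(3,8)]⟩⟩,.o ⟨false,1,⟨1,[(19,
  1),(26,0),(4,0)]⟩,⟨0,[(20,0)]⟩⟩,.o ⟨false,0,⟨0,[(36,0)]⟩,⟨0,[(12,0)]⟩⟩,.a ⟨true,(-1),⟨0,[(0,0),
  (34,0)]⟩,⟨2,[(12,2),(1,0),(30,0),(1,0),(2,0),(0,0)]⟩⟩ ⟨false,0,⟨0,[]⟩,⟨5,[(5,1),(18,1),(25,0),(0,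
  0)]⟩⟩ ⟨true,1,⟨3,[(7,0),(1,2),(2,7),(2,1),(29,0)]⟩,⟨46,[(0,25),(4,6),(2,3),(7,29),(6,7),(1,0),(8,
  35),(10,9)]⟩⟩]⟩) (.K ⟨0,[1,-1,-1],(-1),0,(⟨0,[(26,0)]⟩,⟨43,[(5,2),(18,2),(13,43),(0,7),(3,2),(0,
  11),(0,5)]⟩),.k,(.r (-2) ⟨39,[(5,51),(9,7),(3,11),(5,5),(17,21),(2,6),(3,28)]⟩ ⟨0,[(9,0),(3,0)]⟩),
  .k,(.r (-2) ⟨13,[(0,1),(4,22),(2,3),(11,0),(14,0),(7,12),(1,0)]⟩ ⟨4,[(6,1),(0,1),(1,4),(6,1),(7,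
  0)]⟩),.k,[⟨0,[(0,0)]⟩,⟨3,[(15,1),(0,3),(4,3),(23,0),(5,2)]⟩,⟨0,[(11,0)]⟩,⟨37,[(5,15),(9,19),(7,8),
  (1,7),(8,21),(8,8),(1,4),(7,2)]⟩]⟩))))) (.Q [0,-1,0,-2,0,0,1,1,0,0,1] (.p true [0,0,1] [] (⟨0,
  [(34,0)]⟩,⟨0,[(33,0)]⟩) .k 0 (⟨0,[]⟩,⟨0,[]⟩) .k .k) (.R ⟨1,false,false,true,[0,0,1],[0,1],[],(⟨0,
  [(35,0)]⟩,⟨0,[(34,0)]⟩),(⟨0,[(39,0)]⟩,⟨0,[(38,0)]⟩),⟨0,[(24,0)]⟩,.k,.k,.k,.k,(.r 0 ⟨0,[(0,0),(0,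
  0),(1,0),(5,0)]⟩ ⟨0,[(20,0),(10,0),(0,0)]⟩),.k,⟨true,1,⟨35,[(0,11),(0,5),(0,7),(18,1),(21,2),(3,
  15),(0,6)]⟩,⟨0,[(13,0)]⟩⟩,⟨false,1,⟨24,[(1,5),(1,3),(1,0),(0,2),(15,5),(20,5),(3,21)]⟩,⟨0,[(32,
  0)]⟩⟩,⟨true,1,⟨6,[(2,4),(2,0),(11,0),(2,0),(11,1),(7,2)]⟩,⟨0,[(4,0)]⟩⟩,⟨true,0,⟨0,[(17,0)]⟩,⟨0,
  [(16,0)]⟩⟩,⟨true,1,⟨15,[(2,4),(2,9),(3,1),(7,0),(14,8),(7,6),(1,0)]⟩,⟨16,[(0,2),(0,0),(2,14),(7,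
  4),(20,0),(9,2)]⟩⟩,⟨false,1,⟨2,[(5,1),(14,0),(10,0),(8,0)]⟩,⟨0,[(0,0)]⟩⟩,[.e ⟨false,1,⟨3,[(2,0),
  (18,0),(18,0),(6,1)]⟩,⟨0,[]⟩⟩ ⟨false,0,⟨12,[(1,2),(1,3),(1,0),(16,2),(20,2),(0,9)]⟩,⟨0,[(2,0),(12,
  0)]⟩⟩,.o ⟨false,1,⟨31,[(5,1),(1,1),(12,11),(19,5),(2,14),(3,2)]⟩,⟨0,[(46,0)]⟩⟩,.o ⟨false,1,⟨20,
  [(2,3),(6,8),(10,1),(9,3),(1,7),(7,0),(2,5)]⟩,⟨0,[(18,0)]⟩⟩,.a ⟨true,0,⟨0,[(32,0)]⟩,⟨0,[(29,0)]⟩⟩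
  ⟨false,1,⟨1,[(47,0),(0,0)]⟩,⟨1,[(32,0),(0,0)]⟩⟩ ⟨true,0,⟨12,[(1,2),(1,3),(1,0),(16,2),(20,2),(0,
  9)]⟩,⟨13,[(0,1),(1,1),(9,3),(19,12),(0,0),(9,1)]⟩⟩]⟩) (.Q [0,0,0,0,0,2,0,0,0,-1,1] (.p true [0,0,
  1] [1] (⟨0,[(35,0)]⟩,⟨0,[(34,0)]⟩) .k 1 (⟨0,[]⟩,⟨0,[]⟩) .k .k) (.R ⟨0,false,false,false,[1,-1,-1],
  [0,0,1],[1,1,1],(⟨0,[(24,0)]⟩,⟨27,[(0,11),(2,2),(18,2),(13,15),(0,3),(3,2),(1,5)]⟩),(⟨0,[(36,0)]⟩,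
  ⟨0,[(35,0)]⟩),⟨0,[(0,0)]⟩,.k,.k,(.r (-2) ⟨31,[(2,7),(0,40),(13,15),(4,0),(18,20),(2,3),(3,17)]⟩
  ⟨0,[(7,0),(3,0)]⟩),(.r (-2) ⟨21,[(1,4),(1,37),(2,0),(3,5),(10,1),(19,17),(1,2)]⟩ ⟨4,[(4,1),(0,1),
  (1,4),(6,1),(7,0)]⟩),.k,.k,⟨true,0,⟨0,[(32,0),(0,0)]⟩,⟨0,[(7,0)]⟩⟩,⟨false,2,⟨45,[(3,7),(6,63),(10,
  3),(9,7),(1,19),(7,1),(1,8),(4,24)]⟩,⟨0,[(2,0),(4,0),(6,0)]⟩⟩,⟨false,(-1),⟨0,[(7,0),(6,0)]⟩,⟨0,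
  [(3,0),(44,0)]⟩⟩,⟨true,0,⟨0,[(4,0),(2,0),(2,0),(22,0)]⟩,⟨42,[(2,20),(0,20),(9,7),(0,8),(6,2),(10,
  43),(10,6),(7,5)]⟩⟩,⟨false,0,⟨0,[]⟩,⟨0,[]⟩⟩,⟨false,0,⟨0,[]⟩,⟨0,[]⟩⟩,[.e ⟨false,0,⟨0,[(51,0)]⟩,⟨1,
  [(48,0),(0,0)]⟩⟩ ⟨false,1,⟨3,[(4,1),(2,1),(2,7),(1,1),(30,0),(5,0)]⟩,⟨5,[(2,2),(0,2),(10,3),(6,0),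
  (1,2)]⟩⟩,.o ⟨false,1,⟨1,[(16,1),(27,0),(4,0)]⟩,⟨0,[(32,0)]⟩⟩,.o ⟨false,0,⟨0,[(34,0)]⟩,⟨0,[(10,
  0)]⟩⟩,.a ⟨true,(-1),⟨5,[(2,1),(4,1),(5,1),(0,5),(19,1),(8,0),(5,2)]⟩,⟨2,[(10,2),(1,0),(30,0),(1,
  0),(2,0),(0,0)]⟩⟩ ⟨false,0,⟨0,[]⟩,⟨5,[(3,1),(18,1),(25,0),(0,0)]⟩⟩ ⟨true,1,⟨3,[(4,1),(2,1),(2,7),
  (1,1),(30,0),(5,0)]⟩,⟨8,[(2,5),(0,2),(9,0),(0,10),(8,1),(10,1)]⟩⟩]⟩) (.Q [0,0,-2,0,0,0,-1,0,0,1,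
  -1] (.p false [0,0,1] [1] (⟨0,[(36,0)]⟩,⟨0,[(35,0)]⟩) .k 1 (⟨0,[]⟩,⟨0,[]⟩) .k .k) (.R ⟨0,false,
  false,false,[0,-1,1],[1,-1],[1],(⟨0,[(26,0)]⟩,⟨43,[(4,2),(18,2),(12,43),(1,7),(3,2),(0,11),(0,
  5)]⟩),(⟨0,[(40,0)]⟩,⟨0,[(41,0)]⟩),⟨2,[(1,0),(23,1),(12,0),(4,2)]⟩,.k,.k,(.x 0 ⟨3,[(25,3),(8,4),(0,
  0),(7,3),(7,1)]⟩ ⟨8,[(0,4),(0,2),(22,1),(1,11),(18,4),(3,3)]⟩),.k,.k,.k,⟨true,0,⟨2,[(15,0),(6,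
  0)]⟩,⟨0,[(48,0)]⟩⟩,⟨false,0,⟨0,[(31,0)]⟩,⟨20,[(4,3),(6,8),(10,1),(9,3),(1,7),(7,0),(2,5)]⟩⟩,
  ⟨false,1,⟨4,[(4,2),(2,1),(4,0),(9,0),(11,1)]⟩,⟨7,[(0,3),(5,0),(1,2),(5,1),(3,3),(26,2)]⟩⟩,⟨true,0,
  ⟨133,[(2,30),(0,48),(0,48),(2,4),(7,23),(6,0),(15,22),(1,22),(3,30)]⟩,⟨0,[(16,0)]⟩⟩,⟨false,0,⟨0,
  []⟩,⟨0,[]⟩⟩,⟨false,0,⟨0,[]⟩,⟨0,[]⟩⟩,[.o ⟨false,0,⟨0,[(48,0)]⟩,⟨31,[(7,1),(1,1),(12,11),(19,5),(2,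
  14),(3,2)]⟩⟩,.e ⟨false,1,⟨1,[(49,0),(0,0)]⟩,⟨0,[(52,0)]⟩⟩ ⟨false,1,⟨5,[(0,2),(2,2),(0,0),(13,2),
  (4,0),(25,1),(0,1)]⟩,⟨0,[(11,0),(3,0)]⟩⟩,.e ⟨true,0,⟨0,[]⟩,⟨0,[(52,0)]⟩⟩ ⟨true,0,⟨5,[(0,1),(2,2),
  (10,0),(3,1),(4,0)]⟩,⟨0,[(11,0),(3,0)]⟩⟩,.a ⟨true,0,⟨1,[(34,2),(0,0)]⟩,⟨0,[(0,0)]⟩⟩ ⟨false,1,⟨1,
  [(49,0),(0,0)]⟩,⟨1,[(34,0),(0,0)]⟩⟩ ⟨true,0,⟨0,[(0,0),(47,0)]⟩,⟨11,[(12,2),(2,3),(6,0),(11,11),(7,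
  2),(2,5)]⟩⟩]⟩) (.I [0,0,0,0,1,0,0,0,-1] (.I [1,0,0,0,0,3,0,0,1] (.I [0,0,1,-1,0,-1,-1,-1] (.I [-1,
  2,0,-2,-1] (.I [0,0,2,0,0,-2,1] (.I [0,0,-1,0,1,-2,1] (.C [(0,1),(2,1),(7,1),(37,1),(0,0),(5,0)])
  (.C [(0,0),(6,0),(9,0)])) (.C [(0,0),(4,0),(0,0)])) (.C [(0,0),(16,1),(31,0)])) (.C [(0,0),(2,0),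
  (2,0),(22,0)])) (.C [(0,0),(29,0),(0,0),(13,0)])) (.C [(0,0),(27,0),(2,0)])))))) (.Q [0,0,0,0,0,2,
  0,0,0,-1,1] (.p true [0,0,1] [1] (⟨0,[(33,0)]⟩,⟨0,[(32,0)]⟩) .k 1 (⟨0,[]⟩,⟨0,[]⟩) .k .k) (.Q [0,0,
  1,0,-1,0,-2,0,0,1,-2] (.p false [0,0,1] [1,0,-1] (⟨0,[(34,0)]⟩,⟨0,[(33,0)]⟩) .k 2 (⟨0,[(33,0)]⟩,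
  ⟨0,[(34,0)]⟩) .k (.r 1 ⟨0,[(3,0),(1,0)]⟩ ⟨0,[(30,1),(0,1),(14,0),(0,0)]⟩)) (.R ⟨0,false,false,
  false,[1,-1,-1],[0,0,1],[1,1,1],(⟨0,[(23,0)]⟩,⟨4,[(1,1),(23,0),(0,0),(8,2),(0,0),(5,0)]⟩),(⟨0,
  [(35,0)]⟩,⟨0,[(34,0)]⟩),⟨0,[(1,0)]⟩,.k,.k,(.r (-2) ⟨1,[(9,1),(2,1),(12,0),(0,0),(4,1),(15,0),(0,
  1)]⟩ ⟨0,[(6,0),(3,0)]⟩),(.r (-2) ⟨1,[(5,0),(3,1),(2,1),(18,2),(0,1),(14,0),(0,1)]⟩ ⟨4,[(3,1),(0,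
  1),(1,4),(6,1),(7,0)]⟩),.k,.k,⟨true,0,⟨0,[(31,0),(0,0)]⟩,⟨0,[(6,0)]⟩⟩,⟨false,2,⟨0,[(9,0),(22,0),
  (14,0)]⟩,⟨0,[(0,0)]⟩⟩,⟨false,(-1),⟨0,[(6,0),(6,0)]⟩,⟨1,[(5,0),(3,1),(2,1),(18,0),(15,0),(0,1)]⟩⟩,
  ⟨true,0,⟨0,[(3,0),(2,0),(2,0),(22,0)]⟩,⟨1,[(5,0),(6,1),(18,2),(16,0)]⟩⟩,⟨false,0,⟨0,[]⟩,⟨0,[]⟩⟩,
  ⟨false,0,⟨0,[]⟩,⟨0,[]⟩⟩,[.e ⟨false,0,⟨0,[(50,0)]⟩,⟨1,[(47,0),(0,0)]⟩⟩ ⟨false,1,⟨2,[(2,0),(3,1),(2,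
  5),(1,0),(30,0)]⟩,⟨1,[(0,0),(11,0),(7,0),(10,1),(16,0)]⟩⟩,.o ⟨false,1,⟨1,[(15,1),(27,0),(4,0)]⟩,
  ⟨0,[(31,0)]⟩⟩,.o ⟨false,0,⟨0,[(33,0)]⟩,⟨0,[(9,0)]⟩⟩,.a ⟨true,(-1),⟨0,[(0,0),(31,0)]⟩,⟨2,[(9,2),(1,
  0),(30,0),(1,0),(2,0),(0,0)]⟩⟩ ⟨false,0,⟨0,[]⟩,⟨1,[(25,0),(0,0),(21,0)]⟩⟩ ⟨true,1,⟨2,[(2,0),(3,1),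
  (2,5),(1,0),(30,0)]⟩,⟨0,[(0,0),(30,0),(0,0)]⟩⟩]⟩) (.K ⟨0,[1,-1,-1],(-1),0,(⟨0,[(23,0)]⟩,⟨4,[(1,1),
  (23,0),(0,0),(8,2),(0,0),(5,0)]⟩),.k,(.r (-2) ⟨3,[(0,1),(11,1),(12,1),(0,1),(4,3),(14,3),(0,2),(0,
  2)]⟩ ⟨0,[(6,0),(3,0)]⟩),.k,(.r (-2) ⟨1,[(0,1),(4,0),(6,1),(12,0),(0,0),(4,2),(16,1)]⟩ ⟨4,[(3,1),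
  (0,1),(1,4),(6,1),(7,0)]⟩),.k,[⟨0,[(0,0)]⟩,⟨3,[(12,1),(0,3),(4,3),(23,0),(5,2)]⟩,⟨0,[(8,0)]⟩,⟨1,
  [(5,0),(6,1),(12,0),(0,0),(4,0)]⟩]⟩)) (.I [0,0,2,2,0,0,0,-1] (.Q [0,0,2,0,0,0,1,0,0,-1,1] (.p
  true [0,0,1] [1] (⟨0,[(35,0)]⟩,⟨0,[(34,0)]⟩) .k 1 (⟨0,[]⟩,⟨0,[]⟩) .k .k) (.R ⟨0,false,false,false,
  [0,-1,1],[1,-1],[],(⟨0,[(25,0)]⟩,⟨22,[(26,2),(0,2),(7,22),(1,4),(4,5),(0,2)]⟩),(⟨0,[(39,0)]⟩,⟨0,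
  [(40,0)]⟩),⟨2,[(2,0),(21,1),(12,0),(4,2)]⟩,.k,.k,(.r (-1) ⟨2,[(7,0),(5,0),(3,1),(5,0),(20,0),(2,
  1),(0,2)]⟩ ⟨0,[(1,0)]⟩),.k,.k,.k,⟨true,0,⟨4,[(1,0),(9,0),(10,0)]⟩,⟨0,[(47,0)]⟩⟩,⟨false,0,⟨0,[(30,
  0)]⟩,⟨2,[(0,0),(9,1),(15,0),(0,0)]⟩⟩,⟨false,1,⟨3,[(1,1),(30,1),(0,1),(14,0),(0,2)]⟩,⟨3,[(5,0),(1,
  2),(5,1),(30,0),(3,1)]⟩⟩,⟨true,0,⟨0,[(6,0),(6,0)]⟩,⟨0,[(15,0)]⟩⟩,⟨false,0,⟨0,[]⟩,⟨0,[]⟩⟩,⟨false,0,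
  ⟨0,[]⟩,⟨0,[]⟩⟩,[.o ⟨false,0,⟨0,[(47,0)]⟩,⟨31,[(6,1),(1,1),(12,11),(19,5),(2,14),(3,2)]⟩⟩,.e
  ⟨false,1,⟨1,[(48,0),(0,0)]⟩,⟨27,[(0,2),(0,0),(11,2),(6,0),(1,2),(9,2),(8,11)]⟩⟩ ⟨false,1,⟨1,[(30,
  1),(16,1),(0,0),(0,0)]⟩,⟨9,[(0,2),(9,6),(0,5),(0,1),(28,0),(2,0)]⟩⟩,.a ⟨true,0,⟨0,[(33,0)]⟩,⟨0,
  [(30,0)]⟩⟩ ⟨false,1,⟨1,[(26,0),(0,0),(21,0)]⟩,⟨0,[]⟩⟩ ⟨true,0,⟨0,[(30,0),(16,0)]⟩,⟨9,[(0,2),(9,6),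
  (0,5),(0,1),(28,0),(2,0)]⟩⟩,.o ⟨false,0,⟨0,[(0,0)]⟩,⟨0,[(19,0),(28,0)]⟩⟩]⟩) (.R ⟨0,false,false,
  false,[0,-1,1],[1,-1],[1],(⟨0,[(25,0)]⟩,⟨22,[(26,2),(0,2),(7,22),(1,4),(4,5),(0,2)]⟩),(⟨0,[(39,
  0)]⟩,⟨0,[(40,0)]⟩),⟨2,[(2,0),(21,1),(12,0),(4,2)]⟩,.k,.k,(.r (-1) ⟨2,[(0,0),(16,2),(5,0),(20,0),
  (2,2),(0,1)]⟩ ⟨0,[(1,0)]⟩),.k,.k,.k,⟨true,0,⟨4,[(1,0),(9,0),(10,0)]⟩,⟨0,[(47,0)]⟩⟩,⟨false,0,⟨0,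
  [(30,0)]⟩,⟨3,[(10,1),(15,0),(0,0),(5,1),(10,0)]⟩⟩,⟨false,1,⟨3,[(1,1),(30,1),(0,1),(14,0),(0,2)]⟩,
  ⟨7,[(0,3),(4,0),(1,2),(5,1),(3,3),(26,2)]⟩⟩,⟨true,0,⟨0,[(6,0),(6,0)]⟩,⟨0,[(15,0)]⟩⟩,⟨false,0,⟨0,
  []⟩,⟨0,[]⟩⟩,⟨false,0,⟨0,[]⟩,⟨0,[]⟩⟩,[.o ⟨false,0,⟨0,[(47,0)]⟩,⟨31,[(6,1),(1,1),(12,11),(19,5),(2,
  14),(3,2)]⟩⟩,.e ⟨false,1,⟨1,[(48,0),(0,0)]⟩,⟨0,[(51,0)]⟩⟩ ⟨false,1,⟨2,[(0,0),(12,0),(9,0),(23,0),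
  (0,1),(0,1)]⟩,⟨0,[(10,0),(3,0)]⟩⟩,.e ⟨true,0,⟨0,[]⟩,⟨0,[(51,0)]⟩⟩ ⟨true,0,⟨5,[(0,1),(12,1),(9,1),
  (23,1),(0,0),(0,0)]⟩,⟨0,[(10,0),(3,0)]⟩⟩,.a ⟨true,0,⟨1,[(33,2),(0,0)]⟩,⟨0,[(0,0)]⟩⟩ ⟨false,1,⟨1,
  [(48,0),(0,0)]⟩,⟨1,[(33,0),(0,0)]⟩⟩ ⟨true,0,⟨0,[(0,0),(46,0)]⟩,⟨6,[(1,1),(12,2),(0,0),(15,0),(1,
  4),(7,0),(2,2)]⟩⟩]⟩)) (.I [0,0,-2,-2,0,0,0,1] (.Q [0,0,-2,0,0,0,-1,0,0,1,-1] (.p false [0,0,1]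
  [1] (⟨0,[(36,0)]⟩,⟨0,[(35,0)]⟩) .k 1 (⟨0,[]⟩,⟨0,[]⟩) .k .k) (.R ⟨0,false,false,false,[0,-1,1],[1,
  -1],[1],(⟨0,[(26,0)]⟩,⟨22,[(27,2),(0,2),(7,22),(1,4),(4,5),(0,2)]⟩),(⟨0,[(40,0)]⟩,⟨0,[(41,0)]⟩),
  ⟨2,[(3,0),(21,1),(12,0),(4,2)]⟩,.k,.k,(.r 0 ⟨0,[(1,0)]⟩ ⟨0,[(22,0),(10,0),(0,0)]⟩),.k,.k,.k,⟨true,
  0,⟨2,[(15,0),(6,0)]⟩,⟨0,[(48,0)]⟩⟩,⟨false,0,⟨0,[(31,0)]⟩,⟨3,[(11,1),(15,0),(0,0),(5,1),(10,0)]⟩⟩,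
  ⟨false,1,⟨1,[(7,0),(25,0),(0,1),(15,0)]⟩,⟨4,[(2,2),(5,0),(12,0)]⟩⟩,⟨true,0,⟨0,[(7,0),(6,0)]⟩,⟨0,
  [(16,0)]⟩⟩,⟨false,0,⟨0,[]⟩,⟨0,[]⟩⟩,⟨false,0,⟨0,[]⟩,⟨0,[]⟩⟩,[.o ⟨false,0,⟨0,[(48,0)]⟩,⟨31,[(7,1),
  (1,1),(12,11),(19,5),(2,14),(3,2)]⟩⟩,.e ⟨false,1,⟨1,[(49,0),(0,0)]⟩,⟨0,[(52,0)]⟩⟩ ⟨false,1,⟨11,
  [(0,2),(1,0),(11,4),(9,3),(8,0),(15,7),(0,8)]⟩,⟨0,[(11,0),(3,0)]⟩⟩,.e ⟨true,0,⟨0,[]⟩,⟨0,[(52,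
  0)]⟩⟩ ⟨true,0,⟨11,[(0,2),(1,0),(11,4),(9,3),(8,0),(15,1),(0,2)]⟩,⟨0,[(11,0),(3,0)]⟩⟩,.a ⟨true,0,
  ⟨1,[(34,2),(0,0)]⟩,⟨0,[(0,0)]⟩⟩ ⟨false,1,⟨1,[(49,0),(0,0)]⟩,⟨1,[(34,0),(0,0)]⟩⟩ ⟨true,0,⟨3,[(0,2),
  (1,0),(11,0),(18,0),(16,0)]⟩,⟨11,[(12,2),(2,3),(6,0),(11,11),(7,2),(2,5)]⟩⟩]⟩) (.R ⟨0,false,false,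
  false,[0,-1,1],[1,-1],[],(⟨0,[(26,0)]⟩,⟨22,[(27,2),(0,2),(7,22),(1,4),(4,5),(0,2)]⟩),(⟨0,[(40,
  0)]⟩,⟨0,[(41,0)]⟩),⟨2,[(3,0),(21,1),(12,0),(4,2)]⟩,.k,.k,(.r 0 ⟨0,[(1,0)]⟩ ⟨0,[(22,0),(10,0),(0,
  0)]⟩),.k,.k,.k,⟨true,0,⟨2,[(15,0),(6,0)]⟩,⟨0,[(48,0)]⟩⟩,⟨false,0,⟨0,[(31,0)]⟩,⟨2,[(0,0),(10,1),
  (15,0),(0,0)]⟩⟩,⟨false,1,⟨1,[(7,0),(25,0),(0,1),(15,0)]⟩,⟨4,[(2,2),(5,0),(12,0)]⟩⟩,⟨true,0,⟨0,[(7,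
  0),(6,0)]⟩,⟨0,[(16,0)]⟩⟩,⟨false,0,⟨0,[]⟩,⟨0,[]⟩⟩,⟨false,0,⟨0,[]⟩,⟨0,[]⟩⟩,[.o ⟨false,0,⟨0,[(48,
  0)]⟩,⟨31,[(7,1),(1,1),(12,11),(19,5),(2,14),(3,2)]⟩⟩,.e ⟨false,1,⟨1,[(49,0),(0,0)]⟩,⟨12,[(0,0),
  (13,0),(6,0),(1,0),(9,1),(0,0),(7,4)]⟩⟩ ⟨false,1,⟨11,[(2,1),(11,3),(9,1),(6,5),(1,1),(15,6),(0,
  8)]⟩,⟨9,[(0,2),(10,6),(0,5),(0,1),(28,0),(2,0)]⟩⟩,.a ⟨true,0,⟨0,[(34,0)]⟩,⟨0,[(31,0)]⟩⟩ ⟨false,1,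
  ⟨1,[(27,0),(0,0),(21,0)]⟩,⟨0,[]⟩⟩ ⟨true,0,⟨11,[(2,1),(11,3),(9,1),(6,5),(1,1),(15,0),(0,2)]⟩,⟨9,
  [(0,2),(10,6),(0,5),(0,1),(28,0),(2,0)]⟩⟩,.o ⟨false,0,⟨0,[(0,0)]⟩,⟨7,[(2,3),(4,3),(16,1),(17,1),
  (2,0),(3,2)]⟩⟩]⟩)) (.N [0,-2,1] 0 ⟨0,[(1,0)]⟩ ⟨0,[(0,0)]⟩ (.x 0 ⟨3,[(24,3),(8,4),(0,0),(7,3),(7,
  1)]⟩ ⟨50,[(1,40),(0,16),(3,39),(11,0),(4,4),(1,67),(15,18),(2,10),(0,0)]⟩)))))))))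

theorem ok132 : chk K t132 r75 = true := by decide +kernel

noncomputable def t139 : Tre :=
  (.S ⟨1,0,[0,1,-1,-2],[1,-1],[1,0,-1,-1],(⟨0,[(26,0)]⟩,⟨0,[(27,0)]⟩),⟨0,[(11,0),(0,0)]⟩,.k,(.r
  (-1) ⟨0,[(34,1),(0,0)]⟩ ⟨2,[(1,1),(6,1)]⟩),⟨true,0,⟨0,[]⟩,⟨0,[(38,0)]⟩⟩,⟨false,0,⟨0,[(34,0)]⟩,⟨3,
  [(8,1),(26,0),(0,0)]⟩⟩,⟨false,1,⟨3,[(8,1),(26,0),(0,0)]⟩,⟨0,[(34,0)]⟩⟩,⟨true,0,⟨0,[(38,0)]⟩,⟨0,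
  []⟩⟩,[.o ⟨false,0,⟨0,[(34,1),(3,0)]⟩,⟨0,[(0,0)]⟩⟩,.o ⟨false,0,⟨0,[(34,1)]⟩,⟨4,[(0,2),(7,0),(19,0),
  (2,0),(1,1)]⟩⟩,.o ⟨false,0,⟨1,[(20,0),(0,0)]⟩,⟨1,[(31,0),(3,0)]⟩⟩,.a ⟨true,(-1),⟨1,[(1,1),(28,0),
  (3,1),(1,0)]⟩,⟨0,[(35,0)]⟩⟩ ⟨true,1,⟨0,[(34,0),(0,0)]⟩,⟨0,[(1,0)]⟩⟩ ⟨false,1,⟨0,[(34,1),(0,0)]⟩,
  ⟨3,[(0,1),(0,3),(28,0),(5,2)]⟩⟩]⟩)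

theorem ok139 : chk K t139 r55 = true := by decide +kernel

noncomputable def t142 : Tre :=
  (.R ⟨2,false,false,true,[0,1],[0,0,1],[0,0,1],(⟨0,[]⟩,⟨0,[]⟩),(⟨0,[(21,0)]⟩,⟨0,[(20,0)]⟩),⟨0,[]⟩,
  .k,.k,.k,.k,.k,.k,⟨false,1,⟨1,[(0,1),(17,1),(10,0),(3,0)]⟩,⟨0,[(2,0),(1,0),(25,0)]⟩⟩,⟨true,0,⟨0,
  [(18,0)]⟩,⟨0,[(4,0)]⟩⟩,⟨true,0,⟨0,[(32,0)]⟩,⟨0,[(31,0)]⟩⟩,⟨false,0,⟨0,[(2,0)]⟩,⟨4,[(0,3),(2,0),(2,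
  1),(22,1),(3,0)]⟩⟩,⟨false,1,⟨1,[(11,0),(0,0),(21,0)]⟩,⟨0,[]⟩⟩,⟨false,0,⟨0,[(1,0)]⟩,⟨0,[(17,0),(16,
  0)]⟩⟩,[.a ⟨true,0,⟨0,[(16,0)]⟩,⟨0,[(0,0)]⟩⟩ ⟨true,0,⟨1,[(18,0),(0,0)]⟩,⟨0,[]⟩⟩ ⟨false,0,⟨0,[(16,
  0)]⟩,⟨1,[(0,1),(28,0),(3,0)]⟩⟩,.e ⟨false,1,⟨1,[(11,0),(0,0),(21,0)]⟩,⟨0,[(30,0),(1,0)]⟩⟩ ⟨false,0,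
  ⟨0,[(1,0)]⟩,⟨1,[(17,1),(15,0),(0,0)]⟩⟩,.o ⟨false,1,⟨1,[(29,0),(3,0)]⟩,⟨1,[(18,0),(0,0)]⟩⟩,.fo]⟩)

theorem ok142 : chk K t142 r44 = true := by decide +kernel

noncomputable def t144 : Tre :=
  (.R ⟨2,true,false,false,[0,1],[0,0,1],[0,1,1],(⟨0,[]⟩,⟨0,[]⟩),(⟨0,[(20,0)]⟩,⟨0,[(19,0)]⟩),⟨0,[]⟩,
  .k,.k,.k,.k,.k,.k,⟨false,0,⟨0,[(0,0),(16,0),(11,0),(1,0)]⟩,⟨0,[(1,0),(1,0),(25,0),(3,0)]⟩⟩,⟨true,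
  0,⟨0,[(17,0)]⟩,⟨0,[(3,0)]⟩⟩,⟨false,0,⟨0,[(31,0)]⟩,⟨3,[(5,1),(26,0),(0,0)]⟩⟩,⟨true,0,⟨0,[(1,0)]⟩,
  ⟨0,[(2,0)]⟩⟩,⟨true,0,⟨0,[(35,0)]⟩,⟨0,[]⟩⟩,⟨false,1,⟨0,[(15,0),(17,0)]⟩,⟨0,[(0,0)]⟩⟩,[]⟩)

theorem ok144 : chk K t144 r43 = true := by decide +kernel

noncomputable def t148 : Tre :=
  (.I [0,0,2,0,-1,2,-1] (.Q [0,1,0,1,0,0,1,1,0,0,1] (.p true [0,0,1] [] (⟨0,[(18,0)]⟩,⟨0,[(17,0)]⟩)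
  .k 0 (⟨0,[]⟩,⟨0,[]⟩) .k .k) (.K ⟨0,[0,1,1],0,0,(⟨22,[(9,2),(0,2),(8,22),(0,4),(4,5),(0,2)]⟩,⟨0,
  [(7,0)]⟩),.k,.k,(.x (-2) ⟨0,[(2,0),(4,0),(14,0),(4,0),(3,0)]⟩ ⟨0,[(1,0)]⟩),.k,.k,[⟨1,[(16,0),(0,
  0)]⟩,⟨0,[(2,0)]⟩,⟨0,[(15,0),(14,0)]⟩,⟨0,[(0,0)]⟩]⟩) (.R ⟨2,true,false,true,[0,1],[0,1,1],[0,1,1],
  (⟨0,[]⟩,⟨0,[]⟩),(⟨22,[(9,2),(0,2),(8,22),(0,4),(4,5),(0,2)]⟩,⟨0,[(7,0)]⟩),⟨0,[]⟩,.k,.k,.k,.k,.k,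
  .k,⟨false,0,⟨0,[(0,0),(1,0),(25,0),(1,0)]⟩,⟨1,[(3,0),(1,0),(25,0)]⟩⟩,⟨true,0,⟨0,[(2,0)]⟩,⟨0,[(17,
  0)]⟩⟩,⟨false,0,⟨0,[(30,0)]⟩,⟨3,[(4,1),(26,0),(0,0)]⟩⟩,⟨true,0,⟨0,[(14,0)]⟩,⟨0,[(0,0),(28,0)]⟩⟩,
  ⟨true,0,⟨0,[(34,0)]⟩,⟨0,[]⟩⟩,⟨false,1,⟨3,[(4,1),(9,3),(16,0),(0,0)]⟩,⟨0,[(0,0)]⟩⟩,[]⟩)) (.Q [0,1,
  0,1,0,0,1,1,0,0,1] (.p true [0,0,1] [] (⟨0,[(18,0)]⟩,⟨0,[(17,0)]⟩) .k 0 (⟨0,[]⟩,⟨0,[]⟩) .k .k)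
  (.I [0,0,-2,0,1,-2,1] (.K ⟨0,[0,1,1],0,0,(⟨22,[(10,2),(0,2),(8,22),(0,4),(4,5),(0,2)]⟩,⟨0,[(8,
  0)]⟩),.k,.k,(.x (-1) ⟨0,[(0,0)]⟩ ⟨2,[(7,1),(9,2),(0,1),(1,2),(5,1),(7,0)]⟩),.k,.k,[⟨1,[(17,0),(0,
  0)]⟩,⟨0,[(3,0)]⟩,⟨0,[(16,0),(14,0)]⟩,⟨0,[(1,0)]⟩]⟩) (.I [0,0,-2,-2,0,0,0,-1] (.K ⟨0,[0,1,1],0,0,
  (⟨22,[(11,2),(0,2),(8,22),(0,4),(4,5),(0,2)]⟩,⟨0,[(9,0)]⟩),.k,.k,(.r (-1) ⟨2,[(5,1),(0,0),(0,1),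
  (9,0),(0,0)]⟩ ⟨0,[(0,0)]⟩),.k,.k,[⟨1,[(18,0),(0,0)]⟩,⟨0,[(4,0)]⟩,⟨0,[(17,0),(14,0)]⟩,⟨0,[(2,
  0)]⟩]⟩) (.I [0,0,2,2,0,0,0,1] (.K ⟨0,[0,1,1],0,0,(⟨22,[(12,2),(0,2),(8,22),(0,4),(4,5),(0,2)]⟩,⟨0,
  [(10,0)]⟩),.k,.k,(.r 0 ⟨0,[(0,0)]⟩ ⟨1,[(4,1),(6,1),(6,1),(9,1),(0,0),(3,3),(1,0)]⟩),.k,.k,[⟨1,
  [(19,0),(0,0)]⟩,⟨0,[(5,0)]⟩,⟨0,[(18,0),(14,0)]⟩,⟨0,[(3,0)]⟩]⟩) (.I [1,0,0,0,0,0,0,-1] (.Q [0,0,0,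
  0,0,0,1,1,0,0,1] (.p true [0,0,1] [] (⟨0,[(23,0)]⟩,⟨0,[(22,0)]⟩) .k 0 (⟨0,[]⟩,⟨0,[]⟩) .k .k) (.R
  ⟨2,true,false,false,[0,1],[0,1,1],[0,1,1],(⟨0,[]⟩,⟨0,[]⟩),(⟨22,[(14,2),(0,2),(8,22),(0,4),(4,5),
  (0,2)]⟩,⟨0,[(12,0)]⟩),⟨0,[]⟩,.k,.k,.k,.k,.k,.k,⟨false,0,⟨5,[(1,0),(0,2),(17,1),(0,1),(7,1)]⟩,⟨3,
  [(0,1),(2,0),(6,0),(7,1),(13,0),(0,0),(3,1)]⟩⟩,⟨true,0,⟨0,[(7,0)]⟩,⟨0,[(22,0)]⟩⟩,⟨false,0,⟨0,[(35,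
  0)]⟩,⟨3,[(9,1),(26,0),(0,0)]⟩⟩,⟨true,0,⟨0,[(0,0)]⟩,⟨0,[(20,0)]⟩⟩,⟨true,0,⟨0,[(39,0)]⟩,⟨0,[]⟩⟩,
  ⟨false,1,⟨0,[(5,0),(31,0)]⟩,⟨1,[(1,0),(0,0),(19,1)]⟩⟩,[]⟩) (.I [0,-1,0,-1,0,0,0,-1] (.I [0,-1,0,0,
  1,0,0,1] (.S ⟨1,0,[0,0,0,-1,0,0,0,-1],[1,0,-1],[1,1,0,0,0,0,0,-1],(⟨0,[(25,0)]⟩,⟨0,[(26,0)]⟩),⟨0,
  [(14,0)]⟩,.k,.k,⟨false,0,⟨0,[]⟩,⟨1,[(16,0),(0,0),(21,0)]⟩⟩,⟨true,0,⟨0,[(37,0)]⟩,⟨0,[(36,0)]⟩⟩,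
  ⟨true,0,⟨0,[(36,0)]⟩,⟨0,[(37,0)]⟩⟩,⟨false,1,⟨1,[(16,0),(0,0),(21,0)]⟩,⟨0,[]⟩⟩,[.o ⟨false,0,⟨2,[(1,
  0),(2,0),(17,0),(1,1)]⟩,⟨1,[(7,1),(26,0),(4,0)]⟩⟩,.a ⟨true,0,⟨3,[(1,3),(11,1),(2,0),(0,0),(15,
  0)]⟩,⟨0,[(7,0)]⟩⟩ ⟨false,0,⟨0,[(1,0),(33,0)]⟩,⟨3,[(0,2),(15,0),(0,0),(3,0),(2,0),(6,0)]⟩⟩ ⟨true,0,
  ⟨0,[(1,0)]⟩,⟨0,[(10,0)]⟩⟩,.e ⟨false,0,⟨0,[(3,0)]⟩,⟨0,[(0,0)]⟩⟩ ⟨false,0,⟨0,[(1,0)]⟩,⟨1,[(10,0),(1,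
  0),(25,0)]⟩⟩,.o ⟨false,0,⟨0,[(24,0)]⟩,⟨1,[(9,1),(24,0),(3,0)]⟩⟩]⟩) (.Q [0,0,1,0,0,0,2,0,0,-1,2]
  (.p true [0,0,1] [1,0,-1] (⟨0,[(26,0)]⟩,⟨0,[(25,0)]⟩) .k 2 (⟨0,[(25,0)]⟩,⟨0,[(26,0)]⟩) .k (.r
  (-2) ⟨5,[(12,7),(0,1),(7,3),(9,1),(2,0),(2,7),(0,2)]⟩ ⟨0,[(0,1),(38,0)]⟩)) (.K ⟨0,[1,1,-1],0,(-1),
  (⟨22,[(17,2),(0,2),(7,22),(1,4),(4,5),(0,2)]⟩,⟨0,[(16,0)]⟩),.k,.k,(.r 1 ⟨0,[(1,1),(4,0),(33,0)]⟩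
  ⟨11,[(13,7),(0,1),(7,3),(9,1),(2,0),(2,31),(0,14)]⟩),(.r 1 ⟨2,[(1,5),(0,0),(3,0),(5,0),(27,1)]⟩
  ⟨1,[(5,1),(7,1),(0,1),(7,3),(12,0),(4,0)]⟩),.k,[⟨0,[(0,0)]⟩,⟨5,[(14,2),(2,0),(0,0),(9,0),(1,0),(3,
  0)]⟩,⟨1,[(17,0),(0,0),(3,1),(12,0),(2,1)]⟩,⟨36,[(1,43),(4,6),(5,9),(1,7),(6,20),(6,1),(1,1),(3,2),
  (1,2)]⟩]⟩) (.R ⟨0,false,false,false,[0,-1,1],[1,0,-1],[],(⟨0,[(16,0)]⟩,⟨22,[(17,2),(0,2),(7,22),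
  (1,4),(4,5),(0,2)]⟩),(⟨0,[(26,0)]⟩,⟨0,[(27,0)]⟩),⟨19,[(0,3),(0,9),(4,9),(2,7),(5,11),(12,1),(4,
  21),(0,2),(3,19),(1,4)]⟩,.k,.k,(.r (-2) ⟨11,[(13,7),(0,1),(7,3),(9,1),(2,0),(2,31),(0,14)]⟩ ⟨0,
  [(1,1),(4,0),(33,0)]⟩),(.r (-2) ⟨3,[(0,1),(12,3),(8,3),(12,0),(2,7),(0,2)]⟩ ⟨2,[(1,5),(0,0),(3,0),
  (5,0),(27,1)]⟩),.k,.k,⟨false,1,⟨3,[(0,1),(21,3),(12,0),(3,0),(0,1)]⟩,⟨0,[(4,0)]⟩⟩,⟨true,0,⟨0,[(0,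
  0)]⟩,⟨1,[(1,0),(0,3),(3,1),(3,0),(11,2),(12,0)]⟩⟩,⟨false,0,⟨2,[(1,2),(0,0),(3,0),(5,0),(27,1)]⟩,
  ⟨3,[(0,1),(4,1),(7,1),(8,3),(12,0),(2,1),(1,0)]⟩⟩,⟨true,(-1),⟨2,[(0,2),(0,5),(0,0),(3,0),(5,0),
  (27,1)]⟩,⟨1,[(22,3),(12,0),(2,1),(1,0)]⟩⟩,⟨false,0,⟨0,[]⟩,⟨0,[]⟩⟩,⟨false,0,⟨0,[]⟩,⟨0,[]⟩⟩,[.o
  ⟨false,0,⟨0,[(3,0)]⟩,⟨1,[(22,1),(12,0),(4,0)]⟩⟩,.a ⟨true,0,⟨24,[(0,8),(0,1),(0,17),(0,4),(8,8),(1,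
  0),(13,0),(1,0),(3,6)]⟩,⟨0,[(22,0)]⟩⟩ ⟨false,1,⟨1,[(39,0),(0,0)]⟩,⟨0,[(42,0)]⟩⟩ ⟨true,0,⟨0,[(0,0),
  (0,0),(38,0)]⟩,⟨1,[(1,0),(0,2),(3,1),(15,3),(12,0),(2,0)]⟩⟩,.e ⟨false,1,⟨1,[(17,0),(0,0),(21,0)]⟩,
  ⟨0,[]⟩⟩ ⟨false,0,⟨0,[(0,0),(0,0),(38,0)]⟩,⟨1,[(22,1),(1,1),(10,0),(4,0)]⟩⟩,.o ⟨false,0,⟨1,[(1,0),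
  (0,2),(3,1),(15,1),(12,0),(2,0)]⟩,⟨3,[(0,1),(34,0),(3,2)]⟩⟩]⟩))) (.S ⟨1,0,[0,0,1,0,0,0,0,1],[0,1,
  1],[1,1,1,1,0,0,0,1],(⟨22,[(15,2),(0,2),(8,22),(0,4),(4,5),(0,2)]⟩,⟨0,[(13,0)]⟩),⟨0,[(25,0)]⟩,.k,
  .k,⟨false,0,⟨0,[]⟩,⟨1,[(15,0),(0,0),(21,0)]⟩⟩,⟨true,0,⟨0,[(36,0)]⟩,⟨0,[(35,0)]⟩⟩,⟨true,0,⟨0,[(35,
  0)]⟩,⟨0,[(36,0)]⟩⟩,⟨false,1,⟨1,[(15,0),(0,0),(21,0)]⟩,⟨0,[]⟩⟩,[.o ⟨false,1,⟨1,[(20,1),(12,0),(4,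
  0)]⟩,⟨0,[(1,0)]⟩⟩,.e ⟨false,1,⟨3,[(0,0),(10,2),(18,0),(6,0)]⟩,⟨1,[(1,0),(1,0),(4,0)]⟩⟩ ⟨false,1,
  ⟨0,[(0,0),(35,0),(1,0)]⟩,⟨5,[(2,4),(0,0),(26,1),(3,1)]⟩⟩,.o ⟨false,1,⟨1,[(8,1),(24,0),(3,0)]⟩,⟨0,
  [(23,0)]⟩⟩,.a ⟨true,0,⟨0,[(8,0)]⟩,⟨5,[(12,2),(2,0),(0,0),(9,0),(1,0),(3,0)]⟩⟩ ⟨true,0,⟨0,[(0,0)]⟩,
  ⟨3,[(1,1),(1,1),(18,2),(0,0)]⟩⟩ ⟨false,1,⟨0,[(0,0),(35,0),(1,0)]⟩,⟨0,[(2,0)]⟩⟩]⟩))) (.S ⟨1,0,[0,0,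
  1,0,0,0,0,1],[0,1,1],[0,1,1,0,0,0,0,1],(⟨22,[(13,2),(0,2),(8,22),(0,4),(4,5),(0,2)]⟩,⟨0,[(11,
  0)]⟩),⟨0,[(23,0)]⟩,.k,.k,⟨false,0,⟨0,[(34,0)]⟩,⟨3,[(8,1),(26,0),(0,0)]⟩⟩,⟨true,0,⟨0,[(34,0)]⟩,⟨0,
  [(33,0)]⟩⟩,⟨true,0,⟨0,[(38,0)]⟩,⟨0,[]⟩⟩,⟨false,1,⟨1,[(13,0),(0,0),(21,0)]⟩,⟨0,[]⟩⟩,[.e ⟨false,0,
  ⟨2,[(0,1),(17,0),(2,0),(6,0)]⟩,⟨0,[(1,0),(6,0)]⟩⟩ ⟨false,0,⟨0,[(0,0)]⟩,⟨5,[(1,4),(6,4),(4,0),(0,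
  0),(4,0),(0,0),(7,1)]⟩⟩,.o ⟨false,1,⟨1,[(0,1),(5,1),(24,0),(4,0)]⟩,⟨0,[(19,0)]⟩⟩,.o ⟨false,1,⟨1,
  [(6,1),(24,0),(3,0)]⟩,⟨0,[(21,0)]⟩⟩,.a ⟨true,0,⟨0,[(6,0)]⟩,⟨5,[(10,2),(2,0),(0,0),(9,0),(1,0),(3,
  0)]⟩⟩ ⟨false,0,⟨0,[(0,0)]⟩,⟨1,[(1,0),(6,0),(10,0),(0,0),(15,0)]⟩⟩ ⟨true,0,⟨0,[(0,0)]⟩,⟨0,[(6,0),
  (12,0)]⟩⟩]⟩))))) (.R ⟨2,true,false,true,[0,1],[0,1,1],[0,1,1],(⟨0,[]⟩,⟨0,[]⟩),(⟨22,[(9,2),(0,2),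
  (8,22),(0,4),(4,5),(0,2)]⟩,⟨0,[(7,0)]⟩),⟨0,[]⟩,.k,.k,.k,.k,.k,.k,⟨false,0,⟨0,[(0,0),(1,0),(25,0),
  (1,0)]⟩,⟨1,[(3,0),(1,0),(25,0)]⟩⟩,⟨true,0,⟨0,[(2,0)]⟩,⟨0,[(17,0)]⟩⟩,⟨false,0,⟨0,[(30,0)]⟩,⟨3,[(4,
  1),(26,0),(0,0)]⟩⟩,⟨true,0,⟨0,[(14,0)]⟩,⟨0,[(0,0),(28,0)]⟩⟩,⟨true,0,⟨0,[(34,0)]⟩,⟨0,[]⟩⟩,⟨false,1,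
  ⟨3,[(4,1),(9,3),(16,0),(0,0)]⟩,⟨0,[(0,0)]⟩⟩,[]⟩)))

theorem ok148 : chk K t148 r3 = true := by decide +kernel


end Helper25.S1T.Ymp_1cP3
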