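import Pool.Agent.Helper25.S1T.Ymp_1cP3_p0
import Pool.Agent.Helper25.S1T.Ymp_1cP3_p1
import Pool.Agent.Helper25.S1T.Ymp_1cP3_p2
import Pool.Agent.Helper25.S1T.Ymp_1cP3_p3
import Pool.Agent.Helper25.S1T.Ymp_1cP3_p4

set_option autoImplicit false
set_option linter.all false

namespace Helper25.S1T.Ymp_1cP3

open Helper25.KG Helper25.KW Helper55.KE Helper11.CT

noncomputable def t17 : Tre :=
  .Q [0,0,-1,0,0,0,-1,0,-1,1,-1,-1] (.p false [0,0,1] [1,0,0,0,-1] (⟨0,[(35,0)]⟩,⟨0,[(34,0)]⟩) .k 2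
  (⟨0,[(27,0)]⟩,⟨0,[(28,0)]⟩) .k (.r 0 ⟨0,[(18,0),(11,0)]⟩ ⟨2,[(11,0),(2,1),(10,0),(0,0),(4,0),(16,
  0)]⟩)) t15 t16

theorem ok17 : chk K t17 r21 = true :=
  chk_Q (e' := [0,0,1,0,0,0,1,0,1,-1,1,1]) (by decide +kernel) (by decide +kernel) ok15 ok16

noncomputable def t18 : Tre :=
  .I [0,0,-2,-1,1,0,0,1] t14 t17

theorem ok18 : chk K t18 r20 = true :=
  chk_I (e' := [1,0,2,1,-1,0,0,-1]) (by decide +kernel) (by decide +kernel) ok14 ok17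

noncomputable def t19 : Tre :=
  .Q [0,0,0,-2,-1,0,-1,-1,0,1,-1] (.p false [0,0,1] [1] (⟨0,[(33,0)]⟩,⟨0,[(32,0)]⟩) .k 1 (⟨0,[]⟩,⟨0,
  []⟩) .k .k) t13 t18

theorem ok19 : chk K t19 r19 = true :=
  chk_Q (e' := [0,0,0,2,1,0,1,1,0,-1,1]) (by decide +kernel) (by decide +kernel) ok13 ok18

noncomputable def t20 : Tre :=
  .Q [0,-1,0,1,1,0,0,0,0,-1] (.pp true [-1,1]) t12 t19

theorem ok20 : chk K t20 r18 = true :=
  chk_Q (e' := [0,1,0,-1,-1,0,0,0,0,1]) (by decide +kernel) (by decide +kernel) ok12 ok19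

noncomputable def t21 : Tre :=
  .Q [0,-1,0,-1,0,0,-1,-1,0,0,-1] (.p false [0,0,1] [] (⟨0,[(31,0)]⟩,⟨0,[(30,0)]⟩) .k 0 (⟨0,[]⟩,⟨0,
  []⟩) .k .k) t11 t20

theorem ok21 : chk K t21 l17 = true :=
  chk_Q (e' := [0,1,0,1,0,0,1,1,0,0,1]) (by decide +kernel) (by decide +kernel) ok11 ok20

noncomputable def t23 : Tre :=
  .Q [0,1,2,0,-2,0,-1,-1,0,1,-1] (.p false [0,0,1] [1] (⟨0,[(30,0)]⟩,⟨0,[(29,0)]⟩) .k 1 (⟨0,[]⟩,⟨0,
  []⟩) .k .k) t21 t22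

theorem ok23 : chk K t23 l16 = true :=
  chk_Q (e' := [0,-1,-2,0,2,0,1,1,0,-1,1]) (by decide +kernel) (by decide +kernel) ok21 ok22

noncomputable def t25 : Tre :=
  .Q [0,0,0,1,1,0,1,1,0,-1,1] (.p true [0,0,1] [1] (⟨0,[(29,0)]⟩,⟨0,[(28,0)]⟩) .k 1 (⟨0,[]⟩,⟨0,[]⟩)
  .k .k) t23 t24

theorem ok25 : chk K t25 r15 = true :=
  chk_Q (e' := [0,0,0,-1,-1,0,-1,-1,0,1,-1]) (by decide +kernel) (by decide +kernel) ok23 ok24

noncomputable def t26 : Tre :=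
  .I [0,0,1,0,0,0,0,1] t10 t25

theorem ok26 : chk K t26 r14 = true :=
  chk_I (e' := [1,0,-1,0,0,0,0,-1]) (by decide +kernel) (by decide +kernel) ok10 ok25

noncomputable def t27 : Tre :=
  .Q [0,-1,0,-1,-1,0,-2,-2,0,1,-2] (.p false [0,0,1] [1,0,-1] (⟨0,[(27,0)]⟩,⟨0,[(26,0)]⟩) .k 2 (⟨0,
  [(26,0)]⟩,⟨0,[(27,0)]⟩) .k (.r (-1) ⟨0,[(10,1),(11,1),(17,0)]⟩ ⟨0,[(7,1)]⟩)) t9 t26

theorem ok27 : chk K t27 r13 = true :=
  chk_Q (e' := [0,1,0,1,1,0,2,2,0,-1,2]) (by decide +kernel) (by decide +kernel) ok9 ok26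

noncomputable def t28 : Tre :=
  .Q [0,-1,1,1,0,0,-1,0,0,0,-1] (.p false [0,0,1] [] (⟨0,[(26,0)]⟩,⟨0,[(25,0)]⟩) .k 0 (⟨0,[]⟩,⟨0,
  []⟩) .k .k) t8 t27

theorem ok28 : chk K t28 r12 = true :=
  chk_Q (e' := [0,1,-1,-1,0,0,1,0,0,0,1]) (by decide +kernel) (by decide +kernel) ok8 ok27

noncomputable def t29 : Tre :=
  .Q [0,0,-1,0,1,0,2,0,0,-1,2] (.p true [0,0,1] [1,0,-1] (⟨0,[(25,0)]⟩,⟨0,[(24,0)]⟩) .k 2 (⟨0,[(24,
  0)]⟩,⟨0,[(25,0)]⟩) .k (.r (-1) ⟨0,[(8,1),(11,1),(17,0)]⟩ ⟨0,[(5,1)]⟩)) t7 t28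

theorem ok29 : chk K t29 l11 = true :=
  chk_Q (e' := [0,0,1,0,-1,0,-2,0,0,1,-2]) (by decide +kernel) (by decide +kernel) ok7 ok28

noncomputable def t34 : Tre :=
  .I [0,0,-1,0,0,-1,-1,0,1] t32 t33

theorem ok34 : chk K t34 r26 = true :=
  chk_I (e' := [1,0,1,0,0,1,1,0,-1]) (by decide +kernel) (by decide +kernel) ok32 ok33

noncomputable def t35 : Tre :=
  .Q [0,0,0,-2,-1,0,-1,-1,0,1,-1] (.p false [0,0,1] [1] (⟨0,[(28,0)]⟩,⟨0,[(27,0)]⟩) .k 1 (⟨0,[]⟩,⟨0,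
  []⟩) .k .k) t31 t34

theorem ok35 : chk K t35 l25 = true :=
  chk_Q (e' := [0,0,0,2,1,0,1,1,0,-1,1]) (by decide +kernel) (by decide +kernel) ok31 ok34

noncomputable def t37 : Tre :=
  .Q [0,1,0,-3,-1,0,0,0,0,1] (.pp false [-1,1]) t35 t36

theorem ok37 : chk K t37 r24 = true :=
  chk_Q (e' := [0,-1,0,3,1,0,0,0,0,-1]) (by decide +kernel) (by decide +kernel) ok35 ok36

noncomputable def t38 : Tre :=
  .Q [0,0,0,0,0,2,0,0,0,-1,1] (.p true [0,0,1] [1] (⟨0,[(26,0)]⟩,⟨0,[(25,0)]⟩) .k 1 (⟨0,[]⟩,⟨0,[]⟩)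
  .k .k) t30 t37

theorem ok38 : chk K t38 l23 = true :=
  chk_Q (e' := [0,0,0,0,0,-2,0,0,0,1,-1]) (by decide +kernel) (by decide +kernel) ok30 ok37

noncomputable def t40 : Tre :=
  .I [0,0,-2,-2,0,0,0,-1] t38 t39

theorem ok40 : chk K t40 r11 = true :=
  chk_I (e' := [1,0,2,2,0,0,0,1]) (by decide +kernel) (by decide +kernel) ok38 ok39

noncomputable def t41 : Tre :=
  .Q [0,0,2,0,-1,0,-1,0,0,1,-1] (.p false [0,0,1] [1] (⟨0,[(24,0)]⟩,⟨0,[(23,0)]⟩) .k 1 (⟨0,[]⟩,⟨0,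
  []⟩) .k .k) t29 t40

theorem ok41 : chk K t41 l10 = true :=
  chk_Q (e' := [0,0,-2,0,1,0,1,0,0,-1,1]) (by decide +kernel) (by decide +kernel) ok29 ok40

noncomputable def t47 : Tre :=
  .I [0,0,-2,-2,1,0,0,1] t45 t46

theorem ok47 : chk K t47 r31 = true :=
  chk_I (e' := [1,0,2,2,-1,0,0,-1]) (by decide +kernel) (by decide +kernel) ok45 ok46

noncomputable def t48 : Tre :=
  .Q [0,0,0,-1,-1,0,-1,-1,0,1,-1] (.p false [0,0,1] [1] (⟨0,[(27,0)]⟩,⟨0,[(26,0)]⟩) .k 1 (⟨0,[]⟩,⟨0,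
  []⟩) .k .k) t44 t47

theorem ok48 : chk K t48 r30 = true :=
  chk_Q (e' := [0,0,0,1,1,0,1,1,0,-1,1]) (by decide +kernel) (by decide +kernel) ok44 ok47

noncomputable def t49 : Tre :=
  .Q [0,0,0,0,0,2,0,0,0,-1,1] (.p true [0,0,1] [1] (⟨0,[(26,0)]⟩,⟨0,[(25,0)]⟩) .k 1 (⟨0,[]⟩,⟨0,[]⟩)
  .k .k) t43 t48

theorem ok49 : chk K t49 l29 = true :=
  chk_Q (e' := [0,0,0,0,0,-2,0,0,0,1,-1]) (by decide +kernel) (by decide +kernel) ok43 ok48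

noncomputable def t51 : Tre :=
  .I [0,0,1,2,0,0,0,1] t49 t50

theorem ok51 : chk K t51 r28 = true :=
  chk_I (e' := [1,0,-1,-2,0,0,0,-1]) (by decide +kernel) (by decide +kernel) ok49 ok50

noncomputable def t52 : Tre :=
  .Q [0,-1,0,1,1,0,0,0,0,-1] (.pp true [-1,1]) t42 t51

theorem ok52 : chk K t52 r10 = true :=
  chk_Q (e' := [0,1,0,-1,-1,0,0,0,0,1]) (by decide +kernel) (by decide +kernel) ok42 ok51

noncomputable def t53 : Tre :=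
  .Q [0,0,-2,0,1,0,1,0,0,0,1] (.p true [0,0,1] [] (⟨0,[(23,0)]⟩,⟨0,[(22,0)]⟩) .k 0 (⟨0,[]⟩,⟨0,[]⟩)
  .k .k) t41 t52

theorem ok53 : chk K t53 r9 = true :=
  chk_Q (e' := [0,0,2,0,-1,0,-1,0,0,0,-1]) (by decide +kernel) (by decide +kernel) ok41 ok52

noncomputable def t54 : Tre :=
  .I [0,-1,0,-1,0,0,0,-1] t6 t53

theorem ok54 : chk K t54 r8 = true :=
  chk_I (e' := [1,1,0,1,0,0,0,1]) (by decide +kernel) (by decide +kernel) ok6 ok53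

noncomputable def t55 : Tre :=
  .I [0,-1,-1,-1,1,0,0,1] t5 t54

theorem ok55 : chk K t55 r7 = true :=
  chk_I (e' := [1,1,1,1,-1,0,0,-1]) (by decide +kernel) (by decide +kernel) ok5 ok54

noncomputable def t56 : Tre :=
  .I [1,1,-1,0,0,0,0,1] t4 t55

theorem ok56 : chk K t56 l6 = true :=
  chk_I (e' := [0,-1,1,0,0,0,0,-1]) (by decide +kernel) (by decide +kernel) ok4 ok55

noncomputable def t60 : Tre :=
  .Q [0,-1,-1,-1,0,0,-1,0,0,1,-1] (.p false [0,0,1] [1] (⟨0,[(23,0)]⟩,⟨0,[(22,0)]⟩) .k 1 (⟨0,[]⟩,⟨0,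
  []⟩) .k .k) t58 t59

theorem ok60 : chk K t60 l35 = true :=
  chk_Q (e' := [0,1,1,1,0,0,1,0,0,-1,1]) (by decide +kernel) (by decide +kernel) ok58 ok59

noncomputable def t67 : Tre :=
  .I [0,0,2,2,-1,0,0,1] t65 t66

theorem ok67 : chk K t67 r41 = true :=
  chk_I (e' := [1,0,-2,-2,1,0,0,-1]) (by decide +kernel) (by decide +kernel) ok65 ok66

noncomputable def t68 : Tre :=
  .I [1,1,-1,-1,0,0,0,-1] t64 t67

theorem ok68 : chk K t68 l40 = true :=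
  chk_I (e' := [0,-1,1,1,0,0,0,1]) (by decide +kernel) (by decide +kernel) ok64 ok67

noncomputable def t70 : Tre :=
  .I [0,0,0,0,0,0,0,1] t68 t69

theorem ok70 : chk K t70 r39 = true :=
  chk_I (e' := [1,0,0,0,0,0,0,-1]) (by decide +kernel) (by decide +kernel) ok68 ok69

noncomputable def t71 : Tre :=
  .Q [0,-1,0,-2,1,0,1,1,0,-1,1] (.p true [0,0,1] [1] (⟨0,[(25,0)]⟩,⟨0,[(24,0)]⟩) .k 1 (⟨0,[]⟩,⟨0,
  []⟩) .k .k) t63 t70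

theorem ok71 : chk K t71 r38 = true :=
  chk_Q (e' := [0,1,0,2,-1,0,-1,-1,0,1,-1]) (by decide +kernel) (by decide +kernel) ok63 ok70

noncomputable def t72 : Tre :=
  .Q [0,-1,0,1,1,0,0,0,0,-1] (.pp true [-1,1]) t62 t71

theorem ok72 : chk K t72 r37 = true :=
  chk_Q (e' := [0,1,0,-1,-1,0,0,0,0,1]) (by decide +kernel) (by decide +kernel) ok62 ok71

noncomputable def t73 : Tre :=
  .Q [0,0,0,0,0,2,0,0,0,0,-1] (.p false [0,0,1] [] (⟨0,[(23,0)]⟩,⟨0,[(22,0)]⟩) .k 0 (⟨0,[]⟩,⟨0,[]⟩)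
  .k .k) t61 t72

theorem ok73 : chk K t73 r35 = true :=
  chk_Q (e' := [0,0,0,0,0,-2,0,0,0,0,1]) (by decide +kernel) (by decide +kernel) ok61 ok72

noncomputable def t74 : Tre :=
  .Q [0,0,-2,0,0,0,-1,0,0,1,-1] (.p false [0,0,1] [1] (⟨0,[(22,0)]⟩,⟨0,[(21,0)]⟩) .k 1 (⟨0,[]⟩,⟨0,
  []⟩) .k .k) t60 t73

theorem ok74 : chk K t74 r34 = true :=
  chk_Q (e' := [0,0,2,0,0,0,1,0,0,-1,1]) (by decide +kernel) (by decide +kernel) ok60 ok73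

noncomputable def t75 : Tre :=
  .Q [0,-1,0,-1,1,0,1,1,0,-1,1] (.p true [0,0,1] [1] (⟨0,[(21,0)]⟩,⟨0,[(20,0)]⟩) .k 1 (⟨0,[]⟩,⟨0,
  []⟩) .k .k) t57 t74

theorem ok75 : chk K t75 l33 = true :=
  chk_Q (e' := [0,1,0,1,-1,0,-1,-1,0,1,-1]) (by decide +kernel) (by decide +kernel) ok57 ok74

noncomputable def t77 : Tre :=
  .Q [0,0,0,2,0,0,-1,-1,0,0,-1] (.p false [0,0,1] [] (⟨0,[(20,0)]⟩,⟨0,[(19,0)]⟩) .k 0 (⟨0,[]⟩,⟨0,
  []⟩) .k .k) t75 t76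

theorem ok77 : chk K t77 r6 = true :=
  chk_Q (e' := [0,0,0,-2,0,0,1,1,0,0,1]) (by decide +kernel) (by decide +kernel) ok75 ok76

noncomputable def t78 : Tre :=
  .I [0,0,0,0,0,0,0,-1] t56 t77

theorem ok78 : chk K t78 l5 = true :=
  chk_I (e' := [1,0,0,0,0,0,0,1]) (by decide +kernel) (by decide +kernel) ok56 ok77

noncomputable def t86 : Tre :=
  .I [1,-1,-2,-2,1,0,0,-2] t84 t85

theorem ok86 : chk K t86 r53 = true :=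
  chk_I (e' := [0,1,2,2,-1,0,0,2]) (by decide +kernel) (by decide +kernel) ok84 ok85

noncomputable def t87 : Tre :=
  .I [0,-1,2,1] t83 t86

theorem ok87 : chk K t87 r52 = true :=
  chk_I (e' := [1,1,-2,-1]) (by decide +kernel) (by decide +kernel) ok83 ok86

noncomputable def t88 : Tre :=
  .I [1,0,-1,-1,0,0,0,1] t82 t87

theorem ok88 : chk K t88 r51 = true :=
  chk_I (e' := [0,0,1,1,0,0,0,-1]) (by decide +kernel) (by decide +kernel) ok82 ok87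

noncomputable def t89 : Tre :=
  .Q [0,-1,0,-1,0,0,-1,-1,0,1,-1] (.p false [0,0,1] [1] (⟨0,[(27,0)]⟩,⟨0,[(26,0)]⟩) .k 1 (⟨0,[]⟩,⟨0,
  []⟩) .k .k) t81 t88

theorem ok89 : chk K t89 r50 = true :=
  chk_Q (e' := [0,1,0,1,0,0,1,1,0,-1,1]) (by decide +kernel) (by decide +kernel) ok81 ok88

noncomputable def t90 : Tre :=
  .I [0,0,-1,-1,0,0,0,1] t80 t89

theorem ok90 : chk K t90 r49 = true :=
  chk_I (e' := [1,0,1,1,0,0,0,-1]) (by decide +kernel) (by decide +kernel) ok80 ok89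

noncomputable def t91 : Tre :=
  .Q [0,-1,-2,-1,0,0,-1,0,0,1,-1] (.p false [0,0,1] [1] (⟨0,[(25,0)]⟩,⟨0,[(24,0)]⟩) .k 1 (⟨0,[]⟩,⟨0,
  []⟩) .k .k) t79 t90

theorem ok91 : chk K t91 l48 = true :=
  chk_Q (e' := [0,1,2,1,0,0,1,0,0,-1,1]) (by decide +kernel) (by decide +kernel) ok79 ok90

noncomputable def t93 : Tre :=
  .Q [0,0,-2,0,1,0,0,0,0,-1] (.pp true [-1,1]) t91 t92

theorem ok93 : chk K t93 l47 = true :=
  chk_Q (e' := [0,0,2,0,-1,0,0,0,0,1]) (by decide +kernel) (by decide +kernel) ok91 ok92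

noncomputable def t95 : Tre :=
  .Q [0,0,-1,0,1,0,1,0,0,-1,1] (.p true [0,0,1] [1] (⟨0,[(23,0)]⟩,⟨0,[(22,0)]⟩) .k 1 (⟨0,[]⟩,⟨0,
  []⟩) .k .k) t93 t94

theorem ok95 : chk K t95 l46 = true :=
  chk_Q (e' := [0,0,1,0,-1,0,-1,0,0,1,-1]) (by decide +kernel) (by decide +kernel) ok93 ok94

noncomputable def t97 : Tre :=
  .I [1,0,0,1,0,0,0,1] t95 t96

theorem ok97 : chk K t97 l45 = true :=
  chk_I (e' := [0,0,0,-1,0,0,0,-1]) (by decide +kernel) (by decide +kernel) ok95 ok96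

noncomputable def t107 : Tre :=
  .Q [0,0,-1,0,0,0,-2,-1,0,1,-2] (.p false [0,0,1] [1,0,-1] (⟨0,[(39,0)]⟩,⟨0,[(38,0)]⟩) .k 2 (⟨0,
  [(38,0)]⟩,⟨0,[(39,0)]⟩) .k (.r 0 ⟨0,[(19,1),(2,1)]⟩ ⟨0,[(3,1),(47,0)]⟩)) t105 t106

theorem ok107 : chk K t107 l71 = true :=
  chk_Q (e' := [0,0,1,0,0,0,2,1,0,-1,2]) (by decide +kernel) (by decide +kernel) ok105 ok106

noncomputable def t109 : Tre :=
  .I [1,1,2,1,-1,0,0,-1] t107 t108

theorem ok109 : chk K t109 l70 = true :=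
  chk_I (e' := [0,-1,-2,-1,1,0,0,1]) (by decide +kernel) (by decide +kernel) ok107 ok108

noncomputable def t111 : Tre :=
  .I [1,-1,2,1,0,0,0,-1] t109 t110

theorem ok111 : chk K t111 l69 = true :=
  chk_I (e' := [0,1,-2,-1,0,0,0,1]) (by decide +kernel) (by decide +kernel) ok109 ok110

noncomputable def t113 : Tre :=
  .I [0,0,1,1,0,0,0,-1] t111 t112

theorem ok113 : chk K t113 r68 = true :=
  chk_I (e' := [1,0,-1,-1,0,0,0,1]) (by decide +kernel) (by decide +kernel) ok111 ok112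

noncomputable def t114 : Tre :=
  .I [1,0,-1,0,0,0,0,1] t104 t113

theorem ok114 : chk K t114 r67 = true :=
  chk_I (e' := [0,0,1,0,0,0,0,-1]) (by decide +kernel) (by decide +kernel) ok104 ok113

noncomputable def t115 : Tre :=
  .Q [0,0,0,0,0,2,0,0,0,-1,1] (.p true [0,0,1] [1] (⟨0,[(34,0)]⟩,⟨0,[(33,0)]⟩) .k 1 (⟨0,[]⟩,⟨0,[]⟩)
  .k .k) t103 t114

theorem ok115 : chk K t115 l66 = true :=
  chk_Q (e' := [0,0,0,0,0,-2,0,0,0,1,-1]) (by decide +kernel) (by decide +kernel) ok103 ok114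

noncomputable def t117 : Tre :=
  .I [0,-1,0,0,1,0,0,-1] t115 t116

theorem ok117 : chk K t117 l65 = true :=
  chk_I (e' := [1,1,0,0,-1,0,0,1]) (by decide +kernel) (by decide +kernel) ok115 ok116

noncomputable def t119 : Tre :=
  .I [0,0,2,2,-1,0,0,1] t117 t118

theorem ok119 : chk K t119 r64 = true :=
  chk_I (e' := [1,0,-2,-2,1,0,0,-1]) (by decide +kernel) (by decide +kernel) ok117 ok118

noncomputable def t120 : Tre :=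
  .I [0,0,-2,-2,0,0,0,1] t102 t119

theorem ok120 : chk K t120 l63 = true :=
  chk_I (e' := [1,0,2,2,0,0,0,-1]) (by decide +kernel) (by decide +kernel) ok102 ok119

noncomputable def t122 : Tre :=
  .I [1,1,0,1,1,0,0,-2] t120 t121

theorem ok122 : chk K t122 l62 = true :=
  chk_I (e' := [0,-1,0,-1,-1,0,0,2]) (by decide +kernel) (by decide +kernel) ok120 ok121

noncomputable def t124 : Tre :=
  .Q [0,0,2,0,-1,0,-1,0,0,0,-1] (.p false [0,0,1] [] (⟨0,[(29,0)]⟩,⟨0,[(28,0)]⟩) .k 0 (⟨0,[]⟩,⟨0,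
  []⟩) .k .k) t122 t123

theorem ok124 : chk K t124 r61 = true :=
  chk_Q (e' := [0,0,-2,0,1,0,1,0,0,0,1]) (by decide +kernel) (by decide +kernel) ok122 ok123

noncomputable def t125 : Tre :=
  .Q [0,-1,0,-2,0,0,1,1,0,0,1] (.p true [0,0,1] [] (⟨0,[(28,0)]⟩,⟨0,[(27,0)]⟩) .k 0 (⟨0,[]⟩,⟨0,[]⟩)
  .k .k) t101 t124

theorem ok125 : chk K t125 r60 = true :=
  chk_Q (e' := [0,1,0,2,0,0,-1,-1,0,0,-1]) (by decide +kernel) (by decide +kernel) ok101 ok124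

noncomputable def t126 : Tre :=
  .Q [0,-1,0,-2,0,0,-1,-1,0,1,-1] (.p false [0,0,1] [1] (⟨0,[(27,0)]⟩,⟨0,[(26,0)]⟩) .k 1 (⟨0,[]⟩,⟨0,
  []⟩) .k .k) t100 t125

theorem ok126 : chk K t126 l59 = true :=
  chk_Q (e' := [0,1,0,2,0,0,1,1,0,-1,1]) (by decide +kernel) (by decide +kernel) ok100 ok125

noncomputable def t128 : Tre :=
  .Q [0,1,0,1,0,0,1,1,0,-1,1] (.p true [0,0,1] [1] (⟨0,[(26,0)]⟩,⟨0,[(25,0)]⟩) .k 1 (⟨0,[]⟩,⟨0,[]⟩)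
  .k .k) t126 t127

theorem ok128 : chk K t128 l58 = true :=
  chk_Q (e' := [0,-1,0,-1,0,0,-1,-1,0,1,-1]) (by decide +kernel) (by decide +kernel) ok126 ok127

noncomputable def t133 : Tre :=
  .I [1,1,0,0,0,0,0,-1] t131 t132

theorem ok133 : chk K t133 r74 = true :=
  chk_I (e' := [0,-1,0,0,0,0,0,1]) (by decide +kernel) (by decide +kernel) ok131 ok132

noncomputable def t134 : Tre :=
  .Q [0,-1,0,-2,0,0,-1,-1,0,1,-1] (.p false [0,0,1] [1] (⟨0,[(27,0)]⟩,⟨0,[(26,0)]⟩) .k 1 (⟨0,[]⟩,⟨0,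
  []⟩) .k .k) t130 t133

theorem ok134 : chk K t134 r73 = true :=
  chk_Q (e' := [0,1,0,2,0,0,1,1,0,-1,1]) (by decide +kernel) (by decide +kernel) ok130 ok133

noncomputable def t135 : Tre :=
  .Q [0,-1,0,-1,0,0,-1,-1,0,1,-1] (.p false [0,0,1] [1] (⟨0,[(26,0)]⟩,⟨0,[(25,0)]⟩) .k 1 (⟨0,[]⟩,⟨0,
  []⟩) .k .k) t129 t134

theorem ok135 : chk K t135 r58 = true :=
  chk_Q (e' := [0,1,0,1,0,0,1,1,0,-1,1]) (by decide +kernel) (by decide +kernel) ok129 ok134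

noncomputable def t136 : Tre :=
  .Q [0,0,1,0,-1,0,-1,0,0,1,-1] (.p false [0,0,1] [1] (⟨0,[(25,0)]⟩,⟨0,[(24,0)]⟩) .k 1 (⟨0,[]⟩,⟨0,
  []⟩) .k .k) t128 t135

theorem ok136 : chk K t136 r57 = true :=
  chk_Q (e' := [0,0,-1,0,1,0,1,0,0,-1,1]) (by decide +kernel) (by decide +kernel) ok128 ok135

noncomputable def t137 : Tre :=
  .I [0,-1,-2,-2,1] t99 t136

theorem ok137 : chk K t137 r56 = true :=
  chk_I (e' := [1,1,2,2,-1]) (by decide +kernel) (by decide +kernel) ok99 ok136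

noncomputable def t138 : Tre :=
  .Q [0,-1,0,1,1,0,0,0,0,-1] (.pp true [-1,1]) t98 t137

theorem ok138 : chk K t138 l55 = true :=
  chk_Q (e' := [0,1,0,-1,-1,0,0,0,0,1]) (by decide +kernel) (by decide +kernel) ok98 ok137

noncomputable def t140 : Tre :=
  .Q [0,1,0,-2,-1,0,0,0,0,1] (.pp false [-1,1]) t138 t139

theorem ok140 : chk K t140 r45 = true :=
  chk_Q (e' := [0,-1,0,2,1,0,0,0,0,-1]) (by decide +kernel) (by decide +kernel) ok138 ok139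

noncomputable def t141 : Tre :=
  .I [1,-1,-2,-1,1] t97 t140

theorem ok141 : chk K t141 l44 = true :=
  chk_I (e' := [0,1,2,1,-1]) (by decide +kernel) (by decide +kernel) ok97 ok140

noncomputable def t143 : Tre :=
  .Q [0,1,0,0,0,0,1,1,0,-1,1] (.p true [0,0,1] [1] (⟨0,[(20,0)]⟩,⟨0,[(19,0)]⟩) .k 1 (⟨0,[]⟩,⟨0,[]⟩)
  .k .k) t141 t142

theorem ok143 : chk K t143 l43 = true :=
  chk_Q (e' := [0,-1,0,0,0,0,-1,-1,0,1,-1]) (by decide +kernel) (by decide +kernel) ok141 ok142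

noncomputable def t145 : Tre :=
  .Q [0,0,0,0,0,0,1,1,0,0,1] (.p true [0,0,1] [] (⟨0,[(19,0)]⟩,⟨0,[(18,0)]⟩) .k 0 (⟨0,[]⟩,⟨0,[]⟩)
  .k .k) t143 t144

theorem ok145 : chk K t145 r5 = true :=
  chk_Q (e' := [0,0,0,0,0,0,-1,-1,0,0,-1]) (by decide +kernel) (by decide +kernel) ok143 ok144

noncomputable def t146 : Tre :=
  .Q [0,0,0,1,0,0,-1,-1,0,0,-1] (.p false [0,0,1] [] (⟨0,[(18,0)]⟩,⟨0,[(17,0)]⟩) .k 0 (⟨0,[]⟩,⟨0,
  []⟩) .k .k) t78 t145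

theorem ok146 : chk K t146 r4 = true :=
  chk_Q (e' := [0,0,0,-1,0,0,1,1,0,0,1]) (by decide +kernel) (by decide +kernel) ok78 ok145

noncomputable def t147 : Tre :=
  .Q [0,-1,0,-1,0,0,1,1,0,0,1] (.p true [0,0,1] [] (⟨0,[(17,0)]⟩,⟨0,[(16,0)]⟩) .k 0 (⟨0,[]⟩,⟨0,[]⟩)
  .k .k) t3 t146

theorem ok147 : chk K t147 l3 = true :=
  chk_Q (e' := [0,1,0,1,0,0,-1,-1,0,0,-1]) (by decide +kernel) (by decide +kernel) ok3 ok146

noncomputable def t149 : Tre :=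
  .Q [0,0,0,0,0,0,-1,0,0,0,-1] (.p false [0,0,1] [] (⟨0,[(16,0)]⟩,⟨0,[(15,0)]⟩) .k 0 (⟨0,[]⟩,⟨0,
  []⟩) .k .k) t147 t148

theorem ok149 : chk K t149 r2 = true :=
  chk_Q (e' := [0,0,0,0,0,0,1,0,0,0,1]) (by decide +kernel) (by decide +kernel) ok147 ok148

noncomputable def t150 : Tre :=
  .I [1,-1,-1,-1,0,0,0,-1] t2 t149

theorem ok150 : chk K t150 r1 = true :=
  chk_I (e' := [0,1,1,1,0,0,0,1]) (by decide +kernel) (by decide +kernel) ok2 ok149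

noncomputable def t151 : Tre :=
  .I [0,1,-1,-2,-1] t1 t150

theorem ok151 : chk K t151 r0 = true :=
  chk_I (e' := [1,-1,1,2,1]) (by decide +kernel) (by decide +kernel) ok1 ok150

noncomputable def t152 : Tre :=
  .I [1,1,-1,-1,-1,0,0,-1] t0 t151

theorem ok152 : chk K t152 base = true :=
  chk_I (e' := [0,-1,1,1,1,0,0,1]) (by decide +kernel) (by decide +kernel) ok0 ok151

theorem closed {p a b c J l q : ℤ} {D dl : ℝ} {Cl : ℤ → ℤ → ℤ → ℤ → ℝ → Prop}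
    (W : World p a b c J 1 l q D dl Cl) (g : G0 p a b c J D)
    {N X R : ℤ} {I : ℝ} (hk : KCl p l Cl N X R I) (kz : KF a b D (X + (1 : ℤ) * I) (X + (1 : ℤ) * I + R) I)
    {Ne Xe : ℤ} {Ie : ℝ} (he : EFac p 1 D Cl (a) Ne Xe Ie)
    (hkf : ∀ kf ∈ (kfY 1 [0,0,0,0,0,0,1,0,0,0,1]), KOk p l Cl 1
      (xv [1, a, b, c, p, J, X, R, Xe] [D, I, Ie]) N kf)
    (h0 : 1 ≤ -(c : ℝ))
    (h1 : 1 ≤ (a : ℝ) - (b : ℝ) + (c : ℝ))
    (h2 : 0 < -1 + (p : ℝ) - 2 * D)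
    (h3 : 0 < 3 - (p : ℝ) + 2 * D)
    (h4 : 0 < 1 + 3 * (J : ℝ) - D)
    (h5 : 1 ≤ 2 * (a : ℝ) - (b : ℝ))
    (h6 : 1 ≤ -2 + (J : ℝ))
    (h7 : 0 < -(b : ℝ) - (X : ℝ) + D - I)
    (h8 : 0 < -(J : ℝ) + I)
    (h9 : 0 < -(J : ℝ) + D - I)
    (h10 : 0 < -2 * (X : ℝ) + D - 2 * I) : False := by
  have g1 := g.a2
  have g2 := g.b2
  have g3 := g.pa
  have g4 := g.pb
  have g5 := g.J1
  have g6 := g.JD
  have g7 := g.D2
  have g8 := g.ca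
  have g9 := g.ca'
  have k1 := kz.I0
  have k2 := kz.ID
  have k3 := kz.z1
  have k4 := kz.z2
  have k5 := kz.s1
  have k6 := kz.s2
  have e1 := he.I0
  have e2 := he.ID
  have e3 := he.x0
  have e4 := he.xp
  push_cast at *
  refine (val_E W.toBase hk he (row := [0,1]) (by simp) (by simp) (kfY 1 [0,0,0,0,0,0,1,0,0,0,1])).sound W rfl (Nk := N)
    (fun kf _ _ => ⟨_, rfl⟩) hkf ?_ ok152
  · simp only [base, List.forall_mem_cons, List.not_mem_nil, false_imp_iff, implies_true,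
      and_true, hld, xv, evg_cons, evg_nil, List.map_cons, List.map_nil, List.cons_append,
      List.nil_append, if_true, if_false, Bool.false_eq_true]
    push_cast
    refine ⟨?_, ?_, ?_, ?_, ?_, ?_, ?_, ?_, ?_, ?_, ?_, ?_, ?_, ?_, ?_, ?_, ?_, ?_, ?_, ?_, ?_, ?_, ?_, ?_, ?_, ?_, ?_, ?_, ?_⟩ <;> linarith

end Helper25.S1T.Ymp_1cP3
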