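import Pool.Agent.Helper25.S1T.Ymp_1cP3_q

set_option autoImplicit false
set_option linter.all false

namespace Helper25.S1T.Ymp_1cP3

open Helper25.KG Helper25.KW Helper55.KE Helper11.CT

noncomputable def t0 : Tre :=
  (.Q [0,0,0,0,0,0,1,0,0,0,1] (.p true [0,0,1] [] (⟨0,[(14,0)]⟩,⟨0,[(13,0)]⟩) .k 0 (⟨0,[]⟩,⟨0,[]⟩)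
  .k .k) (.R ⟨2,true,false,true,[0,1],[0,1,1],[0,1,1],(⟨0,[]⟩,⟨0,[]⟩),(⟨22,[(5,2),(0,2),(8,22),(0,
  4),(4,5),(0,2)]⟩,⟨0,[(3,0)]⟩),⟨0,[]⟩,.k,.k,.k,.k,.k,.k,⟨false,0,⟨3,[(1,2),(9,0),(0,0),(13,0),(0,
  0),(0,1)]⟩,⟨0,[(10,0),(2,0),(10,0),(3,0)]⟩⟩,⟨true,0,⟨0,[(0,0)]⟩,⟨0,[(13,0)]⟩⟩,⟨false,0,⟨0,[(26,
  0)]⟩,⟨0,[(25,0),(2,0)]⟩⟩,⟨true,0,⟨0,[(10,0)]⟩,⟨0,[(1,0),(11,0),(11,0),(2,0)]⟩⟩,⟨true,0,⟨0,[(30,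
  0)]⟩,⟨0,[]⟩⟩,⟨false,1,⟨0,[(10,0),(14,0),(2,0)]⟩,⟨0,[(1,0),(11,0),(14,0)]⟩⟩,[]⟩) (.R ⟨2,true,false,
  true,[0,1],[1,0,-1],[1,1,0,0,0,0,0,-1],(⟨0,[]⟩,⟨0,[]⟩),(⟨0,[(14,0)]⟩,⟨0,[(15,0)]⟩),⟨0,[]⟩,.k,.k,
  .k,.k,.k,.k,⟨true,0,⟨0,[]⟩,⟨1,[(12,0),(0,0)]⟩⟩,⟨false,0,⟨5,[(2,2),(2,0),(0,0),(9,0),(1,0),(3,0)]⟩,
  ⟨3,[(1,1),(8,1),(1,1),(10,1),(0,1),(2,0),(0,2)]⟩⟩,⟨true,(-1),⟨0,[(1,0)]⟩,⟨0,[(10,0),(2,0),(11,0),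
  (2,0)]⟩⟩,⟨false,(-1),⟨1,[(0,0),(0,1),(11,0),(8,0),(5,0),(0,0)]⟩,⟨1,[(10,1),(12,0),(1,1),(2,2)]⟩⟩,
  ⟨false,0,⟨0,[(1,0),(23,0),(2,0)]⟩,⟨0,[(10,0),(2,0),(14,0)]⟩⟩,⟨true,(-1),⟨1,[(1,1),(11,1),(8,0),(2,
  1),(2,0)]⟩,⟨1,[(10,1),(12,0),(4,0)]⟩⟩,[]⟩))

theorem ok0 : chk K t0 l0 = true := by decide +kernel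

noncomputable def t1 : Tre :=
  (.R ⟨2,true,false,true,[0,1],[1,-1],[0,1,0,-1],(⟨0,[]⟩,⟨0,[]⟩),(⟨0,[(18,0)]⟩,⟨0,[(19,0)]⟩),⟨0,[]⟩,
  .k,.k,.k,(.r (-1) ⟨0,[(12,0),(0,0),(11,1),(2,0)]⟩ ⟨1,[(0,1),(26,0),(0,0)]⟩),.k,.k,⟨true,0,⟨1,[(12,
  0),(0,0)]⟩,⟨0,[]⟩⟩,⟨false,0,⟨5,[(2,2),(2,0),(0,0),(5,5),(3,0),(1,0),(3,0)]⟩,⟨3,[(0,1),(22,1),(0,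
  3),(2,0),(0,2)]⟩⟩,⟨true,(-1),⟨0,[(0,0)]⟩,⟨1,[(12,0),(0,0),(11,3),(2,1)]⟩⟩,⟨false,(-1),⟨1,[(0,1),
  (11,0),(0,0),(8,0),(5,0)]⟩,⟨1,[(23,0),(1,3),(2,2)]⟩⟩,⟨false,0,⟨3,[(0,1),(26,0),(0,0)]⟩,⟨1,[(12,0),
  (0,0),(11,1),(2,1)]⟩⟩,⟨true,(-1),⟨3,[(0,1),(11,0),(0,0),(8,1),(7,1)]⟩,⟨1,[(23,0),(1,1),(2,0)]⟩⟩,
  []⟩)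

theorem ok1 : chk K t1 l1 = true := by decide +kernel

noncomputable def t2 : Tre :=
  (.Q [0,0,0,0,0,0,1,0,0,0,1] (.p true [0,0,1] [] (⟨0,[(16,0)]⟩,⟨0,[(15,0)]⟩) .k 0 (⟨0,[]⟩,⟨0,[]⟩)
  .k .k) (.R ⟨2,true,false,true,[0,1],[0,1,1],[0,1,1],(⟨0,[]⟩,⟨0,[]⟩),(⟨22,[(7,2),(0,2),(8,22),(0,
  4),(4,5),(0,2)]⟩,⟨0,[(5,0)]⟩),⟨0,[]⟩,.k,.k,.k,.k,.k,.k,⟨false,0,⟨5,[(1,4),(11,0),(0,0),(7,1),(5,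
  0)]⟩,⟨15,[(3,11),(0,1),(7,3),(9,1),(2,0),(0,3),(2,2)]⟩⟩,⟨true,0,⟨0,[(0,0)]⟩,⟨0,[(15,0)]⟩⟩,⟨false,
  0,⟨0,[(28,0)]⟩,⟨3,[(2,1),(26,0),(0,0)]⟩⟩,⟨true,0,⟨0,[(12,0)]⟩,⟨0,[(1,0),(13,0),(11,0)]⟩⟩,⟨true,0,
  ⟨0,[(32,0)]⟩,⟨0,[]⟩⟩,⟨false,1,⟨3,[(2,1),(9,3),(16,0),(0,0)]⟩,⟨0,[(1,0),(13,0)]⟩⟩,[]⟩) (.Q [0,0,0,
  1,0,0,-1,-1,0,0,-1] (.p false [0,0,1] [] (⟨0,[(17,0)]⟩,⟨0,[(16,0)]⟩) .k 0 (⟨0,[]⟩,⟨0,[]⟩) .k .k)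
  (.R ⟨1,false,false,false,[1,0,-1],[1,-1],[0,1,1],(⟨0,[(17,0)]⟩,⟨0,[(18,0)]⟩),(⟨0,[(21,0)]⟩,⟨0,
  [(22,0)]⟩),⟨0,[(6,0)]⟩,.k,.k,.k,.k,.k,.k,⟨false,0,⟨1,[(15,0),(0,0),(11,1)]⟩,⟨1,[(1,1),(0,1),(10,
  1),(16,0),(0,0)]⟩⟩,⟨true,0,⟨0,[(15,0)]⟩,⟨0,[(1,0)]⟩⟩,⟨true,0,⟨0,[(13,0),(2,0)]⟩,⟨0,[(2,0),(25,
  0)]⟩⟩,⟨false,1,⟨0,[(13,0),(15,0),(1,0)]⟩,⟨0,[(0,0)]⟩⟩,⟨false,1,⟨0,[(4,0),(28,0)]⟩,⟨0,[(2,0)]⟩⟩,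
  ⟨false,1,⟨0,[(13,0),(17,0)]⟩,⟨2,[(0,0),(1,0),(11,0),(1,0)]⟩⟩,[.o ⟨false,0,⟨0,[(29,0)]⟩,⟨13,[(3,5),
  (19,1),(2,6),(0,1),(2,0)]⟩⟩,.a ⟨true,0,⟨1,[(25,0),(3,1),(1,0)]⟩,⟨0,[(28,0)]⟩⟩ ⟨true,0,⟨1,[(15,0),
  (0,0)]⟩,⟨0,[]⟩⟩ ⟨false,1,⟨1,[(2,0),(10,0),(1,0),(13,0),(0,0),(0,0)]⟩,⟨0,[(1,0),(26,0)]⟩⟩,.o
  ⟨false,0,⟨0,[(1,0)]⟩,⟨1,[(15,1),(10,0),(3,0)]⟩⟩,.o ⟨false,0,⟨0,[(16,0)]⟩,⟨3,[(2,2),(0,0),(9,2),(1,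
  0),(10,1),(0,0),(2,0)]⟩⟩]⟩) (.R ⟨2,true,false,true,[0,1],[0,0,1],[0,0,1],(⟨0,[]⟩,⟨0,[]⟩),(⟨0,[(18,
  0)]⟩,⟨0,[(17,0)]⟩),⟨0,[]⟩,.k,.k,.k,.k,.k,.k,⟨false,1,⟨11,[(2,3),(0,1),(10,7),(0,7),(14,2),(0,6)]⟩,
  ⟨0,[(0,0),(0,0),(25,0)]⟩⟩,⟨true,0,⟨0,[(15,0)]⟩,⟨0,[(1,0)]⟩⟩,⟨true,0,⟨0,[(29,0)]⟩,⟨0,[(28,0)]⟩⟩,
  ⟨false,0,⟨0,[(0,0)]⟩,⟨18,[(2,11),(0,14),(1,5),(8,6),(11,2),(0,0),(2,0)]⟩⟩,⟨false,1,⟨1,[(8,0),(0,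
  0),(21,0)]⟩,⟨0,[]⟩⟩,⟨true,0,⟨0,[(13,0)]⟩,⟨0,[(2,0),(13,0),(11,0)]⟩⟩,[]⟩)))

theorem ok2 : chk K t2 l2 = true := by decide +kernel

noncomputable def t3 : Tre :=
  (.R ⟨2,true,false,false,[0,1],[0,0,1],[0,0,1],(⟨0,[]⟩,⟨0,[]⟩),(⟨0,[(18,0)]⟩,⟨0,[(17,0)]⟩),⟨0,[]⟩,
  .k,.k,.k,.k,.k,.k,⟨false,1,⟨1,[(14,1),(0,1),(14,0),(0,0)]⟩,⟨0,[(0,0),(0,0),(25,0)]⟩⟩,⟨true,0,⟨0,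
  [(15,0)]⟩,⟨0,[(1,0)]⟩⟩,⟨true,0,⟨0,[(29,0)]⟩,⟨0,[(28,0)]⟩⟩,⟨false,0,⟨0,[(0,0)]⟩,⟨3,[(3,1),(10,3),
  (15,0),(0,0)]⟩⟩,⟨false,1,⟨1,[(8,0),(0,0),(21,0)]⟩,⟨0,[]⟩⟩,⟨true,0,⟨3,[(0,2),(1,0),(12,0),(11,1)]⟩,
  ⟨0,[(14,0)]⟩⟩,[]⟩)

theorem ok3 : chk K t3 l4 = true := by decide +kernel

noncomputable def t4 : Tre :=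
  (.S ⟨1,0,[0,0,0,-1,0,0,0,1],[0,0,1],[1,1,0,0,0,0,0,1],(⟨0,[(21,0)]⟩,⟨0,[(20,0)]⟩),⟨0,[(10,0)]⟩,.k,
  .k,⟨false,0,⟨0,[]⟩,⟨1,[(11,0),(0,0),(21,0)]⟩⟩,⟨true,0,⟨0,[(32,0)]⟩,⟨0,[(31,0)]⟩⟩,⟨true,0,⟨0,[(31,
  0)]⟩,⟨0,[(32,0)]⟩⟩,⟨false,1,⟨1,[(11,0),(0,0),(21,0)]⟩,⟨0,[]⟩⟩,[.o ⟨false,1,⟨1,[(16,1),(12,0),(2,
  1),(1,0)]⟩,⟨0,[(2,0)]⟩⟩,.e ⟨false,1,⟨1,[(0,0),(6,0),(24,0),(0,0)]⟩,⟨0,[(1,0)]⟩⟩ ⟨false,1,⟨0,[(0,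
  0),(31,0),(1,0)]⟩,⟨0,[(1,0),(29,0)]⟩⟩,.o ⟨false,1,⟨1,[(18,1),(10,0),(3,0)]⟩,⟨0,[(4,0)]⟩⟩,.a ⟨true,
  0,⟨0,[(18,0)]⟩,⟨0,[(15,0)]⟩⟩ ⟨true,0,⟨0,[(0,0)]⟩,⟨1,[(1,1),(16,0),(0,0)]⟩⟩ ⟨false,1,⟨0,[(0,0),(31,
  0),(1,0)]⟩,⟨0,[(2,0),(15,0)]⟩⟩]⟩)

theorem ok4 : chk K t4 l7 = true := by decide +kernel

noncomputable def t5 : Tre :=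
  (.S ⟨1,0,[0,0,1,0,0,0,0,-1],[1,1,-1],[1,1,1,1,0,0,0,-1],(⟨22,[(12,2),(0,2),(7,22),(1,4),(4,5),(0,
  2)]⟩,⟨0,[(11,0)]⟩),⟨0,[(21,0)]⟩,.k,.k,⟨false,0,⟨0,[]⟩,⟨1,[(12,0),(0,0),(21,0)]⟩⟩,⟨true,0,⟨0,[(33,
  0)]⟩,⟨0,[(32,0)]⟩⟩,⟨true,0,⟨0,[(32,0)]⟩,⟨0,[(33,0)]⟩⟩,⟨false,1,⟨1,[(12,0),(0,0),(21,0)]⟩,⟨0,[]⟩⟩,
  [.o ⟨false,0,⟨0,[(2,0),(2,0)]⟩,⟨1,[(17,1),(12,0),(4,0)]⟩⟩,.a ⟨true,0,⟨0,[(1,0),(14,0)]⟩,⟨0,[(17,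
  0)]⟩⟩ ⟨false,0,⟨0,[(1,0),(29,0)]⟩,⟨0,[(0,0),(36,0)]⟩⟩ ⟨true,0,⟨0,[(1,0)]⟩,⟨0,[(5,0),(11,0)]⟩⟩,.e
  ⟨false,0,⟨0,[(1,0),(30,0)]⟩,⟨0,[(0,0)]⟩⟩ ⟨false,0,⟨0,[(1,0)]⟩,⟨1,[(0,0),(5,0),(27,0)]⟩⟩,.o ⟨false,
  0,⟨0,[(5,0)]⟩,⟨1,[(19,1),(10,0),(3,0)]⟩⟩]⟩)

theorem ok5 : chk K t5 l8 = true := by decide +kernel

noncomputable def t6 : Tre :=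
  (.R ⟨1,false,false,false,[1,0,-1],[1,-1],[0,0,0,-1,0,0,0,-1],(⟨0,[(22,0)]⟩,⟨0,[(23,0)]⟩),(⟨0,[(26,
  0)]⟩,⟨0,[(27,0)]⟩),⟨0,[(11,0)]⟩,.k,.k,.k,.k,.k,.k,⟨false,0,⟨0,[(3,0)]⟩,⟨1,[(6,1),(11,1),(16,0),(0,
  0)]⟩⟩,⟨true,0,⟨0,[(20,0)]⟩,⟨0,[(6,0)]⟩⟩,⟨true,0,⟨0,[(34,0)]⟩,⟨0,[(33,0)]⟩⟩,⟨false,1,⟨0,[(18,0),
  (15,0),(1,0)]⟩,⟨0,[(4,0)]⟩⟩,⟨false,1,⟨1,[(13,0),(0,0),(21,0)]⟩,⟨0,[]⟩⟩,⟨false,1,⟨0,[(18,0),(17,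
  0)]⟩,⟨2,[(0,0),(3,0),(1,0),(12,0)]⟩⟩,[.o ⟨false,0,⟨0,[(34,0)]⟩,⟨13,[(8,5),(19,1),(2,6),(0,1),(2,
  0)]⟩⟩,.a ⟨true,0,⟨1,[(30,0),(3,1),(1,0)]⟩,⟨0,[(33,0)]⟩⟩ ⟨true,0,⟨0,[(0,0)]⟩,⟨0,[(7,0)]⟩⟩ ⟨false,1,
  ⟨1,[(0,1),(17,1),(16,0),(0,0)]⟩,⟨2,[(5,0),(0,1),(0,0),(24,0)]⟩⟩,.o ⟨false,0,⟨0,[(6,0)]⟩,⟨1,[(20,
  1),(10,0),(3,0)]⟩⟩,.o ⟨false,0,⟨0,[(21,0)]⟩,⟨1,[(0,1),(17,1),(12,0),(0,1),(3,0)]⟩⟩]⟩)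

theorem ok6 : chk K t6 l9 = true := by decide +kernel

noncomputable def t7 : Tre :=
  (.I [1,0,-1,0,0,0,0,-1] (.Q [0,0,0,0,0,2,0,0,0,-1,1] (.p true [0,0,1] [1] (⟨0,[(27,0)]⟩,⟨0,[(26,
  0)]⟩) .k 1 (⟨0,[]⟩,⟨0,[]⟩) .k .k) (.K ⟨0,[1,-1,-1],(-1),(-1),(⟨0,[(16,0)]⟩,⟨22,[(18,2),(0,2),(8,
  22),(0,4),(4,5),(0,2)]⟩),.k,(.x 1 ⟨0,[(0,0),(2,0)]⟩ ⟨0,[(4,0),(11,0),(14,0),(4,0)]⟩),.k,(.r 0 ⟨0,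
  [(1,0),(6,0),(30,0)]⟩ ⟨0,[(11,0),(2,0),(8,0)]⟩),.k,[⟨0,[(2,0)]⟩,⟨0,[(3,0)]⟩,⟨11,[(2,1),(2,2),(7,
  3),(0,0),(8,7),(9,2),(2,4)]⟩,⟨2,[(1,1),(1,0),(2,0),(4,1),(21,0),(1,0),(3,3)]⟩]⟩) (.I [0,0,2,2,0,0,
  0,1] (.K ⟨0,[1,-1,-1],(-1),(-1),(⟨0,[(17,0)]⟩,⟨22,[(19,2),(0,2),(8,22),(0,4),(4,5),(0,2)]⟩),.k,
  (.r (-1) ⟨3,[(2,1),(2,1),(19,1),(14,7),(0,0),(0,0)]⟩ ⟨0,[(0,0)]⟩),.k,(.r 0 ⟨0,[(2,0),(6,0),(30,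
  0)]⟩ ⟨0,[(12,0),(2,0),(8,0)]⟩),.k,[⟨0,[(3,0)]⟩,⟨0,[(4,0)]⟩,⟨11,[(3,1),(2,2),(7,3),(0,0),(8,7),(9,
  2),(2,4)]⟩,⟨2,[(2,1),(1,0),(2,0),(4,1),(21,0),(1,0),(3,3)]⟩]⟩) (.I [0,0,2,0,-1,2,-1] (.K ⟨0,[1,-1,
  -1],(-1),(-1),(⟨0,[(18,0)]⟩,⟨1,[(0,0),(5,0),(23,0)]⟩),.k,(.x 1 ⟨0,[(0,0)]⟩ ⟨1,[(2,1),(3,1),(13,0),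
  (0,0),(16,0)]⟩),.k,(.r 0 ⟨1,[(1,0),(8,2)]⟩ ⟨0,[(13,0),(2,0),(8,0)]⟩),.k,[⟨0,[(4,0)]⟩,⟨0,[(5,0)]⟩,
  ⟨11,[(4,1),(2,2),(7,3),(0,0),(8,7),(9,2),(2,4)]⟩,⟨9,[(1,5),(3,6),(2,1),(15,0),(1,1),(8,2),(1,
  0)]⟩]⟩) (.I [0,0,-2,-2,0,0,0,-1] (.K ⟨0,[1,-1,-1],(-1),(-1),(⟨0,[(19,0)]⟩,⟨22,[(21,2),(0,2),(8,
  22),(0,4),(4,5),(0,2)]⟩),.k,(.r 0 ⟨0,[(0,0)]⟩ ⟨2,[(15,1),(0,0),(0,1),(9,0),(0,0)]⟩),.k,(.r 0 ⟨1,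
  [(2,0),(8,2)]⟩ ⟨0,[(14,0),(2,0),(8,0)]⟩),.k,[⟨0,[(5,0)]⟩,⟨0,[(6,0)]⟩,⟨11,[(5,1),(2,2),(7,3),(0,0),
  (8,7),(9,2),(2,4)]⟩,⟨22,[(0,1),(1,11),(3,14),(2,4),(8,1),(8,3),(8,6),(1,2)]⟩]⟩) (.Q [0,0,2,0,0,0,
  1,0,0,-1,1] (.p true [0,0,1] [1] (⟨0,[(31,0)]⟩,⟨0,[(30,0)]⟩) .k 1 (⟨0,[]⟩,⟨0,[]⟩) .k .k) (.R ⟨0,
  false,false,true,[0,-1,1],[1,-1],[0,0,-1,-1,0,0,0,1],(⟨0,[(21,0)]⟩,⟨22,[(22,2),(0,2),(7,22),(1,4),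
  (4,5),(0,2)]⟩),(⟨0,[(35,0)]⟩,⟨0,[(36,0)]⟩),⟨2,[(4,0),(15,1),(12,0),(4,2)]⟩,.k,.k,(.r (-1) ⟨0,[(3,
  0),(11,1),(11,1),(17,0)]⟩ ⟨12,[(0,0),(6,0),(2,7),(0,1),(5,8),(10,2),(0,2)]⟩),.k,.k,.k,⟨true,1,⟨0,
  [(15,0),(11,0),(17,0)]⟩,⟨21,[(0,4),(2,7),(3,6),(2,15),(16,1),(9,1),(2,0)]⟩⟩,⟨false,0,⟨0,[(26,0)]⟩,
  ⟨4,[(0,0),(5,1),(15,1),(0,1),(16,0)]⟩⟩,⟨false,1,⟨1,[(22,0),(0,0),(21,0)]⟩,⟨0,[]⟩⟩,⟨true,(-1),⟨19,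
  [(3,5),(3,6),(2,11),(15,10),(1,1),(8,2),(1,0)]⟩,⟨1,[(27,1),(12,0),(4,0)]⟩⟩,⟨false,0,⟨0,[]⟩,⟨0,
  []⟩⟩,⟨false,0,⟨0,[]⟩,⟨0,[]⟩⟩,[.e ⟨false,1,⟨0,[(3,0),(5,0),(5,0),(11,0),(17,0)]⟩,⟨5,[(10,1),(0,0),
  (0,1),(4,1),(10,0),(0,0)]⟩⟩ ⟨false,0,⟨4,[(3,2),(5,0),(9,1),(6,2),(0,1),(9,0)]⟩,⟨15,[(0,3),(0,3),
  (4,5),(3,3),(6,1),(22,2),(4,8)]⟩⟩,.o ⟨false,0,⟨0,[(43,0)]⟩,⟨13,[(17,5),(19,1),(2,6),(0,1),(2,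
  0)]⟩⟩,.a ⟨true,0,⟨0,[(29,0)]⟩,⟨0,[(26,0)]⟩⟩ ⟨true,1,⟨3,[(3,1),(11,1),(3,1),(7,5),(12,0),(4,2)]⟩,
  ⟨0,[(10,0)]⟩⟩ ⟨false,0,⟨0,[(26,0),(16,0)]⟩,⟨15,[(0,3),(0,3),(4,5),(3,3),(6,1),(22,2),(4,8)]⟩⟩,.o
  ⟨false,0,⟨0,[(0,0)]⟩,⟨0,[(15,0),(28,0)]⟩⟩]⟩) (.Q [0,-1,-2,-1,0,0,-2,-1,0,1,-2] (.p false [0,0,1]
  [1,0,-1] (⟨0,[(32,0)]⟩,⟨0,[(31,0)]⟩) .k 2 (⟨0,[(31,0)]⟩,⟨0,[(32,0)]⟩) .k (.r (-1) ⟨0,[(15,1),(11,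
  1),(17,0)]⟩ ⟨0,[(12,1)]⟩)) (.R ⟨0,false,false,false,[0,-1,1],[1,-1,-1],[1,0,-1,-1,0,0,0,-1],(⟨0,
  [(22,0)]⟩,⟨22,[(23,2),(0,2),(7,22),(1,4),(4,5),(0,2)]⟩),(⟨0,[(21,0)]⟩,⟨22,[(23,2),(0,2),(8,22),(0,
  4),(4,5),(0,2)]⟩),⟨2,[(5,0),(15,1),(12,0),(4,2)]⟩,.k,.k,(.r (-1) ⟨1,[(1,1),(26,1),(12,0),(2,3),(1,
  0)]⟩ ⟨18,[(8,1),(2,11),(0,2),(5,12),(10,3),(0,5),(10,0)]⟩),.k,.k,.k,⟨true,0,⟨0,[]⟩,⟨1,[(30,0),(0,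
  0)]⟩⟩,⟨false,0,⟨1,[(1,0),(14,0),(3,0)]⟩,⟨5,[(7,3),(15,0),(0,0),(5,3),(10,0)]⟩⟩,⟨false,0,⟨0,[(6,0),
  (5,0)]⟩,⟨0,[(16,1),(11,1),(17,0)]⟩⟩,⟨true,(-1),⟨3,[(0,2),(7,0),(2,2),(0,0),(16,0)]⟩,⟨1,[(28,3),
  (12,0),(4,0)]⟩⟩,⟨false,0,⟨0,[]⟩,⟨0,[]⟩⟩,⟨false,0,⟨0,[]⟩,⟨0,[]⟩⟩,[.o ⟨false,0,⟨3,[(4,1),(7,0),(16,
  0),(1,2)]⟩,⟨3,[(2,1),(0,1),(18,1),(5,1),(10,1),(1,0),(4,0)]⟩⟩,.e ⟨false,1,⟨13,[(0,1),(3,5),(4,5),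
  (3,3),(15,1),(11,0),(4,6)]⟩,⟨0,[(17,0)]⟩⟩ ⟨false,0,⟨0,[(0,0)]⟩,⟨4,[(7,0),(9,0),(0,1),(9,3),(1,3),
  (7,0),(2,1)]⟩⟩,.a ⟨true,0,⟨0,[(30,0)]⟩,⟨0,[(27,0)]⟩⟩ ⟨true,0,⟨1,[(4,0),(8,0)]⟩,⟨0,[(17,0)]⟩⟩
  ⟨false,0,⟨8,[(0,4),(3,1),(3,0),(3,1),(7,2),(10,0),(14,0)]⟩,⟨3,[(2,1),(4,1),(20,1),(1,1),(10,0),(4,
  0)]⟩⟩,.e ⟨false,1,⟨13,[(0,1),(3,5),(4,5),(3,3),(15,1),(11,0),(4,6)]⟩,⟨3,[(2,1),(5,1),(19,1),(12,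
  0),(4,0)]⟩⟩ ⟨false,0,⟨0,[(0,0)]⟩,⟨11,[(2,2),(4,1),(10,0),(0,3),(8,4),(1,14),(10,4)]⟩⟩]⟩) (.R ⟨0,
  false,false,false,[0,-1,1],[1,-1,-1],[1,0,-1,-1,0,0,0,-1],(⟨0,[(22,0)]⟩,⟨22,[(23,2),(0,2),(7,22),
  (1,4),(4,5),(0,2)]⟩),(⟨0,[(21,0)]⟩,⟨22,[(23,2),(0,2),(8,22),(0,4),(4,5),(0,2)]⟩),⟨2,[(5,0),(15,1),
  (12,0),(4,2)]⟩,.k,.k,(.r (-1) ⟨1,[(1,1),(26,1),(12,0),(2,3),(1,0)]⟩ ⟨11,[(0,0),(7,0),(2,6),(0,2),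
  (5,7),(10,2),(0,1)]⟩),.k,.k,.k,⟨true,0,⟨0,[]⟩,⟨1,[(30,0),(0,0)]⟩⟩,⟨false,0,⟨1,[(1,0),(14,0),(3,
  0)]⟩,⟨5,[(7,3),(15,0),(0,0),(5,3),(10,0)]⟩⟩,⟨false,0,⟨0,[(6,0),(5,0)]⟩,⟨0,[(16,1),(11,1),(17,
  0)]⟩⟩,⟨true,(-1),⟨1,[(1,0),(2,0),(3,0),(2,0),(0,0),(1,0),(1,0)]⟩,⟨1,[(28,3),(12,0),(4,0)]⟩⟩,
  ⟨false,0,⟨0,[]⟩,⟨0,[]⟩⟩,⟨false,0,⟨0,[]⟩,⟨0,[]⟩⟩,[.o ⟨false,0,⟨3,[(4,1),(7,0),(16,0),(1,2)]⟩,⟨5,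
  [(0,1),(2,1),(6,3),(11,1),(16,1),(1,0),(4,2)]⟩⟩,.a ⟨true,0,⟨3,[(4,1),(3,1),(20,1),(10,0),(5,2)]⟩,
  ⟨0,[(0,0),(0,0)]⟩⟩ ⟨false,1,⟨4,[(4,2),(4,1),(4,0),(14,0),(16,2)]⟩,⟨0,[(17,0)]⟩⟩ ⟨true,0,⟨5,[(1,1),
  (2,3),(3,2),(5,1),(1,2),(3,0),(25,2)]⟩,⟨0,[(0,0)]⟩⟩,.a ⟨true,0,⟨0,[(30,0)]⟩,⟨0,[(27,0)]⟩⟩ ⟨true,0,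
  ⟨1,[(4,0),(8,0)]⟩,⟨0,[(17,0)]⟩⟩ ⟨false,0,⟨5,[(1,1),(2,3),(3,2),(5,1),(1,2),(3,0),(25,2)]⟩,⟨1,[(0,
  0),(6,0),(11,0)]⟩⟩,.a ⟨true,0,⟨1,[(30,2),(0,0)]⟩,⟨0,[(1,0)]⟩⟩ ⟨false,1,⟨4,[(4,2),(4,1),(4,0),(14,
  0),(16,2)]⟩,⟨3,[(2,1),(5,1),(19,1),(12,0),(4,0)]⟩⟩ ⟨true,0,⟨2,[(1,0),(2,1),(9,0),(5,1)]⟩,⟨0,[(0,
  0)]⟩⟩]⟩))))))) (.S ⟨1,0,[0,1,1,0,0,0,0,1],[0,1,1],[0,0,1,0,0,0,0,1],(⟨22,[(17,2),(0,2),(8,22),(0,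
  4),(4,5),(0,2)]⟩,⟨0,[(15,0)]⟩),⟨0,[(27,0)]⟩,.k,.k,⟨true,0,⟨0,[(38,0)]⟩,⟨0,[(37,0)]⟩⟩,⟨false,0,⟨0,
  [(38,0)]⟩,⟨3,[(12,1),(26,0),(0,0)]⟩⟩,⟨false,1,⟨1,[(17,0),(0,0),(21,0)]⟩,⟨0,[]⟩⟩,⟨true,0,⟨0,[(42,
  0)]⟩,⟨0,[]⟩⟩,[.a ⟨true,0,⟨0,[(22,0)]⟩,⟨0,[(6,0),(14,0)]⟩⟩ ⟨true,0,⟨0,[(0,0)]⟩,⟨0,[(7,0)]⟩⟩ ⟨false,
  0,⟨0,[(10,0),(11,0)]⟩,⟨1,[(7,1),(31,0),(0,0)]⟩⟩,.o ⟨false,1,⟨1,[(22,1),(12,0),(4,0)]⟩,⟨0,[(7,0),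
  (2,0)]⟩⟩,.o ⟨false,1,⟨2,[(1,0),(1,0),(31,0)]⟩,⟨0,[(25,0)]⟩⟩,.o ⟨false,1,⟨2,[(1,0),(15,0),(0,0),(5,
  0),(10,0)]⟩,⟨0,[(10,0)]⟩⟩]⟩))

theorem ok7 : chk K t7 l12 = true := by decide +kernel

noncomputable def t8 : Tre :=
  (.Q [0,0,0,0,0,2,0,0,0,-1,1] (.p true [0,0,1] [1] (⟨0,[(27,0)]⟩,⟨0,[(26,0)]⟩) .k 1 (⟨0,[]⟩,⟨0,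
  []⟩) .k .k) (.R ⟨0,false,false,true,[1,-1,-1],[1,-1],[1,1],(⟨0,[(16,0)]⟩,⟨22,[(18,2),(0,2),(8,22),
  (0,4),(4,5),(0,2)]⟩),(⟨0,[(31,0)]⟩,⟨0,[(32,0)]⟩),⟨0,[(0,0)]⟩,.k,.k,(.r (-1) ⟨0,[(8,0),(30,1),(0,
  0)]⟩ ⟨1,[(1,1),(4,0),(7,0),(8,1)]⟩),.k,.k,.k,⟨true,0,⟨1,[(6,0),(7,0)]⟩,⟨0,[(39,0)]⟩⟩,⟨false,1,⟨2,
  [(4,1),(13,0),(0,0),(5,0)]⟩,⟨0,[(11,0)]⟩⟩,⟨false,0,⟨0,[(1,0),(21,0)]⟩,⟨1,[(8,1),(30,1),(0,0),(0,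
  0)]⟩⟩,⟨true,0,⟨0,[(23,0)]⟩,⟨0,[(8,0),(2,0)]⟩⟩,⟨false,0,⟨0,[]⟩,⟨0,[]⟩⟩,⟨false,0,⟨0,[]⟩,⟨0,[]⟩⟩,[.e
  ⟨false,0,⟨0,[(37,0),(1,0)]⟩,⟨1,[(18,0),(0,0),(21,0)]⟩⟩ ⟨false,1,⟨5,[(4,4),(13,0),(0,0),(5,0),(7,
  2),(5,5)]⟩,⟨0,[(1,0)]⟩⟩,.o ⟨false,0,⟨0,[(39,0)]⟩,⟨13,[(13,5),(19,1),(2,6),(0,1),(2,0)]⟩⟩,.e
  ⟨false,0,⟨0,[]⟩,⟨1,[(18,0),(0,0),(21,0)]⟩⟩ ⟨false,1,⟨2,[(4,1),(13,0),(0,0),(5,0),(13,2)]⟩,⟨0,[(1,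
  0)]⟩⟩,.a ⟨true,(-1),⟨0,[(3,0)]⟩,⟨0,[(4,0)]⟩⟩ ⟨true,0,⟨0,[(37,0),(1,0)]⟩,⟨1,[(25,0),(0,0)]⟩⟩
  ⟨false,1,⟨0,[(4,0),(34,0)]⟩,⟨8,[(1,5),(1,3),(3,0),(5,0),(0,0),(10,0),(10,1)]⟩⟩]⟩) (.Q [0,-1,0,-1,
  0,0,-1,-1,0,0,-1] (.p false [0,0,1] [] (⟨0,[(28,0)]⟩,⟨0,[(27,0)]⟩) .k 0 (⟨0,[]⟩,⟨0,[]⟩) .k .k)
  (.R ⟨2,true,false,true,[0,1],[0,1,1],[0,1,1],(⟨0,[]⟩,⟨0,[]⟩),(⟨22,[(19,2),(0,2),(8,22),(0,4),(4,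
  5),(0,2)]⟩,⟨0,[(17,0)]⟩),⟨0,[]⟩,.k,.k,.k,.k,.k,.k,⟨true,0,⟨0,[(9,0),(30,0)]⟩,⟨0,[(2,0),(21,0)]⟩⟩,
  ⟨false,1,⟨2,[(5,1),(13,0),(0,0),(5,0)]⟩,⟨0,[(12,0)]⟩⟩,⟨false,0,⟨0,[(40,0)]⟩,⟨3,[(14,1),(26,0),(0,
  0)]⟩⟩,⟨true,0,⟨0,[(24,0)]⟩,⟨2,[(0,0),(9,0),(14,0)]⟩⟩,⟨true,0,⟨0,[(44,0)]⟩,⟨0,[]⟩⟩,⟨false,1,⟨2,[(5,
  0),(8,0),(0,0),(8,1)]⟩,⟨0,[(0,0)]⟩⟩,[]⟩) (.Q [0,-1,0,2,1,0,0,0,0,-1] (.pp true [-1,1]) (.S ⟨1,0,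
  [0,1,-1,-2],[1,-1],[1,0,-1,-1],(⟨0,[(33,0)]⟩,⟨0,[(34,0)]⟩),⟨1,[(2,0),(16,0),(13,0)]⟩,.k,(.r (-1)
  ⟨0,[(41,1),(0,0)]⟩ ⟨2,[(0,0),(4,0),(2,0),(5,0),(0,0),(11,0)]⟩),⟨true,0,⟨0,[]⟩,⟨0,[(45,0)]⟩⟩,
  ⟨false,0,⟨0,[(41,0)]⟩,⟨3,[(15,1),(26,0),(0,0)]⟩⟩,⟨false,1,⟨3,[(15,1),(26,0),(0,0)]⟩,⟨0,[(41,0)]⟩⟩,
  ⟨true,0,⟨0,[(45,0)]⟩,⟨0,[]⟩⟩,[.o ⟨false,0,⟨0,[(41,1),(3,0)]⟩,⟨0,[(0,0)]⟩⟩,.o ⟨false,0,⟨0,[(41,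
  1)]⟩,⟨4,[(0,2),(14,0),(19,0),(2,0),(1,1)]⟩⟩,.o ⟨false,0,⟨1,[(27,0),(0,0)]⟩,⟨1,[(38,0),(3,0)]⟩⟩,.a
  ⟨true,(-1),⟨1,[(3,1),(4,0),(16,0),(1,0),(9,0),(3,2)]⟩,⟨0,[(42,0)]⟩⟩ ⟨true,1,⟨0,[(41,0),(0,0)]⟩,⟨0,
  [(3,0),(4,0),(16,0),(15,0)]⟩⟩ ⟨false,1,⟨0,[(41,1),(0,0)]⟩,⟨5,[(0,1),(0,0),(1,5),(4,0),(18,4),(9,
  0)]⟩⟩]⟩) (.Q [0,-1,0,1,1,0,0,0,0,-1] (.pp true [-1,1]) (.R ⟨2,true,false,true,[0,1],[1,-1],[1,1,1,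
  1],(⟨0,[]⟩,⟨0,[]⟩),(⟨0,[(34,0)]⟩,⟨0,[(35,0)]⟩),⟨0,[]⟩,.k,.k,.k,(.r 0 ⟨0,[(9,0),(7,0)]⟩ ⟨1,[(1,1),
  (37,0),(3,1),(0,0)]⟩),.k,.k,⟨false,0,⟨12,[(0,1),(1,4),(1,4),(4,4),(6,3),(21,0),(1,0)]⟩,⟨1,[(1,1),
  (37,0),(3,1),(0,0)]⟩⟩,⟨true,(-1),⟨8,[(1,6),(0,3),(1,8),(4,0),(0,2),(17,4),(9,0)]⟩,⟨1,[(39,0),(3,
  0)]⟩⟩,⟨false,0,⟨0,[]⟩,⟨1,[(21,0),(0,0),(21,0)]⟩⟩,⟨true,(-1),⟨0,[(1,0)]⟩,⟨8,[(0,2),(7,0),(0,0),(6,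
  3),(22,2),(0,4)]⟩⟩,⟨true,0,⟨0,[(41,0)]⟩,⟨0,[(42,0)]⟩⟩,⟨false,0,⟨19,[(1,17),(5,3),(8,7),(1,1),(2,
  0),(0,0),(21,4)]⟩,⟨0,[(0,0)]⟩⟩,[]⟩) (.Q [0,0,0,2,1,0,1,1,0,-1,1] (.p true [0,0,1] [1] (⟨0,[(31,
  0)]⟩,⟨0,[(30,0)]⟩) .k 1 (⟨0,[]⟩,⟨0,[]⟩) .k .k) (.Q [0,1,0,2,0,0,1,1,0,0,1] (.p true [0,0,1] []
  (⟨0,[(32,0)]⟩,⟨0,[(31,0)]⟩) .k 0 (⟨0,[]⟩,⟨0,[]⟩) .k .k) (.I [1,-1,2,2,0,0,0,1] (.I [0,1,2,1,-1,0,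
  0,1] (.S ⟨1,0,[0,1,-1,-2,0,0,0,-1],[1,-1,-1],[1,0,-1,-1,0,0,0,-1],(⟨0,[(23,0)]⟩,⟨31,[(5,3),(5,1),
  (8,3),(1,0),(12,31),(0,4),(4,8),(0,1)]⟩),⟨0,[(7,0)]⟩,.k,(.r (-1) ⟨1,[(5,1),(9,1),(27,0),(3,1),(0,
  0)]⟩ ⟨2,[(0,0),(0,0),(17,0),(0,0)]⟩),⟨true,0,⟨0,[]⟩,⟨0,[(50,0)]⟩⟩,⟨false,0,⟨0,[(46,0)]⟩,⟨3,[(20,
  1),(26,0),(0,0)]⟩⟩,⟨false,1,⟨3,[(20,1),(26,0),(0,0)]⟩,⟨0,[(46,0)]⟩⟩,⟨true,0,⟨0,[(50,0)]⟩,⟨0,[]⟩⟩,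
  [.a ⟨true,(-1),⟨0,[(5,0),(9,0),(2,0)]⟩,⟨0,[(1,0),(9,0)]⟩⟩ ⟨false,1,⟨3,[(5,1),(9,3),(27,0),(3,3),
  (0,0)]⟩,⟨9,[(1,3),(7,1),(2,1),(17,3),(12,0),(4,0)]⟩⟩ ⟨true,0,⟨1,[(5,1),(9,1),(27,0),(3,0)]⟩,⟨0,
  [(1,0)]⟩⟩,.o ⟨false,0,⟨1,[(5,1),(9,1),(2,1),(24,0),(4,0)]⟩,⟨0,[(3,0)]⟩⟩,.a ⟨true,(-1),⟨0,[(4,0),
  (3,0)]⟩,⟨2,[(11,1),(13,0),(0,0),(5,0)]⟩⟩ ⟨false,1,⟨3,[(5,1),(9,3),(27,0),(3,1),(0,2)]⟩,⟨9,[(1,3),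
  (7,1),(2,1),(17,3),(12,0),(4,0)]⟩⟩ ⟨true,0,⟨1,[(5,1),(9,1),(27,0),(3,0)]⟩,⟨2,[(1,0),(0,0),(0,0),
  (5,0)]⟩⟩,.a ⟨true,(-1),⟨0,[(10,0)]⟩,⟨0,[(11,0)]⟩⟩ ⟨true,1,⟨3,[(5,1),(9,3),(27,0),(3,3),(0,0)]⟩,⟨0,
  [(0,0)]⟩⟩ ⟨false,1,⟨1,[(5,1),(9,1),(27,0),(3,1),(0,0)]⟩,⟨0,[(1,0)]⟩⟩]⟩) (.S ⟨1,0,[0,0,-1,-2,0,0,0,
  -1],[1,-1,-1],[0,1,-1,-2,0,0,0,-1],(⟨0,[(23,0)]⟩,⟨31,[(5,3),(5,1),(8,3),(1,0),(12,31),(0,4),(4,8),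
  (0,1)]⟩),⟨0,[(7,0)]⟩,.k,(.r (-1) ⟨33,[(0,31),(4,17),(19,10),(0,10),(4,1),(0,1),(7,5),(2,8)]⟩ ⟨47,
  [(1,25),(8,1),(2,4),(5,26),(0,5),(11,1),(10,0)]⟩),⟨false,0,⟨0,[(46,0)]⟩,⟨3,[(20,1),(26,0),(0,
  0)]⟩⟩,⟨true,0,⟨0,[(46,0)]⟩,⟨0,[(45,0)]⟩⟩,⟨true,0,⟨0,[(50,0)]⟩,⟨0,[]⟩⟩,⟨false,1,⟨1,[(25,0),(0,0),
  (21,0)]⟩,⟨0,[]⟩⟩,[.o ⟨false,0,⟨7,[(0,3),(4,5),(3,1),(4,2),(16,0),(1,2),(9,3)]⟩,⟨0,[(3,0)]⟩⟩,.e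
  ⟨false,1,⟨33,[(0,31),(4,17),(19,10),(0,10),(4,1),(0,1),(7,5),(2,8)]⟩,⟨2,[(1,0),(0,0),(0,0),(5,
  0)]⟩⟩ ⟨false,1,⟨3,[(0,3),(4,1),(37,0),(4,0)]⟩,⟨3,[(1,0),(0,0),(9,0),(4,0),(1,1)]⟩⟩,.a ⟨true,(-1),
  ⟨0,[(4,0),(3,0)]⟩,⟨2,[(11,1),(13,0),(0,0),(5,0)]⟩⟩ ⟨true,0,⟨14,[(0,5),(4,11),(9,7),(15,0),(0,0),
  (7,3),(2,5)]⟩,⟨2,[(1,0),(0,0),(0,0),(5,0)]⟩⟩ ⟨false,1,⟨2,[(0,1),(4,1),(8,0),(10,0),(0,0),(16,0),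
  (4,0)]⟩,⟨2,[(1,0),(0,0),(0,0),(5,0)]⟩⟩,.e ⟨false,1,⟨33,[(0,31),(4,17),(19,10),(0,10),(4,1),(0,1),
  (7,5),(2,8)]⟩,⟨0,[(1,0)]⟩⟩ ⟨false,1,⟨3,[(0,3),(4,1),(37,0),(4,0)]⟩,⟨47,[(1,25),(8,1),(2,4),(5,26),
  (0,5),(11,1),(10,0)]⟩⟩]⟩)) (.I [1,-1,0,0,1,0,0,2] (.Q [0,0,2,0,0,0,1,0,0,-1,1] (.p true [0,0,1]
  [1] (⟨0,[(35,0)]⟩,⟨0,[(34,0)]⟩) .k 1 (⟨0,[]⟩,⟨0,[]⟩) .k .k) (.R ⟨0,false,false,false,[0,-1,1],[1,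
  -1,-1],[],(⟨0,[(25,0)]⟩,⟨31,[(6,3),(5,1),(8,3),(1,0),(11,31),(1,4),(4,8),(0,1)]⟩),(⟨0,[(24,0)]⟩,
  ⟨31,[(6,3),(5,1),(8,3),(1,0),(12,31),(0,4),(4,8),(0,1)]⟩),⟨2,[(8,0),(15,1),(12,0),(4,2)]⟩,.k,.k,
  (.r (-1) ⟨0,[(1,0),(0,0)]⟩ ⟨12,[(0,0),(10,0),(2,7),(0,1),(5,8),(10,2),(0,2)]⟩),.k,.k,.k,⟨true,0,
  ⟨6,[(0,1),(0,1),(1,2),(5,0),(0,1)]⟩,⟨15,[(0,1),(1,5),(3,1),(8,7),(10,0),(0,0),(4,1),(16,0)]⟩⟩,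
  ⟨false,0,⟨0,[(19,0),(10,0)]⟩,⟨0,[(0,0),(11,0)]⟩⟩,⟨false,0,⟨0,[(14,0),(34,0)]⟩,⟨35,[(1,25),(0,15),
  (3,1),(19,10),(0,10),(13,3),(2,0)]⟩⟩,⟨true,(-1),⟨4,[(2,4),(6,5),(0,0),(3,1),(0,0),(1,1),(25,1)]⟩,
  ⟨2,[(0,0),(0,0),(10,0),(18,3),(12,0)]⟩⟩,⟨false,0,⟨0,[]⟩,⟨0,[]⟩⟩,⟨false,0,⟨0,[]⟩,⟨0,[]⟩⟩,[.o
  ⟨false,0,⟨5,[(2,2),(7,0),(4,2),(7,0),(10,1),(9,0)]⟩,⟨5,[(0,0),(0,0),(2,2),(7,0),(18,0),(12,0)]⟩⟩,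
  .a ⟨true,0,⟨15,[(2,5),(3,1),(3,1),(4,9),(7,5),(19,2),(5,6)]⟩,⟨0,[(7,0)]⟩⟩ ⟨false,1,⟨1,[(48,0),(0,
  0)]⟩,⟨16,[(0,1),(5,1),(13,0),(0,0),(0,0),(9,1),(8,6)]⟩⟩ ⟨true,0,⟨5,[(2,5),(6,5),(0,1),(19,1),(12,
  0),(5,2)]⟩,⟨1,[(0,1),(2,0),(27,0)]⟩⟩,.e ⟨false,1,⟨1,[(26,0),(0,0),(21,0)]⟩,⟨0,[]⟩⟩ ⟨false,0,⟨5,
  [(2,5),(6,5),(0,1),(19,1),(12,0),(5,2)]⟩,⟨8,[(0,4),(0,0),(2,3),(7,2),(9,0),(8,1),(1,3)]⟩⟩,.o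
  ⟨false,0,⟨0,[(0,0)]⟩,⟨0,[(19,0),(28,0)]⟩⟩]⟩) (.Q [0,1,2,0,0,0,2,1,0,-1,2] (.p true [0,0,1] [1,0,
  -1] (⟨0,[(36,0)]⟩,⟨0,[(35,0)]⟩) .k 2 (⟨0,[(35,0)]⟩,⟨0,[(36,0)]⟩) .k (.r (-1) ⟨9,[(1,7),(4,1),(13,
  0),(1,2),(18,3),(2,0)]⟩ ⟨0,[(16,1)]⟩)) (.R ⟨0,false,false,false,[0,-1,1],[1,0,-1],[0,0,1],(⟨0,
  [(26,0)]⟩,⟨31,[(7,3),(5,1),(8,3),(1,0),(11,31),(1,4),(4,8),(0,1)]⟩),(⟨0,[(36,0)]⟩,⟨0,[(37,0)]⟩),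
  ⟨2,[(9,0),(15,1),(12,0),(4,2)]⟩,.k,.k,(.r (-1) ⟨0,[(2,0),(0,0)]⟩ ⟨12,[(0,0),(11,0),(2,7),(0,2),(5,
  8),(10,2),(0,1)]⟩),(.r (-1) ⟨10,[(2,11),(0,4),(3,1),(6,2),(27,0),(2,0)]⟩ ⟨5,[(15,1),(0,0),(0,7),
  (4,1),(10,0),(0,0)]⟩),.k,.k,⟨true,0,⟨2,[(0,0),(1,0),(8,0)]⟩,⟨0,[(17,0)]⟩⟩,⟨false,0,⟨6,[(1,7),(9,
  1),(12,0),(20,1)]⟩,⟨10,[(0,8),(2,3),(9,3),(2,4),(5,3),(22,0),(4,1)]⟩⟩,⟨false,0,⟨8,[(0,0),(9,0),(1,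
  0),(2,1),(0,7),(5,2)]⟩,⟨5,[(1,1),(0,3),(0,2),(9,0),(18,0),(12,0)]⟩⟩,⟨true,(-1),⟨7,[(1,5),(1,1),(6,
  2),(0,1),(3,5),(0,4),(1,2)]⟩,⟨5,[(0,3),(1,3),(0,2),(9,0),(18,2),(12,0)]⟩⟩,⟨false,0,⟨0,[]⟩,⟨0,[]⟩⟩,
  ⟨false,0,⟨0,[]⟩,⟨0,[]⟩⟩,[.o ⟨false,0,⟨23,[(3,4),(7,2),(4,6),(1,9),(5,2),(8,1),(11,2)]⟩,⟨2,[(0,0),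
  (1,0),(10,0),(31,0)]⟩⟩,.a ⟨true,0,⟨5,[(1,1),(14,3),(0,1),(6,1),(19,0),(5,0)]⟩,⟨0,[(32,0)]⟩⟩
  ⟨false,1,⟨1,[(27,0),(0,0),(21,0)]⟩,⟨2,[(3,0),(10,0),(31,0)]⟩⟩ ⟨true,0,⟨2,[(1,1),(1,0),(6,0),(0,0),
  (4,0),(1,0),(31,0)]⟩,⟨0,[(0,0)]⟩⟩,.a ⟨true,0,⟨0,[(34,0)]⟩,⟨0,[(31,0)]⟩⟩ ⟨true,0,⟨23,[(0,3),(6,1),
  (4,1),(3,4),(6,3),(9,2),(1,2)]⟩,⟨2,[(3,0),(10,0),(31,0)]⟩⟩ ⟨false,0,⟨2,[(1,1),(1,0),(6,0),(0,0),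
  (4,0),(1,0),(31,0)]⟩,⟨59,[(0,49),(1,1),(0,5),(9,19),(9,11),(21,4),(4,20)]⟩⟩,.a ⟨true,0,⟨1,[(0,0),
  (6,0),(8,0),(5,0)]⟩,⟨0,[(1,0)]⟩⟩ ⟨false,1,⟨1,[(27,0),(0,0),(21,0)]⟩,⟨0,[]⟩⟩ ⟨true,0,⟨41,[(1,31),
  (1,13),(7,7),(6,27),(5,3),(20,0),(4,6)]⟩,⟨0,[(0,0)]⟩⟩]⟩) (.R ⟨0,false,false,false,[0,-1,1],[1,0,
  -1],[0,0,1],(⟨0,[(26,0)]⟩,⟨31,[(7,3),(5,1),(8,3),(1,0),(11,31),(1,4),(4,8),(0,1)]⟩),(⟨0,[(36,0)]⟩,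
  ⟨0,[(37,0)]⟩),⟨2,[(9,0),(15,1),(12,0),(4,2)]⟩,.k,.k,(.r (-1) ⟨0,[(2,0),(0,0)]⟩ ⟨18,[(12,1),(2,11),
  (0,2),(5,12),(10,3),(0,5),(10,0)]⟩),(.r (-1) ⟨10,[(2,11),(0,4),(3,1),(6,2),(27,0),(2,0)]⟩ ⟨5,[(15,
  1),(0,0),(0,7),(4,1),(10,0),(0,0)]⟩),.k,.k,⟨true,0,⟨4,[(2,0),(4,1),(2,3),(21,2),(1,0),(10,0)]⟩,⟨0,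
  [(17,0)]⟩⟩,⟨false,0,⟨6,[(1,7),(9,1),(12,0),(20,1)]⟩,⟨5,[(13,1),(13,0),(0,0),(5,9),(10,2)]⟩⟩,
  ⟨false,0,⟨19,[(5,2),(6,4),(2,3),(0,18),(5,4),(11,1),(10,0)]⟩,⟨5,[(1,1),(0,3),(0,2),(9,0),(18,0),
  (12,0)]⟩⟩,⟨true,(-1),⟨3,[(0,2),(11,0),(2,2),(0,0),(2,0)]⟩,⟨3,[(7,1),(24,7),(12,2),(4,2)]⟩⟩,⟨false,
  0,⟨0,[]⟩,⟨0,[]⟩⟩,⟨false,0,⟨0,[]⟩,⟨0,[]⟩⟩,[.o ⟨false,0,⟨75,[(0,14),(2,1),(7,6),(3,3),(0,22),(16,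
  31),(11,10)]⟩,⟨1,[(32,1),(12,0),(4,0)]⟩⟩,.e ⟨false,1,⟨1,[(27,0),(0,0),(21,0)]⟩,⟨2,[(3,0),(10,0),
  (31,0)]⟩⟩ ⟨false,0,⟨0,[(0,0)]⟩,⟨1,[(27,0),(0,0),(3,1),(1,1),(10,0)]⟩⟩,.a ⟨true,0,⟨0,[(34,0)]⟩,⟨0,
  [(31,0)]⟩⟩ ⟨true,0,⟨1,[(34,0),(0,0)]⟩,⟨2,[(3,0),(10,0),(31,0)]⟩⟩ ⟨false,0,⟨2,[(0,1),(15,0),(7,
  0)]⟩,⟨1,[(32,1),(1,1),(10,0),(4,0)]⟩⟩,.e ⟨false,1,⟨1,[(27,0),(0,0),(21,0)]⟩,⟨0,[]⟩⟩ ⟨false,0,⟨0,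
  [(0,0)]⟩,⟨11,[(2,1),(4,1),(15,3),(3,0),(0,0),(3,3),(1,19),(10,6)]⟩⟩]⟩))) (.I [0,-1,2,1,0,0,0,1]
  (.S ⟨1,0,[0,0,-1,-2,0,0,0,-1],[1,-1,-1],[0,0,1],(⟨0,[(24,0)]⟩,⟨31,[(6,3),(5,1),(8,3),(1,0),(12,
  31),(0,4),(4,8),(0,1)]⟩),⟨0,[(8,0)]⟩,.k,(.r (-1) ⟨1,[(2,1),(23,0),(0,0),(21,0)]⟩ ⟨5,[(0,2),(2,0),
  (5,0),(4,0),(5,2),(0,0)]⟩),⟨false,0,⟨0,[(0,0)]⟩,⟨1,[(2,0),(9,0),(19,0),(16,0)]⟩⟩,⟨true,0,⟨0,[(47,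
  0)]⟩,⟨0,[(46,0)]⟩⟩,⟨true,0,⟨5,[(0,2),(2,0),(5,0),(4,0),(5,2),(0,0)]⟩,⟨0,[(2,0)]⟩⟩,⟨false,1,⟨1,
  [(26,0),(0,0),(21,0)]⟩,⟨0,[]⟩⟩,[.o ⟨false,0,⟨9,[(2,5),(3,3),(3,1),(4,3),(18,5),(9,2),(4,2)]⟩,⟨0,
  [(4,0)]⟩⟩,.e ⟨false,1,⟨1,[(26,0),(0,0),(21,0)]⟩,⟨2,[(2,0),(10,0),(31,0)]⟩⟩ ⟨false,1,⟨0,[(2,0),(46,
  0)]⟩,⟨6,[(3,2),(5,1),(8,0),(1,4)]⟩⟩,.a ⟨true,(-1),⟨0,[(5,0),(3,0)]⟩,⟨2,[(12,1),(13,0),(0,0),(5,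
  0)]⟩⟩ ⟨true,0,⟨1,[(33,0),(0,0)]⟩,⟨2,[(2,0),(10,0),(31,0)]⟩⟩ ⟨false,1,⟨5,[(2,3),(3,1),(8,1),(10,1),
  (0,1),(16,0),(4,4)]⟩,⟨3,[(0,0),(2,1),(0,0),(4,0),(0,0)]⟩⟩,.e ⟨false,1,⟨1,[(26,0),(0,0),(21,0)]⟩,
  ⟨0,[]⟩⟩ ⟨false,1,⟨0,[(2,0),(46,0)]⟩,⟨5,[(0,2),(2,0),(5,0),(4,0),(5,2),(0,0)]⟩⟩]⟩) (.I [0,0,-2,-2,
  1,0,0,1] (.I [1,0,-4,-4,1,0,0,-1] (.I [1,0,4,4,-1,0,0,1] (.N [0,4,1] 1 ⟨0,[(0,0)]⟩ ⟨0,[(1,0)]⟩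
  (.x (-3) ⟨65,[(1,3),(0,3),(8,109),(3,65),(8,11),(3,43),(15,5),(2,54),(3,56)]⟩ ⟨16,[(0,7),(8,15),
  (2,5),(1,10),(3,7),(9,16),(11,3),(4,26),(4,5),(1,0)]⟩)) (.Q [0,-1,-2,-1,0,0,-2,-1,0,1,-2] (.p
  false [0,0,1] [1,0,-1] (⟨0,[(39,0)]⟩,⟨0,[(38,0)]⟩) .k 2 (⟨0,[(38,0)]⟩,⟨0,[(39,0)]⟩) .k (.r (-1)
  ⟨10,[(2,5),(4,1),(4,1),(0,3),(11,5),(8,7),(12,0)]⟩ ⟨0,[(19,1)]⟩)) (.R ⟨0,false,false,false,[0,-1,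
  1],[1,-1,-1],[0,0,0,-1,0,0,0,-1],(⟨0,[(29,0)]⟩,⟨140,[(2,1),(0,1),(6,8),(14,14),(13,140),(4,53),(0,
  2),(0,28),(0,9)]⟩),(⟨0,[(28,0)]⟩,⟨140,[(2,1),(0,1),(6,8),(14,14),(14,140),(3,53),(0,2),(0,28),(0,
  9)]⟩),⟨2,[(12,0),(15,1),(12,0),(4,2)]⟩,.k,.k,(.r (-1) ⟨0,[(3,0)]⟩ ⟨18,[(15,1),(2,11),(0,2),(5,12),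
  (10,3),(0,5),(10,0)]⟩),.k,.k,.k,⟨true,0,⟨1,[(37,0),(0,0)]⟩,⟨0,[]⟩⟩,⟨false,0,⟨1,[(0,0),(16,0),(9,
  0)]⟩,⟨1,[(5,1),(29,3),(12,0),(4,2)]⟩⟩,⟨false,0,⟨0,[(19,0),(0,0)]⟩,⟨1,[(3,1),(3,0),(5,1),(21,0)]⟩⟩,
  ⟨true,(-1),⟨1,[(0,0),(4,0),(9,0),(5,0)]⟩,⟨1,[(35,3),(12,0),(4,0)]⟩⟩,⟨false,0,⟨0,[]⟩,⟨0,[]⟩⟩,
  ⟨false,0,⟨0,[]⟩,⟨0,[]⟩⟩,[.o ⟨false,0,⟨42,[(0,2),(0,9),(3,10),(9,0),(3,7),(18,35),(9,1)]⟩,⟨3,[(8,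
  1),(26,1),(12,0),(4,0)]⟩⟩,.e ⟨false,1,⟨1,[(1,0),(17,0),(5,0)]⟩,⟨0,[(17,0)]⟩⟩ ⟨false,0,⟨0,[(0,0)]⟩,
  ⟨19,[(8,1),(7,0),(8,7),(9,17),(1,18),(7,4),(2,8)]⟩⟩,.a ⟨true,0,⟨0,[(37,0)]⟩,⟨0,[(34,0)]⟩⟩ ⟨true,0,
  ⟨23,[(1,3),(3,1),(4,3),(8,10),(16,4),(0,4),(10,1)]⟩,⟨0,[(17,0)]⟩⟩ ⟨false,0,⟨22,[(0,14),(0,1),(13,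
  2),(3,5),(7,4),(10,2),(14,0)]⟩,⟨3,[(8,1),(26,1),(1,3),(10,0),(4,0)]⟩⟩,.e ⟨false,1,⟨1,[(1,0),(17,
  0),(5,0)]⟩,⟨0,[(13,0),(21,0)]⟩⟩ ⟨false,0,⟨0,[(0,0)]⟩,⟨7,[(8,1),(15,0),(1,2),(8,1),(1,11),(10,
  2)]⟩⟩]⟩) (.Q [0,0,-2,0,0,0,-1,0,0,1,-1] (.p false [0,0,1] [1] (⟨0,[(40,0)]⟩,⟨0,[(39,0)]⟩) .k 1
  (⟨0,[]⟩,⟨0,[]⟩) .k .k) (.R ⟨0,false,false,false,[0,-1,1],[1,-1,-1],[0,0,0,-1,0,0,0,-1],(⟨0,[(30,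
  0)]⟩,⟨140,[(3,1),(0,1),(6,8),(14,14),(13,140),(4,53),(0,2),(0,28),(0,9)]⟩),(⟨0,[(29,0)]⟩,⟨140,[(3,
  1),(0,1),(6,8),(14,14),(14,140),(3,53),(0,2),(0,28),(0,9)]⟩),⟨2,[(13,0),(15,1),(12,0),(4,2)]⟩,.k,
  .k,(.r (-1) ⟨0,[(4,0)]⟩ ⟨15,[(1,2),(4,3),(9,2),(2,4),(0,2),(5,11),(10,2)]⟩),.k,.k,.k,⟨true,0,⟨1,
  [(38,0),(0,0)]⟩,⟨0,[]⟩⟩,⟨false,0,⟨6,[(0,3),(14,0),(12,3),(20,0)]⟩,⟨21,[(1,15),(0,3),(3,1),(10,11),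
  (2,7),(28,2),(4,4)]⟩⟩,⟨false,0,⟨0,[(20,0),(0,0)]⟩,⟨1,[(4,1),(3,0),(5,1),(21,0)]⟩⟩,⟨true,(-1),⟨38,
  [(0,7),(1,1),(3,33),(8,23),(6,7),(5,6),(25,16)]⟩,⟨2,[(1,1),(2,1),(4,0),(26,0)]⟩⟩,⟨false,0,⟨0,[]⟩,
  ⟨0,[]⟩⟩,⟨false,0,⟨0,[]⟩,⟨0,[]⟩⟩,[.o ⟨false,0,⟨23,[(2,5),(3,3),(8,3),(4,6),(16,2),(1,12),(9,1)]⟩,
  ⟨9,[(1,1),(2,1),(4,5),(39,0),(4,0)]⟩⟩,.a ⟨true,0,⟨39,[(2,9),(12,1),(0,3),(3,29),(7,15),(19,8),(5,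
  4)]⟩,⟨0,[(12,0)]⟩⟩ ⟨false,1,⟨1,[(2,0),(17,0),(5,0)]⟩,⟨0,[(18,0)]⟩⟩ ⟨true,0,⟨12,[(0,2),(1,3),(3,2),
  (8,8),(6,2),(5,0),(25,7)]⟩,⟨0,[(1,0)]⟩⟩,.a ⟨true,0,⟨0,[(38,0)]⟩,⟨0,[(35,0)]⟩⟩ ⟨true,0,⟨130,[(1,
  14),(0,25),(3,7),(4,20),(8,73),(16,29),(11,2)]⟩,⟨0,[(18,0)]⟩⟩ ⟨false,0,⟨12,[(0,2),(1,3),(3,2),(8,
  8),(6,2),(5,0),(25,7)]⟩,⟨9,[(1,7),(15,3),(9,1),(21,0),(4,2)]⟩⟩,.a ⟨true,0,⟨1,[(38,2),(0,0)]⟩,⟨0,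
  [(0,0)]⟩⟩ ⟨false,1,⟨1,[(2,0),(17,0),(5,0)]⟩,⟨0,[(14,0),(21,0)]⟩⟩ ⟨true,0,⟨38,[(0,16),(1,13),(3,3),
  (8,11),(6,16),(5,9),(25,1)]⟩,⟨0,[(1,0)]⟩⟩]⟩) (.R ⟨0,false,false,false,[0,-1,1],[1,-1,-1],[1,0,-1,
  -1,0,0,0,-1],(⟨0,[(30,0)]⟩,⟨140,[(3,1),(0,1),(6,8),(14,14),(13,140),(4,53),(0,2),(0,28),(0,9)]⟩),
  (⟨0,[(29,0)]⟩,⟨140,[(3,1),(0,1),(6,8),(14,14),(14,140),(3,53),(0,2),(0,28),(0,9)]⟩),⟨2,[(13,0),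
  (15,1),(12,0),(4,2)]⟩,.k,.k,(.r (-1) ⟨0,[(4,0)]⟩ ⟨24,[(0,2),(0,2),(4,9),(9,5),(2,4),(6,20),(10,
  2)]⟩),.k,.k,.k,⟨true,0,⟨0,[]⟩,⟨39,[(0,10),(1,0),(8,4),(4,5),(9,3),(0,5),(9,4)]⟩⟩,⟨false,0,⟨0,[(24,
  0),(10,0)]⟩,⟨0,[(0,0),(16,0)]⟩⟩,⟨false,0,⟨0,[(6,0),(47,0)]⟩,⟨5,[(1,0),(2,3),(4,1),(5,2),(11,2),(8,
  1)]⟩⟩,⟨true,(-1),⟨4,[(2,0),(3,2),(7,0),(0,2),(6,2),(25,0),(5,0)]⟩,⟨2,[(1,1),(2,1),(4,0),(26,0)]⟩⟩,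
  ⟨false,0,⟨0,[]⟩,⟨0,[]⟩⟩,⟨false,0,⟨0,[]⟩,⟨0,[]⟩⟩,[.o ⟨false,0,⟨23,[(2,5),(3,3),(8,3),(4,6),(16,2),
  (1,12),(9,1)]⟩,⟨9,[(1,1),(2,1),(4,5),(39,0),(4,0)]⟩⟩,.a ⟨true,0,⟨39,[(2,9),(12,1),(0,3),(3,29),(7,
  15),(19,8),(5,4)]⟩,⟨0,[(12,0)]⟩⟩ ⟨false,1,⟨10,[(2,3),(3,2),(7,3),(2,4),(4,0),(31,4)]⟩,⟨0,[(25,
  0)]⟩⟩ ⟨true,0,⟨3,[(2,1),(11,1),(0,1),(6,1),(25,0),(5,0)]⟩,⟨0,[(1,0)]⟩⟩,.e ⟨false,1,⟨1,[(2,0),(17,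
  0),(5,0)]⟩,⟨0,[(14,0),(21,0)]⟩⟩ ⟨false,0,⟨3,[(2,1),(11,1),(0,1),(6,1),(25,0),(5,0)]⟩,⟨9,[(1,7),
  (15,3),(9,1),(21,0),(4,2)]⟩⟩,.o ⟨false,0,⟨0,[(0,0)]⟩,⟨0,[(24,0),(28,0)]⟩⟩]⟩)))) (.Q [0,0,2,0,0,0,
  1,0,0,-1,1] (.p true [0,0,1] [1] (⟨0,[(38,0)]⟩,⟨0,[(37,0)]⟩) .k 1 (⟨0,[]⟩,⟨0,[]⟩) .k .k) (.R ⟨0,
  false,false,false,[0,-1,1],[1,-1,-1],[],(⟨0,[(28,0)]⟩,⟨31,[(9,3),(5,1),(8,3),(1,0),(11,31),(1,4),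
  (4,8),(0,1)]⟩),(⟨0,[(27,0)]⟩,⟨31,[(9,3),(5,1),(8,3),(1,0),(12,31),(0,4),(4,8),(0,1)]⟩),⟨2,[(11,0),
  (15,1),(12,0),(4,2)]⟩,.k,.k,(.r (-1) ⟨0,[(2,0)]⟩ ⟨18,[(0,2),(3,3),(9,2),(2,7),(6,14),(10,2),(0,
  2)]⟩),.k,.k,.k,⟨true,0,⟨1,[(1,0),(0,0)]⟩,⟨27,[(0,2),(1,0),(2,9),(3,2),(8,15),(10,1),(0,1),(4,
  2)]⟩⟩,⟨false,0,⟨0,[(22,0),(10,0)]⟩,⟨0,[(0,0),(14,0)]⟩⟩,⟨false,0,⟨13,[(1,2),(2,7),(13,0),(5,0),(27,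
  9)]⟩,⟨25,[(0,0),(1,16),(6,0),(15,9),(9,0),(8,3)]⟩⟩,⟨true,(-1),⟨3,[(3,0),(0,2),(8,2),(6,0),(12,0),
  (18,1)]⟩,⟨1,[(0,0),(1,0),(4,0),(26,1)]⟩⟩,⟨false,0,⟨0,[]⟩,⟨0,[]⟩⟩,⟨false,0,⟨0,[]⟩,⟨0,[]⟩⟩,[.o
  ⟨false,0,⟨5,[(5,2),(7,0),(4,2),(7,0),(10,1),(9,0)]⟩,⟨3,[(0,0),(1,0),(4,2)]⟩⟩,.a ⟨true,0,⟨15,[(5,
  5),(3,1),(3,1),(4,9),(7,5),(19,2),(5,6)]⟩,⟨0,[(10,0)]⟩⟩ ⟨false,1,⟨1,[(51,0),(0,0)]⟩,⟨16,[(0,1),(8,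
  1),(13,0),(0,0),(0,0),(9,1),(8,6)]⟩⟩ ⟨true,0,⟨0,[(3,0),(9,0),(38,0)]⟩,⟨1,[(0,1),(5,0),(27,0)]⟩⟩,
  .e ⟨false,1,⟨1,[(29,0),(0,0),(21,0)]⟩,⟨0,[]⟩⟩ ⟨false,0,⟨0,[(3,0),(9,0),(38,0)]⟩,⟨6,[(0,3),(6,2),
  (7,1),(9,0),(8,2),(1,1),(15,0)]⟩⟩,.o ⟨false,0,⟨0,[(0,0)]⟩,⟨0,[(22,0),(28,0)]⟩⟩]⟩) (.Q [0,1,2,1,0,
  0,2,1,0,-1,2] (.p true [0,0,1] [1,0,-1] (⟨0,[(39,0)]⟩,⟨0,[(38,0)]⟩) .k 2 (⟨0,[(38,0)]⟩,⟨0,[(39,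
  0)]⟩) .k (.r (-1) ⟨2,[(1,0),(0,2),(20,0),(1,0)]⟩ ⟨0,[(19,1)]⟩)) (.R ⟨0,false,false,false,[0,-1,1],
  [1,-1,-1],[1],(⟨0,[(29,0)]⟩,⟨31,[(10,3),(5,1),(8,3),(1,0),(11,31),(1,4),(4,8),(0,1)]⟩),(⟨0,[(28,
  0)]⟩,⟨31,[(10,3),(5,1),(8,3),(1,0),(12,31),(0,4),(4,8),(0,1)]⟩),⟨2,[(12,0),(15,1),(12,0),(4,2)]⟩,
  .k,.k,(.r (-1) ⟨0,[(3,0)]⟩ ⟨67,[(0,13),(1,4),(2,31),(9,13),(3,8),(5,50),(10,13)]⟩),.k,.k,.k,⟨true,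
  0,⟨1,[(2,0),(0,0)]⟩,⟨31,[(3,1),(2,9),(3,3),(8,18),(16,4),(0,4),(10,1)]⟩⟩,⟨false,0,⟨6,[(1,3),(12,
  0),(12,3),(20,0)]⟩,⟨9,[(0,7),(4,1),(0,3),(9,3),(31,0),(4,6)]⟩⟩,⟨false,0,⟨13,[(2,2),(2,7),(13,0),
  (5,0),(27,9)]⟩,⟨26,[(0,0),(2,17),(6,0),(15,9),(9,1),(8,2)]⟩⟩,⟨true,(-1),⟨18,[(1,3),(3,15),(0,1),
  (7,11),(6,3),(5,2),(25,8)]⟩,⟨2,[(0,1),(2,1),(4,0),(26,0)]⟩⟩,⟨false,0,⟨0,[]⟩,⟨0,[]⟩⟩,⟨false,0,⟨0,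
  []⟩,⟨0,[]⟩⟩,[.o ⟨false,0,⟨5,[(6,2),(7,0),(4,2),(7,0),(10,1),(9,0)]⟩,⟨9,[(0,1),(2,1),(4,5),(39,0),
  (4,0)]⟩⟩,.a ⟨true,0,⟨15,[(6,5),(3,1),(3,1),(4,9),(7,5),(19,2),(5,6)]⟩,⟨0,[(11,0)]⟩⟩ ⟨false,1,⟨1,
  [(52,0),(0,0)]⟩,⟨8,[(0,0),(9,0),(15,0),(9,1),(8,2)]⟩⟩ ⟨true,0,⟨10,[(1,2),(3,0),(0,6),(6,0),(0,7),
  (6,1),(31,8)]⟩,⟨0,[(0,0)]⟩⟩,.a ⟨true,0,⟨0,[(37,0)]⟩,⟨0,[(34,0)]⟩⟩ ⟨true,0,⟨0,[]⟩,⟨8,[(0,0),(9,0),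
  (15,0),(9,1),(8,2)]⟩⟩ ⟨false,0,⟨10,[(1,2),(3,0),(0,6),(6,0),(0,7),(6,1),(31,8)]⟩,⟨9,[(0,7),(15,3),
  (9,1),(21,0),(4,2)]⟩⟩,.a ⟨true,0,⟨1,[(37,2),(0,0)]⟩,⟨0,[(1,0)]⟩⟩ ⟨false,1,⟨1,[(52,0),(0,0)]⟩,⟨1,
  [(37,0),(0,0)]⟩⟩ ⟨true,0,⟨20,[(1,10),(4,13),(7,7),(6,6),(5,3),(20,0),(4,6)]⟩,⟨0,[(0,0)]⟩⟩]⟩) (.R
  ⟨0,false,false,false,[0,-1,1],[1,-1,-1],[1],(⟨0,[(29,0)]⟩,⟨31,[(10,3),(5,1),(8,3),(1,0),(11,31),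
  (1,4),(4,8),(0,1)]⟩),(⟨0,[(28,0)]⟩,⟨31,[(10,3),(5,1),(8,3),(1,0),(12,31),(0,4),(4,8),(0,1)]⟩),⟨2,
  [(12,0),(15,1),(12,0),(4,2)]⟩,.k,.k,(.r (-1) ⟨0,[(3,0)]⟩ ⟨17,[(2,3),(2,5),(13,2),(5,9),(10,6),(0,
  6)]⟩),.k,.k,.k,⟨true,0,⟨1,[(2,0),(0,0)]⟩,⟨31,[(3,1),(2,9),(3,3),(8,18),(16,4),(0,4),(10,1)]⟩⟩,
  ⟨false,0,⟨6,[(1,3),(12,0),(12,3),(20,0)]⟩,⟨1,[(5,1),(29,3),(12,0),(4,2)]⟩⟩,⟨false,0,⟨13,[(2,2),(2,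
  7),(13,0),(5,0),(27,9)]⟩,⟨2,[(3,1),(22,0),(28,0)]⟩⟩,⟨true,(-1),⟨1,[(0,0),(4,0),(9,0),(5,0)]⟩,⟨1,
  [(35,3),(12,0),(4,0)]⟩⟩,⟨false,0,⟨0,[]⟩,⟨0,[]⟩⟩,⟨false,0,⟨0,[]⟩,⟨0,[]⟩⟩,[.o ⟨false,0,⟨36,[(0,4),
  (4,1),(0,14),(3,0),(8,12),(18,26),(9,2)]⟩,⟨3,[(8,1),(26,1),(12,0),(4,0)]⟩⟩,.e ⟨false,1,⟨1,[(52,0),
  (0,0)]⟩,⟨0,[(55,0)]⟩⟩ ⟨false,0,⟨0,[(0,0)]⟩,⟨19,[(8,1),(7,0),(8,7),(9,17),(1,18),(7,4),(2,8)]⟩⟩,.a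
  ⟨true,0,⟨0,[(37,0)]⟩,⟨0,[(34,0)]⟩⟩ ⟨true,0,⟨0,[]⟩,⟨0,[(55,0)]⟩⟩ ⟨false,0,⟨15,[(0,11),(9,1),(4,1),
  (3,0),(16,2),(1,2),(14,3)]⟩,⟨3,[(8,1),(26,1),(1,3),(10,0),(4,0)]⟩⟩,.e ⟨false,1,⟨1,[(52,0),(0,0)]⟩,
  ⟨1,[(37,0),(0,0)]⟩⟩ ⟨false,0,⟨0,[(0,0)]⟩,⟨7,[(8,1),(15,0),(1,2),(8,1),(1,11),(10,2)]⟩⟩]⟩)))) (.I
  [0,0,-2,0,1,-2,-1] (.R ⟨0,false,false,false,[0,-1,1],[1,-1,-1],[1,0,-1,-1,0,0,0,-1],(⟨0,[(27,0)]⟩,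
  ⟨31,[(8,3),(5,1),(8,3),(1,0),(11,31),(1,4),(4,8),(0,1)]⟩),(⟨0,[(26,0)]⟩,⟨31,[(8,3),(5,1),(8,3),(1,
  0),(12,31),(0,4),(4,8),(0,1)]⟩),⟨2,[(10,0),(15,1),(12,0),(4,2)]⟩,.k,.k,(.x 0 ⟨3,[(13,0),(12,0),(8,
  4),(1,2),(6,2),(1,0),(5,0)]⟩ ⟨0,[(0,0)]⟩),.k,.k,.k,⟨true,0,⟨0,[]⟩,⟨1,[(35,0),(0,0)]⟩⟩,⟨false,0,⟨0,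
  [(21,0),(10,0)]⟩,⟨1,[(3,1),(29,3),(12,0),(4,2)]⟩⟩,⟨false,0,⟨0,[(3,0),(47,0)]⟩,⟨0,[(21,1),(11,1),
  (17,0)]⟩⟩,⟨true,(-1),⟨3,[(2,0),(0,2),(8,2),(6,0),(12,0),(18,1)]⟩,⟨1,[(33,3),(12,0),(4,0)]⟩⟩,
  ⟨false,0,⟨0,[]⟩,⟨0,[]⟩⟩,⟨false,0,⟨0,[]⟩,⟨0,[]⟩⟩,[.o ⟨false,0,⟨5,[(4,2),(7,0),(4,2),(7,0),(10,1),
  (9,0)]⟩,⟨3,[(6,1),(26,1),(12,0),(4,0)]⟩⟩,.a ⟨true,0,⟨15,[(4,5),(3,1),(3,1),(4,9),(7,5),(19,2),(5,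
  6)]⟩,⟨0,[(9,0)]⟩⟩ ⟨false,1,⟨0,[(2,0),(48,0)]⟩,⟨0,[(22,0)]⟩⟩ ⟨true,0,⟨0,[(2,0),(9,0),(38,0)]⟩,⟨3,
  [(1,3),(6,1),(24,7),(12,2),(4,2)]⟩⟩,.e ⟨false,1,⟨7,[(4,5),(12,1),(5,1),(4,0),(0,0),(21,4)]⟩,⟨0,
  [(11,0),(21,0)]⟩⟩ ⟨false,0,⟨0,[(2,0),(9,0),(38,0)]⟩,⟨3,[(6,1),(26,1),(1,3),(10,0),(4,0)]⟩⟩,.o
  ⟨false,0,⟨0,[(1,0),(6,0),(24,0),(12,0),(4,0)]⟩,⟨0,[(21,0),(28,0)]⟩⟩]⟩) (.R ⟨0,false,false,false,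
  [0,-1,1],[1,-1,-1],[1,0,-1,-1,0,0,0,-1],(⟨0,[(27,0)]⟩,⟨31,[(8,3),(5,1),(8,3),(1,0),(11,31),(1,4),
  (4,8),(0,1)]⟩),(⟨0,[(26,0)]⟩,⟨31,[(8,3),(5,1),(8,3),(1,0),(12,31),(0,4),(4,8),(0,1)]⟩),⟨2,[(10,0),
  (15,1),(12,0),(4,2)]⟩,.k,.k,(.r (-2) ⟨3,[(8,5),(15,3),(21,2),(3,5),(0,0)]⟩ ⟨1,[(0,5),(1,11),(2,9),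
  (1,19),(2,1),(0,15),(15,7),(18,10),(4,12)]⟩),.k,.k,.k,⟨true,0,⟨0,[]⟩,⟨1,[(35,0),(0,0)]⟩⟩,⟨false,0,
  ⟨0,[(21,0),(10,0)]⟩,⟨8,[(0,2),(9,0),(3,6),(12,3),(7,7),(10,4)]⟩⟩,⟨false,0,⟨0,[(3,0),(47,0)]⟩,⟨0,
  [(21,1),(11,1),(17,0)]⟩⟩,⟨true,(-1),⟨3,[(2,0),(0,2),(8,2),(6,0),(12,0),(18,1)]⟩,⟨1,[(33,3),(12,0),
  (4,0)]⟩⟩,⟨false,0,⟨0,[]⟩,⟨0,[]⟩⟩,⟨false,0,⟨0,[]⟩,⟨0,[]⟩⟩,[.o ⟨false,0,⟨5,[(4,2),(7,0),(4,2),(7,0),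
  (10,1),(9,0)]⟩,⟨3,[(6,1),(26,1),(12,0),(4,0)]⟩⟩,.a ⟨true,0,⟨15,[(4,5),(3,1),(3,1),(4,9),(7,5),(19,
  2),(5,6)]⟩,⟨0,[(9,0)]⟩⟩ ⟨false,1,⟨0,[(2,0),(48,0)]⟩,⟨0,[(22,0)]⟩⟩ ⟨true,0,⟨0,[(2,0),(9,0),(38,
  0)]⟩,⟨7,[(0,2),(0,1),(4,1),(3,0),(2,0),(13,3),(5,7),(1,3),(10,3)]⟩⟩,.e ⟨false,1,⟨7,[(4,5),(12,1),
  (5,1),(4,0),(0,0),(21,4)]⟩,⟨0,[(11,0),(21,0)]⟩⟩ ⟨false,0,⟨0,[(2,0),(9,0),(38,0)]⟩,⟨3,[(6,1),(26,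
  1),(1,3),(10,0),(4,0)]⟩⟩,.o ⟨false,0,⟨5,[(0,2),(9,0),(2,0),(13,3),(7,3),(10,3)]⟩,⟨0,[(21,0),(28,
  0)]⟩⟩]⟩)))))) (.I [0,-1,2,1,0,0,0,1] (.S ⟨1,0,[0,0,-1,-2,0,0,0,-1],[1,-1,-1],[1,1,-1,-1,0,0,0,-1],
  (⟨0,[(22,0)]⟩,⟨31,[(4,3),(5,1),(8,3),(1,0),(12,31),(0,4),(4,8),(0,1)]⟩),⟨0,[(6,0)]⟩,.k,(.r (-1)
  ⟨5,[(1,3),(2,1),(5,5),(13,0),(0,0),(4,1),(11,0)]⟩ ⟨7,[(0,4),(10,2),(0,1),(5,1),(0,1)]⟩),⟨false,0,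
  ⟨0,[]⟩,⟨1,[(24,0),(0,0),(21,0)]⟩⟩,⟨true,0,⟨0,[(45,0)]⟩,⟨0,[(44,0)]⟩⟩,⟨true,0,⟨0,[(44,0)]⟩,⟨0,[(45,
  0)]⟩⟩,⟨false,1,⟨1,[(24,0),(0,0),(21,0)]⟩,⟨0,[]⟩⟩,[.o ⟨false,0,⟨5,[(1,3),(2,1),(19,0),(0,0),(4,1),
  (11,0)]⟩,⟨0,[(2,0)]⟩⟩,.o ⟨false,0,⟨0,[(1,0)]⟩,⟨10,[(2,8),(15,1),(0,0),(11,1),(7,4),(2,0)]⟩⟩,.a
  ⟨true,(-1),⟨0,[(3,0),(3,0)]⟩,⟨2,[(10,1),(13,0),(0,0),(5,0)]⟩⟩ ⟨true,0,⟨8,[(1,3),(2,1),(5,3),(1,2),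
  (1,1),(24,3),(2,0)]⟩,⟨1,[(0,0),(10,0)]⟩⟩ ⟨false,1,⟨2,[(1,2),(8,1),(13,0),(0,0),(5,0)]⟩,⟨0,[(5,0),
  (1,0)]⟩⟩,.e ⟨false,1,⟨1,[(1,0),(8,1),(19,0)]⟩,⟨0,[(0,0)]⟩⟩ ⟨false,1,⟨0,[(1,0),(8,0)]⟩,⟨7,[(0,4),
  (10,2),(0,1),(5,1),(0,1)]⟩⟩]⟩) (.Q [0,-1,-2,0,0,0,-2,-1,0,1,-2] (.p false [0,0,1] [1,0,-1] (⟨0,
  [(34,0)]⟩,⟨0,[(33,0)]⟩) .k 2 (⟨0,[(33,0)]⟩,⟨0,[(34,0)]⟩) .k (.r (-1) ⟨0,[(17,1),(11,1),(17,0)]⟩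
  ⟨0,[(14,1)]⟩)) (.R ⟨0,false,false,false,[0,-1,1],[1,0,-1],[0,0,1],(⟨0,[(24,0)]⟩,⟨31,[(5,3),(5,1),
  (8,3),(1,0),(11,31),(1,4),(4,8),(0,1)]⟩),(⟨0,[(34,0)]⟩,⟨0,[(35,0)]⟩),⟨2,[(7,0),(15,1),(12,0),(4,
  2)]⟩,.k,.k,(.r (-1) ⟨0,[(0,0),(4,0),(24,1),(12,0),(4,0)]⟩ ⟨18,[(10,1),(2,11),(0,2),(5,12),(10,3),
  (0,5),(10,0)]⟩),(.r (-1) ⟨0,[(0,0),(4,0),(2,0),(21,2),(12,0),(4,0)]⟩ ⟨5,[(13,1),(0,0),(0,7),(4,1),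
  (10,0),(0,0)]⟩),.k,.k,⟨true,0,⟨3,[(5,1),(2,3),(21,3),(12,0),(4,0)]⟩,⟨0,[(15,0)]⟩⟩,⟨false,0,⟨0,[(0,
  0),(17,0),(11,0)]⟩,⟨5,[(11,1),(13,0),(0,0),(5,9),(10,2)]⟩⟩,⟨false,0,⟨19,[(3,2),(6,4),(2,3),(0,18),
  (5,4),(11,1),(10,0)]⟩,⟨3,[(0,3),(4,1),(24,7),(12,2),(4,2)]⟩⟩,⟨true,(-1),⟨3,[(0,2),(9,0),(2,2),(0,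
  0),(2,0)]⟩,⟨3,[(5,1),(24,7),(12,2),(4,2)]⟩⟩,⟨false,0,⟨0,[]⟩,⟨0,[]⟩⟩,⟨false,0,⟨0,[]⟩,⟨0,[]⟩⟩,[.o
  ⟨false,0,⟨3,[(2,0),(13,1),(14,0)]⟩,⟨1,[(30,1),(12,0),(4,0)]⟩⟩,.e ⟨false,1,⟨1,[(25,0),(0,0),(21,
  0)]⟩,⟨1,[(1,0),(10,0)]⟩⟩ ⟨false,0,⟨0,[(0,0)]⟩,⟨1,[(25,0),(0,0),(3,1),(1,1),(10,0)]⟩⟩,.a ⟨true,0,
  ⟨0,[(32,0)]⟩,⟨0,[(29,0)]⟩⟩ ⟨true,0,⟨1,[(32,0),(0,0)]⟩,⟨1,[(1,0),(10,0)]⟩⟩ ⟨false,0,⟨2,[(0,1),(13,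
  0),(7,0)]⟩,⟨1,[(30,1),(1,1),(10,0),(4,0)]⟩⟩,.e ⟨false,1,⟨1,[(25,0),(0,0),(21,0)]⟩,⟨0,[]⟩⟩ ⟨false,
  0,⟨0,[(0,0)]⟩,⟨7,[(5,1),(15,3),(8,3),(1,11),(10,4),(4,0)]⟩⟩]⟩) (.I [0,0,2,2,-1,0,0,-1] (.R ⟨0,
  false,false,false,[0,-1,1],[1,-1,-1],[1,0,-1,-1,0,0,0,-1],(⟨0,[(25,0)]⟩,⟨31,[(6,3),(5,1),(8,3),(1,
  0),(11,31),(1,4),(4,8),(0,1)]⟩),(⟨0,[(24,0)]⟩,⟨31,[(6,3),(5,1),(8,3),(1,0),(12,31),(0,4),(4,8),(0,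
  1)]⟩),⟨2,[(8,0),(15,1),(12,0),(4,2)]⟩,.k,.k,(.r (-2) ⟨3,[(6,5),(15,3),(21,2),(3,5),(0,0)]⟩ ⟨0,[(0,
  0)]⟩),.k,.k,.k,⟨true,0,⟨0,[]⟩,⟨45,[(1,9),(1,6),(2,1),(4,7),(9,7),(0,1),(9,4)]⟩⟩,⟨false,0,⟨0,[(19,
  0),(10,0)]⟩,⟨5,[(0,1),(0,3),(1,1),(8,5),(31,0),(4,0)]⟩⟩,⟨false,0,⟨0,[(0,0),(2,0),(8,0)]⟩,⟨0,[(19,
  1),(11,1),(17,0)]⟩⟩,⟨true,(-1),⟨5,[(0,2),(1,2),(0,2),(6,1),(6,2),(12,1),(12,0)]⟩,⟨1,[(31,3),(12,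
  0),(4,0)]⟩⟩,⟨false,0,⟨0,[]⟩,⟨0,[]⟩⟩,⟨false,0,⟨0,[]⟩,⟨0,[]⟩⟩,[.o ⟨false,0,⟨1,[(3,0),(28,0)]⟩,⟨3,
  [(4,1),(26,1),(12,0),(4,0)]⟩⟩,.a ⟨true,0,⟨15,[(3,5),(2,1),(9,7),(6,3),(8,1),(10,4),(5,6)]⟩,⟨0,[(7,
  0)]⟩⟩ ⟨false,1,⟨0,[(2,0),(46,0)]⟩,⟨0,[(20,0)]⟩⟩ ⟨true,0,⟨11,[(2,5),(0,5),(5,5),(0,1),(19,7),(12,
  0),(5,2)]⟩,⟨4,[(0,0),(0,3),(2,0),(2,0)]⟩⟩,.e ⟨false,1,⟨5,[(3,3),(8,3),(2,0),(0,0),(4,0),(4,0),(0,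
  0)]⟩,⟨0,[(9,0),(21,0)]⟩⟩ ⟨false,0,⟨11,[(2,5),(0,5),(5,5),(0,1),(19,7),(12,0),(5,2)]⟩,⟨83,[(0,1),
  (0,57),(2,27),(7,23),(8,11),(21,0),(5,22)]⟩⟩,.o ⟨false,0,⟨5,[(0,1),(0,3),(1,1),(40,0),(4,0)]⟩,⟨0,
  [(19,0),(28,0)]⟩⟩]⟩) (.Q [0,0,2,0,0,0,1,0,0,-1,1] (.p true [0,0,1] [1] (⟨0,[(36,0)]⟩,⟨0,[(35,
  0)]⟩) .k 1 (⟨0,[]⟩,⟨0,[]⟩) .k .k) (.I [0,0,-2,-2,1,0,0,1] (.R ⟨0,false,false,false,[0,-1,1],[1,-1,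
  -1],[],(⟨0,[(27,0)]⟩,⟨31,[(8,3),(5,1),(8,3),(1,0),(11,31),(1,4),(4,8),(0,1)]⟩),(⟨0,[(26,0)]⟩,⟨31,
  [(8,3),(5,1),(8,3),(1,0),(12,31),(0,4),(4,8),(0,1)]⟩),⟨2,[(10,0),(15,1),(12,0),(4,2)]⟩,.k,.k,(.r
  (-1) ⟨0,[(0,0)]⟩ ⟨12,[(3,0),(9,0),(2,7),(0,2),(5,8),(10,2),(0,1)]⟩),.k,.k,.k,⟨true,0,⟨0,[(11,0),
  (21,0)]⟩,⟨13,[(3,1),(1,4),(2,1),(5,1),(3,9),(15,0)]⟩⟩,⟨false,0,⟨0,[(21,0),(10,0)]⟩,⟨0,[(1,0),(12,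
  0)]⟩⟩,⟨false,0,⟨0,[(16,0),(34,0)]⟩,⟨31,[(2,20),(0,0),(4,0),(15,11),(9,1),(8,3)]⟩⟩,⟨true,(-1),⟨4,
  [(4,4),(6,2),(0,2),(3,0),(0,2),(1,0),(25,0)]⟩,⟨1,[(2,0),(0,0),(2,0),(26,0)]⟩⟩,⟨false,0,⟨0,[]⟩,⟨0,
  []⟩⟩,⟨false,0,⟨0,[]⟩,⟨0,[]⟩⟩,[.o ⟨false,0,⟨1,[(5,0),(28,0)]⟩,⟨11,[(2,1),(0,1),(2,7),(39,0),(4,
  0)]⟩⟩,.a ⟨true,0,⟨15,[(5,5),(2,1),(9,7),(6,3),(8,1),(10,4),(5,6)]⟩,⟨0,[(9,0)]⟩⟩ ⟨false,1,⟨1,[(50,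
  0),(0,0)]⟩,⟨13,[(3,1),(4,0),(14,0),(1,0),(8,1),(8,4)]⟩⟩ ⟨true,0,⟨11,[(4,5),(0,5),(5,5),(0,1),(19,
  7),(12,0),(5,2)]⟩,⟨0,[(1,0),(7,0)]⟩⟩,.e ⟨false,1,⟨1,[(28,0),(0,0),(21,0)]⟩,⟨0,[]⟩⟩ ⟨false,0,⟨11,
  [(4,5),(0,5),(5,5),(0,1),(19,7),(12,0),(5,2)]⟩,⟨7,[(3,4),(2,2),(7,1),(8,0),(11,0),(15,1)]⟩⟩,.o
  ⟨false,0,⟨0,[(1,0)]⟩,⟨0,[(21,0),(28,0)]⟩⟩]⟩) (.N [0,-2,1] (-1) ⟨0,[(2,0)]⟩ ⟨0,[(0,0)]⟩ (.x 0 ⟨44,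
  [(3,24),(1,1),(2,7),(4,1),(3,21),(5,9),(10,0),(2,44),(6,29),(7,3)]⟩ ⟨5,[(2,1),(1,1),(5,1),(0,3),
  (9,1),(5,7),(18,0),(0,1),(2,2)]⟩))) (.R ⟨0,false,false,false,[0,-1,1],[1,0,-1],[0,0,1],(⟨0,[(26,
  0)]⟩,⟨31,[(7,3),(5,1),(8,3),(1,0),(11,31),(1,4),(4,8),(0,1)]⟩),(⟨0,[(36,0)]⟩,⟨0,[(37,0)]⟩),⟨2,[(9,
  0),(15,1),(12,0),(4,2)]⟩,.k,.k,(.r (-1) ⟨0,[(0,0),(4,0),(0,3),(38,1),(4,1)]⟩ ⟨12,[(2,0),(9,0),(2,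
  7),(0,2),(5,8),(10,2),(0,1)]⟩),(.r (-1) ⟨0,[(1,0),(8,0),(21,0)]⟩ ⟨5,[(15,1),(0,0),(0,7),(4,1),(10,
  0),(0,0)]⟩),.k,.k,⟨true,0,⟨3,[(1,0),(0,0),(4,0),(2,3),(21,1)]⟩,⟨0,[(17,0)]⟩⟩,⟨false,0,⟨6,[(0,7),
  (10,1),(12,0),(20,1)]⟩,⟨12,[(2,10),(1,3),(8,7),(2,2),(0,3),(4,3),(22,0)]⟩⟩,⟨false,0,⟨8,[(2,0),(7,
  0),(1,0),(2,1),(0,7),(5,2)]⟩,⟨3,[(0,0),(0,2),(3,0)]⟩⟩,⟨true,(-1),⟨9,[(0,7),(3,1),(5,0),(0,1),(3,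
  7),(0,4),(1,4)]⟩,⟨3,[(1,2),(0,2),(2,0),(26,0)]⟩⟩,⟨false,0,⟨0,[]⟩,⟨0,[]⟩⟩,⟨false,0,⟨0,[]⟩,⟨0,[]⟩⟩,
  [.o ⟨false,0,⟨3,[(4,0),(13,1),(14,0)]⟩,⟨5,[(1,1),(0,1),(2,1),(39,0),(4,0)]⟩⟩,.a ⟨true,0,⟨15,[(0,
  1),(3,1),(11,3),(0,5),(0,3),(5,3),(19,4),(5,4)]⟩,⟨0,[(32,0)]⟩⟩ ⟨false,1,⟨1,[(27,0),(0,0),(21,0)]⟩,
  ⟨1,[(3,0),(10,0)]⟩⟩ ⟨true,0,⟨3,[(0,2),(3,0),(6,0),(4,0),(1,1),(31,0)]⟩,⟨0,[(2,0)]⟩⟩,.a ⟨true,0,⟨0,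
  [(34,0)]⟩,⟨0,[(31,0)]⟩⟩ ⟨true,0,⟨45,[(2,9),(1,6),(2,1),(4,7),(9,7),(0,1),(9,4)]⟩,⟨1,[(3,0),(10,
  0)]⟩⟩ ⟨false,0,⟨3,[(0,2),(3,0),(6,0),(4,0),(1,1),(31,0)]⟩,⟨13,[(1,1),(0,11),(10,3),(8,1),(22,0),
  (4,4)]⟩⟩,.a ⟨true,0,⟨1,[(2,0),(4,0),(8,0),(5,0)]⟩,⟨0,[(0,0)]⟩⟩ ⟨false,1,⟨1,[(27,0),(0,0),(21,0)]⟩,
  ⟨0,[]⟩⟩ ⟨true,0,⟨3,[(0,3),(3,0),(13,1),(14,0)]⟩,⟨0,[(2,0)]⟩⟩]⟩)))))) (.R ⟨1,false,false,true,[1,0,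
  -1],[0,1],[1,1,1],(⟨0,[(31,0)]⟩,⟨0,[(32,0)]⟩),(⟨0,[(36,0)]⟩,⟨0,[(35,0)]⟩),⟨0,[(20,0)]⟩,.k,.k,.k,
  .k,(.r (-1) ⟨1,[(0,1),(7,1),(13,0),(0,0),(16,0)]⟩ ⟨1,[(3,0),(1,1),(10,0),(12,0)]⟩),.k,⟨true,0,⟨3,
  [(2,1),(37,0),(4,0)]⟩,⟨1,[(10,0),(7,0)]⟩⟩,⟨false,2,⟨1,[(8,1),(13,0),(0,0),(16,0)]⟩,⟨0,[(1,0),(3,
  0)]⟩⟩,⟨false,0,⟨3,[(2,1),(2,3),(21,3),(12,0),(4,0)]⟩,⟨1,[(12,1),(31,0),(0,0)]⟩⟩,⟨false,1,⟨1,[(3,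
  1),(36,0),(4,0)]⟩,⟨7,[(0,6),(7,0),(8,2),(8,0),(1,0),(16,2)]⟩⟩,⟨false,0,⟨0,[(5,0),(21,0)]⟩,⟨11,[(0,
  5),(7,7),(2,3),(10,1),(0,1),(4,1),(11,2),(4,4)]⟩⟩,⟨true,1,⟨13,[(3,13),(13,5),(19,1),(2,6),(0,1),
  (2,0)]⟩,⟨0,[(0,0)]⟩⟩,[.e ⟨false,0,⟨0,[(47,0)]⟩,⟨1,[(44,0),(0,0)]⟩⟩ ⟨false,1,⟨21,[(3,6),(4,13),(1,
  6),(6,3),(11,0),(7,5),(2,10)]⟩,⟨3,[(2,1),(3,0),(8,0),(10,0),(18,2)]⟩⟩,.o ⟨false,1,⟨13,[(17,5),(19,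
  1),(2,6),(0,1),(2,0)]⟩,⟨0,[(43,0)]⟩⟩,.o ⟨false,0,⟨0,[(15,0)]⟩,⟨5,[(8,1),(13,0),(0,0),(5,3),(10,
  2)]⟩⟩,.a ⟨true,(-1),⟨0,[(1,0),(3,0)]⟩,⟨2,[(8,1),(13,0),(0,0),(5,0)]⟩⟩ ⟨false,0,⟨0,[]⟩,⟨1,[(22,0),
  (0,0),(21,0)]⟩⟩ ⟨true,1,⟨21,[(3,6),(4,13),(1,6),(6,3),(11,0),(7,5),(2,10)]⟩,⟨0,[(2,0),(2,
  0)]⟩⟩]⟩))))))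

theorem ok8 : chk K t8 l13 = true := by decide +kernel

noncomputable def t9 : Tre :=
  (.R ⟨1,true,false,true,[1,0,-1],[0,0,1],[0,1,0,-1,0,0,0,-1],(⟨0,[(27,0)]⟩,⟨0,[(28,0)]⟩),(⟨0,[(28,
  0)]⟩,⟨0,[(27,0)]⟩),⟨0,[(16,0)]⟩,.k,.k,.k,.k,(.r 0 ⟨7,[(0,3),(0,4),(2,2),(1,0),(0,1),(0,4),(27,
  1)]⟩ ⟨0,[(11,0),(2,0),(8,0)]⟩),.k,⟨false,0,⟨7,[(0,3),(0,4),(2,2),(1,0),(0,1),(0,4),(27,1)]⟩,⟨0,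
  [(5,0),(5,0),(11,0),(17,0)]⟩⟩,⟨true,1,⟨1,[(1,1),(4,1),(16,1),(12,0),(4,2)]⟩,⟨0,[(2,0)]⟩⟩,⟨false,0,
  ⟨0,[(39,0)]⟩,⟨3,[(13,1),(26,0),(0,0)]⟩⟩,⟨true,1,⟨1,[(23,3),(12,0),(4,0)]⟩,⟨2,[(0,1),(5,0),(3,0),
  (11,0)]⟩⟩,⟨true,0,⟨0,[(43,0)]⟩,⟨0,[]⟩⟩,⟨false,2,⟨5,[(4,1),(8,1),(0,1),(8,9),(12,2),(4,2)]⟩,⟨0,[(0,
  0)]⟩⟩,[]⟩)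

theorem ok9 : chk K t9 l14 = true := by decide +kernel

noncomputable def t10 : Tre :=
  (.Q [0,0,-1,0,1,0,1,0,0,-1,1] (.p true [0,0,1] [1] (⟨0,[(29,0)]⟩,⟨0,[(28,0)]⟩) .k 1 (⟨0,[]⟩,⟨0,
  []⟩) .k .k) (.S ⟨1,0,[0,1,1,0,0,0,0,1],[0,1,1],[0,0,1,0,0,0,0,1],(⟨22,[(20,2),(0,2),(8,22),(0,4),
  (4,5),(0,2)]⟩,⟨0,[(18,0)]⟩),⟨0,[(30,0)]⟩,.k,.k,⟨true,0,⟨0,[(41,0)]⟩,⟨0,[(40,0)]⟩⟩,⟨false,0,⟨0,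
  [(41,0)]⟩,⟨3,[(15,1),(26,0),(0,0)]⟩⟩,⟨false,1,⟨1,[(20,0),(0,0),(21,0)]⟩,⟨0,[]⟩⟩,⟨true,0,⟨0,[(45,
  0)]⟩,⟨0,[]⟩⟩,[.a ⟨true,0,⟨0,[(25,0)]⟩,⟨0,[(9,0),(14,0)]⟩⟩ ⟨true,0,⟨0,[(1,0)]⟩,⟨0,[(10,0)]⟩⟩
  ⟨false,0,⟨0,[(13,0),(11,0)]⟩,⟨1,[(10,1),(31,0),(0,0)]⟩⟩,.o ⟨false,1,⟨3,[(2,1),(35,0),(2,1),(1,
  0)]⟩,⟨0,[(10,0),(2,0)]⟩⟩,.o ⟨false,1,⟨0,[(0,0)]⟩,⟨0,[(28,0)]⟩⟩,.o ⟨false,1,⟨3,[(0,1),(19,0),(0,0),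
  (5,1),(10,0)]⟩,⟨0,[(13,0)]⟩⟩]⟩) (.I [1,0,1,1,0,0,0,1] (.Q [0,0,0,0,0,2,0,0,0,-1,1] (.p true [0,0,
  1] [1] (⟨0,[(31,0)]⟩,⟨0,[(30,0)]⟩) .k 1 (⟨0,[]⟩,⟨0,[]⟩) .k .k) (.R ⟨0,false,false,true,[1,-1,-1],
  [1,-1],[1,1],(⟨0,[(20,0)]⟩,⟨4,[(0,1),(21,0),(0,0),(8,2),(0,0),(5,0)]⟩),(⟨0,[(35,0)]⟩,⟨0,[(36,
  0)]⟩),⟨0,[(0,0)]⟩,.k,.k,(.r (-1) ⟨0,[(12,0),(30,1),(0,0)]⟩ ⟨20,[(1,23),(2,0),(2,2),(2,4),(6,5),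
  (11,0),(10,0)]⟩),.k,.k,.k,⟨true,0,⟨20,[(1,2),(2,0),(2,2),(2,4),(6,5),(11,0),(10,0)]⟩,⟨0,[(43,
  0)]⟩⟩,⟨false,1,⟨2,[(8,1),(13,0),(0,0),(5,0)]⟩,⟨0,[(15,0)]⟩⟩,⟨false,0,⟨0,[(1,0)]⟩,⟨1,[(12,1),(30,
  1),(0,0),(0,0)]⟩⟩,⟨true,0,⟨0,[(27,0)]⟩,⟨0,[(12,0),(2,0)]⟩⟩,⟨false,0,⟨0,[]⟩,⟨0,[]⟩⟩,⟨false,0,⟨0,
  []⟩,⟨0,[]⟩⟩,[.a ⟨true,(-1),⟨0,[(2,0),(2,0)]⟩,⟨3,[(17,1),(26,0),(0,0)]⟩⟩ ⟨false,0,⟨1,[(5,0),(9,0),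
  (25,0)]⟩,⟨1,[(22,0),(0,0),(21,0)]⟩⟩ ⟨true,0,⟨0,[(5,0)]⟩,⟨11,[(1,7),(4,5),(4,7),(5,1),(22,2),(4,
  0)]⟩⟩,.o ⟨false,0,⟨0,[(43,0)]⟩,⟨13,[(17,5),(19,1),(2,6),(0,1),(2,0)]⟩⟩,.a ⟨true,(-1),⟨0,[(2,0)]⟩,
  ⟨2,[(8,1),(13,0),(0,0),(5,0)]⟩⟩ ⟨false,0,⟨0,[]⟩,⟨1,[(22,0),(0,0),(21,0)]⟩⟩ ⟨true,0,⟨0,[(5,0)]⟩,
  ⟨13,[(6,5),(3,0),(2,1),(2,2),(0,3),(22,2)]⟩⟩,.a ⟨true,(-1),⟨0,[(7,0)]⟩,⟨0,[(8,0)]⟩⟩ ⟨true,0,⟨1,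
  [(5,0),(9,0),(25,0)]⟩,⟨1,[(29,0),(0,0)]⟩⟩ ⟨false,1,⟨1,[(5,1),(38,0),(0,0)]⟩,⟨11,[(1,7),(4,5),(4,
  7),(5,1),(22,2),(4,0)]⟩⟩]⟩) (.I [0,0,-1,-2,0,0,0,-1] (.S ⟨1,0,[0,0,-1,-2,0,0,0,-1],[1,-1,-1],[1,
  1],(⟨0,[(21,0)]⟩,⟨22,[(23,2),(0,2),(8,22),(0,4),(4,5),(0,2)]⟩),⟨0,[(1,0)]⟩,.k,(.r (-1) ⟨1,[(0,1),
  (22,0),(0,0),(20,0)]⟩ ⟨20,[(2,23),(2,0),(2,2),(2,4),(6,5),(11,0),(10,0)]⟩),⟨false,0,⟨0,[(2,0)]⟩,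
  ⟨3,[(0,2),(8,0),(8,0),(10,0),(16,1)]⟩⟩,⟨true,0,⟨0,[(44,0)]⟩,⟨0,[(43,0)]⟩⟩,⟨true,0,⟨3,[(2,0),(7,2),
  (0,0),(5,0),(0,0)]⟩,⟨0,[(0,0)]⟩⟩,⟨false,1,⟨1,[(23,0),(0,0),(21,0)]⟩,⟨0,[]⟩⟩,[.a ⟨true,(-1),⟨0,[(0,
  0),(2,0)]⟩,⟨3,[(5,1),(12,1),(21,0),(1,1),(3,0)]⟩⟩ ⟨false,0,⟨1,[(6,0),(9,0),(25,0)]⟩,⟨1,[(23,0),(0,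
  0),(21,0)]⟩⟩ ⟨true,0,⟨0,[(0,0)]⟩,⟨20,[(2,23),(2,0),(2,2),(2,4),(6,5),(11,0),(10,0)]⟩⟩,.o ⟨false,0,
  ⟨1,[(0,1),(2,1),(37,0),(4,0)]⟩,⟨11,[(5,5),(4,0),(0,0),(6,3),(22,2),(0,4),(0,2)]⟩⟩,.a ⟨true,(-1),
  ⟨0,[(3,0)]⟩,⟨2,[(9,1),(13,0),(0,0),(5,0)]⟩⟩ ⟨false,0,⟨0,[]⟩,⟨1,[(23,0),(0,0),(21,0)]⟩⟩ ⟨true,0,⟨0,
  [(0,0)]⟩,⟨3,[(2,0),(7,2),(0,0),(5,0),(0,0)]⟩⟩,.a ⟨true,(-1),⟨0,[(8,0)]⟩,⟨0,[(9,0)]⟩⟩ ⟨true,0,⟨1,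
  [(6,0),(9,0),(25,0)]⟩,⟨1,[(30,0),(0,0)]⟩⟩ ⟨false,1,⟨1,[(0,1),(44,0),(0,0)]⟩,⟨20,[(2,23),(2,0),(2,
  2),(2,4),(6,5),(11,0),(10,0)]⟩⟩]⟩) (.Q [0,0,0,2,1,0,1,1,0,-1,1] (.p true [0,0,1] [1] (⟨0,[(33,
  0)]⟩,⟨0,[(32,0)]⟩) .k 1 (⟨0,[]⟩,⟨0,[]⟩) .k .k) (.I [1,-1,-2,-1,1,0,0,-1] (.I [1,0,-2,-2,1,0,0,1]
  (.Q [0,0,2,0,0,0,1,0,0,-1,1] (.p true [0,0,1] [1] (⟨0,[(36,0)]⟩,⟨0,[(35,0)]⟩) .k 1 (⟨0,[]⟩,⟨0,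
  []⟩) .k .k) (.R ⟨0,false,false,false,[0,-1,1],[1,-1,-1],[],(⟨0,[(26,0)]⟩,⟨22,[(27,2),(0,2),(7,22),
  (1,4),(4,5),(0,2)]⟩),(⟨0,[(25,0)]⟩,⟨22,[(27,2),(0,2),(8,22),(0,4),(4,5),(0,2)]⟩),⟨2,[(5,0),(19,1),
  (12,0),(4,2)]⟩,.k,.k,(.x 0 ⟨11,[(0,4),(11,0),(14,0),(0,0),(5,7),(1,11),(6,7),(7,3)]⟩ ⟨2,[(1,0),(0,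
  1),(0,0),(1,0),(5,1),(14,3),(18,0),(0,1)]⟩),.k,.k,.k,⟨true,0,⟨1,[(4,0),(3,0)]⟩,⟨0,[(17,0),(30,
  0)]⟩⟩,⟨false,0,⟨0,[(20,0),(10,0)]⟩,⟨0,[(0,0),(12,0)]⟩⟩,⟨false,0,⟨0,[(15,0),(34,0)]⟩,⟨2,[(1,1),(21,
  0),(28,0)]⟩⟩,⟨true,(-1),⟨0,[(2,0),(8,0),(3,0)]⟩,⟨2,[(0,0),(0,0),(7,1),(22,0)]⟩⟩,⟨false,0,⟨0,[]⟩,
  ⟨0,[]⟩⟩,⟨false,0,⟨0,[]⟩,⟨0,[]⟩⟩,[.o ⟨false,0,⟨5,[(2,1),(8,1),(3,0),(0,0),(16,1),(11,0),(2,4)]⟩,⟨5,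
  [(3,1),(5,1),(35,0),(4,0)]⟩⟩,.a ⟨true,0,⟨0,[(2,0),(9,0)]⟩,⟨0,[(4,0),(5,0)]⟩⟩ ⟨false,1,⟨1,[(49,0),
  (0,0)]⟩,⟨0,[(52,0)]⟩⟩ ⟨true,0,⟨0,[(2,0),(8,0)]⟩,⟨0,[(0,0),(3,0),(5,0)]⟩⟩,.e ⟨false,1,⟨1,[(27,0),
  (0,0),(21,0)]⟩,⟨0,[]⟩⟩ ⟨false,0,⟨0,[(2,0),(8,0)]⟩,⟨12,[(0,4),(2,2),(5,4),(3,1),(8,0),(11,5),(15,
  1)]⟩⟩,.o ⟨false,0,⟨0,[(0,0)]⟩,⟨0,[(20,0),(28,0)]⟩⟩]⟩) (.Q [0,-1,-2,0,0,0,-2,-1,0,1,-2] (.p false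
  [0,0,1] [1,0,-1] (⟨0,[(37,0)]⟩,⟨0,[(36,0)]⟩) .k 2 (⟨0,[(36,0)]⟩,⟨0,[(37,0)]⟩) .k (.r (-1) ⟨1,[(1,
  0),(6,0),(5,0),(8,0)]⟩ ⟨0,[(17,1)]⟩)) (.R ⟨0,false,false,false,[0,-1,1],[1,0,-1],[1,0,0,0,0,0,0,
  -1],(⟨0,[(27,0)]⟩,⟨22,[(28,2),(0,2),(7,22),(1,4),(4,5),(0,2)]⟩),(⟨0,[(37,0)]⟩,⟨0,[(38,0)]⟩),⟨2,
  [(6,0),(19,1),(12,0),(4,2)]⟩,.k,.k,(.r (-1) ⟨1,[(0,1),(3,3),(3,11),(2,11),(34,4),(4,4)]⟩ ⟨18,[(13,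
  1),(2,11),(0,2),(5,12),(10,3),(0,5),(10,0)]⟩),(.r (-1) ⟨1,[(2,1),(2,0),(3,0)]⟩ ⟨5,[(16,1),(0,0),
  (0,7),(4,1),(10,0),(0,0)]⟩),.k,.k,⟨true,0,⟨0,[]⟩,⟨1,[(35,0),(0,0)]⟩⟩,⟨false,0,⟨6,[(1,7),(10,1),
  (12,0),(20,1)]⟩,⟨9,[(3,2),(6,1),(0,0),(11,0),(10,0),(0,15),(10,3)]⟩⟩,⟨false,0,⟨4,[(3,1),(12,4),(0,
  2),(5,0),(27,1)]⟩,⟨1,[(2,1),(2,0),(3,0)]⟩⟩,⟨true,(-1),⟨21,[(0,14),(12,4),(2,15),(0,3),(1,5),(14,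
  2),(10,0)]⟩,⟨0,[(10,0),(38,1)]⟩⟩,⟨false,0,⟨0,[]⟩,⟨0,[]⟩⟩,⟨false,0,⟨0,[]⟩,⟨0,[]⟩⟩,[.o ⟨false,0,⟨19,
  [(0,2),(2,1),(8,2),(3,1),(0,4),(16,7),(11,2)]⟩,⟨3,[(10,1),(35,0),(2,1),(1,0)]⟩⟩,.e ⟨false,1,⟨2,
  [(3,1),(14,0),(4,0)]⟩,⟨13,[(2,1),(9,3),(2,2),(6,0),(10,7),(9,0),(2,1)]⟩⟩ ⟨false,0,⟨0,[(0,0)]⟩,⟨7,
  [(2,1),(7,3),(23,1),(0,10),(0,0),(9,1),(6,1)]⟩⟩,.a ⟨true,0,⟨0,[(35,0)]⟩,⟨0,[(32,0)]⟩⟩ ⟨true,0,⟨0,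
  [(18,0)]⟩,⟨13,[(2,1),(9,3),(2,2),(6,0),(10,7),(9,0),(2,1)]⟩⟩ ⟨false,0,⟨2,[(0,1),(16,0),(7,0)]⟩,⟨3,
  [(10,1),(24,3),(10,0),(2,1),(1,0)]⟩⟩,.e ⟨false,1,⟨2,[(3,1),(14,0),(4,0)]⟩,⟨0,[(9,0)]⟩⟩ ⟨false,0,
  ⟨0,[(0,0)]⟩,⟨4,[(2,0),(6,0),(0,0),(13,0),(10,8),(0,0),(9,1)]⟩⟩]⟩) (.R ⟨0,false,false,false,[0,-1,
  1],[1,0,-1],[1,0,0,0,0,0,0,-1],(⟨0,[(27,0)]⟩,⟨22,[(28,2),(0,2),(7,22),(1,4),(4,5),(0,2)]⟩),(⟨0,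
  [(37,0)]⟩,⟨0,[(38,0)]⟩),⟨2,[(6,0),(19,1),(12,0),(4,2)]⟩,.k,.k,(.r (-1) ⟨0,[(1,0),(2,0),(3,3),(2,
  3),(34,1),(4,1)]⟩ ⟨12,[(0,0),(12,0),(2,7),(0,2),(5,8),(10,2),(0,1)]⟩),(.r (-1) ⟨1,[(2,1),(2,0),(3,
  0)]⟩ ⟨5,[(16,1),(0,0),(0,7),(4,1),(10,0),(0,0)]⟩),.k,.k,⟨true,0,⟨0,[]⟩,⟨5,[(0,0),(12,0),(3,0),(10,
  0),(0,0),(6,0)]⟩⟩,⟨false,0,⟨6,[(1,7),(10,1),(12,0),(20,1)]⟩,⟨2,[(0,2),(2,1),(14,0),(4,0)]⟩⟩,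
  ⟨false,0,⟨4,[(3,1),(12,4),(0,2),(5,0),(27,1)]⟩,⟨1,[(2,1),(2,0),(3,0)]⟩⟩,⟨true,(-1),⟨6,[(1,5),(1,
  0),(8,2),(3,5),(0,4),(1,1),(26,0)]⟩,⟨2,[(0,1),(1,1),(7,0)]⟩⟩,⟨false,0,⟨0,[]⟩,⟨0,[]⟩⟩,⟨false,0,⟨0,
  []⟩,⟨0,[]⟩⟩,[.o ⟨false,0,⟨6,[(3,1),(8,1),(3,0),(0,0),(1,0),(14,1),(11,0)]⟩,⟨11,[(0,1),(1,1),(7,3),
  (35,2),(4,2)]⟩⟩,.a ⟨true,0,⟨11,[(1,1),(1,1),(13,7),(1,1),(5,3),(19,2),(5,0)]⟩,⟨0,[(33,0)]⟩⟩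
  ⟨false,1,⟨2,[(3,1),(14,0),(4,0)]⟩,⟨13,[(2,1),(9,3),(2,2),(6,0),(10,7),(9,0),(2,1)]⟩⟩ ⟨true,0,⟨7,
  [(1,5),(1,1),(8,3),(4,3),(1,1),(26,0),(4,0)]⟩,⟨0,[(0,0)]⟩⟩,.a ⟨true,0,⟨0,[(35,0)]⟩,⟨0,[(32,0)]⟩⟩
  ⟨true,0,⟨0,[(18,0)]⟩,⟨13,[(2,1),(9,3),(2,2),(6,0),(10,7),(9,0),(2,1)]⟩⟩ ⟨false,0,⟨7,[(1,5),(1,1),
  (8,3),(4,3),(1,1),(26,0),(4,0)]⟩,⟨4,[(0,3),(2,1),(6,0),(13,0),(26,0)]⟩⟩,.a ⟨true,0,⟨3,[(0,0),(12,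
  0),(3,0),(10,0),(0,0),(5,2)]⟩,⟨0,[(1,0)]⟩⟩ ⟨false,1,⟨2,[(3,1),(14,0),(4,0)]⟩,⟨0,[(9,0)]⟩⟩ ⟨true,0,
  ⟨20,[(1,17),(1,7),(8,6),(3,2),(2,4),(14,4),(11,1)]⟩,⟨0,[(0,0)]⟩⟩]⟩))) (.R ⟨0,false,false,false,[0,
  -1,1],[1,-1,-1],[1,0,-1,-1,0,0,0,-1],(⟨0,[(25,0)]⟩,⟨22,[(26,2),(0,2),(7,22),(1,4),(4,5),(0,2)]⟩),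
  (⟨0,[(24,0)]⟩,⟨22,[(26,2),(0,2),(8,22),(0,4),(4,5),(0,2)]⟩),⟨2,[(4,0),(19,1),(12,0),(4,2)]⟩,.k,.k,
  (.r (-2) ⟨0,[(1,0),(6,0),(14,0),(23,1)]⟩ ⟨0,[(0,0)]⟩),.k,.k,.k,⟨true,0,⟨0,[]⟩,⟨1,[(33,0),(0,0)]⟩⟩,
  ⟨false,0,⟨0,[(19,0),(10,0)]⟩,⟨5,[(0,0),(0,0),(0,1),(6,4),(23,4),(10,1),(4,1)]⟩⟩,⟨false,0,⟨0,[(0,
  0),(0,0),(45,0)]⟩,⟨0,[(7,1),(40,0)]⟩⟩,⟨true,(-1),⟨0,[(1,0),(8,0),(3,0)]⟩,⟨0,[(8,0),(38,0)]⟩⟩,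
  ⟨false,0,⟨0,[]⟩,⟨0,[]⟩⟩,⟨false,0,⟨0,[]⟩,⟨0,[]⟩⟩,[.o ⟨false,0,⟨5,[(1,1),(8,1),(3,0),(0,0),(16,1),
  (11,0),(2,4)]⟩,⟨5,[(2,1),(5,1),(35,0),(4,0)]⟩⟩,.a ⟨true,0,⟨0,[(1,0),(9,0)]⟩,⟨0,[(3,0),(5,0)]⟩⟩
  ⟨false,1,⟨0,[(1,0)]⟩,⟨0,[(20,0)]⟩⟩ ⟨true,0,⟨0,[(1,0),(8,0)]⟩,⟨0,[(0,0),(7,0),(38,1)]⟩⟩,.e ⟨false,
  1,⟨2,[(1,1),(13,0),(10,0),(0,0),(19,0)]⟩,⟨1,[(3,0),(3,0)]⟩⟩ ⟨false,0,⟨0,[(1,0),(8,0)]⟩,⟨5,[(2,1),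
  (5,1),(24,5),(10,0),(4,0)]⟩⟩,.o ⟨false,0,⟨3,[(0,3),(7,1),(35,0),(2,9),(1,0)]⟩,⟨0,[(19,0),(28,
  0)]⟩⟩]⟩)) (.I [1,1,2,2,-1,0,0,1] (.S ⟨1,0,[0,0,-1,-2,0,0,0,-1],[1,-1,-1],[1,1,-1,-1,0,0,0,-1],(⟨0,
  [(24,0)]⟩,⟨22,[(26,2),(0,2),(8,22),(0,4),(4,5),(0,2)]⟩),⟨0,[(4,0)]⟩,.k,(.r (-1) ⟨0,[(16,0),(30,1),
  (0,0)]⟩ ⟨2,[(0,0),(0,0),(19,0),(0,0)]⟩),⟨false,0,⟨0,[]⟩,⟨1,[(26,0),(0,0),(21,0)]⟩⟩,⟨true,0,⟨0,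
  [(47,0)]⟩,⟨0,[(46,0)]⟩⟩,⟨true,0,⟨0,[(46,0)]⟩,⟨0,[(47,0)]⟩⟩,⟨false,1,⟨1,[(26,0),(0,0),(21,0)]⟩,⟨0,
  []⟩⟩,[.o ⟨false,0,⟨0,[(16,0),(2,0),(27,1)]⟩,⟨0,[(2,0)]⟩⟩,.a ⟨true,0,⟨0,[(15,0),(14,0),(16,1)]⟩,⟨0,
  [(0,0),(11,0)]⟩⟩ ⟨false,1,⟨0,[(16,0),(30,0),(0,0)]⟩,⟨1,[(3,0),(3,0)]⟩⟩ ⟨true,1,⟨1,[(16,1),(30,3),
  (0,0),(0,0)]⟩,⟨0,[(0,0)]⟩⟩,.a ⟨true,(-1),⟨0,[(6,0)]⟩,⟨2,[(12,1),(13,0),(0,0),(5,0)]⟩⟩ ⟨true,0,⟨0,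
  [(9,0),(6,0),(2,0)]⟩,⟨1,[(3,0),(3,0)]⟩⟩ ⟨false,1,⟨1,[(16,1),(30,3),(0,0),(0,0)]⟩,⟨0,[(3,0)]⟩⟩,.a
  ⟨true,(-1),⟨0,[(11,0)]⟩,⟨0,[(12,0)]⟩⟩ ⟨false,1,⟨0,[(16,0),(30,0),(0,0)]⟩,⟨0,[(1,0),(47,0)]⟩⟩
  ⟨true,1,⟨0,[(16,0),(30,1),(0,0)]⟩,⟨0,[(0,0)]⟩⟩]⟩) (.S ⟨1,0,[0,0,-1,-2,0,0,0,-1],[1,-1,-1],[1,1,-1,
  -1,0,0,0,-1],(⟨0,[(24,0)]⟩,⟨22,[(26,2),(0,2),(8,22),(0,4),(4,5),(0,2)]⟩),⟨0,[(4,0)]⟩,.k,(.r (-1)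
  ⟨0,[(0,0),(50,0)]⟩ ⟨4,[(1,2),(1,0),(17,1),(0,0)]⟩),⟨false,0,⟨0,[]⟩,⟨9,[(0,3),(20,1),(0,3),(10,0),
  (0,0)]⟩⟩,⟨true,0,⟨0,[(47,0)]⟩,⟨0,[(46,0)]⟩⟩,⟨true,0,⟨0,[(46,0)]⟩,⟨0,[(47,0)]⟩⟩,⟨false,1,⟨9,[(0,3),
  (20,1),(0,3),(10,0),(0,0)]⟩,⟨0,[]⟩⟩,[.o ⟨false,0,⟨3,[(0,1),(9,0),(0,0),(2,0),(17,0),(11,0),(2,
  4)]⟩,⟨0,[(2,0)]⟩⟩,.e ⟨false,1,⟨1,[(0,0),(11,0),(19,0)]⟩,⟨1,[(3,0),(3,0)]⟩⟩ ⟨false,1,⟨0,[(0,0)]⟩,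
  ⟨1,[(3,0),(16,0),(25,0)]⟩⟩,.a ⟨true,(-1),⟨0,[(6,0)]⟩,⟨6,[(0,0),(8,4),(2,1),(8,2),(0,0)]⟩⟩ ⟨true,0,
  ⟨14,[(0,5),(8,7),(0,1),(3,4),(17,3),(8,1),(2,0)]⟩,⟨1,[(3,0),(3,0)]⟩⟩ ⟨false,1,⟨1,[(0,1),(32,0),(0,
  0)]⟩,⟨0,[(3,0)]⟩⟩,.e ⟨false,1,⟨1,[(0,0),(11,0),(19,0)]⟩,⟨0,[(1,0),(47,0)]⟩⟩ ⟨false,1,⟨0,[(0,0)]⟩,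
  ⟨4,[(1,2),(1,0),(17,1),(0,0)]⟩⟩]⟩))) (.R ⟨1,false,false,false,[1,0,-1],[0,1],[1,0,1],(⟨0,[(33,
  0)]⟩,⟨0,[(34,0)]⟩),(⟨0,[(38,0)]⟩,⟨0,[(37,0)]⟩),⟨0,[(22,0)]⟩,.k,.k,.k,.k,(.r (-1) ⟨1,[(0,1),(9,1),
  (13,0),(0,0),(16,0)]⟩ ⟨32,[(1,23),(4,4),(2,14),(2,0),(6,5),(11,4),(10,4)]⟩),.k,⟨true,0,⟨0,[(45,
  0)]⟩,⟨32,[(1,2),(4,1),(2,5),(2,6),(6,8),(11,1),(10,1)]⟩⟩,⟨false,2,⟨1,[(10,1),(13,0),(0,0),(16,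
  0)]⟩,⟨0,[(4,0)]⟩⟩,⟨true,0,⟨0,[(5,0)]⟩,⟨9,[(0,1),(6,0),(2,0),(3,7),(24,1),(2,0),(0,4)]⟩⟩,⟨true,1,
  ⟨1,[(1,1),(5,1),(34,0),(4,0)]⟩,⟨8,[(0,5),(8,0),(2,0),(3,1),(22,2),(1,0)]⟩⟩,⟨true,0,⟨0,[(3,0)]⟩,⟨4,
  [(0,1),(6,0),(2,0),(3,2),(24,1),(2,0)]⟩⟩,⟨false,2,⟨11,[(1,3),(4,3),(3,3),(8,5),(22,3),(3,0),(0,
  4)]⟩,⟨0,[(0,0)]⟩⟩,[.o ⟨false,1,⟨13,[(19,5),(19,1),(2,6),(0,1),(2,0)]⟩,⟨0,[(45,0)]⟩⟩,.e ⟨false,1,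
  ⟨1,[(24,0),(0,0),(21,0)]⟩,⟨1,[(7,0),(9,0),(25,0)]⟩⟩ ⟨false,2,⟨19,[(6,1),(3,15),(1,1),(0,1),(5,7),
  (22,8),(4,6)]⟩,⟨0,[(7,0),(0,0)]⟩⟩,.o ⟨false,0,⟨0,[(17,0)]⟩,⟨5,[(10,1),(13,0),(0,0),(5,3),(10,
  2)]⟩⟩,.a ⟨true,(-1),⟨0,[(4,0)]⟩,⟨2,[(10,1),(13,0),(0,0),(5,0)]⟩⟩ ⟨true,0,⟨0,[]⟩,⟨0,[(49,0)]⟩⟩
  ⟨false,2,⟨19,[(6,1),(3,15),(1,1),(0,1),(5,7),(22,8),(4,6)]⟩,⟨1,[(0,0),(3,0),(0,0)]⟩⟩]⟩)))) (.R ⟨2,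
  true,false,false,[0,1],[1,0,-1],[1,1,1,1],(⟨0,[]⟩,⟨0,[]⟩),(⟨0,[(30,0)]⟩,⟨0,[(31,0)]⟩),⟨0,[]⟩,.k,
  .k,.k,.k,.k,.k,⟨false,0,⟨0,[(8,0)]⟩,⟨1,[(0,0),(3,0),(22,0),(16,1)]⟩⟩,⟨true,(-1),⟨0,[(1,0)]⟩,⟨5,
  [(7,1),(13,0),(0,0),(5,3),(10,2)]⟩⟩,⟨false,0,⟨0,[]⟩,⟨1,[(21,0),(0,0),(21,0)]⟩⟩,⟨true,(-1),⟨0,[(0,
  0),(0,0)]⟩,⟨4,[(3,2),(12,0),(10,0),(8,0),(2,0)]⟩⟩,⟨true,0,⟨0,[(41,0)]⟩,⟨0,[(42,0)]⟩⟩,⟨false,0,⟨2,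
  [(0,0),(9,0),(1,0),(5,0),(19,0),(5,0)]⟩,⟨3,[(3,1),(35,0),(2,1),(1,0)]⟩⟩,[]⟩)))

theorem ok10 : chk K t10 l15 = true := by decide +kernel

noncomputable def t11 : Tre :=
  (.R ⟨1,false,false,false,[0,0,1],[1,-1,-1],[1,0,0,0,0,0,0,1],(⟨0,[(32,0)]⟩,⟨0,[(31,0)]⟩),(⟨0,[(20,
  0)]⟩,⟨22,[(22,2),(0,2),(8,22),(0,4),(4,5),(0,2)]⟩),⟨0,[(21,0)]⟩,.k,.k,.k,(.r (-1) ⟨2,[(4,1),(1,0),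
  (11,1),(0,0),(23,0)]⟩ ⟨1,[(0,0),(2,0),(1,0),(6,1)]⟩),.k,.k,⟨false,1,⟨1,[(4,1),(1,0),(8,0),(10,0),
  (18,0)]⟩,⟨1,[(0,0),(2,0),(1,0),(6,1)]⟩⟩,⟨true,(-1),⟨0,[(6,0)]⟩,⟨0,[(2,0),(2,0),(5,0)]⟩⟩,⟨true,0,
  ⟨0,[]⟩,⟨0,[(47,0)]⟩⟩,⟨true,(-1),⟨7,[(0,6),(0,3),(1,2),(1,0),(20,3),(1,1)]⟩,⟨0,[(4,0)]⟩⟩,⟨false,1,
  ⟨3,[(17,1),(26,0),(0,0)]⟩,⟨0,[(43,0)]⟩⟩,⟨true,(-1),⟨1,[(0,0),(0,0),(1,0),(9,0),(12,0)]⟩,⟨0,[(4,0),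
  (38,0)]⟩⟩,[.o ⟨false,0,⟨1,[(0,0),(27,0),(14,0)]⟩,⟨0,[(2,0)]⟩⟩,.o ⟨false,0,⟨0,[(0,0)]⟩,⟨4,[(4,2),
  (12,0),(10,0),(8,0),(2,0)]⟩⟩,.o ⟨false,1,⟨5,[(8,1),(13,0),(0,0),(5,3),(10,2)]⟩,⟨0,[(15,0)]⟩⟩,.a
  ⟨true,0,⟨0,[(29,0)]⟩,⟨0,[(26,0)]⟩⟩ ⟨true,1,⟨3,[(4,1),(10,1),(10,1),(16,1),(0,0),(0,0)]⟩,⟨4,[(1,1),
  (3,1),(4,1),(0,0),(28,0)]⟩⟩ ⟨false,0,⟨0,[(0,0),(25,0)]⟩,⟨0,[(2,0),(26,0)]⟩⟩]⟩)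

theorem ok11 : chk K t11 l18 = true := by decide +kernel

noncomputable def t12 : Tre :=
  (.Q [0,1,0,-2,-1,0,0,0,0,1] (.pp false [-1,1]) (.R ⟨2,true,false,true,[0,1],[1,-1],[1,1,1,1],(⟨0,
  []⟩,⟨0,[]⟩),(⟨0,[(37,0)]⟩,⟨0,[(38,0)]⟩),⟨0,[]⟩,.k,.k,.k,(.r 0 ⟨1,[(4,0),(4,0),(2,0),(6,0)]⟩ ⟨1,
  [(0,1),(41,0),(3,1),(0,0)]⟩),.k,.k,⟨false,0,⟨15,[(1,9),(0,6),(5,2),(0,0),(2,6),(6,3),(21,2)]⟩,⟨1,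
  [(0,1),(41,0),(3,1),(0,0)]⟩⟩,⟨true,(-1),⟨7,[(0,1),(2,7),(2,3),(34,0),(5,6)]⟩,⟨1,[(42,0),(3,0)]⟩⟩,
  ⟨false,0,⟨0,[]⟩,⟨1,[(24,0),(0,0),(21,0)]⟩⟩,⟨true,(-1),⟨0,[(0,0)]⟩,⟨0,[(4,0),(10,0)]⟩⟩,⟨true,0,⟨0,
  [(44,0)]⟩,⟨0,[(45,0)]⟩⟩,⟨false,0,⟨19,[(0,17),(9,3),(8,7),(1,1),(2,0),(0,0),(21,4)]⟩,⟨0,[(1,0)]⟩⟩,
  []⟩) (.S ⟨1,0,[0,1,-1,-2],[1,-1],[1,0,-1,-1],(⟨0,[(37,0)]⟩,⟨0,[(38,0)]⟩),⟨0,[(22,0),(0,0)]⟩,.k,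
  (.r (-1) ⟨0,[(45,1),(0,0)]⟩ ⟨1,[(4,0),(4,0),(2,0),(6,0)]⟩),⟨true,0,⟨0,[]⟩,⟨0,[(49,0)]⟩⟩,⟨false,0,
  ⟨0,[(45,0)]⟩,⟨3,[(19,1),(26,0),(0,0)]⟩⟩,⟨false,1,⟨3,[(19,1),(26,0),(0,0)]⟩,⟨0,[(45,0)]⟩⟩,⟨true,0,
  ⟨0,[(49,0)]⟩,⟨0,[]⟩⟩,[.o ⟨false,0,⟨0,[(7,0),(24,0),(12,0)]⟩,⟨0,[(0,0)]⟩⟩,.o ⟨false,0,⟨0,[(45,1)]⟩,
  ⟨10,[(0,6),(5,1),(9,3),(2,0),(19,0),(2,0)]⟩⟩,.o ⟨false,0,⟨1,[(31,0),(0,0)]⟩,⟨1,[(42,0),(3,0)]⟩⟩,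
  .a ⟨true,(-1),⟨0,[(3,0),(25,0),(17,0)]⟩,⟨0,[(46,0)]⟩⟩ ⟨true,1,⟨0,[(45,0),(0,0)]⟩,⟨0,[(3,0),(0,
  0)]⟩⟩ ⟨false,1,⟨0,[(45,1),(0,0)]⟩,⟨7,[(0,5),(2,7),(2,3),(34,0),(5,6)]⟩⟩]⟩))

theorem ok12 : chk K t12 l19 = true := by decide +kernel

noncomputable def t13 : Tre :=
  (.R ⟨1,true,false,false,[1,0,-1],[0,1],[1,1,0,0,0,0,0,-1],(⟨0,[(33,0)]⟩,⟨0,[(34,0)]⟩),(⟨0,[(38,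
  0)]⟩,⟨0,[(37,0)]⟩),⟨0,[(22,0)]⟩,.k,.k,.k,.k,(.r (-1) ⟨1,[(0,1),(9,1),(13,0),(0,0),(16,0)]⟩ ⟨1,[(2,
  0),(1,1),(3,0),(0,0),(2,0),(34,0)]⟩),.k,⟨false,0,⟨3,[(0,1),(4,1),(1,1),(34,0),(0,1),(2,0)]⟩,⟨0,
  [(20,0)]⟩⟩,⟨true,1,⟨3,[(4,1),(0,1),(1,1),(34,0),(4,0)]⟩,⟨0,[(9,0)]⟩⟩,⟨false,0,⟨0,[]⟩,⟨1,[(24,0),
  (0,0),(21,0)]⟩⟩,⟨true,1,⟨0,[(4,0)]⟩,⟨16,[(0,8),(2,2),(10,0),(1,0),(11,0),(1,2),(8,4),(1,1)]⟩⟩,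
  ⟨true,0,⟨0,[(44,0)]⟩,⟨0,[(45,0)]⟩⟩,⟨false,2,⟨3,[(4,3),(14,1),(26,0),(0,0)]⟩,⟨0,[(0,0)]⟩⟩,[]⟩)

theorem ok13 : chk K t13 l20 = true := by decide +kernel

noncomputable def t14 : Tre :=
  (.Q [0,0,0,0,0,2,0,0,0,-1,1] (.p true [0,0,1] [1] (⟨0,[(35,0)]⟩,⟨0,[(34,0)]⟩) .k 1 (⟨0,[]⟩,⟨0,
  []⟩) .k .k) (.R ⟨0,false,false,false,[1,-1,-1],[0,-1,1],[0,0,-1,-1,0,0,0,1],(⟨0,[(24,0)]⟩,⟨4,[(0,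
  1),(25,0),(0,0),(8,2),(0,0),(5,0)]⟩),(⟨0,[(25,0)]⟩,⟨22,[(26,2),(0,2),(7,22),(1,4),(4,5),(0,2)]⟩),
  ⟨0,[(0,0)]⟩,.k,.k,(.r (-1) ⟨0,[(1,0),(14,1),(30,0)]⟩ ⟨0,[(2,0),(8,0)]⟩),.k,.k,.k,⟨false,1,⟨13,[(1,
  3),(10,3),(8,1),(4,2),(0,2),(4,3),(16,0)]⟩,⟨0,[]⟩⟩,⟨true,1,⟨0,[(6,0),(2,0),(5,0)]⟩,⟨0,[(10,0)]⟩⟩,
  ⟨true,1,⟨7,[(1,5),(6,3),(1,1),(0,3),(10,1),(21,0),(4,0)]⟩,⟨4,[(5,1),(1,4),(1,1),(4,1),(0,0),(28,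
  0)]⟩⟩,⟨false,2,⟨0,[(8,0),(38,0),(1,0)]⟩,⟨5,[(5,0),(1,7),(2,3),(4,1),(7,0),(8,0)]⟩⟩,⟨false,0,⟨0,
  []⟩,⟨0,[]⟩⟩,⟨false,0,⟨0,[]⟩,⟨0,[]⟩⟩,[.o ⟨false,1,⟨3,[(8,1),(35,0),(2,5),(1,0)]⟩,⟨0,[(17,0)]⟩⟩,.a
  ⟨true,1,⟨0,[(31,0),(15,0),(1,0)]⟩,⟨0,[(14,0),(15,0)]⟩⟩ ⟨false,2,⟨1,[(1,1),(24,0),(0,0),(21,0)]⟩,
  ⟨0,[(14,0)]⟩⟩ ⟨true,2,⟨3,[(8,1),(0,3),(34,0),(2,1),(1,4)]⟩,⟨0,[(10,0),(3,0)]⟩⟩,.o ⟨false,0,⟨0,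
  [(34,0)]⟩,⟨3,[(6,1),(0,1),(1,1),(34,0),(4,0)]⟩⟩,.e ⟨true,1,⟨0,[(1,0)]⟩,⟨45,[(11,13),(2,40),(5,0),
  (0,1),(10,5),(0,19),(10,6)]⟩⟩ ⟨true,2,⟨21,[(1,5),(6,7),(0,23),(2,3),(13,2),(0,2),(16,6),(4,15)]⟩,
  ⟨0,[(10,0),(3,0)]⟩⟩]⟩) (.I [1,2,1,1,-2,0,0,-2] (.Q [0,0,2,0,0,0,1,0,0,-1,1] (.p true [0,0,1] [1]
  (⟨0,[(37,0)]⟩,⟨0,[(36,0)]⟩) .k 1 (⟨0,[]⟩,⟨0,[]⟩) .k .k) (.R ⟨0,false,false,false,[0,-1,1],[1,-1],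
  [1,1,1],(⟨0,[(27,0)]⟩,⟨22,[(28,2),(0,2),(7,22),(1,4),(4,5),(0,2)]⟩),(⟨0,[(41,0)]⟩,⟨0,[(42,0)]⟩),
  ⟨2,[(2,0),(23,1),(12,0),(4,2)]⟩,.k,.k,(.r (-1) ⟨0,[(3,0),(45,0)]⟩ ⟨13,[(0,1),(0,3),(5,1),(9,0),(5,
  11),(10,2),(0,2)]⟩),.k,.k,.k,⟨true,(-1),⟨17,[(0,2),(3,6),(2,13),(2,2),(1,0),(9,0),(23,0)]⟩,⟨1,[(3,
  0),(14,0),(30,0),(1,0)]⟩⟩,⟨false,0,⟨0,[(32,0)]⟩,⟨3,[(0,1),(13,1),(13,0),(0,0),(16,0)]⟩⟩,⟨true,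
  (-1),⟨18,[(0,4),(0,8),(11,4),(8,1),(0,3),(10,2),(0,2)]⟩,⟨0,[(3,0)]⟩⟩,⟨false,0,⟨3,[(9,1),(7,1),(7,
  1),(19,0),(5,0)]⟩,⟨5,[(0,1),(2,1),(6,1),(35,0),(4,0)]⟩⟩,⟨false,0,⟨0,[]⟩,⟨0,[]⟩⟩,⟨false,0,⟨0,[]⟩,
  ⟨0,[]⟩⟩,[.o ⟨false,0,⟨0,[(49,0)]⟩,⟨8,[(4,0),(15,0),(2,2),(19,0),(2,3),(3,0)]⟩⟩,.e ⟨false,0,⟨0,[]⟩,
  ⟨13,[(3,3),(10,3),(8,1),(4,2),(0,2),(4,3),(16,0)]⟩⟩ ⟨false,1,⟨1,[(3,0),(14,0),(13,1),(16,0),(1,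
  0)]⟩,⟨71,[(0,20),(0,24),(8,24),(3,0),(8,10),(19,3),(2,12)]⟩⟩,.a ⟨true,0,⟨0,[(35,0)]⟩,⟨0,[(32,
  0)]⟩⟩ ⟨false,0,⟨3,[(0,0),(12,0),(14,0),(0,0)]⟩,⟨1,[(50,0),(0,0)]⟩⟩ ⟨true,0,⟨0,[(32,0),(16,0)]⟩,
  ⟨71,[(0,20),(0,24),(8,24),(3,0),(8,10),(19,3),(2,12)]⟩⟩,.o ⟨false,0,⟨0,[(0,0)]⟩,⟨0,[(3,0),(15,
  0)]⟩⟩]⟩) (.I [1,-2,-1,-1,2,0,0,2] (.Q [0,-1,0,-2,0,0,-1,-1,0,0,-1] (.p false [0,0,1] [] (⟨0,[(39,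
  0)]⟩,⟨0,[(38,0)]⟩) .k 0 (⟨0,[]⟩,⟨0,[]⟩) .k .k) (.S ⟨1,0,[0,0,-1,-2,0,0,0,-1],[1,-1,-1],[1,1,-1,-1,
  0,0,0,-1],(⟨0,[(28,0)]⟩,⟨22,[(30,2),(0,2),(8,22),(0,4),(4,5),(0,2)]⟩),⟨0,[(4,0)]⟩,.k,(.r (-1) ⟨10,
  [(0,7),(0,0),(11,4),(2,7),(13,0),(0,0),(4,4)]⟩ ⟨0,[(6,0),(8,0)]⟩),⟨false,0,⟨0,[]⟩,⟨38,[(0,11),(0,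
  5),(14,6),(8,14),(4,4),(0,4),(5,4)]⟩⟩,⟨true,0,⟨0,[(51,0)]⟩,⟨0,[(50,0)]⟩⟩,⟨true,0,⟨0,[(50,0)]⟩,⟨0,
  [(51,0)]⟩⟩,⟨false,1,⟨38,[(0,11),(0,5),(14,6),(8,14),(4,4),(0,4),(5,4)]⟩,⟨0,[]⟩⟩,[.o ⟨false,0,⟨0,
  [(0,0),(54,0)]⟩,⟨0,[(6,0)]⟩⟩,.o ⟨false,0,⟨0,[(0,0)]⟩,⟨1,[(6,0),(5,0),(9,0)]⟩⟩,.o ⟨false,0,⟨0,[(38,
  0)]⟩,⟨3,[(10,1),(0,1),(1,1),(34,0),(4,0)]⟩⟩,.a ⟨true,(-1),⟨0,[(15,0)]⟩,⟨0,[(16,0)]⟩⟩ ⟨true,0,⟨3,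
  [(0,0),(2,0),(1,1),(5,2),(1,0),(31,0)]⟩,⟨0,[(10,0),(4,0)]⟩⟩ ⟨false,1,⟨0,[(0,0),(15,0)]⟩,⟨0,[(6,0),
  (8,0)]⟩⟩]⟩) (.Q [0,1,2,1,0,0,2,1,0,-1,2] (.p true [0,0,1] [1,0,-1] (⟨0,[(40,0)]⟩,⟨0,[(39,0)]⟩) .k
  2 (⟨0,[(39,0)]⟩,⟨0,[(40,0)]⟩) .k (.r (-1) ⟨12,[(1,5),(3,1),(8,1),(9,7),(10,3),(12,0)]⟩ ⟨0,[(20,
  1)]⟩)) (.R ⟨0,false,false,false,[0,-1,1],[1,-1,-1],[1,0,-1,-1,0,0,0,-1],(⟨0,[(30,0)]⟩,⟨22,[(31,2),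
  (0,2),(7,22),(1,4),(4,5),(0,2)]⟩),(⟨0,[(29,0)]⟩,⟨22,[(31,2),(0,2),(8,22),(0,4),(4,5),(0,2)]⟩),⟨2,
  [(5,0),(23,1),(12,0),(4,2)]⟩,.k,.k,(.r (-1) ⟨0,[(6,0),(45,0)]⟩ ⟨19,[(0,2),(3,4),(5,2),(9,4),(5,
  15),(10,4),(0,1)]⟩),.k,.k,.k,⟨true,0,⟨0,[]⟩,⟨1,[(38,0),(0,0)]⟩⟩,⟨false,0,⟨6,[(3,3),(11,0),(12,3),
  (20,0)]⟩,⟨3,[(0,1),(13,1),(2,1),(2,1),(28,0),(4,0)]⟩⟩,⟨false,0,⟨0,[(12,0),(7,0)]⟩,⟨12,[(2,5),(3,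
  1),(8,1),(9,7),(10,3),(12,0)]⟩⟩,⟨true,(-1),⟨5,[(10,0),(1,7),(2,3),(4,1),(7,0),(8,0)]⟩,⟨3,[(0,0),
  (1,0),(10,0),(0,0),(21,2),(12,0)]⟩⟩,⟨false,0,⟨0,[]⟩,⟨0,[]⟩⟩,⟨false,0,⟨0,[]⟩,⟨0,[]⟩⟩,[.o ⟨false,0,
  ⟨6,[(12,2),(2,1),(4,0),(16,2),(11,0),(2,6),(1,0)]⟩,⟨0,[(11,0)]⟩⟩,.a ⟨true,0,⟨5,[(3,1),(16,3),(0,
  1),(6,1),(19,0),(3,5),(1,0)]⟩,⟨0,[(9,0)]⟩⟩ ⟨false,1,⟨1,[(6,0),(5,1),(8,0),(30,0),(1,0)]⟩,⟨0,[(25,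
  0)]⟩⟩ ⟨true,0,⟨3,[(6,0),(5,4),(2,2),(12,0),(23,2),(1,1)]⟩,⟨0,[(0,0)]⟩⟩,.a ⟨true,0,⟨0,[(38,0)]⟩,⟨0,
  [(35,0)]⟩⟩ ⟨true,0,⟨0,[(12,0),(39,0)]⟩,⟨0,[(25,0)]⟩⟩ ⟨false,0,⟨3,[(6,0),(5,4),(2,2),(12,0),(23,2),
  (1,1)]⟩,⟨22,[(0,18),(1,1),(14,7),(8,2),(22,1),(4,5)]⟩⟩,.a ⟨true,0,⟨1,[(38,2),(0,0)]⟩,⟨0,[(3,0)]⟩⟩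
  ⟨false,1,⟨1,[(6,0),(5,1),(8,0),(30,0),(1,0)]⟩,⟨1,[(0,0),(14,0),(11,0)]⟩⟩ ⟨true,0,⟨1,[(6,0),(5,2),
  (2,0),(12,0),(23,0)]⟩,⟨0,[(0,0)]⟩⟩]⟩) (.R ⟨0,false,false,false,[0,-1,1],[1,-1,-1],[1,0,-1,-1,0,0,
  0,-1],(⟨0,[(30,0)]⟩,⟨22,[(31,2),(0,2),(7,22),(1,4),(4,5),(0,2)]⟩),(⟨0,[(29,0)]⟩,⟨22,[(31,2),(0,2),
  (8,22),(0,4),(4,5),(0,2)]⟩),⟨2,[(5,0),(23,1),(12,0),(4,2)]⟩,.k,.k,(.r (-1) ⟨0,[(6,0),(45,0)]⟩ ⟨10,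
  [(4,3),(11,1),(3,0),(5,8),(10,1),(0,3),(10,0)]⟩),.k,.k,.k,⟨true,0,⟨0,[]⟩,⟨1,[(38,0),(0,0)]⟩⟩,
  ⟨false,0,⟨6,[(3,3),(11,0),(12,3),(20,0)]⟩,⟨0,[(11,0),(2,0),(5,0)]⟩⟩,⟨false,0,⟨0,[(12,0),(7,0)]⟩,
  ⟨12,[(2,5),(3,1),(8,1),(9,7),(10,3),(12,0)]⟩⟩,⟨true,(-1),⟨13,[(0,8),(3,2),(5,4),(9,2),(1,1),(3,1),
  (10,2)]⟩,⟨0,[(13,0),(38,0)]⟩⟩,⟨false,0,⟨0,[]⟩,⟨0,[]⟩⟩,⟨false,0,⟨0,[]⟩,⟨0,[]⟩⟩,[.o ⟨false,0,⟨25,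
  [(0,5),(9,1),(9,6),(16,10),(1,0),(9,3),(2,19)]⟩,⟨0,[(11,0)]⟩⟩,.e ⟨false,1,⟨3,[(0,1),(13,1),(2,1),
  (2,1),(28,0),(4,0)]⟩,⟨0,[(25,0)]⟩⟩ ⟨false,0,⟨0,[(0,0)]⟩,⟨7,[(13,5),(7,0),(4,0),(10,2),(0,6),(10,
  0)]⟩⟩,.a ⟨true,0,⟨0,[(38,0)]⟩,⟨0,[(35,0)]⟩⟩ ⟨true,0,⟨0,[(12,0),(39,0)]⟩,⟨0,[(25,0)]⟩⟩ ⟨false,0,⟨8,
  [(0,6),(1,0),(13,1),(3,1),(16,1),(14,0)]⟩,⟨0,[(11,0),(26,0)]⟩⟩,.e ⟨false,1,⟨3,[(0,1),(13,1),(2,1),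
  (2,1),(28,0),(4,0)]⟩,⟨0,[(11,0),(4,0)]⟩⟩ ⟨false,0,⟨0,[(0,0)]⟩,⟨5,[(11,0),(1,1),(2,0),(9,0),(0,0),
  (10,7),(10,1)]⟩⟩]⟩))) (.Q [0,-1,-2,-1,0,0,-2,-1,0,1,-2] (.p false [0,0,1] [1,0,-1] (⟨0,[(39,0)]⟩,
  ⟨0,[(38,0)]⟩) .k 2 (⟨0,[(38,0)]⟩,⟨0,[(39,0)]⟩) .k (.r (-1) ⟨7,[(4,5),(6,3),(1,1),(0,3),(10,1),(21,
  0),(4,0)]⟩ ⟨0,[(19,1)]⟩)) (.R ⟨0,false,false,false,[0,-1,1],[1,-1,-1],[1,0,-1,-1,0,0,0,-1],(⟨0,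
  [(29,0)]⟩,⟨22,[(30,2),(0,2),(7,22),(1,4),(4,5),(0,2)]⟩),(⟨0,[(28,0)]⟩,⟨22,[(30,2),(0,2),(8,22),(0,
  4),(4,5),(0,2)]⟩),⟨2,[(4,0),(23,1),(12,0),(4,2)]⟩,.k,.k,(.r (-1) ⟨0,[(5,0),(45,0)]⟩ ⟨10,[(3,3),
  (11,1),(3,0),(5,8),(10,1),(0,3),(10,0)]⟩),.k,.k,.k,⟨true,0,⟨0,[]⟩,⟨1,[(37,0),(0,0)]⟩⟩,⟨false,0,⟨6,
  [(2,3),(11,0),(12,3),(20,0)]⟩,⟨0,[(10,0),(2,0),(5,0)]⟩⟩,⟨false,0,⟨0,[(11,0),(7,0)]⟩,⟨7,[(5,5),(6,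
  3),(1,1),(0,3),(10,1),(21,0),(4,0)]⟩⟩,⟨true,(-1),⟨13,[(0,8),(2,2),(5,4),(9,2),(1,1),(3,1),(10,
  2)]⟩,⟨0,[(12,0),(38,0)]⟩⟩,⟨false,0,⟨0,[]⟩,⟨0,[]⟩⟩,⟨false,0,⟨0,[]⟩,⟨0,[]⟩⟩,[.o ⟨false,0,⟨25,[(0,5),
  (8,1),(9,6),(16,10),(1,0),(9,3),(2,19)]⟩,⟨0,[(10,0)]⟩⟩,.e ⟨false,1,⟨3,[(0,1),(12,1),(2,1),(2,1),
  (28,0),(4,0)]⟩,⟨0,[(24,0)]⟩⟩ ⟨false,0,⟨0,[(0,0)]⟩,⟨7,[(12,5),(7,0),(4,0),(10,2),(0,6),(10,0)]⟩⟩,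
  .a ⟨true,0,⟨0,[(37,0)]⟩,⟨0,[(34,0)]⟩⟩ ⟨true,0,⟨0,[(11,0),(39,0)]⟩,⟨0,[(24,0)]⟩⟩ ⟨false,0,⟨3,[(0,
  2),(14,0),(20,0),(14,0),(1,0)]⟩,⟨0,[(10,0),(26,0)]⟩⟩,.e ⟨false,1,⟨3,[(0,1),(12,1),(2,1),(2,1),(28,
  0),(4,0)]⟩,⟨0,[(10,0),(4,0)]⟩⟩ ⟨false,0,⟨0,[(0,0)]⟩,⟨5,[(10,0),(1,1),(2,0),(9,0),(0,0),(10,7),(10,
  1)]⟩⟩]⟩) (.R ⟨0,false,false,false,[0,-1,1],[1,-1,-1],[1,0,-1,-1,0,0,0,-1],(⟨0,[(29,0)]⟩,⟨22,[(30,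
  2),(0,2),(7,22),(1,4),(4,5),(0,2)]⟩),(⟨0,[(28,0)]⟩,⟨22,[(30,2),(0,2),(8,22),(0,4),(4,5),(0,2)]⟩),
  ⟨2,[(4,0),(23,1),(12,0),(4,2)]⟩,.k,.k,(.r (-1) ⟨0,[(5,0),(45,0)]⟩ ⟨19,[(0,2),(2,4),(5,2),(9,4),(5,
  15),(10,4),(0,1)]⟩),.k,.k,.k,⟨true,0,⟨0,[]⟩,⟨1,[(37,0),(0,0)]⟩⟩,⟨false,0,⟨6,[(2,3),(11,0),(12,3),
  (20,0)]⟩,⟨3,[(0,1),(12,1),(2,1),(2,1),(28,0),(4,0)]⟩⟩,⟨false,0,⟨0,[(11,0),(7,0)]⟩,⟨1,[(0,0),(4,1),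
  (8,0),(11,0)]⟩⟩,⟨true,(-1),⟨5,[(9,0),(1,7),(2,3),(4,1),(7,0),(8,0)]⟩,⟨0,[(0,0),(4,0)]⟩⟩,⟨false,0,
  ⟨0,[]⟩,⟨0,[]⟩⟩,⟨false,0,⟨0,[]⟩,⟨0,[]⟩⟩,[.o ⟨false,0,⟨6,[(11,2),(2,1),(4,0),(16,2),(11,0),(2,6),(1,
  0)]⟩,⟨0,[(10,0)]⟩⟩,.a ⟨true,0,⟨5,[(2,1),(16,3),(0,1),(6,1),(19,0),(3,5),(1,0)]⟩,⟨0,[(8,0)]⟩⟩
  ⟨false,1,⟨1,[(5,0),(5,1),(8,0),(30,0),(1,0)]⟩,⟨0,[(24,0)]⟩⟩ ⟨true,0,⟨3,[(5,0),(5,4),(2,2),(12,0),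
  (23,2),(1,1)]⟩,⟨0,[(0,0)]⟩⟩,.a ⟨true,0,⟨0,[(37,0)]⟩,⟨0,[(34,0)]⟩⟩ ⟨true,0,⟨0,[(11,0),(39,0)]⟩,⟨0,
  [(24,0)]⟩⟩ ⟨false,0,⟨3,[(5,0),(5,4),(2,2),(12,0),(23,2),(1,1)]⟩,⟨9,[(0,7),(15,3),(9,1),(21,0),(4,
  2)]⟩⟩,.a ⟨true,0,⟨1,[(37,2),(0,0)]⟩,⟨0,[(2,0)]⟩⟩ ⟨false,1,⟨1,[(5,0),(5,1),(8,0),(30,0),(1,0)]⟩,⟨1,
  [(0,0),(13,0),(11,0)]⟩⟩ ⟨true,0,⟨1,[(5,0),(5,2),(2,0),(12,0),(23,0)]⟩,⟨0,[(0,0)]⟩⟩]⟩)))) (.Q [0,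
  -1,0,-2,0,0,-1,-1,0,0,-1] (.p false [0,0,1] [] (⟨0,[(37,0)]⟩,⟨0,[(36,0)]⟩) .k 0 (⟨0,[]⟩,⟨0,[]⟩)
  .k .k) (.S ⟨1,0,[0,0,-1,-2,0,0,0,-1],[1,-1,-1],[1,1,-1,-1,0,0,0,-1],(⟨0,[(26,0)]⟩,⟨22,[(28,2),(0,
  2),(8,22),(0,4),(4,5),(0,2)]⟩),⟨0,[(2,0)]⟩,.k,(.r (-1) ⟨10,[(0,7),(0,0),(9,4),(2,7),(13,0),(0,0),
  (4,4)]⟩ ⟨0,[(4,0),(8,0)]⟩),⟨false,0,⟨0,[]⟩,⟨38,[(0,11),(0,5),(12,6),(8,14),(4,4),(0,4),(5,4)]⟩⟩,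
  ⟨true,0,⟨0,[(49,0)]⟩,⟨0,[(48,0)]⟩⟩,⟨true,0,⟨0,[(48,0)]⟩,⟨0,[(49,0)]⟩⟩,⟨false,1,⟨38,[(0,11),(0,5),
  (12,6),(8,14),(4,4),(0,4),(5,4)]⟩,⟨0,[]⟩⟩,[.o ⟨false,0,⟨0,[(0,0),(52,0)]⟩,⟨0,[(4,0)]⟩⟩,.o ⟨false,
  0,⟨0,[(0,0)]⟩,⟨1,[(4,0),(5,0),(9,0)]⟩⟩,.o ⟨false,0,⟨0,[(36,0)]⟩,⟨3,[(8,1),(0,1),(1,1),(34,0),(4,
  0)]⟩⟩,.a ⟨true,(-1),⟨0,[(13,0)]⟩,⟨0,[(14,0)]⟩⟩ ⟨true,0,⟨11,[(0,0),(2,2),(1,5),(3,13),(1,0),(31,2),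
  (2,2)]⟩,⟨0,[(8,0),(4,0)]⟩⟩ ⟨false,1,⟨0,[(0,0),(13,0)]⟩,⟨0,[(4,0),(8,0)]⟩⟩]⟩) (.Q [0,0,2,0,0,0,1,0,
  0,-1,1] (.p true [0,0,1] [1] (⟨0,[(38,0)]⟩,⟨0,[(37,0)]⟩) .k 1 (⟨0,[]⟩,⟨0,[]⟩) .k .k) (.R ⟨0,false,
  false,false,[0,-1,1],[1,-1],[1,1,1],(⟨0,[(28,0)]⟩,⟨22,[(29,2),(0,2),(7,22),(1,4),(4,5),(0,2)]⟩),
  (⟨0,[(42,0)]⟩,⟨0,[(43,0)]⟩),⟨2,[(3,0),(23,1),(12,0),(4,2)]⟩,.k,.k,(.r (-1) ⟨0,[(4,0),(45,0)]⟩ ⟨12,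
  [(0,1),(7,1),(8,5),(1,2),(4,9),(10,1),(0,1)]⟩),.k,.k,.k,⟨true,(-1),⟨17,[(0,2),(4,6),(2,13),(2,2),
  (1,0),(9,0),(23,0)]⟩,⟨1,[(4,0),(14,0),(30,0),(1,0)]⟩⟩,⟨false,0,⟨0,[(33,0)]⟩,⟨77,[(0,46),(1,6),(8,
  0),(3,44),(8,2),(10,15),(11,14)]⟩⟩,⟨true,(-1),⟨9,[(0,2),(7,2),(8,5),(6,1),(10,0),(0,0),(7,0)]⟩,⟨0,
  [(4,0)]⟩⟩,⟨false,0,⟨3,[(10,1),(7,1),(7,1),(19,0),(5,0)]⟩,⟨4,[(0,0),(1,0),(6,0),(1,0),(0,0),(34,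
  0)]⟩⟩,⟨false,0,⟨0,[]⟩,⟨0,[]⟩⟩,⟨false,0,⟨0,[]⟩,⟨0,[]⟩⟩,[.o ⟨false,0,⟨0,[(50,0)]⟩,⟨8,[(5,0),(15,0),
  (2,2),(19,0),(2,3),(3,0)]⟩⟩,.e ⟨false,0,⟨0,[]⟩,⟨18,[(2,3),(12,7),(8,1),(4,0),(0,0),(4,7),(8,0)]⟩⟩
  ⟨false,1,⟨1,[(4,0),(14,0),(13,1),(16,0),(1,0)]⟩,⟨11,[(0,3),(4,0),(5,2),(3,0),(1,6),(26,0),(2,
  1)]⟩⟩,.a ⟨true,0,⟨0,[(36,0)]⟩,⟨0,[(33,0)]⟩⟩ ⟨false,0,⟨14,[(0,2),(1,0),(11,2),(10,0),(9,2),(0,2)]⟩,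
  ⟨1,[(51,0),(0,0)]⟩⟩ ⟨true,0,⟨0,[(33,0),(16,0)]⟩,⟨11,[(0,3),(4,0),(5,2),(3,0),(1,6),(26,0),(2,
  1)]⟩⟩,.o ⟨false,0,⟨0,[(0,0)]⟩,⟨0,[(4,0),(15,0)]⟩⟩]⟩) (.Q [0,-1,2,1,1,0,2,1,0,-1,2] (.p true [0,0,
  1] [1,0,-1] (⟨0,[(39,0)]⟩,⟨0,[(38,0)]⟩) .k 2 (⟨0,[(38,0)]⟩,⟨0,[(39,0)]⟩) .k (.r (-1) ⟨12,[(2,5),
  (1,1),(8,1),(9,7),(10,3),(12,0)]⟩ ⟨0,[(19,1)]⟩)) (.R ⟨0,false,false,true,[0,-1,1],[1,-1,-1],[1,1,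
  -1,-1,0,0,0,-1],(⟨0,[(29,0)]⟩,⟨22,[(30,2),(0,2),(7,22),(1,4),(4,5),(0,2)]⟩),(⟨0,[(28,0)]⟩,⟨22,
  [(30,2),(0,2),(8,22),(0,4),(4,5),(0,2)]⟩),⟨2,[(4,0),(23,1),(12,0),(4,2)]⟩,.k,.k,(.r (-1) ⟨0,[(5,
  0),(45,0)]⟩ ⟨8,[(0,1),(8,1),(8,3),(1,2),(4,5),(10,1)]⟩),.k,.k,.k,⟨true,0,⟨0,[]⟩,⟨3,[(0,0),(14,0),
  (20,0),(14,0)]⟩⟩,⟨false,0,⟨6,[(1,3),(12,0),(12,3),(20,0)]⟩,⟨4,[(0,2),(10,0),(1,2),(2,0),(3,1),(27,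
  0)]⟩⟩,⟨true,(-1),⟨4,[(9,1),(1,4),(1,1),(4,1),(0,0),(28,0)]⟩,⟨12,[(3,5),(1,1),(8,1),(9,7),(10,3),
  (12,0)]⟩⟩,⟨false,(-1),⟨5,[(9,0),(1,7),(2,3),(4,1),(7,0),(8,0)]⟩,⟨0,[(0,0),(4,0)]⟩⟩,⟨false,0,⟨0,
  []⟩,⟨0,[]⟩⟩,⟨false,0,⟨0,[]⟩,⟨0,[]⟩⟩,[.a ⟨true,(-1),⟨3,[(7,1),(1,0),(1,1),(15,0),(8,0),(14,1)]⟩,
  ⟨11,[(2,1),(3,1),(5,3),(34,2),(5,8)]⟩⟩ ⟨false,0,⟨5,[(1,1),(5,1),(3,4),(1,2),(22,0),(11,1),(2,0)]⟩,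
  ⟨0,[(26,0)]⟩⟩ ⟨true,(-1),⟨8,[(1,9),(5,0),(1,5),(1,0),(24,1),(11,3),(2,7)]⟩,⟨0,[(0,0)]⟩⟩,.o ⟨false,
  0,⟨6,[(11,2),(2,1),(4,0),(16,2),(11,0),(2,6),(1,0)]⟩,⟨0,[(10,0)]⟩⟩,.a ⟨true,0,⟨0,[(37,0)]⟩,⟨0,
  [(34,0)]⟩⟩ ⟨false,0,⟨0,[(11,0),(39,0)]⟩,⟨0,[(26,0)]⟩⟩ ⟨true,(-1),⟨8,[(1,9),(5,0),(1,5),(1,0),(24,
  1),(11,3),(2,7)]⟩,⟨43,[(0,30),(11,8),(0,0),(2,6),(1,4),(26,7),(2,1)]⟩⟩,.a ⟨true,0,⟨3,[(0,0),(14,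
  0),(20,0),(0,3),(13,0)]⟩,⟨0,[(1,0)]⟩⟩ ⟨true,0,⟨5,[(1,1),(5,1),(3,4),(1,2),(22,0),(11,1),(2,0)]⟩,
  ⟨1,[(0,0),(13,0),(9,0)]⟩⟩ ⟨false,0,⟨6,[(1,3),(9,6),(2,0),(12,3),(20,0),(2,6)]⟩,⟨0,[(0,0)]⟩⟩]⟩)
  (.R ⟨0,false,false,true,[0,-1,1],[1,-1,-1],[1,1,-1,-1,0,0,0,-1],(⟨0,[(29,0)]⟩,⟨22,[(30,2),(0,2),
  (7,22),(1,4),(4,5),(0,2)]⟩),(⟨0,[(28,0)]⟩,⟨22,[(30,2),(0,2),(8,22),(0,4),(4,5),(0,2)]⟩),⟨2,[(4,0),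
  (23,1),(12,0),(4,2)]⟩,.k,.k,(.r (-1) ⟨0,[(5,0),(45,0)]⟩ ⟨14,[(9,1),(8,7),(0,1),(5,10),(10,2),(0,
  4),(10,0)]⟩),.k,.k,.k,⟨true,0,⟨0,[]⟩,⟨1,[(37,0),(0,0)]⟩⟩,⟨false,0,⟨6,[(1,3),(12,0),(12,3),(20,
  0)]⟩,⟨0,[(10,0),(2,0),(5,0)]⟩⟩,⟨true,(-1),⟨4,[(9,1),(1,4),(1,1),(4,1),(0,0),(28,0)]⟩,⟨12,[(3,5),
  (1,1),(8,1),(9,7),(10,3),(12,0)]⟩⟩,⟨false,(-1),⟨10,[(0,5),(8,1),(9,7),(1,5),(5,0),(19,0)]⟩,⟨0,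
  [(12,0),(38,0),(1,0)]⟩⟩,⟨false,0,⟨0,[]⟩,⟨0,[]⟩⟩,⟨false,0,⟨0,[]⟩,⟨0,[]⟩⟩,[.e ⟨false,0,⟨4,[(0,1),
  (10,0),(1,2),(2,0),(3,1),(27,0)]⟩,⟨0,[(26,0)]⟩⟩ ⟨false,(-1),⟨0,[(0,0)]⟩,⟨7,[(3,1),(8,1),(3,1),(8,
  3),(11,9),(10,2),(4,0)]⟩⟩,.o ⟨false,0,⟨29,[(0,7),(2,1),(15,14),(16,10),(1,2),(9,3),(2,19)]⟩,⟨0,
  [(10,0)]⟩⟩,.a ⟨true,0,⟨0,[(37,0)]⟩,⟨0,[(34,0)]⟩⟩ ⟨false,0,⟨0,[(11,0),(39,0)]⟩,⟨0,[(26,0)]⟩⟩ ⟨true,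
  (-1),⟨3,[(0,2),(14,0),(20,0),(14,0)]⟩,⟨0,[(10,0),(26,0)]⟩⟩,.e ⟨true,0,⟨4,[(0,1),(10,0),(1,2),(2,
  0),(3,1),(27,0)]⟩,⟨0,[(10,0),(4,0)]⟩⟩ ⟨true,(-1),⟨0,[(0,0)]⟩,⟨5,[(10,0),(1,1),(2,0),(9,0),(0,0),
  (10,7),(10,1)]⟩⟩]⟩))))))

theorem ok14 : chk K t14 l21 = true := by decide +kernel

noncomputable def t15 : Tre :=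
  (.I [0,0,-2,0,1,-2,-1] (.Q [0,0,0,0,0,2,0,0,0,0,-1] (.p false [0,0,1] [] (⟨0,[(37,0)]⟩,⟨0,[(36,
  0)]⟩) .k 0 (⟨0,[]⟩,⟨0,[]⟩) .k .k) (.R ⟨0,false,false,true,[0,-1,1],[1,0,0,0,-1],[1,0,1],(⟨0,[(27,
  0)]⟩,⟨4,[(0,1),(27,0),(0,0),(7,2),(1,0),(5,0)]⟩),(⟨0,[(30,0)]⟩,⟨0,[(31,0)]⟩),⟨0,[(0,0)]⟩,.k,.k,
  (.x 0 ⟨1,[(0,1),(34,2),(0,0)]⟩ ⟨0,[(1,0)]⟩),(.r (-1) ⟨7,[(10,3),(0,3),(13,5),(2,0),(0,0),(16,0),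
  (2,7),(0,1)]⟩ ⟨4,[(3,2),(5,1),(13,0),(27,1)]⟩),.k,.k,⟨false,0,⟨0,[]⟩,⟨1,[(28,0),(0,0),(20,0)]⟩⟩,
  ⟨true,0,⟨0,[(2,0)]⟩,⟨3,[(3,3),(6,1),(18,3),(16,0),(2,5),(1,0)]⟩⟩,⟨true,(-1),⟨0,[(3,0)]⟩,⟨0,[(21,
  0),(11,0),(15,0),(0,0)]⟩⟩,⟨false,0,⟨4,[(2,4),(0,2),(5,1),(13,0),(27,1)]⟩,⟨3,[(10,1),(18,3),(16,0),
  (2,5),(1,0)]⟩⟩,⟨false,0,⟨0,[]⟩,⟨0,[]⟩⟩,⟨false,0,⟨0,[]⟩,⟨0,[]⟩⟩,[.a ⟨true,0,⟨0,[(2,0),(32,0)]⟩,⟨0,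
  [(29,0)]⟩⟩ ⟨false,0,⟨0,[]⟩,⟨1,[(28,0),(0,0),(20,0)]⟩⟩ ⟨true,0,⟨0,[(2,0)]⟩,⟨3,[(3,3),(6,1),(18,3),
  (16,0),(2,5),(1,0)]⟩⟩,.e ⟨false,1,⟨1,[(28,0),(0,0),(21,0)]⟩,⟨1,[(11,0),(9,0),(25,0)]⟩⟩ ⟨false,1,
  ⟨1,[(2,1),(47,0),(0,0)]⟩,⟨8,[(7,2),(2,1),(0,2),(4,0),(12,8),(5,4),(10,4)]⟩⟩,.e ⟨true,0,⟨1,[(35,0),
  (0,0)]⟩,⟨1,[(11,0),(9,0),(25,0)]⟩⟩ ⟨true,0,⟨0,[(2,0)]⟩,⟨8,[(7,2),(2,1),(0,2),(4,0),(12,8),(5,4),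
  (10,4)]⟩⟩,.o ⟨false,0,⟨3,[(3,3),(6,1),(35,0),(2,5),(1,0)]⟩,⟨0,[(21,0),(28,0)]⟩⟩]⟩) (.Q [0,0,2,0,
  -1,0,-1,0,-1,1,-1,-1] (.p false [0,0,1] [1,0,0,0,-1] (⟨0,[(38,0)]⟩,⟨0,[(37,0)]⟩) .k 2 (⟨0,[(30,
  0)]⟩,⟨0,[(31,0)]⟩) .k (.r 0 ⟨0,[(21,0),(11,0)]⟩ ⟨2,[(14,0),(2,1),(10,0),(0,0),(4,0),(16,0)]⟩))
  (.R ⟨0,false,false,false,[1,-1,-1],[0,0,0,0,1],[0,1],(⟨0,[(27,0)]⟩,⟨22,[(29,2),(0,2),(8,22),(0,4),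
  (4,5),(0,2)]⟩),(⟨0,[(32,0)]⟩,⟨0,[(31,0)]⟩),⟨2,[(1,1),(37,0),(0,0),(4,2)]⟩,.k,.k,(.r (-1) ⟨1,[(10,
  0),(1,0),(22,0),(14,2),(0,0),(0,0)]⟩ ⟨0,[(5,0),(8,0)]⟩),(.r (-1) ⟨1,[(10,0),(1,0),(22,0),(14,0),
  (1,1)]⟩ ⟨0,[(23,0)]⟩),.k,.k,⟨false,1,⟨1,[(29,0),(0,0),(20,0)]⟩,⟨0,[]⟩⟩,⟨true,1,⟨3,[(9,1),(0,1),(1,
  1),(17,3),(16,0),(4,0)]⟩,⟨0,[(0,0)]⟩⟩,⟨true,0,⟨0,[(23,0)]⟩,⟨0,[(10,0),(39,0)]⟩⟩,⟨false,1,⟨0,[(9,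
  0),(20,0)]⟩,⟨0,[(3,0),(14,0),(31,0)]⟩⟩,⟨false,0,⟨0,[]⟩,⟨0,[]⟩⟩,⟨false,0,⟨0,[]⟩,⟨0,[]⟩⟩,[.e ⟨false,
  0,⟨1,[(12,0),(9,0),(25,0)]⟩,⟨1,[(29,0),(0,0),(21,0)]⟩⟩ ⟨false,1,⟨1,[(12,0),(2,0),(14,1),(16,0),(0,
  0)]⟩,⟨25,[(0,15),(2,5),(22,1),(2,3),(16,0),(5,12)]⟩⟩,.a ⟨true,0,⟨0,[(30,0)]⟩,⟨0,[(0,0),(14,0)]⟩⟩
  ⟨false,1,⟨1,[(29,0),(0,0),(20,0)]⟩,⟨0,[]⟩⟩ ⟨true,1,⟨3,[(9,1),(0,1),(1,1),(17,3),(16,0),(4,0)]⟩,⟨0,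
  [(0,0)]⟩⟩,.o ⟨false,0,⟨0,[(37,0)]⟩,⟨3,[(9,1),(0,1),(1,1),(34,0),(4,0)]⟩⟩,.e ⟨true,0,⟨1,[(12,0),(9,
  0),(25,0)]⟩,⟨1,[(36,0),(0,0)]⟩⟩ ⟨true,1,⟨1,[(12,0),(2,0),(14,1),(16,0),(0,0)]⟩,⟨0,[(0,0)]⟩⟩]⟩)
  (.Q [0,2,-1,0,-1,0,-1,0,1,0,-1,1] (.p false [0,0,1] [0,0,0,0,1] (⟨0,[(39,0)]⟩,⟨0,[(38,0)]⟩) .k 2
  (⟨0,[(32,0)]⟩,⟨0,[(31,0)]⟩) .k (.r (-1) ⟨3,[(11,1),(1,0),(8,0),(10,0),(16,1),(1,2)]⟩ ⟨2,[(19,1),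
  (15,0),(0,0),(7,0)]⟩)) (.I [0,0,-2,-2,1,0,0,1] (.R ⟨1,false,false,true,[0,-1,1],[1,0,0,0,-1],[1,0,
  1],(⟨0,[(30,0)]⟩,⟨22,[(31,2),(0,2),(7,22),(1,4),(4,5),(0,2)]⟩),(⟨0,[(33,0)]⟩,⟨0,[(34,0)]⟩),⟨0,[(3,
  0)]⟩,.k,.k,(.x 0 ⟨3,[(16,0),(12,0),(8,4),(1,2),(6,2),(1,0),(5,0)]⟩ ⟨0,[(4,0)]⟩),(.r (-1) ⟨2,[(0,
  1),(26,0),(28,3)]⟩ ⟨4,[(6,2),(5,1),(13,0),(27,1)]⟩),(.r (-1) ⟨0,[(0,0),(55,0)]⟩ ⟨4,[(6,3),(5,0),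
  (13,2),(27,0)]⟩),.k,⟨false,0,⟨0,[]⟩,⟨2,[(0,0),(16,0),(8,0),(10,0)]⟩⟩,⟨true,0,⟨0,[(5,0)]⟩,⟨3,[(6,
  3),(6,1),(18,3),(16,0),(2,5),(1,0)]⟩⟩,⟨true,(-1),⟨0,[(6,0)]⟩,⟨4,[(0,2),(12,0),(14,0),(17,1),(6,
  0)]⟩⟩,⟨false,0,⟨4,[(5,4),(0,2),(5,1),(13,0),(27,1)]⟩,⟨3,[(13,1),(18,3),(16,0),(2,5),(1,0)]⟩⟩,
  ⟨false,0,⟨4,[(6,3),(5,0),(13,2),(27,0)]⟩,⟨0,[(0,0)]⟩⟩,⟨false,0,⟨20,[(5,20),(0,14),(0,9),(4,9),(2,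
  1),(6,5),(25,3),(1,0),(3,10)]⟩,⟨3,[(13,1),(18,3),(16,0),(2,9),(1,0)]⟩⟩,[.a ⟨true,0,⟨0,[(5,0),(32,
  0)]⟩,⟨0,[(32,0)]⟩⟩ ⟨false,0,⟨0,[]⟩,⟨2,[(0,0),(16,0),(8,0),(10,0)]⟩⟩ ⟨true,0,⟨0,[(5,0)]⟩,⟨3,[(6,3),
  (6,1),(18,3),(16,0),(2,5),(1,0)]⟩⟩,.e ⟨false,1,⟨1,[(31,0),(0,0),(21,0)]⟩,⟨13,[(1,1),(3,1),(8,2),
  (2,0),(28,1),(2,0),(0,2)]⟩⟩ ⟨false,1,⟨1,[(5,1),(47,0),(0,0)]⟩,⟨1,[(1,0),(30,0),(5,2),(10,0)]⟩⟩,.e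
  ⟨true,0,⟨1,[(38,0),(0,0)]⟩,⟨13,[(1,1),(3,1),(8,2),(2,0),(28,1),(2,0),(0,2)]⟩⟩ ⟨true,0,⟨0,[(5,0)]⟩,
  ⟨1,[(1,0),(30,0),(5,2),(10,0)]⟩⟩,.o ⟨false,0,⟨3,[(6,3),(6,1),(35,0),(2,5),(1,0)]⟩,⟨0,[(24,0),(28,
  0)]⟩⟩]⟩) (.Q [0,0,2,0,-1,0,-1,0,1,0,-1,1] (.p false [0,0,1] [0,0,0,0,1] (⟨0,[(41,0)]⟩,⟨0,[(40,
  0)]⟩) .k 2 (⟨0,[(34,0)]⟩,⟨0,[(33,0)]⟩) .k (.r (-1) ⟨3,[(13,1),(1,0),(8,0),(10,0),(16,1),(1,2)]⟩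
  ⟨2,[(21,1),(15,0),(0,0),(7,0)]⟩)) (.R ⟨0,false,false,true,[1,-1,-1],[1,0,0,0,-1],[],(⟨0,[(30,0)]⟩,
  ⟨22,[(32,2),(0,2),(8,22),(0,4),(4,5),(0,2)]⟩),(⟨0,[(34,0)]⟩,⟨0,[(35,0)]⟩),⟨2,[(4,1),(37,0),(0,0),
  (4,2)]⟩,.k,.k,(.r (-1) ⟨1,[(13,0),(1,0),(22,0),(14,2),(0,0),(0,0)]⟩ ⟨0,[(8,0),(8,0)]⟩),(.r 0 ⟨1,
  [(13,0),(1,0),(22,0),(14,0)]⟩ ⟨0,[(28,0)]⟩),.k,.k,⟨false,1,⟨3,[(3,0),(14,0),(10,0),(2,1),(0,0)]⟩,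
  ⟨0,[]⟩⟩,⟨true,1,⟨15,[(6,11),(0,7),(4,9),(0,1),(1,17),(16,3),(17,0),(4,8)]⟩,⟨0,[(0,0)]⟩⟩,⟨false,1,
  ⟨0,[(28,0)]⟩,⟨0,[(13,0),(39,0)]⟩⟩,⟨true,1,⟨3,[(6,2),(0,1),(6,2),(0,0),(16,0),(22,1)]⟩,⟨1,[(0,0),
  (1,0),(10,0),(8,0),(30,1)]⟩⟩,⟨false,0,⟨0,[]⟩,⟨0,[]⟩⟩,⟨false,0,⟨0,[]⟩,⟨0,[]⟩⟩,[.a ⟨true,0,⟨0,[(6,
  0),(32,0)]⟩,⟨0,[(33,0)]⟩⟩ ⟨false,1,⟨3,[(3,0),(14,0),(10,0),(2,1),(0,0)]⟩,⟨0,[]⟩⟩ ⟨true,1,⟨15,[(6,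
  11),(0,7),(4,9),(0,1),(1,17),(16,3),(17,0),(4,8)]⟩,⟨0,[(0,0)]⟩⟩,.o ⟨false,1,⟨1,[(6,1),(32,1),(10,
  0),(4,0)]⟩,⟨83,[(0,48),(1,2),(0,31),(10,3),(0,11),(4,7),(26,26),(2,23)]⟩⟩,.o ⟨false,0,⟨0,[(40,
  0)]⟩,⟨3,[(12,1),(0,1),(1,1),(34,0),(4,0)]⟩⟩,.e ⟨false,1,⟨1,[(54,0),(0,0)]⟩,⟨2,[(0,0),(31,0),(6,
  0)]⟩⟩ ⟨false,2,⟨6,[(6,3),(0,0),(4,3),(0,2),(1,4),(2,1),(13,2),(22,5)]⟩,⟨0,[(0,0)]⟩⟩]⟩) (.Q [0,0,0,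
  0,0,0,0,0,0,-1,1,1] (.ed false [0,0,1,0,1] (.r 0 ⟨7,[(2,0),(3,0),(7,1),(1,1),(12,0),(7,3),(12,0),
  (2,1)]⟩ ⟨2,[(18,0),(2,1),(10,0),(0,0),(4,0),(16,0)]⟩)) (.K ⟨0,[2,0,-1,0,-1],(-1),(-1),(⟨0,[(35,0),
  (6,0)]⟩,⟨0,[(0,0)]⟩),.k,(.r (-1) ⟨1,[(14,0),(1,0),(22,0),(14,0),(1,1)]⟩ ⟨0,[(27,0)]⟩),(.r 0 ⟨7,
  [(2,2),(11,1),(7,2),(5,0),(27,1)]⟩ ⟨11,[(4,1),(10,5),(0,5),(13,9),(2,1),(17,0),(2,11),(0,0)]⟩),.k,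
  .k,[⟨3,[(4,3),(3,3),(6,1),(35,0),(2,5),(1,0)]⟩,⟨3,[(7,3),(0,1),(9,1),(19,1),(11,0),(3,1),(1,0)]⟩,
  ⟨0,[(34,0),(3,0),(12,0),(6,0)]⟩,⟨26,[(1,5),(3,0),(1,20),(4,11),(1,2),(7,11),(8,0),(12,4),(1,1),(3,
  8)]⟩]⟩) (.R ⟨1,false,false,false,[0,0,1,0,1],[0,0,0,0,1],[1,1,0,0,0,0,0,1],(⟨0,[(36,0),(6,0)]⟩,⟨0,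
  [(0,0)]⟩),(⟨0,[(36,0)]⟩,⟨0,[(35,0)]⟩),⟨1,[(5,0),(30,1),(6,0)]⟩,.k,.k,(.r (-1) ⟨11,[(4,1),(10,5),
  (0,5),(13,9),(2,1),(17,0),(2,11),(0,0)]⟩ ⟨7,[(2,2),(11,1),(7,2),(5,0),(27,1)]⟩),.k,.k,.k,⟨false,1,
  ⟨3,[(15,1),(10,1),(10,1),(16,1),(0,0),(0,0)]⟩,⟨0,[(23,0)]⟩⟩,⟨true,0,⟨0,[(26,0)]⟩,⟨0,[(40,0)]⟩⟩,
  ⟨true,0,⟨0,[]⟩,⟨0,[(58,0)]⟩⟩,⟨true,0,⟨6,[(14,2),(2,1),(4,0),(16,2),(11,0),(4,0)]⟩,⟨0,[(38,0)]⟩⟩,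
  ⟨false,1,⟨3,[(28,1),(26,0),(0,0)]⟩,⟨0,[(54,0)]⟩⟩,⟨true,0,⟨0,[(24,0)]⟩,⟨0,[(38,0),(15,0)]⟩⟩,[.o
  ⟨false,0,⟨1,[(3,0),(30,0),(5,0),(10,0)]⟩,⟨1,[(1,1),(16,1),(32,0),(4,0)]⟩⟩,.a ⟨true,0,⟨0,[(34,0)]⟩,
  ⟨0,[(1,0),(16,0)]⟩⟩ ⟨false,1,⟨3,[(15,1),(10,1),(10,1),(16,1),(0,0),(0,0)]⟩,⟨0,[(23,0)]⟩⟩ ⟨true,0,
  ⟨0,[(26,0)]⟩,⟨0,[(40,0)]⟩⟩,.a ⟨true,0,⟨3,[(4,1),(3,1),(25,1),(3,1),(11,0),(3,1),(1,0)]⟩,⟨2,[(7,1),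
  (10,0),(14,0)]⟩⟩ ⟨true,0,⟨7,[(3,0),(3,0),(7,1),(1,1),(12,0),(7,3),(12,0),(2,1)]⟩,⟨0,[(23,0)]⟩⟩
  ⟨false,0,⟨0,[(26,0)]⟩,⟨5,[(19,1),(13,0),(0,0),(5,3),(15,2)]⟩⟩,.a ⟨true,0,⟨0,[(34,0),(5,0)]⟩,⟨0,
  [(7,0)]⟩⟩ ⟨false,1,⟨3,[(15,1),(10,1),(10,1),(16,1),(0,0),(0,0)]⟩,⟨0,[(22,0)]⟩⟩ ⟨true,0,⟨11,[(3,3),
  (3,3),(22,1),(17,1),(2,2),(3,0)]⟩,⟨0,[(40,0)]⟩⟩]⟩)))) (.R ⟨0,false,false,true,[1,-1,-1],[0,0,0,0,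
  1],[],(⟨0,[(28,0)]⟩,⟨22,[(30,2),(0,2),(8,22),(0,4),(4,5),(0,2)]⟩),(⟨0,[(33,0)]⟩,⟨0,[(32,0)]⟩),⟨2,
  [(2,1),(37,0),(0,0),(4,2)]⟩,.k,.k,(.r (-1) ⟨1,[(11,0),(1,0),(22,0),(14,2),(0,0),(0,0)]⟩ ⟨0,[(6,0),
  (8,0)]⟩),(.r (-1) ⟨1,[(11,0),(1,0),(22,0),(14,0),(1,1)]⟩ ⟨0,[(24,0)]⟩),.k,.k,⟨true,1,⟨0,[(53,0)]⟩,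
  ⟨2,[(9,1),(25,1),(9,0),(2,0)]⟩⟩,⟨false,1,⟨0,[(1,0)]⟩,⟨2,[(4,0),(10,1),(14,1)]⟩⟩,⟨false,1,⟨0,[(26,
  0)]⟩,⟨0,[(11,0),(39,0)]⟩⟩,⟨true,0,⟨2,[(1,1),(7,1),(2,0),(4,1),(13,0),(3,0),(12,0)]⟩,⟨0,[(4,0),(14,
  0),(31,0)]⟩⟩,⟨false,0,⟨0,[]⟩,⟨0,[]⟩⟩,⟨false,0,⟨0,[]⟩,⟨0,[]⟩⟩,[.a ⟨true,(-1),⟨5,[(1,5),(7,4),(4,2),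
  (20,4),(9,0),(2,0)]⟩,⟨0,[(0,0),(33,0)]⟩⟩ ⟨false,1,⟨3,[(1,0),(14,0),(10,0),(2,1),(0,0)]⟩,⟨0,[]⟩⟩
  ⟨true,0,⟨2,[(1,2),(7,1),(25,1),(9,0),(2,0)]⟩,⟨0,[(0,0),(13,0)]⟩⟩,.o ⟨false,0,⟨11,[(1,5),(7,4),(4,
  2),(16,5),(3,4),(9,0),(2,6)]⟩,⟨5,[(0,1),(3,1),(25,1),(17,0),(4,0)]⟩⟩,.o ⟨false,0,⟨0,[(38,0)]⟩,⟨5,
  [(0,0),(0,0),(4,0),(4,0),(1,1),(2,0),(31,1)]⟩⟩,.e ⟨false,1,⟨1,[(52,0),(0,0)]⟩,⟨1,[(37,0),(0,0)]⟩⟩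
  ⟨false,1,⟨5,[(1,4),(10,0),(0,0),(17,0),(4,1),(8,0)]⟩,⟨0,[(0,0),(13,0)]⟩⟩]⟩)))) (.R ⟨0,false,false,
  true,[0,-1,1],[1,0,0,0,-1],[1,0,1],(⟨0,[(26,0)]⟩,⟨22,[(27,2),(0,2),(7,22),(1,4),(4,5),(0,2)]⟩),
  (⟨0,[(29,0)]⟩,⟨0,[(30,0)]⟩),⟨9,[(0,3),(10,1),(13,5),(17,5),(1,0),(3,4)]⟩,.k,.k,(.r (-2) ⟨5,[(9,1),
  (13,1),(0,1),(2,0),(0,0),(19,15),(0,6)]⟩ ⟨6,[(0,1),(1,5),(0,3),(4,4),(2,2),(13,0),(0,2)]⟩),(.r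
  (-1) ⟨7,[(9,3),(0,3),(13,5),(2,0),(0,0),(16,0),(2,7),(0,1)]⟩ ⟨4,[(2,2),(5,1),(13,0),(27,1)]⟩),.k,
  .k,⟨false,0,⟨0,[]⟩,⟨1,[(27,0),(0,0),(20,0)]⟩⟩,⟨true,0,⟨0,[(1,0)]⟩,⟨6,[(0,3),(11,0),(12,1),(0,5),
  (1,6),(5,3),(10,4)]⟩⟩,⟨true,(-1),⟨0,[(2,0)]⟩,⟨0,[(20,0),(11,0),(15,0),(0,0)]⟩⟩,⟨false,0,⟨4,[(1,4),
  (0,2),(5,1),(13,0),(27,1)]⟩,⟨3,[(9,1),(18,3),(16,0),(2,5),(1,0)]⟩⟩,⟨false,0,⟨0,[]⟩,⟨0,[]⟩⟩,⟨false,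
  0,⟨0,[]⟩,⟨0,[]⟩⟩,[.a ⟨true,0,⟨0,[(1,0),(32,0)]⟩,⟨0,[(28,0)]⟩⟩ ⟨false,0,⟨0,[]⟩,⟨1,[(27,0),(0,0),
  (20,0)]⟩⟩ ⟨true,0,⟨0,[(1,0)]⟩,⟨6,[(0,3),(11,0),(12,1),(0,5),(1,6),(5,3),(10,4)]⟩⟩,.e ⟨false,1,⟨1,
  [(27,0),(0,0),(21,0)]⟩,⟨1,[(10,0),(9,0),(25,0)]⟩⟩ ⟨false,1,⟨1,[(1,1),(47,0),(0,0)]⟩,⟨8,[(6,2),(2,
  1),(0,2),(4,0),(12,8),(5,4),(10,4)]⟩⟩,.e ⟨true,0,⟨1,[(34,0),(0,0)]⟩,⟨1,[(10,0),(9,0),(25,0)]⟩⟩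
  ⟨true,0,⟨0,[(1,0)]⟩,⟨8,[(6,2),(2,1),(0,2),(4,0),(12,8),(5,4),(10,4)]⟩⟩,.o ⟨false,0,⟨6,[(0,3),(11,
  0),(12,1),(0,5),(7,3),(10,4)]⟩,⟨0,[(20,0),(28,0)]⟩⟩]⟩))

theorem ok15 : chk K t15 l22 = true := by decide +kernel

noncomputable def t16 : Tre :=
  (.Q [0,1,0,-1,-1,0,0,0,1,0,0,1] (.p true [0,0,0,0,1] [] (⟨0,[(29,0)]⟩,⟨0,[(28,0)]⟩) .k 0 (⟨0,[]⟩,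
  ⟨0,[]⟩) .k .k) (.I [0,0,2,2,-1,0,0,-1] (.Q [0,0,2,0,0,0,2,0,0,-1,2] (.p true [0,0,1] [1,0,-1] (⟨0,
  [(38,0)]⟩,⟨0,[(37,0)]⟩) .k 2 (⟨0,[(37,0)]⟩,⟨0,[(38,0)]⟩) .k (.r (-1) ⟨1,[(10,1),(1,0),(8,0),(10,
  0),(16,1),(1,0)]⟩ ⟨0,[(18,1)]⟩)) (.Q [0,0,0,0,0,2,0,0,0,0,-1] (.p false [0,0,1] [] (⟨0,[(39,0)]⟩,
  ⟨0,[(38,0)]⟩) .k 0 (⟨0,[]⟩,⟨0,[]⟩) .k .k) (.R ⟨0,false,false,false,[0,-1,1],[1,0,-1],[1,1,1],(⟨0,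
  [(29,0)]⟩,⟨4,[(0,1),(29,0),(0,0),(7,2),(1,0),(5,0)]⟩),(⟨0,[(39,0)]⟩,⟨0,[(40,0)]⟩),⟨0,[(0,0)]⟩,.k,
  .k,(.r (-2) ⟨5,[(12,1),(13,1),(0,1),(2,0),(0,0),(19,15),(0,6)]⟩ ⟨0,[(2,0)]⟩),(.r (-2) ⟨1,[(12,1),
  (14,1),(23,3),(0,0),(0,0)]⟩ ⟨1,[(2,1),(4,1),(3,1),(36,0),(4,0)]⟩),.k,.k,⟨false,0,⟨0,[(23,0),(11,
  0)]⟩,⟨2,[(11,0),(4,0),(3,0),(15,0),(16,1)]⟩⟩,⟨true,0,⟨0,[(23,0),(10,0)]⟩,⟨0,[(1,0)]⟩⟩,⟨false,(-1),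
  ⟨0,[(5,0)]⟩,⟨3,[(12,1),(10,1),(10,1),(16,5),(0,2),(0,2)]⟩⟩,⟨true,(-1),⟨10,[(2,1),(6,0),(1,10),(2,
  5),(4,0),(1,6),(12,1),(12,0)]⟩,⟨0,[(12,0),(38,1)]⟩⟩,⟨false,0,⟨0,[]⟩,⟨0,[]⟩⟩,⟨false,0,⟨0,[]⟩,⟨0,
  []⟩⟩,[.o ⟨false,0,⟨6,[(11,2),(2,1),(4,0),(16,2),(11,0),(4,0)]⟩,⟨3,[(12,1),(35,0),(2,1),(1,0)]⟩⟩,
  .a ⟨true,0,⟨3,[(11,1),(7,1),(7,1),(19,0),(5,0)]⟩,⟨0,[(35,0)]⟩⟩ ⟨false,0,⟨0,[]⟩,⟨1,[(30,0),(0,0),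
  (20,0)]⟩⟩ ⟨true,0,⟨1,[(11,1),(2,0),(8,0),(10,0),(18,0)]⟩,⟨2,[(1,1),(13,0),(19,2),(12,0)]⟩⟩,.e
  ⟨false,0,⟨4,[(1,0),(13,0),(14,0),(0,0),(6,0)]⟩,⟨1,[(52,0),(0,0)]⟩⟩ ⟨false,0,⟨1,[(11,1),(2,0),(8,
  0),(10,0),(18,0)]⟩,⟨4,[(1,1),(2,0),(7,1),(0,0),(12,0),(3,0),(20,1),(1,0)]⟩⟩,.o ⟨false,0,⟨2,[(1,1),
  (13,0),(32,0)]⟩,⟨0,[(23,0),(28,0)]⟩⟩]⟩) (.Q [0,0,0,-1,0,0,1,1,1,-1,1,1] (.p true [0,0,1] [1,0,0,0,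
  -1] (⟨0,[(40,0)]⟩,⟨0,[(39,0)]⟩) .k 2 (⟨0,[(32,0)]⟩,⟨0,[(33,0)]⟩) .k (.r 0 ⟨0,[(23,0),(11,0)]⟩ ⟨2,
  [(16,0),(2,1),(10,0),(0,0),(4,0),(16,0)]⟩)) (.Q [0,-1,0,0,1,0,0,0,-1,1,0,-1] (.p false [0,0,0,0,
  1] [1] (⟨0,[(34,0)]⟩,⟨0,[(33,0)]⟩) .k 1 (⟨0,[]⟩,⟨0,[]⟩) .k .k) (.R ⟨0,false,false,false,[1,-1,-1],
  [1,0,0,0,-1],[1,1,1],(⟨0,[(30,0)]⟩,⟨181,[(0,17),(16,2),(15,17),(5,2),(2,181),(0,28),(3,8),(0,50),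
  (0,14)]⟩),(⟨0,[(34,0)]⟩,⟨0,[(35,0)]⟩),⟨2,[(2,1),(39,0),(0,0),(4,2)]⟩,.k,.k,(.r (-1) ⟨1,[(13,0),(1,
  0),(22,0),(14,2),(0,0),(0,0)]⟩ ⟨0,[(8,0),(8,0)]⟩),(.r 0 ⟨1,[(13,0),(1,0),(22,0),(14,0)]⟩ ⟨0,[(28,
  0)]⟩),.k,.k,⟨true,(-1),⟨2,[(11,1),(25,1),(9,0),(2,0)]⟩,⟨0,[(55,0)]⟩⟩,⟨false,2,⟨0,[(18,0),(13,0)]⟩,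
  ⟨3,[(1,2),(2,0),(8,0),(2,2),(6,0),(9,0)]⟩⟩,⟨false,0,⟨0,[(12,0),(4,0)]⟩,⟨1,[(13,1),(39,1),(0,0),(0,
  0)]⟩⟩,⟨true,2,⟨0,[(0,0),(11,0)]⟩,⟨1,[(1,0),(3,0),(3,0),(1,0),(1,1),(2,0),(33,0),(0,0)]⟩⟩,⟨false,0,
  ⟨0,[]⟩,⟨0,[]⟩⟩,⟨false,0,⟨0,[]⟩,⟨0,[]⟩⟩,[.a ⟨true,1,⟨0,[(0,0)]⟩,⟨2,[(1,0),(2,0),(0,1),(30,0),(14,
  0)]⟩⟩ ⟨false,0,⟨0,[(57,0)]⟩,⟨1,[(54,0),(0,0)]⟩⟩ ⟨true,2,⟨1,[(0,0),(11,0),(0,0),(1,0),(16,0),(22,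
  0)]⟩,⟨0,[(1,0),(14,0),(3,0)]⟩⟩,.o ⟨false,2,⟨0,[(32,0),(22,0)]⟩,⟨1,[(1,0),(3,0),(5,0),(38,0),(0,
  1)]⟩⟩,.o ⟨false,0,⟨0,[(40,0)]⟩,⟨3,[(12,1),(0,1),(1,1),(34,0),(4,0)]⟩⟩,.e ⟨false,0,⟨0,[]⟩,⟨1,[(32,
  0),(0,0),(21,0)]⟩⟩ ⟨false,3,⟨0,[(18,0),(13,0),(22,0)]⟩,⟨0,[(1,0),(14,0),(3,0)]⟩⟩]⟩) (.R ⟨0,false,
  false,false,[1,-1,-1],[1,0,0,0,-1],[1,1,-1,-1,0,0,0,-1],(⟨0,[(30,0)]⟩,⟨22,[(32,2),(0,2),(8,22),(0,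
  4),(4,5),(0,2)]⟩),(⟨0,[(34,0)]⟩,⟨0,[(35,0)]⟩),⟨2,[(2,1),(39,0),(0,0),(4,2)]⟩,.k,.k,(.r (-1) ⟨1,
  [(13,0),(1,0),(22,0),(14,2),(0,0),(0,0)]⟩ ⟨0,[(8,0),(8,0)]⟩),(.r 0 ⟨1,[(13,0),(1,0),(22,0),(14,
  0)]⟩ ⟨0,[(28,0)]⟩),.k,.k,⟨true,(-1),⟨0,[(0,0),(8,0),(3,0),(18,0)]⟩,⟨5,[(3,1),(4,0),(5,0),(1,2),(0,
  0),(10,2),(26,4)]⟩⟩,⟨false,2,⟨0,[(18,0),(13,0)]⟩,⟨2,[(0,1),(15,0),(0,0),(15,0),(21,0)]⟩⟩,⟨false,0,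
  ⟨0,[]⟩,⟨1,[(32,0),(0,0),(21,0)]⟩⟩,⟨true,2,⟨3,[(8,0),(1,0),(3,0),(17,3),(16,0),(5,2)]⟩,⟨7,[(0,6),
  (4,0),(3,3),(1,0),(1,3),(2,1),(21,2),(14,2)]⟩⟩,⟨false,0,⟨0,[]⟩,⟨0,[]⟩⟩,⟨false,0,⟨0,[]⟩,⟨0,[]⟩⟩,
  [.o ⟨false,2,⟨1,[(32,2),(0,0),(21,0)]⟩,⟨0,[(0,0)]⟩⟩,.o ⟨false,2,⟨0,[(32,0),(22,0)]⟩,⟨39,[(0,33),
  (2,2),(1,5),(5,0),(14,5),(11,4),(8,13),(2,1)]⟩⟩,.o ⟨false,0,⟨0,[(40,0)]⟩,⟨3,[(12,1),(0,1),(1,1),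
  (34,0),(4,0)]⟩⟩,.a ⟨true,(-1),⟨0,[(17,0)]⟩,⟨0,[(18,0)]⟩⟩ ⟨true,0,⟨0,[(13,0),(1,0),(9,0)]⟩,⟨0,[(12,
  0),(4,0)]⟩⟩ ⟨false,3,⟨0,[(18,0),(13,0),(22,0)]⟩,⟨0,[(0,0),(16,0)]⟩⟩]⟩)) (.I [1,-2,1,1,1,0,0,1]
  (.I [1,2,-1,-1,-1,0,0,-1] (.Q [0,0,-1,0,1,0,0,0,-1,0,0,-1] (.p false [0,0,0,0,1] [] (⟨0,[(36,0)]⟩,
  ⟨0,[(35,0)]⟩) .k 0 (⟨0,[]⟩,⟨0,[]⟩) .k .k) (.I [0,0,1,0,-1,1,-1,0,2] (.I [0,0,-1,0,2,-1,1,0,-2]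
  (.N [0,1,1,0,-2] (-1) ⟨0,[(4,0)]⟩ ⟨0,[(3,0)]⟩ (.x (-2) ⟨0,[(0,0)]⟩ ⟨0,[(1,0)]⟩)) (.R ⟨0,false,
  false,false,[0,0,0,0,1],[0,1],[1,0,2,1],(⟨0,[(39,0)]⟩,⟨0,[(38,0)]⟩),(⟨0,[(50,0)]⟩,⟨0,[(49,0)]⟩),
  ⟨29,[(0,13),(1,27),(4,6),(26,13),(3,1),(8,2),(4,8)]⟩,.k,.k,(.r 0 ⟨0,[(19,0),(9,0)]⟩ ⟨2,[(25,0),(5,
  0),(0,0),(3,0),(0,0)]⟩),(.r 0 ⟨0,[(19,0),(9,0)]⟩ ⟨2,[(25,0),(5,0),(0,0),(3,0),(0,0)]⟩),.k,.k,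
  ⟨false,0,⟨0,[]⟩,⟨1,[(36,0),(0,0),(20,0)]⟩⟩,⟨true,1,⟨0,[(2,0)]⟩,⟨2,[(4,0),(4,1),(0,0),(0,0),(9,
  0)]⟩⟩,⟨true,0,⟨22,[(4,9),(2,2),(3,8),(9,2),(3,0),(5,1),(12,2)]⟩,⟨1,[(3,0),(15,0),(9,1),(11,0),(16,
  0)]⟩⟩,⟨false,2,⟨6,[(2,4),(1,0),(3,0),(22,1),(4,1),(22,4)]⟩,⟨0,[(9,0)]⟩⟩,⟨false,0,⟨0,[]⟩,⟨0,[]⟩⟩,
  ⟨false,0,⟨0,[]⟩,⟨0,[]⟩⟩,[.o ⟨false,1,⟨8,[(12,0),(15,0),(2,2),(19,0),(2,3),(3,0)]⟩,⟨0,[(57,0)]⟩⟩,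
  .a ⟨true,1,⟨3,[(31,1),(26,0),(0,0)]⟩,⟨0,[(13,0)]⟩⟩ ⟨true,0,⟨22,[(4,9),(2,2),(3,8),(9,2),(3,0),(5,
  1),(12,2)]⟩,⟨0,[(19,0),(9,0)]⟩⟩ ⟨false,2,⟨3,[(2,3),(28,1),(26,0),(0,0)]⟩,⟨0,[(9,0)]⟩⟩,.o ⟨false,0,
  ⟨3,[(0,0),(8,1),(2,0),(4,0),(16,0),(4,1),(14,1),(4,0)]⟩,⟨0,[(36,0)]⟩⟩,.o ⟨false,0,⟨2,[(10,1),(9,
  0),(16,0),(16,0)]⟩,⟨0,[(2,0)]⟩⟩]⟩)) (.K ⟨0,[0,-1,0,0,1],(-1),(-1),(⟨2,[(0,0),(2,0),(1,0),(2,1),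
  (17,0),(11,0)]⟩,⟨22,[(35,2),(0,2),(0,22),(8,4),(4,5),(0,2)]⟩),(.r 0 ⟨0,[(18,0),(9,0)]⟩ ⟨2,[(24,0),
  (5,0),(0,0),(3,0),(0,0)]⟩),(.r (-1) ⟨3,[(18,3),(13,1),(2,0),(0,0),(16,0),(2,3),(0,1)]⟩ ⟨7,[(3,3),
  (3,3),(2,0),(18,0),(0,0)]⟩),.k,(.r 0 ⟨1,[(16,0),(1,0),(22,0),(14,0)]⟩ ⟨0,[(31,0)]⟩),.k,[⟨3,[(0,1),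
  (4,1),(7,0),(2,0),(1,0),(18,3),(13,1),(1,0),(4,0)]⟩,⟨2,[(3,0),(4,1),(0,0),(0,0),(9,0)]⟩,⟨2,[(4,0),
  (6,0),(23,1)]⟩,⟨0,[(8,0),(51,0)]⟩]⟩)) (.Q [0,0,0,0,1,0,1,0,-1,0,1,-1] (.p true [0,0,1] [0,0,0,0,
  1] (⟨0,[(44,0)]⟩,⟨0,[(43,0)]⟩) .k 2 (⟨0,[(37,0)]⟩,⟨0,[(36,0)]⟩) .k (.r (-1) ⟨4,[(2,2),(13,0),(10,
  0),(10,0),(16,3),(0,0)]⟩ ⟨2,[(24,1),(15,0),(0,0),(7,0)]⟩)) (.K ⟨0,[0,0,0,0,1],(-1),(-1),(⟨0,[(38,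
  0)]⟩,⟨0,[(37,0)]⟩),.k,(.r 0 ⟨0,[(18,0),(9,0)]⟩ ⟨10,[(0,1),(23,2),(5,2),(0,4),(4,1),(4,1),(16,
  0)]⟩),(.r 0 ⟨5,[(6,0),(7,0),(14,1),(0,1),(10,0),(8,1)]⟩ ⟨1,[(56,1),(0,0),(0,0)]⟩),.k,.k,[⟨0,[(0,
  0)]⟩,⟨0,[(1,0)]⟩,⟨0,[(35,0)]⟩,⟨0,[(8,0),(46,0)]⟩]⟩) (.I [0,0,1,0,-2,1,-1,0,2] (.N [0,1,1,0,-2]
  (-1) ⟨0,[(4,0)]⟩ ⟨0,[(3,0)]⟩ (.x (-3) ⟨3,[(16,1),(0,1),(1,1),(14,3),(1,7),(2,7),(14,0),(4,0)]⟩ ⟨0,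
  [(0,0)]⟩)) (.S ⟨1,0,[0,1,0,-1],[0,0,0,0,1],[1,2],(⟨0,[(39,0)]⟩,⟨0,[(38,0)]⟩),⟨2,[(0,0),(0,0),(0,
  0),(3,0),(32,0)]⟩,.k,(.r 0 ⟨0,[(19,0),(9,0)]⟩ ⟨2,[(25,0),(5,0),(0,0),(3,0),(0,0)]⟩),⟨false,0,⟨0,
  []⟩,⟨1,[(36,0),(0,0),(21,0)]⟩⟩,⟨true,0,⟨0,[(57,0)]⟩,⟨0,[(56,0)]⟩⟩,⟨true,0,⟨0,[(56,0)]⟩,⟨0,[(57,
  0)]⟩⟩,⟨false,1,⟨1,[(36,0),(0,0),(21,0)]⟩,⟨0,[]⟩⟩,[.e ⟨false,0,⟨0,[(51,0)]⟩,⟨0,[(59,0)]⟩⟩ ⟨false,0,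
  ⟨0,[(19,0),(9,0)]⟩,⟨3,[(31,1),(26,0),(0,0)]⟩⟩,.o ⟨false,0,⟨1,[(9,1),(44,0),(4,0)]⟩,⟨2,[(5,0),(6,
  0),(23,1)]⟩⟩,.o ⟨false,0,⟨5,[(1,2),(8,1),(11,0),(14,0),(16,1)]⟩,⟨0,[(36,0)]⟩⟩,.a ⟨true,(-1),⟨0,
  [(2,0)]⟩,⟨11,[(5,2),(7,2),(8,3),(13,8),(3,3),(0,2),(11,0),(5,2)]⟩⟩ ⟨false,0,⟨2,[(3,0),(19,0),(34,
  0)]⟩,⟨4,[(7,0),(13,0),(14,0),(0,0),(6,0),(14,4)]⟩⟩ ⟨true,0,⟨0,[(19,0),(9,0)]⟩,⟨3,[(11,0),(18,0),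
  (0,0)]⟩⟩]⟩)))) (.Q [0,0,-1,0,1,0,0,0,-1,0,0,-1] (.p false [0,0,0,0,1] [] (⟨0,[(36,0)]⟩,⟨0,[(35,
  0)]⟩) .k 0 (⟨0,[]⟩,⟨0,[]⟩) .k .k) (.Q [0,0,-1,0,1,0,1,0,-1,0,1,-1] (.p true [0,0,1] [0,0,0,0,1]
  (⟨0,[(44,0)]⟩,⟨0,[(43,0)]⟩) .k 2 (⟨0,[(37,0)]⟩,⟨0,[(36,0)]⟩) .k (.r (-1) ⟨4,[(2,2),(13,0),(10,0),
  (10,0),(16,3),(0,0)]⟩ ⟨2,[(24,1),(15,0),(0,0),(7,0)]⟩)) (.Q [0,0,0,0,0,-1,0,0,0,0,0,1] (.ed false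
  [1,-1,0,0,1] .k) (.K ⟨0,[0,-1,0,0,1],(-1),(-1),(⟨0,[(0,0)]⟩,⟨22,[(36,2),(0,2),(0,22),(8,4),(4,5),
  (0,2)]⟩),(.r 0 ⟨0,[(19,0),(9,0)]⟩ ⟨2,[(25,0),(5,0),(0,0),(3,0),(0,0)]⟩),(.r (-1) ⟨3,[(19,3),(13,
  1),(2,0),(0,0),(16,0),(2,3),(0,1)]⟩ ⟨7,[(4,3),(3,3),(2,0),(18,0),(0,0)]⟩),.k,(.r 0 ⟨1,[(17,0),(1,
  0),(22,0),(14,0)]⟩ ⟨0,[(32,0)]⟩),.k,[⟨0,[(1,0)]⟩,⟨2,[(4,0),(4,1),(0,0),(0,0),(9,0)]⟩,⟨2,[(5,0),(6,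
  0),(23,1)]⟩,⟨0,[(9,0),(51,0)]⟩]⟩) (.R ⟨0,false,false,true,[1,-1,-1],[1,0,-1,0,-1],[],(⟨0,[(34,
  0)]⟩,⟨22,[(36,2),(0,2),(8,22),(0,4),(4,5),(0,2)]⟩),(⟨0,[(0,0),(33,0)]⟩,⟨0,[(39,0),(6,0)]⟩),⟨2,[(6,
  1),(39,0),(0,0),(4,2)]⟩,.k,.k,(.r (-1) ⟨1,[(17,0),(1,0),(22,0),(14,2),(0,0),(0,0)]⟩ ⟨0,[(12,0),(8,
  0)]⟩),(.r 0 ⟨0,[(19,0),(9,0)]⟩ ⟨2,[(25,0),(5,0),(0,0),(3,0),(0,0)]⟩),.k,.k,⟨false,1,⟨4,[(4,0),(13,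
  1),(10,1),(10,1),(16,2),(0,1)]⟩,⟨0,[(26,0)]⟩⟩,⟨true,1,⟨0,[(2,0)]⟩,⟨2,[(4,0),(4,1),(0,0),(0,0),(9,
  0)]⟩⟩,⟨false,1,⟨0,[(32,0)]⟩,⟨0,[(17,0),(39,0)]⟩⟩,⟨true,1,⟨2,[(5,0),(6,0),(23,1)]⟩,⟨0,[(9,0)]⟩⟩,
  ⟨false,0,⟨0,[]⟩,⟨0,[]⟩⟩,⟨false,0,⟨0,[]⟩,⟨0,[]⟩⟩,[.e ⟨false,1,⟨1,[(36,0),(0,0),(20,0)]⟩,⟨0,[]⟩⟩
  ⟨false,1,⟨0,[(2,0),(14,0)]⟩,⟨0,[(9,0),(22,0)]⟩⟩,.o ⟨false,1,⟨13,[(2,13),(14,1),(2,5),(4,9),(16,1),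
  (11,2),(4,2)]⟩,⟨0,[(9,0),(6,0)]⟩⟩,.o ⟨false,0,⟨0,[(44,0)]⟩,⟨3,[(16,1),(0,1),(1,1),(34,0),(4,0)]⟩⟩,
  .a ⟨true,(-1),⟨0,[(21,0)]⟩,⟨0,[(22,0)]⟩⟩ ⟨false,1,⟨1,[(58,0),(0,0)]⟩,⟨4,[(7,0),(13,0),(14,0),(0,
  0),(6,0)]⟩⟩ ⟨true,1,⟨0,[(2,0),(14,0)]⟩,⟨1,[(9,0),(0,0),(7,0),(1,0),(0,0)]⟩⟩]⟩)) (.Q [0,2,0,-1,-2,
  0,-1,-1,1,0,-1,1] (.p false [0,0,1] [0,0,0,0,1] (⟨0,[(45,0)]⟩,⟨0,[(44,0)]⟩) .k 2 (⟨0,[(38,0)]⟩,⟨0,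
  [(37,0)]⟩) .k (.r (-1) ⟨4,[(3,2),(13,0),(10,0),(10,0),(16,3),(0,0)]⟩ ⟨2,[(25,1),(15,0),(0,0),(7,
  0)]⟩)) (.R ⟨0,false,false,false,[1,-1,-1],[1,0,0,0,-1],[1,1,1],(⟨0,[(34,0)]⟩,⟨22,[(36,2),(0,2),(8,
  22),(0,4),(4,5),(0,2)]⟩),(⟨0,[(38,0)]⟩,⟨0,[(39,0)]⟩),⟨2,[(6,1),(39,0),(0,0),(4,2)]⟩,.k,.k,(.r
  (-1) ⟨1,[(17,0),(1,0),(22,0),(14,2),(0,0),(0,0)]⟩ ⟨0,[(12,0),(8,0)]⟩),(.r 0 ⟨1,[(17,0),(1,0),(22,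
  0),(14,0)]⟩ ⟨0,[(32,0)]⟩),.k,.k,⟨true,(-1),⟨2,[(15,1),(25,1),(9,0),(2,0)]⟩,⟨0,[(59,0)]⟩⟩,⟨false,2,
  ⟨0,[(22,0),(13,0)]⟩,⟨0,[(1,0)]⟩⟩,⟨false,0,⟨6,[(4,1),(6,0),(6,1),(2,3),(8,1),(23,0)]⟩,⟨1,[(17,1),
  (39,1),(0,0),(0,0)]⟩⟩,⟨true,2,⟨14,[(2,1),(0,2),(0,6),(2,1),(6,4),(7,5),(13,12),(16,0)]⟩,⟨0,[(0,
  0)]⟩⟩,⟨false,0,⟨0,[]⟩,⟨0,[]⟩⟩,⟨false,0,⟨0,[]⟩,⟨0,[]⟩⟩,[.e ⟨false,0,⟨0,[(61,0)]⟩,⟨1,[(58,0),(0,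
  0)]⟩⟩ ⟨false,2,⟨5,[(2,5),(9,1),(4,1),(1,3),(33,0),(5,4)]⟩,⟨2,[(1,1),(7,0),(20,0),(11,0)]⟩⟩,.o
  ⟨false,2,⟨0,[(36,0),(22,0)]⟩,⟨4,[(0,3),(8,0),(2,1),(5,0),(35,0)]⟩⟩,.o ⟨false,0,⟨0,[(44,0)]⟩,⟨3,
  [(16,1),(0,1),(1,1),(34,0),(4,0)]⟩⟩,.a ⟨true,(-1),⟨0,[(21,0)]⟩,⟨0,[(22,0)]⟩⟩ ⟨false,0,⟨0,[]⟩,⟨1,
  [(36,0),(0,0),(21,0)]⟩⟩ ⟨true,2,⟨5,[(2,5),(9,1),(4,1),(1,3),(33,0),(5,4)]⟩,⟨14,[(0,8),(0,5),(5,0),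
  (7,2),(2,2),(2,4),(8,5),(23,1)]⟩⟩]⟩) (.R ⟨1,true,false,false,[0,0,1],[0,0,0,0,1],[0,0,0,-1,0,0,0,
  1],(⟨0,[(46,0)]⟩,⟨0,[(45,0)]⟩),(⟨0,[(39,0)]⟩,⟨0,[(38,0)]⟩),⟨0,[(35,0)]⟩,.k,.k,.k,.k,(.r (-2) ⟨0,
  [(32,0),(24,1),(0,0)]⟩ ⟨0,[(3,3),(4,0),(3,1),(0,8),(3,5),(2,0),(33,3)]⟩),.k,⟨true,1,⟨4,[(4,2),(13,
  0),(10,0),(10,0),(16,8),(0,0)]⟩,⟨0,[(24,0)]⟩⟩,⟨false,0,⟨0,[(1,0),(56,0)]⟩,⟨3,[(0,0),(4,0),(1,0),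
  (11,1),(16,1)]⟩⟩,⟨true,0,⟨0,[(57,0)]⟩,⟨0,[(56,0)]⟩⟩,⟨false,(-1),⟨0,[(1,0),(15,0)]⟩,⟨1,[(0,0),(18,
  0),(12,0),(3,0),(20,0)]⟩⟩,⟨false,1,⟨1,[(36,0),(0,0),(21,0)]⟩,⟨0,[]⟩⟩,⟨true,(-1),⟨3,[(1,1),(7,0),
  (7,0),(6,0),(2,1),(9,0),(17,1)]⟩,⟨0,[(0,0),(12,1),(40,0)]⟩⟩,[]⟩))) (.Q [0,0,0,0,0,1,0,0,0,0,0,-1]
  (.ed true [1,-1,0,0,1] .k) (.R ⟨0,false,false,true,[0,0,0,0,1],[0,1],[],(⟨0,[(38,0)]⟩,⟨0,[(37,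
  0)]⟩),(⟨0,[(49,0)]⟩,⟨0,[(48,0)]⟩),⟨0,[(0,0)]⟩,.k,.k,(.r 0 ⟨0,[(18,0),(9,0)]⟩ ⟨2,[(24,0),(5,0),(0,
  0),(3,0),(0,0)]⟩),(.r 0 ⟨0,[(18,0),(9,0)]⟩ ⟨2,[(24,0),(5,0),(0,0),(3,0),(0,0)]⟩),.k,.k,⟨true,1,⟨1,
  [(56,1),(0,0),(0,0)]⟩,⟨7,[(7,0),(2,1),(3,3),(2,2),(1,0),(9,0),(23,0)]⟩⟩,⟨false,2,⟨0,[(35,0),(21,
  0)]⟩,⟨0,[(1,0)]⟩⟩,⟨false,1,⟨0,[(58,0)]⟩,⟨0,[(60,0)]⟩⟩,⟨true,1,⟨2,[(4,0),(6,0),(23,1)]⟩,⟨0,[(8,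
  0)]⟩⟩,⟨false,0,⟨0,[]⟩,⟨0,[]⟩⟩,⟨false,0,⟨0,[]⟩,⟨0,[]⟩⟩,[.e ⟨false,1,⟨1,[(35,0),(0,0),(20,0)]⟩,⟨0,
  []⟩⟩ ⟨false,1,⟨0,[(35,0),(18,0)]⟩,⟨0,[(8,0),(49,0)]⟩⟩,.o ⟨false,1,⟨8,[(11,0),(15,0),(2,2),(19,0),
  (2,3),(3,0)]⟩,⟨0,[(56,0)]⟩⟩,.o ⟨false,0,⟨1,[(1,1),(51,0),(3,0)]⟩,⟨0,[(35,0)]⟩⟩,.a ⟨true,(-1),⟨0,
  [(1,0)]⟩,⟨14,[(2,2),(1,2),(7,5),(8,6),(13,11),(3,3),(12,0)]⟩⟩ ⟨false,1,⟨1,[(57,0),(0,0)]⟩,⟨4,[(6,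
  0),(13,0),(14,0),(0,0),(6,0)]⟩⟩ ⟨true,1,⟨0,[(35,0),(18,0)]⟩,⟨0,[(1,0),(54,0)]⟩⟩]⟩) (.S ⟨1,0,[0,0,
  1],[1,1,0,0,-1],[0,-1,1],(⟨22,[(35,2),(0,2),(0,22),(8,4),(4,5),(0,2)]⟩,⟨0,[(0,0)]⟩),⟨0,[(37,0)]⟩,
  (.r (-1) ⟨2,[(24,0),(5,0),(0,0),(3,0),(0,0)]⟩ ⟨0,[(18,0),(9,0)]⟩),.k,⟨true,0,⟨0,[(56,0)]⟩,⟨0,[(55,
  0)]⟩⟩,⟨false,0,⟨0,[(56,0)]⟩,⟨3,[(30,1),(26,0),(0,0)]⟩⟩,⟨false,1,⟨1,[(35,0),(0,0),(21,0)]⟩,⟨0,[]⟩⟩,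
  ⟨true,0,⟨0,[(60,0)]⟩,⟨0,[]⟩⟩,[.o ⟨false,1,⟨0,[(35,0)]⟩,⟨1,[(1,1),(51,0),(3,0)]⟩⟩,.e ⟨false,1,⟨0,
  [(58,0)]⟩,⟨0,[(50,0)]⟩⟩ ⟨false,1,⟨1,[(35,0),(0,0),(21,0)]⟩,⟨1,[(18,0),(9,0),(25,0)]⟩⟩,.a ⟨true,1,
  ⟨14,[(2,2),(1,2),(7,5),(8,6),(13,11),(3,3),(12,0)]⟩,⟨0,[(1,0)]⟩⟩ ⟨false,1,⟨4,[(6,0),(13,0),(14,0),
  (0,0),(6,0),(14,4)]⟩,⟨1,[(18,0),(9,0),(25,0)]⟩⟩ ⟨true,0,⟨4,[(6,0),(13,0),(14,0),(0,0),(6,0)]⟩,⟨1,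
  [(18,0),(9,0),(25,0)]⟩⟩,.o ⟨false,1,⟨0,[(35,0)]⟩,⟨1,[(1,1),(51,0),(3,0)]⟩⟩]⟩)))) (.Q [0,0,0,0,0,1,
  0,0,0,0,0,-1] (.ed true [1,-1,0,0,1] .k) (.Q [0,0,1,0,-1,0,0,0,1,0,0,1] (.p true [0,0,0,0,1] []
  (⟨0,[(36,0)]⟩,⟨0,[(35,0)]⟩) .k 0 (⟨0,[]⟩,⟨0,[]⟩) .k .k) (.R ⟨0,false,false,true,[0,0,0,0,1],[0,1],
  [],(⟨0,[(37,0)]⟩,⟨0,[(36,0)]⟩),(⟨0,[(48,0)]⟩,⟨0,[(47,0)]⟩),⟨0,[(1,0)]⟩,.k,.k,(.r 0 ⟨0,[(17,0),(9,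
  0)]⟩ ⟨2,[(23,0),(5,0),(0,0),(3,0),(0,0)]⟩),(.r 0 ⟨0,[(17,0),(9,0)]⟩ ⟨2,[(23,0),(5,0),(0,0),(3,0),
  (0,0)]⟩),.k,.k,⟨true,1,⟨1,[(55,1),(0,0),(0,0)]⟩,⟨7,[(6,0),(2,1),(3,3),(2,2),(1,0),(9,0),(23,0)]⟩⟩,
  ⟨false,2,⟨0,[(34,0),(21,0)]⟩,⟨0,[(0,0)]⟩⟩,⟨false,1,⟨0,[(57,0)]⟩,⟨0,[(59,0)]⟩⟩,⟨true,1,⟨2,[(3,0),
  (6,0),(23,1)]⟩,⟨0,[(7,0)]⟩⟩,⟨false,0,⟨0,[]⟩,⟨0,[]⟩⟩,⟨false,0,⟨0,[]⟩,⟨0,[]⟩⟩,[.e ⟨false,1,⟨1,[(34,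
  0),(0,0),(20,0)]⟩,⟨0,[]⟩⟩ ⟨false,1,⟨0,[(34,0),(18,0)]⟩,⟨0,[(7,0),(49,0)]⟩⟩,.o ⟨false,1,⟨8,[(10,0),
  (15,0),(2,2),(19,0),(2,3),(3,0)]⟩,⟨0,[(55,0)]⟩⟩,.o ⟨false,0,⟨1,[(0,1),(51,0),(3,0)]⟩,⟨0,[(34,
  0)]⟩⟩,.a ⟨true,(-1),⟨0,[(0,0)]⟩,⟨11,[(3,2),(7,2),(8,3),(13,8),(3,3),(0,2),(11,0),(5,2)]⟩⟩ ⟨false,
  1,⟨1,[(56,0),(0,0)]⟩,⟨4,[(5,0),(13,0),(14,0),(0,0),(6,0)]⟩⟩ ⟨true,1,⟨0,[(34,0),(18,0)]⟩,⟨0,[(0,0),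
  (54,0)]⟩⟩]⟩) (.R ⟨0,false,false,true,[1,-1,-1],[1,0,-1,0,-1],[],(⟨0,[(32,0)]⟩,⟨22,[(34,2),(0,2),
  (8,22),(0,4),(4,5),(0,2)]⟩),(⟨0,[(1,0),(30,0)]⟩,⟨0,[(37,0),(6,0)]⟩),⟨2,[(4,1),(39,0),(0,0),(4,
  2)]⟩,.k,.k,(.r (-1) ⟨1,[(2,0),(14,0),(22,0),(14,1),(0,0),(0,1)]⟩ ⟨0,[(10,0),(8,0)]⟩),(.r 0 ⟨0,
  [(17,0),(9,0)]⟩ ⟨2,[(23,0),(5,0),(0,0),(3,0),(0,0)]⟩),.k,.k,⟨false,1,⟨3,[(16,1),(10,1),(10,1),(16,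
  1),(0,0),(0,0)]⟩,⟨0,[(24,0)]⟩⟩,⟨true,1,⟨0,[(0,0)]⟩,⟨7,[(5,1),(0,0),(0,3),(0,3),(1,0),(7,3),(0,0),
  (31,0),(5,1)]⟩⟩,⟨false,1,⟨0,[(30,0)]⟩,⟨0,[(2,0),(54,0)]⟩⟩,⟨true,1,⟨2,[(3,0),(6,0),(23,1)]⟩,⟨0,[(7,
  0)]⟩⟩,⟨false,0,⟨0,[]⟩,⟨0,[]⟩⟩,⟨false,0,⟨0,[]⟩,⟨0,[]⟩⟩,[.e ⟨false,1,⟨1,[(34,0),(0,0),(20,0)]⟩,⟨0,
  []⟩⟩ ⟨false,1,⟨0,[(0,0),(14,0)]⟩,⟨0,[(7,0),(22,0)]⟩⟩,.o ⟨false,1,⟨13,[(0,13),(14,1),(2,5),(4,9),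
  (16,1),(11,2),(4,2)]⟩,⟨0,[(7,0),(6,0)]⟩⟩,.o ⟨false,0,⟨0,[(42,0)]⟩,⟨3,[(14,1),(0,1),(1,1),(34,0),
  (4,0)]⟩⟩,.a ⟨true,(-1),⟨0,[(19,0)]⟩,⟨0,[(20,0)]⟩⟩ ⟨false,1,⟨1,[(56,0),(0,0)]⟩,⟨4,[(5,0),(13,0),
  (14,0),(0,0),(6,0)]⟩⟩ ⟨true,1,⟨0,[(0,0),(14,0)]⟩,⟨1,[(7,0),(0,0),(7,0),(1,0),(0,0)]⟩⟩]⟩)) (.Q [0,
  0,-1,0,1,0,0,0,-1,0,0,-1] (.p false [0,0,0,0,1] [] (⟨0,[(36,0)]⟩,⟨0,[(35,0)]⟩) .k 0 (⟨0,[]⟩,⟨0,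
  []⟩) .k .k) (.Q [0,-1,-2,0,1,0,0,-1,-1,1,0,-1] (.p false [0,0,0,0,1] [1] (⟨0,[(37,0)]⟩,⟨0,[(36,
  0)]⟩) .k 1 (⟨0,[]⟩,⟨0,[]⟩) .k .k) (.Q [0,0,0,0,0,0,0,0,0,-1,1,1] (.ed false [0,0,1,0,1] (.r 0 ⟨0,
  [(28,0),(11,0)]⟩ ⟨2,[(0,0),(5,0),(29,0),(4,1),(16,1)]⟩)) (.R ⟨0,false,false,true,[1,-1,-1],[2,0,
  -1,0,-1],[0,1],(⟨0,[(34,0)]⟩,⟨22,[(36,2),(0,2),(8,22),(0,4),(4,5),(0,2)]⟩),(⟨0,[(38,0),(6,0)]⟩,⟨0,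
  [(0,0)]⟩),⟨2,[(6,1),(39,0),(0,0),(4,2)]⟩,.k,.k,(.r (-1) ⟨3,[(1,1),(7,1),(9,1),(22,1),(11,0),(2,3),
  (0,0),(0,1)]⟩ ⟨0,[(12,0),(8,0)]⟩),(.r 0 ⟨0,[(19,0),(9,0)]⟩ ⟨2,[(25,0),(5,0),(0,0),(3,0),(0,0)]⟩),
  .k,.k,⟨true,0,⟨0,[(29,0),(11,0)]⟩,⟨0,[(25,0)]⟩⟩,⟨false,1,⟨1,[(1,0),(0,0),(37,0),(0,0)]⟩,⟨2,[(10,
  1),(9,0),(16,0),(16,0)]⟩⟩,⟨true,0,⟨0,[(30,0)]⟩,⟨0,[(4,0),(54,0)]⟩⟩,⟨false,1,⟨14,[(1,5),(0,8),(4,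
  0),(0,2),(12,1),(10,8),(20,3)]⟩,⟨1,[(9,1),(44,0),(4,0)]⟩⟩,⟨false,0,⟨0,[]⟩,⟨0,[]⟩⟩,⟨false,0,⟨0,[]⟩,
  ⟨0,[]⟩⟩,[.o ⟨false,0,⟨33,[(1,16),(2,0),(0,0),(9,12),(4,8),(15,15),(5,1),(11,2)]⟩,⟨1,[(9,1),(6,1),
  (37,0),(4,0)]⟩⟩,.e ⟨false,1,⟨1,[(36,0),(0,0),(20,0)]⟩,⟨0,[]⟩⟩ ⟨false,1,⟨0,[(1,0)]⟩,⟨1,[(9,1),(20,
  0),(1,0),(21,0)]⟩⟩,.o ⟨false,0,⟨0,[(44,0)]⟩,⟨3,[(16,1),(0,1),(1,1),(34,0),(4,0)]⟩⟩,.a ⟨true,(-1),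
  ⟨0,[(21,0)]⟩,⟨0,[(22,0)]⟩⟩ ⟨true,0,⟨2,[(4,0),(18,0),(34,0)]⟩,⟨4,[(7,0),(13,0),(14,0),(0,0),(6,
  0)]⟩⟩ ⟨false,1,⟨0,[(1,0)]⟩,⟨6,[(7,1),(1,4),(0,1),(7,1),(1,4),(11,2),(21,2),(4,1)]⟩⟩]⟩) (.R ⟨0,
  false,false,true,[1,-1,-1],[1,0,-1,0,-1],[],(⟨0,[(34,0)]⟩,⟨22,[(36,2),(0,2),(8,22),(0,4),(4,5),(0,
  2)]⟩),(⟨0,[(0,0)]⟩,⟨0,[(39,0),(6,0)]⟩),⟨2,[(6,1),(39,0),(0,0),(4,2)]⟩,.k,.k,(.r (-1) ⟨3,[(1,1),(7,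
  1),(9,1),(22,1),(11,0),(2,3),(0,0),(0,1)]⟩ ⟨0,[(12,0),(8,0)]⟩),(.r 0 ⟨0,[(19,0),(9,0)]⟩ ⟨2,[(25,
  0),(5,0),(0,0),(3,0),(0,0)]⟩),.k,.k,⟨false,1,⟨3,[(18,1),(10,1),(10,1),(16,1),(0,0),(0,0)]⟩,⟨0,
  [(26,0)]⟩⟩,⟨true,1,⟨0,[(2,0)]⟩,⟨7,[(7,1),(0,0),(0,3),(0,3),(1,0),(7,3),(0,0),(31,0),(5,1)]⟩⟩,
  ⟨false,1,⟨0,[(32,0)]⟩,⟨0,[(4,0),(54,0)]⟩⟩,⟨true,1,⟨2,[(5,0),(6,0),(23,1)]⟩,⟨0,[(9,0)]⟩⟩,⟨false,0,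
  ⟨0,[]⟩,⟨0,[]⟩⟩,⟨false,0,⟨0,[]⟩,⟨0,[]⟩⟩,[.e ⟨false,1,⟨1,[(36,0),(0,0),(20,0)]⟩,⟨0,[]⟩⟩ ⟨false,1,⟨0,
  [(2,0),(14,0)]⟩,⟨0,[(9,0),(22,0)]⟩⟩,.o ⟨false,1,⟨1,[(1,0),(18,0),(4,0),(10,0),(17,0)]⟩,⟨0,[(9,0),
  (6,0)]⟩⟩,.o ⟨false,0,⟨0,[(44,0)]⟩,⟨3,[(16,1),(0,1),(1,1),(34,0),(4,0)]⟩⟩,.a ⟨true,(-1),⟨0,[(21,
  0)]⟩,⟨0,[(22,0)]⟩⟩ ⟨false,1,⟨1,[(58,0),(0,0)]⟩,⟨4,[(7,0),(13,0),(14,0),(0,0),(6,0)]⟩⟩ ⟨true,1,⟨0,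
  [(2,0),(14,0)]⟩,⟨1,[(9,0),(0,0),(7,0),(1,0),(0,0)]⟩⟩]⟩)) (.S ⟨1,0,[0,2,0,-1],[0,0,0,0,1],[1,1],
  (⟨0,[(38,0)]⟩,⟨0,[(37,0)]⟩),⟨0,[(2,0)]⟩,.k,(.r 0 ⟨0,[(18,0),(9,0)]⟩ ⟨2,[(24,0),(5,0),(0,0),(3,0),
  (0,0)]⟩),⟨true,0,⟨0,[]⟩,⟨0,[(60,0)]⟩⟩,⟨false,0,⟨0,[(56,0)]⟩,⟨3,[(30,1),(26,0),(0,0)]⟩⟩,⟨false,1,
  ⟨3,[(30,1),(26,0),(0,0)]⟩,⟨0,[(56,0)]⟩⟩,⟨true,0,⟨0,[(60,0)]⟩,⟨0,[]⟩⟩,[.o ⟨false,(-1),⟨3,[(0,1),(2,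
  1),(4,1),(44,0),(3,0)]⟩,⟨2,[(4,0),(6,0),(23,1),(22,2)]⟩⟩,.a ⟨true,(-1),⟨0,[(8,0)]⟩,⟨3,[(4,1),(8,
  1),(21,1),(16,0),(5,2)]⟩⟩ ⟨true,0,⟨0,[]⟩,⟨4,[(6,0),(13,0),(14,0),(0,0),(6,0)]⟩⟩ ⟨false,0,⟨0,[(18,
  0),(9,0)]⟩,⟨3,[(30,1),(26,0),(0,0)]⟩⟩,.o ⟨false,0,⟨5,[(0,1),(7,3),(2,1),(4,3),(11,1),(24,0),(4,
  2)]⟩,⟨0,[(35,0)]⟩⟩,.o ⟨false,0,⟨2,[(0,0),(23,0),(11,1),(16,0)]⟩,⟨0,[(1,0)]⟩⟩]⟩)) (.S ⟨1,0,[0,1,0,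
  -1],[0,0,0,0,1],[1,2],(⟨0,[(37,0)]⟩,⟨0,[(36,0)]⟩),⟨0,[(1,0)]⟩,.k,(.r 0 ⟨0,[(17,0),(9,0)]⟩ ⟨2,[(23,
  0),(5,0),(0,0),(3,0),(0,0)]⟩),⟨false,0,⟨0,[]⟩,⟨1,[(34,0),(0,0),(21,0)]⟩⟩,⟨true,0,⟨0,[(55,0)]⟩,⟨0,
  [(54,0)]⟩⟩,⟨true,0,⟨0,[(54,0)]⟩,⟨0,[(55,0)]⟩⟩,⟨false,1,⟨1,[(34,0),(0,0),(21,0)]⟩,⟨0,[]⟩⟩,[.e
  ⟨false,0,⟨0,[(49,0)]⟩,⟨0,[(57,0)]⟩⟩ ⟨false,0,⟨0,[(17,0),(9,0)]⟩,⟨3,[(29,1),(26,0),(0,0)]⟩⟩,.o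
  ⟨false,0,⟨1,[(7,1),(44,0),(4,0)]⟩,⟨2,[(3,0),(6,0),(23,1)]⟩⟩,.o ⟨false,0,⟨1,[(0,1),(51,0),(3,0)]⟩,
  ⟨0,[(34,0)]⟩⟩,.a ⟨true,(-1),⟨0,[(0,0)]⟩,⟨11,[(3,2),(7,2),(8,3),(13,8),(3,3),(0,2),(11,0),(5,2)]⟩⟩
  ⟨false,0,⟨2,[(2,0),(18,0),(34,0)]⟩,⟨4,[(5,0),(13,0),(14,0),(0,0),(6,0),(14,4)]⟩⟩ ⟨true,0,⟨0,[(17,
  0),(9,0)]⟩,⟨3,[(9,0),(18,0),(0,0)]⟩⟩]⟩)))))) (.Q [0,-2,0,0,1,0,-1,-1,-1,1,-1,-1] (.p false [0,0,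
  1] [1,0,0,0,-1] (⟨0,[(39,0)]⟩,⟨0,[(38,0)]⟩) .k 2 (⟨0,[(31,0)]⟩,⟨0,[(32,0)]⟩) .k (.r 0 ⟨7,[(0,0),
  (12,1),(12,0),(7,7),(12,1)]⟩ ⟨2,[(15,0),(2,1),(10,0),(0,0),(4,0),(16,0)]⟩)) (.Q [0,-1,-2,0,1,0,0,
  -1,-1,1,0,-1] (.p false [0,0,0,0,1] [1] (⟨0,[(33,0)]⟩,⟨0,[(32,0)]⟩) .k 1 (⟨0,[]⟩,⟨0,[]⟩) .k .k)
  (.Q [0,0,1,0,-1,0,-1,0,1,0,-1,1] (.p false [0,0,1] [0,0,0,0,1] (⟨0,[(41,0)]⟩,⟨0,[(40,0)]⟩) .k 2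
  (⟨0,[(34,0)]⟩,⟨0,[(33,0)]⟩) .k (.r (-1) ⟨4,[(2,0),(10,1),(1,0),(11,0),(24,2),(1,2)]⟩ ⟨2,[(21,1),
  (15,0),(0,0),(7,0)]⟩)) (.Q [0,0,0,0,0,1,0,0,0,-1,0,1] (.ed false [0,1,0,0,1] .k) (.R ⟨0,false,
  false,true,[-1,1,0,0,1],[0,1],[1,1,1],(⟨0,[(0,0)]⟩,⟨0,[(35,0),(10,0)]⟩),(⟨0,[(47,0)]⟩,⟨0,[(46,
  0)]⟩),⟨0,[(35,0)]⟩,(.r 0 ⟨16,[(21,2),(5,7),(0,2),(10,4),(0,4),(7,1)]⟩ ⟨1,[(54,1),(0,0),(0,0)]⟩),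
  .k,.k,.k,.k,.k,⟨true,0,⟨0,[(54,0)]⟩,⟨3,[(8,0),(18,0),(0,0)]⟩⟩,⟨false,1,⟨18,[(2,6),(0,5),(15,0),
  (10,3),(2,5),(4,12),(9,2),(1,0)]⟩,⟨2,[(1,0),(4,1),(2,0),(4,0),(36,0),(4,0)]⟩⟩,⟨true,0,⟨0,[(54,
  0)]⟩,⟨0,[(53,0)]⟩⟩,⟨false,1,⟨0,[(3,0),(34,0)]⟩,⟨2,[(1,0),(4,1),(2,0),(4,0),(36,0),(4,0)]⟩⟩,⟨false,
  0,⟨0,[]⟩,⟨0,[]⟩⟩,⟨false,0,⟨0,[]⟩,⟨0,[]⟩⟩,[.e ⟨false,0,⟨0,[(58,0)]⟩,⟨1,[(55,0),(0,0)]⟩⟩ ⟨false,0,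
  ⟨14,[(2,4),(1,2),(0,0),(5,12),(0,6),(20,9)]⟩,⟨1,[(6,1),(44,0),(3,0),(0,1)]⟩⟩,.o ⟨false,1,⟨8,[(9,
  0),(15,0),(2,2),(19,0),(2,3),(3,0)]⟩,⟨0,[(54,0)]⟩⟩,.o ⟨false,1,⟨0,[(1,0),(17,0),(31,0)]⟩,⟨0,[(2,
  0),(5,0),(6,0),(1,0),(36,1)]⟩⟩,.a ⟨true,0,⟨2,[(1,0),(4,1),(2,0),(4,0),(36,0),(4,0)]⟩,⟨0,[(2,0),
  (15,0),(19,0)]⟩⟩ ⟨false,0,⟨0,[]⟩,⟨1,[(33,0),(0,0),(21,0)]⟩⟩ ⟨true,0,⟨14,[(2,4),(1,2),(0,0),(5,12),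
  (0,6),(20,9)]⟩,⟨1,[(6,1),(44,0),(4,0)]⟩⟩]⟩) (.Q [0,0,0,0,0,2,0,0,0,-1,1] (.p true [0,0,1] [1] (⟨0,
  [(43,0)]⟩,⟨0,[(42,0)]⟩) .k 1 (⟨0,[]⟩,⟨0,[]⟩) .k .k) (.R ⟨0,false,false,true,[1,-1,-1],[1,-1,0,0,
  -1],[0,1],(⟨0,[(32,0)]⟩,⟨4,[(0,1),(33,0),(0,0),(8,2),(0,0),(5,0)]⟩),(⟨0,[(1,0)]⟩,⟨22,[(34,2),(0,
  2),(1,22),(7,4),(4,5),(0,2)]⟩),⟨0,[(0,0)]⟩,.k,(.r (-1) ⟨1,[(55,1),(0,0),(0,0)]⟩ ⟨16,[(22,2),(5,7),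
  (0,2),(10,4),(0,4),(7,1)]⟩),(.r (-1) ⟨1,[(4,1),(2,1),(9,1),(34,0),(3,0)]⟩ ⟨0,[(10,0),(8,0)]⟩),.k,
  .k,.k,⟨false,0,⟨0,[(54,0)]⟩,⟨1,[(55,1),(0,0),(0,0)]⟩⟩,⟨true,1,⟨1,[(3,0),(5,0),(6,0),(17,0),(20,
  1)]⟩,⟨0,[(2,0)]⟩⟩,⟨true,0,⟨0,[(28,0)]⟩,⟨0,[(15,0),(39,0)]⟩⟩,⟨false,2,⟨0,[(34,0),(4,0),(17,0)]⟩,⟨0,
  [(2,0),(12,0)]⟩⟩,⟨false,0,⟨0,[]⟩,⟨0,[]⟩⟩,⟨false,0,⟨0,[]⟩,⟨0,[]⟩⟩,[.o ⟨false,1,⟨0,[(34,0),(20,0)]⟩,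
  ⟨5,[(2,3),(4,1),(2,3),(4,3),(36,0),(4,0)]⟩⟩,.e ⟨false,1,⟨1,[(34,0),(0,0),(20,0)]⟩,⟨0,[]⟩⟩ ⟨false,
  2,⟨3,[(3,3),(12,1),(35,0),(2,5),(1,0)]⟩,⟨0,[(2,0),(51,0)]⟩⟩,.o ⟨false,0,⟨0,[(42,0)]⟩,⟨3,[(14,1),
  (0,1),(1,1),(34,0),(4,0)]⟩⟩,.a ⟨true,(-1),⟨0,[(19,0)]⟩,⟨0,[(20,0)]⟩⟩ ⟨true,0,⟨7,[(5,0),(5,0),(5,
  1),(31,0),(2,0),(0,2)]⟩,⟨2,[(8,0),(10,0),(14,0)]⟩⟩ ⟨false,2,⟨3,[(3,3),(12,1),(35,0),(2,5),(1,0)]⟩,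
  ⟨3,[(2,3),(6,0),(18,0),(0,0)]⟩⟩]⟩) (.Q [0,-1,0,-2,0,0,-1,-1,0,0,-1] (.p false [0,0,1] [] (⟨0,[(44,
  0)]⟩,⟨0,[(43,0)]⟩) .k 0 (⟨0,[]⟩,⟨0,[]⟩) .k .k) (.S ⟨1,0,[0,0,-1,-2,0,0,0,-1],[1,-1,-1],[1,1,-1,-1,
  0,0,0,-1],(⟨0,[(33,0)]⟩,⟨22,[(35,2),(0,2),(8,22),(0,4),(4,5),(0,2)]⟩),⟨0,[(1,0)]⟩,.k,(.r (-1) ⟨7,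
  [(0,6),(17,1),(2,5),(13,1),(0,1),(4,0),(8,1)]⟩ ⟨0,[(11,0),(8,0)]⟩),⟨false,0,⟨0,[]⟩,⟨1,[(35,0),(0,
  0),(21,0)]⟩⟩,⟨true,0,⟨0,[(56,0)]⟩,⟨0,[(55,0)]⟩⟩,⟨true,0,⟨0,[(55,0)]⟩,⟨0,[(56,0)]⟩⟩,⟨false,1,⟨1,
  [(35,0),(0,0),(21,0)]⟩,⟨0,[]⟩⟩,[.o ⟨false,0,⟨0,[(0,0),(59,0)]⟩,⟨0,[(11,0)]⟩⟩,.o ⟨false,0,⟨0,[(0,
  0)]⟩,⟨1,[(11,0),(5,0),(9,0)]⟩⟩,.o ⟨false,0,⟨0,[(43,0)]⟩,⟨3,[(15,1),(0,1),(1,1),(34,0),(4,0)]⟩⟩,.a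
  ⟨true,(-1),⟨0,[(20,0)]⟩,⟨0,[(21,0)]⟩⟩ ⟨true,0,⟨35,[(0,4),(5,8),(7,2),(1,27),(1,25),(31,5),(2,5)]⟩,
  ⟨0,[(15,0),(4,0)]⟩⟩ ⟨false,1,⟨0,[(0,0),(20,0)]⟩,⟨0,[(11,0),(8,0)]⟩⟩]⟩) (.Q [0,0,0,0,0,0,0,0,0,1,
  -1,-1] (.ed true [0,0,1,0,1] (.r 0 ⟨7,[(6,0),(12,1),(12,0),(7,7),(12,1)]⟩ ⟨2,[(5,1),(3,1),(11,0),
  (19,0)]⟩)) (.R ⟨0,false,false,false,[0,-1,1],[1,0,-1,0,-1],[],(⟨0,[(35,0)]⟩,⟨22,[(36,2),(0,2),(7,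
  22),(1,4),(4,5),(0,2)]⟩),(⟨0,[(0,0)]⟩,⟨0,[(39,0),(6,0)]⟩),⟨2,[(2,0),(31,1),(12,0),(4,2)]⟩,.k,.k,
  (.r (-2) ⟨5,[(18,1),(13,1),(0,1),(2,0),(0,0),(19,15),(0,6)]⟩ ⟨0,[(8,0)]⟩),(.r (-1) ⟨1,[(7,0),(10,
  1),(14,0),(23,3)]⟩ ⟨3,[(8,0),(8,1),(7,2),(0,1),(4,0)]⟩),.k,.k,⟨true,0,⟨7,[(7,0),(12,1),(12,0),(7,
  7),(12,1)]⟩,⟨0,[(25,0)]⟩⟩,⟨false,1,⟨0,[(7,0),(28,0)]⟩,⟨0,[(9,0),(1,0),(4,0),(2,0),(39,0)]⟩⟩,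
  ⟨false,0,⟨7,[(8,2),(8,1),(7,2),(5,0),(27,1)]⟩,⟨2,[(7,0),(10,0),(13,0),(24,4),(0,0)]⟩⟩,⟨true,0,⟨1,
  [(5,0),(0,0),(0,0),(0,0),(6,0),(38,0)]⟩,⟨0,[(9,0),(8,0),(38,0)]⟩⟩,⟨false,0,⟨0,[]⟩,⟨0,[]⟩⟩,⟨false,
  0,⟨0,[]⟩,⟨0,[]⟩⟩,[.o ⟨false,1,⟨10,[(5,1),(0,5),(0,0),(7,2),(20,2),(17,5)]⟩,⟨0,[(9,0),(6,0)]⟩⟩,.a
  ⟨true,1,⟨0,[(6,0)]⟩,⟨1,[(1,0),(7,1),(31,0)]⟩⟩ ⟨false,1,⟨1,[(58,0),(0,0)]⟩,⟨0,[(61,0)]⟩⟩ ⟨true,1,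
  ⟨1,[(5,1),(14,1),(33,0),(4,0)]⟩,⟨0,[(9,0),(1,0),(6,0),(38,0)]⟩⟩,.e ⟨false,1,⟨1,[(36,0),(0,0),(21,
  0)]⟩,⟨0,[]⟩⟩ ⟨false,1,⟨1,[(5,1),(14,1),(33,0),(4,0)]⟩,⟨0,[(10,0),(30,0)]⟩⟩,.o ⟨false,0,⟨3,[(11,3),
  (6,1),(35,0),(2,5),(1,0)]⟩,⟨3,[(7,0),(25,0),(20,0),(3,2)]⟩⟩]⟩) (.Q [0,0,1,0,0,0,1,0,-1,1,1,-1]
  (.p false [0,0,-1,0,1] [1] (⟨2,[(0,1),(1,4),(36,0),(7,0),(4,2)]⟩,⟨0,[(38,0),(7,0)]⟩) .k 1 (⟨0,[]⟩,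
  ⟨0,[]⟩) .k (.r 0 ⟨2,[(26,1),(15,0),(0,0),(7,0)]⟩ ⟨4,[(7,0),(10,1),(1,0),(11,0),(24,2),(1,2)]⟩))
  (.K ⟨0,[1,0,1,0,-1],0,1,(⟨0,[(39,0),(7,0)]⟩,⟨2,[(1,1),(1,4),(36,0),(7,0),(4,2)]⟩),.k,(.r (-2) ⟨0,
  [(33,0),(24,1),(0,0)]⟩ ⟨0,[(2,1),(5,0),(0,1),(4,6),(3,0),(36,3),(4,3)]⟩),(.r (-1) ⟨0,[(33,0)]⟩ ⟨1,
  [(18,0),(1,0),(22,0),(14,0)]⟩),.k,.k,[⟨2,[(5,0),(4,1),(2,0),(4,0),(36,0),(4,0)]⟩,⟨0,[(0,0)]⟩,⟨2,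
  [(8,0),(1,2),(14,1),(3,0),(25,1)]⟩,⟨0,[(7,0),(34,1)]⟩]⟩) (.K ⟨0,[0,0,0,0,1],(-1),(-1),(⟨0,[(40,
  0)]⟩,⟨0,[(39,0)]⟩),.k,(.r 0 ⟨4,[(8,0),(5,0),(5,1),(31,0),(2,0),(2,1)]⟩ ⟨8,[(7,1),(3,1),(20,2),(0,
  2),(3,0),(0,0),(4,0),(0,0)]⟩),(.r 0 ⟨16,[(25,2),(5,7),(0,2),(10,4),(0,4),(7,1)]⟩ ⟨1,[(58,1),(0,0),
  (0,0)]⟩),.k,.k,[⟨1,[(6,0),(5,0),(6,0),(17,0),(20,1)]⟩,⟨1,[(0,1),(11,1),(29,1),(11,0),(3,1),(1,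
  0)]⟩,⟨0,[(37,0)]⟩,⟨12,[(2,1),(2,1),(4,7),(14,2),(5,0),(6,2),(13,5)]⟩]⟩)))))) (.Q [0,0,0,0,0,-1,0,
  0,0,0,0,1] (.ed false [1,-1,0,0,1] .k) (.K ⟨0,[0,-1,0,0,1],(-1),(-1),(⟨0,[(0,0)]⟩,⟨22,[(33,2),(0,
  2),(0,22),(8,4),(4,5),(0,2)]⟩),(.r 0 ⟨4,[(4,0),(5,0),(5,1),(31,0),(2,0),(2,1)]⟩ ⟨8,[(3,1),(3,1),
  (20,2),(0,2),(3,0),(0,0),(4,0),(0,0)]⟩),(.r (-1) ⟨3,[(16,3),(13,1),(2,0),(0,0),(16,0),(2,3),(0,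
  1)]⟩ ⟨1,[(5,0),(3,0),(8,0),(37,0)]⟩),.k,(.r 0 ⟨1,[(14,0),(1,0),(22,0),(14,0)]⟩ ⟨0,[(29,0)]⟩),.k,
  [⟨0,[(1,0)]⟩,⟨3,[(6,2),(0,0),(0,1),(6,0),(1,0),(0,0),(37,1)]⟩,⟨8,[(2,0),(1,0),(0,1),(3,1),(10,0),
  (12,7)]⟩,⟨0,[(6,0),(51,0)]⟩]⟩) (.Q [0,0,0,0,0,2,0,0,0,-1,1] (.p true [0,0,1] [1] (⟨0,[(43,0)]⟩,⟨0,
  [(42,0)]⟩) .k 1 (⟨0,[]⟩,⟨0,[]⟩) .k .k) (.R ⟨0,false,false,false,[1,-1,-1],[1,0,-1,0,-1],[0,1],(⟨0,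
  [(32,0)]⟩,⟨4,[(0,1),(33,0),(0,0),(8,2),(0,0),(5,0)]⟩),(⟨0,[(1,0),(30,0)]⟩,⟨0,[(37,0),(6,0)]⟩),⟨0,
  [(0,0)]⟩,.k,.k,(.r (-1) ⟨1,[(4,1),(2,1),(9,1),(34,0),(3,0)]⟩ ⟨0,[(10,0),(8,0)]⟩),(.r 0 ⟨4,[(5,0),
  (5,0),(5,1),(31,0),(2,0),(2,1)]⟩ ⟨8,[(4,1),(3,1),(20,2),(0,2),(3,0),(0,0),(4,0),(0,0)]⟩),.k,.k,
  ⟨false,0,⟨2,[(5,0),(5,0),(9,0),(17,1),(9,0),(2,0)]⟩,⟨0,[(24,0),(32,0)]⟩⟩,⟨true,1,⟨4,[(2,3),(2,0),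
  (12,0),(15,0),(17,0)]⟩,⟨3,[(7,2),(0,0),(0,1),(6,0),(1,0),(0,0),(37,1)]⟩⟩,⟨true,0,⟨0,[(28,0)]⟩,⟨0,
  [(15,0),(39,0)]⟩⟩,⟨false,2,⟨0,[(4,0),(9,0)]⟩,⟨0,[(7,0)]⟩⟩,⟨false,0,⟨0,[]⟩,⟨0,[]⟩⟩,⟨false,0,⟨0,[]⟩,
  ⟨0,[]⟩⟩,[.o ⟨false,1,⟨10,[(3,1),(0,5),(0,0),(7,2),(20,2),(17,5)]⟩,⟨0,[(7,0),(6,0)]⟩⟩,.e ⟨false,1,
  ⟨1,[(34,0),(0,0),(20,0)]⟩,⟨0,[]⟩⟩ ⟨false,2,⟨1,[(3,1),(48,0),(4,0)]⟩,⟨0,[(7,0),(20,0)]⟩⟩,.o ⟨false,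
  0,⟨0,[(42,0)]⟩,⟨3,[(14,1),(0,1),(1,1),(34,0),(4,0)]⟩⟩,.a ⟨true,(-1),⟨0,[(19,0)]⟩,⟨0,[(20,0)]⟩⟩
  ⟨true,0,⟨7,[(5,0),(5,0),(5,1),(31,0),(2,0),(0,2)]⟩,⟨2,[(8,0),(10,0),(14,0)]⟩⟩ ⟨false,2,⟨1,[(3,1),
  (48,0),(4,0)]⟩,⟨1,[(7,0),(0,0),(7,0),(1,0),(0,0)]⟩⟩]⟩) (.R ⟨0,false,false,true,[0,-1,1],[1,0,-1,0,
  -1],[0,1],(⟨0,[(33,0)]⟩,⟨22,[(34,2),(0,2),(7,22),(1,4),(4,5),(0,2)]⟩),(⟨0,[(1,0),(30,0)]⟩,⟨0,[(37,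
  0),(6,0)]⟩),⟨2,[(0,0),(31,1),(12,0),(4,2)]⟩,.k,.k,(.r (-2) ⟨5,[(16,1),(13,1),(0,1),(2,0),(0,0),
  (19,15),(0,6)]⟩ ⟨0,[(6,0)]⟩),(.r (-1) ⟨1,[(5,0),(10,1),(14,0),(23,3)]⟩ ⟨3,[(6,0),(8,1),(7,2),(0,
  1),(4,0)]⟩),.k,.k,⟨true,0,⟨7,[(5,0),(12,1),(12,0),(7,7),(12,1)]⟩,⟨0,[(23,0)]⟩⟩,⟨false,1,⟨0,[(5,0),
  (28,0)]⟩,⟨0,[(7,0),(1,0),(4,0),(2,0),(39,0)]⟩⟩,⟨true,(-1),⟨0,[(5,0),(0,1),(3,1),(0,6),(3,0),(36,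
  2),(4,2)]⟩,⟨2,[(5,0),(10,0),(13,0),(24,4),(0,0)]⟩⟩,⟨false,0,⟨1,[(3,0),(0,0),(0,0),(0,0),(6,0),(38,
  0)]⟩,⟨0,[(7,0),(8,0),(38,0),(1,0)]⟩⟩,⟨false,0,⟨0,[]⟩,⟨0,[]⟩⟩,⟨false,0,⟨0,[]⟩,⟨0,[]⟩⟩,[.a ⟨true,0,
  ⟨10,[(3,3),(0,0),(0,1),(7,5),(20,5),(17,0)]⟩,⟨3,[(7,3),(2,0),(1,0),(3,0),(34,0),(5,2)]⟩⟩ ⟨false,0,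
  ⟨7,[(5,0),(5,0),(5,1),(31,0),(2,0),(0,2)]⟩,⟨1,[(34,0),(0,0),(21,0)]⟩⟩ ⟨true,0,⟨1,[(2,0),(0,0),(1,
  0),(7,0),(4,0),(33,0)]⟩,⟨0,[(7,0),(1,0),(6,0),(38,0),(1,0)]⟩⟩,.o ⟨false,1,⟨10,[(3,1),(0,5),(0,0),
  (7,2),(20,2),(17,5)]⟩,⟨0,[(7,0),(6,0)]⟩⟩,.e ⟨true,0,⟨0,[(59,0)]⟩,⟨0,[]⟩⟩ ⟨true,0,⟨1,[(2,0),(0,0),
  (1,0),(7,0),(4,0),(33,0)]⟩,⟨0,[(8,0),(30,0)]⟩⟩,.o ⟨false,0,⟨3,[(9,3),(6,1),(35,0),(2,5),(1,0)]⟩,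
  ⟨3,[(5,0),(25,0),(20,0),(3,2)]⟩⟩]⟩)))) (.Q [0,0,0,0,1,0,1,0,-1,0,1,-1] (.p true [0,0,1] [0,0,0,0,
  1] (⟨0,[(41,0)]⟩,⟨0,[(40,0)]⟩) .k 2 (⟨0,[(34,0)]⟩,⟨0,[(33,0)]⟩) .k (.r (-1) ⟨4,[(2,0),(10,1),(1,
  0),(11,0),(24,2),(1,2)]⟩ ⟨2,[(21,1),(15,0),(0,0),(7,0)]⟩)) (.Q [0,0,0,0,0,1,0,0,0,0,0,-1] (.ed
  true [1,-1,0,0,1] .k) (.S ⟨1,0,[0,2,0,-1,0,0,0,-1],[1,0,-1,0,1],[1,1,0,0,0,0,0,-1],(⟨0,[(36,0),(5,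
  0)]⟩,⟨0,[(0,0),(31,0)]⟩),⟨0,[(31,0),(4,0)]⟩,.k,(.r 0 ⟨1,[(14,0),(1,0),(22,0),(14,0)]⟩ ⟨0,[(29,
  0)]⟩),⟨true,0,⟨0,[]⟩,⟨0,[(58,0)]⟩⟩,⟨false,0,⟨0,[(54,0)]⟩,⟨3,[(28,1),(26,0),(0,0)]⟩⟩,⟨false,1,⟨3,
  [(28,1),(26,0),(0,0)]⟩,⟨0,[(54,0)]⟩⟩,⟨true,0,⟨0,[(58,0)]⟩,⟨0,[]⟩⟩,[.o ⟨false,(-2),⟨2,[(2,1),(1,0),
  (1,0),(3,1),(1,0),(1,3),(36,0)]⟩,⟨0,[(13,0),(19,0),(22,0)]⟩⟩,.e ⟨false,0,⟨0,[(14,0)]⟩,⟨5,[(15,1),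
  (13,1),(0,1),(2,0),(0,0),(19,3),(0,0)]⟩⟩ ⟨false,0,⟨1,[(14,0),(1,0),(22,0),(14,0)]⟩,⟨14,[(4,2),(4,
  3),(5,3),(1,2),(11,2),(20,0),(5,7)]⟩⟩,.a ⟨true,(-1),⟨49,[(2,5),(1,25),(0,15),(0,41),(4,1),(17,7),
  (4,1),(15,14),(5,20)]⟩,⟨0,[(1,0)]⟩⟩ ⟨false,0,⟨0,[(23,0)]⟩,⟨4,[(4,0),(10,1),(1,0),(11,0),(24,2),(1,
  2)]⟩⟩ ⟨true,(-1),⟨12,[(4,0),(7,8),(1,1),(1,12),(22,1),(8,0),(2,4)]⟩,⟨14,[(4,2),(4,3),(5,3),(1,2),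
  (11,2),(20,0),(5,7)]⟩⟩,.o ⟨false,(-1),⟨1,[(2,0),(1,0),(1,0),(1,0),(47,0)]⟩,⟨1,[(1,0),(17,0),(13,
  0),(17,0)]⟩⟩]⟩) (.Q [0,0,1,0,-1,0,0,0,1,0,0,1] (.p true [0,0,0,0,1] [] (⟨0,[(36,0)]⟩,⟨0,[(35,
  0)]⟩) .k 0 (⟨0,[]⟩,⟨0,[]⟩) .k .k) (.K ⟨0,[0,0,0,0,1],(-1),(-1),(⟨0,[(37,0)]⟩,⟨0,[(36,0)]⟩),.k,(.r
  0 ⟨4,[(5,0),(5,0),(5,1),(31,0),(2,0),(2,1)]⟩ ⟨30,[(2,3),(1,6),(3,7),(10,0),(9,9),(0,10),(4,2),(4,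
  3)]⟩),(.r 0 ⟨16,[(22,2),(5,7),(0,2),(10,4),(0,4),(7,1)]⟩ ⟨1,[(55,1),(0,0),(0,0)]⟩),.k,.k,[⟨0,[(2,
  0)]⟩,⟨0,[(0,0)]⟩,⟨0,[(34,0)]⟩,⟨0,[(7,0),(46,0)]⟩]⟩) (.K ⟨0,[1,0,0,0,-1],0,1,(⟨0,[(36,0)]⟩,⟨0,[(37,
  0)]⟩),.k,(.r (-1) ⟨1,[(55,1),(0,0),(0,0)]⟩ ⟨16,[(22,2),(5,7),(0,2),(10,4),(0,4),(7,1)]⟩),(.r (-1)
  ⟨30,[(2,3),(1,6),(3,7),(10,0),(9,9),(0,10),(4,2),(4,3)]⟩ ⟨4,[(5,0),(5,0),(5,1),(31,0),(2,0),(2,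
  1)]⟩),.k,.k,[⟨5,[(3,5),(6,1),(4,7),(1,3),(33,0),(5,4)]⟩,⟨6,[(0,6),(1,0),(0,0),(5,2),(1,2),(7,2),
  (19,1),(11,0),(5,2)]⟩,⟨4,[(3,3),(1,0),(1,0),(7,2),(1,1),(4,0),(29,0),(0,1)]⟩,⟨6,[(2,7),(28,3),(3,
  0),(9,0),(1,0),(3,0)]⟩]⟩))) (.Q [0,0,0,0,0,2,0,0,0,0,-1] (.p false [0,0,1] [] (⟨0,[(42,0)]⟩,⟨0,
  [(41,0)]⟩) .k 0 (⟨0,[]⟩,⟨0,[]⟩) .k .k) (.R ⟨0,false,false,true,[0,-1,1],[0,0,0,0,1],[1,2],(⟨0,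
  [(32,0)]⟩,⟨30,[(0,14),(2,2),(12,2),(12,2),(4,2),(7,15),(1,0),(5,5),(7,5)]⟩),(⟨0,[(36,0)]⟩,⟨0,[(35,
  0)]⟩),⟨0,[(0,0)]⟩,.k,.k,(.r (-2) ⟨5,[(15,1),(13,1),(0,1),(2,0),(0,0),(19,15),(0,6)]⟩ ⟨0,[(5,0)]⟩),
  (.r (-2) ⟨0,[(29,0),(24,1),(0,0)]⟩ ⟨0,[(4,0),(0,1),(3,1),(0,6),(3,0),(36,2),(4,2)]⟩),.k,.k,⟨true,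
  0,⟨0,[]⟩,⟨2,[(7,0),(10,0),(14,0)]⟩⟩,⟨false,0,⟨0,[(1,0),(53,0)]⟩,⟨0,[(33,0),(6,0)]⟩⟩,⟨false,(-1),
  ⟨0,[(21,0)]⟩,⟨2,[(4,0),(10,0),(13,0),(24,4),(0,0),(0,2)]⟩⟩,⟨true,(-2),⟨8,[(1,8),(2,0),(7,0),(3,2),
  (4,7),(26,0),(2,0),(0,3)]⟩,⟨0,[(33,0),(4,0),(15,0),(1,0)]⟩⟩,⟨false,0,⟨0,[]⟩,⟨0,[]⟩⟩,⟨false,0,⟨0,
  []⟩,⟨0,[]⟩⟩,[.o ⟨false,(-1),⟨5,[(1,2),(0,1),(3,0),(9,2),(4,1),(26,0),(2,1),(0,1)]⟩,⟨0,[(33,0),(22,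
  0)]⟩⟩,.a ⟨true,(-1),⟨7,[(1,2),(4,3),(4,1),(7,0),(1,1),(12,0)]⟩,⟨0,[(3,0),(34,0)]⟩⟩ ⟨false,0,⟨7,
  [(4,0),(5,0),(5,1),(31,0),(2,0),(0,2)]⟩,⟨1,[(33,0),(0,0),(21,0)]⟩⟩ ⟨true,(-1),⟨7,[(1,7),(2,0),(5,
  0),(5,1),(31,0),(2,0),(0,2)]⟩,⟨0,[(8,0),(24,0),(4,0),(15,0),(1,0)]⟩⟩,.e ⟨false,0,⟨0,[(58,0)]⟩,⟨0,
  [(56,0)]⟩⟩ ⟨false,(-1),⟨7,[(1,7),(2,0),(5,0),(5,1),(31,0),(2,0),(0,2)]⟩,⟨0,[(33,0),(6,0),(15,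
  0)]⟩⟩,.o ⟨false,0,⟨3,[(8,3),(6,1),(35,0),(2,5),(1,0)]⟩,⟨3,[(4,0),(25,0),(20,0),(3,2)]⟩⟩]⟩) (.R ⟨0,
  false,false,false,[1,-1,-1],[1,0,0,0,-1],[0,-1,1],(⟨0,[(31,0)]⟩,⟨22,[(33,2),(0,2),(8,22),(0,4),(4,
  5),(0,2)]⟩),(⟨0,[(35,0)]⟩,⟨0,[(36,0)]⟩),⟨2,[(0,1),(42,0),(0,0),(4,2)]⟩,.k,.k,(.r (-1) ⟨1,[(3,1),
  (2,1),(9,1),(34,0),(3,0)]⟩ ⟨0,[(9,0),(8,0)]⟩),(.r 0 ⟨1,[(14,0),(1,0),(22,0),(14,0)]⟩ ⟨0,[(29,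
  0)]⟩),.k,.k,⟨true,0,⟨2,[(7,0),(10,0),(14,0)]⟩,⟨0,[]⟩⟩,⟨false,2,⟨0,[(19,0),(13,0)]⟩,⟨3,[(1,2),(5,
  0),(10,0),(22,0)]⟩⟩,⟨false,1,⟨0,[(13,0),(4,0),(37,0)]⟩,⟨9,[(4,2),(7,0),(1,7),(1,7),(22,0),(11,1),
  (2,1)]⟩⟩,⟨true,2,⟨0,[(3,0),(11,0)]⟩,⟨6,[(1,4),(2,0),(1,1),(5,4),(1,1),(1,4),(31,0),(2,2)]⟩⟩,
  ⟨false,0,⟨0,[]⟩,⟨0,[]⟩⟩,⟨false,0,⟨0,[]⟩,⟨0,[]⟩⟩,[.a ⟨true,1,⟨0,[(3,0),(34,0)]⟩,⟨7,[(1,2),(4,3),(4,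
  1),(7,0),(1,1),(12,0)]⟩⟩ ⟨false,1,⟨1,[(33,0),(0,0),(21,0)]⟩,⟨7,[(4,0),(5,0),(5,1),(31,0),(2,0),(0,
  2)]⟩⟩ ⟨true,2,⟨0,[(3,0),(9,0),(2,0)]⟩,⟨1,[(1,0),(0,0),(9,0)]⟩⟩,.o ⟨false,2,⟨0,[(33,0),(22,0)]⟩,⟨5,
  [(1,2),(0,1),(3,0),(9,2),(4,1),(26,0),(2,1),(0,1)]⟩⟩,.o ⟨false,0,⟨0,[(41,0)]⟩,⟨3,[(13,1),(0,1),(1,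
  1),(34,0),(4,0)]⟩⟩,.e ⟨false,1,⟨0,[(56,0)]⟩,⟨0,[(58,0)]⟩⟩ ⟨false,3,⟨0,[(19,0),(13,0),(22,0)]⟩,⟨1,
  [(1,0),(0,0),(9,0)]⟩⟩]⟩)))) (.Q [0,0,0,0,0,-1,0,0,0,1,0,-1] (.ed true [0,1,0,0,1] .k) (.K ⟨0,[1,
  -1,0,0,-1],0,1,(⟨0,[(0,0)]⟩,⟨22,[(31,2),(0,2),(1,22),(7,4),(4,5),(0,2)]⟩),(.r (-1) ⟨1,[(52,1),(0,
  0),(0,0)]⟩ ⟨16,[(19,2),(5,7),(0,2),(10,4),(0,4),(7,1)]⟩),(.r (-2) ⟨1,[(31,0),(0,0),(19,3),(0,1),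
  (0,0)]⟩ ⟨13,[(3,8),(6,3),(2,2),(1,0),(2,5),(6,0),(23,0)]⟩),.k,(.r (-1) ⟨1,[(12,0),(1,0),(22,0),
  (14,0),(1,1)]⟩ ⟨0,[(25,0)]⟩),.k,[⟨0,[(1,0),(10,0),(41,0)]⟩,⟨3,[(6,1),(9,1),(14,3),(4,1),(11,0),(3,
  1),(1,0)]⟩,⟨0,[(1,0),(20,0)]⟩,⟨4,[(14,3),(1,1),(11,0),(2,5),(0,0),(15,0),(3,0),(1,1)]⟩]⟩) (.R ⟨0,
  false,false,true,[1,0,0,0,-1],[0,1],[1,1,2,1],(⟨0,[(33,0)]⟩,⟨0,[(34,0)]⟩),(⟨0,[(45,0)]⟩,⟨0,[(44,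
  0)]⟩),⟨0,[(0,0)]⟩,.k,.k,(.r (-1) ⟨1,[(52,1),(0,0),(0,0)]⟩ ⟨16,[(19,2),(5,7),(0,2),(10,4),(0,4),(7,
  1)]⟩),(.r (-1) ⟨1,[(52,1),(0,0),(0,0)]⟩ ⟨16,[(19,2),(5,7),(0,2),(10,4),(0,4),(7,1)]⟩),.k,.k,
  ⟨false,0,⟨0,[]⟩,⟨1,[(31,0),(0,0),(20,0)]⟩⟩,⟨true,0,⟨9,[(1,7),(0,3),(1,1),(1,1),(5,5),(36,2),(4,
  8)]⟩,⟨3,[(6,1),(9,1),(14,3),(4,1),(11,0),(3,1),(1,0)]⟩⟩,⟨false,(-1),⟨7,[(3,0),(2,1),(3,3),(2,2),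
  (1,0),(9,0),(23,0)]⟩,⟨0,[(52,0),(0,0),(0,0)]⟩⟩,⟨true,(-1),⟨0,[(1,0),(20,0)]⟩,⟨1,[(31,1),(16,0),(3,
  1),(1,0)]⟩⟩,⟨false,0,⟨0,[]⟩,⟨0,[]⟩⟩,⟨false,0,⟨0,[]⟩,⟨0,[]⟩⟩,[.a ⟨true,0,⟨0,[(51,0)]⟩,⟨1,[(48,0),
  (3,1),(1,0)]⟩⟩ ⟨true,(-1),⟨7,[(3,0),(2,1),(3,3),(2,2),(1,0),(9,0),(23,0)]⟩,⟨1,[(52,1),(0,0),(0,
  0)]⟩⟩ ⟨false,0,⟨5,[(1,2),(0,1),(2,0),(1,1),(4,2),(9,1),(9,1),(16,0)]⟩,⟨1,[(31,1),(16,0),(3,1),(1,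
  0)]⟩⟩,.o ⟨false,1,⟨8,[(7,0),(15,0),(2,2),(19,0),(2,3),(3,0)]⟩,⟨0,[(52,0)]⟩⟩,.o ⟨false,1,⟨0,[(31,
  0)]⟩,⟨11,[(1,2),(0,3),(0,1),(0,3),(0,4),(6,0),(36,3),(4,4)]⟩⟩,.o ⟨false,1,⟨2,[(5,0),(10,0),(14,
  3)]⟩,⟨9,[(1,7),(0,3),(1,1),(1,1),(5,5),(36,2),(4,8)]⟩⟩]⟩)))) (.Q [0,1,2,0,-2,0,-1,0,1,0,-1,1] (.p
  false [0,0,1] [0,0,0,0,1] (⟨0,[(38,0)]⟩,⟨0,[(37,0)]⟩) .k 2 (⟨0,[(31,0)]⟩,⟨0,[(30,0)]⟩) .k (.r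
  (-1) ⟨3,[(0,0),(9,0),(1,0),(11,0),(26,1)]⟩ ⟨2,[(18,1),(15,0),(0,0),(7,0)]⟩)) (.Q [0,0,0,0,0,-1,0,
  0,0,0,0,1] (.ed false [1,-1,0,0,1] .k) (.S ⟨1,0,[0,0,1],[1,1,0,0,-1],[0,-1,1],(⟨22,[(30,2),(0,2),
  (0,22),(8,4),(4,5),(0,2)]⟩,⟨0,[(0,0)]⟩),⟨0,[(32,0)]⟩,(.r (-1) ⟨2,[(19,0),(5,0),(0,0),(3,0),(0,
  0)]⟩ ⟨3,[(2,0),(4,1),(3,0),(33,0),(2,0)]⟩),.k,⟨true,0,⟨0,[(51,0)]⟩,⟨0,[(50,0)]⟩⟩,⟨false,0,⟨0,[(51,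
  0)]⟩,⟨3,[(25,1),(26,0),(0,0)]⟩⟩,⟨false,1,⟨1,[(30,0),(0,0),(21,0)]⟩,⟨0,[]⟩⟩,⟨true,0,⟨0,[(55,0)]⟩,
  ⟨0,[]⟩⟩,[.o ⟨false,1,⟨0,[(30,0)]⟩,⟨5,[(1,1),(1,3),(2,1),(4,1),(36,1),(3,0),(0,2)]⟩⟩,.e ⟨false,1,
  ⟨0,[(53,0)]⟩,⟨0,[(45,0)]⟩⟩ ⟨false,1,⟨1,[(30,0),(0,0),(21,0)]⟩,⟨7,[(2,0),(4,1),(3,0),(33,0),(2,0),
  (0,3)]⟩⟩,.a ⟨true,1,⟨8,[(7,2),(8,1),(13,8),(3,1),(12,1),(1,2),(3,2)]⟩,⟨5,[(1,5),(4,1),(4,1),(1,3),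
  (33,0),(5,4)]⟩⟩ ⟨false,1,⟨2,[(4,0),(10,0),(14,0),(22,2)]⟩,⟨7,[(2,0),(4,1),(3,0),(33,0),(2,0),(0,
  3)]⟩⟩ ⟨true,0,⟨2,[(4,0),(10,0),(14,0)]⟩,⟨7,[(2,0),(4,1),(3,0),(33,0),(2,0),(0,3)]⟩⟩,.o ⟨false,1,
  ⟨0,[(30,0)]⟩,⟨5,[(1,1),(1,3),(2,1),(4,1),(36,1),(3,0),(0,2)]⟩⟩]⟩) (.R ⟨0,false,false,false,[0,1,0,
  0,-1],[0,1],[0,1],(⟨0,[(0,0)]⟩,⟨0,[(33,0),(9,0)]⟩),(⟨0,[(44,0)]⟩,⟨0,[(43,0)]⟩),⟨0,[(33,0)]⟩,(.r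
  (-1) ⟨2,[(19,0),(5,0),(0,0),(3,0),(0,0)]⟩ ⟨3,[(2,0),(4,1),(3,0),(33,0),(2,0)]⟩),.k,.k,.k,.k,.k,
  ⟨true,0,⟨3,[(2,0),(4,1),(3,0),(33,0),(2,0)]⟩,⟨1,[(5,0),(4,0),(4,0),(37,0)]⟩⟩,⟨false,0,⟨1,[(3,1),
  (2,0),(4,0),(22,0),(18,0)]⟩,⟨0,[(30,0)]⟩⟩,⟨false,0,⟨3,[(2,0),(4,1),(3,0),(33,0),(2,0)]⟩,⟨3,[(5,0),
  (19,0),(0,0),(26,2)]⟩⟩,⟨true,(-1),⟨7,[(1,1),(1,5),(2,1),(4,1),(35,0),(1,1),(3,0)]⟩,⟨0,[(30,0)]⟩⟩,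
  ⟨false,0,⟨0,[]⟩,⟨0,[]⟩⟩,⟨false,0,⟨0,[]⟩,⟨0,[]⟩⟩,[.o ⟨false,1,⟨8,[(6,0),(15,0),(2,2),(19,0),(2,3),
  (3,0)]⟩,⟨0,[(51,0)]⟩⟩,.e ⟨false,1,⟨2,[(2,0),(13,0),(8,0),(10,0)]⟩,⟨0,[]⟩⟩ ⟨false,0,⟨3,[(1,1),(1,
  1),(2,2),(4,2),(22,0),(12,0),(5,3)]⟩,⟨3,[(2,0),(4,1),(3,0),(18,3),(14,0),(2,0)]⟩⟩,.o ⟨false,2,⟨1,
  [(30,1),(17,0),(3,0)]⟩,⟨5,[(1,5),(4,1),(4,1),(1,3),(33,0),(5,4)]⟩⟩,.a ⟨true,1,⟨0,[(30,0)]⟩,⟨15,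
  [(1,5),(1,9),(3,1),(0,5),(2,5),(35,6),(1,5),(3,14)]⟩⟩ ⟨true,0,⟨7,[(2,0),(4,1),(3,0),(33,0),(2,0),
  (0,3)]⟩,⟨2,[(4,0),(10,0),(14,0)]⟩⟩ ⟨false,0,⟨3,[(1,1),(1,1),(2,2),(4,2),(22,0),(12,0),(5,3)]⟩,⟨0,
  [(30,0),(20,0)]⟩⟩]⟩)) (.Q [0,0,-1,0,1,0,1,0,-1,0,1,-1] (.p true [0,0,1] [0,0,0,0,1] (⟨0,[(39,0)]⟩,
  ⟨0,[(38,0)]⟩) .k 2 (⟨0,[(32,0)]⟩,⟨0,[(31,0)]⟩) .k (.r (-1) ⟨3,[(1,0),(9,0),(1,0),(11,0),(26,1)]⟩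
  ⟨2,[(19,1),(15,0),(0,0),(7,0)]⟩)) (.Q [0,0,0,0,0,-1,0,0,0,0,0,1] (.ed false [1,-1,0,0,1] .k) (.K
  ⟨0,[0,-1,0,0,1],(-1),(-1),(⟨0,[(0,0)]⟩,⟨22,[(31,2),(0,2),(0,22),(8,4),(4,5),(0,2)]⟩),(.r 0 ⟨3,[(3,
  0),(4,1),(3,0),(33,0),(2,0)]⟩ ⟨2,[(20,0),(5,0),(0,0),(3,0),(0,0)]⟩),(.r (-1) ⟨17,[(2,1),(0,13),
  (10,7),(5,0),(11,1),(4,12),(0,2)]⟩ ⟨7,[(6,5),(0,3),(7,1),(11,1),(20,0),(5,2)]⟩),.k,(.r 0 ⟨1,[(12,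
  0),(1,0),(22,0),(14,0)]⟩ ⟨0,[(27,0)]⟩),.k,[⟨0,[(1,0)]⟩,⟨3,[(4,2),(0,0),(0,1),(6,0),(1,0),(0,0),
  (37,1)]⟩,⟨10,[(1,4),(5,2),(7,2),(3,0),(2,1),(3,0),(4,5)]⟩,⟨0,[(4,0),(51,0)]⟩]⟩) (.Q [0,0,0,0,0,2,
  0,0,0,0,-1] (.p false [0,0,1] [] (⟨0,[(41,0)]⟩,⟨0,[(40,0)]⟩) .k 0 (⟨0,[]⟩,⟨0,[]⟩) .k .k) (.R ⟨0,
  false,false,true,[0,-1,1],[1,0,-1,0,-1],[1,0,0,0,0,0,0,-1],(⟨0,[(31,0)]⟩,⟨4,[(0,1),(31,0),(0,0),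
  (7,2),(1,0),(5,0)]⟩),(⟨0,[(1,0),(28,0)]⟩,⟨0,[(35,0),(6,0)]⟩),⟨0,[(0,0)]⟩,.k,.k,(.x 0 ⟨2,[(0,2),(5,
  0),(10,0),(14,0),(6,2)]⟩ ⟨1,[(4,0),(3,0),(4,1),(11,2),(4,0),(0,2)]⟩),(.r (-1) ⟨0,[(4,0),(21,0)]⟩
  ⟨2,[(7,0),(5,1),(7,1),(0,0),(4,0)]⟩),.k,.k,⟨true,0,⟨0,[]⟩,⟨2,[(6,0),(10,0),(14,0)]⟩⟩,⟨false,1,⟨0,
  [(2,0),(22,1),(10,0)]⟩,⟨0,[(5,0),(1,0),(4,0),(2,0),(39,0)]⟩⟩,⟨true,(-1),⟨0,[(7,0),(5,0)]⟩,⟨0,[(4,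
  0),(21,0)]⟩⟩,⟨false,0,⟨4,[(3,4),(3,3),(5,4),(2,6),(6,0),(26,0)]⟩,⟨0,[(5,0),(8,0),(38,0),(1,0)]⟩⟩,
  ⟨false,0,⟨0,[]⟩,⟨0,[]⟩⟩,⟨false,0,⟨0,[]⟩,⟨0,[]⟩⟩,[.a ⟨true,0,⟨1,[(3,0),(7,0),(1,0),(2,0),(15,0)]⟩,
  ⟨3,[(5,3),(2,0),(1,0),(3,0),(34,0),(5,2)]⟩⟩ ⟨false,0,⟨0,[(13,0)]⟩,⟨2,[(4,0),(23,1),(28,1)]⟩⟩
  ⟨true,0,⟨0,[(2,0),(10,0),(2,0),(8,0)]⟩,⟨0,[(5,0),(1,0),(6,0),(38,0),(1,0)]⟩⟩,.o ⟨false,1,⟨4,[(2,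
  0),(0,1),(9,1),(2,3),(4,2),(10,1),(17,1)]⟩,⟨0,[(5,0),(6,0)]⟩⟩,.e ⟨true,0,⟨0,[(22,0)]⟩,⟨13,[(4,1),
  (11,3),(2,2),(6,0),(10,7),(9,0),(2,1)]⟩⟩ ⟨true,0,⟨0,[(2,0),(10,0),(2,0),(8,0)]⟩,⟨0,[(6,0),(30,
  0)]⟩⟩,.o ⟨false,0,⟨3,[(7,3),(6,1),(35,0),(2,5),(1,0)]⟩,⟨0,[(25,0),(28,0)]⟩⟩]⟩) (.R ⟨0,false,false,
  false,[1,-1,-1],[0,0,1,0,1],[0,1,1,0,0,0,0,1],(⟨0,[(30,0)]⟩,⟨22,[(32,2),(0,2),(8,22),(0,4),(4,5),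
  (0,2)]⟩),(⟨0,[(35,0),(6,0)]⟩,⟨0,[(1,0),(28,0)]⟩),⟨2,[(0,1),(41,0),(0,0),(4,2)]⟩,.k,.k,(.r (-1) ⟨0,
  [(4,0),(17,1)]⟩ ⟨0,[(8,0),(8,0)]⟩),(.r (-1) ⟨1,[(4,0),(17,4),(32,0)]⟩ ⟨0,[(14,0),(1,0)]⟩),.k,.k,
  ⟨true,0,⟨2,[(6,0),(10,0),(14,0)]⟩,⟨0,[]⟩⟩,⟨false,1,⟨0,[(5,0),(2,0),(4,0),(1,0),(39,0)]⟩,⟨0,[(16,
  0),(15,0)]⟩⟩,⟨true,0,⟨1,[(14,1),(1,0),(0,0),(22,0)]⟩,⟨0,[(13,1),(39,0)]⟩⟩,⟨false,1,⟨5,[(5,5),(2,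
  3),(5,3),(34,0),(5,4)]⟩,⟨4,[(2,2),(0,0),(9,5),(2,6),(4,3),(10,0),(17,0),(2,4)]⟩⟩,⟨false,0,⟨0,[]⟩,
  ⟨0,[]⟩⟩,⟨false,0,⟨0,[]⟩,⟨0,[]⟩⟩,[.o ⟨false,0,⟨0,[(5,0),(6,0)]⟩,⟨4,[(2,0),(0,1),(9,1),(2,3),(4,2),
  (10,1),(17,1)]⟩⟩,.a ⟨true,0,⟨3,[(5,3),(2,0),(1,0),(3,0),(34,0),(5,2)]⟩,⟨1,[(3,0),(7,0),(1,0),(2,
  0),(15,0)]⟩⟩ ⟨false,1,⟨2,[(4,0),(23,1),(28,1)]⟩,⟨0,[(13,0)]⟩⟩ ⟨true,1,⟨0,[(5,0),(2,0),(6,0),(39,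
  0)]⟩,⟨1,[(2,1),(8,1),(4,1),(33,0),(4,0)]⟩⟩,.o ⟨false,0,⟨0,[(40,0)]⟩,⟨3,[(12,1),(0,1),(1,1),(34,0),
  (4,0)]⟩⟩,.e ⟨true,0,⟨13,[(4,1),(11,3),(2,2),(6,0),(10,7),(9,0),(2,1)]⟩,⟨0,[(22,0)]⟩⟩ ⟨true,1,⟨0,
  [(5,0),(6,0),(5,0)]⟩,⟨1,[(2,1),(8,1),(4,1),(33,0),(4,0)]⟩⟩]⟩))) (.Q [0,0,0,0,0,1,0,0,0,-1,0,1]
  (.ed false [0,1,0,0,1] .k) (.R ⟨0,false,false,true,[-1,1,0,0,1],[0,1],[],(⟨0,[(0,0)]⟩,⟨0,[(33,0),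
  (10,0)]⟩),(⟨0,[(45,0)]⟩,⟨0,[(44,0)]⟩),⟨0,[(33,0)]⟩,(.r 0 ⟨16,[(19,2),(5,7),(0,2),(10,4),(0,4),(7,
  1)]⟩ ⟨1,[(3,0),(17,0),(32,0)]⟩),.k,.k,.k,.k,.k,⟨true,1,⟨1,[(3,0),(17,0),(32,0)]⟩,⟨8,[(6,3),(3,3),
  (2,2),(1,0),(2,0),(6,0),(23,0)]⟩⟩,⟨false,1,⟨20,[(2,5),(5,0),(22,14),(3,5),(6,3),(1,3),(1,1),(1,4),
  (1,0)]⟩,⟨2,[(1,0),(2,1),(2,0),(4,0),(36,0),(4,0)]⟩⟩,⟨true,1,⟨1,[(3,0),(17,0),(32,0)]⟩,⟨3,[(9,1),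
  (0,1),(7,0),(0,0),(26,0),(2,0)]⟩⟩,⟨false,1,⟨0,[(2,0),(13,0)]⟩,⟨2,[(1,0),(2,1),(2,0),(4,0),(36,0),
  (4,0)]⟩⟩,⟨false,0,⟨0,[]⟩,⟨0,[]⟩⟩,⟨false,0,⟨0,[]⟩,⟨0,[]⟩⟩,[.e ⟨false,1,⟨8,[(2,1),(0,1),(22,1),(5,
  1),(4,1),(8,0),(6,0)]⟩,⟨0,[]⟩⟩ ⟨false,0,⟨2,[(2,1),(6,1),(0,1),(4,0),(15,0),(18,0)]⟩,⟨3,[(1,0),(1,
  0),(0,1),(7,0),(4,0),(14,0),(16,1),(4,2)]⟩⟩,.o ⟨false,1,⟨8,[(7,0),(15,0),(2,2),(19,0),(2,3),(3,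
  0)]⟩,⟨0,[(52,0)]⟩⟩,.o ⟨false,1,⟨0,[(1,0),(15,0),(31,0)]⟩,⟨0,[(2,0),(3,0),(8,0),(20,0),(15,0)]⟩⟩,
  .a ⟨true,0,⟨2,[(1,0),(2,1),(2,0),(4,0),(36,0),(4,0)]⟩,⟨8,[(2,8),(5,2),(0,2),(0,2),(4,1),(0,4),(12,
  0),(0,0),(11,1),(5,1)]⟩⟩ ⟨false,1,⟨1,[(53,0),(0,0)]⟩,⟨2,[(5,0),(10,0),(14,0)]⟩⟩ ⟨true,0,⟨2,[(2,1),
  (6,1),(0,1),(4,0),(15,0),(18,0)]⟩,⟨1,[(4,1),(44,0),(4,0)]⟩⟩]⟩) (.Q [0,0,0,0,0,0,1,0,1,-1,1,1] (.p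
  true [0,0,1] [1,0,0,0,-1] (⟨0,[(41,0)]⟩,⟨0,[(40,0)]⟩) .k 2 (⟨0,[(33,0)]⟩,⟨0,[(34,0)]⟩) .k (.r 0
  ⟨13,[(3,1),(11,3),(2,2),(6,0),(10,7),(9,0),(2,1)]⟩ ⟨5,[(2,1),(17,3),(10,0),(0,2),(4,1),(16,0)]⟩))
  (.K ⟨0,[1,0,0,0,-1],0,1,(⟨0,[(34,0)]⟩,⟨0,[(35,0)]⟩),.k,(.r (-1) ⟨1,[(4,0),(17,0),(32,0)]⟩ ⟨16,
  [(20,2),(5,7),(0,2),(10,4),(0,4),(7,1)]⟩),(.r (-1) ⟨2,[(21,0),(5,0),(0,0),(3,0),(0,0)]⟩ ⟨3,[(4,0),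
  (4,1),(3,0),(33,0),(2,0)]⟩),.k,.k,[⟨0,[(0,0)]⟩,⟨0,[(3,0),(3,0),(8,0),(20,0),(15,0)]⟩,⟨0,[(2,0),(6,
  0),(0,0),(2,0),(36,0)]⟩,⟨2,[(32,3),(0,0),(9,0),(1,0),(3,0)]⟩]⟩) (.Q [0,0,0,-1,1,0,1,1,-1,0,1,-1]
  (.p true [0,0,1] [0,0,0,0,1] (⟨0,[(42,0)]⟩,⟨0,[(41,0)]⟩) .k 2 (⟨0,[(35,0)]⟩,⟨0,[(34,0)]⟩) .k (.r
  (-1) ⟨3,[(4,0),(9,0),(1,0),(11,0),(26,1)]⟩ ⟨2,[(22,1),(15,0),(0,0),(7,0)]⟩)) (.R ⟨1,true,false,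
  false,[0,0,1],[0,0,0,0,1],[0,0,0,-1,0,0,0,1],(⟨0,[(43,0)]⟩,⟨0,[(42,0)]⟩),(⟨0,[(36,0)]⟩,⟨0,[(35,
  0)]⟩),⟨0,[(32,0)]⟩,.k,.k,.k,.k,(.r (-2) ⟨2,[(5,1),(23,0),(3,1),(0,1),(21,0)]⟩ ⟨1,[(1,1),(1,1),(4,
  1),(0,3),(0,7),(3,3),(36,2),(4,2)]⟩),.k,⟨true,1,⟨27,[(0,9),(2,7),(1,11),(1,1),(10,3),(10,5),(21,
  0),(4,10)]⟩,⟨0,[(21,0)]⟩⟩,⟨false,0,⟨0,[(3,0),(51,0)]⟩,⟨2,[(0,0),(3,0),(16,0),(11,0),(6,0)]⟩⟩,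
  ⟨true,0,⟨0,[(54,0)]⟩,⟨0,[(53,0)]⟩⟩,⟨false,(-1),⟨0,[(3,0),(10,0)]⟩,⟨6,[(0,5),(3,0),(0,0),(22,3),
  (27,0)]⟩⟩,⟨false,1,⟨1,[(33,0),(0,0),(21,0)]⟩,⟨0,[]⟩⟩,⟨true,(-1),⟨3,[(3,1),(2,0),(7,0),(6,0),(2,1),
  (9,0),(17,1)]⟩,⟨0,[(0,0)]⟩⟩,[]⟩) (.Q [0,0,0,0,0,2,0,0,0,-1,1] (.p true [0,0,1] [1] (⟨0,[(43,0)]⟩,
  ⟨0,[(42,0)]⟩) .k 1 (⟨0,[]⟩,⟨0,[]⟩) .k .k) (.R ⟨0,false,false,false,[1,-1,-1],[1,0,0,0,-1],[1,1,1],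
  (⟨0,[(32,0)]⟩,⟨4,[(0,1),(33,0),(0,0),(8,2),(0,0),(5,0)]⟩),(⟨0,[(36,0)]⟩,⟨0,[(37,0)]⟩),⟨0,[(0,0)]⟩,
  .k,.k,(.r (-1) ⟨0,[(6,0),(17,1)]⟩ ⟨0,[(10,0),(8,0)]⟩),(.r 0 ⟨1,[(15,0),(1,0),(22,0),(14,0)]⟩ ⟨0,
  [(30,0)]⟩),.k,.k,⟨true,(-1),⟨2,[(13,1),(25,1),(9,0),(2,0)]⟩,⟨0,[(57,0)]⟩⟩,⟨false,2,⟨8,[(5,6),(11,
  1),(11,0),(4,2),(0,0),(13,2)]⟩,⟨0,[(4,0)]⟩⟩,⟨false,0,⟨0,[(14,0),(4,0)]⟩,⟨1,[(6,0),(8,1),(8,0),(32,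
  0)]⟩⟩,⟨true,2,⟨5,[(2,1),(2,2),(3,0),(6,1),(13,2),(3,0),(6,0),(15,0)]⟩,⟨0,[(1,0),(9,1),(40,0)]⟩⟩,
  ⟨false,0,⟨0,[]⟩,⟨0,[]⟩⟩,⟨false,0,⟨0,[]⟩,⟨0,[]⟩⟩,[.e ⟨false,0,⟨0,[(59,0)]⟩,⟨1,[(56,0),(0,0)]⟩⟩
  ⟨false,2,⟨0,[(5,0)]⟩,⟨2,[(4,1),(2,0),(20,0),(11,0)]⟩⟩,.o ⟨false,2,⟨0,[(34,0),(22,0)]⟩,⟨2,[(1,1),
  (5,0),(3,2),(0,1),(39,2)]⟩⟩,.o ⟨false,0,⟨0,[(42,0)]⟩,⟨3,[(14,1),(0,1),(1,1),(34,0),(4,0)]⟩⟩,.a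
  ⟨true,(-1),⟨0,[(19,0)]⟩,⟨0,[(20,0)]⟩⟩ ⟨false,0,⟨0,[]⟩,⟨1,[(34,0),(0,0),(21,0)]⟩⟩ ⟨true,2,⟨0,[(5,
  0)]⟩,⟨2,[(4,0),(2,1),(5,1),(7,0),(6,0),(23,0)]⟩⟩]⟩) (.Q [0,0,0,0,0,0,0,0,0,0,1,-1] (.ed true [1,0,
  -1,0,1] (.r 0 ⟨2,[(24,1),(15,0),(0,0),(7,0)]⟩ ⟨3,[(6,0),(9,0),(1,0),(11,0),(26,1)]⟩)) (.S ⟨1,0,[0,
  2,0,-1,0,0,0,-1],[1,0,-1,0,1],[1,1,0,0,0,0,0,-1],(⟨0,[(38,0),(5,0)]⟩,⟨0,[(0,0)]⟩),⟨0,[(33,0),(4,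
  0)]⟩,.k,(.r 0 ⟨1,[(16,0),(1,0),(22,0),(14,0)]⟩ ⟨0,[(31,0)]⟩),⟨true,0,⟨0,[]⟩,⟨0,[(60,0)]⟩⟩,⟨false,
  0,⟨0,[(56,0)]⟩,⟨3,[(30,1),(26,0),(0,0)]⟩⟩,⟨false,1,⟨3,[(30,1),(26,0),(0,0)]⟩,⟨0,[(56,0)]⟩⟩,⟨true,
  0,⟨0,[(60,0)]⟩,⟨0,[]⟩⟩,[.o ⟨false,(-2),⟨0,[(2,0),(9,1),(40,0)]⟩,⟨0,[(15,0),(19,0),(22,0)]⟩⟩,.e
  ⟨false,0,⟨0,[(16,0)]⟩,⟨2,[(7,0),(23,1),(28,1)]⟩⟩ ⟨false,0,⟨1,[(16,0),(1,0),(22,0),(14,0)]⟩,⟨14,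
  [(7,2),(3,8),(7,3),(11,2),(7,0),(12,1),(5,5)]⟩⟩,.a ⟨true,(-1),⟨44,[(1,2),(0,9),(2,23),(1,2),(0,
  10),(4,6),(20,2),(4,17),(6,8),(5,11),(5,8)]⟩,⟨4,[(3,0),(2,1),(3,1),(6,0),(0,0),(16,1),(6,0),(13,
  1)]⟩⟩ ⟨false,0,⟨0,[(25,0)]⟩,⟨3,[(7,0),(9,0),(1,0),(11,0),(26,1)]⟩⟩ ⟨true,(-1),⟨10,[(7,0),(6,7),(1,
  2),(1,8),(22,0),(8,1),(2,3)]⟩,⟨14,[(7,2),(3,8),(7,3),(11,2),(7,0),(12,1),(5,5)]⟩⟩,.o ⟨false,(-1),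
  ⟨0,[(5,0)]⟩,⟨30,[(6,15),(2,4),(7,1),(0,5),(4,3),(11,19),(14,1),(2,11)]⟩⟩]⟩) (.K ⟨0,[1,0,1,0,-1],0,
  1,(⟨0,[(37,0),(7,0)]⟩,⟨0,[(0,0)]⟩),.k,(.r (-2) ⟨2,[(7,1),(23,0),(3,1),(0,1),(21,0)]⟩ ⟨0,[(2,0),(0,
  0),(6,0),(0,1),(0,4),(3,0),(36,1),(4,1)]⟩),(.r (-1) ⟨0,[(31,0)]⟩ ⟨1,[(16,0),(1,0),(22,0),(14,
  0)]⟩),.k,.k,[⟨2,[(2,0),(5,1),(6,0),(37,0),(4,0)]⟩,⟨3,[(3,1),(2,1),(3,3),(29,3),(11,0),(3,3),(1,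
  0)]⟩,⟨15,[(2,7),(5,7),(5,4),(1,1),(2,0),(21,0),(8,8),(2,10)]⟩,⟨0,[(6,0),(13,0),(19,
  0)]⟩]⟩))))))))) (.Q [0,0,0,0,0,0,0,0,0,-1,1,1] (.ed false [0,0,1,0,1] (.r 0 ⟨0,[(20,0),(11,0)]⟩
  ⟨2,[(13,0),(2,1),(10,0),(0,0),(4,0),(16,0)]⟩)) (.K ⟨0,[-1,0,1,0,1],0,0,(⟨0,[(0,0)]⟩,⟨0,[(30,0),(6,
  0)]⟩),.k,(.r (-1) ⟨7,[(10,3),(0,3),(13,5),(2,0),(0,0),(16,0),(2,7),(0,1)]⟩ ⟨4,[(3,2),(5,1),(13,0),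
  (27,1)]⟩),(.r 0 ⟨0,[(22,0)]⟩ ⟨1,[(9,0),(1,0),(22,0),(14,0),(1,1)]⟩),.k,.k,[⟨0,[(1,0),(3,0)]⟩,⟨0,
  [(2,0)]⟩,⟨20,[(1,5),(3,5),(1,2),(1,14),(2,7),(4,2),(10,14),(3,1),(12,0)]⟩,⟨1,[(2,0),(2,0),(5,0),
  (3,1),(13,0),(16,0)]⟩]⟩) (.Q [0,0,0,0,0,2,0,0,0,-1,1] (.p true [0,0,1] [1] (⟨0,[(38,0)]⟩,⟨0,[(37,
  0)]⟩) .k 1 (⟨0,[]⟩,⟨0,[]⟩) .k .k) (.R ⟨0,false,false,true,[1,-1,-1],[1,0,0,0,-1],[],(⟨0,[(27,0)]⟩,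
  ⟨4,[(0,1),(28,0),(0,0),(8,2),(0,0),(5,0)]⟩),(⟨0,[(31,0)]⟩,⟨0,[(32,0)]⟩),⟨0,[(0,0)]⟩,.k,.k,(.r
  (-1) ⟨1,[(10,0),(1,0),(22,0),(14,2),(0,0),(0,0)]⟩ ⟨0,[(5,0),(8,0)]⟩),(.r 0 ⟨1,[(10,0),(1,0),(22,
  0),(14,0)]⟩ ⟨0,[(25,0)]⟩),.k,.k,⟨false,1,⟨1,[(29,0),(0,0),(20,0)]⟩,⟨0,[]⟩⟩,⟨true,1,⟨0,[(2,0),(9,
  0)]⟩,⟨0,[(3,0),(9,0)]⟩⟩,⟨false,1,⟨0,[(25,0)]⟩,⟨0,[(10,0),(39,0)]⟩⟩,⟨true,1,⟨0,[(2,0),(31,0)]⟩,⟨2,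
  [(3,0),(2,2),(3,2),(2,1),(16,1),(16,1)]⟩⟩,⟨false,0,⟨0,[]⟩,⟨0,[]⟩⟩,⟨false,0,⟨0,[]⟩,⟨0,[]⟩⟩,[.a
  ⟨true,0,⟨0,[(2,0),(3,0)]⟩,⟨0,[(30,0)]⟩⟩ ⟨false,1,⟨1,[(29,0),(0,0),(20,0)]⟩,⟨0,[]⟩⟩ ⟨true,1,⟨0,[(2,
  0),(9,0)]⟩,⟨0,[(3,0),(9,0)]⟩⟩,.o ⟨false,1,⟨0,[(2,0),(47,0)]⟩,⟨5,[(3,1),(2,2),(6,0),(16,3),(16,3),
  (0,2)]⟩⟩,.o ⟨false,0,⟨0,[(37,0)]⟩,⟨3,[(9,1),(0,1),(1,1),(34,0),(4,0)]⟩⟩,.e ⟨false,1,⟨1,[(51,0),(0,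
  0)]⟩,⟨2,[(3,0),(10,0),(14,0)]⟩⟩ ⟨false,2,⟨1,[(2,1),(9,1),(38,0),(0,0)]⟩,⟨0,[(3,0),(9,0)]⟩⟩]⟩) (.I
  [1,0,1,0,0,0,0,1] (.Q [0,0,0,0,0,-1,0,0,0,0,0,1] (.ed false [1,-1,0,0,1] .k) (.S ⟨1,0,[0,0,1],[1,
  1,0,0,-1],[0,-1,1],(⟨22,[(31,2),(0,2),(0,22),(8,4),(4,5),(0,2)]⟩,⟨0,[(0,0)]⟩),⟨0,[(33,0)]⟩,(.r
  (-1) ⟨2,[(20,0),(5,0),(0,0),(3,0),(0,0)]⟩ ⟨0,[(14,0),(9,0)]⟩),.k,⟨true,0,⟨0,[(52,0)]⟩,⟨0,[(51,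
  0)]⟩⟩,⟨false,0,⟨0,[(52,0)]⟩,⟨3,[(26,1),(26,0),(0,0)]⟩⟩,⟨false,1,⟨1,[(31,0),(0,0),(21,0)]⟩,⟨0,[]⟩⟩,
  ⟨true,0,⟨0,[(56,0)]⟩,⟨0,[]⟩⟩,[.a ⟨true,0,⟨0,[(4,0),(3,0)]⟩,⟨0,[(32,0)]⟩⟩ ⟨false,1,⟨1,[(31,0),(0,
  0),(21,0)]⟩,⟨1,[(14,0),(9,0),(25,0)]⟩⟩ ⟨true,0,⟨2,[(5,0),(10,0),(14,0)]⟩,⟨0,[]⟩⟩,.o ⟨false,1,⟨0,
  [(4,0),(47,0)]⟩,⟨5,[(5,1),(2,2),(6,0),(16,3),(16,3),(0,2)]⟩⟩,.o ⟨false,1,⟨0,[(4,0),(9,0),(9,0)]⟩,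
  ⟨2,[(5,1),(9,0),(16,0),(16,0)]⟩⟩,.e ⟨false,1,⟨0,[(54,0)]⟩,⟨0,[(56,0)]⟩⟩ ⟨false,1,⟨1,[(31,0),(0,0),
  (21,0)]⟩,⟨0,[]⟩⟩]⟩) (.R ⟨0,false,false,true,[0,0,0,0,1],[0,1,1],[0,1,1,1,0,0,0,1],(⟨0,[(34,0)]⟩,
  ⟨0,[(33,0)]⟩),(⟨22,[(31,2),(0,2),(8,22),(0,4),(4,5),(0,2)]⟩,⟨0,[(29,0)]⟩),⟨0,[(0,0)]⟩,.k,.k,(.r 0
  ⟨0,[(14,0),(9,0)]⟩ ⟨2,[(20,0),(5,0),(0,0),(3,0),(0,0)]⟩),(.r 0 ⟨1,[(12,0),(1,0),(22,0),(14,0)]⟩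
  ⟨0,[(27,0)]⟩),.k,.k,⟨false,1,⟨1,[(31,0),(0,0),(20,0)]⟩,⟨0,[]⟩⟩,⟨true,1,⟨0,[(4,0),(9,0)]⟩,⟨0,[(5,
  0),(9,0)]⟩⟩,⟨false,1,⟨0,[(27,0)]⟩,⟨0,[(12,0),(39,0)]⟩⟩,⟨true,1,⟨0,[(4,0),(31,0)]⟩,⟨2,[(5,0),(2,2),
  (3,2),(2,1),(16,1),(16,1)]⟩⟩,⟨false,0,⟨0,[]⟩,⟨0,[]⟩⟩,⟨false,0,⟨0,[]⟩,⟨0,[]⟩⟩,[.e ⟨false,0,⟨0,[(7,
  1),(0,2),(3,0),(2,0),(33,0),(4,0)]⟩,⟨1,[(12,0),(1,0),(22,0),(14,0),(1,1)]⟩⟩ ⟨false,1,⟨0,[(4,0),(9,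
  0),(3,0)]⟩,⟨5,[(5,1),(6,5),(2,3),(16,3),(16,0),(2,5),(1,2)]⟩⟩,.o ⟨false,1,⟨0,[(11,0)]⟩,⟨6,[(12,2),
  (2,1),(4,0),(16,2),(11,0),(2,6),(1,0)]⟩⟩,.a ⟨true,0,⟨0,[(32,0)]⟩,⟨0,[(4,0),(3,0)]⟩⟩ ⟨true,0,⟨0,
  [(25,0)]⟩,⟨0,[(12,0),(39,0)]⟩⟩ ⟨false,1,⟨0,[(4,0),(31,0)]⟩,⟨5,[(5,1),(6,5),(2,3),(16,3),(16,0),(2,
  5),(1,2)]⟩⟩,.o ⟨false,0,⟨2,[(5,1),(9,0),(16,0),(16,0)]⟩,⟨0,[(4,0),(9,0),(9,0)]⟩⟩]⟩)) (.Q [0,0,0,0,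
  0,-1,0,0,0,0,0,1] (.ed false [1,-1,0,0,1] .k) (.S ⟨1,0,[0,0,1],[1,1,0,0,-1],[0,-1,1],(⟨22,[(31,2),
  (0,2),(0,22),(8,4),(4,5),(0,2)]⟩,⟨0,[(0,0)]⟩),⟨0,[(33,0)]⟩,(.r (-1) ⟨2,[(20,0),(5,0),(0,0),(3,0),
  (0,0)]⟩ ⟨0,[(14,0),(9,0)]⟩),.k,⟨true,0,⟨0,[(52,0)]⟩,⟨0,[(51,0)]⟩⟩,⟨false,0,⟨0,[(52,0)]⟩,⟨3,[(26,
  1),(26,0),(0,0)]⟩⟩,⟨false,1,⟨1,[(31,0),(0,0),(21,0)]⟩,⟨0,[]⟩⟩,⟨true,0,⟨0,[(56,0)]⟩,⟨0,[]⟩⟩,[.a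
  ⟨true,0,⟨0,[(4,0),(3,0)]⟩,⟨0,[(32,0)]⟩⟩ ⟨false,1,⟨1,[(31,0),(0,0),(21,0)]⟩,⟨1,[(14,0),(9,0),(25,
  0)]⟩⟩ ⟨true,0,⟨2,[(5,0),(10,0),(14,0)]⟩,⟨0,[]⟩⟩,.o ⟨false,1,⟨0,[(4,0),(47,0)]⟩,⟨5,[(5,1),(2,2),(6,
  0),(16,3),(16,3),(0,2)]⟩⟩,.o ⟨false,1,⟨0,[(4,0),(9,0),(9,0)]⟩,⟨2,[(5,1),(9,0),(16,0),(16,0)]⟩⟩,.e
  ⟨false,1,⟨0,[(54,0)]⟩,⟨0,[(56,0)]⟩⟩ ⟨false,1,⟨1,[(31,0),(0,0),(21,0)]⟩,⟨0,[]⟩⟩]⟩) (.R ⟨0,false,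
  false,true,[0,0,0,0,1],[0,1,1],[0,1,1,1,0,0,0,1],(⟨0,[(34,0)]⟩,⟨0,[(33,0)]⟩),(⟨22,[(31,2),(0,2),
  (8,22),(0,4),(4,5),(0,2)]⟩,⟨0,[(29,0)]⟩),⟨0,[(0,0)]⟩,.k,.k,(.r 0 ⟨0,[(14,0),(9,0)]⟩ ⟨2,[(20,0),(5,
  0),(0,0),(3,0),(0,0)]⟩),(.r 0 ⟨1,[(1,0),(12,0),(22,0),(14,0)]⟩ ⟨0,[(27,0)]⟩),.k,.k,⟨false,1,⟨1,
  [(31,0),(0,0),(20,0)]⟩,⟨0,[]⟩⟩,⟨true,1,⟨0,[(4,0),(9,0)]⟩,⟨0,[(5,0),(9,0)]⟩⟩,⟨false,1,⟨0,[(27,0)]⟩,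
  ⟨0,[(1,0),(50,0)]⟩⟩,⟨true,1,⟨0,[(4,0),(31,0)]⟩,⟨2,[(1,2),(3,0),(2,2),(6,1),(16,1),(16,1)]⟩⟩,
  ⟨false,0,⟨0,[]⟩,⟨0,[]⟩⟩,⟨false,0,⟨0,[]⟩,⟨0,[]⟩⟩,[.e ⟨false,0,⟨0,[(1,0),(5,1),(0,2),(6,0),(33,0),
  (4,0)]⟩,⟨1,[(1,0),(12,0),(22,0),(14,0),(1,1)]⟩⟩ ⟨false,1,⟨0,[(4,0),(9,0),(3,0)]⟩,⟨5,[(1,5),(3,1),
  (9,3),(16,3),(16,0),(2,5),(1,2)]⟩⟩,.o ⟨false,1,⟨0,[(11,0)]⟩,⟨10,[(1,4),(13,1),(4,2),(7,1),(8,2),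
  (11,1),(2,10)]⟩⟩,.a ⟨true,0,⟨0,[(32,0)]⟩,⟨0,[(4,0),(3,0)]⟩⟩ ⟨true,0,⟨0,[(25,0)]⟩,⟨0,[(1,0),(50,
  0)]⟩⟩ ⟨false,1,⟨0,[(4,0),(31,0)]⟩,⟨5,[(1,5),(3,1),(9,3),(16,3),(16,0),(2,5),(1,2)]⟩⟩,.o ⟨false,0,
  ⟨2,[(5,1),(9,0),(16,0),(16,0)]⟩,⟨0,[(4,0),(9,0),(9,0)]⟩⟩]⟩))))))

theorem ok16 : chk K t16 r22 = true := by decide +kernel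

noncomputable def t22 : Tre :=
  (.Q [0,0,0,0,0,2,0,0,0,-1,1] (.p true [0,0,1] [1] (⟨0,[(31,0)]⟩,⟨0,[(30,0)]⟩) .k 1 (⟨0,[]⟩,⟨0,
  []⟩) .k .k) (.R ⟨0,false,false,false,[1,-1,-1],[0,-1,1],[0,0,-1,-1,0,0,0,1],(⟨0,[(20,0)]⟩,⟨4,[(0,
  1),(21,0),(0,0),(8,2),(0,0),(5,0)]⟩),(⟨0,[(21,0)]⟩,⟨22,[(22,2),(0,2),(7,22),(1,4),(4,5),(0,2)]⟩),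
  ⟨0,[(0,0)]⟩,.k,.k,(.r (-1) ⟨1,[(3,0),(1,0),(22,0),(14,2),(0,0),(0,0)]⟩ ⟨5,[(2,5),(1,1),(1,3),(0,
  1),(2,3),(28,0),(5,2)]⟩),.k,.k,.k,⟨false,1,⟨5,[(1,0),(6,1),(10,0),(2,1),(0,1),(4,0)]⟩,⟨0,[]⟩⟩,
  ⟨true,1,⟨3,[(1,0),(0,0),(0,1),(1,0),(23,4),(10,0)]⟩,⟨0,[(6,0)]⟩⟩,⟨true,1,⟨5,[(1,2),(2,1),(1,3),
  (11,1),(0,0),(7,2),(15,3)]⟩,⟨0,[(3,0),(6,0),(32,0)]⟩⟩,⟨false,2,⟨0,[(4,0),(38,0),(1,0)]⟩,⟨0,[(3,0),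
  (2,0),(5,0)]⟩⟩,⟨false,0,⟨0,[]⟩,⟨0,[]⟩⟩,⟨false,0,⟨0,[]⟩,⟨0,[]⟩⟩,[.o ⟨false,1,⟨3,[(4,1),(35,0),(2,
  5),(1,0)]⟩,⟨0,[(13,0)]⟩⟩,.a ⟨true,1,⟨0,[(27,0),(15,0),(1,0)]⟩,⟨0,[(10,0),(15,0)]⟩⟩ ⟨false,2,⟨11,
  [(1,9),(3,5),(12,1),(0,7),(19,0),(3,7),(1,2)]⟩,⟨0,[(10,0)]⟩⟩ ⟨true,2,⟨0,[(1,0),(27,0),(13,0)]⟩,⟨0,
  [(6,0),(3,0)]⟩⟩,.o ⟨false,0,⟨0,[(30,0)]⟩,⟨3,[(1,0),(0,0),(0,1),(1,0),(23,0),(10,0)]⟩⟩,.e ⟨true,1,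
  ⟨0,[(1,0),(3,0),(0,0)]⟩,⟨45,[(7,13),(2,40),(5,0),(0,1),(10,5),(0,19),(10,6)]⟩⟩ ⟨true,2,⟨19,[(1,
  15),(2,1),(0,13),(16,4),(0,4),(5,5),(10,0),(2,7)]⟩,⟨0,[(6,0),(3,0)]⟩⟩]⟩) (.I [1,-1,-1,-1,1,0,0,1]
  (.R ⟨0,false,false,false,[0,-1,1],[1,-1,-1],[1,0,-1,-1,0,0,0,-1],(⟨0,[(22,0)]⟩,⟨22,[(23,2),(0,2),
  (7,22),(1,4),(4,5),(0,2)]⟩),(⟨0,[(21,0)]⟩,⟨22,[(23,2),(0,2),(8,22),(0,4),(4,5),(0,2)]⟩),⟨2,[(1,0),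
  (19,1),(12,0),(4,2)]⟩,.k,.k,(.r (-1) ⟨0,[(0,0),(5,0),(9,0)]⟩ ⟨18,[(8,1),(2,11),(0,2),(5,12),(10,
  3),(0,5),(10,0)]⟩),.k,.k,.k,⟨true,0,⟨0,[]⟩,⟨1,[(30,0),(0,0)]⟩⟩,⟨false,0,⟨0,[(16,0),(10,0)]⟩,⟨3,
  [(2,0),(0,0),(0,1),(1,0),(23,4),(10,0)]⟩⟩,⟨false,0,⟨0,[(4,0),(7,0)]⟩,⟨0,[(0,0),(16,0)]⟩⟩,⟨true,
  (-1),⟨0,[(4,0),(2,0),(5,0)]⟩,⟨0,[(5,0),(38,0)]⟩⟩,⟨false,0,⟨0,[]⟩,⟨0,[]⟩⟩,⟨false,0,⟨0,[]⟩,⟨0,[]⟩⟩,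
  [.o ⟨false,0,⟨6,[(4,2),(2,1),(4,0),(16,2),(11,0),(2,6),(1,0)]⟩,⟨0,[(3,0)]⟩⟩,.e ⟨false,1,⟨0,[(0,0),
  (3,0),(8,0)]⟩,⟨0,[(17,0)]⟩⟩ ⟨false,0,⟨0,[(0,0),(3,1),(2,0)]⟩,⟨7,[(5,5),(7,0),(4,0),(10,2),(0,6),
  (10,0)]⟩⟩,.a ⟨true,0,⟨0,[(30,0)]⟩,⟨0,[(27,0)]⟩⟩ ⟨true,0,⟨0,[(4,0),(39,0)]⟩,⟨0,[(17,0)]⟩⟩ ⟨false,0,
  ⟨2,[(0,0),(3,3),(2,1),(12,0),(23,1),(1,0)]⟩,⟨0,[(3,0),(26,0)]⟩⟩,.e ⟨false,1,⟨0,[(0,0),(3,0),(8,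
  0)]⟩,⟨0,[(3,0),(4,0)]⟩⟩ ⟨false,0,⟨0,[(0,0),(3,1),(2,0)]⟩,⟨5,[(3,0),(1,1),(2,0),(9,0),(0,0),(10,7),
  (10,1)]⟩⟩]⟩) (.Q [0,-1,-2,-1,0,0,-2,-1,0,1,-2] (.p false [0,0,1] [1,0,-1] (⟨0,[(33,0)]⟩,⟨0,[(32,
  0)]⟩) .k 2 (⟨0,[(32,0)]⟩,⟨0,[(33,0)]⟩) .k (.r (-1) ⟨5,[(2,2),(2,1),(1,3),(11,1),(0,0),(7,2),(15,
  3)]⟩ ⟨0,[(13,1)]⟩)) (.R ⟨0,false,false,false,[0,-1,1],[1,-1,-1],[1,0,-1,-1,0,0,0,-1],(⟨0,[(23,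
  0)]⟩,⟨22,[(24,2),(0,2),(7,22),(1,4),(4,5),(0,2)]⟩),(⟨0,[(22,0)]⟩,⟨22,[(24,2),(0,2),(8,22),(0,4),
  (4,5),(0,2)]⟩),⟨2,[(2,0),(19,1),(12,0),(4,2)]⟩,.k,.k,(.r (-1) ⟨13,[(0,7),(2,6),(4,1),(12,0),(7,
  14),(12,1),(2,19)]⟩ ⟨18,[(9,1),(2,11),(0,2),(5,12),(10,3),(0,5),(10,0)]⟩),.k,.k,.k,⟨true,0,⟨0,[]⟩,
  ⟨1,[(31,0),(0,0)]⟩⟩,⟨false,0,⟨1,[(0,0),(10,0),(9,0)]⟩,⟨3,[(3,0),(0,0),(0,1),(1,0),(23,4),(10,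
  0)]⟩⟩,⟨false,0,⟨0,[(5,0),(7,0)]⟩,⟨5,[(3,2),(2,1),(1,3),(11,1),(0,0),(7,2),(15,3)]⟩⟩,⟨true,(-1),⟨3,
  [(0,2),(8,0),(2,2),(0,0),(16,0)]⟩,⟨0,[(6,0),(38,0)]⟩⟩,⟨false,0,⟨0,[]⟩,⟨0,[]⟩⟩,⟨false,0,⟨0,[]⟩,⟨0,
  []⟩⟩,[.o ⟨false,0,⟨11,[(0,2),(8,0),(2,0),(0,2),(16,4),(11,1),(2,9)]⟩,⟨0,[(4,0)]⟩⟩,.e ⟨false,1,⟨3,
  [(0,1),(6,1),(2,1),(2,1),(28,0),(4,0)]⟩,⟨0,[(18,0)]⟩⟩ ⟨false,0,⟨0,[(0,0)]⟩,⟨7,[(6,5),(7,0),(4,0),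
  (10,2),(0,6),(10,0)]⟩⟩,.a ⟨true,0,⟨0,[(31,0)]⟩,⟨0,[(28,0)]⟩⟩ ⟨true,0,⟨0,[(5,0),(39,0)]⟩,⟨0,[(18,
  0)]⟩⟩ ⟨false,0,⟨3,[(0,2),(8,0),(20,0),(14,0),(1,0)]⟩,⟨0,[(4,0),(26,0)]⟩⟩,.e ⟨false,1,⟨3,[(0,1),(6,
  1),(2,1),(2,1),(28,0),(4,0)]⟩,⟨0,[(4,0),(4,0)]⟩⟩ ⟨false,0,⟨0,[(0,0)]⟩,⟨5,[(4,0),(1,1),(2,0),(9,0),
  (0,0),(10,7),(10,1)]⟩⟩]⟩) (.Q [0,0,2,0,0,0,1,0,0,-1,1] (.p true [0,0,1] [1] (⟨0,[(34,0)]⟩,⟨0,[(33,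
  0)]⟩) .k 1 (⟨0,[]⟩,⟨0,[]⟩) .k .k) (.R ⟨0,false,false,true,[0,-1,1],[1,-1],[0,0,-1,-1,0,0,0,1],(⟨0,
  [(24,0)]⟩,⟨22,[(25,2),(0,2),(7,22),(1,4),(4,5),(0,2)]⟩),(⟨0,[(38,0)]⟩,⟨0,[(39,0)]⟩),⟨2,[(3,0),(19,
  1),(12,0),(4,2)]⟩,.k,.k,(.r (-1) ⟨0,[(4,0),(3,0),(0,0),(36,0)]⟩ ⟨12,[(0,0),(9,0),(2,7),(0,1),(5,
  8),(10,2),(0,2)]⟩),.k,.k,.k,⟨true,1,⟨0,[(4,0),(5,0)]⟩,⟨0,[(13,0),(32,0)]⟩⟩,⟨false,0,⟨0,[(29,0)]⟩,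
  ⟨2,[(0,1),(3,0),(6,0),(19,0)]⟩⟩,⟨false,1,⟨1,[(25,0),(0,0),(21,0)]⟩,⟨0,[]⟩⟩,⟨true,(-1),⟨25,[(2,5),
  (3,8),(1,5),(0,13),(5,6),(15,3),(8,4),(1,5)]⟩,⟨14,[(0,2),(3,3),(2,4),(1,0),(11,0),(21,1),(2,5)]⟩⟩,
  ⟨false,0,⟨0,[]⟩,⟨0,[]⟩⟩,⟨false,0,⟨0,[]⟩,⟨0,[]⟩⟩,[.e ⟨false,1,⟨0,[(4,0),(3,0),(0,0)]⟩,⟨5,[(13,1),
  (0,0),(0,1),(4,1),(10,0),(0,0)]⟩⟩ ⟨false,0,⟨0,[(8,0),(9,0),(10,0)]⟩,⟨0,[(5,0),(8,0)]⟩⟩,.o ⟨false,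
  0,⟨0,[(46,0)]⟩,⟨8,[(4,0),(0,1),(11,2),(2,1),(22,2)]⟩⟩,.a ⟨true,0,⟨0,[(32,0)]⟩,⟨0,[(29,0)]⟩⟩ ⟨true,
  1,⟨1,[(4,0),(17,0),(7,0),(15,1)]⟩,⟨0,[(13,0)]⟩⟩ ⟨false,0,⟨0,[(29,0),(16,0)]⟩,⟨0,[(5,0),(8,0)]⟩⟩,
  .o ⟨false,0,⟨0,[(0,0)]⟩,⟨0,[(18,0),(28,0)]⟩⟩]⟩) (.R ⟨0,false,false,false,[0,-1,1],[1,-1,-1],[1,0,
  -1,-1,0,0,0,-1],(⟨0,[(24,0)]⟩,⟨22,[(25,2),(0,2),(7,22),(1,4),(4,5),(0,2)]⟩),(⟨0,[(23,0)]⟩,⟨22,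
  [(25,2),(0,2),(8,22),(0,4),(4,5),(0,2)]⟩),⟨2,[(3,0),(19,1),(12,0),(4,2)]⟩,.k,.k,(.r (-1) ⟨13,[(0,
  7),(3,6),(4,1),(12,0),(7,6),(12,1),(2,27)]⟩ ⟨11,[(1,0),(8,0),(2,6),(0,2),(5,7),(10,2),(0,1)]⟩),.k,
  .k,.k,⟨true,0,⟨0,[]⟩,⟨1,[(32,0),(0,0)]⟩⟩,⟨false,0,⟨6,[(0,3),(8,0),(12,3),(20,0)]⟩,⟨4,[(1,1),(2,0),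
  (3,1),(2,1),(2,2),(17,0),(10,0)]⟩⟩,⟨false,0,⟨0,[(6,0),(7,0)]⟩,⟨5,[(4,2),(2,1),(1,3),(11,1),(0,0),
  (7,2),(15,3)]⟩⟩,⟨true,(-1),⟨0,[(6,0),(2,0),(5,0)]⟩,⟨0,[(7,0),(38,0)]⟩⟩,⟨false,0,⟨0,[]⟩,⟨0,[]⟩⟩,
  ⟨false,0,⟨0,[]⟩,⟨0,[]⟩⟩,[.o ⟨false,0,⟨6,[(6,2),(2,1),(4,0),(16,2),(11,0),(2,6),(1,0)]⟩,⟨0,[(5,
  0)]⟩⟩,.a ⟨true,0,⟨5,[(0,1),(13,3),(0,1),(6,1),(19,0),(3,5),(1,0)]⟩,⟨0,[(0,0),(0,0)]⟩⟩ ⟨false,1,⟨1,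
  [(6,1),(39,1),(0,0),(0,0)]⟩,⟨0,[(19,0)]⟩⟩ ⟨true,0,⟨13,[(0,3),(5,13),(2,7),(12,3),(20,0),(2,13),(1,
  6)]⟩,⟨0,[(1,0)]⟩⟩,.a ⟨true,0,⟨0,[(32,0)]⟩,⟨0,[(29,0)]⟩⟩ ⟨true,0,⟨0,[(6,0),(39,0)]⟩,⟨0,[(19,0)]⟩⟩
  ⟨false,0,⟨13,[(0,3),(5,13),(2,7),(12,3),(20,0),(2,13),(1,6)]⟩,⟨4,[(1,2),(2,1),(15,0),(11,1)]⟩⟩,.a
  ⟨true,0,⟨1,[(32,2),(0,0)]⟩,⟨0,[(0,0)]⟩⟩ ⟨false,1,⟨1,[(6,1),(39,1),(0,0),(0,0)]⟩,⟨1,[(1,0),(7,0),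
  (11,0)]⟩⟩ ⟨true,0,⟨6,[(0,3),(5,6),(2,0),(12,3),(20,0),(2,6)]⟩,⟨0,[(1,0)]⟩⟩]⟩)))))

theorem ok22 : chk K t22 r17 = true := by decide +kernel

noncomputable def t24 : Tre :=
  (.R ⟨1,false,false,true,[1,0,-1],[0,1,1],[1,1],(⟨0,[(29,0)]⟩,⟨0,[(30,0)]⟩),(⟨22,[(20,2),(0,2),(8,
  22),(0,4),(4,5),(0,2)]⟩,⟨0,[(18,0)]⟩),⟨0,[(18,0)]⟩,.k,.k,.k,(.r 0 ⟨3,[(0,1),(0,1),(1,1),(6,3),(27,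
  0),(4,0)]⟩ ⟨2,[(2,1),(1,0),(11,1),(0,0),(23,0)]⟩),(.r 0 ⟨1,[(0,1),(0,1),(1,1),(34,0),(4,0)]⟩ ⟨0,
  [(14,0),(1,0)]⟩),.k,⟨true,0,⟨3,[(0,1),(0,1),(1,1),(34,0),(4,0)]⟩,⟨5,[(2,3),(1,1),(0,3),(2,1),(29,
  0),(4,2)]⟩⟩,⟨false,2,⟨5,[(6,7),(13,0),(0,0),(5,3),(10,2)]⟩,⟨0,[(4,0)]⟩⟩,⟨true,0,⟨0,[(13,0),(11,
  0)]⟩,⟨0,[(10,0)]⟩⟩,⟨true,1,⟨0,[(2,0)]⟩,⟨5,[(0,7),(10,1),(14,1),(11,0),(4,0)]⟩⟩,⟨true,0,⟨0,[(7,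
  0)]⟩,⟨0,[(10,0),(30,0)]⟩⟩,⟨false,2,⟨3,[(2,3),(12,1),(26,0),(0,0)]⟩,⟨1,[(0,3),(37,0),(4,0)]⟩⟩,[.o
  ⟨false,1,⟨4,[(2,2),(12,0),(10,0),(8,0),(2,0)]⟩,⟨1,[(0,1),(37,0),(4,0)]⟩⟩,.a ⟨true,1,⟨2,[(6,0),(8,
  0),(0,0),(8,1)]⟩,⟨0,[(0,0)]⟩⟩ ⟨true,0,⟨0,[]⟩,⟨1,[(27,0),(0,0)]⟩⟩ ⟨false,2,⟨7,[(2,3),(3,5),(8,1),
  (4,0),(0,0),(5,1),(10,1),(4,0)]⟩,⟨0,[(0,0),(12,0)]⟩⟩,.o ⟨false,0,⟨0,[(13,0)]⟩,⟨5,[(6,1),(13,0),(0,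
  0),(5,3),(10,2)]⟩⟩,.o ⟨false,0,⟨0,[(28,0)]⟩,⟨2,[(1,1),(0,0),(0,0),(34,0),(4,0)]⟩⟩]⟩)

theorem ok24 : chk K t24 r16 = true := by decide +kernel

noncomputable def t30 : Tre :=
  (.R ⟨0,false,false,false,[1,-1,-1],[0,-1,1],[1,1],(⟨0,[(15,0)]⟩,⟨4,[(0,1),(16,0),(0,0),(8,2),(0,
  0),(5,0)]⟩),(⟨0,[(16,0)]⟩,⟨22,[(17,2),(0,2),(7,22),(1,4),(4,5),(0,2)]⟩),⟨0,[(0,0)]⟩,.k,.k,(.r 0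
  ⟨0,[(1,0)]⟩ ⟨2,[(11,1),(0,0),(0,1),(9,0),(0,0)]⟩),.k,.k,.k,⟨true,(-1),⟨0,[(5,0)]⟩,⟨0,[(10,0),(11,
  0),(15,0),(1,0)]⟩⟩,⟨false,1,⟨0,[(2,0),(21,0)]⟩,⟨0,[(14,0)]⟩⟩,⟨true,0,⟨0,[(11,0)]⟩,⟨1,[(1,0),(5,
  0)]⟩⟩,⟨false,2,⟨1,[(22,3),(12,0),(4,2)]⟩,⟨7,[(1,3),(3,5),(0,3),(1,1),(1,11),(10,1),(12,2),(5,
  0)]⟩⟩,⟨false,0,⟨0,[]⟩,⟨0,[]⟩⟩,⟨false,0,⟨0,[]⟩,⟨0,[]⟩⟩,[.o ⟨false,1,⟨1,[(22,1),(12,0),(2,1),(1,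
  0)]⟩,⟨0,[(8,0)]⟩⟩,.a ⟨true,1,⟨0,[(22,0),(15,0),(1,0)]⟩,⟨0,[(5,0),(15,0)]⟩⟩ ⟨true,0,⟨0,[]⟩,⟨1,[(24,
  0),(0,0)]⟩⟩ ⟨false,2,⟨3,[(1,1),(0,1),(19,5),(12,0),(4,4)]⟩,⟨0,[(5,0),(8,0)]⟩⟩,.o ⟨false,0,⟨0,[(25,
  0)]⟩,⟨2,[(2,0),(0,0),(20,0),(10,0)]⟩⟩,.o ⟨false,0,⟨1,[(24,0),(0,2)]⟩,⟨0,[(2,0)]⟩⟩]⟩)

theorem ok30 : chk K t30 l24 = true := by decide +kernel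

noncomputable def t31 : Tre :=
  (.Q [0,0,0,1,1,0,1,1,0,-1,1] (.p true [0,0,1] [1] (⟨0,[(29,0)]⟩,⟨0,[(28,0)]⟩) .k 1 (⟨0,[]⟩,⟨0,
  []⟩) .k .k) (.R ⟨1,false,false,true,[1,-1],[0,0,1],[0,0,1],(⟨0,[(33,0)]⟩,⟨0,[(34,0)]⟩),(⟨0,[(30,
  0)]⟩,⟨0,[(29,0)]⟩),⟨1,[(3,0),(15,0),(13,0)]⟩,.k,.k,(.r (-1) ⟨2,[(2,1),(35,0),(3,2),(0,0)]⟩ ⟨0,[(8,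
  0),(7,0)]⟩),.k,(.r 0 ⟨0,[(4,0)]⟩ ⟨2,[(14,1),(0,0),(0,1),(9,0),(0,0)]⟩),.k,⟨true,0,⟨0,[(9,0)]⟩,⟨2,
  [(0,0),(1,0),(4,1),(5,0)]⟩⟩,⟨false,1,⟨0,[(5,0)]⟩,⟨26,[(2,11),(5,1),(5,1),(0,15),(1,10),(10,4),(8,
  1),(6,1)]⟩⟩,⟨true,0,⟨1,[(8,0),(7,0),(10,0),(0,0)]⟩,⟨0,[(4,0),(2,0)]⟩⟩,⟨false,1,⟨0,[(0,0)]⟩,⟨7,[(1,
  6),(4,0),(8,2),(8,0),(1,0),(16,2)]⟩⟩,⟨true,0,⟨0,[(8,0),(7,0)]⟩,⟨1,[(2,0),(1,0),(0,0),(1,0),(5,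
  0)]⟩⟩,⟨true,1,⟨0,[(0,0),(39,0)]⟩,⟨0,[(1,0)]⟩⟩,[.a ⟨true,0,⟨0,[(25,0)]⟩,⟨4,[(1,1),(8,0),(0,1),(3,
  0),(8,0),(12,0),(5,1)]⟩⟩ ⟨true,0,⟨1,[(27,0),(0,0)]⟩,⟨0,[]⟩⟩ ⟨false,1,⟨2,[(0,0),(1,0),(2,2),(1,1),
  (5,0)]⟩,⟨0,[(1,0),(13,0)]⟩⟩,.o ⟨false,1,⟨5,[(0,5),(1,1),(35,0),(4,0)]⟩,⟨7,[(1,1),(9,3),(14,1),(11,
  0),(4,0)]⟩⟩,.o ⟨false,0,⟨1,[(27,0),(0,0)]⟩,⟨1,[(38,0),(3,0)]⟩⟩,.o ⟨false,0,⟨0,[(27,0),(0,0)]⟩,⟨0,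
  [(5,0),(7,0)]⟩⟩]⟩) (.R ⟨1,false,false,false,[1,-1],[0,-1,1],[0,0,0,-1,0,0,0,1],(⟨0,[(33,0)]⟩,⟨0,
  [(34,0)]⟩),(⟨0,[(19,0)]⟩,⟨54,[(2,2),(3,2),(8,2),(0,2),(9,2),(2,54),(1,9),(4,14),(0,5)]⟩),⟨1,[(3,
  0),(15,0),(13,0)]⟩,.k,.k,(.r (-1) ⟨2,[(2,1),(35,0),(3,2),(0,0)]⟩ ⟨0,[(8,0),(7,0)]⟩),.k,.k,.k,
  ⟨true,0,⟨1,[(27,0),(0,0)]⟩,⟨0,[]⟩⟩,⟨false,1,⟨2,[(5,0),(0,0),(20,0),(10,0)]⟩,⟨220,[(2,23),(3,14),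
  (8,35),(1,117),(13,24),(1,24),(1,5),(1,26)]⟩⟩,⟨false,1,⟨5,[(2,1),(13,5),(21,0),(4,0)]⟩,⟨5,[(0,0),
  (3,0),(0,2),(2,0),(0,0),(1,1),(25,0)]⟩⟩,⟨true,1,⟨1,[(25,1),(12,0),(4,0)]⟩,⟨8,[(0,4),(7,2),(3,0),
  (4,0),(6,0),(10,1),(1,0),(2,0)]⟩⟩,⟨false,1,⟨0,[(16,0)]⟩,⟨1,[(4,0),(5,0)]⟩⟩,⟨false,2,⟨2,[(5,0),(0,
  0),(9,2),(10,0),(10,0)]⟩,⟨0,[(0,0)]⟩⟩,[.o ⟨false,1,⟨2,[(2,0),(22,2),(12,1),(4,1)]⟩,⟨0,[(11,0)]⟩⟩,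
  .a ⟨true,1,⟨5,[(2,1),(22,5),(12,0),(4,6)]⟩,⟨0,[(8,0),(15,0)]⟩⟩ ⟨true,1,⟨2,[(2,1),(4,2),(30,0),(4,
  3)]⟩,⟨0,[(8,0)]⟩⟩ ⟨false,2,⟨2,[(2,1),(2,2),(1,2),(30,0),(4,3)]⟩,⟨34,[(0,4),(7,27),(6,5),(1,13),(8,
  1),(10,7),(6,0),(0,10)]⟩⟩,.o ⟨false,0,⟨1,[(27,0),(0,0)]⟩,⟨1,[(38,0),(3,0)]⟩⟩,.o ⟨false,0,⟨0,[(27,
  0),(0,0)]⟩,⟨0,[(5,0),(7,0)]⟩⟩]⟩))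

theorem ok31 : chk K t31 l26 = true := by decide +kernel

noncomputable def t32 : Tre :=
  (.I [1,-1,-1,-1,1,0,0,1] (.N [0,-1,1,0,-1] (-1) ⟨0,[(0,0)]⟩ ⟨0,[(9,0)]⟩ (.x (-1) ⟨0,[(4,0),(5,0),
  (10,0),(2,0),(1,0),(10,0)]⟩ ⟨0,[(1,0)]⟩)) (.Q [0,-1,2,0,1,0,1,0,-1,0,1,-1] (.p true [0,0,1] [0,0,
  0,0,1] (⟨0,[(31,0)]⟩,⟨0,[(30,0)]⟩) .k 2 (⟨0,[(24,0)]⟩,⟨0,[(23,0)]⟩) .k (.r (-1) ⟨5,[(3,1),(4,5),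
  (30,0),(4,6)]⟩ ⟨2,[(11,1),(15,0),(0,0),(7,0)]⟩)) (.Q [0,1,-1,0,-1,0,-1,0,1,0,-1,1] (.p false [0,0,
  1] [0,0,0,0,1] (⟨0,[(32,0)]⟩,⟨0,[(31,0)]⟩) .k 2 (⟨0,[(25,0)]⟩,⟨0,[(24,0)]⟩) .k (.r (-1) ⟨5,[(4,1),
  (4,5),(30,0),(4,6)]⟩ ⟨2,[(12,1),(15,0),(0,0),(7,0)]⟩)) (.Q [0,-1,0,0,1,0,0,0,-1,1,0,-1] (.p false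
  [0,0,0,0,1] [1] (⟨0,[(26,0)]⟩,⟨0,[(25,0)]⟩) .k 1 (⟨0,[]⟩,⟨0,[]⟩) .k .k) (.Q [0,0,-2,0,0,0,-1,0,0,
  1,-1] (.p false [0,0,1] [1] (⟨0,[(34,0)]⟩,⟨0,[(33,0)]⟩) .k 1 (⟨0,[]⟩,⟨0,[]⟩) .k .k) (.R ⟨0,false,
  false,false,[0,-1,1],[0,0,0,0,1],[1,1],(⟨0,[(24,0)]⟩,⟨204,[(1,14),(5,5),(12,8),(5,14),(7,204),(1,
  33),(3,8),(0,56),(0,17)]⟩),(⟨0,[(28,0)]⟩,⟨0,[(27,0)]⟩),⟨2,[(8,0),(14,1),(12,0),(4,2)]⟩,.k,.k,(.r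
  (-1) ⟨5,[(0,5),(6,3),(22,5),(12,4),(4,4)]⟩ ⟨9,[(3,1),(9,7),(0,0),(5,5),(5,1),(4,0),(1,0)]⟩),(.r
  (-2) ⟨2,[(7,1),(13,2),(21,0),(3,2),(0,0)]⟩ ⟨0,[(4,0)]⟩),.k,.k,⟨true,0,⟨0,[]⟩,⟨1,[(32,0),(0,0)]⟩⟩,
  ⟨false,0,⟨5,[(0,2),(1,3),(7,0),(15,1),(16,0),(4,1)]⟩,⟨17,[(3,12),(5,0),(1,1),(1,1),(11,4),(4,2),
  (9,3)]⟩⟩,⟨true,(-1),⟨0,[(13,0)]⟩,⟨9,[(0,4),(6,5),(2,2),(10,7),(8,1),(12,3),(3,0)]⟩⟩,⟨false,(-1),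
  ⟨0,[(2,0),(10,0),(34,0)]⟩,⟨5,[(7,1),(17,5),(4,5),(12,0),(4,6)]⟩⟩,⟨false,0,⟨0,[]⟩,⟨0,[]⟩⟩,⟨false,0,
  ⟨0,[]⟩,⟨0,[]⟩⟩,[.a ⟨true,(-1),⟨0,[(2,0),(29,0)]⟩,⟨0,[(1,0)]⟩⟩ ⟨false,0,⟨3,[(9,0),(2,0),(27,0),(3,
  0)]⟩,⟨1,[(25,0),(0,0),(21,0)]⟩⟩ ⟨true,(-1),⟨0,[(2,0)]⟩,⟨0,[(3,0)]⟩⟩,.o ⟨false,0,⟨1,[(2,1),(29,1),
  (10,0),(4,0)]⟩,⟨0,[(25,0)]⟩⟩,.a ⟨true,0,⟨0,[(32,0)]⟩,⟨0,[(29,0)]⟩⟩ ⟨false,0,⟨0,[]⟩,⟨1,[(25,0),(0,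
  0),(21,0)]⟩⟩ ⟨true,(-1),⟨0,[(2,0)]⟩,⟨17,[(3,12),(5,0),(1,1),(1,1),(11,4),(4,2),(9,3)]⟩⟩,.a ⟨true,
  0,⟨1,[(32,2),(0,0)]⟩,⟨0,[(0,0)]⟩⟩ ⟨true,0,⟨3,[(9,0),(2,0),(27,0),(3,0)]⟩,⟨1,[(32,0),(0,0)]⟩⟩
  ⟨false,0,⟨5,[(0,2),(1,3),(7,0),(15,1),(16,0),(4,1)]⟩,⟨0,[(3,0)]⟩⟩]⟩) (.I [0,0,0,0,1,0,0,0,-1] (.I
  [0,0,0,0,0,-1,-1] (.I [0,1,1,0,-1,0,0,0,1] (.I [1,1,0,0,0,1,1,1] (.I [0,-1,2,0,1,0,0,0,-1] (.I [0,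
  0,2,0,0,-2,1] (.I [1,-1,0,0,1,3,0,0,-1] (.I [0,1,-1,2,0,0,0,1,1] (.I [5,0,0,0,-1,6] (.C [(0,0),(2,
  0),(3,1),(7,0),(1,0),(0,0)]) (.C [(0,0),(49,1),(0,0)])) (.C [(0,0),(9,0),(3,0),(20,0)])) (.C [(0,
  0),(7,0),(26,0),(12,0)])) (.C [(0,0),(5,0),(7,0)])) (.C [(0,0),(4,0),(0,0),(16,0),(9,0)])) (.C
  [(0,0),(11,0),(21,0),(10,0)])) (.C [(0,0),(2,0),(1,0),(24,0)])) (.C [(0,0),(19,0),(5,0)])) (.C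
  [(0,0),(25,0),(2,0)]))) (.I [0,0,0,0,1,0,0,0,-1] (.I [0,0,0,0,0,-1,-1] (.I [0,1,0,0,-1,0,0,0,1]
  (.I [1,1,0,0,0,1,1,1] (.I [0,0,2,0,0,-2,1] (.I [5,0,0,0,-1,6] (.C [(0,0),(0,0),(2,1),(6,0),(1,0),
  (0,0)]) (.C [(0,0),(45,1),(0,0)])) (.C [(0,0),(4,0),(1,0),(4,0)])) (.C [(0,0),(10,0),(21,0),(10,
  0)])) (.C [(0,0),(2,0),(25,0)])) (.C [(0,0),(18,0),(5,0)])) (.C [(0,0),(24,0),(2,0)]))) (.Q [0,0,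
  0,1,-1,0,-1,-1,1,0,-1,1] (.p false [0,0,1] [0,0,0,0,1] (⟨0,[(33,0)]⟩,⟨0,[(32,0)]⟩) .k 2 (⟨0,[(26,
  0)]⟩,⟨0,[(25,0)]⟩) .k (.r (-1) ⟨5,[(5,1),(4,5),(30,0),(4,6)]⟩ ⟨2,[(13,1),(15,0),(0,0),(7,0)]⟩))
  (.Q [0,0,-2,0,0,0,-1,0,0,1,-1] (.p false [0,0,1] [1] (⟨0,[(34,0)]⟩,⟨0,[(33,0)]⟩) .k 1 (⟨0,[]⟩,⟨0,
  []⟩) .k .k) (.R ⟨0,false,false,false,[0,-1,1],[0,0,0,0,1],[1,1],(⟨0,[(24,0)]⟩,⟨0,[(8,0),(27,2)]⟩),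
  (⟨0,[(28,0)]⟩,⟨0,[(27,0)]⟩),⟨2,[(8,0),(14,1),(12,0),(4,2)]⟩,.k,.k,(.r (-1) ⟨5,[(0,5),(6,3),(22,5),
  (12,4),(4,4)]⟩ ⟨9,[(3,1),(9,7),(0,0),(5,5),(5,1),(4,0),(1,0)]⟩),(.r (-2) ⟨2,[(7,1),(13,2),(21,0),
  (3,2),(0,0)]⟩ ⟨0,[(4,0)]⟩),.k,.k,⟨true,0,⟨0,[]⟩,⟨1,[(32,0),(0,0)]⟩⟩,⟨false,0,⟨2,[(0,2),(0,2),(5,
  0),(22,2),(12,1),(4,1)]⟩,⟨1,[(2,0),(0,0),(36,0)]⟩⟩,⟨true,(-1),⟨0,[(13,0)]⟩,⟨9,[(0,4),(6,5),(2,2),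
  (10,7),(8,1),(12,3),(3,0)]⟩⟩,⟨false,(-1),⟨0,[(1,0)]⟩,⟨5,[(7,1),(17,5),(4,5),(12,0),(4,6)]⟩⟩,
  ⟨false,0,⟨0,[]⟩,⟨0,[]⟩⟩,⟨false,0,⟨0,[]⟩,⟨0,[]⟩⟩,[.e ⟨false,0,⟨3,[(9,0),(2,0),(27,0),(3,0)]⟩,⟨1,
  [(25,0),(0,0),(21,0)]⟩⟩ ⟨false,0,⟨24,[(0,21),(0,8),(5,3),(4,2),(13,15),(3,5),(9,5),(2,12)]⟩,⟨0,
  [(2,0)]⟩⟩,.o ⟨false,0,⟨2,[(1,2),(5,0),(22,2),(12,1),(4,1)]⟩,⟨0,[(25,0)]⟩⟩,.e ⟨false,0,⟨0,[]⟩,⟨1,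
  [(25,0),(0,0),(21,0)]⟩⟩ ⟨false,0,⟨11,[(0,5),(0,5),(5,3),(4,5),(13,5),(16,4),(4,4)]⟩,⟨0,[(2,0)]⟩⟩,
  .a ⟨true,0,⟨1,[(32,2),(0,0)]⟩,⟨0,[(0,0)]⟩⟩ ⟨true,0,⟨3,[(9,0),(2,0),(27,0),(3,0)]⟩,⟨1,[(32,0),(0,
  0)]⟩⟩ ⟨false,0,⟨2,[(0,2),(0,2),(5,0),(22,2),(12,1),(4,1)]⟩,⟨0,[(3,0)]⟩⟩]⟩) (.I [0,0,0,0,0,-1,-1]
  (.I [0,0,0,3,0,0,0,0,1] (.I [0,-1,1,0,1,0,0,0,-1] (.I [1,1,0,0,0,1,1,1] (.I [0,0,2,0,0,-2,1] (.I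
  [0,0,0,2,1,-2,1,1] (.C [(0,0),(0,0),(3,1),(9,0),(31,1),(0,0)]) (.C [(0,0),(11,0),(1,0)])) (.C [(0,
  0),(4,0),(7,0)])) (.C [(0,0),(11,0),(21,0),(10,0)])) (.C [(0,0),(4,0),(15,0),(9,0)])) (.C [(0,0),
  (2,0),(4,0),(20,0)])) (.C [(0,0),(18,0),(5,0)]))) (.Q [0,0,-1,0,0,0,-1,0,-1,1,-1,-1] (.p false [0,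
  0,1] [1,0,0,0,-1] (⟨0,[(34,0)]⟩,⟨0,[(33,0)]⟩) .k 2 (⟨0,[(26,0)]⟩,⟨0,[(27,0)]⟩) .k (.r 0 ⟨5,[(6,1),
  (4,5),(30,0),(4,0)]⟩ ⟨4,[(2,0),(7,0),(3,2),(10,0),(4,1),(16,2)]⟩)) (.Q [0,-1,-1,1,1,0,0,0,-1,0,0,
  -1] (.p false [0,0,0,0,1] [] (⟨0,[(28,0)]⟩,⟨0,[(27,0)]⟩) .k 0 (⟨0,[]⟩,⟨0,[]⟩) .k .k) (.Q [0,0,0,0,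
  0,0,0,0,0,1,-1,-1] (.ed true [0,0,1,0,1] (.r 0 ⟨5,[(8,1),(4,5),(30,0),(4,0)]⟩ ⟨4,[(4,0),(7,0),(3,
  2),(10,0),(4,1),(16,2)]⟩)) (.Q [0,0,0,0,0,0,1,0,1,0,1,1] (.p true [0,0,1,0,1] [] (⟨0,[(30,0),(6,
  0)]⟩,⟨0,[(0,0)]⟩) .k 0 (⟨0,[]⟩,⟨0,[]⟩) .k (.r 0 ⟨5,[(9,1),(4,5),(30,0),(4,0)]⟩ ⟨4,[(5,0),(7,0),(3,
  2),(10,0),(4,1),(16,2)]⟩)) (.R ⟨1,false,false,false,[0,0,1,0,1],[0,0,0,0,1],[1,1,0,0,0,0,0,1],(⟨0,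
  [(31,0),(6,0)]⟩,⟨0,[(1,0)]⟩),(⟨0,[(31,0)]⟩,⟨0,[(30,0)]⟩),⟨0,[(27,0),(3,0)]⟩,.k,.k,(.r (-1) ⟨19,
  [(4,7),(5,3),(14,9),(3,7),(3,11),(9,1),(2,6),(3,8)]⟩ ⟨0,[(16,0),(34,0)]⟩),.k,.k,.k,⟨false,1,⟨2,
  [(10,0),(2,1),(1,0),(5,0),(2,1),(7,0)]⟩,⟨0,[(18,0)]⟩⟩,⟨true,0,⟨0,[(21,0)]⟩,⟨0,[(35,0)]⟩⟩,⟨true,0,
  ⟨0,[]⟩,⟨29,[(0,1),(5,1),(3,1),(5,0),(5,4),(11,3),(8,9),(2,0)]⟩⟩,⟨true,0,⟨7,[(12,1),(4,0),(1,3),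
  (14,0),(1,2)]⟩,⟨0,[(33,0)]⟩⟩,⟨false,1,⟨3,[(23,1),(26,0),(0,0)]⟩,⟨0,[(49,0)]⟩⟩,⟨true,0,⟨0,[(19,
  0)]⟩,⟨5,[(10,1),(22,5),(12,0),(4,0)]⟩⟩,[.o ⟨false,0,⟨6,[(8,2),(1,0),(0,2),(4,2),(12,3),(1,2),(1,
  2),(10,2),(1,3)]⟩,⟨3,[(3,1),(1,1),(40,0),(4,0)]⟩⟩,.a ⟨true,0,⟨0,[(29,0)]⟩,⟨21,[(3,13),(1,7),(1,5),
  (2,1),(22,5),(11,2),(5,2)]⟩⟩ ⟨false,1,⟨2,[(10,0),(2,1),(1,0),(5,0),(2,1),(7,0)]⟩,⟨0,[(18,0)]⟩⟩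
  ⟨true,0,⟨0,[(21,0)]⟩,⟨0,[(35,0)]⟩⟩,.a ⟨true,0,⟨0,[(0,0)]⟩,⟨94,[(3,78),(2,15),(0,5),(2,3),(11,5),
  (13,31),(8,5),(6,2)]⟩⟩ ⟨true,0,⟨5,[(10,1),(4,5),(30,0),(4,0)]⟩,⟨0,[(18,0)]⟩⟩ ⟨false,0,⟨0,[(21,
  0)]⟩,⟨2,[(0,0),(5,0),(7,0),(36,0)]⟩⟩,.a ⟨true,0,⟨0,[(29,0),(5,0)]⟩,⟨0,[(3,0)]⟩⟩ ⟨false,1,⟨2,[(10,
  0),(2,1),(1,0),(5,0),(2,1),(7,0)]⟩,⟨0,[(17,0)]⟩⟩ ⟨true,0,⟨3,[(12,0),(2,0),(5,3),(21,0),(3,0)]⟩,⟨0,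
  [(35,0)]⟩⟩]⟩) (.R ⟨0,false,false,false,[0,-1,1],[0,0,0,0,1],[1],(⟨0,[(27,0)]⟩,⟨1,[(0,5),(6,9),(0,
  5),(0,11),(1,7),(0,1),(18,5),(12,7),(0,6),(3,29),(1,4)]⟩),(⟨0,[(31,0)]⟩,⟨0,[(30,0)]⟩),⟨2,[(11,0),
  (14,1),(12,0),(4,2)]⟩,.k,.k,(.r (-1) ⟨0,[(10,0),(2,0),(1,0),(5,0),(29,0)]⟩ ⟨9,[(6,1),(9,7),(0,0),
  (5,5),(5,1),(4,0),(1,0)]⟩),(.r (-2) ⟨2,[(10,1),(13,2),(21,0),(3,2),(0,0)]⟩ ⟨0,[(7,0)]⟩),.k,.k,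
  ⟨false,1,⟨1,[(50,0),(0,0)]⟩,⟨38,[(6,0),(3,1),(11,5),(6,0),(4,5),(0,4),(7,12),(2,0)]⟩⟩,⟨true,0,⟨0,
  [(8,0),(2,0),(19,0),(12,0)]⟩,⟨0,[(0,0),(34,1)]⟩⟩,⟨false,0,⟨0,[(16,0),(34,0)]⟩,⟨5,[(10,3),(2,4),(1,
  0),(5,3),(2,4),(7,0)]⟩⟩,⟨true,(-1),⟨0,[(8,0),(2,0),(4,0),(14,0),(12,0)]⟩,⟨0,[(4,0)]⟩⟩,⟨false,0,⟨0,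
  []⟩,⟨0,[]⟩⟩,⟨false,0,⟨0,[]⟩,⟨0,[]⟩⟩,[.o ⟨false,0,⟨6,[(8,2),(1,0),(0,2),(4,2),(12,3),(1,2),(1,2),
  (10,2),(1,3)]⟩,⟨24,[(0,6),(1,5),(1,1),(1,4),(5,1),(15,4),(22,6)]⟩⟩,.a ⟨true,0,⟨0,[(29,0)]⟩,⟨150,
  [(0,5),(1,5),(0,79),(1,58),(1,26),(2,10),(0,5),(15,5),(5,26),(5,17),(5,26)]⟩⟩ ⟨false,1,⟨1,[(50,0),
  (0,0)]⟩,⟨38,[(6,0),(3,1),(11,5),(6,0),(4,5),(0,4),(7,12),(2,0)]⟩⟩ ⟨true,0,⟨0,[(8,0),(2,0),(19,0),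
  (12,0)]⟩,⟨0,[(0,0),(34,1)]⟩⟩,.a ⟨true,0,⟨0,[(35,0)]⟩,⟨0,[(32,0)]⟩⟩ ⟨true,0,⟨0,[]⟩,⟨38,[(6,0),(3,
  1),(11,5),(6,0),(4,5),(0,4),(7,12),(2,0)]⟩⟩ ⟨false,0,⟨0,[(8,0),(2,0),(19,0),(12,0)]⟩,⟨0,[(5,0)]⟩⟩,
  .a ⟨true,0,⟨1,[(35,2),(0,0)]⟩,⟨23,[(0,5),(2,10),(4,16),(2,16),(1,9),(17,16),(7,8),(4,13),(0,9)]⟩⟩
  ⟨false,1,⟨1,[(50,0),(0,0)]⟩,⟨1,[(35,0),(0,0)]⟩⟩ ⟨true,0,⟨1,[(8,0),(2,0),(0,0),(2,0),(5,0),(7,0),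
  (1,0),(12,0),(2,0)]⟩,⟨0,[(0,0),(34,1)]⟩⟩]⟩)) (.R ⟨0,false,false,false,[-1,0,1,0,1],[0,0,0,0,1],[0,
  2,0,0,0,0,0,1],(⟨0,[(0,0)]⟩,⟨0,[(29,0),(6,0)]⟩),(⟨0,[(30,0)]⟩,⟨0,[(29,0)]⟩),⟨5,[(2,0),(3,1),(0,0),
  (2,6),(18,4),(2,1),(10,6),(4,1),(1,1)]⟩,.k,.k,(.r (-1) ⟨19,[(3,7),(5,3),(14,9),(3,7),(3,11),(9,1),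
  (2,6),(3,8)]⟩ ⟨0,[(15,0),(34,0)]⟩),.k,.k,.k,⟨true,0,⟨5,[(9,1),(4,5),(30,0),(4,0)]⟩,⟨0,[(16,0)]⟩⟩,
  ⟨false,0,⟨0,[(31,0)]⟩,⟨12,[(5,3),(6,4),(15,3),(5,3),(7,1),(2,3)]⟩⟩,⟨true,0,⟨38,[(5,0),(3,1),(11,
  5),(6,0),(4,5),(0,4),(7,12),(2,0)]⟩,⟨0,[]⟩⟩,⟨false,0,⟨5,[(11,0),(4,1),(0,0),(0,1),(5,1),(19,1),(5,
  1)]⟩,⟨1,[(32,1),(12,0),(4,0)]⟩⟩,⟨false,0,⟨0,[]⟩,⟨0,[]⟩⟩,⟨false,0,⟨0,[]⟩,⟨0,[]⟩⟩,[.o ⟨false,0,⟨18,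
  [(0,2),(6,2),(1,2),(0,5),(0,1),(2,5),(0,6),(12,15),(3,2),(10,4),(1,9)]⟩,⟨3,[(2,1),(1,1),(40,0),(4,
  0)]⟩⟩,.a ⟨true,0,⟨0,[(28,0)]⟩,⟨21,[(2,13),(1,7),(1,5),(2,1),(22,5),(11,2),(5,2)]⟩⟩ ⟨true,0,⟨5,[(9,
  1),(4,5),(30,0),(4,0)]⟩,⟨0,[(16,0)]⟩⟩ ⟨false,0,⟨0,[(31,0)]⟩,⟨12,[(5,3),(6,4),(15,3),(5,3),(7,1),
  (2,3)]⟩⟩,.o ⟨false,1,⟨5,[(0,2),(6,2),(2,5),(1,1),(15,2),(5,6),(8,4),(1,3)]⟩,⟨94,[(2,78),(2,15),(0,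
  5),(2,3),(11,5),(13,31),(8,5),(6,2)]⟩⟩,.o ⟨false,1,⟨0,[(28,0),(5,0),(10,0)]⟩,⟨0,[(2,0)]⟩⟩]⟩)) (.Q
  [0,0,-2,0,0,0,-1,0,0,1,-1] (.p false [0,0,1] [1] (⟨0,[(36,0)]⟩,⟨0,[(35,0)]⟩) .k 1 (⟨0,[]⟩,⟨0,[]⟩)
  .k .k) (.R ⟨0,false,false,true,[0,-1,1],[1,0,0,0,-1],[1,1],(⟨0,[(26,0)]⟩,⟨0,[(10,0),(27,2)]⟩),(⟨0,
  [(29,0)]⟩,⟨0,[(30,0)]⟩),⟨2,[(10,0),(14,1),(12,0),(4,2)]⟩,.k,.k,(.r (-1) ⟨5,[(0,5),(8,3),(22,5),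
  (12,4),(4,4)]⟩ ⟨6,[(1,0),(3,0),(9,4),(0,0),(5,4),(10,0)]⟩),(.r (-1) ⟨19,[(3,7),(5,3),(14,9),(3,7),
  (3,11),(9,1),(2,6),(3,8)]⟩ ⟨0,[(15,0),(34,0)]⟩),.k,.k,⟨false,0,⟨3,[(11,0),(2,0),(27,0),(3,0)]⟩,⟨1,
  [(27,0),(0,0),(21,0)]⟩⟩,⟨true,0,⟨0,[(2,0)]⟩,⟨3,[(1,3),(6,1),(7,1),(17,1),(10,0),(4,0)]⟩⟩,⟨true,
  (-1),⟨0,[(15,0)]⟩,⟨11,[(0,6),(2,1),(5,5),(2,2),(10,7),(4,1),(3,1),(12,4)]⟩⟩,⟨false,0,⟨0,[(2,0),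
  (12,0),(34,0)]⟩,⟨2,[(9,0),(18,2),(3,2),(12,1),(4,1)]⟩⟩,⟨false,0,⟨0,[]⟩,⟨0,[]⟩⟩,⟨false,0,⟨0,[]⟩,⟨0,
  []⟩⟩,[.a ⟨true,0,⟨21,[(2,13),(1,7),(1,5),(2,1),(22,5),(11,2),(5,2)]⟩,⟨0,[(28,0)]⟩⟩ ⟨false,0,⟨3,
  [(11,0),(2,0),(27,0),(3,0)]⟩,⟨1,[(27,0),(0,0),(21,0)]⟩⟩ ⟨true,0,⟨0,[(2,0)]⟩,⟨3,[(1,3),(6,1),(7,1),
  (17,1),(10,0),(4,0)]⟩⟩,.o ⟨false,1,⟨3,[(2,1),(1,1),(40,0),(4,0)]⟩,⟨1,[(1,0),(26,0),(16,0),(0,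
  0)]⟩⟩,.a ⟨true,0,⟨0,[(34,0)]⟩,⟨0,[(31,0)]⟩⟩ ⟨false,0,⟨0,[]⟩,⟨1,[(27,0),(0,0),(21,0)]⟩⟩ ⟨true,0,⟨0,
  [(2,0)]⟩,⟨31,[(1,14),(6,4),(3,2),(2,4),(12,16),(5,23),(7,5),(2,11)]⟩⟩,.a ⟨true,0,⟨5,[(1,1),(3,1),
  (9,0),(7,0),(10,3)]⟩,⟨0,[(0,0)]⟩⟩ ⟨true,0,⟨3,[(11,0),(2,0),(27,0),(3,0)]⟩,⟨9,[(1,1),(3,1),(9,0),
  (7,0),(11,1)]⟩⟩ ⟨false,1,⟨1,[(2,1),(46,0),(0,0)]⟩,⟨3,[(1,3),(6,1),(7,1),(17,1),(10,0),(4,0)]⟩⟩]⟩)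
  (.I [0,0,1,0,0,0,0,0,-1] (.C [(0,1),(0,0),(6,1),(0,0),(1,1),(0,0),(31,1),(0,0)]) (.C [(0,0),(0,0),
  (1,0),(27,0)])))) (.Q [0,0,2,0,0,0,0,0,-2,1,0,-2] (.p false [0,0,0,0,1] [1,0,0,0,-1] (⟨0,[(28,
  0)]⟩,⟨0,[(27,0)]⟩) .k 2 (⟨0,[(27,0)]⟩,⟨0,[(28,0)]⟩) .k (.r 0 ⟨57,[(0,7),(2,7),(3,5),(5,0),(5,16),
  (11,15),(8,41),(1,0)]⟩ ⟨0,[(48,0)]⟩)) (.Q [0,0,0,0,0,1,0,0,0,0,0,-1] (.ed true [1,-1,0,0,1] .k)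
  (.Q [0,-1,0,0,0,0,-1,-1,-1,1,-1,-1] (.p false [0,0,1,0,1] [1] (⟨0,[(30,0),(6,0)]⟩,⟨0,[(0,0),(24,
  0)]⟩) .k 1 (⟨0,[]⟩,⟨0,[]⟩) .k (.r 0 ⟨5,[(9,1),(4,5),(30,0),(4,0)]⟩ ⟨4,[(5,0),(7,0),(3,2),(10,0),
  (4,1),(16,2)]⟩)) (.R ⟨0,false,false,false,[0,0,0,0,1],[1,0,-1],[],(⟨0,[(31,0)]⟩,⟨0,[(30,0)]⟩),(⟨0,
  [(37,0)]⟩,⟨0,[(38,0)]⟩),⟨0,[(1,0)]⟩,.k,.k,(.r 0 ⟨2,[(10,0),(2,0),(7,0),(21,0)]⟩ ⟨4,[(6,0),(16,1),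
  (0,0),(4,0),(4,0),(16,0)]⟩),.k,.k,.k,⟨false,1,⟨2,[(10,0),(2,1),(1,0),(5,0),(2,1),(7,0)]⟩,⟨0,[(18,
  0)]⟩⟩,⟨true,0,⟨5,[(0,4),(3,0),(5,0),(4,3),(5,1)]⟩,⟨0,[(3,0)]⟩⟩,⟨false,1,⟨0,[(51,0)]⟩,⟨115,[(3,7),
  (2,7),(3,5),(5,0),(5,16),(11,15),(8,41),(1,0)]⟩⟩,⟨true,0,⟨0,[(0,0)]⟩,⟨6,[(3,5),(6,1),(1,0),(0,0),
  (1,7),(13,0),(13,1),(2,0)]⟩⟩,⟨false,0,⟨0,[]⟩,⟨0,[]⟩⟩,⟨false,0,⟨0,[]⟩,⟨0,[]⟩⟩,[.o ⟨false,0,⟨7,[(12,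
  1),(4,0),(1,3),(14,0),(1,2)]⟩,⟨1,[(33,1),(12,0),(4,0)]⟩⟩,.a ⟨true,0,⟨5,[(12,0),(4,1),(0,0),(0,1),
  (5,1),(19,1),(5,1)]⟩,⟨0,[(33,0)]⟩⟩ ⟨false,1,⟨1,[(50,0),(0,0)]⟩,⟨115,[(3,7),(2,7),(3,5),(5,0),(5,
  16),(11,15),(8,41),(1,0)]⟩⟩ ⟨true,0,⟨0,[(0,0)]⟩,⟨5,[(3,5),(6,1),(4,5),(30,0),(4,0)]⟩⟩,.e ⟨false,1,
  ⟨1,[(28,0),(0,0),(21,0)]⟩,⟨0,[]⟩⟩ ⟨false,0,⟨0,[(0,0)]⟩,⟨1,[(29,1),(3,1),(12,0),(4,0)]⟩⟩,.o ⟨false,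
  0,⟨0,[(3,0),(17,0)]⟩,⟨2,[(2,0),(10,1),(7,0),(6,0),(3,0)]⟩⟩]⟩) (.R ⟨0,false,false,false,[0,1,0,0,
  -1],[0,0,1,0,-1],[0,-1,1],(⟨0,[(1,0)]⟩,⟨0,[(31,0),(9,0)]⟩),(⟨0,[(1,0),(25,0)]⟩,⟨0,[(31,0),(5,
  0)]⟩),⟨0,[(31,0)]⟩,(.r (-1) ⟨4,[(6,0),(16,1),(0,0),(4,0),(4,0),(16,0)]⟩ ⟨2,[(10,0),(2,0),(7,0),
  (21,0)]⟩),.k,.k,.k,.k,.k,⟨false,0,⟨0,[(18,0)]⟩,⟨2,[(0,0),(3,0),(8,0),(7,0),(2,0),(7,1)]⟩⟩,⟨true,0,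
  ⟨0,[(35,0)]⟩,⟨0,[(21,0)]⟩⟩,⟨true,0,⟨0,[(49,0)]⟩,⟨0,[(48,0)]⟩⟩,⟨false,1,⟨3,[(0,0),(3,0),(5,0),(22,
  1),(17,3)]⟩,⟨0,[(19,0)]⟩⟩,⟨false,0,⟨0,[]⟩,⟨0,[]⟩⟩,⟨false,0,⟨0,[]⟩,⟨0,[]⟩⟩,[.o ⟨false,2,⟨5,[(2,0),
  (1,3),(4,1),(3,0),(7,0),(24,1),(4,2)]⟩,⟨4,[(0,0),(2,0),(3,0),(0,0),(2,0),(0,1),(3,2),(4,5),(7,1),
  (1,0),(12,0),(0,0)]⟩⟩,.e ⟨false,1,⟨0,[(51,0)]⟩,⟨0,[(43,0)]⟩⟩ ⟨false,2,⟨11,[(3,1),(0,5),(9,3),(9,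
  5),(4,3),(15,0),(5,8)]⟩,⟨0,[(12,0),(2,0),(0,0),(4,0)]⟩⟩,.a ⟨true,1,⟨2,[(2,0),(10,1),(7,0),(6,0),
  (3,0)]⟩,⟨0,[(0,0),(6,0),(13,0),(23,0),(3,0),(1,0)]⟩⟩ ⟨false,1,⟨10,[(3,0),(2,0),(3,0),(6,2),(6,2),
  (11,1),(14,7)]⟩,⟨3,[(12,0),(2,0),(27,0),(3,0)]⟩⟩ ⟨true,1,⟨3,[(3,1),(0,1),(19,1),(20,0),(5,0)]⟩,⟨0,
  [(12,0),(2,0),(0,0),(4,0)]⟩⟩,.o ⟨false,1,⟨1,[(2,0),(10,0),(7,0),(24,0)]⟩,⟨0,[(29,0)]⟩⟩]⟩)) (.Q [0,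
  0,0,0,0,0,0,0,-1,1,0,-1] (.p false [0,0,0,0,1] [1] (⟨0,[(30,0)]⟩,⟨0,[(29,0)]⟩) .k 1 (⟨0,[]⟩,⟨0,
  []⟩) .k .k) (.S ⟨1,0,[0,0,1],[1,1,0,0,-1],[0,-1,1],(⟨1,[(0,1),(6,1),(0,1),(0,1),(1,1),(27,1),(4,
  1),(0,0),(3,5),(1,0)]⟩,⟨0,[(1,0)]⟩),⟨0,[(30,0)]⟩,(.r (-1) ⟨4,[(6,0),(16,1),(0,0),(4,0),(4,0),(16,
  0)]⟩ ⟨2,[(10,0),(2,0),(7,0),(21,0)]⟩),.k,⟨true,0,⟨0,[(49,0)]⟩,⟨0,[(48,0)]⟩⟩,⟨false,0,⟨0,[(49,0)]⟩,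
  ⟨3,[(23,1),(26,0),(0,0)]⟩⟩,⟨false,1,⟨1,[(28,0),(0,0),(21,0)]⟩,⟨0,[]⟩⟩,⟨true,0,⟨115,[(3,7),(2,7),
  (3,5),(5,0),(5,16),(11,15),(8,41),(1,0)]⟩,⟨0,[]⟩⟩,[.a ⟨true,0,⟨0,[(0,0)]⟩,⟨0,[(29,0)]⟩⟩ ⟨false,1,
  ⟨1,[(28,0),(0,0),(21,0)]⟩,⟨3,[(12,0),(2,0),(27,0),(3,0)]⟩⟩ ⟨true,0,⟨48,[(3,7),(2,7),(3,1),(5,2),
  (5,2),(13,15),(8,2),(6,2)]⟩,⟨0,[]⟩⟩,.o ⟨false,1,⟨1,[(2,0),(10,0),(7,0),(29,0)]⟩,⟨3,[(3,3),(8,0),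
  (2,0),(5,3),(21,0),(3,0)]⟩⟩,.o ⟨false,1,⟨2,[(2,0),(10,1),(7,0),(6,0),(3,0)]⟩,⟨0,[(3,0),(17,0)]⟩⟩,
  .e ⟨false,1,⟨0,[(51,0)]⟩,⟨115,[(3,7),(2,7),(3,5),(5,0),(5,16),(11,15),(8,41),(1,0)]⟩⟩ ⟨false,1,⟨1,
  [(28,0),(0,0),(21,0)]⟩,⟨0,[]⟩⟩]⟩) (.R ⟨2,true,false,true,[0,1],[1,0,0,0,-1],[1,1,1,1],(⟨0,[]⟩,⟨0,
  []⟩),(⟨0,[(30,0)]⟩,⟨0,[(31,0)]⟩),⟨0,[]⟩,.k,.k,.k,(.r 0 ⟨85,[(3,9),(2,9),(9,18),(5,38),(0,13),(10,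
  19),(8,15),(1,4)]⟩ ⟨5,[(10,1),(35,0),(3,2),(0,3)]⟩),.k,.k,⟨false,0,⟨0,[(48,0)]⟩,⟨5,[(10,1),(35,0),
  (3,2),(0,3)]⟩⟩,⟨true,0,⟨73,[(2,30),(3,11),(18,2),(6,5),(6,9),(1,9),(1,5),(1,11)]⟩,⟨0,[(0,0)]⟩⟩,
  ⟨false,0,⟨0,[]⟩,⟨1,[(28,0),(0,0),(21,0)]⟩⟩,⟨true,0,⟨8,[(2,3),(1,0),(5,0),(1,3),(2,2),(5,0),(23,1),
  (5,1)]⟩,⟨0,[(0,0),(47,0)]⟩⟩,⟨true,0,⟨0,[(48,0)]⟩,⟨0,[(49,0)]⟩⟩,⟨false,1,⟨7,[(2,1),(3,1),(7,1),(13,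
  1),(3,3),(12,0),(5,2)]⟩,⟨0,[(0,0)]⟩⟩,[]⟩))) (.Q [0,-1,-2,0,1,0,-1,0,-1,1,-1,-1] (.p false [0,0,1]
  [1,0,0,0,-1] (⟨0,[(36,0)]⟩,⟨0,[(35,0)]⟩) .k 2 (⟨0,[(28,0)]⟩,⟨0,[(29,0)]⟩) .k (.r 0 ⟨5,[(8,1),(4,
  5),(30,0),(4,0)]⟩ ⟨4,[(4,0),(7,0),(3,2),(10,0),(4,1),(16,2)]⟩)) (.Q [0,0,0,0,0,0,0,0,1,-1,0,1]
  (.p true [0,0,0,0,1] [1] (⟨0,[(30,0)]⟩,⟨0,[(29,0)]⟩) .k 1 (⟨0,[]⟩,⟨0,[]⟩) .k .k) (.R ⟨0,false,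
  false,true,[0,-1,1],[1,0,0,0,-1],[1],(⟨0,[(27,0)]⟩,⟨0,[(11,0),(27,2)]⟩),(⟨0,[(30,0)]⟩,⟨0,[(31,
  0)]⟩),⟨2,[(11,0),(14,1),(12,0),(4,2)]⟩,.k,.k,(.r (-1) ⟨2,[(1,0),(0,1),(1,2),(5,0),(10,1)]⟩ ⟨9,[(6,
  1),(9,7),(0,0),(5,5),(5,1),(4,0),(1,0)]⟩),(.r (-1) ⟨18,[(2,5),(1,15),(5,1),(13,2),(0,7),(3,3),(13,
  9),(2,1)]⟩ ⟨0,[(16,0),(34,0)]⟩),.k,.k,⟨true,0,⟨0,[]⟩,⟨48,[(3,7),(2,7),(3,1),(5,2),(5,2),(13,15),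
  (8,2),(6,2)]⟩⟩,⟨false,1,⟨20,[(1,15),(12,0),(10,2),(2,4),(14,7),(1,0)]⟩,⟨0,[(3,0)]⟩⟩,⟨false,0,⟨0,
  [(16,0),(34,0)]⟩,⟨1,[(2,0),(1,1),(20,0)]⟩⟩,⟨true,0,⟨3,[(1,2),(4,0),(9,3),(8,0)]⟩,⟨3,[(0,4),(3,0),
  (5,0),(22,2)]⟩⟩,⟨false,0,⟨0,[]⟩,⟨0,[]⟩⟩,⟨false,0,⟨0,[]⟩,⟨0,[]⟩⟩,[.o ⟨false,1,⟨0,[(28,0)]⟩,⟨0,[(0,
  0)]⟩⟩,.e ⟨false,1,⟨1,[(50,0),(0,0)]⟩,⟨115,[(3,7),(2,7),(3,5),(5,0),(5,16),(11,15),(8,41),(1,0)]⟩⟩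
  ⟨false,1,⟨0,[(1,0)]⟩,⟨115,[(3,123),(2,7),(3,5),(5,0),(5,16),(11,15),(8,41),(1,0)]⟩⟩,.a ⟨true,0,⟨0,
  [(35,0)]⟩,⟨0,[(32,0)]⟩⟩ ⟨true,0,⟨0,[]⟩,⟨115,[(3,7),(2,7),(3,5),(5,0),(5,16),(11,15),(8,41),(1,
  0)]⟩⟩ ⟨false,1,⟨3,[(1,2),(4,0),(18,0)]⟩,⟨0,[(3,0)]⟩⟩,.e ⟨false,1,⟨1,[(50,0),(0,0)]⟩,⟨48,[(3,7),(2,
  7),(3,1),(5,2),(5,2),(13,15),(8,2),(6,2)]⟩⟩ ⟨false,1,⟨0,[(1,0)]⟩,⟨48,[(3,56),(2,7),(3,1),(5,2),(5,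
  2),(13,15),(8,2),(6,2)]⟩⟩]⟩) (.Q [0,0,0,0,0,-1,0,0,0,1,0,-1] (.ed true [0,1,0,0,1] .k) (.S ⟨1,0,
  [0,1,1],[0,1,0,0,1],[1,2,1,1],(⟨0,[(32,0),(7,0)]⟩,⟨0,[(0,0)]⟩),⟨0,[(32,0)]⟩,(.r 0 ⟨85,[(4,9),(2,
  9),(9,18),(5,38),(0,13),(10,19),(8,15),(1,4)]⟩ ⟨5,[(11,1),(35,0),(3,2),(0,3)]⟩),.k,⟨false,0,⟨0,
  []⟩,⟨1,[(29,0),(0,0),(21,0)]⟩⟩,⟨true,0,⟨0,[(50,0)]⟩,⟨0,[(49,0)]⟩⟩,⟨true,0,⟨0,[(49,0)]⟩,⟨0,[(50,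
  0)]⟩⟩,⟨false,1,⟨1,[(29,0),(0,0),(21,0)]⟩,⟨0,[]⟩⟩,[.o ⟨false,0,⟨75,[(3,23),(0,27),(6,5),(5,8),(5,
  8),(13,27),(6,25),(2,14)]⟩,⟨1,[(1,1),(45,0),(4,0)]⟩⟩,.a ⟨true,0,⟨0,[(30,0)]⟩,⟨0,[(1,0)]⟩⟩ ⟨false,
  0,⟨0,[(49,0)]⟩,⟨5,[(11,1),(35,0),(3,2),(0,3)]⟩⟩ ⟨true,0,⟨48,[(4,7),(2,7),(3,1),(5,2),(5,2),(13,
  15),(8,2),(6,2)]⟩,⟨0,[]⟩⟩,.a ⟨true,0,⟨10,[(3,3),(11,0),(14,2),(2,0),(6,0),(1,0),(3,0)]⟩,⟨62,[(1,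
  46),(5,15),(0,5),(2,3),(11,5),(13,15),(8,5),(6,2)]⟩⟩ ⟨true,(-1),⟨7,[(11,1),(4,5),(0,6),(5,0),(23,
  0)]⟩,⟨5,[(11,1),(35,0),(3,2),(0,3)]⟩⟩ ⟨false,0,⟨48,[(4,7),(2,7),(3,1),(5,2),(5,2),(13,15),(8,2),
  (6,2)]⟩,⟨1,[(51,0),(0,0)]⟩⟩,.a ⟨true,0,⟨0,[(30,0)]⟩,⟨0,[(1,0)]⟩⟩ ⟨false,0,⟨0,[(49,0)]⟩,⟨5,[(11,1),
  (35,0),(4,6)]⟩⟩ ⟨true,0,⟨115,[(4,7),(2,7),(3,5),(5,0),(5,16),(11,15),(8,41),(1,0)]⟩,⟨0,[]⟩⟩]⟩)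
  (.K ⟨0,[-1,0,1,0,1],0,0,(⟨0,[(0,0),(27,0)]⟩,⟨0,[(31,0),(6,0)]⟩),.k,(.r (-1) ⟨18,[(3,5),(1,15),(5,
  1),(13,2),(0,7),(3,3),(13,9),(2,1)]⟩ ⟨0,[(17,0),(34,0)]⟩),(.r 0 ⟨0,[(23,0)]⟩ ⟨9,[(7,1),(5,4),(1,
  1),(3,0),(10,1),(4,3),(16,5)]⟩),.k,.k,[⟨0,[(1,0)]⟩,⟨0,[(4,0)]⟩,⟨11,[(1,7),(0,3),(10,1),(3,3),(0,
  2),(16,2),(1,4)]⟩,⟨16,[(3,4),(0,6),(6,2),(5,0),(5,7),(10,9),(9,5),(2,3)]⟩]⟩))) (.Q [0,0,-2,0,0,0,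
  -1,0,0,1,-1] (.p false [0,0,1] [1] (⟨0,[(37,0)]⟩,⟨0,[(36,0)]⟩) .k 1 (⟨0,[]⟩,⟨0,[]⟩) .k .k) (.R ⟨0,
  false,false,true,[0,-1,1],[1,0,0,0,-1],[1],(⟨0,[(27,0)]⟩,⟨0,[(11,0),(27,2)]⟩),(⟨0,[(30,0)]⟩,⟨0,
  [(31,0)]⟩),⟨2,[(11,0),(14,1),(12,0),(4,2)]⟩,.k,.k,(.r (-1) ⟨5,[(0,2),(1,2),(1,5),(5,1),(10,2),(24,
  0),(4,0)]⟩ ⟨37,[(1,4),(4,4),(9,23),(0,5),(5,25),(1,0),(8,7),(10,1)]⟩),(.r (-1) ⟨18,[(2,5),(1,15),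
  (5,1),(13,2),(0,7),(3,3),(13,9),(2,1)]⟩ ⟨0,[(16,0),(34,0)]⟩),.k,.k,⟨true,0,⟨0,[]⟩,⟨3,[(1,0),(4,0),
  (18,0)]⟩⟩,⟨false,1,⟨0,[(0,0),(27,0)]⟩,⟨0,[(3,0)]⟩⟩,⟨false,0,⟨0,[(16,0),(34,0)]⟩,⟨1,[(2,0),(1,1),
  (20,0)]⟩⟩,⟨true,0,⟨0,[(0,0),(4,0),(10,0),(4,0)]⟩,⟨11,[(1,6),(0,6),(1,8),(5,1),(4,2),(5,3)]⟩⟩,
  ⟨false,0,⟨0,[]⟩,⟨0,[]⟩⟩,⟨false,0,⟨0,[]⟩,⟨0,[]⟩⟩,[.o ⟨false,1,⟨0,[(28,0)]⟩,⟨5,[(1,1),(0,1),(18,1),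
  (24,0),(4,0)]⟩⟩,.a ⟨true,1,⟨0,[(0,0),(5,0)]⟩,⟨0,[(0,0),(0,0)]⟩⟩ ⟨false,1,⟨1,[(50,0),(0,0)]⟩,⟨23,
  [(1,0),(4,1),(3,0),(11,2),(6,0),(4,2),(8,8)]⟩⟩ ⟨true,1,⟨0,[(0,0),(4,0),(15,0)]⟩,⟨0,[(1,0)]⟩⟩,.a
  ⟨true,0,⟨0,[(35,0)]⟩,⟨0,[(32,0)]⟩⟩ ⟨true,0,⟨0,[]⟩,⟨23,[(1,0),(4,1),(3,0),(11,2),(6,0),(4,2),(8,
  8)]⟩⟩ ⟨false,1,⟨0,[(0,0),(4,0),(15,0)]⟩,⟨0,[(3,0)]⟩⟩,.a ⟨true,0,⟨16,[(1,6),(4,9),(22,2),(9,0),(1,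
  0),(3,2),(7,2)]⟩,⟨0,[(0,0)]⟩⟩ ⟨false,1,⟨1,[(50,0),(0,0)]⟩,⟨3,[(1,0),(4,0),(18,0)]⟩⟩ ⟨true,1,⟨0,
  [(0,0),(27,0)]⟩,⟨0,[(1,0)]⟩⟩]⟩) (.I [0,0,0,0,0,-1,-1] (.I [0,0,0,-1,1,0,0,1,-1] (.I [1,1,0,0,0,1,
  1,1] (.I [0,0,2,0,0,-2,1] (.I [5,0,0,0,-1,6] (.C [(0,0),(0,0),(2,1),(9,0),(1,0),(0,0)]) (.C [(0,
  0),(48,1),(0,0)])) (.C [(0,0),(3,0),(10,0)])) (.C [(0,0),(13,0),(21,0),(10,0)])) (.C [(0,0),(5,0),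
  (16,0),(9,0)])) (.C [(0,0),(21,0),(5,0)])))))))) (.R ⟨0,false,false,false,[0,-1,1],[0,0,0,0,1],[1,
  1],(⟨0,[(21,0)]⟩,⟨54,[(4,2),(3,2),(8,2),(0,2),(9,2),(2,54),(1,9),(4,14),(0,5)]⟩),(⟨0,[(25,0)]⟩,⟨0,
  [(24,0)]⟩),⟨2,[(5,0),(14,1),(12,0),(4,2)]⟩,.k,.k,(.r (-1) ⟨0,[(4,0),(2,0),(1,0),(5,0),(29,0)]⟩ ⟨5,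
  [(10,3),(0,0),(5,3),(10,0),(0,1),(0,0)]⟩),(.r (-2) ⟨2,[(4,1),(13,2),(21,0),(3,2),(0,0)]⟩ ⟨0,[(1,
  0)]⟩),.k,.k,⟨true,0,⟨0,[]⟩,⟨1,[(29,0),(0,0)]⟩⟩,⟨false,0,⟨13,[(0,9),(18,1),(3,3),(16,0),(3,3),(0,
  4)]⟩,⟨0,[(22,0),(6,0)]⟩⟩,⟨true,(-1),⟨0,[(10,0)]⟩,⟨2,[(0,0),(3,1),(2,1),(7,0),(2,2),(3,0)]⟩⟩,
  ⟨false,(-1),⟨1,[(0,1),(9,0),(0,1),(6,0)]⟩,⟨5,[(4,1),(17,5),(4,5),(12,0),(4,6)]⟩⟩,⟨false,0,⟨0,[]⟩,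
  ⟨0,[]⟩⟩,⟨false,0,⟨0,[]⟩,⟨0,[]⟩⟩,[.e ⟨false,0,⟨7,[(0,0),(5,0),(15,0),(4,0),(9,1),(3,1)]⟩,⟨1,[(22,
  0),(0,0),(21,0)]⟩⟩ ⟨false,(-1),⟨0,[(0,0)]⟩,⟨1,[(22,2),(0,0),(5,1),(15,0)]⟩⟩,.o ⟨false,0,⟨11,[(0,
  11),(3,1),(6,5),(6,5),(10,11),(10,6),(4,0)]⟩,⟨0,[(22,0)]⟩⟩,.a ⟨true,0,⟨0,[(29,0)]⟩,⟨0,[(26,0)]⟩⟩
  ⟨false,0,⟨0,[]⟩,⟨1,[(22,0),(0,0),(21,0)]⟩⟩ ⟨true,(-1),⟨1,[(0,1),(28,0),(0,0)]⟩,⟨0,[(22,0),(6,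
  0)]⟩⟩,.e ⟨true,0,⟨7,[(0,0),(5,0),(15,0),(4,0),(9,1),(3,1)]⟩,⟨1,[(29,0),(0,0)]⟩⟩ ⟨true,(-1),⟨0,[(0,
  0)]⟩,⟨1,[(22,1),(6,2),(0,0)]⟩⟩]⟩)))

theorem ok32 : chk K t32 l27 = true := by decide +kernel

noncomputable def t33 : Tre :=
  (.I [1,0,-2,-1,0,0,0,-1] (.I [1,-1,-1,-1,1,0,0,1] (.I [0,0,1,0,0,1,1,0,-1] (.N [0,-1,1,0,-1] (-1)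
  ⟨0,[(1,0)]⟩ ⟨0,[(11,0)]⟩ (.x 0 ⟨0,[(0,0)]⟩ ⟨1,[(8,0),(7,0),(3,0),(1,1),(1,1),(0,1),(15,0)]⟩)) (.Q
  [0,0,0,0,0,1,0,0,0,0,0,-1] (.ed true [1,-1,0,0,1] .k) (.Q [0,0,-2,0,1,0,0,1,-1,0,0,-1] (.p false
  [0,0,0,0,1] [] (⟨0,[(27,0)]⟩,⟨0,[(26,0)]⟩) .k 0 (⟨0,[]⟩,⟨0,[]⟩) .k .k) (.R ⟨0,false,false,true,[0,
  0,0,0,1],[0,1],[1,1,1,1],(⟨0,[(28,0)]⟩,⟨0,[(27,0)]⟩),(⟨0,[(39,0)]⟩,⟨0,[(38,0)]⟩),⟨0,[(1,0)]⟩,.k,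
  .k,(.r 0 ⟨10,[(3,0),(3,1),(1,2),(2,1),(27,3),(2,0)]⟩ ⟨5,[(7,1),(12,5),(22,0),(4,0)]⟩),(.r 0 ⟨10,
  [(3,0),(3,1),(1,2),(2,1),(27,3),(2,0)]⟩ ⟨5,[(7,1),(12,5),(22,0),(4,0)]⟩),.k,.k,⟨true,0,⟨0,[]⟩,⟨1,
  [(32,0),(0,0)]⟩⟩,⟨false,1,⟨5,[(0,3),(3,2),(8,0),(6,0),(4,1)]⟩,⟨1,[(26,1),(5,0),(0,0)]⟩⟩,⟨true,0,
  ⟨1,[(13,0),(7,0)]⟩,⟨10,[(3,0),(3,1),(1,2),(2,1),(27,3),(2,0)]⟩⟩,⟨false,1,⟨1,[(0,1),(12,0),(0,1),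
  (6,0)]⟩,⟨5,[(7,1),(18,5),(16,0),(4,0)]⟩⟩,⟨false,0,⟨0,[]⟩,⟨0,[]⟩⟩,⟨false,0,⟨0,[]⟩,⟨0,[]⟩⟩,[.e
  ⟨false,0,⟨0,[(45,0)]⟩,⟨26,[(3,8),(3,3),(1,2),(1,5),(19,5),(11,1),(4,13)]⟩⟩ ⟨false,0,⟨0,[(0,0),(12,
  0)]⟩,⟨5,[(7,1),(17,2),(0,8),(16,0),(4,3)]⟩⟩,.o ⟨false,1,⟨8,[(6,0),(10,0),(2,2),(19,0),(2,3),(3,
  0)]⟩,⟨0,[(46,0)]⟩⟩,.a ⟨true,0,⟨0,[(26,0)]⟩,⟨36,[(0,27),(4,8),(1,3),(5,11),(0,15),(9,8),(2,8),(5,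
  8),(8,11),(6,9)]⟩⟩ ⟨false,0,⟨1,[(13,0),(7,0)]⟩,⟨26,[(3,8),(3,3),(1,2),(1,5),(19,5),(11,1),(4,
  13)]⟩⟩ ⟨true,0,⟨31,[(0,21),(0,5),(3,5),(2,1),(4,26),(5,4),(4,7),(0,3),(7,5),(9,0)]⟩,⟨5,[(7,1),(18,
  5),(16,0),(4,0)]⟩⟩,.e ⟨true,0,⟨0,[(45,0)]⟩,⟨0,[(46,0)]⟩⟩ ⟨true,0,⟨0,[(0,0),(12,0)]⟩,⟨9,[(7,3),(6,
  1),(6,1),(4,9),(5,2),(0,2),(9,1)]⟩⟩]⟩) (.Q [0,0,-2,0,0,0,-1,0,0,1,-1] (.p false [0,0,1] [1] (⟨0,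
  [(35,0)]⟩,⟨0,[(34,0)]⟩) .k 1 (⟨0,[]⟩,⟨0,[]⟩) .k .k) (.R ⟨0,false,false,true,[0,-1,1],[0,0,1,0,-1],
  [1,0,0,0,0,0,0,1],(⟨0,[(25,0)]⟩,⟨54,[(8,2),(3,2),(8,2),(0,2),(9,2),(2,54),(1,9),(4,14),(0,5)]⟩),
  (⟨0,[(2,0),(22,0)]⟩,⟨0,[(29,0),(5,0)]⟩),⟨2,[(9,0),(14,1),(12,0),(4,2)]⟩,.k,.k,(.r (-1) ⟨5,[(0,0),
  (3,5),(3,1),(2,0),(29,1),(2,0)]⟩ ⟨2,[(1,0),(12,1),(6,1),(4,0)]⟩),(.r 0 ⟨5,[(0,0),(7,1),(2,0),(29,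
  1),(2,0)]⟩ ⟨4,[(1,0),(19,1),(0,0),(3,1),(0,0),(21,0)]⟩),.k,.k,⟨true,0,⟨0,[]⟩,⟨1,[(33,0),(0,0)]⟩⟩,
  ⟨false,1,⟨6,[(0,7),(1,5),(3,5),(2,1),(1,1),(13,7),(0,0),(17,3)]⟩,⟨15,[(1,5),(6,1),(13,5),(3,0),(0,
  10),(13,1),(2,0)]⟩⟩,⟨true,0,⟨1,[(14,0),(7,0)]⟩,⟨5,[(0,0),(7,1),(2,0),(29,1),(2,0)]⟩⟩,⟨false,1,⟨2,
  [(0,1),(1,2),(3,2),(0,0),(1,0),(4,0),(4,1),(5,3),(18,0),(4,1)]⟩,⟨5,[(8,1),(18,5),(16,0),(4,0)]⟩⟩,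
  ⟨false,0,⟨0,[]⟩,⟨0,[]⟩⟩,⟨false,0,⟨0,[]⟩,⟨0,[]⟩⟩,[.a ⟨true,1,⟨49,[(2,32),(1,22),(1,32),(0,3),(1,
  10),(1,4),(1,14),(11,43),(0,16),(4,7),(12,0)]⟩,⟨0,[(0,0),(0,0)]⟩⟩ ⟨false,1,⟨6,[(0,0),(3,3),(2,0),
  (14,1),(18,2)]⟩,⟨0,[(16,0)]⟩⟩ ⟨true,1,⟨2,[(2,2),(1,1),(0,1),(0,2),(0,0),(1,0),(3,1),(5,3),(5,3)]⟩,
  ⟨0,[(1,0)]⟩⟩,.o ⟨false,2,⟨29,[(2,17),(1,19),(1,17),(0,9),(1,5),(15,23),(0,11),(6,1),(10,12),(4,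
  4)]⟩,⟨0,[(1,0),(3,0),(7,0),(5,0)]⟩⟩,.a ⟨true,0,⟨0,[(33,0)]⟩,⟨0,[(30,0)]⟩⟩ ⟨false,1,⟨1,[(4,0),(17,
  0)]⟩,⟨0,[(16,0)]⟩⟩ ⟨true,1,⟨2,[(2,2),(1,1),(0,1),(0,2),(0,0),(1,0),(3,1),(5,3),(5,3)]⟩,⟨2,[(1,2),
  (3,0),(7,0),(27,0)]⟩⟩,.a ⟨true,0,⟨1,[(33,2),(0,0)]⟩,⟨0,[(0,0)]⟩⟩ ⟨true,1,⟨6,[(0,0),(3,3),(2,0),
  (14,1),(18,2)]⟩,⟨6,[(8,1),(5,5),(0,0),(28,0)]⟩⟩ ⟨false,2,⟨41,[(0,38),(1,23),(1,27),(1,23),(0,13),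
  (1,7),(1,0),(13,31),(0,17),(17,15),(4,6)]⟩,⟨0,[(1,0)]⟩⟩]⟩) (.I [0,0,0,0,0,-1,-1] (.I [0,0,2,0,0,
  -2,1] (.C [(0,8),(0,12),(4,1),(0,7),(1,3),(1,4),(3,1),(11,0),(11,2),(4,12),(0,5)]) (.C [(0,0),(1,
  0),(8,0)])) (.C [(0,0),(19,0),(5,0)])))) (.Q [0,-1,0,0,1,0,0,0,-2,1,0,-2] (.p false [0,0,0,0,1]
  [1,0,0,0,-1] (⟨0,[(27,0)]⟩,⟨0,[(26,0)]⟩) .k 2 (⟨0,[(26,0)]⟩,⟨0,[(27,0)]⟩) .k (.r 0 ⟨0,[(49,1)]⟩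
  ⟨0,[(47,0)]⟩)) (.Q [0,0,1,0,0,0,0,0,1,-1,0,1] (.p true [0,0,0,0,1] [1] (⟨0,[(28,0)]⟩,⟨0,[(27,
  0)]⟩) .k 1 (⟨0,[]⟩,⟨0,[]⟩) .k .k) (.Q [0,0,0,0,0,0,0,0,-1,1,0,-1] (.p false [0,0,0,0,1] [1] (⟨0,
  [(29,0)]⟩,⟨0,[(28,0)]⟩) .k 1 (⟨0,[]⟩,⟨0,[]⟩) .k .k) (.S ⟨1,0,[0,0,1],[1,1,0,0,-1],[0,-1,1],(⟨54,
  [(9,2),(3,2),(8,2),(0,2),(5,54),(3,2),(4,9),(4,14),(0,5)]⟩,⟨0,[(3,0)]⟩),⟨0,[(29,0)]⟩,(.r (-1) ⟨4,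
  [(1,0),(7,0),(12,3),(4,0),(22,0)]⟩ ⟨10,[(5,0),(3,1),(1,2),(2,1),(27,3),(2,0)]⟩),.k,⟨true,0,⟨0,
  [(48,0)]⟩,⟨0,[(47,0)]⟩⟩,⟨false,0,⟨0,[(48,0)]⟩,⟨3,[(22,1),(26,0),(0,0)]⟩⟩,⟨false,1,⟨1,[(27,0),(0,
  0),(21,0)]⟩,⟨0,[]⟩⟩,⟨true,0,⟨20,[(1,0),(7,0),(11,2),(5,0),(5,2),(0,2),(7,6)]⟩,⟨0,[]⟩⟩,[.a ⟨true,0,
  ⟨0,[(0,0)]⟩,⟨0,[(28,0)]⟩⟩ ⟨false,1,⟨1,[(27,0),(0,0),(21,0)]⟩,⟨2,[(6,0),(7,0),(27,0)]⟩⟩ ⟨true,0,⟨1,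
  [(34,0),(0,0)]⟩,⟨0,[]⟩⟩,.o ⟨false,1,⟨3,[(2,1),(42,0),(4,0)]⟩,⟨2,[(1,2),(4,0),(7,0),(27,0)]⟩⟩,.o
  ⟨false,1,⟨7,[(2,3),(9,2),(7,0),(3,0),(17,1),(2,0)]⟩,⟨0,[(1,0)]⟩⟩,.e ⟨false,1,⟨0,[(50,0)]⟩,⟨20,[(1,
  0),(7,0),(11,2),(5,0),(5,2),(0,2),(7,6)]⟩⟩ ⟨false,1,⟨1,[(27,0),(0,0),(21,0)]⟩,⟨0,[]⟩⟩]⟩) (.R ⟨1,
  false,false,false,[0,0,0,0,1],[1,-1],[1,1],(⟨0,[(30,0)]⟩,⟨0,[(29,0)]⟩),(⟨0,[(40,0)]⟩,⟨0,[(41,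
  0)]⟩),⟨0,[(3,0)]⟩,.k,.k,(.r 0 ⟨10,[(5,0),(3,1),(1,2),(2,1),(27,3),(2,0)]⟩ ⟨4,[(1,0),(7,0),(12,3),
  (4,0),(22,0)]⟩),(.r 0 ⟨16,[(15,2),(5,7),(0,2),(10,4),(0,4),(7,1)]⟩ ⟨26,[(5,8),(3,3),(1,2),(1,5),
  (19,5),(11,1),(4,13)]⟩),.k,.k,⟨false,0,⟨0,[(47,0)]⟩,⟨26,[(5,8),(3,3),(1,2),(1,5),(19,5),(11,1),(4,
  13)]⟩⟩,⟨true,0,⟨31,[(2,15),(6,3),(5,5),(5,5),(12,6),(0,6),(8,5),(6,5)]⟩,⟨0,[(0,0)]⟩⟩,⟨true,0,⟨0,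
  []⟩,⟨20,[(1,0),(7,0),(11,2),(5,0),(5,2),(0,2),(7,6)]⟩⟩,⟨false,1,⟨11,[(2,5),(6,3),(34,0),(5,10)]⟩,
  ⟨0,[(0,0),(46,0)]⟩⟩,⟨false,1,⟨3,[(22,1),(26,0),(0,0)]⟩,⟨0,[(48,0)]⟩⟩,⟨false,1,⟨3,[(2,1),(41,0),(5,
  2)]⟩,⟨1,[(0,0),(0,0),(40,0)]⟩⟩,[.o ⟨false,0,⟨0,[(48,0)]⟩,⟨8,[(8,0),(10,0),(2,2),(19,0),(2,3),(3,
  0)]⟩⟩,.a ⟨true,0,⟨1,[(44,0),(3,1),(1,0)]⟩,⟨0,[(47,0)]⟩⟩ ⟨true,0,⟨0,[]⟩,⟨1,[(34,0),(0,0)]⟩⟩ ⟨false,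
  1,⟨47,[(2,23),(2,2),(3,12),(1,2),(1,16),(10,5),(6,4),(18,16)]⟩,⟨0,[(0,0),(46,0)]⟩⟩,.o ⟨false,0,⟨0,
  [(0,0)]⟩,⟨0,[(27,0)]⟩⟩,.o ⟨false,0,⟨0,[(1,0)]⟩,⟨7,[(2,3),(9,2),(7,0),(3,0),(17,1),(2,0)]⟩⟩]⟩))
  (.S ⟨1,0,[0,-1,1],[1,1,0,0,-1],[1,0,1,1],(⟨54,[(8,2),(3,2),(8,2),(0,2),(5,54),(3,2),(4,9),(4,14),
  (0,5)]⟩,⟨0,[(2,0)]⟩),⟨0,[(28,0)]⟩,(.r (-1) ⟨5,[(8,1),(12,5),(22,0),(4,0)]⟩ ⟨10,[(4,0),(3,1),(1,2),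
  (2,1),(27,3),(2,0)]⟩),.k,⟨false,0,⟨0,[]⟩,⟨1,[(26,0),(0,0),(21,0)]⟩⟩,⟨true,0,⟨0,[(47,0)]⟩,⟨0,[(46,
  0)]⟩⟩,⟨true,0,⟨0,[(46,0)]⟩,⟨0,[(47,0)]⟩⟩,⟨false,1,⟨1,[(26,0),(0,0),(21,0)]⟩,⟨0,[]⟩⟩,[.o ⟨false,1,
  ⟨3,[(1,1),(42,0),(4,0)]⟩,⟨39,[(2,8),(0,8),(1,2),(2,6),(0,8),(3,8),(0,14),(12,30),(3,8),(10,11),(1,
  21)]⟩⟩,.e ⟨false,1,⟨3,[(21,1),(26,0),(0,0)]⟩,⟨10,[(4,0),(3,1),(1,2),(2,1),(27,3),(2,0)]⟩⟩ ⟨false,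
  1,⟨0,[(49,0)]⟩,⟨0,[(41,0)]⟩⟩,.a ⟨true,0,⟨0,[(0,0)]⟩,⟨1,[(27,1),(5,0),(0,0)]⟩⟩ ⟨true,0,⟨1,[(14,0),
  (7,0)]⟩,⟨10,[(4,0),(3,1),(1,2),(2,1),(27,3),(2,0)]⟩⟩ ⟨false,1,⟨11,[(8,1),(6,5),(6,5),(21,0),(4,
  6)]⟩,⟨2,[(5,0),(7,0),(27,0)]⟩⟩,.e ⟨false,1,⟨3,[(21,1),(26,0),(0,0)]⟩,⟨0,[(47,0)]⟩⟩ ⟨false,1,⟨0,
  [(49,0)]⟩,⟨0,[(51,0)]⟩⟩]⟩)) (.Q [0,0,0,0,1,0,1,1,-1,0,1,-1] (.p false [0,0,-1,0,1] [] (⟨23,[(0,8),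
  (0,5),(1,0),(0,2),(0,17),(0,1),(1,5),(1,1),(7,14),(10,6),(18,3)]⟩,⟨0,[(27,0),(7,0)]⟩) .k 0 (⟨0,
  []⟩,⟨0,[]⟩) .k (.r 0 ⟨2,[(15,1),(15,0),(0,0),(7,0)]⟩ ⟨1,[(3,0),(17,0)]⟩)) (.Q [0,-1,-2,0,1,0,-1,0,
  -1,1,-1,-1] (.p false [0,0,1] [1,0,0,0,-1] (⟨0,[(36,0)]⟩,⟨0,[(35,0)]⟩) .k 2 (⟨0,[(28,0)]⟩,⟨0,[(29,
  0)]⟩) .k (.r 0 ⟨7,[(4,0),(3,1),(4,5),(6,0),(23,0)]⟩ ⟨2,[(12,0),(2,1),(10,0),(0,0),(4,0),(16,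
  0)]⟩)) (.R ⟨0,false,false,true,[0,-1,1],[1,0,0,0,-1],[1],(⟨0,[(26,0)]⟩,⟨54,[(9,2),(3,2),(8,2),(0,
  2),(9,2),(2,54),(1,9),(4,14),(0,5)]⟩),(⟨0,[(29,0)]⟩,⟨0,[(30,0)]⟩),⟨2,[(10,0),(14,1),(12,0),(4,
  2)]⟩,.k,.k,(.r (-1) ⟨10,[(5,11),(3,1),(1,2),(2,1),(27,3),(2,0)]⟩ ⟨5,[(15,3),(0,0),(5,3),(10,0),(0,
  1),(0,0)]⟩),(.r (-1) ⟨6,[(5,3),(3,1),(13,2),(3,0),(0,0),(13,5),(2,0)]⟩ ⟨0,[(15,0),(34,0)]⟩),.k,.k,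
  ⟨true,0,⟨0,[]⟩,⟨1,[(34,0),(0,0)]⟩⟩,⟨false,1,⟨20,[(0,15),(12,0),(10,2),(2,4),(14,7),(1,0)]⟩,⟨3,[(2,
  1),(31,3),(10,0),(4,0)]⟩⟩,⟨false,0,⟨0,[(15,0),(34,0)]⟩,⟨13,[(5,10),(3,1),(13,2),(3,0),(0,0),(13,
  5),(2,0)]⟩⟩,⟨true,0,⟨30,[(0,22),(14,28),(0,3),(6,1),(3,7),(7,7),(8,3),(6,2)]⟩,⟨13,[(2,6),(2,4),(3,
  2),(22,8),(1,4),(10,4)]⟩⟩,⟨false,0,⟨0,[]⟩,⟨0,[]⟩⟩,⟨false,0,⟨0,[]⟩,⟨0,[]⟩⟩,[.o ⟨false,1,⟨0,[(27,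
  0)]⟩,⟨3,[(2,1),(42,0),(4,0)]⟩⟩,.e ⟨false,1,⟨1,[(49,0),(0,0)]⟩,⟨0,[(52,0)]⟩⟩ ⟨false,1,⟨0,[(0,0)]⟩,
  ⟨2,[(2,0),(25,0),(5,2),(10,0),(6,1)]⟩⟩,.a ⟨true,0,⟨0,[(34,0)]⟩,⟨0,[(31,0)]⟩⟩ ⟨true,0,⟨0,[]⟩,⟨0,
  [(52,0)]⟩⟩ ⟨false,1,⟨20,[(0,15),(8,0),(6,2),(6,2),(3,4),(7,4),(8,1)]⟩,⟨3,[(2,1),(31,3),(10,0),(4,
  0)]⟩⟩,.e ⟨false,1,⟨1,[(49,0),(0,0)]⟩,⟨1,[(34,0),(0,0)]⟩⟩ ⟨false,1,⟨0,[(0,0)]⟩,⟨9,[(2,4),(6,0),(6,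
  2),(6,2),(10,11),(0,1),(9,2)]⟩⟩]⟩) (.K ⟨0,[1,0,0,0,-1],0,1,(⟨0,[(29,0)]⟩,⟨0,[(30,0)]⟩),.k,(.r
  (-1) ⟨26,[(5,8),(3,3),(1,2),(1,5),(19,5),(11,1),(4,13)]⟩ ⟨16,[(15,2),(5,7),(0,2),(10,4),(0,4),(7,
  1)]⟩),(.r (-1) ⟨5,[(9,1),(12,5),(22,0),(4,0)]⟩ ⟨10,[(5,0),(3,1),(1,2),(2,1),(27,3),(2,0)]⟩),.k,.k,
  [⟨7,[(0,3),(1,1),(9,3),(31,0),(5,2)]⟩,⟨0,[(7,0),(12,0),(5,0),(2,0)]⟩,⟨0,[(0,0),(5,0),(7,0),(5,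
  0)]⟩,⟨220,[(9,47),(3,29),(8,71),(1,14),(2,220),(10,49),(1,49),(1,11),(1,53)]⟩]⟩)) (.S ⟨1,0,[0,-1,
  1],[1,1,0,0,-1],[1,0,1,1],(⟨54,[(8,2),(3,2),(8,2),(0,2),(5,54),(3,2),(4,9),(4,14),(0,5)]⟩,⟨0,[(2,
  0)]⟩),⟨0,[(28,0)]⟩,(.r (-1) ⟨5,[(8,1),(12,5),(22,0),(4,0)]⟩ ⟨10,[(4,0),(3,1),(1,2),(2,1),(27,3),
  (2,0)]⟩),.k,⟨false,0,⟨0,[]⟩,⟨1,[(26,0),(0,0),(21,0)]⟩⟩,⟨true,0,⟨0,[(47,0)]⟩,⟨0,[(46,0)]⟩⟩,⟨true,0,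
  ⟨0,[(46,0)]⟩,⟨0,[(47,0)]⟩⟩,⟨false,1,⟨1,[(26,0),(0,0),(21,0)]⟩,⟨0,[]⟩⟩,[.a ⟨true,1,⟨5,[(6,1),(18,
  1),(0,3),(1,1),(1,1),(12,0),(5,2)]⟩,⟨0,[(0,0),(30,0)]⟩⟩ ⟨true,0,⟨1,[(14,0),(7,0)]⟩,⟨0,[(47,0)]⟩⟩
  ⟨false,1,⟨1,[(26,0),(0,0),(21,0)]⟩,⟨2,[(5,0),(7,0),(27,0)]⟩⟩,.e ⟨false,1,⟨3,[(21,1),(26,0),(0,
  0)]⟩,⟨10,[(4,0),(3,1),(1,2),(2,1),(27,3),(2,0)]⟩⟩ ⟨false,1,⟨0,[(49,0)]⟩,⟨0,[(41,0)]⟩⟩,.o ⟨false,1,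
  ⟨4,[(4,0),(0,3),(0,3),(0,1),(5,0),(5,5),(5,3),(0,0),(1,3),(15,0)]⟩,⟨9,[(1,4),(6,0),(6,2),(6,2),
  (10,1),(0,1),(9,2)]⟩⟩,.o ⟨false,1,⟨0,[(26,0)]⟩,⟨3,[(1,1),(42,0),(4,0)]⟩⟩]⟩))))) (.Q [0,-2,0,0,1,0,
  0,0,-1,0,0,-1] (.p false [0,0,0,0,1] [] (⟨0,[(25,0)]⟩,⟨0,[(24,0)]⟩) .k 0 (⟨0,[]⟩,⟨0,[]⟩) .k .k)
  (.R ⟨0,false,false,true,[0,-1,1],[0,0,0,0,1],[1],(⟨0,[(22,0)]⟩,⟨54,[(5,2),(3,2),(8,2),(0,2),(9,2),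
  (2,54),(1,9),(4,14),(0,5)]⟩),(⟨0,[(26,0)]⟩,⟨0,[(25,0)]⟩),⟨2,[(6,0),(14,1),(12,0),(4,2)]⟩,.k,.k,
  (.r (-1) ⟨0,[(5,0),(2,0),(1,0),(5,0),(29,0)]⟩ ⟨5,[(11,3),(0,0),(5,3),(10,0),(0,1),(0,0)]⟩),(.r
  (-2) ⟨2,[(5,1),(13,2),(21,0),(3,2),(0,0)]⟩ ⟨0,[(1,0)]⟩),.k,.k,⟨true,1,⟨0,[(46,0)]⟩,⟨3,[(5,1),(4,
  1),(0,2),(5,0),(23,0)]⟩⟩,⟨false,1,⟨0,[(8,0),(11,0),(3,0)]⟩,⟨6,[(0,6),(4,1),(5,5),(16,5),(1,0),(10,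
  0)]⟩⟩,⟨false,0,⟨0,[(11,0),(34,0)]⟩,⟨5,[(5,3),(2,4),(1,0),(5,3),(2,4),(7,0)]⟩⟩,⟨true,(-1),⟨2,[(2,
  0),(7,0),(0,2),(4,2),(7,2),(13,0)]⟩,⟨5,[(0,5),(4,1),(22,5),(12,0),(4,0)]⟩⟩,⟨false,0,⟨0,[]⟩,⟨0,
  []⟩⟩,⟨false,0,⟨0,[]⟩,⟨0,[]⟩⟩,[.o ⟨false,0,⟨7,[(5,1),(4,1),(0,2),(5,0),(6,7),(13,3),(2,4)]⟩,⟨0,[(0,
  0)]⟩⟩,.e ⟨false,1,⟨1,[(45,0),(0,0)]⟩,⟨0,[(48,0)]⟩⟩ ⟨false,0,⟨0,[(2,0),(7,0),(5,0),(7,0)]⟩,⟨1,[(0,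
  0),(22,0),(6,1)]⟩⟩,.a ⟨true,0,⟨0,[(30,0)]⟩,⟨0,[(27,0)]⟩⟩ ⟨true,0,⟨0,[]⟩,⟨0,[(48,0)]⟩⟩ ⟨false,0,⟨2,
  [(2,0),(7,0),(5,2),(7,2),(13,0)]⟩,⟨0,[(0,0),(29,0)]⟩⟩,.e ⟨false,1,⟨1,[(45,0),(0,0)]⟩,⟨1,[(30,0),
  (0,0)]⟩⟩ ⟨false,0,⟨0,[(2,0),(7,0),(5,0),(7,0)]⟩,⟨1,[(0,1),(29,2),(0,0)]⟩⟩]⟩) (.Q [0,0,-1,0,0,0,0,
  0,-1,1,0,-1] (.p false [0,0,0,0,1] [1] (⟨0,[(26,0)]⟩,⟨0,[(25,0)]⟩) .k 1 (⟨0,[]⟩,⟨0,[]⟩) .k .k)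
  (.Q [0,0,0,0,0,1,0,0,0,-1,0,1] (.ed false [0,1,0,0,1] .k) (.S ⟨1,0,[0,-1,1],[1,1,0,0,-1],[1,0,1,
  1],(⟨54,[(7,2),(3,2),(8,2),(0,2),(5,54),(3,2),(4,9),(4,14),(0,5)]⟩,⟨1,[(0,0),(7,0),(15,0),(3,
  0)]⟩),⟨0,[(27,0)]⟩,(.r (-1) ⟨5,[(7,1),(12,5),(22,0),(4,0)]⟩ ⟨2,[(7,0),(2,0),(7,0),(21,0)]⟩),.k,
  ⟨false,0,⟨0,[]⟩,⟨1,[(25,0),(0,0),(21,0)]⟩⟩,⟨true,0,⟨0,[(46,0)]⟩,⟨0,[(45,0)]⟩⟩,⟨true,0,⟨0,[(45,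
  0)]⟩,⟨0,[(46,0)]⟩⟩,⟨false,1,⟨1,[(25,0),(0,0),(21,0)]⟩,⟨0,[]⟩⟩,[.o ⟨false,1,⟨11,[(1,11),(5,1),(6,
  5),(6,5),(21,6),(4,0)]⟩,⟨1,[(2,0),(23,0),(16,0)]⟩⟩,.e ⟨false,1,⟨3,[(20,1),(26,0),(0,0)]⟩,⟨2,[(7,
  0),(2,0),(7,0),(21,0)]⟩⟩ ⟨false,1,⟨0,[(48,0)]⟩,⟨0,[(40,0)]⟩⟩,.a ⟨true,0,⟨0,[(1,0)]⟩,⟨1,[(26,1),(5,
  0),(0,0)]⟩⟩ ⟨true,0,⟨1,[(13,0),(7,0)]⟩,⟨2,[(7,0),(2,0),(7,0),(21,0)]⟩⟩ ⟨false,1,⟨11,[(7,1),(6,5),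
  (6,5),(21,0),(4,6)]⟩,⟨2,[(4,0),(7,0),(27,0)]⟩⟩,.e ⟨false,1,⟨3,[(20,1),(26,0),(0,0)]⟩,⟨0,[(46,
  0)]⟩⟩ ⟨false,1,⟨0,[(48,0)]⟩,⟨0,[(50,0)]⟩⟩]⟩) (.Q [0,0,0,0,0,0,0,0,0,0,-1,1] (.ed false [1,0,-1,0,
  1] (.r 0 ⟨2,[(15,1),(15,0),(0,0),(7,0)]⟩ ⟨5,[(7,1),(4,5),(30,0),(4,6)]⟩)) (.S ⟨1,0,[0,-1,1],[1,1,
  0,0,-1],[1,0,1,1],(⟨54,[(8,2),(3,2),(8,2),(0,2),(5,54),(3,2),(4,9),(4,14),(0,5)]⟩,⟨0,[(0,0),(24,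
  0)]⟩),⟨0,[(28,0)]⟩,(.r (-1) ⟨5,[(8,1),(12,5),(22,0),(4,0)]⟩ ⟨2,[(8,0),(2,0),(7,0),(21,0)]⟩),.k,
  ⟨false,0,⟨0,[]⟩,⟨1,[(26,0),(0,0),(21,0)]⟩⟩,⟨true,0,⟨0,[(47,0)]⟩,⟨0,[(46,0)]⟩⟩,⟨true,0,⟨0,[(46,
  0)]⟩,⟨0,[(47,0)]⟩⟩,⟨false,1,⟨1,[(26,0),(0,0),(21,0)]⟩,⟨0,[]⟩⟩,[.o ⟨false,1,⟨9,[(1,2),(0,5),(3,2),
  (18,2),(0,0),(7,2),(7,0),(1,3),(4,4)]⟩,⟨1,[(3,0),(23,0),(16,0)]⟩⟩,.e ⟨false,1,⟨3,[(21,1),(26,0),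
  (0,0)]⟩,⟨2,[(8,0),(2,0),(7,0),(21,0)]⟩⟩ ⟨false,1,⟨0,[(49,0)]⟩,⟨0,[(41,0)]⟩⟩,.a ⟨true,0,⟨0,[(2,
  0)]⟩,⟨1,[(27,1),(5,0),(0,0)]⟩⟩ ⟨true,0,⟨1,[(14,0),(7,0)]⟩,⟨2,[(8,0),(2,0),(7,0),(21,0)]⟩⟩ ⟨false,
  1,⟨11,[(8,1),(6,5),(6,5),(21,0),(4,6)]⟩,⟨2,[(5,0),(7,0),(27,0)]⟩⟩,.e ⟨false,1,⟨3,[(21,1),(26,0),
  (0,0)]⟩,⟨0,[(47,0)]⟩⟩ ⟨false,1,⟨0,[(49,0)]⟩,⟨0,[(51,0)]⟩⟩]⟩) (.Q [0,0,0,0,0,1,0,0,0,0,0,-1] (.ed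
  true [1,-1,0,0,1] .k) (.R ⟨0,false,false,false,[0,1,0,0,-1],[1,0,-1,0,-1],[0,-1,1,0,0,0,0,-1],(⟨0,
  [(0,0)]⟩,⟨0,[(30,0),(9,0)]⟩),(⟨0,[(0,0),(24,0)]⟩,⟨0,[(30,0),(6,0)]⟩),⟨0,[(30,0)]⟩,(.r (-1) ⟨5,[(9,
  1),(12,5),(22,0),(4,0)]⟩ ⟨2,[(9,0),(2,0),(7,0),(21,0)]⟩),.k,.k,.k,.k,.k,⟨true,0,⟨1,[(34,0),(0,
  0)]⟩,⟨0,[]⟩⟩,⟨false,0,⟨220,[(9,23),(3,14),(8,35),(1,117),(13,24),(1,24),(1,5),(1,26)]⟩,⟨2,[(12,0),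
  (0,0),(20,0),(10,0)]⟩⟩,⟨true,0,⟨5,[(9,1),(7,5),(27,0),(4,0)]⟩,⟨0,[(14,0)]⟩⟩,⟨false,0,⟨11,[(9,1),
  (1,2),(4,5),(0,2),(6,5),(19,1),(5,3)]⟩,⟨3,[(8,1),(23,1),(12,0),(4,0)]⟩⟩,⟨false,0,⟨0,[]⟩,⟨0,[]⟩⟩,
  ⟨false,0,⟨0,[]⟩,⟨0,[]⟩⟩,[.a ⟨true,0,⟨0,[(3,0),(12,0),(3,0)]⟩,⟨0,[(28,0),(3,0)]⟩⟩ ⟨true,0,⟨0,[(16,
  0)]⟩,⟨5,[(9,1),(4,5),(30,0),(4,0)]⟩⟩ ⟨false,0,⟨5,[(11,0),(4,1),(0,0),(0,1),(5,1),(19,1),(5,1)]⟩,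
  ⟨1,[(32,1),(12,0),(3,0)]⟩⟩,.o ⟨false,1,⟨1,[(3,1),(12,1),(3,1),(24,0),(4,0)]⟩,⟨1,[(4,0),(23,0),(3,
  1),(12,0)]⟩⟩,.o ⟨false,1,⟨0,[(3,0),(41,0)]⟩,⟨1,[(28,1),(5,0),(0,0)]⟩⟩,.o ⟨false,1,⟨10,[(1,2),(1,
  5),(3,2),(2,0),(15,0),(0,1),(7,2),(9,8)]⟩,⟨0,[(28,0)]⟩⟩]⟩) (.S ⟨1,0,[0,-1,1],[1,1,0,0,-1],[1,0,1,
  1],(⟨54,[(9,2),(3,2),(8,2),(0,2),(5,54),(3,2),(4,9),(4,14),(0,5)]⟩,⟨0,[(0,0)]⟩),⟨0,[(29,0)]⟩,(.r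
  (-1) ⟨5,[(9,1),(12,5),(22,0),(4,0)]⟩ ⟨2,[(9,0),(2,0),(7,0),(21,0)]⟩),.k,⟨false,0,⟨0,[]⟩,⟨1,[(27,
  0),(0,0),(21,0)]⟩⟩,⟨true,0,⟨0,[(48,0)]⟩,⟨0,[(47,0)]⟩⟩,⟨true,0,⟨0,[(47,0)]⟩,⟨0,[(48,0)]⟩⟩,⟨false,1,
  ⟨1,[(27,0),(0,0),(21,0)]⟩,⟨0,[]⟩⟩,[.o ⟨false,1,⟨21,[(1,5),(1,11),(3,5),(2,1),(15,1),(0,3),(7,5),
  (9,6),(4,10)]⟩,⟨1,[(4,0),(23,0),(16,0)]⟩⟩,.e ⟨false,1,⟨3,[(22,1),(26,0),(0,0)]⟩,⟨2,[(9,0),(2,0),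
  (7,0),(21,0)]⟩⟩ ⟨false,1,⟨0,[(50,0)]⟩,⟨0,[(42,0)]⟩⟩,.a ⟨true,0,⟨0,[(3,0)]⟩,⟨1,[(28,1),(5,0),(0,
  0)]⟩⟩ ⟨true,0,⟨1,[(15,0),(7,0)]⟩,⟨2,[(9,0),(2,0),(7,0),(21,0)]⟩⟩ ⟨false,1,⟨11,[(9,1),(6,5),(6,5),
  (21,0),(4,6)]⟩,⟨2,[(6,0),(7,0),(27,0)]⟩⟩,.e ⟨false,1,⟨3,[(22,1),(26,0),(0,0)]⟩,⟨0,[(48,0)]⟩⟩
  ⟨false,1,⟨0,[(50,0)]⟩,⟨0,[(52,0)]⟩⟩]⟩)))) (.Q [0,0,0,0,0,0,0,0,-1,1,0,-1] (.p false [0,0,0,0,1]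
  [1] (⟨0,[(27,0)]⟩,⟨0,[(26,0)]⟩) .k 1 (⟨0,[]⟩,⟨0,[]⟩) .k .k) (.Q [0,0,0,0,0,-1,0,0,0,0,0,1] (.ed
  false [1,-1,0,0,1] .k) (.S ⟨1,0,[0,0,1],[1,1,0,0,-1],[0,-1,1],(⟨54,[(8,2),(3,2),(8,2),(0,2),(5,
  54),(3,2),(4,9),(4,14),(0,5)]⟩,⟨0,[(0,0)]⟩),⟨0,[(28,0)]⟩,(.r (-1) ⟨4,[(2,0),(5,0),(12,3),(4,0),
  (22,0)]⟩ ⟨2,[(8,0),(2,0),(7,0),(21,0)]⟩),.k,⟨true,0,⟨0,[(47,0)]⟩,⟨0,[(46,0)]⟩⟩,⟨false,0,⟨0,[(47,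
  0)]⟩,⟨3,[(21,1),(26,0),(0,0)]⟩⟩,⟨false,1,⟨1,[(26,0),(0,0),(21,0)]⟩,⟨0,[]⟩⟩,⟨true,0,⟨20,[(2,0),(5,
  0),(11,2),(5,0),(5,2),(0,2),(7,6)]⟩,⟨0,[]⟩⟩,[.a ⟨true,0,⟨0,[(1,0)]⟩,⟨0,[(27,0)]⟩⟩ ⟨false,1,⟨1,
  [(26,0),(0,0),(21,0)]⟩,⟨2,[(5,0),(7,0),(27,0)]⟩⟩ ⟨true,0,⟨1,[(33,0),(0,0)]⟩,⟨0,[]⟩⟩,.o ⟨false,1,
  ⟨1,[(1,1),(42,0),(4,0)]⟩,⟨1,[(3,0),(23,0),(16,0)]⟩⟩,.o ⟨false,1,⟨1,[(1,0),(9,0),(7,0),(6,0)]⟩,⟨0,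
  [(2,0)]⟩⟩,.e ⟨false,1,⟨0,[(49,0)]⟩,⟨20,[(2,0),(5,0),(11,2),(5,0),(5,2),(0,2),(7,6)]⟩⟩ ⟨false,1,⟨1,
  [(26,0),(0,0),(21,0)]⟩,⟨0,[]⟩⟩]⟩) (.R ⟨0,false,false,true,[0,0,0,0,1],[1,-1],[1,1,-1,-1],(⟨0,[(29,
  0)]⟩,⟨0,[(28,0)]⟩),(⟨0,[(39,0)]⟩,⟨0,[(40,0)]⟩),⟨0,[(0,0)]⟩,.k,.k,(.r 0 ⟨2,[(8,0),(2,0),(7,0),(21,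
  0)]⟩ ⟨4,[(2,0),(5,0),(12,3),(4,0),(22,0)]⟩),(.r 0 ⟨16,[(14,2),(5,7),(0,2),(10,4),(0,4),(7,1)]⟩ ⟨5,
  [(8,1),(35,0),(3,2),(0,3)]⟩),.k,.k,⟨true,0,⟨0,[]⟩,⟨1,[(33,0),(0,0)]⟩⟩,⟨false,0,⟨0,[(1,0)]⟩,⟨1,
  [(27,1),(16,0),(3,0)]⟩⟩,⟨false,1,⟨5,[(8,1),(35,0),(3,2),(0,3)]⟩,⟨1,[(14,0),(7,0)]⟩⟩,⟨true,0,⟨5,
  [(1,5),(6,1),(35,0),(4,0)]⟩,⟨0,[(2,0),(42,0)]⟩⟩,⟨false,0,⟨0,[]⟩,⟨0,[]⟩⟩,⟨false,0,⟨0,[]⟩,⟨0,[]⟩⟩,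
  [.e ⟨false,0,⟨0,[(10,0),(2,0)]⟩,⟨4,[(2,0),(5,0),(12,3),(4,0),(22,0)]⟩⟩ ⟨false,0,⟨4,[(1,3),(6,0),
  (1,1),(2,1),(12,0),(14,0)]⟩,⟨3,[(2,1),(2,0),(1,1),(9,0),(1,0),(7,1),(21,1)]⟩⟩,.o ⟨false,0,⟨0,[(47,
  0)]⟩,⟨8,[(7,0),(10,0),(2,2),(19,0),(2,3),(3,0)]⟩⟩,.a ⟨true,0,⟨0,[(27,0)]⟩,⟨0,[(1,0)]⟩⟩ ⟨true,0,⟨2,
  [(8,0),(2,0),(7,0),(21,0)]⟩,⟨1,[(14,0),(7,0)]⟩⟩ ⟨false,0,⟨5,[(1,5),(6,1),(35,0),(4,0)]⟩,⟨3,[(2,1),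
  (2,0),(1,1),(9,0),(1,0),(7,1),(21,1)]⟩⟩,.o ⟨false,0,⟨0,[(2,0)]⟩,⟨1,[(1,0),(9,0),(7,0),(6,
  0)]⟩⟩]⟩)) (.K ⟨0,[1,0,1,0,-1],0,1,(⟨0,[(27,0),(7,0)]⟩,⟨15,[(0,11),(3,5),(0,11),(2,5),(3,5),(5,11),
  (5,1),(3,3),(7,1),(5,2),(5,2)]⟩),.k,(.r (-2) ⟨2,[(7,1),(13,2),(21,0),(3,2),(0,0)]⟩ ⟨0,[(3,0)]⟩),
  (.r (-1) ⟨0,[(21,0)]⟩ ⟨21,[(7,3),(1,4),(1,1),(3,14),(15,1),(8,7),(2,1)]⟩),.k,.k,[⟨0,[(0,0)]⟩,⟨0,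
  [(5,0),(18,0),(2,0)]⟩,⟨2,[(0,0),(1,1),(6,0),(3,1),(4,2),(24,0)]⟩,⟨5,[(5,1),(18,1),(0,3),(1,1),(1,
  1),(0,5),(11,0),(5,2)]⟩]⟩))))) (.Q [0,-1,0,2,1,0,1,1,0,0,1] (.p true [0,0,1] [] (⟨0,[(31,0)]⟩,⟨0,
  [(30,0)]⟩) .k 0 (⟨0,[]⟩,⟨0,[]⟩) .k .k) (.S ⟨1,0,[0,1,-1,-2,0,0,0,-1],[1,-1,-1],[1,0,-1,-1,0,0,0,
  -1],(⟨0,[(20,0)]⟩,⟨54,[(4,2),(3,2),(8,2),(0,2),(9,2),(3,54),(0,9),(4,14),(0,5)]⟩),⟨0,[(5,0)]⟩,.k,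
  (.r 0 ⟨0,[(6,0)]⟩ ⟨2,[(16,1),(0,0),(0,1),(9,0),(0,0)]⟩),⟨true,0,⟨0,[]⟩,⟨0,[(47,0)]⟩⟩,⟨false,0,⟨0,
  [(43,0)]⟩,⟨3,[(17,1),(26,0),(0,0)]⟩⟩,⟨false,1,⟨3,[(17,1),(26,0),(0,0)]⟩,⟨0,[(43,0)]⟩⟩,⟨true,0,⟨0,
  [(47,0)]⟩,⟨0,[]⟩⟩,[.a ⟨true,(-1),⟨0,[(4,0),(8,0)]⟩,⟨0,[(0,0)]⟩⟩ ⟨true,0,⟨1,[(6,0),(5,0)]⟩,⟨0,[(1,
  0)]⟩⟩ ⟨false,0,⟨10,[(4,1),(1,7),(1,0),(3,1),(15,0),(8,3),(2,0)]⟩,⟨3,[(0,1),(0,0),(13,1),(1,0),(0,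
  0)]⟩⟩,.o ⟨false,0,⟨11,[(4,3),(1,5),(4,2),(16,2),(1,8),(9,1),(4,1)]⟩,⟨0,[(3,0)]⟩⟩,.o ⟨false,0,⟨0,
  [(30,0)]⟩,⟨2,[(7,0),(0,0),(20,0),(10,0)]⟩⟩,.o ⟨false,0,⟨1,[(29,0),(0,2)]⟩,⟨0,[(7,0)]⟩⟩]⟩) (.I [0,
  0,0,0,0,-1,-1] (.I [1,0,0,0,0,3,0,0,1] (.I [5,0,0,0,-1,6] (.I [0,1,0,-2,-1,-1,-1,-1] (.I [0,0,0,2,
  1,-2,1,1] (.C [(0,1),(0,1),(41,1),(0,0),(5,0)]) (.C [(0,0),(7,0),(1,0)])) (.C [(0,0),(3,0),(20,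
  0)])) (.C [(0,0),(40,1),(0,0)])) (.C [(0,0),(24,0),(0,0),(13,0)])) (.C [(0,0),(15,0),(5,0)]))))

theorem ok33 : chk K t33 r27 = true := by decide +kernel


end Helper25.S1T.Ymp_1cP3
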