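import Pool.Agent.Helper25.S1T.Ymp_1cP4_q

set_option autoImplicit false
set_option linter.all false

namespace Helper25.S1T.Ymp_1cP4

open Helper25.KG Helper25.KW Helper55.KE Helper11.CT

noncomputable def t26 : Tre :=
  (.Q [0,0,0,-1,0,0,1,1,0,0,1] (.p true [0,0,1] [] (⟨0,[(27,0)]⟩,⟨0,[(26,0)]⟩) .k 0 (⟨0,[]⟩,⟨0,[]⟩)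
  .k .k) (.R ⟨2,true,false,true,[0,1],[0,0,1],[0,0,1],(⟨0,[]⟩,⟨0,[]⟩),(⟨0,[(28,0)]⟩,⟨0,[(27,0)]⟩),
  ⟨0,[]⟩,.k,.k,.k,.k,.k,.k,⟨false,1,⟨3,[(6,1),(2,1),(8,0),(0,0),(19,2)]⟩,⟨2,[(2,2),(10,1),(20,0),(0,
  0),(2,0)]⟩⟩,⟨true,0,⟨0,[(25,0)]⟩,⟨0,[(7,0)]⟩⟩,⟨true,0,⟨0,[(37,0)]⟩,⟨6,[(10,1),(0,1),(21,0),(1,
  0)]⟩⟩,⟨false,0,⟨0,[(0,0)]⟩,⟨5,[(1,4),(2,0),(5,1),(4,0),(22,0),(0,3)]⟩⟩,⟨false,1,⟨1,[(18,0),(0,0),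
  (19,0)]⟩,⟨0,[]⟩⟩,⟨true,0,⟨0,[(23,0)]⟩,⟨0,[(1,0)]⟩⟩,[]⟩) (.Q [0,0,0,-2,0,0,1,1,0,0,1] (.p true [0,
  0,1] [] (⟨0,[(28,0)]⟩,⟨0,[(27,0)]⟩) .k 0 (⟨0,[]⟩,⟨0,[]⟩) .k .k) (.R ⟨1,true,false,false,[0,0,1],
  [0,1],[1,1,0,0,0,0,0,1],(⟨0,[(29,0)]⟩,⟨0,[(28,0)]⟩),(⟨0,[(33,0)]⟩,⟨0,[(32,0)]⟩),⟨0,[(18,0)]⟩,.k,
  .k,.k,.k,(.r (-1) ⟨1,[(0,1),(22,1),(11,0),(3,0)]⟩ ⟨3,[(4,0),(5,5)]⟩),.k,⟨true,0,⟨0,[(0,0),(7,0),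
  (27,0)]⟩,⟨1,[(0,0),(1,0),(4,1),(7,1),(24,1)]⟩⟩,⟨false,1,⟨1,[(23,1),(11,0),(3,0)]⟩,⟨0,[(26,0)]⟩⟩,
  ⟨false,0,⟨0,[]⟩,⟨1,[(19,0),(0,0),(19,0)]⟩⟩,⟨true,0,⟨0,[(1,0)]⟩,⟨1,[(0,0),(23,0),(17,0)]⟩⟩,⟨true,0,
  ⟨6,[(11,1),(0,1),(21,0),(1,0)]⟩,⟨0,[(38,0)]⟩⟩,⟨false,1,⟨8,[(1,7),(3,1),(5,2),(4,0),(6,0),(15,0),
  (0,5)]⟩,⟨0,[(0,0)]⟩⟩,[]⟩) (.Q [0,0,0,0,0,-2,0,0,0,0,1] (.p true [0,0,1] [] (⟨0,[(29,0)]⟩,⟨0,[(28,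
  0)]⟩) .k 0 (⟨0,[]⟩,⟨0,[]⟩) .k .k) (.Q [0,-1,0,-2,1,0,1,1,0,-1,1] (.p true [0,0,1] [1] (⟨0,[(30,
  0)]⟩,⟨0,[(29,0)]⟩) .k 1 (⟨0,[]⟩,⟨0,[]⟩) .k .k) (.S ⟨1,0,[0,0,-1,-2,0,0,0,1],[0,-1,1],[1,1,-1,-1,0,
  0,0,1],(⟨0,[(20,0)]⟩,⟨0,[(30,0),(1,0)]⟩),⟨0,[(1,0)]⟩,.k,(.r (-1) ⟨9,[(0,5),(4,3),(10,5),(8,5),(11,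
  2),(3,6)]⟩ ⟨3,[(6,0),(5,5)]⟩),⟨false,0,⟨0,[]⟩,⟨1,[(21,0),(0,0),(19,0)]⟩⟩,⟨true,0,⟨0,[(40,0)]⟩,⟨6,
  [(13,1),(0,1),(21,0),(1,0)]⟩⟩,⟨true,0,⟨6,[(13,1),(0,1),(21,0),(1,0)]⟩,⟨0,[(40,0)]⟩⟩,⟨false,1,⟨1,
  [(21,0),(0,0),(19,0)]⟩,⟨0,[]⟩⟩,[.o ⟨false,1,⟨0,[(0,0),(43,0)]⟩,⟨0,[(2,0)]⟩⟩,.o ⟨false,1,⟨0,[(0,
  0)]⟩,⟨10,[(2,7),(10,1),(0,1),(12,2),(8,1)]⟩⟩,.a ⟨true,0,⟨0,[(28,0)]⟩,⟨0,[(25,0)]⟩⟩ ⟨true,0,⟨1,[(5,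
  1),(10,1),(20,0),(3,0)]⟩,⟨1,[(2,3),(2,1),(5,3),(3,13),(1,1),(19,4),(4,6)]⟩⟩ ⟨false,1,⟨0,[(0,0),
  (24,0)]⟩,⟨0,[(2,0),(25,0)]⟩⟩,.o ⟨false,0,⟨0,[(0,0),(8,0),(7,0)]⟩,⟨1,[(25,1),(11,0),(3,0)]⟩⟩]⟩)
  (.Q [0,0,0,0,0,2,0,0,0,-1,1] (.p true [0,0,1] [1] (⟨0,[(31,0)]⟩,⟨0,[(30,0)]⟩) .k 1 (⟨0,[]⟩,⟨0,
  []⟩) .k .k) (.Q [0,0,1,0,-1,0,-2,0,0,1,-2] (.p false [0,0,1] [1,0,-1] (⟨0,[(32,0)]⟩,⟨0,[(31,0)]⟩)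
  .k 2 (⟨0,[(31,0)]⟩,⟨0,[(32,0)]⟩) .k (.r 0 ⟨0,[(6,1),(34,1)]⟩ ⟨1,[(10,1),(2,1),(8,0),(0,0),(19,
  0)]⟩)) (.R ⟨0,false,false,false,[1,-1,-1],[0,-1,1],[1,0,1],(⟨0,[(21,0)]⟩,⟨0,[(1,0),(34,0)]⟩),(⟨0,
  [(22,0)]⟩,⟨1,[(1,0),(30,2)]⟩),⟨0,[(1,0)]⟩,.k,.k,(.r (-1) ⟨1,[(11,1),(30,1),(0,0),(0,0)]⟩ ⟨3,[(8,
  2),(5,1)]⟩),.k,.k,.k,⟨false,0,⟨0,[(14,0)]⟩,⟨0,[(7,0),(34,1),(0,0)]⟩⟩,⟨true,1,⟨0,[(13,0),(16,0)]⟩,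
  ⟨0,[(0,0)]⟩⟩,⟨false,0,⟨3,[(7,1),(0,0),(10,1),(22,5),(1,1)]⟩,⟨1,[(11,1),(31,0),(0,0)]⟩⟩,⟨true,1,⟨0,
  [(7,1),(5,0),(16,0),(11,1)]⟩,⟨1,[(2,0),(3,2),(11,0)]⟩⟩,⟨false,0,⟨0,[]⟩,⟨0,[]⟩⟩,⟨false,0,⟨0,[]⟩,⟨0,
  []⟩⟩,[.o ⟨false,1,⟨1,[(28,1),(10,0),(2,1),(1,0)]⟩,⟨0,[(5,0)]⟩⟩,.e ⟨false,1,⟨1,[(23,0),(0,0),(19,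
  0)]⟩,⟨5,[(18,1),(20,0),(0,3),(2,0)]⟩⟩ ⟨false,2,⟨0,[(7,0),(5,1),(4,0),(25,0)]⟩,⟨14,[(0,9),(1,3),
  (11,0),(0,3),(2,0),(10,5)]⟩⟩,.o ⟨false,0,⟨0,[(31,0)]⟩,⟨0,[(13,0)]⟩⟩,.a ⟨true,(-1),⟨0,[(0,0),(29,
  0)]⟩,⟨0,[(13,0),(3,0),(22,0),(3,0)]⟩⟩ ⟨true,0,⟨0,[]⟩,⟨0,[(46,0)]⟩⟩ ⟨false,2,⟨0,[(7,0),(5,1),(4,0),
  (25,0)]⟩,⟨0,[(0,0),(13,0)]⟩⟩]⟩) (.K ⟨0,[1,-1,-1],(-1),(-1),(⟨0,[(21,0)]⟩,⟨0,[(1,0),(34,0)]⟩),.k,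
  (.r (-1) ⟨1,[(11,1),(30,1),(0,0),(0,0)]⟩ ⟨3,[(8,2),(5,1)]⟩),.k,(.r (-1) ⟨3,[(11,5),(2,1),(8,0),(0,
  0),(19,2)]⟩ ⟨1,[(7,1),(0,0),(33,1)]⟩),.k,[⟨0,[(0,0)]⟩,⟨6,[(12,2),(5,5),(0,3),(0,0),(10,1),(12,
  2)]⟩,⟨0,[(10,0),(35,0)]⟩,⟨3,[(2,0),(3,2),(11,2)]⟩]⟩)) (.Q [0,-1,0,1,0,0,-1,-1,-1,1,-1,-1] (.p
  false [0,0,1] [1,0,0,0,-1] (⟨0,[(32,0)]⟩,⟨0,[(31,0)]⟩) .k 2 (⟨0,[(24,0)]⟩,⟨0,[(25,0)]⟩) .k (.r 0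
  ⟨3,[(7,0),(7,1),(1,1),(20,0),(3,0)]⟩ ⟨3,[(10,1),(2,1),(8,0),(0,0),(19,2)]⟩)) (.Q [0,0,0,0,0,0,0,0,
  0,-1,1,1] (.ed false [0,0,1,0,1] (.r 0 ⟨3,[(8,0),(7,1),(1,1),(20,0),(3,0)]⟩ ⟨3,[(11,1),(2,1),(8,
  0),(0,0),(19,2)]⟩)) (.Q [0,1,0,0,-1,0,-1,-1,-1,1,-1,-1] (.p false [-1,0,1,0,1] [] (⟨0,[(0,0)]⟩,⟨0,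
  [(26,0),(6,0)]⟩) .k 0 (⟨0,[]⟩,⟨0,[]⟩) .k (.r 0 ⟨3,[(9,0),(7,1),(1,1),(20,0),(3,0)]⟩ ⟨3,[(12,1),(2,
  1),(8,0),(0,0),(19,2)]⟩)) (.R ⟨1,false,false,true,[0,0,0,0,1],[1,0,-1],[0,1,0,-1],(⟨0,[(28,0)]⟩,
  ⟨0,[(27,0)]⟩),(⟨0,[(34,0)]⟩,⟨0,[(35,0)]⟩),⟨1,[(1,0),(1,0),(24,0)]⟩,.k,.k,(.r 0 ⟨2,[(20,1),(20,0),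
  (0,0),(2,0)]⟩ ⟨5,[(10,0),(6,1),(7,1),(0,1),(5,0),(0,0),(12,3)]⟩),.k,(.r 0 ⟨1,[(9,1),(10,1),(20,0),
  (3,0)]⟩ ⟨1,[(16,1),(8,0),(0,0),(19,0)]⟩),.k,⟨true,0,⟨0,[(9,0),(34,1)]⟩,⟨0,[(16,0)]⟩⟩,⟨false,0,⟨1,
  [(0,1),(8,1),(34,1),(0,0),(0,0)]⟩,⟨3,[(15,1),(9,0),(0,4),(5,1),(8,0)]⟩⟩,⟨true,0,⟨0,[(44,0)]⟩,⟨12,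
  [(4,0),(6,0),(5,2),(0,2),(21,2)]⟩⟩,⟨false,0,⟨0,[(2,0),(41,0)]⟩,⟨1,[(26,1),(3,1),(10,0),(4,0)]⟩⟩,
  ⟨false,1,⟨1,[(25,0),(0,0),(19,0)]⟩,⟨0,[]⟩⟩,⟨false,0,⟨0,[(2,0)]⟩,⟨1,[(26,1),(3,1),(10,0),(2,1),(1,
  0)]⟩⟩,[.a ⟨true,(-1),⟨1,[(4,0),(3,0),(11,0)]⟩,⟨0,[(30,0),(15,0)]⟩⟩ ⟨false,0,⟨2,[(20,1),(20,0),(0,
  0),(2,0)]⟩,⟨5,[(10,0),(6,1),(27,1),(0,3)]⟩⟩ ⟨true,(-1),⟨0,[(0,0)]⟩,⟨1,[(9,1),(16,1),(5,1),(8,0),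
  (2,1),(1,0)]⟩⟩,.o ⟨false,0,⟨0,[(8,0)]⟩,⟨1,[(30,1),(10,0),(4,0)]⟩⟩,.a ⟨true,0,⟨0,[(26,0)]⟩,⟨0,[(0,
  0),(29,0),(15,0)]⟩⟩ ⟨false,0,⟨0,[(44,0)]⟩,⟨5,[(10,0),(6,1),(27,1),(0,3)]⟩⟩ ⟨true,(-1),⟨0,[(0,0)]⟩,
  ⟨1,[(26,1),(3,1),(10,0),(4,0)]⟩⟩,.a ⟨true,0,⟨1,[(26,1),(5,0),(0,0)]⟩,⟨0,[(2,0),(6,0),(5,0),(4,
  0)]⟩⟩ ⟨true,0,⟨2,[(20,1),(20,0),(0,0),(2,0)]⟩,⟨3,[(10,0),(5,1)]⟩⟩ ⟨false,0,⟨1,[(0,1),(44,0),(0,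
  0)]⟩,⟨1,[(9,1),(16,1),(5,1),(8,0),(2,1),(1,0)]⟩⟩]⟩) (.R ⟨1,false,false,true,[0,0,0,0,1],[1,0,-1],
  [0,1,0,-1],(⟨0,[(28,0)]⟩,⟨0,[(27,0)]⟩),(⟨0,[(34,0)]⟩,⟨0,[(35,0)]⟩),⟨1,[(1,0),(1,0),(24,0)]⟩,.k,.k,
  (.r 0 ⟨2,[(20,1),(20,0),(0,0),(2,0)]⟩ ⟨9,[(0,1),(9,0),(6,3),(4,1),(2,1),(6,2),(0,0),(12,5)]⟩),.k,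
  (.r 0 ⟨1,[(9,1),(10,1),(20,0),(3,0)]⟩ ⟨1,[(16,1),(8,0),(0,0),(19,0)]⟩),.k,⟨true,0,⟨0,[(9,0),(34,
  1)]⟩,⟨0,[(16,0)]⟩⟩,⟨false,0,⟨1,[(2,1),(6,1),(10,1),(20,0),(3,0)]⟩,⟨3,[(0,3),(12,1),(3,0),(13,0),
  (0,0)]⟩⟩,⟨true,0,⟨0,[(44,0)]⟩,⟨12,[(4,0),(6,0),(5,2),(0,2),(21,2)]⟩⟩,⟨false,0,⟨0,[(2,0),(41,0)]⟩,
  ⟨0,[(0,0),(47,0)]⟩⟩,⟨false,1,⟨1,[(25,0),(0,0),(19,0)]⟩,⟨0,[]⟩⟩,⟨false,0,⟨0,[(2,0)]⟩,⟨5,[(0,6),(19,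
  2),(4,0),(5,0),(9,0),(6,2)]⟩⟩,[.e ⟨false,0,⟨2,[(20,1),(20,0),(0,0),(2,0)]⟩,⟨5,[(10,0),(6,1),(27,
  1),(0,3)]⟩⟩ ⟨false,0,⟨5,[(2,4),(10,0),(6,1),(4,0),(3,0),(10,3),(0,0)]⟩,⟨0,[(0,0)]⟩⟩,.o ⟨false,0,
  ⟨0,[(8,0)]⟩,⟨1,[(30,1),(10,0),(4,0)]⟩⟩,.e ⟨false,0,⟨0,[(44,0)]⟩,⟨5,[(10,0),(6,1),(27,1),(0,3)]⟩⟩
  ⟨false,0,⟨2,[(2,1),(17,0),(4,0),(5,0)]⟩,⟨0,[(0,0)]⟩⟩,.a ⟨true,0,⟨1,[(26,1),(5,0),(0,0)]⟩,⟨0,[(2,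
  0),(6,0),(5,0),(4,0)]⟩⟩ ⟨true,0,⟨2,[(20,1),(20,0),(0,0),(2,0)]⟩,⟨3,[(10,0),(5,1)]⟩⟩ ⟨false,0,⟨2,
  [(2,2),(17,1),(20,0),(0,0),(2,0)]⟩,⟨1,[(0,1),(31,0),(0,0)]⟩⟩]⟩)) (.K ⟨0,[1,-1,0,0,-1],(-1),0,(⟨1,
  [(0,0),(3,0),(21,0)]⟩,⟨0,[(27,0),(7,0)]⟩),(.r (-1) ⟨1,[(43,1),(0,0),(0,0)]⟩ ⟨5,[(9,0),(6,1),(14,
  0),(0,0),(14,3)]⟩),(.r (-2) ⟨1,[(24,0),(0,0),(17,3),(0,1),(0,0)]⟩ ⟨8,[(18,3),(1,6),(18,1),(0,1),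
  (0,0)]⟩),.k,(.r (-1) ⟨0,[(12,0),(32,0)]⟩ ⟨1,[(9,0),(37,1)]⟩),.k,[⟨0,[(14,0),(10,0)]⟩,⟨0,[(1,0),(6,
  0),(5,0),(4,0),(0,0),(22,2)]⟩,⟨2,[(18,0),(1,0),(4,2),(13,1),(0,1),(0,0)]⟩,⟨0,[(1,0),(27,0),(13,
  1)]⟩]⟩)) (.Q [0,0,-1,0,1,0,1,0,-1,0,1,-1] (.p true [0,0,1] [0,0,0,0,1] (⟨0,[(33,0)]⟩,⟨0,[(32,
  0)]⟩) .k 2 (⟨0,[(26,0)]⟩,⟨0,[(25,0)]⟩) .k (.r (-1) ⟨11,[(0,3),(6,5),(0,0),(9,1),(1,1),(2,3),(19,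
  0),(0,8)]⟩ ⟨3,[(11,1),(3,0),(13,0),(0,0)]⟩)) (.Q [0,0,1,0,0,0,0,0,1,-1,0,1] (.p true [0,0,0,0,1]
  [1] (⟨0,[(27,0)]⟩,⟨0,[(26,0)]⟩) .k 1 (⟨0,[]⟩,⟨0,[]⟩) .k .k) (.Q [0,-1,-2,-1,1,0,0,0,-1,1,0,-1]
  (.p false [0,0,0,0,1] [1] (⟨0,[(28,0)]⟩,⟨0,[(27,0)]⟩) .k 1 (⟨0,[]⟩,⟨0,[]⟩) .k .k) (.Q [0,0,0,0,0,
  -1,0,0,0,0,0,1] (.ed false [1,-1,0,0,1] .k) (.S ⟨1,0,[0,1,0,-1],[0,0,0,0,1],[1,2],(⟨0,[(30,0)]⟩,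
  ⟨0,[(29,0)]⟩),⟨0,[(0,0)]⟩,.k,(.r 0 ⟨2,[(22,1),(20,0),(0,0),(2,0)]⟩ ⟨5,[(12,0),(6,1),(7,1),(0,1),
  (5,0),(0,0),(12,3)]⟩),⟨false,0,⟨0,[]⟩,⟨1,[(27,0),(0,0),(19,0)]⟩⟩,⟨true,0,⟨0,[(46,0)]⟩,⟨12,[(6,0),
  (6,0),(5,2),(0,2),(21,2)]⟩⟩,⟨true,0,⟨12,[(6,0),(6,0),(5,2),(0,2),(21,2)]⟩,⟨0,[(46,0)]⟩⟩,⟨false,1,
  ⟨1,[(27,0),(0,0),(19,0)]⟩,⟨0,[]⟩⟩,[.o ⟨false,0,⟨0,[(4,0),(5,0)]⟩,⟨18,[(1,14),(6,0),(4,0),(9,9),(3,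
  3),(15,6),(4,1)]⟩⟩,.a ⟨true,0,⟨0,[(28,0),(17,0)]⟩,⟨7,[(1,3),(1,3),(2,0),(4,0),(4,2),(4,2),(1,
  3)]⟩⟩ ⟨false,0,⟨5,[(22,1),(20,0),(0,3),(2,0)]⟩,⟨1,[(27,0),(0,0),(19,0)]⟩⟩ ⟨true,0,⟨0,[(46,0)]⟩,⟨3,
  [(12,0),(5,1)]⟩⟩,.e ⟨false,0,⟨0,[(50,0)]⟩,⟨0,[(48,0)]⟩⟩ ⟨false,0,⟨0,[(46,0)]⟩,⟨6,[(1,0),(11,1),(5,
  1),(4,0),(3,0),(19,3)]⟩⟩,.o ⟨false,0,⟨0,[(2,0)]⟩,⟨0,[(3,0),(12,0)]⟩⟩]⟩) (.R ⟨0,false,false,false,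
  [0,0,0,0,1],[1,-1],[1,1,1],(⟨0,[(30,0)]⟩,⟨0,[(29,0)]⟩),(⟨0,[(40,0)]⟩,⟨0,[(41,0)]⟩),⟨0,[(0,0)]⟩,.k,
  .k,(.r 0 ⟨2,[(22,1),(20,0),(0,0),(2,0)]⟩ ⟨5,[(12,0),(6,1),(7,1),(0,1),(5,0),(0,0),(12,3)]⟩),(.r 0
  ⟨5,[(12,0),(6,1),(14,0),(0,0),(14,3)]⟩ ⟨1,[(1,0),(2,0),(5,0),(37,0)]⟩),.k,.k,⟨true,(-1),⟨6,[(22,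
  3),(0,4),(18,0),(0,1),(6,0)]⟩,⟨1,[(1,0),(2,0),(5,0),(37,0)]⟩⟩,⟨false,0,⟨3,[(1,2),(19,2),(1,1),(3,
  0),(15,0)]⟩,⟨1,[(28,1),(14,0),(3,0)]⟩⟩,⟨true,0,⟨1,[(34,0),(0,0)]⟩,⟨5,[(22,1),(20,0),(0,3),(2,
  0)]⟩⟩,⟨false,1,⟨3,[(1,2),(20,0),(0,1),(3,0),(18,4),(1,2)]⟩,⟨0,[(4,0),(3,0)]⟩⟩,⟨false,0,⟨0,[]⟩,⟨0,
  []⟩⟩,⟨false,0,⟨0,[]⟩,⟨0,[]⟩⟩,[.o ⟨false,0,⟨0,[(46,0)]⟩,⟨3,[(13,1),(19,1),(9,0),(4,0)]⟩⟩,.e ⟨false,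
  0,⟨0,[]⟩,⟨1,[(27,0),(0,0),(18,0)]⟩⟩ ⟨false,1,⟨20,[(1,13),(20,4),(0,0),(0,1),(2,6),(6,3),(13,5)]⟩,
  ⟨0,[(4,0),(3,0)]⟩⟩,.a ⟨true,0,⟨0,[(28,0)]⟩,⟨3,[(1,2),(19,2),(1,1),(3,0),(15,0)]⟩⟩ ⟨false,0,⟨1,
  [(34,0),(0,0)]⟩,⟨1,[(47,0),(0,0)]⟩⟩ ⟨true,0,⟨3,[(1,2),(20,2),(0,1),(3,0),(15,0),(2,0)]⟩,⟨0,[(4,0),
  (3,0)]⟩⟩,.o ⟨false,0,⟨0,[(2,0)]⟩,⟨0,[(3,0),(12,0)]⟩⟩]⟩)) (.Q [0,0,0,0,0,-1,0,0,0,0,0,1] (.ed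
  false [1,-1,0,0,1] .k) (.K ⟨0,[0,-1,0,0,1],(-1),(-1),(⟨0,[(0,0)]⟩,⟨0,[(29,0),(8,0)]⟩),(.r 0 ⟨2,
  [(22,1),(20,0),(0,0),(2,0)]⟩ ⟨5,[(12,0),(6,1),(7,1),(0,1),(5,0),(0,0),(12,3)]⟩),(.r (-1) ⟨4,[(4,
  1),(10,1),(6,0),(1,0),(2,1),(18,3),(0,3)]⟩ ⟨7,[(12,0),(5,1),(4,3),(24,3)]⟩),.k,(.r 0 ⟨0,[(15,0)]⟩
  ⟨1,[(12,0),(14,0),(0,0),(19,0)]⟩),.k,[⟨0,[(3,0)]⟩,⟨0,[(1,0),(19,0),(26,0)]⟩,⟨5,[(3,1),(4,1),(3,0),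
  (14,3)]⟩,⟨4,[(1,1),(2,2),(1,0),(8,1),(6,1),(8,1)]⟩]⟩) (.Q [0,-1,0,0,1,0,0,0,-1,0,0,-1] (.p false
  [0,0,0,0,1] [] (⟨0,[(30,0)]⟩,⟨0,[(29,0)]⟩) .k 0 (⟨0,[]⟩,⟨0,[]⟩) .k .k) (.Q [0,0,0,0,1,0,0,0,-1,-1,
  0,-1] (.p false [1,-1,0,0,1] [] (⟨0,[(31,0),(9,0)]⟩,⟨0,[(1,0)]⟩) (.r 0 ⟨2,[(23,1),(20,0),(0,0),(2,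
  0)]⟩ ⟨5,[(13,0),(6,1),(7,1),(0,1),(5,0),(0,0),(12,3)]⟩) 0 (⟨0,[]⟩,⟨0,[]⟩) .k .k) (.R ⟨0,false,
  false,false,[0,1,0,0,-1],[1,0,0,0,-1],[0,-1,1],(⟨0,[(2,0)]⟩,⟨0,[(32,0),(9,0)]⟩),(⟨0,[(31,0)]⟩,⟨0,
  [(32,0)]⟩),⟨0,[(32,0)]⟩,(.r (-1) ⟨5,[(14,0),(6,1),(7,1),(0,1),(5,0),(0,0),(12,3)]⟩ ⟨2,[(24,1),(20,
  0),(0,0),(2,0)]⟩),.k,.k,.k,.k,.k,⟨true,0,⟨1,[(36,0),(0,0)]⟩,⟨0,[]⟩⟩,⟨false,0,⟨0,[(40,0),(1,0)]⟩,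
  ⟨1,[(45,0),(3,0)]⟩⟩,⟨true,0,⟨0,[(48,0)]⟩,⟨12,[(8,0),(6,0),(5,2),(0,2),(21,2)]⟩⟩,⟨false,0,⟨0,[(23,
  0),(26,0)]⟩,⟨3,[(15,1),(19,1),(9,0),(4,0)]⟩⟩,⟨false,0,⟨0,[]⟩,⟨0,[]⟩⟩,⟨false,0,⟨0,[]⟩,⟨0,[]⟩⟩,[.o
  ⟨false,1,⟨0,[(1,0)]⟩,⟨4,[(3,0),(2,1),(1,0),(8,0),(12,1),(2,0),(11,1)]⟩⟩,.e ⟨false,1,⟨0,[(50,0)]⟩,
  ⟨0,[(44,0)]⟩⟩ ⟨false,1,⟨0,[(40,0),(1,0),(7,0)]⟩,⟨0,[(23,0),(21,0),(0,0)]⟩⟩,.a ⟨true,1,⟨1,[(0,0),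
  (4,0),(27,0)]⟩,⟨2,[(3,1),(4,0),(4,0),(5,0),(3,4),(6,0),(19,3)]⟩⟩ ⟨false,1,⟨1,[(36,0),(0,0),(12,
  1)]⟩,⟨5,[(24,1),(20,0),(0,3),(2,0)]⟩⟩ ⟨true,0,⟨4,[(23,2),(1,0),(0,0),(9,1),(3,0),(1,0),(7,3)]⟩,⟨0,
  [(23,0),(21,0),(0,0)]⟩⟩,.o ⟨false,1,⟨0,[(0,0)]⟩,⟨0,[(30,0)]⟩⟩]⟩) (.R ⟨2,true,false,false,[0,1],[0,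
  0,0,0,1],[1,1,1,1],(⟨0,[]⟩,⟨0,[]⟩),(⟨0,[(32,0)]⟩,⟨0,[(31,0)]⟩),⟨0,[]⟩,.k,.k,.k,(.r (-1) ⟨5,[(14,
  0),(6,1),(7,1),(0,1),(5,0),(0,0),(12,3)]⟩ ⟨2,[(24,1),(20,0),(0,0),(2,0)]⟩),.k,.k,⟨true,0,⟨3,[(14,
  0),(5,1)]⟩,⟨0,[(48,0)]⟩⟩,⟨false,0,⟨0,[(30,0)]⟩,⟨0,[(5,0),(12,0)]⟩⟩,⟨false,0,⟨0,[]⟩,⟨1,[(29,0),(0,
  0),(19,0)]⟩⟩,⟨true,(-1),⟨0,[(0,0),(22,0),(21,0)]⟩,⟨5,[(5,1),(4,1),(3,0),(14,3)]⟩⟩,⟨true,0,⟨12,[(8,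
  0),(6,0),(5,2),(0,2),(21,2)]⟩,⟨0,[(48,0)]⟩⟩,⟨false,0,⟨0,[(30,0)]⟩,⟨0,[(1,0)]⟩⟩,[]⟩)) (.R ⟨0,false,
  false,false,[0,0,0,0,1],[0,1],[1,0,2,1],(⟨0,[(31,0)]⟩,⟨0,[(30,0)]⟩),(⟨0,[(42,0)]⟩,⟨0,[(41,0)]⟩),
  ⟨0,[(1,0)]⟩,.k,.k,(.r 0 ⟨2,[(23,1),(20,0),(0,0),(2,0)]⟩ ⟨5,[(13,0),(6,1),(7,1),(0,1),(5,0),(0,0),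
  (12,3)]⟩),(.r 0 ⟨2,[(23,1),(20,0),(0,0),(2,0)]⟩ ⟨5,[(13,0),(6,1),(7,1),(0,1),(5,0),(0,0),(12,
  3)]⟩),.k,.k,⟨false,0,⟨0,[]⟩,⟨1,[(28,0),(0,0),(18,0)]⟩⟩,⟨true,1,⟨0,[(4,0),(12,0)]⟩,⟨8,[(0,1),(1,5),
  (20,5),(0,1),(4,0),(19,6)]⟩⟩,⟨true,0,⟨3,[(24,1),(10,0),(0,0),(10,1),(1,1)]⟩,⟨1,[(23,1),(20,0),(0,
  1),(2,0)]⟩⟩,⟨false,2,⟨5,[(4,1),(4,1),(3,0),(14,3),(20,5)]⟩,⟨0,[(0,0),(46,0)]⟩⟩,⟨false,0,⟨0,[]⟩,⟨0,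
  []⟩⟩,⟨false,0,⟨0,[]⟩,⟨0,[]⟩⟩,[.o ⟨false,1,⟨3,[(14,1),(19,1),(9,0),(4,0)]⟩,⟨0,[(47,0)]⟩⟩,.a ⟨true,
  1,⟨5,[(13,0),(6,1),(27,1),(0,3)]⟩,⟨0,[(22,0)]⟩⟩ ⟨true,0,⟨3,[(24,1),(10,0),(0,0),(10,1),(1,1)]⟩,⟨2,
  [(23,1),(20,0),(0,0),(2,0)]⟩⟩ ⟨false,2,⟨3,[(4,1),(4,0),(4,0),(10,0),(2,1),(19,0),(0,1)]⟩,⟨0,[(0,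
  0),(46,0)]⟩⟩,.o ⟨false,0,⟨1,[(0,1),(43,0),(4,0)]⟩,⟨0,[(28,0)]⟩⟩,.o ⟨false,0,⟨0,[(3,0)]⟩,⟨0,[(4,0),
  (12,0)]⟩⟩]⟩)))) (.Q [0,0,0,0,0,-2,0,0,0,0,0,1] (.p true [0,0,0,0,1] [] (⟨0,[(28,0)]⟩,⟨0,[(27,
  0)]⟩) .k 0 (⟨0,[]⟩,⟨0,[]⟩) .k .k) (.S ⟨1,0,[0,-1,1],[1,1,0,0,-1],[1,0,1,1],(⟨0,[(28,0),(8,0)]⟩,⟨1,
  [(0,0),(28,0)]⟩),⟨0,[(28,0)]⟩,(.r (-1) ⟨5,[(11,0),(6,1),(7,1),(0,1),(5,0),(0,0),(12,3)]⟩ ⟨2,[(21,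
  1),(20,0),(0,0),(2,0)]⟩),.k,⟨false,0,⟨0,[]⟩,⟨1,[(26,0),(0,0),(19,0)]⟩⟩,⟨true,0,⟨0,[(45,0)]⟩,⟨12,
  [(5,0),(6,0),(5,2),(0,2),(21,2)]⟩⟩,⟨true,0,⟨12,[(5,0),(6,0),(5,2),(0,2),(21,2)]⟩,⟨0,[(45,0)]⟩⟩,
  ⟨false,1,⟨1,[(26,0),(0,0),(19,0)]⟩,⟨0,[]⟩⟩,[.o ⟨false,1,⟨9,[(1,5),(20,1),(3,3),(15,2),(2,5),(1,
  4)]⟩,⟨2,[(3,1),(1,0),(3,0),(17,0),(14,0)]⟩⟩,.e ⟨false,1,⟨5,[(11,0),(6,1),(27,1),(0,3)]⟩,⟨2,[(21,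
  1),(20,0),(0,0),(2,0)]⟩⟩ ⟨false,1,⟨0,[(47,0)]⟩,⟨0,[(41,0)]⟩⟩,.a ⟨true,0,⟨0,[(1,0)]⟩,⟨1,[(27,1),(5,
  0),(0,0)]⟩⟩ ⟨true,0,⟨3,[(11,0),(5,1)]⟩,⟨2,[(21,1),(20,0),(0,0),(2,0)]⟩⟩ ⟨false,1,⟨1,[(33,0),(0,0),
  (12,1)]⟩,⟨5,[(21,1),(20,0),(0,3),(2,0)]⟩⟩,.e ⟨false,1,⟨5,[(11,0),(6,1),(27,1),(0,3)]⟩,⟨0,[(45,
  0)]⟩⟩ ⟨false,1,⟨0,[(47,0)]⟩,⟨0,[(49,0)]⟩⟩]⟩) (.K ⟨0,[0,0,1,0,-1],0,1,(⟨0,[(0,0),(5,0)]⟩,⟨0,[(29,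
  0),(5,0)]⟩),.k,(.r (-1) ⟨3,[(1,1),(1,1),(6,1),(19,1),(11,0),(2,3),(1,2)]⟩ ⟨1,[(18,0),(13,0),(0,
  0)]⟩),(.r (-1) ⟨1,[(11,0),(14,0),(0,0),(19,0)]⟩ ⟨0,[(14,0)]⟩),.k,.k,[⟨0,[(27,0)]⟩,⟨0,[(1,0),(14,
  0),(5,0),(22,2)]⟩,⟨3,[(3,3),(1,2),(3,4),(11,0)]⟩,⟨1,[(2,1),(8,0),(33,1)]⟩]⟩))) (.Q [0,0,0,-1,-1,0,
  0,0,1,0,0,1] (.p true [0,0,0,0,1] [] (⟨0,[(27,0)]⟩,⟨0,[(26,0)]⟩) .k 0 (⟨0,[]⟩,⟨0,[]⟩) .k .k) (.R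
  ⟨2,true,false,false,[0,1],[0,0,0,0,1],[1,0,1,1],(⟨0,[]⟩,⟨0,[]⟩),(⟨0,[(28,0)]⟩,⟨0,[(27,0)]⟩),⟨0,
  []⟩,.k,.k,.k,(.r (-1) ⟨5,[(10,0),(6,1),(7,1),(0,1),(5,0),(0,0),(12,3)]⟩ ⟨2,[(20,1),(20,0),(0,0),
  (2,0)]⟩),.k,.k,⟨false,1,⟨5,[(10,0),(6,1),(27,1),(0,3)]⟩,⟨2,[(20,1),(20,0),(0,0),(2,0)]⟩⟩,⟨true,
  (-1),⟨4,[(0,2),(0,0),(19,0),(4,0),(5,0)]⟩,⟨0,[(25,0)]⟩⟩,⟨true,0,⟨0,[]⟩,⟨0,[(48,0)]⟩⟩,⟨false,(-1),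
  ⟨0,[(0,0)]⟩,⟨5,[(10,0),(6,1),(7,5),(19,1),(0,3)]⟩⟩,⟨false,1,⟨5,[(10,0),(6,1),(27,1),(0,3)]⟩,⟨0,
  [(44,0)]⟩⟩,⟨true,(-1),⟨1,[(0,0),(1,0),(1,0)]⟩,⟨0,[(25,0)]⟩⟩,[]⟩) (.Q [0,0,-1,0,1,0,0,0,-1,0,0,-1]
  (.p false [0,0,0,0,1] [] (⟨0,[(28,0)]⟩,⟨0,[(27,0)]⟩) .k 0 (⟨0,[]⟩,⟨0,[]⟩) .k .k) (.Q [0,0,0,0,0,0,
  0,0,0,0,-1,1] (.ed false [1,0,-1,0,1] (.r 0 ⟨3,[(14,1),(3,0),(13,0),(0,0)]⟩ ⟨7,[(0,2),(2,2),(6,0),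
  (0,1),(9,0),(1,0),(6,0),(16,5)]⟩)) (.K ⟨0,[0,0,-1,0,1],(-1),(-1),(⟨0,[(0,0)]⟩,⟨0,[(29,0),(7,0)]⟩),
  .k,(.r 0 ⟨0,[(15,0)]⟩ ⟨1,[(12,0),(14,0),(0,0),(19,0)]⟩),(.r 0 ⟨1,[(19,0),(13,0),(0,0)]⟩ ⟨1,[(11,
  1),(34,3),(0,0),(0,0)]⟩),.k,.k,[⟨0,[(1,0),(15,1),(3,0),(0,0),(0,0),(24,0)]⟩,⟨0,[(3,0)]⟩,⟨0,[(1,0),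
  (9,0),(22,0),(11,0)]⟩,⟨1,[(3,0),(0,0),(1,0),(8,0),(17,0)]⟩]⟩) (.S ⟨1,0,[0,1,0,-1,0,0,0,-1],[1,0,
  -1,0,1],[1,2,0,0,0,0,0,-1],(⟨0,[(30,0),(5,0)]⟩,⟨0,[(0,0)]⟩),⟨0,[(25,0),(4,0)]⟩,.k,(.r 0 ⟨0,[(15,
  0)]⟩ ⟨1,[(12,0),(14,0),(0,0),(19,0)]⟩),⟨false,0,⟨0,[]⟩,⟨1,[(27,0),(0,0),(19,0)]⟩⟩,⟨true,0,⟨0,[(46,
  0)]⟩,⟨12,[(6,0),(6,0),(5,2),(0,2),(21,2)]⟩⟩,⟨true,0,⟨12,[(6,0),(6,0),(5,2),(0,2),(21,2)]⟩,⟨0,[(46,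
  0)]⟩⟩,⟨false,1,⟨1,[(27,0),(0,0),(19,0)]⟩,⟨0,[]⟩⟩,[.o ⟨false,(-1),⟨0,[(3,0),(11,0)]⟩,⟨1,[(1,1),(9,
  1),(22,1),(8,0),(4,0)]⟩⟩,.e ⟨false,0,⟨2,[(6,0),(8,1),(1,0)]⟩,⟨7,[(1,2),(2,2),(6,0),(0,1),(9,0),(1,
  0),(6,0),(16,5)]⟩⟩ ⟨false,1,⟨1,[(15,1),(11,0),(0,0),(19,0)]⟩,⟨0,[(11,0)]⟩⟩,.a ⟨true,(-1),⟨0,[(3,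
  0),(17,0),(22,0),(3,0)]⟩,⟨0,[(1,0),(32,0)]⟩⟩ ⟨false,0,⟨3,[(15,1),(3,0),(13,0),(0,0)]⟩,⟨0,[(11,0),
  (34,0),(1,0)]⟩⟩ ⟨true,0,⟨1,[(15,1),(18,0),(0,0)]⟩,⟨0,[(11,0)]⟩⟩,.o ⟨false,(-1),⟨0,[(3,0)]⟩,⟨0,
  [(17,0),(9,0)]⟩⟩]⟩)) (.Q [0,0,0,0,0,-1,0,0,0,0,0,1] (.ed false [1,-1,0,0,1] .k) (.S ⟨1,0,[0,1,0,
  -1],[0,0,0,0,1],[1,2],(⟨0,[(30,0)]⟩,⟨0,[(29,0)]⟩),⟨0,[(0,0)]⟩,.k,(.r 0 ⟨2,[(22,1),(20,0),(0,0),(2,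
  0)]⟩ ⟨5,[(12,0),(6,1),(7,1),(0,1),(5,0),(0,0),(12,3)]⟩),⟨false,0,⟨0,[]⟩,⟨1,[(27,0),(0,0),(19,
  0)]⟩⟩,⟨true,0,⟨0,[(46,0)]⟩,⟨12,[(6,0),(6,0),(5,2),(0,2),(21,2)]⟩⟩,⟨true,0,⟨12,[(6,0),(6,0),(5,2),
  (0,2),(21,2)]⟩,⟨0,[(46,0)]⟩⟩,⟨false,1,⟨1,[(27,0),(0,0),(19,0)]⟩,⟨0,[]⟩⟩,[.e ⟨false,0,⟨0,[(42,0)]⟩,
  ⟨0,[(48,0)]⟩⟩ ⟨false,0,⟨2,[(22,1),(20,0),(0,0),(2,0)]⟩,⟨5,[(12,0),(6,1),(27,1),(0,3)]⟩⟩,.o ⟨false,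
  0,⟨1,[(1,1),(41,0),(2,1),(0,0)]⟩,⟨0,[(2,0)]⟩⟩,.o ⟨false,0,⟨1,[(1,1),(41,0),(3,0)]⟩,⟨0,[(27,0)]⟩⟩,
  .a ⟨true,(-1),⟨0,[(1,0)]⟩,⟨1,[(2,1),(18,1),(25,0),(0,0)]⟩⟩ ⟨false,0,⟨5,[(22,1),(20,0),(0,3),(2,
  0)]⟩,⟨1,[(34,0),(0,0),(12,1)]⟩⟩ ⟨true,0,⟨2,[(22,1),(20,0),(0,0),(2,0)]⟩,⟨3,[(12,0),(5,1)]⟩⟩]⟩)
  (.R ⟨0,false,false,true,[0,0,0,0,1],[0,1],[1,2],(⟨0,[(30,0)]⟩,⟨0,[(29,0)]⟩),(⟨0,[(41,0)]⟩,⟨0,[(40,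
  0)]⟩),⟨0,[(0,0)]⟩,.k,.k,(.r 0 ⟨2,[(22,1),(20,0),(0,0),(2,0)]⟩ ⟨5,[(12,0),(6,1),(7,1),(0,1),(5,0),
  (0,0),(12,3)]⟩),(.r 0 ⟨2,[(22,1),(20,0),(0,0),(2,0)]⟩ ⟨5,[(12,0),(6,1),(7,1),(0,1),(5,0),(0,0),
  (12,3)]⟩),.k,.k,⟨true,0,⟨2,[(22,1),(20,0),(0,0),(2,0)]⟩,⟨3,[(23,1),(10,0),(0,0),(10,1),(1,1)]⟩⟩,
  ⟨false,2,⟨0,[(27,0),(19,0)]⟩,⟨0,[(1,0)]⟩⟩,⟨false,0,⟨0,[]⟩,⟨1,[(27,0),(0,0),(19,0)]⟩⟩,⟨true,1,⟨0,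
  [(2,0)]⟩,⟨2,[(1,2),(20,1),(20,0),(0,0),(2,0)]⟩⟩,⟨false,0,⟨0,[]⟩,⟨0,[]⟩⟩,⟨false,0,⟨0,[]⟩,⟨0,[]⟩⟩,
  [.e ⟨false,0,⟨0,[(42,0)]⟩,⟨0,[(48,0)]⟩⟩ ⟨false,1,⟨0,[(27,0),(16,0)]⟩,⟨1,[(1,1),(44,1),(0,0),(0,
  0)]⟩⟩,.o ⟨false,1,⟨3,[(13,1),(19,1),(9,0),(4,0)]⟩,⟨0,[(46,0)]⟩⟩,.o ⟨false,0,⟨1,[(1,1),(41,0),(3,
  0)]⟩,⟨0,[(27,0)]⟩⟩,.a ⟨true,(-1),⟨0,[(1,0)]⟩,⟨1,[(2,1),(18,1),(25,0),(0,0)]⟩⟩ ⟨false,0,⟨5,[(22,1),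
  (20,0),(0,3),(2,0)]⟩,⟨1,[(34,0),(0,0),(12,1)]⟩⟩ ⟨true,1,⟨0,[(27,0),(16,0)]⟩,⟨0,[(1,0),(44,
  0)]⟩⟩]⟩)))))))) (.R ⟨0,false,false,false,[0,-1,1],[1,-1],[],(⟨0,[(19,0)]⟩,⟨0,[(29,0),(1,0)]⟩),(⟨0,
  [(33,0)]⟩,⟨0,[(34,0)]⟩),⟨0,[(0,0)]⟩,.k,.k,(.r (-1) ⟨0,[(4,0),(34,2),(0,0)]⟩ ⟨3,[(5,0),(5,5)]⟩),.k,
  .k,.k,⟨true,0,⟨3,[(5,0),(5,1)]⟩,⟨0,[(39,0)]⟩⟩,⟨false,0,⟨0,[(24,0)]⟩,⟨3,[(10,1),(9,0),(0,0),(5,1),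
  (8,0)]⟩⟩,⟨true,0,⟨1,[(1,3),(2,1),(5,3),(3,13),(1,1),(19,4),(4,6)]⟩,⟨1,[(4,1),(10,1),(20,0),(3,
  0)]⟩⟩,⟨false,0,⟨1,[(1,0),(1,0),(10,1),(26,1)]⟩,⟨1,[(25,1),(10,0),(4,0)]⟩⟩,⟨false,0,⟨0,[]⟩,⟨0,[]⟩⟩,
  ⟨false,0,⟨0,[]⟩,⟨0,[]⟩⟩,[.o ⟨false,0,⟨0,[(39,0)]⟩,⟨3,[(6,1),(19,1),(9,0),(4,0)]⟩⟩,.e ⟨false,1,⟨1,
  [(40,0),(0,0)]⟩,⟨0,[(43,0)]⟩⟩ ⟨false,1,⟨1,[(24,1),(14,1),(0,0),(0,0)]⟩,⟨2,[(8,0),(1,1),(4,0),(0,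
  1),(8,0),(10,0)]⟩⟩,.a ⟨true,0,⟨0,[(27,0)]⟩,⟨0,[(24,0)]⟩⟩ ⟨false,1,⟨1,[(20,0),(0,0),(19,0)]⟩,⟨0,
  []⟩⟩ ⟨true,0,⟨0,[(24,0),(14,0)]⟩,⟨2,[(8,0),(1,1),(4,0),(0,1),(8,0),(10,0)]⟩⟩,.o ⟨false,0,⟨0,[(10,
  0),(5,0),(22,2)]⟩,⟨1,[(24,1),(11,0),(3,0)]⟩⟩]⟩))))

theorem ok26 : chk K t26 r22 = true := by decide +kernel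

noncomputable def t29 : Tre :=
  (.Q [0,0,-1,0,1,0,2,0,0,-1,2] (.p true [0,0,1] [1,0,-1] (⟨0,[(25,0)]⟩,⟨0,[(24,0)]⟩) .k 2 (⟨0,[(24,
  0)]⟩,⟨0,[(25,0)]⟩) .k (.r (-1) ⟨0,[(8,1),(25,1),(1,0)]⟩ ⟨0,[(0,0),(8,7),(1,1),(19,3),(0,3),(3,
  5)]⟩)) (.K ⟨0,[1,-1,-1],(-1),(-1),(⟨0,[(14,0)]⟩,⟨0,[(26,0),(0,0)]⟩),.k,(.r (-1) ⟨1,[(4,1),(30,1),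
  (0,0),(0,0)]⟩ ⟨1,[(9,0),(2,0),(8,0),(2,0),(12,0)]⟩),.k,(.r 0 ⟨0,[(1,0),(8,3),(1,0),(19,1),(0,1),
  (3,2)]⟩ ⟨0,[(9,0),(11,0),(2,0),(12,0)]⟩),.k,[⟨0,[(0,0)]⟩,⟨6,[(5,2),(5,5),(0,3),(0,0),(10,1),(12,
  2)]⟩,⟨0,[(3,0),(35,0)]⟩,⟨7,[(1,2),(3,1),(4,3),(0,1),(0,1),(0,1),(8,1)]⟩]⟩) (.I [0,0,1,0,0,0,0,1]
  (.S ⟨1,0,[0,0,0,-1,0,0,0,-1],[1,0,-1],[1,1,0,0,0,0,0,-1],(⟨0,[(26,0)]⟩,⟨0,[(27,0)]⟩),⟨0,[(15,0)]⟩,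
  .k,.k,⟨false,0,⟨0,[]⟩,⟨1,[(17,0),(0,0),(19,0)]⟩⟩,⟨true,0,⟨0,[(36,0)]⟩,⟨6,[(9,1),(0,1),(21,0),(1,
  0)]⟩⟩,⟨true,0,⟨6,[(9,1),(0,1),(21,0),(1,0)]⟩,⟨0,[(36,0)]⟩⟩,⟨false,1,⟨1,[(17,0),(0,0),(19,0)]⟩,⟨0,
  []⟩⟩,[.o ⟨false,0,⟨1,[(2,0),(22,1)]⟩,⟨0,[(4,0)]⟩⟩,.a ⟨true,0,⟨15,[(1,3),(0,4),(5,5),(2,3),(0,3),
  (1,3),(23,11)]⟩,⟨0,[(3,0),(7,0)]⟩⟩ ⟨true,0,⟨3,[(2,0),(5,1)]⟩,⟨0,[(0,0)]⟩⟩ ⟨false,1,⟨0,[(5,0),(32,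
  0)]⟩,⟨0,[(10,0)]⟩⟩,.o ⟨false,0,⟨0,[(6,0)]⟩,⟨3,[(7,1),(9,0),(0,0),(5,1),(8,0)]⟩⟩,.o ⟨false,0,⟨0,
  [(25,0)]⟩,⟨0,[(7,0)]⟩⟩]⟩) (.Q [0,0,-1,0,0,0,0,0,-1,1,0,-1] (.p false [0,0,0,0,1] [1] (⟨0,[(20,
  0)]⟩,⟨0,[(19,0)]⟩) .k 1 (⟨0,[]⟩,⟨0,[]⟩) .k .k) (.Q [0,0,0,0,0,1,0,0,0,-1,0,1] (.ed false [0,1,0,0,
  1] .k) (.R ⟨0,false,false,false,[1,0,0,0,-1],[1,-1],[1,1,1],(⟨0,[(21,0)]⟩,⟨0,[(22,0)]⟩),(⟨0,[(32,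
  0)]⟩,⟨0,[(33,0)]⟩),⟨0,[(0,0)]⟩,.k,.k,(.r (-1) ⟨1,[(38,1),(0,0),(0,0)]⟩ ⟨1,[(11,0),(12,0),(2,0)]⟩),
  (.r (-1) ⟨7,[(5,1),(5,1),(4,1),(2,0),(0,0),(5,3),(0,1),(12,4)]⟩ ⟨2,[(14,1),(20,0),(0,0),(2,0)]⟩),
  .k,.k,⟨true,(-1),⟨6,[(14,3),(0,4),(18,0),(0,1),(6,0)]⟩,⟨1,[(38,1),(0,0),(0,0)]⟩⟩,⟨false,0,⟨0,[(20,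
  0)]⟩,⟨3,[(1,1),(17,1),(15,0),(3,0)]⟩⟩,⟨true,(-1),⟨1,[(13,0),(0,0),(0,0),(18,0),(0,0)]⟩,⟨1,[(39,0),
  (0,0)]⟩⟩,⟨false,0,⟨0,[(20,0),(17,0)]⟩,⟨97,[(1,73),(3,7),(5,7),(3,21),(0,3),(2,23),(15,34),(4,
  52)]⟩⟩,⟨false,0,⟨0,[]⟩,⟨0,[]⟩⟩,⟨false,0,⟨0,[]⟩,⟨0,[]⟩⟩,[.o ⟨false,0,⟨0,[(38,0)]⟩,⟨3,[(5,1),(19,1),
  (9,0),(4,0)]⟩⟩,.e ⟨false,0,⟨0,[]⟩,⟨1,[(19,0),(0,0),(18,0)]⟩⟩ ⟨false,1,⟨1,[(20,1),(17,1),(0,0),(0,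
  0)]⟩,⟨28,[(1,26),(12,4),(0,12),(3,1),(14,11),(0,15)]⟩⟩,.a ⟨true,0,⟨3,[(1,2),(1,0),(15,0),(6,1)]⟩,
  ⟨0,[(20,0)]⟩⟩ ⟨false,0,⟨1,[(26,0),(0,0)]⟩,⟨1,[(39,0),(0,0)]⟩⟩ ⟨true,0,⟨0,[(20,0),(17,0)]⟩,⟨28,[(1,
  26),(12,4),(0,12),(3,1),(14,11),(0,15)]⟩⟩,.o ⟨false,0,⟨4,[(1,3),(13,2),(3,0),(15,1),(2,8)]⟩,⟨1,
  [(20,1),(14,0),(3,0)]⟩⟩]⟩) (.K ⟨0,[1,-1,0,0,-1],(-1),0,(⟨0,[(0,0)]⟩,⟨0,[(22,0),(7,0)]⟩),(.r (-1)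
  ⟨1,[(38,1),(0,0),(0,0)]⟩ ⟨1,[(11,0),(12,0),(2,0)]⟩),(.r (-2) ⟨1,[(19,0),(0,0),(17,3),(0,1),(0,
  0)]⟩ ⟨8,[(13,3),(1,6),(18,1),(0,1),(0,0)]⟩),.k,(.r (-1) ⟨0,[(7,0),(32,0)]⟩ ⟨1,[(12,1),(13,0),(0,
  0)]⟩),.k,[⟨0,[(9,0),(10,0)]⟩,⟨0,[(1,0),(13,0),(22,2)]⟩,⟨2,[(13,0),(1,0),(4,2),(13,1),(0,1),(0,
  0)]⟩,⟨4,[(1,2),(12,1),(0,0),(3,1),(18,3),(1,0)]⟩]⟩)) (.Q [0,0,0,0,0,2,0,0,0,0,-1] (.p false [0,0,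
  1] [] (⟨0,[(28,0)]⟩,⟨0,[(27,0)]⟩) .k 0 (⟨0,[]⟩,⟨0,[]⟩) .k .k) (.Q [0,0,2,0,0,0,2,0,0,-1,2] (.p
  true [0,0,1] [1,0,-1] (⟨0,[(29,0)]⟩,⟨0,[(28,0)]⟩) .k 2 (⟨0,[(28,0)]⟩,⟨0,[(29,0)]⟩) .k (.r (-1) ⟨0,
  [(12,1),(25,1),(1,0)]⟩ ⟨0,[(2,9),(0,3),(1,7),(7,21),(1,1),(19,8),(4,10)]⟩)) (.R ⟨0,false,false,
  false,[0,-1,1],[1,0,-1],[],(⟨0,[(19,0)]⟩,⟨0,[(1,0),(31,0)]⟩),(⟨0,[(29,0)]⟩,⟨0,[(30,0)]⟩),⟨0,[(1,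
  0)]⟩,.k,.k,(.r (-2) ⟨3,[(17,1),(2,0),(0,0),(3,3),(10,0),(2,7),(0,3),(0,1)]⟩ ⟨1,[(5,0),(10,1)]⟩),
  (.r (-2) ⟨1,[(17,1),(7,3),(10,0),(2,1),(0,0),(0,1)]⟩ ⟨0,[(5,0),(10,0)]⟩),.k,.k,⟨false,1,⟨1,[(13,
  1),(25,1),(0,0),(0,0)]⟩,⟨3,[(5,0),(5,1)]⟩⟩,⟨true,0,⟨2,[(4,0),(19,3),(11,0)]⟩,⟨0,[(0,0)]⟩⟩,⟨false,
  0,⟨7,[(5,2),(5,1),(4,3),(24,3)]⟩,⟨1,[(13,1),(25,3),(0,0),(0,0)]⟩⟩,⟨true,(-1),⟨3,[(3,6),(0,2),(6,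
  0),(4,0),(0,0)]⟩,⟨1,[(25,3),(10,0),(2,1),(1,0)]⟩⟩,⟨false,0,⟨0,[]⟩,⟨0,[]⟩⟩,⟨false,0,⟨0,[]⟩,⟨0,[]⟩⟩,
  [.o ⟨false,0,⟨11,[(3,3),(0,3),(0,0),(5,1),(14,3),(9,1),(4,1)]⟩,⟨1,[(25,1),(10,0),(4,0)]⟩⟩,.a
  ⟨true,0,⟨31,[(4,7),(0,8),(5,13),(2,7),(1,3),(7,15),(16,19)]⟩,⟨0,[(25,0)]⟩⟩ ⟨false,1,⟨1,[(40,0),(0,
  0)]⟩,⟨0,[(43,0)]⟩⟩ ⟨true,0,⟨5,[(3,5),(0,3),(19,3),(11,0),(4,2)]⟩,⟨4,[(0,3),(3,0),(20,4),(2,0),(7,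
  0)]⟩⟩,.e ⟨false,1,⟨1,[(20,0),(0,0),(19,0)]⟩,⟨0,[]⟩⟩ ⟨false,0,⟨5,[(3,5),(0,3),(19,3),(11,0),(4,
  2)]⟩,⟨3,[(0,1),(19,0),(0,0),(3,3),(10,0),(4,1)]⟩⟩,.o ⟨false,0,⟨4,[(0,3),(3,0),(23,0),(7,0)]⟩,⟨1,
  [(24,1),(11,0),(3,0)]⟩⟩]⟩) (.Q [0,-2,-1,0,1,0,-1,0,-1,1,-1,-1] (.p false [0,0,1] [1,0,0,0,-1] (⟨0,
  [(30,0)]⟩,⟨0,[(29,0)]⟩) .k 2 (⟨0,[(22,0)]⟩,⟨0,[(23,0)]⟩) .k (.r 0 ⟨7,[(0,0),(3,1),(12,0),(7,7),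
  (10,1)]⟩ ⟨3,[(8,1),(2,1),(8,0),(0,0),(19,2)]⟩)) (.Q [0,0,-1,0,0,0,-1,0,-1,1,-1,-1] (.p false [0,0,
  1] [1,0,0,0,-1] (⟨0,[(31,0)]⟩,⟨0,[(30,0)]⟩) .k 2 (⟨0,[(23,0)]⟩,⟨0,[(24,0)]⟩) .k (.r 0 ⟨7,[(1,0),
  (3,1),(12,0),(7,7),(10,1)]⟩ ⟨3,[(9,1),(2,1),(8,0),(0,0),(19,2)]⟩)) (.R ⟨0,false,false,false,[0,-1,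
  1],[1,0,0,0,-1],[],(⟨0,[(21,0)]⟩,⟨0,[(3,0),(31,0)]⟩),(⟨0,[(24,0)]⟩,⟨0,[(25,0)]⟩),⟨0,[(3,0)]⟩,.k,
  .k,(.r (-2) ⟨3,[(19,1),(2,0),(0,0),(3,3),(10,0),(2,7),(0,3),(0,1)]⟩ ⟨1,[(7,0),(10,1)]⟩),(.r (-1)
  ⟨3,[(19,1),(2,0),(0,0),(3,3),(10,0),(2,3),(0,1)]⟩ ⟨7,[(7,2),(5,1),(4,3),(24,3)]⟩),.k,.k,⟨false,0,
  ⟨8,[(2,0),(4,0),(9,0),(9,1),(9,0),(0,0),(0,3)]⟩,⟨1,[(22,0),(0,0),(19,0)]⟩⟩,⟨true,0,⟨0,[(0,0)]⟩,⟨0,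
  [(4,0),(24,0)]⟩⟩,⟨false,0,⟨7,[(7,2),(5,1),(4,3),(24,3)]⟩,⟨3,[(2,0),(16,0),(7,3),(10,0),(2,3),(0,
  0),(0,1)]⟩⟩,⟨true,0,⟨7,[(0,3),(0,3),(5,2),(5,1),(4,3)]⟩,⟨5,[(2,0),(1,4),(2,0),(9,1),(5,0),(3,7),
  (9,0),(0,1)]⟩⟩,⟨false,0,⟨0,[]⟩,⟨0,[]⟩⟩,⟨false,0,⟨0,[]⟩,⟨0,[]⟩⟩,[.o ⟨false,1,⟨1,[(0,0),(0,0),(27,
  1),(8,0)]⟩,⟨8,[(2,0),(1,8),(2,0),(9,0),(9,1),(9,0),(0,0),(0,3)]⟩⟩,.a ⟨true,1,⟨0,[(1,0),(27,0)]⟩,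
  ⟨0,[(4,0),(11,0),(22,0)]⟩⟩ ⟨false,1,⟨1,[(42,0),(0,0)]⟩,⟨0,[(45,0)]⟩⟩ ⟨true,1,⟨0,[(1,0)]⟩,⟨2,[(4,
  2),(2,0),(2,0),(5,0),(0,0),(0,1),(8,2),(10,0)]⟩⟩,.e ⟨false,1,⟨1,[(22,0),(0,0),(19,0)]⟩,⟨0,[]⟩⟩
  ⟨false,1,⟨0,[(1,0)]⟩,⟨3,[(4,3),(2,0),(6,0),(12,2),(1,0)]⟩⟩,.o ⟨false,0,⟨0,[(12,0),(5,0),(22,2)]⟩,
  ⟨3,[(2,0),(16,0),(18,0),(3,2)]⟩⟩]⟩) (.R ⟨0,false,false,false,[0,-1,1],[1,0,0,0,-1],[1,1,1],(⟨0,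
  [(21,0)]⟩,⟨0,[(3,0),(31,0)]⟩),(⟨0,[(24,0)]⟩,⟨0,[(25,0)]⟩),⟨0,[(3,0)]⟩,.k,.k,(.r (-2) ⟨3,[(19,1),
  (2,0),(0,0),(3,3),(10,0),(2,7),(0,3),(0,1)]⟩ ⟨1,[(7,0),(10,1)]⟩),(.r (-1) ⟨3,[(19,1),(2,0),(0,0),
  (3,3),(10,0),(2,3),(0,1)]⟩ ⟨7,[(7,2),(5,1),(4,3),(24,3)]⟩),.k,.k,⟨true,(-1),⟨1,[(16,0),(0,0),(0,
  0),(18,0),(0,0)]⟩,⟨0,[(43,0)]⟩⟩,⟨false,1,⟨0,[(1,0),(35,0)]⟩,⟨0,[(0,0)]⟩⟩,⟨false,(-1),⟨1,[(7,0),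
  (10,1),(22,1)]⟩,⟨3,[(2,0),(16,0),(7,3),(10,0),(2,3),(0,2),(0,3)]⟩⟩,⟨true,0,⟨25,[(1,21),(4,1),(0,
  12),(8,9),(1,17),(3,3),(15,3),(0,7)]⟩,⟨3,[(0,1),(1,0),(1,0),(12,1),(5,0),(3,3),(9,0),(0,1)]⟩⟩,
  ⟨false,0,⟨0,[]⟩,⟨0,[]⟩⟩,⟨false,0,⟨0,[]⟩,⟨0,[]⟩⟩,[.o ⟨false,1,⟨12,[(1,10),(5,2),(9,2),(0,3),(3,1),
  (4,5),(1,4),(8,6)]⟩,⟨4,[(0,1),(1,0),(1,2),(12,0),(19,0),(0,0),(0,1)]⟩⟩,.a ⟨true,1,⟨0,[(1,0),(27,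
  0)]⟩,⟨0,[(4,0),(11,0),(22,0)]⟩⟩ ⟨false,0,⟨0,[]⟩,⟨1,[(22,0),(0,0),(18,0)]⟩⟩ ⟨true,1,⟨0,[(1,0)]⟩,⟨1,
  [(0,1),(15,0),(0,0),(0,0),(18,0),(0,0)]⟩⟩,.e ⟨false,0,⟨1,[(29,0),(0,0)]⟩,⟨1,[(42,0),(0,0)]⟩⟩
  ⟨false,1,⟨0,[(1,0)]⟩,⟨0,[(0,0),(44,0)]⟩⟩,.o ⟨false,0,⟨0,[(12,0),(5,0),(22,2)]⟩,⟨3,[(2,0),(16,0),
  (18,0),(3,2)]⟩⟩]⟩)) (.Q [0,1,-1,-1,0,0,1,1,1,-1,1,1] (.p true [0,0,1] [1,0,0,0,-1] (⟨0,[(31,0)]⟩,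
  ⟨0,[(30,0)]⟩) .k 2 (⟨0,[(23,0)]⟩,⟨0,[(24,0)]⟩) .k (.r 0 ⟨7,[(1,0),(3,1),(12,0),(7,7),(10,1)]⟩ ⟨3,
  [(9,1),(2,1),(8,0),(0,0),(19,2)]⟩)) (.Q [0,0,0,0,0,0,0,0,0,1,-1,-1] (.ed true [0,0,1,0,1] (.r 0
  ⟨2,[(0,0),(5,0),(8,0),(6,0),(4,0)]⟩ ⟨3,[(10,1),(2,1),(8,0),(0,0),(19,2)]⟩)) (.K ⟨0,[0,0,1,0,1],
  (-1),(-1),(⟨0,[(26,0),(6,0)]⟩,⟨0,[(0,0)]⟩),.k,(.r (-1) ⟨11,[(1,7),(16,1),(1,5),(2,10),(0,2),(3,3),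
  (14,1),(0,0)]⟩ ⟨7,[(8,2),(5,1),(4,3),(24,3)]⟩),(.r 0 ⟨1,[(16,1),(13,0),(0,0)]⟩ ⟨0,[(11,0),(32,
  0)]⟩),.k,.k,[⟨0,[(23,0)]⟩,⟨1,[(1,1),(6,0),(8,1),(1,1),(24,1)]⟩,⟨13,[(3,1),(3,3),(0,2),(5,5),(8,
  13),(5,1),(9,2),(4,0)]⟩,⟨2,[(1,1),(15,1),(1,0),(4,0),(3,0),(11,0)]⟩]⟩) (.S ⟨1,0,[0,0,1],[1,1,0,0,
  -1],[0,-1,1],(⟨0,[(25,0),(8,0)]⟩,⟨0,[(0,0),(20,0)]⟩),⟨0,[(25,0)]⟩,(.r (-1) ⟨7,[(9,1),(5,1),(4,1),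
  (2,0),(0,0),(5,3),(0,1),(12,4)]⟩ ⟨16,[(1,3),(1,1),(4,1),(9,5),(4,3),(14,1),(0,1),(0,2)]⟩),.k,
  ⟨true,0,⟨0,[(42,0)]⟩,⟨6,[(15,1),(0,1),(21,0),(1,0)]⟩⟩,⟨false,0,⟨0,[(42,0)]⟩,⟨7,[(9,1),(5,1),(4,0),
  (13,0),(1,0),(6,0),(0,4)]⟩⟩,⟨false,1,⟨1,[(23,0),(0,0),(19,0)]⟩,⟨0,[]⟩⟩,⟨true,0,⟨0,[(46,0)]⟩,⟨0,
  []⟩⟩,[.o ⟨false,1,⟨0,[(23,0)]⟩,⟨20,[(1,11),(1,0),(1,8),(0,11),(0,4),(11,3),(19,2),(4,5)]⟩⟩,.e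
  ⟨false,1,⟨0,[(44,0)]⟩,⟨0,[(38,0)]⟩⟩ ⟨false,1,⟨1,[(23,0),(0,0),(19,0)]⟩,⟨16,[(1,1),(1,0),(4,0),(9,
  2),(4,1),(14,0),(0,0),(0,9)]⟩⟩,.a ⟨true,1,⟨1,[(6,0),(2,0),(7,1),(5,1),(3,0),(16,0)]⟩,⟨8,[(1,7),(5,
  3),(0,3),(8,2),(0,0),(0,6),(4,0),(19,5)]⟩⟩ ⟨false,1,⟨1,[(30,0),(0,0),(12,1)]⟩,⟨16,[(1,1),(1,0),(4,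
  0),(9,2),(4,1),(14,0),(0,0),(0,9)]⟩⟩ ⟨true,0,⟨1,[(30,0),(0,0)]⟩,⟨16,[(1,1),(1,0),(4,0),(9,2),(4,
  1),(14,0),(0,0),(0,9)]⟩⟩,.e ⟨false,1,⟨0,[(44,0)]⟩,⟨0,[(46,0)]⟩⟩ ⟨false,1,⟨1,[(23,0),(0,0),(19,
  0)]⟩,⟨0,[]⟩⟩]⟩)) (.Q [0,-1,0,0,1,0,0,0,-1,0,0,-1] (.p false [0,0,0,0,1] [] (⟨0,[(25,0)]⟩,⟨0,[(24,
  0)]⟩) .k 0 (⟨0,[]⟩,⟨0,[]⟩) .k .k) (.Q [0,-2,0,0,1,0,0,0,-1,1,0,-1] (.p false [0,0,0,0,1] [1] (⟨0,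
  [(26,0)]⟩,⟨0,[(25,0)]⟩) .k 1 (⟨0,[]⟩,⟨0,[]⟩) .k .k) (.R ⟨0,false,false,true,[0,-1,1],[0,0,0,0,1],
  [0,1],(⟨0,[(23,0)]⟩,⟨0,[(5,0),(31,0)]⟩),(⟨0,[(27,0)]⟩,⟨0,[(26,0)]⟩),⟨0,[(5,0)]⟩,.k,.k,(.r (-2) ⟨3,
  [(21,1),(2,0),(0,0),(3,3),(10,0),(2,7),(0,3),(0,1)]⟩ ⟨1,[(9,0),(10,1)]⟩),(.r (-2) ⟨3,[(21,1),(2,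
  0),(0,0),(3,3),(10,0),(2,3),(0,1),(0,3)]⟩ ⟨17,[(9,8),(8,7),(1,13),(18,3),(0,3),(0,1)]⟩),.k,.k,
  ⟨false,1,⟨1,[(44,0),(0,0)]⟩,⟨0,[(47,0)]⟩⟩,⟨true,0,⟨0,[(3,0),(0,0),(40,0)]⟩,⟨1,[(0,0),(0,0),(12,1),
  (4,2),(0,1),(19,0)]⟩⟩,⟨true,(-1),⟨17,[(9,8),(8,7),(1,13),(18,3),(0,3),(0,1)]⟩,⟨3,[(4,0),(16,0),(7,
  3),(10,0),(2,3),(0,0),(0,1)]⟩⟩,⟨false,(-1),⟨38,[(3,17),(0,18),(1,8),(0,35),(0,7),(11,12),(4,11),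
  (4,2)]⟩,⟨1,[(0,1),(28,1),(10,0),(2,1),(1,0)]⟩⟩,⟨false,0,⟨0,[]⟩,⟨0,[]⟩⟩,⟨false,0,⟨0,[]⟩,⟨0,[]⟩⟩,
  [.a ⟨true,(-1),⟨20,[(3,13),(0,6),(11,1),(0,1),(0,6),(6,6),(13,0),(1,0)]⟩,⟨0,[(0,0)]⟩⟩ ⟨false,0,⟨8,
  [(4,0),(4,0),(9,0),(9,1),(9,0),(0,0),(0,3)]⟩,⟨1,[(24,0),(0,0),(19,0)]⟩⟩ ⟨true,(-1),⟨0,[(3,0),(0,
  0)]⟩,⟨0,[(0,0),(13,0),(5,0),(22,2)]⟩⟩,.o ⟨false,0,⟨5,[(3,1),(0,0),(1,0),(18,2),(13,0),(0,1)]⟩,⟨0,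
  [(1,0)]⟩⟩,.e ⟨true,0,⟨0,[(47,0)]⟩,⟨0,[]⟩⟩ ⟨true,(-1),⟨0,[(3,0),(0,0)]⟩,⟨0,[(1,0),(29,0)]⟩⟩,.o
  ⟨false,0,⟨0,[(14,0),(5,0),(22,2)]⟩,⟨3,[(4,0),(16,0),(18,0),(3,2)]⟩⟩]⟩) (.R ⟨0,false,false,true,[0,
  -1,1],[0,0,0,0,1],[0,1,-1,-1,0,0,0,1],(⟨0,[(23,0)]⟩,⟨0,[(5,0),(31,0)]⟩),(⟨0,[(27,0)]⟩,⟨0,[(26,
  0)]⟩),⟨0,[(5,0)]⟩,.k,.k,(.r (-2) ⟨3,[(21,1),(2,0),(0,0),(3,3),(10,0),(2,7),(0,3),(0,1)]⟩ ⟨1,[(9,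
  0),(10,1)]⟩),(.r (-2) ⟨3,[(21,1),(2,0),(0,0),(3,3),(10,0),(2,3),(0,1),(0,3)]⟩ ⟨13,[(0,3),(8,6),(8,
  3),(1,9),(3,3),(16,1)]⟩),.k,.k,⟨false,2,⟨3,[(4,0),(16,0),(7,3),(10,0),(2,3),(0,2),(0,3)]⟩,⟨13,[(0,
  3),(8,6),(8,3),(1,9),(3,3),(16,1)]⟩⟩,⟨true,0,⟨1,[(0,0),(3,0),(20,0),(19,0)]⟩,⟨0,[(1,0),(12,0),(4,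
  0),(0,0),(22,0)]⟩⟩,⟨true,0,⟨0,[(47,0)]⟩,⟨0,[]⟩⟩,⟨false,(-1),⟨20,[(0,8),(3,3),(2,17),(0,4),(11,6),
  (4,11),(4,2)]⟩,⟨0,[(1,0),(27,0),(13,0),(1,0)]⟩⟩,⟨false,0,⟨0,[]⟩,⟨0,[]⟩⟩,⟨false,0,⟨0,[]⟩,⟨0,[]⟩⟩,
  [.o ⟨false,(-1),⟨0,[(0,0)]⟩,⟨0,[(24,0),(20,0)]⟩⟩,.o ⟨false,0,⟨3,[(0,0),(5,0),(18,1),(13,0),(0,
  0)]⟩,⟨0,[(1,0)]⟩⟩,.a ⟨true,0,⟨0,[(31,0)]⟩,⟨0,[(28,0)]⟩⟩ ⟨false,1,⟨3,[(4,0),(16,0),(7,3),(10,0),(2,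
  3),(0,0),(0,1)]⟩,⟨7,[(9,2),(5,1),(4,3),(24,3)]⟩⟩ ⟨true,(-1),⟨0,[(0,0),(27,0)]⟩,⟨0,[(1,0),(29,
  0)]⟩⟩,.o ⟨false,0,⟨0,[(14,0),(5,0),(22,2)]⟩,⟨3,[(4,0),(16,0),(18,0),(3,2)]⟩⟩]⟩)) (.Q [0,0,1,0,-1,
  0,0,0,1,0,0,1] (.p true [0,0,0,0,1] [] (⟨0,[(26,0)]⟩,⟨0,[(25,0)]⟩) .k 0 (⟨0,[]⟩,⟨0,[]⟩) .k .k)
  (.K ⟨0,[0,0,0,0,1],(-1),(-1),(⟨0,[(27,0)]⟩,⟨0,[(26,0)]⟩),.k,(.r 0 ⟨11,[(4,1),(4,1),(9,3),(9,3),(9,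
  1),(0,2),(3,0)]⟩ ⟨7,[(10,1),(5,1),(4,1),(2,0),(0,0),(5,3),(0,1),(12,4)]⟩),(.r 0 ⟨1,[(16,0),(12,0),
  (2,0)]⟩ ⟨1,[(43,1),(0,0),(0,0)]⟩),.k,.k,[⟨0,[(2,0),(11,0),(14,0),(13,0)]⟩,⟨0,[(0,0)]⟩,⟨0,[(24,
  0)]⟩,⟨21,[(1,12),(1,5),(12,0),(0,0),(0,2),(2,2),(3,2),(13,6)]⟩]⟩) (.Q [0,0,0,0,0,0,0,0,0,0,-1,1]
  (.ed false [1,0,-1,0,1] (.r 0 ⟨3,[(12,1),(3,0),(13,0),(0,0)]⟩ ⟨7,[(4,0),(3,1),(12,0),(7,7),(10,1),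
  (4,7)]⟩)) (.K ⟨0,[1,0,1,0,-1],0,1,(⟨0,[(27,0),(7,0)]⟩,⟨0,[(0,0)]⟩),.k,(.r (-2) ⟨3,[(22,1),(2,0),
  (0,0),(3,3),(10,0),(2,3),(0,1),(0,3)]⟩ ⟨17,[(10,8),(8,7),(1,13),(18,3),(0,3),(0,1)]⟩),(.r (-1) ⟨9,
  [(12,3),(8,1),(0,3),(7,5),(1,0),(0,2),(12,7)]⟩ ⟨0,[(13,0)]⟩),.k,.k,[⟨1,[(2,1),(38,0),(4,0)]⟩,⟨1,
  [(1,1),(8,0),(9,1),(0,1),(8,1),(15,1)]⟩,⟨3,[(2,0),(1,2),(0,0),(2,2),(0,1),(21,0),(9,1)]⟩,⟨4,[(1,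
  1),(1,1),(16,0),(4,0),(4,6),(5,1),(1,1),(7,2)]⟩]⟩) (.Q [0,0,0,0,0,-1,0,0,0,0,0,1] (.ed false [1,
  -1,0,0,1] .k) (.S ⟨1,0,[0,2,0,-1],[0,0,0,0,1],[1,1],(⟨0,[(29,0)]⟩,⟨0,[(28,0)]⟩),⟨0,[(0,0)]⟩,.k,
  (.r 0 ⟨11,[(6,1),(4,1),(9,3),(9,3),(9,1),(0,2),(3,0)]⟩ ⟨7,[(12,1),(5,1),(4,1),(2,0),(0,0),(5,3),
  (0,1),(12,4)]⟩),⟨true,0,⟨0,[]⟩,⟨0,[(49,0)]⟩⟩,⟨false,0,⟨0,[(45,0)]⟩,⟨7,[(12,1),(5,1),(4,0),(13,0),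
  (1,0),(6,0),(0,4)]⟩⟩,⟨false,1,⟨7,[(12,1),(5,1),(4,0),(13,0),(1,0),(6,0),(0,4)]⟩,⟨0,[(45,0)]⟩⟩,
  ⟨true,0,⟨0,[(49,0)]⟩,⟨0,[]⟩⟩,[.o ⟨false,(-1),⟨0,[(3,0),(16,0),(21,0)]⟩,⟨5,[(4,1),(7,1),(13,3),(19,
  0),(0,4)]⟩⟩,.a ⟨true,(-1),⟨0,[(3,0),(41,0)]⟩,⟨1,[(4,1),(26,1),(14,0),(0,0)]⟩⟩ ⟨true,0,⟨0,[]⟩,⟨1,
  [(33,0),(0,0)]⟩⟩ ⟨false,0,⟨11,[(6,1),(4,1),(9,3),(9,3),(9,1),(0,2),(3,0)]⟩,⟨7,[(12,1),(5,1),(4,0),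
  (13,0),(1,0),(6,0),(0,4)]⟩⟩,.o ⟨false,0,⟨1,[(3,1),(38,0),(4,0)]⟩,⟨0,[(26,0)]⟩⟩,.o ⟨false,0,⟨0,[(8,
  0)]⟩,⟨0,[(2,0)]⟩⟩]⟩) (.R ⟨0,false,false,false,[0,0,0,0,1],[0,1],[0,1,1],(⟨0,[(29,0)]⟩,⟨0,[(28,
  0)]⟩),(⟨0,[(40,0)]⟩,⟨0,[(39,0)]⟩),⟨0,[(0,0)]⟩,.k,.k,(.r 0 ⟨11,[(6,1),(4,1),(9,3),(9,3),(9,1),(0,
  2),(3,0)]⟩ ⟨7,[(12,1),(5,1),(4,1),(2,0),(0,0),(5,3),(0,1),(12,4)]⟩),(.r 0 ⟨11,[(6,1),(4,1),(9,3),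
  (9,3),(9,1),(0,2),(3,0)]⟩ ⟨7,[(12,1),(5,1),(4,1),(2,0),(0,0),(5,3),(0,1),(12,4)]⟩),.k,.k,⟨false,0,
  ⟨11,[(6,1),(4,1),(9,3),(9,3),(9,1),(0,2),(3,0)]⟩,⟨7,[(12,1),(5,1),(4,0),(13,0),(1,0),(6,0),(0,
  4)]⟩⟩,⟨true,1,⟨0,[(2,0)]⟩,⟨1,[(3,0),(4,0),(12,0),(0,0),(22,0),(1,0)]⟩⟩,⟨true,0,⟨1,[(33,0),(0,0)]⟩,
  ⟨8,[(6,0),(4,0),(9,0),(9,1),(9,0),(0,0),(0,3)]⟩⟩,⟨false,2,⟨5,[(4,1),(7,1),(13,3),(19,0),(0,4)]⟩,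
  ⟨0,[(3,0),(41,0)]⟩⟩,⟨false,0,⟨0,[]⟩,⟨0,[]⟩⟩,⟨false,0,⟨0,[]⟩,⟨0,[]⟩⟩,[.o ⟨false,1,⟨3,[(12,1),(19,
  1),(9,0),(4,0)]⟩,⟨0,[(45,0)]⟩⟩,.a ⟨true,1,⟨7,[(12,1),(5,1),(4,0),(13,0),(1,0),(6,0),(0,4)]⟩,⟨0,
  [(20,0)]⟩⟩ ⟨true,0,⟨1,[(33,0),(0,0)]⟩,⟨0,[]⟩⟩ ⟨false,2,⟨2,[(4,0),(7,0),(13,1),(19,1),(0,0)]⟩,⟨0,
  [(3,0),(41,0)]⟩⟩,.o ⟨false,0,⟨1,[(3,1),(38,0),(4,0)]⟩,⟨0,[(26,0)]⟩⟩,.o ⟨false,0,⟨0,[(8,0)]⟩,⟨0,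
  [(2,0)]⟩⟩]⟩)))))))) (.Q [0,0,0,0,0,0,0,0,1,-1,0,1] (.p true [0,0,0,0,1] [1] (⟨0,[(22,0)]⟩,⟨0,[(21,
  0)]⟩) .k 1 (⟨0,[]⟩,⟨0,[]⟩) .k .k) (.Q [0,0,-1,0,0,0,0,0,1,-1,0,1] (.p true [0,0,0,0,1] [1] (⟨0,
  [(23,0)]⟩,⟨0,[(22,0)]⟩) .k 1 (⟨0,[]⟩,⟨0,[]⟩) .k .k) (.Q [0,0,0,0,0,-1,0,0,0,1,0,-1] (.ed true [0,
  1,0,0,1] .k) (.S ⟨1,0,[0,-1,0,-1],[1,0,0,0,-1],[1],(⟨0,[(24,0)]⟩,⟨0,[(25,0)]⟩),⟨0,[(0,0)]⟩,.k,(.r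
  (-1) ⟨1,[(41,1),(0,0),(0,0)]⟩ ⟨1,[(14,0),(12,0),(2,0)]⟩),⟨false,0,⟨0,[]⟩,⟨1,[(22,0),(0,0),(19,
  0)]⟩⟩,⟨true,0,⟨0,[(41,0)]⟩,⟨6,[(14,1),(0,1),(21,0),(1,0)]⟩⟩,⟨true,0,⟨6,[(14,1),(0,1),(21,0),(1,
  0)]⟩,⟨0,[(41,0)]⟩⟩,⟨false,1,⟨1,[(22,0),(0,0),(19,0)]⟩,⟨0,[]⟩⟩,[.a ⟨true,1,⟨0,[(16,0),(5,0),(20,
  0)]⟩,⟨9,[(1,6),(3,0),(2,0),(7,6),(1,3),(4,2),(2,0),(12,2)]⟩⟩ ⟨true,0,⟨0,[]⟩,⟨1,[(29,0),(0,0)]⟩⟩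
  ⟨false,1,⟨1,[(41,1),(0,0),(0,0)]⟩,⟨6,[(14,1),(0,1),(21,0),(1,0)]⟩⟩,.o ⟨false,2,⟨0,[(22,0),(18,0),
  (1,0)]⟩,⟨8,[(1,8),(14,7),(1,4),(18,3),(0,3),(0,1)]⟩⟩,.o ⟨false,1,⟨0,[(22,0)]⟩,⟨0,[(2,0)]⟩⟩,.o
  ⟨false,1,⟨1,[(22,1),(6,0),(0,0)]⟩,⟨0,[(1,0)]⟩⟩]⟩) (.R ⟨0,false,false,true,[1,0,0,0,-1],[0,1],[0,0,
  1],(⟨0,[(24,0)]⟩,⟨0,[(25,0)]⟩),(⟨0,[(36,0)]⟩,⟨0,[(35,0)]⟩),⟨0,[(0,0)]⟩,.k,.k,(.r (-1) ⟨1,[(41,1),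
  (0,0),(0,0)]⟩ ⟨1,[(14,0),(12,0),(2,0)]⟩),(.r (-1) ⟨1,[(41,1),(0,0),(0,0)]⟩ ⟨1,[(14,0),(12,0),(2,
  0)]⟩),.k,.k,⟨false,1,⟨1,[(41,1),(0,0),(0,0)]⟩,⟨6,[(14,1),(0,1),(21,0),(1,0)]⟩⟩,⟨true,0,⟨0,[(1,
  0)]⟩,⟨6,[(17,5),(0,3),(0,0),(2,6),(6,1),(13,2)]⟩⟩,⟨false,0,⟨1,[(29,0),(0,0)]⟩,⟨1,[(42,0),(0,0)]⟩⟩,
  ⟨true,(-1),⟨8,[(1,8),(14,7),(1,4),(18,3),(0,3),(0,1)]⟩,⟨0,[(16,0),(5,0),(20,0)]⟩⟩,⟨false,0,⟨0,[]⟩,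
  ⟨0,[]⟩⟩,⟨false,0,⟨0,[]⟩,⟨0,[]⟩⟩,[.a ⟨true,0,⟨0,[(40,0)]⟩,⟨0,[(16,0),(26,0)]⟩⟩ ⟨true,0,⟨1,[(29,0),
  (0,0)]⟩,⟨0,[]⟩⟩ ⟨false,0,⟨6,[(1,6),(12,1),(0,1),(21,0),(1,0)]⟩,⟨0,[(16,0),(5,0),(20,0)]⟩⟩,.o
  ⟨false,1,⟨3,[(8,1),(19,1),(9,0),(4,0)]⟩,⟨0,[(41,0)]⟩⟩,.o ⟨false,1,⟨0,[(22,0)]⟩,⟨0,[(2,0)]⟩⟩,.o
  ⟨false,1,⟨1,[(22,1),(6,0),(0,0)]⟩,⟨0,[(1,0)]⟩⟩]⟩)) (.Q [0,0,-1,0,1,0,1,0,-1,0,1,-1] (.p true [0,0,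
  1] [0,0,0,0,1] (⟨0,[(31,0)]⟩,⟨0,[(30,0)]⟩) .k 2 (⟨0,[(24,0)]⟩,⟨0,[(23,0)]⟩) .k (.r (-1) ⟨0,[(14,
  0),(25,0),(1,0)]⟩ ⟨3,[(9,1),(3,0),(13,0),(0,0)]⟩)) (.Q [0,0,0,0,0,-1,0,0,0,0,0,1] (.ed false [1,
  -1,0,0,1] .k) (.K ⟨0,[0,-1,0,0,1],(-1),(-1),(⟨0,[(0,0)]⟩,⟨0,[(25,0),(8,0)]⟩),(.r 0 ⟨2,[(18,1),(20,
  0),(0,0),(2,0)]⟩ ⟨2,[(2,0),(7,0),(4,0),(8,0),(6,0),(12,1)]⟩),(.r (-1) ⟨1,[(18,1),(4,0),(0,0),(14,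
  0),(3,1)]⟩ ⟨33,[(2,1),(6,1),(5,1),(3,19),(4,1),(5,0),(0,2),(12,17)]⟩),.k,(.r 0 ⟨0,[(11,0)]⟩ ⟨9,
  [(2,1),(7,1),(5,4),(2,0),(4,1),(3,2),(2,4),(12,8)]⟩),.k,[⟨0,[(1,0)]⟩,⟨6,[(3,3),(1,1),(12,5),(0,3),
  (4,0),(19,2)]⟩,⟨7,[(1,4),(4,0),(2,0),(9,1),(0,2),(2,2),(15,0)]⟩,⟨1,[(3,0),(1,0),(11,1),(20,
  0)]⟩]⟩) (.R ⟨0,false,false,false,[0,0,0,0,1],[0,1],[1,0,2,1],(⟨0,[(26,0)]⟩,⟨0,[(25,0)]⟩),(⟨0,[(37,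
  0)]⟩,⟨0,[(36,0)]⟩),⟨0,[(0,0)]⟩,.k,.k,(.r 0 ⟨2,[(18,1),(20,0),(0,0),(2,0)]⟩ ⟨2,[(2,0),(7,0),(4,0),
  (8,0),(6,0),(12,1)]⟩),(.r 0 ⟨2,[(18,1),(20,0),(0,0),(2,0)]⟩ ⟨2,[(2,0),(7,0),(4,0),(8,0),(6,0),(12,
  1)]⟩),.k,.k,⟨false,0,⟨0,[]⟩,⟨1,[(23,0),(0,0),(18,0)]⟩⟩,⟨true,1,⟨2,[(1,2),(5,0),(19,0),(11,0)]⟩,⟨6,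
  [(3,3),(1,1),(12,5),(0,3),(4,0),(19,2)]⟩⟩,⟨true,0,⟨3,[(19,1),(10,0),(0,0),(10,1),(1,1)]⟩,⟨1,[(18,
  1),(20,0),(0,1),(2,0)]⟩⟩,⟨false,2,⟨7,[(1,4),(4,0),(2,0),(9,1),(0,2),(2,2),(15,0),(4,7)]⟩,⟨0,[(3,
  0),(13,0)]⟩⟩,⟨false,0,⟨0,[]⟩,⟨0,[]⟩⟩,⟨false,0,⟨0,[]⟩,⟨0,[]⟩⟩,[.o ⟨false,1,⟨3,[(9,1),(19,1),(9,0),
  (4,0)]⟩,⟨0,[(42,0)]⟩⟩,.a ⟨true,1,⟨23,[(2,1),(6,5),(5,5),(4,1),(3,1),(2,1),(15,2),(0,14)]⟩,⟨0,[(17,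
  0)]⟩⟩ ⟨true,0,⟨3,[(19,1),(10,0),(0,0),(10,1),(1,1)]⟩,⟨2,[(18,1),(20,0),(0,0),(2,0)]⟩⟩ ⟨false,2,⟨1,
  [(1,0),(4,0),(2,0),(10,0),(2,0),(20,0)]⟩,⟨0,[(3,0),(13,0)]⟩⟩,.o ⟨false,0,⟨0,[(3,0)]⟩,⟨0,[(23,
  0)]⟩⟩,.o ⟨false,0,⟨0,[(5,0)]⟩,⟨2,[(1,2),(5,0),(19,0),(11,0)]⟩⟩]⟩)) (.Q [0,0,0,0,0,0,1,0,1,-1,1,1]
  (.p true [0,0,1] [1,0,0,0,-1] (⟨0,[(32,0)]⟩,⟨0,[(31,0)]⟩) .k 2 (⟨0,[(24,0)]⟩,⟨0,[(25,0)]⟩) .k (.r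
  0 ⟨0,[(15,0),(25,0)]⟩ ⟨3,[(10,1),(2,1),(8,0),(0,0),(19,2)]⟩)) (.K ⟨0,[1,0,0,0,-1],0,1,(⟨0,[(25,
  0)]⟩,⟨0,[(26,0)]⟩),.k,(.r (-1) ⟨1,[(42,1),(0,0),(0,0)]⟩ ⟨1,[(15,0),(12,0),(2,0)]⟩),(.r (-1) ⟨2,
  [(2,0),(7,0),(4,0),(8,0),(6,0),(12,1)]⟩ ⟨2,[(18,1),(20,0),(0,0),(2,0)]⟩),.k,.k,[⟨0,[(0,0)]⟩,⟨0,
  [(2,0)]⟩,⟨0,[(1,0),(4,0),(2,0),(7,1),(21,0)]⟩,⟨1,[(2,1),(20,0),(0,0),(18,0)]⟩]⟩) (.Q [0,0,0,-1,1,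
  0,1,1,-1,0,1,-1] (.p true [0,0,1] [0,0,0,0,1] (⟨0,[(33,0)]⟩,⟨0,[(32,0)]⟩) .k 2 (⟨0,[(26,0)]⟩,⟨0,
  [(25,0)]⟩) .k (.r (-1) ⟨0,[(16,0),(25,0),(1,0)]⟩ ⟨3,[(11,1),(3,0),(13,0),(0,0)]⟩)) (.R ⟨1,true,
  false,false,[0,0,1],[0,0,0,0,1],[1,0,0,0,0,0,0,1],(⟨0,[(34,0)]⟩,⟨0,[(33,0)]⟩),(⟨0,[(27,0)]⟩,⟨0,
  [(26,0)]⟩),⟨0,[(23,0)]⟩,.k,.k,.k,.k,(.r (-2) ⟨1,[(0,1),(3,0),(16,0),(3,0),(18,0),(0,0)]⟩ ⟨17,[(9,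
  8),(8,7),(1,13),(18,3),(0,3),(0,1)]⟩),.k,⟨true,1,⟨3,[(0,1),(1,1),(14,1),(26,0),(0,2)]⟩,⟨2,[(9,0),
  (2,0),(5,0),(0,0),(0,1),(19,0)]⟩⟩,⟨false,0,⟨0,[(2,0),(41,0)]⟩,⟨4,[(0,3),(2,0),(3,2),(2,0),(4,
  1)]⟩⟩,⟨true,0,⟨0,[]⟩,⟨0,[(47,0)]⟩⟩,⟨false,(-1),⟨0,[(2,0),(4,0)]⟩,⟨16,[(0,17),(9,3),(5,4),(4,0),(3,
  0),(2,2),(15,0),(0,10)]⟩⟩,⟨false,1,⟨16,[(0,0),(9,3),(5,4),(4,0),(3,0),(2,2),(15,0),(0,10)]⟩,⟨0,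
  [(43,0)]⟩⟩,⟨true,(-1),⟨5,[(2,5),(4,1),(1,0),(6,1),(24,3)]⟩,⟨0,[(0,0)]⟩⟩,[]⟩) (.Q [0,0,0,-2,1,0,1,
  1,-1,0,1,-1] (.p true [0,0,1] [0,0,0,0,1] (⟨0,[(34,0)]⟩,⟨0,[(33,0)]⟩) .k 2 (⟨0,[(27,0)]⟩,⟨0,[(26,
  0)]⟩) .k (.r (-1) ⟨0,[(17,0),(25,0),(1,0)]⟩ ⟨3,[(12,1),(3,0),(13,0),(0,0)]⟩)) (.R ⟨1,true,false,
  false,[0,-1,1],[0,0,0,0,1],[1,0,-1,-1,0,0,0,1],(⟨0,[(24,0)]⟩,⟨0,[(34,0),(1,0)]⟩),(⟨0,[(28,0)]⟩,⟨0,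
  [(27,0)]⟩),⟨0,[(6,0)]⟩,.k,.k,(.r (-2) ⟨1,[(0,1),(4,0),(16,0),(3,0),(18,1)]⟩ ⟨1,[(10,0),(10,1)]⟩),
  (.r (-2) ⟨5,[(0,3),(4,0),(6,1),(9,2),(3,2),(18,2),(0,2)]⟩ ⟨17,[(10,8),(8,7),(1,13),(18,3),(0,3),
  (0,1)]⟩),(.r (-2) ⟨1,[(0,1),(2,1),(41,2),(0,0)]⟩ ⟨0,[(13,0),(7,0)]⟩),.k,⟨false,2,⟨2,[(0,1),(2,1),
  (14,0),(26,3),(0,1)]⟩,⟨17,[(10,8),(8,7),(1,13),(18,3),(0,3),(0,1)]⟩⟩,⟨true,0,⟨0,[(3,0),(41,0)]⟩,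
  ⟨1,[(0,1),(9,0),(10,1)]⟩⟩,⟨true,0,⟨0,[]⟩,⟨0,[(48,0)]⟩⟩,⟨false,(-1),⟨0,[(1,0)]⟩,⟨27,[(0,26),(3,3),
  (6,6),(5,5),(4,2),(3,2),(18,4),(0,16)]⟩⟩,⟨false,1,⟨23,[(4,1),(6,5),(5,5),(4,1),(3,1),(2,1),(15,2),
  (0,14)]⟩,⟨0,[(44,0)]⟩⟩,⟨true,(-1),⟨6,[(1,6),(15,1),(0,1),(21,0),(1,0)]⟩,⟨0,[(0,0)]⟩⟩,[]⟩) (.Q [0,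
  0,0,0,0,-1,0,0,0,0,0,1] (.ed false [1,-1,0,0,1] .k) (.S ⟨1,0,[0,2,0,-1],[0,0,0,0,1],[1,1],(⟨0,
  [(29,0)]⟩,⟨0,[(28,0)]⟩),⟨0,[(0,0)]⟩,.k,(.r 0 ⟨2,[(21,1),(20,0),(0,0),(2,0)]⟩ ⟨2,[(5,0),(7,0),(4,
  0),(8,0),(6,0),(12,1)]⟩),⟨true,0,⟨0,[]⟩,⟨0,[(49,0)]⟩⟩,⟨false,0,⟨0,[(45,0)]⟩,⟨23,[(5,1),(6,5),(5,
  5),(4,1),(3,1),(2,1),(15,2),(0,14)]⟩⟩,⟨false,1,⟨23,[(5,1),(6,5),(5,5),(4,1),(3,1),(2,1),(15,2),(0,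
  14)]⟩,⟨0,[(45,0)]⟩⟩,⟨true,0,⟨0,[(49,0)]⟩,⟨0,[]⟩⟩,[.o ⟨false,(-1),⟨1,[(2,0),(3,0),(13,2),(10,0),
  (10,1)]⟩,⟨20,[(3,6),(5,4),(2,6),(5,1),(3,0),(3,13),(20,21)]⟩⟩,.a ⟨true,(-1),⟨0,[(6,0),(13,0)]⟩,⟨1,
  [(5,1),(3,0),(2,0),(17,0),(16,0)]⟩⟩ ⟨true,0,⟨0,[]⟩,⟨1,[(33,0),(0,0)]⟩⟩ ⟨false,0,⟨2,[(21,1),(20,0),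
  (0,0),(2,0)]⟩,⟨23,[(5,1),(6,5),(5,5),(4,1),(3,1),(2,1),(15,2),(0,14)]⟩⟩,.o ⟨false,0,⟨0,[(6,0)]⟩,
  ⟨0,[(26,0)]⟩⟩,.o ⟨false,0,⟨0,[(8,0)]⟩,⟨0,[(3,0),(12,0)]⟩⟩]⟩) (.R ⟨0,false,false,false,[0,0,0,0,1],
  [0,1],[1,0,2,1],(⟨0,[(29,0)]⟩,⟨0,[(28,0)]⟩),(⟨0,[(40,0)]⟩,⟨0,[(39,0)]⟩),⟨0,[(0,0)]⟩,.k,.k,(.r 0
  ⟨2,[(21,1),(20,0),(0,0),(2,0)]⟩ ⟨2,[(5,0),(7,0),(4,0),(8,0),(6,0),(12,1)]⟩),(.r 0 ⟨2,[(21,1),(20,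
  0),(0,0),(2,0)]⟩ ⟨2,[(5,0),(7,0),(4,0),(8,0),(6,0),(12,1)]⟩),.k,.k,⟨false,0,⟨0,[]⟩,⟨1,[(26,0),(0,
  0),(18,0)]⟩⟩,⟨true,1,⟨0,[(3,0),(12,0)]⟩,⟨0,[(4,0),(28,0)]⟩⟩,⟨true,0,⟨5,[(4,1),(0,1),(16,1),(10,1),
  (8,0),(4,2)]⟩,⟨1,[(21,1),(20,0),(0,1),(2,0)]⟩⟩,⟨false,2,⟨20,[(3,6),(5,4),(2,6),(5,1),(3,0),(3,13),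
  (20,21)]⟩,⟨0,[(6,0),(13,0)]⟩⟩,⟨false,0,⟨0,[]⟩,⟨0,[]⟩⟩,⟨false,0,⟨0,[]⟩,⟨0,[]⟩⟩,[.o ⟨false,1,⟨3,
  [(12,1),(19,1),(9,0),(4,0)]⟩,⟨0,[(45,0)]⟩⟩,.a ⟨true,1,⟨23,[(5,1),(6,5),(5,5),(4,1),(3,1),(2,1),
  (15,2),(0,14)]⟩,⟨0,[(20,0)]⟩⟩ ⟨true,0,⟨5,[(4,1),(0,1),(16,1),(10,1),(8,0),(4,2)]⟩,⟨2,[(21,1),(20,
  0),(0,0),(2,0)]⟩⟩ ⟨false,2,⟨15,[(3,5),(5,3),(2,5),(5,1),(7,9),(19,6),(0,8)]⟩,⟨0,[(6,0),(13,0)]⟩⟩,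
  .o ⟨false,0,⟨0,[(6,0)]⟩,⟨0,[(26,0)]⟩⟩,.o ⟨false,0,⟨0,[(8,0)]⟩,⟨0,[(3,0),(12,0)]⟩⟩]⟩))))))) (.Q [0,
  0,0,0,0,-1,0,0,0,0,0,1] (.ed false [1,-1,0,0,1] .k) (.S ⟨1,0,[0,0,1],[1,1,0,0,-1],[0,-1,1],(⟨0,
  [(23,0),(8,0)]⟩,⟨0,[(0,0)]⟩),⟨0,[(23,0)]⟩,(.r (-1) ⟨7,[(7,1),(5,1),(4,1),(2,0),(0,0),(5,3),(0,1),
  (12,4)]⟩ ⟨2,[(16,1),(20,0),(0,0),(2,0)]⟩),.k,⟨true,0,⟨0,[(40,0)]⟩,⟨6,[(13,1),(0,1),(21,0),(1,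
  0)]⟩⟩,⟨false,0,⟨0,[(40,0)]⟩,⟨7,[(7,1),(5,1),(4,0),(13,0),(1,0),(6,0),(0,4)]⟩⟩,⟨false,1,⟨1,[(21,0),
  (0,0),(19,0)]⟩,⟨0,[]⟩⟩,⟨true,0,⟨0,[(44,0)]⟩,⟨0,[]⟩⟩,[.a ⟨true,0,⟨0,[(1,0)]⟩,⟨0,[(22,0)]⟩⟩ ⟨false,
  1,⟨1,[(21,0),(0,0),(19,0)]⟩,⟨5,[(16,1),(20,0),(0,3),(2,0)]⟩⟩ ⟨true,0,⟨1,[(28,0),(0,0)]⟩,⟨0,[]⟩⟩,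
  .o ⟨false,1,⟨1,[(1,1),(35,0),(4,0)]⟩,⟨2,[(3,1),(12,0),(5,0),(14,0),(0,1)]⟩⟩,.o ⟨false,1,⟨1,[(1,1),
  (35,0),(3,0)]⟩,⟨0,[(3,0)]⟩⟩,.e ⟨false,1,⟨0,[(42,0)]⟩,⟨0,[(44,0)]⟩⟩ ⟨false,1,⟨1,[(21,0),(0,0),(19,
  0)]⟩,⟨0,[]⟩⟩]⟩) (.R ⟨0,false,false,false,[0,0,0,0,1],[1,-1],[1,1,1],(⟨0,[(24,0)]⟩,⟨0,[(23,0)]⟩),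
  (⟨0,[(34,0)]⟩,⟨0,[(35,0)]⟩),⟨0,[(0,0)]⟩,.k,.k,(.r 0 ⟨2,[(16,1),(20,0),(0,0),(2,0)]⟩ ⟨7,[(7,1),(5,
  1),(4,1),(2,0),(0,0),(5,3),(0,1),(12,4)]⟩),(.r 0 ⟨1,[(13,0),(12,0),(2,0)]⟩ ⟨1,[(40,1),(0,0),(0,
  0)]⟩),.k,.k,⟨true,(-1),⟨6,[(16,3),(0,4),(18,0),(0,1),(6,0)]⟩,⟨1,[(40,1),(0,0),(0,0)]⟩⟩,⟨false,0,
  ⟨0,[(1,0)]⟩,⟨1,[(22,1),(14,0),(3,0)]⟩⟩,⟨true,0,⟨1,[(28,0),(0,0)]⟩,⟨5,[(16,1),(20,0),(0,3),(2,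
  0)]⟩⟩,⟨false,1,⟨0,[(1,0),(38,0),(1,0)]⟩,⟨0,[(3,0),(34,0)]⟩⟩,⟨false,0,⟨0,[]⟩,⟨0,[]⟩⟩,⟨false,0,⟨0,
  []⟩,⟨0,[]⟩⟩,[.o ⟨false,0,⟨0,[(40,0)]⟩,⟨3,[(7,1),(19,1),(9,0),(4,0)]⟩⟩,.e ⟨false,0,⟨0,[]⟩,⟨1,[(21,
  0),(0,0),(18,0)]⟩⟩ ⟨false,1,⟨1,[(1,1),(38,1),(0,0),(0,0)]⟩,⟨0,[(3,0),(34,0)]⟩⟩,.a ⟨true,0,⟨0,[(22,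
  0)]⟩,⟨0,[(1,0)]⟩⟩ ⟨false,0,⟨1,[(28,0),(0,0)]⟩,⟨1,[(41,0),(0,0)]⟩⟩ ⟨true,0,⟨0,[(1,0),(38,0)]⟩,⟨0,
  [(3,0),(34,0)]⟩⟩,.o ⟨false,0,⟨0,[(3,0)]⟩,⟨1,[(1,1),(35,0),(3,0)]⟩⟩]⟩)))))))

theorem ok29 : chk K t29 r20 = true := by decide +kernel

noncomputable def t31 : Tre :=
  (.R ⟨1,true,false,false,[1,0,-1],[0,1],[1,1,0,0,0,0,0,-1],(⟨0,[(23,0)]⟩,⟨0,[(24,0)]⟩),(⟨0,[(28,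
  0)]⟩,⟨0,[(27,0)]⟩),⟨0,[(12,0)]⟩,.k,.k,.k,.k,(.r (-1) ⟨1,[(2,1),(30,1),(0,0),(0,0)]⟩ ⟨1,[(7,0),(2,
  0),(8,0),(2,0),(12,0)]⟩),.k,⟨false,0,⟨0,[(0,0),(3,0),(26,0)]⟩,⟨9,[(1,3),(8,1),(0,3),(7,5),(1,0),
  (0,2),(12,7)]⟩⟩,⟨true,1,⟨0,[(4,0)]⟩,⟨6,[(3,2),(5,5),(0,3),(0,0),(10,1),(12,2)]⟩⟩,⟨false,0,⟨0,[]⟩,
  ⟨1,[(14,0),(0,0),(19,0)]⟩⟩,⟨true,1,⟨0,[(1,0)]⟩,⟨15,[(0,8),(5,0),(1,5),(1,0),(7,0),(1,5),(10,2)]⟩⟩,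
  ⟨true,0,⟨6,[(6,1),(0,1),(21,0),(1,0)]⟩,⟨0,[(33,0)]⟩⟩,⟨false,2,⟨5,[(1,5),(4,1),(0,1),(26,0),(0,
  4)]⟩,⟨0,[(0,0)]⟩⟩,[]⟩)

theorem ok31 : chk K t31 r19 = true := by decide +kernel

noncomputable def t33 : Tre :=
  (.R ⟨1,false,false,false,[1,-1],[0,-1,1],[1,0,1],(⟨0,[(26,0)]⟩,⟨0,[(27,0)]⟩),(⟨0,[(12,0)]⟩,⟨0,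
  [(22,0),(1,0)]⟩),⟨0,[(11,0),(0,0)]⟩,.k,.k,(.r (-1) ⟨0,[(32,1),(0,0)]⟩ ⟨2,[(5,0),(0,0),(2,0),(10,
  0),(0,0),(12,0)]⟩),.k,.k,.k,⟨true,(-1),⟨0,[(0,0),(2,0),(5,0),(22,0)]⟩,⟨1,[(6,1),(25,3),(0,0),(0,
  0)]⟩⟩,⟨false,1,⟨0,[(3,0)]⟩,⟨1,[(10,0),(13,0),(1,0)]⟩⟩,⟨false,0,⟨3,[(9,1),(10,0),(0,0),(10,1),(1,
  1)]⟩,⟨0,[(32,0),(0,0)]⟩⟩,⟨true,1,⟨1,[(18,1),(10,0),(4,0)]⟩,⟨20,[(0,16),(4,3),(1,1),(1,1),(0,1),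
  (17,4),(1,4)]⟩⟩,⟨false,0,⟨11,[(5,0),(0,0),(2,6),(10,0),(0,0),(12,6)]⟩,⟨0,[(32,1),(0,0)]⟩⟩,⟨false,
  2,⟨7,[(3,1),(1,1),(0,3),(6,0),(0,0),(3,5),(10,2),(4,9)]⟩,⟨0,[(0,0)]⟩⟩,[.o ⟨false,1,⟨1,[(18,1),(10,
  0),(2,1),(1,0)]⟩,⟨9,[(0,5),(3,3),(4,1),(7,3),(11,4),(0,5),(3,2)]⟩⟩,.a ⟨true,1,⟨0,[(18,0),(13,0),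
  (1,0)]⟩,⟨19,[(0,14),(4,4),(1,0),(1,3),(0,0),(6,2),(12,13)]⟩⟩ ⟨false,1,⟨1,[(13,0),(0,0),(19,0)]⟩,
  ⟨5,[(8,1),(20,0),(0,3),(2,0)]⟩⟩ ⟨true,2,⟨1,[(18,1),(10,0),(2,1),(0,0),(0,1)]⟩,⟨8,[(0,8),(6,3),(1,
  6),(18,1),(0,1),(0,0)]⟩⟩,.o ⟨false,0,⟨1,[(20,0),(0,0)]⟩,⟨1,[(29,0),(3,0)]⟩⟩,.e ⟨true,0,⟨0,[]⟩,⟨0,
  [(36,0)]⟩⟩ ⟨true,2,⟨1,[(18,1),(10,0),(2,1),(0,1),(0,0)]⟩,⟨8,[(0,8),(6,3),(1,6),(18,1),(0,1),(0,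
  0)]⟩⟩]⟩)

theorem ok33 : chk K t33 r18 = true := by decide +kernel

noncomputable def t35 : Tre :=
  (.Q [0,0,-1,1,1,0,2,1,0,-1,2] (.p true [0,0,1] [1,0,-1] (⟨0,[(22,0)]⟩,⟨0,[(21,0)]⟩) .k 2 (⟨0,[(21,
  0)]⟩,⟨0,[(22,0)]⟩) .k (.r 0 ⟨2,[(0,5),(6,3),(20,1),(0,1),(2,1)]⟩ ⟨2,[(2,1),(0,3),(3,1),(10,1),(13,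
  0),(0,1)]⟩)) (.Q [0,1,0,0,0,0,1,1,0,-1,1] (.p true [0,0,1] [1] (⟨0,[(23,0)]⟩,⟨0,[(22,0)]⟩) .k 1
  (⟨0,[]⟩,⟨0,[]⟩) .k .k) (.S ⟨1,0,[0,1,1,0,0,0,0,1],[0,1,1],[1,0,1,1,0,0,0,1],(⟨0,[(24,0),(0,0)]⟩,
  ⟨0,[(12,0)]⟩),⟨0,[(24,0)]⟩,.k,.k,⟨true,0,⟨0,[]⟩,⟨0,[(37,0)]⟩⟩,⟨false,0,⟨0,[(33,0)]⟩,⟨5,[(6,1),(0,
  1),(26,0),(0,4)]⟩⟩,⟨false,1,⟨5,[(6,1),(0,1),(26,0),(0,4)]⟩,⟨0,[(33,0)]⟩⟩,⟨true,0,⟨0,[(37,0)]⟩,⟨0,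
  []⟩⟩,[.o ⟨false,0,⟨0,[(0,0)]⟩,⟨0,[(20,0),(14,0)]⟩⟩,.a ⟨true,0,⟨1,[(1,0),(0,0),(6,0)]⟩,⟨2,[(5,1),
  (3,0),(8,1),(1,0),(14,0)]⟩⟩ ⟨true,0,⟨0,[(2,0)]⟩,⟨1,[(4,0),(0,0),(3,0),(10,0),(12,0)]⟩⟩ ⟨false,0,
  ⟨1,[(0,0),(1,0),(15,0),(14,0)]⟩,⟨2,[(4,0),(0,1),(3,0),(10,0),(13,1),(0,0)]⟩⟩,.o ⟨false,1,⟨0,[(4,
  0)]⟩,⟨0,[(22,0)]⟩⟩,.o ⟨false,1,⟨3,[(4,1),(9,0),(0,0),(5,1),(8,0)]⟩,⟨0,[(3,0)]⟩⟩]⟩) (.S ⟨1,0,[0,1,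
  1,0,0,0,0,1],[0,1,1],[0,0,1,0,0,0,0,1],(⟨0,[(24,0),(0,0)]⟩,⟨0,[(12,0)]⟩),⟨0,[(24,0)]⟩,.k,.k,⟨true,
  0,⟨0,[(33,0)]⟩,⟨6,[(6,1),(0,1),(21,0),(1,0)]⟩⟩,⟨false,0,⟨0,[(33,0)]⟩,⟨5,[(6,1),(0,1),(26,0),(0,
  4)]⟩⟩,⟨false,1,⟨1,[(14,0),(0,0),(19,0)]⟩,⟨0,[]⟩⟩,⟨true,0,⟨0,[(37,0)]⟩,⟨0,[]⟩⟩,[.e ⟨false,0,⟨1,[(1,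
  0),(0,0),(0,1),(5,0)]⟩,⟨1,[(0,0),(3,0),(15,0),(0,0),(12,0)]⟩⟩ ⟨false,0,⟨11,[(2,1),(4,5),(1,3),(1,
  1),(7,3),(10,2),(3,0)]⟩,⟨0,[(0,0),(3,0)]⟩⟩,.a ⟨true,0,⟨1,[(1,0),(0,0),(6,0)]⟩,⟨11,[(0,8),(5,1),(2,
  1),(1,0),(2,1),(0,1),(4,0),(8,1)]⟩⟩ ⟨true,0,⟨0,[(2,0),(30,0)]⟩,⟨1,[(4,0),(0,0),(2,0),(11,0)]⟩⟩
  ⟨false,0,⟨1,[(1,0),(0,0),(0,1),(5,0)]⟩,⟨1,[(0,0),(3,0),(15,0),(0,0),(12,0)]⟩⟩,.o ⟨false,1,⟨0,[(4,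
  0)]⟩,⟨0,[(22,0)]⟩⟩,.o ⟨false,1,⟨3,[(4,1),(9,0),(0,0),(5,1),(8,0)]⟩,⟨0,[(3,0)]⟩⟩]⟩)) (.R ⟨2,true,
  false,false,[0,1],[0,1,1],[0,1,1],(⟨0,[]⟩,⟨0,[]⟩),(⟨0,[(23,0),(0,0)]⟩,⟨0,[(11,0)]⟩),⟨0,[]⟩,.k,.k,
  .k,.k,.k,.k,⟨true,0,⟨1,[(3,0),(0,0),(3,0),(10,0),(12,0)]⟩,⟨0,[(1,0)]⟩⟩,⟨false,1,⟨0,[(20,0),(12,
  0)]⟩,⟨0,[(2,0)]⟩⟩,⟨false,0,⟨0,[(32,0)]⟩,⟨5,[(5,1),(0,1),(26,0),(0,4)]⟩⟩,⟨true,0,⟨0,[(1,0),(1,0),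
  (3,0)]⟩,⟨0,[(19,0)]⟩⟩,⟨true,0,⟨0,[(36,0)]⟩,⟨0,[]⟩⟩,⟨false,1,⟨2,[(1,0),(16,1),(1,0),(9,1),(3,2)]⟩,
  ⟨0,[(0,0),(2,0)]⟩⟩,[]⟩))

theorem ok35 : chk K t35 r17 = true := by decide +kernel

noncomputable def t39 : Tre :=
  (.S ⟨1,0,[0,0,0,-1,0,0,0,1],[0,0,1],[1,1,0,0,0,0,0,1],(⟨0,[(23,0)]⟩,⟨0,[(22,0)]⟩),⟨0,[(12,0)]⟩,.k,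
  .k,⟨false,0,⟨0,[]⟩,⟨1,[(13,0),(0,0),(19,0)]⟩⟩,⟨true,0,⟨0,[(32,0)]⟩,⟨6,[(5,1),(0,1),(21,0),(1,
  0)]⟩⟩,⟨true,0,⟨6,[(5,1),(0,1),(21,0),(1,0)]⟩,⟨0,[(32,0)]⟩⟩,⟨false,1,⟨1,[(13,0),(0,0),(19,0)]⟩,⟨0,
  []⟩⟩,[.e ⟨false,0,⟨4,[(4,2),(1,1),(21,0),(1,0)]⟩,⟨0,[(0,0)]⟩⟩ ⟨false,0,⟨0,[(4,0)]⟩,⟨7,[(0,6),(4,
  2),(0,1),(21,0),(4,0)]⟩⟩,.o ⟨false,1,⟨1,[(4,1),(15,1),(8,0),(4,0)]⟩,⟨0,[(1,0)]⟩⟩,.o ⟨false,1,⟨1,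
  [(20,1),(8,0),(3,0)]⟩,⟨0,[(3,0)]⟩⟩,.a ⟨true,0,⟨0,[(20,0)]⟩,⟨0,[(17,0)]⟩⟩ ⟨false,0,⟨0,[(2,0),(27,
  0),(3,0)]⟩,⟨1,[(0,1),(19,0),(0,0)]⟩⟩ ⟨true,0,⟨0,[(4,0)]⟩,⟨1,[(5,0),(13,0),(0,0)]⟩⟩]⟩)

theorem ok39 : chk K t39 l26 = true := by decide +kernel

noncomputable def t40 : Tre :=
  (.Q [0,0,1,0,-1,0,-1,0,0,1,-1] (.p false [0,0,1] [1] (⟨0,[(25,0)]⟩,⟨0,[(24,0)]⟩) .k 1 (⟨0,[]⟩,⟨0,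
  []⟩) .k .k) (.S ⟨1,0,[0,0,0,-1,0,0,0,-1],[1,0,-1],[1,1,0,0,0,0,0,-1],(⟨0,[(25,0)]⟩,⟨0,[(26,0)]⟩),
  ⟨0,[(14,0)]⟩,.k,.k,⟨false,0,⟨0,[]⟩,⟨3,[(2,0),(6,0),(13,0),(0,0),(12,1)]⟩⟩,⟨true,0,⟨0,[(35,0)]⟩,⟨6,
  [(8,1),(0,1),(21,0),(1,0)]⟩⟩,⟨true,0,⟨6,[(8,1),(0,1),(21,0),(1,0)]⟩,⟨0,[(35,0)]⟩⟩,⟨false,1,⟨3,[(2,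
  0),(6,0),(13,0),(0,0),(12,1)]⟩,⟨0,[]⟩⟩,[.e ⟨false,1,⟨3,[(2,1),(5,0),(13,0),(0,0),(7,1)]⟩,⟨0,[(3,
  0),(33,0)]⟩⟩ ⟨false,1,⟨0,[(1,0),(33,0)]⟩,⟨2,[(7,1),(1,0),(2,0),(20,0),(3,0)]⟩⟩,.o ⟨false,1,⟨0,
  [(22,0),(12,0),(1,0)]⟩,⟨1,[(3,1),(19,1),(8,0),(0,1),(3,0)]⟩⟩,.o ⟨false,0,⟨0,[(6,0)]⟩,⟨1,[(23,1),
  (8,0),(3,0)]⟩⟩,.a ⟨true,(-1),⟨0,[(0,0)]⟩,⟨0,[(23,0),(12,0)]⟩⟩ ⟨false,1,⟨0,[(1,0)]⟩,⟨3,[(5,2),(6,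
  0),(8,0),(2,0),(12,3)]⟩⟩ ⟨true,1,⟨0,[(1,0),(33,0)]⟩,⟨2,[(3,0),(1,0),(3,0),(2,0)]⟩⟩]⟩) (.Q [0,-1,0,
  -2,0,0,1,1,0,0,1] (.p true [0,0,1] [] (⟨0,[(26,0)]⟩,⟨0,[(25,0)]⟩) .k 0 (⟨0,[]⟩,⟨0,[]⟩) .k .k) (.R
  ⟨1,true,false,true,[0,0,1],[0,1],[1,1,0,0,0,0,0,1],(⟨0,[(27,0)]⟩,⟨0,[(26,0)]⟩),(⟨0,[(31,0)]⟩,⟨0,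
  [(30,0)]⟩),⟨0,[(16,0)]⟩,.k,.k,.k,.k,(.r (-1) ⟨13,[(0,4),(2,5),(4,11),(5,3),(7,2),(9,3),(0,1)]⟩ ⟨1,
  [(0,0),(1,1),(10,1),(9,0)]⟩),.k,⟨true,0,⟨0,[(8,0)]⟩,⟨0,[(0,0),(1,0),(10,0),(9,0)]⟩⟩,⟨false,1,⟨1,
  [(21,1),(11,0),(3,0)]⟩,⟨0,[(24,0)]⟩⟩,⟨false,0,⟨0,[]⟩,⟨3,[(3,0),(6,0),(13,0),(0,0),(12,1)]⟩⟩,⟨true,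
  0,⟨0,[(5,0)]⟩,⟨1,[(0,0),(21,0)]⟩⟩,⟨true,0,⟨6,[(9,1),(0,1),(21,0),(1,0)]⟩,⟨0,[(36,0)]⟩⟩,⟨false,1,
  ⟨5,[(3,1),(1,5),(4,1),(2,1),(23,0),(0,2)]⟩,⟨0,[(0,0)]⟩⟩,[]⟩) (.I [0,-1,0,-1,1,0,0,-1] (.S ⟨1,0,[0,
  0,1,0,0,0,0,1],[0,1,1],[1,1,1,1,0,0,0,1],(⟨0,[(28,0),(0,0)]⟩,⟨0,[(16,0)]⟩),⟨0,[(28,0)]⟩,.k,.k,
  ⟨false,0,⟨0,[]⟩,⟨3,[(4,0),(6,0),(13,0),(0,0),(12,1)]⟩⟩,⟨true,0,⟨0,[(37,0)]⟩,⟨6,[(10,1),(0,1),(21,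
  0),(1,0)]⟩⟩,⟨true,0,⟨6,[(10,1),(0,1),(21,0),(1,0)]⟩,⟨0,[(37,0)]⟩⟩,⟨false,1,⟨3,[(4,0),(6,0),(13,0),
  (0,0),(12,1)]⟩,⟨0,[]⟩⟩,[.a ⟨true,0,⟨1,[(5,0),(3,0),(15,1),(9,0),(3,0)]⟩,⟨0,[(6,0),(5,0),(26,0)]⟩⟩
  ⟨true,(-1),⟨2,[(5,0),(1,0),(3,0),(2,0)]⟩,⟨0,[(0,0)]⟩⟩ ⟨false,0,⟨1,[(7,0),(3,0),(27,0)]⟩,⟨0,[(3,
  0)]⟩⟩,.o ⟨false,1,⟨6,[(2,2),(6,5),(4,1),(8,0),(1,2),(8,1),(4,3)]⟩,⟨0,[(24,0)]⟩⟩,.o ⟨false,1,⟨0,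
  [(2,0)]⟩,⟨0,[(26,0)]⟩⟩,.o ⟨false,1,⟨5,[(2,1),(1,0),(6,0),(13,3),(8,1)]⟩,⟨0,[(8,0)]⟩⟩]⟩) (.Q [0,0,
  0,0,0,2,0,0,0,0,-1] (.p false [0,0,1] [] (⟨0,[(28,0)]⟩,⟨0,[(27,0)]⟩) .k 0 (⟨0,[]⟩,⟨0,[]⟩) .k .k)
  (.R ⟨0,false,false,false,[0,-1,1],[1,-1],[],(⟨0,[(18,0)]⟩,⟨0,[(0,0),(31,0)]⟩),(⟨0,[(32,0)]⟩,⟨0,
  [(33,0)]⟩),⟨0,[(0,0)]⟩,.k,.k,(.r (-1) ⟨46,[(5,24),(4,56),(3,5),(9,14),(2,14),(6,1),(0,2)]⟩ ⟨0,[(4,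
  0),(10,0),(22,0)]⟩),.k,.k,.k,⟨true,0,⟨5,[(5,0),(6,0),(2,1),(10,0),(0,0)]⟩,⟨0,[(38,0)]⟩⟩,⟨false,0,
  ⟨0,[(23,0)]⟩,⟨5,[(3,1),(1,0),(6,0),(13,3),(8,1)]⟩⟩,⟨false,1,⟨1,[(5,0),(9,0),(9,0),(0,0),(13,0)]⟩,
  ⟨0,[(10,0)]⟩⟩,⟨true,0,⟨0,[(7,0),(5,0),(26,0)]⟩,⟨4,[(3,2),(4,2),(6,0),(8,1),(10,0)]⟩⟩,⟨false,0,⟨0,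
  []⟩,⟨0,[]⟩⟩,⟨false,0,⟨0,[]⟩,⟨0,[]⟩⟩,[.o ⟨false,0,⟨0,[(38,0)]⟩,⟨17,[(2,1),(0,1),(1,4),(6,6),(2,3),
  (19,7),(4,1)]⟩⟩,.e ⟨false,1,⟨1,[(39,0),(0,0)]⟩,⟨0,[(42,0)]⟩⟩ ⟨false,1,⟨7,[(5,2),(3,0),(0,2),(3,0),
  (8,6),(16,2)]⟩,⟨7,[(3,5),(4,2),(2,2),(2,1),(0,2),(10,1),(8,1)]⟩⟩,.a ⟨true,0,⟨0,[(26,0)]⟩,⟨0,[(23,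
  0)]⟩⟩ ⟨false,1,⟨3,[(5,0),(6,0),(13,0),(0,0),(12,1)]⟩,⟨0,[]⟩⟩ ⟨true,0,⟨7,[(5,0),(3,2),(0,0),(3,2),
  (8,4),(16,0)]⟩,⟨7,[(3,5),(4,2),(2,2),(2,1),(0,2),(10,1),(8,1)]⟩⟩,.o ⟨false,0,⟨0,[(3,0),(11,0),(22,
  2)]⟩,⟨1,[(23,1),(11,0),(3,0)]⟩⟩]⟩) (.Q [0,0,0,-2,0,0,1,1,0,-1,1] (.p true [0,0,1] [1] (⟨0,[(29,
  0)]⟩,⟨0,[(28,0)]⟩) .k 1 (⟨0,[]⟩,⟨0,[]⟩) .k .k) (.S ⟨1,0,[0,0,-1,-2,0,0,0,1],[0,-1,1],[1,1,-1,-1,0,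
  0,0,1],(⟨0,[(19,0)]⟩,⟨0,[(29,0),(1,0)]⟩),⟨0,[(1,0)]⟩,.k,(.r (-1) ⟨9,[(0,2),(5,4),(4,8),(5,2),(7,
  2),(9,0)]⟩ ⟨0,[(5,0),(10,0),(22,0)]⟩),⟨false,0,⟨0,[]⟩,⟨3,[(6,0),(6,0),(13,0),(0,0),(12,1)]⟩⟩,
  ⟨true,0,⟨0,[(39,0)]⟩,⟨6,[(12,1),(0,1),(21,0),(1,0)]⟩⟩,⟨true,0,⟨6,[(12,1),(0,1),(21,0),(1,0)]⟩,⟨0,
  [(39,0)]⟩⟩,⟨false,1,⟨3,[(6,0),(6,0),(13,0),(0,0),(12,1)]⟩,⟨0,[]⟩⟩,[.o ⟨false,0,⟨0,[(0,0)]⟩,⟨9,[(3,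
  5),(2,5),(6,1),(2,3),(0,1),(18,0),(4,0)]⟩⟩,.o ⟨false,1,⟨19,[(0,17),(5,3),(18,5),(1,1),(0,5),(7,0),
  (4,10)]⟩,⟨0,[(3,0)]⟩⟩,.a ⟨true,0,⟨0,[(27,0)]⟩,⟨0,[(24,0)]⟩⟩ ⟨false,0,⟨0,[(11,0)]⟩,⟨1,[(6,0),(9,0),
  (9,0),(0,0),(13,0)]⟩⟩ ⟨true,0,⟨10,[(0,2),(5,0),(3,2),(0,8),(3,2),(25,0)]⟩,⟨0,[(12,0)]⟩⟩,.o ⟨false,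
  0,⟨0,[(0,0),(4,0),(10,0),(22,0)]⟩,⟨1,[(24,1),(11,0),(3,0)]⟩⟩]⟩) (.Q [0,0,0,0,0,2,0,0,0,-1,1] (.p
  true [0,0,1] [1] (⟨0,[(30,0)]⟩,⟨0,[(29,0)]⟩) .k 1 (⟨0,[]⟩,⟨0,[]⟩) .k .k) (.Q [0,0,1,0,-1,0,-2,0,0,
  1,-2] (.p false [0,0,1] [1,0,-1] (⟨0,[(31,0)]⟩,⟨0,[(30,0)]⟩) .k 2 (⟨0,[(30,0)]⟩,⟨0,[(31,0)]⟩) .k
  (.r 1 ⟨0,[(3,0),(6,0),(31,0)]⟩ ⟨1,[(7,1),(5,0),(13,0),(0,1),(0,0)]⟩)) (.R ⟨0,false,false,false,[1,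
  -1,-1],[0,-1,1],[1,1,1],(⟨0,[(20,0)]⟩,⟨0,[(1,0),(33,0)]⟩),(⟨0,[(21,0)]⟩,⟨0,[(31,0),(1,0)]⟩),⟨0,
  [(1,0)]⟩,.k,.k,(.r (-2) ⟨17,[(8,19),(8,7),(9,1),(1,0),(0,2),(7,3),(6,9)]⟩ ⟨0,[(13,0),(4,0)]⟩),.k,
  .k,.k,⟨false,0,⟨1,[(14,0),(13,0),(0,0)]⟩,⟨1,[(13,1),(28,0),(0,0)]⟩⟩,⟨true,1,⟨0,[(6,0),(22,0)]⟩,⟨0,
  [(0,0)]⟩⟩,⟨false,(-1),⟨7,[(11,6),(6,4),(8,0),(2,0),(12,3)]⟩,⟨0,[(8,0)]⟩⟩,⟨true,0,⟨0,[(4,0),(1,0),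
  (4,0),(17,0),(13,0)]⟩,⟨1,[(2,0),(14,0),(10,2),(14,0)]⟩⟩,⟨false,0,⟨0,[]⟩,⟨0,[]⟩⟩,⟨false,0,⟨0,[]⟩,
  ⟨0,[]⟩⟩,[.e ⟨false,0,⟨0,[(45,0)]⟩,⟨1,[(42,0),(0,0)]⟩⟩ ⟨false,1,⟨1,[(4,0),(1,3),(4,0),(4,1),(26,
  1)]⟩,⟨11,[(0,9),(7,5),(5,5),(3,1),(0,1),(9,0),(0,0)]⟩⟩,.o ⟨false,1,⟨1,[(13,1),(15,1),(8,0),(4,
  0)]⟩,⟨0,[(10,0)]⟩⟩,.o ⟨false,0,⟨0,[(30,0)]⟩,⟨0,[(6,0)]⟩⟩,.a ⟨true,(-1),⟨0,[(0,0),(28,0)]⟩,⟨0,[(6,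
  0),(9,0),(22,0),(3,0)]⟩⟩ ⟨false,0,⟨0,[]⟩,⟨3,[(8,0),(6,0),(13,0),(0,0),(12,1)]⟩⟩ ⟨true,1,⟨1,[(4,0),
  (1,3),(4,0),(4,1),(26,1)]⟩,⟨1,[(0,1),(13,0),(13,0),(0,0)]⟩⟩]⟩) (.K ⟨0,[1,-1,-1],(-1),0,(⟨0,[(20,
  0)]⟩,⟨0,[(1,0),(33,0)]⟩),.k,(.r (-2) ⟨17,[(8,19),(8,7),(9,1),(1,0),(0,2),(7,3),(6,9)]⟩ ⟨0,[(13,0),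
  (4,0)]⟩),.k,(.r (-2) ⟨0,[(8,0),(19,0),(0,0)]⟩ ⟨0,[(13,1),(4,0)]⟩),.k,[⟨0,[(0,0)]⟩,⟨6,[(12,2),(4,
  5),(0,3),(0,0),(10,1),(12,2)]⟩,⟨8,[(0,2),(3,4),(10,0),(2,0),(8,2),(10,2)]⟩,⟨15,[(8,5),(5,6),(2,
  11),(1,3),(8,2),(1,4)]⟩]⟩)) (.Q [0,0,0,0,0,-1,0,0,0,0,0,1] (.ed false [1,-1,0,0,1] .k) (.Q [0,-2,
  0,1,1,0,-1,-1,-1,1,-1,-1] (.p false [0,0,1] [1,0,0,0,-1] (⟨0,[(32,0)]⟩,⟨0,[(31,0)]⟩) .k 2 (⟨0,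
  [(24,0)]⟩,⟨0,[(25,0)]⟩) .k (.r 1 ⟨1,[(4,1),(11,1),(21,0),(4,0)]⟩ ⟨5,[(8,6),(6,0),(2,1),(10,3),(0,
  3)]⟩)) (.Q [0,0,0,0,0,0,-1,-1,-1,1,-1,-1] (.p false [0,0,1] [1,0,0,0,-1] (⟨0,[(33,0)]⟩,⟨0,[(32,
  0)]⟩) .k 2 (⟨0,[(25,0)]⟩,⟨0,[(26,0)]⟩) .k (.r 1 ⟨1,[(5,1),(11,1),(21,0),(4,0)]⟩ ⟨5,[(9,6),(6,0),
  (2,1),(10,3),(0,3)]⟩)) (.R ⟨1,false,false,false,[0,0,0,0,1],[1,0,-1],[1,1],(⟨0,[(27,0)]⟩,⟨0,[(26,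
  0)]⟩),(⟨0,[(33,0)]⟩,⟨0,[(34,0)]⟩),⟨0,[(2,0)]⟩,.k,.k,(.r 0 ⟨2,[(8,0),(4,0),(5,0),(10,0),(13,0)]⟩
  ⟨11,[(10,4),(6,4),(2,3),(10,4),(0,4),(12,5)]⟩),.k,(.r 0 ⟨46,[(10,0),(4,37),(3,3),(9,9),(2,9),(6,
  16),(0,1)]⟩ ⟨1,[(10,0),(9,0),(9,0),(0,0),(13,0)]⟩),.k,⟨true,(-1),⟨0,[(11,0)]⟩,⟨0,[(30,0),(0,0),
  (13,0)]⟩⟩,⟨false,0,⟨4,[(0,3),(0,0),(4,1),(8,2),(28,0)]⟩,⟨5,[(8,1),(1,0),(6,0),(7,5),(5,3),(8,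
  1)]⟩⟩,⟨true,0,⟨0,[]⟩,⟨0,[(47,0)]⟩⟩,⟨false,1,⟨0,[(0,0),(44,0)]⟩,⟨4,[(8,2),(4,2),(6,0),(4,4),(3,1),
  (10,0)]⟩⟩,⟨false,1,⟨17,[(4,1),(3,1),(1,4),(6,6),(2,3),(24,9)]⟩,⟨0,[(43,0)]⟩⟩,⟨false,1,⟨0,[(1,0)]⟩,
  ⟨6,[(8,1),(4,3),(1,0),(3,0),(5,6),(3,1),(1,2),(8,2)]⟩⟩,[.a ⟨true,0,⟨4,[(1,1),(2,0),(14,1),(5,1),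
  (4,1)]⟩,⟨3,[(6,1),(1,0),(6,0),(2,0),(10,0),(1,1),(13,1)]⟩⟩ ⟨false,0,⟨5,[(8,0),(4,0),(5,0),(10,0),
  (10,2),(2,0)]⟩,⟨3,[(10,0),(6,0),(13,0),(0,0),(12,1)]⟩⟩ ⟨true,0,⟨0,[(0,0)]⟩,⟨2,[(8,0),(4,1),(1,0),
  (4,0),(4,2),(5,1),(8,0),(4,0)]⟩⟩,.o ⟨false,1,⟨0,[(30,0),(14,0)]⟩,⟨4,[(8,2),(4,2),(6,0),(8,1),(10,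
  0)]⟩⟩,.a ⟨true,0,⟨0,[(25,0)]⟩,⟨5,[(0,3),(0,1),(4,1),(1,0),(6,2),(2,0),(10,0),(1,3)]⟩⟩ ⟨false,0,⟨0,
  []⟩,⟨3,[(10,0),(6,0),(13,0),(0,0),(12,1)]⟩⟩ ⟨true,0,⟨0,[(0,0)]⟩,⟨4,[(8,2),(4,2),(6,0),(4,4),(3,1),
  (10,0)]⟩⟩,.a ⟨true,0,⟨1,[(25,1),(5,0),(0,0)]⟩,⟨1,[(1,1),(4,0),(1,1),(4,0),(4,1)]⟩⟩ ⟨true,0,⟨5,[(8,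
  0),(4,0),(5,0),(10,0),(10,2),(2,0)]⟩,⟨1,[(31,0),(0,0)]⟩⟩ ⟨false,1,⟨4,[(0,2),(0,1),(8,0),(4,0),(28,
  0)]⟩,⟨2,[(8,0),(4,1),(1,0),(4,0),(4,2),(5,1),(8,0),(4,0)]⟩⟩]⟩) (.R ⟨1,false,false,false,[0,0,0,0,
  1],[1,0,-1],[1,1],(⟨0,[(27,0)]⟩,⟨0,[(26,0)]⟩),(⟨0,[(33,0)]⟩,⟨0,[(34,0)]⟩),⟨0,[(2,0)]⟩,.k,.k,(.r 0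
  ⟨2,[(8,0),(4,0),(5,0),(10,0),(13,0)]⟩ ⟨11,[(10,4),(6,4),(2,3),(10,4),(0,4),(12,5)]⟩),.k,(.r 0 ⟨46,
  [(10,0),(4,37),(3,3),(9,9),(2,9),(6,16),(0,1)]⟩ ⟨1,[(10,0),(9,0),(9,0),(0,0),(13,0)]⟩),.k,⟨true,
  (-1),⟨0,[(11,0)]⟩,⟨0,[(30,0),(0,0),(13,0)]⟩⟩,⟨false,0,⟨5,[(1,5),(6,0),(4,6),(5,0),(10,0),(10,2),
  (2,0)]⟩,⟨5,[(0,1),(9,1),(5,0),(8,3),(3,0),(1,2),(8,1)]⟩⟩,⟨true,0,⟨0,[]⟩,⟨0,[(47,0)]⟩⟩,⟨false,1,⟨0,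
  [(1,0),(41,0)]⟩,⟨0,[(0,0),(46,0)]⟩⟩,⟨false,1,⟨17,[(4,1),(3,1),(1,4),(6,6),(2,3),(24,9)]⟩,⟨0,[(43,
  0)]⟩⟩,⟨false,1,⟨0,[(1,0)]⟩,⟨1,[(0,0),(18,0),(5,0),(3,0),(10,0)]⟩⟩,[.e ⟨false,0,⟨5,[(8,0),(4,0),(5,
  0),(10,0),(10,2),(2,0)]⟩,⟨3,[(10,0),(6,0),(13,0),(0,0),(12,1)]⟩⟩ ⟨false,1,⟨2,[(1,1),(17,0),(4,0),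
  (5,0),(8,0),(4,0)]⟩,⟨0,[(0,0)]⟩⟩,.o ⟨false,1,⟨0,[(30,0),(14,0)]⟩,⟨4,[(8,2),(4,2),(6,0),(8,1),(10,
  0)]⟩⟩,.e ⟨false,0,⟨0,[]⟩,⟨3,[(10,0),(6,0),(13,0),(0,0),(12,1)]⟩⟩ ⟨false,1,⟨11,[(1,7),(8,1),(5,0),
  (2,3),(4,3),(5,0),(1,2)]⟩,⟨0,[(0,0)]⟩⟩,.a ⟨true,0,⟨1,[(25,1),(5,0),(0,0)]⟩,⟨1,[(1,1),(4,0),(1,1),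
  (4,0),(4,1)]⟩⟩ ⟨true,0,⟨5,[(8,0),(4,0),(5,0),(10,0),(10,2),(2,0)]⟩,⟨1,[(31,0),(0,0)]⟩⟩ ⟨false,1,
  ⟨2,[(1,2),(6,0),(4,0),(5,0),(10,0),(13,0)]⟩,⟨1,[(0,1),(30,0),(0,0)]⟩⟩]⟩)) (.Q [0,0,-1,0,1,0,0,0,
  -1,0,0,-1] (.p false [0,0,0,0,1] [] (⟨0,[(26,0)]⟩,⟨0,[(25,0)]⟩) .k 0 (⟨0,[]⟩,⟨0,[]⟩) .k .k) (.Q
  [0,0,1,0,0,0,0,0,1,-1,0,1] (.p true [0,0,0,0,1] [1] (⟨0,[(27,0)]⟩,⟨0,[(26,0)]⟩) .k 1 (⟨0,[]⟩,⟨0,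
  []⟩) .k .k) (.Q [0,0,-1,0,1,0,1,0,-1,0,1,-1] (.p true [0,0,1] [0,0,0,0,1] (⟨0,[(35,0)]⟩,⟨0,[(34,
  0)]⟩) .k 2 (⟨0,[(28,0)]⟩,⟨0,[(27,0)]⟩) .k (.r 0 ⟨1,[(7,0),(6,0),(31,1)]⟩ ⟨3,[(11,1),(5,0),(13,0),
  (0,1),(0,0),(14,3)]⟩)) (.Q [0,0,0,0,0,0,0,0,-1,1,0,-1] (.p false [0,0,0,0,1] [1] (⟨0,[(29,0)]⟩,⟨0,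
  [(28,0)]⟩) .k 1 (⟨0,[]⟩,⟨0,[]⟩) .k .k) (.S ⟨1,0,[0,0,1],[1,1,0,0,-1],[0,-1,1],(⟨0,[(29,0),(8,0)]⟩,
  ⟨0,[(5,0)]⟩),⟨0,[(29,0)]⟩,(.r (-1) ⟨11,[(13,4),(6,4),(2,3),(10,4),(0,4),(12,5)]⟩ ⟨2,[(11,0),(4,0),
  (5,0),(10,0),(13,0)]⟩),.k,⟨true,0,⟨0,[(46,0)]⟩,⟨6,[(19,1),(0,1),(21,0),(1,0)]⟩⟩,⟨false,0,⟨0,[(46,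
  0)]⟩,⟨17,[(7,1),(3,1),(1,4),(6,6),(2,3),(24,9)]⟩⟩,⟨false,1,⟨3,[(13,0),(6,0),(13,0),(0,0),(12,1)]⟩,
  ⟨0,[]⟩⟩,⟨true,0,⟨0,[(50,0)]⟩,⟨0,[]⟩⟩,[.a ⟨true,0,⟨0,[(0,0)]⟩,⟨0,[(28,0)]⟩⟩ ⟨false,1,⟨3,[(13,0),(6,
  0),(13,0),(0,0),(12,1)]⟩,⟨5,[(11,0),(4,0),(5,0),(10,0),(10,2),(2,0)]⟩⟩ ⟨true,0,⟨1,[(34,0),(0,0)]⟩,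
  ⟨0,[]⟩⟩,.o ⟨false,1,⟨1,[(0,1),(42,0),(4,0)]⟩,⟨2,[(4,0),(10,0),(12,1),(14,0)]⟩⟩,.o ⟨false,1,⟨0,[(3,
  0)]⟩,⟨0,[(2,0)]⟩⟩,.e ⟨false,1,⟨0,[(48,0)]⟩,⟨0,[(50,0)]⟩⟩ ⟨false,1,⟨3,[(13,0),(6,0),(13,0),(0,0),
  (12,1)]⟩,⟨0,[]⟩⟩]⟩) (.K ⟨0,[0,-1,0,0,1],(-1),(-1),(⟨0,[(5,0)]⟩,⟨0,[(29,0),(8,0)]⟩),(.r 0 ⟨2,[(11,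
  0),(4,0),(5,0),(10,0),(13,0)]⟩ ⟨11,[(13,4),(6,4),(2,3),(10,4),(0,4),(12,5)]⟩),(.r (-1) ⟨7,[(4,1),
  (8,4),(4,2),(3,2),(1,0),(2,1),(14,2),(0,0)]⟩ ⟨11,[(13,0),(6,0),(2,7),(10,0),(0,0),(12,5)]⟩),.k,
  (.r (-1) ⟨6,[(4,0),(8,3),(8,0),(4,0),(5,3),(0,2),(7,1)]⟩ ⟨3,[(16,0),(1,1),(1,0),(2,1),(24,2)]⟩),
  .k,[⟨0,[(1,0)]⟩,⟨6,[(0,3),(1,1),(19,5),(0,3),(4,0),(19,2)]⟩,⟨5,[(3,3),(9,0),(6,0),(2,1),(3,1)]⟩,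
  ⟨1,[(4,0),(16,0),(6,0),(4,0)]⟩]⟩)) (.R ⟨1,false,false,true,[0,0,0,0,1],[0,0,1],[1,1],(⟨0,[(29,
  0)]⟩,⟨0,[(28,0)]⟩),(⟨0,[(36,0)]⟩,⟨0,[(35,0)]⟩),⟨0,[(4,0)]⟩,.k,.k,(.r 0 ⟨2,[(10,0),(4,0),(5,0),(10,
  0),(13,0)]⟩ ⟨11,[(12,4),(6,4),(2,3),(10,4),(0,4),(12,5)]⟩),.k,(.r (-1) ⟨6,[(3,0),(8,3),(8,0),(4,
  0),(5,3),(0,2),(7,1)]⟩ ⟨3,[(15,0),(1,1),(1,0),(2,1),(24,2)]⟩),.k,⟨false,1,⟨0,[(11,0)]⟩,⟨1,[(15,0),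
  (3,0),(27,0)]⟩⟩,⟨true,1,⟨0,[(2,0),(30,0)]⟩,⟨0,[(0,0)]⟩⟩,⟨true,0,⟨0,[]⟩,⟨0,[(49,0)]⟩⟩,⟨false,1,⟨1,
  [(2,1),(5,0),(6,0),(17,1),(13,1)]⟩,⟨0,[(0,0),(10,0)]⟩⟩,⟨false,1,⟨17,[(6,1),(3,1),(1,4),(6,6),(2,
  3),(24,9)]⟩,⟨0,[(45,0)]⟩⟩,⟨false,1,⟨0,[(2,0),(5,0),(24,0),(13,0)]⟩,⟨0,[(0,0),(10,0),(33,0)]⟩⟩,[.o
  ⟨false,0,⟨4,[(10,2),(4,2),(6,0),(8,1),(10,0)]⟩,⟨0,[(32,0),(14,0)]⟩⟩,.a ⟨true,0,⟨3,[(8,1),(1,0),(6,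
  0),(2,0),(10,0),(1,1),(13,1)]⟩,⟨1,[(6,0),(14,0),(10,0),(14,0)]⟩⟩ ⟨true,0,⟨0,[]⟩,⟨1,[(33,0),(0,
  0)]⟩⟩ ⟨false,1,⟨3,[(2,3),(5,1),(1,0),(6,0),(2,0),(10,0),(1,1),(13,1)]⟩,⟨0,[(0,0),(10,0)]⟩⟩,.o
  ⟨false,0,⟨0,[(0,0),(9,0)]⟩,⟨0,[(26,0)]⟩⟩,.o ⟨false,0,⟨0,[(1,0)]⟩,⟨0,[(2,0)]⟩⟩]⟩)) (.S ⟨1,0,[0,-1,
  1],[1,1,0,0,-1],[1,0,1,1],(⟨0,[(27,0),(8,0)]⟩,⟨0,[(3,0)]⟩),⟨0,[(27,0)]⟩,(.r (-1) ⟨11,[(11,4),(6,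
  4),(2,3),(10,4),(0,4),(12,5)]⟩ ⟨2,[(0,0),(1,0),(8,0),(2,0),(16,0)]⟩),.k,⟨false,0,⟨0,[]⟩,⟨3,[(11,
  0),(6,0),(13,0),(0,0),(12,1)]⟩⟩,⟨true,0,⟨0,[(44,0)]⟩,⟨6,[(17,1),(0,1),(21,0),(1,0)]⟩⟩,⟨true,0,⟨6,
  [(17,1),(0,1),(21,0),(1,0)]⟩,⟨0,[(44,0)]⟩⟩,⟨false,1,⟨3,[(11,0),(6,0),(13,0),(0,0),(12,1)]⟩,⟨0,
  []⟩⟩,[.o ⟨false,1,⟨9,[(0,5),(20,1),(3,3),(15,2),(2,5),(1,4)]⟩,⟨2,[(2,0),(10,0),(12,1),(14,0)]⟩⟩,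
  .e ⟨false,1,⟨17,[(5,1),(3,1),(1,4),(6,6),(2,3),(24,9)]⟩,⟨2,[(0,0),(1,0),(8,0),(2,0),(16,0)]⟩⟩
  ⟨false,1,⟨0,[(46,0)]⟩,⟨0,[(40,0)]⟩⟩,.a ⟨true,0,⟨0,[(0,0)]⟩,⟨1,[(26,1),(5,0),(0,0)]⟩⟩ ⟨true,0,⟨5,
  [(11,0),(6,0),(2,1),(10,0),(0,0)]⟩,⟨2,[(0,0),(1,0),(8,0),(2,0),(16,0)]⟩⟩ ⟨false,1,⟨1,[(32,0),(0,
  0),(12,1)]⟩,⟨3,[(0,0),(1,0),(28,0),(10,0),(2,0)]⟩⟩,.e ⟨false,1,⟨17,[(5,1),(3,1),(1,4),(6,6),(2,3),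
  (24,9)]⟩,⟨0,[(44,0)]⟩⟩ ⟨false,1,⟨0,[(46,0)]⟩,⟨0,[(48,0)]⟩⟩]⟩)) (.S ⟨1,0,[0,0,1],[1,1,0,0,-1],[0,
  -1,1],(⟨0,[(26,0),(8,0)]⟩,⟨0,[(2,0)]⟩),⟨0,[(26,0)]⟩,(.r (-1) ⟨11,[(10,4),(6,4),(2,3),(10,4),(0,4),
  (12,5)]⟩ ⟨2,[(8,0),(4,0),(5,0),(10,0),(13,0)]⟩),.k,⟨true,0,⟨0,[(43,0)]⟩,⟨6,[(16,1),(0,1),(21,0),
  (1,0)]⟩⟩,⟨false,0,⟨0,[(43,0)]⟩,⟨17,[(4,1),(3,1),(1,4),(6,6),(2,3),(24,9)]⟩⟩,⟨false,1,⟨3,[(10,0),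
  (6,0),(13,0),(0,0),(12,1)]⟩,⟨0,[]⟩⟩,⟨true,0,⟨0,[(47,0)]⟩,⟨0,[]⟩⟩,[.o ⟨false,1,⟨0,[(24,0)]⟩,⟨1,[(0,
  1),(39,0),(3,0)]⟩⟩,.e ⟨false,1,⟨0,[(45,0)]⟩,⟨0,[(39,0)]⟩⟩ ⟨false,1,⟨3,[(10,0),(6,0),(13,0),(0,0),
  (12,1)]⟩,⟨5,[(8,0),(4,0),(5,0),(10,0),(10,2),(2,0)]⟩⟩,.a ⟨true,1,⟨0,[(18,0),(5,0),(16,0),(3,0)]⟩,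
  ⟨0,[(0,0)]⟩⟩ ⟨false,1,⟨1,[(31,0),(0,0),(12,1)]⟩,⟨5,[(8,0),(4,0),(5,0),(10,0),(10,2),(2,0)]⟩⟩
  ⟨true,0,⟨1,[(31,0),(0,0)]⟩,⟨5,[(8,0),(4,0),(5,0),(10,0),(10,2),(2,0)]⟩⟩,.o ⟨false,1,⟨0,[(24,0)]⟩,
  ⟨1,[(0,1),(39,0),(3,0)]⟩⟩]⟩))) (.Q [0,0,1,0,-1,0,0,0,1,0,0,1] (.p true [0,0,0,0,1] [] (⟨0,[(25,
  0)]⟩,⟨0,[(24,0)]⟩) .k 0 (⟨0,[]⟩,⟨0,[]⟩) .k .k) (.R ⟨0,false,false,false,[0,1,0,0,-1],[0,1],[0,1],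
  (⟨0,[(1,0)]⟩,⟨0,[(26,0),(9,0)]⟩),(⟨0,[(37,0)]⟩,⟨0,[(36,0)]⟩),⟨0,[(26,0)]⟩,(.r (-1) ⟨11,[(9,4),(6,
  4),(2,3),(10,4),(0,4),(12,5)]⟩ ⟨2,[(7,0),(4,0),(5,0),(10,0),(13,0)]⟩),.k,.k,.k,.k,.k,⟨true,0,⟨2,
  [(7,0),(4,0),(5,0),(10,0),(13,0)]⟩,⟨3,[(19,1),(10,0),(0,0),(10,1),(1,1)]⟩⟩,⟨false,0,⟨0,[(0,0),(42,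
  0)]⟩,⟨0,[(23,0)]⟩⟩,⟨false,0,⟨2,[(7,0),(4,0),(5,0),(10,0),(13,0)]⟩,⟨5,[(9,0),(6,0),(2,1),(10,0),(0,
  0),(12,5)]⟩⟩,⟨true,(-1),⟨5,[(0,5),(6,0),(4,0),(5,0),(10,0),(10,2),(2,0)]⟩,⟨0,[(23,0)]⟩⟩,⟨false,0,
  ⟨0,[]⟩,⟨0,[]⟩⟩,⟨false,0,⟨0,[]⟩,⟨0,[]⟩⟩,[.o ⟨false,1,⟨17,[(6,1),(0,1),(1,4),(6,6),(2,3),(19,7),(4,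
  1)]⟩,⟨0,[(42,0)]⟩⟩,.e ⟨false,1,⟨1,[(9,0),(6,0)]⟩,⟨0,[]⟩⟩ ⟨false,0,⟨0,[(0,0),(39,0),(3,0)]⟩,⟨2,[(7,
  0),(4,0),(5,0),(4,2),(5,0),(13,0)]⟩⟩,.o ⟨false,2,⟨1,[(23,1),(15,0),(3,0)]⟩,⟨0,[(0,0)]⟩⟩,.a ⟨true,
  1,⟨0,[(23,0)]⟩,⟨0,[(0,0),(16,0),(22,0),(3,0)]⟩⟩ ⟨true,0,⟨5,[(7,0),(4,0),(5,0),(10,0),(10,2),(2,
  0)]⟩,⟨1,[(30,0),(0,0)]⟩⟩ ⟨false,0,⟨0,[(0,0),(39,0),(3,0)]⟩,⟨0,[(23,0),(18,0)]⟩⟩]⟩) (.Q [0,0,1,0,0,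
  0,1,0,-1,0,1,-1] (.p false [1,0,-1,0,1] [1] (⟨0,[(26,0),(5,0)]⟩,⟨0,[(1,0),(20,0)]⟩) .k 1 (⟨0,[]⟩,
  ⟨0,[]⟩) .k (.r (-1) ⟨3,[(9,1),(5,0),(13,0),(0,1),(0,0),(14,3)]⟩ ⟨1,[(5,0),(6,0),(31,1)]⟩)) (.K ⟨0,
  [0,0,1,0,-1],0,0,(⟨0,[(2,0),(20,0)]⟩,⟨0,[(27,0),(5,0)]⟩),.k,(.r (-1) ⟨13,[(10,2),(4,11),(1,0),(11,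
  3),(2,3),(12,7)]⟩ ⟨1,[(16,0),(13,0),(0,0)]⟩),(.r 0 ⟨3,[(13,0),(1,1),(1,0),(2,1),(24,2)]⟩ ⟨8,[(10,
  4),(8,1),(10,3),(0,3),(7,2),(0,0),(6,1)]⟩),.k,.k,[⟨0,[(25,0)]⟩,⟨0,[(0,0)]⟩,⟨0,[(25,0),(4,0),(16,
  0)]⟩,⟨3,[(0,3),(5,1),(8,1),(28,0),(0,0)]⟩]⟩) (.Q [0,-3,0,0,2,0,0,0,-2,1,0,-2] (.p false [0,0,0,0,
  1] [1,0,0,0,-1] (⟨0,[(27,0)]⟩,⟨0,[(26,0)]⟩) .k 2 (⟨0,[(26,0)]⟩,⟨0,[(27,0)]⟩) .k (.r 0 ⟨0,[(47,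
  1)]⟩ ⟨0,[(45,0)]⟩)) (.Q [0,-1,0,1,1,0,0,0,-1,0,0,-1] (.p false [0,0,0,0,1] [] (⟨0,[(28,0)]⟩,⟨0,
  [(27,0)]⟩) .k 0 (⟨0,[]⟩,⟨0,[]⟩) .k .k) (.R ⟨0,false,false,true,[0,0,0,0,1],[1,-1,0,0,1],[1,2],(⟨0,
  [(29,0)]⟩,⟨0,[(28,0)]⟩),(⟨0,[(29,0),(9,0)]⟩,⟨0,[(4,0)]⟩),⟨0,[(4,0)]⟩,.k,(.r 0 ⟨2,[(10,0),(4,0),(5,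
  0),(10,0),(13,0)]⟩ ⟨11,[(12,4),(6,4),(2,3),(10,4),(0,4),(12,5)]⟩),(.r 0 ⟨2,[(10,0),(4,0),(5,0),
  (10,0),(13,0)]⟩ ⟨11,[(12,4),(6,4),(2,3),(10,4),(0,4),(12,5)]⟩),.k,.k,.k,⟨true,0,⟨5,[(12,0),(6,0),
  (2,1),(10,0),(0,0)]⟩,⟨0,[(45,0)]⟩⟩,⟨false,0,⟨3,[(1,0),(4,0),(13,1),(6,1),(3,0)]⟩,⟨1,[(42,0),(3,
  0)]⟩⟩,⟨false,0,⟨0,[]⟩,⟨3,[(12,0),(6,0),(13,0),(0,0),(12,1)]⟩⟩,⟨true,(-1),⟨0,[(20,0)]⟩,⟨17,[(9,1),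
  (0,1),(1,4),(6,6),(2,3),(19,7),(4,1)]⟩⟩,⟨false,0,⟨0,[]⟩,⟨0,[]⟩⟩,⟨false,0,⟨0,[]⟩,⟨0,[]⟩⟩,[.o
  ⟨false,(-1),⟨7,[(2,0),(5,0),(0,0),(0,1),(9,13),(1,0),(4,6),(14,5)]⟩,⟨1,[(0,1),(41,0),(4,0)]⟩⟩,.a
  ⟨true,(-1),⟨0,[(20,0),(6,0)]⟩,⟨0,[(0,0)]⟩⟩ ⟨false,0,⟨5,[(10,0),(4,0),(5,0),(10,0),(10,2),(2,0)]⟩,
  ⟨3,[(12,0),(6,0),(13,0),(0,0),(12,1)]⟩⟩ ⟨true,(-1),⟨0,[(20,0)]⟩,⟨5,[(12,0),(6,0),(2,1),(10,0),(0,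
  0),(7,2),(4,2)]⟩⟩,.e ⟨false,0,⟨0,[(49,0)]⟩,⟨0,[(47,0)]⟩⟩ ⟨false,(-1),⟨0,[(20,0)]⟩,⟨17,[(9,1),(0,
  1),(1,4),(6,6),(2,3),(19,7),(4,19)]⟩⟩,.o ⟨false,0,⟨0,[(2,0),(7,0),(11,0),(22,2)]⟩,⟨0,[(3,0)]⟩⟩]⟩)
  (.Q [0,-1,0,0,1,0,0,0,-1,0,0,-1] (.p false [0,0,0,0,1] [] (⟨0,[(29,0)]⟩,⟨0,[(28,0)]⟩) .k 0 (⟨0,
  []⟩,⟨0,[]⟩) .k .k) (.R ⟨2,true,false,false,[0,1],[0,0,0,0,1],[1,1,1,1],(⟨0,[]⟩,⟨0,[]⟩),(⟨0,[(30,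
  0)]⟩,⟨0,[(29,0)]⟩),⟨0,[]⟩,.k,.k,.k,(.r (-1) ⟨11,[(13,4),(6,4),(2,3),(10,4),(0,4),(12,5)]⟩ ⟨2,[(11,
  0),(4,0),(5,0),(10,0),(13,0)]⟩),.k,.k,⟨true,0,⟨5,[(13,0),(6,0),(2,1),(10,0),(0,0)]⟩,⟨0,[(46,0)]⟩⟩,
  ⟨false,0,⟨0,[(28,0)]⟩,⟨0,[(4,0)]⟩⟩,⟨false,0,⟨0,[]⟩,⟨3,[(13,0),(6,0),(13,0),(0,0),(12,1)]⟩⟩,⟨true,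
  (-1),⟨0,[(1,0)]⟩,⟨11,[(2,1),(1,5),(14,2),(0,2),(2,0),(3,1),(15,0)]⟩⟩,⟨true,0,⟨6,[(19,1),(0,1),(21,
  0),(1,0)]⟩,⟨0,[(46,0)]⟩⟩,⟨false,0,⟨0,[(28,0)]⟩,⟨0,[(0,0)]⟩⟩,[]⟩) (.R ⟨1,true,false,false,[1,0,-1],
  [1,0,-1,0,1],[1,1,0,0,0,0,0,-1],(⟨0,[(36,0)]⟩,⟨0,[(37,0)]⟩),(⟨0,[(30,0),(5,0)]⟩,⟨0,[(5,0),(20,
  0)]⟩),⟨0,[(25,0)]⟩,.k,.k,.k,.k,(.r (-1) ⟨2,[(13,0),(4,0),(27,0),(1,0)]⟩ ⟨1,[(19,0),(12,0),(2,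
  0)]⟩),.k,⟨true,0,⟨0,[]⟩,⟨1,[(34,0),(0,0)]⟩⟩,⟨false,0,⟨1,[(0,1),(46,0),(0,0)]⟩,⟨0,[(27,0)]⟩⟩,
  ⟨false,0,⟨0,[]⟩,⟨3,[(13,0),(6,0),(13,0),(0,0),(12,1)]⟩⟩,⟨true,(-1),⟨0,[(0,0)]⟩,⟨0,[(27,0)]⟩⟩,
  ⟨true,0,⟨6,[(19,1),(0,1),(21,0),(1,0)]⟩,⟨0,[(46,0)]⟩⟩,⟨false,0,⟨5,[(0,0),(22,0),(4,4),(15,2),(3,
  1)]⟩,⟨1,[(2,0),(19,0),(20,0)]⟩⟩,[]⟩))) (.R ⟨0,false,false,false,[0,0,0,0,1],[0,1],[1,0,2,1],(⟨0,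
  [(28,0)]⟩,⟨0,[(27,0)]⟩),(⟨0,[(39,0)]⟩,⟨0,[(38,0)]⟩),⟨0,[(3,0)]⟩,.k,.k,(.r 0 ⟨3,[(0,0),(1,1),(8,0),
  (2,0),(5,0)]⟩ ⟨11,[(11,4),(6,4),(2,3),(10,4),(0,4),(12,5)]⟩),(.r 0 ⟨3,[(0,0),(1,1),(8,0),(2,0),(5,
  0)]⟩ ⟨11,[(11,4),(6,4),(2,3),(10,4),(0,4),(12,5)]⟩),.k,.k,⟨false,0,⟨0,[]⟩,⟨1,[(11,0),(6,0)]⟩⟩,
  ⟨true,1,⟨0,[(2,0)]⟩,⟨3,[(0,1),(19,1),(0,1),(10,0),(0,0),(10,1),(1,3)]⟩⟩,⟨true,0,⟨3,[(21,1),(10,0),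
  (0,0),(10,1),(1,1)]⟩,⟨1,[(0,0),(1,1),(17,0),(24,0)]⟩⟩,⟨false,2,⟨5,[(2,3),(8,0),(6,0),(2,1),(3,1),
  (20,5)]⟩,⟨1,[(0,0),(19,0),(25,0)]⟩⟩,⟨false,0,⟨0,[]⟩,⟨0,[]⟩⟩,⟨false,0,⟨0,[]⟩,⟨0,[]⟩⟩,[.o ⟨false,1,
  ⟨17,[(8,1),(0,1),(1,4),(6,6),(2,3),(19,7),(4,1)]⟩,⟨0,[(44,0)]⟩⟩,.a ⟨true,1,⟨17,[(5,1),(3,1),(1,4),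
  (6,6),(2,3),(24,9)]⟩,⟨0,[(19,0)]⟩⟩ ⟨true,0,⟨3,[(21,1),(10,0),(0,0),(10,1),(1,1)]⟩,⟨3,[(0,0),(1,1),
  (8,0),(2,0),(5,0)]⟩⟩ ⟨false,2,⟨17,[(2,17),(2,1),(3,1),(1,4),(6,6),(2,3),(24,9)]⟩,⟨1,[(0,0),(19,0),
  (25,0)]⟩⟩,.o ⟨false,0,⟨3,[(0,1),(40,0),(4,2)]⟩,⟨0,[(25,0)]⟩⟩,.o ⟨false,0,⟨3,[(0,1),(31,1),(0,1),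
  (7,0),(4,2)]⟩,⟨0,[(2,0)]⟩⟩]⟩)))))))))))

theorem ok40 : chk K t40 l28 = true := by decide +kernel

noncomputable def t41 : Tre :=
  (.Q [0,0,0,1,0,0,-1,-1,0,1,-1] (.p false [0,0,1] [1] (⟨0,[(26,0)]⟩,⟨0,[(25,0)]⟩) .k 1 (⟨0,[]⟩,⟨0,
  []⟩) .k .k) (.Q [0,0,2,0,-1,0,-1,0,0,0,-1] (.p false [0,0,1] [] (⟨0,[(27,0)]⟩,⟨0,[(26,0)]⟩) .k 0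
  (⟨0,[]⟩,⟨0,[]⟩) .k .k) (.R ⟨0,false,false,false,[1,-1,-1],[1,-1],[1,1,1],(⟨0,[(16,0)]⟩,⟨0,[(2,0),
  (28,0)]⟩),(⟨0,[(31,0)]⟩,⟨0,[(32,0)]⟩),⟨0,[(2,0)]⟩,.k,.k,(.r (-2) ⟨17,[(4,19),(8,7),(9,1),(1,0),(0,
  2),(7,3),(6,9)]⟩ ⟨0,[(9,0),(4,0)]⟩),.k,.k,.k,⟨true,(-1),⟨7,[(7,0),(2,0),(2,3),(0,4),(19,1),(6,
  1)]⟩,⟨2,[(4,0),(4,0),(27,0),(1,0)]⟩⟩,⟨false,1,⟨0,[(25,0),(12,0)]⟩,⟨0,[(8,0)]⟩⟩,⟨false,(-1),⟨8,[(3,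
  6),(10,2),(8,1),(2,1),(12,0)]⟩,⟨0,[(4,0)]⟩⟩,⟨true,0,⟨1,[(5,0),(3,0),(15,1),(9,0),(3,0)]⟩,⟨0,[(24,
  0)]⟩⟩,⟨false,0,⟨0,[]⟩,⟨0,[]⟩⟩,⟨false,0,⟨0,[]⟩,⟨0,[]⟩⟩,[.o ⟨false,0,⟨0,[(37,0)]⟩,⟨5,[(4,1),(6,1),
  (2,1),(19,2),(3,0)]⟩⟩,.e ⟨false,0,⟨0,[]⟩,⟨1,[(4,0),(6,0)]⟩⟩ ⟨false,2,⟨3,[(4,1),(4,1),(15,3),(12,
  2),(0,0)]⟩,⟨0,[(3,0),(2,0)]⟩⟩,.a ⟨true,(-1),⟨4,[(0,1),(0,1),(1,1),(8,1),(9,0),(16,0)]⟩,⟨0,[(25,0),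
  (12,0)]⟩⟩ ⟨false,0,⟨1,[(25,0),(0,0)]⟩,⟨1,[(38,0),(0,0)]⟩⟩ ⟨true,1,⟨1,[(4,0),(2,0),(17,1),(12,0)]⟩,
  ⟨0,[(3,0),(2,0)]⟩⟩,.o ⟨false,(-1),⟨0,[(0,0)]⟩,⟨1,[(25,1),(8,0),(3,2)]⟩⟩]⟩) (.Q [0,0,2,0,-1,0,-2,
  -1,0,1,-2] (.p false [0,0,1] [1,0,-1] (⟨0,[(28,0)]⟩,⟨0,[(27,0)]⟩) .k 2 (⟨0,[(27,0)]⟩,⟨0,[(28,
  0)]⟩) .k (.r 1 ⟨0,[(5,1),(33,0)]⟩ ⟨1,[(4,1),(5,0),(13,0),(0,1),(0,0)]⟩)) (.R ⟨0,false,false,false,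
  [1,-1,-1],[0,0,1],[1,0,0,0,0,0,0,1],(⟨0,[(17,0)]⟩,⟨0,[(3,0),(28,0)]⟩),(⟨0,[(29,0)]⟩,⟨0,[(28,0)]⟩),
  ⟨0,[(3,0)]⟩,.k,.k,(.r (-2) ⟨17,[(5,19),(8,7),(9,1),(1,0),(0,2),(7,3),(6,9)]⟩ ⟨0,[(10,0),(4,0)]⟩),
  (.r (-2) ⟨0,[(5,0),(19,0),(0,0)]⟩ ⟨0,[(10,1),(4,0)]⟩),.k,.k,⟨true,0,⟨0,[]⟩,⟨1,[(26,0),(0,0)]⟩⟩,
  ⟨false,2,⟨17,[(1,21),(3,2),(9,0),(8,2),(1,10),(8,8)]⟩,⟨1,[(0,0),(3,0),(4,0),(13,0)]⟩⟩,⟨false,(-1),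
  ⟨0,[(4,1),(31,0),(3,0)]⟩,⟨0,[(5,0),(19,0),(0,0)]⟩⟩,⟨true,0,⟨29,[(1,45),(2,53),(10,9),(8,5),(1,7),
  (8,14),(4,2)]⟩,⟨4,[(0,1),(1,0),(2,1),(8,1),(10,4)]⟩⟩,⟨false,0,⟨0,[]⟩,⟨0,[]⟩⟩,⟨false,0,⟨0,[]⟩,⟨0,
  []⟩⟩,[.a ⟨true,0,⟨4,[(1,1),(2,2),(19,1),(1,0),(13,0)]⟩,⟨4,[(0,0),(1,2),(2,0),(8,0)]⟩⟩ ⟨false,0,⟨1,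
  [(6,0),(3,0),(25,0),(3,0)]⟩,⟨3,[(5,1),(5,0),(13,0),(0,1),(0,0)]⟩⟩ ⟨true,1,⟨9,[(1,11),(2,7),(19,1),
  (1,5),(8,4),(4,0)]⟩,⟨0,[(0,0)]⟩⟩,.o ⟨false,1,⟨9,[(1,3),(2,5),(19,3),(1,1),(8,4),(4,6)]⟩,⟨0,[(25,
  0)]⟩⟩,.a ⟨true,(-1),⟨6,[(0,1),(1,1),(1,3),(8,1),(9,0),(16,0)]⟩,⟨8,[(1,3),(3,2),(9,0),(8,2),(1,
  1)]⟩⟩ ⟨false,0,⟨0,[(6,0),(33,0)]⟩,⟨3,[(5,1),(5,0),(13,0),(0,1),(0,0)]⟩⟩ ⟨true,1,⟨9,[(1,11),(2,7),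
  (19,1),(1,5),(8,4),(4,0)]⟩,⟨4,[(0,2),(6,1),(0,0),(4,0),(9,0),(1,0)]⟩⟩,.a ⟨true,(-1),⟨8,[(0,4),(3,
  1),(9,2),(0,1),(0,0),(7,2),(15,2)]⟩,⟨0,[(1,0)]⟩⟩ ⟨true,0,⟨1,[(6,0),(3,0),(25,0),(3,0)]⟩,⟨0,[(25,
  0),(0,0)]⟩⟩ ⟨false,2,⟨9,[(1,13),(2,5),(19,3),(1,1),(8,4),(4,6)]⟩,⟨0,[(0,0)]⟩⟩]⟩) (.R ⟨0,false,
  false,false,[1,-1,-1],[0,0,1],[1,0,0,0,0,0,0,1],(⟨0,[(17,0)]⟩,⟨0,[(3,0),(28,0)]⟩),(⟨0,[(29,0)]⟩,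
  ⟨0,[(28,0)]⟩),⟨0,[(3,0)]⟩,.k,.k,(.r (-2) ⟨17,[(5,19),(8,7),(9,1),(1,0),(0,2),(7,3),(6,9)]⟩ ⟨0,
  [(10,0),(4,0)]⟩),(.r (-2) ⟨0,[(5,0),(19,0),(0,0)]⟩ ⟨0,[(10,1),(4,0)]⟩),.k,.k,⟨true,0,⟨0,[]⟩,⟨1,
  [(26,0),(0,0)]⟩⟩,⟨false,2,⟨45,[(0,33),(4,25),(5,12),(12,4),(1,18),(7,3),(0,5)]⟩,⟨2,[(2,1),(1,2),
  (4,2),(4,0),(10,0),(14,0)]⟩⟩,⟨false,(-1),⟨0,[(4,1),(31,0),(3,0)]⟩,⟨0,[(5,0),(19,0),(0,0)]⟩⟩,⟨true,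
  0,⟨28,[(0,24),(3,22),(7,1),(2,8),(8,7),(10,1),(4,4)]⟩,⟨2,[(2,0),(11,1),(10,4),(14,1)]⟩⟩,⟨false,0,
  ⟨0,[]⟩,⟨0,[]⟩⟩,⟨false,0,⟨0,[]⟩,⟨0,[]⟩⟩,[.e ⟨false,0,⟨7,[(0,1),(5,5),(16,3),(11,0),(4,2)]⟩,⟨3,[(5,
  1),(5,0),(13,0),(0,1),(0,0)]⟩⟩ ⟨false,1,⟨0,[(0,0)]⟩,⟨2,[(2,1),(11,0),(10,0),(1,2),(12,0)]⟩⟩,.o
  ⟨false,1,⟨17,[(0,3),(3,5),(19,7),(1,1),(8,6),(4,12)]⟩,⟨0,[(25,0)]⟩⟩,.a ⟨true,(-1),⟨2,[(2,1),(1,2),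
  (9,0),(10,0),(14,0)]⟩,⟨8,[(1,3),(3,2),(9,0),(8,2),(1,1)]⟩⟩ ⟨false,0,⟨0,[(6,0),(33,0)]⟩,⟨3,[(5,1),
  (5,0),(13,0),(0,1),(0,0)]⟩⟩ ⟨true,1,⟨5,[(0,3),(23,1),(1,1),(8,0),(4,0)]⟩,⟨2,[(2,1),(1,2),(9,0),
  (10,3),(14,0)]⟩⟩,.e ⟨true,0,⟨7,[(0,1),(5,5),(16,3),(11,0),(4,2)]⟩,⟨0,[(25,0),(0,0)]⟩⟩ ⟨true,1,⟨0,
  [(0,0)]⟩,⟨2,[(2,0),(1,0),(9,1),(0,0),(9,2),(1,1),(12,0)]⟩⟩]⟩))) (.R ⟨2,true,false,false,[0,1],[1,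
  1,-1],[1,1,1,1],(⟨0,[]⟩,⟨0,[]⟩),(⟨0,[(26,0),(1,0)]⟩,⟨0,[(16,0)]⟩),⟨0,[]⟩,.k,.k,.k,.k,.k,.k,⟨true,
  (-1),⟨0,[(4,0)]⟩,⟨0,[(23,0),(0,0),(13,0)]⟩⟩,⟨false,0,⟨0,[(21,0)]⟩,⟨1,[(24,1),(8,0),(3,0)]⟩⟩,
  ⟨false,0,⟨0,[]⟩,⟨3,[(3,0),(6,0),(13,0),(0,0),(12,1)]⟩⟩,⟨true,0,⟨0,[(5,0),(5,0),(26,0)]⟩,⟨12,[(0,
  8),(12,1),(8,3),(9,2),(0,1),(0,2)]⟩⟩,⟨true,0,⟨6,[(9,1),(0,1),(21,0),(1,0)]⟩,⟨0,[(36,0)]⟩⟩,⟨false,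
  1,⟨10,[(3,9),(1,0),(5,3),(1,7),(0,2),(6,3),(16,2)]⟩,⟨0,[(0,0)]⟩⟩,[]⟩))

theorem ok41 : chk K t41 l29 = true := by decide +kernel

noncomputable def t42 : Tre :=
  (.R ⟨1,false,false,false,[1,-1,-1],[1,-1],[1,0,-1,-1,0,0,0,-1],(⟨0,[(16,0)]⟩,⟨0,[(28,0),(0,0)]⟩),
  (⟨0,[(31,0)]⟩,⟨0,[(32,0)]⟩),⟨0,[(2,0)]⟩,.k,.k,(.r (-2) ⟨17,[(4,19),(8,7),(9,1),(1,0),(0,2),(7,3),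
  (6,9)]⟩ ⟨6,[(1,2),(1,1),(7,1),(2,2),(24,0)]⟩),.k,.k,.k,⟨true,1,⟨3,[(4,1),(5,0),(13,0),(0,1),(0,
  0)]⟩,⟨0,[(3,0)]⟩⟩,⟨false,1,⟨0,[(25,0),(12,0)]⟩,⟨0,[(8,0)]⟩⟩,⟨true,0,⟨0,[]⟩,⟨0,[(41,0)]⟩⟩,⟨true,0,
  ⟨1,[(1,0),(7,0),(15,1),(12,0)]⟩,⟨0,[(24,0)]⟩⟩,⟨false,1,⟨5,[(4,1),(6,1),(2,1),(23,0),(0,2)]⟩,⟨0,
  [(37,0)]⟩⟩,⟨true,0,⟨0,[(1,0),(23,0),(12,0)]⟩,⟨4,[(0,0),(3,0),(8,1),(10,3),(9,0)]⟩⟩,[.o ⟨false,0,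
  ⟨0,[(37,0)]⟩,⟨5,[(4,1),(6,1),(2,1),(19,2),(3,0)]⟩⟩,.e ⟨false,2,⟨0,[(4,0)]⟩,⟨2,[(5,0),(1,0),(3,0),
  (2,0)]⟩⟩ ⟨false,2,⟨3,[(4,1),(4,1),(15,3),(12,2),(0,0)]⟩,⟨2,[(0,0),(0,0),(3,0),(0,1)]⟩⟩,.a ⟨true,
  (-1),⟨4,[(0,1),(0,1),(4,1),(5,3),(9,0),(16,2)]⟩,⟨0,[(25,0),(12,0)]⟩⟩ ⟨false,2,⟨1,[(4,1),(20,0),(0,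
  0)]⟩,⟨0,[(1,0)]⟩⟩ ⟨true,1,⟨1,[(4,0),(2,0),(17,1),(12,0)]⟩,⟨2,[(0,0),(0,0),(3,0),(0,1)]⟩⟩,.o
  ⟨false,(-1),⟨0,[(0,0)]⟩,⟨1,[(25,1),(8,0),(3,2)]⟩⟩]⟩)

theorem ok42 : chk K t42 l31 = true := by decide +kernel

noncomputable def t43 : Tre :=
  (.Q [0,1,0,-2,-1,0,1,1,0,0,1] (.p true [0,0,1] [] (⟨0,[(29,0)]⟩,⟨0,[(28,0)]⟩) .k 0 (⟨0,[]⟩,⟨0,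
  []⟩) .k .k) (.R ⟨1,true,false,false,[0,0,1],[0,1],[1,0,0,0,0,0,0,1],(⟨0,[(30,0)]⟩,⟨0,[(29,0)]⟩),
  (⟨0,[(34,0)]⟩,⟨0,[(33,0)]⟩),⟨0,[(19,0)]⟩,.k,.k,.k,.k,(.r (-1) ⟨8,[(0,1),(5,4),(4,8),(5,1),(7,2),
  (2,0),(7,0)]⟩ ⟨0,[(1,0)]⟩),.k,⟨true,0,⟨0,[(11,0)]⟩,⟨0,[(1,0),(37,0)]⟩⟩,⟨false,1,⟨1,[(24,1),(11,0),
  (3,0)]⟩,⟨0,[(27,0)]⟩⟩,⟨true,0,⟨0,[]⟩,⟨0,[(43,0)]⟩⟩,⟨false,1,⟨0,[(8,0),(32,0)]⟩,⟨1,[(0,0),(24,0),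
  (15,0)]⟩⟩,⟨false,1,⟨5,[(6,1),(6,1),(2,1),(23,0),(0,2)]⟩,⟨0,[(39,0)]⟩⟩,⟨true,1,⟨5,[(6,1),(1,5),(4,
  1),(2,1),(23,0),(0,2)]⟩,⟨0,[(0,0)]⟩⟩,[]⟩) (.I [0,0,-1,-2,1,0,0,-1] (.S ⟨1,0,[0,0,-1,-2,0,0,0,-1],
  [1,-1,-1],[1,1],(⟨0,[(19,0)]⟩,⟨0,[(31,0),(0,0)]⟩),⟨0,[(5,0)]⟩,.k,(.r (-2) ⟨1,[(0,1),(6,0),(6,0)]⟩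
  ⟨6,[(4,2),(1,1),(7,1),(2,2),(24,0)]⟩),⟨false,(-1),⟨0,[(4,0)]⟩,⟨1,[(7,1),(20,0),(0,0)]⟩⟩,⟨true,0,
  ⟨0,[(40,0)]⟩,⟨6,[(13,1),(0,1),(21,0),(1,0)]⟩⟩,⟨true,(-1),⟨2,[(4,0),(3,0),(5,0),(2,0),(20,0)]⟩,⟨0,
  [(0,0)]⟩⟩,⟨false,1,⟨21,[(2,1),(4,4),(6,0),(11,5),(2,5),(12,11)]⟩,⟨0,[]⟩⟩,[.a ⟨true,0,⟨0,[(16,0),
  (10,0),(14,0)]⟩,⟨18,[(3,16),(0,12),(9,3),(2,6),(8,1),(15,2)]⟩⟩ ⟨false,0,⟨3,[(0,0),(9,0),(27,2)]⟩,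
  ⟨21,[(2,1),(4,4),(6,0),(11,5),(2,5),(12,11)]⟩⟩ ⟨true,1,⟨0,[(0,0)]⟩,⟨6,[(4,2),(1,1),(7,1),(2,2),
  (24,0)]⟩⟩,.o ⟨false,1,⟨0,[(27,0),(12,1),(1,0)]⟩,⟨3,[(3,2),(0,0),(3,1),(8,1),(8,0),(10,1),(0,0)]⟩⟩,
  .a ⟨true,(-1),⟨0,[(1,0),(4,0),(9,0)]⟩,⟨16,[(2,1),(0,7),(3,3),(18,5),(1,2),(13,0)]⟩⟩ ⟨false,0,⟨0,
  []⟩,⟨21,[(2,1),(4,4),(6,0),(11,5),(2,5),(12,11)]⟩⟩ ⟨true,1,⟨0,[(0,0)]⟩,⟨2,[(4,0),(3,0),(5,0),(2,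
  0),(20,0)]⟩⟩,.a ⟨true,(-1),⟨6,[(11,2),(4,5),(0,3),(0,0),(10,1),(12,2)]⟩,⟨0,[(3,0)]⟩⟩ ⟨true,0,⟨3,
  [(0,0),(9,0),(27,2)]⟩,⟨1,[(28,0),(0,0)]⟩⟩ ⟨false,2,⟨4,[(0,2),(6,2),(4,0),(29,0)]⟩,⟨6,[(4,2),(1,1),
  (7,1),(2,2),(24,0)]⟩⟩]⟩) (.Q [0,-1,0,-2,0,0,1,1,0,0,1] (.p true [0,0,1] [] (⟨0,[(31,0)]⟩,⟨0,[(30,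
  0)]⟩) .k 0 (⟨0,[]⟩,⟨0,[]⟩) .k .k) (.R ⟨1,true,false,true,[0,0,1],[0,1],[1,1,0,0,0,0,0,1],(⟨0,[(32,
  0)]⟩,⟨0,[(31,0)]⟩),(⟨0,[(36,0)]⟩,⟨0,[(35,0)]⟩),⟨0,[(21,0)]⟩,.k,.k,.k,.k,(.r (-1) ⟨13,[(0,4),(7,5),
  (4,11),(5,3),(7,2),(9,3),(0,1)]⟩ ⟨0,[(3,0)]⟩),.k,⟨true,0,⟨0,[(13,0)]⟩,⟨1,[(0,0),(2,1),(24,0)]⟩⟩,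
  ⟨false,1,⟨1,[(26,1),(11,0),(3,0)]⟩,⟨0,[(29,0)]⟩⟩,⟨false,0,⟨0,[]⟩,⟨21,[(3,1),(4,4),(6,0),(11,5),(2,
  5),(12,11)]⟩⟩,⟨true,0,⟨0,[(10,0)]⟩,⟨1,[(0,0),(26,0)]⟩⟩,⟨true,0,⟨6,[(14,1),(0,1),(21,0),(1,0)]⟩,⟨0,
  [(41,0)]⟩⟩,⟨false,1,⟨23,[(2,13),(5,4),(1,5),(3,5),(0,6),(14,3)]⟩,⟨0,[(0,0)]⟩⟩,[]⟩) (.Q [0,0,-1,0,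
  0,0,0,0,1,-1,0,1] (.p true [0,0,0,0,1] [1] (⟨0,[(25,0)]⟩,⟨0,[(24,0)]⟩) .k 1 (⟨0,[]⟩,⟨0,[]⟩) .k
  .k) (.Q [0,0,0,0,0,0,0,0,0,1,-1,-1] (.ed true [0,0,1,0,1] (.r 1 ⟨0,[(1,0),(0,1),(2,0),(11,5),(21,
  2),(4,2)]⟩ ⟨17,[(4,7),(4,15),(18,5),(1,4),(0,10),(12,3)]⟩)) (.S ⟨1,0,[0,-1,0,-1],[1,0,0,0,-1],[1],
  (⟨0,[(26,0)]⟩,⟨0,[(27,0)]⟩),⟨0,[(0,0),(22,0)]⟩,.k,(.r (-1) ⟨2,[(10,0),(4,0),(27,0),(1,0)]⟩ ⟨4,[(5,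
  1),(11,0),(11,0),(2,0),(14,2)]⟩),⟨false,0,⟨0,[]⟩,⟨21,[(5,1),(4,4),(6,0),(11,5),(2,5),(12,11)]⟩⟩,
  ⟨true,0,⟨0,[(43,0)]⟩,⟨6,[(16,1),(0,1),(21,0),(1,0)]⟩⟩,⟨true,0,⟨6,[(16,1),(0,1),(21,0),(1,0)]⟩,⟨0,
  [(43,0)]⟩⟩,⟨false,1,⟨21,[(5,1),(4,4),(6,0),(11,5),(2,5),(12,11)]⟩,⟨0,[]⟩⟩,[.a ⟨true,1,⟨0,[(18,0),
  (5,0),(20,0)]⟩,⟨8,[(1,5),(0,0),(0,0),(2,0),(11,5),(1,2),(4,2),(15,1)]⟩⟩ ⟨true,0,⟨0,[]⟩,⟨1,[(31,0),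
  (0,0)]⟩⟩ ⟨false,1,⟨2,[(10,0),(4,0),(27,0),(1,0)]⟩,⟨6,[(16,1),(0,1),(21,0),(1,0)]⟩⟩,.o ⟨false,2,⟨0,
  [(24,0),(18,0),(1,0)]⟩,⟨0,[(1,0),(11,0),(2,0)]⟩⟩,.o ⟨false,1,⟨0,[(24,0)]⟩,⟨4,[(1,2),(18,0),(4,1),
  (14,0),(2,2)]⟩⟩,.o ⟨false,1,⟨1,[(24,1),(6,0),(0,0)]⟩,⟨0,[(1,0)]⟩⟩]⟩) (.S ⟨1,0,[0,0,1],[1,1,0,0,
  -1],[0,-1,1],(⟨0,[(26,0),(8,0)]⟩,⟨1,[(0,0),(7,0),(18,0)]⟩),⟨0,[(26,0)]⟩,(.r (-1) ⟨21,[(5,9),(4,2),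
  (6,4),(11,7),(2,7),(12,15)]⟩ ⟨5,[(6,1),(6,1),(5,1),(10,1),(9,0),(3,0)]⟩),.k,⟨true,0,⟨0,[(43,0)]⟩,
  ⟨6,[(16,1),(0,1),(21,0),(1,0)]⟩⟩,⟨false,0,⟨0,[(43,0)]⟩,⟨14,[(4,1),(0,2),(0,1),(3,0),(6,5),(27,
  8)]⟩⟩,⟨false,1,⟨21,[(5,1),(4,4),(6,0),(11,5),(2,5),(12,11)]⟩,⟨0,[]⟩⟩,⟨true,0,⟨0,[(47,0)]⟩,⟨0,[]⟩⟩,
  [.o ⟨false,1,⟨0,[(24,0)]⟩,⟨4,[(1,2),(18,0),(4,1),(14,0),(2,2)]⟩⟩,.e ⟨false,1,⟨0,[(45,0)]⟩,⟨0,[(39,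
  0)]⟩⟩ ⟨false,1,⟨21,[(5,1),(4,4),(6,0),(11,5),(2,5),(12,11)]⟩,⟨2,[(6,0),(6,0),(16,0),(10,0)]⟩⟩,.a
  ⟨true,1,⟨10,[(3,1),(0,1),(1,4),(11,7),(5,10),(3,2),(16,2)]⟩,⟨4,[(1,3),(17,3),(0,2),(4,0),(17,0),
  (1,1)]⟩⟩ ⟨false,1,⟨1,[(31,0),(0,0),(12,1)]⟩,⟨2,[(6,0),(6,0),(16,0),(10,0)]⟩⟩ ⟨true,0,⟨1,[(31,0),
  (0,0)]⟩,⟨2,[(6,0),(6,0),(16,0),(10,0)]⟩⟩,.o ⟨false,1,⟨0,[(24,0)]⟩,⟨4,[(1,2),(18,0),(4,1),(14,0),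
  (2,2)]⟩⟩]⟩)) (.Q [0,-2,0,0,1,0,-1,-1,-1,1,-1,-1] (.p false [0,0,1] [1,0,0,0,-1] (⟨0,[(33,0)]⟩,⟨0,
  [(32,0)]⟩) .k 2 (⟨0,[(25,0)]⟩,⟨0,[(26,0)]⟩) .k (.r 1 ⟨0,[(1,0),(0,1),(2,0),(11,5),(21,2),(4,2)]⟩
  ⟨17,[(4,7),(4,15),(18,5),(1,4),(0,10),(12,3)]⟩)) (.Q [0,0,0,0,0,0,0,0,0,0,1,-1] (.ed true [1,0,-1,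
  0,1] (.r (-1) ⟨7,[(5,1),(4,3),(19,1),(0,2),(0,0),(14,9)]⟩ ⟨1,[(7,0),(7,0),(29,0)]⟩)) (.Q [0,0,1,0,
  0,0,1,0,-1,0,1,-1] (.p false [1,0,-1,0,1] [1] (⟨0,[(28,0),(5,0)]⟩,⟨0,[(0,0)]⟩) .k 1 (⟨0,[]⟩,⟨0,
  []⟩) .k (.r (-1) ⟨7,[(6,1),(4,3),(19,1),(0,2),(0,0),(14,9)]⟩ ⟨1,[(8,0),(7,0),(29,0)]⟩)) (.K ⟨0,[0,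
  0,1,0,-1],0,0,(⟨0,[(1,0)]⟩,⟨0,[(29,0),(5,0)]⟩),.k,(.r (-1) ⟨13,[(12,2),(4,11),(1,0),(11,3),(2,3),
  (12,7)]⟩ ⟨1,[(18,0),(13,0),(0,0)]⟩),(.r 0 ⟨6,[(9,0),(1,2),(7,2),(2,0),(24,4)]⟩ ⟨8,[(12,4),(8,1),
  (10,3),(0,3),(7,2),(0,0),(6,1)]⟩),.k,.k,[⟨0,[(27,0)]⟩,⟨0,[(0,0)]⟩,⟨0,[(27,0),(4,0),(16,0)]⟩,⟨2,
  [(0,2),(4,0),(11,1),(28,0)]⟩]⟩) (.Q [0,0,0,0,0,-1,0,0,0,0,0,1] (.ed false [1,-1,0,0,1] .k) (.S ⟨1,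
  0,[0,-1,1],[1,1,0,0,-1],[1,0,1,1],(⟨0,[(29,0),(8,0)]⟩,⟨0,[(0,0)]⟩),⟨0,[(29,0)]⟩,(.r (-1) ⟨21,[(8,
  9),(4,2),(6,4),(11,7),(2,7),(12,15)]⟩ ⟨5,[(9,1),(6,1),(5,1),(10,1),(9,0),(3,0)]⟩),.k,⟨false,0,⟨0,
  []⟩,⟨21,[(8,1),(4,4),(6,0),(11,5),(2,5),(12,11)]⟩⟩,⟨true,0,⟨0,[(46,0)]⟩,⟨6,[(19,1),(0,1),(21,0),
  (1,0)]⟩⟩,⟨true,0,⟨6,[(19,1),(0,1),(21,0),(1,0)]⟩,⟨0,[(46,0)]⟩⟩,⟨false,1,⟨21,[(8,1),(4,4),(6,0),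
  (11,5),(2,5),(12,11)]⟩,⟨0,[]⟩⟩,[.o ⟨false,1,⟨1,[(3,0),(0,0),(4,0),(2,0),(30,0)]⟩,⟨2,[(1,0),(7,0),
  (11,2),(1,0),(4,1),(14,2)]⟩⟩,.e ⟨false,1,⟨14,[(7,1),(0,2),(0,1),(3,0),(6,5),(27,8)]⟩,⟨5,[(9,1),(6,
  1),(5,1),(10,1),(9,0),(3,0)]⟩⟩ ⟨false,1,⟨0,[(48,0)]⟩,⟨0,[(42,0)]⟩⟩,.a ⟨true,0,⟨0,[(3,0),(2,0),(2,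
  0),(11,1),(21,0)]⟩,⟨1,[(28,1),(5,0),(0,0)]⟩⟩ ⟨true,0,⟨7,[(8,1),(11,0),(2,0),(8,0),(2,0),(12,0)]⟩,
  ⟨5,[(9,1),(6,1),(5,1),(10,1),(9,0),(3,0)]⟩⟩ ⟨false,1,⟨1,[(34,0),(0,0),(12,1)]⟩,⟨2,[(9,0),(6,0),
  (16,0),(10,0)]⟩⟩,.e ⟨false,1,⟨14,[(7,1),(0,2),(0,1),(3,0),(6,5),(27,8)]⟩,⟨0,[(46,0)]⟩⟩ ⟨false,1,
  ⟨0,[(48,0)]⟩,⟨0,[(50,0)]⟩⟩]⟩) (.R ⟨0,false,false,true,[0,1,0,0,-1],[1,0,0,0,-1],[1,0,1,1],(⟨0,[(0,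
  0)]⟩,⟨0,[(30,0),(9,0)]⟩),(⟨0,[(29,0)]⟩,⟨0,[(30,0)]⟩),⟨0,[(30,0)]⟩,(.r (-1) ⟨21,[(8,9),(4,2),(6,4),
  (11,7),(2,7),(12,15)]⟩ ⟨5,[(9,1),(6,1),(5,1),(10,1),(9,0),(3,0)]⟩),.k,.k,.k,.k,.k,⟨true,0,⟨7,[(8,
  1),(11,0),(2,0),(8,0),(2,0),(12,0)]⟩,⟨0,[(46,0)]⟩⟩,⟨false,0,⟨0,[(38,0),(1,0)]⟩,⟨1,[(43,0),(3,
  0)]⟩⟩,⟨false,0,⟨0,[]⟩,⟨21,[(8,1),(4,4),(6,0),(11,5),(2,5),(12,11)]⟩⟩,⟨true,(-1),⟨0,[(21,0)]⟩,⟨29,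
  [(7,3),(0,5),(0,3),(3,1),(6,11),(22,14),(4,2)]⟩⟩,⟨false,0,⟨0,[]⟩,⟨0,[]⟩⟩,⟨false,0,⟨0,[]⟩,⟨0,[]⟩⟩,
  [.a ⟨true,0,⟨1,[(3,0),(0,0),(1,0),(2,0),(11,1),(21,0)]⟩,⟨0,[(28,0)]⟩⟩ ⟨true,0,⟨7,[(8,1),(11,0),(2,
  0),(8,0),(2,0),(12,0)]⟩,⟨0,[(46,0)]⟩⟩ ⟨false,0,⟨0,[(38,0),(1,0)]⟩,⟨1,[(43,0),(3,0)]⟩⟩,.o ⟨false,1,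
  ⟨1,[(3,0),(0,0),(4,0),(2,0),(30,0)]⟩,⟨2,[(1,0),(7,0),(11,2),(1,0),(4,1),(14,2)]⟩⟩,.o ⟨false,1,⟨0,
  [(3,0),(2,0),(2,0),(11,1),(21,1)]⟩,⟨1,[(28,1),(5,0),(0,0)]⟩⟩,.o ⟨false,1,⟨1,[(3,0),(0,0),(1,0),(2,
  0),(11,1),(21,2)]⟩,⟨0,[(28,0)]⟩⟩]⟩))) (.R ⟨1,false,false,false,[0,0,0,0,1],[0,0,-1,0,1],[0,1,0,
  -1],(⟨0,[(28,0)]⟩,⟨0,[(27,0)]⟩),(⟨0,[(0,0)]⟩,⟨0,[(27,0),(7,0)]⟩),⟨0,[(0,0),(23,0)]⟩,.k,.k,(.r 0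
  ⟨5,[(7,1),(6,1),(5,1),(10,1),(9,0),(3,0)]⟩ ⟨21,[(6,9),(4,2),(6,4),(11,7),(2,7),(12,15)]⟩),.k,.k,
  .k,⟨false,0,⟨0,[(16,0)]⟩,⟨5,[(6,1),(4,2),(5,1),(0,0)]⟩⟩,⟨true,0,⟨0,[(15,0)]⟩,⟨0,[(32,0)]⟩⟩,⟨true,
  0,⟨0,[(44,0)]⟩,⟨6,[(17,1),(0,1),(21,0),(1,0)]⟩⟩,⟨false,1,⟨2,[(1,1),(24,1),(4,0),(9,0)]⟩,⟨7,[(7,1),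
  (0,2),(7,2),(13,1),(1,3),(13,0)]⟩⟩,⟨false,1,⟨21,[(6,1),(4,4),(6,0),(11,5),(2,5),(12,11)]⟩,⟨0,[]⟩⟩,
  ⟨false,1,⟨5,[(1,1),(3,2),(20,1),(4,0),(9,0)]⟩,⟨0,[(16,0),(15,0)]⟩⟩,[.a ⟨true,0,⟨0,[(26,0),(4,0)]⟩,
  ⟨0,[(1,0),(5,0),(0,0),(5,0),(17,0)]⟩⟩ ⟨false,0,⟨5,[(7,1),(6,1),(5,1),(10,1),(9,0),(3,0)]⟩,⟨14,[(5,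
  1),(0,2),(0,1),(3,0),(6,5),(27,8)]⟩⟩ ⟨true,0,⟨0,[(31,0)]⟩,⟨1,[(8,0),(7,0),(15,1),(13,0)]⟩⟩,.o
  ⟨false,1,⟨2,[(1,0),(24,3),(4,1),(9,1)]⟩,⟨0,[(1,0),(5,0),(0,0),(3,0),(6,0),(12,0),(8,0)]⟩⟩,.a
  ⟨true,0,⟨0,[(26,0)]⟩,⟨1,[(1,0),(0,0),(1,0),(2,0),(11,1),(21,0)]⟩⟩ ⟨false,0,⟨0,[(44,0)]⟩,⟨14,[(5,
  1),(0,2),(0,1),(3,0),(6,5),(27,8)]⟩⟩ ⟨true,0,⟨0,[(31,0)]⟩,⟨7,[(7,1),(0,2),(7,2),(13,1),(1,3),(13,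
  0)]⟩⟩,.a ⟨true,0,⟨1,[(26,1),(5,0),(0,0)]⟩,⟨0,[(1,0),(2,0),(2,0),(11,1),(21,0)]⟩⟩ ⟨true,0,⟨5,[(7,
  1),(6,1),(5,1),(10,1),(9,0),(3,0)]⟩,⟨7,[(6,1),(11,0),(2,0),(8,0),(2,0),(12,0)]⟩⟩ ⟨false,1,⟨5,[(5,
  0),(5,1),(17,1),(1,2),(9,0)]⟩,⟨1,[(8,0),(7,0),(15,1),(13,0)]⟩⟩]⟩)) (.Q [0,0,-1,0,1,0,-1,-1,-1,1,
  -1,-1] (.p false [0,0,1] [1,0,0,0,-1] (⟨0,[(34,0)]⟩,⟨0,[(33,0)]⟩) .k 2 (⟨0,[(26,0)]⟩,⟨0,[(27,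
  0)]⟩) .k (.r 1 ⟨0,[(2,0),(0,1),(2,0),(11,5),(21,2),(4,2)]⟩ ⟨17,[(5,7),(4,15),(18,5),(1,4),(0,10),
  (12,3)]⟩)) (.Q [0,0,0,0,0,-2,0,0,0,0,1] (.p true [0,0,1] [] (⟨0,[(35,0)]⟩,⟨0,[(34,0)]⟩) .k 0 (⟨0,
  []⟩,⟨0,[]⟩) .k .k) (.Q [0,0,0,-2,0,0,1,1,0,-1,1] (.p true [0,0,1] [1] (⟨0,[(36,0)]⟩,⟨0,[(35,0)]⟩)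
  .k 1 (⟨0,[]⟩,⟨0,[]⟩) .k .k) (.S ⟨1,0,[0,0,-1,-2,0,0,0,1],[0,-1,1],[1,1,-1,-1,0,0,0,1],(⟨0,[(26,
  0)]⟩,⟨0,[(36,0),(1,0)]⟩),⟨0,[(1,0)]⟩,.k,(.r (-1) ⟨9,[(0,2),(12,4),(4,8),(5,2),(7,2),(9,0)]⟩ ⟨0,
  [(8,0)]⟩),⟨false,0,⟨0,[]⟩,⟨21,[(8,1),(4,4),(6,0),(11,5),(2,5),(12,11)]⟩⟩,⟨true,0,⟨0,[(46,0)]⟩,⟨6,
  [(19,1),(0,1),(21,0),(1,0)]⟩⟩,⟨true,0,⟨6,[(19,1),(0,1),(21,0),(1,0)]⟩,⟨0,[(46,0)]⟩⟩,⟨false,1,⟨21,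
  [(8,1),(4,4),(6,0),(11,5),(2,5),(12,11)]⟩,⟨0,[]⟩⟩,[.o ⟨false,0,⟨0,[(0,0)]⟩,⟨9,[(5,3),(1,3),(0,1),
  (4,2),(6,2),(14,1)]⟩⟩,.o ⟨false,1,⟨19,[(0,17),(12,3),(18,5),(1,1),(0,5),(7,0),(4,10)]⟩,⟨0,[(5,
  0)]⟩⟩,.a ⟨true,0,⟨0,[(34,0)]⟩,⟨0,[(31,0)]⟩⟩ ⟨false,0,⟨0,[(18,0)]⟩,⟨5,[(8,3),(4,1),(20,0),(0,0),
  (12,1)]⟩⟩ ⟨true,0,⟨10,[(0,2),(12,0),(3,2),(0,8),(3,2),(25,0)]⟩,⟨0,[(19,0)]⟩⟩,.o ⟨false,0,⟨0,[(0,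
  0),(7,0)]⟩,⟨1,[(31,1),(11,0),(3,0)]⟩⟩]⟩) (.Q [0,0,0,-1,0,0,0,0,-1,1,0,-1] (.p false [0,0,0,0,1]
  [1] (⟨0,[(30,0)]⟩,⟨0,[(29,0)]⟩) .k 1 (⟨0,[]⟩,⟨0,[]⟩) .k .k) (.Q [0,0,1,0,0,0,0,0,1,-1,0,1] (.p
  true [0,0,0,0,1] [1] (⟨0,[(31,0)]⟩,⟨0,[(30,0)]⟩) .k 1 (⟨0,[]⟩,⟨0,[]⟩) .k .k) (.Q [0,0,0,0,0,-1,0,
  0,0,0,0,1] (.ed false [1,-1,0,0,1] .k) (.Q [0,0,0,0,0,0,0,0,-1,1,0,-1] (.p false [0,0,0,0,1] [1]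
  (⟨0,[(33,0)]⟩,⟨0,[(32,0)]⟩) .k 1 (⟨0,[]⟩,⟨0,[]⟩) .k .k) (.S ⟨1,0,[0,0,1],[1,1,0,0,-1],[0,-1,1],
  (⟨0,[(33,0),(8,0)]⟩,⟨0,[(1,0)]⟩),⟨0,[(33,0)]⟩,(.r (-1) ⟨21,[(12,9),(4,2),(6,4),(11,7),(2,7),(12,
  15)]⟩ ⟨5,[(13,1),(6,1),(5,1),(10,1),(9,0),(3,0)]⟩),.k,⟨true,0,⟨0,[(50,0)]⟩,⟨6,[(23,1),(0,1),(21,
  0),(1,0)]⟩⟩,⟨false,0,⟨0,[(50,0)]⟩,⟨14,[(11,1),(0,2),(0,1),(3,0),(6,5),(27,8)]⟩⟩,⟨false,1,⟨21,[(12,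
  1),(4,4),(6,0),(11,5),(2,5),(12,11)]⟩,⟨0,[]⟩⟩,⟨true,0,⟨0,[(54,0)]⟩,⟨0,[]⟩⟩,[.a ⟨true,0,⟨0,[(0,
  0)]⟩,⟨0,[(32,0)]⟩⟩ ⟨false,1,⟨21,[(12,1),(4,4),(6,0),(11,5),(2,5),(12,11)]⟩,⟨2,[(13,0),(6,0),(16,
  0),(10,0)]⟩⟩ ⟨true,0,⟨1,[(38,0),(0,0)]⟩,⟨0,[]⟩⟩,.o ⟨false,1,⟨1,[(0,1),(46,0),(4,0)]⟩,⟨2,[(7,0),
  (24,1),(4,0),(9,0)]⟩⟩,.o ⟨false,1,⟨1,[(0,1),(46,0),(3,0)]⟩,⟨0,[(2,0)]⟩⟩,.e ⟨false,1,⟨0,[(52,0)]⟩,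
  ⟨0,[(54,0)]⟩⟩ ⟨false,1,⟨21,[(12,1),(4,4),(6,0),(11,5),(2,5),(12,11)]⟩,⟨0,[]⟩⟩]⟩) (.R ⟨2,true,
  false,true,[0,1],[1,0,0,0,-1],[1,1,1,1],(⟨0,[]⟩,⟨0,[]⟩),(⟨0,[(33,0)]⟩,⟨0,[(34,0)]⟩),⟨0,[]⟩,.k,.k,
  .k,(.r 0 ⟨4,[(12,1),(11,0),(11,0),(2,0),(14,2)]⟩ ⟨2,[(17,0),(4,0),(27,0),(1,0)]⟩),.k,.k,⟨false,0,
  ⟨6,[(23,1),(0,1),(21,0),(1,0)]⟩,⟨2,[(17,0),(4,0),(27,0),(1,0)]⟩⟩,⟨true,0,⟨0,[(8,0)]⟩,⟨0,[(0,0)]⟩⟩,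
  ⟨false,0,⟨0,[]⟩,⟨21,[(12,1),(4,4),(6,0),(11,5),(2,5),(12,11)]⟩⟩,⟨true,0,⟨0,[(3,0)]⟩,⟨3,[(7,1),(1,
  0),(1,0),(20,1),(14,0)]⟩⟩,⟨true,0,⟨6,[(23,1),(0,1),(21,0),(1,0)]⟩,⟨0,[(50,0)]⟩⟩,⟨false,1,⟨4,[(3,
  0),(2,0),(1,2),(4,0),(10,0),(27,2)]⟩,⟨0,[(0,0)]⟩⟩,[]⟩)) (.Q [0,1,0,0,-1,0,1,1,2,-1,1,2] (.p true
  [0,0,0,0,1] [1,0,-1,0,-1] (⟨0,[(33,0)]⟩,⟨0,[(32,0)]⟩) .k 2 (⟨0,[(0,0),(27,0)]⟩,⟨0,[(33,0),(6,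
  0)]⟩) .k (.r 1 ⟨5,[(17,0),(1,3),(3,0),(2,0),(18,2)]⟩ ⟨2,[(11,0),(4,1),(20,0),(0,0),(12,1)]⟩)) (.Q
  [0,0,0,0,1,0,0,0,-1,-1,0,-1] (.p false [1,-1,0,0,1] [] (⟨0,[(34,0),(9,0)]⟩,⟨0,[(1,0)]⟩) (.r 0 ⟨5,
  [(13,1),(6,1),(5,1),(10,1),(9,0),(3,0)]⟩ ⟨21,[(12,9),(4,2),(6,4),(11,7),(2,7),(12,15)]⟩) 0 (⟨0,
  []⟩,⟨0,[]⟩) .k .k) (.R ⟨0,false,false,true,[0,1,0,0,-1],[0,1,1],[],(⟨0,[(2,0)]⟩,⟨0,[(35,0),(9,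
  0)]⟩),(⟨0,[(42,0),(0,0)]⟩,⟨0,[(30,0)]⟩),⟨0,[(35,0)]⟩,(.r (-1) ⟨21,[(13,9),(4,2),(6,4),(11,7),(2,
  7),(12,15)]⟩ ⟨5,[(14,1),(6,1),(5,1),(10,1),(9,0),(3,0)]⟩),.k,.k,.k,.k,.k,⟨false,2,⟨0,[(18,0)]⟩,⟨2,
  [(19,0),(1,0),(3,0),(2,0)]⟩⟩,⟨true,0,⟨1,[(1,0),(11,0),(0,0),(12,0),(25,0)]⟩,⟨3,[(0,1),(3,1),(7,0),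
  (4,3),(20,2),(14,0)]⟩⟩,⟨true,0,⟨5,[(14,1),(6,1),(5,1),(10,1),(9,0),(3,0)]⟩,⟨7,[(13,1),(11,0),(2,
  0),(8,0),(2,0),(12,0)]⟩⟩,⟨false,(-1),⟨9,[(1,4),(9,1),(2,1),(0,0),(10,4),(10,1),(1,0),(13,0)]⟩,⟨3,
  [(0,1),(3,1),(7,0),(25,2),(14,4)]⟩⟩,⟨false,0,⟨0,[]⟩,⟨0,[]⟩⟩,⟨false,0,⟨0,[]⟩,⟨0,[]⟩⟩,[.o ⟨false,0,
  ⟨23,[(0,8),(7,8),(2,8),(2,7),(13,1),(8,5),(1,0),(8,2)]⟩,⟨0,[(38,0),(12,0),(1,0)]⟩⟩,.a ⟨true,0,⟨4,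
  [(11,1),(2,1),(0,0),(21,1),(1,0),(13,0)]⟩,⟨3,[(5,0),(21,2),(10,2),(14,2)]⟩⟩ ⟨false,1,⟨1,[(52,0),
  (0,0)]⟩,⟨0,[(55,0)]⟩⟩ ⟨true,(-1),⟨5,[(1,2),(9,2),(2,0),(11,2),(1,0),(10,1),(13,2)]⟩,⟨2,[(0,1),(3,
  0),(22,0),(10,2),(14,1)]⟩⟩,.e ⟨false,1,⟨21,[(13,1),(4,4),(6,0),(11,5),(2,5),(12,11)]⟩,⟨0,[]⟩⟩
  ⟨false,(-1),⟨5,[(1,2),(9,2),(2,0),(11,2),(1,0),(10,1),(13,2)]⟩,⟨1,[(0,0),(3,0),(13,0),(3,0),(15,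
  0),(14,0)]⟩⟩,.o ⟨false,1,⟨0,[(0,0)]⟩,⟨0,[(33,0)]⟩⟩]⟩) (.R ⟨0,false,false,true,[0,1,0,0,-1],[0,1,
  1],[0,0,1,1],(⟨0,[(2,0)]⟩,⟨0,[(35,0),(9,0)]⟩),(⟨0,[(42,0),(0,0)]⟩,⟨0,[(30,0)]⟩),⟨0,[(35,0)]⟩,(.r
  (-1) ⟨21,[(13,9),(4,2),(6,4),(11,7),(2,7),(12,15)]⟩ ⟨5,[(14,1),(6,1),(5,1),(10,1),(9,0),(3,0)]⟩),
  .k,.k,.k,.k,.k,⟨false,2,⟨10,[(13,3),(4,9),(6,1),(11,0),(2,0),(12,1)]⟩,⟨0,[(19,0)]⟩⟩,⟨true,0,⟨18,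
  [(0,5),(0,5),(11,1),(0,2),(3,3),(14,0),(5,9),(13,0)]⟩,⟨1,[(4,1),(7,0),(4,1),(20,0),(9,0)]⟩⟩,⟨true,
  0,⟨0,[(55,0)]⟩,⟨0,[]⟩⟩,⟨false,(-1),⟨17,[(0,4),(0,4),(6,2),(5,3),(0,5),(11,2),(9,3),(1,1)]⟩,⟨1,[(4,
  1),(7,0),(25,0),(9,0),(4,1)]⟩⟩,⟨false,0,⟨0,[]⟩,⟨0,[]⟩⟩,⟨false,0,⟨0,[]⟩,⟨0,[]⟩⟩,[.o ⟨false,0,⟨17,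
  [(4,2),(3,8),(2,8),(2,6),(13,0),(3,5),(6,1),(8,5)]⟩,⟨0,[(38,0),(12,0),(1,0)]⟩⟩,.a ⟨true,0,⟨4,[(11,
  1),(2,1),(0,0),(21,1),(1,0),(13,0)]⟩,⟨3,[(5,0),(21,2),(10,2),(14,2)]⟩⟩ ⟨false,1,⟨14,[(12,1),(0,2),
  (0,1),(3,0),(6,5),(27,8)]⟩,⟨5,[(14,1),(6,1),(5,1),(10,1),(9,0),(3,0)]⟩⟩ ⟨true,(-1),⟨14,[(0,4),(0,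
  4),(9,5),(2,0),(0,2),(21,0),(1,7),(13,2)]⟩,⟨1,[(4,1),(33,1),(9,0),(4,0)]⟩⟩,.a ⟨true,1,⟨11,[(4,6),
  (2,4),(3,3),(2,4),(8,0),(24,5)]⟩,⟨1,[(0,1),(38,0),(0,0)]⟩⟩ ⟨true,0,⟨7,[(13,1),(11,0),(2,0),(8,0),
  (2,0),(12,0)]⟩,⟨5,[(14,1),(6,1),(5,1),(10,1),(9,0),(3,0)]⟩⟩ ⟨false,(-1),⟨14,[(0,4),(0,4),(9,5),(2,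
  0),(0,2),(21,0),(1,7),(13,2)]⟩,⟨5,[(4,3),(2,1),(10,1),(3,1),(15,1),(9,2),(4,2)]⟩⟩,.a ⟨true,1,⟨0,
  [(32,0)]⟩,⟨0,[(0,0)]⟩⟩ ⟨false,1,⟨14,[(12,1),(0,2),(0,1),(3,0),(6,5),(27,8)]⟩,⟨0,[(51,0)]⟩⟩ ⟨true,
  (-1),⟨8,[(0,3),(0,0),(6,2),(2,2),(2,2),(13,0),(8,1)]⟩,⟨1,[(4,1),(33,1),(9,0),(4,0)]⟩⟩]⟩)) (.R ⟨0,
  false,false,true,[0,0,0,0,1],[1,-1],[1,0,1],(⟨0,[(34,0)]⟩,⟨0,[(33,0)]⟩),(⟨0,[(44,0)]⟩,⟨0,[(45,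
  0)]⟩),⟨0,[(1,0)]⟩,.k,.k,(.r 0 ⟨5,[(13,1),(6,1),(5,1),(10,1),(9,0),(3,0)]⟩ ⟨21,[(12,9),(4,2),(6,4),
  (11,7),(2,7),(12,15)]⟩),(.r 0 ⟨4,[(12,1),(11,0),(11,0),(2,0),(14,2)]⟩ ⟨2,[(17,0),(4,0),(27,0),(1,
  0)]⟩),.k,.k,⟨true,0,⟨9,[(0,0),(1,1),(13,0),(9,0),(0,3),(10,2),(0,1),(12,4)]⟩,⟨5,[(13,1),(6,1),(5,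
  1),(10,1),(9,0),(3,0)]⟩⟩,⟨false,0,⟨3,[(0,0),(2,0),(4,0),(1,0),(2,0),(11,0)]⟩,⟨1,[(32,1),(14,0),(3,
  0)]⟩⟩,⟨false,1,⟨1,[(38,0),(0,0),(12,1)]⟩,⟨2,[(13,0),(6,0),(16,0),(10,0)]⟩⟩,⟨true,0,⟨0,[(3,0)]⟩,⟨3,
  [(7,1),(1,0),(1,0),(20,1),(14,0)]⟩⟩,⟨false,0,⟨0,[]⟩,⟨0,[]⟩⟩,⟨false,0,⟨0,[]⟩,⟨0,[]⟩⟩,[.e ⟨false,0,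
  ⟨0,[]⟩,⟨1,[(17,0),(6,0)]⟩⟩ ⟨false,0,⟨2,[(0,0),(2,0),(9,0),(6,0),(4,0),(20,0)]⟩,⟨7,[(2,1),(7,1),(0,
  1),(1,1),(18,5),(14,2),(4,2)]⟩⟩,.o ⟨false,0,⟨0,[(50,0)]⟩,⟨29,[(11,3),(0,5),(0,3),(3,1),(6,11),(22,
  14),(4,2)]⟩⟩,.a ⟨true,0,⟨0,[(32,0)]⟩,⟨3,[(0,0),(2,0),(4,0),(1,0),(2,0),(11,0)]⟩⟩ ⟨true,0,⟨1,[(38,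
  0),(0,0)]⟩,⟨2,[(13,0),(6,0),(16,0),(10,0)]⟩⟩ ⟨false,0,⟨0,[(3,0)]⟩,⟨7,[(2,1),(7,1),(0,1),(1,1),(18,
  5),(14,2),(4,2)]⟩⟩,.o ⟨false,0,⟨0,[(2,0)]⟩,⟨18,[(0,7),(12,7),(4,3),(3,1),(1,1),(6,2),(14,0),(0,
  3)]⟩⟩]⟩))) (.Q [0,0,0,0,0,0,0,0,0,-1,1,1] (.ed false [0,0,1,0,1] (.r 1 ⟨1,[(2,1),(5,3),(2,1),(11,
  11),(21,6),(4,4)]⟩ ⟨17,[(10,7),(4,15),(18,5),(1,4),(0,10),(12,3)]⟩)) (.S ⟨1,0,[0,-1,1],[1,1,0,0,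
  -1],[1,0,1,1],(⟨0,[(32,0),(8,0)]⟩,⟨1,[(0,0),(13,0),(18,0)]⟩),⟨0,[(32,0)]⟩,(.r (-1) ⟨21,[(11,9),(4,
  2),(6,4),(11,7),(2,7),(12,15)]⟩ ⟨5,[(12,1),(6,1),(5,1),(10,1),(9,0),(3,0)]⟩),.k,⟨false,0,⟨0,[]⟩,
  ⟨21,[(11,1),(4,4),(6,0),(11,5),(2,5),(12,11)]⟩⟩,⟨true,0,⟨0,[(49,0)]⟩,⟨6,[(22,1),(0,1),(21,0),(1,
  0)]⟩⟩,⟨true,0,⟨6,[(22,1),(0,1),(21,0),(1,0)]⟩,⟨0,[(49,0)]⟩⟩,⟨false,1,⟨21,[(11,1),(4,4),(6,0),(11,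
  5),(2,5),(12,11)]⟩,⟨0,[]⟩⟩,[.o ⟨false,1,⟨1,[(1,0),(5,0),(38,0),(4,0)]⟩,⟨2,[(6,0),(24,1),(4,0),(9,
  0)]⟩⟩,.e ⟨false,1,⟨14,[(10,1),(0,2),(0,1),(3,0),(6,5),(27,8)]⟩,⟨5,[(12,1),(6,1),(5,1),(10,1),(9,
  0),(3,0)]⟩⟩ ⟨false,1,⟨0,[(51,0)]⟩,⟨0,[(45,0)]⟩⟩,.a ⟨true,0,⟨0,[(1,0)]⟩,⟨1,[(31,1),(5,0),(0,0)]⟩⟩
  ⟨true,0,⟨7,[(11,1),(11,0),(2,0),(8,0),(2,0),(12,0)]⟩,⟨5,[(12,1),(6,1),(5,1),(10,1),(9,0),(3,0)]⟩⟩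
  ⟨false,1,⟨1,[(37,0),(0,0),(12,1)]⟩,⟨2,[(1,0),(4,0),(29,0),(13,0)]⟩⟩,.e ⟨false,1,⟨14,[(10,1),(0,2),
  (0,1),(3,0),(6,5),(27,8)]⟩,⟨0,[(49,0)]⟩⟩ ⟨false,1,⟨0,[(51,0)]⟩,⟨0,[(53,0)]⟩⟩]⟩) (.Q [0,0,1,0,0,0,
  1,0,-1,0,1,-1] (.p true [0,0,1] [0,0,0,0,1] (⟨0,[(40,0)]⟩,⟨0,[(39,0)]⟩) .k 2 (⟨0,[(33,0)]⟩,⟨0,
  [(32,0)]⟩) .k (.r 0 ⟨1,[(13,0),(7,0),(29,0)]⟩ ⟨7,[(11,1),(4,3),(19,1),(0,2),(0,0),(14,9)]⟩)) (.K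
  ⟨0,[0,1,0,0,1],0,(-1),(⟨0,[(34,0),(7,0)]⟩,⟨1,[(1,0),(3,0),(27,0)]⟩),(.r 0 ⟨4,[(12,1),(11,0),(11,
  0),(2,0),(14,2)]⟩ ⟨2,[(17,0),(4,0),(27,0),(1,0)]⟩),.k,(.r 1 ⟨9,[(0,0),(6,0),(11,0),(0,0),(4,0),(1,
  6),(9,0),(8,1)]⟩ ⟨8,[(17,7),(4,4),(13,2),(2,2),(10,4),(1,1)]⟩),(.r 0 ⟨1,[(23,0),(13,0),(0,0)]⟩
  ⟨13,[(17,2),(4,11),(1,0),(11,3),(2,3),(12,7)]⟩),.k,[⟨0,[(0,0)]⟩,⟨0,[(32,0)]⟩,⟨0,[(31,0),(18,0)]⟩,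
  ⟨3,[(4,1),(2,2),(11,0),(5,0),(6,0)]⟩]⟩) (.S ⟨1,0,[0,1,-1,-2,0,0,0,1],[0,-1,1],[0,0,-1,-2,0,0,0,1],
  (⟨0,[(30,0)]⟩,⟨0,[(40,0),(1,0)]⟩),⟨0,[(5,0)]⟩,.k,(.r (-1) ⟨46,[(17,24),(4,56),(3,5),(9,14),(2,14),
  (6,1),(0,2)]⟩ ⟨0,[(12,0)]⟩),⟨true,0,⟨0,[(50,0)]⟩,⟨6,[(23,1),(0,1),(21,0),(1,0)]⟩⟩,⟨false,0,⟨0,
  [(50,0)]⟩,⟨14,[(11,1),(0,2),(0,1),(3,0),(6,5),(27,8)]⟩⟩,⟨false,1,⟨21,[(12,1),(4,4),(6,0),(11,5),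
  (2,5),(12,11)]⟩,⟨0,[]⟩⟩,⟨true,0,⟨0,[(54,0)]⟩,⟨0,[]⟩⟩,[.o ⟨false,0,⟨3,[(3,0),(3,0),(14,2),(3,1),
  (11,2),(8,2)]⟩,⟨0,[(11,0)]⟩⟩,.a ⟨true,0,⟨0,[(22,0),(15,0),(11,0)]⟩,⟨0,[(4,0)]⟩⟩ ⟨false,1,⟨2,[(17,
  0),(4,3),(27,0),(1,0)]⟩,⟨0,[(23,0)]⟩⟩ ⟨true,0,⟨0,[(22,0),(27,0)]⟩,⟨0,[(12,0)]⟩⟩,.a ⟨true,0,⟨0,
  [(38,0)]⟩,⟨0,[(35,0)]⟩⟩ ⟨true,0,⟨0,[(22,0),(27,0)]⟩,⟨0,[(23,0)]⟩⟩ ⟨false,0,⟨0,[(22,0),(27,0)]⟩,⟨9,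
  [(11,1),(0,7),(0,1),(3,0),(6,0),(27,3)]⟩⟩,.a ⟨true,0,⟨1,[(38,2),(0,0)]⟩,⟨0,[(0,0),(1,0)]⟩⟩ ⟨false,
  1,⟨2,[(17,0),(4,3),(27,0),(1,0)]⟩,⟨0,[(12,0)]⟩⟩ ⟨true,0,⟨1,[(17,0),(2,2),(30,0)]⟩,⟨0,[(12,
  0)]⟩⟩]⟩)))) (.Q [0,0,1,0,-1,0,0,0,1,0,0,1] (.p true [0,0,0,0,1] [] (⟨0,[(31,0)]⟩,⟨0,[(30,0)]⟩) .k
  0 (⟨0,[]⟩,⟨0,[]⟩) .k .k) (.Q [0,0,0,0,1,0,1,0,-1,0,1,-1] (.p true [0,0,1] [0,0,0,0,1] (⟨0,[(39,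
  0)]⟩,⟨0,[(38,0)]⟩) .k 2 (⟨0,[(32,0)]⟩,⟨0,[(31,0)]⟩) .k (.r 0 ⟨1,[(12,0),(7,0),(29,0)]⟩ ⟨7,[(10,1),
  (4,3),(19,1),(0,2),(0,0),(14,9)]⟩)) (.K ⟨0,[0,0,0,0,1],(-1),(-1),(⟨0,[(33,0)]⟩,⟨0,[(32,0)]⟩),.k,
  (.r 0 ⟨5,[(12,1),(6,1),(5,1),(10,1),(9,0),(3,0)]⟩ ⟨21,[(11,9),(4,2),(6,4),(11,7),(2,7),(12,15)]⟩),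
  (.r 0 ⟨4,[(11,1),(11,0),(11,0),(2,0),(14,2)]⟩ ⟨2,[(16,0),(4,0),(27,0),(1,0)]⟩),.k,.k,[⟨0,[(0,0)]⟩,
  ⟨0,[(1,0)]⟩,⟨0,[(30,0)]⟩,⟨1,[(6,0),(11,0),(5,0),(6,0)]⟩]⟩) (.S ⟨1,0,[0,0,-1,-2,0,0,0,1],[0,-1,1],
  [1,1,-1,-1,0,0,0,1],(⟨0,[(29,0)]⟩,⟨0,[(39,0),(1,0)]⟩),⟨0,[(4,0)]⟩,.k,(.r (-1) ⟨46,[(16,24),(4,56),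
  (3,5),(9,14),(2,14),(6,1),(0,2)]⟩ ⟨0,[(11,0)]⟩),⟨false,0,⟨0,[]⟩,⟨21,[(11,1),(4,4),(6,0),(11,5),(2,
  5),(12,11)]⟩⟩,⟨true,0,⟨0,[(49,0)]⟩,⟨6,[(22,1),(0,1),(21,0),(1,0)]⟩⟩,⟨true,0,⟨6,[(22,1),(0,1),(21,
  0),(1,0)]⟩,⟨0,[(49,0)]⟩⟩,⟨false,1,⟨21,[(11,1),(4,4),(6,0),(11,5),(2,5),(12,11)]⟩,⟨0,[]⟩⟩,[.a
  ⟨true,0,⟨0,[(21,0),(15,0),(11,0)]⟩,⟨0,[(3,0)]⟩⟩ ⟨false,0,⟨0,[(19,0),(30,0)]⟩,⟨5,[(11,3),(4,1),(20,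
  0),(0,0),(12,1)]⟩⟩ ⟨true,0,⟨0,[(21,0),(27,0)]⟩,⟨0,[(11,0)]⟩⟩,.o ⟨false,1,⟨1,[(21,1),(15,1),(8,0),
  (2,1),(1,0)]⟩,⟨0,[(8,0)]⟩⟩,.a ⟨true,0,⟨0,[(37,0)]⟩,⟨0,[(34,0)]⟩⟩ ⟨false,0,⟨0,[(21,0)]⟩,⟨5,[(11,3),
  (4,1),(20,0),(0,0),(12,1)]⟩⟩ ⟨true,0,⟨0,[(21,0),(27,0)]⟩,⟨0,[(22,0)]⟩⟩,.a ⟨true,0,⟨1,[(37,2),(0,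
  0)]⟩,⟨0,[(0,0),(4,0),(6,0),(2,0)]⟩⟩ ⟨true,0,⟨0,[(19,0),(30,0)]⟩,⟨0,[(11,0),(37,0)]⟩⟩ ⟨false,1,⟨2,
  [(16,0),(4,3),(27,0),(1,0)]⟩,⟨0,[(11,0)]⟩⟩]⟩)) (.Q [0,0,0,0,0,-1,0,0,0,0,0,1] (.ed false [1,-1,0,
  0,1] .k) (.S ⟨1,0,[0,2,0,-1],[0,0,0,0,1],[1,1],(⟨0,[(33,0)]⟩,⟨0,[(32,0)]⟩),⟨0,[(0,0)]⟩,.k,(.r 0
  ⟨5,[(12,1),(6,1),(5,1),(10,1),(9,0),(3,0)]⟩ ⟨21,[(11,9),(4,2),(6,4),(11,7),(2,7),(12,15)]⟩),⟨true,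
  0,⟨0,[]⟩,⟨0,[(53,0)]⟩⟩,⟨false,0,⟨0,[(49,0)]⟩,⟨14,[(10,1),(0,2),(0,1),(3,0),(6,5),(27,8)]⟩⟩,⟨false,
  1,⟨14,[(10,1),(0,2),(0,1),(3,0),(6,5),(27,8)]⟩,⟨0,[(49,0)]⟩⟩,⟨true,0,⟨0,[(53,0)]⟩,⟨0,[]⟩⟩,[.o
  ⟨false,(-1),⟨0,[(2,0),(21,1),(21,0)]⟩,⟨8,[(1,3),(8,0),(1,0),(10,0),(2,1),(3,4),(20,8)]⟩⟩,.a ⟨true,
  (-1),⟨0,[(2,0),(22,0)]⟩,⟨6,[(1,1),(1,1),(3,4),(1,0),(2,1),(10,0),(27,3)]⟩⟩ ⟨true,0,⟨0,[]⟩,⟨1,[(37,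
  0),(0,0)]⟩⟩ ⟨false,0,⟨5,[(12,1),(6,1),(5,1),(10,1),(9,0),(3,0)]⟩,⟨14,[(10,1),(0,2),(0,1),(3,0),(6,
  5),(27,8)]⟩⟩,.o ⟨false,0,⟨0,[(2,0),(46,0)]⟩,⟨0,[(30,0)]⟩⟩,.o ⟨false,0,⟨2,[(2,0),(23,0),(4,1),(14,
  0),(2,3)]⟩,⟨0,[(1,0)]⟩⟩]⟩) (.R ⟨0,false,false,false,[0,0,0,0,1],[0,1],[1,0,2,1],(⟨0,[(33,0)]⟩,⟨0,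
  [(32,0)]⟩),(⟨0,[(44,0)]⟩,⟨0,[(43,0)]⟩),⟨0,[(0,0)]⟩,.k,.k,(.r 0 ⟨5,[(12,1),(6,1),(5,1),(10,1),(9,
  0),(3,0)]⟩ ⟨21,[(11,9),(4,2),(6,4),(11,7),(2,7),(12,15)]⟩),(.r 0 ⟨5,[(12,1),(6,1),(5,1),(10,1),(9,
  0),(3,0)]⟩ ⟨21,[(11,9),(4,2),(6,4),(11,7),(2,7),(12,15)]⟩),.k,.k,⟨false,0,⟨0,[]⟩,⟨1,[(16,0),(6,
  0)]⟩⟩,⟨true,1,⟨0,[(1,0)]⟩,⟨2,[(2,1),(22,1),(0,1),(4,0),(17,3),(1,0)]⟩⟩,⟨true,0,⟨3,[(26,1),(10,0),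
  (0,0),(10,1),(1,1)]⟩,⟨0,[(12,0),(6,0),(16,0)]⟩⟩,⟨false,2,⟨8,[(1,3),(8,0),(1,0),(10,0),(2,1),(3,4),
  (20,8)]⟩,⟨0,[(2,0),(22,0)]⟩⟩,⟨false,0,⟨0,[]⟩,⟨0,[]⟩⟩,⟨false,0,⟨0,[]⟩,⟨0,[]⟩⟩,[.o ⟨false,1,⟨29,
  [(10,3),(0,5),(0,3),(3,1),(6,11),(22,14),(4,2)]⟩,⟨0,[(49,0)]⟩⟩,.a ⟨true,1,⟨14,[(10,1),(0,2),(0,1),
  (3,0),(6,5),(27,8)]⟩,⟨0,[(24,0)]⟩⟩ ⟨true,0,⟨3,[(26,1),(10,0),(0,0),(10,1),(1,1)]⟩,⟨5,[(12,1),(6,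
  1),(5,1),(10,1),(9,0),(3,0)]⟩⟩ ⟨false,2,⟨17,[(1,10),(8,4),(1,4),(10,4),(2,0),(3,6),(20,8)]⟩,⟨0,
  [(2,0),(22,0)]⟩⟩,.o ⟨false,0,⟨0,[(2,0),(46,0)]⟩,⟨0,[(30,0)]⟩⟩,.o ⟨false,0,⟨2,[(2,0),(23,0),(4,1),
  (14,0),(2,3)]⟩,⟨0,[(1,0)]⟩⟩]⟩))))) (.Q [0,0,0,0,0,0,0,0,0,0,-1,1] (.ed false [1,0,-1,0,1] (.r
  (-1) ⟨7,[(7,1),(4,3),(19,1),(0,2),(0,0),(14,9)]⟩ ⟨1,[(9,0),(7,0),(29,0)]⟩)) (.Q [0,0,2,0,0,0,1,0,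
  0,-1,1] (.p true [0,0,1] [1] (⟨0,[(37,0)]⟩,⟨0,[(36,0)]⟩) .k 1 (⟨0,[]⟩,⟨0,[]⟩) .k .k) (.R ⟨0,false,
  false,false,[0,-1,1],[1,-1],[],(⟨0,[(27,0)]⟩,⟨0,[(2,0),(38,0)]⟩),(⟨0,[(41,0)]⟩,⟨0,[(42,0)]⟩),⟨0,
  [(2,0)]⟩,.k,.k,(.r (-1) ⟨46,[(14,24),(4,56),(3,5),(9,14),(2,14),(6,1),(0,2)]⟩ ⟨0,[(9,0)]⟩),.k,.k,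
  .k,⟨true,0,⟨7,[(9,1),(11,0),(2,0),(8,0),(2,0),(12,0)]⟩,⟨0,[(47,0)]⟩⟩,⟨false,0,⟨0,[(32,0)]⟩,⟨4,[(0,
  2),(9,1),(3,0),(6,0),(22,0)]⟩⟩,⟨false,1,⟨5,[(9,3),(4,1),(20,0),(0,0),(12,1)]⟩,⟨0,[(19,0)]⟩⟩,⟨true,
  0,⟨0,[(8,0),(14,0)]⟩,⟨2,[(0,0),(9,0),(4,1),(17,0),(10,0)]⟩⟩,⟨false,0,⟨0,[]⟩,⟨0,[]⟩⟩,⟨false,0,⟨0,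
  []⟩,⟨0,[]⟩⟩,[.o ⟨false,0,⟨0,[(47,0)]⟩,⟨29,[(8,3),(0,5),(0,3),(3,1),(6,11),(22,14),(4,2)]⟩⟩,.e
  ⟨false,1,⟨1,[(48,0),(0,0)]⟩,⟨0,[(51,0)]⟩⟩ ⟨false,1,⟨7,[(14,2),(3,0),(0,2),(3,0),(8,6),(16,2)]⟩,⟨0,
  [(0,0),(44,0)]⟩⟩,.a ⟨true,0,⟨0,[(35,0)]⟩,⟨0,[(32,0)]⟩⟩ ⟨false,1,⟨21,[(9,1),(4,4),(6,0),(11,5),(2,
  5),(12,11)]⟩,⟨0,[]⟩⟩ ⟨true,0,⟨7,[(14,0),(3,2),(0,0),(3,2),(8,4),(16,0)]⟩,⟨0,[(0,0),(44,0)]⟩⟩,.o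
  ⟨false,0,⟨0,[(0,0)]⟩,⟨1,[(32,1),(11,0),(3,0)]⟩⟩]⟩) (.R ⟨0,false,false,false,[0,-1,1],[1,-1],[1],
  (⟨0,[(27,0)]⟩,⟨0,[(2,0),(38,0)]⟩),(⟨0,[(41,0)]⟩,⟨0,[(42,0)]⟩),⟨0,[(2,0)]⟩,.k,.k,(.r (-1) ⟨46,[(14,
  24),(4,56),(3,5),(9,14),(2,14),(6,1),(0,2)]⟩ ⟨0,[(9,0)]⟩),.k,.k,.k,⟨true,0,⟨7,[(9,1),(11,0),(2,0),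
  (8,0),(2,0),(12,0)]⟩,⟨0,[(47,0)]⟩⟩,⟨false,0,⟨0,[(32,0)]⟩,⟨33,[(9,1),(0,7),(3,3),(18,5),(1,19),(8,
  16),(4,0)]⟩⟩,⟨false,1,⟨5,[(9,3),(4,1),(20,0),(0,0),(12,1)]⟩,⟨0,[(19,0)]⟩⟩,⟨true,0,⟨0,[(8,0),(14,
  0)]⟩,⟨2,[(4,0),(5,0),(0,0),(5,0),(10,0),(6,0),(8,0)]⟩⟩,⟨false,0,⟨0,[]⟩,⟨0,[]⟩⟩,⟨false,0,⟨0,[]⟩,⟨0,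
  []⟩⟩,[.o ⟨false,0,⟨0,[(47,0)]⟩,⟨29,[(8,3),(0,5),(0,3),(3,1),(6,11),(22,14),(4,2)]⟩⟩,.e ⟨false,1,
  ⟨1,[(48,0),(0,0)]⟩,⟨0,[(51,0)]⟩⟩ ⟨false,1,⟨7,[(0,0),(13,2),(4,2),(3,0),(1,0),(6,4),(16,2)]⟩,⟨2,
  [(10,1),(11,2),(1,1),(10,0),(8,2)]⟩⟩,.e ⟨true,0,⟨0,[]⟩,⟨0,[(51,0)]⟩⟩ ⟨true,0,⟨15,[(0,4),(13,1),(3,
  0),(0,1),(3,5),(1,4),(23,1)]⟩,⟨2,[(10,1),(11,2),(1,1),(10,0),(8,2)]⟩⟩,.a ⟨true,0,⟨1,[(35,2),(0,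
  0)]⟩,⟨0,[(0,0)]⟩⟩ ⟨false,1,⟨1,[(48,0),(0,0)]⟩,⟨1,[(35,0),(0,0)]⟩⟩ ⟨true,0,⟨0,[(0,0),(46,0)]⟩,⟨1,
  [(4,0),(0,0),(3,0),(25,0),(8,0)]⟩⟩]⟩)) (.Q [0,0,1,0,-1,0,0,0,1,0,0,1] (.p true [0,0,0,0,1] [] (⟨0,
  [(30,0)]⟩,⟨0,[(29,0)]⟩) .k 0 (⟨0,[]⟩,⟨0,[]⟩) .k .k) (.Q [0,0,0,0,1,0,1,0,-1,0,1,-1] (.p false [1,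
  0,-1,0,1] [1] (⟨0,[(31,0),(5,0)]⟩,⟨0,[(1,0)]⟩) .k 1 (⟨0,[]⟩,⟨0,[]⟩) .k (.r (-1) ⟨7,[(9,1),(4,3),
  (19,1),(0,2),(0,0),(14,9)]⟩ ⟨1,[(11,0),(7,0),(29,0)]⟩)) (.K ⟨0,[0,0,0,0,1],(-1),(-1),(⟨0,[(32,
  0)]⟩,⟨0,[(31,0)]⟩),.k,(.r 0 ⟨5,[(11,1),(6,1),(5,1),(10,1),(9,0),(3,0)]⟩ ⟨2,[(0,0),(9,0),(11,0),(7,
  0),(6,0),(12,1)]⟩),(.r 0 ⟨4,[(10,1),(11,0),(11,0),(2,0),(14,2)]⟩ ⟨2,[(15,0),(4,0),(27,0),(1,0)]⟩),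
  .k,.k,[⟨0,[(0,0)]⟩,⟨0,[(1,0)]⟩,⟨0,[(29,0)]⟩,⟨1,[(5,0),(11,0),(5,0),(6,0)]⟩]⟩) (.S ⟨1,0,[0,2,0,-1,
  0,0,0,-1],[1,0,-1,0,1],[1,1,0,0,0,0,0,-1],(⟨0,[(32,0),(5,0)]⟩,⟨0,[(2,0)]⟩),⟨0,[(27,0),(4,0)]⟩,.k,
  (.r (-1) ⟨8,[(15,4),(8,1),(10,3),(0,3),(7,2),(0,0),(6,1)]⟩ ⟨6,[(12,0),(1,2),(7,2),(2,0),(24,4)]⟩),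
  ⟨true,0,⟨0,[]⟩,⟨0,[(52,0)]⟩⟩,⟨false,0,⟨0,[(48,0)]⟩,⟨14,[(9,1),(0,2),(0,1),(3,0),(6,5),(27,8)]⟩⟩,
  ⟨false,1,⟨14,[(9,1),(0,2),(0,1),(3,0),(6,5),(27,8)]⟩,⟨0,[(48,0)]⟩⟩,⟨true,0,⟨0,[(52,0)]⟩,⟨0,[]⟩⟩,
  [.o ⟨false,(-1),⟨19,[(0,4),(0,9),(3,4),(5,2),(3,1),(8,8),(10,22),(9,1)]⟩,⟨0,[(6,0),(4,0),(0,0),
  (32,0),(4,0)]⟩⟩,.a ⟨true,(-1),⟨2,[(0,1),(9,0),(4,0),(7,1),(0,0),(5,0),(4,0)]⟩,⟨1,[(6,1),(4,1),(0,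
  1),(32,0),(4,0)]⟩⟩ ⟨true,1,⟨7,[(10,1),(4,3),(19,1),(0,2),(0,0),(14,1)]⟩,⟨0,[(14,0)]⟩⟩ ⟨false,1,⟨8,
  [(15,4),(8,1),(10,3),(0,3),(7,2),(0,0),(6,1)]⟩,⟨5,[(8,3),(11,1),(28,0),(0,2)]⟩⟩,.o ⟨false,(-1),⟨0,
  [(0,0)]⟩,⟨33,[(10,1),(0,7),(3,3),(13,33),(4,5),(1,19),(8,16),(4,0)]⟩⟩,.o ⟨false,(-1),⟨1,[(0,0),(0,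
  0),(35,0)]⟩,⟨0,[(6,0),(4,0),(33,0)]⟩⟩]⟩)) (.Q [0,0,2,0,0,0,1,0,0,-1,1] (.p true [0,0,1] [1] (⟨0,
  [(38,0)]⟩,⟨0,[(37,0)]⟩) .k 1 (⟨0,[]⟩,⟨0,[]⟩) .k .k) (.R ⟨0,false,false,false,[0,-1,1],[1,-1],[],
  (⟨0,[(28,0)]⟩,⟨0,[(3,0),(38,0)]⟩),(⟨0,[(42,0)]⟩,⟨0,[(43,0)]⟩),⟨0,[(3,0)]⟩,.k,.k,(.r (-1) ⟨46,[(15,
  24),(4,56),(3,5),(9,14),(2,14),(6,1),(0,2)]⟩ ⟨0,[(10,0)]⟩),.k,.k,.k,⟨true,0,⟨17,[(0,0),(5,0),(3,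
  3),(11,3),(2,1),(4,0),(6,0),(12,1)]⟩,⟨0,[(48,0)]⟩⟩,⟨false,0,⟨0,[(33,0)]⟩,⟨4,[(0,2),(10,1),(3,0),
  (6,0),(22,0)]⟩⟩,⟨false,1,⟨11,[(0,0),(5,0),(3,7),(4,3),(14,0),(6,0),(12,3)]⟩,⟨0,[(20,0)]⟩⟩,⟨true,0,
  ⟨0,[(9,0),(14,0)]⟩,⟨8,[(0,2),(0,3),(3,3),(5,0),(0,1),(7,1),(13,0),(10,0)]⟩⟩,⟨false,0,⟨0,[]⟩,⟨0,
  []⟩⟩,⟨false,0,⟨0,[]⟩,⟨0,[]⟩⟩,[.o ⟨false,0,⟨0,[(48,0)]⟩,⟨29,[(9,3),(0,5),(0,3),(3,1),(6,11),(22,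
  14),(4,2)]⟩⟩,.e ⟨false,1,⟨1,[(49,0),(0,0)]⟩,⟨0,[(52,0)]⟩⟩ ⟨false,1,⟨7,[(15,2),(3,0),(0,2),(3,0),
  (8,6),(16,2)]⟩,⟨0,[(0,0),(45,0)]⟩⟩,.a ⟨true,0,⟨0,[(36,0)]⟩,⟨0,[(33,0)]⟩⟩ ⟨false,1,⟨21,[(10,1),(4,
  4),(6,0),(11,5),(2,5),(12,11)]⟩,⟨0,[]⟩⟩ ⟨true,0,⟨7,[(15,0),(3,2),(0,0),(3,2),(8,4),(16,0)]⟩,⟨0,
  [(0,0),(45,0)]⟩⟩,.o ⟨false,0,⟨0,[(0,0)]⟩,⟨1,[(33,1),(11,0),(3,0)]⟩⟩]⟩) (.R ⟨0,false,false,false,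
  [0,-1,1],[1,-1],[1],(⟨0,[(28,0)]⟩,⟨0,[(3,0),(38,0)]⟩),(⟨0,[(42,0)]⟩,⟨0,[(43,0)]⟩),⟨0,[(3,0)]⟩,.k,
  .k,(.r (-1) ⟨46,[(15,24),(4,56),(3,5),(9,14),(2,14),(6,1),(0,2)]⟩ ⟨0,[(10,0)]⟩),.k,.k,.k,⟨true,0,
  ⟨7,[(10,1),(11,0),(2,0),(8,0),(2,0),(12,0)]⟩,⟨0,[(48,0)]⟩⟩,⟨false,0,⟨0,[(33,0)]⟩,⟨33,[(10,1),(0,
  7),(3,3),(18,5),(1,19),(8,16),(4,0)]⟩⟩,⟨false,1,⟨5,[(10,3),(4,1),(20,0),(0,0),(12,1)]⟩,⟨0,[(20,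
  0)]⟩⟩,⟨true,0,⟨0,[(9,0),(14,0)]⟩,⟨10,[(1,2),(3,2),(5,1),(0,2),(5,2),(15,1),(1,3),(8,3)]⟩⟩,⟨false,
  0,⟨0,[]⟩,⟨0,[]⟩⟩,⟨false,0,⟨0,[]⟩,⟨0,[]⟩⟩,[.o ⟨false,0,⟨0,[(48,0)]⟩,⟨29,[(9,3),(0,5),(0,3),(3,1),
  (6,11),(22,14),(4,2)]⟩⟩,.e ⟨false,1,⟨1,[(49,0),(0,0)]⟩,⟨0,[(52,0)]⟩⟩ ⟨false,1,⟨7,[(0,0),(14,2),(4,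
  2),(3,0),(1,0),(6,4),(16,2)]⟩,⟨2,[(11,1),(11,2),(1,1),(10,0),(8,2)]⟩⟩,.e ⟨true,0,⟨0,[]⟩,⟨0,[(52,
  0)]⟩⟩ ⟨true,0,⟨8,[(0,2),(14,0),(4,0),(3,2),(1,2),(21,0),(1,0)]⟩,⟨2,[(11,1),(11,2),(1,1),(10,0),(8,
  2)]⟩⟩,.a ⟨true,0,⟨1,[(36,2),(0,0)]⟩,⟨0,[(0,0)]⟩⟩ ⟨false,1,⟨1,[(49,0),(0,0)]⟩,⟨1,[(36,0),(0,0)]⟩⟩
  ⟨true,0,⟨0,[(0,0),(47,0)]⟩,⟨1,[(5,0),(0,0),(3,0),(25,0),(8,0)]⟩⟩]⟩))))) (.Q [0,0,0,0,0,0,1,0,1,-1,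
  1,1] (.p true [0,0,1] [1,0,0,0,-1] (⟨0,[(35,0)]⟩,⟨0,[(34,0)]⟩) .k 2 (⟨0,[(27,0)]⟩,⟨0,[(28,0)]⟩)
  .k (.r 1 ⟨0,[(3,0),(0,1),(2,0),(11,5),(21,2),(4,2)]⟩ ⟨17,[(6,7),(4,15),(18,5),(1,4),(0,10),(12,
  3)]⟩)) (.K ⟨0,[1,0,0,0,-1],0,1,(⟨0,[(28,0)]⟩,⟨0,[(29,0)]⟩),.k,(.r (-1) ⟨2,[(12,0),(4,0),(27,0),(1,
  0)]⟩ ⟨4,[(7,1),(11,0),(11,0),(2,0),(14,2)]⟩),(.r (-1) ⟨21,[(7,9),(4,2),(6,4),(11,7),(2,7),(12,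
  15)]⟩ ⟨5,[(8,1),(6,1),(5,1),(10,1),(9,0),(3,0)]⟩),.k,.k,[⟨0,[(0,0)]⟩,⟨0,[(3,0)]⟩,⟨0,[(0,0),(13,0),
  (0,0)]⟩,⟨1,[(3,1),(8,0),(6,0)]⟩]⟩) (.Q [0,0,0,0,1,0,1,0,-1,0,1,-1] (.p true [0,0,1] [0,0,0,0,1]
  (⟨0,[(36,0)]⟩,⟨0,[(35,0)]⟩) .k 2 (⟨0,[(29,0)]⟩,⟨0,[(28,0)]⟩) .k (.r 0 ⟨1,[(9,0),(7,0),(29,0)]⟩ ⟨7,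
  [(7,1),(4,3),(19,1),(0,2),(0,0),(14,9)]⟩)) (.K ⟨0,[0,0,0,0,1],(-1),(-1),(⟨0,[(30,0)]⟩,⟨0,[(29,
  0)]⟩),.k,(.r 0 ⟨5,[(9,1),(6,1),(5,1),(10,1),(9,0),(3,0)]⟩ ⟨2,[(0,0),(7,0),(11,0),(7,0),(6,0),(12,
  1)]⟩),(.r 0 ⟨4,[(8,1),(11,0),(11,0),(2,0),(14,2)]⟩ ⟨2,[(13,0),(4,0),(27,0),(1,0)]⟩),.k,.k,[⟨0,[(0,
  0)]⟩,⟨0,[(2,0),(4,0),(14,0)]⟩,⟨0,[(27,0)]⟩,⟨1,[(3,0),(11,0),(5,0),(6,0)]⟩]⟩) (.I [1,2,2,2,-1,0,0,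
  -1] (.I [0,0,2,0,1,2,1,0,-2] (.I [1,-2,-2,-2,1,0,0,1] (.I [0,0,-2,0,0,-2,-1,0,2] (.N [0,-2,1,0,
  -2] (-1) ⟨0,[(1,0)]⟩ ⟨0,[(3,0)]⟩ (.x (-1) ⟨0,[(2,0)]⟩ ⟨0,[(0,0)]⟩)) (.S ⟨1,0,[0,0,1],[1,1,0,0,-1],
  [0,-1,1],(⟨0,[(33,0),(8,0)]⟩,⟨4,[(0,0),(3,1),(8,0),(1,1),(14,2),(3,2),(12,0)]⟩),⟨0,[(33,0)]⟩,(.r
  (-1) ⟨21,[(12,9),(4,2),(6,4),(11,7),(2,7),(12,15)]⟩ ⟨14,[(1,0),(11,5),(6,4),(5,3),(10,5),(8,0),(0,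
  1)]⟩),.k,⟨true,0,⟨0,[(50,0)]⟩,⟨6,[(23,1),(0,1),(21,0),(1,0)]⟩⟩,⟨false,0,⟨0,[(50,0)]⟩,⟨14,[(11,1),
  (0,2),(0,1),(3,0),(6,5),(27,8)]⟩⟩,⟨false,1,⟨21,[(12,1),(4,4),(6,0),(11,5),(2,5),(12,11)]⟩,⟨0,[]⟩⟩,
  ⟨true,0,⟨0,[(54,0)]⟩,⟨0,[]⟩⟩,[.o ⟨false,1,⟨0,[(31,0)]⟩,⟨6,[(4,2),(1,1),(0,0),(4,0),(4,1),(14,0),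
  (14,1)]⟩⟩,.e ⟨false,1,⟨0,[(52,0)]⟩,⟨0,[(46,0)]⟩⟩ ⟨false,1,⟨21,[(12,1),(4,4),(6,0),(11,5),(2,5),
  (12,11)]⟩,⟨2,[(13,0),(6,0),(16,0),(10,0)]⟩⟩,.a ⟨true,1,⟨3,[(5,1),(2,1),(4,1),(3,0),(6,0)]⟩,⟨0,[(4,
  0),(33,0)]⟩⟩ ⟨false,1,⟨1,[(38,0),(0,0),(12,1)]⟩,⟨2,[(13,0),(6,0),(16,0),(10,0)]⟩⟩ ⟨true,0,⟨1,[(38,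
  0),(0,0)]⟩,⟨2,[(13,0),(6,0),(16,0),(10,0)]⟩⟩,.o ⟨false,1,⟨0,[(31,0)]⟩,⟨6,[(4,2),(1,1),(0,0),(4,0),
  (4,1),(14,0),(14,1)]⟩⟩]⟩)) (.Q [0,0,0,0,0,0,0,0,0,-1,1,1] (.ed false [0,0,1,0,1] (.r 1 ⟨1,[(0,1),
  (2,1),(0,1),(4,3),(2,3),(11,11),(21,6),(4,6)]⟩ ⟨17,[(11,7),(4,15),(18,5),(1,4),(0,10),(12,3)]⟩))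
  (.S ⟨1,0,[0,-1,0,-1,0,0,0,-1],[2,0,-1,0,-1],[1,0,0,0,0,0,0,-1],(⟨0,[(33,0),(6,0)]⟩,⟨0,[(0,0)]⟩),
  ⟨0,[(29,0),(3,0)]⟩,.k,(.r (-2) ⟨1,[(17,1),(20,0),(0,0)]⟩ ⟨7,[(3,0),(10,2),(5,2),(3,2),(2,0)]⟩),
  ⟨false,0,⟨0,[]⟩,⟨21,[(12,1),(4,4),(6,0),(11,5),(2,5),(12,11)]⟩⟩,⟨true,0,⟨0,[(50,0)]⟩,⟨6,[(23,1),
  (0,1),(21,0),(1,0)]⟩⟩,⟨true,0,⟨6,[(23,1),(0,1),(21,0),(1,0)]⟩,⟨0,[(50,0)]⟩⟩,⟨false,1,⟨21,[(12,1),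
  (4,4),(6,0),(11,5),(2,5),(12,11)]⟩,⟨0,[]⟩⟩,[.a ⟨true,1,⟨8,[(5,4),(2,3),(3,3),(4,4),(8,5),(1,0),(6,
  1),(16,4)]⟩,⟨0,[(6,0),(41,0)]⟩⟩ ⟨true,1,⟨2,[(3,0),(13,1),(20,0),(0,0)]⟩,⟨0,[(16,0)]⟩⟩ ⟨false,2,⟨1,
  [(17,1),(20,0),(0,0)]⟩,⟨2,[(10,0),(7,1),(29,0)]⟩⟩,.o ⟨false,2,⟨3,[(5,0),(2,2),(8,1),(19,1),(1,0),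
  (10,1),(1,3)]⟩,⟨5,[(3,0),(0,0),(1,4),(3,1),(2,1),(11,4),(21,5),(0,4)]⟩⟩,.o ⟨false,0,⟨0,[(5,0)]⟩,
  ⟨8,[(6,3),(0,1),(4,1),(0,0),(3,3),(14,2),(5,1),(8,5)]⟩⟩,.o ⟨false,0,⟨1,[(5,0),(2,0),(30,0)]⟩,⟨22,
  [(3,3),(0,4),(1,16),(0,0),(1,1),(3,11),(3,11),(29,13)]⟩⟩]⟩) (.Q [0,0,0,0,0,-1,0,0,0,1,-1,-1] (.p
  false [0,0,1,0,1] [1] (⟨0,[(34,0),(6,0)]⟩,⟨0,[(0,0)]⟩) .k 1 (⟨0,[]⟩,⟨0,[]⟩) .k (.r 1 ⟨1,[(1,1),(2,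
  1),(0,1),(4,3),(2,3),(11,11),(21,6),(4,6)]⟩ ⟨17,[(12,7),(4,15),(18,5),(1,4),(0,10),(12,3)]⟩)) (.S
  ⟨1,0,[0,0,0,-1,0,0,0,-1],[1,0,-1,0,-1],[1,-1,0,0,0,0,0,-1],(⟨0,[(1,0)]⟩,⟨0,[(35,0),(6,0)]⟩),⟨0,
  [(0,0)]⟩,.k,(.r (-2) ⟨1,[(18,1),(20,0),(0,0)]⟩ ⟨7,[(4,0),(10,2),(5,2),(3,2),(2,0)]⟩),⟨true,0,⟨0,
  []⟩,⟨0,[(55,0)]⟩⟩,⟨false,0,⟨0,[(51,0)]⟩,⟨14,[(12,1),(0,2),(0,1),(3,0),(6,5),(27,8)]⟩⟩,⟨false,1,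
  ⟨14,[(12,1),(0,2),(0,1),(3,0),(6,5),(27,8)]⟩,⟨0,[(51,0)]⟩⟩,⟨true,0,⟨0,[(55,0)]⟩,⟨0,[]⟩⟩,[.a ⟨true,
  1,⟨3,[(6,0),(2,2),(8,1),(19,1),(1,0),(10,1)]⟩,⟨14,[(5,4),(1,7),(3,6),(2,11),(11,7),(1,2),(4,1),
  (19,3)]⟩⟩ ⟨false,2,⟨10,[(13,3),(4,9),(6,1),(11,0),(2,0),(12,1)]⟩,⟨1,[(2,1),(2,1),(0,1),(4,3),(2,
  3),(11,11),(21,6),(4,6)]⟩⟩ ⟨true,1,⟨9,[(13,1),(4,5),(8,3),(10,1),(0,4),(0,2),(7,1)]⟩,⟨0,[(15,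
  0)]⟩⟩,.o ⟨false,2,⟨3,[(6,0),(2,2),(8,1),(19,1),(1,0),(7,1),(2,1),(1,1)]⟩,⟨0,[(7,0),(41,0)]⟩⟩,.a
  ⟨true,0,⟨0,[(6,0)]⟩,⟨1,[(5,0),(8,0),(18,0),(5,1)]⟩⟩ ⟨false,2,⟨2,[(13,0),(4,1),(20,0),(0,0),(12,
  1)]⟩,⟨1,[(2,1),(2,1),(0,1),(4,3),(2,3),(11,11),(21,6),(4,6)]⟩⟩ ⟨true,1,⟨9,[(13,1),(4,5),(8,3),(10,
  1),(0,4),(0,2),(7,1)]⟩,⟨2,[(11,0),(7,1),(29,0)]⟩⟩,.a ⟨true,0,⟨1,[(6,0),(2,0),(30,0)]⟩,⟨0,[(5,0),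
  (8,0),(24,0)]⟩⟩ ⟨true,2,⟨10,[(13,3),(4,9),(6,1),(11,0),(2,0),(12,1)]⟩,⟨0,[(11,0),(14,1),(21,0)]⟩⟩
  ⟨false,2,⟨1,[(18,1),(20,0),(0,0)]⟩,⟨0,[(15,0)]⟩⟩]⟩) (.R ⟨0,false,false,false,[1,0,-1,0,-1],[0,0,
  1],[1,-1,0,0,0,0,0,-1],(⟨0,[(1,0)]⟩,⟨0,[(0,0),(44,0)]⟩),(⟨0,[(42,0)]⟩,⟨0,[(41,0)]⟩),⟨0,[(0,0)]⟩,
  .k,.k,(.r (-2) ⟨1,[(18,1),(20,0),(0,0)]⟩ ⟨7,[(4,0),(10,2),(5,2),(3,2),(2,0)]⟩),.k,.k,.k,⟨true,2,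
  ⟨0,[(13,0),(4,0),(32,0)]⟩,⟨0,[(15,0),(5,0)]⟩⟩,⟨false,1,⟨2,[(7,1),(0,0),(4,0),(0,1),(3,1),(20,0)]⟩,
  ⟨3,[(5,0),(0,4),(22,0),(18,0)]⟩⟩,⟨true,0,⟨0,[]⟩,⟨0,[(55,0)]⟩⟩,⟨false,(-1),⟨0,[(7,0),(6,0),(2,0)]⟩,
  ⟨2,[(6,1),(2,0),(3,0),(4,1),(19,2),(1,0),(12,1)]⟩⟩,⟨false,0,⟨0,[]⟩,⟨0,[]⟩⟩,⟨false,0,⟨0,[]⟩,⟨0,
  []⟩⟩,[.e ⟨false,2,⟨10,[(13,3),(4,9),(6,1),(11,0),(2,0),(12,1)]⟩,⟨1,[(2,1),(2,1),(0,1),(4,3),(2,3),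
  (11,11),(21,6),(4,6)]⟩⟩ ⟨false,0,⟨0,[(7,0),(6,0)]⟩,⟨4,[(6,3),(6,0),(4,1),(10,0),(2,0),(5,1),(1,
  1)]⟩⟩,.o ⟨false,1,⟨7,[(7,3),(6,1),(0,0),(7,0),(8,3),(4,1),(10,1),(4,4)]⟩,⟨0,[(38,0)]⟩⟩,.a ⟨true,0,
  ⟨0,[(6,0)]⟩,⟨1,[(5,0),(8,0),(18,0),(5,1)]⟩⟩ ⟨false,2,⟨2,[(13,0),(4,1),(20,0),(0,0),(12,1)]⟩,⟨1,
  [(2,1),(2,1),(0,1),(4,3),(2,3),(11,11),(21,6),(4,6)]⟩⟩ ⟨true,0,⟨9,[(7,7),(6,5),(18,1),(3,1),(1,3),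
  (8,0),(4,0)]⟩,⟨0,[(6,0),(31,0)]⟩⟩,.e ⟨true,2,⟨10,[(13,3),(4,9),(6,1),(11,0),(2,0),(12,1)]⟩,⟨0,
  [(11,0),(14,1),(21,0)]⟩⟩ ⟨true,0,⟨0,[(7,0),(6,0)]⟩,⟨1,[(6,0),(2,0),(28,1),(1,0)]⟩⟩]⟩)))) (.S ⟨1,0,
  [0,-1,-1,-2],[1,-1,0,0,-1],[1,0,-1,-1],(⟨3,[(0,0),(5,0),(6,0),(15,0),(1,1),(4,0)]⟩,⟨0,[(32,0),(7,
  0)]⟩),⟨1,[(0,0),(5,0),(6,0),(15,0),(6,0)]⟩,(.r (-1) ⟨2,[(15,0),(4,0),(27,0),(1,0)]⟩ ⟨4,[(10,1),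
  (11,0),(11,0),(2,0),(14,2)]⟩),(.r (-2) ⟨8,[(15,7),(4,4),(13,2),(2,2),(10,4),(1,1)]⟩ ⟨7,[(1,2),(10,
  0),(5,0),(3,0),(2,2)]⟩),⟨false,0,⟨0,[]⟩,⟨21,[(10,1),(4,4),(6,0),(11,5),(2,5),(12,11)]⟩⟩,⟨true,0,
  ⟨0,[(48,0)]⟩,⟨6,[(21,1),(0,1),(21,0),(1,0)]⟩⟩,⟨true,0,⟨6,[(21,1),(0,1),(21,0),(1,0)]⟩,⟨0,[(48,
  0)]⟩⟩,⟨false,1,⟨21,[(10,1),(4,4),(6,0),(11,5),(2,5),(12,11)]⟩,⟨0,[]⟩⟩,[.a ⟨true,1,⟨0,[(24,0),(4,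
  0),(20,0)]⟩,⟨3,[(1,1),(0,2),(5,1),(2,2),(18,0)]⟩⟩ ⟨false,1,⟨1,[(15,0),(2,0),(30,0)]⟩,⟨7,[(10,1),
  (11,0),(2,0),(8,0),(2,0),(12,0)]⟩⟩ ⟨true,1,⟨2,[(15,0),(4,0),(27,3),(1,0)]⟩,⟨7,[(1,2),(10,0),(5,0),
  (3,0),(2,2)]⟩⟩,.o ⟨false,2,⟨0,[(29,0),(18,1),(1,0)]⟩,⟨8,[(1,2),(0,3),(1,3),(0,0),(1,1),(3,0),(33,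
  1),(0,7)]⟩⟩,.a ⟨true,0,⟨0,[(6,0)]⟩,⟨1,[(2,0),(8,0),(18,0)]⟩⟩ ⟨false,1,⟨2,[(15,0),(4,0),(27,0),(1,
  0)]⟩,⟨7,[(10,1),(11,0),(2,0),(8,0),(2,0),(12,0)]⟩⟩ ⟨true,1,⟨2,[(15,0),(4,0),(27,3),(1,0)]⟩,⟨14,
  [(1,8),(6,1),(7,3),(5,2),(23,4)]⟩⟩,.a ⟨true,0,⟨1,[(6,1),(29,0),(0,0)]⟩,⟨0,[(2,0),(8,0)]⟩⟩ ⟨true,1,
  ⟨1,[(15,0),(2,0),(30,0)]⟩,⟨10,[(1,2),(16,2),(5,1),(0,3),(10,1),(0,1),(7,0)]⟩⟩ ⟨false,2,⟨2,[(15,1),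
  (4,1),(27,1),(1,1)]⟩,⟨7,[(1,2),(10,0),(5,0),(3,0),(2,2)]⟩⟩]⟩)) (.I [0,0,1,0,0,1,2,0,2] (.I [0,0,
  -1,0,1,-1,-2,0,-2] (.I [1,2,-1,-1,-2,0,0,2] (.I [1,-2,1,1,2,0,0,-2] (.N [0,-1,2,0,2] 2 ⟨0,[(1,
  0)]⟩ ⟨0,[(0,0)]⟩ (.x 0 ⟨0,[(3,0)]⟩ ⟨0,[(2,0)]⟩)) (.Q [0,0,0,0,0,-1,0,0,0,0,0,1] (.ed false [1,-1,
  0,0,1] .k) (.S ⟨1,0,[0,1,0,-1],[0,0,0,0,1],[1,2],(⟨0,[(36,0)]⟩,⟨0,[(35,0)]⟩),⟨0,[(0,0)]⟩,.k,(.r 0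
  ⟨5,[(1,0),(13,0),(3,0),(8,1),(10,0),(8,0),(0,0)]⟩ ⟨21,[(14,9),(4,2),(6,4),(11,7),(2,7),(12,15)]⟩),
  ⟨false,0,⟨0,[]⟩,⟨21,[(14,1),(4,4),(6,0),(11,5),(2,5),(12,11)]⟩⟩,⟨true,0,⟨0,[(52,0)]⟩,⟨6,[(25,1),
  (0,1),(21,0),(1,0)]⟩⟩,⟨true,0,⟨6,[(25,1),(0,1),(21,0),(1,0)]⟩,⟨0,[(52,0)]⟩⟩,⟨false,1,⟨21,[(14,1),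
  (4,4),(6,0),(11,5),(2,5),(12,11)]⟩,⟨0,[]⟩⟩,[.e ⟨false,0,⟨0,[(48,0)]⟩,⟨0,[(54,0)]⟩⟩ ⟨false,0,⟨5,
  [(1,0),(13,0),(3,0),(8,1),(10,0),(8,0),(0,0)]⟩,⟨14,[(13,1),(0,2),(0,1),(3,0),(6,5),(27,8)]⟩⟩,.o
  ⟨false,0,⟨10,[(6,3),(1,3),(5,0),(4,2),(8,2),(5,2),(14,4),(2,3)]⟩,⟨13,[(7,1),(3,0),(0,1),(0,0),(1,
  3),(13,1),(3,11),(15,0)]⟩⟩,.o ⟨false,0,⟨6,[(6,2),(1,1),(0,0),(4,0),(4,1),(14,0),(14,1)]⟩,⟨0,[(33,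
  0)]⟩⟩,.a ⟨true,(-1),⟨0,[(6,0),(33,0)]⟩,⟨3,[(7,1),(2,1),(4,1),(3,0),(6,0)]⟩⟩ ⟨false,0,⟨5,[(1,0),
  (13,1),(5,0),(17,0),(8,0)]⟩,⟨1,[(40,0),(0,0),(12,1)]⟩⟩ ⟨true,0,⟨5,[(1,0),(13,0),(3,0),(8,1),(10,
  0),(8,0),(0,0)]⟩,⟨7,[(14,1),(11,0),(2,0),(8,0),(2,0),(12,0)]⟩⟩]⟩) (.R ⟨0,false,false,false,[0,0,0,
  0,1],[1,-1],[0,1],(⟨0,[(36,0)]⟩,⟨0,[(35,0)]⟩),(⟨0,[(46,0)]⟩,⟨0,[(47,0)]⟩),⟨0,[(0,0)]⟩,.k,.k,(.r 0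
  ⟨5,[(1,0),(13,0),(3,0),(8,1),(10,0),(8,0),(0,0)]⟩ ⟨21,[(14,9),(4,2),(6,4),(11,7),(2,7),(12,15)]⟩),
  (.r 0 ⟨4,[(14,1),(11,0),(11,0),(2,0),(14,2)]⟩ ⟨5,[(5,1),(13,1),(20,0),(0,0)]⟩),.k,.k,⟨false,0,⟨0,
  [(51,0)]⟩,⟨5,[(5,1),(13,1),(20,0),(0,0)]⟩⟩,⟨true,0,⟨0,[(10,0)]⟩,⟨6,[(6,2),(1,1),(0,0),(4,0),(4,1),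
  (14,0),(14,1)]⟩⟩,⟨false,1,⟨21,[(14,1),(4,4),(6,0),(11,5),(2,5),(12,11)]⟩,⟨0,[]⟩⟩,⟨true,1,⟨5,[(5,
  1),(4,5),(8,1),(20,0),(0,0)]⟩,⟨5,[(1,0),(6,4),(0,0),(5,1),(5,6),(17,0)]⟩⟩,⟨false,0,⟨0,[]⟩,⟨0,[]⟩⟩,
  ⟨false,0,⟨0,[]⟩,⟨0,[]⟩⟩,[.o ⟨false,0,⟨0,[(52,0)]⟩,⟨29,[(13,3),(0,5),(0,3),(3,1),(6,11),(22,14),(4,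
  2)]⟩⟩,.a ⟨true,0,⟨0,[(27,0),(26,0)]⟩,⟨0,[(51,0)]⟩⟩ ⟨false,1,⟨1,[(19,0),(6,0)]⟩,⟨0,[]⟩⟩ ⟨true,1,⟨5,
  [(5,1),(4,5),(8,1),(20,0),(0,0)]⟩,⟨0,[(8,0),(12,0)]⟩⟩,.o ⟨false,0,⟨6,[(6,2),(1,1),(0,0),(4,0),(4,
  1),(14,0),(14,1)]⟩,⟨0,[(33,0)]⟩⟩,.e ⟨true,0,⟨5,[(1,0),(13,1),(5,0),(17,0),(8,0)]⟩,⟨1,[(40,0),(0,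
  0)]⟩⟩ ⟨true,1,⟨24,[(5,1),(1,11),(2,6),(4,4),(3,8),(8,5),(4,5),(4,6)]⟩,⟨0,[(8,0),(12,0)]⟩⟩]⟩)))
  (.Q [0,0,0,0,0,-2,0,0,0,0,1] (.p true [0,0,1] [] (⟨0,[(41,0)]⟩,⟨0,[(40,0)]⟩) .k 0 (⟨0,[]⟩,⟨0,[]⟩)
  .k .k) (.S ⟨1,0,[0,0,-1,-2,0,0,0,1],[0,-1,1],[1,1,-1,-1,0,0,0,1],(⟨0,[(31,0)]⟩,⟨0,[(41,0),(1,
  0)]⟩),⟨0,[(0,0)]⟩,.k,(.r (-1) ⟨46,[(18,24),(4,56),(3,5),(9,14),(2,14),(6,1),(0,2)]⟩ ⟨0,[(13,0)]⟩),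
  ⟨false,0,⟨0,[]⟩,⟨15,[(1,4),(2,3),(20,2),(11,2),(2,2),(12,1)]⟩⟩,⟨true,0,⟨0,[(51,0)]⟩,⟨6,[(24,1),(0,
  1),(21,0),(1,0)]⟩⟩,⟨true,0,⟨6,[(24,1),(0,1),(21,0),(1,0)]⟩,⟨0,[(51,0)]⟩⟩,⟨false,1,⟨15,[(1,4),(2,
  3),(20,2),(11,2),(2,2),(12,1)]⟩,⟨0,[]⟩⟩,[.a ⟨true,0,⟨29,[(4,13),(16,7),(5,11),(9,7),(1,24),(0,2),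
  (7,5)]⟩,⟨1,[(1,0),(3,0),(0,0),(3,0),(0,0),(2,0),(11,0)]⟩⟩ ⟨false,0,⟨0,[(21,0),(30,0)]⟩,⟨15,[(1,8),
  (23,0),(2,1),(8,0),(2,0)]⟩⟩ ⟨true,0,⟨9,[(4,2),(16,0),(1,4),(3,3),(9,0),(2,0),(7,1)]⟩,⟨0,[(13,
  0)]⟩⟩,.o ⟨false,1,⟨29,[(4,21),(16,3),(5,5),(9,3),(1,34),(0,8),(7,17)]⟩,⟨0,[(10,0)]⟩⟩,.a ⟨true,0,
  ⟨0,[(39,0)]⟩,⟨0,[(36,0)]⟩⟩ ⟨false,0,⟨0,[(23,0)]⟩,⟨15,[(1,8),(23,0),(2,1),(8,0),(2,0)]⟩⟩ ⟨true,0,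
  ⟨9,[(4,2),(16,0),(1,4),(3,3),(9,0),(2,0),(7,1)]⟩,⟨0,[(24,0)]⟩⟩,.a ⟨true,0,⟨1,[(39,2),(0,0)]⟩,⟨0,
  [(5,0),(0,0),(7,0)]⟩⟩ ⟨true,0,⟨0,[(21,0),(30,0)]⟩,⟨3,[(1,0),(11,1),(13,1),(0,0),(19,0)]⟩⟩ ⟨false,
  1,⟨31,[(4,14),(13,8),(4,20),(3,1),(9,4),(2,4),(7,0)]⟩,⟨0,[(13,0)]⟩⟩]⟩) (.R ⟨0,false,false,false,
  [0,-1,1],[1,-1],[1],(⟨0,[(31,0)]⟩,⟨0,[(0,0),(44,0)]⟩),(⟨0,[(45,0)]⟩,⟨0,[(46,0)]⟩),⟨0,[(0,0)]⟩,.k,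
  .k,(.r (-1) ⟨46,[(18,24),(4,56),(3,5),(9,14),(2,14),(6,1),(0,2)]⟩ ⟨0,[(13,0)]⟩),.k,.k,.k,⟨true,0,
  ⟨7,[(1,0),(23,0),(2,1),(8,0),(2,0)]⟩,⟨0,[(51,0)]⟩⟩,⟨false,0,⟨0,[(36,0)]⟩,⟨15,[(1,0),(12,3),(3,0),
  (18,2),(1,8),(8,7)]⟩⟩,⟨false,1,⟨15,[(1,8),(23,0),(2,1),(8,0),(2,0)]⟩,⟨0,[(23,0)]⟩⟩,⟨true,0,⟨8,[(1,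
  2),(3,2),(0,2),(3,0),(7,0),(1,0),(5,4),(9,0)]⟩,⟨2,[(8,0),(5,0),(0,0),(5,0),(10,0),(6,0),(8,0)]⟩⟩,
  ⟨false,0,⟨0,[]⟩,⟨0,[]⟩⟩,⟨false,0,⟨0,[]⟩,⟨0,[]⟩⟩,[.o ⟨false,0,⟨0,[(51,0)]⟩,⟨53,[(1,6),(10,7),(1,7),
  (10,21),(2,2),(19,26)]⟩⟩,.e ⟨false,1,⟨9,[(4,1),(7,1),(1,1),(3,0),(6,0),(27,1)]⟩,⟨0,[(55,0)]⟩⟩
  ⟨false,1,⟨8,[(4,2),(4,0),(8,2),(10,0),(3,0),(2,6)]⟩,⟨2,[(14,1),(11,2),(1,1),(10,0),(8,2)]⟩⟩,.e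
  ⟨true,0,⟨0,[]⟩,⟨0,[(55,0)]⟩⟩ ⟨true,0,⟨16,[(4,2),(13,0),(8,4),(1,2),(6,8),(1,1)]⟩,⟨2,[(14,1),(11,
  2),(1,1),(10,0),(8,2)]⟩⟩,.a ⟨true,0,⟨1,[(39,2),(0,0)]⟩,⟨0,[(5,0),(0,0),(7,0)]⟩⟩ ⟨false,1,⟨9,[(4,
  1),(7,1),(1,1),(3,0),(6,0),(27,1)]⟩,⟨1,[(39,0),(0,0)]⟩⟩ ⟨true,0,⟨1,[(4,0),(0,0),(0,0),(7,0),(5,0),
  (5,0)]⟩,⟨1,[(8,0),(0,0),(3,0),(25,0),(8,0)]⟩⟩]⟩))) (.S ⟨1,0,[0,0,0,-1,0,0,0,-1],[1,0,-1,0,-1],[1,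
  -1,0,0,0,0,0,-1],(⟨9,[(0,2),(0,0),(2,7),(9,1),(17,1),(13,0),(3,1)]⟩,⟨0,[(33,0),(6,0)]⟩),⟨22,[(0,
  9),(1,1),(1,19),(7,1),(1,11),(3,1),(10,8),(2,2),(13,5),(0,1)]⟩,.k,(.r (-2) ⟨1,[(16,1),(20,0),(0,
  0)]⟩ ⟨2,[(17,0),(1,0),(3,0),(2,0)]⟩),⟨true,0,⟨0,[]⟩,⟨0,[(53,0)]⟩⟩,⟨false,0,⟨0,[(49,0)]⟩,⟨14,[(10,
  1),(0,2),(0,1),(3,0),(6,5),(27,8)]⟩⟩,⟨false,1,⟨14,[(10,1),(0,2),(0,1),(3,0),(6,5),(27,8)]⟩,⟨0,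
  [(49,0)]⟩⟩,⟨true,0,⟨0,[(53,0)]⟩,⟨0,[]⟩⟩,[.a ⟨true,1,⟨3,[(4,0),(2,2),(8,1),(19,1),(1,0),(10,1)]⟩,
  ⟨28,[(0,3),(2,8),(1,11),(3,16),(2,17),(11,7),(1,0),(6,7),(6,7),(2,3),(7,3)]⟩⟩ ⟨false,2,⟨10,[(11,
  3),(4,9),(6,1),(11,0),(2,0),(12,1)]⟩,⟨1,[(2,4),(0,1),(0,1),(4,3),(1,6),(0,3),(11,11),(21,6)]⟩⟩
  ⟨true,1,⟨9,[(11,1),(4,5),(8,3),(10,1),(0,4),(0,2),(7,1)]⟩,⟨0,[(13,0)]⟩⟩,.o ⟨false,2,⟨3,[(4,0),(2,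
  2),(8,1),(19,1),(1,0),(7,1),(2,1),(1,1)]⟩,⟨0,[(5,0),(41,0)]⟩⟩,.a ⟨true,0,⟨0,[(4,0)]⟩,⟨3,[(0,0),
  (11,0),(16,0),(1,1),(1,1),(3,0),(2,0)]⟩⟩ ⟨false,2,⟨2,[(11,0),(4,1),(20,0),(0,0),(12,1)]⟩,⟨1,[(2,
  4),(0,1),(0,1),(4,3),(1,6),(0,3),(11,11),(21,6)]⟩⟩ ⟨true,1,⟨9,[(11,1),(4,5),(8,3),(10,1),(0,4),(0,
  2),(7,1)]⟩,⟨2,[(9,0),(7,1),(29,0)]⟩⟩,.a ⟨true,0,⟨1,[(4,0),(2,0),(30,0)]⟩,⟨2,[(0,0),(2,0),(8,1),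
  (16,0),(3,1),(6,0)]⟩⟩ ⟨true,2,⟨10,[(11,3),(4,9),(6,1),(11,0),(2,0),(12,1)]⟩,⟨0,[(9,0),(14,1),(21,
  0)]⟩⟩ ⟨false,2,⟨1,[(16,1),(20,0),(0,0)]⟩,⟨0,[(13,0)]⟩⟩]⟩)) (.S ⟨1,0,[0,0,1],[1,1,0,0,-1],[0,-1,1],
  (⟨0,[(31,0),(8,0)]⟩,⟨9,[(0,1),(3,3),(8,3),(1,1),(5,0),(10,5),(2,0),(0,0)]⟩),⟨0,[(31,0)]⟩,(.r (-1)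
  ⟨21,[(10,9),(4,2),(6,4),(11,7),(2,7),(12,15)]⟩ ⟨14,[(1,0),(9,5),(6,4),(5,3),(10,5),(8,0),(0,1)]⟩),
  .k,⟨true,0,⟨0,[(48,0)]⟩,⟨6,[(21,1),(0,1),(21,0),(1,0)]⟩⟩,⟨false,0,⟨0,[(48,0)]⟩,⟨14,[(9,1),(0,2),
  (0,1),(3,0),(6,5),(27,8)]⟩⟩,⟨false,1,⟨21,[(10,1),(4,4),(6,0),(11,5),(2,5),(12,11)]⟩,⟨0,[]⟩⟩,⟨true,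
  0,⟨0,[(52,0)]⟩,⟨0,[]⟩⟩,[.o ⟨false,1,⟨0,[(29,0)]⟩,⟨6,[(2,2),(1,1),(0,0),(4,0),(4,1),(14,0),(14,
  1)]⟩⟩,.e ⟨false,1,⟨0,[(50,0)]⟩,⟨0,[(44,0)]⟩⟩ ⟨false,1,⟨21,[(10,1),(4,4),(6,0),(11,5),(2,5),(12,
  11)]⟩,⟨2,[(11,0),(6,0),(16,0),(10,0)]⟩⟩,.a ⟨true,1,⟨3,[(3,1),(2,1),(4,1),(3,0),(6,0)]⟩,⟨0,[(2,0),
  (33,0)]⟩⟩ ⟨false,1,⟨1,[(36,0),(0,0),(12,1)]⟩,⟨2,[(11,0),(6,0),(16,0),(10,0)]⟩⟩ ⟨true,0,⟨1,[(36,0),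
  (0,0)]⟩,⟨2,[(11,0),(6,0),(16,0),(10,0)]⟩⟩,.o ⟨false,1,⟨0,[(29,0)]⟩,⟨6,[(2,2),(1,1),(0,0),(4,0),(4,
  1),(14,0),(14,1)]⟩⟩]⟩)))))))))))

theorem ok43 : chk K t43 l32 = true := by decide +kernel

noncomputable def t44 : Tre :=
  (.I [0,0,-2,-2,0,0,0,1] (.Q [0,-1,0,-2,0,0,1,1,0,0,1] (.p true [0,0,1] [] (⟨0,[(30,0)]⟩,⟨0,[(29,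
  0)]⟩) .k 0 (⟨0,[]⟩,⟨0,[]⟩) .k .k) (.R ⟨1,false,false,true,[0,0,1],[0,1],[],(⟨0,[(31,0)]⟩,⟨0,[(30,
  0)]⟩),(⟨0,[(35,0)]⟩,⟨0,[(34,0)]⟩),⟨0,[(20,0)]⟩,.k,.k,.k,.k,(.r 0 ⟨0,[(1,0)]⟩ ⟨3,[(7,2),(5,1),(0,
  0),(2,1),(10,2),(0,2)]⟩),.k,⟨true,1,⟨21,[(0,3),(1,1),(4,7),(4,1),(5,1),(18,0),(4,4)]⟩,⟨7,[(10,0),
  (2,0),(2,3),(0,4),(19,1),(6,1)]⟩⟩,⟨false,1,⟨1,[(25,1),(11,0),(3,0)]⟩,⟨0,[(28,0)]⟩⟩,⟨true,1,⟨3,[(7,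
  1),(5,0),(13,0),(0,1),(0,0)]⟩,⟨0,[(8,0)]⟩⟩,⟨true,0,⟨0,[(9,0)]⟩,⟨1,[(0,0),(25,0)]⟩⟩,⟨true,1,⟨11,
  [(7,6),(5,5),(0,0),(2,1),(10,0),(0,0)]⟩,⟨0,[(10,0)]⟩⟩,⟨false,1,⟨5,[(7,1),(1,5),(4,1),(2,1),(23,0),
  (0,2)]⟩,⟨0,[(0,0)]⟩⟩,[.e ⟨false,1,⟨1,[(7,0),(6,0)]⟩,⟨0,[]⟩⟩ ⟨false,0,⟨7,[(2,0),(1,1),(4,2),(8,0),
  (6,2),(11,1),(0,4)]⟩,⟨9,[(0,2),(6,3),(18,0),(1,6),(0,0),(12,1)]⟩⟩,.o ⟨false,1,⟨5,[(7,1),(6,1),(2,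
  1),(19,2),(3,0)]⟩,⟨0,[(40,0)]⟩⟩,.o ⟨false,1,⟨17,[(3,3),(3,2),(9,0),(8,2),(1,10),(8,8)]⟩,⟨0,[(11,
  0)]⟩⟩,.a ⟨true,0,⟨0,[(28,0)]⟩,⟨0,[(25,0)]⟩⟩ ⟨false,1,⟨1,[(41,0),(0,0)]⟩,⟨1,[(28,0),(0,0)]⟩⟩ ⟨true,
  0,⟨7,[(2,0),(1,1),(4,2),(8,0),(6,2),(11,1),(0,4)]⟩,⟨1,[(0,0),(26,0),(0,1)]⟩⟩]⟩) (.Q [0,0,0,0,0,2,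
  0,0,0,0,-1] (.p false [0,0,1] [] (⟨0,[(31,0)]⟩,⟨0,[(30,0)]⟩) .k 0 (⟨0,[]⟩,⟨0,[]⟩) .k .k) (.Q [0,0,
  -2,0,0,0,-1,0,0,1,-1] (.p false [0,0,1] [1] (⟨0,[(32,0)]⟩,⟨0,[(31,0)]⟩) .k 1 (⟨0,[]⟩,⟨0,[]⟩) .k
  .k) (.R ⟨0,false,false,false,[0,-1,1],[1,-1],[1],(⟨0,[(22,0)]⟩,⟨0,[(1,0),(34,0)]⟩),(⟨0,[(36,0)]⟩,
  ⟨0,[(37,0)]⟩),⟨0,[(1,0)]⟩,.k,.k,(.r 0 ⟨0,[(3,0)]⟩ ⟨3,[(9,2),(5,1),(0,0),(2,1),(10,2),(0,2)]⟩),.k,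
  .k,.k,⟨true,0,⟨5,[(9,0),(6,0),(2,1),(10,0),(0,0)]⟩,⟨0,[(42,0)]⟩⟩,⟨false,0,⟨0,[(27,0)]⟩,⟨17,[(5,3),
  (3,2),(9,0),(8,2),(1,10),(8,8)]⟩⟩,⟨false,1,⟨1,[(9,0),(9,0),(9,0),(0,0),(13,0)]⟩,⟨0,[(14,0)]⟩⟩,
  ⟨true,0,⟨0,[(11,0),(5,0),(26,0)]⟩,⟨3,[(5,0),(4,2),(17,0),(1,1),(8,1)]⟩⟩,⟨false,0,⟨0,[]⟩,⟨0,[]⟩⟩,
  ⟨false,0,⟨0,[]⟩,⟨0,[]⟩⟩,[.o ⟨false,0,⟨0,[(42,0)]⟩,⟨23,[(2,1),(2,1),(3,6),(6,8),(2,5),(19,11),(4,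
  1)]⟩⟩,.e ⟨false,1,⟨1,[(43,0),(0,0)]⟩,⟨0,[(46,0)]⟩⟩ ⟨false,1,⟨14,[(4,3),(4,4),(8,0),(1,1),(6,11),
  (0,0),(15,5)]⟩,⟨2,[(5,1),(11,2),(1,1),(10,0),(8,2)]⟩⟩,.e ⟨true,0,⟨0,[]⟩,⟨0,[(46,0)]⟩⟩ ⟨true,0,⟨8,
  [(0,1),(3,0),(4,0),(8,2),(1,2),(6,0),(16,0)]⟩,⟨2,[(5,1),(11,2),(1,1),(10,0),(8,2)]⟩⟩,.a ⟨true,0,
  ⟨1,[(30,2),(0,0)]⟩,⟨0,[(0,0)]⟩⟩ ⟨false,1,⟨1,[(43,0),(0,0)]⟩,⟨1,[(30,0),(0,0)]⟩⟩ ⟨true,0,⟨3,[(0,2),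
  (3,0),(13,0),(10,0),(14,0)]⟩,⟨3,[(12,0),(2,0),(3,0),(10,3),(8,1),(6,1)]⟩⟩]⟩) (.R ⟨0,false,false,
  true,[0,-1,1],[1,-1],[0,0,-1,-2,0,0,0,1],(⟨0,[(22,0)]⟩,⟨0,[(1,0),(34,0)]⟩),(⟨0,[(36,0)]⟩,⟨0,[(37,
  0)]⟩),⟨0,[(1,0)]⟩,.k,.k,(.r 0 ⟨0,[(3,0)]⟩ ⟨3,[(9,2),(5,1),(0,0),(2,1),(10,2),(0,2)]⟩),.k,.k,.k,
  ⟨true,0,⟨8,[(0,0),(3,1),(3,3),(5,2),(3,0),(12,0),(12,4)]⟩,⟨19,[(0,3),(8,1),(5,14),(2,3),(10,2),(1,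
  0)]⟩⟩,⟨false,0,⟨0,[(27,0)]⟩,⟨4,[(0,2),(4,1),(3,0),(6,0),(22,0)]⟩⟩,⟨true,0,⟨0,[(42,0)]⟩,⟨6,[(15,1),
  (0,1),(21,0),(1,0)]⟩⟩,⟨false,0,⟨0,[(11,0),(5,0),(26,0)]⟩,⟨10,[(0,2),(3,1),(0,2),(0,3),(21,4),(10,
  3),(4,7)]⟩⟩,⟨false,0,⟨0,[]⟩,⟨0,[]⟩⟩,⟨false,0,⟨0,[]⟩,⟨0,[]⟩⟩,[.e ⟨false,0,⟨0,[(3,0)]⟩,⟨3,[(9,2),(5,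
  1),(0,0),(2,1),(10,0),(0,0)]⟩⟩ ⟨false,0,⟨8,[(4,2),(4,0),(7,1),(9,6),(1,1),(8,2)]⟩,⟨29,[(0,15),(4,
  13),(3,1),(6,1),(2,9),(19,6),(4,14)]⟩⟩,.o ⟨false,0,⟨0,[(42,0)]⟩,⟨23,[(2,1),(2,1),(3,6),(6,8),(2,
  5),(19,11),(4,1)]⟩⟩,.a ⟨true,0,⟨0,[(30,0)]⟩,⟨0,[(27,0)]⟩⟩ ⟨true,0,⟨5,[(0,0),(3,4),(13,0),(9,0),(2,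
  1),(12,0)]⟩,⟨0,[(15,0)]⟩⟩ ⟨false,0,⟨16,[(4,2),(4,0),(8,4),(1,2),(6,8),(1,1),(14,2)]⟩,⟨29,[(0,15),
  (4,13),(3,1),(6,1),(2,9),(19,6),(4,14)]⟩⟩,.o ⟨false,0,⟨0,[(0,0)]⟩,⟨1,[(27,1),(11,0),(3,0)]⟩⟩]⟩))
  (.I [0,0,2,1,0,0,0,-1] (.S ⟨1,0,[0,0,-1,-2,0,0,0,1],[0,-1,1],[1,1,-1,-1,0,0,0,1],(⟨0,[(22,0)]⟩,⟨0,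
  [(32,0),(1,0)]⟩),⟨0,[(1,0)]⟩,.k,(.r 0 ⟨0,[(3,0)]⟩ ⟨13,[(0,17),(8,6),(6,10),(2,1),(24,1)]⟩),⟨false,
  0,⟨0,[]⟩,⟨8,[(0,0),(8,1),(6,0),(11,1),(2,1),(12,4)]⟩⟩,⟨true,0,⟨0,[(42,0)]⟩,⟨6,[(15,1),(0,1),(21,
  0),(1,0)]⟩⟩,⟨true,0,⟨6,[(15,1),(0,1),(21,0),(1,0)]⟩,⟨0,[(42,0)]⟩⟩,⟨false,1,⟨8,[(0,0),(8,1),(6,0),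
  (11,1),(2,1),(12,4)]⟩,⟨0,[]⟩⟩,[.e ⟨false,0,⟨3,[(4,2),(11,0),(21,0),(1,0)]⟩,⟨13,[(0,7),(8,6),(6,0),
  (2,3),(24,3)]⟩⟩ ⟨false,0,⟨0,[(3,0)]⟩,⟨6,[(0,2),(8,4),(5,1),(0,2),(2,2)]⟩⟩,.o ⟨false,1,⟨1,[(4,1),
  (25,2),(0,0),(7,0),(4,0)]⟩,⟨0,[(2,0)]⟩⟩,.a ⟨true,0,⟨0,[(30,0)]⟩,⟨0,[(27,0)]⟩⟩ ⟨false,0,⟨0,[(14,
  0)]⟩,⟨13,[(0,7),(8,6),(6,0),(2,3),(24,3)]⟩⟩ ⟨true,0,⟨1,[(4,1),(25,0),(0,0)]⟩,⟨0,[(15,0)]⟩⟩,.e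
  ⟨true,0,⟨3,[(4,2),(11,0),(21,0),(1,0)]⟩,⟨0,[(0,0)]⟩⟩ ⟨true,0,⟨0,[(3,0)]⟩,⟨3,[(0,2),(14,1),(0,0),
  (29,0)]⟩⟩]⟩) (.Q [0,-1,-1,-1,1,0,0,0,-1,1,0,-1] (.p false [0,0,0,0,1] [1] (⟨0,[(26,0)]⟩,⟨0,[(25,
  0)]⟩) .k 1 (⟨0,[]⟩,⟨0,[]⟩) .k .k) (.Q [0,-1,0,-1,0,0,0,0,-1,1,0,-1] (.p false [0,0,0,0,1] [1] (⟨0,
  [(27,0)]⟩,⟨0,[(26,0)]⟩) .k 1 (⟨0,[]⟩,⟨0,[]⟩) .k .k) (.Q [0,1,0,0,0,0,0,0,1,-1,0,1] (.p true [0,0,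
  0,0,1] [1] (⟨0,[(28,0)]⟩,⟨0,[(27,0)]⟩) .k 1 (⟨0,[]⟩,⟨0,[]⟩) .k .k) (.R ⟨2,true,false,true,[0,1],
  [1,0,0,0,-1],[0,0,1],(⟨0,[]⟩,⟨0,[]⟩),(⟨0,[(28,0)]⟩,⟨0,[(29,0)]⟩),⟨0,[]⟩,.k,.k,.k,(.r 0 ⟨1,[(18,0),
  (12,0),(2,0)]⟩ ⟨12,[(7,2),(4,3),(18,0),(2,0),(10,2),(1,4)]⟩),.k,.k,⟨true,0,⟨1,[(33,0),(0,0)]⟩,⟨0,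
  []⟩⟩,⟨false,0,⟨6,[(1,4),(0,1),(19,1),(18,2),(1,0)]⟩,⟨1,[(27,1),(14,0),(3,0)]⟩⟩,⟨true,0,⟨0,[(45,
  0)]⟩,⟨6,[(18,1),(0,1),(21,0),(1,0)]⟩⟩,⟨false,0,⟨0,[(1,0)]⟩,⟨23,[(5,1),(2,1),(3,6),(6,8),(2,5),(4,
  23),(14,11),(4,1)]⟩⟩,⟨false,1,⟨3,[(12,0),(6,0),(13,0),(0,0),(12,1)]⟩,⟨0,[]⟩⟩,⟨true,0,⟨6,[(1,4),(0,
  1),(19,1),(18,2),(1,0)]⟩,⟨0,[(0,0)]⟩⟩,[]⟩) (.R ⟨2,false,false,true,[0,1],[1,0,0,0,-1],[1,0,1,1],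
  (⟨0,[]⟩,⟨0,[]⟩),(⟨0,[(28,0)]⟩,⟨0,[(29,0)]⟩),⟨0,[]⟩,.k,.k,.k,(.r 0 ⟨1,[(18,0),(12,0),(2,0)]⟩ ⟨12,
  [(7,2),(4,3),(18,0),(2,0),(10,2),(1,4)]⟩),.k,.k,⟨true,0,⟨5,[(12,0),(6,0),(2,1),(10,0),(0,0)]⟩,⟨0,
  [(45,0)]⟩⟩,⟨false,0,⟨9,[(0,6),(17,0),(0,0),(0,2),(5,2),(14,0)]⟩,⟨1,[(27,1),(14,0),(3,0)]⟩⟩,⟨true,
  0,⟨0,[]⟩,⟨0,[(49,0)]⟩⟩,⟨false,0,⟨0,[(1,0)]⟩,⟨23,[(5,1),(2,1),(3,6),(6,8),(2,5),(4,23),(14,11),(4,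
  1)]⟩⟩,⟨false,1,⟨23,[(5,1),(2,1),(3,6),(6,8),(2,5),(24,13)]⟩,⟨0,[(45,0)]⟩⟩,⟨false,0,⟨0,[(0,0)]⟩,⟨3,
  [(12,0),(6,0),(7,3),(5,0),(0,0),(7,1)]⟩⟩,[.a ⟨true,0,⟨9,[(0,6),(17,0),(0,0),(0,2),(5,2),(14,0)]⟩,
  ⟨0,[(27,0)]⟩⟩ ⟨true,0,⟨5,[(12,0),(6,0),(2,1),(10,0),(0,0)]⟩,⟨0,[(45,0)]⟩⟩ ⟨false,0,⟨9,[(0,6),(17,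
  0),(0,0),(0,2),(5,2),(14,0)]⟩,⟨1,[(27,1),(14,0),(3,0)]⟩⟩,.e ⟨false,1,⟨23,[(5,1),(2,1),(3,6),(6,8),
  (2,5),(24,13)]⟩,⟨10,[(7,1),(0,1),(12,3),(10,1),(8,1),(0,1),(0,0)]⟩⟩ ⟨false,0,⟨0,[(0,0)]⟩,⟨3,[(12,
  0),(6,0),(7,3),(13,1),(0,1)]⟩⟩,.o ⟨false,1,⟨1,[(42,0),(3,0)]⟩,⟨1,[(33,0),(0,0)]⟩⟩,.fo]⟩)) (.Q [0,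
  0,0,0,0,1,0,0,0,-1,0,1] (.ed false [0,1,0,0,1] .k) (.Q [0,0,1,0,0,0,0,0,-1,0,0,-1] (.p false [0,0,
  0,0,1] [] (⟨0,[(29,0)]⟩,⟨0,[(28,0)]⟩) .k 0 (⟨0,[]⟩,⟨0,[]⟩) .k .k) (.R ⟨0,false,false,false,[1,0,0,
  0,-1],[1,-1],[1,1,1],(⟨0,[(29,0)]⟩,⟨0,[(30,0)]⟩),(⟨0,[(40,0)]⟩,⟨0,[(41,0)]⟩),⟨0,[(1,0)]⟩,.k,.k,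
  (.r (-1) ⟨12,[(8,2),(4,3),(18,0),(2,0),(10,2),(1,4)]⟩ ⟨1,[(19,0),(12,0),(2,0)]⟩),(.r (-1) ⟨11,
  [(13,4),(6,4),(2,3),(10,4),(0,4),(12,5)]⟩ ⟨10,[(8,1),(0,1),(12,3),(10,1),(8,1),(0,1),(0,0)]⟩),.k,
  .k,⟨true,(-1),⟨7,[(16,0),(2,0),(2,3),(0,4),(19,1),(6,1)]⟩,⟨12,[(8,2),(4,3),(18,0),(2,0),(10,2),(1,
  4)]⟩⟩,⟨false,0,⟨0,[(28,0)]⟩,⟨2,[(0,0),(2,1),(39,0),(0,1)]⟩⟩,⟨true,(-1),⟨7,[(16,4),(2,4),(2,3),(0,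
  0),(19,1),(6,1)]⟩,⟨1,[(47,0),(0,0)]⟩⟩,⟨false,0,⟨0,[(28,0),(17,0)]⟩,⟨6,[(0,4),(2,1),(2,2),(2,2),(0,
  2),(32,0),(4,3)]⟩⟩,⟨false,0,⟨0,[]⟩,⟨0,[]⟩⟩,⟨false,0,⟨0,[]⟩,⟨0,[]⟩⟩,[.o ⟨false,0,⟨0,[(46,0)]⟩,⟨23,
  [(6,1),(2,1),(3,6),(6,8),(2,5),(19,11),(4,1)]⟩⟩,.e ⟨false,0,⟨0,[]⟩,⟨1,[(13,0),(6,0)]⟩⟩ ⟨false,1,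
  ⟨12,[(8,2),(4,3),(14,12),(3,0),(2,0),(10,2),(1,4)]⟩,⟨0,[(0,0),(43,0)]⟩⟩,.a ⟨true,0,⟨7,[(0,4),(2,
  2),(0,1),(1,1),(2,1),(11,4),(1,1),(24,1)]⟩,⟨0,[(28,0)]⟩⟩ ⟨false,0,⟨1,[(34,0),(0,0)]⟩,⟨1,[(47,0),
  (0,0)]⟩⟩ ⟨true,0,⟨0,[(28,0),(17,0)]⟩,⟨0,[(0,0),(43,0)]⟩⟩,.o ⟨false,0,⟨0,[(0,0)]⟩,⟨1,[(28,1),(14,
  0),(3,0)]⟩⟩]⟩) (.Q [0,0,0,0,0,0,0,0,-1,1,0,-1] (.p false [0,0,0,0,1] [1] (⟨0,[(30,0)]⟩,⟨0,[(29,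
  0)]⟩) .k 1 (⟨0,[]⟩,⟨0,[]⟩) .k .k) (.R ⟨0,false,false,false,[-1,1,0,0,1],[0,0,0,0,1],[1,1,1,1],(⟨0,
  [(2,0)]⟩,⟨0,[(30,0),(10,0)]⟩),(⟨0,[(31,0)]⟩,⟨0,[(30,0)]⟩),⟨0,[(30,0)]⟩,(.r 0 ⟨1,[(20,0),(12,0),(2,
  0)]⟩ ⟨12,[(9,2),(4,3),(18,0),(2,0),(10,2),(1,4)]⟩),.k,.k,.k,.k,.k,⟨true,0,⟨5,[(14,0),(6,0),(2,1),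
  (10,0),(0,0)]⟩,⟨0,[(47,0)]⟩⟩,⟨false,0,⟨0,[(39,0),(1,0)]⟩,⟨1,[(44,0),(3,0)]⟩⟩,⟨true,0,⟨0,[]⟩,⟨0,
  [(51,0)]⟩⟩,⟨false,0,⟨0,[(22,0),(26,0)]⟩,⟨23,[(7,1),(2,1),(3,6),(6,8),(2,5),(19,11),(4,1)]⟩⟩,
  ⟨false,0,⟨0,[]⟩,⟨0,[]⟩⟩,⟨false,0,⟨0,[]⟩,⟨0,[]⟩⟩,[.o ⟨false,0,⟨2,[(3,1),(19,0),(5,0),(14,0)]⟩,⟨1,
  [(0,1),(43,0),(4,0)]⟩⟩,.a ⟨true,0,⟨0,[(29,0)]⟩,⟨0,[(0,0)]⟩⟩ ⟨true,0,⟨5,[(14,0),(6,0),(2,1),(10,0),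
  (0,0)]⟩,⟨0,[(47,0)]⟩⟩ ⟨false,0,⟨0,[(39,0),(1,0)]⟩,⟨1,[(44,0),(3,0)]⟩⟩,.o ⟨false,1,⟨0,[(1,0),(42,
  0)]⟩,⟨1,[(0,1),(34,0),(0,0)]⟩⟩,.o ⟨false,1,⟨0,[(29,0),(14,0)]⟩,⟨0,[(0,0)]⟩⟩]⟩) (.R ⟨0,false,false,
  true,[-1,1,0,0,1],[0,1],[1,1,1],(⟨0,[(2,0)]⟩,⟨0,[(30,0),(10,0)]⟩),(⟨0,[(42,0)]⟩,⟨0,[(41,0)]⟩),⟨0,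
  [(30,0)]⟩,(.r 0 ⟨1,[(20,0),(12,0),(2,0)]⟩ ⟨12,[(9,2),(4,3),(18,0),(2,0),(10,2),(1,4)]⟩),.k,.k,.k,
  .k,.k,⟨true,0,⟨0,[(47,0)]⟩,⟨5,[(14,0),(6,0),(2,1),(10,0),(0,0)]⟩⟩,⟨false,1,⟨6,[(4,6),(15,1),(0,1),
  (21,0),(1,0)]⟩,⟨0,[(0,0)]⟩⟩,⟨true,0,⟨0,[(47,0)]⟩,⟨0,[(46,0)]⟩⟩,⟨false,1,⟨16,[(4,14),(9,1),(6,1),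
  (2,4),(0,1),(2,1),(6,3),(13,0)]⟩,⟨0,[(0,0)]⟩⟩,⟨false,0,⟨0,[]⟩,⟨0,[]⟩⟩,⟨false,0,⟨0,[]⟩,⟨0,[]⟩⟩,[.e
  ⟨false,0,⟨0,[(51,0)]⟩,⟨1,[(48,0),(0,0)]⟩⟩ ⟨false,0,⟨4,[(4,1),(17,2),(1,1),(3,2),(16,3)]⟩,⟨7,[(0,
  5),(8,1),(4,1),(14,1),(14,0),(2,1),(1,2)]⟩⟩,.o ⟨false,1,⟨23,[(7,1),(2,1),(3,6),(6,8),(2,5),(19,
  11),(4,1)]⟩,⟨0,[(47,0)]⟩⟩,.o ⟨false,1,⟨0,[(1,0),(42,0)]⟩,⟨1,[(4,0),(18,0),(0,0),(3,0)]⟩⟩,.a ⟨true,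
  0,⟨0,[(0,0)]⟩,⟨17,[(4,17),(5,1),(9,2),(1,11),(1,7),(7,4),(0,2),(5,0),(1,0)]⟩⟩ ⟨false,0,⟨0,[]⟩,⟨3,
  [(14,0),(6,0),(13,0),(0,0),(12,1)]⟩⟩ ⟨true,0,⟨4,[(4,1),(17,2),(1,1),(3,2),(16,3)]⟩,⟨0,[(0,0),(46,
  0)]⟩⟩]⟩))) (.Q [0,0,0,0,0,0,1,1,1,-1,1,1] (.p true [0,0,1] [1,0,0,0,-1] (⟨0,[(36,0)]⟩,⟨0,[(35,
  0)]⟩) .k 2 (⟨0,[(28,0)]⟩,⟨0,[(29,0)]⟩) .k (.r 1 ⟨0,[(3,1),(1,0),(2,0),(11,5),(1,1),(19,2),(4,2)]⟩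
  ⟨5,[(12,6),(6,0),(2,1),(10,3),(0,3)]⟩)) (.Q [0,0,-1,0,1,0,0,0,-1,0,0,-1] (.p false [0,0,0,0,1] []
  (⟨0,[(30,0)]⟩,⟨0,[(29,0)]⟩) .k 0 (⟨0,[]⟩,⟨0,[]⟩) .k .k) (.Q [0,0,1,0,0,0,0,0,1,-1,0,1] (.p true
  [0,0,0,0,1] [1] (⟨0,[(31,0)]⟩,⟨0,[(30,0)]⟩) .k 1 (⟨0,[]⟩,⟨0,[]⟩) .k .k) (.Q [0,0,0,0,0,-1,0,0,0,0,
  0,1] (.ed false [1,-1,0,0,1] .k) (.Q [0,0,0,0,0,0,0,0,-1,1,0,-1] (.p false [0,0,0,0,1] [1] (⟨0,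
  [(33,0)]⟩,⟨0,[(32,0)]⟩) .k 1 (⟨0,[]⟩,⟨0,[]⟩) .k .k) (.S ⟨1,0,[0,0,1],[1,1,0,0,-1],[0,-1,1],(⟨0,
  [(33,0),(8,0)]⟩,⟨0,[(1,0)]⟩),⟨0,[(33,0)]⟩,(.r (-1) ⟨11,[(17,4),(6,4),(2,3),(10,4),(0,4),(12,5)]⟩
  ⟨10,[(12,1),(0,1),(12,3),(10,1),(8,1),(0,1),(0,0)]⟩),.k,⟨true,0,⟨0,[(50,0)]⟩,⟨6,[(23,1),(0,1),(21,
  0),(1,0)]⟩⟩,⟨false,0,⟨0,[(50,0)]⟩,⟨23,[(10,1),(2,1),(3,6),(6,8),(2,5),(24,13)]⟩⟩,⟨false,1,⟨3,[(17,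
  0),(6,0),(13,0),(0,0),(12,1)]⟩,⟨0,[]⟩⟩,⟨true,0,⟨0,[(54,0)]⟩,⟨0,[]⟩⟩,[.a ⟨true,0,⟨0,[(0,0)]⟩,⟨0,
  [(32,0)]⟩⟩ ⟨false,1,⟨3,[(17,0),(6,0),(13,0),(0,0),(12,1)]⟩,⟨10,[(12,0),(0,0),(12,1),(10,0),(8,0),
  (0,0),(0,5)]⟩⟩ ⟨true,0,⟨1,[(38,0),(0,0)]⟩,⟨0,[]⟩⟩,.o ⟨false,1,⟨1,[(0,1),(46,0),(4,0)]⟩,⟨15,[(2,4),
  (3,10),(5,0),(4,0),(8,3),(19,0),(0,1)]⟩⟩,.o ⟨false,1,⟨0,[(3,0)]⟩,⟨0,[(2,0)]⟩⟩,.e ⟨false,1,⟨0,[(52,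
  0)]⟩,⟨0,[(54,0)]⟩⟩ ⟨false,1,⟨3,[(17,0),(6,0),(13,0),(0,0),(12,1)]⟩,⟨0,[]⟩⟩]⟩) (.Q [0,2,0,-1,-1,0,
  0,0,1,-1,0,1] (.p true [0,0,0,0,1] [1] (⟨0,[(34,0)]⟩,⟨0,[(33,0)]⟩) .k 1 (⟨0,[]⟩,⟨0,[]⟩) .k .k)
  (.S ⟨1,0,[0,2,0,-1],[0,0,0,0,1],[1,1],(⟨0,[(35,0)]⟩,⟨0,[(34,0)]⟩),⟨0,[(2,0)]⟩,.k,(.r 0 ⟨18,[(0,3),
  (3,3),(8,2),(0,1),(3,0),(8,3),(10,1),(8,2)]⟩ ⟨11,[(18,4),(6,4),(2,3),(10,4),(0,4),(12,5)]⟩),⟨true,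
  0,⟨0,[]⟩,⟨0,[(55,0)]⟩⟩,⟨false,0,⟨0,[(51,0)]⟩,⟨23,[(11,1),(2,1),(3,6),(6,8),(2,5),(24,13)]⟩⟩,
  ⟨false,1,⟨23,[(11,1),(2,1),(3,6),(6,8),(2,5),(24,13)]⟩,⟨0,[(51,0)]⟩⟩,⟨true,0,⟨0,[(55,0)]⟩,⟨0,[]⟩⟩,
  [.o ⟨false,(-1),⟨0,[(0,0)]⟩,⟨5,[(4,3),(13,0),(6,0),(2,1),(3,1),(20,5)]⟩⟩,.a ⟨true,(-1),⟨0,[(1,0),
  (24,0)]⟩,⟨11,[(8,11),(2,1),(2,1),(3,0),(6,2),(2,5),(24,1)]⟩⟩ ⟨true,0,⟨0,[]⟩,⟨1,[(39,0),(0,0)]⟩⟩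
  ⟨false,0,⟨18,[(0,3),(3,3),(8,2),(0,1),(3,0),(8,3),(10,1),(8,2)]⟩,⟨23,[(11,1),(2,1),(3,6),(6,8),(2,
  5),(24,13)]⟩⟩,.o ⟨false,0,⟨0,[(1,0)]⟩,⟨0,[(32,0)]⟩⟩,.o ⟨false,0,⟨0,[(3,0)]⟩,⟨0,[(4,0)]⟩⟩]⟩) (.R
  ⟨2,true,false,false,[0,1],[0,0,0,0,1],[0,1,1],(⟨0,[]⟩,⟨0,[]⟩),(⟨0,[(35,0)]⟩,⟨0,[(34,0)]⟩),⟨0,[]⟩,
  .k,.k,.k,(.r (-1) ⟨5,[(0,2),(2,2),(14,1),(6,1),(2,0),(10,1),(0,1)]⟩ ⟨10,[(13,1),(0,1),(12,3),(10,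
  1),(8,1),(0,1),(0,0)]⟩),.k,.k,⟨true,0,⟨1,[(39,0),(0,0)]⟩,⟨0,[]⟩⟩,⟨false,0,⟨0,[(33,0)]⟩,⟨0,[(4,
  0)]⟩⟩,⟨false,0,⟨0,[(51,0)]⟩,⟨9,[(0,1),(6,1),(10,2),(6,2),(2,1),(24,3)]⟩⟩,⟨true,(-1),⟨0,[(1,0),(24,
  0)]⟩,⟨10,[(0,1),(3,4),(19,1),(0,1),(2,0),(3,3),(15,0)]⟩⟩,⟨true,0,⟨0,[(55,0)]⟩,⟨0,[]⟩⟩,⟨false,0,⟨0,
  [(33,0)]⟩,⟨0,[(0,0),(25,0),(21,0)]⟩⟩,[]⟩))) (.Q [0,0,0,0,0,0,0,0,1,-1,0,1] (.p true [0,0,0,0,1]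
  [1] (⟨0,[(33,0)]⟩,⟨0,[(32,0)]⟩) .k 1 (⟨0,[]⟩,⟨0,[]⟩) .k .k) (.R ⟨0,false,false,false,[0,0,0,0,1],
  [0,1],[1,0,2,1],(⟨0,[(34,0)]⟩,⟨0,[(33,0)]⟩),(⟨0,[(45,0)]⟩,⟨0,[(44,0)]⟩),⟨0,[(1,0)]⟩,.k,.k,(.r 0
  ⟨10,[(12,1),(0,1),(12,3),(10,1),(8,1),(0,1),(0,0)]⟩ ⟨11,[(17,4),(6,4),(2,3),(10,4),(0,4),(12,
  5)]⟩),(.r 0 ⟨10,[(12,1),(0,1),(12,3),(10,1),(8,1),(0,1),(0,0)]⟩ ⟨11,[(17,4),(6,4),(2,3),(10,4),(0,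
  4),(12,5)]⟩),.k,.k,⟨false,0,⟨0,[]⟩,⟨1,[(17,0),(6,0)]⟩⟩,⟨true,1,⟨0,[(3,0)]⟩,⟨6,[(0,3),(1,1),(23,5),
  (0,3),(4,0),(19,2)]⟩⟩,⟨true,0,⟨3,[(27,1),(10,0),(0,0),(10,1),(1,1)]⟩,⟨10,[(12,2),(0,2),(12,5),(10,
  2),(8,2),(0,2),(0,6)]⟩⟩,⟨false,2,⟨5,[(3,3),(13,0),(6,0),(2,1),(3,1),(20,5)]⟩,⟨0,[(0,0),(24,0)]⟩⟩,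
  ⟨false,0,⟨0,[]⟩,⟨0,[]⟩⟩,⟨false,0,⟨0,[]⟩,⟨0,[]⟩⟩,[.o ⟨false,1,⟨23,[(10,1),(2,1),(3,6),(6,8),(2,5),
  (19,11),(4,1)]⟩,⟨0,[(50,0)]⟩⟩,.a ⟨true,1,⟨23,[(10,1),(2,1),(3,6),(6,8),(2,5),(24,13)]⟩,⟨0,[(25,
  0)]⟩⟩ ⟨true,0,⟨3,[(27,1),(10,0),(0,0),(10,1),(1,1)]⟩,⟨10,[(12,1),(0,1),(12,3),(10,1),(8,1),(0,1),
  (0,0)]⟩⟩ ⟨false,2,⟨23,[(3,23),(6,1),(2,1),(3,6),(6,8),(2,5),(24,13)]⟩,⟨0,[(0,0),(24,0)]⟩⟩,.o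
  ⟨false,0,⟨0,[(0,0)]⟩,⟨0,[(31,0)]⟩⟩,.o ⟨false,0,⟨0,[(2,0)]⟩,⟨0,[(3,0)]⟩⟩]⟩) (.R ⟨0,false,false,
  false,[0,0,0,0,1],[1,-1],[1,1,1],(⟨0,[(34,0)]⟩,⟨0,[(33,0)]⟩),(⟨0,[(44,0)]⟩,⟨0,[(45,0)]⟩),⟨0,[(1,
  0)]⟩,.k,.k,(.r 0 ⟨10,[(12,1),(0,1),(12,3),(10,1),(8,1),(0,1),(0,0)]⟩ ⟨11,[(17,4),(6,4),(2,3),(10,
  4),(0,4),(12,5)]⟩),(.r 0 ⟨1,[(23,0),(12,0),(2,0)]⟩ ⟨3,[(2,0),(4,0),(4,0),(4,0),(34,0)]⟩),.k,.k,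
  ⟨true,(-1),⟨7,[(20,0),(2,0),(2,3),(0,4),(19,1),(6,1)]⟩,⟨3,[(2,0),(4,0),(4,0),(4,0),(34,0)]⟩⟩,
  ⟨false,0,⟨0,[(0,0)]⟩,⟨13,[(2,1),(1,3),(1,7),(1,1),(8,5),(10,1),(18,0),(4,0)]⟩⟩,⟨true,0,⟨1,[(38,0),
  (0,0)]⟩,⟨10,[(12,0),(0,0),(12,1),(10,0),(8,0),(0,0),(0,5)]⟩⟩,⟨false,1,⟨0,[(0,0),(49,0),(1,0)]⟩,⟨0,
  [(6,0)]⟩⟩,⟨false,0,⟨0,[]⟩,⟨0,[]⟩⟩,⟨false,0,⟨0,[]⟩,⟨0,[]⟩⟩,[.o ⟨false,0,⟨0,[(50,0)]⟩,⟨23,[(10,1),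
  (2,1),(3,6),(6,8),(2,5),(19,11),(4,1)]⟩⟩,.e ⟨false,0,⟨0,[]⟩,⟨1,[(17,0),(6,0)]⟩⟩ ⟨false,1,⟨0,[(7,
  0)]⟩,⟨0,[(6,0)]⟩⟩,.a ⟨true,0,⟨0,[(32,0)]⟩,⟨0,[(0,0)]⟩⟩ ⟨false,0,⟨1,[(38,0),(0,0)]⟩,⟨1,[(51,0),(0,
  0)]⟩⟩ ⟨true,0,⟨0,[(0,0),(49,0)]⟩,⟨0,[(6,0)]⟩⟩,.o ⟨false,0,⟨0,[(2,0)]⟩,⟨0,[(3,0)]⟩⟩]⟩))) (.Q [0,0,
  0,0,0,-1,0,0,0,0,0,1] (.ed false [1,-1,0,0,1] .k) (.S ⟨1,0,[0,-1,1],[1,1,0,0,-1],[1,0,1,1],(⟨0,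
  [(32,0),(8,0)]⟩,⟨0,[(0,0)]⟩),⟨0,[(32,0)]⟩,(.r (-1) ⟨11,[(16,4),(6,4),(2,3),(10,4),(0,4),(12,5)]⟩
  ⟨10,[(11,1),(0,1),(12,3),(10,1),(8,1),(0,1),(0,0)]⟩),.k,⟨false,0,⟨0,[]⟩,⟨3,[(16,0),(6,0),(13,0),
  (0,0),(12,1)]⟩⟩,⟨true,0,⟨0,[(49,0)]⟩,⟨6,[(22,1),(0,1),(21,0),(1,0)]⟩⟩,⟨true,0,⟨6,[(22,1),(0,1),
  (21,0),(1,0)]⟩,⟨0,[(49,0)]⟩⟩,⟨false,1,⟨3,[(16,0),(6,0),(13,0),(0,0),(12,1)]⟩,⟨0,[]⟩⟩,[.o ⟨false,1,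
  ⟨5,[(1,1),(4,3),(19,1),(19,2),(2,1),(1,0)]⟩,⟨2,[(5,1),(19,0),(5,0),(14,0)]⟩⟩,.e ⟨false,1,⟨23,[(9,
  1),(2,1),(3,6),(6,8),(2,5),(24,13)]⟩,⟨10,[(11,1),(0,1),(12,3),(10,1),(8,1),(0,1),(0,0)]⟩⟩ ⟨false,
  1,⟨0,[(51,0)]⟩,⟨0,[(45,0)]⟩⟩,.a ⟨true,0,⟨0,[(1,0)]⟩,⟨1,[(31,1),(5,0),(0,0)]⟩⟩ ⟨true,0,⟨5,[(16,0),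
  (6,0),(2,1),(10,0),(0,0)]⟩,⟨10,[(11,1),(0,1),(12,3),(10,1),(8,1),(0,1),(0,0)]⟩⟩ ⟨false,1,⟨1,[(37,
  0),(0,0),(12,1)]⟩,⟨10,[(11,0),(0,0),(12,1),(10,0),(8,0),(0,0),(0,5)]⟩⟩,.e ⟨false,1,⟨23,[(9,1),(2,
  1),(3,6),(6,8),(2,5),(24,13)]⟩,⟨0,[(49,0)]⟩⟩ ⟨false,1,⟨0,[(51,0)]⟩,⟨0,[(53,0)]⟩⟩]⟩) (.R ⟨0,false,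
  false,true,[0,1,0,0,-1],[1,0,0,0,-1],[1,0,1,1],(⟨0,[(0,0)]⟩,⟨0,[(33,0),(9,0)]⟩),(⟨0,[(32,0)]⟩,⟨0,
  [(33,0)]⟩),⟨0,[(33,0)]⟩,(.r (-1) ⟨11,[(16,4),(6,4),(2,3),(10,4),(0,4),(12,5)]⟩ ⟨10,[(11,1),(0,1),
  (12,3),(10,1),(8,1),(0,1),(0,0)]⟩),.k,.k,.k,.k,.k,⟨true,0,⟨5,[(16,0),(6,0),(2,1),(10,0),(0,0)]⟩,
  ⟨0,[(49,0)]⟩⟩,⟨false,0,⟨0,[(41,0),(1,0)]⟩,⟨1,[(46,0),(3,0)]⟩⟩,⟨false,0,⟨0,[]⟩,⟨3,[(16,0),(6,0),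
  (13,0),(0,0),(12,1)]⟩⟩,⟨true,(-1),⟨0,[(24,0)]⟩,⟨23,[(9,1),(2,1),(3,6),(6,8),(2,5),(19,11),(4,
  1)]⟩⟩,⟨false,0,⟨0,[]⟩,⟨0,[]⟩⟩,⟨false,0,⟨0,[]⟩,⟨0,[]⟩⟩,[.a ⟨true,0,⟨3,[(1,1),(4,0),(18,0),(0,0),(3,
  0)]⟩,⟨0,[(31,0)]⟩⟩ ⟨true,0,⟨5,[(16,0),(6,0),(2,1),(10,0),(0,0)]⟩,⟨0,[(49,0)]⟩⟩ ⟨false,0,⟨0,[(41,
  0),(1,0)]⟩,⟨1,[(46,0),(3,0)]⟩⟩,.o ⟨false,1,⟨5,[(1,1),(4,3),(19,1),(19,2),(2,1),(1,0)]⟩,⟨2,[(5,1),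
  (19,0),(5,0),(14,0)]⟩⟩,.o ⟨false,1,⟨0,[(1,0),(44,0)]⟩,⟨1,[(31,1),(5,0),(0,0)]⟩⟩,.o ⟨false,1,⟨3,
  [(1,1),(4,0),(18,0),(0,0),(3,0),(15,3)]⟩,⟨0,[(31,0)]⟩⟩]⟩))) (.K ⟨0,[0,0,0,0,1],(-1),(-1),(⟨0,[(31,
  0)]⟩,⟨0,[(30,0)]⟩),.k,(.r 0 ⟨10,[(9,1),(0,1),(12,3),(10,1),(8,1),(0,1),(0,0)]⟩ ⟨11,[(14,4),(6,4),
  (2,3),(10,4),(0,4),(12,5)]⟩),(.r 0 ⟨1,[(20,0),(12,0),(2,0)]⟩ ⟨9,[(1,0),(2,0),(4,1),(4,2),(21,0),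
  (10,1),(1,2)]⟩),.k,.k,[⟨2,[(4,2),(5,1),(11,2),(1,1),(10,0),(8,2)]⟩,⟨0,[(0,0)]⟩,⟨0,[(28,0)]⟩,⟨0,
  [(3,0),(18,0)]⟩]⟩)) (.Q [0,-2,0,-1,1,0,0,0,-1,0,0,-1] (.p false [0,0,0,0,1] [] (⟨0,[(30,0)]⟩,⟨0,
  [(29,0)]⟩) .k 0 (⟨0,[]⟩,⟨0,[]⟩) .k .k) (.R ⟨2,true,false,true,[0,1],[0,1,0,0,1],[0,1,1],(⟨0,[]⟩,
  ⟨0,[]⟩),(⟨0,[(31,0),(7,0)]⟩,⟨0,[(2,0)]⟩),⟨0,[]⟩,.k,(.r 0 ⟨1,[(20,0),(12,0),(2,0)]⟩ ⟨12,[(9,2),(4,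
  3),(18,0),(2,0),(10,2),(1,4)]⟩),.k,.k,(.r (-1) ⟨12,[(9,2),(4,3),(18,0),(2,0),(10,2),(1,4)]⟩ ⟨1,
  [(20,0),(12,0),(2,0)]⟩),.k,⟨false,1,⟨12,[(9,2),(4,3),(18,0),(2,0),(10,2),(1,4)]⟩,⟨6,[(20,1),(0,1),
  (21,0),(1,0)]⟩⟩,⟨true,0,⟨0,[(29,0)]⟩,⟨6,[(0,1),(0,3),(13,2),(1,0),(6,0),(3,0),(6,3),(8,1)]⟩⟩,
  ⟨false,0,⟨0,[(47,0)]⟩,⟨23,[(7,1),(2,1),(3,6),(6,8),(2,5),(24,13)]⟩⟩,⟨true,(-1),⟨0,[(3,0),(18,0)]⟩,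
  ⟨10,[(0,6),(6,0),(2,0),(10,0),(2,0),(3,3),(16,0)]⟩⟩,⟨true,0,⟨0,[(51,0)]⟩,⟨0,[]⟩⟩,⟨false,0,⟨6,[(20,
  1),(0,1),(7,6),(13,0),(1,0)]⟩,⟨0,[(0,0)]⟩⟩,[]⟩) (.Q [0,0,1,0,0,0,1,0,-1,0,1,-1] (.p true [0,0,1]
  [0,0,0,0,1] (⟨0,[(38,0)]⟩,⟨0,[(37,0)]⟩) .k 2 (⟨0,[(31,0)]⟩,⟨0,[(30,0)]⟩) .k (.r 0 ⟨1,[(11,0),(7,
  0),(29,0)]⟩ ⟨3,[(14,1),(5,0),(13,0),(0,1),(0,0),(14,3)]⟩)) (.K ⟨0,[0,1,0,0,1],0,(-1),(⟨0,[(32,0),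
  (7,0)]⟩,⟨0,[(3,0)]⟩),(.r 0 ⟨1,[(21,0),(12,0),(2,0)]⟩ ⟨12,[(10,2),(4,3),(18,0),(2,0),(10,2),(1,
  4)]⟩),.k,(.r 1 ⟨5,[(0,0),(0,0),(16,0),(6,3),(9,0),(8,0)]⟩ ⟨12,[(10,4),(4,10),(18,5),(2,5),(10,4),
  (1,3)]⟩),(.r 0 ⟨1,[(21,0),(13,0),(0,0)]⟩ ⟨13,[(15,2),(4,11),(1,0),(11,3),(2,3),(12,7)]⟩),.k,[⟨0,
  [(0,0)]⟩,⟨0,[(30,0)]⟩,⟨5,[(5,1),(18,1),(4,3),(6,0),(0,0),(7,1)]⟩,⟨0,[(1,0)]⟩]⟩) (.Q [0,0,0,0,0,-1,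
  0,0,0,0,0,1] (.ed false [1,-1,0,0,1] .k) (.S ⟨1,0,[0,-1,1],[1,1,0,0,-1],[1,0,1,1],(⟨0,[(32,0),(8,
  0)]⟩,⟨0,[(0,0)]⟩),⟨0,[(32,0)]⟩,(.r (-1) ⟨11,[(16,4),(6,4),(2,3),(10,4),(0,4),(12,5)]⟩ ⟨10,[(11,1),
  (0,1),(12,3),(10,1),(8,1),(0,1),(0,0)]⟩),.k,⟨false,0,⟨0,[]⟩,⟨3,[(16,0),(6,0),(13,0),(0,0),(12,
  1)]⟩⟩,⟨true,0,⟨0,[(49,0)]⟩,⟨6,[(22,1),(0,1),(21,0),(1,0)]⟩⟩,⟨true,0,⟨6,[(22,1),(0,1),(21,0),(1,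
  0)]⟩,⟨0,[(49,0)]⟩⟩,⟨false,1,⟨3,[(16,0),(6,0),(13,0),(0,0),(12,1)]⟩,⟨0,[]⟩⟩,[.o ⟨false,1,⟨17,[(3,
  5),(2,11),(5,1),(0,5),(12,1),(10,3),(8,8),(4,2)]⟩,⟨2,[(5,1),(19,0),(5,0),(14,0)]⟩⟩,.e ⟨false,1,
  ⟨23,[(9,1),(2,1),(3,6),(6,8),(2,5),(24,13)]⟩,⟨10,[(11,1),(0,1),(12,3),(10,1),(8,1),(0,1),(0,0)]⟩⟩
  ⟨false,1,⟨0,[(51,0)]⟩,⟨0,[(45,0)]⟩⟩,.a ⟨true,0,⟨2,[(3,2),(7,0),(0,1),(0,1),(23,0)]⟩,⟨1,[(31,1),(5,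
  0),(0,0)]⟩⟩ ⟨true,0,⟨5,[(16,0),(6,0),(2,1),(10,0),(0,0)]⟩,⟨10,[(11,1),(0,1),(12,3),(10,1),(8,1),
  (0,1),(0,0)]⟩⟩ ⟨false,1,⟨1,[(37,0),(0,0),(12,1)]⟩,⟨10,[(11,0),(0,0),(12,1),(10,0),(8,0),(0,0),(0,
  5)]⟩⟩,.e ⟨false,1,⟨23,[(9,1),(2,1),(3,6),(6,8),(2,5),(24,13)]⟩,⟨0,[(49,0)]⟩⟩ ⟨false,1,⟨0,[(51,
  0)]⟩,⟨0,[(53,0)]⟩⟩]⟩) (.R ⟨0,false,false,true,[0,1,0,0,-1],[1,0,0,0,-1],[1,0,1,1],(⟨0,[(0,0)]⟩,⟨0,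
  [(33,0),(9,0)]⟩),(⟨0,[(32,0)]⟩,⟨0,[(33,0)]⟩),⟨0,[(33,0)]⟩,(.r (-1) ⟨11,[(16,4),(6,4),(2,3),(10,4),
  (0,4),(12,5)]⟩ ⟨10,[(11,1),(0,1),(12,3),(10,1),(8,1),(0,1),(0,0)]⟩),.k,.k,.k,.k,.k,⟨true,0,⟨5,
  [(16,0),(6,0),(2,1),(10,0),(0,0)]⟩,⟨0,[(49,0)]⟩⟩,⟨false,0,⟨0,[(41,0),(1,0)]⟩,⟨1,[(46,0),(3,0)]⟩⟩,
  ⟨false,0,⟨0,[]⟩,⟨3,[(16,0),(6,0),(13,0),(0,0),(12,1)]⟩⟩,⟨true,(-1),⟨0,[(24,0)]⟩,⟨23,[(9,1),(2,1),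
  (3,6),(6,8),(2,5),(19,11),(4,1)]⟩⟩,⟨false,0,⟨0,[]⟩,⟨0,[]⟩⟩,⟨false,0,⟨0,[]⟩,⟨0,[]⟩⟩,[.a ⟨true,0,⟨5,
  [(3,3),(2,1),(5,0),(0,1),(3,0),(17,0),(1,1)]⟩,⟨0,[(31,0)]⟩⟩ ⟨true,0,⟨5,[(16,0),(6,0),(2,1),(10,0),
  (0,0)]⟩,⟨0,[(49,0)]⟩⟩ ⟨false,0,⟨0,[(41,0),(1,0)]⟩,⟨1,[(46,0),(3,0)]⟩⟩,.o ⟨false,1,⟨17,[(3,5),(2,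
  11),(5,1),(0,5),(12,1),(10,3),(8,8),(4,2)]⟩,⟨2,[(5,1),(19,0),(5,0),(14,0)]⟩⟩,.o ⟨false,1,⟨2,[(3,
  2),(7,0),(0,1),(0,1),(23,0),(8,2)]⟩,⟨1,[(31,1),(5,0),(0,0)]⟩⟩,.o ⟨false,1,⟨15,[(3,8),(2,2),(5,3),
  (0,5),(5,2),(10,3),(6,4),(8,13)]⟩,⟨0,[(31,0)]⟩⟩]⟩))))))) (.Q [0,0,0,0,0,-1,0,0,0,0,0,1] (.ed
  false [1,-1,0,0,1] .k) (.S ⟨1,0,[0,0,1],[1,1,0,0,-1],[0,-1,1],(⟨0,[(27,0),(8,0)]⟩,⟨0,[(0,0)]⟩),⟨0,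
  [(27,0)]⟩,(.r (-1) ⟨11,[(11,4),(6,4),(2,3),(10,4),(0,4),(12,5)]⟩ ⟨10,[(6,1),(0,1),(12,3),(10,1),
  (8,1),(0,1),(0,0)]⟩),.k,⟨true,0,⟨0,[(44,0)]⟩,⟨6,[(17,1),(0,1),(21,0),(1,0)]⟩⟩,⟨false,0,⟨0,[(44,
  0)]⟩,⟨23,[(4,1),(2,1),(3,6),(6,8),(2,5),(24,13)]⟩⟩,⟨false,1,⟨3,[(11,0),(6,0),(13,0),(0,0),(12,
  1)]⟩,⟨0,[]⟩⟩,⟨true,0,⟨0,[(48,0)]⟩,⟨0,[]⟩⟩,[.o ⟨false,1,⟨0,[(25,0)]⟩,⟨9,[(1,7),(4,1),(4,1),(14,1),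
  (14,0),(2,1),(1,2)]⟩⟩,.e ⟨false,1,⟨0,[(46,0)]⟩,⟨0,[(40,0)]⟩⟩ ⟨false,1,⟨3,[(11,0),(6,0),(13,0),(0,
  0),(12,1)]⟩,⟨10,[(6,0),(0,0),(12,1),(10,0),(8,0),(0,0),(0,5)]⟩⟩,.a ⟨true,1,⟨10,[(2,1),(1,1),(2,4),
  (11,7),(1,1),(3,10),(3,2),(16,4)]⟩,⟨0,[(1,0),(17,0),(26,0)]⟩⟩ ⟨false,1,⟨1,[(32,0),(0,0),(12,1)]⟩,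
  ⟨10,[(6,0),(0,0),(12,1),(10,0),(8,0),(0,0),(0,5)]⟩⟩ ⟨true,0,⟨1,[(32,0),(0,0)]⟩,⟨10,[(6,0),(0,0),
  (12,1),(10,0),(8,0),(0,0),(0,5)]⟩⟩,.o ⟨false,1,⟨0,[(25,0)]⟩,⟨9,[(1,7),(4,1),(4,1),(14,1),(14,0),
  (2,1),(1,2)]⟩⟩]⟩) (.R ⟨0,false,false,false,[0,1,0,0,-1],[0,1],[0,1],(⟨0,[(0,0)]⟩,⟨0,[(28,0),(9,
  0)]⟩),(⟨0,[(39,0)]⟩,⟨0,[(38,0)]⟩),⟨0,[(28,0)]⟩,(.r (-1) ⟨11,[(11,4),(6,4),(2,3),(10,4),(0,4),(12,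
  5)]⟩ ⟨10,[(6,1),(0,1),(12,3),(10,1),(8,1),(0,1),(0,0)]⟩),.k,.k,.k,.k,.k,⟨true,0,⟨10,[(6,1),(0,1),
  (12,3),(10,1),(8,1),(0,1),(0,0)]⟩,⟨3,[(21,1),(10,0),(0,0),(10,1),(1,1)]⟩⟩,⟨false,0,⟨10,[(1,8),(0,
  1),(4,3),(3,1),(7,4),(6,1),(2,3),(16,5)]⟩,⟨0,[(25,0)]⟩⟩,⟨false,0,⟨10,[(6,1),(0,1),(12,3),(10,1),
  (8,1),(0,1),(0,0)]⟩,⟨5,[(11,0),(6,0),(2,1),(10,0),(0,0),(12,5)]⟩⟩,⟨true,(-1),⟨10,[(1,9),(0,0),(4,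
  1),(3,0),(7,7),(6,0),(2,1),(16,2)]⟩,⟨0,[(25,0)]⟩⟩,⟨false,0,⟨0,[]⟩,⟨0,[]⟩⟩,⟨false,0,⟨0,[]⟩,⟨0,[]⟩⟩,
  [.o ⟨false,1,⟨23,[(4,1),(2,1),(3,6),(6,8),(2,5),(19,11),(4,1)]⟩,⟨0,[(44,0)]⟩⟩,.e ⟨false,1,⟨1,[(11,
  0),(6,0)]⟩,⟨0,[]⟩⟩ ⟨false,0,⟨10,[(1,10),(0,1),(1,1),(2,4),(11,7),(1,1),(7,2),(16,15)]⟩,⟨10,[(6,1),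
  (0,1),(12,3),(4,10),(5,1),(8,1),(0,1),(0,0)]⟩⟩,.o ⟨false,2,⟨1,[(25,1),(15,0),(3,0)]⟩,⟨0,[(1,0),
  (17,0),(26,0)]⟩⟩,.a ⟨true,1,⟨0,[(25,0)]⟩,⟨10,[(1,10),(0,1),(1,1),(2,4),(11,18),(1,1),(7,2),(16,
  15)]⟩⟩ ⟨true,0,⟨10,[(6,0),(0,0),(12,1),(10,0),(8,0),(0,0),(0,5)]⟩,⟨1,[(32,0),(0,0)]⟩⟩ ⟨false,0,
  ⟨10,[(1,10),(0,1),(1,1),(2,4),(11,7),(1,1),(7,2),(16,15)]⟩,⟨0,[(25,0),(18,0)]⟩⟩]⟩)))))) (.I [0,0,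
  2,0,0,2,1] (.N [0,-2,1] 0 ⟨0,[(2,0)]⟩ ⟨0,[(1,0)]⟩ (.x 0 ⟨0,[(0,0)]⟩ ⟨11,[(2,3),(1,1),(0,3),(3,5),
  (10,15),(4,5),(11,4),(3,5),(0,2)]⟩)) (.I [0,0,-1,-2,1,0,0,-1] (.S ⟨1,0,[0,0,-1,-2,0,0,0,-1],[1,-1,
  -1],[1,1],(⟨0,[(20,0)]⟩,⟨0,[(32,0),(0,0)]⟩),⟨0,[(6,0)]⟩,.k,(.r (-2) ⟨1,[(0,1),(7,0),(6,0)]⟩ ⟨6,
  [(5,2),(1,1),(7,1),(2,2),(24,0)]⟩),⟨false,(-1),⟨0,[(5,0)]⟩,⟨1,[(8,1),(20,0),(0,0)]⟩⟩,⟨true,0,⟨0,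
  [(41,0)]⟩,⟨6,[(14,1),(0,1),(21,0),(1,0)]⟩⟩,⟨true,(-1),⟨2,[(5,0),(3,0),(5,0),(2,0),(20,0)]⟩,⟨0,[(0,
  0)]⟩⟩,⟨false,1,⟨21,[(2,1),(5,4),(6,0),(11,5),(2,5),(12,11)]⟩,⟨0,[]⟩⟩,[.a ⟨true,0,⟨0,[(17,0),(10,
  0),(14,0)]⟩,⟨18,[(4,16),(0,12),(9,3),(2,6),(8,1),(15,2)]⟩⟩ ⟨false,0,⟨11,[(0,0),(2,0),(13,1),(19,
  0),(0,0),(0,7)]⟩,⟨21,[(2,1),(5,4),(6,0),(11,5),(2,5),(12,11)]⟩⟩ ⟨true,1,⟨0,[(0,0)]⟩,⟨6,[(5,2),(1,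
  1),(7,1),(2,2),(24,0)]⟩⟩,.o ⟨false,1,⟨0,[(0,0),(6,0),(20,0),(14,0)]⟩,⟨3,[(4,2),(0,0),(3,1),(8,1),
  (8,0),(10,1),(0,0)]⟩⟩,.a ⟨true,(-1),⟨0,[(5,0),(10,0),(11,0),(14,0)]⟩,⟨16,[(2,1),(1,7),(3,3),(18,
  5),(1,2),(13,0)]⟩⟩ ⟨false,0,⟨0,[]⟩,⟨21,[(2,1),(5,4),(6,0),(11,5),(2,5),(12,11)]⟩⟩ ⟨true,1,⟨0,[(0,
  0)]⟩,⟨2,[(5,0),(3,0),(5,0),(2,0),(20,0)]⟩⟩,.a ⟨true,(-1),⟨6,[(12,2),(4,5),(0,3),(0,0),(10,1),(12,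
  2)]⟩,⟨0,[(4,0)]⟩⟩ ⟨true,0,⟨11,[(0,0),(2,0),(13,1),(19,0),(0,0),(0,7)]⟩,⟨1,[(29,0),(0,0)]⟩⟩ ⟨false,
  2,⟨4,[(0,2),(7,2),(4,0),(29,0)]⟩,⟨6,[(5,2),(1,1),(7,1),(2,2),(24,0)]⟩⟩]⟩) (.I [0,0,-2,0,0,-2,-1]
  (.N [0,-2,1] 0 ⟨0,[(4,0)]⟩ ⟨0,[(3,0)]⟩ (.x (-1) ⟨17,[(3,1),(5,3),(18,5),(1,25),(0,13),(0,17),(1,
  35),(4,8),(4,0)]⟩ ⟨0,[(0,0)]⟩)) (.Q [0,0,0,-1,0,0,-1,-1,-1,1,-1,-1] (.p false [0,0,1] [1,0,0,0,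
  -1] (⟨0,[(33,0)]⟩,⟨0,[(32,0)]⟩) .k 2 (⟨0,[(25,0)]⟩,⟨0,[(26,0)]⟩) .k (.r 1 ⟨1,[(1,3),(0,1),(0,1),
  (1,1),(1,1),(9,11),(16,7),(4,6),(4,4)]⟩ ⟨17,[(3,7),(5,15),(18,5),(1,4),(0,10),(12,3)]⟩)) (.Q [0,0,
  0,0,0,0,-1,-1,-1,1,-1,-1] (.p false [0,0,1] [1,0,0,0,-1] (⟨0,[(34,0)]⟩,⟨0,[(33,0)]⟩) .k 2 (⟨0,
  [(26,0)]⟩,⟨0,[(27,0)]⟩) .k (.r 1 ⟨1,[(2,3),(0,1),(0,1),(1,1),(1,1),(9,11),(16,7),(4,6),(4,4)]⟩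
  ⟨17,[(4,7),(5,15),(18,5),(1,4),(0,10),(12,3)]⟩)) (.Q [0,0,0,0,0,-1,0,0,0,0,0,1] (.ed false [1,-1,
  0,0,1] .k) (.R ⟨1,false,false,false,[0,0,0,0,1],[1,-1,-1],[1,1],(⟨0,[(29,0)]⟩,⟨0,[(28,0)]⟩),(⟨0,
  [(24,0)]⟩,⟨0,[(36,0),(0,0)]⟩),⟨0,[(0,0)]⟩,.k,.k,(.r 0 ⟨10,[(7,1),(0,1),(12,3),(10,1),(8,1),(0,1),
  (0,0)]⟩ ⟨21,[(6,9),(5,2),(6,4),(11,7),(2,7),(12,15)]⟩),(.r 1 ⟨2,[(13,0),(1,0),(3,0),(2,0)]⟩ ⟨1,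
  [(12,1),(20,0),(0,0)]⟩),.k,.k,⟨false,(-1),⟨2,[(4,0),(8,1),(29,0)]⟩,⟨1,[(12,1),(20,0),(0,0)]⟩⟩,
  ⟨true,(-1),⟨0,[(2,0),(6,0)]⟩,⟨33,[(6,1),(1,7),(3,3),(14,33),(3,5),(1,19),(8,16),(4,0)]⟩⟩,⟨true,0,
  ⟨0,[]⟩,⟨0,[(49,0)]⟩⟩,⟨false,1,⟨0,[(2,0),(44,0)]⟩,⟨11,[(4,3),(3,4),(4,6),(4,1),(8,11),(3,2),(1,3),
  (8,5)]⟩⟩,⟨false,1,⟨5,[(12,1),(6,1),(2,1),(23,0),(0,2)]⟩,⟨0,[(45,0)]⟩⟩,⟨false,1,⟨0,[(1,0),(45,0)]⟩,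
  ⟨3,[(8,0),(4,2),(13,3),(3,0),(1,1),(8,1)]⟩⟩,[.a ⟨true,0,⟨0,[(2,0),(24,0)]⟩,⟨4,[(4,1),(3,1),(0,0),
  (21,1),(1,0),(13,0)]⟩⟩ ⟨false,0,⟨10,[(7,0),(0,0),(12,1),(10,0),(8,0),(0,0),(0,5)]⟩,⟨21,[(6,1),(5,
  4),(6,0),(11,5),(2,5),(12,11)]⟩⟩ ⟨true,0,⟨0,[(2,0)]⟩,⟨9,[(4,1),(3,1),(0,5),(17,9),(3,1),(1,5),(8,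
  4),(4,0)]⟩⟩,.o ⟨false,1,⟨1,[(2,1),(24,1),(14,0),(4,0)]⟩,⟨11,[(4,3),(3,4),(4,6),(4,1),(12,2),(1,3),
  (8,5)]⟩⟩,.a ⟨true,0,⟨0,[(27,0)]⟩,⟨4,[(2,4),(1,1),(3,1),(0,0),(21,1),(1,0),(13,0)]⟩⟩ ⟨false,0,⟨0,
  []⟩,⟨21,[(6,1),(5,4),(6,0),(11,5),(2,5),(12,11)]⟩⟩ ⟨true,0,⟨0,[(2,0)]⟩,⟨11,[(4,3),(3,4),(4,6),(4,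
  1),(8,11),(3,2),(1,3),(8,5)]⟩⟩,.a ⟨true,0,⟨1,[(27,1),(5,0),(0,0)]⟩,⟨0,[(2,0),(5,0),(0,0)]⟩⟩ ⟨true,
  0,⟨10,[(7,0),(0,0),(12,1),(10,0),(8,0),(0,0),(0,5)]⟩,⟨1,[(33,0),(0,0)]⟩⟩ ⟨false,1,⟨10,[(1,5),(0,
  3),(4,1),(4,2),(13,0),(3,0),(16,3)]⟩,⟨9,[(4,1),(3,1),(0,5),(17,9),(3,1),(1,5),(8,4),(4,0)]⟩⟩]⟩)
  (.R ⟨0,false,false,true,[0,0,0,0,1],[0,1],[1,1,1,1],(⟨0,[(29,0)]⟩,⟨0,[(28,0)]⟩),(⟨0,[(40,0)]⟩,⟨0,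
  [(39,0)]⟩),⟨0,[(0,0)]⟩,.k,.k,(.r 0 ⟨10,[(7,1),(0,1),(12,3),(10,1),(8,1),(0,1),(0,0)]⟩ ⟨21,[(6,9),
  (5,2),(6,4),(11,7),(2,7),(12,15)]⟩),(.r 0 ⟨10,[(7,1),(0,1),(12,3),(10,1),(8,1),(0,1),(0,0)]⟩ ⟨21,
  [(6,9),(5,2),(6,4),(11,7),(2,7),(12,15)]⟩),.k,.k,⟨true,0,⟨0,[]⟩,⟨1,[(33,0),(0,0)]⟩⟩,⟨false,1,⟨4,
  [(1,3),(2,1),(2,1),(0,3),(17,0),(15,1)]⟩,⟨1,[(27,1),(5,0),(0,0)]⟩⟩,⟨true,0,⟨8,[(6,1),(12,1),(2,0),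
  (10,0),(0,0),(12,0)]⟩,⟨10,[(7,1),(0,1),(12,3),(10,1),(8,1),(0,1),(0,0)]⟩⟩,⟨false,1,⟨9,[(1,3),(0,
  1),(1,5),(3,3),(17,3),(6,1),(8,2),(4,4)]⟩,⟨0,[(27,0),(17,0)]⟩⟩,⟨false,0,⟨0,[]⟩,⟨0,[]⟩⟩,⟨false,0,
  ⟨0,[]⟩,⟨0,[]⟩⟩,[.e ⟨false,0,⟨6,[(18,1),(0,1),(21,0),(1,0)]⟩,⟨12,[(7,2),(4,3),(18,0),(2,0),(10,2),
  (1,4)]⟩⟩ ⟨false,0,⟨0,[(1,0),(2,0),(3,0),(11,0),(21,0)]⟩,⟨7,[(12,1),(14,7),(3,1),(1,0),(0,2),(10,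
  5),(1,3)]⟩⟩,.o ⟨false,1,⟨5,[(12,1),(6,1),(2,1),(19,2),(3,0)]⟩,⟨0,[(45,0)]⟩⟩,.a ⟨true,0,⟨0,[(27,
  0)]⟩,⟨4,[(2,4),(1,1),(3,1),(0,0),(21,1),(1,0),(13,0)]⟩⟩ ⟨false,0,⟨8,[(6,1),(12,1),(2,0),(10,0),(0,
  0),(12,0)]⟩,⟨12,[(7,2),(4,3),(18,0),(2,0),(10,2),(1,4)]⟩⟩ ⟨true,0,⟨29,[(1,23),(2,7),(3,12),(4,22),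
  (4,6),(7,5),(6,10),(8,11)]⟩,⟨0,[(27,0),(17,0)]⟩⟩,.e ⟨true,0,⟨6,[(18,1),(0,1),(21,0),(1,0)]⟩,⟨0,
  [(45,0)]⟩⟩ ⟨true,0,⟨0,[(1,0),(2,0),(3,0),(11,0),(21,0)]⟩,⟨1,[(27,1),(5,0),(0,0),(10,1)]⟩⟩]⟩)) (.R
  ⟨1,true,false,false,[1,0,-1],[0,0,0,0,1],[0,0,0,-1,0,0,0,-1],(⟨0,[(34,0)]⟩,⟨0,[(35,0)]⟩),(⟨0,[(28,
  0)]⟩,⟨0,[(27,0)]⟩),⟨0,[(23,0)]⟩,.k,.k,.k,.k,(.r (-2) ⟨1,[(11,1),(20,0),(0,0)]⟩ ⟨2,[(12,0),(1,0),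
  (3,0),(2,0)]⟩),.k,⟨false,2,⟨1,[(11,1),(20,0),(0,0)]⟩,⟨2,[(3,0),(8,1),(29,0)]⟩⟩,⟨true,1,⟨5,[(0,1),
  (10,1),(5,0),(8,3),(3,0),(1,2),(8,1)]⟩,⟨0,[(1,0),(6,0)]⟩⟩,⟨true,0,⟨0,[(44,0)]⟩,⟨6,[(17,1),(0,1),
  (21,0),(1,0)]⟩⟩,⟨false,0,⟨0,[(0,0)]⟩,⟨2,[(1,1),(9,0),(9,0),(3,0),(3,0),(16,0)]⟩⟩,⟨false,1,⟨21,[(5,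
  1),(5,4),(6,0),(11,5),(2,5),(12,11)]⟩,⟨0,[]⟩⟩,⟨true,0,⟨6,[(0,6),(16,1),(0,1),(21,0),(1,0)]⟩,⟨0,
  [(1,0)]⟩⟩,[]⟩)) (.Q [0,1,-1,-1,-1,0,0,0,1,0,0,1] (.p true [0,0,0,0,1] [] (⟨0,[(27,0)]⟩,⟨0,[(26,
  0)]⟩) .k 0 (⟨0,[]⟩,⟨0,[]⟩) .k .k) (.Q [0,1,0,0,-1,0,-1,-1,1,0,-1,1] (.p false [0,0,1] [0,0,0,0,1]
  (⟨0,[(35,0)]⟩,⟨0,[(34,0)]⟩) .k 2 (⟨0,[(28,0)]⟩,⟨0,[(27,0)]⟩) .k (.r 0 ⟨1,[(8,0),(7,0),(29,0)]⟩ ⟨7,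
  [(5,1),(5,3),(19,1),(0,2),(0,0),(14,9)]⟩)) (.Q [0,0,0,0,0,-1,0,0,0,1,0,-1] (.ed true [0,1,0,0,1]
  .k) (.S ⟨1,0,[0,-1,0,-1],[1,0,0,0,-1],[1],(⟨0,[(29,0)]⟩,⟨0,[(30,0)]⟩),⟨0,[(0,0)]⟩,.k,(.r (-1) ⟨12,
  [(8,2),(4,3),(18,0),(2,0),(10,2),(1,4)]⟩ ⟨1,[(19,0),(12,0),(2,0)]⟩),⟨false,0,⟨0,[]⟩,⟨21,[(7,1),(5,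
  4),(6,0),(11,5),(2,5),(12,11)]⟩⟩,⟨true,0,⟨0,[(46,0)]⟩,⟨6,[(19,1),(0,1),(21,0),(1,0)]⟩⟩,⟨true,0,⟨6,
  [(19,1),(0,1),(21,0),(1,0)]⟩,⟨0,[(46,0)]⟩⟩,⟨false,1,⟨21,[(7,1),(5,4),(6,0),(11,5),(2,5),(12,11)]⟩,
  ⟨0,[]⟩⟩,[.a ⟨true,1,⟨0,[(21,0),(5,0),(20,0)]⟩,⟨8,[(1,0),(0,4),(2,3),(3,0),(9,2),(8,2)]⟩⟩ ⟨true,0,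
  ⟨0,[]⟩,⟨1,[(34,0),(0,0)]⟩⟩ ⟨false,1,⟨12,[(8,2),(4,3),(18,0),(2,0),(10,2),(1,4)]⟩,⟨6,[(19,1),(0,1),
  (21,0),(1,0)]⟩⟩,.o ⟨false,2,⟨0,[(27,0),(18,0),(1,0)]⟩,⟨20,[(1,0),(0,18),(0,0),(1,5),(13,5),(3,4),
  (18,7),(0,9)]⟩⟩,.o ⟨false,1,⟨0,[(27,0)]⟩,⟨17,[(1,5),(0,3),(0,3),(8,1),(15,3),(5,1),(8,6),(4,4)]⟩⟩,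
  .o ⟨false,1,⟨1,[(27,1),(6,0),(0,0)]⟩,⟨5,[(1,1),(0,3),(2,1),(3,1),(33,2),(4,2)]⟩⟩]⟩) (.R ⟨0,false,
  false,true,[1,0,0,0,-1],[0,1],[0,0,1],(⟨0,[(29,0)]⟩,⟨0,[(30,0)]⟩),(⟨0,[(41,0)]⟩,⟨0,[(40,0)]⟩),⟨0,
  [(0,0)]⟩,.k,.k,(.r (-1) ⟨12,[(8,2),(4,3),(18,0),(2,0),(10,2),(1,4)]⟩ ⟨1,[(19,0),(12,0),(2,0)]⟩),
  (.r (-1) ⟨12,[(8,2),(4,3),(18,0),(2,0),(10,2),(1,4)]⟩ ⟨1,[(19,0),(12,0),(2,0)]⟩),.k,.k,⟨false,1,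
  ⟨12,[(8,2),(4,3),(18,0),(2,0),(10,2),(1,4)]⟩,⟨6,[(19,1),(0,1),(21,0),(1,0)]⟩⟩,⟨true,0,⟨5,[(1,1),
  (0,3),(2,1),(3,1),(33,2),(4,2)]⟩,⟨20,[(4,1),(17,17),(0,11),(2,0),(0,20),(7,1),(1,0),(2,2),(7,
  8)]⟩⟩,⟨false,0,⟨1,[(34,0),(0,0)]⟩,⟨1,[(47,0),(0,0)]⟩⟩,⟨true,(-1),⟨20,[(1,0),(0,18),(0,0),(1,5),
  (13,5),(3,4),(18,7),(0,9)]⟩,⟨0,[(21,0),(5,0),(20,0)]⟩⟩,⟨false,0,⟨0,[]⟩,⟨0,[]⟩⟩,⟨false,0,⟨0,[]⟩,⟨0,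
  []⟩⟩,[.a ⟨true,0,⟨0,[(45,0)]⟩,⟨0,[(21,0),(26,0)]⟩⟩ ⟨true,0,⟨1,[(34,0),(0,0)]⟩,⟨0,[]⟩⟩ ⟨false,0,⟨3,
  [(1,1),(1,1),(39,0),(0,1),(2,0)]⟩,⟨0,[(21,0),(5,0),(20,0)]⟩⟩,.o ⟨false,1,⟨5,[(13,1),(6,1),(2,1),
  (19,2),(3,0)]⟩,⟨0,[(46,0)]⟩⟩,.o ⟨false,1,⟨0,[(27,0)]⟩,⟨17,[(1,5),(0,3),(0,3),(8,1),(15,3),(5,1),
  (8,6),(4,4)]⟩⟩,.o ⟨false,1,⟨1,[(27,1),(6,0),(0,0)]⟩,⟨5,[(1,1),(0,3),(2,1),(3,1),(33,2),(4,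
  2)]⟩⟩]⟩)) (.Q [0,0,0,0,0,-1,0,0,0,0,0,1] (.ed false [1,-1,0,0,1] .k) (.S ⟨1,0,[0,1,0,-1],[0,0,0,0,
  1],[1,2],(⟨0,[(30,0)]⟩,⟨0,[(29,0)]⟩),⟨0,[(0,0)]⟩,.k,(.r 0 ⟨10,[(8,1),(0,1),(12,3),(10,1),(8,1),(0,
  1),(0,0)]⟩ ⟨21,[(1,7),(5,9),(5,2),(6,4),(7,7),(6,7),(12,7)]⟩),⟨false,0,⟨0,[]⟩,⟨21,[(1,5),(5,1),(5,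
  4),(6,0),(7,5),(6,5),(12,5)]⟩⟩,⟨true,0,⟨0,[(46,0)]⟩,⟨6,[(19,1),(0,1),(21,0),(1,0)]⟩⟩,⟨true,0,⟨6,
  [(19,1),(0,1),(21,0),(1,0)]⟩,⟨0,[(46,0)]⟩⟩,⟨false,1,⟨21,[(1,5),(5,1),(5,4),(6,0),(7,5),(6,5),(12,
  5)]⟩,⟨0,[]⟩⟩,[.e ⟨false,0,⟨0,[(42,0)]⟩,⟨0,[(48,0)]⟩⟩ ⟨false,0,⟨10,[(8,1),(0,1),(12,3),(10,1),(8,
  1),(0,1),(0,0)]⟩,⟨5,[(13,1),(6,1),(2,1),(23,0),(0,2)]⟩⟩,.o ⟨false,0,⟨9,[(2,5),(20,1),(4,3),(14,4),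
  (2,9),(1,2)]⟩,⟨0,[(1,0),(13,0)]⟩⟩,.o ⟨false,0,⟨9,[(2,5),(20,1),(4,3),(14,4),(4,2)]⟩,⟨0,[(27,0)]⟩⟩,
  .a ⟨true,(-1),⟨4,[(2,3),(20,2),(4,0),(17,4),(1,1)]⟩,⟨5,[(1,5),(7,0),(3,0),(1,4),(5,3),(9,1),(16,
  0)]⟩⟩ ⟨false,0,⟨10,[(8,0),(0,0),(12,1),(10,0),(8,0),(0,0),(0,5)]⟩,⟨1,[(34,0),(0,0),(12,1)]⟩⟩
  ⟨true,0,⟨10,[(8,1),(0,1),(12,3),(10,1),(8,1),(0,1),(0,0)]⟩,⟨7,[(1,0),(5,1),(12,0),(2,0),(4,0),(6,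
  0)]⟩⟩]⟩) (.R ⟨0,false,false,false,[0,1,0,0,-1],[0,1],[0,1],(⟨0,[(0,0)]⟩,⟨0,[(30,0),(9,0)]⟩),(⟨0,
  [(41,0)]⟩,⟨0,[(40,0)]⟩),⟨0,[(30,0)]⟩,(.r (-1) ⟨21,[(1,7),(5,9),(5,2),(6,4),(7,7),(6,7),(12,7)]⟩
  ⟨10,[(8,1),(0,1),(12,3),(10,1),(8,1),(0,1),(0,0)]⟩),.k,.k,.k,.k,.k,⟨true,0,⟨10,[(8,1),(0,1),(12,
  3),(10,1),(8,1),(0,1),(0,0)]⟩,⟨3,[(23,1),(10,0),(0,0),(10,1),(1,1)]⟩⟩,⟨false,0,⟨1,[(2,0),(2,0),(7,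
  0),(14,0)]⟩,⟨0,[(27,0)]⟩⟩,⟨false,0,⟨10,[(8,1),(0,1),(12,3),(10,1),(8,1),(0,1),(0,0)]⟩,⟨7,[(1,0),
  (5,1),(12,0),(2,0),(4,0),(6,0),(12,7)]⟩⟩,⟨true,(-1),⟨3,[(2,2),(20,0),(4,0),(21,0)]⟩,⟨0,[(27,0)]⟩⟩,
  ⟨false,0,⟨0,[]⟩,⟨0,[]⟩⟩,⟨false,0,⟨0,[]⟩,⟨0,[]⟩⟩,[.o ⟨false,1,⟨5,[(13,1),(6,1),(2,1),(19,2),(3,
  0)]⟩,⟨0,[(46,0)]⟩⟩,.e ⟨false,1,⟨1,[(13,0),(6,0)]⟩,⟨0,[]⟩⟩ ⟨false,0,⟨9,[(2,6),(2,4),(7,4),(9,3),(4,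
  2),(19,5)]⟩,⟨10,[(8,1),(0,1),(12,3),(4,10),(5,1),(8,1),(0,1),(0,0)]⟩⟩,.o ⟨false,2,⟨1,[(27,1),(15,
  0),(3,0)]⟩,⟨4,[(2,3),(20,2),(4,0),(17,4),(1,1)]⟩⟩,.a ⟨true,1,⟨0,[(27,0)]⟩,⟨3,[(2,2),(6,0),(11,2),
  (1,1),(4,0),(2,0),(16,2)]⟩⟩ ⟨true,0,⟨10,[(8,0),(0,0),(12,1),(10,0),(8,0),(0,0),(0,5)]⟩,⟨1,[(34,0),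
  (0,0)]⟩⟩ ⟨false,0,⟨9,[(2,6),(2,4),(7,4),(9,3),(4,2),(19,5)]⟩,⟨0,[(27,0),(18,0)]⟩⟩]⟩))) (.Q [0,0,
  -1,0,0,0,0,0,-1,1,0,-1] (.p false [0,0,0,0,1] [1] (⟨0,[(28,0)]⟩,⟨0,[(27,0)]⟩) .k 1 (⟨0,[]⟩,⟨0,
  []⟩) .k .k) (.Q [0,0,0,0,0,0,0,0,0,-1,1,1] (.ed false [0,0,1,0,1] (.r 1 ⟨1,[(4,3),(0,1),(0,1),(1,
  1),(1,1),(9,11),(16,7),(4,6),(4,4)]⟩ ⟨13,[(1,3),(4,3),(5,11),(14,3),(3,1),(1,4),(0,6)]⟩)) (.S ⟨1,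
  0,[0,-1,1],[1,1,0,0,-1],[1,0,1,1],(⟨0,[(29,0),(8,0)]⟩,⟨1,[(0,0),(10,0),(18,0)]⟩),⟨0,[(29,0)]⟩,(.r
  (-1) ⟨0,[(2,0),(25,0)]⟩ ⟨10,[(8,1),(0,1),(12,3),(10,1),(8,1),(0,1),(0,0)]⟩),.k,⟨false,0,⟨0,[]⟩,⟨4,
  [(2,0),(10,0),(14,0),(3,0),(2,0),(12,1)]⟩⟩,⟨true,0,⟨0,[(46,0)]⟩,⟨6,[(19,1),(0,1),(21,0),(1,0)]⟩⟩,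
  ⟨true,0,⟨6,[(19,1),(0,1),(21,0),(1,0)]⟩,⟨0,[(46,0)]⟩⟩,⟨false,1,⟨4,[(2,0),(10,0),(14,0),(3,0),(2,
  0),(12,1)]⟩,⟨0,[]⟩⟩,[.o ⟨false,1,⟨3,[(1,1),(0,1),(40,0),(2,1),(1,0)]⟩,⟨2,[(3,1),(18,0),(5,0),(4,
  1),(9,0)]⟩⟩,.e ⟨false,1,⟨5,[(13,1),(6,1),(2,1),(23,0),(0,2)]⟩,⟨10,[(8,1),(0,1),(12,3),(10,1),(8,
  1),(0,1),(0,0)]⟩⟩ ⟨false,1,⟨0,[(48,0)]⟩,⟨0,[(42,0)]⟩⟩,.a ⟨true,0,⟨0,[(1,0)]⟩,⟨1,[(28,1),(5,0),(0,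
  0)]⟩⟩ ⟨true,0,⟨13,[(2,1),(4,1),(12,1),(2,1),(4,1),(5,0),(0,0)]⟩,⟨10,[(8,1),(0,1),(12,3),(10,1),(8,
  1),(0,1),(0,0)]⟩⟩ ⟨false,1,⟨1,[(34,0),(0,0),(12,1)]⟩,⟨10,[(8,0),(0,0),(12,1),(10,0),(8,0),(0,0),
  (0,5)]⟩⟩,.e ⟨false,1,⟨5,[(13,1),(6,1),(2,1),(23,0),(0,2)]⟩,⟨0,[(46,0)]⟩⟩ ⟨false,1,⟨0,[(48,0)]⟩,⟨0,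
  [(50,0)]⟩⟩]⟩) (.Q [0,0,-1,0,0,0,-1,0,1,0,-1,1] (.p true [1,0,-1,0,1] [1] (⟨0,[(30,0),(5,0)]⟩,⟨1,
  [(0,0),(5,2),(16,0),(5,0),(4,2),(3,5),(4,0),(2,2)]⟩) .k 1 (⟨0,[]⟩,⟨0,[]⟩) .k (.r (-1) ⟨7,[(7,1),
  (5,3),(19,1),(0,2),(0,0),(14,9)]⟩ ⟨1,[(10,0),(7,0),(29,0)]⟩)) (.S ⟨1,0,[0,0,0,-1,0,0,0,1],[0,0,1,
  0,-1],[1,-1,0,0,0,0,0,1],(⟨1,[(1,0),(5,2),(16,0),(5,0),(4,2),(3,5),(4,0),(2,2)]⟩,⟨0,[(31,0),(5,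
  0)]⟩),⟨1,[(1,0),(5,2),(16,0),(5,0),(4,2),(3,3),(4,0),(2,2)]⟩,.k,(.r (-1) ⟨13,[(14,2),(4,11),(1,0),
  (11,3),(2,3),(12,7)]⟩ ⟨1,[(20,0),(13,0),(0,0)]⟩),⟨true,0,⟨0,[]⟩,⟨0,[(51,0)]⟩⟩,⟨false,0,⟨0,[(47,
  0)]⟩,⟨5,[(14,1),(6,1),(2,1),(23,0),(0,2)]⟩⟩,⟨false,1,⟨5,[(14,1),(6,1),(2,1),(23,0),(0,2)]⟩,⟨0,
  [(47,0)]⟩⟩,⟨true,0,⟨0,[(51,0)]⟩,⟨0,[]⟩⟩,[.a ⟨true,0,⟨8,[(2,6),(0,1),(5,3),(3,3),(3,0),(5,0),(11,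
  8),(8,3)]⟩,⟨5,[(0,4),(1,1),(5,4),(5,0),(7,2),(6,2),(2,0),(16,0)]⟩⟩ ⟨true,0,⟨1,[(11,0),(7,0),(29,
  0)]⟩,⟨0,[(34,0),(0,0)]⟩⟩ ⟨false,0,⟨0,[(19,0)]⟩,⟨5,[(8,1),(5,2),(5,1),(0,0)]⟩⟩,.o ⟨false,1,⟨7,[(2,
  5),(0,1),(5,3),(3,3),(21,7),(8,6),(2,1),(1,2)]⟩,⟨0,[(16,0),(12,0)]⟩⟩,.o ⟨false,1,⟨0,[(2,0),(32,0),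
  (8,0)]⟩,⟨1,[(0,0),(28,0),(6,0)]⟩⟩,.o ⟨false,1,⟨10,[(2,5),(0,2),(19,2),(0,0),(3,1),(6,10),(8,9)]⟩,
  ⟨0,[(0,0)]⟩⟩]⟩) (.K ⟨0,[0,0,1,0,-1],0,0,(⟨4,[(0,2),(0,0),(2,2),(2,5),(0,2),(15,0),(5,3),(8,11),(4,
  0),(2,11)]⟩,⟨0,[(31,0),(5,0)]⟩),.k,(.r (-1) ⟨13,[(14,2),(4,11),(1,0),(11,3),(2,3),(12,7)]⟩ ⟨1,
  [(20,0),(13,0),(0,0)]⟩),(.r 0 ⟨6,[(11,0),(1,2),(7,2),(2,0),(24,4)]⟩ ⟨8,[(14,4),(8,1),(10,3),(0,3),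
  (7,2),(0,0),(6,1)]⟩),.k,.k,[⟨0,[(29,0)]⟩,⟨0,[(0,0)]⟩,⟨0,[(29,0),(4,0),(16,0)]⟩,⟨5,[(0,4),(2,0),(2,
  1),(2,2),(0,0),(10,0)]⟩]⟩))) (.Q [0,0,-2,0,1,0,-1,-1,-1,1,-1,-1] (.p false [0,0,1] [1,0,0,0,-1]
  (⟨0,[(36,0)]⟩,⟨0,[(35,0)]⟩) .k 2 (⟨0,[(28,0)]⟩,⟨0,[(29,0)]⟩) .k (.r 1 ⟨1,[(4,3),(0,1),(0,1),(1,1),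
  (1,1),(9,11),(16,7),(4,6),(4,4)]⟩ ⟨13,[(1,3),(4,3),(5,11),(14,3),(3,1),(1,4),(0,6)]⟩)) (.Q [0,0,0,
  0,0,-1,0,0,0,0,0,1] (.ed false [1,-1,0,0,1] .k) (.S ⟨1,0,[0,1,0,-1],[0,0,0,0,1],[1,2],(⟨0,[(31,
  0)]⟩,⟨0,[(30,0)]⟩),⟨0,[(0,0)]⟩,.k,(.r 0 ⟨10,[(9,1),(0,1),(12,3),(10,1),(8,1),(0,1),(0,0)]⟩ ⟨0,[(3,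
  0),(25,0)]⟩),⟨false,0,⟨0,[]⟩,⟨4,[(3,0),(10,0),(14,0),(3,0),(2,0),(12,1)]⟩⟩,⟨true,0,⟨0,[(47,0)]⟩,
  ⟨6,[(20,1),(0,1),(21,0),(1,0)]⟩⟩,⟨true,0,⟨6,[(20,1),(0,1),(21,0),(1,0)]⟩,⟨0,[(47,0)]⟩⟩,⟨false,1,
  ⟨4,[(3,0),(10,0),(14,0),(3,0),(2,0),(12,1)]⟩,⟨0,[]⟩⟩,[.o ⟨false,0,⟨10,[(2,9),(1,0),(4,1),(0,1),
  (12,3),(10,2),(8,1),(0,1)]⟩,⟨1,[(1,1),(9,1),(23,1),(8,0),(4,0)]⟩⟩,.a ⟨true,0,⟨35,[(2,12),(6,2),(4,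
  3),(8,12),(5,22),(3,0),(2,0),(12,4)]⟩,⟨0,[(1,0),(9,0),(23,0)]⟩⟩ ⟨false,0,⟨10,[(9,0),(0,0),(12,1),
  (10,0),(8,0),(0,0),(0,5)]⟩,⟨4,[(3,0),(10,0),(14,0),(3,0),(2,0),(12,1)]⟩⟩ ⟨true,0,⟨0,[(47,0)]⟩,⟨13,
  [(3,1),(4,1),(12,1),(2,1),(4,1),(5,0),(0,0)]⟩⟩,.e ⟨false,0,⟨0,[(51,0)]⟩,⟨0,[(49,0)]⟩⟩ ⟨false,0,⟨0,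
  [(47,0)]⟩,⟨19,[(1,1),(2,1),(9,6),(6,6),(2,5),(24,9)]⟩⟩,.o ⟨false,0,⟨0,[(2,0)]⟩,⟨8,[(1,5),(7,1),(0,
  0),(0,3),(16,2),(6,4),(8,2)]⟩⟩]⟩) (.R ⟨0,false,false,true,[0,0,0,0,1],[1,-1],[1,0,1],(⟨0,[(31,
  0)]⟩,⟨0,[(30,0)]⟩),(⟨0,[(41,0)]⟩,⟨0,[(42,0)]⟩),⟨0,[(0,0)]⟩,.k,.k,(.r 0 ⟨10,[(9,1),(0,1),(12,3),
  (10,1),(8,1),(0,1),(0,0)]⟩ ⟨0,[(3,0),(25,0)]⟩),(.r 0 ⟨1,[(20,0),(12,0),(2,0)]⟩ ⟨33,[(2,2),(6,8),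
  (4,9),(8,2),(4,2),(4,0),(2,0),(12,13)]⟩),.k,.k,⟨true,0,⟨3,[(24,1),(10,0),(0,0),(10,1),(1,1)]⟩,⟨10,
  [(9,1),(0,1),(12,3),(10,1),(8,1),(0,1),(0,0)]⟩⟩,⟨false,0,⟨0,[(1,0),(11,0),(21,0)]⟩,⟨1,[(29,1),(14,
  0),(3,0)]⟩⟩,⟨false,1,⟨1,[(35,0),(0,0),(12,1)]⟩,⟨10,[(9,0),(0,0),(12,1),(10,0),(8,0),(0,0),(0,
  5)]⟩⟩,⟨true,0,⟨0,[(1,0),(11,0),(21,0),(11,0)]⟩,⟨0,[(4,0),(29,0)]⟩⟩,⟨false,0,⟨0,[]⟩,⟨0,[]⟩⟩,⟨false,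
  0,⟨0,[]⟩,⟨0,[]⟩⟩,[.e ⟨false,0,⟨0,[]⟩,⟨1,[(14,0),(6,0)]⟩⟩ ⟨false,0,⟨0,[(1,0),(15,0),(17,0)]⟩,⟨3,
  [(4,1),(11,1),(12,1),(14,0),(4,2)]⟩⟩,.o ⟨false,0,⟨0,[(47,0)]⟩,⟨19,[(1,1),(2,1),(9,6),(6,6),(2,5),
  (19,9)]⟩⟩,.a ⟨true,0,⟨0,[(29,0)]⟩,⟨0,[(1,0),(11,0),(21,0)]⟩⟩ ⟨true,0,⟨1,[(35,0),(0,0)]⟩,⟨10,[(9,
  0),(0,0),(12,1),(10,0),(8,0),(0,0),(0,5)]⟩⟩ ⟨false,0,⟨0,[(1,0),(11,0),(21,0),(11,0)]⟩,⟨3,[(4,1),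
  (11,1),(12,1),(14,0),(4,2)]⟩⟩,.o ⟨false,0,⟨0,[(2,0)]⟩,⟨8,[(1,5),(7,1),(0,0),(0,3),(16,2),(6,4),(8,
  2)]⟩⟩]⟩)) (.Q [0,0,0,0,0,0,1,0,1,-1,1,1] (.p true [0,0,1] [1,0,0,0,-1] (⟨0,[(37,0)]⟩,⟨0,[(36,
  0)]⟩) .k 2 (⟨0,[(29,0)]⟩,⟨0,[(30,0)]⟩) .k (.r 1 ⟨1,[(5,3),(0,1),(0,1),(1,1),(1,1),(9,11),(16,7),
  (4,6),(4,4)]⟩ ⟨13,[(2,3),(4,3),(5,11),(14,3),(3,1),(1,4),(0,6)]⟩)) (.K ⟨0,[1,0,0,0,-1],0,1,(⟨0,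
  [(30,0)]⟩,⟨0,[(31,0)]⟩),.k,(.r (-1) ⟨45,[(1,2),(7,11),(4,15),(8,2),(4,2),(4,0),(2,3),(12,16)]⟩ ⟨1,
  [(20,0),(12,0),(2,0)]⟩),(.r (-1) ⟨0,[(3,0),(25,0)]⟩ ⟨10,[(9,1),(0,1),(12,3),(10,1),(8,1),(0,1),(0,
  0)]⟩),.k,.k,[⟨0,[(0,0)]⟩,⟨0,[(3,0),(18,0)]⟩,⟨0,[(0,0),(15,0),(0,0)]⟩,⟨7,[(3,0),(1,1),(4,0),(11,0),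
  (5,6),(3,2),(5,1),(2,3)]⟩]⟩) (.Q [0,0,0,0,0,0,0,0,-1,1,0,-1] (.p false [0,0,0,0,1] [1] (⟨0,[(31,
  0)]⟩,⟨0,[(30,0)]⟩) .k 1 (⟨0,[]⟩,⟨0,[]⟩) .k .k) (.Q [0,0,0,0,0,-1,0,0,0,0,0,1] (.ed false [1,-1,0,
  0,1] .k) (.S ⟨1,0,[0,0,1],[1,1,0,0,-1],[0,-1,1],(⟨0,[(32,0),(8,0)]⟩,⟨0,[(0,0)]⟩),⟨0,[(32,0)]⟩,(.r
  (-1) ⟨0,[(5,0),(25,0)]⟩ ⟨10,[(11,1),(0,1),(12,3),(10,1),(8,1),(0,1),(0,0)]⟩),.k,⟨true,0,⟨0,[(49,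
  0)]⟩,⟨6,[(22,1),(0,1),(21,0),(1,0)]⟩⟩,⟨false,0,⟨0,[(49,0)]⟩,⟨5,[(16,1),(6,1),(2,1),(23,0),(0,
  2)]⟩⟩,⟨false,1,⟨4,[(5,0),(10,0),(14,0),(3,0),(2,0),(12,1)]⟩,⟨0,[]⟩⟩,⟨true,0,⟨0,[(53,0)]⟩,⟨0,[]⟩⟩,
  [.a ⟨true,0,⟨0,[(1,0)]⟩,⟨0,[(31,0)]⟩⟩ ⟨false,1,⟨4,[(5,0),(10,0),(14,0),(3,0),(2,0),(12,1)]⟩,⟨10,
  [(11,0),(0,0),(12,1),(10,0),(8,0),(0,0),(0,5)]⟩⟩ ⟨true,0,⟨1,[(37,0),(0,0)]⟩,⟨0,[]⟩⟩,.o ⟨false,1,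
  ⟨1,[(1,1),(44,0),(4,0)]⟩,⟨5,[(3,0),(0,2),(1,1),(4,0),(0,0),(23,3),(8,0)]⟩⟩,.o ⟨false,1,⟨1,[(1,1),
  (44,0),(3,0)]⟩,⟨0,[(4,0)]⟩⟩,.e ⟨false,1,⟨0,[(51,0)]⟩,⟨0,[(53,0)]⟩⟩ ⟨false,1,⟨4,[(5,0),(10,0),(14,
  0),(3,0),(2,0),(12,1)]⟩,⟨0,[]⟩⟩]⟩) (.R ⟨0,false,false,true,[0,0,0,0,1],[1,-1],[1,0,1],(⟨0,[(33,
  0)]⟩,⟨0,[(32,0)]⟩),(⟨0,[(43,0)]⟩,⟨0,[(44,0)]⟩),⟨0,[(0,0)]⟩,.k,.k,(.r 0 ⟨10,[(11,1),(0,1),(12,3),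
  (10,1),(8,1),(0,1),(0,0)]⟩ ⟨0,[(5,0),(25,0)]⟩),(.r 0 ⟨1,[(22,0),(12,0),(2,0)]⟩ ⟨45,[(3,2),(7,11),
  (4,15),(8,2),(4,2),(4,0),(2,3),(12,16)]⟩),.k,.k,⟨true,0,⟨5,[(3,0),(1,0),(4,0),(14,0),(0,1),(11,0),
  (10,0),(1,2)]⟩,⟨10,[(11,1),(0,1),(12,3),(10,1),(8,1),(0,1),(0,0)]⟩⟩,⟨false,0,⟨0,[(1,0)]⟩,⟨1,[(31,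
  1),(14,0),(3,0)]⟩⟩,⟨false,1,⟨1,[(37,0),(0,0),(12,1)]⟩,⟨10,[(11,0),(0,0),(12,1),(10,0),(8,0),(0,0),
  (0,5)]⟩⟩,⟨true,0,⟨0,[(1,0),(47,0)]⟩,⟨0,[(6,0),(29,0)]⟩⟩,⟨false,0,⟨0,[]⟩,⟨0,[]⟩⟩,⟨false,0,⟨0,[]⟩,
  ⟨0,[]⟩⟩,[.e ⟨false,0,⟨0,[]⟩,⟨1,[(16,0),(6,0)]⟩⟩ ⟨false,0,⟨10,[(1,10),(9,1),(0,1),(12,3),(10,1),(8,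
  1),(0,1),(0,0)]⟩,⟨3,[(6,1),(11,1),(12,1),(14,0),(4,2)]⟩⟩,.o ⟨false,0,⟨0,[(49,0)]⟩,⟨5,[(16,1),(6,
  1),(2,1),(19,2),(3,0)]⟩⟩,.a ⟨true,0,⟨0,[(31,0)]⟩,⟨0,[(1,0)]⟩⟩ ⟨true,0,⟨1,[(37,0),(0,0)]⟩,⟨10,[(11,
  0),(0,0),(12,1),(10,0),(8,0),(0,0),(0,5)]⟩⟩ ⟨false,0,⟨0,[(1,0),(47,0)]⟩,⟨3,[(6,1),(11,1),(12,1),
  (14,0),(4,2)]⟩⟩,.o ⟨false,0,⟨0,[(4,0)]⟩,⟨1,[(1,1),(44,0),(3,0)]⟩⟩]⟩)) (.Q [0,1,0,0,-1,0,1,1,1,-1,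
  1,1] (.p true [0,0,1] [1,0,0,0,-1] (⟨0,[(39,0)]⟩,⟨0,[(38,0)]⟩) .k 2 (⟨0,[(31,0)]⟩,⟨0,[(32,0)]⟩)
  .k (.r 1 ⟨1,[(7,3),(0,1),(0,1),(1,1),(1,1),(9,11),(16,7),(4,6),(4,4)]⟩ ⟨13,[(4,3),(4,3),(5,11),
  (14,3),(3,1),(1,4),(0,6)]⟩)) (.Q [0,0,0,0,0,0,0,0,0,-1,1,1] (.ed false [0,0,1,0,1] (.r 1 ⟨1,[(8,
  3),(0,1),(0,1),(1,1),(1,1),(9,11),(16,7),(4,6),(4,4)]⟩ ⟨13,[(5,3),(4,3),(5,11),(14,3),(3,1),(1,4),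
  (0,6)]⟩)) (.Q [0,0,1,0,-1,0,0,0,1,0,0,1] (.p true [0,0,0,0,1] [] (⟨0,[(34,0)]⟩,⟨0,[(33,0)]⟩) .k 0
  (⟨0,[]⟩,⟨0,[]⟩) .k .k) (.S ⟨1,0,[0,0,1],[1,1,0,0,-1],[0,-1,1],(⟨0,[(34,0),(8,0)]⟩,⟨1,[(1,0),(14,
  0),(18,0)]⟩),⟨0,[(34,0)]⟩,(.r (-1) ⟨0,[(7,0),(25,0)]⟩ ⟨10,[(13,1),(0,1),(12,3),(10,1),(8,1),(0,1),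
  (0,0)]⟩),.k,⟨true,0,⟨0,[(51,0)]⟩,⟨6,[(24,1),(0,1),(21,0),(1,0)]⟩⟩,⟨false,0,⟨0,[(51,0)]⟩,⟨5,[(18,
  1),(6,1),(2,1),(23,0),(0,2)]⟩⟩,⟨false,1,⟨4,[(7,0),(10,0),(14,0),(3,0),(2,0),(12,1)]⟩,⟨0,[]⟩⟩,
  ⟨true,0,⟨0,[(55,0)]⟩,⟨0,[]⟩⟩,[.o ⟨false,1,⟨0,[(32,0)]⟩,⟨0,[(3,0)]⟩⟩,.e ⟨false,1,⟨0,[(53,0)]⟩,⟨0,
  [(47,0)]⟩⟩ ⟨false,1,⟨4,[(7,0),(10,0),(14,0),(3,0),(2,0),(12,1)]⟩,⟨10,[(13,0),(0,0),(12,1),(10,0),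
  (8,0),(0,0),(0,5)]⟩⟩,.a ⟨true,1,⟨13,[(4,9),(4,1),(4,7),(3,0),(6,0),(6,3),(9,1),(2,3)]⟩,⟨0,[(0,
  0)]⟩⟩ ⟨false,1,⟨1,[(39,0),(0,0),(12,1)]⟩,⟨10,[(13,0),(0,0),(12,1),(10,0),(8,0),(0,0),(0,5)]⟩⟩
  ⟨true,0,⟨1,[(39,0),(0,0)]⟩,⟨10,[(13,0),(0,0),(12,1),(10,0),(8,0),(0,0),(0,5)]⟩⟩,.o ⟨false,1,⟨0,
  [(32,0)]⟩,⟨0,[(3,0)]⟩⟩]⟩) (.S ⟨1,0,[0,2,0,-1],[0,0,0,0,1],[1,1],(⟨0,[(35,0)]⟩,⟨0,[(34,0)]⟩),⟨1,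
  [(1,0),(14,0),(18,0)]⟩,.k,(.r 0 ⟨15,[(0,0),(1,0),(10,2),(0,2),(12,4),(10,3),(8,2),(0,1)]⟩ ⟨0,[(7,
  0),(25,0)]⟩),⟨true,0,⟨0,[]⟩,⟨0,[(55,0)]⟩⟩,⟨false,0,⟨0,[(51,0)]⟩,⟨5,[(18,1),(6,1),(2,1),(23,0),(0,
  2)]⟩⟩,⟨false,1,⟨5,[(18,1),(6,1),(2,1),(23,0),(0,2)]⟩,⟨0,[(51,0)]⟩⟩,⟨true,0,⟨0,[(55,0)]⟩,⟨0,[]⟩⟩,
  [.o ⟨false,(-1),⟨3,[(2,2),(0,0),(23,1),(10,2),(9,0)]⟩,⟨1,[(7,1),(44,0),(0,0)]⟩⟩,.a ⟨true,(-1),⟨0,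
  [(3,0),(22,0)]⟩,⟨7,[(4,5),(2,1),(1,0),(4,4),(13,1),(13,0),(2,1),(7,2)]⟩⟩ ⟨true,0,⟨0,[]⟩,⟨1,[(39,
  0),(0,0)]⟩⟩ ⟨false,0,⟨15,[(0,0),(1,0),(10,2),(0,2),(12,4),(10,3),(8,2),(0,1)]⟩,⟨5,[(18,1),(6,1),
  (2,1),(23,0),(0,2)]⟩⟩,.o ⟨false,0,⟨0,[(3,0)]⟩,⟨0,[(32,0)]⟩⟩,.o ⟨false,0,⟨0,[(6,0)]⟩,⟨0,[(0,
  0)]⟩⟩]⟩)) (.Q [0,0,1,0,-2,0,-1,0,2,0,-1,2] (.p true [0,0,0,0,1] [0,0,1,0,-1] (⟨0,[(34,0)]⟩,⟨0,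
  [(33,0)]⟩) .k 2 (⟨1,[(0,0),(9,2),(16,0),(5,0),(4,2),(3,5),(4,0),(2,2)]⟩,⟨0,[(34,0),(5,0)]⟩) .k
  (.r 0 ⟨19,[(13,2),(3,1),(5,14),(2,13),(10,2),(8,4),(0,6)]⟩ ⟨12,[(4,0),(1,0),(9,1),(5,4),(1,3),(3,
  0),(7,0),(15,14)]⟩)) (.Q [0,0,0,0,0,1,0,0,0,0,0,-1] (.ed true [1,-1,0,0,1] .k) (.R ⟨0,false,false,
  false,[0,0,0,0,1],[1,-1],[0,1],(⟨0,[(36,0)]⟩,⟨0,[(35,0)]⟩),(⟨0,[(46,0)]⟩,⟨0,[(47,0)]⟩),⟨0,[(0,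
  0)]⟩,.k,.k,(.r 0 ⟨10,[(14,1),(0,1),(12,3),(10,1),(8,1),(0,1),(0,0)]⟩ ⟨0,[(8,0),(25,0)]⟩),(.r 0 ⟨1,
  [(25,0),(12,0),(2,0)]⟩ ⟨45,[(6,2),(7,11),(4,15),(8,2),(4,2),(4,0),(2,3),(12,16)]⟩),.k,.k,⟨false,0,
  ⟨0,[(51,0)]⟩,⟨45,[(6,2),(7,11),(4,15),(8,2),(4,2),(4,0),(2,3),(12,16)]⟩⟩,⟨true,0,⟨0,[(5,0),(34,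
  0)]⟩,⟨0,[(4,0)]⟩⟩,⟨false,1,⟨4,[(8,0),(10,0),(14,0),(3,0),(2,0),(12,1)]⟩,⟨0,[]⟩⟩,⟨true,1,⟨6,[(5,1),
  (2,3),(6,0),(3,0),(8,4),(4,0),(4,0),(15,3)]⟩,⟨0,[(3,0),(17,0)]⟩⟩,⟨false,0,⟨0,[]⟩,⟨0,[]⟩⟩,⟨false,0,
  ⟨0,[]⟩,⟨0,[]⟩⟩,[.o ⟨false,0,⟨0,[(52,0)]⟩,⟨5,[(19,1),(6,1),(2,1),(19,2),(3,0)]⟩⟩,.a ⟨true,0,⟨0,
  [(27,0),(26,0)]⟩,⟨0,[(51,0)]⟩⟩ ⟨false,1,⟨1,[(19,0),(6,0)]⟩,⟨0,[]⟩⟩ ⟨true,1,⟨6,[(5,1),(2,3),(6,0),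
  (3,0),(8,4),(4,0),(4,0),(15,3)]⟩,⟨1,[(1,0),(9,0),(1,0),(1,0),(11,1),(21,1)]⟩⟩,.o ⟨false,0,⟨0,[(4,
  0)]⟩,⟨0,[(33,0)]⟩⟩,.e ⟨true,0,⟨10,[(14,0),(0,0),(12,1),(10,0),(8,0),(0,0),(0,5)]⟩,⟨1,[(40,0),(0,
  0)]⟩⟩ ⟨true,1,⟨6,[(5,3),(2,0),(6,1),(3,1),(8,2),(4,1),(4,1),(15,0)]⟩,⟨1,[(1,0),(9,0),(1,0),(1,0),
  (11,1),(21,1)]⟩⟩]⟩) (.S ⟨1,0,[0,1,0,-1],[0,0,0,0,1],[1,2],(⟨0,[(36,0)]⟩,⟨0,[(35,0)]⟩),⟨0,[(0,0)]⟩,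
  .k,(.r 0 ⟨10,[(14,1),(0,1),(12,3),(10,1),(8,1),(0,1),(0,0)]⟩ ⟨0,[(8,0),(25,0)]⟩),⟨false,0,⟨0,[]⟩,
  ⟨4,[(8,0),(10,0),(14,0),(3,0),(2,0),(12,1)]⟩⟩,⟨true,0,⟨0,[(52,0)]⟩,⟨6,[(25,1),(0,1),(21,0),(1,
  0)]⟩⟩,⟨true,0,⟨6,[(25,1),(0,1),(21,0),(1,0)]⟩,⟨0,[(52,0)]⟩⟩,⟨false,1,⟨4,[(8,0),(10,0),(14,0),(3,
  0),(2,0),(12,1)]⟩,⟨0,[]⟩⟩,[.e ⟨false,0,⟨0,[(48,0)]⟩,⟨0,[(54,0)]⟩⟩ ⟨false,0,⟨10,[(14,1),(0,1),(12,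
  3),(10,1),(8,1),(0,1),(0,0)]⟩,⟨5,[(19,1),(6,1),(2,1),(23,0),(0,2)]⟩⟩,.o ⟨false,0,⟨13,[(1,2),(2,3),
  (1,2),(0,0),(6,0),(4,3),(8,3),(20,4)]⟩,⟨1,[(8,0),(24,0),(16,0)]⟩⟩,.o ⟨false,0,⟨0,[(4,0)]⟩,⟨0,[(33,
  0)]⟩⟩,.a ⟨true,(-1),⟨1,[(1,0),(38,0)]⟩,⟨13,[(5,9),(4,1),(4,7),(3,0),(6,0),(6,3),(9,1),(2,3)]⟩⟩
  ⟨false,0,⟨10,[(14,0),(0,0),(12,1),(10,0),(8,0),(0,0),(0,5)]⟩,⟨1,[(40,0),(0,0),(12,1)]⟩⟩ ⟨true,0,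
  ⟨10,[(14,1),(0,1),(12,3),(10,1),(8,1),(0,1),(0,0)]⟩,⟨40,[(6,0),(1,5),(1,0),(2,6),(12,5),(2,4),(2,
  0),(1,4),(6,1),(4,0)]⟩⟩]⟩)) (.Q [0,0,-1,0,-1,0,-1,0,1,1,-1,1] (.p true [1,0,-1,0,1] [] (⟨0,[(35,
  0),(5,0)]⟩,⟨1,[(1,0),(9,2),(16,0),(5,0),(4,2),(3,5),(4,0),(2,2)]⟩) .k 0 (⟨0,[]⟩,⟨0,[]⟩) .k (.r
  (-1) ⟨7,[(12,1),(5,3),(19,1),(0,2),(0,0),(14,9)]⟩ ⟨1,[(15,0),(7,0),(29,0)]⟩)) (.S ⟨1,0,[0,-1,0,-1,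
  0,0,0,1],[0,0,1,0,-1],[0,0,0,-1,0,0,0,1],(⟨1,[(2,0),(9,2),(16,0),(5,0),(4,2),(3,5),(4,0),(2,2)]⟩,
  ⟨0,[(36,0),(5,0)]⟩),⟨1,[(2,0),(9,2),(16,0),(5,0),(4,2),(3,3),(4,0),(2,2)]⟩,.k,(.r (-1) ⟨13,[(19,
  2),(4,11),(1,0),(11,3),(2,3),(12,7)]⟩ ⟨1,[(25,0),(13,0),(0,0)]⟩),⟨false,0,⟨0,[(52,0)]⟩,⟨5,[(19,1),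
  (6,1),(2,1),(23,0),(0,2)]⟩⟩,⟨true,0,⟨0,[(52,0)]⟩,⟨6,[(25,1),(0,1),(21,0),(1,0)]⟩⟩,⟨true,0,⟨0,[(56,
  0)]⟩,⟨0,[]⟩⟩,⟨false,1,⟨4,[(8,0),(10,0),(14,0),(3,0),(2,0),(12,1)]⟩,⟨0,[]⟩⟩,[.a ⟨true,1,⟨2,[(1,1),
  (4,0),(11,0),(5,0),(3,0),(25,1)]⟩,⟨18,[(0,15),(3,1),(8,2),(5,0),(5,11),(2,4),(5,0),(4,2)]⟩⟩
  ⟨false,0,⟨0,[(24,0)]⟩,⟨5,[(13,1),(5,2),(5,1),(0,0)]⟩⟩ ⟨true,0,⟨17,[(1,0),(4,1),(7,5),(3,7),(5,1),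
  (3,1),(12,2),(12,9)]⟩,⟨1,[(25,0),(13,0),(0,0)]⟩⟩,.o ⟨false,2,⟨3,[(1,1),(4,1),(1,1),(5,1),(34,0),
  (2,1),(1,2)]⟩,⟨1,[(0,0),(2,0),(21,0),(13,1)]⟩⟩,.a ⟨true,1,⟨1,[(1,0),(38,0)]⟩,⟨36,[(0,25),(5,4),(6,
  4),(14,7),(0,1),(0,7),(3,5),(19,3)]⟩⟩ ⟨false,0,⟨17,[(1,0),(4,1),(7,5),(3,7),(5,1),(3,1),(12,2),
  (12,9)]⟩,⟨5,[(13,1),(5,2),(5,1),(0,0)]⟩⟩ ⟨true,0,⟨17,[(1,0),(4,1),(7,5),(3,7),(5,1),(3,1),(12,2),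
  (12,9)]⟩,⟨9,[(1,0),(1,1),(11,1),(9,6),(2,1),(10,4),(8,1)]⟩⟩,.a ⟨true,1,⟨1,[(1,0),(38,1),(0,0)]⟩,
  ⟨0,[(0,0)]⟩⟩ ⟨true,0,⟨0,[(24,0)]⟩,⟨1,[(25,0),(13,0),(0,0)]⟩⟩ ⟨false,1,⟨0,[(24,0),(29,0)]⟩,⟨1,[(25,
  0),(13,0),(0,0)]⟩⟩]⟩) (.Q [0,0,0,0,0,-1,0,0,0,0,0,1] (.ed false [1,-1,0,0,1] .k) (.S ⟨1,0,[0,2,0,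
  -1],[0,0,0,0,1],[1,1],(⟨0,[(37,0)]⟩,⟨0,[(36,0)]⟩),⟨0,[(0,0)]⟩,.k,(.r 0 ⟨27,[(2,0),(1,1),(10,5),(0,
  4),(12,7),(10,7),(8,4),(0,2)]⟩ ⟨0,[(9,0),(25,0)]⟩),⟨true,0,⟨0,[]⟩,⟨0,[(57,0)]⟩⟩,⟨false,0,⟨0,[(53,
  0)]⟩,⟨5,[(20,1),(6,1),(2,1),(23,0),(0,2)]⟩⟩,⟨false,1,⟨5,[(20,1),(6,1),(2,1),(23,0),(0,2)]⟩,⟨0,
  [(53,0)]⟩⟩,⟨true,0,⟨0,[(57,0)]⟩,⟨0,[]⟩⟩,[.o ⟨false,(-1),⟨3,[(4,2),(0,0),(23,1),(10,2),(9,0)]⟩,⟨1,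
  [(9,1),(44,0),(0,0)]⟩⟩,.a ⟨true,(-1),⟨0,[(5,0),(22,0)]⟩,⟨75,[(2,37),(8,0),(4,8),(11,25),(1,33),(7,
  47),(5,0),(2,1),(7,50)]⟩⟩ ⟨true,0,⟨0,[]⟩,⟨1,[(41,0),(0,0)]⟩⟩ ⟨false,0,⟨27,[(2,0),(1,1),(10,5),(0,
  4),(12,7),(10,7),(8,4),(0,2)]⟩,⟨5,[(20,1),(6,1),(2,1),(23,0),(0,2)]⟩⟩,.o ⟨false,0,⟨0,[(5,0)]⟩,⟨0,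
  [(34,0)]⟩⟩,.o ⟨false,0,⟨0,[(8,0)]⟩,⟨0,[(1,0),(11,0),(29,0),(1,1)]⟩⟩]⟩) (.R ⟨0,false,false,false,
  [0,0,0,0,1],[0,1],[1,0,2,1],(⟨0,[(37,0)]⟩,⟨0,[(36,0)]⟩),(⟨0,[(48,0)]⟩,⟨0,[(47,0)]⟩),⟨0,[(0,0)]⟩,
  .k,.k,(.r 0 ⟨27,[(2,0),(1,1),(10,5),(0,4),(12,7),(10,7),(8,4),(0,2)]⟩ ⟨0,[(9,0),(25,0)]⟩),(.r 0
  ⟨27,[(2,0),(1,1),(10,5),(0,4),(12,7),(10,7),(8,4),(0,2)]⟩ ⟨0,[(9,0),(25,0)]⟩),.k,.k,⟨false,0,⟨0,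
  []⟩,⟨1,[(20,0),(6,0)]⟩⟩,⟨true,1,⟨0,[(1,0),(11,0),(29,0),(1,1)]⟩,⟨6,[(5,3),(2,1),(20,5),(0,3),(4,
  0),(19,2)]⟩⟩,⟨true,0,⟨13,[(1,0),(5,1),(1,0),(4,1),(14,2),(0,4),(11,2),(12,7)]⟩,⟨22,[(2,2),(1,5),
  (10,8),(0,5),(12,5),(10,14),(8,5),(1,6)]⟩⟩,⟨false,2,⟨1,[(9,1),(44,0),(0,0)]⟩,⟨0,[(5,0),(22,0)]⟩⟩,
  ⟨false,0,⟨0,[]⟩,⟨0,[]⟩⟩,⟨false,0,⟨0,[]⟩,⟨0,[]⟩⟩,[.o ⟨false,1,⟨5,[(20,1),(6,1),(2,1),(19,2),(3,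
  0)]⟩,⟨0,[(53,0)]⟩⟩,.a ⟨true,1,⟨5,[(20,1),(6,1),(2,1),(23,0),(0,2)]⟩,⟨0,[(28,0)]⟩⟩ ⟨true,0,⟨13,[(1,
  0),(5,1),(1,0),(4,1),(14,2),(0,4),(11,2),(12,7)]⟩,⟨27,[(2,0),(1,1),(10,5),(0,4),(12,7),(10,7),(8,
  4),(0,2)]⟩⟩ ⟨false,2,⟨0,[(9,0),(44,0)]⟩,⟨0,[(5,0),(22,0)]⟩⟩,.o ⟨false,0,⟨0,[(5,0)]⟩,⟨0,[(34,0)]⟩⟩,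
  .o ⟨false,0,⟨0,[(8,0)]⟩,⟨0,[(1,0),(11,0),(29,0),(1,1)]⟩⟩]⟩))))) (.Q [0,0,0,0,0,-1,0,0,0,0,0,1]
  (.ed false [1,-1,0,0,1] .k) (.R ⟨1,false,false,true,[0,0,0,0,1],[1,-1,-1],[0,1,0,-1],(⟨0,[(34,
  0)]⟩,⟨0,[(33,0)]⟩),(⟨0,[(29,0)]⟩,⟨0,[(41,0),(0,0)]⟩),⟨0,[(0,0)]⟩,.k,.k,(.r 0 ⟨10,[(12,1),(0,1),
  (12,3),(10,1),(8,1),(0,1),(0,0)]⟩ ⟨0,[(6,0),(25,0)]⟩),(.r 1 ⟨2,[(18,0),(1,0),(3,0),(2,0)]⟩ ⟨1,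
  [(17,1),(20,0),(0,0)]⟩),.k,.k,⟨true,(-1),⟨0,[(16,0)]⟩,⟨7,[(11,1),(5,3),(19,1),(0,2),(0,0),(14,
  1)]⟩⟩,⟨false,0,⟨0,[(3,0)]⟩,⟨0,[(5,0),(7,0)]⟩⟩,⟨true,0,⟨0,[(50,0)]⟩,⟨6,[(23,1),(0,1),(21,0),(1,
  0)]⟩⟩,⟨false,1,⟨0,[(1,0),(48,0)]⟩,⟨0,[(7,0)]⟩⟩,⟨false,1,⟨4,[(6,0),(10,0),(14,0),(3,0),(2,0),(12,
  1)]⟩,⟨0,[]⟩⟩,⟨false,1,⟨0,[(1,0)]⟩,⟨15,[(4,5),(0,0),(1,8),(4,2),(4,2),(18,0),(9,0)]⟩⟩,[.o ⟨false,0,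
  ⟨0,[(37,0),(12,0)]⟩,⟨4,[(4,0),(1,2),(0,1),(1,0),(2,0),(0,1),(33,0),(4,0)]⟩⟩,.a ⟨true,0,⟨0,[(25,0),
  (11,0),(14,0)]⟩,⟨4,[(9,1),(3,1),(0,0),(21,1),(1,0),(13,0)]⟩⟩ ⟨true,0,⟨0,[(50,0)]⟩,⟨40,[(4,0),(1,
  5),(1,0),(2,6),(12,5),(2,4),(2,0),(1,4),(6,1),(4,0)]⟩⟩ ⟨false,1,⟨3,[(1,2),(10,0),(0,0),(12,0),(4,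
  0),(5,1)]⟩,⟨0,[(7,0)]⟩⟩,.o ⟨false,0,⟨0,[(2,0)]⟩,⟨0,[(31,0)]⟩⟩,.o ⟨false,0,⟨0,[(5,0)]⟩,⟨0,[(1,0),
  (11,0),(0,0),(10,0),(21,0)]⟩⟩]⟩) (.R ⟨0,false,false,false,[0,0,0,0,1],[0,1],[1,0,2,1],(⟨0,[(34,
  0)]⟩,⟨0,[(33,0)]⟩),(⟨0,[(45,0)]⟩,⟨0,[(44,0)]⟩),⟨0,[(0,0)]⟩,.k,.k,(.r 0 ⟨10,[(12,1),(0,1),(12,3),
  (10,1),(8,1),(0,1),(0,0)]⟩ ⟨0,[(6,0),(25,0)]⟩),(.r 0 ⟨10,[(12,1),(0,1),(12,3),(10,1),(8,1),(0,1),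
  (0,0)]⟩ ⟨0,[(6,0),(25,0)]⟩),.k,.k,⟨false,0,⟨0,[]⟩,⟨1,[(17,0),(6,0)]⟩⟩,⟨true,1,⟨0,[(1,0),(11,0),(0,
  0),(10,0),(21,0)]⟩,⟨6,[(2,3),(2,1),(20,5),(0,3),(4,0),(19,2)]⟩⟩,⟨true,0,⟨5,[(1,1),(2,1),(22,1),
  (10,0),(0,0),(12,1)]⟩,⟨10,[(12,2),(0,2),(12,5),(10,2),(8,2),(0,2),(0,6)]⟩⟩,⟨false,2,⟨1,[(6,1),(44,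
  0),(0,0)]⟩,⟨0,[(2,0),(22,0)]⟩⟩,⟨false,0,⟨0,[]⟩,⟨0,[]⟩⟩,⟨false,0,⟨0,[]⟩,⟨0,[]⟩⟩,[.o ⟨false,1,⟨5,
  [(17,1),(6,1),(2,1),(19,2),(3,0)]⟩,⟨0,[(50,0)]⟩⟩,.a ⟨true,1,⟨5,[(17,1),(6,1),(2,1),(23,0),(0,2)]⟩,
  ⟨0,[(25,0)]⟩⟩ ⟨true,0,⟨5,[(1,1),(2,1),(22,1),(10,0),(0,0),(12,1)]⟩,⟨10,[(12,1),(0,1),(12,3),(10,
  1),(8,1),(0,1),(0,0)]⟩⟩ ⟨false,2,⟨0,[(6,0),(44,0)]⟩,⟨0,[(2,0),(22,0)]⟩⟩,.o ⟨false,0,⟨0,[(2,0)]⟩,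
  ⟨0,[(31,0)]⟩⟩,.o ⟨false,0,⟨0,[(5,0)]⟩,⟨0,[(1,0),(11,0),(0,0),(10,0),(21,0)]⟩⟩]⟩)))))))))))))

theorem ok44 : chk K t44 r32 = true := by decide +kernel

noncomputable def t47 : Tre :=
  (.I [0,0,-1,-1,1,0,0,-1] (.S ⟨1,0,[0,0,1,0,0,0,0,1],[0,1,1],[1,1,1,1,0,0,0,1],(⟨0,[(28,0),(0,0)]⟩,
  ⟨0,[(16,0)]⟩),⟨0,[(28,0)]⟩,.k,.k,⟨false,0,⟨0,[]⟩,⟨3,[(4,0),(6,0),(13,0),(0,0),(12,1)]⟩⟩,⟨true,0,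
  ⟨0,[(37,0)]⟩,⟨6,[(10,1),(0,1),(21,0),(1,0)]⟩⟩,⟨true,0,⟨6,[(10,1),(0,1),(21,0),(1,0)]⟩,⟨0,[(37,
  0)]⟩⟩,⟨false,1,⟨3,[(4,0),(6,0),(13,0),(0,0),(12,1)]⟩,⟨0,[]⟩⟩,[.a ⟨true,0,⟨1,[(5,0),(3,0),(15,1),
  (9,0),(3,0)]⟩,⟨0,[(6,0),(5,0),(26,0)]⟩⟩ ⟨false,(-1),⟨0,[(3,0),(31,0)]⟩,⟨1,[(4,1),(20,0),(0,0)]⟩⟩
  ⟨true,(-1),⟨0,[(3,0)]⟩,⟨2,[(1,0),(2,0),(5,0),(14,0),(0,0)]⟩⟩,.o ⟨false,1,⟨1,[(5,0),(3,0),(15,1),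
  (8,0),(0,0),(3,1)]⟩,⟨0,[(24,0)]⟩⟩,.e ⟨true,(-1),⟨2,[(5,0),(1,0),(3,0),(2,0)]⟩,⟨0,[(0,0)]⟩⟩ ⟨true,
  (-1),⟨0,[(3,0)]⟩,⟨5,[(1,3),(2,0),(5,1),(0,0),(21,1)]⟩⟩,.o ⟨false,1,⟨1,[(25,1),(8,0),(3,0)]⟩,⟨0,
  [(8,0)]⟩⟩]⟩) (.N [0,1,1] 1 ⟨0,[(0,0)]⟩ ⟨0,[(1,0)]⟩ .k))

theorem ok47 : chk K t47 r30 = true := by decide +kernel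

noncomputable def t51 : Tre :=
  (.R ⟨1,false,false,true,[0,0,1],[0,1],[],(⟨0,[(25,0)]⟩,⟨0,[(24,0)]⟩),(⟨0,[(29,0)]⟩,⟨0,[(28,0)]⟩),
  ⟨0,[(14,0)]⟩,.k,.k,.k,.k,(.r 0 ⟨5,[(0,5),(9,1),(20,0),(0,3),(2,0)]⟩ ⟨1,[(7,1),(7,0),(0,0),(5,0),
  (0,0),(12,0)]⟩),.k,⟨true,1,⟨1,[(34,1),(0,0),(0,0)]⟩,⟨3,[(1,1),(5,0),(13,0),(0,1),(0,0)]⟩⟩,⟨false,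
  1,⟨1,[(19,1),(11,0),(3,0)]⟩,⟨0,[(22,0)]⟩⟩,⟨true,1,⟨1,[(21,1),(0,1),(12,0),(0,0)]⟩,⟨0,[(2,0)]⟩⟩,
  ⟨true,0,⟨0,[(3,0)]⟩,⟨1,[(0,0),(19,0),(1,0)]⟩⟩,⟨true,1,⟨1,[(7,0),(13,0),(0,0),(12,0),(0,0)]⟩,⟨0,
  [(4,0)]⟩⟩,⟨false,1,⟨5,[(3,5),(3,1),(0,1),(26,0),(0,4)]⟩,⟨0,[(0,0),(21,0)]⟩⟩,[.e ⟨false,1,⟨1,[(15,
  0),(0,0),(18,0)]⟩,⟨0,[]⟩⟩ ⟨false,0,⟨0,[(5,0),(26,0)]⟩,⟨1,[(22,1),(11,1),(0,0),(0,0)]⟩⟩,.o ⟨false,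
  1,⟨5,[(7,1),(0,1),(22,2),(3,0),(0,1)]⟩,⟨0,[(34,0)]⟩⟩,.o ⟨false,1,⟨1,[(22,1),(8,0),(3,0)]⟩,⟨0,[(5,
  0)]⟩⟩,.a ⟨true,0,⟨0,[(22,0)]⟩,⟨0,[(19,0)]⟩⟩ ⟨false,1,⟨1,[(35,0),(0,0)]⟩,⟨1,[(22,0),(0,0)]⟩⟩ ⟨true,
  0,⟨0,[(5,0),(26,0)]⟩,⟨0,[(22,0),(11,0)]⟩⟩]⟩)

theorem ok51 : chk K t51 l33 = true := by decide +kernel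

noncomputable def t52 : Tre :=
  (.Q [0,0,0,0,0,2,0,0,0,-1,1] (.p true [0,0,1] [1] (⟨0,[(26,0)]⟩,⟨0,[(25,0)]⟩) .k 1 (⟨0,[]⟩,⟨0,
  []⟩) .k .k) (.I [1,0,-2,-2,0,0,0,1] (.R ⟨0,false,false,false,[1,-1,-1],[0,-1,1],[0,1],(⟨0,[(16,
  0)]⟩,⟨0,[(1,0),(29,0)]⟩),(⟨0,[(17,0)]⟩,⟨1,[(1,0),(25,2)]⟩),⟨0,[(1,0)]⟩,.k,.k,(.r (-2) ⟨1,[(24,1),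
  (0,1),(11,3),(0,2),(0,0)]⟩ ⟨13,[(4,8),(6,4),(2,3),(20,1),(3,7)]⟩),.k,.k,.k,⟨true,0,⟨1,[(10,0),(13,
  0),(0,0)]⟩,⟨0,[(7,0),(31,0)]⟩⟩,⟨false,2,⟨1,[(25,3),(8,0),(3,2)]⟩,⟨0,[(0,0),(3,0),(1,1),(5,0),(26,
  1)]⟩⟩,⟨false,(-1),⟨4,[(4,3),(4,0),(25,1),(3,2)]⟩,⟨0,[(24,0),(0,0),(11,0),(0,0),(0,0)]⟩⟩,⟨true,0,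
  ⟨21,[(0,23),(3,17),(18,1),(1,41),(8,10),(0,29),(3,24)]⟩,⟨0,[(6,0),(5,0),(11,0),(14,0)]⟩⟩,⟨false,0,
  ⟨0,[]⟩,⟨0,[]⟩⟩,⟨false,0,⟨0,[]⟩,⟨0,[]⟩⟩,[.a ⟨true,0,⟨0,[(9,0),(15,0)]⟩,⟨0,[(2,0),(9,0),(26,0)]⟩⟩
  ⟨false,0,⟨5,[(13,1),(20,0),(0,3),(2,0)]⟩,⟨1,[(18,0),(0,0),(19,0)]⟩⟩ ⟨true,1,⟨1,[(0,1),(24,3),(8,
  0),(0,1),(3,0)]⟩,⟨0,[(4,0),(1,0),(5,0),(11,0),(14,1)]⟩⟩,.o ⟨false,1,⟨1,[(9,1),(15,1),(8,0),(4,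
  0)]⟩,⟨0,[(6,0)]⟩⟩,.e ⟨true,0,⟨0,[(41,0)]⟩,⟨0,[]⟩⟩ ⟨true,1,⟨1,[(0,1),(24,3),(8,0),(0,1),(3,0)]⟩,⟨2,
  [(4,1),(1,2),(5,1),(9,0),(1,1),(14,2)]⟩⟩,.o ⟨false,(-1),⟨0,[(4,0),(19,0),(12,0),(1,0)]⟩,⟨1,[(25,
  1),(8,0),(3,2)]⟩⟩]⟩) (.Q [0,0,-1,-1,1,0,2,1,0,-1,2] (.p true [0,0,1] [1,0,-1] (⟨0,[(28,0)]⟩,⟨0,
  [(27,0)]⟩) .k 2 (⟨0,[(27,0)]⟩,⟨0,[(28,0)]⟩) .k (.r 1 ⟨4,[(4,3),(4,5),(25,1),(3,2)]⟩ ⟨0,[(24,1),(0,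
  1),(12,0),(0,0)]⟩)) (.Q [0,-1,-2,-1,1,0,-2,-1,0,1,-2] (.p false [0,0,1] [1,0,-1] (⟨0,[(29,0)]⟩,⟨0,
  [(28,0)]⟩) .k 2 (⟨0,[(28,0)]⟩,⟨0,[(29,0)]⟩) .k (.r 1 ⟨4,[(5,3),(4,5),(25,1),(3,2)]⟩ ⟨0,[(25,1),(0,
  1),(12,0),(0,0)]⟩)) (.R ⟨0,false,false,false,[1,-1,-1],[0,-1,1],[1,0,1],(⟨0,[(18,0)]⟩,⟨0,[(3,0),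
  (29,0)]⟩),(⟨0,[(19,0)]⟩,⟨1,[(3,0),(25,2)]⟩),⟨0,[(3,0)]⟩,.k,.k,(.r (-2) ⟨0,[(0,0),(0,0),(24,0),(0,
  0)]⟩ ⟨13,[(6,8),(6,4),(2,3),(20,1),(3,7)]⟩),.k,.k,.k,⟨true,0,⟨0,[(2,0),(36,0)]⟩,⟨0,[(11,0)]⟩⟩,
  ⟨false,2,⟨1,[(0,0),(0,2),(0,0),(9,0)]⟩,⟨0,[(0,0),(5,0)]⟩⟩,⟨false,(-1),⟨0,[(6,0),(34,0)]⟩,⟨1,[(0,
  1),(0,1),(10,0),(13,0),(0,0)]⟩⟩,⟨true,0,⟨4,[(1,4),(4,3),(4,0),(25,1),(3,2)]⟩,⟨1,[(0,0),(1,0),(11,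
  0),(11,1)]⟩⟩,⟨false,0,⟨0,[]⟩,⟨0,[]⟩⟩,⟨false,0,⟨0,[]⟩,⟨0,[]⟩⟩,[.a ⟨true,0,⟨5,[(1,1),(4,0),(2,0),(5,
  1),(9,1),(15,2)]⟩,⟨0,[(4,0),(9,0),(26,0)]⟩⟩ ⟨false,0,⟨0,[]⟩,⟨1,[(20,0),(0,0),(18,0)]⟩⟩ ⟨true,1,⟨0,
  [(1,0)]⟩,⟨2,[(0,1),(1,1),(3,2),(8,0),(10,1),(14,1)]⟩⟩,.o ⟨false,1,⟨5,[(1,3),(4,0),(2,0),(18,1),(7,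
  0),(2,1),(1,3)]⟩,⟨0,[(8,0)]⟩⟩,.e ⟨true,0,⟨1,[(27,0),(0,0)]⟩,⟨5,[(15,1),(20,0),(0,3),(2,0)]⟩⟩
  ⟨true,1,⟨0,[(1,0)]⟩,⟨14,[(0,7),(5,4),(1,2),(5,5),(1,6),(0,0),(8,8)]⟩⟩,.o ⟨false,(-1),⟨0,[(6,0),
  (19,0),(12,0),(1,0)]⟩,⟨7,[(0,1),(0,5),(10,3),(23,1),(3,4),(0,0)]⟩⟩]⟩) (.Q [0,0,0,0,0,-2,0,0,0,0,
  1] (.p true [0,0,1] [] (⟨0,[(30,0)]⟩,⟨0,[(29,0)]⟩) .k 0 (⟨0,[]⟩,⟨0,[]⟩) .k .k) (.Q [0,0,0,-2,0,0,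
  1,1,0,-1,1] (.p true [0,0,1] [1] (⟨0,[(31,0)]⟩,⟨0,[(30,0)]⟩) .k 1 (⟨0,[]⟩,⟨0,[]⟩) .k .k) (.S ⟨1,0,
  [0,0,-1,-2,0,0,0,1],[0,-1,1],[1,1,-1,-1,0,0,0,1],(⟨0,[(21,0)]⟩,⟨1,[(5,0),(25,2)]⟩),⟨0,[(1,0)]⟩,.k,
  (.r (-1) ⟨7,[(0,3),(2,2),(9,0),(3,1),(1,4),(22,5),(0,0)]⟩ ⟨0,[(4,0)]⟩),⟨false,0,⟨0,[]⟩,⟨1,[(22,0),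
  (0,0),(19,0)]⟩⟩,⟨true,0,⟨0,[(41,0)]⟩,⟨6,[(14,1),(0,1),(21,0),(1,0)]⟩⟩,⟨true,0,⟨6,[(14,1),(0,1),
  (21,0),(1,0)]⟩,⟨0,[(41,0)]⟩⟩,⟨false,1,⟨1,[(22,0),(0,0),(19,0)]⟩,⟨0,[]⟩⟩,[.o ⟨false,0,⟨0,[(0,0)]⟩,
  ⟨5,[(6,1),(7,3),(4,1),(18,0),(3,1),(0,2)]⟩⟩,.o ⟨false,1,⟨7,[(0,4),(2,3),(13,0),(10,0),(1,3),(12,
  4)]⟩,⟨0,[(6,0)]⟩⟩,.a ⟨true,0,⟨0,[(29,0)]⟩,⟨0,[(26,0)]⟩⟩ ⟨false,0,⟨0,[(13,0)]⟩,⟨1,[(14,0),(13,0),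
  (0,0),(13,1)]⟩⟩ ⟨true,0,⟨0,[(0,0),(25,0)]⟩,⟨0,[(14,0)]⟩⟩,.o ⟨false,0,⟨0,[(0,0),(3,0)]⟩,⟨1,[(26,1),
  (11,0),(3,0)]⟩⟩]⟩) (.Q [0,0,-1,0,0,0,-1,0,-1,1,-1,-1] (.p false [0,0,1] [1,0,0,0,-1] (⟨0,[(32,
  0)]⟩,⟨0,[(31,0)]⟩) .k 2 (⟨0,[(24,0)]⟩,⟨0,[(25,0)]⟩) .k (.r 1 ⟨1,[(8,1),(7,5),(21,2),(0,3),(3,4)]⟩
  ⟨1,[(22,0),(0,0),(4,1),(0,1),(12,0),(0,1)]⟩)) (.I [1,-1,-2,-2,2,0,0,-1] (.Q [0,0,1,0,-1,0,-1,0,-1,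
  1,-1,-1] (.p false [0,0,1] [1,0,0,0,-1] (⟨0,[(34,0)]⟩,⟨0,[(33,0)]⟩) .k 2 (⟨0,[(26,0)]⟩,⟨0,[(27,
  0)]⟩) .k (.r 1 ⟨1,[(10,1),(7,5),(21,2),(0,3),(3,4)]⟩ ⟨22,[(0,18),(5,15),(10,5),(11,5),(2,5),(12,
  7)]⟩)) (.Q [0,1,0,0,0,0,0,0,1,-1,0,1] (.p true [0,0,0,0,1] [1] (⟨0,[(28,0)]⟩,⟨0,[(27,0)]⟩) .k 1
  (⟨0,[]⟩,⟨0,[]⟩) .k .k) (.R ⟨0,false,false,true,[1,-1,-1],[1,0,0,0,-1],[0,1],(⟨0,[(24,0)]⟩,⟨0,[(9,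
  0),(29,0)]⟩),(⟨0,[(28,0)]⟩,⟨0,[(29,0)]⟩),⟨0,[(9,0)]⟩,.k,.k,(.r (-2) ⟨0,[(2,0),(46,0)]⟩ ⟨13,[(12,
  8),(6,4),(2,3),(20,1),(3,7)]⟩),(.r (-1) ⟨1,[(2,0),(29,0),(0,0),(7,0)]⟩ ⟨1,[(12,0),(6,0),(27,1)]⟩),
  .k,.k,⟨false,0,⟨8,[(2,0),(12,0),(5,1),(20,0),(0,6)]⟩,⟨22,[(2,4),(5,2),(10,3),(11,3),(2,3),(12,
  12)]⟩⟩,⟨true,1,⟨1,[(1,0),(0,1),(0,0),(2,1),(36,1),(3,0)]⟩,⟨0,[(12,0),(14,0),(4,0),(12,0),(1,0)]⟩⟩,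
  ⟨false,(-1),⟨4,[(12,3),(4,0),(25,1),(3,2)]⟩,⟨22,[(2,20),(5,7),(10,2),(11,2),(2,2),(12,3)]⟩⟩,⟨true,
  0,⟨4,[(3,4),(2,3),(0,0),(35,1),(3,2)]⟩,⟨0,[(27,0),(4,0),(12,0)]⟩⟩,⟨false,0,⟨0,[]⟩,⟨0,[]⟩⟩,⟨false,
  0,⟨0,[]⟩,⟨0,[]⟩⟩,[.a ⟨true,0,⟨0,[(3,0),(29,0)]⟩,⟨0,[(27,0)]⟩⟩ ⟨false,0,⟨8,[(2,0),(12,0),(5,1),(20,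
  0),(0,6)]⟩,⟨22,[(2,4),(5,2),(10,3),(11,3),(2,3),(12,12)]⟩⟩ ⟨true,1,⟨1,[(1,0),(0,1),(0,0),(2,1),
  (36,1),(3,0)]⟩,⟨0,[(12,0),(14,0),(4,0),(12,0),(1,0)]⟩⟩,.o ⟨false,1,⟨10,[(1,1),(0,2),(0,5),(2,3),
  (1,0),(17,2),(15,1),(4,5)]⟩,⟨0,[(0,0)]⟩⟩,.e ⟨true,0,⟨0,[(49,0)]⟩,⟨0,[]⟩⟩ ⟨true,1,⟨1,[(1,0),(0,1),
  (0,0),(2,1),(36,1),(3,0)]⟩,⟨1,[(12,0),(3,0),(10,1),(4,0),(12,0)]⟩⟩,.o ⟨false,(-1),⟨0,[(12,0),(19,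
  0),(12,0),(1,0)]⟩,⟨25,[(2,5),(1,9),(2,17),(10,3),(0,1),(22,8),(3,12)]⟩⟩]⟩) (.R ⟨0,false,false,
  true,[1,-1,-1],[1,0,0,0,-1],[0,1],(⟨0,[(24,0)]⟩,⟨0,[(9,0),(29,0)]⟩),(⟨0,[(28,0)]⟩,⟨0,[(29,0)]⟩),
  ⟨0,[(9,0)]⟩,.k,.k,(.r (-2) ⟨0,[(2,0),(46,0)]⟩ ⟨13,[(12,8),(6,4),(2,3),(20,1),(3,7)]⟩),(.r (-1) ⟨1,
  [(2,0),(29,0),(0,0),(7,0)]⟩ ⟨1,[(12,0),(6,0),(27,1)]⟩),.k,.k,⟨false,0,⟨8,[(2,0),(12,0),(5,1),(20,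
  0),(0,6)]⟩,⟨22,[(2,4),(5,2),(10,3),(11,3),(2,3),(12,12)]⟩⟩,⟨true,1,⟨0,[(0,0),(6,0),(6,0)]⟩,⟨0,
  [(12,0),(14,0),(4,0),(12,0),(1,0)]⟩⟩,⟨false,(-1),⟨4,[(12,3),(4,0),(25,1),(3,2)]⟩,⟨22,[(2,20),(5,
  7),(10,2),(11,2),(2,2),(12,3)]⟩⟩,⟨true,0,⟨27,[(0,27),(6,13),(4,8),(6,4),(2,3),(19,6),(0,15),(3,
  0)]⟩,⟨0,[(27,0),(4,0),(12,0)]⟩⟩,⟨false,0,⟨0,[]⟩,⟨0,[]⟩⟩,⟨false,0,⟨0,[]⟩,⟨0,[]⟩⟩,[.a ⟨true,0,⟨6,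
  [(0,3),(2,0),(14,0),(1,1),(5,1),(4,0)]⟩,⟨0,[(27,0)]⟩⟩ ⟨false,0,⟨8,[(2,0),(12,0),(5,1),(20,0),(0,
  6)]⟩,⟨22,[(2,4),(5,2),(10,3),(11,3),(2,3),(12,12)]⟩⟩ ⟨true,1,⟨0,[(0,0),(6,0),(6,0)]⟩,⟨0,[(12,0),
  (14,0),(4,0),(12,0),(1,0)]⟩⟩,.e ⟨false,1,⟨21,[(2,7),(1,3),(2,1),(11,9),(22,0),(3,1),(0,0)]⟩,⟨0,
  []⟩⟩ ⟨false,2,⟨21,[(0,19),(1,3),(1,9),(2,15),(10,1),(7,1),(15,6),(3,10)]⟩,⟨1,[(12,0),(3,0),(10,1),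
  (4,0),(12,0)]⟩⟩,.e ⟨true,0,⟨0,[(49,0)]⟩,⟨0,[]⟩⟩ ⟨true,1,⟨0,[(0,0),(6,0),(6,0)]⟩,⟨1,[(12,0),(3,0),
  (10,1),(4,0),(12,0)]⟩⟩,.o ⟨false,(-1),⟨0,[(12,0),(19,0),(12,0),(1,0)]⟩,⟨25,[(2,5),(1,9),(2,17),
  (10,3),(0,1),(22,8),(3,12)]⟩⟩]⟩)) (.R ⟨0,false,false,false,[1,-1,-1],[0,0,0,0,1],[1,1,1],(⟨0,[(23,
  0)]⟩,⟨0,[(8,0),(29,0)]⟩),(⟨0,[(28,0)]⟩,⟨0,[(27,0)]⟩),⟨0,[(8,0)]⟩,.k,.k,(.r (-2) ⟨0,[(1,0),(46,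
  0)]⟩ ⟨13,[(11,8),(6,4),(2,3),(20,1),(3,7)]⟩),(.r (-2) ⟨22,[(1,20),(5,7),(10,2),(11,2),(2,2),(12,
  3)]⟩ ⟨0,[(3,1),(1,0),(5,1),(7,10),(21,5),(0,4),(3,8)]⟩),.k,.k,⟨false,0,⟨0,[]⟩,⟨19,[(0,1),(0,5),(1,
  1),(14,7),(6,1),(19,2),(0,0)]⟩⟩,⟨true,1,⟨0,[(0,0)]⟩,⟨9,[(2,8),(4,6),(3,6),(8,0),(4,0),(7,0),(10,
  18),(1,3)]⟩⟩,⟨true,(-2),⟨0,[(11,0)]⟩,⟨15,[(1,14),(15,4),(0,3),(21,2),(4,1)]⟩⟩,⟨false,0,⟨4,[(0,4),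
  (10,3),(4,0),(25,1),(3,2)]⟩,⟨9,[(1,2),(0,8),(4,6),(12,0),(4,0),(7,0),(10,15),(1,3)]⟩⟩,⟨false,0,⟨0,
  []⟩,⟨0,[]⟩⟩,⟨false,0,⟨0,[]⟩,⟨0,[]⟩⟩,[.o ⟨false,0,⟨3,[(0,1),(10,0),(2,0),(11,1),(4,1),(9,0)]⟩,⟨1,
  [(2,1),(29,1),(8,0),(4,0)]⟩⟩,.a ⟨true,0,⟨0,[(26,0)]⟩,⟨0,[(2,0),(29,0)]⟩⟩ ⟨false,0,⟨0,[]⟩,⟨19,[(0,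
  1),(0,5),(1,1),(14,7),(6,1),(19,2),(0,0)]⟩⟩ ⟨true,1,⟨0,[(0,0)]⟩,⟨9,[(2,8),(4,6),(3,6),(8,0),(4,0),
  (7,0),(10,18),(1,3)]⟩⟩,.e ⟨false,0,⟨1,[(32,0),(0,0)]⟩,⟨1,[(45,0),(0,0)]⟩⟩ ⟨false,1,⟨0,[(0,0)]⟩,⟨4,
  [(2,3),(4,1),(3,1),(8,0),(4,0),(7,0),(10,3),(1,3)]⟩⟩,.o ⟨false,(-1),⟨0,[(11,0),(19,0),(12,0),(1,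
  0)]⟩,⟨6,[(0,0),(0,0),(1,1),(2,3),(10,0),(7,0),(15,1),(3,3)]⟩⟩]⟩)) (.Q [0,-2,0,1,1,0,-1,-1,-1,1,-1,
  -1] (.p false [0,0,1] [1,0,0,0,-1] (⟨0,[(34,0)]⟩,⟨0,[(33,0)]⟩) .k 2 (⟨0,[(26,0)]⟩,⟨0,[(27,0)]⟩)
  .k (.r 1 ⟨0,[(0,0),(17,3),(21,1),(0,1),(3,2)]⟩ ⟨1,[(24,0),(0,0),(4,1),(0,1),(12,0),(0,1)]⟩)) (.Q
  [0,1,0,0,0,0,0,0,1,-1,0,1] (.p true [0,0,0,0,1] [1] (⟨0,[(28,0)]⟩,⟨0,[(27,0)]⟩) .k 1 (⟨0,[]⟩,⟨0,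
  []⟩) .k .k) (.R ⟨0,false,false,true,[1,-1,-1],[1,0,0,0,-1],[0,1],(⟨0,[(24,0)]⟩,⟨0,[(9,0),(29,
  0)]⟩),(⟨0,[(28,0)]⟩,⟨0,[(29,0)]⟩),⟨0,[(9,0)]⟩,.k,.k,(.r (-2) ⟨5,[(1,1),(5,5),(13,3),(5,1),(4,9),
  (13,2),(0,4)]⟩ ⟨7,[(2,1),(9,2),(6,2),(2,1),(24,3)]⟩),(.r (-1) ⟨2,[(1,0),(5,1),(13,0),(5,0),(4,3),
  (0,0),(12,0)]⟩ ⟨1,[(12,0),(6,0),(27,1)]⟩),.k,.k,⟨false,0,⟨5,[(21,1),(20,0),(0,3),(2,0)]⟩,⟨1,[(26,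
  0),(0,0),(19,0)]⟩⟩,⟨true,1,⟨12,[(1,12),(4,3),(0,8),(13,9),(20,4),(0,11)]⟩,⟨0,[(12,0),(14,0),(4,0),
  (12,0),(1,0)]⟩⟩,⟨false,(-1),⟨2,[(2,1),(14,0),(29,0)]⟩,⟨2,[(1,1),(5,2),(13,0),(5,1),(4,3),(14,
  1)]⟩⟩,⟨true,0,⟨6,[(1,2),(0,2),(0,3),(2,1),(0,4),(35,0)]⟩,⟨0,[(27,0),(4,0),(12,0)]⟩⟩,⟨false,0,⟨0,
  []⟩,⟨0,[]⟩⟩,⟨false,0,⟨0,[]⟩,⟨0,[]⟩⟩,[.a ⟨true,0,⟨0,[(3,0),(29,0)]⟩,⟨0,[(27,0)]⟩⟩ ⟨false,0,⟨5,[(21,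
  1),(20,0),(0,3),(2,0)]⟩,⟨1,[(26,0),(0,0),(19,0)]⟩⟩ ⟨true,1,⟨12,[(1,12),(4,3),(0,8),(13,9),(20,4),
  (0,11)]⟩,⟨0,[(12,0),(14,0),(4,0),(12,0),(1,0)]⟩⟩,.o ⟨false,1,⟨17,[(1,11),(4,1),(0,3),(7,5),(10,5),
  (15,2),(2,3),(1,0)]⟩,⟨0,[(0,0)]⟩⟩,.e ⟨true,0,⟨0,[(49,0)]⟩,⟨0,[]⟩⟩ ⟨true,1,⟨12,[(1,12),(4,3),(0,8),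
  (13,9),(20,4),(0,11)]⟩,⟨1,[(12,0),(3,0),(10,1),(4,0),(12,0)]⟩⟩,.o ⟨false,(-1),⟨0,[(12,0),(19,0),
  (12,0),(1,0)]⟩,⟨5,[(7,3),(10,1),(13,1),(9,0),(3,4),(0,1)]⟩⟩]⟩) (.R ⟨0,false,false,true,[1,-1,-1],
  [1,0,0,0,-1],[0,1],(⟨0,[(24,0)]⟩,⟨0,[(9,0),(29,0)]⟩),(⟨0,[(28,0)]⟩,⟨0,[(29,0)]⟩),⟨0,[(9,0)]⟩,.k,
  .k,(.r (-2) ⟨5,[(1,1),(5,5),(13,3),(5,1),(4,9),(13,2),(0,4)]⟩ ⟨7,[(2,1),(9,2),(6,2),(2,1),(24,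
  3)]⟩),(.r (-1) ⟨2,[(1,0),(5,1),(13,0),(5,0),(4,3),(0,0),(12,0)]⟩ ⟨1,[(12,0),(6,0),(27,1)]⟩),.k,.k,
  ⟨false,0,⟨5,[(21,1),(20,0),(0,3),(2,0)]⟩,⟨1,[(26,0),(0,0),(19,0)]⟩⟩,⟨true,1,⟨0,[(0,0),(6,0),(6,
  0)]⟩,⟨0,[(12,0),(14,0),(4,0),(12,0),(1,0)]⟩⟩,⟨false,(-1),⟨2,[(2,1),(14,0),(29,0)]⟩,⟨2,[(1,1),(5,
  2),(13,0),(5,1),(4,3),(14,1)]⟩⟩,⟨true,0,⟨6,[(1,2),(0,2),(0,3),(2,1),(0,4),(35,0)]⟩,⟨0,[(27,0),(4,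
  0),(12,0)]⟩⟩,⟨false,0,⟨0,[]⟩,⟨0,[]⟩⟩,⟨false,0,⟨0,[]⟩,⟨0,[]⟩⟩,[.a ⟨true,0,⟨6,[(0,3),(2,0),(14,0),
  (1,1),(5,1),(4,0)]⟩,⟨0,[(27,0)]⟩⟩ ⟨false,0,⟨5,[(21,1),(20,0),(0,3),(2,0)]⟩,⟨1,[(26,0),(0,0),(19,
  0)]⟩⟩ ⟨true,1,⟨0,[(0,0),(6,0),(6,0)]⟩,⟨0,[(12,0),(14,0),(4,0),(12,0),(1,0)]⟩⟩,.e ⟨false,1,⟨1,[(26,
  0),(0,0),(18,0)]⟩,⟨0,[]⟩⟩ ⟨false,2,⟨1,[(0,0),(0,0),(5,1),(6,0),(31,0)]⟩,⟨1,[(12,0),(3,0),(10,1),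
  (4,0),(12,0)]⟩⟩,.e ⟨true,0,⟨0,[(49,0)]⟩,⟨0,[]⟩⟩ ⟨true,1,⟨0,[(0,0),(6,0),(6,0)]⟩,⟨1,[(12,0),(3,0),
  (10,1),(4,0),(12,0)]⟩⟩,.o ⟨false,(-1),⟨0,[(12,0),(19,0),(12,0),(1,0)]⟩,⟨5,[(7,3),(10,1),(13,1),(9,
  0),(3,4),(0,1)]⟩⟩]⟩)) (.Q [0,2,-1,0,0,0,0,-1,1,0,0,1] (.p true [0,0,0,0,1] [] (⟨0,[(28,0)]⟩,⟨0,
  [(27,0)]⟩) .k 0 (⟨0,[]⟩,⟨0,[]⟩) .k .k) (.Q [0,0,-1,0,1,0,1,0,-1,0,1,-1] (.p true [0,0,1] [0,0,0,0,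
  1] (⟨0,[(36,0)]⟩,⟨0,[(35,0)]⟩) .k 2 (⟨0,[(29,0)]⟩,⟨0,[(28,0)]⟩) .k (.r 0 ⟨2,[(2,0),(14,1),(29,
  1)]⟩ ⟨5,[(0,3),(25,3),(5,1),(0,2),(0,0),(12,1)]⟩)) (.R ⟨0,false,false,true,[1,-1,-1],[1,0,0,0,-1],
  [0,1],(⟨0,[(25,0)]⟩,⟨0,[(10,0),(29,0)]⟩),(⟨0,[(29,0)]⟩,⟨0,[(30,0)]⟩),⟨0,[(10,0)]⟩,.k,.k,(.r (-2)
  ⟨17,[(0,1),(0,3),(6,11),(13,11),(4,1),(5,25),(13,8),(0,22)]⟩ ⟨7,[(3,1),(9,2),(6,2),(2,1),(24,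
  3)]⟩),(.r (-1) ⟨8,[(0,1),(0,3),(6,2),(13,2),(4,1),(5,7),(14,4)]⟩ ⟨1,[(13,0),(6,0),(27,1)]⟩),.k,.k,
  ⟨false,0,⟨5,[(22,1),(20,0),(0,3),(2,0)]⟩,⟨1,[(27,0),(0,0),(19,0)]⟩⟩,⟨true,1,⟨0,[(0,0)]⟩,⟨0,[(13,
  0),(14,0),(4,0),(12,0),(1,0)]⟩⟩,⟨false,(-1),⟨2,[(3,1),(14,0),(29,0)]⟩,⟨8,[(0,1),(0,3),(6,2),(13,
  2),(4,1),(5,7),(14,13)]⟩⟩,⟨true,0,⟨2,[(0,2),(2,1),(14,0),(29,0)]⟩,⟨0,[(28,0),(4,0),(12,0)]⟩⟩,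
  ⟨false,0,⟨0,[]⟩,⟨0,[]⟩⟩,⟨false,0,⟨0,[]⟩,⟨0,[]⟩⟩,[.a ⟨true,0,⟨0,[(4,0),(29,0)]⟩,⟨0,[(28,0)]⟩⟩
  ⟨false,0,⟨5,[(22,1),(20,0),(0,3),(2,0)]⟩,⟨1,[(27,0),(0,0),(19,0)]⟩⟩ ⟨true,1,⟨0,[(0,0)]⟩,⟨0,[(13,
  0),(14,0),(4,0),(12,0),(1,0)]⟩⟩,.o ⟨false,1,⟨4,[(0,1),(3,1),(4,0),(3,0),(13,0),(15,0),(2,2),(1,
  2)]⟩,⟨2,[(2,0),(12,0),(12,1),(14,0)]⟩⟩,.e ⟨true,0,⟨0,[(50,0)]⟩,⟨0,[]⟩⟩ ⟨true,1,⟨0,[(0,0)]⟩,⟨1,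
  [(13,0),(3,0),(10,1),(4,0),(12,0)]⟩⟩,.o ⟨false,(-1),⟨0,[(13,0),(19,0),(12,0),(1,0)]⟩,⟨17,[(0,1),
  (0,3),(6,7),(10,3),(7,1),(15,4),(3,12),(0,5)]⟩⟩]⟩) (.R ⟨0,false,false,false,[1,-1,-1],[0,-1,1],[1,
  0,1],(⟨0,[(25,0)]⟩,⟨0,[(10,0),(29,0)]⟩),(⟨0,[(26,0)]⟩,⟨1,[(10,0),(25,2)]⟩),⟨0,[(10,0)]⟩,.k,.k,(.r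
  (-2) ⟨5,[(8,3),(13,3),(10,9),(0,1),(12,4),(0,6)]⟩ ⟨7,[(3,1),(9,2),(6,2),(2,1),(24,3)]⟩),.k,.k,.k,
  ⟨true,0,⟨0,[(9,0),(36,0)]⟩,⟨0,[(18,0)]⟩⟩,⟨false,2,⟨1,[(8,1),(10,0),(13,0),(0,0),(12,0),(0,0)]⟩,⟨0,
  [(0,0),(3,0)]⟩⟩,⟨false,(-1),⟨0,[(13,0),(34,0)]⟩,⟨5,[(8,1),(13,1),(10,7),(0,3),(12,6),(0,4)]⟩⟩,
  ⟨true,0,⟨2,[(3,1),(4,2),(9,0),(29,0)]⟩,⟨1,[(5,0),(16,0),(10,2),(14,0)]⟩⟩,⟨false,0,⟨0,[]⟩,⟨0,[]⟩⟩,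
  ⟨false,0,⟨0,[]⟩,⟨0,[]⟩⟩,[.a ⟨true,0,⟨5,[(8,1),(4,0),(2,0),(5,1),(9,1),(15,2)]⟩,⟨3,[(5,2),(16,0),
  (10,0),(14,0)]⟩⟩ ⟨false,0,⟨0,[]⟩,⟨15,[(1,3),(6,1),(11,1),(3,1),(2,3),(19,4),(0,4)]⟩⟩ ⟨true,1,⟨0,
  [(8,0)]⟩,⟨2,[(0,1),(3,1),(4,1),(3,0),(8,0),(10,1),(14,1)]⟩⟩,.o ⟨false,1,⟨17,[(7,1),(0,9),(7,5),
  (18,5),(7,2),(2,3),(1,12)]⟩,⟨0,[(15,0)]⟩⟩,.e ⟨true,0,⟨1,[(34,0),(0,0)]⟩,⟨5,[(22,1),(20,0),(0,3),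
  (2,0)]⟩⟩ ⟨true,1,⟨0,[(8,0)]⟩,⟨11,[(0,4),(3,4),(0,2),(16,2),(0,3),(0,0),(8,8)]⟩⟩,.o ⟨false,(-1),⟨0,
  [(13,0),(19,0),(12,0),(1,0)]⟩,⟨5,[(8,3),(10,1),(13,1),(9,0),(3,4),(0,1)]⟩⟩]⟩)) (.Q [0,0,-1,0,1,0,
  1,0,-1,0,1,-1] (.p true [0,0,1] [0,0,0,0,1] (⟨0,[(36,0)]⟩,⟨0,[(35,0)]⟩) .k 2 (⟨0,[(29,0)]⟩,⟨0,
  [(28,0)]⟩) .k (.r 0 ⟨2,[(2,0),(14,1),(29,1)]⟩ ⟨1,[(26,0),(0,0),(4,1),(0,1),(12,0)]⟩)) (.R ⟨0,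
  false,false,true,[1,-1,-1],[1,0,0,0,-1],[0,1],(⟨0,[(25,0)]⟩,⟨0,[(10,0),(29,0)]⟩),(⟨0,[(29,0)]⟩,⟨0,
  [(30,0)]⟩),⟨0,[(10,0)]⟩,.k,.k,(.r (-2) ⟨5,[(0,1),(7,3),(13,3),(5,1),(4,9),(13,2),(0,6)]⟩ ⟨2,[(1,
  0),(1,0),(16,0),(2,0),(4,0)]⟩),(.r (-1) ⟨2,[(0,1),(7,0),(13,0),(5,1),(4,3),(14,0)]⟩ ⟨8,[(1,3),(1,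
  0),(16,3),(2,0),(4,3),(19,2)]⟩),.k,.k,⟨false,0,⟨5,[(22,1),(20,0),(0,3),(2,0)]⟩,⟨1,[(27,0),(0,0),
  (19,0)]⟩⟩,⟨true,1,⟨0,[(0,0)]⟩,⟨0,[(13,0),(14,0),(4,0),(12,0),(1,0)]⟩⟩,⟨false,(-1),⟨2,[(3,1),(14,
  0),(29,0)]⟩,⟨2,[(0,1),(7,0),(13,0),(5,1),(4,3),(14,3)]⟩⟩,⟨true,0,⟨10,[(0,7),(0,2),(1,5),(1,0),(2,
  2),(22,1),(15,0)]⟩,⟨0,[(28,0),(4,0),(12,0)]⟩⟩,⟨false,0,⟨0,[]⟩,⟨0,[]⟩⟩,⟨false,0,⟨0,[]⟩,⟨0,[]⟩⟩,[.a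
  ⟨true,0,⟨2,[(0,0),(0,0),(3,0),(15,1),(5,0)]⟩,⟨0,[(28,0)]⟩⟩ ⟨false,0,⟨5,[(22,1),(20,0),(0,3),(2,
  0)]⟩,⟨1,[(27,0),(0,0),(19,0)]⟩⟩ ⟨true,1,⟨0,[(0,0)]⟩,⟨0,[(13,0),(14,0),(4,0),(12,0),(1,0)]⟩⟩,.o
  ⟨false,1,⟨2,[(0,0),(0,0),(25,0),(5,0),(14,0)]⟩,⟨2,[(2,0),(12,0),(12,1),(14,0)]⟩⟩,.e ⟨true,0,⟨0,
  [(50,0)]⟩,⟨0,[]⟩⟩ ⟨true,1,⟨0,[(0,0)]⟩,⟨8,[(1,0),(11,3),(3,3),(4,1),(5,9),(4,4),(9,0)]⟩⟩,.o ⟨false,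
  (-1),⟨0,[(13,0),(19,0),(12,0),(1,0)]⟩,⟨5,[(8,3),(10,1),(13,1),(9,0),(3,4),(0,1)]⟩⟩]⟩) (.R ⟨0,
  false,false,false,[1,-1,-1],[0,-1,1],[0,1],(⟨0,[(25,0)]⟩,⟨0,[(10,0),(29,0)]⟩),(⟨0,[(26,0)]⟩,⟨1,
  [(10,0),(25,2)]⟩),⟨0,[(10,0)]⟩,.k,.k,(.r (-2) ⟨5,[(8,3),(13,3),(10,9),(0,1),(12,4),(0,6)]⟩ ⟨2,[(1,
  0),(1,0),(16,0),(2,0),(4,0)]⟩),.k,.k,.k,⟨true,0,⟨1,[(19,0),(13,0),(0,0)]⟩,⟨11,[(0,2),(0,3),(6,1),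
  (9,5),(3,1),(5,0),(6,0),(12,2)]⟩⟩,⟨false,2,⟨1,[(8,1),(10,0),(13,0),(0,0),(12,0),(0,0)]⟩,⟨0,[(0,0),
  (3,0)]⟩⟩,⟨false,(-1),⟨2,[(3,1),(14,0),(29,0)]⟩,⟨2,[(8,0),(13,0),(10,3),(0,1),(12,1),(0,3)]⟩⟩,
  ⟨true,0,⟨2,[(3,1),(4,2),(9,0),(29,0)]⟩,⟨1,[(5,0),(16,0),(10,2),(14,0)]⟩⟩,⟨false,0,⟨0,[]⟩,⟨0,[]⟩⟩,
  ⟨false,0,⟨0,[]⟩,⟨0,[]⟩⟩,[.a ⟨true,0,⟨2,[(1,0),(6,0),(13,0),(5,0),(3,0)]⟩,⟨3,[(5,2),(16,0),(10,0),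
  (14,0)]⟩⟩ ⟨false,0,⟨5,[(22,1),(20,0),(0,3),(2,0)]⟩,⟨1,[(27,0),(0,0),(19,0)]⟩⟩ ⟨true,1,⟨0,[(8,0)]⟩,
  ⟨51,[(0,28),(0,28),(3,23),(3,19),(12,20),(0,1),(0,6),(8,36)]⟩⟩,.o ⟨false,1,⟨9,[(0,1),(0,1),(6,7),
  (26,3),(7,0),(2,1),(1,2)]⟩,⟨0,[(15,0)]⟩⟩,.e ⟨true,0,⟨0,[(50,0)]⟩,⟨0,[]⟩⟩ ⟨true,1,⟨0,[(8,0)]⟩,⟨11,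
  [(0,4),(3,4),(0,2),(16,2),(0,3),(0,0),(8,8)]⟩⟩,.o ⟨false,(-1),⟨10,[(0,4),(0,4),(7,2),(3,1),(8,3),
  (10,3),(1,1),(7,1)]⟩,⟨5,[(8,3),(10,1),(13,1),(9,0),(3,4),(0,1)]⟩⟩]⟩))))) (.Q [0,0,0,0,0,0,0,0,-1,
  1,0,-1] (.p false [0,0,0,0,1] [1] (⟨0,[(26,0)]⟩,⟨0,[(25,0)]⟩) .k 1 (⟨0,[]⟩,⟨0,[]⟩) .k .k) (.R ⟨0,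
  false,false,false,[1,-1,-1],[0,0,0,0,1],[1,1,1],(⟨0,[(22,0)]⟩,⟨0,[(7,0),(29,0)]⟩),(⟨0,[(27,0)]⟩,
  ⟨0,[(26,0)]⟩),⟨0,[(7,0)]⟩,.k,.k,(.r (-2) ⟨5,[(5,3),(13,3),(10,9),(0,1),(12,4),(0,6)]⟩ ⟨13,[(10,8),
  (6,4),(2,3),(20,1),(3,7)]⟩),(.r (-2) ⟨2,[(5,0),(13,0),(10,3),(0,1),(12,1),(0,3)]⟩ ⟨0,[(2,1),(1,0),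
  (5,1),(7,10),(21,5),(0,4),(3,8)]⟩),.k,.k,⟨false,0,⟨0,[]⟩,⟨1,[(24,0),(0,0),(18,0)]⟩⟩,⟨true,1,⟨0,
  [(1,0),(42,0)]⟩,⟨0,[(0,0),(9,0),(19,0),(12,0),(1,0)]⟩⟩,⟨true,(-2),⟨0,[(10,0)]⟩,⟨5,[(5,1),(13,1),
  (10,7),(0,3),(12,6),(0,4)]⟩⟩,⟨false,0,⟨4,[(1,4),(8,1),(4,2),(25,5),(3,3)]⟩,⟨0,[(0,0),(29,0),(12,
  0),(1,0)]⟩⟩,⟨false,0,⟨0,[]⟩,⟨0,[]⟩⟩,⟨false,0,⟨0,[]⟩,⟨0,[]⟩⟩,[.o ⟨false,0,⟨2,[(1,0),(11,0),(11,1),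
  (4,0),(9,0),(0,0)]⟩,⟨1,[(0,1),(39,0),(4,0)]⟩⟩,.a ⟨true,0,⟨0,[(25,0)]⟩,⟨0,[(0,0)]⟩⟩ ⟨false,0,⟨0,
  []⟩,⟨1,[(24,0),(0,0),(18,0)]⟩⟩ ⟨true,1,⟨0,[(1,0),(42,0)]⟩,⟨0,[(0,0),(9,0),(19,0),(12,0),(1,0)]⟩⟩,
  .e ⟨false,0,⟨1,[(31,0),(0,0)]⟩,⟨1,[(44,0),(0,0)]⟩⟩ ⟨false,1,⟨0,[(1,0),(42,0)]⟩,⟨1,[(0,1),(9,0),(3,
  0),(15,0),(12,0),(1,1)]⟩⟩,.o ⟨false,(-1),⟨0,[(10,0),(19,0),(12,0),(1,0)]⟩,⟨5,[(5,3),(10,1),(13,1),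
  (9,0),(3,4),(0,1)]⟩⟩]⟩) (.Q [0,0,0,0,-1,0,-2,0,0,1,-2] (.p false [0,0,1] [1,0,-1] (⟨0,[(34,0)]⟩,
  ⟨0,[(33,0)]⟩) .k 2 (⟨0,[(33,0)]⟩,⟨0,[(34,0)]⟩) .k (.r 1 ⟨4,[(10,3),(4,5),(25,1),(3,2)]⟩ ⟨0,[(30,
  1),(0,1),(12,0),(0,0)]⟩)) (.R ⟨0,false,false,false,[1,-1,-1],[0,-1,1],[1,0,1],(⟨0,[(23,0)]⟩,⟨0,
  [(8,0),(29,0)]⟩),(⟨0,[(24,0)]⟩,⟨1,[(8,0),(25,2)]⟩),⟨0,[(8,0)]⟩,.k,.k,(.r (-2) ⟨5,[(6,3),(13,3),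
  (10,9),(0,1),(12,4),(0,6)]⟩ ⟨13,[(11,8),(6,4),(2,3),(20,1),(3,7)]⟩),.k,.k,.k,⟨true,0,⟨0,[(7,0),
  (36,0)]⟩,⟨0,[(16,0)]⟩⟩,⟨false,2,⟨1,[(6,1),(10,0),(13,0),(0,0),(12,0),(0,0)]⟩,⟨0,[(0,0)]⟩⟩,⟨false,
  (-1),⟨0,[(11,0),(34,0)]⟩,⟨5,[(6,1),(13,1),(10,7),(0,3),(12,6),(0,4)]⟩⟩,⟨true,0,⟨4,[(6,4),(4,3),(4,
  0),(25,1),(3,2)]⟩,⟨1,[(3,0),(16,0),(10,2),(14,0)]⟩⟩,⟨false,0,⟨0,[]⟩,⟨0,[]⟩⟩,⟨false,0,⟨0,[]⟩,⟨0,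
  []⟩⟩,[.a ⟨true,0,⟨5,[(6,1),(4,0),(2,0),(5,1),(9,1),(15,2)]⟩,⟨3,[(3,2),(16,0),(10,0),(14,0)]⟩⟩
  ⟨false,0,⟨0,[]⟩,⟨1,[(25,0),(0,0),(18,0)]⟩⟩ ⟨true,1,⟨0,[(6,0)]⟩,⟨0,[(0,0),(6,0),(36,0)]⟩⟩,.o
  ⟨false,1,⟨17,[(5,1),(0,9),(7,5),(18,5),(7,2),(2,3),(1,12)]⟩,⟨0,[(13,0)]⟩⟩,.e ⟨true,0,⟨1,[(32,0),
  (0,0)]⟩,⟨5,[(20,1),(20,0),(0,3),(2,0)]⟩⟩ ⟨true,1,⟨0,[(6,0)]⟩,⟨11,[(0,4),(2,2),(16,2),(0,3),(0,0),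
  (8,8)]⟩⟩,.o ⟨false,(-1),⟨3,[(0,1),(6,1),(3,1),(29,0),(2,5),(1,0)]⟩,⟨5,[(6,3),(10,1),(13,1),(9,0),
  (3,4),(0,1)]⟩⟩]⟩) (.Q [0,0,1,-1,-1,0,0,0,1,0,0,1] (.p true [0,0,0,0,1] [] (⟨0,[(28,0)]⟩,⟨0,[(27,
  0)]⟩) .k 0 (⟨0,[]⟩,⟨0,[]⟩) .k .k) (.Q [0,0,0,0,0,-1,0,0,0,0,0,1] (.ed false [1,-1,0,0,1] .k) (.Q
  [0,0,1,0,-1,0,0,0,1,0,0,1] (.p true [0,0,0,0,1] [] (⟨0,[(30,0)]⟩,⟨0,[(29,0)]⟩) .k 0 (⟨0,[]⟩,⟨0,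
  []⟩) .k .k) (.S ⟨1,0,[0,0,1],[1,1,0,0,-1],[0,-1,1],(⟨1,[(11,0),(18,1),(6,0)]⟩,⟨0,[(1,0)]⟩),⟨0,
  [(30,0)]⟩,(.r (-1) ⟨9,[(10,3),(10,1),(6,2),(0,2),(3,1),(2,1),(12,6)]⟩ ⟨2,[(23,1),(20,0),(0,0),(2,
  0)]⟩),.k,⟨true,0,⟨0,[(47,0)]⟩,⟨6,[(20,1),(0,1),(21,0),(1,0)]⟩⟩,⟨false,0,⟨0,[(47,0)]⟩,⟨5,[(20,1),
  (0,1),(26,0),(0,4)]⟩⟩,⟨false,1,⟨1,[(28,0),(0,0),(19,0)]⟩,⟨0,[]⟩⟩,⟨true,0,⟨0,[(51,0)]⟩,⟨0,[]⟩⟩,[.o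
  ⟨false,1,⟨0,[(28,0)]⟩,⟨0,[(4,0)]⟩⟩,.e ⟨false,1,⟨0,[(49,0)]⟩,⟨0,[(43,0)]⟩⟩ ⟨false,1,⟨1,[(28,0),(0,
  0),(19,0)]⟩,⟨5,[(23,1),(20,0),(0,3),(2,0)]⟩⟩,.a ⟨true,1,⟨0,[(22,0),(5,0),(16,0),(3,0)]⟩,⟨0,[(0,
  0)]⟩⟩ ⟨false,1,⟨1,[(35,0),(0,0),(12,1)]⟩,⟨5,[(23,1),(20,0),(0,3),(2,0)]⟩⟩ ⟨true,0,⟨1,[(35,0),(0,
  0)]⟩,⟨5,[(23,1),(20,0),(0,3),(2,0)]⟩⟩,.o ⟨false,1,⟨0,[(28,0)]⟩,⟨0,[(4,0)]⟩⟩]⟩) (.S ⟨1,0,[0,2,0,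
  -1],[0,0,0,0,1],[1,1],(⟨0,[(31,0)]⟩,⟨0,[(30,0)]⟩),⟨0,[(1,0)]⟩,.k,(.r 0 ⟨2,[(23,1),(20,0),(0,0),(2,
  0)]⟩ ⟨9,[(10,3),(10,1),(6,2),(0,2),(3,1),(2,1),(12,6)]⟩),⟨true,0,⟨0,[]⟩,⟨0,[(51,0)]⟩⟩,⟨false,0,⟨0,
  [(47,0)]⟩,⟨5,[(20,1),(0,1),(26,0),(0,4)]⟩⟩,⟨false,1,⟨5,[(20,1),(0,1),(26,0),(0,4)]⟩,⟨0,[(47,0)]⟩⟩,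
  ⟨true,0,⟨0,[(51,0)]⟩,⟨0,[]⟩⟩,[.o ⟨false,(-1),⟨0,[(2,0),(19,0),(21,0),(0,0)]⟩,⟨26,[(0,14),(2,1),(2,
  3),(14,3),(2,4),(3,11),(15,0),(4,28)]⟩⟩,.a ⟨true,(-1),⟨0,[(4,0),(17,0)]⟩,⟨2,[(0,2),(5,0),(15,1),
  (1,0),(8,0),(15,2)]⟩⟩ ⟨true,0,⟨0,[]⟩,⟨1,[(35,0),(0,0)]⟩⟩ ⟨false,0,⟨2,[(23,1),(20,0),(0,0),(2,0)]⟩,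
  ⟨5,[(20,1),(0,1),(26,0),(0,4)]⟩⟩,.o ⟨false,0,⟨0,[(4,0)]⟩,⟨0,[(28,0)]⟩⟩,.o ⟨false,0,⟨1,[(4,0),(0,
  0),(30,0)]⟩,⟨0,[(0,0)]⟩⟩]⟩)) (.Q [0,0,1,0,-1,0,0,0,1,0,0,1] (.p true [0,0,0,0,1] [] (⟨0,[(30,0)]⟩,
  ⟨0,[(29,0)]⟩) .k 0 (⟨0,[]⟩,⟨0,[]⟩) .k .k) (.R ⟨0,false,false,false,[0,1,0,0,-1],[0,1],[0,1],(⟨0,
  [(1,0)]⟩,⟨0,[(31,0),(9,0)]⟩),(⟨0,[(42,0)]⟩,⟨0,[(41,0)]⟩),⟨0,[(31,0)]⟩,(.r (-1) ⟨9,[(10,3),(10,1),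
  (6,2),(0,2),(3,1),(2,1),(12,6)]⟩ ⟨2,[(23,1),(20,0),(0,0),(2,0)]⟩),.k,.k,.k,.k,.k,⟨true,0,⟨2,[(23,
  1),(20,0),(0,0),(2,0)]⟩,⟨3,[(24,1),(10,0),(0,0),(10,1),(1,1)]⟩⟩,⟨false,0,⟨0,[(0,0),(47,0)]⟩,⟨0,
  [(28,0)]⟩⟩,⟨false,0,⟨2,[(23,1),(20,0),(0,0),(2,0)]⟩,⟨8,[(10,1),(10,1),(2,0),(10,0),(0,0),(12,
  9)]⟩⟩,⟨true,(-1),⟨1,[(0,0),(3,0),(17,0),(22,0)]⟩,⟨0,[(28,0)]⟩⟩,⟨false,0,⟨0,[]⟩,⟨0,[]⟩⟩,⟨false,0,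
  ⟨0,[]⟩,⟨0,[]⟩⟩,[.o ⟨false,1,⟨5,[(20,1),(0,1),(22,2),(3,0),(0,1)]⟩,⟨0,[(47,0)]⟩⟩,.e ⟨false,1,⟨1,
  [(28,0),(0,0),(18,0)]⟩,⟨0,[]⟩⟩ ⟨false,0,⟨0,[(0,0),(44,0),(3,0)]⟩,⟨2,[(23,1),(4,2),(15,0),(0,0),(2,
  0)]⟩⟩,.o ⟨false,2,⟨1,[(28,1),(15,0),(3,0)]⟩,⟨0,[(0,0)]⟩⟩,.a ⟨true,1,⟨0,[(28,0)]⟩,⟨0,[(0,0),(21,0),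
  (22,0),(3,0)]⟩⟩ ⟨true,0,⟨5,[(23,1),(20,0),(0,3),(2,0)]⟩,⟨1,[(35,0),(0,0)]⟩⟩ ⟨false,0,⟨0,[(0,0),
  (44,0),(3,0)]⟩,⟨0,[(28,0),(18,0)]⟩⟩]⟩) (.R ⟨0,false,false,false,[0,0,0,0,1],[0,1],[1,0,2,1],(⟨0,
  [(31,0)]⟩,⟨0,[(30,0)]⟩),(⟨0,[(42,0)]⟩,⟨0,[(41,0)]⟩),⟨0,[(1,0)]⟩,.k,.k,(.r 0 ⟨2,[(23,1),(20,0),(0,
  0),(2,0)]⟩ ⟨9,[(10,3),(10,1),(6,2),(0,2),(3,1),(2,1),(12,6)]⟩),(.r 0 ⟨2,[(23,1),(20,0),(0,0),(2,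
  0)]⟩ ⟨9,[(10,3),(10,1),(6,2),(0,2),(3,1),(2,1),(12,6)]⟩),.k,.k,⟨false,0,⟨0,[]⟩,⟨1,[(28,0),(0,0),
  (18,0)]⟩⟩,⟨true,1,⟨0,[(0,0)]⟩,⟨3,[(2,2),(21,0),(4,0),(5,0),(0,0)]⟩⟩,⟨true,0,⟨3,[(24,1),(10,0),(0,
  0),(10,1),(1,1)]⟩,⟨1,[(23,1),(20,0),(0,1),(2,0)]⟩⟩,⟨false,2,⟨26,[(0,14),(2,1),(2,3),(14,3),(2,4),
  (3,11),(15,0),(4,28)]⟩,⟨0,[(4,0),(17,0)]⟩⟩,⟨false,0,⟨0,[]⟩,⟨0,[]⟩⟩,⟨false,0,⟨0,[]⟩,⟨0,[]⟩⟩,[.o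
  ⟨false,1,⟨5,[(20,1),(0,1),(22,2),(3,0),(0,1)]⟩,⟨0,[(47,0)]⟩⟩,.a ⟨true,1,⟨5,[(20,1),(0,1),(26,0),
  (0,4)]⟩,⟨0,[(22,0)]⟩⟩ ⟨true,0,⟨3,[(24,1),(10,0),(0,0),(10,1),(1,1)]⟩,⟨2,[(23,1),(20,0),(0,0),(2,
  0)]⟩⟩ ⟨false,2,⟨11,[(0,9),(2,1),(2,3),(14,3),(6,1),(15,0),(3,0),(0,7)]⟩,⟨0,[(4,0),(17,0)]⟩⟩,.o
  ⟨false,0,⟨0,[(4,0)]⟩,⟨0,[(28,0)]⟩⟩,.o ⟨false,0,⟨1,[(4,0),(0,0),(30,0)]⟩,⟨0,[(0,0)]⟩⟩]⟩))) (.Q [0,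
  0,0,0,0,-1,0,0,0,0,0,1] (.ed false [1,-1,0,0,1] .k) (.Q [0,2,0,-1,-1,0,0,0,1,-1,0,1] (.p true [0,
  0,0,0,1] [1] (⟨0,[(30,0)]⟩,⟨0,[(29,0)]⟩) .k 1 (⟨0,[]⟩,⟨0,[]⟩) .k .k) (.S ⟨1,0,[0,2,0,-1],[0,0,0,0,
  1],[1,1],(⟨0,[(31,0)]⟩,⟨0,[(30,0)]⟩),⟨0,[(1,0)]⟩,.k,(.r 0 ⟨7,[(0,1),(1,1),(20,3),(20,0),(3,2)]⟩
  ⟨9,[(10,3),(10,1),(6,2),(0,2),(3,1),(2,1),(12,6)]⟩),⟨true,0,⟨0,[]⟩,⟨0,[(51,0)]⟩⟩,⟨false,0,⟨0,[(47,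
  0)]⟩,⟨5,[(20,1),(0,1),(26,0),(0,4)]⟩⟩,⟨false,1,⟨5,[(20,1),(0,1),(26,0),(0,4)]⟩,⟨0,[(47,0)]⟩⟩,
  ⟨true,0,⟨0,[(51,0)]⟩,⟨0,[]⟩⟩,[.o ⟨false,(-1),⟨0,[(0,0)]⟩,⟨15,[(2,6),(7,1),(10,1),(2,0),(3,8),(20,
  16)]⟩⟩,.a ⟨true,(-1),⟨0,[(4,0),(17,0)]⟩,⟨3,[(2,2),(8,0),(10,1),(1,0),(3,0),(8,0),(3,1),(7,2)]⟩⟩
  ⟨true,0,⟨0,[]⟩,⟨1,[(35,0),(0,0)]⟩⟩ ⟨false,0,⟨7,[(0,1),(1,1),(20,3),(20,0),(3,2)]⟩,⟨5,[(20,1),(0,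
  1),(26,0),(0,4)]⟩⟩,.o ⟨false,0,⟨0,[(4,0)]⟩,⟨0,[(28,0)]⟩⟩,.o ⟨false,0,⟨1,[(4,0),(0,0),(30,0)]⟩,⟨0,
  [(2,0),(44,0)]⟩⟩]⟩) (.R ⟨2,true,false,false,[0,1],[0,0,0,0,1],[0,1,1],(⟨0,[]⟩,⟨0,[]⟩),(⟨0,[(31,
  0)]⟩,⟨0,[(30,0)]⟩),⟨0,[]⟩,.k,.k,.k,(.r (-1) ⟨9,[(10,3),(10,1),(6,2),(0,2),(3,1),(2,1),(12,6)]⟩ ⟨2,
  [(23,1),(20,0),(0,0),(2,0)]⟩),.k,.k,⟨true,0,⟨1,[(35,0),(0,0)]⟩,⟨0,[]⟩⟩,⟨false,0,⟨0,[(29,0)]⟩,⟨0,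
  [(2,0),(44,0)]⟩⟩,⟨false,0,⟨0,[(47,0)]⟩,⟨5,[(20,1),(0,1),(26,0),(0,4)]⟩⟩,⟨true,(-1),⟨0,[(4,0),(17,
  0)]⟩,⟨27,[(0,1),(1,10),(7,3),(10,3),(2,0),(3,14),(15,0)]⟩⟩,⟨true,0,⟨0,[(51,0)]⟩,⟨0,[]⟩⟩,⟨false,0,
  ⟨0,[(29,0)]⟩,⟨0,[(0,0),(21,0),(21,0)]⟩⟩,[]⟩)) (.R ⟨0,false,false,false,[0,0,0,0,1],[0,1],[1,0,2,
  1],(⟨0,[(30,0)]⟩,⟨0,[(29,0)]⟩),(⟨0,[(41,0)]⟩,⟨0,[(40,0)]⟩),⟨0,[(0,0)]⟩,.k,.k,(.r 0 ⟨2,[(22,1),(20,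
  0),(0,0),(2,0)]⟩ ⟨9,[(9,3),(10,1),(6,2),(0,2),(3,1),(2,1),(12,6)]⟩),(.r 0 ⟨2,[(22,1),(20,0),(0,0),
  (2,0)]⟩ ⟨9,[(9,3),(10,1),(6,2),(0,2),(3,1),(2,1),(12,6)]⟩),.k,.k,⟨false,0,⟨0,[]⟩,⟨1,[(27,0),(0,0),
  (18,0)]⟩⟩,⟨true,1,⟨0,[(1,0),(44,0)]⟩,⟨6,[(3,4),(0,0),(17,5),(0,3),(4,0),(6,0),(12,2)]⟩⟩,⟨true,0,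
  ⟨3,[(23,1),(10,0),(0,0),(10,1),(1,1)]⟩,⟨1,[(22,1),(20,0),(0,1),(2,0)]⟩⟩,⟨false,2,⟨15,[(1,6),(7,1),
  (10,1),(2,0),(3,8),(20,16)]⟩,⟨0,[(3,0),(17,0)]⟩⟩,⟨false,0,⟨0,[]⟩,⟨0,[]⟩⟩,⟨false,0,⟨0,[]⟩,⟨0,[]⟩⟩,
  [.o ⟨false,1,⟨5,[(19,1),(0,1),(22,2),(3,0),(0,1)]⟩,⟨0,[(46,0)]⟩⟩,.a ⟨true,1,⟨5,[(19,1),(0,1),(26,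
  0),(0,4)]⟩,⟨0,[(21,0)]⟩⟩ ⟨true,0,⟨3,[(23,1),(10,0),(0,0),(10,1),(1,1)]⟩,⟨2,[(22,1),(20,0),(0,0),
  (2,0)]⟩⟩ ⟨false,2,⟨5,[(1,2),(17,0),(0,0),(6,2),(19,1),(0,3)]⟩,⟨0,[(3,0),(17,0)]⟩⟩,.o ⟨false,0,⟨0,
  [(3,0)]⟩,⟨0,[(27,0)]⟩⟩,.o ⟨false,0,⟨1,[(3,0),(0,0),(30,0)]⟩,⟨0,[(1,0),(44,0)]⟩⟩]⟩))))))) (.R ⟨0,
  false,false,false,[0,-1,1],[1,-1],[],(⟨0,[(20,0)]⟩,⟨0,[(0,0),(33,0)]⟩),(⟨0,[(34,0)]⟩,⟨0,[(35,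
  0)]⟩),⟨0,[(0,0)]⟩,.k,.k,(.r (-1) ⟨1,[(2,0),(9,0),(5,0),(21,1),(0,0)]⟩ ⟨0,[(3,0)]⟩),.k,.k,.k,⟨true,
  0,⟨8,[(3,1),(10,1),(2,0),(10,0),(0,0),(12,0)]⟩,⟨0,[(40,0)]⟩⟩,⟨false,0,⟨0,[(25,0)]⟩,⟨5,[(2,3),(0,
  1),(23,1),(9,0),(4,0)]⟩⟩,⟨false,1,⟨1,[(13,0),(13,0),(0,0),(13,1)]⟩,⟨0,[(12,0)]⟩⟩,⟨true,0,⟨0,[(9,
  0),(5,0),(26,0)]⟩,⟨27,[(1,5),(0,7),(5,5),(1,2),(3,4),(21,3),(0,6)]⟩⟩,⟨false,0,⟨0,[]⟩,⟨0,[]⟩⟩,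
  ⟨false,0,⟨0,[]⟩,⟨0,[]⟩⟩,[.o ⟨false,0,⟨0,[(40,0)]⟩,⟨5,[(13,1),(0,1),(22,2),(3,0),(0,1)]⟩⟩,.e
  ⟨false,1,⟨1,[(41,0),(0,0)]⟩,⟨0,[(44,0)]⟩⟩ ⟨false,1,⟨5,[(12,1),(3,1),(8,3),(1,1),(13,2),(0,4)]⟩,⟨4,
  [(1,1),(0,0),(10,1),(13,0),(9,0)]⟩⟩,.a ⟨true,0,⟨0,[(28,0)]⟩,⟨0,[(25,0)]⟩⟩ ⟨false,1,⟨1,[(21,0),(0,
  0),(19,0)]⟩,⟨0,[]⟩⟩ ⟨true,0,⟨2,[(12,0),(3,0),(8,1),(1,0),(14,0)]⟩,⟨4,[(1,1),(0,0),(10,1),(13,0),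
  (9,0)]⟩⟩,.o ⟨false,0,⟨3,[(1,1),(1,1),(33,0),(2,5),(1,0)]⟩,⟨1,[(25,1),(11,0),(3,0)]⟩⟩]⟩))) (.Q [0,
  0,0,0,0,0,2,2,0,-1,2] (.p true [0,0,1] [1,0,-1] (⟨0,[(29,0)]⟩,⟨0,[(28,0)]⟩) .k 2 (⟨0,[(28,0)]⟩,⟨0,
  [(29,0)]⟩) .k (.r 1 ⟨4,[(5,3),(4,5),(25,1),(3,2)]⟩ ⟨0,[(25,1),(0,1),(12,0),(0,0)]⟩)) (.R ⟨0,false,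
  false,false,[1,-1,-1],[0,-1,1],[1,0,1],(⟨0,[(18,0)]⟩,⟨0,[(3,0),(29,0)]⟩),(⟨0,[(19,0)]⟩,⟨1,[(3,0),
  (25,2)]⟩),⟨0,[(3,0)]⟩,.k,.k,(.r (-2) ⟨1,[(26,1),(0,1),(11,3),(0,2),(0,0)]⟩ ⟨13,[(6,8),(6,4),(2,3),
  (20,1),(3,7)]⟩),.k,.k,.k,⟨true,0,⟨0,[(2,0),(36,0)]⟩,⟨0,[(11,0)]⟩⟩,⟨false,2,⟨1,[(27,3),(8,0),(3,
  2)]⟩,⟨0,[(1,0),(9,0)]⟩⟩,⟨false,(-1),⟨0,[(6,0),(34,0)]⟩,⟨1,[(26,1),(0,1),(11,1),(0,2),(0,0)]⟩⟩,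
  ⟨true,0,⟨0,[(0,0)]⟩,⟨4,[(1,1),(10,1),(2,2),(10,5),(13,1),(0,2)]⟩⟩,⟨false,0,⟨0,[]⟩,⟨0,[]⟩⟩,⟨false,
  0,⟨0,[]⟩,⟨0,[]⟩⟩,[.e ⟨false,0,⟨0,[]⟩,⟨1,[(20,0),(0,0),(18,0)]⟩⟩ ⟨false,2,⟨5,[(0,1),(24,1),(1,5),
  (8,1),(2,5),(0,8),(0,0)]⟩,⟨0,[(1,0)]⟩⟩,.o ⟨false,1,⟨2,[(0,0),(24,0),(10,0),(2,2),(1,1)]⟩,⟨0,[(8,
  0)]⟩⟩,.a ⟨true,(-1),⟨17,[(1,4),(4,4),(7,4),(0,3),(0,0),(0,3),(23,6)]⟩,⟨0,[(27,0),(12,0)]⟩⟩ ⟨true,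
  0,⟨1,[(27,0),(0,0)]⟩,⟨5,[(15,1),(20,0),(0,3),(2,0)]⟩⟩ ⟨false,2,⟨2,[(0,0),(24,0),(1,2),(8,0),(2,2),
  (0,2),(0,1)]⟩,⟨0,[(1,0)]⟩⟩,.o ⟨false,(-1),⟨3,[(1,1),(4,1),(20,0),(0,0),(7,0),(2,3),(1,0)]⟩,⟨1,
  [(27,1),(8,0),(3,2)]⟩⟩]⟩) (.Q [0,0,0,-1,0,0,2,2,0,-1,2] (.p true [0,0,1] [1,0,-1] (⟨0,[(30,0)]⟩,
  ⟨0,[(29,0)]⟩) .k 2 (⟨0,[(29,0)]⟩,⟨0,[(30,0)]⟩) .k (.r 1 ⟨4,[(6,3),(4,5),(25,1),(3,2)]⟩ ⟨1,[(0,1),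
  (19,0),(0,0),(5,3),(8,0),(3,1)]⟩)) (.R ⟨1,true,false,false,[0,0,1],[1,0,-1],[1,1,0,0,0,0,0,1],(⟨0,
  [(31,0)]⟩,⟨0,[(30,0)]⟩),(⟨0,[(30,0)]⟩,⟨0,[(31,0)]⟩),⟨0,[(20,0)]⟩,.k,.k,.k,.k,(.r 0 ⟨9,[(0,1),(6,
  0),(4,11),(1,2),(3,1),(23,1)]⟩ ⟨1,[(1,1),(26,3),(8,0),(0,1),(3,0)]⟩),.k,⟨false,(-1),⟨4,[(7,2),(4,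
  6),(25,3),(3,0)]⟩,⟨1,[(1,1),(26,3),(8,0),(3,1),(0,0)]⟩⟩,⟨true,(-1),⟨0,[(2,0),(9,0)]⟩,⟨1,[(28,3),
  (8,0),(3,0)]⟩⟩,⟨false,0,⟨0,[]⟩,⟨1,[(21,0),(0,0),(19,0)]⟩⟩,⟨true,0,⟨0,[(1,0)]⟩,⟨6,[(0,6),(12,1),(0,
  1),(21,0),(1,0)]⟩⟩,⟨true,0,⟨6,[(13,1),(0,1),(21,0),(1,0)]⟩,⟨0,[(40,0)]⟩⟩,⟨false,1,⟨3,[(1,2),(11,
  1),(4,0),(22,0),(0,2)]⟩,⟨0,[(0,0)]⟩⟩,[]⟩) (.Q [0,0,0,2,0,0,-2,-2,0,1,-2] (.p false [0,0,1] [1,0,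
  -1] (⟨0,[(31,0)]⟩,⟨0,[(30,0)]⟩) .k 2 (⟨0,[(30,0)]⟩,⟨0,[(31,0)]⟩) .k (.r 1 ⟨4,[(7,3),(4,5),(25,1),
  (3,2)]⟩ ⟨1,[(1,1),(19,0),(0,0),(5,3),(8,0),(3,1)]⟩)) (.Q [0,0,-1,0,1,0,1,0,-1,0,1,-1] (.p true [0,
  0,1] [0,0,0,0,1] (⟨0,[(32,0)]⟩,⟨0,[(31,0)]⟩) .k 2 (⟨0,[(25,0)]⟩,⟨0,[(24,0)]⟩) .k (.r 0 ⟨4,[(8,1),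
  (4,2),(25,0),(3,3)]⟩ ⟨1,[(22,0),(0,0),(4,1),(0,1),(12,0)]⟩)) (.Q [0,1,0,0,0,0,0,0,1,-1,0,1] (.p
  true [0,0,0,0,1] [1] (⟨0,[(26,0)]⟩,⟨0,[(25,0)]⟩) .k 1 (⟨0,[]⟩,⟨0,[]⟩) .k .k) (.R ⟨0,false,false,
  true,[1,-1,-1],[1,0,0,0,-1],[0,1],(⟨0,[(22,0)]⟩,⟨0,[(7,0),(29,0)]⟩),(⟨0,[(26,0)]⟩,⟨0,[(27,0)]⟩),
  ⟨0,[(7,0)]⟩,.k,.k,(.r (-2) ⟨3,[(1,3),(2,1),(19,0),(0,4),(14,0),(2,7),(0,1)]⟩ ⟨13,[(10,8),(6,4),(2,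
  3),(20,1),(3,7)]⟩),(.r (-1) ⟨3,[(0,2),(0,3),(2,1),(14,0),(4,0),(0,1),(17,1)]⟩ ⟨1,[(10,0),(6,0),
  (27,1)]⟩),.k,.k,⟨false,0,⟨5,[(19,1),(20,0),(0,3),(2,0)]⟩,⟨1,[(24,0),(0,0),(19,0)]⟩⟩,⟨true,1,⟨0,
  [(1,0)]⟩,⟨3,[(5,1),(4,1),(14,3),(5,0),(0,0),(7,0),(2,3),(1,0)]⟩⟩,⟨false,(-1),⟨4,[(10,3),(4,0),(25,
  1),(3,2)]⟩,⟨3,[(1,3),(2,1),(19,0),(0,4),(14,0),(2,3),(1,1)]⟩⟩,⟨true,0,⟨4,[(1,4),(8,3),(4,0),(25,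
  1),(3,2)]⟩,⟨3,[(0,2),(3,1),(14,0),(4,0),(0,1),(17,1)]⟩⟩,⟨false,0,⟨0,[]⟩,⟨0,[]⟩⟩,⟨false,0,⟨0,[]⟩,
  ⟨0,[]⟩⟩,[.a ⟨true,0,⟨6,[(1,4),(3,1),(4,1),(7,3),(5,1),(3,0),(16,2)]⟩,⟨0,[(25,0)]⟩⟩ ⟨false,0,⟨5,
  [(19,1),(20,0),(0,3),(2,0)]⟩,⟨1,[(24,0),(0,0),(19,0)]⟩⟩ ⟨true,1,⟨0,[(1,0)]⟩,⟨3,[(5,1),(4,1),(14,
  3),(5,0),(0,0),(7,0),(2,3),(1,0)]⟩⟩,.o ⟨false,1,⟨5,[(1,3),(3,1),(4,0),(2,0),(10,1),(15,0),(2,1),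
  (1,3)]⟩,⟨0,[(0,0)]⟩⟩,.e ⟨true,0,⟨0,[(47,0)]⟩,⟨0,[]⟩⟩ ⟨true,1,⟨0,[(1,0)]⟩,⟨5,[(0,2),(4,1),(4,0),(2,
  0),(5,0),(5,2),(6,1)]⟩⟩,.o ⟨false,(-1),⟨3,[(5,1),(4,1),(20,0),(0,0),(7,0),(2,3),(1,0)]⟩,⟨1,[(1,1),
  (23,1),(14,0),(3,0)]⟩⟩]⟩) (.R ⟨0,false,false,true,[1,-1,-1],[1,0,0,0,-1],[0,1],(⟨0,[(22,0)]⟩,⟨0,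
  [(7,0),(29,0)]⟩),(⟨0,[(26,0)]⟩,⟨0,[(27,0)]⟩),⟨0,[(7,0)]⟩,.k,.k,(.r (-2) ⟨3,[(1,3),(2,1),(19,0),(0,
  4),(14,0),(2,7),(0,1)]⟩ ⟨13,[(10,8),(6,4),(2,3),(20,1),(3,7)]⟩),(.r (-1) ⟨7,[(1,7),(2,1),(14,3),
  (4,0),(0,8),(4,3),(9,2)]⟩ ⟨1,[(10,0),(6,0),(27,1)]⟩),.k,.k,⟨false,0,⟨5,[(19,1),(20,0),(0,3),(2,
  0)]⟩,⟨1,[(24,0),(0,0),(19,0)]⟩⟩,⟨true,1,⟨0,[(1,0)]⟩,⟨3,[(5,1),(4,1),(14,3),(5,0),(0,0),(7,0),(2,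
  3),(1,0)]⟩⟩,⟨false,(-1),⟨4,[(10,3),(4,0),(25,1),(3,2)]⟩,⟨3,[(1,3),(2,1),(19,0),(0,4),(14,0),(2,3),
  (1,1)]⟩⟩,⟨true,0,⟨4,[(1,4),(8,3),(4,0),(25,1),(3,2)]⟩,⟨7,[(4,1),(14,3),(4,0),(0,8),(4,3),(9,2)]⟩⟩,
  ⟨false,0,⟨0,[]⟩,⟨0,[]⟩⟩,⟨false,0,⟨0,[]⟩,⟨0,[]⟩⟩,[.a ⟨true,0,⟨9,[(0,6),(15,0),(0,0),(0,2),(5,2),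
  (14,0)]⟩,⟨0,[(25,0)]⟩⟩ ⟨false,0,⟨5,[(19,1),(20,0),(0,3),(2,0)]⟩,⟨1,[(24,0),(0,0),(19,0)]⟩⟩ ⟨true,
  1,⟨0,[(1,0)]⟩,⟨3,[(5,1),(4,1),(14,3),(5,0),(0,0),(7,0),(2,3),(1,0)]⟩⟩,.e ⟨false,1,⟨1,[(24,0),(0,
  0),(18,0)]⟩,⟨0,[]⟩⟩ ⟨false,2,⟨1,[(1,1),(42,0),(0,0)]⟩,⟨17,[(5,3),(4,4),(2,4),(5,1),(5,17),(4,5),
  (1,3),(7,2)]⟩⟩,.e ⟨true,0,⟨0,[(47,0)]⟩,⟨0,[]⟩⟩ ⟨true,1,⟨0,[(1,0)]⟩,⟨17,[(5,3),(4,4),(2,4),(5,1),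
  (5,17),(4,5),(1,3),(7,2)]⟩⟩,.o ⟨false,(-1),⟨3,[(5,1),(4,1),(20,0),(0,0),(7,0),(2,3),(1,0)]⟩,⟨1,
  [(1,1),(23,1),(14,0),(3,0)]⟩⟩]⟩)) (.Q [0,0,0,-1,-1,0,0,0,1,0,0,1] (.p true [0,0,0,0,1] [] (⟨0,
  [(26,0)]⟩,⟨0,[(25,0)]⟩) .k 0 (⟨0,[]⟩,⟨0,[]⟩) .k .k) (.R ⟨2,true,false,false,[0,1],[0,0,0,0,1],[1,
  0,1,1],(⟨0,[]⟩,⟨0,[]⟩),(⟨0,[(27,0)]⟩,⟨0,[(26,0)]⟩),⟨0,[]⟩,.k,.k,.k,(.r (-1) ⟨9,[(6,3),(10,1),(6,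
  2),(0,2),(3,1),(2,1),(12,6)]⟩ ⟨2,[(19,1),(20,0),(0,0),(2,0)]⟩),.k,.k,⟨false,1,⟨5,[(16,1),(0,1),
  (26,0),(0,4)]⟩,⟨2,[(19,1),(20,0),(0,0),(2,0)]⟩⟩,⟨true,(-1),⟨4,[(0,2),(0,0),(18,0),(4,0),(5,0)]⟩,
  ⟨0,[(24,0)]⟩⟩,⟨true,0,⟨0,[]⟩,⟨0,[(47,0)]⟩⟩,⟨false,(-1),⟨0,[(0,0)]⟩,⟨5,[(16,1),(0,1),(6,5),(19,0),
  (0,4)]⟩⟩,⟨false,1,⟨5,[(16,1),(0,1),(26,0),(0,4)]⟩,⟨0,[(43,0)]⟩⟩,⟨true,(-1),⟨12,[(0,8),(9,1),(5,1),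
  (8,3),(13,2),(1,2)]⟩,⟨0,[(24,0)]⟩⟩,[]⟩) (.Q [0,0,0,0,0,-2,0,0,0,0,1] (.p true [0,0,1] [] (⟨0,[(34,
  0)]⟩,⟨0,[(33,0)]⟩) .k 0 (⟨0,[]⟩,⟨0,[]⟩) .k .k) (.Q [0,0,-2,0,0,0,-1,0,0,1,-1] (.p false [0,0,1]
  [1] (⟨0,[(35,0)]⟩,⟨0,[(34,0)]⟩) .k 1 (⟨0,[]⟩,⟨0,[]⟩) .k .k) (.S ⟨1,0,[0,0,-1,-2,0,0,0,1],[0,-1,1],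
  [1,1,-1,-1,0,0,0,1],(⟨0,[(25,0)]⟩,⟨1,[(9,0),(25,2)]⟩),⟨0,[(1,0)]⟩,.k,(.r (-1) ⟨1,[(17,1),(8,0),(0,
  0),(17,1),(0,0)]⟩ ⟨0,[(8,0)]⟩),⟨false,0,⟨0,[]⟩,⟨1,[(26,0),(0,0),(19,0)]⟩⟩,⟨true,0,⟨0,[(45,0)]⟩,⟨6,
  [(18,1),(0,1),(21,0),(1,0)]⟩⟩,⟨true,0,⟨6,[(18,1),(0,1),(21,0),(1,0)]⟩,⟨0,[(45,0)]⟩⟩,⟨false,1,⟨1,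
  [(26,0),(0,0),(19,0)]⟩,⟨0,[]⟩⟩,[.a ⟨true,0,⟨0,[(17,0),(15,0),(11,0)]⟩,⟨0,[(0,0),(7,0)]⟩⟩ ⟨false,0,
  ⟨0,[(15,0),(30,0)]⟩,⟨7,[(6,1),(11,3),(7,0),(0,0),(5,3),(8,0),(4,5)]⟩⟩ ⟨true,0,⟨0,[(17,0),(27,0)]⟩,
  ⟨0,[(8,0)]⟩⟩,.o ⟨false,1,⟨1,[(17,1),(15,1),(8,0),(2,1),(1,0)]⟩,⟨0,[(10,0)]⟩⟩,.a ⟨true,0,⟨0,[(33,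
  0)]⟩,⟨0,[(30,0)]⟩⟩ ⟨false,0,⟨0,[(17,0)]⟩,⟨7,[(6,1),(11,3),(7,0),(0,0),(5,3),(8,0),(4,5)]⟩⟩ ⟨true,
  0,⟨0,[(17,0),(27,0)]⟩,⟨0,[(18,0)]⟩⟩,.a ⟨true,0,⟨1,[(33,2),(0,0)]⟩,⟨0,[(0,0)]⟩⟩ ⟨true,0,⟨0,[(15,0),
  (30,0)]⟩,⟨9,[(6,1),(0,1),(0,3),(24,8),(0,0),(7,1)]⟩⟩ ⟨false,1,⟨1,[(17,1),(27,1),(0,0),(0,0)]⟩,⟨0,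
  [(8,0)]⟩⟩]⟩) (.Q [0,0,-1,0,0,0,-1,0,-1,1,-1,-1] (.p false [0,0,1] [1,0,0,0,-1] (⟨0,[(36,0)]⟩,⟨0,
  [(35,0)]⟩) .k 2 (⟨0,[(28,0)]⟩,⟨0,[(29,0)]⟩) .k (.r 1 ⟨1,[(12,1),(7,5),(21,2),(0,3),(3,4)]⟩ ⟨3,[(6,
  1),(19,2),(0,2),(5,3),(8,0),(3,1),(0,1)]⟩)) (.Q [0,0,0,0,0,-1,0,0,0,0,0,1] (.ed false [1,-1,0,0,
  1] .k) (.S ⟨1,0,[0,0,1],[1,1,0,0,-1],[0,-1,1],(⟨1,[(11,0),(18,1),(6,0)]⟩,⟨0,[(0,0)]⟩),⟨0,[(30,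
  0)]⟩,(.r (-1) ⟨2,[(4,0),(5,0),(18,0),(3,0),(2,0),(12,1)]⟩ ⟨2,[(23,1),(20,0),(0,0),(2,0)]⟩),.k,
  ⟨true,0,⟨0,[(47,0)]⟩,⟨6,[(20,1),(0,1),(21,0),(1,0)]⟩⟩,⟨false,0,⟨0,[(47,0)]⟩,⟨5,[(20,1),(0,1),(26,
  0),(0,4)]⟩⟩,⟨false,1,⟨1,[(28,0),(0,0),(19,0)]⟩,⟨0,[]⟩⟩,⟨true,0,⟨0,[(51,0)]⟩,⟨0,[]⟩⟩,[.a ⟨true,0,
  ⟨0,[(1,0),(33,0)]⟩,⟨0,[(29,0)]⟩⟩ ⟨false,1,⟨1,[(28,0),(0,0),(19,0)]⟩,⟨5,[(23,1),(20,0),(0,3),(2,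
  0)]⟩⟩ ⟨true,0,⟨1,[(35,0),(0,0)]⟩,⟨0,[]⟩⟩,.o ⟨false,1,⟨1,[(1,1),(33,1),(8,0),(4,0)]⟩,⟨5,[(2,0),(2,
  0),(16,2),(6,4),(14,3),(0,2)]⟩⟩,.o ⟨false,1,⟨1,[(1,1),(33,1),(8,0),(3,0)]⟩,⟨2,[(2,0),(2,0),(23,1),
  (14,0)]⟩⟩,.e ⟨false,1,⟨0,[(49,0)]⟩,⟨0,[(51,0)]⟩⟩ ⟨false,1,⟨1,[(28,0),(0,0),(19,0)]⟩,⟨0,[]⟩⟩]⟩)
  (.R ⟨0,false,false,false,[0,0,0,0,1],[0,1],[],(⟨0,[(31,0)]⟩,⟨0,[(30,0)]⟩),(⟨0,[(42,0)]⟩,⟨0,[(41,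
  0)]⟩),⟨0,[(0,0)]⟩,.k,.k,(.r 0 ⟨2,[(23,1),(20,0),(0,0),(2,0)]⟩ ⟨2,[(4,0),(5,0),(18,0),(3,0),(2,0),
  (12,1)]⟩),(.r 0 ⟨2,[(23,1),(20,0),(0,0),(2,0)]⟩ ⟨2,[(4,0),(5,0),(18,0),(3,0),(2,0),(12,1)]⟩),.k,
  .k,⟨false,1,⟨0,[(47,0),(0,0)]⟩,⟨8,[(10,1),(10,1),(2,0),(10,0),(0,0),(12,0)]⟩⟩,⟨true,1,⟨1,[(1,1),
  (33,1),(8,0),(3,0)]⟩,⟨0,[(5,0),(29,0)]⟩⟩,⟨false,1,⟨0,[(49,0)]⟩,⟨0,[(51,0)]⟩⟩,⟨true,1,⟨0,[(1,0),(0,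
  0),(42,0),(3,0)]⟩,⟨5,[(2,0),(2,0),(16,8),(6,4),(14,3),(0,2)]⟩⟩,⟨false,0,⟨0,[]⟩,⟨0,[]⟩⟩,⟨false,0,
  ⟨0,[]⟩,⟨0,[]⟩⟩,[.o ⟨false,1,⟨5,[(20,1),(0,1),(22,2),(3,0),(0,1)]⟩,⟨0,[(47,0)]⟩⟩,.a ⟨true,1,⟨5,
  [(20,1),(0,1),(26,0),(0,4)]⟩,⟨0,[(22,0)]⟩⟩ ⟨false,1,⟨1,[(48,0),(0,0)]⟩,⟨0,[(51,0)]⟩⟩ ⟨true,1,⟨0,
  [(1,0),(0,0),(42,0),(3,0)]⟩,⟨2,[(2,0),(2,0),(16,2),(6,1),(14,0)]⟩⟩,.e ⟨false,1,⟨1,[(28,0),(0,0),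
  (19,0)]⟩,⟨0,[]⟩⟩ ⟨false,1,⟨0,[(1,0),(0,0),(42,0),(3,0)]⟩,⟨0,[(29,0),(17,0)]⟩⟩,.o ⟨false,0,⟨2,[(2,
  0),(2,0),(23,1),(14,0)]⟩,⟨1,[(1,1),(33,1),(8,0),(3,0)]⟩⟩]⟩)) (.Q [0,0,0,0,0,-1,0,0,0,0,0,1] (.ed
  false [1,-1,0,0,1] .k) (.Q [0,0,1,0,-1,0,0,0,1,0,0,1] (.p true [0,0,0,0,1] [] (⟨0,[(31,0)]⟩,⟨0,
  [(30,0)]⟩) .k 0 (⟨0,[]⟩,⟨0,[]⟩) .k .k) (.S ⟨1,0,[0,1,0,-1],[0,0,0,0,1],[1,2],(⟨0,[(32,0)]⟩,⟨0,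
  [(31,0)]⟩),⟨0,[(1,0)]⟩,.k,(.r 0 ⟨2,[(24,1),(20,0),(0,0),(2,0)]⟩ ⟨2,[(5,0),(5,0),(18,0),(3,0),(2,
  0),(12,1)]⟩),⟨false,0,⟨0,[]⟩,⟨1,[(29,0),(0,0),(19,0)]⟩⟩,⟨true,0,⟨0,[(48,0)]⟩,⟨6,[(21,1),(0,1),(21,
  0),(1,0)]⟩⟩,⟨true,0,⟨6,[(21,1),(0,1),(21,0),(1,0)]⟩,⟨0,[(48,0)]⟩⟩,⟨false,1,⟨1,[(29,0),(0,0),(19,
  0)]⟩,⟨0,[]⟩⟩,[.e ⟨false,0,⟨0,[(44,0)]⟩,⟨0,[(50,0)]⟩⟩ ⟨false,0,⟨2,[(24,1),(20,0),(0,0),(2,0)]⟩,⟨5,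
  [(21,1),(0,1),(26,0),(0,4)]⟩⟩,.o ⟨false,0,⟨1,[(0,1),(44,0),(2,1),(0,0)]⟩,⟨0,[(5,0)]⟩⟩,.o ⟨false,0,
  ⟨1,[(0,1),(44,0),(3,0)]⟩,⟨0,[(29,0)]⟩⟩,.a ⟨true,(-1),⟨0,[(0,0)]⟩,⟨1,[(5,1),(17,1),(25,0),(0,0)]⟩⟩
  ⟨false,0,⟨5,[(24,1),(20,0),(0,3),(2,0)]⟩,⟨1,[(36,0),(0,0),(12,1)]⟩⟩ ⟨true,0,⟨2,[(24,1),(20,0),(0,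
  0),(2,0)]⟩,⟨8,[(11,1),(10,1),(2,0),(10,0),(0,0),(12,0)]⟩⟩]⟩) (.Q [0,0,0,0,0,0,0,0,-1,1,0,-1] (.p
  false [0,0,0,0,1] [1] (⟨0,[(32,0)]⟩,⟨0,[(31,0)]⟩) .k 1 (⟨0,[]⟩,⟨0,[]⟩) .k .k) (.S ⟨1,0,[0,0,1],[1,
  1,0,0,-1],[0,-1,1],(⟨1,[(13,0),(18,1),(6,0)]⟩,⟨0,[(2,0)]⟩),⟨0,[(32,0)]⟩,(.r (-1) ⟨2,[(6,0),(5,0),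
  (18,0),(3,0),(2,0),(12,1)]⟩ ⟨2,[(25,1),(20,0),(0,0),(2,0)]⟩),.k,⟨true,0,⟨0,[(49,0)]⟩,⟨6,[(22,1),
  (0,1),(21,0),(1,0)]⟩⟩,⟨false,0,⟨0,[(49,0)]⟩,⟨5,[(22,1),(0,1),(26,0),(0,4)]⟩⟩,⟨false,1,⟨1,[(30,0),
  (0,0),(19,0)]⟩,⟨0,[]⟩⟩,⟨true,0,⟨0,[(53,0)]⟩,⟨0,[]⟩⟩,[.a ⟨true,0,⟨0,[(0,0)]⟩,⟨0,[(31,0)]⟩⟩ ⟨false,
  1,⟨1,[(30,0),(0,0),(19,0)]⟩,⟨5,[(25,1),(20,0),(0,3),(2,0)]⟩⟩ ⟨true,0,⟨1,[(37,0),(0,0)]⟩,⟨0,[]⟩⟩,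
  .o ⟨false,1,⟨1,[(0,1),(45,0),(4,0)]⟩,⟨3,[(3,1),(3,1),(37,1),(0,0),(3,0)]⟩⟩,.o ⟨false,1,⟨0,[(1,
  0)]⟩,⟨3,[(3,1),(3,0),(23,0),(6,0),(7,0)]⟩⟩,.e ⟨false,1,⟨0,[(51,0)]⟩,⟨0,[(53,0)]⟩⟩ ⟨false,1,⟨1,
  [(30,0),(0,0),(19,0)]⟩,⟨0,[]⟩⟩]⟩) (.R ⟨1,false,false,true,[0,0,0,0,1],[1,0,-1],[0,1,0,-1],(⟨0,
  [(33,0)]⟩,⟨0,[(32,0)]⟩),(⟨0,[(39,0)]⟩,⟨0,[(40,0)]⟩),⟨0,[(2,0)]⟩,.k,.k,(.r 0 ⟨2,[(25,1),(20,0),(0,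
  0),(2,0)]⟩ ⟨2,[(6,0),(5,0),(18,0),(3,0),(2,0),(12,1)]⟩),.k,(.r 0 ⟨6,[(21,4),(3,0),(1,0),(7,1),(9,
  1),(0,0)]⟩ ⟨3,[(3,0),(6,0),(11,1),(7,0),(6,0),(13,2)]⟩),.k,⟨false,0,⟨0,[(21,0)]⟩,⟨3,[(3,0),(6,0),
  (11,1),(7,0),(6,0),(12,1),(0,0)]⟩⟩,⟨true,0,⟨9,[(1,8),(4,0),(4,2),(4,2),(7,2),(0,1),(1,1),(23,3)]⟩,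
  ⟨0,[(3,0)]⟩⟩,⟨true,0,⟨0,[(49,0)]⟩,⟨6,[(22,1),(0,1),(21,0),(1,0)]⟩⟩,⟨false,1,⟨2,[(1,1),(4,0),(3,0),
  (0,0),(13,0),(11,0),(13,1)]⟩,⟨4,[(3,4),(12,0),(4,3),(25,2),(3,1)]⟩⟩,⟨false,1,⟨1,[(30,0),(0,0),(19,
  0)]⟩,⟨0,[]⟩⟩,⟨false,1,⟨2,[(1,1),(4,0),(1,0),(2,0),(12,0),(12,0),(13,1)]⟩,⟨0,[(3,0),(17,0)]⟩⟩,[.o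
  ⟨false,0,⟨0,[(36,0)]⟩,⟨4,[(1,4),(1,4),(12,1),(4,2),(25,0),(3,3)]⟩⟩,.a ⟨true,0,⟨3,[(10,1),(2,0),
  (25,0),(3,1)]⟩,⟨4,[(16,0),(4,3),(15,4),(9,2),(3,1)]⟩⟩ ⟨true,0,⟨0,[(49,0)]⟩,⟨8,[(12,1),(10,1),(2,
  0),(10,0),(0,0),(12,0)]⟩⟩ ⟨false,1,⟨3,[(1,3),(8,1),(2,0),(25,0),(3,1)]⟩,⟨4,[(3,4),(12,0),(4,3),
  (25,2),(3,1)]⟩⟩,.o ⟨false,0,⟨0,[(0,0)]⟩,⟨0,[(30,0)]⟩⟩,.o ⟨false,0,⟨3,[(3,1),(3,0),(23,0),(6,0),(7,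
  0)]⟩,⟨0,[(1,0)]⟩⟩]⟩))) (.Q [0,0,1,0,-1,0,0,0,1,0,0,1] (.p true [0,0,0,0,1] [] (⟨0,[(31,0)]⟩,⟨0,
  [(30,0)]⟩) .k 0 (⟨0,[]⟩,⟨0,[]⟩) .k .k) (.R ⟨0,false,false,true,[0,0,0,0,1],[0,1],[],(⟨0,[(32,0)]⟩,
  ⟨0,[(31,0)]⟩),(⟨0,[(43,0)]⟩,⟨0,[(42,0)]⟩),⟨0,[(1,0)]⟩,.k,.k,(.r 0 ⟨2,[(24,1),(20,0),(0,0),(2,0)]⟩
  ⟨2,[(5,0),(5,0),(18,0),(3,0),(2,0),(12,1)]⟩),(.r 0 ⟨2,[(24,1),(20,0),(0,0),(2,0)]⟩ ⟨2,[(5,0),(5,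
  0),(18,0),(3,0),(2,0),(12,1)]⟩),.k,.k,⟨true,1,⟨1,[(48,1),(0,0),(0,0)]⟩,⟨14,[(3,2),(11,4),(5,4),(2,
  2),(0,1),(11,2),(14,1)]⟩⟩,⟨false,2,⟨0,[(29,0),(19,0)]⟩,⟨0,[(0,0)]⟩⟩,⟨false,1,⟨0,[(50,0)]⟩,⟨0,[(52,
  0)]⟩⟩,⟨true,1,⟨0,[(5,0)]⟩,⟨2,[(0,2),(23,1),(20,0),(0,0),(2,0)]⟩⟩,⟨false,0,⟨0,[]⟩,⟨0,[]⟩⟩,⟨false,0,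
  ⟨0,[]⟩,⟨0,[]⟩⟩,[.e ⟨false,1,⟨1,[(29,0),(0,0),(18,0)]⟩,⟨0,[]⟩⟩ ⟨false,1,⟨0,[(29,0),(16,0)]⟩,⟨1,[(0,
  1),(47,1),(0,0),(0,0)]⟩⟩,.o ⟨false,1,⟨5,[(21,1),(0,1),(22,2),(3,0),(0,1)]⟩,⟨0,[(48,0)]⟩⟩,.o
  ⟨false,0,⟨1,[(0,1),(44,0),(3,0)]⟩,⟨0,[(29,0)]⟩⟩,.a ⟨true,(-1),⟨0,[(0,0)]⟩,⟨1,[(5,1),(17,1),(25,0),
  (0,0)]⟩⟩ ⟨false,1,⟨1,[(49,0),(0,0)]⟩,⟨1,[(36,0),(0,0)]⟩⟩ ⟨true,1,⟨0,[(29,0),(16,0)]⟩,⟨0,[(0,0),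
  (47,0)]⟩⟩]⟩) (.Q [0,0,-1,0,1,0,-1,0,-2,0,-1,-2] (.p false [1,-1,0,0,1] [1,0,-1,0,-1] (⟨0,[(32,0),
  (9,0)]⟩,⟨0,[(1,0)]⟩) (.r 0 ⟨2,[(24,1),(20,0),(0,0),(2,0)]⟩ ⟨2,[(5,0),(5,0),(18,0),(3,0),(2,0),(12,
  1)]⟩) 2 (⟨0,[(1,0),(25,0)]⟩,⟨0,[(32,0),(6,0)]⟩) .k (.r 1 ⟨3,[(15,0),(2,1),(3,0),(21,1)]⟩ ⟨1,[(2,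
  0),(6,0),(19,0),(6,0),(12,0),(0,1)]⟩)) (.R ⟨0,false,false,false,[0,1,0,0,-1],[1,0,0,0,-1],[0,-1,
  1],(⟨0,[(2,0)]⟩,⟨0,[(33,0),(9,0)]⟩),(⟨0,[(32,0)]⟩,⟨0,[(33,0)]⟩),⟨0,[(33,0)]⟩,(.r (-1) ⟨2,[(6,0),
  (5,0),(18,0),(3,0),(2,0),(12,1)]⟩ ⟨2,[(25,1),(20,0),(0,0),(2,0)]⟩),.k,.k,.k,.k,.k,⟨true,0,⟨1,[(37,
  0),(0,0)]⟩,⟨0,[]⟩⟩,⟨false,0,⟨1,[(13,0),(25,0),(3,1)]⟩,⟨1,[(46,0),(3,0)]⟩⟩,⟨true,0,⟨0,[(49,0)]⟩,⟨6,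
  [(22,1),(0,1),(21,0),(1,0)]⟩⟩,⟨false,0,⟨0,[(24,0),(26,0)]⟩,⟨5,[(22,1),(0,1),(22,2),(3,0),(0,1)]⟩⟩,
  ⟨false,0,⟨0,[]⟩,⟨0,[]⟩⟩,⟨false,0,⟨0,[]⟩,⟨0,[]⟩⟩,[.o ⟨false,1,⟨1,[(0,0),(36,0),(13,0)]⟩,⟨3,[(3,1),
  (3,1),(37,1),(0,0),(3,0)]⟩⟩,.e ⟨false,1,⟨0,[(51,0)]⟩,⟨0,[(45,0)]⟩⟩ ⟨false,1,⟨1,[(13,0),(25,0),(3,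
  1),(7,1)]⟩,⟨0,[(24,0),(21,0),(0,0)]⟩⟩,.a ⟨true,1,⟨0,[(1,0)]⟩,⟨14,[(3,3),(4,1),(7,3),(7,16),(1,1),
  (4,10),(15,2),(3,11)]⟩⟩ ⟨false,1,⟨1,[(37,0),(0,0),(12,1)]⟩,⟨5,[(25,1),(20,0),(0,3),(2,0)]⟩⟩ ⟨true,
  0,⟨9,[(13,0),(10,5),(1,1),(0,1),(9,3),(1,0),(3,1),(7,7)]⟩,⟨0,[(24,0),(21,0),(0,0)]⟩⟩,.o ⟨false,1,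
  ⟨2,[(0,0),(0,0),(2,0),(41,0)]⟩,⟨0,[(31,0)]⟩⟩]⟩) (.Q [0,0,0,0,0,0,0,0,1,-1,0,1] (.p true [0,0,0,0,
  1] [1] (⟨0,[(33,0)]⟩,⟨0,[(32,0)]⟩) .k 1 (⟨0,[]⟩,⟨0,[]⟩) .k .k) (.R ⟨0,false,false,false,[0,0,0,0,
  1],[0,1],[1,0,2,1],(⟨0,[(34,0)]⟩,⟨0,[(33,0)]⟩),(⟨0,[(45,0)]⟩,⟨0,[(44,0)]⟩),⟨0,[(3,0)]⟩,.k,.k,(.r
  0 ⟨2,[(26,1),(20,0),(0,0),(2,0)]⟩ ⟨2,[(7,0),(5,0),(18,0),(3,0),(2,0),(12,1)]⟩),(.r 0 ⟨2,[(26,1),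
  (20,0),(0,0),(2,0)]⟩ ⟨2,[(7,0),(5,0),(18,0),(3,0),(2,0),(12,1)]⟩),.k,.k,⟨false,0,⟨0,[]⟩,⟨1,[(31,
  0),(0,0),(18,0)]⟩⟩,⟨true,1,⟨0,[(2,0)]⟩,⟨21,[(1,6),(3,5),(2,7),(17,5),(0,3),(11,4),(12,2)]⟩⟩,⟨true,
  0,⟨6,[(5,0),(20,0),(0,2),(10,0),(0,1),(12,3)]⟩,⟨1,[(26,1),(20,0),(0,1),(2,0)]⟩⟩,⟨false,2,⟨0,[(7,
  0),(44,0)]⟩,⟨0,[(0,0),(24,0)]⟩⟩,⟨false,0,⟨0,[]⟩,⟨0,[]⟩⟩,⟨false,0,⟨0,[]⟩,⟨0,[]⟩⟩,[.o ⟨false,1,⟨5,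
  [(23,1),(0,1),(22,2),(3,0),(0,1)]⟩,⟨0,[(50,0)]⟩⟩,.a ⟨true,1,⟨5,[(23,1),(0,1),(26,0),(0,4)]⟩,⟨0,
  [(25,0)]⟩⟩ ⟨true,0,⟨6,[(5,0),(20,0),(0,2),(10,0),(0,1),(12,3)]⟩,⟨2,[(26,1),(20,0),(0,0),(2,0)]⟩⟩
  ⟨false,2,⟨1,[(7,1),(43,0),(0,0)]⟩,⟨0,[(0,0),(24,0)]⟩⟩,.o ⟨false,0,⟨0,[(0,0)]⟩,⟨0,[(31,0)]⟩⟩,.o
  ⟨false,0,⟨1,[(0,0),(3,0),(34,0)]⟩,⟨0,[(2,0)]⟩⟩]⟩) (.R ⟨0,false,false,false,[0,0,0,0,1],[0,0,1],[1,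
  0,1],(⟨0,[(34,0)]⟩,⟨0,[(33,0)]⟩),(⟨0,[(41,0)]⟩,⟨0,[(40,0)]⟩),⟨0,[(3,0)]⟩,.k,.k,(.r 0 ⟨2,[(26,1),
  (20,0),(0,0),(2,0)]⟩ ⟨2,[(7,0),(5,0),(18,0),(3,0),(2,0),(12,1)]⟩),.k,.k,.k,⟨false,1,⟨1,[(4,0),(6,
  0),(19,0),(6,0),(12,0)]⟩,⟨4,[(17,0),(4,3),(25,2),(3,1)]⟩⟩,⟨true,1,⟨0,[(2,0),(35,0)]⟩,⟨0,[(8,0)]⟩⟩,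
  ⟨false,1,⟨1,[(38,0),(0,0),(12,1)]⟩,⟨5,[(26,1),(20,0),(0,3),(2,0)]⟩⟩,⟨true,1,⟨4,[(2,4),(14,1),(4,
  2),(15,4),(9,0),(3,3)]⟩,⟨7,[(1,3),(9,3),(5,0),(2,2),(5,1),(10,3),(9,2),(0,5)]⟩⟩,⟨false,0,⟨0,[]⟩,
  ⟨0,[]⟩⟩,⟨false,0,⟨0,[]⟩,⟨0,[]⟩⟩,[.e ⟨false,0,⟨0,[]⟩,⟨1,[(31,0),(0,0),(18,0)]⟩⟩ ⟨false,1,⟨4,[(2,4),
  (14,0),(4,3),(15,4),(9,2),(3,1)]⟩,⟨3,[(1,0),(6,0),(2,1),(20,0),(14,0),(3,0)]⟩⟩,.o ⟨false,1,⟨4,[(2,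
  4),(1,4),(12,1),(4,2),(25,0),(3,3)]⟩,⟨0,[(37,0)]⟩⟩,.a ⟨true,0,⟨0,[(32,0)]⟩,⟨0,[(0,0)]⟩⟩ ⟨true,0,
  ⟨1,[(38,0),(0,0)]⟩,⟨5,[(26,1),(20,0),(0,3),(2,0)]⟩⟩ ⟨false,1,⟨4,[(2,4),(14,1),(4,2),(15,4),(9,0),
  (3,3)]⟩,⟨3,[(1,0),(6,0),(2,1),(20,0),(14,0),(3,0)]⟩⟩,.o ⟨false,0,⟨3,[(4,1),(3,0),(23,0),(6,0),(7,
  0)]⟩,⟨0,[(2,0)]⟩⟩]⟩))))))) (.Q [0,0,-2,0,0,0,-1,0,0,1,-1] (.p false [0,0,1] [1] (⟨0,[(35,0)]⟩,⟨0,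
  [(34,0)]⟩) .k 1 (⟨0,[]⟩,⟨0,[]⟩) .k .k) (.R ⟨0,false,false,true,[0,-1,1],[1,-1,-1],[1,0,-1,-2,0,0,
  0,1],(⟨0,[(25,0)]⟩,⟨1,[(9,0),(25,2)]⟩),(⟨0,[(24,0)]⟩,⟨0,[(9,0),(29,0)]⟩),⟨0,[(1,0)]⟩,.k,.k,(.r
  (-1) ⟨1,[(17,1),(8,0),(0,0),(17,1),(0,0)]⟩ ⟨0,[(8,0)]⟩),.k,.k,.k,⟨false,0,⟨4,[(12,1),(4,7),(25,0),
  (3,3)]⟩,⟨1,[(6,1),(26,3),(8,0),(0,1),(2,0)]⟩⟩,⟨true,(-1),⟨0,[(7,0),(9,0)]⟩,⟨1,[(33,3),(8,0),(3,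
  0)]⟩⟩,⟨true,0,⟨0,[(45,0)]⟩,⟨0,[(44,0)]⟩⟩,⟨false,0,⟨0,[(6,0)]⟩,⟨9,[(12,3),(4,15),(15,19),(8,4),(0,
  11),(3,12)]⟩⟩,⟨false,0,⟨0,[]⟩,⟨0,[]⟩⟩,⟨false,0,⟨0,[]⟩,⟨0,[]⟩⟩,[.o ⟨false,0,⟨7,[(6,1),(14,3),(4,0),
  (0,0),(4,3),(9,2)]⟩,⟨9,[(12,3),(4,5),(15,9),(8,4),(0,11),(3,12)]⟩⟩,.a ⟨true,0,⟨3,[(6,1),(14,1),(4,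
  0),(0,0),(19,0)]⟩,⟨4,[(12,1),(4,2),(15,4),(9,5),(3,3)]⟩⟩ ⟨false,1,⟨1,[(17,1),(27,1),(0,0),(0,0)]⟩,
  ⟨0,[(11,0)]⟩⟩ ⟨true,0,⟨0,[(6,0),(10,0)]⟩,⟨9,[(12,5),(4,3),(15,19),(8,4),(0,7),(3,6)]⟩⟩,.a ⟨true,0,
  ⟨0,[(33,0)]⟩,⟨0,[(30,0)]⟩⟩ ⟨true,0,⟨0,[(17,0),(27,0)]⟩,⟨0,[(11,0)]⟩⟩ ⟨false,0,⟨0,[(6,0),(10,0)]⟩,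
  ⟨9,[(12,3),(4,5),(15,19),(8,4),(0,11),(3,12)]⟩⟩,.a ⟨true,0,⟨1,[(33,2),(0,0)]⟩,⟨0,[(0,0)]⟩⟩ ⟨false,
  1,⟨1,[(17,1),(27,1),(0,0),(0,0)]⟩,⟨0,[(8,0)]⟩⟩ ⟨true,0,⟨5,[(0,3),(5,1),(10,1),(3,1),(10,3),(9,0),
  (3,0)]⟩,⟨9,[(12,5),(4,3),(15,19),(8,4),(0,7),(3,6)]⟩⟩]⟩) (.R ⟨0,false,false,false,[0,-1,1],[1,-1],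
  [],(⟨0,[(25,0)]⟩,⟨1,[(9,0),(25,2)]⟩),(⟨0,[(39,0)]⟩,⟨0,[(40,0)]⟩),⟨0,[(1,0)]⟩,.k,.k,(.r (-1) ⟨1,
  [(17,1),(8,0),(0,0),(17,1),(0,0)]⟩ ⟨0,[(8,0)]⟩),.k,.k,.k,⟨true,0,⟨8,[(8,1),(10,1),(2,0),(10,0),(0,
  0),(12,0)]⟩,⟨0,[(45,0)]⟩⟩,⟨false,0,⟨0,[(30,0)]⟩,⟨1,[(33,1),(8,0),(3,0)]⟩⟩,⟨false,1,⟨7,[(6,1),(11,
  3),(7,0),(0,0),(5,3),(8,0),(4,5)]⟩,⟨0,[(17,0)]⟩⟩,⟨true,0,⟨3,[(6,1),(2,0),(25,0),(3,1)]⟩,⟨0,[(0,0),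
  (16,0),(25,0)]⟩⟩,⟨false,0,⟨0,[]⟩,⟨0,[]⟩⟩,⟨false,0,⟨0,[]⟩,⟨0,[]⟩⟩,[.o ⟨false,0,⟨0,[(45,0)]⟩,⟨5,
  [(18,1),(0,1),(22,2),(3,0),(0,1)]⟩⟩,.e ⟨false,1,⟨1,[(46,0),(0,0)]⟩,⟨0,[(49,0)]⟩⟩ ⟨false,1,⟨5,[(6,
  0),(10,1),(3,1),(1,0),(6,1),(15,3),(0,3)]⟩,⟨0,[(0,0),(42,0)]⟩⟩,.a ⟨true,0,⟨0,[(33,0)]⟩,⟨0,[(30,
  0)]⟩⟩ ⟨false,1,⟨1,[(26,0),(0,0),(19,0)]⟩,⟨0,[]⟩⟩ ⟨true,0,⟨5,[(6,0),(10,1),(3,1),(1,0),(6,1),(15,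
  0),(0,0)]⟩,⟨0,[(0,0),(42,0)]⟩⟩,.o ⟨false,0,⟨0,[(0,0)]⟩,⟨1,[(30,1),(11,0),(3,0)]⟩⟩]⟩))))) (.R ⟨1,
  true,false,false,[0,0,1],[1,1,-1],[1,1,0,0,0,0,0,1],(⟨0,[(32,0)]⟩,⟨0,[(31,0)]⟩),(⟨1,[(5,0),(25,
  2)]⟩,⟨0,[(21,0)]⟩),⟨0,[(21,0)]⟩,.k,.k,.k,(.r 0 ⟨7,[(0,0),(7,0),(4,9),(1,2),(3,0),(23,1)]⟩ ⟨1,[(1,
  1),(27,3),(8,0),(3,0)]⟩),(.r 0 ⟨0,[(13,1)]⟩ ⟨3,[(2,1),(11,3),(7,0),(0,0),(5,3),(8,0),(4,1)]⟩),.k,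
  ⟨true,(-1),⟨0,[(9,0),(3,0)]⟩,⟨1,[(1,1),(27,3),(8,0),(4,0)]⟩⟩,⟨false,0,⟨0,[(3,0),(9,0),(28,0)]⟩,⟨1,
  [(29,3),(8,0),(3,0)]⟩⟩,⟨false,0,⟨0,[]⟩,⟨1,[(22,0),(0,0),(19,0)]⟩⟩,⟨true,0,⟨0,[(1,0)]⟩,⟨6,[(0,6),
  (13,1),(0,1),(21,0),(1,0)]⟩⟩,⟨true,0,⟨6,[(14,1),(0,1),(21,0),(1,0)]⟩,⟨0,[(41,0)]⟩⟩,⟨false,1,⟨5,
  [(1,5),(12,1),(0,1),(26,0),(0,4)]⟩,⟨0,[(0,0)]⟩⟩,[]⟩)))))) (.I [0,-1,-2,-2,2,0,0,-1] (.S ⟨1,0,[0,1,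
  -1,-2,0,0,0,-1],[1,-1,-1],[0,0,-1,-2,0,0,0,-1],(⟨0,[(16,0)]⟩,⟨0,[(28,0),(0,0)]⟩),⟨0,[(1,0)]⟩,.k,
  (.r (-2) ⟨0,[(0,0),(40,0)]⟩ ⟨13,[(4,8),(6,4),(2,3),(20,1),(3,7)]⟩),⟨true,0,⟨0,[(37,0)]⟩,⟨6,[(10,
  1),(0,1),(21,0),(1,0)]⟩⟩,⟨false,0,⟨0,[(37,0)]⟩,⟨5,[(10,1),(0,1),(26,0),(0,4)]⟩⟩,⟨false,1,⟨27,[(0,
  5),(9,1),(0,7),(13,4),(0,4),(12,15)]⟩,⟨0,[]⟩⟩,⟨true,0,⟨0,[(41,0)]⟩,⟨0,[]⟩⟩,[.o ⟨false,0,⟨0,[(24,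
  0),(12,1)]⟩,⟨9,[(4,5),(4,3),(15,9),(8,4),(0,17),(3,16)]⟩⟩,.e ⟨false,2,⟨0,[(0,0)]⟩,⟨6,[(4,3),(6,2),
  (2,0),(20,3),(3,1)]⟩⟩ ⟨false,2,⟨0,[(0,0),(40,0)]⟩,⟨0,[(4,0),(30,0),(3,0)]⟩⟩,.a ⟨true,(-1),⟨2,[(4,
  1),(7,1),(9,0),(1,1),(14,2)]⟩,⟨0,[(25,0),(12,0)]⟩⟩ ⟨false,2,⟨1,[(0,1),(24,0),(0,0)]⟩,⟨0,[(4,0),
  (30,0),(3,0)]⟩⟩ ⟨true,1,⟨4,[(0,2),(12,1),(10,1),(0,1),(7,0),(0,0),(6,1)]⟩,⟨0,[(4,0),(30,0),(3,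
  0)]⟩⟩,.o ⟨false,(-1),⟨0,[(4,0),(19,0),(12,0),(1,0)]⟩,⟨1,[(25,1),(8,0),(3,2)]⟩⟩]⟩) (.Q [0,0,-1,0,0,
  0,0,0,1,-1,0,1] (.p true [0,0,0,0,1] [1] (⟨0,[(21,0)]⟩,⟨0,[(20,0)]⟩) .k 1 (⟨0,[]⟩,⟨0,[]⟩) .k .k)
  (.Q [0,0,0,0,0,1,0,0,0,0,0,-1] (.ed true [1,-1,0,0,1] .k) (.S ⟨1,0,[0,-1,0,-1],[1,0,0,0,-1],[1],
  (⟨0,[(22,0)]⟩,⟨0,[(23,0)]⟩),⟨1,[(0,0),(2,0),(15,0),(2,0)]⟩,.k,(.r (-1) ⟨1,[(39,1),(0,0),(0,0)]⟩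
  ⟨1,[(12,0),(12,0),(2,0)]⟩),⟨false,0,⟨0,[]⟩,⟨1,[(20,0),(0,0),(19,0)]⟩⟩,⟨true,0,⟨0,[(39,0)]⟩,⟨6,
  [(12,1),(0,1),(21,0),(1,0)]⟩⟩,⟨true,0,⟨6,[(12,1),(0,1),(21,0),(1,0)]⟩,⟨0,[(39,0)]⟩⟩,⟨false,1,⟨1,
  [(20,0),(0,0),(19,0)]⟩,⟨0,[]⟩⟩,[.a ⟨true,1,⟨0,[(14,0),(5,0),(20,0)]⟩,⟨9,[(1,6),(12,6),(1,3),(4,2),
  (15,4),(3,0)]⟩⟩ ⟨true,0,⟨0,[]⟩,⟨1,[(27,0),(0,0)]⟩⟩ ⟨false,1,⟨1,[(39,1),(0,0),(0,0)]⟩,⟨6,[(12,1),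
  (0,1),(21,0),(1,0)]⟩⟩,.o ⟨false,2,⟨0,[(20,0),(18,0),(1,0)]⟩,⟨40,[(1,38),(4,18),(5,18),(2,7),(5,1),
  (13,17),(0,4)]⟩⟩,.o ⟨false,1,⟨0,[(20,0)]⟩,⟨1,[(1,1),(25,0),(0,0)]⟩⟩,.o ⟨false,1,⟨1,[(20,1),(6,0),
  (0,0)]⟩,⟨0,[(1,0)]⟩⟩]⟩) (.S ⟨1,0,[0,0,1],[1,1,0,0,-1],[0,-1,1],(⟨0,[(22,0),(8,0)]⟩,⟨0,[(0,0)]⟩),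
  ⟨0,[(22,0)]⟩,(.r (-1) ⟨5,[(12,1),(0,1),(6,0),(0,0),(5,1),(0,1),(12,4)]⟩ ⟨2,[(15,1),(20,0),(0,0),
  (2,0)]⟩),.k,⟨true,0,⟨0,[(39,0)]⟩,⟨6,[(12,1),(0,1),(21,0),(1,0)]⟩⟩,⟨false,0,⟨0,[(39,0)]⟩,⟨5,[(12,
  1),(0,1),(26,0),(0,4)]⟩⟩,⟨false,1,⟨1,[(20,0),(0,0),(19,0)]⟩,⟨0,[]⟩⟩,⟨true,0,⟨0,[(43,0)]⟩,⟨0,[]⟩⟩,
  [.o ⟨false,1,⟨0,[(20,0)]⟩,⟨1,[(1,1),(25,0),(0,0)]⟩⟩,.e ⟨false,1,⟨0,[(41,0)]⟩,⟨0,[(35,0)]⟩⟩ ⟨false,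
  1,⟨1,[(20,0),(0,0),(19,0)]⟩,⟨5,[(15,1),(20,0),(0,3),(2,0)]⟩⟩,.a ⟨true,1,⟨0,[(14,0),(5,0),(16,0),
  (3,0)]⟩,⟨13,[(1,11),(13,11),(0,7),(4,1),(5,0),(0,0),(12,5)]⟩⟩ ⟨false,1,⟨1,[(27,0),(0,0),(12,1)]⟩,
  ⟨5,[(15,1),(20,0),(0,3),(2,0)]⟩⟩ ⟨true,0,⟨1,[(27,0),(0,0)]⟩,⟨5,[(15,1),(20,0),(0,3),(2,0)]⟩⟩,.o
  ⟨false,1,⟨0,[(20,0)]⟩,⟨1,[(1,1),(25,0),(0,0)]⟩⟩]⟩)) (.Q [0,0,-1,0,0,0,0,0,-1,1,0,-1] (.p false [0,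
  0,0,0,1] [1] (⟨0,[(22,0)]⟩,⟨0,[(21,0)]⟩) .k 1 (⟨0,[]⟩,⟨0,[]⟩) .k .k) (.Q [0,0,0,0,0,-1,0,0,0,0,0,
  1] (.ed false [1,-1,0,0,1] .k) (.Q [0,-2,0,-1,1,0,-1,-1,-1,1,-1,-1] (.p false [0,0,1] [1,0,0,0,
  -1] (⟨0,[(31,0)]⟩,⟨0,[(30,0)]⟩) .k 2 (⟨0,[(23,0)]⟩,⟨0,[(24,0)]⟩) .k (.r 1 ⟨0,[(3,0),(11,3),(21,1),
  (0,1),(3,2)]⟩ ⟨1,[(21,0),(0,0),(4,1),(0,1),(12,0),(0,1)]⟩)) (.Q [0,-2,0,0,1,0,-1,-1,-1,1,-1,-1]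
  (.p false [0,0,1] [1,0,0,0,-1] (⟨0,[(32,0)]⟩,⟨0,[(31,0)]⟩) .k 2 (⟨0,[(24,0)]⟩,⟨0,[(25,0)]⟩) .k
  (.r 1 ⟨0,[(4,0),(11,3),(21,1),(0,1),(3,2)]⟩ ⟨5,[(0,3),(13,1),(7,2),(0,6),(5,3),(8,1),(3,2)]⟩))
  (.Q [0,0,0,-1,0,0,-1,-1,-1,1,-1,-1] (.p false [0,0,1] [1,0,0,0,-1] (⟨0,[(33,0)]⟩,⟨0,[(32,0)]⟩) .k
  2 (⟨0,[(25,0)]⟩,⟨0,[(26,0)]⟩) .k (.r 1 ⟨0,[(5,0),(11,3),(21,1),(0,1),(3,2)]⟩ ⟨5,[(1,3),(13,1),(7,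
  2),(0,6),(5,3),(8,1),(3,2)]⟩)) (.R ⟨1,false,false,false,[0,0,0,0,1],[1,-1,-1],[1,1],(⟨0,[(27,0)]⟩,
  ⟨0,[(26,0)]⟩),(⟨0,[(22,0)]⟩,⟨0,[(34,0),(0,0)]⟩),⟨0,[(3,0)]⟩,.k,.k,(.r 0 ⟨2,[(19,1),(20,0),(0,0),
  (2,0)]⟩ ⟨5,[(16,1),(0,1),(6,0),(0,0),(5,1),(0,1),(12,4)]⟩),(.r 1 ⟨1,[(6,3),(2,1),(8,17),(21,8),(0,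
  7),(3,14)]⟩ ⟨6,[(2,4),(16,0),(5,4),(4,1),(0,6),(8,2),(3,6)]⟩),.k,.k,⟨false,(-1),⟨1,[(6,0),(8,0),
  (25,0)]⟩,⟨6,[(2,4),(16,0),(5,4),(4,1),(0,6),(8,2),(3,6)]⟩⟩,⟨true,(-1),⟨2,[(0,1),(1,0),(3,1),(8,
  0)]⟩,⟨1,[(25,1),(5,1),(8,0),(3,0)]⟩⟩,⟨true,0,⟨0,[]⟩,⟨0,[(47,0)]⟩⟩,⟨false,1,⟨0,[(2,0)]⟩,⟨1,[(6,0),
  (8,0),(9,1),(5,1),(8,0),(0,0),(2,0)]⟩⟩,⟨false,1,⟨5,[(16,1),(0,1),(26,0),(0,4)]⟩,⟨0,[(43,0)]⟩⟩,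
  ⟨false,1,⟨0,[(1,0)]⟩,⟨1,[(11,0),(3,0),(9,1),(5,1),(8,0),(0,0)]⟩⟩,[.a ⟨true,0,⟨1,[(2,0),(15,0),(6,
  0),(4,0)]⟩,⟨2,[(6,1),(8,0),(15,2),(12,2),(0,0)]⟩⟩ ⟨false,0,⟨5,[(19,1),(20,0),(0,3),(2,0)]⟩,⟨1,
  [(24,0),(0,0),(19,0)]⟩⟩ ⟨true,0,⟨0,[(0,0)]⟩,⟨5,[(6,3),(8,1),(9,5),(5,5),(8,2),(3,2),(0,1)]⟩⟩,.o
  ⟨false,1,⟨6,[(2,4),(16,0),(5,4),(4,1),(9,2)]⟩,⟨1,[(6,0),(8,0),(15,1),(8,0),(0,0),(2,0)]⟩⟩,.a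
  ⟨true,0,⟨0,[(25,0)]⟩,⟨1,[(4,0),(0,0)]⟩⟩ ⟨false,0,⟨0,[]⟩,⟨1,[(24,0),(0,0),(19,0)]⟩⟩ ⟨true,0,⟨0,[(0,
  0)]⟩,⟨1,[(6,0),(8,0),(9,1),(5,1),(8,0),(0,0),(2,0)]⟩⟩,.a ⟨true,0,⟨1,[(25,1),(5,0),(0,0)]⟩,⟨0,[(4,
  0)]⟩⟩ ⟨true,0,⟨5,[(19,1),(20,0),(0,3),(2,0)]⟩,⟨1,[(31,0),(0,0)]⟩⟩ ⟨false,1,⟨1,[(0,0),(1,0),(41,
  0)]⟩,⟨5,[(6,3),(8,1),(9,5),(5,5),(8,2),(3,2),(0,1)]⟩⟩]⟩) (.R ⟨1,false,false,false,[0,0,0,0,1],[1,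
  -1,-1],[1,1],(⟨0,[(27,0)]⟩,⟨0,[(26,0)]⟩),(⟨0,[(22,0)]⟩,⟨0,[(34,0),(0,0)]⟩),⟨0,[(3,0)]⟩,.k,.k,(.r
  0 ⟨2,[(19,1),(20,0),(0,0),(2,0)]⟩ ⟨5,[(16,1),(0,1),(6,0),(0,0),(5,1),(0,1),(12,4)]⟩),(.r 1 ⟨0,[(0,
  26),(0,22),(2,3),(1,1),(1,3),(0,0),(8,39),(21,19)]⟩ ⟨6,[(2,4),(16,0),(5,4),(4,1),(0,6),(8,2),(3,
  6)]⟩),.k,.k,⟨false,(-1),⟨1,[(6,0),(8,0),(25,0)]⟩,⟨6,[(2,4),(16,0),(5,4),(4,1),(0,6),(8,2),(3,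
  6)]⟩⟩,⟨true,(-1),⟨2,[(2,1),(1,0),(5,1),(1,0),(0,0)]⟩,⟨1,[(25,1),(5,1),(8,0),(3,0)]⟩⟩,⟨true,0,⟨0,
  []⟩,⟨0,[(47,0)]⟩⟩,⟨false,1,⟨0,[(2,0)]⟩,⟨0,[(0,0),(46,0)]⟩⟩,⟨false,1,⟨5,[(16,1),(0,1),(26,0),(0,
  4)]⟩,⟨0,[(43,0)]⟩⟩,⟨false,1,⟨0,[(1,0)]⟩,⟨2,[(0,1),(18,0),(5,0),(3,0),(10,0),(6,0)]⟩⟩,[.e ⟨false,0,
  ⟨5,[(19,1),(20,0),(0,3),(2,0)]⟩,⟨1,[(24,0),(0,0),(19,0)]⟩⟩ ⟨false,1,⟨0,[(2,0),(36,0)]⟩,⟨0,[(0,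
  0)]⟩⟩,.o ⟨false,1,⟨6,[(2,4),(16,0),(5,4),(4,1),(9,2)]⟩,⟨7,[(0,2),(3,2),(5,1),(18,2),(1,1),(8,3),
  (0,2)]⟩⟩,.e ⟨false,0,⟨0,[]⟩,⟨1,[(24,0),(0,0),(19,0)]⟩⟩ ⟨false,1,⟨0,[(2,0),(44,0)]⟩,⟨0,[(0,0)]⟩⟩,
  .a ⟨true,0,⟨1,[(25,1),(5,0),(0,0)]⟩,⟨0,[(4,0)]⟩⟩ ⟨true,0,⟨5,[(19,1),(20,0),(0,3),(2,0)]⟩,⟨1,[(31,
  0),(0,0)]⟩⟩ ⟨false,1,⟨13,[(2,9),(1,3),(14,1),(10,3),(9,0),(3,4)]⟩,⟨1,[(0,1),(30,0),(0,0)]⟩⟩]⟩))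
  (.R ⟨1,true,false,true,[1,0,-1],[0,0,0,0,1],[0,1,0,-1,0,0,0,-1],(⟨0,[(32,0)]⟩,⟨0,[(33,0)]⟩),(⟨0,
  [(26,0)]⟩,⟨0,[(25,0)]⟩),⟨0,[(21,0)]⟩,.k,.k,.k,.k,(.r (-2) ⟨6,[(1,4),(16,0),(5,4),(4,1),(0,6),(8,
  2),(3,6)]⟩ ⟨1,[(0,7),(2,7),(1,3),(1,7),(0,1),(8,25),(21,12),(4,26)]⟩),.k,⟨false,2,⟨6,[(1,4),(16,
  0),(5,4),(4,1),(0,6),(8,2),(3,6)]⟩,⟨1,[(5,0),(8,0),(25,0)]⟩⟩,⟨true,1,⟨1,[(24,1),(5,1),(8,0),(3,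
  0)]⟩,⟨2,[(1,1),(1,0),(5,1),(1,0),(0,0)]⟩⟩,⟨false,0,⟨0,[(42,0)]⟩,⟨5,[(15,1),(0,1),(26,0),(0,4)]⟩⟩,
  ⟨true,(-1),⟨0,[(0,0)]⟩,⟨8,[(1,5),(2,1),(2,0),(7,1),(4,0),(2,0),(19,1)]⟩⟩,⟨true,0,⟨0,[(46,0)]⟩,⟨0,
  []⟩⟩,⟨false,0,⟨5,[(0,5),(14,1),(0,1),(26,0),(0,4)]⟩,⟨0,[(1,0)]⟩⟩,[]⟩)) (.R ⟨1,false,false,false,
  [0,0,0,0,1],[1,-1,-1],[1,1],(⟨0,[(25,0)]⟩,⟨0,[(24,0)]⟩),(⟨0,[(20,0)]⟩,⟨0,[(32,0),(0,0)]⟩),⟨0,[(1,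
  0)]⟩,.k,.k,(.r 0 ⟨2,[(17,1),(20,0),(0,0),(2,0)]⟩ ⟨5,[(14,1),(0,1),(6,0),(0,0),(5,1),(0,1),(12,
  4)]⟩),(.r 1 ⟨1,[(0,7),(1,7),(1,3),(1,7),(0,1),(8,33),(21,16),(4,30)]⟩ ⟨0,[(28,0),(0,0),(11,0),(0,
  0),(0,0)]⟩),.k,.k,⟨false,(-1),⟨1,[(4,0),(8,0),(25,0)]⟩,⟨0,[(28,0),(0,0),(11,0),(0,0),(0,0)]⟩⟩,
  ⟨true,(-1),⟨0,[(2,0),(5,0),(19,0),(12,0),(1,0)]⟩,⟨1,[(23,1),(5,1),(8,0),(3,0)]⟩⟩,⟨true,0,⟨0,[]⟩,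
  ⟨0,[(45,0)]⟩⟩,⟨true,1,⟨1,[(2,0),(0,0),(24,1),(12,1),(1,1)]⟩,⟨0,[(0,0)]⟩⟩,⟨false,1,⟨5,[(14,1),(0,
  1),(26,0),(0,4)]⟩,⟨0,[(41,0)]⟩⟩,⟨true,1,⟨1,[(2,0),(0,0),(24,1),(14,1)]⟩,⟨0,[(0,0),(40,0)]⟩⟩,[.e
  ⟨false,0,⟨5,[(17,1),(20,0),(0,3),(2,0)]⟩,⟨1,[(22,0),(0,0),(19,0)]⟩⟩ ⟨false,1,⟨3,[(2,1),(14,1),(4,
  1),(5,3),(13,0),(0,2)]⟩,⟨0,[(0,0),(42,0)]⟩⟩,.o ⟨false,1,⟨0,[(28,0),(12,0),(1,0)]⟩,⟨33,[(0,17),(1,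
  17),(1,1),(13,3),(8,13),(1,1),(8,16),(4,8)]⟩⟩,.e ⟨false,0,⟨0,[]⟩,⟨1,[(22,0),(0,0),(19,0)]⟩⟩
  ⟨false,1,⟨1,[(2,0),(0,0),(24,1),(12,1),(1,1)]⟩,⟨0,[(0,0),(42,0)]⟩⟩,.a ⟨true,0,⟨1,[(23,1),(5,0),(0,
  0)]⟩,⟨0,[(2,0)]⟩⟩ ⟨true,0,⟨5,[(17,1),(20,0),(0,3),(2,0)]⟩,⟨1,[(29,0),(0,0)]⟩⟩ ⟨false,1,⟨0,[(2,0),
  (25,0),(12,0),(1,0)]⟩,⟨17,[(0,7),(7,3),(9,1),(4,9),(3,5),(1,3),(8,4),(4,12)]⟩⟩]⟩)) (.R ⟨0,false,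
  false,false,[0,0,0,0,1],[1,-1,0,0,1],[0,1,0,-1],(⟨0,[(24,0)]⟩,⟨0,[(23,0)]⟩),(⟨0,[(24,0),(9,0)]⟩,
  ⟨0,[(0,0)]⟩),⟨0,[(0,0)]⟩,.k,(.r 0 ⟨2,[(16,1),(20,0),(0,0),(2,0)]⟩ ⟨5,[(13,1),(0,1),(6,0),(0,0),(5,
  1),(0,1),(12,4)]⟩),(.r 0 ⟨2,[(16,1),(20,0),(0,0),(2,0)]⟩ ⟨5,[(13,1),(0,1),(6,0),(0,0),(5,1),(0,1),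
  (12,4)]⟩),.k,.k,.k,⟨true,0,⟨1,[(28,0),(0,0)]⟩,⟨0,[]⟩⟩,⟨false,0,⟨0,[(32,0),(1,0)]⟩,⟨1,[(37,0),(3,
  0)]⟩⟩,⟨true,0,⟨0,[(40,0)]⟩,⟨6,[(13,1),(0,1),(21,0),(1,0)]⟩⟩,⟨false,0,⟨0,[(15,0),(26,0)]⟩,⟨5,[(13,
  1),(0,1),(22,2),(3,0),(0,1)]⟩⟩,⟨false,0,⟨0,[]⟩,⟨0,[]⟩⟩,⟨false,0,⟨0,[]⟩,⟨0,[]⟩⟩,[.a ⟨true,(-1),⟨0,
  [(15,0),(6,0)]⟩,⟨5,[(1,3),(15,1),(3,1),(15,1),(3,0),(0,2)]⟩⟩ ⟨false,0,⟨2,[(16,1),(20,0),(0,0),(2,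
  0)]⟩,⟨5,[(13,1),(0,1),(26,0),(0,4)]⟩⟩ ⟨true,(-1),⟨0,[(15,0)]⟩,⟨5,[(13,0),(0,0),(2,0),(10,0),(0,0),
  (7,2),(4,3)]⟩⟩,.o ⟨false,0,⟨0,[(22,0),(17,0)]⟩,⟨5,[(1,3),(15,1),(3,1),(15,4),(3,0)]⟩⟩,.a ⟨true,0,
  ⟨0,[(22,0)]⟩,⟨1,[(1,0),(0,0)]⟩⟩ ⟨false,0,⟨0,[(40,0)]⟩,⟨5,[(13,1),(0,1),(26,0),(0,4)]⟩⟩ ⟨true,(-1),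
  ⟨0,[(15,0)]⟩,⟨5,[(13,1),(0,1),(22,2),(3,0),(0,1)]⟩⟩,.a ⟨true,0,⟨1,[(22,1),(5,0),(0,0)]⟩,⟨0,[(1,
  0)]⟩⟩ ⟨true,0,⟨2,[(16,1),(20,0),(0,0),(2,0)]⟩,⟨5,[(13,0),(0,0),(2,0),(10,0),(0,0),(12,0)]⟩⟩
  ⟨false,0,⟨1,[(15,1),(25,0),(0,0)]⟩,⟨5,[(13,0),(0,0),(2,0),(10,0),(0,0),(7,2),(4,3)]⟩⟩]⟩)) (.Q [0,
  -1,0,0,1,0,0,0,-1,0,0,-1] (.p false [0,0,0,0,1] [] (⟨0,[(23,0)]⟩,⟨0,[(22,0)]⟩) .k 0 (⟨0,[]⟩,⟨0,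
  []⟩) .k .k) (.Q [0,0,0,0,0,1,0,0,0,-1,0,1] (.ed false [0,1,0,0,1] .k) (.Q [0,0,0,0,0,0,0,0,-1,1,0,
  -1] (.p false [0,0,0,0,1] [1] (⟨0,[(25,0)]⟩,⟨0,[(24,0)]⟩) .k 1 (⟨0,[]⟩,⟨0,[]⟩) .k .k) (.S ⟨1,0,[0,
  0,1],[1,1,0,0,-1],[0,-1,1],(⟨0,[(25,0),(8,0)]⟩,⟨1,[(1,0),(4,0),(15,0),(3,0)]⟩),⟨0,[(25,0)]⟩,(.r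
  (-1) ⟨5,[(15,1),(0,1),(6,0),(0,0),(5,1),(0,1),(12,4)]⟩ ⟨2,[(18,1),(20,0),(0,0),(2,0)]⟩),.k,⟨true,
  0,⟨0,[(42,0)]⟩,⟨6,[(15,1),(0,1),(21,0),(1,0)]⟩⟩,⟨false,0,⟨0,[(42,0)]⟩,⟨5,[(15,1),(0,1),(26,0),(0,
  4)]⟩⟩,⟨false,1,⟨1,[(23,0),(0,0),(19,0)]⟩,⟨0,[]⟩⟩,⟨true,0,⟨0,[(46,0)]⟩,⟨0,[]⟩⟩,[.a ⟨true,0,⟨0,[(0,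
  0)]⟩,⟨0,[(24,0)]⟩⟩ ⟨false,1,⟨1,[(23,0),(0,0),(19,0)]⟩,⟨5,[(18,1),(20,0),(0,3),(2,0)]⟩⟩ ⟨true,0,⟨1,
  [(30,0),(0,0)]⟩,⟨0,[]⟩⟩,.o ⟨false,1,⟨0,[(2,0)]⟩,⟨2,[(3,1),(14,0),(5,0),(14,0),(0,1)]⟩⟩,.o ⟨false,
  1,⟨1,[(0,1),(38,0),(3,0)]⟩,⟨0,[(3,0)]⟩⟩,.e ⟨false,1,⟨0,[(44,0)]⟩,⟨0,[(46,0)]⟩⟩ ⟨false,1,⟨1,[(23,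
  0),(0,0),(19,0)]⟩,⟨0,[]⟩⟩]⟩) (.R ⟨2,true,false,true,[0,1],[1,0,0,0,-1],[1,1,1,1],(⟨0,[]⟩,⟨0,[]⟩),
  (⟨0,[(25,0)]⟩,⟨0,[(26,0)]⟩),⟨0,[]⟩,.k,.k,.k,(.r 0 ⟨1,[(15,0),(12,0),(2,0)]⟩ ⟨1,[(42,1),(0,0),(0,
  0)]⟩),.k,.k,⟨false,0,⟨6,[(15,1),(0,1),(21,0),(1,0)]⟩,⟨1,[(42,1),(0,0),(0,0)]⟩⟩,⟨true,0,⟨0,[(4,
  0)]⟩,⟨0,[(0,0)]⟩⟩,⟨false,0,⟨0,[]⟩,⟨1,[(23,0),(0,0),(19,0)]⟩⟩,⟨true,0,⟨0,[(2,0),(14,0)]⟩,⟨6,[(0,6),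
  (14,1),(0,1),(21,0),(1,0)]⟩⟩,⟨true,0,⟨6,[(15,1),(0,1),(21,0),(1,0)]⟩,⟨0,[(42,0)]⟩⟩,⟨false,1,⟨1,
  [(4,1),(38,0),(0,0)]⟩,⟨0,[(0,0)]⟩⟩,[]⟩)) (.Q [0,0,0,0,0,0,0,0,-1,1,0,-1] (.p false [0,0,0,0,1]
  [1] (⟨0,[(25,0)]⟩,⟨0,[(24,0)]⟩) .k 1 (⟨0,[]⟩,⟨0,[]⟩) .k .k) (.Q [0,0,0,0,0,-1,0,0,0,0,0,1] (.ed
  false [1,-1,0,0,1] .k) (.S ⟨1,0,[0,0,1],[1,1,0,0,-1],[0,-1,1],(⟨0,[(26,0),(8,0)]⟩,⟨0,[(0,0)]⟩),⟨0,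
  [(26,0)]⟩,(.r (-1) ⟨5,[(16,1),(0,1),(6,0),(0,0),(5,1),(0,1),(12,4)]⟩ ⟨2,[(19,1),(20,0),(0,0),(2,
  0)]⟩),.k,⟨true,0,⟨0,[(43,0)]⟩,⟨6,[(16,1),(0,1),(21,0),(1,0)]⟩⟩,⟨false,0,⟨0,[(43,0)]⟩,⟨5,[(16,1),
  (0,1),(26,0),(0,4)]⟩⟩,⟨false,1,⟨1,[(24,0),(0,0),(19,0)]⟩,⟨0,[]⟩⟩,⟨true,0,⟨0,[(47,0)]⟩,⟨0,[]⟩⟩,[.a
  ⟨true,0,⟨0,[(1,0)]⟩,⟨0,[(25,0)]⟩⟩ ⟨false,1,⟨1,[(24,0),(0,0),(19,0)]⟩,⟨5,[(19,1),(20,0),(0,3),(2,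
  0)]⟩⟩ ⟨true,0,⟨1,[(31,0),(0,0)]⟩,⟨0,[]⟩⟩,.o ⟨false,1,⟨0,[(3,0)]⟩,⟨2,[(4,1),(14,0),(5,0),(14,0),(0,
  1)]⟩⟩,.o ⟨false,1,⟨1,[(1,1),(38,0),(3,0)]⟩,⟨0,[(4,0)]⟩⟩,.e ⟨false,1,⟨0,[(45,0)]⟩,⟨0,[(47,0)]⟩⟩
  ⟨false,1,⟨1,[(24,0),(0,0),(19,0)]⟩,⟨0,[]⟩⟩]⟩) (.R ⟨0,false,false,false,[0,0,0,0,1],[1,-1],[1,1,1],
  (⟨0,[(27,0)]⟩,⟨0,[(26,0)]⟩),(⟨0,[(37,0)]⟩,⟨0,[(38,0)]⟩),⟨0,[(0,0)]⟩,.k,.k,(.r 0 ⟨2,[(19,1),(20,0),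
  (0,0),(2,0)]⟩ ⟨5,[(16,1),(0,1),(6,0),(0,0),(5,1),(0,1),(12,4)]⟩),(.r 0 ⟨1,[(16,0),(12,0),(2,0)]⟩
  ⟨1,[(43,1),(0,0),(0,0)]⟩),.k,.k,⟨true,(-1),⟨3,[(10,1),(5,0),(13,0),(0,1),(0,0)]⟩,⟨1,[(43,1),(0,0),
  (0,0)]⟩⟩,⟨false,0,⟨0,[(1,0)]⟩,⟨1,[(25,1),(14,0),(3,0)]⟩⟩,⟨true,0,⟨1,[(31,0),(0,0)]⟩,⟨5,[(19,1),
  (20,0),(0,3),(2,0)]⟩⟩,⟨false,1,⟨1,[(1,0),(1,0),(15,0),(25,1)]⟩,⟨0,[(4,0),(36,0)]⟩⟩,⟨false,0,⟨0,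
  []⟩,⟨0,[]⟩⟩,⟨false,0,⟨0,[]⟩,⟨0,[]⟩⟩,[.o ⟨false,0,⟨0,[(43,0)]⟩,⟨5,[(16,1),(0,1),(22,2),(3,0),(0,
  1)]⟩⟩,.e ⟨false,0,⟨0,[]⟩,⟨1,[(24,0),(0,0),(18,0)]⟩⟩ ⟨false,1,⟨1,[(1,0),(1,0),(15,0),(24,0),(0,
  0)]⟩,⟨0,[(4,0),(36,0)]⟩⟩,.a ⟨true,0,⟨0,[(25,0)]⟩,⟨0,[(1,0)]⟩⟩ ⟨false,0,⟨1,[(31,0),(0,0)]⟩,⟨1,[(44,
  0),(0,0)]⟩⟩ ⟨true,0,⟨1,[(1,0),(1,0),(15,0)]⟩,⟨0,[(4,0),(36,0)]⟩⟩,.o ⟨false,0,⟨0,[(4,0)]⟩,⟨1,[(1,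
  1),(38,0),(3,0)]⟩⟩]⟩)) (.R ⟨2,true,false,true,[0,1],[1,0,0,0,-1],[1,1,1,1],(⟨0,[]⟩,⟨0,[]⟩),(⟨0,
  [(25,0)]⟩,⟨0,[(26,0)]⟩),⟨0,[]⟩,.k,.k,.k,(.r 0 ⟨1,[(15,0),(12,0),(2,0)]⟩ ⟨1,[(42,1),(0,0),(0,0)]⟩),
  .k,.k,⟨false,0,⟨6,[(15,1),(0,1),(21,0),(1,0)]⟩,⟨1,[(42,1),(0,0),(0,0)]⟩⟩,⟨true,0,⟨0,[(4,0)]⟩,⟨0,
  [(0,0)]⟩⟩,⟨false,0,⟨0,[]⟩,⟨1,[(23,0),(0,0),(19,0)]⟩⟩,⟨true,0,⟨0,[(2,0),(14,0)]⟩,⟨6,[(0,6),(14,1),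
  (0,1),(21,0),(1,0)]⟩⟩,⟨true,0,⟨6,[(15,1),(0,1),(21,0),(1,0)]⟩,⟨0,[(42,0)]⟩⟩,⟨false,1,⟨1,[(4,1),
  (38,0),(0,0)]⟩,⟨0,[(0,0)]⟩⟩,[]⟩))) (.Q [0,0,0,0,0,-1,0,0,0,0,0,1] (.ed false [1,-1,0,0,1] .k) (.Q
  [0,0,1,0,-1,0,0,0,1,0,0,1] (.p true [0,0,0,0,1] [] (⟨0,[(25,0)]⟩,⟨0,[(24,0)]⟩) .k 0 (⟨0,[]⟩,⟨0,
  []⟩) .k .k) (.S ⟨1,0,[0,1,0,-1],[0,0,0,0,1],[1,2],(⟨0,[(26,0)]⟩,⟨0,[(25,0)]⟩),⟨0,[(1,0)]⟩,.k,(.r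
  0 ⟨2,[(18,1),(20,0),(0,0),(2,0)]⟩ ⟨5,[(15,1),(0,1),(6,0),(0,0),(5,1),(0,1),(12,4)]⟩),⟨false,0,⟨0,
  []⟩,⟨1,[(23,0),(0,0),(19,0)]⟩⟩,⟨true,0,⟨0,[(42,0)]⟩,⟨6,[(15,1),(0,1),(21,0),(1,0)]⟩⟩,⟨true,0,⟨6,
  [(15,1),(0,1),(21,0),(1,0)]⟩,⟨0,[(42,0)]⟩⟩,⟨false,1,⟨1,[(23,0),(0,0),(19,0)]⟩,⟨0,[]⟩⟩,[.e ⟨false,
  0,⟨0,[(38,0)]⟩,⟨0,[(44,0)]⟩⟩ ⟨false,0,⟨2,[(18,1),(20,0),(0,0),(2,0)]⟩,⟨5,[(15,1),(0,1),(26,0),(0,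
  4)]⟩⟩,.o ⟨false,0,⟨1,[(2,1),(36,0),(2,1),(1,0)]⟩,⟨1,[(4,1),(34,0),(0,1),(3,0)]⟩⟩,.o ⟨false,0,⟨1,
  [(2,1),(36,0),(4,0)]⟩,⟨0,[(23,0)]⟩⟩,.a ⟨true,(-1),⟨0,[(0,0)]⟩,⟨0,[(4,0),(38,0)]⟩⟩ ⟨false,0,⟨5,
  [(18,1),(20,0),(0,3),(2,0)]⟩,⟨1,[(30,0),(0,0),(12,1)]⟩⟩ ⟨true,0,⟨2,[(18,1),(20,0),(0,0),(2,0)]⟩,
  ⟨5,[(15,0),(0,0),(2,0),(10,0),(0,0),(12,0)]⟩⟩]⟩) (.S ⟨1,0,[0,2,0,-1],[0,0,0,0,1],[1,1],(⟨0,[(26,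
  0)]⟩,⟨0,[(25,0)]⟩),⟨0,[(1,0)]⟩,.k,(.r 0 ⟨2,[(18,1),(20,0),(0,0),(2,0)]⟩ ⟨5,[(15,1),(0,1),(6,0),(0,
  0),(5,1),(0,1),(12,4)]⟩),⟨true,0,⟨0,[]⟩,⟨0,[(46,0)]⟩⟩,⟨false,0,⟨0,[(42,0)]⟩,⟨5,[(15,1),(0,1),(26,
  0),(0,4)]⟩⟩,⟨false,1,⟨5,[(15,1),(0,1),(26,0),(0,4)]⟩,⟨0,[(42,0)]⟩⟩,⟨true,0,⟨0,[(46,0)]⟩,⟨0,[]⟩⟩,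
  [.o ⟨false,(-1),⟨0,[(2,0),(14,0),(21,0)]⟩,⟨5,[(0,3),(14,0),(0,0),(2,0),(3,1),(20,6)]⟩⟩,.a ⟨true,
  (-1),⟨0,[(2,0),(39,0)]⟩,⟨0,[(4,0),(35,0),(3,0)]⟩⟩ ⟨true,0,⟨0,[]⟩,⟨1,[(30,0),(0,0)]⟩⟩ ⟨false,0,⟨2,
  [(18,1),(20,0),(0,0),(2,0)]⟩,⟨5,[(15,1),(0,1),(26,0),(0,4)]⟩⟩,.o ⟨false,0,⟨1,[(2,1),(36,0),(4,
  0)]⟩,⟨0,[(23,0)]⟩⟩,.o ⟨false,0,⟨0,[(3,0)]⟩,⟨0,[(0,0)]⟩⟩]⟩)) (.Q [0,0,0,0,-1,0,-1,0,1,0,-1,1] (.p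
  true [1,0,-1,0,1] [1] (⟨0,[(25,0),(5,0)]⟩,⟨0,[(0,0),(20,0)]⟩) .k 1 (⟨0,[]⟩,⟨0,[]⟩) .k (.r (-1) ⟨1,
  [(22,0),(0,0),(4,1),(0,1),(12,0)]⟩ ⟨2,[(4,0),(8,1),(29,1)]⟩)) (.R ⟨0,false,false,false,[0,1,0,0,
  -1],[0,1],[0,1],(⟨0,[(1,0)]⟩,⟨0,[(26,0),(9,0)]⟩),(⟨0,[(37,0)]⟩,⟨0,[(36,0)]⟩),⟨0,[(26,0)]⟩,(.r
  (-1) ⟨5,[(15,1),(0,1),(6,0),(0,0),(5,1),(0,1),(12,4)]⟩ ⟨2,[(18,1),(20,0),(0,0),(2,0)]⟩),.k,.k,.k,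
  .k,.k,⟨true,0,⟨2,[(18,1),(20,0),(0,0),(2,0)]⟩,⟨3,[(19,1),(10,0),(0,0),(10,1),(1,1)]⟩⟩,⟨false,0,⟨1,
  [(2,1),(40,0),(0,0)]⟩,⟨0,[(23,0)]⟩⟩,⟨false,0,⟨2,[(18,1),(20,0),(0,0),(2,0)]⟩,⟨5,[(15,0),(0,0),(2,
  0),(10,0),(0,0),(12,6)]⟩⟩,⟨true,(-1),⟨0,[(2,0)]⟩,⟨0,[(23,0)]⟩⟩,⟨false,0,⟨0,[]⟩,⟨0,[]⟩⟩,⟨false,0,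
  ⟨0,[]⟩,⟨0,[]⟩⟩,[.o ⟨false,1,⟨5,[(15,1),(0,1),(22,2),(3,0),(0,1)]⟩,⟨0,[(42,0)]⟩⟩,.e ⟨false,1,⟨1,
  [(23,0),(0,0),(18,0)]⟩,⟨0,[]⟩⟩ ⟨false,0,⟨0,[(0,0),(29,0),(9,0),(3,0)]⟩,⟨2,[(18,1),(4,2),(15,0),(0,
  0),(2,0)]⟩⟩,.o ⟨false,2,⟨1,[(23,1),(15,0),(3,0)]⟩,⟨0,[(0,0),(29,0)]⟩⟩,.a ⟨true,1,⟨0,[(23,0)]⟩,⟨0,
  [(0,0),(16,0),(12,0),(9,0),(3,0)]⟩⟩ ⟨true,0,⟨5,[(18,1),(20,0),(0,3),(2,0)]⟩,⟨1,[(30,0),(0,0)]⟩⟩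
  ⟨false,0,⟨0,[(0,0),(29,0),(9,0),(3,0)]⟩,⟨0,[(23,0),(18,0)]⟩⟩]⟩) (.Q [0,0,-1,0,1,0,0,0,-1,0,0,-1]
  (.p false [0,0,0,0,1] [] (⟨0,[(26,0)]⟩,⟨0,[(25,0)]⟩) .k 0 (⟨0,[]⟩,⟨0,[]⟩) .k .k) (.R ⟨0,false,
  false,false,[0,0,0,0,1],[0,1],[1,0,2,1],(⟨0,[(27,0)]⟩,⟨0,[(26,0)]⟩),(⟨0,[(38,0)]⟩,⟨0,[(37,0)]⟩),
  ⟨0,[(2,0)]⟩,.k,.k,(.r 0 ⟨2,[(19,1),(20,0),(0,0),(2,0)]⟩ ⟨23,[(1,9),(14,4),(0,4),(2,2),(4,9),(6,9),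
  (12,16)]⟩),(.r 0 ⟨2,[(19,1),(20,0),(0,0),(2,0)]⟩ ⟨23,[(1,9),(14,4),(0,4),(2,2),(4,9),(6,9),(12,
  16)]⟩),.k,.k,⟨false,0,⟨0,[]⟩,⟨1,[(24,0),(0,0),(18,0)]⟩⟩,⟨true,1,⟨0,[(0,0)]⟩,⟨1,[(3,0),(0,0),(14,
  0),(0,0),(22,0),(1,0)]⟩⟩,⟨true,0,⟨3,[(20,1),(10,0),(0,0),(10,1),(1,1)]⟩,⟨1,[(19,1),(20,0),(0,1),
  (2,0)]⟩⟩,⟨false,2,⟨5,[(0,3),(15,0),(0,0),(2,0),(3,1),(20,6)]⟩,⟨0,[(3,0),(39,0)]⟩⟩,⟨false,0,⟨0,[]⟩,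
  ⟨0,[]⟩⟩,⟨false,0,⟨0,[]⟩,⟨0,[]⟩⟩,[.o ⟨false,1,⟨5,[(16,1),(0,1),(22,2),(3,0),(0,1)]⟩,⟨0,[(43,0)]⟩⟩,
  .a ⟨true,1,⟨5,[(16,1),(0,1),(26,0),(0,4)]⟩,⟨0,[(18,0)]⟩⟩ ⟨true,0,⟨3,[(20,1),(10,0),(0,0),(10,1),
  (1,1)]⟩,⟨2,[(19,1),(20,0),(0,0),(2,0)]⟩⟩ ⟨false,2,⟨5,[(0,5),(15,1),(0,1),(26,0),(0,4)]⟩,⟨0,[(3,0),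
  (39,0)]⟩⟩,.o ⟨false,0,⟨1,[(3,1),(36,0),(4,0)]⟩,⟨0,[(24,0)]⟩⟩,.o ⟨false,0,⟨0,[(4,0)]⟩,⟨0,[(0,
  0)]⟩⟩]⟩) (.K ⟨0,[0,0,0,0,1],(-1),(-1),(⟨0,[(27,0)]⟩,⟨0,[(26,0)]⟩),.k,(.r 0 ⟨2,[(19,1),(20,0),(0,
  0),(2,0)]⟩ ⟨23,[(1,9),(14,4),(0,4),(2,2),(4,9),(6,9),(12,16)]⟩),(.r 0 ⟨1,[(16,0),(12,0),(2,0)]⟩
  ⟨1,[(43,1),(0,0),(0,0)]⟩),.k,.k,[⟨0,[(1,0)]⟩,⟨0,[(0,0)]⟩,⟨0,[(24,0)]⟩,⟨0,[(3,0),(43,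
  0)]⟩]⟩)))))))))

theorem ok52 : chk K t52 l34 = true := by decide +kernel


end Helper25.S1T.Ymp_1cP4
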