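import Pool.Agent.Helper25.S1T.Ymp_1cP4_q

set_option autoImplicit false
set_option linter.all false

namespace Helper25.S1T.Ymp_1cP4

open Helper25.KG Helper25.KW Helper55.KE Helper11.CT

noncomputable def t53 : Tre :=
  (.I [0,0,-2,0,1,-2,-1] (.I [0,0,2,0,0,2,1] (.R ⟨1,false,false,true,[0,0,1],[0,1],[],(⟨0,[(28,0)]⟩,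
  ⟨0,[(27,0)]⟩),(⟨0,[(32,0)]⟩,⟨0,[(31,0)]⟩),⟨0,[(17,0)]⟩,.k,.k,.k,.k,(.x 0 ⟨0,[(0,0)]⟩ ⟨0,[(1,0)]⟩),
  .k,⟨true,1,⟨1,[(2,0),(21,0),(13,0),(0,0)]⟩,⟨3,[(4,1),(5,0),(13,0),(0,1),(0,0)]⟩⟩,⟨false,1,⟨1,[(22,
  1),(11,0),(3,0)]⟩,⟨0,[(25,0)]⟩⟩,⟨true,1,⟨1,[(24,1),(0,1),(12,0),(0,0)]⟩,⟨0,[(5,0)]⟩⟩,⟨true,0,⟨0,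
  [(6,0)]⟩,⟨1,[(2,0),(20,0)]⟩⟩,⟨true,1,⟨1,[(10,0),(13,0),(0,0),(12,0),(0,0)]⟩,⟨0,[(7,0)]⟩⟩,⟨false,1,
  ⟨5,[(6,5),(3,1),(0,1),(26,0),(0,4)]⟩,⟨0,[(2,0)]⟩⟩,[.e ⟨false,1,⟨1,[(0,0),(0,0),(36,0)]⟩,⟨0,[]⟩⟩
  ⟨false,0,⟨0,[(8,0),(26,0)]⟩,⟨1,[(2,0),(21,0),(0,1),(12,0),(0,0)]⟩⟩,.o ⟨false,1,⟨5,[(10,1),(0,1),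
  (22,2),(3,0),(0,1)]⟩,⟨0,[(37,0)]⟩⟩,.o ⟨false,1,⟨1,[(25,1),(8,0),(3,0)]⟩,⟨0,[(8,0)]⟩⟩,.a ⟨true,0,
  ⟨0,[(25,0)]⟩,⟨0,[(22,0)]⟩⟩ ⟨false,1,⟨1,[(38,0),(0,0)]⟩,⟨1,[(25,0),(0,0)]⟩⟩ ⟨true,0,⟨0,[(8,0),(26,
  0)]⟩,⟨1,[(2,0),(21,0),(0,1)]⟩⟩]⟩) (.I [0,0,-2,-2,0,0,0,1] (.R ⟨1,false,false,true,[0,0,1],[0,1],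
  [],(⟨0,[(29,0)]⟩,⟨0,[(28,0)]⟩),(⟨0,[(33,0)]⟩,⟨0,[(32,0)]⟩),⟨0,[(18,0)]⟩,.k,.k,.k,.k,(.r 0 ⟨0,[(0,
  0)]⟩ ⟨1,[(11,1),(7,0),(0,0),(5,0),(0,0),(12,0)]⟩),.k,⟨true,1,⟨1,[(3,0),(21,0),(13,0),(0,0)]⟩,⟨3,
  [(5,1),(5,0),(13,0),(0,1),(0,0)]⟩⟩,⟨false,1,⟨1,[(23,1),(11,0),(3,0)]⟩,⟨0,[(26,0)]⟩⟩,⟨true,1,⟨1,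
  [(25,1),(0,1),(12,0),(0,0)]⟩,⟨0,[(6,0)]⟩⟩,⟨true,0,⟨0,[(7,0)]⟩,⟨1,[(3,0),(20,0)]⟩⟩,⟨true,1,⟨1,[(11,
  0),(13,0),(0,0),(12,0),(0,0)]⟩,⟨0,[(8,0)]⟩⟩,⟨false,1,⟨5,[(7,5),(3,1),(0,1),(26,0),(0,4)]⟩,⟨0,[(3,
  0)]⟩⟩,[.e ⟨false,1,⟨1,[(19,0),(0,0),(18,0)]⟩,⟨0,[]⟩⟩ ⟨false,0,⟨0,[(9,0),(26,0)]⟩,⟨1,[(3,0),(21,0),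
  (0,1),(12,0),(0,0)]⟩⟩,.o ⟨false,1,⟨5,[(11,1),(0,1),(22,2),(3,0),(0,1)]⟩,⟨0,[(38,0)]⟩⟩,.o ⟨false,1,
  ⟨1,[(26,1),(8,0),(3,0)]⟩,⟨0,[(9,0)]⟩⟩,.a ⟨true,0,⟨0,[(26,0)]⟩,⟨0,[(23,0)]⟩⟩ ⟨false,1,⟨1,[(39,0),
  (0,0)]⟩,⟨1,[(26,0),(0,0)]⟩⟩ ⟨true,0,⟨0,[(9,0),(26,0)]⟩,⟨1,[(3,0),(21,0),(0,1)]⟩⟩]⟩) (.Q [0,0,0,0,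
  0,2,0,0,0,-1,1] (.p true [0,0,1] [1] (⟨0,[(29,0)]⟩,⟨0,[(28,0)]⟩) .k 1 (⟨0,[]⟩,⟨0,[]⟩) .k .k) (.R
  ⟨0,false,false,true,[1,-1,-1],[0,-1,1],[1,1,1],(⟨0,[(18,0)]⟩,⟨0,[(0,0),(32,0)]⟩),(⟨0,[(19,0)]⟩,⟨0,
  [(29,0),(1,0)]⟩),⟨0,[(0,0)]⟩,.k,.k,(.r (-2) ⟨1,[(4,1),(21,3),(0,1),(12,2),(0,0)]⟩ ⟨13,[(6,8),(6,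
  4),(2,3),(20,1),(3,7)]⟩),.k,.k,.k,⟨true,0,⟨1,[(1,1),(2,0),(21,0)]⟩,⟨0,[(11,0)]⟩⟩,⟨false,2,⟨1,[(27,
  3),(8,0),(3,2)]⟩,⟨1,[(2,1),(1,0),(1,1),(19,2),(2,1),(1,3),(9,1)]⟩⟩,⟨true,(-2),⟨0,[(6,0)]⟩,⟨1,[(4,
  0),(21,2),(0,1),(12,2),(0,0)]⟩⟩,⟨false,0,⟨9,[(4,17),(11,5),(8,1),(10,4),(0,17),(3,0)]⟩,⟨0,[(8,0),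
  (5,0),(11,0),(14,1)]⟩⟩,⟨false,0,⟨0,[]⟩,⟨0,[]⟩⟩,⟨false,0,⟨0,[]⟩,⟨0,[]⟩⟩,[.o ⟨false,0,⟨15,[(4,10),
  (1,3),(18,0),(1,3),(7,9),(0,7),(0,1)]⟩,⟨0,[(8,0),(32,0)]⟩⟩,.a ⟨true,0,⟨1,[(4,0),(20,0)]⟩,⟨1,[(1,
  0),(0,0),(5,0),(5,0),(14,0),(1,1),(9,0)]⟩⟩ ⟨false,0,⟨0,[]⟩,⟨1,[(20,0),(0,0),(18,0)]⟩⟩ ⟨true,1,⟨1,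
  [(4,1),(22,1),(8,0),(0,1),(2,0)]⟩,⟨0,[(6,0),(1,0),(5,0),(11,0),(14,1)]⟩⟩,.e ⟨false,0,⟨1,[(27,0),
  (0,0)]⟩,⟨1,[(40,0),(0,0)]⟩⟩ ⟨false,1,⟨1,[(4,1),(22,1),(8,0),(0,1),(2,0)]⟩,⟨2,[(6,1),(1,2),(5,1),
  (9,0),(1,1),(14,5)]⟩⟩,.o ⟨false,(-1),⟨1,[(4,0),(1,1),(19,2),(14,1)]⟩,⟨1,[(27,1),(8,0),(3,2)]⟩⟩]⟩)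
  (.I [0,-1,-2,-2,2,0,0,-1] (.R ⟨1,false,false,false,[1,-1,-1],[1,-1],[1,1,1],(⟨0,[(19,0)]⟩,⟨0,[(31,
  0),(0,0)]⟩),(⟨0,[(34,0)]⟩,⟨0,[(35,0)]⟩),⟨0,[(1,0)]⟩,.k,.k,(.r (-2) ⟨0,[(0,0),(43,0)]⟩ ⟨13,[(7,8),
  (6,4),(2,3),(20,1),(3,7)]⟩),.k,.k,.k,⟨true,(-1),⟨10,[(2,4),(4,4),(8,1),(11,0),(0,0),(7,0),(6,3)]⟩,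
  ⟨2,[(0,0),(11,0),(29,0)]⟩⟩,⟨false,1,⟨0,[(28,0),(12,0)]⟩,⟨0,[(11,0)]⟩⟩,⟨true,(-2),⟨0,[(7,0)]⟩,⟨15,
  [(0,14),(12,4),(0,3),(21,2),(4,1)]⟩⟩,⟨true,0,⟨4,[(5,2),(11,0),(8,1),(11,2),(3,0)]⟩,⟨0,[(27,0)]⟩⟩,
  ⟨false,(-1),⟨13,[(7,8),(6,4),(2,3),(20,1),(3,7)]⟩,⟨0,[(0,0)]⟩⟩,⟨true,0,⟨9,[(5,6),(11,3),(8,2),(11,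
  11),(3,3)]⟩,⟨1,[(5,0),(21,2)]⟩⟩,[.o ⟨false,0,⟨0,[(40,0)]⟩,⟨5,[(2,1),(11,1),(22,2),(3,1),(0,0)]⟩⟩,
  .e ⟨false,0,⟨0,[]⟩,⟨17,[(0,5),(1,1),(11,7),(26,4),(0,0)]⟩⟩ ⟨false,2,⟨5,[(0,1),(4,0),(20,0),(1,3),
  (12,5),(0,1)]⟩,⟨1,[(7,0),(1,0),(1,0)]⟩⟩,.a ⟨true,(-1),⟨2,[(7,1),(7,1),(9,0),(1,1),(14,2)]⟩,⟨0,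
  [(28,0),(12,0)]⟩⟩ ⟨false,0,⟨1,[(28,0),(0,0)]⟩,⟨1,[(41,0),(0,0)]⟩⟩ ⟨true,1,⟨3,[(0,1),(4,0),(20,0),
  (1,1),(9,1)]⟩,⟨1,[(7,0),(1,0),(1,0)]⟩⟩,.o ⟨false,(-1),⟨1,[(5,0),(1,1),(19,2),(14,1)]⟩,⟨1,[(28,1),
  (8,0),(3,2)]⟩⟩]⟩) (.I [0,0,2,2,0,0,0,-1] (.R ⟨1,false,false,true,[0,0,1],[0,1],[],(⟨0,[(32,0)]⟩,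
  ⟨0,[(31,0)]⟩),(⟨0,[(36,0)]⟩,⟨0,[(35,0)]⟩),⟨0,[(21,0)]⟩,.k,.k,.k,.k,(.r (-1) ⟨3,[(6,3),(12,1),(17,
  1),(0,0),(3,2)]⟩ ⟨0,[(0,0)]⟩),.k,⟨true,1,⟨1,[(6,0),(21,0),(13,0),(0,0)]⟩,⟨10,[(0,4),(7,4),(8,1),
  (11,0),(0,0),(7,0),(6,3)]⟩⟩,⟨false,1,⟨1,[(26,1),(11,0),(3,0)]⟩,⟨0,[(29,0)]⟩⟩,⟨true,1,⟨1,[(28,1),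
  (0,1),(12,0),(0,0)]⟩,⟨0,[(9,0)]⟩⟩,⟨true,0,⟨0,[(10,0)]⟩,⟨1,[(6,0),(20,0)]⟩⟩,⟨true,1,⟨3,[(0,1),(27,
  1),(0,1),(12,2),(0,0)]⟩,⟨0,[(11,0)]⟩⟩,⟨false,1,⟨2,[(0,0),(9,2),(4,0),(26,0),(0,1)]⟩,⟨0,[(6,0)]⟩⟩,
  [.e ⟨false,1,⟨1,[(22,0),(0,0),(18,0)]⟩,⟨0,[]⟩⟩ ⟨false,0,⟨7,[(1,0),(7,0),(0,1),(15,5),(11,2),(0,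
  3)]⟩,⟨1,[(6,0),(21,0),(0,1),(12,0),(0,0)]⟩⟩,.o ⟨false,1,⟨5,[(0,1),(14,1),(22,2),(3,1),(0,0)]⟩,⟨0,
  [(41,0)]⟩⟩,.o ⟨false,1,⟨1,[(29,1),(8,0),(3,0)]⟩,⟨0,[(12,0)]⟩⟩,.a ⟨true,0,⟨0,[(29,0)]⟩,⟨0,[(26,
  0)]⟩⟩ ⟨false,1,⟨1,[(42,0),(0,0)]⟩,⟨1,[(29,0),(0,0)]⟩⟩ ⟨true,0,⟨7,[(1,0),(7,0),(0,1),(15,5),(11,2),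
  (0,3)]⟩,⟨1,[(6,0),(21,0),(0,1)]⟩⟩]⟩) (.Q [0,-1,0,-1,0,0,0,0,-1,1,0,-1] (.p false [0,0,0,0,1] [1]
  (⟨0,[(25,0)]⟩,⟨0,[(24,0)]⟩) .k 1 (⟨0,[]⟩,⟨0,[]⟩) .k .k) (.Q [0,-1,0,0,0,0,0,0,-1,1,0,-1] (.p
  false [0,0,0,0,1] [1] (⟨0,[(26,0)]⟩,⟨0,[(25,0)]⟩) .k 1 (⟨0,[]⟩,⟨0,[]⟩) .k .k) (.R ⟨2,false,false,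
  true,[0,1],[1,0,0,0,-1],[0,0,1],(⟨0,[]⟩,⟨0,[]⟩),(⟨0,[(26,0)]⟩,⟨0,[(27,0)]⟩),⟨0,[]⟩,.k,.k,.k,(.r 0
  ⟨4,[(5,1),(11,0),(11,0),(2,0),(14,2)]⟩ ⟨1,[(8,0),(21,0),(13,0),(0,0)]⟩),.k,.k,⟨true,0,⟨1,[(31,0),
  (0,0)]⟩,⟨0,[]⟩⟩,⟨false,0,⟨9,[(0,6),(15,0),(0,0),(0,2),(5,2),(14,0)]⟩,⟨1,[(25,1),(14,0),(3,0)]⟩⟩,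
  ⟨true,0,⟨0,[(43,0)]⟩,⟨6,[(16,1),(0,1),(21,0),(1,0)]⟩⟩,⟨false,0,⟨0,[(1,0)]⟩,⟨5,[(5,1),(11,1),(7,5),
  (14,2),(3,1),(0,0)]⟩⟩,⟨false,1,⟨1,[(24,0),(0,0),(19,0)]⟩,⟨0,[]⟩⟩,⟨false,0,⟨0,[(0,0)]⟩,⟨1,[(24,0),
  (0,2),(14,0)]⟩⟩,[.a ⟨true,0,⟨9,[(0,6),(15,0),(0,0),(0,2),(5,2),(14,0)]⟩,⟨0,[(25,0)]⟩⟩ ⟨true,0,⟨1,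
  [(31,0),(0,0)]⟩,⟨0,[]⟩⟩ ⟨false,0,⟨9,[(0,6),(15,0),(0,0),(0,2),(5,2),(14,0)]⟩,⟨1,[(25,1),(14,0),(3,
  0)]⟩⟩,.e ⟨false,1,⟨1,[(24,0),(0,0),(19,0)]⟩,⟨5,[(19,1),(20,0),(0,3),(2,0)]⟩⟩ ⟨false,0,⟨0,[(0,0)]⟩,
  ⟨3,[(24,0),(0,4),(13,1),(0,1),(3,0)]⟩⟩,.o ⟨false,1,⟨1,[(40,0),(3,0)]⟩,⟨1,[(31,0),(0,0)]⟩⟩,.fo]⟩)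
  (.R ⟨2,true,false,true,[0,1],[1,0,0,0,-1],[0,0,1],(⟨0,[]⟩,⟨0,[]⟩),(⟨0,[(26,0)]⟩,⟨0,[(27,0)]⟩),⟨0,
  []⟩,.k,.k,.k,(.r 0 ⟨4,[(5,1),(11,0),(11,0),(2,0),(14,2)]⟩ ⟨1,[(8,0),(21,0),(13,0),(0,0)]⟩),.k,.k,
  ⟨true,0,⟨1,[(31,0),(0,0)]⟩,⟨0,[]⟩⟩,⟨false,0,⟨6,[(1,6),(14,1),(0,1),(21,0),(1,0)]⟩,⟨1,[(25,1),(14,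
  0),(3,0)]⟩⟩,⟨true,0,⟨0,[(43,0)]⟩,⟨6,[(16,1),(0,1),(21,0),(1,0)]⟩⟩,⟨false,0,⟨0,[(1,0)]⟩,⟨5,[(5,1),
  (11,1),(7,5),(14,2),(3,1),(0,0)]⟩⟩,⟨false,1,⟨1,[(24,0),(0,0),(19,0)]⟩,⟨0,[]⟩⟩,⟨true,0,⟨6,[(1,6),
  (14,1),(0,1),(21,0),(1,0)]⟩,⟨0,[(0,0)]⟩⟩,[]⟩)) (.Q [0,0,-1,0,0,0,0,0,1,-1,0,1] (.p true [0,0,0,0,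
  1] [1] (⟨0,[(26,0)]⟩,⟨0,[(25,0)]⟩) .k 1 (⟨0,[]⟩,⟨0,[]⟩) .k .k) (.Q [0,0,0,-1,-1,0,0,0,1,0,0,1]
  (.p true [0,0,0,0,1] [] (⟨0,[(27,0)]⟩,⟨0,[(26,0)]⟩) .k 0 (⟨0,[]⟩,⟨0,[]⟩) .k .k) (.R ⟨2,true,false,
  false,[0,1],[0,0,0,0,1],[0,0,1],(⟨0,[]⟩,⟨0,[]⟩),(⟨0,[(28,0)]⟩,⟨0,[(27,0)]⟩),⟨0,[]⟩,.k,.k,.k,(.r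
  (-1) ⟨9,[(6,3),(11,1),(6,2),(0,2),(3,1),(2,1),(12,6)]⟩ ⟨2,[(20,1),(20,0),(0,0),(2,0)]⟩),.k,.k,
  ⟨false,1,⟨1,[(25,0),(0,0),(19,0)]⟩,⟨5,[(20,1),(20,0),(0,3),(2,0)]⟩⟩,⟨true,(-1),⟨7,[(0,5),(20,1),
  (4,1),(5,0),(0,0)]⟩,⟨0,[(25,0)]⟩⟩,⟨true,0,⟨0,[(44,0)]⟩,⟨6,[(17,1),(0,1),(21,0),(1,0)]⟩⟩,⟨false,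
  (-1),⟨0,[(0,0)]⟩,⟨2,[(6,0),(11,0),(6,2),(19,0),(0,1)]⟩⟩,⟨false,1,⟨1,[(25,0),(0,0),(19,0)]⟩,⟨0,
  []⟩⟩,⟨true,(-1),⟨12,[(0,6),(1,3),(1,0),(12,0),(1,3),(6,1),(15,2)]⟩,⟨0,[(25,0)]⟩⟩,[]⟩) (.Q [0,1,0,
  0,-1,0,-1,-1,1,0,-1,1] (.p false [0,0,1] [0,0,0,0,1] (⟨0,[(35,0)]⟩,⟨0,[(34,0)]⟩) .k 2 (⟨0,[(28,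
  0)]⟩,⟨0,[(27,0)]⟩) .k (.r 0 ⟨2,[(4,0),(11,1),(29,1)]⟩ ⟨1,[(25,0),(0,0),(4,1),(0,1),(12,0)]⟩)) (.R
  ⟨1,true,false,false,[0,0,1],[0,0,0,0,1],[1,1,0,0,0,0,0,1],(⟨0,[(36,0)]⟩,⟨0,[(35,0)]⟩),(⟨0,[(29,
  0)]⟩,⟨0,[(28,0)]⟩),⟨0,[(25,0)]⟩,.k,.k,.k,.k,(.r (-1) ⟨5,[(4,1),(5,0),(12,1),(7,2),(10,0),(3,0),(0,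
  3)]⟩ ⟨1,[(18,0),(13,0),(0,0)]⟩),.k,⟨false,0,⟨17,[(4,7),(0,5),(13,3),(26,6),(0,4)]⟩,⟨1,[(32,1),(0,
  1),(12,0),(0,0)]⟩⟩,⟨true,(-1),⟨26,[(0,17),(1,6),(1,5),(7,11),(10,1),(3,1),(2,4),(16,14)]⟩,⟨0,[(26,
  0),(6,0)]⟩⟩,⟨false,0,⟨0,[]⟩,⟨1,[(26,0),(0,0),(19,0)]⟩⟩,⟨true,(-1),⟨0,[(0,0)]⟩,⟨1,[(1,1),(8,0),(20,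
  0)]⟩⟩,⟨true,0,⟨6,[(18,1),(0,1),(21,0),(1,0)]⟩,⟨0,[(45,0)]⟩⟩,⟨false,0,⟨2,[(0,0),(1,0),(4,0),(6,0),
  (12,0),(2,0),(16,0)]⟩,⟨0,[(1,0),(8,0)]⟩⟩,[]⟩) (.Q [0,0,0,0,0,-1,0,0,0,1,0,-1] (.ed true [0,1,0,0,
  1] .k) (.S ⟨1,0,[0,-1,0,-1],[1,0,0,0,-1],[1],(⟨0,[(29,0)]⟩,⟨0,[(30,0)]⟩),⟨0,[(0,0)]⟩,.k,(.r (-1)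
  ⟨1,[(11,0),(21,0),(13,0),(0,0)]⟩ ⟨4,[(8,1),(11,0),(11,0),(2,0),(14,2)]⟩),⟨false,0,⟨0,[]⟩,⟨1,[(27,
  0),(0,0),(19,0)]⟩⟩,⟨true,0,⟨0,[(46,0)]⟩,⟨6,[(19,1),(0,1),(21,0),(1,0)]⟩⟩,⟨true,0,⟨6,[(19,1),(0,1),
  (21,0),(1,0)]⟩,⟨0,[(46,0)]⟩⟩,⟨false,1,⟨1,[(27,0),(0,0),(19,0)]⟩,⟨0,[]⟩⟩,[.a ⟨true,1,⟨0,[(21,0),(5,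
  0),(20,0)]⟩,⟨9,[(3,6),(17,6),(1,3),(4,2),(15,4),(3,0)]⟩⟩ ⟨true,0,⟨0,[]⟩,⟨1,[(34,0),(0,0)]⟩⟩
  ⟨false,1,⟨1,[(11,0),(21,0),(13,0),(0,0)]⟩,⟨6,[(19,1),(0,1),(21,0),(1,0)]⟩⟩,.o ⟨false,2,⟨1,[(11,0),
  (15,1),(5,0),(14,1)]⟩,⟨28,[(3,26),(0,1),(8,12),(5,12),(2,5),(19,11),(0,2)]⟩⟩,.o ⟨false,1,⟨0,[(27,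
  0)]⟩,⟨33,[(3,22),(4,6),(2,4),(1,1),(8,2),(5,10),(6,4),(7,6)]⟩⟩,.o ⟨false,1,⟨1,[(27,1),(6,0),(0,
  0)]⟩,⟨0,[(3,0)]⟩⟩]⟩) (.R ⟨0,false,false,true,[1,0,0,0,-1],[0,1],[1,1,2,1],(⟨0,[(29,0)]⟩,⟨0,[(30,
  0)]⟩),(⟨0,[(41,0)]⟩,⟨0,[(40,0)]⟩),⟨0,[(0,0)]⟩,.k,.k,(.r (-1) ⟨1,[(11,0),(21,0),(13,0),(0,0)]⟩ ⟨4,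
  [(8,1),(11,0),(11,0),(2,0),(14,2)]⟩),(.r (-1) ⟨1,[(11,0),(21,0),(13,0),(0,0)]⟩ ⟨4,[(8,1),(11,0),
  (11,0),(2,0),(14,2)]⟩),.k,.k,⟨false,0,⟨0,[]⟩,⟨1,[(27,0),(0,0),(18,0)]⟩⟩,⟨true,0,⟨0,[(3,0)]⟩,⟨10,
  [(1,3),(6,3),(13,9),(0,3),(0,0),(2,6),(7,1),(12,2)]⟩⟩,⟨false,(-1),⟨10,[(8,4),(4,4),(8,1),(11,0),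
  (0,0),(7,0),(6,3)]⟩,⟨1,[(11,0),(21,0),(13,1),(0,1)]⟩⟩,⟨true,(-1),⟨28,[(3,26),(0,1),(8,12),(5,12),
  (2,5),(19,11),(0,2)]⟩,⟨0,[(21,0),(5,0),(20,0)]⟩⟩,⟨false,0,⟨0,[]⟩,⟨0,[]⟩⟩,⟨false,0,⟨0,[]⟩,⟨0,[]⟩⟩,
  [.a ⟨true,0,⟨0,[(45,0)]⟩,⟨0,[(21,0),(26,0)]⟩⟩ ⟨true,(-1),⟨10,[(8,4),(4,4),(8,1),(11,0),(0,0),(7,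
  0),(6,3)]⟩,⟨1,[(11,0),(21,0),(13,0),(0,0)]⟩⟩ ⟨false,0,⟨1,[(3,0),(0,0),(39,0)]⟩,⟨0,[(21,0),(5,0),
  (20,0)]⟩⟩,.o ⟨false,1,⟨3,[(2,1),(1,1),(38,0),(4,0)]⟩,⟨0,[(46,0)]⟩⟩,.o ⟨false,1,⟨0,[(27,0)]⟩,⟨33,
  [(3,22),(4,6),(2,4),(1,1),(8,2),(5,10),(6,4),(7,6)]⟩⟩,.o ⟨false,1,⟨1,[(27,1),(6,0),(0,0)]⟩,⟨0,[(3,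
  0)]⟩⟩]⟩)))) (.I [0,0,-2,0,0,-2,-1] (.N [0,-2,1] 0 ⟨0,[(3,0)]⟩ ⟨0,[(6,0)]⟩ (.x (-1) ⟨1,[(25,0),(0,
  0),(5,2),(0,0),(0,1),(1,3),(4,0)]⟩ ⟨0,[(0,0)]⟩)) (.Q [0,0,0,0,0,0,0,0,1,-1,0,1] (.p true [0,0,0,0,
  1] [1] (⟨0,[(28,0)]⟩,⟨0,[(27,0)]⟩) .k 1 (⟨0,[]⟩,⟨0,[]⟩) .k .k) (.Q [0,0,0,0,0,-1,0,0,0,0,0,1]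
  (.ed false [1,-1,0,0,1] .k) (.Q [0,0,1,0,-1,0,0,0,1,0,0,1] (.p true [0,0,0,0,1] [] (⟨0,[(30,0)]⟩,
  ⟨0,[(29,0)]⟩) .k 0 (⟨0,[]⟩,⟨0,[]⟩) .k .k) (.S ⟨1,0,[0,1,0,-1],[0,0,0,0,1],[1,2],(⟨0,[(31,0)]⟩,⟨0,
  [(30,0)]⟩),⟨0,[(1,0)]⟩,.k,(.r 0 ⟨2,[(23,1),(20,0),(0,0),(2,0)]⟩ ⟨9,[(3,2),(5,3),(1,2),(9,1),(11,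
  1),(2,1),(12,6)]⟩),⟨false,0,⟨0,[]⟩,⟨1,[(3,0),(7,0),(37,0)]⟩⟩,⟨true,0,⟨0,[(47,0)]⟩,⟨6,[(20,1),(0,
  1),(21,0),(1,0)]⟩⟩,⟨true,0,⟨6,[(20,1),(0,1),(21,0),(1,0)]⟩,⟨0,[(47,0)]⟩⟩,⟨false,1,⟨1,[(3,0),(7,0),
  (37,0)]⟩,⟨0,[]⟩⟩,[.e ⟨false,0,⟨0,[(43,0)]⟩,⟨0,[(49,0)]⟩⟩ ⟨false,0,⟨2,[(23,1),(20,0),(0,0),(2,0)]⟩,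
  ⟨2,[(9,0),(11,0),(26,0),(0,1)]⟩⟩,.o ⟨false,0,⟨1,[(2,1),(9,0),(21,0)]⟩,⟨1,[(4,1),(39,0),(0,1),(3,
  0)]⟩⟩,.o ⟨false,0,⟨0,[(2,0)]⟩,⟨0,[(28,0)]⟩⟩,.a ⟨true,(-1),⟨0,[(0,0)]⟩,⟨0,[(4,0),(43,0)]⟩⟩ ⟨false,
  0,⟨5,[(23,1),(20,0),(0,3),(2,0)]⟩,⟨1,[(35,0),(0,0),(12,1)]⟩⟩ ⟨true,0,⟨2,[(23,1),(20,0),(0,0),(2,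
  0)]⟩,⟨7,[(9,1),(11,0),(2,0),(8,0),(2,0),(12,0)]⟩⟩]⟩) (.Q [0,-1,0,2,1,0,-1,-1,-1,1,-1,-1] (.p
  false [0,0,1] [1,0,0,0,-1] (⟨0,[(38,0)]⟩,⟨0,[(37,0)]⟩) .k 2 (⟨0,[(30,0)]⟩,⟨0,[(31,0)]⟩) .k (.r 1
  ⟨0,[(7,0),(0,5),(0,5),(0,5),(1,5),(9,3),(16,23),(4,4),(0,1)]⟩ ⟨1,[(3,0),(7,0),(22,1),(0,1),(12,0),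
  (0,1)]⟩)) (.R ⟨1,false,false,false,[0,0,0,0,1],[1,-1],[1,1],(⟨0,[(32,0)]⟩,⟨0,[(31,0)]⟩),(⟨0,[(42,
  0)]⟩,⟨0,[(43,0)]⟩),⟨0,[(2,0)]⟩,.k,.k,(.r 0 ⟨2,[(24,1),(20,0),(0,0),(2,0)]⟩ ⟨9,[(4,2),(5,3),(1,2),
  (9,1),(11,1),(2,1),(12,6)]⟩),(.r 0 ⟨4,[(10,1),(11,0),(11,0),(2,0),(14,2)]⟩ ⟨1,[(13,0),(21,0),(13,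
  0),(0,0)]⟩),.k,.k,⟨false,0,⟨6,[(21,1),(0,1),(21,0),(1,0)]⟩,⟨1,[(13,0),(21,0),(13,0),(0,0)]⟩⟩,
  ⟨true,0,⟨0,[(5,0)]⟩,⟨0,[(3,0)]⟩⟩,⟨true,0,⟨0,[]⟩,⟨0,[(52,0)]⟩⟩,⟨false,1,⟨1,[(0,1),(12,2),(21,0)]⟩,
  ⟨0,[(6,0)]⟩⟩,⟨false,1,⟨2,[(10,0),(11,0),(26,0),(0,1)]⟩,⟨0,[(48,0)]⟩⟩,⟨false,1,⟨0,[(0,0),(12,0)]⟩,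
  ⟨2,[(6,1),(17,0),(5,0),(14,0)]⟩⟩,[.o ⟨false,0,⟨0,[(48,0)]⟩,⟨5,[(10,1),(11,1),(22,2),(3,1),(0,
  0)]⟩⟩,.a ⟨true,0,⟨0,[(23,0),(26,0)]⟩,⟨0,[(47,0)]⟩⟩ ⟨true,0,⟨0,[]⟩,⟨1,[(36,0),(0,0)]⟩⟩ ⟨false,1,⟨3,
  [(0,1),(0,1),(11,1),(10,1),(24,0),(0,0)]⟩,⟨0,[(6,0)]⟩⟩,.o ⟨false,0,⟨0,[(3,0)]⟩,⟨0,[(29,0)]⟩⟩,.o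
  ⟨false,0,⟨1,[(3,1),(32,0),(0,0)]⟩,⟨0,[(1,0)]⟩⟩]⟩) (.S ⟨1,0,[0,2,0,-1],[0,0,0,0,1],[1,1],(⟨0,[(32,
  0)]⟩,⟨0,[(31,0)]⟩),⟨0,[(2,0)]⟩,.k,(.r 0 ⟨6,[(0,1),(0,1),(22,1),(10,1),(10,0),(2,1)]⟩ ⟨9,[(4,2),(5,
  3),(1,2),(9,1),(11,1),(2,1),(12,6)]⟩),⟨true,0,⟨0,[]⟩,⟨0,[(52,0)]⟩⟩,⟨false,0,⟨0,[(48,0)]⟩,⟨2,[(10,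
  0),(11,0),(26,0),(0,1)]⟩⟩,⟨false,1,⟨2,[(10,0),(11,0),(26,0),(0,1)]⟩,⟨0,[(48,0)]⟩⟩,⟨true,0,⟨0,[(52,
  0)]⟩,⟨0,[]⟩⟩,[.o ⟨false,(-1),⟨0,[(0,0),(16,0)]⟩,⟨8,[(1,6),(8,1),(11,1),(2,0),(3,1),(20,9)]⟩⟩,.a
  ⟨true,(-1),⟨0,[(3,0),(19,0)]⟩,⟨0,[(5,0),(40,0),(3,0)]⟩⟩ ⟨true,0,⟨0,[]⟩,⟨1,[(36,0),(0,0)]⟩⟩ ⟨false,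
  0,⟨6,[(0,1),(0,1),(22,1),(10,1),(10,0),(2,1)]⟩,⟨2,[(10,0),(11,0),(26,0),(0,1)]⟩⟩,.o ⟨false,0,⟨0,
  [(3,0)]⟩,⟨0,[(29,0)]⟩⟩,.o ⟨false,0,⟨5,[(0,1),(2,1),(6,1),(19,1),(6,1),(7,0),(4,0)]⟩,⟨0,[(1,
  0)]⟩⟩]⟩))) (.Q [0,0,1,0,-1,0,0,0,1,0,0,1] (.p true [0,0,0,0,1] [] (⟨0,[(30,0)]⟩,⟨0,[(29,0)]⟩) .k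
  0 (⟨0,[]⟩,⟨0,[]⟩) .k .k) (.R ⟨0,false,false,true,[0,0,0,0,1],[0,1],[],(⟨0,[(31,0)]⟩,⟨0,[(30,0)]⟩),
  (⟨0,[(42,0)]⟩,⟨0,[(41,0)]⟩),⟨0,[(1,0)]⟩,.k,.k,(.r 0 ⟨2,[(23,1),(20,0),(0,0),(2,0)]⟩ ⟨9,[(3,2),(5,
  3),(1,2),(9,1),(11,1),(2,1),(12,6)]⟩),(.r 0 ⟨2,[(23,1),(20,0),(0,0),(2,0)]⟩ ⟨9,[(3,2),(5,3),(1,2),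
  (9,1),(11,1),(2,1),(12,6)]⟩),.k,.k,⟨true,1,⟨1,[(12,0),(21,0),(13,0),(0,0)]⟩,⟨10,[(9,4),(4,4),(8,
  1),(11,0),(0,0),(7,0),(6,3)]⟩⟩,⟨false,2,⟨0,[(28,0),(19,0)]⟩,⟨0,[(0,0)]⟩⟩,⟨false,1,⟨0,[(49,0)]⟩,⟨0,
  [(51,0)]⟩⟩,⟨true,1,⟨1,[(4,1),(39,0),(0,1),(3,0)]⟩,⟨0,[(2,0),(19,0)]⟩⟩,⟨false,0,⟨0,[]⟩,⟨0,[]⟩⟩,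
  ⟨false,0,⟨0,[]⟩,⟨0,[]⟩⟩,[.e ⟨false,1,⟨1,[(3,0),(7,0),(36,0)]⟩,⟨0,[]⟩⟩ ⟨false,1,⟨0,[(28,0),(16,
  0)]⟩,⟨3,[(0,1),(1,1),(20,1),(24,0),(0,2)]⟩⟩,.o ⟨false,1,⟨5,[(9,1),(11,1),(22,2),(3,1),(0,0)]⟩,⟨0,
  [(47,0)]⟩⟩,.o ⟨false,0,⟨0,[(2,0)]⟩,⟨0,[(28,0)]⟩⟩,.a ⟨true,(-1),⟨0,[(0,0)]⟩,⟨0,[(4,0),(43,0)]⟩⟩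
  ⟨false,1,⟨1,[(48,0),(0,0)]⟩,⟨1,[(35,0),(0,0)]⟩⟩ ⟨true,1,⟨0,[(28,0),(16,0)]⟩,⟨1,[(0,1),(11,0),(21,
  0)]⟩⟩]⟩) (.R ⟨0,false,false,false,[0,0,0,0,1],[0,1],[1,0,2,1],(⟨0,[(31,0)]⟩,⟨0,[(30,0)]⟩),(⟨0,
  [(42,0)]⟩,⟨0,[(41,0)]⟩),⟨0,[(1,0)]⟩,.k,.k,(.r 0 ⟨2,[(23,1),(20,0),(0,0),(2,0)]⟩ ⟨9,[(3,2),(5,3),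
  (1,2),(9,1),(11,1),(2,1),(12,6)]⟩),(.r 0 ⟨2,[(23,1),(20,0),(0,0),(2,0)]⟩ ⟨9,[(3,2),(5,3),(1,2),(9,
  1),(11,1),(2,1),(12,6)]⟩),.k,.k,⟨false,0,⟨0,[]⟩,⟨1,[(3,0),(7,0),(36,0)]⟩⟩,⟨true,1,⟨0,[(0,0)]⟩,⟨14,
  [(2,11),(6,1),(2,1),(10,11),(0,7),(4,2),(6,1),(12,4)]⟩⟩,⟨true,0,⟨2,[(9,0),(2,0),(11,0),(11,0),(12,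
  0)]⟩,⟨1,[(23,1),(20,0),(0,1),(2,0)]⟩⟩,⟨false,2,⟨8,[(0,6),(8,1),(11,1),(2,0),(3,1),(20,9)]⟩,⟨0,[(2,
  0),(19,0)]⟩⟩,⟨false,0,⟨0,[]⟩,⟨0,[]⟩⟩,⟨false,0,⟨0,[]⟩,⟨0,[]⟩⟩,[.o ⟨false,1,⟨5,[(9,1),(11,1),(22,2),
  (3,1),(0,0)]⟩,⟨0,[(47,0)]⟩⟩,.a ⟨true,1,⟨2,[(9,0),(11,0),(26,0),(0,1)]⟩,⟨0,[(22,0)]⟩⟩ ⟨true,0,⟨2,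
  [(9,0),(2,0),(11,0),(11,0),(12,0)]⟩,⟨2,[(23,1),(20,0),(0,0),(2,0)]⟩⟩ ⟨false,2,⟨2,[(0,2),(8,0),(11,
  0),(26,0),(0,1)]⟩,⟨0,[(2,0),(19,0)]⟩⟩,.o ⟨false,0,⟨0,[(2,0)]⟩,⟨0,[(28,0)]⟩⟩,.o ⟨false,0,⟨1,[(2,1),
  (32,0),(0,0)]⟩,⟨0,[(0,0)]⟩⟩]⟩))) (.Q [0,0,1,0,0,0,0,0,1,-1,0,1] (.p true [0,0,0,0,1] [1] (⟨0,[(29,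
  0)]⟩,⟨0,[(28,0)]⟩) .k 1 (⟨0,[]⟩,⟨0,[]⟩) .k .k) (.Q [0,0,0,0,0,-1,0,0,0,0,0,1] (.ed false [1,-1,0,
  0,1] .k) (.S ⟨1,0,[0,0,1],[1,1,0,0,-1],[0,-1,1],(⟨0,[(30,0),(8,0)]⟩,⟨0,[(0,0)]⟩),⟨0,[(30,0)]⟩,(.r
  (-1) ⟨5,[(1,0),(1,1),(0,0),(4,1),(1,1),(9,1),(27,3)]⟩ ⟨2,[(23,1),(20,0),(0,0),(2,0)]⟩),.k,⟨true,0,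
  ⟨0,[(47,0)]⟩,⟨6,[(20,1),(0,1),(21,0),(1,0)]⟩⟩,⟨false,0,⟨0,[(47,0)]⟩,⟨2,[(9,0),(11,0),(26,0),(0,
  1)]⟩⟩,⟨false,1,⟨1,[(3,0),(7,0),(37,0)]⟩,⟨0,[]⟩⟩,⟨true,0,⟨0,[(51,0)]⟩,⟨0,[]⟩⟩,[.a ⟨true,0,⟨0,[(2,
  0)]⟩,⟨0,[(29,0)]⟩⟩ ⟨false,1,⟨1,[(3,0),(7,0),(37,0)]⟩,⟨5,[(23,1),(20,0),(0,3),(2,0)]⟩⟩ ⟨true,0,⟨1,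
  [(1,0),(2,0)]⟩,⟨0,[]⟩⟩,.o ⟨false,1,⟨1,[(2,1),(41,0),(4,0)]⟩,⟨2,[(5,1),(17,0),(5,0),(14,0)]⟩⟩,.o
  ⟨false,1,⟨1,[(2,1),(41,0),(3,0)]⟩,⟨0,[(1,0)]⟩⟩,.e ⟨false,1,⟨0,[(49,0)]⟩,⟨0,[(51,0)]⟩⟩ ⟨false,1,⟨1,
  [(3,0),(7,0),(37,0)]⟩,⟨0,[]⟩⟩]⟩) (.R ⟨0,false,false,false,[0,0,0,0,1],[1,-1],[1,1,1],(⟨0,[(31,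
  0)]⟩,⟨0,[(30,0)]⟩),(⟨0,[(41,0)]⟩,⟨0,[(42,0)]⟩),⟨0,[(0,0)]⟩,.k,.k,(.r 0 ⟨2,[(23,1),(20,0),(0,0),(2,
  0)]⟩ ⟨5,[(1,0),(1,1),(0,0),(4,1),(1,1),(9,1),(27,3)]⟩),(.r 0 ⟨4,[(9,1),(11,0),(11,0),(2,0),(14,
  2)]⟩ ⟨1,[(12,0),(21,0),(13,0),(0,0)]⟩),.k,.k,⟨true,(-1),⟨10,[(1,0),(2,0),(4,4),(4,4),(8,1),(20,0),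
  (6,3)]⟩,⟨1,[(12,0),(21,0),(13,0),(0,0)]⟩⟩,⟨false,0,⟨0,[(2,0)]⟩,⟨1,[(29,1),(14,0),(3,0)]⟩⟩,⟨true,0,
  ⟨1,[(1,0),(2,0)]⟩,⟨5,[(23,1),(20,0),(0,3),(2,0)]⟩⟩,⟨false,1,⟨1,[(2,1),(9,0),(21,0),(14,1)]⟩,⟨0,
  [(5,0)]⟩⟩,⟨false,0,⟨0,[]⟩,⟨0,[]⟩⟩,⟨false,0,⟨0,[]⟩,⟨0,[]⟩⟩,[.o ⟨false,0,⟨0,[(47,0)]⟩,⟨5,[(9,1),(11,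
  1),(22,2),(3,1),(0,0)]⟩⟩,.e ⟨false,0,⟨0,[]⟩,⟨1,[(3,0),(7,0),(36,0)]⟩⟩ ⟨false,1,⟨1,[(2,1),(9,0),
  (21,0),(13,0),(0,0)]⟩,⟨0,[(5,0)]⟩⟩,.a ⟨true,0,⟨0,[(29,0)]⟩,⟨0,[(2,0)]⟩⟩ ⟨false,0,⟨1,[(1,0),(2,
  0)]⟩,⟨1,[(48,0),(0,0)]⟩⟩ ⟨true,0,⟨1,[(2,1),(9,0),(21,0)]⟩,⟨0,[(5,0)]⟩⟩,.o ⟨false,0,⟨0,[(1,0)]⟩,⟨1,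
  [(2,1),(41,0),(3,0)]⟩⟩]⟩)) (.Q [0,0,0,0,0,-1,0,0,0,0,0,1] (.ed false [1,-1,0,0,1] .k) (.S ⟨1,0,[0,
  -1,1],[1,1,0,0,-1],[1,0,1,1],(⟨0,[(30,0),(8,0)]⟩,⟨0,[(0,0)]⟩),⟨0,[(30,0)]⟩,(.r (-1) ⟨9,[(3,2),(5,
  3),(1,2),(9,1),(11,1),(2,1),(12,6)]⟩ ⟨2,[(23,1),(20,0),(0,0),(2,0)]⟩),.k,⟨false,0,⟨0,[]⟩,⟨1,[(3,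
  0),(7,0),(37,0)]⟩⟩,⟨true,0,⟨0,[(47,0)]⟩,⟨6,[(20,1),(0,1),(21,0),(1,0)]⟩⟩,⟨true,0,⟨6,[(20,1),(0,1),
  (21,0),(1,0)]⟩,⟨0,[(47,0)]⟩⟩,⟨false,1,⟨1,[(3,0),(7,0),(37,0)]⟩,⟨0,[]⟩⟩,[.o ⟨false,1,⟨1,[(1,0),(2,
  0),(39,0),(4,0)]⟩,⟨2,[(5,1),(17,0),(5,0),(14,0)]⟩⟩,.e ⟨false,1,⟨2,[(9,0),(11,0),(26,0),(0,1)]⟩,⟨2,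
  [(23,1),(20,0),(0,0),(2,0)]⟩⟩ ⟨false,1,⟨0,[(49,0)]⟩,⟨0,[(43,0)]⟩⟩,.a ⟨true,0,⟨0,[(1,0)]⟩,⟨1,[(29,
  1),(5,0),(0,0)]⟩⟩ ⟨true,0,⟨7,[(9,1),(11,0),(2,0),(8,0),(2,0),(12,0)]⟩,⟨2,[(23,1),(20,0),(0,0),(2,
  0)]⟩⟩ ⟨false,1,⟨1,[(35,0),(0,0),(12,1)]⟩,⟨5,[(23,1),(20,0),(0,3),(2,0)]⟩⟩,.e ⟨false,1,⟨2,[(9,0),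
  (11,0),(26,0),(0,1)]⟩,⟨0,[(47,0)]⟩⟩ ⟨false,1,⟨0,[(49,0)]⟩,⟨0,[(51,0)]⟩⟩]⟩) (.R ⟨0,false,false,
  true,[0,1,0,0,-1],[1,0,0,0,-1],[1,0,1,1],(⟨0,[(0,0)]⟩,⟨0,[(31,0),(9,0)]⟩),(⟨0,[(30,0)]⟩,⟨0,[(31,
  0)]⟩),⟨0,[(31,0)]⟩,(.r (-1) ⟨9,[(3,2),(5,3),(1,2),(9,1),(11,1),(2,1),(12,6)]⟩ ⟨2,[(23,1),(20,0),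
  (0,0),(2,0)]⟩),.k,.k,.k,.k,.k,⟨true,0,⟨7,[(9,1),(11,0),(2,0),(8,0),(2,0),(12,0)]⟩,⟨0,[(47,0)]⟩⟩,
  ⟨false,0,⟨3,[(1,0),(1,0),(25,0),(2,0),(5,0),(2,1)]⟩,⟨1,[(44,0),(3,0)]⟩⟩,⟨false,0,⟨0,[]⟩,⟨1,[(3,0),
  (7,0),(37,0)]⟩⟩,⟨true,(-1),⟨0,[(22,0)]⟩,⟨5,[(9,1),(11,1),(22,2),(3,1),(0,0)]⟩⟩,⟨false,0,⟨0,[]⟩,⟨0,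
  []⟩⟩,⟨false,0,⟨0,[]⟩,⟨0,[]⟩⟩,[.a ⟨true,0,⟨0,[(2,0)]⟩,⟨0,[(29,0)]⟩⟩ ⟨true,0,⟨7,[(9,1),(11,0),(2,0),
  (8,0),(2,0),(12,0)]⟩,⟨0,[(47,0)]⟩⟩ ⟨false,0,⟨3,[(1,0),(1,0),(25,0),(2,0),(5,0),(2,1)]⟩,⟨1,[(44,0),
  (3,0)]⟩⟩,.o ⟨false,1,⟨1,[(1,0),(2,0),(39,0),(4,0)]⟩,⟨2,[(5,1),(17,0),(5,0),(14,0)]⟩⟩,.o ⟨false,1,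
  ⟨0,[(1,0),(42,0)]⟩,⟨1,[(29,1),(5,0),(0,0)]⟩⟩,.o ⟨false,1,⟨1,[(1,0),(2,0),(39,1)]⟩,⟨0,[(29,
  0)]⟩⟩]⟩)))))))))))) (.R ⟨1,false,false,true,[0,0,1],[0,1],[],(⟨0,[(27,0)]⟩,⟨0,[(26,0)]⟩),(⟨0,[(31,
  0)]⟩,⟨0,[(30,0)]⟩),⟨0,[(16,0)]⟩,.k,.k,.k,.k,(.r (-1) ⟨3,[(1,3),(12,1),(17,1),(0,0),(3,2)]⟩ ⟨9,[(0,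
  3),(4,1),(3,5),(3,1),(1,1),(0,5),(6,1),(9,0),(4,4)]⟩),.k,⟨true,1,⟨1,[(1,0),(21,0),(13,0),(0,0)]⟩,
  ⟨3,[(3,1),(5,0),(13,0),(0,1),(0,0)]⟩⟩,⟨false,1,⟨1,[(21,1),(11,0),(3,0)]⟩,⟨0,[(24,0)]⟩⟩,⟨true,1,⟨1,
  [(23,1),(0,1),(12,0),(0,0)]⟩,⟨0,[(4,0)]⟩⟩,⟨true,0,⟨0,[(5,0)]⟩,⟨1,[(1,0),(20,0)]⟩⟩,⟨true,1,⟨1,[(9,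
  0),(13,0),(0,0),(12,0),(0,0)]⟩,⟨0,[(6,0)]⟩⟩,⟨false,1,⟨5,[(5,5),(3,1),(0,1),(26,0),(0,4)]⟩,⟨0,[(1,
  0)]⟩⟩,[.e ⟨false,1,⟨1,[(17,0),(0,0),(18,0)]⟩,⟨0,[]⟩⟩ ⟨false,0,⟨0,[(7,0),(26,0)]⟩,⟨1,[(1,0),(21,0),
  (0,1),(12,0),(0,0)]⟩⟩,.o ⟨false,1,⟨5,[(9,1),(0,1),(22,2),(3,0),(0,1)]⟩,⟨0,[(36,0)]⟩⟩,.o ⟨false,1,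
  ⟨1,[(24,1),(8,0),(3,0)]⟩,⟨0,[(7,0)]⟩⟩,.a ⟨true,0,⟨0,[(24,0)]⟩,⟨0,[(21,0)]⟩⟩ ⟨false,1,⟨1,[(37,0),
  (0,0)]⟩,⟨1,[(24,0),(0,0)]⟩⟩ ⟨true,0,⟨0,[(7,0),(26,0)]⟩,⟨1,[(1,0),(21,0),(0,1)]⟩⟩]⟩))

theorem ok53 : chk K t53 r34 = true := by decide +kernel

noncomputable def t58 : Tre :=
  (.R ⟨2,true,false,false,[0,1],[0,0,1],[1,0,1,1],(⟨0,[]⟩,⟨0,[]⟩),(⟨0,[(22,0)]⟩,⟨0,[(21,0)]⟩),⟨0,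
  []⟩,.k,.k,.k,.k,.k,.k,⟨false,1,⟨1,[(4,0),(13,0),(0,0),(12,0),(0,0)]⟩,⟨0,[(3,0)]⟩⟩,⟨true,0,⟨0,[(19,
  0)]⟩,⟨0,[(2,0)]⟩⟩,⟨true,0,⟨0,[]⟩,⟨0,[(35,0)]⟩⟩,⟨false,0,⟨0,[(0,0)]⟩,⟨7,[(4,3),(4,1),(2,0),(0,0),
  (4,3),(9,0),(3,1),(0,3)]⟩⟩,⟨false,1,⟨5,[(4,1),(0,1),(26,0),(0,4)]⟩,⟨0,[(31,0)]⟩⟩,⟨true,0,⟨6,[(0,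
  3),(7,0),(8,2),(11,0),(2,0)]⟩,⟨0,[(18,0)]⟩⟩,[]⟩)

theorem ok58 : chk K t58 r25 = true := by decide +kernel

noncomputable def t60 : Tre :=
  (.Q [0,0,1,0,-1,0,-1,0,0,1,-1] (.p false [0,0,1] [1] (⟨0,[(21,0)]⟩,⟨0,[(20,0)]⟩) .k 1 (⟨0,[]⟩,⟨0,
  []⟩) .k .k) (.S ⟨1,0,[0,0,0,-1,0,0,0,1],[0,0,1],[0,1,0,-1,0,0,0,1],(⟨0,[(22,0)]⟩,⟨0,[(21,0)]⟩),⟨0,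
  [(11,0)]⟩,.k,.k,⟨false,0,⟨0,[(31,0)]⟩,⟨1,[(1,0),(3,0),(27,0)]⟩⟩,⟨true,0,⟨0,[(31,0)]⟩,⟨6,[(4,1),(0,
  1),(21,0),(1,0)]⟩⟩,⟨true,0,⟨0,[(35,0)]⟩,⟨0,[]⟩⟩,⟨false,1,⟨1,[(12,0),(0,0),(19,0)]⟩,⟨0,[]⟩⟩,[.e
  ⟨false,0,⟨6,[(3,4),(3,0),(1,0),(7,1),(9,1),(0,0)]⟩,⟨0,[(1,0)]⟩⟩ ⟨false,0,⟨0,[(3,0)]⟩,⟨0,[(1,0),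
  (33,0)]⟩⟩,.o ⟨false,1,⟨1,[(3,1),(15,1),(8,0),(4,0)]⟩,⟨0,[(0,0),(0,0),(4,0),(21,0),(0,0)]⟩⟩,.o
  ⟨false,1,⟨1,[(19,1),(8,0),(3,0)]⟩,⟨0,[(2,0)]⟩⟩,.a ⟨true,0,⟨0,[(19,0)]⟩,⟨0,[(16,0)]⟩⟩ ⟨false,0,⟨0,
  [(3,0)]⟩,⟨1,[(1,1),(17,0),(0,0)]⟩⟩ ⟨true,0,⟨0,[(3,0)]⟩,⟨1,[(4,0),(13,0),(0,0)]⟩⟩]⟩) (.S ⟨1,0,[0,1,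
  0,-1,0,0,0,-1],[1,0,-1],[1,0,0,0,0,0,0,-1],(⟨0,[(21,0)]⟩,⟨0,[(22,0)]⟩),⟨0,[(10,0)]⟩,.k,.k,⟨true,0,
  ⟨0,[]⟩,⟨0,[(35,0)]⟩⟩,⟨false,0,⟨0,[(31,0)]⟩,⟨1,[(1,0),(3,0),(27,0)]⟩⟩,⟨false,1,⟨1,[(1,0),(3,0),(27,
  0)]⟩,⟨0,[(31,0)]⟩⟩,⟨true,0,⟨0,[(35,0)]⟩,⟨0,[]⟩⟩,[.o ⟨false,0,⟨0,[(18,0),(12,0)]⟩,⟨17,[(0,15),(2,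
  13),(1,1),(2,9),(8,1),(10,0),(4,10)]⟩⟩,.a ⟨true,0,⟨0,[(6,0),(11,0),(14,0)]⟩,⟨2,[(0,1),(2,2),(2,1),
  (1,1),(10,0),(9,1),(3,1)]⟩⟩ ⟨true,1,⟨0,[(1,0),(29,0)]⟩,⟨4,[(3,3),(1,0),(0,1),(0,1),(0,2),(19,
  1)]⟩⟩ ⟨false,1,⟨5,[(0,3),(0,1),(5,3),(10,3),(13,0),(0,2)]⟩,⟨2,[(3,1),(1,0),(2,0),(20,0),(3,0)]⟩⟩,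
  .o ⟨false,0,⟨0,[(2,0)]⟩,⟨3,[(0,1),(11,0),(0,0),(5,1),(8,0)]⟩⟩,.o ⟨false,0,⟨0,[(20,0)]⟩,⟨0,[(0,
  0)]⟩⟩]⟩))

theorem ok60 : chk K t60 r24 = true := by decide +kernel

noncomputable def t62 : Tre :=
  (.K ⟨0,[0,1,1],0,0,(⟨0,[(20,0),(0,0)]⟩,⟨0,[(8,0)]⟩),.k,.k,(.r 1 ⟨0,[(1,0),(4,0)]⟩ ⟨1,[(16,1),(0,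
  1),(11,3),(0,2),(0,0)]⟩),.k,.k,[⟨1,[(17,0),(0,0)]⟩,⟨0,[(0,0)]⟩,⟨0,[(16,0),(12,0)]⟩,⟨0,[(0,0),(2,
  0)]⟩]⟩)

theorem ok62 : chk K t62 r23 = true := by decide +kernel

noncomputable def t69 : Tre :=
  (.Q [0,0,0,0,0,0,-1,0,0,0,-1] (.p false [0,0,1] [] (⟨0,[(15,0)]⟩,⟨0,[(14,0)]⟩) .k 0 (⟨0,[]⟩,⟨0,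
  []⟩) .k .k) (.R ⟨2,true,false,false,[0,1],[0,0,1],[0,0,1],(⟨0,[]⟩,⟨0,[]⟩),(⟨0,[(16,0)]⟩,⟨0,[(15,
  0)]⟩),⟨0,[]⟩,.k,.k,.k,.k,.k,.k,⟨false,1,⟨1,[(12,1),(0,1),(12,0),(0,0)]⟩,⟨0,[(1,0),(22,0)]⟩⟩,⟨true,
  0,⟨0,[(13,0)]⟩,⟨0,[(0,0)]⟩⟩,⟨true,0,⟨0,[(25,0)]⟩,⟨0,[(24,0)]⟩⟩,⟨false,0,⟨0,[(1,0),(11,0)]⟩,⟨0,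
  [(12,0),(11,0),(2,0)]⟩⟩,⟨false,1,⟨1,[(6,0),(0,0),(19,0)]⟩,⟨0,[]⟩⟩,⟨true,0,⟨0,[(1,0),(11,0),(10,
  0)]⟩,⟨0,[(12,0)]⟩⟩,[]⟩) (.Q [0,1,0,-1,-1,0,1,1,0,0,1] (.p true [0,0,1] [] (⟨0,[(16,0)]⟩,⟨0,[(15,
  0)]⟩) .k 0 (⟨0,[]⟩,⟨0,[]⟩) .k .k) (.S ⟨1,1,[],[0,0,1],[0,1,1],(⟨0,[(17,0)]⟩,⟨0,[(16,0)]⟩),⟨0,[(6,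
  0)]⟩,.k,.k,⟨true,0,⟨0,[(13,0),(0,0)]⟩,⟨0,[(2,0),(22,0)]⟩⟩,⟨false,1,⟨0,[(13,0),(14,0)]⟩,⟨0,[(0,0),
  (24,0),(2,0)]⟩⟩,⟨false,1,⟨0,[(13,0),(0,0),(10,0),(2,0)]⟩,⟨0,[(2,0)]⟩⟩,⟨true,1,⟨0,[(13,0),(11,0),
  (2,0)]⟩,⟨0,[(0,0)]⟩⟩,[.fo,.o ⟨false,1,⟨1,[(23,0),(4,0)]⟩,⟨0,[(30,0)]⟩⟩,.e ⟨false,0,⟨1,[(14,0),(0,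
  0)]⟩,⟨1,[(27,0),(0,0)]⟩⟩ ⟨false,1,⟨3,[(4,1),(2,0),(0,0),(14,0),(4,1)]⟩,⟨0,[(1,0)]⟩⟩,.a ⟨true,0,⟨0,
  [(14,0)]⟩,⟨0,[(11,0)]⟩⟩ ⟨true,0,⟨0,[(30,0)]⟩,⟨0,[]⟩⟩ ⟨false,1,⟨1,[(11,1),(11,0),(4,0)]⟩,⟨0,[(14,
  0)]⟩⟩]⟩) (.S ⟨1,0,[0,0,1,0,0,0,0,1],[0,1,1],[0,1,1,0,0,0,0,1],(⟨0,[(17,0),(0,0)]⟩,⟨0,[(5,0)]⟩),⟨0,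
  [(17,0)]⟩,.k,.k,⟨false,0,⟨0,[(26,0)]⟩,⟨0,[(25,0),(2,0)]⟩⟩,⟨true,0,⟨0,[(26,0)]⟩,⟨0,[(25,0)]⟩⟩,
  ⟨true,0,⟨0,[(30,0)]⟩,⟨0,[]⟩⟩,⟨false,1,⟨1,[(7,0),(0,0),(19,0)]⟩,⟨0,[]⟩⟩,[.e ⟨false,0,⟨6,[(2,1),(9,
  4),(2,4),(6,0),(1,1)]⟩,⟨0,[(0,0),(0,1),(0,0),(10,0)]⟩⟩ ⟨false,0,⟨1,[(2,1),(11,0),(0,0),(9,1)]⟩,⟨3,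
  [(0,2),(0,3),(1,0),(9,0),(8,0)]⟩⟩,.o ⟨false,1,⟨1,[(2,1),(11,1),(8,0),(1,1),(2,0)]⟩,⟨0,[(13,0)]⟩⟩,
  .o ⟨false,1,⟨1,[(1,1),(21,0),(3,0)]⟩,⟨0,[(15,0)]⟩⟩,.a ⟨true,0,⟨0,[(1,0)]⟩,⟨1,[(4,0),(13,0),(1,
  0)]⟩⟩ ⟨false,0,⟨1,[(2,1),(11,0),(0,0),(9,1)]⟩,⟨0,[(1,0),(11,0),(14,0)]⟩⟩ ⟨true,0,⟨1,[(2,1),(11,0),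
  (0,0),(9,1)]⟩,⟨0,[(1,0),(11,0)]⟩⟩]⟩)))

theorem ok69 : chk K t69 l35 = true := by decide +kernel

noncomputable def t70 : Tre :=
  (.N [0,3] 1 ⟨0,[(0,0)]⟩ ⟨0,[(3,0)]⟩ (.x (-2) ⟨3,[(3,1),(1,5),(0,5),(16,2),(0,5),(3,2)]⟩ ⟨0,[(0,0),
  (17,2),(7,2)]⟩))

theorem ok70 : chk K t70 l37 = true := by decide +kernel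

noncomputable def t71 : Tre :=
  (.R ⟨2,true,false,true,[0,1],[0,0,1],[0,0,1],(⟨0,[]⟩,⟨0,[]⟩),(⟨0,[(19,0)]⟩,⟨0,[(18,0)]⟩),⟨0,[]⟩,
  .k,.k,.k,.k,.k,.k,⟨false,1,⟨1,[(1,1),(14,1),(12,0),(0,0)]⟩,⟨0,[(0,0),(2,0),(22,0)]⟩⟩,⟨true,0,⟨0,
  [(16,0)]⟩,⟨0,[(3,0)]⟩⟩,⟨true,0,⟨0,[(28,0)]⟩,⟨0,[(27,0)]⟩⟩,⟨false,0,⟨0,[(0,0)]⟩,⟨0,[(1,0),(25,0),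
  (2,0)]⟩⟩,⟨false,1,⟨1,[(9,0),(0,0),(19,0)]⟩,⟨0,[]⟩⟩,⟨true,0,⟨0,[(14,0)]⟩,⟨0,[(1,0)]⟩⟩,[]⟩)

theorem ok71 : chk K t71 l39 = true := by decide +kernel

noncomputable def t72 : Tre :=
  (.I [0,0,0,0,0,0,0,-1] (.S ⟨1,0,[0,0,0,-1,0,0,0,1],[0,0,1],[1,1,0,0,0,0,0,1],(⟨0,[(21,0)]⟩,⟨0,
  [(20,0)]⟩),⟨0,[(10,0)]⟩,.k,.k,⟨false,0,⟨0,[]⟩,⟨1,[(11,0),(0,0),(19,0)]⟩⟩,⟨true,0,⟨0,[(30,0)]⟩,⟨0,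
  [(29,0)]⟩⟩,⟨true,0,⟨0,[(29,0)]⟩,⟨0,[(30,0)]⟩⟩,⟨false,1,⟨1,[(11,0),(0,0),(19,0)]⟩,⟨0,[]⟩⟩,[.o
  ⟨false,1,⟨1,[(16,1),(10,0),(2,1),(1,0)]⟩,⟨0,[(2,0)]⟩⟩,.e ⟨false,1,⟨5,[(1,1),(6,1),(7,3),(10,0),(3,
  1),(0,2)]⟩,⟨0,[(0,0)]⟩⟩ ⟨false,1,⟨0,[(1,0),(28,0),(1,0)]⟩,⟨1,[(0,0),(5,0),(21,0)]⟩⟩,.o ⟨false,1,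
  ⟨1,[(18,1),(8,0),(3,0)]⟩,⟨0,[(5,0)]⟩⟩,.a ⟨true,0,⟨0,[(18,0)]⟩,⟨0,[(15,0)]⟩⟩ ⟨true,0,⟨0,[(1,0)]⟩,
  ⟨1,[(0,1),(17,0),(0,0)]⟩⟩ ⟨false,1,⟨0,[(1,0),(28,0),(1,0)]⟩,⟨0,[(2,0),(15,0)]⟩⟩]⟩) (.Q [0,-1,0,-1,
  1,0,1,1,0,-1,1] (.p true [0,0,1] [1] (⟨0,[(21,0)]⟩,⟨0,[(20,0)]⟩) .k 1 (⟨0,[]⟩,⟨0,[]⟩) .k .k) (.S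
  ⟨1,0,[0,0,0,-1,0,0,0,1],[0,0,1],[1,1,0,0,0,0,0,1],(⟨0,[(22,0)]⟩,⟨0,[(21,0)]⟩),⟨0,[(11,0)]⟩,.k,.k,
  ⟨false,0,⟨0,[]⟩,⟨1,[(12,0),(0,0),(19,0)]⟩⟩,⟨true,0,⟨0,[(31,0)]⟩,⟨0,[(30,0)]⟩⟩,⟨true,0,⟨0,[(30,
  0)]⟩,⟨0,[(31,0)]⟩⟩,⟨false,1,⟨1,[(12,0),(0,0),(19,0)]⟩,⟨0,[]⟩⟩,[.o ⟨false,1,⟨0,[(0,0),(34,0)]⟩,⟨0,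
  [(3,0)]⟩⟩,.o ⟨false,1,⟨0,[(0,0)]⟩,⟨1,[(3,0),(14,0),(11,0)]⟩⟩,.o ⟨false,1,⟨1,[(19,1),(8,0),(3,0)]⟩,
  ⟨0,[(6,0)]⟩⟩,.a ⟨true,0,⟨0,[(19,0)]⟩,⟨0,[(16,0)]⟩⟩ ⟨true,0,⟨0,[(2,0)]⟩,⟨0,[(4,0),(14,0)]⟩⟩ ⟨false,
  1,⟨0,[(0,0),(15,0)]⟩,⟨0,[(3,0),(15,0)]⟩⟩]⟩) (.Q [0,0,0,2,0,0,-1,-1,0,0,-1] (.p false [0,0,1] []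
  (⟨0,[(22,0)]⟩,⟨0,[(21,0)]⟩) .k 0 (⟨0,[]⟩,⟨0,[]⟩) .k .k) (.I [0,0,0,0,0,0,0,1] (.Q [0,0,0,0,0,0,0,
  0,-1,1,0,-1] (.p false [0,0,0,0,1] [1] (⟨0,[(17,0)]⟩,⟨0,[(16,0)]⟩) .k 1 (⟨0,[]⟩,⟨0,[]⟩) .k .k)
  (.Q [0,1,0,0,0,0,0,0,1,-1,0,1] (.p true [0,0,0,0,1] [1] (⟨0,[(18,0)]⟩,⟨0,[(17,0)]⟩) .k 1 (⟨0,[]⟩,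
  ⟨0,[]⟩) .k .k) (.Q [0,0,-1,0,0,0,0,0,-1,1,0,-1] (.p false [0,0,0,0,1] [1] (⟨0,[(19,0)]⟩,⟨0,[(18,
  0)]⟩) .k 1 (⟨0,[]⟩,⟨0,[]⟩) .k .k) (.Q [0,0,0,0,0,-1,0,0,0,0,0,1] (.ed false [1,-1,0,0,1] .k) (.S
  ⟨1,0,[0,-1,1],[1,1,0,0,-1],[1,0,1,1],(⟨0,[(20,0),(8,0)]⟩,⟨0,[(0,0)]⟩),⟨0,[(20,0)]⟩,(.r (-1) ⟨1,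
  [(25,0),(0,0),(9,1),(2,1)]⟩ ⟨0,[(1,0),(0,0),(34,0)]⟩),.k,⟨false,0,⟨0,[]⟩,⟨1,[(18,0),(0,0),(19,
  0)]⟩⟩,⟨true,0,⟨0,[(37,0)]⟩,⟨0,[(36,0)]⟩⟩,⟨true,0,⟨0,[(36,0)]⟩,⟨0,[(37,0)]⟩⟩,⟨false,1,⟨1,[(18,0),
  (0,0),(19,0)]⟩,⟨0,[]⟩⟩,[.o ⟨false,1,⟨1,[(3,1),(30,0),(4,0)]⟩,⟨0,[(2,0)]⟩⟩,.e ⟨false,1,⟨0,[(36,0),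
  (2,0)]⟩,⟨0,[(1,0),(0,0),(34,0)]⟩⟩ ⟨false,1,⟨0,[(39,0)]⟩,⟨0,[(33,0)]⟩⟩,.a ⟨true,0,⟨0,[(1,0)]⟩,⟨1,
  [(19,1),(5,0),(0,0)]⟩⟩ ⟨true,0,⟨3,[(4,1),(0,1),(19,2),(0,0)]⟩,⟨0,[(1,0),(0,0),(34,0)]⟩⟩ ⟨false,1,
  ⟨1,[(25,0),(0,0),(12,1)]⟩,⟨0,[(1,0),(0,0)]⟩⟩,.e ⟨false,1,⟨0,[(36,0),(2,0)]⟩,⟨0,[(37,0)]⟩⟩ ⟨false,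
  1,⟨0,[(39,0)]⟩,⟨0,[(41,0)]⟩⟩]⟩) (.R ⟨0,false,false,false,[0,0,0,0,1],[1,0,-1,0,1],[0,1,1,0,0,0,0,
  -1],(⟨0,[(21,0)]⟩,⟨0,[(20,0)]⟩),(⟨0,[(21,0),(5,0)]⟩,⟨0,[(0,0),(16,0)]⟩),⟨0,[(0,0)]⟩,.k,.k,(.r 0
  ⟨0,[(1,0),(0,0),(34,0)]⟩ ⟨1,[(25,0),(0,0),(9,1),(2,1)]⟩),.k,.k,.k,⟨true,0,⟨1,[(25,0),(0,0)]⟩,⟨0,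
  []⟩⟩,⟨false,0,⟨0,[(22,0)]⟩,⟨1,[(25,1),(8,0),(3,0)]⟩⟩,⟨true,0,⟨0,[(10,0),(14,0)]⟩,⟨0,[(8,0)]⟩⟩,
  ⟨false,0,⟨0,[(6,0),(30,0),(1,0)]⟩,⟨1,[(23,1),(10,0),(4,0)]⟩⟩,⟨false,0,⟨0,[]⟩,⟨0,[]⟩⟩,⟨false,0,⟨0,
  []⟩,⟨0,[]⟩⟩,[.a ⟨true,(-1),⟨0,[(6,0),(12,0),(17,0)]⟩,⟨1,[(1,1),(2,1),(20,1),(8,0),(4,0)]⟩⟩ ⟨false,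
  0,⟨2,[(6,1),(4,0),(1,0),(11,1),(8,0)]⟩,⟨1,[(4,1),(33,0),(0,0)]⟩⟩ ⟨true,(-1),⟨0,[(6,0),(30,0)]⟩,⟨1,
  [(4,1),(20,1),(8,0),(4,0)]⟩⟩,.o ⟨false,0,⟨0,[(10,0),(8,0)]⟩,⟨0,[(1,0),(2,0),(20,0),(8,0)]⟩⟩,.a
  ⟨true,0,⟨0,[(19,0)]⟩,⟨0,[(3,0)]⟩⟩ ⟨false,0,⟨0,[(10,0),(14,0)]⟩,⟨1,[(4,1),(33,0),(0,0)]⟩⟩ ⟨true,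
  (-1),⟨0,[(6,0),(30,0)]⟩,⟨1,[(23,1),(10,0),(4,0)]⟩⟩,.a ⟨true,0,⟨1,[(19,1),(5,0),(0,0)]⟩,⟨0,[(1,
  0)]⟩⟩ ⟨true,0,⟨2,[(6,1),(4,0),(1,0),(11,1),(8,0)]⟩,⟨0,[(7,0)]⟩⟩ ⟨false,0,⟨5,[(6,4),(4,1),(1,0),(8,
  0),(16,2)]⟩,⟨1,[(4,1),(20,1),(8,0),(4,0)]⟩⟩]⟩)) (.Q [0,0,0,0,0,-1,0,0,0,0,0,1] (.ed false [1,-1,0,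
  0,1] .k) (.S ⟨1,0,[0,0,1],[1,1,0,0,-1],[0,-1,1],(⟨0,[(20,0),(8,0)]⟩,⟨0,[(0,0)]⟩),⟨0,[(20,0)]⟩,(.r
  (-1) ⟨1,[(25,0),(0,0),(9,1),(2,1)]⟩ ⟨0,[(35,0),(1,1)]⟩),.k,⟨true,0,⟨0,[(37,0)]⟩,⟨0,[(36,0)]⟩⟩,
  ⟨false,0,⟨0,[(37,0)]⟩,⟨0,[(36,0),(2,0)]⟩⟩,⟨false,1,⟨1,[(18,0),(0,0),(19,0)]⟩,⟨0,[]⟩⟩,⟨true,0,⟨0,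
  [(41,0)]⟩,⟨0,[]⟩⟩,[.a ⟨true,0,⟨0,[(3,0)]⟩,⟨0,[(19,0)]⟩⟩ ⟨false,1,⟨1,[(18,0),(0,0),(19,0)]⟩,⟨0,
  [(35,0),(1,0)]⟩⟩ ⟨true,0,⟨1,[(25,0),(0,0)]⟩,⟨0,[]⟩⟩,.o ⟨false,1,⟨1,[(3,1),(30,0),(4,0)]⟩,⟨0,[(2,
  0)]⟩⟩,.o ⟨false,1,⟨1,[(3,1),(30,0),(3,0)]⟩,⟨0,[(1,0)]⟩⟩,.e ⟨false,1,⟨0,[(39,0)]⟩,⟨0,[(41,0)]⟩⟩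
  ⟨false,1,⟨1,[(18,0),(0,0),(19,0)]⟩,⟨0,[]⟩⟩]⟩) (.R ⟨0,false,false,true,[0,0,0,0,1],[1,-1],[0,1],
  (⟨0,[(21,0)]⟩,⟨0,[(20,0)]⟩),(⟨0,[(31,0)]⟩,⟨0,[(32,0)]⟩),⟨0,[(0,0)]⟩,.k,.k,(.r 0 ⟨0,[(35,0),(1,
  1)]⟩ ⟨1,[(25,0),(0,0),(9,1),(2,1)]⟩),(.r 0 ⟨1,[(25,0),(0,0),(9,1)]⟩ ⟨5,[(11,1),(6,0),(0,0),(19,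
  2)]⟩),.k,.k,⟨true,0,⟨3,[(4,1),(0,1),(19,2),(0,0)]⟩,⟨0,[(37,0)]⟩⟩,⟨false,0,⟨0,[(3,0)]⟩,⟨1,[(19,1),
  (14,0),(3,0)]⟩⟩,⟨false,1,⟨1,[(18,0),(0,0),(19,0)]⟩,⟨0,[]⟩⟩,⟨true,0,⟨0,[(3,0),(33,0)]⟩,⟨0,[(1,0),
  (33,0)]⟩⟩,⟨false,0,⟨0,[]⟩,⟨0,[]⟩⟩,⟨false,0,⟨0,[]⟩,⟨0,[]⟩⟩,[.e ⟨false,0,⟨0,[(35,0),(1,0)]⟩,⟨1,[(18,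
  0),(0,0),(19,0)]⟩⟩ ⟨false,0,⟨0,[(3,0),(31,0),(1,1)]⟩,⟨0,[(1,0),(33,0),(3,0)]⟩⟩,.o ⟨false,0,⟨0,
  [(37,0)]⟩,⟨1,[(34,0),(1,1),(2,0)]⟩⟩,.a ⟨true,0,⟨0,[(19,0)]⟩,⟨0,[(3,0)]⟩⟩ ⟨true,0,⟨0,[(41,0)]⟩,⟨0,
  []⟩⟩ ⟨false,0,⟨0,[(3,0),(33,0)]⟩,⟨0,[(1,0),(33,0),(3,0)]⟩⟩,.o ⟨false,0,⟨0,[(1,0)]⟩,⟨1,[(3,1),(30,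
  0),(3,0)]⟩⟩]⟩))) (.R ⟨2,false,false,true,[0,1],[1,0,0,0,-1],[0,0,1],(⟨0,[]⟩,⟨0,[]⟩),(⟨0,[(18,0)]⟩,
  ⟨0,[(19,0)]⟩),⟨0,[]⟩,.k,.k,.k,(.r 0 ⟨1,[(23,0),(0,0),(9,1)]⟩ ⟨5,[(9,1),(6,0),(0,0),(19,2)]⟩),.k,
  .k,⟨true,0,⟨1,[(23,0),(0,0)]⟩,⟨0,[]⟩⟩,⟨false,0,⟨0,[(1,0)]⟩,⟨1,[(17,1),(14,0),(3,0)]⟩⟩,⟨true,0,⟨0,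
  [(35,0)]⟩,⟨0,[(34,0)]⟩⟩,⟨false,0,⟨0,[(0,0),(34,0)]⟩,⟨1,[(17,1),(14,0),(1,1),(2,0)]⟩⟩,⟨false,1,⟨1,
  [(16,0),(0,0),(19,0)]⟩,⟨0,[]⟩⟩,⟨false,0,⟨0,[(0,0)]⟩,⟨1,[(16,0),(0,2),(14,0)]⟩⟩,[.a ⟨true,0,⟨0,[(1,
  0)]⟩,⟨0,[(17,0)]⟩⟩ ⟨true,0,⟨1,[(23,0),(0,0)]⟩,⟨0,[]⟩⟩ ⟨false,0,⟨0,[(1,0)]⟩,⟨1,[(17,1),(14,0),(3,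
  0)]⟩⟩,.e ⟨false,1,⟨1,[(16,0),(0,0),(19,0)]⟩,⟨0,[(33,0),(1,0)]⟩⟩ ⟨false,0,⟨0,[(0,0)]⟩,⟨3,[(16,0),
  (0,4),(13,1),(0,1),(3,0)]⟩⟩,.o ⟨false,1,⟨1,[(32,0),(3,0)]⟩,⟨1,[(23,0),(0,0)]⟩⟩,.fo]⟩)) (.Q [0,0,0,
  -1,-1,0,0,0,1,0,0,1] (.p true [0,0,0,0,1] [] (⟨0,[(18,0)]⟩,⟨0,[(17,0)]⟩) .k 0 (⟨0,[]⟩,⟨0,[]⟩) .k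
  .k) (.R ⟨2,true,false,false,[0,1],[0,0,0,0,1],[1,0,1,1],(⟨0,[]⟩,⟨0,[]⟩),(⟨0,[(19,0)]⟩,⟨0,[(18,
  0)]⟩),⟨0,[]⟩,.k,.k,.k,(.r (-1) ⟨1,[(23,0),(0,0),(9,1),(2,1)]⟩ ⟨0,[(33,0),(1,1)]⟩),.k,.k,⟨false,1,
  ⟨0,[(34,0),(2,0)]⟩,⟨0,[(33,0),(1,1)]⟩⟩,⟨true,(-1),⟨3,[(0,3),(1,1),(0,1),(19,2),(0,0)]⟩,⟨0,[(16,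
  0)]⟩⟩,⟨true,0,⟨0,[]⟩,⟨0,[(39,0)]⟩⟩,⟨false,(-1),⟨0,[(0,0)]⟩,⟨0,[(16,0),(17,0),(2,0)]⟩⟩,⟨false,1,⟨0,
  [(34,0),(2,0)]⟩,⟨0,[(35,0)]⟩⟩,⟨true,(-1),⟨0,[(0,0),(33,0)]⟩,⟨0,[(16,0)]⟩⟩,[]⟩) (.Q [0,0,-1,0,0,0,
  0,0,1,-1,0,1] (.p true [0,0,0,0,1] [1] (⟨0,[(19,0)]⟩,⟨0,[(18,0)]⟩) .k 1 (⟨0,[]⟩,⟨0,[]⟩) .k .k)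
  (.Q [0,0,0,0,0,-1,0,0,0,1,0,-1] (.ed true [0,1,0,0,1] .k) (.Q [0,0,0,0,-1,0,-1,0,1,0,-1,1] (.p
  false [0,0,1] [0,0,0,0,1] (⟨0,[(28,0)]⟩,⟨0,[(27,0)]⟩) .k 2 (⟨0,[(21,0)]⟩,⟨0,[(20,0)]⟩) .k (.r
  (-1) ⟨5,[(4,1),(10,1),(7,3),(10,0),(4,4)]⟩ ⟨2,[(6,1),(4,0),(1,0),(11,1),(8,0)]⟩)) (.Q [0,0,0,0,0,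
  1,0,0,0,0,0,-1] (.ed true [1,-1,0,0,1] .k) (.Q [0,0,0,0,-1,0,0,0,1,1,0,1] (.p true [1,-1,0,0,1]
  [] (⟨0,[(23,0),(9,0)]⟩,⟨0,[(0,0)]⟩) (.r 0 ⟨0,[(37,0),(1,1)]⟩ ⟨1,[(27,0),(0,0),(9,1),(2,1)]⟩) 0
  (⟨0,[]⟩,⟨0,[]⟩) .k .k) (.R ⟨0,false,false,false,[0,1,0,0,-1],[0,1],[1,0,1],(⟨0,[(1,0)]⟩,⟨0,[(24,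
  0),(9,0)]⟩),(⟨0,[(35,0)]⟩,⟨0,[(34,0)]⟩),⟨0,[(24,0)]⟩,(.r (-1) ⟨1,[(28,0),(0,0),(9,1),(2,1)]⟩ ⟨0,
  [(38,0),(1,1)]⟩),.k,.k,.k,.k,.k,⟨true,0,⟨0,[(40,0)]⟩,⟨3,[(7,1),(0,1),(19,2),(0,0)]⟩⟩,⟨false,0,⟨2,
  [(0,0),(3,0),(17,0),(18,0)]⟩,⟨0,[(21,0)]⟩⟩,⟨false,0,⟨0,[(40,0)]⟩,⟨0,[(39,0),(2,0)]⟩⟩,⟨true,(-1),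
  ⟨1,[(2,0),(1,0),(4,0),(16,0),(1,0),(11,0)]⟩,⟨0,[(21,0)]⟩⟩,⟨false,0,⟨0,[]⟩,⟨0,[]⟩⟩,⟨false,0,⟨0,[]⟩,
  ⟨0,[]⟩⟩,[.o ⟨false,1,⟨1,[(37,0),(1,1),(2,0)]⟩,⟨0,[(40,0)]⟩⟩,.e ⟨false,1,⟨1,[(21,0),(0,0),(19,0)]⟩,
  ⟨0,[(38,0),(1,0)]⟩⟩ ⟨false,0,⟨1,[(0,0),(3,0),(2,0),(0,0),(19,0),(13,0)]⟩,⟨0,[(21,0),(16,0),(1,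
  1)]⟩⟩,.o ⟨false,2,⟨5,[(5,5),(8,1),(6,0),(0,0),(14,2)]⟩,⟨0,[(2,0),(25,0)]⟩⟩,.a ⟨true,1,⟨0,[(21,
  0)]⟩,⟨0,[(0,0)]⟩⟩ ⟨true,0,⟨0,[]⟩,⟨0,[(44,0)]⟩⟩ ⟨false,0,⟨1,[(0,0),(3,0),(2,0),(0,0),(19,0),(13,
  0)]⟩,⟨0,[(21,0),(18,0)]⟩⟩]⟩) (.R ⟨0,false,false,true,[0,1,0,0,-1],[1,1,-1],[1,0,1],(⟨0,[(1,0)]⟩,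
  ⟨0,[(24,0),(9,0)]⟩),(⟨0,[(30,0),(1,0)]⟩,⟨0,[(20,0)]⟩),⟨0,[(24,0)]⟩,(.r (-1) ⟨1,[(28,0),(0,0),(9,
  1),(2,1)]⟩ ⟨3,[(0,0),(3,0),(4,1),(4,0),(11,1),(13,2)]⟩),.k,.k,.k,.k,.k,⟨false,1,⟨17,[(7,13),(6,5),
  (3,1),(7,3),(10,0),(4,10)]⟩,⟨10,[(0,1),(3,1),(3,2),(0,3),(4,1),(1,3),(11,6),(9,2)]⟩⟩,⟨true,(-1),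
  ⟨0,[(2,0),(29,0),(1,0)]⟩,⟨0,[(0,0),(27,0)]⟩⟩,⟨false,0,⟨0,[(40,0)]⟩,⟨0,[(39,0),(2,0)]⟩⟩,⟨true,(-2),
  ⟨1,[(2,0),(1,0),(4,2),(16,0),(1,0),(11,2)]⟩,⟨0,[(0,0),(25,0),(15,0)]⟩⟩,⟨false,0,⟨0,[]⟩,⟨0,[]⟩⟩,
  ⟨false,0,⟨0,[]⟩,⟨0,[]⟩⟩,[.a ⟨true,(-1),⟨0,[(9,0)]⟩,⟨5,[(7,3),(6,1),(11,1),(1,4),(0,0),(12,3)]⟩⟩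
  ⟨false,0,⟨0,[]⟩,⟨4,[(5,2),(8,0),(7,2),(18,0)]⟩⟩ ⟨true,(-2),⟨0,[(2,0),(6,0),(18,0)]⟩,⟨5,[(0,5),(6,
  3),(6,1),(11,1),(1,4),(0,0),(12,3)]⟩⟩,.o ⟨false,0,⟨0,[(12,0)]⟩,⟨5,[(7,3),(6,1),(11,1),(1,4),(0,0),
  (7,2),(4,0)]⟩⟩,.o ⟨false,2,⟨5,[(5,5),(8,1),(6,0),(0,0),(14,2)]⟩,⟨0,[(2,0),(25,0)]⟩⟩,.o ⟨false,1,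
  ⟨0,[(0,0)]⟩,⟨0,[(22,0)]⟩⟩]⟩)) (.Q [0,0,-1,0,1,0,0,0,-1,1,0,-1] (.p false [0,0,0,0,1] [1] (⟨0,[(23,
  0)]⟩,⟨0,[(22,0)]⟩) .k 1 (⟨0,[]⟩,⟨0,[]⟩) .k .k) (.S ⟨1,0,[0,1,0,-1],[0,0,0,0,1],[1,2],(⟨0,[(24,
  0)]⟩,⟨0,[(23,0)]⟩),⟨0,[(1,0)]⟩,.k,(.r 0 ⟨0,[(38,0),(1,1)]⟩ ⟨1,[(28,0),(0,0),(9,1),(2,1)]⟩),⟨false,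
  0,⟨0,[]⟩,⟨1,[(21,0),(0,0),(19,0)]⟩⟩,⟨true,0,⟨0,[(40,0)]⟩,⟨0,[(39,0)]⟩⟩,⟨true,0,⟨0,[(39,0)]⟩,⟨0,
  [(40,0)]⟩⟩,⟨false,1,⟨1,[(21,0),(0,0),(19,0)]⟩,⟨0,[]⟩⟩,[.e ⟨false,0,⟨0,[(36,0)]⟩,⟨0,[(42,0)]⟩⟩
  ⟨false,0,⟨0,[(38,0),(1,1)]⟩,⟨0,[(39,0),(2,0)]⟩⟩,.o ⟨false,0,⟨0,[(6,0),(33,0)]⟩,⟨0,[(5,0)]⟩⟩,.o
  ⟨false,0,⟨0,[(6,0)]⟩,⟨0,[(21,0)]⟩⟩,.a ⟨true,(-1),⟨0,[(2,0),(25,0)]⟩,⟨0,[(0,0)]⟩⟩ ⟨false,0,⟨0,[(38,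
  0),(1,0)]⟩,⟨1,[(28,0),(0,0),(12,1)]⟩⟩ ⟨true,0,⟨0,[(38,0),(1,1)]⟩,⟨3,[(7,1),(0,1),(19,2),(0,
  0)]⟩⟩]⟩) (.R ⟨1,false,false,false,[0,0,1],[0,0,0,0,1],[0,0,0,-1,0,0,0,1],(⟨0,[(31,0)]⟩,⟨0,[(30,
  0)]⟩),(⟨0,[(24,0)]⟩,⟨0,[(23,0)]⟩),⟨0,[(20,0)]⟩,.k,.k,.k,.k,(.r (-1) ⟨17,[(7,13),(6,5),(3,1),(7,3),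
  (10,0),(4,10)]⟩ ⟨0,[(16,0)]⟩),.k,⟨false,1,⟨17,[(7,13),(6,5),(3,1),(7,3),(10,0),(4,10)]⟩,⟨8,[(8,2),
  (0,3),(4,1),(1,1),(11,6),(8,1),(0,2)]⟩⟩,⟨true,(-1),⟨0,[(2,0)]⟩,⟨0,[(21,0),(6,0)]⟩⟩,⟨true,0,⟨0,
  [(40,0)]⟩,⟨0,[(39,0)]⟩⟩,⟨false,(-1),⟨6,[(0,5),(8,5),(3,0),(0,1),(7,0),(19,2)]⟩,⟨0,[(21,0),(4,0),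
  (15,0)]⟩⟩,⟨false,1,⟨1,[(21,0),(0,0),(19,0)]⟩,⟨0,[]⟩⟩,⟨false,(-1),⟨1,[(0,0),(3,0),(4,1),(32,0)]⟩,
  ⟨5,[(7,3),(6,1),(6,5),(4,1),(1,4),(0,0),(12,3)]⟩⟩,[.o ⟨false,(-1),⟨3,[(0,4),(8,0),(4,0),(6,0),(4,
  0),(11,1)]⟩,⟨1,[(21,2),(0,0),(19,0)]⟩⟩,.o ⟨false,0,⟨0,[(6,0)]⟩,⟨0,[(21,0)]⟩⟩,.o ⟨false,1,⟨1,[(28,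
  1),(8,0),(3,0)]⟩,⟨0,[(15,0)]⟩⟩,.a ⟨true,0,⟨0,[(28,0)]⟩,⟨0,[(25,0)]⟩⟩ ⟨false,1,⟨17,[(7,13),(6,5),
  (3,1),(7,3),(10,0),(4,10)]⟩,⟨0,[(12,0),(15,0)]⟩⟩ ⟨true,(-1),⟨7,[(0,0),(1,4),(1,1),(4,2),(1,2),(2,
  0),(21,0)]⟩,⟨0,[(21,0),(6,0)]⟩⟩]⟩))) (.Q [0,2,0,1,-1,0,0,0,1,-1,0,1] (.p true [0,0,0,0,1] [1] (⟨0,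
  [(22,0)]⟩,⟨0,[(21,0)]⟩) .k 1 (⟨0,[]⟩,⟨0,[]⟩) .k .k) (.S ⟨1,0,[0,-1,0,-1],[1,0,0,0,-1],[1],(⟨0,
  [(22,0)]⟩,⟨0,[(23,0)]⟩),⟨0,[(2,0)]⟩,.k,(.r (-1) ⟨5,[(13,1),(6,0),(0,0),(19,2)]⟩ ⟨1,[(27,0),(0,0),
  (9,1)]⟩),⟨false,0,⟨0,[]⟩,⟨1,[(20,0),(0,0),(19,0)]⟩⟩,⟨true,0,⟨0,[(39,0)]⟩,⟨0,[(38,0)]⟩⟩,⟨true,0,⟨0,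
  [(38,0)]⟩,⟨0,[(39,0)]⟩⟩,⟨false,1,⟨1,[(20,0),(0,0),(19,0)]⟩,⟨0,[]⟩⟩,[.a ⟨true,1,⟨0,[(1,0),(4,0),(1,
  0),(30,1),(1,0)]⟩,⟨0,[(3,0),(2,0),(1,0),(18,0)]⟩⟩ ⟨true,0,⟨0,[]⟩,⟨1,[(27,0),(0,0)]⟩⟩ ⟨false,1,⟨5,
  [(13,1),(6,0),(0,0),(19,2)]⟩,⟨0,[(38,0)]⟩⟩,.o ⟨false,2,⟨0,[(20,0),(18,0),(1,0)]⟩,⟨0,[(0,0)]⟩⟩,.o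
  ⟨false,1,⟨0,[(20,0)]⟩,⟨0,[(5,0)]⟩⟩,.o ⟨false,1,⟨0,[(1,0),(26,0)]⟩,⟨0,[(3,0)]⟩⟩]⟩) (.S ⟨1,0,[0,-1,
  0,-1],[1,0,0,0,-1],[1],(⟨0,[(22,0)]⟩,⟨0,[(23,0)]⟩),⟨0,[(2,0)]⟩,.k,(.r (-1) ⟨5,[(13,1),(6,0),(0,0),
  (19,2)]⟩ ⟨1,[(27,0),(0,0),(9,1)]⟩),⟨false,0,⟨0,[]⟩,⟨1,[(20,0),(0,0),(19,0)]⟩⟩,⟨true,0,⟨0,[(39,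
  0)]⟩,⟨0,[(38,0)]⟩⟩,⟨true,0,⟨0,[(38,0)]⟩,⟨0,[(39,0)]⟩⟩,⟨false,1,⟨1,[(20,0),(0,0),(19,0)]⟩,⟨0,[]⟩⟩,
  [.a ⟨true,1,⟨0,[(0,0),(42,0)]⟩,⟨0,[(3,0),(2,0),(1,0),(18,0)]⟩⟩ ⟨true,0,⟨0,[]⟩,⟨1,[(27,0),(0,0)]⟩⟩
  ⟨false,1,⟨5,[(13,1),(6,0),(0,0),(19,2)]⟩,⟨0,[(38,0)]⟩⟩,.e ⟨false,1,⟨1,[(40,0),(0,0)]⟩,⟨0,[(43,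
  0)]⟩⟩ ⟨false,1,⟨0,[(0,0),(2,0)]⟩,⟨4,[(15,0),(9,0),(2,0),(6,1),(2,3)]⟩⟩,.o ⟨false,1,⟨0,[(20,0)]⟩,
  ⟨0,[(5,0)]⟩⟩,.o ⟨false,1,⟨0,[(1,0),(26,0)]⟩,⟨0,[(3,0)]⟩⟩]⟩))) (.Q [0,-1,0,0,1,0,1,1,-1,1,1,-1]
  (.p false [0,0,-1,0,1] [1] (⟨0,[(0,0),(15,0)]⟩,⟨0,[(20,0),(7,0)]⟩) .k 1 (⟨0,[]⟩,⟨0,[]⟩) .k (.r 0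
  ⟨2,[(6,1),(4,0),(1,0),(11,1),(8,0)]⟩ ⟨5,[(4,1),(10,1),(7,3),(10,0),(4,4)]⟩)) (.R ⟨0,false,false,
  false,[-1,1,0,0,1],[0,0,1],[0,0,1],(⟨0,[(1,0)]⟩,⟨0,[(21,0),(10,0)]⟩),(⟨0,[(29,0)]⟩,⟨0,[(28,0)]⟩),
  ⟨0,[(21,0)]⟩,(.r 0 ⟨1,[(26,0),(0,0),(9,1)]⟩ ⟨5,[(12,1),(6,0),(0,0),(19,2)]⟩),.k,.k,(.r 0 ⟨0,[(14,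
  0)]⟩ ⟨29,[(0,3),(4,25),(6,9),(3,1),(3,3),(14,2),(4,12)]⟩),.k,.k,⟨true,0,⟨0,[(11,0),(14,0)]⟩,⟨0,
  [(8,0)]⟩⟩,⟨false,1,⟨2,[(0,1),(2,0),(3,0),(4,0),(1,0),(11,1)]⟩,⟨0,[(2,0),(10,0)]⟩⟩,⟨false,1,⟨0,
  [(38,0),(1,0)]⟩,⟨0,[(37,0)]⟩⟩,⟨true,1,⟨0,[(0,0),(37,0)]⟩,⟨0,[(2,0),(2,0),(1,1),(18,0),(8,0),(2,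
  0)]⟩⟩,⟨false,0,⟨0,[]⟩,⟨0,[]⟩⟩,⟨false,0,⟨0,[]⟩,⟨0,[]⟩⟩,[.o ⟨false,1,⟨1,[(0,0),(3,0),(19,0),(10,
  0)]⟩,⟨0,[(11,0)]⟩⟩,.e ⟨false,1,⟨1,[(19,0),(0,0),(19,0)]⟩,⟨0,[(36,0),(1,0)]⟩⟩ ⟨false,1,⟨0,[(0,0)]⟩,
  ⟨0,[(2,0),(22,0)]⟩⟩,.a ⟨true,0,⟨0,[(2,0)]⟩,⟨1,[(0,1),(6,1),(18,0),(0,0),(10,1)]⟩⟩ ⟨true,0,⟨1,[(26,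
  0),(0,0)]⟩,⟨0,[(36,0),(1,0)]⟩⟩ ⟨false,1,⟨1,[(0,1),(25,0),(0,0)]⟩,⟨0,[(2,0),(8,0)]⟩⟩,.e ⟨false,1,
  ⟨1,[(19,0),(0,0),(19,0)]⟩,⟨0,[]⟩⟩ ⟨false,1,⟨0,[(0,0)]⟩,⟨0,[(4,0),(6,0)]⟩⟩]⟩) (.Q [0,-1,0,1,1,0,0,
  0,-1,1,0,-1] (.p false [0,0,0,0,1] [1] (⟨0,[(22,0)]⟩,⟨0,[(21,0)]⟩) .k 1 (⟨0,[]⟩,⟨0,[]⟩) .k .k)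
  (.R ⟨0,false,false,false,[-1,1,0,0,1],[0,1],[0,0,1],(⟨0,[(2,0)]⟩,⟨0,[(22,0),(10,0)]⟩),(⟨0,[(34,
  0)]⟩,⟨0,[(33,0)]⟩),⟨0,[(22,0)]⟩,(.r 0 ⟨1,[(27,0),(0,0),(9,1)]⟩ ⟨5,[(13,1),(6,0),(0,0),(19,2)]⟩),
  .k,.k,.k,.k,.k,⟨true,0,⟨0,[(39,0)]⟩,⟨3,[(6,1),(0,1),(19,2),(0,0)]⟩⟩,⟨false,1,⟨2,[(0,1),(7,0),(4,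
  0),(6,0),(4,0)]⟩,⟨0,[(5,0)]⟩⟩,⟨false,1,⟨0,[(39,0),(1,0)]⟩,⟨0,[(38,0)]⟩⟩,⟨true,1,⟨0,[(0,0),(38,
  0)]⟩,⟨0,[(1,0),(23,0)]⟩⟩,⟨false,0,⟨0,[]⟩,⟨0,[]⟩⟩,⟨false,0,⟨0,[]⟩,⟨0,[]⟩⟩,[.o ⟨false,1,⟨1,[(36,0),
  (1,1),(2,0)]⟩,⟨0,[(39,0)]⟩⟩,.e ⟨false,1,⟨1,[(20,0),(0,0),(19,0)]⟩,⟨0,[(37,0),(1,0)]⟩⟩ ⟨false,1,⟨0,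
  [(0,0)]⟩,⟨5,[(1,2),(3,0),(7,1),(7,1),(3,2),(10,0)]⟩⟩,.a ⟨true,0,⟨0,[(3,0)]⟩,⟨0,[(0,0),(5,0),(1,0),
  (18,0),(11,1)]⟩⟩ ⟨true,0,⟨1,[(27,0),(0,0)]⟩,⟨0,[(37,0),(1,0)]⟩⟩ ⟨false,1,⟨1,[(0,1),(26,0),(0,0)]⟩,
  ⟨0,[(3,0),(35,0)]⟩⟩,.e ⟨false,1,⟨1,[(20,0),(0,0),(19,0)]⟩,⟨0,[]⟩⟩ ⟨false,1,⟨0,[(0,0)]⟩,⟨0,[(5,0),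
  (33,0)]⟩⟩]⟩) (.R ⟨0,false,false,true,[1,0,0,0,-1],[1,0,-1],[1],(⟨0,[(22,0)]⟩,⟨0,[(23,0)]⟩),(⟨0,
  [(29,0)]⟩,⟨0,[(30,0)]⟩),⟨0,[(2,0)]⟩,.k,.k,(.r (-1) ⟨5,[(13,1),(6,0),(0,0),(19,2)]⟩ ⟨1,[(27,0),(0,
  0),(9,1)]⟩),.k,.k,.k,⟨false,1,⟨1,[(6,1),(33,0),(0,0)]⟩,⟨2,[(8,1),(4,0),(1,0),(11,1),(8,0)]⟩⟩,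
  ⟨true,(-1),⟨0,[(0,0),(5,0),(1,0),(32,0)]⟩,⟨0,[(20,0),(6,0)]⟩⟩,⟨false,0,⟨0,[]⟩,⟨1,[(20,0),(0,0),
  (19,0)]⟩⟩,⟨true,(-2),⟨0,[(0,0),(7,0)]⟩,⟨0,[(20,0),(4,0),(15,0)]⟩⟩,⟨false,0,⟨0,[]⟩,⟨0,[]⟩⟩,⟨false,
  0,⟨0,[]⟩,⟨0,[]⟩⟩,[.a ⟨true,(-1),⟨0,[(8,0),(30,0)]⟩,⟨0,[(25,0),(15,0)]⟩⟩ ⟨true,0,⟨0,[]⟩,⟨1,[(27,0),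
  (0,0)]⟩⟩ ⟨false,(-1),⟨10,[(0,3),(0,0),(1,4),(4,9),(4,1),(7,0),(19,1)]⟩,⟨0,[(20,0),(4,0),(15,0)]⟩⟩,
  .o ⟨false,0,⟨0,[(12,0)]⟩,⟨1,[(25,1),(10,0),(4,0)]⟩⟩,.o ⟨false,1,⟨0,[(20,0)]⟩,⟨0,[(5,0)]⟩⟩,.o
  ⟨false,1,⟨1,[(20,1),(6,0),(0,0)]⟩,⟨0,[(3,0)]⟩⟩]⟩)))) (.Q [0,0,0,0,0,1,0,0,0,-1,0,1] (.ed false [0,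
  1,0,0,1] .k) (.Q [0,0,0,0,0,0,0,0,-1,2,0,-1] (.p false [-1,1,0,0,1] [1] (⟨0,[(0,0)]⟩,⟨0,[(20,0),
  (10,0)]⟩) (.r 0 ⟨1,[(25,0),(0,0),(9,1)]⟩ ⟨5,[(11,1),(6,0),(0,0),(19,2)]⟩) 1 (⟨0,[]⟩,⟨0,[]⟩) .k
  .k) (.R ⟨0,false,false,true,[-1,1,0,0,1],[0,1],[1,1,1],(⟨0,[(1,0)]⟩,⟨0,[(21,0),(10,0)]⟩),(⟨0,[(33,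
  0)]⟩,⟨0,[(32,0)]⟩),⟨0,[(21,0)]⟩,(.r 0 ⟨1,[(26,0),(0,0),(9,1)]⟩ ⟨5,[(12,1),(6,0),(0,0),(19,2)]⟩),
  .k,.k,.k,.k,.k,⟨true,0,⟨0,[(38,0)]⟩,⟨3,[(5,1),(0,1),(19,2),(0,0)]⟩⟩,⟨false,1,⟨9,[(0,4),(2,5),(8,
  1),(7,0),(18,1)]⟩,⟨0,[(4,0)]⟩⟩,⟨true,0,⟨0,[(38,0)]⟩,⟨0,[(37,0)]⟩⟩,⟨false,1,⟨1,[(0,0),(18,0),(20,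
  0)]⟩,⟨0,[(4,0)]⟩⟩,⟨false,0,⟨0,[]⟩,⟨0,[]⟩⟩,⟨false,0,⟨0,[]⟩,⟨0,[]⟩⟩,[.e ⟨false,0,⟨0,[(42,0)]⟩,⟨1,
  [(39,0),(0,0)]⟩⟩ ⟨false,0,⟨0,[(2,0),(33,0)]⟩,⟨5,[(4,3),(7,1),(7,1),(14,0),(4,2)]⟩⟩,.o ⟨false,1,⟨1,
  [(35,0),(1,1),(2,0)]⟩,⟨0,[(38,0)]⟩⟩,.o ⟨false,1,⟨1,[(4,1),(30,0),(3,0)]⟩,⟨0,[(2,0)]⟩⟩,.a ⟨true,0,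
  ⟨0,[(4,0)]⟩,⟨0,[(0,0)]⟩⟩ ⟨false,0,⟨0,[]⟩,⟨1,[(19,0),(0,0),(19,0)]⟩⟩ ⟨true,0,⟨0,[(2,0),(33,0)]⟩,⟨0,
  [(4,0),(33,0)]⟩⟩]⟩) (.R ⟨0,false,false,true,[-1,1,0,0,1],[0,0,1],[0,1,1,1],(⟨0,[(1,0)]⟩,⟨0,[(21,
  0),(10,0)]⟩),(⟨0,[(29,0)]⟩,⟨0,[(28,0)]⟩),⟨0,[(21,0)]⟩,(.r 0 ⟨1,[(26,0),(0,0),(9,1)]⟩ ⟨5,[(12,1),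
  (6,0),(0,0),(19,2)]⟩),.k,.k,(.r 0 ⟨0,[(14,0)]⟩ ⟨17,[(5,13),(6,5),(3,1),(7,3),(10,0),(4,10)]⟩),.k,
  .k,⟨true,0,⟨0,[(10,0),(15,0)]⟩,⟨0,[(5,0),(32,0)]⟩⟩,⟨false,1,⟨0,[(2,0),(23,0),(12,0)]⟩,⟨0,[(0,0),
  (22,0)]⟩⟩,⟨false,1,⟨1,[(19,0),(0,0),(19,0)]⟩,⟨0,[]⟩⟩,⟨true,1,⟨5,[(2,5),(9,1),(6,0),(0,0),(3,5),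
  (15,2)]⟩,⟨0,[(0,0),(6,0)]⟩⟩,⟨false,0,⟨0,[]⟩,⟨0,[]⟩⟩,⟨false,0,⟨0,[]⟩,⟨0,[]⟩⟩,[.a ⟨true,0,⟨0,[(24,
  0)]⟩,⟨0,[(7,0),(30,0),(1,0)]⟩⟩ ⟨false,0,⟨0,[(37,0)]⟩,⟨5,[(12,1),(6,0),(0,0),(19,2)]⟩⟩ ⟨true,0,⟨0,
  [(2,0),(21,0)]⟩,⟨0,[(0,0),(6,0),(30,0),(1,0)]⟩⟩,.o ⟨false,1,⟨1,[(24,1),(10,0),(4,0)]⟩,⟨0,[(11,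
  0)]⟩⟩,.o ⟨false,1,⟨1,[(0,0),(19,0),(14,0),(3,0)]⟩,⟨0,[(2,0)]⟩⟩,.o ⟨false,0,⟨0,[(0,0)]⟩,⟨4,[(2,4),
  (0,2),(8,0),(7,2),(18,0)]⟩⟩]⟩)) (.Q [0,-1,0,0,1,0,0,0,-1,0,0,-1] (.p false [0,0,0,0,1] [] (⟨0,
  [(21,0)]⟩,⟨0,[(20,0)]⟩) .k 0 (⟨0,[]⟩,⟨0,[]⟩) .k .k) (.R ⟨1,false,false,false,[0,0,1],[0,0,0,0,1],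
  [1,1,0,0,0,0,0,1],(⟨0,[(29,0)]⟩,⟨0,[(28,0)]⟩),(⟨0,[(22,0)]⟩,⟨0,[(21,0)]⟩),⟨0,[(18,0)]⟩,.k,.k,.k,
  .k,(.r (-1) ⟨17,[(5,13),(6,5),(3,1),(7,3),(10,0),(4,10)]⟩ ⟨0,[(14,0)]⟩),.k,⟨true,0,⟨0,[(8,0)]⟩,⟨0,
  [(11,0),(14,0)]⟩⟩,⟨false,0,⟨0,[(4,0),(18,0)]⟩,⟨0,[(0,0),(25,0),(9,0),(1,0)]⟩⟩,⟨false,0,⟨0,[]⟩,⟨1,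
  [(19,0),(0,0),(19,0)]⟩⟩,⟨true,(-1),⟨0,[(4,0),(2,0),(30,0)]⟩,⟨0,[(0,0),(23,0)]⟩⟩,⟨true,0,⟨0,[(37,
  0)]⟩,⟨0,[(38,0)]⟩⟩,⟨true,(-1),⟨0,[(4,0),(2,0)]⟩,⟨0,[(0,0),(23,0),(13,0)]⟩⟩,[.o ⟨false,0,⟨0,[(4,0),
  (37,0)]⟩,⟨0,[(0,0)]⟩⟩,.o ⟨false,0,⟨0,[(4,0)]⟩,⟨0,[(19,0)]⟩⟩,.o ⟨false,1,⟨1,[(26,1),(8,0),(3,0)]⟩,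
  ⟨0,[(13,0)]⟩⟩,.a ⟨true,0,⟨0,[(26,0)]⟩,⟨0,[(23,0)]⟩⟩ ⟨true,0,⟨0,[(9,0)]⟩,⟨0,[(11,0),(14,0)]⟩⟩
  ⟨false,0,⟨0,[(4,0),(18,0)]⟩,⟨0,[(0,0),(25,0)]⟩⟩]⟩) (.Q [0,-1,0,-1,1,0,0,0,-1,0,0,-1] (.p false [0,
  0,0,0,1] [] (⟨0,[(22,0)]⟩,⟨0,[(21,0)]⟩) .k 0 (⟨0,[]⟩,⟨0,[]⟩) .k .k) (.R ⟨2,true,false,false,[0,1],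
  [0,1,0,0,1],[0,1,1],(⟨0,[]⟩,⟨0,[]⟩),(⟨0,[(23,0),(7,0)]⟩,⟨0,[(2,0)]⟩),⟨0,[]⟩,.k,(.r 0 ⟨1,[(27,0),
  (0,0),(9,1)]⟩ ⟨5,[(13,1),(6,0),(0,0),(19,2)]⟩),.k,.k,(.r (-1) ⟨5,[(13,1),(6,0),(0,0),(19,2)]⟩ ⟨1,
  [(27,0),(0,0),(9,1)]⟩),.k,⟨true,0,⟨0,[(39,0)]⟩,⟨3,[(6,1),(0,1),(19,2),(0,0)]⟩⟩,⟨false,0,⟨1,[(1,1),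
  (38,0),(0,0)]⟩,⟨0,[(20,0)]⟩⟩,⟨false,0,⟨0,[(39,0)]⟩,⟨0,[(38,0),(2,0)]⟩⟩,⟨true,(-1),⟨0,[(1,0)]⟩,⟨0,
  [(20,0)]⟩⟩,⟨true,0,⟨0,[(43,0)]⟩,⟨0,[]⟩⟩,⟨false,0,⟨1,[(1,0),(5,0),(13,0),(3,0),(15,0)]⟩,⟨0,[(0,
  0)]⟩⟩,[]⟩) (.Q [0,0,1,0,-1,0,-1,0,0,1,-1] (.p false [0,0,1] [1] (⟨0,[(30,0)]⟩,⟨0,[(29,0)]⟩) .k 1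
  (⟨0,[]⟩,⟨0,[]⟩) .k .k) (.Q [0,-1,0,1,1,0,0,0,0,-1] (.pp true [-1,1]) (.R ⟨1,false,false,true,[0,0,
  1],[1,-1],[0,1,0,-1,0,0,0,1],(⟨0,[(32,0)]⟩,⟨0,[(31,0)]⟩),(⟨0,[(35,0)]⟩,⟨0,[(36,0)]⟩),⟨0,[(21,0)]⟩,
  .k,.k,.k,.k,.k,.k,⟨false,0,⟨0,[(8,0)]⟩,⟨3,[(9,1),(5,1),(1,1),(11,1),(12,0),(0,0)]⟩⟩,⟨true,(-1),⟨0,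
  [(1,0)]⟩,⟨1,[(29,1),(8,0),(3,0)]⟩⟩,⟨false,0,⟨0,[(41,0)]⟩,⟨0,[(40,0),(2,0)]⟩⟩,⟨true,(-1),⟨0,[(10,
  0),(30,1)]⟩,⟨0,[(0,0),(26,0)]⟩⟩,⟨true,0,⟨0,[(45,0)]⟩,⟨0,[]⟩⟩,⟨true,(-1),⟨0,[(10,0),(30,0)]⟩,⟨1,
  [(27,1),(10,0),(4,0)]⟩⟩,[.o ⟨false,0,⟨0,[(41,0),(3,0)]⟩,⟨0,[(0,0)]⟩⟩,.o ⟨false,0,⟨0,[(41,0)]⟩,⟨2,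
  [(0,0),(5,0),(16,0),(14,0),(1,0)]⟩⟩,.o ⟨false,1,⟨1,[(29,1),(8,0),(3,0)]⟩,⟨0,[(16,0)]⟩⟩,.a ⟨true,0,
  ⟨0,[(29,0)]⟩,⟨0,[(26,0)]⟩⟩ ⟨true,0,⟨0,[(12,0),(28,0)]⟩,⟨0,[(13,0),(15,0)]⟩⟩ ⟨false,0,⟨8,[(1,2),(3,
  0),(9,2),(3,0),(3,0),(2,3)]⟩,⟨0,[(0,0),(28,0)]⟩⟩]⟩) (.I [1,-1,-1,0,1,0,0,-1] (.I [0,1,-1,-1,0,0,0,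
  -1] (.S ⟨1,0,[0,1,0,-1,0,0,0,-1],[1,0,-1],[1,0,0,0,0,0,0,-1],(⟨0,[(33,0)]⟩,⟨0,[(34,0)]⟩),⟨0,[(22,
  0)]⟩,.k,.k,⟨true,0,⟨0,[]⟩,⟨0,[(47,0)]⟩⟩,⟨false,0,⟨0,[(43,0)]⟩,⟨0,[(42,0),(2,0)]⟩⟩,⟨false,1,⟨0,
  [(42,0),(2,0)]⟩,⟨0,[(43,0)]⟩⟩,⟨true,0,⟨0,[(47,0)]⟩,⟨0,[]⟩⟩,[.e ⟨false,1,⟨9,[(1,4),(6,0),(8,1),(1,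
  4),(5,0),(18,1)]⟩,⟨0,[(10,0)]⟩⟩ ⟨false,0,⟨0,[(0,0)]⟩,⟨0,[(10,0),(31,0),(2,0)]⟩⟩,.o ⟨false,0,⟨0,
  [(16,0),(26,0)]⟩,⟨1,[(10,1),(20,1),(8,0),(0,1),(3,0)]⟩⟩,.o ⟨false,0,⟨0,[(18,0)]⟩,⟨1,[(31,1),(8,0),
  (3,0)]⟩⟩,.a ⟨true,(-1),⟨0,[(3,0)]⟩,⟨0,[(31,0),(12,0)]⟩⟩ ⟨false,1,⟨0,[(1,0)]⟩,⟨1,[(10,1),(20,0),(0,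
  0)]⟩⟩ ⟨true,0,⟨0,[(0,0)]⟩,⟨3,[(10,5),(0,1),(19,2),(0,0)]⟩⟩]⟩) (.S ⟨1,0,[0,1,0,-1,0,0,0,-1],[1,0,
  -1],[1,0,0,0,0,0,0,-1],(⟨0,[(33,0)]⟩,⟨0,[(34,0)]⟩),⟨0,[(22,0)]⟩,.k,.k,⟨true,0,⟨0,[]⟩,⟨0,[(47,
  0)]⟩⟩,⟨false,0,⟨0,[(43,0)]⟩,⟨0,[(42,0),(2,0)]⟩⟩,⟨false,1,⟨0,[(42,0),(2,0)]⟩,⟨0,[(43,0)]⟩⟩,⟨true,0,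
  ⟨0,[(47,0)]⟩,⟨0,[]⟩⟩,[.a ⟨true,(-1),⟨0,[(2,0),(13,0)]⟩,⟨2,[(0,0),(28,1),(1,0),(9,1),(3,2)]⟩⟩
  ⟨false,1,⟨9,[(1,4),(6,0),(8,1),(1,4),(5,0),(18,1)]⟩,⟨0,[(10,0)]⟩⟩ ⟨true,0,⟨4,[(1,0),(0,3),(13,1),
  (0,0),(1,1),(11,1),(8,1)]⟩,⟨0,[(0,0)]⟩⟩,.o ⟨false,0,⟨0,[(16,0),(26,0)]⟩,⟨5,[(0,1),(28,3),(1,1),(8,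
  2),(0,3),(3,2)]⟩⟩,.o ⟨false,0,⟨0,[(18,0)]⟩,⟨1,[(31,1),(8,0),(3,0)]⟩⟩,.e ⟨false,1,⟨0,[(1,0)]⟩,⟨1,
  [(10,1),(20,0),(0,0)]⟩⟩ ⟨false,1,⟨3,[(1,0),(15,1),(1,1),(10,0),(0,0),(13,0)]⟩,⟨0,[(0,0)]⟩⟩]⟩))
  (.I [0,-1,-1,-1,1,0,0,-1] (.R ⟨1,false,false,true,[1,0,-1],[1,-1],[0,0,0,-1,0,0,0,-1],(⟨0,[(33,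
  0)]⟩,⟨0,[(34,0)]⟩),(⟨0,[(37,0)]⟩,⟨0,[(38,0)]⟩),⟨0,[(22,0)]⟩,.k,.k,.k,.k,.k,.k,⟨false,1,⟨1,[(0,0),
  (18,0),(25,0)]⟩,⟨0,[(14,0)]⟩⟩,⟨true,0,⟨0,[(31,0)]⟩,⟨0,[(18,0)]⟩⟩,⟨true,0,⟨0,[(43,0)]⟩,⟨0,[(42,
  0)]⟩⟩,⟨true,0,⟨5,[(1,1),(15,1),(11,3),(1,2),(0,0)]⟩,⟨0,[(15,0)]⟩⟩,⟨false,1,⟨1,[(24,0),(0,0),(19,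
  0)]⟩,⟨0,[]⟩⟩,⟨true,0,⟨0,[(29,0)]⟩,⟨0,[(16,0)]⟩⟩,[.a ⟨true,(-1),⟨0,[(2,0)]⟩,⟨0,[(42,0),(2,0)]⟩⟩
  ⟨false,1,⟨5,[(0,2),(16,1),(1,2),(4,0),(0,0)]⟩,⟨0,[(1,0),(39,0),(3,0)]⟩⟩ ⟨true,0,⟨8,[(2,3),(14,1),
  (13,8),(7,1),(0,1),(0,0)]⟩,⟨3,[(1,1),(1,1),(7,1),(28,0),(4,2)]⟩⟩,.o ⟨false,0,⟨0,[(43,0)]⟩,⟨1,[(40,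
  0),(1,1),(2,0)]⟩⟩,.o ⟨false,0,⟨0,[(18,0)]⟩,⟨1,[(31,1),(8,0),(3,0)]⟩⟩,.e ⟨false,1,⟨0,[(0,0)]⟩,⟨0,
  [(1,0),(40,0),(2,0)]⟩⟩ ⟨false,1,⟨0,[(0,0),(28,0)]⟩,⟨3,[(1,1),(1,1),(7,1),(28,0),(4,2)]⟩⟩]⟩) (.Q
  [0,0,0,0,0,2,0,0,0,-1,1] (.p true [0,0,1] [1] (⟨0,[(34,0)]⟩,⟨0,[(33,0)]⟩) .k 1 (⟨0,[]⟩,⟨0,[]⟩) .k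
  .k) (.Q [0,0,2,0,-1,0,-1,0,0,0,-1] (.p false [0,0,1] [] (⟨0,[(35,0)]⟩,⟨0,[(34,0)]⟩) .k 0 (⟨0,[]⟩,
  ⟨0,[]⟩) .k .k) (.R ⟨0,false,false,true,[1,-1,-1],[1,-1],[0,0,-1,-1,0,0,0,-1],(⟨0,[(24,0)]⟩,⟨0,[(1,
  0),(37,0)]⟩),(⟨0,[(39,0)]⟩,⟨0,[(40,0)]⟩),⟨0,[(1,0)]⟩,.k,.k,(.r (-1) ⟨0,[(17,0),(1,0),(13,0)]⟩ ⟨3,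
  [(2,4),(7,1),(10,0),(5,1),(5,0),(0,0),(12,2)]⟩),.k,.k,.k,⟨true,1,⟨2,[(17,1),(1,0),(1,0),(11,1),
  (13,1)]⟩,⟨0,[(3,0)]⟩⟩,⟨false,1,⟨0,[(33,0),(12,0)]⟩,⟨0,[(20,0)]⟩⟩,⟨false,1,⟨1,[(26,0),(0,0),(19,
  0)]⟩,⟨0,[]⟩⟩,⟨true,0,⟨0,[(31,0)]⟩,⟨0,[(18,0)]⟩⟩,⟨false,0,⟨0,[]⟩,⟨0,[]⟩⟩,⟨false,0,⟨0,[]⟩,⟨0,[]⟩⟩,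
  [.e ⟨false,1,⟨0,[(13,0),(5,0),(13,0)]⟩,⟨3,[(2,2),(7,0),(16,0),(3,0),(2,0),(12,1)]⟩⟩ ⟨false,1,⟨4,
  [(19,1),(13,4),(7,1),(1,0),(2,2)]⟩,⟨2,[(0,0),(1,0),(10,0),(6,0),(26,1)]⟩⟩,.o ⟨false,0,⟨0,[(45,
  0)]⟩,⟨1,[(42,0),(1,1),(2,0)]⟩⟩,.a ⟨true,(-1),⟨0,[(5,0)]⟩,⟨0,[(33,0),(12,0)]⟩⟩ ⟨true,1,⟨2,[(17,0),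
  (1,1),(1,1),(11,0),(13,0)]⟩,⟨0,[(2,0)]⟩⟩ ⟨false,1,⟨4,[(10,0),(8,1),(7,0),(5,4),(12,1)]⟩,⟨2,[(0,0),
  (1,0),(10,0),(6,0),(26,1)]⟩⟩,.o ⟨false,(-1),⟨0,[(0,0)]⟩,⟨1,[(33,1),(8,0),(3,2)]⟩⟩]⟩) (.Q [0,1,2,0,
  -2,0,-2,-1,0,1,-2] (.p false [0,0,1] [1,0,-1] (⟨0,[(36,0)]⟩,⟨0,[(35,0)]⟩) .k 2 (⟨0,[(35,0)]⟩,⟨0,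
  [(36,0)]⟩) .k (.r 0 ⟨0,[(12,1)]⟩ ⟨8,[(0,3),(17,11),(0,1),(1,5),(11,7),(13,2)]⟩)) (.R ⟨0,false,
  false,true,[1,-1,-1],[0,0,1],[1,1,0,0,0,0,0,1],(⟨0,[(25,0)]⟩,⟨0,[(2,0),(37,0)]⟩),(⟨0,[(37,0)]⟩,⟨0,
  [(36,0)]⟩),⟨0,[(2,0)]⟩,.k,.k,(.r (-1) ⟨2,[(1,0),(17,2),(0,1),(13,1)]⟩ ⟨3,[(3,4),(7,1),(10,0),(5,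
  1),(5,0),(0,0),(12,2)]⟩),(.r (-1) ⟨2,[(1,1),(17,5),(0,0),(13,3)]⟩ ⟨3,[(3,2),(7,0),(1,3),(14,0),(3,
  0),(2,0),(12,1)]⟩),.k,.k,⟨true,0,⟨0,[]⟩,⟨1,[(34,0),(0,0)]⟩⟩,⟨false,2,⟨5,[(1,7),(25,0),(0,0),(5,3),
  (8,2)]⟩,⟨0,[(6,0),(14,0)]⟩⟩,⟨true,(-1),⟨0,[(3,0),(9,0)]⟩,⟨2,[(1,1),(17,5),(0,0),(13,3)]⟩⟩,⟨false,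
  1,⟨1,[(1,1),(1,1),(9,1),(20,1),(8,0),(4,0)]⟩,⟨1,[(0,0),(14,0),(3,1),(0,0),(13,0),(13,1)]⟩⟩,⟨false,
  0,⟨0,[]⟩,⟨0,[]⟩⟩,⟨false,0,⟨0,[]⟩,⟨0,[]⟩⟩,[.a ⟨true,0,⟨0,[(32,0)]⟩,⟨3,[(0,0),(14,2),(4,0),(13,0),
  (13,3)]⟩⟩ ⟨false,0,⟨0,[(17,0)]⟩,⟨8,[(1,1),(17,5),(0,0),(1,2),(11,3),(13,5)]⟩⟩ ⟨true,1,⟨1,[(1,1),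
  (2,0),(27,0),(1,0),(8,0)]⟩,⟨0,[(0,0),(47,0)]⟩⟩,.o ⟨false,1,⟨1,[(32,1),(10,0),(4,0)]⟩,⟨0,[(19,
  0)]⟩⟩,.a ⟨true,(-1),⟨0,[(6,0)]⟩,⟨2,[(1,1),(25,0),(0,0),(5,0)]⟩⟩ ⟨false,0,⟨0,[(16,0)]⟩,⟨8,[(1,1),
  (17,5),(0,0),(1,2),(11,3),(13,5)]⟩⟩ ⟨true,1,⟨1,[(1,1),(2,0),(27,0),(1,0),(8,0)]⟩,⟨9,[(0,6),(14,0),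
  (2,1),(1,0),(3,0),(6,0),(16,3)]⟩⟩,.a ⟨true,(-1),⟨1,[(6,1),(27,0),(0,0)]⟩,⟨0,[(1,0)]⟩⟩ ⟨true,0,⟨0,
  [(17,0)]⟩,⟨0,[(19,0),(14,0)]⟩⟩ ⟨false,2,⟨1,[(1,1),(30,1),(10,0),(4,0)]⟩,⟨0,[(0,0),(47,0)]⟩⟩]⟩)
  (.R ⟨0,false,false,false,[1,-1,-1],[0,0,1],[1,0,0,0,0,0,0,1],(⟨0,[(25,0)]⟩,⟨0,[(2,0),(37,0)]⟩),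
  (⟨0,[(37,0)]⟩,⟨0,[(36,0)]⟩),⟨0,[(2,0)]⟩,.k,.k,(.r (-1) ⟨2,[(1,0),(17,2),(0,1),(13,1)]⟩ ⟨3,[(3,4),
  (7,1),(10,0),(5,1),(5,0),(0,0),(12,2)]⟩),(.r (-1) ⟨2,[(1,1),(17,5),(0,0),(13,3)]⟩ ⟨4,[(0,0),(2,4),
  (9,1),(10,0),(7,1),(2,1),(12,2)]⟩),.k,.k,⟨true,0,⟨0,[]⟩,⟨1,[(34,0),(0,0)]⟩⟩,⟨false,2,⟨8,[(0,2),(0,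
  7),(18,0),(1,2),(11,3),(8,2)]⟩,⟨0,[(6,0),(14,0)]⟩⟩,⟨false,0,⟨0,[(3,0),(9,0),(34,0)]⟩,⟨2,[(1,1),
  (17,5),(0,0),(13,3)]⟩⟩,⟨true,1,⟨1,[(0,1),(2,1),(30,0),(0,0)]⟩,⟨0,[(5,0),(13,1)]⟩⟩,⟨false,0,⟨0,[]⟩,
  ⟨0,[]⟩⟩,⟨false,0,⟨0,[]⟩,⟨0,[]⟩⟩,[.o ⟨false,1,⟨3,[(0,1),(3,0),(27,0),(1,0),(0,1),(7,0)]⟩,⟨0,[(19,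
  0)]⟩⟩,.e ⟨false,1,⟨7,[(0,1),(12,5),(17,3),(11,0),(4,2)]⟩,⟨2,[(15,1),(4,0),(1,0),(11,1),(8,0)]⟩⟩
  ⟨false,2,⟨0,[(0,0)]⟩,⟨0,[(6,0),(26,0)]⟩⟩,.a ⟨true,(-1),⟨0,[(6,0)]⟩,⟨11,[(0,2),(0,4),(8,2),(9,0),
  (1,2),(5,2),(5,0)]⟩⟩ ⟨true,0,⟨0,[(16,0)]⟩,⟨2,[(15,1),(4,0),(1,0),(11,1),(8,0)]⟩⟩ ⟨false,2,⟨1,[(0,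
  1),(33,0),(0,0)]⟩,⟨0,[(6,0),(12,0)]⟩⟩,.e ⟨false,1,⟨7,[(0,1),(12,5),(17,3),(11,0),(4,2)]⟩,⟨0,[(19,
  0),(14,0)]⟩⟩ ⟨false,2,⟨0,[(0,0)]⟩,⟨1,[(6,1),(12,1),(14,0),(0,0)]⟩⟩]⟩))) (.Q [0,0,2,0,-1,0,-1,0,0,
  0,-1] (.p false [0,0,1] [] (⟨0,[(35,0)]⟩,⟨0,[(34,0)]⟩) .k 0 (⟨0,[]⟩,⟨0,[]⟩) .k .k) (.R ⟨1,false,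
  false,false,[1,-1,-1],[1,-1],[1,1,-1,-1,0,0,0,-1],(⟨0,[(24,0)]⟩,⟨0,[(36,0),(0,0)]⟩),(⟨0,[(39,0)]⟩,
  ⟨0,[(40,0)]⟩),⟨0,[(1,0)]⟩,.k,.k,(.r (-1) ⟨0,[(17,0),(1,0),(13,0)]⟩ ⟨3,[(2,4),(7,1),(10,0),(5,1),
  (5,0),(0,0),(12,2)]⟩),.k,.k,.k,⟨true,0,⟨2,[(14,1),(4,0),(1,0),(11,1),(8,0)]⟩,⟨0,[(3,0),(43,0)]⟩⟩,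
  ⟨false,1,⟨0,[(33,0),(12,0)]⟩,⟨0,[(20,0)]⟩⟩,⟨false,0,⟨0,[]⟩,⟨1,[(26,0),(0,0),(19,0)]⟩⟩,⟨false,1,⟨0,
  [(31,0),(15,0)]⟩,⟨0,[(18,0)]⟩⟩,⟨true,0,⟨0,[(44,0)]⟩,⟨0,[(45,0)]⟩⟩,⟨false,1,⟨2,[(2,0),(28,1),(1,0),
  (9,1),(3,3)]⟩,⟨2,[(0,0),(17,2),(0,0),(13,0)]⟩⟩,[.o ⟨false,0,⟨0,[(45,0)]⟩,⟨1,[(42,0),(1,1),(2,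
  0)]⟩⟩,.e ⟨false,1,⟨0,[(13,0),(5,0),(13,0)]⟩,⟨3,[(2,2),(7,0),(16,0),(3,0),(2,0),(12,1)]⟩⟩ ⟨false,2,
  ⟨9,[(10,1),(8,3),(7,1),(5,9),(12,8),(0,4)]⟩,⟨3,[(0,0),(1,1),(11,1),(5,0),(21,0)]⟩⟩,.a ⟨true,(-1),
  ⟨0,[(5,0)]⟩,⟨0,[(33,0),(12,0)]⟩⟩ ⟨false,1,⟨2,[(17,0),(1,1),(1,1),(11,0),(13,0)]⟩,⟨0,[(2,0),(44,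
  0)]⟩⟩ ⟨true,1,⟨4,[(10,0),(8,1),(7,0),(5,4),(12,1)]⟩,⟨3,[(0,0),(1,1),(11,1),(5,0),(21,0)]⟩⟩,.o
  ⟨false,(-1),⟨0,[(0,0)]⟩,⟨1,[(33,1),(8,0),(3,2)]⟩⟩]⟩) (.I [0,-1,-1,-2,1,0,0,-1] (.R ⟨1,false,false,
  true,[1,-1,-1],[1,-1],[0,0,-1,-2,0,0,0,-1],(⟨0,[(25,0)]⟩,⟨0,[(37,0),(0,0)]⟩),(⟨0,[(40,0)]⟩,⟨0,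
  [(41,0)]⟩),⟨0,[(2,0)]⟩,.k,.k,(.r (-1) ⟨20,[(0,15),(0,4),(3,2),(9,4),(4,3),(21,3),(0,3)]⟩ ⟨3,[(3,
  4),(7,1),(10,0),(5,1),(5,0),(0,0),(12,2)]⟩),.k,.k,.k,⟨true,1,⟨5,[(0,3),(21,1),(11,0),(0,0),(12,
  1)]⟩,⟨0,[(3,0)]⟩⟩,⟨false,1,⟨2,[(1,1),(25,0),(0,0),(5,0)]⟩,⟨0,[(21,0)]⟩⟩,⟨true,0,⟨0,[(46,0)]⟩,⟨0,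
  [(45,0)]⟩⟩,⟨true,0,⟨0,[(32,0)]⟩,⟨0,[(19,0)]⟩⟩,⟨false,1,⟨1,[(27,0),(0,0),(19,0)]⟩,⟨0,[]⟩⟩,⟨true,0,
  ⟨4,[(1,1),(1,2),(28,1),(1,0),(10,1),(2,0)]⟩,⟨2,[(0,0),(4,0),(0,0),(12,1),(23,0)]⟩⟩,[.e ⟨false,1,
  ⟨20,[(0,15),(0,4),(3,2),(9,4),(4,3),(21,3),(0,3)]⟩,⟨0,[(3,0),(41,0),(2,0)]⟩⟩ ⟨false,1,⟨1,[(0,0),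
  (0,0),(30,0),(9,0)]⟩,⟨2,[(3,0),(2,1),(7,0),(28,0),(4,1)]⟩⟩,.o ⟨false,0,⟨0,[(46,0)]⟩,⟨1,[(43,0),(1,
  1),(2,0)]⟩⟩,.e ⟨false,1,⟨0,[(0,0)]⟩,⟨0,[(3,0),(41,0),(2,0)]⟩⟩ ⟨false,1,⟨5,[(0,2),(0,1),(25,0),(0,
  0),(3,2),(1,0)]⟩,⟨2,[(3,0),(2,1),(7,0),(28,0),(4,1)]⟩⟩,.a ⟨true,(-1),⟨1,[(6,1),(27,0),(0,0)]⟩,⟨0,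
  [(1,0)]⟩⟩ ⟨true,1,⟨20,[(0,15),(0,4),(3,2),(9,4),(4,3),(21,3),(0,3)]⟩,⟨1,[(3,2),(18,0),(25,0)]⟩⟩
  ⟨false,1,⟨2,[(1,1),(18,0),(13,0)]⟩,⟨5,[(3,1),(2,3),(7,1),(19,2),(0,2),(7,1),(4,3)]⟩⟩]⟩) (.Q [0,0,
  -1,0,1,0,0,0,-1,0,0,-1] (.p false [0,0,0,0,1] [] (⟨0,[(30,0)]⟩,⟨0,[(29,0)]⟩) .k 0 (⟨0,[]⟩,⟨0,[]⟩)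
  .k .k) (.Q [0,0,0,0,0,-1,0,0,0,0,0,1] (.ed false [1,-1,0,0,1] .k) (.S ⟨1,0,[0,2,0,-1],[0,0,0,0,1],
  [1,1],(⟨0,[(32,0)]⟩,⟨0,[(31,0)]⟩),⟨0,[(0,0)]⟩,.k,(.r 0 ⟨8,[(7,3),(14,1),(21,1),(0,1),(0,0)]⟩ ⟨5,
  [(2,0),(10,2),(10,0),(5,2),(5,1),(0,1),(12,3)]⟩),⟨true,0,⟨0,[]⟩,⟨0,[(52,0)]⟩⟩,⟨false,0,⟨0,[(48,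
  0)]⟩,⟨19,[(2,2),(0,1),(9,8),(2,1),(7,0),(5,8),(19,11)]⟩⟩,⟨false,1,⟨19,[(2,2),(0,1),(9,8),(2,1),(7,
  0),(5,8),(19,11)]⟩,⟨0,[(48,0)]⟩⟩,⟨true,0,⟨0,[(52,0)]⟩,⟨0,[]⟩⟩,[.o ⟨false,(-1),⟨0,[(7,0),(2,0),(34,
  0)]⟩,⟨0,[(13,0),(36,0)]⟩⟩,.a ⟨true,(-1),⟨0,[(10,0),(37,0)]⟩,⟨4,[(2,0),(0,1),(8,3),(0,0),(2,0),(16,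
  0),(16,2)]⟩⟩ ⟨true,0,⟨0,[]⟩,⟨1,[(36,0),(0,0)]⟩⟩ ⟨false,0,⟨8,[(7,3),(14,1),(21,1),(0,1),(0,0)]⟩,
  ⟨19,[(2,2),(0,1),(9,8),(2,1),(7,0),(5,8),(19,11)]⟩⟩,.o ⟨false,0,⟨0,[(14,0)]⟩,⟨0,[(29,0)]⟩⟩,.o
  ⟨false,0,⟨1,[(14,1),(21,0),(0,0)]⟩,⟨0,[(1,0)]⟩⟩]⟩) (.R ⟨0,false,false,false,[0,0,0,0,1],[0,1],[1,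
  0,2,1],(⟨0,[(32,0)]⟩,⟨0,[(31,0)]⟩),(⟨0,[(43,0)]⟩,⟨0,[(42,0)]⟩),⟨0,[(0,0)]⟩,.k,.k,(.r 0 ⟨8,[(7,3),
  (14,1),(21,1),(0,1),(0,0)]⟩ ⟨5,[(2,0),(10,2),(10,0),(5,2),(5,1),(0,1),(12,3)]⟩),(.r 0 ⟨8,[(7,3),
  (14,1),(21,1),(0,1),(0,0)]⟩ ⟨5,[(2,0),(10,2),(10,0),(5,2),(5,1),(0,1),(12,3)]⟩),.k,.k,⟨false,0,⟨0,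
  []⟩,⟨4,[(13,2),(8,0),(7,2),(18,0)]⟩⟩,⟨true,1,⟨0,[(1,0)]⟩,⟨0,[(8,0),(5,0),(21,0)]⟩⟩,⟨true,0,⟨7,[(2,
  1),(5,5),(7,1),(19,7),(8,2),(4,4)]⟩,⟨2,[(7,1),(14,0),(21,0),(0,0),(0,1)]⟩⟩,⟨false,2,⟨0,[(13,0),
  (36,0)]⟩,⟨0,[(10,0),(37,0)]⟩⟩,⟨false,0,⟨0,[]⟩,⟨0,[]⟩⟩,⟨false,0,⟨0,[]⟩,⟨0,[]⟩⟩,[.o ⟨false,1,⟨19,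
  [(2,2),(0,1),(9,8),(2,1),(7,0),(5,8),(14,9),(4,1)]⟩,⟨0,[(48,0)]⟩⟩,.a ⟨true,1,⟨19,[(2,2),(0,1),(9,
  8),(2,1),(7,0),(5,8),(19,11)]⟩,⟨0,[(7,0)]⟩⟩ ⟨true,0,⟨7,[(2,1),(5,5),(7,1),(19,7),(8,2),(4,4)]⟩,⟨8,
  [(7,3),(14,1),(21,1),(0,1),(0,0)]⟩⟩ ⟨false,2,⟨1,[(13,1),(35,0),(0,0)]⟩,⟨0,[(10,0),(37,0)]⟩⟩,.o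
  ⟨false,0,⟨0,[(14,0)]⟩,⟨0,[(29,0)]⟩⟩,.o ⟨false,0,⟨1,[(14,1),(21,0),(0,0)]⟩,⟨0,[(1,0)]⟩⟩]⟩)) (.Q [0,
  0,0,0,0,-1,0,0,0,0,0,1] (.ed false [1,-1,0,0,1] .k) (.S ⟨1,0,[0,1,0,-1],[0,0,0,0,1],[1,2],(⟨0,
  [(32,0)]⟩,⟨0,[(31,0)]⟩),⟨0,[(0,0)]⟩,.k,(.r 0 ⟨8,[(7,3),(14,1),(21,1),(0,1),(0,0)]⟩ ⟨5,[(2,0),(10,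
  2),(10,0),(5,2),(5,1),(0,1),(12,3)]⟩),⟨false,0,⟨0,[]⟩,⟨1,[(29,0),(0,0),(19,0)]⟩⟩,⟨true,0,⟨0,[(48,
  0)]⟩,⟨0,[(47,0)]⟩⟩,⟨true,0,⟨0,[(47,0)]⟩,⟨0,[(48,0)]⟩⟩,⟨false,1,⟨1,[(29,0),(0,0),(19,0)]⟩,⟨0,[]⟩⟩,
  [.e ⟨false,0,⟨0,[(44,0)]⟩,⟨0,[(50,0)]⟩⟩ ⟨false,0,⟨8,[(7,3),(14,1),(21,1),(0,1),(0,0)]⟩,⟨19,[(2,2),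
  (0,1),(9,8),(2,1),(7,0),(5,8),(19,11)]⟩⟩,.o ⟨false,0,⟨11,[(1,9),(20,3),(7,1),(5,0),(0,0),(7,5)]⟩,
  ⟨0,[(13,0)]⟩⟩,.o ⟨false,0,⟨0,[(14,0)]⟩,⟨0,[(29,0)]⟩⟩,.a ⟨true,(-1),⟨0,[(1,0)]⟩,⟨7,[(3,3),(8,4),(0,
  2),(8,0),(3,0),(6,1)]⟩⟩ ⟨false,0,⟨8,[(7,1),(14,0),(21,0),(0,0),(0,4)]⟩,⟨1,[(36,0),(0,0),(12,1)]⟩⟩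
  ⟨true,0,⟨8,[(7,3),(14,1),(21,1),(0,1),(0,0)]⟩,⟨5,[(2,1),(21,1),(11,0),(0,0),(12,1)]⟩⟩]⟩) (.R ⟨0,
  false,false,true,[0,0,0,0,1],[0,1],[1,2],(⟨0,[(32,0)]⟩,⟨0,[(31,0)]⟩),(⟨0,[(43,0)]⟩,⟨0,[(42,0)]⟩),
  ⟨0,[(0,0)]⟩,.k,.k,(.r 0 ⟨8,[(7,3),(14,1),(21,1),(0,1),(0,0)]⟩ ⟨5,[(2,0),(10,2),(10,0),(5,2),(5,1),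
  (0,1),(12,3)]⟩),(.r 0 ⟨8,[(7,3),(14,1),(21,1),(0,1),(0,0)]⟩ ⟨5,[(2,0),(10,2),(10,0),(5,2),(5,1),
  (0,1),(12,3)]⟩),.k,.k,⟨true,0,⟨8,[(7,3),(14,1),(21,1),(0,1),(0,0)]⟩,⟨7,[(1,5),(0,1),(9,5),(3,1),
  (19,1),(8,2),(4,4)]⟩⟩,⟨false,2,⟨4,[(13,5),(8,1),(7,0),(18,1)]⟩,⟨0,[(1,0)]⟩⟩,⟨false,0,⟨0,[]⟩,⟨1,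
  [(29,0),(0,0),(19,0)]⟩⟩,⟨true,1,⟨0,[(13,0)]⟩,⟨6,[(1,2),(5,3),(2,2),(11,0),(7,0),(14,1)]⟩⟩,⟨false,
  0,⟨0,[]⟩,⟨0,[]⟩⟩,⟨false,0,⟨0,[]⟩,⟨0,[]⟩⟩,[.e ⟨false,0,⟨0,[(44,0)]⟩,⟨0,[(50,0)]⟩⟩ ⟨false,1,⟨8,[(7,
  1),(5,8),(8,0),(21,0),(0,0),(0,4)]⟩,⟨11,[(1,9),(20,3),(7,1),(5,0),(0,0),(12,5)]⟩⟩,.o ⟨false,1,⟨19,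
  [(2,2),(0,1),(9,8),(2,1),(7,0),(5,8),(14,9),(4,1)]⟩,⟨0,[(48,0)]⟩⟩,.o ⟨false,0,⟨0,[(14,0)]⟩,⟨0,
  [(29,0)]⟩⟩,.a ⟨true,(-1),⟨0,[(1,0)]⟩,⟨7,[(3,3),(8,4),(0,2),(8,0),(3,0),(6,1)]⟩⟩ ⟨false,0,⟨8,[(7,
  1),(14,0),(21,0),(0,0),(0,4)]⟩,⟨1,[(36,0),(0,0),(12,1)]⟩⟩ ⟨true,1,⟨8,[(7,1),(5,8),(8,0),(21,0),(0,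
  0),(0,4)]⟩,⟨0,[(1,0),(46,0)]⟩⟩]⟩))))))))) (.Q [0,0,0,0,0,0,1,0,1,-1,1,1] (.p true [0,0,1] [1,0,0,
  0,-1] (⟨0,[(31,0)]⟩,⟨0,[(30,0)]⟩) .k 2 (⟨0,[(23,0)]⟩,⟨0,[(24,0)]⟩) .k (.r 0 ⟨1,[(11,0),(14,0),(2,
  0)]⟩ ⟨4,[(0,0),(8,0),(3,1),(0,0),(1,1),(11,1),(13,3)]⟩)) (.Q [0,2,0,0,-1,0,0,0,1,-1,0,1] (.p true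
  [0,0,0,0,1] [1] (⟨0,[(25,0)]⟩,⟨0,[(24,0)]⟩) .k 1 (⟨0,[]⟩,⟨0,[]⟩) .k .k) (.K ⟨0,[1,0,0,0,-1],0,1,
  (⟨0,[(25,0)]⟩,⟨0,[(26,0)]⟩),.k,(.r (-1) ⟨5,[(16,1),(6,0),(0,0),(19,2)]⟩ ⟨1,[(30,0),(0,0),(9,1)]⟩),
  (.r (-1) ⟨1,[(30,0),(0,0),(9,1),(2,1)]⟩ ⟨4,[(0,1),(5,1),(9,1),(23,0)]⟩),.k,.k,[⟨0,[(1,0)]⟩,⟨0,[(6,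
  0)]⟩,⟨0,[(0,0)]⟩,⟨4,[(6,4),(0,2),(8,0),(7,2),(18,0)]⟩]⟩) (.R ⟨2,false,false,false,[0,1],[1,0,0,0,
  -1],[0,0,1],(⟨0,[]⟩,⟨0,[]⟩),(⟨0,[(25,0)]⟩,⟨0,[(26,0)]⟩),⟨0,[]⟩,.k,.k,.k,(.r 0 ⟨1,[(30,0),(0,0),(9,
  1)]⟩ ⟨5,[(16,1),(6,0),(0,0),(19,2)]⟩),.k,.k,⟨false,0,⟨0,[(46,0)]⟩,⟨1,[(43,0),(0,0)]⟩⟩,⟨true,0,⟨0,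
  [(6,0)]⟩,⟨0,[(8,0)]⟩⟩,⟨true,0,⟨0,[(42,0)]⟩,⟨0,[(41,0)]⟩⟩,⟨false,1,⟨0,[(0,0),(41,0)]⟩,⟨1,[(3,0),
  (20,0),(14,0),(1,0)]⟩⟩,⟨false,1,⟨1,[(23,0),(0,0),(19,0)]⟩,⟨0,[]⟩⟩,⟨false,1,⟨0,[(0,0)]⟩,⟨1,[(4,0),
  (19,0),(14,0),(6,0)]⟩⟩,[.a ⟨true,1,⟨9,[(0,4),(5,4),(0,2),(8,0),(7,2),(18,0)]⟩,⟨0,[(4,0)]⟩⟩ ⟨true,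
  0,⟨1,[(30,0),(0,0)]⟩,⟨0,[]⟩⟩ ⟨false,1,⟨9,[(0,4),(5,4),(0,2),(8,0),(7,2),(18,0)]⟩,⟨9,[(3,5),(4,3),
  (7,1),(21,1),(0,2),(3,0)]⟩⟩,.e ⟨false,1,⟨1,[(23,0),(0,0),(19,0)]⟩,⟨1,[(2,0),(8,0),(1,0),(28,0)]⟩⟩
  ⟨false,1,⟨0,[(0,0)]⟩,⟨0,[(8,0),(29,0)]⟩⟩,.o ⟨false,1,⟨1,[(39,0),(3,0)]⟩,⟨1,[(30,0),(0,0)]⟩⟩,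
  .fo]⟩)) (.Q [0,0,0,0,0,-1,0,0,0,0,0,1] (.ed false [1,-1,0,0,1] .k) (.S ⟨1,0,[0,-1,1],[1,1,0,0,-1],
  [1,0,1,1],(⟨0,[(25,0),(8,0)]⟩,⟨0,[(0,0)]⟩),⟨0,[(25,0)]⟩,(.r (-1) ⟨1,[(30,0),(0,0),(9,1),(2,1)]⟩
  ⟨1,[(2,0),(8,0),(1,0),(28,2)]⟩),.k,⟨false,0,⟨0,[]⟩,⟨1,[(23,0),(0,0),(19,0)]⟩⟩,⟨true,0,⟨0,[(42,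
  0)]⟩,⟨0,[(41,0)]⟩⟩,⟨true,0,⟨0,[(41,0)]⟩,⟨0,[(42,0)]⟩⟩,⟨false,1,⟨1,[(23,0),(0,0),(19,0)]⟩,⟨0,[]⟩⟩,
  [.a ⟨true,1,⟨1,[(6,1),(36,0),(0,0)]⟩,⟨0,[(4,0)]⟩⟩ ⟨true,0,⟨3,[(9,1),(0,1),(19,2),(0,0)]⟩,⟨0,[(42,
  0)]⟩⟩ ⟨false,1,⟨1,[(23,0),(0,0),(19,0)]⟩,⟨1,[(2,0),(8,0),(1,0),(28,0)]⟩⟩,.e ⟨false,1,⟨0,[(41,0),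
  (2,0)]⟩,⟨1,[(2,0),(8,0),(1,0),(28,2)]⟩⟩ ⟨false,1,⟨0,[(44,0)]⟩,⟨0,[(38,0)]⟩⟩,.o ⟨false,1,⟨0,[(1,0),
  (0,0)]⟩,⟨1,[(8,1),(21,0),(0,0)]⟩⟩,.o ⟨false,1,⟨0,[(23,0)]⟩,⟨0,[(8,0)]⟩⟩]⟩) (.R ⟨0,false,false,
  false,[0,0,0,0,1],[1,0,-1,0,1],[0,1,1,0,0,0,0,-1],(⟨0,[(26,0)]⟩,⟨0,[(25,0)]⟩),(⟨0,[(26,0),(5,0)]⟩,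
  ⟨0,[(0,0),(21,0)]⟩),⟨0,[(0,0)]⟩,.k,.k,(.r 0 ⟨1,[(2,0),(8,0),(1,0),(28,2)]⟩ ⟨1,[(30,0),(0,0),(9,1),
  (2,1)]⟩),.k,.k,.k,⟨true,0,⟨1,[(30,0),(0,0)]⟩,⟨0,[]⟩⟩,⟨false,0,⟨0,[(27,0)]⟩,⟨3,[(2,1),(20,0),(0,0),
  (5,1),(8,0)]⟩⟩,⟨true,0,⟨0,[(15,0),(14,0)]⟩,⟨0,[(13,0)]⟩⟩,⟨false,0,⟨0,[(11,0),(30,0),(1,0)]⟩,⟨1,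
  [(28,1),(10,0),(4,0)]⟩⟩,⟨false,0,⟨0,[]⟩,⟨0,[]⟩⟩,⟨false,0,⟨0,[]⟩,⟨0,[]⟩⟩,[.o ⟨false,(-1),⟨0,[(4,0),
  (10,0)]⟩,⟨1,[(2,1),(3,1),(2,1),(29,0),(4,0)]⟩⟩,.a ⟨true,(-1),⟨0,[(4,0),(6,0),(30,0),(1,0)]⟩,⟨0,
  [(2,0),(3,0),(2,0)]⟩⟩ ⟨true,0,⟨0,[(15,0),(14,0)]⟩,⟨0,[(12,0)]⟩⟩ ⟨false,0,⟨5,[(11,4),(4,1),(1,0),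
  (8,0),(16,2)]⟩,⟨1,[(28,1),(10,0),(4,0)]⟩⟩,.o ⟨false,0,⟨0,[(8,0)]⟩,⟨0,[(23,0)]⟩⟩,.o ⟨false,0,⟨1,
  [(8,1),(21,0),(0,0)]⟩,⟨0,[(1,0),(0,0)]⟩⟩]⟩)))))))))) (.N [0,0,1] 0 ⟨0,[(3,0)]⟩ ⟨0,[(0,0)]⟩ .k))
  (.R ⟨1,false,false,false,[0,0,1],[0,1],[1,0,1],(⟨0,[(23,0)]⟩,⟨0,[(22,0)]⟩),(⟨0,[(27,0)]⟩,⟨0,[(26,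
  0)]⟩),⟨0,[(12,0)]⟩,.k,.k,.k,.k,(.r (-1) ⟨8,[(2,4),(3,5),(3,1),(7,3),(10,0),(4,1)]⟩ ⟨0,[(2,0),(1,
  1),(15,1)]⟩),.k,⟨true,0,⟨0,[(32,0)]⟩,⟨0,[(2,0),(1,0),(15,0)]⟩⟩,⟨false,1,⟨1,[(17,1),(11,0),(3,0)]⟩,
  ⟨0,[(20,0)]⟩⟩,⟨true,0,⟨0,[(5,0),(14,0)]⟩,⟨1,[(0,1),(0,1),(0,1),(26,0),(0,1),(3,0)]⟩⟩,⟨true,0,⟨0,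
  [(4,0)]⟩,⟨1,[(0,0),(17,0),(17,0)]⟩⟩,⟨true,0,⟨0,[(4,0),(15,0)]⟩,⟨12,[(0,5),(0,1),(1,9),(2,0),(0,2),
  (11,0),(9,0)]⟩⟩,⟨false,1,⟨0,[(4,0),(26,0),(2,0)]⟩,⟨0,[(0,0)]⟩⟩,[.o ⟨false,1,⟨1,[(29,0),(1,1),(2,
  0)]⟩,⟨0,[(32,0)]⟩⟩,.e ⟨false,1,⟨1,[(13,0),(0,0),(19,0)]⟩,⟨8,[(0,1),(0,1),(4,0),(21,0),(0,0),(0,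
  4)]⟩⟩ ⟨false,1,⟨3,[(2,1),(1,1),(12,1),(11,0),(0,1),(3,2)]⟩,⟨8,[(0,3),(0,3),(4,1),(13,8),(7,1),(0,
  1),(0,0)]⟩⟩,.o ⟨false,1,⟨1,[(20,1),(8,0),(3,0)]⟩,⟨0,[(7,0)]⟩⟩,.a ⟨true,0,⟨0,[(20,0)]⟩,⟨0,[(17,
  0)]⟩⟩ ⟨true,0,⟨0,[]⟩,⟨0,[(36,0)]⟩⟩ ⟨false,1,⟨3,[(2,1),(1,1),(12,1),(11,0),(0,1),(3,2)]⟩,⟨0,[(20,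
  0),(11,0)]⟩⟩]⟩))))

theorem ok72 : chk K t72 l40 = true := by decide +kernel

noncomputable def t73 : Tre :=
  (.S ⟨1,0,[0,0,1,0,0,0,0,-1],[1,1,-1],[1,1,1,1,0,0,0,-1],(⟨0,[(20,0),(1,0)]⟩,⟨0,[(10,0)]⟩),⟨0,[(20,
  0)]⟩,.k,.k,⟨false,0,⟨0,[]⟩,⟨1,[(11,0),(0,0),(19,0)]⟩⟩,⟨true,0,⟨0,[(30,0)]⟩,⟨0,[(29,0)]⟩⟩,⟨true,0,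
  ⟨0,[(29,0)]⟩,⟨0,[(30,0)]⟩⟩,⟨false,1,⟨1,[(11,0),(0,0),(19,0)]⟩,⟨0,[]⟩⟩,[.o ⟨false,0,⟨0,[(3,0)]⟩,⟨1,
  [(16,1),(10,0),(4,0)]⟩⟩,.a ⟨true,0,⟨0,[(1,0),(13,0)]⟩,⟨0,[(16,0)]⟩⟩ ⟨false,0,⟨0,[(1,0),(26,0)]⟩,
  ⟨0,[(0,0),(33,0)]⟩⟩ ⟨true,0,⟨0,[(1,0)]⟩,⟨0,[(5,0),(10,0)]⟩⟩,.e ⟨false,0,⟨0,[(2,0),(15,0)]⟩,⟨0,[(0,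
  0)]⟩⟩ ⟨false,0,⟨0,[(1,0)]⟩,⟨0,[(0,0),(28,0)]⟩⟩,.o ⟨false,0,⟨0,[(5,0)]⟩,⟨1,[(18,1),(8,0),(3,
  0)]⟩⟩]⟩)

theorem ok73 : chk K t73 l41 = true := by decide +kernel

noncomputable def t74 : Tre :=
  (.Q [0,-1,0,-1,0,0,0,0,0,1] (.pp false [-1,1]) (.R ⟨1,false,false,false,[1,0,-1],[1,-1],[0,0,0,-1,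
  0,0,0,-1],(⟨0,[(22,0)]⟩,⟨0,[(23,0)]⟩),(⟨0,[(26,0)]⟩,⟨0,[(27,0)]⟩),⟨0,[(11,0)]⟩,.k,.k,.k,.k,.k,.k,
  ⟨false,0,⟨3,[(1,1),(0,0),(5,0),(24,0)]⟩,⟨1,[(17,1),(0,1),(10,0),(4,0)]⟩⟩,⟨true,0,⟨0,[(20,0)]⟩,⟨0,
  [(7,0)]⟩⟩,⟨true,0,⟨0,[(32,0)]⟩,⟨0,[(31,0)]⟩⟩,⟨false,1,⟨0,[(18,0),(13,0),(1,0)]⟩,⟨0,[(4,0)]⟩⟩,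
  ⟨false,1,⟨1,[(13,0),(0,0),(19,0)]⟩,⟨0,[]⟩⟩,⟨false,1,⟨0,[(18,0),(15,0)]⟩,⟨0,[(5,0)]⟩⟩,[.o ⟨false,0,
  ⟨0,[(32,0)]⟩,⟨1,[(29,0),(1,1),(2,0)]⟩⟩,.a ⟨true,0,⟨0,[(0,0)]⟩,⟨0,[(31,0)]⟩⟩ ⟨true,0,⟨0,[(1,0)]⟩,
  ⟨0,[(2,0),(4,1),(10,1),(15,0)]⟩⟩ ⟨false,1,⟨1,[(1,1),(16,1),(14,0),(0,0)]⟩,⟨0,[(7,0),(23,0)]⟩⟩,.o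
  ⟨false,0,⟨0,[(7,0)]⟩,⟨1,[(20,1),(8,0),(3,0)]⟩⟩,.o ⟨false,0,⟨0,[(21,0)]⟩,⟨1,[(1,1),(16,1),(10,0),
  (0,1),(3,0)]⟩⟩]⟩) (.R ⟨1,false,false,false,[0,0,1],[1,-1],[1,1,0,0,0,0,0,1],(⟨0,[(23,0)]⟩,⟨0,[(22,
  0)]⟩),(⟨0,[(26,0)]⟩,⟨0,[(27,0)]⟩),⟨0,[(12,0)]⟩,.k,.k,.k,.k,.k,.k,⟨true,0,⟨0,[(2,0),(4,1),(10,1),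
  (15,0)]⟩,⟨0,[(1,0)]⟩⟩,⟨false,0,⟨1,[(10,0),(13,0),(1,0)]⟩,⟨1,[(1,1),(16,1),(10,0),(0,1),(3,0)]⟩⟩,
  ⟨false,0,⟨0,[]⟩,⟨1,[(13,0),(0,0),(19,0)]⟩⟩,⟨false,0,⟨1,[(1,1),(8,0),(13,0),(1,0)]⟩,⟨0,[(0,0),(17,
  0),(15,0)]⟩⟩,⟨true,0,⟨0,[(31,0)]⟩,⟨0,[(32,0)]⟩⟩,⟨false,0,⟨0,[(3,0),(13,0)]⟩,⟨1,[(18,1),(10,0),(4,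
  0)]⟩⟩,[.o ⟨false,0,⟨0,[(32,0)]⟩,⟨1,[(29,0),(1,1),(2,0)]⟩⟩,.o ⟨false,1,⟨5,[(6,1),(6,0),(0,0),(5,2),
  (0,2),(12,2)]⟩,⟨0,[(0,0)]⟩⟩,.o ⟨false,1,⟨1,[(20,1),(8,0),(3,0)]⟩,⟨0,[(7,0)]⟩⟩,.a ⟨true,0,⟨0,[(20,
  0)]⟩,⟨0,[(17,0)]⟩⟩ ⟨false,1,⟨1,[(17,1),(0,1),(10,0),(4,0)]⟩,⟨0,[(3,0)]⟩⟩ ⟨true,0,⟨0,[(17,0),(14,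
  0)]⟩,⟨0,[(0,0),(19,0)]⟩⟩]⟩))

theorem ok74 : chk K t74 l42 = true := by decide +kernel

noncomputable def t75 : Tre :=
  (.Q [0,-1,0,0,1,0,0,0,-1,0,0,-1] (.p false [0,0,0,0,1] [] (⟨0,[(16,0)]⟩,⟨0,[(15,0)]⟩) .k 0 (⟨0,
  []⟩,⟨0,[]⟩) .k .k) (.Q [0,1,0,0,0,0,1,1,-1,0,1,-1] (.p true [0,0,1] [0,0,0,0,1] (⟨0,[(24,0)]⟩,⟨0,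
  [(23,0)]⟩) .k 2 (⟨0,[(17,0)]⟩,⟨0,[(16,0)]⟩) .k (.r (-1) ⟨0,[(2,0),(30,0),(1,0)]⟩ ⟨2,[(3,0),(3,0),
  (1,1)]⟩)) (.Q [0,0,0,0,0,1,0,0,0,-1,0,1] (.ed false [0,1,0,0,1] .k) (.R ⟨0,false,false,false,[1,0,
  0,0,-1],[1,0,-1],[],(⟨0,[(18,0)]⟩,⟨0,[(19,0)]⟩),(⟨0,[(25,0)]⟩,⟨0,[(26,0)]⟩),⟨0,[(0,0)]⟩,.k,.k,(.r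
  (-1) ⟨5,[(9,1),(6,0),(0,0),(19,2)]⟩ ⟨3,[(4,1),(6,1),(11,0),(0,0)]⟩),.k,.k,.k,⟨false,1,⟨5,[(4,5),
  (4,1),(6,0),(0,0),(19,2)]⟩,⟨11,[(5,4),(0,5),(2,1),(1,0),(24,2)]⟩⟩,⟨true,0,⟨0,[(10,0),(6,0)]⟩,⟨0,
  [(1,0),(4,0)]⟩⟩,⟨true,0,⟨0,[(39,0)]⟩,⟨0,[]⟩⟩,⟨false,0,⟨0,[(8,0),(8,0)]⟩,⟨0,[(1,0),(35,0)]⟩⟩,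
  ⟨false,0,⟨0,[]⟩,⟨0,[]⟩⟩,⟨false,0,⟨0,[]⟩,⟨0,[]⟩⟩,[.o ⟨false,0,⟨0,[(8,0)]⟩,⟨1,[(21,1),(10,0),(4,
  0)]⟩⟩,.e ⟨false,1,⟨1,[(36,0),(0,0)]⟩,⟨0,[(39,0)]⟩⟩ ⟨false,1,⟨7,[(7,5),(1,1),(7,7),(4,1),(13,0),(0,
  4)]⟩,⟨0,[(1,0)]⟩⟩,.a ⟨true,0,⟨0,[(1,0),(4,0),(13,0)]⟩,⟨0,[(17,0)]⟩⟩ ⟨false,1,⟨1,[(16,0),(0,0),(19,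
  0)]⟩,⟨0,[]⟩⟩ ⟨true,0,⟨0,[(8,0),(8,0)]⟩,⟨0,[(1,0)]⟩⟩,.o ⟨false,0,⟨0,[(1,0),(4,0),(3,0)]⟩,⟨1,[(17,
  1),(14,0),(3,0)]⟩⟩]⟩) (.Q [0,0,0,-1,0,0,0,0,-1,0,0,-1] (.p false [0,0,0,0,1] [] (⟨0,[(19,0)]⟩,⟨0,
  [(18,0)]⟩) .k 0 (⟨0,[]⟩,⟨0,[]⟩) .k .k) (.R ⟨2,true,false,false,[0,1],[0,1,0,0,1],[0,0,1],(⟨0,[]⟩,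
  ⟨0,[]⟩),(⟨0,[(20,0),(7,0)]⟩,⟨0,[(1,0)]⟩),⟨0,[]⟩,.k,(.r 0 ⟨3,[(5,1),(6,1),(11,0),(0,0)]⟩ ⟨5,[(10,
  1),(6,0),(0,0),(19,2)]⟩),.k,.k,(.r (-1) ⟨5,[(10,1),(6,0),(0,0),(19,2)]⟩ ⟨3,[(5,1),(6,1),(11,0),(0,
  0)]⟩),.k,⟨false,1,⟨5,[(10,1),(6,0),(0,0),(19,2)]⟩,⟨0,[(35,0)]⟩⟩,⟨true,0,⟨0,[(18,0)]⟩,⟨1,[(0,0),(1,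
  0),(3,0),(18,0),(12,0)]⟩⟩,⟨true,0,⟨0,[(36,0)]⟩,⟨0,[(35,0)]⟩⟩,⟨false,0,⟨0,[(18,0)]⟩,⟨0,[(3,0)]⟩⟩,
  ⟨false,1,⟨1,[(17,0),(0,0),(19,0)]⟩,⟨0,[]⟩⟩,⟨true,0,⟨0,[(18,0),(16,0)]⟩,⟨0,[(0,0)]⟩⟩,[]⟩) (.Q [0,0,
  -1,0,0,0,0,0,-1,1,0,-1] (.p false [0,0,0,0,1] [1] (⟨0,[(20,0)]⟩,⟨0,[(19,0)]⟩) .k 1 (⟨0,[]⟩,⟨0,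
  []⟩) .k .k) (.Q [0,1,0,0,0,0,0,0,1,-1,0,1] (.p true [0,0,0,0,1] [1] (⟨0,[(21,0)]⟩,⟨0,[(20,0)]⟩)
  .k 1 (⟨0,[]⟩,⟨0,[]⟩) .k .k) (.S ⟨1,0,[0,-1,1],[1,1,0,0,-1],[1,0,1,1],(⟨0,[(21,0),(8,0)]⟩,⟨0,[(6,
  0),(10,0)]⟩),⟨0,[(21,0)]⟩,(.r (-1) ⟨3,[(7,1),(6,1),(11,0),(0,0),(12,3)]⟩ ⟨1,[(7,0),(0,0),(3,0),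
  (25,0)]⟩),.k,⟨false,0,⟨0,[]⟩,⟨1,[(19,0),(0,0),(19,0)]⟩⟩,⟨true,0,⟨0,[(38,0)]⟩,⟨0,[(37,0)]⟩⟩,⟨true,
  0,⟨0,[(37,0)]⟩,⟨0,[(38,0)]⟩⟩,⟨false,1,⟨1,[(19,0),(0,0),(19,0)]⟩,⟨0,[]⟩⟩,[.o ⟨false,1,⟨0,[(5,0)]⟩,
  ⟨0,[(0,0)]⟩⟩,.e ⟨false,1,⟨0,[(2,0),(2,0)]⟩,⟨1,[(7,0),(0,0),(3,0),(25,0)]⟩⟩ ⟨false,1,⟨0,[(40,0)]⟩,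
  ⟨0,[(34,0)]⟩⟩,.a ⟨true,0,⟨0,[(1,0)]⟩,⟨1,[(20,1),(5,0),(0,0)]⟩⟩ ⟨true,0,⟨3,[(7,1),(0,1),(17,0),(0,
  0),(12,1)]⟩,⟨1,[(7,0),(0,0),(3,0),(25,0)]⟩⟩ ⟨false,1,⟨1,[(26,0),(0,0),(12,1)]⟩,⟨2,[(7,0),(0,0),(3,
  0),(23,0)]⟩⟩,.e ⟨false,1,⟨0,[(2,0),(2,0)]⟩,⟨0,[(38,0)]⟩⟩ ⟨false,1,⟨0,[(40,0)]⟩,⟨0,[(42,0)]⟩⟩]⟩)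
  (.R ⟨2,false,false,true,[0,1],[1,0,0,0,-1],[0,0,1],(⟨0,[]⟩,⟨0,[]⟩),(⟨0,[(21,0)]⟩,⟨0,[(22,0)]⟩),⟨0,
  []⟩,.k,.k,.k,(.r 0 ⟨3,[(7,1),(6,1),(11,0),(0,0)]⟩ ⟨5,[(12,1),(6,0),(0,0),(19,2)]⟩),.k,.k,⟨true,0,
  ⟨1,[(26,0),(0,0)]⟩,⟨0,[]⟩⟩,⟨false,0,⟨4,[(0,1),(0,1),(2,0),(11,0),(8,0),(0,1)]⟩,⟨1,[(20,1),(14,0),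
  (3,0)]⟩⟩,⟨true,0,⟨0,[(38,0)]⟩,⟨0,[(37,0)]⟩⟩,⟨false,0,⟨0,[(0,0),(37,0)]⟩,⟨1,[(2,1),(16,0),(0,0),
  (14,0)]⟩⟩,⟨false,1,⟨1,[(19,0),(0,0),(19,0)]⟩,⟨0,[]⟩⟩,⟨false,0,⟨0,[(0,0)]⟩,⟨1,[(19,0),(0,2),(14,
  0)]⟩⟩,[.a ⟨true,0,⟨4,[(0,1),(0,1),(2,0),(11,0),(8,0),(0,1)]⟩,⟨0,[(20,0)]⟩⟩ ⟨true,0,⟨1,[(26,0),(0,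
  0)]⟩,⟨0,[]⟩⟩ ⟨false,0,⟨4,[(0,1),(0,1),(2,0),(11,0),(8,0),(0,1)]⟩,⟨1,[(20,1),(14,0),(3,0)]⟩⟩,.e
  ⟨false,1,⟨1,[(19,0),(0,0),(19,0)]⟩,⟨2,[(7,0),(0,0),(3,0),(23,0)]⟩⟩ ⟨false,0,⟨0,[(0,0)]⟩,⟨3,[(19,
  0),(0,4),(13,1),(0,1),(3,0)]⟩⟩,.o ⟨false,1,⟨1,[(35,0),(3,0)]⟩,⟨1,[(26,0),(0,0)]⟩⟩,.fo]⟩)) (.S ⟨1,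
  0,[0,1,0,-1],[0,0,0,0,1],[1,2],(⟨0,[(21,0)]⟩,⟨0,[(20,0)]⟩),⟨0,[(5,0),(10,0)]⟩,.k,(.r 0 ⟨1,[(6,0),
  (0,0),(3,0),(25,0)]⟩ ⟨3,[(6,1),(6,1),(11,0),(0,0),(12,3)]⟩),⟨false,0,⟨0,[]⟩,⟨1,[(18,0),(0,0),(19,
  0)]⟩⟩,⟨true,0,⟨0,[(37,0)]⟩,⟨0,[(36,0)]⟩⟩,⟨true,0,⟨0,[(36,0)]⟩,⟨0,[(37,0)]⟩⟩,⟨false,1,⟨1,[(18,0),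
  (0,0),(19,0)]⟩,⟨0,[]⟩⟩,[.o ⟨false,0,⟨1,[(0,1),(5,0),(0,0),(3,0),(25,0)]⟩,⟨0,[(3,0),(5,0),(29,
  0)]⟩⟩,.a ⟨true,0,⟨0,[(19,0),(17,0)]⟩,⟨0,[(3,0),(3,0),(14,0),(16,0)]⟩⟩ ⟨false,0,⟨2,[(6,0),(0,0),(3,
  0),(23,0)]⟩,⟨1,[(18,0),(0,0),(19,0)]⟩⟩ ⟨true,0,⟨0,[(37,0)]⟩,⟨3,[(6,1),(0,1),(17,0),(0,0),(12,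
  1)]⟩⟩,.e ⟨false,0,⟨0,[(41,0)]⟩,⟨0,[(39,0)]⟩⟩ ⟨false,0,⟨0,[(37,0)]⟩,⟨0,[(1,0),(2,0)]⟩⟩,.o ⟨false,0,
  ⟨0,[(0,0)]⟩,⟨4,[(3,0),(0,2),(4,0),(1,0),(6,0),(16,1)]⟩⟩]⟩)))) (.Q [0,0,1,0,0,0,0,0,1,-1,0,1] (.p
  true [0,0,0,0,1] [1] (⟨0,[(18,0)]⟩,⟨0,[(17,0)]⟩) .k 1 (⟨0,[]⟩,⟨0,[]⟩) .k .k) (.Q [0,0,0,0,0,0,0,0,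
  -1,1,0,-1] (.p false [0,0,0,0,1] [1] (⟨0,[(19,0)]⟩,⟨0,[(18,0)]⟩) .k 1 (⟨0,[]⟩,⟨0,[]⟩) .k .k) (.S
  ⟨1,0,[0,0,1],[1,1,0,0,-1],[0,-1,1],(⟨0,[(19,0),(8,0)]⟩,⟨0,[(4,0),(10,0)]⟩),⟨0,[(19,0)]⟩,(.r (-1)
  ⟨3,[(5,1),(6,1),(11,0),(0,0),(12,3)]⟩ ⟨1,[(5,0),(0,0),(3,0),(25,0)]⟩),.k,⟨true,0,⟨0,[(36,0)]⟩,⟨0,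
  [(35,0)]⟩⟩,⟨false,0,⟨0,[(36,0)]⟩,⟨0,[(35,0),(2,0)]⟩⟩,⟨false,1,⟨1,[(17,0),(0,0),(19,0)]⟩,⟨0,[]⟩⟩,
  ⟨true,0,⟨0,[(40,0)]⟩,⟨0,[]⟩⟩,[.a ⟨true,0,⟨0,[(0,0)]⟩,⟨0,[(18,0)]⟩⟩ ⟨false,1,⟨1,[(17,0),(0,0),(19,
  0)]⟩,⟨2,[(5,0),(0,0),(3,0),(23,0)]⟩⟩ ⟨true,0,⟨1,[(24,0),(0,0)]⟩,⟨0,[]⟩⟩,.o ⟨false,1,⟨0,[(3,0)]⟩,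
  ⟨2,[(1,2),(3,0),(0,0),(3,0),(23,0)]⟩⟩,.o ⟨false,1,⟨5,[(0,1),(2,2),(6,0),(6,0),(15,0),(0,2)]⟩,⟨0,
  [(1,0)]⟩⟩,.e ⟨false,1,⟨0,[(38,0)]⟩,⟨0,[(40,0)]⟩⟩ ⟨false,1,⟨1,[(17,0),(0,0),(19,0)]⟩,⟨0,[]⟩⟩]⟩)
  (.I [0,0,-1,0,0,-1,-1,0,1] (.R ⟨1,false,false,false,[0,0,1],[0,0,0,0,1],[0,0,0,-1,0,0,0,1],(⟨0,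
  [(28,0)]⟩,⟨0,[(27,0)]⟩),(⟨0,[(21,0)]⟩,⟨0,[(20,0)]⟩),⟨0,[(17,0)]⟩,.k,.k,.k,.k,(.x (-1) ⟨1,[(4,1),
  (2,0),(13,1),(1,0),(1,0),(1,1),(1,1),(4,0),(2,0)]⟩ ⟨0,[(0,0)]⟩),.k,⟨true,1,⟨0,[(6,0),(30,1),(1,
  0)]⟩,⟨0,[(7,0)]⟩⟩,⟨false,0,⟨0,[(1,0),(20,0)]⟩,⟨4,[(4,3),(2,0),(3,0),(6,0),(4,0),(1,3),(9,1)]⟩⟩,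
  ⟨true,0,⟨0,[(37,0)]⟩,⟨0,[(36,0)]⟩⟩,⟨true,(-1),⟨0,[(1,0),(5,0),(14,0),(14,0)]⟩,⟨0,[(4,0),(18,0)]⟩⟩,
  ⟨false,1,⟨1,[(18,0),(0,0),(19,0)]⟩,⟨0,[]⟩⟩,⟨true,(-1),⟨0,[(1,0),(5,0),(14,0)]⟩,⟨0,[(4,0),(18,0),
  (13,0)]⟩⟩,[.o ⟨false,0,⟨1,[(1,0),(0,0),(30,0)]⟩,⟨0,[(4,0)]⟩⟩,.o ⟨false,0,⟨0,[(1,0)]⟩,⟨0,[(18,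
  0)]⟩⟩,.o ⟨false,1,⟨1,[(25,1),(8,0),(3,0)]⟩,⟨0,[(12,0)]⟩⟩,.a ⟨true,0,⟨0,[(25,0)]⟩,⟨0,[(22,0)]⟩⟩
  ⟨true,1,⟨1,[(6,0),(4,0),(11,0),(2,0),(12,0)]⟩,⟨0,[(7,0)]⟩⟩ ⟨false,0,⟨0,[(1,0),(20,0)]⟩,⟨0,[(4,0),
  (20,0)]⟩⟩]⟩) (.Q [0,0,0,0,0,1,0,0,0,-1,0,1] (.ed false [0,1,0,0,1] .k) (.R ⟨0,false,false,false,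
  [-1,1,0,0,1],[-1,0,1,0,1],[],(⟨0,[(0,0)]⟩,⟨0,[(21,0),(10,0)]⟩),(⟨0,[(6,0)]⟩,⟨0,[(21,0),(6,0)]⟩),
  ⟨0,[(21,0)]⟩,(.r 0 ⟨3,[(7,1),(6,1),(11,0),(0,0)]⟩ ⟨5,[(12,1),(6,0),(0,0),(19,2)]⟩),.k,.k,.k,.k,.k,
  ⟨false,1,⟨0,[(9,0),(29,0)]⟩,⟨0,[(7,0),(30,0)]⟩⟩,⟨true,0,⟨0,[(26,0)]⟩,⟨0,[(13,0)]⟩⟩,⟨true,1,⟨5,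
  [(12,1),(6,0),(0,0),(19,2)]⟩,⟨0,[(7,0),(0,0),(29,0)]⟩⟩,⟨false,1,⟨0,[(24,0),(13,0),(1,0)]⟩,⟨0,[(10,
  0)]⟩⟩,⟨false,0,⟨0,[]⟩,⟨0,[]⟩⟩,⟨false,0,⟨0,[]⟩,⟨0,[]⟩⟩,[.e ⟨false,1,⟨1,[(19,0),(0,0),(18,0)]⟩,⟨0,
  []⟩⟩ ⟨false,0,⟨0,[(24,0)]⟩,⟨7,[(10,5),(1,1),(12,1),(13,0),(0,4)]⟩⟩,.o ⟨false,1,⟨1,[(2,1),(21,1),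
  (10,0),(4,0)]⟩,⟨0,[(5,0),(2,0),(14,0),(14,0)]⟩⟩,.o ⟨false,1,⟨1,[(2,1),(32,0),(3,0)]⟩,⟨0,[(1,0),
  (11,0),(4,0),(2,0)]⟩⟩,.a ⟨true,0,⟨0,[(2,0)]⟩,⟨0,[(1,0),(16,0),(2,0),(1,0)]⟩⟩ ⟨false,1,⟨1,[(39,0),
  (0,0)]⟩,⟨1,[(26,0),(0,0)]⟩⟩ ⟨true,0,⟨0,[(24,0)]⟩,⟨0,[(11,0)]⟩⟩]⟩) (.Q [0,0,0,0,0,0,1,0,1,-1,1,1]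
  (.p true [-1,0,1,0,1] [] (⟨0,[(6,0)]⟩,⟨0,[(21,0),(6,0)]⟩) .k 0 (⟨0,[]⟩,⟨0,[]⟩) .k (.r 0 ⟨0,[(7,0),
  (30,0)]⟩ ⟨4,[(9,1),(2,0),(1,2),(24,0),(0,2)]⟩)) (.S ⟨1,0,[0,1,1],[0,1,0,0,1],[1,2,1,1],(⟨0,[(23,
  0),(7,0)]⟩,⟨0,[(1,0)]⟩),⟨0,[(23,0)]⟩,(.r 0 ⟨3,[(8,1),(6,1),(11,0),(0,0)]⟩ ⟨5,[(13,1),(6,0),(0,0),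
  (19,2)]⟩),.k,⟨false,0,⟨0,[]⟩,⟨1,[(20,0),(0,0),(19,0)]⟩⟩,⟨true,0,⟨0,[(39,0)]⟩,⟨0,[(38,0)]⟩⟩,⟨true,
  0,⟨0,[(38,0)]⟩,⟨0,[(39,0)]⟩⟩,⟨false,1,⟨1,[(20,0),(0,0),(19,0)]⟩,⟨0,[]⟩⟩,[.o ⟨false,0,⟨1,[(3,0),(0,
  0),(30,0)]⟩,⟨0,[(6,0)]⟩⟩,.o ⟨false,0,⟨0,[(3,0)]⟩,⟨0,[(20,0)]⟩⟩,.a ⟨true,0,⟨0,[(0,0),(23,0)]⟩,⟨0,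
  [(2,0),(11,0),(4,0),(2,0)]⟩⟩ ⟨true,(-1),⟨0,[(8,0),(0,0),(29,0)]⟩,⟨5,[(13,1),(6,0),(0,0),(19,2)]⟩⟩
  ⟨false,0,⟨1,[(27,0),(0,0)]⟩,⟨1,[(40,0),(0,0)]⟩⟩,.o ⟨false,0,⟨0,[(3,0)]⟩,⟨0,[(20,0)]⟩⟩]⟩) (.R ⟨1,
  false,false,true,[0,0,1],[1,0,0,0,-1],[0,0,0,-1,0,0,0,1],(⟨0,[(30,0)]⟩,⟨0,[(29,0)]⟩),(⟨0,[(22,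
  0)]⟩,⟨0,[(23,0)]⟩),⟨0,[(19,0)]⟩,.k,.k,.k,.k,(.r (-1) ⟨1,[(8,0),(4,0),(6,0),(0,0),(3,0),(2,0)]⟩ ⟨0,
  [(9,0),(31,0)]⟩),.k,⟨false,1,⟨1,[(8,0),(4,0),(11,0),(2,0),(12,0)]⟩,⟨1,[(9,1),(30,0),(0,0)]⟩⟩,
  ⟨true,0,⟨0,[(0,0)]⟩,⟨0,[(3,0),(23,0)]⟩⟩,⟨true,0,⟨0,[(39,0)]⟩,⟨0,[(38,0)]⟩⟩,⟨true,0,⟨11,[(0,11),(8,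
  4),(0,5),(2,1),(1,0),(24,2)]⟩,⟨0,[(3,0),(21,0)]⟩⟩,⟨false,1,⟨1,[(20,0),(0,0),(19,0)]⟩,⟨0,[]⟩⟩,
  ⟨true,0,⟨0,[(6,0),(2,0),(14,0)]⟩,⟨0,[(3,0),(21,0),(13,0)]⟩⟩,[.o ⟨false,1,⟨0,[(20,0)]⟩,⟨0,[(3,
  0)]⟩⟩,.o ⟨false,1,⟨0,[(6,0)]⟩,⟨1,[(3,0),(0,0),(30,0)]⟩⟩,.o ⟨false,1,⟨1,[(27,1),(8,0),(3,0)]⟩,⟨0,
  [(14,0)]⟩⟩,.a ⟨true,0,⟨0,[(27,0)]⟩,⟨0,[(24,0)]⟩⟩ ⟨true,1,⟨1,[(8,0),(4,0),(11,0),(2,0),(12,0)]⟩,⟨0,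
  [(9,0)]⟩⟩ ⟨false,1,⟨0,[(6,0),(17,0)]⟩,⟨0,[(3,0),(23,0)]⟩⟩]⟩))))) (.Q [0,1,0,0,0,0,0,0,1,-1,0,1]
  (.p true [0,0,0,0,1] [1] (⟨0,[(19,0)]⟩,⟨0,[(18,0)]⟩) .k 1 (⟨0,[]⟩,⟨0,[]⟩) .k .k) (.S ⟨1,0,[0,-1,
  1],[1,1,0,0,-1],[1,0,1,1],(⟨0,[(19,0),(8,0)]⟩,⟨0,[(4,0),(10,0)]⟩),⟨0,[(19,0)]⟩,(.r (-1) ⟨3,[(5,1),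
  (6,1),(11,0),(0,0),(12,3)]⟩ ⟨1,[(5,0),(0,0),(3,0),(25,0)]⟩),.k,⟨false,0,⟨0,[]⟩,⟨1,[(17,0),(0,0),
  (19,0)]⟩⟩,⟨true,0,⟨0,[(36,0)]⟩,⟨0,[(35,0)]⟩⟩,⟨true,0,⟨0,[(35,0)]⟩,⟨0,[(36,0)]⟩⟩,⟨false,1,⟨1,[(17,
  0),(0,0),(19,0)]⟩,⟨0,[]⟩⟩,[.o ⟨false,1,⟨0,[(3,0)]⟩,⟨0,[(0,0)]⟩⟩,.e ⟨false,1,⟨0,[(35,0),(2,0)]⟩,⟨1,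
  [(5,0),(0,0),(3,0),(25,0)]⟩⟩ ⟨false,1,⟨0,[(38,0)]⟩,⟨0,[(32,0)]⟩⟩,.a ⟨true,0,⟨0,[(1,0)]⟩,⟨1,[(18,
  1),(5,0),(0,0)]⟩⟩ ⟨true,0,⟨3,[(5,1),(0,1),(17,0),(0,0),(12,1)]⟩,⟨1,[(5,0),(0,0),(3,0),(25,0)]⟩⟩
  ⟨false,1,⟨1,[(24,0),(0,0),(12,1)]⟩,⟨2,[(5,0),(0,0),(3,0),(23,0)]⟩⟩,.e ⟨false,1,⟨0,[(35,0),(2,0)]⟩,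
  ⟨0,[(36,0)]⟩⟩ ⟨false,1,⟨0,[(38,0)]⟩,⟨0,[(40,0)]⟩⟩]⟩) (.R ⟨2,false,false,true,[0,1],[1,0,0,0,-1],
  [0,0,1],(⟨0,[]⟩,⟨0,[]⟩),(⟨0,[(19,0)]⟩,⟨0,[(20,0)]⟩),⟨0,[]⟩,.k,.k,.k,(.r 0 ⟨3,[(5,1),(6,1),(11,0),
  (0,0)]⟩ ⟨5,[(10,1),(6,0),(0,0),(19,2)]⟩),.k,.k,⟨true,0,⟨1,[(24,0),(0,0)]⟩,⟨0,[]⟩⟩,⟨false,0,⟨0,[(0,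
  0),(39,0)]⟩,⟨1,[(18,1),(14,0),(3,0)]⟩⟩,⟨true,0,⟨0,[(36,0)]⟩,⟨0,[(35,0)]⟩⟩,⟨false,0,⟨0,[(0,0),(35,
  0)]⟩,⟨1,[(18,1),(14,0),(1,1),(2,0)]⟩⟩,⟨false,1,⟨1,[(17,0),(0,0),(19,0)]⟩,⟨0,[]⟩⟩,⟨false,0,⟨0,[(0,
  0)]⟩,⟨1,[(17,0),(0,2),(14,0)]⟩⟩,[.a ⟨true,0,⟨0,[(0,0),(39,0)]⟩,⟨0,[(18,0)]⟩⟩ ⟨true,0,⟨1,[(24,0),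
  (0,0)]⟩,⟨0,[]⟩⟩ ⟨false,0,⟨0,[(0,0),(39,0)]⟩,⟨1,[(18,1),(14,0),(3,0)]⟩⟩,.e ⟨false,1,⟨1,[(17,0),(0,
  0),(19,0)]⟩,⟨2,[(5,0),(0,0),(3,0),(23,0)]⟩⟩ ⟨false,0,⟨0,[(0,0)]⟩,⟨3,[(17,0),(0,4),(13,1),(0,1),(3,
  0)]⟩⟩,.o ⟨false,1,⟨1,[(33,0),(3,0)]⟩,⟨1,[(24,0),(0,0)]⟩⟩,.fo]⟩)))) (.Q [0,0,1,0,-1,0,0,0,1,0,0,1]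
  (.p true [0,0,0,0,1] [] (⟨0,[(17,0)]⟩,⟨0,[(16,0)]⟩) .k 0 (⟨0,[]⟩,⟨0,[]⟩) .k .k) (.Q [0,1,0,0,-1,0,
  0,0,1,-1,0,1] (.p true [0,0,0,0,1] [1] (⟨0,[(18,0)]⟩,⟨0,[(17,0)]⟩) .k 1 (⟨0,[]⟩,⟨0,[]⟩) .k .k)
  (.R ⟨1,false,false,true,[0,0,1],[1,0,0,0,-1],[1,1,0,0,0,0,0,1],(⟨0,[(26,0)]⟩,⟨0,[(25,0)]⟩),(⟨0,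
  [(18,0)]⟩,⟨0,[(19,0)]⟩),⟨0,[(15,0)]⟩,.k,.k,.k,.k,(.r (-1) ⟨1,[(4,0),(4,0),(6,0),(0,0),(3,0),(2,
  0)]⟩ ⟨0,[(5,0),(31,0)]⟩),.k,⟨true,0,⟨0,[(4,0),(30,0)]⟩,⟨0,[(6,0)]⟩⟩,⟨false,1,⟨0,[(16,0),(3,0)]⟩,
  ⟨1,[(0,1),(22,1),(12,0),(0,0)]⟩⟩,⟨false,0,⟨0,[]⟩,⟨1,[(16,0),(0,0),(19,0)]⟩⟩,⟨false,1,⟨0,[(6,0),(9,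
  0),(3,0)]⟩,⟨0,[(0,0),(20,0),(15,0)]⟩⟩,⟨true,0,⟨0,[(34,0)]⟩,⟨0,[(35,0)]⟩⟩,⟨false,1,⟨0,[(5,0),(10,
  0),(3,0),(16,0)]⟩,⟨0,[(0,0),(20,0),(13,0),(1,0)]⟩⟩,[.o ⟨false,1,⟨0,[(16,0)]⟩,⟨3,[(0,1),(16,1),(14,
  0),(4,0)]⟩⟩,.o ⟨false,2,⟨1,[(16,2),(0,0),(19,0)]⟩,⟨0,[(0,0)]⟩⟩,.o ⟨false,1,⟨1,[(23,1),(8,0),(3,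
  0)]⟩,⟨0,[(10,0)]⟩⟩,.a ⟨true,0,⟨0,[(23,0)]⟩,⟨0,[(20,0)]⟩⟩ ⟨false,1,⟨5,[(4,5),(4,1),(6,0),(0,0),(19,
  2)]⟩,⟨0,[(6,0)]⟩⟩ ⟨true,1,⟨0,[(16,0),(3,0)]⟩,⟨0,[(0,0),(22,0)]⟩⟩]⟩) (.S ⟨1,0,[0,0,1],[1,1,0,0,-1],
  [0,-1,1],(⟨0,[(18,0),(8,0)]⟩,⟨0,[(3,0),(10,0)]⟩),⟨0,[(18,0)]⟩,(.r (-1) ⟨3,[(4,1),(6,1),(11,0),(0,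
  0),(12,3)]⟩ ⟨1,[(4,0),(0,0),(3,0),(25,0)]⟩),.k,⟨true,0,⟨0,[(35,0)]⟩,⟨0,[(34,0)]⟩⟩,⟨false,0,⟨0,
  [(35,0)]⟩,⟨0,[(34,0),(2,0)]⟩⟩,⟨false,1,⟨3,[(0,1),(16,1),(14,0),(4,0)]⟩,⟨0,[]⟩⟩,⟨true,0,⟨0,[(39,
  0)]⟩,⟨0,[]⟩⟩,[.o ⟨false,1,⟨0,[(16,0)]⟩,⟨1,[(2,1),(29,0),(4,0)]⟩⟩,.e ⟨false,1,⟨0,[(37,0)]⟩,⟨0,[(31,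
  0)]⟩⟩ ⟨false,1,⟨3,[(0,1),(16,1),(14,0),(4,0)]⟩,⟨2,[(4,0),(0,0),(3,0),(23,0)]⟩⟩,.a ⟨true,1,⟨4,[(0,
  3),(4,0),(3,0),(6,0),(3,0),(0,0),(11,1)]⟩,⟨0,[(1,0)]⟩⟩ ⟨false,1,⟨1,[(23,0),(0,0),(12,1)]⟩,⟨2,[(4,
  0),(0,0),(3,0),(23,0)]⟩⟩ ⟨true,0,⟨1,[(23,0),(0,0)]⟩,⟨2,[(4,0),(0,0),(3,0),(23,0)]⟩⟩,.o ⟨false,1,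
  ⟨0,[(16,0)]⟩,⟨1,[(2,1),(29,0),(4,0)]⟩⟩]⟩)) (.Q [0,-1,0,0,1,0,0,0,-1,1,0,-1] (.p false [0,0,0,0,1]
  [1] (⟨0,[(18,0)]⟩,⟨0,[(17,0)]⟩) .k 1 (⟨0,[]⟩,⟨0,[]⟩) .k .k) (.S ⟨1,0,[0,-1,1],[1,1,0,0,-1],[1,0,1,
  1],(⟨0,[(18,0),(8,0)]⟩,⟨0,[(3,0),(10,0)]⟩),⟨0,[(18,0)]⟩,(.r (-1) ⟨3,[(4,1),(6,1),(11,0),(0,0),(12,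
  3)]⟩ ⟨1,[(4,0),(0,0),(3,0),(25,0)]⟩),.k,⟨false,0,⟨0,[]⟩,⟨3,[(0,1),(16,1),(14,0),(4,0)]⟩⟩,⟨true,0,
  ⟨0,[(35,0)]⟩,⟨0,[(34,0)]⟩⟩,⟨true,0,⟨0,[(34,0)]⟩,⟨0,[(35,0)]⟩⟩,⟨false,1,⟨3,[(0,1),(16,1),(14,0),(4,
  0)]⟩,⟨0,[]⟩⟩,[.a ⟨true,1,⟨0,[(0,0)]⟩,⟨0,[(2,0)]⟩⟩ ⟨true,0,⟨3,[(4,1),(0,1),(17,0),(0,0),(12,1)]⟩,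
  ⟨0,[(35,0)]⟩⟩ ⟨false,1,⟨3,[(0,1),(16,1),(14,0),(4,0)]⟩,⟨2,[(4,0),(0,0),(3,0),(23,0)]⟩⟩,.e ⟨false,
  1,⟨0,[(34,0),(2,0)]⟩,⟨1,[(4,0),(0,0),(3,0),(25,0)]⟩⟩ ⟨false,1,⟨0,[(37,0)]⟩,⟨0,[(31,0)]⟩⟩,.o
  ⟨false,1,⟨0,[(1,0)]⟩,⟨1,[(2,1),(20,0),(0,0),(7,0),(4,0)]⟩⟩,.o ⟨false,1,⟨0,[(16,0)]⟩,⟨1,[(2,1),(29,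
  0),(4,0)]⟩⟩]⟩) (.R ⟨1,false,false,true,[0,0,1],[1,0,0,0,-1],[1,1,0,0,0,0,0,1],(⟨0,[(26,0)]⟩,⟨0,
  [(25,0)]⟩),(⟨0,[(18,0)]⟩,⟨0,[(19,0)]⟩),⟨0,[(15,0)]⟩,.k,.k,.k,.k,(.r (-1) ⟨1,[(4,0),(4,0),(6,0),(0,
  0),(3,0),(2,0)]⟩ ⟨0,[(5,0),(31,0)]⟩),.k,⟨true,0,⟨0,[(4,0),(30,0)]⟩,⟨0,[(6,0)]⟩⟩,⟨false,1,⟨0,[(16,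
  0),(3,0)]⟩,⟨1,[(0,1),(22,1),(12,0),(0,0)]⟩⟩,⟨false,0,⟨0,[]⟩,⟨1,[(16,0),(0,0),(19,0)]⟩⟩,⟨false,1,
  ⟨0,[(6,0),(9,0),(3,0)]⟩,⟨0,[(0,0),(20,0),(15,0)]⟩⟩,⟨true,0,⟨0,[(34,0)]⟩,⟨0,[(35,0)]⟩⟩,⟨false,1,⟨0,
  [(5,0),(10,0),(3,0),(16,0)]⟩,⟨0,[(0,0),(20,0),(13,0),(1,0)]⟩⟩,[.o ⟨false,1,⟨0,[(16,0)]⟩,⟨3,[(0,1),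
  (16,1),(14,0),(4,0)]⟩⟩,.o ⟨false,2,⟨1,[(16,2),(0,0),(19,0)]⟩,⟨0,[(0,0)]⟩⟩,.o ⟨false,1,⟨1,[(23,1),
  (8,0),(3,0)]⟩,⟨0,[(10,0)]⟩⟩,.a ⟨true,0,⟨0,[(23,0)]⟩,⟨0,[(20,0)]⟩⟩ ⟨false,1,⟨5,[(4,5),(4,1),(6,0),
  (0,0),(19,2)]⟩,⟨0,[(6,0)]⟩⟩ ⟨true,1,⟨0,[(16,0),(3,0)]⟩,⟨0,[(0,0),(22,0)]⟩⟩]⟩))))

theorem ok75 : chk K t75 l43 = true := by decide +kernel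

noncomputable def t76 : Tre :=
  (.K ⟨0,[0,0,1,0,1],(-1),(-1),(⟨0,[(17,0),(6,0)]⟩,⟨0,[(1,0)]⟩),.k,(.r (-1) ⟨1,[(2,0),(4,0),(6,0),
  (0,0),(3,0),(2,0)]⟩ ⟨0,[(3,0),(31,0)]⟩),(.r 0 ⟨1,[(2,1),(18,0),(0,0)]⟩ ⟨4,[(4,3),(2,1),(1,0),(24,
  1),(0,0)]⟩),.k,.k,[⟨0,[(14,0)]⟩,⟨0,[(0,0)]⟩,⟨0,[(6,0),(7,0)]⟩,⟨1,[(0,1),(1,2),(0,0),(3,0),(25,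
  0)]⟩]⟩)

theorem ok76 : chk K t76 l44 = true := by decide +kernel

noncomputable def t77 : Tre :=
  (.R ⟨1,true,false,false,[0,0,1],[0,0,1,0,1],[0,0,0,-1,0,0,0,1],(⟨0,[(25,0)]⟩,⟨0,[(24,0)]⟩),(⟨0,
  [(18,0),(6,0)]⟩,⟨0,[(2,0)]⟩),⟨0,[(14,0)]⟩,.k,.k,.k,.k,(.r (-1) ⟨5,[(8,1),(6,0),(0,0),(19,2)]⟩ ⟨3,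
  [(3,1),(6,1),(11,0),(0,0)]⟩),.k,⟨false,1,⟨5,[(8,1),(6,0),(0,0),(19,2)]⟩,⟨0,[(33,0)]⟩⟩,⟨true,0,⟨0,
  [(16,0)]⟩,⟨3,[(0,3),(2,1),(0,1),(17,0),(0,0),(12,1)]⟩⟩,⟨true,0,⟨0,[(34,0)]⟩,⟨0,[(33,0)]⟩⟩,⟨false,
  0,⟨0,[(16,0)]⟩,⟨4,[(0,2),(2,0),(0,0),(10,1),(16,0),(3,3)]⟩⟩,⟨false,1,⟨1,[(15,0),(0,0),(19,0)]⟩,⟨0,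
  []⟩⟩,⟨true,0,⟨0,[(16,0),(16,0)]⟩,⟨0,[(0,0)]⟩⟩,[]⟩)

theorem ok77 : chk K t77 l45 = true := by decide +kernel

noncomputable def t78 : Tre :=
  (.Q [0,0,1,0,0,0,0,0,-1,0,0,-1] (.p false [0,0,0,0,1] [] (⟨0,[(19,0)]⟩,⟨0,[(18,0)]⟩) .k 0 (⟨0,[]⟩,
  ⟨0,[]⟩) .k .k) (.Q [0,-1,0,0,0,0,0,-1,1,0,0,1] (.p true [0,0,0,0,1] [] (⟨0,[(20,0)]⟩,⟨0,[(19,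
  0)]⟩) .k 0 (⟨0,[]⟩,⟨0,[]⟩) .k .k) (.Q [0,0,0,0,0,1,0,0,0,-1,1,1] (.p true [0,0,1,0,1] [1] (⟨0,
  [(21,0),(6,0)]⟩,⟨0,[(5,0)]⟩) .k 1 (⟨0,[]⟩,⟨0,[]⟩) .k (.r 0 ⟨0,[(6,0),(30,0)]⟩ ⟨4,[(8,1),(2,0),(1,
  2),(24,0),(0,2)]⟩)) (.R ⟨0,false,false,false,[1,0,-1,0,-1],[1,0,-1],[],(⟨0,[(6,0)]⟩,⟨0,[(0,0),(31,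
  0)]⟩),(⟨0,[(28,0)]⟩,⟨0,[(29,0)]⟩),⟨0,[(0,0)]⟩,.k,.k,(.r (-1) ⟨4,[(9,3),(2,1),(1,0),(24,1),(0,0)]⟩
  ⟨1,[(7,1),(18,0),(0,0)]⟩),.k,.k,.k,⟨false,1,⟨5,[(7,5),(4,1),(6,0),(0,0),(19,2)]⟩,⟨11,[(8,4),(0,5),
  (2,1),(1,0),(24,2)]⟩⟩,⟨true,0,⟨0,[(20,0)]⟩,⟨0,[(2,0)]⟩⟩,⟨true,0,⟨0,[(7,0),(30,0)]⟩,⟨11,[(8,4),(0,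
  5),(2,1),(1,0),(24,2)]⟩⟩,⟨false,0,⟨0,[(20,0)]⟩,⟨1,[(2,1),(36,0),(0,0)]⟩⟩,⟨false,0,⟨0,[]⟩,⟨0,[]⟩⟩,
  ⟨false,0,⟨0,[]⟩,⟨0,[]⟩⟩,[.o ⟨false,0,⟨0,[(11,0)]⟩,⟨1,[(24,1),(10,0),(4,0)]⟩⟩,.a ⟨true,0,⟨0,[(9,0),
  (13,0)]⟩,⟨0,[(24,0)]⟩⟩ ⟨false,1,⟨1,[(39,0),(0,0)]⟩,⟨0,[(42,0)]⟩⟩ ⟨true,0,⟨0,[(1,0)]⟩,⟨0,[(2,0),(4,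
  0),(30,0)]⟩⟩,.e ⟨false,1,⟨1,[(19,0),(0,0),(19,0)]⟩,⟨0,[]⟩⟩ ⟨false,0,⟨0,[(1,0)]⟩,⟨5,[(2,3),(2,1),
  (1,2),(4,0),(11,2),(2,0),(12,2)]⟩⟩,.o ⟨false,0,⟨0,[(2,0),(10,0)]⟩,⟨1,[(1,1),(22,1),(10,0),(3,
  0)]⟩⟩]⟩) (.I [0,-2,-1,-1,1,0,0,-1] (.R ⟨1,false,false,false,[1,0,-1,0,-1],[1,0,-1],[0,-1,0,-1,0,0,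
  0,-1],(⟨0,[(7,0)]⟩,⟨0,[(23,0),(6,0)]⟩),(⟨0,[(29,0)]⟩,⟨0,[(30,0)]⟩),⟨0,[(1,0)]⟩,.k,.k,(.r (-1) ⟨6,
  [(0,3),(12,1),(1,2),(25,0)]⟩ ⟨1,[(8,1),(18,0),(0,0)]⟩),.k,(.r (-1) ⟨5,[(13,1),(6,0),(0,0),(19,
  2)]⟩ ⟨3,[(8,1),(6,1),(11,0),(0,0)]⟩),.k,⟨false,1,⟨5,[(13,1),(6,0),(0,0),(19,2)]⟩,⟨0,[(38,0)]⟩⟩,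
  ⟨true,0,⟨0,[(21,0)]⟩,⟨0,[(3,0)]⟩⟩,⟨true,0,⟨0,[(39,0)]⟩,⟨0,[(38,0)]⟩⟩,⟨false,0,⟨0,[(21,0)]⟩,⟨1,[(3,
  1),(36,0),(0,0)]⟩⟩,⟨false,1,⟨1,[(20,0),(0,0),(19,0)]⟩,⟨0,[]⟩⟩,⟨false,0,⟨0,[(5,0)]⟩,⟨11,[(3,9),(9,
  3),(6,1),(6,0),(0,0),(12,5)]⟩⟩,[.o ⟨false,0,⟨0,[(12,0)]⟩,⟨1,[(25,1),(10,0),(4,0)]⟩⟩,.a ⟨true,0,⟨0,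
  [(10,0),(13,0)]⟩,⟨0,[(25,0)]⟩⟩ ⟨false,1,⟨0,[(0,0)]⟩,⟨0,[(8,0),(34,0)]⟩⟩ ⟨true,0,⟨0,[(2,0)]⟩,⟨0,
  [(3,0),(4,0),(30,0)]⟩⟩,.e ⟨false,1,⟨1,[(0,1),(26,0),(0,0)]⟩,⟨0,[(8,0)]⟩⟩ ⟨false,0,⟨0,[(2,0)]⟩,⟨5,
  [(3,3),(2,1),(1,2),(4,0),(11,2),(2,0),(12,2)]⟩⟩,.o ⟨false,0,⟨0,[(3,0),(10,0)]⟩,⟨1,[(2,1),(22,1),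
  (10,0),(3,0)]⟩⟩]⟩) (.Q [0,0,0,0,0,1,0,0,0,0,0,-1] (.ed true [1,-1,0,0,1] .k) (.R ⟨0,false,false,
  false,[0,0,0,0,1],[1,-1],[1,1,1],(⟨0,[(24,0)]⟩,⟨0,[(23,0)]⟩),(⟨0,[(34,0)]⟩,⟨0,[(35,0)]⟩),⟨0,[(0,
  0)]⟩,.k,.k,(.r 0 ⟨13,[(1,3),(8,2),(3,6),(12,0),(0,0),(7,0)]⟩ ⟨3,[(9,1),(6,1),(11,0),(0,0),(12,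
  3)]⟩),(.r 0 ⟨3,[(9,1),(6,1),(11,0),(0,0)]⟩ ⟨5,[(14,1),(6,0),(0,0),(19,2)]⟩),.k,.k,⟨true,(-1),⟨0,
  [(1,0),(9,0)]⟩,⟨5,[(14,1),(6,0),(0,0),(19,2)]⟩⟩,⟨false,0,⟨0,[(5,0)]⟩,⟨1,[(22,1),(14,0),(3,0)]⟩⟩,
  ⟨true,0,⟨1,[(28,0),(0,0)]⟩,⟨8,[(1,0),(8,0),(3,1),(21,0),(1,3)]⟩⟩,⟨false,1,⟨0,[(5,0),(34,0),(1,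
  0)]⟩,⟨1,[(1,0),(1,0),(18,0),(14,0),(0,0)]⟩⟩,⟨false,0,⟨0,[]⟩,⟨0,[]⟩⟩,⟨false,0,⟨0,[]⟩,⟨0,[]⟩⟩,[.o
  ⟨false,0,⟨0,[(40,0)]⟩,⟨1,[(37,0),(1,1),(2,0)]⟩⟩,.e ⟨false,0,⟨0,[]⟩,⟨1,[(21,0),(0,0),(18,0)]⟩⟩
  ⟨false,1,⟨5,[(5,4),(8,1),(6,0),(10,0),(1,0),(7,2)]⟩,⟨1,[(1,0),(1,0),(18,0),(14,0),(0,0)]⟩⟩,.a
  ⟨true,0,⟨0,[(22,0)]⟩,⟨0,[(5,0)]⟩⟩ ⟨false,0,⟨1,[(28,0),(0,0)]⟩,⟨1,[(41,0),(0,0)]⟩⟩ ⟨true,0,⟨0,[(5,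
  0),(34,0)]⟩,⟨1,[(1,0),(1,0),(18,0),(14,0),(0,0)]⟩⟩,.o ⟨false,0,⟨1,[(1,1),(1,1),(33,0),(2,1),(1,
  0)]⟩,⟨0,[(4,0),(36,0)]⟩⟩]⟩) (.S ⟨1,0,[0,0,1],[1,1,0,0,-1],[0,-1,1],(⟨0,[(23,0),(8,0)]⟩,⟨0,[(0,
  0)]⟩),⟨0,[(23,0)]⟩,(.r (-1) ⟨3,[(9,1),(6,1),(11,0),(0,0),(12,3)]⟩ ⟨13,[(1,3),(8,2),(3,6),(12,0),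
  (0,0),(7,0)]⟩),.k,⟨true,0,⟨0,[(40,0)]⟩,⟨0,[(39,0)]⟩⟩,⟨false,0,⟨0,[(40,0)]⟩,⟨0,[(39,0),(2,0)]⟩⟩,
  ⟨false,1,⟨1,[(21,0),(0,0),(19,0)]⟩,⟨0,[]⟩⟩,⟨true,0,⟨0,[(44,0)]⟩,⟨0,[]⟩⟩,[.a ⟨true,0,⟨0,[(5,0)]⟩,
  ⟨0,[(22,0)]⟩⟩ ⟨false,1,⟨1,[(21,0),(0,0),(19,0)]⟩,⟨8,[(1,0),(8,0),(3,1),(21,0),(1,3)]⟩⟩ ⟨true,0,⟨1,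
  [(28,0),(0,0)]⟩,⟨0,[]⟩⟩,.o ⟨false,1,⟨1,[(4,1),(36,0),(0,0)]⟩,⟨3,[(1,1),(1,0),(6,0),(3,0),(7,2),
  (14,1)]⟩⟩,.o ⟨false,1,⟨0,[(4,0),(36,0)]⟩,⟨1,[(1,1),(1,1),(33,0),(2,1),(1,0)]⟩⟩,.e ⟨false,1,⟨0,
  [(42,0)]⟩,⟨0,[(44,0)]⟩⟩ ⟨false,1,⟨1,[(21,0),(0,0),(19,0)]⟩,⟨0,[]⟩⟩]⟩)))) (.Q [0,0,0,0,0,0,-1,0,-1,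
  0,-1,-1] (.p false [0,0,1,0,1] [] (⟨0,[(21,0),(6,0)]⟩,⟨0,[(5,0)]⟩) .k 0 (⟨0,[]⟩,⟨0,[]⟩) .k (.r 0
  ⟨0,[(6,0),(30,0)]⟩ ⟨4,[(8,1),(2,0),(1,2),(24,0),(0,2)]⟩)) (.Q [0,1,0,1,0,0,0,0,1,-1,0,1] (.p true
  [0,0,0,0,1] [1] (⟨0,[(22,0)]⟩,⟨0,[(21,0)]⟩) .k 1 (⟨0,[]⟩,⟨0,[]⟩) .k .k) (.Q [0,-2,0,-1,1,0,0,0,-1,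
  0,0,-1] (.p false [0,0,0,0,1] [] (⟨0,[(23,0)]⟩,⟨0,[(22,0)]⟩) .k 0 (⟨0,[]⟩,⟨0,[]⟩) .k .k) (.S ⟨1,0,
  [0,-1,0,-1],[1,0,0,0,-1],[1],(⟨0,[(23,0)]⟩,⟨0,[(24,0)]⟩),⟨0,[(8,0),(11,0)]⟩,.k,(.r (-1) ⟨5,[(14,
  1),(6,0),(0,0),(19,2)]⟩ ⟨3,[(9,1),(6,1),(11,0),(0,0)]⟩),⟨false,0,⟨0,[]⟩,⟨1,[(21,0),(0,0),(19,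
  0)]⟩⟩,⟨true,0,⟨0,[(40,0)]⟩,⟨0,[(39,0)]⟩⟩,⟨true,0,⟨0,[(39,0)]⟩,⟨0,[(40,0)]⟩⟩,⟨false,1,⟨1,[(21,0),
  (0,0),(19,0)]⟩,⟨0,[]⟩⟩,[.o ⟨false,1,⟨5,[(0,2),(3,0),(9,0),(6,1),(6,0),(0,0)]⟩,⟨0,[(1,0)]⟩⟩,.o
  ⟨false,1,⟨0,[(0,0)]⟩,⟨0,[(1,0),(42,0)]⟩⟩,.a ⟨true,0,⟨0,[(5,0)]⟩,⟨0,[(22,0)]⟩⟩ ⟨true,0,⟨0,[]⟩,⟨0,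
  [(44,0)]⟩⟩ ⟨false,1,⟨0,[(0,0),(21,0)]⟩,⟨0,[(39,0)]⟩⟩,.o ⟨false,0,⟨0,[(4,0)]⟩,⟨1,[(22,1),(14,0),(3,
  0)]⟩⟩]⟩) (.Q [0,0,0,0,0,1,0,0,0,-1,1,1] (.p true [0,0,1,0,1] [1] (⟨0,[(24,0),(6,0)]⟩,⟨0,[(8,0)]⟩)
  .k 1 (⟨0,[]⟩,⟨0,[]⟩) .k (.r 0 ⟨0,[(9,0),(30,0)]⟩ ⟨4,[(11,1),(2,0),(1,2),(24,0),(0,2)]⟩)) (.I [0,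
  -3,0,0,1,0,0,-2] (.Q [0,-3,0,0,1,0,-1,-1,-2,1,-1,-2] (.p false [0,0,0,0,1] [1,0,-1,0,-1] (⟨0,[(26,
  0)]⟩,⟨0,[(25,0)]⟩) .k 2 (⟨0,[(10,0)]⟩,⟨0,[(1,0),(34,0)]⟩) .k (.r 0 ⟨9,[(2,0),(2,0),(5,1),(4,0),
  (11,6),(2,6),(6,3)]⟩ ⟨12,[(0,4),(15,0),(1,2),(25,6)]⟩)) (.Q [0,0,-1,0,1,0,1,0,1,-1,1,1] (.p true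
  [0,0,1,0,1] [1] (⟨0,[(2,0),(34,0)]⟩,⟨0,[(11,0)]⟩) .k 1 (⟨0,[]⟩,⟨0,[]⟩) .k (.r 0 ⟨0,[(12,0),(30,
  0)]⟩ ⟨12,[(1,1),(15,2),(1,8),(25,7)]⟩)) (.R ⟨0,false,false,true,[1,0,-1,0,-1],[0,0,0,0,1],[1],(⟨0,
  [(12,0)]⟩,⟨0,[(3,0),(34,0)]⟩),(⟨0,[(28,0)]⟩,⟨0,[(27,0)]⟩),⟨0,[(3,0)]⟩,.k,.k,(.r (-1) ⟨12,[(2,3),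
  (15,5),(1,4),(25,2)]⟩ ⟨1,[(13,1),(18,0),(0,0)]⟩),.k,.k,.k,⟨true,1,⟨0,[(46,0)]⟩,⟨0,[(4,0),(3,0),
  (35,0)]⟩⟩,⟨false,1,⟨0,[(0,0),(25,0)]⟩,⟨0,[(6,0),(2,0)]⟩⟩,⟨true,0,⟨0,[(13,0),(30,0)]⟩,⟨4,[(2,0),
  (11,1),(3,0),(1,0)]⟩⟩,⟨false,0,⟨1,[(4,0),(21,2),(3,1),(10,0),(2,0)]⟩,⟨0,[(1,0)]⟩⟩,⟨false,0,⟨0,[]⟩,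
  ⟨0,[]⟩⟩,⟨false,0,⟨0,[]⟩,⟨0,[]⟩⟩,[.a ⟨true,(-1),⟨0,[(4,0),(39,0)]⟩,⟨0,[(9,0),(36,0)]⟩⟩ ⟨true,0,⟨0,
  []⟩,⟨1,[(32,0),(0,0)]⟩⟩ ⟨false,0,⟨0,[(0,0),(3,0),(39,0)]⟩,⟨4,[(1,2),(5,2),(1,0),(12,0),(23,1)]⟩⟩,
  .o ⟨false,0,⟨1,[(4,0),(21,0),(14,0),(2,0)]⟩,⟨5,[(1,1),(23,1),(4,1),(10,0),(4,0)]⟩⟩,.o ⟨false,0,⟨0,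
  [(6,0)]⟩,⟨1,[(0,1),(31,0),(0,0)]⟩⟩,.o ⟨false,0,⟨1,[(6,0),(1,0),(24,0)]⟩,⟨0,[(0,0)]⟩⟩]⟩) (.K ⟨0,[1,
  0,-1,0,-1],(-1),0,(⟨0,[(12,0)]⟩,⟨0,[(3,0),(34,0)]⟩),.k,(.r (-1) ⟨12,[(2,3),(15,5),(1,4),(25,2)]⟩
  ⟨1,[(13,1),(18,0),(0,0)]⟩),(.r 0 ⟨0,[(14,0),(31,0)]⟩ ⟨1,[(13,0),(4,0),(6,0),(0,0),(3,0),(2,0)]⟩),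
  .k,.k,[⟨1,[(2,1),(1,0),(21,0),(3,3),(10,0),(2,0)]⟩,⟨0,[(0,0)]⟩,⟨1,[(4,0),(21,0),(3,1),(10,0),(2,
  0)]⟩,⟨47,[(0,6),(0,6),(0,3),(6,26),(4,5),(3,1),(10,6),(1,26)]⟩]⟩)) (.Q [0,0,0,0,0,1,0,0,0,0,0,-1]
  (.ed true [1,-1,0,0,1] .k) (.R ⟨0,false,false,false,[0,0,0,0,1],[1,0,-1,0,-1],[1,0,1],(⟨0,[(28,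
  0)]⟩,⟨0,[(27,0)]⟩),(⟨0,[(12,0)]⟩,⟨0,[(3,0),(34,0)]⟩),⟨0,[(0,0)]⟩,.k,.k,(.r 0 ⟨25,[(1,3),(5,4),(1,
  2),(4,6),(3,10),(3,0),(8,1)]⟩ ⟨3,[(13,1),(6,1),(11,0),(0,0),(12,3)]⟩),.k,.k,.k,⟨false,0,⟨3,[(1,0),
  (5,1),(14,0),(7,0),(15,0)]⟩,⟨25,[(2,9),(15,1),(1,5),(24,12),(0,0)]⟩⟩,⟨true,0,⟨0,[(6,0),(2,0)]⟩,⟨0,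
  [(1,0),(13,0),(30,0)]⟩⟩,⟨false,1,⟨1,[(32,0),(0,0),(12,1)]⟩,⟨9,[(4,0),(2,0),(6,0),(3,1),(21,0),(1,
  3)]⟩⟩,⟨true,1,⟨11,[(2,5),(3,6),(1,2),(0,10),(1,2),(10,0),(23,2)]⟩,⟨0,[(1,0)]⟩⟩,⟨false,0,⟨0,[]⟩,⟨0,
  []⟩⟩,⟨false,0,⟨0,[]⟩,⟨0,[]⟩⟩,[.e ⟨false,0,⟨0,[]⟩,⟨1,[(25,0),(0,0),(18,0)]⟩⟩ ⟨false,1,⟨8,[(2,3),(3,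
  3),(2,8),(1,4),(2,0),(3,0),(23,1)]⟩,⟨0,[(1,0),(44,0)]⟩⟩,.o ⟨false,1,⟨7,[(2,3),(3,4),(1,0),(2,1),
  (21,0),(12,1)]⟩,⟨5,[(1,3),(23,1),(4,1),(10,0),(4,0)]⟩⟩,.a ⟨true,0,⟨0,[(26,0)]⟩,⟨0,[(9,0)]⟩⟩ ⟨true,
  0,⟨1,[(32,0),(0,0)]⟩,⟨9,[(4,0),(2,0),(6,0),(3,1),(21,0),(1,3)]⟩⟩ ⟨false,1,⟨11,[(2,5),(3,6),(1,2),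
  (0,10),(1,2),(10,0),(23,2)]⟩,⟨0,[(1,0),(44,0)]⟩⟩,.o ⟨false,0,⟨0,[(1,0),(4,0),(8,0),(30,0)]⟩,⟨0,
  [(8,0),(36,0)]⟩⟩]⟩) (.S ⟨1,0,[0,0,1],[1,1,0,0,-1],[0,-1,1],(⟨0,[(27,0),(8,0)]⟩,⟨0,[(0,0)]⟩),⟨0,
  [(27,0)]⟩,(.r (-1) ⟨3,[(13,1),(6,1),(11,0),(0,0),(12,3)]⟩ ⟨25,[(1,3),(5,4),(1,2),(4,6),(3,10),(3,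
  0),(8,1)]⟩),.k,⟨true,0,⟨0,[(44,0)]⟩,⟨0,[(43,0)]⟩⟩,⟨false,0,⟨0,[(44,0)]⟩,⟨0,[(43,0),(2,0)]⟩⟩,
  ⟨false,1,⟨1,[(25,0),(0,0),(19,0)]⟩,⟨0,[]⟩⟩,⟨true,0,⟨0,[(48,0)]⟩,⟨0,[]⟩⟩,[.a ⟨true,0,⟨0,[(9,0)]⟩,
  ⟨0,[(26,0)]⟩⟩ ⟨false,1,⟨1,[(25,0),(0,0),(19,0)]⟩,⟨9,[(4,0),(2,0),(6,0),(3,1),(21,0),(1,3)]⟩⟩
  ⟨true,0,⟨1,[(32,0),(0,0)]⟩,⟨0,[]⟩⟩,.o ⟨false,1,⟨2,[(2,0),(4,1),(17,0),(20,0)]⟩,⟨2,[(1,0),(15,0),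
  (8,0),(14,0)]⟩⟩,.o ⟨false,1,⟨0,[(8,0),(36,0)]⟩,⟨0,[(1,0),(4,0),(8,0),(30,0)]⟩⟩,.e ⟨false,1,⟨0,
  [(46,0)]⟩,⟨0,[(48,0)]⟩⟩ ⟨false,1,⟨1,[(25,0),(0,0),(19,0)]⟩,⟨0,[]⟩⟩]⟩))) (.Q [0,0,-1,0,1,0,1,0,1,
  -1,1,1] (.p true [0,0,1,0,1] [1] (⟨0,[(1,0),(34,0)]⟩,⟨0,[(10,0)]⟩) .k 1 (⟨0,[]⟩,⟨0,[]⟩) .k (.r 0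
  ⟨9,[(0,1),(10,2),(4,0),(11,2),(2,2),(12,0)]⟩ ⟨4,[(13,1),(2,0),(1,2),(24,0),(0,2)]⟩)) (.R ⟨0,false,
  false,true,[1,0,-1,0,-1],[1,0,0,0,-1],[0,0,0,-1,0,0,0,-1],(⟨0,[(11,0)]⟩,⟨0,[(2,0),(34,0)]⟩),(⟨0,
  [(26,0)]⟩,⟨0,[(27,0)]⟩),⟨0,[(2,0)]⟩,.k,.k,(.r (-1) ⟨4,[(14,3),(2,1),(1,0),(24,1),(0,0)]⟩ ⟨1,[(12,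
  1),(18,0),(0,0)]⟩),.k,.k,.k,⟨true,0,⟨5,[(13,1),(0,2),(2,1),(12,0),(0,0),(11,1)]⟩,⟨0,[(1,0),(11,0),
  (31,1)]⟩⟩,⟨false,1,⟨0,[(0,0),(7,0)]⟩,⟨0,[(18,0)]⟩⟩,⟨false,0,⟨0,[(43,0)]⟩,⟨0,[(42,0),(2,0)]⟩⟩,
  ⟨true,0,⟨0,[(29,0)]⟩,⟨0,[(16,0)]⟩⟩,⟨false,0,⟨0,[]⟩,⟨0,[]⟩⟩,⟨false,0,⟨0,[]⟩,⟨0,[]⟩⟩,[.a ⟨true,0,⟨0,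
  [(8,0)]⟩,⟨0,[(25,0)]⟩⟩ ⟨true,0,⟨5,[(13,1),(0,2),(2,1),(12,0),(0,0),(11,1)]⟩,⟨0,[(1,0),(11,0),(31,
  1)]⟩⟩ ⟨false,1,⟨0,[(0,0),(7,0)]⟩,⟨0,[(18,0)]⟩⟩,.o ⟨false,1,⟨1,[(7,1),(36,0),(0,0)]⟩,⟨1,[(3,0),(21,
  0),(14,0),(2,0)]⟩⟩,.o ⟨false,0,⟨0,[(5,0)]⟩,⟨1,[(0,1),(30,0),(0,0)]⟩⟩,.o ⟨false,0,⟨1,[(5,0),(1,0),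
  (24,0)]⟩,⟨0,[(0,0)]⟩⟩]⟩) (.Q [0,0,0,0,1,0,2,0,1,-1,2,1] (.p true [0,0,1] [1,0,-1,0,-1] (⟨0,[(34,
  0)]⟩,⟨0,[(33,0)]⟩) .k 2 (⟨0,[(11,0)]⟩,⟨0,[(2,0),(34,0)]⟩) .k (.r 0 ⟨0,[(1,0),(43,0)]⟩ ⟨9,[(14,13),
  (2,1),(1,5),(24,6),(0,0)]⟩)) (.K ⟨0,[1,0,-1,0,-1],(-1),0,(⟨0,[(12,0)]⟩,⟨0,[(3,0),(34,0)]⟩),.k,(.r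
  (-1) ⟨4,[(15,3),(2,1),(1,0),(24,1),(0,0)]⟩ ⟨1,[(13,1),(18,0),(0,0)]⟩),(.r 0 ⟨0,[(14,0),(31,0)]⟩
  ⟨23,[(0,10),(1,11),(15,7),(3,10),(2,10),(20,5)]⟩),.k,.k,[⟨0,[(0,0)]⟩,⟨0,[(1,0)]⟩,⟨3,[(0,1),(1,1),
  (1,0),(21,0),(14,0),(2,0)]⟩,⟨0,[(9,0),(7,0)]⟩]⟩) (.R ⟨0,false,false,false,[1,0,-1,0,-1],[0,-1,1],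
  [0,0,-1,-1,0,0,0,1],(⟨0,[(12,0)]⟩,⟨0,[(3,0),(34,0)]⟩),(⟨0,[(24,0)]⟩,⟨0,[(34,0),(1,0)]⟩),⟨0,[(3,
  0)]⟩,.k,.k,(.r (-1) ⟨4,[(15,3),(2,1),(1,0),(24,1),(0,0)]⟩ ⟨1,[(13,1),(18,0),(0,0)]⟩),(.r 0 ⟨1,
  [(14,1),(0,1),(29,0),(0,0)]⟩ ⟨4,[(2,0),(10,3),(4,2),(11,3),(2,3),(12,2)]⟩),.k,.k,⟨false,1,⟨1,[(25,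
  0),(0,0),(18,0)]⟩,⟨0,[]⟩⟩,⟨true,1,⟨1,[(26,1),(5,3),(8,0),(3,0)]⟩,⟨0,[(0,0)]⟩⟩,⟨false,1,⟨4,[(2,3),
  (10,0),(4,1),(11,0),(2,0),(12,6)]⟩,⟨1,[(14,1),(0,1),(29,0),(0,0)]⟩⟩,⟨true,1,⟨1,[(26,1),(3,3),(10,
  0),(2,1),(1,0)]⟩,⟨0,[(0,0),(13,0),(0,0),(29,0)]⟩⟩,⟨false,0,⟨0,[]⟩,⟨0,[]⟩⟩,⟨false,0,⟨0,[]⟩,⟨0,[]⟩⟩,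
  [.o ⟨false,1,⟨1,[(30,1),(10,0),(2,1),(1,0)]⟩,⟨0,[(16,0)]⟩⟩,.a ⟨true,1,⟨0,[(30,0),(13,0),(1,0)]⟩,
  ⟨0,[(14,0),(14,0)]⟩⟩ ⟨false,2,⟨2,[(13,2),(4,1),(6,0),(0,0),(19,2)]⟩,⟨0,[(14,0)]⟩⟩ ⟨true,2,⟨5,[(18,
  1),(6,0),(0,6),(3,5),(1,5),(8,2),(4,5)]⟩,⟨0,[(0,0),(13,0)]⟩⟩,.o ⟨false,0,⟨0,[(6,0)]⟩,⟨1,[(26,1),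
  (5,1),(8,0),(3,0)]⟩⟩,.e ⟨true,1,⟨1,[(2,0),(15,0),(23,0),(3,1)]⟩,⟨1,[(14,1),(17,0),(0,0)]⟩⟩ ⟨true,
  2,⟨5,[(18,1),(6,0),(0,6),(3,5),(1,5),(8,2),(3,2),(0,2)]⟩,⟨0,[(0,0),(13,0)]⟩⟩]⟩)))) (.I [1,0,-1,-1,
  0,0,0,-1] (.Q [0,-1,0,-1,0,0,-1,-1,0,0,-1] (.p false [0,0,1] [] (⟨0,[(33,0)]⟩,⟨0,[(32,0)]⟩) .k 0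
  (⟨0,[]⟩,⟨0,[]⟩) .k .k) (.R ⟨1,false,false,true,[1,0,-1,0,-1],[1,0,0,0,-1],[1],(⟨0,[(11,0)]⟩,⟨0,
  [(27,0),(6,0)]⟩),(⟨0,[(26,0)]⟩,⟨0,[(27,0)]⟩),⟨0,[(2,0)]⟩,.k,.k,(.r (-1) ⟨6,[(1,3),(15,1),(1,2),
  (25,4)]⟩ ⟨1,[(12,1),(18,0),(0,0)]⟩),.k,.k,.k,⟨true,0,⟨0,[]⟩,⟨1,[(31,0),(0,0)]⟩⟩,⟨false,1,⟨0,[(31,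
  0),(12,0)]⟩,⟨0,[(18,0)]⟩⟩,⟨true,0,⟨0,[(12,0),(30,0)]⟩,⟨5,[(1,1),(11,0),(0,1),(4,0),(24,0)]⟩⟩,
  ⟨true,0,⟨0,[(29,0)]⟩,⟨0,[(16,0)]⟩⟩,⟨true,0,⟨0,[(12,0)]⟩,⟨3,[(0,0),(0,1),(28,0),(0,1),(11,0)]⟩⟩,
  ⟨false,1,⟨0,[(29,0),(12,0),(2,0)]⟩,⟨0,[(0,0)]⟩⟩,[.a ⟨true,0,⟨0,[(8,0)]⟩,⟨0,[(25,0)]⟩⟩ ⟨true,0,⟨0,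
  []⟩,⟨1,[(31,0),(0,0)]⟩⟩ ⟨false,1,⟨0,[(31,0),(12,0)]⟩,⟨0,[(18,0)]⟩⟩,.o ⟨false,1,⟨1,[(7,1),(36,0),
  (0,0)]⟩,⟨1,[(3,0),(21,0),(14,0),(2,0)]⟩⟩,.o ⟨false,0,⟨0,[(5,0)]⟩,⟨1,[(25,1),(5,1),(8,0),(3,0)]⟩⟩,
  .o ⟨false,0,⟨1,[(5,0),(1,0),(24,0)]⟩,⟨1,[(1,1),(7,1),(19,1),(10,0),(4,0)]⟩⟩]⟩) (.Q [0,0,0,0,0,-1,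
  0,0,0,0,0,1] (.ed false [1,-1,0,0,1] .k) (.Q [0,0,-1,0,0,0,0,0,-1,1,0,-1] (.p false [0,0,0,0,1]
  [1] (⟨0,[(28,0)]⟩,⟨0,[(27,0)]⟩) .k 1 (⟨0,[]⟩,⟨0,[]⟩) .k .k) (.S ⟨1,0,[0,-1,1],[1,1,0,0,-1],[1,0,1,
  1],(⟨0,[(28,0),(8,0)]⟩,⟨0,[(1,0)]⟩),⟨0,[(28,0)]⟩,(.r (-1) ⟨1,[(2,0),(18,0),(12,0),(12,1)]⟩ ⟨5,[(5,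
  0),(2,0),(6,0),(3,1),(21,0),(3,1)]⟩),.k,⟨false,0,⟨0,[]⟩,⟨1,[(26,0),(0,0),(19,0)]⟩⟩,⟨true,0,⟨0,
  [(45,0)]⟩,⟨0,[(44,0)]⟩⟩,⟨true,0,⟨0,[(44,0)]⟩,⟨0,[(45,0)]⟩⟩,⟨false,1,⟨1,[(26,0),(0,0),(19,0)]⟩,⟨0,
  []⟩⟩,[.o ⟨false,1,⟨5,[(0,1),(8,1),(16,1),(15,0),(4,2)]⟩,⟨1,[(5,0),(21,0),(14,0),(2,0)]⟩⟩,.e
  ⟨false,1,⟨0,[(44,0),(2,0)]⟩,⟨5,[(5,0),(2,0),(6,0),(3,1),(21,0),(3,1)]⟩⟩ ⟨false,1,⟨0,[(47,0)]⟩,⟨0,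
  [(41,0)]⟩⟩,.a ⟨true,0,⟨0,[(0,0)]⟩,⟨1,[(27,1),(5,0),(0,0)]⟩⟩ ⟨true,0,⟨1,[(2,0),(12,0),(18,0),(12,
  0)]⟩,⟨5,[(5,0),(2,0),(6,0),(3,1),(21,0),(3,1)]⟩⟩ ⟨false,1,⟨1,[(33,0),(0,0),(12,1)]⟩,⟨9,[(5,0),(2,
  0),(6,0),(3,1),(21,0),(1,3)]⟩⟩,.e ⟨false,1,⟨0,[(44,0),(2,0)]⟩,⟨0,[(45,0)]⟩⟩ ⟨false,1,⟨0,[(47,0)]⟩,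
  ⟨0,[(49,0)]⟩⟩]⟩) (.S ⟨1,0,[0,0,1],[1,1,0,0,-1],[0,-1,1],(⟨0,[(28,0),(8,0)]⟩,⟨0,[(1,0)]⟩),⟨0,[(28,
  0)]⟩,(.r (-1) ⟨1,[(2,0),(18,0),(12,0),(12,1)]⟩ ⟨5,[(5,0),(2,0),(6,0),(3,1),(21,0),(3,1)]⟩),.k,
  ⟨true,0,⟨0,[(45,0)]⟩,⟨0,[(44,0)]⟩⟩,⟨false,0,⟨0,[(45,0)]⟩,⟨0,[(44,0),(2,0)]⟩⟩,⟨false,1,⟨1,[(26,0),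
  (0,0),(19,0)]⟩,⟨0,[]⟩⟩,⟨true,0,⟨0,[(49,0)]⟩,⟨0,[]⟩⟩,[.a ⟨true,0,⟨0,[(10,0)]⟩,⟨0,[(27,0)]⟩⟩ ⟨false,
  1,⟨1,[(26,0),(0,0),(19,0)]⟩,⟨9,[(5,0),(2,0),(6,0),(3,1),(21,0),(1,3)]⟩⟩ ⟨true,0,⟨1,[(33,0),(0,
  0)]⟩,⟨0,[]⟩⟩,.o ⟨false,1,⟨1,[(9,1),(36,0),(0,0)]⟩,⟨6,[(0,3),(4,1),(0,0),(12,0),(21,0),(0,0)]⟩⟩,.o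
  ⟨false,1,⟨0,[(9,0),(36,0)]⟩,⟨0,[(0,0)]⟩⟩,.e ⟨false,1,⟨0,[(47,0)]⟩,⟨0,[(49,0)]⟩⟩ ⟨false,1,⟨1,[(26,
  0),(0,0),(19,0)]⟩,⟨0,[]⟩⟩]⟩)) (.R ⟨0,false,false,false,[0,1,0,0,-1],[0,0,0,0,1],[1,1],(⟨0,[(0,
  0)]⟩,⟨0,[(28,0),(9,0)]⟩),(⟨0,[(28,0)]⟩,⟨0,[(27,0)]⟩),⟨0,[(28,0)]⟩,(.r (-1) ⟨1,[(1,0),(18,0),(12,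
  0),(12,1)]⟩ ⟨5,[(4,0),(2,0),(6,0),(3,1),(21,0),(3,1)]⟩),.k,.k,(.r (-1) ⟨1,[(1,0),(12,0),(18,0),
  (12,2)]⟩ ⟨0,[(40,0),(3,0)]⟩),.k,.k,⟨true,0,⟨0,[]⟩,⟨1,[(32,0),(0,0)]⟩⟩,⟨false,0,⟨0,[(26,1)]⟩,⟨1,
  [(1,1),(0,1),(3,1),(1,1),(36,0),(0,0)]⟩⟩,⟨false,0,⟨5,[(4,0),(2,0),(6,0),(3,1),(21,0),(3,1)]⟩,⟨1,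
  [(1,0),(12,0),(18,0),(12,2)]⟩⟩,⟨true,(-1),⟨0,[(4,0),(21,0),(17,1)]⟩,⟨1,[(1,2),(0,1),(3,2),(1,0),
  (5,0),(31,2)]⟩⟩,⟨false,0,⟨0,[]⟩,⟨0,[]⟩⟩,⟨false,0,⟨0,[]⟩,⟨0,[]⟩⟩,[.o ⟨false,0,⟨1,[(4,0),(21,0),(14,
  0),(2,0)]⟩,⟨1,[(8,1),(36,0),(0,0)]⟩⟩,.a ⟨true,0,⟨0,[(26,0)]⟩,⟨0,[(9,0)]⟩⟩ ⟨true,0,⟨0,[]⟩,⟨1,[(32,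
  0),(0,0)]⟩⟩ ⟨false,0,⟨0,[(26,1)]⟩,⟨1,[(1,1),(0,1),(3,1),(1,1),(36,0),(0,0)]⟩⟩,.o ⟨false,1,⟨1,[(1,
  1),(0,1),(3,1),(34,0),(4,0)]⟩,⟨1,[(26,1),(5,0),(0,0)]⟩⟩,.o ⟨false,1,⟨1,[(8,1),(32,0),(3,0)]⟩,⟨0,
  [(26,0)]⟩⟩]⟩))) (.Q [0,0,-1,0,1,0,1,0,1,-1,1,1] (.p true [0,0,1,0,1] [1] (⟨0,[(26,0),(6,0)]⟩,⟨0,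
  [(10,0)]⟩) .k 1 (⟨0,[]⟩,⟨0,[]⟩) .k (.r 0 ⟨3,[(0,1),(1,0),(2,0),(10,0),(11,0),(2,0)]⟩ ⟨4,[(13,1),
  (2,0),(1,2),(24,0),(0,2)]⟩)) (.R ⟨1,false,false,true,[1,0,-1,0,-1],[1,0,-1],[0,0,0,-1,0,0,0,-1],
  (⟨0,[(11,0)]⟩,⟨0,[(27,0),(6,0)]⟩),(⟨0,[(33,0)]⟩,⟨0,[(34,0)]⟩),⟨0,[(2,0)]⟩,.k,.k,(.r (-1) ⟨4,[(14,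
  3),(2,1),(1,0),(24,1),(0,0)]⟩ ⟨4,[(1,1),(10,1),(6,0),(9,1),(2,1)]⟩),.k,(.r (-1) ⟨5,[(17,1),(6,0),
  (0,0),(19,2)]⟩ ⟨4,[(1,0),(10,0),(6,2),(9,0),(2,0)]⟩),.k,⟨false,1,⟨5,[(17,1),(6,0),(0,0),(19,2)]⟩,
  ⟨0,[(42,0)]⟩⟩,⟨true,0,⟨0,[(25,0)]⟩,⟨0,[(7,0)]⟩⟩,⟨false,0,⟨0,[(43,0)]⟩,⟨0,[(42,0),(2,0)]⟩⟩,⟨true,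
  (-1),⟨0,[(3,0),(39,0)]⟩,⟨1,[(7,1),(36,0),(0,0)]⟩⟩,⟨true,0,⟨0,[(47,0)]⟩,⟨0,[]⟩⟩,⟨true,(-1),⟨0,[(3,
  0)]⟩,⟨11,[(7,9),(9,3),(6,1),(6,0),(0,0),(12,5)]⟩⟩,[.a ⟨true,(-1),⟨0,[(13,0),(14,0),(14,0)]⟩,⟨0,
  [(29,0),(15,0)]⟩⟩ ⟨true,0,⟨5,[(13,1),(0,2),(2,1),(12,0),(0,0),(11,1)]⟩,⟨0,[(1,0)]⟩⟩ ⟨false,0,⟨2,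
  [(9,2),(3,1),(3,1),(1,0)]⟩,⟨0,[(6,0),(38,0)]⟩⟩,.o ⟨false,0,⟨0,[(16,0)]⟩,⟨1,[(29,1),(10,0),(4,
  0)]⟩⟩,.o ⟨false,0,⟨0,[(5,0)]⟩,⟨1,[(0,1),(30,0),(0,0)]⟩⟩,.o ⟨false,0,⟨1,[(5,0),(1,0),(24,0)]⟩,⟨0,
  [(0,0)]⟩⟩]⟩) (.Q [0,0,1,0,0,0,1,0,-1,0,1,-1] (.p true [0,0,1] [0,0,0,0,1] (⟨0,[(34,0)]⟩,⟨0,[(33,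
  0)]⟩) .k 2 (⟨0,[(27,0)]⟩,⟨0,[(26,0)]⟩) .k (.r (-1) ⟨5,[(1,5),(15,1),(6,0),(0,0),(19,2)]⟩ ⟨2,[(13,
  0),(3,0),(1,1)]⟩)) (.Q [0,-1,0,1,1,0,0,0,0,-1] (.pp true [-1,1]) (.R ⟨1,false,false,true,[1,0,-1],
  [1,-1],[1,1,0,0,0,0,0,-1],(⟨0,[(35,0)]⟩,⟨0,[(36,0)]⟩),(⟨0,[(39,0)]⟩,⟨0,[(40,0)]⟩),⟨0,[(24,0)]⟩,.k,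
  .k,.k,.k,.k,.k,⟨false,0,⟨1,[(15,1),(30,0),(0,0)]⟩,⟨2,[(3,2),(15,1),(6,0),(0,0)]⟩⟩,⟨true,0,⟨0,[(33,
  0)]⟩,⟨0,[(20,0)]⟩⟩,⟨false,0,⟨0,[]⟩,⟨1,[(26,0),(0,0),(19,0)]⟩⟩,⟨true,0,⟨0,[(31,0),(13,0)]⟩,⟨0,[(17,
  0)]⟩⟩,⟨true,0,⟨0,[(44,0)]⟩,⟨0,[(45,0)]⟩⟩,⟨true,0,⟨0,[(31,0)]⟩,⟨0,[(18,0)]⟩⟩,[.o ⟨false,0,⟨0,[(45,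
  0),(3,0)]⟩,⟨0,[(0,0)]⟩⟩,.o ⟨false,0,⟨0,[(45,0)]⟩,⟨1,[(0,0),(5,0),(19,0)]⟩⟩,.o ⟨false,0,⟨0,[(20,
  0)]⟩,⟨1,[(33,1),(8,0),(3,0)]⟩⟩,.a ⟨true,(-1),⟨0,[(2,0),(24,0)]⟩,⟨0,[(33,0),(12,0)]⟩⟩ ⟨true,0,⟨5,
  [(15,4),(3,1),(1,0),(24,2)]⟩,⟨0,[(3,0),(41,0)]⟩⟩ ⟨false,1,⟨5,[(19,1),(6,0),(0,0),(5,5),(12,2)]⟩,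
  ⟨0,[(0,0),(1,0),(24,0)]⟩⟩]⟩) (.Q [0,-2,0,-2,1,0,0,0,-1,0,0,-1] (.p false [0,0,0,0,1] [] (⟨0,[(29,
  0)]⟩,⟨0,[(28,0)]⟩) .k 0 (⟨0,[]⟩,⟨0,[]⟩) .k .k) (.R ⟨1,true,false,true,[1,0,-1,0,-1],[1,1,-1],[1,0,
  0,0,0,0,0,-1],(⟨0,[(14,0)]⟩,⟨0,[(30,0),(6,0)]⟩),(⟨0,[(36,0),(1,0)]⟩,⟨0,[(26,0)]⟩),⟨0,[(5,0)]⟩,.k,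
  .k,(.r (-1) ⟨4,[(17,3),(2,1),(1,0),(24,1),(0,0)]⟩ ⟨4,[(4,1),(10,1),(6,0),(9,1),(2,1)]⟩),(.r (-1)
  ⟨5,[(20,1),(6,0),(0,0),(19,2)]⟩ ⟨4,[(4,0),(10,0),(6,2),(9,0),(2,0)]⟩),(.r (-2) ⟨5,[(20,3),(6,4),
  (0,4),(19,2)]⟩ ⟨0,[(4,0),(11,0)]⟩),.k,⟨true,1,⟨5,[(20,1),(6,0),(0,0),(19,2)]⟩,⟨2,[(3,1),(0,0),(1,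
  0),(9,0),(11,0),(5,1),(8,0)]⟩⟩,⟨false,1,⟨0,[(28,0),(18,0)]⟩,⟨0,[(10,0)]⟩⟩,⟨false,0,⟨0,[]⟩,⟨1,[(27,
  0),(0,0),(19,0)]⟩⟩,⟨true,(-1),⟨0,[(6,0)]⟩,⟨1,[(0,0),(26,0)]⟩⟩,⟨true,0,⟨0,[(45,0)]⟩,⟨0,[(46,0)]⟩⟩,
  ⟨false,0,⟨0,[(12,0),(32,0)]⟩,⟨0,[(0,0)]⟩⟩,[]⟩) (.Q [0,1,0,-1,-1,0,-1,-1,0,0,-1] (.p false [0,0,1]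
  [] (⟨0,[(37,0)]⟩,⟨0,[(36,0)]⟩) .k 0 (⟨0,[]⟩,⟨0,[]⟩) .k .k) (.K ⟨0,[0,1,0,0,1],0,(-1),(⟨0,[(31,0),
  (7,0)]⟩,⟨1,[(6,0),(20,0),(2,0)]⟩),(.r 0 ⟨4,[(5,0),(10,0),(6,2),(9,0),(2,0)]⟩ ⟨5,[(21,1),(6,0),(0,
  0),(19,2)]⟩),.k,(.r 1 ⟨0,[(5,0),(11,0)]⟩ ⟨5,[(21,3),(6,4),(0,4),(19,2)]⟩),(.r 1 ⟨0,[(0,0),(0,0),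
  (1,0),(45,0)]⟩ ⟨5,[(5,5),(15,3),(6,4),(0,4),(19,2)]⟩),.k,[⟨0,[(3,0)]⟩,⟨0,[(29,0)]⟩,⟨2,[(11,0),(9,
  0),(6,1),(6,0),(0,0)]⟩,⟨0,[(7,0)]⟩]⟩) (.I [0,0,-1,0,0,-1,-1,0,1] (.K ⟨0,[0,1,0,0,1],0,(-1),(⟨0,
  [(32,0),(7,0)]⟩,⟨1,[(7,0),(20,0),(2,0)]⟩),(.r 0 ⟨4,[(6,0),(10,0),(6,2),(9,0),(2,0)]⟩ ⟨5,[(22,1),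
  (6,0),(0,0),(19,2)]⟩),.k,(.r 1 ⟨0,[(6,0),(11,0)]⟩ ⟨5,[(22,3),(6,4),(0,4),(19,2)]⟩),(.x 0 ⟨0,[(0,
  0)]⟩ ⟨1,[(4,0),(24,0),(2,1),(3,0),(1,1),(1,1),(4,0)]⟩),.k,[⟨0,[(4,0)]⟩,⟨0,[(30,0)]⟩,⟨2,[(12,0),(9,
  0),(6,1),(6,0),(0,0)]⟩,⟨0,[(8,0)]⟩]⟩) (.I [0,0,1,0,0,1,1,0,-1] (.K ⟨0,[0,1,0,0,1],0,(-1),(⟨0,[(33,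
  0),(7,0)]⟩,⟨1,[(8,0),(20,0),(2,0)]⟩),(.r 0 ⟨4,[(7,0),(10,0),(6,2),(9,0),(2,0)]⟩ ⟨5,[(23,1),(6,0),
  (0,0),(19,2)]⟩),.k,(.r 1 ⟨0,[(7,0),(11,0)]⟩ ⟨5,[(23,3),(6,4),(0,4),(19,2)]⟩),(.x (-1) ⟨2,[(15,2),
  (7,0),(0,0),(2,0),(1,2),(2,2),(13,1)]⟩ ⟨0,[(0,0)]⟩),.k,[⟨0,[(5,0)]⟩,⟨0,[(31,0)]⟩,⟨2,[(13,0),(9,0),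
  (6,1),(6,0),(0,0)]⟩,⟨0,[(9,0)]⟩]⟩) (.I [0,1,0,0,0,0,0,2] (.Q [0,0,0,0,1,0,2,0,1,-1,2,1] (.p true
  [0,0,1] [1,0,-1,0,-1] (⟨0,[(41,0)]⟩,⟨0,[(40,0)]⟩) .k 2 (⟨0,[(18,0)]⟩,⟨0,[(34,0),(6,0)]⟩) .k (.r 0
  ⟨0,[(0,0)]⟩ ⟨9,[(21,13),(2,1),(1,5),(24,6),(0,0)]⟩)) (.K ⟨0,[1,0,-1,0,-1],(-1),0,(⟨0,[(19,0)]⟩,⟨0,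
  [(35,0),(6,0)]⟩),.k,(.r (-1) ⟨4,[(22,3),(2,1),(1,0),(24,1),(0,0)]⟩ ⟨1,[(1,0),(7,0),(17,0)]⟩),(.r
  0 ⟨0,[(21,0),(31,0)]⟩ ⟨5,[(0,1),(0,2),(23,1),(3,1),(2,1),(22,2)]⟩),.k,.k,[⟨0,[(0,0)]⟩,⟨0,[(8,0)]⟩,
  ⟨1,[(0,0),(0,0),(4,0),(4,0),(36,0)]⟩,⟨0,[(16,0),(7,0)]⟩]⟩) (.Q [0,0,0,0,0,-2,0,0,0,0,1] (.p true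
  [0,0,1] [] (⟨0,[(42,0)]⟩,⟨0,[(41,0)]⟩) .k 0 (⟨0,[]⟩,⟨0,[]⟩) .k .k) (.Q [0,0,0,0,0,-1,0,0,0,0,0,1]
  (.ed false [1,-1,0,0,1] .k) (.S ⟨1,0,[0,-1,1],[1,1,0,0,-1],[0,0,1],(⟨0,[(36,0),(8,0)]⟩,⟨0,[(0,
  0)]⟩),⟨0,[(36,0)]⟩,(.r (-1) ⟨1,[(6,0),(22,0),(12,0),(12,0)]⟩ ⟨13,[(8,3),(4,0),(2,0),(6,0),(3,3),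
  (21,2),(0,1)]⟩),.k,⟨false,0,⟨0,[(53,0)]⟩,⟨4,[(6,1),(12,0),(0,0),(4,0),(3,0),(25,1)]⟩⟩,⟨true,0,⟨0,
  [(53,0)]⟩,⟨0,[(52,0)]⟩⟩,⟨true,0,⟨0,[(57,0)]⟩,⟨0,[]⟩⟩,⟨false,1,⟨1,[(34,0),(0,0),(19,0)]⟩,⟨0,[]⟩⟩,
  [.o ⟨false,1,⟨1,[(9,0),(10,0),(34,0)]⟩,⟨2,[(8,0),(4,0),(21,1),(14,1)]⟩⟩,.e ⟨false,1,⟨1,[(34,0),(0,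
  0),(19,0)]⟩,⟨8,[(7,0),(8,0),(6,0),(3,1),(21,0),(1,2)]⟩⟩ ⟨false,1,⟨0,[(55,0)]⟩,⟨0,[(49,0)]⟩⟩,.a
  ⟨true,0,⟨2,[(2,1),(3,2),(1,0),(0,0),(13,2),(3,1),(23,0),(3,0)]⟩,⟨1,[(35,1),(5,0),(0,0)]⟩⟩ ⟨true,0,
  ⟨1,[(41,0),(0,0)]⟩,⟨8,[(7,0),(8,0),(6,0),(3,1),(21,0),(1,2)]⟩⟩ ⟨false,1,⟨1,[(41,0),(0,0),(12,1)]⟩,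
  ⟨8,[(7,0),(8,0),(6,0),(3,1),(21,0),(1,2)]⟩⟩,.e ⟨false,1,⟨1,[(34,0),(0,0),(19,0)]⟩,⟨0,[]⟩⟩ ⟨false,
  1,⟨0,[(55,0)]⟩,⟨0,[(57,0)]⟩⟩]⟩) (.R ⟨0,false,false,true,[0,0,0,0,1],[0,1],[0,1,1],(⟨0,[(37,0)]⟩,
  ⟨0,[(36,0)]⟩),(⟨0,[(48,0)]⟩,⟨0,[(47,0)]⟩),⟨0,[(0,0)]⟩,.k,.k,(.r 0 ⟨13,[(8,3),(4,0),(2,0),(6,0),(3,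
  3),(21,2),(0,1)]⟩ ⟨1,[(6,0),(22,0),(12,0),(12,0)]⟩),(.r 0 ⟨13,[(8,3),(4,0),(2,0),(6,0),(3,3),(21,
  2),(0,1)]⟩ ⟨1,[(6,0),(22,0),(12,0),(12,0)]⟩),.k,.k,⟨true,0,⟨0,[(53,0)]⟩,⟨9,[(6,0),(4,4),(11,0),(0,
  1),(0,0),(3,1)]⟩⟩,⟨false,1,⟨5,[(2,1),(6,3),(17,1),(22,0),(0,5),(2,1),(0,2)]⟩,⟨1,[(35,1),(5,0),(0,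
  0)]⟩⟩,⟨true,0,⟨1,[(41,0),(0,0)]⟩,⟨8,[(7,0),(8,0),(6,0),(3,1),(21,0),(1,2)]⟩⟩,⟨false,1,⟨5,[(6,1),
  (2,2),(5,1),(4,0),(4,1),(25,1),(3,2)]⟩,⟨0,[(35,0),(17,0)]⟩⟩,⟨false,0,⟨0,[]⟩,⟨0,[]⟩⟩,⟨false,0,⟨0,
  []⟩,⟨0,[]⟩⟩,[.e ⟨false,0,⟨0,[(57,0)]⟩,⟨1,[(54,0),(0,0)]⟩⟩ ⟨false,0,⟨1,[(2,1),(3,2),(0,0),(1,0),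
  (13,2),(3,1),(22,0)]⟩,⟨5,[(27,1),(6,0),(0,6),(5,2),(0,2),(12,2)]⟩⟩,.o ⟨false,1,⟨4,[(6,1),(7,0),(5,
  0),(4,0),(3,0),(20,1)]⟩,⟨0,[(53,0)]⟩⟩,.a ⟨true,0,⟨0,[(35,0)]⟩,⟨0,[(18,0)]⟩⟩ ⟨false,0,⟨1,[(41,0),
  (0,0)]⟩,⟨1,[(54,0),(0,0)]⟩⟩ ⟨true,0,⟨0,[(17,0),(33,0)]⟩,⟨0,[(35,0),(17,0)]⟩⟩,.e ⟨true,0,⟨0,[(57,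
  0)]⟩,⟨0,[]⟩⟩ ⟨true,0,⟨1,[(2,1),(3,2),(0,0),(1,0),(13,2),(3,1),(22,0)]⟩,⟨1,[(35,1),(5,0),(0,0),(10,
  1)]⟩⟩]⟩)) (.R ⟨0,false,false,true,[0,1,0,0,-1],[1,0,0,0,-1],[1,0,1,1],(⟨0,[(0,0),(2,0),(4,0)]⟩,⟨0,
  [(36,0),(9,0)]⟩),(⟨0,[(35,0)]⟩,⟨0,[(36,0)]⟩),⟨0,[(36,0)]⟩,(.r (-1) ⟨1,[(5,0),(22,0),(12,0),(12,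
  0)]⟩ ⟨13,[(7,3),(4,0),(2,0),(6,0),(3,3),(21,2),(0,1)]⟩),.k,.k,.k,.k,.k,⟨true,0,⟨9,[(5,0),(4,4),
  (11,0),(0,1),(0,0),(3,1)]⟩,⟨0,[(52,0)]⟩⟩,⟨false,0,⟨0,[(44,0),(1,0)]⟩,⟨1,[(49,0),(3,0)]⟩⟩,⟨false,0,
  ⟨0,[]⟩,⟨1,[(33,0),(0,0),(19,0)]⟩⟩,⟨true,(-1),⟨0,[(7,0)]⟩,⟨4,[(5,1),(7,0),(5,0),(4,0),(3,0),(20,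
  1)]⟩⟩,⟨false,0,⟨0,[]⟩,⟨0,[]⟩⟩,⟨false,0,⟨0,[]⟩,⟨0,[]⟩⟩,[.a ⟨true,0,⟨0,[(17,0)]⟩,⟨0,[(34,0)]⟩⟩
  ⟨true,0,⟨9,[(5,0),(4,4),(11,0),(0,1),(0,0),(3,1)]⟩,⟨0,[(52,0)]⟩⟩ ⟨false,0,⟨0,[(44,0),(1,0)]⟩,⟨1,
  [(49,0),(3,0)]⟩⟩,.o ⟨false,1,⟨1,[(8,0),(10,0),(34,0)]⟩,⟨2,[(7,0),(4,0),(21,1),(14,1)]⟩⟩,.o ⟨false,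
  1,⟨3,[(1,1),(3,1),(2,1),(13,1),(3,1),(22,2),(0,1),(3,0)]⟩,⟨1,[(34,1),(5,0),(0,0)]⟩⟩,.o ⟨false,1,
  ⟨1,[(8,0),(10,0),(29,0)]⟩,⟨0,[(34,0)]⟩⟩]⟩))) (.K ⟨0,[1,0,-1,0,-1],(-1),0,(⟨0,[(18,0)]⟩,⟨0,[(34,0),
  (6,0)]⟩),.k,(.r (-1) ⟨12,[(0,3),(23,5),(1,4),(25,6)]⟩ ⟨4,[(8,1),(10,1),(6,0),(9,1),(2,1)]⟩),(.r 0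
  ⟨0,[(20,0),(31,0)]⟩ ⟨1,[(19,0),(4,0),(6,0),(0,0),(3,0),(2,0)]⟩),.k,.k,[⟨1,[(0,1),(31,1),(3,3),(10,
  0),(4,0)]⟩,⟨0,[(7,0)]⟩,⟨2,[(5,0),(4,0),(21,1),(3,2),(10,1)]⟩,⟨5,[(0,1),(6,0),(7,3),(1,0),(10,0),
  (8,1)]⟩]⟩))))))) (.Q [0,-1,0,1,1,0,0,0,0,-1] (.pp true [-1,1]) (.R ⟨1,false,false,true,[1,0,-1],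
  [1,-1],[1,1,0,0,0,0,0,-1],(⟨0,[(35,0)]⟩,⟨0,[(36,0)]⟩),(⟨0,[(39,0)]⟩,⟨0,[(40,0)]⟩),⟨0,[(24,0)]⟩,.k,
  .k,.k,.k,.k,.k,⟨false,0,⟨1,[(15,1),(30,0),(0,0)]⟩,⟨2,[(3,2),(15,1),(6,0),(0,0)]⟩⟩,⟨true,0,⟨0,[(33,
  0)]⟩,⟨0,[(20,0)]⟩⟩,⟨false,0,⟨0,[]⟩,⟨1,[(26,0),(0,0),(19,0)]⟩⟩,⟨true,0,⟨0,[(31,0),(13,0)]⟩,⟨0,[(17,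
  0)]⟩⟩,⟨true,0,⟨0,[(44,0)]⟩,⟨0,[(45,0)]⟩⟩,⟨true,0,⟨0,[(31,0)]⟩,⟨0,[(18,0)]⟩⟩,[.o ⟨false,0,⟨0,[(45,
  0),(3,0)]⟩,⟨0,[(0,0)]⟩⟩,.o ⟨false,0,⟨0,[(45,0)]⟩,⟨1,[(0,0),(5,0),(19,0)]⟩⟩,.o ⟨false,0,⟨0,[(20,
  0)]⟩,⟨1,[(33,1),(8,0),(3,0)]⟩⟩,.a ⟨true,(-1),⟨0,[(2,0),(24,0)]⟩,⟨0,[(33,0),(12,0)]⟩⟩ ⟨true,0,⟨5,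
  [(15,4),(3,1),(1,0),(24,2)]⟩,⟨0,[(3,0),(41,0)]⟩⟩ ⟨false,1,⟨5,[(19,1),(6,0),(0,0),(5,5),(12,2)]⟩,
  ⟨1,[(0,0),(0,0),(0,0),(0,0),(12,0)]⟩⟩]⟩) (.Q [0,-1,0,-1,0,0,-1,-1,0,0,-1] (.p false [0,0,1] []
  (⟨0,[(36,0)]⟩,⟨0,[(35,0)]⟩) .k 0 (⟨0,[]⟩,⟨0,[]⟩) .k .k) (.R ⟨2,true,false,true,[0,1],[0,1,1],[0,1,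
  1],(⟨0,[]⟩,⟨0,[]⟩),(⟨0,[(37,0),(0,0)]⟩,⟨0,[(25,0)]⟩),⟨0,[]⟩,.k,.k,.k,.k,.k,.k,⟨true,0,⟨5,[(0,2),
  (15,1),(3,1),(1,0),(11,2)]⟩,⟨0,[(4,0)]⟩⟩,⟨false,1,⟨0,[(34,0),(12,0)]⟩,⟨0,[(21,0)]⟩⟩,⟨false,0,⟨0,
  [(46,0)]⟩,⟨0,[(45,0),(2,0)]⟩⟩,⟨true,0,⟨0,[(32,0)]⟩,⟨0,[(19,0)]⟩⟩,⟨true,0,⟨0,[(50,0)]⟩,⟨0,[]⟩⟩,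
  ⟨false,1,⟨0,[(32,0),(12,0),(2,0)]⟩,⟨0,[(0,0)]⟩⟩,[]⟩) (.Q [0,0,0,0,1,0,2,0,1,-1,2,1] (.p true [0,0,
  1] [1,0,-1,0,-1] (⟨0,[(37,0)]⟩,⟨0,[(36,0)]⟩) .k 2 (⟨0,[(14,0)]⟩,⟨0,[(30,0),(6,0)]⟩) .k (.r 0 ⟨1,
  [(2,1),(0,1),(28,3),(10,0),(4,0)]⟩ ⟨9,[(17,13),(2,1),(1,5),(24,6),(0,0)]⟩)) (.K ⟨0,[1,0,-1,0,-1],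
  (-1),0,(⟨0,[(15,0)]⟩,⟨0,[(31,0),(6,0)]⟩),.k,(.r (-1) ⟨4,[(18,3),(2,1),(1,0),(24,1),(0,0)]⟩ ⟨0,[(1,
  0),(34,0)]⟩),(.r 0 ⟨0,[(17,0),(31,0)]⟩ ⟨3,[(0,0),(15,1),(4,1),(3,0),(2,0),(4,1),(2,1)]⟩),.k,.k,
  [⟨0,[(0,0)]⟩,⟨0,[(4,0)]⟩,⟨2,[(2,0),(4,0),(21,1),(3,2),(10,1)]⟩,⟨0,[(12,0),(7,0)]⟩]⟩) (.Q [0,0,0,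
  -2,-1,0,-1,-1,0,1,-1] (.p false [0,0,1] [1] (⟨0,[(38,0)]⟩,⟨0,[(37,0)]⟩) .k 1 (⟨0,[]⟩,⟨0,[]⟩) .k
  .k) (.R ⟨1,false,false,false,[1,0,-1],[0,1],[1,0,1],(⟨0,[(38,0)]⟩,⟨0,[(39,0)]⟩),(⟨0,[(43,0)]⟩,⟨0,
  [(42,0)]⟩),⟨0,[(27,0)]⟩,.k,.k,.k,.k,(.r (-1) ⟨11,[(18,0),(0,5),(2,9),(1,4),(24,2)]⟩ ⟨3,[(6,5),(11,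
  0),(5,0),(25,0)]⟩),.k,⟨true,0,⟨0,[(48,0)]⟩,⟨3,[(6,1),(11,0),(5,0),(25,0)]⟩⟩,⟨false,2,⟨1,[(36,1),
  (8,0),(3,2)]⟩,⟨0,[(5,0),(24,0)]⟩⟩,⟨true,0,⟨0,[(6,0),(41,0)]⟩,⟨5,[(18,4),(3,1),(1,0),(24,2)]⟩⟩,
  ⟨true,1,⟨1,[(2,1),(42,0),(4,0)]⟩,⟨4,[(0,1),(2,1),(14,0),(14,0),(1,1)]⟩⟩,⟨true,0,⟨0,[(6,0)]⟩,⟨2,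
  [(18,1),(3,1),(1,0)]⟩⟩,⟨false,2,⟨1,[(2,1),(42,0),(1,1),(2,2)]⟩,⟨0,[(0,0)]⟩⟩,[.o ⟨false,1,⟨1,[(45,
  0),(1,1),(2,0)]⟩,⟨0,[(48,0)]⟩⟩,.e ⟨false,1,⟨1,[(29,0),(0,0),(19,0)]⟩,⟨9,[(8,0),(2,0),(6,0),(3,1),
  (21,0),(1,3)]⟩⟩ ⟨false,2,⟨1,[(2,0),(15,0),(17,0),(8,0),(3,1),(0,1)]⟩,⟨8,[(1,1),(1,6),(0,0),(3,0),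
  (13,0),(14,3)]⟩⟩,.o ⟨false,0,⟨0,[(23,0)]⟩,⟨1,[(36,1),(8,0),(3,0)]⟩⟩,.a ⟨true,(-1),⟨0,[(5,0),(24,
  0)]⟩,⟨0,[(36,0),(12,0)]⟩⟩ ⟨true,0,⟨0,[]⟩,⟨0,[(52,0)]⟩⟩ ⟨false,2,⟨1,[(2,0),(15,0),(17,0),(8,0),(3,
  1),(0,1)]⟩,⟨0,[(0,0),(5,0)]⟩⟩]⟩) (.I [0,0,-1,0,0,-1,-1,0,1] (.I [1,-1,-1,-1,1,0,0,1] (.N [0,-1,1,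
  0,-1] (-1) ⟨0,[(0,0)]⟩ ⟨0,[(20,0)]⟩ (.x (-1) ⟨19,[(2,5),(11,14),(5,2),(0,2),(2,4),(6,4),(2,19),(3,
  13),(1,19),(1,19),(4,6)]⟩ ⟨0,[(1,0)]⟩)) (.Q [0,0,0,0,0,-1,0,0,0,0,1,-1] (.p true [0,0,1] [0,0,0,0,
  1] (⟨0,[(41,0)]⟩,⟨0,[(40,0)]⟩) .k 2 (⟨0,[(34,0)]⟩,⟨0,[(33,0)]⟩) .k (.r (-1) ⟨10,[(2,0),(5,6),(15,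
  2),(3,0),(7,2),(2,1),(12,6)]⟩ ⟨2,[(20,0),(3,0),(1,1)]⟩)) (.R ⟨1,false,false,true,[0,0,1,0,-1],[1,
  0,0,0,-1],[1,-1,0,0,0,0,0,1],(⟨0,[(0,0),(42,0)]⟩,⟨0,[(35,0),(5,0)]⟩),(⟨0,[(34,0)]⟩,⟨0,[(35,0)]⟩),
  ⟨0,[(0,0)]⟩,.k,.k,(.x (-1) ⟨19,[(3,5),(11,14),(5,2),(0,2),(2,4),(6,4),(2,19),(3,13),(1,19),(1,19),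
  (4,6)]⟩ ⟨0,[(2,0)]⟩),.k,.k,.k,⟨true,1,⟨10,[(3,0),(5,6),(15,2),(3,0),(7,2),(2,1),(12,6)]⟩,⟨2,[(6,
  1),(14,1),(0,0),(25,0)]⟩⟩,⟨false,0,⟨0,[(36,0)]⟩,⟨29,[(3,11),(17,0),(0,5),(2,9),(1,4),(11,17),(8,
  8)]⟩⟩,⟨true,0,⟨0,[]⟩,⟨0,[(55,0)]⟩⟩,⟨true,(-1),⟨0,[(6,0),(16,0)]⟩,⟨1,[(37,1),(10,0),(4,0)]⟩⟩,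
  ⟨false,1,⟨2,[(3,0),(23,0),(8,0),(16,1)]⟩,⟨0,[(51,0)]⟩⟩,⟨true,(-1),⟨0,[(21,0),(14,0)]⟩,⟨1,[(37,1),
  (10,0),(2,1),(1,0)]⟩⟩,[.a ⟨true,0,⟨0,[(16,0)]⟩,⟨0,[(33,0)]⟩⟩ ⟨true,1,⟨10,[(3,0),(5,6),(15,2),(3,
  0),(7,2),(2,1),(12,6)]⟩,⟨2,[(6,1),(14,1),(0,0),(25,0)]⟩⟩ ⟨false,0,⟨0,[(36,0)]⟩,⟨29,[(3,11),(17,0),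
  (0,5),(2,9),(1,4),(11,17),(8,8)]⟩⟩,.o ⟨false,1,⟨1,[(15,1),(36,0),(0,0)]⟩,⟨2,[(6,0),(4,0),(21,1),
  (14,1)]⟩⟩,.o ⟨false,1,⟨4,[(3,5),(4,4),(12,2),(0,2),(2,4),(13,3),(8,1)]⟩,⟨1,[(7,0),(25,0),(6,0)]⟩⟩,
  .o ⟨false,1,⟨19,[(3,5),(11,14),(5,2),(0,2),(2,4),(6,4),(6,13),(8,6)]⟩,⟨0,[(7,0)]⟩⟩]⟩) (.Q [0,0,0,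
  0,0,0,0,0,0,0,1,-1] (.ed true [1,0,-1,0,1] (.r 0 ⟨2,[(21,0),(3,0),(1,1)]⟩ ⟨10,[(3,0),(5,6),(15,2),
  (3,0),(7,2),(2,1),(12,6)]⟩)) (.R ⟨0,false,false,true,[0,0,1,0,-1],[1,0,0,0,-1],[0,-1,0,0,0,0,0,1],
  (⟨0,[(0,0)]⟩,⟨0,[(1,0),(44,0)]⟩),(⟨0,[(35,0)]⟩,⟨0,[(36,0)]⟩),⟨0,[(1,0)]⟩,.k,.k,(.x (-1) ⟨0,[(1,0),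
  (31,0),(6,0)]⟩ ⟨0,[(3,0)]⟩),.k,.k,.k,⟨true,1,⟨10,[(4,0),(5,6),(15,2),(3,0),(7,2),(2,1),(12,6)]⟩,
  ⟨2,[(7,1),(14,1),(0,0),(25,0)]⟩⟩,⟨false,0,⟨0,[(37,0)]⟩,⟨29,[(4,11),(17,0),(0,5),(2,9),(1,4),(11,
  17),(8,8)]⟩⟩,⟨false,1,⟨1,[(33,0),(0,0),(19,0)]⟩,⟨0,[]⟩⟩,⟨true,(-1),⟨0,[(7,0),(16,0)]⟩,⟨1,[(38,1),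
  (10,0),(4,0)]⟩⟩,⟨false,0,⟨0,[]⟩,⟨0,[]⟩⟩,⟨false,0,⟨0,[]⟩,⟨0,[]⟩⟩,[.a ⟨true,0,⟨0,[(17,0)]⟩,⟨0,[(34,
  0)]⟩⟩ ⟨true,1,⟨10,[(4,0),(5,6),(15,2),(3,0),(7,2),(2,1),(12,6)]⟩,⟨2,[(7,1),(14,1),(0,0),(25,0)]⟩⟩
  ⟨false,0,⟨0,[(37,0)]⟩,⟨29,[(4,11),(17,0),(0,5),(2,9),(1,4),(11,17),(8,8)]⟩⟩,.o ⟨false,1,⟨1,[(16,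
  1),(36,0),(0,0)]⟩,⟨2,[(7,0),(4,0),(21,1),(14,1)]⟩⟩,.o ⟨false,1,⟨4,[(4,5),(4,4),(12,2),(0,2),(2,4),
  (13,3),(8,1)]⟩,⟨1,[(8,0),(25,0),(6,0)]⟩⟩,.o ⟨false,1,⟨19,[(4,5),(11,14),(5,2),(0,2),(2,4),(6,4),
  (6,13),(8,6)]⟩,⟨0,[(8,0)]⟩⟩]⟩) (.S ⟨1,0,[0,-1,1],[1,1,0,0,-1],[1,0,1,1],(⟨0,[(35,0),(8,0)]⟩,⟨0,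
  [(0,0),(31,0)]⟩),⟨0,[(35,0)]⟩,(.r (-1) ⟨3,[(10,1),(17,1),(4,0),(0,0),(19,2)]⟩ ⟨13,[(7,3),(4,0),(2,
  0),(6,0),(3,3),(21,2),(0,1)]⟩),.k,⟨false,0,⟨0,[]⟩,⟨1,[(33,0),(0,0),(19,0)]⟩⟩,⟨true,0,⟨0,[(52,0)]⟩,
  ⟨0,[(51,0)]⟩⟩,⟨true,0,⟨0,[(51,0)]⟩,⟨0,[(52,0)]⟩⟩,⟨false,1,⟨1,[(33,0),(0,0),(19,0)]⟩,⟨0,[]⟩⟩,[.o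
  ⟨false,1,⟨1,[(16,1),(36,0),(0,0)]⟩,⟨2,[(7,0),(4,0),(21,1),(14,1)]⟩⟩,.e ⟨false,1,⟨2,[(4,0),(23,0),
  (8,0),(16,1)]⟩,⟨13,[(7,3),(4,0),(2,0),(6,0),(3,3),(21,2),(0,1)]⟩⟩ ⟨false,1,⟨0,[(54,0)]⟩,⟨0,[(48,
  0)]⟩⟩,.a ⟨true,0,⟨1,[(5,0),(0,2),(2,0),(12,2),(3,1),(27,2)]⟩,⟨1,[(34,1),(5,0),(0,0)]⟩⟩ ⟨true,0,⟨3,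
  [(10,1),(11,0),(5,0),(25,0)]⟩,⟨13,[(7,3),(4,0),(2,0),(6,0),(3,3),(21,2),(0,1)]⟩⟩ ⟨false,1,⟨1,[(40,
  0),(0,0),(12,1)]⟩,⟨9,[(12,0),(2,0),(6,0),(3,1),(21,0),(1,3)]⟩⟩,.e ⟨false,1,⟨2,[(4,0),(23,0),(8,0),
  (16,1)]⟩,⟨0,[(52,0)]⟩⟩ ⟨false,1,⟨0,[(54,0)]⟩,⟨0,[(56,0)]⟩⟩]⟩)))) (.Q [0,0,0,0,0,2,0,0,0,0,-1] (.p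
  false [0,0,1] [] (⟨0,[(40,0)]⟩,⟨0,[(39,0)]⟩) .k 0 (⟨0,[]⟩,⟨0,[]⟩) .k .k) (.R ⟨0,false,false,true,
  [0,-1,1],[1,-1,-1],[1,1,0,-1,0,0,0,-1],(⟨0,[(30,0)]⟩,⟨0,[(0,0),(43,0)]⟩),(⟨0,[(29,0)]⟩,⟨0,[(41,0),
  (0,0)]⟩),⟨0,[(0,0)]⟩,.k,.k,(.r (-1) ⟨0,[(8,0),(15,0)]⟩ ⟨3,[(8,1),(11,2),(5,2),(25,2)]⟩),.k,.k,.k,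
  ⟨false,0,⟨0,[]⟩,⟨1,[(31,0),(0,0),(18,0)]⟩⟩,⟨true,(-1),⟨0,[(3,0),(28,0)]⟩,⟨29,[(2,11),(17,0),(0,5),
  (2,9),(1,4),(11,47),(8,8)]⟩⟩,⟨true,(-1),⟨17,[(5,3),(14,21),(0,10),(2,5),(12,2),(0,2),(8,1)]⟩,⟨6,
  [(2,0),(0,0),(0,1),(1,0),(1,8),(10,1),(4,4),(27,1)]⟩⟩,⟨false,(-1),⟨7,[(3,2),(1,2),(0,2),(13,3),(0,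
  6),(0,4),(1,1),(10,1)]⟩,⟨1,[(36,3),(10,0),(4,2)]⟩⟩,⟨false,0,⟨0,[]⟩,⟨0,[]⟩⟩,⟨false,0,⟨0,[]⟩,⟨0,
  []⟩⟩,[.e ⟨false,0,⟨2,[(20,1),(3,1),(1,0)]⟩,⟨0,[(19,0),(32,0)]⟩⟩ ⟨false,(-1),⟨2,[(3,1),(1,0),(0,1),
  (13,2),(3,1),(23,0),(3,0)]⟩,⟨3,[(2,1),(28,1),(0,1),(3,1),(1,3),(8,0),(4,2)]⟩⟩,.o ⟨false,0,⟨0,[(23,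
  0),(26,0)]⟩,⟨3,[(2,1),(33,1),(10,0),(4,0)]⟩⟩,.a ⟨true,0,⟨0,[(38,0)]⟩,⟨0,[(35,0)]⟩⟩ ⟨false,0,⟨17,
  [(5,3),(14,3),(0,10),(2,5),(12,2),(0,2),(8,1)]⟩,⟨0,[(19,0),(32,0)]⟩⟩ ⟨true,(-1),⟨6,[(3,2),(1,3),
  (0,2),(13,1),(1,0),(0,2),(0,1),(12,0)]⟩,⟨3,[(2,1),(33,1),(1,3),(8,0),(4,0)]⟩⟩,.e ⟨true,0,⟨2,[(20,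
  1),(3,1),(1,0)]⟩,⟨0,[(8,0)]⟩⟩ ⟨true,(-1),⟨2,[(3,1),(1,0),(0,1),(13,2),(3,1),(23,0),(3,0)]⟩,⟨3,[(2,
  1),(33,1),(1,5),(0,1),(7,0),(4,0)]⟩⟩]⟩) (.S ⟨1,0,[0,-1,1],[1,1,0,0,-1],[1,0,1,1],(⟨0,[(33,0),(8,
  0)]⟩,⟨0,[(0,0),(0,0),(4,0)]⟩),⟨0,[(33,0)]⟩,(.r (-1) ⟨3,[(8,1),(17,1),(4,0),(0,0),(19,2)]⟩ ⟨13,[(5,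
  3),(4,0),(2,0),(6,0),(3,3),(21,2),(0,1)]⟩),.k,⟨false,0,⟨0,[]⟩,⟨1,[(31,0),(0,0),(19,0)]⟩⟩,⟨true,0,
  ⟨0,[(50,0)]⟩,⟨0,[(49,0)]⟩⟩,⟨true,0,⟨0,[(49,0)]⟩,⟨0,[(50,0)]⟩⟩,⟨false,1,⟨1,[(31,0),(0,0),(19,0)]⟩,
  ⟨0,[]⟩⟩,[.o ⟨false,1,⟨1,[(14,1),(36,0),(0,0)]⟩,⟨2,[(5,0),(4,0),(21,1),(14,1)]⟩⟩,.e ⟨false,1,⟨2,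
  [(2,0),(23,0),(8,0),(16,1)]⟩,⟨13,[(5,3),(4,0),(2,0),(6,0),(3,3),(21,2),(0,1)]⟩⟩ ⟨false,1,⟨0,[(52,
  0)]⟩,⟨0,[(46,0)]⟩⟩,.a ⟨true,0,⟨1,[(3,0),(0,2),(2,0),(12,2),(3,1),(27,2)]⟩,⟨1,[(32,1),(5,0),(0,
  0)]⟩⟩ ⟨true,0,⟨3,[(8,1),(11,0),(5,0),(25,0)]⟩,⟨13,[(5,3),(4,0),(2,0),(6,0),(3,3),(21,2),(0,1)]⟩⟩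
  ⟨false,1,⟨1,[(38,0),(0,0),(12,1)]⟩,⟨9,[(10,0),(2,0),(6,0),(3,1),(21,0),(1,3)]⟩⟩,.e ⟨false,1,⟨2,
  [(2,0),(23,0),(8,0),(16,1)]⟩,⟨0,[(50,0)]⟩⟩ ⟨false,1,⟨0,[(52,0)]⟩,⟨0,[(54,0)]⟩⟩]⟩)))))))))))) (.S
  ⟨1,0,[0,0,0,-1],[1,0,0,0,-1],[1,-1],(⟨0,[(22,0)]⟩,⟨0,[(23,0)]⟩),⟨0,[(7,0),(11,0)]⟩,.k,(.r (-1) ⟨5,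
  [(13,1),(6,0),(0,0),(19,2)]⟩ ⟨3,[(8,1),(6,1),(11,0),(0,0)]⟩),⟨true,0,⟨0,[]⟩,⟨0,[(43,0)]⟩⟩,⟨false,
  0,⟨0,[(39,0)]⟩,⟨0,[(38,0),(2,0)]⟩⟩,⟨false,1,⟨0,[(38,0),(2,0)]⟩,⟨0,[(39,0)]⟩⟩,⟨true,0,⟨0,[(43,0)]⟩,
  ⟨0,[]⟩⟩,[.a ⟨true,0,⟨0,[(0,0),(42,0)]⟩,⟨0,[(5,0)]⟩⟩ ⟨false,1,⟨1,[(40,0),(0,0)]⟩,⟨0,[(43,0)]⟩⟩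
  ⟨true,0,⟨0,[(39,0)]⟩,⟨3,[(8,1),(0,1),(17,0),(0,0),(12,1)]⟩⟩,.a ⟨true,0,⟨0,[(0,0)]⟩,⟨3,[(5,1),(2,
  0),(6,0),(5,1),(13,0)]⟩⟩ ⟨true,1,⟨0,[(41,0)]⟩,⟨0,[(8,0),(0,0),(29,1)]⟩⟩ ⟨false,1,⟨5,[(13,1),(6,0),
  (0,0),(19,2)]⟩,⟨0,[(38,0)]⟩⟩,.a ⟨true,0,⟨0,[(4,0)]⟩,⟨0,[(21,0)]⟩⟩ ⟨false,1,⟨0,[(41,0)]⟩,⟨0,[(43,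
  0)]⟩⟩ ⟨true,0,⟨0,[(39,0)]⟩,⟨0,[(38,0)]⟩⟩,.o ⟨false,0,⟨0,[(3,0)]⟩,⟨1,[(21,1),(14,0),(3,0)]⟩⟩]⟩))
  (.Q [0,0,-1,0,0,0,-1,0,-1,1,-1,-1] (.p false [0,0,1,0,1] [1] (⟨0,[(22,0),(6,0)]⟩,⟨0,[(6,0)]⟩) .k
  1 (⟨0,[]⟩,⟨0,[]⟩) .k (.r 0 ⟨0,[(7,0),(30,0)]⟩ ⟨4,[(9,1),(2,0),(1,2),(24,0),(0,2)]⟩)) (.S ⟨1,0,[0,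
  1,0,-1,0,0,0,1],[0,0,1,0,1],[1,2,0,0,0,0,0,1],(⟨0,[(23,0),(6,0)]⟩,⟨0,[(7,0)]⟩),⟨0,[(19,0),(3,0)]⟩,
  .k,(.r (-1) ⟨1,[(8,0),(4,0),(6,0),(0,0),(3,0),(2,0)]⟩ ⟨0,[(9,0),(31,0)]⟩),⟨false,0,⟨0,[]⟩,⟨1,[(20,
  0),(0,0),(19,0)]⟩⟩,⟨true,0,⟨0,[(39,0)]⟩,⟨0,[(38,0)]⟩⟩,⟨true,0,⟨0,[(38,0)]⟩,⟨0,[(39,0)]⟩⟩,⟨false,1,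
  ⟨1,[(20,0),(0,0),(19,0)]⟩,⟨0,[]⟩⟩,[.a ⟨true,0,⟨0,[(21,0),(3,0),(13,0)]⟩,⟨0,[(0,0),(8,0),(31,0)]⟩⟩
  ⟨false,0,⟨1,[(8,2),(0,0),(3,0),(25,0)]⟩,⟨1,[(10,1),(29,0),(0,0)]⟩⟩ ⟨true,0,⟨0,[(8,0),(30,1)]⟩,⟨0,
  [(9,0),(31,0)]⟩⟩,.o ⟨false,1,⟨1,[(21,1),(3,1),(10,0),(2,1),(1,0)]⟩,⟨1,[(0,1),(8,1),(26,0),(4,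
  0)]⟩⟩,.a ⟨true,0,⟨0,[(1,0)]⟩,⟨2,[(0,0),(2,0),(0,0),(12,0)]⟩⟩ ⟨false,0,⟨0,[(8,0),(30,0)]⟩,⟨1,[(10,
  1),(29,0),(0,0)]⟩⟩ ⟨true,0,⟨0,[(8,0),(30,1)]⟩,⟨1,[(9,1),(30,0),(0,0)]⟩⟩,.a ⟨true,0,⟨1,[(1,1),(25,
  0),(0,0)]⟩,⟨0,[(0,0)]⟩⟩ ⟨true,0,⟨1,[(8,2),(0,0),(3,0),(25,0)]⟩,⟨0,[(10,0)]⟩⟩ ⟨false,1,⟨1,[(8,0),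
  (4,0),(11,0),(2,0),(12,0)]⟩,⟨0,[(9,0),(31,0)]⟩⟩]⟩) (.Q [0,0,0,0,0,-1,0,0,0,0,0,1] (.ed false [1,
  -1,0,0,1] .k) (.S ⟨1,0,[0,0,1],[1,1,0,0,-1],[0,-1,1],(⟨0,[(23,0),(8,0)]⟩,⟨0,[(0,0)]⟩),⟨0,[(23,
  0)]⟩,(.r (-1) ⟨3,[(9,1),(6,1),(11,0),(0,0),(12,3)]⟩ ⟨1,[(9,0),(0,0),(3,0),(25,0)]⟩),.k,⟨true,0,⟨0,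
  [(40,0)]⟩,⟨0,[(39,0)]⟩⟩,⟨false,0,⟨0,[(40,0)]⟩,⟨0,[(39,0),(2,0)]⟩⟩,⟨false,1,⟨1,[(21,0),(0,0),(19,
  0)]⟩,⟨0,[]⟩⟩,⟨true,0,⟨0,[(44,0)]⟩,⟨0,[]⟩⟩,[.a ⟨true,0,⟨0,[(5,0)]⟩,⟨0,[(22,0)]⟩⟩ ⟨false,1,⟨1,[(21,
  0),(0,0),(19,0)]⟩,⟨2,[(9,0),(0,0),(3,0),(23,0)]⟩⟩ ⟨true,0,⟨1,[(28,0),(0,0)]⟩,⟨0,[]⟩⟩,.o ⟨false,1,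
  ⟨1,[(4,1),(36,0),(0,0)]⟩,⟨2,[(1,2),(7,0),(0,0),(3,0),(0,2),(22,0)]⟩⟩,.o ⟨false,1,⟨0,[(4,0),(36,
  0)]⟩,⟨0,[(1,0),(13,0)]⟩⟩,.e ⟨false,1,⟨0,[(42,0)]⟩,⟨0,[(44,0)]⟩⟩ ⟨false,1,⟨1,[(21,0),(0,0),(19,
  0)]⟩,⟨0,[]⟩⟩]⟩) (.R ⟨0,false,false,false,[0,0,0,0,1],[1,-1],[0,2],(⟨0,[(24,0)]⟩,⟨0,[(23,0)]⟩),(⟨0,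
  [(34,0)]⟩,⟨0,[(35,0)]⟩),⟨0,[(0,0)]⟩,.k,.k,(.r 0 ⟨1,[(9,0),(0,0),(3,0),(25,0)]⟩ ⟨3,[(9,1),(6,1),
  (11,0),(0,0),(12,3)]⟩),(.r 0 ⟨3,[(9,1),(6,1),(11,0),(0,0)]⟩ ⟨5,[(14,1),(6,0),(0,0),(19,2)]⟩),.k,
  .k,⟨true,(-1),⟨0,[(9,0),(0,0),(29,0)]⟩,⟨0,[(40,0),(1,0)]⟩⟩,⟨false,0,⟨0,[(5,0)]⟩,⟨1,[(22,1),(14,0),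
  (3,0)]⟩⟩,⟨true,0,⟨0,[(44,0)]⟩,⟨0,[]⟩⟩,⟨false,1,⟨0,[(5,0),(34,0),(1,0)]⟩,⟨0,[(1,0),(13,0),(22,
  0)]⟩⟩,⟨false,0,⟨0,[]⟩,⟨0,[]⟩⟩,⟨false,0,⟨0,[]⟩,⟨0,[]⟩⟩,[.o ⟨false,0,⟨0,[(40,0)]⟩,⟨1,[(37,0),(1,1),
  (2,0)]⟩⟩,.e ⟨false,0,⟨2,[(9,0),(0,0),(3,0),(23,0)]⟩,⟨1,[(21,0),(0,0),(19,0)]⟩⟩ ⟨false,1,⟨17,[(2,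
  1),(2,16),(8,5),(3,0),(2,2),(20,8)]⟩,⟨0,[(1,0),(13,0),(22,0)]⟩⟩,.a ⟨true,0,⟨0,[(22,0)]⟩,⟨0,[(5,
  0)]⟩⟩ ⟨false,0,⟨0,[(44,0)]⟩,⟨0,[(42,0)]⟩⟩ ⟨true,0,⟨0,[(5,0),(34,0)]⟩,⟨0,[(1,0),(13,0),(22,0)]⟩⟩,
  .o ⟨false,0,⟨0,[(1,0),(13,0)]⟩,⟨0,[(4,0),(36,0)]⟩⟩]⟩))))) (.S ⟨1,0,[0,0,0,-1],[1,0,0,0,-1],[1,-1],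
  (⟨0,[(19,0)]⟩,⟨0,[(20,0)]⟩),⟨0,[(4,0),(11,0)]⟩,.k,(.r (-1) ⟨5,[(10,1),(6,0),(0,0),(19,2)]⟩ ⟨3,[(5,
  1),(6,1),(11,0),(0,0)]⟩),⟨true,0,⟨0,[]⟩,⟨0,[(40,0)]⟩⟩,⟨false,0,⟨0,[(36,0)]⟩,⟨0,[(35,0),(2,0)]⟩⟩,
  ⟨false,1,⟨0,[(35,0),(2,0)]⟩,⟨0,[(36,0)]⟩⟩,⟨true,0,⟨0,[(40,0)]⟩,⟨0,[]⟩⟩,[.a ⟨true,0,⟨0,[(1,0),(34,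
  0)]⟩,⟨0,[(2,0)]⟩⟩ ⟨false,1,⟨1,[(37,0),(0,0)]⟩,⟨0,[(40,0)]⟩⟩ ⟨true,0,⟨0,[(36,0)]⟩,⟨3,[(5,1),(0,1),
  (17,0),(0,0),(12,1)]⟩⟩,.o ⟨false,1,⟨1,[(1,1),(31,0),(2,1),(1,0)]⟩,⟨1,[(0,0),(4,0),(0,0),(11,0),
  (14,0)]⟩⟩,.a ⟨true,0,⟨0,[(1,0)]⟩,⟨0,[(18,0)]⟩⟩ ⟨false,1,⟨0,[(38,0)]⟩,⟨0,[(40,0)]⟩⟩ ⟨true,0,⟨0,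
  [(36,0)]⟩,⟨0,[(35,0)]⟩⟩,.a ⟨true,0,⟨1,[(1,1),(22,0),(0,0)]⟩,⟨0,[(0,0)]⟩⟩ ⟨true,1,⟨1,[(37,0),(0,
  0)]⟩,⟨0,[(5,0),(0,0),(29,1)]⟩⟩ ⟨false,1,⟨5,[(10,1),(6,0),(0,0),(19,2)]⟩,⟨3,[(5,1),(0,1),(17,0),(0,
  0),(12,1)]⟩⟩]⟩))

theorem ok78 : chk K t78 l46 = true := by decide +kernel

noncomputable def t79 : Tre :=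
  (.Q [0,0,1,0,0,0,0,0,-1,1,0,-1] (.p false [0,0,0,0,1] [1] (⟨0,[(19,0)]⟩,⟨0,[(18,0)]⟩) .k 1 (⟨0,
  []⟩,⟨0,[]⟩) .k .k) (.Q [0,-1,0,0,1,0,0,0,-1,0,0,-1] (.p false [0,0,0,0,1] [] (⟨0,[(20,0)]⟩,⟨0,
  [(19,0)]⟩) .k 0 (⟨0,[]⟩,⟨0,[]⟩) .k .k) (.Q [0,0,-1,0,0,0,0,0,1,0,0,1] (.p true [0,0,0,0,1] [] (⟨0,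
  [(21,0)]⟩,⟨0,[(20,0)]⟩) .k 0 (⟨0,[]⟩,⟨0,[]⟩) .k .k) (.S ⟨1,0,[0,1,1],[0,1,0,0,1],[1,2,1,1],(⟨0,
  [(22,0),(7,0)]⟩,⟨0,[(6,0),(11,0)]⟩),⟨0,[(22,0)]⟩,(.r 0 ⟨3,[(7,1),(6,1),(11,0),(0,0)]⟩ ⟨5,[(12,1),
  (6,0),(0,0),(19,2)]⟩),.k,⟨false,0,⟨0,[]⟩,⟨1,[(19,0),(0,0),(19,0)]⟩⟩,⟨true,0,⟨0,[(38,0)]⟩,⟨0,[(37,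
  0)]⟩⟩,⟨true,0,⟨0,[(37,0)]⟩,⟨0,[(38,0)]⟩⟩,⟨false,1,⟨1,[(19,0),(0,0),(19,0)]⟩,⟨0,[]⟩⟩,[.o ⟨false,0,
  ⟨0,[(3,0),(38,0)]⟩,⟨0,[(1,0)]⟩⟩,.o ⟨false,0,⟨0,[(3,0)]⟩,⟨0,[(19,0)]⟩⟩,.a ⟨true,0,⟨0,[(0,0)]⟩,⟨0,
  [(2,0)]⟩⟩ ⟨true,(-1),⟨0,[(7,0),(0,0),(29,0)]⟩,⟨5,[(12,1),(6,0),(0,0),(19,2)]⟩⟩ ⟨false,0,⟨1,[(26,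
  0),(0,0)]⟩,⟨1,[(39,0),(0,0)]⟩⟩,.o ⟨false,0,⟨0,[(3,0)]⟩,⟨0,[(19,0)]⟩⟩]⟩) (.R ⟨1,false,false,true,
  [0,0,1],[1,0,0,0,-1],[0,0,0,-1,0,0,0,1],(⟨0,[(29,0)]⟩,⟨0,[(28,0)]⟩),(⟨0,[(21,0)]⟩,⟨0,[(22,0)]⟩),
  ⟨0,[(18,0)]⟩,.k,.k,.k,.k,(.r (-1) ⟨1,[(7,0),(4,0),(6,0),(0,0),(3,0),(2,0)]⟩ ⟨0,[(8,0),(31,0)]⟩),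
  .k,⟨false,1,⟨1,[(7,0),(4,0),(11,0),(2,0),(12,0)]⟩,⟨1,[(8,1),(30,0),(0,0)]⟩⟩,⟨true,0,⟨0,[(0,0),(22,
  0)]⟩,⟨0,[(3,0),(22,0)]⟩⟩,⟨true,0,⟨0,[(38,0)]⟩,⟨0,[(37,0)]⟩⟩,⟨true,0,⟨3,[(0,1),(0,0),(0,0),(5,1),
  (0,0),(0,0),(1,0),(10,2)]⟩,⟨0,[(3,0),(20,0)]⟩⟩,⟨false,1,⟨1,[(19,0),(0,0),(19,0)]⟩,⟨0,[]⟩⟩,⟨true,0,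
  ⟨0,[(1,0),(6,0),(14,0)]⟩,⟨0,[(3,0),(20,0),(13,0)]⟩⟩,[.o ⟨false,1,⟨0,[(19,0)]⟩,⟨0,[(3,0)]⟩⟩,.o
  ⟨false,1,⟨0,[(1,0)]⟩,⟨0,[(3,0),(38,0)]⟩⟩,.o ⟨false,1,⟨1,[(26,1),(8,0),(3,0)]⟩,⟨0,[(13,0)]⟩⟩,.a
  ⟨true,0,⟨0,[(26,0)]⟩,⟨0,[(23,0)]⟩⟩ ⟨true,1,⟨1,[(7,0),(4,0),(11,0),(2,0),(12,0)]⟩,⟨0,[(8,0)]⟩⟩
  ⟨false,1,⟨0,[(1,0),(21,0)]⟩,⟨0,[(3,0),(22,0)]⟩⟩]⟩)) (.Q [0,0,0,0,0,0,1,0,1,-1,1,1] (.p true [0,0,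
  1,0,1] [1] (⟨0,[(21,0),(6,0)]⟩,⟨0,[(5,0)]⟩) .k 1 (⟨0,[]⟩,⟨0,[]⟩) .k (.r 0 ⟨0,[(6,0),(30,0)]⟩ ⟨4,
  [(8,1),(2,0),(1,2),(24,0),(0,2)]⟩)) (.R ⟨1,false,false,false,[0,0,1,0,1],[0,0,0,0,1],[1,1,0,0,0,0,
  0,1],(⟨0,[(22,0),(6,0)]⟩,⟨0,[(6,0)]⟩),(⟨0,[(22,0)]⟩,⟨0,[(21,0)]⟩),⟨0,[(18,0),(3,0)]⟩,.k,.k,(.r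
  (-1) ⟨1,[(7,0),(4,0),(6,0),(0,0),(3,0),(2,0)]⟩ ⟨0,[(8,0),(31,0)]⟩),.k,.k,.k,⟨false,1,⟨5,[(7,5),(4,
  1),(6,0),(0,0),(19,2)]⟩,⟨11,[(8,4),(0,5),(2,1),(1,0),(24,2)]⟩⟩,⟨true,0,⟨0,[(13,0)]⟩,⟨0,[(26,0)]⟩⟩,
  ⟨true,0,⟨0,[]⟩,⟨0,[(42,0)]⟩⟩,⟨true,0,⟨0,[(11,0)]⟩,⟨0,[(24,0)]⟩⟩,⟨false,1,⟨0,[(37,0),(2,0)]⟩,⟨0,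
  [(38,0)]⟩⟩,⟨true,0,⟨0,[(10,0)]⟩,⟨0,[(24,0),(13,0)]⟩⟩,[.a ⟨true,(-1),⟨0,[(1,0)]⟩,⟨1,[(2,1),(36,0),
  (0,0)]⟩⟩ ⟨true,0,⟨0,[(7,0),(30,0)]⟩,⟨0,[(9,0)]⟩⟩ ⟨false,0,⟨0,[(1,0),(3,0)]⟩,⟨1,[(26,1),(12,0),(0,
  0)]⟩⟩,.o ⟨false,0,⟨0,[(3,0)]⟩,⟨0,[(19,0)]⟩⟩,.o ⟨false,0,⟨0,[(0,0)]⟩,⟨1,[(5,0),(13,0),(7,0)]⟩⟩,.o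
  ⟨false,0,⟨1,[(0,1),(25,0),(0,0)]⟩,⟨0,[(5,0)]⟩⟩]⟩) (.Q [0,-1,0,-1,1,0,0,0,-1,0,0,-1] (.p false [0,
  0,0,0,1] [] (⟨0,[(22,0)]⟩,⟨0,[(21,0)]⟩) .k 0 (⟨0,[]⟩,⟨0,[]⟩) .k .k) (.R ⟨1,true,false,false,[0,0,
  1],[0,0,1,0,1],[1,1,0,0,0,0,0,1],(⟨0,[(30,0)]⟩,⟨0,[(29,0)]⟩),(⟨0,[(23,0),(6,0)]⟩,⟨0,[(7,0)]⟩),⟨0,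
  [(19,0)]⟩,.k,.k,.k,.k,(.r (-1) ⟨5,[(13,1),(6,0),(0,0),(19,2)]⟩ ⟨3,[(8,1),(6,1),(11,0),(0,0)]⟩),.k,
  ⟨true,0,⟨0,[]⟩,⟨1,[(27,0),(0,0)]⟩⟩,⟨false,0,⟨1,[(2,1),(37,0),(0,0)]⟩,⟨0,[(20,0)]⟩⟩,⟨false,0,⟨0,
  []⟩,⟨1,[(20,0),(0,0),(19,0)]⟩⟩,⟨true,(-1),⟨0,[(2,0)]⟩,⟨0,[(20,0)]⟩⟩,⟨true,0,⟨0,[(38,0)]⟩,⟨0,[(39,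
  0)]⟩⟩,⟨false,0,⟨0,[(5,0)]⟩,⟨0,[(0,0)]⟩⟩,[]⟩) (.I [1,-1,-1,-1,1,0,0,1] (.I [0,0,1,0,1,1,1,0,-1]
  (.I [0,0,-1,0,0,-1,-1,0,1] (.N [0,-1,1,0,-1] (-1) ⟨0,[(2,0)]⟩ ⟨0,[(12,0)]⟩ (.x (-1) ⟨0,[(1,0)]⟩
  ⟨0,[(0,0)]⟩)) (.Q [0,0,2,0,0,0,1,0,0,-1,1] (.p true [0,0,1] [1] (⟨0,[(33,0)]⟩,⟨0,[(32,0)]⟩) .k 1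
  (⟨0,[]⟩,⟨0,[]⟩) .k .k) (.Q [0,0,0,0,0,2,0,0,0,0,-1] (.p false [0,0,1] [] (⟨0,[(34,0)]⟩,⟨0,[(33,
  0)]⟩) .k 0 (⟨0,[]⟩,⟨0,[]⟩) .k .k) (.R ⟨0,false,false,true,[0,-1,1],[1,-1],[0,1],(⟨0,[(24,0)]⟩,⟨0,
  [(34,0),(1,0)]⟩),(⟨0,[(38,0)]⟩,⟨0,[(39,0)]⟩),⟨0,[(0,0)]⟩,.k,.k,(.r (-1) ⟨1,[(4,0),(8,0),(4,0),(25,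
  0)]⟩ ⟨2,[(1,0),(6,0),(1,0),(2,0),(0,1),(1,0),(3,0),(25,1)]⟩),.k,.k,.k,⟨true,0,⟨6,[(1,0),(6,0),(1,
  0),(2,2),(0,2),(18,0),(12,2)]⟩,⟨0,[(44,0)]⟩⟩,⟨false,0,⟨0,[(29,0)]⟩,⟨0,[(1,0),(43,0)]⟩⟩,⟨false,0,
  ⟨1,[(14,0),(5,0),(25,0)]⟩,⟨0,[(4,0)]⟩⟩,⟨true,(-1),⟨7,[(6,2),(0,3),(0,0),(5,5),(0,1),(2,1),(3,0),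
  (6,2)]⟩,⟨1,[(30,1),(10,0),(4,0)]⟩⟩,⟨false,0,⟨0,[]⟩,⟨0,[]⟩⟩,⟨false,0,⟨0,[]⟩,⟨0,[]⟩⟩,[.e ⟨false,0,
  ⟨2,[(13,0),(0,0),(3,0),(23,0)]⟩,⟨1,[(25,0),(0,0),(19,0)]⟩⟩ ⟨false,0,⟨2,[(6,0),(0,0),(10,0),(10,1),
  (10,0)]⟩,⟨0,[(1,0),(40,0),(3,0)]⟩⟩,.o ⟨false,0,⟨0,[(44,0)]⟩,⟨1,[(41,0),(1,1),(2,0)]⟩⟩,.a ⟨true,0,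
  ⟨0,[(32,0)]⟩,⟨0,[(29,0)]⟩⟩ ⟨true,0,⟨0,[(48,0)]⟩,⟨0,[]⟩⟩ ⟨false,0,⟨0,[(29,0),(14,0)]⟩,⟨0,[(1,0),
  (40,0),(3,0)]⟩⟩,.o ⟨false,0,⟨0,[(1,0)]⟩,⟨1,[(29,1),(11,0),(3,0)]⟩⟩]⟩) (.R ⟨1,false,false,false,[0,
  -1,1],[1,-1],[1,1,-1,-1,0,0,0,1],(⟨0,[(24,0)]⟩,⟨0,[(34,0),(1,0)]⟩),(⟨0,[(38,0)]⟩,⟨0,[(39,0)]⟩),⟨0,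
  [(0,0)]⟩,.k,.k,(.r (-1) ⟨1,[(4,0),(8,0),(4,0),(25,0)]⟩ ⟨2,[(1,0),(6,0),(1,0),(2,0),(0,1),(1,0),(3,
  0),(25,1)]⟩),.k,.k,.k,⟨true,0,⟨0,[(13,0),(30,0)]⟩,⟨0,[(15,0)]⟩⟩,⟨false,0,⟨0,[(29,0)]⟩,⟨0,[(1,0),
  (43,0)]⟩⟩,⟨false,0,⟨0,[]⟩,⟨1,[(25,0),(0,0),(19,0)]⟩⟩,⟨false,0,⟨0,[(15,0),(13,0)]⟩,⟨1,[(30,1),(10,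
  0),(4,0)]⟩⟩,⟨true,0,⟨0,[(43,0)]⟩,⟨0,[(44,0)]⟩⟩,⟨false,0,⟨0,[(14,0),(14,0),(16,0)]⟩,⟨11,[(1,5),(2,
  5),(13,1),(6,0),(0,0),(3,5),(10,2)]⟩⟩,[.o ⟨false,0,⟨0,[(44,0)]⟩,⟨1,[(41,0),(1,1),(2,0)]⟩⟩,.e
  ⟨false,1,⟨2,[(4,1),(8,0),(4,0),(23,0)]⟩,⟨1,[(14,0),(5,0),(25,0)]⟩⟩ ⟨false,1,⟨23,[(3,0),(14,7),(3,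
  2),(3,0),(0,0),(1,18),(5,0),(2,0),(6,2),(0,11)]⟩,⟨0,[(1,0),(40,0)]⟩⟩,.a ⟨true,0,⟨0,[(32,0)]⟩,⟨0,
  [(29,0)]⟩⟩ ⟨false,1,⟨0,[(4,0),(43,0)]⟩,⟨0,[(14,0),(31,0)]⟩⟩ ⟨true,0,⟨0,[(29,0),(14,0)]⟩,⟨0,[(1,0),
  (40,0)]⟩⟩,.o ⟨false,0,⟨0,[(1,0)]⟩,⟨1,[(29,1),(11,0),(3,0)]⟩⟩]⟩)) (.S ⟨1,0,[0,-1,1],[1,1,0,0,-1],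
  [1,0,1,1],(⟨0,[(26,0),(8,0)]⟩,⟨1,[(0,0),(0,1),(6,1),(9,0),(3,0),(0,2)]⟩),⟨0,[(26,0)]⟩,(.r (-1) ⟨3,
  [(12,1),(6,1),(11,0),(0,0),(12,3)]⟩ ⟨7,[(5,1),(0,1),(6,1),(3,2),(11,1),(9,0),(0,0),(2,0)]⟩),.k,
  ⟨false,0,⟨0,[]⟩,⟨1,[(24,0),(0,0),(19,0)]⟩⟩,⟨true,0,⟨0,[(43,0)]⟩,⟨0,[(42,0)]⟩⟩,⟨true,0,⟨0,[(42,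
  0)]⟩,⟨0,[(43,0)]⟩⟩,⟨false,1,⟨1,[(24,0),(0,0),(19,0)]⟩,⟨0,[]⟩⟩,[.a ⟨true,1,⟨1,[(7,1),(36,0),(0,
  0)]⟩,⟨0,[(6,0)]⟩⟩ ⟨true,0,⟨3,[(12,1),(0,1),(17,0),(0,0),(12,1)]⟩,⟨0,[(43,0)]⟩⟩ ⟨false,1,⟨1,[(24,
  0),(0,0),(19,0)]⟩,⟨2,[(12,0),(0,0),(3,0),(23,0)]⟩⟩,.e ⟨false,1,⟨0,[(42,0),(2,0)]⟩,⟨7,[(5,1),(0,1),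
  (6,1),(3,2),(11,1),(9,0),(0,0),(2,0)]⟩⟩ ⟨false,1,⟨0,[(45,0)]⟩,⟨0,[(39,0)]⟩⟩,.o ⟨false,1,⟨0,[(0,0),
  (0,0),(21,0),(2,0),(13,0)]⟩,⟨1,[(8,1),(22,0),(0,0)]⟩⟩,.o ⟨false,1,⟨0,[(24,0)]⟩,⟨0,[(8,0)]⟩⟩]⟩)))
  (.Q [0,-1,0,1,1,0,0,0,0,-1] (.pp true [-1,1]) (.Q [0,0,1,0,-1,0,0,0,1,0,0,1] (.p true [0,0,0,0,1]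
  [] (⟨0,[(26,0)]⟩,⟨0,[(25,0)]⟩) .k 0 (⟨0,[]⟩,⟨0,[]⟩) .k .k) (.R ⟨1,false,false,true,[1,0,-1],[1,
  -1],[1,1,0,0,0,0,0,-1],(⟨0,[(33,0)]⟩,⟨0,[(34,0)]⟩),(⟨0,[(37,0)]⟩,⟨0,[(38,0)]⟩),⟨0,[(22,0)]⟩,.k,.k,
  .k,.k,.k,.k,⟨false,0,⟨1,[(13,1),(30,0),(0,0)]⟩,⟨0,[(3,0),(43,0)]⟩⟩,⟨true,0,⟨0,[(31,0)]⟩,⟨0,[(18,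
  0)]⟩⟩,⟨false,0,⟨0,[]⟩,⟨1,[(24,0),(0,0),(19,0)]⟩⟩,⟨true,0,⟨0,[(29,0),(13,0)]⟩,⟨0,[(15,0)]⟩⟩,⟨true,
  0,⟨0,[(42,0)]⟩,⟨0,[(43,0)]⟩⟩,⟨true,0,⟨0,[(29,0)]⟩,⟨0,[(16,0)]⟩⟩,[.o ⟨false,0,⟨0,[(43,0),(3,0)]⟩,
  ⟨0,[(1,0)]⟩⟩,.o ⟨false,0,⟨0,[(43,0)]⟩,⟨9,[(1,3),(7,1),(2,1),(6,1),(4,1),(15,2),(3,0)]⟩⟩,.o ⟨false,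
  0,⟨0,[(18,0)]⟩,⟨1,[(31,1),(8,0),(3,0)]⟩⟩,.a ⟨true,(-1),⟨0,[(0,0),(4,0)]⟩,⟨0,[(31,0),(12,0)]⟩⟩
  ⟨true,0,⟨5,[(13,4),(3,1),(1,0),(24,2)]⟩,⟨2,[(0,2),(0,0),(1,0),(1,1),(1,0),(21,1),(10,0)]⟩⟩ ⟨false,
  1,⟨5,[(17,1),(6,0),(0,0),(5,5),(12,2)]⟩,⟨0,[(0,0),(0,0),(3,0)]⟩⟩]⟩) (.R ⟨1,false,false,true,[0,-1,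
  1],[1,-1],[0,0,-1,-2,0,0,0,1],(⟨0,[(23,0)]⟩,⟨0,[(33,0),(1,0)]⟩),(⟨0,[(37,0)]⟩,⟨0,[(38,0)]⟩),⟨1,
  [(0,0),(1,1),(4,0),(14,0),(0,0),(3,1),(3,1),(8,0)]⟩,.k,.k,(.r (-1) ⟨1,[(3,0),(8,0),(4,0),(25,0)]⟩
  ⟨4,[(1,2),(5,2),(1,2),(3,2),(0,0),(4,0),(11,0),(0,0)]⟩),.k,.k,.k,⟨true,1,⟨1,[(3,1),(27,0),(0,0)]⟩,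
  ⟨0,[(13,0)]⟩⟩,⟨false,0,⟨0,[(28,0)]⟩,⟨1,[(31,1),(8,0),(3,0)]⟩⟩,⟨true,0,⟨0,[(43,0)]⟩,⟨0,[(42,0)]⟩⟩,
  ⟨true,(-1),⟨7,[(5,2),(0,3),(0,0),(5,5),(0,1),(2,1),(3,0),(6,2)]⟩,⟨1,[(29,1),(10,0),(4,0)]⟩⟩,
  ⟨false,1,⟨1,[(24,0),(0,0),(19,0)]⟩,⟨0,[]⟩⟩,⟨true,(-1),⟨0,[(13,0),(14,0)]⟩,⟨1,[(3,0),(25,0),(1,0),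
  (8,0),(2,0)]⟩⟩,[.o ⟨false,0,⟨0,[(43,0),(3,0)]⟩,⟨0,[(1,0)]⟩⟩,.o ⟨false,0,⟨0,[(43,0)]⟩,⟨9,[(1,3),(7,
  1),(2,1),(6,1),(4,1),(15,2),(3,0)]⟩⟩,.e ⟨false,1,⟨0,[(3,0),(39,0)]⟩,⟨0,[(13,0),(28,0),(2,0)]⟩⟩
  ⟨false,0,⟨0,[(28,0),(14,0)]⟩,⟨0,[(1,0),(29,0)]⟩⟩,.a ⟨true,0,⟨1,[(31,2),(0,0)]⟩,⟨0,[(0,0),(1,0),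
  (24,0),(5,0),(1,0)]⟩⟩ ⟨true,1,⟨1,[(3,0),(8,0),(4,0),(25,0)]⟩,⟨3,[(12,1),(0,5),(17,0),(0,0),(12,
  1)]⟩⟩ ⟨false,0,⟨2,[(0,0),(1,1),(2,0),(11,0),(9,1),(5,1),(1,1)]⟩,⟨1,[(1,1),(29,2),(0,0)]⟩⟩]⟩)) (.Q
  [0,0,1,0,-1,0,-1,0,0,1,-1] (.p false [0,0,1] [1] (⟨0,[(33,0)]⟩,⟨0,[(32,0)]⟩) .k 1 (⟨0,[]⟩,⟨0,[]⟩)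
  .k .k) (.Q [0,0,0,-1,-1,0,-1,-1,0,1,-1] (.p false [0,0,1] [1] (⟨0,[(34,0)]⟩,⟨0,[(33,0)]⟩) .k 1
  (⟨0,[]⟩,⟨0,[]⟩) .k .k) (.R ⟨2,true,false,false,[0,1],[1,0,-1],[1,1,1,1],(⟨0,[]⟩,⟨0,[]⟩),(⟨0,[(34,
  0)]⟩,⟨0,[(35,0)]⟩),⟨0,[]⟩,.k,.k,.k,.k,.k,.k,⟨false,0,⟨0,[(13,0)]⟩,⟨4,[(15,3),(2,1),(1,0),(24,1),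
  (0,0)]⟩⟩,⟨true,(-1),⟨0,[(1,0)]⟩,⟨1,[(32,1),(8,0),(3,0)]⟩⟩,⟨false,0,⟨0,[]⟩,⟨1,[(25,0),(0,0),(19,
  0)]⟩⟩,⟨true,(-1),⟨0,[(0,0)]⟩,⟨1,[(30,1),(10,0),(1,1),(2,0)]⟩⟩,⟨true,0,⟨0,[(43,0)]⟩,⟨0,[(44,0)]⟩⟩,
  ⟨false,0,⟨0,[(15,0),(13,0)]⟩,⟨1,[(30,1),(10,0),(4,0)]⟩⟩,[]⟩) (.Q [0,0,0,0,0,1,0,0,0,0,0,-1] (.ed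
  true [1,-1,0,0,1] .k) (.Q [0,0,1,0,-1,0,0,0,1,0,0,1] (.p true [0,0,0,0,1] [] (⟨0,[(29,0)]⟩,⟨0,
  [(28,0)]⟩) .k 0 (⟨0,[]⟩,⟨0,[]⟩) .k .k) (.R ⟨0,false,false,false,[0,1,0,0,-1],[0,1],[0,1],(⟨0,[(1,
  0)]⟩,⟨0,[(30,0),(9,0)]⟩),(⟨0,[(41,0)]⟩,⟨0,[(40,0)]⟩),⟨0,[(30,0)]⟩,(.r (-1) ⟨2,[(2,0),(7,0),(1,0),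
  (9,0),(12,0),(12,1)]⟩ ⟨8,[(4,3),(15,1),(21,1),(0,1),(0,0)]⟩),.k,.k,.k,.k,.k,⟨true,0,⟨8,[(4,3),(15,
  1),(21,1),(0,1),(0,0)]⟩,⟨0,[(2,0),(0,0),(13,0)]⟩⟩,⟨false,0,⟨2,[(7,1),(4,0),(7,0),(27,0)]⟩,⟨0,[(27,
  0)]⟩⟩,⟨false,0,⟨8,[(4,3),(15,1),(21,1),(0,1),(0,0)]⟩,⟨3,[(2,1),(0,1),(12,0),(5,0),(25,4)]⟩⟩,⟨true,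
  (-1),⟨0,[(9,0)]⟩,⟨0,[(27,0)]⟩⟩,⟨false,0,⟨0,[]⟩,⟨0,[]⟩⟩,⟨false,0,⟨0,[]⟩,⟨0,[]⟩⟩,[.o ⟨false,1,⟨9,
  [(2,3),(9,1),(0,1),(4,1),(3,1),(20,2),(4,0)]⟩,⟨0,[(46,0)]⟩⟩,.e ⟨false,1,⟨1,[(27,0),(0,0),(18,0)]⟩,
  ⟨0,[]⟩⟩ ⟨false,0,⟨0,[(7,0),(40,0)]⟩,⟨7,[(10,3),(2,0),(2,0),(3,2),(6,2),(4,0),(9,2),(0,1)]⟩⟩,.o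
  ⟨false,2,⟨1,[(27,1),(15,0),(3,0)]⟩,⟨0,[(0,0)]⟩⟩,.a ⟨true,1,⟨0,[(27,0)]⟩,⟨0,[(4,0),(2,0),(40,0)]⟩⟩
  ⟨true,0,⟨8,[(4,1),(15,0),(21,0),(0,0),(0,4)]⟩,⟨1,[(34,0),(0,0)]⟩⟩ ⟨false,0,⟨0,[(7,0),(40,0)]⟩,⟨5,
  [(10,3),(9,1),(6,1),(6,0),(0,0),(7,1)]⟩⟩]⟩) (.R ⟨0,false,false,false,[0,0,0,0,1],[0,1],[1,0,2,1],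
  (⟨0,[(30,0)]⟩,⟨0,[(29,0)]⟩),(⟨0,[(41,0)]⟩,⟨0,[(40,0)]⟩),⟨0,[(1,0)]⟩,.k,.k,(.r 0 ⟨8,[(4,3),(15,1),
  (21,1),(0,1),(0,0)]⟩ ⟨2,[(2,0),(7,0),(1,0),(9,0),(12,0),(12,1)]⟩),(.r 0 ⟨8,[(4,3),(15,1),(21,1),
  (0,1),(0,0)]⟩ ⟨2,[(2,0),(7,0),(1,0),(9,0),(12,0),(12,1)]⟩),.k,.k,⟨false,0,⟨0,[]⟩,⟨1,[(27,0),(0,0),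
  (18,0)]⟩⟩,⟨true,1,⟨0,[(0,0)]⟩,⟨0,[(3,0),(7,0),(22,0)]⟩⟩,⟨true,0,⟨0,[(2,0),(0,0),(13,0)]⟩,⟨2,[(4,
  1),(15,0),(21,0),(0,0),(0,1)]⟩⟩,⟨false,2,⟨1,[(0,0),(1,0),(7,0),(7,0),(29,1)]⟩,⟨0,[(4,0),(6,0)]⟩⟩,
  ⟨false,0,⟨0,[]⟩,⟨0,[]⟩⟩,⟨false,0,⟨0,[]⟩,⟨0,[]⟩⟩,[.o ⟨false,1,⟨9,[(2,3),(9,1),(0,1),(4,1),(3,1),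
  (20,2),(4,0)]⟩,⟨0,[(46,0)]⟩⟩,.a ⟨true,1,⟨0,[(45,0),(2,0)]⟩,⟨0,[(4,0)]⟩⟩ ⟨true,0,⟨0,[(2,0),(0,0),
  (13,0)]⟩,⟨8,[(4,3),(15,1),(21,1),(0,1),(0,0)]⟩⟩ ⟨false,2,⟨0,[(0,0),(44,0),(2,0)]⟩,⟨0,[(4,0),(6,
  0)]⟩⟩,.o ⟨false,0,⟨0,[(11,0)]⟩,⟨0,[(27,0)]⟩⟩,.o ⟨false,0,⟨1,[(11,1),(22,0),(0,0)]⟩,⟨0,[(0,
  0)]⟩⟩]⟩)) (.Q [0,-1,0,-1,0,0,-1,-1,0,0,-1] (.p false [0,0,1] [] (⟨0,[(36,0)]⟩,⟨0,[(35,0)]⟩) .k 0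
  (⟨0,[]⟩,⟨0,[]⟩) .k .k) (.R ⟨2,true,false,true,[0,1],[0,1,1],[1,1,1,1],(⟨0,[]⟩,⟨0,[]⟩),(⟨0,[(37,0),
  (0,0)]⟩,⟨0,[(25,0)]⟩),⟨0,[]⟩,.k,.k,.k,.k,.k,.k,⟨true,0,⟨11,[(16,4),(0,5),(2,1),(1,0),(24,2)]⟩,⟨2,
  [(2,0),(0,2),(2,0),(25,0),(1,0),(8,0)]⟩⟩,⟨false,1,⟨0,[(34,0),(12,0)]⟩,⟨0,[(21,0)]⟩⟩,⟨false,0,⟨0,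
  []⟩,⟨1,[(27,0),(0,0),(19,0)]⟩⟩,⟨true,0,⟨0,[(32,0)]⟩,⟨0,[(19,0)]⟩⟩,⟨true,0,⟨0,[(45,0)]⟩,⟨0,[(46,
  0)]⟩⟩,⟨false,1,⟨3,[(2,1),(7,1),(1,1),(19,1),(14,0),(0,0)]⟩,⟨0,[(0,0)]⟩⟩,[]⟩) (.Q [0,0,1,0,-1,0,0,
  0,1,0,0,1] (.p true [0,0,0,0,1] [] (⟨0,[(30,0)]⟩,⟨0,[(29,0)]⟩) .k 0 (⟨0,[]⟩,⟨0,[]⟩) .k .k) (.S ⟨1,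
  0,[0,1,0,-1],[0,0,0,0,1],[1,2],(⟨0,[(31,0)]⟩,⟨0,[(30,0)]⟩),⟨0,[(2,0)]⟩,.k,(.r 0 ⟨8,[(5,3),(15,1),
  (21,1),(0,1),(0,0)]⟩ ⟨2,[(3,0),(7,0),(1,0),(9,0),(12,0),(12,1)]⟩),⟨false,0,⟨0,[]⟩,⟨1,[(28,0),(0,
  0),(19,0)]⟩⟩,⟨true,0,⟨0,[(47,0)]⟩,⟨0,[(46,0)]⟩⟩,⟨true,0,⟨0,[(46,0)]⟩,⟨0,[(47,0)]⟩⟩,⟨false,1,⟨1,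
  [(28,0),(0,0),(19,0)]⟩,⟨0,[]⟩⟩,[.e ⟨false,0,⟨0,[(43,0)]⟩,⟨0,[(49,0)]⟩⟩ ⟨false,0,⟨8,[(5,3),(15,1),
  (21,1),(0,1),(0,0)]⟩,⟨0,[(46,0),(2,0)]⟩⟩,.o ⟨false,0,⟨11,[(0,9),(20,3),(7,1),(5,0),(0,0),(7,5)]⟩,
  ⟨2,[(3,0),(7,0),(2,0),(2,0),(10,0),(16,0),(3,0)]⟩⟩,.o ⟨false,0,⟨0,[(12,0)]⟩,⟨0,[(28,0)]⟩⟩,.a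
  ⟨true,(-1),⟨0,[(0,0)]⟩,⟨0,[(11,0),(36,0)]⟩⟩ ⟨false,0,⟨8,[(5,1),(15,0),(21,0),(0,0),(0,4)]⟩,⟨1,
  [(35,0),(0,0),(12,1)]⟩⟩ ⟨true,0,⟨8,[(5,3),(15,1),(21,1),(0,1),(0,0)]⟩,⟨3,[(3,1),(0,1),(12,0),(5,
  0),(25,0)]⟩⟩]⟩) (.S ⟨1,0,[0,-1,1],[1,1,0,0,-1],[1,0,1,1],(⟨0,[(30,0),(8,0)]⟩,⟨0,[(2,0)]⟩),⟨0,[(30,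
  0)]⟩,(.r (-1) ⟨2,[(3,0),(7,0),(1,0),(9,0),(12,0),(12,1)]⟩ ⟨8,[(5,3),(15,1),(21,1),(0,1),(0,0)]⟩),
  .k,⟨false,0,⟨0,[]⟩,⟨1,[(28,0),(0,0),(19,0)]⟩⟩,⟨true,0,⟨0,[(47,0)]⟩,⟨0,[(46,0)]⟩⟩,⟨true,0,⟨0,[(46,
  0)]⟩,⟨0,[(47,0)]⟩⟩,⟨false,1,⟨1,[(28,0),(0,0),(19,0)]⟩,⟨0,[]⟩⟩,[.a ⟨true,1,⟨1,[(11,1),(36,0),(0,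
  0)]⟩,⟨0,[(10,0)]⟩⟩ ⟨true,0,⟨3,[(3,1),(0,1),(12,0),(5,0),(25,0)]⟩,⟨0,[(47,0)]⟩⟩ ⟨false,1,⟨1,[(28,
  0),(0,0),(19,0)]⟩,⟨8,[(5,1),(15,0),(21,0),(0,0),(0,4)]⟩⟩,.e ⟨false,1,⟨0,[(46,0),(2,0)]⟩,⟨8,[(5,3),
  (15,1),(21,1),(0,1),(0,0)]⟩⟩ ⟨false,1,⟨0,[(49,0)]⟩,⟨0,[(43,0)]⟩⟩,.o ⟨false,1,⟨0,[(0,0)]⟩,⟨1,[(12,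
  1),(22,0),(0,0)]⟩⟩,.o ⟨false,1,⟨0,[(28,0)]⟩,⟨0,[(12,0)]⟩⟩]⟩))))) (.Q [0,0,0,0,0,1,0,0,0,0,0,-1]
  (.ed true [1,-1,0,0,1] .k) (.R ⟨0,false,false,false,[0,0,0,0,1],[1,0,-1],[0,1,1],(⟨0,[(28,0)]⟩,⟨0,
  [(27,0)]⟩),(⟨0,[(34,0)]⟩,⟨0,[(35,0)]⟩),⟨0,[(0,0)]⟩,.k,.k,(.r 0 ⟨8,[(2,3),(15,1),(21,1),(0,1),(0,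
  0)]⟩ ⟨3,[(13,1),(6,1),(11,0),(0,0),(12,3)]⟩),.k,.k,.k,⟨false,0,⟨4,[(2,1),(1,0),(8,2),(16,0),(2,0),
  (7,0)]⟩,⟨0,[(15,0),(29,0)]⟩⟩,⟨true,0,⟨0,[(6,0)]⟩,⟨0,[(9,0),(22,0)]⟩⟩,⟨true,0,⟨1,[(32,0),(0,0)]⟩,
  ⟨8,[(2,1),(15,0),(21,0),(0,0),(0,4)]⟩⟩,⟨false,1,⟨1,[(6,1),(8,1),(29,0),(0,0)]⟩,⟨0,[(9,0),(20,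
  0)]⟩⟩,⟨false,0,⟨0,[]⟩,⟨0,[]⟩⟩,⟨false,0,⟨0,[]⟩,⟨0,[]⟩⟩,[.o ⟨false,0,⟨0,[(17,0)]⟩,⟨1,[(30,1),(10,0),
  (4,0)]⟩⟩,.a ⟨true,0,⟨0,[(15,0),(13,0)]⟩,⟨0,[(30,0)]⟩⟩ ⟨true,0,⟨1,[(32,0),(0,0)]⟩,⟨0,[]⟩⟩ ⟨false,1,
  ⟨0,[(6,0),(8,0),(29,0)]⟩,⟨0,[(9,0),(20,0)]⟩⟩,.o ⟨false,0,⟨0,[(9,0)]⟩,⟨0,[(25,0)]⟩⟩,.o ⟨false,0,⟨1,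
  [(9,1),(22,0),(0,0)]⟩,⟨0,[(1,0),(4,0)]⟩⟩]⟩) (.S ⟨1,0,[0,2,0,-1],[0,0,0,0,1],[1,1],(⟨0,[(28,0)]⟩,
  ⟨0,[(27,0)]⟩),⟨0,[(0,0)]⟩,.k,(.r 0 ⟨8,[(2,3),(15,1),(21,1),(0,1),(0,0)]⟩ ⟨3,[(13,1),(6,1),(11,0),
  (0,0),(12,3)]⟩),⟨true,0,⟨0,[]⟩,⟨0,[(48,0)]⟩⟩,⟨false,0,⟨0,[(44,0)]⟩,⟨0,[(43,0),(2,0)]⟩⟩,⟨false,1,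
  ⟨0,[(43,0),(2,0)]⟩,⟨0,[(44,0)]⟩⟩,⟨true,0,⟨0,[(48,0)]⟩,⟨0,[]⟩⟩,[.o ⟨false,(-1),⟨0,[(2,0),(4,0),(33,
  0)]⟩,⟨1,[(1,0),(6,0),(2,0),(1,0),(0,0),(31,2)]⟩⟩,.a ⟨true,(-1),⟨0,[(2,0),(6,0)]⟩,⟨0,[(8,0),(33,0),
  (3,0)]⟩⟩ ⟨true,0,⟨0,[]⟩,⟨1,[(32,0),(0,0)]⟩⟩ ⟨false,0,⟨8,[(2,3),(15,1),(21,1),(0,1),(0,0)]⟩,⟨0,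
  [(43,0),(2,0)]⟩⟩,.o ⟨false,0,⟨0,[(9,0)]⟩,⟨0,[(25,0)]⟩⟩,.o ⟨false,0,⟨1,[(9,1),(22,0),(0,0)]⟩,⟨0,
  [(1,0),(4,0)]⟩⟩]⟩))))) (.Q [0,0,0,0,0,-1,0,0,0,0,0,1] (.ed false [1,-1,0,0,1] .k) (.Q [0,0,0,-1,1,
  0,1,1,-1,0,1,-1] (.p true [0,0,1] [0,0,0,0,1] (⟨0,[(32,0)]⟩,⟨0,[(31,0)]⟩) .k 2 (⟨0,[(25,0)]⟩,⟨0,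
  [(24,0)]⟩) .k (.r (-1) ⟨0,[(10,0),(30,0),(1,0)]⟩ ⟨2,[(11,0),(3,0),(1,1)]⟩)) (.Q [0,0,-1,0,1,0,0,0,
  -1,0,0,-1] (.p false [0,0,0,0,1] [] (⟨0,[(26,0)]⟩,⟨0,[(25,0)]⟩) .k 0 (⟨0,[]⟩,⟨0,[]⟩) .k .k) (.S
  ⟨1,0,[0,-1,1],[1,1,0,0,-1],[1,0,1,1],(⟨0,[(26,0),(8,0)]⟩,⟨0,[(2,0)]⟩),⟨0,[(26,0)]⟩,(.r (-1) ⟨3,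
  [(12,1),(6,1),(11,0),(0,0),(12,3)]⟩ ⟨7,[(1,0),(3,1),(0,2),(6,1),(3,2),(11,0),(9,0),(0,0)]⟩),.k,
  ⟨false,0,⟨0,[]⟩,⟨1,[(24,0),(0,0),(19,0)]⟩⟩,⟨true,0,⟨0,[(43,0)]⟩,⟨0,[(42,0)]⟩⟩,⟨true,0,⟨0,[(42,
  0)]⟩,⟨0,[(43,0)]⟩⟩,⟨false,1,⟨1,[(24,0),(0,0),(19,0)]⟩,⟨0,[]⟩⟩,[.a ⟨true,1,⟨1,[(7,1),(36,0),(0,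
  0)]⟩,⟨0,[(6,0)]⟩⟩ ⟨true,0,⟨3,[(12,1),(0,1),(17,0),(0,0),(12,1)]⟩,⟨0,[(43,0)]⟩⟩ ⟨false,1,⟨1,[(24,
  0),(0,0),(19,0)]⟩,⟨2,[(12,0),(0,0),(3,0),(23,0)]⟩⟩,.e ⟨false,1,⟨0,[(42,0),(2,0)]⟩,⟨7,[(1,0),(3,1),
  (0,2),(6,1),(3,2),(11,0),(9,0),(0,0)]⟩⟩ ⟨false,1,⟨0,[(45,0)]⟩,⟨0,[(39,0)]⟩⟩,.o ⟨false,1,⟨0,[(0,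
  0)]⟩,⟨1,[(8,1),(22,0),(0,0)]⟩⟩,.o ⟨false,1,⟨0,[(24,0)]⟩,⟨0,[(8,0)]⟩⟩]⟩) (.K ⟨0,[0,0,0,0,1],(-1),
  (-1),(⟨0,[(27,0)]⟩,⟨0,[(26,0)]⟩),.k,(.r 0 ⟨7,[(1,0),(3,1),(0,2),(6,1),(3,2),(11,0),(9,0),(0,0)]⟩
  ⟨3,[(12,1),(6,1),(11,0),(0,0),(12,3)]⟩),(.r 0 ⟨3,[(12,1),(6,1),(11,0),(0,0)]⟩ ⟨5,[(17,1),(6,0),(0,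
  0),(19,2)]⟩),.k,.k,[⟨1,[(1,1),(11,1),(30,0),(0,0)]⟩,⟨0,[(0,0)]⟩,⟨0,[(24,0)]⟩,⟨0,[(6,0),(40,
  0)]⟩]⟩)) (.Q [0,-1,0,-1,0,0,-1,-1,0,0,-1] (.p false [0,0,1] [] (⟨0,[(33,0)]⟩,⟨0,[(32,0)]⟩) .k 0
  (⟨0,[]⟩,⟨0,[]⟩) .k .k) (.R ⟨1,false,false,false,[0,0,1,0,1],[0,-1,0,0,1],[0,1],(⟨0,[(27,0),(6,
  0)]⟩,⟨0,[(11,0)]⟩),(⟨0,[(2,0)]⟩,⟨0,[(26,0),(8,0)]⟩),⟨0,[(23,0),(3,0)]⟩,.k,(.r 0 ⟨7,[(5,1),(0,1),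
  (6,1),(3,2),(11,1),(9,0),(0,0),(2,0)]⟩ ⟨3,[(12,1),(6,1),(11,0),(0,0),(12,3)]⟩),(.r (-1) ⟨1,[(12,
  0),(4,0),(6,0),(0,0),(3,0),(2,0)]⟩ ⟨0,[(13,0),(31,0)]⟩),.k,.k,.k,⟨true,0,⟨3,[(12,1),(0,1),(17,0),
  (0,0),(12,1)]⟩,⟨0,[(43,0)]⟩⟩,⟨false,0,⟨0,[(18,0)]⟩,⟨0,[(31,0),(12,0)]⟩⟩,⟨true,0,⟨11,[(13,4),(0,5),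
  (2,1),(1,0),(24,2)]⟩,⟨0,[(12,0),(30,0)]⟩⟩,⟨false,0,⟨0,[(0,0)]⟩,⟨0,[(29,0),(12,0),(2,0)]⟩⟩,⟨true,0,
  ⟨1,[(13,1),(30,0),(0,0)]⟩,⟨0,[(12,0),(30,1)]⟩⟩,⟨true,0,⟨0,[(16,0)]⟩,⟨0,[(29,0)]⟩⟩,[.e ⟨false,0,⟨2,
  [(12,0),(0,0),(3,0),(23,0)]⟩,⟨1,[(24,0),(0,0),(19,0)]⟩⟩ ⟨false,0,⟨5,[(5,3),(0,3),(10,1),(0,0),(13,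
  0),(6,0),(0,1)]⟩,⟨0,[(31,0),(9,0),(3,0)]⟩⟩,.o ⟨false,0,⟨0,[(8,0),(34,0)]⟩,⟨1,[(7,1),(32,0),(0,1),
  (3,0)]⟩⟩,.a ⟨true,0,⟨2,[(4,1),(4,0),(7,0),(13,2),(13,0)]⟩,⟨0,[(5,0)]⟩⟩ ⟨true,0,⟨0,[(47,0)]⟩,⟨0,
  []⟩⟩ ⟨false,0,⟨0,[(18,0),(24,0)]⟩,⟨0,[(31,0),(9,0),(3,0)]⟩⟩,.o ⟨false,0,⟨0,[(8,0),(22,0)]⟩,⟨0,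
  [(10,0)]⟩⟩]⟩) (.Q [0,0,-1,0,1,0,0,0,-1,0,0,-1] (.p false [0,0,0,0,1] [] (⟨0,[(27,0)]⟩,⟨0,[(26,
  0)]⟩) .k 0 (⟨0,[]⟩,⟨0,[]⟩) .k .k) (.S ⟨1,0,[0,-1,1],[1,1,0,0,-1],[1,0,1,1],(⟨0,[(27,0),(8,0)]⟩,⟨0,
  [(3,0)]⟩),⟨0,[(27,0)]⟩,(.r (-1) ⟨1,[(1,0),(18,0),(12,0),(12,1)]⟩ ⟨7,[(6,1),(0,1),(6,1),(3,2),(11,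
  1),(9,0),(0,0),(2,0)]⟩),.k,⟨false,0,⟨0,[]⟩,⟨1,[(25,0),(0,0),(19,0)]⟩⟩,⟨true,0,⟨0,[(44,0)]⟩,⟨0,
  [(43,0)]⟩⟩,⟨true,0,⟨0,[(43,0)]⟩,⟨0,[(44,0)]⟩⟩,⟨false,1,⟨1,[(25,0),(0,0),(19,0)]⟩,⟨0,[]⟩⟩,[.a
  ⟨true,1,⟨1,[(8,1),(36,0),(0,0)]⟩,⟨0,[(7,0)]⟩⟩ ⟨true,0,⟨1,[(1,0),(12,0),(18,0),(12,0)]⟩,⟨0,[(44,
  0)]⟩⟩ ⟨false,1,⟨1,[(25,0),(0,0),(19,0)]⟩,⟨2,[(13,0),(0,0),(3,0),(23,0)]⟩⟩,.e ⟨false,1,⟨0,[(43,0),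
  (2,0)]⟩,⟨7,[(6,1),(0,1),(6,1),(3,2),(11,1),(9,0),(0,0),(2,0)]⟩⟩ ⟨false,1,⟨0,[(46,0)]⟩,⟨0,[(40,
  0)]⟩⟩,.o ⟨false,1,⟨0,[(0,0)]⟩,⟨1,[(9,1),(22,0),(0,0)]⟩⟩,.o ⟨false,1,⟨0,[(25,0)]⟩,⟨0,[(9,0)]⟩⟩]⟩)
  (.S ⟨1,0,[0,1,0,-1],[0,0,0,0,1],[1,2],(⟨0,[(28,0)]⟩,⟨0,[(27,0)]⟩),⟨0,[(3,0)]⟩,.k,(.r 0 ⟨7,[(6,1),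
  (0,1),(6,1),(3,2),(11,1),(9,0),(0,0),(2,0)]⟩ ⟨1,[(1,0),(18,0),(12,0),(12,1)]⟩),⟨false,0,⟨0,[]⟩,⟨1,
  [(25,0),(0,0),(19,0)]⟩⟩,⟨true,0,⟨0,[(44,0)]⟩,⟨0,[(43,0)]⟩⟩,⟨true,0,⟨0,[(43,0)]⟩,⟨0,[(44,0)]⟩⟩,
  ⟨false,1,⟨1,[(25,0),(0,0),(19,0)]⟩,⟨0,[]⟩⟩,[.e ⟨false,0,⟨0,[(40,0)]⟩,⟨0,[(46,0)]⟩⟩ ⟨false,0,⟨7,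
  [(6,1),(0,1),(6,1),(3,2),(11,1),(9,0),(0,0),(2,0)]⟩,⟨0,[(43,0),(2,0)]⟩⟩,.o ⟨false,0,⟨5,[(0,3),(8,
  1),(8,1),(13,0),(0,0),(7,1)]⟩,⟨1,[(1,0),(9,0),(2,0),(10,0),(20,0)]⟩⟩,.o ⟨false,0,⟨0,[(9,0)]⟩,⟨0,
  [(25,0)]⟩⟩,.a ⟨true,(-1),⟨0,[(0,0)]⟩,⟨0,[(8,0),(36,0)]⟩⟩ ⟨false,0,⟨2,[(13,0),(0,0),(3,0),(23,0)]⟩,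
  ⟨1,[(32,0),(0,0),(12,1)]⟩⟩ ⟨true,0,⟨7,[(6,1),(0,1),(6,1),(3,2),(11,1),(9,0),(0,0),(2,0)]⟩,⟨1,[(1,
  0),(12,0),(18,0),(12,0)]⟩⟩]⟩)))) (.Q [0,0,-1,0,1,0,0,0,-1,0,0,-1] (.p false [0,0,0,0,1] [] (⟨0,
  [(25,0)]⟩,⟨0,[(24,0)]⟩) .k 0 (⟨0,[]⟩,⟨0,[]⟩) .k .k) (.R ⟨0,false,false,false,[0,0,0,0,1],[1,0,-1],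
  [0,1,1],(⟨0,[(26,0)]⟩,⟨0,[(25,0)]⟩),(⟨0,[(32,0)]⟩,⟨0,[(33,0)]⟩),⟨0,[(1,0)]⟩,.k,.k,(.r 0 ⟨7,[(4,1),
  (0,1),(6,1),(3,2),(11,1),(9,0),(0,0),(2,0)]⟩ ⟨3,[(11,1),(6,1),(11,0),(0,0),(12,3)]⟩),.k,.k,.k,
  ⟨false,0,⟨0,[(11,0),(30,0)]⟩,⟨0,[(13,0),(29,0)]⟩⟩,⟨true,0,⟨0,[(4,0)]⟩,⟨0,[(7,0),(22,0)]⟩⟩,⟨true,0,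
  ⟨1,[(30,0),(0,0)]⟩,⟨2,[(11,0),(0,0),(3,0),(23,0)]⟩⟩,⟨false,1,⟨1,[(0,0),(3,0),(8,1),(13,0),(16,
  0)]⟩,⟨0,[(7,0),(20,0)]⟩⟩,⟨false,0,⟨0,[]⟩,⟨0,[]⟩⟩,⟨false,0,⟨0,[]⟩,⟨0,[]⟩⟩,[.o ⟨false,0,⟨0,[(15,
  0)]⟩,⟨1,[(28,1),(10,0),(4,0)]⟩⟩,.a ⟨true,0,⟨0,[(13,0),(13,0)]⟩,⟨0,[(28,0)]⟩⟩ ⟨true,0,⟨1,[(30,0),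
  (0,0)]⟩,⟨0,[]⟩⟩ ⟨false,1,⟨0,[(0,0),(12,0),(13,0)]⟩,⟨0,[(7,0),(20,0)]⟩⟩,.o ⟨false,0,⟨0,[(7,0)]⟩,⟨0,
  [(23,0)]⟩⟩,.o ⟨false,0,⟨1,[(7,1),(22,0),(0,0)]⟩,⟨0,[(0,0)]⟩⟩]⟩) (.R ⟨0,false,false,true,[0,0,0,0,
  1],[0,1],[],(⟨0,[(26,0)]⟩,⟨0,[(25,0)]⟩),(⟨0,[(37,0)]⟩,⟨0,[(36,0)]⟩),⟨0,[(1,0)]⟩,.k,.k,(.r 0 ⟨7,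
  [(4,1),(0,1),(6,1),(3,2),(11,1),(9,0),(0,0),(2,0)]⟩ ⟨3,[(11,1),(6,1),(11,0),(0,0),(12,3)]⟩),(.r 0
  ⟨7,[(4,1),(0,1),(6,1),(3,2),(11,1),(9,0),(0,0),(2,0)]⟩ ⟨3,[(11,1),(6,1),(11,0),(0,0),(12,3)]⟩),.k,
  .k,⟨true,1,⟨5,[(16,1),(6,0),(0,0),(19,2)]⟩,⟨1,[(0,1),(3,1),(7,1),(15,1),(10,0),(4,0)]⟩⟩,⟨false,2,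
  ⟨0,[(23,0),(19,0)]⟩,⟨0,[(0,0)]⟩⟩,⟨false,1,⟨0,[(44,0)]⟩,⟨0,[(46,0)]⟩⟩,⟨true,1,⟨1,[(6,1),(32,0),(0,
  1),(3,0)]⟩,⟨0,[(5,0),(36,0)]⟩⟩,⟨false,0,⟨0,[]⟩,⟨0,[]⟩⟩,⟨false,0,⟨0,[]⟩,⟨0,[]⟩⟩,[.e ⟨false,1,⟨1,
  [(23,0),(0,0),(18,0)]⟩,⟨0,[]⟩⟩ ⟨false,1,⟨0,[(23,0),(16,0)]⟩,⟨11,[(0,9),(15,3),(7,1),(5,0),(0,0),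
  (12,5)]⟩⟩,.o ⟨false,1,⟨1,[(39,0),(1,1),(2,0)]⟩,⟨0,[(42,0)]⟩⟩,.o ⟨false,0,⟨0,[(7,0)]⟩,⟨0,[(23,
  0)]⟩⟩,.a ⟨true,(-1),⟨0,[(0,0)]⟩,⟨0,[(6,0),(36,0)]⟩⟩ ⟨false,1,⟨1,[(43,0),(0,0)]⟩,⟨1,[(30,0),(0,
  0)]⟩⟩ ⟨true,1,⟨0,[(23,0),(16,0)]⟩,⟨0,[(0,0),(41,0)]⟩⟩]⟩))))))) (.Q [0,1,0,1,-1,0,0,0,1,0,0,1] (.p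
  true [0,0,0,0,1] [] (⟨0,[(20,0)]⟩,⟨0,[(19,0)]⟩) .k 0 (⟨0,[]⟩,⟨0,[]⟩) .k .k) (.R ⟨1,false,false,
  true,[0,0,1,0,1],[0,-1,1],[1,1,0,0,0,0,0,1],(⟨0,[(21,0),(6,0)]⟩,⟨0,[(5,0)]⟩),(⟨0,[(17,0)]⟩,⟨0,
  [(27,0),(1,0)]⟩),⟨0,[(17,0),(3,0)]⟩,.k,.k,(.r (-1) ⟨1,[(6,0),(4,0),(6,0),(0,0),(3,0),(2,0)]⟩ ⟨0,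
  [(7,0),(31,0)]⟩),(.r 0 ⟨3,[(6,1),(6,1),(11,0),(0,0)]⟩ ⟨5,[(11,1),(6,0),(0,0),(19,2)]⟩),.k,.k,
  ⟨true,0,⟨3,[(6,1),(0,1),(17,0),(0,0),(12,1)]⟩,⟨0,[(37,0)]⟩⟩,⟨false,1,⟨0,[(18,0)]⟩,⟨2,[(0,1),(2,0),
  (7,0),(27,0)]⟩⟩,⟨true,0,⟨0,[]⟩,⟨0,[(41,0)]⟩⟩,⟨true,1,⟨0,[(18,0),(18,0)]⟩,⟨0,[(0,0)]⟩⟩,⟨false,1,⟨0,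
  [(36,0),(2,0)]⟩,⟨0,[(37,0)]⟩⟩,⟨true,1,⟨0,[(18,0)]⟩,⟨0,[(0,0),(36,0)]⟩⟩,[.a ⟨true,0,⟨0,[(23,0),(13,
  0)]⟩,⟨0,[(7,0),(14,0),(16,0)]⟩⟩ ⟨true,0,⟨0,[(6,0),(30,0)]⟩,⟨0,[(8,0)]⟩⟩ ⟨false,1,⟨0,[(4,0),(18,0),
  (13,0)]⟩,⟨1,[(0,1),(7,1),(29,0),(0,0)]⟩⟩,.o ⟨false,1,⟨1,[(23,1),(10,0),(2,1),(1,0)]⟩,⟨0,[(9,0)]⟩⟩,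
  .o ⟨false,0,⟨0,[(1,0),(23,0)]⟩,⟨1,[(4,0),(13,0),(7,0)]⟩⟩,.o ⟨false,0,⟨0,[(2,0),(22,0)]⟩,⟨0,[(4,
  0)]⟩⟩]⟩) (.Q [0,0,0,1,0,0,-1,-1,-1,1,-1,-1] (.p false [0,0,1,0,1] [1] (⟨0,[(21,0),(6,0)]⟩,⟨0,[(5,
  0)]⟩) .k 1 (⟨0,[]⟩,⟨0,[]⟩) .k (.r 0 ⟨0,[(6,0),(30,0)]⟩ ⟨4,[(8,1),(2,0),(1,2),(24,0),(0,2)]⟩)) (.R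
  ⟨1,false,false,false,[1,0,0,0,-1],[0,-1,1],[0,-1,0,-1],(⟨0,[(21,0)]⟩,⟨0,[(22,0)]⟩),(⟨0,[(18,0)]⟩,
  ⟨0,[(28,0),(1,0)]⟩),⟨0,[(6,0),(11,0)]⟩,.k,.k,(.r (-1) ⟨5,[(12,1),(6,0),(0,0),(19,2)]⟩ ⟨3,[(7,1),
  (6,1),(11,0),(0,0)]⟩),(.r 0 ⟨0,[(8,0),(31,0)]⟩ ⟨1,[(7,0),(4,0),(6,0),(0,0),(3,0),(2,0)]⟩),.k,.k,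
  ⟨true,0,⟨0,[(9,0)]⟩,⟨0,[(7,0),(30,0)]⟩⟩,⟨false,0,⟨0,[(2,0),(23,0)]⟩,⟨0,[(19,0),(3,0)]⟩⟩,⟨true,0,
  ⟨0,[(38,0)]⟩,⟨0,[(37,0)]⟩⟩,⟨true,0,⟨0,[(3,0),(20,0),(13,0)]⟩,⟨0,[(0,0)]⟩⟩,⟨false,1,⟨1,[(19,0),(0,
  0),(19,0)]⟩,⟨0,[]⟩⟩,⟨true,0,⟨0,[(3,0),(20,0)]⟩,⟨0,[(0,0),(37,0)]⟩⟩,[.o ⟨false,1,⟨1,[(24,1),(10,0),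
  (2,1),(1,0)]⟩,⟨0,[(10,0)]⟩⟩,.a ⟨true,1,⟨0,[(24,0),(13,0),(1,0)]⟩,⟨0,[(8,0),(14,0)]⟩⟩ ⟨true,1,⟨0,
  [(38,0),(1,0)]⟩,⟨0,[(7,0),(0,0),(29,0)]⟩⟩ ⟨false,1,⟨0,[(2,0),(21,0),(13,0),(1,0)]⟩,⟨0,[(0,0),(41,
  0)]⟩⟩,.o ⟨false,1,⟨0,[(19,0)]⟩,⟨0,[(3,0)]⟩⟩,.o ⟨false,1,⟨1,[(19,1),(6,0),(0,0)]⟩,⟨0,[(2,0)]⟩⟩]⟩)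
  (.R ⟨1,true,false,false,[0,0,1],[0,0,1,0,1],[0,1,0,-1,0,0,0,1],(⟨0,[(29,0)]⟩,⟨0,[(28,0)]⟩),(⟨0,
  [(22,0),(6,0)]⟩,⟨0,[(6,0)]⟩),⟨0,[(18,0)]⟩,.k,.k,.k,.k,(.r (-1) ⟨5,[(12,1),(6,0),(0,0),(19,2)]⟩ ⟨3,
  [(7,1),(6,1),(11,0),(0,0)]⟩),.k,⟨true,0,⟨0,[(38,0)]⟩,⟨3,[(7,1),(0,1),(17,0),(0,0),(12,1)]⟩⟩,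
  ⟨false,0,⟨0,[(2,0),(27,0),(1,0)]⟩,⟨0,[(19,0)]⟩⟩,⟨false,0,⟨0,[(38,0)]⟩,⟨0,[(37,0),(2,0)]⟩⟩,⟨true,
  (-1),⟨0,[(0,0),(7,0),(14,0)]⟩,⟨0,[(19,0)]⟩⟩,⟨true,0,⟨0,[(42,0)]⟩,⟨0,[]⟩⟩,⟨false,0,⟨0,[(4,0)]⟩,⟨0,
  [(1,0)]⟩⟩,[]⟩))))

theorem ok79 : chk K t79 r46 = true := by decide +kernel

noncomputable def t88 : Tre :=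
  (.R ⟨2,false,false,true,[0,1],[0,0,1],[0,0,1],(⟨0,[]⟩,⟨0,[]⟩),(⟨0,[(19,0)]⟩,⟨0,[(18,0)]⟩),⟨0,[]⟩,
  .k,.k,.k,.k,.k,.k,⟨false,1,⟨1,[(0,1),(15,1),(8,0),(3,0)]⟩,⟨0,[(1,0),(1,0),(22,0),(1,0)]⟩⟩,⟨true,0,
  ⟨0,[(16,0)]⟩,⟨0,[(3,0)]⟩⟩,⟨true,0,⟨0,[(28,0)]⟩,⟨0,[(27,0)]⟩⟩,⟨false,0,⟨0,[(1,0),(26,0)]⟩,⟨1,[(0,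
  1),(24,0),(1,1),(2,0)]⟩⟩,⟨false,1,⟨1,[(9,0),(0,0),(19,0)]⟩,⟨0,[]⟩⟩,⟨false,0,⟨0,[(1,0)]⟩,⟨0,[(15,
  0),(14,0)]⟩⟩,[.a ⟨true,0,⟨0,[(14,0)]⟩,⟨0,[(0,0)]⟩⟩ ⟨true,0,⟨1,[(16,0),(0,0)]⟩,⟨0,[]⟩⟩ ⟨false,0,⟨0,
  [(14,0)]⟩,⟨1,[(0,1),(24,0),(3,0)]⟩⟩,.e ⟨false,1,⟨1,[(9,0),(0,0),(19,0)]⟩,⟨0,[(26,0),(1,0)]⟩⟩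
  ⟨false,0,⟨0,[(1,0)]⟩,⟨1,[(15,1),(13,0),(0,0)]⟩⟩,.o ⟨false,1,⟨1,[(25,0),(3,0)]⟩,⟨1,[(16,0),(0,
  0)]⟩⟩,.fo]⟩)

theorem ok88 : chk K t88 l47 = true := by decide +kernel

noncomputable def t89 : Tre :=
  (.R ⟨2,true,false,false,[0,1],[0,0,1],[0,0,1],(⟨0,[]⟩,⟨0,[]⟩),(⟨0,[(20,0)]⟩,⟨0,[(19,0)]⟩),⟨0,[]⟩,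
  .k,.k,.k,.k,.k,.k,⟨false,1,⟨5,[(3,1),(1,5),(4,0),(0,0),(19,2)]⟩,⟨0,[(0,0),(3,0),(22,0)]⟩⟩,⟨true,0,
  ⟨0,[(17,0)]⟩,⟨0,[(4,0)]⟩⟩,⟨true,0,⟨0,[(29,0)]⟩,⟨0,[(28,0)]⟩⟩,⟨false,0,⟨0,[(0,0)]⟩,⟨5,[(5,3),(1,1),
  (8,1),(9,0),(0,1),(2,0),(0,3)]⟩⟩,⟨false,1,⟨1,[(10,0),(0,0),(19,0)]⟩,⟨0,[]⟩⟩,⟨true,0,⟨0,[(2,0)]⟩,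
  ⟨0,[(16,0)]⟩⟩,[]⟩)

theorem ok89 : chk K t89 l48 = true := by decide +kernel

noncomputable def t90 : Tre :=
  (.Q [0,0,0,0,0,0,-2,-2,0,1,-2] (.p false [0,0,1] [1,0,-1] (⟨0,[(21,0)]⟩,⟨0,[(20,0)]⟩) .k 2 (⟨0,
  [(20,0)]⟩,⟨0,[(21,0)]⟩) .k (.r 0 ⟨0,[(3,1),(1,1)]⟩ ⟨1,[(0,1),(5,1),(24,0),(0,0)]⟩)) (.Q [0,-1,0,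
  -1,0,0,0,0,0,1] (.pp false [-1,1]) (.R ⟨1,false,false,false,[1,0,-1],[1,-1],[1,1],(⟨0,[(22,0)]⟩,
  ⟨0,[(23,0)]⟩),(⟨0,[(26,0)]⟩,⟨0,[(27,0)]⟩),⟨0,[(11,0)]⟩,.k,.k,.k,.k,.k,.k,⟨false,0,⟨0,[(31,0)]⟩,⟨5,
  [(6,1),(6,0),(0,0),(19,2)]⟩⟩,⟨true,0,⟨0,[(20,0)]⟩,⟨0,[(7,0)]⟩⟩,⟨false,0,⟨0,[(5,0),(1,0)]⟩,⟨3,[(2,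
  1),(5,1),(24,0),(0,2)]⟩⟩,⟨true,0,⟨0,[(0,0),(3,0)]⟩,⟨0,[(3,0)]⟩⟩,⟨true,0,⟨0,[(5,0),(1,0),(23,0)]⟩,
  ⟨0,[(2,0)]⟩⟩,⟨true,0,⟨0,[(5,0)]⟩,⟨0,[(19,0)]⟩⟩,[.o ⟨false,0,⟨0,[(32,0)]⟩,⟨1,[(29,0),(1,1),(2,
  0)]⟩⟩,.a ⟨true,0,⟨0,[(0,0)]⟩,⟨0,[(31,0)]⟩⟩ ⟨true,0,⟨0,[]⟩,⟨1,[(20,0),(0,0)]⟩⟩ ⟨false,1,⟨1,[(2,1),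
  (2,1),(27,0),(0,0)]⟩,⟨0,[(7,0),(23,0)]⟩⟩,.o ⟨false,0,⟨0,[(7,0)]⟩,⟨1,[(20,1),(8,0),(3,0)]⟩⟩,.o
  ⟨false,0,⟨0,[(21,0)]⟩,⟨0,[(2,0),(1,0),(25,0),(3,0)]⟩⟩]⟩) (.I [1,0,1,1] (.R ⟨1,false,false,false,
  [0,0,1],[1,-1],[0,0,0,-1],(⟨0,[(24,0)]⟩,⟨0,[(23,0)]⟩),(⟨0,[(27,0)]⟩,⟨0,[(28,0)]⟩),⟨0,[(13,0)]⟩,.k,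
  .k,.k,.k,.k,.k,⟨true,0,⟨1,[(21,0),(0,0)]⟩,⟨0,[]⟩⟩,⟨false,0,⟨1,[(11,0),(13,0),(1,0)]⟩,⟨0,[(3,0),(1,
  0),(25,0),(3,0)]⟩⟩,⟨true,0,⟨0,[(3,0)]⟩,⟨1,[(0,0),(4,0),(0,0),(4,0),(19,0)]⟩⟩,⟨true,0,⟨1,[(2,0),
  (22,0),(1,0),(5,1)]⟩,⟨0,[(1,0),(4,0)]⟩⟩,⟨false,1,⟨3,[(3,1),(5,1),(24,0),(0,2)]⟩,⟨0,[(6,0),(1,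
  0)]⟩⟩,⟨true,0,⟨1,[(2,0),(22,0),(1,0)]⟩,⟨0,[(5,0)]⟩⟩,[.o ⟨false,0,⟨0,[(33,0)]⟩,⟨1,[(30,0),(1,1),(2,
  0)]⟩⟩,.o ⟨false,1,⟨5,[(7,1),(6,0),(0,0),(5,2),(0,2),(12,2)]⟩,⟨0,[(1,0)]⟩⟩,.o ⟨false,1,⟨1,[(21,1),
  (8,0),(3,0)]⟩,⟨0,[(8,0)]⟩⟩,.a ⟨true,0,⟨0,[(21,0)]⟩,⟨0,[(18,0)]⟩⟩ ⟨false,1,⟨5,[(7,1),(6,0),(0,0),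
  (19,2)]⟩,⟨0,[(0,0)]⟩⟩ ⟨true,0,⟨0,[(18,0),(14,0)]⟩,⟨0,[(1,0),(19,0)]⟩⟩]⟩) (.I [1,-1,0,1,1,0,0,-1]
  (.S ⟨1,0,[0,0,0,-1,0,0,0,1],[0,0,1],[0,1,0,-1,0,0,0,1],(⟨0,[(25,0)]⟩,⟨0,[(24,0)]⟩),⟨0,[(14,0)]⟩,
  .k,.k,⟨false,0,⟨0,[(34,0)]⟩,⟨0,[(33,0),(2,0)]⟩⟩,⟨true,0,⟨0,[(34,0)]⟩,⟨0,[(33,0)]⟩⟩,⟨true,0,⟨0,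
  [(38,0)]⟩,⟨0,[]⟩⟩,⟨false,1,⟨1,[(15,0),(0,0),(19,0)]⟩,⟨0,[]⟩⟩,[.e ⟨false,0,⟨1,[(1,1),(4,0),(5,0),
  (7,0)]⟩,⟨0,[(0,0)]⟩⟩ ⟨false,0,⟨0,[(1,0),(5,0),(1,0)]⟩,⟨3,[(0,1),(9,1),(4,0),(0,0),(18,0)]⟩⟩,.o
  ⟨false,1,⟨0,[(6,0),(27,0),(1,0)]⟩,⟨0,[(5,0)]⟩⟩,.o ⟨false,1,⟨5,[(0,2),(5,1),(1,0),(11,0),(1,2),(8,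
  1)]⟩,⟨0,[(9,0)]⟩⟩,.a ⟨true,0,⟨0,[(22,0)]⟩,⟨0,[(19,0)]⟩⟩ ⟨false,0,⟨0,[(1,0),(5,0),(1,0)]⟩,⟨0,[(10,
  0),(25,0)]⟩⟩ ⟨true,0,⟨0,[(1,0),(5,0),(1,0)]⟩,⟨0,[(10,0)]⟩⟩]⟩) (.R ⟨2,true,false,false,[0,1],[1,1,
  -1],[1,0,1,1,0,0,0,-1],(⟨0,[]⟩,⟨0,[]⟩),(⟨0,[(24,0),(1,0)]⟩,⟨0,[(14,0)]⟩),⟨0,[]⟩,.k,.k,.k,.k,.k,.k,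
  ⟨true,0,⟨0,[]⟩,⟨1,[(22,0),(0,0)]⟩⟩,⟨false,0,⟨0,[(19,0)]⟩,⟨1,[(22,1),(8,0),(3,0)]⟩⟩,⟨false,1,⟨3,
  [(4,1),(5,1),(24,0),(0,2)]⟩,⟨0,[(7,0),(1,0)]⟩⟩,⟨true,0,⟨1,[(3,0),(22,0),(1,0)]⟩,⟨0,[(6,0)]⟩⟩,
  ⟨true,1,⟨1,[(10,1),(24,0),(0,0)]⟩,⟨0,[(0,0)]⟩⟩,⟨false,1,⟨0,[(10,0),(8,0),(16,0)]⟩,⟨0,[(0,0),(0,0),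
  (0,0),(19,0),(13,0)]⟩⟩,[]⟩)))) (.S ⟨1,0,[0,0,0,-1,0,0,0,1],[0,0,1],[0,1,0,-1,0,0,0,1],(⟨0,[(22,
  0)]⟩,⟨0,[(21,0)]⟩),⟨0,[(11,0)]⟩,.k,.k,⟨false,0,⟨0,[(31,0)]⟩,⟨0,[(30,0),(2,0)]⟩⟩,⟨true,0,⟨0,[(31,
  0)]⟩,⟨0,[(30,0)]⟩⟩,⟨true,0,⟨0,[(35,0)]⟩,⟨0,[]⟩⟩,⟨false,1,⟨1,[(12,0),(0,0),(19,0)]⟩,⟨0,[]⟩⟩,[.o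
  ⟨false,0,⟨0,[(0,0),(0,0),(4,0)]⟩,⟨5,[(2,1),(4,3),(1,1),(18,0),(3,1),(0,2)]⟩⟩,.o ⟨false,1,⟨7,[(0,
  3),(4,1),(13,2),(0,2),(7,1),(2,1),(1,3)]⟩,⟨0,[(2,0)]⟩⟩,.o ⟨false,1,⟨1,[(19,1),(8,0),(3,0)]⟩,⟨0,
  [(6,0)]⟩⟩,.a ⟨true,0,⟨0,[(19,0)]⟩,⟨0,[(16,0)]⟩⟩ ⟨false,0,⟨0,[(0,0),(0,0),(4,0),(9,0)]⟩,⟨0,[(7,0),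
  (25,0)]⟩⟩ ⟨true,0,⟨0,[(0,0),(0,0),(4,0),(9,0)]⟩,⟨0,[(7,0)]⟩⟩]⟩))

theorem ok90 : chk K t90 l49 = true := by decide +kernel

noncomputable def t91 : Tre :=
  (.S ⟨1,0,[0,0,0,-1,0,0,0,1],[0,0,1],[1,1,0,0,0,0,0,1],(⟨0,[(23,0)]⟩,⟨0,[(22,0)]⟩),⟨0,[(12,0)]⟩,.k,
  .k,⟨false,0,⟨0,[]⟩,⟨1,[(13,0),(0,0),(19,0)]⟩⟩,⟨true,0,⟨0,[(32,0)]⟩,⟨0,[(31,0)]⟩⟩,⟨true,0,⟨0,[(31,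
  0)]⟩,⟨0,[(32,0)]⟩⟩,⟨false,1,⟨1,[(13,0),(0,0),(19,0)]⟩,⟨0,[]⟩⟩,[.e ⟨false,0,⟨5,[(0,3),(3,0),(5,0),
  (7,0),(9,1)]⟩,⟨0,[(1,0)]⟩⟩ ⟨false,0,⟨0,[(0,0),(31,0)]⟩,⟨0,[(1,0),(29,0)]⟩⟩,.o ⟨false,1,⟨0,[(4,0),
  (27,0),(1,0)]⟩,⟨0,[(3,0)]⟩⟩,.o ⟨false,1,⟨0,[(1,0),(2,0)]⟩,⟨0,[(7,0)]⟩⟩,.a ⟨true,0,⟨0,[(20,0)]⟩,⟨0,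
  [(17,0)]⟩⟩ ⟨false,0,⟨0,[(0,0)]⟩,⟨1,[(1,1),(18,0),(0,0)]⟩⟩ ⟨true,0,⟨0,[(0,0),(31,0)]⟩,⟨0,[(8,
  0)]⟩⟩]⟩)

theorem ok91 : chk K t91 l51 = true := by decide +kernel

noncomputable def t92 : Tre :=
  (.N [0,-1,1] 0 ⟨0,[(0,0)]⟩ ⟨0,[(1,0)]⟩ .k)

theorem ok92 : chk K t92 l53 = true := by decide +kernel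

noncomputable def t93 : Tre :=
  (.Q [0,0,-1,0,1,0,1,0,0,-1,1] (.p true [0,0,1] [1] (⟨0,[(26,0)]⟩,⟨0,[(25,0)]⟩) .k 1 (⟨0,[]⟩,⟨0,
  []⟩) .k .k) (.S ⟨1,0,[0,1,1,0,0,0,0,1],[0,1,1],[0,0,1,0,0,0,0,1],(⟨0,[(27,0),(0,0)]⟩,⟨0,[(15,
  0)]⟩),⟨0,[(27,0)]⟩,.k,.k,⟨true,0,⟨0,[(36,0)]⟩,⟨0,[(35,0)]⟩⟩,⟨false,0,⟨0,[(36,0)]⟩,⟨0,[(35,0),(2,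
  0)]⟩⟩,⟨false,1,⟨1,[(17,0),(0,0),(19,0)]⟩,⟨0,[]⟩⟩,⟨true,0,⟨0,[(40,0)]⟩,⟨0,[]⟩⟩,[.o ⟨false,0,⟨0,[(8,
  0)]⟩,⟨0,[(23,0),(14,0)]⟩⟩,.a ⟨true,0,⟨0,[(9,0)]⟩,⟨0,[(4,0),(16,0)]⟩⟩ ⟨true,0,⟨0,[(1,0)]⟩,⟨0,[(4,
  0),(29,0),(1,0)]⟩⟩ ⟨false,0,⟨1,[(1,0),(6,0),(12,0)]⟩,⟨3,[(5,2),(4,0),(1,0),(21,1)]⟩⟩,.o ⟨false,1,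
  ⟨0,[(0,0)]⟩,⟨0,[(25,0)]⟩⟩,.o ⟨false,1,⟨2,[(0,0),(4,0),(16,0),(1,0),(8,0)]⟩,⟨0,[(11,0)]⟩⟩]⟩) (.Q
  [0,-1,0,-1,0,0,-1,-1,0,1,-1] (.p false [0,0,1] [1] (⟨0,[(27,0)]⟩,⟨0,[(26,0)]⟩) .k 1 (⟨0,[]⟩,⟨0,
  []⟩) .k .k) (.R ⟨2,true,false,false,[0,1],[1,0,-1],[1,0,1,1],(⟨0,[]⟩,⟨0,[]⟩),(⟨0,[(27,0)]⟩,⟨0,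
  [(28,0)]⟩),⟨0,[]⟩,.k,.k,.k,.k,.k,.k,⟨false,0,⟨0,[(7,0)]⟩,⟨1,[(6,0),(4,0),(1,0)]⟩⟩,⟨true,(-1),⟨0,
  [(1,0)]⟩,⟨0,[(6,0),(2,0)]⟩⟩,⟨true,0,⟨0,[]⟩,⟨0,[(41,0)]⟩⟩,⟨false,0,⟨0,[(0,0)]⟩,⟨0,[(9,0),(26,0),(2,
  0)]⟩⟩,⟨false,1,⟨0,[(36,0),(2,0)]⟩,⟨0,[(37,0)]⟩⟩,⟨true,0,⟨1,[(0,0),(12,0),(8,0)]⟩,⟨0,[(9,0)]⟩⟩,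
  []⟩) (.Q [0,-1,0,-2,0,0,-1,-1,0,1,-1] (.p false [0,0,1] [1] (⟨0,[(28,0)]⟩,⟨0,[(27,0)]⟩) .k 1 (⟨0,
  []⟩,⟨0,[]⟩) .k .k) (.R ⟨1,false,false,true,[1,0,-1],[0,1],[],(⟨0,[(28,0)]⟩,⟨0,[(29,0)]⟩),(⟨0,[(33,
  0)]⟩,⟨0,[(32,0)]⟩),⟨0,[(17,0)]⟩,.k,.k,.k,.k,(.r (-1) ⟨0,[(5,0),(6,0)]⟩ ⟨0,[(3,0),(4,0),(5,0)]⟩),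
  .k,⟨true,1,⟨5,[(12,1),(6,0),(0,0),(19,2)]⟩,⟨0,[(2,0),(2,0),(4,0)]⟩⟩,⟨false,2,⟨0,[(7,0),(2,0),(28,
  0)]⟩,⟨0,[(2,0)]⟩⟩,⟨true,0,⟨13,[(2,1),(0,3),(4,5),(1,2),(1,1),(3,0),(7,0)]⟩,⟨3,[(2,0),(3,4),(3,0),
  (1,0),(23,2)]⟩⟩,⟨true,0,⟨0,[(1,0)]⟩,⟨15,[(0,10),(13,5),(1,0),(6,3),(0,0),(9,1)]⟩⟩,⟨true,0,⟨1,[(2,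
  1),(8,1),(23,0),(0,1),(3,0)]⟩,⟨1,[(2,0),(3,2),(3,0),(1,0),(23,0)]⟩⟩,⟨false,1,⟨0,[(1,0),(35,0),(2,
  0)]⟩,⟨0,[(0,0)]⟩⟩,[.e ⟨false,1,⟨1,[(19,0),(0,0),(18,0)]⟩,⟨0,[]⟩⟩ ⟨false,1,⟨3,[(1,3),(5,2),(4,0),
  (1,0),(21,1)]⟩,⟨1,[(0,0),(2,0),(19,0)]⟩⟩,.o ⟨false,1,⟨1,[(35,0),(1,1),(2,0)]⟩,⟨0,[(38,0)]⟩⟩,.o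
  ⟨false,0,⟨0,[(13,0)]⟩,⟨0,[(7,0),(2,0)]⟩⟩,.a ⟨true,(-1),⟨0,[(2,0)]⟩,⟨0,[(26,0),(12,0)]⟩⟩ ⟨false,1,
  ⟨1,[(39,0),(0,0)]⟩,⟨1,[(26,0),(0,0)]⟩⟩ ⟨true,1,⟨3,[(1,3),(5,2),(4,0),(1,0),(21,1)]⟩,⟨1,[(0,0),(1,
  1),(7,0)]⟩⟩]⟩) (.Q [0,-1,0,1,1,0,0,0,0,-1] (.pp true [-1,1]) (.R ⟨1,false,false,true,[0,0,1],[1,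
  -1],[1,1,0,0,0,0,0,1],(⟨0,[(30,0)]⟩,⟨0,[(29,0)]⟩),(⟨0,[(33,0)]⟩,⟨0,[(34,0)]⟩),⟨0,[(19,0)]⟩,.k,.k,
  .k,.k,.k,.k,⟨false,0,⟨0,[(9,0)]⟩,⟨1,[(8,0),(4,0),(1,0)]⟩⟩,⟨true,(-1),⟨0,[(3,0)]⟩,⟨0,[(8,0),(2,
  0)]⟩⟩,⟨false,0,⟨0,[]⟩,⟨1,[(20,0),(0,0),(19,0)]⟩⟩,⟨false,0,⟨1,[(3,1),(4,0),(4,0),(1,0)]⟩,⟨1,[(1,0),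
  (9,0),(29,1)]⟩⟩,⟨true,0,⟨0,[(38,0)]⟩,⟨0,[(39,0)]⟩⟩,⟨false,0,⟨0,[(7,0),(16,0)]⟩,⟨0,[(11,0),(29,
  0)]⟩⟩,[.o ⟨false,0,⟨0,[(39,0),(3,0)]⟩,⟨0,[(0,0)]⟩⟩,.o ⟨false,0,⟨0,[(39,0)]⟩,⟨3,[(0,1),(19,0),(0,
  0),(14,0),(1,1)]⟩⟩,.o ⟨false,1,⟨0,[(8,0),(2,0)]⟩,⟨0,[(14,0)]⟩⟩,.a ⟨true,0,⟨0,[(27,0)]⟩,⟨0,[(24,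
  0)]⟩⟩ ⟨true,0,⟨0,[(11,0),(12,0)]⟩,⟨0,[(7,0)]⟩⟩ ⟨false,0,⟨5,[(3,1),(9,1),(3,0),(6,1),(6,0),(1,0)]⟩,
  ⟨0,[(0,0),(26,0)]⟩⟩]⟩) (.Q [0,0,0,0,0,-2,0,0,0,0,1] (.p true [0,0,1] [] (⟨0,[(30,0)]⟩,⟨0,[(29,
  0)]⟩) .k 0 (⟨0,[]⟩,⟨0,[]⟩) .k .k) (.Q [0,0,2,0,0,0,1,0,0,-1,1] (.p true [0,0,1] [1] (⟨0,[(31,0)]⟩,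
  ⟨0,[(30,0)]⟩) .k 1 (⟨0,[]⟩,⟨0,[]⟩) .k .k) (.R ⟨1,false,false,false,[0,-1,1],[1,-1],[1,0,-1,-1,0,0,
  0,1],(⟨0,[(21,0)]⟩,⟨0,[(31,0),(1,0)]⟩),(⟨0,[(35,0)]⟩,⟨0,[(36,0)]⟩),⟨0,[(1,0)]⟩,.k,.k,(.r (-1) ⟨7,
  [(6,1),(4,1),(3,5),(3,1),(7,3),(10,0),(4,0)]⟩ ⟨2,[(6,0),(1,3),(2,0),(5,0)]⟩),.k,.k,.k,⟨true,0,⟨13,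
  [(5,1),(0,3),(4,5),(1,2),(1,1),(3,0),(7,0)]⟩,⟨0,[(9,0)]⟩⟩,⟨false,0,⟨0,[(26,0)]⟩,⟨0,[(10,0),(2,
  0)]⟩⟩,⟨true,0,⟨0,[]⟩,⟨0,[(45,0)]⟩⟩,⟨true,0,⟨3,[(2,0),(2,0),(2,0),(1,1),(15,1),(1,0)]⟩,⟨0,[(13,
  0)]⟩⟩,⟨false,1,⟨0,[(40,0),(2,0)]⟩,⟨0,[(41,0)]⟩⟩,⟨true,0,⟨0,[(8,0),(17,0)]⟩,⟨2,[(0,0),(4,0),(7,2),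
  (1,0)]⟩⟩,[.o ⟨false,0,⟨0,[(41,0)]⟩,⟨7,[(3,3),(6,3),(8,1),(2,0),(0,0),(14,2)]⟩⟩,.e ⟨false,1,⟨0,[(3,
  0),(1,0),(9,0),(27,0)]⟩,⟨0,[(17,0)]⟩⟩ ⟨false,1,⟨17,[(10,1),(4,5),(3,1),(6,15),(0,1),(14,0),(0,
  8)]⟩,⟨0,[(8,0),(4,0)]⟩⟩,.a ⟨true,0,⟨0,[(29,0)]⟩,⟨0,[(26,0)]⟩⟩ ⟨false,1,⟨39,[(6,13),(4,13),(3,17),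
  (3,5),(7,11),(10,2),(4,18)]⟩,⟨0,[(7,0)]⟩⟩ ⟨true,0,⟨7,[(2,1),(2,0),(9,1),(3,1),(6,2),(16,0)]⟩,⟨0,
  [(8,0),(4,0)]⟩⟩,.o ⟨false,0,⟨0,[(0,0)]⟩,⟨1,[(26,1),(11,0),(3,0)]⟩⟩]⟩) (.I [0,0,-1,-2,0,0,0,1] (.S
  ⟨1,0,[0,0,-1,-2,0,0,0,1],[0,-1,1],[1,1],(⟨0,[(22,0)]⟩,⟨0,[(32,0),(1,0)]⟩),⟨0,[(2,0)]⟩,.k,(.r (-1)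
  ⟨7,[(7,1),(4,1),(3,5),(3,1),(7,3),(10,0),(4,0)]⟩ ⟨2,[(7,0),(1,3),(2,0),(5,0)]⟩),⟨false,0,⟨0,[(9,
  0)]⟩,⟨39,[(7,13),(4,13),(3,17),(3,5),(7,11),(10,2),(4,18)]⟩⟩,⟨true,0,⟨0,[(42,0)]⟩,⟨0,[(41,0)]⟩⟩,
  ⟨true,0,⟨0,[(9,0),(31,0)]⟩,⟨0,[(0,0)]⟩⟩,⟨false,1,⟨1,[(23,0),(0,0),(19,0)]⟩,⟨0,[]⟩⟩,[.a ⟨true,0,⟨0,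
  [(0,0),(29,0)]⟩,⟨1,[(1,0),(7,2),(2,0),(14,0)]⟩⟩ ⟨false,0,⟨6,[(3,0),(10,0),(1,0),(12,0),(10,3)]⟩,
  ⟨1,[(23,0),(0,0),(19,0)]⟩⟩ ⟨true,0,⟨0,[(0,0)]⟩,⟨2,[(7,0),(1,3),(2,0),(5,0)]⟩⟩,.o ⟨false,1,⟨1,[(0,
  1),(29,1),(8,0),(4,0)]⟩,⟨11,[(1,3),(2,3),(1,1),(2,5),(3,9),(25,0),(4,0)]⟩⟩,.a ⟨true,0,⟨0,[(30,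
  0)]⟩,⟨0,[(27,0)]⟩⟩ ⟨false,0,⟨0,[]⟩,⟨1,[(23,0),(0,0),(19,0)]⟩⟩ ⟨true,0,⟨0,[(0,0)]⟩,⟨0,[(9,0),(31,
  0)]⟩⟩,.a ⟨true,0,⟨1,[(30,2),(0,0)]⟩,⟨0,[(1,0)]⟩⟩ ⟨true,0,⟨6,[(3,0),(10,0),(1,0),(12,0),(10,3)]⟩,
  ⟨1,[(30,0),(0,0)]⟩⟩ ⟨false,1,⟨1,[(0,0),(11,0),(3,0),(27,0)]⟩,⟨2,[(7,0),(1,3),(2,0),(5,0)]⟩⟩]⟩)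
  (.Q [0,0,-1,0,0,0,0,0,-1,1,0,-1] (.p false [0,0,0,0,1] [1] (⟨0,[(26,0)]⟩,⟨0,[(25,0)]⟩) .k 1 (⟨0,
  []⟩,⟨0,[]⟩) .k .k) (.Q [0,0,0,0,0,-1,0,0,0,0,0,1] (.ed false [1,-1,0,0,1] .k) (.Q [0,1,0,0,0,0,0,
  0,1,-1,0,1] (.p true [0,0,0,0,1] [1] (⟨0,[(28,0)]⟩,⟨0,[(27,0)]⟩) .k 1 (⟨0,[]⟩,⟨0,[]⟩) .k .k) (.S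
  ⟨1,0,[0,-1,1],[1,1,0,0,-1],[1,0,1,1],(⟨0,[(28,0),(8,0)]⟩,⟨0,[(1,0)]⟩),⟨0,[(28,0)]⟩,(.r (-1) ⟨2,
  [(15,0),(5,1),(9,0),(2,0),(12,2)]⟩ ⟨6,[(6,1),(10,1),(1,1),(12,1),(10,0)]⟩),.k,⟨false,0,⟨0,[]⟩,⟨1,
  [(26,0),(0,0),(19,0)]⟩⟩,⟨true,0,⟨0,[(45,0)]⟩,⟨0,[(44,0)]⟩⟩,⟨true,0,⟨0,[(44,0)]⟩,⟨0,[(45,0)]⟩⟩,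
  ⟨false,1,⟨1,[(26,0),(0,0),(19,0)]⟩,⟨0,[]⟩⟩,[.o ⟨false,1,⟨2,[(2,1),(7,0),(2,0),(12,0),(15,0),(4,
  0)]⟩,⟨0,[(0,0)]⟩⟩,.e ⟨false,1,⟨0,[(44,0),(2,0)]⟩,⟨6,[(6,1),(10,1),(1,1),(12,1),(10,0)]⟩⟩ ⟨false,1,
  ⟨0,[(47,0)]⟩,⟨0,[(41,0)]⟩⟩,.a ⟨true,0,⟨0,[(2,0)]⟩,⟨1,[(27,1),(5,0),(0,0)]⟩⟩ ⟨true,0,⟨4,[(3,0),(6,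
  1),(4,0),(5,1)]⟩,⟨6,[(6,1),(10,1),(1,1),(12,1),(10,0)]⟩⟩ ⟨false,1,⟨0,[(10,0),(3,0)]⟩,⟨6,[(6,0),
  (10,0),(1,0),(12,0),(10,3)]⟩⟩,.e ⟨false,1,⟨0,[(44,0),(2,0)]⟩,⟨0,[(45,0)]⟩⟩ ⟨false,1,⟨0,[(47,0)]⟩,
  ⟨0,[(49,0)]⟩⟩]⟩) (.R ⟨2,true,false,true,[0,1],[1,1,0,0,-1],[0,0,1],(⟨0,[]⟩,⟨0,[]⟩),(⟨0,[(28,0),(8,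
  0)]⟩,⟨0,[(1,0)]⟩),⟨0,[]⟩,.k,(.r (-1) ⟨2,[(15,0),(5,1),(9,0),(2,0),(12,2)]⟩ ⟨6,[(6,1),(10,1),(1,1),
  (12,1),(10,0)]⟩),.k,.k,(.r 0 ⟨6,[(6,1),(10,1),(1,1),(12,1),(10,0)]⟩ ⟨2,[(15,0),(5,1),(9,0),(2,0),
  (12,2)]⟩),.k,⟨true,0,⟨0,[(45,0)]⟩,⟨4,[(3,0),(6,1),(4,0),(5,1)]⟩⟩,⟨false,0,⟨0,[(2,0)]⟩,⟨1,[(26,0),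
  (0,2),(14,0)]⟩⟩,⟨true,0,⟨0,[(45,0)]⟩,⟨0,[(44,0)]⟩⟩,⟨false,0,⟨0,[(0,0)]⟩,⟨1,[(26,0),(0,2),(14,
  0)]⟩⟩,⟨false,1,⟨1,[(26,0),(0,0),(19,0)]⟩,⟨0,[]⟩⟩,⟨true,0,⟨0,[(0,0),(43,0)]⟩,⟨0,[(6,0),(20,0),(14,
  0)]⟩⟩,[]⟩)) (.R ⟨0,false,false,false,[0,0,0,0,1],[1,-1,0,0,1],[0,1,0,-1],(⟨0,[(28,0)]⟩,⟨0,[(27,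
  0)]⟩),(⟨0,[(28,0),(9,0)]⟩,⟨0,[(0,0)]⟩),⟨0,[(0,0)]⟩,.k,(.r 0 ⟨6,[(5,1),(10,1),(1,1),(12,1),(10,
  0)]⟩ ⟨2,[(14,0),(5,1),(9,0),(2,0),(12,2)]⟩),(.r 0 ⟨6,[(5,1),(10,1),(1,1),(12,1),(10,0)]⟩ ⟨2,[(14,
  0),(5,1),(9,0),(2,0),(12,2)]⟩),.k,.k,.k,⟨true,0,⟨1,[(32,0),(0,0)]⟩,⟨0,[]⟩⟩,⟨false,0,⟨0,[(36,0),(1,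
  0)]⟩,⟨1,[(41,0),(3,0)]⟩⟩,⟨true,0,⟨0,[(44,0)]⟩,⟨0,[(43,0)]⟩⟩,⟨false,0,⟨0,[(5,0),(40,0)]⟩,⟨7,[(6,3),
  (6,3),(8,1),(2,0),(0,0),(14,2)]⟩⟩,⟨false,0,⟨0,[]⟩,⟨0,[]⟩⟩,⟨false,0,⟨0,[]⟩,⟨0,[]⟩⟩,[.a ⟨true,(-1),
  ⟨0,[(5,0),(20,0)]⟩,⟨13,[(1,9),(0,5),(6,3),(4,1),(10,3),(15,4),(4,4)]⟩⟩ ⟨false,0,⟨6,[(5,1),(10,1),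
  (1,1),(12,1),(10,0)]⟩,⟨0,[(43,0),(2,0)]⟩⟩ ⟨true,(-1),⟨0,[(5,0)]⟩,⟨11,[(2,1),(3,1),(2,3),(10,3),
  (12,1),(7,4),(4,6)]⟩⟩,.o ⟨false,0,⟨0,[(26,0),(17,0)]⟩,⟨5,[(1,3),(0,1),(3,0),(1,0),(0,0),(15,1),
  (15,4)]⟩⟩,.a ⟨true,0,⟨0,[(26,0)]⟩,⟨2,[(1,1),(6,0),(16,0),(6,0)]⟩⟩ ⟨false,0,⟨0,[(44,0)]⟩,⟨0,[(43,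
  0),(2,0)]⟩⟩ ⟨true,(-1),⟨0,[(5,0)]⟩,⟨7,[(6,3),(6,3),(8,1),(2,0),(0,0),(14,2)]⟩⟩,.a ⟨true,0,⟨1,[(26,
  1),(5,0),(0,0)]⟩,⟨0,[(1,0)]⟩⟩ ⟨true,0,⟨6,[(5,1),(10,1),(1,1),(12,1),(10,0)]⟩,⟨4,[(2,0),(6,1),(4,
  0),(5,1)]⟩⟩ ⟨false,0,⟨4,[(1,1),(3,1),(12,0),(7,1),(9,0),(1,0),(7,0)]⟩,⟨11,[(2,1),(3,1),(2,3),(10,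
  3),(12,1),(7,4),(4,6)]⟩⟩]⟩)) (.Q [0,0,1,0,-1,0,0,0,1,0,0,1] (.p true [0,0,0,0,1] [] (⟨0,[(27,0)]⟩,
  ⟨0,[(26,0)]⟩) .k 0 (⟨0,[]⟩,⟨0,[]⟩) .k .k) (.Q [0,0,0,0,0,1,0,0,0,0,0,-1] (.ed true [1,-1,0,0,1]
  .k) (.R ⟨0,false,false,false,[0,1,0,0,-1],[0,1],[0,1],(⟨0,[(0,0)]⟩,⟨0,[(29,0),(9,0)]⟩),(⟨0,[(40,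
  0)]⟩,⟨0,[(39,0)]⟩),⟨0,[(29,0)]⟩,(.r (-1) ⟨2,[(15,0),(5,1),(9,0),(2,0),(12,2)]⟩ ⟨6,[(6,1),(10,1),
  (1,1),(12,1),(10,0)]⟩),.k,.k,.k,.k,.k,⟨true,0,⟨6,[(6,1),(10,1),(1,1),(12,1),(10,0)]⟩,⟨0,[(10,0),
  (1,0)]⟩⟩,⟨false,0,⟨0,[(1,0),(44,0)]⟩,⟨0,[(26,0)]⟩⟩,⟨false,0,⟨6,[(6,1),(10,1),(1,1),(12,1),(10,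
  0)]⟩,⟨4,[(3,0),(6,1),(4,0),(5,1),(25,4)]⟩⟩,⟨true,(-1),⟨6,[(1,6),(4,0),(10,0),(1,0),(12,0),(10,
  3)]⟩,⟨0,[(26,0)]⟩⟩,⟨false,0,⟨0,[]⟩,⟨0,[]⟩⟩,⟨false,0,⟨0,[]⟩,⟨0,[]⟩⟩,[.o ⟨false,1,⟨7,[(7,3),(6,3),
  (8,1),(2,0),(0,0),(14,2)]⟩,⟨0,[(45,0)]⟩⟩,.e ⟨false,1,⟨1,[(26,0),(0,0),(18,0)]⟩,⟨0,[]⟩⟩ ⟨false,0,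
  ⟨7,[(1,7),(1,1),(0,1),(2,1),(38,2),(0,4)]⟩,⟨6,[(6,1),(10,1),(1,1),(6,6),(5,1),(10,0)]⟩⟩,.o ⟨false,
  2,⟨1,[(26,1),(15,0),(3,0)]⟩,⟨0,[(1,0)]⟩⟩,.a ⟨true,1,⟨0,[(26,0)]⟩,⟨0,[(1,0),(2,0),(28,0)]⟩⟩ ⟨true,
  0,⟨6,[(6,0),(10,0),(1,0),(12,0),(10,3)]⟩,⟨1,[(33,0),(0,0)]⟩⟩ ⟨false,0,⟨7,[(1,7),(1,1),(0,1),(2,1),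
  (38,2),(0,4)]⟩,⟨0,[(26,0),(18,0)]⟩⟩]⟩) (.S ⟨1,0,[0,0,1],[1,1,0,0,-1],[0,-1,1],(⟨0,[(28,0),(8,0)]⟩,
  ⟨0,[(0,0)]⟩),⟨0,[(28,0)]⟩,(.r (-1) ⟨2,[(15,0),(5,1),(9,0),(2,0),(12,2)]⟩ ⟨6,[(6,1),(10,1),(1,1),
  (12,1),(10,0)]⟩),.k,⟨true,0,⟨0,[(45,0)]⟩,⟨0,[(44,0)]⟩⟩,⟨false,0,⟨0,[(45,0)]⟩,⟨0,[(44,0),(2,0)]⟩⟩,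
  ⟨false,1,⟨1,[(26,0),(0,0),(19,0)]⟩,⟨0,[]⟩⟩,⟨true,0,⟨0,[(49,0)]⟩,⟨0,[]⟩⟩,[.o ⟨false,1,⟨0,[(26,0)]⟩,
  ⟨1,[(1,1),(40,0),(3,0)]⟩⟩,.e ⟨false,1,⟨0,[(47,0)]⟩,⟨0,[(41,0)]⟩⟩ ⟨false,1,⟨1,[(26,0),(0,0),(19,
  0)]⟩,⟨6,[(6,0),(10,0),(1,0),(12,0),(10,3)]⟩⟩,.a ⟨true,1,⟨0,[(4,0),(21,0),(6,0)]⟩,⟨0,[(1,0)]⟩⟩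
  ⟨false,1,⟨0,[(10,0),(3,0)]⟩,⟨6,[(6,0),(10,0),(1,0),(12,0),(10,3)]⟩⟩ ⟨true,0,⟨1,[(33,0),(0,0)]⟩,⟨6,
  [(6,0),(10,0),(1,0),(12,0),(10,3)]⟩⟩,.o ⟨false,1,⟨0,[(26,0)]⟩,⟨1,[(1,1),(40,0),(3,0)]⟩⟩]⟩)) (.Q
  [0,0,-2,0,1,0,0,0,-1,0,0,-1] (.p false [0,0,0,0,1] [] (⟨0,[(28,0)]⟩,⟨0,[(27,0)]⟩) .k 0 (⟨0,[]⟩,⟨0,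
  []⟩) .k .k) (.Q [0,0,0,0,0,-1,0,0,0,0,0,1] (.ed false [1,-1,0,0,1] .k) (.S ⟨1,0,[0,1,0,-1],[0,0,0,
  0,1],[1,2],(⟨0,[(30,0)]⟩,⟨0,[(29,0)]⟩),⟨0,[(0,0)]⟩,.k,(.r 0 ⟨6,[(7,1),(10,1),(1,1),(12,1),(10,
  0)]⟩ ⟨2,[(16,0),(5,1),(9,0),(2,0),(12,2)]⟩),⟨false,0,⟨0,[]⟩,⟨1,[(27,0),(0,0),(19,0)]⟩⟩,⟨true,0,⟨0,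
  [(46,0)]⟩,⟨0,[(45,0)]⟩⟩,⟨true,0,⟨0,[(45,0)]⟩,⟨0,[(46,0)]⟩⟩,⟨false,1,⟨1,[(27,0),(0,0),(19,0)]⟩,⟨0,
  []⟩⟩,[.o ⟨false,0,⟨6,[(3,6),(3,1),(10,1),(1,1),(12,1),(10,0)]⟩,⟨0,[(1,0),(9,0),(1,0)]⟩⟩,.a ⟨true,
  0,⟨2,[(3,0),(6,0),(9,0),(7,1),(5,0)]⟩,⟨1,[(1,1),(2,0),(5,1),(8,0),(14,0)]⟩⟩ ⟨false,0,⟨6,[(7,0),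
  (10,0),(1,0),(12,0),(10,3)]⟩,⟨1,[(27,0),(0,0),(19,0)]⟩⟩ ⟨true,0,⟨0,[(46,0)]⟩,⟨4,[(4,0),(6,1),(4,
  0),(5,1)]⟩⟩,.e ⟨false,0,⟨0,[(50,0)]⟩,⟨0,[(48,0)]⟩⟩ ⟨false,0,⟨0,[(46,0)]⟩,⟨0,[(45,0),(2,0)]⟩⟩,.o
  ⟨false,0,⟨0,[(3,0)]⟩,⟨0,[(2,0)]⟩⟩]⟩) (.R ⟨0,false,false,false,[0,0,0,0,1],[0,0,1,0,1],[1,2],(⟨0,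
  [(30,0)]⟩,⟨0,[(29,0)]⟩),(⟨0,[(30,0),(6,0)]⟩,⟨0,[(0,0),(24,0)]⟩),⟨0,[(0,0)]⟩,.k,.k,(.r 0 ⟨6,[(7,1),
  (10,1),(1,1),(12,1),(10,0)]⟩ ⟨2,[(16,0),(5,1),(9,0),(2,0),(12,2)]⟩),.k,.k,.k,⟨true,0,⟨6,[(7,1),(5,
  6),(4,1),(1,1),(12,1),(10,0)]⟩,⟨0,[(11,0)]⟩⟩,⟨false,1,⟨0,[(34,0),(12,0)]⟩,⟨0,[(21,0)]⟩⟩,⟨false,0,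
  ⟨0,[]⟩,⟨1,[(27,0),(0,0),(19,0)]⟩⟩,⟨true,0,⟨0,[(19,0)]⟩,⟨0,[(33,0)]⟩⟩,⟨false,0,⟨0,[]⟩,⟨0,[]⟩⟩,
  ⟨false,0,⟨0,[]⟩,⟨0,[]⟩⟩,[.o ⟨false,0,⟨0,[(18,0),(9,0)]⟩,⟨1,[(1,1),(8,1),(3,1),(28,0),(4,0)]⟩⟩,.a
  ⟨true,0,⟨0,[(19,0),(8,0)]⟩,⟨0,[(1,0),(8,0),(3,0)]⟩⟩ ⟨false,0,⟨6,[(7,0),(10,0),(1,0),(12,0),(10,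
  3)]⟩,⟨1,[(27,0),(0,0),(19,0)]⟩⟩ ⟨true,0,⟨0,[(19,0)]⟩,⟨2,[(10,1),(3,0),(0,0),(17,0),(9,0)]⟩⟩,.e
  ⟨false,0,⟨0,[(50,0)]⟩,⟨0,[(48,0)]⟩⟩ ⟨false,0,⟨0,[(19,0)]⟩,⟨0,[(33,0),(14,0)]⟩⟩,.o ⟨false,0,⟨0,[(3,
  0)]⟩,⟨0,[(2,0)]⟩⟩]⟩)) (.Q [0,0,0,0,0,0,0,0,-1,1,0,-1] (.p false [0,0,0,0,1] [1] (⟨0,[(29,0)]⟩,⟨0,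
  [(28,0)]⟩) .k 1 (⟨0,[]⟩,⟨0,[]⟩) .k .k) (.Q [0,0,0,0,0,-1,0,0,0,0,0,1] (.ed false [1,-1,0,0,1] .k)
  (.S ⟨1,0,[0,0,1],[1,1,0,0,-1],[0,-1,1],(⟨0,[(30,0),(8,0)]⟩,⟨0,[(0,0)]⟩),⟨0,[(30,0)]⟩,(.r (-1) ⟨2,
  [(17,0),(5,1),(9,0),(2,0),(12,2)]⟩ ⟨6,[(8,1),(10,1),(1,1),(12,1),(10,0)]⟩),.k,⟨true,0,⟨0,[(47,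
  0)]⟩,⟨0,[(46,0)]⟩⟩,⟨false,0,⟨0,[(47,0)]⟩,⟨0,[(46,0),(2,0)]⟩⟩,⟨false,1,⟨1,[(28,0),(0,0),(19,0)]⟩,
  ⟨0,[]⟩⟩,⟨true,0,⟨0,[(51,0)]⟩,⟨0,[]⟩⟩,[.a ⟨true,0,⟨0,[(1,0)]⟩,⟨0,[(29,0)]⟩⟩ ⟨false,1,⟨1,[(28,0),(0,
  0),(19,0)]⟩,⟨6,[(8,0),(10,0),(1,0),(12,0),(10,3)]⟩⟩ ⟨true,0,⟨1,[(35,0),(0,0)]⟩,⟨0,[]⟩⟩,.o ⟨false,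
  1,⟨1,[(1,1),(42,0),(4,0)]⟩,⟨6,[(4,6),(3,0),(10,0),(1,0),(12,0),(10,3)]⟩⟩,.o ⟨false,1,⟨0,[(3,0)]⟩,
  ⟨0,[(4,0)]⟩⟩,.e ⟨false,1,⟨0,[(49,0)]⟩,⟨0,[(51,0)]⟩⟩ ⟨false,1,⟨1,[(28,0),(0,0),(19,0)]⟩,⟨0,[]⟩⟩]⟩)
  (.R ⟨0,false,false,true,[0,0,0,0,1],[1,-1],[1,0,1],(⟨0,[(31,0)]⟩,⟨0,[(30,0)]⟩),(⟨0,[(41,0)]⟩,⟨0,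
  [(42,0)]⟩),⟨0,[(0,0)]⟩,.k,.k,(.r 0 ⟨6,[(8,1),(10,1),(1,1),(12,1),(10,0)]⟩ ⟨2,[(17,0),(5,1),(9,0),
  (2,0),(12,2)]⟩),(.r 0 ⟨2,[(17,0),(5,1),(9,0),(2,0)]⟩ ⟨5,[(21,1),(6,0),(0,0),(19,2)]⟩),.k,.k,⟨true,
  0,⟨0,[(12,0),(1,0)]⟩,⟨6,[(8,1),(10,1),(1,1),(12,1),(10,0)]⟩⟩,⟨false,0,⟨0,[(1,0)]⟩,⟨1,[(29,1),(14,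
  0),(3,0)]⟩⟩,⟨false,1,⟨0,[(12,0),(3,0)]⟩,⟨6,[(8,0),(10,0),(1,0),(12,0),(10,3)]⟩⟩,⟨true,0,⟨0,[(1,0),
  (45,0)]⟩,⟨0,[(4,0),(40,0)]⟩⟩,⟨false,0,⟨0,[]⟩,⟨0,[]⟩⟩,⟨false,0,⟨0,[]⟩,⟨0,[]⟩⟩,[.e ⟨false,0,⟨0,[]⟩,
  ⟨1,[(28,0),(0,0),(18,0)]⟩⟩ ⟨false,0,⟨6,[(1,6),(6,1),(10,1),(1,1),(12,1),(10,0)]⟩,⟨7,[(4,1),(0,1),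
  (0,1),(2,1),(19,5),(14,2),(4,4)]⟩⟩,.o ⟨false,0,⟨0,[(47,0)]⟩,⟨7,[(9,3),(6,3),(8,1),(2,0),(0,0),(14,
  2)]⟩⟩,.a ⟨true,0,⟨0,[(29,0)]⟩,⟨0,[(1,0)]⟩⟩ ⟨true,0,⟨1,[(35,0),(0,0)]⟩,⟨6,[(8,0),(10,0),(1,0),(12,
  0),(10,3)]⟩⟩ ⟨false,0,⟨0,[(1,0),(45,0)]⟩,⟨7,[(4,1),(0,1),(0,1),(2,1),(19,5),(14,2),(4,4)]⟩⟩,.o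
  ⟨false,0,⟨0,[(4,0)]⟩,⟨0,[(3,0)]⟩⟩]⟩)) (.Q [0,0,0,0,0,-1,0,0,0,0,0,1] (.ed false [1,-1,0,0,1] .k)
  (.Q [0,2,0,-1,-1,0,0,0,1,-1,0,1] (.p true [0,0,0,0,1] [1] (⟨0,[(31,0)]⟩,⟨0,[(30,0)]⟩) .k 1 (⟨0,
  []⟩,⟨0,[]⟩) .k .k) (.S ⟨1,0,[0,2,0,-1],[0,0,0,0,1],[1,1],(⟨0,[(32,0)]⟩,⟨0,[(31,0)]⟩),⟨0,[(1,0)]⟩,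
  .k,(.r 0 ⟨4,[(0,0),(3,0),(4,0),(12,0),(21,0)]⟩ ⟨2,[(18,0),(5,1),(9,0),(2,0),(12,2)]⟩),⟨true,0,⟨0,
  []⟩,⟨0,[(52,0)]⟩⟩,⟨false,0,⟨0,[(48,0)]⟩,⟨0,[(47,0),(2,0)]⟩⟩,⟨false,1,⟨0,[(47,0),(2,0)]⟩,⟨0,[(48,
  0)]⟩⟩,⟨true,0,⟨0,[(52,0)]⟩,⟨0,[]⟩⟩,[.o ⟨false,(-1),⟨0,[(0,0)]⟩,⟨2,[(4,0),(1,0),(11,0),(10,1),(20,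
  2)]⟩⟩,.a ⟨true,(-1),⟨0,[(2,0),(6,0)]⟩,⟨1,[(4,1),(1,0),(5,0),(8,0),(18,0),(1,0),(7,0)]⟩⟩ ⟨true,0,
  ⟨0,[]⟩,⟨1,[(36,0),(0,0)]⟩⟩ ⟨false,0,⟨4,[(0,0),(3,0),(4,0),(12,0),(21,0)]⟩,⟨0,[(47,0),(2,0)]⟩⟩,.o
  ⟨false,0,⟨0,[(2,0)]⟩,⟨0,[(29,0)]⟩⟩,.o ⟨false,0,⟨0,[(5,0)]⟩,⟨0,[(4,0)]⟩⟩]⟩) (.R ⟨2,true,false,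
  false,[0,1],[0,0,0,0,1],[0,1,1],(⟨0,[]⟩,⟨0,[]⟩),(⟨0,[(32,0)]⟩,⟨0,[(31,0)]⟩),⟨0,[]⟩,.k,.k,.k,(.r
  (-1) ⟨6,[(0,4),(4,4),(18,0),(4,1),(0,1),(3,0),(2,0),(9,0)]⟩ ⟨6,[(9,1),(10,1),(1,1),(12,1),(10,
  0)]⟩),.k,.k,⟨true,0,⟨1,[(36,0),(0,0)]⟩,⟨0,[]⟩⟩,⟨false,0,⟨0,[(30,0)]⟩,⟨0,[(4,0)]⟩⟩,⟨false,0,⟨0,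
  [(48,0)]⟩,⟨9,[(0,1),(9,3),(6,3),(8,1),(2,0),(0,2),(19,2)]⟩⟩,⟨true,(-1),⟨0,[(2,0),(6,0)]⟩,⟨3,[(0,
  0),(9,0),(8,0),(9,2)]⟩⟩,⟨true,0,⟨0,[(52,0)]⟩,⟨0,[]⟩⟩,⟨false,0,⟨0,[(30,0)]⟩,⟨0,[(0,0),(8,0),(35,
  0)]⟩⟩,[]⟩)) (.R ⟨0,false,false,false,[0,0,0,0,1],[0,1],[1,0,2,1],(⟨0,[(31,0)]⟩,⟨0,[(30,0)]⟩),(⟨0,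
  [(42,0)]⟩,⟨0,[(41,0)]⟩),⟨0,[(0,0)]⟩,.k,.k,(.r 0 ⟨6,[(8,1),(10,1),(1,1),(12,1),(10,0)]⟩ ⟨2,[(17,0),
  (5,1),(9,0),(2,0),(12,2)]⟩),(.r 0 ⟨6,[(8,1),(10,1),(1,1),(12,1),(10,0)]⟩ ⟨2,[(17,0),(5,1),(9,0),
  (2,0),(12,2)]⟩),.k,.k,⟨false,0,⟨0,[]⟩,⟨1,[(28,0),(0,0),(18,0)]⟩⟩,⟨true,1,⟨0,[(3,0)]⟩,⟨0,[(2,0)]⟩⟩,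
  ⟨true,0,⟨0,[(12,0),(1,0)]⟩,⟨6,[(8,2),(10,2),(1,2),(12,2),(10,4)]⟩⟩,⟨false,2,⟨2,[(3,0),(1,0),(11,
  0),(10,1),(20,2)]⟩,⟨0,[(1,0),(6,0)]⟩⟩,⟨false,0,⟨0,[]⟩,⟨0,[]⟩⟩,⟨false,0,⟨0,[]⟩,⟨0,[]⟩⟩,[.o ⟨false,
  1,⟨7,[(9,3),(6,3),(8,1),(2,0),(0,0),(14,2)]⟩,⟨0,[(47,0)]⟩⟩,.a ⟨true,1,⟨0,[(46,0),(2,0)]⟩,⟨0,[(8,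
  0)]⟩⟩ ⟨true,0,⟨0,[(12,0),(1,0)]⟩,⟨6,[(8,1),(10,1),(1,1),(12,1),(10,0)]⟩⟩ ⟨false,2,⟨5,[(3,1),(1,1),
  (11,1),(10,3),(19,2),(0,2)]⟩,⟨0,[(1,0),(6,0)]⟩⟩,.o ⟨false,0,⟨0,[(1,0)]⟩,⟨0,[(28,0)]⟩⟩,.o ⟨false,0,
  ⟨0,[(4,0)]⟩,⟨0,[(3,0)]⟩⟩]⟩)))))))) (.Q [0,0,2,0,0,0,1,0,0,-1,1] (.p true [0,0,1] [1] (⟨0,[(31,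
  0)]⟩,⟨0,[(30,0)]⟩) .k 1 (⟨0,[]⟩,⟨0,[]⟩) .k .k) (.R ⟨0,false,false,false,[0,-1,1],[1,-1],[0,0,-1,
  -1,0,0,0,1],(⟨0,[(21,0)]⟩,⟨0,[(1,0),(33,0)]⟩),(⟨0,[(35,0)]⟩,⟨0,[(36,0)]⟩),⟨0,[(1,0)]⟩,.k,.k,(.r
  (-1) ⟨7,[(6,1),(4,1),(3,5),(3,1),(7,3),(10,0),(4,0)]⟩ ⟨2,[(6,0),(1,3),(2,0),(5,0)]⟩),.k,.k,.k,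
  ⟨true,0,⟨13,[(5,1),(0,3),(4,5),(1,2),(1,1),(3,0),(7,0)]⟩,⟨0,[(9,0)]⟩⟩,⟨false,0,⟨0,[(26,0)]⟩,⟨0,
  [(10,0),(2,0)]⟩⟩,⟨false,1,⟨1,[(22,0),(0,0),(19,0)]⟩,⟨0,[]⟩⟩,⟨true,0,⟨3,[(2,0),(2,0),(2,0),(1,1),
  (15,1),(1,0)]⟩,⟨0,[(13,0)]⟩⟩,⟨false,0,⟨0,[]⟩,⟨0,[]⟩⟩,⟨false,0,⟨0,[]⟩,⟨0,[]⟩⟩,[.o ⟨false,0,⟨0,[(41,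
  0)]⟩,⟨7,[(3,3),(6,3),(8,1),(2,0),(0,0),(14,2)]⟩⟩,.e ⟨false,1,⟨0,[(3,0),(1,0),(9,0),(27,0)]⟩,⟨0,
  [(17,0)]⟩⟩ ⟨false,1,⟨17,[(10,1),(4,5),(3,1),(6,15),(0,1),(14,0),(0,8)]⟩,⟨0,[(8,0),(4,0)]⟩⟩,.a
  ⟨true,0,⟨0,[(29,0)]⟩,⟨0,[(26,0)]⟩⟩ ⟨false,1,⟨39,[(6,13),(4,13),(3,17),(3,5),(7,11),(10,2),(4,
  18)]⟩,⟨0,[(8,0)]⟩⟩ ⟨true,0,⟨7,[(2,1),(2,0),(9,1),(3,1),(6,2),(16,0)]⟩,⟨0,[(8,0),(4,0)]⟩⟩,.o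
  ⟨false,0,⟨0,[(0,0)]⟩,⟨1,[(26,1),(11,0),(3,0)]⟩⟩]⟩) (.Q [0,0,2,0,0,0,2,1,0,-1,2] (.p true [0,0,1]
  [1,0,-1] (⟨0,[(32,0)]⟩,⟨0,[(31,0)]⟩) .k 2 (⟨0,[(31,0)]⟩,⟨0,[(32,0)]⟩) .k (.r 0 ⟨6,[(5,1),(0,3),(4,
  5),(1,2),(1,1),(3,0),(7,0)]⟩ ⟨1,[(8,1),(1,0),(4,0),(1,0)]⟩)) (.R ⟨0,false,false,true,[0,-1,1],[1,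
  0,-1],[1,1,0,0,0,0,0,-1],(⟨0,[(22,0)]⟩,⟨0,[(2,0),(33,0)]⟩),(⟨0,[(32,0)]⟩,⟨0,[(33,0)]⟩),⟨0,[(2,
  0)]⟩,.k,.k,(.r (-1) ⟨7,[(7,1),(4,1),(3,5),(3,1),(7,3),(10,0),(4,0)]⟩ ⟨2,[(7,0),(1,3),(2,0),(5,
  0)]⟩),(.r 0 ⟨2,[(1,1),(4,0),(0,2),(6,2),(1,0)]⟩ ⟨0,[(11,0),(6,0)]⟩),.k,.k,⟨true,0,⟨0,[]⟩,⟨1,[(30,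
  0),(0,0)]⟩⟩,⟨false,0,⟨0,[(1,0),(15,0)]⟩,⟨2,[(0,1),(3,0),(6,1),(4,0),(1,0),(11,0)]⟩⟩,⟨true,0,⟨6,
  [(3,1),(5,13),(4,1),(1,1),(12,1),(10,0)]⟩,⟨2,[(1,1),(4,0),(0,2),(6,2),(1,0)]⟩⟩,⟨false,0,⟨2,[(1,2),
  (4,1),(2,2),(0,0),(0,0),(17,0),(9,0)]⟩,⟨2,[(0,0),(6,0),(6,1),(0,1),(0,0),(27,1)]⟩⟩,⟨false,0,⟨0,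
  []⟩,⟨0,[]⟩⟩,⟨false,0,⟨0,[]⟩,⟨0,[]⟩⟩,[.o ⟨false,0,⟨0,[(29,0)]⟩,⟨0,[(14,0),(29,0)]⟩⟩,.a ⟨true,0,⟨4,
  [(1,0),(1,0),(2,1),(4,2),(6,0),(8,0),(1,0)]⟩,⟨0,[(15,0)]⟩⟩ ⟨false,1,⟨3,[(11,2),(4,0),(1,0),(21,
  1)]⟩,⟨13,[(6,1),(0,3),(4,5),(1,2),(1,1),(3,0),(7,0)]⟩⟩ ⟨true,0,⟨2,[(1,2),(4,1),(3,0),(0,0),(17,0),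
  (9,0)]⟩,⟨0,[(0,0)]⟩⟩,.a ⟨true,0,⟨0,[(30,0)]⟩,⟨0,[(27,0)]⟩⟩ ⟨true,0,⟨6,[(3,1),(5,6),(4,1),(1,1),
  (12,1),(10,0)]⟩,⟨13,[(6,1),(0,3),(4,5),(1,2),(1,1),(3,0),(7,0)]⟩⟩ ⟨false,0,⟨2,[(1,2),(4,1),(3,0),
  (0,0),(17,0),(9,0)]⟩,⟨1,[(0,1),(42,0),(0,0)]⟩⟩,.a ⟨true,0,⟨1,[(30,2),(0,0)]⟩,⟨0,[(1,0)]⟩⟩ ⟨false,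
  1,⟨3,[(11,2),(4,0),(1,0),(21,1)]⟩,⟨0,[(7,0)]⟩⟩ ⟨true,0,⟨0,[(1,0),(27,0)]⟩,⟨0,[(0,0)]⟩⟩]⟩) (.R ⟨0,
  false,false,true,[0,-1,1],[1,0,-1],[1,1,0,0,0,0,0,-1],(⟨0,[(22,0)]⟩,⟨0,[(2,0),(33,0)]⟩),(⟨0,[(32,
  0)]⟩,⟨0,[(33,0)]⟩),⟨0,[(2,0)]⟩,.k,.k,(.r (-1) ⟨7,[(7,1),(4,1),(3,5),(3,1),(7,3),(10,0),(4,0)]⟩ ⟨2,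
  [(7,0),(1,3),(2,0),(5,0)]⟩),(.r 0 ⟨2,[(1,1),(4,0),(0,2),(6,2),(1,0)]⟩ ⟨0,[(11,0),(6,0)]⟩),.k,.k,
  ⟨true,0,⟨0,[]⟩,⟨1,[(30,0),(0,0)]⟩⟩,⟨false,0,⟨0,[(1,0),(15,0)]⟩,⟨0,[(11,0),(2,0),(15,0)]⟩⟩,⟨true,0,
  ⟨6,[(3,1),(5,13),(4,1),(1,1),(12,1),(10,0)]⟩,⟨2,[(1,1),(4,0),(0,2),(6,2),(1,0)]⟩⟩,⟨false,0,⟨4,[(0,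
  2),(5,0),(2,4),(1,0),(8,0),(8,0)]⟩,⟨0,[(14,0),(0,0),(26,0),(1,0)]⟩⟩,⟨false,0,⟨0,[]⟩,⟨0,[]⟩⟩,
  ⟨false,0,⟨0,[]⟩,⟨0,[]⟩⟩,[.o ⟨false,0,⟨0,[(29,0)]⟩,⟨0,[(14,0),(29,0)]⟩⟩,.e ⟨false,1,⟨3,[(11,2),(4,
  0),(1,0),(21,1)]⟩,⟨13,[(6,1),(0,3),(4,5),(1,2),(1,1),(3,0),(7,0)]⟩⟩ ⟨false,0,⟨0,[(0,0)]⟩,⟨1,[(28,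
  1),(1,1),(8,0),(4,0)]⟩⟩,.a ⟨true,0,⟨0,[(30,0)]⟩,⟨0,[(27,0)]⟩⟩ ⟨true,0,⟨6,[(3,1),(5,6),(4,1),(1,1),
  (12,1),(10,0)]⟩,⟨13,[(6,1),(0,3),(4,5),(1,2),(1,1),(3,0),(7,0)]⟩⟩ ⟨false,0,⟨4,[(0,2),(5,0),(4,0),
  (8,0),(8,0)]⟩,⟨0,[(14,0),(15,0),(13,0)]⟩⟩,.e ⟨false,1,⟨3,[(11,2),(4,0),(1,0),(21,1)]⟩,⟨0,[(7,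
  0)]⟩⟩ ⟨false,0,⟨0,[(0,0)]⟩,⟨1,[(7,0),(20,0),(1,2),(8,0),(4,0)]⟩⟩]⟩))))))))

theorem ok93 : chk K t93 l54 = true := by decide +kernel

noncomputable def t94 : Tre :=
  (.Q [0,0,2,0,0,0,1,0,0,-1,1] (.p true [0,0,1] [1] (⟨0,[(27,0)]⟩,⟨0,[(26,0)]⟩) .k 1 (⟨0,[]⟩,⟨0,
  []⟩) .k .k) (.Q [0,0,0,0,0,2,0,0,0,0,-1] (.p false [0,0,1] [] (⟨0,[(28,0)]⟩,⟨0,[(27,0)]⟩) .k 0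
  (⟨0,[]⟩,⟨0,[]⟩) .k .k) (.R ⟨0,false,false,false,[0,-1,1],[1,-1],[0,0,-1,-1,0,0,0,1],(⟨0,[(18,0)]⟩,
  ⟨0,[(0,0),(31,0)]⟩),(⟨0,[(32,0)]⟩,⟨0,[(33,0)]⟩),⟨0,[(0,0)]⟩,.k,.k,(.r (-1) ⟨1,[(2,0),(9,0),(11,0),
  (2,0),(12,0)]⟩ ⟨3,[(5,5),(2,1),(17,0),(0,0)]⟩),.k,.k,.k,⟨true,0,⟨0,[(8,0),(29,0)]⟩,⟨0,[(6,0)]⟩⟩,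
  ⟨false,0,⟨0,[(23,0)]⟩,⟨0,[(7,0),(2,0)]⟩⟩,⟨false,1,⟨1,[(19,0),(0,0),(19,0)]⟩,⟨0,[]⟩⟩,⟨true,0,⟨0,
  [(6,0),(16,0)]⟩,⟨0,[(10,0)]⟩⟩,⟨false,0,⟨0,[]⟩,⟨0,[]⟩⟩,⟨false,0,⟨0,[]⟩,⟨0,[]⟩⟩,[.o ⟨false,0,⟨0,
  [(38,0)]⟩,⟨1,[(35,0),(1,1),(2,0)]⟩⟩,.e ⟨false,1,⟨0,[(2,0),(37,0)]⟩,⟨0,[(14,0)]⟩⟩ ⟨false,1,⟨17,[(7,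
  1),(4,5),(3,1),(6,15),(0,1),(14,0),(0,8)]⟩,⟨0,[(5,0),(4,0)]⟩⟩,.a ⟨true,0,⟨0,[(26,0)]⟩,⟨0,[(23,
  0)]⟩⟩ ⟨false,1,⟨5,[(2,2),(8,1),(0,0),(11,0),(2,2),(12,4)]⟩,⟨0,[(5,0)]⟩⟩ ⟨true,0,⟨0,[(23,0),(14,
  0)]⟩,⟨0,[(5,0),(4,0)]⟩⟩,.o ⟨false,0,⟨0,[(1,0)]⟩,⟨1,[(23,1),(11,0),(3,0)]⟩⟩]⟩) (.R ⟨1,false,false,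
  false,[0,-1,1],[1,-1],[1,0,-1,-1,0,0,0,1],(⟨0,[(18,0)]⟩,⟨0,[(28,0),(1,0)]⟩),(⟨0,[(32,0)]⟩,⟨0,[(33,
  0)]⟩),⟨0,[(0,0)]⟩,.k,.k,(.r (-1) ⟨1,[(2,0),(9,0),(11,0),(2,0),(12,0)]⟩ ⟨3,[(5,5),(2,1),(17,0),(0,
  0)]⟩),.k,.k,.k,⟨true,0,⟨0,[(8,0),(29,0)]⟩,⟨0,[(6,0)]⟩⟩,⟨false,0,⟨0,[(23,0)]⟩,⟨0,[(7,0),(2,0)]⟩⟩,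
  ⟨true,0,⟨0,[]⟩,⟨0,[(42,0)]⟩⟩,⟨true,0,⟨0,[(6,0),(16,0)]⟩,⟨0,[(10,0)]⟩⟩,⟨false,1,⟨0,[(37,0),(2,0)]⟩,
  ⟨0,[(38,0)]⟩⟩,⟨true,0,⟨0,[(5,0),(17,0)]⟩,⟨0,[(10,0),(27,0)]⟩⟩,[.o ⟨false,0,⟨0,[(38,0)]⟩,⟨1,[(35,
  0),(1,1),(2,0)]⟩⟩,.e ⟨false,1,⟨0,[(2,0),(37,0)]⟩,⟨0,[(14,0)]⟩⟩ ⟨false,1,⟨17,[(7,1),(4,5),(3,1),(6,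
  15),(0,1),(14,0),(0,8)]⟩,⟨0,[(5,0),(4,0)]⟩⟩,.a ⟨true,0,⟨0,[(26,0)]⟩,⟨0,[(23,0)]⟩⟩ ⟨false,1,⟨5,[(2,
  2),(8,1),(0,0),(11,0),(2,2),(12,4)]⟩,⟨0,[(4,0)]⟩⟩ ⟨true,0,⟨0,[(23,0),(14,0)]⟩,⟨0,[(5,0),(4,0)]⟩⟩,
  .o ⟨false,0,⟨0,[(1,0)]⟩,⟨1,[(23,1),(11,0),(3,0)]⟩⟩]⟩)) (.Q [0,0,-1,0,1,0,2,0,0,-1,2] (.p true [0,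
  0,1] [1,0,-1] (⟨0,[(28,0)]⟩,⟨0,[(27,0)]⟩) .k 2 (⟨0,[(27,0)]⟩,⟨0,[(28,0)]⟩) .k (.r 0 ⟨0,[(7,1),(29,
  1)]⟩ ⟨5,[(2,1),(2,1),(0,4),(4,0),(1,2)]⟩)) (.Q [0,1,0,1,0,0,2,2,0,-1,2] (.p true [0,0,1] [1,0,-1]
  (⟨0,[(29,0)]⟩,⟨0,[(28,0)]⟩) .k 2 (⟨0,[(28,0)]⟩,⟨0,[(29,0)]⟩) .k (.r 0 ⟨0,[(8,1),(29,1)]⟩ ⟨5,[(3,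
  1),(2,1),(0,4),(4,0),(1,2)]⟩)) (.Q [0,-1,0,-1,0,0,-1,-1,0,1,-1] (.p false [0,0,1] [1] (⟨0,[(30,
  0)]⟩,⟨0,[(29,0)]⟩) .k 1 (⟨0,[]⟩,⟨0,[]⟩) .k .k) (.Q [0,0,-2,0,1,0,0,0,0,-1] (.pp true [-1,1]) (.R
  ⟨1,false,false,true,[1,-1],[0,-1,1],[1,1],(⟨0,[(35,0)]⟩,⟨0,[(36,0)]⟩),(⟨0,[(21,0)]⟩,⟨0,[(31,0),(1,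
  0)]⟩),⟨0,[(20,0),(0,0)]⟩,.k,.k,(.r (-1) ⟨2,[(15,1),(6,0),(0,0)]⟩ ⟨1,[(8,1),(2,1),(17,0),(0,0)]⟩),
  .k,.k,.k,⟨true,0,⟨0,[(8,0)]⟩,⟨0,[(11,0),(29,1)]⟩⟩,⟨false,1,⟨3,[(3,1),(34,0),(3,0)]⟩,⟨1,[(19,0),
  (13,0),(1,0)]⟩⟩,⟨false,0,⟨3,[(8,1),(2,1),(17,0),(0,0)]⟩,⟨5,[(15,1),(6,0),(0,0),(19,2)]⟩⟩,⟨true,0,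
  ⟨0,[(13,0)]⟩,⟨1,[(1,0),(15,0),(8,0)]⟩⟩,⟨false,0,⟨0,[(8,0),(2,0)]⟩,⟨3,[(15,1),(13,0),(0,0),(10,1),
  (1,1)]⟩⟩,⟨false,1,⟨3,[(2,1),(19,0),(0,0),(14,0),(1,1),(2,1)]⟩,⟨0,[(1,0)]⟩⟩,[.o ⟨false,0,⟨0,[(13,
  0),(27,0)]⟩,⟨0,[(12,0),(30,0)]⟩⟩,.a ⟨true,0,⟨0,[(14,0),(26,0)]⟩,⟨0,[(8,0),(17,0)]⟩⟩ ⟨true,0,⟨0,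
  []⟩,⟨1,[(29,0),(0,0)]⟩⟩ ⟨false,1,⟨0,[(0,0),(13,0),(26,0)]⟩,⟨1,[(8,1),(10,0),(13,0),(1,0)]⟩⟩,.o
  ⟨false,0,⟨1,[(29,0),(0,0)]⟩,⟨1,[(38,0),(3,0)]⟩⟩,.o ⟨false,0,⟨0,[(29,0),(0,0)]⟩,⟨0,[(0,0)]⟩⟩]⟩)
  (.I [1,-1,-2,-1,1] (.R ⟨1,false,false,true,[1,-1],[0,-1,1],[1,1,-1,-1,0,0,0,1],(⟨0,[(36,0)]⟩,⟨0,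
  [(37,0)]⟩),(⟨0,[(22,0)]⟩,⟨0,[(32,0),(1,0)]⟩),⟨0,[(21,0),(0,0)]⟩,.k,.k,(.r (-1) ⟨2,[(16,1),(6,0),
  (0,0)]⟩ ⟨8,[(1,1),(1,1),(5,7),(2,5),(5,1),(12,3),(12,1)]⟩),.k,.k,.k,⟨true,0,⟨0,[]⟩,⟨1,[(30,0),(0,
  0)]⟩⟩,⟨false,1,⟨3,[(4,1),(34,0),(3,0)]⟩,⟨4,[(1,0),(9,0),(8,1),(6,1),(0,0)]⟩⟩,⟨false,0,⟨3,[(1,1),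
  (4,1),(5,1),(26,0),(4,0)]⟩,⟨0,[(11,0)]⟩⟩,⟨true,0,⟨0,[(14,0)]⟩,⟨1,[(2,0),(15,0),(8,0)]⟩⟩,⟨false,0,
  ⟨0,[(12,0)]⟩,⟨5,[(1,1),(8,1),(0,3),(4,1),(22,0),(4,0)]⟩⟩,⟨false,1,⟨3,[(3,1),(19,0),(0,0),(14,0),
  (1,1),(2,1)]⟩,⟨0,[(2,0)]⟩⟩,[.o ⟨false,0,⟨0,[(14,0),(27,0)]⟩,⟨0,[(13,0),(30,0)]⟩⟩,.e ⟨false,1,⟨3,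
  [(3,1),(12,1),(3,1),(22,0),(0,0)]⟩,⟨0,[(8,0)]⟩⟩ ⟨false,1,⟨0,[(0,0),(13,0)]⟩,⟨2,[(1,0),(7,1),(1,0),
  (8,0),(6,0),(13,0)]⟩⟩,.o ⟨false,0,⟨1,[(30,0),(0,0)]⟩,⟨1,[(39,0),(3,0)]⟩⟩,.a ⟨true,(-1),⟨0,[(1,
  0)]⟩,⟨0,[(43,0)]⟩⟩ ⟨true,0,⟨0,[(6,0)]⟩,⟨1,[(9,1),(20,0),(0,0)]⟩⟩ ⟨false,1,⟨0,[(0,0),(13,0)]⟩,⟨1,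
  [(1,0),(7,1),(10,0),(23,0)]⟩⟩]⟩) (.I [1,1,2,2,-1] (.R ⟨1,false,false,true,[1,-1],[0,-1,1],[1,1,-1,
  -1,0,0,0,1],(⟨0,[(37,0)]⟩,⟨0,[(38,0)]⟩),(⟨0,[(23,0)]⟩,⟨0,[(33,0),(1,0)]⟩),⟨0,[(22,0),(0,0)]⟩,.k,
  .k,(.r (-1) ⟨2,[(17,1),(6,0),(0,0)]⟩ ⟨6,[(0,4),(3,0),(14,2),(1,0),(7,0),(2,0),(12,4)]⟩),.k,.k,.k,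
  ⟨true,0,⟨0,[]⟩,⟨1,[(31,0),(0,0)]⟩⟩,⟨false,1,⟨3,[(5,1),(34,0),(3,0)]⟩,⟨4,[(2,0),(9,0),(8,1),(6,1),
  (0,0)]⟩⟩,⟨false,0,⟨3,[(2,1),(4,1),(5,1),(26,0),(4,0)]⟩,⟨0,[(12,0)]⟩⟩,⟨true,0,⟨0,[(15,0)]⟩,⟨1,[(3,
  0),(15,0),(8,0)]⟩⟩,⟨false,0,⟨0,[(13,0)]⟩,⟨5,[(2,1),(8,1),(0,3),(4,1),(22,0),(4,0)]⟩⟩,⟨false,1,⟨3,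
  [(4,1),(19,0),(0,0),(14,0),(1,1),(2,1)]⟩,⟨0,[(3,0)]⟩⟩,[.o ⟨false,0,⟨0,[(15,0),(27,0)]⟩,⟨0,[(14,0),
  (30,0)]⟩⟩,.a ⟨true,0,⟨0,[(16,0),(26,0)]⟩,⟨0,[(10,0),(17,0)]⟩⟩ ⟨false,1,⟨3,[(4,1),(12,1),(3,1),(22,
  0),(0,0)]⟩,⟨0,[(9,0)]⟩⟩ ⟨true,1,⟨5,[(15,3),(1,1),(11,1),(10,0),(4,2)]⟩,⟨0,[(0,0),(2,0)]⟩⟩,.o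
  ⟨false,0,⟨1,[(31,0),(0,0)]⟩,⟨1,[(40,0),(3,0)]⟩⟩,.e ⟨true,0,⟨0,[(7,0)]⟩,⟨3,[(0,0),(1,1),(7,0),(1,
  1),(6,0),(20,0)]⟩⟩ ⟨true,1,⟨21,[(4,7),(12,9),(11,5),(9,3),(0,6),(3,4)]⟩,⟨0,[(0,0),(2,0)]⟩⟩]⟩) (.R
  ⟨1,false,false,true,[1,-1],[0,1],[0,0,-1,-2],(⟨0,[(37,0)]⟩,⟨0,[(38,0)]⟩),(⟨0,[(38,0)]⟩,⟨0,[(37,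
  0)]⟩),⟨0,[(22,0),(0,0)]⟩,.k,.k,(.r (-1) ⟨2,[(17,1),(6,0),(0,0)]⟩ ⟨2,[(1,1),(11,1),(5,1),(25,1)]⟩),
  (.r (-1) ⟨2,[(17,1),(6,0),(0,0)]⟩ ⟨2,[(1,1),(11,1),(5,1),(25,1)]⟩),(.r (-1) ⟨0,[(17,0)]⟩ ⟨0,[(1,
  0),(11,0),(5,0),(25,0)]⟩),.k,⟨true,1,⟨0,[(0,0),(42,0)]⟩,⟨0,[(1,0),(8,0),(2,0)]⟩⟩,⟨false,2,⟨1,[(40,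
  0),(3,2)]⟩,⟨0,[(2,0)]⟩⟩,⟨true,0,⟨0,[(43,0)]⟩,⟨0,[(42,0)]⟩⟩,⟨false,1,⟨1,[(10,0),(2,0),(26,0),(0,0),
  (0,0),(2,0)]⟩,⟨0,[(0,0),(1,0)]⟩⟩,⟨false,1,⟨1,[(24,0),(0,0),(19,0)]⟩,⟨0,[]⟩⟩,⟨false,1,⟨1,[(10,1),
  (2,1),(26,0),(0,1),(3,0)]⟩,⟨0,[(0,0),(1,0),(40,0)]⟩⟩,[.e ⟨false,1,⟨2,[(17,1),(6,0),(0,0)]⟩,⟨0,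
  [(10,0),(2,0)]⟩⟩ ⟨false,1,⟨1,[(40,0),(0,1),(2,0)]⟩,⟨29,[(2,28),(9,3),(4,9),(3,0),(7,3),(2,1),(12,
  14)]⟩⟩,.o ⟨false,1,⟨1,[(40,0),(1,1),(2,0)]⟩,⟨0,[(43,0)]⟩⟩,.o ⟨false,0,⟨1,[(31,0),(0,0)]⟩,⟨1,[(40,
  0),(3,0)]⟩⟩,.a ⟨true,(-1),⟨0,[(2,0)]⟩,⟨0,[(44,0)]⟩⟩ ⟨false,1,⟨0,[(0,0)]⟩,⟨2,[(1,1),(11,1),(5,1),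
  (25,1)]⟩⟩ ⟨true,1,⟨1,[(40,0),(0,1),(2,0)]⟩,⟨0,[(2,0),(40,0)]⟩⟩]⟩)))) (.Q [0,0,-2,0,1,0,1,0,0,-1,
  1] (.p true [0,0,1] [1] (⟨0,[(31,0)]⟩,⟨0,[(30,0)]⟩) .k 1 (⟨0,[]⟩,⟨0,[]⟩) .k .k) (.Q [0,-1,0,-2,0,
  0,-1,-1,0,1,-1] (.p false [0,0,1] [1] (⟨0,[(32,0)]⟩,⟨0,[(31,0)]⟩) .k 1 (⟨0,[]⟩,⟨0,[]⟩) .k .k) (.R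
  ⟨1,false,false,true,[1,-1],[0,0,1],[0,1,1],(⟨0,[(36,0)]⟩,⟨0,[(37,0)]⟩),(⟨0,[(33,0)]⟩,⟨0,[(32,
  0)]⟩),⟨0,[(21,0),(0,0)]⟩,.k,.k,(.r (-1) ⟨2,[(16,1),(6,0),(0,0)]⟩ ⟨1,[(9,1),(2,1),(17,0),(0,0)]⟩),
  .k,(.r (-1) ⟨2,[(7,0),(2,0),(0,0),(4,1)]⟩ ⟨3,[(9,1),(2,5),(17,2),(0,2)]⟩),.k,⟨true,0,⟨0,[(10,0)]⟩,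
  ⟨1,[(0,0),(11,1),(1,0)]⟩⟩,⟨false,1,⟨0,[(1,0)]⟩,⟨0,[(20,0),(9,0)]⟩⟩,⟨false,0,⟨3,[(9,1),(2,1),(17,
  2),(0,2)]⟩,⟨5,[(0,1),(0,2),(3,0),(0,1),(37,2)]⟩⟩,⟨true,0,⟨0,[(2,0)]⟩,⟨15,[(0,10),(17,5),(1,0),(6,
  3),(0,0),(9,1)]⟩⟩,⟨false,0,⟨1,[(9,1),(2,1),(17,0),(0,0)]⟩,⟨3,[(0,2),(0,1),(4,1),(7,0),(29,1)]⟩⟩,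
  ⟨false,1,⟨0,[(2,0),(38,0),(2,0)]⟩,⟨0,[(0,0)]⟩⟩,[.o ⟨false,0,⟨0,[(14,0)]⟩,⟨4,[(0,0),(10,1),(1,1),
  (6,0),(18,0),(4,1)]⟩⟩,.a ⟨true,0,⟨0,[(15,0)]⟩,⟨2,[(0,0),(8,0),(8,0),(8,1)]⟩⟩ ⟨true,0,⟨1,[(30,0),
  (0,0)]⟩,⟨0,[]⟩⟩ ⟨false,1,⟨9,[(1,5),(1,1),(2,3),(5,1),(26,0),(4,2)]⟩,⟨5,[(0,1),(8,1),(8,1),(1,2),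
  (9,1),(3,0),(1,0)]⟩⟩,.o ⟨false,0,⟨1,[(30,0),(0,0)]⟩,⟨1,[(39,0),(3,0)]⟩⟩,.o ⟨false,0,⟨0,[(30,0),(0,
  0)]⟩,⟨1,[(1,0),(3,0),(33,0)]⟩⟩]⟩) (.Q [0,0,0,0,0,2,0,0,0,-1,1] (.p true [0,0,1] [1] (⟨0,[(33,0)]⟩,
  ⟨0,[(32,0)]⟩) .k 1 (⟨0,[]⟩,⟨0,[]⟩) .k .k) (.R ⟨0,false,false,false,[1,-1,-1],[0,-1,1],[1],(⟨0,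
  [(22,0)]⟩,⟨0,[(0,0),(36,0)]⟩),(⟨0,[(23,0)]⟩,⟨0,[(33,0),(1,0)]⟩),⟨0,[(0,0)]⟩,.k,.k,(.r (-1) ⟨2,[(8,
  0),(2,0),(0,0),(4,1)]⟩ ⟨3,[(10,1),(2,5),(17,2),(0,2)]⟩),.k,.k,.k,⟨true,0,⟨0,[(10,0)]⟩,⟨0,[(13,0),
  (29,1)]⟩⟩,⟨false,1,⟨0,[(5,0)]⟩,⟨0,[(21,0)]⟩⟩,⟨true,0,⟨1,[(13,1),(17,0),(0,0)]⟩,⟨0,[(8,0),(34,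
  0)]⟩⟩,⟨false,1,⟨0,[(15,0),(0,0),(28,0)]⟩,⟨0,[(6,0),(4,1),(6,0)]⟩⟩,⟨false,0,⟨0,[]⟩,⟨0,[]⟩⟩,⟨false,
  0,⟨0,[]⟩,⟨0,[]⟩⟩,[.a ⟨true,0,⟨0,[(16,0),(26,0)]⟩,⟨0,[(10,0),(17,0)]⟩⟩ ⟨true,0,⟨0,[]⟩,⟨1,[(31,0),
  (0,0)]⟩⟩ ⟨false,1,⟨0,[(2,0),(13,0),(26,0)]⟩,⟨0,[(10,0),(10,0)]⟩⟩,.o ⟨false,1,⟨0,[(15,0),(27,0),(1,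
  0)]⟩,⟨0,[(14,0)]⟩⟩,.o ⟨false,0,⟨0,[(32,0)]⟩,⟨3,[(5,1),(34,0),(3,0)]⟩⟩,.o ⟨false,0,⟨1,[(31,0),(0,
  2)]⟩,⟨0,[(2,0)]⟩⟩]⟩) (.I [0,-1,1,0,0,0,0,2] (.R ⟨1,false,false,false,[1,-1,-1],[0,-1,1],[1,1,-1,
  -1,0,0,0,-1],(⟨0,[(23,0)]⟩,⟨0,[(35,0),(0,0)]⟩),(⟨0,[(24,0)]⟩,⟨0,[(34,0),(1,0)]⟩),⟨0,[(1,0)]⟩,.k,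
  .k,(.r (-1) ⟨2,[(9,0),(2,0),(0,0),(4,1)]⟩ ⟨3,[(0,2),(10,1),(2,2),(5,2)]⟩),.k,(.r (-1) ⟨2,[(9,1),
  (2,1),(0,1),(4,0)]⟩ ⟨0,[(0,0),(42,0)]⟩),.k,⟨true,0,⟨0,[(9,0),(2,0)]⟩,⟨0,[(0,0)]⟩⟩,⟨false,1,⟨0,[(6,
  0)]⟩,⟨0,[(22,0)]⟩⟩,⟨false,0,⟨0,[]⟩,⟨1,[(25,0),(0,0),(19,0)]⟩⟩,⟨false,1,⟨0,[(0,0),(5,0)]⟩,⟨0,[(7,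
  0),(4,1),(6,0)]⟩⟩,⟨true,0,⟨0,[(43,0)]⟩,⟨0,[(44,0)]⟩⟩,⟨false,1,⟨0,[(5,0),(40,0)]⟩,⟨0,[(7,0),(4,1),
  (6,0),(24,0)]⟩⟩,[.a ⟨true,0,⟨0,[(17,0),(26,0)]⟩,⟨0,[(11,0),(17,0)]⟩⟩ ⟨true,0,⟨0,[(9,0),(34,0)]⟩,
  ⟨0,[(0,0),(10,0)]⟩⟩ ⟨false,1,⟨0,[(3,0),(13,0),(26,0)]⟩,⟨0,[(11,0),(10,0)]⟩⟩,.o ⟨false,1,⟨3,[(0,1),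
  (5,1),(34,0),(2,3),(1,0)]⟩,⟨0,[(15,0)]⟩⟩,.o ⟨false,0,⟨0,[(33,0)]⟩,⟨3,[(6,1),(34,0),(3,0)]⟩⟩,.o
  ⟨false,0,⟨1,[(32,0),(0,2)]⟩,⟨0,[(3,0)]⟩⟩]⟩) (.Q [0,1,0,0,-1,0,0,0,1,-1,0,1] (.p true [0,0,0,0,1]
  [1] (⟨0,[(28,0)]⟩,⟨0,[(27,0)]⟩) .k 1 (⟨0,[]⟩,⟨0,[]⟩) .k .k) (.R ⟨1,false,false,true,[0,0,1],[1,0,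
  0,0,-1],[1,0,0,0,0,0,0,1],(⟨0,[(36,0)]⟩,⟨0,[(35,0)]⟩),(⟨0,[(28,0)]⟩,⟨0,[(29,0)]⟩),⟨0,[(25,0)]⟩,.k,
  .k,.k,.k,(.r 0 ⟨2,[(9,1),(21,0),(2,0),(10,0)]⟩ ⟨0,[(21,0),(25,0)]⟩),.k,⟨true,0,⟨0,[(15,0),(29,
  0)]⟩,⟨0,[(13,0)]⟩⟩,⟨false,1,⟨0,[(26,0),(3,0)]⟩,⟨2,[(0,1),(6,0),(19,0),(5,0),(13,0)]⟩⟩,⟨true,0,⟨0,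
  []⟩,⟨0,[(49,0)]⟩⟩,⟨true,1,⟨0,[(13,0),(12,0),(3,0)]⟩,⟨0,[(0,0),(17,0)]⟩⟩,⟨false,1,⟨0,[(44,0),(2,
  0)]⟩,⟨0,[(45,0)]⟩⟩,⟨true,1,⟨0,[(12,0),(13,0),(3,0)]⟩,⟨0,[(0,0),(17,0),(26,0)]⟩⟩,[.o ⟨false,1,⟨0,
  [(26,0)]⟩,⟨3,[(0,1),(26,1),(14,0),(4,0)]⟩⟩,.o ⟨false,2,⟨1,[(26,2),(0,0),(19,0)]⟩,⟨0,[(0,0)]⟩⟩,.o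
  ⟨false,1,⟨4,[(7,0),(6,1),(16,1),(1,0),(8,1)]⟩,⟨0,[(20,0)]⟩⟩,.a ⟨true,0,⟨0,[(33,0)]⟩,⟨0,[(30,0)]⟩⟩
  ⟨false,1,⟨5,[(6,1),(2,1),(13,1),(22,0),(0,4)]⟩,⟨0,[(13,0)]⟩⟩ ⟨true,1,⟨0,[(26,0),(3,0)]⟩,⟨0,[(0,0),
  (32,0)]⟩⟩]⟩) (.Q [0,-1,0,0,1,0,0,0,-1,0,0,-1] (.p false [0,0,0,0,1] [] (⟨0,[(29,0)]⟩,⟨0,[(28,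
  0)]⟩) .k 0 (⟨0,[]⟩,⟨0,[]⟩) .k .k) (.Q [0,0,0,0,0,0,0,0,-1,1,0,-1] (.p false [0,0,0,0,1] [1] (⟨0,
  [(30,0)]⟩,⟨0,[(29,0)]⟩) .k 1 (⟨0,[]⟩,⟨0,[]⟩) .k .k) (.Q [0,1,0,1,0,0,0,0,1,-1,0,1] (.p true [0,0,
  0,0,1] [1] (⟨0,[(31,0)]⟩,⟨0,[(30,0)]⟩) .k 1 (⟨0,[]⟩,⟨0,[]⟩) .k .k) (.Q [0,0,0,0,0,-1,0,0,0,0,0,1]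
  (.ed false [1,-1,0,0,1] .k) (.Q [0,0,-1,0,0,0,0,0,-1,1,0,-1] (.p false [0,0,0,0,1] [1] (⟨0,[(33,
  0)]⟩,⟨0,[(32,0)]⟩) .k 1 (⟨0,[]⟩,⟨0,[]⟩) .k .k) (.S ⟨1,0,[0,-1,1],[1,1,0,0,-1],[1,0,1,1],(⟨0,[(33,
  0),(8,0)]⟩,⟨0,[(1,0)]⟩),⟨0,[(33,0)]⟩,(.r (-1) ⟨4,[(5,0),(5,0),(8,0),(5,2),(5,0),(6,1),(12,3)]⟩ ⟨6,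
  [(6,0),(7,1),(31,1),(3,4)]⟩),.k,⟨false,0,⟨0,[]⟩,⟨3,[(5,1),(26,1),(14,0),(4,0)]⟩⟩,⟨true,0,⟨0,[(50,
  0)]⟩,⟨0,[(49,0)]⟩⟩,⟨true,0,⟨0,[(49,0)]⟩,⟨0,[(50,0)]⟩⟩,⟨false,1,⟨3,[(5,1),(26,1),(14,0),(4,0)]⟩,⟨0,
  []⟩⟩,[.o ⟨false,1,⟨0,[(4,0)]⟩,⟨0,[(2,0),(47,0)]⟩⟩,.e ⟨false,1,⟨0,[(49,0),(2,0)]⟩,⟨6,[(6,0),(7,1),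
  (31,1),(3,4)]⟩⟩ ⟨false,1,⟨0,[(52,0)]⟩,⟨0,[(46,0)]⟩⟩,.a ⟨true,0,⟨0,[(0,0)]⟩,⟨1,[(32,1),(5,0),(0,
  0)]⟩⟩ ⟨true,0,⟨3,[(17,1),(2,1),(17,0),(0,0)]⟩,⟨6,[(6,0),(7,1),(31,1),(3,4)]⟩⟩ ⟨false,1,⟨1,[(38,0),
  (0,0),(12,1)]⟩,⟨8,[(6,0),(7,1),(31,1),(1,1)]⟩⟩,.e ⟨false,1,⟨0,[(49,0),(2,0)]⟩,⟨0,[(50,0)]⟩⟩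
  ⟨false,1,⟨0,[(52,0)]⟩,⟨0,[(54,0)]⟩⟩]⟩) (.S ⟨1,0,[0,0,1],[1,1,0,0,-1],[0,-1,1],(⟨0,[(33,0),(8,0)]⟩,
  ⟨0,[(1,0)]⟩),⟨0,[(33,0)]⟩,(.r (-1) ⟨1,[(0,0),(4,0),(14,0),(5,0),(25,0)]⟩ ⟨6,[(6,0),(7,1),(31,1),
  (3,4)]⟩),.k,⟨true,0,⟨0,[(50,0)]⟩,⟨0,[(49,0)]⟩⟩,⟨false,0,⟨0,[(50,0)]⟩,⟨0,[(49,0),(2,0)]⟩⟩,⟨false,1,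
  ⟨3,[(5,1),(26,1),(14,0),(4,0)]⟩,⟨0,[]⟩⟩,⟨true,0,⟨0,[(54,0)]⟩,⟨0,[]⟩⟩,[.a ⟨true,0,⟨0,[(3,0)]⟩,⟨0,
  [(32,0)]⟩⟩ ⟨false,1,⟨3,[(5,1),(26,1),(14,0),(4,0)]⟩,⟨8,[(6,0),(7,1),(31,1),(1,1)]⟩⟩ ⟨true,0,⟨1,
  [(38,0),(0,0)]⟩,⟨0,[]⟩⟩,.o ⟨false,1,⟨0,[(4,0)]⟩,⟨8,[(0,6),(1,1),(3,0),(7,1),(31,1)]⟩⟩,.o ⟨false,1,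
  ⟨6,[(4,4),(1,0),(7,1),(16,1),(16,1)]⟩,⟨0,[(0,0)]⟩⟩,.e ⟨false,1,⟨0,[(52,0)]⟩,⟨0,[(54,0)]⟩⟩ ⟨false,
  1,⟨3,[(5,1),(26,1),(14,0),(4,0)]⟩,⟨0,[]⟩⟩]⟩)) (.Q [0,0,-1,0,1,0,0,0,-1,-1,0,-1] (.p false [1,-1,0,
  0,1] [] (⟨0,[(33,0),(9,0)]⟩,⟨0,[(0,0)]⟩) (.r 0 ⟨6,[(5,0),(7,1),(31,1),(3,4)]⟩ ⟨4,[(4,0),(5,0),(8,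
  0),(5,2),(5,0),(6,1),(12,3)]⟩) 0 (⟨0,[]⟩,⟨0,[]⟩) .k .k) (.Q [0,0,-1,0,0,0,-1,0,-1,1,-1,-1] (.p
  false [0,0,1,0,1] [1] (⟨0,[(34,0),(6,0)]⟩,⟨0,[(1,0),(27,0)]⟩) .k 1 (⟨0,[]⟩,⟨0,[]⟩) .k (.r 0 ⟨1,
  [(22,0),(5,0),(7,0)]⟩ ⟨0,[(19,0)]⟩)) (.R ⟨0,false,false,true,[0,1,0,0,-1],[1,0,-1,0,-1],[0,0,1,0,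
  0,0,0,-1],(⟨0,[(2,0)]⟩,⟨0,[(35,0),(9,0)]⟩),(⟨0,[(2,0),(27,0)]⟩,⟨0,[(35,0),(6,0)]⟩),⟨0,[(35,0)]⟩,
  (.r (-1) ⟨4,[(6,0),(5,0),(8,0),(5,2),(5,0),(6,1),(12,3)]⟩ ⟨6,[(7,0),(7,1),(31,1),(3,4)]⟩),.k,.k,
  .k,.k,.k,⟨true,0,⟨1,[(39,0),(0,0)]⟩,⟨0,[]⟩⟩,⟨false,0,⟨1,[(29,0),(13,0),(1,0)]⟩,⟨3,[(13,1),(34,0),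
  (3,0)]⟩⟩,⟨true,0,⟨4,[(7,0),(11,2),(27,1),(3,4)]⟩,⟨0,[(21,0)]⟩⟩,⟨false,0,⟨0,[(19,0),(16,0),(14,
  0)]⟩,⟨5,[(9,1),(2,1),(35,0),(4,4)]⟩⟩,⟨false,0,⟨0,[]⟩,⟨0,[]⟩⟩,⟨false,0,⟨0,[]⟩,⟨0,[]⟩⟩,[.a ⟨true,0,
  ⟨0,[(0,0),(18,0)]⟩,⟨0,[(24,0),(8,0)]⟩⟩ ⟨true,0,⟨0,[(19,0)]⟩,⟨0,[(21,0),(29,0)]⟩⟩ ⟨false,0,⟨0,[(19,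
  0),(16,0)]⟩,⟨23,[(6,1),(5,11),(12,3),(7,1),(14,6),(3,5),(0,4)]⟩⟩,.o ⟨false,1,⟨1,[(0,1),(18,1),(28,
  0),(4,0)]⟩,⟨0,[(23,0),(9,0)]⟩⟩,.o ⟨false,1,⟨0,[(1,0)]⟩,⟨1,[(33,1),(5,0),(0,0)]⟩⟩,.o ⟨false,1,⟨2,
  [(1,1),(3,0),(13,0),(3,0),(16,0)]⟩,⟨0,[(33,0)]⟩⟩]⟩) (.R ⟨0,false,false,true,[0,0,0,0,1],[0,0,1],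
  [0,1,1,0,0,0,0,1],(⟨0,[(35,0)]⟩,⟨0,[(34,0)]⟩),(⟨0,[(42,0)]⟩,⟨0,[(41,0)]⟩),⟨0,[(2,0)]⟩,.k,.k,(.r 0
  ⟨6,[(7,0),(7,1),(31,1),(3,4)]⟩ ⟨6,[(0,1),(2,0),(2,2),(14,2),(5,2),(12,1),(12,3)]⟩),.k,.k,.k,⟨true,
  0,⟨1,[(39,0),(0,0)]⟩,⟨0,[]⟩⟩,⟨false,1,⟨8,[(1,1),(2,4),(1,1),(3,0),(2,3),(33,0)]⟩,⟨0,[(26,0),(6,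
  0)]⟩⟩,⟨true,0,⟨0,[(24,0),(15,0)]⟩,⟨0,[(16,0)]⟩⟩,⟨false,1,⟨0,[(5,0),(18,0)]⟩,⟨0,[(0,0),(13,0),(4,
  0),(6,0)]⟩⟩,⟨false,0,⟨0,[]⟩,⟨0,[]⟩⟩,⟨false,0,⟨0,[]⟩,⟨0,[]⟩⟩,[.o ⟨false,0,⟨0,[(23,0)]⟩,⟨0,[(38,0),
  (14,0)]⟩⟩,.e ⟨false,0,⟨0,[(21,0),(29,0)]⟩,⟨6,[(7,0),(12,4),(26,1),(4,1)]⟩⟩ ⟨false,1,⟨8,[(1,1),(2,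
  1),(1,4),(3,0),(1,3),(2,0),(9,0)]⟩,⟨0,[(0,0),(13,0),(4,0),(6,0)]⟩⟩,.a ⟨true,0,⟨0,[(33,0)]⟩,⟨0,[(4,
  0)]⟩⟩ ⟨false,0,⟨0,[(24,0),(15,0)]⟩,⟨5,[(7,1),(2,0),(3,0),(5,1),(32,2)]⟩⟩ ⟨true,0,⟨0,[(4,0),(18,
  0)]⟩,⟨0,[(0,0),(13,0),(4,0),(6,0)]⟩⟩,.o ⟨false,0,⟨0,[(0,0),(25,0)]⟩,⟨13,[(1,6),(2,0),(1,5),(3,0),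
  (3,0),(32,2)]⟩⟩]⟩)) (.R ⟨0,false,false,false,[0,0,0,0,1],[0,0,1],[0,0,1,0,0,0,0,1],(⟨0,[(34,0)]⟩,
  ⟨0,[(33,0)]⟩),(⟨0,[(41,0)]⟩,⟨0,[(40,0)]⟩),⟨0,[(1,0)]⟩,.k,.k,(.r 0 ⟨6,[(6,0),(7,1),(31,1),(3,4)]⟩
  ⟨22,[(0,2),(1,4),(2,7),(2,1),(2,3),(14,9),(12,9),(12,17)]⟩),.k,.k,.k,⟨true,0,⟨1,[(38,0),(0,0)]⟩,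
  ⟨0,[]⟩⟩,⟨false,1,⟨2,[(3,1),(5,0),(2,0),(18,0)]⟩,⟨0,[(25,0),(6,0)]⟩⟩,⟨false,1,⟨0,[(23,0),(15,0),
  (12,0)]⟩,⟨0,[(15,0)]⟩⟩,⟨true,1,⟨0,[(4,0),(18,0)]⟩,⟨0,[(0,0),(5,0),(15,0),(2,1)]⟩⟩,⟨false,0,⟨0,[]⟩,
  ⟨0,[]⟩⟩,⟨false,0,⟨0,[]⟩,⟨0,[]⟩⟩,[.e ⟨false,0,⟨0,[(20,0),(29,0)]⟩,⟨6,[(6,0),(12,4),(26,1),(4,1)]⟩⟩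
  ⟨false,1,⟨14,[(3,3),(0,3),(0,4),(3,2),(1,5),(2,2),(9,0),(6,1)]⟩,⟨3,[(0,1),(5,1),(18,3),(6,1),(14,
  0),(4,0)]⟩⟩,.o ⟨false,1,⟨0,[(22,0),(29,0)]⟩,⟨0,[(37,0)]⟩⟩,.a ⟨true,0,⟨0,[(32,0)]⟩,⟨0,[(3,0)]⟩⟩
  ⟨true,0,⟨0,[(23,0),(15,0)]⟩,⟨0,[(15,0)]⟩⟩ ⟨false,1,⟨0,[(4,0),(18,0)]⟩,⟨3,[(0,1),(5,1),(18,3),(6,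
  1),(14,0),(4,0)]⟩⟩,.o ⟨false,0,⟨0,[(0,0),(46,0)]⟩,⟨6,[(4,4),(1,0),(7,1),(16,1),(16,1)]⟩⟩]⟩))) (.Q
  [0,0,0,0,0,-1,0,0,0,0,0,1] (.ed false [1,-1,0,0,1] .k) (.R ⟨1,false,false,false,[0,0,0,0,1],[0,-1,
  1],[1,1],(⟨0,[(33,0)]⟩,⟨0,[(32,0)]⟩),(⟨0,[(29,0)]⟩,⟨0,[(39,0),(1,0)]⟩),⟨0,[(0,0)]⟩,.k,.k,(.r 0 ⟨6,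
  [(5,0),(7,1),(31,1),(3,4)]⟩ ⟨4,[(4,0),(5,0),(8,0),(5,2),(5,0),(6,1),(12,3)]⟩),(.r 0 ⟨0,[(25,0)]⟩
  ⟨6,[(10,0),(2,1),(8,2),(0,1),(3,0),(10,2),(12,4)]⟩),.k,.k,⟨false,0,⟨4,[(5,0),(10,0),(8,1),(21,
  1)]⟩,⟨6,[(10,0),(2,1),(8,2),(0,1),(3,0),(10,2),(12,4)]⟩⟩,⟨true,0,⟨0,[(1,0),(14,0),(4,0)]⟩,⟨0,[(24,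
  0),(6,0)]⟩⟩,⟨true,0,⟨0,[]⟩,⟨0,[(53,0)]⟩⟩,⟨false,1,⟨0,[(1,0),(19,0),(29,0)]⟩,⟨0,[(20,0),(10,0)]⟩⟩,
  ⟨false,1,⟨0,[(48,0),(2,0)]⟩,⟨0,[(49,0)]⟩⟩,⟨false,1,⟨5,[(1,5),(5,1),(2,1),(35,0),(4,4)]⟩,⟨0,[(31,
  0),(4,0)]⟩⟩,[.a ⟨true,0,⟨0,[(22,0),(26,0)]⟩,⟨0,[(16,0),(17,0)]⟩⟩ ⟨false,0,⟨8,[(5,0),(7,1),(31,1),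
  (1,1)]⟩,⟨3,[(4,1),(26,1),(14,0),(4,0)]⟩⟩ ⟨true,0,⟨0,[(1,0),(19,0)]⟩,⟨0,[(16,0),(7,0),(6,0)]⟩⟩,.o
  ⟨false,1,⟨0,[(21,0),(27,0),(1,0)]⟩,⟨0,[(20,0)]⟩⟩,.a ⟨true,0,⟨0,[(31,0)]⟩,⟨0,[(2,0)]⟩⟩ ⟨false,0,⟨0,
  []⟩,⟨3,[(4,1),(26,1),(14,0),(4,0)]⟩⟩ ⟨true,0,⟨0,[(1,0),(19,0)]⟩,⟨0,[(20,0),(10,0)]⟩⟩,.a ⟨true,0,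
  ⟨1,[(31,1),(5,0),(0,0)]⟩,⟨14,[(1,8),(0,5),(2,2),(1,4),(4,4),(0,0)]⟩⟩ ⟨true,0,⟨8,[(5,0),(7,1),(31,
  1),(1,1)]⟩,⟨1,[(37,0),(0,0)]⟩⟩ ⟨false,1,⟨18,[(1,11),(1,6),(4,0),(1,8),(2,0),(9,4),(22,0),(4,4)]⟩,
  ⟨0,[(16,0),(7,0),(6,0)]⟩⟩]⟩) (.K ⟨0,[0,0,1,0,-1],0,0,(⟨0,[(0,0),(28,0)]⟩,⟨0,[(33,0),(5,0)]⟩),.k,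
  (.r (-1) ⟨6,[(10,0),(2,1),(8,2),(0,1),(3,0),(10,2),(12,4)]⟩ ⟨0,[(25,0)]⟩),(.r (-1) ⟨4,[(4,1),(5,
  1),(8,1),(5,0),(5,1),(6,3),(12,2)]⟩ ⟨6,[(5,3),(7,0),(31,0),(3,5)]⟩),.k,.k,[⟨0,[(31,0)]⟩,⟨0,[(1,0),
  (14,0),(4,0)]⟩,⟨0,[(31,0),(4,0),(16,0)]⟩,⟨1,[(1,1),(5,0),(13,0)]⟩]⟩))) (.R ⟨1,false,false,false,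
  [0,0,1],[0,0,0,0,1],[1,1,0,0,0,0,0,1],(⟨0,[(38,0)]⟩,⟨0,[(37,0)]⟩),(⟨0,[(31,0)]⟩,⟨0,[(30,0)]⟩),⟨0,
  [(27,0)]⟩,.k,.k,.k,.k,(.r (-1) ⟨6,[(8,0),(2,1),(8,2),(0,1),(3,0),(10,2),(12,4)]⟩ ⟨0,[(23,0)]⟩),.k,
  ⟨true,0,⟨0,[(17,0),(29,0)]⟩,⟨0,[(15,0)]⟩⟩,⟨false,0,⟨3,[(0,2),(9,1),(14,0),(3,0)]⟩,⟨2,[(1,0),(0,1),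
  (0,0),(15,1),(15,0)]⟩⟩,⟨false,0,⟨0,[]⟩,⟨3,[(2,1),(26,1),(14,0),(4,0)]⟩⟩,⟨false,0,⟨3,[(0,2),(9,1),
  (4,3),(9,0),(3,0)]⟩,⟨0,[(1,0),(18,0)]⟩⟩,⟨true,0,⟨0,[(46,0)]⟩,⟨0,[(47,0)]⟩⟩,⟨false,0,⟨3,[(0,2),(9,
  1),(3,3),(10,0),(3,0)]⟩,⟨0,[(1,0),(18,0),(26,0)]⟩⟩,[.o ⟨false,0,⟨1,[(0,0),(18,0),(9,0),(4,0)]⟩,⟨0,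
  [(1,0)]⟩⟩,.o ⟨false,0,⟨0,[(0,0)]⟩,⟨0,[(28,0)]⟩⟩,.o ⟨false,1,⟨4,[(9,0),(6,1),(16,1),(1,0),(8,1)]⟩,
  ⟨0,[(22,0)]⟩⟩,.a ⟨true,0,⟨0,[(35,0)]⟩,⟨0,[(32,0)]⟩⟩ ⟨true,0,⟨3,[(8,0),(2,1),(13,0),(20,0)]⟩,⟨0,
  [(15,0)]⟩⟩ ⟨false,0,⟨3,[(0,2),(9,1),(14,0),(3,0)]⟩,⟨0,[(1,0),(33,0)]⟩⟩]⟩)) (.Q [0,0,-1,0,1,0,0,0,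
  -1,0,0,-1] (.p false [0,0,0,0,1] [] (⟨0,[(30,0)]⟩,⟨0,[(29,0)]⟩) .k 0 (⟨0,[]⟩,⟨0,[]⟩) .k .k) (.Q
  [0,0,0,0,0,-1,0,0,0,0,0,1] (.ed false [1,-1,0,0,1] .k) (.S ⟨1,0,[0,-1,1],[1,1,0,0,-1],[1,0,1,1],
  (⟨0,[(31,0),(8,0)]⟩,⟨0,[(0,0)]⟩),⟨0,[(31,0)]⟩,(.r (-1) ⟨4,[(3,0),(5,0),(8,0),(5,2),(5,0),(6,1),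
  (12,3)]⟩ ⟨6,[(4,0),(7,1),(31,1),(3,4)]⟩),.k,⟨false,0,⟨0,[]⟩,⟨3,[(3,1),(26,1),(14,0),(4,0)]⟩⟩,
  ⟨true,0,⟨0,[(48,0)]⟩,⟨0,[(47,0)]⟩⟩,⟨true,0,⟨0,[(47,0)]⟩,⟨0,[(48,0)]⟩⟩,⟨false,1,⟨3,[(3,1),(26,1),
  (14,0),(4,0)]⟩,⟨0,[]⟩⟩,[.a ⟨true,1,⟨0,[(3,0)]⟩,⟨0,[(2,0)]⟩⟩ ⟨true,0,⟨3,[(15,1),(2,1),(17,0),(0,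
  0)]⟩,⟨0,[(48,0)]⟩⟩ ⟨false,1,⟨3,[(3,1),(26,1),(14,0),(4,0)]⟩,⟨8,[(4,0),(7,1),(31,1),(1,1)]⟩⟩,.e
  ⟨false,1,⟨0,[(47,0),(2,0)]⟩,⟨6,[(4,0),(7,1),(31,1),(3,4)]⟩⟩ ⟨false,1,⟨0,[(50,0)]⟩,⟨0,[(44,0)]⟩⟩,
  .o ⟨false,1,⟨0,[(1,0)]⟩,⟨1,[(2,1),(33,0),(0,0),(7,0),(4,0)]⟩⟩,.o ⟨false,1,⟨0,[(29,0)]⟩,⟨1,[(2,1),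
  (42,0),(4,0)]⟩⟩]⟩) (.Q [0,1,0,1,-1,0,-1,-1,1,0,-1,1] (.p true [1,0,-1,0,1] [1] (⟨0,[(32,0),(5,
  0)]⟩,⟨0,[(0,0),(27,0)]⟩) .k 1 (⟨0,[]⟩,⟨0,[]⟩) .k (.r 0 ⟨4,[(4,0),(11,2),(27,1)]⟩ ⟨21,[(9,5),(12,
  1),(3,7),(7,9),(2,5),(7,0),(4,18)]⟩)) (.Q [0,0,2,0,-1,0,0,0,1,0,0,1] (.p true [0,0,0,0,1] [] (⟨0,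
  [(33,0)]⟩,⟨0,[(32,0)]⟩) .k 0 (⟨0,[]⟩,⟨0,[]⟩) .k .k) (.R ⟨0,false,false,false,[0,1,0,0,-1],[0,0,1,
  0,-1],[1,0,1,1],(⟨0,[(2,0)]⟩,⟨0,[(34,0),(9,0)]⟩),(⟨0,[(2,0),(27,0)]⟩,⟨0,[(34,0),(5,0)]⟩),⟨0,[(34,
  0)]⟩,(.r (-1) ⟨17,[(0,0),(4,5),(2,3),(2,1),(14,7),(5,4),(6,7),(12,12)]⟩ ⟨6,[(6,0),(7,1),(31,1),(3,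
  4)]⟩),.k,.k,.k,.k,.k,⟨false,0,⟨4,[(6,0),(10,0),(8,1),(21,1)]⟩,⟨6,[(11,0),(2,1),(8,2),(0,1),(3,0),
  (10,2),(12,4)]⟩⟩,⟨true,0,⟨0,[(38,0)]⟩,⟨0,[(25,0)]⟩⟩,⟨false,0,⟨0,[]⟩,⟨3,[(5,1),(26,1),(14,0),(4,
  0)]⟩⟩,⟨true,0,⟨0,[(23,0),(26,0)]⟩,⟨0,[(21,0)]⟩⟩,⟨false,0,⟨0,[]⟩,⟨0,[]⟩⟩,⟨false,0,⟨0,[]⟩,⟨0,[]⟩⟩,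
  [.o ⟨false,2,⟨1,[(5,1),(16,1),(24,0),(4,0)]⟩,⟨0,[(1,0),(48,0)]⟩⟩,.e ⟨false,1,⟨0,[(49,0),(2,0)]⟩,
  ⟨6,[(6,0),(7,1),(31,1),(3,4)]⟩⟩ ⟨false,1,⟨0,[(23,0),(28,0)]⟩,⟨6,[(6,0),(7,1),(6,1),(15,4),(8,
  1)]⟩⟩,.a ⟨true,1,⟨0,[(3,0)]⟩,⟨0,[(0,0),(12,0),(24,0)]⟩⟩ ⟨true,0,⟨4,[(0,0),(4,0),(2,0),(8,1),(2,0),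
  (18,0)]⟩,⟨6,[(6,0),(7,1),(31,1),(3,4)]⟩⟩ ⟨false,1,⟨1,[(0,0),(4,0),(16,0),(0,0),(28,1)]⟩,⟨3,[(6,1),
  (7,0),(6,0),(3,2)]⟩⟩,.e ⟨false,1,⟨0,[(49,0),(2,0)]⟩,⟨0,[(50,0)]⟩⟩ ⟨false,1,⟨0,[(23,0),(28,0)]⟩,⟨0,
  [(37,0)]⟩⟩]⟩) (.Q [0,0,0,-1,-1,0,0,0,1,1,0,1] (.p true [1,-1,0,0,1] [] (⟨0,[(34,0),(9,0)]⟩,⟨0,[(2,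
  0)]⟩) (.r 0 ⟨6,[(6,0),(7,1),(31,1),(3,4)]⟩ ⟨4,[(5,0),(5,0),(8,0),(5,2),(5,0),(6,1),(12,3)]⟩) 0
  (⟨0,[]⟩,⟨0,[]⟩) .k .k) (.R ⟨0,false,false,false,[0,1,0,0,-1],[0,1],[1,0,1,1],(⟨0,[(3,0)]⟩,⟨0,[(35,
  0),(9,0)]⟩),(⟨0,[(46,0)]⟩,⟨0,[(45,0)]⟩),⟨0,[(35,0)]⟩,(.r (-1) ⟨4,[(6,0),(5,0),(8,0),(5,2),(5,0),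
  (6,1),(12,3)]⟩ ⟨6,[(7,0),(7,1),(31,1),(3,4)]⟩),.k,.k,.k,.k,.k,⟨true,0,⟨0,[]⟩,⟨1,[(39,0),(0,0)]⟩⟩,
  ⟨false,0,⟨3,[(5,1),(4,0),(3,0),(18,1),(19,0)]⟩,⟨0,[(32,0)]⟩⟩,⟨false,0,⟨0,[]⟩,⟨3,[(6,1),(26,1),(14,
  0),(4,0)]⟩⟩,⟨true,(-1),⟨0,[(5,0)]⟩,⟨0,[(32,0)]⟩⟩,⟨false,0,⟨0,[]⟩,⟨0,[]⟩⟩,⟨false,0,⟨0,[]⟩,⟨0,[]⟩⟩,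
  [.o ⟨false,1,⟨8,[(6,0),(2,3),(10,3),(8,1),(3,0),(14,3),(1,0)]⟩,⟨0,[(51,0)]⟩⟩,.e ⟨false,1,⟨0,[(50,
  0),(2,0)]⟩,⟨6,[(7,0),(7,1),(31,1),(3,4)]⟩⟩ ⟨false,0,⟨1,[(0,0),(1,0),(6,0),(43,1)]⟩,⟨6,[(7,0),(7,
  1),(16,6),(14,1),(3,4)]⟩⟩,.a ⟨true,1,⟨0,[(4,0)]⟩,⟨3,[(0,3),(17,1),(2,1),(17,0),(0,0)]⟩⟩ ⟨true,0,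
  ⟨3,[(18,1),(2,1),(17,0),(0,0)]⟩,⟨6,[(7,0),(7,1),(31,1),(3,4)]⟩⟩ ⟨false,0,⟨1,[(0,0),(4,0),(3,0),(8,
  0),(21,0),(12,1)]⟩,⟨1,[(1,0),(30,0),(18,1)]⟩⟩,.e ⟨false,1,⟨0,[(50,0),(2,0)]⟩,⟨0,[(51,0)]⟩⟩ ⟨false,
  0,⟨1,[(0,0),(1,0),(6,0),(43,1)]⟩,⟨0,[(32,0),(18,0)]⟩⟩]⟩) (.R ⟨1,false,false,true,[0,0,1],[0,0,1,0,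
  -1],[1,0,0,0,0,0,0,1],(⟨0,[(42,0)]⟩,⟨0,[(41,0)]⟩),(⟨0,[(3,0),(27,0)]⟩,⟨0,[(35,0),(5,0)]⟩),⟨0,[(31,
  0)]⟩,.k,.k,.k,.k,(.r 0 ⟨6,[(7,0),(7,1),(31,1),(3,4)]⟩ ⟨4,[(6,0),(5,0),(8,0),(5,2),(5,0),(6,1),(12,
  3)]⟩),.k,⟨true,0,⟨0,[]⟩,⟨1,[(39,0),(0,0)]⟩⟩,⟨false,1,⟨0,[(4,0)]⟩,⟨0,[(33,0)]⟩⟩,⟨true,0,⟨0,[]⟩,⟨0,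
  [(55,0)]⟩⟩,⟨true,1,⟨0,[(32,0)]⟩,⟨0,[(5,0)]⟩⟩,⟨false,1,⟨0,[(50,0),(2,0)]⟩,⟨0,[(51,0)]⟩⟩,⟨true,1,⟨1,
  [(0,0),(5,0),(43,0)]⟩,⟨0,[(5,0),(45,0)]⟩⟩,[.o ⟨false,1,⟨0,[(0,0),(23,0),(26,0)]⟩,⟨4,[(2,2),(16,0),
  (0,0),(4,0),(7,1),(6,1),(12,0)]⟩⟩,.o ⟨false,2,⟨1,[(6,1),(16,1),(24,0),(4,0)]⟩,⟨0,[(2,0),(48,0)]⟩⟩,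
  .o ⟨false,1,⟨4,[(13,0),(6,1),(16,1),(1,0),(8,1)]⟩,⟨0,[(26,0)]⟩⟩,.a ⟨true,0,⟨0,[(39,0)]⟩,⟨0,[(36,
  0)]⟩⟩ ⟨false,1,⟨5,[(12,1),(2,1),(13,1),(22,0),(0,4)]⟩,⟨0,[(19,0)]⟩⟩ ⟨true,1,⟨1,[(0,0),(5,0),(8,0),
  (5,0),(29,0)]⟩,⟨0,[(5,0),(13,0)]⟩⟩]⟩))) (.R ⟨0,false,false,true,[0,0,0,0,1],[0,-1,1],[1,1],(⟨0,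
  [(33,0)]⟩,⟨0,[(32,0)]⟩),(⟨0,[(29,0)]⟩,⟨0,[(39,0),(1,0)]⟩),⟨0,[(1,0)]⟩,.k,.k,(.r 0 ⟨6,[(5,0),(7,1),
  (31,1),(3,4)]⟩ ⟨4,[(4,0),(5,0),(8,0),(5,2),(5,0),(6,1),(12,3)]⟩),(.r 0 ⟨0,[(25,0)]⟩ ⟨2,[(0,0),(12,
  1),(17,0),(6,0),(12,1)]⟩),.k,.k,⟨true,0,⟨0,[(16,0)]⟩,⟨0,[(0,0),(2,0),(20,0)]⟩⟩,⟨false,1,⟨8,[(0,2),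
  (3,1),(0,2),(4,1),(5,0),(13,3),(6,1)]⟩,⟨7,[(3,5),(8,3),(14,1),(3,1),(14,2),(4,2)]⟩⟩,⟨true,0,⟨0,
  []⟩,⟨0,[(53,0)]⟩⟩,⟨false,1,⟨0,[(0,0)]⟩,⟨0,[(3,0),(16,0),(30,0)]⟩⟩,⟨false,0,⟨0,[]⟩,⟨0,[]⟩⟩,⟨false,
  0,⟨0,[]⟩,⟨0,[]⟩⟩,[.o ⟨false,0,⟨0,[(21,0),(27,0)]⟩,⟨0,[(20,0),(30,0)]⟩⟩,.a ⟨true,0,⟨0,[(0,0),(2,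
  0)]⟩,⟨0,[(16,0),(17,0)]⟩⟩ ⟨true,0,⟨0,[]⟩,⟨1,[(37,0),(0,0)]⟩⟩ ⟨false,1,⟨6,[(0,4),(1,1),(2,0),(7,1),
  (21,1)]⟩,⟨0,[(3,0),(16,0),(30,0)]⟩⟩,.o ⟨false,0,⟨1,[(3,1),(42,0),(4,0)]⟩,⟨0,[(30,0)]⟩⟩,.o ⟨false,
  0,⟨1,[(3,1),(33,0),(0,0),(7,0),(4,0)]⟩,⟨0,[(2,0)]⟩⟩]⟩))) (.Q [0,0,0,0,0,1,0,0,0,0,0,-1] (.ed true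
  [1,-1,0,0,1] .k) (.S ⟨1,0,[0,-1,0,-1],[1,0,0,0,-1],[1],(⟨0,[(31,0)]⟩,⟨0,[(32,0)]⟩),⟨1,[(0,0),(4,
  0),(22,0),(2,0)]⟩,.k,(.r (-1) ⟨11,[(3,1),(18,3),(7,1),(14,0),(4,4)]⟩ ⟨2,[(18,0),(5,1),(9,0),(2,
  0)]⟩),⟨false,0,⟨0,[]⟩,⟨3,[(3,1),(26,1),(14,0),(4,0)]⟩⟩,⟨true,0,⟨0,[(48,0)]⟩,⟨0,[(47,0)]⟩⟩,⟨true,0,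
  ⟨0,[(47,0)]⟩,⟨0,[(48,0)]⟩⟩,⟨false,1,⟨3,[(3,1),(26,1),(14,0),(4,0)]⟩,⟨0,[]⟩⟩,[.a ⟨true,1,⟨0,[(3,0),
  (44,0)]⟩,⟨2,[(1,0),(0,1),(3,0),(4,0),(3,0)]⟩⟩ ⟨true,0,⟨0,[]⟩,⟨1,[(36,0),(0,0)]⟩⟩ ⟨false,1,⟨11,[(3,
  1),(18,3),(7,1),(14,0),(4,4)]⟩,⟨0,[(47,0)]⟩⟩,.o ⟨false,2,⟨1,[(3,1),(41,0),(2,1),(1,0)]⟩,⟨1,[(1,0),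
  (0,0),(1,0),(1,0),(13,0),(2,1)]⟩⟩,.o ⟨false,1,⟨0,[(29,0)]⟩,⟨5,[(1,3),(5,0),(3,0),(18,1),(14,2)]⟩⟩,
  .o ⟨false,1,⟨1,[(29,1),(6,0),(0,0)]⟩,⟨1,[(1,1),(5,0),(3,0),(33,0)]⟩⟩]⟩) (.S ⟨1,0,[0,0,1],[1,1,0,0,
  -1],[0,-1,1],(⟨0,[(31,0),(8,0)]⟩,⟨0,[(0,0)]⟩),⟨0,[(31,0)]⟩,(.r (-1) ⟨4,[(3,0),(5,0),(8,0),(5,2),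
  (5,0),(6,1),(12,3)]⟩ ⟨6,[(4,0),(7,1),(31,1),(3,4)]⟩),.k,⟨true,0,⟨0,[(48,0)]⟩,⟨0,[(47,0)]⟩⟩,⟨false,
  0,⟨0,[(48,0)]⟩,⟨0,[(47,0),(2,0)]⟩⟩,⟨false,1,⟨3,[(3,1),(26,1),(14,0),(4,0)]⟩,⟨0,[]⟩⟩,⟨true,0,⟨0,
  [(52,0)]⟩,⟨0,[]⟩⟩,[.o ⟨false,1,⟨0,[(29,0)]⟩,⟨5,[(1,3),(5,0),(3,0),(18,1),(14,2)]⟩⟩,.e ⟨false,1,⟨0,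
  [(50,0)]⟩,⟨0,[(44,0)]⟩⟩ ⟨false,1,⟨3,[(3,1),(26,1),(14,0),(4,0)]⟩,⟨8,[(4,0),(7,1),(31,1),(1,1)]⟩⟩,
  .a ⟨true,1,⟨8,[(3,8),(0,0),(7,1),(31,1),(1,1)]⟩,⟨0,[(1,0)]⟩⟩ ⟨false,1,⟨1,[(36,0),(0,0),(12,1)]⟩,
  ⟨8,[(4,0),(7,1),(31,1),(1,1)]⟩⟩ ⟨true,0,⟨1,[(36,0),(0,0)]⟩,⟨8,[(4,0),(7,1),(31,1),(1,1)]⟩⟩,.o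
  ⟨false,1,⟨0,[(29,0)]⟩,⟨5,[(1,3),(5,0),(3,0),(18,1),(14,2)]⟩⟩]⟩)))))))) (.K ⟨0,[1,-1,-1],(-1),0,
  (⟨0,[(20,0)]⟩,⟨0,[(32,0),(0,0)]⟩),.k,(.r (-1) ⟨2,[(6,0),(2,0),(0,0),(4,1)]⟩ ⟨6,[(0,2),(1,2),(5,1),
  (2,5),(5,2),(12,2),(12,2)]⟩),.k,(.r (-1) ⟨2,[(6,1),(2,1),(0,1),(4,0)]⟩ ⟨6,[(0,2),(1,4),(2,0),(5,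
  2),(7,1),(10,2),(12,2)]⟩),.k,[⟨0,[(3,0)]⟩,⟨0,[(0,0)]⟩,⟨0,[(1,0)]⟩,⟨2,[(0,1),(14,1),(1,2),(8,
  0)]⟩]⟩))) (.R ⟨1,false,false,true,[1,0,-1],[0,0,1],[0,1,1],(⟨0,[(29,0)]⟩,⟨0,[(30,0)]⟩),(⟨0,[(30,
  0)]⟩,⟨0,[(29,0)]⟩),⟨0,[(18,0)]⟩,.k,.k,.k,.k,(.r (-1) ⟨2,[(4,1),(2,1),(0,1),(4,0)]⟩ ⟨0,[(9,0),(2,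
  0),(15,0)]⟩),.k,⟨true,0,⟨0,[(7,0)]⟩,⟨0,[(9,0),(29,0)]⟩⟩,⟨false,1,⟨0,[(1,0)]⟩,⟨0,[(17,0)]⟩⟩,⟨false,
  0,⟨0,[(12,0),(15,0)]⟩,⟨0,[(4,0),(36,0)]⟩⟩,⟨true,0,⟨0,[(11,0),(0,0)]⟩,⟨2,[(0,1),(9,0),(4,0),(8,
  0)]⟩⟩,⟨false,0,⟨1,[(9,1),(17,0),(0,0)]⟩,⟨4,[(0,1),(0,1),(6,0),(4,0),(27,0)]⟩⟩,⟨false,1,⟨5,[(1,1),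
  (7,5),(1,1),(13,3),(1,1),(8,0),(4,2)]⟩,⟨0,[(0,0)]⟩⟩,[.o ⟨false,0,⟨0,[(11,0)]⟩,⟨13,[(0,1),(7,7),(1,
  1),(6,3),(18,2),(4,2)]⟩⟩,.a ⟨true,0,⟨0,[(12,0)]⟩,⟨2,[(0,0),(14,0),(8,0),(6,0),(1,0)]⟩⟩ ⟨true,0,⟨1,
  [(27,0),(0,0)]⟩,⟨0,[]⟩⟩ ⟨false,1,⟨5,[(1,3),(1,0),(5,0),(1,1),(0,0),(12,0),(15,1)]⟩,⟨5,[(0,1),(9,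
  0),(4,0),(1,2),(6,0)]⟩⟩,.o ⟨false,0,⟨0,[(14,0)]⟩,⟨4,[(1,0),(6,1),(16,1),(1,0),(8,1)]⟩⟩,.o ⟨false,
  0,⟨0,[(28,0)]⟩,⟨3,[(1,1),(34,0),(3,0)]⟩⟩]⟩)) (.Q [0,-1,0,-1,0,0,-2,-2,0,1,-2] (.p false [0,0,1]
  [1,0,-1] (⟨0,[(29,0)]⟩,⟨0,[(28,0)]⟩) .k 2 (⟨0,[(28,0)]⟩,⟨0,[(29,0)]⟩) .k (.r 0 ⟨4,[(0,1),(1,1),(5,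
  1),(1,1),(0,3),(15,1),(12,1)]⟩ ⟨5,[(3,1),(2,1),(0,4),(4,0),(1,2)]⟩)) (.R ⟨1,true,false,true,[1,0,
  -1],[0,0,1],[0,1,0,-1,0,0,0,-1],(⟨0,[(29,0)]⟩,⟨0,[(30,0)]⟩),(⟨0,[(30,0)]⟩,⟨0,[(29,0)]⟩),⟨0,[(18,
  0)]⟩,.k,.k,.k,.k,(.r (-1) ⟨2,[(4,1),(2,1),(0,1),(4,0)]⟩ ⟨0,[(9,0),(2,0),(15,0)]⟩),.k,⟨false,1,⟨2,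
  [(4,1),(2,1),(0,1),(4,0)]⟩,⟨4,[(1,0),(1,0),(5,5),(1,0),(0,1),(15,0),(12,0)]⟩⟩,⟨true,1,⟨0,[(4,0),
  (6,0),(15,0),(13,0)]⟩,⟨0,[(1,0)]⟩⟩,⟨false,0,⟨0,[(39,0)]⟩,⟨0,[(38,0),(2,0)]⟩⟩,⟨true,0,⟨0,[(11,0),
  (0,0)]⟩,⟨2,[(0,1),(9,0),(4,0),(8,0)]⟩⟩,⟨true,0,⟨0,[(43,0)]⟩,⟨0,[]⟩⟩,⟨false,1,⟨0,[(11,0),(0,0),(25,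
  0),(2,0)]⟩,⟨0,[(0,0)]⟩⟩,[]⟩) (.Q [0,0,0,0,0,2,0,0,0,-1,1] (.p true [0,0,1] [1] (⟨0,[(30,0)]⟩,⟨0,
  [(29,0)]⟩) .k 1 (⟨0,[]⟩,⟨0,[]⟩) .k .k) (.R ⟨0,false,false,false,[1,-1,-1],[0,-1,1],[0,0,-1,-1,0,0,
  0,1],(⟨0,[(19,0)]⟩,⟨0,[(0,0),(33,0)]⟩),(⟨0,[(20,0)]⟩,⟨0,[(30,0),(1,0)]⟩),⟨0,[(0,0)]⟩,.k,.k,(.r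
  (-1) ⟨2,[(5,0),(2,0),(0,0),(4,1)]⟩ ⟨3,[(7,1),(2,5),(17,2),(0,2)]⟩),.k,.k,.k,⟨false,1,⟨1,[(21,0),
  (0,0),(18,0)]⟩,⟨0,[]⟩⟩,⟨true,1,⟨0,[(5,0),(6,0),(15,0),(13,0)]⟩,⟨0,[(2,0)]⟩⟩,⟨true,0,⟨1,[(1,0),(0,
  0),(1,0),(8,0),(15,0),(12,0)]⟩,⟨0,[(5,0),(2,0)]⟩⟩,⟨false,1,⟨0,[(12,0),(0,0),(28,0)]⟩,⟨0,[(2,0),(2,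
  0),(3,0)]⟩⟩,⟨false,0,⟨0,[]⟩,⟨0,[]⟩⟩,⟨false,0,⟨0,[]⟩,⟨0,[]⟩⟩,[.a ⟨true,0,⟨0,[(13,0),(26,0)]⟩,⟨0,
  [(7,0),(17,0)]⟩⟩ ⟨false,1,⟨3,[(1,1),(12,1),(3,1),(22,0),(0,0)]⟩,⟨0,[(7,0)]⟩⟩ ⟨true,1,⟨0,[(5,0),(6,
  0),(0,0),(26,0),(1,0)]⟩,⟨0,[(2,0),(4,0)]⟩⟩,.o ⟨false,1,⟨0,[(12,0),(27,0),(1,0)]⟩,⟨0,[(11,0)]⟩⟩,.o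
  ⟨false,0,⟨0,[(29,0)]⟩,⟨0,[(5,0),(6,0),(29,0)]⟩⟩,.e ⟨false,1,⟨0,[(4,0),(37,0)]⟩,⟨1,[(7,1),(20,0),
  (0,0)]⟩⟩ ⟨false,2,⟨15,[(1,13),(3,5),(3,5),(4,9),(13,3),(8,0),(4,14)]⟩,⟨0,[(2,0),(4,0)]⟩⟩]⟩) (.Q
  [0,-1,0,2,1,0,1,1,0,-1,1] (.p true [0,0,1] [1] (⟨0,[(31,0)]⟩,⟨0,[(30,0)]⟩) .k 1 (⟨0,[]⟩,⟨0,[]⟩)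
  .k .k) (.Q [0,0,0,-2,0,0,-1,-1,0,0,-1] (.p false [0,0,1] [] (⟨0,[(32,0)]⟩,⟨0,[(31,0)]⟩) .k 0 (⟨0,
  []⟩,⟨0,[]⟩) .k .k) (.S ⟨1,0,[0,1,-1,-2,0,0,0,-1],[1,-1,-1],[1,0,-1,-1,0,0,0,-1],(⟨0,[(21,0)]⟩,⟨0,
  [(33,0),(0,0)]⟩),⟨0,[(2,0)]⟩,.k,(.r (-1) ⟨2,[(7,0),(2,0),(0,0),(4,1)]⟩ ⟨11,[(1,9),(2,9),(13,3),(9,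
  5),(1,6),(0,2)]⟩),⟨true,0,⟨0,[]⟩,⟨0,[(46,0)]⟩⟩,⟨false,0,⟨0,[(42,0)]⟩,⟨3,[(1,1),(9,1),(8,0),(13,0),
  (1,0)]⟩⟩,⟨false,1,⟨3,[(1,1),(9,1),(8,0),(13,0),(1,0)]⟩,⟨0,[(42,0)]⟩⟩,⟨true,0,⟨0,[(46,0)]⟩,⟨0,[]⟩⟩,
  [.o ⟨false,0,⟨0,[(0,0),(45,0)]⟩,⟨0,[(1,0)]⟩⟩,.o ⟨false,0,⟨0,[(0,0)]⟩,⟨7,[(1,5),(21,0),(0,0),(3,1),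
  (10,0),(1,3)]⟩⟩,.o ⟨false,0,⟨0,[(31,0)]⟩,⟨0,[(7,0),(6,0),(29,0)]⟩⟩,.a ⟨true,(-1),⟨0,[(4,0),(25,
  0)]⟩,⟨9,[(1,2),(3,2),(1,7),(3,4),(3,9),(0,1)]⟩⟩ ⟨true,1,⟨9,[(1,0),(3,0),(1,5),(3,4),(4,3)]⟩,⟨1,
  [(3,0),(0,1),(4,0),(4,0),(15,0)]⟩⟩ ⟨false,1,⟨2,[(7,0),(2,0),(0,0),(4,1)]⟩,⟨0,[(1,0),(2,0),(25,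
  0)]⟩⟩]⟩) (.Q [0,-1,0,-2,0,0,-1,-1,0,1,-1] (.p false [0,0,1] [1] (⟨0,[(33,0)]⟩,⟨0,[(32,0)]⟩) .k 1
  (⟨0,[]⟩,⟨0,[]⟩) .k .k) (.S ⟨1,0,[0,0,-1,-2,0,0,0,-1],[1,-1,-1],[1,1,-1,-1,0,0,0,-1],(⟨0,[(22,0)]⟩,
  ⟨0,[(34,0),(0,0)]⟩),⟨0,[(3,0)]⟩,.k,(.r (-1) ⟨2,[(8,0),(2,0),(0,0),(4,1)]⟩ ⟨1,[(1,1),(29,0),(0,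
  2)]⟩),⟨false,0,⟨0,[]⟩,⟨1,[(24,0),(0,0),(19,0)]⟩⟩,⟨true,0,⟨0,[(43,0)]⟩,⟨0,[(42,0)]⟩⟩,⟨true,0,⟨0,
  [(42,0)]⟩,⟨0,[(43,0)]⟩⟩,⟨false,1,⟨1,[(24,0),(0,0),(19,0)]⟩,⟨0,[]⟩⟩,[.a ⟨true,0,⟨0,[(0,0),(46,0)]⟩,
  ⟨0,[(1,0)]⟩⟩ ⟨true,0,⟨1,[(0,0),(7,1),(6,0)]⟩,⟨5,[(2,1),(1,1),(0,5),(25,5),(8,0),(4,2)]⟩⟩ ⟨false,1,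
  ⟨2,[(8,0),(2,0),(0,0),(4,1)]⟩,⟨0,[(1,0),(30,0)]⟩⟩,.a ⟨true,0,⟨0,[(0,0)]⟩,⟨2,[(1,1),(27,0),(12,
  1)]⟩⟩ ⟨false,1,⟨9,[(2,0),(3,0),(1,5),(3,4),(4,3)]⟩,⟨1,[(1,0),(14,0),(15,1)]⟩⟩ ⟨true,1,⟨0,[(0,0),
  (7,0),(6,0),(29,0)]⟩,⟨0,[(4,0),(0,0),(4,0)]⟩⟩,.o ⟨false,0,⟨0,[(32,0)]⟩,⟨0,[(8,0),(6,0),(29,0)]⟩⟩,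
  .a ⟨true,(-1),⟨0,[(5,0),(25,0)]⟩,⟨6,[(1,5),(6,2),(3,2),(4,3),(13,0)]⟩⟩ ⟨false,1,⟨9,[(2,0),(3,0),
  (1,5),(3,4),(4,3)]⟩,⟨5,[(2,1),(1,1),(0,5),(25,5),(8,0),(4,2)]⟩⟩ ⟨true,1,⟨2,[(8,0),(2,0),(0,0),(4,
  1)]⟩,⟨0,[(4,0),(0,0),(4,0)]⟩⟩]⟩) (.Q [0,-2,0,0,1,0,1,1,-1,0,1,-1] (.p true [0,0,1] [0,0,0,0,1]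
  (⟨0,[(34,0)]⟩,⟨0,[(33,0)]⟩) .k 2 (⟨0,[(27,0)]⟩,⟨0,[(26,0)]⟩) .k (.r (-1) ⟨15,[(2,0),(1,3),(12,1),
  (3,4),(7,6),(2,5),(12,12)]⟩ ⟨2,[(8,0),(2,1),(27,0)]⟩)) (.Q [0,0,0,0,0,1,0,0,0,-1,0,1] (.ed false
  [0,1,0,0,1] .k) (.R ⟨0,false,false,false,[1,0,0,0,-1],[0,0,1],[0,0,1,0,0,0,0,1],(⟨0,[(28,0)]⟩,⟨0,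
  [(29,0)]⟩),(⟨0,[(36,0)]⟩,⟨0,[(35,0)]⟩),⟨0,[(0,0)]⟩,.k,.k,(.r (-1) ⟨5,[(19,1),(6,0),(0,0),(19,2)]⟩
  ⟨5,[(3,0),(17,2),(9,1),(2,2),(9,0)]⟩),.k,.k,.k,⟨true,0,⟨1,[(33,0),(0,0)]⟩,⟨0,[]⟩⟩,⟨false,1,⟨0,
  [(10,0),(6,0),(9,0),(19,0)]⟩,⟨2,[(1,1),(5,2),(2,2),(15,0),(4,0)]⟩⟩,⟨false,0,⟨0,[(18,0),(15,0)]⟩,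
  ⟨0,[(10,0),(36,0)]⟩⟩,⟨true,0,⟨0,[(17,0),(9,0)]⟩,⟨3,[(1,2),(5,3),(2,5),(2,0),(12,0),(6,0)]⟩⟩,
  ⟨false,0,⟨0,[]⟩,⟨0,[]⟩⟩,⟨false,0,⟨0,[]⟩,⟨0,[]⟩⟩,[.e ⟨false,0,⟨3,[(6,0),(0,0),(1,0),(8,0),(15,0),
  (12,0)]⟩,⟨3,[(10,0),(3,2),(26,0),(4,0)]⟩⟩ ⟨false,1,⟨8,[(4,3),(1,0),(12,2),(7,8),(3,2),(10,1)]⟩,⟨3,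
  [(1,2),(5,3),(2,5),(2,0),(12,0),(6,0)]⟩⟩,.o ⟨false,1,⟨0,[(17,0),(29,0)]⟩,⟨0,[(32,0)]⟩⟩,.a ⟨true,0,
  ⟨1,[(1,1),(5,1),(2,2),(20,0),(1,0)]⟩,⟨0,[(27,0)]⟩⟩ ⟨true,0,⟨0,[(18,0),(15,0)]⟩,⟨0,[(10,0)]⟩⟩
  ⟨false,1,⟨0,[(17,0),(9,0),(19,0)]⟩,⟨3,[(1,2),(5,3),(2,5),(2,0),(12,0),(6,0)]⟩⟩,.o ⟨false,0,⟨0,[(1,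
  0),(5,0),(2,0),(2,0),(3,0)]⟩,⟨1,[(27,1),(14,0),(3,0)]⟩⟩]⟩) (.Q [0,0,0,0,0,-1,0,0,0,0,0,1] (.ed
  false [1,-1,0,0,1] .k) (.Q [0,1,0,0,0,0,0,0,1,-1,0,1] (.p true [0,0,0,0,1] [1] (⟨0,[(30,0)]⟩,⟨0,
  [(29,0)]⟩) .k 1 (⟨0,[]⟩,⟨0,[]⟩) .k .k) (.S ⟨1,0,[0,-1,1],[1,1,0,0,-1],[1,0,1,1],(⟨0,[(30,0),(8,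
  0)]⟩,⟨0,[(1,0)]⟩),⟨0,[(30,0)]⟩,(.r (-1) ⟨3,[(6,1),(9,1),(8,1),(9,2),(0,0)]⟩ ⟨3,[(11,0),(0,0),(30,
  0),(3,2)]⟩),.k,⟨false,0,⟨0,[]⟩,⟨1,[(28,0),(0,0),(19,0)]⟩⟩,⟨true,0,⟨0,[(47,0)]⟩,⟨0,[(46,0)]⟩⟩,
  ⟨true,0,⟨0,[(46,0)]⟩,⟨0,[(47,0)]⟩⟩,⟨false,1,⟨1,[(28,0),(0,0),(19,0)]⟩,⟨0,[]⟩⟩,[.o ⟨false,1,⟨0,[(3,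
  0),(30,0)]⟩,⟨0,[(0,0)]⟩⟩,.e ⟨false,1,⟨9,[(5,1),(0,2),(9,5),(8,2),(7,0),(15,0)]⟩,⟨3,[(11,0),(0,0),
  (30,0),(3,2)]⟩⟩ ⟨false,1,⟨0,[(49,0)]⟩,⟨0,[(43,0)]⟩⟩,.a ⟨true,0,⟨0,[(3,0),(5,0),(2,1),(7,0)]⟩,⟨1,
  [(29,1),(5,0),(0,0)]⟩⟩ ⟨true,0,⟨5,[(5,1),(8,1),(20,0),(0,2)]⟩,⟨3,[(11,0),(0,0),(30,0),(3,2)]⟩⟩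
  ⟨false,1,⟨1,[(35,0),(0,0),(12,1)]⟩,⟨4,[(11,0),(0,0),(30,0),(1,0)]⟩⟩,.e ⟨false,1,⟨9,[(5,1),(0,2),
  (9,5),(8,2),(7,0),(15,0)]⟩,⟨0,[(47,0)]⟩⟩ ⟨false,1,⟨0,[(49,0)]⟩,⟨0,[(51,0)]⟩⟩]⟩) (.R ⟨2,false,
  false,true,[0,1],[1,0,0,0,-1],[0,0,1],(⟨0,[]⟩,⟨0,[]⟩),(⟨0,[(30,0)]⟩,⟨0,[(31,0)]⟩),⟨0,[]⟩,.k,.k,.k,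
  (.r 0 ⟨5,[(5,0),(17,2),(9,1),(2,2),(9,0)]⟩ ⟨5,[(21,1),(6,0),(0,0),(19,2)]⟩),.k,.k,⟨true,0,⟨1,[(35,
  0),(0,0)]⟩,⟨0,[]⟩⟩,⟨false,0,⟨0,[(0,0),(50,0)]⟩,⟨1,[(29,1),(14,0),(3,0)]⟩⟩,⟨true,0,⟨0,[(47,0)]⟩,⟨0,
  [(46,0)]⟩⟩,⟨false,0,⟨0,[(0,0),(46,0)]⟩,⟨4,[(6,1),(9,0),(6,0),(1,0),(3,4),(13,0),(0,1)]⟩⟩,⟨false,1,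
  ⟨1,[(28,0),(0,0),(19,0)]⟩,⟨0,[]⟩⟩,⟨false,0,⟨0,[(0,0)]⟩,⟨1,[(28,0),(0,2),(14,0)]⟩⟩,[.a ⟨true,0,⟨0,
  [(0,0),(50,0)]⟩,⟨0,[(29,0)]⟩⟩ ⟨true,0,⟨1,[(35,0),(0,0)]⟩,⟨0,[]⟩⟩ ⟨false,0,⟨0,[(0,0),(50,0)]⟩,⟨1,
  [(29,1),(14,0),(3,0)]⟩⟩,.e ⟨false,1,⟨1,[(28,0),(0,0),(19,0)]⟩,⟨4,[(11,0),(0,0),(30,0),(1,0)]⟩⟩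
  ⟨false,0,⟨0,[(0,0)]⟩,⟨3,[(28,0),(0,4),(13,1),(0,1),(3,0)]⟩⟩,.o ⟨false,1,⟨1,[(44,0),(3,0)]⟩,⟨1,
  [(35,0),(0,0)]⟩⟩,.fo]⟩)) (.R ⟨0,false,false,true,[0,0,0,0,1],[0,1],[1,1,1,1],(⟨0,[(30,0)]⟩,⟨0,
  [(29,0)]⟩),(⟨0,[(41,0)]⟩,⟨0,[(40,0)]⟩),⟨0,[(0,0)]⟩,.k,.k,(.r 0 ⟨3,[(10,0),(0,0),(30,0),(3,2)]⟩ ⟨3,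
  [(5,1),(9,1),(8,1),(9,2),(0,0)]⟩),(.r 0 ⟨3,[(10,0),(0,0),(30,0),(3,2)]⟩ ⟨3,[(5,1),(9,1),(8,1),(9,
  2),(0,0)]⟩),.k,.k,⟨true,0,⟨0,[]⟩,⟨1,[(34,0),(0,0)]⟩⟩,⟨false,1,⟨16,[(2,11),(0,1),(4,3),(0,5),(0,3),
  (0,17),(15,4),(15,3)]⟩,⟨1,[(28,1),(5,0),(0,0)]⟩⟩,⟨true,0,⟨5,[(4,1),(8,1),(20,0),(0,2)]⟩,⟨3,[(10,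
  0),(0,0),(30,0),(3,2)]⟩⟩,⟨false,1,⟨0,[(2,0),(14,0)]⟩,⟨0,[(28,0),(17,0)]⟩⟩,⟨false,0,⟨0,[]⟩,⟨0,[]⟩⟩,
  ⟨false,0,⟨0,[]⟩,⟨0,[]⟩⟩,[.e ⟨false,0,⟨0,[(45,0)]⟩,⟨5,[(20,1),(6,0),(0,0),(19,2)]⟩⟩ ⟨false,0,⟨1,
  [(2,1),(0,0),(4,1),(2,3),(6,0)]⟩,⟨11,[(15,1),(4,3),(7,11),(3,1),(1,4),(0,6),(12,5)]⟩⟩,.o ⟨false,1,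
  ⟨4,[(5,1),(9,0),(6,0),(1,0),(17,0),(0,1)]⟩,⟨0,[(46,0)]⟩⟩,.a ⟨true,0,⟨0,[(28,0)]⟩,⟨1,[(2,1),(5,1),
  (2,2),(20,0),(1,0)]⟩⟩ ⟨false,0,⟨5,[(4,1),(8,1),(20,0),(0,2)]⟩,⟨5,[(20,1),(6,0),(0,0),(19,2)]⟩⟩
  ⟨true,0,⟨7,[(2,5),(0,2),(4,7),(2,11),(1,1),(4,4),(8,1),(6,1)]⟩,⟨0,[(28,0),(17,0)]⟩⟩,.e ⟨true,0,⟨0,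
  [(45,0)]⟩,⟨0,[(46,0)]⟩⟩ ⟨true,0,⟨1,[(2,1),(0,0),(4,1),(2,3),(6,0)]⟩,⟨1,[(28,1),(5,0),(0,0),(10,
  1)]⟩⟩]⟩))) (.Q [0,0,0,0,0,0,0,0,1,-1,0,1] (.p true [0,0,0,0,1] [1] (⟨0,[(28,0)]⟩,⟨0,[(27,0)]⟩) .k
  1 (⟨0,[]⟩,⟨0,[]⟩) .k .k) (.Q [0,0,-1,0,0,0,0,0,1,-1,0,1] (.p true [0,0,0,0,1] [1] (⟨0,[(29,0)]⟩,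
  ⟨0,[(28,0)]⟩) .k 1 (⟨0,[]⟩,⟨0,[]⟩) .k .k) (.Q [0,0,0,1,1,0,0,0,-1,0,0,-1] (.p false [0,0,0,0,1]
  [] (⟨0,[(30,0)]⟩,⟨0,[(29,0)]⟩) .k 0 (⟨0,[]⟩,⟨0,[]⟩) .k .k) (.Q [0,0,0,0,0,-1,0,0,0,1,0,-1] (.ed
  true [0,1,0,0,1] .k) (.Q [0,-1,0,-1,1,0,0,0,-1,1,0,-1] (.p false [0,0,0,0,1] [1] (⟨0,[(32,0)]⟩,⟨0,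
  [(31,0)]⟩) .k 1 (⟨0,[]⟩,⟨0,[]⟩) .k .k) (.S ⟨1,0,[0,-1,0,-1],[1,0,0,0,-1],[1],(⟨0,[(32,0)]⟩,⟨0,
  [(33,0)]⟩),⟨0,[(1,0)]⟩,.k,(.r (-1) ⟨65,[(0,7),(7,3),(9,3),(4,21),(3,1),(3,7),(14,2),(4,24)]⟩ ⟨5,
  [(7,0),(17,2),(9,1),(2,2),(9,0)]⟩),⟨false,0,⟨0,[]⟩,⟨21,[(0,7),(7,3),(9,3),(8,1),(3,7),(14,2),(4,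
  2)]⟩⟩,⟨true,0,⟨0,[(49,0)]⟩,⟨0,[(48,0)]⟩⟩,⟨true,0,⟨0,[(48,0)]⟩,⟨0,[(49,0)]⟩⟩,⟨false,1,⟨21,[(0,7),
  (7,3),(9,3),(8,1),(3,7),(14,2),(4,2)]⟩,⟨0,[]⟩⟩,[.a ⟨true,1,⟨0,[(0,0)]⟩,⟨1,[(3,1),(3,0),(3,1),(2,
  1),(7,0),(14,1)]⟩⟩ ⟨true,0,⟨0,[]⟩,⟨1,[(37,0),(0,0)]⟩⟩ ⟨false,1,⟨65,[(0,7),(7,3),(9,3),(4,21),(3,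
  1),(3,7),(14,2),(4,24)]⟩,⟨0,[(48,0)]⟩⟩,.o ⟨false,2,⟨1,[(0,1),(45,0),(4,0)]⟩,⟨1,[(3,1),(2,0),(4,1),
  (2,1),(6,0),(15,1)]⟩⟩,.o ⟨false,1,⟨0,[(30,0)]⟩,⟨0,[(4,0)]⟩⟩,.o ⟨false,1,⟨1,[(30,1),(6,0),(0,0)]⟩,
  ⟨0,[(3,0)]⟩⟩]⟩) (.R ⟨1,false,false,false,[0,0,1],[0,0,0,0,1],[0,0,0,-1,0,0,0,1],(⟨0,[(40,0)]⟩,⟨0,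
  [(39,0)]⟩),(⟨0,[(33,0)]⟩,⟨0,[(32,0)]⟩),⟨0,[(29,0)]⟩,.k,.k,.k,.k,(.r (-1) ⟨6,[(10,0),(2,1),(8,2),
  (0,1),(3,0),(10,2),(12,4)]⟩ ⟨0,[(25,0)]⟩),.k,⟨false,1,⟨6,[(10,0),(2,1),(8,2),(0,1),(3,0),(10,2),
  (12,4)]⟩,⟨2,[(14,0),(1,0),(8,0),(21,0)]⟩⟩,⟨true,(-1),⟨1,[(0,1),(10,0),(0,0),(24,0),(11,1),(1,0)]⟩,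
  ⟨0,[(30,0),(6,0)]⟩⟩,⟨true,0,⟨0,[(49,0)]⟩,⟨0,[(48,0)]⟩⟩,⟨true,(-1),⟨7,[(0,5),(4,0),(5,2),(0,2),(4,
  6),(5,1),(7,0),(5,1)]⟩,⟨0,[(22,0),(7,0)]⟩⟩,⟨false,1,⟨1,[(30,0),(0,0),(19,0)]⟩,⟨0,[]⟩⟩,⟨true,(-1),
  ⟨5,[(0,3),(4,0),(5,0),(0,2),(3,1),(0,2),(13,0)]⟩,⟨0,[(22,0),(7,0),(18,0)]⟩⟩,[.o ⟨false,(-1),⟨0,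
  [(0,0),(48,0)]⟩,⟨1,[(30,2),(0,0),(19,0)]⟩⟩,.o ⟨false,0,⟨0,[(4,0)]⟩,⟨0,[(30,0)]⟩⟩,.o ⟨false,1,⟨5,
  [(10,1),(7,2),(4,0),(1,0),(11,1),(8,1)]⟩,⟨0,[(24,0)]⟩⟩,.a ⟨true,0,⟨0,[(37,0)]⟩,⟨0,[(34,0)]⟩⟩
  ⟨false,1,⟨6,[(10,0),(2,1),(8,2),(0,1),(3,0),(10,2),(12,4)]⟩,⟨0,[(16,0)]⟩⟩ ⟨true,(-1),⟨7,[(0,5),(4,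
  0),(5,2),(0,2),(9,0),(0,1),(7,0),(5,0)]⟩,⟨0,[(30,0),(6,0)]⟩⟩]⟩)) (.R ⟨0,false,false,false,[1,0,0,
  0,-1],[1,1,-1],[1,0,1,1,0,0,0,-1],(⟨0,[(31,0)]⟩,⟨0,[(32,0)]⟩),(⟨0,[(38,0),(1,0)]⟩,⟨0,[(28,0)]⟩),
  ⟨0,[(0,0)]⟩,.k,.k,(.r (-1) ⟨5,[(22,1),(6,0),(0,0),(19,2)]⟩ ⟨5,[(6,0),(17,2),(9,1),(2,2),(9,0)]⟩),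
  (.r (-1) ⟨6,[(9,0),(2,1),(8,2),(0,1),(3,0),(10,2),(12,4)]⟩ ⟨0,[(24,0)]⟩),.k,.k,⟨true,0,⟨0,[]⟩,⟨1,
  [(36,0),(0,0)]⟩⟩,⟨false,0,⟨4,[(2,3),(8,2),(14,0),(3,0)]⟩,⟨0,[(29,0),(6,0)]⟩⟩,⟨false,0,⟨0,[(15,
  0)]⟩,⟨6,[(9,0),(2,1),(8,2),(0,1),(3,0),(10,2),(12,4)]⟩⟩,⟨true,(-1),⟨2,[(2,2),(3,0),(3,2),(2,2),(1,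
  0),(20,1)]⟩,⟨0,[(21,0),(7,0),(18,0)]⟩⟩,⟨false,0,⟨0,[]⟩,⟨0,[]⟩⟩,⟨false,0,⟨0,[]⟩,⟨0,[]⟩⟩,[.a ⟨true,
  0,⟨0,[(15,0),(17,0)]⟩,⟨0,[(21,0),(26,0)]⟩⟩ ⟨true,0,⟨0,[(15,0)]⟩,⟨4,[(10,1),(9,1),(0,2),(0,0),(14,
  0),(10,1),(1,0)]⟩⟩ ⟨false,0,⟨4,[(2,3),(8,2),(3,4),(10,0),(3,0)]⟩,⟨0,[(21,0),(7,0),(18,0)]⟩⟩,.o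
  ⟨false,1,⟨0,[(19,0),(30,0)]⟩,⟨0,[(20,0),(27,0)]⟩⟩,.o ⟨false,1,⟨0,[(29,0)]⟩,⟨0,[(3,0)]⟩⟩,.o ⟨false,
  1,⟨1,[(29,1),(6,0),(0,0)]⟩,⟨0,[(2,0)]⟩⟩]⟩)) (.R ⟨2,true,false,false,[0,1],[0,0,0,0,1],[1,0,1,1],
  (⟨0,[]⟩,⟨0,[]⟩),(⟨0,[(31,0)]⟩,⟨0,[(30,0)]⟩),⟨0,[]⟩,.k,.k,.k,(.r (-1) ⟨3,[(6,1),(9,1),(8,1),(9,2),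
  (0,0)]⟩ ⟨3,[(11,0),(0,0),(30,0),(3,2)]⟩),.k,.k,⟨false,1,⟨9,[(5,1),(0,2),(9,5),(8,2),(7,0),(15,
  0)]⟩,⟨3,[(11,0),(0,0),(30,0),(3,2)]⟩⟩,⟨true,(-1),⟨8,[(0,5),(1,2),(2,1),(3,2),(4,1),(20,3)]⟩,⟨0,
  [(28,0)]⟩⟩,⟨true,0,⟨0,[]⟩,⟨0,[(51,0)]⟩⟩,⟨false,(-1),⟨0,[(0,0)]⟩,⟨9,[(5,1),(0,2),(9,5),(8,2),(2,9),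
  (4,0),(15,0)]⟩⟩,⟨false,1,⟨9,[(5,1),(0,2),(9,5),(8,2),(7,0),(15,0)]⟩,⟨0,[(47,0)]⟩⟩,⟨true,(-1),⟨6,
  [(0,3),(2,2),(1,1),(27,0)]⟩,⟨0,[(28,0)]⟩⟩,[]⟩)) (.Q [0,0,0,0,0,0,1,0,1,-1,1,1] (.p true [0,0,1]
  [1,0,0,0,-1] (⟨0,[(37,0)]⟩,⟨0,[(36,0)]⟩) .k 2 (⟨0,[(29,0)]⟩,⟨0,[(30,0)]⟩) .k (.r 0 ⟨1,[(18,0),(5,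
  0),(7,0)]⟩ ⟨0,[(15,0)]⟩)) (.K ⟨0,[1,0,0,0,-1],0,1,(⟨0,[(30,0)]⟩,⟨0,[(31,0)]⟩),.k,(.r (-1) ⟨5,[(21,
  1),(6,0),(0,0),(19,2)]⟩ ⟨5,[(5,0),(17,2),(9,1),(2,2),(9,0)]⟩),(.r (-1) ⟨1,[(1,0),(4,0),(9,0),(12,
  0),(6,0)]⟩ ⟨4,[(1,0),(1,0),(7,0),(0,0),(6,0),(1,0),(25,0)]⟩),.k,.k,[⟨0,[(0,0)]⟩,⟨0,[(1,0)]⟩,⟨0,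
  [(0,0),(8,0),(2,0),(6,0)]⟩,⟨4,[(1,3),(14,1),(8,0),(2,0),(4,1),(14,1)]⟩]⟩) (.Q [0,1,0,0,-1,0,0,0,1,
  0,0,1] (.p true [0,0,0,0,1] [] (⟨0,[(31,0)]⟩,⟨0,[(30,0)]⟩) .k 0 (⟨0,[]⟩,⟨0,[]⟩) .k .k) (.Q [0,0,0,
  0,0,-1,0,0,0,0,0,1] (.ed false [1,-1,0,0,1] .k) (.Q [0,2,0,-1,-1,0,0,0,1,-1,0,1] (.p true [0,0,0,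
  0,1] [1] (⟨0,[(33,0)]⟩,⟨0,[(32,0)]⟩) .k 1 (⟨0,[]⟩,⟨0,[]⟩) .k .k) (.S ⟨1,0,[0,2,0,-1],[0,0,0,0,1],
  [1,1],(⟨0,[(34,0)]⟩,⟨0,[(33,0)]⟩),⟨0,[(1,0)]⟩,.k,(.r 0 ⟨13,[(0,2),(3,2),(9,1),(0,1),(8,2),(21,
  1)]⟩ ⟨1,[(4,0),(4,0),(9,0),(12,0),(6,0)]⟩),⟨true,0,⟨0,[]⟩,⟨0,[(54,0)]⟩⟩,⟨false,0,⟨0,[(50,0)]⟩,⟨15,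
  [(4,1),(3,1),(0,5),(9,7),(8,3),(3,1),(18,0),(0,0)]⟩⟩,⟨false,1,⟨15,[(4,1),(3,1),(0,5),(9,7),(8,3),
  (3,1),(18,0),(0,0)]⟩,⟨0,[(50,0)]⟩⟩,⟨true,0,⟨0,[(54,0)]⟩,⟨0,[]⟩⟩,[.o ⟨false,(-1),⟨0,[(0,0)]⟩,⟨1,
  [(3,0),(5,0),(9,0),(11,0),(20,0)]⟩⟩,.a ⟨true,(-1),⟨0,[(2,0),(47,0)]⟩,⟨1,[(4,1),(4,0),(3,0),(5,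
  0)]⟩⟩ ⟨true,0,⟨0,[]⟩,⟨1,[(38,0),(0,0)]⟩⟩ ⟨false,0,⟨13,[(0,2),(3,2),(9,1),(0,1),(8,2),(21,1)]⟩,⟨15,
  [(4,1),(3,1),(0,5),(9,7),(8,3),(3,1),(18,0),(0,0)]⟩⟩,.o ⟨false,0,⟨0,[(5,0)]⟩,⟨0,[(31,0)]⟩⟩,.o
  ⟨false,0,⟨1,[(5,1),(32,0),(0,0)]⟩,⟨0,[(3,0),(11,0),(6,0),(29,0)]⟩⟩]⟩) (.S ⟨1,0,[0,2,0,-1],[0,0,0,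
  0,1],[0,1,0,-1],(⟨0,[(34,0)]⟩,⟨0,[(33,0)]⟩),⟨0,[(1,0)]⟩,.k,(.r 0 ⟨4,[(4,0),(1,0),(7,0),(0,0),(6,
  0),(1,0),(25,0)]⟩ ⟨1,[(4,0),(4,0),(9,0),(12,0),(6,0)]⟩),⟨true,0,⟨0,[(50,0)]⟩,⟨0,[(49,0)]⟩⟩,⟨false,
  0,⟨0,[(50,0)]⟩,⟨12,[(0,1),(8,4),(9,5),(8,2),(3,1),(3,0),(12,0)]⟩⟩,⟨false,1,⟨1,[(31,0),(0,0),(19,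
  0)]⟩,⟨0,[]⟩⟩,⟨true,0,⟨0,[(54,0)]⟩,⟨0,[]⟩⟩,[.e ⟨false,0,⟨4,[(4,0),(1,0),(7,0),(0,0),(6,0),(1,0),
  (25,0)]⟩,⟨12,[(0,1),(8,4),(9,5),(8,2),(3,1),(3,0),(12,0)]⟩⟩ ⟨false,0,⟨2,[(4,0),(1,0),(15,0),(1,0),
  (21,0),(7,0)]⟩,⟨0,[(0,0),(4,0)]⟩⟩,.a ⟨true,(-1),⟨0,[(2,0),(47,0)]⟩,⟨12,[(0,9),(3,1),(14,1),(8,0),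
  (2,0),(4,1),(9,1),(2,2)]⟩⟩ ⟨true,0,⟨0,[(50,0)]⟩,⟨5,[(8,1),(8,1),(20,0),(0,2)]⟩⟩ ⟨false,0,⟨4,[(4,
  0),(1,0),(7,0),(0,0),(6,0),(1,0),(25,0)]⟩,⟨12,[(0,1),(8,4),(9,5),(8,2),(3,1),(3,0),(12,0)]⟩⟩,.o
  ⟨false,0,⟨0,[(5,0)]⟩,⟨0,[(31,0)]⟩⟩,.o ⟨false,0,⟨1,[(5,1),(32,0),(0,0)]⟩,⟨9,[(0,3),(2,3),(3,0),(7,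
  3),(6,2),(1,1),(6,1),(15,1)]⟩⟩]⟩)) (.R ⟨0,false,false,true,[0,0,0,0,1],[1,0,-1],[0,1,1],(⟨0,[(33,
  0)]⟩,⟨0,[(32,0)]⟩),(⟨0,[(39,0)]⟩,⟨0,[(40,0)]⟩),⟨0,[(0,0)]⟩,.k,.k,(.r 0 ⟨4,[(3,0),(1,0),(7,0),(0,
  0),(6,0),(1,0),(25,0)]⟩ ⟨1,[(3,0),(4,0),(9,0),(12,0),(6,0)]⟩),.k,.k,.k,⟨false,0,⟨3,[(10,0),(0,0),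
  (1,0),(8,0),(15,0),(12,0)]⟩,⟨3,[(14,0),(3,2),(26,0),(4,0)]⟩⟩,⟨true,0,⟨0,[(2,0)]⟩,⟨0,[(4,0),(32,
  0)]⟩⟩,⟨true,0,⟨1,[(37,0),(0,0)]⟩,⟨4,[(13,0),(0,0),(30,0),(1,0)]⟩⟩,⟨false,1,⟨0,[(2,0),(15,0)]⟩,⟨0,
  [(4,0),(17,0)]⟩⟩,⟨false,0,⟨0,[]⟩,⟨0,[]⟩⟩,⟨false,0,⟨0,[]⟩,⟨0,[]⟩⟩,[.o ⟨false,0,⟨0,[(36,0)]⟩,⟨0,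
  [(21,0),(29,0)]⟩⟩,.a ⟨true,0,⟨0,[(17,0),(16,0)]⟩,⟨0,[(22,0)]⟩⟩ ⟨true,0,⟨1,[(37,0),(0,0)]⟩,⟨0,[]⟩⟩
  ⟨false,1,⟨3,[(2,0),(0,0),(8,1),(1,0),(3,1),(11,1),(5,0)]⟩,⟨0,[(4,0),(17,0)]⟩⟩,.o ⟨false,0,⟨0,[(4,
  0)]⟩,⟨0,[(30,0)]⟩⟩,.o ⟨false,0,⟨1,[(4,1),(32,0),(0,0)]⟩,⟨0,[(2,0),(11,0),(6,0),(29,0)]⟩⟩]⟩)) (.R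
  ⟨1,false,false,true,[0,0,1],[1,0,0,0,-1],[1,1,0,0,0,0,0,1],(⟨0,[(39,0)]⟩,⟨0,[(38,0)]⟩),(⟨0,[(31,
  0)]⟩,⟨0,[(32,0)]⟩),⟨0,[(28,0)]⟩,.k,.k,.k,.k,(.r 0 ⟨4,[(10,0),(1,1),(7,0),(1,0),(11,1),(2,0)]⟩ ⟨3,
  [(2,0),(4,0),(7,1),(1,2),(12,0),(6,0)]⟩),.k,⟨false,0,⟨20,[(5,0),(0,0),(2,4),(2,8),(13,5),(17,2)]⟩,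
  ⟨0,[(17,0)]⟩⟩,⟨true,0,⟨0,[(1,0)]⟩,⟨0,[(3,0),(32,0)]⟩⟩,⟨false,0,⟨0,[]⟩,⟨1,[(29,0),(0,0),(19,0)]⟩⟩,
  ⟨false,1,⟨0,[(1,0),(15,0)]⟩,⟨0,[(3,0),(17,0)]⟩⟩,⟨true,0,⟨0,[(47,0)]⟩,⟨0,[(48,0)]⟩⟩,⟨false,1,⟨3,
  [(1,3),(5,0),(3,0),(3,1),(1,2)]⟩,⟨0,[(3,0),(17,0),(26,0)]⟩⟩,[.o ⟨false,1,⟨0,[(29,0)]⟩,⟨0,[(3,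
  0)]⟩⟩,.o ⟨false,1,⟨0,[(0,0)]⟩,⟨2,[(4,0),(15,0),(9,1),(14,0)]⟩⟩,.o ⟨false,1,⟨5,[(9,1),(7,2),(4,0),
  (1,0),(11,1),(8,1)]⟩,⟨0,[(23,0)]⟩⟩,.a ⟨true,0,⟨0,[(36,0)]⟩,⟨0,[(33,0)]⟩⟩ ⟨true,0,⟨20,[(5,0),(0,0),
  (2,4),(2,8),(13,5),(17,2)]⟩,⟨0,[(16,0)]⟩⟩ ⟨false,1,⟨0,[(0,0),(32,0)]⟩,⟨0,[(3,0),(32,0)]⟩⟩]⟩))))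
  (.Q [0,0,-1,0,0,0,0,0,-1,1,0,-1] (.p false [0,0,0,0,1] [1] (⟨0,[(29,0)]⟩,⟨0,[(28,0)]⟩) .k 1 (⟨0,
  []⟩,⟨0,[]⟩) .k .k) (.Q [0,0,0,0,0,-1,0,0,0,0,0,1] (.ed false [1,-1,0,0,1] .k) (.S ⟨1,0,[0,-1,1],
  [1,1,0,0,-1],[1,0,1,1],(⟨0,[(30,0),(8,0)]⟩,⟨0,[(0,0)]⟩),⟨0,[(30,0)]⟩,(.r (-1) ⟨3,[(6,1),(9,1),(8,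
  1),(9,2),(0,0)]⟩ ⟨2,[(2,0),(0,0),(15,0),(1,0)]⟩),.k,⟨false,0,⟨0,[]⟩,⟨1,[(28,0),(0,0),(19,0)]⟩⟩,
  ⟨true,0,⟨0,[(47,0)]⟩,⟨0,[(46,0)]⟩⟩,⟨true,0,⟨0,[(46,0)]⟩,⟨0,[(47,0)]⟩⟩,⟨false,1,⟨1,[(28,0),(0,0),
  (19,0)]⟩,⟨0,[]⟩⟩,[.o ⟨false,1,⟨1,[(2,1),(41,0),(4,0)]⟩,⟨2,[(3,0),(15,0),(9,1),(14,0)]⟩⟩,.e ⟨false,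
  1,⟨9,[(5,1),(0,2),(9,5),(8,2),(7,0),(15,0)]⟩,⟨2,[(2,0),(0,0),(15,0),(1,0)]⟩⟩ ⟨false,1,⟨0,[(49,
  0)]⟩,⟨0,[(43,0)]⟩⟩,.a ⟨true,0,⟨0,[(1,0)]⟩,⟨1,[(29,1),(5,0),(0,0)]⟩⟩ ⟨true,0,⟨5,[(5,1),(8,1),(20,
  0),(0,2)]⟩,⟨2,[(2,0),(0,0),(15,0),(1,0)]⟩⟩ ⟨false,1,⟨1,[(35,0),(0,0),(12,1)]⟩,⟨4,[(11,0),(0,0),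
  (30,0),(1,0)]⟩⟩,.e ⟨false,1,⟨9,[(5,1),(0,2),(9,5),(8,2),(7,0),(15,0)]⟩,⟨0,[(47,0)]⟩⟩ ⟨false,1,⟨0,
  [(49,0)]⟩,⟨0,[(51,0)]⟩⟩]⟩) (.R ⟨0,false,false,true,[0,1,0,0,-1],[1,0,-1,0,-1],[0,0,1,0,0,0,0,-1],
  (⟨0,[(0,0)]⟩,⟨0,[(31,0),(9,0)]⟩),(⟨0,[(0,0),(25,0)]⟩,⟨0,[(31,0),(6,0)]⟩),⟨0,[(31,0)]⟩,(.r (-1) ⟨3,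
  [(6,1),(9,1),(8,1),(9,2),(0,0)]⟩ ⟨2,[(2,0),(0,0),(15,0),(1,0)]⟩),.k,.k,.k,.k,.k,⟨true,0,⟨1,[(35,
  0),(0,0)]⟩,⟨0,[]⟩⟩,⟨false,0,⟨1,[(25,0),(13,0),(1,0)]⟩,⟨0,[(12,0),(6,0),(29,0)]⟩⟩,⟨true,0,⟨2,[(2,
  0),(0,0),(11,2),(3,0),(1,0)]⟩,⟨0,[(17,0)]⟩⟩,⟨false,0,⟨2,[(9,0),(5,2),(5,0),(10,0),(6,0),(1,0)]⟩,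
  ⟨5,[(6,1),(1,1),(35,0),(4,2)]⟩⟩,⟨false,0,⟨0,[]⟩,⟨0,[]⟩⟩,⟨false,0,⟨0,[]⟩,⟨0,[]⟩⟩,[.a ⟨true,0,⟨4,
  [(1,4),(7,1),(5,2),(0,0),(17,0),(9,0)]⟩,⟨0,[(20,0),(8,0)]⟩⟩ ⟨true,0,⟨0,[(15,0)]⟩,⟨3,[(8,0),(0,0),
  (1,0),(8,0),(15,0),(12,0)]⟩⟩ ⟨false,0,⟨0,[(15,0),(16,0)]⟩,⟨8,[(6,3),(1,0),(12,2),(11,2),(10,1)]⟩⟩,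
  .o ⟨false,1,⟨3,[(1,3),(7,1),(5,1),(0,1),(27,2),(4,0)]⟩,⟨0,[(19,0),(9,0)]⟩⟩,.o ⟨false,1,⟨0,[(1,0),
  (42,0)]⟩,⟨1,[(29,1),(5,0),(0,0)]⟩⟩,.o ⟨false,1,⟨0,[(2,0),(41,0)]⟩,⟨0,[(29,0)]⟩⟩]⟩)) (.Q [0,0,0,0,
  0,-1,0,0,0,0,0,1] (.ed false [1,-1,0,0,1] .k) (.S ⟨1,0,[0,0,1],[1,1,0,0,-1],[0,-1,1],(⟨0,[(30,0),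
  (8,0)]⟩,⟨0,[(0,0)]⟩),⟨0,[(30,0)]⟩,(.r (-1) ⟨3,[(6,1),(9,1),(8,1),(9,2),(0,0)]⟩ ⟨2,[(2,0),(0,0),
  (15,0),(1,0)]⟩),.k,⟨true,0,⟨0,[(47,0)]⟩,⟨0,[(46,0)]⟩⟩,⟨false,0,⟨0,[(47,0)]⟩,⟨9,[(5,1),(0,2),(9,5),
  (8,2),(7,0),(15,0)]⟩⟩,⟨false,1,⟨1,[(28,0),(0,0),(19,0)]⟩,⟨0,[]⟩⟩,⟨true,0,⟨0,[(51,0)]⟩,⟨0,[]⟩⟩,[.a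
  ⟨true,0,⟨0,[(2,0)]⟩,⟨0,[(29,0)]⟩⟩ ⟨false,1,⟨1,[(28,0),(0,0),(19,0)]⟩,⟨4,[(11,0),(0,0),(30,0),(1,
  0)]⟩⟩ ⟨true,0,⟨1,[(35,0),(0,0)]⟩,⟨0,[]⟩⟩,.o ⟨false,1,⟨1,[(2,1),(41,0),(4,0)]⟩,⟨12,[(1,7),(1,2),(0,
  2),(16,1),(7,1),(13,1),(0,0)]⟩⟩,.o ⟨false,1,⟨1,[(2,1),(41,0),(3,0)]⟩,⟨0,[(1,0)]⟩⟩,.e ⟨false,1,⟨0,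
  [(49,0)]⟩,⟨0,[(51,0)]⟩⟩ ⟨false,1,⟨1,[(28,0),(0,0),(19,0)]⟩,⟨0,[]⟩⟩]⟩) (.R ⟨0,false,false,false,[0,
  0,0,0,1],[0,0,1],[0,0,1,0,0,0,0,1],(⟨0,[(31,0)]⟩,⟨0,[(30,0)]⟩),(⟨0,[(38,0)]⟩,⟨0,[(37,0)]⟩),⟨0,[(0,
  0)]⟩,.k,.k,(.r 0 ⟨2,[(2,0),(0,0),(15,0),(1,0)]⟩ ⟨3,[(6,1),(9,1),(8,1),(9,2),(0,0)]⟩),.k,.k,.k,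
  ⟨true,0,⟨1,[(35,0),(0,0)]⟩,⟨0,[]⟩⟩,⟨false,1,⟨0,[(2,0),(9,0),(6,0),(29,0)]⟩,⟨2,[(1,1),(8,0),(14,0),
  (3,0)]⟩⟩,⟨false,1,⟨0,[(20,0),(15,0),(12,0)]⟩,⟨0,[(12,0)]⟩⟩,⟨true,1,⟨0,[(2,0),(16,0),(29,0)]⟩,⟨0,
  [(3,0)]⟩⟩,⟨false,0,⟨0,[]⟩,⟨0,[]⟩⟩,⟨false,0,⟨0,[]⟩,⟨0,[]⟩⟩,[.e ⟨false,0,⟨3,[(8,0),(0,0),(1,0),(8,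
  0),(15,0),(12,0)]⟩,⟨3,[(12,0),(3,2),(26,0),(4,0)]⟩⟩ ⟨false,1,⟨2,[(2,1),(3,0),(1,0),(12,0),(6,0)]⟩,
  ⟨0,[(3,0),(45,0)]⟩⟩,.o ⟨false,1,⟨0,[(19,0),(29,0)]⟩,⟨0,[(34,0)]⟩⟩,.a ⟨true,0,⟨0,[(29,0)]⟩,⟨0,[(2,
  0)]⟩⟩ ⟨true,0,⟨0,[(20,0),(15,0)]⟩,⟨0,[(12,0)]⟩⟩ ⟨false,1,⟨0,[(2,0),(16,0),(29,0)]⟩,⟨0,[(3,0),(45,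
  0)]⟩⟩,.o ⟨false,0,⟨0,[(1,0)]⟩,⟨1,[(2,1),(41,0),(3,0)]⟩⟩]⟩))))))) (.Q [0,-1,0,-1,0,0,-1,-1,0,1,-1]
  (.p false [0,0,1] [1] (⟨0,[(32,0)]⟩,⟨0,[(31,0)]⟩) .k 1 (⟨0,[]⟩,⟨0,[]⟩) .k .k) (.Q [0,-1,0,-2,0,0,
  -2,-2,0,1,-2] (.p false [0,0,1] [1,0,-1] (⟨0,[(33,0)]⟩,⟨0,[(32,0)]⟩) .k 2 (⟨0,[(32,0)]⟩,⟨0,[(33,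
  0)]⟩) .k (.r 0 ⟨1,[(3,0),(0,0),(1,0),(8,0),(15,0),(12,0)]⟩ ⟨5,[(7,1),(2,1),(0,4),(4,0),(1,2)]⟩))
  (.Q [0,0,0,-1,0,0,-1,-1,0,0,-1] (.p false [0,0,1] [] (⟨0,[(34,0)]⟩,⟨0,[(33,0)]⟩) .k 0 (⟨0,[]⟩,⟨0,
  []⟩) .k .k) (.R ⟨1,false,false,true,[1,0,-1],[0,1,1],[1],(⟨0,[(34,0)]⟩,⟨0,[(35,0)]⟩),(⟨0,[(35,0),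
  (0,0)]⟩,⟨0,[(23,0)]⟩),⟨0,[(23,0)]⟩,.k,.k,.k,(.r (-1) ⟨2,[(9,1),(2,1),(0,1),(4,0)]⟩ ⟨0,[(14,0),(2,
  0),(15,0)]⟩),(.r (-1) ⟨0,[(9,1),(34,1),(1,0)]⟩ ⟨0,[(14,1),(17,0),(0,0)]⟩),.k,⟨true,1,⟨0,[(9,0),
  (34,0),(1,0)]⟩,⟨1,[(5,0),(0,1),(4,0),(4,0),(15,0)]⟩⟩,⟨false,2,⟨5,[(5,5),(3,3),(3,7),(4,1),(26,0),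
  (0,0)]⟩,⟨0,[(6,0)]⟩⟩,⟨true,0,⟨3,[(5,0),(0,0),(1,0),(8,0),(15,0),(12,0)]⟩,⟨14,[(3,1),(5,5),(8,0),
  (1,6),(11,1),(8,0)]⟩⟩,⟨true,0,⟨0,[(5,0)]⟩,⟨2,[(1,1),(18,0),(8,0),(1,0)]⟩⟩,⟨true,0,⟨0,[(14,0)]⟩,⟨4,
  [(3,1),(5,0),(8,0),(1,1),(11,1),(8,0)]⟩⟩,⟨false,1,⟨0,[(5,0),(37,0),(2,0)]⟩,⟨0,[(1,0)]⟩⟩,[.a ⟨true,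
  0,⟨1,[(5,0),(30,0),(1,0),(4,0)]⟩,⟨0,[(2,0)]⟩⟩ ⟨true,0,⟨0,[]⟩,⟨1,[(32,0),(0,0)]⟩⟩ ⟨false,1,⟨3,[(5,
  3),(3,0),(3,2),(26,0),(4,0)]⟩,⟨27,[(1,13),(4,7),(0,3),(14,3),(18,0),(4,6)]⟩⟩,.o ⟨false,1,⟨3,[(5,
  1),(19,0),(0,0),(14,0),(1,1),(2,1)]⟩,⟨0,[(0,0)]⟩⟩,.o ⟨false,0,⟨0,[(19,0)]⟩,⟨5,[(5,1),(7,2),(4,0),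
  (1,0),(11,1),(8,1)]⟩⟩,.o ⟨false,0,⟨0,[(33,0)]⟩,⟨0,[(9,0),(6,0),(29,0)]⟩⟩]⟩) (.R ⟨1,false,false,
  true,[1,0,-1],[0,1,1],[1],(⟨0,[(34,0)]⟩,⟨0,[(35,0)]⟩),(⟨0,[(35,0),(0,0)]⟩,⟨0,[(23,0)]⟩),⟨0,[(23,
  0)]⟩,.k,.k,.k,(.r (-1) ⟨2,[(9,1),(2,1),(0,1),(4,0)]⟩ ⟨0,[(14,0),(2,0),(15,0)]⟩),(.r (-1) ⟨0,[(9,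
  1),(34,1),(1,0)]⟩ ⟨0,[(14,1),(17,0),(0,0)]⟩),.k,⟨true,1,⟨0,[(9,0),(34,0),(1,0)]⟩,⟨1,[(5,0),(0,1),
  (4,0),(4,0),(15,0)]⟩⟩,⟨false,2,⟨5,[(5,5),(3,3),(3,7),(4,1),(26,0),(0,0)]⟩,⟨0,[(6,0)]⟩⟩,⟨true,0,⟨3,
  [(5,0),(0,0),(1,0),(8,0),(15,0),(12,0)]⟩,⟨14,[(3,1),(5,5),(8,0),(1,6),(11,1),(8,0)]⟩⟩,⟨true,0,⟨0,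
  [(5,0)]⟩,⟨2,[(1,1),(18,0),(8,0),(1,0)]⟩⟩,⟨true,0,⟨0,[(14,0)]⟩,⟨4,[(3,1),(5,0),(8,0),(1,1),(11,1),
  (8,0)]⟩⟩,⟨false,1,⟨0,[(5,0),(37,0),(2,0)]⟩,⟨0,[(1,0)]⟩⟩,[.a ⟨true,0,⟨1,[(0,0),(29,0),(12,0)]⟩,⟨0,
  [(2,0)]⟩⟩ ⟨true,0,⟨0,[]⟩,⟨1,[(32,0),(0,0)]⟩⟩ ⟨false,1,⟨3,[(5,3),(3,0),(3,2),(26,0),(4,0)]⟩,⟨27,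
  [(1,13),(4,7),(0,3),(14,3),(18,0),(4,6)]⟩⟩,.e ⟨false,1,⟨1,[(45,0),(0,0)]⟩,⟨0,[(48,0)]⟩⟩ ⟨false,1,
  ⟨0,[(5,0),(3,0),(36,0)]⟩,⟨8,[(1,2),(1,0),(14,0),(1,1),(1,4),(10,0)]⟩⟩,.o ⟨false,0,⟨0,[(19,0)]⟩,⟨5,
  [(5,1),(7,2),(4,0),(1,0),(11,1),(8,1)]⟩⟩,.o ⟨false,0,⟨0,[(33,0)]⟩,⟨0,[(9,0),(6,0),(29,0)]⟩⟩]⟩))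
  (.R ⟨1,true,false,false,[1,0,-1],[0,1],[0,0,0,-1,0,0,0,-1],(⟨0,[(33,0)]⟩,⟨0,[(34,0)]⟩),(⟨0,[(38,
  0)]⟩,⟨0,[(37,0)]⟩),⟨0,[(22,0)]⟩,.k,.k,.k,.k,(.r (-1) ⟨2,[(8,0),(2,0),(0,0),(4,1)]⟩ ⟨15,[(0,11),(4,
  5),(4,7),(10,5),(9,8),(0,8),(12,5)]⟩),.k,⟨false,1,⟨2,[(8,0),(2,0),(0,0),(4,1)]⟩,⟨15,[(0,11),(4,5),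
  (4,7),(10,5),(9,0),(0,0),(12,5)]⟩⟩,⟨true,1,⟨0,[(8,0),(6,0),(29,0)]⟩,⟨0,[(5,0),(25,0)]⟩⟩,⟨true,0,
  ⟨0,[(43,0)]⟩,⟨0,[(42,0)]⟩⟩,⟨false,1,⟨3,[(0,1),(39,0),(4,2)]⟩,⟨3,[(2,1),(9,1),(8,0),(13,0),(1,
  0)]⟩⟩,⟨false,1,⟨1,[(24,0),(0,0),(19,0)]⟩,⟨0,[]⟩⟩,⟨true,1,⟨15,[(0,13),(11,7),(1,3),(6,3),(18,2),(4,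
  4)]⟩,⟨0,[(2,0)]⟩⟩,[]⟩)) (.R ⟨1,true,false,false,[1,0,-1],[0,1],[0,0,0,-1,0,0,0,-1],(⟨0,[(32,0)]⟩,
  ⟨0,[(33,0)]⟩),(⟨0,[(37,0)]⟩,⟨0,[(36,0)]⟩),⟨0,[(21,0)]⟩,.k,.k,.k,.k,(.r (-1) ⟨2,[(7,0),(2,0),(0,0),
  (4,1)]⟩ ⟨3,[(9,1),(2,5),(17,2),(0,2)]⟩),.k,⟨false,1,⟨2,[(7,0),(2,0),(0,0),(4,1)]⟩,⟨3,[(9,1),(2,5),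
  (17,0),(0,0)]⟩⟩,⟨true,1,⟨0,[(7,0),(6,0),(29,0)]⟩,⟨0,[(4,0),(25,0)]⟩⟩,⟨true,0,⟨0,[(42,0)]⟩,⟨0,[(41,
  0)]⟩⟩,⟨false,1,⟨0,[(0,0),(43,0)]⟩,⟨3,[(1,1),(9,1),(8,0),(13,0),(1,0)]⟩⟩,⟨false,1,⟨1,[(23,0),(0,0),
  (19,0)]⟩,⟨0,[]⟩⟩,⟨true,1,⟨0,[(0,0),(40,0),(2,0)]⟩,⟨0,[(1,0)]⟩⟩,[]⟩)))))))

theorem ok94 : chk K t94 l55 = true := by decide +kernel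


end Helper25.S1T.Ymp_1cP4
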