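import Pool.Agent.Helper25.S1T.Ymp_1cP4_q

set_option autoImplicit false
set_option linter.all false

namespace Helper25.S1T.Ymp_1cP4

open Helper25.KG Helper25.KW Helper55.KE Helper11.CT

noncomputable def t95 : Tre :=
  (.Q [0,0,0,0,0,2,0,0,0,0,-1] (.p false [0,0,1] [] (⟨0,[(27,0)]⟩,⟨0,[(26,0)]⟩) .k 0 (⟨0,[]⟩,⟨0,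
  []⟩) .k .k) (.Q [0,-1,0,1,1,0,0,0,0,-1] (.pp true [-1,1]) (.R ⟨0,false,false,true,[0,-1,1],[1,-1],
  [0,1,-1,-1,0,0,0,1],(⟨0,[(18,0)]⟩,⟨0,[(1,0),(30,0)]⟩),(⟨0,[(32,0)]⟩,⟨0,[(33,0)]⟩),⟨0,[(1,0)]⟩,.k,
  .k,(.r (-1) ⟨5,[(8,2),(2,0),(0,4),(11,1),(2,2),(12,0)]⟩ ⟨0,[(2,0),(34,0)]⟩),.k,.k,.k,⟨true,0,⟨0,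
  [(8,0),(29,0)]⟩,⟨0,[(6,0)]⟩⟩,⟨false,0,⟨0,[(23,0)]⟩,⟨0,[(7,0),(2,0)]⟩⟩,⟨true,0,⟨0,[(42,0)]⟩,⟨0,
  []⟩⟩,⟨false,0,⟨0,[(6,0),(16,0)]⟩,⟨0,[(10,0),(29,0)]⟩⟩,⟨false,0,⟨0,[]⟩,⟨0,[]⟩⟩,⟨false,0,⟨0,[]⟩,⟨0,
  []⟩⟩,[.o ⟨false,0,⟨0,[(38,0),(3,0)]⟩,⟨0,[(0,0)]⟩⟩,.o ⟨false,0,⟨0,[(38,0)]⟩,⟨3,[(0,1),(18,0),(0,0),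
  (14,0),(1,1)]⟩⟩,.a ⟨true,0,⟨0,[(26,0)]⟩,⟨0,[(23,0)]⟩⟩ ⟨true,0,⟨0,[(10,0),(12,0),(14,0)]⟩,⟨0,[(5,
  0)]⟩⟩ ⟨false,0,⟨0,[(23,0),(14,0)]⟩,⟨0,[(0,0),(25,0)]⟩⟩,.o ⟨false,0,⟨0,[(2,0),(7,0),(27,0)]⟩,⟨1,
  [(23,1),(11,0),(3,0)]⟩⟩]⟩) (.I [1,1,2,1,-1,0,0,-1] (.Q [0,1,0,1,0,0,1,1,0,-1,1] (.p true [0,0,1]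
  [1] (⟨0,[(30,0)]⟩,⟨0,[(29,0)]⟩) .k 1 (⟨0,[]⟩,⟨0,[]⟩) .k .k) (.Q [0,-1,0,-2,0,0,-1,-1,0,1,-1] (.p
  false [0,0,1] [1] (⟨0,[(31,0)]⟩,⟨0,[(30,0)]⟩) .k 1 (⟨0,[]⟩,⟨0,[]⟩) .k .k) (.R ⟨1,true,false,true,
  [1,0,-1],[0,1],[0,1,0,-1,0,0,0,-1],(⟨0,[(31,0)]⟩,⟨0,[(32,0)]⟩),(⟨0,[(36,0)]⟩,⟨0,[(35,0)]⟩),⟨0,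
  [(20,0)]⟩,.k,.k,.k,.k,(.r (-1) ⟨2,[(6,0),(2,0),(0,0),(4,1)]⟩ ⟨6,[(5,4),(5,7),(15,3),(2,3),(9,
  0)]⟩),.k,⟨false,1,⟨2,[(6,0),(2,0),(0,0),(4,1)]⟩,⟨6,[(5,2),(5,8),(15,0),(2,0),(9,1)]⟩⟩,⟨true,1,⟨1,
  [(1,1),(3,0),(0,0),(8,0),(27,0)]⟩,⟨1,[(0,0),(2,1),(1,1),(5,1),(1,0),(2,1)]⟩⟩,⟨false,0,⟨0,[(41,
  0)]⟩,⟨0,[(40,0),(2,0)]⟩⟩,⟨true,0,⟨0,[(1,0)]⟩,⟨6,[(0,3),(2,0),(6,0),(6,1),(1,0),(6,0),(10,0)]⟩⟩,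
  ⟨true,0,⟨0,[(45,0)]⟩,⟨0,[]⟩⟩,⟨false,1,⟨0,[(1,0),(38,0),(2,0)]⟩,⟨0,[(0,0)]⟩⟩,[]⟩) (.Q [0,0,-1,0,1,
  0,2,0,0,-1,2] (.p true [0,0,1] [1,0,-1] (⟨0,[(32,0)]⟩,⟨0,[(31,0)]⟩) .k 2 (⟨0,[(31,0)]⟩,⟨0,[(32,
  0)]⟩) .k (.r 0 ⟨0,[(11,1),(29,1)]⟩ ⟨5,[(6,1),(2,1),(0,4),(4,0),(1,2)]⟩)) (.K ⟨0,[1,-1,-1],(-1),0,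
  (⟨0,[(21,0)]⟩,⟨0,[(33,0),(0,0)]⟩),.k,(.r (-1) ⟨2,[(7,0),(2,0),(0,0),(4,1)]⟩ ⟨7,[(1,0),(4,5),(5,7),
  (7,0),(7,4),(2,3)]⟩),.k,(.r (-1) ⟨2,[(7,1),(2,1),(0,1),(4,0)]⟩ ⟨0,[(12,0),(2,0),(15,0)]⟩),.k,[⟨0,
  [(0,0)]⟩,⟨0,[(4,0),(1,0),(5,0),(4,0),(24,0)]⟩,⟨0,[(2,0)]⟩,⟨2,[(4,1),(6,0),(4,0),(1,1),(1,0),(10,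
  0)]⟩]⟩) (.Q [0,0,2,0,0,0,2,0,0,-1,2] (.p true [0,0,1] [1,0,-1] (⟨0,[(33,0)]⟩,⟨0,[(32,0)]⟩) .k 2
  (⟨0,[(32,0)]⟩,⟨0,[(33,0)]⟩) .k (.r 0 ⟨3,[(0,1),(11,2),(1,1),(0,2),(0,0),(14,0),(12,0)]⟩ ⟨5,[(7,1),
  (2,1),(0,4),(4,0),(1,2)]⟩)) (.R ⟨0,false,false,false,[0,-1,1],[1,0,-1],[0,1],(⟨0,[(23,0)]⟩,⟨0,[(6,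
  0),(30,0)]⟩),(⟨0,[(33,0)]⟩,⟨0,[(34,0)]⟩),⟨0,[(6,0)]⟩,.k,.k,(.r (-1) ⟨5,[(13,2),(2,0),(0,4),(11,1),
  (2,2),(12,0)]⟩ ⟨0,[(7,0),(34,0)]⟩),(.r (-1) ⟨2,[(13,2),(2,0),(0,1),(11,1),(2,2),(12,0)]⟩ ⟨0,[(4,
  0),(3,0),(36,0)]⟩),.k,.k,⟨false,0,⟨6,[(1,0),(0,0),(2,0),(7,4),(1,0),(1,1),(21,1)]⟩,⟨0,[(12,0)]⟩⟩,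
  ⟨true,0,⟨2,[(1,0),(26,3),(11,0)]⟩,⟨0,[(0,0)]⟩⟩,⟨false,0,⟨0,[(9,0)]⟩,⟨1,[(13,0),(2,0),(0,0),(14,0),
  (12,0)]⟩⟩,⟨true,0,⟨1,[(1,0),(5,0),(0,1),(5,0),(13,0),(16,0)]⟩,⟨2,[(0,0),(0,0),(13,2),(0,2),(0,
  0)]⟩⟩,⟨false,0,⟨0,[]⟩,⟨0,[]⟩⟩,⟨false,0,⟨0,[]⟩,⟨0,[]⟩⟩,[.a ⟨true,0,⟨2,[(5,0),(1,0),(4,0),(15,1),(1,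
  0)]⟩,⟨0,[(16,0)]⟩⟩ ⟨false,0,⟨11,[(1,0),(0,1),(2,0),(2,1),(8,1),(21,1),(1,2)]⟩,⟨1,[(24,0),(0,0),
  (19,0)]⟩⟩ ⟨true,0,⟨5,[(1,3),(6,5),(19,3),(11,0),(4,2)]⟩,⟨4,[(0,3),(0,0),(13,1),(0,2),(15,0),(12,
  0)]⟩⟩,.o ⟨false,1,⟨10,[(1,2),(10,7),(1,2),(2,0),(3,0),(18,1),(4,2)]⟩,⟨0,[(15,0)]⟩⟩,.e ⟨true,0,⟨0,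
  [(47,0)]⟩,⟨0,[]⟩⟩ ⟨true,0,⟨5,[(1,3),(6,5),(19,3),(11,0),(4,2)]⟩,⟨1,[(0,0),(14,0),(13,0)]⟩⟩,.o
  ⟨false,0,⟨4,[(0,3),(0,0),(30,0),(7,0)]⟩,⟨1,[(28,1),(11,0),(3,0)]⟩⟩]⟩) (.Q [0,0,1,0,0,0,1,0,-1,0,1,
  -1] (.p true [0,0,1] [0,0,0,0,1] (⟨0,[(34,0)]⟩,⟨0,[(33,0)]⟩) .k 2 (⟨0,[(27,0)]⟩,⟨0,[(26,0)]⟩) .k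
  (.r (-1) ⟨15,[(13,5),(3,1),(3,1),(7,9),(2,5),(7,0),(4,12)]⟩ ⟨3,[(4,0),(3,0),(8,0),(1,1)]⟩)) (.Q
  [0,1,0,0,0,0,0,0,1,-1,0,1] (.p true [0,0,0,0,1] [1] (⟨0,[(28,0)]⟩,⟨0,[(27,0)]⟩) .k 1 (⟨0,[]⟩,⟨0,
  []⟩) .k .k) (.R ⟨0,false,false,true,[0,-1,1],[1,0,0,0,-1],[0,1],(⟨0,[(25,0)]⟩,⟨0,[(8,0),(30,0)]⟩),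
  (⟨0,[(28,0)]⟩,⟨0,[(29,0)]⟩),⟨0,[(8,0)]⟩,.k,.k,(.r (-1) ⟨5,[(15,2),(2,0),(0,4),(11,1),(2,2),(12,
  0)]⟩ ⟨0,[(9,0),(34,0)]⟩),(.r 0 ⟨5,[(2,0),(0,1),(13,2),(1,1),(11,2)]⟩ ⟨0,[(21,0),(25,0)]⟩),.k,.k,
  ⟨false,0,⟨8,[(2,0),(1,1),(2,0),(2,1),(8,0),(21,1)]⟩,⟨1,[(26,0),(0,0),(19,0)]⟩⟩,⟨true,0,⟨0,[(1,0),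
  (0,0)]⟩,⟨0,[(9,0),(7,0),(9,0),(17,0)]⟩⟩,⟨false,0,⟨0,[(11,0)]⟩,⟨1,[(15,0),(2,0),(0,0),(14,0),(12,
  0)]⟩⟩,⟨true,0,⟨0,[(1,0),(0,0),(9,0)]⟩,⟨0,[(17,0),(9,0),(17,0)]⟩⟩,⟨false,0,⟨0,[]⟩,⟨0,[]⟩⟩,⟨false,0,
  ⟨0,[]⟩,⟨0,[]⟩⟩,[.a ⟨true,0,⟨0,[(1,0),(28,0)]⟩,⟨0,[(27,0)]⟩⟩ ⟨false,0,⟨8,[(2,0),(1,1),(2,0),(2,1),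
  (8,0),(21,1)]⟩,⟨1,[(26,0),(0,0),(19,0)]⟩⟩ ⟨true,0,⟨0,[(1,0),(0,0)]⟩,⟨0,[(9,0),(7,0),(9,0),(17,
  0)]⟩⟩,.o ⟨false,1,⟨5,[(1,3),(0,1),(23,1),(15,0),(4,2)]⟩,⟨0,[(0,0)]⟩⟩,.e ⟨true,0,⟨0,[(49,0)]⟩,⟨0,
  []⟩⟩ ⟨true,0,⟨0,[(1,0),(0,0)]⟩,⟨0,[(0,0),(32,0)]⟩⟩,.o ⟨false,0,⟨0,[(9,0),(7,0),(27,0)]⟩,⟨3,[(2,0),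
  (20,0),(18,0),(3,2)]⟩⟩]⟩) (.R ⟨0,false,false,true,[0,-1,1],[1,0,0,0,-1],[0,1],(⟨0,[(25,0)]⟩,⟨0,
  [(8,0),(30,0)]⟩),(⟨0,[(28,0)]⟩,⟨0,[(29,0)]⟩),⟨0,[(8,0)]⟩,.k,.k,(.r (-1) ⟨5,[(15,2),(2,0),(0,4),
  (11,1),(2,2),(12,0)]⟩ ⟨0,[(9,0),(34,0)]⟩),(.r 0 ⟨5,[(2,0),(0,1),(13,2),(1,1),(11,2)]⟩ ⟨0,[(21,0),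
  (25,0)]⟩),.k,.k,⟨false,0,⟨8,[(2,0),(1,1),(2,0),(2,1),(8,0),(21,1)]⟩,⟨1,[(26,0),(0,0),(19,0)]⟩⟩,
  ⟨true,0,⟨0,[(1,0),(0,0)]⟩,⟨0,[(9,0),(7,0),(9,0),(17,0)]⟩⟩,⟨false,0,⟨0,[(11,0)]⟩,⟨1,[(15,0),(2,0),
  (0,0),(14,0),(12,0)]⟩⟩,⟨true,0,⟨0,[(0,0),(15,0)]⟩,⟨0,[(17,0),(9,0),(17,0)]⟩⟩,⟨false,0,⟨0,[]⟩,⟨0,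
  []⟩⟩,⟨false,0,⟨0,[]⟩,⟨0,[]⟩⟩,[.a ⟨true,0,⟨2,[(0,1),(6,0),(18,0),(17,0)]⟩,⟨0,[(27,0)]⟩⟩ ⟨false,0,
  ⟨8,[(2,0),(1,1),(2,0),(2,1),(8,0),(21,1)]⟩,⟨1,[(26,0),(0,0),(19,0)]⟩⟩ ⟨true,0,⟨0,[(1,0),(0,0)]⟩,
  ⟨0,[(9,0),(7,0),(9,0),(17,0)]⟩⟩,.e ⟨false,1,⟨1,[(26,0),(0,0),(18,0)]⟩,⟨0,[]⟩⟩ ⟨false,1,⟨7,[(0,5),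
  (1,3),(23,1),(15,0),(3,3),(0,0)]⟩,⟨0,[(13,0),(3,0),(9,0)]⟩⟩,.e ⟨true,0,⟨0,[(49,0)]⟩,⟨0,[]⟩⟩ ⟨true,
  0,⟨0,[(1,0),(0,0)]⟩,⟨0,[(13,0),(3,0),(9,0)]⟩⟩,.o ⟨false,0,⟨0,[(9,0),(7,0),(27,0)]⟩,⟨3,[(2,0),(20,
  0),(18,0),(3,2)]⟩⟩]⟩)) (.Q [0,0,0,0,0,0,0,0,-1,1,0,-1] (.p false [0,0,0,0,1] [1] (⟨0,[(28,0)]⟩,⟨0,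
  [(27,0)]⟩) .k 1 (⟨0,[]⟩,⟨0,[]⟩) .k .k) (.R ⟨0,false,false,false,[0,-1,1],[0,0,0,0,1],[],(⟨0,[(25,
  0)]⟩,⟨0,[(8,0),(30,0)]⟩),(⟨0,[(29,0)]⟩,⟨0,[(28,0)]⟩),⟨0,[(8,0)]⟩,.k,.k,(.r (-1) ⟨5,[(15,2),(2,0),
  (0,4),(11,1),(2,2),(12,0)]⟩ ⟨0,[(9,0),(34,0)]⟩),(.r (-1) ⟨1,[(15,0),(2,0),(0,0),(14,0),(12,0)]⟩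
  ⟨0,[(21,0)]⟩),.k,.k,⟨false,1,⟨1,[(46,0),(0,0)]⟩,⟨0,[(49,0)]⟩⟩,⟨true,0,⟨0,[(1,0)]⟩,⟨0,[(0,0),(8,0),
  (7,0),(27,0)]⟩⟩,⟨true,0,⟨0,[(11,0)]⟩,⟨5,[(2,0),(0,1),(13,2),(1,1),(11,2)]⟩⟩,⟨false,0,⟨0,[(1,0),
  (10,0)]⟩,⟨0,[(0,0),(16,0),(27,0),(1,0)]⟩⟩,⟨false,0,⟨0,[]⟩,⟨0,[]⟩⟩,⟨false,0,⟨0,[]⟩,⟨0,[]⟩⟩,[.o
  ⟨false,0,⟨9,[(1,2),(4,1),(0,1),(2,0),(6,3),(9,6),(4,0),(9,3)]⟩,⟨1,[(0,1),(41,0),(4,0)]⟩⟩,.a ⟨true,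
  0,⟨0,[(27,0)]⟩,⟨0,[(0,0)]⟩⟩ ⟨false,1,⟨1,[(46,0),(0,0)]⟩,⟨0,[(49,0)]⟩⟩ ⟨true,0,⟨0,[(1,0)]⟩,⟨0,[(0,
  0),(8,0),(7,0),(27,0)]⟩⟩,.e ⟨false,1,⟨1,[(26,0),(0,0),(19,0)]⟩,⟨0,[]⟩⟩ ⟨false,0,⟨0,[(1,0)]⟩,⟨1,
  [(0,1),(32,1),(8,0),(4,0)]⟩⟩,.o ⟨false,0,⟨0,[(9,0),(7,0),(27,0)]⟩,⟨3,[(2,0),(20,0),(18,0),(3,
  2)]⟩⟩]⟩) (.Q [0,0,0,1,1,0,0,0,-1,0,0,-1] (.p false [0,0,0,0,1] [] (⟨0,[(29,0)]⟩,⟨0,[(28,0)]⟩) .k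
  0 (⟨0,[]⟩,⟨0,[]⟩) .k .k) (.Q [0,1,-1,0,-1,0,-1,0,1,0,-1,1] (.p false [0,0,1] [0,0,0,0,1] (⟨0,[(37,
  0)]⟩,⟨0,[(36,0)]⟩) .k 2 (⟨0,[(30,0)]⟩,⟨0,[(29,0)]⟩) .k (.r (-1) ⟨15,[(16,5),(3,1),(3,1),(7,9),(2,
  5),(7,0),(4,12)]⟩ ⟨3,[(7,0),(3,0),(8,0),(1,1)]⟩)) (.R ⟨0,false,false,true,[0,-1,1],[0,0,0,0,1],[],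
  (⟨0,[(27,0)]⟩,⟨0,[(10,0),(30,0)]⟩),(⟨0,[(31,0)]⟩,⟨0,[(30,0)]⟩),⟨0,[(10,0)]⟩,.k,.k,(.r (-1) ⟨5,
  [(17,2),(2,0),(0,4),(11,1),(2,2),(12,0)]⟩ ⟨0,[(11,0),(34,0)]⟩),(.r (-1) ⟨1,[(17,0),(2,0),(0,0),
  (14,0),(12,0)]⟩ ⟨0,[(23,0)]⟩),.k,.k,⟨true,1,⟨0,[(49,0)]⟩,⟨8,[(5,0),(2,3),(0,3),(9,4),(14,0),(1,1),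
  (6,1)]⟩⟩,⟨false,0,⟨1,[(0,1),(47,0),(0,0)]⟩,⟨0,[(28,0),(6,0)]⟩⟩,⟨true,0,⟨0,[(13,0)]⟩,⟨5,[(4,0),(0,
  1),(13,2),(1,1),(11,2)]⟩⟩,⟨false,(-1),⟨0,[(0,0),(13,0)]⟩,⟨0,[(20,0),(7,0),(18,0),(1,0)]⟩⟩,⟨false,
  0,⟨0,[]⟩,⟨0,[]⟩⟩,⟨false,0,⟨0,[]⟩,⟨0,[]⟩⟩,[.o ⟨false,(-1),⟨12,[(0,6),(1,5),(5,6),(0,0),(9,7),(1,1),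
  (12,0),(8,0)]⟩,⟨0,[(28,0),(20,0)]⟩⟩,.a ⟨true,(-1),⟨0,[(0,0),(34,0)]⟩,⟨0,[(1,0),(7,0),(39,0)]⟩⟩
  ⟨false,1,⟨1,[(48,0),(0,0)]⟩,⟨0,[(51,0)]⟩⟩ ⟨true,(-1),⟨0,[(0,0)]⟩,⟨0,[(11,0),(8,0),(7,0),(18,0)]⟩⟩,
  .e ⟨false,1,⟨1,[(28,0),(0,0),(19,0)]⟩,⟨0,[]⟩⟩ ⟨false,(-1),⟨0,[(0,0)]⟩,⟨0,[(28,0),(6,0),(13,0)]⟩⟩,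
  .o ⟨false,0,⟨0,[(11,0),(7,0),(27,0)]⟩,⟨3,[(4,0),(20,0),(18,0),(3,2)]⟩⟩]⟩) (.Q [0,-1,0,-1,1,0,1,1,
  -1,0,1,-1] (.p true [0,0,1] [0,0,0,0,1] (⟨0,[(38,0)]⟩,⟨0,[(37,0)]⟩) .k 2 (⟨0,[(31,0)]⟩,⟨0,[(30,
  0)]⟩) .k (.r (-1) ⟨15,[(17,5),(3,1),(3,1),(7,9),(2,5),(7,0),(4,12)]⟩ ⟨3,[(8,0),(3,0),(8,0),(1,
  1)]⟩)) (.Q [0,0,0,0,0,-1,0,0,0,0,0,1] (.ed false [1,-1,0,0,1] .k) (.Q [0,2,0,-1,-1,0,0,0,1,-1,0,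
  1] (.p true [0,0,0,0,1] [1] (⟨0,[(33,0)]⟩,⟨0,[(32,0)]⟩) .k 1 (⟨0,[]⟩,⟨0,[]⟩) .k .k) (.S ⟨1,0,[0,2,
  0,-1],[0,0,0,0,1],[1,1],(⟨0,[(34,0)]⟩,⟨0,[(33,0)]⟩),⟨0,[(1,0)]⟩,.k,(.r 0 ⟨32,[(0,4),(6,1),(4,6),
  (2,3),(6,3),(1,6),(6,4),(14,3)]⟩ ⟨3,[(3,0),(0,1),(9,0),(5,0),(11,2),(6,0),(12,0)]⟩),⟨true,0,⟨0,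
  []⟩,⟨0,[(54,0)]⟩⟩,⟨false,0,⟨0,[(50,0)]⟩,⟨7,[(4,2),(4,1),(4,0),(4,0),(12,2),(2,1),(16,3)]⟩⟩,⟨false,
  1,⟨7,[(4,2),(4,1),(4,0),(4,0),(12,2),(2,1),(16,3)]⟩,⟨0,[(50,0)]⟩⟩,⟨true,0,⟨0,[(54,0)]⟩,⟨0,[]⟩⟩,
  [.o ⟨false,(-1),⟨0,[(0,0)]⟩,⟨0,[(4,0),(47,0)]⟩⟩,.a ⟨true,(-1),⟨0,[(5,0),(6,0)]⟩,⟨1,[(3,1),(3,0),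
  (6,0),(8,0),(11,0),(12,0)]⟩⟩ ⟨true,0,⟨0,[]⟩,⟨1,[(38,0),(0,0)]⟩⟩ ⟨false,0,⟨32,[(0,4),(6,1),(4,6),
  (2,3),(6,3),(1,6),(6,4),(14,3)]⟩,⟨7,[(4,2),(4,1),(4,0),(4,0),(12,2),(2,1),(16,3)]⟩⟩,.o ⟨false,0,
  ⟨0,[(5,0)]⟩,⟨0,[(31,0)]⟩⟩,.o ⟨false,0,⟨1,[(5,1),(32,0),(0,0)]⟩,⟨5,[(2,4),(1,0),(2,2),(1,0),(1,0),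
  (2,0),(0,3),(31,0)]⟩⟩]⟩) (.R ⟨2,true,false,false,[0,1],[0,0,0,0,1],[0,1,1],(⟨0,[]⟩,⟨0,[]⟩),(⟨0,
  [(34,0)]⟩,⟨0,[(33,0)]⟩),⟨0,[]⟩,.k,.k,.k,(.r (-1) ⟨3,[(3,0),(0,1),(9,0),(5,0),(11,2),(6,0),(12,
  0)]⟩ ⟨28,[(7,0),(4,10),(2,1),(6,1),(1,5),(21,6),(0,4)]⟩),.k,.k,⟨true,0,⟨1,[(38,0),(0,0)]⟩,⟨0,[]⟩⟩,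
  ⟨false,0,⟨0,[(32,0)]⟩,⟨9,[(0,0),(1,6),(1,1),(2,3),(1,0),(1,1),(3,5),(31,1)]⟩⟩,⟨false,0,⟨0,[(50,
  0)]⟩,⟨5,[(0,0),(3,0),(4,1),(9,1),(8,0),(3,1),(19,1)]⟩⟩,⟨true,(-1),⟨0,[(5,0),(6,0)]⟩,⟨0,[(4,0)]⟩⟩,
  ⟨true,0,⟨0,[(54,0)]⟩,⟨0,[]⟩⟩,⟨false,0,⟨0,[(32,0)]⟩,⟨0,[(0,0),(11,0),(34,0)]⟩⟩,[]⟩)) (.R ⟨0,false,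
  false,false,[0,0,0,0,1],[0,1],[0,1,1],(⟨0,[(33,0)]⟩,⟨0,[(32,0)]⟩),(⟨0,[(44,0)]⟩,⟨0,[(43,0)]⟩),⟨0,
  [(0,0)]⟩,.k,.k,(.r 0 ⟨28,[(6,0),(4,10),(2,1),(6,1),(1,5),(21,6),(0,4)]⟩ ⟨3,[(2,0),(0,1),(9,0),(5,
  0),(11,2),(6,0),(12,0)]⟩),(.r 0 ⟨28,[(6,0),(4,10),(2,1),(6,1),(1,5),(21,6),(0,4)]⟩ ⟨3,[(2,0),(0,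
  1),(9,0),(5,0),(11,2),(6,0),(12,0)]⟩),.k,.k,⟨false,0,⟨28,[(6,0),(4,10),(2,1),(6,1),(1,5),(21,6),
  (0,4)]⟩,⟨7,[(3,2),(4,1),(4,0),(4,0),(12,2),(2,1),(16,3)]⟩⟩,⟨true,1,⟨5,[(1,4),(1,0),(2,2),(1,0),(1,
  0),(2,0),(0,3),(31,0)]⟩,⟨1,[(4,1),(2,0),(3,0),(1,0),(8,0),(14,0)]⟩⟩,⟨true,0,⟨1,[(37,0),(0,0)]⟩,⟨8,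
  [(6,0),(1,1),(2,0),(2,1),(8,0),(21,1)]⟩⟩,⟨false,2,⟨0,[(3,0),(47,0)]⟩,⟨0,[(4,0),(6,0)]⟩⟩,⟨false,0,
  ⟨0,[]⟩,⟨0,[]⟩⟩,⟨false,0,⟨0,[]⟩,⟨0,[]⟩⟩,[.o ⟨false,1,⟨4,[(3,0),(4,1),(9,1),(8,0),(3,0),(14,1)]⟩,⟨0,
  [(49,0)]⟩⟩,.a ⟨true,1,⟨7,[(3,2),(4,1),(4,0),(4,0),(12,2),(2,1),(16,3)]⟩,⟨0,[(11,0)]⟩⟩ ⟨true,0,⟨1,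
  [(37,0),(0,0)]⟩,⟨0,[]⟩⟩ ⟨false,2,⟨1,[(3,1),(46,0),(0,0)]⟩,⟨0,[(4,0),(6,0)]⟩⟩,.o ⟨false,0,⟨0,[(4,
  0)]⟩,⟨0,[(30,0)]⟩⟩,.o ⟨false,0,⟨1,[(4,1),(32,0),(0,0)]⟩,⟨5,[(1,4),(1,0),(2,2),(1,0),(1,0),(2,0),
  (0,3),(31,0)]⟩⟩]⟩)) (.Q [0,0,0,0,0,0,0,0,0,0,1,-1] (.ed true [1,0,-1,0,1] (.r 0 ⟨3,[(9,0),(3,0),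
  (8,0),(1,1)]⟩ ⟨15,[(18,5),(3,1),(3,1),(7,9),(2,5),(7,0),(4,12)]⟩)) (.Q [0,0,1,0,-1,0,-1,0,1,0,-1,
  1] (.p true [1,0,-1,0,1] [1] (⟨0,[(33,0),(5,0)]⟩,⟨0,[(0,0)]⟩) .k 1 (⟨0,[]⟩,⟨0,[]⟩) .k (.r 0 ⟨3,
  [(10,0),(3,0),(8,0),(1,1)]⟩ ⟨15,[(19,5),(3,1),(3,1),(7,9),(2,5),(7,0),(4,12)]⟩)) (.S ⟨1,0,[0,1,0,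
  -1,0,0,0,-1],[1,0,-1,0,1],[1,2,0,0,0,0,0,-1],(⟨0,[(34,0),(5,0)]⟩,⟨0,[(1,0)]⟩),⟨0,[(29,0),(4,0)]⟩,
  .k,(.r 0 ⟨1,[(11,0),(3,0),(8,0)]⟩ ⟨4,[(3,1),(0,0),(15,3),(11,2),(3,0),(2,2),(12,1)]⟩),⟨false,0,⟨0,
  []⟩,⟨1,[(31,0),(0,0),(19,0)]⟩⟩,⟨true,0,⟨0,[(50,0)]⟩,⟨0,[(49,0)]⟩⟩,⟨true,0,⟨0,[(49,0)]⟩,⟨0,[(50,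
  0)]⟩⟩,⟨false,1,⟨1,[(31,0),(0,0),(19,0)]⟩,⟨0,[]⟩⟩,[.o ⟨false,(-1),⟨2,[(0,1),(1,0),(8,1),(12,1)]⟩,
  ⟨0,[(4,0),(17,0),(29,0)]⟩⟩,.e ⟨false,0,⟨0,[(15,0)]⟩,⟨15,[(20,5),(3,1),(3,1),(7,9),(2,5),(7,0),(4,
  12)]⟩⟩ ⟨false,1,⟨1,[(19,0),(4,0),(1,0)]⟩,⟨0,[(20,0)]⟩⟩,.a ⟨true,(-1),⟨1,[(0,0),(1,0),(9,0),(10,0),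
  (11,0),(16,0)]⟩,⟨6,[(3,4),(0,1),(4,0),(2,0),(2,1),(8,0),(11,0)]⟩⟩ ⟨false,0,⟨3,[(11,0),(3,0),(8,0),
  (1,1)]⟩,⟨7,[(8,1),(11,2),(1,1),(0,2),(0,0),(14,0),(12,8)]⟩⟩ ⟨true,0,⟨1,[(11,0),(6,0),(5,0),(29,
  0)]⟩,⟨0,[(20,0)]⟩⟩,.o ⟨false,(-1),⟨0,[(0,0)]⟩,⟨6,[(3,3),(0,2),(4,2),(5,0),(3,1),(4,2),(21,0),(0,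
  1)]⟩⟩]⟩) (.R ⟨0,false,false,false,[0,-1,1],[0,0,1,0,-1],[],(⟨0,[(30,0)]⟩,⟨0,[(13,0),(30,0)]⟩),(⟨0,
  [(1,0)]⟩,⟨0,[(34,0),(5,0)]⟩),⟨0,[(13,0)]⟩,.k,.k,(.r (-1) ⟨5,[(20,2),(2,0),(0,4),(11,1),(2,2),(12,
  0)]⟩ ⟨0,[(14,0),(34,0)]⟩),(.r 0 ⟨28,[(7,0),(4,10),(2,1),(6,1),(1,5),(21,6),(0,4)]⟩ ⟨3,[(3,0),(0,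
  1),(9,0),(5,0),(11,2),(6,0),(12,0)]⟩),.k,.k,⟨false,0,⟨1,[(0,1),(1,1),(9,1),(34,0),(4,0)]⟩,⟨15,
  [(20,5),(3,1),(3,1),(7,9),(2,5),(7,0),(4,12)]⟩⟩,⟨true,1,⟨4,[(0,3),(6,0),(0,0),(22,0),(15,0)]⟩,⟨1,
  [(5,1),(2,0),(3,0),(1,0),(8,0),(14,0)]⟩⟩,⟨true,0,⟨0,[(16,0)]⟩,⟨5,[(7,0),(0,1),(13,2),(1,1),(11,
  2)]⟩⟩,⟨false,2,⟨0,[(4,0),(47,0)]⟩,⟨0,[(5,0),(6,0)]⟩⟩,⟨false,0,⟨0,[]⟩,⟨0,[]⟩⟩,⟨false,0,⟨0,[]⟩,⟨0,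
  []⟩⟩,[.o ⟨false,2,⟨0,[(22,0),(8,0),(20,0)]⟩,⟨0,[(2,0),(47,0)]⟩⟩,.a ⟨true,2,⟨3,[(3,2),(16,2),(3,0),
  (6,0),(4,0),(15,2)]⟩,⟨0,[(2,0),(9,0)]⟩⟩ ⟨false,1,⟨1,[(51,0),(0,0)]⟩,⟨0,[(54,0)]⟩⟩ ⟨true,2,⟨11,[(0,
  5),(2,5),(3,1),(0,3),(11,11),(3,3),(22,2),(4,8)]⟩,⟨0,[(5,0),(5,0),(0,0)]⟩⟩,.e ⟨false,1,⟨1,[(31,0),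
  (0,0),(19,0)]⟩,⟨0,[]⟩⟩ ⟨false,2,⟨11,[(0,5),(2,5),(3,1),(0,3),(11,11),(3,3),(22,2),(4,8)]⟩,⟨1,[(2,
  0),(2,0),(6,0),(5,0),(19,0)]⟩⟩,.o ⟨false,0,⟨0,[(14,0),(7,0),(27,0)]⟩,⟨3,[(7,0),(20,0),(18,0),(3,
  2)]⟩⟩]⟩)) (.Q [0,0,1,0,-1,0,-1,0,1,0,-1,1] (.p true [0,0,-1,0,1] [] (⟨0,[(0,0)]⟩,⟨0,[(32,0),(7,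
  0)]⟩) .k 0 (⟨0,[]⟩,⟨0,[]⟩) .k (.r 0 ⟨3,[(10,0),(3,0),(8,0),(1,1)]⟩ ⟨15,[(19,5),(3,1),(3,1),(7,9),
  (2,5),(7,0),(4,12)]⟩)) (.K ⟨0,[0,0,-1,0,1],(-1),(-1),(⟨0,[(1,0)]⟩,⟨0,[(33,0),(7,0)]⟩),.k,(.r 0 ⟨1,
  [(11,0),(3,0),(8,0)]⟩ ⟨4,[(3,1),(0,0),(15,3),(11,2),(3,0),(2,2),(12,1)]⟩),(.r 0 ⟨0,[(26,0)]⟩ ⟨1,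
  [(20,0),(2,0),(0,0),(14,0),(12,0)]⟩),.k,.k,[⟨0,[(3,0),(11,0),(7,0)]⟩,⟨0,[(0,0)]⟩,⟨0,[(23,0),(7,
  0)]⟩,⟨10,[(0,0),(1,3),(2,4),(5,0),(0,4),(19,0),(4,5),(8,2)]⟩]⟩) (.K ⟨0,[1,0,1,0,-1],0,1,(⟨0,[(33,
  0),(7,0)]⟩,⟨0,[(1,0)]⟩),.k,(.r (-1) ⟨1,[(20,0),(2,0),(0,0),(14,0),(12,0)]⟩ ⟨0,[(26,0)]⟩),(.r (-1)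
  ⟨4,[(3,1),(0,0),(15,3),(11,2),(3,0),(2,2),(12,1)]⟩ ⟨1,[(11,0),(3,0),(8,0)]⟩),.k,.k,[⟨0,[(5,0)]⟩,
  ⟨1,[(0,0),(2,0),(8,1),(1,0),(5,0)]⟩,⟨0,[(2,0),(9,0),(34,0)]⟩,⟨0,[(3,0),(31,0),(0,0)]⟩]⟩))))) (.R
  ⟨2,true,false,false,[0,1],[0,0,0,0,1],[1,0,1,1],(⟨0,[]⟩,⟨0,[]⟩),(⟨0,[(30,0)]⟩,⟨0,[(29,0)]⟩),⟨0,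
  []⟩,.k,.k,.k,(.r (-1) ⟨15,[(5,2),(4,1),(11,7),(1,2),(7,6),(2,3),(12,15)]⟩ ⟨28,[(3,0),(4,10),(2,1),
  (6,1),(1,5),(21,6),(0,4)]⟩),.k,.k,⟨false,1,⟨0,[(45,0),(2,0)]⟩,⟨28,[(3,0),(4,10),(2,1),(6,1),(1,5),
  (21,6),(0,4)]⟩⟩,⟨true,(-1),⟨4,[(0,3),(3,0),(0,0),(4,1),(17,0),(3,0)]⟩,⟨0,[(27,0)]⟩⟩,⟨true,0,⟨0,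
  []⟩,⟨0,[(50,0)]⟩⟩,⟨false,(-1),⟨0,[(0,0)]⟩,⟨0,[(27,0),(17,0),(2,0)]⟩⟩,⟨false,1,⟨0,[(45,0),(2,0)]⟩,
  ⟨0,[(46,0)]⟩⟩,⟨true,(-1),⟨0,[(0,0),(44,0)]⟩,⟨0,[(27,0)]⟩⟩,[]⟩))))))) (.R ⟨1,false,false,true,[1,
  -1],[0,-1,1],[1,0,1],(⟨0,[(34,0)]⟩,⟨0,[(35,0)]⟩),(⟨0,[(20,0)]⟩,⟨0,[(3,0),(30,0)]⟩),⟨0,[(19,0),(0,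
  0)]⟩,.k,.k,(.r (-1) ⟨2,[(14,1),(6,0),(0,0)]⟩ ⟨6,[(4,5),(5,3),(15,1),(2,1),(9,3)]⟩),.k,.k,.k,⟨true,
  0,⟨0,[(4,0)]⟩,⟨2,[(2,0),(7,0),(1,1),(1,0),(3,0)]⟩⟩,⟨false,1,⟨0,[(5,0),(6,0),(29,0)]⟩,⟨1,[(18,0),
  (13,0),(1,0)]⟩⟩,⟨false,0,⟨0,[(4,0),(5,0),(29,0)]⟩,⟨5,[(14,1),(6,0),(0,0),(18,2)]⟩⟩,⟨true,0,⟨0,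
  [(12,0)]⟩,⟨1,[(0,0),(15,0),(8,0)]⟩⟩,⟨false,0,⟨0,[(4,0),(5,0)]⟩,⟨2,[(14,1),(6,0),(0,0)]⟩⟩,⟨false,1,
  ⟨0,[(12,0),(26,0),(2,0)]⟩,⟨0,[(0,0)]⟩⟩,[.o ⟨false,0,⟨0,[(12,0),(27,0)]⟩,⟨0,[(11,0),(30,0)]⟩⟩,.a
  ⟨true,0,⟨0,[(13,0),(26,0)]⟩,⟨0,[(7,0),(17,0)]⟩⟩ ⟨false,1,⟨1,[(21,0),(0,0),(19,0)]⟩,⟨8,[(2,1),(11,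
  0),(21,0),(0,0),(0,4)]⟩⟩ ⟨true,1,⟨5,[(12,3),(1,1),(11,1),(10,0),(4,2)]⟩,⟨0,[(0,0),(0,0),(8,0)]⟩⟩,
  .o ⟨false,0,⟨1,[(28,0),(0,0)]⟩,⟨1,[(37,0),(3,0)]⟩⟩,.e ⟨true,0,⟨0,[]⟩,⟨0,[(44,0)]⟩⟩ ⟨true,1,⟨5,
  [(12,3),(1,1),(11,1),(10,0),(3,2)]⟩,⟨0,[(0,0),(0,0),(8,0)]⟩⟩]⟩)) (.R ⟨0,false,false,false,[0,-1,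
  1],[1,-1],[0,0,-1,-1,0,0,0,1],(⟨0,[(19,0)]⟩,⟨0,[(2,0),(30,0)]⟩),(⟨0,[(33,0)]⟩,⟨0,[(34,0)]⟩),⟨0,
  [(2,0)]⟩,.k,.k,(.r (-1) ⟨1,[(0,0),(12,0),(11,0),(2,0)]⟩ ⟨0,[(3,0),(34,0)]⟩),.k,.k,.k,⟨true,0,⟨0,
  [(9,0),(29,0)]⟩,⟨0,[(7,0)]⟩⟩,⟨false,0,⟨0,[(24,0)]⟩,⟨0,[(8,0),(2,0)]⟩⟩,⟨false,1,⟨1,[(20,0),(0,0),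
  (19,0)]⟩,⟨0,[]⟩⟩,⟨true,0,⟨2,[(1,0),(1,0),(4,0),(15,1),(1,0)]⟩,⟨0,[(11,0)]⟩⟩,⟨false,0,⟨0,[]⟩,⟨0,
  []⟩⟩,⟨false,0,⟨0,[]⟩,⟨0,[]⟩⟩,[.o ⟨false,0,⟨0,[(39,0)]⟩,⟨1,[(36,0),(1,1),(2,0)]⟩⟩,.e ⟨false,1,⟨0,
  [(0,0)]⟩,⟨0,[(15,0)]⟩⟩ ⟨false,1,⟨9,[(0,0),(7,1),(4,2),(3,0),(6,8),(0,0),(15,3)]⟩,⟨0,[(6,0),(4,
  0)]⟩⟩,.a ⟨true,0,⟨0,[(27,0)]⟩,⟨0,[(24,0)]⟩⟩ ⟨false,1,⟨5,[(0,2),(11,1),(0,0),(11,0),(2,2),(12,1)]⟩,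
  ⟨0,[(6,0)]⟩⟩ ⟨true,0,⟨4,[(1,1),(11,0),(0,0),(2,0),(6,1),(16,0)]⟩,⟨0,[(6,0),(4,0)]⟩⟩,.o ⟨false,0,
  ⟨0,[(3,0),(7,0),(27,0)]⟩,⟨1,[(24,1),(11,0),(3,0)]⟩⟩]⟩))) (.I [0,-1,-2,-2,1,0,0,1] (.S ⟨1,0,[0,1,
  -1,-2,0,0,0,1],[0,-1,1],[0,0,-1,-2,0,0,0,1],(⟨0,[(18,0)]⟩,⟨0,[(28,0),(1,0)]⟩),⟨0,[(1,0)]⟩,.k,(.r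
  (-1) ⟨23,[(0,11),(11,7),(3,5),(2,0),(0,0),(3,11),(10,2)]⟩ ⟨0,[(2,0),(34,0)]⟩),⟨true,0,⟨0,[(38,
  0)]⟩,⟨0,[(37,0)]⟩⟩,⟨false,0,⟨0,[(38,0)]⟩,⟨0,[(37,0),(2,0)]⟩⟩,⟨false,1,⟨1,[(19,0),(0,0),(19,0)]⟩,
  ⟨0,[]⟩⟩,⟨true,0,⟨0,[(42,0)]⟩,⟨0,[]⟩⟩,[.o ⟨false,0,⟨0,[(10,0),(27,1)]⟩,⟨1,[(2,0),(6,0),(3,0),(22,
  1),(3,1)]⟩⟩,.e ⟨false,1,⟨0,[(0,0)]⟩,⟨0,[(5,0),(31,0)]⟩⟩ ⟨false,1,⟨23,[(0,11),(11,7),(3,5),(2,0),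
  (0,0),(3,11),(10,2)]⟩,⟨0,[(2,0),(33,0)]⟩⟩,.a ⟨true,0,⟨0,[(26,0)]⟩,⟨0,[(23,0)]⟩⟩ ⟨false,1,⟨1,[(0,
  1),(25,0),(0,0)]⟩,⟨0,[(2,0),(33,0)]⟩⟩ ⟨true,0,⟨0,[(10,0),(12,0),(14,1)]⟩,⟨0,[(2,0),(33,0)]⟩⟩,.o
  ⟨false,0,⟨0,[(2,0),(7,0),(27,0)]⟩,⟨1,[(23,1),(11,0),(3,0)]⟩⟩]⟩) (.Q [0,-1,0,1,1,0,0,0,0,-1] (.pp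
  true [-1,1]) (.R ⟨1,false,false,false,[0,0,1],[0,1],[1,1,0,0,0,0,0,1],(⟨0,[(30,0)]⟩,⟨0,[(29,0)]⟩),
  (⟨0,[(34,0)]⟩,⟨0,[(33,0)]⟩),⟨0,[(19,0)]⟩,.k,.k,.k,.k,(.r (-1) ⟨5,[(9,2),(2,0),(0,4),(11,1),(2,2),
  (12,0)]⟩ ⟨0,[(3,0),(34,0)]⟩),.k,⟨true,0,⟨0,[(11,0),(12,0),(14,0)]⟩,⟨0,[(1,0),(37,0),(1,0)]⟩⟩,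
  ⟨false,1,⟨1,[(24,1),(11,0),(3,0)]⟩,⟨0,[(27,0)]⟩⟩,⟨false,0,⟨0,[]⟩,⟨1,[(20,0),(0,0),(19,0)]⟩⟩,
  ⟨false,1,⟨0,[(10,0),(30,0)]⟩,⟨0,[(12,0),(26,0)]⟩⟩,⟨true,0,⟨0,[(38,0)]⟩,⟨0,[(39,0)]⟩⟩,⟨false,1,⟨1,
  [(0,1),(0,0),(6,0),(15,1)]⟩,⟨0,[(12,0),(26,1)]⟩⟩,[.o ⟨false,1,⟨3,[(0,1),(19,0),(0,0),(14,0),(1,
  1)]⟩,⟨0,[(39,0)]⟩⟩,.o ⟨false,1,⟨0,[(0,0)]⟩,⟨0,[(39,0),(3,0)]⟩⟩,.o ⟨false,1,⟨0,[(8,0),(2,0)]⟩,⟨0,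
  [(14,0)]⟩⟩,.a ⟨true,0,⟨0,[(27,0)]⟩,⟨0,[(24,0)]⟩⟩ ⟨true,0,⟨0,[(11,0),(12,0)]⟩,⟨0,[(7,0)]⟩⟩ ⟨false,
  1,⟨0,[(0,0),(23,0)]⟩,⟨0,[(27,0),(11,0)]⟩⟩]⟩) (.Q [0,-1,0,-1,0,0,-1,-1,0,1,-1] (.p false [0,0,1]
  [1] (⟨0,[(30,0)]⟩,⟨0,[(29,0)]⟩) .k 1 (⟨0,[]⟩,⟨0,[]⟩) .k .k) (.R ⟨1,false,false,true,[1,-1],[0,-1,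
  1],[1,0,1],(⟨0,[(34,0)]⟩,⟨0,[(35,0)]⟩),(⟨0,[(20,0)]⟩,⟨0,[(30,0),(1,0)]⟩),⟨1,[(3,0),(15,0),(14,
  0)]⟩,.k,.k,(.r (-1) ⟨2,[(14,1),(6,0),(0,0)]⟩ ⟨6,[(4,5),(5,3),(15,1),(2,1),(9,3)]⟩),.k,.k,.k,⟨true,
  0,⟨0,[(4,0)]⟩,⟨2,[(1,0),(8,0),(1,1),(1,0),(3,0)]⟩⟩,⟨false,1,⟨0,[(5,0),(6,0),(29,0)]⟩,⟨1,[(18,0),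
  (13,0),(1,0)]⟩⟩,⟨false,0,⟨0,[(4,0),(5,0),(29,0)]⟩,⟨5,[(14,1),(6,0),(0,0),(18,2)]⟩⟩,⟨true,0,⟨0,
  [(12,0)]⟩,⟨1,[(0,0),(15,0),(8,0)]⟩⟩,⟨false,0,⟨0,[(4,0),(5,0)]⟩,⟨2,[(14,1),(6,0),(0,0)]⟩⟩,⟨false,1,
  ⟨0,[(12,0),(26,0),(2,0)]⟩,⟨0,[(0,0)]⟩⟩,[.o ⟨false,0,⟨0,[(12,0),(27,0)]⟩,⟨0,[(11,0),(30,0)]⟩⟩,.a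
  ⟨true,0,⟨0,[(13,0),(26,0)]⟩,⟨1,[(2,0),(6,0),(15,1)]⟩⟩ ⟨false,1,⟨1,[(21,0),(0,0),(19,0)]⟩,⟨8,[(1,
  0),(3,0),(6,0),(1,0),(0,0),(20,0),(1,3)]⟩⟩ ⟨true,1,⟨5,[(12,3),(1,1),(11,1),(10,0),(4,2)]⟩,⟨1,[(0,
  0),(0,0),(0,0),(1,0),(5,0),(4,0)]⟩⟩,.o ⟨false,0,⟨1,[(28,0),(0,0)]⟩,⟨1,[(37,0),(3,0)]⟩⟩,.e ⟨true,0,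
  ⟨0,[]⟩,⟨0,[(44,0)]⟩⟩ ⟨true,1,⟨5,[(12,3),(1,1),(11,1),(10,0),(3,2)]⟩,⟨1,[(0,0),(0,0),(0,0),(1,0),
  (5,0),(4,0)]⟩⟩]⟩) (.Q [0,0,-1,0,1,0,2,0,0,-1,2] (.p true [0,0,1] [1,0,-1] (⟨0,[(31,0)]⟩,⟨0,[(30,
  0)]⟩) .k 2 (⟨0,[(30,0)]⟩,⟨0,[(31,0)]⟩) .k (.r 0 ⟨0,[(10,1),(29,1)]⟩ ⟨5,[(5,1),(2,1),(0,4),(4,0),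
  (1,2)]⟩)) (.K ⟨0,[1,-1,-1],(-1),0,(⟨0,[(20,0)]⟩,⟨0,[(32,0),(0,0)]⟩),.k,(.r (-1) ⟨2,[(6,0),(2,0),
  (0,0),(4,1)]⟩ ⟨6,[(5,4),(5,7),(15,3),(2,3),(9,0)]⟩),.k,(.r (-1) ⟨2,[(6,1),(2,1),(0,1),(4,0)]⟩ ⟨0,
  [(11,0),(2,0),(15,0)]⟩),.k,[⟨0,[(0,0)]⟩,⟨0,[(2,0),(2,0),(5,0),(4,0),(24,0)]⟩,⟨0,[(1,0)]⟩,⟨2,[(2,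
  1),(7,0),(4,0),(1,1),(1,0),(10,0)]⟩]⟩) (.Q [0,-1,0,-2,0,0,-1,-1,0,1,-1] (.p false [0,0,1] [1] (⟨0,
  [(32,0)]⟩,⟨0,[(31,0)]⟩) .k 1 (⟨0,[]⟩,⟨0,[]⟩) .k .k) (.R ⟨1,true,false,true,[1,0,-1],[0,1],[0,1,0,
  -1,0,0,0,-1],(⟨0,[(32,0)]⟩,⟨0,[(33,0)]⟩),(⟨0,[(37,0)]⟩,⟨0,[(36,0)]⟩),⟨0,[(21,0)]⟩,.k,.k,.k,.k,(.r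
  (-1) ⟨2,[(7,0),(2,0),(0,0),(4,1)]⟩ ⟨6,[(6,4),(5,7),(15,3),(2,3),(9,0)]⟩),.k,⟨false,1,⟨2,[(7,0),(2,
  0),(0,0),(4,1)]⟩,⟨6,[(6,2),(5,8),(15,0),(2,0),(9,1)]⟩⟩,⟨true,1,⟨1,[(2,1),(3,0),(0,0),(8,0),(27,
  0)]⟩,⟨0,[(1,0),(28,0)]⟩⟩,⟨false,0,⟨0,[(42,0)]⟩,⟨0,[(41,0),(2,0)]⟩⟩,⟨true,0,⟨0,[(2,0)]⟩,⟨6,[(0,3),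
  (2,0),(7,0),(6,1),(1,0),(6,0),(10,0)]⟩⟩,⟨true,0,⟨0,[(46,0)]⟩,⟨0,[]⟩⟩,⟨false,1,⟨0,[(2,0),(38,0),(2,
  0)]⟩,⟨0,[(0,0)]⟩⟩,[]⟩) (.Q [0,0,0,-1,0,0,1,1,-1,0,1,-1] (.p true [0,0,1] [0,0,0,0,1] (⟨0,[(33,
  0)]⟩,⟨0,[(32,0)]⟩) .k 2 (⟨0,[(26,0)]⟩,⟨0,[(25,0)]⟩) .k (.r (-1) ⟨15,[(12,5),(3,1),(3,1),(7,9),(2,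
  5),(7,0),(4,12)]⟩ ⟨10,[(3,0),(3,3),(2,2),(3,0),(1,0),(1,3),(10,0)]⟩)) (.Q [0,0,0,0,0,-1,0,0,0,1,0,
  -1] (.ed true [0,1,0,0,1] .k) (.K ⟨0,[1,-1,0,0,-1],(-1),0,(⟨0,[(0,0)]⟩,⟨0,[(28,0),(7,0)]⟩),(.r
  (-1) ⟨5,[(18,1),(6,0),(0,0),(19,2)]⟩ ⟨4,[(8,0),(11,0),(9,1),(2,1),(9,2)]⟩),(.r (-2) ⟨5,[(18,3),(6,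
  4),(0,4),(19,2)]⟩ ⟨7,[(3,1),(2,5),(1,0),(5,2),(1,1),(0,0),(12,0)]⟩),.k,(.r (-1) ⟨1,[(8,0),(0,0),
  (8,0),(27,0)]⟩ ⟨6,[(8,0),(5,2),(15,4),(2,4),(9,2)]⟩),.k,[⟨0,[(2,0),(5,0),(9,0),(7,0)]⟩,⟨2,[(1,2),
  (1,0),(1,0),(0,0),(1,1),(20,0)]⟩,⟨13,[(2,2),(0,1),(2,3),(9,0),(9,13),(13,9),(0,5)]⟩,⟨4,[(1,3),(1,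
  0),(1,1),(2,0),(0,0),(3,1),(11,0),(3,1)]⟩]⟩) (.R ⟨0,false,false,false,[1,0,0,0,-1],[0,0,1],[0,0,1,
  0,0,0,0,1],(⟨0,[(27,0)]⟩,⟨0,[(28,0)]⟩),(⟨0,[(35,0)]⟩,⟨0,[(34,0)]⟩),⟨0,[(0,0)]⟩,.k,.k,(.r (-1) ⟨5,
  [(18,1),(6,0),(0,0),(19,2)]⟩ ⟨4,[(8,0),(11,0),(9,1),(2,1),(9,2)]⟩),.k,.k,.k,⟨true,0,⟨1,[(32,0),(0,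
  0)]⟩,⟨0,[]⟩⟩,⟨false,1,⟨0,[(2,0),(5,0),(9,0),(7,0)]⟩,⟨4,[(1,2),(1,2),(2,0),(2,1),(15,1),(3,1),(12,
  0),(3,1)]⟩⟩,⟨false,0,⟨0,[(17,0),(15,0)]⟩,⟨0,[(9,0),(36,0)]⟩⟩,⟨true,0,⟨0,[(16,0),(9,0)]⟩,⟨6,[(1,4),
  (1,4),(2,1),(1,0),(0,8),(15,1),(3,1),(16,4)]⟩⟩,⟨false,0,⟨0,[]⟩,⟨0,[]⟩⟩,⟨false,0,⟨0,[]⟩,⟨0,[]⟩⟩,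
  [.e ⟨false,0,⟨7,[(3,1),(10,2),(1,1),(0,2),(0,0),(14,0),(12,0)]⟩,⟨3,[(9,0),(3,2),(26,0),(4,0)]⟩⟩
  ⟨false,1,⟨1,[(16,1),(9,1),(18,0),(0,0)]⟩,⟨6,[(1,4),(1,4),(2,1),(1,0),(0,8),(15,1),(3,1),(16,4)]⟩⟩,
  .o ⟨false,1,⟨0,[(16,0),(29,0)]⟩,⟨0,[(31,0)]⟩⟩,.a ⟨true,0,⟨1,[(1,1),(4,0),(6,0),(15,1)]⟩,⟨0,[(26,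
  0)]⟩⟩ ⟨true,0,⟨0,[(17,0),(15,0)]⟩,⟨0,[(9,0)]⟩⟩ ⟨false,1,⟨0,[(16,0),(9,0),(19,0)]⟩,⟨6,[(1,4),(1,4),
  (2,1),(1,0),(0,8),(15,1),(3,1),(16,4)]⟩⟩,.o ⟨false,0,⟨9,[(1,9),(1,1),(4,3),(6,5),(25,0),(4,0)]⟩,
  ⟨1,[(26,1),(14,0),(3,0)]⟩⟩]⟩)) (.Q [0,0,2,0,-1,0,0,0,-1,1,0,-1] (.p false [0,0,0,0,1] [1] (⟨0,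
  [(27,0)]⟩,⟨0,[(26,0)]⟩) .k 1 (⟨0,[]⟩,⟨0,[]⟩) .k .k) (.Q [0,0,0,0,0,-1,0,0,0,-1,1,1] (.p true [0,0,
  1] [1,0,0,0,-1] (⟨0,[(35,0)]⟩,⟨0,[(34,0)]⟩) .k 2 (⟨0,[(27,0)]⟩,⟨0,[(28,0)]⟩) .k (.r 0 ⟨1,[(16,0),
  (5,0),(7,0)]⟩ ⟨0,[(13,0)]⟩)) (.Q [0,0,0,0,1,0,1,0,1,-2,1,1] (.p true [-1,0,1,0,1] [1] (⟨0,[(0,0),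
  (36,0)]⟩,⟨0,[(28,0),(6,0)]⟩) .k 1 (⟨0,[]⟩,⟨0,[]⟩) .k (.r 0 ⟨1,[(17,0),(5,0),(7,0)]⟩ ⟨0,[(14,
  0)]⟩)) (.S ⟨1,0,[0,0,0,-1,0,0,0,-1],[2,0,-1,0,-1],[1,-1,0,0,0,0,0,-1],(⟨0,[(29,0),(6,0)]⟩,⟨0,[(1,
  0),(36,0)]⟩),⟨0,[(25,0),(3,0)]⟩,.k,(.r (-1) ⟨1,[(10,0),(0,0),(8,0),(27,0)]⟩ ⟨6,[(10,0),(5,2),(15,
  4),(2,4),(9,2)]⟩),⟨true,0,⟨0,[]⟩,⟨0,[(50,0)]⟩⟩,⟨false,0,⟨0,[(46,0)]⟩,⟨0,[(45,0),(2,0)]⟩⟩,⟨false,1,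
  ⟨0,[(45,0),(2,0)]⟩,⟨0,[(46,0)]⟩⟩,⟨true,0,⟨0,[(50,0)]⟩,⟨0,[]⟩⟩,[.o ⟨false,0,⟨17,[(2,12),(2,8),(5,
  16),(3,0),(4,5),(6,4),(15,1),(4,7)]⟩,⟨0,[(0,0),(15,0)]⟩⟩,.e ⟨false,2,⟨1,[(15,1),(31,0),(0,0)]⟩,⟨1,
  [(5,0),(1,0),(10,1),(25,0)]⟩⟩ ⟨false,1,⟨1,[(10,0),(0,0),(8,0),(27,0)]⟩,⟨1,[(4,0),(19,0),(7,0)]⟩⟩,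
  .o ⟨false,0,⟨1,[(2,1),(28,1),(11,0),(3,0)]⟩,⟨0,[(0,0)]⟩⟩,.a ⟨true,(-1),⟨0,[(2,0),(28,0)]⟩,⟨3,[(0,
  1),(10,1),(7,1),(8,1),(18,0),(0,0)]⟩⟩ ⟨true,1,⟨0,[(11,0),(36,0)]⟩,⟨5,[(5,2),(1,1),(0,0),(9,4),(13,
  1),(2,0),(14,1)]⟩⟩ ⟨false,1,⟨1,[(10,0),(0,0),(8,0),(27,0)]⟩,⟨3,[(10,0),(5,2),(2,0),(12,0),(2,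
  1)]⟩⟩]⟩) (.S ⟨1,0,[0,-1,1],[1,1,0,0,-1],[0,0,1],(⟨0,[(29,0),(8,0)]⟩,⟨1,[(1,0),(23,0),(4,0)]⟩),⟨0,
  [(29,0)]⟩,(.r (-1) ⟨4,[(10,0),(11,0),(9,1),(2,1),(9,2),(2,4)]⟩ ⟨14,[(5,0),(1,2),(3,1),(6,3),(1,3),
  (12,1),(8,1)]⟩),.k,⟨false,0,⟨0,[(46,0)]⟩,⟨0,[(45,0),(2,0)]⟩⟩,⟨true,0,⟨0,[(46,0)]⟩,⟨0,[(45,0)]⟩⟩,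
  ⟨true,0,⟨0,[(50,0)]⟩,⟨0,[]⟩⟩,⟨false,1,⟨1,[(27,0),(0,0),(19,0)]⟩,⟨0,[]⟩⟩,[.o ⟨false,1,⟨49,[(0,11),
  (1,17),(1,11),(6,11),(8,7),(6,19),(15,14),(4,36)]⟩,⟨1,[(3,0),(3,0),(10,0),(9,0),(14,0)]⟩⟩,.e
  ⟨false,1,⟨1,[(27,0),(0,0),(19,0)]⟩,⟨15,[(5,0),(1,0),(3,1),(6,1),(1,1),(21,1),(1,6)]⟩⟩ ⟨false,1,⟨0,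
  [(48,0)]⟩,⟨0,[(42,0)]⟩⟩,.a ⟨true,0,⟨4,[(0,2),(1,1),(1,2),(6,2),(8,1),(27,2)]⟩,⟨1,[(28,1),(5,0),(0,
  0)]⟩⟩ ⟨true,0,⟨1,[(34,0),(0,0)]⟩,⟨15,[(5,0),(1,0),(3,1),(6,1),(1,1),(21,1),(1,6)]⟩⟩ ⟨false,1,⟨1,
  [(34,0),(0,0),(12,1)]⟩,⟨15,[(5,0),(1,0),(3,1),(6,1),(1,1),(21,1),(1,6)]⟩⟩,.e ⟨false,1,⟨1,[(27,0),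
  (0,0),(19,0)]⟩,⟨0,[]⟩⟩ ⟨false,1,⟨0,[(48,0)]⟩,⟨0,[(50,0)]⟩⟩]⟩)) (.K ⟨0,[0,1,0,0,1],0,(-1),(⟨0,[(29,
  0),(7,0)]⟩,⟨0,[(0,0),(7,0)]⟩),(.r 0 ⟨4,[(9,0),(11,0),(9,1),(2,1),(9,2)]⟩ ⟨5,[(19,1),(6,0),(0,0),
  (19,2)]⟩),.k,(.r 1 ⟨7,[(4,1),(2,5),(1,0),(5,2),(1,1),(0,0),(12,0)]⟩ ⟨5,[(19,3),(6,4),(0,4),(19,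
  2)]⟩),(.r 0 ⟨0,[(21,0)]⟩ ⟨1,[(15,0),(2,0),(0,0),(14,0),(12,0)]⟩),.k,[⟨0,[(1,0),(1,0),(5,0),(9,
  0)]⟩,⟨0,[(27,0)]⟩,⟨17,[(1,3),(17,5),(6,13),(6,4),(0,4),(7,1)]⟩,⟨1,[(2,1),(0,0),(2,1),(10,0)]⟩]⟩))
  (.Q [0,0,0,1,1,0,0,0,-1,0,0,-1] (.p false [0,0,0,0,1] [] (⟨0,[(28,0)]⟩,⟨0,[(27,0)]⟩) .k 0 (⟨0,[]⟩,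
  ⟨0,[]⟩) .k .k) (.Q [0,0,0,0,0,-2,0,0,0,1,-1] (.p false [0,0,1] [1] (⟨0,[(36,0)]⟩,⟨0,[(35,0)]⟩) .k
  1 (⟨0,[]⟩,⟨0,[]⟩) .k .k) (.Q [0,0,0,-2,0,0,-1,-1,0,0,-1] (.p false [0,0,1] [] (⟨0,[(37,0)]⟩,⟨0,
  [(36,0)]⟩) .k 0 (⟨0,[]⟩,⟨0,[]⟩) .k .k) (.S ⟨1,0,[0,0,-1,-2,0,0,0,-1],[1,-1,-1],[1,1,-1,-1,0,0,0,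
  -1],(⟨0,[(26,0)]⟩,⟨0,[(38,0),(0,0)]⟩),⟨0,[(1,0)]⟩,.k,(.r (-1) ⟨2,[(12,0),(2,0),(0,0),(4,1)]⟩ ⟨6,
  [(11,4),(5,7),(15,3),(2,3),(9,0)]⟩),⟨false,0,⟨0,[]⟩,⟨1,[(28,0),(0,0),(19,0)]⟩⟩,⟨true,0,⟨0,[(47,
  0)]⟩,⟨0,[(46,0)]⟩⟩,⟨true,0,⟨0,[(46,0)]⟩,⟨0,[(47,0)]⟩⟩,⟨false,1,⟨1,[(28,0),(0,0),(19,0)]⟩,⟨0,[]⟩⟩,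
  [.o ⟨false,0,⟨0,[(0,0)]⟩,⟨9,[(2,3),(2,7),(23,3),(3,1),(10,0),(4,4)]⟩⟩,.o ⟨false,1,⟨13,[(0,7),(15,
  5),(4,3),(13,2),(0,8),(12,3)]⟩,⟨0,[(5,0)]⟩⟩,.o ⟨false,0,⟨0,[(36,0)]⟩,⟨0,[(5,0),(5,0),(9,0)]⟩⟩,.a
  ⟨true,(-1),⟨0,[(6,0),(28,0)]⟩,⟨1,[(12,1),(7,1),(27,0),(0,0)]⟩⟩ ⟨false,1,⟨5,[(12,3),(3,1),(4,1),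
  (26,0),(0,0)]⟩,⟨4,[(6,1),(4,2),(5,1),(1,1),(0,3),(15,1),(12,1)]⟩⟩ ⟨true,1,⟨2,[(12,0),(2,0),(0,0),
  (4,1)]⟩,⟨3,[(6,1),(2,1),(1,0),(5,2),(1,1),(0,0),(12,0)]⟩⟩]⟩) (.Q [0,0,0,1,0,0,0,0,-1,1,0,-1] (.p
  false [0,0,0,0,1] [1] (⟨0,[(31,0)]⟩,⟨0,[(30,0)]⟩) .k 1 (⟨0,[]⟩,⟨0,[]⟩) .k .k) (.Q [0,0,0,0,0,-1,0,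
  0,0,0,0,1] (.ed false [1,-1,0,0,1] .k) (.Q [0,0,1,0,0,0,0,0,1,-1,0,1] (.p true [0,0,0,0,1] [1]
  (⟨0,[(33,0)]⟩,⟨0,[(32,0)]⟩) .k 1 (⟨0,[]⟩,⟨0,[]⟩) .k .k) (.S ⟨1,0,[0,1,0,-1],[0,0,0,0,1],[1,2],(⟨0,
  [(34,0)]⟩,⟨0,[(33,0)]⟩),⟨0,[(1,0)]⟩,.k,(.r 0 ⟨14,[(9,0),(1,2),(3,1),(6,3),(1,3),(12,1),(8,1)]⟩
  ⟨14,[(3,0),(1,7),(8,4),(17,7),(3,3),(2,4),(12,6)]⟩),⟨false,0,⟨0,[]⟩,⟨1,[(31,0),(0,0),(19,0)]⟩⟩,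
  ⟨true,0,⟨0,[(50,0)]⟩,⟨0,[(49,0)]⟩⟩,⟨true,0,⟨0,[(49,0)]⟩,⟨0,[(50,0)]⟩⟩,⟨false,1,⟨1,[(31,0),(0,0),
  (19,0)]⟩,⟨0,[]⟩⟩,[.o ⟨false,0,⟨14,[(0,14),(8,0),(1,2),(3,1),(6,3),(1,3),(12,1),(8,1)]⟩,⟨1,[(2,1),
  (44,0),(4,0)]⟩⟩,.a ⟨true,0,⟨0,[(32,0),(17,0)]⟩,⟨0,[(2,0)]⟩⟩ ⟨false,0,⟨15,[(9,0),(1,0),(3,1),(6,1),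
  (1,1),(21,1),(1,6)]⟩,⟨1,[(31,0),(0,0),(19,0)]⟩⟩ ⟨true,0,⟨0,[(50,0)]⟩,⟨12,[(3,3),(10,2),(11,1),(9,
  0),(2,4)]⟩⟩,.e ⟨false,0,⟨0,[(54,0)]⟩,⟨0,[(52,0)]⟩⟩ ⟨false,0,⟨0,[(50,0)]⟩,⟨5,[(3,0),(1,2),(1,0),
  (24,1),(19,2)]⟩⟩,.o ⟨false,0,⟨0,[(0,0)]⟩,⟨2,[(2,1),(2,0),(18,0),(22,0)]⟩⟩]⟩) (.S ⟨1,0,[0,-1,1],[1,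
  1,0,0,-1],[1,0,1,1],(⟨0,[(33,0),(8,0)]⟩,⟨0,[(1,0)]⟩),⟨0,[(33,0)]⟩,(.r (-1) ⟨14,[(3,0),(1,7),(8,4),
  (17,7),(3,3),(2,4),(12,6)]⟩ ⟨14,[(9,0),(1,2),(3,1),(6,3),(1,3),(12,1),(8,1)]⟩),.k,⟨false,0,⟨0,[]⟩,
  ⟨1,[(31,0),(0,0),(19,0)]⟩⟩,⟨true,0,⟨0,[(50,0)]⟩,⟨0,[(49,0)]⟩⟩,⟨true,0,⟨0,[(49,0)]⟩,⟨0,[(50,0)]⟩⟩,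
  ⟨false,1,⟨1,[(31,0),(0,0),(19,0)]⟩,⟨0,[]⟩⟩,[.o ⟨false,1,⟨7,[(0,4),(8,0),(4,1),(7,1),(8,2),(15,1),
  (2,1),(1,3)]⟩,⟨1,[(7,0),(3,0),(10,0),(9,0),(14,0)]⟩⟩,.e ⟨false,1,⟨5,[(3,0),(1,2),(1,0),(24,1),(19,
  2)]⟩,⟨14,[(9,0),(1,2),(3,1),(6,3),(1,3),(12,1),(8,1)]⟩⟩ ⟨false,1,⟨0,[(52,0)]⟩,⟨0,[(46,0)]⟩⟩,.a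
  ⟨true,0,⟨0,[(0,0)]⟩,⟨1,[(32,1),(5,0),(0,0)]⟩⟩ ⟨true,0,⟨12,[(3,3),(10,2),(11,1),(9,0),(2,4)]⟩,⟨14,
  [(9,0),(1,2),(3,1),(6,3),(1,3),(12,1),(8,1)]⟩⟩ ⟨false,1,⟨1,[(38,0),(0,0),(12,1)]⟩,⟨15,[(9,0),(1,
  0),(3,1),(6,1),(1,1),(21,1),(1,6)]⟩⟩,.e ⟨false,1,⟨5,[(3,0),(1,2),(1,0),(24,1),(19,2)]⟩,⟨0,[(50,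
  0)]⟩⟩ ⟨false,1,⟨0,[(52,0)]⟩,⟨0,[(54,0)]⟩⟩]⟩)) (.Q [0,0,1,0,0,0,0,0,1,-1,0,1] (.p true [0,0,0,0,1]
  [1] (⟨0,[(33,0)]⟩,⟨0,[(32,0)]⟩) .k 1 (⟨0,[]⟩,⟨0,[]⟩) .k .k) (.R ⟨0,false,false,false,[0,0,0,0,1],
  [0,0,1],[0,0,1,0,0,0,0,1],(⟨0,[(34,0)]⟩,⟨0,[(33,0)]⟩),(⟨0,[(41,0)]⟩,⟨0,[(40,0)]⟩),⟨0,[(1,0)]⟩,.k,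
  .k,(.r 0 ⟨14,[(9,0),(1,2),(3,1),(6,3),(1,3),(12,1),(8,1)]⟩ ⟨14,[(3,0),(1,7),(8,4),(17,7),(3,3),(2,
  4),(12,6)]⟩),.k,.k,.k,⟨true,0,⟨1,[(38,0),(0,0)]⟩,⟨0,[]⟩⟩,⟨false,1,⟨1,[(2,1),(5,0),(5,1),(7,0),(1,
  1)]⟩,⟨3,[(0,0),(5,0),(2,0),(18,0),(3,1)]⟩⟩,⟨false,1,⟨0,[(23,0),(15,0),(12,0)]⟩,⟨0,[(15,0)]⟩⟩,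
  ⟨true,1,⟨0,[(2,0),(19,0),(27,0),(1,0)]⟩,⟨1,[(0,0),(6,0),(1,0),(1,0),(3,1),(6,0)]⟩⟩,⟨false,0,⟨0,
  []⟩,⟨0,[]⟩⟩,⟨false,0,⟨0,[]⟩,⟨0,[]⟩⟩,[.e ⟨false,0,⟨7,[(9,1),(10,2),(1,1),(0,2),(0,0),(14,0),(12,
  0)]⟩,⟨3,[(15,0),(3,2),(26,0),(4,0)]⟩⟩ ⟨false,1,⟨2,[(2,1),(2,0),(16,1),(0,0),(0,0),(27,0)]⟩,⟨7,[(0,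
  1),(6,5),(1,0),(1,0),(2,0),(3,0),(5,1)]⟩⟩,.o ⟨false,1,⟨0,[(22,0),(29,0)]⟩,⟨0,[(37,0)]⟩⟩,.a ⟨true,
  0,⟨0,[(32,0)]⟩,⟨0,[(2,0),(47,0)]⟩⟩ ⟨true,0,⟨0,[(23,0),(15,0)]⟩,⟨0,[(15,0)]⟩⟩ ⟨false,1,⟨0,[(2,0),
  (19,0),(27,0),(1,0)]⟩,⟨7,[(0,1),(6,5),(1,0),(1,0),(2,0),(3,0),(5,1)]⟩⟩,.o ⟨false,0,⟨0,[(0,0)]⟩,⟨2,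
  [(2,1),(2,0),(18,0),(22,0)]⟩⟩]⟩) (.K ⟨0,[0,0,1,0,-1],0,1,(⟨0,[(1,0),(28,0)]⟩,⟨0,[(34,0),(5,0)]⟩),
  .k,(.r (-1) ⟨1,[(20,0),(2,0),(0,0),(14,0),(12,0)]⟩ ⟨0,[(26,0)]⟩),(.r (-1) ⟨4,[(3,1),(1,0),(26,0),
  (3,2),(2,4),(12,3)]⟩ ⟨0,[(12,0),(11,0)]⟩),.k,.k,[⟨0,[(32,0)]⟩,⟨0,[(0,0),(13,0),(7,0),(27,0)]⟩,⟨3,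
  [(6,0),(0,2),(1,0),(1,4),(0,0),(2,0),(6,0),(24,1)]⟩,⟨0,[(23,0),(7,0)]⟩]⟩))) (.Q [0,0,1,0,0,0,0,0,
  -1,1,0,-1] (.p false [0,0,0,0,1] [1] (⟨0,[(32,0)]⟩,⟨0,[(31,0)]⟩) .k 1 (⟨0,[]⟩,⟨0,[]⟩) .k .k) (.Q
  [0,0,0,0,0,0,1,0,1,-1,1,1] (.p true [0,0,1] [1,0,0,0,-1] (⟨0,[(40,0)]⟩,⟨0,[(39,0)]⟩) .k 2 (⟨0,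
  [(32,0)]⟩,⟨0,[(33,0)]⟩) .k (.r 0 ⟨1,[(21,0),(5,0),(7,0)]⟩ ⟨0,[(18,0)]⟩)) (.K ⟨0,[1,0,0,0,-1],0,1,
  (⟨0,[(33,0)]⟩,⟨0,[(34,0)]⟩),.k,(.r (-1) ⟨5,[(24,1),(6,0),(0,0),(19,2)]⟩ ⟨5,[(3,0),(22,2),(9,1),(2,
  2),(9,0)]⟩),(.r (-1) ⟨14,[(3,0),(1,7),(8,4),(17,7),(3,3),(2,4),(12,6)]⟩ ⟨14,[(9,0),(1,2),(3,1),(6,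
  3),(1,3),(12,1),(8,1)]⟩),.k,.k,[⟨0,[(0,0)]⟩,⟨0,[(1,0)]⟩,⟨0,[(0,0),(8,0),(5,0),(6,0)]⟩,⟨13,[(1,10),
  (3,2),(13,5),(4,0),(3,2),(7,5),(14,3)]⟩]⟩) (.Q [0,0,0,-2,0,0,-1,-1,-1,1,-1,-1] (.p false [0,0,1]
  [1,0,0,0,-1] (⟨0,[(41,0)]⟩,⟨0,[(40,0)]⟩) .k 2 (⟨0,[(33,0)]⟩,⟨0,[(34,0)]⟩) .k (.r 0 ⟨1,[(22,0),(5,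
  0),(7,0)]⟩ ⟨0,[(19,0)]⟩)) (.R ⟨1,true,false,false,[1,-1,-1],[0,0,0,0,1],[1,0,-1,-1,0,0,0,-1],(⟨0,
  [(30,0)]⟩,⟨0,[(42,0),(0,0)]⟩),(⟨0,[(35,0)]⟩,⟨0,[(34,0)]⟩),⟨0,[(5,0)]⟩,.k,.k,(.r (-1) ⟨2,[(16,0),
  (2,0),(0,0),(4,1)]⟩ ⟨5,[(4,4),(10,1),(8,0),(12,1),(2,7)]⟩),(.r (-1) ⟨1,[(15,0),(0,0),(8,0),(27,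
  0)]⟩ ⟨2,[(4,0),(32,1),(2,2),(9,0)]⟩),(.r (-2) ⟨2,[(20,2),(4,1),(6,0),(0,0)]⟩ ⟨6,[(4,3),(5,4),(2,
  1),(1,1),(7,4),(13,1),(2,0)]⟩),.k,⟨true,1,⟨1,[(15,0),(0,0),(8,0),(27,0)]⟩,⟨9,[(4,0),(5,7),(2,1),
  (1,3),(7,7),(0,2),(12,3)]⟩⟩,⟨false,1,⟨10,[(3,6),(0,7),(2,3),(8,7),(8,2),(13,2),(13,3)]⟩,⟨1,[(1,0),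
  (0,0),(37,0)]⟩⟩,⟨true,0,⟨0,[]⟩,⟨0,[(55,0)]⟩⟩,⟨false,0,⟨0,[(3,0),(0,0)]⟩,⟨27,[(0,15),(1,4),(3,6),
  (13,11),(4,0),(3,4),(6,1),(16,7)]⟩⟩,⟨false,1,⟨5,[(4,0),(1,2),(1,0),(24,1),(19,2)]⟩,⟨0,[(51,0)]⟩⟩,
  ⟨true,0,⟨0,[(9,0),(23,0)]⟩,⟨0,[(0,0)]⟩⟩,[]⟩) (.Q [0,-1,0,0,1,0,1,1,-1,0,1,-1] (.p true [0,0,1] [0,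
  0,0,0,1] (⟨0,[(42,0)]⟩,⟨0,[(41,0)]⟩) .k 2 (⟨0,[(35,0)]⟩,⟨0,[(34,0)]⟩) .k (.r (-1) ⟨15,[(21,5),(3,
  1),(3,1),(7,9),(2,5),(7,0),(4,12)]⟩ ⟨10,[(12,0),(3,3),(2,2),(3,0),(1,0),(1,3),(10,0)]⟩)) (.Q [0,0,
  0,0,0,-1,0,0,0,0,0,1] (.ed false [1,-1,0,0,1] .k) (.K ⟨0,[0,-1,0,0,1],(-1),(-1),(⟨0,[(0,0)]⟩,⟨0,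
  [(36,0),(8,0)]⟩),(.r 0 ⟨14,[(12,0),(1,2),(3,1),(6,3),(1,3),(12,1),(8,1)]⟩ ⟨18,[(1,5),(0,0),(5,9),
  (8,6),(13,0),(3,14),(6,4),(12,2)]⟩),(.r (-1) ⟨2,[(27,1),(6,0),(0,0),(21,2)]⟩ ⟨14,[(1,2),(0,2),(3,
  5),(5,3),(4,11),(13,0),(10,1),(3,0)]⟩),.k,(.r 0 ⟨0,[(15,0),(11,0)]⟩ ⟨18,[(1,15),(0,5),(5,2),(8,3),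
  (13,5),(3,12),(3,0),(2,10)]⟩),.k,[⟨0,[(1,0),(16,0)]⟩,⟨5,[(2,1),(2,3),(6,2),(1,2),(2,2),(8,0),(14,
  2)]⟩,⟨0,[(8,0)]⟩,⟨10,[(5,6),(6,0),(1,7),(0,1),(9,1),(9,3),(13,4)]⟩]⟩) (.Q [0,0,0,-1,-1,0,0,0,1,1,
  0,1] (.p true [1,-1,0,0,1] [] (⟨0,[(37,0),(9,0)]⟩,⟨0,[(0,0)]⟩) (.r 0 ⟨14,[(12,0),(1,2),(3,1),(6,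
  3),(1,3),(12,1),(8,1)]⟩ ⟨18,[(1,5),(0,0),(5,9),(8,6),(13,0),(3,14),(6,4),(12,2)]⟩) 0 (⟨0,[]⟩,⟨0,
  []⟩) .k .k) (.Q [0,0,0,0,0,0,0,0,1,-1,0,1] (.p true [0,0,0,0,1] [1] (⟨0,[(38,0)]⟩,⟨0,[(37,0)]⟩)
  .k 1 (⟨0,[]⟩,⟨0,[]⟩) .k .k) (.R ⟨0,false,false,true,[0,0,0,0,1],[0,0,1],[0,1,1],(⟨0,[(39,0)]⟩,⟨0,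
  [(38,0)]⟩),(⟨0,[(46,0)]⟩,⟨0,[(45,0)]⟩),⟨0,[(2,0)]⟩,.k,.k,(.r 0 ⟨14,[(14,0),(1,2),(3,1),(6,3),(1,
  3),(12,1),(8,1)]⟩ ⟨18,[(3,5),(0,0),(5,9),(8,6),(13,0),(3,14),(6,4),(12,2)]⟩),.k,.k,.k,⟨true,0,⟨0,
  [(23,0)]⟩,⟨12,[(3,1),(3,1),(6,2),(10,4),(1,1),(0,3),(0,0),(3,0)]⟩⟩,⟨false,1,⟨0,[(3,0),(16,0)]⟩,⟨7,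
  [(4,0),(2,2),(4,0),(20,3),(3,2)]⟩⟩,⟨true,0,⟨1,[(43,0),(0,0)]⟩,⟨15,[(14,0),(1,0),(3,1),(6,1),(1,1),
  (21,1),(1,6)]⟩⟩,⟨false,1,⟨0,[(3,0)]⟩,⟨34,[(1,5),(5,9),(4,18),(1,2),(9,7),(4,0),(3,0),(8,7)]⟩⟩,
  ⟨false,0,⟨0,[]⟩,⟨0,[]⟩⟩,⟨false,0,⟨0,[]⟩,⟨0,[]⟩⟩,[.o ⟨false,0,⟨0,[(27,0)]⟩,⟨27,[(5,5),(6,5),(1,5),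
  (9,21),(4,1),(3,1),(18,6),(4,2)]⟩⟩,.a ⟨true,0,⟨0,[(28,0)]⟩,⟨5,[(14,0),(1,1),(0,0),(6,3),(15,2),(1,
  0)]⟩⟩ ⟨true,0,⟨1,[(43,0),(0,0)]⟩,⟨0,[]⟩⟩ ⟨false,1,⟨11,[(3,10),(1,0),(7,1),(2,0),(3,0),(8,1),(21,
  1),(1,2)]⟩,⟨34,[(1,5),(5,9),(4,18),(1,2),(9,7),(4,0),(3,0),(8,7)]⟩⟩,.o ⟨false,0,⟨0,[(0,0)]⟩,⟨0,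
  [(36,0)]⟩⟩,.o ⟨false,0,⟨15,[(4,3),(2,11),(11,1),(11,1),(11,2),(0,6)]⟩,⟨3,[(3,1),(1,1),(14,1),(31,
  0),(3,0)]⟩⟩]⟩) (.R ⟨0,false,false,false,[0,0,0,0,1],[0,0,1],[0,0,1,0,0,0,0,1],(⟨0,[(39,0)]⟩,⟨0,
  [(38,0)]⟩),(⟨0,[(46,0)]⟩,⟨0,[(45,0)]⟩),⟨0,[(2,0)]⟩,.k,.k,(.r 0 ⟨14,[(14,0),(1,2),(3,1),(6,3),(1,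
  3),(12,1),(8,1)]⟩ ⟨18,[(3,5),(0,0),(5,9),(8,6),(13,0),(3,14),(6,4),(12,2)]⟩),.k,.k,.k,⟨true,0,⟨1,
  [(43,0),(0,0)]⟩,⟨0,[]⟩⟩,⟨false,1,⟨0,[(3,0),(16,0)]⟩,⟨7,[(4,0),(2,2),(4,0),(20,3),(3,2)]⟩⟩,⟨false,
  1,⟨0,[(28,0),(15,0),(12,0)]⟩,⟨0,[(20,0)]⟩⟩,⟨true,1,⟨0,[(3,0)]⟩,⟨32,[(1,6),(2,0),(2,20),(4,3),(1,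
  14),(2,10),(2,18),(30,17)]⟩⟩,⟨false,0,⟨0,[]⟩,⟨0,[]⟩⟩,⟨false,0,⟨0,[]⟩,⟨0,[]⟩⟩,[.e ⟨false,0,⟨12,[(3,
  1),(3,1),(6,2),(10,4),(1,1),(0,3),(0,0),(3,0)]⟩,⟨3,[(20,0),(3,2),(26,0),(4,0)]⟩⟩ ⟨false,1,⟨10,[(0,
  2),(2,6),(4,0),(1,0),(2,2),(15,2),(21,1)]⟩,⟨34,[(1,5),(5,9),(4,18),(1,2),(9,7),(4,0),(3,0),(8,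
  7)]⟩⟩,.o ⟨false,1,⟨7,[(3,5),(0,1),(2,3),(44,0),(4,0)]⟩,⟨0,[(42,0)]⟩⟩,.a ⟨true,0,⟨0,[(37,0)]⟩,⟨0,
  [(0,0)]⟩⟩ ⟨true,0,⟨0,[(28,0),(15,0)]⟩,⟨0,[(20,0)]⟩⟩ ⟨false,1,⟨0,[(3,0)]⟩,⟨34,[(1,5),(5,9),(4,18),
  (1,2),(9,7),(4,0),(3,0),(8,7)]⟩⟩,.o ⟨false,0,⟨15,[(4,3),(2,11),(11,1),(11,1),(11,2),(0,6)]⟩,⟨1,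
  [(0,1),(51,0),(3,0)]⟩⟩]⟩)) (.R ⟨0,false,false,false,[0,1,0,0,-1],[1,0,0,0,-1],[0,-1,1],(⟨0,[(1,
  0)]⟩,⟨0,[(38,0),(9,0)]⟩),(⟨0,[(37,0)]⟩,⟨0,[(38,0)]⟩),⟨0,[(38,0)]⟩,(.r (-1) ⟨18,[(2,5),(0,0),(5,9),
  (8,6),(13,0),(3,14),(6,4),(12,2)]⟩ ⟨14,[(13,0),(1,2),(3,1),(6,3),(1,3),(12,1),(8,1)]⟩),.k,.k,.k,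
  .k,.k,⟨true,0,⟨1,[(42,0),(0,0)]⟩,⟨0,[]⟩⟩,⟨false,0,⟨0,[(46,0),(1,0)]⟩,⟨1,[(51,0),(3,0)]⟩⟩,⟨true,0,
  ⟨0,[(54,0)]⟩,⟨0,[(53,0)]⟩⟩,⟨false,0,⟨0,[(15,0),(40,0)]⟩,⟨6,[(3,0),(5,3),(1,0),(24,1),(14,2)]⟩⟩,
  ⟨false,0,⟨0,[]⟩,⟨0,[]⟩⟩,⟨false,0,⟨0,[]⟩,⟨0,[]⟩⟩,[.o ⟨false,1,⟨0,[(0,0),(14,0),(40,0)]⟩,⟨46,[(3,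
  10),(2,33),(4,1),(4,0),(13,7),(12,8),(6,18),(0,0)]⟩⟩,.e ⟨false,1,⟨0,[(56,0)]⟩,⟨0,[(50,0)]⟩⟩
  ⟨false,1,⟨0,[(46,0),(1,0),(7,0)]⟩,⟨22,[(13,8),(5,17),(6,17),(1,1),(21,1),(0,6),(0,5)]⟩⟩,.a ⟨true,
  1,⟨6,[(0,1),(1,1),(1,1),(4,0),(9,1),(8,0),(26,0)]⟩,⟨4,[(3,1),(9,0),(1,5),(2,1),(17,2),(19,1)]⟩⟩
  ⟨false,1,⟨1,[(42,0),(0,0),(12,1)]⟩,⟨15,[(13,0),(1,0),(3,1),(6,1),(1,1),(21,1),(1,6)]⟩⟩ ⟨true,0,⟨7,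
  [(5,2),(1,0),(5,0),(1,3),(2,1),(8,0),(8,2),(19,4)]⟩,⟨22,[(13,8),(5,17),(6,17),(1,1),(21,1),(0,6),
  (0,5)]⟩⟩,.o ⟨false,1,⟨0,[(0,0),(53,0)]⟩,⟨0,[(36,0)]⟩⟩]⟩))) (.Q [0,-1,0,-1,1,0,1,1,-1,0,1,-1] (.p
  true [0,0,1] [0,0,0,0,1] (⟨0,[(43,0)]⟩,⟨0,[(42,0)]⟩) .k 2 (⟨0,[(36,0)]⟩,⟨0,[(35,0)]⟩) .k (.r (-1)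
  ⟨15,[(22,5),(3,1),(3,1),(7,9),(2,5),(7,0),(4,12)]⟩ ⟨10,[(13,0),(3,3),(2,2),(3,0),(1,0),(1,3),(10,
  0)]⟩)) (.R ⟨1,true,false,false,[0,0,1],[0,0,0,0,1],[1,1,0,0,0,0,0,1],(⟨0,[(44,0)]⟩,⟨0,[(43,0)]⟩),
  (⟨0,[(37,0)]⟩,⟨0,[(36,0)]⟩),⟨0,[(33,0)]⟩,.k,.k,.k,.k,(.r (-1) ⟨37,[(0,21),(1,15),(2,2),(6,6),(14,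
  14),(3,11),(3,2),(19,7)]⟩ ⟨0,[(29,0)]⟩),.k,⟨true,0,⟨12,[(0,1),(4,1),(6,2),(10,6),(1,0),(0,1),(0,
  0),(11,0)]⟩,⟨0,[(21,0)]⟩⟩,⟨false,0,⟨1,[(2,0),(7,0),(1,0),(14,0)]⟩,⟨1,[(0,0),(7,0),(9,0),(22,0)]⟩⟩,
  ⟨false,0,⟨0,[]⟩,⟨17,[(0,3),(7,3),(0,0),(12,3),(8,0),(3,6),(6,1),(12,4)]⟩⟩,⟨true,(-1),⟨0,[(1,0)]⟩,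
  ⟨1,[(0,0),(7,0),(30,0)]⟩⟩,⟨true,0,⟨0,[(52,0)]⟩,⟨0,[(53,0)]⟩⟩,⟨false,0,⟨0,[(10,0)]⟩,⟨0,[(0,0)]⟩⟩,
  []⟩) (.Q [0,0,0,0,0,-1,0,0,0,0,0,1] (.ed false [1,-1,0,0,1] .k) (.S ⟨1,0,[0,2,0,-1],[0,0,0,0,1],
  [1,1],(⟨0,[(38,0)]⟩,⟨0,[(37,0)]⟩),⟨0,[(0,0)]⟩,.k,(.r 0 ⟨14,[(13,0),(1,2),(3,1),(6,3),(1,3),(12,1),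
  (8,1)]⟩ ⟨18,[(3,0),(5,9),(8,6),(13,0),(3,8),(3,5),(2,4),(12,8)]⟩),⟨true,0,⟨0,[]⟩,⟨0,[(58,0)]⟩⟩,
  ⟨false,0,⟨0,[(54,0)]⟩,⟨5,[(3,0),(3,0),(1,1),(13,1),(8,0),(3,0),(19,1)]⟩⟩,⟨false,1,⟨5,[(3,0),(3,0),
  (1,1),(13,1),(8,0),(3,0),(19,1)]⟩,⟨0,[(54,0)]⟩⟩,⟨true,0,⟨0,[(58,0)]⟩,⟨0,[]⟩⟩,[.o ⟨false,(-1),⟨2,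
  [(2,1),(3,0),(8,1),(10,1),(24,0)]⟩,⟨0,[(9,0),(46,0)]⟩⟩,.a ⟨true,(-1),⟨4,[(2,0),(0,0),(2,2),(8,
  3)]⟩,⟨3,[(4,1),(0,1),(1,1),(15,1),(31,0),(0,0)]⟩⟩ ⟨true,0,⟨0,[]⟩,⟨1,[(42,0),(0,0)]⟩⟩ ⟨false,0,⟨14,
  [(13,0),(1,2),(3,1),(6,3),(1,3),(12,1),(8,1)]⟩,⟨5,[(3,0),(3,0),(1,1),(13,1),(8,0),(3,0),(19,1)]⟩⟩,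
  .o ⟨false,0,⟨9,[(1,1),(1,1),(2,5),(44,0),(4,0)]⟩,⟨0,[(35,0)]⟩⟩,.o ⟨false,0,⟨15,[(3,3),(2,11),(11,
  1),(11,1),(11,2),(0,6)]⟩,⟨0,[(4,0),(7,0),(5,0),(9,0)]⟩⟩]⟩) (.R ⟨0,false,false,false,[0,0,0,0,1],
  [0,1],[1,0,2,1],(⟨0,[(38,0)]⟩,⟨0,[(37,0)]⟩),(⟨0,[(49,0)]⟩,⟨0,[(48,0)]⟩),⟨0,[(0,0)]⟩,.k,.k,(.r 0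
  ⟨14,[(13,0),(1,2),(3,1),(6,3),(1,3),(12,1),(8,1)]⟩ ⟨18,[(3,0),(5,9),(8,6),(13,0),(3,8),(3,5),(2,
  4),(12,8)]⟩),(.r 0 ⟨14,[(13,0),(1,2),(3,1),(6,3),(1,3),(12,1),(8,1)]⟩ ⟨18,[(3,0),(5,9),(8,6),(13,
  0),(3,8),(3,5),(2,4),(12,8)]⟩),.k,.k,⟨false,0,⟨0,[]⟩,⟨4,[(9,2),(18,0),(7,2),(18,0)]⟩⟩,⟨true,1,⟨0,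
  [(4,0),(7,0),(5,0),(9,0)]⟩,⟨5,[(3,1),(2,3),(6,2),(1,2),(2,2),(8,0),(14,2)]⟩⟩,⟨true,0,⟨4,[(13,0),
  (4,3),(5,0),(1,0),(0,1),(15,0),(12,0)]⟩,⟨15,[(13,2),(1,2),(3,5),(6,5),(1,5),(21,5),(1,4)]⟩⟩,
  ⟨false,2,⟨0,[(9,0),(46,0)]⟩,⟨4,[(2,0),(0,0),(2,2),(8,3)]⟩⟩,⟨false,0,⟨0,[]⟩,⟨0,[]⟩⟩,⟨false,0,⟨0,
  []⟩,⟨0,[]⟩⟩,[.o ⟨false,1,⟨6,[(3,0),(5,3),(1,0),(24,1),(14,2)]⟩,⟨0,[(54,0)]⟩⟩,.a ⟨true,1,⟨5,[(3,0),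
  (3,0),(1,1),(13,1),(8,0),(3,0),(19,1)]⟩,⟨0,[(15,0)]⟩⟩ ⟨true,0,⟨4,[(13,0),(4,3),(5,0),(1,0),(0,1),
  (15,0),(12,0)]⟩,⟨14,[(13,0),(1,2),(3,1),(6,3),(1,3),(12,1),(8,1)]⟩⟩ ⟨false,2,⟨1,[(9,1),(45,0),(0,
  0)]⟩,⟨4,[(2,0),(0,0),(2,2),(8,3)]⟩⟩,.o ⟨false,0,⟨9,[(1,1),(1,1),(2,5),(44,0),(4,0)]⟩,⟨0,[(35,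
  0)]⟩⟩,.o ⟨false,0,⟨15,[(3,3),(2,11),(11,1),(11,1),(11,2),(0,6)]⟩,⟨0,[(4,0),(7,0),(5,0),(9,
  0)]⟩⟩]⟩)))))) (.Q [0,0,0,0,0,1,0,0,0,0,0,-1] (.ed true [1,-1,0,0,1] .k) (.K ⟨0,[0,1,0,0,-1],1,1,
  (⟨0,[(0,0)]⟩,⟨0,[(34,0),(9,0)]⟩),(.r (-1) ⟨14,[(3,0),(1,7),(8,4),(17,7),(3,3),(2,4),(12,6)]⟩ ⟨14,
  [(9,0),(1,2),(3,1),(6,3),(1,3),(12,1),(8,1)]⟩),.k,(.r 0 ⟨1,[(3,3),(5,1),(1,7),(0,1),(2,1),(31,4),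
  (4,6)]⟩ ⟨2,[(24,1),(6,0),(0,0),(21,2)]⟩),(.r (-1) ⟨1,[(5,0),(8,0),(4,0),(12,0)]⟩ ⟨16,[(9,5),(1,0),
  (8,4),(1,6),(1,6),(11,4),(9,1)]⟩),.k,[⟨0,[(1,0),(9,0),(2,0),(8,0)]⟩,⟨0,[(31,0)]⟩,⟨10,[(2,6),(6,0),
  (1,7),(0,1),(9,1),(9,3),(13,4)]⟩,⟨0,[(5,0)]⟩]⟩) (.S ⟨1,0,[0,1,0,-1],[0,0,0,0,1],[1,2],(⟨0,[(34,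
  0)]⟩,⟨0,[(33,0)]⟩),⟨0,[(0,0)]⟩,.k,(.r 0 ⟨14,[(9,0),(1,2),(3,1),(6,3),(1,3),(12,1),(8,1)]⟩ ⟨14,[(3,
  0),(1,7),(8,4),(17,7),(3,3),(2,4),(12,6)]⟩),⟨false,0,⟨0,[]⟩,⟨1,[(31,0),(0,0),(19,0)]⟩⟩,⟨true,0,⟨0,
  [(50,0)]⟩,⟨0,[(49,0)]⟩⟩,⟨true,0,⟨0,[(49,0)]⟩,⟨0,[(50,0)]⟩⟩,⟨false,1,⟨1,[(31,0),(0,0),(19,0)]⟩,⟨0,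
  []⟩⟩,[.e ⟨false,0,⟨0,[(46,0)]⟩,⟨0,[(52,0)]⟩⟩ ⟨false,0,⟨14,[(9,0),(1,2),(3,1),(6,3),(1,3),(12,1),
  (8,1)]⟩,⟨5,[(3,0),(1,2),(1,0),(24,1),(19,2)]⟩⟩,.o ⟨false,0,⟨0,[(2,0)]⟩,⟨0,[(5,0)]⟩⟩,.o ⟨false,0,
  ⟨7,[(1,1),(0,4),(4,0),(0,0),(5,0),(5,0)]⟩,⟨0,[(31,0)]⟩⟩,.a ⟨true,(-1),⟨5,[(1,3),(0,1),(0,0),(5,1),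
  (1,3),(2,3),(8,2)]⟩,⟨3,[(3,0),(1,3),(5,2),(7,0),(4,0),(10,0),(16,0)]⟩⟩ ⟨false,0,⟨15,[(9,0),(1,0),
  (3,1),(6,1),(1,1),(21,1),(1,6)]⟩,⟨1,[(38,0),(0,0),(12,1)]⟩⟩ ⟨true,0,⟨14,[(9,0),(1,2),(3,1),(6,3),
  (1,3),(12,1),(8,1)]⟩,⟨12,[(3,3),(10,2),(11,1),(9,0),(2,4)]⟩⟩]⟩))))) (.Q [0,-1,-2,0,2,0,1,0,-1,0,1,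
  -1] (.p true [0,0,1] [0,0,0,0,1] (⟨0,[(37,0)]⟩,⟨0,[(36,0)]⟩) .k 2 (⟨0,[(30,0)]⟩,⟨0,[(29,0)]⟩) .k
  (.r (-1) ⟨15,[(16,5),(3,1),(3,1),(7,9),(2,5),(7,0),(4,12)]⟩ ⟨10,[(7,0),(3,3),(2,2),(3,0),(1,0),(1,
  3),(10,0)]⟩)) (.Q [0,0,-1,0,1,0,1,0,-1,0,1,-1] (.p true [0,0,1] [0,0,0,0,1] (⟨0,[(38,0)]⟩,⟨0,[(37,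
  0)]⟩) .k 2 (⟨0,[(31,0)]⟩,⟨0,[(30,0)]⟩) .k (.r (-1) ⟨15,[(17,5),(3,1),(3,1),(7,9),(2,5),(7,0),(4,
  12)]⟩ ⟨10,[(8,0),(3,3),(2,2),(3,0),(1,0),(1,3),(10,0)]⟩)) (.I [1,-1,-2,-2,1,0,0,1] (.I [0,0,2,0,0,
  2,1,0,-1] (.N [0,-2,1,0,-1] (-1) ⟨0,[(1,0)]⟩ ⟨0,[(12,0)]⟩ (.x 0 ⟨0,[(0,0)]⟩ ⟨2,[(6,2),(2,0),(3,2),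
  (19,2),(1,0),(11,0)]⟩)) (.I [0,0,-2,0,0,-2,-1,0,1] (.N [0,-2,1,0,-1] (-1) ⟨0,[(2,0)]⟩ ⟨0,[(13,
  0)]⟩ (.x (-1) ⟨0,[(5,0),(9,0),(7,0),(8,0),(2,0),(5,1),(9,0)]⟩ ⟨0,[(0,0)]⟩)) (.Q [0,0,0,0,0,0,0,0,
  -1,1,0,-1] (.p false [0,0,0,0,1] [1] (⟨0,[(35,0)]⟩,⟨0,[(34,0)]⟩) .k 1 (⟨0,[]⟩,⟨0,[]⟩) .k .k) (.Q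
  [0,0,2,0,-1,0,-1,0,1,0,-1,1] (.p true [1,0,-1,0,1] [1] (⟨0,[(36,0),(5,0)]⟩,⟨1,[(0,0),(1,0),(3,0),
  (9,0),(7,0),(10,0),(16,0)]⟩) .k 1 (⟨0,[]⟩,⟨0,[]⟩) .k (.r 0 ⟨10,[(13,0),(3,3),(2,2),(3,0),(1,0),(1,
  3),(10,0)]⟩ ⟨8,[(3,0),(18,1),(7,1),(7,5),(2,1),(7,0),(4,6)]⟩)) (.R ⟨0,false,false,true,[1,-1,-1],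
  [1,0,0,0,-1],[],(⟨0,[(32,0)]⟩,⟨0,[(7,0),(39,0)]⟩),(⟨0,[(36,0)]⟩,⟨0,[(37,0)]⟩),⟨0,[(7,0)]⟩,.k,.k,
  (.r (-1) ⟨2,[(18,0),(2,0),(0,0),(4,1)]⟩ ⟨1,[(0,0),(7,0),(8,0),(5,1),(15,0)]⟩),(.r 0 ⟨0,[(15,0),
  (11,0)]⟩ ⟨4,[(0,1),(7,2),(14,1),(11,0),(3,2),(2,0),(12,3)]⟩),.k,.k,⟨false,1,⟨6,[(6,1),(2,0),(21,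
  0),(2,1),(0,2),(13,0)]⟩,⟨0,[]⟩⟩,⟨true,1,⟨0,[(5,0)]⟩,⟨0,[(0,0)]⟩⟩,⟨true,0,⟨3,[(17,0),(5,2),(2,0),
  (12,0),(2,1)]⟩,⟨0,[(15,0),(11,0)]⟩⟩,⟨false,1,⟨1,[(1,1),(9,0),(13,0),(29,1)]⟩,⟨1,[(0,0),(9,0),(10,
  0),(5,0)]⟩⟩,⟨false,0,⟨0,[]⟩,⟨0,[]⟩⟩,⟨false,0,⟨0,[]⟩,⟨0,[]⟩⟩,[.a ⟨true,0,⟨0,[(1,0)]⟩,⟨0,[(35,0)]⟩⟩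
  ⟨false,1,⟨6,[(6,1),(2,0),(21,0),(2,1),(0,2),(13,0)]⟩,⟨0,[]⟩⟩ ⟨true,1,⟨0,[(5,0)]⟩,⟨0,[(0,0)]⟩⟩,.o
  ⟨false,1,⟨1,[(1,1),(48,0),(4,0)]⟩,⟨7,[(0,2),(8,0),(8,2),(6,2),(9,3),(13,0),(0,1)]⟩⟩,.o ⟨false,0,
  ⟨0,[(42,0)]⟩,⟨0,[(11,0),(5,0),(9,0)]⟩⟩,.e ⟨false,1,⟨4,[(6,0),(2,0),(28,0),(16,1)]⟩,⟨1,[(41,0),(0,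
  0)]⟩⟩ ⟨false,2,⟨0,[(6,0)]⟩,⟨0,[(0,0)]⟩⟩]⟩) (.K ⟨0,[1,0,-1,0,1],(-1),(-1),(⟨0,[(37,0),(5,0)]⟩,⟨1,
  [(1,0),(1,0),(3,0),(9,0),(7,0),(10,0),(16,0)]⟩),.k,(.r 0 ⟨0,[(15,0),(11,0)]⟩ ⟨10,[(8,2),(8,1),(5,
  5),(11,2),(3,6),(2,6),(12,7)]⟩),(.r 0 ⟨0,[(29,0)]⟩ ⟨17,[(4,9),(18,1),(7,1),(7,5),(2,1),(7,0),(4,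
  6)]⟩),.k,.k,[⟨0,[(0,0),(16,0),(7,0),(27,0)]⟩,⟨0,[(9,0),(2,0),(1,0),(2,0),(8,0)]⟩,⟨1,[(1,1),(23,1),
  (24,0),(4,0)]⟩,⟨7,[(10,4),(1,0),(1,6),(14,1),(5,2),(4,0),(8,2)]⟩]⟩)) (.Q [0,0,0,0,0,-1,0,0,0,0,0,
  1] (.ed false [1,-1,0,0,1] .k) (.K ⟨0,[0,-1,0,0,1],(-1),(-1),(⟨0,[(0,0)]⟩,⟨1,[(7,0),(28,1),(6,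
  0)]⟩),(.r 0 ⟨14,[(12,0),(1,2),(3,1),(6,3),(1,3),(12,1),(8,1)]⟩ ⟨10,[(8,5),(8,3),(5,0),(11,5),(3,
  2),(2,2),(12,4)]⟩),(.r (-1) ⟨2,[(27,1),(6,0),(0,0),(21,2)]⟩ ⟨1,[(11,3),(0,1),(1,7),(0,1),(2,1),
  (31,2),(4,8)]⟩),.k,(.r 0 ⟨0,[(15,0),(11,0)]⟩ ⟨10,[(8,2),(8,1),(5,5),(11,2),(3,6),(2,6),(12,7)]⟩),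
  .k,[⟨0,[(5,0)]⟩,⟨1,[(1,1),(10,0),(1,0),(2,0),(8,0),(14,0)]⟩,⟨0,[(8,0)]⟩,⟨1,[(1,0),(12,1),(10,0),
  (9,0),(4,0)]⟩]⟩) (.R ⟨0,false,false,false,[0,0,0,0,1],[0,1],[0,1,1],(⟨0,[(37,0)]⟩,⟨0,[(36,0)]⟩),
  (⟨0,[(48,0)]⟩,⟨0,[(47,0)]⟩),⟨0,[(0,0)]⟩,.k,.k,(.r 0 ⟨14,[(12,0),(1,2),(3,1),(6,3),(1,3),(12,1),(8,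
  1)]⟩ ⟨10,[(8,5),(8,3),(5,0),(11,5),(3,2),(2,2),(12,4)]⟩),(.r 0 ⟨14,[(12,0),(1,2),(3,1),(6,3),(1,
  3),(12,1),(8,1)]⟩ ⟨10,[(8,5),(8,3),(5,0),(11,5),(3,2),(2,2),(12,4)]⟩),.k,.k,⟨false,0,⟨14,[(12,0),
  (1,2),(3,1),(6,3),(1,3),(12,1),(8,1)]⟩,⟨5,[(6,0),(1,1),(1,0),(6,0),(5,1),(11,1),(19,1)]⟩⟩,⟨true,1,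
  ⟨12,[(5,9),(0,1),(1,0),(3,5),(14,0),(22,2),(0,1)]⟩,⟨1,[(1,1),(10,0),(1,0),(2,0),(8,0),(14,0)]⟩⟩,
  ⟨true,0,⟨1,[(41,0),(0,0)]⟩,⟨15,[(12,0),(1,0),(3,1),(6,1),(1,1),(21,1),(1,6)]⟩⟩,⟨false,2,⟨0,[(8,0),
  (46,0)]⟩,⟨0,[(1,0),(12,0)]⟩⟩,⟨false,0,⟨0,[]⟩,⟨0,[]⟩⟩,⟨false,0,⟨0,[]⟩,⟨0,[]⟩⟩,[.o ⟨false,1,⟨11,[(8,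
  5),(1,1),(0,1),(23,3),(14,4),(4,0)]⟩,⟨0,[(53,0)]⟩⟩,.a ⟨true,1,⟨5,[(6,0),(1,1),(1,0),(6,0),(5,1),
  (11,1),(19,1)]⟩,⟨0,[(14,0)]⟩⟩ ⟨true,0,⟨1,[(41,0),(0,0)]⟩,⟨0,[]⟩⟩ ⟨false,2,⟨11,[(6,5),(1,7),(1,1),
  (12,1),(7,1),(18,0),(4,2)]⟩,⟨0,[(1,0),(12,0)]⟩⟩,.o ⟨false,0,⟨0,[(1,0)]⟩,⟨0,[(34,0)]⟩⟩,.o ⟨false,0,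
  ⟨1,[(1,1),(39,0),(0,0)]⟩,⟨12,[(5,9),(0,1),(1,0),(3,5),(14,0),(22,2),(0,1)]⟩⟩]⟩))))) (.Q [0,0,1,0,
  0,0,1,0,-1,0,1,-1] (.p true [0,0,1] [0,0,0,0,1] (⟨0,[(40,0)]⟩,⟨0,[(39,0)]⟩) .k 2 (⟨0,[(33,0)]⟩,⟨0,
  [(32,0)]⟩) .k (.r (-1) ⟨15,[(19,5),(3,1),(3,1),(7,9),(2,5),(7,0),(4,12)]⟩ ⟨10,[(10,0),(3,3),(2,2),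
  (3,0),(1,0),(1,3),(10,0)]⟩)) (.R ⟨0,false,false,false,[1,-1,-1],[0,0,0,0,1],[0,1],(⟨0,[(29,0)]⟩,
  ⟨0,[(4,0),(39,0)]⟩),(⟨0,[(34,0)]⟩,⟨0,[(33,0)]⟩),⟨0,[(4,0)]⟩,.k,.k,(.r (-1) ⟨2,[(15,0),(2,0),(0,0),
  (4,1)]⟩ ⟨6,[(14,4),(5,7),(15,3),(2,3),(9,0)]⟩),(.r (-1) ⟨1,[(14,0),(0,0),(8,0),(27,0)]⟩ ⟨6,[(14,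
  0),(5,2),(15,4),(2,4),(9,2)]⟩),.k,.k,⟨false,1,⟨6,[(3,1),(2,0),(21,0),(2,1),(0,2),(13,0)]⟩,⟨0,[]⟩⟩,
  ⟨true,1,⟨0,[(6,0),(31,0)]⟩,⟨0,[(0,0),(8,0)]⟩⟩,⟨false,0,⟨3,[(14,0),(5,2),(2,0),(12,0),(2,1)]⟩,⟨1,
  [(14,0),(0,0),(8,0),(27,0)]⟩⟩,⟨true,0,⟨1,[(8,0),(13,0),(9,1)]⟩,⟨4,[(0,3),(2,0),(5,4),(4,0),(0,2),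
  (3,0),(4,1)]⟩⟩,⟨false,0,⟨0,[]⟩,⟨0,[]⟩⟩,⟨false,0,⟨0,[]⟩,⟨0,[]⟩⟩,[.o ⟨false,0,⟨1,[(7,0),(3,0),(10,
  0),(9,0),(14,0)]⟩,⟨3,[(0,1),(2,1),(5,1),(37,0),(4,0)]⟩⟩,.a ⟨true,0,⟨0,[(32,0)]⟩,⟨0,[(0,0),(34,
  0)]⟩⟩ ⟨false,1,⟨6,[(3,1),(2,0),(21,0),(2,1),(0,2),(13,0)]⟩,⟨0,[]⟩⟩ ⟨true,1,⟨0,[(6,0),(31,0)]⟩,⟨0,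
  [(0,0),(8,0)]⟩⟩,.o ⟨false,0,⟨0,[(39,0)]⟩,⟨0,[(0,0),(5,0)]⟩⟩,.e ⟨true,0,⟨15,[(9,0),(1,0),(3,1),(6,
  1),(1,1),(21,1),(1,6)]⟩,⟨1,[(38,0),(0,0)]⟩⟩ ⟨true,1,⟨1,[(6,1),(8,0),(20,0),(1,0)]⟩,⟨0,[(0,0),(8,
  0)]⟩⟩]⟩) (.Q [0,0,0,0,0,0,0,0,-1,1,0,-1] (.p false [0,0,0,0,1] [1] (⟨0,[(34,0)]⟩,⟨0,[(33,0)]⟩) .k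
  1 (⟨0,[]⟩,⟨0,[]⟩) .k .k) (.Q [0,0,2,0,-1,0,-1,0,1,0,-1,1] (.p false [0,0,1] [0,0,0,0,1] (⟨0,[(42,
  0)]⟩,⟨0,[(41,0)]⟩) .k 2 (⟨0,[(35,0)]⟩,⟨0,[(34,0)]⟩) .k (.r (-1) ⟨15,[(21,5),(3,1),(3,1),(7,9),(2,
  5),(7,0),(4,12)]⟩ ⟨10,[(12,0),(3,3),(2,2),(3,0),(1,0),(1,3),(10,0)]⟩)) (.R ⟨0,false,false,true,[1,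
  -1,-1],[1,0,0,0,-1],[],(⟨0,[(31,0)]⟩,⟨0,[(6,0),(39,0)]⟩),(⟨0,[(35,0)]⟩,⟨0,[(36,0)]⟩),⟨0,[(6,0)]⟩,
  .k,.k,(.r (-1) ⟨2,[(17,0),(2,0),(0,0),(4,1)]⟩ ⟨1,[(0,0),(6,0),(8,0),(5,1),(15,0)]⟩),(.r 0 ⟨0,[(14,
  0),(11,0)]⟩ ⟨10,[(7,2),(8,1),(5,5),(11,2),(3,6),(2,6),(12,7)]⟩),.k,.k,⟨false,1,⟨6,[(5,1),(2,0),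
  (21,0),(2,1),(0,2),(13,0)]⟩,⟨0,[]⟩⟩,⟨true,1,⟨0,[(4,0)]⟩,⟨0,[(0,0)]⟩⟩,⟨true,0,⟨3,[(16,0),(5,2),(2,
  0),(12,0),(2,1)]⟩,⟨0,[(14,0),(11,0)]⟩⟩,⟨false,1,⟨1,[(1,1),(8,0),(13,0),(29,1)]⟩,⟨1,[(0,0),(8,0),
  (10,0),(5,0)]⟩⟩,⟨false,0,⟨0,[]⟩,⟨0,[]⟩⟩,⟨false,0,⟨0,[]⟩,⟨0,[]⟩⟩,[.a ⟨true,0,⟨0,[(1,0)]⟩,⟨0,[(34,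
  0)]⟩⟩ ⟨false,1,⟨6,[(5,1),(2,0),(21,0),(2,1),(0,2),(13,0)]⟩,⟨0,[]⟩⟩ ⟨true,1,⟨0,[(4,0)]⟩,⟨0,[(0,
  0)]⟩⟩,.o ⟨false,1,⟨1,[(1,1),(47,0),(4,0)]⟩,⟨7,[(0,2),(7,0),(8,2),(6,2),(9,3),(13,0),(0,1)]⟩⟩,.o
  ⟨false,0,⟨0,[(41,0)]⟩,⟨0,[(10,0),(5,0),(9,0)]⟩⟩,.e ⟨false,1,⟨2,[(2,0),(2,0),(48,0)]⟩,⟨1,[(40,0),
  (0,0)]⟩⟩ ⟨false,2,⟨0,[(5,0)]⟩,⟨0,[(0,0)]⟩⟩]⟩) (.Q [0,0,0,0,0,0,0,0,0,0,1,-1] (.ed true [1,0,-1,0,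
  1] (.r 0 ⟨10,[(13,0),(3,3),(2,2),(3,0),(1,0),(1,3),(10,0)]⟩ ⟨15,[(22,5),(3,1),(3,1),(7,9),(2,5),
  (7,0),(4,12)]⟩)) (.K ⟨0,[1,0,-1,0,1],(-1),(-1),(⟨0,[(37,0),(5,0)]⟩,⟨0,[(0,0)]⟩),.k,(.r 0 ⟨0,[(15,
  0),(11,0)]⟩ ⟨10,[(8,2),(8,1),(5,5),(11,2),(3,6),(2,6),(12,7)]⟩),(.r 0 ⟨0,[(29,0)]⟩ ⟨1,[(23,0),(2,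
  0),(0,0),(14,0),(12,0)]⟩),.k,.k,[⟨0,[(1,0),(15,0),(7,0),(27,0)]⟩,⟨1,[(3,0),(8,0),(1,0),(2,0),(8,
  0),(8,0)]⟩,⟨1,[(2,1),(22,1),(24,0),(4,0)]⟩,⟨7,[(10,4),(1,0),(1,6),(14,1),(5,2),(4,0),(8,2)]⟩]⟩)
  (.S ⟨1,0,[0,0,1],[1,1,0,0,-1],[0,-1,1],(⟨1,[(7,0),(28,1),(6,0)]⟩,⟨1,[(0,0),(15,0),(20,0)]⟩),⟨0,
  [(36,0)]⟩,(.r (-1) ⟨10,[(8,5),(8,3),(5,0),(11,5),(3,2),(2,2),(12,4)]⟩ ⟨14,[(12,0),(1,2),(3,1),(6,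
  3),(1,3),(12,1),(8,1)]⟩),.k,⟨true,0,⟨0,[(53,0)]⟩,⟨0,[(52,0)]⟩⟩,⟨false,0,⟨0,[(53,0)]⟩,⟨5,[(6,0),(1,
  1),(1,0),(6,0),(5,1),(11,1),(19,1)]⟩⟩,⟨false,1,⟨1,[(34,0),(0,0),(19,0)]⟩,⟨0,[]⟩⟩,⟨true,0,⟨0,[(57,
  0)]⟩,⟨0,[]⟩⟩,[.a ⟨true,0,⟨0,[(2,0)]⟩,⟨0,[(35,0)]⟩⟩ ⟨false,1,⟨1,[(34,0),(0,0),(19,0)]⟩,⟨15,[(12,0),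
  (1,0),(3,1),(6,1),(1,1),(21,1),(1,6)]⟩⟩ ⟨true,0,⟨1,[(41,0),(0,0)]⟩,⟨0,[]⟩⟩,.o ⟨false,1,⟨1,[(2,1),
  (47,0),(4,0)]⟩,⟨11,[(3,2),(10,3),(0,1),(2,0),(6,3),(9,8),(4,0),(9,5)]⟩⟩,.o ⟨false,1,⟨8,[(1,3),(6,
  2),(3,1),(14,0),(6,1),(15,0)]⟩,⟨0,[(3,0),(13,0),(7,0),(27,0)]⟩⟩,.e ⟨false,1,⟨0,[(55,0)]⟩,⟨0,[(57,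
  0)]⟩⟩ ⟨false,1,⟨1,[(34,0),(0,0),(19,0)]⟩,⟨0,[]⟩⟩]⟩))) (.Q [0,0,0,0,0,-1,0,0,0,0,0,1] (.ed false
  [1,-1,0,0,1] .k) (.K ⟨0,[0,-1,0,0,1],(-1),(-1),(⟨0,[(0,0)]⟩,⟨1,[(6,0),(28,1),(6,0)]⟩),(.r 0 ⟨14,
  [(11,0),(1,2),(3,1),(6,3),(1,3),(12,1),(8,1)]⟩ ⟨10,[(7,5),(8,3),(5,0),(11,5),(3,2),(2,2),(12,
  4)]⟩),(.r (-1) ⟨2,[(26,1),(6,0),(0,0),(21,2)]⟩ ⟨1,[(3,1),(6,3),(0,1),(1,7),(3,1),(31,2),(4,8)]⟩),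
  .k,(.r 0 ⟨0,[(14,0),(11,0)]⟩ ⟨10,[(7,2),(8,1),(5,5),(11,2),(3,6),(2,6),(12,7)]⟩),.k,[⟨0,[(4,0)]⟩,
  ⟨1,[(1,1),(9,0),(1,0),(2,0),(8,0),(14,0)]⟩,⟨0,[(7,0)]⟩,⟨0,[(1,0),(11,0),(42,0)]⟩]⟩) (.R ⟨0,false,
  false,false,[0,0,0,0,1],[0,1],[0,1,1],(⟨0,[(36,0)]⟩,⟨0,[(35,0)]⟩),(⟨0,[(47,0)]⟩,⟨0,[(46,0)]⟩),⟨0,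
  [(0,0)]⟩,.k,.k,(.r 0 ⟨14,[(11,0),(1,2),(3,1),(6,3),(1,3),(12,1),(8,1)]⟩ ⟨10,[(7,5),(8,3),(5,0),
  (11,5),(3,2),(2,2),(12,4)]⟩),(.r 0 ⟨14,[(11,0),(1,2),(3,1),(6,3),(1,3),(12,1),(8,1)]⟩ ⟨10,[(7,5),
  (8,3),(5,0),(11,5),(3,2),(2,2),(12,4)]⟩),.k,.k,⟨false,0,⟨14,[(11,0),(1,2),(3,1),(6,3),(1,3),(12,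
  1),(8,1)]⟩,⟨5,[(5,0),(1,1),(1,0),(6,0),(5,1),(11,1),(19,1)]⟩⟩,⟨true,1,⟨12,[(4,9),(0,1),(1,0),(3,
  5),(14,0),(22,2),(0,1)]⟩,⟨1,[(1,1),(9,0),(1,0),(2,0),(8,0),(14,0)]⟩⟩,⟨true,0,⟨1,[(40,0),(0,0)]⟩,
  ⟨15,[(11,0),(1,0),(3,1),(6,1),(1,1),(21,1),(1,6)]⟩⟩,⟨false,2,⟨0,[(7,0),(46,0)]⟩,⟨0,[(1,0),(11,
  0)]⟩⟩,⟨false,0,⟨0,[]⟩,⟨0,[]⟩⟩,⟨false,0,⟨0,[]⟩,⟨0,[]⟩⟩,[.o ⟨false,1,⟨11,[(7,5),(1,1),(0,1),(23,3),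
  (14,4),(4,0)]⟩,⟨0,[(52,0)]⟩⟩,.a ⟨true,1,⟨5,[(5,0),(1,1),(1,0),(6,0),(5,1),(11,1),(19,1)]⟩,⟨0,[(13,
  0)]⟩⟩ ⟨true,0,⟨1,[(40,0),(0,0)]⟩,⟨0,[]⟩⟩ ⟨false,2,⟨2,[(2,0),(2,0),(1,2),(46,0)]⟩,⟨0,[(1,0),(11,
  0)]⟩⟩,.o ⟨false,0,⟨0,[(1,0)]⟩,⟨0,[(33,0)]⟩⟩,.o ⟨false,0,⟨1,[(1,1),(38,0),(0,0)]⟩,⟨12,[(4,9),(0,1),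
  (1,0),(3,5),(14,0),(22,2),(0,1)]⟩⟩]⟩))))) (.R ⟨0,false,false,false,[1,-1,-1],[1,0,0,0,-1],[1,1,1],
  (⟨0,[(27,0)]⟩,⟨0,[(2,0),(39,0)]⟩),(⟨0,[(31,0)]⟩,⟨0,[(32,0)]⟩),⟨0,[(2,0)]⟩,.k,.k,(.r (-1) ⟨2,[(13,
  0),(2,0),(0,0),(4,1)]⟩ ⟨6,[(12,4),(5,7),(15,3),(2,3),(9,0)]⟩),(.r 0 ⟨0,[(10,0),(11,0)]⟩ ⟨10,[(3,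
  2),(8,1),(5,5),(11,2),(3,6),(2,6),(12,7)]⟩),.k,.k,⟨true,(-1),⟨2,[(9,1),(0,0),(9,1),(14,0),(1,0)]⟩,
  ⟨0,[(50,0)]⟩⟩,⟨false,2,⟨4,[(1,3),(15,0),(11,0),(4,0),(9,1)]⟩,⟨0,[(0,0)]⟩⟩,⟨true,(-1),⟨7,[(7,5),(2,
  1),(1,2),(5,0),(1,5),(0,2),(12,2)]⟩,⟨7,[(1,0),(3,0),(7,4),(3,1),(4,2),(27,0)]⟩⟩,⟨false,2,⟨0,[(3,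
  0),(17,0),(28,0)]⟩,⟨0,[(0,0),(9,0),(11,0)]⟩⟩,⟨false,0,⟨0,[]⟩,⟨0,[]⟩⟩,⟨false,0,⟨0,[]⟩,⟨0,[]⟩⟩,[.e
  ⟨false,0,⟨0,[(52,0)]⟩,⟨4,[(1,0),(2,0),(28,0),(16,1)]⟩⟩ ⟨false,2,⟨0,[(1,0)]⟩,⟨0,[(0,0),(51,0)]⟩⟩,
  .o ⟨false,2,⟨0,[(29,0),(20,0)]⟩,⟨0,[(0,0),(12,0),(6,0)]⟩⟩,.o ⟨false,0,⟨0,[(37,0)]⟩,⟨0,[(6,0),(5,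
  0),(9,0)]⟩⟩,.a ⟨true,(-1),⟨0,[(7,0),(28,0)]⟩,⟨4,[(1,0),(2,0),(8,4),(7,4),(11,0),(16,1)]⟩⟩ ⟨false,
  0,⟨0,[]⟩,⟨1,[(29,0),(0,0),(19,0)]⟩⟩ ⟨true,2,⟨0,[(1,0)]⟩,⟨2,[(0,2),(8,1),(0,0),(9,1),(14,0),(1,
  0)]⟩⟩]⟩)) (.R ⟨0,false,false,false,[1,-1,-1],[1,0,0,0,-1],[1,1,1],(⟨0,[(26,0)]⟩,⟨0,[(1,0),(39,
  0)]⟩),(⟨0,[(30,0)]⟩,⟨0,[(31,0)]⟩),⟨0,[(1,0)]⟩,.k,.k,(.r (-1) ⟨2,[(12,0),(2,0),(0,0),(4,1)]⟩ ⟨6,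
  [(11,4),(5,7),(15,3),(2,3),(9,0)]⟩),(.r 0 ⟨0,[(9,0),(11,0)]⟩ ⟨10,[(2,2),(8,1),(5,5),(11,2),(3,6),
  (2,6),(12,7)]⟩),.k,.k,⟨true,(-1),⟨3,[(0,0),(7,1),(0,0),(9,1),(8,0),(5,0),(16,0)]⟩,⟨0,[(49,0)]⟩⟩,
  ⟨false,2,⟨5,[(2,5),(9,3),(3,1),(3,5),(0,1),(26,0),(0,0)]⟩,⟨4,[(0,3),(2,0),(28,0),(16,1)]⟩⟩,⟨true,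
  (-1),⟨7,[(6,5),(2,1),(1,2),(5,0),(1,5),(0,2),(12,2)]⟩,⟨5,[(12,3),(3,1),(4,1),(26,0),(0,0)]⟩⟩,
  ⟨false,2,⟨0,[(2,0),(17,0),(28,0)]⟩,⟨3,[(0,2),(3,0),(6,0),(0,1),(8,1)]⟩⟩,⟨false,0,⟨0,[]⟩,⟨0,[]⟩⟩,
  ⟨false,0,⟨0,[]⟩,⟨0,[]⟩⟩,[.a ⟨true,1,⟨0,[(2,0),(5,0),(40,0)]⟩,⟨3,[(0,2),(2,0),(4,0),(3,2),(7,2),
  (24,0),(3,1)]⟩⟩ ⟨false,0,⟨0,[(51,0)]⟩,⟨1,[(48,0),(0,0)]⟩⟩ ⟨true,2,⟨1,[(2,1),(8,0),(0,0),(7,1),(0,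
  0),(27,0)]⟩,⟨0,[(0,0)]⟩⟩,.o ⟨false,2,⟨0,[(28,0),(20,0)]⟩,⟨2,[(0,1),(2,0),(8,1),(6,1)]⟩⟩,.o ⟨false,
  0,⟨0,[(36,0)]⟩,⟨0,[(5,0),(5,0),(9,0)]⟩⟩,.e ⟨false,0,⟨0,[]⟩,⟨1,[(28,0),(0,0),(19,0)]⟩⟩ ⟨false,3,⟨5,
  [(2,5),(9,3),(3,1),(3,5),(0,1),(26,0),(0,6)]⟩,⟨0,[(0,0)]⟩⟩]⟩))) (.R ⟨2,true,false,false,[0,1],[0,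
  0,0,0,1],[1,0,1,1],(⟨0,[]⟩,⟨0,[]⟩),(⟨0,[(29,0)]⟩,⟨0,[(28,0)]⟩),⟨0,[]⟩,.k,.k,.k,(.r (-1) ⟨4,[(9,0),
  (11,0),(9,1),(2,1),(9,2),(2,4)]⟩ ⟨14,[(4,0),(1,2),(3,1),(6,3),(1,3),(12,1),(8,1)]⟩),.k,.k,⟨false,
  1,⟨0,[(44,0),(2,0)]⟩,⟨14,[(4,0),(1,2),(3,1),(6,3),(1,3),(12,1),(8,1)]⟩⟩,⟨true,(-1),⟨6,[(0,4),(3,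
  0),(2,0),(1,1),(5,0),(1,0),(0,0),(8,1)]⟩,⟨0,[(26,0)]⟩⟩,⟨true,0,⟨0,[]⟩,⟨0,[(49,0)]⟩⟩,⟨false,(-1),
  ⟨0,[(0,0)]⟩,⟨0,[(26,0),(17,0),(2,0)]⟩⟩,⟨false,1,⟨0,[(44,0),(2,0)]⟩,⟨0,[(45,0)]⟩⟩,⟨true,(-1),⟨22,
  [(0,14),(1,3),(0,5),(0,0),(1,4),(0,1),(19,3),(13,4)]⟩,⟨0,[(26,0)]⟩⟩,[]⟩))))))))))

theorem ok95 : chk K t95 r55 = true := by decide +kernel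

noncomputable def t99 : Tre :=
  (.S ⟨1,0,[0,0,0,-1,0,0,0,1],[0,0,1],[1,1,1],(⟨0,[(24,0)]⟩,⟨0,[(23,0)]⟩),⟨0,[(13,0)]⟩,.k,.k,⟨false,
  0,⟨0,[(1,0)]⟩,⟨21,[(3,17),(3,5),(3,1),(7,3),(10,0),(3,1),(0,12)]⟩⟩,⟨true,0,⟨0,[(33,0)]⟩,⟨0,[(32,
  0)]⟩⟩,⟨true,0,⟨0,[(9,0)]⟩,⟨0,[(0,0)]⟩⟩,⟨false,1,⟨1,[(14,0),(0,0),(19,0)]⟩,⟨0,[]⟩⟩,[.e ⟨false,0,⟨0,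
  [(37,0)]⟩,⟨1,[(34,0),(0,0)]⟩⟩ ⟨false,0,⟨0,[(0,0)]⟩,⟨0,[(2,0),(29,0)]⟩⟩,.o ⟨false,1,⟨0,[(5,0),(27,
  0),(1,0)]⟩,⟨0,[(4,0)]⟩⟩,.o ⟨false,1,⟨0,[(2,0),(2,0)]⟩,⟨0,[(8,0)]⟩⟩,.a ⟨true,0,⟨0,[(21,0)]⟩,⟨0,
  [(18,0)]⟩⟩ ⟨false,0,⟨0,[]⟩,⟨1,[(14,0),(0,0),(19,0)]⟩⟩ ⟨true,0,⟨0,[(0,0)]⟩,⟨0,[(9,0)]⟩⟩]⟩)

theorem ok99 : chk K t99 r52 = true := by decide +kernel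

noncomputable def t102 : Tre :=
  (.R ⟨1,false,false,true,[0,0,1],[0,1],[1,1,1],(⟨0,[(23,0)]⟩,⟨0,[(22,0)]⟩),(⟨0,[(27,0)]⟩,⟨0,[(26,
  0)]⟩),⟨0,[(12,0)]⟩,.k,.k,.k,.k,(.r 0 ⟨2,[(0,1),(0,0),(4,0),(23,0)]⟩ ⟨2,[(2,0),(5,4),(9,0),(2,0),
  (12,2)]⟩),.k,⟨true,0,⟨0,[(32,0)]⟩,⟨0,[(1,0),(6,0),(25,0)]⟩⟩,⟨false,1,⟨1,[(17,1),(11,0),(3,0)]⟩,⟨0,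
  [(20,0)]⟩⟩,⟨true,0,⟨0,[(19,0),(0,0)]⟩,⟨1,[(0,0),(1,0),(27,0)]⟩⟩,⟨true,0,⟨0,[(3,0)]⟩,⟨1,[(0,0),(17,
  0),(1,0)]⟩⟩,⟨true,0,⟨0,[(8,0)]⟩,⟨17,[(0,5),(0,3),(0,5),(1,0),(1,3),(3,0),(7,0)]⟩⟩,⟨false,1,⟨0,[(3,
  0),(27,0),(2,0)]⟩,⟨0,[(0,0),(19,0)]⟩⟩,[.e ⟨false,0,⟨0,[(36,0)]⟩,⟨1,[(33,0),(0,0)]⟩⟩ ⟨false,0,⟨0,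
  [(7,0),(22,0)]⟩,⟨5,[(6,1),(6,0),(0,0),(5,5),(13,2)]⟩⟩,.o ⟨false,1,⟨1,[(29,0),(1,1),(2,0)]⟩,⟨0,
  [(32,0)]⟩⟩,.o ⟨false,1,⟨1,[(20,1),(8,0),(3,0)]⟩,⟨0,[(7,0)]⟩⟩,.a ⟨true,0,⟨0,[(20,0)]⟩,⟨0,[(17,
  0)]⟩⟩ ⟨false,0,⟨0,[]⟩,⟨1,[(13,0),(0,0),(19,0)]⟩⟩ ⟨true,0,⟨0,[(7,0),(22,0)]⟩,⟨0,[(20,0),(11,
  0)]⟩⟩]⟩)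

theorem ok102 : chk K t102 l56 = true := by decide +kernel

noncomputable def t103 : Tre :=
  (.S ⟨1,0,[0,0,0,-1,0,0,0,1],[0,0,1],[1,1,0,0,0,0,0,1],(⟨0,[(24,0)]⟩,⟨0,[(23,0)]⟩),⟨0,[(13,0)]⟩,.k,
  .k,⟨false,0,⟨0,[]⟩,⟨1,[(14,0),(0,0),(19,0)]⟩⟩,⟨true,0,⟨0,[(33,0)]⟩,⟨0,[(32,0)]⟩⟩,⟨true,0,⟨0,[(32,
  0)]⟩,⟨0,[(33,0)]⟩⟩,⟨false,1,⟨1,[(14,0),(0,0),(19,0)]⟩,⟨0,[]⟩⟩,[.o ⟨false,0,⟨0,[(0,0)]⟩,⟨7,[(1,3),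
  (9,1),(2,0),(0,0),(4,3),(9,0),(3,1),(0,3)]⟩⟩,.o ⟨false,1,⟨15,[(0,9),(6,1),(11,5),(1,2),(0,2),(7,
  2),(4,10)]⟩,⟨0,[(4,0)]⟩⟩,.o ⟨false,1,⟨1,[(21,1),(8,0),(3,0)]⟩,⟨0,[(8,0)]⟩⟩,.a ⟨true,0,⟨0,[(21,
  0)]⟩,⟨0,[(18,0)]⟩⟩ ⟨false,0,⟨1,[(2,1),(31,0),(0,0)]⟩,⟨0,[(20,0),(0,0),(13,0)]⟩⟩ ⟨true,0,⟨8,[(0,0),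
  (1,5),(0,0),(2,0),(0,2),(3,0),(23,2)]⟩,⟨0,[(9,0)]⟩⟩]⟩)

theorem ok103 : chk K t103 l57 = true := by decide +kernel

noncomputable def t104 : Tre :=
  (.I [1,0,-1,0,1,0,0,-1] (.S ⟨1,0,[0,0,0,-1,0,0,0,-1],[1,0,-1],[1,1,0,0,0,0,0,-1],(⟨0,[(25,0)]⟩,⟨0,
  [(26,0)]⟩),⟨0,[(14,0)]⟩,.k,.k,⟨false,0,⟨0,[]⟩,⟨1,[(16,0),(0,0),(19,0)]⟩⟩,⟨true,0,⟨0,[(35,0)]⟩,⟨0,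
  [(34,0)]⟩⟩,⟨true,0,⟨0,[(34,0)]⟩,⟨0,[(35,0)]⟩⟩,⟨false,1,⟨1,[(16,0),(0,0),(19,0)]⟩,⟨0,[]⟩⟩,[.e
  ⟨false,1,⟨0,[(0,0),(38,0)]⟩,⟨0,[(4,0),(32,0)]⟩⟩ ⟨false,1,⟨0,[(0,0),(34,0)]⟩,⟨0,[(5,0)]⟩⟩,.o
  ⟨false,1,⟨0,[(22,0),(12,0),(1,0)]⟩,⟨1,[(4,1),(18,1),(8,0),(0,1),(3,0)]⟩⟩,.o ⟨false,0,⟨0,[(10,0)]⟩,
  ⟨3,[(0,1),(6,1),(15,1),(8,0),(4,0)]⟩⟩,.a ⟨true,(-1),⟨0,[(1,0)]⟩,⟨0,[(0,0),(7,0)]⟩⟩ ⟨false,1,⟨0,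
  [(0,0)]⟩,⟨1,[(4,1),(18,0),(0,0),(12,1)]⟩⟩ ⟨true,1,⟨0,[(0,0),(34,0)]⟩,⟨5,[(1,1),(1,1),(0,5),(0,1),
  (17,1),(8,0),(4,0)]⟩⟩]⟩) (.Q [0,-1,0,1,1,0,0,0,0,-1] (.pp true [-1,1]) (.R ⟨1,false,false,true,[1,
  0,-1],[1,-1],[1,1,0,0,0,0,0,-1],(⟨0,[(26,0)]⟩,⟨0,[(27,0)]⟩),(⟨0,[(30,0)]⟩,⟨0,[(31,0)]⟩),⟨0,[(15,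
  0)]⟩,.k,.k,.k,.k,.k,.k,⟨false,1,⟨1,[(12,1),(24,0),(0,0)]⟩,⟨1,[(1,0),(4,0),(3,0)]⟩⟩,⟨true,0,⟨0,
  [(24,0)]⟩,⟨0,[(11,0)]⟩⟩,⟨false,0,⟨0,[]⟩,⟨1,[(17,0),(0,0),(19,0)]⟩⟩,⟨false,0,⟨5,[(1,1),(7,3),(0,1),
  (13,2),(0,0)]⟩,⟨1,[(0,0),(2,0),(19,0),(14,0)]⟩⟩,⟨true,0,⟨0,[(35,0)]⟩,⟨0,[(36,0)]⟩⟩,⟨false,0,⟨0,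
  [(9,0)]⟩,⟨0,[(23,0),(14,0)]⟩⟩,[.o ⟨false,0,⟨0,[(36,0),(3,0)]⟩,⟨0,[(0,0)]⟩⟩,.o ⟨false,0,⟨0,[(36,
  0)]⟩,⟨3,[(0,1),(16,0),(0,0),(14,0),(1,1)]⟩⟩,.o ⟨false,0,⟨0,[(11,0)]⟩,⟨1,[(24,1),(8,0),(3,0)]⟩⟩,.a
  ⟨true,(-1),⟨0,[(2,0)]⟩,⟨0,[(24,0),(12,0)]⟩⟩ ⟨true,1,⟨5,[(10,1),(1,5),(4,0),(0,0),(18,2)]⟩,⟨0,[(1,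
  0)]⟩⟩ ⟨false,1,⟨5,[(10,1),(6,0),(0,0),(5,5),(12,2)]⟩,⟨0,[(0,0),(1,0)]⟩⟩]⟩) (.I [0,0,-1,-1,1,0,0,
  -1] (.S ⟨1,0,[0,1,1,0,0,0,0,1],[0,1,1],[1,0,1,1,0,0,0,1],(⟨0,[(28,0),(0,0)]⟩,⟨0,[(16,0)]⟩),⟨0,
  [(28,0)]⟩,.k,.k,⟨true,0,⟨0,[]⟩,⟨0,[(41,0)]⟩⟩,⟨false,0,⟨0,[(37,0)]⟩,⟨5,[(5,1),(1,1),(10,0),(0,0),
  (18,0),(0,3)]⟩⟩,⟨false,1,⟨5,[(5,1),(1,1),(10,0),(0,0),(18,0),(0,3)]⟩,⟨0,[(37,0)]⟩⟩,⟨true,0,⟨0,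
  [(41,0)]⟩,⟨0,[]⟩⟩,[.o ⟨false,0,⟨0,[(9,0)]⟩,⟨0,[(24,0),(14,0)]⟩⟩,.a ⟨true,0,⟨0,[(10,0)]⟩,⟨1,[(0,0),
  (2,0),(0,0)]⟩⟩ ⟨false,0,⟨0,[(2,0),(32,0),(3,0)]⟩,⟨0,[(0,0),(40,0)]⟩⟩ ⟨true,(-1),⟨0,[(2,0)]⟩,⟨3,
  [(0,1),(12,1),(4,0),(0,0),(19,0)]⟩⟩,.e ⟨false,0,⟨9,[(2,5),(2,1),(1,5),(17,0),(0,0),(12,5)]⟩,⟨0,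
  [(0,0)]⟩⟩ ⟨false,(-1),⟨0,[(2,0)]⟩,⟨2,[(0,1),(4,0),(12,0),(0,0),(18,0),(0,1)]⟩⟩,.o ⟨false,1,⟨1,
  [(25,1),(8,0),(3,0)]⟩,⟨0,[(12,0)]⟩⟩]⟩) (.I [0,0,1,1,-1,0,0,1] (.Q [0,-1,0,-2,0,0,1,1,0,0,1] (.p
  true [0,0,1] [] (⟨0,[(29,0)]⟩,⟨0,[(28,0)]⟩) .k 0 (⟨0,[]⟩,⟨0,[]⟩) .k .k) (.R ⟨1,false,false,true,
  [0,0,1],[0,1],[],(⟨0,[(30,0)]⟩,⟨0,[(29,0)]⟩),(⟨0,[(34,0)]⟩,⟨0,[(33,0)]⟩),⟨0,[(19,0)]⟩,.k,.k,.k,.k,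
  (.r 0 ⟨0,[(1,0),(11,0)]⟩ ⟨1,[(7,1),(12,0),(0,0),(5,0),(0,0),(12,0)]⟩),.k,⟨true,1,⟨5,[(13,1),(6,0),
  (0,0),(19,2)]⟩,⟨0,[(4,0),(10,0)]⟩⟩,⟨false,1,⟨1,[(24,1),(11,0),(3,0)]⟩,⟨0,[(27,0)]⟩⟩,⟨true,1,⟨5,
  [(13,1),(1,5),(4,0),(0,0),(19,2)]⟩,⟨0,[(8,0)]⟩⟩,⟨true,0,⟨0,[(10,0)]⟩,⟨1,[(0,0),(24,0)]⟩⟩,⟨true,1,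
  ⟨1,[(15,1),(24,0),(0,0)]⟩,⟨8,[(0,0),(2,3),(0,1),(3,5),(4,0),(14,0),(7,1)]⟩⟩,⟨false,1,⟨9,[(6,5),(0,
  5),(1,1),(7,1),(18,3),(3,2),(0,2)]⟩,⟨0,[(0,0)]⟩⟩,[.e ⟨false,1,⟨1,[(20,0),(0,0),(18,0)]⟩,⟨0,[]⟩⟩
  ⟨false,0,⟨0,[(14,0),(22,0)]⟩,⟨5,[(13,1),(6,0),(0,0),(5,5),(13,2)]⟩⟩,.o ⟨false,1,⟨5,[(7,1),(1,1),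
  (10,0),(0,0),(14,2),(3,0),(0,0)]⟩,⟨0,[(39,0)]⟩⟩,.o ⟨false,1,⟨1,[(27,1),(8,0),(3,0)]⟩,⟨0,[(14,
  0)]⟩⟩,.a ⟨true,0,⟨0,[(27,0)]⟩,⟨0,[(24,0)]⟩⟩ ⟨false,1,⟨1,[(40,0),(0,0)]⟩,⟨1,[(27,0),(0,0)]⟩⟩ ⟨true,
  0,⟨0,[(14,0),(22,0)]⟩,⟨0,[(27,0),(11,0)]⟩⟩]⟩) (.Q [0,0,0,0,0,2,0,0,0,-1,1] (.p true [0,0,1] [1]
  (⟨0,[(30,0)]⟩,⟨0,[(29,0)]⟩) .k 1 (⟨0,[]⟩,⟨0,[]⟩) .k .k) (.Q [0,0,2,0,-1,0,-1,0,0,0,-1] (.p false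
  [0,0,1] [] (⟨0,[(31,0)]⟩,⟨0,[(30,0)]⟩) .k 0 (⟨0,[]⟩,⟨0,[]⟩) .k .k) (.R ⟨0,false,false,false,[1,-1,
  -1],[1,-1],[0,0,-1,-1,0,0,0,-1],(⟨0,[(20,0)]⟩,⟨0,[(1,0),(33,0)]⟩),(⟨0,[(35,0)]⟩,⟨0,[(36,0)]⟩),⟨0,
  [(1,0)]⟩,.k,.k,(.r (-2) ⟨1,[(15,1),(1,1),(4,0),(0,0),(19,0)]⟩ ⟨11,[(3,13),(5,3),(1,1),(17,2),(0,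
  2),(12,1)]⟩),.k,.k,.k,⟨true,1,⟨5,[(15,1),(1,5),(4,0),(0,0),(19,2)]⟩,⟨0,[(6,0)]⟩⟩,⟨false,1,⟨0,[(29,
  0),(12,0)]⟩,⟨0,[(16,0)]⟩⟩,⟨false,1,⟨1,[(22,0),(0,0),(19,0)]⟩,⟨0,[]⟩⟩,⟨true,0,⟨0,[(14,0)]⟩,⟨0,[(28,
  0)]⟩⟩,⟨false,0,⟨0,[]⟩,⟨0,[]⟩⟩,⟨false,0,⟨0,[]⟩,⟨0,[]⟩⟩,[.o ⟨false,0,⟨0,[(41,0)]⟩,⟨5,[(9,1),(1,1),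
  (10,0),(0,0),(14,2),(3,0),(0,0)]⟩⟩,.e ⟨false,2,⟨0,[(9,0),(5,0),(27,0)]⟩,⟨3,[(0,0),(2,1),(6,0),(16,
  0),(12,1)]⟩⟩ ⟨false,2,⟨5,[(15,1),(6,0),(0,0),(5,5),(12,5),(0,2)]⟩,⟨1,[(0,0),(1,0),(7,0)]⟩⟩,.a
  ⟨true,(-1),⟨0,[(7,0)]⟩,⟨0,[(29,0),(12,0)]⟩⟩ ⟨false,2,⟨2,[(15,1),(1,2),(4,0),(0,0),(19,2)]⟩,⟨0,[(4,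
  0)]⟩⟩ ⟨true,1,⟨5,[(15,1),(6,0),(0,0),(5,5),(12,2)]⟩,⟨1,[(0,0),(1,0),(7,0)]⟩⟩,.o ⟨false,(-1),⟨0,
  [(0,0)]⟩,⟨1,[(29,1),(8,0),(3,2)]⟩⟩]⟩) (.Q [0,0,-2,0,1,0,2,1,0,-1,2] (.p true [0,0,1] [1,0,-1] (⟨0,
  [(32,0)]⟩,⟨0,[(31,0)]⟩) .k 2 (⟨0,[(31,0)]⟩,⟨0,[(32,0)]⟩) .k (.r 1 ⟨1,[(3,1),(2,0),(4,0),(3,0)]⟩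
  ⟨2,[(15,1),(1,5),(4,0),(0,0),(19,2)]⟩)) (.R ⟨0,false,false,true,[1,-1,-1],[0,0,1],[1,1,0,0,0,0,0,
  1],(⟨0,[(21,0)]⟩,⟨0,[(2,0),(33,0)]⟩),(⟨0,[(33,0)]⟩,⟨0,[(32,0)]⟩),⟨0,[(2,0)]⟩,.k,.k,(.r (-2) ⟨1,
  [(16,1),(1,1),(4,0),(0,0),(19,0)]⟩ ⟨11,[(4,13),(5,3),(1,1),(17,2),(0,2),(12,1)]⟩),(.r (-2) ⟨0,
  [(16,0),(1,1),(25,0)]⟩ ⟨0,[(7,0),(4,0)]⟩),.k,.k,⟨true,0,⟨0,[]⟩,⟨1,[(30,0),(0,0)]⟩⟩,⟨false,2,⟨5,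
  [(1,7),(21,0),(0,0),(5,3),(8,2)]⟩,⟨0,[(8,0),(8,0)]⟩⟩,⟨true,(-2),⟨0,[(4,0),(6,0)]⟩,⟨0,[(16,0),(1,
  1),(25,0)]⟩⟩,⟨false,0,⟨4,[(0,2),(3,3),(7,0),(1,1),(15,1),(13,0)]⟩,⟨0,[(6,0),(22,1),(14,1)]⟩⟩,
  ⟨false,0,⟨0,[]⟩,⟨0,[]⟩⟩,⟨false,0,⟨0,[]⟩,⟨0,[]⟩⟩,[.o ⟨false,0,⟨0,[(14,0)]⟩,⟨0,[(29,0),(14,0)]⟩⟩,.e
  ⟨false,0,⟨2,[(4,1),(7,0),(3,0),(26,0)]⟩,⟨5,[(16,1),(1,5),(4,0),(0,0),(19,2)]⟩⟩ ⟨false,1,⟨0,[(0,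
  0)]⟩,⟨1,[(6,0),(2,0),(19,0),(1,1),(12,0)]⟩⟩,.a ⟨true,(-1),⟨0,[(8,0)]⟩,⟨2,[(1,1),(21,0),(0,0),(5,
  0)]⟩⟩ ⟨true,(-1),⟨0,[(11,0)]⟩,⟨5,[(16,1),(1,5),(4,0),(0,0),(19,2)]⟩⟩ ⟨false,1,⟨5,[(0,3),(27,1),(1,
  1),(8,0),(4,0)]⟩,⟨0,[(8,0),(20,0),(14,0)]⟩⟩,.e ⟨false,0,⟨2,[(4,1),(7,0),(3,0),(26,0)]⟩,⟨0,[(29,0),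
  (0,0),(13,0)]⟩⟩ ⟨false,1,⟨0,[(0,0)]⟩,⟨1,[(8,1),(20,1),(0,0),(0,0),(12,1)]⟩⟩]⟩) (.R ⟨0,false,false,
  true,[1,-1,-1],[0,0,1],[1,1,0,0,0,0,0,1],(⟨0,[(21,0)]⟩,⟨0,[(2,0),(33,0)]⟩),(⟨0,[(33,0)]⟩,⟨0,[(32,
  0)]⟩),⟨0,[(2,0)]⟩,.k,.k,(.r (-2) ⟨1,[(16,1),(1,1),(4,0),(0,0),(19,0)]⟩ ⟨11,[(4,13),(5,3),(1,1),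
  (17,2),(0,2),(12,1)]⟩),(.r (-2) ⟨0,[(16,0),(1,1),(25,0)]⟩ ⟨0,[(7,0),(4,0)]⟩),.k,.k,⟨true,0,⟨0,[]⟩,
  ⟨1,[(30,0),(0,0)]⟩⟩,⟨false,2,⟨5,[(1,7),(21,0),(0,0),(5,3),(8,2)]⟩,⟨4,[(0,2),(3,2),(11,0),(0,0),(2,
  0),(6,0)]⟩⟩,⟨true,(-2),⟨0,[(4,0),(6,0)]⟩,⟨0,[(16,0),(1,1),(25,0)]⟩⟩,⟨false,0,⟨3,[(1,3),(2,3),(2,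
  1),(6,1),(15,1),(8,0),(4,0)]⟩,⟨2,[(0,1),(8,0),(6,1),(1,1),(10,0),(14,2)]⟩⟩,⟨false,0,⟨0,[]⟩,⟨0,
  []⟩⟩,⟨false,0,⟨0,[]⟩,⟨0,[]⟩⟩,[.o ⟨false,0,⟨0,[(14,0)]⟩,⟨0,[(29,0),(14,0)]⟩⟩,.a ⟨true,0,⟨0,[(15,
  0)]⟩,⟨3,[(0,0),(8,2),(6,0),(13,0)]⟩⟩ ⟨false,0,⟨2,[(4,1),(7,0),(3,0),(26,0)]⟩,⟨5,[(16,1),(1,5),(4,
  0),(0,0),(19,2)]⟩⟩ ⟨true,1,⟨3,[(1,3),(5,1),(6,1),(15,1),(8,0),(4,0)]⟩,⟨0,[(0,0)]⟩⟩,.a ⟨true,(-1),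
  ⟨0,[(8,0)]⟩,⟨2,[(1,1),(21,0),(0,0),(5,0)]⟩⟩ ⟨true,(-1),⟨0,[(11,0)]⟩,⟨5,[(16,1),(1,5),(4,0),(0,0),
  (19,2)]⟩⟩ ⟨false,1,⟨3,[(1,3),(5,1),(6,1),(15,1),(8,0),(4,0)]⟩,⟨6,[(0,4),(2,0),(5,0),(6,0),(3,0),
  (23,3)]⟩⟩,.a ⟨true,(-1),⟨1,[(8,1),(21,0),(0,0)]⟩,⟨0,[(1,0)]⟩⟩ ⟨false,0,⟨2,[(4,1),(7,0),(3,0),(26,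
  0)]⟩,⟨7,[(0,1),(15,1),(1,5),(11,3),(8,0),(4,6)]⟩⟩ ⟨true,1,⟨0,[(1,0),(12,0)]⟩,⟨0,[(0,0)]⟩⟩]⟩)))
  (.Q [0,0,2,0,-1,0,-1,0,0,0,-1] (.p false [0,0,1] [] (⟨0,[(31,0)]⟩,⟨0,[(30,0)]⟩) .k 0 (⟨0,[]⟩,⟨0,
  []⟩) .k .k) (.R ⟨1,false,false,false,[1,-1,-1],[1,-1],[1,0,-1,-1,0,0,0,-1],(⟨0,[(20,0)]⟩,⟨0,[(32,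
  0),(0,0)]⟩),(⟨0,[(35,0)]⟩,⟨0,[(36,0)]⟩),⟨0,[(1,0)]⟩,.k,.k,(.r (-2) ⟨1,[(15,1),(1,1),(4,0),(0,0),
  (19,0)]⟩ ⟨11,[(3,13),(5,3),(1,1),(17,2),(0,2),(12,1)]⟩),.k,.k,.k,⟨true,1,⟨5,[(15,1),(1,5),(4,0),
  (0,0),(19,2)]⟩,⟨0,[(6,0)]⟩⟩,⟨false,1,⟨0,[(29,0),(12,0)]⟩,⟨0,[(16,0)]⟩⟩,⟨true,0,⟨0,[]⟩,⟨0,[(45,
  0)]⟩⟩,⟨true,0,⟨0,[(14,0)]⟩,⟨0,[(28,0)]⟩⟩,⟨false,1,⟨5,[(9,1),(1,1),(10,0),(0,0),(18,0),(0,3)]⟩,⟨0,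
  [(41,0)]⟩⟩,⟨true,0,⟨2,[(3,0),(10,1),(14,0),(9,1),(3,0)]⟩,⟨2,[(0,0),(14,0),(12,2),(0,0)]⟩⟩,[.o
  ⟨false,0,⟨0,[(41,0)]⟩,⟨5,[(9,1),(1,1),(10,0),(0,0),(14,2),(3,0),(0,0)]⟩⟩,.e ⟨false,2,⟨0,[(9,0),(5,
  0),(27,0)]⟩,⟨3,[(0,0),(2,1),(6,0),(16,0),(12,1)]⟩⟩ ⟨false,2,⟨5,[(15,1),(6,0),(0,0),(5,5),(12,5),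
  (0,2)]⟩,⟨1,[(0,0),(1,0),(7,0)]⟩⟩,.a ⟨true,(-1),⟨0,[(7,0)]⟩,⟨0,[(29,0),(12,0)]⟩⟩ ⟨false,2,⟨2,[(15,
  1),(1,2),(4,0),(0,0),(19,2)]⟩,⟨0,[(3,0)]⟩⟩ ⟨true,1,⟨5,[(15,1),(6,0),(0,0),(5,5),(12,2)]⟩,⟨1,[(0,
  0),(1,0),(7,0)]⟩⟩,.o ⟨false,(-1),⟨0,[(0,0)]⟩,⟨1,[(29,1),(8,0),(3,2)]⟩⟩]⟩) (.I [0,0,-1,-2,1,0,0,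
  -1] (.S ⟨1,0,[0,0,-1,-2,0,0,0,-1],[1,-1,-1],[1,1],(⟨0,[(21,0)]⟩,⟨0,[(33,0),(0,0)]⟩),⟨0,[(2,0)]⟩,
  .k,(.r (-2) ⟨1,[(0,1),(22,0),(0,0),(18,0)]⟩ ⟨11,[(4,13),(5,3),(1,1),(17,2),(0,2),(12,1)]⟩),⟨false,
  (-1),⟨0,[(5,0)]⟩,⟨7,[(0,5),(9,1),(12,2),(0,2),(18,1),(0,4)]⟩⟩,⟨true,0,⟨0,[(42,0)]⟩,⟨0,[(41,0)]⟩⟩,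
  ⟨true,(-1),⟨0,[(4,0),(36,0)]⟩,⟨0,[(0,0)]⟩⟩,⟨false,1,⟨1,[(23,0),(0,0),(19,0)]⟩,⟨0,[]⟩⟩,[.a ⟨true,0,
  ⟨0,[(0,0),(7,0)]⟩,⟨8,[(1,5),(2,7),(5,3),(1,1),(2,2),(28,1)]⟩⟩ ⟨false,0,⟨8,[(6,1),(9,0),(21,0),(0,
  0),(0,4)]⟩,⟨1,[(23,0),(0,0),(19,0)]⟩⟩ ⟨true,1,⟨0,[(0,0)]⟩,⟨11,[(4,13),(5,3),(1,1),(17,2),(0,2),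
  (12,1)]⟩⟩,.o ⟨false,1,⟨1,[(0,1),(7,1),(30,0),(4,0)]⟩,⟨6,[(1,3),(2,5),(5,2),(1,0),(1,2),(24,1),(0,
  0)]⟩⟩,.a ⟨true,(-1),⟨0,[(8,0)]⟩,⟨2,[(1,1),(21,0),(0,0),(5,0)]⟩⟩ ⟨false,0,⟨0,[]⟩,⟨1,[(23,0),(0,0),
  (19,0)]⟩⟩ ⟨true,1,⟨0,[(0,0)]⟩,⟨0,[(4,0),(36,0)]⟩⟩,.a ⟨true,(-1),⟨1,[(8,1),(21,0),(0,0)]⟩,⟨0,[(1,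
  0)]⟩⟩ ⟨true,0,⟨8,[(6,1),(9,0),(21,0),(0,0),(0,4)]⟩,⟨1,[(30,0),(0,0)]⟩⟩ ⟨false,2,⟨1,[(0,1),(42,0),
  (0,0)]⟩,⟨11,[(4,13),(5,3),(1,1),(17,2),(0,2),(12,1)]⟩⟩]⟩) (.Q [0,0,0,0,0,2,0,0,0,0,-1] (.p false
  [0,0,1] [] (⟨0,[(33,0)]⟩,⟨0,[(32,0)]⟩) .k 0 (⟨0,[]⟩,⟨0,[]⟩) .k .k) (.Q [0,0,-1,-1,0,0,-2,-1,0,1,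
  -2] (.p false [0,0,1] [1,0,-1] (⟨0,[(34,0)]⟩,⟨0,[(33,0)]⟩) .k 2 (⟨0,[(33,0)]⟩,⟨0,[(34,0)]⟩) .k
  (.r 1 ⟨1,[(5,1),(2,0),(4,0),(3,0)]⟩ ⟨2,[(17,1),(1,5),(4,0),(0,0),(19,2)]⟩)) (.R ⟨0,false,false,
  false,[0,-1,1],[1,-1,-1],[1,1],(⟨0,[(24,0)]⟩,⟨0,[(1,0),(36,0)]⟩),(⟨0,[(23,0)]⟩,⟨0,[(35,0),(0,
  0)]⟩),⟨0,[(1,0)]⟩,.k,.k,(.r 0 ⟨0,[(6,0),(11,0)]⟩ ⟨1,[(12,1),(12,0),(0,0),(5,0),(0,0),(12,0)]⟩),.k,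
  .k,.k,⟨false,(-1),⟨2,[(2,0),(10,1),(28,0)]⟩,⟨2,[(18,1),(1,2),(4,0),(0,0),(19,2)]⟩⟩,⟨true,(-1),⟨0,
  [(0,0),(5,0)]⟩,⟨5,[(3,1),(21,0),(0,0),(5,9),(8,2)]⟩⟩,⟨true,0,⟨0,[(20,0)]⟩,⟨1,[(9,0),(4,0),(3,
  0)]⟩⟩,⟨false,1,⟨0,[(0,0),(19,0),(25,0)]⟩,⟨3,[(3,3),(5,5),(6,1),(15,1),(8,0),(4,0)]⟩⟩,⟨false,0,⟨0,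
  []⟩,⟨0,[]⟩⟩,⟨false,0,⟨0,[]⟩,⟨0,[]⟩⟩,[.a ⟨true,0,⟨0,[(0,0),(31,0)]⟩,⟨12,[(2,3),(0,2),(8,1),(1,0),
  (2,9),(28,0)]⟩⟩ ⟨false,0,⟨8,[(8,1),(9,0),(21,0),(0,0),(0,4)]⟩,⟨1,[(25,0),(0,0),(19,0)]⟩⟩ ⟨true,0,
  ⟨0,[(0,0)]⟩,⟨3,[(2,1),(13,1),(15,5),(8,0),(4,0)]⟩⟩,.o ⟨false,1,⟨0,[(31,0),(12,0),(1,0)]⟩,⟨22,[(2,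
  6),(0,4),(1,0),(6,2),(1,0),(1,18),(24,1)]⟩⟩,.a ⟨true,0,⟨0,[(32,0)]⟩,⟨0,[(29,0)]⟩⟩ ⟨false,0,⟨0,[]⟩,
  ⟨1,[(25,0),(0,0),(19,0)]⟩⟩ ⟨true,0,⟨0,[(0,0)]⟩,⟨19,[(2,5),(0,3),(8,3),(3,17),(15,17),(8,0),(4,
  0)]⟩⟩,.a ⟨true,0,⟨1,[(32,2),(0,0)]⟩,⟨13,[(0,10),(1,10),(0,8),(4,1),(9,2),(10,0),(16,0)]⟩⟩ ⟨true,0,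
  ⟨8,[(8,1),(9,0),(21,0),(0,0),(0,4)]⟩,⟨1,[(32,0),(0,0)]⟩⟩ ⟨false,1,⟨1,[(0,1),(44,0),(0,0)]⟩,⟨3,[(2,
  1),(13,1),(15,5),(8,0),(4,0)]⟩⟩]⟩) (.R ⟨0,false,false,false,[0,-1,1],[1,-1],[1],(⟨0,[(24,0)]⟩,⟨0,
  [(1,0),(36,0)]⟩),(⟨0,[(38,0)]⟩,⟨0,[(39,0)]⟩),⟨0,[(1,0)]⟩,.k,.k,(.r 0 ⟨0,[(6,0),(11,0)]⟩ ⟨1,[(12,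
  1),(12,0),(0,0),(5,0),(0,0),(12,0)]⟩),.k,.k,.k,⟨true,0,⟨6,[(2,0),(9,1),(1,0),(17,1),(0,1),(12,
  0)]⟩,⟨0,[(44,0)]⟩⟩,⟨false,0,⟨0,[(29,0)]⟩,⟨5,[(3,1),(21,0),(0,0),(5,3),(8,2)]⟩⟩,⟨false,1,⟨0,[(20,
  0),(25,0)]⟩,⟨1,[(9,0),(4,0),(3,0)]⟩⟩,⟨true,0,⟨1,[(8,0),(2,0),(19,0),(14,0)]⟩,⟨0,[(16,0)]⟩⟩,⟨false,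
  0,⟨0,[]⟩,⟨0,[]⟩⟩,⟨false,0,⟨0,[]⟩,⟨0,[]⟩⟩,[.o ⟨false,0,⟨0,[(44,0)]⟩,⟨5,[(12,1),(1,1),(10,0),(0,0),
  (14,2),(3,0),(0,0)]⟩⟩,.e ⟨false,1,⟨1,[(45,0),(0,0)]⟩,⟨0,[(48,0)]⟩⟩ ⟨false,1,⟨12,[(3,2),(4,0),(9,
  3),(3,3),(6,7),(16,6)]⟩,⟨1,[(0,0),(7,0),(3,0),(28,0)]⟩⟩,.e ⟨true,0,⟨0,[]⟩,⟨0,[(48,0)]⟩⟩ ⟨true,0,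
  ⟨7,[(8,1),(1,0),(7,1),(3,1),(6,2),(16,0)]⟩,⟨1,[(0,0),(7,0),(3,0),(28,0)]⟩⟩,.a ⟨true,0,⟨1,[(32,2),
  (0,0)]⟩,⟨0,[(2,0),(8,0),(6,0)]⟩⟩ ⟨false,1,⟨1,[(45,0),(0,0)]⟩,⟨1,[(32,0),(0,0)]⟩⟩ ⟨true,0,⟨2,[(2,
  1),(7,0),(0,1),(6,2)]⟩,⟨3,[(0,0),(8,0),(6,0),(3,2),(11,1),(0,0),(7,0)]⟩⟩]⟩)) (.Q [0,0,0,0,0,0,-1,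
  -1,-1,1,-1,-1] (.p false [0,0,1] [1,0,0,0,-1] (⟨0,[(34,0)]⟩,⟨0,[(33,0)]⟩) .k 2 (⟨0,[(26,0)]⟩,⟨0,
  [(27,0)]⟩) .k (.r 1 ⟨0,[(1,1),(0,0),(1,0),(2,5),(32,2),(4,2)]⟩ ⟨2,[(17,0),(1,2),(4,1),(0,1),(19,
  2)]⟩)) (.Q [0,0,0,0,0,-1,0,0,0,0,0,1] (.ed false [1,-1,0,0,1] .k) (.R ⟨1,false,false,false,[0,0,0,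
  0,1],[1,-1,-1],[1,1],(⟨0,[(29,0)]⟩,⟨0,[(28,0)]⟩),(⟨0,[(24,0)]⟩,⟨0,[(36,0),(0,0)]⟩),⟨0,[(0,0)]⟩,.k,
  .k,(.r 0 ⟨8,[(9,3),(9,1),(21,1),(0,1),(0,0)]⟩ ⟨1,[(13,0),(17,0),(2,0),(12,1)]⟩),(.r 1 ⟨3,[(7,1),
  (5,0),(0,1),(16,0),(2,0)]⟩ ⟨2,[(19,1),(1,2),(4,0),(0,0),(19,2)]⟩),.k,.k,⟨false,(-1),⟨2,[(3,0),(10,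
  1),(28,0)]⟩,⟨2,[(19,1),(1,2),(4,0),(0,0),(19,2)]⟩⟩,⟨true,(-1),⟨0,[(1,0),(8,0)]⟩,⟨5,[(4,1),(21,0),
  (0,6),(5,3),(8,2)]⟩⟩,⟨true,0,⟨0,[]⟩,⟨0,[(49,0)]⟩⟩,⟨false,1,⟨0,[(1,0),(43,0),(1,0)]⟩,⟨22,[(3,6),(0,
  4),(1,0),(6,2),(1,0),(1,18),(9,22),(14,1)]⟩⟩,⟨false,1,⟨5,[(13,1),(1,1),(10,0),(0,0),(18,0),(0,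
  3)]⟩,⟨0,[(45,0)]⟩⟩,⟨false,1,⟨0,[(1,0),(45,0)]⟩,⟨0,[(17,0),(9,0)]⟩⟩,[.a ⟨true,0,⟨0,[(9,0),(22,0),
  (14,0)]⟩,⟨12,[(3,3),(0,2),(8,1),(1,0),(2,9),(28,0)]⟩⟩ ⟨false,0,⟨8,[(9,1),(9,0),(21,0),(0,0),(0,
  4)]⟩,⟨1,[(26,0),(0,0),(19,0)]⟩⟩ ⟨true,0,⟨0,[(1,0),(43,0)]⟩,⟨3,[(3,1),(13,1),(9,3),(5,1),(8,0),(4,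
  0)]⟩⟩,.o ⟨false,1,⟨0,[(32,0),(12,0),(1,0)]⟩,⟨22,[(3,6),(0,4),(1,0),(6,2),(1,0),(1,18),(24,1)]⟩⟩,
  .a ⟨true,0,⟨0,[(27,0)]⟩,⟨0,[(1,0),(16,0)]⟩⟩ ⟨false,0,⟨0,[]⟩,⟨1,[(26,0),(0,0),(19,0)]⟩⟩ ⟨true,0,⟨0,
  [(1,0),(43,0)]⟩,⟨22,[(3,6),(0,4),(1,0),(6,2),(1,0),(1,18),(9,22),(14,1)]⟩⟩,.a ⟨true,0,⟨1,[(27,1),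
  (5,0),(0,0)]⟩,⟨0,[(1,0),(2,0),(5,0)]⟩⟩ ⟨true,0,⟨8,[(9,1),(9,0),(21,0),(0,0),(0,4)]⟩,⟨1,[(33,0),(0,
  0)]⟩⟩ ⟨false,1,⟨18,[(1,16),(10,0),(6,6),(1,0),(1,0),(2,1),(6,0),(13,9)]⟩,⟨3,[(3,1),(13,1),(9,3),
  (5,1),(8,0),(4,0)]⟩⟩]⟩) (.R ⟨0,false,false,true,[0,0,0,0,1],[0,1],[1,1,1,1],(⟨0,[(29,0)]⟩,⟨0,[(28,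
  0)]⟩),(⟨0,[(40,0)]⟩,⟨0,[(39,0)]⟩),⟨0,[(0,0)]⟩,.k,.k,(.r 0 ⟨8,[(9,3),(9,1),(21,1),(0,1),(0,0)]⟩ ⟨1,
  [(13,0),(17,0),(2,0),(12,1)]⟩),(.r 0 ⟨8,[(9,3),(9,1),(21,1),(0,1),(0,0)]⟩ ⟨1,[(13,0),(17,0),(2,0),
  (12,1)]⟩),.k,.k,⟨true,0,⟨0,[]⟩,⟨1,[(33,0),(0,0)]⟩⟩,⟨false,1,⟨4,[(1,3),(1,1),(0,3),(2,1),(11,1),(6,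
  0),(15,1)]⟩,⟨1,[(27,1),(5,0),(0,0)]⟩⟩,⟨true,0,⟨6,[(3,0),(9,1),(1,0),(17,1),(0,1),(12,0)]⟩,⟨8,[(9,
  3),(9,1),(21,1),(0,1),(0,0)]⟩⟩,⟨false,1,⟨9,[(1,5),(1,3),(0,3),(2,1),(18,3),(6,1),(8,2),(4,4)]⟩,⟨0,
  [(27,0),(17,0)]⟩⟩,⟨false,0,⟨0,[]⟩,⟨0,[]⟩⟩,⟨false,0,⟨0,[]⟩,⟨0,[]⟩⟩,[.e ⟨false,0,⟨0,[(44,0)]⟩,⟨5,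
  [(19,1),(6,0),(0,0),(19,2)]⟩⟩ ⟨false,0,⟨0,[(1,0),(1,0),(0,0),(4,0),(32,0)]⟩,⟨5,[(19,1),(6,0),(0,
  6),(5,2),(0,2),(12,2)]⟩⟩,.o ⟨false,1,⟨5,[(13,1),(1,1),(10,0),(0,0),(14,2),(3,0),(0,0)]⟩,⟨0,[(45,
  0)]⟩⟩,.a ⟨true,0,⟨0,[(27,0)]⟩,⟨0,[(1,0),(16,0)]⟩⟩ ⟨false,0,⟨6,[(3,0),(9,1),(1,0),(17,1),(0,1),(12,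
  0)]⟩,⟨5,[(19,1),(6,0),(0,0),(19,2)]⟩⟩ ⟨true,0,⟨21,[(1,20),(1,6),(0,3),(8,2),(3,16),(8,0),(15,1),
  (0,1)]⟩,⟨0,[(27,0),(17,0)]⟩⟩,.e ⟨true,0,⟨0,[(44,0)]⟩,⟨0,[(45,0)]⟩⟩ ⟨true,0,⟨0,[(1,0),(1,0),(0,0),
  (4,0),(32,0)]⟩,⟨1,[(27,1),(5,0),(0,0),(10,1)]⟩⟩]⟩)) (.Q [0,0,0,0,0,0,0,0,1,-1,0,1] (.p true [0,0,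
  0,0,1] [1] (⟨0,[(28,0)]⟩,⟨0,[(27,0)]⟩) .k 1 (⟨0,[]⟩,⟨0,[]⟩) .k .k) (.Q [0,0,1,0,-1,0,0,0,1,0,0,1]
  (.p true [0,0,0,0,1] [] (⟨0,[(29,0)]⟩,⟨0,[(28,0)]⟩) .k 0 (⟨0,[]⟩,⟨0,[]⟩) .k .k) (.Q [0,0,0,0,0,-1,
  0,0,0,0,0,1] (.ed false [1,-1,0,0,1] .k) (.S ⟨1,0,[0,0,1],[1,1,0,0,-1],[0,-1,1],(⟨0,[(30,0),(8,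
  0)]⟩,⟨0,[(0,0)]⟩),⟨0,[(30,0)]⟩,(.r (-1) ⟨1,[(15,0),(17,0),(2,0),(12,1)]⟩ ⟨8,[(11,3),(9,1),(21,1),
  (0,1),(0,0)]⟩),.k,⟨true,0,⟨0,[(47,0)]⟩,⟨0,[(46,0)]⟩⟩,⟨false,0,⟨0,[(47,0)]⟩,⟨5,[(15,1),(1,1),(10,
  0),(0,0),(18,0),(0,3)]⟩⟩,⟨false,1,⟨1,[(28,0),(0,0),(19,0)]⟩,⟨0,[]⟩⟩,⟨true,0,⟨0,[(51,0)]⟩,⟨0,[]⟩⟩,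
  [.o ⟨false,1,⟨0,[(28,0)]⟩,⟨0,[(2,0)]⟩⟩,.e ⟨false,1,⟨0,[(49,0)]⟩,⟨0,[(43,0)]⟩⟩ ⟨false,1,⟨1,[(28,0),
  (0,0),(19,0)]⟩,⟨8,[(11,1),(9,0),(21,0),(0,0),(0,4)]⟩⟩,.a ⟨true,1,⟨10,[(5,1),(0,4),(4,5),(2,1),(13,
  10),(3,2),(16,2)]⟩,⟨0,[(1,0)]⟩⟩ ⟨false,1,⟨1,[(35,0),(0,0),(12,1)]⟩,⟨8,[(11,1),(9,0),(21,0),(0,0),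
  (0,4)]⟩⟩ ⟨true,0,⟨1,[(35,0),(0,0)]⟩,⟨8,[(11,1),(9,0),(21,0),(0,0),(0,4)]⟩⟩,.o ⟨false,1,⟨0,[(28,
  0)]⟩,⟨0,[(2,0)]⟩⟩]⟩) (.R ⟨0,false,false,false,[0,1,0,0,-1],[0,1],[0,1],(⟨0,[(0,0)]⟩,⟨0,[(31,0),(9,
  0)]⟩),(⟨0,[(42,0)]⟩,⟨0,[(41,0)]⟩),⟨0,[(31,0)]⟩,(.r (-1) ⟨1,[(15,0),(17,0),(2,0),(12,1)]⟩ ⟨8,[(11,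
  3),(9,1),(21,1),(0,1),(0,0)]⟩),.k,.k,.k,.k,.k,⟨true,0,⟨8,[(11,3),(9,1),(21,1),(0,1),(0,0)]⟩,⟨2,
  [(9,0),(3,1),(1,0),(19,1),(8,0),(4,1)]⟩⟩,⟨false,0,⟨1,[(1,0),(0,0),(3,0),(25,0)]⟩,⟨0,[(28,0)]⟩⟩,
  ⟨false,0,⟨8,[(11,3),(9,1),(21,1),(0,1),(0,0)]⟩,⟨6,[(5,0),(9,1),(1,0),(17,1),(0,1),(12,7)]⟩⟩,⟨true,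
  (-1),⟨1,[(1,0),(0,0),(8,0),(33,0)]⟩,⟨0,[(28,0)]⟩⟩,⟨false,0,⟨0,[]⟩,⟨0,[]⟩⟩,⟨false,0,⟨0,[]⟩,⟨0,[]⟩⟩,
  [.o ⟨false,1,⟨5,[(15,1),(1,1),(10,0),(0,0),(14,2),(3,0),(0,0)]⟩,⟨0,[(47,0)]⟩⟩,.e ⟨false,1,⟨1,[(28,
  0),(0,0),(18,0)]⟩,⟨0,[]⟩⟩ ⟨false,0,⟨11,[(1,6),(0,4),(2,3),(0,4),(7,3),(17,0),(16,5)]⟩,⟨8,[(11,3),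
  (9,1),(6,8),(14,1),(0,1),(0,0)]⟩⟩,.o ⟨false,2,⟨1,[(28,1),(15,0),(3,0)]⟩,⟨0,[(1,0)]⟩⟩,.a ⟨true,1,
  ⟨0,[(28,0)]⟩,⟨10,[(1,10),(3,1),(0,4),(4,5),(2,1),(17,2),(16,2)]⟩⟩ ⟨true,0,⟨8,[(11,1),(9,0),(21,0),
  (0,0),(0,4)]⟩,⟨1,[(35,0),(0,0)]⟩⟩ ⟨false,0,⟨11,[(1,6),(0,4),(2,3),(0,4),(7,3),(17,0),(16,5)]⟩,⟨0,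
  [(28,0),(18,0)]⟩⟩]⟩)) (.Q [0,0,0,0,0,-1,0,0,0,0,0,1] (.ed false [1,-1,0,0,1] .k) (.Q [0,2,0,-1,-1,
  0,0,0,1,-1,0,1] (.p true [0,0,0,0,1] [1] (⟨0,[(31,0)]⟩,⟨0,[(30,0)]⟩) .k 1 (⟨0,[]⟩,⟨0,[]⟩) .k .k)
  (.S ⟨1,0,[0,2,0,-1],[0,0,0,0,1],[1,1],(⟨0,[(32,0)]⟩,⟨0,[(31,0)]⟩),⟨0,[(1,0)]⟩,.k,(.r 0 ⟨4,[(0,0),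
  (1,0),(9,0),(9,0),(21,0)]⟩ ⟨1,[(16,0),(17,0),(2,0),(12,1)]⟩),⟨true,0,⟨0,[]⟩,⟨0,[(52,0)]⟩⟩,⟨false,
  0,⟨0,[(48,0)]⟩,⟨5,[(16,1),(1,1),(10,0),(0,0),(18,0),(0,3)]⟩⟩,⟨false,1,⟨5,[(16,1),(1,1),(10,0),(0,
  0),(18,0),(0,3)]⟩,⟨0,[(48,0)]⟩⟩,⟨true,0,⟨0,[(52,0)]⟩,⟨0,[]⟩⟩,[.o ⟨false,(-1),⟨0,[(0,0)]⟩,⟨6,[(2,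
  2),(3,0),(9,1),(1,0),(10,3),(20,7)]⟩⟩,.a ⟨true,(-1),⟨0,[(3,0),(8,0)]⟩,⟨2,[(2,1),(3,0),(5,0),(2,1),
  (5,0),(7,0),(6,0),(13,1)]⟩⟩ ⟨true,0,⟨0,[]⟩,⟨1,[(36,0),(0,0)]⟩⟩ ⟨false,0,⟨4,[(0,0),(1,0),(9,0),(9,
  0),(21,0)]⟩,⟨5,[(16,1),(1,1),(10,0),(0,0),(18,0),(0,3)]⟩⟩,.o ⟨false,0,⟨0,[(3,0)]⟩,⟨0,[(29,0)]⟩⟩,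
  .o ⟨false,0,⟨1,[(3,1),(32,0),(0,0)]⟩,⟨0,[(2,0)]⟩⟩]⟩) (.R ⟨2,true,false,false,[0,1],[0,0,0,0,1],[0,
  1,1],(⟨0,[]⟩,⟨0,[]⟩),(⟨0,[(32,0)]⟩,⟨0,[(31,0)]⟩),⟨0,[]⟩,.k,.k,.k,(.r (-1) ⟨1,[(16,0),(17,0),(2,0),
  (12,1)]⟩ ⟨8,[(12,3),(9,1),(21,1),(0,1),(0,0)]⟩),.k,.k,⟨true,0,⟨1,[(36,0),(0,0)]⟩,⟨0,[]⟩⟩,⟨false,0,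
  ⟨0,[(30,0)]⟩,⟨0,[(2,0)]⟩⟩,⟨false,0,⟨0,[(48,0)]⟩,⟨5,[(16,1),(1,1),(10,0),(0,0),(18,0),(0,3)]⟩⟩,
  ⟨true,(-1),⟨0,[(3,0),(8,0)]⟩,⟨14,[(0,1),(1,4),(3,0),(9,3),(1,2),(10,7),(15,0)]⟩⟩,⟨true,0,⟨0,[(52,
  0)]⟩,⟨0,[]⟩⟩,⟨false,0,⟨0,[(30,0)]⟩,⟨0,[(0,0),(11,0),(32,0)]⟩⟩,[]⟩)) (.R ⟨0,false,false,false,[0,0,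
  0,0,1],[0,1],[1,0,2,1],(⟨0,[(31,0)]⟩,⟨0,[(30,0)]⟩),(⟨0,[(42,0)]⟩,⟨0,[(41,0)]⟩),⟨0,[(0,0)]⟩,.k,.k,
  (.r 0 ⟨8,[(11,3),(9,1),(21,1),(0,1),(0,0)]⟩ ⟨1,[(15,0),(17,0),(2,0),(12,1)]⟩),(.r 0 ⟨8,[(11,3),(9,
  1),(21,1),(0,1),(0,0)]⟩ ⟨1,[(15,0),(17,0),(2,0),(12,1)]⟩),.k,.k,⟨false,0,⟨0,[]⟩,⟨1,[(28,0),(0,0),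
  (18,0)]⟩⟩,⟨true,1,⟨0,[(1,0)]⟩,⟨0,[(2,0),(10,0),(21,0)]⟩⟩,⟨true,0,⟨2,[(9,0),(3,1),(1,0),(19,1),(8,
  0),(4,1)]⟩,⟨2,[(11,1),(9,0),(21,0),(0,0),(0,1)]⟩⟩,⟨false,2,⟨6,[(1,2),(3,0),(9,1),(1,0),(10,3),(20,
  7)]⟩,⟨0,[(2,0),(8,0)]⟩⟩,⟨false,0,⟨0,[]⟩,⟨0,[]⟩⟩,⟨false,0,⟨0,[]⟩,⟨0,[]⟩⟩,[.o ⟨false,1,⟨5,[(15,1),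
  (1,1),(10,0),(0,0),(14,2),(3,0),(0,0)]⟩,⟨0,[(47,0)]⟩⟩,.a ⟨true,1,⟨5,[(15,1),(1,1),(10,0),(0,0),
  (18,0),(0,3)]⟩,⟨0,[(11,0)]⟩⟩ ⟨true,0,⟨2,[(9,0),(3,1),(1,0),(19,1),(8,0),(4,1)]⟩,⟨8,[(11,3),(9,1),
  (21,1),(0,1),(0,0)]⟩⟩ ⟨false,2,⟨2,[(1,1),(13,0),(1,0),(10,0),(19,0),(0,1)]⟩,⟨0,[(2,0),(8,0)]⟩⟩,.o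
  ⟨false,0,⟨0,[(2,0)]⟩,⟨0,[(28,0)]⟩⟩,.o ⟨false,0,⟨1,[(2,1),(32,0),(0,0)]⟩,⟨0,[(1,0)]⟩⟩]⟩))) (.Q [0,
  0,1,0,0,0,0,0,1,-1,0,1] (.p true [0,0,0,0,1] [1] (⟨0,[(29,0)]⟩,⟨0,[(28,0)]⟩) .k 1 (⟨0,[]⟩,⟨0,[]⟩)
  .k .k) (.Q [0,0,0,0,0,-1,0,0,0,0,0,1] (.ed false [1,-1,0,0,1] .k) (.S ⟨1,0,[0,0,1],[1,1,0,0,-1],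
  [0,-1,1],(⟨0,[(30,0),(8,0)]⟩,⟨0,[(0,0)]⟩),⟨0,[(30,0)]⟩,(.r (-1) ⟨1,[(15,0),(17,0),(2,0),(12,1)]⟩
  ⟨8,[(11,3),(9,1),(21,1),(0,1),(0,0)]⟩),.k,⟨true,0,⟨0,[(47,0)]⟩,⟨0,[(46,0)]⟩⟩,⟨false,0,⟨0,[(47,
  0)]⟩,⟨5,[(15,1),(1,1),(10,0),(0,0),(18,0),(0,3)]⟩⟩,⟨false,1,⟨1,[(28,0),(0,0),(19,0)]⟩,⟨0,[]⟩⟩,
  ⟨true,0,⟨0,[(51,0)]⟩,⟨0,[]⟩⟩,[.a ⟨true,0,⟨0,[(2,0)]⟩,⟨0,[(29,0)]⟩⟩ ⟨false,1,⟨1,[(28,0),(0,0),(19,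
  0)]⟩,⟨8,[(11,1),(9,0),(21,0),(0,0),(0,4)]⟩⟩ ⟨true,0,⟨1,[(35,0),(0,0)]⟩,⟨0,[]⟩⟩,.o ⟨false,1,⟨1,[(2,
  1),(41,0),(4,0)]⟩,⟨8,[(1,8),(9,1),(9,0),(21,0),(0,0),(0,4)]⟩⟩,.o ⟨false,1,⟨1,[(2,1),(41,0),(3,
  0)]⟩,⟨0,[(1,0)]⟩⟩,.e ⟨false,1,⟨0,[(49,0)]⟩,⟨0,[(51,0)]⟩⟩ ⟨false,1,⟨1,[(28,0),(0,0),(19,0)]⟩,⟨0,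
  []⟩⟩]⟩) (.R ⟨0,false,false,false,[0,0,0,0,1],[0,0,1,0,1],[0,1],(⟨0,[(31,0)]⟩,⟨0,[(30,0)]⟩),(⟨0,
  [(31,0),(6,0)]⟩,⟨0,[(0,0),(25,0)]⟩),⟨0,[(0,0)]⟩,.k,.k,(.r 0 ⟨8,[(11,3),(9,1),(21,1),(0,1),(0,0)]⟩
  ⟨1,[(15,0),(17,0),(2,0),(12,1)]⟩),.k,.k,.k,⟨true,1,⟨5,[(21,1),(1,5),(4,0),(0,0),(19,2)]⟩,⟨0,[(12,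
  0)]⟩⟩,⟨false,1,⟨2,[(6,1),(21,0),(0,0),(5,0)]⟩,⟨0,[(22,0)]⟩⟩,⟨false,1,⟨1,[(28,0),(0,0),(19,0)]⟩,⟨0,
  []⟩⟩,⟨true,0,⟨0,[(20,0)]⟩,⟨0,[(34,0)]⟩⟩,⟨false,0,⟨0,[]⟩,⟨0,[]⟩⟩,⟨false,0,⟨0,[]⟩,⟨0,[]⟩⟩,[.e
  ⟨false,0,⟨8,[(11,1),(9,0),(21,0),(0,0),(0,4)]⟩,⟨1,[(28,0),(0,0),(19,0)]⟩⟩ ⟨false,0,⟨1,[(6,0),(9,
  0),(16,0)]⟩,⟨0,[(34,0),(14,0)]⟩⟩,.o ⟨false,0,⟨0,[(3,0)]⟩,⟨1,[(2,1),(31,1),(9,0),(4,0)]⟩⟩,.a ⟨true,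
  0,⟨0,[(29,0)]⟩,⟨0,[(2,0)]⟩⟩ ⟨true,0,⟨0,[(51,0)]⟩,⟨0,[]⟩⟩ ⟨false,0,⟨0,[(20,0)]⟩,⟨0,[(34,0),(14,
  0)]⟩⟩,.o ⟨false,0,⟨0,[(1,0)]⟩,⟨1,[(2,1),(41,0),(3,0)]⟩⟩]⟩)) (.Q [0,0,0,0,0,-1,0,0,0,0,0,1] (.ed
  false [1,-1,0,0,1] .k) (.S ⟨1,0,[0,-1,1],[1,1,0,0,-1],[1,0,1,1],(⟨0,[(30,0),(8,0)]⟩,⟨0,[(0,0)]⟩),
  ⟨0,[(30,0)]⟩,(.r (-1) ⟨1,[(15,0),(17,0),(2,0),(12,1)]⟩ ⟨8,[(11,3),(9,1),(21,1),(0,1),(0,0)]⟩),.k,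
  ⟨false,0,⟨0,[]⟩,⟨1,[(28,0),(0,0),(19,0)]⟩⟩,⟨true,0,⟨0,[(47,0)]⟩,⟨0,[(46,0)]⟩⟩,⟨true,0,⟨0,[(46,
  0)]⟩,⟨0,[(47,0)]⟩⟩,⟨false,1,⟨1,[(28,0),(0,0),(19,0)]⟩,⟨0,[]⟩⟩,[.o ⟨false,1,⟨1,[(2,1),(41,0),(4,
  0)]⟩,⟨0,[(3,0),(30,0)]⟩⟩,.e ⟨false,1,⟨5,[(15,1),(1,1),(10,0),(0,0),(18,0),(0,3)]⟩,⟨8,[(11,3),(9,
  1),(21,1),(0,1),(0,0)]⟩⟩ ⟨false,1,⟨0,[(49,0)]⟩,⟨0,[(43,0)]⟩⟩,.a ⟨true,0,⟨0,[(1,0)]⟩,⟨1,[(29,1),(5,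
  0),(0,0)]⟩⟩ ⟨true,0,⟨6,[(5,0),(9,1),(1,0),(17,1),(0,1),(12,0)]⟩,⟨8,[(11,3),(9,1),(21,1),(0,1),(0,
  0)]⟩⟩ ⟨false,1,⟨1,[(35,0),(0,0),(12,1)]⟩,⟨8,[(11,1),(9,0),(21,0),(0,0),(0,4)]⟩⟩,.e ⟨false,1,⟨5,
  [(15,1),(1,1),(10,0),(0,0),(18,0),(0,3)]⟩,⟨0,[(47,0)]⟩⟩ ⟨false,1,⟨0,[(49,0)]⟩,⟨0,[(51,0)]⟩⟩]⟩)
  (.R ⟨0,false,false,true,[0,1,0,0,-1],[1,0,0,0,-1],[0,0,1],(⟨0,[(0,0)]⟩,⟨0,[(31,0),(9,0)]⟩),(⟨0,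
  [(30,0)]⟩,⟨0,[(31,0)]⟩),⟨0,[(31,0)]⟩,(.r (-1) ⟨1,[(15,0),(17,0),(2,0),(12,1)]⟩ ⟨8,[(11,3),(9,1),
  (21,1),(0,1),(0,0)]⟩),.k,.k,.k,.k,.k,⟨true,0,⟨1,[(35,0),(0,0)]⟩,⟨0,[]⟩⟩,⟨false,0,⟨0,[(39,0),(1,
  0)]⟩,⟨1,[(44,0),(3,0)]⟩⟩,⟨false,0,⟨0,[(47,0)]⟩,⟨5,[(15,1),(1,1),(10,0),(0,0),(18,0),(0,3)]⟩⟩,
  ⟨true,(-1),⟨0,[(11,0)]⟩,⟨5,[(15,1),(1,1),(10,0),(0,0),(14,2),(3,0),(0,0)]⟩⟩,⟨false,0,⟨0,[]⟩,⟨0,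
  []⟩⟩,⟨false,0,⟨0,[]⟩,⟨0,[]⟩⟩,[.a ⟨true,0,⟨0,[(2,0)]⟩,⟨0,[(29,0)]⟩⟩ ⟨true,0,⟨1,[(35,0),(0,0)]⟩,⟨0,
  []⟩⟩ ⟨false,0,⟨0,[(39,0),(1,0)]⟩,⟨1,[(44,0),(3,0)]⟩⟩,.o ⟨false,1,⟨1,[(2,1),(41,0),(4,0)]⟩,⟨0,[(3,
  0),(30,0)]⟩⟩,.o ⟨false,1,⟨0,[(1,0),(42,0)]⟩,⟨1,[(29,1),(5,0),(0,0)]⟩⟩,.o ⟨false,1,⟨0,[(2,0),(41,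
  0)]⟩,⟨0,[(29,0)]⟩⟩]⟩)))))))))) (.N [0,1,1] 1 ⟨0,[(1,0)]⟩ ⟨0,[(0,0)]⟩ .k)))))

theorem ok104 : chk K t104 l58 = true := by decide +kernel

noncomputable def t105 : Tre :=
  (.S ⟨1,0,[0,0,1,0,0,0,0,1],[0,1,1],[1,1,1,1,0,0,0,1],(⟨0,[(26,0),(0,0)]⟩,⟨0,[(14,0)]⟩),⟨0,[(26,
  0)]⟩,.k,.k,⟨false,0,⟨0,[]⟩,⟨1,[(16,0),(0,0),(19,0)]⟩⟩,⟨true,0,⟨0,[(35,0)]⟩,⟨0,[(34,0)]⟩⟩,⟨true,0,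
  ⟨0,[(34,0)]⟩,⟨0,[(35,0)]⟩⟩,⟨false,1,⟨1,[(16,0),(0,0),(19,0)]⟩,⟨0,[]⟩⟩,[.a ⟨true,0,⟨0,[(8,0)]⟩,⟨0,
  [(2,0),(32,0)]⟩⟩ ⟨true,(-1),⟨3,[(3,1),(0,5),(18,0),(0,0),(12,1)]⟩,⟨0,[(0,0)]⟩⟩ ⟨false,0,⟨7,[(4,1),
  (0,2),(2,2),(0,0),(14,2),(12,0)]⟩,⟨3,[(0,0),(0,1),(0,1),(0,0),(5,0)]⟩⟩,.o ⟨false,1,⟨0,[(7,0),(29,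
  0)]⟩,⟨0,[(22,0)]⟩⟩,.o ⟨false,1,⟨0,[(1,0)]⟩,⟨0,[(24,0)]⟩⟩,.o ⟨false,1,⟨9,[(0,1),(0,3),(1,0),(17,2),
  (1,2),(8,2),(4,0)]⟩,⟨0,[(10,0)]⟩⟩]⟩)

theorem ok105 : chk K t105 l59 = true := by decide +kernel

noncomputable def t106 : Tre :=
  (.I [1,1,-1,0,1,0,0,-2] (.Q [0,0,1,0,-1,0,-2,0,0,1,-2] (.p false [0,0,1] [1,0,-1] (⟨0,[(29,0)]⟩,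
  ⟨0,[(28,0)]⟩) .k 2 (⟨0,[(28,0)]⟩,⟨0,[(29,0)]⟩) .k (.r 1 ⟨0,[(7,1),(32,0)]⟩ ⟨1,[(0,1),(18,0),(0,0),
  (5,0),(0,0),(12,0)]⟩)) (.Q [0,-1,0,-2,0,0,0,0,0,1] (.pp false [-1,1]) (.R ⟨0,false,false,false,[1,
  -1,-1],[0,-1,1],[],(⟨0,[(19,0)]⟩,⟨5,[(0,0),(2,2),(3,1),(5,0),(12,0),(4,2)]⟩),(⟨0,[(20,0)]⟩,⟨0,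
  [(30,0),(1,0)]⟩),⟨0,[(3,0)]⟩,.k,.k,(.x 1 ⟨0,[(4,0)]⟩ ⟨1,[(6,1),(12,1),(14,1),(2,0),(3,0)]⟩),.k,.k,
  .k,⟨false,1,⟨7,[(2,1),(5,3),(12,1),(0,1),(18,0),(0,2)]⟩,⟨11,[(0,1),(8,7),(0,3),(3,3),(22,0),(4,
  2)]⟩⟩,⟨true,1,⟨0,[(6,0),(21,0)]⟩,⟨0,[(1,0)]⟩⟩,⟨false,0,⟨1,[(5,1),(22,0),(0,0),(12,1)]⟩,⟨23,[(0,5),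
  (1,11),(11,3),(6,1),(0,1),(14,2),(4,2)]⟩⟩,⟨true,0,⟨0,[(6,0),(2,1),(18,0),(13,0)]⟩,⟨0,[(1,0),(0,
  0)]⟩⟩,⟨false,0,⟨0,[]⟩,⟨0,[]⟩⟩,⟨false,0,⟨0,[]⟩,⟨0,[]⟩⟩,[.e ⟨false,1,⟨1,[(21,0),(0,0),(18,0)]⟩,⟨0,
  []⟩⟩ ⟨false,1,⟨0,[(0,0),(4,0),(0,1)]⟩,⟨0,[(7,0),(21,0)]⟩⟩,.o ⟨false,1,⟨3,[(0,1),(11,3),(24,0),(4,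
  2)]⟩,⟨0,[(11,0)]⟩⟩,.o ⟨false,0,⟨0,[(29,0)]⟩,⟨0,[(6,0)]⟩⟩,.a ⟨true,(-1),⟨0,[(1,0),(26,0)]⟩,⟨0,[(0,
  0),(4,0),(0,1),(0,0)]⟩⟩ ⟨false,1,⟨1,[(41,0),(0,0)]⟩,⟨1,[(28,0),(0,0)]⟩⟩ ⟨true,1,⟨0,[(0,0),(4,0),
  (0,1)]⟩,⟨0,[(1,0),(14,0)]⟩⟩]⟩) (.Q [0,0,-2,0,1,0,0,0,0,-1] (.pp true [-1,1]) (.I [1,1,2,2,-1] (.R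
  ⟨1,false,false,true,[1,-1],[0,0,1],[0,0,-1,-2],(⟨0,[(36,0)]⟩,⟨0,[(37,0)]⟩),(⟨0,[(33,0)]⟩,⟨0,[(32,
  0)]⟩),⟨0,[(21,0),(0,0)]⟩,.k,.k,(.r (-1) ⟨2,[(16,1),(6,0),(0,0)]⟩ ⟨2,[(0,1),(9,0),(17,0),(2,0),(12,
  1)]⟩),.k,(.x 1 ⟨0,[(6,0)]⟩ ⟨1,[(8,1),(12,1),(14,1),(2,0),(3,0)]⟩),.k,⟨false,2,⟨11,[(4,5),(11,7),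
  (6,0),(0,0),(5,2),(0,2),(12,8)]⟩,⟨1,[(0,0),(6,0),(4,0)]⟩⟩,⟨true,1,⟨0,[(8,0)]⟩,⟨0,[(3,0),(26,0)]⟩⟩,
  ⟨true,0,⟨0,[(42,0)]⟩,⟨0,[(41,0)]⟩⟩,⟨true,0,⟨1,[(2,0),(11,0),(0,0)]⟩,⟨0,[(9,0),(32,1)]⟩⟩,⟨false,1,
  ⟨1,[(23,0),(0,0),(19,0)]⟩,⟨0,[]⟩⟩,⟨true,0,⟨0,[(2,0),(12,0)]⟩,⟨0,[(9,0),(32,2)]⟩⟩,[.o ⟨false,0,⟨0,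
  [(14,0)]⟩,⟨0,[(29,0),(14,0)]⟩⟩,.a ⟨true,0,⟨0,[(15,0)]⟩,⟨0,[(9,0),(32,0)]⟩⟩ ⟨true,1,⟨3,[(16,1),(13,
  0),(0,0),(10,1),(1,1)]⟩,⟨0,[(0,0)]⟩⟩ ⟨false,1,⟨0,[(1,0),(13,0)]⟩,⟨7,[(3,3),(0,3),(1,1),(14,1),(8,
  2),(0,0),(4,1),(7,1)]⟩⟩,.o ⟨false,0,⟨1,[(30,0),(0,0)]⟩,⟨1,[(39,0),(3,0)]⟩⟩,.o ⟨false,0,⟨0,[(30,0),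
  (0,0)]⟩,⟨0,[(1,0)]⟩⟩]⟩) (.R ⟨0,false,false,false,[1,-1,-1],[1,-1],[1],(⟨0,[(21,0)]⟩,⟨0,[(5,0),(30,
  0)]⟩),(⟨0,[(36,0)]⟩,⟨0,[(37,0)]⟩),⟨0,[(5,0)]⟩,.k,.k,(.x 1 ⟨0,[(6,0)]⟩ ⟨1,[(8,1),(12,1),(14,1),(2,
  0),(3,0)]⟩),.k,.k,.k,⟨true,0,⟨9,[(2,1),(0,1),(6,1),(1,1),(17,4),(0,0),(12,1)]⟩,⟨0,[(42,0)]⟩⟩,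
  ⟨false,1,⟨3,[(4,1),(10,3),(27,0),(0,0)]⟩,⟨0,[(17,0)]⟩⟩,⟨false,0,⟨1,[(7,1),(22,0),(0,0),(12,1)]⟩,
  ⟨7,[(4,3),(11,1),(13,0),(0,0),(10,1),(1,1)]⟩⟩,⟨true,0,⟨0,[(15,0)]⟩,⟨0,[(29,0)]⟩⟩,⟨false,0,⟨0,[]⟩,
  ⟨0,[]⟩⟩,⟨false,0,⟨0,[]⟩,⟨0,[]⟩⟩,[.o ⟨false,0,⟨0,[(42,0)]⟩,⟨5,[(10,1),(1,1),(10,0),(0,0),(14,2),(3,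
  0),(0,0)]⟩⟩,.o ⟨false,1,⟨5,[(16,1),(6,0),(0,0),(5,2),(0,2),(12,2)]⟩,⟨0,[(2,0),(39,0)]⟩⟩,.o ⟨false,
  0,⟨0,[(31,0)]⟩,⟨0,[(8,0)]⟩⟩,.a ⟨true,(-1),⟨0,[(3,0),(26,0)]⟩,⟨0,[(0,0),(6,0),(0,0),(0,0),(20,
  0)]⟩⟩ ⟨false,1,⟨1,[(43,0),(0,0)]⟩,⟨1,[(30,0),(0,0)]⟩⟩ ⟨true,1,⟨0,[(0,0),(29,0),(9,0)]⟩,⟨0,[(2,0),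
  (0,0),(26,0),(11,0)]⟩⟩]⟩)) (.S ⟨1,0,[0,0,-1,-2],[1,-1],[1,1,-1,-1],(⟨0,[(35,0)]⟩,⟨0,[(36,0)]⟩),⟨0,
  [(20,0),(0,0)]⟩,.k,(.r (-1) ⟨2,[(15,1),(6,0),(0,0)]⟩ ⟨2,[(0,1),(8,1),(1,1),(26,0),(4,0)]⟩),⟨false,
  0,⟨0,[]⟩,⟨1,[(22,0),(0,0),(19,0)]⟩⟩,⟨true,0,⟨0,[(41,0)]⟩,⟨0,[(40,0)]⟩⟩,⟨true,0,⟨0,[(40,0)]⟩,⟨0,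
  [(41,0)]⟩⟩,⟨false,1,⟨1,[(22,0),(0,0),(19,0)]⟩,⟨0,[]⟩⟩,[.o ⟨false,0,⟨0,[(41,1)]⟩,⟨7,[(1,1),(7,3),
  (1,3),(26,2),(3,1),(0,2)]⟩⟩,.o ⟨false,1,⟨5,[(0,1),(14,3),(13,3),(0,3),(7,0),(4,2)]⟩,⟨0,[(1,0)]⟩⟩,
  .o ⟨false,0,⟨1,[(29,0),(0,0)]⟩,⟨1,[(38,0),(3,0)]⟩⟩,.a ⟨true,(-1),⟨0,[(0,0)]⟩,⟨0,[(42,0)]⟩⟩ ⟨false,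
  1,⟨5,[(15,1),(6,0),(0,0),(18,2)]⟩,⟨3,[(0,3),(0,1),(36,0),(4,2)]⟩⟩ ⟨true,1,⟨2,[(15,1),(6,0),(0,
  0)]⟩,⟨0,[(0,0),(0,0)]⟩⟩]⟩))) (.Q [0,0,-2,0,1,0,1,0,0,-1,1] (.p true [0,0,1] [1] (⟨0,[(30,0)]⟩,⟨0,
  [(29,0)]⟩) .k 1 (⟨0,[]⟩,⟨0,[]⟩) .k .k) (.Q [0,0,2,0,-1,0,-2,0,0,1,-2] (.p false [0,0,1] [1,0,-1]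
  (⟨0,[(31,0)]⟩,⟨0,[(30,0)]⟩) .k 2 (⟨0,[(30,0)]⟩,⟨0,[(31,0)]⟩) .k (.r 1 ⟨0,[(9,1),(32,0)]⟩ ⟨1,[(2,
  1),(18,0),(0,0),(5,0),(0,0),(12,0)]⟩)) (.R ⟨0,false,false,false,[1,-1,-1],[0,0,1],[1],(⟨0,[(20,
  0)]⟩,⟨0,[(4,0),(30,0)]⟩),(⟨0,[(32,0)]⟩,⟨0,[(31,0)]⟩),⟨0,[(4,0)]⟩,.k,.k,(.x 1 ⟨0,[(5,0)]⟩ ⟨3,[(2,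
  1),(17,3),(14,3),(2,2),(3,2)]⟩),(.r (-2) ⟨5,[(3,5),(11,1),(6,0),(0,0),(5,2),(0,2),(12,2)]⟩ ⟨2,[(0,
  0),(5,2),(3,1),(2,0),(15,0),(13,2)]⟩),.k,.k,⟨false,1,⟨3,[(3,1),(38,0),(0,0)]⟩,⟨12,[(0,2),(9,0),(0,
  5),(1,2),(0,2),(0,1),(27,1)]⟩⟩,⟨true,1,⟨0,[(2,0)]⟩,⟨0,[(0,0)]⟩⟩,⟨false,0,⟨7,[(0,1),(5,5),(4,1),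
  (17,3),(8,0),(4,6)]⟩,⟨19,[(0,1),(2,9),(11,5),(13,3),(8,0),(2,1),(1,4)]⟩⟩,⟨true,0,⟨1,[(2,0),(3,1),
  (3,0),(2,0),(15,0),(13,1)]⟩,⟨0,[(8,0),(19,0),(12,1)]⟩⟩,⟨false,0,⟨0,[]⟩,⟨0,[]⟩⟩,⟨false,0,⟨0,[]⟩,⟨0,
  []⟩⟩,[.a ⟨true,0,⟨0,[(14,0)]⟩,⟨0,[(8,0),(32,0)]⟩⟩ ⟨true,0,⟨0,[]⟩,⟨1,[(29,0),(0,0)]⟩⟩ ⟨false,1,⟨0,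
  [(1,0),(12,0)]⟩,⟨3,[(0,2),(2,1),(15,0),(23,0)]⟩⟩,.o ⟨false,1,⟨0,[(13,0),(29,0)]⟩,⟨0,[(28,0)]⟩⟩,.o
  ⟨false,0,⟨0,[(30,0)]⟩,⟨0,[(7,0)]⟩⟩,.o ⟨false,0,⟨1,[(29,0),(0,2)]⟩,⟨0,[(1,0)]⟩⟩]⟩) (.Q [0,-1,0,-2,
  0,0,1,1,0,0,1] (.p true [0,0,1] [] (⟨0,[(32,0)]⟩,⟨0,[(31,0)]⟩) .k 0 (⟨0,[]⟩,⟨0,[]⟩) .k .k) (.R ⟨1,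
  false,false,true,[0,0,1],[0,1],[1,1,1],(⟨0,[(33,0)]⟩,⟨0,[(32,0)]⟩),(⟨0,[(37,0)]⟩,⟨0,[(36,0)]⟩),⟨0,
  [(22,0)]⟩,.k,.k,.k,.k,(.r 0 ⟨1,[(0,2),(1,1),(6,1),(1,1),(5,1),(11,0)]⟩ ⟨1,[(10,1),(12,0),(0,0),(5,
  0),(0,0),(12,0)]⟩),.k,⟨true,0,⟨1,[(0,0),(28,0)]⟩,⟨2,[(7,0),(2,0),(19,0),(0,0),(12,0)]⟩⟩,⟨false,1,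
  ⟨1,[(27,1),(11,0),(3,0)]⟩,⟨0,[(30,0)]⟩⟩,⟨true,0,⟨0,[(29,0),(0,0)]⟩,⟨2,[(7,1),(4,0),(3,0),(27,
  0)]⟩⟩,⟨true,0,⟨0,[(13,0)]⟩,⟨1,[(0,0),(27,0)]⟩⟩,⟨true,0,⟨0,[(18,0)]⟩,⟨29,[(0,3),(10,17),(0,7),(3,
  9),(3,1),(18,0),(4,6)]⟩⟩,⟨false,1,⟨9,[(9,5),(0,5),(1,1),(7,1),(18,3),(3,2),(0,2)]⟩,⟨0,[(0,0)]⟩⟩,
  [.e ⟨false,0,⟨0,[(46,0)]⟩,⟨1,[(43,0),(0,0)]⟩⟩ ⟨false,0,⟨2,[(7,0),(5,0),(13,1),(11,0),(0,0)]⟩,⟨5,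
  [(16,1),(6,0),(0,0),(5,5),(13,2)]⟩⟩,.o ⟨false,1,⟨5,[(10,1),(1,1),(10,0),(0,0),(14,2),(3,0),(0,
  0)]⟩,⟨0,[(42,0)]⟩⟩,.o ⟨false,1,⟨11,[(3,1),(0,1),(23,3),(1,3),(8,4),(4,2)]⟩,⟨0,[(17,0)]⟩⟩,.a ⟨true,
  0,⟨0,[(30,0)]⟩,⟨0,[(27,0)]⟩⟩ ⟨false,0,⟨0,[]⟩,⟨1,[(23,0),(0,0),(19,0)]⟩⟩ ⟨true,0,⟨2,[(7,0),(5,0),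
  (13,1),(11,0),(0,0)]⟩,⟨1,[(0,0),(28,0),(0,1)]⟩⟩]⟩) (.Q [0,-1,-2,0,1,0,1,0,-1,0,1,-1] (.p true [0,
  0,1] [0,0,0,0,1] (⟨0,[(33,0)]⟩,⟨0,[(32,0)]⟩) .k 2 (⟨0,[(26,0)]⟩,⟨0,[(25,0)]⟩) .k (.r 0 ⟨0,[(11,0),
  (32,0)]⟩ ⟨5,[(4,3),(18,1),(0,1),(3,1),(1,0),(0,2)]⟩)) (.R ⟨0,false,false,true,[1,-1,-1],[1,0,0,0,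
  -1],[1],(⟨0,[(22,0)]⟩,⟨2,[(2,0),(4,1),(26,0),(2,0),(6,0)]⟩),(⟨0,[(26,0)]⟩,⟨0,[(27,0)]⟩),⟨0,[(6,
  0)]⟩,.k,.k,(.x 1 ⟨0,[(7,0)]⟩ ⟨3,[(4,1),(17,3),(14,3),(2,2),(3,2)]⟩),(.r (-1) ⟨5,[(5,3),(11,1),(11,
  1),(1,0),(0,2)]⟩ ⟨1,[(8,1),(22,0),(0,0),(12,1)]⟩),.k,.k,⟨true,0,⟨0,[]⟩,⟨1,[(31,0),(0,0)]⟩⟩,⟨false,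
  1,⟨6,[(0,5),(23,0),(6,0),(7,2)]⟩,⟨0,[(25,0),(6,0)]⟩⟩,⟨false,0,⟨1,[(8,1),(22,0),(0,0),(12,1)]⟩,⟨7,
  [(5,3),(11,1),(13,0),(0,0),(10,1),(1,1)]⟩⟩,⟨true,0,⟨0,[(0,0),(7,0),(22,0),(0,0)]⟩,⟨0,[(25,0),(4,
  0),(12,0)]⟩⟩,⟨false,0,⟨0,[]⟩,⟨0,[]⟩⟩,⟨false,0,⟨0,[]⟩,⟨0,[]⟩⟩,[.a ⟨true,0,⟨7,[(0,5),(6,4),(4,2),(9,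
  6),(0,1),(0,1),(5,2),(0,1),(5,0)]⟩,⟨0,[(25,0)]⟩⟩ ⟨true,0,⟨0,[]⟩,⟨1,[(31,0),(0,0)]⟩⟩ ⟨false,1,⟨6,
  [(0,5),(23,0),(6,0),(7,2)]⟩,⟨0,[(25,0),(6,0)]⟩⟩,.e ⟨false,1,⟨1,[(44,0),(0,0)]⟩,⟨0,[(47,0)]⟩⟩
  ⟨false,1,⟨0,[(0,0)]⟩,⟨0,[(25,0),(6,0),(14,0)]⟩⟩,.o ⟨false,0,⟨0,[(32,0)]⟩,⟨0,[(9,0)]⟩⟩,.o ⟨false,0,
  ⟨1,[(31,0),(0,2)]⟩,⟨0,[(3,0)]⟩⟩]⟩) (.Q [0,2,0,0,-1,0,0,0,1,-1,0,1] (.p true [0,0,0,0,1] [1] (⟨0,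
  [(27,0)]⟩,⟨0,[(26,0)]⟩) .k 1 (⟨0,[]⟩,⟨0,[]⟩) .k .k) (.Q [0,0,0,0,0,0,0,0,0,0,1,-1] (.ed true [1,0,
  -1,0,1] (.r (-1) ⟨5,[(1,1),(4,3),(18,2),(0,0),(3,1),(15,0)]⟩ ⟨0,[(13,0),(32,0)]⟩)) (.Q [0,0,-1,0,
  0,0,0,0,1,-1,0,1] (.p true [0,0,0,0,1] [1] (⟨0,[(29,0)]⟩,⟨0,[(28,0)]⟩) .k 1 (⟨0,[]⟩,⟨0,[]⟩) .k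
  .k) (.Q [0,-1,0,-1,1,0,0,0,-1,1,0,-1] (.p false [0,0,0,0,1] [1] (⟨0,[(30,0)]⟩,⟨0,[(29,0)]⟩) .k 1
  (⟨0,[]⟩,⟨0,[]⟩) .k .k) (.S ⟨1,0,[0,-1,0,-1],[1,0,0,0,-1],[1],(⟨0,[(30,0)]⟩,⟨0,[(31,0)]⟩),⟨0,[(2,
  0),(23,0)]⟩,.k,(.r (-1) ⟨13,[(0,1),(20,3),(7,1),(14,0),(3,0),(0,5)]⟩ ⟨6,[(4,1),(10,2),(1,0),(10,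
  1),(4,1)]⟩),⟨false,0,⟨0,[]⟩,⟨1,[(28,0),(0,0),(19,0)]⟩⟩,⟨true,0,⟨0,[(47,0)]⟩,⟨0,[(46,0)]⟩⟩,⟨true,0,
  ⟨0,[(46,0)]⟩,⟨0,[(47,0)]⟩⟩,⟨false,1,⟨1,[(28,0),(0,0),(19,0)]⟩,⟨0,[]⟩⟩,[.a ⟨true,1,⟨0,[(0,0)]⟩,⟨0,
  [(1,0),(12,0),(1,0),(18,0)]⟩⟩ ⟨true,0,⟨0,[]⟩,⟨1,[(35,0),(0,0)]⟩⟩ ⟨false,1,⟨13,[(0,1),(20,3),(7,1),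
  (14,0),(3,0),(0,5)]⟩,⟨0,[(46,0)]⟩⟩,.o ⟨false,2,⟨1,[(0,1),(43,0),(4,0)]⟩,⟨2,[(1,0),(1,1),(8,0),(2,
  0)]⟩⟩,.o ⟨false,1,⟨0,[(28,0)]⟩,⟨7,[(1,5),(2,1),(30,1),(8,0),(4,0)]⟩⟩,.o ⟨false,1,⟨1,[(28,1),(6,0),
  (0,0)]⟩,⟨0,[(1,0)]⟩⟩]⟩) (.R ⟨1,false,false,false,[0,0,1],[0,0,0,0,1],[0,1,0,-1,0,0,0,1],(⟨0,[(38,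
  0)]⟩,⟨0,[(37,0)]⟩),(⟨0,[(31,0)]⟩,⟨0,[(30,0)]⟩),⟨0,[(27,0)]⟩,.k,.k,.k,.k,(.r (-1) ⟨1,[(17,0),(2,0),
  (0,0),(14,0),(12,0)]⟩ ⟨0,[(23,0)]⟩),.k,⟨false,0,⟨7,[(16,5),(0,0),(2,0),(0,2),(14,0),(12,2)]⟩,⟨7,
  [(9,1),(5,3),(12,1),(0,1),(18,0),(0,2)]⟩⟩,⟨true,(-1),⟨0,[(0,0),(13,0),(1,0),(30,1),(1,0)]⟩,⟨0,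
  [(28,0),(6,0)]⟩⟩,⟨false,0,⟨0,[(47,0)]⟩,⟨5,[(15,1),(1,1),(10,0),(0,0),(18,0),(0,3)]⟩⟩,⟨true,(-1),
  ⟨0,[(0,0),(13,0),(32,1)]⟩,⟨0,[(20,0),(7,0)]⟩⟩,⟨true,0,⟨0,[(51,0)]⟩,⟨0,[]⟩⟩,⟨true,(-1),⟨0,[(0,0),
  (13,0),(32,0)]⟩,⟨0,[(20,0),(7,0),(18,0)]⟩⟩,[.o ⟨false,(-1),⟨0,[(0,0),(46,0)]⟩,⟨1,[(28,2),(0,0),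
  (19,0)]⟩⟩,.o ⟨false,0,⟨7,[(1,5),(2,1),(30,1),(8,0),(4,0)]⟩,⟨0,[(28,0)]⟩⟩,.o ⟨false,1,⟨11,[(8,1),
  (0,1),(23,3),(1,3),(8,4),(4,2)]⟩,⟨0,[(22,0)]⟩⟩,.a ⟨true,0,⟨0,[(35,0)]⟩,⟨0,[(32,0)]⟩⟩ ⟨false,0,⟨7,
  [(16,5),(0,0),(2,0),(0,2),(14,0),(12,2)]⟩,⟨0,[(23,0),(25,0)]⟩⟩ ⟨true,(-1),⟨0,[(0,0),(31,0),(14,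
  0)]⟩,⟨0,[(28,0),(6,0)]⟩⟩]⟩)) (.Q [0,1,0,0,-1,0,0,0,1,0,0,1] (.p true [0,0,0,0,1] [] (⟨0,[(30,0)]⟩,
  ⟨0,[(29,0)]⟩) .k 0 (⟨0,[]⟩,⟨0,[]⟩) .k .k) (.R ⟨0,false,false,false,[1,-1,-1],[0,0,1,0,-1],[1,-1,0,
  0,0,0,0,1],(⟨0,[(26,0)]⟩,⟨2,[(6,0),(4,1),(26,0),(2,0),(6,0)]⟩),(⟨0,[(2,0)]⟩,⟨0,[(31,0),(5,0)]⟩),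
  ⟨0,[(10,0)]⟩,.k,.k,(.x 1 ⟨0,[(11,0)]⟩ ⟨3,[(8,1),(17,3),(14,3),(2,2),(3,2)]⟩),(.r (-1) ⟨0,[(9,0),
  (37,0)]⟩ ⟨2,[(1,0),(2,0),(7,0),(3,1),(0,1),(1,0),(29,3)]⟩),.k,.k,⟨true,0,⟨0,[]⟩,⟨7,[(1,1),(2,1),
  (30,1),(8,0),(4,0)]⟩⟩,⟨false,2,⟨0,[(6,0),(21,0)]⟩,⟨3,[(0,3),(10,1),(10,3),(2,0),(0,2),(0,0),(21,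
  1)]⟩⟩,⟨false,0,⟨7,[(1,1),(2,1),(7,7),(3,7),(18,1),(8,0),(4,16)]⟩,⟨0,[(9,0),(37,0)]⟩⟩,⟨true,1,⟨5,
  [(1,5),(4,3),(5,5),(3,3),(2,1),(15,1),(8,2),(4,8)]⟩,⟨0,[(0,0),(13,0),(19,0),(12,1)]⟩⟩,⟨false,0,⟨0,
  []⟩,⟨0,[]⟩⟩,⟨false,0,⟨0,[]⟩,⟨0,[]⟩⟩,[.a ⟨true,1,⟨2,[(1,1),(4,0),(9,1),(2,0),(8,0),(20,2)]⟩,⟨0,[(0,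
  0),(13,0),(32,0)]⟩⟩ ⟨true,0,⟨0,[(16,0),(32,0)]⟩,⟨0,[(34,0),(0,0)]⟩⟩ ⟨false,2,⟨0,[(6,0),(9,0),(11,
  0),(20,0)]⟩,⟨1,[(0,0),(3,0),(9,1),(7,0),(24,1)]⟩⟩,.o ⟨false,2,⟨5,[(1,3),(4,1),(9,3),(2,1),(8,1),
  (15,2),(4,8)]⟩,⟨0,[(0,0),(33,0)]⟩⟩,.o ⟨false,0,⟨0,[(36,0)]⟩,⟨0,[(13,0)]⟩⟩,.o ⟨false,0,⟨3,[(1,1),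
  (2,1),(31,1),(7,0),(4,0)]⟩,⟨0,[(7,0)]⟩⟩]⟩) (.S ⟨1,0,[0,1,1],[0,1,0,0,1],[1,2,1,1],(⟨0,[(31,0),(7,
  0)]⟩,⟨0,[(2,0),(23,0)]⟩),⟨0,[(31,0)]⟩,(.r 0 ⟨6,[(4,1),(10,2),(1,0),(10,1),(4,1)]⟩ ⟨5,[(21,1),(6,
  0),(0,0),(19,2)]⟩),.k,⟨false,0,⟨0,[]⟩,⟨1,[(28,0),(0,0),(19,0)]⟩⟩,⟨true,0,⟨0,[(47,0)]⟩,⟨0,[(46,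
  0)]⟩⟩,⟨true,0,⟨0,[(46,0)]⟩,⟨0,[(47,0)]⟩⟩,⟨false,1,⟨1,[(28,0),(0,0),(19,0)]⟩,⟨0,[]⟩⟩,[.o ⟨false,0,
  ⟨24,[(3,6),(0,1),(4,0),(9,1),(9,15),(13,2),(0,7)]⟩,⟨0,[(0,0)]⟩⟩,.o ⟨false,0,⟨0,[(3,0),(45,0)]⟩,⟨0,
  [(28,0)]⟩⟩,.a ⟨true,0,⟨1,[(3,0),(2,0),(7,1),(1,1),(12,0),(17,1),(1,1)]⟩,⟨0,[(1,0)]⟩⟩ ⟨true,(-1),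
  ⟨1,[(1,0),(1,0),(11,0),(0,0)]⟩,⟨5,[(21,1),(6,0),(0,0),(19,2)]⟩⟩ ⟨false,0,⟨7,[(1,1),(2,1),(30,1),
  (8,0),(4,0)]⟩,⟨1,[(48,0),(0,0)]⟩⟩,.o ⟨false,0,⟨0,[(3,0),(45,0)]⟩,⟨0,[(28,0)]⟩⟩]⟩))) (.Q [0,0,-1,0,
  1,0,0,0,-1,0,0,-1] (.p false [0,0,0,0,1] [] (⟨0,[(29,0)]⟩,⟨0,[(28,0)]⟩) .k 0 (⟨0,[]⟩,⟨0,[]⟩) .k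
  .k) (.Q [0,0,0,0,0,0,1,1,-1,1,1,-1] (.p false [0,0,-1,0,1] [1] (⟨0,[(1,0)]⟩,⟨0,[(29,0),(7,0)]⟩)
  .k 1 (⟨0,[]⟩,⟨0,[]⟩) .k (.r (-1) ⟨5,[(3,1),(4,3),(18,2),(0,0),(3,1),(15,0)]⟩ ⟨0,[(15,0),(32,
  0)]⟩)) (.R ⟨1,false,false,false,[0,0,0,0,1],[0,0,-1,0,1],[1,1],(⟨0,[(31,0)]⟩,⟨0,[(30,0)]⟩),(⟨0,
  [(2,0)]⟩,⟨0,[(30,0),(7,0)]⟩),⟨0,[(2,0),(24,0)]⟩,.k,.k,(.r 0 ⟨2,[(0,0),(2,0),(17,0),(12,0)]⟩ ⟨6,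
  [(4,1),(10,2),(1,0),(10,1),(4,1),(15,6)]⟩),.k,.k,.k,⟨false,0,⟨2,[(12,1),(4,0),(3,0),(27,0)]⟩,⟨8,
  [(4,1),(4,4),(18,1),(4,0),(1,0),(13,3)]⟩⟩,⟨true,0,⟨0,[(22,0)]⟩,⟨0,[(35,0)]⟩⟩,⟨true,0,⟨0,[]⟩,⟨0,
  [(51,0)]⟩⟩,⟨false,1,⟨0,[(34,0),(14,0)]⟩,⟨0,[(20,0)]⟩⟩,⟨false,1,⟨5,[(15,1),(1,1),(10,0),(0,0),(18,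
  0),(0,3)]⟩,⟨0,[(47,0)]⟩⟩,⟨false,1,⟨1,[(14,1),(29,0),(4,0)]⟩,⟨0,[(20,0),(26,0)]⟩⟩,[.o ⟨false,0,⟨0,
  [(3,0),(30,0),(14,0)]⟩,⟨1,[(0,1),(43,0),(4,0)]⟩⟩,.a ⟨true,0,⟨0,[(3,0),(10,0),(32,0),(1,0)]⟩,⟨0,
  [(0,0)]⟩⟩ ⟨true,0,⟨0,[]⟩,⟨1,[(35,0),(0,0)]⟩⟩ ⟨false,1,⟨3,[(5,0),(3,0),(4,0),(6,0),(3,0),(18,0),(4,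
  0)]⟩,⟨0,[(20,0)]⟩⟩,.o ⟨false,0,⟨0,[(3,0),(45,0)]⟩,⟨0,[(28,0)]⟩⟩,.o ⟨false,0,⟨5,[(3,3),(0,1),(30,
  1),(8,0),(4,4)]⟩,⟨0,[(1,0)]⟩⟩]⟩) (.S ⟨1,0,[0,2,0,-1],[0,0,0,0,1],[1,1],(⟨0,[(31,0)]⟩,⟨0,[(30,
  0)]⟩),⟨0,[(2,0),(24,0)]⟩,.k,(.r 0 ⟨4,[(9,0),(6,1),(4,0),(21,0),(3,1)]⟩ ⟨6,[(4,1),(10,2),(1,0),(10,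
  1),(4,1),(15,6)]⟩),⟨true,0,⟨0,[]⟩,⟨0,[(51,0)]⟩⟩,⟨false,0,⟨0,[(47,0)]⟩,⟨5,[(15,1),(1,1),(10,0),(0,
  0),(18,0),(0,3)]⟩⟩,⟨false,1,⟨5,[(15,1),(1,1),(10,0),(0,0),(18,0),(0,3)]⟩,⟨0,[(47,0)]⟩⟩,⟨true,0,⟨0,
  [(51,0)]⟩,⟨0,[]⟩⟩,[.o ⟨false,(-1),⟨0,[(3,0),(43,0)]⟩,⟨2,[(1,0),(10,0),(2,0),(12,1),(20,3)]⟩⟩,.a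
  ⟨true,(-1),⟨0,[(0,0),(5,0),(4,0),(4,0),(9,0),(14,0),(5,0)]⟩,⟨3,[(1,3),(4,0),(4,1),(0,1),(1,1),(11,
  2),(0,0),(7,1),(13,2)]⟩⟩ ⟨true,0,⟨0,[]⟩,⟨1,[(35,0),(0,0)]⟩⟩ ⟨false,0,⟨4,[(9,0),(6,1),(4,0),(21,0),
  (3,1)]⟩,⟨5,[(15,1),(1,1),(10,0),(0,0),(18,0),(0,3)]⟩⟩,.o ⟨false,0,⟨0,[(3,0),(45,0)]⟩,⟨0,[(28,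
  0)]⟩⟩,.o ⟨false,0,⟨2,[(0,0),(2,0),(0,0),(14,0),(15,0),(13,1)]⟩,⟨0,[(1,0)]⟩⟩]⟩)) (.S ⟨1,0,[0,0,1],
  [1,1,0,0,-1],[0,-1,1],(⟨0,[(29,0),(8,0)]⟩,⟨0,[(1,0),(24,0)]⟩),⟨0,[(29,0)]⟩,(.r (-1) ⟨6,[(3,1),(10,
  2),(1,0),(10,1),(4,1),(15,6)]⟩ ⟨4,[(8,0),(6,1),(4,0),(21,0),(3,1)]⟩),.k,⟨true,0,⟨0,[(46,0)]⟩,⟨0,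
  [(45,0)]⟩⟩,⟨false,0,⟨0,[(46,0)]⟩,⟨5,[(14,1),(1,1),(10,0),(0,0),(18,0),(0,3)]⟩⟩,⟨false,1,⟨1,[(27,
  0),(0,0),(19,0)]⟩,⟨0,[]⟩⟩,⟨true,0,⟨0,[(50,0)]⟩,⟨0,[]⟩⟩,[.o ⟨false,1,⟨0,[(27,0)]⟩,⟨3,[(0,2),(5,0),
  (21,0),(2,0),(11,1)]⟩⟩,.e ⟨false,1,⟨0,[(48,0)]⟩,⟨0,[(42,0)]⟩⟩ ⟨false,1,⟨1,[(27,0),(0,0),(19,0)]⟩,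
  ⟨7,[(8,0),(6,1),(4,0),(21,0),(1,2)]⟩⟩,.a ⟨true,1,⟨4,[(5,2),(4,1),(2,3),(1,3),(4,0),(4,1),(1,4),
  (12,1),(5,0),(1,1)]⟩,⟨0,[(0,0)]⟩⟩ ⟨false,1,⟨1,[(34,0),(0,0),(12,1)]⟩,⟨7,[(8,0),(6,1),(4,0),(21,0),
  (1,2)]⟩⟩ ⟨true,0,⟨1,[(34,0),(0,0)]⟩,⟨7,[(8,0),(6,1),(4,0),(21,0),(1,2)]⟩⟩,.o ⟨false,1,⟨0,[(27,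
  0)]⟩,⟨3,[(0,2),(5,0),(21,0),(2,0),(11,1)]⟩⟩]⟩))) (.Q [0,-1,0,0,1,0,0,0,-1,0,0,-1] (.p false [0,0,
  0,0,1] [] (⟨0,[(28,0)]⟩,⟨0,[(27,0)]⟩) .k 0 (⟨0,[]⟩,⟨0,[]⟩) .k .k) (.R ⟨0,false,false,true,[1,-1,
  -1],[0,0,0,0,1],[1],(⟨0,[(24,0)]⟩,⟨31,[(1,2),(2,8),(2,1),(0,1),(0,13),(17,2),(2,7),(0,3),(4,
  15)]⟩),(⟨0,[(29,0)]⟩,⟨0,[(28,0)]⟩),⟨0,[(8,0)]⟩,.k,.k,(.x 1 ⟨0,[(9,0)]⟩ ⟨3,[(6,1),(17,3),(14,3),(2,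
  2),(3,2)]⟩),(.r (-2) ⟨17,[(2,4),(4,10),(11,5),(6,4),(4,3),(1,0),(13,18)]⟩ ⟨1,[(10,1),(22,0),(0,
  0)]⟩),.k,.k,⟨true,1,⟨0,[(47,0)]⟩,⟨0,[(14,0),(17,0),(0,0)]⟩⟩,⟨false,1,⟨0,[(5,0),(21,0)]⟩,⟨1,[(0,1),
  (8,0),(4,0),(9,0),(7,0),(6,0)]⟩⟩,⟨false,0,⟨1,[(10,1),(22,0),(0,0),(12,1)]⟩,⟨7,[(7,3),(11,1),(13,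
  0),(0,0),(10,1),(1,1)]⟩⟩,⟨true,(-1),⟨0,[(2,0),(1,0),(5,0)]⟩,⟨0,[(1,0),(30,0),(12,0)]⟩⟩,⟨false,0,
  ⟨0,[]⟩,⟨0,[]⟩⟩,⟨false,0,⟨0,[]⟩,⟨0,[]⟩⟩,[.a ⟨true,(-1),⟨0,[(2,0),(1,0),(7,0),(1,0),(30,0)]⟩,⟨0,[(1,
  0)]⟩⟩ ⟨true,0,⟨0,[]⟩,⟨1,[(33,0),(0,0)]⟩⟩ ⟨false,0,⟨0,[(4,0),(9,0),(12,0),(4,0)]⟩,⟨0,[(1,0),(32,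
  0)]⟩⟩,.o ⟨false,0,⟨0,[(2,0),(2,0)]⟩,⟨0,[(0,0)]⟩⟩,.o ⟨false,0,⟨0,[(34,0)]⟩,⟨0,[(11,0)]⟩⟩,.o ⟨false,
  0,⟨1,[(33,0),(0,2)]⟩,⟨0,[(5,0)]⟩⟩]⟩) (.R ⟨2,false,false,false,[0,1],[1,0,0,0,-1],[0,0,1],(⟨0,[]⟩,
  ⟨0,[]⟩),(⟨0,[(28,0)]⟩,⟨0,[(29,0)]⟩),⟨0,[]⟩,.k,.k,.k,(.r 0 ⟨6,[(2,1),(10,2),(1,0),(10,1),(4,1)]⟩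
  ⟨5,[(19,1),(6,0),(0,0),(19,2)]⟩),.k,.k,⟨false,0,⟨0,[(49,0)]⟩,⟨1,[(46,0),(0,0)]⟩⟩,⟨true,0,⟨0,[(1,
  0),(12,0),(17,0),(0,0)]⟩,⟨1,[(0,1),(41,0),(4,0)]⟩⟩,⟨true,0,⟨0,[(45,0)]⟩,⟨0,[(44,0)]⟩⟩,⟨false,1,⟨0,
  [(1,0),(43,0)]⟩,⟨17,[(0,3),(2,4),(0,0),(5,3),(2,1),(3,2),(9,13),(14,6)]⟩⟩,⟨false,1,⟨1,[(26,0),(0,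
  0),(19,0)]⟩,⟨0,[]⟩⟩,⟨false,1,⟨0,[(1,0)]⟩,⟨17,[(0,6),(1,1),(4,0),(9,1),(9,8),(13,2),(0,7)]⟩⟩,[.a
  ⟨true,1,⟨23,[(1,16),(5,1),(1,1),(13,0),(2,6),(4,3),(3,1),(3,3),(1,1)]⟩,⟨0,[(0,0)]⟩⟩ ⟨true,0,⟨1,
  [(33,0),(0,0)]⟩,⟨0,[]⟩⟩ ⟨false,1,⟨23,[(1,16),(5,1),(1,1),(13,0),(2,6),(4,3),(3,1),(3,3),(1,1)]⟩,
  ⟨1,[(0,1),(41,0),(3,0)]⟩⟩,.e ⟨false,1,⟨1,[(26,0),(0,0),(19,0)]⟩,⟨7,[(7,0),(6,1),(4,0),(21,0),(1,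
  2)]⟩⟩ ⟨false,1,⟨0,[(1,0)]⟩,⟨5,[(0,3),(26,1),(13,3),(0,2),(3,0)]⟩⟩,.o ⟨false,1,⟨1,[(42,0),(3,0)]⟩,
  ⟨1,[(33,0),(0,0)]⟩⟩,.fo]⟩)))))) (.K ⟨0,[1,-1,-1],(-1),0,(⟨0,[(19,0)]⟩,⟨0,[(3,0),(30,0)]⟩),.k,(.x
  1 ⟨0,[(4,0)]⟩ ⟨3,[(1,1),(17,3),(14,3),(2,2),(3,2)]⟩),.k,(.r (-2) ⟨5,[(2,5),(11,1),(6,0),(0,0),(5,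
  2),(0,2),(12,2)]⟩ ⟨1,[(0,0),(4,1),(3,0),(2,0),(29,1)]⟩),.k,[⟨0,[(1,0)]⟩,⟨0,[(0,0)]⟩,⟨12,[(1,2),(3,
  4),(2,1),(1,3),(1,5),(15,0),(8,1)]⟩,⟨59,[(0,50),(1,31),(1,0),(9,19),(3,5),(7,3),(3,0),(3,1),(1,
  11)]⟩]⟩))) (.Q [0,0,-2,0,1,0,1,0,0,0,1] (.p true [0,0,1] [] (⟨0,[(29,0)]⟩,⟨0,[(28,0)]⟩) .k 0 (⟨0,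
  []⟩,⟨0,[]⟩) .k .k) (.Q [0,0,-2,-1,1,0,2,1,0,-1,2] (.p true [0,0,1] [1,0,-1] (⟨0,[(30,0)]⟩,⟨0,[(29,
  0)]⟩) .k 2 (⟨0,[(29,0)]⟩,⟨0,[(30,0)]⟩) .k (.r 1 ⟨4,[(1,2),(2,1),(3,0),(0,0),(3,0)]⟩ ⟨2,[(13,1),(1,
  5),(4,0),(0,0),(19,2)]⟩)) (.R ⟨0,false,false,false,[1,-1,-1],[0,-1,1],[],(⟨0,[(19,0)]⟩,⟨1,[(1,0),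
  (2,0),(26,0)]⟩),(⟨0,[(20,0)]⟩,⟨0,[(30,0),(1,0)]⟩),⟨0,[(3,0)]⟩,.k,.k,(.x 1 ⟨0,[(4,0)]⟩ ⟨0,[(1,0),
  (17,0),(14,0),(2,0)]⟩),.k,.k,.k,⟨false,1,⟨1,[(16,1),(24,0),(0,0)]⟩,⟨23,[(2,5),(6,3),(0,5),(1,0),
  (1,9),(3,0),(7,0)]⟩⟩,⟨true,1,⟨0,[(6,0),(21,0)]⟩,⟨0,[(2,0),(4,0),(19,0),(12,0)]⟩⟩,⟨false,0,⟨6,[(2,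
  2),(5,1),(1,2),(17,0),(0,0),(12,2)]⟩,⟨0,[(6,0),(0,0),(32,1)]⟩⟩,⟨true,0,⟨2,[(0,1),(1,1),(5,0),(3,
  0),(15,0)]⟩,⟨0,[(7,0),(19,0),(12,0)]⟩⟩,⟨false,0,⟨0,[]⟩,⟨0,[]⟩⟩,⟨false,0,⟨0,[]⟩,⟨0,[]⟩⟩,[.e ⟨false,
  1,⟨1,[(21,0),(0,0),(18,0)]⟩,⟨0,[]⟩⟩ ⟨false,1,⟨0,[(0,0)]⟩,⟨0,[(7,0),(21,0)]⟩⟩,.o ⟨false,1,⟨10,[(0,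
  4),(1,2),(11,1),(13,6),(0,5),(7,2),(4,3)]⟩,⟨0,[(11,0)]⟩⟩,.o ⟨false,0,⟨0,[(29,0)]⟩,⟨0,[(6,0)]⟩⟩,.a
  ⟨true,(-1),⟨0,[(2,0),(4,0),(19,0),(0,0),(11,0)]⟩,⟨0,[(1,0)]⟩⟩ ⟨false,1,⟨1,[(41,0),(0,0)]⟩,⟨1,[(28,
  0),(0,0)]⟩⟩ ⟨true,1,⟨0,[(0,0)]⟩,⟨0,[(2,0),(4,0),(19,1),(0,0)]⟩⟩]⟩) (.R ⟨0,false,false,false,[1,-1,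
  -1],[0,-1,1],[],(⟨0,[(19,0)]⟩,⟨1,[(1,0),(2,0),(26,0)]⟩),(⟨0,[(20,0)]⟩,⟨0,[(30,0),(1,0)]⟩),⟨0,[(3,
  0)]⟩,.k,.k,(.x 1 ⟨0,[(4,0)]⟩ ⟨0,[(1,0),(17,0),(14,0),(2,0)]⟩),.k,.k,.k,⟨false,1,⟨1,[(16,1),(24,0),
  (0,0)]⟩,⟨23,[(2,5),(6,3),(0,5),(1,0),(1,9),(3,0),(7,0)]⟩⟩,⟨true,1,⟨0,[(6,0),(21,0)]⟩,⟨3,[(0,2),(1,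
  0),(6,0),(4,0),(3,0)]⟩⟩,⟨false,0,⟨6,[(2,2),(5,1),(1,2),(17,0),(0,0),(12,2)]⟩,⟨2,[(0,1),(5,2),(0,
  0),(6,1),(13,1)]⟩⟩,⟨true,0,⟨2,[(1,0),(0,1),(3,1),(2,0),(2,0),(15,1)]⟩,⟨1,[(0,0),(6,0),(6,0),(1,0),
  (10,0)]⟩⟩,⟨false,0,⟨0,[]⟩,⟨0,[]⟩⟩,⟨false,0,⟨0,[]⟩,⟨0,[]⟩⟩,[.a ⟨true,0,⟨2,[(2,0),(11,0),(11,0),(1,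
  1)]⟩,⟨0,[(7,0)]⟩⟩ ⟨false,1,⟨1,[(21,0),(0,0),(18,0)]⟩,⟨0,[]⟩⟩ ⟨true,1,⟨8,[(2,0),(3,5),(5,2),(0,3),
  (0,2),(13,4),(13,0)]⟩,⟨0,[(0,0)]⟩⟩,.o ⟨false,1,⟨5,[(2,1),(11,1),(11,1),(1,3),(8,2),(4,2)]⟩,⟨0,
  [(11,0)]⟩⟩,.o ⟨false,0,⟨0,[(29,0)]⟩,⟨0,[(6,0)]⟩⟩,.e ⟨false,1,⟨1,[(41,0),(0,0)]⟩,⟨1,[(28,0),(0,
  0)]⟩⟩ ⟨false,2,⟨2,[(6,2),(6,1),(0,0),(11,0),(15,1)]⟩,⟨0,[(0,0)]⟩⟩]⟩)) (.R ⟨0,false,false,false,[1,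
  -1,-1],[0,-1,1],[],(⟨0,[(18,0)]⟩,⟨0,[(2,0),(30,0)]⟩),(⟨0,[(19,0)]⟩,⟨0,[(29,0),(1,0)]⟩),⟨0,[(2,
  0)]⟩,.k,.k,(.x 1 ⟨0,[(3,0)]⟩ ⟨1,[(5,1),(12,1),(14,1),(2,0),(3,0)]⟩),.k,.k,.k,⟨false,1,⟨1,[(15,1),
  (24,0),(0,0)]⟩,⟨23,[(1,5),(6,3),(0,5),(1,0),(1,9),(3,0),(7,0)]⟩⟩,⟨true,1,⟨0,[(5,0),(21,0)]⟩,⟨0,
  [(0,0),(23,0)]⟩⟩,⟨false,0,⟨6,[(1,2),(5,1),(1,2),(17,0),(0,0),(12,2)]⟩,⟨0,[(5,0),(0,0),(32,1)]⟩⟩,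
  ⟨true,0,⟨1,[(1,0),(3,1),(2,0),(3,0),(14,0)]⟩,⟨0,[(6,0),(19,0),(12,0)]⟩⟩,⟨false,0,⟨0,[]⟩,⟨0,[]⟩⟩,
  ⟨false,0,⟨0,[]⟩,⟨0,[]⟩⟩,[.a ⟨true,0,⟨2,[(1,0),(11,0),(11,0),(1,1)]⟩,⟨0,[(6,0)]⟩⟩ ⟨false,1,⟨1,[(20,
  0),(0,0),(18,0)]⟩,⟨0,[]⟩⟩ ⟨true,1,⟨8,[(1,0),(3,5),(5,2),(0,3),(0,2),(13,4),(13,0)]⟩,⟨0,[(0,0),(5,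
  0)]⟩⟩,.o ⟨false,1,⟨5,[(1,1),(11,1),(11,1),(1,3),(8,2),(4,2)]⟩,⟨0,[(10,0)]⟩⟩,.o ⟨false,0,⟨0,[(28,
  0)]⟩,⟨0,[(5,0)]⟩⟩,.o ⟨false,(-1),⟨0,[(0,0)]⟩,⟨1,[(5,1),(14,0),(0,0),(18,0)]⟩⟩]⟩)))

theorem ok106 : chk K t106 l61 = true := by decide +kernel

noncomputable def t107 : Tre :=
  (.S ⟨1,0,[0,0,-1,-2,0,0,0,-1],[1,-1,-1],[0,1,-1,-2,0,0,0,-1],(⟨0,[(17,0)]⟩,⟨0,[(29,0),(0,0)]⟩),⟨0,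
  [(1,0)]⟩,.k,(.r (-1) ⟨0,[(0,0)]⟩ ⟨5,[(3,1),(2,1),(1,5),(17,4),(0,4),(12,1)]⟩),⟨false,0,⟨0,[(38,
  0)]⟩,⟨5,[(6,1),(1,1),(10,0),(0,0),(18,0),(0,3)]⟩⟩,⟨true,0,⟨0,[(38,0)]⟩,⟨0,[(37,0)]⟩⟩,⟨true,0,⟨0,
  [(42,0)]⟩,⟨0,[]⟩⟩,⟨false,1,⟨1,[(19,0),(0,0),(19,0)]⟩,⟨0,[]⟩⟩,[.e ⟨false,1,⟨0,[(0,0),(41,0)]⟩,⟨2,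
  [(3,3),(2,0),(19,0),(0,0),(12,3)]⟩⟩ ⟨false,1,⟨0,[(0,0)]⟩,⟨2,[(3,0),(2,0),(1,2),(17,0),(0,0),(12,
  0)]⟩⟩,.o ⟨false,1,⟨1,[(0,1),(0,1),(0,1),(32,0),(4,0)]⟩,⟨1,[(3,1),(0,0),(1,0),(3,0),(29,0)]⟩⟩,.o
  ⟨false,0,⟨0,[(27,0)]⟩,⟨0,[(4,0)]⟩⟩,.a ⟨true,(-1),⟨0,[(1,0),(0,0)]⟩,⟨0,[(0,0),(2,0),(22,0),(9,0),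
  (3,0)]⟩⟩ ⟨false,1,⟨0,[(0,0)]⟩,⟨5,[(3,7),(2,1),(19,4),(0,4),(12,7)]⟩⟩ ⟨true,1,⟨0,[(0,0)]⟩,⟨5,[(3,
  7),(2,1),(19,4),(0,4),(12,1)]⟩⟩]⟩)

theorem ok107 : chk K t107 l62 = true := by decide +kernel

noncomputable def t108 : Tre :=
  (.Q [0,0,2,0,-1,0,0,0,0,1] (.pp false [-1,1]) (.R ⟨1,false,false,false,[1,-1],[1,-1,-1],[0,0,-1,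
  -2],(⟨0,[(34,0)]⟩,⟨0,[(35,0)]⟩),(⟨0,[(19,0)]⟩,⟨0,[(31,0),(0,0)]⟩),⟨1,[(3,0),(16,0),(13,0)]⟩,.k,.k,
  (.r (-1) ⟨2,[(14,1),(6,0),(0,0)]⟩ ⟨4,[(2,1),(5,2),(17,0),(1,0),(0,1),(12,1)]⟩),.k,.k,.k,⟨false,0,
  ⟨7,[(9,5),(0,0),(2,0),(0,2),(14,0),(12,2)]⟩,⟨1,[(16,1),(24,0),(0,0)]⟩⟩,⟨true,0,⟨0,[(15,0)]⟩,⟨0,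
  [(28,0)]⟩⟩,⟨true,0,⟨0,[(40,0)]⟩,⟨0,[(39,0)]⟩⟩,⟨false,1,⟨0,[(27,0),(14,0)]⟩,⟨0,[(13,0)]⟩⟩,⟨false,1,
  ⟨1,[(21,0),(0,0),(19,0)]⟩,⟨0,[]⟩⟩,⟨false,1,⟨1,[(7,1),(29,0),(4,0)]⟩,⟨1,[(0,0),(0,0),(10,0),(0,
  0)]⟩⟩,[.e ⟨false,1,⟨2,[(14,1),(6,0),(0,0)]⟩,⟨5,[(2,1),(5,2),(1,0),(27,0),(3,1)]⟩⟩ ⟨false,1,⟨0,[(1,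
  0),(9,0)]⟩,⟨5,[(2,1),(5,0),(4,1),(12,2),(1,0),(13,1)]⟩⟩,.o ⟨false,1,⟨0,[(27,0),(12,0),(1,0)]⟩,⟨2,
  [(2,0),(3,0),(5,1),(25,0)]⟩⟩,.o ⟨false,0,⟨1,[(28,0),(0,0)]⟩,⟨1,[(37,0),(3,0)]⟩⟩,.a ⟨true,(-1),⟨0,
  [(0,0)]⟩,⟨0,[(41,0)]⟩⟩ ⟨false,1,⟨0,[(1,0)]⟩,⟨4,[(2,1),(5,2),(17,0),(1,0),(0,1),(12,1)]⟩⟩ ⟨true,1,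
  ⟨0,[(1,0),(9,0)]⟩,⟨7,[(0,3),(1,1),(2,1),(2,0),(3,3),(13,0),(1,2)]⟩⟩]⟩) (.I [0,-1,2,1] (.R ⟨1,
  false,false,false,[1,-1],[0,0,1],[1,1,-1,-1],(⟨0,[(35,0)]⟩,⟨0,[(36,0)]⟩),(⟨0,[(32,0)]⟩,⟨0,[(31,
  0)]⟩),⟨1,[(4,0),(16,0),(13,0)]⟩,.k,.k,(.r (-1) ⟨2,[(15,1),(6,0),(0,0)]⟩ ⟨5,[(0,3),(8,2),(1,1),(15,
  0),(2,0)]⟩),.k,(.x 1 ⟨0,[(5,0)]⟩ ⟨1,[(4,1),(2,1),(14,0),(0,0),(18,0)]⟩),.k,⟨false,1,⟨0,[(9,0),(5,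
  0)]⟩,⟨4,[(3,1),(6,0),(0,0),(2,0),(15,0),(12,2)]⟩⟩,⟨true,1,⟨0,[(7,0)]⟩,⟨0,[(4,0),(0,0)]⟩⟩,⟨false,0,
  ⟨0,[]⟩,⟨1,[(22,0),(0,0),(19,0)]⟩⟩,⟨false,1,⟨2,[(3,0),(3,1),(3,0),(1,0),(29,1)]⟩,⟨0,[(8,0),(32,
  1)]⟩⟩,⟨true,0,⟨0,[(40,0)]⟩,⟨0,[(41,0)]⟩⟩,⟨false,1,⟨2,[(3,1),(3,2),(3,0),(27,0),(3,1)]⟩,⟨0,[(8,0),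
  (32,2)]⟩⟩,[.a ⟨true,0,⟨0,[(14,0)]⟩,⟨0,[(8,0),(32,0)]⟩⟩ ⟨true,0,⟨1,[(10,0),(4,0),(1,0)]⟩,⟨0,[(0,
  0)]⟩⟩ ⟨false,1,⟨0,[(1,0),(12,0)]⟩,⟨3,[(0,1),(4,0),(2,1),(6,0),(4,0),(7,1),(0,0),(5,0),(5,0)]⟩⟩,.o
  ⟨false,1,⟨0,[(13,0),(29,0)]⟩,⟨0,[(28,0)]⟩⟩,.o ⟨false,0,⟨1,[(29,0),(0,0)]⟩,⟨1,[(38,0),(3,0)]⟩⟩,.o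
  ⟨false,0,⟨0,[(29,0),(0,0)]⟩,⟨0,[(1,0)]⟩⟩]⟩) (.I [1,0,-2,-2,1,0,0,-1] (.N [0,2,1] 1 ⟨0,[(4,0)]⟩ ⟨0,
  [(0,0)]⟩ (.x (-2) ⟨1,[(5,1),(2,1),(14,0),(0,0),(18,0)]⟩ ⟨0,[(6,0)]⟩)) (.Q [0,1,0,1,0,0,0,0,1,-1,0,
  1] (.p true [0,0,0,0,1] [1] (⟨0,[(26,0)]⟩,⟨0,[(25,0)]⟩) .k 1 (⟨0,[]⟩,⟨0,[]⟩) .k .k) (.Q [0,1,0,1,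
  -1,0,-1,-1,1,0,-1,1] (.p false [0,0,1] [0,0,0,0,1] (⟨0,[(34,0)]⟩,⟨0,[(33,0)]⟩) .k 2 (⟨0,[(27,0)]⟩,
  ⟨0,[(26,0)]⟩) .k (.r 0 ⟨0,[(12,0),(32,0)]⟩ ⟨2,[(17,0),(1,2),(4,1),(0,1)]⟩)) (.Q [0,0,0,0,0,-1,0,0,
  0,1,0,-1] (.ed true [0,1,0,0,1] .k) (.R ⟨1,false,false,false,[1,0,0,0,-1],[1,0,-1],[1],(⟨0,[(28,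
  0)]⟩,⟨0,[(29,0)]⟩),(⟨0,[(35,0)]⟩,⟨0,[(36,0)]⟩),⟨0,[(0,0)]⟩,.k,.k,(.r (-1) ⟨5,[(19,1),(6,0),(0,0),
  (19,2)]⟩ ⟨1,[(13,0),(17,0),(2,0)]⟩),.k,(.r (-1) ⟨1,[(15,0),(2,0),(0,0),(14,0),(12,0)]⟩ ⟨0,[(21,
  0)]⟩),.k,⟨false,0,⟨1,[(6,0),(3,0),(4,0)]⟩,⟨5,[(19,1),(1,5),(4,0),(0,0),(19,2)]⟩⟩,⟨true,(-1),⟨0,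
  [(1,0),(12,0),(30,0),(1,0)]⟩,⟨0,[(26,0),(6,0)]⟩⟩,⟨false,0,⟨0,[]⟩,⟨1,[(26,0),(0,0),(19,0)]⟩⟩,⟨true,
  (-1),⟨0,[(1,0),(43,0)]⟩,⟨0,[(18,0),(7,0)]⟩⟩,⟨true,0,⟨0,[(44,0)]⟩,⟨0,[(45,0)]⟩⟩,⟨true,(-1),⟨0,[(1,
  0)]⟩,⟨0,[(18,0),(7,0),(18,0)]⟩⟩,[.a ⟨true,0,⟨0,[(12,0),(32,0)]⟩,⟨0,[(18,0)]⟩⟩ ⟨true,0,⟨0,[]⟩,⟨1,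
  [(33,0),(0,0)]⟩⟩ ⟨false,0,⟨11,[(1,9),(10,1),(6,3),(7,1),(14,0),(4,4)]⟩,⟨0,[(18,0),(7,0)]⟩⟩,.o
  ⟨false,1,⟨0,[(32,0),(14,0)]⟩,⟨0,[(17,0)]⟩⟩,.o ⟨false,1,⟨0,[(26,0)]⟩,⟨5,[(1,3),(4,1),(7,3),(12,1),
  (5,3),(8,2),(4,2)]⟩⟩,.o ⟨false,1,⟨1,[(26,1),(6,0),(0,0)]⟩,⟨3,[(1,3),(4,1),(4,1),(2,3),(18,1),(8,
  0),(4,2)]⟩⟩]⟩) (.S ⟨1,0,[0,0,1],[1,1,0,0,-1],[0,-1,1],(⟨0,[(28,0),(8,0)]⟩,⟨1,[(0,0),(7,0),(16,0),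
  (3,0)]⟩),⟨0,[(28,0)]⟩,(.r (-1) ⟨1,[(13,0),(17,0),(2,0),(12,1)]⟩ ⟨2,[(4,0),(36,0),(3,1)]⟩),.k,
  ⟨true,0,⟨0,[(45,0)]⟩,⟨0,[(44,0)]⟩⟩,⟨false,0,⟨0,[(45,0)]⟩,⟨16,[(2,0),(10,5),(1,3),(7,0),(2,0),(4,
  1),(14,2),(0,12)]⟩⟩,⟨false,1,⟨1,[(26,0),(0,0),(19,0)]⟩,⟨0,[]⟩⟩,⟨true,0,⟨0,[(49,0)]⟩,⟨0,[]⟩⟩,[.o
  ⟨false,1,⟨0,[(26,0)]⟩,⟨5,[(1,3),(4,1),(7,3),(12,1),(5,3),(8,2),(4,2)]⟩⟩,.e ⟨false,1,⟨0,[(47,0)]⟩,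
  ⟨0,[(41,0)]⟩⟩ ⟨false,1,⟨1,[(26,0),(0,0),(19,0)]⟩,⟨3,[(4,0),(36,0),(1,0)]⟩⟩,.a ⟨true,1,⟨0,[(6,0),
  (3,0),(1,0),(13,0),(6,0)]⟩,⟨0,[(1,0),(12,0),(18,0),(11,0),(1,0)]⟩⟩ ⟨false,1,⟨1,[(33,0),(0,0),(12,
  1)]⟩,⟨3,[(4,0),(36,0),(1,0)]⟩⟩ ⟨true,0,⟨1,[(33,0),(0,0)]⟩,⟨3,[(4,0),(36,0),(1,0)]⟩⟩,.o ⟨false,1,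
  ⟨0,[(26,0)]⟩,⟨5,[(1,3),(4,1),(7,3),(12,1),(5,3),(8,2),(4,2)]⟩⟩]⟩)) (.Q [0,0,0,0,0,2,0,0,0,0,-1]
  (.p false [0,0,1] [] (⟨0,[(35,0)]⟩,⟨0,[(34,0)]⟩) .k 0 (⟨0,[]⟩,⟨0,[]⟩) .k .k) (.Q [0,1,1,1,0,0,1,0,
  0,-1,1] (.p true [0,0,1] [1] (⟨0,[(36,0)]⟩,⟨0,[(35,0)]⟩) .k 1 (⟨0,[]⟩,⟨0,[]⟩) .k .k) (.R ⟨0,false,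
  false,false,[0,-1,1],[1,-1],[1],(⟨0,[(26,0)]⟩,⟨0,[(1,0),(38,0)]⟩),(⟨0,[(40,0)]⟩,⟨0,[(41,0)]⟩),⟨0,
  [(1,0)]⟩,.k,.k,(.r 0 ⟨0,[(7,0),(7,0)]⟩ ⟨1,[(14,1),(12,0),(0,0),(5,0),(0,0),(12,0)]⟩),.k,.k,.k,
  ⟨true,0,⟨9,[(8,1),(5,2),(17,0),(1,0),(0,1),(12,1)]⟩,⟨0,[(46,0)]⟩⟩,⟨false,0,⟨0,[(31,0)]⟩,⟨3,[(12,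
  1),(14,0),(0,0),(5,1),(8,0)]⟩⟩,⟨false,1,⟨0,[(22,0),(25,0)]⟩,⟨13,[(2,0),(12,10),(0,1),(3,4),(7,0),
  (6,0),(12,4)]⟩⟩,⟨true,0,⟨0,[(13,0),(32,0)]⟩,⟨0,[(18,0)]⟩⟩,⟨false,0,⟨0,[]⟩,⟨0,[]⟩⟩,⟨false,0,⟨0,[]⟩,
  ⟨0,[]⟩⟩,[.o ⟨false,0,⟨0,[(46,0)]⟩,⟨7,[(3,1),(10,1),(1,1),(10,1),(15,2),(3,0),(0,1)]⟩⟩,.e ⟨false,1,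
  ⟨1,[(47,0),(0,0)]⟩,⟨0,[(50,0)]⟩⟩ ⟨false,1,⟨8,[(2,0),(10,0),(6,2),(3,0),(3,0),(2,6),(15,0),(0,3)]⟩,
  ⟨0,[(0,0)]⟩⟩,.e ⟨true,0,⟨0,[]⟩,⟨0,[(50,0)]⟩⟩ ⟨true,0,⟨2,[(9,0),(0,0),(9,0),(10,1)]⟩,⟨0,[(0,0)]⟩⟩,
  .a ⟨true,0,⟨1,[(34,2),(0,0)]⟩,⟨0,[(7,0),(3,0),(1,0)]⟩⟩ ⟨false,1,⟨1,[(47,0),(0,0)]⟩,⟨1,[(34,0),(0,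
  0)]⟩⟩ ⟨true,0,⟨0,[(7,0),(5,0),(1,0)]⟩,⟨1,[(0,1),(33,0),(0,0)]⟩⟩]⟩) (.R ⟨0,false,false,false,[0,-1,
  1],[1,-1],[1],(⟨0,[(26,0)]⟩,⟨0,[(1,0),(38,0)]⟩),(⟨0,[(40,0)]⟩,⟨0,[(41,0)]⟩),⟨0,[(1,0)]⟩,.k,.k,(.r
  0 ⟨0,[(7,0),(7,0)]⟩ ⟨1,[(14,1),(12,0),(0,0),(5,0),(0,0),(12,0)]⟩),.k,.k,.k,⟨true,0,⟨9,[(8,1),(5,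
  2),(17,0),(1,0),(0,1),(12,1)]⟩,⟨0,[(46,0)]⟩⟩,⟨false,0,⟨0,[(31,0)]⟩,⟨3,[(12,1),(14,0),(0,0),(5,1),
  (8,0)]⟩⟩,⟨false,1,⟨0,[(22,0),(25,0)]⟩,⟨13,[(2,0),(12,10),(0,1),(3,4),(7,0),(6,0),(12,4)]⟩⟩,⟨true,
  0,⟨1,[(0,0),(12,0),(19,0),(0,0)]⟩,⟨0,[(18,0)]⟩⟩,⟨false,0,⟨0,[]⟩,⟨0,[]⟩⟩,⟨false,0,⟨0,[]⟩,⟨0,[]⟩⟩,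
  [.o ⟨false,0,⟨0,[(46,0)]⟩,⟨7,[(3,1),(10,1),(1,1),(10,1),(15,2),(3,0),(0,1)]⟩⟩,.a ⟨true,0,⟨0,[(0,
  0),(33,0)]⟩,⟨0,[(45,0)]⟩⟩ ⟨false,1,⟨1,[(47,0),(0,0)]⟩,⟨0,[(50,0)]⟩⟩ ⟨true,0,⟨0,[(0,0)]⟩,⟨9,[(8,1),
  (6,1),(2,1),(3,5),(11,8),(0,0),(7,3)]⟩⟩,.a ⟨true,0,⟨0,[(34,0)]⟩,⟨0,[(31,0)]⟩⟩ ⟨true,0,⟨0,[]⟩,⟨0,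
  [(50,0)]⟩⟩ ⟨false,0,⟨0,[(0,0)]⟩,⟨3,[(2,1),(0,1),(10,1),(19,1),(8,0),(4,0)]⟩⟩,.a ⟨true,0,⟨1,[(34,
  2),(0,0)]⟩,⟨0,[(0,0),(43,0)]⟩⟩ ⟨false,1,⟨1,[(47,0),(0,0)]⟩,⟨1,[(34,0),(0,0)]⟩⟩ ⟨true,0,⟨1,[(0,0),
  (4,0),(25,0)]⟩,⟨9,[(8,1),(6,1),(2,1),(3,5),(11,8),(0,0),(7,3)]⟩⟩]⟩)) (.Q [0,0,-1,0,0,0,0,0,1,-1,0,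
  1] (.p true [0,0,0,0,1] [1] (⟨0,[(29,0)]⟩,⟨0,[(28,0)]⟩) .k 1 (⟨0,[]⟩,⟨0,[]⟩) .k .k) (.Q [0,0,0,0,
  0,-1,0,0,0,1,0,-1] (.ed true [0,1,0,0,1] .k) (.S ⟨1,0,[0,-1,0,-1],[1,0,0,0,-1],[1],(⟨0,[(30,0)]⟩,
  ⟨0,[(31,0)]⟩),⟨0,[(0,0)]⟩,.k,(.r (-1) ⟨5,[(21,1),(6,0),(0,0),(19,2)]⟩ ⟨1,[(15,0),(17,0),(2,0)]⟩),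
  ⟨false,0,⟨0,[]⟩,⟨1,[(28,0),(0,0),(19,0)]⟩⟩,⟨true,0,⟨0,[(47,0)]⟩,⟨0,[(46,0)]⟩⟩,⟨true,0,⟨0,[(46,
  0)]⟩,⟨0,[(47,0)]⟩⟩,⟨false,1,⟨1,[(28,0),(0,0),(19,0)]⟩,⟨0,[]⟩⟩,[.a ⟨true,1,⟨0,[(3,0),(10,0),(32,
  0)]⟩,⟨0,[(1,0),(12,0),(1,0),(18,0)]⟩⟩ ⟨true,0,⟨0,[]⟩,⟨1,[(35,0),(0,0)]⟩⟩ ⟨false,1,⟨5,[(21,1),(6,
  0),(0,0),(19,2)]⟩,⟨0,[(46,0)]⟩⟩,.o ⟨false,2,⟨0,[(3,0),(30,0),(14,0)]⟩,⟨0,[(1,0),(14,0),(6,0)]⟩⟩,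
  .o ⟨false,1,⟨0,[(28,0)]⟩,⟨1,[(1,1),(33,0),(0,0)]⟩⟩,.o ⟨false,1,⟨1,[(28,1),(6,0),(0,0)]⟩,⟨0,[(1,
  0)]⟩⟩]⟩) (.R ⟨0,false,false,true,[1,0,0,0,-1],[2,0,-1,0,-1],[0,0,1,0,0,0,0,-1],(⟨0,[(30,0)]⟩,⟨0,
  [(31,0)]⟩),(⟨0,[(30,0),(6,0)]⟩,⟨0,[(0,0),(26,0)]⟩),⟨0,[(0,0)]⟩,.k,.k,(.r (-1) ⟨5,[(21,1),(6,0),(0,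
  0),(19,2)]⟩ ⟨1,[(15,0),(17,0),(2,0)]⟩),.k,.k,.k,⟨true,0,⟨1,[(35,0),(0,0)]⟩,⟨0,[]⟩⟩,⟨false,0,⟨0,
  [(32,0)]⟩,⟨3,[(13,1),(14,0),(0,0),(5,1),(8,0)]⟩⟩,⟨true,0,⟨0,[(34,0),(0,0)]⟩,⟨1,[(8,0),(3,0),(4,
  0)]⟩⟩,⟨false,0,⟨0,[(14,0),(32,0)]⟩,⟨0,[(19,0),(29,0)]⟩⟩,⟨false,0,⟨0,[]⟩,⟨0,[]⟩⟩,⟨false,0,⟨0,[]⟩,
  ⟨0,[]⟩⟩,[.o ⟨false,1,⟨0,[(3,0),(10,0),(19,0)]⟩,⟨2,[(1,3),(1,0),(5,0),(6,0),(18,1),(8,0),(2,0)]⟩⟩,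
  .a ⟨true,1,⟨0,[(3,0),(10,1),(32,0)]⟩,⟨0,[(1,0),(14,0),(18,0)]⟩⟩ ⟨true,1,⟨0,[(34,0),(0,0),(13,0)]⟩,
  ⟨0,[(16,0)]⟩⟩ ⟨false,1,⟨5,[(14,5),(6,1),(6,0),(0,0),(19,2)]⟩,⟨0,[(19,0)]⟩⟩,.o ⟨false,1,⟨0,[(28,
  0)]⟩,⟨1,[(1,1),(33,0),(0,0)]⟩⟩,.o ⟨false,1,⟨1,[(28,1),(6,0),(0,0)]⟩,⟨0,[(1,0)]⟩⟩]⟩)) (.Q [0,0,-1,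
  -1,0,0,0,0,-1,1,0,-1] (.p false [0,0,0,0,1] [1] (⟨0,[(30,0)]⟩,⟨0,[(29,0)]⟩) .k 1 (⟨0,[]⟩,⟨0,[]⟩)
  .k .k) (.Q [0,0,0,0,0,1,0,0,0,-1,0,1] (.ed false [0,1,0,0,1] .k) (.Q [0,0,-1,0,0,0,0,0,-1,1,0,-1]
  (.p false [0,0,0,0,1] [1] (⟨0,[(32,0)]⟩,⟨0,[(31,0)]⟩) .k 1 (⟨0,[]⟩,⟨0,[]⟩) .k .k) (.S ⟨1,0,[0,-1,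
  1],[1,1,0,0,-1],[1,0,1,1],(⟨0,[(32,0),(8,0)]⟩,⟨2,[(1,0),(2,0),(7,0),(20,1)]⟩),⟨0,[(32,0)]⟩,(.r
  (-1) ⟨1,[(17,0),(17,0),(2,0),(12,1)]⟩ ⟨2,[(8,0),(36,0),(3,1)]⟩),.k,⟨false,0,⟨0,[]⟩,⟨1,[(30,0),(0,
  0),(19,0)]⟩⟩,⟨true,0,⟨0,[(49,0)]⟩,⟨0,[(48,0)]⟩⟩,⟨true,0,⟨0,[(48,0)]⟩,⟨0,[(49,0)]⟩⟩,⟨false,1,⟨1,
  [(30,0),(0,0),(19,0)]⟩,⟨0,[]⟩⟩,[.o ⟨false,1,⟨1,[(0,0),(2,0),(42,0),(4,0)]⟩,⟨0,[(6,0),(42,0)]⟩⟩,.e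
  ⟨false,1,⟨16,[(6,0),(10,5),(1,3),(7,0),(2,0),(4,1),(14,2),(0,12)]⟩,⟨2,[(8,0),(36,0),(3,1)]⟩⟩
  ⟨false,1,⟨0,[(51,0)]⟩,⟨0,[(45,0)]⟩⟩,.a ⟨true,0,⟨0,[(0,0)]⟩,⟨1,[(31,1),(5,0),(0,0)]⟩⟩ ⟨true,0,⟨9,
  [(11,1),(5,2),(17,0),(1,0),(0,1),(12,1)]⟩,⟨2,[(8,0),(36,0),(3,1)]⟩⟩ ⟨false,1,⟨1,[(37,0),(0,0),(12,
  1)]⟩,⟨3,[(8,0),(36,0),(1,0)]⟩⟩,.e ⟨false,1,⟨16,[(6,0),(10,5),(1,3),(7,0),(2,0),(4,1),(14,2),(0,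
  12)]⟩,⟨0,[(49,0)]⟩⟩ ⟨false,1,⟨0,[(51,0)]⟩,⟨0,[(53,0)]⟩⟩]⟩) (.S ⟨1,0,[0,1,0,-1],[0,0,0,0,1],[1,2],
  (⟨0,[(33,0)]⟩,⟨0,[(32,0)]⟩),⟨2,[(1,0),(2,0),(7,0),(20,1)]⟩,.k,(.r 0 ⟨2,[(8,0),(36,0),(3,1)]⟩ ⟨1,
  [(17,0),(17,0),(2,0),(12,1)]⟩),⟨false,0,⟨0,[]⟩,⟨1,[(30,0),(0,0),(19,0)]⟩⟩,⟨true,0,⟨0,[(49,0)]⟩,⟨0,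
  [(48,0)]⟩⟩,⟨true,0,⟨0,[(48,0)]⟩,⟨0,[(49,0)]⟩⟩,⟨false,1,⟨1,[(30,0),(0,0),(19,0)]⟩,⟨0,[]⟩⟩,[.o
  ⟨false,0,⟨2,[(0,2),(7,0),(36,0),(3,1)]⟩,⟨10,[(2,8),(6,2),(1,4),(5,4),(12,1),(15,2),(4,7)]⟩⟩,.a
  ⟨true,0,⟨0,[(31,0),(17,0)]⟩,⟨7,[(2,6),(0,0),(7,2),(5,2),(29,2),(3,2)]⟩⟩ ⟨false,0,⟨3,[(8,0),(36,0),
  (1,0)]⟩,⟨1,[(30,0),(0,0),(19,0)]⟩⟩ ⟨true,0,⟨0,[(49,0)]⟩,⟨9,[(11,1),(5,2),(17,0),(1,0),(0,1),(12,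
  1)]⟩⟩,.e ⟨false,0,⟨0,[(53,0)]⟩,⟨0,[(51,0)]⟩⟩ ⟨false,0,⟨0,[(49,0)]⟩,⟨16,[(6,0),(10,5),(1,3),(7,0),
  (2,0),(4,1),(14,2),(0,12)]⟩⟩,.o ⟨false,0,⟨0,[(0,0)]⟩,⟨12,[(2,4),(6,4),(1,0),(5,0),(12,7),(16,0),
  (3,0)]⟩⟩]⟩)) (.Q [0,-2,0,-1,1,0,0,0,-1,0,0,-1] (.p false [0,0,0,0,1] [] (⟨0,[(32,0)]⟩,⟨0,[(31,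
  0)]⟩) .k 0 (⟨0,[]⟩,⟨0,[]⟩) .k .k) (.S ⟨1,0,[0,-1,0,-1],[1,0,0,0,-1],[1],(⟨0,[(32,0)]⟩,⟨0,[(33,
  0)]⟩),⟨0,[(1,0)]⟩,.k,(.r (-1) ⟨5,[(23,1),(6,0),(0,0),(19,2)]⟩ ⟨1,[(17,0),(17,0),(2,0)]⟩),⟨false,0,
  ⟨0,[]⟩,⟨1,[(30,0),(0,0),(19,0)]⟩⟩,⟨true,0,⟨0,[(49,0)]⟩,⟨0,[(48,0)]⟩⟩,⟨true,0,⟨0,[(48,0)]⟩,⟨0,[(49,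
  0)]⟩⟩,⟨false,1,⟨1,[(30,0),(0,0),(19,0)]⟩,⟨0,[]⟩⟩,[.o ⟨false,1,⟨11,[(0,5),(2,3),(19,1),(6,1),(6,0),
  (0,0),(7,1)]⟩,⟨0,[(6,0)]⟩⟩,.o ⟨false,1,⟨0,[(0,0)]⟩,⟨0,[(6,0),(46,0)]⟩⟩,.a ⟨true,0,⟨7,[(2,4),(0,2),
  (7,0),(5,0),(29,0),(3,0)]⟩,⟨0,[(31,0)]⟩⟩ ⟨true,0,⟨0,[]⟩,⟨0,[(53,0)]⟩⟩ ⟨false,1,⟨0,[(49,0),(1,0)]⟩,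
  ⟨0,[(48,0)]⟩⟩,.o ⟨false,0,⟨0,[(0,0),(17,0),(6,0)]⟩,⟨1,[(31,1),(14,0),(3,0)]⟩⟩]⟩) (.Q [0,0,0,0,0,
  -1,0,0,0,0,1,-1] (.p true [0,0,1] [0,0,0,0,1] (⟨0,[(40,0)]⟩,⟨0,[(39,0)]⟩) .k 2 (⟨0,[(33,0)]⟩,⟨0,
  [(32,0)]⟩) .k (.r 0 ⟨0,[(18,0),(32,0)]⟩ ⟨2,[(23,0),(1,2),(4,1),(0,1)]⟩)) (.Q [0,1,1,1,-1,0,-2,-1,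
  1,1,-2,1] (.p false [0,0,1] [1,0,-1,0,1] (⟨0,[(41,0)]⟩,⟨0,[(40,0)]⟩) .k 2 (⟨0,[(34,0),(5,0)]⟩,⟨0,
  [(0,0),(41,0)]⟩) .k (.r 0 ⟨13,[(6,2),(12,18),(0,5),(3,0),(7,2),(6,2),(12,14)]⟩ ⟨0,[(11,0),(14,
  1)]⟩)) (.Q [0,0,1,0,0,0,0,0,-1,0,0,-1] (.p false [0,0,0,0,1] [] (⟨0,[(35,0)]⟩,⟨0,[(34,0)]⟩) .k 0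
  (⟨0,[]⟩,⟨0,[]⟩) .k .k) (.Q [0,0,-1,0,0,0,-1,0,1,0,-1,1] (.p true [1,0,-1,0,1] [1] (⟨0,[(36,0),(5,
  0)]⟩,⟨0,[(2,0),(41,0)]⟩) .k 1 (⟨0,[]⟩,⟨0,[]⟩) .k (.r (-1) ⟨2,[(26,0),(1,2),(4,1),(0,1)]⟩ ⟨0,[(21,
  0),(32,0)]⟩)) (.S ⟨1,0,[0,-1,0,-1,0,0,0,1],[0,0,1,0,-1],[1,0,0,0,0,0,0,1],(⟨0,[(3,0),(41,0)]⟩,⟨0,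
  [(37,0),(5,0)]⟩),⟨0,[(3,0)]⟩,.k,(.r (-1) ⟨0,[(0,0),(8,0)]⟩ ⟨0,[(29,0)]⟩),⟨false,0,⟨0,[]⟩,⟨1,[(34,
  0),(0,0),(19,0)]⟩⟩,⟨true,0,⟨0,[(53,0)]⟩,⟨0,[(52,0)]⟩⟩,⟨true,0,⟨0,[(52,0)]⟩,⟨0,[(53,0)]⟩⟩,⟨false,1,
  ⟨1,[(34,0),(0,0),(19,0)]⟩,⟨0,[]⟩⟩,[.o ⟨false,1,⟨3,[(1,3),(12,1),(4,1),(2,3),(18,1),(8,0),(4,2)]⟩,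
  ⟨1,[(10,0),(9,0),(14,0),(4,0)]⟩⟩,.a ⟨true,1,⟨2,[(1,1),(4,0),(7,0),(4,0),(2,2),(18,1),(13,3)]⟩,⟨1,
  [(2,0),(1,0),(7,0),(7,0),(20,0)]⟩⟩ ⟨true,0,⟨0,[(22,0),(32,0)]⟩,⟨0,[(40,0),(0,0)]⟩⟩ ⟨false,1,⟨3,
  [(0,0),(8,0),(12,2),(4,0),(27,4)]⟩,⟨2,[(12,0),(8,0),(7,1),(19,0)]⟩⟩,.o ⟨false,1,⟨0,[(1,0),(17,
  0)]⟩,⟨1,[(0,0),(34,0),(6,0)]⟩⟩,.o ⟨false,1,⟨2,[(1,1),(17,0),(14,0),(6,1),(8,0)]⟩,⟨0,[(0,0)]⟩⟩]⟩)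
  (.K ⟨0,[0,1,0,0,1],0,(-1),(⟨0,[(37,0),(7,0)]⟩,⟨0,[(5,0)]⟩),(.r 0 ⟨1,[(21,0),(17,0),(2,0)]⟩ ⟨5,
  [(27,1),(6,0),(0,0),(19,2)]⟩),.k,(.r 0 ⟨9,[(15,1),(5,7),(17,5),(1,0),(0,6),(12,1)]⟩ ⟨0,[(14,0)]⟩),
  (.r 0 ⟨0,[(29,0)]⟩ ⟨6,[(9,1),(12,0),(0,3),(3,2),(7,1),(6,1),(12,2)]⟩),.k,[⟨0,[(0,0)]⟩,⟨0,[(35,
  0)]⟩,⟨5,[(7,3),(19,1),(6,1),(6,0),(0,0),(7,1)]⟩,⟨0,[(4,0)]⟩]⟩)) (.S ⟨1,0,[0,-1,0,-1],[1,0,0,0,-1],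
  [1],(⟨0,[(35,0)]⟩,⟨0,[(36,0)]⟩),⟨0,[(4,0)]⟩,.k,(.r (-1) ⟨5,[(26,1),(6,0),(0,0),(19,2)]⟩ ⟨1,[(20,
  0),(17,0),(2,0)]⟩),⟨false,0,⟨0,[]⟩,⟨1,[(33,0),(0,0),(19,0)]⟩⟩,⟨true,0,⟨0,[(52,0)]⟩,⟨0,[(51,0)]⟩⟩,
  ⟨true,0,⟨0,[(51,0)]⟩,⟨0,[(52,0)]⟩⟩,⟨false,1,⟨1,[(33,0),(0,0),(19,0)]⟩,⟨0,[]⟩⟩,[.o ⟨false,1,⟨1,[(5,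
  0),(0,0),(42,0),(2,0),(1,0)]⟩,⟨0,[(9,0)]⟩⟩,.a ⟨true,1,⟨1,[(5,0),(0,0),(45,0),(1,1)]⟩,⟨0,[(3,0)]⟩⟩
  ⟨false,1,⟨1,[(53,0),(0,0)]⟩,⟨0,[(56,0)]⟩⟩ ⟨true,1,⟨0,[(52,0),(1,0)]⟩,⟨0,[(21,0),(6,0)]⟩⟩,.a ⟨true,
  0,⟨7,[(5,4),(0,2),(7,0),(5,0),(29,0),(3,0)]⟩,⟨0,[(34,0)]⟩⟩ ⟨true,0,⟨0,[]⟩,⟨0,[(56,0)]⟩⟩ ⟨false,1,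
  ⟨0,[(52,0),(1,0)]⟩,⟨0,[(51,0)]⟩⟩,.a ⟨true,0,⟨0,[(6,0)]⟩,⟨0,[(0,0)]⟩⟩ ⟨false,1,⟨1,[(53,0),(0,0)]⟩,
  ⟨1,[(40,0),(0,0)]⟩⟩ ⟨true,1,⟨5,[(26,1),(6,0),(0,0),(19,2)]⟩,⟨0,[(21,0),(6,0)]⟩⟩]⟩)) (.Q [0,0,0,0,
  0,1,0,0,0,0,0,-1] (.ed true [1,-1,0,0,1] .k) (.R ⟨0,false,false,true,[0,0,0,0,1],[0,1],[1,1,1,1],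
  (⟨0,[(36,0)]⟩,⟨0,[(35,0)]⟩),(⟨0,[(47,0)]⟩,⟨0,[(46,0)]⟩),⟨0,[(0,0)]⟩,.k,.k,(.r 0 ⟨2,[(11,0),(36,0),
  (3,1)]⟩ ⟨1,[(20,0),(17,0),(2,0),(12,1)]⟩),(.r 0 ⟨2,[(11,0),(36,0),(3,1)]⟩ ⟨1,[(20,0),(17,0),(2,0),
  (12,1)]⟩),.k,.k,⟨true,0,⟨0,[]⟩,⟨1,[(40,0),(0,0)]⟩⟩,⟨false,1,⟨6,[(1,0),(3,3),(6,4),(1,0),(4,1),(13,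
  1),(16,0)]⟩,⟨1,[(34,1),(5,0),(0,0)]⟩⟩,⟨true,0,⟨9,[(14,1),(5,2),(17,0),(1,0),(0,1),(12,1)]⟩,⟨2,
  [(11,0),(36,0),(3,1)]⟩⟩,⟨false,1,⟨23,[(1,9),(3,5),(6,1),(1,9),(4,19),(13,7),(15,6),(4,6)]⟩,⟨0,
  [(34,0),(17,0)]⟩⟩,⟨false,0,⟨0,[]⟩,⟨0,[]⟩⟩,⟨false,0,⟨0,[]⟩,⟨0,[]⟩⟩,[.e ⟨false,0,⟨0,[(51,0)]⟩,⟨5,
  [(26,1),(6,0),(0,0),(19,2)]⟩⟩ ⟨false,0,⟨2,[(1,1),(3,0),(11,1),(1,0),(3,2)]⟩,⟨5,[(26,1),(6,0),(0,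
  6),(5,2),(0,2),(12,2)]⟩⟩,.o ⟨false,1,⟨7,[(9,1),(10,1),(1,1),(10,1),(15,2),(3,0),(0,1)]⟩,⟨0,[(52,
  0)]⟩⟩,.a ⟨true,0,⟨0,[(34,0)]⟩,⟨8,[(1,0),(3,3),(0,3),(7,0),(4,1),(30,0)]⟩⟩ ⟨false,0,⟨9,[(14,1),(5,
  2),(17,0),(1,0),(0,1),(12,1)]⟩,⟨5,[(26,1),(6,0),(0,0),(19,2)]⟩⟩ ⟨true,0,⟨1,[(1,0),(4,0),(10,0),(5,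
  1)]⟩,⟨0,[(34,0),(17,0)]⟩⟩,.e ⟨true,0,⟨0,[(51,0)]⟩,⟨0,[(52,0)]⟩⟩ ⟨true,0,⟨2,[(1,1),(3,0),(11,1),(1,
  0),(3,2)]⟩,⟨1,[(34,1),(5,0),(0,0),(10,1)]⟩⟩]⟩) (.S ⟨1,0,[0,-1,1],[1,1,0,0,-1],[1,0,1,1],(⟨0,[(35,
  0),(8,0)]⟩,⟨0,[(0,0)]⟩),⟨0,[(35,0)]⟩,(.r (-1) ⟨1,[(20,0),(17,0),(2,0),(12,1)]⟩ ⟨2,[(11,0),(36,0),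
  (3,1)]⟩),.k,⟨false,0,⟨0,[]⟩,⟨1,[(33,0),(0,0),(19,0)]⟩⟩,⟨true,0,⟨0,[(52,0)]⟩,⟨0,[(51,0)]⟩⟩,⟨true,0,
  ⟨0,[(51,0)]⟩,⟨0,[(52,0)]⟩⟩,⟨false,1,⟨1,[(33,0),(0,0),(19,0)]⟩,⟨0,[]⟩⟩,[.o ⟨false,1,⟨6,[(1,0),(3,
  2),(0,1),(7,0),(4,1),(13,0),(15,2),(4,2)]⟩,⟨0,[(9,0),(42,0)]⟩⟩,.e ⟨false,1,⟨16,[(9,0),(10,5),(1,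
  3),(7,0),(2,0),(4,1),(14,2),(0,12)]⟩,⟨2,[(11,0),(36,0),(3,1)]⟩⟩ ⟨false,1,⟨0,[(54,0)]⟩,⟨0,[(48,
  0)]⟩⟩,.a ⟨true,0,⟨2,[(1,0),(3,1),(11,0),(1,1)]⟩,⟨1,[(34,1),(5,0),(0,0)]⟩⟩ ⟨true,0,⟨9,[(14,1),(5,
  2),(17,0),(1,0),(0,1),(12,1)]⟩,⟨2,[(11,0),(36,0),(3,1)]⟩⟩ ⟨false,1,⟨1,[(40,0),(0,0),(12,1)]⟩,⟨3,
  [(11,0),(36,0),(1,0)]⟩⟩,.e ⟨false,1,⟨16,[(9,0),(10,5),(1,3),(7,0),(2,0),(4,1),(14,2),(0,12)]⟩,⟨0,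
  [(52,0)]⟩⟩ ⟨false,1,⟨0,[(54,0)]⟩,⟨0,[(56,0)]⟩⟩]⟩))) (.Q [0,0,-1,0,0,0,0,0,-1,1,0,-1] (.p false [0,
  0,0,0,1] [1] (⟨0,[(34,0)]⟩,⟨0,[(33,0)]⟩) .k 1 (⟨0,[]⟩,⟨0,[]⟩) .k .k) (.S ⟨1,0,[0,-1,1],[1,1,0,0,
  -1],[1,0,1,1],(⟨0,[(34,0),(8,0)]⟩,⟨0,[(1,0),(4,0)]⟩),⟨0,[(34,0)]⟩,(.r (-1) ⟨1,[(19,0),(17,0),(2,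
  0),(12,1)]⟩ ⟨2,[(10,0),(36,0),(3,1)]⟩),.k,⟨false,0,⟨0,[]⟩,⟨1,[(32,0),(0,0),(19,0)]⟩⟩,⟨true,0,⟨0,
  [(51,0)]⟩,⟨0,[(50,0)]⟩⟩,⟨true,0,⟨0,[(50,0)]⟩,⟨0,[(51,0)]⟩⟩,⟨false,1,⟨1,[(32,0),(0,0),(19,0)]⟩,⟨0,
  []⟩⟩,[.o ⟨false,1,⟨1,[(0,0),(4,0),(42,0),(4,0)]⟩,⟨0,[(8,0),(42,0)]⟩⟩,.e ⟨false,1,⟨16,[(8,0),(10,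
  5),(1,3),(7,0),(2,0),(4,1),(14,2),(0,12)]⟩,⟨2,[(10,0),(36,0),(3,1)]⟩⟩ ⟨false,1,⟨0,[(53,0)]⟩,⟨0,
  [(47,0)]⟩⟩,.a ⟨true,0,⟨0,[(0,0)]⟩,⟨1,[(33,1),(5,0),(0,0)]⟩⟩ ⟨true,0,⟨9,[(13,1),(5,2),(17,0),(1,0),
  (0,1),(12,1)]⟩,⟨2,[(10,0),(36,0),(3,1)]⟩⟩ ⟨false,1,⟨1,[(39,0),(0,0),(12,1)]⟩,⟨3,[(10,0),(36,0),(1,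
  0)]⟩⟩,.e ⟨false,1,⟨16,[(8,0),(10,5),(1,3),(7,0),(2,0),(4,1),(14,2),(0,12)]⟩,⟨0,[(51,0)]⟩⟩ ⟨false,
  1,⟨0,[(53,0)]⟩,⟨0,[(55,0)]⟩⟩]⟩) (.S ⟨1,0,[0,1,0,-1],[0,0,0,0,1],[1,2],(⟨0,[(35,0)]⟩,⟨0,[(34,0)]⟩),
  ⟨0,[(1,0),(4,0)]⟩,.k,(.r 0 ⟨2,[(10,0),(36,0),(3,1)]⟩ ⟨1,[(19,0),(17,0),(2,0),(12,1)]⟩),⟨false,0,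
  ⟨0,[]⟩,⟨1,[(32,0),(0,0),(19,0)]⟩⟩,⟨true,0,⟨0,[(51,0)]⟩,⟨0,[(50,0)]⟩⟩,⟨true,0,⟨0,[(50,0)]⟩,⟨0,[(51,
  0)]⟩⟩,⟨false,1,⟨1,[(32,0),(0,0),(19,0)]⟩,⟨0,[]⟩⟩,[.o ⟨false,0,⟨3,[(0,2),(1,0),(20,0),(1,0),(12,0),
  (12,1)]⟩,⟨10,[(4,8),(6,2),(1,4),(5,4),(12,1),(15,2),(4,7)]⟩⟩,.a ⟨true,0,⟨0,[(33,0),(17,0)]⟩,⟨7,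
  [(4,6),(0,0),(7,2),(5,2),(29,2),(3,2)]⟩⟩ ⟨false,0,⟨3,[(10,0),(36,0),(1,0)]⟩,⟨1,[(32,0),(0,0),(19,
  0)]⟩⟩ ⟨true,0,⟨0,[(51,0)]⟩,⟨9,[(0,0),(4,0),(7,1),(5,2),(17,0),(2,0),(12,1)]⟩⟩,.e ⟨false,0,⟨0,[(55,
  0)]⟩,⟨0,[(53,0)]⟩⟩ ⟨false,0,⟨0,[(51,0)]⟩,⟨16,[(8,0),(10,5),(1,3),(7,0),(2,0),(4,1),(14,2),(0,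
  12)]⟩⟩,.o ⟨false,0,⟨0,[(0,0)]⟩,⟨12,[(4,4),(6,4),(1,0),(5,0),(12,7),(16,0),(3,0)]⟩⟩]⟩))))) (.Q [0,
  0,2,0,-1,0,0,0,1,0,0,1] (.p true [0,0,0,0,1] [] (⟨0,[(31,0)]⟩,⟨0,[(30,0)]⟩) .k 0 (⟨0,[]⟩,⟨0,[]⟩)
  .k .k) (.Q [0,0,0,0,0,-2,0,0,0,0,0,1] (.p true [0,0,0,0,1] [] (⟨0,[(32,0)]⟩,⟨0,[(31,0)]⟩) .k 0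
  (⟨0,[]⟩,⟨0,[]⟩) .k .k) (.S ⟨1,0,[0,1,-1,-2],[0,-1,0,0,1],[1,2,-1,-1],(⟨1,[(0,0),(32,0)]⟩,⟨0,[(32,
  0),(8,0)]⟩),⟨0,[(0,0)]⟩,(.r 0 ⟨2,[(8,0),(36,0),(3,1)]⟩ ⟨1,[(17,0),(17,0),(2,0),(12,1)]⟩),(.r 0 ⟨0,
  [(8,0),(40,0)]⟩ ⟨11,[(2,1),(0,1),(7,1),(5,8),(17,6),(2,6),(12,13)]⟩),⟨false,0,⟨0,[]⟩,⟨1,[(30,0),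
  (0,0),(19,0)]⟩⟩,⟨true,0,⟨0,[(49,0)]⟩,⟨0,[(48,0)]⟩⟩,⟨true,0,⟨0,[(48,0)]⟩,⟨0,[(49,0)]⟩⟩,⟨false,1,⟨1,
  [(30,0),(0,0),(19,0)]⟩,⟨0,[]⟩⟩,[.e ⟨false,0,⟨2,[(8,1),(36,1),(3,0)]⟩,⟨11,[(2,1),(0,1),(7,1),(5,2),
  (17,0),(2,0),(12,13)]⟩⟩ ⟨false,0,⟨0,[(8,0),(40,0)]⟩,⟨3,[(17,2),(1,1),(15,0),(2,0),(12,3)]⟩⟩,.o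
  ⟨false,0,⟨1,[(1,1),(6,0),(1,0),(35,0),(2,0)]⟩,⟨4,[(3,3),(5,3),(1,1),(5,1),(12,0),(16,1),(3,1)]⟩⟩,
  .o ⟨false,0,⟨1,[(1,0),(29,0),(14,0)]⟩,⟨0,[(3,0),(5,0)]⟩⟩,.a ⟨true,(-1),⟨0,[(1,0)]⟩,⟨0,[(3,0),(4,
  0),(38,0),(3,0)]⟩⟩ ⟨false,0,⟨0,[(8,0)]⟩,⟨0,[(2,0),(0,0),(47,0)]⟩⟩ ⟨true,0,⟨0,[(8,0),(40,0)]⟩,⟨5,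
  [(2,1),(0,1),(7,1),(5,2),(17,0),(2,0),(12,1)]⟩⟩]⟩) (.Q [0,0,0,0,0,1,0,0,0,0,0,-1] (.ed true [1,-1,
  0,0,1] .k) (.R ⟨0,false,false,true,[0,0,0,0,1],[1,0,-1,0,1],[1,1,0,-1],(⟨0,[(34,0)]⟩,⟨0,[(33,
  0)]⟩),(⟨0,[(34,0),(5,0)]⟩,⟨0,[(0,0),(29,0)]⟩),⟨0,[(0,0)]⟩,.k,.k,(.r 0 ⟨2,[(9,0),(36,0),(3,1)]⟩ ⟨1,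
  [(18,0),(17,0),(2,0),(12,1)]⟩),.k,.k,.k,⟨true,0,⟨0,[(19,0),(30,0),(1,0)]⟩,⟨0,[(26,0)]⟩⟩,⟨false,0,
  ⟨0,[(35,0)]⟩,⟨3,[(16,1),(14,0),(0,0),(5,1),(8,0)]⟩⟩,⟨true,0,⟨0,[(50,0)]⟩,⟨0,[(49,0)]⟩⟩,⟨false,0,
  ⟨0,[(17,0),(32,0)]⟩,⟨0,[(22,0),(29,0)]⟩⟩,⟨false,0,⟨0,[]⟩,⟨0,[]⟩⟩,⟨false,0,⟨0,[]⟩,⟨0,[]⟩⟩,[.o
  ⟨false,(-1),⟨0,[(2,0),(6,0),(11,0)]⟩,⟨2,[(4,0),(1,1),(3,0),(1,0),(3,0),(30,0),(4,1)]⟩⟩,.a ⟨true,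
  (-1),⟨0,[(2,0),(6,0),(7,0)]⟩,⟨1,[(4,0),(1,0),(8,0),(0,0),(35,0)]⟩⟩ ⟨true,0,⟨0,[(50,0)]⟩,⟨11,[(3,
  1),(0,1),(7,1),(5,2),(17,0),(2,0),(12,1)]⟩⟩ ⟨false,0,⟨12,[(2,1),(1,1),(4,4),(7,10),(6,1),(12,1),
  (8,2)]⟩,⟨0,[(22,0),(29,0)]⟩⟩,.o ⟨false,0,⟨0,[(2,0),(7,0)]⟩,⟨0,[(31,0)]⟩⟩,.o ⟨false,0,⟨1,[(2,0),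
  (29,0),(14,0)]⟩,⟨0,[(4,0),(5,0)]⟩⟩]⟩) (.R ⟨1,false,false,true,[0,0,0,0,1],[1,0,-1,0,1],[1,1],(⟨0,
  [(34,0)]⟩,⟨0,[(33,0)]⟩),(⟨0,[(34,0),(5,0)]⟩,⟨0,[(1,0),(3,0)]⟩),⟨0,[(0,0)]⟩,.k,.k,(.r 0 ⟨2,[(9,0),
  (36,0),(3,1)]⟩ ⟨1,[(18,0),(17,0),(2,0),(12,1)]⟩),.k,.k,.k,⟨true,0,⟨0,[(19,0),(32,0)]⟩,⟨0,[(37,0),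
  (0,0)]⟩⟩,⟨false,0,⟨0,[(35,0)]⟩,⟨3,[(16,1),(14,0),(0,0),(5,1),(8,0)]⟩⟩,⟨true,0,⟨0,[]⟩,⟨0,[(54,
  0)]⟩⟩,⟨false,0,⟨0,[(17,0),(32,0)]⟩,⟨0,[(22,0),(29,0)]⟩⟩,⟨false,1,⟨16,[(7,0),(10,5),(1,3),(7,0),(2,
  0),(4,1),(14,2),(0,12)]⟩,⟨0,[(50,0)]⟩⟩,⟨false,0,⟨0,[(17,0)]⟩,⟨5,[(2,1),(3,1),(4,1),(10,3),(24,0),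
  (4,2)]⟩⟩,[.o ⟨false,(-1),⟨0,[(2,0),(6,0),(11,0)]⟩,⟨2,[(4,0),(1,1),(3,0),(1,0),(3,0),(30,0),(4,
  1)]⟩⟩,.a ⟨true,(-1),⟨0,[(2,0),(6,0),(7,0)]⟩,⟨1,[(4,0),(1,0),(8,0),(0,0),(35,0)]⟩⟩ ⟨true,0,⟨0,[]⟩,
  ⟨1,[(38,0),(0,0)]⟩⟩ ⟨false,0,⟨12,[(2,1),(1,1),(4,4),(7,10),(6,1),(12,1),(8,2)]⟩,⟨0,[(22,0),(29,
  0)]⟩⟩,.o ⟨false,0,⟨0,[(2,0),(7,0)]⟩,⟨0,[(31,0)]⟩⟩,.o ⟨false,0,⟨1,[(2,0),(29,0),(14,0)]⟩,⟨0,[(4,0),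
  (5,0)]⟩⟩]⟩))) (.Q [0,0,0,0,0,0,0,0,-1,1,0,-1] (.p false [0,0,0,0,1] [1] (⟨0,[(32,0)]⟩,⟨0,[(31,
  0)]⟩) .k 1 (⟨0,[]⟩,⟨0,[]⟩) .k .k) (.Q [0,0,0,0,0,-1,0,0,0,0,0,1] (.ed false [1,-1,0,0,1] .k) (.S
  ⟨1,0,[0,0,1],[1,1,0,0,-1],[0,-1,1],(⟨0,[(33,0),(8,0)]⟩,⟨0,[(0,0)]⟩),⟨0,[(33,0)]⟩,(.r (-1) ⟨1,[(18,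
  0),(17,0),(2,0),(12,1)]⟩ ⟨2,[(9,0),(36,0),(3,1)]⟩),.k,⟨true,0,⟨0,[(50,0)]⟩,⟨0,[(49,0)]⟩⟩,⟨false,0,
  ⟨0,[(50,0)]⟩,⟨16,[(7,0),(10,5),(1,3),(7,0),(2,0),(4,1),(14,2),(0,12)]⟩⟩,⟨false,1,⟨1,[(31,0),(0,0),
  (19,0)]⟩,⟨0,[]⟩⟩,⟨true,0,⟨0,[(54,0)]⟩,⟨0,[]⟩⟩,[.a ⟨true,0,⟨0,[(1,0)]⟩,⟨0,[(32,0)]⟩⟩ ⟨false,1,⟨1,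
  [(31,0),(0,0),(19,0)]⟩,⟨3,[(9,0),(36,0),(1,0)]⟩⟩ ⟨true,0,⟨1,[(38,0),(0,0)]⟩,⟨0,[]⟩⟩,.o ⟨false,1,
  ⟨1,[(1,1),(45,0),(4,0)]⟩,⟨0,[(7,0),(42,0)]⟩⟩,.o ⟨false,1,⟨1,[(2,0),(28,0)]⟩,⟨0,[(3,0),(46,0)]⟩⟩,
  .e ⟨false,1,⟨0,[(52,0)]⟩,⟨0,[(54,0)]⟩⟩ ⟨false,1,⟨1,[(31,0),(0,0),(19,0)]⟩,⟨0,[]⟩⟩]⟩) (.R ⟨0,false,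
  false,true,[0,0,0,0,1],[1,-1],[1,1,-1,-1],(⟨0,[(34,0)]⟩,⟨0,[(33,0)]⟩),(⟨0,[(44,0)]⟩,⟨0,[(45,0)]⟩),
  ⟨0,[(0,0)]⟩,.k,.k,(.r 0 ⟨2,[(9,0),(36,0),(3,1)]⟩ ⟨1,[(18,0),(17,0),(2,0),(12,1)]⟩),(.r 0 ⟨1,[(18,
  0),(17,0),(2,0)]⟩ ⟨5,[(24,1),(6,0),(0,0),(19,2)]⟩),.k,.k,⟨true,0,⟨0,[]⟩,⟨1,[(38,0),(0,0)]⟩⟩,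
  ⟨false,0,⟨0,[(1,0)]⟩,⟨1,[(32,1),(14,0),(3,0)]⟩⟩,⟨false,1,⟨5,[(24,1),(6,0),(0,0),(19,2)]⟩,⟨11,[(3,
  1),(0,1),(7,1),(5,2),(17,0),(2,0),(12,1)]⟩⟩,⟨true,0,⟨0,[(1,0),(48,0)]⟩,⟨0,[(7,0)]⟩⟩,⟨false,0,⟨0,
  []⟩,⟨0,[]⟩⟩,⟨false,0,⟨0,[]⟩,⟨0,[]⟩⟩,[.e ⟨false,0,⟨0,[(9,0)]⟩,⟨1,[(18,0),(17,0),(2,0),(12,1)]⟩⟩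
  ⟨false,0,⟨0,[(4,0),(4,0)]⟩,⟨0,[(7,0),(44,0)]⟩⟩,.o ⟨false,0,⟨0,[(50,0)]⟩,⟨7,[(7,1),(10,1),(1,1),
  (10,1),(15,2),(3,0),(0,1)]⟩⟩,.a ⟨true,0,⟨0,[(32,0)]⟩,⟨0,[(1,0)]⟩⟩ ⟨true,0,⟨2,[(9,0),(36,0),(3,
  1)]⟩,⟨11,[(3,1),(0,1),(7,1),(5,2),(17,0),(2,0),(12,1)]⟩⟩ ⟨false,0,⟨0,[(1,0),(48,0)]⟩,⟨0,[(7,0),
  (44,0)]⟩⟩,.o ⟨false,0,⟨0,[(3,0),(46,0)]⟩,⟨1,[(2,0),(28,0)]⟩⟩]⟩)) (.Q [0,-1,0,0,1,0,0,0,-1,0,0,-1]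
  (.p false [0,0,0,0,1] [] (⟨0,[(33,0)]⟩,⟨0,[(32,0)]⟩) .k 0 (⟨0,[]⟩,⟨0,[]⟩) .k .k) (.R ⟨1,false,
  false,false,[0,0,1],[0,0,0,0,1],[1,0,0,0,0,0,0,1],(⟨0,[(41,0)]⟩,⟨0,[(40,0)]⟩),(⟨0,[(34,0)]⟩,⟨0,
  [(33,0)]⟩),⟨0,[(30,0)]⟩,.k,.k,.k,.k,(.r (-1) ⟨6,[(6,1),(12,0),(0,3),(3,2),(7,1),(6,1),(12,2)]⟩ ⟨0,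
  [(26,0)]⟩),.k,⟨true,0,⟨0,[(19,0),(32,0)]⟩,⟨0,[(37,0),(0,0)]⟩⟩,⟨false,0,⟨0,[(1,0),(33,0)]⟩,⟨0,[(4,
  0),(11,0)]⟩⟩,⟨true,0,⟨0,[]⟩,⟨0,[(54,0)]⟩⟩,⟨false,0,⟨0,[(1,0),(15,0),(32,0)]⟩,⟨8,[(2,2),(3,5),(5,
  1),(5,0),(4,1),(14,0),(13,1)]⟩⟩,⟨false,1,⟨16,[(7,0),(10,5),(1,3),(7,0),(2,0),(4,1),(14,2),(0,
  12)]⟩,⟨0,[(50,0)]⟩⟩,⟨false,0,⟨0,[(1,0),(15,0)]⟩,⟨0,[(6,0)]⟩⟩,[.o ⟨false,0,⟨0,[(7,0),(42,0)]⟩,⟨0,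
  [(0,0)]⟩⟩,.o ⟨false,0,⟨0,[(1,0)]⟩,⟨0,[(31,0)]⟩⟩,.o ⟨false,1,⟨3,[(16,1),(14,0),(0,0),(5,1),(8,0)]⟩,
  ⟨0,[(25,0)]⟩⟩,.a ⟨true,0,⟨0,[(38,0)]⟩,⟨0,[(35,0)]⟩⟩ ⟨true,0,⟨1,[(11,0),(3,0),(4,0)]⟩,⟨0,[(37,0),
  (0,0)]⟩⟩ ⟨false,0,⟨0,[(1,0),(33,0)]⟩,⟨0,[(0,0),(37,0)]⟩⟩]⟩) (.Q [0,0,0,0,0,1,0,0,0,0,0,-1] (.ed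
  true [1,-1,0,0,1] .k) (.R ⟨0,false,false,true,[0,0,0,0,1],[1,0,-1,0,1],[1,1,0,-1],(⟨0,[(35,0)]⟩,
  ⟨0,[(34,0)]⟩),(⟨0,[(35,0),(5,0)]⟩,⟨0,[(0,0),(30,0)]⟩),⟨0,[(0,0)]⟩,.k,.k,(.r 0 ⟨2,[(10,0),(36,0),
  (3,1)]⟩ ⟨1,[(19,0),(17,0),(2,0),(12,1)]⟩),.k,.k,.k,⟨true,0,⟨0,[(20,0),(30,0),(1,0)]⟩,⟨0,[(27,
  0)]⟩⟩,⟨false,0,⟨0,[(36,0)]⟩,⟨3,[(17,1),(14,0),(0,0),(5,1),(8,0)]⟩⟩,⟨true,0,⟨0,[(51,0)]⟩,⟨0,[(50,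
  0)]⟩⟩,⟨false,0,⟨0,[(18,0),(32,0)]⟩,⟨0,[(23,0),(29,0)]⟩⟩,⟨false,0,⟨0,[]⟩,⟨0,[]⟩⟩,⟨false,0,⟨0,[]⟩,
  ⟨0,[]⟩⟩,[.o ⟨false,(-1),⟨0,[(1,0),(36,0)]⟩,⟨5,[(3,0),(3,3),(5,1),(3,1),(14,0),(15,1),(4,3)]⟩⟩,.a
  ⟨true,(-1),⟨0,[(1,0),(16,0),(32,0)]⟩,⟨8,[(3,2),(3,5),(5,1),(5,0),(4,1),(14,0),(13,1)]⟩⟩ ⟨true,0,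
  ⟨0,[(51,0)]⟩,⟨11,[(4,1),(0,1),(7,1),(5,2),(17,0),(2,0),(12,1)]⟩⟩ ⟨false,0,⟨4,[(1,0),(3,0),(4,0),
  (7,3),(6,0),(12,0),(8,0)]⟩,⟨0,[(23,0),(29,0)]⟩⟩,.o ⟨false,0,⟨0,[(2,0)]⟩,⟨0,[(32,0)]⟩⟩,.o ⟨false,0,
  ⟨0,[(4,0),(46,0)]⟩,⟨1,[(3,0),(28,0)]⟩⟩]⟩) (.S ⟨1,0,[0,-1,1],[1,1,0,0,-1],[1,0,1,1],(⟨0,[(34,0),(8,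
  0)]⟩,⟨0,[(0,0)]⟩),⟨0,[(34,0)]⟩,(.r (-1) ⟨1,[(19,0),(17,0),(2,0),(12,1)]⟩ ⟨2,[(10,0),(36,0),(3,
  1)]⟩),.k,⟨false,0,⟨0,[]⟩,⟨1,[(32,0),(0,0),(19,0)]⟩⟩,⟨true,0,⟨0,[(51,0)]⟩,⟨0,[(50,0)]⟩⟩,⟨true,0,⟨0,
  [(50,0)]⟩,⟨0,[(51,0)]⟩⟩,⟨false,1,⟨1,[(32,0),(0,0),(19,0)]⟩,⟨0,[]⟩⟩,[.a ⟨true,1,⟨1,[(5,1),(46,0),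
  (0,0)]⟩,⟨0,[(1,0)]⟩⟩ ⟨true,0,⟨11,[(4,1),(0,1),(7,1),(5,2),(17,0),(2,0),(12,1)]⟩,⟨0,[(51,0)]⟩⟩
  ⟨false,1,⟨1,[(32,0),(0,0),(19,0)]⟩,⟨3,[(10,0),(36,0),(1,0)]⟩⟩,.e ⟨false,1,⟨16,[(8,0),(10,5),(1,3),
  (7,0),(2,0),(4,1),(14,2),(0,12)]⟩,⟨2,[(10,0),(36,0),(3,1)]⟩⟩ ⟨false,1,⟨0,[(53,0)]⟩,⟨0,[(47,0)]⟩⟩,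
  .o ⟨false,1,⟨1,[(3,0),(28,0)]⟩,⟨0,[(4,0),(46,0)]⟩⟩,.o ⟨false,1,⟨0,[(32,0)]⟩,⟨0,[(2,
  0)]⟩⟩]⟩))))))))) (.Q [0,1,0,0,0,0,0,0,1,-1,0,1] (.p true [0,0,0,0,1] [1] (⟨0,[(27,0)]⟩,⟨0,[(26,
  0)]⟩) .k 1 (⟨0,[]⟩,⟨0,[]⟩) .k .k) (.R ⟨2,true,false,true,[0,1],[1,0,0,0,-1],[0,0,1],(⟨0,[]⟩,⟨0,
  []⟩),(⟨0,[(27,0)]⟩,⟨0,[(28,0)]⟩),⟨0,[]⟩,.k,.k,.k,(.r 0 ⟨1,[(12,0),(17,0),(2,0)]⟩ ⟨5,[(18,1),(6,0),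
  (0,0),(19,2)]⟩),.k,.k,⟨true,0,⟨1,[(32,0),(0,0)]⟩,⟨0,[]⟩⟩,⟨false,0,⟨0,[(1,0),(41,0)]⟩,⟨1,[(26,1),
  (14,0),(3,0)]⟩⟩,⟨true,0,⟨0,[(44,0)]⟩,⟨0,[(43,0)]⟩⟩,⟨false,0,⟨0,[(1,0)]⟩,⟨5,[(12,1),(1,1),(10,0),
  (0,6),(14,2),(3,0),(0,0)]⟩⟩,⟨false,1,⟨1,[(25,0),(0,0),(19,0)]⟩,⟨0,[]⟩⟩,⟨true,0,⟨0,[(1,0),(41,0)]⟩,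
  ⟨0,[(0,0)]⟩⟩,[]⟩) (.R ⟨2,false,false,true,[0,1],[1,0,0,0,-1],[0,0,1],(⟨0,[]⟩,⟨0,[]⟩),(⟨0,[(27,
  0)]⟩,⟨0,[(28,0)]⟩),⟨0,[]⟩,.k,.k,.k,(.r 0 ⟨1,[(12,0),(17,0),(2,0)]⟩ ⟨5,[(18,1),(6,0),(0,0),(19,
  2)]⟩),.k,.k,⟨true,0,⟨1,[(32,0),(0,0)]⟩,⟨0,[]⟩⟩,⟨false,0,⟨15,[(0,6),(0,7),(4,0),(5,2),(9,0),(2,0),
  (4,1),(9,4)]⟩,⟨1,[(26,1),(14,0),(3,0)]⟩⟩,⟨true,0,⟨0,[(44,0)]⟩,⟨0,[(43,0)]⟩⟩,⟨false,0,⟨0,[(1,0)]⟩,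
  ⟨5,[(12,1),(1,1),(10,0),(0,6),(14,2),(3,0),(0,0)]⟩⟩,⟨false,1,⟨1,[(25,0),(0,0),(19,0)]⟩,⟨0,[]⟩⟩,
  ⟨false,0,⟨0,[(0,0)]⟩,⟨1,[(25,0),(0,2),(14,0)]⟩⟩,[.a ⟨true,0,⟨15,[(0,6),(0,7),(4,0),(5,2),(9,0),(2,
  0),(4,1),(9,4)]⟩,⟨0,[(26,0)]⟩⟩ ⟨true,0,⟨1,[(32,0),(0,0)]⟩,⟨0,[]⟩⟩ ⟨false,0,⟨15,[(0,6),(0,7),(4,0),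
  (5,2),(9,0),(2,0),(4,1),(9,4)]⟩,⟨1,[(26,1),(14,0),(3,0)]⟩⟩,.e ⟨false,1,⟨1,[(25,0),(0,0),(19,0)]⟩,
  ⟨3,[(3,0),(36,0),(1,0)]⟩⟩ ⟨false,0,⟨0,[(0,0)]⟩,⟨3,[(25,0),(0,4),(13,1),(0,1),(3,0)]⟩⟩,.o ⟨false,1,
  ⟨1,[(41,0),(3,0)]⟩,⟨1,[(32,0),(0,0)]⟩⟩,.fo]⟩))))))

theorem ok108 : chk K t108 l63 = true := by decide +kernel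

noncomputable def t109 : Tre :=
  (.Q [0,-1,0,-2,0,0,1,1,0,0,1] (.p true [0,0,1] [] (⟨0,[(30,0)]⟩,⟨0,[(29,0)]⟩) .k 0 (⟨0,[]⟩,⟨0,
  []⟩) .k .k) (.I [0,0,2,1,0,0,0,-1] (.I [0,0,2,0,0,2,1] (.R ⟨1,true,false,true,[0,0,1],[0,1],[1,1,
  0,0,0,0,0,1],(⟨0,[(33,0)]⟩,⟨0,[(32,0)]⟩),(⟨0,[(37,0)]⟩,⟨0,[(36,0)]⟩),⟨0,[(22,0)]⟩,.k,.k,.k,.k,(.x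
  0 ⟨0,[(0,0)]⟩ ⟨2,[(5,0),(1,0),(1,0),(6,0),(5,3),(4,1),(11,1),(0,0),(3,0)]⟩),.k,⟨true,0,⟨29,[(2,3),
  (8,17),(0,7),(3,9),(3,1),(18,0),(4,6)]⟩,⟨0,[(1,0)]⟩⟩,⟨false,1,⟨1,[(27,1),(11,0),(3,0)]⟩,⟨0,[(30,
  0)]⟩⟩,⟨false,0,⟨0,[]⟩,⟨1,[(23,0),(0,0),(19,0)]⟩⟩,⟨true,0,⟨0,[(13,0)]⟩,⟨1,[(2,0),(25,0)]⟩⟩,⟨true,0,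
  ⟨0,[(41,0)]⟩,⟨0,[(42,0)]⟩⟩,⟨false,1,⟨9,[(9,5),(0,5),(1,1),(7,1),(18,3),(3,2),(0,2)]⟩,⟨0,[(2,0)]⟩⟩,
  []⟩) (.I [0,0,-2,-2,0,0,0,1] (.R ⟨1,true,false,true,[0,0,1],[0,1],[1,1,0,0,0,0,0,1],(⟨0,[(34,0)]⟩,
  ⟨0,[(33,0)]⟩),(⟨0,[(38,0)]⟩,⟨0,[(37,0)]⟩),⟨0,[(23,0)]⟩,.k,.k,.k,.k,(.r 0 ⟨0,[(0,0)]⟩ ⟨3,[(2,2),(8,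
  1),(1,0),(10,2),(0,2),(19,0)]⟩),.k,⟨true,0,⟨7,[(0,3),(2,0),(9,1),(1,0),(5,0)]⟩,⟨0,[(2,0)]⟩⟩,
  ⟨false,1,⟨1,[(28,1),(11,0),(3,0)]⟩,⟨0,[(31,0)]⟩⟩,⟨false,0,⟨0,[]⟩,⟨1,[(24,0),(0,0),(19,0)]⟩⟩,⟨true,
  0,⟨0,[(14,0)]⟩,⟨1,[(3,0),(25,0)]⟩⟩,⟨true,0,⟨0,[(42,0)]⟩,⟨0,[(43,0)]⟩⟩,⟨false,1,⟨9,[(10,5),(0,5),
  (1,1),(7,1),(18,3),(3,2),(0,2)]⟩,⟨0,[(3,0)]⟩⟩,[]⟩) (.Q [0,-1,0,2,1,0,0,0,0,-1] (.pp true [-1,1])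
  (.S ⟨1,0,[0,1,-1,-2],[1,-1],[0,0,-1,-2],(⟨0,[(38,0)]⟩,⟨0,[(39,0)]⟩),⟨1,[(7,0),(16,0),(13,0)]⟩,.k,
  (.r (-1) ⟨2,[(18,1),(6,0),(0,0)]⟩ ⟨6,[(1,4),(4,0),(7,1),(15,1),(2,1),(12,0)]⟩),⟨true,0,⟨0,[(44,
  0)]⟩,⟨0,[(43,0)]⟩⟩,⟨false,0,⟨0,[(44,0)]⟩,⟨8,[(0,0),(0,2),(12,0),(7,0),(7,1),(14,2),(0,4)]⟩⟩,
  ⟨false,1,⟨1,[(25,0),(0,0),(19,0)]⟩,⟨0,[]⟩⟩,⟨true,0,⟨0,[(48,0)]⟩,⟨0,[]⟩⟩,[.o ⟨false,0,⟨0,[(4,0),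
  (26,0),(16,0)]⟩,⟨0,[(0,0)]⟩⟩,.o ⟨false,0,⟨0,[(4,0),(26,0)]⟩,⟨5,[(0,3),(24,0),(0,0),(14,0),(1,
  3)]⟩⟩,.o ⟨false,0,⟨5,[(3,1),(0,0),(25,0),(2,1)]⟩,⟨1,[(41,0),(3,0)]⟩⟩,.a ⟨true,(-1),⟨0,[(3,0),(0,
  0),(6,0),(1,0)]⟩,⟨0,[(45,0)]⟩⟩ ⟨true,1,⟨2,[(18,1),(6,0),(0,0)]⟩,⟨0,[(5,0)]⟩⟩ ⟨false,1,⟨2,[(18,1),
  (6,0),(0,0)]⟩,⟨1,[(1,0),(4,0),(39,0)]⟩⟩]⟩) (.Q [0,-1,0,1,1,0,0,0,0,-1] (.pp true [-1,1]) (.R ⟨2,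
  true,false,true,[0,1],[1,-1],[1,1,1,1],(⟨0,[]⟩,⟨0,[]⟩),(⟨0,[(39,0)]⟩,⟨0,[(40,0)]⟩),⟨0,[]⟩,.k,.k,
  .k,(.r 0 ⟨6,[(2,4),(4,0),(7,1),(15,1),(2,1),(12,0)]⟩ ⟨2,[(19,1),(6,0),(0,0)]⟩),.k,.k,⟨false,0,⟨5,
  [(2,2),(4,0),(7,1),(27,1),(3,0)]⟩,⟨2,[(19,1),(6,0),(0,0)]⟩⟩,⟨true,(-1),⟨1,[(1,0),(2,0),(0,0),(1,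
  0),(4,0)]⟩,⟨1,[(42,0),(3,0)]⟩⟩,⟨false,0,⟨0,[]⟩,⟨1,[(26,0),(0,0),(19,0)]⟩⟩,⟨true,(-1),⟨0,[(1,0)]⟩,
  ⟨0,[(0,0),(43,0)]⟩⟩,⟨true,0,⟨0,[(44,0)]⟩,⟨0,[(45,0)]⟩⟩,⟨false,0,⟨2,[(9,0),(9,0),(13,0),(1,0),(3,
  1)]⟩,⟨0,[(0,0)]⟩⟩,[]⟩) (.Q [0,0,0,0,0,0,-1,-1,-1,1,-1,-1] (.p false [0,0,1] [1,0,0,0,-1] (⟨0,[(36,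
  0)]⟩,⟨0,[(35,0)]⟩) .k 2 (⟨0,[(28,0)]⟩,⟨0,[(29,0)]⟩) .k (.r 1 ⟨0,[(0,0),(1,0),(0,0),(1,0),(2,0),(1,
  0),(26,3),(4,0)]⟩ ⟨5,[(4,5),(14,1),(6,3),(0,3),(18,2),(0,2)]⟩)) (.Q [0,0,0,0,0,-1,0,0,0,1,0,-1]
  (.ed true [0,1,0,0,1] .k) (.K ⟨0,[1,-1,0,0,-1],(-1),0,(⟨0,[(0,0)]⟩,⟨0,[(31,0),(7,0)]⟩),(.r (-1)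
  ⟨5,[(21,1),(6,0),(0,0),(19,2)]⟩ ⟨1,[(15,0),(17,0),(2,0)]⟩),(.r (-2) ⟨5,[(21,3),(6,4),(0,4),(19,
  2)]⟩ ⟨0,[(2,0),(1,1),(0,0),(1,0),(2,0),(1,0),(26,3),(4,0)]⟩),.k,(.r (-2) ⟨5,[(6,5),(14,3),(6,1),
  (0,1),(18,2),(0,2)]⟩ ⟨7,[(8,0),(0,2),(6,3),(16,0),(2,0),(6,0)]⟩),.k,[⟨0,[(13,0),(15,0)]⟩,⟨0,[(1,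
  0),(5,0),(0,0)]⟩,⟨2,[(12,0),(2,0),(3,0),(9,2),(4,0),(8,0),(0,0)]⟩,⟨1,[(1,1),(5,0),(25,0)]⟩]⟩) (.R
  ⟨0,false,false,false,[1,0,0,0,-1],[1,-1],[],(⟨0,[(30,0)]⟩,⟨0,[(31,0)]⟩),(⟨0,[(41,0)]⟩,⟨0,[(42,
  0)]⟩),⟨0,[(0,0)]⟩,.k,.k,(.r (-1) ⟨5,[(21,1),(6,0),(0,0),(19,2)]⟩ ⟨1,[(15,0),(17,0),(2,0)]⟩),(.r
  (-1) ⟨4,[(4,1),(12,0),(10,1),(0,1),(3,0),(2,0),(12,2)]⟩ ⟨8,[(2,2),(10,0),(2,0),(4,1),(12,0),(8,1),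
  (0,0)]⟩),.k,.k,⟨true,0,⟨13,[(4,4),(4,0),(7,1),(15,1),(2,1),(12,0)]⟩,⟨1,[(7,0),(26,0)]⟩⟩,⟨false,0,
  ⟨0,[(29,0)]⟩,⟨13,[(1,5),(10,5),(0,5),(7,1),(6,7),(19,0),(0,2)]⟩⟩,⟨true,0,⟨0,[(51,0)]⟩,⟨0,[]⟩⟩,
  ⟨false,0,⟨1,[(7,0),(21,1),(4,0)]⟩,⟨2,[(1,1),(7,0),(2,0),(0,1),(14,0),(20,1)]⟩⟩,⟨false,0,⟨0,[]⟩,⟨0,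
  []⟩⟩,⟨false,0,⟨0,[]⟩,⟨0,[]⟩⟩,[.o ⟨false,0,⟨0,[(47,0)]⟩,⟨5,[(4,1),(12,1),(10,0),(0,0),(14,2),(3,
  1)]⟩⟩,.e ⟨false,1,⟨1,[(48,0),(0,0)]⟩,⟨0,[(51,0)]⟩⟩ ⟨false,1,⟨5,[(21,1),(6,0),(0,6),(19,2)]⟩,⟨3,
  [(1,2),(6,0),(3,1),(0,1),(5,0),(8,0)]⟩⟩,.a ⟨true,0,⟨0,[(1,0),(18,0)]⟩,⟨0,[(29,0)]⟩⟩ ⟨false,1,⟨1,
  [(28,0),(0,0),(19,0)]⟩,⟨0,[]⟩⟩ ⟨true,0,⟨1,[(7,0),(21,1),(4,0)]⟩,⟨3,[(1,2),(6,0),(3,1),(0,1),(5,0),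
  (8,0)]⟩⟩,.o ⟨false,0,⟨2,[(1,2),(5,0),(1,0),(9,0),(15,0),(8,0)]⟩,⟨1,[(29,1),(14,0),(3,0)]⟩⟩]⟩))
  (.I [0,0,-2,0,0,-2,-1] (.R ⟨1,true,false,true,[0,0,1],[0,1],[1,1,0,0,0,0,0,1],(⟨0,[(38,0)]⟩,⟨0,
  [(37,0)]⟩),(⟨0,[(42,0)]⟩,⟨0,[(41,0)]⟩),⟨0,[(27,0)]⟩,.k,.k,.k,.k,(.x (-1) ⟨14,[(1,11),(4,11),(4,4),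
  (9,3),(6,11),(6,7),(1,19),(1,19),(4,3)]⟩ ⟨0,[(0,0)]⟩),.k,⟨true,0,⟨29,[(7,3),(8,17),(0,7),(3,9),(3,
  1),(18,0),(4,6)]⟩,⟨0,[(6,0)]⟩⟩,⟨false,1,⟨1,[(32,1),(11,0),(3,0)]⟩,⟨0,[(35,0)]⟩⟩,⟨false,0,⟨0,[]⟩,
  ⟨1,[(28,0),(0,0),(19,0)]⟩⟩,⟨true,0,⟨0,[(18,0)]⟩,⟨1,[(7,0),(25,0)]⟩⟩,⟨true,0,⟨0,[(46,0)]⟩,⟨0,[(47,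
  0)]⟩⟩,⟨false,1,⟨4,[(4,2),(9,2),(2,0),(7,0),(18,1),(3,2)]⟩,⟨0,[(7,0)]⟩⟩,[]⟩) (.I [0,0,2,2,0,0,0,
  -1] (.R ⟨1,true,false,true,[0,0,1],[0,1],[1,1,0,0,0,0,0,1],(⟨0,[(39,0)]⟩,⟨0,[(38,0)]⟩),(⟨0,[(43,
  0)]⟩,⟨0,[(42,0)]⟩),⟨0,[(28,0)]⟩,.k,.k,.k,.k,(.r (-1) ⟨5,[(2,1),(5,0),(9,1),(3,3),(3,1),(2,1),(4,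
  0)]⟩ ⟨0,[(0,0)]⟩),.k,⟨true,0,⟨29,[(8,3),(8,17),(0,7),(3,9),(3,1),(18,0),(4,6)]⟩,⟨0,[(7,0)]⟩⟩,
  ⟨false,1,⟨1,[(33,1),(11,0),(3,0)]⟩,⟨0,[(36,0)]⟩⟩,⟨false,0,⟨0,[]⟩,⟨1,[(29,0),(0,0),(19,0)]⟩⟩,⟨true,
  0,⟨0,[(19,0)]⟩,⟨1,[(8,0),(25,0)]⟩⟩,⟨true,0,⟨0,[(47,0)]⟩,⟨0,[(48,0)]⟩⟩,⟨false,1,⟨4,[(5,2),(9,2),(2,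
  0),(7,0),(18,1),(3,2)]⟩,⟨0,[(8,0)]⟩⟩,[]⟩) (.Q [0,0,-2,0,1,0,0,0,1,-1,0,1] (.p true [0,0,0,0,1]
  [1] (⟨0,[(32,0)]⟩,⟨0,[(31,0)]⟩) .k 1 (⟨0,[]⟩,⟨0,[]⟩) .k .k) (.Q [0,0,1,0,0,0,0,0,-1,1,0,-1] (.p
  false [0,0,0,0,1] [1] (⟨0,[(33,0)]⟩,⟨0,[(32,0)]⟩) .k 1 (⟨0,[]⟩,⟨0,[]⟩) .k .k) (.Q [0,0,0,0,0,0,0,
  0,-1,1,0,-1] (.p false [0,0,0,0,1] [1] (⟨0,[(34,0)]⟩,⟨0,[(33,0)]⟩) .k 1 (⟨0,[]⟩,⟨0,[]⟩) .k .k)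
  (.Q [0,0,1,-1,-1,0,0,1,-1,1,0,-1] (.p false [0,0,0,0,1] [1] (⟨0,[(35,0)]⟩,⟨0,[(34,0)]⟩) .k 1 (⟨0,
  []⟩,⟨0,[]⟩) .k .k) (.Q [0,0,1,0,0,0,0,0,1,-1,0,1] (.p true [0,0,0,0,1] [1] (⟨0,[(36,0)]⟩,⟨0,[(35,
  0)]⟩) .k 1 (⟨0,[]⟩,⟨0,[]⟩) .k .k) (.Q [0,0,0,0,0,-1,0,0,0,0,0,1] (.ed false [1,-1,0,0,1] .k) (.S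
  ⟨1,0,[0,1,0,-1],[0,0,0,0,1],[1,2],(⟨0,[(38,0)]⟩,⟨0,[(37,0)]⟩),⟨0,[(0,0)]⟩,.k,(.r 0 ⟨8,[(9,2),(10,
  0),(2,0),(4,1),(12,0),(8,1),(0,0)]⟩ ⟨49,[(1,7),(3,2),(5,23),(12,1),(7,10),(2,10),(4,21),(15,
  35)]⟩),⟨false,0,⟨0,[]⟩,⟨1,[(35,0),(0,0),(19,0)]⟩⟩,⟨true,0,⟨0,[(54,0)]⟩,⟨0,[(53,0)]⟩⟩,⟨true,0,⟨0,
  [(53,0)]⟩,⟨0,[(54,0)]⟩⟩,⟨false,1,⟨1,[(35,0),(0,0),(19,0)]⟩,⟨0,[]⟩⟩,[.o ⟨false,0,⟨3,[(1,2),(3,0),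
  (4,1),(39,0),(0,0)]⟩,⟨1,[(2,1),(8,1),(0,1),(7,1),(23,1),(1,3),(4,0),(4,0)]⟩⟩,.a ⟨true,0,⟨18,[(1,
  4),(8,3),(2,1),(0,1),(13,2),(3,0),(3,13),(19,0)]⟩,⟨0,[(2,0),(8,0),(0,0),(7,0),(23,0),(1,1)]⟩⟩
  ⟨false,0,⟨8,[(9,0),(10,0),(2,0),(4,0),(12,0),(8,0),(1,3)]⟩,⟨1,[(35,0),(0,0),(19,0)]⟩⟩ ⟨true,0,⟨0,
  [(54,0)]⟩,⟨13,[(11,4),(4,0),(7,1),(15,1),(2,1),(12,0)]⟩⟩,.e ⟨false,0,⟨0,[(58,0)]⟩,⟨0,[(56,0)]⟩⟩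
  ⟨false,0,⟨0,[(54,0)]⟩,⟨15,[(5,0),(5,5),(12,3),(7,0),(2,0),(4,1),(14,4),(0,8)]⟩⟩,.o ⟨false,0,⟨0,
  [(1,0)]⟩,⟨1,[(3,1),(47,0),(3,0)]⟩⟩]⟩) (.R ⟨0,false,false,false,[0,0,0,0,1],[1,-1],[1,1,1],(⟨0,
  [(38,0)]⟩,⟨0,[(37,0)]⟩),(⟨0,[(48,0)]⟩,⟨0,[(49,0)]⟩),⟨0,[(0,0)]⟩,.k,.k,(.r 0 ⟨8,[(9,2),(10,0),(2,
  0),(4,1),(12,0),(8,1),(0,0)]⟩ ⟨49,[(1,7),(3,2),(5,23),(12,1),(7,10),(2,10),(4,21),(15,35)]⟩),(.r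
  0 ⟨1,[(22,0),(17,0),(2,0)]⟩ ⟨5,[(28,1),(6,0),(0,0),(19,2)]⟩),.k,.k,⟨true,(-1),⟨7,[(1,0),(0,0),(7,
  1),(2,0),(1,5),(35,0)]⟩,⟨5,[(28,1),(6,0),(0,0),(19,2)]⟩⟩,⟨false,0,⟨0,[(3,0)]⟩,⟨2,[(1,0),(3,1),(29,
  0),(0,0)]⟩⟩,⟨true,0,⟨5,[(13,1),(0,0),(25,0),(2,1)]⟩,⟨8,[(9,0),(10,0),(2,0),(4,0),(12,0),(8,0),(1,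
  3)]⟩⟩,⟨false,1,⟨2,[(2,0),(0,1),(9,0),(14,0),(27,2)]⟩,⟨2,[(1,0),(3,0),(2,0),(10,0),(2,0),(18,0)]⟩⟩,
  ⟨false,0,⟨0,[]⟩,⟨0,[]⟩⟩,⟨false,0,⟨0,[]⟩,⟨0,[]⟩⟩,[.o ⟨false,0,⟨0,[(54,0)]⟩,⟨2,[(5,0),(5,0),(12,0),
  (10,0),(15,0)]⟩⟩,.e ⟨false,0,⟨0,[]⟩,⟨1,[(35,0),(0,0),(18,0)]⟩⟩ ⟨false,1,⟨5,[(3,3),(0,1),(23,1),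
  (26,0),(0,2)]⟩,⟨2,[(1,0),(3,0),(2,0),(10,0),(2,0),(18,0)]⟩⟩,.a ⟨true,0,⟨0,[(36,0)]⟩,⟨0,[(3,0)]⟩⟩
  ⟨false,0,⟨5,[(13,1),(0,0),(25,0),(2,1)]⟩,⟨1,[(55,0),(0,0)]⟩⟩ ⟨true,0,⟨2,[(2,0),(0,1),(9,0),(14,
  0)]⟩,⟨2,[(1,0),(3,0),(2,0),(10,0),(2,0),(18,0)]⟩⟩,.o ⟨false,0,⟨0,[(1,0)]⟩,⟨1,[(3,1),(47,0),(3,
  0)]⟩⟩]⟩)) (.Q [0,0,0,0,0,0,0,0,0,0,1,-1] (.ed true [1,0,-1,0,1] (.r (-1) ⟨2,[(27,0),(1,2),(4,1),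
  (0,1)]⟩ ⟨1,[(5,0),(9,0),(39,0)]⟩)) (.S ⟨1,0,[0,-1,-1,-2],[1,-1,0,0,-1],[1,0,-1,-1],(⟨1,[(0,0),(16,
  0),(19,0)]⟩,⟨0,[(38,0),(7,0)]⟩),⟨0,[(0,0),(16,0)]⟩,(.r (-1) ⟨5,[(28,1),(6,0),(0,0),(19,2)]⟩ ⟨1,
  [(22,0),(17,0),(2,0)]⟩),(.r (-2) ⟨5,[(28,3),(6,4),(0,4),(19,2)]⟩ ⟨0,[(9,0),(1,1),(0,0),(1,0),(2,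
  0),(1,0),(26,3),(4,0)]⟩),⟨false,0,⟨0,[]⟩,⟨1,[(35,0),(0,0),(19,0)]⟩⟩,⟨true,0,⟨0,[(54,0)]⟩,⟨0,[(53,
  0)]⟩⟩,⟨true,0,⟨0,[(53,0)]⟩,⟨0,[(54,0)]⟩⟩,⟨false,1,⟨1,[(35,0),(0,0),(19,0)]⟩,⟨0,[]⟩⟩,[.o ⟨false,1,
  ⟨5,[(2,3),(0,1),(9,3),(14,3),(22,2),(4,2)]⟩,⟨0,[(5,0),(9,0)]⟩⟩,.a ⟨true,1,⟨2,[(2,1),(0,0),(9,1),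
  (14,1),(27,2)]⟩,⟨0,[(5,0),(3,0),(1,0),(7,0)]⟩⟩ ⟨true,1,⟨5,[(28,1),(6,0),(0,0),(19,2)]⟩,⟨4,[(10,1),
  (2,0),(1,2),(0,0),(34,0)]⟩⟩ ⟨false,2,⟨2,[(28,1),(6,0),(0,0),(19,2)]⟩,⟨0,[(22,0),(0,0)]⟩⟩,.o
  ⟨false,0,⟨1,[(1,0),(0,0),(10,0),(37,0)]⟩,⟨3,[(5,1),(29,0),(0,2),(14,0)]⟩⟩,.o ⟨false,0,⟨1,[(2,0),
  (1,0),(8,0),(37,0)]⟩,⟨0,[(5,0)]⟩⟩]⟩) (.S ⟨1,0,[0,-1,1],[1,1,0,0,-1],[1,0,1,1],(⟨0,[(37,0),(8,0)]⟩,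
  ⟨5,[(0,0),(11,1),(0,1),(0,0),(2,0),(8,0),(11,4)]⟩),⟨0,[(37,0)]⟩,(.r (-1) ⟨7,[(8,1),(2,3),(20,1),
  (2,2),(0,0),(3,1),(15,4)]⟩ ⟨8,[(9,2),(10,0),(2,0),(4,1),(12,0),(8,1),(0,0)]⟩),.k,⟨false,0,⟨0,[]⟩,
  ⟨1,[(35,0),(0,0),(19,0)]⟩⟩,⟨true,0,⟨0,[(54,0)]⟩,⟨0,[(53,0)]⟩⟩,⟨true,0,⟨0,[(53,0)]⟩,⟨0,[(54,0)]⟩⟩,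
  ⟨false,1,⟨1,[(35,0),(0,0),(19,0)]⟩,⟨0,[]⟩⟩,[.o ⟨false,1,⟨1,[(3,1),(47,0),(4,0)]⟩,⟨0,[(8,0),(32,
  0)]⟩⟩,.e ⟨false,1,⟨15,[(5,0),(5,5),(12,3),(7,0),(2,0),(4,1),(14,4),(0,8)]⟩,⟨8,[(9,2),(10,0),(2,0),
  (4,1),(12,0),(8,1),(0,0)]⟩⟩ ⟨false,1,⟨0,[(56,0)]⟩,⟨0,[(50,0)]⟩⟩,.a ⟨true,0,⟨0,[(1,0)]⟩,⟨5,[(13,1),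
  (0,0),(21,5),(3,0),(2,1)]⟩⟩ ⟨true,0,⟨13,[(11,4),(4,0),(7,1),(15,1),(2,1),(12,0)]⟩,⟨8,[(9,2),(10,
  0),(2,0),(4,1),(12,0),(8,1),(0,0)]⟩⟩ ⟨false,1,⟨5,[(13,1),(0,0),(25,0),(2,1),(12,5)]⟩,⟨8,[(9,0),
  (10,0),(2,0),(4,0),(12,0),(8,0),(1,3)]⟩⟩,.e ⟨false,1,⟨15,[(5,0),(5,5),(12,3),(7,0),(2,0),(4,1),
  (14,4),(0,8)]⟩,⟨0,[(54,0)]⟩⟩ ⟨false,1,⟨0,[(56,0)]⟩,⟨0,[(58,0)]⟩⟩]⟩))) (.Q [0,0,0,0,0,-1,0,0,0,0,0,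
  1] (.ed false [1,-1,0,0,1] .k) (.S ⟨1,0,[0,0,1],[1,1,0,0,-1],[0,-1,1],(⟨0,[(36,0),(8,0)]⟩,⟨0,[(0,
  0)]⟩),⟨0,[(36,0)]⟩,(.r (-1) ⟨32,[(1,3),(8,13),(12,0),(7,3),(2,3),(4,16),(2,8),(12,24)]⟩ ⟨8,[(8,2),
  (10,0),(2,0),(4,1),(12,0),(8,1),(0,0)]⟩),.k,⟨true,0,⟨0,[(53,0)]⟩,⟨0,[(52,0)]⟩⟩,⟨false,0,⟨0,[(53,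
  0)]⟩,⟨29,[(1,1),(8,9),(12,7),(7,1),(2,1),(4,3),(14,8),(0,16)]⟩⟩,⟨false,1,⟨1,[(34,0),(0,0),(19,
  0)]⟩,⟨0,[]⟩⟩,⟨true,0,⟨0,[(57,0)]⟩,⟨0,[]⟩⟩,[.a ⟨true,0,⟨0,[(2,0)]⟩,⟨0,[(35,0)]⟩⟩ ⟨false,1,⟨1,[(34,
  0),(0,0),(19,0)]⟩,⟨8,[(8,0),(10,0),(2,0),(4,0),(12,0),(8,0),(1,3)]⟩⟩ ⟨true,0,⟨5,[(12,1),(0,0),(25,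
  0),(2,1)]⟩,⟨0,[]⟩⟩,.o ⟨false,1,⟨1,[(2,1),(47,0),(4,0)]⟩,⟨0,[(7,0),(32,0)]⟩⟩,.o ⟨false,1,⟨1,[(2,1),
  (47,0),(3,0)]⟩,⟨1,[(1,1),(7,0),(3,0),(1,0),(0,0),(0,0),(32,0)]⟩⟩,.e ⟨false,1,⟨0,[(55,0)]⟩,⟨0,[(57,
  0)]⟩⟩ ⟨false,1,⟨1,[(34,0),(0,0),(19,0)]⟩,⟨0,[]⟩⟩]⟩) (.S ⟨1,0,[0,1,1],[0,1,0,0,1],[1,2,1,1],(⟨0,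
  [(37,0),(7,0)]⟩,⟨1,[(0,0),(15,0),(16,0),(2,0)]⟩),⟨0,[(37,0)]⟩,(.r 0 ⟨1,[(21,0),(17,0),(2,0)]⟩ ⟨5,
  [(27,1),(6,0),(0,0),(19,2)]⟩),.k,⟨false,0,⟨0,[]⟩,⟨1,[(34,0),(0,0),(19,0)]⟩⟩,⟨true,0,⟨0,[(53,0)]⟩,
  ⟨0,[(52,0)]⟩⟩,⟨true,0,⟨0,[(52,0)]⟩,⟨0,[(53,0)]⟩⟩,⟨false,1,⟨1,[(34,0),(0,0),(19,0)]⟩,⟨0,[]⟩⟩,[.o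
  ⟨false,0,⟨0,[(7,0),(32,0)]⟩,⟨1,[(2,1),(47,0),(4,0)]⟩⟩,.a ⟨true,0,⟨0,[(35,0)]⟩,⟨0,[(2,0)]⟩⟩ ⟨false,
  0,⟨0,[(52,0)]⟩,⟨5,[(27,1),(6,0),(0,0),(19,2)]⟩⟩ ⟨true,0,⟨5,[(12,1),(0,0),(25,0),(2,1)]⟩,⟨0,[]⟩⟩,
  .a ⟨true,0,⟨1,[(1,1),(3,0),(2,0),(4,0),(1,0),(4,0)]⟩,⟨0,[(3,0)]⟩⟩ ⟨true,(-1),⟨2,[(8,0),(5,0),(6,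
  0),(0,0),(2,0),(14,0)]⟩,⟨5,[(27,1),(6,0),(0,0),(19,2)]⟩⟩ ⟨false,0,⟨5,[(12,1),(0,0),(25,0),(2,1)]⟩,
  ⟨1,[(54,0),(0,0)]⟩⟩,.a ⟨true,0,⟨0,[(35,0)]⟩,⟨0,[(2,0)]⟩⟩ ⟨false,0,⟨0,[(52,0)]⟩,⟨1,[(13,0),(26,0),
  (14,1)]⟩⟩ ⟨true,0,⟨0,[(57,0)]⟩,⟨0,[]⟩⟩]⟩))) (.Q [0,0,0,0,0,0,1,0,1,-1,1,1] (.p true [0,0,1] [1,0,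
  0,0,-1] (⟨0,[(42,0)]⟩,⟨0,[(41,0)]⟩) .k 2 (⟨0,[(34,0)]⟩,⟨0,[(35,0)]⟩) .k (.r 1 ⟨0,[(6,0),(1,0),(0,
  0),(1,0),(2,0),(1,0),(26,3),(4,0)]⟩ ⟨5,[(10,5),(14,1),(6,3),(0,3),(18,2),(0,2)]⟩)) (.K ⟨0,[1,0,0,
  0,-1],0,1,(⟨0,[(35,0)]⟩,⟨0,[(36,0)]⟩),.k,(.r (-1) ⟨5,[(26,1),(6,0),(0,0),(19,2)]⟩ ⟨1,[(20,0),(17,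
  0),(2,0)]⟩),(.r (-1) ⟨7,[(6,1),(2,3),(20,1),(2,2),(0,0),(3,1),(15,4)]⟩ ⟨8,[(7,2),(10,0),(2,0),(4,
  1),(12,0),(8,1),(0,0)]⟩),.k,.k,[⟨0,[(0,0)]⟩,⟨0,[(2,0)]⟩,⟨0,[(0,0),(20,0),(17,0)]⟩,⟨8,[(2,3),(2,1),
  (24,0),(2,4),(9,1),(2,3),(6,3)]⟩]⟩) (.Q [0,0,0,1,0,0,0,0,1,-1,0,1] (.p true [0,0,0,0,1] [1] (⟨0,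
  [(36,0)]⟩,⟨0,[(35,0)]⟩) .k 1 (⟨0,[]⟩,⟨0,[]⟩) .k .k) (.Q [0,0,0,0,0,-1,0,0,0,0,0,1] (.ed false [1,
  -1,0,0,1] .k) (.S ⟨1,0,[0,2,0,-1],[0,0,0,0,1],[1,1],(⟨0,[(38,0)]⟩,⟨0,[(37,0)]⟩),⟨0,[(0,0)]⟩,.k,
  (.r 0 ⟨8,[(9,2),(10,0),(2,0),(4,1),(12,0),(8,1),(0,0)]⟩ ⟨7,[(8,1),(2,3),(20,1),(2,2),(0,0),(3,1),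
  (15,4)]⟩),⟨true,0,⟨0,[]⟩,⟨0,[(58,0)]⟩⟩,⟨false,0,⟨0,[(54,0)]⟩,⟨15,[(5,0),(5,5),(12,3),(7,0),(2,0),
  (4,1),(14,4),(0,8)]⟩⟩,⟨false,1,⟨15,[(5,0),(5,5),(12,3),(7,0),(2,0),(4,1),(14,4),(0,8)]⟩,⟨0,[(54,
  0)]⟩⟩,⟨true,0,⟨0,[(58,0)]⟩,⟨0,[]⟩⟩,[.o ⟨false,(-1),⟨0,[(1,0),(7,1),(41,0)]⟩,⟨5,[(2,1),(8,0),(4,0),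
  (3,1),(14,3),(16,1),(3,6)]⟩⟩,.a ⟨true,(-1),⟨0,[(3,0),(5,0)]⟩,⟨0,[(4,0),(47,0),(3,0)]⟩⟩ ⟨true,0,⟨0,
  []⟩,⟨5,[(13,1),(0,0),(25,0),(2,1)]⟩⟩ ⟨false,0,⟨8,[(9,2),(10,0),(2,0),(4,1),(12,0),(8,1),(0,0)]⟩,
  ⟨15,[(5,0),(5,5),(12,3),(7,0),(2,0),(4,1),(14,4),(0,8)]⟩⟩,.o ⟨false,0,⟨0,[(3,0)]⟩,⟨0,[(35,0)]⟩⟩,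
  .o ⟨false,0,⟨11,[(3,7),(4,2),(1,0),(2,3),(0,0),(21,0),(6,3),(7,0)]⟩,⟨0,[(2,0),(17,0)]⟩⟩]⟩) (.R ⟨0,
  false,false,false,[0,0,0,0,1],[0,1],[1,0,2,1],(⟨0,[(38,0)]⟩,⟨0,[(37,0)]⟩),(⟨0,[(49,0)]⟩,⟨0,[(48,
  0)]⟩),⟨0,[(0,0)]⟩,.k,.k,(.r 0 ⟨8,[(9,2),(10,0),(2,0),(4,1),(12,0),(8,1),(0,0)]⟩ ⟨7,[(8,1),(2,3),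
  (20,1),(2,2),(0,0),(3,1),(15,4)]⟩),(.r 0 ⟨8,[(9,2),(10,0),(2,0),(4,1),(12,0),(8,1),(0,0)]⟩ ⟨7,[(8,
  1),(2,3),(20,1),(2,2),(0,0),(3,1),(15,4)]⟩),.k,.k,⟨false,0,⟨0,[]⟩,⟨1,[(35,0),(0,0),(18,0)]⟩⟩,
  ⟨true,1,⟨0,[(2,0),(17,0)]⟩,⟨5,[(3,5),(5,2),(3,2),(0,2),(1,1),(0,0),(0,0),(2,1)]⟩⟩,⟨true,0,⟨15,
  [(13,7),(0,1),(1,5),(0,1),(0,1),(32,0),(4,6)]⟩,⟨2,[(9,0),(10,0),(2,0),(4,0),(12,0),(8,0),(1,0)]⟩⟩,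
  ⟨false,2,⟨5,[(2,1),(8,0),(4,0),(3,1),(14,3),(16,1),(3,6)]⟩,⟨0,[(3,0),(5,0)]⟩⟩,⟨false,0,⟨0,[]⟩,⟨0,
  []⟩⟩,⟨false,0,⟨0,[]⟩,⟨0,[]⟩⟩,[.o ⟨false,1,⟨2,[(5,0),(5,0),(12,0),(10,0),(15,0)]⟩,⟨0,[(54,0)]⟩⟩,.a
  ⟨true,1,⟨15,[(5,0),(5,5),(12,3),(7,0),(2,0),(4,1),(14,4),(0,8)]⟩,⟨0,[(9,0)]⟩⟩ ⟨true,0,⟨15,[(13,7),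
  (0,1),(1,5),(0,1),(0,1),(32,0),(4,6)]⟩,⟨8,[(9,2),(10,0),(2,0),(4,1),(12,0),(8,1),(0,0)]⟩⟩ ⟨false,
  2,⟨0,[(35,0),(16,0),(3,0)]⟩,⟨0,[(3,0),(5,0)]⟩⟩,.o ⟨false,0,⟨0,[(3,0)]⟩,⟨0,[(35,0)]⟩⟩,.o ⟨false,0,
  ⟨11,[(3,7),(4,2),(1,0),(2,3),(0,0),(21,0),(6,3),(7,0)]⟩,⟨0,[(2,0),(17,0)]⟩⟩]⟩)) (.R ⟨2,true,false,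
  true,[0,1],[1,0,0,0,-1],[1,1,1,1],(⟨0,[]⟩,⟨0,[]⟩),(⟨0,[(36,0)]⟩,⟨0,[(37,0)]⟩),⟨0,[]⟩,.k,.k,.k,(.r
  0 ⟨1,[(21,0),(17,0),(2,0)]⟩ ⟨5,[(27,1),(6,0),(0,0),(19,2)]⟩),.k,.k,⟨false,0,⟨0,[(52,0)]⟩,⟨5,[(27,
  1),(6,0),(0,0),(19,2)]⟩⟩,⟨true,0,⟨0,[(3,0)]⟩,⟨0,[(2,0)]⟩⟩,⟨false,0,⟨0,[]⟩,⟨1,[(34,0),(0,0),(19,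
  0)]⟩⟩,⟨true,0,⟨0,[(0,0)]⟩,⟨0,[(2,0),(49,0)]⟩⟩,⟨true,0,⟨0,[(52,0)]⟩,⟨0,[(53,0)]⟩⟩,⟨false,1,⟨1,[(3,
  1),(50,0),(0,0)]⟩,⟨0,[(2,0)]⟩⟩,[]⟩)))) (.Q [0,0,0,0,0,-1,0,0,0,1,0,-1] (.ed true [0,1,0,0,1] .k)
  (.S ⟨1,0,[0,-1,0,-1],[1,0,0,0,-1],[1],(⟨0,[(34,0)]⟩,⟨0,[(35,0)]⟩),⟨0,[(0,0)]⟩,.k,(.r (-1) ⟨5,[(25,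
  1),(6,0),(0,0),(19,2)]⟩ ⟨1,[(19,0),(17,0),(2,0)]⟩),⟨false,0,⟨0,[]⟩,⟨1,[(32,0),(0,0),(19,0)]⟩⟩,
  ⟨true,0,⟨0,[(51,0)]⟩,⟨0,[(50,0)]⟩⟩,⟨true,0,⟨0,[(50,0)]⟩,⟨0,[(51,0)]⟩⟩,⟨false,1,⟨1,[(32,0),(0,0),
  (19,0)]⟩,⟨0,[]⟩⟩,[.a ⟨true,1,⟨0,[(11,0),(6,0),(13,0)]⟩,⟨3,[(1,2),(3,0),(0,1),(1,0),(7,1),(1,1),
  (20,0)]⟩⟩ ⟨true,0,⟨0,[]⟩,⟨5,[(10,1),(0,0),(25,0),(2,1)]⟩⟩ ⟨false,1,⟨5,[(25,1),(6,0),(0,0),(19,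
  2)]⟩,⟨0,[(50,0)]⟩⟩,.o ⟨false,2,⟨1,[(11,0),(20,1),(5,0),(14,1)]⟩,⟨2,[(1,2),(4,0),(5,0),(6,0),(0,0),
  (2,0),(14,0)]⟩⟩,.o ⟨false,1,⟨0,[(32,0)]⟩,⟨15,[(1,11),(3,2),(1,0),(2,3),(0,0),(21,0),(6,3),(7,
  0)]⟩⟩,.o ⟨false,1,⟨5,[(10,1),(0,0),(20,5),(4,0),(2,1)]⟩,⟨0,[(1,0)]⟩⟩]⟩) (.R ⟨0,false,false,true,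
  [1,0,0,0,-1],[0,1],[0,0,1],(⟨0,[(34,0)]⟩,⟨0,[(35,0)]⟩),(⟨0,[(46,0)]⟩,⟨0,[(45,0)]⟩),⟨0,[(0,0)]⟩,.k,
  .k,(.r (-1) ⟨5,[(25,1),(6,0),(0,0),(19,2)]⟩ ⟨1,[(19,0),(17,0),(2,0)]⟩),(.r (-1) ⟨5,[(25,1),(6,0),
  (0,0),(19,2)]⟩ ⟨1,[(19,0),(17,0),(2,0)]⟩),.k,.k,⟨false,1,⟨5,[(25,1),(6,0),(0,0),(19,2)]⟩,⟨0,[(50,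
  0)]⟩⟩,⟨true,0,⟨0,[(1,0)]⟩,⟨5,[(6,2),(3,2),(0,2),(1,1),(0,0),(0,0),(2,1),(13,5)]⟩⟩,⟨false,0,⟨5,
  [(10,1),(0,0),(25,0),(2,1)]⟩,⟨1,[(52,0),(0,0)]⟩⟩,⟨true,(-1),⟨2,[(1,2),(4,0),(5,0),(6,0),(0,0),(2,
  0),(14,0)]⟩,⟨0,[(11,0),(6,0),(13,0)]⟩⟩,⟨false,0,⟨0,[]⟩,⟨0,[]⟩⟩,⟨false,0,⟨0,[]⟩,⟨0,[]⟩⟩,[.a ⟨true,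
  0,⟨0,[(50,0)]⟩,⟨0,[(11,0),(6,0)]⟩⟩ ⟨true,0,⟨5,[(10,1),(0,0),(25,0),(2,1)]⟩,⟨0,[]⟩⟩ ⟨false,0,⟨0,
  [(1,0),(48,0)]⟩,⟨0,[(11,0),(6,0),(13,0)]⟩⟩,.o ⟨false,1,⟨2,[(2,0),(5,0),(12,0),(10,0),(15,0)]⟩,⟨0,
  [(51,0)]⟩⟩,.o ⟨false,1,⟨0,[(32,0)]⟩,⟨15,[(1,11),(3,2),(1,0),(2,3),(0,0),(21,0),(6,3),(7,0)]⟩⟩,.o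
  ⟨false,1,⟨5,[(10,1),(0,0),(20,5),(4,0),(2,1)]⟩,⟨0,[(1,0)]⟩⟩]⟩))) (.Q [0,0,0,0,0,-1,0,0,0,1,0,-1]
  (.ed true [0,1,0,0,1] .k) (.K ⟨0,[1,-1,0,0,-1],(-1),0,(⟨0,[(0,0)]⟩,⟨0,[(34,0),(7,0)]⟩),(.r (-1)
  ⟨5,[(24,1),(6,0),(0,0),(19,2)]⟩ ⟨1,[(18,0),(17,0),(2,0)]⟩),(.r (-2) ⟨5,[(24,3),(6,4),(0,4),(19,
  2)]⟩ ⟨0,[(5,0),(1,1),(0,0),(1,0),(2,0),(1,0),(26,3),(4,0)]⟩),.k,(.r (-2) ⟨5,[(9,5),(14,3),(6,1),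
  (0,1),(18,2),(0,2)]⟩ ⟨7,[(11,0),(0,2),(6,3),(16,0),(2,0),(6,0)]⟩),.k,[⟨0,[(16,0),(15,0)]⟩,⟨0,[(1,
  0)]⟩,⟨3,[(4,3),(13,0),(2,1),(15,0),(1,0),(6,1)]⟩,⟨20,[(1,17),(1,0),(20,6),(6,2),(3,0),(5,0),(2,1),
  (6,7)]⟩]⟩) (.R ⟨0,false,false,false,[1,0,0,0,-1],[1,-1],[],(⟨0,[(33,0)]⟩,⟨0,[(34,0)]⟩),(⟨0,[(44,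
  0)]⟩,⟨0,[(45,0)]⟩),⟨0,[(0,0)]⟩,.k,.k,(.r (-1) ⟨5,[(24,1),(6,0),(0,0),(19,2)]⟩ ⟨1,[(18,0),(17,0),
  (2,0)]⟩),(.r (-1) ⟨7,[(4,1),(2,3),(20,1),(2,2),(0,0),(3,1),(15,4)]⟩ ⟨8,[(5,2),(10,0),(2,0),(4,1),
  (12,0),(8,1),(0,0)]⟩),.k,.k,⟨true,0,⟨13,[(7,4),(4,0),(7,1),(15,1),(2,1),(12,0)]⟩,⟨1,[(10,0),(26,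
  0)]⟩⟩,⟨false,0,⟨0,[(32,0)]⟩,⟨1,[(1,1),(45,0),(3,2)]⟩⟩,⟨true,0,⟨0,[(54,0)]⟩,⟨0,[]⟩⟩,⟨false,0,⟨1,
  [(10,0),(21,1),(4,0)]⟩,⟨1,[(1,1),(45,0),(0,1),(2,0),(0,1)]⟩⟩,⟨false,0,⟨0,[]⟩,⟨0,[]⟩⟩,⟨false,0,⟨0,
  []⟩,⟨0,[]⟩⟩,[.o ⟨false,0,⟨0,[(50,0)]⟩,⟨5,[(7,1),(12,1),(10,0),(0,0),(14,2),(3,1)]⟩⟩,.e ⟨false,1,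
  ⟨1,[(51,0),(0,0)]⟩,⟨0,[(54,0)]⟩⟩ ⟨false,1,⟨5,[(24,1),(6,0),(0,6),(19,2)]⟩,⟨1,[(1,1),(45,0),(0,1),
  (2,0)]⟩⟩,.a ⟨true,0,⟨0,[(1,0),(49,0)]⟩,⟨0,[(32,0)]⟩⟩ ⟨false,1,⟨1,[(31,0),(0,0),(19,0)]⟩,⟨0,[]⟩⟩
  ⟨true,0,⟨1,[(10,0),(21,1),(4,0)]⟩,⟨1,[(1,1),(45,0),(0,1),(2,0)]⟩⟩,.o ⟨false,0,⟨1,[(1,1),(45,0),(3,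
  0)]⟩,⟨1,[(32,1),(14,0),(3,0)]⟩⟩]⟩)))))))))) (.R ⟨1,false,false,true,[0,0,1],[0,1],[],(⟨0,[(32,
  0)]⟩,⟨0,[(31,0)]⟩),(⟨0,[(36,0)]⟩,⟨0,[(35,0)]⟩),⟨0,[(21,0)]⟩,.k,.k,.k,.k,(.r 0 ⟨1,[(0,1),(0,0),(26,
  0)]⟩ ⟨1,[(9,1),(12,0),(0,0),(5,0),(0,0),(12,0)]⟩),.k,⟨true,1,⟨5,[(15,1),(6,0),(0,0),(19,2)]⟩,⟨1,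
  [(1,0),(0,1),(25,0)]⟩⟩,⟨false,1,⟨2,[(0,0),(7,0),(10,0),(18,0),(3,1)]⟩,⟨0,[(29,0)]⟩⟩,⟨true,1,⟨5,
  [(15,1),(1,5),(4,0),(0,0),(19,2)]⟩,⟨0,[(10,0)]⟩⟩,⟨true,0,⟨0,[(12,0)]⟩,⟨1,[(1,0),(25,0)]⟩⟩,⟨true,1,
  ⟨1,[(17,1),(24,0),(0,0)]⟩,⟨1,[(1,0),(8,1),(17,0)]⟩⟩,⟨false,1,⟨9,[(8,5),(0,5),(1,1),(7,1),(18,3),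
  (3,2),(0,2)]⟩,⟨0,[(1,0)]⟩⟩,[.e ⟨false,1,⟨1,[(22,0),(0,0),(18,0)]⟩,⟨0,[]⟩⟩ ⟨false,0,⟨3,[(0,0),(5,
  0),(1,0),(3,0),(6,0),(18,0),(0,1)]⟩,⟨5,[(15,1),(6,0),(0,0),(5,5),(13,2)]⟩⟩,.o ⟨false,1,⟨5,[(9,1),
  (1,1),(10,0),(0,0),(14,2),(3,0),(0,0)]⟩,⟨0,[(41,0)]⟩⟩,.o ⟨false,1,⟨3,[(7,1),(14,0),(0,0),(5,1),(8,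
  0)]⟩,⟨0,[(16,0)]⟩⟩,.a ⟨true,0,⟨0,[(29,0)]⟩,⟨0,[(26,0)]⟩⟩ ⟨false,1,⟨1,[(42,0),(0,0)]⟩,⟨1,[(29,0),
  (0,0)]⟩⟩ ⟨true,0,⟨3,[(0,0),(5,0),(1,0),(3,0),(6,0),(18,0),(0,1)]⟩,⟨1,[(1,0),(26,0),(0,1)]⟩⟩]⟩))
  (.Q [0,-1,0,2,1,0,0,0,0,-1] (.pp true [-1,1]) (.Q [0,0,2,0,-1,0,0,0,0,1] (.pp false [-1,1]) (.S
  ⟨1,0,[0,1,-1,-2],[1,-1],[1,0,-1,-1],(⟨0,[(36,0)]⟩,⟨0,[(37,0)]⟩),⟨1,[(5,0),(16,0),(13,0)]⟩,.k,(.r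
  (-1) ⟨2,[(16,1),(6,0),(0,0)]⟩ ⟨4,[(4,1),(5,2),(17,0),(1,0),(0,1),(12,1)]⟩),⟨true,0,⟨0,[]⟩,⟨0,[(46,
  0)]⟩⟩,⟨false,0,⟨0,[(42,0)]⟩,⟨8,[(1,1),(7,0),(0,1),(9,0),(7,2),(14,0),(0,5)]⟩⟩,⟨false,1,⟨8,[(1,1),
  (7,0),(0,1),(9,0),(7,2),(14,0),(0,5)]⟩,⟨0,[(42,0)]⟩⟩,⟨true,0,⟨0,[(46,0)]⟩,⟨0,[]⟩⟩,[.o ⟨false,0,⟨2,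
  [(0,2),(13,0),(1,1),(12,0),(9,0),(6,0)]⟩,⟨0,[(1,0)]⟩⟩,.o ⟨false,0,⟨0,[(42,1)]⟩,⟨5,[(1,3),(21,0),
  (0,0),(14,0),(1,3)]⟩⟩,.o ⟨false,0,⟨1,[(30,0),(0,0)]⟩,⟨1,[(39,0),(3,0)]⟩⟩,.a ⟨true,(-1),⟨0,[(0,
  0)]⟩,⟨0,[(43,0)]⟩⟩ ⟨true,1,⟨5,[(16,1),(6,0),(0,0),(18,2)]⟩,⟨0,[(3,0),(38,0)]⟩⟩ ⟨false,1,⟨2,[(16,
  1),(6,0),(0,0)]⟩,⟨0,[(0,0),(0,0)]⟩⟩]⟩) (.R ⟨1,false,false,true,[1,-1],[0,0,1],[0,0,-1,-2],(⟨0,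
  [(36,0)]⟩,⟨0,[(37,0)]⟩),(⟨0,[(33,0)]⟩,⟨0,[(32,0)]⟩),⟨1,[(5,0),(16,0),(13,0)]⟩,.k,.k,(.r (-1) ⟨2,
  [(16,1),(6,0),(0,0)]⟩ ⟨4,[(4,1),(5,2),(17,0),(1,0),(0,1),(12,1)]⟩),.k,(.x 1 ⟨0,[(6,0)]⟩ ⟨1,[(5,1),
  (2,1),(14,0),(0,0),(18,0)]⟩),.k,⟨false,2,⟨0,[(16,0),(1,0),(25,0)]⟩,⟨1,[(4,0),(2,0),(33,0)]⟩⟩,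
  ⟨true,1,⟨0,[(8,0)]⟩,⟨0,[(5,0),(0,0)]⟩⟩,⟨true,0,⟨0,[(42,0)]⟩,⟨0,[(41,0)]⟩⟩,⟨true,0,⟨5,[(1,0),(5,1),
  (0,0),(1,0),(3,3),(0,0)]⟩,⟨0,[(9,0),(32,1)]⟩⟩,⟨false,1,⟨1,[(23,0),(0,0),(19,0)]⟩,⟨0,[]⟩⟩,⟨true,0,
  ⟨2,[(1,0),(5,1),(0,0),(1,0),(3,0),(0,0)]⟩,⟨0,[(9,0),(32,2)]⟩⟩,[.o ⟨false,0,⟨0,[(14,0)]⟩,⟨0,[(29,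
  0),(14,0)]⟩⟩,.a ⟨true,0,⟨0,[(15,0)]⟩,⟨0,[(9,0),(32,0)]⟩⟩ ⟨true,1,⟨3,[(16,1),(13,0),(0,0),(10,1),
  (1,1)]⟩,⟨0,[(3,0)]⟩⟩ ⟨false,1,⟨0,[(0,0),(14,0)]⟩,⟨2,[(6,0),(2,0),(11,0),(7,1),(0,0),(5,0),(5,0),
  (1,0)]⟩⟩,.o ⟨false,0,⟨1,[(30,0),(0,0)]⟩,⟨1,[(39,0),(3,0)]⟩⟩,.o ⟨false,0,⟨0,[(30,0),(0,0)]⟩,⟨0,[(0,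
  0)]⟩⟩]⟩)) (.Q [0,-1,0,1,1,0,0,0,0,-1] (.pp true [-1,1]) (.R ⟨2,true,false,true,[0,1],[1,-1],[1,1,
  1,1],(⟨0,[]⟩,⟨0,[]⟩),(⟨0,[(36,0)]⟩,⟨0,[(37,0)]⟩),⟨0,[]⟩,.k,.k,.k,(.r 0 ⟨4,[(4,1),(5,2),(17,0),(1,
  0),(0,1),(12,1)]⟩ ⟨2,[(16,1),(6,0),(0,0)]⟩),.k,.k,⟨false,0,⟨5,[(4,1),(5,2),(1,0),(27,0),(3,1)]⟩,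
  ⟨2,[(16,1),(6,0),(0,0)]⟩⟩,⟨true,(-1),⟨0,[(1,0),(1,0),(40,0)]⟩,⟨1,[(39,0),(3,0)]⟩⟩,⟨false,0,⟨0,[]⟩,
  ⟨1,[(23,0),(0,0),(19,0)]⟩⟩,⟨true,(-1),⟨0,[(1,0)]⟩,⟨0,[(0,0),(40,0)]⟩⟩,⟨true,0,⟨0,[(41,0)]⟩,⟨0,
  [(42,0)]⟩⟩,⟨false,0,⟨2,[(6,0),(9,0),(13,0),(1,0),(3,1)]⟩,⟨0,[(0,0)]⟩⟩,[]⟩) (.Q [0,-2,0,0,1,0,-1,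
  -1,-1,1,-1,-1] (.p false [0,0,1] [1,0,0,0,-1] (⟨0,[(33,0)]⟩,⟨0,[(32,0)]⟩) .k 2 (⟨0,[(25,0)]⟩,⟨0,
  [(26,0)]⟩) .k (.r 1 ⟨1,[(0,1),(6,1),(31,0),(4,0)]⟩ ⟨2,[(16,0),(1,2),(4,1),(0,1),(19,2)]⟩)) (.Q [0,
  0,0,0,0,0,0,0,0,0,-1,1] (.ed false [1,0,-1,0,1] (.r (-1) ⟨2,[(17,0),(1,2),(4,1),(0,1)]⟩ ⟨0,[(12,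
  0),(32,0)]⟩)) (.R ⟨1,false,false,false,[0,0,0,0,1],[0,0,-1,0,1],[0,1,0,-1],(⟨0,[(28,0)]⟩,⟨0,[(27,
  0)]⟩),(⟨0,[(0,0)]⟩,⟨0,[(27,0),(7,0)]⟩),⟨0,[(0,0),(23,0)]⟩,.k,.k,(.r 0 ⟨10,[(3,3),(14,1),(21,1),(0,
  1),(0,2)]⟩ ⟨1,[(12,0),(17,0),(2,0),(12,1)]⟩),.k,.k,.k,⟨false,0,⟨7,[(13,5),(0,0),(2,0),(0,2),(14,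
  0),(12,2)]⟩,⟨1,[(20,1),(24,0),(0,0)]⟩⟩,⟨true,0,⟨0,[(19,0)]⟩,⟨0,[(32,0)]⟩⟩,⟨true,0,⟨0,[(44,0)]⟩,⟨0,
  [(43,0)]⟩⟩,⟨false,1,⟨2,[(1,1),(24,1),(4,0),(9,0)]⟩,⟨0,[(17,0)]⟩⟩,⟨false,1,⟨1,[(25,0),(0,0),(19,
  0)]⟩,⟨0,[]⟩⟩,⟨false,1,⟨1,[(11,1),(29,0),(4,0)]⟩,⟨1,[(3,0),(12,0),(0,0),(28,0)]⟩⟩,[.a ⟨true,0,⟨0,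
  [(26,0),(4,0)]⟩,⟨0,[(1,0),(1,0),(5,1),(0,0),(21,0),(13,0)]⟩⟩ ⟨false,0,⟨10,[(3,3),(14,1),(21,1),(0,
  1),(0,2)]⟩,⟨5,[(12,1),(1,1),(10,0),(0,0),(18,0),(0,3)]⟩⟩ ⟨true,0,⟨0,[(31,0)]⟩,⟨0,[(13,0),(18,0),
  (13,0)]⟩⟩,.o ⟨false,1,⟨2,[(1,0),(24,3),(4,1),(9,1)]⟩,⟨0,[(1,0),(8,0),(2,1),(18,0)]⟩⟩,.a ⟨true,0,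
  ⟨0,[(26,0)]⟩,⟨2,[(1,1),(0,1),(6,1),(0,0),(14,0),(6,0)]⟩⟩ ⟨false,0,⟨0,[(44,0)]⟩,⟨5,[(12,1),(1,1),
  (10,0),(0,0),(18,0),(0,3)]⟩⟩ ⟨true,0,⟨0,[(31,0)]⟩,⟨0,[(17,0)]⟩⟩,.a ⟨true,0,⟨1,[(26,1),(5,0),(0,
  0)]⟩,⟨0,[(1,0),(0,0),(6,0),(0,0)]⟩⟩ ⟨true,0,⟨10,[(3,3),(14,1),(21,1),(0,1),(0,2)]⟩,⟨9,[(6,1),(5,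
  2),(17,0),(1,0),(0,1),(12,1)]⟩⟩ ⟨false,1,⟨5,[(1,1),(24,1),(4,3),(9,0),(3,2)]⟩,⟨0,[(13,0),(18,0),
  (13,0)]⟩⟩]⟩) (.Q [0,0,1,0,0,0,1,0,-1,0,1,-1] (.p false [1,0,-1,0,1] [1] (⟨0,[(28,0),(5,0)]⟩,⟨0,
  [(0,0)]⟩) .k 1 (⟨0,[]⟩,⟨0,[]⟩) .k (.r (-1) ⟨2,[(18,0),(1,2),(4,1),(0,1)]⟩ ⟨0,[(13,0),(32,0)]⟩))
  (.K ⟨0,[0,0,1,0,-1],0,0,(⟨0,[(1,0)]⟩,⟨0,[(29,0),(5,0)]⟩),.k,(.r (-1) ⟨1,[(15,0),(2,0),(0,0),(14,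
  0),(12,0)]⟩ ⟨0,[(21,0)]⟩),(.r 0 ⟨4,[(7,1),(6,0),(0,0),(2,0),(15,0),(12,2)]⟩ ⟨2,[(19,1),(1,2),(4,
  0),(0,0)]⟩),.k,.k,[⟨0,[(27,0)]⟩,⟨0,[(0,0)]⟩,⟨0,[(27,0),(4,0),(16,0)]⟩,⟨2,[(0,2),(9,1),(4,0),(3,0),
  (27,0)]⟩]⟩) (.S ⟨1,0,[0,1,0,-1,0,0,0,-1],[1,0,-1,0,1],[0,2,0,-1,0,0,0,-1],(⟨0,[(29,0),(5,0)]⟩,⟨0,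
  [(1,0)]⟩),⟨0,[(24,0),(4,0)]⟩,.k,(.r (-1) ⟨2,[(19,1),(1,2),(4,0),(0,0)]⟩ ⟨4,[(7,1),(6,0),(0,0),(2,
  0),(15,0),(12,2)]⟩),⟨false,0,⟨0,[(45,0)]⟩,⟨5,[(13,1),(1,1),(10,0),(0,0),(18,0),(0,3)]⟩⟩,⟨true,0,
  ⟨0,[(45,0)]⟩,⟨0,[(44,0)]⟩⟩,⟨true,0,⟨0,[(49,0)]⟩,⟨0,[]⟩⟩,⟨false,1,⟨1,[(26,0),(0,0),(19,0)]⟩,⟨0,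
  []⟩⟩,[.o ⟨false,0,⟨5,[(2,0),(1,2),(22,6),(4,4),(9,1)]⟩,⟨3,[(2,3),(4,1),(3,5),(2,5),(18,1),(8,0),
  (4,0)]⟩⟩,.e ⟨false,1,⟨2,[(19,1),(1,2),(4,0),(0,0)]⟩,⟨0,[(10,0),(36,0)]⟩⟩ ⟨false,1,⟨1,[(2,0),(1,0),
  (6,1),(15,0),(4,0)]⟩,⟨0,[(15,0)]⟩⟩,.o ⟨false,0,⟨1,[(0,0),(26,0),(6,0)]⟩,⟨1,[(2,1),(1,0),(1,0),(4,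
  2),(2,1),(18,0),(8,0)]⟩⟩,.a ⟨true,(-1),⟨0,[(0,0),(3,0),(1,0),(40,0)]⟩,⟨2,[(2,1),(0,1),(6,1),(0,3),
  (14,0),(6,0)]⟩⟩ ⟨true,0,⟨1,[(4,1),(0,0),(5,1),(20,0)]⟩,⟨4,[(7,1),(6,0),(0,0),(2,0),(15,0),(12,
  2)]⟩⟩ ⟨false,1,⟨1,[(2,0),(1,0),(6,1),(15,0),(4,0)]⟩,⟨4,[(7,1),(6,0),(0,0),(2,0),(15,0),(12,
  2)]⟩⟩]⟩))) (.Q [0,1,0,0,-1,0,1,1,1,-1,1,1] (.p true [0,0,1] [1,0,0,0,-1] (⟨0,[(34,0)]⟩,⟨0,[(33,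
  0)]⟩) .k 2 (⟨0,[(26,0)]⟩,⟨0,[(27,0)]⟩) .k (.r 1 ⟨1,[(1,1),(6,1),(31,0),(4,0)]⟩ ⟨2,[(17,0),(1,2),
  (4,1),(0,1),(19,2)]⟩)) (.Q [0,0,0,-1,-1,0,0,0,1,0,0,1] (.p true [0,0,0,0,1] [] (⟨0,[(28,0)]⟩,⟨0,
  [(27,0)]⟩) .k 0 (⟨0,[]⟩,⟨0,[]⟩) .k .k) (.R ⟨2,true,false,false,[0,1],[0,0,0,0,1],[1,0,1,1],(⟨0,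
  []⟩,⟨0,[]⟩),(⟨0,[(29,0)]⟩,⟨0,[(28,0)]⟩),⟨0,[]⟩,.k,.k,.k,(.r (-1) ⟨1,[(13,0),(17,0),(2,0),(12,1)]⟩
  ⟨10,[(4,3),(14,1),(21,1),(0,1),(0,2)]⟩),.k,.k,⟨false,1,⟨5,[(13,1),(1,1),(10,0),(0,0),(18,0),(0,
  3)]⟩,⟨10,[(4,3),(14,1),(21,1),(0,1),(0,2)]⟩⟩,⟨true,(-1),⟨9,[(0,7),(5,3),(20,1),(5,0),(0,0),(12,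
  1)]⟩,⟨0,[(26,0)]⟩⟩,⟨true,0,⟨0,[]⟩,⟨0,[(49,0)]⟩⟩,⟨false,(-1),⟨0,[(0,0)]⟩,⟨5,[(13,1),(1,1),(10,6),
  (0,0),(18,0),(0,3)]⟩⟩,⟨false,1,⟨5,[(13,1),(1,1),(10,0),(0,0),(18,0),(0,3)]⟩,⟨0,[(45,0)]⟩⟩,⟨true,
  (-1),⟨1,[(0,0),(1,0),(9,0)]⟩,⟨0,[(26,0)]⟩⟩,[]⟩) (.Q [0,0,-1,0,1,0,0,0,-1,0,0,-1] (.p false [0,0,0,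
  0,1] [] (⟨0,[(29,0)]⟩,⟨0,[(28,0)]⟩) .k 0 (⟨0,[]⟩,⟨0,[]⟩) .k .k) (.Q [0,0,0,0,0,-1,0,0,0,0,0,1]
  (.ed false [1,-1,0,0,1] .k) (.S ⟨1,0,[0,2,0,-1],[0,0,0,0,1],[1,1],(⟨0,[(31,0)]⟩,⟨0,[(30,0)]⟩),⟨0,
  [(0,0)]⟩,.k,(.r 0 ⟨8,[(1,1),(2,1),(1,1),(14,1),(12,1),(10,0)]⟩ ⟨8,[(2,4),(6,0),(5,0),(13,4),(5,2),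
  (0,2),(12,4)]⟩),⟨true,0,⟨0,[]⟩,⟨0,[(51,0)]⟩⟩,⟨false,0,⟨0,[(47,0)]⟩,⟨7,[(2,1),(12,1),(1,1),(11,1),
  (18,0),(0,4)]⟩⟩,⟨false,1,⟨7,[(2,1),(12,1),(1,1),(11,1),(18,0),(0,4)]⟩,⟨0,[(47,0)]⟩⟩,⟨true,0,⟨0,
  [(51,0)]⟩,⟨0,[]⟩⟩,[.o ⟨false,(-1),⟨3,[(3,3),(2,1),(27,3),(9,0),(4,0)]⟩,⟨0,[(2,0),(46,0)]⟩⟩,.a
  ⟨true,(-1),⟨2,[(3,2),(2,1),(7,0),(19,1),(14,1)]⟩,⟨2,[(1,2),(3,0),(3,0),(4,1),(5,0),(14,0),(13,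
  1)]⟩⟩ ⟨true,0,⟨0,[]⟩,⟨1,[(35,0),(0,0)]⟩⟩ ⟨false,0,⟨8,[(1,1),(2,1),(1,1),(14,1),(12,1),(10,0)]⟩,⟨7,
  [(2,1),(12,1),(1,1),(11,1),(18,0),(0,4)]⟩⟩,.o ⟨false,0,⟨0,[(3,0),(30,0),(14,0)]⟩,⟨0,[(28,0)]⟩⟩,.o
  ⟨false,0,⟨2,[(3,1),(6,0),(0,0),(17,0),(4,1),(0,0),(8,0),(4,1)]⟩,⟨0,[(1,0)]⟩⟩]⟩) (.R ⟨0,false,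
  false,false,[0,0,0,0,1],[0,1],[1,0,2,1],(⟨0,[(31,0)]⟩,⟨0,[(30,0)]⟩),(⟨0,[(42,0)]⟩,⟨0,[(41,0)]⟩),
  ⟨0,[(0,0)]⟩,.k,.k,(.r 0 ⟨8,[(1,1),(2,1),(1,1),(14,1),(12,1),(10,0)]⟩ ⟨8,[(2,4),(6,0),(5,0),(13,4),
  (5,2),(0,2),(12,4)]⟩),(.r 0 ⟨8,[(1,1),(2,1),(1,1),(14,1),(12,1),(10,0)]⟩ ⟨8,[(2,4),(6,0),(5,0),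
  (13,4),(5,2),(0,2),(12,4)]⟩),.k,.k,⟨false,0,⟨0,[]⟩,⟨4,[(2,2),(18,0),(7,2),(18,0)]⟩⟩,⟨true,1,⟨0,
  [(1,0)]⟩,⟨0,[(3,0),(2,0),(1,0),(25,0),(14,1)]⟩⟩,⟨true,0,⟨3,[(6,1),(1,3),(35,0),(4,4)]⟩,⟨2,[(1,0),
  (2,0),(1,0),(14,0),(12,0),(10,1)]⟩⟩,⟨false,2,⟨0,[(2,0),(46,0)]⟩,⟨2,[(3,2),(2,1),(7,0),(19,1),(14,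
  1)]⟩⟩,⟨false,0,⟨0,[]⟩,⟨0,[]⟩⟩,⟨false,0,⟨0,[]⟩,⟨0,[]⟩⟩,[.o ⟨false,1,⟨7,[(2,1),(12,1),(1,1),(11,1),
  (14,3),(3,0),(0,0)]⟩,⟨0,[(47,0)]⟩⟩,.a ⟨true,1,⟨7,[(2,1),(12,1),(1,1),(11,1),(18,0),(0,4)]⟩,⟨0,[(5,
  0)]⟩⟩ ⟨true,0,⟨3,[(6,1),(1,3),(35,0),(4,4)]⟩,⟨8,[(1,1),(2,1),(1,1),(14,1),(12,1),(10,0)]⟩⟩ ⟨false,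
  2,⟨1,[(2,1),(45,0),(0,0)]⟩,⟨2,[(3,2),(2,1),(7,0),(19,1),(14,1)]⟩⟩,.o ⟨false,0,⟨0,[(3,0),(30,0),
  (14,0)]⟩,⟨0,[(28,0)]⟩⟩,.o ⟨false,0,⟨2,[(3,1),(6,0),(0,0),(17,0),(4,1),(0,0),(8,0),(4,1)]⟩,⟨0,[(1,
  0)]⟩⟩]⟩)) (.Q [0,0,0,0,0,-1,0,0,0,0,0,1] (.ed false [1,-1,0,0,1] .k) (.S ⟨1,0,[0,1,0,-1],[0,0,0,0,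
  1],[1,2],(⟨0,[(31,0)]⟩,⟨0,[(30,0)]⟩),⟨0,[(0,0)]⟩,.k,(.r 0 ⟨10,[(6,3),(14,1),(21,1),(0,1),(0,2)]⟩
  ⟨8,[(2,4),(6,0),(5,0),(13,4),(5,2),(0,2),(12,4)]⟩),⟨false,0,⟨0,[]⟩,⟨1,[(28,0),(0,0),(19,0)]⟩⟩,
  ⟨true,0,⟨0,[(47,0)]⟩,⟨0,[(46,0)]⟩⟩,⟨true,0,⟨0,[(46,0)]⟩,⟨0,[(47,0)]⟩⟩,⟨false,1,⟨1,[(28,0),(0,0),
  (19,0)]⟩,⟨0,[]⟩⟩,[.e ⟨false,0,⟨0,[(43,0)]⟩,⟨0,[(49,0)]⟩⟩ ⟨false,0,⟨10,[(6,3),(14,1),(21,1),(0,1),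
  (0,2)]⟩,⟨7,[(2,1),(12,1),(1,1),(11,1),(18,0),(0,4)]⟩⟩,.o ⟨false,0,⟨15,[(1,11),(4,1),(14,3),(7,3),
  (14,8),(4,0)]⟩,⟨0,[(2,0)]⟩⟩,.o ⟨false,0,⟨1,[(1,1),(42,0),(3,0)]⟩,⟨0,[(28,0)]⟩⟩,.a ⟨true,(-1),⟨0,
  [(1,0)]⟩,⟨1,[(2,1),(2,1),(42,0),(0,0)]⟩⟩ ⟨false,0,⟨10,[(6,1),(14,0),(21,0),(0,0),(0,6)]⟩,⟨1,[(35,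
  0),(0,0),(12,1)]⟩⟩ ⟨true,0,⟨10,[(6,3),(14,1),(21,1),(0,1),(0,2)]⟩,⟨17,[(2,1),(6,3),(5,3),(13,1),
  (5,2),(0,2),(12,1)]⟩⟩]⟩) (.R ⟨0,false,false,true,[0,0,0,0,1],[0,1],[1,2],(⟨0,[(31,0)]⟩,⟨0,[(30,
  0)]⟩),(⟨0,[(42,0)]⟩,⟨0,[(41,0)]⟩),⟨0,[(0,0)]⟩,.k,.k,(.r 0 ⟨10,[(6,3),(14,1),(21,1),(0,1),(0,2)]⟩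
  ⟨8,[(2,4),(6,0),(5,0),(13,4),(5,2),(0,2),(12,4)]⟩),(.r 0 ⟨10,[(6,3),(14,1),(21,1),(0,1),(0,2)]⟩
  ⟨8,[(2,4),(6,0),(5,0),(13,4),(5,2),(0,2),(12,4)]⟩),.k,.k,⟨true,0,⟨10,[(6,3),(14,1),(21,1),(0,1),
  (0,2)]⟩,⟨3,[(6,1),(1,3),(35,0),(4,4)]⟩⟩,⟨false,2,⟨4,[(2,5),(18,1),(7,0),(18,1)]⟩,⟨0,[(1,0)]⟩⟩,
  ⟨false,0,⟨0,[]⟩,⟨1,[(28,0),(0,0),(19,0)]⟩⟩,⟨true,1,⟨0,[(2,0)]⟩,⟨7,[(1,5),(2,1),(1,1),(0,0),(13,1),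
  (12,0)]⟩⟩,⟨false,0,⟨0,[]⟩,⟨0,[]⟩⟩,⟨false,0,⟨0,[]⟩,⟨0,[]⟩⟩,[.e ⟨false,0,⟨0,[(43,0)]⟩,⟨0,[(49,0)]⟩⟩
  ⟨false,1,⟨10,[(2,10),(3,1),(14,0),(21,0),(0,0),(0,6)]⟩,⟨15,[(1,11),(4,1),(14,3),(7,3),(14,0),(4,
  8)]⟩⟩,.o ⟨false,1,⟨7,[(2,1),(12,1),(1,1),(11,1),(14,3),(3,0),(0,0)]⟩,⟨0,[(47,0)]⟩⟩,.o ⟨false,0,⟨1,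
  [(1,1),(42,0),(3,0)]⟩,⟨0,[(28,0)]⟩⟩,.a ⟨true,(-1),⟨0,[(1,0)]⟩,⟨1,[(2,1),(2,1),(42,0),(0,0)]⟩⟩
  ⟨false,0,⟨10,[(6,1),(14,0),(21,0),(0,0),(0,6)]⟩,⟨1,[(35,0),(0,0),(12,1)]⟩⟩ ⟨true,1,⟨10,[(2,10),(3,
  1),(14,0),(21,0),(0,0),(0,6)]⟩,⟨3,[(1,3),(4,1),(37,0),(4,0)]⟩⟩]⟩)))) (.Q [0,0,1,0,0,0,0,0,1,-1,0,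
  1] (.p true [0,0,0,0,1] [1] (⟨0,[(28,0)]⟩,⟨0,[(27,0)]⟩) .k 1 (⟨0,[]⟩,⟨0,[]⟩) .k .k) (.Q [0,0,-1,0,
  1,0,1,0,-1,0,1,-1] (.p true [0,0,1] [0,0,0,0,1] (⟨0,[(36,0)]⟩,⟨0,[(35,0)]⟩) .k 2 (⟨0,[(29,0)]⟩,⟨0,
  [(28,0)]⟩) .k (.r 0 ⟨0,[(14,0),(32,0)]⟩ ⟨2,[(19,0),(1,2),(4,1),(0,1)]⟩)) (.Q [0,0,0,0,0,0,0,0,-2,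
  1,0,-2] (.p false [0,0,0,0,1] [1,0,0,0,-1] (⟨0,[(30,0)]⟩,⟨0,[(29,0)]⟩) .k 2 (⟨0,[(29,0)]⟩,⟨0,[(30,
  0)]⟩) .k (.r 0 ⟨0,[(50,1)]⟩ ⟨0,[(48,0)]⟩)) (.Q [0,0,0,0,0,-1,0,0,0,0,0,1] (.ed false [1,-1,0,0,1]
  .k) (.S ⟨1,0,[0,1,0,-1],[0,0,0,0,1],[1,2],(⟨0,[(32,0)]⟩,⟨0,[(31,0)]⟩),⟨0,[(0,0)]⟩,.k,(.r 0 ⟨10,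
  [(1,0),(3,1),(1,0),(14,2),(12,1),(8,1)]⟩ ⟨1,[(16,0),(17,0),(2,0),(12,1)]⟩),⟨false,0,⟨0,[]⟩,⟨1,
  [(29,0),(0,0),(19,0)]⟩⟩,⟨true,0,⟨0,[(48,0)]⟩,⟨0,[(47,0)]⟩⟩,⟨true,0,⟨0,[(47,0)]⟩,⟨0,[(48,0)]⟩⟩,
  ⟨false,1,⟨1,[(29,0),(0,0),(19,0)]⟩,⟨0,[]⟩⟩,[.o ⟨false,0,⟨22,[(3,19),(1,2),(1,3),(14,4),(12,2),(8,
  4),(0,1)]⟩,⟨41,[(1,13),(0,11),(5,11),(1,5),(7,5),(10,1),(15,6),(4,26)]⟩⟩,.a ⟨true,0,⟨13,[(3,3),(3,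
  3),(14,1),(7,9),(5,0),(0,0),(12,1)]⟩,⟨3,[(1,0),(0,1),(3,0),(3,0),(2,0),(1,1),(34,0)]⟩⟩ ⟨false,0,
  ⟨17,[(1,0),(3,1),(1,0),(0,1),(13,2),(21,1),(1,6)]⟩,⟨1,[(29,0),(0,0),(19,0)]⟩⟩ ⟨true,0,⟨0,[(48,
  0)]⟩,⟨9,[(10,1),(5,2),(17,0),(1,0),(0,1),(12,1)]⟩⟩,.e ⟨false,0,⟨0,[(52,0)]⟩,⟨0,[(50,0)]⟩⟩ ⟨false,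
  0,⟨0,[(48,0)]⟩,⟨5,[(16,1),(1,1),(10,0),(0,0),(18,0),(0,3)]⟩⟩,.o ⟨false,0,⟨0,[(3,0)]⟩,⟨5,[(1,1),
  (27,1),(15,0),(3,2)]⟩⟩]⟩) (.R ⟨0,false,false,false,[0,0,0,0,1],[1,-1],[1,1,1],(⟨0,[(32,0)]⟩,⟨0,
  [(31,0)]⟩),(⟨0,[(42,0)]⟩,⟨0,[(43,0)]⟩),⟨0,[(0,0)]⟩,.k,.k,(.r 0 ⟨10,[(1,0),(3,1),(1,0),(14,2),(12,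
  1),(8,1)]⟩ ⟨1,[(16,0),(17,0),(2,0),(12,1)]⟩),(.r 0 ⟨1,[(16,0),(17,0),(2,0)]⟩ ⟨5,[(22,1),(6,0),(0,
  0),(19,2)]⟩),.k,.k,⟨true,(-1),⟨3,[(1,0),(1,1),(3,0),(1,2)]⟩,⟨5,[(22,1),(6,0),(0,0),(19,2)]⟩⟩,
  ⟨false,0,⟨18,[(1,7),(0,2),(3,1),(5,1),(2,1),(5,1),(11,0),(4,1),(3,3),(7,0)]⟩,⟨1,[(30,1),(14,0),(3,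
  0)]⟩⟩,⟨true,0,⟨1,[(36,0),(0,0)]⟩,⟨17,[(1,0),(3,1),(1,0),(0,1),(13,2),(21,1),(1,6)]⟩⟩,⟨false,1,⟨7,
  [(1,2),(2,0),(2,3),(21,0),(4,0),(15,9)]⟩,⟨3,[(5,1),(2,1),(21,1),(14,0),(4,0)]⟩⟩,⟨false,0,⟨0,[]⟩,
  ⟨0,[]⟩⟩,⟨false,0,⟨0,[]⟩,⟨0,[]⟩⟩,[.o ⟨false,0,⟨0,[(48,0)]⟩,⟨5,[(16,1),(1,1),(10,0),(0,0),(14,2),(3,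
  0),(0,0)]⟩⟩,.e ⟨false,0,⟨0,[]⟩,⟨1,[(29,0),(0,0),(18,0)]⟩⟩ ⟨false,1,⟨4,[(1,0),(0,0),(1,1),(2,0),
  (13,1),(0,0),(10,0),(16,1)]⟩,⟨3,[(5,1),(2,1),(21,1),(14,0),(4,0)]⟩⟩,.a ⟨true,0,⟨0,[(30,0)]⟩,⟨18,
  [(1,7),(0,2),(3,1),(5,1),(2,1),(5,1),(11,0),(4,1),(3,3),(7,0)]⟩⟩ ⟨false,0,⟨1,[(36,0),(0,0)]⟩,⟨1,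
  [(49,0),(0,0)]⟩⟩ ⟨true,0,⟨7,[(1,2),(2,0),(2,3),(21,0),(4,0),(15,1)]⟩,⟨3,[(5,1),(2,1),(21,1),(14,
  0),(4,0)]⟩⟩,.o ⟨false,0,⟨0,[(3,0)]⟩,⟨5,[(1,1),(27,1),(15,0),(3,2)]⟩⟩]⟩)) (.I [0,1,2,2,-1] (.Q [0,
  0,0,0,0,-1,0,0,0,0,0,1] (.ed false [1,-1,0,0,1] .k) (.Q [0,-2,0,1,1,0,0,0,-1,1,0,-1] (.p false [0,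
  0,0,0,1] [1] (⟨0,[(33,0)]⟩,⟨0,[(32,0)]⟩) .k 1 (⟨0,[]⟩,⟨0,[]⟩) .k .k) (.Q [0,0,0,0,0,0,0,0,-1,1,0,
  -1] (.p false [0,0,0,0,1] [1] (⟨0,[(34,0)]⟩,⟨0,[(33,0)]⟩) .k 1 (⟨0,[]⟩,⟨0,[]⟩) .k .k) (.S ⟨1,0,[0,
  0,1],[1,1,0,0,-1],[0,-1,1],(⟨0,[(34,0),(8,0)]⟩,⟨0,[(2,0)]⟩),⟨0,[(34,0)]⟩,(.r (-1) ⟨1,[(19,0),(17,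
  0),(2,0),(12,1)]⟩ ⟨7,[(5,0),(2,0),(1,0),(9,0),(4,1),(12,1),(8,0)]⟩),.k,⟨true,0,⟨0,[(51,0)]⟩,⟨0,
  [(50,0)]⟩⟩,⟨false,0,⟨0,[(51,0)]⟩,⟨13,[(1,7),(2,5),(14,1),(1,1),(10,3),(15,0),(3,0)]⟩⟩,⟨false,1,⟨1,
  [(32,0),(0,0),(19,0)]⟩,⟨0,[]⟩⟩,⟨true,0,⟨0,[(55,0)]⟩,⟨0,[]⟩⟩,[.a ⟨true,0,⟨0,[(0,0)]⟩,⟨0,[(33,0)]⟩⟩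
  ⟨false,1,⟨1,[(32,0),(0,0),(19,0)]⟩,⟨15,[(5,0),(2,0),(1,0),(9,0),(4,1),(12,1),(8,0),(1,7)]⟩⟩ ⟨true,
  0,⟨1,[(39,0),(0,0)]⟩,⟨0,[]⟩⟩,.o ⟨false,1,⟨1,[(0,1),(47,0),(4,0)]⟩,⟨6,[(4,1),(1,1),(1,0),(29,0),(8,
  1),(0,0)]⟩⟩,.o ⟨false,1,⟨7,[(5,4),(1,2),(8,2),(8,0),(3,0),(18,1)]⟩,⟨0,[(6,0)]⟩⟩,.e ⟨false,1,⟨0,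
  [(53,0)]⟩,⟨0,[(55,0)]⟩⟩ ⟨false,1,⟨1,[(32,0),(0,0),(19,0)]⟩,⟨0,[]⟩⟩]⟩) (.R ⟨2,true,false,false,[0,
  1],[0,0,0,0,1],[0,1,1],(⟨0,[]⟩,⟨0,[]⟩),(⟨0,[(35,0)]⟩,⟨0,[(34,0)]⟩),⟨0,[]⟩,.k,.k,.k,(.r (-1) ⟨1,
  [(19,0),(17,0),(2,0),(12,1)]⟩ ⟨7,[(5,0),(2,0),(1,0),(9,0),(4,1),(12,1),(8,0)]⟩),.k,.k,⟨true,0,⟨1,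
  [(39,0),(0,0)]⟩,⟨0,[]⟩⟩,⟨false,0,⟨0,[(33,0)]⟩,⟨7,[(5,4),(1,2),(8,2),(8,0),(3,0),(18,1)]⟩⟩,⟨false,
  0,⟨0,[(51,0)]⟩,⟨13,[(1,7),(2,5),(14,1),(1,1),(10,3),(15,0),(3,0)]⟩⟩,⟨true,(-1),⟨0,[(0,0),(8,0)]⟩,
  ⟨14,[(1,1),(3,2),(5,2),(1,0),(5,0),(1,2),(10,9),(15,0)]⟩⟩,⟨true,0,⟨0,[(55,0)]⟩,⟨0,[]⟩⟩,⟨false,0,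
  ⟨0,[(33,0)]⟩,⟨0,[(1,0),(7,0),(38,0)]⟩⟩,[]⟩)) (.K ⟨0,[0,-1,0,0,1],(-1),(-1),(⟨0,[(1,0)]⟩,⟨0,[(33,
  0),(8,0)]⟩),(.r 0 ⟨8,[(0,0),(3,0),(4,0),(9,0),(4,1),(12,0),(8,1)]⟩ ⟨1,[(18,0),(17,0),(2,0),(12,
  1)]⟩),(.r (-1) ⟨2,[(24,1),(6,0),(0,0),(21,2)]⟩ ⟨0,[(2,0),(49,0)]⟩),.k,(.r (-1) ⟨2,[(24,1),(1,2),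
  (4,0),(0,0)]⟩ ⟨4,[(12,1),(6,0),(0,0),(2,0),(15,0),(12,2)]⟩),.k,[⟨0,[(4,0)]⟩,⟨0,[(0,0),(1,0),(5,0),
  (43,1)]⟩,⟨6,[(4,1),(5,1),(1,0),(7,0),(10,4),(20,0)]⟩,⟨9,[(0,1),(2,2),(3,1),(1,5),(8,1),(9,0),(17,
  1)]⟩]⟩)) (.Q [0,-1,0,0,1,0,0,0,-1,0,0,-1] (.p false [0,0,0,0,1] [] (⟨0,[(33,0)]⟩,⟨0,[(32,0)]⟩) .k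
  0 (⟨0,[]⟩,⟨0,[]⟩) .k .k) (.Q [0,0,0,-1,0,0,1,1,-1,0,1,-1] (.p false [1,0,-1,0,1] [1] (⟨0,[(34,0),
  (5,0)]⟩,⟨0,[(1,0),(28,0)]⟩) .k 1 (⟨0,[]⟩,⟨0,[]⟩) .k (.r (-1) ⟨2,[(24,0),(1,2),(4,1),(0,1)]⟩ ⟨0,
  [(19,0),(32,0)]⟩)) (.R ⟨0,false,false,false,[0,0,0,0,1],[1,-1],[1,1,1],(⟨0,[(35,0)]⟩,⟨0,[(34,
  0)]⟩),(⟨0,[(45,0)]⟩,⟨0,[(46,0)]⟩),⟨0,[(2,0)]⟩,.k,.k,(.r 0 ⟨7,[(5,0),(2,0),(1,0),(9,0),(4,1),(12,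
  1),(8,0)]⟩ ⟨1,[(19,0),(17,0),(2,0),(12,1)]⟩),(.r 0 ⟨1,[(19,0),(17,0),(2,0)]⟩ ⟨5,[(25,1),(6,0),(0,
  0),(19,2)]⟩),.k,.k,⟨true,(-1),⟨3,[(3,3),(6,1),(37,0),(4,0)]⟩,⟨5,[(25,1),(6,0),(0,0),(19,2)]⟩⟩,
  ⟨false,0,⟨0,[(0,0),(17,0)]⟩,⟨5,[(4,3),(27,1),(15,0),(3,2)]⟩⟩,⟨true,0,⟨1,[(39,0),(0,0)]⟩,⟨15,[(5,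
  0),(2,0),(1,0),(9,0),(4,1),(12,1),(8,0),(1,7)]⟩⟩,⟨false,1,⟨1,[(0,0),(6,0),(1,0),(43,1)]⟩,⟨17,[(4,
  6),(3,3),(2,4),(5,0),(1,0),(1,1),(26,2),(1,3)]⟩⟩,⟨false,0,⟨0,[]⟩,⟨0,[]⟩⟩,⟨false,0,⟨0,[]⟩,⟨0,[]⟩⟩,
  [.o ⟨false,0,⟨0,[(51,0)]⟩,⟨17,[(4,1),(14,5),(1,5),(10,3),(15,7),(3,2),(0,2)]⟩⟩,.e ⟨false,0,⟨0,[]⟩,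
  ⟨1,[(32,0),(0,0),(18,0)]⟩⟩ ⟨false,1,⟨14,[(0,3),(4,5),(1,4),(2,3),(13,0),(0,0),(10,5),(16,6)]⟩,⟨17,
  [(4,6),(3,3),(2,4),(5,0),(1,0),(1,1),(26,2),(1,3)]⟩⟩,.a ⟨true,0,⟨0,[(33,0)]⟩,⟨0,[(0,0),(17,0)]⟩⟩
  ⟨false,0,⟨1,[(39,0),(0,0)]⟩,⟨1,[(52,0),(0,0)]⟩⟩ ⟨true,0,⟨1,[(0,0),(6,0),(1,0)]⟩,⟨17,[(4,6),(3,3),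
  (2,4),(5,0),(1,0),(1,1),(26,2),(1,3)]⟩⟩,.o ⟨false,0,⟨0,[(6,0)]⟩,⟨3,[(1,1),(3,0),(5,0),(4,0),(8,0),
  (6,0)]⟩⟩]⟩) (.Q [0,0,0,0,1,0,0,0,-1,-1,0,-1] (.p false [1,-1,0,0,1] [] (⟨0,[(35,0),(9,0)]⟩,⟨0,[(2,
  0)]⟩) (.r 0 ⟨7,[(5,0),(2,0),(1,0),(9,0),(4,1),(12,1),(8,0)]⟩ ⟨1,[(19,0),(17,0),(2,0),(12,1)]⟩) 0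
  (⟨0,[]⟩,⟨0,[]⟩) .k .k) (.R ⟨0,false,false,false,[0,1,0,0,-1],[1,0,0,0,-1],[0,-1,1],(⟨0,[(3,0)]⟩,
  ⟨0,[(36,0),(9,0)]⟩),(⟨0,[(35,0)]⟩,⟨0,[(36,0)]⟩),⟨0,[(36,0)]⟩,(.r (-1) ⟨1,[(20,0),(17,0),(2,0),(12,
  1)]⟩ ⟨7,[(6,0),(2,0),(1,0),(9,0),(4,1),(12,1),(8,0)]⟩),.k,.k,.k,.k,.k,⟨true,0,⟨1,[(40,0),(0,0)]⟩,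
  ⟨0,[]⟩⟩,⟨false,0,⟨0,[(44,0),(1,0)]⟩,⟨1,[(49,0),(3,0)]⟩⟩,⟨true,0,⟨0,[(52,0)]⟩,⟨0,[(51,0)]⟩⟩,⟨false,
  0,⟨0,[(10,0),(43,0)]⟩,⟨17,[(5,1),(14,5),(1,5),(10,3),(15,7),(3,2),(0,2)]⟩⟩,⟨false,0,⟨0,[]⟩,⟨0,
  []⟩⟩,⟨false,0,⟨0,[]⟩,⟨0,[]⟩⟩,[.o ⟨false,1,⟨0,[(2,0)]⟩,⟨6,[(5,1),(1,1),(1,0),(29,0),(8,1),(0,0)]⟩⟩,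
  .e ⟨false,1,⟨0,[(54,0)]⟩,⟨0,[(48,0)]⟩⟩ ⟨false,1,⟨0,[(44,0),(1,0),(7,0)]⟩,⟨12,[(6,1),(2,1),(1,5),
  (0,8),(5,4),(2,6),(4,1),(22,5)]⟩⟩,.a ⟨true,1,⟨1,[(0,0),(5,0),(30,0)]⟩,⟨3,[(1,1),(3,0),(4,4),(3,0),
  (2,0),(22,1),(13,2)]⟩⟩ ⟨false,1,⟨1,[(40,0),(0,0),(12,1)]⟩,⟨15,[(6,0),(2,0),(1,0),(9,0),(4,1),(12,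
  1),(8,0),(1,7)]⟩⟩ ⟨true,0,⟨5,[(10,0),(0,0),(2,0),(1,0),(2,0),(20,1),(1,0),(3,1),(7,3)]⟩,⟨12,[(6,
  1),(2,1),(1,5),(0,8),(5,4),(2,6),(4,1),(22,5)]⟩⟩,.o ⟨false,1,⟨0,[(0,0)]⟩,⟨0,[(34,0)]⟩⟩]⟩) (.R ⟨2,
  true,false,false,[0,1],[0,0,0,0,1],[1,1,1,1],(⟨0,[]⟩,⟨0,[]⟩),(⟨0,[(36,0)]⟩,⟨0,[(35,0)]⟩),⟨0,[]⟩,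
  .k,.k,.k,(.r (-1) ⟨1,[(20,0),(17,0),(2,0),(12,1)]⟩ ⟨7,[(6,0),(2,0),(1,0),(9,0),(4,1),(12,1),(8,
  0)]⟩),.k,.k,⟨true,0,⟨9,[(14,1),(5,2),(17,0),(1,0),(0,1),(12,1)]⟩,⟨0,[(52,0)]⟩⟩,⟨false,0,⟨0,[(34,
  0)]⟩,⟨3,[(2,1),(3,0),(5,0),(4,0),(8,0),(6,0)]⟩⟩,⟨false,0,⟨0,[]⟩,⟨1,[(33,0),(0,0),(19,0)]⟩⟩,⟨true,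
  (-1),⟨0,[(0,0),(9,0),(38,0)]⟩,⟨5,[(2,1),(3,0),(5,0),(7,0),(1,1),(10,2)]⟩⟩,⟨true,0,⟨0,[(51,0)]⟩,⟨0,
  [(52,0)]⟩⟩,⟨false,0,⟨0,[(34,0)]⟩,⟨0,[(2,0)]⟩⟩,[]⟩))) (.R ⟨0,false,false,false,[0,0,0,0,1],[0,1],
  [1,0,2,1],(⟨0,[(34,0)]⟩,⟨0,[(33,0)]⟩),(⟨0,[(45,0)]⟩,⟨0,[(44,0)]⟩),⟨0,[(1,0)]⟩,.k,.k,(.r 0 ⟨7,[(4,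
  0),(2,0),(1,0),(9,0),(4,1),(12,1),(8,0)]⟩ ⟨1,[(18,0),(17,0),(2,0),(12,1)]⟩),(.r 0 ⟨7,[(4,0),(2,0),
  (1,0),(9,0),(4,1),(12,1),(8,0)]⟩ ⟨1,[(18,0),(17,0),(2,0),(12,1)]⟩),.k,.k,⟨false,0,⟨0,[]⟩,⟨1,[(31,
  0),(0,0),(18,0)]⟩⟩,⟨true,1,⟨7,[(4,4),(1,2),(8,2),(8,0),(3,0),(18,1)]⟩,⟨1,[(0,1),(1,1),(6,1),(37,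
  0),(4,2)]⟩⟩,⟨true,0,⟨3,[(2,3),(6,1),(37,0),(4,4)]⟩,⟨15,[(4,2),(2,2),(1,2),(9,2),(4,5),(12,5),(8,
  2),(1,7)]⟩⟩,⟨false,2,⟨6,[(4,1),(5,1),(1,0),(7,0),(10,4),(20,7)]⟩,⟨3,[(0,3),(8,1),(37,0),(4,0)]⟩⟩,
  ⟨false,0,⟨0,[]⟩,⟨0,[]⟩⟩,⟨false,0,⟨0,[]⟩,⟨0,[]⟩⟩,[.o ⟨false,1,⟨17,[(3,1),(14,5),(1,5),(10,3),(15,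
  7),(3,2),(0,2)]⟩,⟨0,[(50,0)]⟩⟩,.a ⟨true,1,⟨5,[(18,1),(1,1),(10,0),(0,0),(18,0),(0,3)]⟩,⟨0,[(8,
  0)]⟩⟩ ⟨true,0,⟨3,[(2,3),(6,1),(37,0),(4,4)]⟩,⟨7,[(4,0),(2,0),(1,0),(9,0),(4,1),(12,1),(8,0)]⟩⟩
  ⟨false,2,⟨2,[(4,0),(5,0),(9,0),(10,1),(19,0),(0,1)]⟩,⟨3,[(0,3),(8,1),(37,0),(4,0)]⟩⟩,.o ⟨false,0,
  ⟨1,[(0,1),(46,0),(4,0)]⟩,⟨0,[(31,0)]⟩⟩,.o ⟨false,0,⟨0,[(5,0)]⟩,⟨7,[(4,4),(1,2),(8,2),(8,0),(3,0),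
  (18,1)]⟩⟩]⟩))) (.I [0,0,-2,0,1,-2,0,0,1] (.I [0,0,2,0,0,2,0,0,-1] (.N [0,2,0,0,1] 1 ⟨0,[(11,0)]⟩
  ⟨0,[(2,0)]⟩ (.x (-1) ⟨0,[(1,0)]⟩ ⟨0,[(0,0)]⟩)) (.Q [0,0,0,0,0,0,0,0,0,1,-1,-1] (.ed true [0,0,1,0,
  1] (.r 1 ⟨1,[(8,1),(6,1),(31,0),(4,0)]⟩ ⟨1,[(3,1),(0,0),(1,1),(24,0),(6,0)]⟩)) (.Q [0,0,0,0,0,1,0,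
  0,0,0,0,-1] (.ed true [1,-1,0,0,1] .k) (.R ⟨0,false,false,false,[0,0,0,0,1],[0,1],[1,0,2,1],(⟨0,
  [(36,0)]⟩,⟨0,[(35,0)]⟩),(⟨0,[(47,0)]⟩,⟨0,[(46,0)]⟩),⟨0,[(0,0)]⟩,.k,.k,(.r 0 ⟨7,[(6,0),(2,0),(1,0),
  (9,0),(4,1),(12,1),(8,0)]⟩ ⟨1,[(20,0),(17,0),(2,0),(12,1)]⟩),(.r 0 ⟨7,[(6,0),(2,0),(1,0),(9,0),(4,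
  1),(12,1),(8,0)]⟩ ⟨1,[(20,0),(17,0),(2,0),(12,1)]⟩),.k,.k,⟨false,0,⟨0,[]⟩,⟨1,[(33,0),(0,0),(18,
  0)]⟩⟩,⟨true,1,⟨7,[(6,4),(1,2),(8,2),(8,0),(3,0),(18,1)]⟩,⟨0,[(2,0),(8,1),(1,1),(22,0),(7,1),(4,0),
  (4,1)]⟩⟩,⟨true,0,⟨3,[(11,1),(1,3),(35,0),(4,4)]⟩,⟨15,[(6,2),(2,2),(1,2),(9,2),(4,5),(12,5),(8,2),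
  (1,7)]⟩⟩,⟨false,2,⟨6,[(6,1),(5,1),(1,0),(7,0),(10,4),(20,7)]⟩,⟨3,[(2,3),(8,5),(1,3),(22,3),(7,7),
  (4,2),(4,2)]⟩⟩,⟨false,0,⟨0,[]⟩,⟨0,[]⟩⟩,⟨false,0,⟨0,[]⟩,⟨0,[]⟩⟩,[.o ⟨false,1,⟨17,[(5,1),(14,5),(1,
  5),(10,3),(15,7),(3,2),(0,2)]⟩,⟨0,[(52,0)]⟩⟩,.a ⟨true,1,⟨5,[(20,1),(1,1),(10,0),(0,0),(18,0),(0,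
  3)]⟩,⟨0,[(10,0)]⟩⟩ ⟨true,0,⟨3,[(11,1),(1,3),(35,0),(4,4)]⟩,⟨7,[(6,0),(2,0),(1,0),(9,0),(4,1),(12,
  1),(8,0)]⟩⟩ ⟨false,2,⟨2,[(6,0),(5,0),(9,0),(10,1),(19,0),(0,1)]⟩,⟨3,[(2,3),(8,5),(1,3),(22,3),(7,
  7),(4,2),(4,2)]⟩⟩,.o ⟨false,0,⟨0,[(2,0),(8,0),(1,0),(22,0),(7,1),(4,0),(4,0)]⟩,⟨0,[(33,0)]⟩⟩,.o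
  ⟨false,0,⟨0,[(7,0)]⟩,⟨7,[(6,4),(1,2),(8,2),(8,0),(3,0),(18,1)]⟩⟩]⟩) (.S ⟨1,0,[0,2,0,-1],[0,0,0,0,
  1],[1,1],(⟨0,[(36,0)]⟩,⟨0,[(35,0)]⟩),⟨0,[(0,0)]⟩,.k,(.r 0 ⟨7,[(6,0),(2,0),(1,0),(9,0),(4,1),(12,
  1),(8,0)]⟩ ⟨1,[(20,0),(17,0),(2,0),(12,1)]⟩),⟨true,0,⟨0,[]⟩,⟨0,[(56,0)]⟩⟩,⟨false,0,⟨0,[(52,0)]⟩,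
  ⟨5,[(20,1),(1,1),(10,0),(0,0),(18,0),(0,3)]⟩⟩,⟨false,1,⟨5,[(20,1),(1,1),(10,0),(0,0),(18,0),(0,
  3)]⟩,⟨0,[(52,0)]⟩⟩,⟨true,0,⟨0,[(56,0)]⟩,⟨0,[]⟩⟩,[.o ⟨false,(-1),⟨3,[(2,3),(8,5),(1,3),(22,3),(7,
  7),(4,4),(4,0)]⟩,⟨6,[(6,1),(5,1),(1,0),(7,0),(10,4),(20,7)]⟩⟩,.a ⟨true,(-1),⟨3,[(2,3),(8,5),(1,3),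
  (22,3),(7,7),(4,2),(4,2)]⟩,⟨4,[(6,1),(1,2),(5,0),(4,1),(2,0),(2,2),(28,0)]⟩⟩ ⟨true,0,⟨0,[]⟩,⟨1,
  [(40,0),(0,0)]⟩⟩ ⟨false,0,⟨7,[(6,0),(2,0),(1,0),(9,0),(4,1),(12,1),(8,0)]⟩,⟨5,[(20,1),(1,1),(10,
  0),(0,0),(18,0),(0,3)]⟩⟩,.o ⟨false,0,⟨0,[(2,0),(8,0),(1,0),(22,0),(7,1),(4,0),(4,0)]⟩,⟨0,[(33,
  0)]⟩⟩,.o ⟨false,0,⟨0,[(7,0)]⟩,⟨7,[(6,4),(1,2),(8,2),(8,0),(3,0),(18,1)]⟩⟩]⟩)) (.K ⟨0,[0,-1,0,0,1],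
  (-1),(-1),(⟨1,[(0,0),(13,0),(20,0)]⟩,⟨0,[(34,0),(8,0)]⟩),(.r 0 ⟨7,[(5,0),(2,0),(1,0),(9,0),(4,1),
  (12,1),(8,0)]⟩ ⟨1,[(19,0),(17,0),(2,0),(12,1)]⟩),(.r (-1) ⟨2,[(25,1),(6,0),(0,0),(21,2)]⟩ ⟨0,[(12,
  0),(40,0)]⟩),.k,(.r (-1) ⟨2,[(25,1),(1,2),(4,0),(0,0)]⟩ ⟨4,[(13,1),(6,0),(0,0),(2,0),(15,0),(12,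
  2)]⟩),.k,[⟨0,[(5,0)]⟩,⟨0,[(1,0),(8,1),(1,1),(22,0),(7,1),(4,0),(4,1)]⟩,⟨6,[(5,1),(5,1),(1,0),(7,
  0),(10,4),(20,0)]⟩,⟨15,[(4,4),(3,5),(1,9),(8,1),(9,0),(8,3),(8,1)]⟩]⟩))) (.S ⟨1,0,[0,0,1],[1,1,0,
  0,-1],[0,-1,1],(⟨0,[(32,0),(8,0)]⟩,⟨13,[(0,7),(0,5),(0,3),(6,3),(2,9),(1,3),(0,3),(13,9),(3,5),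
  (12,0),(4,0)]⟩),⟨0,[(32,0)]⟩,(.r (-1) ⟨1,[(17,0),(17,0),(2,0),(12,1)]⟩ ⟨7,[(3,0),(2,0),(1,0),(9,
  0),(4,1),(12,1),(8,0)]⟩),.k,⟨true,0,⟨0,[(49,0)]⟩,⟨0,[(48,0)]⟩⟩,⟨false,0,⟨0,[(49,0)]⟩,⟨5,[(17,1),
  (1,1),(10,0),(0,0),(18,0),(0,3)]⟩⟩,⟨false,1,⟨1,[(30,0),(0,0),(19,0)]⟩,⟨0,[]⟩⟩,⟨true,0,⟨0,[(53,
  0)]⟩,⟨0,[]⟩⟩,[.a ⟨true,0,⟨5,[(0,2),(0,1),(1,1),(1,0),(3,0),(2,1),(1,1),(14,1),(2,2)]⟩,⟨0,[(31,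
  0)]⟩⟩ ⟨false,1,⟨1,[(30,0),(0,0),(19,0)]⟩,⟨15,[(3,0),(2,0),(1,0),(9,0),(4,1),(12,1),(8,0),(1,7)]⟩⟩
  ⟨true,0,⟨1,[(37,0),(0,0)]⟩,⟨0,[]⟩⟩,.o ⟨false,1,⟨5,[(0,2),(0,1),(1,1),(1,0),(3,0),(2,1),(1,1),(14,
  1),(2,2),(13,2),(4,2)]⟩,⟨6,[(2,1),(1,1),(1,0),(29,0),(8,1),(0,0)]⟩⟩,.o ⟨false,1,⟨7,[(3,4),(1,2),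
  (8,2),(8,0),(3,0),(18,1)]⟩,⟨0,[(4,0)]⟩⟩,.e ⟨false,1,⟨0,[(51,0)]⟩,⟨0,[(53,0)]⟩⟩ ⟨false,1,⟨1,[(30,
  0),(0,0),(19,0)]⟩,⟨0,[]⟩⟩]⟩)))) (.Q [0,0,0,0,0,-1,0,0,0,0,0,1] (.ed false [1,-1,0,0,1] .k) (.R ⟨1,
  false,false,true,[0,0,0,0,1],[0,0,1],[0,1,0,-1],(⟨0,[(31,0)]⟩,⟨0,[(30,0)]⟩),(⟨0,[(38,0)]⟩,⟨0,[(37,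
  0)]⟩),⟨0,[(0,0)]⟩,.k,.k,(.r 0 ⟨10,[(6,3),(14,1),(21,1),(0,1),(0,2)]⟩ ⟨1,[(15,0),(17,0),(2,0),(12,
  1)]⟩),.k,(.r (-1) ⟨2,[(21,1),(1,2),(4,0),(0,0)]⟩ ⟨4,[(9,1),(6,0),(0,0),(2,0),(15,0),(12,2)]⟩),.k,
  ⟨false,1,⟨2,[(6,1),(6,2),(0,0),(19,1),(14,1)]⟩,⟨0,[(17,0)]⟩⟩,⟨true,1,⟨0,[(3,0),(9,0),(2,0),(18,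
  0)]⟩,⟨0,[(1,0)]⟩⟩,⟨true,0,⟨0,[(47,0)]⟩,⟨0,[(46,0)]⟩⟩,⟨false,1,⟨0,[(3,0),(9,0),(2,1),(18,0),(13,
  0)]⟩,⟨2,[(1,2),(4,0),(6,2),(0,1),(19,0),(14,0)]⟩⟩,⟨false,1,⟨1,[(28,0),(0,0),(19,0)]⟩,⟨0,[]⟩⟩,
  ⟨false,1,⟨0,[(3,0),(8,0),(0,0),(2,0),(18,0),(13,0)]⟩,⟨2,[(1,2),(4,1),(6,2),(0,0),(19,1),(14,1)]⟩⟩,
  [.o ⟨false,0,⟨0,[(19,0)]⟩,⟨0,[(34,0),(14,0)]⟩⟩,.a ⟨true,0,⟨0,[(20,0)]⟩,⟨2,[(6,0),(7,1),(19,0),(14,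
  0)]⟩⟩ ⟨true,0,⟨0,[(47,0)]⟩,⟨9,[(9,1),(5,2),(17,0),(1,0),(0,1),(12,1)]⟩⟩ ⟨false,1,⟨0,[(3,0),(9,0),
  (2,0),(3,0)]⟩,⟨2,[(1,2),(4,0),(6,2),(0,1),(19,0),(14,0)]⟩⟩,.o ⟨false,0,⟨0,[(1,0),(11,0)]⟩,⟨0,[(28,
  0)]⟩⟩,.o ⟨false,0,⟨0,[(2,0)]⟩,⟨0,[(3,0),(9,0),(2,0)]⟩⟩]⟩) (.R ⟨0,false,false,false,[0,0,0,0,1],[0,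
  1],[1,0,2,1],(⟨0,[(31,0)]⟩,⟨0,[(30,0)]⟩),(⟨0,[(42,0)]⟩,⟨0,[(41,0)]⟩),⟨0,[(0,0)]⟩,.k,.k,(.r 0 ⟨10,
  [(6,3),(14,1),(21,1),(0,1),(0,2)]⟩ ⟨1,[(15,0),(17,0),(2,0),(12,1)]⟩),(.r 0 ⟨10,[(6,3),(14,1),(21,
  1),(0,1),(0,2)]⟩ ⟨1,[(15,0),(17,0),(2,0),(12,1)]⟩),.k,.k,⟨false,0,⟨0,[]⟩,⟨1,[(28,0),(0,0),(18,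
  0)]⟩⟩,⟨true,1,⟨0,[(3,0),(9,0),(2,0)]⟩,⟨0,[(1,0),(33,0)]⟩⟩,⟨true,0,⟨3,[(6,1),(1,3),(35,0),(4,4)]⟩,
  ⟨10,[(6,5),(14,2),(21,2),(0,2),(0,9)]⟩⟩,⟨false,2,⟨2,[(3,0),(5,0),(3,0),(14,1),(16,0),(3,2)]⟩,⟨0,
  [(1,0),(3,0),(7,0)]⟩⟩,⟨false,0,⟨0,[]⟩,⟨0,[]⟩⟩,⟨false,0,⟨0,[]⟩,⟨0,[]⟩⟩,[.o ⟨false,1,⟨5,[(15,1),(1,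
  1),(10,0),(0,0),(14,2),(3,0),(0,0)]⟩,⟨0,[(47,0)]⟩⟩,.a ⟨true,1,⟨5,[(15,1),(1,1),(10,0),(0,0),(18,
  0),(0,3)]⟩,⟨0,[(5,0)]⟩⟩ ⟨true,0,⟨3,[(6,1),(1,3),(35,0),(4,4)]⟩,⟨10,[(6,3),(14,1),(21,1),(0,1),(0,
  2)]⟩⟩ ⟨false,2,⟨0,[(28,0),(16,0),(3,0)]⟩,⟨0,[(1,0),(3,0),(7,0)]⟩⟩,.o ⟨false,0,⟨0,[(1,0),(11,0)]⟩,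
  ⟨0,[(28,0)]⟩⟩,.o ⟨false,0,⟨0,[(2,0)]⟩,⟨0,[(3,0),(9,0),(2,0)]⟩⟩]⟩))) (.Q [0,0,0,0,0,-1,0,0,0,0,0,
  1] (.ed false [1,-1,0,0,1] .k) (.S ⟨1,0,[0,-1,1],[1,1,0,0,-1],[1,0,1,1],(⟨0,[(29,0),(8,0)]⟩,⟨0,
  [(0,0)]⟩),⟨0,[(29,0)]⟩,(.r (-1) ⟨1,[(14,0),(17,0),(2,0),(12,1)]⟩ ⟨22,[(1,2),(1,2),(1,3),(14,4),
  (12,2),(8,4),(0,1)]⟩),.k,⟨false,0,⟨0,[]⟩,⟨1,[(27,0),(0,0),(19,0)]⟩⟩,⟨true,0,⟨0,[(46,0)]⟩,⟨0,[(45,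
  0)]⟩⟩,⟨true,0,⟨0,[(45,0)]⟩,⟨0,[(46,0)]⟩⟩,⟨false,1,⟨1,[(27,0),(0,0),(19,0)]⟩,⟨0,[]⟩⟩,[.o ⟨false,1,
  ⟨9,[(1,5),(0,1),(2,1),(2,1),(18,1),(6,1),(8,4),(4,4)]⟩,⟨2,[(3,0),(24,1),(4,0),(9,0)]⟩⟩,.e ⟨false,
  1,⟨5,[(14,1),(1,1),(10,0),(0,0),(18,0),(0,3)]⟩,⟨22,[(1,2),(1,2),(1,3),(14,4),(12,2),(8,4),(0,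
  1)]⟩⟩ ⟨false,1,⟨0,[(48,0)]⟩,⟨0,[(42,0)]⟩⟩,.a ⟨true,0,⟨0,[(1,0)]⟩,⟨1,[(28,1),(5,0),(0,0)]⟩⟩ ⟨true,
  0,⟨9,[(8,1),(5,2),(17,0),(1,0),(0,1),(12,1)]⟩,⟨22,[(1,2),(1,2),(1,3),(14,4),(12,2),(8,4),(0,1)]⟩⟩
  ⟨false,1,⟨1,[(34,0),(0,0),(12,1)]⟩,⟨5,[(1,0),(1,0),(2,0),(13,0),(21,0),(1,0)]⟩⟩,.e ⟨false,1,⟨5,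
  [(14,1),(1,1),(10,0),(0,0),(18,0),(0,3)]⟩,⟨0,[(46,0)]⟩⟩ ⟨false,1,⟨0,[(48,0)]⟩,⟨0,[(50,0)]⟩⟩]⟩)
  (.R ⟨0,false,false,true,[0,1,0,0,-1],[1,0,0,0,-1],[1,0,1,1],(⟨0,[(0,0)]⟩,⟨0,[(30,0),(9,0)]⟩),(⟨0,
  [(29,0)]⟩,⟨0,[(30,0)]⟩),⟨0,[(30,0)]⟩,(.r (-1) ⟨1,[(14,0),(17,0),(2,0),(12,1)]⟩ ⟨22,[(1,2),(1,2),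
  (1,3),(14,4),(12,2),(8,4),(0,1)]⟩),.k,.k,.k,.k,.k,⟨true,0,⟨9,[(8,1),(5,2),(17,0),(1,0),(0,1),(12,
  1)]⟩,⟨0,[(46,0)]⟩⟩,⟨false,0,⟨0,[(38,0),(1,0)]⟩,⟨1,[(43,0),(3,0)]⟩⟩,⟨false,0,⟨0,[]⟩,⟨1,[(27,0),(0,
  0),(19,0)]⟩⟩,⟨true,(-1),⟨0,[(4,0)]⟩,⟨5,[(14,1),(1,1),(10,0),(0,0),(14,2),(3,0),(0,0)]⟩⟩,⟨false,0,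
  ⟨0,[]⟩,⟨0,[]⟩⟩,⟨false,0,⟨0,[]⟩,⟨0,[]⟩⟩,[.a ⟨true,0,⟨4,[(1,2),(0,0),(2,0),(2,0),(18,0),(6,0)]⟩,⟨0,
  [(28,0)]⟩⟩ ⟨true,0,⟨9,[(8,1),(5,2),(17,0),(1,0),(0,1),(12,1)]⟩,⟨0,[(46,0)]⟩⟩ ⟨false,0,⟨0,[(38,0),
  (1,0)]⟩,⟨1,[(43,0),(3,0)]⟩⟩,.o ⟨false,1,⟨9,[(1,5),(0,1),(2,1),(2,1),(18,1),(6,1),(8,4),(4,4)]⟩,⟨2,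
  [(3,0),(24,1),(4,0),(9,0)]⟩⟩,.o ⟨false,1,⟨0,[(1,0),(41,0)]⟩,⟨1,[(28,1),(5,0),(0,0)]⟩⟩,.o ⟨false,1,
  ⟨4,[(1,2),(0,0),(2,0),(2,0),(18,0),(6,0),(8,4)]⟩,⟨0,[(28,0)]⟩⟩]⟩))))))))

theorem ok109 : chk K t109 r63 = true := by decide +kernel

noncomputable def t113 : Tre :=
  (.Q [0,0,0,1,0,0,0,0,1,-1,0,1] (.p true [0,0,0,0,1] [1] (⟨0,[(20,0)]⟩,⟨0,[(19,0)]⟩) .k 1 (⟨0,[]⟩,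
  ⟨0,[]⟩) .k .k) (.Q [0,1,0,-1,-1,0,1,1,1,-1,1,1] (.p true [0,0,1] [1,0,0,0,-1] (⟨0,[(28,0)]⟩,⟨0,
  [(27,0)]⟩) .k 2 (⟨0,[(20,0)]⟩,⟨0,[(21,0)]⟩) .k (.r 1 ⟨0,[(2,0),(34,0)]⟩ ⟨2,[(11,0),(1,2),(4,1),(0,
  1),(19,2)]⟩)) (.Q [0,0,1,0,-1,0,0,0,1,0,0,1] (.p true [0,0,0,0,1] [] (⟨0,[(22,0)]⟩,⟨0,[(21,0)]⟩)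
  .k 0 (⟨0,[]⟩,⟨0,[]⟩) .k .k) (.Q [0,0,0,0,0,1,0,0,0,0,0,-1] (.ed true [1,-1,0,0,1] .k) (.Q [0,0,0,
  0,-1,0,0,0,1,1,0,1] (.p true [1,-1,0,0,1] [] (⟨0,[(24,0),(9,0)]⟩,⟨0,[(0,0)]⟩) (.r 0 ⟨1,[(9,0),(4,
  0),(1,0)]⟩ ⟨1,[(8,0),(17,0),(2,0),(12,1)]⟩) 0 (⟨0,[]⟩,⟨0,[]⟩) .k .k) (.R ⟨0,false,false,false,[0,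
  1,0,0,-1],[0,1],[1,0,1],(⟨0,[(1,0)]⟩,⟨0,[(25,0),(9,0)]⟩),(⟨0,[(36,0)]⟩,⟨0,[(35,0)]⟩),⟨0,[(25,0)]⟩,
  (.r (-1) ⟨1,[(9,0),(17,0),(2,0),(12,1)]⟩ ⟨1,[(10,0),(4,0),(1,0)]⟩),.k,.k,.k,.k,.k,⟨true,0,⟨0,[(41,
  0)]⟩,⟨2,[(6,0),(2,0),(19,0),(0,0),(12,0)]⟩⟩,⟨false,0,⟨6,[(0,2),(3,2),(10,0),(7,0),(18,1)]⟩,⟨0,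
  [(22,0)]⟩⟩,⟨false,0,⟨0,[(41,0)]⟩,⟨5,[(9,1),(1,1),(10,0),(0,0),(18,0),(0,3)]⟩⟩,⟨true,(-1),⟨1,[(0,
  0),(2,0),(8,0)]⟩,⟨0,[(22,0)]⟩⟩,⟨false,0,⟨0,[]⟩,⟨0,[]⟩⟩,⟨false,0,⟨0,[]⟩,⟨0,[]⟩⟩,[.o ⟨false,1,⟨5,
  [(9,1),(1,1),(10,0),(0,0),(14,2),(3,0),(0,0)]⟩,⟨0,[(41,0)]⟩⟩,.e ⟨false,1,⟨1,[(22,0),(0,0),(19,
  0)]⟩,⟨3,[(10,0),(4,0),(1,0),(21,1)]⟩⟩ ⟨false,0,⟨2,[(0,0),(1,0),(1,0),(1,0),(0,0),(0,0),(34,1)]⟩,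
  ⟨1,[(10,0),(4,0),(1,0),(4,1)]⟩⟩,.o ⟨false,2,⟨1,[(22,1),(15,0),(3,0)]⟩,⟨0,[(2,0)]⟩⟩,.a ⟨true,1,⟨0,
  [(22,0)]⟩,⟨0,[(0,0)]⟩⟩ ⟨true,0,⟨0,[]⟩,⟨0,[(45,0)]⟩⟩ ⟨false,0,⟨2,[(0,0),(1,0),(1,0),(1,0),(0,0),(0,
  0),(34,1)]⟩,⟨0,[(22,0),(18,0)]⟩⟩]⟩) (.R ⟨0,false,false,true,[0,1,0,0,-1],[1,1,-1],[1,-1,1],(⟨0,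
  [(1,0)]⟩,⟨0,[(25,0),(9,0)]⟩),(⟨0,[(31,0),(1,0)]⟩,⟨0,[(21,0)]⟩),⟨0,[(25,0)]⟩,(.r (-1) ⟨1,[(9,0),
  (17,0),(2,0),(12,1)]⟩ ⟨1,[(10,0),(4,0),(1,0)]⟩),.k,.k,.k,.k,.k,⟨false,1,⟨7,[(10,5),(0,0),(2,0),(0,
  2),(14,0),(12,10)]⟩,⟨3,[(10,0),(4,0),(1,4),(21,1)]⟩⟩,⟨true,(-1),⟨0,[(2,0),(23,0)]⟩,⟨0,[(0,0),(28,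
  0)]⟩⟩,⟨true,0,⟨0,[(41,0)]⟩,⟨0,[(40,0)]⟩⟩,⟨false,(-1),⟨1,[(2,1),(5,1),(1,0),(4,0),(1,0)]⟩,⟨0,[(0,
  0),(13,0),(28,0)]⟩⟩,⟨false,0,⟨0,[]⟩,⟨0,[]⟩⟩,⟨false,0,⟨0,[]⟩,⟨0,[]⟩⟩,[.o ⟨false,0,⟨0,[(12,0)]⟩,⟨9,
  [(0,3),(2,3),(9,1),(0,3),(0,1),(13,2),(0,2),(12,7)]⟩⟩,.a ⟨true,0,⟨0,[(8,0)]⟩,⟨0,[(14,0),(26,0)]⟩⟩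
  ⟨false,1,⟨0,[(43,0)]⟩,⟨0,[(37,0)]⟩⟩ ⟨true,(-1),⟨0,[(2,0),(5,0)]⟩,⟨0,[(0,0),(13,0),(26,0)]⟩⟩,.o
  ⟨false,2,⟨1,[(22,1),(15,0),(3,0)]⟩,⟨0,[(2,0)]⟩⟩,.o ⟨false,1,⟨0,[(0,0)]⟩,⟨0,[(23,0)]⟩⟩]⟩)) (.Q [0,
  0,-1,0,1,0,0,0,-1,1,0,-1] (.p false [0,0,0,0,1] [1] (⟨0,[(24,0)]⟩,⟨0,[(23,0)]⟩) .k 1 (⟨0,[]⟩,⟨0,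
  []⟩) .k .k) (.S ⟨1,0,[0,0,1],[1,1,0,0,-1],[0,-1,1],(⟨0,[(24,0),(8,0)]⟩,⟨0,[(1,0)]⟩),⟨0,[(24,0)]⟩,
  (.r (-1) ⟨1,[(9,0),(17,0),(2,0),(12,1)]⟩ ⟨1,[(10,0),(4,0),(1,0)]⟩),.k,⟨true,0,⟨0,[(41,0)]⟩,⟨0,
  [(40,0)]⟩⟩,⟨false,0,⟨0,[(41,0)]⟩,⟨11,[(0,1),(8,3),(1,3),(11,1),(14,0),(3,0),(0,7)]⟩⟩,⟨false,1,⟨1,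
  [(22,0),(0,0),(19,0)]⟩,⟨0,[]⟩⟩,⟨true,0,⟨0,[(45,0)]⟩,⟨0,[]⟩⟩,[.o ⟨false,1,⟨0,[(22,0)]⟩,⟨6,[(2,2),
  (1,2),(10,0),(7,0),(14,1)]⟩⟩,.e ⟨false,1,⟨0,[(43,0)]⟩,⟨0,[(37,0)]⟩⟩ ⟨false,1,⟨1,[(22,0),(0,0),(19,
  0)]⟩,⟨3,[(10,0),(4,0),(1,0),(21,1)]⟩⟩,.a ⟨true,1,⟨0,[(0,0)]⟩,⟨0,[(2,0)]⟩⟩ ⟨false,1,⟨1,[(29,0),(0,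
  0),(12,1)]⟩,⟨3,[(10,0),(4,0),(1,0),(21,1)]⟩⟩ ⟨true,0,⟨1,[(29,0),(0,0)]⟩,⟨3,[(10,0),(4,0),(1,0),
  (21,1)]⟩⟩,.o ⟨false,1,⟨0,[(22,0)]⟩,⟨6,[(2,2),(1,2),(10,0),(7,0),(14,1)]⟩⟩]⟩) (.R ⟨1,false,false,
  true,[0,0,0,0,1],[1,0,-1],[1,2],(⟨0,[(25,0)]⟩,⟨0,[(24,0)]⟩),(⟨0,[(31,0)]⟩,⟨0,[(32,0)]⟩),⟨0,[(1,
  0)]⟩,.k,.k,(.r 0 ⟨1,[(10,0),(4,0),(1,0)]⟩ ⟨1,[(9,0),(17,0),(2,0),(12,1)]⟩),.k,(.r 0 ⟨2,[(10,0),(2,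
  0),(1,0),(3,0),(7,0)]⟩ ⟨0,[(17,0),(25,0)]⟩),.k,⟨true,(-1),⟨0,[(10,0)]⟩,⟨0,[(28,0),(0,0),(13,0)]⟩⟩,
  ⟨false,1,⟨0,[(22,0),(3,0)]⟩,⟨0,[(2,0),(4,0)]⟩⟩,⟨false,0,⟨0,[]⟩,⟨1,[(22,0),(0,0),(19,0)]⟩⟩,⟨true,1,
  ⟨0,[(8,0),(13,0),(18,0)]⟩,⟨1,[(0,0),(2,0),(10,0),(24,0)]⟩⟩,⟨true,0,⟨0,[(40,0)]⟩,⟨0,[(41,0)]⟩⟩,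
  ⟨true,1,⟨0,[(8,0),(13,0)]⟩,⟨0,[(3,0)]⟩⟩,[.o ⟨false,0,⟨0,[(28,0)]⟩,⟨0,[(13,0),(29,0)]⟩⟩,.a ⟨true,0,
  ⟨0,[(8,0),(32,0)]⟩,⟨0,[(14,0)]⟩⟩ ⟨false,0,⟨3,[(10,0),(4,0),(1,0),(21,1)]⟩,⟨1,[(22,0),(0,0),(19,
  0)]⟩⟩ ⟨true,1,⟨0,[(8,0),(13,0),(18,0)]⟩,⟨0,[(0,0),(13,0)]⟩⟩,.o ⟨false,0,⟨9,[(0,2),(3,2),(10,0),(7,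
  3),(14,1)]⟩,⟨0,[(22,0)]⟩⟩,.o ⟨false,(-1),⟨0,[(0,0)]⟩,⟨1,[(22,2),(0,0),(18,0)]⟩⟩]⟩))) (.Q [0,0,0,0,
  0,-1,0,0,0,0,0,1] (.ed false [1,-1,0,0,1] .k) (.S ⟨1,0,[0,2,0,-1],[0,0,0,0,1],[1,1],(⟨0,[(24,0)]⟩,
  ⟨0,[(23,0)]⟩),⟨0,[(0,0)]⟩,.k,(.r 0 ⟨1,[(9,0),(4,0),(1,0)]⟩ ⟨1,[(8,0),(17,0),(2,0),(12,1)]⟩),⟨true,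
  0,⟨0,[]⟩,⟨0,[(44,0)]⟩⟩,⟨false,0,⟨0,[(40,0)]⟩,⟨5,[(8,1),(1,1),(10,0),(0,0),(18,0),(0,3)]⟩⟩,⟨false,
  1,⟨5,[(8,1),(1,1),(10,0),(0,0),(18,0),(0,3)]⟩,⟨0,[(40,0)]⟩⟩,⟨true,0,⟨0,[(44,0)]⟩,⟨0,[]⟩⟩,[.o
  ⟨false,(-1),⟨0,[(2,0),(24,0)]⟩,⟨2,[(1,0),(3,0),(2,0),(12,1),(20,3)]⟩⟩,.a ⟨true,(-1),⟨0,[(2,0),(4,
  0),(32,0)]⟩,⟨0,[(1,0),(5,0),(1,0),(18,0),(13,0)]⟩⟩ ⟨true,0,⟨0,[]⟩,⟨1,[(28,0),(0,0)]⟩⟩ ⟨false,0,⟨1,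
  [(9,0),(4,0),(1,0)]⟩,⟨5,[(8,1),(1,1),(10,0),(0,0),(18,0),(0,3)]⟩⟩,.o ⟨false,0,⟨1,[(2,0),(0,0),(23,
  0),(14,0)]⟩,⟨0,[(21,0)]⟩⟩,.o ⟨false,0,⟨1,[(2,0),(0,0),(23,0),(0,0),(0,0),(12,0)]⟩,⟨0,[(1,0)]⟩⟩]⟩)
  (.R ⟨0,false,false,true,[0,0,0,0,1],[1,0,-1,0,1],[1,1,0,-1],(⟨0,[(24,0)]⟩,⟨0,[(23,0)]⟩),(⟨0,[(24,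
  0),(5,0)]⟩,⟨0,[(0,0),(19,0)]⟩),⟨0,[(0,0)]⟩,.k,.k,(.r 0 ⟨1,[(9,0),(4,0),(1,0)]⟩ ⟨1,[(8,0),(17,0),
  (2,0),(12,1)]⟩),.k,.k,.k,⟨true,0,⟨0,[(9,0),(30,0),(1,0)]⟩,⟨0,[(16,0)]⟩⟩,⟨false,0,⟨0,[(25,0)]⟩,⟨3,
  [(6,1),(14,0),(0,0),(5,1),(8,0)]⟩⟩,⟨true,0,⟨0,[(40,0)]⟩,⟨0,[(39,0)]⟩⟩,⟨false,0,⟨0,[(7,0),(32,0)]⟩,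
  ⟨0,[(12,0),(29,0)]⟩⟩,⟨false,0,⟨0,[]⟩,⟨0,[]⟩⟩,⟨false,0,⟨0,[]⟩,⟨0,[]⟩⟩,[.o ⟨false,(-1),⟨0,[(2,0),(4,
  0),(19,0)]⟩,⟨1,[(1,1),(7,1),(18,1),(8,0),(4,2)]⟩⟩,.a ⟨true,(-1),⟨0,[(2,0),(4,1),(32,0)]⟩,⟨0,[(1,
  0),(7,0),(18,0),(13,0)]⟩⟩ ⟨true,0,⟨0,[(40,0)]⟩,⟨2,[(5,0),(2,0),(19,0),(0,0),(12,0)]⟩⟩ ⟨false,0,⟨1,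
  [(7,1),(1,0),(4,0),(1,0)]⟩,⟨0,[(12,0),(29,0)]⟩⟩,.o ⟨false,0,⟨1,[(2,0),(0,0),(23,0),(14,0)]⟩,⟨0,
  [(21,0)]⟩⟩,.o ⟨false,0,⟨1,[(2,0),(0,0),(23,0),(0,0),(0,0),(12,0)]⟩,⟨0,[(1,0)]⟩⟩]⟩))) (.Q [0,0,0,0,
  0,-1,0,0,0,0,0,1] (.ed false [1,-1,0,0,1] .k) (.R ⟨1,false,false,true,[0,0,0,0,1],[1,0,-1],[1,1],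
  (⟨0,[(23,0)]⟩,⟨0,[(22,0)]⟩),(⟨0,[(29,0)]⟩,⟨0,[(30,0)]⟩),⟨0,[(0,0)]⟩,.k,.k,(.r 0 ⟨1,[(8,0),(4,0),
  (1,0)]⟩ ⟨1,[(7,0),(17,0),(2,0),(12,1)]⟩),.k,(.r 0 ⟨2,[(8,0),(2,0),(1,0),(3,0),(7,0)]⟩ ⟨0,[(15,0),
  (25,0)]⟩),.k,⟨false,0,⟨2,[(4,1),(4,0),(3,0),(27,0)]⟩,⟨5,[(13,1),(1,5),(4,0),(0,0),(19,2)]⟩⟩,⟨true,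
  0,⟨0,[(1,0),(6,0),(30,0)]⟩,⟨0,[(2,0),(24,0),(11,0)]⟩⟩,⟨true,0,⟨0,[]⟩,⟨0,[(43,0)]⟩⟩,⟨false,1,⟨0,
  [(1,0),(37,0)]⟩,⟨0,[(2,0),(9,0),(26,0)]⟩⟩,⟨false,1,⟨5,[(7,1),(1,1),(10,0),(0,0),(18,0),(0,3)]⟩,⟨0,
  [(39,0)]⟩⟩,⟨false,1,⟨0,[(1,0)]⟩,⟨0,[(2,0),(9,0),(26,1)]⟩⟩,[.o ⟨false,0,⟨0,[(26,0)]⟩,⟨0,[(11,0),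
  (29,0)]⟩⟩,.a ⟨true,0,⟨0,[(6,0),(32,0)]⟩,⟨0,[(12,0)]⟩⟩ ⟨true,0,⟨0,[]⟩,⟨1,[(27,0),(0,0)]⟩⟩ ⟨false,1,
  ⟨1,[(1,1),(6,0),(4,0),(1,0)]⟩,⟨0,[(2,0),(9,0),(26,0)]⟩⟩,.o ⟨false,0,⟨0,[(2,0),(36,0)]⟩,⟨0,[(20,
  0)]⟩⟩,.o ⟨false,0,⟨1,[(2,1),(24,0),(0,0),(10,1)]⟩,⟨0,[(1,0),(3,0),(2,0),(30,0)]⟩⟩]⟩) (.R ⟨0,false,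
  false,true,[0,0,0,0,1],[1,0,-1],[1,1],(⟨0,[(23,0)]⟩,⟨0,[(22,0)]⟩),(⟨0,[(29,0)]⟩,⟨0,[(30,0)]⟩),⟨0,
  [(0,0)]⟩,.k,.k,(.r 0 ⟨1,[(8,0),(4,0),(1,0)]⟩ ⟨1,[(7,0),(17,0),(2,0),(12,1)]⟩),.k,.k,.k,⟨false,0,
  ⟨2,[(4,1),(4,0),(3,0),(27,0)]⟩,⟨5,[(13,1),(1,5),(4,0),(0,0),(19,2)]⟩⟩,⟨true,0,⟨0,[(1,0),(6,0),(30,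
  0)]⟩,⟨0,[(2,0),(24,0),(11,0)]⟩⟩,⟨true,0,⟨0,[]⟩,⟨0,[(43,0)]⟩⟩,⟨false,1,⟨0,[(1,0),(37,0)]⟩,⟨0,[(2,
  0),(9,0),(26,0)]⟩⟩,⟨false,0,⟨0,[]⟩,⟨0,[]⟩⟩,⟨false,0,⟨0,[]⟩,⟨0,[]⟩⟩,[.o ⟨false,0,⟨0,[(26,0)]⟩,⟨0,
  [(11,0),(29,0)]⟩⟩,.a ⟨true,0,⟨0,[(6,0),(32,0)]⟩,⟨0,[(12,0)]⟩⟩ ⟨true,0,⟨0,[]⟩,⟨1,[(27,0),(0,0)]⟩⟩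
  ⟨false,1,⟨1,[(1,1),(6,0),(4,0),(1,0)]⟩,⟨0,[(2,0),(9,0),(26,0)]⟩⟩,.o ⟨false,0,⟨0,[(2,0),(36,0)]⟩,
  ⟨0,[(20,0)]⟩⟩,.o ⟨false,0,⟨1,[(2,1),(24,0),(0,0),(10,1)]⟩,⟨0,[(1,0),(3,0),(2,0),(30,0)]⟩⟩]⟩)))
  (.Q [0,0,0,0,0,1,0,0,0,-1,0,1] (.ed false [0,1,0,0,1] .k) (.Q [0,0,-1,0,0,0,0,0,-1,1,0,-1] (.p
  false [0,0,0,0,1] [1] (⟨0,[(22,0)]⟩,⟨0,[(21,0)]⟩) .k 1 (⟨0,[]⟩,⟨0,[]⟩) .k .k) (.R ⟨1,false,false,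
  false,[0,0,0,0,1],[0,0,-1,0,1],[0,1,0,-1],(⟨0,[(23,0)]⟩,⟨0,[(22,0)]⟩),(⟨0,[(1,0),(16,0)]⟩,⟨0,[(22,
  0),(7,0)]⟩),⟨0,[(1,0),(16,0),(0,0)]⟩,.k,.k,(.r 0 ⟨1,[(8,0),(4,0),(1,0)]⟩ ⟨1,[(7,0),(17,0),(2,0),
  (12,1)]⟩),.k,.k,.k,⟨false,0,⟨7,[(8,5),(0,0),(2,0),(0,2),(14,0),(12,2)]⟩,⟨1,[(15,1),(24,0),(0,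
  0)]⟩⟩,⟨true,0,⟨0,[(14,0)]⟩,⟨0,[(27,0)]⟩⟩,⟨true,0,⟨0,[(39,0)]⟩,⟨0,[(38,0)]⟩⟩,⟨false,1,⟨0,[(26,0),
  (14,0)]⟩,⟨0,[(12,0)]⟩⟩,⟨false,1,⟨1,[(20,0),(0,0),(19,0)]⟩,⟨0,[]⟩⟩,⟨false,1,⟨1,[(6,1),(29,0),(4,
  0)]⟩,⟨0,[(12,0),(26,0)]⟩⟩,[.a ⟨true,0,⟨0,[(21,0),(4,0)]⟩,⟨0,[(0,0),(7,0),(18,0),(13,0)]⟩⟩ ⟨false,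
  0,⟨1,[(8,0),(4,0),(1,0)]⟩,⟨5,[(7,1),(1,1),(10,0),(0,0),(18,0),(0,3)]⟩⟩ ⟨true,0,⟨0,[(26,0)]⟩,⟨0,
  [(8,0),(18,0),(13,0)]⟩⟩,.o ⟨false,1,⟨1,[(21,1),(4,1),(9,0),(4,0)]⟩,⟨1,[(0,1),(7,1),(18,1),(8,0),
  (4,0)]⟩⟩,.a ⟨true,0,⟨0,[(21,0)]⟩,⟨3,[(0,0),(1,2),(1,0),(2,0),(33,0)]⟩⟩ ⟨false,0,⟨0,[(39,0)]⟩,⟨5,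
  [(7,1),(1,1),(10,0),(0,0),(18,0),(0,3)]⟩⟩ ⟨true,0,⟨0,[(26,0)]⟩,⟨0,[(12,0)]⟩⟩,.a ⟨true,0,⟨1,[(21,
  1),(5,0),(0,0)]⟩,⟨0,[(0,0)]⟩⟩ ⟨true,0,⟨1,[(8,0),(4,0),(1,0)]⟩,⟨2,[(4,0),(2,0),(19,0),(0,0),(12,
  0)]⟩⟩ ⟨false,1,⟨1,[(26,1),(13,0),(0,0)]⟩,⟨0,[(8,0),(18,0),(13,0)]⟩⟩]⟩) (.Q [0,0,0,0,0,0,0,0,-1,1,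
  0,-1] (.p false [0,0,0,0,1] [1] (⟨0,[(23,0)]⟩,⟨0,[(22,0)]⟩) .k 1 (⟨0,[]⟩,⟨0,[]⟩) .k .k) (.S ⟨1,0,
  [0,0,1],[1,1,0,0,-1],[0,-1,1],(⟨0,[(23,0),(8,0)]⟩,⟨0,[(2,0),(16,0),(0,0)]⟩),⟨0,[(23,0)]⟩,(.r (-1)
  ⟨1,[(8,0),(17,0),(2,0),(12,1)]⟩ ⟨1,[(9,0),(4,0),(1,0)]⟩),.k,⟨true,0,⟨0,[(40,0)]⟩,⟨0,[(39,0)]⟩⟩,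
  ⟨false,0,⟨0,[(40,0)]⟩,⟨5,[(8,1),(1,1),(10,0),(0,0),(18,0),(0,3)]⟩⟩,⟨false,1,⟨1,[(21,0),(0,0),(19,
  0)]⟩,⟨0,[]⟩⟩,⟨true,0,⟨0,[(44,0)]⟩,⟨0,[]⟩⟩,[.a ⟨true,0,⟨0,[(0,0)]⟩,⟨0,[(22,0)]⟩⟩ ⟨false,1,⟨1,[(21,
  0),(0,0),(19,0)]⟩,⟨3,[(9,0),(4,0),(1,0),(21,1)]⟩⟩ ⟨true,0,⟨1,[(28,0),(0,0)]⟩,⟨0,[]⟩⟩,.o ⟨false,1,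
  ⟨1,[(0,1),(36,0),(4,0)]⟩,⟨3,[(1,3),(7,0),(4,0),(1,0),(21,1)]⟩⟩,.o ⟨false,1,⟨1,[(0,1),(36,0),(3,
  0)]⟩,⟨0,[(1,0)]⟩⟩,.e ⟨false,1,⟨0,[(42,0)]⟩,⟨0,[(44,0)]⟩⟩ ⟨false,1,⟨1,[(21,0),(0,0),(19,0)]⟩,⟨0,
  []⟩⟩]⟩) (.R ⟨2,true,false,true,[0,1],[1,0,0,0,-1],[1,1,1,1],(⟨0,[]⟩,⟨0,[]⟩),(⟨0,[(23,0)]⟩,⟨0,[(24,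
  0)]⟩),⟨0,[]⟩,.k,.k,.k,(.r 0 ⟨1,[(8,0),(17,0),(2,0)]⟩ ⟨5,[(14,1),(6,0),(0,0),(19,2)]⟩),.k,.k,
  ⟨false,0,⟨0,[(39,0)]⟩,⟨5,[(14,1),(6,0),(0,0),(19,2)]⟩⟩,⟨true,0,⟨2,[(3,2),(1,0),(2,0),(19,0),(0,0),
  (12,0)]⟩,⟨0,[(0,0)]⟩⟩,⟨false,0,⟨0,[]⟩,⟨1,[(21,0),(0,0),(19,0)]⟩⟩,⟨true,0,⟨0,[(3,0)]⟩,⟨0,[(0,0),
  (38,0)]⟩⟩,⟨true,0,⟨0,[(39,0)]⟩,⟨0,[(40,0)]⟩⟩,⟨false,1,⟨1,[(3,0),(3,0),(5,0),(7,0),(20,0)]⟩,⟨0,[(0,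
  0)]⟩⟩,[]⟩))) (.Q [0,0,0,0,0,0,0,0,-1,1,0,-1] (.p false [0,0,0,0,1] [1] (⟨0,[(22,0)]⟩,⟨0,[(21,
  0)]⟩) .k 1 (⟨0,[]⟩,⟨0,[]⟩) .k .k) (.Q [0,0,-1,0,0,0,0,0,1,0,0,1] (.p true [0,0,0,0,1] [] (⟨0,[(23,
  0)]⟩,⟨0,[(22,0)]⟩) .k 0 (⟨0,[]⟩,⟨0,[]⟩) .k .k) (.S ⟨1,0,[0,0,0,-1],[1,0,0,0,-1],[1,-1],(⟨0,[(23,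
  0)]⟩,⟨0,[(24,0)]⟩),⟨0,[(2,0)]⟩,.k,(.r (-1) ⟨5,[(14,1),(6,0),(0,0),(19,2)]⟩ ⟨1,[(8,0),(17,0),(2,
  0)]⟩),⟨true,0,⟨0,[]⟩,⟨0,[(44,0)]⟩⟩,⟨false,0,⟨0,[(40,0)]⟩,⟨5,[(8,1),(1,1),(10,0),(0,0),(18,0),(0,
  3)]⟩⟩,⟨false,1,⟨5,[(8,1),(1,1),(10,0),(0,0),(18,0),(0,3)]⟩,⟨0,[(40,0)]⟩⟩,⟨true,0,⟨0,[(44,0)]⟩,⟨0,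
  []⟩⟩,[.a ⟨true,0,⟨0,[(3,0)]⟩,⟨2,[(0,0),(4,0),(2,0),(13,1),(19,0)]⟩⟩ ⟨false,1,⟨1,[(41,0),(0,0)]⟩,
  ⟨0,[(44,0)]⟩⟩ ⟨true,0,⟨0,[(40,0)]⟩,⟨2,[(5,0),(2,0),(19,0),(0,0),(12,0)]⟩⟩,.o ⟨false,1,⟨1,[(3,1),
  (33,0),(4,0)]⟩,⟨1,[(0,0),(7,0),(0,0),(12,0),(14,0)]⟩⟩,.a ⟨true,0,⟨0,[(1,0)]⟩,⟨0,[(22,0)]⟩⟩ ⟨false,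
  1,⟨0,[(42,0)]⟩,⟨0,[(44,0)]⟩⟩ ⟨true,0,⟨0,[(40,0)]⟩,⟨0,[(39,0)]⟩⟩,.a ⟨true,0,⟨1,[(1,1),(26,0),(0,
  0)]⟩,⟨0,[(0,0)]⟩⟩ ⟨true,1,⟨1,[(41,0),(0,0)]⟩,⟨0,[(9,0),(17,0),(0,0)]⟩⟩ ⟨false,1,⟨5,[(14,1),(6,0),
  (0,0),(19,2)]⟩,⟨2,[(5,0),(2,0),(19,0),(0,0),(12,0)]⟩⟩]⟩) (.Q [0,0,0,-1,0,0,0,0,-1,0,0,-1] (.p
  false [0,0,0,0,1] [] (⟨0,[(24,0)]⟩,⟨0,[(23,0)]⟩) .k 0 (⟨0,[]⟩,⟨0,[]⟩) .k .k) (.R ⟨2,true,false,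
  false,[0,1],[0,1,0,0,1],[0,0,1],(⟨0,[]⟩,⟨0,[]⟩),(⟨0,[(25,0),(7,0)]⟩,⟨0,[(3,0)]⟩),⟨0,[]⟩,.k,(.r 0
  ⟨1,[(9,0),(17,0),(2,0)]⟩ ⟨5,[(15,1),(6,0),(0,0),(19,2)]⟩),.k,.k,(.r (-1) ⟨5,[(15,1),(6,0),(0,0),
  (19,2)]⟩ ⟨1,[(9,0),(17,0),(2,0)]⟩),.k,⟨false,1,⟨5,[(15,1),(6,0),(0,0),(19,2)]⟩,⟨0,[(40,0)]⟩⟩,
  ⟨true,0,⟨0,[(23,0)]⟩,⟨0,[(1,0)]⟩⟩,⟨true,0,⟨0,[(41,0)]⟩,⟨0,[(40,0)]⟩⟩,⟨false,0,⟨0,[(23,0)]⟩,⟨2,[(0,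
  0),(0,0),(20,0),(16,0),(3,1)]⟩⟩,⟨false,1,⟨1,[(22,0),(0,0),(19,0)]⟩,⟨0,[]⟩⟩,⟨true,0,⟨0,[(23,0),(16,
  0)]⟩,⟨0,[(0,0)]⟩⟩,[]⟩) (.Q [0,0,0,0,0,-1,0,0,0,0,1,-1] (.p true [0,0,1] [0,0,0,0,1] (⟨0,[(32,0)]⟩,
  ⟨0,[(31,0)]⟩) .k 2 (⟨0,[(25,0)]⟩,⟨0,[(24,0)]⟩) .k (.r 0 ⟨0,[(10,0),(32,0)]⟩ ⟨2,[(15,0),(1,2),(4,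
  1),(0,1)]⟩)) (.Q [0,0,-1,0,0,0,-1,0,1,0,-1,1] (.p true [1,0,-1,0,1] [1] (⟨0,[(26,0),(5,0)]⟩,⟨0,
  [(0,0),(33,0)]⟩) .k 1 (⟨0,[]⟩,⟨0,[]⟩) .k (.r (-1) ⟨2,[(16,0),(1,2),(4,1),(0,1)]⟩ ⟨0,[(11,0),(32,
  0)]⟩)) (.R ⟨1,false,false,false,[0,0,1,0,-1],[0,0,1],[0,-1,0,-1,0,0,0,1],(⟨0,[(1,0),(33,0)]⟩,⟨0,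
  [(27,0),(5,0)]⟩),(⟨0,[(34,0)]⟩,⟨0,[(33,0)]⟩),⟨0,[(1,0)]⟩,.k,.k,(.r (-1) ⟨1,[(13,0),(2,0),(0,0),
  (14,0),(12,0)]⟩ ⟨0,[(19,0)]⟩),.k,(.r (-1) ⟨5,[(17,1),(6,0),(0,0),(19,2)]⟩ ⟨1,[(11,0),(17,0),(2,
  0)]⟩),.k,⟨false,1,⟨5,[(17,1),(6,0),(0,0),(19,2)]⟩,⟨0,[(42,0)]⟩⟩,⟨true,0,⟨0,[(25,0)]⟩,⟨0,[(3,0)]⟩⟩,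
  ⟨true,0,⟨0,[(43,0)]⟩,⟨0,[(42,0)]⟩⟩,⟨false,0,⟨0,[(25,0)]⟩,⟨1,[(3,1),(40,0),(0,0)]⟩⟩,⟨false,1,⟨1,
  [(24,0),(0,0),(19,0)]⟩,⟨0,[]⟩⟩,⟨false,0,⟨0,[(2,0)]⟩,⟨11,[(3,9),(13,3),(6,1),(6,0),(0,0),(12,5)]⟩⟩,
  [.a ⟨true,0,⟨0,[(16,0)]⟩,⟨0,[(10,0),(32,0)]⟩⟩ ⟨true,0,⟨0,[(12,0),(30,0),(1,0)]⟩,⟨0,[(19,0)]⟩⟩
  ⟨false,0,⟨0,[(0,0),(15,0)]⟩,⟨0,[(3,0),(5,0),(0,0),(32,0)]⟩⟩,.o ⟨false,1,⟨0,[(15,0),(29,0)]⟩,⟨0,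
  [(30,0)]⟩⟩,.o ⟨false,1,⟨0,[(3,0),(5,0)]⟩,⟨1,[(0,0),(24,0),(6,0)]⟩⟩,.o ⟨false,1,⟨2,[(3,1),(5,0),
  (14,0),(6,1),(8,0)]⟩,⟨0,[(0,0)]⟩⟩]⟩) (.K ⟨0,[0,0,1,0,-1],0,0,(⟨0,[(1,0),(33,0)]⟩,⟨0,[(27,0),(5,
  0)]⟩),.k,(.r (-1) ⟨1,[(13,0),(2,0),(0,0),(14,0),(12,0)]⟩ ⟨0,[(19,0)]⟩),(.r 0 ⟨1,[(8,1),(22,0),(0,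
  0),(12,1)]⟩ ⟨2,[(17,1),(1,2),(4,0),(0,0)]⟩),.k,.k,[⟨0,[(25,0)]⟩,⟨0,[(0,0)]⟩,⟨0,[(25,0),(4,0),(16,
  0)]⟩,⟨2,[(0,2),(7,1),(4,0),(3,0),(27,0)]⟩]⟩)) (.Q [0,0,0,0,0,-1,0,0,0,0,0,1] (.ed false [1,-1,0,0,
  1] .k) (.Q [0,0,0,0,0,0,0,0,0,0,-1,1] (.ed false [1,0,-1,0,1] (.r (-1) ⟨2,[(17,0),(1,2),(4,1),(0,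
  1)]⟩ ⟨0,[(12,0),(32,0)]⟩)) (.Q [0,0,-1,0,0,0,0,0,-1,1,0,-1] (.p false [0,0,0,0,1] [1] (⟨0,[(28,
  0)]⟩,⟨0,[(27,0)]⟩) .k 1 (⟨0,[]⟩,⟨0,[]⟩) .k .k) (.R ⟨1,false,false,false,[0,0,0,0,1],[0,0,-1,0,1],
  [0,1,0,-1],(⟨0,[(29,0)]⟩,⟨0,[(28,0)]⟩),(⟨0,[(1,0)]⟩,⟨0,[(28,0),(7,0)]⟩),⟨0,[(2,0)]⟩,.k,.k,(.r 0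
  ⟨1,[(14,0),(4,0),(1,0)]⟩ ⟨1,[(13,0),(17,0),(2,0),(12,1)]⟩),.k,.k,.k,⟨false,0,⟨7,[(14,5),(0,0),(2,
  0),(0,2),(14,0),(12,2)]⟩,⟨1,[(21,1),(24,0),(0,0)]⟩⟩,⟨true,0,⟨0,[(20,0)]⟩,⟨0,[(33,0)]⟩⟩,⟨true,0,⟨0,
  [(45,0)]⟩,⟨0,[(44,0)]⟩⟩,⟨false,1,⟨0,[(32,0),(14,0)]⟩,⟨0,[(18,0)]⟩⟩,⟨false,1,⟨1,[(26,0),(0,0),(19,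
  0)]⟩,⟨0,[]⟩⟩,⟨false,1,⟨1,[(12,1),(29,0),(4,0)]⟩,⟨0,[(18,0),(26,0)]⟩⟩,[.a ⟨true,0,⟨0,[(27,0),(4,
  0)]⟩,⟨0,[(0,0),(13,0),(18,0),(13,0)]⟩⟩ ⟨false,0,⟨1,[(14,0),(4,0),(1,0)]⟩,⟨7,[(4,1),(8,1),(1,1),
  (10,1),(19,0),(0,4)]⟩⟩ ⟨true,0,⟨0,[(32,0)]⟩,⟨0,[(14,0),(18,0),(13,0)]⟩⟩,.o ⟨false,1,⟨1,[(27,1),(4,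
  1),(9,0),(4,0)]⟩,⟨1,[(0,0),(4,0),(5,0),(2,1),(18,0),(13,0)]⟩⟩,.a ⟨true,0,⟨0,[(27,0)]⟩,⟨0,[(6,
  0)]⟩⟩ ⟨false,0,⟨0,[(45,0)]⟩,⟨7,[(4,1),(8,1),(1,1),(10,1),(19,0),(0,4)]⟩⟩ ⟨true,0,⟨0,[(32,0)]⟩,⟨0,
  [(18,0)]⟩⟩,.a ⟨true,0,⟨1,[(27,1),(5,0),(0,0)]⟩,⟨0,[(0,0)]⟩⟩ ⟨true,0,⟨1,[(14,0),(4,0),(1,0)]⟩,⟨2,
  [(10,0),(2,0),(19,0),(0,0),(12,0)]⟩⟩ ⟨false,1,⟨1,[(32,1),(13,0),(0,0)]⟩,⟨0,[(14,0),(18,0),(13,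
  0)]⟩⟩]⟩) (.S ⟨1,0,[0,0,1],[1,1,0,0,-1],[0,-1,1],(⟨0,[(28,0),(8,0)]⟩,⟨0,[(2,0)]⟩),⟨0,[(28,0)]⟩,(.r
  (-1) ⟨1,[(13,0),(17,0),(2,0),(12,1)]⟩ ⟨1,[(14,0),(4,0),(1,0)]⟩),.k,⟨true,0,⟨0,[(45,0)]⟩,⟨0,[(44,
  0)]⟩⟩,⟨false,0,⟨0,[(45,0)]⟩,⟨7,[(4,1),(8,1),(1,1),(10,1),(19,0),(0,4)]⟩⟩,⟨false,1,⟨1,[(26,0),(0,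
  0),(19,0)]⟩,⟨0,[]⟩⟩,⟨true,0,⟨0,[(49,0)]⟩,⟨0,[]⟩⟩,[.a ⟨true,0,⟨0,[(6,0)]⟩,⟨0,[(27,0)]⟩⟩ ⟨false,1,
  ⟨1,[(26,0),(0,0),(19,0)]⟩,⟨3,[(14,0),(4,0),(1,0),(21,1)]⟩⟩ ⟨true,0,⟨1,[(33,0),(0,0)]⟩,⟨0,[]⟩⟩,.o
  ⟨false,1,⟨1,[(5,1),(40,0),(0,0)]⟩,⟨3,[(0,3),(13,0),(4,0),(1,0),(21,1)]⟩⟩,.o ⟨false,1,⟨0,[(5,0),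
  (40,0)]⟩,⟨0,[(0,0)]⟩⟩,.e ⟨false,1,⟨0,[(47,0)]⟩,⟨0,[(49,0)]⟩⟩ ⟨false,1,⟨1,[(26,0),(0,0),(19,0)]⟩,
  ⟨0,[]⟩⟩]⟩)) (.Q [0,0,-1,0,0,0,-1,0,1,0,-1,1] (.p true [1,0,-1,0,1] [1] (⟨0,[(28,0),(5,0)]⟩,⟨0,[(0,
  0)]⟩) .k 1 (⟨0,[]⟩,⟨0,[]⟩) .k (.r (-1) ⟨2,[(18,0),(1,2),(4,1),(0,1)]⟩ ⟨0,[(13,0),(32,0)]⟩)) (.R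
  ⟨0,false,false,false,[0,0,1,0,-1],[0,0,1],[1,-1,0,-1,0,0,0,1],(⟨0,[(1,0)]⟩,⟨0,[(29,0),(5,0)]⟩),
  (⟨0,[(36,0)]⟩,⟨0,[(35,0)]⟩),⟨0,[(3,0)]⟩,.k,.k,(.r (-1) ⟨1,[(15,0),(2,0),(0,0),(14,0),(12,0)]⟩ ⟨0,
  [(21,0)]⟩),.k,.k,.k,⟨false,1,⟨5,[(19,1),(6,0),(0,0),(19,2)]⟩,⟨0,[(44,0)]⟩⟩,⟨true,0,⟨0,[(27,0)]⟩,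
  ⟨0,[(5,0)]⟩⟩,⟨true,0,⟨0,[(45,0)]⟩,⟨0,[(44,0)]⟩⟩,⟨false,0,⟨0,[(27,0)]⟩,⟨1,[(5,1),(40,0),(0,0)]⟩⟩,
  ⟨false,0,⟨0,[]⟩,⟨0,[]⟩⟩,⟨false,0,⟨0,[]⟩,⟨0,[]⟩⟩,[.a ⟨true,0,⟨0,[(18,0)]⟩,⟨0,[(12,0),(32,0)]⟩⟩
  ⟨true,0,⟨0,[(14,0),(30,0),(1,0)]⟩,⟨0,[(21,0)]⟩⟩ ⟨false,0,⟨0,[(0,0),(17,0)]⟩,⟨0,[(5,0),(5,0),(0,0),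
  (32,0)]⟩⟩,.o ⟨false,1,⟨0,[(17,0),(29,0)]⟩,⟨0,[(32,0)]⟩⟩,.o ⟨false,1,⟨0,[(5,0),(5,0)]⟩,⟨1,[(0,0),
  (26,0),(6,0)]⟩⟩,.o ⟨false,1,⟨2,[(5,1),(5,0),(14,0),(6,1),(8,0)]⟩,⟨0,[(0,0)]⟩⟩]⟩) (.K ⟨0,[0,0,1,0,
  -1],0,0,(⟨0,[(1,0)]⟩,⟨0,[(29,0),(5,0)]⟩),.k,(.r (-1) ⟨1,[(15,0),(2,0),(0,0),(14,0),(12,0)]⟩ ⟨0,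
  [(21,0)]⟩),(.r 0 ⟨1,[(10,1),(22,0),(0,0),(12,1)]⟩ ⟨2,[(19,1),(1,2),(4,0),(0,0)]⟩),.k,.k,[⟨0,[(27,
  0)]⟩,⟨0,[(0,0)]⟩,⟨0,[(27,0),(4,0),(16,0)]⟩,⟨2,[(0,2),(9,1),(4,0),(3,0),(27,0)]⟩]⟩))) (.Q [0,-1,-1,
  1,1,0,0,0,-1,0,0,-1] (.p false [0,0,0,0,1] [] (⟨0,[(27,0)]⟩,⟨0,[(26,0)]⟩) .k 0 (⟨0,[]⟩,⟨0,[]⟩) .k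
  .k) (.Q [0,0,-1,0,1,0,0,0,-1,-1,0,-1] (.p false [1,-1,0,0,1] [] (⟨0,[(28,0),(9,0)]⟩,⟨0,[(1,0)]⟩)
  (.r 0 ⟨1,[(13,0),(4,0),(1,0)]⟩ ⟨1,[(12,0),(17,0),(2,0),(12,1)]⟩) 0 (⟨0,[]⟩,⟨0,[]⟩) .k .k) (.R ⟨0,
  false,false,true,[0,1,0,0,-1],[0,0,1,0,-1],[1],(⟨0,[(2,0)]⟩,⟨0,[(29,0),(9,0)]⟩),(⟨0,[(2,0),(22,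
  0)]⟩,⟨0,[(29,0),(5,0)]⟩),⟨0,[(29,0)]⟩,(.r (-1) ⟨1,[(13,0),(17,0),(2,0),(12,1)]⟩ ⟨1,[(14,0),(4,0),
  (1,0)]⟩),.k,.k,.k,.k,.k,⟨false,1,⟨0,[(11,0),(0,0),(32,0)]⟩,⟨7,[(14,1),(0,2),(2,2),(0,0),(14,2),
  (12,0)]⟩⟩,⟨true,0,⟨0,[(33,0)]⟩,⟨0,[(20,0)]⟩⟩,⟨true,0,⟨1,[(14,0),(4,0),(1,0)]⟩,⟨2,[(10,0),(2,0),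
  (19,0),(0,0),(12,0)]⟩⟩,⟨false,0,⟨0,[(18,0),(26,0)]⟩,⟨1,[(12,1),(29,0),(4,0)]⟩⟩,⟨false,0,⟨0,[]⟩,⟨0,
  []⟩⟩,⟨false,0,⟨0,[]⟩,⟨0,[]⟩⟩,[.a ⟨true,0,⟨0,[(1,0),(12,0),(18,0),(11,0)]⟩,⟨0,[(12,0),(14,0),(17,
  0)]⟩⟩ ⟨true,0,⟨0,[]⟩,⟨1,[(33,0),(0,0)]⟩⟩ ⟨false,0,⟨0,[(18,0)]⟩,⟨1,[(32,1),(13,0),(0,0)]⟩⟩,.o
  ⟨false,1,⟨0,[(0,0),(13,0),(18,0),(13,0)]⟩,⟨0,[(27,0),(4,0)]⟩⟩,.o ⟨false,1,⟨0,[(0,0)]⟩,⟨1,[(27,1),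
  (5,0),(0,0)]⟩⟩,.o ⟨false,1,⟨2,[(0,0),(4,0),(20,0),(15,0)]⟩,⟨0,[(27,0)]⟩⟩]⟩) (.R ⟨0,false,false,
  false,[0,1,0,0,-1],[0,0,1,0,-1],[0,-1,1,1],(⟨0,[(2,0)]⟩,⟨0,[(29,0),(9,0)]⟩),(⟨0,[(2,0),(22,0)]⟩,
  ⟨0,[(29,0),(5,0)]⟩),⟨0,[(29,0)]⟩,(.r (-1) ⟨1,[(13,0),(17,0),(2,0),(12,1)]⟩ ⟨1,[(14,0),(4,0),(1,
  0)]⟩),.k,.k,.k,.k,.k,⟨false,1,⟨1,[(21,1),(24,0),(0,0)]⟩,⟨7,[(14,5),(0,0),(2,0),(0,2),(14,0),(12,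
  2)]⟩⟩,⟨true,0,⟨0,[(33,0)]⟩,⟨0,[(20,0)]⟩⟩,⟨false,1,⟨1,[(26,0),(0,0),(19,0)]⟩,⟨0,[]⟩⟩,⟨true,0,⟨0,
  [(18,0),(26,0)]⟩,⟨0,[(16,0)]⟩⟩,⟨false,0,⟨0,[]⟩,⟨0,[]⟩⟩,⟨false,0,⟨0,[]⟩,⟨0,[]⟩⟩,[.o ⟨false,1,⟨0,
  [(5,0),(5,0),(2,0),(32,0)]⟩,⟨0,[(27,0),(4,0)]⟩⟩,.e ⟨false,1,⟨1,[(0,1),(0,1),(40,0),(4,0)]⟩,⟨0,
  [(41,0),(3,0)]⟩⟩ ⟨false,1,⟨0,[(18,0),(28,0)]⟩,⟨3,[(14,0),(4,0),(1,0),(10,3),(10,1)]⟩⟩,.a ⟨true,1,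
  ⟨12,[(1,5),(3,1),(13,1),(6,4),(14,2)]⟩,⟨0,[(0,0)]⟩⟩ ⟨false,1,⟨2,[(10,0),(2,0),(19,0),(0,0),(12,
  3)]⟩,⟨1,[(14,0),(4,0),(1,0)]⟩⟩ ⟨true,0,⟨0,[(14,0),(18,0),(13,0)]⟩,⟨3,[(14,0),(4,0),(1,0),(10,3),
  (10,1)]⟩⟩,.o ⟨false,1,⟨25,[(1,5),(3,14),(13,1),(6,4),(14,2),(0,12)]⟩,⟨0,[(27,0)]⟩⟩]⟩)) (.Q [0,0,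
  -1,0,0,0,-1,0,1,0,-1,1] (.p true [1,0,-1,0,1] [1] (⟨0,[(28,0),(5,0)]⟩,⟨0,[(1,0),(22,0)]⟩) .k 1
  (⟨0,[]⟩,⟨0,[]⟩) .k (.r (-1) ⟨2,[(18,0),(1,2),(4,1),(0,1)]⟩ ⟨0,[(13,0),(32,0)]⟩)) (.R ⟨0,false,
  false,true,[0,0,1,0,-1],[1,0,0,0,-1],[1,-1,0,-1,0,0,0,1],(⟨0,[(2,0),(22,0)]⟩,⟨0,[(29,0),(5,0)]⟩),
  (⟨0,[(28,0)]⟩,⟨0,[(29,0)]⟩),⟨0,[(3,0)]⟩,.k,.k,(.r (-1) ⟨1,[(15,0),(2,0),(0,0),(14,0),(12,0)]⟩ ⟨0,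
  [(21,0)]⟩),.k,.k,.k,⟨true,0,⟨0,[(14,0),(30,0),(1,0)]⟩,⟨0,[(21,0)]⟩⟩,⟨false,0,⟨0,[(30,0)]⟩,⟨3,[(11,
  1),(14,0),(0,0),(5,1),(8,0)]⟩⟩,⟨true,0,⟨0,[(45,0)]⟩,⟨0,[(44,0)]⟩⟩,⟨false,0,⟨0,[(12,0),(32,0)]⟩,⟨0,
  [(17,0),(29,0)]⟩⟩,⟨false,0,⟨0,[]⟩,⟨0,[]⟩⟩,⟨false,0,⟨0,[]⟩,⟨0,[]⟩⟩,[.a ⟨true,0,⟨0,[(6,0)]⟩,⟨0,[(27,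
  0)]⟩⟩ ⟨true,0,⟨0,[(14,0),(30,0),(1,0)]⟩,⟨0,[(21,0)]⟩⟩ ⟨false,0,⟨0,[(30,0)]⟩,⟨3,[(11,1),(14,0),(0,
  0),(5,1),(8,0)]⟩⟩,.o ⟨false,1,⟨1,[(5,1),(40,0),(0,0)]⟩,⟨8,[(0,0),(0,4),(2,2),(6,0),(29,0),(0,3),
  (0,1)]⟩⟩,.o ⟨false,1,⟨0,[(5,0),(5,0)]⟩,⟨1,[(0,0),(26,0),(6,0)]⟩⟩,.o ⟨false,1,⟨2,[(5,1),(5,0),(14,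
  0),(6,1),(8,0)]⟩,⟨0,[(0,0)]⟩⟩]⟩) (.K ⟨0,[0,0,1,0,-1],0,0,(⟨0,[(2,0),(22,0)]⟩,⟨0,[(29,0),(5,0)]⟩),
  .k,(.r (-1) ⟨1,[(15,0),(2,0),(0,0),(14,0),(12,0)]⟩ ⟨0,[(21,0)]⟩),(.r 0 ⟨1,[(10,1),(22,0),(0,0),
  (12,1)]⟩ ⟨2,[(19,1),(1,2),(4,0),(0,0)]⟩),.k,.k,[⟨0,[(27,0)]⟩,⟨0,[(0,0)]⟩,⟨0,[(27,0),(4,0),(16,
  0)]⟩,⟨2,[(0,2),(9,1),(4,0),(3,0),(27,0)]⟩]⟩))))))) (.R ⟨2,true,false,true,[0,1],[1,0,0,0,-1],[1,1,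
  1,1],(⟨0,[]⟩,⟨0,[]⟩),(⟨0,[(22,0)]⟩,⟨0,[(23,0)]⟩),⟨0,[]⟩,.k,.k,.k,(.r 0 ⟨1,[(7,0),(17,0),(2,0)]⟩
  ⟨5,[(13,1),(6,0),(0,0),(19,2)]⟩),.k,.k,⟨false,0,⟨0,[(38,0)]⟩,⟨5,[(13,1),(6,0),(0,0),(19,2)]⟩⟩,
  ⟨true,0,⟨2,[(2,2),(1,0),(2,0),(19,0),(0,0),(12,0)]⟩,⟨0,[(0,0)]⟩⟩,⟨false,0,⟨0,[]⟩,⟨1,[(20,0),(0,0),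
  (19,0)]⟩⟩,⟨true,0,⟨0,[(2,0)]⟩,⟨0,[(0,0),(37,0)]⟩⟩,⟨true,0,⟨0,[(38,0)]⟩,⟨0,[(39,0)]⟩⟩,⟨false,1,⟨1,
  [(2,0),(3,0),(5,0),(7,0),(20,0)]⟩,⟨0,[(0,0)]⟩⟩,[]⟩))))

theorem ok113 : chk K t113 r60 = true := by decide +kernel


end Helper25.S1T.Ymp_1cP4
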