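import Pool.Agent.Helper25.S1T.Ymp_1cP4_q

set_option autoImplicit false
set_option linter.all false

namespace Helper25.S1T.Ymp_1cP4

open Helper25.KG Helper25.KW Helper55.KE Helper11.CT

noncomputable def t125 : Tre :=
  (.Q [0,1,0,1,0,0,1,1,0,0,1] (.p true [0,0,1] [] (⟨0,[(16,0)]⟩,⟨0,[(15,0)]⟩) .k 0 (⟨0,[]⟩,⟨0,[]⟩)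
  .k .k) (.I [0,0,-2,0,1,-2,1] (.K ⟨0,[0,1,1],0,0,(⟨0,[(18,0),(0,0)]⟩,⟨0,[(6,0)]⟩),.k,.k,(.x (-1)
  ⟨0,[(0,0)]⟩ ⟨1,[(15,0),(0,2),(1,1),(0,3)]⟩),.k,.k,[⟨1,[(15,0),(0,0)]⟩,⟨0,[(2,0)]⟩,⟨0,[(14,0),(12,
  0)]⟩,⟨0,[(1,0)]⟩]⟩) (.I [0,0,2,2,0,0,0,1] (.I [0,0,-2,-2,1,0,0,-1] (.K ⟨0,[0,1,1],0,0,(⟨0,[(20,0),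
  (0,0)]⟩,⟨0,[(8,0)]⟩),.k,.k,(.r 0 ⟨0,[(1,0)]⟩ ⟨0,[(0,0)]⟩),.k,.k,[⟨1,[(17,0),(0,0)]⟩,⟨0,[(4,0)]⟩,
  ⟨0,[(16,0),(12,0)]⟩,⟨0,[(3,0)]⟩]⟩) (.I [0,0,2,0,-1,2,-1] (.K ⟨0,[0,1,1],0,0,(⟨0,[(21,0),(0,0)]⟩,
  ⟨0,[(9,0)]⟩),.k,.k,(.x (-2) ⟨0,[(5,0),(3,0),(14,0),(2,0),(3,0)]⟩ ⟨0,[(0,0)]⟩),.k,.k,[⟨1,[(18,0),
  (0,0)]⟩,⟨0,[(5,0)]⟩,⟨0,[(17,0),(12,0)]⟩,⟨0,[(4,0)]⟩]⟩) (.Q [0,-1,0,-1,0,0,1,1,0,0,1] (.p true [0,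
  0,1] [] (⟨0,[(21,0)]⟩,⟨0,[(20,0)]⟩) .k 0 (⟨0,[]⟩,⟨0,[]⟩) .k .k) (.R ⟨1,false,false,false,[1,0,-1],
  [1,-1],[],(⟨0,[(21,0)]⟩,⟨0,[(22,0)]⟩),(⟨0,[(25,0)]⟩,⟨0,[(26,0)]⟩),⟨0,[(10,0)]⟩,.k,.k,.k,.k,.k,.k,
  ⟨true,0,⟨5,[(2,0),(0,0),(3,1),(25,0)]⟩,⟨0,[(31,0)]⟩⟩,⟨false,0,⟨0,[(6,0)]⟩,⟨3,[(9,1),(2,0),(0,0),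
  (14,0),(3,1)]⟩⟩,⟨true,0,⟨6,[(0,1),(1,2),(2,1),(2,1),(0,1),(18,0)]⟩,⟨0,[(6,0),(11,0)]⟩⟩,⟨false,0,
  ⟨0,[(0,0)]⟩,⟨3,[(3,0),(3,0),(10,3),(10,0),(2,0),(0,2)]⟩⟩,⟨true,0,⟨13,[(0,1),(1,9),(2,1),(2,1),(0,
  1),(18,0),(3,6)]⟩,⟨0,[(6,0),(11,0),(12,0)]⟩⟩,⟨true,0,⟨1,[(0,0),(4,0)]⟩,⟨0,[(18,0)]⟩⟩,[.o ⟨false,0,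
  ⟨0,[(31,0)]⟩,⟨3,[(3,0),(3,0),(20,1),(0,0),(2,0),(0,0)]⟩⟩,.e ⟨false,1,⟨1,[(32,0),(0,0)]⟩,⟨0,[(35,
  0)]⟩⟩ ⟨false,1,⟨5,[(6,3),(1,1),(10,1),(12,0),(0,2)]⟩,⟨9,[(2,1),(6,3),(8,1),(8,0),(0,1),(0,2),(0,
  2)]⟩⟩,.a ⟨true,0,⟨4,[(4,0),(4,1),(11,0),(3,1),(6,0)]⟩,⟨0,[(6,0)]⟩⟩ ⟨false,1,⟨1,[(12,0),(0,0),(19,
  0)]⟩,⟨0,[]⟩⟩ ⟨true,0,⟨0,[(6,0),(24,0)]⟩,⟨9,[(2,1),(6,3),(8,1),(8,0),(0,1),(0,2),(0,2)]⟩⟩,.o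
  ⟨false,0,⟨0,[(20,0)]⟩,⟨1,[(6,1),(21,0),(3,0)]⟩⟩]⟩) (.Q [0,-1,0,-2,0,0,1,1,0,0,1] (.p true [0,0,1]
  [] (⟨0,[(22,0)]⟩,⟨0,[(21,0)]⟩) .k 0 (⟨0,[]⟩,⟨0,[]⟩) .k .k) (.R ⟨1,true,false,true,[0,0,1],[0,1],
  [1,1,0,0,0,0,0,1],(⟨0,[(23,0)]⟩,⟨0,[(22,0)]⟩),(⟨0,[(27,0)]⟩,⟨0,[(26,0)]⟩),⟨0,[(12,0)]⟩,.k,.k,.k,
  .k,(.r (-1) ⟨2,[(3,0),(0,1),(4,3)]⟩ ⟨0,[(3,0),(3,1),(11,1),(14,0)]⟩),.k,⟨true,0,⟨0,[(3,0),(5,0)]⟩,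
  ⟨1,[(0,0),(2,1),(3,3),(11,4),(14,1)]⟩⟩,⟨false,1,⟨1,[(17,1),(11,0),(3,0)]⟩,⟨0,[(20,0)]⟩⟩,⟨false,0,
  ⟨0,[]⟩,⟨1,[(13,0),(0,0),(19,0)]⟩⟩,⟨true,0,⟨0,[(1,0)]⟩,⟨1,[(0,0),(17,0)]⟩⟩,⟨true,0,⟨1,[(1,0),(4,
  0)]⟩,⟨0,[(32,0)]⟩⟩,⟨false,1,⟨3,[(1,3),(2,0),(3,0),(21,0),(2,0),(0,2)]⟩,⟨0,[(0,0)]⟩⟩,[]⟩) (.I [0,0,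
  1,0,0,0,0,-1] (.S ⟨1,0,[0,1,1,0,0,0,0,-1],[1,1,-1],[1],(⟨0,[(23,0),(1,0)]⟩,⟨0,[(13,0)]⟩),⟨0,[(23,
  0)]⟩,.k,.k,⟨true,0,⟨0,[(4,0),(5,0)]⟩,⟨0,[(9,0)]⟩⟩,⟨false,0,⟨0,[(33,0)]⟩,⟨11,[(1,1),(3,1),(1,1),(1,
  1),(24,2),(0,8)]⟩⟩,⟨false,1,⟨5,[(4,3),(0,1),(4,3),(23,2),(0,2)]⟩,⟨0,[(0,0)]⟩⟩,⟨true,0,⟨0,[(37,
  0)]⟩,⟨0,[]⟩⟩,[.o ⟨false,0,⟨0,[(20,0)]⟩,⟨9,[(4,5),(3,5),(1,3),(8,3),(10,4),(4,6)]⟩⟩,.a ⟨true,0,⟨0,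
  [(0,0),(17,0)]⟩,⟨4,[(4,2),(3,2),(1,1),(8,1),(15,0)]⟩⟩ ⟨false,1,⟨1,[(34,0),(0,0)]⟩,⟨0,[(37,0)]⟩⟩
  ⟨true,0,⟨0,[(0,0)]⟩,⟨2,[(4,1),(0,0),(4,1)]⟩⟩,.a ⟨true,0,⟨0,[(18,0)]⟩,⟨0,[(21,0)]⟩⟩ ⟨true,0,⟨0,[]⟩,
  ⟨0,[(37,0)]⟩⟩ ⟨false,0,⟨0,[(0,0)]⟩,⟨5,[(4,3),(0,1),(4,3),(23,2),(0,2)]⟩⟩,.a ⟨true,0,⟨4,[(6,0),(4,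
  1),(11,0),(3,1),(6,0)]⟩,⟨0,[(8,0)]⟩⟩ ⟨false,1,⟨1,[(34,0),(0,0)]⟩,⟨1,[(21,0),(0,0)]⟩⟩ ⟨true,0,⟨0,
  [(8,0),(11,0)]⟩,⟨2,[(4,1),(0,0),(4,1)]⟩⟩]⟩) (.Q [0,0,0,0,0,0,1,1,0,-1,1] (.p true [0,0,1] [1] (⟨0,
  [(24,0)]⟩,⟨0,[(23,0)]⟩) .k 1 (⟨0,[]⟩,⟨0,[]⟩) .k .k) (.S ⟨1,0,[0,0,1,0,0,0,0,1],[0,1,1],[1,1,1,1,0,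
  0,0,1],(⟨0,[(25,0),(0,0)]⟩,⟨0,[(13,0)]⟩),⟨0,[(25,0)]⟩,.k,.k,⟨false,0,⟨0,[]⟩,⟨1,[(15,0),(0,0),(19,
  0)]⟩⟩,⟨true,0,⟨0,[(34,0)]⟩,⟨14,[(2,3),(3,0),(1,3),(1,0),(19,2)]⟩⟩,⟨true,0,⟨14,[(2,3),(3,0),(1,3),
  (1,0),(19,2)]⟩,⟨0,[(34,0)]⟩⟩,⟨false,1,⟨1,[(15,0),(0,0),(19,0)]⟩,⟨0,[]⟩⟩,[.o ⟨false,0,⟨0,[(0,0)]⟩,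
  ⟨1,[(15,0),(0,0),(4,1),(14,0)]⟩⟩,.o ⟨false,1,⟨3,[(0,1),(19,1),(10,0),(4,2)]⟩,⟨0,[(21,0)]⟩⟩,.o
  ⟨false,1,⟨1,[(9,1),(21,0),(3,0)]⟩,⟨0,[(23,0)]⟩⟩,.a ⟨true,0,⟨0,[(9,0)]⟩,⟨4,[(7,0),(4,1),(11,0),(3,
  1),(6,0)]⟩⟩ ⟨false,0,⟨3,[(1,1),(3,0),(0,0),(28,0)]⟩,⟨0,[(9,0),(11,0),(12,0),(1,0)]⟩⟩ ⟨true,0,⟨2,
  [(1,1),(4,0),(27,1)]⟩,⟨0,[(9,0),(11,0)]⟩⟩]⟩) (.Q [0,-1,0,2,1,0,0,0,0,-1] (.pp true [-1,1]) (.S ⟨1,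
  0,[0,1,-1,-2],[1,-1],[1,0,-1,-1],(⟨0,[(29,0)]⟩,⟨0,[(30,0)]⟩),⟨0,[(14,0),(0,0)]⟩,.k,(.r (-1) ⟨2,
  [(12,1),(3,0),(0,0)]⟩ ⟨2,[(6,0),(0,0),(3,1),(25,0)]⟩),⟨true,0,⟨0,[]⟩,⟨0,[(39,0)]⟩⟩,⟨false,0,⟨0,
  [(35,0)]⟩,⟨11,[(3,1),(3,1),(1,1),(1,1),(24,2),(0,8)]⟩⟩,⟨false,1,⟨11,[(3,1),(3,1),(1,1),(1,1),(24,
  2),(0,8)]⟩,⟨0,[(35,0)]⟩⟩,⟨true,0,⟨0,[(39,0)]⟩,⟨0,[]⟩⟩,[.o ⟨false,0,⟨0,[(35,1),(3,0)]⟩,⟨0,[(0,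
  0)]⟩⟩,.o ⟨false,0,⟨0,[(35,1)]⟩,⟨11,[(0,5),(2,1),(3,1),(1,1),(1,1),(20,2),(3,2)]⟩⟩,.o ⟨false,0,⟨1,
  [(23,0),(0,0)]⟩,⟨1,[(32,0),(3,0)]⟩⟩,.a ⟨true,(-1),⟨0,[(1,0),(4,0),(3,0),(24,1)]⟩,⟨0,[(36,0)]⟩⟩
  ⟨true,1,⟨5,[(12,1),(3,0),(0,0),(18,2)]⟩,⟨0,[(6,0),(3,0),(11,0),(12,0)]⟩⟩ ⟨false,1,⟨2,[(12,1),(3,
  0),(0,0)]⟩,⟨0,[(6,0),(3,0),(11,0),(14,0)]⟩⟩]⟩) (.Q [0,-1,0,1,1,0,0,0,0,-1] (.pp true [-1,1]) (.R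
  ⟨2,true,false,true,[0,1],[1,-1],[1,1,1,1],(⟨0,[]⟩,⟨0,[]⟩),(⟨0,[(30,0)]⟩,⟨0,[(31,0)]⟩),⟨0,[]⟩,.k,
  .k,.k,(.r 0 ⟨2,[(7,0),(0,0),(3,1),(25,0)]⟩ ⟨2,[(13,1),(3,0),(0,0)]⟩),.k,.k,⟨false,0,⟨3,[(4,1),(2,
  0),(0,0),(2,1),(26,0)]⟩,⟨2,[(13,1),(3,0),(0,0)]⟩⟩,⟨true,(-1),⟨0,[(1,0),(5,0),(3,0),(11,0),(14,
  0)]⟩,⟨1,[(33,0),(3,0)]⟩⟩,⟨false,0,⟨0,[]⟩,⟨1,[(17,0),(0,0),(19,0)]⟩⟩,⟨true,(-1),⟨0,[(1,0)]⟩,⟨23,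
  [(0,17),(3,7),(3,1),(1,7),(1,1),(20,2),(3,2)]⟩⟩,⟨true,0,⟨14,[(4,3),(3,0),(1,3),(1,0),(19,2)]⟩,⟨0,
  [(36,0)]⟩⟩,⟨false,0,⟨2,[(9,0),(3,0),(10,0),(1,0),(3,1)]⟩,⟨0,[(0,0)]⟩⟩,[]⟩) (.I [0,0,2,2,-1,0,0,1]
  (.K ⟨0,[0,1,1],0,0,(⟨0,[(28,0),(0,0)]⟩,⟨0,[(16,0)]⟩),.k,.k,(.r 1 ⟨0,[(0,0)]⟩ ⟨1,[(13,1),(0,1),(3,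
  0),(0,0),(19,0)]⟩),.k,.k,[⟨1,[(25,0),(0,0)]⟩,⟨0,[(12,0)]⟩,⟨3,[(2,1),(21,3),(9,0),(4,0)]⟩,⟨0,[(11,
  0)]⟩]⟩) (.Q [0,0,-1,0,1,0,0,0,-1,0,0,-1] (.p false [0,0,0,0,1] [] (⟨0,[(21,0)]⟩,⟨0,[(20,0)]⟩) .k
  0 (⟨0,[]⟩,⟨0,[]⟩) .k .k) (.Q [0,0,0,0,0,0,-1,-1,-1,1,-1,-1] (.p false [0,0,1] [1,0,0,0,-1] (⟨0,
  [(29,0)]⟩,⟨0,[(28,0)]⟩) .k 2 (⟨0,[(21,0)]⟩,⟨0,[(22,0)]⟩) .k (.r 0 ⟨4,[(5,1),(18,2),(2,2),(6,0)]⟩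
  ⟨0,[(13,0),(11,0),(14,0)]⟩)) (.Q [0,0,0,0,0,-1,0,0,0,0,0,1] (.ed false [1,-1,0,0,1] .k) (.R ⟨1,
  false,false,false,[0,0,0,0,1],[1,-1,-1],[0,1,0,-1],(⟨0,[(24,0)]⟩,⟨0,[(23,0)]⟩),(⟨0,[(19,0)]⟩,⟨0,
  [(31,0),(0,0)]⟩),⟨0,[(0,0)]⟩,.k,.k,(.r 0 ⟨8,[(4,3),(12,1),(18,1),(0,1),(0,0)]⟩ ⟨2,[(3,0),(8,1),(3,
  0),(25,1)]⟩),(.r 1 ⟨3,[(4,1),(2,0),(3,2),(24,0),(0,0)]⟩ ⟨2,[(3,3),(8,1),(3,0),(25,1)]⟩),.k,.k,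
  ⟨true,(-1),⟨14,[(5,9),(1,3),(3,9),(14,0),(2,0),(6,1),(0,4)]⟩,⟨0,[(15,0),(11,0),(14,0)]⟩⟩,⟨false,0,
  ⟨9,[(1,6),(3,1),(1,4),(3,1),(6,0),(2,2),(7,0),(12,0)]⟩,⟨1,[(15,1),(6,1),(14,0),(3,0)]⟩⟩,⟨true,0,
  ⟨0,[(40,0)]⟩,⟨14,[(8,3),(3,0),(1,3),(1,0),(19,2)]⟩⟩,⟨false,1,⟨3,[(1,3),(3,1),(31,0),(4,4)]⟩,⟨2,
  [(4,0),(2,0),(3,0),(2,0),(0,1),(6,2),(14,1),(0,0)]⟩⟩,⟨false,1,⟨1,[(3,0),(8,0),(29,0)]⟩,⟨0,[]⟩⟩,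
  ⟨false,1,⟨0,[(1,0),(40,0)]⟩,⟨4,[(4,1),(0,0),(1,1),(3,0),(2,1),(0,2),(6,4),(14,3)]⟩⟩,[.a ⟨true,0,
  ⟨1,[(5,0),(0,0),(20,0),(14,0)]⟩,⟨7,[(7,2),(3,1),(2,2),(0,4),(22,0),(3,1)]⟩⟩ ⟨false,0,⟨8,[(4,3),
  (12,1),(18,1),(0,1),(0,0)]⟩,⟨11,[(8,1),(3,1),(1,1),(1,1),(24,2),(0,8)]⟩⟩ ⟨true,0,⟨3,[(1,3),(3,1),
  (31,0),(4,0)]⟩,⟨1,[(7,0),(3,0),(3,0),(6,1),(5,0),(8,0)]⟩⟩,.o ⟨false,1,⟨3,[(5,1),(21,3),(9,0),(4,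
  4)]⟩,⟨2,[(4,0),(2,0),(3,0),(2,0),(0,1),(21,1),(0,0)]⟩⟩,.a ⟨true,0,⟨0,[(22,0)]⟩,⟨2,[(1,0),(0,1),(1,
  1),(6,0),(3,0),(26,0)]⟩⟩ ⟨false,0,⟨0,[(40,0)]⟩,⟨11,[(8,1),(3,1),(1,1),(1,1),(24,2),(0,8)]⟩⟩ ⟨true,
  0,⟨3,[(1,3),(3,1),(31,0),(4,0)]⟩,⟨2,[(4,0),(2,0),(3,0),(2,0),(0,1),(6,2),(14,1),(0,0)]⟩⟩,.a ⟨true,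
  0,⟨1,[(22,1),(5,0),(0,0)]⟩,⟨0,[(1,0),(5,0),(7,0)]⟩⟩ ⟨true,0,⟨8,[(4,3),(12,1),(18,1),(0,1),(0,0)]⟩,
  ⟨5,[(11,0),(0,0),(3,1),(25,0)]⟩⟩ ⟨false,1,⟨5,[(1,4),(4,0),(10,1),(3,0),(20,2)]⟩,⟨1,[(7,0),(3,0),
  (3,0),(6,1),(5,0),(8,0)]⟩⟩]⟩) (.K ⟨0,[0,0,1,0,-1],0,0,(⟨0,[(0,0),(19,0)]⟩,⟨0,[(24,0),(5,0)]⟩),.k,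
  (.r (-1) ⟨7,[(5,1),(1,3),(4,3),(4,3),(19,0),(4,4)]⟩ ⟨0,[(16,0)]⟩),(.r 0 ⟨11,[(5,1),(1,3),(3,5),(0,
  1),(24,0),(4,6)]⟩ ⟨2,[(3,2),(8,0),(3,0),(27,1)]⟩),.k,.k,[⟨0,[(22,0)]⟩,⟨2,[(1,1),(0,0),(2,1),(5,1),
  (3,4),(21,1),(4,0)]⟩,⟨0,[(22,0),(4,0),(16,0)]⟩,⟨2,[(1,1),(0,0),(2,1),(1,2),(3,1),(3,4),(21,1),(4,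
  0)]⟩]⟩)) (.Q [0,0,0,0,0,2,0,0,0,0,-1] (.p false [0,0,1] [] (⟨0,[(30,0)]⟩,⟨0,[(29,0)]⟩) .k 0 (⟨0,
  []⟩,⟨0,[]⟩) .k .k) (.R ⟨0,false,false,true,[0,-1,1],[1,-1],[0,1],(⟨0,[(20,0)]⟩,⟨0,[(0,0),(33,
  0)]⟩),(⟨0,[(34,0)]⟩,⟨0,[(35,0)]⟩),⟨0,[(0,0)]⟩,.k,.k,(.r (-1) ⟨11,[(5,1),(1,3),(4,7),(4,11),(19,0),
  (4,0)]⟩ ⟨0,[(11,0),(3,1),(11,1),(14,0)]⟩),.k,.k,.k,⟨true,0,⟨5,[(11,0),(0,0),(3,1),(25,0)]⟩,⟨3,[(5,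
  1),(31,0),(4,0)]⟩⟩,⟨false,0,⟨0,[(25,0)]⟩,⟨1,[(28,1),(8,0),(3,0)]⟩⟩,⟨true,0,⟨0,[(16,0)]⟩,⟨3,[(5,1),
  (1,3),(29,0),(4,0)]⟩⟩,⟨false,0,⟨0,[(6,0)]⟩,⟨1,[(7,1),(20,1),(8,0),(4,0)]⟩⟩,⟨false,0,⟨0,[]⟩,⟨0,
  []⟩⟩,⟨false,0,⟨0,[]⟩,⟨0,[]⟩⟩,[.e ⟨false,0,⟨8,[(4,1),(12,0),(18,0),(0,0),(0,4)]⟩,⟨1,[(3,0),(8,0),
  (29,0)]⟩⟩ ⟨false,0,⟨12,[(4,3),(2,2),(1,2),(7,3),(0,0),(6,7),(10,2)]⟩,⟨5,[(11,0),(0,0),(2,5),(0,1),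
  (20,2),(4,3)]⟩⟩,.o ⟨false,0,⟨0,[(40,0)]⟩,⟨11,[(8,1),(3,1),(1,1),(1,1),(20,5),(3,2),(0,2)]⟩⟩,.a
  ⟨true,0,⟨0,[(28,0)]⟩,⟨0,[(25,0)]⟩⟩ ⟨true,0,⟨0,[(44,0)]⟩,⟨0,[]⟩⟩ ⟨false,0,⟨3,[(5,1),(19,3),(11,0),
  (4,0)]⟩,⟨5,[(11,0),(0,0),(2,5),(0,1),(20,2),(4,3)]⟩⟩,.o ⟨false,0,⟨0,[(5,0),(5,0),(3,1),(11,0),(9,
  0),(4,0)]⟩,⟨1,[(25,1),(11,0),(3,0)]⟩⟩]⟩) (.Q [0,0,2,0,-1,0,0,0,1,0,0,1] (.p true [0,0,0,0,1] []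
  (⟨0,[(24,0)]⟩,⟨0,[(23,0)]⟩) .k 0 (⟨0,[]⟩,⟨0,[]⟩) .k .k) (.Q [0,0,0,0,0,-1,0,0,0,0,0,1] (.ed false
  [1,-1,0,0,1] .k) (.K ⟨0,[0,-1,0,0,1],(-1),(-1),(⟨0,[(0,0)]⟩,⟨0,[(25,0),(8,0)]⟩),(.r 0 ⟨8,[(6,3),
  (12,1),(18,1),(0,1),(0,0)]⟩ ⟨2,[(5,0),(8,1),(3,0),(25,1)]⟩),(.r (-1) ⟨2,[(5,0),(8,0),(4,1),(26,
  2)]⟩ ⟨0,[(13,0),(3,0),(11,0),(14,0)]⟩),.k,(.r (-1) ⟨2,[(5,2),(8,0),(3,0),(27,1)]⟩ ⟨11,[(7,1),(1,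
  3),(3,5),(0,1),(24,0),(4,6)]⟩),.k,[⟨0,[(4,0),(12,0)]⟩,⟨0,[(1,0)]⟩,⟨5,[(4,5),(8,0),(0,0),(3,1),(25,
  0)]⟩,⟨0,[(3,0),(2,0),(22,0)]⟩]⟩) (.Q [0,0,0,0,1,0,2,0,-1,-1,2,-1] (.p true [0,0,1] [1,0,-1,0,1]
  (⟨0,[(33,0)]⟩,⟨0,[(32,0)]⟩) .k 2 (⟨0,[(26,0),(5,0)]⟩,⟨0,[(0,0),(21,0)]⟩) .k (.r 0 ⟨5,[(7,3),(1,7),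
  (3,2),(0,0),(24,1),(4,4)]⟩ ⟨5,[(5,4),(8,0),(3,7),(25,0)]⟩)) (.K ⟨0,[1,0,-1,0,1],(-1),(-1),(⟨0,
  [(27,0),(5,0)]⟩,⟨0,[(1,0),(21,0)]⟩),.k,(.r (-1) ⟨2,[(6,2),(8,0),(3,0),(27,1)]⟩ ⟨11,[(8,1),(1,3),
  (3,5),(0,1),(24,0),(4,6)]⟩),(.r 0 ⟨0,[(19,0)]⟩ ⟨7,[(8,1),(1,3),(4,3),(4,3),(19,0),(4,4)]⟩),.k,.k,
  [⟨0,[(0,0)]⟩,⟨0,[(2,0),(25,0)]⟩,⟨0,[(0,0),(9,0),(21,0)]⟩,⟨0,[(7,0),(4,0),(12,0)]⟩]⟩) (.K ⟨0,[1,0,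
  -1,0,-1],0,1,(⟨0,[(1,0),(20,0)]⟩,⟨0,[(27,0),(6,0)]⟩),.k,(.r (-2) ⟨2,[(6,3),(8,1),(3,0),(25,1)]⟩
  ⟨3,[(7,1),(2,0),(3,2),(24,0),(0,0)]⟩),(.r (-1) ⟨0,[(19,0),(25,0)]⟩ ⟨34,[(8,9),(1,23),(9,4),(8,10),
  (2,10),(6,6),(0,4)]⟩),.k,.k,[⟨0,[(0,0),(17,3),(21,0)]⟩,⟨0,[(5,0),(2,0),(5,0),(15,0),(14,0)]⟩,⟨2,
  [(0,0),(3,1),(2,3),(6,0),(3,2),(21,2),(0,1)]⟩,⟨0,[(9,0),(14,0)]⟩]⟩))) (.Q [0,0,0,0,0,0,0,0,0,0,-1,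
  1] (.ed false [1,0,-1,0,1] (.r 0 ⟨0,[(16,0),(11,0)]⟩ ⟨23,[(6,1),(1,3),(4,19),(4,11),(19,0),(4,
  12)]⟩)) (.Q [0,0,1,0,0,0,1,0,1,-1,1,1] (.p true [0,0,1] [1,0,0,0,-1] (⟨0,[(33,0)]⟩,⟨0,[(32,0)]⟩)
  .k 2 (⟨0,[(25,0)]⟩,⟨0,[(26,0)]⟩) .k (.r 0 ⟨4,[(9,1),(18,2),(2,2),(6,0)]⟩ ⟨0,[(17,0),(11,0),(14,
  0)]⟩)) (.K ⟨0,[1,1,0,0,-1],0,0,(⟨0,[(26,0),(8,0)]⟩,⟨1,[(1,0),(1,0),(23,0)]⟩),(.r (-1) ⟨2,[(6,0),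
  (8,1),(3,0),(25,1)]⟩ ⟨8,[(7,3),(12,1),(18,1),(0,1),(0,0)]⟩),.k,(.r 0 ⟨0,[(14,0),(3,0),(11,0),(14,
  0)]⟩ ⟨2,[(6,0),(8,0),(4,1),(26,2)]⟩),(.r (-1) ⟨0,[(19,0),(25,0)]⟩ ⟨34,[(8,9),(1,23),(9,4),(8,10),
  (2,10),(6,6),(0,4)]⟩),.k,[⟨0,[(0,0)]⟩,⟨0,[(2,0),(5,0),(5,0),(3,0),(11,0),(14,0)]⟩,⟨5,[(0,1),(3,0),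
  (3,2),(16,2),(4,0),(1,1),(6,3),(0,2)]⟩,⟨1,[(2,1),(5,0),(0,0),(4,1),(3,1),(11,0),(14,0)]⟩]⟩) (.S
  ⟨1,0,[0,-1,1],[1,1,0,0,-1],[1,0,1,1],(⟨0,[(26,0),(8,0)]⟩,⟨1,[(1,0),(1,0),(23,0)]⟩),⟨0,[(26,0)]⟩,
  (.r (-1) ⟨2,[(6,0),(8,1),(3,0),(25,1)]⟩ ⟨8,[(7,3),(12,1),(18,1),(0,1),(0,0)]⟩),.k,⟨false,0,⟨0,[]⟩,
  ⟨1,[(6,0),(8,0),(29,0)]⟩⟩,⟨true,0,⟨0,[(43,0)]⟩,⟨14,[(11,3),(3,0),(1,3),(1,0),(19,2)]⟩⟩,⟨true,0,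
  ⟨14,[(11,3),(3,0),(1,3),(1,0),(19,2)]⟩,⟨0,[(43,0)]⟩⟩,⟨false,1,⟨1,[(6,0),(8,0),(29,0)]⟩,⟨0,[]⟩⟩,
  [.o ⟨false,1,⟨1,[(0,1),(30,1),(8,0),(4,0)]⟩,⟨0,[(4,0),(25,0)]⟩⟩,.e ⟨false,1,⟨11,[(11,1),(3,1),(1,
  1),(1,1),(24,2),(0,8)]⟩,⟨8,[(7,3),(12,1),(18,1),(0,1),(0,0)]⟩⟩ ⟨false,1,⟨0,[(45,0)]⟩,⟨0,[(39,
  0)]⟩⟩,.a ⟨true,0,⟨0,[(0,0),(17,0)]⟩,⟨1,[(25,1),(5,0),(0,0)]⟩⟩ ⟨true,0,⟨5,[(14,0),(0,0),(3,1),(25,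
  0)]⟩,⟨8,[(7,3),(12,1),(18,1),(0,1),(0,0)]⟩⟩ ⟨false,1,⟨1,[(31,0),(0,0),(12,1)]⟩,⟨8,[(7,1),(12,0),
  (18,0),(0,0),(0,4)]⟩⟩,.e ⟨false,1,⟨11,[(11,1),(3,1),(1,1),(1,1),(24,2),(0,8)]⟩,⟨0,[(43,0)]⟩⟩
  ⟨false,1,⟨0,[(45,0)]⟩,⟨0,[(47,0)]⟩⟩]⟩)) (.Q [0,0,1,0,-1,0,-1,0,1,1,-1,1] (.p true [1,0,-1,0,1] []
  (⟨0,[(26,0),(5,0)]⟩,⟨0,[(0,0)]⟩) .k 0 (⟨0,[]⟩,⟨0,[]⟩) .k (.r 0 ⟨0,[(17,0),(11,0)]⟩ ⟨23,[(7,1),(1,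
  3),(4,19),(4,11),(19,0),(4,12)]⟩)) (.K ⟨0,[1,0,-1,0,1],(-1),(-1),(⟨0,[(27,0),(5,0)]⟩,⟨0,[(1,0)]⟩),
  .k,(.r (-1) ⟨2,[(6,2),(8,0),(3,0),(27,1)]⟩ ⟨11,[(8,1),(1,3),(3,5),(0,1),(24,0),(4,6)]⟩),(.r 0 ⟨0,
  [(19,0)]⟩ ⟨7,[(8,1),(1,3),(4,3),(4,3),(19,0),(4,4)]⟩),.k,.k,[⟨0,[(2,0),(5,0),(5,0),(3,2),(11,0),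
  (9,0),(4,0)]⟩,⟨0,[(0,0)]⟩,⟨3,[(2,1),(2,1),(2,1),(1,1),(3,1),(16,3),(8,2),(4,0)]⟩,⟨0,[(7,0),(4,0),
  (12,0)]⟩]⟩) (.K ⟨0,[0,0,1,0,-1],0,0,(⟨0,[(1,0)]⟩,⟨0,[(27,0),(5,0)]⟩),.k,(.r (-1) ⟨7,[(8,1),(1,3),
  (4,3),(4,3),(19,0),(4,4)]⟩ ⟨0,[(19,0)]⟩),(.r 0 ⟨11,[(8,1),(1,3),(3,5),(0,1),(24,0),(4,6)]⟩ ⟨2,[(6,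
  2),(8,0),(3,0),(27,1)]⟩),.k,.k,[⟨0,[(25,0)]⟩,⟨0,[(0,0),(7,0),(5,0),(3,0),(11,0),(14,0)]⟩,⟨0,[(25,
  0),(4,0),(16,0)]⟩,⟨12,[(0,9),(1,2),(5,9),(1,1),(3,8),(2,1),(0,0),(26,5)]⟩]⟩)))))) (.K ⟨0,[0,0,0,0,
  1],(-1),(-1),(⟨0,[(22,0)]⟩,⟨0,[(21,0)]⟩),.k,(.r 0 ⟨8,[(2,3),(12,1),(18,1),(0,1),(0,0)]⟩ ⟨2,[(1,0),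
  (8,1),(3,0),(25,1)]⟩),(.r 0 ⟨2,[(10,0),(3,0),(27,1)]⟩ ⟨5,[(1,0),(8,0),(4,1),(24,2)]⟩),.k,.k,[⟨0,
  [(13,0),(5,0)]⟩,⟨0,[(0,0)]⟩,⟨0,[(19,0)]⟩,⟨0,[(0,0),(33,0)]⟩]⟩))))))))))) (.I [0,0,-2,-2,0,0,0,-1]
  (.K ⟨0,[0,1,1],0,0,(⟨0,[(20,0),(0,0)]⟩,⟨0,[(8,0)]⟩),.k,.k,(.r (-1) ⟨1,[(3,2),(1,0),(12,2),(12,
  1)]⟩ ⟨0,[(0,0)]⟩),.k,.k,[⟨1,[(17,0),(0,0)]⟩,⟨0,[(4,0)]⟩,⟨0,[(16,0),(12,0)]⟩,⟨0,[(3,0)]⟩]⟩) (.I [0,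
  0,2,0,-1,2,-1] (.N [0,2,1] 0 ⟨0,[(1,0)]⟩ ⟨0,[(2,0)]⟩ (.x (-2) ⟨0,[(5,0),(3,0),(14,0),(2,0),(3,
  0)]⟩ ⟨0,[(0,0)]⟩)) (.I [0,-1,2,1] (.I [0,-1,0,0,1,0,0,1] (.S ⟨1,0,[0,0,0,-1,0,0,0,-1],[1,0,-1],[1,
  1,0,0,0,0,0,-1],(⟨0,[(22,0)]⟩,⟨0,[(23,0)]⟩),⟨0,[(11,0)]⟩,.k,.k,⟨false,0,⟨0,[]⟩,⟨7,[(0,2),(7,2),(0,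
  0),(24,3)]⟩⟩,⟨true,0,⟨0,[(32,0)]⟩,⟨0,[(31,0)]⟩⟩,⟨true,0,⟨0,[(31,0)]⟩,⟨0,[(32,0)]⟩⟩,⟨false,1,⟨7,
  [(0,2),(7,2),(0,0),(24,3)]⟩,⟨0,[]⟩⟩,[.o ⟨false,0,⟨2,[(1,0),(2,1),(14,0),(1,1)]⟩,⟨1,[(6,1),(22,0),
  (4,0)]⟩⟩,.a ⟨true,0,⟨10,[(1,7),(2,9),(0,1),(2,0),(1,3),(6,0),(4,1),(3,3),(7,1)]⟩,⟨0,[(6,0)]⟩⟩
  ⟨false,0,⟨0,[(1,0),(2,0),(25,0)]⟩,⟨0,[(0,0),(35,0)]⟩⟩ ⟨true,0,⟨0,[(1,0),(2,0)]⟩,⟨0,[(6,0),(14,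
  0)]⟩⟩,.e ⟨false,0,⟨2,[(1,1),(2,1),(3,0),(21,0)]⟩,⟨0,[(0,0)]⟩⟩ ⟨false,0,⟨0,[(1,0),(2,0)]⟩,⟨0,[(0,
  0),(30,0)]⟩⟩,.o ⟨false,0,⟨0,[(21,0)]⟩,⟨1,[(7,1),(21,0),(3,0)]⟩⟩]⟩) (.Q [0,0,1,0,0,0,2,0,0,-1,2]
  (.p true [0,0,1] [1,0,-1] (⟨0,[(23,0)]⟩,⟨0,[(22,0)]⟩) .k 2 (⟨0,[(22,0)]⟩,⟨0,[(23,0)]⟩) .k (.r
  (-2) ⟨2,[(3,5),(5,3),(3,1),(0,1)]⟩ ⟨0,[(0,1),(33,0)]⟩)) (.K ⟨0,[1,1,-1],0,(-1),(⟨0,[(23,0),(1,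
  0)]⟩,⟨0,[(13,0)]⟩),.k,.k,(.r 1 ⟨0,[(1,1),(2,0),(30,0)]⟩ ⟨2,[(4,2),(5,3),(3,1),(0,1)]⟩),(.r 1 ⟨6,
  [(1,12),(0,3),(6,0),(21,1),(3,5)]⟩ ⟨2,[(4,5),(5,4),(3,0),(0,0)]⟩),.k,[⟨0,[(0,0)]⟩,⟨4,[(6,0),(4,1),
  (11,0),(3,1),(6,0)]⟩,⟨5,[(10,1),(3,0),(0,0),(3,5),(1,2),(0,2),(7,2)]⟩,⟨5,[(1,5),(0,1),(1,0),(4,0),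
  (8,5),(12,0)]⟩]⟩) (.I [0,-1,0,-1,1,0,0,1] (.S ⟨1,0,[0,0,1,0,0,0,0,-1],[1,1,-1],[1,1,1,1,0,0,0,-1],
  (⟨0,[(24,0),(1,0)]⟩,⟨0,[(14,0)]⟩),⟨0,[(24,0)]⟩,.k,.k,⟨false,0,⟨0,[]⟩,⟨5,[(0,1),(9,1),(24,0),(0,
  2)]⟩⟩,⟨true,0,⟨0,[(34,0)]⟩,⟨0,[(33,0)]⟩⟩,⟨true,0,⟨0,[(33,0)]⟩,⟨0,[(34,0)]⟩⟩,⟨false,1,⟨5,[(0,1),(9,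
  1),(24,0),(0,2)]⟩,⟨0,[]⟩⟩,[.o ⟨false,0,⟨6,[(1,1),(0,2),(0,1),(2,0),(14,2),(9,0),(4,1)]⟩,⟨1,[(0,0),
  (7,0),(0,0),(21,0)]⟩⟩,.e ⟨false,0,⟨6,[(2,4),(0,0),(6,1),(21,3),(3,4)]⟩,⟨39,[(0,27),(0,5),(6,11),
  (2,7),(18,7),(0,2),(3,0)]⟩⟩ ⟨false,0,⟨0,[(2,0),(33,0)]⟩,⟨19,[(0,11),(4,3),(2,3),(3,1),(17,13),(0,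
  0),(3,6)]⟩⟩,.a ⟨true,0,⟨0,[(19,0)]⟩,⟨0,[(22,0)]⟩⟩ ⟨true,(-1),⟨5,[(2,5),(0,1),(1,0),(4,0),(21,0)]⟩,
  ⟨39,[(0,27),(0,5),(6,11),(2,7),(18,7),(0,2),(3,0)]⟩⟩ ⟨false,0,⟨4,[(2,0),(0,4),(2,2),(3,0),(25,
  0)]⟩,⟨7,[(0,3),(0,1),(6,3),(22,0),(3,2)]⟩⟩,.e ⟨false,0,⟨6,[(2,4),(0,0),(6,1),(21,3),(3,4)]⟩,⟨0,
  [(0,0)]⟩⟩ ⟨false,0,⟨0,[(2,0),(33,0)]⟩,⟨8,[(0,6),(4,2),(4,0),(19,2),(4,1)]⟩⟩]⟩) (.Q [0,1,0,-2,-1,0,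
  0,0,0,1] (.pp false [-1,1]) (.Q [0,-1,0,1,1,0,0,0,0,-1] (.pp true [-1,1]) (.R ⟨2,true,false,true,
  [0,1],[1,-1],[1,1,1,1],(⟨0,[]⟩,⟨0,[]⟩),(⟨0,[(30,0)]⟩,⟨0,[(31,0)]⟩),⟨0,[]⟩,.k,.k,.k,(.r 0 ⟨2,[(5,
  1),(1,0),(4,0),(21,0)]⟩ ⟨2,[(13,1),(3,0),(0,0)]⟩),.k,.k,⟨false,0,⟨0,[(5,0),(28,0)]⟩,⟨2,[(13,1),(3,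
  0),(0,0)]⟩⟩,⟨true,(-1),⟨1,[(1,1),(0,0),(2,0),(1,0),(30,0)]⟩,⟨1,[(33,0),(3,0)]⟩⟩,⟨false,0,⟨0,[]⟩,
  ⟨1,[(17,0),(0,0),(19,0)]⟩⟩,⟨true,(-1),⟨0,[(1,0)]⟩,⟨0,[(0,0),(34,0)]⟩⟩,⟨true,0,⟨0,[(35,0)]⟩,⟨0,
  [(36,0)]⟩⟩,⟨false,0,⟨2,[(9,0),(3,0),(10,0),(1,0),(3,1)]⟩,⟨0,[(0,0)]⟩⟩,[]⟩) (.Q [0,0,-1,0,1,0,0,0,
  -1,0,0,-1] (.p false [0,0,0,0,1] [] (⟨0,[(20,0)]⟩,⟨0,[(19,0)]⟩) .k 0 (⟨0,[]⟩,⟨0,[]⟩) .k .k) (.Q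
  [0,1,0,-1,0,0,1,1,-1,0,1,-1] (.p true [0,0,1] [0,0,0,0,1] (⟨0,[(28,0)]⟩,⟨0,[(27,0)]⟩) .k 2 (⟨0,
  [(21,0)]⟩,⟨0,[(20,0)]⟩) .k (.r (-2) ⟨5,[(8,5),(5,3),(3,4),(0,4),(19,2)]⟩ ⟨1,[(1,1),(1,1),(30,0),
  (4,0)]⟩)) (.Q [0,0,0,0,0,0,0,0,0,0,-1,1] (.ed false [1,0,-1,0,1] (.r 1 ⟨1,[(2,1),(1,1),(30,0),(4,
  0)]⟩ ⟨5,[(9,5),(5,3),(3,4),(0,4),(19,2)]⟩)) (.K ⟨0,[0,0,-1,0,1],0,(-1),(⟨0,[(0,0)]⟩,⟨0,[(22,0),(7,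
  0)]⟩),.k,(.r 0 ⟨36,[(4,3),(6,19),(3,16),(0,1),(18,7),(0,1)]⟩ ⟨5,[(10,5),(5,1),(3,0),(0,0),(19,
  2)]⟩),(.r 1 ⟨4,[(5,0),(1,3),(0,0),(1,0),(4,0)]⟩ ⟨1,[(10,1),(5,1),(3,0),(0,0),(19,0)]⟩),.k,.k,[⟨0,
  [(1,0),(3,0),(8,0),(26,0)]⟩,⟨0,[(21,0),(6,0)]⟩,⟨1,[(1,0),(11,0),(6,0),(20,0)]⟩,⟨4,[(3,0),(1,0),(0,
  0),(0,3),(13,4),(6,2),(6,1),(0,0)]⟩]⟩) (.K ⟨0,[0,0,1,0,-1],0,1,(⟨0,[(0,0)]⟩,⟨0,[(23,0),(5,0)]⟩),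
  .k,(.r (-2) ⟨1,[(10,1),(5,1),(3,0),(0,0),(19,0)]⟩ ⟨4,[(5,0),(1,3),(0,0),(1,0),(4,0)]⟩),(.r (-1)
  ⟨5,[(10,5),(5,1),(3,0),(0,0),(19,2)]⟩ ⟨36,[(4,3),(6,19),(3,16),(0,1),(18,7),(0,1)]⟩),.k,.k,[⟨0,
  [(21,0)]⟩,⟨2,[(1,1),(0,0),(2,0),(2,2),(2,0),(2,0)]⟩,⟨4,[(3,0),(1,0),(0,0),(0,3),(13,4),(6,2),(6,
  1),(0,0)]⟩,⟨1,[(1,0),(11,0),(6,0),(20,0)]⟩]⟩)) (.Q [0,0,0,-1,0,0,0,0,-1,1,0,-1] (.p false [0,0,0,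
  0,1] [1] (⟨0,[(22,0)]⟩,⟨0,[(21,0)]⟩) .k 1 (⟨0,[]⟩,⟨0,[]⟩) .k .k) (.Q [0,0,-1,0,0,0,0,0,-1,1,0,-1]
  (.p false [0,0,0,0,1] [1] (⟨0,[(23,0)]⟩,⟨0,[(22,0)]⟩) .k 1 (⟨0,[]⟩,⟨0,[]⟩) .k .k) (.Q [0,0,0,0,0,
  -1,0,0,0,1,0,-1] (.ed true [0,1,0,0,1] .k) (.Q [0,2,0,1,-1,0,0,0,1,0,0,1] (.p true [0,0,0,0,1] []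
  (⟨0,[(25,0)]⟩,⟨0,[(24,0)]⟩) .k 0 (⟨0,[]⟩,⟨0,[]⟩) .k .k) (.K ⟨0,[0,1,0,0,1],0,(-1),(⟨0,[(26,0),(7,
  0)]⟩,⟨0,[(1,0)]⟩),(.r 0 ⟨2,[(13,0),(4,0),(27,1)]⟩ ⟨5,[(19,1),(3,0),(0,0),(19,2)]⟩),.k,(.r 1 ⟨1,
  [(6,1),(1,1),(4,1),(25,0),(4,0)]⟩ ⟨5,[(19,3),(3,4),(0,4),(19,2)]⟩),(.r 1 ⟨4,[(8,0),(1,3),(0,0),(1,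
  0),(4,0)]⟩ ⟨1,[(13,1),(5,1),(3,0),(0,0),(19,0)]⟩),.k,[⟨3,[(2,3),(4,1),(2,0),(0,3),(5,2),(10,0),
  (10,2)]⟩,⟨0,[(24,0)]⟩,⟨9,[(3,0),(3,2),(3,2),(7,1),(3,8),(15,1)]⟩,⟨0,[(0,0)]⟩]⟩) (.K ⟨0,[1,-1,0,0,
  -1],(-1),0,(⟨0,[(1,0)]⟩,⟨0,[(26,0),(7,0)]⟩),(.r (-1) ⟨5,[(19,1),(3,0),(0,0),(19,2)]⟩ ⟨2,[(13,0),
  (4,0),(27,1)]⟩),(.r (-2) ⟨5,[(19,3),(3,4),(0,4),(19,2)]⟩ ⟨0,[(0,0),(3,0),(1,1),(1,0),(4,0),(2,0),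
  (22,0)]⟩),.k,(.r (-1) ⟨8,[(14,3),(3,4),(0,1),(24,6)]⟩ ⟨0,[(16,0),(14,0)]⟩),.k,[⟨1,[(17,1),(6,1),
  (14,0),(3,0)]⟩,⟨0,[(0,0),(5,0),(3,0),(2,0)]⟩,⟨25,[(6,4),(1,10),(0,0),(3,8),(2,1),(7,25),(13,16),
  (0,15)]⟩,⟨0,[(3,0)]⟩]⟩)) (.S ⟨1,0,[0,-1,1],[1,1,0,0,-1],[1,0,1,1],(⟨0,[(24,0),(8,0)]⟩,⟨0,[(0,0),
  (19,0),(0,0)]⟩),⟨0,[(24,0)]⟩,(.r (-1) ⟨2,[(12,0),(4,0),(4,0),(0,0),(19,1)]⟩ ⟨8,[(5,3),(12,1),(18,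
  1),(0,1),(0,0)]⟩),.k,⟨false,0,⟨0,[]⟩,⟨1,[(22,0),(0,0),(19,0)]⟩⟩,⟨true,0,⟨0,[(41,0)]⟩,⟨0,[(40,
  0)]⟩⟩,⟨true,0,⟨0,[(40,0)]⟩,⟨0,[(41,0)]⟩⟩,⟨false,1,⟨1,[(22,0),(0,0),(19,0)]⟩,⟨0,[]⟩⟩,[.o ⟨false,1,
  ⟨2,[(1,0),(0,0),(1,0),(5,0),(27,0),(4,0)]⟩,⟨1,[(3,0),(1,1),(9,0),(7,0),(14,1)]⟩⟩,.e ⟨false,1,⟨4,
  [(3,0),(0,0),(7,0),(2,0),(1,0),(24,0),(0,2)]⟩,⟨8,[(5,3),(12,1),(18,1),(0,1),(0,0)]⟩⟩ ⟨false,1,⟨0,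
  [(43,0)]⟩,⟨0,[(37,0)]⟩⟩,.a ⟨true,0,⟨0,[(1,0)]⟩,⟨1,[(23,1),(5,0),(0,0)]⟩⟩ ⟨true,0,⟨5,[(10,1),(1,0),
  (4,0),(21,0)]⟩,⟨8,[(5,3),(12,1),(18,1),(0,1),(0,0)]⟩⟩ ⟨false,1,⟨1,[(29,0),(0,0),(12,1)]⟩,⟨8,[(5,
  1),(12,0),(18,0),(0,0),(0,4)]⟩⟩,.e ⟨false,1,⟨4,[(3,0),(0,0),(7,0),(2,0),(1,0),(24,0),(0,2)]⟩,⟨0,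
  [(41,0)]⟩⟩ ⟨false,1,⟨0,[(43,0)]⟩,⟨0,[(45,0)]⟩⟩]⟩)) (.Q [0,0,0,0,0,-1,0,0,0,0,0,1] (.ed false [1,
  -1,0,0,1] .k) (.Q [0,-1,0,0,0,0,-1,-1,-1,1,-1,-1] (.p false [0,0,1] [1,0,0,0,-1] (⟨0,[(32,0)]⟩,⟨0,
  [(31,0)]⟩) .k 2 (⟨0,[(24,0)]⟩,⟨0,[(25,0)]⟩) .k (.r (-1) ⟨8,[(12,5),(5,3),(3,4),(0,4),(3,2),(2,2),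
  (6,2)]⟩ ⟨1,[(7,0),(2,0),(2,0),(29,0)]⟩)) (.K ⟨0,[1,1,0,0,-1],0,0,(⟨0,[(25,0),(8,0)]⟩,⟨0,[(1,0)]⟩),
  (.r (-1) ⟨2,[(13,0),(4,0),(4,0),(0,0),(19,1)]⟩ ⟨8,[(6,3),(12,1),(18,1),(0,1),(0,0)]⟩),.k,(.r 0 ⟨1,
  [(8,0),(2,0),(1,0),(30,0)]⟩ ⟨2,[(19,1),(3,0),(0,0),(21,2)]⟩),(.r 0 ⟨4,[(8,2),(2,2),(2,0),(3,0),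
  (25,2)]⟩ ⟨8,[(13,5),(5,6),(3,1),(0,1),(3,2),(2,2),(6,2)]⟩),.k,[⟨0,[(2,0),(14,0)]⟩,⟨1,[(0,0),(2,0),
  (12,0)]⟩,⟨6,[(2,6),(4,1),(11,0),(18,3),(0,0),(6,3)]⟩,⟨0,[(0,0),(15,0)]⟩]⟩) (.Q [0,0,2,0,-1,0,0,0,
  1,0,0,1] (.p true [0,0,0,0,1] [] (⟨0,[(26,0)]⟩,⟨0,[(25,0)]⟩) .k 0 (⟨0,[]⟩,⟨0,[]⟩) .k .k) (.K ⟨0,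
  [0,-1,0,0,1],(-1),(-1),(⟨0,[(2,0)]⟩,⟨0,[(26,0),(8,0)]⟩),(.r 0 ⟨8,[(7,3),(12,1),(18,1),(0,1),(0,
  0)]⟩ ⟨2,[(14,0),(4,0),(4,0),(0,0),(19,1)]⟩),(.r (-1) ⟨2,[(20,1),(3,0),(0,0),(21,2)]⟩ ⟨1,[(9,0),(2,
  0),(1,0),(30,0)]⟩),.k,(.r 0 ⟨36,[(8,3),(6,19),(3,16),(0,1),(18,7),(0,1)]⟩ ⟨5,[(14,5),(5,1),(3,0),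
  (0,0),(19,2)]⟩),.k,[⟨0,[(6,0),(11,0)]⟩,⟨0,[(0,0)]⟩,⟨5,[(6,5),(5,1),(1,0),(4,0),(21,0)]⟩,⟨15,[(0,
  1),(0,10),(6,7),(1,2),(0,5),(13,2),(4,4),(8,0)]⟩]⟩) (.K ⟨0,[1,0,0,0,-1],0,0,(⟨0,[(26,0)]⟩,⟨0,[(27,
  0)]⟩),.k,(.r (-1) ⟨5,[(20,1),(3,0),(0,0),(19,2)]⟩ ⟨2,[(14,0),(4,0),(27,1)]⟩),(.r (-1) ⟨2,[(14,0),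
  (4,0),(4,0),(0,0),(19,1)]⟩ ⟨38,[(0,1),(0,1),(5,14),(2,0),(0,1),(8,7),(18,9),(0,6)]⟩),.k,.k,[⟨1,
  [(1,1),(7,0),(2,0),(2,0),(29,0)]⟩,⟨20,[(0,0),(3,19),(4,0),(2,5),(1,3),(2,0),(1,3),(8,0)]⟩,⟨0,[(1,
  0),(28,0)]⟩,⟨2,[(0,0),(3,1),(2,0),(1,0),(4,0),(30,0)]⟩]⟩))) (.Q [0,0,1,0,0,0,1,0,-1,0,1,-1] (.p
  false [1,0,-1,0,1] [1] (⟨0,[(25,0),(5,0)]⟩,⟨0,[(0,0),(20,0)]⟩) .k 1 (⟨0,[]⟩,⟨0,[]⟩) .k (.r 1 ⟨1,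
  [(5,1),(1,1),(30,0),(4,0)]⟩ ⟨5,[(12,5),(5,3),(3,4),(0,4),(19,2)]⟩)) (.K ⟨0,[0,0,1,0,-1],0,1,(⟨0,
  [(1,0),(20,0)]⟩,⟨0,[(26,0),(5,0)]⟩),.k,(.r (-2) ⟨1,[(13,1),(5,1),(3,0),(0,0),(19,0)]⟩ ⟨4,[(8,0),
  (1,3),(0,0),(1,0),(4,0)]⟩),(.r (-1) ⟨5,[(13,5),(5,1),(3,0),(0,0),(19,2)]⟩ ⟨36,[(7,3),(6,19),(3,
  16),(0,1),(18,7),(0,1)]⟩),.k,.k,[⟨0,[(24,0)]⟩,⟨0,[(0,0)]⟩,⟨2,[(2,1),(3,0),(1,0),(0,0),(0,0),(13,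
  0),(4,0),(8,0)]⟩,⟨1,[(3,1),(12,1),(22,0),(4,0)]⟩]⟩) (.Q [0,0,0,0,0,0,2,0,1,-1,2,1] (.p true [0,0,
  1] [1,0,-1,0,-1] (⟨0,[(33,0)]⟩,⟨0,[(32,0)]⟩) .k 2 (⟨0,[(1,0),(19,0)]⟩,⟨0,[(26,0),(6,0)]⟩) .k (.r
  (-1) ⟨6,[(13,8),(5,5),(0,1),(7,4),(2,0),(6,0),(0,0)]⟩ ⟨9,[(8,6),(2,6),(2,8),(3,3),(25,6)]⟩)) (.K
  ⟨0,[1,0,-1,0,-1],0,0,(⟨0,[(2,0),(19,0)]⟩,⟨0,[(27,0),(6,0)]⟩),.k,(.r (-1) ⟨8,[(15,3),(3,4),(0,1),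
  (24,6)]⟩ ⟨0,[(17,0),(14,0)]⟩),(.r 0 ⟨4,[(9,2),(2,2),(2,0),(3,0),(25,2)]⟩ ⟨8,[(14,5),(5,6),(3,1),
  (0,1),(3,2),(2,2),(6,2)]⟩),.k,.k,[⟨0,[(0,0)]⟩,⟨4,[(4,3),(1,0),(2,0),(0,0),(1,0),(1,0),(17,2)]⟩,⟨7,
  [(0,0),(0,1),(1,4),(4,1),(8,3),(11,3),(9,2),(0,1)]⟩,⟨18,[(4,12),(0,1),(0,7),(2,7),(0,5),(1,10),(2,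
  3),(14,4)]⟩]⟩) (.R ⟨0,false,false,false,[0,1,0,0,-1],[1,1,-1],[1,0,1,1,0,0,0,-1],(⟨0,[(2,0)]⟩,⟨0,
  [(27,0),(9,0)]⟩),(⟨0,[(33,0),(1,0)]⟩,⟨0,[(23,0)]⟩),⟨0,[(27,0)]⟩,(.r (-1) ⟨2,[(14,0),(4,0),(4,0),
  (0,0),(19,1)]⟩ ⟨8,[(7,3),(12,1),(18,1),(0,1),(0,0)]⟩),.k,.k,.k,.k,.k,⟨true,0,⟨0,[]⟩,⟨1,[(31,0),(0,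
  0)]⟩⟩,⟨false,0,⟨0,[(25,0),(2,0)]⟩,⟨1,[(4,1),(4,0),(7,0),(0,0),(21,1),(4,0)]⟩⟩,⟨true,(-1),⟨0,[(11,
  0)]⟩,⟨2,[(14,2),(5,1),(3,0),(0,0)]⟩⟩,⟨false,(-1),⟨0,[(5,0),(1,0)]⟩,⟨0,[(4,0),(12,0),(22,0),(4,
  0)]⟩⟩,⟨false,0,⟨0,[]⟩,⟨0,[]⟩⟩,⟨false,0,⟨0,[]⟩,⟨0,[]⟩⟩,[.o ⟨false,0,⟨7,[(0,1),(4,3),(0,0),(2,2),(9,
  0),(4,0),(15,0)]⟩,⟨3,[(8,1),(20,3),(10,2),(4,2)]⟩⟩,.a ⟨true,0,⟨6,[(4,1),(0,1),(3,3),(2,1),(6,0),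
  (8,4),(16,3)]⟩,⟨3,[(8,1),(20,3),(10,0),(4,0)]⟩⟩ ⟨false,0,⟨0,[(9,0),(35,0)]⟩,⟨8,[(14,5),(5,6),(3,
  1),(0,1),(3,2),(2,2),(6,2)]⟩⟩ ⟨true,(-1),⟨0,[(1,0),(5,0),(1,0),(2,0),(32,0)]⟩,⟨0,[(4,0),(24,0),
  (10,0)]⟩⟩,.e ⟨false,0,⟨4,[(9,2),(2,2),(2,0),(3,0),(25,2)]⟩,⟨1,[(0,1),(0,1),(5,11),(1,3),(7,5),(22,
  6),(4,10)]⟩⟩ ⟨false,(-1),⟨0,[(1,0),(5,0),(1,0),(2,0),(32,0)]⟩,⟨9,[(4,3),(1,3),(13,1),(3,1),(4,9),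
  (10,6),(4,4)]⟩⟩,.o ⟨false,1,⟨4,[(0,0),(3,3),(4,1),(7,1),(22,4),(4,1)]⟩,⟨0,[(25,0)]⟩⟩]⟩))))) (.Q
  [0,2,0,0,-1,0,0,0,1,-1,0,1] (.p true [0,0,0,0,1] [1] (⟨0,[(23,0)]⟩,⟨0,[(22,0)]⟩) .k 1 (⟨0,[]⟩,⟨0,
  []⟩) .k .k) (.K ⟨0,[1,0,0,0,-1],0,1,(⟨0,[(23,0)]⟩,⟨0,[(24,0)]⟩),.k,(.r (-1) ⟨5,[(17,1),(3,0),(0,
  0),(19,2)]⟩ ⟨2,[(11,0),(4,0),(27,1)]⟩),(.r (-1) ⟨2,[(11,0),(4,0),(4,0),(0,0),(19,1)]⟩ ⟨4,[(0,0),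
  (2,0),(1,0),(11,0),(18,0)]⟩),.k,.k,[⟨0,[(0,0),(14,0),(26,0)]⟩,⟨0,[(3,0),(0,0),(4,0)]⟩,⟨0,[(0,0)]⟩,
  ⟨0,[(21,0),(10,0),(1,0)]⟩]⟩) (.R ⟨1,true,false,false,[1,-1],[0,0,0,0,1],[1,0,-1,-1],(⟨0,[(34,0)]⟩,
  ⟨0,[(35,0)]⟩),(⟨0,[(24,0)]⟩,⟨0,[(23,0)]⟩),⟨0,[(19,0),(0,0)]⟩,.k,.k,(.r (-1) ⟨2,[(17,1),(3,0),(0,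
  0)]⟩ ⟨2,[(9,1),(1,0),(4,0),(21,0)]⟩),(.r (-1) ⟨5,[(17,1),(3,0),(0,0),(19,2)]⟩ ⟨2,[(11,0),(4,0),
  (27,1)]⟩),(.r (-2) ⟨5,[(17,3),(3,4),(0,4),(19,2)]⟩ ⟨0,[(0,0),(0,0),(2,1),(1,0),(4,0),(25,0)]⟩),.k,
  ⟨true,1,⟨5,[(17,1),(3,0),(0,0),(19,2)]⟩,⟨4,[(5,1),(2,3),(0,0),(1,3),(25,0)]⟩⟩,⟨false,1,⟨7,[(1,5),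
  (15,1),(4,1),(14,0),(3,4)]⟩,⟨1,[(0,0),(4,0),(2,0),(2,0),(9,0)]⟩⟩,⟨true,0,⟨0,[]⟩,⟨0,[(44,0)]⟩⟩,
  ⟨false,0,⟨0,[(1,0)]⟩,⟨17,[(0,11),(4,5),(11,1),(3,9),(0,3),(5,2),(0,2)]⟩⟩,⟨false,1,⟨4,[(2,0),(0,0),
  (7,0),(2,0),(1,0),(24,0),(0,2)]⟩,⟨0,[(40,0)]⟩⟩,⟨true,0,⟨0,[(1,0),(37,0)]⟩,⟨0,[(0,0),(3,1),(32,
  0)]⟩⟩,[]⟩)))) (.K ⟨0,[0,0,0,0,1],(-1),(-1),(⟨0,[(21,0)]⟩,⟨0,[(20,0)]⟩),.k,(.r 0 ⟨8,[(1,3),(12,1),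
  (18,1),(0,1),(0,0)]⟩ ⟨2,[(8,0),(4,0),(4,0),(0,0),(19,1)]⟩),(.r 0 ⟨2,[(8,0),(4,0),(27,1)]⟩ ⟨5,[(14,
  1),(3,0),(0,0),(19,2)]⟩),.k,.k,[⟨0,[(12,0),(5,0)]⟩,⟨0,[(0,0)]⟩,⟨0,[(18,0)]⟩,⟨0,[(0,0),(32,
  0)]⟩]⟩))) (.Q [0,0,2,-1,-1,0,0,0,0,1] (.pp false [-1,1]) (.Q [0,0,2,0,-1,0,0,0,0,1] (.pp false
  [-1,1]) (.S ⟨1,0,[0,1,-1,-2],[1,-1],[1,0,-1,-1],(⟨0,[(31,0)]⟩,⟨0,[(32,0)]⟩),⟨0,[(16,0),(0,0)]⟩,.k,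
  (.r (-1) ⟨2,[(14,1),(3,0),(0,0)]⟩ ⟨20,[(2,1),(0,1),(2,9),(1,7),(2,1),(1,7),(8,1)]⟩),⟨true,0,⟨0,
  []⟩,⟨0,[(41,0)]⟩⟩,⟨false,0,⟨0,[(37,0)]⟩,⟨13,[(2,1),(5,1),(2,1),(1,3),(8,1),(15,2),(0,8)]⟩⟩,⟨false,
  1,⟨13,[(2,1),(5,1),(2,1),(1,3),(8,1),(15,2),(0,8)]⟩,⟨0,[(37,0)]⟩⟩,⟨true,0,⟨0,[(41,0)]⟩,⟨0,[]⟩⟩,
  [.o ⟨false,0,⟨4,[(1,3),(12,1),(18,1),(0,1),(6,0)]⟩,⟨0,[(2,0)]⟩⟩,.o ⟨false,0,⟨0,[(37,1)]⟩,⟨21,[(2,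
  15),(5,3),(4,3),(19,5),(0,2),(3,2)]⟩⟩,.o ⟨false,0,⟨1,[(25,0),(0,0)]⟩,⟨1,[(34,0),(3,0)]⟩⟩,.a ⟨true,
  (-1),⟨0,[(0,0)]⟩,⟨0,[(38,0)]⟩⟩ ⟨true,1,⟨5,[(14,1),(3,0),(0,0),(18,2)]⟩,⟨0,[(5,0),(2,0),(28,0)]⟩⟩
  ⟨false,1,⟨2,[(14,1),(3,0),(0,0)]⟩,⟨0,[(0,0),(1,0)]⟩⟩]⟩) (.R ⟨1,false,false,false,[1,-1],[1,0,-1],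
  [1,0,-1,-1],(⟨0,[(31,0)]⟩,⟨0,[(32,0)]⟩),(⟨0,[(27,0)]⟩,⟨0,[(28,0)]⟩),⟨0,[(16,0),(0,0)]⟩,.k,.k,(.r
  (-1) ⟨2,[(14,1),(3,0),(0,0)]⟩ ⟨20,[(2,1),(0,1),(2,9),(1,7),(2,1),(1,7),(8,1)]⟩),.k,(.r (-2) ⟨2,
  [(8,2),(5,3),(3,1),(0,1)]⟩ ⟨0,[(3,0),(2,0)]⟩),.k,⟨true,1,⟨0,[(8,0),(5,0)]⟩,⟨0,[(5,0),(0,0)]⟩⟩,
  ⟨false,1,⟨3,[(4,1),(29,0),(3,2)]⟩,⟨0,[(25,0)]⟩⟩,⟨true,0,⟨0,[]⟩,⟨0,[(41,0)]⟩⟩,⟨true,0,⟨6,[(2,1),(0,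
  2),(0,1),(1,1),(2,0),(14,2),(14,0)]⟩,⟨0,[(23,0),(13,0)]⟩⟩,⟨false,1,⟨13,[(2,1),(5,1),(2,1),(1,3),
  (8,1),(15,2),(0,8)]⟩,⟨0,[(37,0)]⟩⟩,⟨true,0,⟨18,[(2,8),(0,12),(0,8),(1,1),(6,4),(10,0),(14,3)]⟩,⟨0,
  [(23,0),(13,1)]⟩⟩,[.o ⟨false,0,⟨4,[(2,0),(1,0),(0,0),(0,1),(2,1),(14,1),(1,0)]⟩,⟨1,[(23,1),(10,0),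
  (4,0)]⟩⟩,.a ⟨true,0,⟨28,[(1,10),(1,14),(0,10),(4,5),(3,7),(8,6),(16,25)]⟩,⟨0,[(23,0)]⟩⟩ ⟨true,1,
  ⟨5,[(14,1),(3,0),(0,0),(19,2)]⟩,⟨0,[(5,0),(2,0),(28,0)]⟩⟩ ⟨false,1,⟨15,[(2,9),(1,5),(4,11),(3,3),
  (8,3),(15,0),(0,4)]⟩,⟨31,[(1,9),(6,3),(4,1),(4,4),(0,4),(3,29),(1,1),(8,4)]⟩⟩,.o ⟨false,0,⟨1,[(25,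
  0),(0,0)]⟩,⟨1,[(34,0),(3,0)]⟩⟩,.o ⟨false,0,⟨0,[(25,0),(0,0)]⟩,⟨0,[(0,0)]⟩⟩]⟩)) (.R ⟨1,false,false,
  false,[1,-1],[1,0,-1],[1,0,-1,-1],(⟨0,[(30,0)]⟩,⟨0,[(31,0)]⟩),(⟨0,[(26,0)]⟩,⟨0,[(27,0)]⟩),⟨0,[(15,
  0),(0,0)]⟩,.k,.k,(.r (-1) ⟨2,[(13,1),(3,0),(0,0)]⟩ ⟨20,[(1,1),(0,1),(2,9),(1,7),(2,1),(1,7),(8,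
  1)]⟩),.k,(.r (-2) ⟨2,[(7,2),(5,3),(3,1),(0,1)]⟩ ⟨0,[(2,0),(2,0)]⟩),.k,⟨true,1,⟨0,[(7,0),(5,0)]⟩,
  ⟨0,[(4,0),(0,0)]⟩⟩,⟨false,1,⟨15,[(0,5),(12,1),(0,7),(18,0),(3,6)]⟩,⟨0,[(24,0)]⟩⟩,⟨true,0,⟨0,[]⟩,
  ⟨0,[(40,0)]⟩⟩,⟨true,0,⟨6,[(1,1),(0,2),(0,1),(1,1),(2,0),(14,2),(14,0)]⟩,⟨0,[(22,0),(13,0)]⟩⟩,
  ⟨false,1,⟨13,[(1,1),(5,1),(2,1),(1,3),(8,1),(15,2),(0,8)]⟩,⟨0,[(36,0)]⟩⟩,⟨true,0,⟨18,[(1,8),(0,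
  12),(0,8),(1,1),(6,4),(10,0),(14,3)]⟩,⟨0,[(22,0),(13,1)]⟩⟩,[.o ⟨false,0,⟨4,[(1,0),(1,0),(0,0),(0,
  1),(2,1),(14,1),(1,0)]⟩,⟨1,[(22,1),(10,0),(4,0)]⟩⟩,.a ⟨true,0,⟨49,[(2,26),(2,6),(2,18),(0,9),(2,
  3),(1,19),(11,9),(3,19),(7,36)]⟩,⟨0,[(22,0)]⟩⟩ ⟨true,1,⟨5,[(13,1),(3,0),(0,0),(19,2)]⟩,⟨0,[(4,0),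
  (2,0),(28,0)]⟩⟩ ⟨false,1,⟨19,[(0,6),(0,2),(0,2),(0,9),(4,10),(3,5),(25,12)]⟩,⟨1,[(22,1),(1,0),(0,
  0)]⟩⟩,.o ⟨false,0,⟨1,[(24,0),(0,0)]⟩,⟨1,[(33,0),(3,0)]⟩⟩,.o ⟨false,0,⟨0,[(24,0),(0,0)]⟩,⟨0,[(0,0),
  (35,0)]⟩⟩]⟩)))))) (.I [0,0,-1,-1,0,0,0,-2] (.S ⟨1,0,[0,0,0,-1,0,0,0,-1],[1,0,-1],[0,1,0,-1,0,0,0,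
  -1],(⟨0,[(22,0)]⟩,⟨0,[(23,0)]⟩),⟨0,[(11,0)]⟩,.k,.k,⟨false,0,⟨0,[(32,0)]⟩,⟨3,[(3,0),(4,0),(21,0),
  (2,0),(0,2)]⟩⟩,⟨true,0,⟨0,[(32,0)]⟩,⟨0,[(31,0)]⟩⟩,⟨true,0,⟨0,[(36,0)]⟩,⟨0,[]⟩⟩,⟨false,1,⟨1,[(13,
  0),(0,0),(19,0)]⟩,⟨0,[]⟩⟩,[.o ⟨false,0,⟨2,[(0,0),(3,0),(16,2)]⟩,⟨1,[(6,1),(22,0),(4,0)]⟩⟩,.e
  ⟨false,0,⟨2,[(0,0),(3,0)]⟩,⟨5,[(3,5),(5,1),(3,0),(0,0),(18,2)]⟩⟩ ⟨false,1,⟨2,[(0,0),(7,0),(0,0),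
  (24,1)]⟩,⟨0,[(1,0),(1,0)]⟩⟩,.a ⟨true,0,⟨4,[(5,0),(4,1),(11,0),(3,1),(6,0)]⟩,⟨0,[(7,0)]⟩⟩ ⟨false,0,
  ⟨3,[(0,1),(19,0),(0,0),(10,1)]⟩,⟨0,[(1,0),(1,0),(30,0)]⟩⟩ ⟨true,0,⟨3,[(0,1),(19,0),(0,0),(10,1)]⟩,
  ⟨0,[(1,0),(1,0)]⟩⟩,.o ⟨false,0,⟨0,[(21,0)]⟩,⟨1,[(7,1),(21,0),(3,0)]⟩⟩]⟩) (.I [0,0,0,0,0,0,0,1]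
  (.S ⟨1,0,[0,0,1,0,0,0,0,1],[0,1,1],[0,1,1,0,0,0,0,1],(⟨0,[(24,0),(0,0)]⟩,⟨0,[(12,0)]⟩),⟨0,[(24,
  0)]⟩,.k,.k,⟨false,0,⟨0,[(33,0)]⟩,⟨3,[(4,0),(4,0),(21,0),(2,0),(0,2)]⟩⟩,⟨true,0,⟨0,[(33,0)]⟩,⟨0,
  [(32,0)]⟩⟩,⟨true,0,⟨0,[(37,0)]⟩,⟨0,[]⟩⟩,⟨false,1,⟨1,[(14,0),(0,0),(19,0)]⟩,⟨0,[]⟩⟩,[.e ⟨false,0,
  ⟨6,[(1,1),(0,1),(16,2),(2,2),(6,0)]⟩,⟨1,[(5,0),(3,0),(21,0),(3,1)]⟩⟩ ⟨false,0,⟨0,[(0,0)]⟩,⟨17,[(5,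
  3),(3,13),(0,1),(23,8),(0,6)]⟩⟩,.o ⟨false,1,⟨1,[(0,1),(7,1),(21,0),(4,0)]⟩,⟨0,[(20,0)]⟩⟩,.o
  ⟨false,1,⟨1,[(8,1),(21,0),(3,0)]⟩,⟨0,[(22,0)]⟩⟩,.a ⟨true,0,⟨0,[(8,0)]⟩,⟨4,[(6,0),(4,1),(11,0),(3,
  1),(6,0)]⟩⟩ ⟨false,0,⟨0,[(0,0)]⟩,⟨8,[(5,1),(3,6),(0,0),(24,7)]⟩⟩ ⟨true,0,⟨0,[(0,0)]⟩,⟨6,[(5,1),(3,
  3),(10,0),(0,0),(7,0)]⟩⟩]⟩) (.N [0,0,1] 0 ⟨2,[(1,1),(3,0)]⟩ ⟨0,[(0,0)]⟩ .k)))))))) (.R ⟨2,true,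
  false,true,[0,1],[0,1,1],[0,1,1],(⟨0,[]⟩,⟨0,[]⟩),(⟨0,[(17,0),(0,0)]⟩,⟨0,[(5,0)]⟩),⟨0,[]⟩,.k,.k,.k,
  .k,.k,.k,⟨false,0,⟨0,[(0,0),(0,0),(22,0),(1,0)]⟩,⟨0,[(12,0),(2,0),(8,0),(3,0)]⟩⟩,⟨true,0,⟨0,[(1,
  0)]⟩,⟨0,[(15,0)]⟩⟩,⟨false,0,⟨0,[(26,0)]⟩,⟨0,[(25,0),(2,0)]⟩⟩,⟨true,0,⟨0,[(12,0)]⟩,⟨3,[(0,2),(1,0),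
  (12,0),(8,1)]⟩⟩,⟨true,0,⟨0,[(30,0)]⟩,⟨0,[]⟩⟩,⟨false,1,⟨0,[(12,0),(12,0),(2,0)]⟩,⟨0,[(0,0)]⟩⟩,[]⟩))

theorem ok125 : chk K t125 r36 = true := by decide +kernel


end Helper25.S1T.Ymp_1cP4
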