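import Pool.Agent.Helper25.S1T.Ymp_1cP4_p0
import Pool.Agent.Helper25.S1T.Ymp_1cP4_p1
import Pool.Agent.Helper25.S1T.Ymp_1cP4_p2
import Pool.Agent.Helper25.S1T.Ymp_1cP4_p3
import Pool.Agent.Helper25.S1T.Ymp_1cP4_p4

set_option autoImplicit false
set_option linter.all false

namespace Helper25.S1T.Ymp_1cP4

open Helper25.KG Helper25.KW Helper55.KE Helper11.CT

noncomputable def t9 : Tre :=
  .Q [0,1,-1,-1,1,0,2,1,0,-1,2] (.p true [0,0,1] [1,0,-1] (⟨0,[(28,0)]⟩,⟨0,[(27,0)]⟩) .k 2 (⟨0,[(27,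
  0)]⟩,⟨0,[(28,0)]⟩) .k (.r 0 ⟨0,[(1,1),(35,1),(0,1)]⟩ ⟨0,[(9,1),(27,1),(0,0)]⟩)) t7 t8

theorem ok9 : chk K t9 l14 = true :=
  chk_Q (e' := [0,-1,1,1,-1,0,-2,-1,0,1,-2]) (by decide +kernel) (by decide +kernel) ok7 ok8

noncomputable def t11 : Tre :=
  .I [1,-1,2,2,0,0,0,-1] t9 t10

theorem ok11 : chk K t11 r13 = true :=
  chk_I (e' := [0,1,-2,-2,0,0,0,1]) (by decide +kernel) (by decide +kernel) ok9 ok10

noncomputable def t12 : Tre :=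
  .I [0,0,-2,-1,1,0,0,-1] t6 t11

theorem ok12 : chk K t12 l12 = true :=
  chk_I (e' := [1,0,2,1,-1,0,0,1]) (by decide +kernel) (by decide +kernel) ok6 ok11

noncomputable def t14 : Tre :=
  .I [1,1,2,2,-1,0,0,1] t12 t13

theorem ok14 : chk K t14 l11 = true :=
  chk_I (e' := [0,-1,-2,-2,1,0,0,-1]) (by decide +kernel) (by decide +kernel) ok12 ok13

noncomputable def t16 : Tre :=
  .I [0,-1,2,1,0,0,0,-1] t14 t15

theorem ok16 : chk K t16 l10 = true :=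
  chk_I (e' := [1,1,-2,-1,0,0,0,1]) (by decide +kernel) (by decide +kernel) ok14 ok15

noncomputable def t18 : Tre :=
  .Q [0,0,0,0,0,2,0,0,0,-1,1] (.p true [0,0,1] [1] (⟨0,[(23,0)]⟩,⟨0,[(22,0)]⟩) .k 1 (⟨0,[]⟩,⟨0,[]⟩)
  .k .k) t16 t17

theorem ok18 : chk K t18 r9 = true :=
  chk_Q (e' := [0,0,0,0,0,-2,0,0,0,1,-1]) (by decide +kernel) (by decide +kernel) ok16 ok17

noncomputable def t19 : Tre :=
  .Q [0,0,0,-2,-1,0,-1,-1,0,1,-1] (.p false [0,0,1] [1] (⟨0,[(22,0)]⟩,⟨0,[(21,0)]⟩) .k 1 (⟨0,[]⟩,⟨0,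
  []⟩) .k .k) t5 t18

theorem ok19 : chk K t19 r8 = true :=
  chk_Q (e' := [0,0,0,2,1,0,1,1,0,-1,1]) (by decide +kernel) (by decide +kernel) ok5 ok18

noncomputable def t20 : Tre :=
  .Q [0,-1,0,-1,0,0,-1,-1,0,0,-1] (.p false [0,0,1] [] (⟨0,[(21,0)]⟩,⟨0,[(20,0)]⟩) .k 0 (⟨0,[]⟩,⟨0,
  []⟩) .k .k) t4 t19

theorem ok20 : chk K t20 l7 = true :=
  chk_Q (e' := [0,1,0,1,0,0,1,1,0,0,1]) (by decide +kernel) (by decide +kernel) ok4 ok19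

noncomputable def t22 : Tre :=
  .I [0,0,1,1,0,0,0,-1] t20 t21

theorem ok22 : chk K t22 l6 = true :=
  chk_I (e' := [1,0,-1,-1,0,0,0,1]) (by decide +kernel) (by decide +kernel) ok20 ok21

noncomputable def t27 : Tre :=
  .Q [0,0,0,0,0,0,1,1,0,0,1] (.p true [0,0,1] [] (⟨0,[(26,0)]⟩,⟨0,[(25,0)]⟩) .k 0 (⟨0,[]⟩,⟨0,[]⟩)
  .k .k) t25 t26

theorem ok27 : chk K t27 r21 = true :=
  chk_Q (e' := [0,0,0,0,0,0,-1,-1,0,0,-1]) (by decide +kernel) (by decide +kernel) ok25 ok26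

noncomputable def t28 : Tre :=
  .I [0,0,0,-1,0,0,0,-1] t24 t27

theorem ok28 : chk K t28 l20 = true :=
  chk_I (e' := [1,0,0,1,0,0,0,1]) (by decide +kernel) (by decide +kernel) ok24 ok27

noncomputable def t30 : Tre :=
  .I [0,0,2,2,0,0,0,2] t28 t29

theorem ok30 : chk K t30 l19 = true :=
  chk_I (e' := [1,0,-2,-2,0,0,0,-2]) (by decide +kernel) (by decide +kernel) ok28 ok29

noncomputable def t32 : Tre :=
  .Q [0,0,0,2,1,0,1,1,0,-1,1] (.p true [0,0,1] [1] (⟨0,[(23,0)]⟩,⟨0,[(22,0)]⟩) .k 1 (⟨0,[]⟩,⟨0,[]⟩)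
  .k .k) t30 t31

theorem ok32 : chk K t32 l18 = true :=
  chk_Q (e' := [0,0,0,-2,-1,0,-1,-1,0,1,-1]) (by decide +kernel) (by decide +kernel) ok30 ok31

noncomputable def t34 : Tre :=
  .Q [0,0,0,1,1,0,1,1,0,-1,1] (.p true [0,0,1] [1] (⟨0,[(22,0)]⟩,⟨0,[(21,0)]⟩) .k 1 (⟨0,[]⟩,⟨0,[]⟩)
  .k .k) t32 t33

theorem ok34 : chk K t34 l17 = true :=
  chk_Q (e' := [0,0,0,-1,-1,0,-1,-1,0,1,-1]) (by decide +kernel) (by decide +kernel) ok32 ok33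

noncomputable def t36 : Tre :=
  .I [0,1,-1,-1,0,0,0,-1] t34 t35

theorem ok36 : chk K t36 r16 = true :=
  chk_I (e' := [1,-1,1,1,0,0,0,1]) (by decide +kernel) (by decide +kernel) ok34 ok35

noncomputable def t37 : Tre :=
  .Q [0,0,0,0,0,0,1,0,0,0,1] (.p true [0,0,1] [] (⟨0,[(20,0)]⟩,⟨0,[(19,0)]⟩) .k 0 (⟨0,[]⟩,⟨0,[]⟩)
  .k .k) t23 t36

theorem ok37 : chk K t37 r6 = true :=
  chk_Q (e' := [0,0,0,0,0,0,-1,0,0,0,-1]) (by decide +kernel) (by decide +kernel) ok23 ok36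

noncomputable def t38 : Tre :=
  .Q [0,0,1,0,-1,0,-1,0,0,1,-1] (.p false [0,0,1] [1] (⟨0,[(19,0)]⟩,⟨0,[(18,0)]⟩) .k 1 (⟨0,[]⟩,⟨0,
  []⟩) .k .k) t22 t37

theorem ok38 : chk K t38 l5 = true :=
  chk_Q (e' := [0,0,-1,0,1,0,1,0,0,-1,1]) (by decide +kernel) (by decide +kernel) ok22 ok37

noncomputable def t45 : Tre :=
  .I [0,0,2,2,0,0,0,-1] t43 t44

theorem ok45 : chk K t45 r31 = true :=
  chk_I (e' := [1,0,-2,-2,0,0,0,1]) (by decide +kernel) (by decide +kernel) ok43 ok44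

noncomputable def t46 : Tre :=
  .Q [0,0,2,0,-1,0,-1,0,0,0,-1] (.p false [0,0,1] [] (⟨0,[(27,0)]⟩,⟨0,[(26,0)]⟩) .k 0 (⟨0,[]⟩,⟨0,
  []⟩) .k .k) t42 t45

theorem ok46 : chk K t46 l30 = true :=
  chk_Q (e' := [0,0,-2,0,1,0,1,0,0,0,1]) (by decide +kernel) (by decide +kernel) ok42 ok45

noncomputable def t48 : Tre :=
  .I [0,0,1,1,-1,0,0,1] t46 t47

theorem ok48 : chk K t48 r29 = true :=
  chk_I (e' := [1,0,-1,-1,1,0,0,-1]) (by decide +kernel) (by decide +kernel) ok46 ok47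

noncomputable def t49 : Tre :=
  .Q [0,0,0,0,0,2,0,0,0,-1,1] (.p true [0,0,1] [1] (⟨0,[(25,0)]⟩,⟨0,[(24,0)]⟩) .k 1 (⟨0,[]⟩,⟨0,[]⟩)
  .k .k) t41 t48

theorem ok49 : chk K t49 r28 = true :=
  chk_Q (e' := [0,0,0,0,0,-2,0,0,0,1,-1]) (by decide +kernel) (by decide +kernel) ok41 ok48

noncomputable def t50 : Tre :=
  .I [1,0,-1,0,1,0,0,-1] t40 t49

theorem ok50 : chk K t50 l27 = true :=
  chk_I (e' := [0,0,1,0,-1,0,0,1]) (by decide +kernel) (by decide +kernel) ok40 ok49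

noncomputable def t54 : Tre :=
  .Q [0,1,0,2,0,0,-1,-1,0,0,-1] (.p false [0,0,1] [] (⟨0,[(25,0)]⟩,⟨0,[(24,0)]⟩) .k 0 (⟨0,[]⟩,⟨0,
  []⟩) .k .k) t52 t53

theorem ok54 : chk K t54 r33 = true :=
  chk_Q (e' := [0,-1,0,-2,0,0,1,1,0,0,1]) (by decide +kernel) (by decide +kernel) ok52 ok53

noncomputable def t55 : Tre :=
  .I [1,-1,-1,-2,0,0,0,1] t51 t54

theorem ok55 : chk K t55 r27 = true :=
  chk_I (e' := [0,1,1,2,0,0,0,-1]) (by decide +kernel) (by decide +kernel) ok51 ok54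

noncomputable def t56 : Tre :=
  .I [0,-1,-2,-1,2,0,0,-1] t50 t55

theorem ok56 : chk K t56 r26 = true :=
  chk_I (e' := [1,1,2,1,-2,0,0,1]) (by decide +kernel) (by decide +kernel) ok50 ok55

noncomputable def t57 : Tre :=
  .I [0,-1,0,0,1,0,0,-1] t39 t56

theorem ok57 : chk K t57 l25 = true :=
  chk_I (e' := [1,1,0,0,-1,0,0,1]) (by decide +kernel) (by decide +kernel) ok39 ok56

noncomputable def t59 : Tre :=
  .Q [0,1,0,1,0,0,-1,-1,0,0,-1] (.p false [0,0,1] [] (⟨0,[(21,0)]⟩,⟨0,[(20,0)]⟩) .k 0 (⟨0,[]⟩,⟨0,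
  []⟩) .k .k) t57 t58

theorem ok59 : chk K t59 l24 = true :=
  chk_Q (e' := [0,-1,0,-1,0,0,1,1,0,0,1]) (by decide +kernel) (by decide +kernel) ok57 ok58

noncomputable def t61 : Tre :=
  .I [1,1,0,-1,-1,0,0,1] t59 t60

theorem ok61 : chk K t61 l23 = true :=
  chk_I (e' := [0,-1,0,1,1,0,0,-1]) (by decide +kernel) (by decide +kernel) ok59 ok60

noncomputable def t63 : Tre :=
  .Q [0,0,0,0,0,0,-1,0,0,0,-1] (.p false [0,0,1] [] (⟨0,[(19,0)]⟩,⟨0,[(18,0)]⟩) .k 0 (⟨0,[]⟩,⟨0,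
  []⟩) .k .k) t61 t62

theorem ok63 : chk K t63 r5 = true :=
  chk_Q (e' := [0,0,0,0,0,0,1,0,0,0,1]) (by decide +kernel) (by decide +kernel) ok61 ok62

noncomputable def t64 : Tre :=
  .I [1,0,1,1,0,0,0,-1] t38 t63

theorem ok64 : chk K t64 r4 = true :=
  chk_I (e' := [0,0,-1,-1,0,0,0,1]) (by decide +kernel) (by decide +kernel) ok38 ok63

noncomputable def t65 : Tre :=
  .I [0,-1,-1,-2,0,0,0,1] t3 t64

theorem ok65 : chk K t65 r3 = true :=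
  chk_I (e' := [1,1,1,2,0,0,0,-1]) (by decide +kernel) (by decide +kernel) ok3 ok64

noncomputable def t66 : Tre :=
  .I [0,-1,0,-1,0,0,0,-1] t2 t65

theorem ok66 : chk K t66 r2 = true :=
  chk_I (e' := [1,1,0,1,0,0,0,1]) (by decide +kernel) (by decide +kernel) ok2 ok65

noncomputable def t67 : Tre :=
  .Q [0,-1,0,1,1,0,0,0,0,-1] (.pp true [-1,1]) t1 t66

theorem ok67 : chk K t67 r1 = true :=
  chk_Q (e' := [0,1,0,-1,-1,0,0,0,0,1]) (by decide +kernel) (by decide +kernel) ok1 ok66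

noncomputable def t68 : Tre :=
  .Q [0,-1,0,2,1,0,0,0,0,-1] (.pp true [-1,1]) t0 t67

theorem ok68 : chk K t68 l0 = true :=
  chk_Q (e' := [0,1,0,-2,-1,0,0,0,0,1]) (by decide +kernel) (by decide +kernel) ok0 ok67

noncomputable def t80 : Tre :=
  .Q [0,0,0,0,0,0,0,0,-1,1,0,-1] (.p false [0,0,0,0,1] [1] (⟨0,[(18,0)]⟩,⟨0,[(17,0)]⟩) .k 1 (⟨0,[]⟩,
  ⟨0,[]⟩) .k .k) t78 t79

theorem ok80 : chk K t80 r45 = true :=
  chk_Q (e' := [0,0,0,0,0,0,0,0,1,-1,0,1]) (by decide +kernel) (by decide +kernel) ok78 ok79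

noncomputable def t81 : Tre :=
  .Q [0,0,0,-1,0,0,0,0,-1,0,0,-1] (.p false [0,0,0,0,1] [] (⟨0,[(17,0)]⟩,⟨0,[(16,0)]⟩) .k 0 (⟨0,[]⟩,
  ⟨0,[]⟩) .k .k) t77 t80

theorem ok81 : chk K t81 r44 = true :=
  chk_Q (e' := [0,0,0,1,0,0,0,0,1,0,0,1]) (by decide +kernel) (by decide +kernel) ok77 ok80

noncomputable def t82 : Tre :=
  .Q [0,0,1,0,-1,0,1,0,1,0,1,1] (.p true [0,0,1,0,1] [] (⟨0,[(16,0),(6,0)]⟩,⟨0,[(0,0)]⟩) .k 0 (⟨0,
  []⟩,⟨0,[]⟩) .k (.r 0 ⟨0,[(1,0),(30,0)]⟩ ⟨4,[(3,1),(2,0),(1,2),(24,0),(0,2)]⟩)) t76 t81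

theorem ok82 : chk K t82 r43 = true :=
  chk_Q (e' := [0,0,-1,0,1,0,-1,0,-1,0,-1,-1]) (by decide +kernel) (by decide +kernel) ok76 ok81

noncomputable def t83 : Tre :=
  .Q [0,0,0,0,0,0,0,0,0,-1,1,1] (.ed false [0,0,1,0,1] (.r 0 ⟨0,[(0,0),(30,0)]⟩ ⟨4,[(2,1),(2,0),(1,
  2),(24,0),(0,2)]⟩)) t75 t82

theorem ok83 : chk K t83 r42 = true :=
  chk_Q (e' := [0,0,0,0,0,0,0,0,0,1,-1,-1]) (by decide +kernel) (by decide +kernel) ok75 ok82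

noncomputable def t84 : Tre :=
  .I [0,-1,0,-1,0,0,0,-1] t74 t83

theorem ok84 : chk K t84 r41 = true :=
  chk_I (e' := [1,1,0,1,0,0,0,1]) (by decide +kernel) (by decide +kernel) ok74 ok83

noncomputable def t85 : Tre :=
  .I [0,-1,-1,-1,1,0,0,1] t73 t84

theorem ok85 : chk K t85 r40 = true :=
  chk_I (e' := [1,1,1,1,-1,0,0,-1]) (by decide +kernel) (by decide +kernel) ok73 ok84

noncomputable def t86 : Tre :=
  .I [1,1,-1,0,0,0,0,1] t72 t85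

theorem ok86 : chk K t86 r39 = true :=
  chk_I (e' := [0,-1,1,0,0,0,0,-1]) (by decide +kernel) (by decide +kernel) ok72 ok85

noncomputable def t87 : Tre :=
  .Q [0,0,0,-1,0,0,1,1,0,0,1] (.p true [0,0,1] [] (⟨0,[(18,0)]⟩,⟨0,[(17,0)]⟩) .k 0 (⟨0,[]⟩,⟨0,[]⟩)
  .k .k) t71 t86

theorem ok87 : chk K t87 l38 = true :=
  chk_Q (e' := [0,0,0,1,0,0,-1,-1,0,0,-1]) (by decide +kernel) (by decide +kernel) ok71 ok86

noncomputable def t96 : Tre :=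
  .I [0,1,-2,-1,0,0,0,1] t94 t95

theorem ok96 : chk K t96 r54 = true :=
  chk_I (e' := [1,-1,2,1,0,0,0,-1]) (by decide +kernel) (by decide +kernel) ok94 ok95

noncomputable def t97 : Tre :=
  .I [0,-1,1,0,0,0,0,1] t93 t96

theorem ok97 : chk K t97 r53 = true :=
  chk_I (e' := [1,1,-1,0,0,0,0,-1]) (by decide +kernel) (by decide +kernel) ok93 ok96

noncomputable def t98 : Tre :=
  .I [1,0,-1,-1,0,0,0,1] t92 t97

theorem ok98 : chk K t98 l52 = true :=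
  chk_I (e' := [0,0,1,1,0,0,0,-1]) (by decide +kernel) (by decide +kernel) ok92 ok97

noncomputable def t100 : Tre :=
  .I [1,0,1,1,0,0,0,-1] t98 t99

theorem ok100 : chk K t100 r51 = true :=
  chk_I (e' := [0,0,-1,-1,0,0,0,1]) (by decide +kernel) (by decide +kernel) ok98 ok99

noncomputable def t101 : Tre :=
  .I [1,0,-1,0,0,0,0,1] t91 t100

theorem ok101 : chk K t101 l50 = true :=
  chk_I (e' := [0,0,1,0,0,0,0,-1]) (by decide +kernel) (by decide +kernel) ok91 ok100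

noncomputable def t110 : Tre :=
  .I [0,-1,-2,-2,1] t108 t109

theorem ok110 : chk K t110 r62 = true :=
  chk_I (e' := [1,1,2,2,-1]) (by decide +kernel) (by decide +kernel) ok108 ok109

noncomputable def t111 : Tre :=
  .I [0,0,-2,-2,1,0,0,-1] t107 t110

theorem ok111 : chk K t111 r61 = true :=
  chk_I (e' := [1,0,2,2,-1,0,0,1]) (by decide +kernel) (by decide +kernel) ok107 ok110

noncomputable def t112 : Tre :=
  .Q [0,0,0,0,0,2,0,0,0,-1,1] (.p true [0,0,1] [1] (⟨0,[(27,0)]⟩,⟨0,[(26,0)]⟩) .k 1 (⟨0,[]⟩,⟨0,[]⟩)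
  .k .k) t106 t111

theorem ok112 : chk K t112 l60 = true :=
  chk_Q (e' := [0,0,0,0,0,-2,0,0,0,1,-1]) (by decide +kernel) (by decide +kernel) ok106 ok111

noncomputable def t114 : Tre :=
  .I [0,0,2,0,-1,2,-1] t112 t113

theorem ok114 : chk K t114 r59 = true :=
  chk_I (e' := [1,0,-2,0,1,-2,1]) (by decide +kernel) (by decide +kernel) ok112 ok113

noncomputable def t115 : Tre :=
  .I [0,-1,0,-1,1,0,0,-1] t105 t114

theorem ok115 : chk K t115 r58 = true :=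
  chk_I (e' := [1,1,0,1,-1,0,0,1]) (by decide +kernel) (by decide +kernel) ok105 ok114

noncomputable def t116 : Tre :=
  .Q [0,0,1,0,-1,0,-1,0,0,1,-1] (.p false [0,0,1] [1] (⟨0,[(24,0)]⟩,⟨0,[(23,0)]⟩) .k 1 (⟨0,[]⟩,⟨0,
  []⟩) .k .k) t104 t115

theorem ok116 : chk K t116 r57 = true :=
  chk_Q (e' := [0,0,-1,0,1,0,1,0,0,-1,1]) (by decide +kernel) (by decide +kernel) ok104 ok115

noncomputable def t117 : Tre :=
  .Q [0,0,0,-1,0,0,1,1,0,-1,1] (.p true [0,0,1] [1] (⟨0,[(23,0)]⟩,⟨0,[(22,0)]⟩) .k 1 (⟨0,[]⟩,⟨0,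
  []⟩) .k .k) t103 t116

theorem ok117 : chk K t117 r56 = true :=
  chk_Q (e' := [0,0,0,1,0,0,-1,-1,0,1,-1]) (by decide +kernel) (by decide +kernel) ok103 ok116

noncomputable def t118 : Tre :=
  .I [1,-1,-1,-2,0,0,0,1] t102 t117

theorem ok118 : chk K t118 r50 = true :=
  chk_I (e' := [0,1,1,2,0,0,0,-1]) (by decide +kernel) (by decide +kernel) ok102 ok117

noncomputable def t119 : Tre :=
  .I [0,-1,0,0,1,0,0,-1] t101 t118

theorem ok119 : chk K t119 r49 = true :=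
  chk_I (e' := [1,1,0,0,-1,0,0,1]) (by decide +kernel) (by decide +kernel) ok101 ok118

noncomputable def t120 : Tre :=
  .I [0,0,0,-1,0,0,0,-1] t90 t119

theorem ok120 : chk K t120 r48 = true :=
  chk_I (e' := [1,0,0,1,0,0,0,1]) (by decide +kernel) (by decide +kernel) ok90 ok119

noncomputable def t121 : Tre :=
  .Q [0,-1,0,-1,0,0,1,1,0,0,1] (.p true [0,0,1] [] (⟨0,[(19,0)]⟩,⟨0,[(18,0)]⟩) .k 0 (⟨0,[]⟩,⟨0,[]⟩)
  .k .k) t89 t120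

theorem ok121 : chk K t121 r47 = true :=
  chk_Q (e' := [0,1,0,1,0,0,-1,-1,0,0,-1]) (by decide +kernel) (by decide +kernel) ok89 ok120

noncomputable def t122 : Tre :=
  .Q [0,-1,0,0,0,0,-1,-1,0,1,-1] (.p false [0,0,1] [1] (⟨0,[(18,0)]⟩,⟨0,[(17,0)]⟩) .k 1 (⟨0,[]⟩,⟨0,
  []⟩) .k .k) t88 t121

theorem ok122 : chk K t122 r38 = true :=
  chk_Q (e' := [0,1,0,0,0,0,1,1,0,-1,1]) (by decide +kernel) (by decide +kernel) ok88 ok121

noncomputable def t123 : Tre :=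
  .Q [0,0,0,0,0,0,-1,-1,0,0,-1] (.p false [0,0,1] [] (⟨0,[(17,0)]⟩,⟨0,[(16,0)]⟩) .k 0 (⟨0,[]⟩,⟨0,
  []⟩) .k .k) t87 t122

theorem ok123 : chk K t123 r37 = true :=
  chk_Q (e' := [0,0,0,0,0,0,1,1,0,0,1]) (by decide +kernel) (by decide +kernel) ok87 ok122

noncomputable def t124 : Tre :=
  .I [1,0,3,3,-1] t70 t123

theorem ok124 : chk K t124 l36 = true :=
  chk_I (e' := [0,0,-3,-3,1]) (by decide +kernel) (by decide +kernel) ok70 ok123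

noncomputable def t126 : Tre :=
  .Q [0,0,0,0,0,0,-1,0,0,0,-1] (.p false [0,0,1] [] (⟨0,[(15,0)]⟩,⟨0,[(14,0)]⟩) .k 0 (⟨0,[]⟩,⟨0,
  []⟩) .k .k) t124 t125

theorem ok126 : chk K t126 r35 = true :=
  chk_Q (e' := [0,0,0,0,0,0,1,0,0,0,1]) (by decide +kernel) (by decide +kernel) ok124 ok125

noncomputable def t127 : Tre :=
  .I [1,-1,-1,-1,0,0,0,1] t69 t126

theorem ok127 : chk K t127 r0 = true :=
  chk_I (e' := [0,1,1,1,0,0,0,-1]) (by decide +kernel) (by decide +kernel) ok69 ok126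

noncomputable def t128 : Tre :=
  .I [0,0,3,3,-1] t68 t127

theorem ok128 : chk K t128 base = true :=
  chk_I (e' := [1,0,-3,-3,1]) (by decide +kernel) (by decide +kernel) ok68 ok127

theorem closed {p a b c J l q : ℤ} {D dl : ℝ} {Cl : ℤ → ℤ → ℤ → ℤ → ℝ → Prop}
    (W : World p a b c J 1 l q D dl Cl) (g : G0 p a b c J D)
    {N X R : ℤ} {I : ℝ} (hk : KCl p l Cl N X R I) (kz : KF a b D (X + (1 : ℤ) * I) (X + (1 : ℤ) * I + R) I)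
    {Ne Xe : ℤ} {Ie : ℝ} (he : EFac p 1 D Cl (a) Ne Xe Ie)
    (hkf : ∀ kf ∈ (kfY 1 [0,0,0,0,0,0,1,0,0,0,1]), KOk p l Cl 1
      (xv [1, a, b, c, p, J, X, R, Xe] [D, I, Ie]) N kf)
    (h0 : 1 ≤ -(c : ℝ))
    (h1 : 1 ≤ (a : ℝ) - (b : ℝ) + (c : ℝ))
    (h2 : 0 < -3 + (p : ℝ) - 2 * D)
    (h3 : 1 ≤ 2 * (a : ℝ) - (b : ℝ))
    (h4 : 1 ≤ -2 + (J : ℝ))
    (h5 : 0 < -(b : ℝ) - (X : ℝ) + D - I)
    (h6 : 0 < -(J : ℝ) + I)
    (h7 : 0 < -(J : ℝ) + D - I)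
    (h8 : 0 < -2 * (X : ℝ) + D - 2 * I) : False := by
  have g1 := g.a2
  have g2 := g.b2
  have g3 := g.pa
  have g4 := g.pb
  have g5 := g.J1
  have g6 := g.JD
  have g7 := g.D2
  have g8 := g.ca
  have g9 := g.ca'
  have k1 := kz.I0
  have k2 := kz.ID
  have k3 := kz.z1
  have k4 := kz.z2
  have k5 := kz.s1
  have k6 := kz.s2
  have e1 := he.I0
  have e2 := he.ID
  have e3 := he.x0
  have e4 := he.xp
  push_cast at *
  refine (val_E W.toBase hk he (row := [0,1]) (by simp) (by simp) (kfY 1 [0,0,0,0,0,0,1,0,0,0,1])).sound W rfl (Nk := N)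
    (fun kf _ _ => ⟨_, rfl⟩) hkf ?_ ok128
  · simp only [base, List.forall_mem_cons, List.not_mem_nil, false_imp_iff, implies_true,
      and_true, hld, xv, evg_cons, evg_nil, List.map_cons, List.map_nil, List.cons_append,
      List.nil_append, if_true, if_false, Bool.false_eq_true]
    push_cast
    refine ⟨?_, ?_, ?_, ?_, ?_, ?_, ?_, ?_, ?_, ?_, ?_, ?_, ?_, ?_, ?_, ?_, ?_, ?_, ?_, ?_, ?_, ?_, ?_, ?_, ?_, ?_, ?_⟩ <;> linarith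

end Helper25.S1T.Ymp_1cP4
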