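import Pool.Agent.Helper25.S1T.Ymp_1cP4_q

set_option autoImplicit false
set_option linter.all false

namespace Helper25.S1T.Ymp_1cP4

open Helper25.KG Helper25.KW Helper55.KE Helper11.CT

noncomputable def t0 : Tre :=
  (.Q [0,0,2,0,-1,0,0,0,0,1] (.pp false [-1,1]) (.S ⟨1,0,[0,1,-1,-2],[1,-1],[1,0,-1,-1],(⟨0,[(19,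
  0)]⟩,⟨0,[(20,0)]⟩),⟨0,[(4,0),(0,0)]⟩,.k,(.r (-1) ⟨0,[(25,1),(0,0)]⟩ ⟨2,[(2,1),(3,1),(0,1)]⟩),
  ⟨true,0,⟨0,[]⟩,⟨0,[(29,0)]⟩⟩,⟨false,0,⟨0,[(25,0)]⟩,⟨0,[(24,0),(2,0)]⟩⟩,⟨false,1,⟨0,[(24,0),(2,
  0)]⟩,⟨0,[(25,0)]⟩⟩,⟨true,0,⟨0,[(29,0)]⟩,⟨0,[]⟩⟩,[.o ⟨false,0,⟨0,[(25,1),(3,0)]⟩,⟨0,[(1,0)]⟩⟩,.o
  ⟨false,0,⟨0,[(25,1)]⟩,⟨5,[(1,3),(4,0),(0,0),(14,0),(1,3)]⟩⟩,.o ⟨false,0,⟨1,[(13,0),(0,0)]⟩,⟨1,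
  [(22,0),(3,0)]⟩⟩,.a ⟨true,(-1),⟨0,[(0,0)]⟩,⟨0,[(26,0)]⟩⟩ ⟨true,1,⟨0,[(25,0),(0,0)]⟩,⟨0,[(2,0),(20,
  0),(1,2)]⟩⟩ ⟨false,1,⟨0,[(25,1),(0,0)]⟩,⟨5,[(2,3),(3,0),(0,0),(19,2)]⟩⟩]⟩) (.Q [0,0,0,0,0,0,-1,-1,
  0,1,-1] (.p false [0,0,1] [1] (⟨0,[(16,0)]⟩,⟨0,[(15,0)]⟩) .k 1 (⟨0,[]⟩,⟨0,[]⟩) .k .k) (.Q [0,1,0,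
  0,0,0,1,1,0,-1,1] (.p true [0,0,1] [1] (⟨0,[(17,0)]⟩,⟨0,[(16,0)]⟩) .k 1 (⟨0,[]⟩,⟨0,[]⟩) .k .k)
  (.Q [0,0,0,0,0,0,-1,-1,0,0,-1] (.p false [0,0,1] [] (⟨0,[(18,0)]⟩,⟨0,[(17,0)]⟩) .k 0 (⟨0,[]⟩,⟨0,
  []⟩) .k .k) (.S ⟨1,0,[0,0,1,0,0,0,0,-1],[1,1,-1],[0,1,1,0,0,0,0,-1],(⟨0,[(18,0),(1,0)]⟩,⟨0,[(8,
  0)]⟩),⟨0,[(18,0)]⟩,.k,.k,⟨false,0,⟨0,[(28,0)]⟩,⟨0,[(27,0),(2,0)]⟩⟩,⟨true,0,⟨0,[(28,0)]⟩,⟨0,[(27,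
  0)]⟩⟩,⟨true,0,⟨0,[(32,0)]⟩,⟨0,[]⟩⟩,⟨false,1,⟨1,[(9,0),(0,0),(19,0)]⟩,⟨0,[]⟩⟩,[.o ⟨false,0,⟨0,[(0,
  0)]⟩,⟨1,[(14,1),(10,0),(4,0)]⟩⟩,.o ⟨false,1,⟨1,[(2,1),(22,0),(4,0)]⟩,⟨0,[(1,0)]⟩⟩,.a ⟨true,0,⟨0,
  [(13,0)]⟩,⟨0,[(16,0)]⟩⟩ ⟨false,0,⟨0,[(0,0),(15,0)]⟩,⟨0,[(1,0),(11,0),(16,0)]⟩⟩ ⟨true,0,⟨0,[(0,0),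
  (15,0)]⟩,⟨0,[(1,0),(11,0)]⟩⟩,.o ⟨false,0,⟨0,[(3,0),(1,0),(7,0),(14,2)]⟩,⟨1,[(16,1),(8,0),(3,
  0)]⟩⟩]⟩) (.I [0,0,2,2,-1,0,0,1] (.R ⟨1,false,false,false,[1,-1],[0,0,1],[0,1,-1,-2],(⟨0,[(23,0)]⟩,
  ⟨0,[(24,0)]⟩),(⟨0,[(20,0)]⟩,⟨0,[(19,0)]⟩),⟨0,[(8,0),(0,0)]⟩,.k,.k,(.r (-1) ⟨0,[(29,1),(0,0)]⟩ ⟨2,
  [(6,1),(3,1),(0,1)]⟩),.k,(.r (-2) ⟨1,[(3,1),(13,1),(8,0),(2,3),(0,2)]⟩ ⟨0,[(0,0)]⟩),.k,⟨false,1,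
  ⟨0,[(3,0),(0,0),(12,0),(9,0),(1,2)]⟩,⟨2,[(0,1),(0,0),(3,0),(8,0),(16,0)]⟩⟩,⟨true,1,⟨0,[(4,0),(12,
  0)]⟩,⟨0,[(0,0),(2,0),(25,1)]⟩⟩,⟨false,0,⟨0,[(29,0)]⟩,⟨0,[(28,0),(2,0)]⟩⟩,⟨false,1,⟨3,[(1,3),(3,1),
  (20,0),(4,0)]⟩,⟨0,[(3,0),(25,0)]⟩⟩,⟨true,0,⟨0,[(33,0)]⟩,⟨0,[]⟩⟩,⟨false,1,⟨0,[(1,0),(3,0)]⟩,⟨0,[(3,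
  0),(25,1)]⟩⟩,[.a ⟨true,0,⟨0,[(1,0)]⟩,⟨0,[(3,0)]⟩⟩ ⟨true,0,⟨0,[(27,0),(1,2)]⟩,⟨5,[(6,3),(3,0),(0,
  0),(19,2)]⟩⟩ ⟨false,1,⟨0,[(1,0),(2,0)]⟩,⟨1,[(3,1),(13,0),(0,0)]⟩⟩,.o ⟨false,1,⟨1,[(1,1),(24,0),(4,
  0)]⟩,⟨0,[(16,0)]⟩⟩,.o ⟨false,0,⟨1,[(17,0),(0,0)]⟩,⟨1,[(26,0),(3,0)]⟩⟩,.o ⟨false,0,⟨0,[(17,0),(0,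
  0)]⟩,⟨0,[(4,0)]⟩⟩]⟩) (.I [0,-1,1,1,0,0,0,1] (.S ⟨1,0,[0,1,1,0,0,0,0,1],[0,1,1],[1,0,1,1,0,0,0,1],
  (⟨0,[(21,0),(0,0)]⟩,⟨0,[(9,0)]⟩),⟨0,[(21,0)]⟩,.k,.k,⟨true,0,⟨0,[]⟩,⟨0,[(34,0)]⟩⟩,⟨false,0,⟨0,[(30,
  0)]⟩,⟨0,[(29,0),(2,0)]⟩⟩,⟨false,1,⟨0,[(29,0),(2,0)]⟩,⟨0,[(30,0)]⟩⟩,⟨true,0,⟨0,[(34,0)]⟩,⟨0,[]⟩⟩,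
  [.o ⟨false,0,⟨0,[(3,0)]⟩,⟨1,[(4,1),(22,0),(4,0)]⟩⟩,.a ⟨true,0,⟨0,[(2,0)]⟩,⟨0,[(4,0)]⟩⟩ ⟨true,0,⟨0,
  [(0,0)]⟩,⟨0,[(1,0),(5,0),(20,0),(1,2)]⟩⟩ ⟨false,0,⟨1,[(0,0),(2,0),(11,0),(14,0)]⟩,⟨4,[(1,2),(2,1),
  (1,1),(11,1),(9,0),(0,0)]⟩⟩,.o ⟨false,1,⟨0,[(5,0),(12,0)]⟩,⟨0,[(19,0)]⟩⟩,.o ⟨false,1,⟨1,[(18,1),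
  (8,0),(3,0)]⟩,⟨0,[(5,0),(1,0),(7,0),(14,2)]⟩⟩]⟩) (.K ⟨0,[1,-1,-1],(-1),0,(⟨0,[(9,0)]⟩,⟨0,[(21,0),
  (0,0)]⟩),.k,(.r (-1) ⟨0,[(0,1),(1,0),(2,0),(1,0),(7,0),(14,2),(1,0)]⟩ ⟨3,[(2,0),(3,0),(0,1),(0,0),
  (7,2),(2,1),(12,0)]⟩),.k,(.r (-1) ⟨0,[(1,1),(5,0)]⟩ ⟨0,[(2,1),(2,0),(1,0),(0,0),(21,1)]⟩),.k,[⟨0,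
  [(0,1),(1,1),(2,0),(1,0),(22,0),(1,0)]⟩,⟨0,[(7,0),(7,0),(14,2)]⟩,⟨3,[(2,0),(0,2),(1,0),(1,0),(20,
  0)]⟩,⟨0,[(4,0),(25,0),(3,0)]⟩]⟩)))) (.I [0,0,1,1,0,0,0,1] (.R ⟨1,false,false,true,[1,-1],[0,0,1],
  [1,1,-1,-1],(⟨0,[(22,0)]⟩,⟨0,[(23,0)]⟩),(⟨0,[(19,0)]⟩,⟨0,[(18,0)]⟩),⟨0,[(7,0),(0,0)]⟩,.k,.k,(.r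
  (-1) ⟨0,[(28,1),(0,0)]⟩ ⟨2,[(5,1),(3,1),(0,1)]⟩),.k,(.r (-1) ⟨0,[(1,0),(1,0),(12,0),(9,0),(1,2)]⟩
  ⟨2,[(0,2),(4,0),(3,0),(0,0)]⟩),.k,⟨false,1,⟨0,[(1,0),(1,0),(12,0),(9,0),(1,1)]⟩,⟨0,[(0,0)]⟩⟩,
  ⟨true,1,⟨0,[(3,0),(12,0)]⟩,⟨0,[(5,0),(7,0),(14,2)]⟩⟩,⟨false,0,⟨0,[]⟩,⟨1,[(9,0),(0,0),(19,0)]⟩⟩,
  ⟨false,1,⟨3,[(4,1),(9,3),(10,0),(4,0)]⟩,⟨0,[(1,0),(26,0)]⟩⟩,⟨true,0,⟨0,[(27,0)]⟩,⟨0,[(28,0)]⟩⟩,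
  ⟨false,1,⟨0,[(4,0),(9,0)]⟩,⟨0,[(1,0),(26,1)]⟩⟩,[.a ⟨true,0,⟨0,[(14,0)]⟩,⟨0,[(1,0)]⟩⟩ ⟨true,0,⟨0,
  [(26,0),(1,1)]⟩,⟨3,[(5,1),(10,0),(0,0),(10,1),(1,1)]⟩⟩ ⟨false,1,⟨0,[(3,0),(10,0)]⟩,⟨1,[(1,1),(14,
  0),(0,0)]⟩⟩,.o ⟨false,1,⟨1,[(14,1),(10,0),(4,0)]⟩,⟨0,[(1,0),(1,0),(1,0),(20,0),(1,3)]⟩⟩,.o ⟨false,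
  0,⟨1,[(16,0),(0,0)]⟩,⟨1,[(25,0),(3,0)]⟩⟩,.o ⟨false,0,⟨0,[(16,0),(0,0)]⟩,⟨0,[(3,0)]⟩⟩]⟩) (.K ⟨0,[1,
  -1,-1],(-1),(-1),(⟨0,[(7,0)]⟩,⟨0,[(19,0),(0,0)]⟩),.k,(.r (-1) ⟨1,[(0,1),(8,0),(0,0),(17,1),(0,
  0)]⟩ ⟨1,[(3,0),(1,1),(0,0),(7,1),(13,1),(1,0)]⟩),.k,(.r 0 ⟨6,[(0,11),(1,0),(1,0),(0,0),(9,0),(0,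
  1)]⟩ ⟨0,[(3,0),(1,0),(0,0),(7,1),(13,1),(1,0)]⟩),.k,[⟨0,[(0,1),(2,0),(1,0),(8,1),(13,0),(1,0)]⟩,
  ⟨0,[(5,0),(7,0),(14,2)]⟩,⟨2,[(4,0),(4,0),(0,0),(3,2),(10,0),(1,0)]⟩,⟨0,[(0,0),(4,0),(7,0),(12,0),
  (1,3)]⟩]⟩))) (.S ⟨1,0,[0,1,1,0,0,0,0,-1],[1,1,-1],[0,0,1,0,0,0,0,-1],(⟨0,[(16,0),(1,0)]⟩,⟨0,[(6,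
  0)]⟩),⟨0,[(16,0)]⟩,.k,.k,⟨true,0,⟨0,[(26,0)]⟩,⟨0,[(25,0)]⟩⟩,⟨false,0,⟨0,[(26,0)]⟩,⟨0,[(25,0),(2,
  0)]⟩⟩,⟨false,1,⟨1,[(7,0),(0,0),(19,0)]⟩,⟨0,[]⟩⟩,⟨true,0,⟨0,[(30,0)]⟩,⟨0,[]⟩⟩,[.o ⟨false,0,⟨0,[(13,
  0)]⟩,⟨3,[(0,1),(11,1),(10,0),(4,2)]⟩⟩,.o ⟨false,1,⟨1,[(7,0),(0,0),(4,1),(14,0)]⟩,⟨0,[(0,0)]⟩⟩,.a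
  ⟨true,0,⟨0,[(11,0)]⟩,⟨0,[(14,0)]⟩⟩ ⟨false,1,⟨0,[(13,0),(0,0),(13,0)]⟩,⟨0,[(0,0),(10,0)]⟩⟩ ⟨true,0,
  ⟨0,[(13,0),(0,0)]⟩,⟨0,[(0,0),(10,0)]⟩⟩,.o ⟨false,0,⟨0,[(1,0),(1,0),(7,0),(14,2)]⟩,⟨1,[(14,1),(8,
  0),(3,0)]⟩⟩]⟩)))

theorem ok0 : chk K t0 l1 = true := by decide +kernel

noncomputable def t1 : Tre :=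
  (.R ⟨2,true,false,true,[0,1],[1,-1],[1,1,1,1],(⟨0,[]⟩,⟨0,[]⟩),(⟨0,[(19,0)]⟩,⟨0,[(20,0)]⟩),⟨0,[]⟩,
  .k,.k,.k,(.r 0 ⟨2,[(2,1),(3,1),(0,1)]⟩ ⟨0,[(25,1),(0,0)]⟩),.k,.k,⟨false,0,⟨3,[(2,1),(21,1),(1,0),
  (0,0)]⟩,⟨0,[(25,1),(0,0)]⟩⟩,⟨true,(-1),⟨6,[(1,5),(0,3),(0,0),(9,1),(13,2)]⟩,⟨1,[(22,0),(3,0)]⟩⟩,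
  ⟨false,0,⟨0,[]⟩,⟨1,[(6,0),(0,0),(19,0)]⟩⟩,⟨true,(-1),⟨0,[(1,0)]⟩,⟨0,[(0,0),(23,0)]⟩⟩,⟨true,0,⟨0,
  [(24,0)]⟩,⟨0,[(25,0)]⟩⟩,⟨false,0,⟨3,[(1,1),(4,0),(0,0),(9,1),(1,1),(7,0)]⟩,⟨0,[(0,0)]⟩⟩,[]⟩)

theorem ok1 : chk K t1 l2 = true := by decide +kernel

noncomputable def t2 : Tre :=
  (.Q [0,0,0,0,0,0,1,0,0,0,1] (.p true [0,0,1] [] (⟨0,[(17,0)]⟩,⟨0,[(16,0)]⟩) .k 0 (⟨0,[]⟩,⟨0,[]⟩)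
  .k .k) (.K ⟨0,[1,-1,-1],(-1),(-1),(⟨0,[(6,0)]⟩,⟨0,[(18,0),(0,0)]⟩),.k,(.r (-1) ⟨9,[(1,7),(1,5),(4,
  1),(0,1),(4,1),(0,1),(8,2),(3,10)]⟩ ⟨1,[(4,1),(7,1),(0,1),(10,0),(2,1),(1,0)]⟩),.k,(.r 0 ⟨2,[(0,
  0),(0,4),(12,0),(8,0),(1,1)]⟩ ⟨0,[(4,0),(7,1),(0,1),(10,0),(2,1),(1,0)]⟩),.k,[⟨1,[(0,3),(23,0),(3,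
  0)]⟩,⟨0,[(4,0),(7,0),(14,2)]⟩,⟨1,[(13,1),(10,0),(1,1),(2,0)]⟩,⟨20,[(1,15),(0,22),(1,2),(0,7),(8,
  4),(9,4),(0,8)]⟩]⟩) (.R ⟨1,false,false,false,[1,0,-1],[1,-1],[0,0,0,-1,0,0,0,-1],(⟨0,[(17,0)]⟩,⟨0,
  [(18,0)]⟩),(⟨0,[(21,0)]⟩,⟨0,[(22,0)]⟩),⟨0,[(6,0)]⟩,.k,.k,.k,.k,.k,.k,⟨false,0,⟨0,[(1,0),(24,0)]⟩,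
  ⟨1,[(12,1),(0,1),(10,0),(4,0)]⟩⟩,⟨true,0,⟨0,[(15,0)]⟩,⟨0,[(0,0)]⟩⟩,⟨true,0,⟨0,[(27,0)]⟩,⟨0,[(26,
  0)]⟩⟩,⟨false,1,⟨0,[(13,0),(13,0),(1,0)]⟩,⟨19,[(1,13),(2,7),(7,13),(1,5),(9,6),(0,9),(3,0)]⟩⟩,
  ⟨false,1,⟨1,[(8,0),(0,0),(19,0)]⟩,⟨0,[]⟩⟩,⟨false,1,⟨0,[(13,0),(15,0)]⟩,⟨6,[(0,1),(0,3),(2,0),(7,
  1),(1,2),(9,0),(0,0)]⟩⟩,[.o ⟨false,0,⟨0,[(27,0)]⟩,⟨1,[(24,0),(1,1),(2,0)]⟩⟩,.a ⟨true,0,⟨0,[(2,0),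
  (26,0)]⟩,⟨0,[(26,0)]⟩⟩ ⟨true,0,⟨0,[(1,0)]⟩,⟨13,[(4,3),(0,5),(7,13),(2,1),(7,2),(1,1),(2,0)]⟩⟩
  ⟨false,1,⟨1,[(1,1),(11,1),(14,0),(0,0)]⟩,⟨8,[(0,0),(3,1),(0,3),(17,2),(0,1),(0,2)]⟩⟩,.o ⟨false,0,
  ⟨0,[(0,0)]⟩,⟨1,[(15,1),(8,0),(3,0)]⟩⟩,.o ⟨false,0,⟨0,[(16,0)]⟩,⟨1,[(1,1),(11,1),(10,0),(0,1),(3,
  0)]⟩⟩]⟩))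

theorem ok2 : chk K t2 l3 = true := by decide +kernel

noncomputable def t3 : Tre :=
  (.Q [0,-1,0,-1,0,0,1,1,0,0,1] (.p true [0,0,1] [] (⟨0,[(18,0)]⟩,⟨0,[(17,0)]⟩) .k 0 (⟨0,[]⟩,⟨0,
  []⟩) .k .k) (.R ⟨2,true,false,false,[0,1],[0,0,1],[0,0,1],(⟨0,[]⟩,⟨0,[]⟩),(⟨0,[(19,0)]⟩,⟨0,[(18,
  0)]⟩),⟨0,[]⟩,.k,.k,.k,.k,.k,.k,⟨false,1,⟨1,[(15,1),(0,1),(12,0),(0,0)]⟩,⟨6,[(1,4),(0,1),(2,0),(20,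
  4),(3,0)]⟩⟩,⟨true,0,⟨0,[(16,0)]⟩,⟨7,[(1,2),(3,1),(0,0),(6,2),(1,2),(9,1)]⟩⟩,⟨true,0,⟨0,[(28,0)]⟩,
  ⟨0,[(27,0)]⟩⟩,⟨false,0,⟨0,[(0,0)]⟩,⟨0,[(15,0),(11,0),(2,0)]⟩⟩,⟨false,1,⟨1,[(9,0),(0,0),(19,0)]⟩,
  ⟨0,[]⟩⟩,⟨true,0,⟨6,[(0,3),(4,0),(8,2),(11,0),(2,0)]⟩,⟨0,[(15,0)]⟩⟩,[]⟩) (.R ⟨1,false,false,true,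
  [0,0,1],[0,1],[],(⟨0,[(19,0)]⟩,⟨0,[(18,0)]⟩),(⟨0,[(23,0)]⟩,⟨0,[(22,0)]⟩),⟨0,[(8,0)]⟩,.k,.k,.k,.k,
  (.r 0 ⟨5,[(1,5),(2,1),(20,0),(0,3),(2,0)]⟩ ⟨5,[(0,5),(4,1),(3,4),(0,4),(5,5),(13,2)]⟩),.k,⟨true,1,
  ⟨1,[(28,1),(0,0),(0,0)]⟩,⟨6,[(4,3),(0,4),(18,0),(0,1),(6,0)]⟩⟩,⟨false,1,⟨1,[(13,1),(11,0),(3,0)]⟩,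
  ⟨0,[(16,0)]⟩⟩,⟨true,1,⟨1,[(15,1),(0,1),(12,0),(0,0)]⟩,⟨19,[(1,16),(0,2),(0,17),(1,10),(19,8),(0,
  15)]⟩⟩,⟨true,0,⟨0,[(0,0)]⟩,⟨1,[(1,0),(12,0),(1,0)]⟩⟩,⟨true,1,⟨1,[(0,1),(15,1),(12,0),(0,0)]⟩,⟨4,
  [(1,3),(0,0),(0,5),(1,1),(19,2),(0,1)]⟩⟩,⟨false,1,⟨0,[(0,0),(26,0),(2,0)]⟩,⟨0,[(1,0),(14,0)]⟩⟩,
  [.e ⟨false,1,⟨1,[(9,0),(0,0),(18,0)]⟩,⟨0,[]⟩⟩ ⟨false,0,⟨6,[(0,2),(0,2),(3,0),(0,1),(18,0),(0,6)]⟩,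
  ⟨1,[(16,1),(11,1),(0,0),(0,0)]⟩⟩,.o ⟨false,1,⟨1,[(25,0),(1,1),(2,0)]⟩,⟨0,[(28,0)]⟩⟩,.o ⟨false,1,
  ⟨1,[(16,1),(8,0),(3,0)]⟩,⟨6,[(0,2),(0,2),(3,0),(0,1),(18,0)]⟩⟩,.a ⟨true,0,⟨0,[(16,0)]⟩,⟨0,[(13,
  0)]⟩⟩ ⟨false,1,⟨1,[(29,0),(0,0)]⟩,⟨1,[(16,0),(0,0)]⟩⟩ ⟨true,0,⟨6,[(0,2),(0,2),(3,0),(0,1),(18,0),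
  (0,6)]⟩,⟨0,[(16,0),(11,0)]⟩⟩]⟩))

theorem ok3 : chk K t3 l4 = true := by decide +kernel

noncomputable def t4 : Tre :=
  (.R ⟨2,true,false,true,[0,1],[0,1,1],[1,1,1,1],(⟨0,[]⟩,⟨0,[]⟩),(⟨0,[(22,0),(0,0)]⟩,⟨0,[(10,0)]⟩),
  ⟨0,[]⟩,.k,.k,.k,.k,.k,.k,⟨true,0,⟨0,[(0,0),(18,0),(9,0)]⟩,⟨1,[(2,1),(14,1),(10,0),(4,0)]⟩⟩,⟨false,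
  1,⟨0,[(19,0),(12,0)]⟩,⟨1,[(2,0),(13,0),(11,0)]⟩⟩,⟨false,0,⟨0,[]⟩,⟨1,[(12,0),(0,0),(19,0)]⟩⟩,⟨true,
  0,⟨0,[(17,0)]⟩,⟨28,[(0,17),(3,3),(3,0),(0,1),(8,6),(9,0),(0,6)]⟩⟩,⟨true,0,⟨6,[(4,1),(0,1),(21,0),
  (1,0)]⟩,⟨0,[(31,0)]⟩⟩,⟨false,1,⟨5,[(4,1),(0,1),(11,5),(14,0),(0,4)]⟩,⟨0,[(0,0)]⟩⟩,[]⟩)

theorem ok4 : chk K t4 l8 = true := by decide +kernel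

noncomputable def t5 : Tre :=
  (.R ⟨1,false,false,false,[1,0,-1],[0,1],[1,0,1],(⟨0,[(22,0)]⟩,⟨0,[(23,0)]⟩),(⟨0,[(27,0)]⟩,⟨0,[(26,
  0)]⟩),⟨0,[(11,0)]⟩,.k,.k,.k,.k,(.r (-1) ⟨1,[(0,1),(19,1),(8,0),(3,2)]⟩ ⟨1,[(6,0),(2,0),(8,0),(2,
  0),(12,0)]⟩),.k,⟨true,0,⟨0,[(32,0)]⟩,⟨11,[(1,1),(3,1),(3,1),(10,0),(0,2),(12,1)]⟩⟩,⟨false,2,⟨1,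
  [(20,1),(8,0),(3,2)]⟩,⟨0,[(3,0)]⟩⟩,⟨true,0,⟨1,[(3,1),(14,1),(10,0),(4,0)]⟩,⟨1,[(0,1),(19,1),(8,0),
  (0,3),(3,0)]⟩⟩,⟨true,1,⟨1,[(1,1),(27,0),(4,0)]⟩,⟨15,[(0,8),(4,0),(1,5),(1,0),(7,0),(1,5),(10,
  2)]⟩⟩,⟨true,0,⟨1,[(1,1),(1,1),(25,0),(4,0)]⟩,⟨1,[(0,1),(19,1),(8,0),(0,1),(2,0)]⟩⟩,⟨false,2,⟨5,
  [(1,5),(3,1),(0,1),(22,2),(3,0),(0,7)]⟩,⟨0,[(0,0)]⟩⟩,[.o ⟨false,1,⟨5,[(5,1),(0,1),(22,2),(3,0),(0,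
  1)]⟩,⟨0,[(32,0)]⟩⟩,.e ⟨false,1,⟨1,[(13,0),(0,0),(19,0)]⟩,⟨5,[(8,1),(20,0),(0,3),(2,0)]⟩⟩ ⟨false,2,
  ⟨1,[(20,1),(8,0),(0,1),(2,0),(0,1)]⟩,⟨0,[(0,0),(5,0)]⟩⟩,.o ⟨false,0,⟨1,[(3,0),(13,0),(11,0)]⟩,⟨1,
  [(20,1),(8,0),(3,0)]⟩⟩,.a ⟨true,(-1),⟨0,[(3,0)]⟩,⟨0,[(20,0),(12,0)]⟩⟩ ⟨true,0,⟨0,[]⟩,⟨0,[(36,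
  0)]⟩⟩ ⟨false,2,⟨1,[(20,1),(8,0),(0,1),(2,0),(0,1)]⟩,⟨0,[(3,0),(28,0)]⟩⟩]⟩)

theorem ok5 : chk K t5 l9 = true := by decide +kernel

noncomputable def t6 : Tre :=
  (.Q [0,1,1,1,0,0,1,0,0,-1,1] (.p true [0,0,1] [1] (⟨0,[(27,0)]⟩,⟨0,[(26,0)]⟩) .k 1 (⟨0,[]⟩,⟨0,
  []⟩) .k .k) (.Q [0,0,-2,-1,1,0,1,0,0,0,1] (.p true [0,0,1] [] (⟨0,[(28,0)]⟩,⟨0,[(27,0)]⟩) .k 0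
  (⟨0,[]⟩,⟨0,[]⟩) .k .k) (.Q [0,1,1,1,-1,0,-1,0,0,0,-1] (.p false [0,0,1] [] (⟨0,[(29,0)]⟩,⟨0,[(28,
  0)]⟩) .k 0 (⟨0,[]⟩,⟨0,[]⟩) .k .k) (.Q [0,0,2,0,-1,0,-1,0,0,0,-1] (.p false [0,0,1] [] (⟨0,[(30,
  0)]⟩,⟨0,[(29,0)]⟩) .k 0 (⟨0,[]⟩,⟨0,[]⟩) .k .k) (.Q [0,0,0,0,0,0,-1,-1,0,0,-1] (.p false [0,0,1]
  [] (⟨0,[(31,0)]⟩,⟨0,[(30,0)]⟩) .k 0 (⟨0,[]⟩,⟨0,[]⟩) .k .k) (.R ⟨0,false,false,false,[1,-1,-1],[1,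
  -1],[1,1,1],(⟨0,[(20,0)]⟩,⟨0,[(8,0),(26,0)]⟩),(⟨0,[(35,0)]⟩,⟨0,[(36,0)]⟩),⟨0,[(8,0)]⟩,.k,.k,(.r
  (-1) ⟨0,[(5,0),(35,0)]⟩ ⟨3,[(6,0),(3,2),(7,0),(11,2),(12,1)]⟩),.k,.k,.k,⟨true,(-1),⟨5,[(1,0),(2,
  1),(1,0),(10,1),(0,1),(9,0)]⟩,⟨5,[(3,1),(22,1),(11,0),(2,3),(1,2)]⟩⟩,⟨false,1,⟨8,[(3,5),(6,1),(3,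
  1),(7,0),(0,0),(5,0),(13,1)]⟩,⟨2,[(1,0),(24,1),(11,0)]⟩⟩,⟨true,(-1),⟨1,[(1,0),(4,0),(20,0)]⟩,⟨0,
  [(5,0)]⟩⟩,⟨false,1,⟨0,[(27,0),(15,0)]⟩,⟨0,[(0,0)]⟩⟩,⟨false,0,⟨0,[]⟩,⟨0,[]⟩⟩,⟨false,0,⟨0,[]⟩,⟨0,
  []⟩⟩,[.o ⟨false,0,⟨0,[(41,0)]⟩,⟨35,[(5,3),(3,11),(4,7),(4,5),(2,0),(0,0),(14,14),(4,3)]⟩⟩,.e
  ⟨false,0,⟨0,[]⟩,⟨3,[(3,0),(1,0),(3,0),(9,0),(2,0),(0,0)]⟩⟩ ⟨false,2,⟨1,[(3,1),(18,0),(0,0),(19,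
  0)]⟩,⟨0,[(2,0)]⟩⟩,.a ⟨true,(-1),⟨0,[(12,0)]⟩,⟨8,[(3,5),(6,1),(3,1),(7,0),(0,0),(5,0),(13,1)]⟩⟩
  ⟨false,0,⟨1,[(29,0),(0,0)]⟩,⟨1,[(42,0),(0,0)]⟩⟩ ⟨true,1,⟨1,[(3,1),(25,0),(0,0)]⟩,⟨0,[(2,0)]⟩⟩,.o
  ⟨false,(-1),⟨0,[(1,0)]⟩,⟨3,[(3,1),(1,1),(3,1),(12,0),(0,0),(14,0)]⟩⟩]⟩) (.R ⟨2,true,false,false,
  [0,1],[0,1,1],[0,1,1],(⟨0,[]⟩,⟨0,[]⟩),(⟨0,[(8,0),(26,0)]⟩,⟨0,[(20,0)]⟩),⟨0,[]⟩,.k,.k,.k,.k,.k,.k,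
  ⟨true,0,⟨14,[(4,3),(0,5),(1,2),(9,7),(10,5),(0,1),(8,1)]⟩,⟨0,[(0,0),(1,0),(40,0)]⟩⟩,⟨false,1,⟨8,
  [(3,5),(6,1),(3,1),(7,0),(0,0),(5,0),(13,1)]⟩,⟨2,[(1,0),(24,1),(11,0)]⟩⟩,⟨false,0,⟨0,[(41,0)]⟩,
  ⟨20,[(3,1),(5,4),(0,0),(3,5),(4,2),(6,1),(16,13)]⟩⟩,⟨true,0,⟨0,[(0,0)]⟩,⟨0,[(28,0)]⟩⟩,⟨true,0,⟨0,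
  [(45,0)]⟩,⟨0,[]⟩⟩,⟨false,1,⟨0,[(10,0),(32,0)]⟩,⟨0,[(1,0),(3,0)]⟩⟩,[]⟩)) (.I [0,-1,-1,-1,1,0,0,-1]
  (.R ⟨0,false,false,true,[1,-1,-1],[1,-1],[1,1],(⟨0,[(20,0)]⟩,⟨0,[(8,0),(26,0)]⟩),(⟨0,[(35,0)]⟩,⟨0,
  [(36,0)]⟩),⟨0,[(8,0)]⟩,.k,.k,(.r (-1) ⟨0,[(5,0),(35,0)]⟩ ⟨3,[(6,0),(3,2),(7,0),(11,2),(12,1)]⟩),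
  .k,.k,.k,⟨true,0,⟨12,[(7,0),(1,1),(4,0),(3,1),(0,1),(9,2),(0,0)]⟩,⟨0,[(41,0)]⟩⟩,⟨false,1,⟨8,[(3,
  5),(6,1),(3,1),(7,0),(0,0),(5,0),(13,1)]⟩,⟨1,[(12,0),(13,0),(11,0)]⟩⟩,⟨false,0,⟨1,[(6,0),(8,0),
  (25,0),(1,0)]⟩,⟨0,[(0,0)]⟩⟩,⟨true,0,⟨0,[(27,0)]⟩,⟨0,[(0,0),(1,0)]⟩⟩,⟨false,0,⟨0,[]⟩,⟨0,[]⟩⟩,
  ⟨false,0,⟨0,[]⟩,⟨0,[]⟩⟩,[.e ⟨false,0,⟨5,[(17,1),(20,0),(0,3),(2,0)]⟩,⟨1,[(22,0),(0,0),(19,0)]⟩⟩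
  ⟨false,1,⟨0,[(3,0),(41,0)]⟩,⟨0,[(2,0),(40,0)]⟩⟩,.o ⟨false,0,⟨0,[(41,0)]⟩,⟨4,[(0,0),(8,1),(4,0),(4,
  0),(18,1)]⟩⟩,.e ⟨false,0,⟨0,[]⟩,⟨1,[(22,0),(0,0),(19,0)]⟩⟩ ⟨false,1,⟨1,[(3,1),(25,0),(0,0)]⟩,⟨0,
  [(2,0),(40,0)]⟩⟩,.a ⟨true,(-1),⟨1,[(12,1),(16,0),(0,0)]⟩,⟨0,[(1,0)]⟩⟩ ⟨true,0,⟨5,[(17,1),(20,0),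
  (0,3),(2,0)]⟩,⟨1,[(29,0),(0,0)]⟩⟩ ⟨false,1,⟨0,[(3,0)]⟩,⟨5,[(12,1),(5,1),(11,3),(7,0),(4,2)]⟩⟩]⟩)
  (.Q [0,0,0,0,0,0,1,1,0,0,1] (.p true [0,0,1] [] (⟨0,[(32,0)]⟩,⟨0,[(31,0)]⟩) .k 0 (⟨0,[]⟩,⟨0,[]⟩)
  .k .k) (.R ⟨0,false,false,false,[1,-1,-1],[1,-1],[1],(⟨0,[(21,0)]⟩,⟨0,[(9,0),(26,0)]⟩),(⟨0,[(36,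
  0)]⟩,⟨0,[(37,0)]⟩),⟨0,[(9,0)]⟩,.k,.k,(.r (-1) ⟨0,[(6,0),(35,0)]⟩ ⟨3,[(7,0),(3,2),(7,0),(11,2),(12,
  1)]⟩),.k,.k,.k,⟨true,0,⟨12,[(8,0),(1,1),(4,0),(3,1),(0,1),(9,2),(0,0)]⟩,⟨0,[(42,0)]⟩⟩,⟨false,1,⟨8,
  [(4,5),(6,1),(3,1),(7,0),(0,0),(5,0),(13,1)]⟩,⟨1,[(13,0),(13,0),(11,0)]⟩⟩,⟨false,0,⟨0,[(1,0),(42,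
  0)]⟩,⟨1,[(6,1),(23,0),(0,0)]⟩⟩,⟨true,0,⟨0,[(0,0)]⟩,⟨0,[(29,0)]⟩⟩,⟨false,0,⟨0,[]⟩,⟨0,[]⟩⟩,⟨false,0,
  ⟨0,[]⟩,⟨0,[]⟩⟩,[.o ⟨false,0,⟨0,[(42,0)]⟩,⟨35,[(6,3),(3,11),(4,7),(4,5),(2,0),(0,0),(14,14),(4,
  3)]⟩⟩,.e ⟨false,1,⟨1,[(43,0),(0,0)]⟩,⟨0,[(46,0)]⟩⟩ ⟨false,2,⟨1,[(4,1),(18,0),(0,0),(19,0)]⟩,⟨0,
  [(3,0)]⟩⟩,.e ⟨true,0,⟨0,[]⟩,⟨0,[(46,0)]⟩⟩ ⟨true,1,⟨1,[(4,1),(25,0),(0,0)]⟩,⟨0,[(3,0)]⟩⟩,.a ⟨true,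
  (-1),⟨1,[(13,1),(16,0),(0,0)]⟩,⟨0,[(2,0)]⟩⟩ ⟨false,1,⟨1,[(43,0),(0,0)]⟩,⟨1,[(30,0),(0,0)]⟩⟩ ⟨true,
  1,⟨0,[(4,0)]⟩,⟨4,[(3,2),(1,0),(12,0),(0,0),(11,2)]⟩⟩]⟩) (.Q [0,-1,-2,0,2,0,2,1,0,-1,2] (.p true
  [0,0,1] [1,0,-1] (⟨0,[(33,0)]⟩,⟨0,[(32,0)]⟩) .k 2 (⟨0,[(32,0)]⟩,⟨0,[(33,0)]⟩) .k (.r 0 ⟨2,[(1,5),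
  (2,1),(22,1),(11,0),(2,3),(1,2)]⟩ ⟨6,[(6,5),(1,3),(6,0),(7,0),(0,0),(4,2),(0,2)]⟩)) (.R ⟨0,false,
  false,false,[1,-1,-1],[0,0,1],[1,0,0,0,0,0,0,1],(⟨0,[(22,0)]⟩,⟨0,[(10,0),(26,0)]⟩),(⟨0,[(34,0)]⟩,
  ⟨0,[(33,0)]⟩),⟨0,[(10,0)]⟩,.k,.k,(.r (-1) ⟨0,[(7,0),(35,0)]⟩ ⟨3,[(8,0),(3,2),(7,0),(11,2),(12,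
  1)]⟩),(.r (-1) ⟨14,[(6,1),(0,17),(1,8),(9,3),(10,2),(0,0),(8,0)]⟩ ⟨10,[(0,4),(1,14),(16,1),(1,2),
  (7,1),(2,5),(12,6)]⟩),.k,.k,⟨true,0,⟨0,[]⟩,⟨1,[(31,0),(0,0)]⟩⟩,⟨false,2,⟨5,[(0,3),(4,0),(0,1),(0,
  2),(8,0),(14,0),(15,0)]⟩,⟨1,[(14,2),(13,0),(11,0)]⟩⟩,⟨false,0,⟨9,[(0,1),(1,17),(25,3),(11,0),(2,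
  7),(1,12)]⟩,⟨14,[(6,1),(0,17),(1,8),(9,3),(10,2),(0,0),(8,0)]⟩⟩,⟨true,1,⟨4,[(0,2),(1,2),(5,0),(20,
  2),(1,0),(8,0),(4,1)]⟩,⟨0,[(1,1),(16,0)]⟩⟩,⟨false,0,⟨0,[]⟩,⟨0,[]⟩⟩,⟨false,0,⟨0,[]⟩,⟨0,[]⟩⟩,[.o
  ⟨false,1,⟨1,[(29,1),(10,0),(4,0)]⟩,⟨0,[(1,0)]⟩⟩,.e ⟨false,1,⟨4,[(0,1),(1,2),(25,3),(11,0),(2,2),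
  (1,2)]⟩,⟨2,[(6,0),(0,0),(7,0),(2,0),(11,0)]⟩⟩ ⟨false,2,⟨0,[(0,0)]⟩,⟨0,[(14,0),(15,0)]⟩⟩,.a ⟨true,
  (-1),⟨0,[(14,0)]⟩,⟨7,[(0,1),(4,3),(10,1),(4,0),(9,1),(3,0),(1,0)]⟩⟩ ⟨true,0,⟨9,[(0,1),(1,7),(25,
  3),(11,0),(2,7),(1,2)]⟩,⟨2,[(6,0),(0,0),(7,0),(2,0),(11,0)]⟩⟩ ⟨false,2,⟨1,[(0,1),(30,0),(0,0)]⟩,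
  ⟨0,[(1,0),(12,0)]⟩⟩,.e ⟨false,1,⟨4,[(0,1),(1,2),(25,3),(11,0),(2,2),(1,2)]⟩,⟨14,[(6,1),(0,2),(1,
  8),(9,3),(10,2),(0,0),(8,0)]⟩⟩ ⟨false,2,⟨0,[(0,0)]⟩,⟨5,[(1,2),(7,1),(4,4),(4,0),(10,0),(1,
  2)]⟩⟩]⟩) (.R ⟨0,false,false,false,[1,-1,-1],[0,0,1],[1,0,0,0,0,0,0,1],(⟨0,[(22,0)]⟩,⟨0,[(10,0),
  (26,0)]⟩),(⟨0,[(34,0)]⟩,⟨0,[(33,0)]⟩),⟨0,[(10,0)]⟩,.k,.k,(.r (-1) ⟨0,[(7,0),(35,0)]⟩ ⟨3,[(8,0),(3,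
  2),(7,0),(11,2),(12,1)]⟩),(.r (-1) ⟨14,[(6,1),(0,17),(1,8),(9,3),(10,2),(0,0),(8,0)]⟩ ⟨0,[(2,0),
  (14,0),(25,0),(1,0)]⟩),.k,.k,⟨true,0,⟨0,[]⟩,⟨1,[(31,0),(0,0)]⟩⟩,⟨false,2,⟨6,[(5,8),(0,1),(0,0),(1,
  1),(1,2),(28,0)]⟩,⟨1,[(14,2),(13,0),(11,0)]⟩⟩,⟨false,0,⟨5,[(2,11),(2,1),(22,1),(11,0),(2,3),(1,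
  8)]⟩,⟨14,[(6,1),(0,17),(1,8),(9,3),(10,2),(0,0),(8,0)]⟩⟩,⟨true,1,⟨7,[(2,11),(2,7),(5,1),(17,1),(1,
  3),(8,2),(4,6)]⟩,⟨0,[(0,0),(6,0)]⟩⟩,⟨false,0,⟨0,[]⟩,⟨0,[]⟩⟩,⟨false,0,⟨0,[]⟩,⟨0,[]⟩⟩,[.o ⟨false,1,
  ⟨1,[(29,1),(10,0),(4,0)]⟩,⟨0,[(1,0)]⟩⟩,.a ⟨true,1,⟨0,[(29,0),(15,0)]⟩,⟨0,[(0,0),(2,0)]⟩⟩ ⟨false,1,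
  ⟨2,[(2,2),(2,1),(22,1),(11,0),(2,0),(1,2)]⟩,⟨8,[(0,0),(5,2),(0,3),(7,0),(0,1),(2,1),(10,0)]⟩⟩
  ⟨true,2,⟨7,[(2,3),(2,7),(5,1),(17,1),(1,3),(8,2),(4,6)]⟩,⟨0,[(0,0)]⟩⟩,.a ⟨true,(-1),⟨0,[(14,0)]⟩,
  ⟨8,[(5,5),(6,1),(3,1),(7,0),(0,0),(5,0),(13,1)]⟩⟩ ⟨true,0,⟨5,[(2,5),(2,1),(22,1),(11,0),(2,3),(1,
  2)]⟩,⟨8,[(0,0),(5,2),(0,3),(7,0),(0,1),(2,1),(10,0)]⟩⟩ ⟨false,2,⟨7,[(2,3),(2,7),(5,1),(17,1),(1,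
  3),(8,2),(4,6)]⟩,⟨2,[(0,1),(0,0),(26,0),(16,0)]⟩⟩,.a ⟨true,(-1),⟨1,[(14,1),(16,0),(0,0)]⟩,⟨0,[(3,
  0)]⟩⟩ ⟨false,1,⟨2,[(2,2),(2,1),(22,1),(11,0),(2,0),(1,2)]⟩,⟨14,[(6,1),(0,2),(1,8),(9,3),(10,2),(0,
  0),(8,0)]⟩⟩ ⟨true,2,⟨3,[(5,3),(5,1),(17,1),(10,0),(4,0)]⟩,⟨0,[(0,0)]⟩⟩]⟩))))) (.I [0,1,-1,-1,0,0,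
  0,-1] (.Q [0,0,0,0,0,0,-1,-1,0,0,-1] (.p false [0,0,1] [] (⟨0,[(31,0)]⟩,⟨0,[(30,0)]⟩) .k 0 (⟨0,
  []⟩,⟨0,[]⟩) .k .k) (.R ⟨0,false,false,false,[1,-1,-1],[1,-1],[1],(⟨0,[(20,0)]⟩,⟨0,[(8,0),(26,
  0)]⟩),(⟨0,[(35,0)]⟩,⟨0,[(36,0)]⟩),⟨0,[(8,0)]⟩,.k,.k,(.r (-1) ⟨0,[(5,0),(35,0)]⟩ ⟨3,[(6,0),(3,2),
  (7,0),(11,2),(12,1)]⟩),.k,.k,.k,⟨true,0,⟨12,[(7,0),(1,1),(4,0),(3,1),(0,1),(9,2),(0,0)]⟩,⟨0,[(41,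
  0)]⟩⟩,⟨false,1,⟨7,[(2,1),(0,3),(6,1),(3,1),(7,0),(0,0),(19,0)]⟩,⟨1,[(12,0),(13,0),(11,0)]⟩⟩,⟨true,
  0,⟨1,[(6,0),(8,0),(25,0),(1,0)]⟩,⟨0,[(1,0)]⟩⟩,⟨false,1,⟨0,[(27,0),(15,0)]⟩,⟨0,[(0,0)]⟩⟩,⟨false,0,
  ⟨0,[]⟩,⟨0,[]⟩⟩,⟨false,0,⟨0,[]⟩,⟨0,[]⟩⟩,[.o ⟨false,0,⟨0,[(41,0)]⟩,⟨35,[(5,3),(3,11),(4,7),(4,5),(2,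
  0),(0,0),(14,14),(4,3)]⟩⟩,.a ⟨true,0,⟨0,[(16,0),(26,0)]⟩,⟨0,[(40,0)]⟩⟩ ⟨false,1,⟨1,[(42,0),(0,
  0)]⟩,⟨0,[(45,0)]⟩⟩ ⟨true,1,⟨0,[(2,0)]⟩,⟨4,[(6,1),(5,2),(4,0),(0,0),(9,1),(9,1)]⟩⟩,.a ⟨true,(-1),
  ⟨0,[(12,0)]⟩,⟨7,[(2,1),(0,3),(6,1),(3,1),(7,0),(0,0),(19,0)]⟩⟩ ⟨true,0,⟨0,[]⟩,⟨0,[(45,0)]⟩⟩
  ⟨false,1,⟨0,[(2,0)]⟩,⟨43,[(9,1),(4,1),(3,11),(0,19),(10,5),(7,8),(4,0)]⟩⟩,.a ⟨true,(-1),⟨1,[(12,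
  1),(16,0),(0,0)]⟩,⟨0,[(2,0),(36,0)]⟩⟩ ⟨false,1,⟨1,[(42,0),(0,0)]⟩,⟨1,[(29,0),(0,0)]⟩⟩ ⟨true,1,⟨0,
  [(3,0)]⟩,⟨4,[(6,1),(5,2),(4,0),(0,0),(9,1),(9,1)]⟩⟩]⟩) (.R ⟨0,false,false,false,[1,-1,-1],[1,-1],
  [0,0,0,-1],(⟨0,[(20,0)]⟩,⟨0,[(8,0),(26,0)]⟩),(⟨0,[(35,0)]⟩,⟨0,[(36,0)]⟩),⟨0,[(8,0)]⟩,.k,.k,(.r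
  (-1) ⟨0,[(5,0),(35,0)]⟩ ⟨3,[(6,0),(3,2),(7,0),(11,2),(12,1)]⟩),.k,.k,.k,⟨true,0,⟨1,[(29,0),(0,
  0)]⟩,⟨0,[]⟩⟩,⟨false,1,⟨7,[(2,1),(0,3),(6,1),(3,1),(7,0),(0,0),(19,0)]⟩,⟨1,[(12,0),(13,0),(11,
  0)]⟩⟩,⟨false,0,⟨1,[(0,1),(11,1),(25,0),(4,0)]⟩,⟨5,[(5,3),(8,1),(7,0),(0,0),(19,0)]⟩⟩,⟨true,0,⟨0,
  [(0,0)]⟩,⟨0,[(28,0)]⟩⟩,⟨false,0,⟨0,[]⟩,⟨0,[]⟩⟩,⟨false,0,⟨0,[]⟩,⟨0,[]⟩⟩,[.o ⟨false,0,⟨0,[(41,0)]⟩,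
  ⟨35,[(5,3),(3,11),(4,7),(4,5),(2,0),(0,0),(14,14),(4,3)]⟩⟩,.a ⟨true,0,⟨0,[(16,0),(26,0)]⟩,⟨0,[(40,
  0)]⟩⟩ ⟨false,1,⟨5,[(3,1),(22,1),(11,0),(2,3),(1,2)]⟩,⟨6,[(14,1),(0,1),(21,0),(1,0)]⟩⟩ ⟨true,1,⟨0,
  [(2,0)]⟩,⟨4,[(6,1),(5,2),(4,0),(0,0),(9,1),(9,1)]⟩⟩,.a ⟨true,(-1),⟨0,[(12,0)]⟩,⟨7,[(2,1),(0,3),(6,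
  1),(3,1),(7,0),(0,0),(19,0)]⟩⟩ ⟨true,0,⟨0,[(41,0)]⟩,⟨6,[(14,1),(0,1),(21,0),(1,0)]⟩⟩ ⟨false,1,⟨0,
  [(2,0)]⟩,⟨43,[(9,1),(4,1),(3,11),(0,19),(10,5),(7,8),(4,0)]⟩⟩,.a ⟨true,(-1),⟨1,[(12,1),(16,0),(0,
  0)]⟩,⟨0,[(2,0),(36,0)]⟩⟩ ⟨false,1,⟨5,[(3,1),(22,1),(11,0),(2,3),(1,2)]⟩,⟨12,[(7,0),(1,1),(4,0),(3,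
  1),(0,1),(9,2),(0,0)]⟩⟩ ⟨true,1,⟨0,[(3,0)]⟩,⟨4,[(6,1),(5,2),(4,0),(0,0),(9,1),(9,1)]⟩⟩]⟩)) (.Q [0,
  0,0,0,0,0,1,1,0,0,1] (.p true [0,0,1] [] (⟨0,[(31,0)]⟩,⟨0,[(30,0)]⟩) .k 0 (⟨0,[]⟩,⟨0,[]⟩) .k .k)
  (.R ⟨0,false,false,false,[1,-1,-1],[1,-1],[1],(⟨0,[(20,0)]⟩,⟨0,[(8,0),(26,0)]⟩),(⟨0,[(35,0)]⟩,⟨0,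
  [(36,0)]⟩),⟨0,[(8,0)]⟩,.k,.k,(.r (-1) ⟨0,[(5,0),(35,0)]⟩ ⟨5,[(1,0),(8,4),(7,1),(11,4),(12,1)]⟩),
  .k,.k,.k,⟨true,0,⟨12,[(7,0),(1,1),(4,0),(3,1),(0,1),(9,2),(0,0)]⟩,⟨0,[(41,0)]⟩⟩,⟨false,1,⟨7,[(2,
  1),(0,3),(6,1),(3,1),(7,0),(0,0),(19,0)]⟩,⟨1,[(12,0),(13,0),(11,0)]⟩⟩,⟨false,0,⟨0,[(1,0)]⟩,⟨1,[(5,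
  1),(23,0),(0,0)]⟩⟩,⟨true,0,⟨0,[(0,0)]⟩,⟨0,[(28,0)]⟩⟩,⟨false,0,⟨0,[]⟩,⟨0,[]⟩⟩,⟨false,0,⟨0,[]⟩,⟨0,
  []⟩⟩,[.o ⟨false,0,⟨0,[(41,0)]⟩,⟨35,[(5,3),(3,11),(4,7),(4,5),(2,0),(0,0),(14,14),(4,3)]⟩⟩,.a
  ⟨true,0,⟨0,[(16,0),(26,0)]⟩,⟨0,[(40,0)]⟩⟩ ⟨false,1,⟨1,[(42,0),(0,0)]⟩,⟨0,[(45,0)]⟩⟩ ⟨true,1,⟨0,
  [(2,0)]⟩,⟨4,[(6,1),(5,2),(4,0),(0,0),(9,1),(9,1)]⟩⟩,.a ⟨true,(-1),⟨0,[(12,0)]⟩,⟨7,[(2,1),(0,3),(6,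
  1),(3,1),(7,0),(0,0),(19,0)]⟩⟩ ⟨true,0,⟨0,[]⟩,⟨0,[(45,0)]⟩⟩ ⟨false,1,⟨0,[(2,0)]⟩,⟨43,[(9,1),(4,1),
  (3,11),(0,19),(10,5),(7,8),(4,0)]⟩⟩,.a ⟨true,(-1),⟨1,[(12,1),(16,0),(0,0)]⟩,⟨0,[(2,0),(36,0)]⟩⟩
  ⟨false,1,⟨1,[(42,0),(0,0)]⟩,⟨1,[(29,0),(0,0)]⟩⟩ ⟨true,1,⟨0,[(3,0)]⟩,⟨4,[(6,1),(5,2),(4,0),(0,0),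
  (9,1),(9,1)]⟩⟩]⟩) (.S ⟨1,0,[0,1,0,-1,0,0,0,-1],[1,0,-1],[0,0,0,-1,0,0,0,-1],(⟨0,[(31,0)]⟩,⟨0,[(32,
  0)]⟩),⟨0,[(20,0)]⟩,.k,.k,⟨true,0,⟨0,[(41,0)]⟩,⟨6,[(14,1),(0,1),(21,0),(1,0)]⟩⟩,⟨false,0,⟨0,[(41,
  0)]⟩,⟨20,[(3,1),(5,4),(0,0),(3,5),(4,2),(6,1),(16,13)]⟩⟩,⟨false,1,⟨1,[(22,0),(0,0),(19,0)]⟩,⟨0,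
  []⟩⟩,⟨true,0,⟨0,[(45,0)]⟩,⟨0,[]⟩⟩,[.a ⟨true,(-1),⟨0,[(0,0),(15,0)]⟩,⟨0,[(10,0),(32,0)]⟩⟩ ⟨false,1,
  ⟨1,[(5,1),(23,0),(0,0)]⟩,⟨5,[(1,5),(15,1),(20,0),(0,3),(2,0)]⟩⟩ ⟨true,0,⟨14,[(4,3),(0,5),(1,2),(9,
  7),(10,5),(0,1),(8,1)]⟩,⟨0,[(1,0)]⟩⟩,.o ⟨false,0,⟨0,[(0,0),(40,0)]⟩,⟨3,[(9,1),(17,1),(10,0),(4,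
  0)]⟩⟩,.o ⟨false,0,⟨1,[(12,0),(13,0),(11,0)]⟩,⟨10,[(2,0),(0,2),(5,0),(4,0),(7,0),(0,0),(5,5),(8,
  4)]⟩⟩,.e ⟨false,1,⟨0,[(0,0),(1,0)]⟩,⟨1,[(1,0),(8,0),(19,0)]⟩⟩ ⟨false,1,⟨1,[(5,1),(23,0),(0,0)]⟩,
  ⟨0,[(1,0)]⟩⟩]⟩)))) (.R ⟨0,false,false,true,[1,-1,-1],[1,-1],[1,0,1],(⟨0,[(17,0)]⟩,⟨0,[(5,0),(26,
  0)]⟩),(⟨0,[(32,0)]⟩,⟨0,[(33,0)]⟩),⟨0,[(5,0)]⟩,.k,.k,(.r (-1) ⟨0,[(2,0),(35,0)]⟩ ⟨3,[(3,0),(3,2),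
  (7,0),(11,2),(12,1)]⟩),.k,.k,.k,⟨true,0,⟨3,[(0,0),(14,0),(10,1),(0,0),(12,1)]⟩,⟨2,[(14,1),(20,0),
  (0,0),(2,0)]⟩⟩,⟨false,1,⟨2,[(2,1),(4,1),(18,0),(13,0)]⟩,⟨1,[(9,0),(13,0),(11,0)]⟩⟩,⟨false,0,⟨0,
  [(3,0),(34,0),(1,0)]⟩,⟨0,[(2,0)]⟩⟩,⟨true,0,⟨0,[(24,0)]⟩,⟨0,[(0,0),(1,0)]⟩⟩,⟨false,0,⟨0,[]⟩,⟨0,
  []⟩⟩,⟨false,0,⟨0,[]⟩,⟨0,[]⟩⟩,[.e ⟨false,0,⟨0,[]⟩,⟨1,[(19,0),(0,0),(18,0)]⟩⟩ ⟨false,1,⟨0,[(2,0),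
  (21,0)]⟩,⟨7,[(0,5),(22,1),(11,0),(0,1),(3,4)]⟩⟩,.o ⟨false,0,⟨0,[(38,0)]⟩,⟨35,[(2,3),(3,11),(4,7),
  (4,5),(2,0),(0,0),(14,14),(4,3)]⟩⟩,.a ⟨true,(-1),⟨0,[(9,0)]⟩,⟨2,[(2,1),(4,1),(18,0),(13,0)]⟩⟩
  ⟨true,0,⟨1,[(26,0),(0,0)]⟩,⟨5,[(14,1),(20,0),(0,3),(2,0)]⟩⟩ ⟨false,1,⟨2,[(2,1),(21,1),(1,0),(11,
  0),(1,0)]⟩,⟨7,[(0,5),(22,1),(11,0),(0,1),(3,4)]⟩⟩,.o ⟨false,(-1),⟨0,[(0,0),(37,0)]⟩,⟨3,[(2,3),(3,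
  1),(17,1),(10,0),(4,0)]⟩⟩]⟩)) (.R ⟨0,false,false,true,[1,-1,-1],[1,-1],[1,0,1],(⟨0,[(16,0)]⟩,⟨0,
  [(4,0),(26,0)]⟩),(⟨0,[(31,0)]⟩,⟨0,[(32,0)]⟩),⟨0,[(4,0)]⟩,.k,.k,(.r (-1) ⟨0,[(1,0),(35,0)]⟩ ⟨3,[(2,
  0),(3,2),(7,0),(11,2),(12,1)]⟩),.k,.k,.k,⟨true,0,⟨3,[(14,1),(10,0),(0,0),(10,1),(1,1)]⟩,⟨2,[(13,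
  1),(20,0),(0,0),(2,0)]⟩⟩,⟨false,1,⟨2,[(1,1),(4,1),(18,0),(13,0)]⟩,⟨4,[(0,0),(7,1),(6,0),(18,1),(0,
  0)]⟩⟩,⟨false,0,⟨0,[(2,0),(34,0),(1,0)]⟩,⟨0,[(1,0)]⟩⟩,⟨true,0,⟨0,[(23,0)]⟩,⟨0,[(0,0),(0,0),(10,0),
  (1,0),(19,0)]⟩⟩,⟨false,0,⟨0,[]⟩,⟨0,[]⟩⟩,⟨false,0,⟨0,[]⟩,⟨0,[]⟩⟩,[.e ⟨false,0,⟨0,[]⟩,⟨1,[(18,0),(0,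
  0),(18,0)]⟩⟩ ⟨false,1,⟨0,[(1,0),(21,0)]⟩,⟨6,[(0,4),(13,3),(0,0),(18,2),(4,0)]⟩⟩,.o ⟨false,0,⟨0,
  [(37,0)]⟩,⟨35,[(1,3),(3,11),(4,7),(4,5),(2,0),(0,0),(14,14),(4,3)]⟩⟩,.a ⟨true,(-1),⟨0,[(8,0)]⟩,⟨2,
  [(1,1),(4,1),(18,0),(13,0)]⟩⟩ ⟨true,0,⟨1,[(25,0),(0,0)]⟩,⟨5,[(13,1),(20,0),(0,3),(2,0)]⟩⟩ ⟨false,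
  1,⟨2,[(1,1),(21,1),(1,0),(11,0),(1,0)]⟩,⟨6,[(0,4),(13,3),(0,0),(18,2),(4,0)]⟩⟩,.o ⟨false,(-1),⟨0,
  [(0,0),(12,0),(0,0),(19,0)]⟩,⟨3,[(1,3),(3,1),(17,1),(10,0),(4,0)]⟩⟩]⟩))

theorem ok6 : chk K t6 l13 = true := by decide +kernel

noncomputable def t7 : Tre :=
  (.Q [0,0,0,0,0,0,-1,-1,0,0,-1] (.p false [0,0,1] [] (⟨0,[(29,0)]⟩,⟨0,[(28,0)]⟩) .k 0 (⟨0,[]⟩,⟨0,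
  []⟩) .k .k) (.Q [0,0,0,1,0,0,-1,-1,0,0,-1] (.p false [0,0,1] [] (⟨0,[(30,0)]⟩,⟨0,[(29,0)]⟩) .k 0
  (⟨0,[]⟩,⟨0,[]⟩) .k .k) (.I [1,1,0,-1,0,0,0,-2] (.Q [0,0,0,2,0,0,-1,-1,0,0,-1] (.p false [0,0,1]
  [] (⟨0,[(32,0)]⟩,⟨0,[(31,0)]⟩) .k 0 (⟨0,[]⟩,⟨0,[]⟩) .k .k) (.I [1,0,-2,-2,1,0,0,-1] (.Q [0,0,0,0,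
  -1,0,-2,0,0,1,-2] (.p false [0,0,1] [1,0,-1] (⟨0,[(34,0)]⟩,⟨0,[(33,0)]⟩) .k 2 (⟨0,[(33,0)]⟩,⟨0,
  [(34,0)]⟩) .k (.r 0 ⟨0,[(7,1),(35,1),(0,1)]⟩ ⟨6,[(0,1),(1,3),(13,3),(7,0),(0,0),(19,3)]⟩)) (.I [0,
  0,-2,0,2,-2,1] (.R ⟨0,false,false,true,[1,-1,-1],[0,-1,1],[0,1],(⟨0,[(24,0)]⟩,⟨0,[(12,0),(26,
  0)]⟩),(⟨0,[(25,0)]⟩,⟨0,[(35,0),(1,0)]⟩),⟨0,[(12,0)]⟩,.k,.k,(.x 1 ⟨1,[(12,1),(3,1),(16,0),(0,0)]⟩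
  ⟨0,[(0,0)]⟩),.k,.k,.k,⟨true,0,⟨0,[(15,0)]⟩,⟨2,[(1,1),(5,1),(1,0),(35,1),(1,0)]⟩⟩,⟨false,2,⟨7,[(2,
  1),(4,7),(0,3),(9,1),(27,2),(0,2)]⟩,⟨0,[(1,0)]⟩⟩,⟨true,(-1),⟨8,[(1,0),(5,0),(1,7),(11,1),(20,0),
  (0,5)]⟩,⟨6,[(2,3),(1,0),(13,0),(7,1),(0,1),(19,0)]⟩⟩,⟨false,1,⟨1,[(7,1),(1,1),(36,0),(0,0)]⟩,⟨0,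
  [(1,0),(0,0),(5,0)]⟩⟩,⟨false,0,⟨0,[]⟩,⟨0,[]⟩⟩,⟨false,0,⟨0,[]⟩,⟨0,[]⟩⟩,[.a ⟨true,0,⟨10,[(7,4),(1,
  1),(11,3),(1,0),(7,3),(2,0),(12,0)]⟩,⟨0,[(3,0),(16,0),(26,0)]⟩⟩ ⟨false,0,⟨9,[(1,0),(0,0),(4,0),
  (13,1),(20,0),(0,6)]⟩,⟨1,[(26,0),(0,0),(19,0)]⟩⟩ ⟨true,1,⟨0,[(7,0)]⟩,⟨0,[(1,0),(9,0)]⟩⟩,.o ⟨false,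
  1,⟨13,[(7,9),(1,3),(13,1),(10,1),(7,2),(2,7),(1,4)]⟩,⟨0,[(5,0)]⟩⟩,.e ⟨true,0,⟨0,[(49,0)]⟩,⟨0,[]⟩⟩
  ⟨true,1,⟨0,[(7,0)]⟩,⟨4,[(1,4),(2,0),(3,1),(9,0)]⟩⟩,.o ⟨false,(-1),⟨1,[(1,0),(7,0),(1,0),(9,0),(20,
  0)]⟩,⟨0,[(0,0),(11,0)]⟩⟩]⟩) (.Q [0,0,-2,0,0,0,-1,0,0,1,-1] (.p false [0,0,1] [1] (⟨0,[(36,0)]⟩,⟨0,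
  [(35,0)]⟩) .k 1 (⟨0,[]⟩,⟨0,[]⟩) .k .k) (.R ⟨0,false,false,false,[0,-1,1],[1,-1,-1],[0,1,-1,-1,0,0,
  0,1],(⟨0,[(26,0)]⟩,⟨0,[(36,0),(1,0)]⟩),(⟨0,[(25,0)]⟩,⟨0,[(13,0),(26,0)]⟩),⟨5,[(1,15),(1,5),(4,7),
  (0,1),(15,19),(10,1),(6,6),(0,15),(3,10)]⟩,.k,.k,(.r (-1) ⟨2,[(2,3),(0,0),(4,3),(39,1)]⟩ ⟨3,[(9,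
  1),(9,1),(14,0),(0,0)]⟩),.k,.k,.k,⟨false,0,⟨5,[(0,3),(1,3),(5,5),(1,3),(9,1),(22,0),(4,0)]⟩,⟨0,
  [(3,0),(5,0)]⟩⟩,⟨true,(-1),⟨0,[(2,0)]⟩,⟨0,[(8,0),(3,0)]⟩⟩,⟨true,0,⟨0,[(50,0)]⟩,⟨0,[]⟩⟩,⟨false,0,
  ⟨3,[(0,0),(1,2),(2,2),(0,0),(2,0),(38,2)]⟩,⟨33,[(0,7),(7,35),(1,25),(3,3),(5,1),(22,0),(4,18)]⟩⟩,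
  ⟨false,0,⟨0,[]⟩,⟨0,[]⟩⟩,⟨false,0,⟨0,[]⟩,⟨0,[]⟩⟩,[.o ⟨false,0,⟨3,[(2,1),(2,1),(37,0),(2,1),(1,0)]⟩,
  ⟨10,[(8,2),(1,0),(3,5),(5,0),(14,0),(7,0),(4,1)]⟩⟩,.a ⟨true,0,⟨4,[(0,0),(1,1),(2,1),(6,0),(9,1),
  (25,3)]⟩,⟨0,[(15,0)]⟩⟩ ⟨false,1,⟨7,[(0,3),(1,4),(5,7),(15,0),(18,0),(4,3)]⟩,⟨0,[(18,0)]⟩⟩ ⟨true,0,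
  ⟨11,[(0,3),(0,5),(0,4),(0,7),(2,3),(18,8),(0,2),(16,2),(4,5)]⟩,⟨29,[(5,3),(2,25),(1,11),(12,15),
  (10,10),(0,2),(7,1)]⟩⟩,.a ⟨true,0,⟨0,[(34,0)]⟩,⟨0,[(31,0)]⟩⟩ ⟨true,0,⟨0,[(2,0),(5,0)]⟩,⟨0,[(18,
  0)]⟩⟩ ⟨false,0,⟨11,[(0,3),(0,5),(0,4),(0,7),(2,3),(18,8),(0,2),(16,2),(4,5)]⟩,⟨5,[(8,3),(5,1),(8,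
  1),(10,2),(0,0),(12,1)]⟩⟩,.a ⟨true,0,⟨1,[(34,2),(0,0)]⟩,⟨0,[(0,0)]⟩⟩ ⟨false,1,⟨7,[(0,3),(1,4),(5,
  7),(15,0),(18,0),(4,3)]⟩,⟨0,[(12,0)]⟩⟩ ⟨true,0,⟨2,[(0,0),(1,1),(0,1),(2,0)]⟩,⟨29,[(5,3),(2,25),(1,
  11),(12,15),(10,10),(0,2),(7,1)]⟩⟩]⟩) (.R ⟨0,false,false,true,[0,-1,1],[1,-1],[0,1],(⟨0,[(26,0)]⟩,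
  ⟨0,[(36,0),(1,0)]⟩),(⟨0,[(40,0)]⟩,⟨0,[(41,0)]⟩),⟨1,[(0,0),(0,4),(1,1),(4,1),(16,5),(10,0),(6,1),
  (0,5),(3,3)]⟩,.k,.k,(.r (-1) ⟨2,[(2,3),(0,0),(4,3),(39,1)]⟩ ⟨3,[(9,1),(9,1),(14,0),(0,0)]⟩),.k,.k,
  .k,⟨true,0,⟨27,[(9,1),(4,3),(4,1),(3,3),(0,3),(9,6),(0,2)]⟩,⟨0,[(46,0)]⟩⟩,⟨false,0,⟨0,[(31,0)]⟩,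
  ⟨19,[(5,1),(2,9),(0,3),(9,1),(23,4),(4,4)]⟩⟩,⟨false,0,⟨0,[(16,0)]⟩,⟨0,[(2,0),(5,0),(39,0)]⟩⟩,
  ⟨true,(-1),⟨3,[(2,0),(1,1),(0,0),(15,2)]⟩,⟨10,[(8,5),(1,1),(3,0),(5,1),(14,1),(7,1),(4,3)]⟩⟩,
  ⟨false,0,⟨0,[]⟩,⟨0,[]⟩⟩,⟨false,0,⟨0,[]⟩,⟨0,[]⟩⟩,[.e ⟨false,0,⟨9,[(2,0),(0,0),(4,0),(13,1),(20,0),
  (0,6)]⟩,⟨1,[(27,0),(0,0),(19,0)]⟩⟩ ⟨false,0,⟨6,[(2,2),(0,0),(4,0),(13,1),(8,2),(10,1),(4,2)]⟩,⟨0,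
  [(0,0),(43,0),(3,0)]⟩⟩,.o ⟨false,0,⟨0,[(46,0)]⟩,⟨23,[(3,1),(10,7),(4,5),(4,3),(18,9),(3,0),(0,
  2)]⟩⟩,.a ⟨true,0,⟨0,[(34,0)]⟩,⟨0,[(31,0)]⟩⟩ ⟨true,0,⟨0,[(50,0)]⟩,⟨0,[]⟩⟩ ⟨false,0,⟨23,[(2,6),(0,
  3),(4,3),(13,5),(1,2),(6,11),(16,4)]⟩,⟨0,[(0,0),(43,0),(3,0)]⟩⟩,.o ⟨false,0,⟨0,[(0,0)]⟩,⟨3,[(2,0),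
  (21,0),(18,0),(3,3)]⟩⟩]⟩))) (.Q [0,0,0,0,0,-2,0,0,0,0,1] (.p true [0,0,1] [] (⟨0,[(35,0)]⟩,⟨0,
  [(34,0)]⟩) .k 0 (⟨0,[]⟩,⟨0,[]⟩) .k .k) (.Q [0,-1,0,-2,1,0,1,1,0,-1,1] (.p true [0,0,1] [1] (⟨0,
  [(36,0)]⟩,⟨0,[(35,0)]⟩) .k 1 (⟨0,[]⟩,⟨0,[]⟩) .k .k) (.S ⟨1,0,[0,0,-1,-2,0,0,0,1],[0,-1,1],[1,1,-1,
  -1,0,0,0,1],(⟨0,[(26,0)]⟩,⟨0,[(36,0),(1,0)]⟩),⟨0,[(1,0)]⟩,.k,(.r (-1) ⟨5,[(0,5),(21,1),(8,5),(11,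
  0),(0,3),(2,0)]⟩ ⟨3,[(9,1),(9,1),(14,0),(0,0)]⟩),⟨false,0,⟨0,[]⟩,⟨1,[(27,0),(0,0),(19,0)]⟩⟩,⟨true,
  0,⟨0,[(46,0)]⟩,⟨6,[(19,1),(0,1),(21,0),(1,0)]⟩⟩,⟨true,0,⟨6,[(19,1),(0,1),(21,0),(1,0)]⟩,⟨0,[(46,
  0)]⟩⟩,⟨false,1,⟨1,[(27,0),(0,0),(19,0)]⟩,⟨0,[]⟩⟩,[.o ⟨false,1,⟨8,[(0,5),(7,3),(13,0),(10,0),(1,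
  3)]⟩,⟨0,[(4,0)]⟩⟩,.o ⟨false,1,⟨0,[(0,0)]⟩,⟨10,[(4,7),(14,1),(0,1),(12,2),(8,1)]⟩⟩,.a ⟨true,0,⟨0,
  [(34,0)]⟩,⟨0,[(31,0)]⟩⟩ ⟨true,0,⟨13,[(0,8),(9,4),(11,7),(8,8),(11,3),(0,14)]⟩,⟨0,[(16,0)]⟩⟩
  ⟨false,1,⟨0,[(0,0),(30,0)]⟩,⟨9,[(5,0),(3,6),(9,0),(24,4)]⟩⟩,.o ⟨false,0,⟨10,[(0,2),(1,3),(2,4),(4,
  8),(1,1),(30,1)]⟩,⟨1,[(31,1),(11,0),(3,0)]⟩⟩]⟩) (.Q [0,0,0,0,0,0,0,0,-1,1,0,-1] (.p false [0,0,0,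
  0,1] [1] (⟨0,[(30,0)]⟩,⟨0,[(29,0)]⟩) .k 1 (⟨0,[]⟩,⟨0,[]⟩) .k .k) (.Q [0,0,1,0,-1,0,-1,0,-1,1,-1,
  -1] (.p false [0,0,1] [1,0,0,0,-1] (⟨0,[(38,0)]⟩,⟨0,[(37,0)]⟩) .k 2 (⟨0,[(30,0)]⟩,⟨0,[(31,0)]⟩)
  .k (.r 0 ⟨13,[(9,3),(1,2),(9,6),(1,2),(1,2),(6,1),(11,1)]⟩ ⟨13,[(4,1),(1,3),(13,3),(7,0),(0,0),
  (19,10)]⟩)) (.I [1,2,-2,-2,0,0,0,-1] (.R ⟨0,false,false,true,[1,-1,-1],[1,0,0,0,-1],[1,0,1],(⟨0,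
  [(28,0)]⟩,⟨0,[(16,0),(26,0)]⟩),(⟨0,[(32,0)]⟩,⟨0,[(33,0)]⟩),⟨0,[(16,0)]⟩,.k,.k,(.r (-1) ⟨0,[(0,0),
  (50,0)]⟩ ⟨3,[(14,0),(3,2),(7,0),(11,2),(12,1)]⟩),(.r (-1) ⟨12,[(6,5),(1,3),(2,4),(10,3),(4,4),(2,
  1),(0,1)]⟩ ⟨1,[(13,1),(36,0),(0,0)]⟩),.k,.k,⟨false,0,⟨0,[]⟩,⟨27,[(6,1),(4,7),(10,5),(4,7),(22,10),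
  (0,6)]⟩⟩,⟨true,1,⟨0,[(1,0),(3,0),(44,0)]⟩,⟨0,[(10,0),(2,0),(17,0),(17,0)]⟩⟩,⟨true,(-1),⟨0,[(13,
  0)]⟩,⟨20,[(6,15),(4,0),(10,5),(4,0),(17,6),(4,3)]⟩⟩,⟨false,1,⟨4,[(1,4),(3,1),(5,2),(1,1),(33,5),
  (3,6)]⟩,⟨0,[(10,0),(20,0),(17,0)]⟩⟩,⟨false,0,⟨0,[]⟩,⟨0,[]⟩⟩,⟨false,0,⟨0,[]⟩,⟨0,[]⟩⟩,[.a ⟨true,0,
  ⟨0,[(2,0)]⟩,⟨0,[(31,0)]⟩⟩ ⟨false,0,⟨0,[]⟩,⟨27,[(6,1),(4,7),(10,5),(4,7),(22,10),(0,6)]⟩⟩ ⟨true,1,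
  ⟨0,[(1,0),(3,0),(44,0)]⟩,⟨0,[(10,0),(2,0),(17,0),(17,0)]⟩⟩,.e ⟨false,1,⟨1,[(30,0),(0,0),(19,0)]⟩,
  ⟨2,[(0,0),(12,0),(33,0),(2,0)]⟩⟩ ⟨false,2,⟨1,[(1,1),(3,1),(44,2),(0,0)]⟩,⟨13,[(0,5),(2,1),(9,7),
  (6,10),(10,13),(2,0),(11,6)]⟩⟩,.e ⟨true,0,⟨1,[(37,0),(0,0)]⟩,⟨2,[(0,0),(12,0),(33,0),(2,0)]⟩⟩
  ⟨true,1,⟨0,[(1,0),(3,0),(44,0)]⟩,⟨13,[(0,5),(2,1),(9,7),(6,10),(10,13),(2,0),(11,6)]⟩⟩,.o ⟨false,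
  (-1),⟨0,[(10,0),(2,0),(35,0)]⟩,⟨0,[(6,0),(10,0)]⟩⟩]⟩) (.Q [0,1,0,0,0,0,0,0,1,-1,0,1] (.p true [0,
  0,0,0,1] [1] (⟨0,[(33,0)]⟩,⟨0,[(32,0)]⟩) .k 1 (⟨0,[]⟩,⟨0,[]⟩) .k .k) (.R ⟨0,false,false,true,[1,
  -1,-1],[1,0,0,0,-1],[1,0,1],(⟨0,[(29,0)]⟩,⟨0,[(17,0),(26,0)]⟩),(⟨0,[(33,0)]⟩,⟨0,[(34,0)]⟩),⟨0,
  [(17,0)]⟩,.k,.k,(.x 1 ⟨1,[(17,1),(3,1),(16,0),(0,0)]⟩ ⟨2,[(5,0),(0,0),(0,0),(10,0),(10,3),(17,0),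
  (3,1)]⟩),(.r (-1) ⟨12,[(7,5),(1,3),(2,4),(10,3),(4,4),(2,1),(0,1)]⟩ ⟨1,[(14,1),(36,0),(0,0)]⟩),.k,
  .k,⟨false,0,⟨0,[]⟩,⟨27,[(7,1),(4,7),(10,5),(4,7),(22,10),(0,6)]⟩⟩,⟨true,1,⟨0,[(2,0),(3,0),(44,
  0)]⟩,⟨0,[(11,0),(2,0),(17,0),(17,0)]⟩⟩,⟨true,(-1),⟨0,[(14,0)]⟩,⟨20,[(7,15),(4,0),(10,5),(4,0),(17,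
  6),(4,3)]⟩⟩,⟨false,1,⟨2,[(1,1),(0,2),(3,1),(5,0),(38,2)]⟩,⟨0,[(11,0),(20,0),(17,0)]⟩⟩,⟨false,0,⟨0,
  []⟩,⟨0,[]⟩⟩,⟨false,0,⟨0,[]⟩,⟨0,[]⟩⟩,[.a ⟨true,0,⟨0,[(3,0)]⟩,⟨0,[(32,0)]⟩⟩ ⟨false,0,⟨0,[]⟩,⟨27,[(7,
  1),(4,7),(10,5),(4,7),(22,10),(0,6)]⟩⟩ ⟨true,1,⟨0,[(2,0),(3,0),(44,0)]⟩,⟨0,[(11,0),(2,0),(17,0),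
  (17,0)]⟩⟩,.o ⟨false,1,⟨1,[(3,1),(43,0),(4,0)]⟩,⟨0,[(0,0)]⟩⟩,.e ⟨true,0,⟨1,[(38,0),(0,0)]⟩,⟨5,[(26,
  1),(20,0),(0,3),(2,0)]⟩⟩ ⟨true,1,⟨0,[(2,0),(3,0),(44,0)]⟩,⟨0,[(0,0),(20,0)]⟩⟩,.o ⟨false,(-1),⟨0,
  [(11,0),(2,0),(35,0)]⟩,⟨0,[(7,0),(10,0)]⟩⟩]⟩) (.R ⟨0,false,false,true,[1,-1,-1],[1,0,0,0,-1],[1,0,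
  1],(⟨0,[(29,0)]⟩,⟨0,[(17,0),(26,0)]⟩),(⟨0,[(33,0)]⟩,⟨0,[(34,0)]⟩),⟨0,[(17,0)]⟩,.k,.k,(.x 1 ⟨1,
  [(17,1),(3,1),(16,0),(0,0)]⟩ ⟨2,[(5,0),(0,0),(0,0),(10,0),(10,3),(17,0),(3,1)]⟩),(.r (-1) ⟨12,[(7,
  5),(1,3),(2,4),(10,3),(4,4),(2,1),(0,1)]⟩ ⟨1,[(14,1),(36,0),(0,0)]⟩),.k,.k,⟨false,0,⟨0,[]⟩,⟨27,
  [(7,1),(4,7),(10,5),(4,7),(22,10),(0,6)]⟩⟩,⟨true,1,⟨51,[(0,39),(5,14),(0,6),(1,1),(2,10),(18,11),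
  (15,6),(0,26)]⟩,⟨0,[(11,0),(2,0),(17,0),(17,0)]⟩⟩,⟨true,(-1),⟨0,[(14,0)]⟩,⟨20,[(7,15),(4,0),(10,
  5),(4,0),(17,6),(4,3)]⟩⟩,⟨false,1,⟨27,[(0,25),(0,3),(10,7),(5,11),(5,3),(6,1),(15,2),(4,2)]⟩,⟨0,
  [(11,0),(20,0),(17,0)]⟩⟩,⟨false,0,⟨0,[]⟩,⟨0,[]⟩⟩,⟨false,0,⟨0,[]⟩,⟨0,[]⟩⟩,[.a ⟨true,0,⟨0,[(3,0)]⟩,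
  ⟨0,[(32,0)]⟩⟩ ⟨false,0,⟨0,[]⟩,⟨27,[(7,1),(4,7),(10,5),(4,7),(22,10),(0,6)]⟩⟩ ⟨true,1,⟨51,[(0,39),
  (5,14),(0,6),(1,1),(2,10),(18,11),(15,6),(0,26)]⟩,⟨0,[(11,0),(2,0),(17,0),(17,0)]⟩⟩,.e ⟨false,1,
  ⟨1,[(31,0),(0,0),(19,0)]⟩,⟨5,[(26,1),(20,0),(0,3),(2,0)]⟩⟩ ⟨false,2,⟨7,[(0,5),(5,3),(24,1),(15,0),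
  (3,7),(0,0)]⟩,⟨4,[(4,1),(9,1),(6,1),(4,2),(5,4),(2,0),(11,3)]⟩⟩,.e ⟨true,0,⟨1,[(38,0),(0,0)]⟩,⟨5,
  [(26,1),(20,0),(0,3),(2,0)]⟩⟩ ⟨true,1,⟨51,[(0,39),(5,14),(0,6),(1,1),(2,10),(18,11),(15,6),(0,
  26)]⟩,⟨4,[(4,1),(9,1),(6,1),(4,2),(5,4),(2,0),(11,3)]⟩⟩,.o ⟨false,(-1),⟨0,[(11,0),(2,0),(35,0)]⟩,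
  ⟨0,[(7,0),(10,0)]⟩⟩]⟩))) (.R ⟨0,false,false,false,[1,-1,-1],[0,0,0,0,1],[1,1,1],(⟨0,[(27,0)]⟩,⟨0,
  [(15,0),(26,0)]⟩),(⟨0,[(32,0)]⟩,⟨0,[(31,0)]⟩),⟨0,[(15,0)]⟩,.k,.k,(.x 1 ⟨1,[(15,1),(3,1),(16,0),(0,
  0)]⟩ ⟨2,[(3,0),(0,0),(0,0),(10,0),(10,3),(17,0),(3,1)]⟩),(.r (-2) ⟨13,[(5,7),(1,1),(13,1),(7,10),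
  (0,10),(19,8)]⟩ ⟨5,[(12,5),(11,1),(20,0),(0,3),(2,0)]⟩),.k,.k,⟨false,0,⟨0,[]⟩,⟨35,[(0,7),(4,5),
  (11,7),(3,1),(4,7),(2,7),(19,8),(0,4)]⟩⟩,⟨true,1,⟨0,[(0,0)]⟩,⟨0,[(1,0),(7,0),(2,0),(35,0)]⟩⟩,
  ⟨false,(-1),⟨0,[(12,0)]⟩,⟨35,[(0,3),(4,29),(11,3),(3,9),(4,3),(2,3),(19,8),(0,24)]⟩⟩,⟨true,0,⟨5,
  [(0,5),(11,5),(11,1),(20,0),(0,3),(2,0)]⟩,⟨0,[(1,0),(7,0),(38,0)]⟩⟩,⟨false,0,⟨0,[]⟩,⟨0,[]⟩⟩,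
  ⟨false,0,⟨0,[]⟩,⟨0,[]⟩⟩,[.o ⟨false,0,⟨5,[(0,0),(1,0),(9,0),(10,3),(6,4),(14,4),(0,0)]⟩,⟨1,[(1,1),
  (43,0),(4,0)]⟩⟩,.a ⟨true,0,⟨0,[(30,0)]⟩,⟨0,[(1,0)]⟩⟩ ⟨false,0,⟨0,[]⟩,⟨35,[(0,7),(4,5),(11,7),(3,
  1),(4,7),(2,7),(19,8),(0,4)]⟩⟩ ⟨true,1,⟨0,[(0,0)]⟩,⟨0,[(1,0),(7,0),(2,0),(35,0)]⟩⟩,.e ⟨false,0,⟨1,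
  [(36,0),(0,0)]⟩,⟨1,[(49,0),(0,0)]⟩⟩ ⟨false,1,⟨0,[(0,0)]⟩,⟨1,[(1,1),(17,1),(25,0),(4,0)]⟩⟩,.o
  ⟨false,(-1),⟨0,[(9,0),(2,0),(35,0)]⟩,⟨0,[(5,0),(10,0)]⟩⟩]⟩)) (.Q [0,0,0,1,-1,0,-1,-1,1,0,-1,1]
  (.p false [0,0,1] [0,0,0,0,1] (⟨0,[(38,0)]⟩,⟨0,[(37,0)]⟩) .k 2 (⟨0,[(31,0)]⟩,⟨0,[(30,0)]⟩) .k (.r
  (-1) ⟨15,[(9,7),(1,5),(9,1),(3,5),(6,3),(11,0),(4,12)]⟩ ⟨4,[(6,1),(13,0),(22,0)]⟩)) (.Q [0,0,0,0,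
  0,0,0,0,0,1,-1,-1] (.ed true [0,0,1,0,1] (.r 0 ⟨13,[(10,3),(1,2),(9,6),(1,2),(1,2),(6,1),(11,1)]⟩
  ⟨13,[(5,1),(1,3),(13,3),(7,0),(0,0),(19,10)]⟩)) (.K ⟨0,[0,0,1,0,1],(-1),(-1),(⟨0,[(33,0),(6,0)]⟩,
  ⟨0,[(0,0)]⟩),.k,(.r 0 ⟨1,[(13,1),(11,1),(20,0),(3,2)]⟩ ⟨13,[(8,1),(6,3),(6,5),(7,4),(0,4),(19,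
  8)]⟩),(.r 1 ⟨5,[(13,5),(11,1),(20,0),(0,3),(2,0)]⟩ ⟨13,[(6,7),(1,1),(13,1),(7,10),(0,10),(19,
  8)]⟩),.k,.k,[⟨0,[(30,0)]⟩,⟨2,[(1,2),(3,1),(5,0),(1,1),(10,1),(0,0),(25,1)]⟩,⟨0,[(10,0),(19,0)]⟩,
  ⟨0,[(2,0),(15,0),(5,0)]⟩]⟩) (.S ⟨1,0,[0,0,1],[1,1,0,0,-1],[0,-1,1],(⟨0,[(32,0),(8,0)]⟩,⟨0,[(0,0),
  (27,0)]⟩),⟨0,[(32,0)]⟩,(.r (-1) ⟨7,[(17,1),(4,1),(4,1),(2,0),(0,0),(5,3),(0,1),(12,4)]⟩ ⟨2,[(25,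
  1),(20,0),(0,0),(2,0)]⟩),.k,⟨true,0,⟨0,[(49,0)]⟩,⟨12,[(3,0),(13,0),(4,2),(0,2),(21,2)]⟩⟩,⟨false,0,
  ⟨0,[(49,0)]⟩,⟨6,[(17,0),(0,0),(3,1),(4,0),(22,0),(0,4)]⟩⟩,⟨false,1,⟨1,[(30,0),(0,0),(19,0)]⟩,⟨0,
  []⟩⟩,⟨true,0,⟨0,[(53,0)]⟩,⟨0,[]⟩⟩,[.o ⟨false,1,⟨0,[(30,0)]⟩,⟨0,[(2,0)]⟩⟩,.e ⟨false,1,⟨0,[(51,0)]⟩,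
  ⟨0,[(45,0)]⟩⟩ ⟨false,1,⟨1,[(30,0),(0,0),(19,0)]⟩,⟨5,[(25,1),(20,0),(0,3),(2,0)]⟩⟩,.a ⟨true,1,⟨0,
  [(24,0),(5,0),(16,0),(3,0)]⟩,⟨3,[(1,1),(0,0),(2,0),(7,1),(11,1),(5,0),(19,0)]⟩⟩ ⟨false,1,⟨1,[(37,
  0),(0,0),(12,1)]⟩,⟨5,[(25,1),(20,0),(0,3),(2,0)]⟩⟩ ⟨true,0,⟨1,[(37,0),(0,0)]⟩,⟨5,[(25,1),(20,0),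
  (0,3),(2,0)]⟩⟩,.o ⟨false,1,⟨0,[(30,0)]⟩,⟨0,[(2,0)]⟩⟩]⟩)) (.Q [0,1,-1,0,0,0,1,0,1,-1,1,1] (.p true
  [0,0,1] [1,0,0,0,-1] (⟨0,[(39,0)]⟩,⟨0,[(38,0)]⟩) .k 2 (⟨0,[(31,0)]⟩,⟨0,[(32,0)]⟩) .k (.r 0 ⟨13,
  [(10,3),(1,2),(9,6),(1,2),(1,2),(6,1),(11,1)]⟩ ⟨33,[(0,0),(4,5),(1,8),(13,10),(8,0),(6,0),(12,
  26)]⟩)) (.R ⟨0,false,false,true,[1,-1,-1],[0,0,0,0,1],[],(⟨0,[(28,0)]⟩,⟨0,[(16,0),(26,0)]⟩),(⟨0,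
  [(33,0)]⟩,⟨0,[(32,0)]⟩),⟨0,[(16,0)]⟩,.k,.k,(.x 1 ⟨1,[(16,1),(3,1),(16,0),(0,0)]⟩ ⟨2,[(4,0),(0,0),
  (0,0),(10,0),(10,3),(17,0),(3,1)]⟩),(.r (-2) ⟨9,[(1,1),(4,7),(15,3),(7,2),(0,4),(6,1),(12,6)]⟩ ⟨5,
  [(13,5),(11,1),(20,0),(0,3),(2,0)]⟩),.k,.k,⟨true,1,⟨0,[(51,0)]⟩,⟨6,[(8,1),(5,3),(9,5),(20,0),(0,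
  2)]⟩⟩,⟨false,1,⟨1,[(0,1),(49,0),(0,0)]⟩,⟨0,[(20,0),(9,0)]⟩⟩,⟨false,0,⟨1,[(13,1),(36,0),(0,0)]⟩,
  ⟨16,[(1,1),(4,11),(1,0),(13,4),(8,1),(6,1),(12,2)]⟩⟩,⟨true,(-1),⟨5,[(0,5),(12,5),(11,1),(20,0),(0,
  3),(2,0)]⟩,⟨3,[(3,0),(6,2),(14,2),(4,3),(20,3)]⟩⟩,⟨false,0,⟨0,[]⟩,⟨0,[]⟩⟩,⟨false,0,⟨0,[]⟩,⟨0,[]⟩⟩,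
  [.o ⟨false,(-1),⟨4,[(0,1),(1,2),(0,1),(9,1),(11,3),(20,2),(0,1)]⟩,⟨0,[(30,0),(20,0)]⟩⟩,.a ⟨true,
  (-1),⟨0,[(0,0),(19,0)]⟩,⟨2,[(1,1),(1,1),(21,0),(4,0),(20,2)]⟩⟩ ⟨false,1,⟨1,[(50,0),(0,0)]⟩,⟨0,
  [(53,0)]⟩⟩ ⟨true,0,⟨0,[(0,0)]⟩,⟨3,[(3,0),(6,2),(2,3),(11,2),(4,3),(20,3)]⟩⟩,.e ⟨false,1,⟨1,[(30,
  0),(0,0),(19,0)]⟩,⟨0,[]⟩⟩ ⟨false,0,⟨0,[(0,0)]⟩,⟨0,[(20,0),(9,0),(20,0)]⟩⟩,.o ⟨false,(-1),⟨0,[(10,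
  0),(2,0),(35,0)]⟩,⟨0,[(6,0),(10,0)]⟩⟩]⟩) (.Q [0,0,-1,0,1,0,0,0,-1,0,0,-1] (.p false [0,0,0,0,1]
  [] (⟨0,[(33,0)]⟩,⟨0,[(32,0)]⟩) .k 0 (⟨0,[]⟩,⟨0,[]⟩) .k .k) (.Q [0,0,0,0,0,0,0,0,0,-1,1,1] (.ed
  false [0,0,1,0,1] (.r 0 ⟨13,[(12,3),(1,2),(9,6),(1,2),(1,2),(6,1),(11,1)]⟩ ⟨33,[(2,0),(4,5),(1,8),
  (13,10),(8,0),(6,0),(12,26)]⟩)) (.K ⟨0,[2,0,-1,0,-1],(-1),0,(⟨0,[(34,0),(6,0)]⟩,⟨0,[(0,0)]⟩),.k,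
  (.r (-2) ⟨9,[(3,1),(4,7),(15,3),(7,2),(0,4),(6,1),(12,6)]⟩ ⟨5,[(15,5),(11,1),(20,0),(0,3),(2,
  0)]⟩),(.r (-1) ⟨33,[(3,4),(6,6),(6,3),(6,20),(8,4),(6,4),(12,28)]⟩ ⟨1,[(15,1),(11,1),(20,0),(3,
  2)]⟩),.k,.k,[⟨0,[(4,0),(2,0)]⟩,⟨2,[(1,0),(0,1),(2,0),(9,0),(10,2),(26,0)]⟩,⟨3,[(4,3),(8,1),(1,0),
  (0,0),(9,1),(20,0),(0,1),(0,0)]⟩,⟨5,[(2,3),(0,1),(1,3),(2,1),(1,0),(15,0),(16,2),(1,2),(7,0)]⟩]⟩)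
  (.Q [0,0,0,0,0,1,0,0,0,0,0,-1] (.ed true [1,-1,0,0,1] .k) (.R ⟨0,false,false,false,[0,0,0,0,1],[0,
  1],[1,0,2,1],(⟨0,[(36,0)]⟩,⟨0,[(35,0)]⟩),(⟨0,[(47,0)]⟩,⟨0,[(46,0)]⟩),⟨0,[(0,0)]⟩,.k,.k,(.r 0 ⟨2,
  [(28,1),(20,0),(0,0),(2,0)]⟩ ⟨24,[(4,8),(10,6),(4,3),(4,5),(4,3),(3,8),(6,4),(12,11)]⟩),(.r 0 ⟨2,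
  [(28,1),(20,0),(0,0),(2,0)]⟩ ⟨24,[(4,8),(10,6),(4,3),(4,5),(4,3),(3,8),(6,4),(12,11)]⟩),.k,.k,
  ⟨false,0,⟨0,[]⟩,⟨43,[(4,7),(4,9),(10,7),(4,5),(4,7),(3,7),(18,14),(0,2)]⟩⟩,⟨true,1,⟨0,[(2,0)]⟩,⟨1,
  [(5,0),(10,0),(1,0),(9,0),(5,0)]⟩⟩,⟨true,0,⟨6,[(4,0),(11,1),(1,2),(10,0),(4,0),(6,0),(12,1)]⟩,⟨1,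
  [(28,1),(20,0),(0,1),(2,0)]⟩⟩,⟨false,2,⟨11,[(2,2),(0,0),(2,1),(8,0),(4,2),(12,7),(20,11)]⟩,⟨0,[(5,
  0),(21,0)]⟩⟩,⟨false,0,⟨0,[]⟩,⟨0,[]⟩⟩,⟨false,0,⟨0,[]⟩,⟨0,[]⟩⟩,[.o ⟨false,1,⟨23,[(9,1),(10,7),(4,5),
  (4,3),(18,9),(3,0),(0,2)]⟩,⟨0,[(52,0)]⟩⟩,.a ⟨true,1,⟨6,[(20,0),(0,0),(3,1),(4,0),(22,0),(0,4)]⟩,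
  ⟨0,[(27,0)]⟩⟩ ⟨true,0,⟨6,[(4,0),(11,1),(1,2),(10,0),(4,0),(6,0),(12,1)]⟩,⟨2,[(28,1),(20,0),(0,0),
  (2,0)]⟩⟩ ⟨false,2,⟨7,[(2,5),(17,1),(4,1),(7,1),(3,1),(15,0),(0,4)]⟩,⟨0,[(5,0),(21,0)]⟩⟩,.o ⟨false,
  0,⟨0,[(5,0)]⟩,⟨0,[(33,0)]⟩⟩,.o ⟨false,0,⟨1,[(5,1),(34,0),(0,0)]⟩,⟨0,[(2,0)]⟩⟩]⟩) (.R ⟨1,false,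
  false,false,[0,0,0,0,1],[1,0,-1,0,1],[0,1,0,-1],(⟨0,[(36,0)]⟩,⟨0,[(35,0)]⟩),(⟨0,[(36,0),(5,0)]⟩,
  ⟨0,[(1,0),(5,0),(11,0)]⟩),⟨0,[(0,0)]⟩,.k,.k,(.r 0 ⟨2,[(28,1),(20,0),(0,0),(2,0)]⟩ ⟨24,[(4,8),(10,
  6),(4,3),(4,5),(4,3),(3,8),(6,4),(12,11)]⟩),.k,.k,.k,⟨true,0,⟨0,[(16,0),(35,1),(0,0)]⟩,⟨0,[(24,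
  0)]⟩⟩,⟨false,0,⟨0,[(37,0)]⟩,⟨41,[(8,15),(0,1),(4,7),(10,5),(15,5),(7,8),(4,6)]⟩⟩,⟨true,0,⟨0,[(52,
  0)]⟩,⟨12,[(6,0),(13,0),(4,2),(0,2),(21,2)]⟩⟩,⟨false,0,⟨1,[(6,0),(6,0),(14,0),(25,1)]⟩,⟨10,[(14,5),
  (1,1),(3,0),(5,1),(14,1),(7,1),(4,3)]⟩⟩,⟨false,1,⟨1,[(33,0),(0,0),(19,0)]⟩,⟨0,[]⟩⟩,⟨false,0,⟨3,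
  [(6,2),(6,0),(14,0),(25,3)]⟩,⟨0,[(4,0),(0,0)]⟩⟩,[.o ⟨false,(-1),⟨1,[(5,1),(0,0),(6,0),(14,0)]⟩,
  ⟨21,[(2,6),(1,14),(3,0),(7,1),(3,4),(8,0),(19,7),(4,10)]⟩⟩,.a ⟨true,(-1),⟨0,[(5,0),(0,0),(21,0),
  (25,0)]⟩,⟨7,[(2,2),(0,0),(0,3),(3,0),(7,0),(4,2),(32,0)]⟩⟩ ⟨true,0,⟨0,[(52,0)]⟩,⟨48,[(4,6),(10,4),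
  (4,2),(4,4),(3,9),(0,2),(3,6),(6,3)]⟩⟩ ⟨false,0,⟨3,[(6,1),(2,1),(13,0),(13,0),(16,0)]⟩,⟨10,[(14,
  5),(1,1),(3,0),(5,1),(14,1),(7,1),(4,3)]⟩⟩,.o ⟨false,0,⟨0,[(5,0)]⟩,⟨0,[(33,0)]⟩⟩,.o ⟨false,0,⟨1,
  [(5,1),(34,0),(0,0)]⟩,⟨0,[(2,0)]⟩⟩]⟩))) (.K ⟨0,[0,0,0,0,1],(-1),(-1),(⟨0,[(34,0)]⟩,⟨0,[(33,0)]⟩),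
  .k,(.r 0 ⟨2,[(26,1),(20,0),(0,0),(2,0)]⟩ ⟨24,[(2,8),(10,6),(4,3),(4,5),(4,3),(3,8),(6,4),(12,
  11)]⟩),(.r 0 ⟨1,[(23,0),(12,0),(2,0)]⟩ ⟨1,[(50,1),(0,0),(0,0)]⟩),.k,.k,[⟨7,[(1,6),(0,0),(3,6),(0,
  0),(17,1),(21,0),(0,4)]⟩,⟨0,[(0,0)]⟩,⟨0,[(31,0)]⟩,⟨0,[(0,0),(45,0)]⟩]⟩)))))) (.R ⟨0,false,false,
  false,[0,-1,1],[1,-1],[],(⟨0,[(25,0)]⟩,⟨0,[(0,0),(38,0)]⟩),(⟨0,[(39,0)]⟩,⟨0,[(40,0)]⟩),⟨0,[(0,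
  0)]⟩,.k,.k,(.r (-1) ⟨0,[(9,0),(35,2),(0,1)]⟩ ⟨3,[(8,1),(9,1),(14,0),(0,0)]⟩),.k,.k,.k,⟨true,0,⟨27,
  [(8,1),(4,3),(4,1),(3,3),(0,3),(9,6),(0,2)]⟩,⟨0,[(45,0)]⟩⟩,⟨false,0,⟨0,[(30,0)]⟩,⟨41,[(1,15),(0,
  1),(4,7),(10,5),(15,5),(7,8),(4,6)]⟩⟩,⟨true,0,⟨0,[(15,0)]⟩,⟨1,[(9,1),(11,1),(20,0),(3,2)]⟩⟩,
  ⟨false,0,⟨0,[(5,0),(14,0),(26,0)]⟩,⟨10,[(7,5),(1,1),(3,0),(5,1),(14,1),(7,1),(4,3)]⟩⟩,⟨false,0,⟨0,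
  []⟩,⟨0,[]⟩⟩,⟨false,0,⟨0,[]⟩,⟨0,[]⟩⟩,[.o ⟨false,0,⟨0,[(45,0)]⟩,⟨23,[(2,1),(10,7),(4,5),(4,3),(18,
  9),(3,0),(0,2)]⟩⟩,.e ⟨false,1,⟨1,[(46,0),(0,0)]⟩,⟨0,[(49,0)]⟩⟩ ⟨false,1,⟨1,[(30,1),(14,1),(0,0),
  (0,0)]⟩,⟨7,[(1,2),(2,2),(2,0),(1,4),(12,0),(19,1),(0,3)]⟩⟩,.a ⟨true,0,⟨0,[(33,0)]⟩,⟨0,[(30,0)]⟩⟩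
  ⟨false,1,⟨1,[(26,0),(0,0),(19,0)]⟩,⟨0,[]⟩⟩ ⟨true,0,⟨0,[(30,0),(14,0)]⟩,⟨7,[(1,2),(2,2),(2,0),(1,
  4),(12,0),(19,1),(0,3)]⟩⟩,.o ⟨false,0,⟨1,[(1,0),(7,0),(1,0),(9,0),(20,0)]⟩,⟨1,[(30,1),(11,0),(3,
  0)]⟩⟩]⟩))) (.Q [0,0,0,0,-1,0,-2,0,0,1,-2] (.p false [0,0,1] [1,0,-1] (⟨0,[(34,0)]⟩,⟨0,[(33,0)]⟩)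
  .k 2 (⟨0,[(33,0)]⟩,⟨0,[(34,0)]⟩) .k (.r 0 ⟨0,[(7,1),(35,1),(0,1)]⟩ ⟨16,[(2,13),(2,1),(10,7),(4,1),
  (22,2),(0,11)]⟩)) (.R ⟨0,false,false,true,[1,-1,-1],[0,-1,1],[0,1],(⟨0,[(23,0)]⟩,⟨0,[(11,0),(26,
  0)]⟩),(⟨0,[(24,0)]⟩,⟨0,[(34,0),(1,0)]⟩),⟨0,[(11,0)]⟩,.k,.k,(.r (-2) ⟨9,[(3,7),(2,5),(15,5),(21,5),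
  (0,6),(0,6)]⟩ ⟨0,[(1,0)]⟩),.k,.k,.k,⟨true,0,⟨0,[(14,0)]⟩,⟨2,[(0,1),(5,1),(1,0),(35,1),(1,0)]⟩⟩,
  ⟨false,2,⟨9,[(3,1),(2,9),(0,3),(9,1),(27,4),(0,4)]⟩,⟨0,[(0,0)]⟩⟩,⟨true,(-1),⟨8,[(0,0),(5,0),(1,7),
  (11,1),(20,0),(0,5)]⟩,⟨4,[(3,2),(2,0),(15,0),(21,0),(0,1),(0,1)]⟩⟩,⟨false,1,⟨1,[(6,1),(1,1),(36,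
  0),(0,0)]⟩,⟨3,[(0,2),(1,1),(0,2),(15,0),(26,3)]⟩⟩,⟨false,0,⟨0,[]⟩,⟨0,[]⟩⟩,⟨false,0,⟨0,[]⟩,⟨0,[]⟩⟩,
  [.a ⟨true,0,⟨10,[(6,4),(1,1),(11,3),(1,0),(7,3),(2,0),(12,0)]⟩,⟨0,[(2,0),(16,0),(26,0)]⟩⟩ ⟨false,
  0,⟨5,[(20,1),(20,0),(0,3),(2,0)]⟩,⟨1,[(25,0),(0,0),(19,0)]⟩⟩ ⟨true,1,⟨0,[(6,0)]⟩,⟨0,[(0,0),(9,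
  0)]⟩⟩,.o ⟨false,1,⟨13,[(6,9),(1,3),(13,1),(10,1),(7,2),(2,7),(1,4)]⟩,⟨0,[(4,0)]⟩⟩,.e ⟨true,0,⟨0,
  [(48,0)]⟩,⟨0,[]⟩⟩ ⟨true,1,⟨0,[(6,0)]⟩,⟨4,[(0,4),(2,0),(3,1),(9,0)]⟩⟩,.o ⟨false,(-1),⟨1,[(0,0),(7,
  0),(1,0),(9,0),(20,0)]⟩,⟨5,[(3,1),(2,1),(5,1),(28,0),(3,4),(0,1)]⟩⟩]⟩) (.Q [0,0,0,0,0,-2,0,0,0,0,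
  1] (.p true [0,0,1] [] (⟨0,[(35,0)]⟩,⟨0,[(34,0)]⟩) .k 0 (⟨0,[]⟩,⟨0,[]⟩) .k .k) (.Q [0,-1,0,-2,1,0,
  1,1,0,-1,1] (.p true [0,0,1] [1] (⟨0,[(36,0)]⟩,⟨0,[(35,0)]⟩) .k 1 (⟨0,[]⟩,⟨0,[]⟩) .k .k) (.S ⟨1,0,
  [0,0,-1,-2,0,0,0,1],[0,-1,1],[1,1,-1,-1,0,0,0,1],(⟨0,[(26,0)]⟩,⟨0,[(36,0),(1,0)]⟩),⟨0,[(1,0)]⟩,.k,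
  (.r (-1) ⟨5,[(0,5),(21,1),(8,5),(11,0),(0,3),(2,0)]⟩ ⟨3,[(9,1),(9,1),(14,0),(0,0)]⟩),⟨false,0,⟨0,
  []⟩,⟨1,[(27,0),(0,0),(19,0)]⟩⟩,⟨true,0,⟨0,[(46,0)]⟩,⟨6,[(19,1),(0,1),(21,0),(1,0)]⟩⟩,⟨true,0,⟨6,
  [(19,1),(0,1),(21,0),(1,0)]⟩,⟨0,[(46,0)]⟩⟩,⟨false,1,⟨1,[(27,0),(0,0),(19,0)]⟩,⟨0,[]⟩⟩,[.o ⟨false,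
  1,⟨8,[(0,5),(7,3),(13,0),(10,0),(1,3)]⟩,⟨0,[(4,0)]⟩⟩,.o ⟨false,1,⟨0,[(0,0)]⟩,⟨10,[(4,7),(14,1),(0,
  1),(12,2),(8,1)]⟩⟩,.a ⟨true,0,⟨0,[(34,0)]⟩,⟨0,[(31,0)]⟩⟩ ⟨true,0,⟨13,[(0,8),(9,4),(11,7),(8,8),
  (11,3),(0,14)]⟩,⟨0,[(16,0)]⟩⟩ ⟨false,1,⟨0,[(0,0),(30,0)]⟩,⟨9,[(5,0),(3,6),(9,0),(24,4)]⟩⟩,.o
  ⟨false,0,⟨10,[(0,2),(1,3),(2,4),(4,8),(1,1),(30,1)]⟩,⟨1,[(31,1),(11,0),(3,0)]⟩⟩]⟩) (.Q [0,0,-1,0,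
  0,0,-1,0,-1,1,-1,-1] (.p false [0,0,1] [1,0,0,0,-1] (⟨0,[(37,0)]⟩,⟨0,[(36,0)]⟩) .k 2 (⟨0,[(29,
  0)]⟩,⟨0,[(30,0)]⟩) .k (.r 0 ⟨13,[(8,3),(1,2),(9,6),(1,2),(1,2),(6,1),(11,1)]⟩ ⟨33,[(5,13),(2,1),
  (10,7),(4,1),(22,2),(0,28)]⟩)) (.Q [0,1,0,0,0,0,0,0,1,-1,0,1] (.p true [0,0,0,0,1] [1] (⟨0,[(31,
  0)]⟩,⟨0,[(30,0)]⟩) .k 1 (⟨0,[]⟩,⟨0,[]⟩) .k .k) (.R ⟨0,false,false,true,[1,-1,-1],[1,0,0,0,-1],[1,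
  0,1],(⟨0,[(27,0)]⟩,⟨0,[(15,0),(26,0)]⟩),(⟨0,[(31,0)]⟩,⟨0,[(32,0)]⟩),⟨0,[(15,0)]⟩,.k,.k,(.r (-2)
  ⟨9,[(7,7),(2,5),(15,5),(21,5),(0,6),(0,6)]⟩ ⟨0,[(5,0)]⟩),(.r (-1) ⟨16,[(7,11),(2,8),(10,1),(4,8),
  (22,4),(0,2)]⟩ ⟨1,[(12,1),(36,0),(0,0)]⟩),.k,.k,⟨false,0,⟨0,[]⟩,⟨33,[(7,1),(2,9),(10,5),(4,9),(22,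
  14),(0,8)]⟩⟩,⟨true,1,⟨0,[(1,0),(2,0)]⟩,⟨0,[(9,0),(2,0),(17,0),(17,0)]⟩⟩,⟨true,(-1),⟨0,[(12,0)]⟩,
  ⟨29,[(7,15),(2,5),(13,3),(1,3),(8,3),(9,0),(3,26)]⟩⟩,⟨false,1,⟨2,[(1,2),(2,1),(0,1),(4,0),(39,
  1)]⟩,⟨0,[(9,0),(20,0),(17,0)]⟩⟩,⟨false,0,⟨0,[]⟩,⟨0,[]⟩⟩,⟨false,0,⟨0,[]⟩,⟨0,[]⟩⟩,[.a ⟨true,0,⟨0,
  [(1,0),(34,0)]⟩,⟨0,[(30,0)]⟩⟩ ⟨false,0,⟨0,[]⟩,⟨33,[(7,1),(2,9),(10,5),(4,9),(22,14),(0,8)]⟩⟩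
  ⟨true,1,⟨0,[(1,0),(2,0)]⟩,⟨0,[(9,0),(2,0),(17,0),(17,0)]⟩⟩,.o ⟨false,1,⟨4,[(1,3),(2,1),(7,0),(1,
  0),(14,0),(15,0),(2,1),(1,1)]⟩,⟨0,[(0,0)]⟩⟩,.e ⟨true,0,⟨1,[(36,0),(0,0)]⟩,⟨5,[(24,1),(20,0),(0,3),
  (2,0)]⟩⟩ ⟨true,1,⟨0,[(1,0),(2,0)]⟩,⟨0,[(0,0),(18,0)]⟩⟩,.o ⟨false,(-1),⟨0,[(9,0),(2,0),(35,0)]⟩,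
  ⟨27,[(4,3),(2,1),(2,9),(10,5),(23,6),(3,25),(0,8)]⟩⟩]⟩) (.R ⟨0,false,false,true,[1,-1,-1],[1,0,0,
  0,-1],[1,0,1],(⟨0,[(27,0)]⟩,⟨0,[(15,0),(26,0)]⟩),(⟨0,[(31,0)]⟩,⟨0,[(32,0)]⟩),⟨0,[(15,0)]⟩,.k,.k,
  (.r (-2) ⟨9,[(7,7),(2,5),(15,5),(21,5),(0,6),(0,6)]⟩ ⟨0,[(5,0)]⟩),(.r (-1) ⟨16,[(7,11),(2,8),(10,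
  1),(4,8),(22,4),(0,2)]⟩ ⟨1,[(12,1),(36,0),(0,0)]⟩),.k,.k,⟨false,0,⟨0,[]⟩,⟨33,[(7,1),(2,9),(10,5),
  (4,9),(22,14),(0,8)]⟩⟩,⟨true,1,⟨0,[(1,0),(2,0)]⟩,⟨0,[(9,0),(2,0),(17,0),(17,0)]⟩⟩,⟨true,(-1),⟨0,
  [(12,0)]⟩,⟨29,[(7,15),(2,5),(13,3),(1,3),(8,3),(9,0),(3,26)]⟩⟩,⟨false,1,⟨21,[(0,17),(0,1),(8,5),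
  (1,3),(3,11),(12,1),(15,0),(4,4)]⟩,⟨0,[(9,0),(20,0),(17,0)]⟩⟩,⟨false,0,⟨0,[]⟩,⟨0,[]⟩⟩,⟨false,0,⟨0,
  []⟩,⟨0,[]⟩⟩,[.a ⟨true,0,⟨8,[(0,4),(1,0),(14,0),(5,2),(5,3)]⟩,⟨0,[(30,0)]⟩⟩ ⟨false,0,⟨0,[]⟩,⟨33,
  [(7,1),(2,9),(10,5),(4,9),(22,14),(0,8)]⟩⟩ ⟨true,1,⟨0,[(1,0),(2,0)]⟩,⟨0,[(9,0),(2,0),(17,0),(17,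
  0)]⟩⟩,.e ⟨false,1,⟨1,[(29,0),(0,0),(19,0)]⟩,⟨5,[(24,1),(20,0),(0,3),(2,0)]⟩⟩ ⟨false,2,⟨7,[(0,5),
  (3,3),(24,1),(15,0),(3,7),(0,0)]⟩,⟨4,[(2,1),(9,1),(6,1),(4,2),(5,4),(2,0),(11,3)]⟩⟩,.e ⟨true,0,⟨1,
  [(36,0),(0,0)]⟩,⟨5,[(24,1),(20,0),(0,3),(2,0)]⟩⟩ ⟨true,1,⟨0,[(1,0),(2,0)]⟩,⟨4,[(2,1),(9,1),(6,1),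
  (4,2),(5,4),(2,0),(11,3)]⟩⟩,.o ⟨false,(-1),⟨0,[(9,0),(2,0),(35,0)]⟩,⟨27,[(4,3),(2,1),(2,9),(10,5),
  (23,6),(3,25),(0,8)]⟩⟩]⟩)) (.Q [0,0,0,0,0,0,0,0,1,-1,0,1] (.p true [0,0,0,0,1] [1] (⟨0,[(31,0)]⟩,
  ⟨0,[(30,0)]⟩) .k 1 (⟨0,[]⟩,⟨0,[]⟩) .k .k) (.Q [0,0,0,-1,-1,0,0,0,1,0,0,1] (.p true [0,0,0,0,1] []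
  (⟨0,[(32,0)]⟩,⟨0,[(31,0)]⟩) .k 0 (⟨0,[]⟩,⟨0,[]⟩) .k .k) (.R ⟨2,true,false,false,[0,1],[0,0,0,0,1],
  [1,0,1,1],(⟨0,[]⟩,⟨0,[]⟩),(⟨0,[(33,0)]⟩,⟨0,[(32,0)]⟩),⟨0,[]⟩,.k,.k,.k,(.r (-1) ⟨7,[(17,1),(4,1),
  (4,1),(2,0),(0,0),(5,3),(0,1),(12,4)]⟩ ⟨2,[(25,1),(20,0),(0,0),(2,0)]⟩),.k,.k,⟨false,1,⟨6,[(17,0),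
  (0,0),(3,1),(4,0),(22,0),(0,4)]⟩,⟨2,[(25,1),(20,0),(0,0),(2,0)]⟩⟩,⟨true,(-1),⟨4,[(0,2),(1,0),(17,
  0),(5,0),(4,0)]⟩,⟨0,[(30,0)]⟩⟩,⟨true,0,⟨0,[]⟩,⟨0,[(53,0)]⟩⟩,⟨false,(-1),⟨0,[(0,0)]⟩,⟨6,[(17,0),(0,
  0),(3,1),(4,0),(2,6),(19,0),(0,4)]⟩⟩,⟨false,1,⟨6,[(17,0),(0,0),(3,1),(4,0),(22,0),(0,4)]⟩,⟨0,[(49,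
  0)]⟩⟩,⟨true,(-1),⟨9,[(0,6),(0,0),(0,0),(0,1),(10,0),(3,0),(12,0),(13,2)]⟩,⟨0,[(30,0)]⟩⟩,[]⟩) (.Q
  [0,1,-1,0,0,0,1,0,1,-1,1,1] (.p true [0,0,1] [1,0,0,0,-1] (⟨0,[(40,0)]⟩,⟨0,[(39,0)]⟩) .k 2 (⟨0,
  [(32,0)]⟩,⟨0,[(33,0)]⟩) .k (.r 0 ⟨13,[(11,3),(1,2),(9,6),(1,2),(1,2),(6,1),(11,1)]⟩ ⟨33,[(8,13),
  (2,1),(10,7),(4,1),(22,2),(0,28)]⟩)) (.R ⟨0,false,false,true,[1,-1,-1],[0,0,0,0,1],[],(⟨0,[(29,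
  0)]⟩,⟨0,[(17,0),(26,0)]⟩),(⟨0,[(34,0)]⟩,⟨0,[(33,0)]⟩),⟨0,[(17,0)]⟩,.k,.k,(.r (-2) ⟨9,[(9,7),(2,5),
  (15,5),(21,5),(0,6),(0,6)]⟩ ⟨0,[(7,0)]⟩),(.r (-2) ⟨16,[(9,11),(2,8),(10,1),(4,8),(22,4),(0,19)]⟩
  ⟨5,[(14,5),(11,1),(20,0),(0,3),(2,0)]⟩),.k,.k,⟨true,1,⟨0,[(52,0)]⟩,⟨6,[(9,1),(5,3),(9,5),(20,0),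
  (0,2)]⟩⟩,⟨false,1,⟨1,[(0,1),(50,0),(0,0)]⟩,⟨0,[(21,0),(9,0)]⟩⟩,⟨false,0,⟨1,[(14,1),(36,0),(0,0)]⟩,
  ⟨4,[(9,2),(2,0),(15,0),(21,0),(0,1),(0,1)]⟩⟩,⟨true,(-1),⟨5,[(0,5),(13,5),(11,1),(20,0),(0,3),(2,
  0)]⟩,⟨3,[(4,0),(6,2),(14,2),(4,3),(20,3)]⟩⟩,⟨false,0,⟨0,[]⟩,⟨0,[]⟩⟩,⟨false,0,⟨0,[]⟩,⟨0,[]⟩⟩,[.o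
  ⟨false,(-1),⟨4,[(0,1),(1,2),(1,1),(9,1),(11,3),(20,2),(0,1)]⟩,⟨0,[(31,0),(20,0)]⟩⟩,.a ⟨true,(-1),
  ⟨0,[(0,0),(20,0)]⟩,⟨0,[(1,0),(23,0),(26,0)]⟩⟩ ⟨false,1,⟨1,[(51,0),(0,0)]⟩,⟨0,[(54,0)]⟩⟩ ⟨true,0,
  ⟨0,[(0,0)]⟩,⟨3,[(4,0),(6,2),(2,3),(11,2),(4,3),(20,3)]⟩⟩,.e ⟨false,1,⟨1,[(31,0),(0,0),(19,0)]⟩,⟨0,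
  []⟩⟩ ⟨false,0,⟨0,[(0,0)]⟩,⟨0,[(21,0),(9,0),(20,0)]⟩⟩,.o ⟨false,(-1),⟨0,[(11,0),(2,0),(35,0)]⟩,⟨27,
  [(6,3),(2,1),(2,9),(10,5),(23,6),(3,25),(0,8)]⟩⟩]⟩) (.Q [0,0,1,0,-1,0,0,0,1,0,0,1] (.p true [0,0,
  0,0,1] [] (⟨0,[(34,0)]⟩,⟨0,[(33,0)]⟩) .k 0 (⟨0,[]⟩,⟨0,[]⟩) .k .k) (.K ⟨0,[0,0,0,0,1],(-1),(-1),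
  (⟨0,[(35,0)]⟩,⟨0,[(34,0)]⟩),.k,(.r 0 ⟨2,[(27,1),(20,0),(0,0),(2,0)]⟩ ⟨7,[(19,1),(4,1),(4,1),(2,0),
  (0,0),(5,3),(0,1),(12,4)]⟩),(.r 0 ⟨1,[(24,0),(12,0),(2,0)]⟩ ⟨1,[(51,1),(0,0),(0,0)]⟩),.k,.k,[⟨5,
  [(1,5),(5,5),(19,1),(20,0),(0,3),(2,0)]⟩,⟨0,[(0,0)]⟩,⟨0,[(32,0)]⟩,⟨0,[(0,0),(46,0)]⟩]⟩) (.Q [0,0,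
  0,0,0,-1,0,0,0,0,0,1] (.ed false [1,-1,0,0,1] .k) (.Q [0,2,0,-1,-1,0,0,0,1,-1,0,1] (.p true [0,0,
  0,0,1] [1] (⟨0,[(36,0)]⟩,⟨0,[(35,0)]⟩) .k 1 (⟨0,[]⟩,⟨0,[]⟩) .k .k) (.S ⟨1,0,[0,2,0,-1],[0,0,0,0,
  1],[1,1],(⟨0,[(37,0)]⟩,⟨0,[(36,0)]⟩),⟨0,[(1,0)]⟩,.k,(.r 0 ⟨2,[(0,0),(1,0),(26,0),(24,0)]⟩ ⟨7,[(21,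
  1),(4,1),(4,1),(2,0),(0,0),(5,3),(0,1),(12,4)]⟩),⟨true,0,⟨0,[]⟩,⟨0,[(57,0)]⟩⟩,⟨false,0,⟨0,[(53,
  0)]⟩,⟨6,[(21,0),(0,0),(3,1),(4,0),(22,0),(0,4)]⟩⟩,⟨false,1,⟨6,[(21,0),(0,0),(3,1),(4,0),(22,0),(0,
  4)]⟩,⟨0,[(53,0)]⟩⟩,⟨true,0,⟨0,[(57,0)]⟩,⟨0,[]⟩⟩,[.o ⟨false,(-1),⟨0,[(0,0)]⟩,⟨0,[(4,0),(50,0)]⟩⟩,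
  .a ⟨true,(-1),⟨0,[(5,0),(22,0)]⟩,⟨2,[(2,1),(0,0),(3,0),(14,0),(18,0),(3,0),(1,0),(7,1)]⟩⟩ ⟨true,0,
  ⟨0,[]⟩,⟨1,[(41,0),(0,0)]⟩⟩ ⟨false,0,⟨2,[(0,0),(1,0),(26,0),(24,0)]⟩,⟨6,[(21,0),(0,0),(3,1),(4,0),
  (22,0),(0,4)]⟩⟩,.o ⟨false,0,⟨0,[(5,0)]⟩,⟨0,[(34,0)]⟩⟩,.o ⟨false,0,⟨1,[(5,0),(0,0),(35,0)]⟩,⟨0,[(2,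
  0)]⟩⟩]⟩) (.R ⟨2,true,false,false,[0,1],[0,0,0,0,1],[0,1,1],(⟨0,[]⟩,⟨0,[]⟩),(⟨0,[(37,0)]⟩,⟨0,[(36,
  0)]⟩),⟨0,[]⟩,.k,.k,.k,(.r (-1) ⟨27,[(0,10),(14,6),(3,5),(1,3),(4,4),(8,10),(6,17),(12,5)]⟩ ⟨2,
  [(29,1),(20,0),(0,0),(2,0)]⟩),.k,.k,⟨true,0,⟨1,[(41,0),(0,0)]⟩,⟨0,[]⟩⟩,⟨false,0,⟨0,[(35,0)]⟩,⟨0,
  [(2,0)]⟩⟩,⟨false,0,⟨0,[(53,0)]⟩,⟨27,[(0,2),(14,0),(5,5),(4,6),(4,3),(3,2),(18,2),(0,14)]⟩⟩,⟨true,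
  (-1),⟨0,[(5,0),(22,0)]⟩,⟨0,[(4,0)]⟩⟩,⟨true,0,⟨0,[(57,0)]⟩,⟨0,[]⟩⟩,⟨false,0,⟨0,[(35,0)]⟩,⟨0,[(0,0),
  (27,0),(21,0)]⟩⟩,[]⟩)) (.R ⟨0,false,false,false,[0,0,0,0,1],[0,1],[1,0,2,1],(⟨0,[(36,0)]⟩,⟨0,[(35,
  0)]⟩),(⟨0,[(47,0)]⟩,⟨0,[(46,0)]⟩),⟨0,[(0,0)]⟩,.k,.k,(.r 0 ⟨2,[(28,1),(20,0),(0,0),(2,0)]⟩ ⟨7,[(20,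
  1),(4,1),(4,1),(2,0),(0,0),(5,3),(0,1),(12,4)]⟩),(.r 0 ⟨2,[(28,1),(20,0),(0,0),(2,0)]⟩ ⟨7,[(20,1),
  (4,1),(4,1),(2,0),(0,0),(5,3),(0,1),(12,4)]⟩),.k,.k,⟨false,0,⟨0,[]⟩,⟨33,[(11,1),(2,9),(10,5),(4,
  9),(22,14),(0,8)]⟩⟩,⟨true,1,⟨0,[(1,0)]⟩,⟨0,[(5,0),(17,0)]⟩⟩,⟨true,0,⟨9,[(16,1),(1,1),(10,1),(10,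
  2),(0,2),(12,3)]⟩,⟨1,[(28,1),(20,0),(0,1),(2,0)]⟩⟩,⟨false,2,⟨0,[(3,0),(50,0)]⟩,⟨0,[(4,0),(22,
  0)]⟩⟩,⟨false,0,⟨0,[]⟩,⟨0,[]⟩⟩,⟨false,0,⟨0,[]⟩,⟨0,[]⟩⟩,[.o ⟨false,1,⟨24,[(14,0),(5,5),(4,6),(4,3),
  (18,10),(3,2),(0,3)]⟩,⟨0,[(52,0)]⟩⟩,.a ⟨true,1,⟨6,[(20,0),(0,0),(3,1),(4,0),(22,0),(0,4)]⟩,⟨0,
  [(27,0)]⟩⟩ ⟨true,0,⟨9,[(16,1),(1,1),(10,1),(10,2),(0,2),(12,3)]⟩,⟨2,[(28,1),(20,0),(0,0),(2,0)]⟩⟩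
  ⟨false,2,⟨1,[(3,1),(49,0),(0,0)]⟩,⟨0,[(4,0),(22,0)]⟩⟩,.o ⟨false,0,⟨0,[(4,0)]⟩,⟨0,[(33,0)]⟩⟩,.o
  ⟨false,0,⟨1,[(4,0),(0,0),(35,0)]⟩,⟨0,[(1,0)]⟩⟩]⟩))))) (.R ⟨0,false,false,false,[1,-1,-1],[0,0,0,0,
  1],[1,1,1],(⟨0,[(27,0)]⟩,⟨0,[(15,0),(26,0)]⟩),(⟨0,[(32,0)]⟩,⟨0,[(31,0)]⟩),⟨0,[(15,0)]⟩,.k,.k,(.r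
  (-2) ⟨9,[(7,7),(2,5),(15,5),(21,5),(0,6),(0,6)]⟩ ⟨0,[(5,0)]⟩),(.r (-2) ⟨16,[(7,11),(2,8),(10,1),
  (4,8),(22,4),(0,19)]⟩ ⟨5,[(12,5),(11,1),(20,0),(0,3),(2,0)]⟩),.k,.k,⟨false,0,⟨0,[]⟩,⟨33,[(7,1),(2,
  9),(10,5),(4,9),(22,14),(0,8)]⟩⟩,⟨true,1,⟨0,[(1,0),(47,0)]⟩,⟨0,[(0,0),(8,0),(2,0),(35,0)]⟩⟩,
  ⟨false,(-1),⟨0,[(12,0)]⟩,⟨9,[(7,5),(2,1),(15,1),(21,1),(0,8),(0,8)]⟩⟩,⟨true,0,⟨5,[(1,5),(10,5),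
  (11,1),(20,0),(0,3),(2,6)]⟩,⟨0,[(0,0),(8,0),(38,0)]⟩⟩,⟨false,0,⟨0,[]⟩,⟨0,[]⟩⟩,⟨false,0,⟨0,[]⟩,⟨0,
  []⟩⟩,[.o ⟨false,0,⟨9,[(1,0),(0,0),(9,0),(10,5),(6,8),(14,7),(0,2)]⟩,⟨1,[(0,1),(44,0),(4,0)]⟩⟩,.a
  ⟨true,0,⟨0,[(30,0)]⟩,⟨0,[(0,0)]⟩⟩ ⟨false,0,⟨0,[]⟩,⟨33,[(7,1),(2,9),(10,5),(4,9),(22,14),(0,8)]⟩⟩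
  ⟨true,1,⟨0,[(1,0),(47,0)]⟩,⟨0,[(0,0),(8,0),(2,0),(35,0)]⟩⟩,.e ⟨false,0,⟨1,[(36,0),(0,0)]⟩,⟨1,[(49,
  0),(0,0)]⟩⟩ ⟨false,1,⟨0,[(1,0),(47,0)]⟩,⟨1,[(0,1),(18,1),(25,0),(4,0)]⟩⟩,.o ⟨false,(-1),⟨0,[(9,0),
  (2,0),(35,0)]⟩,⟨27,[(4,3),(2,1),(2,9),(10,5),(23,6),(3,25),(0,8)]⟩⟩]⟩)))) (.R ⟨0,false,false,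
  false,[0,-1,1],[1,-1],[],(⟨0,[(25,0)]⟩,⟨0,[(0,0),(38,0)]⟩),(⟨0,[(39,0)]⟩,⟨0,[(40,0)]⟩),⟨0,[(0,
  0)]⟩,.k,.k,(.r (-1) ⟨0,[(9,0),(35,2),(0,1)]⟩ ⟨3,[(8,1),(9,1),(14,0),(0,0)]⟩),.k,.k,.k,⟨true,0,⟨27,
  [(8,1),(4,3),(4,1),(3,3),(0,3),(9,6),(0,2)]⟩,⟨0,[(45,0)]⟩⟩,⟨false,0,⟨0,[(30,0)]⟩,⟨39,[(1,11),(2,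
  1),(2,9),(10,5),(15,3),(7,8),(4,8)]⟩⟩,⟨true,0,⟨0,[(15,0)]⟩,⟨1,[(9,1),(11,1),(20,0),(3,2)]⟩⟩,
  ⟨false,0,⟨0,[(5,0),(14,0),(26,0)]⟩,⟨10,[(7,5),(1,1),(3,0),(5,1),(14,1),(7,1),(4,3)]⟩⟩,⟨false,0,⟨0,
  []⟩,⟨0,[]⟩⟩,⟨false,0,⟨0,[]⟩,⟨0,[]⟩⟩,[.o ⟨false,0,⟨0,[(45,0)]⟩,⟨24,[(7,0),(5,5),(4,6),(4,3),(18,
  10),(3,2),(0,3)]⟩⟩,.e ⟨false,1,⟨1,[(46,0),(0,0)]⟩,⟨0,[(49,0)]⟩⟩ ⟨false,1,⟨1,[(30,1),(14,1),(0,0),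
  (0,0)]⟩,⟨3,[(1,0),(0,2),(1,1),(2,0),(34,0),(0,0)]⟩⟩,.a ⟨true,0,⟨0,[(33,0)]⟩,⟨0,[(30,0)]⟩⟩ ⟨false,
  1,⟨1,[(26,0),(0,0),(19,0)]⟩,⟨0,[]⟩⟩ ⟨true,0,⟨0,[(30,0),(14,0)]⟩,⟨3,[(1,0),(0,2),(1,1),(2,0),(34,
  0),(0,0)]⟩⟩,.o ⟨false,0,⟨1,[(1,0),(7,0),(1,0),(9,0),(20,0)]⟩,⟨1,[(30,1),(11,0),(3,0)]⟩⟩]⟩)))) (.R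
  ⟨1,true,false,false,[0,0,1],[0,1],[1,1,0,0,0,0,0,1],(⟨0,[(33,0)]⟩,⟨0,[(32,0)]⟩),(⟨0,[(37,0)]⟩,⟨0,
  [(36,0)]⟩),⟨0,[(22,0)]⟩,.k,.k,.k,.k,(.r (-1) ⟨1,[(0,1),(26,1),(11,0),(3,0)]⟩ ⟨3,[(5,1),(9,1),(14,
  0),(0,0)]⟩),.k,⟨true,0,⟨3,[(0,2),(5,0),(11,0),(8,2),(11,1),(0,2)]⟩,⟨0,[(8,0)]⟩⟩,⟨false,1,⟨1,[(27,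
  1),(11,0),(3,0)]⟩,⟨0,[(30,0)]⟩⟩,⟨false,0,⟨0,[]⟩,⟨1,[(23,0),(0,0),(19,0)]⟩⟩,⟨true,0,⟨0,[(2,0)]⟩,⟨4,
  [(0,0),(3,0),(13,0),(9,2),(2,0)]⟩⟩,⟨true,0,⟨6,[(15,1),(0,1),(21,0),(1,0)]⟩,⟨0,[(42,0)]⟩⟩,⟨false,1,
  ⟨9,[(2,7),(2,1),(4,1),(4,1),(4,1),(22,2),(0,4)]⟩,⟨0,[(0,0)]⟩⟩,[]⟩)) (.Q [0,1,0,1,-1,0,-1,-1,0,1,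
  -1] (.p false [0,0,1] [1] (⟨0,[(32,0)]⟩,⟨0,[(31,0)]⟩) .k 1 (⟨0,[]⟩,⟨0,[]⟩) .k .k) (.I [0,0,2,2,-1,
  0,0,1] (.R ⟨0,false,false,false,[1,-1,-1],[0,-1,1],[],(⟨0,[(22,0)]⟩,⟨0,[(10,0),(26,0)]⟩),(⟨0,[(23,
  0)]⟩,⟨0,[(33,0),(1,0)]⟩),⟨0,[(10,0)]⟩,.k,.k,(.r (-2) ⟨3,[(4,1),(0,2),(9,0),(3,2),(10,3),(13,2),(0,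
  4)]⟩ ⟨0,[(0,0)]⟩),.k,.k,.k,⟨true,0,⟨0,[(13,0)]⟩,⟨11,[(2,4),(2,1),(13,2),(1,0),(10,1),(7,0),(2,
  8)]⟩⟩,⟨false,2,⟨1,[(5,1),(9,1),(28,0),(0,0)]⟩,⟨2,[(1,0),(0,2),(1,4),(14,1)]⟩⟩,⟨false,0,⟨3,[(2,0),
  (4,0),(0,0),(36,1)]⟩,⟨1,[(4,1),(0,0),(9,0),(3,0),(24,0),(0,0)]⟩⟩,⟨true,1,⟨3,[(2,0),(2,3),(1,0),(0,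
  0),(36,1)]⟩,⟨2,[(1,1),(2,3),(14,0)]⟩⟩,⟨false,0,⟨0,[]⟩,⟨0,[]⟩⟩,⟨false,0,⟨0,[]⟩,⟨0,[]⟩⟩,[.o ⟨false,
  1,⟨12,[(2,0),(2,8),(1,1),(24,4),(7,1),(2,6),(1,3)]⟩,⟨0,[(3,0)]⟩⟩,.a ⟨true,1,⟨7,[(2,0),(2,2),(13,
  2),(9,2),(1,0),(0,1),(12,7)]⟩,⟨0,[(1,0)]⟩⟩ ⟨false,1,⟨1,[(44,0),(0,0)]⟩,⟨0,[(47,0)]⟩⟩ ⟨true,2,⟨0,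
  [(5,0),(39,0)]⟩,⟨2,[(1,1),(2,3),(2,2),(11,0)]⟩⟩,.e ⟨false,1,⟨1,[(24,0),(0,0),(19,0)]⟩,⟨0,[]⟩⟩
  ⟨false,2,⟨0,[(5,0),(39,0)]⟩,⟨0,[(3,0),(10,0)]⟩⟩,.o ⟨false,(-1),⟨0,[(4,0),(2,0),(35,0)]⟩,⟨3,[(5,1),
  (9,1),(24,0),(3,3),(0,0)]⟩⟩]⟩) (.I [0,0,-2,0,2,-2,1] (.R ⟨0,false,false,false,[1,-1,-1],[0,-1,1],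
  [],(⟨0,[(23,0)]⟩,⟨0,[(11,0),(26,0)]⟩),(⟨0,[(24,0)]⟩,⟨0,[(34,0),(1,0)]⟩),⟨0,[(11,0)]⟩,.k,.k,(.x 1
  ⟨1,[(11,1),(3,1),(16,0),(0,0)]⟩ ⟨0,[(0,0)]⟩),.k,.k,.k,⟨true,0,⟨0,[(14,0)]⟩,⟨12,[(1,0),(1,5),(2,1),
  (13,3),(12,3),(7,0),(2,6)]⟩⟩,⟨false,2,⟨7,[(1,1),(4,7),(0,3),(9,1),(27,2),(0,2)]⟩,⟨2,[(2,0),(0,2),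
  (1,4),(14,1)]⟩⟩,⟨false,0,⟨3,[(3,0),(4,0),(0,0),(36,1)]⟩,⟨6,[(1,4),(8,0),(6,0),(7,1),(0,1)]⟩⟩,
  ⟨true,1,⟨3,[(3,0),(2,3),(1,0),(0,0),(36,1)]⟩,⟨2,[(2,1),(2,3),(14,0)]⟩⟩,⟨false,0,⟨0,[]⟩,⟨0,[]⟩⟩,
  ⟨false,0,⟨0,[]⟩,⟨0,[]⟩⟩,[.o ⟨false,1,⟨12,[(3,0),(2,8),(1,1),(24,4),(7,1),(2,6),(1,3)]⟩,⟨0,[(4,
  0)]⟩⟩,.a ⟨true,1,⟨7,[(3,0),(2,2),(13,2),(9,2),(1,0),(0,1),(12,7)]⟩,⟨0,[(2,0)]⟩⟩ ⟨false,1,⟨1,[(45,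
  0),(0,0)]⟩,⟨0,[(48,0)]⟩⟩ ⟨true,2,⟨0,[(6,0),(39,0)]⟩,⟨2,[(2,1),(2,3),(2,2),(11,0)]⟩⟩,.e ⟨false,1,
  ⟨1,[(25,0),(0,0),(19,0)]⟩,⟨0,[]⟩⟩ ⟨false,2,⟨0,[(6,0),(39,0)]⟩,⟨0,[(4,0),(10,0)]⟩⟩,.o ⟨false,(-1),
  ⟨0,[(5,0),(2,0),(35,0)]⟩,⟨0,[(1,0),(10,0)]⟩⟩]⟩) (.R ⟨0,false,false,true,[0,-1,1],[1,-1],[1,1],(⟨0,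
  [(24,0)]⟩,⟨0,[(34,0),(1,0)]⟩),(⟨0,[(38,0)]⟩,⟨0,[(39,0)]⟩),⟨16,[(0,37),(0,38),(1,21),(2,18),(0,23),
  (15,41),(10,12),(6,17),(0,26)]⟩,.k,.k,(.r (-1) ⟨10,[(1,8),(1,7),(2,3),(13,3),(1,3),(18,1)]⟩ ⟨3,
  [(7,1),(9,1),(14,0),(0,0)]⟩),.k,.k,.k,⟨true,0,⟨27,[(7,1),(4,3),(4,1),(3,3),(0,3),(9,6),(0,2)]⟩,⟨0,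
  [(44,0)]⟩⟩,⟨false,0,⟨0,[(29,0)]⟩,⟨19,[(1,1),(4,9),(0,3),(2,1),(6,1),(23,4),(4,2)]⟩⟩,⟨false,0,⟨0,
  [(16,0)]⟩,⟨36,[(1,19),(1,23),(2,8),(13,5),(1,2),(10,11),(12,13)]⟩⟩,⟨true,(-1),⟨2,[(2,1),(2,0),(14,
  0)]⟩,⟨15,[(3,0),(2,8),(1,1),(3,2),(20,4),(7,1),(4,3)]⟩⟩,⟨false,0,⟨0,[]⟩,⟨0,[]⟩⟩,⟨false,0,⟨0,[]⟩,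
  ⟨0,[]⟩⟩,[.a ⟨true,(-1),⟨0,[(19,0)]⟩,⟨6,[(12,0),(0,0),(3,1),(4,0),(22,0),(0,4)]⟩⟩ ⟨false,0,⟨15,[(1,
  1),(1,0),(16,3),(19,0),(0,1),(0,10)]⟩,⟨1,[(25,0),(0,0),(19,0)]⟩⟩ ⟨true,(-1),⟨1,[(0,1),(0,1),(1,0),
  (15,0),(3,2),(0,0),(16,0),(0,1)]⟩,⟨5,[(6,3),(3,3),(10,1),(11,1),(7,0),(4,2)]⟩⟩,.o ⟨false,0,⟨0,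
  [(44,0)]⟩,⟨23,[(1,1),(10,7),(4,5),(4,3),(18,9),(3,0),(0,2)]⟩⟩,.a ⟨true,0,⟨0,[(32,0)]⟩,⟨0,[(29,
  0)]⟩⟩ ⟨false,0,⟨0,[]⟩,⟨1,[(25,0),(0,0),(19,0)]⟩⟩ ⟨true,(-1),⟨1,[(0,1),(0,1),(1,0),(15,0),(3,2),(0,
  0),(16,0),(0,1)]⟩,⟨7,[(6,3),(3,3),(1,1),(4,1),(15,1),(7,0),(4,0)]⟩⟩,.a ⟨true,0,⟨1,[(32,2),(0,0)]⟩,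
  ⟨0,[(1,0),(0,0),(0,0)]⟩⟩ ⟨true,0,⟨15,[(1,1),(1,0),(16,3),(19,0),(0,1),(0,10)]⟩,⟨1,[(32,0),(0,
  0)]⟩⟩ ⟨false,0,⟨2,[(1,2),(0,1),(0,2),(1,0),(14,0)]⟩,⟨5,[(6,3),(3,3),(10,1),(11,1),(7,0),(4,
  2)]⟩⟩]⟩))) (.R ⟨2,true,false,true,[0,1],[1,1,-1],[0,1,1],(⟨0,[]⟩,⟨0,[]⟩),(⟨0,[(32,0),(1,0)]⟩,⟨0,
  [(22,0)]⟩),⟨0,[]⟩,.k,.k,.k,.k,.k,.k,⟨true,0,⟨11,[(0,2),(0,3),(2,0),(13,5),(1,1),(10,0),(7,1)]⟩,⟨0,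
  [(14,0)]⟩⟩,⟨false,0,⟨0,[(27,0)]⟩,⟨3,[(4,1),(9,1),(24,0),(4,0)]⟩⟩,⟨false,0,⟨0,[(42,0)]⟩,⟨6,[(10,0),
  (0,0),(3,1),(4,0),(22,0),(0,4)]⟩⟩,⟨true,(-1),⟨0,[(2,0),(14,0)]⟩,⟨2,[(0,0),(3,0),(5,0),(20,0)]⟩⟩,
  ⟨true,0,⟨0,[(46,0)]⟩,⟨0,[]⟩⟩,⟨false,0,⟨0,[(14,0),(12,0)]⟩,⟨0,[(0,0)]⟩⟩,[]⟩))) (.R ⟨2,true,false,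
  true,[0,1],[0,0,1],[0,0,1],(⟨0,[]⟩,⟨0,[]⟩),(⟨0,[(31,0)]⟩,⟨0,[(30,0)]⟩),⟨0,[]⟩,.k,.k,.k,.k,.k,.k,
  ⟨false,1,⟨3,[(1,1),(0,0),(9,2),(3,0),(24,0),(0,2)]⟩,⟨10,[(0,7),(3,2),(11,1),(8,7),(11,4),(0,8)]⟩⟩,
  ⟨true,0,⟨0,[(28,0)]⟩,⟨1,[(11,0),(13,0),(11,0)]⟩⟩,⟨true,0,⟨0,[(40,0)]⟩,⟨6,[(13,1),(0,1),(21,0),(1,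
  0)]⟩⟩,⟨false,0,⟨0,[(0,0)]⟩,⟨7,[(1,1),(1,3),(14,1),(8,1),(9,0),(3,3),(0,2)]⟩⟩,⟨false,1,⟨1,[(21,0),
  (0,0),(19,0)]⟩,⟨0,[]⟩⟩,⟨true,0,⟨0,[(26,0)]⟩,⟨0,[(1,0)]⟩⟩,[]⟩)) (.Q [0,0,-2,0,1,0,1,0,0,0,1] (.p
  true [0,0,1] [] (⟨0,[(30,0)]⟩,⟨0,[(29,0)]⟩) .k 0 (⟨0,[]⟩,⟨0,[]⟩) .k .k) (.I [0,0,2,2,-1,0,0,1]
  (.Q [0,-1,-1,-1,1,0,1,0,0,0,1] (.p true [0,0,1] [] (⟨0,[(32,0)]⟩,⟨0,[(31,0)]⟩) .k 0 (⟨0,[]⟩,⟨0,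
  []⟩) .k .k) (.R ⟨0,false,false,false,[1,-1,-1],[1,-1],[1],(⟨0,[(21,0)]⟩,⟨0,[(9,0),(26,0)]⟩),(⟨0,
  [(36,0)]⟩,⟨0,[(37,0)]⟩),⟨0,[(9,0)]⟩,.k,.k,(.r (-2) ⟨17,[(0,28),(3,4),(13,0),(1,7),(8,22),(9,1),(3,
  0)]⟩ ⟨0,[(1,0)]⟩),.k,.k,.k,⟨true,0,⟨27,[(5,1),(4,3),(4,1),(3,3),(0,3),(9,6),(0,2)]⟩,⟨0,[(42,0)]⟩⟩,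
  ⟨false,1,⟨6,[(0,3),(1,1),(1,0),(6,0),(3,1),(4,0)]⟩,⟨1,[(13,0),(13,0),(11,0)]⟩⟩,⟨false,0,⟨5,[(1,1),
  (1,1),(2,1),(20,1),(11,0),(4,2)]⟩,⟨0,[(0,0),(28,0)]⟩⟩,⟨true,0,⟨0,[(3,0)]⟩,⟨0,[(29,0)]⟩⟩,⟨false,0,
  ⟨0,[]⟩,⟨0,[]⟩⟩,⟨false,0,⟨0,[]⟩,⟨0,[]⟩⟩,[.o ⟨false,0,⟨0,[(42,0)]⟩,⟨24,[(4,0),(5,5),(4,6),(4,3),(18,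
  10),(3,2),(0,3)]⟩⟩,.a ⟨true,0,⟨0,[(17,0),(26,0)]⟩,⟨0,[(41,0)]⟩⟩ ⟨false,1,⟨1,[(43,0),(0,0)]⟩,⟨0,
  [(46,0)]⟩⟩ ⟨true,1,⟨0,[(0,0)]⟩,⟨0,[(6,0),(22,0)]⟩⟩,.a ⟨true,(-1),⟨0,[(13,0)]⟩,⟨6,[(0,3),(1,1),(1,
  0),(6,0),(3,1),(4,0)]⟩⟩ ⟨true,0,⟨0,[]⟩,⟨0,[(46,0)]⟩⟩ ⟨false,1,⟨0,[(0,0)]⟩,⟨34,[(5,0),(4,1),(4,0),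
  (3,8),(0,15),(10,4),(7,6)]⟩⟩,.a ⟨true,(-1),⟨1,[(13,1),(16,0),(0,0)]⟩,⟨0,[(2,0)]⟩⟩ ⟨false,1,⟨1,
  [(43,0),(0,0)]⟩,⟨1,[(30,0),(0,0)]⟩⟩ ⟨true,1,⟨5,[(0,1),(1,3),(15,1),(20,0),(3,0)]⟩,⟨0,[(6,0),(22,
  0)]⟩⟩]⟩) (.R ⟨0,false,false,false,[1,-1,-1],[1,-1],[1],(⟨0,[(21,0)]⟩,⟨0,[(9,0),(26,0)]⟩),(⟨0,[(36,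
  0)]⟩,⟨0,[(37,0)]⟩),⟨0,[(9,0)]⟩,.k,.k,(.r (-2) ⟨3,[(2,1),(1,1),(13,1),(10,5),(12,1),(0,0),(0,4)]⟩
  ⟨0,[(1,0)]⟩),.k,.k,.k,⟨true,0,⟨27,[(5,1),(4,3),(4,1),(3,3),(0,3),(9,6),(0,2)]⟩,⟨0,[(42,0)]⟩⟩,
  ⟨false,1,⟨2,[(2,1),(20,0),(0,0),(5,0)]⟩,⟨1,[(13,0),(13,0),(11,0)]⟩⟩,⟨false,0,⟨5,[(1,1),(1,1),(2,
  1),(20,1),(11,0),(4,2)]⟩,⟨3,[(2,2),(5,0),(20,2),(12,4),(1,0)]⟩⟩,⟨true,0,⟨0,[(3,0)]⟩,⟨0,[(29,0)]⟩⟩,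
  ⟨false,0,⟨0,[]⟩,⟨0,[]⟩⟩,⟨false,0,⟨0,[]⟩,⟨0,[]⟩⟩,[.o ⟨false,0,⟨0,[(42,0)]⟩,⟨24,[(4,0),(5,5),(4,6),
  (4,3),(18,10),(3,2),(0,3)]⟩⟩,.e ⟨false,1,⟨1,[(43,0),(0,0)]⟩,⟨0,[(46,0)]⟩⟩ ⟨false,2,⟨19,[(2,15),(1,
  7),(13,5),(1,1),(2,0),(0,0),(4,7),(14,20)]⟩,⟨0,[(0,0)]⟩⟩,.e ⟨true,0,⟨0,[]⟩,⟨0,[(46,0)]⟩⟩ ⟨true,1,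
  ⟨17,[(2,7),(1,5),(13,5),(4,0),(0,0),(4,5),(0,3),(13,8)]⟩,⟨0,[(0,0)]⟩⟩,.a ⟨true,(-1),⟨1,[(13,1),
  (16,0),(0,0)]⟩,⟨0,[(2,0)]⟩⟩ ⟨false,1,⟨1,[(43,0),(0,0)]⟩,⟨1,[(30,0),(0,0)]⟩⟩ ⟨true,1,⟨0,[(2,0),(39,
  0)]⟩,⟨6,[(0,2),(6,0),(10,1),(0,1),(9,0),(1,2),(7,0)]⟩⟩]⟩)) (.Q [0,0,-1,-1,1,0,2,1,0,-1,2] (.p
  true [0,0,1] [1,0,-1] (⟨0,[(32,0)]⟩,⟨0,[(31,0)]⟩) .k 2 (⟨0,[(31,0)]⟩,⟨0,[(32,0)]⟩) .k (.r 0 ⟨2,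
  [(2,3),(2,1),(20,3),(11,1),(2,1)]⟩ ⟨6,[(0,5),(6,3),(6,3),(7,0),(0,0)]⟩)) (.R ⟨0,false,false,true,
  [1,-1,-1],[0,-1,1],[0,1,-1,-1,0,0,0,1],(⟨0,[(21,0)]⟩,⟨0,[(9,0),(26,0)]⟩),(⟨0,[(22,0)]⟩,⟨0,[(32,0),
  (1,0)]⟩),⟨0,[(9,0)]⟩,.k,.k,(.x 1 ⟨1,[(9,1),(3,1),(16,0),(0,0)]⟩ ⟨0,[(2,0),(18,0),(14,0),(2,0)]⟩),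
  .k,.k,.k,⟨false,1,⟨49,[(1,12),(0,10),(1,7),(5,10),(4,5),(4,18),(23,6)]⟩,⟨0,[]⟩⟩,⟨true,1,⟨0,[(0,0),
  (13,0)]⟩,⟨1,[(13,2),(13,0),(11,0)]⟩⟩,⟨false,0,⟨4,[(0,3),(5,5),(20,7),(11,1),(2,1)]⟩,⟨0,[(1,0),(3,
  0)]⟩⟩,⟨true,0,⟨16,[(0,17),(5,15),(11,4),(8,1),(11,2),(0,11)]⟩,⟨7,[(1,7),(3,5),(7,10),(13,2),(1,1),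
  (9,2),(0,3)]⟩⟩,⟨false,0,⟨0,[]⟩,⟨0,[]⟩⟩,⟨false,0,⟨0,[]⟩,⟨0,[]⟩⟩,[.o ⟨false,0,⟨16,[(0,8),(5,7),(11,
  10),(8,0),(11,9),(0,5)]⟩,⟨3,[(5,1),(21,1),(1,1),(9,0),(3,0),(0,1)]⟩⟩,.a ⟨true,0,⟨4,[(0,2),(5,1),
  (11,1),(8,0),(16,0)]⟩,⟨0,[(14,0),(12,0)]⟩⟩ ⟨false,1,⟨4,[(0,3),(5,0),(20,7),(11,1),(2,1)]⟩,⟨0,[(14,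
  0)]⟩⟩ ⟨true,1,⟨0,[(0,0)]⟩,⟨3,[(5,1),(7,4),(13,0),(1,1),(9,0)]⟩⟩,.a ⟨true,(-1),⟨0,[(13,0)]⟩,⟨2,[(2,
  1),(20,0),(0,0),(5,0)]⟩⟩ ⟨true,0,⟨16,[(0,8),(5,7),(11,10),(8,17),(11,9),(0,5)]⟩,⟨0,[(14,0)]⟩⟩
  ⟨false,1,⟨0,[(0,0)]⟩,⟨3,[(5,1),(7,2),(13,2),(1,1),(9,0),(4,1)]⟩⟩,.a ⟨true,(-1),⟨1,[(13,1),(16,0),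
  (0,0)]⟩,⟨0,[(2,0)]⟩⟩ ⟨false,1,⟨4,[(0,3),(5,0),(20,7),(11,1),(2,1)]⟩,⟨0,[(8,0)]⟩⟩ ⟨true,1,⟨5,[(0,
  5),(17,1),(20,0),(0,3),(2,0)]⟩,⟨3,[(5,1),(7,4),(13,0),(1,1),(9,0)]⟩⟩]⟩) (.I [0,0,-2,-2,1,0,0,-1]
  (.R ⟨0,false,false,false,[1,-1,-1],[1,-1],[1],(⟨0,[(22,0)]⟩,⟨0,[(10,0),(26,0)]⟩),(⟨0,[(37,0)]⟩,⟨0,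
  [(38,0)]⟩),⟨0,[(10,0)]⟩,.k,.k,(.r (-1) ⟨0,[(0,0)]⟩ ⟨3,[(8,0),(3,2),(7,0),(11,2),(12,1)]⟩),.k,.k,
  .k,⟨true,0,⟨27,[(6,1),(4,3),(4,1),(3,3),(0,3),(9,6),(0,2)]⟩,⟨0,[(43,0)]⟩⟩,⟨false,1,⟨2,[(3,1),(20,
  0),(0,0),(5,0)]⟩,⟨1,[(14,0),(13,0),(11,0)]⟩⟩,⟨false,0,⟨1,[(7,1),(36,0),(0,0)]⟩,⟨6,[(2,4),(6,0),(6,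
  0),(7,1),(0,1)]⟩⟩,⟨true,0,⟨0,[(4,0)]⟩,⟨0,[(30,0)]⟩⟩,⟨false,0,⟨0,[]⟩,⟨0,[]⟩⟩,⟨false,0,⟨0,[]⟩,⟨0,
  []⟩⟩,[.o ⟨false,0,⟨0,[(43,0)]⟩,⟨23,[(2,1),(8,7),(4,5),(4,3),(18,9),(3,0),(0,2)]⟩⟩,.e ⟨false,1,⟨1,
  [(44,0),(0,0)]⟩,⟨0,[(47,0)]⟩⟩ ⟨false,2,⟨2,[(2,0),(0,1),(1,0),(15,0),(9,0),(13,1)]⟩,⟨1,[(1,0),(5,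
  0),(10,0),(21,0),(0,0)]⟩⟩,.e ⟨true,0,⟨0,[]⟩,⟨0,[(47,0)]⟩⟩ ⟨true,1,⟨11,[(2,3),(0,1),(1,3),(15,0),
  (9,3),(3,2),(1,2),(7,1)]⟩,⟨1,[(1,0),(5,0),(10,0),(21,0),(0,0)]⟩⟩,.a ⟨true,(-1),⟨1,[(14,1),(16,0),
  (0,0)]⟩,⟨0,[(3,0)]⟩⟩ ⟨false,1,⟨1,[(44,0),(0,0)]⟩,⟨1,[(31,0),(0,0)]⟩⟩ ⟨true,1,⟨1,[(2,0),(0,0),(0,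
  0)]⟩,⟨0,[(7,0),(22,0)]⟩⟩]⟩) (.N [0,2,1] 1 ⟨0,[(0,0)]⟩ ⟨0,[(2,0)]⟩ (.x (-2) ⟨0,[(3,0),(18,0),(14,
  0),(2,0)]⟩ ⟨1,[(10,1),(3,1),(16,0),(0,0)]⟩))))) (.I [0,0,-2,0,2,-2,1] (.R ⟨0,false,false,false,[1,
  -1,-1],[1,-1],[1,1,1],(⟨0,[(20,0)]⟩,⟨0,[(8,0),(26,0)]⟩),(⟨0,[(35,0)]⟩,⟨0,[(36,0)]⟩),⟨0,[(8,0)]⟩,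
  .k,.k,(.x 1 ⟨1,[(8,1),(3,1),(16,0),(0,0)]⟩ ⟨0,[(0,0)]⟩),.k,.k,.k,⟨true,(-1),⟨9,[(6,0),(7,0),(2,5),
  (0,5),(18,0),(0,2)]⟩,⟨1,[(41,1),(0,0),(0,0)]⟩⟩,⟨false,1,⟨0,[(29,0),(12,0)]⟩,⟨2,[(1,0),(24,1),(11,
  0)]⟩⟩,⟨false,(-1),⟨0,[(5,0)]⟩,⟨1,[(13,1),(27,3),(0,2),(0,0)]⟩⟩,⟨true,0,⟨0,[(2,0)]⟩,⟨0,[(28,0)]⟩⟩,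
  ⟨false,0,⟨0,[]⟩,⟨0,[]⟩⟩,⟨false,0,⟨0,[]⟩,⟨0,[]⟩⟩,[.o ⟨false,0,⟨0,[(41,0)]⟩,⟨23,[(0,1),(7,1),(0,5),
  (4,5),(4,3),(18,9),(3,0),(0,2)]⟩⟩,.e ⟨false,0,⟨0,[]⟩,⟨1,[(22,0),(0,0),(18,0)]⟩⟩ ⟨false,2,⟨3,[(0,
  1),(7,1),(8,1),(11,1),(12,2),(0,2)]⟩,⟨0,[(1,0),(37,0)]⟩⟩,.a ⟨true,(-1),⟨0,[(12,0)]⟩,⟨0,[(29,0),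
  (12,0)]⟩⟩ ⟨false,0,⟨1,[(29,0),(0,0)]⟩,⟨1,[(42,0),(0,0)]⟩⟩ ⟨true,1,⟨3,[(0,1),(7,1),(8,1),(11,1),
  (12,0),(0,0)]⟩,⟨0,[(1,0),(37,0)]⟩⟩,.o ⟨false,(-1),⟨0,[(1,0)]⟩,⟨0,[(0,0),(7,0)]⟩⟩]⟩) (.R ⟨0,false,
  false,false,[1,-1,-1],[1,-1],[1,1,1],(⟨0,[(20,0)]⟩,⟨0,[(8,0),(26,0)]⟩),(⟨0,[(35,0)]⟩,⟨0,[(36,
  0)]⟩),⟨0,[(8,0)]⟩,.k,.k,(.r (-2) ⟨1,[(3,0),(9,0),(3,0),(10,1),(12,1),(0,1),(0,1)]⟩ ⟨9,[(0,3),(1,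
  3),(1,1),(0,7),(14,5),(0,1),(16,2),(0,7),(3,2)]⟩),.k,.k,.k,⟨true,(-1),⟨9,[(6,0),(7,0),(2,5),(0,5),
  (18,0),(0,2)]⟩,⟨1,[(41,1),(0,0),(0,0)]⟩⟩,⟨false,1,⟨0,[(29,0),(12,0)]⟩,⟨2,[(1,0),(24,1),(11,0)]⟩⟩,
  ⟨false,(-1),⟨0,[(5,0)]⟩,⟨1,[(13,1),(27,3),(0,2),(0,0)]⟩⟩,⟨true,0,⟨0,[(2,0)]⟩,⟨0,[(28,0)]⟩⟩,⟨false,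
  0,⟨0,[]⟩,⟨0,[]⟩⟩,⟨false,0,⟨0,[]⟩,⟨0,[]⟩⟩,[.o ⟨false,0,⟨0,[(41,0)]⟩,⟨24,[(3,0),(5,5),(4,6),(4,3),
  (18,10),(3,2),(0,3)]⟩⟩,.e ⟨false,0,⟨0,[]⟩,⟨1,[(22,0),(0,0),(18,0)]⟩⟩ ⟨false,2,⟨1,[(3,0),(9,0),(3,
  0),(24,1),(0,1)]⟩,⟨0,[(1,0),(37,0)]⟩⟩,.a ⟨true,(-1),⟨0,[(12,0)]⟩,⟨0,[(29,0),(12,0)]⟩⟩ ⟨false,0,⟨1,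
  [(29,0),(0,0)]⟩,⟨1,[(42,0),(0,0)]⟩⟩ ⟨true,1,⟨1,[(3,0),(9,0),(3,0),(24,0),(0,0)]⟩,⟨0,[(1,0),(37,
  0)]⟩⟩,.o ⟨false,(-1),⟨0,[(1,0)]⟩,⟨3,[(3,1),(9,1),(24,0),(3,3),(0,0)]⟩⟩]⟩))))

theorem ok7 : chk K t7 l15 = true := by decide +kernel

noncomputable def t8 : Tre :=
  (.Q [0,0,0,0,0,-2,0,0,0,0,1] (.p true [0,0,1] [] (⟨0,[(29,0)]⟩,⟨0,[(28,0)]⟩) .k 0 (⟨0,[]⟩,⟨0,[]⟩)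
  .k .k) (.Q [0,0,-2,0,0,0,-1,0,0,1,-1] (.p false [0,0,1] [1] (⟨0,[(30,0)]⟩,⟨0,[(29,0)]⟩) .k 1 (⟨0,
  []⟩,⟨0,[]⟩) .k .k) (.S ⟨1,0,[0,1,-1,-2,0,0,0,1],[0,-1,1],[1,0,-1,-1,0,0,0,1],(⟨0,[(20,0)]⟩,⟨0,
  [(30,0),(1,0)]⟩),⟨0,[(1,0)]⟩,.k,(.r (-1) ⟨1,[(0,1),(25,1),(10,0),(2,3),(1,0)]⟩ ⟨3,[(3,1),(9,1),
  (14,0),(0,0)]⟩),⟨true,0,⟨0,[]⟩,⟨0,[(44,0)]⟩⟩,⟨false,0,⟨0,[(40,0)]⟩,⟨6,[(8,0),(0,0),(3,1),(4,0),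
  (22,0),(0,4)]⟩⟩,⟨false,1,⟨6,[(8,0),(0,0),(3,1),(4,0),(22,0),(0,4)]⟩,⟨0,[(40,0)]⟩⟩,⟨true,0,⟨0,[(44,
  0)]⟩,⟨0,[]⟩⟩,[.a ⟨true,0,⟨0,[(26,0),(13,1)]⟩,⟨0,[(0,0),(2,0)]⟩⟩ ⟨false,1,⟨1,[(0,1),(25,1),(10,0),
  (2,1),(1,0)]⟩,⟨0,[(10,0)]⟩⟩ ⟨true,0,⟨3,[(0,2),(3,0),(11,0),(9,2),(10,1),(2,6)]⟩,⟨0,[(3,0)]⟩⟩,.o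
  ⟨false,1,⟨1,[(26,1),(10,0),(2,3),(1,0)]⟩,⟨3,[(2,1),(0,0),(8,0),(24,0),(0,2),(2,0)]⟩⟩,.a ⟨true,0,
  ⟨0,[(28,0)]⟩,⟨0,[(25,0)]⟩⟩ ⟨false,1,⟨7,[(0,5),(3,1),(21,5),(10,2),(2,9),(1,6)]⟩,⟨0,[(10,0)]⟩⟩
  ⟨true,0,⟨3,[(0,2),(3,0),(11,0),(9,2),(10,1),(2,6)]⟩,⟨1,[(3,0),(8,0),(25,0)]⟩⟩,.a ⟨true,0,⟨1,[(28,
  2),(0,0)]⟩,⟨0,[(0,0)]⟩⟩ ⟨true,1,⟨1,[(0,1),(25,1),(10,0),(2,1),(1,0)]⟩,⟨0,[(2,0),(12,0),(12,1),(8,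
  0),(0,0)]⟩⟩ ⟨false,1,⟨1,[(0,1),(25,1),(10,0),(2,3),(1,0)]⟩,⟨0,[(3,0)]⟩⟩]⟩) (.Q [0,0,0,0,1,0,2,2,0,
  -1,2] (.p true [0,0,1] [1,0,-1] (⟨0,[(31,0)]⟩,⟨0,[(30,0)]⟩) .k 2 (⟨0,[(30,0)]⟩,⟨0,[(31,0)]⟩) .k
  (.r 0 ⟨0,[(4,1),(35,1),(0,1)]⟩ ⟨0,[(12,1),(27,1),(0,0)]⟩)) (.I [0,0,-2,0,2,-2,1] (.R ⟨0,false,
  false,true,[1,-1,-1],[0,-1,1],[0,1],(⟨0,[(21,0)]⟩,⟨0,[(9,0),(26,0)]⟩),(⟨0,[(22,0)]⟩,⟨0,[(32,0),(1,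
  0)]⟩),⟨0,[(9,0)]⟩,.k,.k,(.x 1 ⟨1,[(9,1),(3,1),(16,0),(0,0)]⟩ ⟨0,[(0,0)]⟩),.k,.k,.k,⟨true,0,⟨0,
  [(12,0)]⟩,⟨1,[(1,1),(2,1),(13,1),(20,0),(3,0)]⟩⟩,⟨false,2,⟨0,[(0,0),(8,0),(20,0)]⟩,⟨1,[(4,1),(1,
  1),(11,1),(20,0),(3,2)]⟩⟩,⟨true,(-1),⟨5,[(6,5),(11,1),(20,0),(0,3),(2,0)]⟩,⟨0,[(14,0),(27,1),(0,
  0)]⟩⟩,⟨false,1,⟨0,[(1,0)]⟩,⟨0,[(4,0),(9,0),(27,1),(0,0)]⟩⟩,⟨false,0,⟨0,[]⟩,⟨0,[]⟩⟩,⟨false,0,⟨0,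
  []⟩,⟨0,[]⟩⟩,[.e ⟨false,0,⟨5,[(18,1),(20,0),(0,3),(2,0)]⟩,⟨1,[(23,0),(0,0),(19,0)]⟩⟩ ⟨false,2,⟨15,
  [(0,14),(0,8),(7,14),(8,7),(4,0),(0,0),(4,1),(0,0),(7,2)]⟩,⟨0,[(4,0)]⟩⟩,.o ⟨false,1,⟨3,[(1,1),(21,
  0),(0,0),(14,0),(2,3)]⟩,⟨5,[(4,2),(9,2),(3,0),(20,1),(0,1),(2,1)]⟩⟩,.a ⟨true,(-1),⟨0,[(13,0)]⟩,⟨0,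
  [(30,0),(12,0)]⟩⟩ ⟨true,0,⟨0,[(46,0)]⟩,⟨0,[]⟩⟩ ⟨false,2,⟨3,[(0,2),(0,1),(0,0),(6,2),(8,1),(4,0),
  (0,0),(19,0)]⟩,⟨0,[(4,0)]⟩⟩,.o ⟨false,(-1),⟨10,[(2,1),(1,4),(1,4),(11,4),(12,2),(7,3)]⟩,⟨0,[(0,0),
  (8,0)]⟩⟩]⟩) (.R ⟨0,false,false,true,[1,-1,-1],[0,-1,1],[0,1],(⟨0,[(21,0)]⟩,⟨0,[(9,0),(26,0)]⟩),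
  (⟨0,[(22,0)]⟩,⟨0,[(32,0),(1,0)]⟩),⟨0,[(9,0)]⟩,.k,.k,(.r (-2) ⟨1,[(29,1),(0,1),(11,3),(0,2),(0,
  0)]⟩ ⟨1,[(0,2),(0,0),(0,0),(0,0),(17,3),(17,0),(0,3),(3,1)]⟩),.k,.k,.k,⟨true,0,⟨0,[(12,0)]⟩,⟨1,
  [(1,1),(2,1),(13,1),(20,0),(3,0)]⟩⟩,⟨false,2,⟨1,[(30,3),(8,0),(3,2)]⟩,⟨1,[(4,1),(1,1),(11,1),(20,
  0),(3,2)]⟩⟩,⟨true,(-1),⟨5,[(6,5),(11,1),(20,0),(0,3),(2,0)]⟩,⟨0,[(14,0),(27,1),(0,0)]⟩⟩,⟨false,1,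
  ⟨0,[(1,0)]⟩,⟨0,[(4,0),(9,0),(27,1),(0,0)]⟩⟩,⟨false,0,⟨0,[]⟩,⟨0,[]⟩⟩,⟨false,0,⟨0,[]⟩,⟨0,[]⟩⟩,[.e
  ⟨false,0,⟨5,[(18,1),(20,0),(0,3),(2,0)]⟩,⟨1,[(23,0),(0,0),(19,0)]⟩⟩ ⟨false,2,⟨15,[(1,9),(16,7),
  (10,3),(0,15),(7,1),(0,6),(3,22)]⟩,⟨0,[(4,0)]⟩⟩,.o ⟨false,1,⟨3,[(1,1),(21,0),(0,0),(14,0),(2,3)]⟩,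
  ⟨5,[(4,2),(9,2),(3,0),(20,1),(0,1),(2,1)]⟩⟩,.a ⟨true,(-1),⟨0,[(13,0)]⟩,⟨0,[(30,0),(12,0)]⟩⟩ ⟨true,
  0,⟨0,[(46,0)]⟩,⟨0,[]⟩⟩ ⟨false,2,⟨3,[(1,1),(21,0),(0,0),(5,3),(8,0),(2,3),(0,3)]⟩,⟨0,[(4,0)]⟩⟩,.o
  ⟨false,(-1),⟨10,[(2,1),(1,4),(1,4),(11,4),(12,2),(7,3)]⟩,⟨1,[(30,1),(8,0),(3,2)]⟩⟩]⟩)) (.Q [0,0,0,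
  -1,1,0,2,2,0,-1,2] (.p true [0,0,1] [1,0,-1] (⟨0,[(32,0)]⟩,⟨0,[(31,0)]⟩) .k 2 (⟨0,[(31,0)]⟩,⟨0,
  [(32,0)]⟩) .k (.r 0 ⟨0,[(5,1),(35,1),(0,1)]⟩ ⟨0,[(13,1),(27,1),(0,0)]⟩)) (.R ⟨1,true,false,false,
  [0,0,1],[1,0,-1],[1,1,0,0,0,0,0,1],(⟨0,[(33,0)]⟩,⟨0,[(32,0)]⟩),(⟨0,[(32,0)]⟩,⟨0,[(33,0)]⟩),⟨0,
  [(22,0)]⟩,.k,.k,.k,.k,(.r (-1) ⟨6,[(0,6),(3,0),(1,0),(11,0),(1,0),(6,9),(11,2)]⟩ ⟨1,[(1,1),(28,3),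
  (8,0),(0,1),(3,0)]⟩),.k,⟨false,0,⟨1,[(6,3),(11,1),(20,0),(3,4)]⟩,⟨1,[(1,1),(28,3),(8,0),(3,1),(0,
  0)]⟩⟩,⟨true,(-1),⟨1,[(4,1),(1,1),(11,1),(20,0),(3,2)]⟩,⟨1,[(30,3),(8,0),(3,0)]⟩⟩,⟨false,0,⟨0,[]⟩,
  ⟨1,[(23,0),(0,0),(19,0)]⟩⟩,⟨true,(-1),⟨0,[(1,0)]⟩,⟨12,[(0,11),(9,0),(0,0),(3,2),(0,2),(21,2)]⟩⟩,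
  ⟨true,0,⟨6,[(15,1),(0,1),(21,0),(1,0)]⟩,⟨0,[(42,0)]⟩⟩,⟨false,0,⟨9,[(1,6),(2,1),(10,3),(4,0),(22,
  2),(0,5)]⟩,⟨0,[(0,0)]⟩⟩,[]⟩) (.Q [0,0,0,-2,1,0,2,2,0,-1,2] (.p true [0,0,1] [1,0,-1] (⟨0,[(33,
  0)]⟩,⟨0,[(32,0)]⟩) .k 2 (⟨0,[(32,0)]⟩,⟨0,[(33,0)]⟩) .k (.r 0 ⟨0,[(6,1),(35,1),(0,1)]⟩ ⟨0,[(14,1),
  (27,1),(0,0)]⟩)) (.R ⟨1,true,false,false,[0,0,1],[1,1,-1],[1,1,0,0,0,0,0,1],(⟨0,[(34,0)]⟩,⟨0,[(33,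
  0)]⟩),(⟨0,[(33,0),(1,0)]⟩,⟨0,[(23,0)]⟩),⟨0,[(23,0)]⟩,.k,.k,.k,(.r (-1) ⟨13,[(0,10),(6,3),(3,1),(9,
  0),(6,21),(11,4)]⟩ ⟨1,[(1,1),(29,3),(8,0),(3,0)]⟩),(.r (-1) ⟨1,[(0,1),(4,1),(1,1),(11,1),(20,0),
  (3,4)]⟩ ⟨0,[(1,1),(1,3),(3,1),(10,11),(21,4),(0,9),(3,10)]⟩),.k,⟨true,0,⟨7,[(0,1),(4,1),(1,13),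
  (11,9),(20,4),(3,18)]⟩,⟨1,[(1,1),(29,3),(8,0),(4,0)]⟩⟩,⟨false,0,⟨1,[(5,1),(1,1),(11,1),(20,0),(3,
  4)]⟩,⟨1,[(31,3),(8,0),(3,0)]⟩⟩,⟨false,0,⟨0,[]⟩,⟨1,[(24,0),(0,0),(19,0)]⟩⟩,⟨true,(-1),⟨0,[(1,0)]⟩,
  ⟨16,[(0,15),(10,0),(0,0),(3,3),(0,3),(21,3)]⟩⟩,⟨true,0,⟨6,[(16,1),(0,1),(21,0),(1,0)]⟩,⟨0,[(43,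
  0)]⟩⟩,⟨false,0,⟨14,[(1,13),(9,2),(4,4),(4,0),(6,2),(15,0),(0,9)]⟩,⟨0,[(0,0)]⟩⟩,[]⟩) (.Q [0,2,0,0,
  -1,0,0,0,1,0,0,1] (.p true [0,0,0,0,1] [] (⟨0,[(27,0)]⟩,⟨0,[(26,0)]⟩) .k 0 (⟨0,[]⟩,⟨0,[]⟩) .k .k)
  (.Q [0,0,0,0,0,0,0,0,1,-1,0,1] (.p true [0,0,0,0,1] [1] (⟨0,[(28,0)]⟩,⟨0,[(27,0)]⟩) .k 1 (⟨0,[]⟩,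
  ⟨0,[]⟩) .k .k) (.Q [0,0,1,-1,-1,0,0,0,1,0,0,1] (.p true [0,0,0,0,1] [] (⟨0,[(29,0)]⟩,⟨0,[(28,
  0)]⟩) .k 0 (⟨0,[]⟩,⟨0,[]⟩) .k .k) (.Q [0,0,0,1,1,0,0,0,-1,0,0,-1] (.p false [0,0,0,0,1] [] (⟨0,
  [(30,0)]⟩,⟨0,[(29,0)]⟩) .k 0 (⟨0,[]⟩,⟨0,[]⟩) .k .k) (.Q [0,0,0,0,0,1,0,0,0,-1,0,1] (.ed false [0,
  1,0,0,1] .k) (.Q [0,0,0,0,0,0,-1,0,-2,2,-1,-2] (.p false [0,0,0,0,1] [2,0,-1,0,-1] (⟨0,[(32,0)]⟩,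
  ⟨0,[(31,0)]⟩) .k 2 (⟨0,[(31,0),(6,0)]⟩,⟨0,[(0,0),(27,0)]⟩) .k (.r 1 ⟨1,[(12,1),(11,1),(20,0),(0,
  1),(2,0)]⟩ ⟨1,[(35,1),(0,1),(12,0),(0,2)]⟩)) (.R ⟨0,false,false,true,[-1,1,0,0,1],[0,1],[1,1,1],
  (⟨0,[(1,0)]⟩,⟨0,[(32,0),(10,0)]⟩),(⟨0,[(44,0)]⟩,⟨0,[(43,0)]⟩),⟨0,[(32,0)]⟩,(.r 0 ⟨1,[(22,0),(12,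
  0),(2,0)]⟩ ⟨1,[(49,1),(0,0),(0,0)]⟩),.k,.k,.k,.k,.k,⟨true,0,⟨0,[(49,0)]⟩,⟨27,[(12,1),(4,3),(4,1),
  (3,3),(0,3),(9,6),(0,2)]⟩⟩,⟨false,1,⟨3,[(0,1),(29,0),(0,0),(5,1),(12,2)]⟩,⟨0,[(4,0)]⟩⟩,⟨true,0,⟨0,
  [(49,0)]⟩,⟨0,[(48,0)]⟩⟩,⟨false,1,⟨3,[(0,1),(29,0),(0,0),(5,1),(12,0),(0,1)]⟩,⟨0,[(4,0)]⟩⟩,⟨false,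
  0,⟨0,[]⟩,⟨0,[]⟩⟩,⟨false,0,⟨0,[]⟩,⟨0,[]⟩⟩,[.e ⟨false,0,⟨0,[(53,0)]⟩,⟨1,[(50,0),(0,0)]⟩⟩ ⟨false,0,
  ⟨9,[(0,4),(17,1),(3,1),(14,2),(7,0),(1,3)]⟩,⟨1,[(3,1),(42,0),(3,1),(0,0)]⟩⟩,.o ⟨false,1,⟨8,[(2,0),
  (14,1),(4,1),(4,0),(3,0),(14,3),(3,0),(0,0)]⟩,⟨0,[(49,0)]⟩⟩,.o ⟨false,1,⟨1,[(4,1),(41,0),(3,0)]⟩,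
  ⟨3,[(0,1),(36,2),(0,0)]⟩⟩,.a ⟨true,0,⟨0,[(4,0)]⟩,⟨7,[(0,3),(5,0),(11,1),(5,3),(12,3),(3,2),(1,2),
  (6,1),(0,2)]⟩⟩ ⟨false,0,⟨0,[]⟩,⟨1,[(30,0),(0,0),(19,0)]⟩⟩ ⟨true,0,⟨9,[(0,4),(17,1),(3,1),(14,2),
  (7,0),(1,3)]⟩,⟨1,[(3,1),(42,0),(3,0)]⟩⟩]⟩) (.S ⟨1,0,[0,1,0,-1],[0,0,0,0,1],[1,2],(⟨0,[(33,0)]⟩,⟨0,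
  [(32,0)]⟩),⟨1,[(1,0),(8,0),(17,0),(4,0)]⟩,.k,(.r 0 ⟨2,[(25,1),(20,0),(0,0),(2,0)]⟩ ⟨7,[(17,1),(4,
  1),(4,1),(2,0),(0,0),(5,3),(0,1),(12,4)]⟩),⟨false,0,⟨0,[]⟩,⟨1,[(30,0),(0,0),(19,0)]⟩⟩,⟨true,0,⟨0,
  [(49,0)]⟩,⟨6,[(22,1),(0,1),(21,0),(1,0)]⟩⟩,⟨true,0,⟨6,[(22,1),(0,1),(21,0),(1,0)]⟩,⟨0,[(49,0)]⟩⟩,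
  ⟨false,1,⟨1,[(30,0),(0,0),(19,0)]⟩,⟨0,[]⟩⟩,[.e ⟨false,0,⟨0,[(45,0)]⟩,⟨0,[(51,0)]⟩⟩ ⟨false,0,⟨2,
  [(25,1),(20,0),(0,0),(2,0)]⟩,⟨6,[(17,0),(0,0),(3,1),(4,0),(22,0),(0,4)]⟩⟩,.o ⟨false,0,⟨1,[(3,1),
  (42,0),(3,0)]⟩,⟨0,[(2,0)]⟩⟩,.o ⟨false,0,⟨0,[(4,0)]⟩,⟨0,[(30,0)]⟩⟩,.a ⟨true,(-1),⟨4,[(0,0),(2,2),
  (2,0),(6,0),(4,0),(5,0),(26,0)]⟩,⟨1,[(2,1),(21,1),(25,0),(0,0)]⟩⟩ ⟨false,0,⟨5,[(25,1),(20,0),(0,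
  3),(2,0)]⟩,⟨1,[(37,0),(0,0),(12,1)]⟩⟩ ⟨true,0,⟨2,[(25,1),(20,0),(0,0),(2,0)]⟩,⟨27,[(12,1),(4,3),
  (4,1),(3,3),(0,3),(9,6),(0,2)]⟩⟩]⟩)) (.Q [0,1,0,1,-1,0,0,0,1,0,0,1] (.p true [0,0,0,0,1] [] (⟨0,
  [(32,0)]⟩,⟨0,[(31,0)]⟩) .k 0 (⟨0,[]⟩,⟨0,[]⟩) .k .k) (.Q [0,0,0,0,0,-1,0,0,0,0,0,1] (.ed false [1,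
  -1,0,0,1] .k) (.Q [0,0,1,0,-1,0,0,0,1,0,0,1] (.p true [0,0,0,0,1] [] (⟨0,[(34,0)]⟩,⟨0,[(33,0)]⟩)
  .k 0 (⟨0,[]⟩,⟨0,[]⟩) .k .k) (.S ⟨1,0,[0,1,0,-1],[0,0,0,0,1],[1,2],(⟨0,[(35,0)]⟩,⟨0,[(34,0)]⟩),⟨0,
  [(1,0)]⟩,.k,(.r 0 ⟨2,[(27,1),(20,0),(0,0),(2,0)]⟩ ⟨7,[(19,1),(4,1),(4,1),(2,0),(0,0),(5,3),(0,1),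
  (12,4)]⟩),⟨false,0,⟨0,[]⟩,⟨1,[(32,0),(0,0),(19,0)]⟩⟩,⟨true,0,⟨0,[(51,0)]⟩,⟨6,[(24,1),(0,1),(21,0),
  (1,0)]⟩⟩,⟨true,0,⟨6,[(24,1),(0,1),(21,0),(1,0)]⟩,⟨0,[(51,0)]⟩⟩,⟨false,1,⟨1,[(32,0),(0,0),(19,0)]⟩,
  ⟨0,[]⟩⟩,[.e ⟨false,0,⟨0,[(47,0)]⟩,⟨0,[(53,0)]⟩⟩ ⟨false,0,⟨2,[(27,1),(20,0),(0,0),(2,0)]⟩,⟨6,[(19,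
  0),(0,0),(3,1),(4,0),(22,0),(0,4)]⟩⟩,.o ⟨false,0,⟨1,[(5,1),(42,0),(3,0)]⟩,⟨0,[(4,0)]⟩⟩,.o ⟨false,
  0,⟨0,[(6,0)]⟩,⟨0,[(32,0)]⟩⟩,.a ⟨true,(-1),⟨0,[(0,0)]⟩,⟨1,[(4,1),(21,1),(25,0),(0,0)]⟩⟩ ⟨false,0,
  ⟨5,[(27,1),(20,0),(0,3),(2,0)]⟩,⟨1,[(39,0),(0,0),(12,1)]⟩⟩ ⟨true,0,⟨2,[(27,1),(20,0),(0,0),(2,
  0)]⟩,⟨27,[(14,1),(4,3),(4,1),(3,3),(0,3),(9,6),(0,2)]⟩⟩]⟩) (.S ⟨1,0,[0,2,0,-1],[0,0,0,0,1],[1,1],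
  (⟨0,[(35,0)]⟩,⟨0,[(34,0)]⟩),⟨0,[(1,0)]⟩,.k,(.r 0 ⟨2,[(27,1),(20,0),(0,0),(2,0)]⟩ ⟨7,[(19,1),(4,1),
  (4,1),(2,0),(0,0),(5,3),(0,1),(12,4)]⟩),⟨true,0,⟨0,[]⟩,⟨0,[(55,0)]⟩⟩,⟨false,0,⟨0,[(51,0)]⟩,⟨6,
  [(19,0),(0,0),(3,1),(4,0),(22,0),(0,4)]⟩⟩,⟨false,1,⟨6,[(19,0),(0,0),(3,1),(4,0),(22,0),(0,4)]⟩,⟨0,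
  [(51,0)]⟩⟩,⟨true,0,⟨0,[(55,0)]⟩,⟨0,[]⟩⟩,[.o ⟨false,(-1),⟨0,[(2,0),(24,0),(20,0)]⟩,⟨0,[(4,0),(48,
  0)]⟩⟩,.a ⟨true,(-1),⟨2,[(2,0),(3,1),(20,1)]⟩,⟨9,[(0,2),(3,6),(3,1),(11,3),(5,7),(1,0),(24,10)]⟩⟩
  ⟨true,0,⟨0,[]⟩,⟨1,[(39,0),(0,0)]⟩⟩ ⟨false,0,⟨2,[(27,1),(20,0),(0,0),(2,0)]⟩,⟨6,[(19,0),(0,0),(3,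
  1),(4,0),(22,0),(0,4)]⟩⟩,.o ⟨false,0,⟨0,[(6,0)]⟩,⟨0,[(32,0)]⟩⟩,.o ⟨false,0,⟨2,[(6,1),(4,0),(21,0),
  (6,0)]⟩,⟨0,[(0,0)]⟩⟩]⟩)) (.Q [0,0,0,0,-1,0,-1,0,1,0,-1,1] (.p true [1,0,-1,0,1] [1] (⟨0,[(34,0),
  (5,0)]⟩,⟨1,[(0,0),(1,0),(8,0),(5,0)]⟩) .k 1 (⟨0,[]⟩,⟨0,[]⟩) .k (.r 0 ⟨3,[(9,1),(28,3),(7,1),(0,0),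
  (3,0)]⟩ ⟨0,[(24,0),(25,0),(1,0)]⟩)) (.R ⟨0,false,false,true,[0,0,0,0,1],[0,1],[],(⟨0,[(35,0)]⟩,⟨0,
  [(34,0)]⟩),(⟨0,[(46,0)]⟩,⟨0,[(45,0)]⟩),⟨0,[(1,0)]⟩,.k,.k,(.r 0 ⟨2,[(27,1),(20,0),(0,0),(2,0)]⟩ ⟨7,
  [(19,1),(4,1),(4,1),(2,0),(0,0),(5,3),(0,1),(12,4)]⟩),(.r 0 ⟨2,[(27,1),(20,0),(0,0),(2,0)]⟩ ⟨7,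
  [(19,1),(4,1),(4,1),(2,0),(0,0),(5,3),(0,1),(12,4)]⟩),.k,.k,⟨true,1,⟨1,[(51,1),(0,0),(0,0)]⟩,⟨12,
  [(10,2),(0,5),(4,6),(7,0),(1,2),(20,0)]⟩⟩,⟨false,2,⟨0,[(32,0),(19,0)]⟩,⟨0,[(0,0),(38,0)]⟩⟩,⟨false,
  1,⟨0,[(53,0)]⟩,⟨0,[(55,0)]⟩⟩,⟨true,1,⟨0,[(4,0)]⟩,⟨2,[(2,0),(3,1),(20,1)]⟩⟩,⟨false,0,⟨0,[]⟩,⟨0,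
  []⟩⟩,⟨false,0,⟨0,[]⟩,⟨0,[]⟩⟩,[.e ⟨false,1,⟨1,[(32,0),(0,0),(18,0)]⟩,⟨0,[]⟩⟩ ⟨false,1,⟨0,[(32,0),
  (16,0)]⟩,⟨1,[(5,1),(46,0),(0,0)]⟩⟩,.o ⟨false,1,⟨8,[(4,0),(14,1),(4,1),(4,0),(3,0),(14,3),(3,0),(0,
  0)]⟩,⟨0,[(51,0)]⟩⟩,.o ⟨false,0,⟨0,[(6,0)]⟩,⟨0,[(32,0)]⟩⟩,.a ⟨true,(-1),⟨0,[(0,0),(38,0)]⟩,⟨1,[(4,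
  1),(21,1),(25,0),(0,0)]⟩⟩ ⟨false,1,⟨1,[(52,0),(0,0)]⟩,⟨1,[(39,0),(0,0)]⟩⟩ ⟨true,1,⟨0,[(32,0),(16,
  0)]⟩,⟨0,[(5,0)]⟩⟩]⟩) (.Q [0,0,1,0,-1,0,0,0,1,0,0,1] (.p true [0,0,0,0,1] [] (⟨0,[(35,0)]⟩,⟨0,[(34,
  0)]⟩) .k 0 (⟨0,[]⟩,⟨0,[]⟩) .k .k) (.K ⟨0,[0,0,0,0,1],(-1),(-1),(⟨0,[(36,0)]⟩,⟨0,[(35,0)]⟩),.k,(.r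
  0 ⟨2,[(28,1),(20,0),(0,0),(2,0)]⟩ ⟨28,[(1,14),(13,4),(4,4),(8,2),(0,4),(3,14),(6,9),(12,11)]⟩),
  (.r 0 ⟨1,[(25,0),(12,0),(2,0)]⟩ ⟨1,[(52,1),(0,0),(0,0)]⟩),.k,.k,[⟨0,[(1,0)]⟩,⟨0,[(0,0)]⟩,⟨0,[(33,
  0)]⟩,⟨0,[(8,0)]⟩]⟩) (.R ⟨0,false,false,false,[0,0,0,0,1],[0,1],[0,1,1],(⟨0,[(36,0)]⟩,⟨0,[(35,
  0)]⟩),(⟨0,[(47,0)]⟩,⟨0,[(46,0)]⟩),⟨0,[(2,0)]⟩,.k,.k,(.r 0 ⟨2,[(28,1),(20,0),(0,0),(2,0)]⟩ ⟨28,[(1,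
  14),(13,4),(4,4),(8,2),(0,4),(3,14),(6,9),(12,11)]⟩),(.r 0 ⟨2,[(28,1),(20,0),(0,0),(2,0)]⟩ ⟨28,
  [(1,14),(13,4),(4,4),(8,2),(0,4),(3,14),(6,9),(12,11)]⟩),.k,.k,⟨false,0,⟨2,[(28,1),(20,0),(0,0),
  (2,0)]⟩,⟨6,[(20,0),(0,0),(3,1),(4,0),(22,0),(0,4)]⟩⟩,⟨true,1,⟨0,[(0,0)]⟩,⟨3,[(6,2),(22,0),(4,0),
  (5,0),(0,0)]⟩⟩,⟨true,0,⟨1,[(40,0),(0,0)]⟩,⟨5,[(28,1),(20,0),(0,3),(2,0)]⟩⟩,⟨false,2,⟨0,[(5,0),(48,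
  0)]⟩,⟨2,[(3,0),(3,1),(20,1)]⟩⟩,⟨false,0,⟨0,[]⟩,⟨0,[]⟩⟩,⟨false,0,⟨0,[]⟩,⟨0,[]⟩⟩,[.o ⟨false,1,⟨8,
  [(5,0),(14,1),(4,1),(4,0),(3,0),(14,3),(3,0),(0,0)]⟩,⟨0,[(52,0)]⟩⟩,.a ⟨true,1,⟨6,[(20,0),(0,0),(3,
  1),(4,0),(22,0),(0,4)]⟩,⟨0,[(27,0)]⟩⟩ ⟨true,0,⟨1,[(40,0),(0,0)]⟩,⟨0,[]⟩⟩ ⟨false,2,⟨1,[(5,1),(47,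
  0),(0,0)]⟩,⟨2,[(3,0),(3,1),(20,1)]⟩⟩,.o ⟨false,0,⟨0,[(7,0)]⟩,⟨0,[(33,0)]⟩⟩,.o ⟨false,0,⟨2,[(7,1),
  (4,0),(21,0),(6,0)]⟩,⟨0,[(0,0)]⟩⟩]⟩)))) (.R ⟨2,true,false,false,[0,1],[0,1,0,0,1],[0,1,1],(⟨0,[]⟩,
  ⟨0,[]⟩),(⟨0,[(33,0),(7,0)]⟩,⟨0,[(1,0)]⟩),⟨0,[]⟩,.k,(.r 0 ⟨1,[(22,0),(12,0),(2,0)]⟩ ⟨1,[(49,1),(0,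
  0),(0,0)]⟩),.k,.k,(.r (-1) ⟨1,[(49,1),(0,0),(0,0)]⟩ ⟨1,[(22,0),(12,0),(2,0)]⟩),.k,⟨true,0,⟨0,[(49,
  0)]⟩,⟨27,[(12,1),(4,3),(4,1),(3,3),(0,3),(9,6),(0,2)]⟩⟩,⟨false,0,⟨1,[(3,1),(43,1),(2,0),(0,0)]⟩,
  ⟨0,[(30,0)]⟩⟩,⟨false,0,⟨0,[(49,0)]⟩,⟨6,[(17,0),(0,0),(3,1),(4,0),(22,0),(0,4)]⟩⟩,⟨true,(-1),⟨0,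
  [(3,0),(43,0)]⟩,⟨0,[(30,0)]⟩⟩,⟨true,0,⟨0,[(53,0)]⟩,⟨0,[]⟩⟩,⟨false,0,⟨3,[(4,0),(1,0),(11,1),(12,2),
  (19,0)]⟩,⟨0,[(0,0)]⟩⟩,[]⟩))) (.R ⟨2,true,false,false,[0,1],[0,0,0,0,1],[1,0,1,1],(⟨0,[]⟩,⟨0,[]⟩),
  (⟨0,[(31,0)]⟩,⟨0,[(30,0)]⟩),⟨0,[]⟩,.k,.k,.k,(.r (-1) ⟨7,[(15,1),(4,1),(4,1),(2,0),(0,0),(5,3),(0,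
  1),(12,4)]⟩ ⟨2,[(23,1),(20,0),(0,0),(2,0)]⟩),.k,.k,⟨false,1,⟨6,[(15,0),(0,0),(3,1),(4,0),(22,0),
  (0,4)]⟩,⟨2,[(23,1),(20,0),(0,0),(2,0)]⟩⟩,⟨true,(-1),⟨3,[(0,1),(0,0),(22,0),(4,0)]⟩,⟨0,[(28,0)]⟩⟩,
  ⟨true,0,⟨0,[]⟩,⟨0,[(51,0)]⟩⟩,⟨false,(-1),⟨0,[(0,0)]⟩,⟨6,[(15,0),(0,0),(3,1),(4,0),(2,6),(19,0),(0,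
  4)]⟩⟩,⟨false,1,⟨6,[(15,0),(0,0),(3,1),(4,0),(22,0),(0,4)]⟩,⟨0,[(47,0)]⟩⟩,⟨true,(-1),⟨8,[(0,4),(2,
  3),(0,0),(10,0),(0,0)]⟩,⟨0,[(28,0)]⟩⟩,[]⟩)) (.Q [0,-1,0,0,1,0,0,0,-1,0,0,-1] (.p false [0,0,0,0,
  1] [] (⟨0,[(30,0)]⟩,⟨0,[(29,0)]⟩) .k 0 (⟨0,[]⟩,⟨0,[]⟩) .k .k) (.R ⟨2,true,false,false,[0,1],[0,0,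
  0,0,1],[1,1,1,1],(⟨0,[]⟩,⟨0,[]⟩),(⟨0,[(31,0)]⟩,⟨0,[(30,0)]⟩),⟨0,[]⟩,.k,.k,.k,(.r (-1) ⟨7,[(15,1),
  (4,1),(4,1),(2,0),(0,0),(5,3),(0,1),(12,4)]⟩ ⟨2,[(23,1),(20,0),(0,0),(2,0)]⟩),.k,.k,⟨true,0,⟨27,
  [(10,1),(4,3),(4,1),(3,3),(0,3),(9,6),(0,2)]⟩,⟨0,[(47,0)]⟩⟩,⟨false,0,⟨0,[(29,0)]⟩,⟨5,[(0,1),(0,3),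
  (21,1),(20,0),(3,0)]⟩⟩,⟨false,0,⟨0,[]⟩,⟨1,[(28,0),(0,0),(19,0)]⟩⟩,⟨true,(-1),⟨0,[(2,0),(19,0)]⟩,
  ⟨32,[(1,12),(8,2),(4,1),(0,1),(3,0),(3,1),(0,1),(2,19)]⟩⟩,⟨true,0,⟨6,[(20,1),(0,1),(21,0),(1,0)]⟩,
  ⟨0,[(47,0)]⟩⟩,⟨false,0,⟨0,[(29,0)]⟩,⟨0,[(0,0)]⟩⟩,[]⟩) (.Q [0,-2,0,-1,1,0,0,0,-1,1,0,-1] (.p false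
  [0,0,0,0,1] [1] (⟨0,[(31,0)]⟩,⟨0,[(30,0)]⟩) .k 1 (⟨0,[]⟩,⟨0,[]⟩) .k .k) (.Q [0,2,0,0,-1,0,0,0,1,
  -1,0,1] (.p true [0,0,0,0,1] [1] (⟨0,[(32,0)]⟩,⟨0,[(31,0)]⟩) .k 1 (⟨0,[]⟩,⟨0,[]⟩) .k .k) (.R ⟨2,
  true,false,false,[0,1],[1,0,0,0,-1],[0,0,1],(⟨0,[]⟩,⟨0,[]⟩),(⟨0,[(32,0)]⟩,⟨0,[(33,0)]⟩),⟨0,[]⟩,.k,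
  .k,.k,(.r 0 ⟨1,[(22,0),(12,0),(2,0)]⟩ ⟨1,[(1,0),(2,0),(44,0),(0,0)]⟩),.k,.k,⟨false,0,⟨0,[(53,0)]⟩,
  ⟨1,[(50,0),(0,0)]⟩⟩,⟨true,0,⟨2,[(1,0),(22,1),(1,0),(3,1)]⟩,⟨0,[(4,0)]⟩⟩,⟨true,0,⟨0,[(49,0)]⟩,⟨6,
  [(22,1),(0,1),(21,0),(1,0)]⟩⟩,⟨false,1,⟨0,[(1,0)]⟩,⟨13,[(0,4),(3,3),(1,0),(10,5),(13,4),(4,3)]⟩⟩,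
  ⟨false,1,⟨1,[(30,0),(0,0),(19,0)]⟩,⟨0,[]⟩⟩,⟨true,1,⟨7,[(1,6),(1,0),(14,1),(3,1),(4,0),(17,0)]⟩,⟨0,
  [(0,0)]⟩⟩,[]⟩) (.R ⟨2,false,false,false,[0,1],[1,0,0,0,-1],[0,0,1],(⟨0,[]⟩,⟨0,[]⟩),(⟨0,[(32,0)]⟩,
  ⟨0,[(33,0)]⟩),⟨0,[]⟩,.k,.k,.k,(.r 0 ⟨1,[(22,0),(12,0),(2,0)]⟩ ⟨1,[(1,0),(2,0),(44,0),(0,0)]⟩),.k,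
  .k,⟨false,0,⟨0,[(53,0)]⟩,⟨1,[(50,0),(0,0)]⟩⟩,⟨true,0,⟨2,[(1,0),(22,1),(1,0),(3,1)]⟩,⟨0,[(4,0)]⟩⟩,
  ⟨true,0,⟨0,[(49,0)]⟩,⟨6,[(22,1),(0,1),(21,0),(1,0)]⟩⟩,⟨false,1,⟨0,[(1,0)]⟩,⟨13,[(4,8),(0,4),(0,0),
  (10,5),(18,3)]⟩⟩,⟨false,1,⟨1,[(30,0),(0,0),(19,0)]⟩,⟨0,[]⟩⟩,⟨false,1,⟨0,[(0,0)]⟩,⟨1,[(5,0),(25,0),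
  (14,0)]⟩⟩,[.a ⟨true,1,⟨7,[(1,6),(1,0),(14,1),(3,1),(4,0),(17,0)]⟩,⟨0,[(2,0)]⟩⟩ ⟨true,0,⟨1,[(37,0),
  (0,0)]⟩,⟨0,[]⟩⟩ ⟨false,1,⟨7,[(1,6),(1,0),(14,1),(3,1),(4,0),(17,0)]⟩,⟨1,[(2,1),(43,0),(3,0)]⟩⟩,.e
  ⟨false,1,⟨1,[(30,0),(0,0),(19,0)]⟩,⟨5,[(25,1),(20,0),(0,3),(2,0)]⟩⟩ ⟨false,1,⟨0,[(0,0)]⟩,⟨0,[(4,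
  0),(40,0)]⟩⟩,.o ⟨false,1,⟨1,[(46,0),(3,0)]⟩,⟨1,[(37,0),(0,0)]⟩⟩,.fo]⟩)) (.Q [0,0,0,0,0,-1,0,0,0,0,
  0,1] (.ed false [1,-1,0,0,1] .k) (.S ⟨1,0,[0,-1,1],[1,1,0,0,-1],[1,0,1,1],(⟨0,[(32,0),(8,0)]⟩,⟨0,
  [(0,0)]⟩),⟨0,[(32,0)]⟩,(.r (-1) ⟨7,[(17,1),(4,1),(4,1),(2,0),(0,0),(5,3),(0,1),(12,4)]⟩ ⟨11,[(1,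
  1),(1,1),(21,7),(20,2),(3,4)]⟩),.k,⟨false,0,⟨0,[]⟩,⟨1,[(30,0),(0,0),(19,0)]⟩⟩,⟨true,0,⟨0,[(49,
  0)]⟩,⟨6,[(22,1),(0,1),(21,0),(1,0)]⟩⟩,⟨true,0,⟨6,[(22,1),(0,1),(21,0),(1,0)]⟩,⟨0,[(49,0)]⟩⟩,
  ⟨false,1,⟨1,[(30,0),(0,0),(19,0)]⟩,⟨0,[]⟩⟩,[.a ⟨true,1,⟨7,[(3,2),(20,5),(1,0),(3,4),(10,1),(1,1),
  (7,6)]⟩,⟨0,[(2,0)]⟩⟩ ⟨true,0,⟨27,[(12,1),(4,3),(4,1),(3,3),(0,3),(9,6),(0,2)]⟩,⟨0,[(49,0)]⟩⟩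
  ⟨false,1,⟨1,[(30,0),(0,0),(19,0)]⟩,⟨2,[(1,0),(1,0),(21,0),(24,0)]⟩⟩,.o ⟨false,2,⟨0,[(30,0),(20,
  0)]⟩,⟨4,[(1,3),(2,0),(20,1),(20,0)]⟩⟩,.o ⟨false,1,⟨0,[(3,0),(45,0)]⟩,⟨2,[(4,1),(4,0),(21,0),(6,
  0)]⟩⟩,.o ⟨false,1,⟨0,[(30,0)]⟩,⟨0,[(4,0)]⟩⟩]⟩) (.R ⟨0,false,false,false,[0,0,0,0,1],[0,1],[0,1,1],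
  (⟨0,[(33,0)]⟩,⟨0,[(32,0)]⟩),(⟨0,[(44,0)]⟩,⟨0,[(43,0)]⟩),⟨0,[(0,0)]⟩,.k,.k,(.r 0 ⟨11,[(1,1),(1,1),
  (21,7),(20,2),(3,4)]⟩ ⟨7,[(17,1),(4,1),(4,1),(2,0),(0,0),(5,3),(0,1),(12,4)]⟩),(.r 0 ⟨11,[(1,1),
  (1,1),(21,7),(20,2),(3,4)]⟩ ⟨7,[(17,1),(4,1),(4,1),(2,0),(0,0),(5,3),(0,1),(12,4)]⟩),.k,.k,⟨false,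
  0,⟨11,[(1,1),(1,1),(21,7),(20,2),(3,4)]⟩,⟨6,[(17,0),(0,0),(3,1),(4,0),(22,0),(0,4)]⟩⟩,⟨true,1,⟨0,
  [(3,0),(45,0)]⟩,⟨6,[(2,1),(6,3),(1,1),(1,1),(11,1),(5,4),(19,0)]⟩⟩,⟨true,0,⟨1,[(37,0),(0,0)]⟩,⟨2,
  [(1,0),(1,0),(21,0),(24,0)]⟩⟩,⟨false,2,⟨27,[(3,10),(8,3),(4,1),(0,1),(7,0),(0,1),(2,16),(20,26)]⟩,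
  ⟨1,[(2,0),(1,0),(20,0)]⟩⟩,⟨false,0,⟨0,[]⟩,⟨0,[]⟩⟩,⟨false,0,⟨0,[]⟩,⟨0,[]⟩⟩,[.o ⟨false,1,⟨15,[(17,
  3),(4,3),(4,1),(2,0),(0,0),(14,6),(3,1),(0,1)]⟩,⟨0,[(49,0)]⟩⟩,.a ⟨true,1,⟨6,[(17,0),(0,0),(3,1),
  (4,0),(22,0),(0,4)]⟩,⟨0,[(24,0)]⟩⟩ ⟨true,0,⟨1,[(37,0),(0,0)]⟩,⟨0,[]⟩⟩ ⟨false,2,⟨27,[(3,13),(13,1),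
  (0,1),(3,3),(4,1),(2,13),(19,8),(0,16)]⟩,⟨1,[(2,0),(1,0),(20,0)]⟩⟩,.o ⟨false,0,⟨0,[(4,0)]⟩,⟨0,
  [(30,0)]⟩⟩,.e ⟨true,0,⟨0,[(53,0)]⟩,⟨0,[]⟩⟩ ⟨true,1,⟨0,[(3,0)]⟩,⟨5,[(2,2),(1,0),(4,1),(15,2),(5,1),
  (6,1)]⟩⟩]⟩))))) (.Q [0,0,0,0,0,-1,0,0,0,0,0,1] (.ed false [1,-1,0,0,1] .k) (.Q [0,0,1,0,0,0,0,0,1,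
  -1,0,1] (.p true [0,0,0,0,1] [1] (⟨0,[(30,0)]⟩,⟨0,[(29,0)]⟩) .k 1 (⟨0,[]⟩,⟨0,[]⟩) .k .k) (.S ⟨1,0,
  [0,0,1],[1,1,0,0,-1],[0,-1,1],(⟨0,[(30,0),(8,0)]⟩,⟨0,[(1,0)]⟩),⟨0,[(30,0)]⟩,(.r (-1) ⟨7,[(15,1),
  (4,1),(4,1),(2,0),(0,0),(5,3),(0,1),(12,4)]⟩ ⟨2,[(23,1),(20,0),(0,0),(2,0)]⟩),.k,⟨true,0,⟨0,[(47,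
  0)]⟩,⟨6,[(20,1),(0,1),(21,0),(1,0)]⟩⟩,⟨false,0,⟨0,[(47,0)]⟩,⟨6,[(15,0),(0,0),(3,1),(4,0),(22,0),
  (0,4)]⟩⟩,⟨false,1,⟨1,[(28,0),(0,0),(19,0)]⟩,⟨0,[]⟩⟩,⟨true,0,⟨0,[(51,0)]⟩,⟨0,[]⟩⟩,[.a ⟨true,0,⟨0,
  [(2,0)]⟩,⟨0,[(29,0)]⟩⟩ ⟨false,1,⟨1,[(28,0),(0,0),(19,0)]⟩,⟨5,[(23,1),(20,0),(0,3),(2,0)]⟩⟩ ⟨true,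
  0,⟨1,[(35,0),(0,0)]⟩,⟨0,[]⟩⟩,.o ⟨false,1,⟨1,[(2,1),(41,0),(4,0)]⟩,⟨1,[(3,0),(25,0),(14,0)]⟩⟩,.o
  ⟨false,1,⟨1,[(2,1),(41,0),(3,0)]⟩,⟨0,[(0,0)]⟩⟩,.e ⟨false,1,⟨0,[(49,0)]⟩,⟨0,[(51,0)]⟩⟩ ⟨false,1,⟨1,
  [(28,0),(0,0),(19,0)]⟩,⟨0,[]⟩⟩]⟩) (.S ⟨1,0,[0,-1,1],[1,1,0,0,-1],[1,0,1,1],(⟨0,[(30,0),(8,0)]⟩,⟨0,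
  [(1,0)]⟩),⟨0,[(30,0)]⟩,(.r (-1) ⟨7,[(15,1),(4,1),(4,1),(2,0),(0,0),(5,3),(0,1),(12,4)]⟩ ⟨2,[(23,
  1),(20,0),(0,0),(2,0)]⟩),.k,⟨false,0,⟨0,[]⟩,⟨1,[(28,0),(0,0),(19,0)]⟩⟩,⟨true,0,⟨0,[(47,0)]⟩,⟨6,
  [(20,1),(0,1),(21,0),(1,0)]⟩⟩,⟨true,0,⟨6,[(20,1),(0,1),(21,0),(1,0)]⟩,⟨0,[(47,0)]⟩⟩,⟨false,1,⟨1,
  [(28,0),(0,0),(19,0)]⟩,⟨0,[]⟩⟩,[.o ⟨false,1,⟨1,[(2,1),(41,0),(4,0)]⟩,⟨1,[(3,0),(25,0),(14,0)]⟩⟩,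
  .e ⟨false,1,⟨6,[(15,0),(0,0),(3,1),(4,0),(22,0),(0,4)]⟩,⟨2,[(23,1),(20,0),(0,0),(2,0)]⟩⟩ ⟨false,1,
  ⟨0,[(49,0)]⟩,⟨0,[(43,0)]⟩⟩,.a ⟨true,0,⟨0,[(0,0)]⟩,⟨1,[(29,1),(5,0),(0,0)]⟩⟩ ⟨true,0,⟨27,[(10,1),
  (4,3),(4,1),(3,3),(0,3),(9,6),(0,2)]⟩,⟨2,[(23,1),(20,0),(0,0),(2,0)]⟩⟩ ⟨false,1,⟨1,[(35,0),(0,0),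
  (12,1)]⟩,⟨5,[(23,1),(20,0),(0,3),(2,0)]⟩⟩,.e ⟨false,1,⟨6,[(15,0),(0,0),(3,1),(4,0),(22,0),(0,4)]⟩,
  ⟨0,[(47,0)]⟩⟩ ⟨false,1,⟨0,[(49,0)]⟩,⟨0,[(51,0)]⟩⟩]⟩)) (.Q [0,0,2,0,-1,0,0,0,1,0,0,1] (.p true [0,
  0,0,0,1] [] (⟨0,[(30,0)]⟩,⟨0,[(29,0)]⟩) .k 0 (⟨0,[]⟩,⟨0,[]⟩) .k .k) (.R ⟨0,false,false,false,[0,0,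
  0,0,1],[1,-1],[1,1,1],(⟨0,[(31,0)]⟩,⟨0,[(30,0)]⟩),(⟨0,[(41,0)]⟩,⟨0,[(42,0)]⟩),⟨0,[(1,0)]⟩,.k,.k,
  (.r 0 ⟨2,[(23,1),(20,0),(0,0),(2,0)]⟩ ⟨7,[(15,1),(4,1),(4,1),(2,0),(0,0),(5,3),(0,1),(12,4)]⟩),
  (.r 0 ⟨1,[(20,0),(12,0),(2,0)]⟩ ⟨1,[(47,1),(0,0),(0,0)]⟩),.k,.k,⟨true,(-1),⟨12,[(6,2),(0,5),(4,6),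
  (7,0),(1,2),(20,0)]⟩,⟨1,[(47,1),(0,0),(0,0)]⟩⟩,⟨false,0,⟨0,[(2,0)]⟩,⟨1,[(29,1),(14,0),(3,0)]⟩⟩,
  ⟨true,0,⟨1,[(35,0),(0,0)]⟩,⟨5,[(23,1),(20,0),(0,3),(2,0)]⟩⟩,⟨false,1,⟨0,[(2,0),(44,0),(1,0)]⟩,⟨1,
  [(0,0),(28,0),(14,0),(0,1)]⟩⟩,⟨false,0,⟨0,[]⟩,⟨0,[]⟩⟩,⟨false,0,⟨0,[]⟩,⟨0,[]⟩⟩,[.o ⟨false,0,⟨0,
  [(47,0)]⟩,⟨15,[(15,3),(4,3),(4,1),(2,0),(0,0),(14,6),(3,1),(0,1)]⟩⟩,.e ⟨false,0,⟨0,[]⟩,⟨1,[(28,0),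
  (0,0),(18,0)]⟩⟩ ⟨false,1,⟨1,[(2,1),(44,1),(0,0),(0,0)]⟩,⟨1,[(0,0),(28,0),(14,0),(0,1)]⟩⟩,.a ⟨true,
  0,⟨0,[(29,0)]⟩,⟨0,[(2,0)]⟩⟩ ⟨false,0,⟨1,[(35,0),(0,0)]⟩,⟨1,[(48,0),(0,0)]⟩⟩ ⟨true,0,⟨0,[(2,0),(44,
  0)]⟩,⟨1,[(0,0),(28,0),(14,0),(0,1)]⟩⟩,.o ⟨false,0,⟨1,[(0,0),(28,0),(14,0)]⟩,⟨1,[(2,1),(41,0),(3,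
  0)]⟩⟩]⟩) (.I [0,0,-2,-2,1,0,0,-1] (.R ⟨0,false,false,true,[1,-1,-1],[1,0,0,0,-1],[1,0,1],(⟨0,[(27,
  0)]⟩,⟨0,[(15,0),(26,0)]⟩),(⟨0,[(31,0)]⟩,⟨0,[(32,0)]⟩),⟨0,[(15,0)]⟩,.k,.k,(.r (-1) ⟨0,[(0,0)]⟩ ⟨3,
  [(13,0),(3,2),(7,0),(11,2),(12,1)]⟩),(.r (-1) ⟨7,[(0,5),(20,1),(7,1),(0,1),(5,0),(0,0),(14,5)]⟩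
  ⟨1,[(12,1),(36,0),(0,0)]⟩),.k,.k,⟨false,0,⟨0,[]⟩,⟨1,[(29,0),(0,0),(18,0)]⟩⟩,⟨true,1,⟨0,[(1,0),(34,
  0)]⟩,⟨10,[(8,1),(1,4),(1,4),(11,4),(5,10),(6,2),(7,3)]⟩⟩,⟨true,(-1),⟨0,[(12,0)]⟩,⟨22,[(0,18),(15,
  0),(0,0),(3,5),(4,0),(17,7),(4,2)]⟩⟩,⟨false,1,⟨2,[(1,2),(10,1),(4,0),(18,1),(13,1)]⟩,⟨12,[(0,2),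
  (6,4),(0,0),(21,12),(6,3),(7,1),(2,6)]⟩⟩,⟨false,0,⟨0,[]⟩,⟨0,[]⟩⟩,⟨false,0,⟨0,[]⟩,⟨0,[]⟩⟩,[.a
  ⟨true,0,⟨0,[(3,0)]⟩,⟨0,[(30,0)]⟩⟩ ⟨false,0,⟨0,[]⟩,⟨1,[(29,0),(0,0),(18,0)]⟩⟩ ⟨true,1,⟨0,[(1,0),
  (34,0)]⟩,⟨10,[(8,1),(1,4),(1,4),(11,4),(5,10),(6,2),(7,3)]⟩⟩,.o ⟨false,1,⟨1,[(3,1),(41,0),(4,0)]⟩,
  ⟨1,[(4,0),(25,0),(14,0)]⟩⟩,.e ⟨true,0,⟨1,[(36,0),(0,0)]⟩,⟨1,[(1,0),(2,0)]⟩⟩ ⟨true,1,⟨0,[(1,0),(34,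
  0)]⟩,⟨13,[(4,6),(5,3),(1,3),(11,3),(1,1),(3,6),(6,1),(7,4)]⟩⟩,.o ⟨false,(-1),⟨10,[(8,1),(1,4),(1,
  4),(11,4),(12,2),(7,3)]⟩,⟨0,[(0,0),(15,0)]⟩⟩]⟩) (.I [0,0,-2,0,2,-2,1] (.R ⟨0,false,false,true,[1,
  -1,-1],[1,0,0,0,-1],[1,0,1],(⟨0,[(28,0)]⟩,⟨0,[(16,0),(26,0)]⟩),(⟨0,[(32,0)]⟩,⟨0,[(33,0)]⟩),⟨0,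
  [(16,0)]⟩,.k,.k,(.x 1 ⟨1,[(16,1),(3,1),(16,0),(0,0)]⟩ ⟨0,[(0,0)]⟩),(.r (-1) ⟨5,[(0,3),(15,3),(4,
  1),(3,3),(4,0),(0,0),(4,3),(14,0)]⟩ ⟨1,[(13,1),(36,0),(0,0)]⟩),.k,.k,⟨false,0,⟨0,[]⟩,⟨1,[(30,0),
  (0,0),(18,0)]⟩⟩,⟨true,1,⟨0,[(2,0),(34,0)]⟩,⟨10,[(9,1),(1,4),(1,4),(11,4),(5,10),(6,2),(7,3)]⟩⟩,
  ⟨true,(-1),⟨0,[(13,0)]⟩,⟨13,[(0,12),(7,4),(7,12),(5,0),(2,7),(10,2),(8,0),(4,0)]⟩⟩,⟨false,1,⟨2,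
  [(2,2),(10,1),(4,0),(18,1),(13,1)]⟩,⟨5,[(8,1),(22,5),(4,1),(9,0),(2,5),(1,0)]⟩⟩,⟨false,0,⟨0,[]⟩,
  ⟨0,[]⟩⟩,⟨false,0,⟨0,[]⟩,⟨0,[]⟩⟩,[.a ⟨true,0,⟨0,[(4,0)]⟩,⟨0,[(31,0)]⟩⟩ ⟨false,0,⟨0,[]⟩,⟨1,[(30,0),
  (0,0),(18,0)]⟩⟩ ⟨true,1,⟨0,[(2,0),(34,0)]⟩,⟨10,[(9,1),(1,4),(1,4),(11,4),(5,10),(6,2),(7,3)]⟩⟩,.o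
  ⟨false,1,⟨1,[(4,1),(41,0),(4,0)]⟩,⟨1,[(5,0),(25,0),(14,0)]⟩⟩,.e ⟨true,0,⟨1,[(37,0),(0,0)]⟩,⟨1,[(2,
  0),(2,0)]⟩⟩ ⟨true,1,⟨0,[(2,0),(34,0)]⟩,⟨13,[(5,6),(5,3),(1,3),(11,3),(1,1),(3,6),(6,1),(7,4)]⟩⟩,
  .o ⟨false,(-1),⟨10,[(9,1),(1,4),(1,4),(11,4),(12,2),(7,3)]⟩,⟨0,[(0,0),(15,0)]⟩⟩]⟩) (.Q [0,0,0,-1,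
  0,0,0,0,-1,0,0,-1] (.p false [0,0,0,0,1] [] (⟨0,[(33,0)]⟩,⟨0,[(32,0)]⟩) .k 0 (⟨0,[]⟩,⟨0,[]⟩) .k
  .k) (.R ⟨2,true,false,false,[0,1],[0,1,0,0,1],[0,0,1],(⟨0,[]⟩,⟨0,[]⟩),(⟨0,[(34,0),(7,0)]⟩,⟨1,[(4,
  0),(6,0),(17,0),(3,0)]⟩),⟨0,[]⟩,.k,(.r 0 ⟨1,[(23,0),(12,0),(2,0)]⟩ ⟨1,[(50,1),(0,0),(0,0)]⟩),.k,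
  .k,(.r (-1) ⟨1,[(50,1),(0,0),(0,0)]⟩ ⟨1,[(23,0),(12,0),(2,0)]⟩),.k,⟨false,1,⟨1,[(50,1),(0,0),(0,
  0)]⟩,⟨6,[(23,1),(0,1),(21,0),(1,0)]⟩⟩,⟨true,0,⟨0,[(32,0)]⟩,⟨8,[(0,5),(4,0),(4,0),(16,1),(3,1),(7,
  0)]⟩⟩,⟨true,0,⟨0,[(50,0)]⟩,⟨6,[(23,1),(0,1),(21,0),(1,0)]⟩⟩,⟨false,0,⟨0,[(32,0)]⟩,⟨15,[(0,5),(2,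
  2),(23,1),(3,6),(20,7)]⟩⟩,⟨false,1,⟨1,[(31,0),(0,0),(19,0)]⟩,⟨0,[]⟩⟩,⟨true,0,⟨5,[(6,0),(16,1),(0,
  1),(7,4),(18,0)]⟩,⟨0,[(0,0)]⟩⟩,[]⟩) (.I [0,0,2,2,-1,0,0,1] (.R ⟨0,false,false,true,[1,-1,-1],[1,0,
  0,0,-1],[1,0,1],(⟨0,[(30,0)]⟩,⟨0,[(18,0),(26,0)]⟩),(⟨0,[(34,0)]⟩,⟨0,[(35,0)]⟩),⟨0,[(18,0)]⟩,.k,.k,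
  (.r (-2) ⟨1,[(38,1),(0,1),(11,3),(0,2),(0,0)]⟩ ⟨0,[(0,0)]⟩),(.r (-1) ⟨0,[(38,0),(0,0),(11,0),(0,
  0)]⟩ ⟨1,[(15,1),(36,0),(0,0)]⟩),.k,.k,⟨false,0,⟨0,[]⟩,⟨1,[(32,0),(0,0),(18,0)]⟩⟩,⟨true,1,⟨0,[(4,
  0),(34,0)]⟩,⟨10,[(11,1),(1,4),(1,4),(11,4),(5,10),(6,2),(7,3)]⟩⟩,⟨true,(-1),⟨0,[(15,0)]⟩,⟨1,[(23,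
  1),(3,1),(20,0),(3,2)]⟩⟩,⟨false,1,⟨2,[(4,2),(10,1),(4,0),(18,1),(13,1)]⟩,⟨5,[(10,1),(22,5),(4,1),
  (9,0),(2,5),(1,0)]⟩⟩,⟨false,0,⟨0,[]⟩,⟨0,[]⟩⟩,⟨false,0,⟨0,[]⟩,⟨0,[]⟩⟩,[.a ⟨true,0,⟨0,[(6,0)]⟩,⟨0,
  [(33,0)]⟩⟩ ⟨false,0,⟨0,[]⟩,⟨1,[(32,0),(0,0),(18,0)]⟩⟩ ⟨true,1,⟨0,[(4,0),(34,0)]⟩,⟨10,[(11,1),(1,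
  4),(1,4),(11,4),(5,10),(6,2),(7,3)]⟩⟩,.o ⟨false,1,⟨1,[(6,1),(41,0),(4,0)]⟩,⟨1,[(7,0),(25,0),(14,
  0)]⟩⟩,.e ⟨true,0,⟨1,[(39,0),(0,0)]⟩,⟨1,[(4,0),(2,0)]⟩⟩ ⟨true,1,⟨0,[(4,0),(34,0)]⟩,⟨13,[(7,6),(5,
  3),(1,3),(11,3),(1,1),(3,6),(6,1),(7,4)]⟩⟩,.o ⟨false,(-1),⟨10,[(11,1),(1,4),(1,4),(11,4),(12,2),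
  (7,3)]⟩,⟨1,[(39,1),(8,0),(3,2)]⟩⟩]⟩) (.Q [0,0,1,0,0,0,0,0,1,-1,0,1] (.p true [0,0,0,0,1] [1] (⟨0,
  [(35,0)]⟩,⟨0,[(34,0)]⟩) .k 1 (⟨0,[]⟩,⟨0,[]⟩) .k .k) (.R ⟨0,false,false,false,[0,0,0,0,1],[1,0,-1],
  [],(⟨0,[(36,0)]⟩,⟨0,[(35,0)]⟩),(⟨0,[(42,0)]⟩,⟨0,[(43,0)]⟩),⟨0,[(6,0)]⟩,.k,.k,(.r 0 ⟨3,[(5,0),(2,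
  0),(19,1),(20,0),(3,0)]⟩ ⟨7,[(20,1),(4,1),(4,1),(2,0),(0,0),(5,3),(0,1),(12,4)]⟩),.k,.k,.k,⟨true,
  0,⟨0,[(16,0),(35,0),(0,0)]⟩,⟨5,[(1,0),(10,0),(5,1),(5,1),(3,0),(10,0)]⟩⟩,⟨false,0,⟨0,[(5,0),(17,
  0)]⟩,⟨1,[(1,0),(10,0),(7,0),(13,1)]⟩⟩,⟨false,1,⟨0,[(54,0)]⟩,⟨0,[(56,0)]⟩⟩,⟨true,0,⟨9,[(3,2),(1,5),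
  (1,3),(3,4),(0,2),(0,0),(17,3),(22,4)]⟩,⟨1,[(8,0),(25,0),(3,1),(10,0)]⟩⟩,⟨false,0,⟨0,[]⟩,⟨0,[]⟩⟩,
  ⟨false,0,⟨0,[]⟩,⟨0,[]⟩⟩,[.o ⟨false,0,⟨5,[(11,1),(27,1),(9,0),(4,0)]⟩,⟨1,[(38,1),(10,0),(4,0)]⟩⟩,
  .a ⟨true,0,⟨1,[(11,0),(32,0),(1,0),(7,0)]⟩,⟨0,[(38,0)]⟩⟩ ⟨false,1,⟨1,[(53,0),(0,0)]⟩,⟨0,[(56,
  0)]⟩⟩ ⟨true,0,⟨9,[(3,2),(1,5),(1,3),(3,4),(0,2),(0,0),(17,3),(22,4)]⟩,⟨0,[(0,0),(37,0)]⟩⟩,.e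
  ⟨false,1,⟨1,[(33,0),(0,0),(19,0)]⟩,⟨0,[]⟩⟩ ⟨false,0,⟨9,[(3,2),(1,5),(1,3),(3,4),(0,2),(0,0),(17,
  3),(22,4)]⟩,⟨1,[(34,1),(3,1),(10,0),(4,0)]⟩⟩,.o ⟨false,0,⟨0,[(0,0)]⟩,⟨1,[(5,0),(27,0)]⟩⟩]⟩) (.R
  ⟨0,false,false,true,[0,1,0,0,-1],[1,0,0,0,-1],[1,0,1,1],(⟨0,[(6,0)]⟩,⟨0,[(36,0),(9,0)]⟩),(⟨0,[(35,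
  0)]⟩,⟨0,[(36,0)]⟩),⟨0,[(36,0)]⟩,(.r (-1) ⟨7,[(20,1),(4,1),(4,1),(2,0),(0,0),(5,3),(0,1),(12,4)]⟩
  ⟨3,[(5,0),(2,0),(19,1),(20,0),(3,0)]⟩),.k,.k,.k,.k,.k,⟨true,0,⟨27,[(15,1),(4,3),(4,1),(3,3),(0,3),
  (9,6),(0,2)]⟩,⟨0,[(52,0)]⟩⟩,⟨false,0,⟨0,[(44,0),(1,0)]⟩,⟨1,[(49,0),(3,0)]⟩⟩,⟨false,0,⟨0,[]⟩,⟨1,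
  [(33,0),(0,0),(19,0)]⟩⟩,⟨true,(-1),⟨0,[(27,0)]⟩,⟨23,[(1,1),(18,7),(4,5),(4,3),(18,9),(3,0),(0,
  2)]⟩⟩,⟨false,0,⟨0,[]⟩,⟨0,[]⟩⟩,⟨false,0,⟨0,[]⟩,⟨0,[]⟩⟩,[.a ⟨true,0,⟨0,[(7,0)]⟩,⟨0,[(34,0)]⟩⟩ ⟨true,
  0,⟨27,[(15,1),(4,3),(4,1),(3,3),(0,3),(9,6),(0,2)]⟩,⟨0,[(52,0)]⟩⟩ ⟨false,0,⟨0,[(44,0),(1,0)]⟩,⟨1,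
  [(49,0),(3,0)]⟩⟩,.o ⟨false,1,⟨1,[(7,1),(41,0),(4,0)]⟩,⟨1,[(8,0),(25,0),(14,0)]⟩⟩,.o ⟨false,1,⟨0,
  [(0,0),(48,0)]⟩,⟨1,[(34,1),(5,0),(0,0)]⟩⟩,.o ⟨false,1,⟨0,[(7,0),(41,0)]⟩,⟨0,[(34,0)]⟩⟩]⟩)))))))))
  (.Q [0,1,0,0,0,0,0,0,1,-1,0,1] (.p true [0,0,0,0,1] [1] (⟨0,[(28,0)]⟩,⟨0,[(27,0)]⟩) .k 1 (⟨0,[]⟩,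
  ⟨0,[]⟩) .k .k) (.R ⟨2,true,false,true,[0,1],[1,0,0,0,-1],[0,0,1],(⟨0,[]⟩,⟨0,[]⟩),(⟨0,[(28,0)]⟩,⟨0,
  [(29,0)]⟩),⟨0,[]⟩,.k,.k,.k,(.r 0 ⟨1,[(18,0),(12,0),(2,0)]⟩ ⟨1,[(45,1),(0,0),(0,0)]⟩),.k,.k,⟨true,
  0,⟨1,[(33,0),(0,0)]⟩,⟨0,[]⟩⟩,⟨false,0,⟨4,[(1,2),(0,0),(11,1),(5,3),(5,1)]⟩,⟨1,[(27,1),(14,0),(3,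
  0)]⟩⟩,⟨true,0,⟨0,[(45,0)]⟩,⟨6,[(18,1),(0,1),(21,0),(1,0)]⟩⟩,⟨false,0,⟨0,[(1,0),(18,0)]⟩,⟨15,[(13,
  3),(4,3),(4,1),(2,0),(0,16),(14,6),(3,1),(0,1)]⟩⟩,⟨false,1,⟨1,[(26,0),(0,0),(19,0)]⟩,⟨0,[]⟩⟩,
  ⟨true,0,⟨4,[(1,2),(0,0),(11,1),(5,3),(5,1)]⟩,⟨0,[(0,0)]⟩⟩,[]⟩) (.R ⟨2,false,false,true,[0,1],[1,0,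
  0,0,-1],[1,0,1,1],(⟨0,[]⟩,⟨0,[]⟩),(⟨0,[(28,0)]⟩,⟨0,[(29,0)]⟩),⟨0,[]⟩,.k,.k,.k,(.r 0 ⟨1,[(18,0),
  (12,0),(2,0)]⟩ ⟨1,[(45,1),(0,0),(0,0)]⟩),.k,.k,⟨true,0,⟨27,[(8,1),(4,3),(4,1),(3,3),(0,3),(9,6),
  (0,2)]⟩,⟨0,[(45,0)]⟩⟩,⟨false,0,⟨9,[(0,6),(17,0),(0,0),(0,2),(5,2),(14,0)]⟩,⟨1,[(27,1),(14,0),(3,
  0)]⟩⟩,⟨true,0,⟨0,[]⟩,⟨0,[(49,0)]⟩⟩,⟨false,0,⟨1,[(0,0),(0,0),(19,0)]⟩,⟨15,[(13,3),(4,3),(4,1),(2,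
  0),(0,16),(14,6),(3,1),(0,1)]⟩⟩,⟨false,1,⟨6,[(13,0),(0,0),(3,1),(4,0),(22,0),(0,4)]⟩,⟨0,[(45,
  0)]⟩⟩,⟨false,0,⟨0,[(0,0)]⟩,⟨1,[(26,0),(0,2),(14,0)]⟩⟩,[.a ⟨true,0,⟨9,[(0,6),(17,0),(0,0),(0,2),(5,
  2),(14,0)]⟩,⟨0,[(27,0)]⟩⟩ ⟨true,0,⟨27,[(8,1),(4,3),(4,1),(3,3),(0,3),(9,6),(0,2)]⟩,⟨0,[(45,0)]⟩⟩
  ⟨false,0,⟨9,[(0,6),(17,0),(0,0),(0,2),(5,2),(14,0)]⟩,⟨1,[(27,1),(14,0),(3,0)]⟩⟩,.e ⟨false,1,⟨6,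
  [(13,0),(0,0),(3,1),(4,0),(22,0),(0,4)]⟩,⟨2,[(21,1),(20,0),(0,0),(2,0)]⟩⟩ ⟨false,0,⟨0,[(0,0)]⟩,⟨3,
  [(26,0),(0,4),(13,1),(0,1),(3,0)]⟩⟩,.o ⟨false,1,⟨1,[(42,0),(3,0)]⟩,⟨1,[(33,0),(0,0)]⟩⟩,
  .fo]⟩))))))) (.Q [0,-1,-1,-1,0,0,-1,0,0,1,-1] (.p false [0,0,1] [1] (⟨0,[(30,0)]⟩,⟨0,[(29,0)]⟩)
  .k 1 (⟨0,[]⟩,⟨0,[]⟩) .k .k) (.R ⟨0,false,false,false,[0,-1,1],[1,-1],[1],(⟨0,[(20,0)]⟩,⟨0,[(30,0),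
  (1,0)]⟩),(⟨0,[(34,0)]⟩,⟨0,[(35,0)]⟩),⟨0,[(1,0)]⟩,.k,.k,(.r (-1) ⟨1,[(0,1),(25,1),(10,0),(2,1),(0,
  0)]⟩ ⟨3,[(3,1),(9,1),(14,0),(0,0)]⟩),.k,.k,.k,⟨true,0,⟨27,[(3,1),(4,3),(4,1),(3,3),(0,3),(9,6),(0,
  2)]⟩,⟨0,[(40,0)]⟩⟩,⟨false,0,⟨0,[(25,0)]⟩,⟨1,[(28,1),(8,0),(3,0)]⟩⟩,⟨true,0,⟨0,[(12,0)]⟩,⟨10,[(0,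
  8),(3,1),(11,4),(9,8),(10,6),(0,5)]⟩⟩,⟨false,0,⟨0,[(0,0),(11,0)]⟩,⟨1,[(26,1),(10,0),(4,0)]⟩⟩,
  ⟨false,0,⟨0,[]⟩,⟨0,[]⟩⟩,⟨false,0,⟨0,[]⟩,⟨0,[]⟩⟩,[.o ⟨false,0,⟨0,[(40,0)]⟩,⟨15,[(8,3),(4,3),(4,1),
  (2,0),(0,0),(14,6),(3,1),(0,1)]⟩⟩,.a ⟨true,0,⟨0,[(15,0),(26,0)]⟩,⟨0,[(39,0)]⟩⟩ ⟨false,1,⟨1,[(41,
  0),(0,0)]⟩,⟨0,[(44,0)]⟩⟩ ⟨true,0,⟨0,[(0,0)]⟩,⟨4,[(5,0),(7,0),(2,0),(0,0),(10,4),(7,0),(0,2)]⟩⟩,.a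
  ⟨true,0,⟨0,[(28,0)]⟩,⟨0,[(25,0)]⟩⟩ ⟨true,0,⟨0,[]⟩,⟨0,[(44,0)]⟩⟩ ⟨false,0,⟨0,[(0,0)]⟩,⟨7,[(8,1),(4,
  1),(7,1),(0,1),(5,5),(8,2),(4,0)]⟩⟩,.a ⟨true,0,⟨1,[(28,2),(0,0)]⟩,⟨0,[(0,0),(37,0)]⟩⟩ ⟨false,1,⟨1,
  [(41,0),(0,0)]⟩,⟨1,[(28,0),(0,0)]⟩⟩ ⟨true,0,⟨5,[(0,5),(15,1),(20,0),(0,3),(2,0)]⟩,⟨4,[(5,0),(7,0),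
  (2,0),(0,0),(10,4),(7,0),(0,2)]⟩⟩]⟩) (.Q [0,0,-2,0,0,0,-1,0,0,1,-1] (.p false [0,0,1] [1] (⟨0,
  [(31,0)]⟩,⟨0,[(30,0)]⟩) .k 1 (⟨0,[]⟩,⟨0,[]⟩) .k .k) (.R ⟨0,false,false,false,[0,-1,1],[1,-1],[1],
  (⟨0,[(21,0)]⟩,⟨0,[(31,0),(1,0)]⟩),(⟨0,[(35,0)]⟩,⟨0,[(36,0)]⟩),⟨0,[(2,0)]⟩,.k,.k,(.r (-1) ⟨1,[(0,
  1),(26,1),(10,0),(2,3),(1,0)]⟩ ⟨3,[(4,1),(9,1),(14,0),(0,0)]⟩),.k,.k,.k,⟨true,0,⟨27,[(4,1),(4,3),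
  (4,1),(3,3),(0,3),(9,6),(0,2)]⟩,⟨0,[(41,0)]⟩⟩,⟨false,0,⟨0,[(26,0)]⟩,⟨1,[(29,1),(8,0),(3,0)]⟩⟩,
  ⟨true,0,⟨0,[(13,0)]⟩,⟨3,[(0,2),(4,0),(11,0),(9,2),(10,1),(2,2)]⟩⟩,⟨false,0,⟨1,[(3,0),(9,0),(3,0),
  (24,0),(0,0)]⟩,⟨1,[(27,1),(10,0),(4,0)]⟩⟩,⟨false,0,⟨0,[]⟩,⟨0,[]⟩⟩,⟨false,0,⟨0,[]⟩,⟨0,[]⟩⟩,[.o
  ⟨false,0,⟨0,[(41,0)]⟩,⟨15,[(9,3),(4,3),(4,1),(2,0),(0,0),(14,6),(3,1),(0,1)]⟩⟩,.e ⟨false,1,⟨1,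
  [(42,0),(0,0)]⟩,⟨0,[(45,0)]⟩⟩ ⟨false,1,⟨2,[(0,0),(16,0),(1,0),(21,0),(0,1),(0,1)]⟩,⟨0,[(1,0)]⟩⟩,
  .e ⟨true,0,⟨0,[]⟩,⟨0,[(45,0)]⟩⟩ ⟨true,0,⟨5,[(0,1),(16,1),(1,1),(21,1),(0,0),(0,0)]⟩,⟨0,[(1,0)]⟩⟩,
  .a ⟨true,0,⟨1,[(29,2),(0,0)]⟩,⟨0,[(0,0)]⟩⟩ ⟨false,1,⟨1,[(42,0),(0,0)]⟩,⟨1,[(29,0),(0,0)]⟩⟩ ⟨true,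
  0,⟨0,[(0,0),(40,0)]⟩,⟨1,[(1,1),(27,0),(0,0)]⟩⟩]⟩) (.R ⟨0,false,false,false,[0,-1,1],[1,-1],[],(⟨0,
  [(21,0)]⟩,⟨0,[(31,0),(1,0)]⟩),(⟨0,[(35,0)]⟩,⟨0,[(36,0)]⟩),⟨0,[(2,0)]⟩,.k,.k,(.r (-1) ⟨0,[(5,0),
  (35,2),(0,1)]⟩ ⟨3,[(4,1),(9,1),(14,0),(0,0)]⟩),.k,.k,.k,⟨true,0,⟨27,[(4,1),(4,3),(4,1),(3,3),(0,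
  3),(9,6),(0,2)]⟩,⟨0,[(41,0)]⟩⟩,⟨false,0,⟨0,[(26,0)]⟩,⟨0,[(0,0),(41,0)]⟩⟩,⟨true,0,⟨0,[(11,0)]⟩,⟨1,
  [(5,1),(11,1),(20,0),(3,2)]⟩⟩,⟨false,0,⟨1,[(3,0),(9,0),(3,0),(24,0),(0,0)]⟩,⟨1,[(27,1),(10,0),(4,
  0)]⟩⟩,⟨false,0,⟨0,[]⟩,⟨0,[]⟩⟩,⟨false,0,⟨0,[]⟩,⟨0,[]⟩⟩,[.o ⟨false,0,⟨0,[(41,0)]⟩,⟨15,[(9,3),(4,3),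
  (4,1),(2,0),(0,0),(14,6),(3,1),(0,1)]⟩⟩,.e ⟨false,1,⟨1,[(42,0),(0,0)]⟩,⟨0,[(45,0)]⟩⟩ ⟨false,1,⟨1,
  [(26,1),(14,1),(0,0),(0,0)]⟩,⟨0,[(1,0)]⟩⟩,.a ⟨true,0,⟨0,[(29,0)]⟩,⟨0,[(26,0)]⟩⟩ ⟨false,1,⟨1,[(22,
  0),(0,0),(19,0)]⟩,⟨0,[]⟩⟩ ⟨true,0,⟨0,[(26,0),(14,0)]⟩,⟨0,[(1,0)]⟩⟩,.o ⟨false,0,⟨0,[(0,0)]⟩,⟨1,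
  [(26,1),(11,0),(3,0)]⟩⟩]⟩))))

theorem ok8 : chk K t8 r15 = true := by decide +kernel

noncomputable def t10 : Tre :=
  (.Q [0,0,2,0,0,0,1,0,0,-1,1] (.p true [0,0,1] [1] (⟨0,[(28,0)]⟩,⟨0,[(27,0)]⟩) .k 1 (⟨0,[]⟩,⟨0,
  []⟩) .k .k) (.Q [0,0,0,0,0,-2,0,0,0,0,1] (.p true [0,0,1] [] (⟨0,[(29,0)]⟩,⟨0,[(28,0)]⟩) .k 0 (⟨0,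
  []⟩,⟨0,[]⟩) .k .k) (.S ⟨1,0,[0,0,-1,-2,0,0,0,1],[0,-1,1],[0,1,-1,-2,0,0,0,1],(⟨0,[(19,0)]⟩,⟨0,
  [(29,0),(1,0)]⟩),⟨0,[(0,0)]⟩,.k,(.r (-1) ⟨1,[(2,1),(17,0),(0,0),(19,0)]⟩ ⟨25,[(5,13),(1,1),(4,13),
  (3,1),(0,1),(9,2),(0,0)]⟩),⟨false,0,⟨0,[(39,0)]⟩,⟨6,[(7,0),(0,0),(3,1),(4,0),(22,0),(0,4)]⟩⟩,
  ⟨true,0,⟨0,[(39,0)]⟩,⟨6,[(12,1),(0,1),(21,0),(1,0)]⟩⟩,⟨true,0,⟨0,[(43,0)]⟩,⟨0,[]⟩⟩,⟨false,1,⟨1,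
  [(20,0),(0,0),(19,0)]⟩,⟨0,[]⟩⟩,[.e ⟨false,0,⟨0,[(2,0)]⟩,⟨0,[(12,0),(28,0)]⟩⟩ ⟨false,1,⟨1,[(2,1),
  (17,0),(0,0),(19,0)]⟩,⟨0,[(5,0),(31,0)]⟩⟩,.o ⟨false,1,⟨0,[(1,0),(0,0),(38,0)]⟩,⟨2,[(5,1),(4,0),
  (13,0),(1,0),(9,0),(0,3)]⟩⟩,.a ⟨true,0,⟨0,[(27,0)]⟩,⟨0,[(24,0)]⟩⟩ ⟨true,0,⟨11,[(1,1),(0,9),(12,1),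
  (4,0),(0,0),(3,1),(2,3),(12,0)]⟩,⟨0,[(5,0),(31,0)]⟩⟩ ⟨false,1,⟨11,[(1,1),(0,9),(12,1),(4,0),(0,0),
  (3,1),(2,3),(12,12)]⟩,⟨0,[(5,0),(31,0)]⟩⟩,.o ⟨false,0,⟨0,[(1,0)]⟩,⟨1,[(24,1),(11,0),(3,0)]⟩⟩]⟩)
  (.Q [0,-1,0,0,0,0,-1,-1,0,1,-1] (.p false [0,0,1] [1] (⟨0,[(30,0)]⟩,⟨0,[(29,0)]⟩) .k 1 (⟨0,[]⟩,⟨0,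
  []⟩) .k .k) (.R ⟨0,false,false,false,[0,-1,1],[1,-1],[0,0,-1,-2,0,0,0,1],(⟨0,[(20,0)]⟩,⟨0,[(30,0),
  (1,0)]⟩),(⟨0,[(34,0)]⟩,⟨0,[(35,0)]⟩),⟨0,[(1,0)]⟩,.k,.k,(.r (-1) ⟨1,[(3,1),(17,0),(0,0),(19,0)]⟩
  ⟨25,[(6,13),(1,1),(4,13),(3,1),(0,1),(9,2),(0,0)]⟩),.k,.k,.k,⟨true,0,⟨36,[(2,3),(0,19),(0,10),(11,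
  3),(9,5),(2,9),(12,14)]⟩,⟨0,[(12,0)]⟩⟩,⟨false,0,⟨0,[(25,0)]⟩,⟨0,[(2,0),(38,0)]⟩⟩,⟨true,0,⟨0,[(40,
  0)]⟩,⟨6,[(13,1),(0,1),(21,0),(1,0)]⟩⟩,⟨false,0,⟨0,[(0,0)]⟩,⟨1,[(26,1),(10,0),(4,0)]⟩⟩,⟨false,0,⟨0,
  []⟩,⟨0,[]⟩⟩,⟨false,0,⟨0,[]⟩,⟨0,[]⟩⟩,[.o ⟨false,0,⟨0,[(40,0)]⟩,⟨15,[(8,3),(4,3),(4,1),(2,0),(0,0),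
  (14,6),(3,1),(0,1)]⟩⟩,.e ⟨false,1,⟨0,[(3,0),(38,0)]⟩,⟨0,[(13,0)]⟩⟩ ⟨false,1,⟨7,[(0,1),(2,1),(12,
  1),(1,1),(6,1),(15,4),(0,4)]⟩,⟨0,[(2,0),(35,0)]⟩⟩,.a ⟨true,0,⟨0,[(28,0)]⟩,⟨0,[(25,0)]⟩⟩ ⟨false,1,
  ⟨11,[(2,1),(0,9),(12,1),(4,0),(0,0),(3,1),(2,3),(12,12)]⟩,⟨0,[(6,0),(31,0)]⟩⟩ ⟨true,0,⟨7,[(0,1),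
  (2,1),(12,1),(1,1),(6,1),(15,0),(0,0)]⟩,⟨0,[(2,0),(35,0)]⟩⟩,.o ⟨false,0,⟨0,[(2,0)]⟩,⟨1,[(25,1),
  (11,0),(3,0)]⟩⟩]⟩) (.Q [0,1,0,1,0,0,1,1,0,-1,1] (.p true [0,0,1] [1] (⟨0,[(31,0)]⟩,⟨0,[(30,0)]⟩)
  .k 1 (⟨0,[]⟩,⟨0,[]⟩) .k .k) (.Q [0,-1,-1,-1,1,0,1,0,0,0,1] (.p true [0,0,1] [] (⟨0,[(32,0)]⟩,⟨0,
  [(31,0)]⟩) .k 0 (⟨0,[]⟩,⟨0,[]⟩) .k .k) (.R ⟨0,false,false,false,[1,-1,-1],[1,-1],[1],(⟨0,[(21,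
  0)]⟩,⟨0,[(9,0),(26,0)]⟩),(⟨0,[(36,0)]⟩,⟨0,[(37,0)]⟩),⟨0,[(9,0)]⟩,.k,.k,(.x 1 ⟨1,[(9,1),(3,1),(16,
  0),(0,0)]⟩ ⟨19,[(0,15),(0,3),(13,3),(5,29),(0,9),(15,1),(0,12),(0,3),(2,10)]⟩),.k,.k,.k,⟨true,0,
  ⟨12,[(8,0),(1,1),(4,0),(3,1),(0,1),(9,2),(0,0)]⟩,⟨0,[(42,0)]⟩⟩,⟨false,1,⟨15,[(0,11),(10,3),(3,3),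
  (7,0),(0,0),(13,1),(4,2)]⟩,⟨1,[(13,0),(13,0),(11,0)]⟩⟩,⟨false,0,⟨2,[(1,0),(4,1),(20,0),(16,1)]⟩,
  ⟨0,[(0,0),(28,0)]⟩⟩,⟨true,0,⟨7,[(0,5),(0,0),(3,0),(0,4),(4,0),(5,0),(22,1)]⟩,⟨0,[(29,0)]⟩⟩,⟨false,
  0,⟨0,[]⟩,⟨0,[]⟩⟩,⟨false,0,⟨0,[]⟩,⟨0,[]⟩⟩,[.o ⟨false,0,⟨0,[(42,0)]⟩,⟨15,[(10,3),(4,3),(4,1),(2,0),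
  (0,0),(14,6),(3,1),(0,1)]⟩⟩,.a ⟨true,0,⟨0,[(17,0),(26,0)]⟩,⟨0,[(41,0)]⟩⟩ ⟨false,1,⟨1,[(43,0),(0,
  0)]⟩,⟨0,[(46,0)]⟩⟩ ⟨true,1,⟨0,[(0,0)]⟩,⟨0,[(6,0),(22,0)]⟩⟩,.a ⟨true,(-1),⟨0,[(13,0)]⟩,⟨15,[(0,11),
  (10,3),(3,3),(7,0),(0,0),(13,1),(4,2)]⟩⟩ ⟨true,0,⟨0,[]⟩,⟨0,[(46,0)]⟩⟩ ⟨false,1,⟨0,[(0,0)]⟩,⟨43,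
  [(10,1),(4,1),(3,11),(0,19),(10,5),(7,8),(4,0)]⟩⟩,.a ⟨true,(-1),⟨1,[(13,1),(16,0),(0,0)]⟩,⟨0,[(0,
  0),(39,0)]⟩⟩ ⟨false,1,⟨1,[(43,0),(0,0)]⟩,⟨1,[(30,0),(0,0)]⟩⟩ ⟨true,1,⟨9,[(0,10),(4,0),(12,1),(10,
  0),(9,0),(0,6)]⟩,⟨0,[(6,0),(22,0)]⟩⟩]⟩) (.Q [0,0,2,0,-1,0,-1,0,0,0,-1] (.p false [0,0,1] [] (⟨0,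
  [(33,0)]⟩,⟨0,[(32,0)]⟩) .k 0 (⟨0,[]⟩,⟨0,[]⟩) .k .k) (.I [0,0,-2,0,2,-2,1] (.R ⟨0,false,false,
  false,[1,-1,-1],[1,-1],[1,1,1],(⟨0,[(23,0)]⟩,⟨0,[(11,0),(26,0)]⟩),(⟨0,[(38,0)]⟩,⟨0,[(39,0)]⟩),⟨0,
  [(11,0)]⟩,.k,.k,(.x 1 ⟨1,[(11,1),(3,1),(16,0),(0,0)]⟩ ⟨0,[(0,0)]⟩),.k,.k,.k,⟨true,(-1),⟨5,[(2,1),
  (3,1),(2,0),(7,0),(1,0),(0,0),(0,0)]⟩,⟨1,[(44,1),(0,0),(0,0)]⟩⟩,⟨false,1,⟨0,[(32,0),(12,0)]⟩,⟨2,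
  [(1,0),(27,1),(11,0)]⟩⟩,⟨false,(-1),⟨0,[(8,0)]⟩,⟨1,[(16,1),(27,3),(0,2),(0,0)]⟩⟩,⟨true,0,⟨0,[(3,
  0),(15,0),(26,0)]⟩,⟨0,[(31,0)]⟩⟩,⟨false,0,⟨0,[]⟩,⟨0,[]⟩⟩,⟨false,0,⟨0,[]⟩,⟨0,[]⟩⟩,[.o ⟨false,0,⟨0,
  [(44,0)]⟩,⟨23,[(0,1),(10,1),(0,5),(4,5),(4,3),(18,9),(3,0),(0,2)]⟩⟩,.e ⟨false,0,⟨0,[]⟩,⟨1,[(25,0),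
  (0,0),(18,0)]⟩⟩ ⟨false,2,⟨3,[(0,1),(10,1),(8,1),(11,1),(12,2),(0,2)]⟩,⟨0,[(2,0)]⟩⟩,.a ⟨true,(-1),
  ⟨0,[(15,0)]⟩,⟨0,[(32,0),(12,0)]⟩⟩ ⟨false,0,⟨1,[(32,0),(0,0)]⟩,⟨1,[(45,0),(0,0)]⟩⟩ ⟨true,1,⟨3,[(0,
  1),(10,1),(8,1),(11,1),(12,0),(0,0)]⟩,⟨0,[(2,0)]⟩⟩,.o ⟨false,(-1),⟨0,[(1,0)]⟩,⟨0,[(0,0),(10,
  0)]⟩⟩]⟩) (.R ⟨0,false,false,false,[1,-1,-1],[1,-1],[1,1,1],(⟨0,[(23,0)]⟩,⟨0,[(11,0),(26,0)]⟩),(⟨0,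
  [(38,0)]⟩,⟨0,[(39,0)]⟩),⟨0,[(11,0)]⟩,.k,.k,(.r (-2) ⟨1,[(31,1),(0,1),(11,3),(0,2),(0,0)]⟩ ⟨5,[(0,
  1),(1,0),(0,2),(4,2),(12,0),(1,2),(0,0),(17,1),(3,2)]⟩),.k,.k,.k,⟨true,(-1),⟨5,[(2,1),(3,1),(2,0),
  (7,0),(1,0),(0,0),(0,0)]⟩,⟨1,[(44,1),(0,0),(0,0)]⟩⟩,⟨false,1,⟨0,[(32,0),(12,0)]⟩,⟨2,[(1,0),(27,1),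
  (11,0)]⟩⟩,⟨false,(-1),⟨0,[(8,0)]⟩,⟨1,[(16,1),(27,3),(0,2),(0,0)]⟩⟩,⟨true,0,⟨0,[(3,0),(15,0),(26,
  0)]⟩,⟨0,[(31,0)]⟩⟩,⟨false,0,⟨0,[]⟩,⟨0,[]⟩⟩,⟨false,0,⟨0,[]⟩,⟨0,[]⟩⟩,[.o ⟨false,0,⟨0,[(44,0)]⟩,⟨15,
  [(12,3),(4,3),(4,1),(2,0),(0,0),(14,6),(3,1),(0,1)]⟩⟩,.e ⟨false,0,⟨0,[]⟩,⟨1,[(25,0),(0,0),(18,
  0)]⟩⟩ ⟨false,2,⟨1,[(32,1),(11,1),(0,2),(0,0)]⟩,⟨0,[(2,0)]⟩⟩,.a ⟨true,(-1),⟨0,[(15,0)]⟩,⟨0,[(32,0),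
  (12,0)]⟩⟩ ⟨false,0,⟨1,[(32,0),(0,0)]⟩,⟨1,[(45,0),(0,0)]⟩⟩ ⟨true,1,⟨0,[(32,0),(11,0),(0,0)]⟩,⟨0,
  [(2,0)]⟩⟩,.o ⟨false,(-1),⟨0,[(1,0)]⟩,⟨0,[(6,0),(38,1)]⟩⟩]⟩)) (.R ⟨0,false,false,false,[1,-1,-1],
  [1,-1],[1],(⟨0,[(22,0)]⟩,⟨0,[(10,0),(26,0)]⟩),(⟨0,[(37,0)]⟩,⟨0,[(38,0)]⟩),⟨0,[(10,0)]⟩,.k,.k,(.x
  1 ⟨1,[(10,1),(3,1),(16,0),(0,0)]⟩ ⟨0,[(0,0),(21,0),(14,0),(2,0)]⟩),.k,.k,.k,⟨true,0,⟨12,[(9,0),(1,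
  1),(4,0),(3,1),(0,1),(9,2),(0,0)]⟩,⟨0,[(43,0)]⟩⟩,⟨false,1,⟨2,[(0,1),(23,0),(0,0),(5,0)]⟩,⟨1,[(14,
  0),(13,0),(11,0)]⟩⟩,⟨false,0,⟨2,[(2,0),(4,1),(20,0),(16,1)]⟩,⟨3,[(0,2),(8,0),(20,2),(12,4),(1,
  0)]⟩⟩,⟨true,0,⟨2,[(0,1),(2,0),(3,1),(11,0),(25,0)]⟩,⟨0,[(30,0)]⟩⟩,⟨false,0,⟨0,[]⟩,⟨0,[]⟩⟩,⟨false,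
  0,⟨0,[]⟩,⟨0,[]⟩⟩,[.o ⟨false,0,⟨0,[(43,0)]⟩,⟨15,[(11,3),(4,3),(4,1),(2,0),(0,0),(14,6),(3,1),(0,
  1)]⟩⟩,.e ⟨false,1,⟨1,[(44,0),(0,0)]⟩,⟨0,[(47,0)]⟩⟩ ⟨false,2,⟨1,[(0,1),(23,0),(0,0),(17,1),(1,0)]⟩,
  ⟨0,[(1,0)]⟩⟩,.e ⟨true,0,⟨0,[]⟩,⟨0,[(47,0)]⟩⟩ ⟨true,1,⟨7,[(0,5),(4,1),(13,1),(4,2),(0,2),(17,3),(1,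
  0)]⟩,⟨0,[(1,0)]⟩⟩,.a ⟨true,(-1),⟨1,[(14,1),(16,0),(0,0)]⟩,⟨0,[(0,0)]⟩⟩ ⟨false,1,⟨1,[(44,0),(0,
  0)]⟩,⟨1,[(31,0),(0,0)]⟩⟩ ⟨true,1,⟨0,[(0,0),(42,0)]⟩,⟨6,[(1,3),(3,0),(2,0),(10,0),(0,0),(9,0),(1,
  2)]⟩⟩]⟩))) (.R ⟨2,true,false,false,[0,1],[1,0,-1],[0,0,1],(⟨0,[]⟩,⟨0,[]⟩),(⟨0,[(31,0)]⟩,⟨0,[(32,
  0)]⟩),⟨0,[]⟩,.k,.k,.k,.k,.k,.k,⟨false,0,⟨2,[(4,0),(0,0),(9,0),(27,0)]⟩,⟨7,[(0,1),(2,1),(9,5),(3,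
  1),(20,0),(3,8)]⟩⟩,⟨true,(-1),⟨0,[(12,0)]⟩,⟨0,[(3,0),(38,0)]⟩⟩,⟨true,0,⟨0,[(41,0)]⟩,⟨6,[(14,1),(0,
  1),(21,0),(1,0)]⟩⟩,⟨false,0,⟨0,[(0,0)]⟩,⟨3,[(9,1),(17,1),(10,0),(4,0)]⟩⟩,⟨false,1,⟨1,[(22,0),(0,
  0),(19,0)]⟩,⟨0,[]⟩⟩,⟨true,0,⟨11,[(0,8),(9,0),(3,3),(4,0),(6,1),(10,1)]⟩,⟨0,[(1,0)]⟩⟩,[]⟩)))) (.I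
  [0,0,-2,-2,1,0,0,-1] (.Q [0,0,0,1,0,0,-1,-1,0,0,-1] (.p false [0,0,1] [] (⟨0,[(30,0)]⟩,⟨0,[(29,
  0)]⟩) .k 0 (⟨0,[]⟩,⟨0,[]⟩) .k .k) (.R ⟨0,false,false,true,[1,-1,-1],[0,-1,1],[0,1],(⟨0,[(19,0)]⟩,
  ⟨0,[(7,0),(26,0)]⟩),(⟨0,[(20,0)]⟩,⟨0,[(30,0),(1,0)]⟩),⟨0,[(7,0)]⟩,.k,.k,(.r (-1) ⟨0,[(1,0)]⟩ ⟨3,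
  [(5,0),(3,2),(7,0),(11,2),(12,1)]⟩),.k,.k,.k,⟨true,0,⟨0,[(10,0)]⟩,⟨2,[(3,1),(0,0),(23,0),(0,0),
  (12,0)]⟩⟩,⟨false,2,⟨0,[(1,0),(6,0),(19,0)]⟩,⟨0,[(0,0),(1,0),(1,0),(35,1)]⟩⟩,⟨true,(-1),⟨7,[(3,0),
  (0,5),(0,0),(9,1),(21,0),(0,3)]⟩,⟨6,[(1,4),(4,0),(6,0),(7,1),(0,1)]⟩⟩,⟨false,1,⟨3,[(3,3),(0,1),(3,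
  1),(19,5),(8,0),(0,1),(3,2)]⟩,⟨0,[(0,1),(15,0),(25,0)]⟩⟩,⟨false,0,⟨0,[]⟩,⟨0,[]⟩⟩,⟨false,0,⟨0,[]⟩,
  ⟨0,[]⟩⟩,[.a ⟨true,0,⟨3,[(3,1),(22,1),(1,2),(0,0)]⟩,⟨0,[(2,0),(3,0)]⟩⟩ ⟨false,0,⟨10,[(1,0),(1,0),
  (11,1),(20,0),(0,0),(0,5)]⟩,⟨1,[(21,0),(0,0),(19,0)]⟩⟩ ⟨true,1,⟨1,[(3,1),(24,3),(8,0),(0,1),(3,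
  0)]⟩,⟨0,[(0,1),(3,0),(11,0),(25,0)]⟩⟩,.o ⟨false,1,⟨3,[(3,1),(22,1),(1,2),(0,0),(7,1),(4,1)]⟩,⟨0,
  [(0,0)]⟩⟩,.e ⟨true,0,⟨0,[(44,0)]⟩,⟨0,[]⟩⟩ ⟨true,1,⟨1,[(3,1),(24,3),(8,0),(0,1),(3,0)]⟩,⟨0,[(0,0),
  (10,0)]⟩⟩,.o ⟨false,(-1),⟨0,[(0,0),(3,0),(35,1)]⟩,⟨0,[(1,0),(6,0)]⟩⟩]⟩) (.R ⟨0,false,false,true,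
  [1,-1,-1],[0,-1,1],[0,1],(⟨0,[(19,0)]⟩,⟨0,[(7,0),(26,0)]⟩),(⟨0,[(20,0)]⟩,⟨0,[(30,0),(1,0)]⟩),⟨0,
  [(7,0)]⟩,.k,.k,(.r (-1) ⟨0,[(1,0)]⟩ ⟨3,[(5,0),(3,2),(7,0),(11,2),(12,1)]⟩),.k,.k,.k,⟨true,0,⟨0,
  [(10,0)]⟩,⟨4,[(0,1),(2,1),(0,0),(24,1),(12,0)]⟩⟩,⟨false,2,⟨0,[(1,0),(6,0),(19,0)]⟩,⟨0,[(2,1),(1,
  0),(1,0),(9,0),(20,0)]⟩⟩,⟨true,(-1),⟨7,[(3,0),(0,5),(0,0),(9,1),(21,0),(0,3)]⟩,⟨6,[(1,4),(4,0),(6,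
  0),(7,1),(0,1)]⟩⟩,⟨false,1,⟨5,[(0,7),(7,3),(12,0),(0,0),(14,0)]⟩,⟨0,[(2,1),(3,1),(9,0),(20,0)]⟩⟩,
  ⟨false,0,⟨0,[]⟩,⟨0,[]⟩⟩,⟨false,0,⟨0,[]⟩,⟨0,[]⟩⟩,[.a ⟨true,0,⟨17,[(0,5),(0,1),(14,3),(9,13),(1,0),
  (0,2),(7,1)]⟩,⟨0,[(2,0),(3,0)]⟩⟩ ⟨false,0,⟨10,[(1,0),(1,0),(11,1),(20,0),(0,0),(0,5)]⟩,⟨1,[(21,0),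
  (0,0),(19,0)]⟩⟩ ⟨true,1,⟨1,[(0,1),(0,0),(7,0),(18,0),(8,0),(0,0)]⟩,⟨0,[(2,1),(1,0),(1,1),(9,0),
  (20,0)]⟩⟩,.e ⟨false,1,⟨1,[(21,0),(0,0),(18,0)]⟩,⟨0,[]⟩⟩ ⟨false,2,⟨0,[(0,0),(0,0),(6,0)]⟩,⟨2,[(2,
  3),(3,2),(4,1),(3,2),(1,0),(19,2)]⟩⟩,.e ⟨true,0,⟨0,[(44,0)]⟩,⟨0,[]⟩⟩ ⟨true,1,⟨1,[(0,1),(0,0),(7,
  0),(18,0),(8,0),(0,0)]⟩,⟨2,[(2,3),(3,2),(4,1),(3,2),(1,0),(19,2)]⟩⟩,.o ⟨false,(-1),⟨0,[(2,0),(1,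
  0),(1,0),(9,0),(20,0)]⟩,⟨0,[(1,0),(6,0)]⟩⟩]⟩)) (.I [1,1,-2,-2,1,0,0,-2] (.I [0,0,2,2,-1,0,0,1]
  (.Q [0,0,0,1,0,0,-1,-1,0,0,-1] (.p false [0,0,1] [] (⟨0,[(32,0)]⟩,⟨0,[(31,0)]⟩) .k 0 (⟨0,[]⟩,⟨0,
  []⟩) .k .k) (.R ⟨0,false,false,true,[1,-1,-1],[0,-1,1],[0,1],(⟨0,[(21,0)]⟩,⟨0,[(9,0),(26,0)]⟩),
  (⟨0,[(22,0)]⟩,⟨0,[(32,0),(1,0)]⟩),⟨0,[(9,0)]⟩,.k,.k,(.r (-2) ⟨5,[(2,3),(2,1),(17,4),(0,4),(19,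
  2)]⟩ ⟨0,[(1,0)]⟩),.k,.k,.k,⟨true,0,⟨0,[(12,0)]⟩,⟨2,[(5,1),(0,0),(23,0),(0,0),(12,0)]⟩⟩,⟨false,2,
  ⟨1,[(30,3),(8,0),(3,2)]⟩,⟨0,[(0,0),(3,0),(1,0),(35,1)]⟩⟩,⟨true,(-1),⟨4,[(1,2),(3,0),(1,0),(9,1),
  (21,0),(0,0)]⟩,⟨3,[(2,1),(20,0),(0,0),(19,0)]⟩⟩,⟨false,1,⟨5,[(1,1),(3,5),(4,3),(19,7),(8,0),(4,
  2)]⟩,⟨0,[(0,1),(17,0),(25,0)]⟩⟩,⟨false,0,⟨0,[]⟩,⟨0,[]⟩⟩,⟨false,0,⟨0,[]⟩,⟨0,[]⟩⟩,[.a ⟨true,0,⟨3,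
  [(5,1),(22,1),(1,2),(0,0)]⟩,⟨0,[(4,0),(3,0)]⟩⟩ ⟨false,0,⟨14,[(2,0),(2,1),(11,1),(20,0),(0,0),(0,
  7)]⟩,⟨1,[(23,0),(0,0),(19,0)]⟩⟩ ⟨true,1,⟨1,[(5,1),(24,3),(8,0),(0,1),(3,0)]⟩,⟨0,[(0,1),(5,0),(11,
  0),(25,0)]⟩⟩,.o ⟨false,1,⟨3,[(5,1),(22,1),(1,2),(0,0),(7,1),(4,1)]⟩,⟨0,[(0,0)]⟩⟩,.e ⟨true,0,⟨0,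
  [(46,0)]⟩,⟨0,[]⟩⟩ ⟨true,1,⟨1,[(5,1),(24,3),(8,0),(0,1),(3,0)]⟩,⟨0,[(0,0),(12,0)]⟩⟩,.o ⟨false,(-1),
  ⟨0,[(0,0),(5,0),(35,1)]⟩,⟨1,[(30,1),(8,0),(3,2)]⟩⟩]⟩) (.R ⟨0,false,false,true,[1,-1,-1],[0,-1,1],
  [0,1],(⟨0,[(21,0)]⟩,⟨0,[(9,0),(26,0)]⟩),(⟨0,[(22,0)]⟩,⟨0,[(32,0),(1,0)]⟩),⟨0,[(9,0)]⟩,.k,.k,(.r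
  (-2) ⟨5,[(2,3),(2,1),(17,4),(0,4),(19,2)]⟩ ⟨0,[(1,0)]⟩),.k,.k,.k,⟨true,0,⟨0,[(12,0)]⟩,⟨4,[(0,1),
  (4,1),(0,0),(24,1),(12,0)]⟩⟩,⟨false,2,⟨4,[(0,2),(1,2),(7,2),(19,3),(8,0),(0,2),(3,2)]⟩,⟨0,[(4,1),
  (1,0),(1,0),(9,0),(20,0)]⟩⟩,⟨true,(-1),⟨4,[(1,2),(3,0),(1,0),(9,1),(21,0),(0,0)]⟩,⟨3,[(2,1),(20,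
  0),(0,0),(19,0)]⟩⟩,⟨false,1,⟨5,[(0,7),(9,3),(12,0),(0,0),(14,0)]⟩,⟨0,[(4,1),(3,1),(9,0),(20,0)]⟩⟩,
  ⟨false,0,⟨0,[]⟩,⟨0,[]⟩⟩,⟨false,0,⟨0,[]⟩,⟨0,[]⟩⟩,[.a ⟨true,0,⟨10,[(0,4),(1,0),(15,1),(9,7),(2,1),
  (7,0)]⟩,⟨0,[(4,0),(3,0)]⟩⟩ ⟨false,0,⟨14,[(2,0),(2,1),(11,1),(20,0),(0,0),(0,7)]⟩,⟨1,[(23,0),(0,0),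
  (19,0)]⟩⟩ ⟨true,1,⟨7,[(0,10),(1,2),(7,1),(0,0),(18,1),(8,2),(0,3)]⟩,⟨0,[(4,1),(1,0),(1,1),(9,0),
  (20,0)]⟩⟩,.e ⟨false,1,⟨3,[(2,0),(7,0),(9,0),(7,0),(14,0),(0,0)]⟩,⟨0,[]⟩⟩ ⟨false,2,⟨3,[(0,5),(1,1),
  (7,1),(28,0),(0,1),(2,0),(0,1)]⟩,⟨2,[(4,3),(3,2),(4,1),(3,2),(1,0),(19,2)]⟩⟩,.e ⟨true,0,⟨0,[(46,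
  0)]⟩,⟨0,[]⟩⟩ ⟨true,1,⟨7,[(0,10),(1,2),(7,1),(0,0),(18,1),(8,2),(0,3)]⟩,⟨2,[(4,3),(3,2),(4,1),(3,
  2),(1,0),(19,2)]⟩⟩,.o ⟨false,(-1),⟨0,[(4,0),(1,0),(1,0),(9,0),(20,0)]⟩,⟨3,[(0,1),(1,1),(7,1),(28,
  0),(0,1),(2,0),(0,1)]⟩⟩]⟩)) (.I [0,0,-2,0,2,-2,1] (.N [0,2,1] 1 ⟨0,[(3,0)]⟩ ⟨0,[(1,0)]⟩ (.x (-2)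
  ⟨0,[(0,0)]⟩ ⟨1,[(9,1),(3,1),(16,0),(0,0)]⟩)) (.R ⟨0,false,false,false,[0,-1,1],[1,-1],[1],(⟨0,
  [(22,0)]⟩,⟨0,[(32,0),(1,0)]⟩),(⟨0,[(36,0)]⟩,⟨0,[(37,0)]⟩),⟨5,[(0,15),(0,5),(3,5),(15,19),(8,15),
  (1,1),(6,10),(0,23),(3,14)]⟩,.k,.k,(.r (-1) ⟨16,[(1,4),(3,13),(4,1),(9,1),(7,5),(2,3),(12,9)]⟩
  ⟨25,[(8,13),(1,1),(4,13),(3,1),(0,1),(9,2),(0,0)]⟩),.k,.k,.k,⟨true,0,⟨12,[(8,0),(1,1),(4,0),(3,1),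
  (0,1),(9,2),(0,0)]⟩,⟨0,[(42,0)]⟩⟩,⟨false,0,⟨0,[(27,0)]⟩,⟨2,[(1,0),(8,0),(19,1),(8,0)]⟩⟩,⟨true,0,
  ⟨0,[(14,0)]⟩,⟨4,[(5,2),(10,0),(11,0),(2,0)]⟩⟩,⟨false,0,⟨29,[(0,3),(0,9),(2,17),(3,19),(4,7),(7,5),
  (0,1),(16,0),(4,4)]⟩,⟨1,[(28,1),(10,0),(4,0)]⟩⟩,⟨false,0,⟨0,[]⟩,⟨0,[]⟩⟩,⟨false,0,⟨0,[]⟩,⟨0,[]⟩⟩,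
  [.o ⟨false,0,⟨0,[(42,0)]⟩,⟨35,[(2,1),(7,11),(4,7),(4,5),(18,14),(3,1),(0,4)]⟩⟩,.a ⟨true,0,⟨0,[(17,
  0),(26,0)]⟩,⟨0,[(41,0)]⟩⟩ ⟨false,1,⟨1,[(43,0),(0,0)]⟩,⟨0,[(46,0)]⟩⟩ ⟨true,0,⟨7,[(0,3),(0,1),(2,3),
  (0,1),(15,5),(0,1),(16,0),(4,4)]⟩,⟨4,[(7,0),(7,0),(2,0),(0,0),(10,4),(7,0),(0,2)]⟩⟩,.a ⟨true,0,⟨0,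
  [(30,0)]⟩,⟨0,[(27,0)]⟩⟩ ⟨true,0,⟨0,[]⟩,⟨0,[(46,0)]⟩⟩ ⟨false,0,⟨7,[(0,3),(0,1),(2,3),(0,1),(15,5),
  (0,1),(16,0),(4,4)]⟩,⟨9,[(2,1),(5,1),(1,5),(19,6),(0,2),(7,1)]⟩⟩,.a ⟨true,0,⟨1,[(30,2),(0,0)]⟩,⟨0,
  [(4,0)]⟩⟩ ⟨false,1,⟨1,[(43,0),(0,0)]⟩,⟨1,[(30,0),(0,0)]⟩⟩ ⟨true,0,⟨39,[(0,3),(0,9),(2,27),(0,9),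
  (7,7),(7,5),(0,1),(16,0),(4,4)]⟩,⟨4,[(7,0),(7,0),(2,0),(0,0),(10,4),(7,0),(0,2)]⟩⟩]⟩))) (.Q [0,1,
  -1,0,1,0,2,1,0,-1,2] (.p true [0,0,1] [1,0,-1] (⟨0,[(31,0)]⟩,⟨0,[(30,0)]⟩) .k 2 (⟨0,[(30,0)]⟩,⟨0,
  [(31,0)]⟩) .k (.r 0 ⟨24,[(0,9),(2,13),(10,7),(11,7),(2,7),(12,9)]⟩ ⟨0,[(12,1),(27,1),(0,0)]⟩))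
  (.R ⟨0,false,false,true,[1,-1,-1],[0,0,1],[1,0,1],(⟨0,[(20,0)]⟩,⟨0,[(8,0),(26,0)]⟩),(⟨0,[(32,0)]⟩,
  ⟨0,[(31,0)]⟩),⟨0,[(8,0)]⟩,.k,.k,(.r (-2) ⟨1,[(0,0),(12,0),(3,0),(10,1),(12,2),(0,1),(0,1)]⟩ ⟨1,
  [(1,1),(5,1),(8,5),(21,2),(0,3),(3,2)]⟩),(.r (-2) ⟨1,[(0,0),(12,2),(3,0),(10,1),(12,2),(0,1),(0,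
  1)]⟩ ⟨1,[(1,0),(0,0),(1,0)]⟩),.k,.k,⟨false,1,⟨1,[(13,1),(27,1),(0,0),(0,0)]⟩,⟨21,[(1,0),(1,0),(0,
  8),(4,0),(5,9),(23,3)]⟩⟩,⟨true,2,⟨1,[(0,1),(12,1),(27,1),(0,0),(0,0)]⟩,⟨0,[(1,0),(1,1),(3,1),(8,
  1),(0,0),(20,1)]⟩⟩,⟨true,(-1),⟨0,[(5,0)]⟩,⟨1,[(13,1),(3,1),(20,0),(3,2)]⟩⟩,⟨false,1,⟨4,[(0,4),(0,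
  1),(8,0),(19,0),(12,1)]⟩,⟨0,[(3,1),(3,1),(9,0),(20,0),(2,0)]⟩⟩,⟨false,0,⟨0,[]⟩,⟨0,[]⟩⟩,⟨false,0,
  ⟨0,[]⟩,⟨0,[]⟩⟩,[.a ⟨true,0,⟨0,[(27,0)]⟩,⟨0,[(3,0),(3,0),(33,0)]⟩⟩ ⟨false,0,⟨0,[]⟩,⟨1,[(22,0),(0,
  0),(18,0)]⟩⟩ ⟨true,1,⟨0,[(0,0)]⟩,⟨2,[(1,0),(1,3),(3,4),(4,1),(4,2),(20,2),(2,0)]⟩⟩,.o ⟨false,1,
  ⟨12,[(0,8),(3,0),(0,2),(24,4),(7,1),(2,0),(1,4)]⟩,⟨0,[(3,0),(3,0),(8,0),(21,0)]⟩⟩,.e ⟨true,0,⟨1,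
  [(29,0),(0,0)]⟩,⟨5,[(17,1),(20,0),(0,3),(2,0)]⟩⟩ ⟨true,1,⟨0,[(0,0)]⟩,⟨0,[(3,0),(3,0),(4,0),(3,0),
  (21,0)]⟩⟩,.o ⟨false,(-1),⟨2,[(1,0),(1,0),(3,1),(4,1),(3,1),(0,0),(20,2)]⟩,⟨3,[(0,1),(12,1),(24,0),
  (2,1),(0,3),(0,0)]⟩⟩]⟩) (.R ⟨0,false,false,true,[1,-1,-1],[0,0,1],[1,0,1],(⟨0,[(20,0)]⟩,⟨0,[(8,0),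
  (26,0)]⟩),(⟨0,[(32,0)]⟩,⟨0,[(31,0)]⟩),⟨0,[(8,0)]⟩,.k,.k,(.r (-2) ⟨1,[(28,1),(0,1),(11,3),(0,2),(0,
  0)]⟩ ⟨0,[(0,3),(0,0),(2,2),(24,7),(8,1),(0,5),(3,1)]⟩),(.r (-2) ⟨1,[(13,1),(14,1),(0,1),(11,3),(0,
  2),(0,0)]⟩ ⟨1,[(1,0),(0,0),(1,0)]⟩),.k,.k,⟨false,1,⟨1,[(13,1),(27,1),(0,0),(0,0)]⟩,⟨21,[(1,0),(1,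
  0),(0,8),(4,0),(5,9),(23,3)]⟩⟩,⟨true,2,⟨1,[(29,3),(8,0),(3,2)]⟩,⟨3,[(0,3),(3,0),(0,1),(0,0),(9,1),
  (21,0)]⟩⟩,⟨true,(-1),⟨0,[(5,0)]⟩,⟨1,[(13,1),(3,1),(20,0),(3,2)]⟩⟩,⟨false,1,⟨6,[(1,1),(2,4),(4,4),
  (19,8),(8,0),(0,2),(3,2)]⟩,⟨0,[(0,0),(12,0),(27,1),(0,0)]⟩⟩,⟨false,0,⟨0,[]⟩,⟨0,[]⟩⟩,⟨false,0,⟨0,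
  []⟩,⟨0,[]⟩⟩,[.e ⟨false,0,⟨0,[]⟩,⟨1,[(22,0),(0,0),(18,0)]⟩⟩ ⟨false,2,⟨1,[(27,1),(1,1),(8,0),(3,
  2)]⟩,⟨0,[(0,0)]⟩⟩,.o ⟨false,1,⟨1,[(27,1),(10,0),(4,0)]⟩,⟨5,[(0,1),(2,1),(9,3),(3,1),(20,2),(3,
  0)]⟩⟩,.a ⟨true,(-1),⟨0,[(12,0)]⟩,⟨0,[(29,0),(12,0)]⟩⟩ ⟨true,0,⟨1,[(29,0),(0,0)]⟩,⟨5,[(17,1),(20,
  0),(0,3),(2,0)]⟩⟩ ⟨false,2,⟨1,[(27,1),(1,1),(8,0),(3,1),(0,0)]⟩,⟨0,[(0,0)]⟩⟩,.o ⟨false,(-1),⟨37,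
  [(0,14),(4,16),(1,1),(9,16),(0,4),(11,7),(7,15)]⟩,⟨1,[(29,1),(8,0),(3,2)]⟩⟩]⟩)))))

theorem ok10 : chk K t10 r14 = true := by decide +kernel

noncomputable def t13 : Tre :=
  (.Q [0,0,-2,0,1,0,1,0,0,0,1] (.p true [0,0,1] [] (⟨0,[(26,0)]⟩,⟨0,[(25,0)]⟩) .k 0 (⟨0,[]⟩,⟨0,[]⟩)
  .k .k) (.Q [0,-1,-1,-1,1,0,1,0,0,0,1] (.p true [0,0,1] [] (⟨0,[(27,0)]⟩,⟨0,[(26,0)]⟩) .k 0 (⟨0,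
  []⟩,⟨0,[]⟩) .k .k) (.R ⟨0,false,false,false,[1,-1,-1],[1,-1],[1],(⟨0,[(16,0)]⟩,⟨0,[(4,0),(26,
  0)]⟩),(⟨0,[(31,0)]⟩,⟨0,[(32,0)]⟩),⟨0,[(4,0)]⟩,.k,.k,(.r (-1) ⟨0,[(2,0),(38,0)]⟩ ⟨1,[(11,0),(2,0),
  (8,0),(2,0),(12,0)]⟩),.k,.k,.k,⟨true,0,⟨12,[(3,0),(1,1),(4,0),(3,1),(0,1),(9,2),(0,0)]⟩,⟨0,[(37,
  0)]⟩⟩,⟨false,1,⟨4,[(0,1),(0,1),(8,0),(7,0),(0,0),(3,0)]⟩,⟨1,[(8,0),(13,0),(11,0)]⟩⟩,⟨true,0,⟨3,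
  [(5,1),(2,3),(14,1),(10,0),(4,0)]⟩,⟨1,[(2,0),(6,0),(2,1),(21,0),(0,0)]⟩⟩,⟨false,1,⟨0,[(23,0),(15,
  0)]⟩,⟨2,[(2,1),(5,1),(5,0),(9,0),(9,0),(0,0)]⟩⟩,⟨false,0,⟨0,[]⟩,⟨0,[]⟩⟩,⟨false,0,⟨0,[]⟩,⟨0,[]⟩⟩,
  [.o ⟨false,0,⟨0,[(37,0)]⟩,⟨15,[(5,3),(4,3),(4,1),(2,0),(0,0),(14,6),(3,1),(0,1)]⟩⟩,.a ⟨true,0,⟨0,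
  [(12,0),(26,0)]⟩,⟨0,[(36,0)]⟩⟩ ⟨false,1,⟨1,[(38,0),(0,0)]⟩,⟨0,[(41,0)]⟩⟩ ⟨true,1,⟨0,[(0,0)]⟩,⟨10,
  [(8,8),(2,1),(1,2),(0,4),(9,1),(8,1),(0,5)]⟩⟩,.a ⟨true,(-1),⟨0,[(8,0)]⟩,⟨4,[(0,1),(0,1),(8,0),(7,
  0),(0,0),(3,0)]⟩⟩ ⟨true,0,⟨0,[]⟩,⟨0,[(41,0)]⟩⟩ ⟨false,1,⟨0,[(0,0)]⟩,⟨43,[(5,1),(4,1),(3,11),(0,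
  19),(10,5),(7,8),(4,0)]⟩⟩,.a ⟨true,(-1),⟨1,[(8,1),(16,0),(0,0)]⟩,⟨0,[(1,0)]⟩⟩ ⟨false,1,⟨1,[(38,0),
  (0,0)]⟩,⟨1,[(25,0),(0,0)]⟩⟩ ⟨true,1,⟨1,[(1,0),(0,0),(20,0)]⟩,⟨10,[(8,8),(2,1),(1,2),(0,4),(9,1),
  (8,1),(0,5)]⟩⟩]⟩) (.R ⟨0,false,false,false,[1,-1,-1],[1,-1],[1],(⟨0,[(16,0)]⟩,⟨0,[(4,0),(26,0)]⟩),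
  (⟨0,[(31,0)]⟩,⟨0,[(32,0)]⟩),⟨0,[(4,0)]⟩,.k,.k,(.r (-1) ⟨0,[(2,0),(38,0)]⟩ ⟨1,[(11,0),(2,0),(8,0),
  (2,0),(12,0)]⟩),.k,.k,.k,⟨true,0,⟨12,[(3,0),(1,1),(4,0),(3,1),(0,1),(9,2),(0,0)]⟩,⟨0,[(37,0)]⟩⟩,
  ⟨false,1,⟨2,[(1,1),(16,0),(0,0),(5,0)]⟩,⟨1,[(8,0),(13,0),(11,0)]⟩⟩,⟨true,0,⟨3,[(5,1),(2,3),(14,1),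
  (10,0),(4,0)]⟩,⟨1,[(2,0),(6,0),(2,1),(21,0),(0,0)]⟩⟩,⟨false,1,⟨0,[(23,0),(15,0)]⟩,⟨4,[(0,2),(1,2),
  (11,0),(9,1),(14,0)]⟩⟩,⟨false,0,⟨0,[]⟩,⟨0,[]⟩⟩,⟨false,0,⟨0,[]⟩,⟨0,[]⟩⟩,[.o ⟨false,0,⟨0,[(37,0)]⟩,
  ⟨15,[(5,3),(4,3),(4,1),(2,0),(0,0),(14,6),(3,1),(0,1)]⟩⟩,.e ⟨false,1,⟨1,[(38,0),(0,0)]⟩,⟨0,[(41,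
  0)]⟩⟩ ⟨false,2,⟨1,[(1,0),(0,0),(15,0),(0,0),(3,0),(15,0)]⟩,⟨0,[(0,0)]⟩⟩,.e ⟨true,0,⟨0,[]⟩,⟨0,[(41,
  0)]⟩⟩ ⟨true,1,⟨5,[(1,0),(0,2),(15,1),(0,1),(3,2),(1,1)]⟩,⟨0,[(0,0)]⟩⟩,.a ⟨true,(-1),⟨1,[(8,1),(16,
  0),(0,0)]⟩,⟨0,[(1,0)]⟩⟩ ⟨false,1,⟨1,[(38,0),(0,0)]⟩,⟨1,[(25,0),(0,0)]⟩⟩ ⟨true,1,⟨1,[(1,0),(0,0),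
  (20,0)]⟩,⟨14,[(0,7),(12,3),(0,4),(11,6),(7,1),(6,2)]⟩⟩]⟩)) (.R ⟨0,false,false,false,[1,-1,-1],[1,
  -1],[0,0,-1,-2,0,0,0,-1],(⟨0,[(15,0)]⟩,⟨0,[(3,0),(26,0)]⟩),(⟨0,[(30,0)]⟩,⟨0,[(31,0)]⟩),⟨0,[(3,
  0)]⟩,.k,.k,(.r (-1) ⟨0,[(1,0),(38,0)]⟩ ⟨1,[(10,0),(2,0),(8,0),(2,0),(12,0)]⟩),.k,.k,.k,⟨true,0,⟨2,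
  [(1,1),(6,0),(2,0),(0,0),(0,0),(19,0)]⟩,⟨1,[(0,0),(4,0),(4,0),(27,0)]⟩⟩,⟨false,1,⟨0,[(24,0),(12,
  0)]⟩,⟨2,[(0,0),(20,1),(11,0)]⟩⟩,⟨true,0,⟨0,[(36,0)]⟩,⟨6,[(9,1),(0,1),(21,0),(1,0)]⟩⟩,⟨false,1,⟨0,
  [(22,0),(15,0)]⟩,⟨8,[(0,3),(0,5),(11,2),(7,1),(1,2),(9,0),(0,2)]⟩⟩,⟨false,0,⟨0,[]⟩,⟨0,[]⟩⟩,⟨false,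
  0,⟨0,[]⟩,⟨0,[]⟩⟩,[.o ⟨false,0,⟨0,[(36,0)]⟩,⟨15,[(4,3),(4,3),(4,1),(2,0),(0,0),(14,6),(3,1),(0,
  1)]⟩⟩,.e ⟨false,1,⟨0,[(1,0)]⟩,⟨10,[(4,1),(0,5),(3,0),(0,3),(2,1),(0,1),(10,3)]⟩⟩ ⟨false,2,⟨1,[(1,
  1),(3,1),(11,0),(0,0),(19,0)]⟩,⟨0,[(0,0),(33,0)]⟩⟩,.a ⟨true,(-1),⟨0,[(7,0)]⟩,⟨0,[(24,0),(12,0)]⟩⟩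
  ⟨false,1,⟨1,[(1,1),(22,0),(0,0)]⟩,⟨0,[(4,0),(2,0)]⟩⟩ ⟨true,1,⟨2,[(1,1),(3,0),(11,0),(0,0),(3,0),
  (1,0)]⟩,⟨0,[(0,0),(33,0)]⟩⟩,.o ⟨false,(-1),⟨0,[(0,0)]⟩,⟨13,[(1,11),(2,11),(12,2),(0,2),(5,1),(7,
  5),(0,0)]⟩⟩]⟩))

theorem ok13 : chk K t13 r12 = true := by decide +kernel

noncomputable def t15 : Tre :=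
  (.Q [0,1,0,0,-1,0,-1,-1,0,1,-1] (.p false [0,0,1] [1] (⟨0,[(25,0)]⟩,⟨0,[(24,0)]⟩) .k 1 (⟨0,[]⟩,⟨0,
  []⟩) .k .k) (.Q [0,-1,0,-1,1,0,1,1,0,-1,1] (.p true [0,0,1] [1] (⟨0,[(26,0)]⟩,⟨0,[(25,0)]⟩) .k 1
  (⟨0,[]⟩,⟨0,[]⟩) .k .k) (.R ⟨2,true,false,true,[0,1],[1,1,-1],[0,1,1],(⟨0,[]⟩,⟨0,[]⟩),(⟨0,[(26,0),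
  (1,0)]⟩,⟨0,[(16,0)]⟩),⟨0,[]⟩,.k,.k,.k,.k,.k,.k,⟨true,0,⟨6,[(0,3),(1,1),(4,2),(2,0),(1,0),(12,0)]⟩,
  ⟨0,[(8,0)]⟩⟩,⟨false,0,⟨0,[(21,0)]⟩,⟨1,[(24,1),(8,0),(3,0)]⟩⟩,⟨false,0,⟨0,[(36,0)]⟩,⟨6,[(4,0),(0,
  0),(3,1),(4,0),(22,0),(0,4)]⟩⟩,⟨true,(-1),⟨0,[(1,0)]⟩,⟨2,[(0,1),(3,0),(35,1)]⟩⟩,⟨true,0,⟨0,[(40,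
  0)]⟩,⟨0,[]⟩⟩,⟨false,0,⟨0,[(8,0),(12,0)]⟩,⟨0,[(0,0)]⟩⟩,[]⟩) (.I [0,0,-2,-2,1,0,0,-1] (.Q [0,1,-1,0,
  -1,0,-2,-1,0,1,-2] (.p false [0,0,1] [1,0,-1] (⟨0,[(28,0)]⟩,⟨0,[(27,0)]⟩) .k 2 (⟨0,[(27,0)]⟩,⟨0,
  [(28,0)]⟩) .k (.r 0 ⟨2,[(3,3),(4,1),(5,1),(8,1),(10,0),(2,1),(1,2)]⟩ ⟨4,[(0,3),(8,3),(0,1),(14,0),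
  (0,0),(12,0)]⟩)) (.Q [0,0,2,0,-1,0,-1,0,0,0,-1] (.p false [0,0,1] [] (⟨0,[(29,0)]⟩,⟨0,[(28,0)]⟩)
  .k 0 (⟨0,[]⟩,⟨0,[]⟩) .k .k) (.R ⟨0,false,false,false,[1,-1,-1],[0,-1,1],[],(⟨0,[(18,0)]⟩,⟨0,[(6,
  0),(26,0)]⟩),(⟨0,[(19,0)]⟩,⟨0,[(29,0),(1,0)]⟩),⟨0,[(6,0)]⟩,.k,.k,(.r (-1) ⟨0,[(2,0)]⟩ ⟨1,[(13,0),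
  (2,0),(8,0),(2,0),(12,0)]⟩),.k,.k,.k,⟨true,0,⟨0,[(9,0)]⟩,⟨1,[(0,0),(4,0),(19,0),(13,0),(1,0)]⟩⟩,
  ⟨false,2,⟨0,[(2,0),(4,0),(19,0)]⟩,⟨4,[(0,1),(0,2),(3,2),(4,1),(5,0),(24,2)]⟩⟩,⟨false,0,⟨2,[(0,0),
  (4,2),(10,1),(10,0),(13,2)]⟩,⟨7,[(2,5),(9,1),(7,0),(0,0),(5,0),(0,0),(12,0)]⟩⟩,⟨true,1,⟨11,[(0,3),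
  (4,17),(1,5),(8,1),(10,21),(8,2),(4,8)]⟩,⟨2,[(0,0),(0,1),(0,0),(1,0),(6,1)]⟩⟩,⟨false,0,⟨0,[]⟩,⟨0,
  []⟩⟩,⟨false,0,⟨0,[]⟩,⟨0,[]⟩⟩,[.o ⟨false,1,⟨1,[(25,1),(10,0),(2,1),(1,0)]⟩,⟨1,[(3,1),(32,0),(4,
  0)]⟩⟩,.a ⟨true,1,⟨0,[(25,0),(13,0),(1,0)]⟩,⟨0,[(3,0)]⟩⟩ ⟨false,1,⟨1,[(40,0),(0,0)]⟩,⟨0,[(43,0)]⟩⟩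
  ⟨true,2,⟨2,[(2,0),(2,2),(1,0),(19,4),(8,0),(4,2)]⟩,⟨0,[(0,0),(2,0)]⟩⟩,.e ⟨false,1,⟨1,[(20,0),(0,
  0),(19,0)]⟩,⟨0,[]⟩⟩ ⟨false,2,⟨2,[(2,0),(2,2),(1,0),(19,4),(8,0),(4,2)]⟩,⟨8,[(0,1),(0,5),(8,1),(0,
  2),(4,1),(0,0),(23,2)]⟩⟩,.o ⟨false,(-1),⟨0,[(0,0)]⟩,⟨0,[(2,0),(4,0)]⟩⟩]⟩) (.R ⟨0,false,false,
  false,[1,-1,-1],[0,-1,1],[1],(⟨0,[(18,0)]⟩,⟨0,[(6,0),(26,0)]⟩),(⟨0,[(19,0)]⟩,⟨0,[(29,0),(1,0)]⟩),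
  ⟨0,[(6,0)]⟩,.k,.k,(.r (-1) ⟨0,[(2,0)]⟩ ⟨1,[(13,0),(2,0),(8,0),(2,0),(12,0)]⟩),.k,.k,.k,⟨true,0,⟨0,
  [(11,0)]⟩,⟨5,[(5,3),(4,1),(5,1),(8,1),(10,0),(2,7),(1,2)]⟩⟩,⟨false,2,⟨0,[(2,0),(4,0),(19,0)]⟩,⟨0,
  [(1,0),(3,0),(10,0),(22,1),(1,0)]⟩⟩,⟨false,0,⟨0,[(5,0),(10,0),(22,0),(1,0)]⟩,⟨7,[(2,5),(9,1),(7,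
  0),(0,0),(5,0),(0,0),(12,0)]⟩⟩,⟨true,1,⟨1,[(5,2),(10,0),(8,0),(1,2),(8,0),(4,1)]⟩,⟨0,[(1,0),(9,0),
  (27,0)]⟩⟩,⟨false,0,⟨0,[]⟩,⟨0,[]⟩⟩,⟨false,0,⟨0,[]⟩,⟨0,[]⟩⟩,[.o ⟨false,1,⟨1,[(25,1),(10,0),(2,1),(1,
  0)]⟩,⟨1,[(3,1),(32,0),(4,0)]⟩⟩,.a ⟨true,1,⟨0,[(25,0),(13,0),(1,0)]⟩,⟨0,[(3,0)]⟩⟩ ⟨false,1,⟨1,[(40,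
  0),(0,0)]⟩,⟨0,[(43,0)]⟩⟩ ⟨true,2,⟨13,[(0,3),(1,1),(2,9),(19,5),(1,17),(8,6),(4,14)]⟩,⟨0,[(1,0),
  (14,0),(22,1)]⟩⟩,.a ⟨true,(-1),⟨0,[(10,0)]⟩,⟨2,[(0,1),(19,0),(0,0),(5,0)]⟩⟩ ⟨true,0,⟨0,[]⟩,⟨0,
  [(43,0)]⟩⟩ ⟨false,2,⟨13,[(0,3),(1,1),(2,9),(19,5),(1,17),(8,6),(4,14)]⟩,⟨8,[(1,5),(8,4),(0,2),(4,
  1),(11,0),(7,0),(4,2)]⟩⟩,.a ⟨true,(-1),⟨1,[(10,1),(16,0),(0,0)]⟩,⟨0,[(0,0)]⟩⟩ ⟨false,1,⟨1,[(40,0),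
  (0,0)]⟩,⟨1,[(27,0),(0,0)]⟩⟩ ⟨true,2,⟨13,[(0,7),(1,3),(2,5),(19,11),(1,7),(8,6),(4,8)]⟩,⟨0,[(1,0),
  (14,0),(22,1)]⟩⟩]⟩)) (.Q [0,0,2,0,-1,0,-1,0,0,0,-1] (.p false [0,0,1] [] (⟨0,[(29,0)]⟩,⟨0,[(28,
  0)]⟩) .k 0 (⟨0,[]⟩,⟨0,[]⟩) .k .k) (.R ⟨0,false,false,false,[1,-1,-1],[0,-1,1],[],(⟨0,[(18,0)]⟩,⟨0,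
  [(6,0),(26,0)]⟩),(⟨0,[(19,0)]⟩,⟨0,[(29,0),(1,0)]⟩),⟨0,[(6,0)]⟩,.k,.k,(.r (-1) ⟨0,[(2,0)]⟩ ⟨1,[(1,
  0),(11,0),(2,0),(0,0)]⟩),.k,.k,.k,⟨true,0,⟨0,[(9,0)]⟩,⟨4,[(0,1),(0,1),(3,2),(9,0),(1,0),(23,0)]⟩⟩,
  ⟨false,2,⟨4,[(1,3),(0,3),(4,0),(0,0),(3,1),(24,0),(2,0)]⟩,⟨0,[(0,0),(2,0),(1,0),(35,0)]⟩⟩,⟨false,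
  0,⟨4,[(0,0),(0,0),(3,3),(4,0),(5,2),(24,3)]⟩,⟨4,[(1,0),(0,3),(8,0),(0,0),(4,0)]⟩⟩,⟨true,1,⟨1,[(1,
  1),(3,0),(7,0)]⟩,⟨1,[(4,3),(31,0),(4,0)]⟩⟩,⟨false,0,⟨0,[]⟩,⟨0,[]⟩⟩,⟨false,0,⟨0,[]⟩,⟨0,[]⟩⟩,[.o
  ⟨false,1,⟨40,[(1,26),(0,8),(2,14),(9,3),(9,7),(2,20),(7,8)]⟩,⟨1,[(3,1),(32,0),(4,0)]⟩⟩,.a ⟨true,1,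
  ⟨28,[(1,26),(0,2),(2,4),(9,8),(1,6),(6,10),(16,7)]⟩,⟨0,[(3,0)]⟩⟩ ⟨false,1,⟨1,[(40,0),(0,0)]⟩,⟨0,
  [(43,0)]⟩⟩ ⟨true,2,⟨15,[(1,17),(0,5),(2,3),(11,1),(22,6),(0,0)]⟩,⟨0,[(0,0),(2,0)]⟩⟩,.e ⟨false,1,
  ⟨1,[(20,0),(0,0),(19,0)]⟩,⟨0,[]⟩⟩ ⟨false,2,⟨15,[(1,17),(0,5),(2,3),(11,1),(22,6),(0,0)]⟩,⟨5,[(0,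
  3),(2,5),(20,1),(11,0),(4,2)]⟩⟩,.o ⟨false,(-1),⟨0,[(0,0)]⟩,⟨0,[(2,0),(4,0)]⟩⟩]⟩) (.Q [0,-1,2,0,-1,
  0,-2,-1,0,1,-2] (.p false [0,0,1] [1,0,-1] (⟨0,[(30,0)]⟩,⟨0,[(29,0)]⟩) .k 2 (⟨0,[(29,0)]⟩,⟨0,[(30,
  0)]⟩) .k (.r 0 ⟨1,[(1,0),(3,2),(4,0),(5,0),(11,0),(12,0)]⟩ ⟨4,[(1,0),(0,3),(8,5),(0,0),(4,0)]⟩))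
  (.R ⟨0,false,false,true,[1,-1,-1],[0,0,1],[1,1,0,0,0,0,0,1],(⟨0,[(19,0)]⟩,⟨0,[(7,0),(26,0)]⟩),(⟨0,
  [(31,0)]⟩,⟨0,[(30,0)]⟩),⟨0,[(7,0)]⟩,.k,.k,(.r (-1) ⟨0,[(3,0)]⟩ ⟨1,[(2,0),(11,0),(2,0),(0,0)]⟩),
  (.r (-1) ⟨0,[(3,0),(8,0)]⟩ ⟨2,[(0,1),(1,1),(3,2),(7,2),(2,0),(24,0)]⟩),.k,.k,⟨true,0,⟨0,[]⟩,⟨1,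
  [(28,0),(0,0)]⟩⟩,⟨false,2,⟨9,[(1,10),(0,3),(0,1),(9,1),(14,0),(7,0),(0,2)]⟩,⟨1,[(0,1),(5,0),(7,
  0)]⟩⟩,⟨true,(-1),⟨5,[(2,2),(3,8),(4,4),(5,4),(11,0),(7,0)]⟩,⟨0,[(3,0),(8,0)]⟩⟩,⟨false,1,⟨11,[(2,
  7),(3,6),(1,3),(0,3),(4,0),(2,1),(24,1)]⟩,⟨7,[(0,5),(2,5),(0,3),(32,0),(4,2)]⟩⟩,⟨false,0,⟨0,[]⟩,
  ⟨0,[]⟩⟩,⟨false,0,⟨0,[]⟩,⟨0,[]⟩⟩,[.a ⟨true,0,⟨0,[(26,0)]⟩,⟨4,[(0,0),(2,0),(0,2),(10,0),(26,3)]⟩⟩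
  ⟨false,0,⟨1,[(6,0),(7,0)]⟩,⟨9,[(2,0),(0,3),(8,5),(0,0),(4,0),(23,4)]⟩⟩ ⟨true,1,⟨2,[(1,1),(0,0),(6,
  1),(5,1),(21,1)]⟩,⟨0,[(0,0)]⟩⟩,.o ⟨false,1,⟨23,[(2,13),(0,3),(2,2),(7,10),(3,1),(18,5)]⟩,⟨7,[(0,
  1),(2,1),(0,3),(32,2),(4,0)]⟩⟩,.a ⟨true,(-1),⟨0,[(11,0)]⟩,⟨2,[(1,1),(19,0),(0,0),(5,0)]⟩⟩ ⟨false,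
  0,⟨11,[(0,3),(1,3),(3,8),(7,2),(2,1),(24,1)]⟩,⟨9,[(2,0),(0,3),(8,5),(0,0),(4,0),(23,4)]⟩⟩ ⟨true,1,
  ⟨2,[(1,1),(0,0),(6,1),(5,1),(21,1)]⟩,⟨3,[(0,2),(3,0),(1,0),(20,0)]⟩⟩,.a ⟨true,(-1),⟨12,[(0,2),(1,
  2),(8,2),(4,5),(0,3),(0,3),(10,1)]⟩,⟨0,[(1,0)]⟩⟩ ⟨true,0,⟨1,[(6,0),(7,0)]⟩,⟨5,[(0,0),(2,0),(8,3),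
  (3,0),(11,1),(8,0)]⟩⟩ ⟨false,2,⟨8,[(1,2),(0,5),(0,1),(2,1),(1,2),(27,1),(4,3)]⟩,⟨0,[(0,0)]⟩⟩]⟩)
  (.R ⟨0,false,false,true,[1,-1,-1],[0,0,1],[1,1,0,0,0,0,0,1],(⟨0,[(19,0)]⟩,⟨0,[(7,0),(26,0)]⟩),(⟨0,
  [(31,0)]⟩,⟨0,[(30,0)]⟩),⟨0,[(7,0)]⟩,.k,.k,(.r (-1) ⟨0,[(3,0)]⟩ ⟨1,[(2,0),(11,0),(2,0),(0,0)]⟩),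
  (.r (-1) ⟨0,[(3,0),(8,0)]⟩ ⟨1,[(2,0),(3,1),(4,0),(2,0),(2,0),(11,0),(12,0)]⟩),.k,.k,⟨true,0,⟨0,
  []⟩,⟨1,[(28,0),(0,0)]⟩⟩,⟨false,2,⟨14,[(0,1),(0,12),(0,5),(0,4),(4,0),(4,3),(23,2)]⟩,⟨1,[(11,2),
  (13,0),(11,0)]⟩⟩,⟨true,(-1),⟨5,[(2,2),(3,8),(4,4),(5,4),(11,0),(7,0)]⟩,⟨0,[(3,0),(8,0)]⟩⟩,⟨false,
  1,⟨11,[(2,7),(3,6),(1,3),(0,3),(4,0),(2,1),(24,1)]⟩,⟨1,[(5,3),(31,0),(2,1),(1,2)]⟩⟩,⟨false,0,⟨0,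
  []⟩,⟨0,[]⟩⟩,⟨false,0,⟨0,[]⟩,⟨0,[]⟩⟩,[.e ⟨false,0,⟨1,[(6,0),(7,0)]⟩,⟨9,[(2,0),(0,3),(8,5),(0,0),(4,
  0),(23,4)]⟩⟩ ⟨false,1,⟨0,[(0,0)]⟩,⟨0,[(5,0),(23,0),(12,0)]⟩⟩,.o ⟨false,1,⟨19,[(0,3),(1,9),(3,0),
  (7,0),(3,5),(7,3),(10,5)]⟩,⟨1,[(5,1),(31,0),(4,0)]⟩⟩,.a ⟨true,(-1),⟨0,[(11,0)]⟩,⟨2,[(1,1),(19,0),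
  (0,0),(5,0)]⟩⟩ ⟨false,0,⟨3,[(2,0),(3,2),(4,0),(5,0),(11,0),(12,0)]⟩,⟨9,[(2,0),(0,3),(8,5),(0,0),
  (4,0),(23,4)]⟩⟩ ⟨true,1,⟨1,[(0,0),(1,0),(33,0)]⟩,⟨1,[(5,1),(5,1),(25,0),(4,0)]⟩⟩,.e ⟨true,0,⟨1,
  [(6,0),(7,0)]⟩,⟨0,[(12,0),(27,0)]⟩⟩ ⟨true,1,⟨0,[(0,0)]⟩,⟨2,[(3,0),(7,4),(0,1),(16,0),(7,
  0)]⟩⟩]⟩)))) (.I [0,0,2,2,-1,0,0,1] (.R ⟨0,false,false,false,[1,-1,-1],[0,-1,1],[],(⟨0,[(17,0)]⟩,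
  ⟨0,[(5,0),(26,0)]⟩),(⟨0,[(18,0)]⟩,⟨0,[(28,0),(1,0)]⟩),⟨0,[(5,0)]⟩,.k,.k,(.r (-2) ⟨1,[(25,1),(0,1),
  (11,3),(0,2),(0,0)]⟩ ⟨0,[(0,0)]⟩),.k,.k,.k,⟨true,0,⟨0,[(8,0)]⟩,⟨8,[(0,2),(3,3),(19,1),(2,1),(10,
  10),(1,2)]⟩⟩,⟨false,2,⟨1,[(26,3),(8,0),(3,2)]⟩,⟨1,[(0,1),(2,3),(0,1),(30,0),(2,1),(1,2)]⟩⟩,⟨false,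
  0,⟨8,[(0,5),(3,1),(19,0),(2,0),(10,0),(1,5)]⟩,⟨0,[(10,0),(27,1),(0,0)]⟩⟩,⟨true,1,⟨11,[(0,3),(3,
  11),(1,1),(17,5),(1,15),(8,4),(4,8)]⟩,⟨1,[(3,3),(31,0),(4,0)]⟩⟩,⟨false,0,⟨0,[]⟩,⟨0,[]⟩⟩,⟨false,0,
  ⟨0,[]⟩,⟨0,[]⟩⟩,[.o ⟨false,1,⟨1,[(24,1),(10,0),(2,1),(1,0)]⟩,⟨1,[(2,1),(32,0),(4,0)]⟩⟩,.a ⟨true,1,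
  ⟨0,[(24,0),(13,0),(1,0)]⟩,⟨0,[(2,0)]⟩⟩ ⟨false,1,⟨1,[(39,0),(0,0)]⟩,⟨0,[(42,0)]⟩⟩ ⟨true,2,⟨1,[(4,
  1),(21,3),(8,0),(3,0),(0,1)]⟩,⟨1,[(0,1),(2,3),(31,0),(2,1),(1,0)]⟩⟩,.e ⟨false,1,⟨1,[(19,0),(0,0),
  (19,0)]⟩,⟨0,[]⟩⟩ ⟨false,2,⟨1,[(4,1),(21,3),(8,0),(3,0),(0,1)]⟩,⟨1,[(2,1),(6,1),(25,0),(4,0)]⟩⟩,.o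
  ⟨false,(-1),⟨1,[(0,1),(2,1),(31,0),(2,3),(1,0)]⟩,⟨1,[(26,1),(8,0),(3,2)]⟩⟩]⟩) (.I [0,0,-2,0,2,-2,
  1] (.N [0,2,1] 1 ⟨0,[(2,0)]⟩ ⟨0,[(1,0)]⟩ (.x (-2) ⟨0,[(0,0)]⟩ ⟨1,[(6,1),(3,1),(16,0),(0,0)]⟩))
  (.R ⟨0,false,false,true,[0,-1,1],[1,-1],[1,1],(⟨0,[(19,0)]⟩,⟨0,[(29,0),(1,0)]⟩),(⟨0,[(33,0)]⟩,⟨0,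
  [(34,0)]⟩),⟨2,[(0,6),(0,2),(3,2),(12,7),(8,6),(1,1),(6,4),(0,8),(3,5)]⟩,.k,.k,(.r (-1) ⟨8,[(1,2),
  (3,7),(19,3),(2,3),(10,3),(1,5)]⟩ ⟨4,[(11,2),(0,1),(3,0),(10,0),(0,0),(12,0)]⟩),.k,.k,.k,⟨true,0,
  ⟨16,[(7,1),(4,1),(3,2),(0,1),(9,3),(0,1),(12,0)]⟩,⟨0,[(39,0)]⟩⟩,⟨false,0,⟨0,[(24,0)]⟩,⟨2,[(1,0),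
  (5,0),(19,1),(8,0)]⟩⟩,⟨false,0,⟨0,[(11,0)]⟩,⟨2,[(5,1),(19,0),(2,0),(10,0),(1,2)]⟩⟩,⟨true,(-1),⟨0,
  [(4,0)]⟩,⟨1,[(25,1),(10,0),(4,0)]⟩⟩,⟨false,0,⟨0,[]⟩,⟨0,[]⟩⟩,⟨false,0,⟨0,[]⟩,⟨0,[]⟩⟩,[.a ⟨true,
  (-1),⟨0,[(14,0)]⟩,⟨6,[(7,0),(0,0),(3,1),(4,0),(22,0),(0,4)]⟩⟩ ⟨false,0,⟨9,[(1,0),(3,0),(8,1),(20,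
  0),(0,0),(0,4)]⟩,⟨1,[(20,0),(0,0),(19,0)]⟩⟩ ⟨true,(-1),⟨7,[(0,3),(0,1),(1,1),(0,1),(0,5),(12,5),
  (0,1),(16,0),(4,0)]⟩,⟨6,[(7,0),(4,0),(3,0),(10,7),(0,1),(7,2),(4,3)]⟩⟩,.o ⟨false,0,⟨0,[(39,0)]⟩,
  ⟨23,[(1,1),(5,7),(4,5),(4,3),(18,9),(3,0),(0,2)]⟩⟩,.a ⟨true,0,⟨0,[(27,0)]⟩,⟨0,[(24,0)]⟩⟩ ⟨false,0,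
  ⟨0,[]⟩,⟨1,[(20,0),(0,0),(19,0)]⟩⟩ ⟨true,(-1),⟨7,[(0,3),(0,1),(1,1),(0,1),(0,5),(12,5),(0,1),(16,
  0),(4,0)]⟩,⟨7,[(7,1),(4,1),(7,1),(0,1),(5,5),(8,2),(4,0)]⟩⟩,.a ⟨true,0,⟨1,[(27,2),(0,0)]⟩,⟨0,[(3,
  0),(1,0),(35,0)]⟩⟩ ⟨true,0,⟨9,[(1,0),(3,0),(8,1),(20,0),(0,0),(0,4)]⟩,⟨1,[(27,0),(0,0)]⟩⟩ ⟨false,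
  0,⟨0,[(4,0),(0,0),(35,0)]⟩,⟨6,[(7,0),(4,0),(3,0),(10,7),(0,1),(7,2),(4,3)]⟩⟩]⟩))))) (.Q [0,1,0,-1,
  -1,0,-1,-1,0,1,-1] (.p false [0,0,1] [1] (⟨0,[(26,0)]⟩,⟨0,[(25,0)]⟩) .k 1 (⟨0,[]⟩,⟨0,[]⟩) .k .k)
  (.R ⟨2,true,false,true,[0,1],[1,0,-1],[0,1,1],(⟨0,[]⟩,⟨0,[]⟩),(⟨0,[(26,0)]⟩,⟨0,[(27,0)]⟩),⟨0,[]⟩,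
  .k,.k,.k,.k,.k,.k,⟨false,0,⟨3,[(1,1),(0,0),(4,1),(2,0)]⟩,⟨3,[(0,1),(7,1),(15,1),(8,0),(3,3),(0,
  0)]⟩⟩,⟨true,(-1),⟨0,[(7,0)]⟩,⟨1,[(24,1),(8,0),(3,0)]⟩⟩,⟨false,0,⟨0,[(36,0)]⟩,⟨6,[(4,0),(0,0),(3,
  1),(4,0),(22,0),(0,4)]⟩⟩,⟨true,(-1),⟨0,[(0,0)]⟩,⟨7,[(1,1),(2,3),(12,0),(0,0),(3,1),(10,0)]⟩⟩,
  ⟨true,0,⟨0,[(40,0)]⟩,⟨0,[]⟩⟩,⟨false,0,⟨5,[(0,3),(8,1),(4,0),(13,0),(1,0),(6,0),(0,2)]⟩,⟨0,[(1,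
  0)]⟩⟩,[]⟩) (.Q [0,0,0,0,0,2,0,0,0,0,-1] (.p false [0,0,1] [] (⟨0,[(27,0)]⟩,⟨0,[(26,0)]⟩) .k 0 (⟨0,
  []⟩,⟨0,[]⟩) .k .k) (.Q [0,0,0,1,0,0,1,1,0,0,1] (.p true [0,0,1] [] (⟨0,[(28,0)]⟩,⟨0,[(27,0)]⟩) .k
  0 (⟨0,[]⟩,⟨0,[]⟩) .k .k) (.Q [0,0,2,0,0,0,1,0,0,-1,1] (.p true [0,0,1] [1] (⟨0,[(29,0)]⟩,⟨0,[(28,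
  0)]⟩) .k 1 (⟨0,[]⟩,⟨0,[]⟩) .k .k) (.R ⟨0,false,false,false,[0,-1,1],[1,-1],[0,0,-1,-1,0,0,0,1],
  (⟨0,[(19,0)]⟩,⟨0,[(2,0),(30,0)]⟩),(⟨0,[(33,0)]⟩,⟨0,[(34,0)]⟩),⟨0,[(2,0)]⟩,.k,.k,(.r (-1) ⟨2,[(4,
  1),(0,0),(9,0),(1,0),(21,2),(0,1)]⟩ ⟨4,[(11,2),(0,1),(3,0),(10,0),(0,0),(12,0)]⟩),.k,.k,.k,⟨true,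
  0,⟨3,[(4,1),(0,0),(4,1),(2,0)]⟩,⟨0,[(11,0),(27,0)]⟩⟩,⟨false,0,⟨0,[(24,0)]⟩,⟨1,[(27,1),(8,0),(3,
  0)]⟩⟩,⟨false,1,⟨1,[(20,0),(0,0),(19,0)]⟩,⟨0,[]⟩⟩,⟨true,0,⟨2,[(11,1),(3,0),(8,1),(1,0),(14,0)]⟩,⟨0,
  [(1,0),(12,0),(21,0)]⟩⟩,⟨false,0,⟨0,[]⟩,⟨0,[]⟩⟩,⟨false,0,⟨0,[]⟩,⟨0,[]⟩⟩,[.o ⟨false,0,⟨0,[(39,0)]⟩,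
  ⟨15,[(7,3),(4,3),(4,1),(2,0),(0,0),(14,6),(3,1),(0,1)]⟩⟩,.e ⟨false,1,⟨0,[(5,0),(35,0)]⟩,⟨1,[(12,
  0),(13,0),(0,0)]⟩⟩ ⟨false,1,⟨1,[(24,1),(14,1),(0,0),(0,0)]⟩,⟨0,[(0,0),(36,0)]⟩⟩,.a ⟨true,0,⟨0,
  [(27,0)]⟩,⟨0,[(24,0)]⟩⟩ ⟨false,1,⟨5,[(4,3),(0,1),(9,1),(1,1),(22,0),(0,2)]⟩,⟨0,[(11,0)]⟩⟩ ⟨true,0,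
  ⟨0,[(24,0),(14,0)]⟩,⟨0,[(0,0),(36,0)]⟩⟩,.o ⟨false,0,⟨0,[(0,0)]⟩,⟨1,[(24,1),(11,0),(3,0)]⟩⟩]⟩) (.I
  [1,0,2,2,-1,0,0,1] (.I [0,0,-2,0,2,-2,1] (.Q [0,0,2,0,-1,0,-1,0,0,0,-1] (.p false [0,0,1] [] (⟨0,
  [(32,0)]⟩,⟨0,[(31,0)]⟩) .k 0 (⟨0,[]⟩,⟨0,[]⟩) .k .k) (.R ⟨0,false,false,false,[1,-1,-1],[1,-1],[],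
  (⟨0,[(21,0)]⟩,⟨0,[(9,0),(26,0)]⟩),(⟨0,[(36,0)]⟩,⟨0,[(37,0)]⟩),⟨0,[(9,0)]⟩,.k,.k,(.x 1 ⟨1,[(9,1),
  (3,1),(16,0),(0,0)]⟩ ⟨0,[(1,0)]⟩),.k,.k,.k,⟨true,0,⟨16,[(10,1),(4,1),(3,2),(0,1),(9,3),(0,1),(12,
  0)]⟩,⟨0,[(42,0)]⟩⟩,⟨false,1,⟨0,[(30,0),(12,0)]⟩,⟨3,[(0,0),(2,0),(16,0),(18,0)]⟩⟩,⟨false,0,⟨9,[(2,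
  4),(1,0),(2,2),(0,0),(4,1),(6,0),(23,3)]⟩,⟨0,[(14,0),(27,1),(0,0)]⟩⟩,⟨true,0,⟨2,[(4,1),(2,0),(10,
  0)]⟩,⟨0,[(29,0)]⟩⟩,⟨false,0,⟨0,[]⟩,⟨0,[]⟩⟩,⟨false,0,⟨0,[]⟩,⟨0,[]⟩⟩,[.o ⟨false,0,⟨0,[(42,0)]⟩,⟨23,
  [(1,1),(7,1),(0,5),(4,5),(4,3),(18,9),(3,0),(0,2)]⟩⟩,.e ⟨false,1,⟨1,[(43,0),(0,0)]⟩,⟨0,[(46,0)]⟩⟩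
  ⟨false,2,⟨3,[(1,1),(7,1),(8,1),(11,1),(12,2),(0,2)]⟩,⟨0,[(0,0),(39,0)]⟩⟩,.a ⟨true,(-1),⟨0,[(13,
  0)]⟩,⟨0,[(30,0),(12,0)]⟩⟩ ⟨false,1,⟨1,[(23,0),(0,0),(19,0)]⟩,⟨0,[]⟩⟩ ⟨true,1,⟨3,[(1,1),(7,1),(8,
  1),(11,1),(12,0),(0,0)]⟩,⟨0,[(0,0),(39,0)]⟩⟩,.o ⟨false,(-1),⟨0,[(0,0)]⟩,⟨0,[(1,0),(7,0)]⟩⟩]⟩) (.R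
  ⟨0,false,false,false,[1,-1,-1],[1,-1],[0,0,0,-1],(⟨0,[(21,0)]⟩,⟨0,[(9,0),(26,0)]⟩),(⟨0,[(36,0)]⟩,
  ⟨0,[(37,0)]⟩),⟨0,[(9,0)]⟩,.k,.k,(.x 1 ⟨1,[(9,1),(3,1),(16,0),(0,0)]⟩ ⟨0,[(1,0)]⟩),.k,.k,.k,⟨true,
  0,⟨1,[(30,0),(0,0)]⟩,⟨0,[]⟩⟩,⟨false,1,⟨2,[(0,1),(22,0),(0,0),(5,0)]⟩,⟨4,[(3,0),(9,1),(6,0),(18,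
  1)]⟩⟩,⟨false,0,⟨0,[(7,0),(5,0)]⟩,⟨2,[(0,1),(13,0),(14,1),(12,0),(1,0)]⟩⟩,⟨true,0,⟨2,[(4,1),(2,0),
  (10,0)]⟩,⟨0,[(29,0)]⟩⟩,⟨false,0,⟨0,[]⟩,⟨0,[]⟩⟩,⟨false,0,⟨0,[]⟩,⟨0,[]⟩⟩,[.o ⟨false,0,⟨0,[(42,0)]⟩,
  ⟨23,[(1,1),(7,1),(0,5),(4,5),(4,3),(18,9),(3,0),(0,2)]⟩⟩,.e ⟨false,1,⟨1,[(42,1),(0,0),(0,0)]⟩,⟨6,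
  [(15,1),(0,1),(21,0),(1,0)]⟩⟩ ⟨false,2,⟨3,[(0,1),(0,1),(7,1),(8,1),(4,0),(0,0),(19,2)]⟩,⟨2,[(3,1),
  (9,0),(3,2),(1,1),(19,2)]⟩⟩,.e ⟨true,0,⟨0,[(42,0)]⟩,⟨6,[(15,1),(0,1),(21,0),(1,0)]⟩⟩ ⟨true,1,⟨11,
  [(0,1),(0,5),(7,5),(8,5),(4,0),(0,0),(5,3),(13,2)]⟩,⟨2,[(3,1),(9,0),(3,2),(1,1),(19,2)]⟩⟩,.a
  ⟨true,(-1),⟨1,[(13,1),(16,0),(0,0)]⟩,⟨0,[(0,0)]⟩⟩ ⟨false,1,⟨1,[(42,1),(0,0),(0,0)]⟩,⟨16,[(10,1),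
  (4,1),(3,2),(0,1),(9,3),(0,1),(12,0)]⟩⟩ ⟨true,1,⟨0,[(0,0),(41,0)]⟩,⟨8,[(2,5),(10,0),(4,2),(0,0),
  (9,5),(1,1),(7,1)]⟩⟩]⟩)) (.R ⟨0,false,false,false,[1,-1,-1],[1,-1],[],(⟨0,[(20,0)]⟩,⟨0,[(8,0),(26,
  0)]⟩),(⟨0,[(35,0)]⟩,⟨0,[(36,0)]⟩),⟨0,[(8,0)]⟩,.k,.k,(.r (-2) ⟨1,[(28,1),(0,1),(11,3),(0,2),(0,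
  0)]⟩ ⟨1,[(0,3),(1,5),(0,9),(7,7),(4,13),(3,5),(0,1),(16,12),(4,6)]⟩),.k,.k,.k,⟨true,0,⟨16,[(9,1),
  (4,1),(3,2),(0,1),(9,3),(0,1),(12,0)]⟩,⟨0,[(41,0)]⟩⟩,⟨false,1,⟨0,[(29,0),(12,0)]⟩,⟨4,[(2,0),(9,1),
  (6,0),(18,1)]⟩⟩,⟨false,0,⟨9,[(1,4),(1,0),(2,2),(0,0),(4,1),(6,0),(23,3)]⟩,⟨0,[(13,0),(27,1),(0,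
  0)]⟩⟩,⟨true,0,⟨2,[(3,1),(2,0),(10,0)]⟩,⟨0,[(28,0)]⟩⟩,⟨false,0,⟨0,[]⟩,⟨0,[]⟩⟩,⟨false,0,⟨0,[]⟩,⟨0,
  []⟩⟩,[.o ⟨false,0,⟨0,[(41,0)]⟩,⟨15,[(9,3),(4,3),(4,1),(2,0),(0,0),(14,6),(3,1),(0,1)]⟩⟩,.e ⟨false,
  1,⟨1,[(42,0),(0,0)]⟩,⟨0,[(45,0)]⟩⟩ ⟨false,2,⟨1,[(29,1),(11,1),(0,2),(0,0)]⟩,⟨38,[(0,21),(0,11),(0,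
  0),(4,3),(12,32),(0,10),(6,15),(9,16),(0,18)]⟩⟩,.a ⟨true,(-1),⟨0,[(12,0)]⟩,⟨0,[(29,0),(12,0)]⟩⟩
  ⟨false,1,⟨1,[(22,0),(0,0),(19,0)]⟩,⟨0,[]⟩⟩ ⟨true,1,⟨0,[(29,0),(11,0),(0,0)]⟩,⟨38,[(0,21),(0,11),
  (0,0),(4,3),(12,32),(0,10),(6,15),(9,16),(0,18)]⟩⟩,.o ⟨false,(-1),⟨10,[(0,7),(17,0),(1,11),(0,3),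
  (8,2),(7,5),(2,2)]⟩,⟨1,[(29,1),(8,0),(3,2)]⟩⟩]⟩)) (.Q [0,0,2,0,0,0,2,1,0,-1,2] (.p true [0,0,1]
  [1,0,-1] (⟨0,[(31,0)]⟩,⟨0,[(30,0)]⟩) .k 2 (⟨0,[(30,0)]⟩,⟨0,[(31,0)]⟩) .k (.r 0 ⟨1,[(5,1),(0,0),(4,
  1),(2,0)]⟩ ⟨4,[(0,3),(11,3),(0,1),(14,0),(0,0),(12,0)]⟩)) (.R ⟨0,false,false,true,[0,-1,1],[1,0,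
  -1],[0,0,1],(⟨0,[(21,0)]⟩,⟨0,[(4,0),(30,0)]⟩),(⟨0,[(31,0)]⟩,⟨0,[(32,0)]⟩),⟨0,[(4,0)]⟩,.k,.k,(.r
  (-1) ⟨6,[(1,2),(4,4),(0,3),(9,1),(1,2),(7,0),(15,0)]⟩ ⟨4,[(13,2),(0,1),(3,0),(10,0),(0,0),(12,
  0)]⟩),(.r 0 ⟨0,[(6,0),(0,0),(4,0)]⟩ ⟨4,[(1,2),(11,2),(0,3),(14,1),(0,1),(12,1)]⟩),.k,.k,⟨true,0,
  ⟨0,[(6,0),(5,0)]⟩,⟨8,[(1,1),(11,6),(2,3),(20,1),(0,1),(0,0)]⟩⟩,⟨false,0,⟨4,[(2,5),(9,1),(6,0),(18,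
  1)]⟩,⟨4,[(0,3),(0,2),(7,0),(4,1),(14,0),(13,0)]⟩⟩,⟨true,0,⟨1,[(13,1),(15,0),(0,0)]⟩,⟨0,[(7,0)]⟩⟩,
  ⟨false,0,⟨11,[(1,1),(0,9),(9,7),(0,15),(14,5),(9,2),(4,2)]⟩,⟨2,[(3,0),(2,4),(10,1)]⟩⟩,⟨false,0,⟨0,
  []⟩,⟨0,[]⟩⟩,⟨false,0,⟨0,[]⟩,⟨0,[]⟩⟩,[.o ⟨false,0,⟨0,[(28,0)]⟩,⟨0,[(6,0)]⟩⟩,.a ⟨true,0,⟨9,[(1,1),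
  (10,0),(0,7),(3,1),(1,1),(6,4),(16,0)]⟩,⟨2,[(3,1),(2,0),(10,0)]⟩⟩ ⟨false,1,⟨1,[(22,0),(0,0),(19,
  0)]⟩,⟨9,[(1,0),(5,0),(8,1),(20,0),(0,0),(0,4)]⟩⟩ ⟨true,0,⟨11,[(1,1),(0,9),(9,7),(0,3),(14,5),(9,
  2),(4,2)]⟩,⟨0,[(0,0)]⟩⟩,.a ⟨true,0,⟨0,[(29,0)]⟩,⟨0,[(26,0)]⟩⟩ ⟨true,0,⟨1,[(29,0),(0,0)]⟩,⟨9,[(1,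
  0),(5,0),(8,1),(20,0),(0,0),(0,4)]⟩⟩ ⟨false,0,⟨11,[(1,1),(0,9),(9,7),(0,3),(14,5),(9,2),(4,2)]⟩,
  ⟨3,[(0,2),(0,0),(3,0),(4,0),(32,1)]⟩⟩,.a ⟨true,0,⟨1,[(29,2),(0,0)]⟩,⟨0,[(2,0)]⟩⟩ ⟨false,1,⟨1,[(22,
  0),(0,0),(19,0)]⟩,⟨0,[]⟩⟩ ⟨true,0,⟨0,[(2,0),(25,0)]⟩,⟨0,[(0,0)]⟩⟩]⟩) (.R ⟨0,false,false,true,[0,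
  -1,1],[1,0,-1],[0,0,1],(⟨0,[(21,0)]⟩,⟨0,[(4,0),(30,0)]⟩),(⟨0,[(31,0)]⟩,⟨0,[(32,0)]⟩),⟨0,[(4,0)]⟩,
  .k,.k,(.r (-1) ⟨6,[(1,2),(4,4),(0,3),(9,1),(1,2),(7,0),(15,0)]⟩ ⟨4,[(13,2),(0,1),(3,0),(10,0),(0,
  0),(12,0)]⟩),(.r 0 ⟨0,[(6,0),(0,0),(4,0)]⟩ ⟨4,[(1,2),(11,2),(0,3),(14,1),(0,1),(12,1)]⟩),.k,.k,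
  ⟨true,0,⟨0,[(6,0),(5,0)]⟩,⟨8,[(1,1),(11,6),(2,3),(20,1),(0,1),(0,0)]⟩⟩,⟨false,0,⟨4,[(0,3),(4,1),
  (1,1),(4,1),(6,0)]⟩,⟨2,[(1,0),(7,0),(19,4),(8,0)]⟩⟩,⟨true,0,⟨1,[(13,1),(15,0),(0,0)]⟩,⟨0,[(7,
  0)]⟩⟩,⟨false,0,⟨7,[(0,4),(0,0),(10,0),(0,9),(5,1),(10,0)]⟩,⟨2,[(3,0),(2,4),(10,1)]⟩⟩,⟨false,0,⟨0,
  []⟩,⟨0,[]⟩⟩,⟨false,0,⟨0,[]⟩,⟨0,[]⟩⟩,[.o ⟨false,0,⟨0,[(28,0)]⟩,⟨0,[(6,0)]⟩⟩,.e ⟨false,1,⟨1,[(22,0),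
  (0,0),(19,0)]⟩,⟨9,[(1,0),(5,0),(8,1),(20,0),(0,0),(0,4)]⟩⟩ ⟨false,0,⟨0,[(0,0)]⟩,⟨3,[(6,1),(15,0),
  (0,0),(3,1),(1,3),(8,0)]⟩⟩,.a ⟨true,0,⟨0,[(29,0)]⟩,⟨0,[(26,0)]⟩⟩ ⟨true,0,⟨1,[(29,0),(0,0)]⟩,⟨9,
  [(1,0),(5,0),(8,1),(20,0),(0,0),(0,4)]⟩⟩ ⟨false,0,⟨7,[(0,4),(0,0),(10,0),(0,1),(5,1),(10,0)]⟩,⟨0,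
  [(6,0),(22,0)]⟩⟩,.e ⟨false,1,⟨1,[(22,0),(0,0),(19,0)]⟩,⟨0,[]⟩⟩ ⟨false,0,⟨0,[(0,0)]⟩,⟨1,[(6,1),(22,
  2),(0,0)]⟩⟩]⟩)))) (.R ⟨2,true,false,false,[0,1],[0,1,1],[0,1,1],(⟨0,[]⟩,⟨0,[]⟩),(⟨0,[(5,0),(26,
  0)]⟩,⟨0,[(17,0)]⟩),⟨0,[]⟩,.k,.k,.k,.k,.k,.k,⟨true,0,⟨1,[(10,1),(3,1),(20,0),(3,0)]⟩,⟨0,[(2,0),(6,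
  0)]⟩⟩,⟨false,1,⟨0,[(26,0),(12,0)]⟩,⟨1,[(9,0),(13,0),(11,0)]⟩⟩,⟨false,0,⟨0,[(38,0)]⟩,⟨6,[(6,0),(0,
  0),(3,1),(4,0),(22,0),(0,4)]⟩⟩,⟨true,0,⟨0,[(2,0),(10,0)]⟩,⟨0,[(25,0)]⟩⟩,⟨true,0,⟨0,[(42,0)]⟩,⟨0,
  []⟩⟩,⟨false,1,⟨0,[(7,0),(32,0)]⟩,⟨0,[(0,0)]⟩⟩,[]⟩)) (.Q [0,-1,0,-1,0,0,-1,-1,0,1,-1] (.p false [0,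
  0,1] [1] (⟨0,[(28,0)]⟩,⟨0,[(27,0)]⟩) .k 1 (⟨0,[]⟩,⟨0,[]⟩) .k .k) (.I [0,0,-1,-2,1,0,0,-2] (.Q [0,
  0,2,0,0,0,1,0,0,-1,1] (.p true [0,0,1] [1] (⟨0,[(30,0)]⟩,⟨0,[(29,0)]⟩) .k 1 (⟨0,[]⟩,⟨0,[]⟩) .k
  .k) (.R ⟨1,false,false,true,[0,-1,1],[1,-1],[1,1,-1,-1,0,0,0,1],(⟨0,[(20,0)]⟩,⟨0,[(30,0),(1,0)]⟩),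
  (⟨0,[(34,0)]⟩,⟨0,[(35,0)]⟩),⟨0,[(3,0)]⟩,.k,.k,(.r (-1) ⟨37,[(1,11),(3,24),(0,31),(9,9),(1,14),(7,
  4),(15,10)]⟩ ⟨3,[(0,0),(1,0),(10,2),(3,0),(24,0)]⟩),.k,.k,.k,⟨true,0,⟨3,[(5,1),(0,0),(4,1),(2,
  0)]⟩,⟨16,[(0,2),(0,6),(0,1),(13,0),(0,5),(9,0)]⟩⟩,⟨false,0,⟨0,[(25,0)]⟩,⟨4,[(0,0),(0,1),(2,1),(4,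
  1),(27,0)]⟩⟩,⟨false,0,⟨0,[]⟩,⟨1,[(21,0),(0,0),(19,0)]⟩⟩,⟨false,0,⟨21,[(1,1),(0,10),(6,0),(3,7),(1,
  1),(2,2),(6,5)]⟩,⟨0,[(5,0)]⟩⟩,⟨true,0,⟨6,[(13,1),(0,1),(21,0),(1,0)]⟩,⟨0,[(40,0)]⟩⟩,⟨false,0,⟨0,
  [(12,0),(12,0)]⟩,⟨0,[(5,0),(34,0)]⟩⟩,[.e ⟨false,0,⟨0,[(6,0)]⟩,⟨11,[(1,1),(11,7),(14,2),(0,2),(12,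
  9)]⟩⟩ ⟨false,0,⟨6,[(1,0),(4,2),(9,0),(8,5),(1,0),(8,0)]⟩,⟨8,[(0,2),(0,0),(2,5),(7,2),(0,0),(28,
  1)]⟩⟩,.o ⟨false,0,⟨0,[(40,0)]⟩,⟨35,[(1,1),(6,11),(4,7),(4,5),(18,14),(3,2),(0,3)]⟩⟩,.a ⟨true,0,⟨0,
  [(28,0)]⟩,⟨0,[(25,0)]⟩⟩ ⟨true,0,⟨42,[(1,0),(3,3),(0,28),(9,5),(9,11),(2,15),(7,0)]⟩,⟨0,[(10,0)]⟩⟩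
  ⟨false,0,⟨17,[(1,0),(0,2),(3,4),(9,3),(1,3),(6,6),(16,2)]⟩,⟨8,[(0,2),(0,0),(2,5),(7,2),(0,0),(28,
  1)]⟩⟩,.o ⟨false,0,⟨0,[(0,0)]⟩,⟨1,[(25,1),(11,0),(3,0)]⟩⟩]⟩) (.Q [0,1,0,-2,-1,0,-1,-1,0,1,-1] (.p
  false [0,0,1] [1] (⟨0,[(31,0)]⟩,⟨0,[(30,0)]⟩) .k 1 (⟨0,[]⟩,⟨0,[]⟩) .k .k) (.R ⟨1,false,false,
  false,[1,0,-1],[0,1],[0,1],(⟨0,[(31,0)]⟩,⟨0,[(32,0)]⟩),(⟨0,[(36,0)]⟩,⟨0,[(35,0)]⟩),⟨0,[(20,0)]⟩,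
  .k,.k,.k,.k,(.x 1 ⟨1,[(8,1),(3,1),(16,0),(0,0)]⟩ ⟨5,[(2,3),(1,1),(0,3),(1,1),(1,1),(10,7),(17,0),
  (0,1),(2,0)]⟩),.k,⟨true,0,⟨5,[(2,0),(4,1),(8,1),(20,0),(0,0)]⟩,⟨3,[(0,0),(5,0),(11,1),(10,0),(0,
  0),(12,1)]⟩⟩,⟨false,2,⟨2,[(2,1),(2,0),(1,0),(1,1),(32,0)]⟩,⟨0,[(12,0)]⟩⟩,⟨false,0,⟨3,[(6,1),(0,0),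
  (4,1),(2,0)]⟩,⟨2,[(2,0),(11,0),(28,1)]⟩⟩,⟨false,1,⟨0,[(5,0)]⟩,⟨7,[(2,1),(0,2),(10,0),(1,0),(0,0),
  (1,2),(9,0)]⟩⟩,⟨false,0,⟨11,[(1,1),(3,5),(1,2),(4,3),(2,2),(2,1)]⟩,⟨3,[(2,1),(26,0),(0,0),(12,
  1)]⟩⟩,⟨true,1,⟨0,[(9,0)]⟩,⟨0,[(0,0)]⟩⟩,[.o ⟨false,1,⟨35,[(2,1),(6,11),(4,7),(4,5),(18,14),(3,2),
  (0,3)]⟩,⟨0,[(41,0)]⟩⟩,.e ⟨false,1,⟨1,[(22,0),(0,0),(18,0)]⟩,⟨0,[]⟩⟩ ⟨false,2,⟨5,[(2,1),(2,5),(8,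
  1),(27,2),(0,0)]⟩,⟨3,[(0,1),(6,0),(4,1),(2,0)]⟩⟩,.o ⟨false,0,⟨4,[(1,0),(10,1),(6,0),(18,1)]⟩,⟨2,
  [(2,0),(2,0),(4,0),(18,0),(8,0)]⟩⟩,.a ⟨true,(-1),⟨0,[(12,0)]⟩,⟨0,[(29,0),(12,0)]⟩⟩ ⟨true,0,⟨11,
  [(2,0),(4,1),(8,1),(20,0),(0,0),(0,5)]⟩,⟨1,[(29,0),(0,0)]⟩⟩ ⟨false,2,⟨5,[(2,1),(2,5),(8,1),(27,2),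
  (0,0)]⟩,⟨1,[(0,0),(5,0),(5,1)]⟩⟩]⟩) (.R ⟨2,true,false,false,[0,1],[1,0,-1],[1,0,1,1],(⟨0,[]⟩,⟨0,
  []⟩),(⟨0,[(31,0)]⟩,⟨0,[(32,0)]⟩),⟨0,[]⟩,.k,.k,.k,.k,.k,.k,⟨false,0,⟨3,[(0,1),(6,0),(4,1),(2,0)]⟩,
  ⟨3,[(2,1),(19,0),(0,0),(18,0)]⟩⟩,⟨true,(-1),⟨0,[(12,0)]⟩,⟨2,[(2,0),(2,0),(4,0),(18,0),(8,0)]⟩⟩,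
  ⟨true,0,⟨0,[]⟩,⟨0,[(45,0)]⟩⟩,⟨false,0,⟨0,[(3,0)]⟩,⟨12,[(2,0),(3,3),(2,6),(5,0),(11,2),(2,0),(7,
  0)]⟩⟩,⟨false,1,⟨6,[(9,0),(0,0),(3,1),(4,0),(22,0),(0,4)]⟩,⟨0,[(41,0)]⟩⟩,⟨true,0,⟨21,[(2,1),(0,10),
  (6,0),(3,7),(1,1),(2,2),(6,5)]⟩,⟨0,[(0,0),(15,1),(21,0)]⟩⟩,[]⟩))) (.R ⟨0,false,false,false,[1,-1,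
  -1],[1,-1],[],(⟨0,[(18,0)]⟩,⟨0,[(6,0),(26,0)]⟩),(⟨0,[(33,0)]⟩,⟨0,[(34,0)]⟩),⟨0,[(6,0)]⟩,.k,.k,(.r
  (-2) ⟨9,[(1,7),(13,5),(4,3),(0,3),(4,1),(0,9),(8,6),(3,14)]⟩ ⟨1,[(0,0),(15,0),(22,0)]⟩),.k,.k,.k,
  ⟨true,0,⟨16,[(7,1),(4,1),(3,2),(0,1),(9,3),(0,1),(12,0)]⟩,⟨0,[(39,0)]⟩⟩,⟨false,1,⟨0,[(27,0),(12,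
  0)]⟩,⟨1,[(10,0),(13,0),(11,0)]⟩⟩,⟨false,0,⟨3,[(0,1),(26,0),(0,0),(12,1)]⟩,⟨1,[(1,0),(9,0),(3,0),
  (11,0),(8,0),(3,1)]⟩⟩,⟨true,0,⟨0,[(3,0),(10,0)]⟩,⟨0,[(26,0)]⟩⟩,⟨false,0,⟨0,[]⟩,⟨0,[]⟩⟩,⟨false,0,
  ⟨0,[]⟩,⟨0,[]⟩⟩,[.o ⟨false,0,⟨0,[(39,0)]⟩,⟨15,[(7,3),(4,3),(4,1),(2,0),(0,0),(14,6),(3,1),(0,1)]⟩⟩,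
  .e ⟨false,1,⟨1,[(40,0),(0,0)]⟩,⟨0,[(43,0)]⟩⟩ ⟨false,2,⟨1,[(1,0),(2,0),(22,1),(11,0),(0,2)]⟩,⟨4,
  [(0,1),(0,3),(8,0),(3,4),(1,1),(19,4),(0,3)]⟩⟩,.a ⟨true,(-1),⟨0,[(10,0)]⟩,⟨0,[(27,0),(12,0)]⟩⟩
  ⟨false,1,⟨1,[(20,0),(0,0),(19,0)]⟩,⟨0,[]⟩⟩ ⟨true,1,⟨0,[(27,0),(11,0),(0,0)]⟩,⟨4,[(0,1),(0,3),(8,
  0),(3,4),(1,1),(19,4),(0,3)]⟩⟩,.o ⟨false,(-1),⟨1,[(0,0),(0,1),(12,0),(0,0),(0,0),(19,1)]⟩,⟨1,[(27,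
  1),(8,0),(3,2)]⟩⟩]⟩)) (.Q [0,0,2,0,0,0,1,0,0,-1,1] (.p true [0,0,1] [1] (⟨0,[(29,0)]⟩,⟨0,[(28,
  0)]⟩) .k 1 (⟨0,[]⟩,⟨0,[]⟩) .k .k) (.R ⟨1,false,false,true,[0,-1,1],[1,-1],[1,1,-1,-1,0,0,0,1],(⟨0,
  [(19,0)]⟩,⟨0,[(29,0),(1,0)]⟩),(⟨0,[(33,0)]⟩,⟨0,[(34,0)]⟩),⟨0,[(2,0)]⟩,.k,.k,(.r (-1) ⟨2,[(4,1),(0,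
  0),(9,0),(1,0),(21,2),(0,1)]⟩ ⟨4,[(11,2),(0,1),(3,0),(10,0),(0,0),(12,0)]⟩),.k,.k,.k,⟨true,0,⟨3,
  [(4,1),(0,0),(4,1),(2,0)]⟩,⟨0,[(11,0),(27,0)]⟩⟩,⟨false,0,⟨0,[(24,0)]⟩,⟨1,[(27,1),(8,0),(3,0)]⟩⟩,
  ⟨false,0,⟨0,[]⟩,⟨1,[(20,0),(0,0),(19,0)]⟩⟩,⟨false,0,⟨2,[(11,1),(3,0),(8,1),(1,0),(14,0)]⟩,⟨0,[(4,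
  0)]⟩⟩,⟨true,0,⟨6,[(12,1),(0,1),(21,0),(1,0)]⟩,⟨0,[(39,0)]⟩⟩,⟨false,0,⟨0,[(11,0),(12,0)]⟩,⟨0,[(4,
  0),(34,0)]⟩⟩,[.e ⟨false,0,⟨0,[(5,0)]⟩,⟨1,[(11,1),(8,0),(0,0),(19,0)]⟩⟩ ⟨false,0,⟨2,[(5,0),(9,0),
  (8,1),(1,0),(13,0)]⟩,⟨3,[(3,1),(7,1),(15,1),(8,0),(4,0)]⟩⟩,.o ⟨false,0,⟨0,[(39,0)]⟩,⟨15,[(7,3),(4,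
  3),(4,1),(2,0),(0,0),(14,6),(3,1),(0,1)]⟩⟩,.a ⟨true,0,⟨0,[(27,0)]⟩,⟨0,[(24,0)]⟩⟩ ⟨true,0,⟨9,[(4,
  0),(0,5),(9,1),(1,0),(7,2),(2,1),(7,0)]⟩,⟨0,[(9,0)]⟩⟩ ⟨false,0,⟨0,[(24,0),(14,0)]⟩,⟨3,[(3,1),(7,
  1),(15,1),(8,0),(4,0)]⟩⟩,.o ⟨false,0,⟨0,[(0,0)]⟩,⟨1,[(24,1),(11,0),(3,0)]⟩⟩]⟩) (.Q [0,-1,0,-2,0,0,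
  -1,-1,0,1,-1] (.p false [0,0,1] [1] (⟨0,[(30,0)]⟩,⟨0,[(29,0)]⟩) .k 1 (⟨0,[]⟩,⟨0,[]⟩) .k .k) (.I
  [0,0,-2,0,2,-2,1] (.R ⟨1,false,false,true,[1,0,-1],[0,1],[1,1,1],(⟨0,[(31,0)]⟩,⟨0,[(32,0)]⟩),(⟨0,
  [(36,0)]⟩,⟨0,[(35,0)]⟩),⟨0,[(20,0)]⟩,.k,.k,.k,.k,(.x 1 ⟨1,[(8,1),(3,1),(16,0),(0,0)]⟩ ⟨0,[(0,
  0)]⟩),.k,⟨true,0,⟨5,[(1,0),(4,0),(10,1),(20,0)]⟩,⟨16,[(9,1),(4,1),(3,2),(0,1),(9,3),(0,1),(12,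
  0)]⟩⟩,⟨false,2,⟨0,[(0,0),(7,0)]⟩,⟨0,[(12,0)]⟩⟩,⟨true,(-1),⟨4,[(3,3),(2,0),(5,4),(4,1),(20,0)]⟩,⟨1,
  [(0,0),(0,0),(6,0),(4,0),(25,0)]⟩⟩,⟨true,0,⟨0,[(3,0)]⟩,⟨17,[(1,14),(8,1),(3,4),(4,1),(6,0),(10,
  3)]⟩⟩,⟨true,(-1),⟨0,[(3,0),(8,0)]⟩,⟨6,[(0,3),(0,3),(6,3),(4,2),(3,1),(20,0),(0,1)]⟩⟩,⟨false,1,⟨0,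
  [(9,0)]⟩,⟨0,[(1,0)]⟩⟩,[.e ⟨false,0,⟨0,[(45,0)]⟩,⟨1,[(42,0),(0,0)]⟩⟩ ⟨false,1,⟨12,[(0,6),(2,5),(4,
  6),(4,5),(3,1),(20,0),(0,4)]⟩,⟨4,[(1,0),(5,0),(4,1),(4,0),(1,0),(23,2)]⟩⟩,.o ⟨false,1,⟨23,[(0,1),
  (7,1),(0,5),(4,5),(4,3),(18,9),(3,0),(0,2)]⟩,⟨0,[(41,0)]⟩⟩,.o ⟨false,0,⟨4,[(2,0),(9,1),(6,0),(18,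
  1)]⟩,⟨2,[(0,0),(7,0),(20,1),(8,0)]⟩⟩,.a ⟨true,(-1),⟨0,[(12,0)]⟩,⟨0,[(29,0),(12,0)]⟩⟩ ⟨false,0,⟨0,
  []⟩,⟨1,[(22,0),(0,0),(19,0)]⟩⟩ ⟨true,1,⟨12,[(0,6),(2,5),(4,6),(4,5),(3,1),(20,0),(0,4)]⟩,⟨5,[(1,
  0),(4,0),(5,5),(4,1),(20,0)]⟩⟩]⟩) (.R ⟨1,false,false,true,[1,0,-1],[0,1],[1,1,1],(⟨0,[(31,0)]⟩,⟨0,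
  [(32,0)]⟩),(⟨0,[(36,0)]⟩,⟨0,[(35,0)]⟩),⟨0,[(20,0)]⟩,.k,.k,.k,.k,(.r (-2) ⟨3,[(1,3),(20,0),(0,0),
  (5,3),(7,1),(0,1),(3,4)]⟩ ⟨17,[(0,5),(2,2),(0,1),(0,8),(1,5),(4,5),(5,9),(1,7),(17,0)]⟩),.k,⟨true,
  0,⟨5,[(1,0),(4,0),(10,1),(20,0)]⟩,⟨16,[(9,1),(4,1),(3,2),(0,1),(9,3),(0,1),(12,0)]⟩⟩,⟨false,2,⟨1,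
  [(29,1),(8,0),(3,2)]⟩,⟨0,[(12,0)]⟩⟩,⟨true,(-1),⟨4,[(3,3),(2,0),(5,4),(4,1),(20,0)]⟩,⟨4,[(1,0),(11,
  3),(3,0),(11,0),(8,0),(3,4)]⟩⟩,⟨true,0,⟨0,[(3,0)]⟩,⟨17,[(1,14),(8,1),(3,4),(4,1),(6,0),(10,3)]⟩⟩,
  ⟨true,(-1),⟨0,[(3,0),(8,0)]⟩,⟨4,[(1,1),(11,2),(3,1),(11,1),(8,1),(3,4)]⟩⟩,⟨false,1,⟨0,[(9,0)]⟩,⟨0,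
  [(1,0)]⟩⟩,[.e ⟨false,0,⟨0,[(45,0)]⟩,⟨1,[(42,0),(0,0)]⟩⟩ ⟨false,1,⟨1,[(29,1),(8,0),(0,1),(2,0)]⟩,
  ⟨4,[(1,0),(5,0),(4,1),(4,0),(1,0),(23,2)]⟩⟩,.o ⟨false,1,⟨15,[(9,3),(4,3),(4,1),(2,0),(0,0),(14,6),
  (3,1),(0,1)]⟩,⟨0,[(41,0)]⟩⟩,.o ⟨false,0,⟨4,[(2,0),(9,1),(6,0),(18,1)]⟩,⟨1,[(29,1),(8,0),(3,0)]⟩⟩,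
  .a ⟨true,(-1),⟨0,[(12,0)]⟩,⟨0,[(29,0),(12,0)]⟩⟩ ⟨false,0,⟨0,[]⟩,⟨1,[(22,0),(0,0),(19,0)]⟩⟩ ⟨true,
  1,⟨1,[(29,1),(8,0),(0,1),(2,0)]⟩,⟨5,[(1,0),(4,0),(5,5),(4,1),(20,0)]⟩⟩]⟩)) (.I [0,0,-1,-2,0,0,0,
  1] (.R ⟨1,false,false,true,[0,-1,1],[1,-1],[1,1],(⟨0,[(21,0)]⟩,⟨0,[(31,0),(1,0)]⟩),(⟨0,[(35,0)]⟩,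
  ⟨0,[(36,0)]⟩),⟨0,[(4,0)]⟩,.k,.k,(.r (-1) ⟨1,[(0,1),(21,0),(0,0),(18,0)]⟩ ⟨4,[(13,2),(0,1),(3,0),
  (10,0),(0,0),(12,0)]⟩),.k,.k,.k,⟨true,0,⟨16,[(9,1),(4,1),(3,2),(0,1),(9,3),(0,1),(12,0)]⟩,⟨0,[(41,
  0)]⟩⟩,⟨false,0,⟨0,[(26,0)]⟩,⟨1,[(29,1),(8,0),(3,0)]⟩⟩,⟨false,0,⟨0,[(13,0)]⟩,⟨3,[(0,1),(5,0),(12,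
  0),(7,0),(14,0),(0,1)]⟩⟩,⟨false,0,⟨2,[(13,1),(3,0),(8,1),(1,0),(14,0)]⟩,⟨0,[(6,0)]⟩⟩,⟨true,0,⟨0,
  [(14,0)]⟩,⟨0,[(0,0)]⟩⟩,⟨false,0,⟨0,[(13,0),(12,0)]⟩,⟨3,[(0,1),(5,1),(22,1),(8,0),(4,0)]⟩⟩,[.e
  ⟨false,0,⟨5,[(17,1),(20,0),(0,3),(2,0)]⟩,⟨1,[(22,0),(0,0),(19,0)]⟩⟩ ⟨false,0,⟨19,[(0,2),(1,8),(14,
  6),(1,3),(8,2),(8,4),(4,6)]⟩,⟨3,[(5,1),(7,1),(15,1),(8,0),(4,0)]⟩⟩,.o ⟨false,0,⟨0,[(41,0)]⟩,⟨15,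
  [(9,3),(4,3),(4,1),(2,0),(0,0),(14,6),(3,1),(0,1)]⟩⟩,.e ⟨false,0,⟨0,[]⟩,⟨1,[(22,0),(0,0),(19,
  0)]⟩⟩ ⟨false,0,⟨19,[(0,1),(1,5),(14,7),(1,5),(8,1),(13,2),(0,4)]⟩,⟨3,[(5,1),(7,1),(15,1),(8,0),(4,
  0)]⟩⟩,.a ⟨true,0,⟨1,[(29,2),(0,0)]⟩,⟨0,[(2,0)]⟩⟩ ⟨true,0,⟨5,[(17,1),(20,0),(0,3),(2,0)]⟩,⟨1,[(29,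
  0),(0,0)]⟩⟩ ⟨false,0,⟨0,[(2,0),(38,0)]⟩,⟨6,[(9,0),(4,0),(3,0),(10,7),(0,1),(7,2),(4,3)]⟩⟩]⟩) (.Q
  [0,0,-2,0,1,0,1,0,0,0,1] (.p true [0,0,1] [] (⟨0,[(32,0)]⟩,⟨0,[(31,0)]⟩) .k 0 (⟨0,[]⟩,⟨0,[]⟩) .k
  .k) (.R ⟨0,false,false,false,[1,-1,-1],[1,-1],[0,0,0,-1],(⟨0,[(21,0)]⟩,⟨0,[(9,0),(26,0)]⟩),(⟨0,
  [(36,0)]⟩,⟨0,[(37,0)]⟩),⟨0,[(9,0)]⟩,.k,.k,(.x 1 ⟨1,[(9,1),(3,1),(16,0),(0,0)]⟩ ⟨0,[(0,0),(20,0),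
  (14,0),(2,0)]⟩),.k,.k,.k,⟨true,0,⟨1,[(30,0),(0,0)]⟩,⟨0,[]⟩⟩,⟨false,1,⟨2,[(0,1),(22,0),(0,0),(5,
  0)]⟩,⟨4,[(3,0),(9,1),(6,0),(18,1)]⟩⟩,⟨false,0,⟨0,[(7,0),(5,0)]⟩,⟨2,[(0,1),(13,0),(14,1),(12,0),(1,
  0)]⟩⟩,⟨true,0,⟨0,[(6,0),(10,0)]⟩,⟨0,[(29,0)]⟩⟩,⟨false,0,⟨0,[]⟩,⟨0,[]⟩⟩,⟨false,0,⟨0,[]⟩,⟨0,[]⟩⟩,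
  [.o ⟨false,0,⟨0,[(42,0)]⟩,⟨15,[(10,3),(4,3),(4,1),(2,0),(0,0),(14,6),(3,1),(0,1)]⟩⟩,.e ⟨false,1,
  ⟨1,[(42,1),(0,0),(0,0)]⟩,⟨6,[(15,1),(0,1),(21,0),(1,0)]⟩⟩ ⟨false,2,⟨1,[(0,1),(22,0),(0,0),(17,1),
  (1,0)]⟩,⟨2,[(3,1),(9,0),(3,2),(1,1),(19,2)]⟩⟩,.e ⟨true,0,⟨0,[(42,0)]⟩,⟨6,[(15,1),(0,1),(21,0),(1,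
  0)]⟩⟩ ⟨true,1,⟨2,[(0,1),(22,0),(0,0),(5,0),(11,2)]⟩,⟨2,[(3,1),(9,0),(3,2),(1,1),(19,2)]⟩⟩,.a
  ⟨true,(-1),⟨1,[(13,1),(16,0),(0,0)]⟩,⟨0,[(0,0)]⟩⟩ ⟨false,1,⟨1,[(42,1),(0,0),(0,0)]⟩,⟨16,[(10,1),
  (4,1),(3,2),(0,1),(9,3),(0,1),(12,0)]⟩⟩ ⟨true,1,⟨0,[(0,0),(41,0)]⟩,⟨14,[(4,5),(8,10),(4,2),(0,4),
  (9,5),(1,3),(7,3)]⟩⟩]⟩) (.I [0,0,-2,0,2,-2,1] (.R ⟨0,false,false,false,[1,-1,-1],[1,-1],[],(⟨0,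
  [(22,0)]⟩,⟨0,[(10,0),(26,0)]⟩),(⟨0,[(37,0)]⟩,⟨0,[(38,0)]⟩),⟨0,[(10,0)]⟩,.k,.k,(.x 1 ⟨1,[(10,1),(3,
  1),(16,0),(0,0)]⟩ ⟨0,[(0,0)]⟩),.k,.k,.k,⟨true,0,⟨16,[(11,1),(4,1),(3,2),(0,1),(9,3),(0,1),(12,
  0)]⟩,⟨0,[(43,0)]⟩⟩,⟨false,1,⟨0,[(31,0),(12,0)]⟩,⟨3,[(1,0),(2,0),(16,0),(18,0)]⟩⟩,⟨false,0,⟨0,[(7,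
  0),(6,0)]⟩,⟨0,[(15,0),(27,1),(0,0)]⟩⟩,⟨true,0,⟨0,[(7,0),(10,0)]⟩,⟨0,[(30,0)]⟩⟩,⟨false,0,⟨0,[]⟩,⟨0,
  []⟩⟩,⟨false,0,⟨0,[]⟩,⟨0,[]⟩⟩,[.o ⟨false,0,⟨0,[(43,0)]⟩,⟨23,[(0,1),(9,1),(0,5),(4,5),(4,3),(18,9),
  (3,0),(0,2)]⟩⟩,.e ⟨false,1,⟨1,[(44,0),(0,0)]⟩,⟨0,[(47,0)]⟩⟩ ⟨false,2,⟨3,[(0,1),(9,1),(8,1),(11,1),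
  (12,2),(0,2)]⟩,⟨0,[(1,0),(39,0)]⟩⟩,.a ⟨true,(-1),⟨0,[(14,0)]⟩,⟨0,[(31,0),(12,0)]⟩⟩ ⟨false,1,⟨1,
  [(24,0),(0,0),(19,0)]⟩,⟨0,[]⟩⟩ ⟨true,1,⟨3,[(0,1),(9,1),(8,1),(11,1),(12,0),(0,0)]⟩,⟨0,[(1,0),(39,
  0)]⟩⟩,.o ⟨false,(-1),⟨0,[(1,0)]⟩,⟨0,[(0,0),(9,0)]⟩⟩]⟩) (.R ⟨0,false,false,false,[1,-1,-1],[1,-1],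
  [],(⟨0,[(22,0)]⟩,⟨0,[(10,0),(26,0)]⟩),(⟨0,[(37,0)]⟩,⟨0,[(38,0)]⟩),⟨0,[(10,0)]⟩,.k,.k,(.r (-2) ⟨1,
  [(30,1),(0,1),(11,3),(0,2),(0,0)]⟩ ⟨9,[(0,2),(0,0),(3,0),(0,0),(0,4),(1,3),(4,1),(5,5),(1,3)]⟩),
  .k,.k,.k,⟨true,0,⟨16,[(11,1),(4,1),(3,2),(0,1),(9,3),(0,1),(12,0)]⟩,⟨0,[(43,0)]⟩⟩,⟨false,1,⟨0,
  [(31,0),(12,0)]⟩,⟨3,[(1,0),(2,0),(16,0),(18,0)]⟩⟩,⟨false,0,⟨0,[(7,0),(6,0)]⟩,⟨0,[(15,0),(27,1),(0,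
  0)]⟩⟩,⟨true,0,⟨0,[(7,0),(10,0)]⟩,⟨0,[(30,0)]⟩⟩,⟨false,0,⟨0,[]⟩,⟨0,[]⟩⟩,⟨false,0,⟨0,[]⟩,⟨0,[]⟩⟩,
  [.o ⟨false,0,⟨0,[(43,0)]⟩,⟨15,[(11,3),(4,3),(4,1),(2,0),(0,0),(14,6),(3,1),(0,1)]⟩⟩,.e ⟨false,1,
  ⟨1,[(44,0),(0,0)]⟩,⟨0,[(47,0)]⟩⟩ ⟨false,2,⟨1,[(31,1),(11,1),(0,2),(0,0)]⟩,⟨0,[(1,0),(39,0)]⟩⟩,.a
  ⟨true,(-1),⟨0,[(14,0)]⟩,⟨0,[(31,0),(12,0)]⟩⟩ ⟨false,1,⟨1,[(24,0),(0,0),(19,0)]⟩,⟨0,[]⟩⟩ ⟨true,1,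
  ⟨0,[(31,0),(11,0),(0,0)]⟩,⟨0,[(1,0),(39,0)]⟩⟩,.o ⟨false,(-1),⟨0,[(1,0)]⟩,⟨1,[(31,1),(8,0),(3,
  2)]⟩⟩]⟩))))))))))

theorem ok15 : chk K t15 r11 = true := by decide +kernel

noncomputable def t17 : Tre :=
  (.Q [0,0,2,0,-1,0,-1,0,0,0,-1] (.p false [0,0,1] [] (⟨0,[(24,0)]⟩,⟨0,[(23,0)]⟩) .k 0 (⟨0,[]⟩,⟨0,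
  []⟩) .k .k) (.Q [0,-1,0,-2,0,0,-1,-1,0,0,-1] (.p false [0,0,1] [] (⟨0,[(25,0)]⟩,⟨0,[(24,0)]⟩) .k
  0 (⟨0,[]⟩,⟨0,[]⟩) .k .k) (.S ⟨1,0,[0,0,-1,-2,0,0,0,-1],[1,-1,-1],[1,1,-1,-1,0,0,0,-1],(⟨0,[(14,
  0)]⟩,⟨0,[(26,0),(0,0)]⟩),⟨0,[(2,0)]⟩,.k,(.r (-1) ⟨5,[(0,5),(10,1),(11,5),(8,0),(0,3),(2,6)]⟩ ⟨1,
  [(9,0),(2,0),(8,0),(2,0),(12,0)]⟩),⟨false,0,⟨0,[]⟩,⟨1,[(16,0),(0,0),(19,0)]⟩⟩,⟨true,0,⟨0,[(35,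
  0)]⟩,⟨6,[(8,1),(0,1),(21,0),(1,0)]⟩⟩,⟨true,0,⟨6,[(8,1),(0,1),(21,0),(1,0)]⟩,⟨0,[(35,0)]⟩⟩,⟨false,
  1,⟨1,[(16,0),(0,0),(19,0)]⟩,⟨0,[]⟩⟩,[.o ⟨false,0,⟨5,[(0,3),(10,1),(4,0),(0,0),(4,1),(9,0)]⟩,⟨0,
  [(3,0)]⟩⟩,.o ⟨false,0,⟨0,[(0,0)]⟩,⟨0,[(3,0),(35,0)]⟩⟩,.a ⟨true,(-1),⟨0,[(6,0)]⟩,⟨0,[(23,0),(12,
  0)]⟩⟩ ⟨true,0,⟨5,[(0,5),(10,1),(11,5),(8,0),(0,9),(2,0)]⟩,⟨1,[(1,0),(2,0),(4,0),(27,0)]⟩⟩ ⟨false,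
  1,⟨0,[(0,0),(22,0),(12,0)]⟩,⟨0,[(3,0),(2,0)]⟩⟩,.o ⟨false,(-1),⟨0,[(1,0)]⟩,⟨1,[(23,1),(8,0),(3,
  2)]⟩⟩]⟩) (.Q [0,0,0,-1,-1,0,0,0,1,0,0,1] (.p true [0,0,0,0,1] [] (⟨0,[(19,0)]⟩,⟨0,[(18,0)]⟩) .k 0
  (⟨0,[]⟩,⟨0,[]⟩) .k .k) (.R ⟨2,true,false,false,[0,1],[0,0,0,0,1],[1,0,1,1],(⟨0,[]⟩,⟨0,[]⟩),(⟨0,
  [(20,0)]⟩,⟨0,[(19,0)]⟩),⟨0,[]⟩,.k,.k,.k,(.r (-1) ⟨7,[(4,1),(4,1),(4,1),(2,0),(0,0),(5,3),(0,1),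
  (12,4)]⟩ ⟨2,[(12,1),(20,0),(0,0),(2,0)]⟩),.k,.k,⟨false,1,⟨6,[(4,0),(0,0),(3,1),(4,0),(22,0),(0,
  4)]⟩,⟨2,[(12,1),(20,0),(0,0),(2,0)]⟩⟩,⟨true,(-1),⟨8,[(0,5),(1,0),(10,1),(4,2),(5,0)]⟩,⟨0,[(17,
  0)]⟩⟩,⟨true,0,⟨0,[]⟩,⟨0,[(40,0)]⟩⟩,⟨false,(-1),⟨0,[(0,0)]⟩,⟨6,[(4,0),(0,0),(3,1),(4,0),(2,6),(19,
  0),(0,4)]⟩⟩,⟨false,1,⟨6,[(4,0),(0,0),(3,1),(4,0),(22,0),(0,4)]⟩,⟨0,[(36,0)]⟩⟩,⟨true,(-1),⟨4,[(0,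
  3),(12,0),(4,0),(13,1),(1,0)]⟩,⟨0,[(17,0)]⟩⟩,[]⟩) (.Q [0,-1,0,-1,0,0,0,0,-1,1,0,-1] (.p false [0,
  0,0,0,1] [1] (⟨0,[(20,0)]⟩,⟨0,[(19,0)]⟩) .k 1 (⟨0,[]⟩,⟨0,[]⟩) .k .k) (.Q [0,1,0,0,0,0,0,0,1,-1,0,
  1] (.p true [0,0,0,0,1] [1] (⟨0,[(21,0)]⟩,⟨0,[(20,0)]⟩) .k 1 (⟨0,[]⟩,⟨0,[]⟩) .k .k) (.R ⟨2,true,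
  false,true,[0,1],[1,0,0,0,-1],[0,0,1],(⟨0,[]⟩,⟨0,[]⟩),(⟨0,[(21,0)]⟩,⟨0,[(22,0)]⟩),⟨0,[]⟩,.k,.k,.k,
  (.r 0 ⟨1,[(11,0),(12,0),(2,0)]⟩ ⟨1,[(38,1),(0,0),(0,0)]⟩),.k,.k,⟨true,0,⟨1,[(26,0),(0,0)]⟩,⟨0,
  []⟩⟩,⟨false,0,⟨17,[(1,10),(0,6),(0,0),(7,0),(1,5),(1,0),(7,0),(12,2)]⟩,⟨1,[(20,1),(14,0),(3,0)]⟩⟩,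
  ⟨true,0,⟨0,[(38,0)]⟩,⟨6,[(11,1),(0,1),(21,0),(1,0)]⟩⟩,⟨false,0,⟨0,[(1,0)]⟩,⟨8,[(2,0),(3,1),(4,1),
  (4,0),(3,9),(14,3),(3,0),(0,0)]⟩⟩,⟨false,1,⟨1,[(19,0),(0,0),(19,0)]⟩,⟨0,[]⟩⟩,⟨true,0,⟨17,[(1,10),
  (0,6),(0,0),(7,0),(1,5),(1,0),(7,0),(12,2)]⟩,⟨0,[(0,0)]⟩⟩,[]⟩) (.R ⟨2,false,false,true,[0,1],[1,0,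
  0,0,-1],[0,0,1],(⟨0,[]⟩,⟨0,[]⟩),(⟨0,[(21,0)]⟩,⟨0,[(22,0)]⟩),⟨0,[]⟩,.k,.k,.k,(.r 0 ⟨1,[(11,0),(12,
  0),(2,0)]⟩ ⟨1,[(38,1),(0,0),(0,0)]⟩),.k,.k,⟨true,0,⟨1,[(26,0),(0,0)]⟩,⟨0,[]⟩⟩,⟨false,0,⟨1,[(0,0),
  (1,0),(10,0)]⟩,⟨1,[(20,1),(14,0),(3,0)]⟩⟩,⟨true,0,⟨0,[(38,0)]⟩,⟨6,[(11,1),(0,1),(21,0),(1,0)]⟩⟩,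
  ⟨false,0,⟨0,[(1,0)]⟩,⟨8,[(2,0),(3,1),(4,1),(4,0),(3,9),(14,3),(3,0),(0,0)]⟩⟩,⟨false,1,⟨1,[(19,0),
  (0,0),(19,0)]⟩,⟨0,[]⟩⟩,⟨false,0,⟨0,[(0,0)]⟩,⟨1,[(19,0),(0,2),(14,0)]⟩⟩,[.a ⟨true,0,⟨1,[(0,0),(1,
  0),(10,0)]⟩,⟨0,[(20,0)]⟩⟩ ⟨true,0,⟨1,[(26,0),(0,0)]⟩,⟨0,[]⟩⟩ ⟨false,0,⟨1,[(0,0),(1,0),(10,0)]⟩,⟨1,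
  [(20,1),(14,0),(3,0)]⟩⟩,.e ⟨false,1,⟨1,[(19,0),(0,0),(19,0)]⟩,⟨5,[(14,1),(20,0),(0,3),(2,0)]⟩⟩
  ⟨false,0,⟨0,[(0,0)]⟩,⟨3,[(19,0),(0,4),(13,1),(0,1),(3,0)]⟩⟩,.o ⟨false,1,⟨1,[(35,0),(3,0)]⟩,⟨1,
  [(26,0),(0,0)]⟩⟩,.fo]⟩)) (.Q [0,-2,0,0,1,0,0,0,-1,1,0,-1] (.p false [0,0,0,0,1] [1] (⟨0,[(21,0)]⟩,
  ⟨0,[(20,0)]⟩) .k 1 (⟨0,[]⟩,⟨0,[]⟩) .k .k) (.Q [0,-1,0,-2,0,0,0,0,-1,1,0,-1] (.p false [0,0,0,0,1]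
  [1] (⟨0,[(22,0)]⟩,⟨0,[(21,0)]⟩) .k 1 (⟨0,[]⟩,⟨0,[]⟩) .k .k) (.R ⟨1,true,false,false,[1,-1],[0,0,0,
  0,1],[0,1,-1,-2],(⟨0,[(33,0)]⟩,⟨0,[(34,0)]⟩),(⟨0,[(23,0)]⟩,⟨0,[(22,0)]⟩),⟨1,[(6,0),(12,0),(13,
  0)]⟩,.k,.k,(.r (-1) ⟨0,[(39,1),(0,0)]⟩ ⟨22,[(1,3),(5,3),(0,1),(3,5),(3,7),(4,3),(5,4),(0,10)]⟩),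
  (.r (-1) ⟨1,[(39,1),(0,0),(0,0)]⟩ ⟨1,[(12,0),(12,0),(2,0)]⟩),(.r (-2) ⟨1,[(20,0),(0,0),(17,3),(0,
  1),(0,0)]⟩ ⟨8,[(14,3),(1,6),(18,1),(0,1),(0,0)]⟩),.k,⟨false,1,⟨0,[(39,1),(0,0)]⟩,⟨9,[(7,1),(4,1),
  (3,3),(7,1),(15,0),(0,0)]⟩⟩,⟨true,1,⟨1,[(21,1),(14,0),(3,0)]⟩,⟨8,[(0,8),(13,3),(1,6),(18,1),(0,1),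
  (0,0)]⟩⟩,⟨false,0,⟨0,[(39,0)]⟩,⟨7,[(1,0),(5,1),(4,1),(4,0),(3,0),(18,0),(0,3)]⟩⟩,⟨true,0,⟨0,[(2,
  0)]⟩,⟨1,[(0,0),(2,0),(10,0)]⟩⟩,⟨true,0,⟨0,[(43,0)]⟩,⟨0,[]⟩⟩,⟨false,1,⟨6,[(2,5),(4,1),(4,1),(4,0),
  (3,0),(18,0),(0,3)]⟩,⟨0,[(0,0)]⟩⟩,[]⟩) (.Q [0,0,0,0,0,-1,0,0,0,0,0,1] (.ed false [1,-1,0,0,1] .k)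
  (.Q [0,-1,0,-1,0,0,-1,-1,-1,1,-1,-1] (.p false [0,0,1] [1,0,0,0,-1] (⟨0,[(31,0)]⟩,⟨0,[(30,0)]⟩)
  .k 2 (⟨0,[(23,0)]⟩,⟨0,[(24,0)]⟩) .k (.r 0 ⟨0,[(14,0),(25,0)]⟩ ⟨1,[(12,1),(27,1),(0,0),(0,0)]⟩))
  (.Q [0,0,1,0,0,0,0,0,1,-1,0,1] (.p true [0,0,0,0,1] [1] (⟨0,[(25,0)]⟩,⟨0,[(24,0)]⟩) .k 1 (⟨0,[]⟩,
  ⟨0,[]⟩) .k .k) (.S ⟨1,0,[0,1,0,-1],[0,0,0,0,1],[1,2],(⟨0,[(26,0)]⟩,⟨0,[(25,0)]⟩),⟨0,[(2,0)]⟩,.k,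
  (.r 0 ⟨2,[(18,1),(20,0),(0,0),(2,0)]⟩ ⟨9,[(4,1),(1,1),(3,1),(4,1),(8,3),(5,2),(0,4),(12,3)]⟩),
  ⟨false,0,⟨0,[]⟩,⟨1,[(23,0),(0,0),(19,0)]⟩⟩,⟨true,0,⟨0,[(42,0)]⟩,⟨6,[(15,1),(0,1),(21,0),(1,0)]⟩⟩,
  ⟨true,0,⟨6,[(15,1),(0,1),(21,0),(1,0)]⟩,⟨0,[(42,0)]⟩⟩,⟨false,1,⟨1,[(23,0),(0,0),(19,0)]⟩,⟨0,[]⟩⟩,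
  [.o ⟨false,0,⟨2,[(5,0),(12,1),(5,1),(14,1)]⟩,⟨0,[(1,0),(8,0)]⟩⟩,.a ⟨true,0,⟨0,[(24,0),(17,0)]⟩,⟨0,
  [(1,0),(5,0)]⟩⟩ ⟨false,0,⟨5,[(18,1),(20,0),(0,3),(2,0)]⟩,⟨1,[(23,0),(0,0),(19,0)]⟩⟩ ⟨true,0,⟨0,
  [(42,0)]⟩,⟨45,[(4,3),(5,3),(0,1),(3,5),(3,7),(4,3),(5,4),(0,10)]⟩⟩,.e ⟨false,0,⟨0,[(46,0)]⟩,⟨0,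
  [(44,0)]⟩⟩ ⟨false,0,⟨0,[(42,0)]⟩,⟨7,[(4,0),(5,1),(4,1),(4,0),(3,0),(18,0),(0,3)]⟩⟩,.o ⟨false,0,⟨0,
  [(0,0)]⟩,⟨1,[(1,1),(9,1),(27,0),(3,0)]⟩⟩]⟩) (.S ⟨1,0,[0,-1,1],[1,1,0,0,-1],[1,0,1,1],(⟨0,[(25,0),
  (8,0)]⟩,⟨0,[(2,0)]⟩),⟨0,[(25,0)]⟩,(.r (-1) ⟨9,[(4,1),(1,1),(3,1),(4,1),(8,3),(5,2),(0,4),(12,3)]⟩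
  ⟨2,[(18,1),(20,0),(0,0),(2,0)]⟩),.k,⟨false,0,⟨0,[]⟩,⟨1,[(23,0),(0,0),(19,0)]⟩⟩,⟨true,0,⟨0,[(42,
  0)]⟩,⟨6,[(15,1),(0,1),(21,0),(1,0)]⟩⟩,⟨true,0,⟨6,[(15,1),(0,1),(21,0),(1,0)]⟩,⟨0,[(42,0)]⟩⟩,
  ⟨false,1,⟨1,[(23,0),(0,0),(19,0)]⟩,⟨0,[]⟩⟩,[.o ⟨false,1,⟨9,[(0,2),(3,4),(3,0),(14,1),(6,0),(8,
  3)]⟩,⟨2,[(5,1),(12,0),(5,0),(14,0)]⟩⟩,.e ⟨false,1,⟨7,[(4,0),(5,1),(4,1),(4,0),(3,0),(18,0),(0,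
  3)]⟩,⟨2,[(18,1),(20,0),(0,0),(2,0)]⟩⟩ ⟨false,1,⟨0,[(44,0)]⟩,⟨0,[(38,0)]⟩⟩,.a ⟨true,0,⟨0,[(0,0)]⟩,
  ⟨1,[(24,1),(5,0),(0,0)]⟩⟩ ⟨true,0,⟨45,[(4,3),(5,3),(0,1),(3,5),(3,7),(4,3),(5,4),(0,10)]⟩,⟨2,[(18,
  1),(20,0),(0,0),(2,0)]⟩⟩ ⟨false,1,⟨1,[(30,0),(0,0),(12,1)]⟩,⟨5,[(18,1),(20,0),(0,3),(2,0)]⟩⟩,.e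
  ⟨false,1,⟨7,[(4,0),(5,1),(4,1),(4,0),(3,0),(18,0),(0,3)]⟩,⟨0,[(42,0)]⟩⟩ ⟨false,1,⟨0,[(44,0)]⟩,⟨0,
  [(46,0)]⟩⟩]⟩)) (.Q [0,-1,0,1,1,0,0,0,-1,0,0,-1] (.p false [0,0,0,0,1] [] (⟨0,[(25,0)]⟩,⟨0,[(24,
  0)]⟩) .k 0 (⟨0,[]⟩,⟨0,[]⟩) .k .k) (.Q [0,0,1,0,0,0,0,0,1,-1,0,1] (.p true [0,0,0,0,1] [1] (⟨0,
  [(26,0)]⟩,⟨0,[(25,0)]⟩) .k 1 (⟨0,[]⟩,⟨0,[]⟩) .k .k) (.S ⟨1,0,[0,0,1],[1,1,0,0,-1],[0,-1,1],(⟨0,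
  [(26,0),(8,0)]⟩,⟨0,[(3,0)]⟩),⟨0,[(26,0)]⟩,(.r (-1) ⟨9,[(0,3),(4,5),(1,1),(3,1),(4,1),(8,3),(5,0),
  (0,2)]⟩ ⟨2,[(19,1),(20,0),(0,0),(2,0)]⟩),.k,⟨true,0,⟨0,[(43,0)]⟩,⟨6,[(16,1),(0,1),(21,0),(1,0)]⟩⟩,
  ⟨false,0,⟨0,[(43,0)]⟩,⟨7,[(5,0),(5,1),(4,1),(4,0),(3,0),(18,0),(0,3)]⟩⟩,⟨false,1,⟨1,[(24,0),(0,0),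
  (19,0)]⟩,⟨0,[]⟩⟩,⟨true,0,⟨0,[(47,0)]⟩,⟨0,[]⟩⟩,[.a ⟨true,0,⟨0,[(1,0),(16,0)]⟩,⟨0,[(25,0)]⟩⟩ ⟨false,
  1,⟨1,[(24,0),(0,0),(19,0)]⟩,⟨5,[(19,1),(20,0),(0,3),(2,0)]⟩⟩ ⟨true,0,⟨1,[(31,0),(0,0)]⟩,⟨0,[]⟩⟩,
  .o ⟨false,1,⟨2,[(1,1),(3,0),(13,0),(20,0)]⟩,⟨2,[(6,1),(12,0),(5,0),(14,0)]⟩⟩,.o ⟨false,1,⟨2,[(1,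
  2),(17,1),(20,0),(0,0),(2,0)]⟩,⟨0,[(0,0)]⟩⟩,.e ⟨false,1,⟨0,[(45,0)]⟩,⟨0,[(47,0)]⟩⟩ ⟨false,1,⟨1,
  [(24,0),(0,0),(19,0)]⟩,⟨0,[]⟩⟩]⟩) (.S ⟨1,0,[0,-1,1],[1,1,0,0,-1],[1,0,1,1],(⟨0,[(26,0),(8,0)]⟩,⟨0,
  [(3,0)]⟩),⟨0,[(26,0)]⟩,(.r (-1) ⟨9,[(5,1),(1,1),(3,1),(4,1),(8,3),(5,2),(0,4),(12,3)]⟩ ⟨2,[(19,1),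
  (20,0),(0,0),(2,0)]⟩),.k,⟨false,0,⟨0,[]⟩,⟨1,[(24,0),(0,0),(19,0)]⟩⟩,⟨true,0,⟨0,[(43,0)]⟩,⟨6,[(16,
  1),(0,1),(21,0),(1,0)]⟩⟩,⟨true,0,⟨6,[(16,1),(0,1),(21,0),(1,0)]⟩,⟨0,[(43,0)]⟩⟩,⟨false,1,⟨1,[(24,
  0),(0,0),(19,0)]⟩,⟨0,[]⟩⟩,[.o ⟨false,1,⟨9,[(0,2),(4,4),(3,0),(14,1),(6,0),(8,3)]⟩,⟨2,[(6,1),(12,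
  0),(5,0),(14,0)]⟩⟩,.e ⟨false,1,⟨7,[(5,0),(5,1),(4,1),(4,0),(3,0),(18,0),(0,3)]⟩,⟨2,[(19,1),(20,0),
  (0,0),(2,0)]⟩⟩ ⟨false,1,⟨0,[(45,0)]⟩,⟨0,[(39,0)]⟩⟩,.a ⟨true,0,⟨0,[(0,0)]⟩,⟨1,[(25,1),(5,0),(0,
  0)]⟩⟩ ⟨true,0,⟨45,[(5,3),(5,3),(0,1),(3,5),(3,7),(4,3),(5,4),(0,10)]⟩,⟨2,[(19,1),(20,0),(0,0),(2,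
  0)]⟩⟩ ⟨false,1,⟨1,[(31,0),(0,0),(12,1)]⟩,⟨5,[(19,1),(20,0),(0,3),(2,0)]⟩⟩,.e ⟨false,1,⟨7,[(5,0),
  (5,1),(4,1),(4,0),(3,0),(18,0),(0,3)]⟩,⟨0,[(43,0)]⟩⟩ ⟨false,1,⟨0,[(45,0)]⟩,⟨0,[(47,0)]⟩⟩]⟩)) (.Q
  [0,-1,0,0,1,0,0,0,-1,0,0,-1] (.p false [0,0,0,0,1] [] (⟨0,[(26,0)]⟩,⟨0,[(25,0)]⟩) .k 0 (⟨0,[]⟩,⟨0,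
  []⟩) .k .k) (.R ⟨2,true,false,false,[0,1],[0,0,0,0,1],[0,1,1],(⟨0,[]⟩,⟨0,[]⟩),(⟨0,[(27,0)]⟩,⟨0,
  [(26,0)]⟩),⟨0,[]⟩,.k,.k,.k,(.r (-1) ⟨9,[(5,1),(1,1),(3,1),(4,1),(8,3),(5,2),(0,4),(12,3)]⟩ ⟨2,
  [(19,1),(20,0),(0,0),(2,0)]⟩),.k,.k,⟨true,0,⟨1,[(31,0),(0,0)]⟩,⟨0,[]⟩⟩,⟨false,0,⟨0,[(25,0)]⟩,⟨5,
  [(0,5),(18,1),(20,0),(0,3),(2,0)]⟩⟩,⟨false,0,⟨0,[(43,0)]⟩,⟨7,[(5,0),(5,1),(4,1),(4,0),(3,0),(18,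
  0),(0,3)]⟩⟩,⟨true,(-1),⟨0,[(1,0)]⟩,⟨0,[(7,0)]⟩⟩,⟨true,0,⟨0,[(47,0)]⟩,⟨0,[]⟩⟩,⟨false,0,⟨0,[(25,
  0)]⟩,⟨0,[(0,0)]⟩⟩,[]⟩) (.S ⟨1,0,[0,2,0,-1],[0,0,0,0,1],[1,1],(⟨0,[(27,0)]⟩,⟨0,[(26,0)]⟩),⟨0,[(3,
  0)]⟩,.k,(.r 0 ⟨2,[(19,1),(20,0),(0,0),(2,0)]⟩ ⟨9,[(5,1),(1,1),(3,1),(4,1),(8,3),(5,2),(0,4),(12,
  3)]⟩),⟨true,0,⟨0,[]⟩,⟨0,[(47,0)]⟩⟩,⟨false,0,⟨0,[(43,0)]⟩,⟨7,[(5,0),(5,1),(4,1),(4,0),(3,0),(18,0),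
  (0,3)]⟩⟩,⟨false,1,⟨7,[(5,0),(5,1),(4,1),(4,0),(3,0),(18,0),(0,3)]⟩,⟨0,[(43,0)]⟩⟩,⟨true,0,⟨0,[(47,
  0)]⟩,⟨0,[]⟩⟩,[.o ⟨false,(-1),⟨0,[(0,0),(17,0),(21,0)]⟩,⟨0,[(7,0),(37,0)]⟩⟩,.a ⟨true,(-1),⟨0,[(1,
  0)]⟩,⟨3,[(5,2),(1,0),(4,0),(3,0),(11,0)]⟩⟩ ⟨true,0,⟨0,[]⟩,⟨1,[(31,0),(0,0)]⟩⟩ ⟨false,0,⟨2,[(19,1),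
  (20,0),(0,0),(2,0)]⟩,⟨7,[(5,0),(5,1),(4,1),(4,0),(3,0),(18,0),(0,3)]⟩⟩,.o ⟨false,0,⟨1,[(0,1),(39,
  0),(4,0)]⟩,⟨0,[(24,0)]⟩⟩,.o ⟨false,0,⟨17,[(1,5),(7,3),(10,1),(4,11),(5,3),(8,8),(4,2)]⟩,⟨0,[(5,0),
  (12,0),(21,0),(0,0)]⟩⟩]⟩)))) (.Q [0,0,0,0,0,0,0,0,-1,1,0,-1] (.p false [0,0,0,0,1] [1] (⟨0,[(24,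
  0)]⟩,⟨0,[(23,0)]⟩) .k 1 (⟨0,[]⟩,⟨0,[]⟩) .k .k) (.Q [0,-2,0,-2,1,0,0,0,-1,0,0,-1] (.p false [0,0,0,
  0,1] [] (⟨0,[(25,0)]⟩,⟨0,[(24,0)]⟩) .k 0 (⟨0,[]⟩,⟨0,[]⟩) .k .k) (.R ⟨1,true,false,true,[1,-1,-1],
  [1,0,-1,0,1],[1,1,-1,-1,0,0,0,-1],(⟨0,[(21,0)]⟩,⟨0,[(33,0),(0,0)]⟩),(⟨0,[(26,0),(5,0)]⟩,⟨0,[(2,0),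
  (19,0)]⟩),⟨0,[(9,0)]⟩,.k,.k,(.x 1 ⟨0,[(8,0),(24,0),(0,1)]⟩ ⟨1,[(9,1),(20,1),(8,0),(3,2)]⟩),(.r
  (-1) ⟨1,[(0,0),(23,0),(18,0)]⟩ ⟨1,[(15,0),(12,0),(2,0)]⟩),(.r (-2) ⟨3,[(0,3),(22,0),(0,4),(13,1),
  (4,2)]⟩ ⟨8,[(17,3),(1,6),(18,1),(0,1),(0,0)]⟩),.k,⟨true,1,⟨1,[(0,0),(23,0),(18,0)]⟩,⟨6,[(18,3),(0,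
  4),(18,0),(0,1),(6,0)]⟩⟩,⟨false,1,⟨0,[(24,0),(18,0)]⟩,⟨4,[(0,1),(0,2),(15,2),(1,1),(19,2),(0,
  0)]⟩⟩,⟨false,0,⟨0,[]⟩,⟨1,[(23,0),(0,0),(19,0)]⟩⟩,⟨true,(-1),⟨0,[(3,0),(13,0)]⟩,⟨1,[(0,0),(22,
  0)]⟩⟩,⟨true,0,⟨6,[(15,1),(0,1),(21,0),(1,0)]⟩,⟨0,[(42,0)]⟩⟩,⟨false,0,⟨2,[(3,0),(3,0),(7,0),(8,1),
  (2,0)]⟩,⟨0,[(0,0)]⟩⟩,[]⟩) (.Q [0,0,1,0,0,0,0,0,1,-1,0,1] (.p true [0,0,0,0,1] [1] (⟨0,[(26,0)]⟩,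
  ⟨0,[(25,0)]⟩) .k 1 (⟨0,[]⟩,⟨0,[]⟩) .k .k) (.R ⟨0,false,false,false,[0,0,0,0,1],[1,-1],[1,1,1],(⟨0,
  [(27,0)]⟩,⟨0,[(26,0)]⟩),(⟨0,[(37,0)]⟩,⟨0,[(38,0)]⟩),⟨0,[(3,0)]⟩,.k,.k,(.r 0 ⟨2,[(19,1),(20,0),(0,
  0),(2,0)]⟩ ⟨9,[(0,3),(4,5),(1,1),(3,1),(4,1),(8,3),(5,0),(0,2)]⟩),(.r 0 ⟨1,[(16,0),(12,0),(2,0)]⟩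
  ⟨1,[(43,1),(0,0),(0,0)]⟩),.k,.k,⟨true,(-1),⟨6,[(19,3),(0,4),(18,0),(0,1),(6,0)]⟩,⟨1,[(43,1),(0,0),
  (0,0)]⟩⟩,⟨false,0,⟨0,[(2,0)]⟩,⟨1,[(25,1),(14,0),(3,0)]⟩⟩,⟨true,0,⟨1,[(31,0),(0,0)]⟩,⟨5,[(19,1),
  (20,0),(0,3),(2,0)]⟩⟩,⟨false,1,⟨0,[(5,0),(37,0)]⟩,⟨0,[(6,0)]⟩⟩,⟨false,0,⟨0,[]⟩,⟨0,[]⟩⟩,⟨false,0,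
  ⟨0,[]⟩,⟨0,[]⟩⟩,[.o ⟨false,0,⟨0,[(43,0)]⟩,⟨7,[(4,1),(2,3),(17,1),(14,2),(4,0)]⟩⟩,.e ⟨false,0,⟨0,
  []⟩,⟨1,[(24,0),(0,0),(18,0)]⟩⟩ ⟨false,1,⟨3,[(2,0),(2,2),(13,1),(20,0),(3,1)]⟩,⟨0,[(6,0)]⟩⟩,.a
  ⟨true,0,⟨0,[(25,0)]⟩,⟨0,[(2,0)]⟩⟩ ⟨false,0,⟨1,[(31,0),(0,0)]⟩,⟨1,[(44,0),(0,0)]⟩⟩ ⟨true,0,⟨3,[(2,
  2),(2,0),(13,1),(20,0)]⟩,⟨0,[(6,0)]⟩⟩,.o ⟨false,0,⟨0,[(0,0)]⟩,⟨1,[(2,1),(37,0),(3,0)]⟩⟩]⟩) (.R ⟨0,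
  false,false,true,[0,1,0,0,-1],[1,0,0,0,-1],[1,0,1,1],(⟨0,[(3,0)]⟩,⟨0,[(27,0),(9,0)]⟩),(⟨0,[(26,
  0)]⟩,⟨0,[(27,0)]⟩),⟨0,[(27,0)]⟩,(.r (-1) ⟨9,[(5,1),(1,1),(3,1),(4,1),(8,3),(5,2),(0,4),(12,3)]⟩
  ⟨2,[(19,1),(20,0),(0,0),(2,0)]⟩),.k,.k,.k,.k,.k,⟨true,0,⟨45,[(5,3),(5,3),(0,1),(3,5),(3,7),(4,3),
  (5,4),(0,10)]⟩,⟨0,[(43,0)]⟩⟩,⟨false,0,⟨4,[(5,1),(6,0),(3,0),(1,0),(0,0),(5,1),(2,0)]⟩,⟨1,[(40,0),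
  (3,0)]⟩⟩,⟨false,0,⟨0,[]⟩,⟨1,[(24,0),(0,0),(19,0)]⟩⟩,⟨true,(-1),⟨0,[(18,0)]⟩,⟨7,[(4,1),(2,3),(17,
  1),(14,2),(4,0)]⟩⟩,⟨false,0,⟨0,[]⟩,⟨0,[]⟩⟩,⟨false,0,⟨0,[]⟩,⟨0,[]⟩⟩,[.a ⟨true,0,⟨0,[(2,0)]⟩,⟨0,
  [(25,0)]⟩⟩ ⟨true,0,⟨45,[(5,3),(5,3),(0,1),(3,5),(3,7),(4,3),(5,4),(0,10)]⟩,⟨0,[(43,0)]⟩⟩ ⟨false,0,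
  ⟨4,[(5,1),(6,0),(3,0),(1,0),(0,0),(5,1),(2,0)]⟩,⟨1,[(40,0),(3,0)]⟩⟩,.o ⟨false,1,⟨1,[(2,0),(2,0),
  (34,0)]⟩,⟨2,[(6,1),(12,0),(5,0),(14,0)]⟩⟩,.o ⟨false,1,⟨0,[(0,0),(39,0)]⟩,⟨1,[(25,1),(5,0),(0,
  0)]⟩⟩,.o ⟨false,1,⟨0,[(2,0),(37,0)]⟩,⟨0,[(25,0)]⟩⟩]⟩))) (.R ⟨0,false,false,false,[0,0,0,0,1],[0,
  1],[0,1,1],(⟨0,[(25,0)]⟩,⟨0,[(24,0)]⟩),(⟨0,[(36,0)]⟩,⟨0,[(35,0)]⟩),⟨0,[(1,0)]⟩,.k,.k,(.r 0 ⟨2,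
  [(17,1),(20,0),(0,0),(2,0)]⟩ ⟨9,[(3,1),(1,1),(3,1),(4,1),(8,3),(5,2),(0,4),(12,3)]⟩),(.r 0 ⟨2,
  [(17,1),(20,0),(0,0),(2,0)]⟩ ⟨9,[(3,1),(1,1),(3,1),(4,1),(8,3),(5,2),(0,4),(12,3)]⟩),.k,.k,⟨false,
  0,⟨2,[(17,1),(20,0),(0,0),(2,0)]⟩,⟨7,[(3,0),(5,1),(4,1),(4,0),(3,0),(18,0),(0,3)]⟩⟩,⟨true,1,⟨0,
  [(3,0),(12,0),(21,0),(0,0)]⟩,⟨8,[(0,5),(6,1),(9,5),(0,3),(4,2),(5,1),(13,2)]⟩⟩,⟨true,0,⟨1,[(29,0),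
  (0,0)]⟩,⟨5,[(17,1),(20,0),(0,3),(2,0)]⟩⟩,⟨false,2,⟨0,[(5,0),(37,0)]⟩,⟨0,[(0,0),(15,0)]⟩⟩,⟨false,0,
  ⟨0,[]⟩,⟨0,[]⟩⟩,⟨false,0,⟨0,[]⟩,⟨0,[]⟩⟩,[.o ⟨false,1,⟨7,[(2,1),(2,3),(17,1),(14,2),(4,0)]⟩,⟨0,[(41,
  0)]⟩⟩,.a ⟨true,1,⟨7,[(3,0),(5,1),(4,1),(4,0),(3,0),(18,0),(0,3)]⟩,⟨0,[(16,0)]⟩⟩ ⟨true,0,⟨1,[(29,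
  0),(0,0)]⟩,⟨0,[]⟩⟩ ⟨false,2,⟨1,[(5,1),(36,0),(0,0)]⟩,⟨0,[(0,0),(15,0)]⟩⟩,.o ⟨false,0,⟨0,[(0,0)]⟩,
  ⟨0,[(22,0)]⟩⟩,.o ⟨false,0,⟨1,[(0,1),(28,0),(0,0)]⟩,⟨0,[(3,0),(12,0),(21,0),(0,0)]⟩⟩]⟩)))) (.Q [0,
  0,0,-2,-1,0,0,0,1,0,0,1] (.p true [0,0,0,0,1] [] (⟨0,[(22,0)]⟩,⟨0,[(21,0)]⟩) .k 0 (⟨0,[]⟩,⟨0,[]⟩)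
  .k .k) (.R ⟨1,true,false,true,[1,-1],[1,0,0,0,-1],[1,1,-1,-1],(⟨0,[(33,0)]⟩,⟨0,[(34,0)]⟩),(⟨0,
  [(22,0)]⟩,⟨0,[(23,0)]⟩),⟨1,[(6,0),(12,0),(13,0)]⟩,.k,.k,(.r (-1) ⟨0,[(39,1),(0,0)]⟩ ⟨3,[(3,1),(12,
  1),(4,1),(5,0),(0,0)]⟩),(.r 0 ⟨2,[(15,1),(20,0),(0,0),(2,0)]⟩ ⟨15,[(3,9),(12,1),(4,9),(5,4),(0,4),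
  (12,7)]⟩),(.r (-1) ⟨1,[(15,1),(4,0),(0,0),(14,0),(3,1)]⟩ ⟨15,[(3,1),(12,9),(4,1),(5,0),(0,0),(12,
  7)]⟩),.k,⟨true,0,⟨2,[(15,1),(20,0),(0,0),(2,0)]⟩,⟨11,[(5,1),(10,3),(10,4),(0,2),(12,5)]⟩⟩,⟨false,
  2,⟨0,[(20,0),(19,0)]⟩,⟨9,[(0,6),(15,3),(4,2),(15,1),(3,0)]⟩⟩,⟨false,0,⟨0,[]⟩,⟨1,[(20,0),(0,0),(19,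
  0)]⟩⟩,⟨true,1,⟨0,[(3,0)]⟩,⟨2,[(0,0),(0,0),(12,0),(6,0)]⟩⟩,⟨true,0,⟨6,[(12,1),(0,1),(21,0),(1,0)]⟩,
  ⟨0,[(39,0)]⟩⟩,⟨false,2,⟨8,[(3,9),(0,0),(2,0),(4,1),(4,0),(3,0),(18,0),(0,5)]⟩,⟨0,[(0,0)]⟩⟩,[]⟩)
  (.Q [0,0,1,0,-1,0,0,0,1,0,0,1] (.p true [0,0,0,0,1] [] (⟨0,[(23,0)]⟩,⟨0,[(22,0)]⟩) .k 0 (⟨0,[]⟩,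
  ⟨0,[]⟩) .k .k) (.Q [0,0,0,0,0,-1,0,0,0,0,0,1] (.ed false [1,-1,0,0,1] .k) (.S ⟨1,0,[0,1,0,-1],[0,
  0,0,0,1],[1,2],(⟨0,[(25,0)]⟩,⟨0,[(24,0)]⟩),⟨0,[(0,0)]⟩,.k,(.r 0 ⟨2,[(17,1),(20,0),(0,0),(2,0)]⟩
  ⟨15,[(5,9),(12,1),(4,9),(5,4),(0,4),(12,7)]⟩),⟨false,0,⟨0,[]⟩,⟨1,[(22,0),(0,0),(19,0)]⟩⟩,⟨true,0,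
  ⟨0,[(41,0)]⟩,⟨6,[(14,1),(0,1),(21,0),(1,0)]⟩⟩,⟨true,0,⟨6,[(14,1),(0,1),(21,0),(1,0)]⟩,⟨0,[(41,
  0)]⟩⟩,⟨false,1,⟨1,[(22,0),(0,0),(19,0)]⟩,⟨0,[]⟩⟩,[.e ⟨false,0,⟨0,[(37,0)]⟩,⟨0,[(43,0)]⟩⟩ ⟨false,0,
  ⟨2,[(17,1),(20,0),(0,0),(2,0)]⟩,⟨1,[(2,0),(20,0),(19,0)]⟩⟩,.o ⟨false,0,⟨0,[(3,0),(37,0),(1,0)]⟩,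
  ⟨0,[(5,0)]⟩⟩,.o ⟨false,0,⟨0,[(3,0),(39,0)]⟩,⟨0,[(22,0)]⟩⟩,.a ⟨true,(-1),⟨0,[(1,0)]⟩,⟨1,[(5,1),(10,
  1),(25,0),(0,0)]⟩⟩ ⟨false,0,⟨5,[(17,1),(20,0),(0,3),(2,0)]⟩,⟨1,[(29,0),(0,0),(12,1)]⟩⟩ ⟨true,0,⟨2,
  [(17,1),(20,0),(0,0),(2,0)]⟩,⟨7,[(5,1),(12,1),(4,1),(5,0),(0,0)]⟩⟩]⟩) (.R ⟨0,false,false,true,[0,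
  0,0,0,1],[0,1],[],(⟨0,[(25,0)]⟩,⟨0,[(24,0)]⟩),(⟨0,[(36,0)]⟩,⟨0,[(35,0)]⟩),⟨0,[(0,0)]⟩,.k,.k,(.r 0
  ⟨2,[(17,1),(20,0),(0,0),(2,0)]⟩ ⟨15,[(5,9),(12,1),(4,9),(5,4),(0,4),(12,7)]⟩),(.r 0 ⟨2,[(17,1),
  (20,0),(0,0),(2,0)]⟩ ⟨15,[(5,9),(12,1),(4,9),(5,4),(0,4),(12,7)]⟩),.k,.k,⟨true,1,⟨1,[(41,1),(0,0),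
  (0,0)]⟩,⟨8,[(3,2),(3,0),(9,2),(0,4),(3,2),(6,0)]⟩⟩,⟨false,2,⟨0,[(22,0),(19,0)]⟩,⟨0,[(1,0)]⟩⟩,
  ⟨false,1,⟨0,[(43,0)]⟩,⟨0,[(45,0)]⟩⟩,⟨true,1,⟨0,[(5,0)]⟩,⟨3,[(1,1),(1,1),(13,1),(24,0),(0,0)]⟩⟩,
  ⟨false,0,⟨0,[]⟩,⟨0,[]⟩⟩,⟨false,0,⟨0,[]⟩,⟨0,[]⟩⟩,[.e ⟨false,1,⟨1,[(22,0),(0,0),(18,0)]⟩,⟨0,[]⟩⟩
  ⟨false,1,⟨0,[(22,0),(16,0)]⟩,⟨3,[(1,1),(1,1),(13,1),(24,0),(0,4)]⟩⟩,.o ⟨false,1,⟨8,[(5,0),(3,1),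
  (4,1),(4,0),(3,0),(14,3),(3,0),(0,0)]⟩,⟨0,[(41,0)]⟩⟩,.o ⟨false,0,⟨0,[(3,0),(39,0)]⟩,⟨0,[(22,0)]⟩⟩,
  .a ⟨true,(-1),⟨0,[(1,0)]⟩,⟨1,[(5,1),(10,1),(25,0),(0,0)]⟩⟩ ⟨false,1,⟨1,[(42,0),(0,0)]⟩,⟨1,[(29,0),
  (0,0)]⟩⟩ ⟨true,1,⟨0,[(22,0),(16,0)]⟩,⟨0,[(1,0),(39,0)]⟩⟩]⟩)) (.Q [0,0,0,0,0,-1,0,0,0,0,0,1] (.ed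
  false [1,-1,0,0,1] .k) (.S ⟨1,0,[0,2,0,-1],[0,0,0,0,1],[1,1],(⟨0,[(25,0)]⟩,⟨0,[(24,0)]⟩),⟨0,[(0,
  0)]⟩,.k,(.r 0 ⟨7,[(1,1),(1,1),(13,3),(20,0),(3,2)]⟩ ⟨15,[(5,9),(12,1),(4,9),(5,4),(0,4),(12,7)]⟩),
  ⟨true,0,⟨0,[]⟩,⟨0,[(45,0)]⟩⟩,⟨false,0,⟨0,[(41,0)]⟩,⟨1,[(2,0),(20,0),(19,0)]⟩⟩,⟨false,1,⟨1,[(2,0),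
  (20,0),(19,0)]⟩,⟨0,[(41,0)]⟩⟩,⟨true,0,⟨0,[(45,0)]⟩,⟨0,[]⟩⟩,[.o ⟨false,(-1),⟨0,[(3,0),(37,0)]⟩,⟨0,
  [(5,0),(37,0)]⟩⟩,.a ⟨true,(-1),⟨0,[(3,0),(12,0),(26,0)]⟩,⟨0,[(2,0),(13,0),(26,0)]⟩⟩ ⟨true,0,⟨0,
  []⟩,⟨1,[(29,0),(0,0)]⟩⟩ ⟨false,0,⟨7,[(1,1),(1,1),(13,3),(20,0),(3,2)]⟩,⟨1,[(2,0),(20,0),(19,0)]⟩⟩,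
  .o ⟨false,0,⟨0,[(3,0),(39,0)]⟩,⟨0,[(22,0)]⟩⟩,.o ⟨false,0,⟨2,[(3,0),(3,0),(15,1),(5,0),(8,0),(4,
  0)]⟩,⟨0,[(1,0)]⟩⟩]⟩) (.R ⟨0,false,false,false,[0,0,0,0,1],[0,1],[0,1,1],(⟨0,[(25,0)]⟩,⟨0,[(24,
  0)]⟩),(⟨0,[(36,0)]⟩,⟨0,[(35,0)]⟩),⟨0,[(0,0)]⟩,.k,.k,(.r 0 ⟨7,[(1,1),(1,1),(13,3),(20,0),(3,2)]⟩
  ⟨15,[(5,9),(12,1),(4,9),(5,4),(0,4),(12,7)]⟩),(.r 0 ⟨7,[(1,1),(1,1),(13,3),(20,0),(3,2)]⟩ ⟨15,[(5,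
  9),(12,1),(4,9),(5,4),(0,4),(12,7)]⟩),.k,.k,⟨false,0,⟨7,[(1,1),(1,1),(13,3),(20,0),(3,2)]⟩,⟨1,[(2,
  0),(20,0),(19,0)]⟩⟩,⟨true,1,⟨0,[(1,0)]⟩,⟨8,[(3,5),(3,1),(9,5),(0,3),(4,2),(5,1),(13,8)]⟩⟩,⟨true,0,
  ⟨1,[(29,0),(0,0)]⟩,⟨4,[(1,0),(1,0),(13,0),(21,1),(2,0)]⟩⟩,⟨false,2,⟨0,[(5,0),(37,0)]⟩,⟨0,[(3,0),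
  (12,0),(26,0)]⟩⟩,⟨false,0,⟨0,[]⟩,⟨0,[]⟩⟩,⟨false,0,⟨0,[]⟩,⟨0,[]⟩⟩,[.o ⟨false,1,⟨8,[(5,0),(3,1),(4,
  1),(4,0),(3,0),(14,3),(3,0),(0,0)]⟩,⟨0,[(41,0)]⟩⟩,.a ⟨true,1,⟨1,[(2,0),(20,0),(19,0)]⟩,⟨0,[(16,
  0)]⟩⟩ ⟨true,0,⟨1,[(29,0),(0,0)]⟩,⟨0,[]⟩⟩ ⟨false,2,⟨1,[(5,1),(36,0),(0,0)]⟩,⟨0,[(3,0),(12,0),(26,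
  0)]⟩⟩,.o ⟨false,0,⟨0,[(3,0),(39,0)]⟩,⟨0,[(22,0)]⟩⟩,.o ⟨false,0,⟨2,[(3,0),(3,0),(15,1),(5,0),(8,0),
  (4,0)]⟩,⟨0,[(1,0)]⟩⟩]⟩)))))))) (.Q [0,0,0,-1,-1,0,0,0,1,0,0,1] (.p true [0,0,0,0,1] [] (⟨0,[(18,
  0)]⟩,⟨0,[(17,0)]⟩) .k 0 (⟨0,[]⟩,⟨0,[]⟩) .k .k) (.R ⟨2,true,false,false,[0,1],[0,0,0,0,1],[1,0,1,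
  1],(⟨0,[]⟩,⟨0,[]⟩),(⟨0,[(19,0)]⟩,⟨0,[(18,0)]⟩),⟨0,[]⟩,.k,.k,.k,(.r (-1) ⟨7,[(3,1),(4,1),(4,1),(2,
  0),(0,0),(5,3),(0,1),(12,4)]⟩ ⟨2,[(11,1),(20,0),(0,0),(2,0)]⟩),.k,.k,⟨false,1,⟨14,[(1,1),(1,2),(0,
  0),(3,3),(4,2),(23,9)]⟩,⟨2,[(11,1),(20,0),(0,0),(2,0)]⟩⟩,⟨true,(-1),⟨7,[(0,5),(11,1),(4,1),(5,0),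
  (0,0)]⟩,⟨0,[(16,0)]⟩⟩,⟨true,0,⟨0,[]⟩,⟨0,[(39,0)]⟩⟩,⟨false,(-1),⟨0,[(0,0)]⟩,⟨14,[(1,1),(1,2),(0,0),
  (3,3),(4,2),(2,14),(20,9)]⟩⟩,⟨false,1,⟨14,[(1,1),(1,2),(0,0),(3,3),(4,2),(23,9)]⟩,⟨0,[(35,0)]⟩⟩,
  ⟨true,(-1),⟨4,[(0,3),(11,0),(4,0),(13,1),(1,0)]⟩,⟨0,[(16,0)]⟩⟩,[]⟩) (.Q [0,1,0,1,0,0,0,0,1,-1,0,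
  1] (.p true [0,0,0,0,1] [1] (⟨0,[(19,0)]⟩,⟨0,[(18,0)]⟩) .k 1 (⟨0,[]⟩,⟨0,[]⟩) .k .k) (.Q [0,0,0,-2,
  -1,0,0,0,1,0,0,1] (.p true [0,0,0,0,1] [] (⟨0,[(20,0)]⟩,⟨0,[(19,0)]⟩) .k 0 (⟨0,[]⟩,⟨0,[]⟩) .k .k)
  (.R ⟨1,true,false,true,[1,-1],[1,0,0,0,-1],[1,1,-1,-1],(⟨0,[(31,0)]⟩,⟨0,[(32,0)]⟩),(⟨0,[(20,0)]⟩,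
  ⟨0,[(21,0)]⟩),⟨1,[(4,0),(12,0),(13,0)]⟩,.k,.k,(.r (-1) ⟨0,[(37,1),(0,0)]⟩ ⟨16,[(5,3),(4,3),(3,5),
  (0,3),(9,7),(0,3),(12,1)]⟩),(.r 0 ⟨2,[(13,1),(20,0),(0,0),(2,0)]⟩ ⟨9,[(2,1),(2,1),(4,1),(4,1),(3,
  1),(5,4),(0,2),(12,5)]⟩),(.r (-1) ⟨1,[(13,1),(4,0),(0,0),(14,0),(3,1)]⟩ ⟨16,[(5,0),(4,0),(3,9),(0,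
  0),(9,1),(0,0),(12,8)]⟩),.k,⟨true,0,⟨2,[(13,1),(20,0),(0,0),(2,0)]⟩,⟨3,[(14,1),(10,0),(0,0),(10,
  1),(1,1)]⟩⟩,⟨false,2,⟨0,[(18,0),(19,0)]⟩,⟨9,[(0,6),(13,3),(4,2),(15,1),(3,0)]⟩⟩,⟨false,0,⟨0,[]⟩,
  ⟨1,[(18,0),(0,0),(19,0)]⟩⟩,⟨true,1,⟨0,[(2,0)]⟩,⟨1,[(0,0),(0,0),(10,0)]⟩⟩,⟨true,0,⟨6,[(10,1),(0,1),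
  (21,0),(1,0)]⟩,⟨0,[(37,0)]⟩⟩,⟨false,2,⟨14,[(2,14),(0,1),(1,2),(0,0),(3,3),(4,2),(23,9)]⟩,⟨0,[(0,
  0)]⟩⟩,[]⟩) (.Q [0,-1,0,-2,0,0,0,0,-1,1,0,-1] (.p false [0,0,0,0,1] [1] (⟨0,[(21,0)]⟩,⟨0,[(20,
  0)]⟩) .k 1 (⟨0,[]⟩,⟨0,[]⟩) .k .k) (.R ⟨1,true,false,false,[1,-1],[0,0,0,0,1],[0,1,-1,-2],(⟨0,[(32,
  0)]⟩,⟨0,[(33,0)]⟩),(⟨0,[(22,0)]⟩,⟨0,[(21,0)]⟩),⟨1,[(5,0),(12,0),(13,0)]⟩,.k,.k,(.r (-1) ⟨1,[(0,0),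
  (13,0),(5,0),(14,0),(3,1)]⟩ ⟨16,[(6,3),(4,3),(3,5),(0,3),(9,7),(0,3),(12,1)]⟩),(.r (-1) ⟨3,[(0,1),
  (19,1),(14,0),(3,1),(0,0)]⟩ ⟨1,[(11,0),(12,0),(2,0)]⟩),(.r (-2) ⟨1,[(0,1),(18,0),(0,2),(14,0),(3,
  1)]⟩ ⟨8,[(13,3),(1,6),(18,1),(0,1),(0,0)]⟩),.k,⟨false,1,⟨1,[(0,0),(13,0),(5,0),(14,0),(3,1)]⟩,⟨9,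
  [(6,1),(4,1),(3,3),(7,1),(15,0),(0,0)]⟩⟩,⟨true,1,⟨1,[(20,1),(14,0),(3,0)]⟩,⟨8,[(0,8),(12,3),(1,6),
  (18,1),(0,1),(0,0)]⟩⟩,⟨false,0,⟨0,[(38,0)]⟩,⟨1,[(1,0),(18,0),(19,0)]⟩⟩,⟨true,0,⟨0,[(2,0)]⟩,⟨1,[(0,
  0),(2,0),(9,0)]⟩⟩,⟨true,0,⟨0,[(42,0)]⟩,⟨0,[]⟩⟩,⟨false,1,⟨6,[(2,5),(3,1),(4,1),(4,0),(3,0),(18,0),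
  (0,3)]⟩,⟨0,[(0,0)]⟩⟩,[]⟩) (.Q [0,0,0,0,0,0,0,0,-1,1,0,-1] (.p false [0,0,0,0,1] [1] (⟨0,[(22,0)]⟩,
  ⟨0,[(21,0)]⟩) .k 1 (⟨0,[]⟩,⟨0,[]⟩) .k .k) (.Q [0,0,0,0,0,-1,0,0,0,0,0,1] (.ed false [1,-1,0,0,1]
  .k) (.Q [0,0,1,0,0,0,0,0,1,-1,0,1] (.p true [0,0,0,0,1] [1] (⟨0,[(24,0)]⟩,⟨0,[(23,0)]⟩) .k 1 (⟨0,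
  []⟩,⟨0,[]⟩) .k .k) (.S ⟨1,0,[0,0,1],[1,1,0,0,-1],[0,-1,1],(⟨0,[(24,0),(8,0)]⟩,⟨0,[(1,0)]⟩),⟨0,
  [(24,0)]⟩,(.r (-1) ⟨9,[(6,1),(2,1),(4,1),(4,1),(3,1),(5,4),(0,2),(12,5)]⟩ ⟨2,[(17,1),(20,0),(0,0),
  (2,0)]⟩),.k,⟨true,0,⟨0,[(41,0)]⟩,⟨6,[(14,1),(0,1),(21,0),(1,0)]⟩⟩,⟨false,0,⟨0,[(41,0)]⟩,⟨1,[(4,0),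
  (18,0),(19,0)]⟩⟩,⟨false,1,⟨1,[(22,0),(0,0),(19,0)]⟩,⟨0,[]⟩⟩,⟨true,0,⟨0,[(45,0)]⟩,⟨0,[]⟩⟩,[.a
  ⟨true,0,⟨0,[(2,0)]⟩,⟨0,[(23,0)]⟩⟩ ⟨false,1,⟨1,[(22,0),(0,0),(19,0)]⟩,⟨5,[(17,1),(20,0),(0,3),(2,
  0)]⟩⟩ ⟨true,0,⟨1,[(29,0),(0,0)]⟩,⟨0,[]⟩⟩,.o ⟨false,1,⟨1,[(2,1),(35,0),(4,0)]⟩,⟨2,[(5,1),(11,0),(5,
  0),(14,0)]⟩⟩,.o ⟨false,1,⟨1,[(2,1),(35,0),(3,0)]⟩,⟨0,[(0,0)]⟩⟩,.e ⟨false,1,⟨0,[(43,0)]⟩,⟨0,[(45,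
  0)]⟩⟩ ⟨false,1,⟨1,[(22,0),(0,0),(19,0)]⟩,⟨0,[]⟩⟩]⟩) (.S ⟨1,0,[0,-1,1],[1,1,0,0,-1],[1,0,1,1],(⟨0,
  [(24,0),(8,0)]⟩,⟨0,[(1,0)]⟩),⟨0,[(24,0)]⟩,(.r (-1) ⟨9,[(6,1),(2,1),(4,1),(4,1),(3,1),(5,4),(0,2),
  (12,5)]⟩ ⟨2,[(17,1),(20,0),(0,0),(2,0)]⟩),.k,⟨false,0,⟨0,[]⟩,⟨1,[(22,0),(0,0),(19,0)]⟩⟩,⟨true,0,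
  ⟨0,[(41,0)]⟩,⟨6,[(14,1),(0,1),(21,0),(1,0)]⟩⟩,⟨true,0,⟨6,[(14,1),(0,1),(21,0),(1,0)]⟩,⟨0,[(41,
  0)]⟩⟩,⟨false,1,⟨1,[(22,0),(0,0),(19,0)]⟩,⟨0,[]⟩⟩,[.o ⟨false,1,⟨1,[(2,1),(35,0),(4,0)]⟩,⟨2,[(5,1),
  (11,0),(5,0),(14,0)]⟩⟩,.e ⟨false,1,⟨1,[(4,0),(18,0),(19,0)]⟩,⟨2,[(17,1),(20,0),(0,0),(2,0)]⟩⟩
  ⟨false,1,⟨0,[(43,0)]⟩,⟨0,[(37,0)]⟩⟩,.a ⟨true,0,⟨0,[(0,0)]⟩,⟨1,[(23,1),(5,0),(0,0)]⟩⟩ ⟨true,0,⟨16,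
  [(9,1),(4,1),(3,2),(0,1),(9,3),(0,1),(12,0)]⟩,⟨2,[(17,1),(20,0),(0,0),(2,0)]⟩⟩ ⟨false,1,⟨1,[(29,
  0),(0,0),(12,1)]⟩,⟨5,[(17,1),(20,0),(0,3),(2,0)]⟩⟩,.e ⟨false,1,⟨1,[(4,0),(18,0),(19,0)]⟩,⟨0,[(41,
  0)]⟩⟩ ⟨false,1,⟨0,[(43,0)]⟩,⟨0,[(45,0)]⟩⟩]⟩)) (.Q [0,0,1,0,0,0,0,0,1,-1,0,1] (.p true [0,0,0,0,1]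
  [1] (⟨0,[(24,0)]⟩,⟨0,[(23,0)]⟩) .k 1 (⟨0,[]⟩,⟨0,[]⟩) .k .k) (.R ⟨0,false,false,false,[0,0,0,0,1],
  [1,-1],[1,1,1],(⟨0,[(25,0)]⟩,⟨0,[(24,0)]⟩),(⟨0,[(35,0)]⟩,⟨0,[(36,0)]⟩),⟨0,[(1,0)]⟩,.k,.k,(.r 0 ⟨2,
  [(17,1),(20,0),(0,0),(2,0)]⟩ ⟨9,[(6,1),(2,1),(4,1),(4,1),(3,1),(5,4),(0,2),(12,5)]⟩),(.r 0 ⟨1,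
  [(14,0),(12,0),(2,0)]⟩ ⟨1,[(41,1),(0,0),(0,0)]⟩),.k,.k,⟨true,(-1),⟨6,[(17,3),(0,4),(18,0),(0,1),
  (6,0)]⟩,⟨1,[(41,1),(0,0),(0,0)]⟩⟩,⟨false,0,⟨0,[(2,0)]⟩,⟨1,[(23,1),(14,0),(3,0)]⟩⟩,⟨true,0,⟨1,[(29,
  0),(0,0)]⟩,⟨5,[(17,1),(20,0),(0,3),(2,0)]⟩⟩,⟨false,1,⟨0,[(2,0),(38,0),(1,0)]⟩,⟨0,[(5,0)]⟩⟩,⟨false,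
  0,⟨0,[]⟩,⟨0,[]⟩⟩,⟨false,0,⟨0,[]⟩,⟨0,[]⟩⟩,[.o ⟨false,0,⟨0,[(41,0)]⟩,⟨3,[(5,1),(0,1),(31,0),(4,
  0)]⟩⟩,.e ⟨false,0,⟨0,[]⟩,⟨1,[(22,0),(0,0),(18,0)]⟩⟩ ⟨false,1,⟨1,[(2,1),(38,1),(0,0),(0,0)]⟩,⟨0,
  [(5,0)]⟩⟩,.a ⟨true,0,⟨0,[(23,0)]⟩,⟨0,[(2,0)]⟩⟩ ⟨false,0,⟨1,[(29,0),(0,0)]⟩,⟨1,[(42,0),(0,0)]⟩⟩
  ⟨true,0,⟨0,[(2,0),(38,0)]⟩,⟨0,[(5,0)]⟩⟩,.o ⟨false,0,⟨0,[(0,0)]⟩,⟨1,[(2,1),(35,0),(3,0)]⟩⟩]⟩) (.R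
  ⟨0,false,false,true,[0,1,0,0,-1],[1,0,0,0,-1],[0,0,1],(⟨0,[(1,0)]⟩,⟨0,[(25,0),(9,0)]⟩),(⟨0,[(24,
  0)]⟩,⟨0,[(25,0)]⟩),⟨0,[(25,0)]⟩,(.r (-1) ⟨9,[(6,1),(2,1),(4,1),(4,1),(3,1),(5,4),(0,2),(12,5)]⟩
  ⟨2,[(17,1),(20,0),(0,0),(2,0)]⟩),.k,.k,.k,.k,.k,⟨true,0,⟨1,[(29,0),(0,0)]⟩,⟨0,[]⟩⟩,⟨false,0,⟨0,
  [(33,0),(1,0)]⟩,⟨1,[(38,0),(3,0)]⟩⟩,⟨false,0,⟨0,[(41,0)]⟩,⟨1,[(4,0),(18,0),(19,0)]⟩⟩,⟨true,(-1),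
  ⟨0,[(16,0)]⟩,⟨3,[(5,1),(0,1),(31,0),(4,0)]⟩⟩,⟨false,0,⟨0,[]⟩,⟨0,[]⟩⟩,⟨false,0,⟨0,[]⟩,⟨0,[]⟩⟩,[.a
  ⟨true,0,⟨0,[(2,0)]⟩,⟨0,[(23,0)]⟩⟩ ⟨true,0,⟨1,[(29,0),(0,0)]⟩,⟨0,[]⟩⟩ ⟨false,0,⟨0,[(33,0),(1,0)]⟩,
  ⟨1,[(38,0),(3,0)]⟩⟩,.o ⟨false,1,⟨1,[(2,1),(35,0),(4,0)]⟩,⟨2,[(5,1),(11,0),(5,0),(14,0)]⟩⟩,.o
  ⟨false,1,⟨0,[(0,0),(37,0)]⟩,⟨1,[(23,1),(5,0),(0,0)]⟩⟩,.o ⟨false,1,⟨0,[(2,0),(35,0)]⟩,⟨0,[(23,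
  0)]⟩⟩]⟩))) (.Q [0,0,0,-1,0,0,0,0,-1,1,0,-1] (.p false [0,0,0,0,1] [1] (⟨0,[(23,0)]⟩,⟨0,[(22,0)]⟩)
  .k 1 (⟨0,[]⟩,⟨0,[]⟩) .k .k) (.R ⟨2,true,false,true,[0,1],[1,0,0,0,-1],[1,1,1,1],(⟨0,[]⟩,⟨0,[]⟩),
  (⟨0,[(23,0)]⟩,⟨0,[(24,0)]⟩),⟨0,[]⟩,.k,.k,.k,(.r 0 ⟨1,[(13,0),(12,0),(2,0)]⟩ ⟨1,[(40,1),(0,0),(0,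
  0)]⟩),.k,.k,⟨false,0,⟨6,[(13,1),(0,1),(21,0),(1,0)]⟩,⟨1,[(40,1),(0,0),(0,0)]⟩⟩,⟨true,0,⟨4,[(0,3),
  (4,0),(11,0),(0,0),(9,1)]⟩,⟨0,[(1,0)]⟩⟩,⟨false,0,⟨0,[]⟩,⟨1,[(21,0),(0,0),(19,0)]⟩⟩,⟨true,0,⟨0,[(0,
  0)]⟩,⟨0,[(4,0)]⟩⟩,⟨true,0,⟨6,[(13,1),(0,1),(21,0),(1,0)]⟩,⟨0,[(40,0)]⟩⟩,⟨false,1,⟨1,[(0,0),(4,0),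
  (26,0),(1,0),(7,0)]⟩,⟨0,[(1,0)]⟩⟩,[]⟩) (.Q [0,0,0,-2,0,0,0,0,-1,1,0,-1] (.p false [0,0,0,0,1] [1]
  (⟨0,[(24,0)]⟩,⟨0,[(23,0)]⟩) .k 1 (⟨0,[]⟩,⟨0,[]⟩) .k .k) (.R ⟨1,true,false,false,[1,-1],[0,0,0,0,
  1],[1,0,-1,-1],(⟨0,[(35,0)]⟩,⟨0,[(36,0)]⟩),(⟨0,[(25,0)]⟩,⟨0,[(24,0)]⟩),⟨1,[(8,0),(12,0),(13,0)]⟩,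
  .k,.k,(.r (-1) ⟨0,[(0,0),(1,0),(39,0)]⟩ ⟨16,[(9,3),(4,3),(3,5),(0,3),(9,7),(0,3),(12,1)]⟩),(.r
  (-1) ⟨1,[(0,0),(1,0),(39,0),(0,0)]⟩ ⟨1,[(14,0),(12,0),(2,0)]⟩),(.r (-2) ⟨1,[(0,1),(22,1),(14,0),
  (3,1),(0,0)]⟩ ⟨8,[(16,3),(1,6),(18,1),(0,1),(0,0)]⟩),.k,⟨true,1,⟨1,[(0,0),(1,0),(39,0),(0,0)]⟩,⟨6,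
  [(17,3),(0,4),(18,0),(0,1),(6,0)]⟩⟩,⟨false,1,⟨0,[(2,0),(39,0)]⟩,⟨19,[(0,15),(3,3),(5,1),(3,1),(3,
  5),(0,0),(13,2),(1,2),(7,1)]⟩⟩,⟨true,0,⟨0,[]⟩,⟨0,[(45,0)]⟩⟩,⟨false,0,⟨0,[(1,0)]⟩,⟨23,[(0,20),(5,
  5),(0,1),(2,3),(3,3),(4,2),(3,2),(19,15)]⟩⟩,⟨false,1,⟨1,[(4,0),(18,0),(19,0)]⟩,⟨0,[(41,0)]⟩⟩,
  ⟨true,0,⟨0,[(3,0)]⟩,⟨0,[(0,0)]⟩⟩,[]⟩) (.Q [0,0,0,0,0,-1,0,0,0,0,0,1] (.ed false [1,-1,0,0,1] .k)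
  (.Q [0,0,1,0,-1,0,0,0,1,0,0,1] (.p true [0,0,0,0,1] [] (⟨0,[(26,0)]⟩,⟨0,[(25,0)]⟩) .k 0 (⟨0,[]⟩,
  ⟨0,[]⟩) .k .k) (.S ⟨1,0,[0,1,0,-1],[0,0,0,0,1],[1,2],(⟨0,[(27,0)]⟩,⟨0,[(26,0)]⟩),⟨0,[(1,0)]⟩,.k,
  (.r 0 ⟨2,[(19,1),(20,0),(0,0),(2,0)]⟩ ⟨9,[(8,1),(2,1),(4,1),(4,1),(3,1),(5,4),(0,2),(12,5)]⟩),
  ⟨false,0,⟨0,[]⟩,⟨1,[(24,0),(0,0),(19,0)]⟩⟩,⟨true,0,⟨0,[(43,0)]⟩,⟨6,[(16,1),(0,1),(21,0),(1,0)]⟩⟩,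
  ⟨true,0,⟨6,[(16,1),(0,1),(21,0),(1,0)]⟩,⟨0,[(43,0)]⟩⟩,⟨false,1,⟨1,[(24,0),(0,0),(19,0)]⟩,⟨0,[]⟩⟩,
  [.e ⟨false,0,⟨0,[(39,0)]⟩,⟨0,[(45,0)]⟩⟩ ⟨false,0,⟨2,[(19,1),(20,0),(0,0),(2,0)]⟩,⟨1,[(6,0),(18,0),
  (19,0)]⟩⟩,.o ⟨false,0,⟨0,[(4,0),(38,0)]⟩,⟨0,[(8,0)]⟩⟩,.o ⟨false,0,⟨0,[(4,0)]⟩,⟨0,[(24,0)]⟩⟩,.a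
  ⟨true,(-1),⟨0,[(0,0)]⟩,⟨2,[(8,1),(0,0),(8,1),(5,0),(3,0),(16,0)]⟩⟩ ⟨false,0,⟨5,[(19,1),(20,0),(0,
  3),(2,0)]⟩,⟨1,[(31,0),(0,0),(12,1)]⟩⟩ ⟨true,0,⟨2,[(19,1),(20,0),(0,0),(2,0)]⟩,⟨16,[(11,1),(4,1),
  (3,2),(0,1),(9,3),(0,1),(12,0)]⟩⟩]⟩) (.S ⟨1,0,[0,2,0,-1],[0,0,0,0,1],[1,1],(⟨0,[(27,0)]⟩,⟨0,[(26,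
  0)]⟩),⟨0,[(1,0)]⟩,.k,(.r 0 ⟨2,[(19,1),(20,0),(0,0),(2,0)]⟩ ⟨9,[(8,1),(2,1),(4,1),(4,1),(3,1),(5,
  4),(0,2),(12,5)]⟩),⟨true,0,⟨0,[]⟩,⟨0,[(47,0)]⟩⟩,⟨false,0,⟨0,[(43,0)]⟩,⟨1,[(6,0),(18,0),(19,0)]⟩⟩,
  ⟨false,1,⟨1,[(6,0),(18,0),(19,0)]⟩,⟨0,[(43,0)]⟩⟩,⟨true,0,⟨0,[(47,0)]⟩,⟨0,[]⟩⟩,[.o ⟨false,(-1),⟨0,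
  [(2,0),(15,0),(0,0),(20,0)]⟩,⟨0,[(8,0),(36,0)]⟩⟩,.a ⟨true,(-1),⟨1,[(2,0),(1,0),(14,1)]⟩,⟨0,[(6,0),
  (11,0),(26,0)]⟩⟩ ⟨true,0,⟨0,[]⟩,⟨1,[(31,0),(0,0)]⟩⟩ ⟨false,0,⟨2,[(19,1),(20,0),(0,0),(2,0)]⟩,⟨1,
  [(6,0),(18,0),(19,0)]⟩⟩,.o ⟨false,0,⟨0,[(4,0)]⟩,⟨0,[(24,0)]⟩⟩,.o ⟨false,0,⟨1,[(4,1),(26,0),(0,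
  0)]⟩,⟨0,[(0,0)]⟩⟩]⟩)) (.Q [0,0,1,0,-1,0,0,0,1,0,0,1] (.p true [0,0,0,0,1] [] (⟨0,[(26,0)]⟩,⟨0,
  [(25,0)]⟩) .k 0 (⟨0,[]⟩,⟨0,[]⟩) .k .k) (.R ⟨0,false,false,true,[0,0,0,0,1],[0,1],[],(⟨0,[(27,0)]⟩,
  ⟨0,[(26,0)]⟩),(⟨0,[(38,0)]⟩,⟨0,[(37,0)]⟩),⟨0,[(1,0)]⟩,.k,.k,(.r 0 ⟨2,[(19,1),(20,0),(0,0),(2,0)]⟩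
  ⟨9,[(8,1),(2,1),(4,1),(4,1),(3,1),(5,4),(0,2),(12,5)]⟩),(.r 0 ⟨2,[(19,1),(20,0),(0,0),(2,0)]⟩ ⟨9,
  [(8,1),(2,1),(4,1),(4,1),(3,1),(5,4),(0,2),(12,5)]⟩),.k,.k,⟨true,1,⟨1,[(43,1),(0,0),(0,0)]⟩,⟨6,
  [(19,3),(0,4),(18,0),(0,1),(6,0)]⟩⟩,⟨false,2,⟨0,[(24,0),(19,0)]⟩,⟨0,[(0,0)]⟩⟩,⟨false,1,⟨0,[(45,
  0)]⟩,⟨0,[(47,0)]⟩⟩,⟨true,1,⟨0,[(8,0)]⟩,⟨1,[(2,0),(1,0),(14,1)]⟩⟩,⟨false,0,⟨0,[]⟩,⟨0,[]⟩⟩,⟨false,0,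
  ⟨0,[]⟩,⟨0,[]⟩⟩,[.e ⟨false,1,⟨1,[(24,0),(0,0),(18,0)]⟩,⟨0,[]⟩⟩ ⟨false,1,⟨0,[(24,0),(16,0)]⟩,⟨3,[(0,
  1),(3,1),(14,1),(24,0),(0,2)]⟩⟩,.o ⟨false,1,⟨3,[(7,1),(0,1),(31,0),(4,0)]⟩,⟨0,[(43,0)]⟩⟩,.o
  ⟨false,0,⟨0,[(4,0)]⟩,⟨0,[(24,0)]⟩⟩,.a ⟨true,(-1),⟨0,[(0,0)]⟩,⟨2,[(8,1),(0,0),(8,1),(5,0),(3,0),
  (16,0)]⟩⟩ ⟨false,1,⟨1,[(44,0),(0,0)]⟩,⟨1,[(31,0),(0,0)]⟩⟩ ⟨true,1,⟨0,[(24,0),(16,0)]⟩,⟨0,[(0,0),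
  (42,0)]⟩⟩]⟩) (.R ⟨0,false,false,false,[0,0,0,0,1],[0,1],[0,1,1],(⟨0,[(27,0)]⟩,⟨0,[(26,0)]⟩),(⟨0,
  [(38,0)]⟩,⟨0,[(37,0)]⟩),⟨0,[(1,0)]⟩,.k,.k,(.r 0 ⟨2,[(19,1),(20,0),(0,0),(2,0)]⟩ ⟨9,[(8,1),(2,1),
  (4,1),(4,1),(3,1),(5,4),(0,2),(12,5)]⟩),(.r 0 ⟨2,[(19,1),(20,0),(0,0),(2,0)]⟩ ⟨9,[(8,1),(2,1),(4,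
  1),(4,1),(3,1),(5,4),(0,2),(12,5)]⟩),.k,.k,⟨false,0,⟨2,[(19,1),(20,0),(0,0),(2,0)]⟩,⟨1,[(6,0),(18,
  0),(19,0)]⟩⟩,⟨true,1,⟨0,[(0,0)]⟩,⟨0,[(4,0),(9,0),(16,0)]⟩⟩,⟨true,0,⟨1,[(31,0),(0,0)]⟩,⟨5,[(19,1),
  (20,0),(0,3),(2,0)]⟩⟩,⟨false,2,⟨0,[(8,0),(36,0)]⟩,⟨1,[(2,0),(1,0),(14,1)]⟩⟩,⟨false,0,⟨0,[]⟩,⟨0,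
  []⟩⟩,⟨false,0,⟨0,[]⟩,⟨0,[]⟩⟩,[.o ⟨false,1,⟨3,[(7,1),(0,1),(31,0),(4,0)]⟩,⟨0,[(43,0)]⟩⟩,.a ⟨true,1,
  ⟨1,[(6,0),(18,0),(19,0)]⟩,⟨0,[(18,0)]⟩⟩ ⟨true,0,⟨1,[(31,0),(0,0)]⟩,⟨0,[]⟩⟩ ⟨false,2,⟨1,[(8,1),(35,
  0),(0,0)]⟩,⟨1,[(2,0),(1,0),(14,1)]⟩⟩,.o ⟨false,0,⟨0,[(4,0)]⟩,⟨0,[(24,0)]⟩⟩,.o ⟨false,0,⟨1,[(4,1),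
  (26,0),(0,0)]⟩,⟨0,[(0,0)]⟩⟩]⟩)))))))) (.Q [0,1,0,0,0,0,0,0,1,-1,0,1] (.p true [0,0,0,0,1] [1] (⟨0,
  [(20,0)]⟩,⟨0,[(19,0)]⟩) .k 1 (⟨0,[]⟩,⟨0,[]⟩) .k .k) (.R ⟨2,true,false,true,[0,1],[1,0,0,0,-1],[0,
  0,1],(⟨0,[]⟩,⟨0,[]⟩),(⟨0,[(20,0)]⟩,⟨0,[(21,0)]⟩),⟨0,[]⟩,.k,.k,.k,(.r 0 ⟨1,[(10,0),(12,0),(2,0)]⟩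
  ⟨1,[(37,1),(0,0),(0,0)]⟩),.k,.k,⟨true,0,⟨1,[(25,0),(0,0)]⟩,⟨0,[]⟩⟩,⟨false,0,⟨15,[(1,9),(0,5),(3,
  0),(3,0),(1,4),(1,0),(7,0),(12,2)]⟩,⟨1,[(19,1),(14,0),(3,0)]⟩⟩,⟨true,0,⟨0,[(37,0)]⟩,⟨6,[(10,1),(0,
  1),(21,0),(1,0)]⟩⟩,⟨false,0,⟨0,[(1,0)]⟩,⟨8,[(2,0),(2,1),(4,1),(4,0),(3,9),(14,3),(3,0),(0,0)]⟩⟩,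
  ⟨false,1,⟨1,[(18,0),(0,0),(19,0)]⟩,⟨0,[]⟩⟩,⟨true,0,⟨15,[(1,9),(0,5),(3,0),(3,0),(1,4),(1,0),(7,0),
  (12,2)]⟩,⟨0,[(0,0)]⟩⟩,[]⟩) (.R ⟨2,false,false,true,[0,1],[1,0,0,0,-1],[0,0,1],(⟨0,[]⟩,⟨0,[]⟩),(⟨0,
  [(20,0)]⟩,⟨0,[(21,0)]⟩),⟨0,[]⟩,.k,.k,.k,(.r 0 ⟨1,[(10,0),(12,0),(2,0)]⟩ ⟨1,[(37,1),(0,0),(0,0)]⟩),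
  .k,.k,⟨true,0,⟨1,[(25,0),(0,0)]⟩,⟨0,[]⟩⟩,⟨false,0,⟨1,[(0,0),(1,0),(9,0)]⟩,⟨1,[(19,1),(14,0),(3,
  0)]⟩⟩,⟨true,0,⟨0,[(37,0)]⟩,⟨6,[(10,1),(0,1),(21,0),(1,0)]⟩⟩,⟨false,0,⟨0,[(1,0)]⟩,⟨8,[(2,0),(2,1),
  (4,1),(4,0),(3,9),(14,3),(3,0),(0,0)]⟩⟩,⟨false,1,⟨1,[(18,0),(0,0),(19,0)]⟩,⟨0,[]⟩⟩,⟨false,0,⟨0,
  [(0,0)]⟩,⟨1,[(18,0),(0,2),(14,0)]⟩⟩,[.a ⟨true,0,⟨1,[(0,0),(1,0),(9,0)]⟩,⟨0,[(19,0)]⟩⟩ ⟨true,0,⟨1,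
  [(25,0),(0,0)]⟩,⟨0,[]⟩⟩ ⟨false,0,⟨1,[(0,0),(1,0),(9,0)]⟩,⟨1,[(19,1),(14,0),(3,0)]⟩⟩,.e ⟨false,1,
  ⟨1,[(18,0),(0,0),(19,0)]⟩,⟨5,[(13,1),(20,0),(0,3),(2,0)]⟩⟩ ⟨false,0,⟨0,[(0,0)]⟩,⟨3,[(18,0),(0,4),
  (13,1),(0,1),(3,0)]⟩⟩,.o ⟨false,1,⟨1,[(34,0),(3,0)]⟩,⟨1,[(25,0),(0,0)]⟩⟩,.fo]⟩)))))

theorem ok17 : chk K t17 r10 = true := by decide +kernel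

noncomputable def t21 : Tre :=
  (.N [0,-1,1] 0 ⟨0,[(0,0)]⟩ ⟨0,[(2,0)]⟩ .k)

theorem ok21 : chk K t21 r7 = true := by decide +kernel

noncomputable def t23 : Tre :=
  (.I [0,0,1,1,0,0,0,-2] (.I [0,0,-2,-2,1,0,0,-1] (.K ⟨0,[0,1,1],0,0,(⟨0,[(23,0),(0,0)]⟩,⟨0,[(11,
  0)]⟩),.k,.k,(.r 0 ⟨1,[(6,0),(2,0),(8,0),(2,0),(12,0)]⟩ ⟨0,[(0,0)]⟩),.k,.k,[⟨1,[(20,0),(0,0)]⟩,⟨0,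
  [(2,0)]⟩,⟨6,[(0,0),(0,0),(6,2),(1,0),(8,3),(1,0),(7,1)]⟩,⟨0,[(2,0),(3,0)]⟩]⟩) (.S ⟨1,0,[0,0,0,-1,
  0,0,0,1],[0,0,1],[1,1,0,0,0,0,0,1],(⟨0,[(23,0)]⟩,⟨0,[(22,0)]⟩),⟨0,[(12,0)]⟩,.k,.k,⟨false,0,⟨0,[]⟩,
  ⟨1,[(13,0),(0,0),(19,0)]⟩⟩,⟨true,0,⟨0,[(32,0)]⟩,⟨6,[(5,1),(0,1),(21,0),(1,0)]⟩⟩,⟨true,0,⟨6,[(5,1),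
  (0,1),(21,0),(1,0)]⟩,⟨0,[(32,0)]⟩⟩,⟨false,1,⟨1,[(13,0),(0,0),(19,0)]⟩,⟨0,[]⟩⟩,[.a ⟨true,0,⟨1,[(0,
  1),(2,1),(4,1),(23,1),(0,0),(0,0)]⟩,⟨11,[(1,4),(3,1),(3,0),(0,0),(6,9),(6,0),(1,0),(7,0)]⟩⟩
  ⟨false,0,⟨1,[(0,1),(7,1),(20,0),(3,2)]⟩,⟨9,[(1,3),(1,1),(4,1),(4,1),(0,1),(4,1),(13,0),(0,6)]⟩⟩
  ⟨true,0,⟨0,[(0,0),(31,2),(0,0)]⟩,⟨0,[(4,0)]⟩⟩,.o ⟨false,1,⟨1,[(0,1),(2,1),(28,5),(0,0),(0,0)]⟩,⟨5,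
  [(1,0),(7,0),(7,1),(1,3),(9,0),(0,1)]⟩⟩,.a ⟨true,0,⟨0,[(2,0)]⟩,⟨1,[(10,0),(13,0),(1,0)]⟩⟩ ⟨false,
  0,⟨0,[(0,0),(31,1),(0,0)]⟩,⟨9,[(1,3),(1,1),(4,1),(4,1),(0,1),(4,1),(13,0),(0,6)]⟩⟩ ⟨true,0,⟨0,[(0,
  0),(31,2),(0,0)]⟩,⟨6,[(1,2),(3,0),(22,1),(1,1)]⟩⟩,.a ⟨true,0,⟨0,[(20,0)]⟩,⟨0,[(17,0)]⟩⟩ ⟨true,0,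
  ⟨1,[(0,1),(7,1),(20,0),(3,2)]⟩,⟨3,[(1,1),(18,0),(0,0),(10,1)]⟩⟩ ⟨false,1,⟨1,[(0,1),(31,5),(0,2),
  (0,0)]⟩,⟨0,[(4,0)]⟩⟩]⟩)) (.S ⟨1,0,[0,1,0,-1,0,0,0,1],[0,0,1],[1,0,0,0,0,0,0,1],(⟨0,[(22,0)]⟩,⟨0,
  [(21,0)]⟩),⟨0,[(11,0)]⟩,.k,.k,⟨true,0,⟨0,[]⟩,⟨0,[(35,0)]⟩⟩,⟨false,0,⟨0,[(31,0)]⟩,⟨5,[(4,1),(0,1),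
  (26,0),(0,4)]⟩⟩,⟨false,1,⟨5,[(4,1),(0,1),(26,0),(0,4)]⟩,⟨0,[(31,0)]⟩⟩,⟨true,0,⟨0,[(35,0)]⟩,⟨0,
  []⟩⟩,[.o ⟨false,0,⟨7,[(0,2),(0,5),(4,3),(0,1),(0,0),(8,1),(10,6)]⟩,⟨1,[(3,1),(12,1),(11,0),(4,
  0)]⟩⟩,.a ⟨true,0,⟨1,[(0,0),(0,0),(17,0),(11,0)]⟩,⟨0,[(3,0),(12,0)]⟩⟩ ⟨false,1,⟨2,[(0,0),(4,0),(26,
  0),(0,1)]⟩,⟨0,[(1,0),(16,0)]⟩⟩ ⟨true,0,⟨3,[(0,1),(18,0),(0,0),(10,1)]⟩,⟨0,[(3,0)]⟩⟩,.a ⟨true,0,⟨0,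
  [(1,0)]⟩,⟨1,[(9,0),(13,0),(1,0)]⟩⟩ ⟨true,0,⟨9,[(0,3),(4,0),(2,0),(8,0),(2,0),(12,0)]⟩,⟨0,[(1,0),
  (16,0)]⟩⟩ ⟨false,0,⟨3,[(0,1),(18,0),(0,0),(10,1)]⟩,⟨1,[(3,1),(28,0),(0,0)]⟩⟩,.a ⟨true,0,⟨0,[(19,
  0)]⟩,⟨0,[(16,0)]⟩⟩ ⟨false,1,⟨2,[(0,0),(4,0),(26,0),(0,1)]⟩,⟨0,[(3,0),(27,0)]⟩⟩ ⟨true,0,⟨15,[(0,7),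
  (6,3),(4,0),(0,0),(13,5),(0,1),(3,0)]⟩,⟨0,[(3,0)]⟩⟩]⟩))

theorem ok23 : chk K t23 l16 = true := by decide +kernel

noncomputable def t24 : Tre :=
  (.Q [0,-1,0,-1,0,0,-1,-1,0,1,-1] (.p false [0,0,1] [1] (⟨0,[(26,0)]⟩,⟨0,[(25,0)]⟩) .k 1 (⟨0,[]⟩,
  ⟨0,[]⟩) .k .k) (.S ⟨1,0,[0,0,0,-1,0,0,0,-1],[1,0,-1],[0,1,0,-1,0,0,0,-1],(⟨0,[(26,0)]⟩,⟨0,[(27,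
  0)]⟩),⟨0,[(15,0)]⟩,.k,.k,⟨false,0,⟨0,[(36,0)]⟩,⟨5,[(2,0),(6,1),(27,1),(0,3)]⟩⟩,⟨true,0,⟨0,[(36,
  0)]⟩,⟨6,[(9,1),(0,1),(21,0),(1,0)]⟩⟩,⟨true,0,⟨0,[(40,0)]⟩,⟨0,[]⟩⟩,⟨false,1,⟨1,[(17,0),(0,0),(19,
  0)]⟩,⟨0,[]⟩⟩,[.o ⟨false,0,⟨0,[(1,0),(4,0)]⟩,⟨0,[(4,0)]⟩⟩,.a ⟨true,0,⟨0,[(0,0)]⟩,⟨0,[(3,0),(7,
  0)]⟩⟩ ⟨true,0,⟨0,[(1,0)]⟩,⟨1,[(2,0)]⟩⟩ ⟨false,1,⟨0,[(5,0),(32,0)]⟩,⟨0,[(10,0)]⟩⟩,.o ⟨false,0,⟨0,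
  [(6,0)]⟩,⟨3,[(7,1),(9,0),(0,0),(5,1),(8,0)]⟩⟩,.o ⟨false,0,⟨0,[(25,0)]⟩,⟨0,[(7,0)]⟩⟩]⟩) (.R ⟨1,
  true,false,true,[1,0,-1],[0,1],[0,1,0,-1,0,0,0,-1],(⟨0,[(26,0)]⟩,⟨0,[(27,0)]⟩),(⟨0,[(31,0)]⟩,⟨0,
  [(30,0)]⟩),⟨0,[(15,0)]⟩,.k,.k,.k,.k,(.r (-1) ⟨1,[(5,1),(30,1),(0,0),(0,0)]⟩ ⟨3,[(2,2),(5,1)]⟩),.k,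
  ⟨false,1,⟨1,[(5,1),(30,1),(0,0),(0,0)]⟩,⟨6,[(0,1),(1,1),(0,0),(9,1),(7,2),(16,0)]⟩⟩,⟨true,1,⟨0,
  [(7,0)]⟩,⟨6,[(6,2),(5,5),(0,3),(0,0),(10,1),(12,2)]⟩⟩,⟨false,0,⟨0,[(36,0)]⟩,⟨5,[(2,0),(6,1),(27,
  1),(0,3)]⟩⟩,⟨true,0,⟨0,[(0,0)]⟩,⟨1,[(1,1),(12,0),(13,0),(1,0)]⟩⟩,⟨true,0,⟨0,[(40,0)]⟩,⟨0,[]⟩⟩,
  ⟨false,1,⟨0,[(3,0)]⟩,⟨0,[(1,0),(4,0),(4,0),(26,0)]⟩⟩,[]⟩))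

theorem ok24 : chk K t24 l21 = true := by decide +kernel

noncomputable def t25 : Tre :=
  (.I [0,1,1,0,-1,0,0,1] (.S ⟨1,0,[0,0,1,0,0,0,0,1],[0,1,1],[1],(⟨0,[(28,0),(0,0)]⟩,⟨0,[(16,0)]⟩),
  ⟨0,[(28,0)]⟩,.k,.k,⟨false,1,⟨0,[(6,0),(32,0)]⟩,⟨1,[(3,0)]⟩⟩,⟨true,0,⟨0,[(37,0)]⟩,⟨6,[(10,1),(0,1),
  (21,0),(1,0)]⟩⟩,⟨true,1,⟨5,[(6,3),(3,1),(7,0),(0,0),(18,1),(0,2)]⟩,⟨0,[(0,0)]⟩⟩,⟨false,1,⟨1,[(18,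
  0),(0,0),(19,0)]⟩,⟨0,[]⟩⟩,[.a ⟨true,0,⟨0,[(1,0)]⟩,⟨3,[(6,0),(2,2),(3,0),(1,0),(6,1),(16,0)]⟩⟩
  ⟨true,0,⟨0,[]⟩,⟨1,[(25,0),(0,0)]⟩⟩ ⟨false,0,⟨0,[(1,0),(5,0)]⟩,⟨5,[(6,3),(3,1),(7,0),(0,0),(18,1),
  (0,2)]⟩⟩,.o ⟨false,1,⟨1,[(1,1),(32,0),(4,0)]⟩,⟨0,[(24,0)]⟩⟩,.o ⟨false,1,⟨0,[(8,0)]⟩,⟨0,[(26,0)]⟩⟩,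
  .o ⟨false,1,⟨3,[(8,1),(9,0),(0,0),(5,1),(8,0)]⟩,⟨0,[(7,0)]⟩⟩]⟩) (.Q [0,-1,0,-1,0,0,-2,-1,0,1,-2]
  (.p false [0,0,1] [1,0,-1] (⟨0,[(28,0)]⟩,⟨0,[(27,0)]⟩) .k 2 (⟨0,[(27,0)]⟩,⟨0,[(28,0)]⟩) .k (.r 0
  ⟨0,[(1,1),(5,1)]⟩ ⟨0,[(0,0),(23,0),(0,0)]⟩)) (.Q [0,-1,0,1,1,0,1,1,0,-1,1] (.p true [0,0,1] [1]
  (⟨0,[(29,0)]⟩,⟨0,[(28,0)]⟩) .k 1 (⟨0,[]⟩,⟨0,[]⟩) .k .k) (.Q [0,1,0,-2,-1,0,-1,-1,0,1,-1] (.p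
  false [0,0,1] [1] (⟨0,[(30,0)]⟩,⟨0,[(29,0)]⟩) .k 1 (⟨0,[]⟩,⟨0,[]⟩) .k .k) (.R ⟨1,true,false,false,
  [1,0,-1],[0,1],[0,0,0,-1,0,0,0,-1],(⟨0,[(30,0)]⟩,⟨0,[(31,0)]⟩),(⟨0,[(35,0)]⟩,⟨0,[(34,0)]⟩),⟨0,
  [(19,0)]⟩,.k,.k,.k,.k,(.r (-1) ⟨1,[(9,1),(30,1),(0,0),(0,0)]⟩ ⟨3,[(6,2),(5,1)]⟩),.k,⟨false,1,⟨1,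
  [(9,1),(30,1),(0,0),(0,0)]⟩,⟨3,[(5,0),(0,0),(0,0),(9,0),(7,0)]⟩⟩,⟨true,1,⟨0,[(11,0)]⟩,⟨3,[(2,1),
  (3,0),(9,1),(0,1),(22,1)]⟩⟩,⟨true,0,⟨0,[(40,0)]⟩,⟨6,[(13,1),(0,1),(21,0),(1,0)]⟩⟩,⟨false,1,⟨0,[(1,
  0)]⟩,⟨11,[(0,4),(1,3),(0,1),(9,0),(7,2),(0,2),(5,0),(3,2),(1,2)]⟩⟩,⟨false,1,⟨1,[(21,0),(0,0),(19,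
  0)]⟩,⟨0,[]⟩⟩,⟨true,1,⟨0,[(7,0)]⟩,⟨0,[(0,0)]⟩⟩,[]⟩) (.I [0,-1,1,0,0,0,0,1] (.S ⟨1,0,[0,0,0,-1,0,0,
  0,-1],[1,0,-1],[1,1,0,0,0,0,0,-1],(⟨0,[(31,0)]⟩,⟨0,[(32,0)]⟩),⟨0,[(20,0)]⟩,.k,.k,⟨false,0,⟨0,[]⟩,
  ⟨1,[(22,0),(0,0),(19,0)]⟩⟩,⟨true,0,⟨0,[(41,0)]⟩,⟨6,[(14,1),(0,1),(21,0),(1,0)]⟩⟩,⟨true,0,⟨6,[(14,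
  1),(0,1),(21,0),(1,0)]⟩,⟨0,[(41,0)]⟩⟩,⟨false,1,⟨1,[(22,0),(0,0),(19,0)]⟩,⟨0,[]⟩⟩,[.a ⟨true,0,⟨3,
  [(3,1),(0,0),(9,0),(2,1),(4,0),(0,0)]⟩,⟨0,[(1,0),(14,0)]⟩⟩ ⟨true,0,⟨3,[(10,1),(3,0),(13,0),(0,
  0)]⟩,⟨0,[(0,0)]⟩⟩ ⟨false,1,⟨1,[(10,1),(11,0),(0,0),(19,0)]⟩,⟨0,[(6,0)]⟩⟩,.e ⟨false,1,⟨9,[(4,6),(5,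
  1),(3,0),(7,2),(0,2),(13,1)]⟩,⟨5,[(0,1),(5,3),(10,1),(20,0),(3,0)]⟩⟩ ⟨false,1,⟨0,[(10,0),(32,0)]⟩,
  ⟨0,[(15,0)]⟩⟩,.o ⟨false,0,⟨0,[(11,0)]⟩,⟨3,[(12,1),(9,0),(0,0),(5,1),(8,0)]⟩⟩,.o ⟨false,0,⟨0,[(30,
  0)]⟩,⟨0,[(12,0)]⟩⟩]⟩) (.Q [0,0,0,0,0,2,0,0,0,0,-1] (.p false [0,0,1] [] (⟨0,[(32,0)]⟩,⟨0,[(31,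
  0)]⟩) .k 0 (⟨0,[]⟩,⟨0,[]⟩) .k .k) (.Q [0,0,2,0,0,0,2,0,0,-1,2] (.p true [0,0,1] [1,0,-1] (⟨0,[(33,
  0)]⟩,⟨0,[(32,0)]⟩) .k 2 (⟨0,[(32,0)]⟩,⟨0,[(33,0)]⟩) .k (.r 0 ⟨0,[(6,1),(5,1)]⟩ ⟨0,[(5,0),(23,0),
  (0,0)]⟩)) (.R ⟨0,false,false,true,[0,-1,1],[1,0,-1],[],(⟨0,[(23,0)]⟩,⟨0,[(1,0),(35,0)]⟩),(⟨0,[(33,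
  0)]⟩,⟨0,[(34,0)]⟩),⟨0,[(1,0)]⟩,.k,.k,(.r (-1) ⟨5,[(5,3),(1,9),(11,3),(8,1),(11,4),(3,4)]⟩ ⟨3,[(9,
  0),(5,5)]⟩),(.r (-1) ⟨1,[(7,3),(13,1),(18,0),(2,1),(0,0)]⟩ ⟨1,[(0,0),(1,1),(2,0),(0,0),(13,0)]⟩),
  .k,.k,⟨false,1,⟨1,[(7,1),(20,1),(11,0),(4,0)]⟩,⟨3,[(12,1),(3,0),(13,0),(0,0)]⟩⟩,⟨true,0,⟨0,[(13,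
  0),(14,0)]⟩,⟨0,[(0,0)]⟩⟩,⟨true,0,⟨0,[(2,1),(0,1),(1,0),(12,4),(1,0),(19,1),(4,1)]⟩,⟨1,[(8,1),(10,
  1),(20,0),(3,0)]⟩⟩,⟨false,0,⟨7,[(2,2),(2,7),(0,1),(9,2),(3,1),(20,3)]⟩,⟨1,[(7,3),(32,0),(2,1),(1,
  0)]⟩⟩,⟨false,0,⟨0,[]⟩,⟨0,[]⟩⟩,⟨false,0,⟨0,[]⟩,⟨0,[]⟩⟩,[.o ⟨false,0,⟨0,[(30,0)]⟩,⟨1,[(7,1),(32,0),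
  (4,0)]⟩⟩,.a ⟨true,0,⟨4,[(5,1),(0,0),(9,1),(2,0),(8,0),(6,0),(1,0)]⟩,⟨0,[(7,0)]⟩⟩ ⟨false,1,⟨1,[(44,
  0),(0,0)]⟩,⟨0,[(47,0)]⟩⟩ ⟨true,0,⟨0,[(5,0),(35,0)]⟩,⟨9,[(0,5),(6,7),(1,0),(10,1),(19,1),(2,7)]⟩⟩,
  .e ⟨false,1,⟨1,[(24,0),(0,0),(19,0)]⟩,⟨0,[]⟩⟩ ⟨false,0,⟨0,[(5,0),(35,0)]⟩,⟨3,[(0,1),(6,1),(21,1),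
  (10,0),(4,2)]⟩⟩,.o ⟨false,0,⟨11,[(0,7),(4,1),(3,0),(9,1),(0,1),(19,3),(2,1)]⟩,⟨1,[(28,1),(11,0),
  (3,0)]⟩⟩]⟩) (.Q [0,0,-1,0,0,0,-1,0,-1,1,-1,-1] (.p false [0,0,1] [1,0,0,0,-1] (⟨0,[(34,0)]⟩,⟨0,
  [(33,0)]⟩) .k 2 (⟨0,[(26,0)]⟩,⟨0,[(27,0)]⟩) .k (.r 0 ⟨7,[(0,0),(8,0),(7,1),(1,1),(1,0),(7,3),(10,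
  1)]⟩ ⟨1,[(6,0),(23,0),(0,0),(13,0)]⟩)) (.R ⟨0,false,false,true,[0,-1,1],[1,0,0,0,-1],[1,0,1],(⟨0,
  [(24,0)]⟩,⟨0,[(2,0),(35,0)]⟩),(⟨0,[(27,0)]⟩,⟨0,[(28,0)]⟩),⟨0,[(2,0)]⟩,.k,.k,(.r (-1) ⟨3,[(1,0),(6,
  3),(13,0),(18,0),(2,7),(0,2)]⟩ ⟨3,[(10,0),(5,5)]⟩),(.r 0 ⟨1,[(1,0),(6,0),(11,0),(9,0),(10,0)]⟩ ⟨1,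
  [(16,1),(8,0),(0,0),(19,0)]⟩),.k,.k,⟨false,0,⟨0,[]⟩,⟨1,[(25,0),(0,0),(18,0)]⟩⟩,⟨true,0,⟨0,[(0,
  0)]⟩,⟨0,[(15,0),(5,0),(4,0),(17,2)]⟩⟩,⟨false,0,⟨0,[(13,0),(7,0),(22,0),(1,0)]⟩,⟨3,[(1,0),(6,3),
  (13,0),(18,0),(2,3),(0,2)]⟩⟩,⟨true,0,⟨0,[(0,0),(15,0)]⟩,⟨0,[(8,0),(10,0),(6,0),(14,0)]⟩⟩,⟨false,0,
  ⟨0,[]⟩,⟨0,[]⟩⟩,⟨false,0,⟨0,[]⟩,⟨0,[]⟩⟩,[.a ⟨true,0,⟨0,[(0,0),(31,0)]⟩,⟨0,[(26,0)]⟩⟩ ⟨false,0,⟨0,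
  []⟩,⟨1,[(25,0),(0,0),(18,0)]⟩⟩ ⟨true,0,⟨0,[(0,0)]⟩,⟨0,[(15,0),(5,0),(4,0),(17,2)]⟩⟩,.e ⟨false,1,
  ⟨1,[(25,0),(0,0),(19,0)]⟩,⟨8,[(1,0),(6,1),(4,1),(6,0),(19,0),(0,0),(0,3)]⟩⟩ ⟨false,1,⟨1,[(0,1),
  (44,0),(0,0)]⟩,⟨10,[(8,3),(4,5),(6,2),(0,3),(4,10),(3,1),(1,4),(8,6)]⟩⟩,.e ⟨true,0,⟨1,[(32,0),(0,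
  0)]⟩,⟨8,[(1,0),(6,1),(4,1),(6,0),(19,0),(0,0),(0,3)]⟩⟩ ⟨true,0,⟨0,[(0,0)]⟩,⟨10,[(8,3),(4,5),(6,2),
  (0,3),(4,10),(3,1),(1,4),(8,6)]⟩⟩,.o ⟨false,0,⟨0,[(15,0),(5,0),(22,2)]⟩,⟨3,[(1,0),(20,0),(18,0),
  (3,2)]⟩⟩]⟩) (.Q [0,1,0,0,-1,0,0,0,1,0,0,1] (.p true [0,0,0,0,1] [] (⟨0,[(28,0)]⟩,⟨0,[(27,0)]⟩) .k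
  0 (⟨0,[]⟩,⟨0,[]⟩) .k .k) (.Q [0,-1,0,0,1,0,0,0,-1,1,0,-1] (.p false [0,0,0,0,1] [1] (⟨0,[(29,0)]⟩,
  ⟨0,[(28,0)]⟩) .k 1 (⟨0,[]⟩,⟨0,[]⟩) .k .k) (.Q [0,0,0,0,0,0,1,0,1,-1,1,1] (.p true [0,0,1] [1,0,0,
  0,-1] (⟨0,[(37,0)]⟩,⟨0,[(36,0)]⟩) .k 2 (⟨0,[(29,0)]⟩,⟨0,[(30,0)]⟩) .k (.r 0 ⟨7,[(3,0),(8,0),(7,1),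
  (1,1),(1,0),(7,3),(10,1)]⟩ ⟨23,[(0,8),(1,8),(5,3),(0,12),(5,0),(2,4),(14,0),(9,1)]⟩)) (.Q [0,1,-1,
  0,-1,0,-1,0,1,0,-1,1] (.p false [0,0,1] [0,0,0,0,1] (⟨0,[(38,0)]⟩,⟨0,[(37,0)]⟩) .k 2 (⟨0,[(31,
  0)]⟩,⟨0,[(30,0)]⟩) .k (.r (-1) ⟨3,[(11,1),(13,1),(7,1),(10,0),(4,2)]⟩ ⟨3,[(16,1),(3,0),(13,0),(0,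
  0)]⟩)) (.R ⟨0,false,false,true,[0,-1,1],[0,0,0,0,1],[],(⟨0,[(28,0)]⟩,⟨47,[(2,8),(3,23),(4,2),(0,
  4),(8,1),(1,9),(1,1),(4,8),(2,4),(4,23)]⟩),(⟨0,[(32,0)]⟩,⟨0,[(31,0)]⟩),⟨0,[(6,0)]⟩,.k,.k,(.r (-1)
  ⟨3,[(5,0),(6,3),(13,0),(18,0),(2,7),(0,2)]⟩ ⟨3,[(14,0),(5,5)]⟩),(.r (-1) ⟨3,[(5,0),(6,3),(13,0),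
  (18,0),(2,3),(0,0),(0,1)]⟩ ⟨1,[(21,0),(13,0),(0,0)]⟩),.k,.k,⟨true,1,⟨0,[(50,0)]⟩,⟨1,[(23,0),(0,0),
  (0,0),(18,0),(0,0)]⟩⟩,⟨false,0,⟨1,[(0,1),(48,0),(0,0)]⟩,⟨0,[(29,0),(6,0)]⟩⟩,⟨true,0,⟨0,[(5,0),(1,
  2),(0,1),(14,8),(1,1),(19,3),(4,4)]⟩,⟨1,[(5,0),(6,0),(11,0),(9,0),(10,0)]⟩⟩,⟨false,(-1),⟨0,[(0,0),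
  (19,0)]⟩,⟨1,[(2,1),(9,1),(32,0),(2,1),(1,0)]⟩⟩,⟨false,0,⟨0,[]⟩,⟨0,[]⟩⟩,⟨false,0,⟨0,[]⟩,⟨0,[]⟩⟩,
  [.o ⟨false,(-1),⟨5,[(0,0),(2,4),(3,0),(4,0),(10,3),(1,0),(19,4),(0,0)]⟩,⟨1,[(2,1),(42,0),(4,0)]⟩⟩,
  .a ⟨true,(-1),⟨0,[(3,0)]⟩,⟨0,[(2,0)]⟩⟩ ⟨false,1,⟨1,[(49,0),(0,0)]⟩,⟨0,[(52,0)]⟩⟩ ⟨true,(-1),⟨0,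
  [(0,0)]⟩,⟨0,[(2,0),(16,0),(5,0),(22,2)]⟩⟩,.e ⟨false,1,⟨3,[(2,1),(27,1),(14,0),(4,0)]⟩,⟨0,[]⟩⟩
  ⟨false,(-1),⟨0,[(0,0)]⟩,⟨1,[(2,1),(33,1),(8,0),(4,0)]⟩⟩,.o ⟨false,0,⟨0,[(19,0),(5,0),(22,2)]⟩,⟨3,
  [(5,0),(20,0),(18,0),(3,2)]⟩⟩]⟩) (.R ⟨0,false,false,true,[0,-1,1],[0,0,0,0,1],[],(⟨0,[(28,0)]⟩,
  ⟨47,[(2,8),(3,23),(4,2),(0,4),(8,1),(1,9),(1,1),(4,8),(2,4),(4,23)]⟩),(⟨0,[(32,0)]⟩,⟨0,[(31,0)]⟩),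
  ⟨0,[(6,0)]⟩,.k,.k,(.r (-1) ⟨3,[(5,0),(6,3),(13,0),(18,0),(2,7),(0,2)]⟩ ⟨12,[(0,1),(19,8),(0,3),(3,
  2),(4,1),(6,1),(12,0)]⟩),(.r (-1) ⟨3,[(5,0),(6,3),(13,0),(18,0),(2,3),(0,0),(0,1)]⟩ ⟨1,[(21,0),
  (13,0),(0,0)]⟩),.k,.k,⟨true,1,⟨0,[(50,0)]⟩,⟨1,[(23,0),(0,0),(0,0),(18,0),(0,0)]⟩⟩,⟨false,0,⟨0,[(1,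
  0),(3,0)]⟩,⟨0,[(0,0),(51,0)]⟩⟩,⟨true,0,⟨0,[(5,0),(1,2),(0,1),(14,8),(1,1),(19,3),(4,4)]⟩,⟨1,[(5,
  0),(6,0),(11,0),(9,0),(10,0)]⟩⟩,⟨false,(-1),⟨6,[(1,6),(3,5),(4,0),(6,5),(6,1),(0,5),(19,0)]⟩,⟨1,
  [(2,1),(9,1),(32,0),(2,1),(1,0)]⟩⟩,⟨false,0,⟨0,[]⟩,⟨0,[]⟩⟩,⟨false,0,⟨0,[]⟩,⟨0,[]⟩⟩,[.o ⟨false,
  (-1),⟨3,[(1,0),(1,2),(1,0),(1,0),(0,0),(14,4),(1,0),(19,3)]⟩,⟨1,[(2,1),(42,0),(4,0)]⟩⟩,.e ⟨false,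
  1,⟨1,[(49,0),(0,0)]⟩,⟨0,[(52,0)]⟩⟩ ⟨false,0,⟨11,[(3,7),(1,5),(24,3),(13,1),(0,2),(3,4)]⟩,⟨0,[(0,
  0)]⟩⟩,.a ⟨true,0,⟨0,[(36,0)]⟩,⟨0,[(33,0)]⟩⟩ ⟨false,1,⟨3,[(2,1),(27,1),(14,0),(4,0)]⟩,⟨0,[]⟩⟩
  ⟨true,(-1),⟨22,[(3,22),(1,10),(16,0),(0,6),(1,1),(9,0),(8,6),(0,8)]⟩,⟨0,[(0,0)]⟩⟩,.o ⟨false,0,⟨1,
  [(0,0),(0,0),(22,0),(0,0),(19,0),(2,0)]⟩,⟨3,[(5,0),(20,0),(18,0),(3,2)]⟩⟩]⟩)) (.Q [0,0,0,-2,0,0,0,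
  0,-1,1,0,-1] (.p false [0,0,0,0,1] [1] (⟨0,[(31,0)]⟩,⟨0,[(30,0)]⟩) .k 1 (⟨0,[]⟩,⟨0,[]⟩) .k .k)
  (.Q [0,0,0,1,0,0,0,0,1,-1,0,1] (.p true [0,0,0,0,1] [1] (⟨0,[(32,0)]⟩,⟨0,[(31,0)]⟩) .k 1 (⟨0,[]⟩,
  ⟨0,[]⟩) .k .k) (.R ⟨1,true,false,false,[1,-1],[0,0,0,0,1],[0,0,-1,-2],(⟨0,[(43,0)]⟩,⟨0,[(44,0)]⟩),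
  (⟨0,[(33,0)]⟩,⟨0,[(32,0)]⟩),⟨0,[(28,0),(0,0)]⟩,.k,.k,(.r (-1) ⟨0,[(49,1),(0,0)]⟩ ⟨1,[(15,0),(5,
  1)]⟩),(.r (-1) ⟨1,[(49,1),(0,0),(0,0)]⟩ ⟨5,[(15,0),(6,1),(14,0),(0,0),(14,3)]⟩),(.r (-2) ⟨1,[(1,
  1),(29,1),(14,0),(3,1),(0,0)]⟩ ⟨8,[(24,3),(1,6),(18,1),(0,1),(0,0)]⟩),.k,⟨true,1,⟨1,[(49,3),(0,0),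
  (0,0)]⟩,⟨8,[(24,3),(1,6),(18,1),(0,1),(0,0)]⟩⟩,⟨false,1,⟨3,[(4,1),(1,1),(13,3),(10,1),(14,0),(4,
  0)]⟩,⟨6,[(1,3),(0,0),(0,1),(18,0),(3,1),(8,0)]⟩⟩,⟨true,0,⟨0,[(49,0)]⟩,⟨6,[(22,1),(0,1),(21,0),(1,
  0)]⟩⟩,⟨false,0,⟨0,[(0,0)]⟩,⟨7,[(1,3),(1,5),(27,1),(14,0),(4,0)]⟩⟩,⟨false,1,⟨3,[(3,1),(27,1),(14,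
  0),(4,0)]⟩,⟨0,[]⟩⟩,⟨true,0,⟨6,[(0,6),(21,1),(0,1),(21,0),(1,0)]⟩,⟨0,[(1,0)]⟩⟩,[]⟩) (.R ⟨2,true,
  false,true,[0,1],[1,0,0,0,-1],[1,1,1,1],(⟨0,[]⟩,⟨0,[]⟩),(⟨0,[(32,0)]⟩,⟨0,[(33,0)]⟩),⟨0,[]⟩,.k,.k,
  .k,(.r 0 ⟨5,[(15,0),(6,1),(14,0),(0,0),(14,3)]⟩ ⟨1,[(49,1),(0,0),(0,0)]⟩),.k,.k,⟨false,0,⟨6,[(22,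
  1),(0,1),(21,0),(1,0)]⟩,⟨1,[(49,1),(0,0),(0,0)]⟩⟩,⟨true,0,⟨6,[(0,0),(0,3),(1,1),(18,0),(0,0),(2,
  1)]⟩,⟨1,[(4,1),(41,0),(4,0)]⟩⟩,⟨false,0,⟨0,[]⟩,⟨3,[(3,1),(27,1),(14,0),(4,0)]⟩⟩,⟨true,0,⟨0,[(0,
  0)]⟩,⟨9,[(4,6),(1,0),(9,2),(5,1),(8,2),(4,0),(9,3)]⟩⟩,⟨true,0,⟨6,[(22,1),(0,1),(21,0),(1,0)]⟩,⟨0,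
  [(49,0)]⟩⟩,⟨false,1,⟨0,[(3,0)]⟩,⟨1,[(4,1),(41,0),(4,0)]⟩⟩,[]⟩)) (.Q [0,0,0,0,0,-1,0,0,0,0,0,1]
  (.ed false [1,-1,0,0,1] .k) (.S ⟨1,0,[0,-1,1],[1,1,0,0,-1],[1,0,1,1],(⟨0,[(32,0),(8,0)]⟩,⟨0,[(0,
  0)]⟩),⟨0,[(32,0)]⟩,(.r (-1) ⟨17,[(3,6),(1,3),(9,0),(0,2),(5,4),(8,2),(6,6),(12,7)]⟩ ⟨4,[(6,0),(6,
  0),(4,0),(1,0),(4,1),(19,0),(0,0)]⟩),.k,⟨false,0,⟨0,[]⟩,⟨3,[(3,1),(27,1),(14,0),(4,0)]⟩⟩,⟨true,0,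
  ⟨0,[(49,0)]⟩,⟨6,[(22,1),(0,1),(21,0),(1,0)]⟩⟩,⟨true,0,⟨6,[(22,1),(0,1),(21,0),(1,0)]⟩,⟨0,[(49,
  0)]⟩⟩,⟨false,1,⟨3,[(3,1),(27,1),(14,0),(4,0)]⟩,⟨0,[]⟩⟩,[.a ⟨true,1,⟨0,[(3,0)]⟩,⟨0,[(4,0)]⟩⟩ ⟨true,
  0,⟨3,[(15,0),(5,1)]⟩,⟨0,[(49,0)]⟩⟩ ⟨false,1,⟨3,[(3,1),(27,1),(14,0),(4,0)]⟩,⟨8,[(6,0),(6,1),(4,1),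
  (6,0),(19,0),(0,0),(0,3)]⟩⟩,.o ⟨false,2,⟨1,[(3,1),(42,0),(4,0)]⟩,⟨0,[(1,0),(22,1),(21,0)]⟩⟩,.o
  ⟨false,1,⟨0,[(2,0),(17,0)]⟩,⟨5,[(4,1),(0,3),(5,1),(3,0),(30,1)]⟩⟩,.e ⟨false,1,⟨7,[(1,0),(1,1),(8,
  0),(3,1),(5,0),(4,0),(3,0),(19,2)]⟩,⟨0,[(49,0)]⟩⟩ ⟨false,1,⟨0,[(51,0)]⟩,⟨0,[(53,0)]⟩⟩]⟩) (.R ⟨0,
  false,false,true,[0,0,0,0,1],[1,0,-1],[1,1,1,0,0,0,0,-1],(⟨0,[(33,0)]⟩,⟨0,[(32,0)]⟩),(⟨0,[(39,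
  0)]⟩,⟨0,[(40,0)]⟩),⟨0,[(0,0)]⟩,.k,.k,(.r 0 ⟨4,[(6,0),(6,0),(4,0),(1,0),(4,1),(19,0),(0,0)]⟩ ⟨17,
  [(3,6),(1,3),(9,0),(0,2),(5,4),(8,2),(6,6),(12,7)]⟩),.k,.k,.k,⟨false,0,⟨0,[]⟩,⟨1,[(30,0),(0,0),
  (18,0)]⟩⟩,⟨true,0,⟨0,[(2,0)]⟩,⟨0,[(5,0)]⟩⟩,⟨true,0,⟨0,[(21,0),(27,0)]⟩,⟨2,[(6,0),(6,1),(9,0),(1,
  0),(20,0),(0,0)]⟩⟩,⟨false,1,⟨2,[(2,0),(0,0),(7,0),(0,0),(8,0),(8,0)]⟩,⟨1,[(4,1),(8,1),(32,0),(4,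
  0)]⟩⟩,⟨false,0,⟨0,[]⟩,⟨0,[]⟩⟩,⟨false,0,⟨0,[]⟩,⟨0,[]⟩⟩,[.o ⟨false,0,⟨0,[(36,0)]⟩,⟨1,[(13,1),(32,0),
  (4,0)]⟩⟩,.a ⟨true,0,⟨13,[(3,1),(4,0),(2,5),(0,1),(9,4),(1,3),(6,1),(2,1)]⟩,⟨0,[(13,0)]⟩⟩ ⟨true,0,
  ⟨0,[(21,0),(27,0)]⟩,⟨0,[(13,0),(5,0)]⟩⟩ ⟨false,1,⟨4,[(2,0),(0,2),(2,0),(1,1),(3,0),(17,0),(5,1)]⟩,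
  ⟨1,[(4,1),(8,1),(32,0),(4,0)]⟩⟩,.o ⟨false,0,⟨1,[(4,1),(41,0),(4,0)]⟩,⟨0,[(30,0)]⟩⟩,.o ⟨false,0,⟨5,
  [(4,1),(0,3),(5,1),(3,0),(30,1)]⟩,⟨0,[(2,0),(17,0)]⟩⟩]⟩)))) (.R ⟨2,true,false,false,[0,1],[0,0,0,
  0,1],[0,0,1],(⟨0,[]⟩,⟨0,[]⟩),(⟨0,[(30,0)]⟩,⟨0,[(29,0)]⟩),⟨0,[]⟩,.k,.k,.k,(.r (-1) ⟨5,[(12,0),(6,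
  1),(7,1),(0,1),(5,0),(0,0),(12,3)]⟩ ⟨4,[(3,0),(6,0),(4,0),(1,0),(4,1),(19,0),(0,0)]⟩),.k,.k,
  ⟨false,1,⟨1,[(27,0),(0,0),(19,0)]⟩,⟨8,[(3,0),(6,1),(4,1),(6,0),(19,0),(0,0),(0,3)]⟩⟩,⟨true,(-1),
  ⟨53,[(0,21),(0,27),(0,3),(5,1),(3,0),(9,23),(0,15),(24,35)]⟩,⟨0,[(27,0)]⟩⟩,⟨true,0,⟨0,[(46,0)]⟩,
  ⟨6,[(19,1),(0,1),(21,0),(1,0)]⟩⟩,⟨false,(-1),⟨0,[(0,0),(20,0),(26,0)]⟩,⟨5,[(12,0),(6,1),(7,5),(19,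
  1),(0,3)]⟩⟩,⟨false,1,⟨1,[(27,0),(0,0),(19,0)]⟩,⟨0,[]⟩⟩,⟨true,(-1),⟨0,[(1,0)]⟩,⟨0,[(27,0)]⟩⟩,[]⟩))
  (.Q [0,-2,0,0,1,0,0,0,-1,1,0,-1] (.p false [0,0,0,0,1] [1] (⟨0,[(29,0)]⟩,⟨0,[(28,0)]⟩) .k 1 (⟨0,
  []⟩,⟨0,[]⟩) .k .k) (.Q [0,2,-1,0,-1,0,-1,0,1,0,-1,1] (.p false [0,0,1] [0,0,0,0,1] (⟨0,[(37,0)]⟩,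
  ⟨0,[(36,0)]⟩) .k 2 (⟨0,[(30,0)]⟩,⟨0,[(29,0)]⟩) .k (.r (-1) ⟨3,[(10,1),(13,1),(7,1),(10,0),(4,2)]⟩
  ⟨3,[(15,1),(3,0),(13,0),(0,0)]⟩)) (.R ⟨0,false,false,true,[0,-1,1],[0,0,0,0,1],[0,1],(⟨0,[(27,
  0)]⟩,⟨9,[(1,1),(3,4),(14,0),(1,1),(6,1),(2,0),(0,0),(3,4)]⟩),(⟨0,[(31,0)]⟩,⟨0,[(30,0)]⟩),⟨0,[(5,
  0)]⟩,.k,.k,(.r (-1) ⟨3,[(4,0),(6,3),(13,0),(18,0),(2,7),(0,2)]⟩ ⟨3,[(13,0),(5,5)]⟩),(.r (-1) ⟨3,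
  [(4,0),(6,3),(13,0),(18,0),(2,3),(0,0),(0,1)]⟩ ⟨1,[(20,0),(13,0),(0,0)]⟩),.k,.k,⟨false,1,⟨1,[(48,
  0),(0,0)]⟩,⟨0,[(51,0)]⟩⟩,⟨true,0,⟨0,[(0,0),(48,0)]⟩,⟨1,[(1,0),(0,0),(15,1),(4,2),(0,1),(19,0)]⟩⟩,
  ⟨false,0,⟨0,[(4,0),(1,2),(0,1),(14,8),(1,1),(19,3),(4,4)]⟩,⟨3,[(4,0),(6,3),(13,0),(18,0),(2,3),(0,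
  0),(0,1)]⟩⟩,⟨true,(-1),⟨0,[(0,0),(18,0)]⟩,⟨1,[(1,0),(0,0),(8,1),(11,0),(20,0)]⟩⟩,⟨false,0,⟨0,[]⟩,
  ⟨0,[]⟩⟩,⟨false,0,⟨0,[]⟩,⟨0,[]⟩⟩,[.a ⟨true,(-1),⟨4,[(0,2),(2,1),(16,0),(1,1),(10,0)]⟩,⟨0,[(1,0)]⟩⟩
  ⟨false,0,⟨8,[(4,0),(6,1),(4,1),(6,0),(19,0),(0,0),(0,3)]⟩,⟨1,[(28,0),(0,0),(19,0)]⟩⟩ ⟨true,(-1),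
  ⟨0,[(0,0)]⟩,⟨0,[(1,0),(16,0),(5,0),(22,2)]⟩⟩,.o ⟨false,0,⟨9,[(0,2),(2,3),(25,2),(6,0),(6,1),(0,
  2)]⟩,⟨0,[(2,0)]⟩⟩,.e ⟨true,0,⟨0,[(51,0)]⟩,⟨0,[]⟩⟩ ⟨true,(-1),⟨0,[(0,0)]⟩,⟨0,[(2,0),(32,0)]⟩⟩,.o
  ⟨false,0,⟨0,[(18,0),(5,0),(22,2)]⟩,⟨3,[(4,0),(20,0),(18,0),(3,2)]⟩⟩]⟩) (.R ⟨0,false,false,false,
  [0,-1,1],[0,0,0,0,1],[],(⟨0,[(27,0)]⟩,⟨9,[(1,1),(3,4),(14,0),(1,1),(6,1),(2,0),(0,0),(3,4)]⟩),(⟨0,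
  [(31,0)]⟩,⟨0,[(30,0)]⟩),⟨0,[(5,0)]⟩,.k,.k,(.r (-1) ⟨3,[(4,0),(6,3),(13,0),(18,0),(2,7),(0,2)]⟩ ⟨3,
  [(13,0),(5,5)]⟩),(.r (-1) ⟨3,[(4,0),(6,3),(13,0),(18,0),(2,3),(0,0),(0,1)]⟩ ⟨1,[(20,0),(13,0),(0,
  0)]⟩),.k,.k,⟨false,1,⟨1,[(48,0),(0,0)]⟩,⟨0,[(51,0)]⟩⟩,⟨true,0,⟨0,[(3,0),(0,0)]⟩,⟨3,[(0,2),(15,0),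
  (5,2),(0,0),(0,1),(3,0),(4,0),(10,1)]⟩⟩,⟨true,0,⟨0,[(4,0),(1,2),(0,1),(14,8),(1,1),(19,3),(4,4)]⟩,
  ⟨1,[(4,0),(6,0),(11,0),(9,0),(10,0)]⟩⟩,⟨false,0,⟨11,[(3,3),(0,4),(1,5),(2,2),(0,2),(13,4),(4,7),
  (14,1)]⟩,⟨1,[(1,0),(0,0),(8,1),(11,0),(20,0)]⟩⟩,⟨false,0,⟨0,[]⟩,⟨0,[]⟩⟩,⟨false,0,⟨0,[]⟩,⟨0,[]⟩⟩,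
  [.o ⟨false,0,⟨22,[(3,22),(0,10),(16,0),(0,6),(1,1),(9,0),(8,6),(0,8)]⟩,⟨0,[(2,0)]⟩⟩,.a ⟨true,0,⟨0,
  [(29,0)]⟩,⟨6,[(0,1),(1,4),(1,0),(17,5),(1,0),(20,2)]⟩⟩ ⟨false,1,⟨1,[(48,0),(0,0)]⟩,⟨0,[(51,0)]⟩⟩
  ⟨true,0,⟨0,[(3,0),(0,0)]⟩,⟨3,[(0,2),(15,0),(5,2),(0,0),(0,1),(3,0),(4,0),(10,1)]⟩⟩,.e ⟨false,1,⟨1,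
  [(28,0),(0,0),(19,0)]⟩,⟨0,[]⟩⟩ ⟨false,0,⟨0,[(3,0),(0,0)]⟩,⟨1,[(0,0),(27,0),(6,0)]⟩⟩,.o ⟨false,0,
  ⟨12,[(0,3),(2,3),(7,0),(4,0),(6,6),(0,4),(10,3),(8,7)]⟩,⟨3,[(4,0),(20,0),(18,0),(3,2)]⟩⟩]⟩)) (.R
  ⟨0,false,false,true,[0,-1,1],[0,0,0,0,1],[1,1],(⟨0,[(26,0)]⟩,⟨0,[(4,0),(35,0)]⟩),(⟨0,[(30,0)]⟩,⟨0,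
  [(29,0)]⟩),⟨0,[(4,0)]⟩,.k,.k,(.r (-1) ⟨3,[(3,0),(6,3),(13,0),(18,0),(2,7),(0,2)]⟩ ⟨3,[(12,0),(5,
  5)]⟩),(.r (-1) ⟨3,[(3,0),(6,3),(13,0),(18,0),(2,3),(0,0),(0,1)]⟩ ⟨1,[(19,0),(13,0),(0,0)]⟩),.k,.k,
  ⟨false,1,⟨1,[(47,0),(0,0)]⟩,⟨0,[(50,0)]⟩⟩,⟨true,0,⟨1,[(0,0),(2,0),(24,0),(19,0)]⟩,⟨0,[(1,0),(15,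
  0),(4,0),(0,0),(22,0)]⟩⟩,⟨false,0,⟨0,[(18,0)]⟩,⟨3,[(3,0),(6,3),(13,0),(18,0),(2,3),(0,0),(0,1)]⟩⟩,
  ⟨true,(-1),⟨13,[(0,8),(2,3),(1,5),(2,2),(10,4),(1,1),(1,2),(4,4)]⟩,⟨0,[(1,0),(8,0),(35,0)]⟩⟩,
  ⟨false,0,⟨0,[]⟩,⟨0,[]⟩⟩,⟨false,0,⟨0,[]⟩,⟨0,[]⟩⟩,[.o ⟨false,(-1),⟨0,[(0,0)]⟩,⟨0,[(27,0),(20,0)]⟩⟩,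
  .o ⟨false,0,⟨9,[(0,2),(1,0),(25,5),(6,0),(6,1),(0,2)]⟩,⟨0,[(1,0)]⟩⟩,.a ⟨true,0,⟨0,[(34,0)]⟩,⟨0,
  [(31,0)]⟩⟩ ⟨false,0,⟨0,[]⟩,⟨1,[(27,0),(0,0),(19,0)]⟩⟩ ⟨true,(-1),⟨27,[(0,20),(2,13),(15,1),(0,1),
  (0,6),(6,6),(13,0),(1,0)]⟩,⟨0,[(1,0),(32,0)]⟩⟩,.o ⟨false,0,⟨0,[(17,0),(5,0),(22,2)]⟩,⟨3,[(3,0),
  (20,0),(18,0),(3,2)]⟩⟩]⟩))))) (.Q [0,1,0,1,0,0,1,1,0,-1,1] (.p true [0,0,1] [1] (⟨0,[(33,0)]⟩,⟨0,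
  [(32,0)]⟩) .k 1 (⟨0,[]⟩,⟨0,[]⟩) .k .k) (.Q [0,0,-1,0,1,0,2,0,0,-1,2] (.p true [0,0,1] [1,0,-1]
  (⟨0,[(34,0)]⟩,⟨0,[(33,0)]⟩) .k 2 (⟨0,[(33,0)]⟩,⟨0,[(34,0)]⟩) .k (.r 0 ⟨0,[(7,1),(5,1)]⟩ ⟨0,[(6,0),
  (23,0),(0,0)]⟩)) (.K ⟨0,[1,-1,-1],(-1),0,(⟨0,[(23,0)]⟩,⟨0,[(35,0),(0,0)]⟩),.k,(.r (-1) ⟨1,[(13,1),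
  (30,1),(0,0),(0,0)]⟩ ⟨3,[(10,2),(5,1)]⟩),.k,(.r (-1) ⟨9,[(6,1),(0,7),(5,7),(11,0),(0,0),(4,1),(0,
  5),(8,0)]⟩ ⟨1,[(8,1),(1,0),(3,1)]⟩),.k,[⟨0,[(0,0)]⟩,⟨3,[(6,1),(3,0),(9,1),(0,1),(22,1)]⟩,⟨0,[(1,
  0)]⟩,⟨14,[(6,3),(6,4),(3,4),(2,7),(1,2),(2,7),(0,7),(4,0)]⟩]⟩) (.Q [0,-1,0,-2,0,0,-1,-1,0,1,-1]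
  (.p false [0,0,1] [1] (⟨0,[(35,0)]⟩,⟨0,[(34,0)]⟩) .k 1 (⟨0,[]⟩,⟨0,[]⟩) .k .k) (.R ⟨1,true,false,
  true,[1,0,-1],[0,1],[0,1,0,-1,0,0,0,-1],(⟨0,[(35,0)]⟩,⟨0,[(36,0)]⟩),(⟨0,[(40,0)]⟩,⟨0,[(39,0)]⟩),
  ⟨0,[(24,0)]⟩,.k,.k,.k,.k,(.r (-1) ⟨9,[(0,5),(13,3),(1,5),(4,1),(20,0),(3,4)]⟩ ⟨3,[(11,2),(5,1)]⟩),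
  .k,⟨false,1,⟨9,[(0,5),(13,3),(1,5),(4,1),(20,0),(3,4)]⟩,⟨3,[(5,0),(5,0),(7,0),(2,0),(7,0)]⟩⟩,
  ⟨true,1,⟨0,[(16,0)]⟩,⟨4,[(0,1),(0,0),(9,0),(9,1),(0,1),(11,0)]⟩⟩,⟨false,0,⟨0,[(45,0)]⟩,⟨5,[(11,0),
  (6,1),(27,1),(0,3)]⟩⟩,⟨true,0,⟨0,[(2,0)]⟩,⟨7,[(0,5),(17,1),(4,0),(13,0),(1,0),(1,1)]⟩⟩,⟨true,0,⟨0,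
  [(49,0)]⟩,⟨0,[]⟩⟩,⟨false,1,⟨0,[(12,0)]⟩,⟨0,[(0,0)]⟩⟩,[]⟩) (.Q [0,0,-1,0,0,0,0,0,-1,1,0,-1] (.p
  false [0,0,0,0,1] [1] (⟨0,[(29,0)]⟩,⟨0,[(28,0)]⟩) .k 1 (⟨0,[]⟩,⟨0,[]⟩) .k .k) (.Q [0,0,0,0,0,1,0,
  0,0,-1,0,1] (.ed false [0,1,0,0,1] .k) (.R ⟨0,false,false,false,[1,0,0,0,-1],[0,0,1],[0,0,1,0,0,0,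
  0,1],(⟨0,[(30,0)]⟩,⟨0,[(31,0)]⟩),(⟨0,[(38,0)]⟩,⟨0,[(37,0)]⟩),⟨0,[(0,0)]⟩,.k,.k,(.r (-1) ⟨1,[(47,
  1),(0,0),(0,0)]⟩ ⟨5,[(13,0),(6,1),(14,0),(0,0),(14,3)]⟩),.k,.k,.k,⟨true,0,⟨1,[(35,0),(0,0)]⟩,⟨0,
  []⟩⟩,⟨false,1,⟨0,[(18,0),(10,0)]⟩,⟨1,[(1,0),(1,0),(24,0)]⟩⟩,⟨false,0,⟨1,[(13,0),(33,1)]⟩,⟨0,[(10,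
  0)]⟩⟩,⟨true,0,⟨2,[(4,1),(6,0),(11,0),(5,2),(14,0)]⟩,⟨17,[(1,12),(7,8),(6,6),(2,1),(3,1),(0,5),(3,
  4),(15,2)]⟩⟩,⟨false,0,⟨0,[]⟩,⟨0,[]⟩⟩,⟨false,0,⟨0,[]⟩,⟨0,[]⟩⟩,[.e ⟨false,0,⟨0,[(11,0),(5,0)]⟩,⟨9,
  [(10,6),(5,1),(3,0),(7,2),(0,2),(13,1)]⟩⟩ ⟨false,1,⟨1,[(11,1),(17,1),(14,0),(3,0)]⟩,⟨17,[(1,12),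
  (7,8),(6,6),(2,1),(3,1),(0,5),(3,4),(15,2)]⟩⟩,.o ⟨false,1,⟨1,[(11,1),(32,0),(4,0)]⟩,⟨0,[(34,0)]⟩⟩,
  .a ⟨true,0,⟨25,[(1,17),(7,1),(3,0),(9,5),(0,3),(3,7),(6,3),(13,1)]⟩,⟨0,[(29,0)]⟩⟩ ⟨true,0,⟨1,[(13,
  0),(33,1)]⟩,⟨0,[(6,0)]⟩⟩ ⟨false,1,⟨1,[(11,1),(17,1),(14,0),(4,0)]⟩,⟨17,[(1,12),(7,8),(6,6),(2,1),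
  (3,1),(0,5),(3,4),(15,2)]⟩⟩,.o ⟨false,0,⟨4,[(1,3),(22,2),(3,0),(15,1),(2,8)]⟩,⟨1,[(29,1),(14,0),
  (3,0)]⟩⟩]⟩) (.K ⟨0,[1,-1,0,0,-1],(-1),0,(⟨0,[(0,0)]⟩,⟨0,[(31,0),(7,0)]⟩),(.r (-1) ⟨1,[(47,1),(0,
  0),(0,0)]⟩ ⟨5,[(13,0),(6,1),(14,0),(0,0),(14,3)]⟩),(.r (-2) ⟨1,[(28,0),(0,0),(17,3),(0,1),(0,0)]⟩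
  ⟨2,[(4,0),(17,0),(1,1),(9,0)]⟩),.k,(.r (-1) ⟨0,[(16,0),(32,0)]⟩ ⟨1,[(13,0),(37,1)]⟩),.k,[⟨0,[(18,
  0),(10,0)]⟩,⟨0,[(1,0),(22,0),(22,2)]⟩,⟨0,[(4,0),(24,0),(4,0)]⟩,⟨4,[(1,2),(21,1),(0,0),(3,1),(18,
  3),(1,0)]⟩]⟩)) (.Q [0,-2,0,-2,1,0,0,0,-1,1,0,-1] (.p false [0,0,0,0,1] [1] (⟨0,[(30,0)]⟩,⟨0,[(29,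
  0)]⟩) .k 1 (⟨0,[]⟩,⟨0,[]⟩) .k .k) (.Q [0,0,0,0,0,-1,0,0,0,0,0,1] (.ed false [1,-1,0,0,1] .k) (.Q
  [0,0,0,-1,0,0,-1,-1,-1,1,-1,-1] (.p false [0,0,1] [1,0,0,0,-1] (⟨0,[(39,0)]⟩,⟨0,[(38,0)]⟩) .k 2
  (⟨0,[(31,0)]⟩,⟨0,[(32,0)]⟩) .k (.r 0 ⟨3,[(12,0),(9,1),(1,0),(1,0),(7,0),(10,0)]⟩ ⟨2,[(1,0),(0,0),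
  (8,1),(9,0)]⟩)) (.S ⟨1,0,[0,0,1],[1,1,0,0,-1],[0,-1,1],(⟨0,[(32,0),(8,0)]⟩,⟨0,[(1,0)]⟩),⟨0,[(32,
  0)]⟩,(.r (-1) ⟨13,[(2,1),(0,1),(11,2),(6,5),(7,3),(0,3),(19,7)]⟩ ⟨3,[(6,0),(11,0),(6,1),(8,0),(11,
  0),(3,0)]⟩),.k,⟨true,0,⟨0,[(49,0)]⟩,⟨6,[(22,1),(0,1),(21,0),(1,0)]⟩⟩,⟨false,0,⟨0,[(49,0)]⟩,⟨5,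
  [(15,0),(6,1),(27,1),(0,3)]⟩⟩,⟨false,1,⟨1,[(30,0),(0,0),(19,0)]⟩,⟨0,[]⟩⟩,⟨true,0,⟨0,[(53,0)]⟩,⟨0,
  []⟩⟩,[.a ⟨true,0,⟨0,[(0,0),(8,0),(14,0)]⟩,⟨0,[(31,0)]⟩⟩ ⟨false,1,⟨1,[(30,0),(0,0),(19,0)]⟩,⟨1,[(6,
  0),(11,0),(15,0)]⟩⟩ ⟨true,0,⟨1,[(37,0),(0,0)]⟩,⟨0,[]⟩⟩,.o ⟨false,1,⟨5,[(0,3),(1,1),(1,0),(4,2),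
  (36,0)]⟩,⟨2,[(3,1),(21,0),(5,0),(14,0),(0,1)]⟩⟩,.o ⟨false,1,⟨5,[(0,3),(1,1),(1,3),(41,0),(3,2)]⟩,
  ⟨0,[(3,0)]⟩⟩,.e ⟨false,1,⟨0,[(51,0)]⟩,⟨0,[(53,0)]⟩⟩ ⟨false,1,⟨1,[(30,0),(0,0),(19,0)]⟩,⟨0,[]⟩⟩]⟩)
  (.K ⟨0,[0,-1,0,0,1],(-1),(-1),(⟨0,[(1,0)]⟩,⟨0,[(32,0),(8,0)]⟩),(.r 0 ⟨3,[(6,0),(11,0),(6,1),(8,0),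
  (11,0),(3,0)]⟩ ⟨13,[(2,1),(0,1),(11,2),(6,5),(7,3),(0,3),(19,7)]⟩),(.r (-1) ⟨9,[(2,3),(22,5),(5,
  3),(13,5),(0,4),(3,6)]⟩ ⟨45,[(2,1),(0,1),(11,2),(6,5),(3,25),(24,23)]⟩),.k,(.r 0 ⟨0,[(18,0)]⟩ ⟨1,
  [(15,0),(14,0),(0,0),(19,0)]⟩),.k,[⟨0,[(2,0),(1,0),(3,0)]⟩,⟨2,[(0,1),(2,0),(7,0),(6,0),(6,1),(0,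
  1),(22,1),(1,0)]⟩,⟨6,[(2,0),(2,0),(2,1),(0,1),(16,0),(3,5),(16,1)]⟩,⟨4,[(0,1),(2,2),(1,0),(12,1),
  (5,2),(0,0),(19,1)]⟩]⟩)) (.Q [0,-1,0,0,1,0,-1,-1,-1,0,-1,-1] (.p false [0,0,1,0,1] [] (⟨0,[(32,0),
  (6,0)]⟩,⟨0,[(0,0),(26,0)]⟩) .k 0 (⟨0,[]⟩,⟨0,[]⟩) .k (.r 0 ⟨3,[(12,0),(9,1),(1,0),(1,0),(7,0),(10,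
  0)]⟩ ⟨2,[(1,0),(0,0),(8,1),(9,0)]⟩)) (.R ⟨0,false,false,false,[0,0,0,0,1],[0,0,1],[0,0,1,0,0,0,0,
  1],(⟨0,[(33,0)]⟩,⟨0,[(32,0)]⟩),(⟨0,[(40,0)]⟩,⟨0,[(39,0)]⟩),⟨0,[(1,0)]⟩,.k,.k,(.r 0 ⟨3,[(6,0),(11,
  0),(6,1),(8,0),(11,0),(3,0)]⟩ ⟨13,[(2,1),(0,1),(11,2),(6,5),(7,3),(0,3),(19,7)]⟩),.k,.k,.k,⟨true,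
  0,⟨1,[(37,0),(0,0)]⟩,⟨0,[]⟩⟩,⟨false,1,⟨0,[(2,0),(1,0),(3,0)]⟩,⟨0,[(3,0),(30,0)]⟩⟩,⟨false,1,⟨3,[(2,
  1),(0,1),(10,1),(0,0),(35,1)]⟩,⟨0,[(8,0)]⟩⟩,⟨true,1,⟨0,[(2,0),(1,0)]⟩,⟨1,[(3,1),(1,0),(2,1),(15,
  0),(22,0)]⟩⟩,⟨false,0,⟨0,[]⟩,⟨0,[]⟩⟩,⟨false,0,⟨0,[]⟩,⟨0,[]⟩⟩,[.e ⟨false,0,⟨0,[(13,0),(5,0)]⟩,⟨9,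
  [(12,6),(5,1),(3,0),(7,2),(0,2),(13,1)]⟩⟩ ⟨false,1,⟨0,[(2,0),(3,0),(40,0)]⟩,⟨1,[(3,0),(1,0),(2,0),
  (3,0),(18,0)]⟩⟩,.o ⟨false,1,⟨1,[(13,1),(32,0),(4,0)]⟩,⟨0,[(36,0)]⟩⟩,.a ⟨true,0,⟨0,[(31,0)]⟩,⟨0,
  [(0,0),(8,0),(14,1)]⟩⟩ ⟨true,0,⟨21,[(2,2),(0,2),(1,0),(7,3),(1,8),(9,5),(1,0),(18,3)]⟩,⟨0,[(8,
  0)]⟩⟩ ⟨false,1,⟨0,[(2,0),(1,0)]⟩,⟨1,[(3,0),(1,0),(2,0),(3,0),(18,0)]⟩⟩,.o ⟨false,0,⟨0,[(3,0)]⟩,⟨4,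
  [(0,2),(1,1),(3,2),(18,0),(21,2),(2,0)]⟩⟩]⟩) (.Q [0,1,0,0,-1,0,0,0,1,0,0,1] (.p true [0,0,0,0,1]
  [] (⟨0,[(33,0)]⟩,⟨0,[(32,0)]⟩) .k 0 (⟨0,[]⟩,⟨0,[]⟩) .k .k) (.R ⟨0,false,false,false,[0,0,0,0,1],
  [0,1],[1,0,2,1],(⟨0,[(34,0)]⟩,⟨0,[(33,0)]⟩),(⟨0,[(45,0)]⟩,⟨0,[(44,0)]⟩),⟨0,[(2,0)]⟩,.k,.k,(.r 0
  ⟨3,[(7,0),(11,0),(6,1),(8,0),(11,0),(3,0)]⟩ ⟨13,[(3,1),(0,1),(11,2),(6,5),(7,3),(0,3),(19,7)]⟩),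
  (.r 0 ⟨3,[(7,0),(11,0),(6,1),(8,0),(11,0),(3,0)]⟩ ⟨13,[(3,1),(0,1),(11,2),(6,5),(7,3),(0,3),(19,
  7)]⟩),.k,.k,⟨false,0,⟨0,[]⟩,⟨1,[(31,0),(0,0),(18,0)]⟩⟩,⟨true,1,⟨2,[(3,2),(1,1),(0,0),(2,1),(37,0),
  (0,1)]⟩,⟨1,[(0,1),(2,0),(0,0),(22,0),(22,0)]⟩⟩,⟨true,0,⟨45,[(3,15),(0,15),(11,0),(6,1),(3,23),(24,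
  7)]⟩,⟨3,[(7,2),(11,2),(6,1),(8,2),(11,0),(3,0)]⟩⟩,⟨false,2,⟨5,[(3,0),(6,2),(1,0),(0,1),(13,0),(3,
  4),(3,0),(16,1)]⟩,⟨0,[(0,0),(49,0)]⟩⟩,⟨false,0,⟨0,[]⟩,⟨0,[]⟩⟩,⟨false,0,⟨0,[]⟩,⟨0,[]⟩⟩,[.o ⟨false,
  1,⟨25,[(4,1),(8,4),(3,9),(5,2),(4,3),(2,1),(5,1),(9,8)]⟩,⟨0,[(50,0)]⟩⟩,.a ⟨true,1,⟨5,[(16,0),(6,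
  1),(27,1),(0,3)]⟩,⟨0,[(25,0)]⟩⟩ ⟨true,0,⟨45,[(3,15),(0,15),(11,0),(6,1),(3,23),(24,7)]⟩,⟨3,[(7,0),
  (11,0),(6,1),(8,0),(11,0),(3,0)]⟩⟩ ⟨false,2,⟨1,[(10,0),(2,0),(17,1),(3,0)]⟩,⟨0,[(0,0),(49,0)]⟩⟩,
  .o ⟨false,0,⟨1,[(0,1),(46,0),(4,0)]⟩,⟨0,[(31,0)]⟩⟩,.o ⟨false,0,⟨0,[(4,0)]⟩,⟨2,[(3,2),(1,1),(0,0),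
  (2,1),(37,0),(0,1)]⟩⟩]⟩) (.Q [0,0,0,0,1,0,0,0,-1,-1,0,-1] (.p false [1,-1,0,0,1] [] (⟨0,[(34,0),
  (9,0)]⟩,⟨0,[(2,0)]⟩) (.r 0 ⟨3,[(7,0),(11,0),(6,1),(8,0),(11,0),(3,0)]⟩ ⟨13,[(3,1),(0,1),(11,2),(6,
  5),(7,3),(0,3),(19,7)]⟩) 0 (⟨0,[]⟩,⟨0,[]⟩) .k .k) (.R ⟨0,false,false,false,[0,1,0,0,-1],[0,1,1],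
  [0,1],(⟨0,[(3,0)]⟩,⟨0,[(35,0),(9,0)]⟩),(⟨0,[(42,0),(0,0)]⟩,⟨0,[(30,0)]⟩),⟨0,[(35,0)]⟩,(.r (-1)
  ⟨13,[(4,1),(0,1),(11,2),(6,5),(7,3),(0,3),(19,7)]⟩ ⟨3,[(8,0),(11,0),(6,1),(8,0),(11,0),(3,0)]⟩),
  .k,.k,.k,.k,.k,⟨true,0,⟨0,[(20,0)]⟩,⟨5,[(4,1),(0,1),(1,1),(4,1),(2,1),(1,0),(10,1)]⟩⟩,⟨false,0,⟨0,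
  [(2,0),(11,0)]⟩,⟨1,[(0,0),(28,0),(2,0)]⟩⟩,⟨false,0,⟨3,[(8,0),(11,0),(6,1),(8,0),(11,0),(3,0)]⟩,
  ⟨22,[(4,1),(0,1),(11,2),(6,5),(3,2),(24,23)]⟩⟩,⟨true,(-1),⟨0,[(2,0)]⟩,⟨0,[(1,0),(36,0)]⟩⟩,⟨false,
  0,⟨0,[]⟩,⟨0,[]⟩⟩,⟨false,0,⟨0,[]⟩,⟨0,[]⟩⟩,[.e ⟨false,0,⟨1,[(8,0),(11,0),(15,0)]⟩,⟨1,[(32,0),(0,0),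
  (19,0)]⟩⟩ ⟨false,0,⟨1,[(2,0),(8,0),(21,0),(9,0),(1,0)]⟩,⟨5,[(0,4),(3,0),(5,1),(2,1),(6,1),(15,
  1)]⟩⟩,.o ⟨false,1,⟨0,[(12,0)]⟩,⟨25,[(4,2),(0,2),(7,0),(6,2),(6,7),(1,0),(8,21),(9,4)]⟩⟩,.a ⟨true,
  1,⟨2,[(0,0),(0,1),(24,0),(22,0),(2,0)]⟩,⟨3,[(2,1),(10,0),(9,0),(2,2),(1,0),(4,1),(19,1)]⟩⟩ ⟨true,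
  0,⟨0,[(55,0)]⟩,⟨0,[]⟩⟩ ⟨false,0,⟨2,[(2,0),(12,1),(12,0),(4,1),(19,1)]⟩,⟨5,[(0,4),(3,0),(5,1),(2,
  1),(6,1),(15,1)]⟩⟩,.o ⟨false,1,⟨0,[(0,0)]⟩,⟨0,[(33,0)]⟩⟩]⟩) (.R ⟨2,true,false,false,[0,1],[0,0,0,
  0,1],[1,1,1,1],(⟨0,[]⟩,⟨0,[]⟩),(⟨0,[(35,0)]⟩,⟨0,[(34,0)]⟩),⟨0,[]⟩,.k,.k,.k,(.r (-1) ⟨13,[(4,1),(0,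
  1),(11,2),(6,5),(7,3),(0,3),(19,7)]⟩ ⟨3,[(8,0),(11,0),(6,1),(8,0),(11,0),(3,0)]⟩),.k,.k,⟨true,0,
  ⟨22,[(4,1),(0,1),(11,2),(6,5),(3,2),(24,0)]⟩,⟨0,[(51,0)]⟩⟩,⟨false,0,⟨0,[(33,0)]⟩,⟨1,[(1,1),(6,0),
  (11,0),(15,0)]⟩⟩,⟨false,0,⟨0,[]⟩,⟨1,[(32,0),(0,0),(19,0)]⟩⟩,⟨true,(-1),⟨0,[(0,0),(25,0),(21,0)]⟩,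
  ⟨9,[(1,3),(16,0),(5,0),(3,0),(3,5),(3,0),(12,2)]⟩⟩,⟨true,0,⟨6,[(24,1),(0,1),(21,0),(1,0)]⟩,⟨0,
  [(51,0)]⟩⟩,⟨false,0,⟨0,[(33,0)]⟩,⟨0,[(1,0)]⟩⟩,[]⟩))))) (.Q [0,1,0,-1,-1,0,1,1,1,-1,1,1] (.p true
  [0,0,1] [1,0,0,0,-1] (⟨0,[(38,0)]⟩,⟨0,[(37,0)]⟩) .k 2 (⟨0,[(30,0)]⟩,⟨0,[(31,0)]⟩) .k (.r 0 ⟨3,
  [(11,0),(9,1),(1,0),(1,0),(7,0),(10,0)]⟩ ⟨9,[(1,1),(7,1),(0,6),(9,0),(7,1),(6,3),(13,0)]⟩)) (.Q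
  [0,0,0,0,0,-1,0,0,0,1,0,-1] (.ed true [0,1,0,0,1] .k) (.S ⟨1,0,[0,-1,0,-1],[1,0,0,0,-1],[1],(⟨0,
  [(32,0)]⟩,⟨0,[(33,0)]⟩),⟨0,[(0,0)]⟩,.k,(.r (-1) ⟨1,[(49,1),(0,0),(0,0)]⟩ ⟨5,[(15,0),(6,1),(14,0),
  (0,0),(14,3)]⟩),⟨false,0,⟨0,[]⟩,⟨1,[(30,0),(0,0),(19,0)]⟩⟩,⟨true,0,⟨0,[(49,0)]⟩,⟨6,[(22,1),(0,1),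
  (21,0),(1,0)]⟩⟩,⟨true,0,⟨6,[(22,1),(0,1),(21,0),(1,0)]⟩,⟨0,[(49,0)]⟩⟩,⟨false,1,⟨1,[(30,0),(0,0),
  (19,0)]⟩,⟨0,[]⟩⟩,[.a ⟨true,1,⟨0,[(24,0),(5,0),(20,0)]⟩,⟨21,[(1,10),(0,7),(9,11),(0,0),(10,6),(1,
  7),(4,2),(2,11)]⟩⟩ ⟨true,0,⟨0,[]⟩,⟨1,[(37,0),(0,0)]⟩⟩ ⟨false,1,⟨1,[(49,1),(0,0),(0,0)]⟩,⟨6,[(22,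
  1),(0,1),(21,0),(1,0)]⟩⟩,.o ⟨false,2,⟨0,[(30,0),(18,0),(1,0)]⟩,⟨2,[(1,0),(0,1),(33,0)]⟩⟩,.o
  ⟨false,1,⟨0,[(30,0)]⟩,⟨10,[(1,3),(0,2),(0,1),(7,1),(0,1),(18,1),(14,1),(4,2)]⟩⟩,.o ⟨false,1,⟨1,
  [(30,1),(6,0),(0,0)]⟩,⟨0,[(1,0),(6,0),(0,0),(1,0)]⟩⟩]⟩) (.R ⟨0,false,false,true,[1,0,0,0,-1],[0,
  1],[0,0,1],(⟨0,[(32,0)]⟩,⟨0,[(33,0)]⟩),(⟨0,[(44,0)]⟩,⟨0,[(43,0)]⟩),⟨0,[(0,0)]⟩,.k,.k,(.r (-1) ⟨1,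
  [(49,1),(0,0),(0,0)]⟩ ⟨5,[(15,0),(6,1),(14,0),(0,0),(14,3)]⟩),(.r (-1) ⟨1,[(49,1),(0,0),(0,0)]⟩
  ⟨5,[(15,0),(6,1),(14,0),(0,0),(14,3)]⟩),.k,.k,⟨false,1,⟨1,[(49,1),(0,0),(0,0)]⟩,⟨6,[(22,1),(0,1),
  (21,0),(1,0)]⟩⟩,⟨true,0,⟨0,[(1,0),(6,0),(0,0),(1,0)]⟩,⟨11,[(11,1),(3,0),(8,1),(0,7),(0,5),(3,11),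
  (6,3),(13,3)]⟩⟩,⟨false,0,⟨1,[(37,0),(0,0)]⟩,⟨1,[(50,0),(0,0)]⟩⟩,⟨true,(-1),⟨2,[(1,0),(0,1),(33,
  0)]⟩,⟨0,[(24,0),(5,0),(20,0)]⟩⟩,⟨false,0,⟨0,[]⟩,⟨0,[]⟩⟩,⟨false,0,⟨0,[]⟩,⟨0,[]⟩⟩,[.a ⟨true,0,⟨0,
  [(48,0)]⟩,⟨0,[(24,0),(26,0)]⟩⟩ ⟨true,0,⟨1,[(37,0),(0,0)]⟩,⟨0,[]⟩⟩ ⟨false,0,⟨21,[(1,3),(0,13),(8,
  1),(0,1),(18,3),(14,2),(3,9),(0,2)]⟩,⟨0,[(24,0),(5,0),(20,0)]⟩⟩,.o ⟨false,1,⟨25,[(3,1),(8,4),(3,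
  9),(5,2),(4,3),(2,1),(5,1),(9,8)]⟩,⟨0,[(49,0)]⟩⟩,.o ⟨false,1,⟨0,[(30,0)]⟩,⟨10,[(1,3),(0,2),(0,1),
  (7,1),(0,1),(18,1),(14,1),(4,2)]⟩⟩,.o ⟨false,1,⟨1,[(30,1),(6,0),(0,0)]⟩,⟨0,[(1,0),(6,0),(0,0),(1,
  0)]⟩⟩]⟩)) (.Q [0,0,1,0,-1,0,0,0,1,0,0,1] (.p true [0,0,0,0,1] [] (⟨0,[(32,0)]⟩,⟨0,[(31,0)]⟩) .k 0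
  (⟨0,[]⟩,⟨0,[]⟩) .k .k) (.Q [0,0,0,0,1,0,1,0,-1,0,1,-1] (.p true [0,0,1] [0,0,0,0,1] (⟨0,[(40,0)]⟩,
  ⟨0,[(39,0)]⟩) .k 2 (⟨0,[(33,0)]⟩,⟨0,[(32,0)]⟩) .k (.r (-1) ⟨3,[(13,1),(13,1),(7,1),(10,0),(4,2)]⟩
  ⟨3,[(18,1),(3,0),(13,0),(0,0)]⟩)) (.K ⟨0,[0,0,0,0,1],(-1),(-1),(⟨0,[(34,0)]⟩,⟨0,[(33,0)]⟩),.k,(.r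
  0 ⟨3,[(7,0),(11,0),(6,1),(8,0),(11,0),(3,0)]⟩ ⟨21,[(0,5),(1,7),(1,7),(11,4),(6,1),(8,5),(5,1),(13,
  7)]⟩),(.r 0 ⟨5,[(16,0),(6,1),(14,0),(0,0),(14,3)]⟩ ⟨1,[(50,1),(0,0),(0,0)]⟩),.k,.k,[⟨0,[(0,0)]⟩,
  ⟨0,[(1,0)]⟩,⟨0,[(31,0)]⟩,⟨28,[(3,12),(0,2),(11,0),(6,1),(2,15),(5,12),(13,6)]⟩]⟩) (.Q [0,0,2,0,-1,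
  0,1,0,1,-1,1,1] (.p true [0,0,1] [1,0,0,0,-1] (⟨0,[(41,0)]⟩,⟨0,[(40,0)]⟩) .k 2 (⟨0,[(33,0)]⟩,⟨0,
  [(34,0)]⟩) .k (.r 0 ⟨3,[(14,0),(9,1),(1,0),(1,0),(7,0),(10,0)]⟩ ⟨6,[(2,0),(1,1),(7,0),(0,4),(17,
  0),(6,2)]⟩)) (.Q [0,1,0,-2,-1,0,1,1,1,-1,1,1] (.p true [0,0,1] [1,0,0,0,-1] (⟨0,[(42,0)]⟩,⟨0,[(41,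
  0)]⟩) .k 2 (⟨0,[(34,0)]⟩,⟨0,[(35,0)]⟩) .k (.r 0 ⟨3,[(15,0),(9,1),(1,0),(1,0),(7,0),(10,0)]⟩ ⟨6,
  [(3,0),(1,1),(7,0),(0,4),(17,0),(6,2)]⟩)) (.R ⟨1,true,false,true,[0,-1,1],[1,0,0,0,-1],[0,0,-1,-2,
  0,0,0,1],(⟨0,[(32,0)]⟩,⟨0,[(42,0),(1,0)]⟩),(⟨0,[(35,0)]⟩,⟨0,[(36,0)]⟩),⟨0,[(10,0)]⟩,.k,.k,(.r
  (-1) ⟨1,[(0,1),(32,1),(3,1),(15,0),(0,0)]⟩ ⟨3,[(4,0),(1,0),(17,1),(0,0),(3,0),(10,0)]⟩),(.r 0 ⟨2,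
  [(0,1),(8,0),(23,1),(3,2)]⟩ ⟨3,[(4,1),(1,1),(8,0),(9,0),(14,1),(13,0)]⟩),(.r (-1) ⟨7,[(0,5),(27,
  1),(1,3),(2,6),(0,0),(3,1),(14,7),(0,0)]⟩ ⟨1,[(1,0),(2,0),(10,0),(13,0)]⟩),.k,⟨false,1,⟨1,[(0,1),
  (32,1),(3,1),(15,0),(0,0)]⟩,⟨3,[(11,0),(3,1),(9,0),(3,1)]⟩⟩,⟨true,1,⟨0,[(33,0),(3,0)]⟩,⟨0,[(1,
  0)]⟩⟩,⟨true,0,⟨0,[(52,0)]⟩,⟨6,[(25,1),(0,1),(21,0),(1,0)]⟩⟩,⟨false,1,⟨0,[(4,0)]⟩,⟨2,[(0,1),(19,0),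
  (13,0),(19,0)]⟩⟩,⟨false,1,⟨1,[(33,0),(0,0),(19,0)]⟩,⟨0,[]⟩⟩,⟨true,1,⟨6,[(4,6),(20,1),(0,1),(21,0),
  (1,0)]⟩,⟨0,[(0,0)]⟩⟩,[]⟩) (.Q [0,0,0,0,0,-1,0,0,0,1,0,-1] (.ed true [0,1,0,0,1] .k) (.S ⟨1,0,[0,
  -1,0,-1],[1,0,0,0,-1],[1],(⟨0,[(36,0)]⟩,⟨0,[(37,0)]⟩),⟨0,[(0,0)]⟩,.k,(.r (-1) ⟨1,[(53,1),(0,0),(0,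
  0)]⟩ ⟨5,[(19,0),(6,1),(14,0),(0,0),(14,3)]⟩),⟨false,0,⟨0,[]⟩,⟨1,[(34,0),(0,0),(19,0)]⟩⟩,⟨true,0,
  ⟨0,[(53,0)]⟩,⟨6,[(26,1),(0,1),(21,0),(1,0)]⟩⟩,⟨true,0,⟨6,[(26,1),(0,1),(21,0),(1,0)]⟩,⟨0,[(53,
  0)]⟩⟩,⟨false,1,⟨1,[(34,0),(0,0),(19,0)]⟩,⟨0,[]⟩⟩,[.a ⟨true,1,⟨2,[(5,0),(11,0),(11,1),(4,1),(20,
  1)]⟩,⟨0,[(4,0),(46,0)]⟩⟩ ⟨true,0,⟨0,[]⟩,⟨1,[(41,0),(0,0)]⟩⟩ ⟨false,1,⟨1,[(53,1),(0,0),(0,0)]⟩,⟨6,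
  [(26,1),(0,1),(21,0),(1,0)]⟩⟩,.o ⟨false,2,⟨0,[(34,0),(18,0),(1,0)]⟩,⟨7,[(3,0),(2,5),(0,0),(2,0),
  (11,0),(6,1),(20,0)]⟩⟩,.o ⟨false,1,⟨0,[(34,0)]⟩,⟨1,[(3,0),(3,0),(16,0)]⟩⟩,.o ⟨false,1,⟨1,[(34,1),
  (6,0),(0,0)]⟩,⟨0,[(3,0),(20,0)]⟩⟩]⟩) (.S ⟨1,0,[0,0,1],[1,1,0,0,-1],[0,-1,1],(⟨0,[(36,0),(8,0)]⟩,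
  ⟨1,[(0,0),(10,0),(20,0),(4,0)]⟩),⟨0,[(36,0)]⟩,(.r (-1) ⟨11,[(5,5),(1,3),(11,1),(1,1),(12,0),(0,2),
  (5,3),(13,2)]⟩ ⟨3,[(10,0),(11,0),(6,1),(8,0),(11,0),(3,0)]⟩),.k,⟨true,0,⟨0,[(53,0)]⟩,⟨6,[(26,1),
  (0,1),(21,0),(1,0)]⟩⟩,⟨false,0,⟨0,[(53,0)]⟩,⟨2,[(5,0),(14,0),(14,0),(19,0)]⟩⟩,⟨false,1,⟨1,[(34,0),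
  (0,0),(19,0)]⟩,⟨0,[]⟩⟩,⟨true,0,⟨0,[(57,0)]⟩,⟨0,[]⟩⟩,[.o ⟨false,1,⟨0,[(34,0)]⟩,⟨1,[(3,0),(3,0),(16,
  0)]⟩⟩,.e ⟨false,1,⟨0,[(55,0)]⟩,⟨0,[(49,0)]⟩⟩ ⟨false,1,⟨1,[(34,0),(0,0),(19,0)]⟩,⟨1,[(10,0),(11,0),
  (15,0)]⟩⟩,.a ⟨true,1,⟨1,[(5,0),(11,0),(10,0),(5,0),(19,0)]⟩,⟨0,[(4,0)]⟩⟩ ⟨false,1,⟨1,[(41,0),(0,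
  0),(12,1)]⟩,⟨1,[(10,0),(11,0),(15,0)]⟩⟩ ⟨true,0,⟨1,[(41,0),(0,0)]⟩,⟨1,[(10,0),(11,0),(15,0)]⟩⟩,.o
  ⟨false,1,⟨0,[(34,0)]⟩,⟨1,[(3,0),(3,0),(16,0)]⟩⟩]⟩))) (.Q [0,0,0,0,0,-1,0,0,0,0,0,1] (.ed false [1,
  -1,0,0,1] .k) (.S ⟨1,0,[0,1,0,-1],[0,0,0,0,1],[1,2],(⟨0,[(36,0)]⟩,⟨0,[(35,0)]⟩),⟨0,[(0,0)]⟩,.k,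
  (.r 0 ⟨23,[(1,1),(0,1),(6,3),(11,3),(6,11),(19,1),(0,4),(3,6)]⟩ ⟨11,[(4,5),(1,3),(11,1),(1,1),(12,
  0),(0,2),(5,3),(13,2)]⟩),⟨false,0,⟨0,[]⟩,⟨1,[(33,0),(0,0),(19,0)]⟩⟩,⟨true,0,⟨0,[(52,0)]⟩,⟨6,[(25,
  1),(0,1),(21,0),(1,0)]⟩⟩,⟨true,0,⟨6,[(25,1),(0,1),(21,0),(1,0)]⟩,⟨0,[(52,0)]⟩⟩,⟨false,1,⟨1,[(33,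
  0),(0,0),(19,0)]⟩,⟨0,[]⟩⟩,[.e ⟨false,0,⟨0,[(48,0)]⟩,⟨0,[(54,0)]⟩⟩ ⟨false,0,⟨23,[(1,1),(0,1),(6,3),
  (11,3),(6,11),(19,1),(0,4),(3,6)]⟩,⟨2,[(4,0),(14,0),(14,0),(19,0)]⟩⟩,.o ⟨false,0,⟨1,[(2,0),(3,0),
  (16,0),(28,1)]⟩,⟨2,[(4,0),(2,0),(25,1)]⟩⟩,.o ⟨false,0,⟨1,[(2,0),(3,0),(16,0)]⟩,⟨0,[(33,0)]⟩⟩,.a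
  ⟨true,(-1),⟨0,[(3,0)]⟩,⟨0,[(1,0),(38,0)]⟩⟩ ⟨false,0,⟨4,[(1,0),(3,0),(3,0),(11,0),(6,0),(24,0)]⟩,
  ⟨1,[(40,0),(0,0),(12,1)]⟩⟩ ⟨true,0,⟨23,[(1,1),(0,1),(6,3),(11,3),(6,11),(19,1),(0,4),(3,6)]⟩,⟨7,
  [(4,0),(1,0),(11,0),(6,0),(3,0),(10,0)]⟩⟩]⟩) (.K ⟨0,[0,0,1,0,1],(-1),(-1),(⟨0,[(36,0),(6,0)]⟩,⟨0,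
  [(0,0),(30,0)]⟩),.k,(.r 0 ⟨5,[(1,1),(0,1),(13,3),(9,1),(1,3),(20,2),(3,0)]⟩ ⟨3,[(4,1),(1,1),(8,0),
  (9,0),(14,1),(13,0)]⟩),(.r 0 ⟨1,[(18,0),(37,1)]⟩ ⟨0,[(21,0),(32,0)]⟩),.k,.k,[⟨0,[(33,0)]⟩,⟨1,[(2,
  1),(12,0),(0,0),(6,2),(4,2),(0,1),(24,0)]⟩,⟨4,[(1,0),(2,3),(16,0),(6,2),(0,0),(19,3)]⟩,⟨1,[(5,0),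
  (10,0),(11,0),(5,0),(3,0)]⟩]⟩)))) (.Q [0,0,0,0,0,0,0,0,0,0,-1,1] (.ed false [1,0,-1,0,1] (.r 0 ⟨3,
  [(18,1),(3,0),(13,0),(0,0)]⟩ ⟨3,[(13,1),(13,1),(7,1),(10,0),(4,2)]⟩)) (.S ⟨1,0,[0,2,0,-1],[0,0,0,
  0,1],[1,1],(⟨0,[(34,0)]⟩,⟨0,[(33,0)]⟩),⟨1,[(0,0),(7,0),(25,0)]⟩,.k,(.r 0 ⟨3,[(7,0),(11,0),(6,1),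
  (8,0),(11,0),(3,0)]⟩ ⟨11,[(2,5),(1,3),(11,1),(1,1),(12,0),(0,2),(5,3),(13,2)]⟩),⟨true,0,⟨0,[]⟩,⟨0,
  [(54,0)]⟩⟩,⟨false,0,⟨0,[(50,0)]⟩,⟨2,[(2,0),(14,0),(14,0),(19,0)]⟩⟩,⟨false,1,⟨2,[(2,0),(14,0),(14,
  0),(19,0)]⟩,⟨0,[(50,0)]⟩⟩,⟨true,0,⟨0,[(54,0)]⟩,⟨0,[]⟩⟩,[.o ⟨false,(-1),⟨0,[(3,0),(46,2)]⟩,⟨2,[(2,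
  0),(7,0),(20,1),(20,1)]⟩⟩,.a ⟨true,(-1),⟨0,[(3,0),(22,0),(23,0),(1,0)]⟩,⟨0,[(2,0),(11,0)]⟩⟩ ⟨true,
  0,⟨0,[]⟩,⟨1,[(38,0),(0,0)]⟩⟩ ⟨false,0,⟨3,[(7,0),(11,0),(6,1),(8,0),(11,0),(3,0)]⟩,⟨2,[(2,0),(14,
  0),(14,0),(19,0)]⟩⟩,.o ⟨false,0,⟨0,[(3,0),(46,1),(1,0)]⟩,⟨0,[(31,0)]⟩⟩,.o ⟨false,0,⟨0,[(4,0)]⟩,⟨0,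
  [(1,0)]⟩⟩]⟩) (.Q [0,1,0,0,-1,0,-1,-1,1,0,-1,1] (.p true [1,0,-1,0,1] [1] (⟨0,[(34,0),(5,0)]⟩,⟨0,
  [(0,0)]⟩) .k 1 (⟨0,[]⟩,⟨0,[]⟩) .k (.r 0 ⟨3,[(19,1),(3,0),(13,0),(0,0)]⟩ ⟨3,[(14,1),(13,1),(7,1),
  (10,0),(4,2)]⟩)) (.Q [0,0,1,0,-1,0,-1,0,1,0,-1,1] (.p true [1,0,-1,0,1] [1] (⟨0,[(35,0),(5,0)]⟩,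
  ⟨0,[(1,0)]⟩) .k 1 (⟨0,[]⟩,⟨0,[]⟩) .k (.r 0 ⟨3,[(20,1),(3,0),(13,0),(0,0)]⟩ ⟨3,[(15,1),(13,1),(7,
  1),(10,0),(4,2)]⟩)) (.S ⟨1,0,[0,1,0,-1,0,0,0,-1],[1,0,-1,0,1],[1,2,0,0,0,0,0,-1],(⟨0,[(36,0),(5,
  0)]⟩,⟨0,[(2,0)]⟩),⟨0,[(31,0),(4,0)]⟩,.k,(.r 0 ⟨0,[(21,0)]⟩ ⟨1,[(18,0),(14,0),(0,0),(19,0)]⟩),
  ⟨false,0,⟨0,[]⟩,⟨1,[(33,0),(0,0),(19,0)]⟩⟩,⟨true,0,⟨0,[(52,0)]⟩,⟨6,[(25,1),(0,1),(21,0),(1,0)]⟩⟩,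
  ⟨true,0,⟨6,[(25,1),(0,1),(21,0),(1,0)]⟩,⟨0,[(52,0)]⟩⟩,⟨false,1,⟨1,[(33,0),(0,0),(19,0)]⟩,⟨0,[]⟩⟩,
  [.o ⟨false,(-1),⟨0,[(1,0),(50,0)]⟩,⟨0,[(13,0),(19,0)]⟩⟩,.e ⟨false,0,⟨0,[(11,0)]⟩,⟨3,[(16,1),(13,
  1),(7,1),(10,0),(4,2)]⟩⟩ ⟨false,1,⟨1,[(21,1),(11,0),(0,0),(19,0)]⟩,⟨0,[(17,0)]⟩⟩,.a ⟨true,(-1),⟨1,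
  [(0,0),(0,0),(10,0),(14,1),(9,0),(16,0)]⟩,⟨0,[(3,0),(36,0)]⟩⟩ ⟨false,0,⟨3,[(21,1),(3,0),(13,0),(0,
  0)]⟩,⟨3,[(14,1),(1,3),(0,1),(31,0),(4,2)]⟩⟩ ⟨true,0,⟨11,[(6,0),(7,0),(6,6),(6,1),(4,0),(5,3),(0,
  5),(8,0)]⟩,⟨0,[(17,0)]⟩⟩,.o ⟨false,(-1),⟨0,[(0,0)]⟩,⟨0,[(23,0),(9,0)]⟩⟩]⟩) (.Q [0,0,0,0,0,-1,0,0,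
  0,0,0,1] (.ed false [1,-1,0,0,1] .k) (.K ⟨0,[0,-1,0,0,1],(-1),(-1),(⟨0,[(0,0)]⟩,⟨0,[(36,0),(8,
  0)]⟩),(.r 0 ⟨3,[(10,0),(11,0),(6,1),(8,0),(11,0),(3,0)]⟩ ⟨11,[(5,5),(1,3),(11,1),(1,1),(12,0),(0,
  2),(5,3),(13,2)]⟩),(.r (-1) ⟨1,[(29,1),(4,0),(0,0),(14,0),(3,1)]⟩ ⟨15,[(5,0),(1,0),(11,0),(6,0),
  (3,8),(10,0),(13,7)]⟩),.k,(.r 0 ⟨0,[(22,0)]⟩ ⟨1,[(19,0),(14,0),(0,0),(19,0)]⟩),.k,[⟨0,[(1,0)]⟩,⟨1,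
  [(2,0),(4,0),(9,0),(11,0),(0,0),(22,0),(1,0)]⟩,⟨2,[(5,0),(2,0),(25,1)]⟩,⟨9,[(6,2),(0,2),(21,7),(5,
  3),(13,2),(0,0)]⟩]⟩) (.R ⟨0,false,false,false,[0,0,0,0,1],[0,1],[0,1,1],(⟨0,[(37,0)]⟩,⟨0,[(36,
  0)]⟩),(⟨0,[(48,0)]⟩,⟨0,[(47,0)]⟩),⟨0,[(0,0)]⟩,.k,.k,(.r 0 ⟨3,[(10,0),(11,0),(6,1),(8,0),(11,0),(3,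
  0)]⟩ ⟨11,[(5,5),(1,3),(11,1),(1,1),(12,0),(0,2),(5,3),(13,2)]⟩),(.r 0 ⟨3,[(10,0),(11,0),(6,1),(8,
  0),(11,0),(3,0)]⟩ ⟨11,[(5,5),(1,3),(11,1),(1,1),(12,0),(0,2),(5,3),(13,2)]⟩),.k,.k,⟨false,0,⟨3,
  [(10,0),(11,0),(6,1),(8,0),(11,0),(3,0)]⟩,⟨2,[(5,0),(14,0),(14,0),(19,0)]⟩⟩,⟨true,1,⟨0,[(4,0)]⟩,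
  ⟨1,[(2,0),(4,0),(9,0),(11,0),(0,0),(22,0),(1,0)]⟩⟩,⟨true,0,⟨1,[(41,0),(0,0)]⟩,⟨1,[(10,0),(11,0),
  (15,0)]⟩⟩,⟨false,2,⟨2,[(5,0),(7,0),(20,1),(20,1)]⟩,⟨0,[(2,0),(14,0),(35,0)]⟩⟩,⟨false,0,⟨0,[]⟩,⟨0,
  []⟩⟩,⟨false,0,⟨0,[]⟩,⟨0,[]⟩⟩,[.o ⟨false,1,⟨4,[(5,0),(14,1),(14,0),(4,0),(9,1)]⟩,⟨0,[(53,0)]⟩⟩,.a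
  ⟨true,1,⟨2,[(5,0),(14,0),(14,0),(19,0)]⟩,⟨0,[(28,0)]⟩⟩ ⟨true,0,⟨1,[(41,0),(0,0)]⟩,⟨0,[]⟩⟩ ⟨false,
  2,⟨2,[(4,0),(0,0),(14,0),(13,0),(19,0),(0,0)]⟩,⟨0,[(2,0),(14,0),(35,0)]⟩⟩,.o ⟨false,0,⟨1,[(2,1),
  (14,1),(32,0),(4,0)]⟩,⟨0,[(34,0)]⟩⟩,.o ⟨false,0,⟨0,[(7,0)]⟩,⟨0,[(4,0)]⟩⟩]⟩))) (.Q [0,1,0,-1,-1,0,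
  -1,-1,1,0,-1,1] (.p true [1,0,-1,0,1] [1] (⟨0,[(35,0),(5,0)]⟩,⟨0,[(1,0)]⟩) .k 1 (⟨0,[]⟩,⟨0,[]⟩)
  .k (.r 0 ⟨3,[(20,1),(3,0),(13,0),(0,0)]⟩ ⟨3,[(0,1),(14,1),(13,1),(3,1),(14,0),(4,0)]⟩)) (.R ⟨1,
  false,false,false,[1,0,0,0,-1],[1,-1,-1],[1,1,1],(⟨0,[(35,0)]⟩,⟨0,[(36,0)]⟩),(⟨0,[(31,0)]⟩,⟨0,
  [(43,0),(0,0)]⟩),⟨0,[(2,0),(28,0)]⟩,.k,.k,(.r (-1) ⟨1,[(52,1),(0,0),(0,0)]⟩ ⟨5,[(18,0),(6,1),(14,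
  0),(0,0),(14,3)]⟩),(.r (-1) ⟨1,[(18,0),(14,0),(0,0),(19,0)]⟩ ⟨0,[(21,0)]⟩),.k,.k,⟨true,(-1),⟨9,
  [(8,1),(0,3),(8,2),(9,5),(0,3),(19,1)]⟩,⟨0,[(21,0),(32,0)]⟩⟩,⟨false,0,⟨0,[(6,0),(30,0)]⟩,⟨0,[(1,
  0),(9,0)]⟩⟩,⟨true,(-1),⟨8,[(9,4),(18,6),(0,2),(9,4),(9,0),(6,0)]⟩,⟨1,[(53,0),(0,0)]⟩⟩,⟨true,(-1),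
  ⟨0,[(0,0)]⟩,⟨5,[(1,4),(2,0),(2,0),(17,0),(0,0),(11,0),(9,0)]⟩⟩,⟨true,(-1),⟨2,[(9,1),(17,1),(1,0),
  (9,1)]⟩,⟨1,[(52,1),(0,0),(0,0)]⟩⟩,⟨false,0,⟨23,[(0,2),(4,3),(0,4),(7,8),(0,6),(9,1),(8,11),(4,
  2)]⟩,⟨0,[(1,0)]⟩⟩,[.e ⟨false,0,⟨0,[(56,0)]⟩,⟨1,[(53,0),(0,0)]⟩⟩ ⟨false,0,⟨1,[(0,1),(52,0),(0,0)]⟩,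
  ⟨5,[(1,4),(2,0),(2,0),(17,0),(0,0),(11,0),(9,0)]⟩⟩,.o ⟨false,1,⟨1,[(6,0),(7,0),(6,0),(11,0),(20,
  0)]⟩,⟨0,[(9,0)]⟩⟩,.o ⟨false,1,⟨0,[(33,0)]⟩,⟨0,[(0,0),(12,0)]⟩⟩,.a ⟨true,0,⟨2,[(1,0),(2,0),(23,1),
  (0,0),(3,0)]⟩,⟨5,[(0,3),(4,1),(9,1),(0,5),(20,1),(15,0),(0,2)]⟩⟩ ⟨false,0,⟨0,[]⟩,⟨1,[(33,0),(0,0),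
  (19,0)]⟩⟩ ⟨true,0,⟨1,[(0,1),(52,0),(0,0)]⟩,⟨2,[(1,0),(7,1),(17,1),(1,0),(3,1)]⟩⟩]⟩) (.Q [0,0,0,0,
  0,-1,0,0,0,0,0,1] (.ed false [1,-1,0,0,1] .k) (.S ⟨1,0,[0,2,0,-1],[0,0,0,0,1],[1,1],(⟨0,[(37,0)]⟩,
  ⟨0,[(36,0)]⟩),⟨0,[(0,0)]⟩,.k,(.r 0 ⟨3,[(10,0),(11,0),(6,1),(8,0),(11,0),(3,0)]⟩ ⟨11,[(5,5),(1,3),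
  (11,1),(1,1),(12,0),(0,2),(5,3),(13,2)]⟩),⟨true,0,⟨0,[]⟩,⟨0,[(57,0)]⟩⟩,⟨false,0,⟨0,[(53,0)]⟩,⟨2,
  [(5,0),(14,0),(14,0),(19,0)]⟩⟩,⟨false,1,⟨2,[(5,0),(14,0),(14,0),(19,0)]⟩,⟨0,[(53,0)]⟩⟩,⟨true,0,⟨0,
  [(57,0)]⟩,⟨0,[]⟩⟩,[.o ⟨false,(-1),⟨0,[(6,0),(46,2)]⟩,⟨5,[(2,1),(2,3),(15,1),(28,0),(4,2)]⟩⟩,.a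
  ⟨true,(-1),⟨0,[(6,0),(22,0),(23,0),(1,0)]⟩,⟨0,[(5,0),(11,0)]⟩⟩ ⟨true,0,⟨0,[]⟩,⟨1,[(41,0),(0,0)]⟩⟩
  ⟨false,0,⟨3,[(10,0),(11,0),(6,1),(8,0),(11,0),(3,0)]⟩,⟨2,[(5,0),(14,0),(14,0),(19,0)]⟩⟩,.o ⟨false,
  0,⟨0,[(6,0),(46,1),(1,0)]⟩,⟨0,[(34,0)]⟩⟩,.o ⟨false,0,⟨0,[(7,0)]⟩,⟨0,[(4,0)]⟩⟩]⟩) (.R ⟨0,false,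
  false,true,[0,0,0,0,1],[0,1,1],[0,1,1],(⟨0,[(37,0)]⟩,⟨0,[(36,0)]⟩),(⟨0,[(44,0),(0,0)]⟩,⟨0,[(32,
  0)]⟩),⟨0,[(0,0)]⟩,.k,.k,(.r 0 ⟨3,[(10,0),(11,0),(6,1),(8,0),(11,0),(3,0)]⟩ ⟨11,[(5,5),(1,3),(11,
  1),(1,1),(12,0),(0,2),(5,3),(13,2)]⟩),(.r 0 ⟨0,[(22,0)]⟩ ⟨1,[(19,0),(14,0),(0,0),(19,0)]⟩),.k,.k,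
  ⟨false,1,⟨1,[(22,1),(11,0),(0,0),(19,0)]⟩,⟨0,[(18,0)]⟩⟩,⟨true,1,⟨0,[(2,0),(9,0)]⟩,⟨3,[(6,0),(0,2),
  (1,1),(19,1),(0,0),(22,0),(1,1)]⟩⟩,⟨true,0,⟨1,[(41,0),(0,0)]⟩,⟨1,[(10,0),(11,0),(15,0)]⟩⟩,⟨false,
  1,⟨0,[(1,0)]⟩,⟨1,[(7,0),(7,0),(6,0),(12,0)]⟩⟩,⟨false,0,⟨0,[]⟩,⟨0,[]⟩⟩,⟨false,0,⟨0,[]⟩,⟨0,[]⟩⟩,[.o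
  ⟨false,0,⟨0,[(10,0)]⟩,⟨1,[(7,0),(7,0),(6,0),(11,0),(20,0)]⟩⟩,.a ⟨true,0,⟨0,[(13,0),(14,0)]⟩,⟨14,
  [(5,3),(9,5),(6,2),(6,4),(4,0),(0,4),(4,1),(0,2)]⟩⟩ ⟨true,0,⟨1,[(41,0),(0,0)]⟩,⟨0,[]⟩⟩ ⟨false,1,
  ⟨0,[(2,0),(48,0)]⟩,⟨1,[(7,0),(7,0),(6,0),(12,0)]⟩⟩,.o ⟨false,0,⟨0,[(6,0),(46,1),(1,0)]⟩,⟨0,[(34,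
  0)]⟩⟩,.o ⟨false,0,⟨0,[(7,0)]⟩,⟨0,[(4,0)]⟩⟩]⟩))))))))))) (.R ⟨1,false,false,true,[1,-1],[0,-1,1],
  [1,0,1],(⟨0,[(37,0)]⟩,⟨0,[(38,0)]⟩),(⟨0,[(23,0)]⟩,⟨0,[(33,0),(1,0)]⟩),⟨1,[(1,0),(20,0),(14,0)]⟩,
  .k,.k,(.r (-1) ⟨0,[(43,1),(0,0)]⟩ ⟨1,[(9,0),(5,1)]⟩),.k,.k,.k,⟨true,0,⟨0,[(12,0),(7,0),(22,0),(1,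
  0)]⟩,⟨1,[(8,1),(10,1),(20,0),(3,0)]⟩⟩,⟨false,1,⟨0,[(14,0)]⟩,⟨1,[(21,0),(13,0),(1,0)]⟩⟩,⟨false,0,
  ⟨3,[(20,1),(10,0),(0,0),(10,1),(1,1)]⟩,⟨0,[(43,0),(0,0)]⟩⟩,⟨true,0,⟨0,[(3,0),(14,1),(21,0)]⟩,⟨11,
  [(0,7),(15,3),(4,0),(6,1),(6,0),(1,0),(1,1)]⟩⟩,⟨false,0,⟨7,[(9,0),(5,1),(4,3),(24,3)]⟩,⟨0,[(43,1),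
  (0,0)]⟩⟩,⟨false,1,⟨0,[(11,0)]⟩,⟨0,[(0,0)]⟩⟩,[.o ⟨false,0,⟨0,[(7,0),(10,0),(21,0)]⟩,⟨11,[(3,3),(1,
  5),(0,4),(9,4),(4,1),(18,1),(4,0)]⟩⟩,.a ⟨true,0,⟨0,[(7,0),(35,0)]⟩,⟨11,[(0,3),(1,0),(3,1),(9,4),
  (3,1),(7,7)]⟩⟩ ⟨false,1,⟨1,[(24,0),(0,0),(19,0)]⟩,⟨5,[(19,1),(20,0),(0,3),(2,0)]⟩⟩ ⟨true,1,⟨1,[(7,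
  1),(32,0),(2,1),(0,0)]⟩,⟨2,[(0,1),(17,0),(1,1),(9,0)]⟩⟩,.o ⟨false,0,⟨1,[(31,0),(0,0)]⟩,⟨1,[(40,0),
  (3,0)]⟩⟩,.e ⟨true,0,⟨0,[]⟩,⟨0,[(47,0)]⟩⟩ ⟨true,1,⟨5,[(7,5),(11,3),(20,4),(0,1),(2,4)]⟩,⟨2,[(0,1),
  (17,0),(1,1),(9,0)]⟩⟩]⟩))))) (.R ⟨1,false,false,false,[1,-1],[0,-1,1],[1,1,1],(⟨0,[(33,0)]⟩,⟨0,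
  [(34,0)]⟩),(⟨0,[(19,0)]⟩,⟨0,[(29,0),(1,0)]⟩),⟨0,[(18,0),(0,0)]⟩,.k,.k,(.r (-1) ⟨0,[(39,1),(0,0)]⟩
  ⟨1,[(5,0),(5,1)]⟩),.k,.k,.k,⟨true,(-1),⟨0,[(8,0),(7,0),(22,0)]⟩,⟨1,[(1,1),(1,3),(32,0),(3,0)]⟩⟩,
  ⟨false,1,⟨0,[(10,0)]⟩,⟨1,[(17,0),(13,0),(1,0)]⟩⟩,⟨true,(-1),⟨6,[(15,3),(0,4),(18,0),(0,1),(6,0)]⟩,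
  ⟨0,[(39,0),(0,0)]⟩⟩,⟨false,1,⟨1,[(3,1),(32,0),(4,0)]⟩,⟨4,[(1,1),(0,0),(9,1),(2,0),(8,0),(6,0),(1,
  0)]⟩⟩,⟨true,(-1),⟨8,[(14,3),(1,6),(18,1),(0,1),(0,0)]⟩,⟨0,[(39,1),(0,0)]⟩⟩,⟨true,1,⟨0,[(7,0)]⟩,⟨0,
  [(0,0)]⟩⟩,[.a ⟨true,0,⟨0,[(3,0),(35,0)]⟩,⟨0,[(11,0),(12,0)]⟩⟩ ⟨false,0,⟨0,[(43,0)]⟩,⟨1,[(40,0),(0,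
  0)]⟩⟩ ⟨true,1,⟨1,[(3,1),(32,0),(2,1),(0,0)]⟩,⟨1,[(1,0),(9,0),(2,0),(1,0)]⟩⟩,.o ⟨false,1,⟨1,[(3,1),
  (32,0),(2,1),(1,0)]⟩,⟨11,[(1,1),(0,0),(9,0),(3,1),(9,7),(9,0),(0,5)]⟩⟩,.o ⟨false,0,⟨1,[(27,0),(0,
  0)]⟩,⟨1,[(36,0),(3,0)]⟩⟩,.e ⟨false,0,⟨0,[]⟩,⟨1,[(20,0),(0,0),(19,0)]⟩⟩ ⟨false,2,⟨1,[(3,1),(32,0),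
  (2,1),(0,1),(0,0)]⟩,⟨1,[(1,0),(9,0),(2,0),(1,0)]⟩⟩]⟩)) (.K ⟨0,[1,-1,-1],(-1),0,(⟨0,[(17,0)]⟩,⟨0,
  [(29,0),(0,0)]⟩),.k,(.r (-1) ⟨1,[(7,1),(30,1),(0,0),(0,0)]⟩ ⟨3,[(4,2),(5,1)]⟩),.k,(.r (-1) ⟨1,[(1,
  0),(5,1),(17,0),(0,0),(13,0)]⟩ ⟨1,[(2,1),(1,0),(3,1)]⟩),.k,[⟨0,[(0,0),(6,0),(32,0)]⟩,⟨6,[(8,2),(5,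
  5),(0,3),(0,0),(10,1),(12,2)]⟩,⟨0,[(0,0),(7,0)]⟩,⟨5,[(1,1),(9,0),(2,3),(1,1),(2,1),(0,1),(4,2),(0,
  0)]⟩]⟩)))

theorem ok25 : chk K t25 l22 = true := by decide +kernel


end Helper25.S1T.Ymp_1cP4
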