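import Pool.Agent.Helper25.KG.S1b
import Pool.Agent.Helper11.CT.Cut

set_option autoImplicit false
set_option linter.all false

namespace Helper25.S1T.Ymp_1dL2

open Helper25.KG Helper25.KW Helper55.KE Helper11.CT

noncomputable def K : Cls :=
  cE 1 [0,1] (kfY 1 [0,0,0,0,0,0,1,0,0,0,1])

noncomputable def base : List Con :=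
  [(false,[0,0,0,0,0,0,-2,0,0,1,-2]),
  (false,[0,0,0,0,0,1,0,0,0,-1,1]),
  (false,[0,0,0,0,0,-1,0,0,0,0,1]),
  (false,[0,0,0,0,1,0,0,0,-1,0,0,-1]),
  (false,[0,0,0,0,0,0,0,0,1,0,0,1]),
  (false,[0,0,0,0,0,0,0,0,0,1,0,-1]),
  (false,[0,0,0,0,0,0,0,0,0,0,0,1]),
  (false,[0,0,-1,0,0,0,-1,0,0,1,-1]),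
  (false,[0,1,0,0,0,0,1,1,0,0,1]),
  (false,[0,1,0,0,0,0,-1,-1,0,0,-1]),
  (false,[0,0,1,0,0,0,1,0,0,0,1]),
  (false,[0,0,1,0,0,0,-1,0,0,0,-1]),
  (false,[0,0,0,0,0,0,0,0,0,1,-1]),
  (false,[0,0,0,0,0,0,0,0,0,0,1]),
  (true,[2,0,0,0,0,-1]),
  (false,[0,0,0,0,1,0,0,0,0,-2]),
  (false,[0,0,0,0,0,-1,0,0,0,1]),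
  (true,[0,0,0,0,0,1]),
  (true,[0,2,-1]),
  (false,[1,0,0,0,-1,0,0,0,0,2]),
  (true,[0,1,-1,1]),
  (true,[0,1,0,1]),
  (true,[0,0,0,-1]),
  (true,[0,0,-2,0,1]),
  (true,[0,-2,0,0,1]),
  (true,[-1,0,1]),
  (true,[-1,1])]

noncomputable def l0 : List Con := (true, [0,1,0,0,-1,0,0,1]) :: base

noncomputable def r0 : List Con := (true, [1,-1,0,0,1,0,0,-1]) :: base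

noncomputable def l1 : List Con := (true, [0,1,-1,-2,-1]) :: r0

noncomputable def r1 : List Con := (true, [1,-1,1,2,1]) :: r0

noncomputable def l2 : List Con := (true, [1,0,0,0,0,0,0,-1]) :: r1

noncomputable def r2 : List Con := (true, [0,0,0,0,0,0,0,1]) :: r1

noncomputable def t0 : Tre :=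
  (.Q [0,-1,0,-1,0,0,1,1,0,0,1] (.p true [0,0,1] [] (⟨0,[(14,0)]⟩,⟨0,[(13,0)]⟩) .k 0 (⟨0,[]⟩,⟨0,
  []⟩) .k .k) (.R ⟨2,true,false,false,[0,1],[0,0,1],[0,0,1],(⟨0,[]⟩,⟨0,[]⟩),(⟨0,[(15,0)]⟩,⟨0,[(14,
  0)]⟩),⟨0,[]⟩,.k,.k,.k,.k,.k,.k,⟨false,1,⟨1,[(11,1),(0,1),(12,0),(0,0)]⟩,⟨1,[(1,1),(23,0),(0,0)]⟩⟩,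
  ⟨true,0,⟨0,[(12,0)]⟩,⟨0,[(1,0),(9,0),(14,0)]⟩⟩,⟨true,0,⟨0,[(24,0)]⟩,⟨0,[(23,0)]⟩⟩,⟨false,0,⟨0,[(0,
  0)]⟩,⟨0,[(11,0),(11,0),(2,0)]⟩⟩,⟨false,1,⟨1,[(5,0),(0,0),(19,0)]⟩,⟨0,[]⟩⟩,⟨true,0,⟨0,[(0,0),(22,
  0)]⟩,⟨0,[(11,0)]⟩⟩,[]⟩) (.Q [0,-1,1,1,0,0,-1,0,0,0,-1] (.p false [0,0,1] [] (⟨0,[(15,0)]⟩,⟨0,[(14,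
  0)]⟩) .k 0 (⟨0,[]⟩,⟨0,[]⟩) .k .k) (.Q [0,0,1,0,-1,0,-1,0,0,1,-1] (.p false [0,0,1] [1] (⟨0,[(16,
  0)]⟩,⟨0,[(15,0)]⟩) .k 1 (⟨0,[]⟩,⟨0,[]⟩) .k .k) (.R ⟨0,false,false,false,[1,0,-1],[0,1],[0,1],(⟨0,
  [(16,0)]⟩,⟨0,[(17,0)]⟩),(⟨0,[(21,0)]⟩,⟨0,[(20,0)]⟩),⟨0,[(5,0)]⟩,.k,.k,.k,.k,.k,.k,⟨true,0,⟨0,[(24,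
  0),(1,1)]⟩,⟨0,[(1,0),(12,0)]⟩⟩,⟨false,2,⟨1,[(14,1),(4,0),(7,2)]⟩,⟨0,[(0,0)]⟩⟩,⟨true,(-1),⟨0,[(3,
  0)]⟩,⟨1,[(13,1),(0,1),(12,0),(0,0)]⟩⟩,⟨false,1,⟨1,[(3,1),(10,1),(4,0),(4,1),(3,2)]⟩,⟨1,[(13,1),(9,
  0),(2,1),(1,0)]⟩⟩,⟨false,0,⟨0,[]⟩,⟨0,[]⟩⟩,⟨false,0,⟨0,[]⟩,⟨0,[]⟩⟩,[.o ⟨false,1,⟨1,[(19,0),(5,1),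
  (2,0)]⟩,⟨0,[(26,0)]⟩⟩,.e ⟨false,1,⟨1,[(7,0),(0,0),(18,0)]⟩,⟨0,[]⟩⟩ ⟨false,2,⟨1,[(14,1),(4,0),(4,
  1),(2,0),(0,1)]⟩,⟨3,[(0,0),(2,1),(7,0),(1,1),(9,0),(2,3)]⟩⟩,.o ⟨false,0,⟨1,[(0,0),(10,0),(7,0)]⟩,
  ⟨1,[(14,1),(4,0),(7,0)]⟩⟩,.a ⟨true,(-1),⟨0,[(0,0)]⟩,⟨0,[(14,0),(12,0)]⟩⟩ ⟨true,0,⟨0,[(24,0),(1,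
  0)]⟩,⟨1,[(14,0),(0,0)]⟩⟩ ⟨false,2,⟨1,[(14,1),(4,0),(4,1),(2,0),(0,1)]⟩,⟨0,[(0,0),(25,0)]⟩⟩]⟩) (.R
  ⟨0,false,false,true,[1,0,-1],[0,1],[0,0,1],(⟨0,[(16,0)]⟩,⟨0,[(17,0)]⟩),(⟨0,[(21,0)]⟩,⟨0,[(20,
  0)]⟩),⟨0,[(5,0)]⟩,.k,.k,.k,.k,.k,.k,⟨false,1,⟨1,[(26,1),(0,0),(0,0)]⟩,⟨0,[(25,0)]⟩⟩,⟨true,1,⟨0,
  [(0,0)]⟩,⟨3,[(1,3),(1,1),(9,1),(0,2),(0,0),(7,1),(2,3)]⟩⟩,⟨false,0,⟨1,[(3,1),(10,0),(0,0),(12,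
  1)]⟩,⟨1,[(0,1),(12,1),(9,0),(4,0)]⟩⟩,⟨true,0,⟨1,[(0,1),(0,0),(1,1),(10,0),(10,0)]⟩,⟨1,[(13,1),(9,
  0),(2,1),(1,0)]⟩⟩,⟨false,0,⟨0,[]⟩,⟨0,[]⟩⟩,⟨false,0,⟨0,[]⟩,⟨0,[]⟩⟩,[.a ⟨true,0,⟨0,[(25,0)]⟩,⟨1,
  [(23,0),(2,1),(1,0)]⟩⟩ ⟨true,0,⟨1,[(14,0),(0,0)]⟩,⟨0,[]⟩⟩ ⟨false,1,⟨0,[(0,0),(24,0)]⟩,⟨3,[(1,1),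
  (9,1),(11,0),(2,5),(1,0)]⟩⟩,.o ⟨false,1,⟨1,[(19,0),(5,1),(2,0)]⟩,⟨0,[(26,0)]⟩⟩,.o ⟨false,0,⟨4,[(1,
  1),(1,0),(7,1),(1,0),(5,0),(6,1)]⟩,⟨3,[(0,1),(6,0),(0,0),(5,1),(4,0)]⟩⟩,.o ⟨false,0,⟨0,[(15,0)]⟩,
  ⟨0,[(0,0)]⟩⟩]⟩)) (.Q [0,0,1,0,-1,0,-1,0,0,1,-1] (.p false [0,0,1] [1] (⟨0,[(16,0)]⟩,⟨0,[(15,0)]⟩)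
  .k 1 (⟨0,[]⟩,⟨0,[]⟩) .k .k) (.R ⟨0,false,false,false,[1,0,-1],[1,-1],[1,0,1],(⟨0,[(16,0)]⟩,⟨0,
  [(17,0)]⟩),(⟨0,[(20,0)]⟩,⟨0,[(21,0)]⟩),⟨0,[(5,0)]⟩,.k,.k,.k,.k,.k,.k,⟨false,0,⟨1,[(0,1),(13,1),(4,
  0),(4,1),(3,0)]⟩,⟨0,[(26,0),(0,0)]⟩⟩,⟨true,0,⟨0,[(14,0)]⟩,⟨1,[(0,0),(10,0),(7,0)]⟩⟩,⟨false,0,⟨1,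
  [(3,1),(10,0),(0,0),(12,1)]⟩,⟨0,[(1,0),(0,0),(25,0)]⟩⟩,⟨true,0,⟨2,[(1,0),(1,1),(8,0),(1,0),(11,1),
  (1,1)]⟩,⟨0,[(2,0)]⟩⟩,⟨false,0,⟨0,[]⟩,⟨0,[]⟩⟩,⟨false,0,⟨0,[]⟩,⟨0,[]⟩⟩,[.o ⟨false,0,⟨0,[(26,0)]⟩,⟨1,
  [(19,0),(5,1),(2,0)]⟩⟩,.e ⟨false,1,⟨1,[(7,0),(0,0),(19,0)]⟩,⟨3,[(1,0),(1,0),(9,0),(10,0),(2,0)]⟩⟩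
  ⟨false,1,⟨0,[(1,0),(26,0)]⟩,⟨2,[(0,0),(3,0),(14,0),(4,0),(0,1)]⟩⟩,.o ⟨false,0,⟨1,[(0,0),(10,0),(7,
  0)]⟩,⟨1,[(14,1),(4,0),(7,0)]⟩⟩,.a ⟨true,(-1),⟨0,[(0,0)]⟩,⟨0,[(14,0),(12,0)]⟩⟩ ⟨true,0,⟨0,[]⟩,⟨0,
  [(30,0)]⟩⟩ ⟨false,1,⟨0,[(1,0),(26,0)]⟩,⟨1,[(0,1),(18,0),(5,1),(2,0)]⟩⟩]⟩) (.Q [0,0,2,0,-1,0,-1,0,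
  0,1,-1] (.p false [0,0,1] [1] (⟨0,[(17,0)]⟩,⟨0,[(16,0)]⟩) .k 1 (⟨0,[]⟩,⟨0,[]⟩) .k .k) (.R ⟨0,
  false,false,true,[1,0,-1],[0,1],[0,0,1],(⟨0,[(17,0)]⟩,⟨0,[(18,0)]⟩),(⟨0,[(22,0)]⟩,⟨0,[(21,0)]⟩),
  ⟨0,[(6,0)]⟩,.k,.k,.k,.k,.k,.k,⟨false,1,⟨1,[(27,1),(0,0),(0,0)]⟩,⟨0,[(26,0)]⟩⟩,⟨true,1,⟨0,[(1,0)]⟩,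
  ⟨0,[(0,0)]⟩⟩,⟨false,0,⟨4,[(0,1),(3,3),(8,0),(1,0),(4,0),(8,4)]⟩,⟨1,[(1,1),(12,1),(9,0),(4,0)]⟩⟩,
  ⟨true,0,⟨1,[(4,1),(10,1),(4,0),(4,1),(3,0)]⟩,⟨1,[(14,1),(9,0),(2,1),(1,0)]⟩⟩,⟨false,0,⟨0,[]⟩,⟨0,
  []⟩⟩,⟨false,0,⟨0,[]⟩,⟨0,[]⟩⟩,[.a ⟨true,0,⟨0,[(26,0)]⟩,⟨1,[(24,0),(2,1),(1,0)]⟩⟩ ⟨true,0,⟨1,[(15,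
  0),(0,0)]⟩,⟨0,[]⟩⟩ ⟨false,1,⟨0,[(1,0),(24,0)]⟩,⟨1,[(4,1),(9,1),(9,0),(2,1),(1,2)]⟩⟩,.o ⟨false,1,
  ⟨1,[(20,0),(5,1),(2,0)]⟩,⟨0,[(27,0)]⟩⟩,.o ⟨false,0,⟨0,[(4,0),(9,0),(14,0)]⟩,⟨3,[(1,1),(6,0),(0,0),
  (5,1),(4,0)]⟩⟩,.o ⟨false,0,⟨0,[(16,0)]⟩,⟨0,[(1,0)]⟩⟩]⟩) (.R ⟨0,false,false,true,[-1,1,1],[1,0,-1],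
  [1],(⟨0,[(6,0)]⟩,⟨0,[(17,0),(3,0)]⟩),(⟨0,[(17,0)]⟩,⟨0,[(18,0)]⟩),⟨0,[(17,0)]⟩,.k,.k,.k,(.r 1 ⟨0,
  [(3,0),(0,2),(10,0),(13,1)]⟩ ⟨1,[(2,1),(11,3),(0,1),(12,0),(0,2)]⟩),.k,.k,⟨true,0,⟨0,[(4,0),(24,
  0)]⟩,⟨0,[(14,0),(0,0)]⟩⟩,⟨false,(-1),⟨0,[(4,1),(9,1),(9,0),(4,1)]⟩,⟨3,[(1,5),(6,0),(0,0),(5,1),(4,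
  0)]⟩⟩,⟨true,1,⟨0,[(2,0),(11,0),(14,0)]⟩,⟨0,[(3,0),(0,1),(10,0),(13,0)]⟩⟩,⟨false,0,⟨0,[(14,1),(9,
  0),(2,0),(1,0)]⟩,⟨1,[(0,1),(2,1),(0,5),(10,3),(4,0),(8,4)]⟩⟩,⟨false,0,⟨0,[]⟩,⟨0,[]⟩⟩,⟨false,0,⟨0,
  []⟩,⟨0,[]⟩⟩,[.o ⟨false,0,⟨0,[(14,0)]⟩,⟨2,[(1,0),(2,1),(8,0),(1,0),(4,0),(8,2)]⟩⟩,.e ⟨false,1,⟨1,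
  [(28,0),(0,0)]⟩,⟨0,[(31,0)]⟩⟩ ⟨false,0,⟨19,[(5,9),(2,3),(0,3),(4,19),(9,14),(4,10),(1,1)]⟩,⟨1,[(0,
  1),(3,1),(10,1),(4,0),(8,0)]⟩⟩,.e ⟨true,0,⟨0,[]⟩,⟨0,[(31,0)]⟩⟩ ⟨true,(-1),⟨3,[(4,0),(9,4),(1,2),
  (7,3),(4,0),(0,0)]⟩,⟨1,[(0,1),(3,1),(10,1),(4,0),(8,0)]⟩⟩,.a ⟨true,1,⟨3,[(1,1),(6,0),(0,0),(5,1),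
  (4,0)]⟩,⟨0,[(4,0),(9,0),(9,0),(4,0)]⟩⟩ ⟨false,1,⟨1,[(28,0),(0,0)]⟩,⟨1,[(15,0),(0,0)]⟩⟩ ⟨true,(-1),
  ⟨0,[(4,0),(9,1),(9,0),(4,0)]⟩,⟨1,[(1,1),(2,1),(10,1),(4,0),(8,0)]⟩⟩]⟩)))))

theorem ok0 : chk K t0 l0 = true := by decide +kernel

noncomputable def t1 : Tre :=
  (.R ⟨2,true,false,true,[0,1],[1,-1],[0,1,0,-1],(⟨0,[]⟩,⟨0,[]⟩),(⟨0,[(18,0)]⟩,⟨0,[(19,0)]⟩),⟨0,[]⟩,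
  .k,.k,.k,(.r (-1) ⟨0,[(12,0),(0,0),(9,1),(2,0)]⟩ ⟨1,[(0,1),(24,0),(0,0)]⟩),.k,.k,⟨true,0,⟨1,[(12,
  0),(0,0)]⟩,⟨0,[]⟩⟩,⟨false,0,⟨8,[(1,1),(0,4),(7,1),(1,7),(8,1),(5,0)]⟩,⟨3,[(0,1),(16,1),(4,3),(2,
  0),(0,2)]⟩⟩,⟨true,(-1),⟨0,[(0,0)]⟩,⟨1,[(12,0),(0,0),(9,3),(2,1)]⟩⟩,⟨false,(-1),⟨1,[(0,1),(11,0),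
  (0,0),(7,0),(4,0)]⟩,⟨1,[(17,0),(5,3),(2,2)]⟩⟩,⟨false,0,⟨3,[(0,1),(24,0),(0,0)]⟩,⟨1,[(12,0),(0,0),
  (9,1),(2,1)]⟩⟩,⟨true,(-1),⟨3,[(0,1),(11,0),(0,0),(7,1),(6,1)]⟩,⟨1,[(17,0),(5,1),(2,0)]⟩⟩,[]⟩)

theorem ok1 : chk K t1 l1 = true := by decide +kernel

noncomputable def t2 : Tre :=
  (.I [0,1,0,0,0,0,0,1] (.Q [0,0,-1,0,1,0,1,0,0,-1,1] (.p true [0,0,1] [1] (⟨0,[(17,0)]⟩,⟨0,[(16,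
  0)]⟩) .k 1 (⟨0,[]⟩,⟨0,[]⟩) .k .k) (.I [0,0,0,0,0,0,0,-1] (.Q [0,0,0,0,0,0,1,0,0,0,1] (.p true [0,
  0,1] [] (⟨0,[(19,0)]⟩,⟨0,[(18,0)]⟩) .k 0 (⟨0,[]⟩,⟨0,[]⟩) .k .k) (.I [1,-1,-1,0,1,0,0,1] (.I [1,1,
  -1,0,0,0,0,1] (.Q [0,0,0,0,1,0,2,2,0,-1,2] (.p true [0,0,1] [1,0,-1] (⟨0,[(22,0)]⟩,⟨0,[(21,0)]⟩)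
  .k 2 (⟨0,[(21,0)]⟩,⟨0,[(22,0)]⟩) .k (.r (-1) ⟨0,[(5,1),(27,0)]⟩ ⟨0,[(3,1)]⟩)) (.I [0,0,-1,-1,0,0,
  0,1] (.S ⟨1,0,[0,0,0,-1,0,0,0,1],[0,0,1],[1,1],(⟨0,[(24,0)]⟩,⟨0,[(23,0)]⟩),⟨0,[(13,0)]⟩,.k,.k,
  ⟨false,0,⟨0,[(8,0)]⟩,⟨1,[(1,0),(9,0),(23,0)]⟩⟩,⟨true,0,⟨0,[(33,0)]⟩,⟨0,[(32,0)]⟩⟩,⟨true,0,⟨0,[(5,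
  0),(26,0)]⟩,⟨1,[(0,1),(20,0),(0,0)]⟩⟩,⟨false,1,⟨3,[(1,0),(8,1),(0,0),(23,0)]⟩,⟨0,[]⟩⟩,[.e ⟨false,
  0,⟨2,[(0,0),(4,0),(23,0),(1,0)]⟩,⟨3,[(1,0),(8,1),(0,0),(23,0)]⟩⟩ ⟨false,0,⟨0,[(0,0)]⟩,⟨0,[(10,0),
  (21,0)]⟩⟩,.o ⟨false,1,⟨1,[(0,1),(20,1),(4,0),(8,0)]⟩,⟨0,[(5,0),(16,0),(8,0)]⟩⟩,.a ⟨true,0,⟨0,[(4,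
  0)]⟩,⟨3,[(7,0),(2,0),(0,1),(18,0)]⟩⟩ ⟨false,0,⟨0,[]⟩,⟨3,[(1,0),(8,1),(0,0),(23,0)]⟩⟩ ⟨true,0,⟨1,
  [(0,1),(20,0),(0,0)]⟩,⟨0,[(5,0),(26,0)]⟩⟩,.e ⟨true,0,⟨2,[(0,0),(4,0),(23,0),(1,0)]⟩,⟨1,[(21,0),(0,
  0)]⟩⟩ ⟨true,0,⟨0,[(0,0)]⟩,⟨1,[(5,1),(15,0),(0,0),(9,1)]⟩⟩]⟩) (.Q [0,0,0,-1,-1,0,-2,-2,0,2,-2] (.p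
  false [0,0,1] [2,-1,-1] (⟨0,[(24,0)]⟩,⟨0,[(23,0)]⟩) .k 2 (⟨0,[(23,0),(3,0)]⟩,⟨0,[(12,0)]⟩) .k (.r
  (-1) ⟨0,[(1,0),(9,0)]⟩ ⟨0,[(5,1)]⟩)) (.Q [0,0,-1,0,1,0,2,0,0,-2,2] (.p true [0,0,1] [2,-1,-1] (⟨0,
  [(25,0)]⟩,⟨0,[(24,0)]⟩) .k 2 (⟨0,[(24,0),(3,0)]⟩,⟨0,[(13,0)]⟩) .k (.r (-1) ⟨0,[(2,0),(9,0)]⟩ ⟨0,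
  [(6,1)]⟩)) (.I [1,0,0,1,0,0,0,-1] (.I [0,0,-2,-2,0,0,0,1] (.S ⟨1,0,[0,0,-1,-2,0,0,0,1],[0,-1,1],
  [1,1],(⟨0,[(17,0)]⟩,⟨0,[(27,0),(4,0)]⟩),⟨11,[(0,1),(0,1),(14,1),(0,9),(11,15),(4,0),(0,1),(3,0),
  (0,5)]⟩,.k,(.r 0 ⟨0,[(0,0)]⟩ ⟨0,[(13,0),(10,0),(0,0)]⟩),⟨false,0,⟨0,[(4,0)]⟩,⟨7,[(0,3),(4,2),(8,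
  1),(0,2),(23,2)]⟩⟩,⟨true,0,⟨0,[(37,0)]⟩,⟨0,[(36,0)]⟩⟩,⟨true,0,⟨0,[(4,0),(31,0)]⟩,⟨1,[(0,1),(24,0),
  (0,0)]⟩⟩,⟨false,1,⟨3,[(5,0),(8,1),(0,0),(23,0)]⟩,⟨0,[]⟩⟩,[.e ⟨false,0,⟨14,[(0,1),(1,0),(0,0),(29,
  4),(1,4)]⟩,⟨3,[(5,0),(8,1),(0,0),(23,0)]⟩⟩ ⟨false,0,⟨0,[(0,0)]⟩,⟨2,[(4,1),(8,1),(0,0),(18,0),(7,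
  0)]⟩⟩,.o ⟨false,1,⟨1,[(0,1),(24,2),(0,0),(3,0),(8,0)]⟩,⟨0,[(1,0),(24,0),(8,0)]⟩⟩,.a ⟨true,0,⟨0,
  [(25,0)]⟩,⟨0,[(22,0)]⟩⟩ ⟨false,0,⟨0,[]⟩,⟨3,[(5,0),(8,1),(0,0),(23,0)]⟩⟩ ⟨true,0,⟨1,[(0,1),(24,0),
  (0,0)]⟩,⟨0,[(4,0),(31,0)]⟩⟩,.e ⟨true,0,⟨14,[(0,1),(1,0),(0,0),(29,4),(1,4)]⟩,⟨1,[(25,0),(0,0)]⟩⟩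
  ⟨true,0,⟨0,[(0,0)]⟩,⟨0,[(4,1),(6,0)]⟩⟩]⟩) (.I [0,0,2,2,0,0,0,1] (.K ⟨0,[2,-1,-1],(-1),(-1),(⟨0,
  [(28,0),(3,0)]⟩,⟨0,[(17,0)]⟩),.k,(.r (-1) ⟨7,[(3,2),(0,2),(10,1),(18,0),(3,12),(0,5)]⟩ ⟨0,[(0,
  0)]⟩),.k,(.r 0 ⟨0,[(3,0),(0,0)]⟩ ⟨3,[(0,1),(5,2),(5,0),(2,0),(0,2)]⟩),.k,[⟨0,[(3,0)]⟩,⟨3,[(26,0),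
  (0,4),(7,3),(5,1)]⟩,⟨3,[(0,1),(2,1),(3,0),(4,0),(18,1),(2,0)]⟩,⟨0,[(4,0),(19,0)]⟩]⟩) (.I [1,1,0,1,
  0,0,0,1] (.R ⟨0,false,false,false,[1,0,-1],[2,-1,-1],[0,0,0,-1,0,0,0,-1],(⟨0,[(29,0)]⟩,⟨0,[(30,
  0)]⟩),(⟨0,[(29,0),(3,0)]⟩,⟨0,[(18,0)]⟩),⟨0,[(18,0)]⟩,.k,.k,.k,.k,.k,.k,⟨true,0,⟨1,[(27,0),(0,0)]⟩,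
  ⟨0,[]⟩⟩,⟨false,0,⟨1,[(13,0),(2,0),(19,0)]⟩,⟨1,[(32,0),(7,0)]⟩⟩,⟨true,0,⟨0,[(39,0)]⟩,⟨0,[(38,0)]⟩⟩,
  ⟨false,0,⟨1,[(36,0),(2,1),(1,0)]⟩,⟨5,[(15,1),(16,2),(5,1),(1,0)]⟩⟩,⟨false,0,⟨0,[]⟩,⟨0,[]⟩⟩,⟨false,
  0,⟨0,[]⟩,⟨0,[]⟩⟩,[.e ⟨false,0,⟨2,[(1,0),(2,0),(0,0)]⟩,⟨3,[(7,0),(5,1),(1,1),(1,0),(22,0)]⟩⟩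
  ⟨false,0,⟨25,[(1,11),(3,1),(10,12),(8,2),(1,0),(7,2),(0,10),(6,3)]⟩,⟨1,[(0,1),(31,0),(8,0)]⟩⟩,.o
  ⟨false,0,⟨1,[(5,0),(33,0),(1,0)]⟩,⟨2,[(0,2),(3,0),(22,0),(4,1)]⟩⟩,.a ⟨true,0,⟨3,[(13,0),(2,0),(0,
  1),(18,0)]⟩,⟨0,[(10,0)]⟩⟩ ⟨true,0,⟨2,[(1,0),(3,0),(21,1),(4,0)]⟩,⟨0,[(0,0)]⟩⟩ ⟨false,0,⟨5,[(1,1),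
  (3,1),(21,3),(8,0),(4,2)]⟩,⟨1,[(0,1),(31,0),(8,0)]⟩⟩,.o ⟨false,0,⟨0,[(28,0)]⟩,⟨0,[(12,0)]⟩⟩]⟩)
  (.Q [0,1,0,1,1,0,1,1,0,-2,1] (.p true [-1,1,1] [1] (⟨0,[(18,0)]⟩,⟨0,[(29,0),(3,0)]⟩) .k 1 (⟨0,[]⟩,
  ⟨0,[]⟩) .k .k) (.K ⟨0,[2,-1,-1],(-1),(-1),(⟨0,[(30,0),(3,0)]⟩,⟨0,[(19,0)]⟩),.k,(.r 0 ⟨0,[(1,2),(7,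
  1),(28,0),(4,0)]⟩ ⟨1,[(14,1),(1,1),(11,0),(0,0)]⟩),.k,(.r 0 ⟨0,[(5,0),(0,0)]⟩ ⟨3,[(8,1),(0,0),(0,
  0),(3,1),(1,1),(12,3),(7,0)]⟩),.k,[⟨0,[(5,0)]⟩,⟨3,[(28,0),(0,4),(7,3),(5,1)]⟩,⟨0,[(0,0)]⟩,⟨0,[(6,
  0),(19,0)]⟩]⟩) (.I [1,1,1,1,0,0,0,1] (.R ⟨0,false,false,true,[1,0,-1],[-1,1,1],[0,1],(⟨0,[(31,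
  0)]⟩,⟨0,[(32,0)]⟩),(⟨0,[(20,0)]⟩,⟨0,[(31,0),(3,0)]⟩),⟨0,[(20,0)]⟩,.k,.k,.k,(.r 0 ⟨0,[(6,0),(0,
  0)]⟩ ⟨1,[(0,1),(8,0),(9,0),(23,0)]⟩),.k,.k,⟨false,0,⟨4,[(1,3),(1,1),(2,1),(3,0),(23,1),(4,2)]⟩,⟨3,
  [(0,3),(8,0),(8,1),(0,0),(23,0)]⟩⟩,⟨true,1,⟨0,[(6,0)]⟩,⟨0,[(0,0),(0,0),(28,0)]⟩⟩,⟨true,0,⟨0,[(15,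
  0)]⟩,⟨0,[(16,0)]⟩⟩,⟨false,2,⟨11,[(0,3),(5,1),(2,9),(7,3),(16,4),(7,2)]⟩,⟨3,[(1,4),(3,0),(1,0),(22,
  0),(3,1),(4,0)]⟩⟩,⟨false,0,⟨0,[]⟩,⟨0,[]⟩⟩,⟨false,0,⟨0,[]⟩,⟨0,[]⟩⟩,[.a ⟨true,1,⟨5,[(0,1),(5,0),(2,
  1),(7,1),(16,0),(2,2)]⟩,⟨0,[(1,0)]⟩⟩ ⟨false,0,⟨6,[(3,0),(6,0),(26,1),(1,1)]⟩,⟨3,[(9,0),(8,1),(0,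
  0),(23,0)]⟩⟩ ⟨true,1,⟨0,[(0,0),(5,0)]⟩,⟨0,[(1,0),(28,0)]⟩⟩,.e ⟨false,1,⟨4,[(9,0),(8,1),(0,0),(17,
  0),(4,1)]⟩,⟨0,[]⟩⟩ ⟨false,2,⟨5,[(0,1),(5,3),(2,1),(7,1),(16,0),(7,2)]⟩,⟨1,[(1,0),(5,0),(2,0),(19,
  0)]⟩⟩,.e ⟨true,0,⟨0,[(45,0)]⟩,⟨0,[]⟩⟩ ⟨true,1,⟨0,[(0,0),(5,0)]⟩,⟨1,[(1,0),(5,0),(2,0),(19,0)]⟩⟩,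
  .o ⟨false,0,⟨0,[(30,0)]⟩,⟨0,[(14,0)]⟩⟩]⟩) (.Q [0,1,0,-1,0,0,1,1,0,-1,1] (.p true [0,0,1] [1] (⟨0,
  [(32,0)]⟩,⟨0,[(31,0)]⟩) .k 1 (⟨0,[]⟩,⟨0,[]⟩) .k .k) (.R ⟨1,false,false,false,[1,-1],[2,-1,-1],[1,
  0,-1,-1,0,0,0,-1],(⟨0,[(36,0)]⟩,⟨0,[(37,0)]⟩),(⟨0,[(32,0),(3,0)]⟩,⟨0,[(21,0)]⟩),⟨11,[(1,1),(14,1),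
  (17,13),(1,9),(2,0),(0,1),(3,0),(0,3)]⟩,.k,.k,(.r 0 ⟨5,[(0,2),(0,3),(0,0),(1,1),(6,2),(0,0),(7,
  0)]⟩ ⟨3,[(5,1),(10,3),(1,1),(0,1),(10,0),(0,0)]⟩),.k,.k,.k,⟨true,0,⟨0,[]⟩,⟨1,[(30,0),(0,0)]⟩⟩,
  ⟨false,0,⟨0,[(27,0)]⟩,⟨8,[(7,1),(2,2),(8,2),(9,2),(0,1),(4,0)]⟩⟩,⟨true,0,⟨0,[(17,0)]⟩,⟨0,[(16,
  0)]⟩⟩,⟨false,0,⟨4,[(2,0),(3,1),(1,0),(11,0),(23,1)]⟩,⟨13,[(10,8),(8,1),(0,0),(8,1),(5,2)]⟩⟩,⟨true,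
  0,⟨0,[(6,0)]⟩,⟨0,[(16,0),(25,0)]⟩⟩,⟨true,0,⟨1,[(8,0),(9,0),(21,0)]⟩,⟨0,[(0,0)]⟩⟩,[.e ⟨false,0,⟨1,
  [(1,0),(2,0),(35,0)]⟩,⟨3,[(10,0),(5,2),(1,1),(0,0),(0,0),(9,0),(0,0)]⟩⟩ ⟨false,0,⟨7,[(1,0),(2,2),
  (3,1),(18,3),(12,0),(2,1)]⟩,⟨15,[(5,4),(4,9),(5,1),(1,2),(10,0),(1,2),(3,2)]⟩⟩,.a ⟨true,(-1),⟨0,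
  [(2,0)]⟩,⟨11,[(5,0),(4,5),(5,0),(1,2),(16,2),(2,4),(2,3)]⟩⟩ ⟨true,0,⟨0,[(1,0)]⟩,⟨2,[(0,0),(4,1),
  (4,0),(0,0),(4,0),(14,2),(7,0)]⟩⟩ ⟨false,0,⟨0,[(1,0),(25,0)]⟩,⟨15,[(5,6),(4,13),(5,5),(1,0),(10,
  10),(1,0),(3,0)]⟩⟩,.o ⟨false,0,⟨1,[(30,0),(0,0)]⟩,⟨1,[(35,0),(7,0)]⟩⟩,.o ⟨false,0,⟨0,[(30,0),(0,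
  0)]⟩,⟨3,[(1,1),(9,0),(0,0),(22,1),(4,1),(2,0)]⟩⟩]⟩) (.I [0,0,-1,-2,0,0,0,1] (.S ⟨1,0,[0,0,-1,-2,0,
  0,0,1],[0,-1,1],[1,1],(⟨0,[(23,0)]⟩,⟨0,[(33,0),(4,0)]⟩),⟨10,[(0,0),(1,0),(19,1),(0,8),(11,14),(4,
  0),(0,2),(3,0),(0,4)]⟩,.k,(.x (-1) ⟨2,[(11,0),(8,0),(9,0),(0,3),(0,1),(0,2),(2,0),(1,5)]⟩ ⟨0,[(1,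
  0),(0,0),(9,1),(9,0),(12,2),(10,0)]⟩),⟨false,0,⟨0,[(10,0)]⟩,⟨7,[(0,3),(10,0),(1,3),(6,1),(0,0),
  (23,0)]⟩⟩,⟨true,0,⟨0,[(43,0)]⟩,⟨0,[(42,0)]⟩⟩,⟨true,0,⟨2,[(6,1),(0,0),(31,0),(2,0)]⟩,⟨0,[(0,0)]⟩⟩,
  ⟨false,1,⟨3,[(11,0),(8,1),(0,0),(23,0)]⟩,⟨0,[]⟩⟩,[.a ⟨true,0,⟨0,[(0,0),(30,0)]⟩,⟨0,[(1,0),(40,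
  0)]⟩⟩ ⟨false,0,⟨6,[(5,0),(6,0),(26,1),(1,1)]⟩,⟨3,[(11,0),(8,1),(0,0),(23,0)]⟩⟩ ⟨true,0,⟨0,[(0,
  0)]⟩,⟨0,[(6,0)]⟩⟩,.o ⟨false,1,⟨1,[(0,1),(30,1),(4,0),(8,0)]⟩,⟨0,[(7,0),(24,0),(8,0)]⟩⟩,.a ⟨true,0,
  ⟨0,[(31,0)]⟩,⟨0,[(28,0)]⟩⟩ ⟨false,0,⟨0,[]⟩,⟨3,[(11,0),(8,1),(0,0),(23,0)]⟩⟩ ⟨true,0,⟨0,[(0,0)]⟩,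
  ⟨2,[(6,1),(0,0),(31,0),(2,0)]⟩⟩,.a ⟨true,0,⟨1,[(31,2),(0,0)]⟩,⟨1,[(1,0),(0,0),(9,1),(15,0)]⟩⟩
  ⟨true,0,⟨6,[(5,0),(6,0),(26,1),(1,1)]⟩,⟨1,[(31,0),(0,0)]⟩⟩ ⟨false,1,⟨3,[(0,2),(4,0),(7,2),(6,0)]⟩,
  ⟨0,[(6,0)]⟩⟩]⟩) (.I [0,1,2,1,0,0,0,1] (.R ⟨0,false,false,true,[1,0,-1],[0,1],[1,0,0,0,0,0,0,-1],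
  (⟨0,[(34,0)]⟩,⟨0,[(35,0)]⟩),(⟨0,[(39,0)]⟩,⟨0,[(38,0)]⟩),⟨0,[(23,0)]⟩,.k,.k,.k,.k,.k,.k,⟨true,0,⟨0,
  [(3,0)]⟩,⟨0,[(0,0)]⟩⟩,⟨false,1,⟨7,[(3,1),(5,3),(3,0),(0,0),(27,1),(2,2)]⟩,⟨7,[(0,3),(3,1),(5,0),
  (1,0),(8,1),(0,2),(21,0)]⟩⟩,⟨true,0,⟨0,[]⟩,⟨0,[(48,0)]⟩⟩,⟨false,1,⟨3,[(1,1),(10,1),(0,0),(0,0),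
  (22,0)]⟩,⟨1,[(10,0),(33,0),(1,0)]⟩⟩,⟨false,0,⟨0,[]⟩,⟨0,[]⟩⟩,⟨false,0,⟨0,[]⟩,⟨0,[]⟩⟩,[.e ⟨false,0,
  ⟨3,[(3,0),(2,0),(1,1),(33,0)]⟩,⟨1,[(12,0),(5,0),(2,0),(0,0)]⟩⟩ ⟨false,1,⟨5,[(9,2),(10,1),(19,2),
  (2,1),(1,0)]⟩,⟨1,[(4,0),(9,0),(18,0),(10,0)]⟩⟩,.o ⟨false,1,⟨5,[(20,1),(16,2),(5,1),(1,0)]⟩,⟨0,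
  [(44,0)]⟩⟩,.a ⟨true,0,⟨3,[(18,0),(2,0),(0,1),(18,0)]⟩,⟨0,[(15,0)]⟩⟩ ⟨true,0,⟨0,[(19,0)]⟩,⟨0,[(18,
  0)]⟩⟩ ⟨false,1,⟨35,[(0,3),(6,0),(1,17),(10,14),(0,2),(18,6)]⟩,⟨1,[(4,0),(9,0),(18,0),(10,0)]⟩⟩,.o
  ⟨false,0,⟨0,[(33,0)]⟩,⟨0,[(17,0)]⟩⟩]⟩) (.Q [0,0,2,0,-1,0,-2,0,0,2,-2] (.p false [0,0,1] [2,-1,-1]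
  (⟨0,[(35,0)]⟩,⟨0,[(34,0)]⟩) .k 2 (⟨0,[(34,0),(3,0)]⟩,⟨0,[(23,0)]⟩) .k (.r (-1) ⟨0,[(12,0),(9,0)]⟩
  ⟨2,[(9,1),(0,1),(0,1)]⟩)) (.R ⟨0,false,false,true,[1,0,-1],[-1,1,1],[0,1],(⟨0,[(35,0)]⟩,⟨0,[(36,
  0)]⟩),(⟨0,[(24,0)]⟩,⟨0,[(35,0),(3,0)]⟩),⟨0,[(24,0)]⟩,.k,.k,.k,(.r 0 ⟨0,[(10,0),(0,0)]⟩ ⟨3,[(0,0),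
  (12,1),(0,0),(0,0),(3,1),(1,1),(12,1)]⟩),.k,.k,⟨false,0,⟨6,[(1,1),(5,3),(1,0),(33,1)]⟩,⟨7,[(0,0),
  (12,1),(5,6),(1,3),(0,2),(11,1)]⟩⟩,⟨true,1,⟨0,[(10,0)]⟩,⟨0,[(0,0)]⟩⟩,⟨true,0,⟨0,[(19,0)]⟩,⟨0,[(20,
  0)]⟩⟩,⟨false,2,⟨5,[(13,5),(7,1),(16,2),(5,1),(1,0)]⟩,⟨4,[(1,1),(0,0),(2,2),(5,1),(22,2)]⟩⟩,⟨false,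
  0,⟨0,[]⟩,⟨0,[]⟩⟩,⟨false,0,⟨0,[]⟩,⟨0,[]⟩⟩,[.e ⟨false,0,⟨6,[(7,0),(6,0),(26,1),(1,1)]⟩,⟨3,[(13,0),
  (8,1),(0,0),(23,0)]⟩⟩ ⟨false,2,⟨3,[(10,0),(2,1),(4,1),(2,1),(16,0),(2,2)]⟩,⟨0,[(0,0),(0,0)]⟩⟩,.e
  ⟨false,1,⟨4,[(13,0),(8,1),(0,0),(17,0),(4,1)]⟩,⟨0,[]⟩⟩ ⟨false,2,⟨11,[(10,5),(2,5),(7,3),(16,2),(5,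
  3),(1,4)]⟩,⟨6,[(0,3),(0,1),(5,0),(3,2),(2,1)]⟩⟩,.a ⟨true,0,⟨1,[(0,0),(45,0)]⟩,⟨0,[(16,0)]⟩⟩ ⟨true,
  0,⟨0,[(49,0)]⟩,⟨0,[]⟩⟩ ⟨false,2,⟨39,[(8,4),(1,11),(2,27),(7,14),(0,10),(15,13),(2,12)]⟩,⟨0,[(0,0),
  (0,0)]⟩⟩,.o ⟨false,0,⟨0,[(34,0)]⟩,⟨0,[(18,0)]⟩⟩]⟩) (.Q [0,1,0,0,-1,0,-2,-1,0,1,-2] (.p false [0,0,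
  1] [1,0,-1] (⟨0,[(36,0)]⟩,⟨0,[(35,0)]⟩) .k 2 (⟨0,[(35,0)]⟩,⟨0,[(36,0)]⟩) .k (.r (-1) ⟨0,[(13,0),
  (9,0)]⟩ ⟨2,[(10,1),(0,1),(0,1)]⟩)) (.R ⟨0,false,false,false,[1,0,-1],[0,0,1],[1,0,0,0,0,0,0,1],
  (⟨0,[(36,0)]⟩,⟨0,[(37,0)]⟩),(⟨0,[(37,0)]⟩,⟨0,[(36,0)]⟩),⟨0,[(25,0)]⟩,.k,.k,.k,.k,.k,.k,⟨true,0,⟨0,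
  []⟩,⟨1,[(34,0),(0,0)]⟩⟩,⟨false,1,⟨4,[(1,2),(12,0),(8,1),(10,1),(7,0),(0,0)]⟩,⟨0,[(24,0)]⟩⟩,⟨false,
  1,⟨0,[(2,1),(0,0),(10,1),(0,0),(19,3),(7,0)]⟩,⟨2,[(11,1),(0,1),(0,1)]⟩⟩,⟨true,1,⟨0,[(14,0)]⟩,⟨2,
  [(0,2),(7,0),(4,1)]⟩⟩,⟨false,0,⟨0,[]⟩,⟨0,[]⟩⟩,⟨false,0,⟨0,[]⟩,⟨0,[]⟩⟩,[.o ⟨false,1,⟨13,[(14,8),(8,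
  1),(0,0),(8,1),(5,2)]⟩,⟨6,[(0,0),(3,0),(5,0),(1,1),(26,2)]⟩⟩,.e ⟨false,1,⟨0,[(16,0)]⟩,⟨8,[(8,1),
  (4,3),(19,2),(0,2),(7,2)]⟩⟩ ⟨false,2,⟨9,[(1,1),(12,7),(8,5),(19,0),(3,2),(0,1)]⟩,⟨0,[(0,0)]⟩⟩,.a
  ⟨true,0,⟨3,[(20,0),(2,0),(0,1),(18,0)]⟩,⟨0,[(17,0)]⟩⟩ ⟨false,1,⟨1,[(14,0),(9,0),(23,0)]⟩,⟨0,[(18,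
  0)]⟩⟩ ⟨true,1,⟨29,[(11,6),(2,17),(8,5),(10,9),(7,2),(0,0)]⟩,⟨0,[(0,0)]⟩⟩,.o ⟨false,0,⟨0,[(35,0)]⟩,
  ⟨0,[(19,0)]⟩⟩]⟩) (.Q [0,-1,0,0,0,0,0,0,-1,1,0,-1] (.p false [0,0,0,0,1] [1] (⟨0,[(30,0)]⟩,⟨0,[(29,
  0)]⟩) .k 1 (⟨0,[]⟩,⟨0,[]⟩) .k .k) (.R ⟨2,false,false,true,[0,1],[1,0,0,0,-1],[1],(⟨0,[]⟩,⟨0,[]⟩),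
  (⟨0,[(30,0)]⟩,⟨0,[(31,0)]⟩),⟨0,[]⟩,.k,.k,.k,(.r 0 ⟨1,[(10,0),(10,0),(29,0)]⟩ ⟨4,[(9,0),(7,2),(6,
  1),(22,2)]⟩),.k,.k,⟨true,0,⟨0,[]⟩,⟨1,[(35,0),(0,0)]⟩⟩,⟨false,0,⟨0,[(0,0),(50,0)]⟩,⟨1,[(29,1),(10,
  0),(7,0)]⟩⟩,⟨true,0,⟨2,[(3,0),(12,0),(30,1)]⟩,⟨1,[(10,0),(10,0),(29,0)]⟩⟩,⟨false,0,⟨0,[(0,0),(46,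
  0)]⟩,⟨5,[(23,1),(5,5),(10,2),(5,1),(1,0)]⟩⟩,⟨false,1,⟨1,[(48,0),(0,0)]⟩,⟨1,[(35,0),(0,0)]⟩⟩,
  ⟨false,0,⟨0,[(0,0)]⟩,⟨6,[(15,1),(8,1),(0,0),(3,6),(4,1),(5,2)]⟩⟩,[.a ⟨true,0,⟨0,[(0,0),(50,0)]⟩,
  ⟨0,[(29,0)]⟩⟩ ⟨true,0,⟨0,[]⟩,⟨1,[(35,0),(0,0)]⟩⟩ ⟨false,0,⟨0,[(0,0),(50,0)]⟩,⟨1,[(29,1),(10,0),(7,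
  0)]⟩⟩,.e ⟨false,1,⟨1,[(48,0),(0,0)]⟩,⟨0,[(51,0)]⟩⟩ ⟨false,0,⟨0,[(0,0)]⟩,⟨9,[(15,0),(8,1),(0,0),(3,
  9),(10,4),(2,5),(4,1)]⟩⟩,.o ⟨false,1,⟨1,[(40,0),(7,0)]⟩,⟨1,[(35,0),(0,0)]⟩⟩,.fo]⟩) (.Q [0,1,0,-2,
  -1,0,0,0,0,1] (.pp false [-1,1]) (.R ⟨1,false,false,false,[2,-1,-1],[1,0,-1],[1,0,0,0,0,0,0,-1],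
  (⟨0,[(38,0),(3,0)]⟩,⟨0,[(27,0)]⟩),(⟨0,[(38,0)]⟩,⟨0,[(39,0)]⟩),⟨11,[(7,1),(14,1),(15,11),(1,13),(1,
  9),(2,0),(0,1),(3,0),(0,3)]⟩,.k,.k,(.r 0 ⟨0,[(4,3),(0,0),(11,3),(33,8)]⟩ ⟨1,[(22,1),(1,1),(11,0),
  (0,0)]⟩),.k,(.r 0 ⟨2,[(0,1),(3,1),(12,0),(0,0),(22,0)]⟩ ⟨3,[(11,1),(10,3),(1,1),(0,1),(10,0),(0,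
  0)]⟩),.k,⟨true,0,⟨0,[]⟩,⟨1,[(36,0),(0,0)]⟩⟩,⟨false,1,⟨5,[(4,1),(12,0),(0,0),(22,2),(4,1),(2,1)]⟩,
  ⟨0,[(0,0),(23,0)]⟩⟩,⟨false,1,⟨15,[(0,1),(15,1),(7,9),(0,3),(10,0),(0,4),(12,1)]⟩,⟨5,[(0,1),(3,1),
  (12,0),(0,0),(22,0)]⟩⟩,⟨false,1,⟨0,[(2,0),(1,0),(0,0),(11,0),(19,1)]⟩,⟨11,[(0,5),(15,1),(5,1),(2,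
  5),(0,1),(18,2),(4,0)]⟩⟩,⟨false,1,⟨0,[(24,0)]⟩,⟨4,[(0,3),(3,0),(2,0),(10,1),(22,1)]⟩⟩,⟨true,1,⟨1,
  [(5,1),(11,0),(0,0),(22,0)]⟩,⟨0,[(0,0)]⟩⟩,[.o ⟨false,0,⟨5,[(4,0),(0,0),(8,1),(22,1),(3,1),(4,0)]⟩,
  ⟨15,[(1,1),(14,8),(8,1),(0,0),(2,1),(11,2)]⟩⟩,.e ⟨false,1,⟨11,[(3,0),(0,1),(1,1),(18,7),(23,2)]⟩,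
  ⟨0,[(22,0)]⟩⟩ ⟨false,1,⟨3,[(3,0),(0,1),(1,1),(34,1),(7,0)]⟩,⟨0,[(0,0),(21,0),(1,0)]⟩⟩,.o ⟨false,0,
  ⟨2,[(0,1),(23,1),(1,0),(10,0)]⟩,⟨1,[(3,0),(37,0)]⟩⟩,.a ⟨true,(-1),⟨3,[(36,0),(0,4),(7,3),(5,1)]⟩,
  ⟨1,[(3,0),(45,0)]⟩⟩ ⟨true,0,⟨6,[(4,0),(5,1),(1,3),(33,0)]⟩,⟨1,[(22,1),(13,0),(0,0)]⟩⟩ ⟨false,1,⟨3,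
  [(3,0),(0,1),(1,1),(34,1),(7,0)]⟩,⟨7,[(0,3),(15,3),(7,3),(11,0),(0,8),(7,3),(5,1)]⟩⟩]⟩) (.Q [0,-1,
  0,-1,0,0,0,0,-1,1,0,-1] (.p false [0,0,0,0,1] [1] (⟨0,[(32,0)]⟩,⟨0,[(31,0)]⟩) .k 1 (⟨0,[]⟩,⟨0,
  []⟩) .k .k) (.R ⟨2,true,false,true,[0,1],[1,0,0,0,-1],[1],(⟨0,[]⟩,⟨0,[]⟩),(⟨0,[(32,0)]⟩,⟨0,[(33,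
  0)]⟩),⟨0,[]⟩,.k,.k,.k,(.r 0 ⟨1,[(12,0),(10,0),(29,0)]⟩ ⟨4,[(11,0),(7,2),(6,1),(22,2)]⟩),.k,.k,
  ⟨true,0,⟨0,[]⟩,⟨1,[(37,0),(0,0)]⟩⟩,⟨false,0,⟨0,[(0,0),(47,0)]⟩,⟨1,[(31,1),(10,0),(7,0)]⟩⟩,⟨true,0,
  ⟨2,[(5,0),(12,0),(30,1)]⟩,⟨1,[(12,0),(10,0),(29,0)]⟩⟩,⟨false,0,⟨0,[(0,0)]⟩,⟨9,[(1,0),(0,8),(16,1),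
  (5,3),(0,1),(4,0),(18,0)]⟩⟩,⟨false,1,⟨1,[(50,0),(0,0)]⟩,⟨1,[(37,0),(0,0)]⟩⟩,⟨true,0,⟨0,[(0,0),(47,
  0)]⟩,⟨0,[(2,0)]⟩⟩,[]⟩) (.Q [0,0,0,0,0,0,-1,0,-1,2,-1,-1] (.p false [-1,1,1] [1,0,0,0,-1] (⟨0,[(28,
  0)]⟩,⟨0,[(39,0),(3,0)]⟩) .k 2 (⟨0,[(32,0)]⟩,⟨0,[(33,0)]⟩) .k (.r 0 ⟨0,[(23,0)]⟩ ⟨0,[(1,1),(3,7),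
  (0,1),(11,8),(27,0),(5,22)]⟩)) (.Q [0,0,1,0,0,0,0,0,1,-1,0,1] (.p true [0,0,0,0,1] [1] (⟨0,[(34,
  0)]⟩,⟨0,[(33,0)]⟩) .k 1 (⟨0,[]⟩,⟨0,[]⟩) .k .k) (.Q [0,0,0,1,1,0,0,0,-1,0,0,-1] (.p false [0,0,0,0,
  1] [] (⟨0,[(35,0)]⟩,⟨0,[(34,0)]⟩) .k 0 (⟨0,[]⟩,⟨0,[]⟩) .k .k) (.Q [0,0,0,0,0,0,0,0,1,-1,0,1] (.p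
  true [0,0,0,0,1] [1] (⟨0,[(36,0)]⟩,⟨0,[(35,0)]⟩) .k 1 (⟨0,[]⟩,⟨0,[]⟩) .k .k) (.Q [0,-1,0,0,1,0,1,
  1,0,-1,1] (.p true [0,0,1] [1] (⟨0,[(44,0)]⟩,⟨0,[(43,0)]⟩) .k 1 (⟨0,[]⟩,⟨0,[]⟩) .k .k) (.Q [0,1,0,
  -1,-1,0,-1,-1,0,1,-1] (.p false [0,0,1] [1] (⟨0,[(45,0)]⟩,⟨0,[(44,0)]⟩) .k 1 (⟨0,[]⟩,⟨0,[]⟩) .k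
  .k) (.R ⟨1,false,false,false,[2,-1,-1],[1,-1],[1,0,-1,-1],(⟨0,[(45,0),(3,0)]⟩,⟨0,[(34,0)]⟩),(⟨0,
  [(49,0)]⟩,⟨0,[(50,0)]⟩),⟨12,[(7,0),(6,2),(14,2),(15,12),(1,13),(1,11),(2,0),(0,0),(4,3)]⟩,.k,.k,
  (.r 0 ⟨0,[(11,3),(0,0),(11,3),(33,8)]⟩ ⟨2,[(4,0),(0,0),(12,0),(4,0),(5,1),(1,1),(12,0)]⟩),.k,.k,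
  .k,⟨true,0,⟨0,[]⟩,⟨1,[(43,0),(0,0)]⟩⟩,⟨false,1,⟨0,[(28,0)]⟩,⟨2,[(5,0),(27,0),(3,0)]⟩⟩,⟨false,1,⟨1,
  [(23,0),(9,0),(23,0)]⟩,⟨0,[(27,0)]⟩⟩,⟨false,1,⟨0,[(1,0)]⟩,⟨14,[(5,0),(15,5),(9,2),(0,2),(0,0),(3,
  0),(13,2)]⟩⟩,⟨false,1,⟨11,[(7,3),(15,2),(1,5),(5,1),(1,0),(10,3),(7,2)]⟩,⟨4,[(0,1),(15,0),(0,0),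
  (14,0),(10,1),(4,0)]⟩⟩,⟨true,1,⟨3,[(3,0),(2,0),(0,0),(15,1)]⟩,⟨0,[(0,0)]⟩⟩,[.o ⟨false,0,⟨0,[(55,
  0)]⟩,⟨15,[(7,1),(23,5),(16,6),(2,3),(4,0)]⟩⟩,.e ⟨false,1,⟨3,[(17,1),(7,1),(30,0),(0,0)]⟩,⟨1,[(18,
  0),(10,0),(29,0)]⟩⟩ ⟨false,1,⟨9,[(1,3),(8,2),(0,1),(5,3),(7,1),(31,0)]⟩,⟨11,[(5,4),(12,5),(10,8),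
  (3,1),(3,4),(4,2)]⟩⟩,.o ⟨false,0,⟨0,[(4,0),(0,0)]⟩,⟨1,[(10,0),(37,0)]⟩⟩,.a ⟨true,(-1),⟨3,[(43,0),
  (0,4),(7,3),(5,1)]⟩,⟨1,[(10,0),(45,0)]⟩⟩ ⟨true,0,⟨2,[(11,1),(12,1),(30,0)]⟩,⟨1,[(18,0),(10,0),(13,
  0),(0,0),(14,0)]⟩⟩ ⟨false,1,⟨9,[(1,3),(8,2),(0,1),(5,3),(7,1),(31,0)]⟩,⟨7,[(4,3),(0,3),(12,1),(10,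
  1),(1,1),(11,0),(0,4),(7,1)]⟩⟩]⟩) (.I [0,0,-2,0,0,-2,-2,0,-1] (.Q [0,0,1,0,0,0,0,0,-1,1,0,-1] (.p
  false [0,0,0,0,1] [1] (⟨0,[(40,0)]⟩,⟨0,[(39,0)]⟩) .k 1 (⟨0,[]⟩,⟨0,[]⟩) .k .k) (.R ⟨2,true,false,
  true,[0,1],[1,0,0,0,-1],[1,1,1,1],(⟨0,[]⟩,⟨0,[]⟩),(⟨0,[(40,0)]⟩,⟨0,[(41,0)]⟩),⟨0,[]⟩,.k,.k,.k,(.r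
  0 ⟨1,[(20,0),(10,0),(29,0)]⟩ ⟨4,[(19,0),(7,2),(6,1),(22,2)]⟩),.k,.k,⟨false,0,⟨0,[(56,0)]⟩,⟨4,[(19,
  0),(7,2),(6,1),(22,2)]⟩⟩,⟨true,0,⟨0,[(0,0)]⟩,⟨0,[(4,0)]⟩⟩,⟨false,0,⟨0,[]⟩,⟨3,[(25,0),(8,1),(0,0),
  (23,0)]⟩⟩,⟨true,0,⟨2,[(0,2),(12,0),(12,0),(30,1)]⟩,⟨0,[(8,0)]⟩⟩,⟨true,0,⟨0,[(56,0)]⟩,⟨0,[(57,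
  0)]⟩⟩,⟨false,1,⟨9,[(0,0),(4,0),(1,5),(3,2),(4,0),(17,1),(3,1),(20,1)]⟩,⟨0,[(4,0)]⟩⟩,[]⟩) (.Q [0,0,
  0,0,0,-1,0,0,0,1,0,-1] (.ed true [0,1,0,0,1] .k) (.Q [0,0,0,0,0,0,0,0,0,-1,1,1] (.ed false [0,0,1,
  0,1] (.r 0 ⟨0,[(32,0)]⟩ ⟨0,[(3,1),(10,9),(0,3),(11,10),(19,1),(7,0),(5,24)]⟩)) (.R ⟨1,false,false,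
  true,[2,0,-1,0,-1],[1,0,0,0,-1],[1],(⟨0,[(42,0),(6,0)]⟩,⟨0,[(0,0)]⟩),(⟨0,[(42,0)]⟩,⟨0,[(43,0)]⟩),
  ⟨0,[(1,0),(47,0)]⟩,.k,.k,(.r 0 ⟨0,[(18,0)]⟩ ⟨11,[(8,0),(0,0),(12,3),(4,0),(5,22),(1,1),(0,8),(11,
  0)]⟩),.k,.k,.k,⟨true,0,⟨0,[]⟩,⟨1,[(47,0),(0,0)]⟩⟩,⟨false,1,⟨0,[(32,0)]⟩,⟨2,[(9,0),(27,0),(3,0)]⟩⟩,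
  ⟨true,0,⟨0,[(33,0)]⟩,⟨0,[(31,0)]⟩⟩,⟨false,1,⟨15,[(12,1),(14,8),(8,1),(0,0),(2,1),(11,2)]⟩,⟨2,[(17,
  0),(7,0),(35,0)]⟩⟩,⟨false,1,⟨3,[(27,0),(5,1),(1,1),(1,0),(22,0)]⟩,⟨0,[(20,0)]⟩⟩,⟨false,1,⟨3,[(7,
  0),(2,0),(0,0),(15,1)]⟩,⟨1,[(25,0),(33,0),(1,0)]⟩⟩,[.o ⟨false,1,⟨0,[(40,0)]⟩,⟨0,[(6,0)]⟩⟩,.e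
  ⟨false,1,⟨1,[(60,0),(0,0)]⟩,⟨0,[(63,0)]⟩⟩ ⟨false,1,⟨1,[(14,0),(46,0)]⟩,⟨1,[(9,0),(23,0),(7,0),(4,
  0)]⟩⟩,.a ⟨true,0,⟨0,[(9,0)]⟩,⟨0,[(6,0),(23,0)]⟩⟩ ⟨true,0,⟨0,[]⟩,⟨0,[(63,0)]⟩⟩ ⟨false,1,⟨27,[(13,
  9),(6,3),(1,1),(1,3),(11,3),(15,4),(8,4)]⟩,⟨2,[(9,0),(27,0),(3,0)]⟩⟩,.e ⟨false,1,⟨1,[(60,0),(0,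
  0)]⟩,⟨1,[(47,0),(0,0)]⟩⟩ ⟨false,1,⟨1,[(14,0),(46,0)]⟩,⟨0,[(8,0),(0,0)]⟩⟩]⟩) (.Q [0,-1,0,0,1,0,0,0,
  -1,0,0,-1] (.p false [0,0,0,0,1] [] (⟨0,[(43,0)]⟩,⟨0,[(42,0)]⟩) .k 0 (⟨0,[]⟩,⟨0,[]⟩) .k .k) (.R
  ⟨0,false,false,true,[1,0,-1],[1,0,-1,0,-1],[1,0,0,0,0,0,0,-1],(⟨0,[(50,0)]⟩,⟨0,[(51,0)]⟩),(⟨0,[(1,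
  0)]⟩,⟨0,[(44,0),(6,0)]⟩),⟨0,[(39,0)]⟩,.k,.k,.k,.k,.k,.k,⟨true,0,⟨0,[]⟩,⟨1,[(48,0),(0,0)]⟩⟩,⟨false,
  1,⟨2,[(0,0),(7,1),(13,0),(6,0)]⟩,⟨0,[(42,0)]⟩⟩,⟨true,0,⟨0,[]⟩,⟨0,[(64,0)]⟩⟩,⟨false,1,⟨0,[(0,0)]⟩,
  ⟨0,[(42,0)]⟩⟩,⟨false,0,⟨0,[]⟩,⟨0,[]⟩⟩,⟨false,0,⟨0,[]⟩,⟨0,[]⟩⟩,[.e ⟨false,0,⟨6,[(16,0),(5,1),(1,3),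
  (33,0)]⟩,⟨1,[(28,0),(5,0),(2,0),(0,0)]⟩⟩ ⟨false,1,⟨1,[(8,0),(13,0),(1,0),(16,0)]⟩,⟨1,[(7,0),(1,0),
  (20,0),(3,0),(22,0)]⟩⟩,.o ⟨false,1,⟨6,[(0,4),(7,1),(7,1),(0,0),(8,1),(22,2),(3,1)]⟩,⟨0,[(7,0),(38,
  0)]⟩⟩,.a ⟨true,0,⟨2,[(10,0),(27,0),(3,0)]⟩,⟨0,[(31,0)]⟩⟩ ⟨true,0,⟨0,[(35,0)]⟩,⟨0,[(34,0)]⟩⟩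
  ⟨false,1,⟨2,[(0,2),(21,0),(4,1)]⟩,⟨1,[(7,0),(1,0),(20,0),(3,0),(22,0)]⟩⟩,.o ⟨false,0,⟨0,[(49,0)]⟩,
  ⟨0,[(33,0)]⟩⟩]⟩) (.S ⟨1,0,[0,2,1],[0,1,0,0,1],[0,1,1],(⟨0,[(44,0),(10,0)]⟩,⟨0,[(2,0)]⟩),⟨0,[(44,
  0)]⟩,(.r 0 ⟨1,[(23,0),(10,0),(29,0)]⟩ ⟨4,[(22,0),(7,2),(6,1),(22,2)]⟩),.k,⟨true,0,⟨0,[(60,0)]⟩,⟨0,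
  [(59,0)]⟩⟩,⟨false,0,⟨0,[(60,0)]⟩,⟨3,[(36,1),(24,0),(0,0)]⟩⟩,⟨false,1,⟨3,[(28,0),(8,1),(0,0),(23,
  0)]⟩,⟨0,[]⟩⟩,⟨true,0,⟨0,[(64,0)]⟩,⟨0,[]⟩⟩,[.e ⟨false,0,⟨0,[(64,0)]⟩,⟨1,[(61,0),(0,0)]⟩⟩ ⟨false,0,
  ⟨0,[(64,1)]⟩,⟨11,[(12,1),(3,3),(13,3),(26,0),(4,6)]⟩⟩,.a ⟨true,(-1),⟨0,[(0,0)]⟩,⟨5,[(8,0),(1,2),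
  (3,1),(5,0),(16,0),(3,1),(20,0)]⟩⟩ ⟨true,0,⟨1,[(48,0),(0,0)]⟩,⟨0,[]⟩⟩ ⟨false,0,⟨0,[(64,0)]⟩,⟨1,
  [(61,0),(0,0)]⟩⟩,.o ⟨false,0,⟨0,[(3,0)]⟩,⟨1,[(41,1),(6,0),(0,0)]⟩⟩,.o ⟨false,0,⟨0,[(7,0)]⟩,⟨0,
  [(41,0)]⟩⟩]⟩))) (.R ⟨0,false,false,false,[-1,1,0,0,1],[0,0,0,0,1],[1,1],(⟨0,[(0,0)]⟩,⟨0,[(41,0),
  (10,0)]⟩),(⟨0,[(42,0)]⟩,⟨0,[(41,0)]⟩),⟨0,[(41,0)]⟩,(.r 0 ⟨1,[(21,0),(10,0),(29,0)]⟩ ⟨4,[(20,0),(7,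
  2),(6,1),(22,2)]⟩),.k,.k,.k,.k,.k,⟨true,0,⟨0,[]⟩,⟨1,[(46,0),(0,0)]⟩⟩,⟨false,0,⟨12,[(8,2),(17,0),
  (8,2),(4,2),(3,0),(10,3),(6,1)]⟩,⟨1,[(51,0),(7,0)]⟩⟩,⟨true,0,⟨2,[(14,0),(12,0),(30,1)]⟩,⟨1,[(21,
  0),(10,0),(29,0)]⟩⟩,⟨false,0,⟨11,[(8,0),(9,6),(7,3),(8,0),(4,0),(17,4),(1,1)]⟩,⟨15,[(10,1),(23,5),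
  (16,6),(2,3),(4,0)]⟩⟩,⟨false,0,⟨0,[]⟩,⟨0,[]⟩⟩,⟨false,0,⟨0,[]⟩,⟨0,[]⟩⟩,[.e ⟨false,0,⟨6,[(20,0),(6,
  0),(26,1),(1,1)]⟩,⟨3,[(26,0),(8,1),(0,0),(23,0)]⟩⟩ ⟨false,0,⟨1,[(8,0),(31,0),(5,0),(7,0)]⟩,⟨11,
  [(10,1),(3,3),(13,3),(22,4),(8,0)]⟩⟩,.o ⟨false,0,⟨0,[(5,0)]⟩,⟨0,[(39,0)]⟩⟩,.e ⟨false,0,⟨0,[]⟩,⟨3,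
  [(26,0),(8,1),(0,0),(23,0)]⟩⟩ ⟨false,0,⟨2,[(7,0),(0,1),(31,0),(5,1)]⟩,⟨11,[(10,1),(3,3),(13,3),
  (22,4),(8,0)]⟩⟩,.a ⟨true,0,⟨0,[(5,0)]⟩,⟨0,[(8,0),(20,0)]⟩⟩ ⟨true,0,⟨6,[(20,0),(6,0),(26,1),(1,
  1)]⟩,⟨1,[(46,0),(0,0)]⟩⟩ ⟨false,0,⟨12,[(8,2),(17,0),(8,2),(4,2),(3,0),(10,3),(6,1)]⟩,⟨1,[(51,0),
  (8,0)]⟩⟩]⟩))) (.Q [0,1,0,0,-1,0,0,0,1,0,0,1] (.p true [0,0,0,0,1] [] (⟨0,[(40,0)]⟩,⟨0,[(39,0)]⟩)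
  .k 0 (⟨0,[]⟩,⟨0,[]⟩) .k .k) (.S ⟨1,0,[0,2,1],[0,1,0,0,1],[1,1],(⟨0,[(41,0),(10,0)]⟩,⟨13,[(1,0),(3,
  0),(3,0),(3,2),(0,0),(2,1),(8,5),(9,1),(3,12),(8,17),(10,8)]⟩),⟨0,[(41,0)]⟩,(.r 0 ⟨1,[(20,0),(10,
  0),(29,0)]⟩ ⟨4,[(19,0),(7,2),(6,1),(22,2)]⟩),.k,⟨true,0,⟨2,[(13,0),(12,0),(30,1)]⟩,⟨1,[(20,0),(10,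
  0),(29,0)]⟩⟩,⟨false,0,⟨0,[(57,0)]⟩,⟨3,[(33,1),(24,0),(0,0)]⟩⟩,⟨false,1,⟨1,[(58,0),(0,0)]⟩,⟨1,[(45,
  0),(0,0)]⟩⟩,⟨true,0,⟨0,[(61,0)]⟩,⟨0,[]⟩⟩,[.e ⟨false,0,⟨6,[(19,0),(6,0),(26,1),(1,1)]⟩,⟨3,[(25,0),
  (8,1),(0,0),(23,0)]⟩⟩ ⟨false,0,⟨0,[(61,1)]⟩,⟨11,[(9,1),(3,3),(13,3),(26,0),(4,6)]⟩⟩,.a ⟨true,(-1),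
  ⟨0,[(0,0)]⟩,⟨5,[(5,0),(1,2),(3,1),(5,0),(16,0),(3,1),(20,0)]⟩⟩ ⟨true,0,⟨0,[]⟩,⟨1,[(45,0),(0,0)]⟩⟩
  ⟨false,0,⟨0,[(61,0)]⟩,⟨1,[(58,0),(0,0)]⟩⟩,.o ⟨false,0,⟨5,[(0,0),(3,4),(4,0),(3,1),(12,1)]⟩,⟨1,
  [(38,1),(6,0),(0,0)]⟩⟩,.o ⟨false,0,⟨0,[(4,0)]⟩,⟨0,[(38,0)]⟩⟩]⟩) (.I [0,-1,0,0,1,0,0,0,-1] (.C [(0,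
  0),(1,0),(11,1),(0,0),(11,2),(9,1),(9,1),(2,3),(4,0),(5,1)]) (.C [(0,0),(0,0),(40,0)]))))) (.R ⟨0,
  false,false,false,[1,0,-1],[0,0,1],[1,0,0,0,0,0,0,1],(⟨0,[(44,0)]⟩,⟨0,[(45,0)]⟩),(⟨0,[(45,0)]⟩,⟨0,
  [(44,0)]⟩),⟨0,[(33,0)]⟩,.k,.k,.k,.k,.k,.k,⟨true,0,⟨0,[]⟩,⟨1,[(42,0),(0,0)]⟩⟩,⟨false,1,⟨2,[(8,0),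
  (10,1),(11,0),(18,0),(0,0)]⟩,⟨0,[(32,0)]⟩⟩,⟨false,1,⟨2,[(6,0),(1,1),(5,1),(7,0),(0,2),(0,0),(18,
  3)]⟩,⟨2,[(19,1),(0,1),(0,1)]⟩⟩,⟨true,1,⟨0,[(22,0)]⟩,⟨4,[(0,5),(5,0),(13,1),(26,1)]⟩⟩,⟨false,0,⟨0,
  []⟩,⟨0,[]⟩⟩,⟨false,0,⟨0,[]⟩,⟨0,[]⟩⟩,[.o ⟨false,1,⟨15,[(7,1),(14,8),(8,1),(0,0),(2,1),(11,2)]⟩,⟨4,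
  [(0,0),(5,0),(13,1),(26,1)]⟩⟩,.a ⟨true,1,⟨6,[(4,0),(17,3),(8,0),(4,0),(14,0),(4,2)]⟩,⟨0,[(0,0)]⟩⟩
  ⟨false,1,⟨0,[(24,0)]⟩,⟨8,[(16,1),(4,3),(19,2),(0,2),(7,2)]⟩⟩ ⟨true,1,⟨0,[(8,0)]⟩,⟨0,[(0,0),(42,
  0)]⟩⟩,.e ⟨false,1,⟨1,[(22,0),(9,0),(23,0)]⟩,⟨0,[(26,0)]⟩⟩ ⟨false,1,⟨0,[(8,0)]⟩,⟨6,[(6,0),(13,1),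
  (10,0),(0,3),(8,1)]⟩⟩,.o ⟨false,0,⟨0,[(43,0)]⟩,⟨0,[(27,0)]⟩⟩]⟩)) (.Q [0,0,0,0,0,-1,0,0,0,1,0,-1]
  (.ed true [0,1,0,0,1] .k) (.S ⟨1,0,[0,-1,0,-1],[1,0,0,0,-1],[1],(⟨0,[(37,0)]⟩,⟨0,[(38,0)]⟩),⟨0,
  [(0,0)]⟩,.k,(.r (-1) ⟨4,[(16,0),(7,2),(6,1),(22,2)]⟩ ⟨1,[(17,0),(10,0),(29,0)]⟩),⟨false,0,⟨0,[]⟩,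
  ⟨3,[(22,0),(8,1),(0,0),(23,0)]⟩⟩,⟨true,0,⟨0,[(54,0)]⟩,⟨0,[(53,0)]⟩⟩,⟨true,0,⟨0,[(53,0)]⟩,⟨0,[(54,
  0)]⟩⟩,⟨false,1,⟨3,[(22,0),(8,1),(0,0),(23,0)]⟩,⟨0,[]⟩⟩,[.o ⟨false,1,⟨1,[(1,1),(45,0),(6,1),(1,
  0)]⟩,⟨0,[(5,0)]⟩⟩,.o ⟨false,1,⟨0,[(1,0),(6,0),(1,0),(32,1)]⟩,⟨4,[(5,2),(1,1),(9,0),(10,0),(21,
  1)]⟩⟩,.a ⟨true,0,⟨0,[(1,0)]⟩,⟨0,[(36,0)]⟩⟩ ⟨true,0,⟨0,[]⟩,⟨0,[(58,0)]⟩⟩ ⟨false,1,⟨0,[(54,0),(1,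
  0)]⟩,⟨0,[(53,0)]⟩⟩,.e ⟨false,1,⟨1,[(55,0),(0,0)]⟩,⟨1,[(42,0),(0,0)]⟩⟩ ⟨false,1,⟨1,[(13,0),(10,0),
  (29,0),(1,0)]⟩,⟨1,[(17,0),(10,0),(29,0)]⟩⟩]⟩) (.R ⟨2,true,false,true,[0,1],[1,1,0,0,-1],[0,1,1],
  (⟨0,[]⟩,⟨0,[]⟩),(⟨0,[(37,0),(11,0)]⟩,⟨12,[(0,0),(5,0),(6,2),(14,2),(9,11),(7,13),(4,0),(0,0),(4,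
  3)]⟩),⟨0,[]⟩,.k,(.r (-1) ⟨7,[(3,0),(0,0),(17,0),(7,3),(0,1),(10,0),(0,1),(12,0)]⟩ ⟨2,[(16,0),(11,
  0),(21,0),(3,0)]⟩),.k,.k,(.r 0 ⟨2,[(16,0),(11,0),(21,0),(3,0)]⟩ ⟨7,[(3,0),(0,0),(17,0),(7,3),(0,
  1),(10,0),(0,1),(12,0)]⟩),.k,⟨false,0,⟨2,[(16,0),(11,0),(21,0),(3,0)]⟩,⟨3,[(30,1),(24,0),(0,0)]⟩⟩,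
  ⟨true,0,⟨0,[(1,0)]⟩,⟨0,[(3,0)]⟩⟩,⟨false,0,⟨0,[(54,0)]⟩,⟨3,[(30,1),(24,0),(0,0)]⟩⟩,⟨true,0,⟨0,[(1,
  0)]⟩,⟨0,[(7,0)]⟩⟩,⟨true,0,⟨0,[(58,0)]⟩,⟨0,[]⟩⟩,⟨false,1,⟨1,[(2,0),(1,0),(3,0),(3,0)]⟩,⟨2,[(3,2),
  (6,0),(12,0),(30,1)]⟩⟩,[]⟩))) (.I [0,0,-1,0,0,-1,2,0,2] (.S ⟨1,0,[0,-1,0,-1],[1,0,0,0,-1],[1],(⟨0,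
  [(36,0)]⟩,⟨0,[(37,0)]⟩),⟨1,[(0,0),(2,1),(28,1),(12,2),(10,0)]⟩,.k,(.r (-1) ⟨4,[(15,0),(7,2),(6,1),
  (22,2)]⟩ ⟨1,[(16,0),(10,0),(29,0)]⟩),⟨false,0,⟨0,[]⟩,⟨3,[(21,0),(8,1),(0,0),(23,0)]⟩⟩,⟨true,0,⟨0,
  [(53,0)]⟩,⟨0,[(52,0)]⟩⟩,⟨true,0,⟨0,[(52,0)]⟩,⟨0,[(53,0)]⟩⟩,⟨false,1,⟨3,[(21,0),(8,1),(0,0),(23,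
  0)]⟩,⟨0,[]⟩⟩,[.a ⟨true,1,⟨5,[(3,2),(3,1),(5,0),(16,0),(3,2),(18,4),(1,0)]⟩,⟨0,[(1,0),(8,0),(11,
  0)]⟩⟩ ⟨true,0,⟨0,[]⟩,⟨1,[(41,0),(0,0)]⟩⟩ ⟨false,1,⟨4,[(15,0),(7,2),(6,1),(22,2)]⟩,⟨0,[(52,0)]⟩⟩,
  .e ⟨false,1,⟨1,[(54,0),(0,0)]⟩,⟨0,[(57,0)]⟩⟩ ⟨false,1,⟨1,[(12,0),(10,0),(29,0),(1,0)]⟩,⟨2,[(16,0),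
  (10,0),(21,1),(2,0)]⟩⟩,.o ⟨false,1,⟨0,[(34,0)]⟩,⟨15,[(1,4),(0,5),(1,4),(0,0),(3,1),(13,1),(22,
  1)]⟩⟩,.o ⟨false,1,⟨1,[(34,1),(6,0),(0,0)]⟩,⟨5,[(1,2),(2,2),(0,0),(3,1),(12,0),(0,0),(22,0)]⟩⟩]⟩)
  (.S ⟨1,0,[0,2,0,-1],[0,0,0,0,1],[1,1],(⟨0,[(37,0)]⟩,⟨0,[(36,0)]⟩),⟨18,[(0,0),(0,1),(3,0),(1,0),(4,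
  2),(9,1),(14,16),(5,1),(1,19),(5,2),(4,6)]⟩,.k,(.r 0 ⟨2,[(15,0),(11,0),(21,0),(3,0)]⟩ ⟨7,[(2,0),
  (0,0),(17,0),(7,3),(0,1),(10,0),(0,1),(12,0)]⟩),⟨true,0,⟨0,[]⟩,⟨0,[(57,0)]⟩⟩,⟨false,0,⟨0,[(53,
  0)]⟩,⟨3,[(29,1),(24,0),(0,0)]⟩⟩,⟨false,1,⟨3,[(29,1),(24,0),(0,0)]⟩,⟨0,[(53,0)]⟩⟩,⟨true,0,⟨0,[(57,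
  0)]⟩,⟨0,[]⟩⟩,[.e ⟨false,0,⟨6,[(15,0),(6,0),(26,1),(1,1)]⟩,⟨3,[(21,0),(8,1),(0,0),(23,0)]⟩⟩ ⟨false,
  0,⟨0,[(49,0),(3,0)]⟩,⟨3,[(5,1),(44,0),(4,2)]⟩⟩,.a ⟨true,(-1),⟨0,[(1,0),(55,0)]⟩,⟨19,[(3,17),(1,3),
  (1,5),(0,2),(1,5),(23,1),(20,4)]⟩⟩ ⟨true,0,⟨0,[]⟩,⟨1,[(41,0),(0,0)]⟩⟩ ⟨false,0,⟨2,[(15,0),(11,0),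
  (21,0),(3,0)]⟩,⟨3,[(29,1),(24,0),(0,0)]⟩⟩,.o ⟨false,0,⟨15,[(1,4),(0,5),(1,4),(0,0),(3,1),(13,1),
  (22,1)]⟩,⟨0,[(34,0)]⟩⟩,.o ⟨false,0,⟨0,[(2,0)]⟩,⟨1,[(3,1),(4,0),(37,0)]⟩⟩]⟩))) (.Q [0,0,0,0,0,-1,0,
  0,0,0,0,1] (.ed false [1,-1,0,0,1] .k) (.S ⟨1,0,[0,2,0,-1],[0,0,0,0,1],[1,1],(⟨0,[(36,0)]⟩,⟨0,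
  [(35,0)]⟩),⟨0,[(0,0)]⟩,.k,(.r 0 ⟨2,[(14,0),(11,0),(21,0),(3,0)]⟩ ⟨31,[(2,1),(17,3),(7,15),(0,7),
  (4,1),(5,4),(0,10),(12,3)]⟩),⟨true,0,⟨0,[]⟩,⟨0,[(56,0)]⟩⟩,⟨false,0,⟨0,[(52,0)]⟩,⟨3,[(28,1),(24,0),
  (0,0)]⟩⟩,⟨false,1,⟨3,[(28,1),(24,0),(0,0)]⟩,⟨0,[(52,0)]⟩⟩,⟨true,0,⟨0,[(56,0)]⟩,⟨0,[]⟩⟩,[.e ⟨false,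
  0,⟨6,[(14,0),(6,0),(26,1),(1,1)]⟩,⟨3,[(20,0),(8,1),(0,0),(23,0)]⟩⟩ ⟨false,0,⟨0,[(48,0),(3,0)]⟩,⟨3,
  [(4,1),(44,0),(4,2)]⟩⟩,.o ⟨false,0,⟨0,[(5,0),(46,0)]⟩,⟨9,[(1,7),(2,4),(1,2),(6,1),(1,0),(17,1),(7,
  5)]⟩⟩,.e ⟨false,0,⟨0,[]⟩,⟨3,[(20,0),(8,1),(0,0),(23,0)]⟩⟩ ⟨false,0,⟨0,[(52,0),(3,0)]⟩,⟨3,[(4,1),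
  (44,0),(4,2)]⟩⟩,.a ⟨true,0,⟨1,[(34,1),(5,0),(0,0)]⟩,⟨0,[(1,0)]⟩⟩ ⟨true,0,⟨6,[(14,0),(6,0),(26,1),
  (1,1)]⟩,⟨1,[(40,0),(0,0)]⟩⟩ ⟨false,0,⟨2,[(14,0),(11,0),(21,0),(3,0)]⟩,⟨3,[(4,0),(1,0),(8,0),(25,
  1),(7,0),(4,2)]⟩⟩]⟩) (.S ⟨1,0,[0,-1,0,-1],[1,0,0,0,-1],[1],(⟨0,[(35,0)]⟩,⟨0,[(36,0)]⟩),⟨12,[(0,0),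
  (3,0),(6,2),(14,2),(8,11),(8,13),(4,0),(0,0),(4,3)]⟩,.k,(.r (-1) ⟨4,[(14,0),(7,2),(6,1),(22,2)]⟩
  ⟨1,[(15,0),(10,0),(29,0)]⟩),⟨false,0,⟨0,[]⟩,⟨3,[(20,0),(8,1),(0,0),(23,0)]⟩⟩,⟨true,0,⟨0,[(52,0)]⟩,
  ⟨0,[(51,0)]⟩⟩,⟨true,0,⟨0,[(51,0)]⟩,⟨0,[(52,0)]⟩⟩,⟨false,1,⟨3,[(20,0),(8,1),(0,0),(23,0)]⟩,⟨0,[]⟩⟩,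
  [.o ⟨false,1,⟨5,[(1,3),(4,1),(6,1),(19,1),(7,3),(3,0),(6,3),(1,0)]⟩,⟨0,[(3,0)]⟩⟩,.o ⟨false,1,⟨0,
  [(1,0),(4,0),(4,0),(29,1)]⟩,⟨4,[(3,2),(1,1),(9,0),(10,0),(21,1)]⟩⟩,.a ⟨true,0,⟨1,[(1,1),(38,0),(0,
  0)]⟩,⟨0,[(34,0)]⟩⟩ ⟨true,0,⟨0,[]⟩,⟨0,[(56,0)]⟩⟩ ⟨false,1,⟨0,[(52,0),(1,0)]⟩,⟨0,[(51,0)]⟩⟩,.e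
  ⟨false,1,⟨1,[(53,0),(0,0)]⟩,⟨1,[(40,0),(0,0)]⟩⟩ ⟨false,1,⟨1,[(11,0),(10,0),(29,0),(1,0)]⟩,⟨1,[(15,
  0),(10,0),(29,0)]⟩⟩]⟩))) (.Q [0,0,0,0,0,0,0,0,0,-1,1,1] (.ed false [0,0,1,0,1] (.r 0 ⟨0,[(24,0)]⟩
  ⟨0,[(2,1),(3,7),(0,1),(11,8),(27,0),(5,22)]⟩)) (.R ⟨0,false,false,true,[1,0,-1],[2,0,-1,0,-1],[1,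
  0,0,0,0,0,0,-1],(⟨0,[(41,0)]⟩,⟨0,[(42,0)]⟩),(⟨0,[(34,0),(6,0)]⟩,⟨0,[(0,0)]⟩),⟨0,[(30,0)]⟩,.k,.k,
  .k,.k,.k,.k,⟨true,0,⟨0,[]⟩,⟨1,[(39,0),(0,0)]⟩⟩,⟨false,1,⟨1,[(32,1),(15,0),(3,0)]⟩,⟨2,[(1,1),(27,
  0),(3,0)]⟩⟩,⟨true,0,⟨0,[]⟩,⟨0,[(55,0)]⟩⟩,⟨false,1,⟨1,[(32,1),(15,0),(4,0)]⟩,⟨2,[(1,1),(27,0),(3,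
  0)]⟩⟩,⟨false,0,⟨0,[]⟩,⟨0,[]⟩⟩,⟨false,0,⟨0,[]⟩,⟨0,[]⟩⟩,[.e ⟨false,0,⟨6,[(7,0),(5,1),(1,3),(33,0)]⟩,
  ⟨1,[(19,0),(5,0),(2,0),(0,0)]⟩⟩ ⟨false,1,⟨29,[(13,5),(1,11),(7,3),(4,7),(3,29),(14,3),(0,14),(3,
  6)]⟩,⟨10,[(1,10),(1,0),(7,1),(8,3),(0,4),(3,3),(14,8),(7,3)]⟩⟩,.o ⟨false,1,⟨2,[(9,0),(7,0),(14,2),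
  (20,0)]⟩,⟨0,[(1,0),(23,0)]⟩⟩,.a ⟨true,0,⟨3,[(25,0),(2,0),(0,1),(18,0)]⟩,⟨0,[(22,0)]⟩⟩ ⟨true,0,⟨0,
  [(26,0)]⟩,⟨0,[(25,0)]⟩⟩ ⟨false,1,⟨19,[(5,1),(2,3),(1,3),(0,3),(11,1),(4,7),(3,19),(15,6),(4,0)]⟩,
  ⟨10,[(1,10),(1,0),(7,1),(8,3),(0,4),(3,3),(14,8),(7,3)]⟩⟩,.o ⟨false,0,⟨0,[(40,0)]⟩,⟨0,[(24,
  0)]⟩⟩]⟩) (.K ⟨0,[0,0,1,0,1],(-1),(-1),(⟨0,[(35,0),(6,0)]⟩,⟨0,[(0,0)]⟩),.k,(.r 0 ⟨0,[(20,0),(30,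
  0)]⟩ ⟨7,[(14,1),(12,1),(0,5),(10,0),(0,0)]⟩),(.r (-1) ⟨7,[(14,1),(10,15),(1,1),(0,5),(10,0),(0,
  0)]⟩ ⟨0,[(10,0)]⟩),.k,.k,[⟨0,[(32,0)]⟩,⟨3,[(1,3),(37,0),(0,0),(7,3),(5,1)]⟩,⟨5,[(7,0),(0,0),(8,1),
  (14,5),(7,1),(3,1),(4,0)]⟩,⟨0,[(1,0),(23,0),(22,0),(6,0)]⟩]⟩)))))))))))))))) (.S ⟨1,0,[0,0,0,-1,0,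
  0,0,1],[0,0,1],[1,1],(⟨0,[(27,0)]⟩,⟨0,[(26,0)]⟩),⟨0,[(16,0)]⟩,.k,.k,⟨false,0,⟨0,[(11,0)]⟩,⟨1,[(4,
  0),(9,0),(23,0)]⟩⟩,⟨true,0,⟨0,[(36,0)]⟩,⟨0,[(35,0)]⟩⟩,⟨true,0,⟨2,[(3,1),(4,0),(23,0),(1,0)]⟩,⟨0,
  [(0,0)]⟩⟩,⟨false,1,⟨3,[(4,0),(8,1),(0,0),(23,0)]⟩,⟨0,[]⟩⟩,[.a ⟨true,0,⟨2,[(0,2),(0,0),(22,0),(8,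
  0)]⟩,⟨1,[(2,0),(9,0),(21,0)]⟩⟩ ⟨false,0,⟨4,[(1,0),(0,0),(2,1),(26,0),(1,0)]⟩,⟨3,[(4,0),(8,1),(0,
  0),(23,0)]⟩⟩ ⟨true,0,⟨0,[(0,0)]⟩,⟨0,[(3,0)]⟩⟩,.o ⟨false,1,⟨5,[(0,5),(0,1),(22,1),(4,0),(8,2)]⟩,⟨4,
  [(2,0),(0,1),(19,0),(1,1),(3,0),(4,3)]⟩⟩,.a ⟨true,0,⟨0,[(7,0)]⟩,⟨3,[(10,0),(2,0),(0,1),(18,0)]⟩⟩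
  ⟨false,0,⟨0,[]⟩,⟨3,[(4,0),(8,1),(0,0),(23,0)]⟩⟩ ⟨true,0,⟨0,[(0,0)]⟩,⟨2,[(3,1),(4,0),(23,0),(1,
  0)]⟩⟩,.a ⟨true,0,⟨0,[(24,0)]⟩,⟨0,[(21,0)]⟩⟩ ⟨true,0,⟨4,[(1,0),(0,0),(2,1),(26,0),(1,0)]⟩,⟨1,[(24,
  0),(0,0)]⟩⟩ ⟨false,1,⟨1,[(0,1),(36,0),(0,0)]⟩,⟨0,[(3,0)]⟩⟩]⟩)) (.I [0,1,0,1,0,0,0,1] (.I [1,0,1,1,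
  0,0,0,1] (.Q [0,-1,0,0,0,0,-2,-1,0,1,-2] (.p false [0,0,1] [1,0,-1] (⟨0,[(28,0)]⟩,⟨0,[(27,0)]⟩)
  .k 2 (⟨0,[(27,0)]⟩,⟨0,[(28,0)]⟩) .k (.r (-1) ⟨0,[(5,0),(9,0)]⟩ ⟨0,[(9,1)]⟩)) (.R ⟨0,false,false,
  true,[1,0,-1],[0,0,1],[0,1],(⟨0,[(28,0)]⟩,⟨0,[(29,0)]⟩),(⟨0,[(29,0)]⟩,⟨0,[(28,0)]⟩),⟨0,[(17,0)]⟩,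
  .k,.k,.k,.k,.k,.k,⟨true,0,⟨0,[(10,0)]⟩,⟨0,[(1,0),(36,0)]⟩⟩,⟨false,1,⟨0,[(9,0),(1,0)]⟩,⟨0,[(16,
  0)]⟩⟩,⟨true,0,⟨0,[(12,0)]⟩,⟨0,[(13,0)]⟩⟩,⟨false,1,⟨0,[(6,0)]⟩,⟨0,[(0,0),(9,0)]⟩⟩,⟨false,0,⟨0,[]⟩,
  ⟨0,[]⟩⟩,⟨false,0,⟨0,[]⟩,⟨0,[]⟩⟩,[.e ⟨false,0,⟨0,[(7,0),(2,0)]⟩,⟨3,[(6,0),(8,1),(0,0),(23,0)]⟩⟩
  ⟨false,1,⟨0,[(11,0),(12,0)]⟩,⟨0,[(0,0)]⟩⟩,.e ⟨false,1,⟨4,[(6,0),(8,1),(0,0),(17,0),(4,1)]⟩,⟨0,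
  []⟩⟩ ⟨false,1,⟨1,[(7,0),(0,0),(0,3),(21,0)]⟩,⟨21,[(0,4),(3,3),(9,1),(0,0),(0,8),(8,7),(13,0)]⟩⟩,
  .a ⟨true,0,⟨19,[(3,3),(2,1),(8,3),(0,7),(17,1),(0,2),(3,0)]⟩,⟨0,[(9,0)]⟩⟩ ⟨true,0,⟨0,[(42,0)]⟩,⟨0,
  []⟩⟩ ⟨false,1,⟨1,[(6,0),(4,0),(14,0)]⟩,⟨0,[(0,0)]⟩⟩,.o ⟨false,0,⟨0,[(27,0)]⟩,⟨0,[(11,0)]⟩⟩]⟩) (.Q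
  [0,0,0,0,0,0,-1,-1,0,0,-1] (.p false [0,0,1] [] (⟨0,[(29,0)]⟩,⟨0,[(28,0)]⟩) .k 0 (⟨0,[]⟩,⟨0,[]⟩)
  .k .k) (.R ⟨0,false,false,true,[1,0,-1],[0,0,1],[0,1],(⟨0,[(29,0)]⟩,⟨0,[(30,0)]⟩),(⟨0,[(30,0)]⟩,
  ⟨0,[(29,0)]⟩),⟨0,[(18,0)]⟩,.k,.k,.k,.k,.k,.k,⟨true,0,⟨0,[(11,0)]⟩,⟨0,[(2,0),(36,0)]⟩⟩,⟨false,1,⟨0,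
  [(10,0),(1,0)]⟩,⟨0,[(17,0)]⟩⟩,⟨true,0,⟨0,[(13,0)]⟩,⟨0,[(14,0)]⟩⟩,⟨false,1,⟨0,[(7,0)]⟩,⟨1,[(0,3),
  (35,0),(4,0)]⟩⟩,⟨false,0,⟨0,[]⟩,⟨0,[]⟩⟩,⟨false,0,⟨0,[]⟩,⟨0,[]⟩⟩,[.a ⟨true,0,⟨0,[(25,0)]⟩,⟨1,[(0,
  1),(35,0),(4,0)]⟩⟩ ⟨false,0,⟨8,[(1,1),(3,2),(2,3),(3,1),(19,0),(4,2)]⟩,⟨3,[(7,0),(8,1),(0,0),(23,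
  0)]⟩⟩ ⟨true,0,⟨0,[(1,0)]⟩,⟨5,[(0,2),(3,1),(0,0),(0,0),(21,2),(12,2)]⟩⟩,.o ⟨false,1,⟨13,[(7,8),(8,
  1),(0,0),(8,1),(5,2)]⟩,⟨0,[(0,0)]⟩⟩,.e ⟨true,0,⟨0,[(43,0)]⟩,⟨0,[]⟩⟩ ⟨true,0,⟨0,[(1,0)]⟩,⟨16,[(0,
  4),(4,3),(9,1),(0,0),(0,8),(8,2),(13,0)]⟩⟩,.o ⟨false,0,⟨0,[(28,0)]⟩,⟨0,[(12,0)]⟩⟩]⟩) (.R ⟨0,false,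
  false,true,[1,0,-1],[1,-1],[0,1],(⟨0,[(29,0)]⟩,⟨0,[(30,0)]⟩),(⟨0,[(33,0)]⟩,⟨0,[(34,0)]⟩),⟨0,[(18,
  0)]⟩,.k,.k,.k,.k,.k,.k,⟨true,0,⟨0,[(2,0),(8,0)]⟩,⟨0,[(39,0)]⟩⟩,⟨false,0,⟨0,[(10,0)]⟩,⟨19,[(7,1),
  (8,3),(0,11),(14,4),(2,1),(4,8)]⟩⟩,⟨true,0,⟨0,[(13,0)]⟩,⟨0,[(14,0)]⟩⟩,⟨false,0,⟨0,[(0,0),(38,0)]⟩,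
  ⟨1,[(5,0),(9,0),(16,0),(4,0),(3,0)]⟩⟩,⟨false,0,⟨0,[]⟩,⟨0,[]⟩⟩,⟨false,0,⟨0,[]⟩,⟨0,[]⟩⟩,[.e ⟨false,
  0,⟨8,[(1,1),(3,2),(2,3),(3,1),(19,0),(4,2)]⟩,⟨3,[(7,0),(8,1),(0,0),(23,0)]⟩⟩ ⟨false,0,⟨1,[(1,1),
  (3,0),(33,0),(0,0)]⟩,⟨7,[(4,1),(10,1),(1,1),(14,2),(4,3),(3,4)]⟩⟩,.o ⟨false,0,⟨0,[(39,0)]⟩,⟨5,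
  [(15,1),(16,2),(5,1),(1,0)]⟩⟩,.a ⟨true,0,⟨19,[(4,3),(2,1),(8,3),(0,7),(17,1),(0,2),(3,0)]⟩,⟨0,
  [(10,0)]⟩⟩ ⟨true,0,⟨0,[(43,0)]⟩,⟨0,[]⟩⟩ ⟨false,0,⟨0,[(10,0),(28,0)]⟩,⟨7,[(4,1),(10,1),(1,1),(14,
  2),(4,3),(3,4)]⟩⟩,.o ⟨false,0,⟨0,[(28,0)]⟩,⟨0,[(12,0)]⟩⟩]⟩))) (.R ⟨0,false,false,false,[1,0,-1],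
  [2,-1,-1],[0,0,0,-1,0,0,0,-1],(⟨0,[(27,0)]⟩,⟨0,[(28,0)]⟩),(⟨0,[(27,0),(3,0)]⟩,⟨0,[(16,0)]⟩),⟨0,
  [(16,0)]⟩,.k,.k,.k,.k,.k,.k,⟨true,0,⟨1,[(25,0),(0,0)]⟩,⟨0,[]⟩⟩,⟨false,0,⟨1,[(11,0),(2,0),(19,0)]⟩,
  ⟨1,[(30,0),(7,0)]⟩⟩,⟨true,0,⟨0,[(37,0)]⟩,⟨0,[(36,0)]⟩⟩,⟨false,0,⟨1,[(34,0),(2,1),(1,0)]⟩,⟨5,[(13,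
  1),(16,2),(5,1),(1,0)]⟩⟩,⟨false,0,⟨0,[]⟩,⟨0,[]⟩⟩,⟨false,0,⟨0,[]⟩,⟨0,[]⟩⟩,[.e ⟨false,0,⟨0,[(0,0)]⟩,
  ⟨3,[(5,0),(5,1),(1,1),(1,0),(22,0)]⟩⟩ ⟨false,0,⟨13,[(0,9),(2,3),(1,3),(8,3),(18,1),(0,4),(3,0)]⟩,
  ⟨1,[(1,1),(28,0),(8,0)]⟩⟩,.o ⟨false,0,⟨1,[(3,0),(33,0),(1,0)]⟩,⟨0,[(1,0),(6,0),(21,0)]⟩⟩,.a ⟨true,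
  0,⟨19,[(2,3),(2,1),(8,3),(0,7),(17,1),(0,2),(3,0)]⟩,⟨0,[(8,0)]⟩⟩ ⟨true,0,⟨3,[(0,1),(2,0),(21,1),
  (4,0),(6,0)]⟩,⟨0,[(1,0)]⟩⟩ ⟨false,0,⟨3,[(0,1),(2,0),(21,1),(8,0),(2,0),(1,1)]⟩,⟨1,[(1,1),(28,0),
  (8,0)]⟩⟩,.o ⟨false,0,⟨0,[(26,0)]⟩,⟨0,[(10,0)]⟩⟩]⟩)) (.R ⟨0,false,false,false,[-1,1,1],[1,0,-1],[0,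
  0,1,0,0,0,0,1],(⟨0,[(15,0)]⟩,⟨0,[(26,0),(3,0)]⟩),(⟨0,[(26,0)]⟩,⟨0,[(27,0)]⟩),⟨0,[(26,0)]⟩,.k,.k,
  .k,(.r (-1) ⟨3,[(1,0),(2,1),(1,0),(3,2),(1,1),(12,1)]⟩ ⟨1,[(0,2),(7,0),(23,0),(1,0)]⟩),.k,.k,
  ⟨false,1,⟨0,[(4,0),(9,0)]⟩,⟨0,[(0,0),(7,0),(25,0)]⟩⟩,⟨true,(-1),⟨0,[(1,0)]⟩,⟨0,[(7,1),(21,0)]⟩⟩,
  ⟨true,0,⟨0,[(36,0)]⟩,⟨0,[(35,0)]⟩⟩,⟨false,(-1),⟨0,[(0,1),(0,0),(32,0)]⟩,⟨5,[(4,5),(7,1),(16,2),(5,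
  1),(1,0)]⟩⟩,⟨false,0,⟨0,[]⟩,⟨0,[]⟩⟩,⟨false,0,⟨0,[]⟩,⟨0,[]⟩⟩,[.o ⟨false,0,⟨5,[(0,2),(0,1),(0,0),(0,
  0),(25,2),(4,2)]⟩,⟨13,[(4,8),(8,1),(0,0),(8,1),(5,2)]⟩⟩,.e ⟨false,1,⟨1,[(4,0),(9,0),(23,0)]⟩,⟨1,
  [(0,0),(7,0),(23,0),(1,0)]⟩⟩ ⟨false,0,⟨10,[(1,3),(0,3),(9,1),(0,2),(7,5),(16,2)]⟩,⟨0,[(5,0),(1,1),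
  (21,0)]⟩⟩,.a ⟨true,1,⟨0,[(9,0)]⟩,⟨4,[(1,2),(22,0),(8,1),(5,0)]⟩⟩ ⟨false,1,⟨2,[(1,0),(2,1),(8,0),
  (11,1),(12,0)]⟩,⟨0,[(0,0),(33,0)]⟩⟩ ⟨true,(-1),⟨2,[(1,1),(0,0),(0,0)]⟩,⟨0,[(5,0),(1,1),(21,0)]⟩⟩,
  .o ⟨false,1,⟨0,[(7,0),(21,0)]⟩,⟨19,[(1,3),(2,1),(8,3),(0,7),(17,1),(0,2),(3,0)]⟩⟩]⟩))) (.I [0,0,2,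
  2,0,0,0,1] (.R ⟨0,false,false,true,[1,0,-1],[1,-1],[0,1],(⟨0,[(25,0)]⟩,⟨0,[(26,0)]⟩),(⟨0,[(29,
  0)]⟩,⟨0,[(30,0)]⟩),⟨0,[(14,0)]⟩,.k,.k,.k,.k,.k,.k,⟨true,0,⟨2,[(0,0),(1,0)]⟩,⟨0,[(35,0)]⟩⟩,⟨false,
  0,⟨0,[(6,0)]⟩,⟨19,[(3,1),(8,3),(0,11),(14,4),(2,1),(4,8)]⟩⟩,⟨true,0,⟨0,[(9,0)]⟩,⟨0,[(10,0)]⟩⟩,
  ⟨false,0,⟨1,[(1,0),(30,0),(2,2)]⟩,⟨1,[(2,1),(17,1),(7,0),(8,0)]⟩⟩,⟨false,0,⟨0,[]⟩,⟨0,[]⟩⟩,⟨false,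
  0,⟨0,[]⟩,⟨0,[]⟩⟩,[.e ⟨false,0,⟨0,[(4,0),(2,0)]⟩,⟨3,[(3,0),(8,1),(0,0),(23,0)]⟩⟩ ⟨false,0,⟨0,[(4,
  0),(1,0),(0,0),(27,0)]⟩,⟨11,[(0,1),(1,1),(10,5),(14,2),(4,5),(3,8)]⟩⟩,.o ⟨false,0,⟨0,[(35,0)]⟩,⟨5,
  [(11,1),(16,2),(5,1),(1,0)]⟩⟩,.a ⟨true,0,⟨3,[(9,0),(2,0),(0,1),(18,0)]⟩,⟨0,[(6,0)]⟩⟩ ⟨true,0,⟨0,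
  [(39,0)]⟩,⟨0,[]⟩⟩ ⟨false,0,⟨0,[(6,0),(28,0)]⟩,⟨11,[(0,1),(1,1),(10,5),(14,2),(4,5),(3,8)]⟩⟩,.o
  ⟨false,0,⟨0,[(24,0)]⟩,⟨0,[(8,0)]⟩⟩]⟩) (.K ⟨0,[2,-1,-1],(-1),(-1),(⟨0,[(25,0),(3,0)]⟩,⟨0,[(14,
  0)]⟩),.k,(.x 0 ⟨1,[(13,1),(0,1),(8,2),(0,0),(5,1)]⟩ ⟨19,[(0,11),(0,9),(5,7),(17,19),(1,39),(5,13),
  (2,0),(0,8),(1,3)]⟩),.k,(.r 0 ⟨1,[(0,0),(6,2)]⟩ ⟨13,[(1,1),(1,8),(5,5),(1,5),(1,6),(10,7),(7,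
  2)]⟩),.k,[⟨1,[(0,0),(0,1),(5,2)]⟩,⟨3,[(23,0),(0,4),(7,3),(5,1)]⟩,⟨1,[(1,0),(26,0),(5,0),(4,0)]⟩,
  ⟨0,[(22,0),(9,0),(2,0)]⟩]⟩)))) (.R ⟨0,false,false,true,[1,0,-1],[0,0,1],[1,1,0,0,0,0,0,1],(⟨0,
  [(22,0)]⟩,⟨0,[(23,0)]⟩),(⟨0,[(23,0)]⟩,⟨0,[(22,0)]⟩),⟨0,[(11,0)]⟩,.k,.k,.k,.k,.k,.k,⟨true,0,⟨0,[]⟩,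
  ⟨1,[(20,0),(0,0)]⟩⟩,⟨false,1,⟨0,[(3,0),(1,0)]⟩,⟨0,[(10,0)]⟩⟩,⟨false,1,⟨0,[(6,1),(27,0)]⟩,⟨1,[(0,
  1),(2,3),(21,0),(8,0)]⟩⟩,⟨true,1,⟨1,[(18,3),(6,0),(8,0)]⟩,⟨0,[(0,0)]⟩⟩,⟨false,0,⟨0,[]⟩,⟨0,[]⟩⟩,
  ⟨false,0,⟨0,[]⟩,⟨0,[]⟩⟩,[.e ⟨false,0,⟨0,[(1,0)]⟩,⟨0,[(0,1),(0,2),(1,3),(21,0),(8,1),(0,2)]⟩⟩
  ⟨false,1,⟨0,[(5,0),(12,0)]⟩,⟨1,[(0,0),(9,0),(23,0)]⟩⟩,.o ⟨false,1,⟨1,[(18,1),(6,0),(8,0)]⟩,⟨13,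
  [(0,4),(8,1),(0,0),(8,1),(5,2)]⟩⟩,.a ⟨true,0,⟨3,[(6,0),(2,0),(0,1),(18,0)]⟩,⟨0,[(3,0)]⟩⟩ ⟨true,0,
  ⟨0,[(6,0)]⟩,⟨0,[(4,0)]⟩⟩ ⟨false,1,⟨1,[(3,1),(14,1),(6,0),(8,0)]⟩,⟨1,[(0,0),(9,0),(23,0)]⟩⟩,.o
  ⟨false,0,⟨0,[(21,0)]⟩,⟨0,[(5,0)]⟩⟩]⟩)) (.Q [0,0,0,0,0,0,-1,-1,0,0,-1] (.p false [0,0,1] [] (⟨0,
  [(22,0)]⟩,⟨0,[(21,0)]⟩) .k 0 (⟨0,[]⟩,⟨0,[]⟩) .k .k) (.S ⟨1,0,[0,1,1,0,0,0,0,-1],[1,1,-1],[0,0,1,0,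
  0,0,0,-1],(⟨0,[(22,0),(4,0)]⟩,⟨0,[(12,0)]⟩),⟨0,[(22,0)]⟩,.k,.k,⟨true,0,⟨0,[(32,0)]⟩,⟨0,[(31,0)]⟩⟩,
  ⟨false,0,⟨0,[(32,0)]⟩,⟨3,[(8,1),(24,0),(0,0)]⟩⟩,⟨false,1,⟨1,[(6,0),(2,0),(24,0)]⟩,⟨0,[]⟩⟩,⟨true,0,
  ⟨0,[(36,0)]⟩,⟨0,[]⟩⟩,[.e ⟨false,0,⟨0,[(4,0)]⟩,⟨3,[(2,1),(3,2),(2,0),(23,0)]⟩⟩ ⟨false,0,⟨2,[(4,1),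
  (14,0),(0,0),(7,0)]⟩,⟨0,[(2,0)]⟩⟩,.o ⟨false,0,⟨0,[(0,0)]⟩,⟨1,[(18,1),(6,0),(8,0)]⟩⟩,.e ⟨false,0,
  ⟨0,[(1,0)]⟩,⟨3,[(2,1),(3,2),(2,0),(23,0)]⟩⟩ ⟨false,0,⟨1,[(1,0),(17,0),(0,0)]⟩,⟨0,[(2,0)]⟩⟩,.a
  ⟨true,0,⟨3,[(6,0),(2,0),(0,1),(18,0)]⟩,⟨0,[(3,0)]⟩⟩ ⟨true,0,⟨0,[(4,0)]⟩,⟨0,[(6,0)]⟩⟩ ⟨false,0,⟨0,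
  [(4,0)]⟩,⟨0,[(6,0),(27,0)]⟩⟩]⟩) (.R ⟨2,false,false,true,[0,1],[0,0,1],[0,0,1],(⟨0,[]⟩,⟨0,[]⟩),(⟨0,
  [(23,0)]⟩,⟨0,[(22,0)]⟩),⟨0,[]⟩,.k,.k,.k,.k,.k,.k,⟨true,0,⟨0,[(1,0)]⟩,⟨0,[(6,0)]⟩⟩,⟨false,0,⟨0,[(3,
  0)]⟩,⟨3,[(6,0),(2,0),(0,1),(14,0),(7,1)]⟩⟩,⟨true,0,⟨0,[(32,0)]⟩,⟨0,[(31,0)]⟩⟩,⟨false,0,⟨0,[(0,0),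
  (31,0)]⟩,⟨6,[(1,3),(6,0),(1,1),(8,2),(5,0),(4,4),(3,4)]⟩⟩,⟨false,1,⟨1,[(6,0),(2,0),(24,0)]⟩,⟨0,
  []⟩⟩,⟨false,0,⟨0,[(0,0)]⟩,⟨0,[(19,0),(14,0)]⟩⟩,[.a ⟨true,0,⟨0,[(18,0)]⟩,⟨0,[(1,0),(15,0)]⟩⟩ ⟨true,
  0,⟨1,[(20,0),(0,0)]⟩,⟨0,[]⟩⟩ ⟨false,0,⟨0,[(18,0)]⟩,⟨1,[(4,1),(12,1),(7,0),(8,0)]⟩⟩,.e ⟨false,1,⟨1,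
  [(6,0),(2,0),(24,0)]⟩,⟨0,[(30,0),(1,0)]⟩⟩ ⟨false,0,⟨0,[(0,0)]⟩,⟨1,[(19,1),(13,0),(0,0)]⟩⟩,.o
  ⟨false,1,⟨1,[(25,0),(7,0)]⟩,⟨1,[(20,0),(0,0)]⟩⟩,.fo]⟩))) (.S ⟨1,0,[0,0,1,0,0,0,0,-1],[1,1,-1],[0,
  1,1,0,0,0,0,-1],(⟨0,[(20,0),(4,0)]⟩,⟨0,[(10,0)]⟩),⟨0,[(20,0)]⟩,.k,.k,⟨false,0,⟨0,[(30,0)]⟩,⟨3,[(6,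
  1),(24,0),(0,0)]⟩⟩,⟨true,0,⟨0,[(30,0)]⟩,⟨0,[(29,0)]⟩⟩,⟨true,0,⟨0,[(34,0)]⟩,⟨0,[]⟩⟩,⟨false,1,⟨1,
  [(4,0),(2,0),(24,0)]⟩,⟨0,[]⟩⟩,[.o ⟨false,0,⟨1,[(0,1),(14,1),(7,0),(8,0)]⟩,⟨1,[(16,1),(6,0),(8,
  0)]⟩⟩,.a ⟨true,0,⟨0,[(0,0),(14,0),(16,0)]⟩,⟨0,[(16,0)]⟩⟩ ⟨false,0,⟨0,[(2,0)]⟩,⟨1,[(4,1),(26,0),(0,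
  0)]⟩⟩ ⟨true,0,⟨0,[(0,0),(31,0)]⟩,⟨0,[(4,0)]⟩⟩,.a ⟨true,0,⟨0,[(15,0)]⟩,⟨0,[(18,0)]⟩⟩ ⟨true,(-1),⟨0,
  [(0,0)]⟩,⟨1,[(4,1),(26,0),(0,0)]⟩⟩ ⟨false,0,⟨0,[(0,0),(31,0)]⟩,⟨1,[(4,1),(26,0),(0,0)]⟩⟩,.a ⟨true,
  0,⟨3,[(4,0),(2,0),(0,1),(18,0)]⟩,⟨0,[(1,0)]⟩⟩ ⟨false,0,⟨0,[(2,0)]⟩,⟨0,[(4,0),(27,0)]⟩⟩ ⟨true,0,⟨0,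
  [(2,0)]⟩,⟨0,[(4,0)]⟩⟩]⟩)) (.I [1,1,-1,0,0,0,0,1] (.S ⟨1,0,[0,0,1,0,0,0,0,-1],[1,1,-1],[0,1,1,0,0,
  0,0,-1],(⟨0,[(20,0),(4,0)]⟩,⟨0,[(10,0)]⟩),⟨0,[(20,0)]⟩,.k,.k,⟨false,0,⟨0,[(30,0)]⟩,⟨3,[(6,1),(24,
  0),(0,0)]⟩⟩,⟨true,0,⟨0,[(30,0)]⟩,⟨0,[(29,0)]⟩⟩,⟨true,0,⟨0,[(34,0)]⟩,⟨0,[]⟩⟩,⟨false,1,⟨1,[(4,0),(2,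
  0),(24,0)]⟩,⟨0,[]⟩⟩,[.o ⟨false,0,⟨0,[(1,0),(0,0)]⟩,⟨1,[(16,1),(6,0),(8,0)]⟩⟩,.e ⟨false,0,⟨0,[(2,
  0)]⟩,⟨1,[(4,1),(26,0),(0,0)]⟩⟩ ⟨false,1,⟨0,[(2,0),(25,0),(1,0),(1,0),(0,0)]⟩,⟨0,[(0,0)]⟩⟩,.a
  ⟨true,0,⟨0,[(15,0)]⟩,⟨0,[(18,0)]⟩⟩ ⟨false,0,⟨1,[(2,1),(15,0),(0,0)]⟩,⟨0,[(0,0),(31,0)]⟩⟩ ⟨true,0,
  ⟨1,[(2,1),(15,0),(0,0)]⟩,⟨0,[(0,0)]⟩⟩,.o ⟨false,0,⟨0,[(1,0)]⟩,⟨2,[(3,0),(3,0),(8,0),(1,0),(4,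
  0)]⟩⟩]⟩) (.R ⟨0,false,false,false,[1,0,-1],[1,-1],[1,1],(⟨0,[(20,0)]⟩,⟨0,[(21,0)]⟩),(⟨0,[(24,0)]⟩,
  ⟨0,[(25,0)]⟩),⟨0,[(9,0)]⟩,.k,.k,.k,.k,.k,.k,⟨false,0,⟨0,[(29,0)]⟩,⟨1,[(30,1),(0,0),(0,0)]⟩⟩,⟨true,
  0,⟨0,[(18,0)]⟩,⟨0,[(1,0)]⟩⟩,⟨true,0,⟨0,[(4,0)]⟩,⟨0,[(2,0)]⟩⟩,⟨false,1,⟨0,[(16,0),(13,0),(1,0)]⟩,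
  ⟨0,[(0,0),(0,0),(26,0)]⟩⟩,⟨false,0,⟨0,[]⟩,⟨0,[]⟩⟩,⟨false,0,⟨0,[]⟩,⟨0,[]⟩⟩,[.o ⟨false,0,⟨0,[(30,
  0)]⟩,⟨5,[(6,1),(16,2),(5,1),(1,0)]⟩⟩,.a ⟨true,0,⟨1,[(27,0),(2,1),(1,0)]⟩,⟨0,[(29,0)]⟩⟩ ⟨true,0,⟨0,
  []⟩,⟨1,[(18,0),(0,0)]⟩⟩ ⟨false,1,⟨1,[(3,1),(23,0),(2,1),(1,0)]⟩,⟨0,[(19,0),(8,0)]⟩⟩,.o ⟨false,0,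
  ⟨0,[(1,0)]⟩,⟨2,[(3,0),(3,0),(8,0),(1,0),(4,0)]⟩⟩,.o ⟨false,0,⟨0,[(19,0)]⟩,⟨0,[(3,0)]⟩⟩]⟩))) (.N
  [0,0,1] 0 ⟨0,[(0,0)]⟩ ⟨0,[(3,0)]⟩ .k)) (.R ⟨0,false,false,false,[-1,1,1],[0,1],[1,0,1],(⟨0,[(6,
  0)]⟩,⟨0,[(17,0),(3,0)]⟩),(⟨0,[(22,0)]⟩,⟨0,[(21,0)]⟩),⟨0,[(17,0)]⟩,.k,.k,.k,.k,.k,.k,⟨true,0,⟨0,
  [(27,0)]⟩,⟨1,[(0,1),(14,1),(4,0),(4,1),(3,0)]⟩⟩,⟨false,0,⟨0,[(12,0)]⟩,⟨1,[(15,1),(4,0),(7,0)]⟩⟩,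
  ⟨true,0,⟨0,[(2,0),(24,0)]⟩,⟨1,[(0,1),(12,1),(6,0),(4,1),(3,0)]⟩⟩,⟨false,0,⟨1,[(0,0),(1,1),(9,0),
  (16,0)]⟩,⟨1,[(13,1),(6,0),(8,0)]⟩⟩,⟨false,0,⟨0,[]⟩,⟨0,[]⟩⟩,⟨false,0,⟨0,[]⟩,⟨0,[]⟩⟩,[.o ⟨false,1,
  ⟨5,[(3,1),(16,2),(5,1),(1,0)]⟩,⟨0,[(27,0)]⟩⟩,.e ⟨false,1,⟨1,[(1,0),(2,0),(24,0)]⟩,⟨0,[(25,0),(1,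
  0)]⟩⟩ ⟨false,0,⟨0,[(0,0),(24,0),(3,0)]⟩,⟨1,[(2,1),(10,1),(6,0),(6,1),(0,0)]⟩⟩,.o ⟨false,2,⟨0,[(15,
  0),(4,0),(7,0)]⟩,⟨0,[(0,0)]⟩⟩,.a ⟨true,1,⟨1,[(15,1),(4,0),(7,0)]⟩,⟨9,[(0,5),(11,3),(11,4),(0,1),
  (1,1),(1,0)]⟩⟩ ⟨true,0,⟨0,[]⟩,⟨0,[(31,0)]⟩⟩ ⟨false,0,⟨0,[(0,0),(24,0),(3,0)]⟩,⟨1,[(15,1),(4,0),(6,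
  1),(0,0)]⟩⟩]⟩)) (.I [0,0,1,1] (.R ⟨0,false,false,true,[1,0,-1],[1,-1],[0,1],(⟨0,[(17,0)]⟩,⟨0,[(18,
  0)]⟩),(⟨0,[(21,0)]⟩,⟨0,[(22,0)]⟩),⟨0,[(6,0)]⟩,.k,.k,.k,.k,.k,.k,⟨true,0,⟨0,[(0,0)]⟩,⟨0,[(27,0)]⟩⟩,
  ⟨false,0,⟨0,[(1,0),(11,0)]⟩,⟨3,[(5,1),(2,0),(0,0),(10,0),(7,1)]⟩⟩,⟨false,1,⟨3,[(5,1),(2,0),(0,0),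
  (3,3),(6,0),(8,1)]⟩,⟨0,[(1,0)]⟩⟩,⟨true,0,⟨0,[(13,0),(13,0)]⟩,⟨0,[(1,0),(14,0),(8,0)]⟩⟩,⟨false,0,
  ⟨0,[]⟩,⟨0,[]⟩⟩,⟨false,0,⟨0,[]⟩,⟨0,[]⟩⟩,[.e ⟨false,0,⟨0,[(25,0),(1,0)]⟩,⟨1,[(8,0),(0,0),(19,0)]⟩⟩
  ⟨false,0,⟨0,[(1,0),(11,0),(11,0),(1,1)]⟩,⟨3,[(0,1),(4,1),(14,0),(4,1),(3,2)]⟩⟩,.o ⟨false,0,⟨0,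
  [(27,0)]⟩,⟨5,[(3,1),(16,2),(5,1),(1,0)]⟩⟩,.a ⟨true,0,⟨23,[(4,3),(0,13),(7,3),(10,4),(4,0),(1,1)]⟩,
  ⟨0,[(1,0),(11,0)]⟩⟩ ⟨true,0,⟨0,[(31,0)]⟩,⟨0,[]⟩⟩ ⟨false,0,⟨0,[(1,0),(11,0),(13,0)]⟩,⟨3,[(0,1),(4,
  1),(14,0),(4,1),(3,2)]⟩⟩,.o ⟨false,0,⟨0,[(16,0)]⟩,⟨1,[(1,1),(11,1),(6,0),(7,0)]⟩⟩]⟩) (.Q [0,0,0,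
  -1,-1,0,-1,-1,0,1,-1] (.p false [0,0,1] [1] (⟨0,[(18,0)]⟩,⟨0,[(17,0)]⟩) .k 1 (⟨0,[]⟩,⟨0,[]⟩) .k
  .k) (.R ⟨2,true,false,false,[0,1],[1,0,-1],[0,1,1],(⟨0,[]⟩,⟨0,[]⟩),(⟨0,[(18,0)]⟩,⟨0,[(19,0)]⟩),⟨0,
  []⟩,.k,.k,.k,.k,.k,.k,⟨true,0,⟨0,[(14,0),(2,0)]⟩,⟨0,[(2,0)]⟩⟩,⟨false,0,⟨23,[(5,3),(0,13),(7,3),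
  (10,4),(4,0),(1,1)]⟩,⟨1,[(2,1),(11,1),(6,0),(7,0)]⟩⟩,⟨false,0,⟨0,[(28,0)]⟩,⟨3,[(4,1),(24,0),(0,
  0)]⟩⟩,⟨true,(-1),⟨0,[(0,0)]⟩,⟨5,[(4,1),(9,5),(6,2),(5,1),(1,0)]⟩⟩,⟨true,0,⟨0,[(32,0)]⟩,⟨0,[]⟩⟩,
  ⟨false,0,⟨9,[(0,3),(1,3),(1,1),(0,1),(0,1),(6,1),(11,0),(4,0)]⟩,⟨1,[(14,1),(6,0),(8,0)]⟩⟩,[]⟩)
  (.S ⟨1,0,[0,0,0,-1,0,0,0,1],[0,0,1],[1],(⟨0,[(19,0)]⟩,⟨0,[(18,0)]⟩),⟨0,[(8,0)]⟩,.k,.k,⟨false,0,⟨0,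
  [(2,0)]⟩,⟨3,[(0,1),(5,1),(2,0),(0,0),(3,1),(13,1),(1,0)]⟩⟩,⟨true,0,⟨0,[(28,0)]⟩,⟨0,[(27,0)]⟩⟩,
  ⟨true,0,⟨0,[(2,0),(24,0)]⟩,⟨0,[(1,0),(12,0),(2,0)]⟩⟩,⟨false,1,⟨1,[(9,0),(0,0),(19,0)]⟩,⟨0,[]⟩⟩,
  [.o ⟨false,1,⟨0,[(0,0),(27,1)]⟩,⟨0,[(2,0),(14,0),(8,0)]⟩⟩,.e ⟨false,1,⟨1,[(29,0),(0,0)]⟩,⟨0,[(32,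
  0)]⟩⟩ ⟨false,1,⟨1,[(0,1),(0,3),(15,1),(7,0),(4,0)]⟩,⟨0,[(3,0),(23,0)]⟩⟩,.a ⟨true,0,⟨0,[(2,0),(11,
  0)]⟩,⟨23,[(5,3),(0,13),(7,3),(10,4),(4,0),(1,1)]⟩⟩ ⟨true,0,⟨0,[]⟩,⟨0,[(32,0)]⟩⟩ ⟨false,1,⟨0,[(1,
  0),(12,0),(2,0),(12,0)]⟩,⟨0,[(2,0),(24,0)]⟩⟩,.e ⟨false,1,⟨1,[(29,0),(0,0)]⟩,⟨1,[(16,0),(0,0)]⟩⟩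
  ⟨false,1,⟨1,[(0,1),(0,3),(15,1),(7,0),(4,0)]⟩,⟨1,[(2,1),(13,0),(0,0),(9,1)]⟩⟩]⟩))))

theorem ok2 : chk K t2 l2 = true := by decide +kernel

noncomputable def t3 : Tre :=
  (.Q [0,1,0,1,0,0,-1,-1,0,0,-1] (.p false [0,0,1] [] (⟨0,[(16,0)]⟩,⟨0,[(15,0)]⟩) .k 0 (⟨0,[]⟩,⟨0,
  []⟩) .k .k) (.Q [0,0,0,0,0,0,-1,0,0,0,-1] (.p false [0,0,1] [] (⟨0,[(17,0)]⟩,⟨0,[(16,0)]⟩) .k 0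
  (⟨0,[]⟩,⟨0,[]⟩) .k .k) (.Q [0,-1,0,-1,1,0,1,1,0,-1,1] (.p true [0,0,1] [1] (⟨0,[(18,0)]⟩,⟨0,[(17,
  0)]⟩) .k 1 (⟨0,[]⟩,⟨0,[]⟩) .k .k) (.Q [0,0,-1,0,1,0,1,0,0,-1,1] (.p true [0,0,1] [1] (⟨0,[(19,
  0)]⟩,⟨0,[(18,0)]⟩) .k 1 (⟨0,[]⟩,⟨0,[]⟩) .k .k) (.I [1,0,1,1] (.I [1,1,1,1,-1,0,0,1] (.R ⟨0,false,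
  false,false,[1,0,-1],[2,-1,-1],[1,0,0,0,0,0,0,-1],(⟨0,[(21,0)]⟩,⟨0,[(22,0)]⟩),(⟨0,[(21,0),(3,0)]⟩,
  ⟨0,[(10,0)]⟩),⟨0,[(10,0)]⟩,.k,.k,.k,.k,.k,.k,⟨true,0,⟨0,[(1,0)]⟩,⟨0,[(31,0)]⟩⟩,⟨false,0,⟨11,[(8,
  3),(0,1),(7,3),(10,4),(4,0),(1,1)]⟩,⟨1,[(24,0),(7,0)]⟩⟩,⟨true,0,⟨0,[]⟩,⟨0,[(35,0)]⟩⟩,⟨false,0,⟨1,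
  [(28,0),(2,1),(1,0)]⟩,⟨5,[(7,1),(16,2),(5,1),(1,0)]⟩⟩,⟨false,0,⟨0,[]⟩,⟨0,[]⟩⟩,⟨false,0,⟨0,[]⟩,⟨0,
  []⟩⟩,[.o ⟨false,0,⟨1,[(18,1),(9,0),(2,1),(1,0)]⟩,⟨1,[(0,1),(1,1),(21,0),(8,0)]⟩⟩,.a ⟨true,0,⟨0,
  [(18,0),(9,0),(2,0),(1,0)]⟩,⟨0,[(0,0),(1,0)]⟩⟩ ⟨true,1,⟨0,[(8,0)]⟩,⟨0,[(0,0),(30,0)]⟩⟩ ⟨false,1,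
  ⟨1,[(8,1),(19,0),(2,1),(0,0)]⟩,⟨1,[(0,1),(23,0),(7,0)]⟩⟩,.o ⟨false,0,⟨0,[(4,0)]⟩,⟨2,[(2,0),(5,0),
  (8,0),(1,0),(4,0)]⟩⟩,.o ⟨false,0,⟨0,[(20,0)]⟩,⟨0,[(2,0)]⟩⟩]⟩) (.Q [0,0,0,-1,0,0,1,1,0,0,1] (.p
  true [0,0,1] [] (⟨0,[(22,0)]⟩,⟨0,[(21,0)]⟩) .k 0 (⟨0,[]⟩,⟨0,[]⟩) .k .k) (.R ⟨0,false,false,false,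
  [1,0,-1],[1,-1],[1,1],(⟨0,[(22,0)]⟩,⟨0,[(23,0)]⟩),(⟨0,[(26,0)]⟩,⟨0,[(27,0)]⟩),⟨0,[(11,0)]⟩,.k,.k,
  .k,.k,.k,.k,⟨false,0,⟨0,[(31,0)]⟩,⟨1,[(1,0),(2,0),(12,0)]⟩⟩,⟨true,0,⟨0,[(20,0)]⟩,⟨0,[(5,0)]⟩⟩,
  ⟨false,0,⟨0,[(7,0)]⟩,⟨1,[(1,0),(4,0),(13,0),(13,0)]⟩⟩,⟨true,0,⟨0,[(0,0)]⟩,⟨0,[(6,0)]⟩⟩,⟨false,0,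
  ⟨0,[]⟩,⟨0,[]⟩⟩,⟨false,0,⟨0,[]⟩,⟨0,[]⟩⟩,[.o ⟨false,0,⟨0,[(32,0)]⟩,⟨5,[(8,1),(16,2),(5,1),(1,0)]⟩⟩,
  .a ⟨true,0,⟨1,[(29,0),(2,1),(1,0)]⟩,⟨0,[(31,0)]⟩⟩ ⟨true,0,⟨0,[]⟩,⟨1,[(20,0),(0,0)]⟩⟩ ⟨false,1,⟨1,
  [(1,0),(1,0),(0,0),(24,0)]⟩,⟨0,[(6,0),(0,0)]⟩⟩,.o ⟨false,0,⟨0,[(5,0)]⟩,⟨2,[(3,0),(5,0),(8,0),(1,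
  0),(4,0)]⟩⟩,.o ⟨false,0,⟨0,[(21,0)]⟩,⟨0,[(3,0)]⟩⟩]⟩) (.S ⟨1,0,[0,0,0,-1,0,0,0,1],[0,0,1],[1,1,0,0,
  0,0,0,1],(⟨0,[(23,0)]⟩,⟨0,[(22,0)]⟩),⟨0,[(12,0)]⟩,.k,.k,⟨false,0,⟨0,[]⟩,⟨14,[(1,4),(2,4),(3,4),(0,
  0),(0,2),(7,0),(10,0)]⟩⟩,⟨true,0,⟨0,[(32,0)]⟩,⟨0,[(31,0)]⟩⟩,⟨true,0,⟨0,[(31,0)]⟩,⟨0,[(32,0)]⟩⟩,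
  ⟨false,1,⟨14,[(1,4),(2,4),(3,4),(0,0),(0,2),(7,0),(10,0)]⟩,⟨0,[]⟩⟩,[.o ⟨false,1,⟨0,[(4,0),(31,
  0)]⟩,⟨0,[(0,0)]⟩⟩,.o ⟨false,1,⟨0,[(4,0)]⟩,⟨0,[(6,0)]⟩⟩,.o ⟨false,1,⟨2,[(3,0),(5,0),(8,0),(1,0),(4,
  0)]⟩,⟨0,[(5,0)]⟩⟩,.a ⟨true,0,⟨0,[(20,0)]⟩,⟨0,[(17,0)]⟩⟩ ⟨true,0,⟨0,[(7,0),(22,0),(1,0)]⟩,⟨0,[(0,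
  0),(19,0),(11,0)]⟩⟩ ⟨false,1,⟨0,[(4,0),(12,0)]⟩,⟨0,[(0,0),(19,0)]⟩⟩]⟩))) (.R ⟨0,false,false,false,
  [1,0,-1],[1,-1],[1,1],(⟨0,[(20,0)]⟩,⟨0,[(21,0)]⟩),(⟨0,[(24,0)]⟩,⟨0,[(25,0)]⟩),⟨0,[(9,0)]⟩,.k,.k,
  .k,.k,.k,.k,⟨false,0,⟨0,[(29,0)]⟩,⟨1,[(0,0),(1,0),(4,0),(7,0)]⟩⟩,⟨true,0,⟨0,[(18,0)]⟩,⟨0,[(3,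
  0)]⟩⟩,⟨false,0,⟨0,[(5,0)]⟩,⟨0,[(0,0),(3,0),(13,0),(13,0)]⟩⟩,⟨true,0,⟨0,[(0,0),(4,0),(12,0)]⟩,⟨0,
  [(4,0)]⟩⟩,⟨false,0,⟨0,[]⟩,⟨0,[]⟩⟩,⟨false,0,⟨0,[]⟩,⟨0,[]⟩⟩,[.o ⟨false,0,⟨0,[(30,0)]⟩,⟨5,[(6,1),(16,
  2),(5,1),(1,0)]⟩⟩,.a ⟨true,0,⟨1,[(27,0),(2,1),(1,0)]⟩,⟨0,[(29,0)]⟩⟩ ⟨true,0,⟨0,[]⟩,⟨1,[(18,0),(0,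
  0)]⟩⟩ ⟨false,1,⟨1,[(0,0),(0,0),(0,0),(4,0),(19,0)]⟩,⟨0,[(4,0),(0,0)]⟩⟩,.o ⟨false,0,⟨0,[(3,0)]⟩,⟨2,
  [(1,0),(5,0),(8,0),(1,0),(4,0)]⟩⟩,.o ⟨false,0,⟨0,[(19,0)]⟩,⟨0,[(1,0)]⟩⟩]⟩)) (.Q [0,1,0,0,0,0,1,1,
  0,-1,1] (.p true [0,0,1] [1] (⟨0,[(20,0)]⟩,⟨0,[(19,0)]⟩) .k 1 (⟨0,[]⟩,⟨0,[]⟩) .k .k) (.R ⟨0,false,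
  false,false,[-1,1,1],[0,1],[1,0,1],(⟨0,[(9,0)]⟩,⟨0,[(20,0),(3,0)]⟩),(⟨0,[(25,0)]⟩,⟨0,[(24,0)]⟩),
  ⟨0,[(20,0)]⟩,.k,.k,.k,.k,.k,.k,⟨true,0,⟨0,[(30,0)]⟩,⟨1,[(1,1),(16,1),(4,0),(4,1),(3,0)]⟩⟩,⟨false,
  0,⟨0,[(15,0)]⟩,⟨0,[(0,0),(6,0)]⟩⟩,⟨false,1,⟨0,[(7,0),(22,0)]⟩,⟨0,[(0,0),(0,0),(26,0),(3,0)]⟩⟩,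
  ⟨true,0,⟨1,[(17,1),(9,0),(4,0)]⟩,⟨0,[(0,0)]⟩⟩,⟨false,0,⟨0,[]⟩,⟨0,[]⟩⟩,⟨false,0,⟨0,[]⟩,⟨0,[]⟩⟩,[.o
  ⟨false,1,⟨5,[(6,1),(16,2),(5,1),(1,0)]⟩,⟨0,[(30,0)]⟩⟩,.e ⟨false,1,⟨9,[(2,3),(3,1),(0,3),(0,1),(18,
  0),(3,0)]⟩,⟨0,[(28,0),(1,0)]⟩⟩ ⟨false,0,⟨0,[(1,0),(26,0),(3,0)]⟩,⟨0,[(0,0),(6,0),(20,0),(1,1)]⟩⟩,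
  .o ⟨false,2,⟨1,[(0,1),(6,1),(15,0),(7,0)]⟩,⟨0,[(1,0)]⟩⟩,.a ⟨true,1,⟨0,[(0,0),(6,0)]⟩,⟨9,[(1,5),
  (13,3),(11,4),(0,1),(1,1),(1,0)]⟩⟩ ⟨true,0,⟨0,[]⟩,⟨0,[(34,0)]⟩⟩ ⟨false,0,⟨0,[(1,0),(26,0),(3,0)]⟩,
  ⟨0,[(0,0),(6,0),(22,0)]⟩⟩]⟩) (.Q [0,1,0,0,-1,0,-1,-1,0,1,-1] (.p false [0,0,1] [1] (⟨0,[(21,0)]⟩,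
  ⟨0,[(20,0)]⟩) .k 1 (⟨0,[]⟩,⟨0,[]⟩) .k .k) (.R ⟨2,true,false,true,[0,1],[1,1,-1],[1,1,1,1],(⟨0,[]⟩,
  ⟨0,[]⟩),(⟨0,[(21,0),(4,0)]⟩,⟨0,[(11,0)]⟩),⟨0,[]⟩,.k,.k,.k,.k,.k,.k,⟨true,0,⟨0,[(6,0)]⟩,⟨1,[(0,0),
  (0,0),(17,1),(4,0)]⟩⟩,⟨false,0,⟨0,[(16,0)]⟩,⟨1,[(19,1),(4,0),(7,0)]⟩⟩,⟨false,0,⟨0,[]⟩,⟨9,[(3,3),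
  (3,1),(0,3),(0,1),(18,0),(3,0)]⟩⟩,⟨true,(-1),⟨0,[(0,0)]⟩,⟨9,[(3,3),(3,1),(9,5),(6,2),(7,0)]⟩⟩,
  ⟨true,0,⟨0,[(30,0)]⟩,⟨0,[(31,0)]⟩⟩,⟨false,0,⟨11,[(1,5),(3,5),(1,1),(20,2),(1,1),(1,0)]⟩,⟨0,[(3,
  0)]⟩⟩,[]⟩) (.I [0,0,1,0,0,0,0,-1] (.R ⟨0,false,false,true,[-1,1,1],[0,1],[1,1,1],(⟨0,[(11,0)]⟩,⟨0,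
  [(22,0),(3,0)]⟩),(⟨0,[(27,0)]⟩,⟨0,[(26,0)]⟩),⟨0,[(22,0)]⟩,.k,.k,.k,.k,.k,.k,⟨true,0,⟨0,[(32,0)]⟩,
  ⟨0,[(0,0),(0,0),(1,0),(26,0)]⟩⟩,⟨false,0,⟨0,[(17,0)]⟩,⟨1,[(20,1),(4,0),(7,0)]⟩⟩,⟨true,0,⟨0,[(0,0),
  (29,0),(1,1)]⟩,⟨0,[(1,0),(1,0),(26,0)]⟩⟩,⟨false,0,⟨6,[(2,1),(6,1),(0,0),(8,2),(9,1),(6,0)]⟩,⟨0,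
  [(1,0)]⟩⟩,⟨false,0,⟨0,[]⟩,⟨0,[]⟩⟩,⟨false,0,⟨0,[]⟩,⟨0,[]⟩⟩,[.e ⟨false,0,⟨0,[(36,0)]⟩,⟨1,[(33,0),(0,
  0)]⟩⟩ ⟨false,(-1),⟨0,[(3,0),(26,0)]⟩,⟨3,[(4,1),(4,1),(10,1),(4,0),(6,1),(0,2)]⟩⟩,.o ⟨false,1,⟨5,
  [(8,1),(16,2),(5,1),(1,0)]⟩,⟨0,[(32,0)]⟩⟩,.o ⟨false,2,⟨0,[(20,0),(4,0),(7,0)]⟩,⟨0,[(3,0)]⟩⟩,.a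
  ⟨true,1,⟨1,[(20,1),(4,0),(7,0)]⟩,⟨5,[(2,0),(0,2),(3,0),(9,1),(11,2),(0,0),(1,0)]⟩⟩ ⟨false,0,⟨0,
  []⟩,⟨9,[(4,3),(3,1),(0,3),(0,1),(18,0),(3,0)]⟩⟩ ⟨true,(-1),⟨0,[(3,0),(26,0)]⟩,⟨1,[(20,1),(4,0),(6,
  1),(0,0)]⟩⟩]⟩) (.S ⟨1,0,[0,0,0,-1,0,0,0,1],[0,0,1],[1,1,0,0,0,0,0,1],(⟨0,[(23,0)]⟩,⟨0,[(22,0)]⟩),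
  ⟨0,[(12,0)]⟩,.k,.k,⟨false,0,⟨0,[]⟩,⟨9,[(4,3),(3,1),(0,3),(0,1),(18,0),(3,0)]⟩⟩,⟨true,0,⟨0,[(32,
  0)]⟩,⟨0,[(31,0)]⟩⟩,⟨true,0,⟨0,[(31,0)]⟩,⟨0,[(32,0)]⟩⟩,⟨false,1,⟨9,[(4,3),(3,1),(0,3),(0,1),(18,0),
  (3,0)]⟩,⟨0,[]⟩⟩,[.e ⟨false,0,⟨1,[(0,0),(6,0),(20,0)]⟩,⟨1,[(2,1),(17,1),(4,0),(4,1),(1,1),(1,0)]⟩⟩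
  ⟨false,0,⟨0,[(0,0),(31,0)]⟩,⟨0,[(9,0),(21,0)]⟩⟩,.o ⟨false,1,⟨0,[(4,0)]⟩,⟨0,[(6,0)]⟩⟩,.o ⟨false,1,
  ⟨1,[(20,1),(4,0),(7,0)]⟩,⟨0,[(5,0)]⟩⟩,.a ⟨true,0,⟨0,[(20,0)]⟩,⟨0,[(17,0)]⟩⟩ ⟨false,0,⟨0,[(0,0)]⟩,
  ⟨1,[(9,1),(10,0),(0,0)]⟩⟩ ⟨true,0,⟨0,[(0,0),(31,0)]⟩,⟨0,[(6,0),(13,0)]⟩⟩]⟩))))) (.Q [0,0,0,2,0,0,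
  -1,-1,0,0,-1] (.p false [0,0,1] [] (⟨0,[(19,0)]⟩,⟨0,[(18,0)]⟩) .k 0 (⟨0,[]⟩,⟨0,[]⟩) .k .k) (.Q [0,
  -1,-1,0,2,0,2,1,0,-2,2] (.p true [0,0,1] [2,-1,-1] (⟨0,[(20,0)]⟩,⟨0,[(19,0)]⟩) .k 2 (⟨0,[(19,0),
  (3,0)]⟩,⟨0,[(8,0)]⟩) .k (.r 0 ⟨0,[(4,1)]⟩ ⟨2,[(1,1),(4,3),(10,1),(4,0),(4,1),(1,3)]⟩)) (.R ⟨0,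
  false,false,true,[-1,1,1],[1,0,-1],[1,1],(⟨0,[(9,0)]⟩,⟨0,[(20,0),(3,0)]⟩),(⟨0,[(20,0)]⟩,⟨0,[(21,
  0)]⟩),⟨0,[(20,0)]⟩,.k,.k,.k,(.r 0 ⟨3,[(1,1),(3,9),(12,2),(0,0)]⟩ ⟨0,[(0,0),(1,1),(4,0),(22,2)]⟩),
  .k,.k,⟨true,0,⟨0,[(5,0)]⟩,⟨1,[(2,1),(15,1),(4,0),(6,1),(1,0)]⟩⟩,⟨false,(-1),⟨5,[(2,1),(0,9),(1,1),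
  (21,4),(2,1),(1,0)]⟩,⟨1,[(0,2),(1,1),(14,0),(0,0),(11,1)]⟩⟩,⟨true,0,⟨0,[(0,0),(1,1),(27,2)]⟩,⟨3,
  [(1,1),(3,5),(12,2),(0,0)]⟩⟩,⟨false,(-1),⟨0,[(2,1),(27,2),(1,0)]⟩,⟨5,[(0,4),(0,1),(3,8),(0,0),(11,
  3),(4,0)]⟩⟩,⟨false,0,⟨0,[]⟩,⟨0,[]⟩⟩,⟨false,0,⟨0,[]⟩,⟨0,[]⟩⟩,[.e ⟨false,0,⟨0,[(28,0),(1,0)]⟩,⟨9,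
  [(0,0),(6,3),(0,1),(7,2),(2,0),(12,3)]⟩⟩ ⟨false,(-1),⟨1,[(2,0),(5,0),(8,0),(9,0),(2,0)]⟩,⟨0,[(0,
  0)]⟩⟩,.o ⟨false,0,⟨1,[(2,1),(20,0),(6,1),(1,0)]⟩,⟨1,[(0,0),(15,0),(2,0)]⟩⟩,.e ⟨false,0,⟨0,[]⟩,⟨9,
  [(0,0),(6,3),(0,1),(7,2),(2,0),(12,3)]⟩⟩ ⟨false,(-1),⟨1,[(2,1),(16,1),(7,0),(2,1),(1,0)]⟩,⟨0,[(0,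
  0)]⟩⟩,.a ⟨true,1,⟨1,[(0,0),(16,0),(0,0)]⟩,⟨5,[(2,1),(0,3),(1,1),(21,4),(2,1),(1,0)]⟩⟩ ⟨true,0,⟨0,
  [(28,0),(1,0)]⟩,⟨1,[(18,0),(0,0)]⟩⟩ ⟨false,(-1),⟨1,[(2,1),(0,1),(23,0),(2,1),(1,0)]⟩,⟨1,[(0,1),
  (17,0),(0,0)]⟩⟩]⟩) (.I [1,1,2,2,-1,0,0,1] (.Q [0,0,1,0,-1,0,-1,0,0,1,-1] (.p false [0,0,1] [1]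
  (⟨0,[(22,0)]⟩,⟨0,[(21,0)]⟩) .k 1 (⟨0,[]⟩,⟨0,[]⟩) .k .k) (.I [1,-1,-1,0,1,0,0,-1] (.R ⟨0,false,
  false,true,[1,0,-1],[0,1],[1,0,0,0,0,0,0,-1],(⟨0,[(23,0)]⟩,⟨0,[(24,0)]⟩),(⟨0,[(28,0)]⟩,⟨0,[(27,
  0)]⟩),⟨0,[(12,0)]⟩,.k,.k,.k,.k,.k,.k,⟨true,1,⟨0,[(0,0),(32,0)]⟩,⟨0,[(2,0),(30,0)]⟩⟩,⟨false,2,⟨1,
  [(0,1),(18,1),(6,0),(7,0)]⟩,⟨0,[(1,0)]⟩⟩,⟨true,0,⟨0,[]⟩,⟨0,[(37,0)]⟩⟩,⟨false,1,⟨1,[(8,1),(12,1),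
  (4,0),(4,1),(3,0)]⟩,⟨1,[(0,0),(2,0),(29,1),(1,0)]⟩⟩,⟨false,0,⟨0,[]⟩,⟨0,[]⟩⟩,⟨false,0,⟨0,[]⟩,⟨0,
  []⟩⟩,[.e ⟨false,1,⟨1,[(0,0),(9,0),(18,0)]⟩,⟨0,[(8,0)]⟩⟩ ⟨false,1,⟨1,[(0,0),(18,0),(1,0),(4,0),(4,
  1)]⟩,⟨1,[(1,0),(16,0),(14,1),(1,0)]⟩⟩,.o ⟨false,1,⟨5,[(9,1),(16,2),(5,1),(1,0)]⟩,⟨0,[(33,0)]⟩⟩,.o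
  ⟨false,0,⟨0,[(6,0)]⟩,⟨1,[(0,0),(18,0),(1,0),(4,0)]⟩⟩,.a ⟨true,(-1),⟨0,[(1,0)]⟩,⟨0,[(0,0),(18,
  0)]⟩⟩ ⟨false,1,⟨0,[(0,0)]⟩,⟨1,[(8,1),(12,0),(0,0)]⟩⟩ ⟨true,1,⟨1,[(0,0),(18,0),(1,0),(4,0),(4,1)]⟩,
  ⟨0,[(1,0),(31,0)]⟩⟩]⟩) (.R ⟨0,false,false,false,[1,0,-1],[0,1],[0,1],(⟨0,[(23,0)]⟩,⟨0,[(24,0)]⟩),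
  (⟨0,[(28,0)]⟩,⟨0,[(27,0)]⟩),⟨0,[(12,0)]⟩,.k,.k,.k,.k,.k,.k,⟨true,0,⟨0,[(31,0),(1,1)]⟩,⟨3,[(0,1),
  (0,1),(2,1),(16,3),(4,0),(8,2)]⟩⟩,⟨false,2,⟨1,[(21,1),(4,0),(7,2)]⟩,⟨0,[(1,0)]⟩⟩,⟨false,0,⟨0,[(8,
  0)]⟩,⟨0,[(10,0)]⟩⟩,⟨true,1,⟨1,[(0,0),(18,0),(1,0),(4,0),(4,1),(3,1)]⟩,⟨0,[(5,0),(27,1)]⟩⟩,⟨false,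
  0,⟨0,[]⟩,⟨0,[]⟩⟩,⟨false,0,⟨0,[]⟩,⟨0,[]⟩⟩,[.o ⟨false,1,⟨5,[(9,1),(16,2),(5,1),(1,0)]⟩,⟨0,[(33,
  0)]⟩⟩,.e ⟨false,1,⟨1,[(14,0),(0,0),(18,0)]⟩,⟨0,[]⟩⟩ ⟨false,2,⟨1,[(21,1),(4,0),(4,1),(2,0),(0,1)]⟩,
  ⟨1,[(0,0),(2,0),(29,1),(0,0)]⟩⟩,.o ⟨false,0,⟨0,[(6,0)]⟩,⟨1,[(21,1),(4,0),(7,0)]⟩⟩,.a ⟨true,(-1),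
  ⟨0,[(1,0)]⟩,⟨0,[(21,0),(12,0)]⟩⟩ ⟨true,0,⟨0,[(31,0),(1,0)]⟩,⟨1,[(21,0),(0,0)]⟩⟩ ⟨false,2,⟨1,[(21,
  1),(4,0),(4,1),(2,0),(0,1)]⟩,⟨0,[(1,0),(31,0)]⟩⟩]⟩)) (.R ⟨0,false,false,true,[1,0,-1],[0,1],[0,0,
  1],(⟨0,[(22,0)]⟩,⟨0,[(23,0)]⟩),(⟨0,[(27,0)]⟩,⟨0,[(26,0)]⟩),⟨0,[(11,0)]⟩,.k,.k,.k,.k,.k,.k,⟨false,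
  1,⟨1,[(32,1),(0,0),(0,0)]⟩,⟨0,[(31,0)]⟩⟩,⟨true,1,⟨0,[(0,0)]⟩,⟨3,[(1,1),(0,1),(17,0),(0,0),(10,3),
  (1,1)]⟩⟩,⟨true,0,⟨1,[(7,1),(12,0),(0,0)]⟩,⟨0,[(0,0),(3,0),(27,0)]⟩⟩,⟨false,1,⟨7,[(0,5),(0,1),(5,
  3),(0,1),(9,1),(6,0),(8,0)]⟩,⟨0,[(4,0),(27,1),(1,0)]⟩⟩,⟨false,0,⟨0,[]⟩,⟨0,[]⟩⟩,⟨false,0,⟨0,[]⟩,⟨0,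
  []⟩⟩,[.a ⟨true,0,⟨0,[(31,0)]⟩,⟨1,[(29,0),(2,1),(1,0)]⟩⟩ ⟨true,0,⟨1,[(20,0),(0,0)]⟩,⟨0,[]⟩⟩ ⟨false,
  1,⟨0,[(0,0),(30,0)]⟩,⟨2,[(2,0),(4,0),(9,0),(14,2),(1,1)]⟩⟩,.o ⟨false,1,⟨5,[(8,1),(16,2),(5,1),(1,
  0)]⟩,⟨0,[(32,0)]⟩⟩,.o ⟨false,0,⟨0,[(5,0)]⟩,⟨2,[(0,0),(8,0),(8,0),(1,0),(4,0)]⟩⟩,.o ⟨false,0,⟨0,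
  [(21,0)]⟩,⟨0,[(0,0)]⟩⟩]⟩)) (.Q [0,0,2,0,-1,0,0,0,0,1] (.pp false [-1,1]) (.R ⟨1,false,false,false,
  [1,-1],[2,-1,-1],[0,0,-1,-2],(⟨0,[(26,0)]⟩,⟨0,[(27,0)]⟩),(⟨0,[(22,0),(3,0)]⟩,⟨0,[(11,0)]⟩),⟨15,
  [(1,1),(5,1),(16,21),(1,9),(2,2),(0,3),(3,0),(0,7)]⟩,.k,.k,(.r (-1) ⟨8,[(1,7),(5,3),(2,1),(7,3),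
  (6,0),(2,1),(3,1)]⟩ ⟨2,[(0,1),(2,1),(3,0),(0,0),(9,0),(1,0),(4,0)]⟩),.k,.k,.k,⟨true,0,⟨0,[(7,0),
  (24,0)]⟩,⟨9,[(1,0),(0,1),(0,5),(5,0),(10,9),(4,1)]⟩⟩,⟨false,0,⟨0,[(17,0)]⟩,⟨1,[(20,1),(4,0),(7,
  0)]⟩⟩,⟨true,0,⟨0,[(32,0)]⟩,⟨0,[(31,0)]⟩⟩,⟨false,0,⟨9,[(1,1),(0,3),(0,1),(5,1),(19,0),(4,4)]⟩,⟨1,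
  [(18,1),(6,0),(8,0)]⟩⟩,⟨false,1,⟨1,[(13,0),(0,0),(19,0)]⟩,⟨0,[]⟩⟩,⟨false,0,⟨9,[(1,0),(0,1),(0,5),
  (5,0),(19,2),(4,4)]⟩,⟨1,[(18,1),(6,0),(6,1),(1,0)]⟩⟩,[.e ⟨false,1,⟨8,[(1,7),(5,3),(2,1),(7,3),(6,
  0),(2,1),(3,1)]⟩,⟨0,[(3,0),(3,0),(12,0)]⟩⟩ ⟨false,0,⟨0,[(1,0),(2,0),(2,0)]⟩,⟨1,[(7,0),(0,0),(9,0),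
  (1,0),(4,0)]⟩⟩,.o ⟨false,0,⟨9,[(0,1),(0,4),(0,3),(6,0),(11,1),(12,3)]⟩,⟨0,[(7,0),(12,0),(4,0),(4,
  0)]⟩⟩,.o ⟨false,0,⟨1,[(20,0),(0,0)]⟩,⟨1,[(25,0),(7,0)]⟩⟩,.a ⟨true,(-1),⟨0,[(0,0)]⟩,⟨0,[(33,0)]⟩⟩
  ⟨false,1,⟨0,[(1,0),(5,0)]⟩,⟨2,[(0,1),(2,1),(3,0),(0,0),(9,0),(1,0),(4,0)]⟩⟩ ⟨true,0,⟨0,[(1,0),(2,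
  0),(2,0)]⟩,⟨0,[(0,0),(6,0),(12,0),(4,0),(4,0)]⟩⟩]⟩) (.R ⟨0,false,false,true,[1,0,-1],[0,1],[1],
  (⟨0,[(22,0)]⟩,⟨0,[(23,0)]⟩),(⟨0,[(27,0)]⟩,⟨0,[(26,0)]⟩),⟨0,[(11,0)]⟩,.k,.k,.k,.k,.k,.k,⟨false,1,
  ⟨3,[(0,1),(0,1),(5,1),(21,0),(4,0)]⟩,⟨1,[(20,0),(0,0),(9,1)]⟩⟩,⟨true,1,⟨0,[(0,0),(19,0)]⟩,⟨1,[(2,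
  1),(4,1),(12,1),(4,0),(8,0)]⟩⟩,⟨true,0,⟨0,[(7,0)]⟩,⟨3,[(1,0),(2,1),(14,0),(0,2),(4,0),(2,0)]⟩⟩,
  ⟨false,1,⟨4,[(0,2),(2,0),(3,5),(0,0),(11,5),(4,0),(4,0)]⟩,⟨3,[(1,1),(0,1),(17,0),(0,0),(12,1)]⟩⟩,
  ⟨false,0,⟨0,[]⟩,⟨0,[]⟩⟩,⟨false,0,⟨0,[]⟩,⟨0,[]⟩⟩,[.a ⟨true,0,⟨0,[(31,0)]⟩,⟨1,[(29,0),(2,1),(1,
  0)]⟩⟩ ⟨true,0,⟨0,[]⟩,⟨1,[(20,0),(0,0)]⟩⟩ ⟨false,1,⟨0,[(0,0),(19,0),(10,0)]⟩,⟨11,[(1,1),(0,3),(4,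
  5),(2,1),(18,0),(2,7),(1,6)]⟩⟩,.o ⟨false,1,⟨6,[(0,0),(7,2),(16,2),(2,0),(2,0)]⟩,⟨0,[(32,0)]⟩⟩,.o
  ⟨false,0,⟨0,[(5,0)]⟩,⟨2,[(0,0),(8,0),(8,0),(1,1),(4,0)]⟩⟩,.o ⟨false,0,⟨0,[(21,0)]⟩,⟨0,[(0,0),(19,
  0)]⟩⟩]⟩)))) (.R ⟨1,false,false,false,[0,0,1],[0,1],[1,0,1],(⟨0,[(20,0)]⟩,⟨0,[(19,0)]⟩),(⟨0,[(24,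
  0)]⟩,⟨0,[(23,0)]⟩),⟨0,[(9,0)]⟩,.k,.k,.k,.k,(.r (-1) ⟨1,[(0,1),(13,1),(7,0),(7,0)]⟩ ⟨0,[(1,1),(2,
  0),(12,1),(4,0),(8,0)]⟩),.k,⟨true,0,⟨0,[(29,0)]⟩,⟨1,[(1,1),(2,1),(12,1),(4,0),(8,0)]⟩⟩,⟨false,1,
  ⟨1,[(14,1),(7,0),(7,0)]⟩,⟨0,[(17,0)]⟩⟩,⟨true,0,⟨1,[(1,1),(15,1),(4,0),(6,1),(1,0)]⟩,⟨1,[(0,0),(1,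
  0),(1,0),(22,1)]⟩⟩,⟨true,0,⟨1,[(1,1),(20,0),(8,0)]⟩,⟨1,[(0,0),(14,0),(17,0)]⟩⟩,⟨true,0,⟨1,[(1,1),
  (15,1),(4,0),(8,0)]⟩,⟨0,[(0,0),(1,0),(24,0)]⟩⟩,⟨false,1,⟨2,[(1,1),(1,0),(1,0),(16,0),(4,0),(3,
  2)]⟩,⟨0,[(0,0)]⟩⟩,[.o ⟨false,1,⟨5,[(5,1),(16,2),(5,1),(1,0)]⟩,⟨0,[(29,0)]⟩⟩,.e ⟨false,1,⟨13,[(0,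
  3),(4,3),(0,3),(0,1),(14,0),(7,1),(0,2)]⟩,⟨0,[(27,0),(1,0)]⟩⟩ ⟨false,1,⟨0,[(2,0),(24,0),(3,0)]⟩,
  ⟨0,[(17,0),(9,0),(1,1)]⟩⟩,.o ⟨false,1,⟨1,[(17,1),(4,0),(7,0)]⟩,⟨0,[(2,0)]⟩⟩,.a ⟨true,0,⟨0,[(17,
  0)]⟩,⟨0,[(14,0)]⟩⟩ ⟨true,0,⟨0,[]⟩,⟨0,[(33,0)]⟩⟩ ⟨false,1,⟨0,[(2,0),(24,0),(3,0)]⟩,⟨0,[(17,0),(11,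
  0)]⟩⟩]⟩))) (.I [0,0,1,0,0,0,0,-1] (.S ⟨1,0,[0,1,1,0,0,0,0,-1],[1,1,-1],[0,0,1,0,0,0,0,-1],(⟨0,
  [(18,0),(4,0)]⟩,⟨0,[(8,0)]⟩),⟨0,[(18,0)]⟩,.k,.k,⟨true,0,⟨0,[(28,0)]⟩,⟨0,[(27,0)]⟩⟩,⟨false,0,⟨0,
  [(28,0)]⟩,⟨3,[(4,1),(24,0),(0,0)]⟩⟩,⟨false,1,⟨1,[(9,0),(0,0),(19,0)]⟩,⟨0,[]⟩⟩,⟨true,0,⟨0,[(32,
  0)]⟩,⟨0,[]⟩⟩,[.o ⟨false,0,⟨0,[(15,0)]⟩,⟨1,[(1,1),(1,1),(17,0),(8,0)]⟩⟩,.a ⟨true,0,⟨1,[(15,1),(9,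
  0),(4,0)]⟩,⟨0,[(1,0),(1,0)]⟩⟩ ⟨false,1,⟨0,[(0,0),(25,0),(1,0),(1,0)]⟩,⟨0,[(3,0),(22,0),(1,0)]⟩⟩
  ⟨true,0,⟨0,[(0,0)]⟩,⟨0,[(3,0)]⟩⟩,.a ⟨true,0,⟨0,[(13,0)]⟩,⟨0,[(16,0)]⟩⟩ ⟨true,0,⟨0,[(0,0)]⟩,⟨0,[(3,
  0),(22,0),(1,0)]⟩⟩ ⟨false,0,⟨0,[(0,0)]⟩,⟨1,[(3,1),(25,0),(0,0)]⟩⟩,.a ⟨true,0,⟨23,[(5,3),(0,13),(7,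
  3),(10,4),(4,0),(1,1)]⟩,⟨0,[(1,0)]⟩⟩ ⟨false,1,⟨0,[(0,0),(25,0),(1,0),(1,0)]⟩,⟨0,[(3,0)]⟩⟩ ⟨true,0,
  ⟨0,[(1,0),(13,0)]⟩,⟨0,[(3,0)]⟩⟩]⟩) (.I [1,1,-1,-1,0,0,0,-1] (.Q [0,1,0,1,0,0,0,1,0,-1] (.pp true
  [-1,1]) (.R ⟨0,false,false,false,[1,0,-1],[2,-1,-1],[0,0,0,-1,0,0,0,-1],(⟨0,[(20,0)]⟩,⟨0,[(21,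
  0)]⟩),(⟨0,[(20,0),(3,0)]⟩,⟨0,[(9,0)]⟩),⟨0,[(9,0)]⟩,.k,.k,.k,.k,.k,.k,⟨true,0,⟨1,[(18,0),(0,0)]⟩,
  ⟨0,[]⟩⟩,⟨false,0,⟨11,[(7,3),(0,1),(7,3),(10,4),(4,0),(1,1)]⟩,⟨1,[(23,0),(7,0)]⟩⟩,⟨true,0,⟨0,[(30,
  0)]⟩,⟨0,[(29,0)]⟩⟩,⟨false,0,⟨1,[(27,0),(2,1),(1,0)]⟩,⟨5,[(6,1),(16,2),(5,1),(1,0)]⟩⟩,⟨false,0,⟨0,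
  []⟩,⟨0,[]⟩⟩,⟨false,0,⟨0,[]⟩,⟨0,[]⟩⟩,[.o ⟨false,0,⟨1,[(17,1),(9,0),(2,1),(1,0)]⟩,⟨1,[(0,1),(2,1),
  (19,0),(8,0)]⟩⟩,.e ⟨false,1,⟨0,[(1,0),(30,0)]⟩,⟨6,[(0,3),(5,0),(1,0),(6,0),(0,2),(10,0),(1,0)]⟩⟩
  ⟨false,1,⟨1,[(7,1),(19,0),(2,1),(0,0)]⟩,⟨0,[(0,0)]⟩⟩,.a ⟨true,0,⟨23,[(7,3),(0,13),(7,3),(10,4),(4,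
  0),(1,1)]⟩,⟨0,[(3,0)]⟩⟩ ⟨false,1,⟨0,[(7,0),(22,0)]⟩,⟨1,[(0,1),(26,0),(4,0)]⟩⟩ ⟨true,0,⟨3,[(1,0),
  (5,1),(9,0),(0,0),(8,1),(2,2)]⟩,⟨0,[(0,0)]⟩⟩,.o ⟨false,0,⟨0,[(19,0)]⟩,⟨1,[(3,1),(19,0),(7,
  0)]⟩⟩]⟩) (.I [0,0,1,1,0,0,0,1] (.Q [0,0,-1,0,1,0,2,0,0,-2,2] (.p true [0,0,1] [2,-1,-1] (⟨0,[(22,
  0)]⟩,⟨0,[(21,0)]⟩) .k 2 (⟨0,[(21,0),(3,0)]⟩,⟨0,[(10,0)]⟩) .k (.r 0 ⟨0,[(6,1)]⟩ ⟨1,[(2,0),(2,0),(2,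
  1),(10,0)]⟩)) (.K ⟨0,[2,-1,-1],(-1),(-1),(⟨0,[(22,0),(3,0)]⟩,⟨0,[(11,0)]⟩),.k,(.x 0 ⟨1,[(10,1),(0,
  1),(8,2),(0,0),(5,1)]⟩ ⟨1,[(0,0),(1,1),(1,1),(17,1),(1,3),(0,0),(4,1),(4,0)]⟩),.k,(.r (-1) ⟨0,[(0,
  0),(1,1),(1,1),(1,1),(25,0),(2,1)]⟩ ⟨0,[(1,0),(5,0)]⟩),.k,[⟨0,[(0,0)]⟩,⟨3,[(20,0),(0,4),(7,3),(5,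
  1)]⟩,⟨1,[(0,0),(0,1),(23,0),(2,0)]⟩,⟨0,[(19,0),(9,0),(2,0)]⟩]⟩) (.Q [0,1,0,-1,-1,0,-2,-2,0,2,-2]
  (.p false [0,0,1] [2,-1,-1] (⟨0,[(23,0)]⟩,⟨0,[(22,0)]⟩) .k 2 (⟨0,[(22,0),(3,0)]⟩,⟨0,[(11,0)]⟩) .k
  (.r 0 ⟨0,[(7,1)]⟩ ⟨1,[(3,0),(2,0),(2,1),(10,0)]⟩)) (.R ⟨0,false,false,true,[-1,1,1],[1,0,-1],[0,1,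
  1,0,0,0,0,1],(⟨0,[(12,0)]⟩,⟨0,[(23,0),(3,0)]⟩),(⟨0,[(23,0)]⟩,⟨0,[(24,0)]⟩),⟨0,[(23,0)]⟩,.k,.k,.k,
  (.r 0 ⟨0,[(2,0),(5,0)]⟩ ⟨0,[(3,1),(22,0),(4,1),(1,0),(2,0)]⟩),.k,.k,⟨false,0,⟨0,[(8,1)]⟩,⟨2,[(3,
  1),(0,0),(1,0),(0,0),(2,1),(15,0),(4,1)]⟩⟩,⟨true,(-1),⟨0,[(1,0)]⟩,⟨0,[(6,1),(19,0)]⟩⟩,⟨false,0,⟨0,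
  [(33,0)]⟩,⟨3,[(9,1),(24,0),(0,0)]⟩⟩,⟨true,(-1),⟨0,[(0,0)]⟩,⟨0,[(2,0),(2,0),(0,1),(19,0)]⟩⟩,⟨false,
  0,⟨0,[]⟩,⟨0,[]⟩⟩,⟨false,0,⟨0,[]⟩,⟨0,[]⟩⟩,[.o ⟨false,0,⟨0,[(20,0)]⟩,⟨1,[(5,1),(15,1),(4,0),(8,
  0)]⟩⟩,.e ⟨false,0,⟨0,[(8,0)]⟩,⟨4,[(4,0),(5,3),(18,0),(1,0),(2,0)]⟩⟩ ⟨false,0,⟨49,[(0,19),(0,7),(7,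
  9),(0,17),(0,25),(7,7),(10,8),(3,8)]⟩,⟨0,[(5,0),(0,1),(19,0)]⟩⟩,.a ⟨true,1,⟨1,[(6,1),(19,0),(7,
  0)]⟩,⟨4,[(1,2),(19,0),(8,1),(5,0)]⟩⟩ ⟨false,0,⟨0,[(2,0),(30,0)]⟩,⟨1,[(3,1),(22,0),(4,1),(3,0)]⟩⟩
  ⟨true,(-1),⟨0,[(0,0),(1,0)]⟩,⟨0,[(5,0),(0,1),(19,0)]⟩⟩,.o ⟨false,1,⟨0,[(6,0),(19,0)]⟩,⟨9,[(1,1),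
  (8,1),(0,3),(7,1),(10,0),(3,0)]⟩⟩]⟩) (.R ⟨0,false,false,true,[-1,1,1],[1,0,-1],[0,1,1,1,0,0,0,1],
  (⟨0,[(12,0)]⟩,⟨0,[(23,0),(3,0)]⟩),(⟨0,[(23,0)]⟩,⟨0,[(24,0)]⟩),⟨0,[(23,0)]⟩,.k,.k,.k,(.r 0 ⟨0,[(2,
  0),(5,0)]⟩ ⟨0,[(3,1),(22,0),(4,1),(1,0),(2,0)]⟩),.k,.k,⟨false,0,⟨0,[(2,0),(2,0)]⟩,⟨0,[(4,0),(5,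
  0)]⟩⟩,⟨true,(-1),⟨0,[(1,0)]⟩,⟨0,[(6,1),(19,0)]⟩⟩,⟨true,0,⟨0,[(37,0)]⟩,⟨0,[]⟩⟩,⟨false,0,⟨2,[(1,0),
  (1,2),(6,0),(0,0),(8,1),(8,0)]⟩,⟨0,[(0,0)]⟩⟩,⟨false,0,⟨0,[]⟩,⟨0,[]⟩⟩,⟨false,0,⟨0,[]⟩,⟨0,[]⟩⟩,[.o
  ⟨false,0,⟨0,[(20,0)]⟩,⟨5,[(0,1),(18,1),(6,0),(6,1),(1,2)]⟩⟩,.e ⟨false,0,⟨1,[(0,0),(0,0),(29,0)]⟩,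
  ⟨3,[(4,0),(5,2),(18,0),(3,2),(0,0)]⟩⟩ ⟨false,0,⟨3,[(1,1),(8,2),(0,0),(6,0),(1,0),(8,0),(0,0)]⟩,⟨0,
  [(0,0),(3,0)]⟩⟩,.a ⟨true,1,⟨9,[(0,4),(3,5),(5,3),(18,0),(1,0),(2,0)]⟩,⟨4,[(1,2),(19,0),(8,1),(5,
  0)]⟩⟩ ⟨false,0,⟨0,[(2,0)]⟩,⟨1,[(3,1),(22,0),(7,0)]⟩⟩ ⟨true,(-1),⟨4,[(1,2),(18,4),(0,0),(8,1),(5,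
  0)]⟩,⟨0,[(0,0),(3,0)]⟩⟩,.o ⟨false,1,⟨0,[(6,0),(19,0)]⟩,⟨9,[(1,1),(8,1),(0,3),(7,1),(10,0),(3,
  0)]⟩⟩]⟩))) (.R ⟨0,false,false,false,[1,0,-1],[0,0,1],[1,0,0,0,0,0,0,1],(⟨0,[(21,0)]⟩,⟨0,[(22,
  0)]⟩),(⟨0,[(22,0)]⟩,⟨0,[(21,0)]⟩),⟨0,[(10,0)]⟩,.k,.k,.k,.k,.k,.k,⟨true,0,⟨0,[]⟩,⟨1,[(19,0),(0,
  0)]⟩⟩,⟨false,1,⟨1,[(4,3),(19,0),(7,0)]⟩,⟨0,[(9,0)]⟩⟩,⟨true,0,⟨0,[(6,1)]⟩,⟨0,[(0,0),(4,0),(13,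
  0)]⟩⟩,⟨false,1,⟨1,[(3,3),(15,3),(4,0),(8,0)]⟩,⟨1,[(0,1),(4,1),(14,1),(7,0),(4,0)]⟩⟩,⟨false,0,⟨0,
  []⟩,⟨0,[]⟩⟩,⟨false,0,⟨0,[]⟩,⟨0,[]⟩⟩,[.e ⟨false,0,⟨0,[(3,0)]⟩,⟨0,[(8,0),(26,0)]⟩⟩ ⟨false,1,⟨3,[(3,
  1),(0,5),(12,1),(6,1),(7,0),(0,0)]⟩,⟨3,[(0,1),(4,1),(3,1),(10,1),(7,0),(4,0)]⟩⟩,.o ⟨false,1,⟨1,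
  [(3,1),(15,1),(4,0),(8,0)]⟩,⟨0,[(18,0)]⟩⟩,.a ⟨true,0,⟨23,[(8,3),(0,13),(7,3),(10,4),(4,0),(1,1)]⟩,
  ⟨0,[(4,0)]⟩⟩ ⟨true,0,⟨0,[(6,0)]⟩,⟨1,[(2,0),(2,0),(13,0)]⟩⟩ ⟨false,1,⟨1,[(3,1),(0,1),(14,1),(4,0),
  (8,0)]⟩,⟨3,[(0,1),(4,1),(3,1),(10,1),(7,0),(4,0)]⟩⟩,.o ⟨false,0,⟨0,[(20,0)]⟩,⟨1,[(4,1),(19,0),(7,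
  0)]⟩⟩]⟩))) (.I [0,0,1,0,-1,1,-2] (.R ⟨0,false,false,true,[-1,1,1],[1,0,-1],[1,1,1],(⟨0,[(9,0)]⟩,
  ⟨0,[(20,0),(3,0)]⟩),(⟨0,[(20,0)]⟩,⟨0,[(21,0)]⟩),⟨0,[(20,0)]⟩,.k,.k,.k,(.x (-2) ⟨1,[(3,3),(16,3),
  (2,2),(0,1),(6,0)]⟩ ⟨0,[(0,0)]⟩),.k,.k,⟨false,0,⟨0,[(5,0)]⟩,⟨1,[(3,0),(3,0),(9,0),(13,0)]⟩⟩,⟨true,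
  (-1),⟨0,[(0,0),(19,1),(1,0)]⟩,⟨0,[(3,1),(19,0)]⟩⟩,⟨true,0,⟨0,[(3,0),(13,0),(12,0)]⟩,⟨1,[(1,0),(0,
  0),(26,0)]⟩⟩,⟨false,0,⟨0,[(17,1),(9,0),(2,0),(1,0)]⟩,⟨0,[(1,0),(0,0),(0,1),(19,0)]⟩⟩,⟨false,0,⟨0,
  []⟩,⟨0,[]⟩⟩,⟨false,0,⟨0,[]⟩,⟨0,[]⟩⟩,[.o ⟨false,0,⟨0,[(17,0)]⟩,⟨1,[(2,1),(15,1),(4,0),(8,0)]⟩⟩,.e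
  ⟨false,0,⟨0,[]⟩,⟨1,[(11,0),(0,0),(18,0)]⟩⟩ ⟨false,0,⟨6,[(7,3),(0,4),(6,0),(1,2),(9,3),(5,0),(0,
  0)]⟩,⟨0,[(2,0),(0,1),(19,0)]⟩⟩,.a ⟨true,1,⟨1,[(3,1),(19,0),(7,0)]⟩,⟨2,[(0,0),(18,0),(0,1),(1,0),
  (4,1),(5,0)]⟩⟩ ⟨false,0,⟨1,[(18,0),(0,0)]⟩,⟨1,[(31,0),(0,0)]⟩⟩ ⟨true,(-1),⟨2,[(0,0),(16,2),(1,0),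
  (0,1),(1,0),(4,1),(5,0)]⟩,⟨0,[(2,0),(0,1),(19,0)]⟩⟩,.o ⟨false,1,⟨0,[(3,0),(19,0)]⟩,⟨23,[(7,3),(0,
  13),(7,3),(10,4),(4,0),(1,1)]⟩⟩]⟩) (.Q [0,0,-1,0,1,0,2,0,0,-2,2] (.p true [0,0,1] [2,-1,-1] (⟨0,
  [(21,0)]⟩,⟨0,[(20,0)]⟩) .k 2 (⟨0,[(20,0),(3,0)]⟩,⟨0,[(9,0)]⟩) .k (.r 0 ⟨0,[(5,1)]⟩ ⟨0,[(3,0),(3,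
  0),(9,0)]⟩)) (.K ⟨0,[2,-1,-1],(-1),(-1),(⟨0,[(21,0),(3,0)]⟩,⟨0,[(10,0)]⟩),.k,(.r (-1) ⟨1,[(0,1),
  (15,1),(1,1),(9,0),(2,3),(1,0)]⟩ ⟨1,[(2,1),(16,0),(0,0),(9,1)]⟩),.k,(.r (-1) ⟨0,[(0,0),(17,1),(9,
  0),(2,0),(1,0)]⟩ ⟨2,[(2,1),(3,2),(10,0),(2,0),(9,0)]⟩),.k,[⟨0,[(0,0)]⟩,⟨3,[(19,0),(0,4),(7,3),(5,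
  1)]⟩,⟨9,[(0,1),(1,2),(0,0),(13,5),(6,7),(5,6)]⟩,⟨0,[(18,0),(9,0),(2,0)]⟩]⟩) (.R ⟨0,false,false,
  true,[-1,1,1],[1,0,-1],[1,1,1],(⟨0,[(10,0)]⟩,⟨0,[(21,0),(3,0)]⟩),(⟨0,[(21,0)]⟩,⟨0,[(22,0)]⟩),⟨0,
  [(21,0)]⟩,.k,.k,.k,(.r 0 ⟨2,[(2,1),(3,2),(10,0),(2,0),(9,0)]⟩ ⟨0,[(1,0),(8,1),(7,1),(4,0),(4,0),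
  (2,0),(1,0)]⟩),.k,.k,⟨false,0,⟨0,[(6,0)]⟩,⟨1,[(4,0),(3,0),(9,0),(13,0)]⟩⟩,⟨true,(-1),⟨0,[(0,0)]⟩,
  ⟨0,[(4,1),(19,0)]⟩⟩,⟨true,0,⟨0,[(4,0),(13,0),(12,0)]⟩,⟨1,[(2,0),(0,0),(26,0)]⟩⟩,⟨false,0,⟨0,[(18,
  1),(9,0),(2,0),(1,0)]⟩,⟨0,[(2,0),(0,0),(0,1),(19,0)]⟩⟩,⟨false,0,⟨0,[]⟩,⟨0,[]⟩⟩,⟨false,0,⟨0,[]⟩,⟨0,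
  []⟩⟩,[.o ⟨false,0,⟨0,[(18,0)]⟩,⟨1,[(3,1),(15,1),(4,0),(8,0)]⟩⟩,.e ⟨false,0,⟨0,[]⟩,⟨1,[(12,0),(0,
  0),(18,0)]⟩⟩ ⟨false,0,⟨9,[(0,6),(7,7),(7,3),(1,1),(8,2),(0,0)]⟩,⟨0,[(3,0),(0,1),(19,0)]⟩⟩,.a
  ⟨true,1,⟨17,[(1,7),(6,1),(1,11),(0,3),(5,1),(6,2),(7,4)]⟩,⟨4,[(0,2),(18,0),(8,1),(5,0)]⟩⟩ ⟨false,
  0,⟨1,[(19,0),(0,0)]⟩,⟨1,[(32,0),(0,0)]⟩⟩ ⟨true,(-1),⟨4,[(0,2),(17,4),(0,0),(8,1),(5,0)]⟩,⟨0,[(3,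
  0),(0,1),(19,0)]⟩⟩,.o ⟨false,1,⟨0,[(4,0),(19,0)]⟩,⟨4,[(0,1),(7,0),(0,0),(7,0),(14,0)]⟩⟩]⟩))))))
  (.Q [0,0,0,0,0,0,1,0,0,0,1] (.p true [0,0,1] [] (⟨0,[(17,0)]⟩,⟨0,[(16,0)]⟩) .k 0 (⟨0,[]⟩,⟨0,[]⟩)
  .k .k) (.I [0,0,2,2] (.R ⟨0,false,false,false,[1,0,-1],[1,-1],[],(⟨0,[(18,0)]⟩,⟨0,[(19,0)]⟩),(⟨0,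
  [(22,0)]⟩,⟨0,[(23,0)]⟩),⟨0,[(7,0)]⟩,.k,.k,.k,.k,.k,.k,⟨true,0,⟨1,[(0,0)]⟩,⟨0,[(28,0)]⟩⟩,⟨false,0,
  ⟨0,[(1,0)]⟩,⟨3,[(6,1),(2,0),(0,0),(10,0),(7,1)]⟩⟩,⟨true,0,⟨0,[(3,0)]⟩,⟨0,[(1,0),(13,0)]⟩⟩,⟨false,
  0,⟨0,[(2,0)]⟩,⟨3,[(4,1),(10,3),(13,0),(0,0)]⟩⟩,⟨false,0,⟨0,[]⟩,⟨0,[]⟩⟩,⟨false,0,⟨0,[]⟩,⟨0,[]⟩⟩,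
  [.o ⟨false,0,⟨0,[(28,0)]⟩,⟨5,[(4,1),(16,2),(5,1),(1,0)]⟩⟩,.e ⟨false,1,⟨1,[(29,0),(0,0)]⟩,⟨0,[(32,
  0)]⟩⟩ ⟨false,1,⟨1,[(1,0),(0,0),(2,0),(22,0),(0,0)]⟩,⟨0,[(17,0),(8,0)]⟩⟩,.a ⟨true,0,⟨23,[(5,3),(0,
  13),(7,3),(10,4),(4,0),(1,1)]⟩,⟨0,[(1,0)]⟩⟩ ⟨false,1,⟨1,[(9,0),(0,0),(19,0)]⟩,⟨0,[]⟩⟩ ⟨true,0,⟨0,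
  [(1,0),(26,0)]⟩,⟨0,[(17,0),(8,0)]⟩⟩,.o ⟨false,0,⟨0,[(17,0)]⟩,⟨1,[(1,1),(19,0),(7,0)]⟩⟩]⟩) (.I [0,
  0,-2,-2] (.Q [0,0,1,0,-1,0,-1,0,0,2,-1] (.p false [-1,1,1] [1] (⟨0,[(8,0)]⟩,⟨0,[(19,0),(3,0)]⟩)
  .k 1 (⟨0,[]⟩,⟨0,[]⟩) .k .k) (.R ⟨0,false,false,true,[-1,1,1],[0,1],[1,1,1,1],(⟨0,[(9,0)]⟩,⟨0,[(20,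
  0),(3,0)]⟩),(⟨0,[(25,0)]⟩,⟨0,[(24,0)]⟩),⟨0,[(20,0)]⟩,.k,.k,.k,.k,.k,.k,⟨true,0,⟨0,[]⟩,⟨1,[(18,0),
  (0,0)]⟩⟩,⟨false,0,⟨0,[(15,0)]⟩,⟨1,[(3,0),(3,0),(8,0),(6,0)]⟩⟩,⟨true,0,⟨0,[(3,0),(13,0)]⟩,⟨0,[(5,
  0)]⟩⟩,⟨false,0,⟨1,[(17,1),(9,0),(4,0)]⟩,⟨7,[(4,6),(1,2),(9,0),(6,3),(4,0),(2,0)]⟩⟩,⟨false,0,⟨0,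
  []⟩,⟨0,[]⟩⟩,⟨false,0,⟨0,[]⟩,⟨0,[]⟩⟩,[.e ⟨false,0,⟨0,[(29,0)]⟩,⟨1,[(2,0),(8,0),(0,0),(19,0)]⟩⟩
  ⟨false,0,⟨6,[(0,0),(5,1),(1,2),(17,2),(0,0),(1,2)]⟩,⟨1,[(2,0),(0,1),(19,0),(8,0)]⟩⟩,.o ⟨false,1,
  ⟨5,[(6,1),(16,2),(5,1),(1,0)]⟩,⟨0,[(30,0)]⟩⟩,.a ⟨true,1,⟨1,[(3,1),(19,0),(7,0)]⟩,⟨0,[(0,0)]⟩⟩
  ⟨true,0,⟨1,[(18,0),(0,0),(9,1)]⟩,⟨1,[(1,0)]⟩⟩ ⟨false,0,⟨4,[(0,1),(5,1),(1,0),(10,0),(9,0),(4,0)]⟩,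
  ⟨1,[(2,0),(0,1),(19,0),(8,0)]⟩⟩,.o ⟨false,1,⟨0,[(3,0),(19,0)]⟩,⟨6,[(0,1),(6,0),(0,2),(7,0),(14,
  0)]⟩⟩]⟩) (.I [0,0,-2,-2,0,0,0,-1] (.K ⟨0,[2,-1,-1],(-1),(-1),(⟨0,[(21,0),(3,0)]⟩,⟨0,[(10,0)]⟩),.k,
  (.r 0 ⟨0,[(0,0)]⟩ ⟨0,[(7,0),(9,0),(2,0)]⟩),.k,(.x 0 ⟨1,[(9,1),(0,1),(8,0),(0,0),(1,1)]⟩ ⟨0,[(1,1),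
  (19,1),(1,0),(4,0),(5,0)]⟩),.k,[⟨0,[(1,0),(2,0)]⟩,⟨3,[(19,0),(0,4),(7,3),(5,1)]⟩,⟨1,[(1,0),(4,1),
  (12,0),(4,0),(5,1)]⟩,⟨0,[(18,0),(9,0),(2,0)]⟩]⟩) (.K ⟨0,[2,-1,-1],(-1),(-1),(⟨0,[(21,0),(3,0)]⟩,
  ⟨0,[(10,0)]⟩),.k,(.x 0 ⟨1,[(9,1),(0,1),(8,2),(0,0),(5,1)]⟩ ⟨7,[(1,4),(0,2),(1,2),(16,7),(1,13),(1,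
  1),(3,5),(3,2),(0,0)]⟩),.k,(.r (-1) ⟨1,[(3,0),(0,1),(3,1),(9,1)]⟩ ⟨1,[(0,0),(5,2)]⟩),.k,[⟨0,[(1,
  0),(2,0)]⟩,⟨3,[(19,0),(0,4),(7,3),(5,1)]⟩,⟨5,[(0,2),(0,3),(4,0),(10,1),(6,1),(2,1)]⟩,⟨0,[(18,0),
  (9,0),(2,0)]⟩]⟩))) (.N [0,1] 0 ⟨1,[(0,0)]⟩ ⟨1,[(1,0)]⟩ .k))) (.R ⟨2,true,false,false,[0,1],[0,0,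
  1],[0,0,1],(⟨0,[]⟩,⟨0,[]⟩),(⟨0,[(18,0)]⟩,⟨0,[(17,0)]⟩),⟨0,[]⟩,.k,.k,.k,.k,.k,.k,⟨false,1,⟨0,[(4,
  0),(26,0)]⟩,⟨0,[(0,0),(0,0),(23,0)]⟩⟩,⟨true,0,⟨0,[(15,0)]⟩,⟨0,[(0,0)]⟩⟩,⟨true,0,⟨0,[(27,0)]⟩,⟨0,
  [(26,0)]⟩⟩,⟨false,0,⟨0,[(1,0)]⟩,⟨3,[(3,1),(10,3),(13,0),(0,0)]⟩⟩,⟨false,1,⟨1,[(8,0),(0,0),(19,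
  0)]⟩,⟨0,[]⟩⟩,⟨true,0,⟨0,[(1,0),(24,0)]⟩,⟨0,[(14,0)]⟩⟩,[]⟩)))

theorem ok3 : chk K t3 r2 = true := by decide +kernel

noncomputable def t4 : Tre :=
  .I [1,0,0,0,0,0,0,-1] t2 t3

theorem ok4 : chk K t4 r1 = true :=
  chk_I (e' := [0,0,0,0,0,0,0,1]) (by decide +kernel) (by decide +kernel) ok2 ok3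

noncomputable def t5 : Tre :=
  .I [0,1,-1,-2,-1] t1 t4

theorem ok5 : chk K t5 r0 = true :=
  chk_I (e' := [1,-1,1,2,1]) (by decide +kernel) (by decide +kernel) ok1 ok4

noncomputable def t6 : Tre :=
  .I [0,1,0,0,-1,0,0,1] t0 t5

theorem ok6 : chk K t6 base = true :=
  chk_I (e' := [1,-1,0,0,1,0,0,-1]) (by decide +kernel) (by decide +kernel) ok0 ok5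

theorem closed {p a b c J l q : ℤ} {D dl : ℝ} {Cl : ℤ → ℤ → ℤ → ℤ → ℝ → Prop}
    (W : World p a b c J 1 l q D dl Cl) (g : G0 p a b c J D)
    {N X R : ℤ} {I : ℝ} (hk : KCl p l Cl N X R I) (kz : KF a b D (X + (1 : ℤ) * I) (X + (1 : ℤ) * I + R) I)
    {Ne Xe : ℤ} {Ie : ℝ} (he : EFac p 1 D Cl (a) Ne Xe Ie)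
    (hkf : ∀ kf ∈ (kfY 1 [0,0,0,0,0,0,1,0,0,0,1]), KOk p l Cl 1
      (xv [1, a, b, c, p, J, X, R, Xe] [D, I, Ie]) N kf)
    (h0 : 1 ≤ -(c : ℝ))
    (h1 : 1 ≤ (a : ℝ) - (b : ℝ) + (c : ℝ))
    (h2 : 0 < 1 - (p : ℝ) + 2 * D)
    (h3 : 1 ≤ 2 * (a : ℝ) - (b : ℝ))
    (h4 : 1 ≤ 2 - (J : ℝ))
    (h5 : 0 < -(b : ℝ) - (X : ℝ) + D - I)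
    (h6 : 0 < -(J : ℝ) + I)
    (h7 : 0 < (J : ℝ) - D + I)
    (h8 : 0 < -2 * (X : ℝ) + D - 2 * I) : False := by
  have g1 := g.a2
  have g2 := g.b2
  have g3 := g.pa
  have g4 := g.pb
  have g5 := g.J1
  have g6 := g.JD
  have g7 := g.D2
  have g8 := g.ca
  have g9 := g.ca'
  have k1 := kz.I0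
  have k2 := kz.ID
  have k3 := kz.z1
  have k4 := kz.z2
  have k5 := kz.s1
  have k6 := kz.s2
  have e1 := he.I0
  have e2 := he.ID
  have e3 := he.x0
  have e4 := he.xp
  push_cast at *
  refine (val_E W.toBase hk he (row := [0,1]) (by simp) (by simp) (kfY 1 [0,0,0,0,0,0,1,0,0,0,1])).sound W rfl (Nk := N)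
    (fun kf _ _ => ⟨_, rfl⟩) hkf ?_ ok6
  · simp only [base, List.forall_mem_cons, List.not_mem_nil, false_imp_iff, implies_true,
      and_true, hld, xv, evg_cons, evg_nil, List.map_cons, List.map_nil, List.cons_append,
      List.nil_append, if_true, if_false, Bool.false_eq_true]
    push_cast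
    refine ⟨?_, ?_, ?_, ?_, ?_, ?_, ?_, ?_, ?_, ?_, ?_, ?_, ?_, ?_, ?_, ?_, ?_, ?_, ?_, ?_, ?_, ?_, ?_, ?_, ?_, ?_, ?_⟩ <;> linarith

end Helper25.S1T.Ymp_1dL2
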