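import Pool.Agent.Helper25.KG.S1b
import Pool.Agent.Helper11.CT.Cut

set_option autoImplicit false
set_option linter.all false

namespace Helper25.S1T.Ymp_1dLP1

open Helper25.KG Helper25.KW Helper55.KE Helper11.CT

noncomputable def K : Cls :=
  cE 1 [1] (kfY 1 [0,0,0,0,0,0,1,0,0,0,1])

noncomputable def base : List Con :=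
  [(false,[0,0,0,0,0,0,-2,0,0,1,-2]),
  (false,[0,0,0,0,0,1,0,0,0,-1,1]),
  (false,[0,0,0,0,0,-1,0,0,0,0,1]),
  (false,[0,0,0,0,1,0,0,0,-1,0,0,-1]),
  (false,[0,0,0,0,0,0,0,0,1,0,0,1]),
  (false,[0,0,0,0,0,0,0,0,0,1,0,-1]),
  (false,[0,0,0,0,0,0,0,0,0,0,0,1]),
  (false,[0,0,-1,0,0,0,-1,0,0,1,-1]),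
  (false,[0,1,0,0,0,0,1,1,0,0,1]),
  (false,[0,1,0,0,0,0,-1,-1,0,0,-1]),
  (false,[0,0,1,0,0,0,1,0,0,0,1]),
  (false,[0,0,1,0,0,0,-1,0,0,0,-1]),
  (false,[0,0,0,0,0,0,0,0,0,1,-1]),
  (false,[0,0,0,0,0,0,0,0,0,0,1]),
  (true,[2,0,0,0,0,-1]),
  (false,[0,0,0,0,1,0,0,0,0,-2]),
  (false,[0,0,0,0,0,-1,0,0,0,1]),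
  (true,[0,0,0,0,0,1]),
  (true,[0,2,-1]),
  (false,[1,0,0,0,1,0,0,0,0,-3]),
  (false,[0,0,2,0,0,0,0,0,0,-1]),
  (true,[0,1,-1,1]),
  (true,[0,1,0,1]),
  (true,[0,0,0,-1]),
  (true,[0,0,-2,0,1]),
  (true,[0,-2,0,0,1]),
  (true,[-1,0,1]),
  (true,[-1,1])]

noncomputable def l0 : List Con := (false, [0,0,1,0,-1,0,-1,0,0,1,-1]) :: base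

noncomputable def r0 : List Con := (false, [0,0,-1,0,1,0,1,0,0,-1,1]) :: base

noncomputable def l1 : List Con := (true, [0,0,1,0,0,0,0,-1]) :: r0

noncomputable def r1 : List Con := (true, [1,0,-1,0,0,0,0,1]) :: r0

noncomputable def l2 : List Con := (true, [0,0,3,3,-1]) :: l1

noncomputable def r2 : List Con := (true, [1,0,-3,-3,1]) :: l1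

noncomputable def l3 : List Con := (true, [0,-1,0,0,1,0,0,1]) :: r2

noncomputable def r3 : List Con := (true, [1,1,0,0,-1,0,0,-1]) :: r2

noncomputable def l4 : List Con := (false, [0,-1,0,0,1,0,1,1,0,-1,1]) :: l3

noncomputable def r4 : List Con := (false, [0,1,0,0,-1,0,-1,-1,0,1,-1]) :: l3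

noncomputable def t0 : Tre :=
  (.Q [0,-1,0,2,1,0,0,0,0,-1] (.pp true [-1,1]) (.S ⟨1,0,[0,1,-1,-2],[1,-1],[1,0,-1,-1],(⟨0,[(18,
  0)]⟩,⟨0,[(19,0)]⟩),⟨3,[(1,0),(10,0),(3,4),(1,2),(4,1),(1,1),(1,0)]⟩,.k,(.r (-1) ⟨0,[(25,1),(0,
  0)]⟩ ⟨5,[(0,3),(0,3),(0,0),(9,5),(9,0),(1,3)]⟩),⟨true,0,⟨0,[]⟩,⟨0,[(29,0)]⟩⟩,⟨false,0,⟨0,[(25,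
  0)]⟩,⟨0,[(24,0),(2,0)]⟩⟩,⟨false,1,⟨0,[(24,0),(2,0)]⟩,⟨0,[(25,0)]⟩⟩,⟨true,0,⟨0,[(29,0)]⟩,⟨0,[]⟩⟩,
  [.o ⟨false,0,⟨0,[(25,1),(3,0)]⟩,⟨0,[(0,0)]⟩⟩,.o ⟨false,0,⟨0,[(25,1)]⟩,⟨5,[(0,3),(4,0),(0,0),(10,
  0),(6,3)]⟩⟩,.o ⟨false,0,⟨3,[(2,0),(9,1),(9,0)]⟩,⟨1,[(17,0),(8,0)]⟩⟩,.a ⟨true,(-1),⟨0,[(1,0),(10,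
  0)]⟩,⟨0,[(26,0)]⟩⟩ ⟨true,1,⟨0,[(25,0),(0,0)]⟩,⟨1,[(1,2),(10,2),(8,0),(1,1)]⟩⟩ ⟨false,1,⟨0,[(25,1),
  (0,0)]⟩,⟨0,[(0,0),(0,0),(10,0)]⟩⟩]⟩) (.R ⟨2,true,false,true,[0,1],[1,-1],[1,1,1,1],(⟨0,[]⟩,⟨0,
  []⟩),(⟨0,[(18,0)]⟩,⟨0,[(19,0)]⟩),⟨0,[]⟩,.k,.k,.k,(.r 0 ⟨0,[(1,0),(10,0),(9,0),(0,1),(3,0)]⟩ ⟨1,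
  [(0,1),(16,0),(8,1),(0,0)]⟩),.k,.k,⟨false,0,⟨1,[(1,2),(10,2),(8,0),(1,3),(3,1)]⟩,⟨1,[(0,1),(16,0),
  (8,1),(0,0)]⟩⟩,⟨true,(-1),⟨0,[(1,0),(10,0)]⟩,⟨1,[(17,0),(8,0)]⟩⟩,⟨false,0,⟨0,[]⟩,⟨1,[(5,0),(0,0),
  (20,0)]⟩⟩,⟨true,(-1),⟨0,[(0,0)]⟩,⟨0,[(22,0),(0,1),(3,0)]⟩⟩,⟨true,0,⟨0,[(24,0)]⟩,⟨0,[(25,0)]⟩⟩,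
  ⟨false,0,⟨3,[(0,1),(4,0),(0,0),(2,1),(2,1),(14,0)]⟩,⟨1,[(1,0),(10,0),(8,0),(1,1),(3,1)]⟩⟩,[]⟩))

theorem ok0 : chk K t0 l0 = true := by decide +kernel

noncomputable def t1 : Tre :=
  (.Q [0,0,2,0,-1,0,0,0,0,1] (.pp false [-1,1]) (.S ⟨1,0,[0,0,-1,-2],[1,-1],[1,1,-1,-1],(⟨0,[(20,
  0)]⟩,⟨0,[(21,0)]⟩),⟨3,[(0,0),(17,4),(1,2),(4,1),(1,1),(1,0)]⟩,.k,(.r (-1) ⟨0,[(27,1),(0,0)]⟩ ⟨2,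
  [(1,1),(5,1),(0,1)]⟩),⟨false,0,⟨0,[]⟩,⟨1,[(7,0),(0,0),(20,0)]⟩⟩,⟨true,0,⟨0,[(27,0)]⟩,⟨0,[(26,
  0)]⟩⟩,⟨true,0,⟨0,[(26,0)]⟩,⟨0,[(27,0)]⟩⟩,⟨false,1,⟨1,[(7,0),(0,0),(20,0)]⟩,⟨0,[]⟩⟩,[.o ⟨false,0,
  ⟨0,[(27,1)]⟩,⟨3,[(1,1),(17,1),(6,1),(1,2),(0,0)]⟩⟩,.o ⟨false,1,⟨1,[(7,0),(0,0),(18,3),(1,0)]⟩,⟨2,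
  [(1,0),(21,0),(1,2)]⟩⟩,.o ⟨false,0,⟨3,[(4,0),(9,1),(9,0)]⟩,⟨1,[(19,0),(8,0)]⟩⟩,.a ⟨true,(-1),⟨0,
  [(0,0)]⟩,⟨0,[(28,0)]⟩⟩ ⟨false,1,⟨0,[(27,0),(0,0)]⟩,⟨11,[(0,1),(0,3),(2,0),(9,1),(9,2),(4,5)]⟩⟩
  ⟨true,1,⟨0,[(27,1),(0,0)]⟩,⟨2,[(0,2),(0,0),(21,0),(1,2)]⟩⟩]⟩) (.Q [0,-1,0,1,1,0,1,1,0,-2,1] (.p
  true [-1,1,1] [1] (⟨0,[(5,0)]⟩,⟨0,[(16,0),(3,0)]⟩) .k 1 (⟨0,[]⟩,⟨0,[]⟩) .k .k) (.I [0,-1,1,0,0,0,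
  0,1] (.R ⟨1,false,false,false,[0,0,1],[-1,1,1],[1,1,0,0,0,0,0,1],(⟨0,[(19,0)]⟩,⟨0,[(18,0)]⟩),(⟨0,
  [(7,0)]⟩,⟨0,[(18,0),(3,0)]⟩),⟨0,[(8,0)]⟩,.k,.k,.k,.k,(.r (-1) ⟨0,[(29,1),(0,0)]⟩ ⟨2,[(3,1),(5,1),
  (0,1)]⟩),.k,⟨true,0,⟨0,[(27,0),(1,1)]⟩,⟨11,[(0,3),(2,3),(0,3),(1,0),(9,1),(9,0),(4,3)]⟩⟩,⟨false,1,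
  ⟨0,[(2,0)]⟩,⟨1,[(6,0),(6,0),(2,2)]⟩⟩,⟨false,0,⟨0,[]⟩,⟨1,[(9,0),(0,0),(20,0)]⟩⟩,⟨false,1,⟨5,[(2,1),
  (0,1),(17,1),(8,0),(0,2)]⟩,⟨0,[(13,0),(2,0),(12,0)]⟩⟩,⟨true,0,⟨0,[(28,0)]⟩,⟨0,[(29,0)]⟩⟩,⟨false,1,
  ⟨5,[(2,3),(0,3),(17,0),(8,1),(0,2)]⟩,⟨0,[(13,0),(2,0),(12,1)]⟩⟩,[.o ⟨false,1,⟨2,[(1,1),(12,0),(6,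
  0),(6,0)]⟩,⟨0,[(4,0),(8,0),(15,0)]⟩⟩,.o ⟨false,1,⟨0,[(1,0)]⟩,⟨3,[(4,3),(1,0),(6,2),(2,0),(7,1),(4,
  3)]⟩⟩,.o ⟨false,1,⟨3,[(5,1),(3,0),(0,0),(5,1),(4,0)]⟩,⟨2,[(3,0),(9,2),(11,0),(3,2)]⟩⟩,.a ⟨true,0,
  ⟨0,[(16,0)]⟩,⟨0,[(13,0)]⟩⟩ ⟨true,0,⟨0,[(0,0),(26,1),(1,1)]⟩,⟨0,[(4,0)]⟩⟩ ⟨false,1,⟨0,[(1,0),(11,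
  0)]⟩,⟨0,[(4,0),(8,0),(2,0),(12,0)]⟩⟩]⟩) (.I [1,0,0,-1,0,0,0,-1] (.R ⟨1,false,false,true,[0,0,1],
  [0,1],[1,0,0,0,0,0,0,1],(⟨0,[(20,0)]⟩,⟨0,[(19,0)]⟩),(⟨0,[(24,0)]⟩,⟨0,[(23,0)]⟩),⟨0,[(9,0)]⟩,.k,.k,
  .k,.k,(.r (-1) ⟨3,[(2,0),(0,1),(10,3),(0,2),(14,8),(1,0)]⟩ ⟨3,[(4,1),(0,3),(23,1),(1,0),(0,0)]⟩),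
  .k,⟨true,1,⟨1,[(2,0),(11,1),(0,0),(14,2),(1,0)]⟩,⟨0,[(1,0),(2,0),(25,1)]⟩⟩,⟨false,1,⟨1,[(3,0),(3,
  0),(23,0)]⟩,⟨0,[(17,0)]⟩⟩,⟨true,0,⟨0,[]⟩,⟨0,[(34,0)]⟩⟩,⟨false,0,⟨5,[(0,5),(2,2),(0,3),(9,5),(11,
  0)]⟩,⟨0,[(15,0),(14,0),(1,0)]⟩⟩,⟨false,1,⟨0,[(29,0),(2,0)]⟩,⟨0,[(30,0)]⟩⟩,⟨false,0,⟨0,[(0,0),(2,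
  0),(0,0),(9,0)]⟩,⟨0,[(15,0),(14,1),(1,0)]⟩⟩,[.o ⟨false,0,⟨2,[(4,0),(21,0),(1,2),(1,2)]⟩,⟨1,[(10,
  0),(0,0),(18,1),(1,0)]⟩⟩,.o ⟨false,1,⟨1,[(22,0),(6,1),(2,0)]⟩,⟨0,[(30,0)]⟩⟩,.o ⟨false,1,⟨3,[(6,1),
  (3,0),(0,0),(5,1),(4,0)]⟩,⟨2,[(4,0),(9,2),(11,0),(3,2)]⟩⟩,.a ⟨true,0,⟨0,[(17,0)]⟩,⟨0,[(14,0)]⟩⟩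
  ⟨false,1,⟨1,[(2,0),(11,1),(0,0),(14,0),(1,0)]⟩,⟨0,[(5,0)]⟩⟩ ⟨true,0,⟨2,[(4,0),(9,2),(11,0),(1,2),
  (1,2)]⟩,⟨0,[(17,0),(12,0)]⟩⟩]⟩) (.R ⟨1,false,false,false,[0,0,1],[-1,1,1],[1,1,0,0,0,0,0,1],(⟨0,
  [(20,0)]⟩,⟨0,[(19,0)]⟩),(⟨0,[(8,0)]⟩,⟨0,[(19,0),(3,0)]⟩),⟨0,[(9,0)]⟩,.k,.k,.k,.k,(.r (-1) ⟨0,[(30,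
  1),(0,0)]⟩ ⟨2,[(4,1),(5,1),(0,1)]⟩),.k,⟨true,0,⟨0,[(28,0),(1,1)]⟩,⟨7,[(4,3),(2,0),(9,1),(9,0),(2,
  3),(1,3)]⟩⟩,⟨false,1,⟨0,[(3,0)]⟩,⟨1,[(7,0),(6,0),(2,2)]⟩⟩,⟨false,0,⟨0,[]⟩,⟨1,[(10,0),(0,0),(20,
  0)]⟩⟩,⟨false,1,⟨5,[(3,1),(0,1),(17,1),(8,0),(0,2)]⟩,⟨0,[(14,0),(2,0),(12,0)]⟩⟩,⟨true,0,⟨0,[(29,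
  0)]⟩,⟨0,[(30,0)]⟩⟩,⟨false,1,⟨5,[(3,3),(0,3),(17,0),(8,1),(0,2)]⟩,⟨0,[(14,0),(2,0),(12,1)]⟩⟩,[.o
  ⟨false,1,⟨2,[(2,1),(12,0),(6,0),(6,0)]⟩,⟨0,[(5,0),(8,0),(15,0)]⟩⟩,.o ⟨false,1,⟨0,[(2,0)]⟩,⟨3,[(5,
  3),(1,0),(6,2),(2,0),(7,1),(4,3)]⟩⟩,.o ⟨false,1,⟨3,[(6,1),(3,0),(0,0),(5,1),(4,0)]⟩,⟨2,[(4,0),(9,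
  2),(11,0),(3,2)]⟩⟩,.a ⟨true,0,⟨0,[(17,0)]⟩,⟨0,[(14,0)]⟩⟩ ⟨true,0,⟨0,[(0,0),(27,0),(1,1)]⟩,⟨0,[(5,
  0)]⟩⟩ ⟨false,1,⟨0,[(2,0),(11,0)]⟩,⟨0,[(5,0),(8,0),(2,0),(12,0)]⟩⟩]⟩))) (.Q [0,-1,0,0,0,0,-1,-1,0,
  1,-1] (.p false [0,0,1] [1] (⟨0,[(18,0)]⟩,⟨0,[(17,0)]⟩) .k 1 (⟨0,[]⟩,⟨0,[]⟩) .k .k) (.I [0,0,1,1,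
  0,0,0,1] (.Q [0,0,0,0,0,-2,0,0,0,1] (.pp false [-1,1]) (.R ⟨1,false,false,true,[1,-1],[0,0,1],[1,
  1,-1,-1],(⟨0,[(24,0)]⟩,⟨0,[(25,0)]⟩),(⟨0,[(21,0)]⟩,⟨0,[(20,0)]⟩),⟨0,[(0,0)]⟩,.k,.k,(.r (-1) ⟨0,
  [(31,1),(0,0)]⟩ ⟨2,[(5,1),(5,1),(0,1)]⟩),.k,(.r (-1) ⟨1,[(2,0),(0,0),(0,0),(2,1),(23,2)]⟩ ⟨2,[(1,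
  2),(3,0),(5,0),(0,0)]⟩),.k,⟨false,1,⟨1,[(2,0),(0,0),(0,0),(2,1),(23,0)]⟩,⟨0,[(1,0)]⟩⟩,⟨true,1,⟨0,
  [(7,0)]⟩,⟨0,[(5,0),(9,0),(15,2)]⟩⟩,⟨false,0,⟨0,[]⟩,⟨1,[(11,0),(0,0),(20,0)]⟩⟩,⟨false,1,⟨0,[(1,0),
  (5,0)]⟩,⟨0,[(2,0),(28,0)]⟩⟩,⟨true,0,⟨0,[(30,0)]⟩,⟨0,[(31,0)]⟩⟩,⟨false,1,⟨3,[(1,1),(2,1),(0,1),(1,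
  1),(8,1),(15,0),(0,0)]⟩,⟨0,[(2,0),(28,1)]⟩⟩,[.a ⟨true,0,⟨0,[(16,0)]⟩,⟨0,[(2,0)]⟩⟩ ⟨true,0,⟨0,[(29,
  0),(1,1)]⟩,⟨8,[(1,0),(1,0),(1,3),(12,0),(9,1),(2,2),(1,4)]⟩⟩ ⟨false,1,⟨0,[(4,0),(11,0)]⟩,⟨8,[(2,
  3),(0,2),(1,0),(0,1),(1,0),(19,1),(4,3)]⟩⟩,.o ⟨false,1,⟨1,[(16,1),(6,0),(9,0)]⟩,⟨23,[(2,14),(0,8),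
  (1,1),(21,10),(1,5),(1,2)]⟩⟩,.o ⟨false,0,⟨3,[(8,0),(9,1),(9,0)]⟩,⟨1,[(23,0),(8,0)]⟩⟩,.o ⟨false,0,
  ⟨1,[(8,0),(9,1),(9,0)]⟩,⟨0,[(4,0)]⟩⟩]⟩) (.R ⟨0,false,false,true,[1,-1],[0,0,1],[1],(⟨0,[(24,0)]⟩,
  ⟨0,[(25,0)]⟩),(⟨0,[(21,0)]⟩,⟨0,[(20,0)]⟩),⟨0,[(0,0)]⟩,.k,.k,(.r (-1) ⟨0,[(31,1),(0,0)]⟩ ⟨2,[(5,1),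
  (5,1),(0,1)]⟩),.k,.k,.k,⟨false,1,⟨0,[(2,0),(4,0)]⟩,⟨11,[(0,4),(0,3),(6,2),(6,1),(0,7),(5,9),(3,1),
  (4,3)]⟩⟩,⟨true,1,⟨0,[(7,0)]⟩,⟨0,[(5,0),(9,0),(15,2)]⟩⟩,⟨true,0,⟨2,[(5,0),(5,0),(0,0)]⟩,⟨0,[(29,0),
  (1,1)]⟩⟩,⟨false,1,⟨0,[(1,0),(5,0)]⟩,⟨0,[(2,0),(28,0)]⟩⟩,⟨false,0,⟨0,[]⟩,⟨0,[]⟩⟩,⟨false,0,⟨0,[]⟩,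
  ⟨0,[]⟩⟩,[.a ⟨true,0,⟨0,[(16,0)]⟩,⟨0,[(2,0)]⟩⟩ ⟨true,0,⟨0,[]⟩,⟨3,[(8,0),(9,1),(9,0)]⟩⟩ ⟨false,1,⟨0,
  [(4,0),(11,0)]⟩,⟨8,[(2,3),(0,2),(1,0),(0,1),(1,0),(19,1),(4,3)]⟩⟩,.o ⟨false,1,⟨1,[(16,1),(6,0),(9,
  0)]⟩,⟨23,[(2,14),(0,8),(1,1),(21,10),(1,5),(1,2)]⟩⟩,.o ⟨false,0,⟨3,[(8,0),(9,1),(9,0)]⟩,⟨1,[(23,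
  0),(8,0)]⟩⟩,.o ⟨false,0,⟨1,[(8,0),(9,1),(9,0)]⟩,⟨0,[(4,0)]⟩⟩]⟩)) (.R ⟨0,false,false,true,[1,0,-1],
  [0,0,1],[1,1,0,0,0,0,0,1],(⟨0,[(19,0)]⟩,⟨0,[(20,0)]⟩),(⟨0,[(20,0)]⟩,⟨0,[(19,0)]⟩),⟨0,[(8,0)]⟩,.k,
  .k,.k,.k,.k,.k,⟨true,0,⟨0,[]⟩,⟨3,[(7,0),(9,1),(9,0)]⟩⟩,⟨false,1,⟨5,[(0,11),(2,2),(0,3),(10,11),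
  (10,0),(5,5)]⟩,⟨0,[(7,0)]⟩⟩,⟨false,1,⟨2,[(4,1),(9,5),(0,5),(10,1),(3,5),(1,2)]⟩,⟨6,[(0,11),(0,0),
  (2,3),(0,0),(0,0),(25,2)]⟩⟩,⟨true,1,⟨1,[(15,3),(6,0),(9,0)]⟩,⟨2,[(0,5),(3,3),(9,5),(11,0),(3,
  5)]⟩⟩,⟨false,0,⟨0,[]⟩,⟨0,[]⟩⟩,⟨false,0,⟨0,[]⟩,⟨0,[]⟩⟩,[.a ⟨true,0,⟨0,[(15,0)]⟩,⟨0,[(1,0)]⟩⟩ ⟨true,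
  0,⟨2,[(4,0),(9,2),(0,2),(10,0),(3,2)]⟩,⟨4,[(0,3),(0,0),(2,1),(12,0),(9,0),(2,1),(1,1)]⟩⟩ ⟨false,1,
  ⟨0,[(6,0),(8,0)]⟩,⟨2,[(1,2),(2,0),(9,2),(11,0),(3,2)]⟩⟩,.o ⟨false,1,⟨1,[(15,1),(6,0),(9,0)]⟩,⟨11,
  [(0,5),(0,2),(2,1),(2,2),(8,2),(9,1)]⟩⟩,.o ⟨false,0,⟨2,[(4,0),(9,2),(11,0),(3,2)]⟩,⟨3,[(6,1),(3,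
  0),(0,0),(5,1),(4,0)]⟩⟩,.o ⟨false,0,⟨0,[(18,0)]⟩,⟨0,[(6,0)]⟩⟩]⟩)) (.I [1,0,2,1,-1,0,0,2] (.I [0,0,
  -1,-1,1,0,0,-2] (.Q [0,0,0,0,0,-2,0,0,0,0,1] (.p true [0,0,1] [] (⟨0,[(21,0)]⟩,⟨0,[(20,0)]⟩) .k 0
  (⟨0,[]⟩,⟨0,[]⟩) .k .k) (.R ⟨1,false,false,false,[0,-1,1],[1,-1],[1,0,-1,-1,0,0,0,1],(⟨0,[(11,0)]⟩,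
  ⟨0,[(21,0),(4,0)]⟩),(⟨0,[(25,0)]⟩,⟨0,[(26,0)]⟩),⟨0,[(0,0)]⟩,.k,.k,(.r (-1) ⟨1,[(2,0),(29,4),(0,
  2)]⟩ ⟨5,[(1,2),(4,4),(5,1),(0,1)]⟩),.k,.k,.k,⟨true,0,⟨1,[(2,0),(29,0),(0,0)]⟩,⟨0,[(7,0)]⟩⟩,⟨false,
  0,⟨0,[(16,0)]⟩,⟨3,[(8,1),(3,0),(0,0),(5,1),(4,0)]⟩⟩,⟨true,0,⟨0,[]⟩,⟨0,[(36,0)]⟩⟩,⟨true,0,⟨17,[(1,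
  5),(2,5),(1,3),(2,2),(6,5),(11,0),(5,2)]⟩,⟨0,[(3,0)]⟩⟩,⟨false,1,⟨0,[(31,0),(2,0)]⟩,⟨0,[(32,0)]⟩⟩,
  ⟨true,0,⟨1,[(1,0),(4,0),(9,1)]⟩,⟨0,[(3,0),(28,0)]⟩⟩,[.o ⟨false,0,⟨0,[(32,0)]⟩,⟨1,[(24,0),(6,1),(2,
  0)]⟩⟩,.o ⟨false,1,⟨17,[(1,3),(7,3),(7,7),(6,0),(4,1),(2,13),(1,12)]⟩,⟨4,[(3,0),(0,0),(1,0),(21,1),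
  (1,2)]⟩⟩,.a ⟨true,0,⟨0,[(19,0)]⟩,⟨0,[(16,0)]⟩⟩ ⟨false,1,⟨1,[(2,0),(29,2),(0,1),(0,0)]⟩,⟨1,[(1,0),
  (4,0)]⟩⟩ ⟨true,0,⟨0,[(16,0),(15,0)]⟩,⟨1,[(1,0),(1,1),(2,0)]⟩⟩,.o ⟨false,0,⟨2,[(6,0),(12,2),(8,0),
  (3,2)]⟩,⟨1,[(5,0),(3,0),(23,0)]⟩⟩]⟩) (.I [0,0,0,0,1,0,0,0,-1] (.I [0,0,1,0,0,2,1] (.C [(0,1),(1,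
  1),(1,0),(1,1),(5,3),(12,11),(6,3),(1,2),(1,2)]) (.C [(0,0),(1,0),(18,0)])) (.C [(0,0),(12,0),(2,
  0)]))) (.R ⟨0,false,false,false,[-1,1,1],[0,1],[0,1],(⟨0,[(9,0)]⟩,⟨0,[(20,0),(3,0)]⟩),(⟨0,[(25,
  0)]⟩,⟨0,[(24,0)]⟩),⟨0,[(20,0)]⟩,.k,.k,.k,.k,.k,.k,⟨true,0,⟨1,[(2,0),(0,0),(0,0),(26,0)]⟩,⟨55,[(1,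
  3),(1,7),(1,19),(2,0),(9,9),(9,16),(4,31)]⟩⟩,⟨false,0,⟨0,[(15,0)]⟩,⟨3,[(7,1),(3,0),(0,0),(5,1),(4,
  0)]⟩⟩,⟨false,1,⟨1,[(3,1),(3,1),(15,0),(9,0)]⟩,⟨5,[(0,0),(0,1),(3,0),(26,0),(0,2)]⟩⟩,⟨true,0,⟨0,
  [(6,0),(8,0)]⟩,⟨0,[(2,0)]⟩⟩,⟨false,0,⟨0,[]⟩,⟨0,[]⟩⟩,⟨false,0,⟨0,[]⟩,⟨0,[]⟩⟩,[.o ⟨false,1,⟨1,[(23,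
  0),(6,1),(2,0)]⟩,⟨0,[(31,0)]⟩⟩,.o ⟨false,1,⟨5,[(4,1),(0,1),(17,1),(8,0),(0,2)]⟩,⟨9,[(3,0),(7,0),
  (0,0),(3,0),(9,3),(1,1),(2,8)]⟩⟩,.a ⟨true,1,⟨0,[(7,0)]⟩,⟨11,[(0,1),(0,2),(1,10),(1,1),(9,1),(0,0),
  (16,5)]⟩⟩ ⟨true,0,⟨0,[(35,0)]⟩,⟨0,[]⟩⟩ ⟨false,0,⟨51,[(1,2),(1,10),(1,19),(2,15),(6,13),(0,4),(16,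
  33)]⟩,⟨0,[(7,0),(23,0)]⟩⟩,.o ⟨false,1,⟨8,[(5,0),(1,5),(10,2),(8,3),(3,2)]⟩,⟨22,[(3,4),(1,0),(2,9),
  (6,2),(0,4),(13,1),(2,5)]⟩⟩]⟩)) (.Q [0,-1,0,0,0,0,-2,-2,0,1,-2] (.p false [0,0,1] [1,0,-1] (⟨0,
  [(20,0)]⟩,⟨0,[(19,0)]⟩) .k 2 (⟨0,[(19,0)]⟩,⟨0,[(20,0)]⟩) .k (.i 0 ⟨0,[(8,0),(0,0)]⟩ ⟨0,[(19,
  1)]⟩)) (.S ⟨1,0,[0,0,0,-1,0,0,0,1],[0,0,1],[1,1,0,0,0,0,0,1],(⟨0,[(21,0)]⟩,⟨0,[(20,0)]⟩),⟨0,[(10,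
  0)]⟩,.k,.k,⟨false,0,⟨0,[]⟩,⟨1,[(11,0),(0,0),(20,0)]⟩⟩,⟨true,0,⟨0,[(31,0)]⟩,⟨0,[(30,0)]⟩⟩,⟨true,0,
  ⟨0,[(30,0)]⟩,⟨0,[(31,0)]⟩⟩,⟨false,1,⟨1,[(11,0),(0,0),(20,0)]⟩,⟨0,[]⟩⟩,[.o ⟨false,1,⟨1,[(16,1),(6,
  0),(7,1),(1,0)]⟩,⟨5,[(0,2),(4,0),(21,0),(1,2)]⟩⟩,.o ⟨false,1,⟨0,[(2,0),(28,0),(1,0)]⟩,⟨11,[(0,2),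
  (4,0),(11,5),(9,0),(1,2),(0,5)]⟩⟩,.o ⟨false,1,⟨3,[(7,1),(3,0),(0,0),(5,1),(4,0)]⟩,⟨2,[(5,0),(9,2),
  (11,0),(3,2)]⟩⟩,.a ⟨true,0,⟨0,[(18,0)]⟩,⟨0,[(15,0)]⟩⟩ ⟨true,0,⟨0,[(2,0),(12,0)]⟩,⟨0,[(6,0)]⟩⟩
  ⟨false,1,⟨0,[(2,0),(12,0),(15,0),(1,0)]⟩,⟨8,[(1,2),(3,3),(0,2),(4,0),(0,0)]⟩⟩]⟩) (.R ⟨0,false,
  false,false,[1,0,-1],[2,-1,-1],[1,0,-1,-1,0,0,0,-1],(⟨0,[(20,0)]⟩,⟨0,[(21,0)]⟩),(⟨0,[(20,0),(3,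
  0)]⟩,⟨0,[(9,0)]⟩),⟨0,[(9,0)]⟩,.k,.k,.k,.k,.k,.k,⟨true,0,⟨0,[]⟩,⟨3,[(8,0),(9,1),(9,0)]⟩⟩,⟨false,0,
  ⟨0,[(15,0),(2,0)]⟩,⟨1,[(23,0),(8,0)]⟩⟩,⟨false,1,⟨1,[(31,1),(0,0),(0,0)]⟩,⟨2,[(5,0),(5,0),(0,0)]⟩⟩,
  ⟨true,0,⟨1,[(3,0),(12,0),(14,0),(1,0)]⟩,⟨4,[(2,0),(0,0),(1,0),(21,1),(1,2)]⟩⟩,⟨false,0,⟨0,[]⟩,⟨0,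
  []⟩⟩,⟨false,0,⟨0,[]⟩,⟨0,[]⟩⟩,[.o ⟨false,0,⟨3,[(1,0),(1,1),(4,0),(19,0),(2,0),(1,0)]⟩,⟨11,[(0,5),
  (3,3),(0,3),(17,6),(8,1),(0,2)]⟩⟩,.a ⟨true,0,⟨0,[(3,0),(29,0)]⟩,⟨5,[(0,2),(4,0),(21,0),(1,2)]⟩⟩
  ⟨true,1,⟨1,[(1,0),(29,0),(1,0)]⟩,⟨2,[(0,1),(2,0),(1,2),(9,2),(11,0),(3,4)]⟩⟩ ⟨false,1,⟨1,[(1,0),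
  (1,0),(12,0),(16,1)]⟩,⟨2,[(2,2),(2,0),(9,2),(11,0)]⟩⟩,.o ⟨false,0,⟨2,[(5,0),(9,2),(11,0),(3,2)]⟩,
  ⟨3,[(7,1),(3,0),(0,0),(5,1),(4,0)]⟩⟩,.o ⟨false,0,⟨0,[(19,0)]⟩,⟨0,[(7,0)]⟩⟩]⟩))))))

theorem ok1 : chk K t1 l2 = true := by decide +kernel

noncomputable def t2 : Tre :=
  (.I [0,1,0,0,0,0,0,1] (.I [0,0,-1,-1,0,0,0,1] (.Q [0,0,0,0,0,0,-1,0,0,0,-1] (.p false [0,0,1] []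
  (⟨0,[(20,0)]⟩,⟨0,[(19,0)]⟩) .k 0 (⟨0,[]⟩,⟨0,[]⟩) .k .k) (.S ⟨1,0,[0,0,0,-1,0,0,0,1],[0,0,1],[1,1,
  1],(⟨0,[(21,0)]⟩,⟨0,[(20,0)]⟩),⟨0,[(10,0)]⟩,.k,.k,⟨false,0,⟨0,[(6,0)]⟩,⟨0,[(3,0),(11,0)]⟩⟩,⟨true,
  0,⟨0,[(31,0)]⟩,⟨0,[(30,0)]⟩⟩,⟨true,0,⟨0,[(6,0),(23,0)]⟩,⟨0,[(1,0)]⟩⟩,⟨false,1,⟨1,[(11,0),(0,0),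
  (20,0)]⟩,⟨0,[]⟩⟩,[.e ⟨false,0,⟨0,[(35,0)]⟩,⟨1,[(32,0),(0,0)]⟩⟩ ⟨false,0,⟨0,[(1,0)]⟩,⟨1,[(6,1),(23,
  1),(1,0),(0,0)]⟩⟩,.o ⟨false,1,⟨0,[(3,0),(27,0)]⟩,⟨0,[(0,0),(5,0),(22,0)]⟩⟩,.o ⟨false,1,⟨3,[(7,1),
  (3,0),(0,0),(5,1),(4,0)]⟩,⟨0,[(0,0)]⟩⟩,.a ⟨true,0,⟨0,[(18,0)]⟩,⟨0,[(15,0)]⟩⟩ ⟨false,0,⟨0,[]⟩,⟨1,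
  [(11,0),(0,0),(20,0)]⟩⟩ ⟨true,0,⟨0,[(1,0)]⟩,⟨0,[(6,0),(23,0)]⟩⟩]⟩) (.Q [0,-1,0,1,1,0,-1,-1,0,0,
  -1] (.p false [0,0,1] [] (⟨0,[(21,0)]⟩,⟨0,[(20,0)]⟩) .k 0 (⟨0,[]⟩,⟨0,[]⟩) .k .k) (.S ⟨1,0,[0,1,0,
  -1,0,0,0,1],[0,0,1],[0,0,1],(⟨0,[(22,0)]⟩,⟨0,[(21,0)]⟩),⟨0,[(11,0)]⟩,.k,.k,⟨true,0,⟨0,[(7,0)]⟩,⟨1,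
  [(2,0),(0,0),(26,0)]⟩⟩,⟨false,0,⟨0,[(32,0)]⟩,⟨0,[(31,0),(2,0)]⟩⟩,⟨false,1,⟨0,[(0,0),(18,0)]⟩,⟨0,
  [(2,0)]⟩⟩,⟨true,0,⟨0,[(36,0)]⟩,⟨0,[]⟩⟩,[.o ⟨false,0,⟨1,[(1,2),(0,2),(15,0),(10,1),(0,0)]⟩,⟨0,[(0,
  0)]⟩⟩,.e ⟨false,1,⟨7,[(0,2),(4,2),(0,0),(12,2),(14,0)]⟩,⟨1,[(1,0),(0,0),(15,0),(11,0)]⟩⟩ ⟨false,0,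
  ⟨0,[(2,0)]⟩,⟨1,[(0,1),(0,0),(17,0),(7,0)]⟩⟩,.a ⟨true,0,⟨0,[(1,0)]⟩,⟨1,[(9,0),(6,0),(2,0)]⟩⟩ ⟨true,
  0,⟨3,[(9,0),(9,1),(9,0)]⟩,⟨1,[(1,0),(0,0),(15,0),(11,0)]⟩⟩ ⟨false,0,⟨3,[(2,3),(6,0),(9,1),(9,0)]⟩,
  ⟨0,[(0,0),(0,0)]⟩⟩,.e ⟨false,1,⟨7,[(0,2),(4,2),(0,0),(12,2),(14,0)]⟩,⟨0,[]⟩⟩ ⟨false,0,⟨0,[(2,0)]⟩,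
  ⟨0,[(0,0),(18,0)]⟩⟩]⟩) (.R ⟨2,true,false,true,[0,1],[0,0,1],[1,1,0,0,0,0,0,1],(⟨0,[]⟩,⟨0,[]⟩),(⟨0,
  [(22,0)]⟩,⟨0,[(21,0)]⟩),⟨0,[]⟩,.k,.k,.k,.k,.k,.k,⟨true,0,⟨0,[]⟩,⟨3,[(9,0),(9,1),(9,0)]⟩⟩,⟨false,0,
  ⟨0,[(1,0)]⟩,⟨5,[(5,1),(3,1),(8,1),(5,0),(8,2)]⟩⟩,⟨false,0,⟨0,[(2,0)]⟩,⟨0,[(7,0),(23,0),(2,0)]⟩⟩,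
  ⟨true,(-1),⟨0,[(0,0)]⟩,⟨0,[(18,0),(12,0),(2,0)]⟩⟩,⟨true,0,⟨1,[(2,0),(0,0),(26,0)]⟩,⟨0,[(7,0)]⟩⟩,
  ⟨false,0,⟨0,[(0,0),(30,0),(2,0)]⟩,⟨0,[(18,0),(15,0)]⟩⟩,[]⟩))) (.I [0,1,-1,-1,0,0,0,1] (.I [0,0,1,
  1,0,0,0,-1] (.Q [0,0,2,0,0,0,1,0,0,-1,1] (.p true [0,0,1] [1] (⟨0,[(22,0)]⟩,⟨0,[(21,0)]⟩) .k 1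
  (⟨0,[]⟩,⟨0,[]⟩) .k .k) (.I [1,0,0,0,0,0,0,-1] (.Q [0,0,0,0,0,0,-1,0,0,0,-1] (.p false [0,0,1] []
  (⟨0,[(24,0)]⟩,⟨0,[(23,0)]⟩) .k 0 (⟨0,[]⟩,⟨0,[]⟩) .k .k) (.S ⟨1,0,[0,1,1,0,0,0,0,-1],[1,1,-1],[1,0,
  1,1,0,0,0,-1],(⟨0,[(24,0),(4,0)]⟩,⟨0,[(14,0)]⟩),⟨0,[(24,0)]⟩,.k,.k,⟨true,0,⟨0,[]⟩,⟨0,[(39,0)]⟩⟩,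
  ⟨false,0,⟨0,[(35,0)]⟩,⟨0,[(34,0),(2,0)]⟩⟩,⟨false,1,⟨0,[(34,0),(2,0)]⟩,⟨0,[(35,0)]⟩⟩,⟨true,0,⟨0,
  [(39,0)]⟩,⟨0,[]⟩⟩,[.o ⟨false,0,⟨0,[(21,0)]⟩,⟨0,[(7,0)]⟩⟩,.o ⟨false,0,⟨0,[(0,0),(0,0)]⟩,⟨7,[(2,0),
  (4,0),(0,2),(2,1),(8,3),(6,1)]⟩⟩,.a ⟨true,0,⟨0,[(19,0)]⟩,⟨0,[(22,0)]⟩⟩ ⟨true,0,⟨0,[(5,0)]⟩,⟨0,[(4,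
  0)]⟩⟩ ⟨false,0,⟨0,[(10,0)]⟩,⟨0,[(7,0),(11,0)]⟩⟩,.o ⟨false,0,⟨0,[(0,0)]⟩,⟨2,[(2,0),(8,1),(3,0),(0,
  0)]⟩⟩]⟩) (.I [1,0,2,2,0,0,0,-1] (.I [1,1,-1,0,0,0,0,1] (.I [1,0,0,1,0,0,0,-1] (.Q [0,0,1,0,0,0,2,
  0,0,-1,2] (.p true [0,0,1] [1,0,-1] (⟨0,[(28,0)]⟩,⟨0,[(27,0)]⟩) .k 2 (⟨0,[(27,0)]⟩,⟨0,[(28,0)]⟩)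
  .k (.r (-1) ⟨0,[(9,0),(1,0)]⟩ ⟨0,[(0,1),(37,1)]⟩)) (.Q [0,1,0,-1,0,0,1,1,0,-1,1] (.p true [0,0,1]
  [1] (⟨0,[(29,0)]⟩,⟨0,[(28,0)]⟩) .k 1 (⟨0,[]⟩,⟨0,[]⟩) .k .k) (.K ⟨0,[1,1,-1],0,0,(⟨0,[(29,0),(4,
  0)]⟩,⟨0,[(19,0)]⟩),.k,.k,(.x (-1) ⟨9,[(14,1),(2,3),(1,9),(4,1),(6,9),(4,1),(1,5),(2,2),(0,2)]⟩ ⟨0,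
  [(7,0),(21,0),(4,1)]⟩),(.r 0 ⟨0,[(2,0),(12,0)]⟩ ⟨0,[(9,0),(3,0)]⟩),.k,[⟨0,[(1,0)]⟩,⟨1,[(17,0),(6,
  0),(2,0)]⟩,⟨0,[(0,0)]⟩,⟨1,[(4,0),(10,0),(8,1),(10,0)]⟩]⟩) (.Q [0,0,0,-1,0,0,1,1,0,0,1] (.p true
  [0,0,1] [] (⟨0,[(30,0)]⟩,⟨0,[(29,0)]⟩) .k 0 (⟨0,[]⟩,⟨0,[]⟩) .k .k) (.R ⟨0,false,false,true,[1,0,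
  -1],[1,-1],[0,1],(⟨0,[(30,0)]⟩,⟨0,[(31,0)]⟩),(⟨0,[(34,0)]⟩,⟨0,[(35,0)]⟩),⟨0,[(19,0)]⟩,.k,.k,.k,.k,
  .k,.k,⟨true,0,⟨3,[(0,0),(0,2),(0,0),(1,2),(0,0),(32,1)]⟩,⟨0,[(41,0)]⟩⟩,⟨false,0,⟨0,[(6,0)]⟩,⟨5,
  [(14,1),(3,1),(8,1),(5,0),(8,2)]⟩⟩,⟨true,0,⟨0,[(12,0)]⟩,⟨0,[(7,0)]⟩⟩,⟨false,0,⟨0,[(0,0)]⟩,⟨6,[(1,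
  2),(3,1),(12,0),(8,1),(5,1),(8,1),(0,2)]⟩⟩,⟨false,0,⟨0,[]⟩,⟨0,[]⟩⟩,⟨false,0,⟨0,[]⟩,⟨0,[]⟩⟩,[.o
  ⟨false,0,⟨0,[(41,0),(3,0)]⟩,⟨8,[(1,4),(3,0),(7,4),(0,0),(22,2),(1,1)]⟩⟩,.o ⟨false,0,⟨0,[(41,0)]⟩,
  ⟨5,[(5,1),(8,1),(18,2),(5,1),(2,0)]⟩⟩,.a ⟨true,0,⟨1,[(18,0),(6,0),(2,0)]⟩,⟨0,[(6,0)]⟩⟩ ⟨true,0,⟨0,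
  [(45,0)]⟩,⟨0,[]⟩⟩ ⟨false,0,⟨0,[(0,0),(6,0)]⟩,⟨11,[(1,5),(3,1),(8,7),(3,2),(18,2),(1,1),(2,0)]⟩⟩,
  .o ⟨false,0,⟨0,[(29,0)]⟩,⟨0,[(17,0)]⟩⟩]⟩) (.R ⟨0,false,false,true,[1,0,-1],[0,-1,1],[0,1],(⟨0,
  [(30,0)]⟩,⟨0,[(31,0)]⟩),(⟨0,[(20,0)]⟩,⟨0,[(30,0),(4,0)]⟩),⟨0,[(19,0)]⟩,.k,.k,.k,(.r 0 ⟨0,[(3,0),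
  (12,0)]⟩ ⟨0,[(10,0),(3,0)]⟩),.k,.k,⟨false,0,⟨0,[(0,0),(0,0),(0,0),(7,0)]⟩,⟨2,[(12,0),(1,1),(0,0),
  (29,0)]⟩⟩,⟨true,0,⟨0,[(2,0)]⟩,⟨0,[(18,0)]⟩⟩,⟨true,0,⟨0,[(12,0)]⟩,⟨0,[(7,0)]⟩⟩,⟨false,1,⟨0,[(10,0),
  (2,0),(14,0)]⟩,⟨0,[(0,0),(0,0),(39,0)]⟩⟩,⟨false,0,⟨0,[]⟩,⟨0,[]⟩⟩,⟨false,0,⟨0,[]⟩,⟨0,[]⟩⟩,[.a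
  ⟨true,0,⟨0,[(10,0),(17,0)]⟩,⟨0,[(1,0)]⟩⟩ ⟨false,0,⟨1,[(7,0),(2,0),(28,0)]⟩,⟨6,[(5,2),(8,2),(0,1),
  (27,1)]⟩⟩ ⟨true,0,⟨0,[(2,0),(7,0)]⟩,⟨1,[(1,1),(16,0),(19,0)]⟩⟩,.o ⟨false,1,⟨5,[(8,1),(4,0),(0,1),
  (0,1),(10,2),(6,0),(4,0)]⟩,⟨0,[(0,0)]⟩⟩,.e ⟨true,0,⟨0,[(45,0)]⟩,⟨0,[]⟩⟩ ⟨true,0,⟨0,[(2,0),(7,0)]⟩,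
  ⟨10,[(0,3),(0,4),(3,0),(12,5),(8,0),(8,1)]⟩⟩,.o ⟨false,0,⟨0,[(29,0)]⟩,⟨0,[(17,0)]⟩⟩]⟩))) (.Q [0,0,
  0,2,0,0,-1,-1,0,0,-1] (.p false [0,0,1] [] (⟨0,[(29,0)]⟩,⟨0,[(28,0)]⟩) .k 0 (⟨0,[]⟩,⟨0,[]⟩) .k
  .k) (.Q [0,0,0,0,0,-2,0,0,0,0,1] (.p true [0,0,1] [] (⟨0,[(30,0)]⟩,⟨0,[(29,0)]⟩) .k 0 (⟨0,[]⟩,⟨0,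
  []⟩) .k .k) (.S ⟨1,0,[0,0,-1,-2,0,0,0,1],[0,-1,1],[1,1,-1,-1,0,0,0,1],(⟨0,[(20,0)]⟩,⟨0,[(30,0),(4,
  0)]⟩),⟨0,[(0,0)]⟩,.k,(.r (-1) ⟨1,[(10,0),(3,0),(0,0)]⟩ ⟨0,[(1,0),(4,0),(37,1)]⟩),⟨false,0,⟨0,[]⟩,
  ⟨6,[(5,2),(8,2),(0,1),(27,1)]⟩⟩,⟨true,0,⟨0,[(41,0)]⟩,⟨0,[(40,0)]⟩⟩,⟨true,0,⟨0,[(40,0)]⟩,⟨0,[(41,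
  0)]⟩⟩,⟨false,1,⟨6,[(5,2),(8,2),(0,1),(27,1)]⟩,⟨0,[]⟩⟩,[.o ⟨false,1,⟨1,[(8,1),(1,0),(3,0),(0,0)]⟩,
  ⟨0,[(1,0)]⟩⟩,.o ⟨false,1,⟨0,[(13,0),(27,1)]⟩,⟨2,[(1,1),(25,0),(12,1)]⟩⟩,.a ⟨true,0,⟨0,[(28,0)]⟩,
  ⟨0,[(25,0)]⟩⟩ ⟨true,0,⟨0,[(10,0)]⟩,⟨0,[(9,0)]⟩⟩ ⟨false,1,⟨0,[(10,0),(30,0),(1,0)]⟩,⟨1,[(1,0),(3,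
  0),(0,0)]⟩⟩,.o ⟨false,0,⟨0,[(8,0)]⟩,⟨3,[(2,1),(30,0),(8,2)]⟩⟩]⟩) (.I [0,0,0,0,1,0,0,0,-1] (.I [0,
  0,0,2,0,0,0,-1] (.I [0,0,-1,0,0,0,-2] (.I [0,0,0,0,0,2,1] (.C [(0,0),(5,0),(3,0),(12,0),(12,2),
  (11,0)]) (.C [(0,0),(3,0),(5,0)])) (.C [(0,0),(4,0),(16,0),(0,0)])) (.C [(0,0),(2,0),(4,0)])) (.C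
  [(0,0),(21,0),(2,0)]))) (.Q [0,0,0,1,0,0,-1,-1,0,0,-1] (.p false [0,0,1] [] (⟨0,[(30,0)]⟩,⟨0,[(29,
  0)]⟩) .k 0 (⟨0,[]⟩,⟨0,[]⟩) .k .k) (.Q [0,0,0,0,0,-2,0,0,0,0,1] (.p true [0,0,1] [] (⟨0,[(31,0)]⟩,
  ⟨0,[(30,0)]⟩) .k 0 (⟨0,[]⟩,⟨0,[]⟩) .k .k) (.S ⟨1,1,[],[0,-1,1],[1,1,-1,-1,0,0,0,1],(⟨0,[(21,0)]⟩,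
  ⟨0,[(31,0),(4,0)]⟩),⟨0,[(0,0)]⟩,.k,(.x 0 ⟨0,[(9,0),(21,0),(4,1)]⟩ ⟨3,[(0,3),(2,1),(30,0),(8,2)]⟩),
  ⟨false,0,⟨0,[]⟩,⟨6,[(6,2),(8,2),(0,1),(27,1)]⟩⟩,⟨true,0,⟨0,[(1,0)]⟩,⟨1,[(2,0),(24,0),(18,0)]⟩⟩,
  ⟨true,0,⟨0,[(41,0)]⟩,⟨0,[(42,0)]⟩⟩,⟨false,1,⟨5,[(1,5),(4,1),(8,1),(24,1),(2,0),(0,2)]⟩,⟨0,[(2,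
  0)]⟩⟩,[.fo,.o ⟨false,1,⟨1,[(34,0),(9,0)]⟩,⟨0,[(46,0)]⟩⟩,.a ⟨true,0,⟨0,[(29,0)]⟩,⟨0,[(26,0)]⟩⟩
  ⟨true,0,⟨0,[(11,0)]⟩,⟨0,[(10,0)]⟩⟩ ⟨false,1,⟨3,[(3,1),(30,0),(8,0),(0,1)]⟩,⟨0,[(29,0)]⟩⟩,.o
  ⟨false,0,⟨0,[(9,0)]⟩,⟨3,[(3,1),(30,0),(8,2)]⟩⟩]⟩) (.I [0,0,0,1,0,0,0,-1] (.I [0,0,0,0,1,0,0,0,-1]
  (.I [0,0,-1,0,0,0,-2] (.I [0,0,0,0,0,2,1] (.C [(0,0),(6,0),(3,0),(12,0),(12,2),(11,0)]) (.C [(0,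
  0),(3,0),(6,0)])) (.C [(0,0),(5,0),(16,0),(0,0)])) (.C [(0,0),(23,0),(2,0)])) (.C [(0,0),(1,0),(5,
  0)]))) (.I [1,0,1,1,0,0,0,1] (.R ⟨0,false,false,true,[1,0,-1],[1,-1],[0,1],(⟨0,[(31,0)]⟩,⟨0,[(32,
  0)]⟩),(⟨0,[(35,0)]⟩,⟨0,[(36,0)]⟩),⟨0,[(20,0)]⟩,.k,.k,.k,.k,.k,.k,⟨true,0,⟨1,[(0,0),(3,0),(40,0)]⟩,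
  ⟨0,[(42,0)]⟩⟩,⟨false,0,⟨0,[(7,0)]⟩,⟨5,[(15,1),(3,1),(8,1),(5,0),(8,2)]⟩⟩,⟨true,0,⟨0,[(13,0)]⟩,⟨0,
  [(8,0)]⟩⟩,⟨false,0,⟨0,[(1,0)]⟩,⟨5,[(3,1),(0,1),(1,1),(21,1),(5,0),(8,0),(0,3)]⟩⟩,⟨false,0,⟨0,[]⟩,
  ⟨0,[]⟩⟩,⟨false,0,⟨0,[]⟩,⟨0,[]⟩⟩,[.o ⟨false,0,⟨1,[(2,0),(25,0),(17,0)]⟩,⟨2,[(0,0),(3,0),(33,0),(1,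
  0),(3,1)]⟩⟩,.o ⟨false,0,⟨0,[(42,0)]⟩,⟨5,[(6,1),(8,1),(18,2),(5,1),(2,0)]⟩⟩,.a ⟨true,0,⟨1,[(19,0),
  (6,0),(2,0)]⟩,⟨0,[(7,0)]⟩⟩ ⟨true,0,⟨0,[(46,0)]⟩,⟨0,[]⟩⟩ ⟨false,0,⟨1,[(2,0),(4,0),(0,0)]⟩,⟨35,[(3,
  17),(2,13),(8,13),(22,5),(1,7),(2,0),(0,14)]⟩⟩,.o ⟨false,0,⟨0,[(30,0)]⟩,⟨0,[(18,0)]⟩⟩]⟩) (.Q [0,0,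
  0,0,0,-2,0,0,0,0,1] (.p true [0,0,1] [] (⟨0,[(32,0)]⟩,⟨0,[(31,0)]⟩) .k 0 (⟨0,[]⟩,⟨0,[]⟩) .k .k)
  (.R ⟨1,false,false,true,[0,-1,1],[1,0,-1],[1,1,-1,-1,0,0,0,1],(⟨0,[(22,0)]⟩,⟨0,[(32,0),(4,0)]⟩),
  (⟨0,[(32,0)]⟩,⟨0,[(33,0)]⟩),⟨0,[(0,0)]⟩,.k,.k,(.x 0 ⟨0,[(10,0),(21,0),(4,1)]⟩ ⟨3,[(0,3),(3,1),(30,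
  0),(8,2)]⟩),(.r (-1) ⟨0,[(12,0),(3,0)]⟩ ⟨0,[(1,0),(5,0)]⟩),(.r (-1) ⟨3,[(2,1),(1,1),(7,2),(2,1),
  (0,0),(0,0)]⟩ ⟨2,[(1,1),(5,3)]⟩),.k,⟨false,1,⟨0,[(12,0),(2,0),(11,0)]⟩,⟨0,[(1,0),(5,0)]⟩⟩,⟨true,0,
  ⟨0,[(4,0)]⟩,⟨0,[(8,0),(1,0)]⟩⟩,⟨false,0,⟨0,[]⟩,⟨6,[(7,2),(8,2),(0,1),(27,1)]⟩⟩,⟨false,0,⟨2,[(1,0),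
  (3,3),(12,0),(1,2)]⟩,⟨0,[(2,0),(12,0)]⟩⟩,⟨true,0,⟨0,[(42,0)]⟩,⟨0,[(43,0)]⟩⟩,⟨false,0,⟨0,[(5,1),
  (14,0)]⟩,⟨0,[(3,0),(11,0)]⟩⟩,[.o ⟨false,0,⟨0,[(29,0)]⟩,⟨0,[(15,0)]⟩⟩,.o ⟨false,0,⟨1,[(1,0),(2,0),
  (0,0),(34,0)]⟩,⟨7,[(10,0),(4,0),(0,2),(2,1),(8,3),(6,1)]⟩⟩,.a ⟨true,0,⟨0,[(30,0)]⟩,⟨0,[(27,0)]⟩⟩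
  ⟨true,0,⟨0,[(12,0)]⟩,⟨0,[(11,0)]⟩⟩ ⟨false,0,⟨1,[(1,0),(2,0),(0,0),(14,0)]⟩,⟨0,[(15,0),(14,0)]⟩⟩,
  .o ⟨false,0,⟨0,[(10,0)]⟩,⟨3,[(4,1),(30,0),(8,2)]⟩⟩]⟩) (.I [0,0,0,0,1,0,0,0,-1] (.I [0,0,0,0,0,2,
  1] (.C [(0,0),(5,0),(3,0),(12,0),(12,2),(11,0)]) (.C [(0,0),(1,0),(7,0)])) (.C [(0,0),(23,0),(2,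
  0)]))))))) (.S ⟨1,0,[0,0,0,-1,0,0,0,1],[0,0,1],[1,1],(⟨0,[(28,0)]⟩,⟨0,[(27,0)]⟩),⟨0,[(17,0)]⟩,.k,
  .k,⟨false,0,⟨0,[(4,0)]⟩,⟨0,[(11,0)]⟩⟩,⟨true,0,⟨0,[(38,0)]⟩,⟨0,[(37,0)]⟩⟩,⟨true,0,⟨2,[(2,0),(1,1),
  (28,0),(2,0)]⟩,⟨0,[(0,0)]⟩⟩,⟨false,1,⟨6,[(2,2),(8,2),(0,1),(27,1)]⟩,⟨0,[]⟩⟩,[.a ⟨true,0,⟨0,[(0,0),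
  (2,0)]⟩,⟨1,[(2,0),(1,0),(17,1)]⟩⟩ ⟨false,0,⟨1,[(4,0),(2,0),(28,0)]⟩,⟨6,[(2,2),(8,2),(0,1),(27,
  1)]⟩⟩ ⟨true,0,⟨0,[(0,0)]⟩,⟨0,[(8,0)]⟩⟩,.o ⟨false,1,⟨11,[(0,5),(2,2),(1,2),(4,5),(1,1),(21,0),(5,
  2)]⟩,⟨1,[(4,1),(10,0),(19,0),(0,1)]⟩⟩,.a ⟨true,0,⟨0,[(3,0)]⟩,⟨1,[(15,0),(6,0),(2,0)]⟩⟩ ⟨false,0,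
  ⟨0,[]⟩,⟨6,[(2,2),(8,2),(0,1),(27,1)]⟩⟩ ⟨true,0,⟨0,[(0,0)]⟩,⟨2,[(2,0),(1,1),(28,0),(2,0)]⟩⟩,.a
  ⟨true,0,⟨0,[(25,0)]⟩,⟨0,[(22,0)]⟩⟩ ⟨true,0,⟨1,[(4,0),(2,0),(28,0)]⟩,⟨3,[(15,0),(9,1),(9,0)]⟩⟩
  ⟨false,1,⟨4,[(0,1),(9,1),(0,0),(0,0),(9,1),(17,0)]⟩,⟨0,[(8,0)]⟩⟩]⟩)) (.Q [0,0,0,0,0,0,-1,-1,0,0,
  -1] (.p false [0,0,1] [] (⟨0,[(27,0)]⟩,⟨0,[(26,0)]⟩) .k 0 (⟨0,[]⟩,⟨0,[]⟩) .k .k) (.S ⟨1,0,[0,1,1,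
  0,0,0,0,-1],[1,1,-1],[0,0,1,0,0,0,0,-1],(⟨0,[(27,0),(4,0)]⟩,⟨0,[(17,0)]⟩),⟨0,[(27,0)]⟩,.k,.k,
  ⟨true,0,⟨0,[(38,0)]⟩,⟨0,[(37,0)]⟩⟩,⟨false,0,⟨0,[(38,0)]⟩,⟨5,[(2,1),(8,1),(24,1),(2,0),(0,2)]⟩⟩,
  ⟨false,1,⟨6,[(2,2),(8,2),(0,1),(27,1)]⟩,⟨0,[]⟩⟩,⟨true,0,⟨0,[(42,0)]⟩,⟨0,[]⟩⟩,[.o ⟨false,0,⟨0,[(24,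
  0)]⟩,⟨0,[(10,0)]⟩⟩,.o ⟨false,0,⟨0,[(0,0)]⟩,⟨7,[(5,0),(4,0),(0,2),(2,1),(8,3),(6,1)]⟩⟩,.e ⟨false,0,
  ⟨0,[(1,0)]⟩,⟨1,[(9,0),(1,0),(27,0)]⟩⟩ ⟨false,0,⟨0,[(13,0)]⟩,⟨0,[(10,0),(11,0)]⟩⟩,.a ⟨true,0,⟨1,
  [(15,0),(6,0),(2,0)]⟩,⟨0,[(3,0)]⟩⟩ ⟨true,0,⟨0,[(1,1),(5,0),(28,0)]⟩,⟨0,[(9,0)]⟩⟩ ⟨false,0,⟨0,[(1,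
  1),(5,0),(28,0)]⟩,⟨0,[(11,0)]⟩⟩]⟩) (.R ⟨2,false,false,true,[0,1],[0,0,1],[1,1,0,0,0,0,0,1],(⟨0,
  []⟩,⟨0,[]⟩),(⟨0,[(28,0)]⟩,⟨0,[(27,0)]⟩),⟨0,[]⟩,.k,.k,.k,.k,.k,.k,⟨true,0,⟨0,[]⟩,⟨3,[(15,0),(9,1),
  (9,0)]⟩⟩,⟨false,0,⟨0,[(3,0)]⟩,⟨5,[(11,1),(3,1),(8,1),(5,0),(8,2)]⟩⟩,⟨true,0,⟨0,[(7,0)]⟩,⟨0,[(6,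
  0)]⟩⟩,⟨false,0,⟨0,[(0,0),(37,0)]⟩,⟨7,[(2,3),(1,1),(17,5),(1,1),(9,1),(4,0),(0,4)]⟩⟩,⟨false,1,⟨1,
  [(9,0),(1,0),(27,0)]⟩,⟨0,[(1,0)]⟩⟩,⟨false,0,⟨0,[(0,0)]⟩,⟨0,[(24,0),(15,0)]⟩⟩,[.a ⟨true,0,⟨0,[(23,
  0)]⟩,⟨0,[(1,0),(20,0)]⟩⟩ ⟨true,0,⟨0,[(9,0)]⟩,⟨0,[(1,0)]⟩⟩ ⟨false,0,⟨0,[(23,0)]⟩,⟨7,[(4,5),(17,5),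
  (1,1),(9,1),(4,0),(0,4)]⟩⟩,.e ⟨false,1,⟨1,[(9,0),(1,0),(27,0)]⟩,⟨0,[(1,1),(5,0),(28,0)]⟩⟩ ⟨false,
  0,⟨0,[(0,0)]⟩,⟨1,[(24,1),(14,0),(0,0)]⟩⟩,.o ⟨false,1,⟨1,[(30,0),(8,0)]⟩,⟨3,[(15,0),(9,1),(9,0)]⟩⟩,
  .fo]⟩))) (.Q [0,0,0,0,0,-2,0,0,0,0,1] (.p true [0,0,1] [] (⟨0,[(26,0)]⟩,⟨0,[(25,0)]⟩) .k 0 (⟨0,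
  []⟩,⟨0,[]⟩) .k .k) (.S ⟨1,3,[],[0,-1,1],[1,1,-1,-1,0,0,0,1],(⟨0,[(16,0)]⟩,⟨0,[(26,0),(4,0)]⟩),⟨0,
  [(0,0)]⟩,.k,(.r 0 ⟨0,[(1,0)]⟩ ⟨0,[(7,1),(2,0),(30,0)]⟩),⟨false,0,⟨0,[]⟩,⟨1,[(17,0),(0,0),(20,
  0)]⟩⟩,⟨true,0,⟨0,[(7,0),(13,0)]⟩,⟨1,[(1,0),(2,1),(1,0),(28,0)]⟩⟩,⟨true,0,⟨0,[(36,0)]⟩,⟨0,[(37,
  0)]⟩⟩,⟨false,1,⟨0,[(7,0),(13,0),(14,0),(2,0)]⟩,⟨0,[(1,0),(2,0)]⟩⟩,[.fa ⟨false,0,⟨1,[(1,0),(4,0),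
  (28,0)]⟩,⟨1,[(7,1),(9,0),(0,0),(20,0)]⟩⟩ ⟨true,0,⟨0,[(21,0)]⟩,⟨0,[(4,0)]⟩⟩,.o ⟨false,1,⟨1,[(17,0),
  (0,0),(20,0)]⟩,⟨1,[(1,0),(1,0),(30,1),(0,1)]⟩⟩,.e ⟨true,0,⟨0,[(6,0)]⟩,⟨0,[(5,0)]⟩⟩ ⟨true,0,⟨0,
  [(21,0)]⟩,⟨5,[(1,0),(1,0),(0,5),(27,1),(2,1)]⟩⟩,.o ⟨false,0,⟨0,[(4,0)]⟩,⟨3,[(14,0),(6,1),(11,0),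
  (4,2)]⟩⟩]⟩) (.I [0,0,0,0,1,0,0,0,-1] (.I [0,0,0,0,0,2,1] (.C [(0,0),(16,0),(5,0),(6,2),(11,0)])
  (.C [(0,0),(1,0),(1,0)])) (.C [(0,0),(17,0),(2,0)]))))) (.Q [0,0,0,0,0,0,-1,-1,0,0,-1] (.p false
  [0,0,1] [] (⟨0,[(24,0)]⟩,⟨0,[(23,0)]⟩) .k 0 (⟨0,[]⟩,⟨0,[]⟩) .k .k) (.S ⟨1,0,[0,1,1,0,0,0,0,-1],[1,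
  1,-1],[1,0,1,1,0,0,0,-1],(⟨0,[(24,0),(4,0)]⟩,⟨0,[(14,0)]⟩),⟨0,[(24,0)]⟩,.k,.k,⟨true,0,⟨0,[]⟩,⟨0,
  [(39,0)]⟩⟩,⟨false,0,⟨0,[(35,0)]⟩,⟨0,[(34,0),(2,0)]⟩⟩,⟨false,1,⟨0,[(34,0),(2,0)]⟩,⟨0,[(35,0)]⟩⟩,
  ⟨true,0,⟨0,[(39,0)]⟩,⟨0,[]⟩⟩,[.o ⟨false,0,⟨0,[(21,0)]⟩,⟨0,[(7,0)]⟩⟩,.o ⟨false,0,⟨0,[(0,0)]⟩,⟨7,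
  [(2,0),(4,0),(0,2),(2,1),(8,3),(6,1)]⟩⟩,.a ⟨true,0,⟨0,[(19,0)]⟩,⟨0,[(22,0)]⟩⟩ ⟨true,0,⟨0,[(5,0)]⟩,
  ⟨0,[(4,0)]⟩⟩ ⟨false,0,⟨0,[(10,0)]⟩,⟨0,[(7,0),(11,0)]⟩⟩,.o ⟨false,0,⟨0,[(0,0),(0,0)]⟩,⟨2,[(2,0),(8,
  1),(3,0),(0,0)]⟩⟩]⟩) (.Q [0,-1,1,1,0,0,-1,0,0,1,-1] (.p false [0,0,1] [1] (⟨0,[(25,0)]⟩,⟨0,[(24,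
  0)]⟩) .k 1 (⟨0,[]⟩,⟨0,[]⟩) .k .k) (.Q [0,-1,0,1,1,0,0,0,0,-1] (.pp true [-1,1]) (.Q [0,0,0,0,0,-2,
  0,0,0,0,1] (.p true [0,0,1] [] (⟨0,[(27,0)]⟩,⟨0,[(26,0)]⟩) .k 0 (⟨0,[]⟩,⟨0,[]⟩) .k .k) (.R ⟨1,
  false,false,true,[0,-1,1],[1,-1],[1,1,-1,-1,0,0,0,1],(⟨0,[(17,0)]⟩,⟨0,[(27,0),(4,0)]⟩),(⟨0,[(31,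
  0)]⟩,⟨0,[(32,0)]⟩),⟨0,[(0,0)]⟩,.k,.k,(.r (-1) ⟨1,[(7,0),(3,0),(0,0)]⟩ ⟨1,[(2,0),(2,0),(2,1),(27,
  0)]⟩),.k,.k,.k,⟨true,0,⟨0,[(4,0)]⟩,⟨0,[(13,0)]⟩⟩,⟨false,0,⟨0,[(22,0)]⟩,⟨2,[(5,0),(8,1),(3,0),(0,
  0)]⟩⟩,⟨false,0,⟨0,[]⟩,⟨1,[(18,0),(0,0),(20,0)]⟩⟩,⟨false,0,⟨0,[(13,0),(8,0)]⟩,⟨0,[(10,0)]⟩⟩,⟨true,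
  0,⟨0,[(37,0)]⟩,⟨0,[(38,0)]⟩⟩,⟨false,0,⟨0,[(8,0),(13,0)]⟩,⟨0,[(10,0),(27,0)]⟩⟩,[.o ⟨false,0,⟨0,
  [(38,0),(3,0)]⟩,⟨0,[(1,0)]⟩⟩,.o ⟨false,0,⟨0,[(38,0)]⟩,⟨7,[(1,1),(6,1),(2,1),(18,2),(6,3),(1,0)]⟩⟩,
  .a ⟨true,0,⟨0,[(25,0)]⟩,⟨0,[(22,0)]⟩⟩ ⟨true,0,⟨0,[(7,0)]⟩,⟨0,[(6,0)]⟩⟩ ⟨false,0,⟨0,[(22,0),(15,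
  0)]⟩,⟨0,[(8,0),(1,0)]⟩⟩,.o ⟨false,0,⟨0,[(5,0)]⟩,⟨3,[(15,0),(6,1),(11,0),(4,2)]⟩⟩]⟩) (.I [0,0,0,0,
  1,0,0,0,-1] (.I [0,0,-1,0,0,1,-1] (.C [(0,0),(1,0),(2,0),(2,0),(22,2),(8,0)]) (.C [(0,0),(17,0),
  (5,0)])) (.C [(0,0),(18,0),(2,0)]))) (.R ⟨0,false,false,false,[1,0,-1],[0,0,1],[1,0,0,0,0,0,0,1],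
  (⟨0,[(26,0)]⟩,⟨0,[(27,0)]⟩),(⟨0,[(27,0)]⟩,⟨0,[(26,0)]⟩),⟨0,[(15,0)]⟩,.k,.k,.k,.k,.k,.k,⟨true,0,⟨0,
  []⟩,⟨3,[(14,0),(9,1),(9,0)]⟩⟩,⟨false,1,⟨0,[(0,4),(1,1),(4,1),(25,1),(1,2),(3,3)]⟩,⟨0,[(14,0)]⟩⟩,
  ⟨true,0,⟨0,[(3,1)]⟩,⟨2,[(0,5),(6,5),(3,0),(21,1),(1,2),(3,2)]⟩⟩,⟨false,1,⟨0,[(2,0),(6,0)]⟩,⟨0,[(0,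
  1),(6,1),(13,1),(11,0),(5,0)]⟩⟩,⟨false,0,⟨0,[]⟩,⟨0,[]⟩⟩,⟨false,0,⟨0,[]⟩,⟨0,[]⟩⟩,[.a ⟨true,0,⟨0,
  [(2,0)]⟩,⟨0,[(12,0),(8,0)]⟩⟩ ⟨true,0,⟨0,[(3,0)]⟩,⟨0,[(12,0)]⟩⟩ ⟨false,1,⟨0,[(2,0),(10,0)]⟩,⟨1,[(0,
  0),(0,0),(10,1),(8,2),(11,0)]⟩⟩,.o ⟨false,1,⟨0,[(9,0)]⟩,⟨0,[(23,0)]⟩⟩,.o ⟨false,0,⟨2,[(0,2),(0,1),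
  (19,0),(11,1),(1,0),(3,0)]⟩,⟨2,[(4,0),(8,1),(3,0),(0,0)]⟩⟩,.o ⟨false,0,⟨0,[(25,0)]⟩,⟨0,[(13,
  0)]⟩⟩]⟩)) (.Q [0,0,0,0,0,-2,0,0,0,0,1] (.p true [0,0,1] [] (⟨0,[(26,0)]⟩,⟨0,[(25,0)]⟩) .k 0 (⟨0,
  []⟩,⟨0,[]⟩) .k .k) (.R ⟨1,false,false,true,[0,-1,1],[1,-1],[1,1,-1,-1,0,0,0,1],(⟨0,[(16,0)]⟩,⟨0,
  [(26,0),(4,0)]⟩),(⟨0,[(30,0)]⟩,⟨0,[(31,0)]⟩),⟨0,[(0,0)]⟩,.k,.k,(.r (-1) ⟨1,[(6,0),(3,0),(0,0)]⟩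
  ⟨0,[(3,0),(3,1)]⟩),.k,.k,.k,⟨true,0,⟨0,[(3,0)]⟩,⟨0,[(12,0)]⟩⟩,⟨false,0,⟨0,[(21,0)]⟩,⟨2,[(4,0),(8,
  1),(3,0),(0,0)]⟩⟩,⟨false,0,⟨0,[]⟩,⟨1,[(17,0),(0,0),(20,0)]⟩⟩,⟨false,0,⟨0,[(12,0),(8,0)]⟩,⟨0,[(9,
  0)]⟩⟩,⟨true,0,⟨0,[(36,0)]⟩,⟨0,[(37,0)]⟩⟩,⟨false,0,⟨0,[(7,0),(13,0)]⟩,⟨0,[(9,0),(27,0)]⟩⟩,[.e
  ⟨false,0,⟨0,[(1,0),(1,0),(17,0)]⟩,⟨1,[(7,1),(9,0),(0,0),(20,0)]⟩⟩ ⟨false,0,⟨2,[(1,0),(19,3),(10,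
  0),(4,1)]⟩,⟨0,[(7,0),(1,0)]⟩⟩,.o ⟨false,0,⟨0,[(37,0)]⟩,⟨1,[(29,0),(6,1),(2,0)]⟩⟩,.a ⟨true,0,⟨0,
  [(24,0)]⟩,⟨0,[(21,0)]⟩⟩ ⟨true,0,⟨0,[(6,0)]⟩,⟨0,[(5,0)]⟩⟩ ⟨false,0,⟨0,[(21,0),(15,0)]⟩,⟨0,[(7,0),
  (1,0)]⟩⟩,.o ⟨false,0,⟨0,[(4,0)]⟩,⟨3,[(14,0),(6,1),(11,0),(4,2)]⟩⟩]⟩) (.I [0,0,0,0,1,0,0,0,-1] (.I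
  [0,0,-1,0,0,1,-1] (.C [(0,0),(1,0),(1,0),(2,0),(22,2),(8,0)]) (.C [(0,0),(16,0),(5,0)])) (.C [(0,
  0),(17,0),(2,0)])))))) (.Q [0,0,0,0,0,0,-1,-1,0,0,-1] (.p false [0,0,1] [] (⟨0,[(23,0)]⟩,⟨0,[(22,
  0)]⟩) .k 0 (⟨0,[]⟩,⟨0,[]⟩) .k .k) (.S ⟨1,0,[0,1,1,0,0,0,0,-1],[1,1,-1],[1,0,1,1,0,0,0,-1],(⟨0,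
  [(23,0),(4,0)]⟩,⟨0,[(13,0)]⟩),⟨0,[(23,0)]⟩,.k,.k,⟨true,0,⟨0,[]⟩,⟨0,[(38,0)]⟩⟩,⟨false,0,⟨0,[(34,
  0)]⟩,⟨0,[(33,0),(2,0)]⟩⟩,⟨false,1,⟨0,[(33,0),(2,0)]⟩,⟨0,[(34,0)]⟩⟩,⟨true,0,⟨0,[(38,0)]⟩,⟨0,[]⟩⟩,
  [.o ⟨false,0,⟨0,[(20,0)]⟩,⟨0,[(6,0)]⟩⟩,.o ⟨false,0,⟨0,[(0,0)]⟩,⟨5,[(6,0),(0,1),(2,0),(8,2),(1,0),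
  (4,1)]⟩⟩,.a ⟨true,0,⟨0,[(18,0)]⟩,⟨0,[(21,0)]⟩⟩ ⟨true,0,⟨0,[(4,0)]⟩,⟨0,[(3,0)]⟩⟩ ⟨false,0,⟨0,[(9,
  0)]⟩,⟨1,[(1,0),(4,0),(0,0)]⟩⟩,.o ⟨false,0,⟨0,[(1,0),(29,0)]⟩,⟨3,[(10,1),(3,0),(0,0),(5,1),(4,
  0)]⟩⟩]⟩) (.R ⟨0,false,false,false,[1,0,-1],[0,-1,1],[1],(⟨0,[(23,0)]⟩,⟨0,[(24,0)]⟩),(⟨0,[(13,0)]⟩,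
  ⟨0,[(23,0),(4,0)]⟩),⟨0,[(12,0)]⟩,.k,.k,.k,(.x 0 ⟨1,[(1,3),(10,0),(0,2),(17,2)]⟩ ⟨1,[(10,0),(10,2),
  (1,3),(4,1),(1,0)]⟩),.k,.k,⟨true,0,⟨0,[(4,0)]⟩,⟨0,[(0,0),(0,0),(29,0),(2,0)]⟩⟩,⟨false,1,⟨0,[(10,
  0),(10,0)]⟩,⟨1,[(1,1),(9,0),(19,0)]⟩⟩,⟨true,0,⟨0,[(0,0),(0,0),(29,0)]⟩,⟨0,[(9,0),(22,0),(1,0)]⟩⟩,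
  ⟨false,1,⟨0,[(0,0),(5,0),(27,0)]⟩,⟨0,[(1,1),(2,0),(4,0),(21,0)]⟩⟩,⟨false,0,⟨0,[]⟩,⟨0,[]⟩⟩,⟨false,
  0,⟨0,[]⟩,⟨0,[]⟩⟩,[.a ⟨true,0,⟨0,[(0,0),(33,0)]⟩,⟨0,[(4,0),(13,0)]⟩⟩ ⟨true,0,⟨0,[]⟩,⟨3,[(11,0),(9,
  1),(9,0)]⟩⟩ ⟨false,1,⟨6,[(0,6),(7,1),(1,3),(10,2),(8,0),(3,0)]⟩,⟨1,[(1,1),(2,1),(6,0),(19,0)]⟩⟩,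
  .o ⟨false,1,⟨0,[(6,0),(27,0)]⟩,⟨1,[(1,0),(2,0),(15,0),(10,0),(0,0)]⟩⟩,.o ⟨false,0,⟨0,[(1,0),(29,
  0)]⟩,⟨3,[(10,1),(3,0),(0,0),(5,1),(4,0)]⟩⟩,.o ⟨false,0,⟨0,[(22,0)]⟩,⟨0,[(10,0)]⟩⟩]⟩))) (.N [0,-1,
  1] 0 ⟨0,[(0,0)]⟩ ⟨0,[(2,0)]⟩ .k)) (.Q [0,0,0,0,0,0,-1,0,0,0,-1] (.p false [0,0,1] [] (⟨0,[(21,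
  0)]⟩,⟨0,[(20,0)]⟩) .k 0 (⟨0,[]⟩,⟨0,[]⟩) .k .k) (.S ⟨1,0,[0,1,0,-1,0,0,0,1],[0,0,1],[1,0,0,0,0,0,0,
  1],(⟨0,[(22,0)]⟩,⟨0,[(21,0)]⟩),⟨0,[(11,0)]⟩,.k,.k,⟨true,0,⟨0,[]⟩,⟨0,[(36,0)]⟩⟩,⟨false,0,⟨0,[(32,
  0)]⟩,⟨0,[(31,0),(2,0)]⟩⟩,⟨false,1,⟨0,[(31,0),(2,0)]⟩,⟨0,[(32,0)]⟩⟩,⟨true,0,⟨0,[(36,0)]⟩,⟨0,[]⟩⟩,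
  [.a ⟨true,0,⟨0,[(17,0),(14,0)]⟩,⟨0,[(1,0),(14,0)]⟩⟩ ⟨false,1,⟨1,[(3,0),(1,0),(27,0)]⟩,⟨0,[(1,0),
  (28,0),(1,1)]⟩⟩ ⟨true,0,⟨0,[(3,0),(28,0)]⟩,⟨0,[(1,0)]⟩⟩,.o ⟨false,1,⟨17,[(4,4),(0,3),(0,5),(10,8),
  (1,3),(4,2),(4,6)]⟩,⟨0,[(0,0),(0,0),(28,0),(1,0)]⟩⟩,.o ⟨false,1,⟨3,[(8,1),(3,0),(0,0),(5,1),(4,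
  0)]⟩,⟨0,[(0,0)]⟩⟩,.e ⟨false,1,⟨0,[(4,0),(11,0)]⟩,⟨0,[(7,0)]⟩⟩ ⟨false,1,⟨2,[(3,0),(1,1),(0,0),(29,
  0)]⟩,⟨0,[(1,0)]⟩⟩]⟩) (.Q [0,0,0,0,0,0,-1,-1,0,0,-1] (.p false [0,0,1] [] (⟨0,[(22,0)]⟩,⟨0,[(21,
  0)]⟩) .k 0 (⟨0,[]⟩,⟨0,[]⟩) .k .k) (.S ⟨1,0,[0,1,1,0,0,0,0,-1],[1,1,-1],[1,0,1,1,0,0,0,-1],(⟨0,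
  [(22,0),(4,0)]⟩,⟨0,[(12,0)]⟩),⟨0,[(22,0)]⟩,.k,.k,⟨true,0,⟨0,[]⟩,⟨0,[(37,0)]⟩⟩,⟨false,0,⟨0,[(33,
  0)]⟩,⟨0,[(32,0),(2,0)]⟩⟩,⟨false,1,⟨0,[(32,0),(2,0)]⟩,⟨0,[(33,0)]⟩⟩,⟨true,0,⟨0,[(37,0)]⟩,⟨0,[]⟩⟩,
  [.o ⟨false,0,⟨0,[(19,0)]⟩,⟨0,[(5,0)]⟩⟩,.o ⟨false,0,⟨0,[(0,0)]⟩,⟨5,[(5,0),(0,1),(2,0),(8,2),(1,0),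
  (4,1)]⟩⟩,.e ⟨false,0,⟨0,[(2,0)]⟩,⟨2,[(4,0),(1,1),(0,0),(29,0)]⟩⟩ ⟨false,0,⟨0,[(8,0)]⟩,⟨0,[(5,0),
  (11,0)]⟩⟩,.a ⟨true,0,⟨1,[(10,0),(6,0),(2,0)]⟩,⟨0,[(1,0)]⟩⟩ ⟨true,0,⟨1,[(0,0),(0,0),(0,0),(28,0)]⟩,
  ⟨0,[(4,0),(28,0)]⟩⟩ ⟨false,0,⟨0,[(0,0),(0,0)]⟩,⟨0,[(6,0)]⟩⟩]⟩) (.R ⟨0,false,false,true,[1,0,-1],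
  [1,-1],[1,0,0,0,0,0,0,-1],(⟨0,[(22,0)]⟩,⟨0,[(23,0)]⟩),(⟨0,[(26,0)]⟩,⟨0,[(27,0)]⟩),⟨0,[(11,0)]⟩,.k,
  .k,.k,.k,.k,.k,⟨true,0,⟨0,[(2,0)]⟩,⟨0,[(4,0),(28,0)]⟩⟩,⟨false,0,⟨0,[(1,0)]⟩,⟨5,[(6,1),(3,1),(8,1),
  (5,0),(8,2)]⟩⟩,⟨true,0,⟨0,[]⟩,⟨0,[(37,0)]⟩⟩,⟨false,0,⟨0,[(0,0),(32,0)]⟩,⟨3,[(2,1),(0,1),(6,1),(14,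
  0),(8,1),(0,0)]⟩⟩,⟨false,0,⟨0,[]⟩,⟨0,[]⟩⟩,⟨false,0,⟨0,[]⟩,⟨0,[]⟩⟩,[.o ⟨false,0,⟨0,[(33,0),(3,0)]⟩,
  ⟨3,[(2,1),(2,1),(4,0),(18,0),(1,1),(3,0)]⟩⟩,.o ⟨false,0,⟨0,[(33,0)]⟩,⟨1,[(25,0),(6,1),(2,0)]⟩⟩,.a
  ⟨true,0,⟨1,[(10,0),(6,0),(2,0)]⟩,⟨0,[(1,0)]⟩⟩ ⟨true,0,⟨0,[(2,0),(28,0),(1,1)]⟩,⟨0,[(4,0)]⟩⟩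
  ⟨false,0,⟨0,[(1,0),(31,0)]⟩,⟨5,[(2,1),(3,1),(3,2),(18,0),(1,1),(0,1),(2,2)]⟩⟩,.o ⟨false,0,⟨0,[(21,
  0)]⟩,⟨0,[(9,0)]⟩⟩]⟩))))) (.I [0,0,2,2] (.R ⟨0,false,false,true,[1,0,-1],[1,-1],[0,1],(⟨0,[(19,
  0)]⟩,⟨0,[(20,0)]⟩),(⟨0,[(23,0)]⟩,⟨0,[(24,0)]⟩),⟨0,[(8,0)]⟩,.k,.k,.k,.k,.k,.k,⟨true,0,⟨1,[(0,0)]⟩,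
  ⟨0,[(30,0)]⟩⟩,⟨false,0,⟨0,[(1,0),(13,0)]⟩,⟨5,[(3,1),(3,1),(8,1),(5,0),(8,2)]⟩⟩,⟨false,1,⟨0,[(3,0),
  (30,0)]⟩,⟨0,[(1,0)]⟩⟩,⟨true,0,⟨0,[(15,0),(14,0)]⟩,⟨1,[(1,1),(5,0),(19,0),(0,1)]⟩⟩,⟨false,0,⟨0,[]⟩,
  ⟨0,[]⟩⟩,⟨false,0,⟨0,[]⟩,⟨0,[]⟩⟩,[.o ⟨false,0,⟨0,[(30,0),(3,0)]⟩,⟨2,[(0,0),(0,0),(0,0),(11,0),(11,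
  0),(1,0),(3,0)]⟩⟩,.o ⟨false,0,⟨0,[(30,0)]⟩,⟨1,[(0,0),(21,0),(8,0)]⟩⟩,.a ⟨true,0,⟨1,[(7,0),(6,0),
  (2,0)]⟩,⟨0,[(1,0),(13,0)]⟩⟩ ⟨true,0,⟨0,[(34,0)]⟩,⟨0,[]⟩⟩ ⟨false,0,⟨0,[(1,0),(13,0),(14,0)]⟩,⟨5,
  [(0,1),(6,2),(18,0),(1,1),(2,0),(0,3)]⟩⟩,.o ⟨false,0,⟨0,[(18,0)]⟩,⟨0,[(6,0)]⟩⟩]⟩) (.S ⟨1,0,[0,1,1,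
  0,0,0,0,-1],[1,1,-1],[0,1,1],(⟨0,[(19,0),(4,0)]⟩,⟨0,[(9,0)]⟩),⟨0,[(19,0)]⟩,.k,.k,⟨true,0,⟨1,[(0,
  0),(6,0),(7,1),(11,0)]⟩,⟨0,[(1,0),(27,0)]⟩⟩,⟨false,0,⟨0,[(30,0)]⟩,⟨0,[(29,0),(2,0)]⟩⟩,⟨false,1,⟨0,
  [(3,0),(30,0)]⟩,⟨0,[(1,0)]⟩⟩,⟨true,0,⟨0,[(34,0)]⟩,⟨0,[]⟩⟩,[.o ⟨false,0,⟨0,[(16,0)]⟩,⟨0,[(2,0)]⟩⟩,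
  .o ⟨false,0,⟨5,[(0,0),(0,3),(5,1),(8,1),(10,1),(0,1)]⟩,⟨5,[(2,0),(0,1),(2,0),(8,2),(1,0),(4,1)]⟩⟩,
  .e ⟨false,0,⟨3,[(7,0),(9,1),(9,0)]⟩,⟨1,[(31,0),(0,0)]⟩⟩ ⟨false,0,⟨0,[(5,0)]⟩,⟨0,[(2,0),(11,0)]⟩⟩,
  .a ⟨true,0,⟨1,[(7,0),(6,0),(2,0)]⟩,⟨0,[(1,0),(13,0)]⟩⟩ ⟨true,0,⟨0,[(34,0)]⟩,⟨0,[]⟩⟩ ⟨false,0,⟨2,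
  [(1,1),(3,0),(19,0)]⟩,⟨0,[(3,0)]⟩⟩]⟩)))

theorem ok2 : chk K t2 l4 = true := by decide +kernel

noncomputable def t3 : Tre :=
  (.Q [0,1,0,1,0,0,0,0,0,-1] (.pp true [-1,1]) (.Q [0,0,0,0,0,0,-1,0,0,0,-1] (.p false [0,0,1] []
  (⟨0,[(19,0)]⟩,⟨0,[(18,0)]⟩) .k 0 (⟨0,[]⟩,⟨0,[]⟩) .k .k) (.Q [0,1,0,-1,0,0,1,1,0,-1,1] (.p true [0,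
  0,1] [1] (⟨0,[(20,0)]⟩,⟨0,[(19,0)]⟩) .k 1 (⟨0,[]⟩,⟨0,[]⟩) .k .k) (.S ⟨1,0,[0,1,0,-1,0,0,0,1],[0,0,
  1],[0,0,0,-1,0,0,0,1],(⟨0,[(21,0)]⟩,⟨0,[(20,0)]⟩),⟨0,[(10,0)]⟩,.k,.k,⟨true,0,⟨0,[(31,0)]⟩,⟨0,[(30,
  0)]⟩⟩,⟨false,0,⟨0,[(31,0)]⟩,⟨0,[(30,0),(2,0)]⟩⟩,⟨false,1,⟨1,[(11,0),(0,0),(20,0)]⟩,⟨0,[]⟩⟩,⟨true,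
  0,⟨0,[(35,0)]⟩,⟨0,[]⟩⟩,[.o ⟨false,0,⟨0,[(0,0)]⟩,⟨1,[(2,0),(0,0),(13,0),(12,0),(2,2)]⟩⟩,.o ⟨false,
  1,⟨13,[(0,4),(3,6),(0,2),(10,1),(1,6),(4,3),(4,0)]⟩,⟨0,[(2,0),(0,0),(29,0)]⟩⟩,.o ⟨false,1,⟨3,[(7,
  1),(3,0),(0,0),(5,1),(4,0)]⟩,⟨0,[(1,0)]⟩⟩,.a ⟨true,0,⟨0,[(18,0)]⟩,⟨0,[(15,0)]⟩⟩ ⟨false,1,⟨0,[(0,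
  0),(14,0),(17,0)]⟩,⟨0,[(2,0),(0,0),(14,0),(14,0)]⟩⟩ ⟨true,0,⟨0,[(0,0),(14,0)]⟩,⟨0,[(2,0),(0,0),
  (14,0),(14,0)]⟩⟩]⟩) (.Q [0,0,1,0,-1,0,-2,0,0,1,-2] (.p false [0,0,1] [1,0,-1] (⟨0,[(21,0)]⟩,⟨0,
  [(20,0)]⟩) .k 2 (⟨0,[(20,0)]⟩,⟨0,[(21,0)]⟩) .k (.i 0 ⟨0,[(9,0),(0,0)]⟩ ⟨0,[(20,1)]⟩)) (.Q [0,0,0,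
  0,-1,0,-2,-2,0,1,-2] (.p false [0,0,1] [1,0,-1] (⟨0,[(22,0)]⟩,⟨0,[(21,0)]⟩) .k 2 (⟨0,[(21,0)]⟩,⟨0,
  [(22,0)]⟩) .k (.i 0 ⟨0,[(10,0),(0,0)]⟩ ⟨0,[(21,1)]⟩)) (.R ⟨0,false,false,false,[1,0,-1],[0,0,1],
  [1,1],(⟨0,[(22,0)]⟩,⟨0,[(23,0)]⟩),(⟨0,[(23,0)]⟩,⟨0,[(22,0)]⟩),⟨0,[(11,0)]⟩,.k,.k,.k,.k,.k,.k,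
  ⟨false,0,⟨0,[(5,0),(3,0)]⟩,⟨0,[(6,0)]⟩⟩,⟨true,1,⟨0,[(9,0),(10,0)]⟩,⟨0,[(1,0)]⟩⟩,⟨true,0,⟨4,[(1,0),
  (8,0),(6,0),(0,4),(10,0)]⟩,⟨1,[(0,0),(8,0),(10,0)]⟩⟩,⟨false,2,⟨3,[(6,1),(2,0),(8,5),(1,0),(8,0),
  (5,3)]⟩,⟨0,[(0,0)]⟩⟩,⟨false,0,⟨0,[]⟩,⟨0,[]⟩⟩,⟨false,0,⟨0,[]⟩,⟨0,[]⟩⟩,[.o ⟨false,1,⟨3,[(6,1),(2,0),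
  (8,1),(1,0),(8,0)]⟩,⟨5,[(0,1),(18,1),(5,0),(9,0)]⟩⟩,.a ⟨true,1,⟨0,[(18,0),(16,0)]⟩,⟨0,[(5,0)]⟩⟩
  ⟨true,0,⟨0,[]⟩,⟨3,[(10,0),(9,1),(9,0)]⟩⟩ ⟨false,2,⟨0,[(9,0),(8,0),(16,0)]⟩,⟨1,[(0,0),(0,0),(26,
  0)]⟩⟩,.o ⟨false,0,⟨0,[(3,0)]⟩,⟨3,[(9,1),(3,0),(0,0),(5,1),(4,0)]⟩⟩,.o ⟨false,0,⟨0,[(21,0)]⟩,⟨0,
  [(9,0)]⟩⟩]⟩) (.I [1,1,-1,-1,0,0,0,2] (.R ⟨0,false,false,false,[1,0,-1],[0,0,1],[0,1,1],(⟨0,[(23,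
  0)]⟩,⟨0,[(24,0)]⟩),(⟨0,[(24,0)]⟩,⟨0,[(23,0)]⟩),⟨0,[(12,0)]⟩,.k,.k,.k,.k,.k,.k,⟨false,0,⟨2,[(6,0),
  (2,1),(0,0),(18,0)]⟩,⟨1,[(0,0),(31,0),(3,1)]⟩⟩,⟨true,1,⟨0,[(10,0),(10,0)]⟩,⟨0,[(2,0)]⟩⟩,⟨false,0,
  ⟨7,[(1,3),(0,3),(8,0),(9,1),(9,0)]⟩,⟨5,[(3,5),(4,1),(1,2),(10,2),(8,0)]⟩⟩,⟨true,1,⟨0,[(1,0)]⟩,⟨7,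
  [(2,0),(0,2),(2,9),(1,0),(0,1),(10,0),(9,1)]⟩⟩,⟨false,0,⟨0,[]⟩,⟨0,[]⟩⟩,⟨false,0,⟨0,[]⟩,⟨0,[]⟩⟩,
  [.o ⟨false,1,⟨3,[(1,1),(12,0),(0,0),(10,0)]⟩,⟨7,[(2,0),(0,2),(2,1),(1,0),(0,1),(10,0),(9,1)]⟩⟩,.a
  ⟨true,1,⟨1,[(1,0),(16,0),(2,0),(14,0)]⟩,⟨0,[(6,0)]⟩⟩ ⟨true,0,⟨3,[(11,0),(9,1),(9,0)]⟩,⟨0,[]⟩⟩
  ⟨false,2,⟨1,[(1,0),(8,0),(10,0),(13,0),(0,0)]⟩,⟨5,[(2,1),(3,5),(4,0),(18,0),(4,0)]⟩⟩,.o ⟨false,0,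
  ⟨0,[(4,0)]⟩,⟨7,[(1,1),(7,3),(0,3),(3,0),(0,0),(10,0)]⟩⟩,.o ⟨false,0,⟨0,[(22,0)]⟩,⟨0,[(10,0)]⟩⟩]⟩)
  (.R ⟨0,false,false,false,[1,0,-1],[0,0,1],[1,1,0,0,0,0,0,-1],(⟨0,[(23,0)]⟩,⟨0,[(24,0)]⟩),(⟨0,[(24,
  0)]⟩,⟨0,[(23,0)]⟩),⟨0,[(12,0)]⟩,.k,.k,.k,.k,.k,.k,⟨false,0,⟨17,[(0,5),(5,23),(1,1),(1,20),(10,2),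
  (8,0)]⟩,⟨9,[(1,8),(0,5),(4,1),(10,5),(11,0),(5,3)]⟩⟩,⟨true,1,⟨0,[(10,0),(10,0)]⟩,⟨0,[(2,0)]⟩⟩,
  ⟨false,0,⟨0,[]⟩,⟨1,[(14,0),(0,0),(20,0)]⟩⟩,⟨true,1,⟨0,[(1,0)]⟩,⟨29,[(0,5),(1,5),(0,5),(2,32),(1,
  3),(11,8),(9,4)]⟩⟩,⟨false,0,⟨0,[]⟩,⟨0,[]⟩⟩,⟨false,0,⟨0,[]⟩,⟨0,[]⟩⟩,[.o ⟨false,1,⟨3,[(1,1),(12,0),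
  (0,0),(10,0)]⟩,⟨29,[(0,5),(1,5),(0,5),(2,2),(1,3),(11,8),(9,4)]⟩⟩,.a ⟨true,1,⟨1,[(1,0),(16,0),(2,
  0),(14,0)]⟩,⟨0,[(6,0)]⟩⟩ ⟨true,0,⟨17,[(0,5),(5,5),(1,1),(1,2),(10,2),(8,0)]⟩,⟨7,[(1,3),(0,3),(8,
  0),(9,1),(9,0)]⟩⟩ ⟨false,2,⟨1,[(1,0),(8,0),(10,0),(13,0),(0,0)]⟩,⟨5,[(2,1),(3,5),(4,0),(18,0),(4,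
  0)]⟩⟩,.o ⟨false,0,⟨0,[(4,0)]⟩,⟨7,[(1,1),(7,3),(0,3),(3,0),(0,0),(10,0)]⟩⟩,.o ⟨false,0,⟨0,[(22,
  0)]⟩,⟨0,[(10,0)]⟩⟩]⟩))) (.Q [0,0,1,0,-1,0,-1,0,0,2,-1] (.p false [-1,1,1] [1] (⟨0,[(10,0)]⟩,⟨0,
  [(21,0),(3,0)]⟩) .k 1 (⟨0,[]⟩,⟨0,[]⟩) .k .k) (.I [0,0,0,0,0,0,0,-1] (.R ⟨0,false,false,true,[-1,1,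
  1],[0,1],[1,1,1,1],(⟨0,[(12,0)]⟩,⟨0,[(23,0),(3,0)]⟩),(⟨0,[(28,0)]⟩,⟨0,[(27,0)]⟩),⟨0,[(23,0)]⟩,.k,
  .k,.k,.k,.k,.k,⟨true,0,⟨0,[]⟩,⟨3,[(11,0),(9,1),(9,0)]⟩⟩,⟨false,0,⟨0,[(18,0)]⟩,⟨7,[(2,3),(11,2),(0,
  2),(10,0),(4,1)]⟩⟩,⟨false,0,⟨0,[(0,0)]⟩,⟨0,[(7,0)]⟩⟩,⟨true,(-1),⟨0,[(6,0)]⟩,⟨7,[(2,1),(4,3),(11,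
  3),(6,0),(3,0),(0,0)]⟩⟩,⟨false,0,⟨0,[]⟩,⟨0,[]⟩⟩,⟨false,0,⟨0,[]⟩,⟨0,[]⟩⟩,[.o ⟨false,0,⟨0,[(5,0)]⟩,
  ⟨11,[(1,0),(5,5),(0,3),(0,5),(11,0),(9,1),(4,2)]⟩⟩,.o ⟨false,1,⟨1,[(26,0),(6,1),(2,0)]⟩,⟨0,[(34,
  0)]⟩⟩,.a ⟨true,1,⟨0,[(10,0)]⟩,⟨0,[(1,0)]⟩⟩ ⟨false,0,⟨1,[(1,0),(3,1),(15,0),(14,0)]⟩,⟨5,[(8,1),(5,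
  0),(0,0),(20,2)]⟩⟩ ⟨true,(-1),⟨0,[(1,0),(3,0)]⟩,⟨23,[(2,11),(5,7),(5,0),(0,0),(10,2),(4,5)]⟩⟩,.o
  ⟨false,1,⟨5,[(2,2),(23,0),(3,1),(0,0),(5,0)]⟩,⟨5,[(1,1),(9,1),(2,0),(0,0),(19,0)]⟩⟩]⟩) (.R ⟨0,
  false,false,true,[-1,1,1],[0,1],[1,1,1,1,0,0,0,1],(⟨0,[(12,0)]⟩,⟨0,[(23,0),(3,0)]⟩),(⟨0,[(28,0)]⟩,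
  ⟨0,[(27,0)]⟩),⟨0,[(23,0)]⟩,.k,.k,.k,.k,.k,.k,⟨true,0,⟨0,[(0,0)]⟩,⟨0,[(9,0)]⟩⟩,⟨false,0,⟨0,[(18,
  0)]⟩,⟨7,[(2,3),(11,2),(0,2),(10,0),(4,1)]⟩⟩,⟨false,0,⟨0,[]⟩,⟨1,[(14,0),(0,0),(20,0)]⟩⟩,⟨true,(-1),
  ⟨0,[(6,0)]⟩,⟨7,[(2,1),(4,3),(11,3),(6,0),(3,0),(0,0)]⟩⟩,⟨false,0,⟨0,[]⟩,⟨0,[]⟩⟩,⟨false,0,⟨0,[]⟩,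
  ⟨0,[]⟩⟩,[.o ⟨false,0,⟨0,[(5,0)]⟩,⟨11,[(1,0),(5,5),(0,3),(0,5),(11,0),(9,1),(4,2)]⟩⟩,.o ⟨false,1,
  ⟨1,[(26,0),(6,1),(2,0)]⟩,⟨0,[(34,0)]⟩⟩,.a ⟨true,1,⟨0,[(10,0)]⟩,⟨0,[(1,0)]⟩⟩ ⟨false,0,⟨3,[(0,5),(2,
  1),(1,0),(15,1),(9,0),(1,0)]⟩,⟨11,[(2,2),(0,2),(2,2),(1,4),(0,5),(20,0),(5,5)]⟩⟩ ⟨true,(-1),⟨0,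
  [(1,0),(3,0)]⟩,⟨23,[(2,11),(5,7),(5,0),(0,0),(10,2),(4,5)]⟩⟩,.o ⟨false,1,⟨5,[(2,2),(23,0),(3,1),
  (0,0),(5,0)]⟩,⟨5,[(1,1),(9,1),(2,0),(0,0),(19,0)]⟩⟩]⟩)) (.I [0,1,-1,-1,0,0,0,1] (.I [1,-1,-1,0,1,
  0,0,1] (.S ⟨1,0,[0,1,0,-1,0,0,0,1],[0,0,1],[1,0,0,0,0,0,0,1],(⟨0,[(25,0)]⟩,⟨0,[(24,0)]⟩),⟨0,[(14,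
  0)]⟩,.k,.k,⟨true,0,⟨0,[]⟩,⟨0,[(39,0)]⟩⟩,⟨false,0,⟨0,[(35,0)]⟩,⟨0,[(34,0),(2,0)]⟩⟩,⟨false,1,⟨0,
  [(34,0),(2,0)]⟩,⟨0,[(35,0)]⟩⟩,⟨true,0,⟨0,[(39,0)]⟩,⟨0,[]⟩⟩,[.e ⟨false,1,⟨1,[(0,0),(7,0),(21,0)]⟩,
  ⟨1,[(2,0),(4,1),(14,0),(14,0)]⟩⟩ ⟨false,0,⟨0,[(1,0)]⟩,⟨7,[(3,1),(0,3),(5,3),(16,0),(6,3),(1,0),(0,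
  3)]⟩⟩,.o ⟨false,1,⟨5,[(0,0),(1,0),(6,1),(10,4),(11,3),(4,1)]⟩,⟨9,[(4,6),(1,2),(0,1),(13,0),(9,1),
  (7,0)]⟩⟩,.o ⟨false,1,⟨7,[(3,3),(11,2),(0,2),(10,0),(4,1)]⟩,⟨0,[(5,0)]⟩⟩,.a ⟨true,0,⟨0,[(22,0)]⟩,
  ⟨0,[(19,0)]⟩⟩ ⟨false,1,⟨0,[(0,0)]⟩,⟨0,[(10,0)]⟩⟩ ⟨true,0,⟨0,[(1,0)]⟩,⟨1,[(4,0),(1,0),(3,0),(11,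
  0)]⟩⟩]⟩) (.S ⟨1,0,[0,0,0,-1,0,0,0,1],[0,0,1],[0,1,0,-1,0,0,0,1],(⟨0,[(25,0)]⟩,⟨0,[(24,0)]⟩),⟨0,
  [(14,0)]⟩,.k,.k,⟨false,0,⟨0,[(35,0)]⟩,⟨0,[(34,0),(2,0)]⟩⟩,⟨true,0,⟨0,[(35,0)]⟩,⟨0,[(34,0)]⟩⟩,
  ⟨true,0,⟨0,[(39,0)]⟩,⟨0,[]⟩⟩,⟨false,1,⟨1,[(15,0),(0,0),(20,0)]⟩,⟨0,[]⟩⟩,[.o ⟨false,1,⟨9,[(1,0),(0,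
  1),(5,0),(0,2),(10,7),(11,5),(4,3)]⟩,⟨20,[(0,1),(3,13),(1,4),(0,1),(4,0),(8,2),(9,3),(1,1)]⟩⟩,.e
  ⟨false,1,⟨9,[(1,0),(6,6),(0,2),(2,0),(7,1),(9,1),(1,0)]⟩,⟨2,[(0,0),(2,0),(0,1),(1,0)]⟩⟩ ⟨false,1,
  ⟨0,[(1,0),(35,0)]⟩,⟨2,[(0,0),(2,0),(0,0),(16,0),(12,1)]⟩⟩,.o ⟨false,1,⟨7,[(3,3),(11,2),(0,2),(10,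
  0),(4,1)]⟩,⟨0,[(5,0)]⟩⟩,.a ⟨true,0,⟨0,[(22,0)]⟩,⟨0,[(19,0)]⟩⟩ ⟨true,0,⟨0,[(1,0)]⟩,⟨1,[(4,0),(1,0),
  (3,0),(11,0)]⟩⟩ ⟨false,1,⟨0,[(1,0),(35,0)]⟩,⟨1,[(4,0),(1,0),(3,0),(11,0)]⟩⟩]⟩)) (.R ⟨0,false,
  false,true,[-1,1,1],[0,0,1],[1,1,0,0,0,0,0,1],(⟨0,[(12,0)]⟩,⟨0,[(23,0),(3,0)]⟩),(⟨0,[(24,0)]⟩,⟨0,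
  [(23,0)]⟩),⟨0,[(23,0)]⟩,.k,.k,.k,.k,.k,.k,⟨true,0,⟨0,[]⟩,⟨3,[(11,0),(9,1),(9,0)]⟩⟩,⟨false,0,⟨0,
  [(18,0),(2,0)]⟩,⟨1,[(26,0),(8,0)]⟩⟩,⟨true,0,⟨5,[(6,2),(1,1),(10,2),(10,0)]⟩,⟨0,[(0,0),(3,0),(14,
  0)]⟩⟩,⟨false,0,⟨0,[(18,0),(2,0),(12,0)]⟩,⟨0,[(5,0),(30,0)]⟩⟩,⟨false,0,⟨0,[]⟩,⟨0,[]⟩⟩,⟨false,0,⟨0,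
  []⟩,⟨0,[]⟩⟩,[.a ⟨true,0,⟨0,[(19,0)]⟩,⟨0,[(6,0),(29,0)]⟩⟩ ⟨true,0,⟨0,[(4,0),(14,0)]⟩,⟨0,[(0,0),(33,
  0)]⟩⟩ ⟨false,0,⟨1,[(11,0),(6,0),(0,1),(1,0)]⟩,⟨6,[(0,2),(0,3),(1,2),(2,0),(1,1),(21,0),(5,0)]⟩⟩,
  .o ⟨false,1,⟨7,[(2,1),(4,3),(11,3),(6,0),(3,0),(0,0)]⟩,⟨17,[(3,5),(2,7),(1,1),(0,3),(1,1),(18,4),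
  (0,0),(4,0)]⟩⟩,.o ⟨false,1,⟨0,[(1,0)]⟩,⟨0,[(11,0),(9,0)]⟩⟩,.o ⟨false,1,⟨2,[(1,0),(0,0),(23,0),(4,
  0)]⟩,⟨1,[(11,0),(6,0),(2,0)]⟩⟩]⟩))))) (.I [0,1,-1,-1,0,0,0,1] (.I [1,-1,-1,0,1,0,0,1] (.I [0,-1,1,
  0,0,0,0,-1] (.S ⟨1,0,[0,1,1,0,0,0,0,-1],[1,1,-1],[1,1],(⟨0,[(22,0),(4,0)]⟩,⟨0,[(12,0)]⟩),⟨0,[(22,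
  0)]⟩,.k,.k,⟨true,0,⟨0,[(2,0)]⟩,⟨0,[(0,0),(31,0)]⟩⟩,⟨false,0,⟨0,[(33,0)]⟩,⟨0,[(32,0),(2,0)]⟩⟩,
  ⟨false,1,⟨1,[(1,0),(4,0),(21,0)]⟩,⟨0,[(0,0)]⟩⟩,⟨true,0,⟨0,[(37,0)]⟩,⟨0,[]⟩⟩,[.e ⟨false,0,⟨7,[(2,
  0),(0,0),(0,0),(0,0),(1,0),(20,0),(2,2)]⟩,⟨1,[(13,0),(0,0),(20,0)]⟩⟩ ⟨false,0,⟨2,[(5,0),(2,1),(0,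
  0),(18,0)]⟩,⟨0,[(1,0)]⟩⟩,.o ⟨false,0,⟨3,[(0,1),(4,0),(11,1),(1,0),(9,0)]⟩,⟨3,[(6,1),(2,0),(8,1),
  (1,0),(8,0)]⟩⟩,.e ⟨false,0,⟨0,[]⟩,⟨1,[(13,0),(0,0),(20,0)]⟩⟩ ⟨false,0,⟨0,[(8,0)]⟩,⟨0,[(1,0)]⟩⟩,.a
  ⟨true,0,⟨1,[(10,0),(6,0),(2,0)]⟩,⟨0,[(3,0)]⟩⟩ ⟨true,0,⟨7,[(2,0),(0,0),(0,0),(0,0),(1,0),(20,0),(2,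
  2)]⟩,⟨3,[(10,0),(9,1),(9,0)]⟩⟩ ⟨false,0,⟨1,[(0,0),(4,0),(3,0)]⟩,⟨0,[(6,0)]⟩⟩]⟩) (.Q [0,1,0,-1,0,0,
  1,1,0,-1,1] (.p true [0,0,1] [1] (⟨0,[(23,0)]⟩,⟨0,[(22,0)]⟩) .k 1 (⟨0,[]⟩,⟨0,[]⟩) .k .k) (.Q [0,0,
  0,-2,0,0,1,1,0,0,1] (.p true [0,0,1] [] (⟨0,[(24,0)]⟩,⟨0,[(23,0)]⟩) .k 0 (⟨0,[]⟩,⟨0,[]⟩) .k .k)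
  (.I [0,0,-2,-2,0,0,0,1] (.S ⟨1,0,[0,1,-1,-2,0,0,0,1],[0,-1,1],[1],(⟨0,[(15,0)]⟩,⟨0,[(25,0),(4,
  0)]⟩),⟨0,[(3,0),(2,0),(1,0),(5,0),(12,2),(10,0),(0,0)]⟩,.k,(.r 0 ⟨0,[(0,0)]⟩ ⟨3,[(11,3),(1,0),(9,
  1),(9,0),(1,7),(2,3)]⟩),⟨true,0,⟨0,[(7,0),(0,0),(14,0),(14,0)]⟩,⟨0,[(5,0)]⟩⟩,⟨false,0,⟨0,[(36,
  0)]⟩,⟨0,[(35,0),(2,0)]⟩⟩,⟨false,1,⟨0,[(7,0),(0,0),(14,0),(11,0),(2,1)]⟩,⟨5,[(0,3),(0,1),(11,0),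
  (19,0)]⟩⟩,⟨true,0,⟨0,[(40,0)]⟩,⟨0,[]⟩⟩,[.o ⟨false,0,⟨37,[(0,0),(0,13),(0,30),(5,6),(1,4),(0,0),
  (20,1),(0,7)]⟩,⟨0,[(7,0),(0,0),(26,0),(2,1)]⟩⟩,.o ⟨false,0,⟨0,[(0,0),(5,0),(26,0)]⟩,⟨1,[(7,0),(0,
  0),(13,0),(12,2),(2,2)]⟩⟩,.a ⟨true,0,⟨0,[(23,0)]⟩,⟨0,[(20,0)]⟩⟩ ⟨true,0,⟨0,[]⟩,⟨0,[(40,0)]⟩⟩
  ⟨false,0,⟨5,[(0,3),(0,1),(11,0),(19,0)]⟩,⟨0,[(7,0),(0,0),(14,0),(11,0),(2,1)]⟩⟩,.o ⟨false,0,⟨0,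
  [(6,0),(26,0)]⟩,⟨3,[(13,0),(6,1),(11,0),(4,2)]⟩⟩]⟩) (.I [0,0,2,2,0,0,0,-1] (.S ⟨1,1,[],[0,-1,1],
  [1,1,-1,-1,0,0,0,1],(⟨0,[(16,0)]⟩,⟨0,[(26,0),(4,0)]⟩),⟨0,[(4,0),(2,0),(1,0),(5,0),(12,2),(10,0),
  (0,0)]⟩,.k,(.r (-1) ⟨1,[(6,0),(3,0),(0,0)]⟩ ⟨0,[(0,0)]⟩),⟨false,0,⟨0,[]⟩,⟨6,[(1,2),(8,2),(0,1),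
  (27,1)]⟩⟩,⟨true,0,⟨0,[(8,0),(0,0),(29,0)]⟩,⟨1,[(2,0),(19,0),(18,0)]⟩⟩,⟨true,0,⟨0,[(36,0)]⟩,⟨0,
  [(37,0)]⟩⟩,⟨false,1,⟨2,[(1,1),(7,0),(11,1),(11,0),(1,1),(3,2)]⟩,⟨0,[(2,0)]⟩⟩,[.fo,.o ⟨false,1,⟨1,
  [(29,0),(9,0)]⟩,⟨0,[(41,0)]⟩⟩,.a ⟨true,0,⟨0,[(24,0)]⟩,⟨0,[(21,0)]⟩⟩ ⟨true,0,⟨0,[(6,0)]⟩,⟨9,[(1,4),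
  (5,2),(1,3),(2,0),(0,0),(19,0),(5,1)]⟩⟩ ⟨false,1,⟨3,[(14,0),(6,1),(11,0),(4,0),(0,1)]⟩,⟨0,[(24,
  0)]⟩⟩,.o ⟨false,0,⟨0,[(7,0),(26,0)]⟩,⟨3,[(14,0),(6,1),(11,0),(4,2)]⟩⟩]⟩) (.N [0,-2,1] 0 ⟨0,[(0,
  0)]⟩ ⟨0,[(1,0)]⟩ (.x 0 ⟨0,[(7,0),(18,0),(4,1),(2,0)]⟩ ⟨15,[(0,1),(8,1),(4,6),(1,15),(11,15),(4,2),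
  (1,3),(2,11),(0,2)]⟩)))) (.S ⟨1,0,[0,0,-1,-2,0,0,0,1],[0,-1,1],[1,1,-1,-1,0,0,0,1],(⟨0,[(14,0)]⟩,
  ⟨0,[(24,0),(4,0)]⟩),⟨0,[(2,0),(2,0),(1,0),(5,0),(12,2),(10,0),(0,0)]⟩,.k,(.r (-1) ⟨1,[(4,0),(3,0),
  (0,0)]⟩ ⟨3,[(0,3),(11,0),(9,5),(9,0)]⟩),⟨false,0,⟨0,[]⟩,⟨1,[(15,0),(0,0),(20,0)]⟩⟩,⟨true,0,⟨0,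
  [(35,0)]⟩,⟨0,[(34,0)]⟩⟩,⟨true,0,⟨0,[(34,0)]⟩,⟨0,[(35,0)]⟩⟩,⟨false,1,⟨1,[(15,0),(0,0),(20,0)]⟩,⟨0,
  []⟩⟩,[.o ⟨false,1,⟨1,[(1,0),(6,0),(0,0),(12,0),(9,0)]⟩,⟨0,[(0,0)]⟩⟩,.o ⟨false,1,⟨0,[(1,0),(33,0),
  (1,0)]⟩,⟨2,[(0,1),(20,0),(12,1)]⟩⟩,.a ⟨true,0,⟨0,[(22,0)]⟩,⟨0,[(19,0)]⟩⟩ ⟨true,0,⟨0,[(4,0)]⟩,⟨1,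
  [(0,0),(9,0),(11,0)]⟩⟩ ⟨false,1,⟨0,[(4,0),(30,0),(1,0)]⟩,⟨0,[(0,0),(21,0)]⟩⟩,.o ⟨false,0,⟨0,[(5,
  0),(26,0)]⟩,⟨3,[(12,0),(6,1),(11,0),(4,2)]⟩⟩]⟩)) (.R ⟨0,false,false,false,[-1,1,1],[1,1,-1],[0,0,
  2,1,0,0,0,-1],(⟨0,[(12,0)]⟩,⟨0,[(23,0),(3,0)]⟩),(⟨0,[(23,0),(4,0)]⟩,⟨0,[(13,0)]⟩),⟨0,[(23,0)]⟩,.k,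
  .k,.k,.k,.k,.k,⟨true,0,⟨3,[(11,0),(9,1),(9,0)]⟩,⟨0,[]⟩⟩,⟨false,0,⟨1,[(11,0),(6,2),(2,0)]⟩,⟨3,[(4,
  4),(5,1),(10,0),(8,1),(6,0)]⟩⟩,⟨false,0,⟨1,[(4,3),(1,3),(23,0),(0,0),(4,2)]⟩,⟨0,[(1,0),(5,0)]⟩⟩,
  ⟨true,(-1),⟨0,[(6,1),(29,0)]⟩,⟨1,[(1,1),(2,1),(14,1),(10,0),(0,0),(4,0)]⟩⟩,⟨false,0,⟨0,[]⟩,⟨0,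
  []⟩⟩,⟨false,0,⟨0,[]⟩,⟨0,[]⟩⟩,[.o ⟨false,0,⟨9,[(0,6),(4,2),(0,1),(13,0),(9,1),(7,0)]⟩,⟨5,[(8,1),
  (10,5),(10,0),(0,2),(4,2)]⟩⟩,.a ⟨true,0,⟨0,[(0,0)]⟩,⟨0,[(3,0),(17,0)]⟩⟩ ⟨true,0,⟨0,[(0,0),(3,0),
  (26,0)]⟩,⟨0,[(3,0)]⟩⟩ ⟨false,0,⟨1,[(0,1),(10,0),(6,0),(2,0)]⟩,⟨6,[(3,3),(0,6),(3,0),(1,1),(8,2),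
  (1,1),(8,3)]⟩⟩,.o ⟨false,1,⟨0,[(0,0),(2,0),(0,1),(25,0)]⟩,⟨0,[(11,0),(9,0)]⟩⟩,.o ⟨false,1,⟨3,[(4,
  0),(5,1),(10,0),(8,1),(6,0)]⟩,⟨1,[(11,0),(6,0),(2,0)]⟩⟩]⟩))) (.S ⟨1,0,[0,1,0,-1,0,0,0,1],[0,0,1],
  [1,0,0,0,0,0,0,1],(⟨0,[(22,0)]⟩,⟨0,[(21,0)]⟩),⟨0,[(11,0)]⟩,.k,.k,⟨true,0,⟨0,[]⟩,⟨0,[(36,0)]⟩⟩,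
  ⟨false,0,⟨0,[(32,0)]⟩,⟨0,[(31,0),(2,0)]⟩⟩,⟨false,1,⟨0,[(31,0),(2,0)]⟩,⟨0,[(32,0)]⟩⟩,⟨true,0,⟨0,
  [(36,0)]⟩,⟨0,[]⟩⟩,[.e ⟨false,1,⟨4,[(1,0),(3,3),(21,0),(2,0),(2,0)]⟩,⟨1,[(0,0),(3,0),(3,0),(25,
  0)]⟩⟩ ⟨false,0,⟨0,[(1,0)]⟩,⟨0,[(7,0),(22,0),(3,0)]⟩⟩,.o ⟨false,1,⟨5,[(6,1),(10,5),(10,0),(0,2),(4,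
  2)]⟩,⟨0,[(3,0),(0,0),(29,0)]⟩⟩,.a ⟨true,0,⟨0,[(2,0)]⟩,⟨1,[(9,0),(6,0),(2,0)]⟩⟩ ⟨false,1,⟨0,[(5,
  0)]⟩,⟨1,[(0,0),(3,0),(3,0),(25,0)]⟩⟩ ⟨true,0,⟨3,[(1,3),(7,0),(9,1),(9,0)]⟩,⟨0,[(0,0),(29,0),(3,
  0)]⟩⟩,.e ⟨true,1,⟨4,[(1,0),(3,3),(21,0),(2,0),(2,0)]⟩,⟨0,[(0,0)]⟩⟩ ⟨true,0,⟨0,[(1,0)]⟩,⟨0,[(0,0),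
  (30,0),(2,0)]⟩⟩]⟩)) (.I [1,-1,1,2,0,0,0,-1] (.R ⟨0,false,false,true,[1,0,-1],[1,-1],[1,1,-1,-1],
  (⟨0,[(21,0)]⟩,⟨0,[(22,0)]⟩),(⟨0,[(25,0)]⟩,⟨0,[(26,0)]⟩),⟨0,[(10,0)]⟩,.k,.k,.k,.k,.k,.k,⟨true,0,⟨0,
  []⟩,⟨3,[(9,0),(9,1),(9,0)]⟩⟩,⟨false,0,⟨0,[(2,0)]⟩,⟨5,[(5,1),(3,1),(8,1),(5,0),(8,2)]⟩⟩,⟨false,1,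
  ⟨23,[(5,13),(0,7),(2,4),(7,9),(6,1),(2,1),(1,0)]⟩,⟨0,[(0,0),(31,0)]⟩⟩,⟨true,0,⟨0,[(17,0),(14,0)]⟩,
  ⟨3,[(0,1),(3,1),(4,0),(18,0),(4,0)]⟩⟩,⟨false,0,⟨0,[]⟩,⟨0,[]⟩⟩,⟨false,0,⟨0,[]⟩,⟨0,[]⟩⟩,[.o ⟨false,
  0,⟨11,[(4,3),(1,3),(2,0),(7,3),(1,1),(9,4),(6,3)]⟩,⟨2,[(0,0),(4,0),(22,0),(1,0),(3,0)]⟩⟩,.o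
  ⟨false,0,⟨0,[(32,0)]⟩,⟨1,[(24,0),(6,1),(2,0)]⟩⟩,.a ⟨true,0,⟨1,[(9,0),(6,0),(2,0)]⟩,⟨0,[(2,0)]⟩⟩
  ⟨true,0,⟨5,[(4,2),(1,1),(10,2),(10,0)]⟩,⟨3,[(0,1),(8,0),(7,1),(11,0)]⟩⟩ ⟨false,0,⟨0,[(2,0),(29,
  0)]⟩,⟨3,[(0,1),(4,1),(3,1),(14,0),(8,0)]⟩⟩,.o ⟨false,0,⟨0,[(20,0)]⟩,⟨0,[(8,0)]⟩⟩]⟩) (.I [0,0,1,1]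
  (.R ⟨1,false,false,false,[0,0,1],[0,1],[1,0,1,1],(⟨0,[(23,0)]⟩,⟨0,[(22,0)]⟩),(⟨0,[(27,0)]⟩,⟨0,
  [(26,0)]⟩),⟨0,[(12,0)]⟩,.k,.k,.k,.k,(.r (-1) ⟨2,[(1,1),(4,0),(0,0),(23,0),(3,0)]⟩ ⟨1,[(0,1),(1,0),
  (5,0),(23,0)]⟩),.k,⟨true,0,⟨0,[]⟩,⟨3,[(10,0),(9,1),(9,0)]⟩⟩,⟨false,1,⟨3,[(10,0),(6,1),(11,0),(4,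
  2)]⟩,⟨0,[(20,0)]⟩⟩,⟨false,0,⟨0,[(2,0)]⟩,⟨4,[(1,0),(4,3),(0,0),(20,0),(8,0)]⟩⟩,⟨true,0,⟨11,[(2,7),
  (2,2),(4,1),(6,3),(1,0),(9,2),(1,3)]⟩,⟨1,[(1,0),(16,0),(1,0)]⟩⟩,⟨true,0,⟨0,[(2,0),(29,0)]⟩,⟨0,[(1,
  0)]⟩⟩,⟨true,0,⟨0,[(2,0),(1,0),(12,0)]⟩,⟨0,[(1,0),(18,0)]⟩⟩,[.o ⟨false,1,⟨1,[(25,0),(6,1),(2,0)]⟩,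
  ⟨0,[(33,0)]⟩⟩,.o ⟨false,1,⟨0,[(4,0),(30,0)]⟩,⟨1,[(1,0),(6,0),(28,0)]⟩⟩,.a ⟨true,0,⟨0,[(3,0)]⟩,⟨1,
  [(10,0),(6,0),(2,0)]⟩⟩ ⟨true,0,⟨0,[(0,0)]⟩,⟨11,[(1,2),(1,2),(1,2),(1,1),(20,2),(0,0)]⟩⟩ ⟨false,1,
  ⟨5,[(0,1),(9,2),(18,0),(1,1),(0,1),(2,4)]⟩,⟨0,[(3,0),(29,0)]⟩⟩,.e ⟨false,1,⟨0,[(32,0),(2,0)]⟩,⟨0,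
  [(33,0)]⟩⟩ ⟨false,1,⟨0,[(4,0),(12,0),(17,0)]⟩,⟨0,[(20,0),(12,0)]⟩⟩]⟩) (.S ⟨1,0,[0,0,0,-1,0,0,0,1],
  [0,0,1],[0,1,0,-1,0,0,0,1],(⟨0,[(23,0)]⟩,⟨0,[(22,0)]⟩),⟨0,[(12,0)]⟩,.k,.k,⟨false,0,⟨0,[(33,0)]⟩,
  ⟨0,[(32,0),(2,0)]⟩⟩,⟨true,0,⟨0,[(33,0)]⟩,⟨0,[(32,0)]⟩⟩,⟨true,0,⟨0,[(37,0)]⟩,⟨0,[]⟩⟩,⟨false,1,⟨1,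
  [(13,0),(0,0),(20,0)]⟩,⟨0,[]⟩⟩,[.o ⟨false,1,⟨11,[(1,2),(4,5),(0,1),(10,2),(1,8),(8,3)]⟩,⟨11,[(2,
  7),(2,2),(4,1),(6,3),(1,0),(9,2),(1,3)]⟩⟩,.e ⟨false,1,⟨4,[(1,0),(4,3),(0,0),(20,0),(8,0)]⟩,⟨2,[(2,
  1),(2,0),(3,0),(21,0)]⟩⟩ ⟨false,1,⟨0,[(0,0),(5,0)]⟩,⟨0,[(2,0),(25,0)]⟩⟩,.a ⟨true,0,⟨0,[(3,0)]⟩,⟨1,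
  [(10,0),(6,0),(2,0)]⟩⟩ ⟨true,0,⟨3,[(1,1),(8,0),(7,1),(11,0)]⟩,⟨2,[(2,1),(2,0),(3,0),(21,0)]⟩⟩
  ⟨false,1,⟨7,[(1,3),(4,3),(3,0),(9,1),(9,0),(4,3)]⟩,⟨2,[(2,1),(2,0),(3,0),(21,0)]⟩⟩,.e ⟨false,1,⟨4,
  [(1,0),(4,3),(0,0),(20,0),(8,0)]⟩,⟨0,[(2,0)]⟩⟩ ⟨false,1,⟨0,[(0,0),(5,0)]⟩,⟨1,[(2,0),(5,0),(23,
  0)]⟩⟩]⟩))))) (.I [0,0,-2,-2,0,0,0,1] (.S ⟨1,0,[0,0,-1,-2,0,0,0,1],[0,-1,1],[0,1,1],(⟨0,[(9,0)]⟩,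
  ⟨0,[(19,0),(4,0)]⟩),⟨0,[(1,0),(6,0),(12,2),(6,0),(4,0)]⟩,.k,(.r 0 ⟨0,[(0,0)]⟩ ⟨3,[(5,3),(1,0),(9,
  1),(9,0),(1,7),(2,3)]⟩),⟨false,0,⟨0,[(2,0),(14,0),(9,0),(0,0),(3,0)]⟩,⟨5,[(0,3),(2,1),(24,1),(2,
  0),(0,2)]⟩⟩,⟨true,0,⟨0,[(30,0)]⟩,⟨0,[(29,0)]⟩⟩,⟨true,0,⟨0,[(2,0),(14,0),(9,0),(0,0),(0,0),(2,0)]⟩,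
  ⟨0,[(0,0)]⟩⟩,⟨false,1,⟨1,[(10,0),(0,0),(20,0)]⟩,⟨0,[]⟩⟩,[.e ⟨false,0,⟨0,[(34,0)]⟩,⟨1,[(31,0),(0,
  0)]⟩⟩ ⟨false,0,⟨0,[(0,0)]⟩,⟨0,[(5,0),(23,1),(2,0)]⟩⟩,.o ⟨false,1,⟨41,[(0,29),(2,11),(0,7),(12,41),
  (8,6),(0,20),(4,14)]⟩,⟨0,[(2,0),(24,0),(0,1),(3,0)]⟩⟩,.a ⟨true,0,⟨0,[(17,0)]⟩,⟨0,[(14,0)]⟩⟩
  ⟨false,0,⟨3,[(7,0),(9,1),(9,0)]⟩,⟨1,[(31,0),(0,0)]⟩⟩ ⟨true,0,⟨9,[(0,7),(0,1),(5,0),(7,1),(11,2),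
  (2,1)]⟩,⟨0,[(2,0),(14,0),(9,0),(0,1),(3,0)]⟩⟩,.e ⟨true,0,⟨0,[(34,0)]⟩,⟨0,[]⟩⟩ ⟨true,0,⟨0,[(0,0)]⟩,
  ⟨0,[(2,0),(14,0),(9,0),(0,0),(0,0),(2,0)]⟩⟩]⟩) (.I [1,0,-1,-1,-1,0,0,-2] (.I [0,1,1,0,-1,0,0,-1]
  (.R ⟨0,false,false,false,[-1,1,1],[0,0,1],[0,1,1],(⟨0,[(10,0)]⟩,⟨0,[(21,0),(3,0)]⟩),(⟨0,[(22,0)]⟩,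
  ⟨0,[(21,0)]⟩),⟨0,[(21,0)]⟩,.k,.k,.k,.k,.k,.k,⟨true,(-1),⟨0,[(0,0)]⟩,⟨0,[(5,0)]⟩⟩,⟨false,0,⟨0,[(16,
  0),(2,0)]⟩,⟨1,[(24,0),(8,0)]⟩⟩,⟨true,(-1),⟨1,[(1,1),(7,0),(7,1),(11,0)]⟩,⟨0,[(5,0),(25,0)]⟩⟩,
  ⟨false,0,⟨0,[(3,0)]⟩,⟨5,[(2,1),(2,1),(18,2),(5,1),(2,0)]⟩⟩,⟨false,0,⟨0,[]⟩,⟨0,[]⟩⟩,⟨false,0,⟨0,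
  []⟩,⟨0,[]⟩⟩,[.o ⟨false,1,⟨3,[(5,1),(2,0),(8,1),(1,0),(8,0)]⟩,⟨43,[(1,11),(0,5),(6,14),(8,13),(9,
  4),(5,6)]⟩⟩,.a ⟨true,1,⟨0,[(17,0),(16,0)]⟩,⟨0,[(4,0)]⟩⟩ ⟨true,0,⟨3,[(9,0),(9,1),(9,0)]⟩,⟨0,[]⟩⟩
  ⟨false,1,⟨12,[(2,3),(0,7),(1,11),(10,4),(0,4),(9,0),(5,0)]⟩,⟨56,[(1,24),(0,6),(24,22),(0,18),(1,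
  10),(2,5)]⟩⟩,.o ⟨false,1,⟨4,[(1,1),(6,0),(8,3),(10,2),(1,1),(3,2)]⟩,⟨0,[(9,0),(9,0)]⟩⟩,.o ⟨false,
  1,⟨28,[(1,1),(6,12),(8,3),(1,11),(8,14),(1,1),(3,2),(0,4)]⟩,⟨12,[(2,1),(0,3),(5,5),(6,2),(0,1),(9,
  0)]⟩⟩]⟩) (.Q [0,-1,0,-1,-1,0,-2,-2,0,2,-2] (.p false [0,0,1] [2,-1,-1] (⟨0,[(22,0)]⟩,⟨0,[(21,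
  0)]⟩) .k 2 (⟨0,[(21,0),(3,0)]⟩,⟨0,[(10,0)]⟩) .k (.r (-1) ⟨1,[(0,1),(8,0),(7,1),(11,0)]⟩ ⟨8,[(1,3),
  (0,1),(4,7),(25,3)]⟩)) (.R ⟨1,true,false,false,[0,0,1],[2,-1,-1],[1,0,-1,-1,0,0,0,-1],(⟨0,[(23,
  0)]⟩,⟨0,[(22,0)]⟩),(⟨0,[(22,0),(3,0)]⟩,⟨0,[(11,0)]⟩),⟨0,[(12,0)]⟩,.k,.k,.k,(.x (-1) ⟨7,[(1,1),(0,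
  7),(0,1),(14,15),(3,15),(1,7),(4,4),(0,0),(0,3),(3,8)]⟩ ⟨1,[(10,1),(0,0),(11,2),(3,0),(2,0)]⟩),.k,
  .k,⟨true,0,⟨0,[]⟩,⟨3,[(10,0),(9,1),(9,0)]⟩⟩,⟨false,0,⟨12,[(3,3),(0,7),(5,11),(6,5),(0,3),(9,1)]⟩,
  ⟨2,[(1,0),(0,2),(0,0),(14,5),(10,1),(1,0),(3,2)]⟩⟩,⟨true,(-1),⟨0,[(2,0)]⟩,⟨1,[(6,1),(3,0),(7,1),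
  (11,0),(1,1)]⟩⟩,⟨false,(-1),⟨0,[(0,0)]⟩,⟨2,[(1,0),(1,0),(14,5),(10,1),(1,0),(3,2)]⟩⟩,⟨false,0,⟨13,
  [(2,11),(0,3),(27,3),(2,2),(0,8)]⟩,⟨1,[(6,1),(3,0),(7,1),(11,0)]⟩⟩,⟨true,(-1),⟨6,[(0,3),(2,1),(1,
  3),(11,1),(16,0)]⟩,⟨0,[(1,1),(0,0),(15,1),(11,1),(0,0)]⟩⟩,[]⟩) (.I [1,1,0,0,0,0,0,1] (.R ⟨1,false,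
  false,true,[1,-1],[0,0,1],[0,0,1],(⟨0,[(27,0)]⟩,⟨0,[(28,0)]⟩),(⟨0,[(24,0)]⟩,⟨0,[(23,0)]⟩),⟨1,[(5,
  0),(19,2),(1,0),(4,0),(4,0)]⟩,.k,.k,(.r 0 ⟨0,[(0,0),(1,0),(0,0),(30,0)]⟩ ⟨0,[(4,0),(2,0),(30,
  0)]⟩),.k,(.r 0 ⟨0,[(0,1),(1,2),(0,2),(28,0),(4,4)]⟩ ⟨0,[(0,0),(3,0),(2,0)]⟩),.k,⟨true,0,⟨2,[(3,0),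
  (0,0),(0,0),(25,0),(4,0)]⟩,⟨0,[(0,0)]⟩⟩,⟨false,1,⟨3,[(1,1),(1,1),(31,2),(0,0)]⟩,⟨0,[(11,0),(9,
  0)]⟩⟩,⟨false,1,⟨7,[(4,3),(2,7),(1,3),(1,0),(9,1),(9,0)]⟩,⟨0,[(0,0),(1,0),(0,0)]⟩⟩,⟨false,1,⟨7,[(1,
  3),(0,1),(1,1),(30,0),(0,0)]⟩,⟨33,[(3,9),(1,17),(2,1),(0,13),(1,16),(19,0),(4,7)]⟩⟩,⟨false,1,⟨0,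
  [(4,0),(2,0)]⟩,⟨0,[(0,0),(1,0),(0,0),(30,0)]⟩⟩,⟨true,1,⟨5,[(1,2),(0,1),(1,1),(28,4),(1,0)]⟩,⟨1,
  [(0,1),(2,1),(1,1),(5,0),(19,0)]⟩⟩,[.a ⟨true,0,⟨0,[(19,0)]⟩,⟨0,[(6,0),(29,0)]⟩⟩ ⟨true,0,⟨3,[(11,
  0),(9,1),(9,0)]⟩,⟨0,[]⟩⟩ ⟨false,1,⟨19,[(1,9),(0,1),(0,0),(4,6),(23,11),(2,1)]⟩,⟨9,[(3,1),(0,3),(0,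
  5),(3,1),(1,4),(19,0),(4,1)]⟩⟩,.o ⟨false,1,⟨7,[(1,2),(5,2),(0,0),(0,0),(11,1),(4,0)]⟩,⟨43,[(3,11),
  (0,5),(6,14),(8,13),(9,4),(5,6)]⟩⟩,.o ⟨false,0,⟨3,[(11,0),(9,1),(9,0)]⟩,⟨1,[(26,0),(8,0)]⟩⟩,.o
  ⟨false,0,⟨1,[(11,0),(9,1),(9,0)]⟩,⟨14,[(2,5),(0,2),(4,0),(21,4),(1,5),(2,5)]⟩⟩]⟩) (.S ⟨1,4,[],[0,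
  0,1],[1],(⟨0,[(24,0)]⟩,⟨0,[(23,0)]⟩),⟨0,[(13,0)]⟩,.k,.k,⟨false,0,⟨0,[(0,0)]⟩,⟨0,[(7,0),(30,0)]⟩⟩,
  ⟨true,(-1),⟨0,[(6,0)]⟩,⟨7,[(1,2),(5,2),(0,0),(0,0),(11,1),(4,0)]⟩⟩,⟨true,0,⟨13,[(3,3),(0,5),(27,
  5),(2,0),(0,2)]⟩,⟨1,[(1,1),(1,1),(1,1),(5,2),(7,1),(11,0)]⟩⟩,⟨false,0,⟨7,[(3,0),(0,5),(3,0),(9,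
  7)]⟩,⟨15,[(1,7),(0,3),(0,1),(1,17),(24,4),(0,2),(2,3),(1,0)]⟩⟩,[.o ⟨false,0,⟨0,[(38,0)]⟩,⟨1,[(26,
  0),(9,0)]⟩⟩,.e ⟨false,1,⟨1,[(35,0),(0,0)]⟩,⟨0,[(38,0)]⟩⟩ ⟨false,0,⟨0,[(18,0)]⟩,⟨33,[(1,5),(2,11),
  (3,9),(1,7),(10,13),(4,6),(9,2)]⟩⟩,.a ⟨true,0,⟨0,[(0,0),(18,0)]⟩,⟨12,[(4,1),(0,3),(5,5),(6,2),(0,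
  1),(9,0)]⟩⟩ ⟨true,0,⟨0,[]⟩,⟨0,[(38,0)]⟩⟩ ⟨false,0,⟨12,[(4,1),(0,3),(5,5),(6,2),(0,1),(9,0)]⟩,⟨6,
  [(1,0),(1,0),(6,1),(10,2),(8,0),(5,3)]⟩⟩,.e ⟨false,1,⟨1,[(35,0),(0,0)]⟩,⟨3,[(11,0),(9,1),(9,0)]⟩⟩
  ⟨false,0,⟨0,[(18,0)]⟩,⟨1,[(21,1),(4,0),(9,0)]⟩⟩]⟩)))) (.I [0,1,0,0,0,0,0,1] (.I [1,0,1,1,0,0,0,1]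
  (.R ⟨0,false,false,false,[1,0,-1],[2,-1,-1],[0,0,0,-1,0,0,0,-1],(⟨0,[(22,0)]⟩,⟨0,[(23,0)]⟩),(⟨0,
  [(22,0),(3,0)]⟩,⟨0,[(11,0)]⟩),⟨0,[(11,0)]⟩,.k,.k,.k,.k,.k,.k,⟨true,0,⟨3,[(10,0),(9,1),(9,0)]⟩,⟨0,
  []⟩⟩,⟨false,0,⟨0,[(17,0),(2,0)]⟩,⟨1,[(25,0),(8,0)]⟩⟩,⟨true,0,⟨0,[(33,0)]⟩,⟨0,[(32,0)]⟩⟩,⟨false,0,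
  ⟨0,[(4,0)]⟩,⟨41,[(2,7),(0,15),(25,13),(1,1),(2,18),(0,0)]⟩⟩,⟨false,0,⟨0,[]⟩,⟨0,[]⟩⟩,⟨false,0,⟨0,
  []⟩,⟨0,[]⟩⟩,[.a ⟨true,(-1),⟨0,[(4,0),(0,0)]⟩,⟨0,[(0,0),(8,0)]⟩⟩ ⟨true,0,⟨0,[(4,1),(0,0),(14,0),(8,
  0),(1,0)]⟩,⟨0,[(0,0)]⟩⟩ ⟨false,0,⟨0,[(4,0),(0,0),(3,0)]⟩,⟨5,[(0,1),(1,1),(26,1),(1,1),(2,0),(0,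
  0)]⟩⟩,.o ⟨false,0,⟨11,[(4,5),(0,11),(1,1),(21,0),(0,2),(4,8)]⟩,⟨1,[(0,0),(8,0),(8,0),(10,0),(2,
  0)]⟩⟩,.o ⟨false,0,⟨0,[(0,0),(3,1),(0,0),(23,0),(1,0)]⟩,⟨21,[(2,2),(4,0),(0,5),(0,13),(10,7),(4,
  3)]⟩⟩,.o ⟨false,0,⟨0,[(21,0)]⟩,⟨0,[(9,0)]⟩⟩]⟩) (.I [1,1,-1,0,0,0,0,1] (.Q [0,0,0,0,0,0,-1,0,0,0,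
  -1] (.p false [0,0,1] [] (⟨0,[(24,0)]⟩,⟨0,[(23,0)]⟩) .k 0 (⟨0,[]⟩,⟨0,[]⟩) .k .k) (.S ⟨1,0,[0,0,1,
  0,0,0,0,-1],[1,1,-1],[0,1,1,0,0,0,0,-1],(⟨0,[(24,0),(4,0)]⟩,⟨0,[(14,0)]⟩),⟨0,[(24,0)]⟩,.k,.k,
  ⟨false,0,⟨0,[(35,0)]⟩,⟨13,[(4,1),(0,3),(27,3),(2,2),(0,8)]⟩⟩,⟨true,0,⟨0,[(35,0)]⟩,⟨0,[(34,0)]⟩⟩,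
  ⟨true,0,⟨0,[(39,0)]⟩,⟨0,[]⟩⟩,⟨false,1,⟨15,[(4,2),(0,5),(3,4),(27,7)]⟩,⟨0,[]⟩⟩,[.o ⟨false,0,⟨11,
  [(2,3),(2,1),(1,5),(4,2),(18,2),(5,2)]⟩,⟨3,[(8,1),(2,0),(8,1),(1,0),(8,0)]⟩⟩,.e ⟨false,0,⟨2,[(2,
  1),(2,0)]⟩,⟨9,[(1,1),(2,2),(3,1),(0,0),(26,3)]⟩⟩ ⟨false,1,⟨5,[(2,0),(2,4),(3,2),(27,2)]⟩,⟨0,[(1,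
  0)]⟩⟩,.a ⟨true,0,⟨0,[(19,0)]⟩,⟨0,[(22,0)]⟩⟩ ⟨false,0,⟨0,[(10,0)]⟩,⟨0,[(1,0),(35,0)]⟩⟩ ⟨true,0,⟨0,
  [(10,0)]⟩,⟨0,[(1,0)]⟩⟩,.o ⟨false,0,⟨0,[(0,0)]⟩,⟨21,[(4,2),(4,0),(0,5),(0,13),(10,7),(4,3)]⟩⟩]⟩)
  (.I [0,0,-1,-2,0,0,0,1] (.Q [0,0,0,2,0,0,-1,-1,0,1,-1] (.p false [0,0,1] [1] (⟨0,[(26,0)]⟩,⟨0,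
  [(25,0)]⟩) .k 1 (⟨0,[]⟩,⟨0,[]⟩) .k .k) (.S ⟨1,0,[0,0,-1,-2,0,0,0,1],[0,-1,1],[1,1,-1,-1,0,0,0,1],
  (⟨0,[(16,0)]⟩,⟨0,[(26,0),(4,0)]⟩),⟨0,[(8,0),(6,0),(12,2),(6,0),(4,0)]⟩,.k,(.r (-1) ⟨9,[(1,3),(4,
  2),(4,4),(26,1)]⟩ ⟨0,[(0,0),(1,0),(31,0)]⟩),⟨false,0,⟨0,[]⟩,⟨15,[(6,2),(0,5),(3,4),(27,7)]⟩⟩,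
  ⟨true,0,⟨0,[(37,0)]⟩,⟨0,[(36,0)]⟩⟩,⟨true,0,⟨0,[(36,0)]⟩,⟨0,[(37,0)]⟩⟩,⟨false,1,⟨15,[(6,2),(0,5),
  (3,4),(27,7)]⟩,⟨0,[]⟩⟩,[.a ⟨true,0,⟨0,[(1,0),(22,0)]⟩,⟨0,[(0,0)]⟩⟩ ⟨false,0,⟨0,[(1,0),(33,0)]⟩,
  ⟨15,[(6,0),(0,17),(3,6),(27,7)]⟩⟩ ⟨true,0,⟨0,[(1,0)]⟩,⟨0,[(7,0)]⟩⟩,.o ⟨false,1,⟨41,[(1,35),(4,2),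
  (4,4),(12,41),(8,12),(0,2),(4,20)]⟩,⟨2,[(0,1),(8,0),(23,0),(2,1)]⟩⟩,.e ⟨true,0,⟨3,[(1,1),(1,0),(1,
  0),(26,0)]⟩,⟨2,[(4,0),(2,1)]⟩⟩ ⟨true,0,⟨0,[(1,0)]⟩,⟨8,[(4,0),(2,7),(24,2),(2,2)]⟩⟩,.o ⟨false,0,⟨0,
  [(2,0),(31,0)]⟩,⟨3,[(14,0),(6,1),(11,0),(4,2)]⟩⟩]⟩) (.S ⟨1,0,[0,0,-1,-2,0,0,0,1],[0,-1,1],[1,1],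
  (⟨0,[(16,0)]⟩,⟨0,[(26,0),(4,0)]⟩),⟨0,[(8,0),(6,0),(12,2),(6,0),(4,0)]⟩,.k,(.x 0 ⟨0,[(2,0),(23,0),
  (4,1),(2,0)]⟩ ⟨23,[(1,1),(2,1),(9,8),(1,23),(4,5),(6,23),(4,4),(1,5),(2,15),(0,2)]⟩),⟨false,0,⟨2,
  [(4,0),(2,1)]⟩,⟨3,[(1,1),(8,1),(27,0),(0,0)]⟩⟩,⟨true,0,⟨0,[(37,0)]⟩,⟨0,[(36,0)]⟩⟩,⟨true,0,⟨8,[(4,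
  0),(2,7),(24,2),(2,2)]⟩,⟨0,[(1,0)]⟩⟩,⟨false,1,⟨15,[(6,2),(0,5),(3,4),(27,7)]⟩,⟨0,[]⟩⟩,[.o ⟨false,
  0,⟨0,[(0,0)]⟩,⟨3,[(7,3),(6,0),(6,1),(11,0),(4,2)]⟩⟩,.o ⟨false,1,⟨37,[(0,25),(5,5),(4,9),(12,11),
  (4,2),(4,5),(4,18)]⟩,⟨2,[(7,1),(1,0),(11,1),(11,0),(1,1)]⟩⟩,.a ⟨true,0,⟨0,[(24,0)]⟩,⟨0,[(21,0)]⟩⟩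
  ⟨false,0,⟨0,[]⟩,⟨15,[(6,2),(0,5),(3,4),(27,7)]⟩⟩ ⟨true,0,⟨0,[(1,0)]⟩,⟨8,[(4,0),(2,7),(24,2),(2,
  2)]⟩⟩,.o ⟨false,0,⟨0,[(2,0),(31,0)]⟩,⟨3,[(14,0),(6,1),(11,0),(4,2)]⟩⟩]⟩)) (.Q [0,1,0,-2,0,0,1,1,0,
  -1,1] (.p true [0,0,1] [1] (⟨0,[(26,0)]⟩,⟨0,[(25,0)]⟩) .k 1 (⟨0,[]⟩,⟨0,[]⟩) .k .k) (.S ⟨1,0,[0,1,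
  -1,-2,0,0,0,1],[0,-1,1],[0,0,-1,-2,0,0,0,1],(⟨0,[(16,0)]⟩,⟨0,[(26,0),(4,0)]⟩),⟨0,[(8,0),(6,0),(12,
  2),(6,0),(4,0)]⟩,.k,(.r (-1) ⟨12,[(0,1),(2,4),(4,0),(1,5),(0,6),(2,0)]⟩ ⟨0,[(1,0),(38,0)]⟩),⟨true,
  0,⟨0,[(37,0)]⟩,⟨0,[(36,0)]⟩⟩,⟨false,0,⟨0,[(37,0)]⟩,⟨9,[(1,3),(4,1),(31,2),(0,4)]⟩⟩,⟨false,1,⟨15,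
  [(6,2),(0,5),(3,4),(27,7)]⟩,⟨0,[]⟩⟩,⟨true,0,⟨0,[(41,0)]⟩,⟨0,[]⟩⟩,[.o ⟨false,0,⟨0,[(0,0)]⟩,⟨3,[(1,
  3),(12,0),(6,1),(11,0),(4,0),(0,1)]⟩⟩,.e ⟨false,1,⟨1,[(3,2),(0,0),(3,2),(24,0),(5,0)]⟩,⟨1,[(1,0),
  (5,0),(24,0)]⟩⟩ ⟨false,1,⟨12,[(0,1),(2,4),(4,0),(1,5),(0,6),(2,0)]⟩,⟨0,[(1,0)]⟩⟩,.a ⟨true,0,⟨0,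
  [(24,0)]⟩,⟨0,[(21,0)]⟩⟩ ⟨false,1,⟨11,[(0,5),(2,5),(4,5),(2,1),(2,2),(18,0),(5,8)]⟩,⟨0,[(1,0)]⟩⟩
  ⟨true,0,⟨0,[(0,0),(20,0)]⟩,⟨0,[(1,0)]⟩⟩,.o ⟨false,0,⟨0,[(2,0),(31,0)]⟩,⟨3,[(14,0),(6,1),(11,0),(4,
  2)]⟩⟩]⟩) (.I [0,0,0,0,1,0,0,0,-1] (.I [0,0,2,0,0,0,0,0,1] (.I [0,0,2,0,0,0,1] (.I [0,-1,2,-1] (.C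
  [(0,0),(3,0),(1,1),(0,1),(4,0),(0,0),(23,0)]) (.C [(0,0),(11,0),(25,0)])) (.C [(0,0),(4,0),(23,0),
  (7,0)])) (.C [(0,0),(19,0),(0,0),(14,0)])) (.C [(0,0),(17,0),(2,0)]))))) (.Q [0,0,0,0,0,0,-1,0,0,
  0,-1] (.p false [0,0,1] [] (⟨0,[(24,0)]⟩,⟨0,[(23,0)]⟩) .k 0 (⟨0,[]⟩,⟨0,[]⟩) .k .k) (.R ⟨0,false,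
  false,false,[1,0,-1],[1,-1],[1,1],(⟨0,[(24,0)]⟩,⟨0,[(25,0)]⟩),(⟨0,[(28,0)]⟩,⟨0,[(29,0)]⟩),⟨0,[(13,
  0)]⟩,.k,.k,.k,.k,.k,.k,⟨false,0,⟨0,[(34,0)]⟩,⟨15,[(4,0),(0,1),(3,6),(27,7)]⟩⟩,⟨true,0,⟨0,[(22,
  0)]⟩,⟨0,[(0,0)]⟩⟩,⟨true,0,⟨0,[(3,0)]⟩,⟨2,[(2,1),(2,0)]⟩⟩,⟨false,1,⟨8,[(6,5),(1,2),(0,0),(10,5),(1,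
  2),(8,1),(5,2)]⟩,⟨0,[(0,0),(0,0),(31,0)]⟩⟩,⟨false,0,⟨0,[]⟩,⟨0,[]⟩⟩,⟨false,0,⟨0,[]⟩,⟨0,[]⟩⟩,[.o
  ⟨false,0,⟨0,[(35,0)]⟩,⟨41,[(4,7),(0,15),(25,13),(1,1),(2,18),(0,0)]⟩⟩,.a ⟨true,0,⟨0,[(6,0)]⟩,⟨0,
  [(34,0)]⟩⟩ ⟨true,0,⟨0,[]⟩,⟨3,[(12,0),(9,1),(9,0)]⟩⟩ ⟨false,1,⟨0,[(6,0),(4,0)]⟩,⟨0,[(0,0),(33,
  0)]⟩⟩,.o ⟨false,0,⟨0,[(0,0)]⟩,⟨21,[(4,2),(4,0),(0,5),(0,13),(10,7),(4,3)]⟩⟩,.o ⟨false,0,⟨0,[(23,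
  0)]⟩,⟨0,[(11,0)]⟩⟩]⟩) (.I [1,-1,-1,0,1,0,0,1] (.S ⟨1,0,[0,1,1,0,0,0,0,-1],[1,1,-1],[0,0,1,0,0,0,0,
  -1],(⟨0,[(25,0),(4,0)]⟩,⟨0,[(15,0)]⟩),⟨0,[(25,0)]⟩,.k,.k,⟨true,0,⟨0,[(36,0)]⟩,⟨0,[(35,0)]⟩⟩,
  ⟨false,0,⟨0,[(36,0)]⟩,⟨3,[(0,1),(5,1),(30,0),(0,0)]⟩⟩,⟨false,1,⟨15,[(5,2),(0,5),(3,4),(27,7)]⟩,⟨0,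
  []⟩⟩,⟨true,0,⟨0,[(40,0)]⟩,⟨0,[]⟩⟩,[.e ⟨false,0,⟨2,[(3,1),(2,0)]⟩,⟨9,[(0,3),(4,2),(4,0),(20,1),(5,
  1)]⟩⟩ ⟨false,0,⟨5,[(3,1),(2,0),(4,2),(19,2)]⟩,⟨0,[(0,0)]⟩⟩,.o ⟨false,0,⟨11,[(3,3),(2,1),(1,5),(4,
  2),(18,2),(5,2)]⟩,⟨25,[(0,5),(4,2),(3,3),(0,0),(1,4),(8,9),(1,10),(8,6)]⟩⟩,.e ⟨false,0,⟨0,[(2,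
  0)]⟩,⟨9,[(0,3),(4,2),(4,0),(20,1),(5,1)]⟩⟩ ⟨false,0,⟨0,[(11,0)]⟩,⟨0,[(0,0)]⟩⟩,.a ⟨true,0,⟨8,[(5,
  0),(0,0),(0,2),(0,0),(4,2),(6,1),(10,0)]⟩,⟨0,[(1,0)]⟩⟩ ⟨true,0,⟨2,[(3,1),(2,0)]⟩,⟨0,[(4,0)]⟩⟩
  ⟨false,0,⟨2,[(3,1),(2,0)]⟩,⟨0,[(9,0)]⟩⟩]⟩) (.S ⟨1,0,[0,0,1,0,0,0,0,-1],[1,1,-1],[0,1,1,0,0,0,0,
  -1],(⟨0,[(25,0),(4,0)]⟩,⟨0,[(15,0)]⟩),⟨0,[(25,0)]⟩,.k,.k,⟨false,0,⟨0,[(36,0)]⟩,⟨13,[(5,1),(0,3),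
  (27,3),(2,2),(0,8)]⟩⟩,⟨true,0,⟨0,[(36,0)]⟩,⟨0,[(35,0)]⟩⟩,⟨true,0,⟨0,[(40,0)]⟩,⟨0,[]⟩⟩,⟨false,1,
  ⟨15,[(5,2),(0,5),(3,4),(27,7)]⟩,⟨0,[]⟩⟩,[.o ⟨false,0,⟨11,[(3,3),(2,1),(1,5),(4,2),(18,2),(5,2)]⟩,
  ⟨3,[(9,1),(2,0),(8,1),(1,0),(8,0)]⟩⟩,.a ⟨true,0,⟨0,[(8,0),(29,0)]⟩,⟨0,[(21,0)]⟩⟩ ⟨false,0,⟨2,[(3,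
  1),(2,0)]⟩,⟨3,[(5,0),(3,1),(0,0),(23,1)]⟩⟩ ⟨true,0,⟨0,[(2,0)]⟩,⟨0,[(4,0)]⟩⟩,.a ⟨true,0,⟨0,[(20,
  0)]⟩,⟨0,[(23,0)]⟩⟩ ⟨true,(-1),⟨0,[(0,0)]⟩,⟨3,[(5,0),(3,1),(0,0),(23,1)]⟩⟩ ⟨false,0,⟨0,[(2,0)]⟩,⟨3,
  [(5,0),(3,1),(0,0),(23,1)]⟩⟩,.a ⟨true,0,⟨8,[(5,0),(0,0),(0,2),(0,0),(4,2),(6,1),(10,0)]⟩,⟨0,[(1,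
  0)]⟩⟩ ⟨false,0,⟨2,[(3,1),(2,0)]⟩,⟨0,[(9,0)]⟩⟩ ⟨true,0,⟨2,[(3,1),(2,0)]⟩,⟨0,[(4,0)]⟩⟩]⟩))))) (.I
  [1,-1,1,2,1,0,0,1] (.I [1,1,1,1,0,0,0,1] (.R ⟨0,false,false,false,[1,0,-1],[0,1],[0,0,1],(⟨0,[(23,
  0)]⟩,⟨0,[(24,0)]⟩),(⟨0,[(28,0)]⟩,⟨0,[(27,0)]⟩),⟨0,[(12,0)]⟩,.k,.k,.k,.k,.k,.k,⟨true,0,⟨0,[(34,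
  0)]⟩,⟨0,[(0,0),(1,0)]⟩⟩,⟨false,1,⟨0,[(2,0),(2,1),(13,0),(10,0),(1,1)]⟩,⟨0,[(11,0),(9,0)]⟩⟩,⟨false,
  1,⟨33,[(3,18),(1,9),(2,2),(0,3),(21,9),(4,11)]⟩,⟨11,[(2,11),(3,2),(1,1),(10,2),(10,0),(1,5)]⟩⟩,
  ⟨true,1,⟨2,[(1,0),(0,0),(16,2),(10,0),(1,0),(3,0)]⟩,⟨0,[(6,0),(27,0)]⟩⟩,⟨false,0,⟨0,[]⟩,⟨0,[]⟩⟩,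
  ⟨false,0,⟨0,[]⟩,⟨0,[]⟩⟩,[.o ⟨false,1,⟨9,[(1,1),(2,1),(21,4),(6,1),(1,2)]⟩,⟨0,[(34,0)]⟩⟩,.o ⟨false,
  1,⟨2,[(1,0),(0,0),(27,0),(1,0),(3,0)]⟩,⟨13,[(3,0),(2,5),(1,4),(10,3),(1,1),(9,5),(6,3)]⟩⟩,.a
  ⟨true,0,⟨8,[(3,0),(0,0),(0,2),(0,0),(4,2),(6,1),(10,0)]⟩,⟨0,[(2,0),(16,0)]⟩⟩ ⟨true,0,⟨3,[(11,0),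
  (9,1),(9,0)]⟩,⟨11,[(6,2),(1,1),(10,2),(10,0),(1,5)]⟩⟩ ⟨false,1,⟨2,[(1,0),(0,3),(16,2),(10,0),(1,
  0),(3,0)]⟩,⟨3,[(3,0),(1,1),(0,1),(1,0),(2,0),(19,0)]⟩⟩,.o ⟨false,0,⟨0,[(22,0)]⟩,⟨0,[(10,0)]⟩⟩]⟩)
  (.R ⟨0,false,false,false,[1,0,-1],[0,1],[0,0,2,1],(⟨0,[(23,0)]⟩,⟨0,[(24,0)]⟩),(⟨0,[(28,0)]⟩,⟨0,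
  [(27,0)]⟩),⟨0,[(12,0)]⟩,.k,.k,.k,.k,.k,.k,⟨true,0,⟨3,[(11,0),(9,1),(9,0)]⟩,⟨0,[]⟩⟩,⟨false,1,⟨4,
  [(0,3),(6,0),(2,1),(8,2),(10,0),(1,3),(3,0)]⟩,⟨0,[(11,0),(9,0)]⟩⟩,⟨false,1,⟨2,[(3,1),(0,0),(0,0),
  (25,0),(4,0)]⟩,⟨11,[(0,11),(5,2),(1,1),(10,2),(10,0),(1,5)]⟩⟩,⟨true,1,⟨6,[(0,1),(0,3),(0,0),(7,0),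
  (8,5),(10,1),(1,0)]⟩,⟨0,[(6,0),(27,0)]⟩⟩,⟨false,0,⟨0,[]⟩,⟨0,[]⟩⟩,⟨false,0,⟨0,[]⟩,⟨0,[]⟩⟩,[.o
  ⟨false,1,⟨9,[(1,1),(2,1),(21,4),(6,1),(1,2)]⟩,⟨0,[(34,0)]⟩⟩,.o ⟨false,1,⟨2,[(1,0),(0,0),(27,0),(1,
  0),(3,0)]⟩,⟨13,[(3,0),(2,5),(1,4),(10,3),(1,1),(9,5),(6,3)]⟩⟩,.a ⟨true,0,⟨8,[(3,0),(0,0),(0,2),(0,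
  0),(4,2),(6,1),(10,0)]⟩,⟨0,[(2,0),(16,0)]⟩⟩ ⟨true,0,⟨1,[(1,0),(4,0),(14,0),(9,0)]⟩,⟨1,[(0,1),(5,
  0),(11,1),(0,2),(10,0)]⟩⟩ ⟨false,1,⟨6,[(0,1),(0,3),(0,7),(7,0),(8,5),(10,1),(1,0)]⟩,⟨3,[(3,0),(1,
  1),(0,1),(1,0),(2,0),(19,0)]⟩⟩,.o ⟨false,0,⟨0,[(22,0)]⟩,⟨0,[(10,0)]⟩⟩]⟩)) (.Q [0,-1,0,-1,1,0,1,1,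
  0,-1,1] (.p true [0,0,1] [1] (⟨0,[(23,0)]⟩,⟨0,[(22,0)]⟩) .k 1 (⟨0,[]⟩,⟨0,[]⟩) .k .k) (.S ⟨1,4,[],
  [0,0,1],[1],(⟨0,[(24,0)]⟩,⟨0,[(23,0)]⟩),⟨0,[(13,0)]⟩,.k,.k,⟨false,0,⟨0,[(2,0)]⟩,⟨7,[(3,4),(0,1),
  (3,2)]⟩⟩,⟨true,(-1),⟨0,[(6,0)]⟩,⟨7,[(0,1),(2,1),(6,2),(8,1),(1,0),(8,0)]⟩⟩,⟨true,0,⟨10,[(1,0),(0,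
  5),(1,3),(27,4),(2,0)]⟩,⟨0,[(1,0),(1,0)]⟩⟩,⟨false,0,⟨10,[(2,1),(1,6),(1,1),(1,0),(9,8),(16,0)]⟩,
  ⟨0,[(0,0)]⟩⟩,[.o ⟨false,0,⟨0,[(38,0)]⟩,⟨1,[(26,0),(9,0)]⟩⟩,.e ⟨false,1,⟨1,[(35,0),(0,0)]⟩,⟨0,[(38,
  0)]⟩⟩ ⟨false,0,⟨0,[(18,0)]⟩,⟨21,[(3,2),(4,0),(0,5),(0,13),(10,7),(4,3)]⟩⟩,.a ⟨true,0,⟨0,[(2,0),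
  (16,0)]⟩,⟨8,[(3,0),(0,0),(0,2),(0,0),(4,2),(6,1),(10,0)]⟩⟩ ⟨true,0,⟨0,[]⟩,⟨0,[(38,0)]⟩⟩ ⟨false,0,
  ⟨8,[(3,0),(0,0),(0,2),(0,0),(4,2),(6,1),(10,0)]⟩,⟨3,[(0,2),(1,1),(1,0),(5,0),(21,0)]⟩⟩,.e ⟨false,
  1,⟨1,[(35,0),(0,0)]⟩,⟨3,[(11,0),(9,1),(9,0)]⟩⟩ ⟨false,0,⟨0,[(18,0)]⟩,⟨1,[(21,1),(4,0),(9,0)]⟩⟩]⟩)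
  (.S ⟨1,0,[0,1,1,0,0,0,0,-1],[1,1,-1],[0,1,1],(⟨0,[(23,0),(4,0)]⟩,⟨0,[(13,0)]⟩),⟨0,[(23,0)]⟩,.k,.k,
  ⟨true,0,⟨0,[(1,0),(1,0)]⟩,⟨3,[(0,0),(1,1),(1,0),(5,0),(21,0)]⟩⟩,⟨false,0,⟨0,[(34,0)]⟩,⟨13,[(3,1),
  (0,3),(27,3),(2,2),(0,8)]⟩⟩,⟨false,1,⟨7,[(3,4),(0,1),(3,2)]⟩,⟨0,[(2,0)]⟩⟩,⟨true,0,⟨0,[(38,0)]⟩,⟨0,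
  []⟩⟩,[.a ⟨true,(-1),⟨0,[(6,0)]⟩,⟨0,[(19,0),(16,0)]⟩⟩ ⟨false,0,⟨0,[(38,0)]⟩,⟨1,[(35,0),(0,0)]⟩⟩
  ⟨true,(-1),⟨2,[(0,1),(0,0),(0,1),(16,1),(11,1)]⟩,⟨0,[(7,0)]⟩⟩,.o ⟨false,0,⟨20,[(0,1),(0,0),(0,9),
  (6,0),(1,5),(8,6),(5,0),(3,1)]⟩,⟨3,[(7,1),(2,0),(8,1),(1,0),(8,0)]⟩⟩,.a ⟨true,0,⟨0,[(18,0)]⟩,⟨0,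
  [(21,0)]⟩⟩ ⟨false,0,⟨3,[(11,0),(9,1),(9,0)]⟩,⟨1,[(35,0),(0,0)]⟩⟩ ⟨true,(-1),⟨2,[(0,1),(0,0),(0,1),
  (16,1),(11,1)]⟩,⟨3,[(3,0),(3,1),(0,0),(23,1)]⟩⟩,.a ⟨true,0,⟨8,[(3,0),(0,0),(0,2),(0,0),(4,2),(6,
  1),(10,0)]⟩,⟨0,[(2,0),(16,0)]⟩⟩ ⟨true,0,⟨0,[(38,0)]⟩,⟨0,[]⟩⟩ ⟨false,0,⟨14,[(1,3),(0,3),(1,6),(3,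
  1),(26,1)]⟩,⟨0,[(7,0)]⟩⟩]⟩)))))))

theorem ok3 : chk K t3 r4 = true := by decide +kernel

noncomputable def t5 : Tre :=
  (.I [0,-1,0,-1,1,0,0,1] (.S ⟨1,0,[0,0,1,0,0,0,0,-1],[1,1,-1],[0,0,1],(⟨0,[(17,0),(4,0)]⟩,⟨0,[(7,
  0)]⟩),⟨0,[(17,0)]⟩,.k,.k,⟨false,1,⟨0,[(0,0)]⟩,⟨0,[(1,0),(25,0),(2,0)]⟩⟩,⟨true,0,⟨0,[(28,0)]⟩,⟨0,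
  [(27,0)]⟩⟩,⟨true,1,⟨0,[(0,0),(26,0)]⟩,⟨0,[(1,0)]⟩⟩,⟨false,1,⟨1,[(8,0),(0,0),(20,0)]⟩,⟨0,[]⟩⟩,[.o
  ⟨false,0,⟨9,[(1,5),(3,2),(8,3),(9,0),(5,4)]⟩,⟨1,[(13,1),(6,0),(9,0)]⟩⟩,.e ⟨false,1,⟨1,[(8,0),(0,
  0),(20,0)]⟩,⟨17,[(1,2),(0,1),(9,2),(0,2),(9,2),(0,0),(1,5)]⟩⟩ ⟨false,0,⟨0,[(1,0),(28,0)]⟩,⟨1,[(0,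
  1),(22,0),(2,0),(0,0)]⟩⟩,.a ⟨true,0,⟨0,[(12,0)]⟩,⟨0,[(15,0)]⟩⟩ ⟨true,0,⟨3,[(5,0),(9,1),(9,0)]⟩,
  ⟨17,[(1,2),(0,1),(9,2),(0,2),(9,2),(0,0),(1,5)]⟩⟩ ⟨false,0,⟨3,[(1,3),(3,0),(9,1),(9,0),(4,3)]⟩,⟨0,
  [(0,0),(25,0)]⟩⟩,.e ⟨false,1,⟨1,[(8,0),(0,0),(20,0)]⟩,⟨0,[]⟩⟩ ⟨false,0,⟨0,[(1,0),(28,0)]⟩,⟨0,[(0,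
  0),(26,0)]⟩⟩]⟩) (.R ⟨0,false,false,false,[1,0,-1],[1,-1],[],(⟨0,[(17,0)]⟩,⟨0,[(18,0)]⟩),(⟨0,[(21,
  0)]⟩,⟨0,[(22,0)]⟩),⟨0,[(6,0)]⟩,.k,.k,.k,.k,.k,.k,⟨true,0,⟨1,[(0,1),(4,0),(7,1),(11,0),(4,1)]⟩,⟨0,
  [(28,0)]⟩⟩,⟨false,0,⟨0,[(1,0),(11,0),(16,0)]⟩,⟨3,[(5,1),(2,0),(0,0),(10,0),(8,1)]⟩⟩,⟨true,1,⟨3,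
  [(5,1),(2,0),(0,0),(3,3),(6,0),(9,1)]⟩,⟨0,[(1,0)]⟩⟩,⟨false,1,⟨0,[(13,0),(14,0),(1,0)]⟩,⟨4,[(0,3),
  (4,1),(8,0),(5,0),(6,0),(2,2)]⟩⟩,⟨false,0,⟨0,[]⟩,⟨0,[]⟩⟩,⟨false,0,⟨0,[]⟩,⟨0,[]⟩⟩,[.o ⟨false,0,⟨0,
  [(28,0)]⟩,⟨1,[(20,0),(6,1),(2,0)]⟩⟩,.o ⟨false,1,⟨11,[(2,3),(2,2),(2,1),(0,1),(5,5),(9,2),(4,5)]⟩,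
  ⟨1,[(0,1),(4,0),(7,1),(10,0),(5,0)]⟩⟩,.a ⟨true,0,⟨1,[(5,0),(6,0),(2,0)]⟩,⟨0,[(1,0),(11,0),(16,
  0)]⟩⟩ ⟨false,1,⟨1,[(8,0),(0,0),(20,0)]⟩,⟨0,[]⟩⟩ ⟨true,0,⟨0,[(1,0),(11,0),(14,0),(1,0)]⟩,⟨1,[(5,0),
  (19,0),(0,1)]⟩⟩,.o ⟨false,0,⟨0,[(16,0)]⟩,⟨0,[(4,0)]⟩⟩]⟩))

theorem ok5 : chk K t5 r3 = true := by decide +kernel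

noncomputable def t8 : Tre :=
  (.Q [0,0,0,0,0,0,1,1,0,-1,1] (.p true [0,0,1] [1] (⟨0,[(15,0)]⟩,⟨0,[(14,0)]⟩) .k 1 (⟨0,[]⟩,⟨0,
  []⟩) .k .k) (.Q [0,0,0,0,0,0,-1,0,0,0,-1] (.p false [0,0,1] [] (⟨0,[(16,0)]⟩,⟨0,[(15,0)]⟩) .k 0
  (⟨0,[]⟩,⟨0,[]⟩) .k .k) (.S ⟨1,0,[0,1,1,0,0,0,0,-1],[1,1,-1],[0,0,1,0,0,0,0,-1],(⟨0,[(16,0),(4,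
  0)]⟩,⟨0,[(6,0)]⟩),⟨0,[(16,0)]⟩,.k,.k,⟨true,0,⟨0,[(27,0)]⟩,⟨0,[(26,0)]⟩⟩,⟨false,0,⟨0,[(27,0)]⟩,⟨0,
  [(26,0),(2,0)]⟩⟩,⟨false,1,⟨1,[(7,0),(0,0),(20,0)]⟩,⟨0,[]⟩⟩,⟨true,0,⟨0,[(31,0)]⟩,⟨0,[]⟩⟩,[.o
  ⟨false,0,⟨0,[(13,0)]⟩,⟨3,[(1,1),(10,1),(6,0),(9,2)]⟩⟩,.o ⟨false,1,⟨1,[(7,0),(0,0),(4,1),(15,0)]⟩,
  ⟨0,[(1,0)]⟩⟩,.a ⟨true,0,⟨0,[(11,0)]⟩,⟨0,[(14,0)]⟩⟩ ⟨false,1,⟨0,[(13,0),(0,0),(14,0)]⟩,⟨0,[(2,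
  0)]⟩⟩ ⟨true,0,⟨0,[(13,0),(0,0)]⟩,⟨0,[(2,0)]⟩⟩,.o ⟨false,0,⟨0,[(0,0)]⟩,⟨3,[(3,1),(3,0),(0,0),(5,1),
  (4,0)]⟩⟩]⟩) (.I [0,-1,0,-1,0,0,0,1] (.S ⟨1,0,[0,0,1,0,0,0,0,-1],[1,1,-1],[0,0,1],(⟨0,[(17,0),(4,
  0)]⟩,⟨0,[(7,0)]⟩),⟨0,[(17,0)]⟩,.k,.k,⟨false,0,⟨0,[(0,0)]⟩,⟨0,[(1,0),(12,0),(12,0),(2,0)]⟩⟩,⟨true,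
  0,⟨0,[(28,0)]⟩,⟨0,[(27,0)]⟩⟩,⟨true,0,⟨0,[(0,0),(26,0)]⟩,⟨0,[(1,0),(12,0)]⟩⟩,⟨false,1,⟨1,[(8,0),(0,
  0),(20,0)]⟩,⟨0,[]⟩⟩,[.o ⟨false,1,⟨1,[(8,0),(0,0),(4,1),(15,0)]⟩,⟨0,[(2,0)]⟩⟩,.o ⟨false,1,⟨0,[(14,
  0),(15,0)]⟩,⟨4,[(2,3),(10,0),(9,1),(1,0)]⟩⟩,.a ⟨true,0,⟨0,[(12,0)]⟩,⟨0,[(15,0)]⟩⟩ ⟨true,0,⟨3,[(5,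
  0),(9,1),(9,0)]⟩,⟨0,[(26,0),(1,0)]⟩⟩ ⟨false,1,⟨0,[(14,0),(0,0),(14,0)]⟩,⟨0,[(3,0)]⟩⟩,.e ⟨false,1,
  ⟨1,[(8,0),(0,0),(20,0)]⟩,⟨0,[]⟩⟩ ⟨false,1,⟨0,[(1,0),(12,0),(15,0)]⟩,⟨0,[(0,0),(26,0)]⟩⟩]⟩) (.Q [0,
  -1,0,2,1,0,-1,-1,0,0,-1] (.p false [0,0,1] [] (⟨0,[(18,0)]⟩,⟨0,[(17,0)]⟩) .k 0 (⟨0,[]⟩,⟨0,[]⟩) .k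
  .k) (.Q [0,0,0,0,0,-2,0,0,0,0,1] (.p true [0,0,1] [] (⟨0,[(19,0)]⟩,⟨0,[(18,0)]⟩) .k 0 (⟨0,[]⟩,⟨0,
  []⟩) .k .k) (.S ⟨1,0,[0,1,-1,-2,0,0,0,1],[0,-1,1],[1,0,-1,-1,0,0,0,1],(⟨0,[(9,0)]⟩,⟨0,[(19,0),(4,
  0)]⟩),⟨0,[(0,0)]⟩,.k,(.x 0 ⟨0,[(3,0),(15,0),(4,1),(2,0)]⟩ ⟨3,[(0,3),(6,0),(6,1),(11,0),(4,2)]⟩),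
  ⟨true,0,⟨0,[]⟩,⟨0,[(34,0)]⟩⟩,⟨false,0,⟨0,[(30,0)]⟩,⟨1,[(1,0),(13,0),(16,0)]⟩⟩,⟨false,1,⟨1,[(1,0),
  (13,0),(16,0)]⟩,⟨0,[(30,0)]⟩⟩,⟨true,0,⟨0,[(34,0)]⟩,⟨0,[]⟩⟩,[.o ⟨false,0,⟨4,[(4,3),(10,0),(9,1),(1,
  0),(2,9)]⟩,⟨0,[(1,0)]⟩⟩,.o ⟨false,0,⟨0,[(4,0),(25,1)]⟩,⟨0,[(1,0),(32,0)]⟩⟩,.a ⟨true,0,⟨0,[(17,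
  0)]⟩,⟨0,[(14,0)]⟩⟩ ⟨true,0,⟨0,[(5,0),(24,0)]⟩,⟨3,[(2,3),(4,0),(9,1),(9,0)]⟩⟩ ⟨false,0,⟨0,[(5,0),
  (24,1)]⟩,⟨0,[(1,0),(15,0)]⟩⟩,.o ⟨false,0,⟨0,[(3,0),(23,0)]⟩,⟨3,[(7,0),(6,1),(11,0),(4,2)]⟩⟩]⟩)
  (.I [0,0,0,0,1,0,0,0,-1] (.I [0,0,-1,0,0,0,0,1] (.I [0,0,0,0,0,2,1] (.C [(0,0),(10,0),(5,0),(6,2),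
  (11,0)]) (.C [(0,0),(2,0),(2,0)])) (.C [(0,0),(5,0),(9,0)])) (.C [(0,0),(10,0),(2,0)]))) (.Q [0,
  -1,0,-2,0,0,1,1,0,-1,1] (.p true [0,0,1] [1] (⟨0,[(19,0)]⟩,⟨0,[(18,0)]⟩) .k 1 (⟨0,[]⟩,⟨0,[]⟩) .k
  .k) (.Q [0,0,0,0,0,-2,0,0,0,0,1] (.p true [0,0,1] [] (⟨0,[(20,0)]⟩,⟨0,[(19,0)]⟩) .k 0 (⟨0,[]⟩,⟨0,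
  []⟩) .k .k) (.S ⟨1,4,[],[0,-1,1],[1,1,-1,-1,0,0,0,1],(⟨0,[(10,0)]⟩,⟨0,[(20,0),(4,0)]⟩),⟨0,[(0,
  0)]⟩,.k,(.r 0 ⟨3,[(1,3),(0,0),(12,3),(1,0),(11,1),(2,0)]⟩ ⟨1,[(3,1),(4,0),(9,1),(9,0),(1,1),(2,
  1)]⟩),⟨false,0,⟨0,[]⟩,⟨1,[(11,0),(0,0),(20,0)]⟩⟩,⟨true,0,⟨1,[(3,1),(4,0),(6,0),(2,0)]⟩,⟨5,[(1,1),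
  (0,0),(2,1),(10,0),(6,0)]⟩⟩,⟨true,0,⟨0,[(30,0)]⟩,⟨0,[(31,0)]⟩⟩,⟨false,1,⟨1,[(3,1),(4,0),(6,0),(2,
  0),(11,1),(2,1)]⟩,⟨0,[(1,0)]⟩⟩,[.o ⟨false,0,⟨0,[(35,0)]⟩,⟨1,[(23,0),(9,0)]⟩⟩,.fa ⟨false,0,⟨0,[(1,
  0),(13,0),(13,0)]⟩,⟨3,[(3,3),(4,0),(2,1),(0,1),(5,1),(9,0),(4,1)]⟩⟩ ⟨true,0,⟨0,[(15,0)]⟩,⟨0,[(4,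
  0),(23,0)]⟩⟩,.e ⟨false,0,⟨3,[(1,0),(0,0),(3,1),(1,0),(23,0)]⟩,⟨3,[(3,3),(4,0),(9,1),(9,0),(4,
  3)]⟩⟩ ⟨false,0,⟨0,[(15,0)]⟩,⟨1,[(18,1),(4,0),(9,0)]⟩⟩,.o ⟨false,0,⟨0,[(4,0),(23,0)]⟩,⟨3,[(8,0),(6,
  1),(11,0),(4,2)]⟩⟩]⟩) (.I [0,0,0,0,1,0,0,0,-1] (.I [0,0,0,0,0,0,1,1] (.I [0,0,-1,0,0,0,0,1] (.I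
  [0,0,-1,0,0,1,-1] (.C [(0,0),(3,0),(3,0),(17,2),(11,0)]) (.C [(0,0),(12,0),(5,0)])) (.C [(0,0),(7,
  0),(9,0)])) (.C [(0,0),(6,0),(14,0)])) (.C [(0,0),(11,0),(2,0)]))) (.Q [0,-1,0,1,1,0,-1,-1,0,0,
  -1] (.p false [0,0,1] [] (⟨0,[(20,0)]⟩,⟨0,[(19,0)]⟩) .k 0 (⟨0,[]⟩,⟨0,[]⟩) .k .k) (.Q [0,0,0,0,0,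
  -2,0,0,0,0,1] (.p true [0,0,1] [] (⟨0,[(21,0)]⟩,⟨0,[(20,0)]⟩) .k 0 (⟨0,[]⟩,⟨0,[]⟩) .k .k) (.S ⟨1,
  1,[],[0,-1,1],[1,0,-1,-1,0,0,0,1],(⟨0,[(11,0)]⟩,⟨0,[(21,0),(4,0)]⟩),⟨0,[(0,0)]⟩,.k,(.x 0 ⟨0,[(5,
  0),(15,0),(4,1),(2,0)]⟩ ⟨3,[(0,3),(8,0),(6,1),(11,0),(4,2)]⟩),⟨true,0,⟨0,[]⟩,⟨0,[(36,0)]⟩⟩,⟨false,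
  1,⟨0,[(1,0)]⟩,⟨1,[(3,0),(13,0),(16,0)]⟩⟩,⟨false,1,⟨0,[(31,0),(2,0)]⟩,⟨0,[(32,0)]⟩⟩,⟨true,1,⟨0,[(1,
  0),(29,0)]⟩,⟨0,[(3,0)]⟩⟩,[.fo,.o ⟨false,1,⟨1,[(24,0),(9,0)]⟩,⟨0,[(36,0)]⟩⟩,.a ⟨true,0,⟨0,[(19,
  0)]⟩,⟨0,[(16,0)]⟩⟩ ⟨true,0,⟨7,[(3,3),(3,3),(1,0),(6,1),(11,0),(4,0),(0,1)]⟩,⟨3,[(2,0),(1,1),(13,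
  0),(0,1),(9,0)]⟩⟩ ⟨false,1,⟨3,[(9,0),(6,1),(11,0),(4,0),(0,1)]⟩,⟨0,[(19,0)]⟩⟩,.o ⟨false,0,⟨0,[(5,
  0),(23,0)]⟩,⟨3,[(9,0),(6,1),(11,0),(4,2)]⟩⟩]⟩) (.I [0,0,0,0,1,0,0,0,-1] (.I [0,0,-1,0,0,0,0,1]
  (.I [0,0,0,0,0,2,1] (.C [(0,0),(12,0),(5,0),(6,2),(11,0)]) (.C [(0,0),(2,0),(4,0)])) (.C [(0,0),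
  (7,0),(9,0)])) (.C [(0,0),(12,0),(2,0)]))) (.Q [0,0,1,0,0,0,2,0,0,-1,2] (.p true [0,0,1] [1,0,-1]
  (⟨0,[(21,0)]⟩,⟨0,[(20,0)]⟩) .k 2 (⟨0,[(20,0)]⟩,⟨0,[(21,0)]⟩) .k (.r 0 ⟨0,[(5,0),(0,0),(1,0),(9,
  0)]⟩ ⟨0,[(3,1),(27,1),(1,0)]⟩)) (.R ⟨0,false,false,false,[1,0,-1],[0,-1,1],[],(⟨0,[(21,0)]⟩,⟨0,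
  [(22,0)]⟩),(⟨0,[(11,0)]⟩,⟨0,[(21,0),(4,0)]⟩),⟨0,[(10,0)]⟩,.k,.k,.k,(.r (-1) ⟨0,[(4,0),(13,0),(0,
  0),(14,0)]⟩ ⟨7,[(3,3),(2,1),(0,7),(1,3),(7,1),(6,0),(9,2)]⟩),.k,.k,⟨false,1,⟨1,[(4,1),(7,0),(0,0),
  (20,0)]⟩,⟨7,[(3,3),(3,3),(1,0),(6,1),(11,0),(4,0),(0,1)]⟩⟩,⟨true,0,⟨0,[(0,0)]⟩,⟨0,[(9,0)]⟩⟩,⟨true,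
  0,⟨1,[(6,0),(0,0),(1,0),(9,0)]⟩,⟨0,[(4,0),(27,0)]⟩⟩,⟨false,0,⟨0,[(1,0),(4,0),(27,0)]⟩,⟨1,[(2,0),
  (13,0),(1,2),(0,0),(14,1)]⟩⟩,⟨false,0,⟨0,[]⟩,⟨0,[]⟩⟩,⟨false,0,⟨0,[]⟩,⟨0,[]⟩⟩,[.o ⟨false,0,⟨3,[(3,
  1),(2,1),(17,0),(9,0)]⟩,⟨3,[(2,1),(9,0),(0,0),(4,1),(5,0),(9,1)]⟩⟩,.e ⟨false,1,⟨1,[(33,0),(0,0)]⟩,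
  ⟨0,[(36,0)]⟩⟩ ⟨false,1,⟨0,[(1,0),(6,0),(25,0)]⟩,⟨1,[(2,0),(6,0),(8,0)]⟩⟩,.a ⟨true,0,⟨1,[(9,0),(6,
  0),(2,0)]⟩,⟨0,[(5,0)]⟩⟩ ⟨false,1,⟨1,[(12,0),(0,0),(20,0)]⟩,⟨0,[]⟩⟩ ⟨true,0,⟨2,[(0,0),(0,0),(1,0),
  (2,0),(1,0),(25,0)]⟩,⟨1,[(2,0),(6,0),(8,0)]⟩⟩,.o ⟨false,0,⟨0,[(20,0)]⟩,⟨0,[(8,0)]⟩⟩]⟩) (.I [0,0,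
  -1,-2] (.R ⟨1,false,false,true,[0,-1,1],[1,0,-1],[1,1,-1,-1,0,0,0,1],(⟨0,[(12,0)]⟩,⟨0,[(22,0),(4,
  0)]⟩),(⟨0,[(22,0)]⟩,⟨0,[(23,0)]⟩),⟨1,[(1,0),(0,1),(2,1),(5,0),(0,0),(11,3),(10,1),(0,0)]⟩,.k,.k,
  (.r 0 ⟨0,[(0,0),(7,0)]⟩ ⟨3,[(3,3),(9,0),(0,0),(5,3),(4,0),(4,1),(4,1)]⟩),(.r 0 ⟨7,[(4,3),(2,1),(0,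
  7),(1,3),(7,1),(6,0),(9,2)]⟩ ⟨0,[(5,0),(13,0),(0,0),(14,0)]⟩),(.r 0 ⟨6,[(0,3),(3,2),(3,9),(1,1),
  (7,0),(6,0),(9,1)]⟩ ⟨1,[(3,0),(1,1),(13,0),(0,1),(9,0),(4,1)]⟩),.k,⟨false,0,⟨13,[(0,3),(3,2),(3,
  23),(1,1),(7,0),(6,0),(9,1)]⟩,⟨0,[(5,0),(13,0),(0,0),(14,0)]⟩⟩,⟨true,0,⟨0,[(1,0)]⟩,⟨0,[(6,1),(23,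
  0)]⟩⟩,⟨false,0,⟨0,[]⟩,⟨1,[(13,0),(0,0),(20,0)]⟩⟩,⟨false,1,⟨5,[(0,1),(2,4),(6,0),(8,6),(0,1),(14,
  5)]⟩,⟨0,[(2,0),(4,0),(27,0)]⟩⟩,⟨true,0,⟨0,[(32,0)]⟩,⟨0,[(33,0)]⟩⟩,⟨false,1,⟨0,[(3,0),(15,0),(15,
  0)]⟩,⟨0,[(4,0),(2,0),(27,0)]⟩⟩,[.o ⟨false,0,⟨0,[(19,0)]⟩,⟨3,[(7,1),(10,1),(6,0),(9,2)]⟩⟩,.o
  ⟨false,1,⟨1,[(13,0),(0,0),(4,1),(15,0)]⟩,⟨0,[(7,0)]⟩⟩,.a ⟨true,0,⟨0,[(20,0)]⟩,⟨0,[(17,0)]⟩⟩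
  ⟨false,0,⟨13,[(0,3),(3,2),(3,9),(1,1),(7,0),(6,0),(9,1)]⟩,⟨3,[(3,0),(1,1),(13,0),(0,1),(9,0),(4,
  3)]⟩⟩ ⟨true,0,⟨0,[(17,0),(1,0)]⟩,⟨0,[(7,0),(12,0)]⟩⟩,.o ⟨false,0,⟨0,[(6,0),(23,0)]⟩,⟨3,[(1,1),(23,
  0),(8,2)]⟩⟩]⟩) (.R ⟨0,false,false,true,[1,0,-1],[1,-1],[0,1],(⟨0,[(22,0)]⟩,⟨0,[(23,0)]⟩),(⟨0,[(26,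
  0)]⟩,⟨0,[(27,0)]⟩),⟨0,[(11,0)]⟩,.k,.k,.k,.k,.k,.k,⟨true,0,⟨7,[(0,3),(9,0),(9,1),(9,0)]⟩,⟨0,[(33,
  0)]⟩⟩,⟨false,0,⟨0,[(6,0)]⟩,⟨3,[(10,1),(2,0),(0,0),(10,0),(8,1)]⟩⟩,⟨false,0,⟨8,[(0,0),(1,1),(4,3),
  (0,0),(1,3),(7,1),(16,1)]⟩,⟨0,[(5,0),(27,0),(1,0)]⟩⟩,⟨true,(-1),⟨0,[(2,0)]⟩,⟨3,[(3,1),(9,0),(0,0),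
  (4,1),(5,0),(9,1)]⟩⟩,⟨false,0,⟨0,[]⟩,⟨0,[]⟩⟩,⟨false,0,⟨0,[]⟩,⟨0,[]⟩⟩,[.o ⟨false,0,⟨0,[(33,0),(3,
  0)]⟩,⟨2,[(0,0),(28,0),(1,0),(3,1)]⟩⟩,.o ⟨false,0,⟨0,[(33,0)]⟩,⟨7,[(0,1),(2,1),(14,1),(6,4),(8,0),
  (0,1)]⟩⟩,.a ⟨true,0,⟨1,[(10,0),(6,0),(2,0)]⟩,⟨0,[(6,0)]⟩⟩ ⟨true,0,⟨0,[(37,0)]⟩,⟨0,[]⟩⟩ ⟨false,0,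
  ⟨0,[(6,0),(26,0)]⟩,⟨3,[(0,1),(9,1),(14,0),(8,0),(0,1)]⟩⟩,.o ⟨false,0,⟨0,[(21,0)]⟩,⟨0,[(9,
  0)]⟩⟩]⟩)))))))) (.Q [0,0,-1,0,0,0,-2,-1,0,1,-2] (.p false [0,0,1] [1,0,-1] (⟨0,[(16,0)]⟩,⟨0,[(15,
  0)]⟩) .k 2 (⟨0,[(15,0)]⟩,⟨0,[(16,0)]⟩) .k (.i 0 ⟨0,[(4,0),(0,0)]⟩ ⟨0,[(15,1)]⟩)) (.I [0,-1,0,0,1,
  0,0,-1] (.S ⟨1,0,[0,1,1,0,0,0,0,-1],[1,1,-1],[0,0,1,0,0,0,0,-1],(⟨0,[(17,0),(4,0)]⟩,⟨0,[(7,0)]⟩),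
  ⟨0,[(17,0)]⟩,.k,.k,⟨true,0,⟨0,[(28,0)]⟩,⟨0,[(27,0)]⟩⟩,⟨false,0,⟨0,[(28,0)]⟩,⟨0,[(27,0),(2,0)]⟩⟩,
  ⟨false,1,⟨1,[(8,0),(0,0),(20,0)]⟩,⟨0,[]⟩⟩,⟨true,0,⟨0,[(32,0)]⟩,⟨0,[]⟩⟩,[.o ⟨false,0,⟨0,[(14,0)]⟩,
  ⟨2,[(3,1),(9,0),(1,1),(8,0),(5,1)]⟩⟩,.e ⟨false,1,⟨0,[(0,0)]⟩,⟨9,[(3,7),(1,0),(7,1),(9,3),(1,0)]⟩⟩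
  ⟨false,1,⟨0,[(0,0),(31,0)]⟩,⟨0,[(3,0)]⟩⟩,.a ⟨true,0,⟨0,[(12,0)]⟩,⟨0,[(15,0)]⟩⟩ ⟨false,1,⟨3,[(0,3),
  (4,0),(9,1),(9,0)]⟩,⟨0,[(3,0)]⟩⟩ ⟨true,0,⟨0,[(14,0),(0,0)]⟩,⟨0,[(3,0)]⟩⟩,.o ⟨false,0,⟨1,[(1,0),(1,
  0),(21,0)]⟩,⟨2,[(0,0),(3,0),(8,0),(1,0),(4,0)]⟩⟩]⟩) (.Q [0,0,0,-1,0,0,1,1,0,-1,1] (.p true [0,0,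
  1] [1] (⟨0,[(18,0)]⟩,⟨0,[(17,0)]⟩) .k 1 (⟨0,[]⟩,⟨0,[]⟩) .k .k) (.R ⟨2,true,false,false,[0,1],[1,1,
  -1],[1,1,1,1],(⟨0,[]⟩,⟨0,[]⟩),(⟨0,[(18,0),(4,0)]⟩,⟨0,[(8,0)]⟩),⟨0,[]⟩,.k,.k,.k,.k,.k,.k,⟨true,
  (-1),⟨0,[(1,0)]⟩,⟨1,[(3,1),(12,1),(4,0),(9,0)]⟩⟩,⟨false,0,⟨0,[(13,0)]⟩,⟨3,[(5,1),(3,0),(0,0),(5,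
  1),(4,0)]⟩⟩,⟨false,0,⟨0,[]⟩,⟨1,[(9,0),(0,0),(20,0)]⟩⟩,⟨true,0,⟨0,[(3,0)]⟩,⟨3,[(0,0),(0,0),(12,1),
  (1,0),(8,0),(1,0)]⟩⟩,⟨true,0,⟨0,[(28,0)]⟩,⟨0,[(29,0)]⟩⟩,⟨false,1,⟨0,[(3,0),(24,0),(2,0)]⟩,⟨0,[(0,
  0)]⟩⟩,[]⟩) (.Q [0,0,1,0,-1,0,-2,0,0,1,-2] (.p false [0,0,1] [1,0,-1] (⟨0,[(19,0)]⟩,⟨0,[(18,0)]⟩)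
  .k 2 (⟨0,[(18,0)]⟩,⟨0,[(19,0)]⟩) .k (.r 1 ⟨0,[(1,1),(29,0)]⟩ ⟨1,[(3,3),(1,1),(3,0),(0,0),(5,1),(4,
  0)]⟩)) (.R ⟨0,false,false,false,[1,0,-1],[0,0,1],[0,0,1],(⟨0,[(19,0)]⟩,⟨0,[(20,0)]⟩),(⟨0,[(20,
  0)]⟩,⟨0,[(19,0)]⟩),⟨0,[(8,0)]⟩,.k,.k,.k,.k,.k,.k,⟨false,1,⟨3,[(4,3),(1,1),(3,0),(0,0),(5,1),(4,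
  0)]⟩,⟨0,[(5,0)]⟩⟩,⟨true,1,⟨0,[(6,0),(10,0)]⟩,⟨0,[(0,0)]⟩⟩,⟨false,0,⟨3,[(0,0),(1,2),(12,0),(1,0),
  (9,0),(4,3)]⟩,⟨0,[(4,0),(1,0)]⟩⟩,⟨true,0,⟨0,[(2,1),(3,0),(10,0),(14,0)]⟩,⟨0,[(4,0),(11,0)]⟩⟩,
  ⟨false,0,⟨0,[]⟩,⟨0,[]⟩⟩,⟨false,0,⟨0,[]⟩,⟨0,[]⟩⟩,[.a ⟨true,0,⟨0,[(5,0),(11,0)]⟩,⟨0,[(4,0)]⟩⟩ ⟨true,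
  0,⟨3,[(7,0),(9,1),(9,0)]⟩,⟨0,[]⟩⟩ ⟨false,1,⟨0,[(5,0),(0,0),(10,0)]⟩,⟨3,[(3,1),(0,1),(2,0),(19,
  0)]⟩⟩,.o ⟨false,1,⟨2,[(5,1),(9,0),(1,1),(8,0),(5,1)]⟩,⟨0,[(16,0)]⟩⟩,.o ⟨false,0,⟨5,[(0,1),(6,0),
  (18,0),(4,0)]⟩,⟨3,[(6,1),(3,0),(0,0),(5,1),(4,0)]⟩⟩,.o ⟨false,0,⟨0,[(18,0)]⟩,⟨0,[(6,0)]⟩⟩]⟩) (.R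
  ⟨0,false,false,false,[-1,1,1],[0,1],[0,0,2,1],(⟨0,[(8,0)]⟩,⟨0,[(19,0),(3,0)]⟩),(⟨0,[(24,0)]⟩,⟨0,
  [(23,0)]⟩),⟨0,[(19,0)]⟩,.k,.k,.k,.k,.k,.k,⟨true,0,⟨3,[(7,0),(9,1),(9,0)]⟩,⟨0,[]⟩⟩,⟨false,0,⟨0,
  [(14,0)]⟩,⟨7,[(0,3),(9,2),(0,2),(10,0),(4,1)]⟩⟩,⟨false,1,⟨9,[(0,3),(3,9),(5,0),(0,0),(5,1),(9,5),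
  (4,4)]⟩,⟨0,[(5,0)]⟩⟩,⟨true,0,⟨0,[(4,0)]⟩,⟨16,[(0,3),(1,7),(12,8),(10,3),(0,0),(5,1)]⟩⟩,⟨false,0,
  ⟨0,[]⟩,⟨0,[]⟩⟩,⟨false,0,⟨0,[]⟩,⟨0,[]⟩⟩,[.o ⟨false,1,⟨1,[(22,0),(6,1),(2,0)]⟩,⟨0,[(30,0)]⟩⟩,.o
  ⟨false,1,⟨1,[(1,0),(0,0),(14,0),(8,0),(1,0),(3,1)]⟩,⟨0,[(30,0),(3,0)]⟩⟩,.a ⟨true,1,⟨0,[(6,0)]⟩,⟨0,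
  [(2,1),(1,1),(12,0),(14,0)]⟩⟩ ⟨true,0,⟨7,[(1,3),(0,3),(4,0),(9,5),(9,4),(1,3),(2,3)]⟩,⟨0,[(0,0),
  (1,0),(0,0),(26,0)]⟩⟩ ⟨false,0,⟨3,[(1,3),(0,3),(4,0),(9,1),(9,0),(4,3)]⟩,⟨3,[(0,1),(21,0),(7,3),
  (0,0)]⟩⟩,.o ⟨false,1,⟨5,[(0,2),(21,0),(3,1),(0,0),(5,0)]⟩,⟨1,[(7,0),(6,0),(2,0)]⟩⟩]⟩)))) (.Q [0,0,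
  -1,0,0,0,-2,0,0,1,-2] (.p false [0,0,1] [1,0,-1] (⟨0,[(17,0)]⟩,⟨0,[(16,0)]⟩) .k 2 (⟨0,[(16,0)]⟩,
  ⟨0,[(17,0)]⟩) .k (.i 0 ⟨0,[(5,0),(0,0)]⟩ ⟨0,[(16,1)]⟩)) (.I [1,-1,0,1,1,0,0,-1] (.Q [0,0,0,0,0,0,
  -1,0,0,0,-1] (.p false [0,0,1] [] (⟨0,[(19,0)]⟩,⟨0,[(18,0)]⟩) .k 0 (⟨0,[]⟩,⟨0,[]⟩) .k .k) (.S ⟨1,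
  0,[0,1,1,0,0,0,0,-1],[1,1,-1],[1,0,1,1,0,0,0,-1],(⟨0,[(19,0),(4,0)]⟩,⟨0,[(9,0)]⟩),⟨0,[(19,0)]⟩,.k,
  .k,⟨true,0,⟨0,[]⟩,⟨0,[(34,0)]⟩⟩,⟨false,0,⟨0,[(30,0)]⟩,⟨0,[(29,0),(2,0)]⟩⟩,⟨false,1,⟨0,[(29,0),(2,
  0)]⟩,⟨0,[(30,0)]⟩⟩,⟨true,0,⟨0,[(34,0)]⟩,⟨0,[]⟩⟩,[.o ⟨false,0,⟨0,[(16,0)]⟩,⟨2,[(3,0),(1,0),(9,0),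
  (6,0),(9,1)]⟩⟩,.e ⟨false,1,⟨0,[(1,0)]⟩,⟨9,[(5,7),(1,0),(7,1),(9,3),(1,0),(2,9)]⟩⟩ ⟨false,1,⟨3,[(4,
  3),(1,1),(3,0),(0,0),(5,1),(4,0)]⟩,⟨0,[(5,0)]⟩⟩,.a ⟨true,0,⟨0,[(14,0)]⟩,⟨0,[(17,0)]⟩⟩ ⟨false,1,⟨3,
  [(1,3),(5,0),(9,1),(9,0)]⟩,⟨0,[(5,0),(24,0)]⟩⟩ ⟨true,0,⟨0,[(16,0),(0,0)]⟩,⟨0,[(5,0)]⟩⟩,.o ⟨false,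
  0,⟨0,[(0,0)]⟩,⟨3,[(6,1),(3,0),(0,0),(5,1),(4,0)]⟩⟩]⟩) (.Q [0,-1,0,-2,0,0,1,1,0,-1,1] (.p true [0,
  0,1] [1] (⟨0,[(20,0)]⟩,⟨0,[(19,0)]⟩) .k 1 (⟨0,[]⟩,⟨0,[]⟩) .k .k) (.Q [0,0,0,0,0,-2,0,0,0,0,1] (.p
  true [0,0,1] [] (⟨0,[(21,0)]⟩,⟨0,[(20,0)]⟩) .k 0 (⟨0,[]⟩,⟨0,[]⟩) .k .k) (.S ⟨1,4,[],[0,-1,1],[1,1,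
  -1,-1,0,0,0,1],(⟨0,[(11,0)]⟩,⟨0,[(21,0),(4,0)]⟩),⟨0,[(0,0)]⟩,.k,(.r 0 ⟨2,[(1,3),(4,0),(9,2),(10,
  0),(2,1)]⟩ ⟨1,[(3,1),(5,0),(9,1),(9,0),(1,1)]⟩),⟨false,0,⟨0,[]⟩,⟨1,[(12,0),(0,0),(20,0)]⟩⟩,⟨true,
  0,⟨0,[(6,0),(24,0)]⟩,⟨4,[(1,2),(3,0),(1,0),(19,0),(1,0),(0,0)]⟩⟩,⟨true,0,⟨0,[(31,0)]⟩,⟨0,[(32,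
  0)]⟩⟩,⟨false,1,⟨1,[(3,1),(5,0),(6,0),(2,0),(11,1)]⟩,⟨0,[(1,0)]⟩⟩,[.o ⟨false,0,⟨0,[(36,0)]⟩,⟨1,
  [(24,0),(9,0)]⟩⟩,.fa ⟨false,0,⟨0,[(1,0),(14,0),(13,0)]⟩,⟨3,[(3,3),(5,0),(9,1),(9,0),(6,3)]⟩⟩
  ⟨true,0,⟨0,[(16,0)]⟩,⟨0,[(2,0),(26,0)]⟩⟩,.e ⟨false,0,⟨5,[(1,2),(2,0),(2,1),(8,1),(0,0),(9,0)]⟩,⟨3,
  [(3,3),(5,0),(9,1),(9,0)]⟩⟩ ⟨false,0,⟨0,[(16,0)]⟩,⟨1,[(19,1),(4,0),(9,0)]⟩⟩,.o ⟨false,0,⟨0,[(2,0),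
  (26,0)]⟩,⟨3,[(4,1),(19,0),(8,2)]⟩⟩]⟩) (.I [0,0,0,0,1,0,0,0,-1] (.I [0,0,0,0,0,2,1] (.C [(0,0),(3,
  0),(1,0),(5,0),(12,2),(11,0)]) (.C [(0,0),(1,0),(1,0)])) (.C [(0,0),(12,0),(2,0)]))) (.I [1,-1,1,
  1,0,0,0,1] (.R ⟨0,false,false,true,[1,0,-1],[2,-1,-1],[1],(⟨0,[(21,0)]⟩,⟨0,[(22,0)]⟩),(⟨0,[(21,0),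
  (3,0)]⟩,⟨0,[(10,0)]⟩),⟨0,[(10,0)]⟩,.k,.k,.k,.k,.k,.k,⟨true,0,⟨0,[(0,0)]⟩,⟨0,[(2,0),(15,0),(13,
  0)]⟩⟩,⟨false,0,⟨0,[(16,0),(2,0)]⟩,⟨1,[(24,0),(8,0)]⟩⟩,⟨true,0,⟨1,[(5,0),(1,0),(1,0)]⟩,⟨0,[(2,0),
  (15,0)]⟩⟩,⟨false,0,⟨0,[(16,0),(2,0),(12,0)]⟩,⟨2,[(0,0),(2,0),(24,0),(1,0),(3,0)]⟩⟩,⟨false,0,⟨0,
  []⟩,⟨0,[]⟩⟩,⟨false,0,⟨0,[]⟩,⟨0,[]⟩⟩,[.o ⟨false,0,⟨0,[(6,0),(25,0),(3,0)]⟩,⟨2,[(0,1),(1,2),(4,0),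
  (20,1),(1,0),(3,0)]⟩⟩,.o ⟨false,0,⟨0,[(6,0),(25,0)]⟩,⟨7,[(0,4),(4,0),(2,3),(8,1),(6,0),(3,2),(1,
  1),(0,0)]⟩⟩,.a ⟨true,0,⟨1,[(9,0),(6,0),(2,0)]⟩,⟨0,[(2,0)]⟩⟩ ⟨true,0,⟨0,[]⟩,⟨0,[(36,0)]⟩⟩ ⟨false,0,
  ⟨0,[(2,0),(3,0),(25,0)]⟩,⟨1,[(0,1),(23,0),(8,0)]⟩⟩,.o ⟨false,0,⟨0,[(20,0)]⟩,⟨0,[(8,0)]⟩⟩]⟩) (.I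
  [0,0,-2,-1,0,0,0,1] (.I [0,1,-1,-2,-1,0,0,1] (.S ⟨1,0,[0,0,-1,-2,0,0,0,1],[0,-1,1],[1,1,-1,-1,0,0,
  0,1],(⟨0,[(13,0)]⟩,⟨0,[(23,0),(4,0)]⟩),⟨1,[(0,0),(2,0),(0,0),(7,0),(0,0),(11,3),(10,0),(0,0)]⟩,.k,
  (.r 0 ⟨0,[(1,0),(32,0)]⟩ ⟨3,[(3,2),(1,1),(8,0),(0,0),(3,0),(1,1),(9,2),(4,0)]⟩),⟨false,0,⟨0,[]⟩,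
  ⟨1,[(14,0),(0,0),(20,0)]⟩⟩,⟨true,0,⟨0,[(34,0)]⟩,⟨0,[(33,0)]⟩⟩,⟨true,0,⟨0,[(33,0)]⟩,⟨0,[(34,0)]⟩⟩,
  ⟨false,1,⟨1,[(14,0),(0,0),(20,0)]⟩,⟨0,[]⟩⟩,[.o ⟨false,0,⟨3,[(0,1),(6,1),(18,0),(7,3),(1,0)]⟩,⟨1,
  [(3,1),(22,0),(9,0)]⟩⟩,.a ⟨true,0,⟨0,[(0,0),(20,0),(14,0)]⟩,⟨0,[(3,0)]⟩⟩ ⟨false,0,⟨0,[(1,0)]⟩,⟨3,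
  [(3,0),(1,1),(8,1),(0,1),(4,0),(0,1),(9,0)]⟩⟩ ⟨true,0,⟨0,[(0,0),(35,0)]⟩,⟨0,[(3,0),(0,0),(26,
  0)]⟩⟩,.e ⟨false,0,⟨7,[(0,1),(0,3),(9,0),(7,1),(11,0),(4,1)]⟩,⟨3,[(5,3),(5,0),(9,1),(9,0)]⟩⟩
  ⟨false,0,⟨0,[(0,0),(35,0)]⟩,⟨1,[(3,0),(1,1),(13,0),(11,0)]⟩⟩,.o ⟨false,0,⟨0,[(4,0),(26,0)]⟩,⟨3,
  [(6,1),(19,0),(8,2)]⟩⟩]⟩) (.Q [0,0,0,0,0,-2,0,0,0,0,1] (.p true [0,0,1] [] (⟨0,[(24,0)]⟩,⟨0,[(23,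
  0)]⟩) .k 0 (⟨0,[]⟩,⟨0,[]⟩) .k .k) (.S ⟨1,0,[0,1,-1,-2,0,0,0,1],[0,-1,1],[1,0,-1,-1,0,0,0,1],(⟨0,
  [(14,0)]⟩,⟨0,[(24,0),(4,0)]⟩),⟨0,[(0,0)]⟩,.k,(.r 0 ⟨0,[(2,0),(32,0)]⟩ ⟨3,[(1,3),(10,0),(9,1),(9,
  0),(6,3)]⟩),⟨true,0,⟨0,[]⟩,⟨0,[(39,0)]⟩⟩,⟨false,0,⟨0,[(35,0)]⟩,⟨19,[(1,9),(8,5),(1,1),(7,3),(6,0),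
  (8,1),(0,6)]⟩⟩,⟨false,1,⟨19,[(1,9),(8,5),(1,1),(7,3),(6,0),(8,1),(0,6)]⟩,⟨0,[(35,0)]⟩⟩,⟨true,0,⟨0,
  [(39,0)]⟩,⟨0,[]⟩⟩,[.e ⟨false,0,⟨0,[(2,0)]⟩,⟨1,[(1,0),(13,0),(0,0),(4,0),(0,0)]⟩⟩ ⟨false,0,⟨13,[(2,
  11),(9,0),(7,1),(9,5),(1,0),(2,15)]⟩,⟨0,[(1,0)]⟩⟩,.o ⟨false,0,⟨0,[(2,0),(2,0),(26,0),(2,0)]⟩,⟨7,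
  [(1,3),(2,3),(2,1),(19,2),(8,0)]⟩⟩,.a ⟨true,0,⟨0,[(22,0)]⟩,⟨0,[(19,0)]⟩⟩ ⟨true,0,⟨2,[(2,1),(5,0),
  (3,0),(22,0)]⟩,⟨2,[(3,0),(0,1),(0,1),(26,1)]⟩⟩ ⟨false,0,⟨2,[(2,1),(5,0),(3,0),(22,3)]⟩,⟨0,[(1,
  0)]⟩⟩,.o ⟨false,0,⟨0,[(5,0),(26,0)]⟩,⟨3,[(7,1),(19,0),(8,2)]⟩⟩]⟩) (.I [0,0,0,0,1,0,0,0,-1] (.I [0,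
  0,-1,0,0,0,-2] (.I [0,0,-1,0,0,1,-1] (.C [(0,0),(2,0),(4,0),(20,2),(11,0)]) (.C [(0,0),(7,0),(1,
  0),(5,0)])) (.C [(0,0),(8,0),(5,0),(0,0)])) (.C [(0,0),(15,0),(2,0)])))) (.I [0,0,-1,-2] (.Q [0,0,
  0,0,0,-2,0,0,0,0,1] (.p true [0,0,1] [] (⟨0,[(24,0)]⟩,⟨0,[(23,0)]⟩) .k 0 (⟨0,[]⟩,⟨0,[]⟩) .k .k)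
  (.S ⟨1,0,[0,0,-1,-2,0,0,0,1],[0,-1,1],[0,1,-1,-2,0,0,0,1],(⟨0,[(14,0)]⟩,⟨0,[(24,0),(4,0)]⟩),⟨0,
  [(0,0)]⟩,.k,(.r 0 ⟨0,[(1,0),(8,0)]⟩ ⟨3,[(2,3),(1,1),(10,0),(0,0),(3,1),(6,0),(9,1)]⟩),⟨false,0,⟨0,
  [(35,0)]⟩,⟨0,[(34,0),(2,0)]⟩⟩,⟨true,0,⟨0,[(35,0)]⟩,⟨0,[(34,0)]⟩⟩,⟨true,0,⟨0,[(39,0)]⟩,⟨0,[]⟩⟩,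
  ⟨false,1,⟨1,[(15,0),(0,0),(20,0)]⟩,⟨0,[]⟩⟩,[.o ⟨false,0,⟨1,[(1,1),(6,0),(1,0),(21,0)]⟩,⟨1,[(4,1),
  (22,0),(9,0)]⟩⟩,.e ⟨false,0,⟨0,[(1,0),(8,0)]⟩,⟨3,[(2,1),(1,1),(1,1),(13,1),(6,0),(9,0)]⟩⟩ ⟨false,
  1,⟨9,[(1,9),(8,5),(1,1),(7,3),(6,0),(8,1),(0,6)]⟩,⟨0,[(2,0),(30,0)]⟩⟩,.a ⟨true,0,⟨0,[(22,0)]⟩,⟨0,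
  [(19,0)]⟩⟩ ⟨false,0,⟨1,[(1,1),(6,0),(1,0),(1,0)]⟩,⟨0,[(2,0),(30,0),(3,0)]⟩⟩ ⟨true,0,⟨1,[(1,1),(6,
  0),(1,0),(1,0)]⟩,⟨0,[(2,0),(30,0)]⟩⟩,.o ⟨false,0,⟨0,[(5,0),(26,0)]⟩,⟨3,[(7,1),(19,0),(8,2)]⟩⟩]⟩)
  (.I [0,0,0,0,1,0,0,0,-1] (.I [0,0,-1,0,0,0,-2] (.I [0,0,0,0,0,1,-1,-1] (.C [(0,0),(2,0),(4,0),(4,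
  0),(15,2),(11,0)]) (.C [(0,0),(11,0),(3,0)])) (.C [(0,0),(8,0),(5,0),(0,0)])) (.C [(0,0),(15,0),
  (2,0)]))) (.R ⟨0,false,false,false,[1,0,-1],[0,1],[1,0,1,1],(⟨0,[(23,0)]⟩,⟨0,[(24,0)]⟩),(⟨0,[(28,
  0)]⟩,⟨0,[(27,0)]⟩),⟨0,[(12,0)]⟩,.k,.k,.k,.k,.k,.k,⟨true,0,⟨0,[]⟩,⟨3,[(11,0),(9,1),(9,0)]⟩⟩,⟨false,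
  1,⟨2,[(2,1),(1,2),(4,1),(20,0),(1,1),(3,1)]⟩,⟨0,[(11,0),(9,0)]⟩⟩,⟨true,0,⟨3,[(0,1),(6,2),(1,0),(1,
  2)]⟩,⟨0,[(2,0)]⟩⟩,⟨false,1,⟨23,[(0,11),(6,7),(1,13),(0,5),(8,1),(6,4),(9,12)]⟩,⟨0,[(8,0),(25,
  0)]⟩⟩,⟨false,0,⟨0,[]⟩,⟨0,[]⟩⟩,⟨false,0,⟨0,[]⟩,⟨0,[]⟩⟩,[.o ⟨false,1,⟨7,[(0,1),(2,1),(15,1),(6,4),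
  (8,0),(0,1)]⟩,⟨0,[(34,0)]⟩⟩,.o ⟨false,1,⟨2,[(0,0),(29,0),(1,0),(3,1)]⟩,⟨0,[(34,0),(3,0)]⟩⟩,.a
  ⟨true,0,⟨1,[(11,0),(6,0),(2,0)]⟩,⟨0,[(4,0)]⟩⟩ ⟨true,0,⟨7,[(0,3),(10,0),(9,1),(9,0)]⟩,⟨2,[(2,0),(6,
  0),(19,0),(4,1)]⟩⟩ ⟨false,1,⟨2,[(0,0),(3,2),(25,0),(1,0),(3,1)]⟩,⟨1,[(11,0),(6,0),(2,0),(12,1)]⟩⟩,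
  .o ⟨false,0,⟨0,[(22,0)]⟩,⟨0,[(10,0)]⟩⟩]⟩)))))) (.Q [0,0,0,-1,0,0,1,1,0,-1,1] (.p true [0,0,1] [1]
  (⟨0,[(19,0)]⟩,⟨0,[(18,0)]⟩) .k 1 (⟨0,[]⟩,⟨0,[]⟩) .k .k) (.Q [0,0,0,0,0,0,-1,0,0,0,-1] (.p false
  [0,0,1] [] (⟨0,[(20,0)]⟩,⟨0,[(19,0)]⟩) .k 0 (⟨0,[]⟩,⟨0,[]⟩) .k .k) (.S ⟨1,1,[],[1,1,-1],[0,1,1,0,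
  0,0,0,-1],(⟨0,[(20,0),(4,0)]⟩,⟨0,[(10,0)]⟩),⟨0,[(20,0)]⟩,.k,.k,⟨false,0,⟨0,[(31,0)]⟩,⟨0,[(30,0),
  (2,0)]⟩⟩,⟨true,0,⟨0,[(1,0)]⟩,⟨0,[(5,0),(24,0)]⟩⟩,⟨true,0,⟨0,[(35,0)]⟩,⟨0,[]⟩⟩,⟨false,1,⟨2,[(4,0),
  (1,0),(9,0),(6,0),(9,1)]⟩,⟨0,[(5,0)]⟩⟩,[.fo,.o ⟨false,1,⟨1,[(23,0),(9,0)]⟩,⟨0,[(35,0)]⟩⟩,.a ⟨true,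
  0,⟨0,[(15,0)]⟩,⟨0,[(18,0)]⟩⟩ ⟨true,0,⟨0,[(17,0),(0,0)]⟩,⟨0,[(6,0)]⟩⟩ ⟨false,1,⟨1,[(18,1),(4,0),(9,
  0)]⟩,⟨0,[(15,0)]⟩⟩,.o ⟨false,0,⟨0,[(0,0)]⟩,⟨3,[(7,1),(3,0),(0,0),(5,1),(4,0)]⟩⟩]⟩) (.R ⟨2,true,
  false,false,[0,1],[1,1,-1],[0,1,1],(⟨0,[]⟩,⟨0,[]⟩),(⟨0,[(20,0),(4,0)]⟩,⟨0,[(10,0)]⟩),⟨0,[]⟩,.k,.k,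
  .k,.k,.k,.k,⟨true,(-1),⟨0,[(2,0)]⟩,⟨0,[(0,0),(4,0),(22,0),(0,0),(3,0)]⟩⟩,⟨false,0,⟨0,[(15,0)]⟩,⟨3,
  [(7,1),(3,0),(0,0),(5,1),(4,0)]⟩⟩,⟨false,0,⟨0,[(31,0)]⟩,⟨0,[(30,0),(2,0)]⟩⟩,⟨true,0,⟨0,[(5,0)]⟩,
  ⟨3,[(2,0),(1,0),(11,1),(10,0),(1,0)]⟩⟩,⟨true,0,⟨0,[(35,0)]⟩,⟨0,[]⟩⟩,⟨false,1,⟨0,[(5,0),(24,0),(2,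
  0)]⟩,⟨0,[(1,0)]⟩⟩,[]⟩)) (.R ⟨0,false,false,false,[-1,1,1],[0,1],[0,1,1,0,0,0,0,1],(⟨0,[(8,0)]⟩,⟨0,
  [(19,0),(3,0)]⟩),(⟨0,[(24,0)]⟩,⟨0,[(23,0)]⟩),⟨0,[(19,0)]⟩,.k,.k,.k,.k,.k,.k,⟨true,(-1),⟨0,[(1,
  0)]⟩,⟨1,[(0,1),(16,1),(4,0),(9,0)]⟩⟩,⟨false,0,⟨0,[(14,0)]⟩,⟨3,[(6,1),(3,0),(0,0),(5,1),(4,0)]⟩⟩,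
  ⟨false,0,⟨0,[(30,0)]⟩,⟨0,[(29,0),(2,0)]⟩⟩,⟨true,0,⟨0,[(4,0)]⟩,⟨3,[(1,0),(1,0),(11,1),(10,0),(1,
  0)]⟩⟩,⟨false,0,⟨0,[]⟩,⟨0,[]⟩⟩,⟨false,0,⟨0,[]⟩,⟨0,[]⟩⟩,[.o ⟨false,1,⟨1,[(22,0),(6,1),(2,0)]⟩,⟨0,
  [(30,0)]⟩⟩,.o ⟨false,1,⟨1,[(0,1),(2,0),(1,0),(20,0),(5,0)]⟩,⟨0,[(30,0),(3,0)]⟩⟩,.a ⟨true,1,⟨0,[(6,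
  0)]⟩,⟨0,[(0,1),(0,1),(15,0),(14,0)]⟩⟩ ⟨true,(-1),⟨1,[(0,1),(0,1),(1,0),(1,0),(21,0)]⟩,⟨0,[(4,0),
  (1,0)]⟩⟩ ⟨false,0,⟨1,[(0,3),(0,1),(1,0),(1,0),(21,0),(4,1)]⟩,⟨0,[(6,0),(23,0)]⟩⟩,.o ⟨false,1,⟨1,
  [(0,0),(2,0),(2,0),(19,0),(3,0)]⟩,⟨1,[(7,0),(6,0),(2,0)]⟩⟩]⟩))) (.K ⟨0,[1,1,-1],0,0,(⟨0,[(17,0),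
  (4,0)]⟩,⟨0,[(7,0)]⟩),.k,.k,(.x (-1) ⟨5,[(7,5),(4,5),(6,5),(4,1),(4,2),(0,0),(1,1)]⟩ ⟨2,[(0,0),(14,
  0),(1,2),(4,5),(2,1)]⟩),(.r (-1) ⟨1,[(0,1),(1,3),(17,0),(6,1),(2,0)]⟩ ⟨1,[(1,0),(1,2),(1,0),(22,
  1)]⟩),.k,[⟨0,[(0,0)]⟩,⟨1,[(5,0),(6,0),(2,0)]⟩,⟨1,[(0,0),(2,1),(19,0),(1,0),(2,1)]⟩,⟨0,[(2,0),(24,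
  0)]⟩]⟩))))

theorem ok8 : chk K t8 r1 = true := by decide +kernel

noncomputable def t4 : Tre :=
  .Q [0,-1,0,0,1,0,1,1,0,-1,1] (.p true [0,0,1] [1] (⟨0,[(17,0)]⟩,⟨0,[(16,0)]⟩) .k 1 (⟨0,[]⟩,⟨0,
  []⟩) .k .k) t2 t3

theorem ok4 : chk K t4 l3 = true :=
  chk_Q (e' := [0,1,0,0,-1,0,-1,-1,0,1,-1]) (by decide +kernel) (by decide +kernel) ok2 ok3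

noncomputable def t6 : Tre :=
  .I [0,-1,0,0,1,0,0,1] t4 t5

theorem ok6 : chk K t6 r2 = true :=
  chk_I (e' := [1,1,0,0,-1,0,0,-1]) (by decide +kernel) (by decide +kernel) ok4 ok5

noncomputable def t7 : Tre :=
  .I [0,0,3,3,-1] t1 t6

theorem ok7 : chk K t7 l1 = true :=
  chk_I (e' := [1,0,-3,-3,1]) (by decide +kernel) (by decide +kernel) ok1 ok6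

noncomputable def t9 : Tre :=
  .I [0,0,1,0,0,0,0,-1] t7 t8

theorem ok9 : chk K t9 r0 = true :=
  chk_I (e' := [1,0,-1,0,0,0,0,1]) (by decide +kernel) (by decide +kernel) ok7 ok8

noncomputable def t10 : Tre :=
  .Q [0,0,1,0,-1,0,-1,0,0,1,-1] (.p false [0,0,1] [1] (⟨0,[(13,0)]⟩,⟨0,[(12,0)]⟩) .k 1 (⟨0,[]⟩,⟨0,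
  []⟩) .k .k) t0 t9

theorem ok10 : chk K t10 base = true :=
  chk_Q (e' := [0,0,-1,0,1,0,1,0,0,-1,1]) (by decide +kernel) (by decide +kernel) ok0 ok9

theorem closed {p a b c J l q : ℤ} {D dl : ℝ} {Cl : ℤ → ℤ → ℤ → ℤ → ℝ → Prop}
    (W : World p a b c J 1 l q D dl Cl) (g : G0 p a b c J D)
    {N X R : ℤ} {I : ℝ} (hk : KCl p l Cl N X R I) (kz : KF a b D (X + (1 : ℤ) * I) (X + (1 : ℤ) * I + R) I)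
    {Ne Xe : ℤ} {Ie : ℝ} (he : EFac p 1 D Cl 1 Ne Xe Ie)
    (hkf : ∀ kf ∈ (kfY 1 [0,0,0,0,0,0,1,0,0,0,1]), KOk p l Cl 1
      (xv [1, a, b, c, p, J, X, R, Xe] [D, I, Ie]) N kf)
    (h0 : 1 ≤ -(c : ℝ))
    (h1 : 1 ≤ (a : ℝ) - (b : ℝ) + (c : ℝ))
    (h2 : 0 < 2 * (b : ℝ) - D)
    (h3 : 0 < 1 + (p : ℝ) - 3 * D)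
    (h4 : 1 ≤ 2 * (a : ℝ) - (b : ℝ))
    (h5 : 1 ≤ 2 - (J : ℝ))
    (h6 : 0 < -(b : ℝ) - (X : ℝ) + D - I)
    (h7 : 0 < -(J : ℝ) + I)
    (h8 : 0 < (J : ℝ) - D + I)
    (h9 : 0 < -2 * (X : ℝ) + D - 2 * I) : False := by
  have g1 := g.a2
  have g2 := g.b2
  have g3 := g.pa
  have g4 := g.pb
  have g5 := g.J1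
  have g6 := g.JD
  have g7 := g.D2
  have g8 := g.ca
  have g9 := g.ca'
  have k1 := kz.I0
  have k2 := kz.ID
  have k3 := kz.z1
  have k4 := kz.z2
  have k5 := kz.s1
  have k6 := kz.s2
  have e1 := he.I0
  have e2 := he.ID
  have e3 := he.x0
  have e4 := he.xp
  push_cast at *
  refine (val_E W.toBase hk he (row := [1]) (by simp) (by simp) (kfY 1 [0,0,0,0,0,0,1,0,0,0,1])).sound W rfl (Nk := N)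
    (fun kf _ _ => ⟨_, rfl⟩) hkf ?_ ok10
  · simp only [base, List.forall_mem_cons, List.not_mem_nil, false_imp_iff, implies_true,
      and_true, hld, xv, evg_cons, evg_nil, List.map_cons, List.map_nil, List.cons_append,
      List.nil_append, if_true, if_false, Bool.false_eq_true]
    push_cast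
    refine ⟨?_, ?_, ?_, ?_, ?_, ?_, ?_, ?_, ?_, ?_, ?_, ?_, ?_, ?_, ?_, ?_, ?_, ?_, ?_, ?_, ?_, ?_, ?_, ?_, ?_, ?_, ?_, ?_⟩ <;> linarith

end Helper25.S1T.Ymp_1dLP1
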