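import Pool.Agent.Helper25.S1T.Ymp_1dP3_q

set_option autoImplicit false
set_option linter.all false

namespace Helper25.S1T.Ymp_1dP3

open Helper25.KG Helper25.KW Helper55.KE Helper11.CT

noncomputable def t17 : Tre :=
  (.S ⟨1,0,[0,1,1,0,0,0,0,-1],[1,1,-1],[0,0,1,0,0,0,0,-1],(⟨22,[(15,2),(0,2),(7,22),(1,4),(4,5),(0,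
  2)]⟩,⟨0,[(14,0)]⟩),⟨0,[(24,0)]⟩,.k,.k,⟨true,0,⟨0,[(36,0)]⟩,⟨0,[(35,0)]⟩⟩,⟨false,0,⟨0,[(36,0)]⟩,⟨3,
  [(11,1),(25,0),(0,0)]⟩⟩,⟨false,1,⟨1,[(15,0),(0,0),(21,0)]⟩,⟨0,[]⟩⟩,⟨true,0,⟨6,[(0,1),(4,0),(4,0),
  (19,2)]⟩,⟨0,[]⟩⟩,[.o ⟨false,0,⟨0,[(21,0)]⟩,⟨1,[(1,1),(5,1),(25,0),(4,0)]⟩⟩,.a ⟨true,0,⟨11,[(0,3),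
  (3,7),(7,1),(2,0),(0,0),(13,3),(1,0)]⟩,⟨0,[(1,0),(5,0)]⟩⟩ ⟨false,1,⟨1,[(0,1),(36,0),(0,0)]⟩,⟨0,
  [(1,0),(32,0),(1,0)]⟩⟩ ⟨true,0,⟨0,[(0,0)]⟩,⟨0,[(1,0)]⟩⟩,.a ⟨true,0,⟨0,[(19,0)]⟩,⟨0,[(22,0)]⟩⟩
  ⟨true,0,⟨0,[(0,0)]⟩,⟨0,[(1,0),(32,0),(1,0)]⟩⟩ ⟨false,0,⟨0,[(0,0)]⟩,⟨0,[(5,0),(3,0)]⟩⟩,.a ⟨true,0,
  ⟨6,[(4,2),(3,0),(1,0),(1,1),(17,0),(1,0)]⟩,⟨0,[(7,0)]⟩⟩ ⟨false,1,⟨1,[(0,1),(36,0),(0,0)]⟩,⟨0,[(1,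
  0)]⟩⟩ ⟨true,0,⟨0,[(7,0),(13,0)]⟩,⟨0,[(1,0)]⟩⟩]⟩)

theorem ok17 : chk K t17 r12 = true := by decide +kernel

noncomputable def t20 : Tre :=
  (.Q [0,-1,0,0,0,0,-2,-1,0,1,-2] (.p false [0,0,1] [1,0,-1] (⟨0,[(23,0)]⟩,⟨0,[(22,0)]⟩) .k 2 (⟨0,
  [(22,0)]⟩,⟨0,[(23,0)]⟩) .k (.r (-1) ⟨1,[(3,0),(2,0),(0,0),(0,0)]⟩ ⟨0,[(0,1),(4,1),(28,1)]⟩)) (.R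
  ⟨0,false,false,true,[1,0,-1],[0,0,1],[0,1],(⟨0,[(23,0)]⟩,⟨0,[(24,0)]⟩),(⟨0,[(24,0)]⟩,⟨0,[(23,
  0)]⟩),⟨0,[(12,0)]⟩,.k,.k,.k,.k,.k,.k,⟨true,0,⟨0,[(1,0),(4,0),(28,0)]⟩,⟨0,[(4,0),(30,0)]⟩⟩,⟨false,
  1,⟨0,[(2,0),(18,0)]⟩,⟨0,[(11,0)]⟩⟩,⟨true,0,⟨0,[(5,0)]⟩,⟨0,[(1,0),(4,0),(28,0)]⟩⟩,⟨false,1,⟨0,[(2,
  0),(1,1),(1,0),(28,1)]⟩,⟨0,[(1,0),(1,0),(31,0)]⟩⟩,⟨false,0,⟨0,[]⟩,⟨0,[]⟩⟩,⟨false,0,⟨0,[]⟩,⟨0,[]⟩⟩,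
  [.e ⟨false,0,⟨0,[(33,0),(1,0)]⟩,⟨1,[(14,0),(0,0),(21,0)]⟩⟩ ⟨false,1,⟨8,[(2,6),(4,0),(1,0),(9,5),
  (1,4),(7,0),(2,0)]⟩,⟨0,[(0,0)]⟩⟩,.o ⟨false,1,⟨1,[(19,1),(12,0),(4,0)]⟩,⟨0,[(1,0),(33,0)]⟩⟩,.a
  ⟨true,0,⟨6,[(3,2),(3,0),(1,0),(1,1),(17,0),(1,0)]⟩,⟨0,[(6,0)]⟩⟩ ⟨true,0,⟨0,[(39,0)]⟩,⟨0,[]⟩⟩
  ⟨false,1,⟨1,[(6,1),(12,1),(12,0),(4,0)]⟩,⟨0,[(0,0)]⟩⟩,.o ⟨false,0,⟨0,[(22,0)]⟩,⟨5,[(2,3),(11,0),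
  (0,0),(5,1),(10,0)]⟩⟩]⟩) (.R ⟨0,false,false,true,[1,0,-1],[0,0,1],[0,1],(⟨0,[(23,0)]⟩,⟨0,[(24,
  0)]⟩),(⟨0,[(24,0)]⟩,⟨0,[(23,0)]⟩),⟨0,[(12,0)]⟩,.k,.k,.k,.k,.k,.k,⟨true,0,⟨0,[(1,0),(4,0),(28,0)]⟩,
  ⟨0,[(4,0),(30,0)]⟩⟩,⟨false,1,⟨0,[(2,0),(18,0)]⟩,⟨0,[(11,0)]⟩⟩,⟨true,0,⟨0,[(5,0)]⟩,⟨0,[(1,0),(4,0),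
  (28,0)]⟩⟩,⟨false,1,⟨3,[(0,3),(3,0),(2,0),(0,0),(0,0),(27,1)]⟩,⟨0,[(1,0),(1,0),(31,0)]⟩⟩,⟨false,0,
  ⟨0,[]⟩,⟨0,[]⟩⟩,⟨false,0,⟨0,[]⟩,⟨0,[]⟩⟩,[.a ⟨true,0,⟨0,[(19,0)]⟩,⟨0,[(3,0)]⟩⟩ ⟨false,0,⟨0,[(33,0),
  (1,0)]⟩,⟨1,[(14,0),(0,0),(21,0)]⟩⟩ ⟨true,0,⟨0,[(0,0)]⟩,⟨0,[(3,0),(18,0)]⟩⟩,.o ⟨false,1,⟨2,[(0,0),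
  (6,0),(0,0),(12,0),(10,0)]⟩,⟨0,[(1,0),(33,0)]⟩⟩,.e ⟨true,0,⟨0,[(39,0)]⟩,⟨0,[]⟩⟩ ⟨true,0,⟨0,[(0,
  0)]⟩,⟨1,[(3,0),(7,0),(8,0)]⟩⟩,.o ⟨false,0,⟨0,[(22,0)]⟩,⟨5,[(2,3),(11,0),(0,0),(5,1),(10,0)]⟩⟩]⟩))

theorem ok20 : chk K t20 r10 = true := by decide +kernel

noncomputable def t22 : Tre :=
  (.I [0,0,0,-1,0,0,0,1] (.S ⟨1,0,[0,0,0,-1,0,0,0,1],[0,0,1],[0,1,0,-1,0,0,0,1],(⟨0,[(23,0)]⟩,⟨0,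
  [(22,0)]⟩),⟨0,[(12,0)]⟩,.k,.k,⟨false,0,⟨0,[(34,0)]⟩,⟨3,[(9,1),(25,0),(0,0)]⟩⟩,⟨true,0,⟨0,[(34,
  0)]⟩,⟨0,[(33,0)]⟩⟩,⟨true,0,⟨0,[(38,0)]⟩,⟨0,[]⟩⟩,⟨false,1,⟨1,[(13,0),(0,0),(21,0)]⟩,⟨0,[]⟩⟩,[.a
  ⟨true,0,⟨0,[(0,0),(4,0)]⟩,⟨0,[(2,0),(30,0)]⟩⟩ ⟨false,0,⟨0,[(0,0),(31,0),(1,0)]⟩,⟨6,[(2,5),(2,6),
  (3,2),(9,0),(11,2),(0,0),(2,0)]⟩⟩ ⟨true,0,⟨0,[(0,0)]⟩,⟨0,[(1,0),(0,0),(2,1),(25,0),(0,0)]⟩⟩,.o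
  ⟨false,1,⟨1,[(0,1),(4,1),(25,0),(4,0)]⟩,⟨1,[(1,0),(0,0),(2,0),(13,0),(11,0),(0,1)]⟩⟩,.a ⟨true,0,
  ⟨0,[(5,0)]⟩,⟨6,[(2,2),(3,0),(1,0),(1,1),(17,0),(1,0)]⟩⟩ ⟨false,0,⟨0,[(0,0)]⟩,⟨6,[(2,5),(2,6),(3,
  2),(9,0),(11,2),(0,0),(2,0)]⟩⟩ ⟨true,0,⟨0,[(0,0)]⟩,⟨1,[(1,0),(0,0),(2,2),(13,0),(11,0),(0,1)]⟩⟩,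
  .a ⟨true,0,⟨0,[(20,0)]⟩,⟨0,[(17,0)]⟩⟩ ⟨true,0,⟨0,[(0,0),(31,0),(1,0)]⟩,⟨0,[(1,0),(0,0),(2,1),(25,
  0),(0,0)]⟩⟩ ⟨false,1,⟨4,[(0,2),(5,0),(0,2),(28,0)]⟩,⟨0,[(1,0),(0,0),(2,1),(25,0),(0,0)]⟩⟩]⟩) (.R
  ⟨0,false,false,true,[1,0,-1],[0,1],[0,1],(⟨0,[(22,0)]⟩,⟨0,[(23,0)]⟩),(⟨0,[(27,0)]⟩,⟨0,[(26,0)]⟩),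
  ⟨0,[(11,0)]⟩,.k,.k,.k,.k,.k,.k,⟨false,1,⟨8,[(7,7),(0,0),(4,0),(0,0),(4,0),(0,0),(7,2)]⟩,⟨10,[(0,
  3),(0,1),(1,3),(5,0),(10,1),(10,0),(1,0)]⟩⟩,⟨true,1,⟨1,[(5,1),(25,0),(3,0)]⟩,⟨0,[(1,0)]⟩⟩,⟨true,0,
  ⟨0,[(4,0)]⟩,⟨0,[(0,0),(33,0)]⟩⟩,⟨false,1,⟨1,[(3,0),(1,0),(12,0),(12,0),(0,0),(3,0)]⟩,⟨0,[(2,0),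
  (31,0)]⟩⟩,⟨false,0,⟨0,[]⟩,⟨0,[]⟩⟩,⟨false,0,⟨0,[]⟩,⟨0,[]⟩⟩,[.e ⟨false,0,⟨0,[(32,0),(1,0)]⟩,⟨1,[(13,
  0),(0,0),(21,0)]⟩⟩ ⟨false,1,⟨13,[(5,13),(3,3),(18,5),(2,6),(0,5),(2,2)]⟩,⟨0,[(1,0),(5,0)]⟩⟩,.o
  ⟨false,1,⟨13,[(9,5),(18,1),(2,6),(0,1),(2,0)]⟩,⟨0,[(34,0)]⟩⟩,.a ⟨true,0,⟨6,[(2,2),(3,0),(1,0),(1,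
  1),(17,0),(1,0)]⟩,⟨0,[(5,0)]⟩⟩ ⟨true,0,⟨0,[(38,0)]⟩,⟨0,[]⟩⟩ ⟨false,1,⟨13,[(5,13),(3,5),(18,1),(2,
  6),(0,1),(2,0)]⟩,⟨0,[(1,0),(5,0)]⟩⟩,.o ⟨false,0,⟨0,[(21,0)]⟩,⟨1,[(5,1),(25,0),(3,0)]⟩⟩]⟩))

theorem ok22 : chk K t22 r9 = true := by decide +kernel

noncomputable def t26 : Tre :=
  (.I [0,-1,-1,-1,1,0,0,1] (.S ⟨1,0,[0,0,0,-1,0,0,0,1],[0,0,1],[1],(⟨0,[(20,0)]⟩,⟨0,[(19,0)]⟩),⟨0,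
  [(9,0)]⟩,.k,.k,⟨false,0,⟨0,[(1,0)]⟩,⟨11,[(0,2),(2,3),(1,0),(4,4),(0,4),(13,0)]⟩⟩,⟨true,0,⟨0,[(31,
  0)]⟩,⟨0,[(30,0)]⟩⟩,⟨true,0,⟨0,[(1,0),(28,0)]⟩,⟨0,[(5,0)]⟩⟩,⟨false,1,⟨1,[(10,0),(0,0),(21,0)]⟩,⟨0,
  []⟩⟩,[.o ⟨false,1,⟨1,[(0,0),(14,0),(1,0),(10,0),(2,0)]⟩,⟨0,[(1,0),(16,0),(10,0)]⟩⟩,.e ⟨false,1,⟨1,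
  [(32,0),(0,0)]⟩,⟨0,[(35,0)]⟩⟩ ⟨false,1,⟨0,[(0,0)]⟩,⟨3,[(1,2),(14,0),(0,0),(7,0),(4,3)]⟩⟩,.a ⟨true,
  0,⟨0,[(2,0)]⟩,⟨5,[(7,2),(2,0),(0,0),(9,0),(1,0),(3,0)]⟩⟩ ⟨true,0,⟨0,[]⟩,⟨0,[(35,0)]⟩⟩ ⟨false,1,⟨0,
  [(5,0),(27,0)]⟩,⟨0,[(1,0),(28,0)]⟩⟩,.e ⟨false,1,⟨1,[(32,0),(0,0)]⟩,⟨1,[(17,0),(0,0)]⟩⟩ ⟨false,1,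
  ⟨0,[(0,0)]⟩,⟨1,[(1,1),(15,0),(0,0),(11,1)]⟩⟩]⟩) (.S ⟨1,0,[0,0,0,-1,0,0,0,1],[0,0,1],[0,1,0,-1,0,0,
  0,1],(⟨0,[(20,0)]⟩,⟨0,[(19,0)]⟩),⟨0,[(9,0)]⟩,.k,.k,⟨false,0,⟨0,[(31,0)]⟩,⟨3,[(6,1),(25,0),(0,
  0)]⟩⟩,⟨true,0,⟨0,[(31,0)]⟩,⟨0,[(30,0)]⟩⟩,⟨true,0,⟨0,[(35,0)]⟩,⟨0,[]⟩⟩,⟨false,1,⟨1,[(10,0),(0,0),
  (21,0)]⟩,⟨0,[]⟩⟩,[.o ⟨false,1,⟨1,[(15,1),(12,0),(2,1),(1,0)]⟩,⟨3,[(0,1),(0,1),(5,1),(20,0),(0,1),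
  (3,0)]⟩⟩,.a ⟨true,1,⟨0,[(15,0),(15,0),(1,0)]⟩,⟨0,[(0,0),(13,0)]⟩⟩ ⟨false,1,⟨4,[(3,0),(0,2),(0,2),
  (4,0),(0,0)]⟩,⟨4,[(0,2),(0,1),(4,0),(25,1)]⟩⟩ ⟨true,1,⟨0,[(5,0),(27,0)]⟩,⟨0,[(0,0)]⟩⟩,.a ⟨true,0,
  ⟨0,[(2,0)]⟩,⟨5,[(7,2),(2,0),(0,0),(9,0),(1,0),(3,0)]⟩⟩ ⟨true,0,⟨0,[(5,0)]⟩,⟨4,[(0,2),(0,1),(4,0),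
  (25,1)]⟩⟩ ⟨false,1,⟨0,[(5,0),(27,0)]⟩,⟨4,[(0,2),(0,1),(4,0),(25,1)]⟩⟩,.a ⟨true,0,⟨0,[(17,0)]⟩,⟨0,
  [(14,0)]⟩⟩ ⟨false,1,⟨4,[(3,0),(0,2),(0,2),(4,0),(0,0)]⟩,⟨0,[(0,0),(32,0)]⟩⟩ ⟨true,1,⟨4,[(3,0),(0,
  2),(0,2),(4,0),(0,0)]⟩,⟨0,[(0,0)]⟩⟩]⟩))

theorem ok26 : chk K t26 r5 = true := by decide +kernel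

noncomputable def t29 : Tre :=
  (.I [0,1,-1,-1,-1,0,0,-1] (.R ⟨2,true,false,false,[0,1],[1,0,-1],[1,0,0,0,0,0,0,-1],(⟨0,[]⟩,⟨0,
  []⟩),(⟨0,[(17,0)]⟩,⟨0,[(18,0)]⟩),⟨0,[]⟩,.k,.k,.k,.k,.k,.k,⟨true,0,⟨0,[]⟩,⟨1,[(15,0),(0,0)]⟩⟩,
  ⟨false,0,⟨5,[(5,2),(2,0),(0,0),(9,0),(1,0),(3,0)]⟩,⟨7,[(1,3),(2,1),(8,7),(12,3),(3,2),(0,2)]⟩⟩,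
  ⟨false,0,⟨0,[(0,0),(30,0)]⟩,⟨0,[(3,0),(0,0)]⟩⟩,⟨true,(-1),⟨1,[(0,1),(15,1),(8,0),(5,0)]⟩,⟨13,[(4,
  5),(8,13),(9,1),(2,6),(0,1),(2,0)]⟩⟩,⟨true,0,⟨13,[(1,6),(2,2),(18,0),(3,0),(2,3)]⟩,⟨0,[(13,0),(2,
  0)]⟩⟩,⟨false,0,⟨9,[(1,3),(2,1),(0,3),(8,1),(10,2),(5,4),(0,1)]⟩,⟨1,[(13,1),(12,0),(4,0)]⟩⟩,[]⟩)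
  (.I [1,1,1,1,-1,0,0,-1] (.S ⟨1,0,[0,0,1,0,0,0,0,-1],[1,1,-1],[1,1,1,1,0,0,0,-1],(⟨22,[(9,2),(0,2),
  (7,22),(1,4),(4,5),(0,2)]⟩,⟨0,[(8,0)]⟩),⟨0,[(18,0)]⟩,.k,.k,⟨false,0,⟨0,[]⟩,⟨1,[(9,0),(0,0),(21,
  0)]⟩⟩,⟨true,0,⟨0,[(30,0)]⟩,⟨0,[(29,0)]⟩⟩,⟨true,0,⟨0,[(29,0)]⟩,⟨0,[(30,0)]⟩⟩,⟨false,1,⟨1,[(9,0),(0,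
  0),(21,0)]⟩,⟨0,[]⟩⟩,[.o ⟨false,0,⟨21,[(2,7),(2,3),(0,5),(8,5),(1,3),(9,2),(4,0)]⟩,⟨1,[(14,1),(12,
  0),(4,0)]⟩⟩,.e ⟨false,0,⟨6,[(0,0),(1,2),(2,3),(18,0),(3,0)]⟩,⟨7,[(1,1),(1,3),(0,5),(4,0),(0,0),
  (20,0)]⟩⟩ ⟨false,0,⟨2,[(0,0),(1,0),(29,1)]⟩,⟨1,[(1,0),(2,0),(19,0),(6,0)]⟩⟩,.a ⟨true,0,⟨0,[(13,
  0)]⟩,⟨0,[(16,0)]⟩⟩ ⟨true,(-1),⟨0,[(0,0)]⟩,⟨7,[(1,1),(1,3),(0,5),(4,0),(0,0),(20,0)]⟩⟩ ⟨false,0,⟨5,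
  [(0,1),(1,1),(13,2),(0,2),(14,3)]⟩,⟨1,[(1,0),(1,0),(0,0),(23,0)]⟩⟩,.e ⟨false,0,⟨6,[(0,0),(1,2),(2,
  3),(18,0),(3,0)]⟩,⟨0,[(4,0),(27,0)]⟩⟩ ⟨false,0,⟨2,[(0,0),(1,0),(29,1)]⟩,⟨3,[(1,1),(2,1),(4,0),(0,
  0),(20,0)]⟩⟩]⟩) (.S ⟨1,0,[0,0,0,-1,0,0,0,1],[0,0,1],[1],(⟨0,[(19,0)]⟩,⟨0,[(18,0)]⟩),⟨0,[(8,0)]⟩,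
  .k,.k,⟨false,0,⟨0,[(1,0),(0,0)]⟩,⟨3,[(0,0),(0,1),(2,0),(4,0),(0,0),(13,0)]⟩⟩,⟨true,0,⟨0,[(30,0)]⟩,
  ⟨0,[(29,0)]⟩⟩,⟨true,0,⟨1,[(2,0),(2,0),(23,0)]⟩,⟨0,[(4,0)]⟩⟩,⟨false,1,⟨1,[(9,0),(0,0),(21,0)]⟩,⟨0,
  []⟩⟩,[.o ⟨false,1,⟨1,[(0,0),(13,0),(1,0),(10,0),(2,0)]⟩,⟨0,[(1,0),(0,0),(14,0),(10,0)]⟩⟩,.e
  ⟨false,1,⟨1,[(31,0),(0,0)]⟩,⟨0,[(34,0)]⟩⟩ ⟨false,1,⟨0,[(0,0)]⟩,⟨7,[(2,2),(2,2),(9,1),(0,1),(7,1),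
  (4,4)]⟩⟩,.a ⟨true,0,⟨0,[(1,0),(0,0),(11,0)]⟩,⟨5,[(6,2),(2,0),(0,0),(9,0),(1,0),(3,0)]⟩⟩ ⟨true,0,
  ⟨0,[]⟩,⟨0,[(34,0)]⟩⟩ ⟨false,1,⟨0,[(4,0),(27,0)]⟩,⟨1,[(2,0),(2,0),(23,0)]⟩⟩,.e ⟨false,1,⟨1,[(31,0),
  (0,0)]⟩,⟨1,[(16,0),(0,0)]⟩⟩ ⟨false,1,⟨0,[(0,0)]⟩,⟨1,[(2,0),(2,0),(10,0),(0,0),(11,0)]⟩⟩]⟩)))

theorem ok29 : chk K t29 r3 = true := by decide +kernel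

noncomputable def t32 : Tre :=
  (.R ⟨0,false,false,true,[1,0,-1],[1,-1],[0,1],(⟨0,[(14,0)]⟩,⟨0,[(15,0)]⟩),(⟨0,[(18,0)]⟩,⟨0,[(19,
  0)]⟩),⟨0,[(3,0)]⟩,.k,.k,.k,.k,.k,.k,⟨true,0,⟨0,[(0,0),(9,0),(2,0)]⟩,⟨0,[(26,0)]⟩⟩,⟨false,0,⟨0,[(0,
  0),(9,0),(15,0)]⟩,⟨3,[(2,1),(2,0),(0,0),(16,0),(3,1)]⟩⟩,⟨false,1,⟨3,[(2,1),(2,0),(0,0),(3,3),(12,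
  0),(4,1)]⟩,⟨0,[(0,0),(25,0)]⟩⟩,⟨true,0,⟨0,[(10,0),(15,0)]⟩,⟨0,[(0,0),(12,0),(10,0),(1,0)]⟩⟩,
  ⟨false,0,⟨0,[]⟩,⟨0,[]⟩⟩,⟨false,0,⟨0,[]⟩,⟨0,[]⟩⟩,[.e ⟨false,0,⟨0,[(24,0),(1,0)]⟩,⟨1,[(5,0),(0,0),
  (21,0)]⟩⟩ ⟨false,0,⟨0,[(0,0),(9,0),(13,0),(1,2)]⟩,⟨0,[(13,0),(10,0),(3,0)]⟩⟩,.o ⟨false,0,⟨0,[(26,
  0)]⟩,⟨13,[(1,5),(18,1),(2,6),(0,1),(2,0)]⟩⟩,.a ⟨true,0,⟨5,[(2,2),(2,0),(0,0),(9,0),(1,0),(3,0)]⟩,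
  ⟨0,[(0,0),(9,0),(15,0)]⟩⟩ ⟨true,0,⟨0,[(30,0)]⟩,⟨0,[]⟩⟩ ⟨false,0,⟨0,[(0,0),(9,0),(15,1)]⟩,⟨0,[(13,
  0),(10,0),(3,0)]⟩⟩,.o ⟨false,0,⟨0,[(13,0)]⟩,⟨1,[(0,1),(9,1),(12,0),(2,1),(0,0)]⟩⟩]⟩)

theorem ok32 : chk K t32 r1 = true := by decide +kernel


end Helper25.S1T.Ymp_1dP3
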