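import Pool.Agent.Helper25.S1T.Ymp_1dP3_p0
import Pool.Agent.Helper25.S1T.Ymp_1dP3_p1

set_option autoImplicit false
set_option linter.all false

namespace Helper25.S1T.Ymp_1dP3

open Helper25.KG Helper25.KW Helper55.KE Helper11.CT

noncomputable def t6 : Tre :=
  .I [0,0,1,1,0,0,0,-2] t4 t5

theorem ok6 : chk K t6 l7 = true :=
  chk_I (e' := [1,0,-1,-1,0,0,0,2]) (by decide +kernel) (by decide +kernel) ok4 ok5

noncomputable def t13 : Tre :=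
  .Q [0,1,0,-1,-1,0,-1,-1,0,2,-1] (.p false [-1,1,1] [1] (⟨0,[(16,0)]⟩,⟨0,[(27,0),(3,0)]⟩) .k 1 (⟨0,
  []⟩,⟨0,[]⟩) .k .k) t11 t12

theorem ok13 : chk K t13 r15 = true :=
  chk_Q (e' := [0,-1,0,1,1,0,1,1,0,-2,1]) (by decide +kernel) (by decide +kernel) ok11 ok12

noncomputable def t14 : Tre :=
  .Q [0,0,2,0,-1,0,-2,0,0,2,-2] (.p false [0,0,1] [2,-1,-1] (⟨0,[(27,0)]⟩,⟨0,[(26,0)]⟩) .k 2 (⟨0,
  [(26,0),(3,0)]⟩,⟨0,[(15,0)]⟩) .k (.r 0 ⟨2,[(1,1),(6,1)]⟩ ⟨3,[(0,1),(5,3),(10,0),(0,0),(4,3),(0,3),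
  (14,0)]⟩)) t10 t13

theorem ok14 : chk K t14 r14 = true :=
  chk_Q (e' := [0,0,-2,0,1,0,2,0,0,-2,2]) (by decide +kernel) (by decide +kernel) ok10 ok13

noncomputable def t15 : Tre :=
  .Q [0,0,1,0,-1,0,-2,0,0,2,-2] (.p false [0,0,1] [2,-1,-1] (⟨0,[(26,0)]⟩,⟨0,[(25,0)]⟩) .k 2 (⟨0,
  [(25,0),(3,0)]⟩,⟨0,[(14,0)]⟩) .k (.r 0 ⟨2,[(0,1),(6,1)]⟩ ⟨2,[(4,1),(0,1),(16,3),(0,3),(15,0)]⟩))
  t9 t14

theorem ok15 : chk K t15 r13 = true :=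
  chk_Q (e' := [0,0,-1,0,1,0,2,0,0,-2,2]) (by decide +kernel) (by decide +kernel) ok9 ok14

noncomputable def t16 : Tre :=
  .I [0,1,0,0,0,0,0,-2] t8 t15

theorem ok16 : chk K t16 l12 = true :=
  chk_I (e' := [1,-1,0,0,0,0,0,2]) (by decide +kernel) (by decide +kernel) ok8 ok15

noncomputable def t18 : Tre :=
  .I [1,0,-1,0,0,0,0,1] t16 t17

theorem ok18 : chk K t18 r11 = true :=
  chk_I (e' := [0,0,1,0,0,0,0,-1]) (by decide +kernel) (by decide +kernel) ok16 ok17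

noncomputable def t19 : Tre :=
  .I [1,0,0,0,0,0,0,-1] t7 t18

theorem ok19 : chk K t19 l10 = true :=
  chk_I (e' := [0,0,0,0,0,0,0,1]) (by decide +kernel) (by decide +kernel) ok7 ok18

noncomputable def t21 : Tre :=
  .Q [0,0,0,-1,0,0,1,1,0,0,1] (.p true [0,0,1] [] (⟨0,[(22,0)]⟩,⟨0,[(21,0)]⟩) .k 0 (⟨0,[]⟩,⟨0,[]⟩)
  .k .k) t19 t20

theorem ok21 : chk K t21 l9 = true :=
  chk_Q (e' := [0,0,0,1,0,0,-1,-1,0,0,-1]) (by decide +kernel) (by decide +kernel) ok19 ok20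

noncomputable def t23 : Tre :=
  .Q [0,0,-2,0,1,0,1,0,0,-1,1] (.p true [0,0,1] [1] (⟨0,[(21,0)]⟩,⟨0,[(20,0)]⟩) .k 1 (⟨0,[]⟩,⟨0,
  []⟩) .k .k) t21 t22

theorem ok23 : chk K t23 r7 = true :=
  chk_Q (e' := [0,0,2,0,-1,0,-1,0,0,1,-1]) (by decide +kernel) (by decide +kernel) ok21 ok22

noncomputable def t24 : Tre :=
  .Q [0,1,0,0,0,0,1,1,0,-1,1] (.p true [0,0,1] [1] (⟨0,[(20,0)]⟩,⟨0,[(19,0)]⟩) .k 1 (⟨0,[]⟩,⟨0,[]⟩)
  .k .k) t6 t23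

theorem ok24 : chk K t24 r6 = true :=
  chk_Q (e' := [0,-1,0,0,0,0,-1,-1,0,1,-1]) (by decide +kernel) (by decide +kernel) ok6 ok23

noncomputable def t25 : Tre :=
  .I [1,0,-1,-1,0,0,0,-1] t3 t24

theorem ok25 : chk K t25 l5 = true :=
  chk_I (e' := [0,0,1,1,0,0,0,1]) (by decide +kernel) (by decide +kernel) ok3 ok24

noncomputable def t27 : Tre :=
  .I [0,1,0,0,0,0,0,1] t25 t26

theorem ok27 : chk K t27 r4 = true :=
  chk_I (e' := [1,-1,0,0,0,0,0,-1]) (by decide +kernel) (by decide +kernel) ok25 ok26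

noncomputable def t28 : Tre :=
  .Q [0,0,0,0,0,0,-1,0,0,0,-1] (.p false [0,0,1] [] (⟨0,[(17,0)]⟩,⟨0,[(16,0)]⟩) .k 0 (⟨0,[]⟩,⟨0,
  []⟩) .k .k) t2 t27

theorem ok28 : chk K t28 l3 = true :=
  chk_Q (e' := [0,0,0,0,0,0,1,0,0,0,1]) (by decide +kernel) (by decide +kernel) ok2 ok27

noncomputable def t30 : Tre :=
  .I [0,0,1,1,1,0,0,2] t28 t29

theorem ok30 : chk K t30 r2 = true :=
  chk_I (e' := [1,0,-1,-1,-1,0,0,-2]) (by decide +kernel) (by decide +kernel) ok28 ok29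

noncomputable def t31 : Tre :=
  .I [1,1,2,1,-1] t1 t30

theorem ok31 : chk K t31 l1 = true :=
  chk_I (e' := [0,-1,-2,-1,1]) (by decide +kernel) (by decide +kernel) ok1 ok30

noncomputable def t33 : Tre :=
  .I [0,1,0,-1,0,0,0,1] t31 t32

theorem ok33 : chk K t33 r0 = true :=
  chk_I (e' := [1,-1,0,1,0,0,0,-1]) (by decide +kernel) (by decide +kernel) ok31 ok32

noncomputable def t34 : Tre :=
  .I [0,1,-1,-2,-1] t0 t33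

theorem ok34 : chk K t34 base = true :=
  chk_I (e' := [1,-1,1,2,1]) (by decide +kernel) (by decide +kernel) ok0 ok33

theorem closed {p a b c J l q : ℤ} {D dl : ℝ} {Cl : ℤ → ℤ → ℤ → ℤ → ℝ → Prop}
    (W : World p a b c J 1 l q D dl Cl) (g : G0 p a b c J D)
    {N X R : ℤ} {I : ℝ} (hk : KCl p l Cl N X R I) (kz : KF a b D (X + (1 : ℤ) * I) (X + (1 : ℤ) * I + R) I)
    {Ne Xe : ℤ} {Ie : ℝ} (he : EFac p 1 D Cl (a) Ne Xe Ie)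
    (hkf : ∀ kf ∈ (kfY 1 [0,0,0,0,0,0,1,0,0,0,1]), KOk p l Cl 1
      (xv [1, a, b, c, p, J, X, R, Xe] [D, I, Ie]) N kf)
    (h0 : 1 ≤ -(c : ℝ))
    (h1 : 1 ≤ (a : ℝ) - (b : ℝ) + (c : ℝ))
    (h2 : 0 < -1 + (p : ℝ) - 2 * D)
    (h3 : 0 < 3 - (p : ℝ) + 2 * D)
    (h4 : 0 < 1 + 3 * (J : ℝ) - D)
    (h5 : 1 ≤ 2 * (a : ℝ) - (b : ℝ))
    (h6 : 1 ≤ -2 + (J : ℝ))
    (h7 : 0 < -(b : ℝ) - (X : ℝ) + D - I)
    (h8 : 0 < -(J : ℝ) + I)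
    (h9 : 0 < (J : ℝ) - D + I)
    (h10 : 0 < -2 * (X : ℝ) + D - 2 * I) : False := by
  have g1 := g.a2
  have g2 := g.b2
  have g3 := g.pa
  have g4 := g.pb
  have g5 := g.J1
  have g6 := g.JD
  have g7 := g.D2
  have g8 := g.ca
  have g9 := g.ca'
  have k1 := kz.I0
  have k2 := kz.ID
  have k3 := kz.z1
  have k4 := kz.z2
  have k5 := kz.s1
  have k6 := kz.s2
  have e1 := he.I0
  have e2 := he.ID
  have e3 := he.x0
  have e4 := he.xp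
  push_cast at *
  refine (val_E W.toBase hk he (row := [0,1]) (by simp) (by simp) (kfY 1 [0,0,0,0,0,0,1,0,0,0,1])).sound W rfl (Nk := N)
    (fun kf _ _ => ⟨_, rfl⟩) hkf ?_ ok34
  · simp only [base, List.forall_mem_cons, List.not_mem_nil, false_imp_iff, implies_true,
      and_true, hld, xv, evg_cons, evg_nil, List.map_cons, List.map_nil, List.cons_append,
      List.nil_append, if_true, if_false, Bool.false_eq_true]
    push_cast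
    refine ⟨?_, ?_, ?_, ?_, ?_, ?_, ?_, ?_, ?_, ?_, ?_, ?_, ?_, ?_, ?_, ?_, ?_, ?_, ?_, ?_, ?_, ?_, ?_, ?_, ?_, ?_, ?_, ?_, ?_⟩ <;> linarith

end Helper25.S1T.Ymp_1dP3
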