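import Pool.Agent.Helper25.S1T.Ymp_1dP3_q

set_option autoImplicit false
set_option linter.all false

namespace Helper25.S1T.Ymp_1dP3

open Helper25.KG Helper25.KW Helper55.KE Helper11.CT

noncomputable def t0 : Tre :=
  (.R ⟨2,true,false,true,[0,1],[1,-1],[0,1,0,-1],(⟨0,[]⟩,⟨0,[]⟩),(⟨0,[(17,0)]⟩,⟨0,[(18,0)]⟩),⟨0,[]⟩,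
  .k,.k,.k,(.r (-1) ⟨0,[(11,0),(0,0),(11,1),(2,0)]⟩ ⟨1,[(0,1),(25,0),(0,0)]⟩),.k,.k,⟨true,0,⟨1,[(11,
  0),(0,0)]⟩,⟨0,[]⟩⟩,⟨false,0,⟨5,[(1,2),(2,0),(0,0),(5,5),(3,0),(1,0),(3,0)]⟩,⟨3,[(0,1),(21,1),(0,
  3),(2,0),(0,2)]⟩⟩,⟨true,(-1),⟨0,[(0,0)]⟩,⟨1,[(11,0),(0,0),(11,3),(2,1)]⟩⟩,⟨false,(-1),⟨1,[(0,1),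
  (10,0),(0,0),(8,0),(5,0)]⟩,⟨1,[(22,0),(1,3),(2,2)]⟩⟩,⟨false,0,⟨3,[(0,1),(25,0),(0,0)]⟩,⟨1,[(11,0),
  (0,0),(11,1),(2,1)]⟩⟩,⟨true,(-1),⟨3,[(0,1),(10,0),(0,0),(8,1),(7,1)]⟩,⟨1,[(22,0),(1,1),(2,0)]⟩⟩,
  []⟩)

theorem ok0 : chk K t0 l0 = true := by decide +kernel

noncomputable def t1 : Tre :=
  (.Q [0,0,0,0,0,2,0,0,0,-1] (.pp true [-1,1]) (.R ⟨0,false,false,true,[1,-1],[0,1],[],(⟨0,[(20,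
  0)]⟩,⟨0,[(21,0)]⟩),(⟨0,[(21,0)]⟩,⟨0,[(20,0)]⟩),⟨0,[(0,0)]⟩,.k,.k,(.r (-1) ⟨0,[(28,1),(0,0)]⟩ ⟨0,
  [(1,1),(24,1),(1,1),(1,1)]⟩),(.r (-1) ⟨0,[(28,1),(0,0)]⟩ ⟨0,[(1,1),(24,1),(1,1),(1,1)]⟩),.k,.k,
  ⟨true,1,⟨1,[(28,1),(0,0),(0,0)]⟩,⟨0,[(1,0)]⟩⟩,⟨false,2,⟨1,[(25,0),(3,2)]⟩,⟨1,[(1,1),(22,0),(3,1),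
  (1,0)]⟩⟩,⟨true,0,⟨0,[(1,0),(24,0),(1,0),(1,0)]⟩,⟨0,[(26,0),(1,1)]⟩⟩,⟨false,1,⟨5,[(1,1),(1,1),(21,
  2),(0,5),(3,2)]⟩,⟨1,[(24,0),(3,3),(1,0)]⟩⟩,⟨false,0,⟨0,[]⟩,⟨0,[]⟩⟩,⟨false,0,⟨0,[]⟩,⟨0,[]⟩⟩,[.e
  ⟨false,1,⟨1,[(7,0),(0,0),(20,0)]⟩,⟨0,[]⟩⟩ ⟨false,1,⟨1,[(25,0),(0,1),(2,0)]⟩,⟨1,[(14,0),(0,0),(8,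
  0),(3,1),(1,0)]⟩⟩,.o ⟨false,1,⟨13,[(3,5),(18,1),(2,6),(0,1),(2,0)]⟩,⟨0,[(28,0)]⟩⟩,.o ⟨false,0,⟨1,
  [(14,0),(0,0)]⟩,⟨1,[(25,0),(3,0)]⟩⟩,.a ⟨true,(-1),⟨1,[(1,1),(22,0),(3,1),(1,0)]⟩,⟨0,[(29,0)]⟩⟩
  ⟨false,1,⟨1,[(29,0),(0,0)]⟩,⟨1,[(14,0),(0,0)]⟩⟩ ⟨true,1,⟨1,[(25,0),(0,1),(2,0)]⟩,⟨1,[(1,1),(22,0),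
  (3,3),(1,0)]⟩⟩]⟩) (.I [1,1,2,2,-1] (.Q [0,1,0,-2,-1,0,0,0,0,1] (.pp false [-1,1]) (.Q [0,-1,0,1,1,
  0,0,0,0,-1] (.pp true [-1,1]) (.R ⟨2,true,false,true,[0,1],[1,-1],[1,1,1,1],(⟨0,[]⟩,⟨0,[]⟩),(⟨0,
  [(23,0)]⟩,⟨0,[(24,0)]⟩),⟨0,[]⟩,.k,.k,.k,(.r 0 ⟨3,[(2,1),(3,1),(10,0),(0,0)]⟩ ⟨1,[(1,1),(26,0),(3,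
  1),(0,0)]⟩),.k,.k,⟨false,0,⟨10,[(0,3),(1,4),(3,2),(20,1),(1,1)]⟩,⟨1,[(1,1),(26,0),(3,1),(0,0)]⟩⟩,
  ⟨true,(-1),⟨3,[(1,1),(2,3),(22,0),(5,2)]⟩,⟨1,[(28,0),(3,0)]⟩⟩,⟨false,0,⟨0,[]⟩,⟨1,[(10,0),(0,0),
  (21,0)]⟩⟩,⟨true,(-1),⟨0,[(1,0)]⟩,⟨0,[(0,0),(29,0)]⟩⟩,⟨true,0,⟨0,[(30,0)]⟩,⟨0,[(31,0)]⟩⟩,⟨false,0,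
  ⟨7,[(1,5),(4,1),(3,1),(0,1),(15,0),(4,0),(0,1)]⟩,⟨0,[(0,0)]⟩⟩,[]⟩) (.I [0,1,0,0,-1,0,0,1] (.Q [0,
  -1,0,-1,0,0,1,1,0,0,1] (.p true [0,0,1] [] (⟨0,[(21,0)]⟩,⟨0,[(20,0)]⟩) .k 0 (⟨0,[]⟩,⟨0,[]⟩) .k
  .k) (.R ⟨2,true,false,false,[0,1],[0,0,1],[0,0,1],(⟨0,[]⟩,⟨0,[]⟩),(⟨0,[(22,0)]⟩,⟨0,[(21,0)]⟩),⟨0,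
  []⟩,.k,.k,.k,.k,.k,.k,⟨false,1,⟨1,[(18,1),(0,1),(14,0),(0,0)]⟩,⟨1,[(1,1),(32,0),(0,0)]⟩⟩,⟨true,0,
  ⟨0,[(19,0)]⟩,⟨0,[(1,0),(16,0),(16,0)]⟩⟩,⟨true,0,⟨0,[(33,0)]⟩,⟨0,[(32,0)]⟩⟩,⟨false,0,⟨0,[(0,0)]⟩,
  ⟨3,[(8,1),(9,3),(15,0),(0,0)]⟩⟩,⟨false,1,⟨1,[(12,0),(0,0),(21,0)]⟩,⟨0,[]⟩⟩,⟨true,0,⟨10,[(0,6),(3,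
  0),(3,0),(8,3),(13,2)]⟩,⟨0,[(18,0)]⟩⟩,[]⟩) (.Q [0,0,1,0,-1,0,-1,0,0,1,-1] (.p false [0,0,1] [1]
  (⟨0,[(22,0)]⟩,⟨0,[(21,0)]⟩) .k 1 (⟨0,[]⟩,⟨0,[]⟩) .k .k) (.R ⟨0,false,false,false,[1,0,-1],[0,1],
  [0,1],(⟨0,[(22,0)]⟩,⟨0,[(23,0)]⟩),(⟨0,[(27,0)]⟩,⟨0,[(26,0)]⟩),⟨0,[(11,0)]⟩,.k,.k,.k,.k,.k,.k,
  ⟨true,0,⟨2,[(4,1),(26,0),(0,0),(2,0)]⟩,⟨0,[(7,0),(28,0)]⟩⟩,⟨false,2,⟨1,[(20,1),(10,0),(3,2)]⟩,⟨0,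
  [(0,0)]⟩⟩,⟨true,(-1),⟨0,[(2,0)]⟩,⟨1,[(19,1),(0,1),(14,0),(0,0)]⟩⟩,⟨false,1,⟨1,[(2,1),(17,1),(10,
  0),(0,1),(3,2)]⟩,⟨3,[(4,1),(14,3),(10,0),(5,2)]⟩⟩,⟨false,0,⟨0,[]⟩,⟨0,[]⟩⟩,⟨false,0,⟨0,[]⟩,⟨0,[]⟩⟩,
  [.o ⟨false,1,⟨13,[(9,5),(18,1),(2,6),(0,1),(2,0)]⟩,⟨0,[(34,0)]⟩⟩,.e ⟨false,1,⟨1,[(13,0),(0,0),(20,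
  0)]⟩,⟨0,[]⟩⟩ ⟨false,2,⟨1,[(20,1),(10,0),(0,1),(2,0),(0,1)]⟩,⟨7,[(0,2),(1,1),(1,3),(12,2),(1,1),
  (11,0)]⟩⟩,.o ⟨false,0,⟨1,[(0,0),(16,0),(13,0)]⟩,⟨1,[(20,1),(10,0),(3,0)]⟩⟩,.a ⟨true,(-1),⟨0,[(0,
  0)]⟩,⟨0,[(20,0),(14,0)]⟩⟩ ⟨true,0,⟨5,[(4,1),(26,0),(0,3),(2,0)]⟩,⟨1,[(20,0),(0,0)]⟩⟩ ⟨false,2,⟨1,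
  [(20,1),(10,0),(0,1),(2,0),(0,1)]⟩,⟨3,[(0,3),(3,1),(26,0),(4,0)]⟩⟩]⟩) (.R ⟨0,false,false,true,[1,
  0,-1],[0,1],[1,1,2,1],(⟨0,[(22,0)]⟩,⟨0,[(23,0)]⟩),(⟨0,[(27,0)]⟩,⟨0,[(26,0)]⟩),⟨0,[(11,0)]⟩,.k,.k,
  .k,.k,.k,.k,⟨false,0,⟨0,[]⟩,⟨1,[(13,0),(0,0),(20,0)]⟩⟩,⟨true,1,⟨0,[(0,0)]⟩,⟨3,[(2,3),(1,1),(2,3),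
  (11,3),(10,0),(5,6)]⟩⟩,⟨false,(-1),⟨0,[(2,0),(4,0),(28,0)]⟩,⟨3,[(0,3),(3,1),(14,3),(10,0),(4,1),
  (0,4)]⟩⟩,⟨true,0,⟨11,[(0,9),(1,9),(2,3),(3,1),(8,1),(12,0),(4,0)]⟩,⟨3,[(4,1),(14,3),(10,0),(5,
  2)]⟩⟩,⟨false,0,⟨0,[]⟩,⟨0,[]⟩⟩,⟨false,0,⟨0,[]⟩,⟨0,[]⟩⟩,[.a ⟨true,0,⟨0,[(33,0)]⟩,⟨3,[(4,1),(25,0),
  (5,2)]⟩⟩ ⟨true,(-1),⟨0,[(7,0)]⟩,⟨3,[(4,1),(26,0),(3,1),(0,2)]⟩⟩ ⟨false,1,⟨0,[(0,0),(32,0)]⟩,⟨3,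
  [(2,3),(1,1),(14,3),(10,0),(5,6)]⟩⟩,.o ⟨false,1,⟨13,[(9,5),(18,1),(2,6),(0,1),(2,0)]⟩,⟨0,[(34,
  0)]⟩⟩,.o ⟨false,0,⟨0,[(2,0),(16,0),(16,0)]⟩,⟨3,[(0,1),(12,0),(0,0),(5,1),(10,0)]⟩⟩,.o ⟨false,0,⟨0,
  [(21,0)]⟩,⟨0,[(0,0)]⟩⟩]⟩))) (.I [1,-1,0,0,0,0,0,-1] (.S ⟨1,0,[0,0,0,-1,0,0,0,1],[0,0,1],[0,1,0,-1,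
  0,0,0,1],(⟨0,[(22,0)]⟩,⟨0,[(21,0)]⟩),⟨0,[(11,0)]⟩,.k,.k,⟨false,0,⟨0,[(33,0)]⟩,⟨3,[(8,1),(25,0),(0,
  0)]⟩⟩,⟨true,0,⟨0,[(33,0)]⟩,⟨0,[(32,0)]⟩⟩,⟨true,0,⟨0,[(37,0)]⟩,⟨0,[]⟩⟩,⟨false,1,⟨11,[(1,3),(5,3),
  (0,1),(25,0),(0,4)]⟩,⟨0,[]⟩⟩,[.o ⟨false,1,⟨3,[(3,1),(13,3),(12,2),(4,2)]⟩,⟨46,[(0,39),(3,10),(3,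
  0),(0,19),(8,6),(11,9),(0,22)]⟩⟩,.a ⟨true,1,⟨3,[(3,1),(13,3),(12,0),(4,4)]⟩,⟨16,[(0,15),(1,10),(1,
  6),(4,7),(8,0),(11,0),(0,13)]⟩⟩ ⟨false,1,⟨1,[(7,1),(26,0),(0,0)]⟩,⟨0,[(0,0),(31,0)]⟩⟩ ⟨true,1,⟨0,
  [(7,0),(27,0)]⟩,⟨6,[(0,6),(1,3),(1,4),(22,1),(2,1),(0,0)]⟩⟩,.a ⟨true,0,⟨0,[(0,0),(16,0)]⟩,⟨211,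
  [(1,23),(5,23),(0,11),(0,105),(13,27),(1,27),(1,5),(1,38),(4,2)]⟩⟩ ⟨true,0,⟨0,[(7,0)]⟩,⟨0,[(0,0),
  (31,0)]⟩⟩ ⟨false,1,⟨0,[(7,0),(27,0)]⟩,⟨0,[(0,0),(31,0)]⟩⟩,.a ⟨true,0,⟨0,[(19,0)]⟩,⟨0,[(16,0)]⟩⟩
  ⟨false,1,⟨1,[(7,1),(26,0),(0,0)]⟩,⟨2,[(0,2),(5,0),(1,0)]⟩⟩ ⟨true,1,⟨1,[(7,1),(26,0),(0,0)]⟩,⟨6,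
  [(0,6),(1,3),(1,4),(22,1),(2,1),(0,0)]⟩⟩]⟩) (.Q [0,0,1,0,-1,0,-1,0,0,1,-1] (.p false [0,0,1] [1]
  (⟨0,[(22,0)]⟩,⟨0,[(21,0)]⟩) .k 1 (⟨0,[]⟩,⟨0,[]⟩) .k .k) (.I [1,0,0,-1,0,0,0,-1] (.R ⟨0,false,
  false,false,[-1,1,1],[0,1],[1,0,1],(⟨0,[(12,0)]⟩,⟨0,[(23,0),(3,0)]⟩),(⟨0,[(28,0)]⟩,⟨0,[(27,0)]⟩),
  ⟨0,[(23,0)]⟩,.k,.k,.k,.k,.k,.k,⟨true,0,⟨3,[(5,1),(26,0),(4,0)]⟩,⟨7,[(6,1),(3,1),(10,0),(0,0)]⟩⟩,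
  ⟨false,0,⟨0,[(18,0)]⟩,⟨1,[(21,1),(10,0),(3,0)]⟩⟩,⟨true,0,⟨0,[(0,0)]⟩,⟨1,[(1,1),(17,1),(12,0),(0,
  1),(3,0)]⟩⟩,⟨false,0,⟨0,[(0,0),(0,0),(31,0),(3,0)]⟩,⟨1,[(19,1),(12,0),(4,0)]⟩⟩,⟨false,0,⟨0,[]⟩,⟨0,
  []⟩⟩,⟨false,0,⟨0,[]⟩,⟨0,[]⟩⟩,[.o ⟨false,1,⟨13,[(10,5),(18,1),(2,6),(0,1),(2,0)]⟩,⟨0,[(35,0)]⟩⟩,.e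
  ⟨false,1,⟨11,[(3,3),(5,3),(0,1),(25,0),(0,4)]⟩,⟨5,[(5,1),(26,0),(0,3),(2,0)]⟩⟩ ⟨false,0,⟨0,[(1,0),
  (31,0),(3,0)]⟩,⟨1,[(0,1),(18,1),(12,0),(3,0)]⟩⟩,.o ⟨false,2,⟨0,[(21,0),(10,0),(3,0)]⟩,⟨0,[(1,
  0)]⟩⟩,.a ⟨true,1,⟨1,[(21,1),(10,0),(3,0)]⟩,⟨6,[(1,4),(2,2),(13,1),(12,1),(1,2),(3,2)]⟩⟩ ⟨true,0,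
  ⟨0,[]⟩,⟨0,[(39,0)]⟩⟩ ⟨false,0,⟨0,[(1,0),(31,0),(3,0)]⟩,⟨1,[(0,1),(18,1),(12,0),(4,0)]⟩⟩]⟩) (.Q [0,
  -1,0,-1,0,0,-1,-1,0,1,-1] (.p false [0,0,1] [1] (⟨0,[(24,0)]⟩,⟨0,[(23,0)]⟩) .k 1 (⟨0,[]⟩,⟨0,[]⟩)
  .k .k) (.Q [0,1,0,-1,-1,0,-1,-1,0,1,-1] (.p false [0,0,1] [1] (⟨0,[(25,0)]⟩,⟨0,[(24,0)]⟩) .k 1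
  (⟨0,[]⟩,⟨0,[]⟩) .k .k) (.R ⟨0,false,false,false,[1,0,-1],[0,1],[0,1],(⟨0,[(25,0)]⟩,⟨0,[(26,0)]⟩),
  (⟨0,[(30,0)]⟩,⟨0,[(29,0)]⟩),⟨0,[(14,0)]⟩,.k,.k,.k,.k,.k,.k,⟨true,0,⟨2,[(7,1),(26,0),(0,0),(2,0)]⟩,
  ⟨0,[(10,0),(28,0)]⟩⟩,⟨false,2,⟨1,[(23,1),(10,0),(3,2)]⟩,⟨0,[(3,0)]⟩⟩,⟨false,0,⟨3,[(2,3),(4,1),(26,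
  0),(4,0)]⟩,⟨0,[(5,0)]⟩⟩,⟨true,1,⟨1,[(2,0),(18,0),(1,0),(10,0),(0,0),(3,0)]⟩,⟨0,[(0,0)]⟩⟩,⟨false,0,
  ⟨0,[]⟩,⟨0,[]⟩⟩,⟨false,0,⟨0,[]⟩,⟨0,[]⟩⟩,[.o ⟨false,1,⟨13,[(12,5),(18,1),(2,6),(0,1),(2,0)]⟩,⟨0,
  [(37,0)]⟩⟩,.e ⟨false,1,⟨12,[(5,3),(5,3),(0,1),(18,0),(6,6)]⟩,⟨0,[]⟩⟩ ⟨false,2,⟨1,[(23,1),(10,0),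
  (0,1),(2,0),(0,1)]⟩,⟨3,[(0,1),(1,1),(0,0),(3,1),(12,0),(13,0)]⟩⟩,.o ⟨false,0,⟨1,[(3,0),(16,0),(13,
  0)]⟩,⟨1,[(23,1),(10,0),(3,0)]⟩⟩,.a ⟨true,(-1),⟨0,[(3,0)]⟩,⟨0,[(23,0),(14,0)]⟩⟩ ⟨true,0,⟨5,[(7,1),
  (26,0),(0,3),(2,0)]⟩,⟨1,[(23,0),(0,0)]⟩⟩ ⟨false,2,⟨1,[(23,1),(10,0),(0,1),(2,0),(0,1)]⟩,⟨3,[(3,3),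
  (3,1),(26,0),(4,0)]⟩⟩]⟩) (.R ⟨0,false,false,true,[-1,1,1],[0,1],[1,1,1],(⟨0,[(14,0)]⟩,⟨0,[(25,0),
  (3,0)]⟩),(⟨0,[(30,0)]⟩,⟨0,[(29,0)]⟩),⟨0,[(25,0)]⟩,.k,.k,.k,.k,.k,.k,⟨true,0,⟨3,[(7,1),(26,0),(4,
  0)]⟩,⟨7,[(8,1),(3,1),(10,0),(0,0)]⟩⟩,⟨false,0,⟨0,[(20,0)]⟩,⟨1,[(23,1),(10,0),(3,0)]⟩⟩,⟨true,0,⟨0,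
  [(1,0),(4,0),(16,0),(10,0),(0,0)]⟩,⟨0,[(2,0)]⟩⟩,⟨false,0,⟨12,[(1,8),(10,1),(9,3),(8,0),(1,1),(1,
  0),(0,3)]⟩,⟨3,[(0,3),(6,1),(26,0),(4,0)]⟩⟩,⟨false,0,⟨0,[]⟩,⟨0,[]⟩⟩,⟨false,0,⟨0,[]⟩,⟨0,[]⟩⟩,[.e
  ⟨false,0,⟨0,[(41,0)]⟩,⟨1,[(38,0),(0,0)]⟩⟩ ⟨false,(-1),⟨0,[(3,0),(31,0)]⟩,⟨1,[(0,1),(4,1),(1,1),
  (26,0),(3,0)]⟩⟩,.o ⟨false,1,⟨13,[(12,5),(18,1),(2,6),(0,1),(2,0)]⟩,⟨0,[(37,0)]⟩⟩,.o ⟨false,2,⟨0,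
  [(23,0),(10,0),(3,0)]⟩,⟨0,[(3,0)]⟩⟩,.a ⟨true,1,⟨1,[(23,1),(10,0),(3,0)]⟩,⟨6,[(3,4),(2,2),(13,1),
  (12,1),(1,2),(3,2)]⟩⟩ ⟨false,0,⟨0,[]⟩,⟨11,[(5,3),(5,3),(0,1),(25,0),(0,4)]⟩⟩ ⟨true,(-1),⟨0,[(3,0),
  (31,0)]⟩,⟨2,[(0,0),(4,0),(1,1),(15,1),(10,1),(3,0)]⟩⟩]⟩)) (.R ⟨0,false,false,false,[-1,1,1],[0,1],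
  [1,0,1],(⟨0,[(13,0)]⟩,⟨0,[(24,0),(3,0)]⟩),(⟨0,[(29,0)]⟩,⟨0,[(28,0)]⟩),⟨0,[(24,0)]⟩,.k,.k,.k,.k,.k,
  .k,⟨true,0,⟨3,[(6,1),(26,0),(4,0)]⟩,⟨7,[(7,1),(3,1),(10,0),(0,0)]⟩⟩,⟨false,0,⟨0,[(19,0)]⟩,⟨1,[(22,
  1),(10,0),(3,0)]⟩⟩,⟨false,1,⟨3,[(4,3),(1,1),(26,0),(4,0)]⟩,⟨0,[(1,0)]⟩⟩,⟨true,0,⟨15,[(2,6),(1,10),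
  (0,2),(13,3),(1,4),(10,0),(1,2)]⟩,⟨3,[(0,3),(5,1),(26,0),(4,0)]⟩⟩,⟨false,0,⟨0,[]⟩,⟨0,[]⟩⟩,⟨false,
  0,⟨0,[]⟩,⟨0,[]⟩⟩,[.o ⟨false,1,⟨13,[(11,5),(18,1),(2,6),(0,1),(2,0)]⟩,⟨0,[(36,0)]⟩⟩,.e ⟨false,1,
  ⟨11,[(4,3),(5,3),(0,1),(25,0),(0,4)]⟩,⟨5,[(6,1),(26,0),(0,3),(2,0)]⟩⟩ ⟨false,0,⟨0,[(2,0),(31,0),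
  (3,0)]⟩,⟨5,[(6,3),(15,5),(10,4),(0,1),(2,4)]⟩⟩,.o ⟨false,2,⟨0,[(22,0),(10,0),(3,0)]⟩,⟨0,[(2,0)]⟩⟩,
  .a ⟨true,1,⟨1,[(22,1),(10,0),(3,0)]⟩,⟨6,[(2,4),(2,2),(13,1),(12,1),(1,2),(3,2)]⟩⟩ ⟨true,0,⟨0,[]⟩,
  ⟨0,[(40,0)]⟩⟩ ⟨false,0,⟨0,[(2,0),(31,0),(3,0)]⟩,⟨3,[(6,1),(15,3),(10,2),(3,1),(0,0)]⟩⟩]⟩))) (.Q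
  [0,0,0,0,0,0,1,0,0,0,1] (.p true [0,0,1] [] (⟨0,[(23,0)]⟩,⟨0,[(22,0)]⟩) .k 0 (⟨0,[]⟩,⟨0,[]⟩) .k
  .k) (.I [0,1,1,0,-1,0,0,-1] (.S ⟨1,0,[0,0,1,0,0,0,0,-1],[1,1,-1],[0,1,1,0,0,0,0,-1],(⟨95,[(4,7),
  (5,7),(0,3),(12,95),(1,17),(3,1),(0,25),(0,12),(4,0)]⟩,⟨0,[(14,0)]⟩),⟨0,[(24,0)]⟩,.k,.k,⟨false,0,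
  ⟨0,[(36,0)]⟩,⟨3,[(11,1),(25,0),(0,0)]⟩⟩,⟨true,0,⟨0,[(36,0)]⟩,⟨0,[(35,0)]⟩⟩,⟨true,0,⟨0,[(40,0)]⟩,
  ⟨0,[]⟩⟩,⟨false,1,⟨11,[(4,3),(5,3),(0,1),(25,0),(0,4)]⟩,⟨0,[]⟩⟩,[.o ⟨false,0,⟨1,[(0,1),(18,1),(13,
  0),(4,0)]⟩,⟨1,[(20,1),(12,0),(4,0)]⟩⟩,.a ⟨true,0,⟨0,[(0,0),(18,0),(18,0)]⟩,⟨0,[(20,0)]⟩⟩ ⟨false,0,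
  ⟨1,[(0,1),(36,0),(0,0)]⟩,⟨1,[(3,1),(33,0),(0,0)]⟩⟩ ⟨true,0,⟨0,[(0,0),(37,0)]⟩,⟨0,[(3,0)]⟩⟩,.a
  ⟨true,0,⟨0,[(19,0)]⟩,⟨0,[(22,0)]⟩⟩ ⟨true,(-1),⟨0,[(0,0)]⟩,⟨1,[(3,1),(33,0),(0,0)]⟩⟩ ⟨false,0,⟨0,
  [(0,0),(37,0)]⟩,⟨1,[(3,1),(33,0),(0,0)]⟩⟩,.a ⟨true,0,⟨211,[(4,23),(5,23),(0,11),(0,105),(13,27),
  (1,27),(1,5),(1,38),(4,2)]⟩,⟨0,[(1,0)]⟩⟩ ⟨false,0,⟨1,[(0,1),(36,0),(0,0)]⟩,⟨0,[(3,0),(34,0)]⟩⟩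
  ⟨true,0,⟨1,[(0,1),(36,0),(0,0)]⟩,⟨0,[(3,0)]⟩⟩]⟩) (.Q [0,1,0,0,0,0,2,1,0,-1,2] (.p true [0,0,1] [1,
  0,-1] (⟨0,[(25,0)]⟩,⟨0,[(24,0)]⟩) .k 2 (⟨0,[(24,0)]⟩,⟨0,[(25,0)]⟩) .k (.x (-1) ⟨0,[(1,1),(22,1),
  (8,0)]⟩ ⟨0,[(12,0),(0,0),(0,0)]⟩)) (.Q [0,1,0,1,0,0,-1,-1,0,0,-1] (.p false [0,0,1] [] (⟨0,[(26,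
  0)]⟩,⟨0,[(25,0)]⟩) .k 0 (⟨0,[]⟩,⟨0,[]⟩) .k .k) (.Q [0,0,0,0,0,0,1,1,0,0,1] (.p true [0,0,1] []
  (⟨0,[(27,0)]⟩,⟨0,[(26,0)]⟩) .k 0 (⟨0,[]⟩,⟨0,[]⟩) .k .k) (.I [0,-1,-1,0,1,0,0,-1] (.R ⟨0,false,
  false,false,[1,0,-1],[1,-1],[1,1,1],(⟨0,[(28,0)]⟩,⟨0,[(29,0)]⟩),(⟨0,[(32,0)]⟩,⟨0,[(33,0)]⟩),⟨0,
  [(17,0)]⟩,.k,.k,.k,.k,.k,.k,⟨true,(-1),⟨0,[(13,0)]⟩,⟨3,[(0,1),(3,1),(5,1),(26,0),(4,0)]⟩⟩,⟨false,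
  0,⟨0,[(5,0)]⟩,⟨51,[(8,7),(5,7),(0,3),(0,25),(17,1),(2,12),(3,26)]⟩⟩,⟨false,0,⟨0,[(1,0),(25,0)]⟩,
  ⟨0,[(0,0)]⟩⟩,⟨true,0,⟨3,[(1,3),(8,1),(26,0),(4,0)]⟩,⟨0,[(2,0)]⟩⟩,⟨false,0,⟨0,[]⟩,⟨0,[]⟩⟩,⟨false,0,
  ⟨0,[]⟩,⟨0,[]⟩⟩,[.o ⟨false,0,⟨0,[(40,0)]⟩,⟨13,[(15,5),(18,1),(2,6),(0,1),(2,0)]⟩⟩,.e ⟨false,0,⟨0,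
  []⟩,⟨12,[(8,3),(5,3),(0,1),(18,0),(6,6)]⟩⟩ ⟨false,1,⟨3,[(0,2),(2,1),(0,0),(5,1),(31,1)]⟩,⟨4,[(2,
  0),(4,0),(3,0),(4,1),(20,0),(0,1)]⟩⟩,.a ⟨true,0,⟨211,[(8,23),(5,23),(0,11),(0,105),(13,27),(1,27),
  (1,5),(1,38),(4,2)]⟩,⟨0,[(5,0)]⟩⟩ ⟨false,0,⟨1,[(26,0),(0,0)]⟩,⟨1,[(0,0),(3,0)]⟩⟩ ⟨true,0,⟨3,[(5,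
  3),(4,1),(26,0),(4,0)]⟩,⟨4,[(2,0),(4,0),(3,0),(4,1),(20,0),(0,1)]⟩⟩,.o ⟨false,0,⟨0,[(27,0)]⟩,⟨0,
  [(6,0)]⟩⟩]⟩) (.I [0,0,1,0,0,0,0,-1] (.S ⟨1,0,[0,1,1,0,0,0,0,-1],[1,1,-1],[0,0,1,0,0,0,0,-1],(⟨95,
  [(9,7),(5,7),(0,3),(12,95),(1,17),(3,1),(0,25),(0,12),(4,0)]⟩,⟨0,[(19,0)]⟩),⟨0,[(29,0)]⟩,.k,.k,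
  ⟨true,0,⟨0,[(41,0)]⟩,⟨0,[(40,0)]⟩⟩,⟨false,0,⟨0,[(41,0)]⟩,⟨3,[(16,1),(25,0),(0,0)]⟩⟩,⟨false,1,⟨6,
  [(5,0),(3,2),(5,1),(0,0),(26,1)]⟩,⟨0,[]⟩⟩,⟨true,0,⟨14,[(0,2),(13,0),(0,2),(0,0),(18,5)]⟩,⟨0,[]⟩⟩,
  [.o ⟨false,0,⟨0,[(26,0)]⟩,⟨3,[(1,0),(2,1),(0,0),(32,0),(4,2)]⟩⟩,.a ⟨true,0,⟨0,[(0,0),(23,0)]⟩,⟨0,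
  [(2,0)]⟩⟩ ⟨false,1,⟨1,[(0,1),(9,1),(27,0),(0,1),(3,2)]⟩,⟨0,[(1,0),(40,0)]⟩⟩ ⟨true,0,⟨0,[(0,0)]⟩,
  ⟨1,[(1,0),(3,0)]⟩⟩,.a ⟨true,0,⟨0,[(24,0)]⟩,⟨0,[(27,0)]⟩⟩ ⟨true,0,⟨0,[(0,0)]⟩,⟨0,[(1,0),(40,0)]⟩⟩
  ⟨false,0,⟨0,[(0,0)]⟩,⟨0,[(5,0)]⟩⟩,.a ⟨true,0,⟨211,[(9,23),(5,23),(0,11),(0,105),(13,27),(1,27),(1,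
  5),(1,38),(4,2)]⟩,⟨0,[(6,0)]⟩⟩ ⟨false,1,⟨1,[(0,1),(9,1),(27,0),(0,1),(3,2)]⟩,⟨1,[(1,0),(3,0)]⟩⟩
  ⟨true,0,⟨1,[(0,0),(2,0),(3,0),(2,0)]⟩,⟨1,[(1,0),(3,0)]⟩⟩]⟩) (.Q [0,0,0,0,0,0,-2,-1,0,1,-2] (.p
  false [0,0,1] [1,0,-1] (⟨0,[(30,0)]⟩,⟨0,[(29,0)]⟩) .k 2 (⟨0,[(29,0)]⟩,⟨0,[(30,0)]⟩) .k (.r 0 ⟨0,
  [(0,1),(9,5),(1,1),(25,2),(0,1),(3,4)]⟩ ⟨0,[(6,0),(2,0),(16,0)]⟩)) (.R ⟨0,false,false,false,[1,0,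
  -1],[0,0,1],[0,1],(⟨0,[(30,0)]⟩,⟨0,[(31,0)]⟩),(⟨0,[(31,0)]⟩,⟨0,[(30,0)]⟩),⟨0,[(19,0)]⟩,.k,.k,.k,
  .k,.k,.k,⟨true,0,⟨0,[(7,0),(19,0)]⟩,⟨0,[(2,0),(41,0)]⟩⟩,⟨false,1,⟨0,[(7,0),(0,0)]⟩,⟨0,[(18,0)]⟩⟩,
  ⟨false,0,⟨1,[(1,1),(9,5),(1,1),(25,2),(0,1),(3,4)]⟩,⟨0,[(10,0)]⟩⟩,⟨true,0,⟨1,[(1,1),(0,1),(4,3),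
  (31,0),(4,0)]⟩,⟨1,[(0,0),(3,0),(5,0),(0,0),(15,0)]⟩⟩,⟨false,0,⟨0,[]⟩,⟨0,[]⟩⟩,⟨false,0,⟨0,[]⟩,⟨0,
  []⟩⟩,[.e ⟨false,0,⟨5,[(12,1),(26,0),(0,3),(2,0)]⟩,⟨6,[(6,0),(3,2),(5,1),(0,0),(26,1)]⟩⟩ ⟨false,1,
  ⟨1,[(5,0),(0,0),(0,0),(0,0)]⟩,⟨0,[(0,0)]⟩⟩,.o ⟨false,1,⟨3,[(2,0),(2,1),(0,0),(32,0),(4,2)]⟩,⟨0,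
  [(27,0)]⟩⟩,.a ⟨true,0,⟨79,[(0,5),(9,5),(5,11),(0,5),(0,33),(13,9),(1,9),(3,14),(4,2)]⟩,⟨0,[(7,
  0)]⟩⟩ ⟨true,0,⟨0,[(46,0)]⟩,⟨0,[]⟩⟩ ⟨false,1,⟨0,[(5,0),(38,0)]⟩,⟨0,[(0,0)]⟩⟩,.o ⟨false,0,⟨0,[(29,
  0)]⟩,⟨0,[(8,0)]⟩⟩]⟩) (.R ⟨0,false,false,false,[1,0,-1],[0,0,1],[0,1],(⟨0,[(30,0)]⟩,⟨0,[(31,0)]⟩),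
  (⟨0,[(31,0)]⟩,⟨0,[(30,0)]⟩),⟨0,[(19,0)]⟩,.k,.k,.k,.k,.k,.k,⟨true,0,⟨0,[(7,0),(19,0)]⟩,⟨0,[(2,0),
  (41,0)]⟩⟩,⟨false,1,⟨0,[(7,0),(0,0)]⟩,⟨0,[(18,0)]⟩⟩,⟨false,0,⟨1,[(0,1),(0,3),(2,3),(6,7),(1,1),(25,
  2),(4,6)]⟩,⟨0,[(10,0)]⟩⟩,⟨true,0,⟨1,[(0,1),(1,0),(3,0)]⟩,⟨3,[(4,1),(6,1),(15,5),(10,0),(5,2)]⟩⟩,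
  ⟨false,0,⟨0,[]⟩,⟨0,[]⟩⟩,⟨false,0,⟨0,[]⟩,⟨0,[]⟩⟩,[.a ⟨true,0,⟨0,[(3,0)]⟩,⟨3,[(4,1),(6,1),(15,1),
  (10,0),(5,2)]⟩⟩ ⟨false,0,⟨5,[(12,1),(26,0),(0,3),(2,0)]⟩,⟨6,[(6,0),(3,2),(5,1),(0,0),(26,1)]⟩⟩
  ⟨true,0,⟨0,[(0,0)]⟩,⟨11,[(12,1),(2,3),(2,3),(8,11),(1,3),(8,2),(5,8)]⟩⟩,.o ⟨false,1,⟨15,[(0,7),(1,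
  0),(3,2),(9,3),(0,1),(21,3),(4,7)]⟩,⟨0,[(27,0)]⟩⟩,.e ⟨true,0,⟨0,[(46,0)]⟩,⟨0,[]⟩⟩ ⟨true,0,⟨0,[(0,
  0)]⟩,⟨16,[(10,2),(1,0),(4,0),(0,9),(8,13),(8,0),(1,2),(7,3)]⟩⟩,.o ⟨false,0,⟨0,[(29,0)]⟩,⟨0,[(8,
  0)]⟩⟩]⟩)))) (.Q [0,-1,0,-1,0,0,-1,0,0,1,-1] (.p false [0,0,1] [1] (⟨0,[(28,0)]⟩,⟨0,[(27,0)]⟩) .k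
  1 (⟨0,[]⟩,⟨0,[]⟩) .k .k) (.R ⟨0,false,false,true,[1,0,-1],[0,1],[0,1],(⟨0,[(28,0)]⟩,⟨0,[(29,0)]⟩),
  (⟨0,[(33,0)]⟩,⟨0,[(32,0)]⟩),⟨0,[(17,0)]⟩,.k,.k,.k,.k,.k,.k,⟨false,1,⟨3,[(10,1),(26,0),(3,3),(0,
  0)]⟩,⟨2,[(13,0),(1,0)]⟩⟩,⟨true,1,⟨0,[(6,0)]⟩,⟨0,[(0,0),(12,0)]⟩⟩,⟨true,0,⟨0,[(7,0)]⟩,⟨0,[(1,0),(3,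
  0)]⟩⟩,⟨false,1,⟨35,[(3,17),(0,12),(2,4),(3,0),(3,14),(21,8),(0,3)]⟩,⟨3,[(1,3),(8,1),(25,0),(5,
  2)]⟩⟩,⟨false,0,⟨0,[]⟩,⟨0,[]⟩⟩,⟨false,0,⟨0,[]⟩,⟨0,[]⟩⟩,[.e ⟨false,0,⟨5,[(10,1),(26,0),(0,3),(2,
  0)]⟩,⟨6,[(4,0),(3,2),(5,1),(0,0),(26,1)]⟩⟩ ⟨false,1,⟨0,[(6,0),(32,0)]⟩,⟨0,[(0,0)]⟩⟩,.o ⟨false,1,
  ⟨13,[(15,5),(18,1),(2,6),(0,1),(2,0)]⟩,⟨0,[(40,0)]⟩⟩,.a ⟨true,0,⟨211,[(8,23),(5,23),(0,11),(0,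
  105),(13,27),(1,27),(1,5),(1,38),(4,2)]⟩,⟨0,[(5,0)]⟩⟩ ⟨true,0,⟨0,[(44,0)]⟩,⟨0,[]⟩⟩ ⟨false,1,⟨12,
  [(2,0),(0,2),(2,7),(1,1),(2,1),(3,3),(21,0)]⟩,⟨0,[(0,0)]⟩⟩,.o ⟨false,0,⟨0,[(27,0)]⟩,⟨0,[(6,
  0)]⟩⟩]⟩) (.Q [0,0,0,-1,0,0,1,1,0,0,1] (.p true [0,0,1] [] (⟨0,[(29,0)]⟩,⟨0,[(28,0)]⟩) .k 0 (⟨0,
  []⟩,⟨0,[]⟩) .k .k) (.R ⟨0,false,false,false,[1,0,-1],[1,-1],[1,1,1],(⟨0,[(29,0)]⟩,⟨0,[(30,0)]⟩),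
  (⟨0,[(33,0)]⟩,⟨0,[(34,0)]⟩),⟨0,[(18,0)]⟩,.k,.k,.k,.k,.k,.k,⟨true,(-1),⟨0,[(14,0)]⟩,⟨3,[(11,1),(26,
  0),(3,1),(0,2)]⟩⟩,⟨false,0,⟨0,[(6,0)]⟩,⟨51,[(9,7),(5,7),(0,3),(0,25),(17,1),(2,12),(3,26)]⟩⟩,
  ⟨false,0,⟨2,[(0,1),(4,0),(6,0),(15,1)]⟩,⟨1,[(2,1),(3,1),(35,0),(0,0)]⟩⟩,⟨true,0,⟨0,[(0,0)]⟩,⟨0,
  [(3,0)]⟩⟩,⟨false,0,⟨0,[]⟩,⟨0,[]⟩⟩,⟨false,0,⟨0,[]⟩,⟨0,[]⟩⟩,[.o ⟨false,0,⟨0,[(41,0)]⟩,⟨13,[(16,5),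
  (18,1),(2,6),(0,1),(2,0)]⟩⟩,.e ⟨false,0,⟨0,[]⟩,⟨12,[(9,3),(5,3),(0,1),(18,0),(6,6)]⟩⟩ ⟨false,1,⟨3,
  [(6,1),(0,1),(3,1),(30,0),(0,2)]⟩,⟨4,[(3,0),(4,0),(3,0),(4,1),(20,0),(0,1)]⟩⟩,.a ⟨true,0,⟨211,[(9,
  23),(5,23),(0,11),(0,105),(13,27),(1,27),(1,5),(1,38),(4,2)]⟩,⟨0,[(6,0)]⟩⟩ ⟨false,0,⟨1,[(27,0),(0,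
  0)]⟩,⟨1,[(42,0),(0,0)]⟩⟩ ⟨true,0,⟨3,[(6,3),(4,1),(26,0),(4,0)]⟩,⟨4,[(3,0),(4,0),(3,0),(4,1),(20,
  0),(0,1)]⟩⟩,.o ⟨false,0,⟨0,[(28,0)]⟩,⟨0,[(7,0)]⟩⟩]⟩) (.R ⟨0,false,false,true,[1,0,-1],[0,0,1],[0,
  1],(⟨0,[(29,0)]⟩,⟨0,[(30,0)]⟩),(⟨0,[(30,0)]⟩,⟨0,[(29,0)]⟩),⟨0,[(18,0)]⟩,.k,.k,.k,.k,.k,.k,⟨true,0,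
  ⟨0,[(2,0),(3,0)]⟩,⟨3,[(5,3),(5,1),(2,3),(23,0),(4,0)]⟩⟩,⟨false,1,⟨0,[(6,0),(0,0)]⟩,⟨0,[(17,0)]⟩⟩,
  ⟨true,0,⟨0,[(8,0)]⟩,⟨0,[(2,0),(3,0)]⟩⟩,⟨false,1,⟨5,[(4,5),(0,2),(8,0),(0,2),(0,0),(26,2)]⟩,⟨3,[(0,
  3),(1,3),(8,1),(25,0),(5,2)]⟩⟩,⟨false,0,⟨0,[]⟩,⟨0,[]⟩⟩,⟨false,0,⟨0,[]⟩,⟨0,[]⟩⟩,[.a ⟨true,0,⟨0,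
  [(25,0)]⟩,⟨3,[(0,3),(10,1),(25,0),(5,2)]⟩⟩ ⟨false,0,⟨5,[(11,1),(26,0),(0,3),(2,0)]⟩,⟨6,[(5,0),(3,
  2),(5,1),(0,0),(26,1)]⟩⟩ ⟨true,0,⟨0,[(4,0)]⟩,⟨11,[(2,11),(8,1),(2,3),(2,3),(10,3),(8,2),(5,8)]⟩⟩,
  .o ⟨false,1,⟨1,[(25,1),(12,0),(4,0)]⟩,⟨0,[(2,0)]⟩⟩,.e ⟨true,0,⟨0,[(45,0)]⟩,⟨0,[]⟩⟩ ⟨true,0,⟨0,[(4,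
  0)]⟩,⟨2,[(0,1),(8,0),(1,0),(5,1)]⟩⟩,.o ⟨false,0,⟨0,[(28,0)]⟩,⟨0,[(7,0)]⟩⟩]⟩)))) (.R ⟨0,false,
  false,false,[1,0,-1],[1,-1],[1,1,1],(⟨0,[(26,0)]⟩,⟨0,[(27,0)]⟩),(⟨0,[(30,0)]⟩,⟨0,[(31,0)]⟩),⟨0,
  [(15,0)]⟩,.k,.k,.k,.k,.k,.k,⟨true,(-1),⟨0,[(11,0)]⟩,⟨3,[(8,1),(26,0),(3,1),(0,2)]⟩⟩,⟨false,0,⟨0,
  [(3,0)]⟩,⟨51,[(6,7),(5,7),(0,3),(0,25),(17,1),(2,12),(3,26)]⟩⟩,⟨true,(-1),⟨0,[(0,0),(6,0),(1,0),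
  (11,0),(13,0)]⟩,⟨1,[(3,0),(2,0),(16,0),(15,0)]⟩⟩,⟨false,0,⟨0,[(0,0)]⟩,⟨3,[(13,1),(9,3),(15,0),(0,
  0)]⟩⟩,⟨false,0,⟨0,[]⟩,⟨0,[]⟩⟩,⟨false,0,⟨0,[]⟩,⟨0,[]⟩⟩,[.o ⟨false,0,⟨0,[(38,0)]⟩,⟨13,[(13,5),(18,
  1),(2,6),(0,1),(2,0)]⟩⟩,.e ⟨false,0,⟨0,[]⟩,⟨12,[(6,3),(5,3),(0,1),(18,0),(6,6)]⟩⟩ ⟨false,1,⟨4,[(0,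
  2),(2,0),(0,0),(1,2),(1,0),(30,1)]⟩,⟨7,[(9,1),(4,3),(17,0),(2,1),(0,2),(0,0)]⟩⟩,.a ⟨true,0,⟨211,
  [(6,23),(5,23),(0,11),(0,105),(13,27),(1,27),(1,5),(1,38),(4,2)]⟩,⟨0,[(3,0)]⟩⟩ ⟨false,0,⟨1,[(24,
  0),(0,0)]⟩,⟨1,[(39,0),(0,0)]⟩⟩ ⟨true,0,⟨4,[(0,0),(2,3),(2,0),(1,1),(26,0)]⟩,⟨7,[(9,1),(4,3),(17,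
  0),(2,1),(0,2),(0,0)]⟩⟩,.o ⟨false,0,⟨0,[(25,0)]⟩,⟨0,[(4,0)]⟩⟩]⟩)) (.Q [0,-1,0,1,0,0,-2,-2,0,1,-2]
  (.p false [0,0,1] [1,0,-1] (⟨0,[(26,0)]⟩,⟨0,[(25,0)]⟩) .k 2 (⟨0,[(25,0)]⟩,⟨0,[(26,0)]⟩) .k (.x
  (-1) ⟨0,[(2,1),(22,1),(8,0)]⟩ ⟨0,[(13,0),(0,0),(0,0)]⟩)) (.R ⟨0,false,false,true,[1,0,-1],[0,0,1],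
  [0,1],(⟨0,[(26,0)]⟩,⟨0,[(27,0)]⟩),(⟨0,[(27,0)]⟩,⟨0,[(26,0)]⟩),⟨0,[(15,0)]⟩,.k,.k,.k,.k,.k,.k,
  ⟨true,0,⟨1,[(0,0),(2,1),(3,0),(27,0)]⟩,⟨3,[(2,3),(5,1),(2,3),(23,0),(4,0)]⟩⟩,⟨false,1,⟨0,[(3,0),
  (0,0)]⟩,⟨0,[(14,0)]⟩⟩,⟨true,0,⟨0,[(5,0)]⟩,⟨1,[(0,0),(2,1),(3,0),(27,0)]⟩⟩,⟨false,1,⟨0,[(2,1),(0,
  1),(3,0),(3,0),(23,0)]⟩,⟨3,[(0,3),(7,1),(26,0),(4,0)]⟩⟩,⟨false,0,⟨0,[]⟩,⟨0,[]⟩⟩,⟨false,0,⟨0,[]⟩,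
  ⟨0,[]⟩⟩,[.e ⟨false,0,⟨5,[(8,1),(26,0),(0,3),(2,0)]⟩,⟨6,[(2,0),(3,2),(5,1),(0,0),(26,1)]⟩⟩ ⟨false,
  1,⟨0,[(4,0),(17,0)]⟩,⟨0,[(1,0)]⟩⟩,.o ⟨false,1,⟨1,[(22,1),(12,0),(4,0)]⟩,⟨1,[(0,0),(6,0),(27,0)]⟩⟩,
  .a ⟨true,0,⟨211,[(6,23),(5,23),(0,11),(0,105),(13,27),(1,27),(1,5),(1,38),(4,2)]⟩,⟨0,[(3,0)]⟩⟩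
  ⟨true,0,⟨0,[(42,0)]⟩,⟨0,[]⟩⟩ ⟨false,1,⟨1,[(3,1),(18,1),(12,0),(4,0)]⟩,⟨0,[(1,0)]⟩⟩,.o ⟨false,0,⟨0,
  [(25,0)]⟩,⟨0,[(4,0)]⟩⟩]⟩) (.R ⟨2,true,false,false,[0,1],[1,1,-1],[0,0,1],(⟨0,[]⟩,⟨0,[]⟩),(⟨95,[(6,
  7),(5,7),(0,3),(12,95),(1,17),(3,1),(0,25),(0,12),(4,0)]⟩,⟨0,[(16,0)]⟩),⟨0,[]⟩,.k,.k,.k,.k,.k,.k,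
  ⟨true,0,⟨0,[(0,0),(0,0)]⟩,⟨3,[(1,1),(1,4),(2,0),(2,1),(13,0),(11,0)]⟩⟩,⟨false,0,⟨0,[(21,0)]⟩,⟨2,
  [(4,0),(1,0),(15,0),(1,0),(10,0)]⟩⟩,⟨true,0,⟨0,[(38,0)]⟩,⟨0,[(37,0)]⟩⟩,⟨false,0,⟨0,[(1,0),(1,0)]⟩,
  ⟨28,[(0,11),(1,3),(1,4),(1,4),(5,5),(0,8),(21,5)]⟩⟩,⟨false,1,⟨6,[(2,0),(3,2),(5,1),(0,0),(26,1)]⟩,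
  ⟨0,[]⟩⟩,⟨true,0,⟨30,[(1,14),(4,14),(0,1),(1,5),(13,0),(10,6),(1,11),(0,8)]⟩,⟨1,[(0,0),(6,0),(27,
  0)]⟩⟩,[]⟩)))) (.I [0,0,0,0,0,0,0,-1] (.Q [0,0,0,0,-1,0,-2,-2,0,1,-2] (.p false [0,0,1] [1,0,-1]
  (⟨0,[(25,0)]⟩,⟨0,[(24,0)]⟩) .k 2 (⟨0,[(24,0)]⟩,⟨0,[(25,0)]⟩) .k (.r (-1) ⟨0,[(3,1),(34,0)]⟩ ⟨0,
  [(0,1)]⟩)) (.R ⟨0,false,false,false,[1,0,-1],[1,-1],[1,1],(⟨0,[(25,0)]⟩,⟨0,[(26,0)]⟩),(⟨0,[(29,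
  0)]⟩,⟨0,[(30,0)]⟩),⟨0,[(14,0)]⟩,.k,.k,.k,.k,.k,.k,⟨false,0,⟨0,[(36,0)]⟩,⟨3,[(7,1),(26,0),(3,1),(0,
  2)]⟩⟩,⟨true,0,⟨0,[(23,0)]⟩,⟨0,[(2,0)]⟩⟩,⟨true,0,⟨0,[(4,0)]⟩,⟨0,[(1,0)]⟩⟩,⟨false,1,⟨3,[(7,1),(13,
  3),(12,0),(4,4)]⟩,⟨19,[(0,9),(7,1),(3,3),(21,4),(0,7),(3,2)]⟩⟩,⟨false,0,⟨0,[]⟩,⟨0,[]⟩⟩,⟨false,0,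
  ⟨0,[]⟩,⟨0,[]⟩⟩,[.o ⟨false,0,⟨0,[(37,0)]⟩,⟨13,[(12,5),(18,1),(2,6),(0,1),(2,0)]⟩⟩,.a ⟨true,0,⟨3,
  [(7,1),(25,0),(5,2)]⟩,⟨0,[(36,0)]⟩⟩ ⟨true,0,⟨0,[]⟩,⟨1,[(23,0),(0,0)]⟩⟩ ⟨false,1,⟨3,[(3,3),(3,1),
  (25,0),(5,2)]⟩,⟨7,[(8,1),(4,3),(17,0),(2,1),(0,2),(0,0)]⟩⟩,.o ⟨false,0,⟨0,[(2,0)]⟩,⟨2,[(3,0),(1,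
  0),(15,0),(1,0),(10,0)]⟩⟩,.o ⟨false,0,⟨0,[(24,0)]⟩,⟨0,[(3,0)]⟩⟩]⟩) (.R ⟨0,false,false,false,[1,0,
  -1],[0,1],[0,1,1],(⟨0,[(25,0)]⟩,⟨0,[(26,0)]⟩),(⟨0,[(30,0)]⟩,⟨0,[(29,0)]⟩),⟨0,[(14,0)]⟩,.k,.k,.k,
  .k,.k,.k,⟨false,0,⟨2,[(7,1),(26,0),(0,0),(2,0)]⟩,⟨3,[(12,1),(25,0),(0,0)]⟩⟩,⟨true,1,⟨0,[(3,0)]⟩,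
  ⟨3,[(2,3),(4,1),(2,3),(22,0),(5,2)]⟩⟩,⟨false,0,⟨7,[(0,3),(1,7),(4,1),(2,3),(22,0),(5,2)]⟩,⟨1,[(1,
  1),(36,0),(0,0)]⟩⟩,⟨true,1,⟨19,[(0,9),(7,1),(3,3),(21,4),(0,7),(3,2)]⟩,⟨0,[(1,0),(0,0),(3,0)]⟩⟩,
  ⟨false,0,⟨0,[]⟩,⟨0,[]⟩⟩,⟨false,0,⟨0,[]⟩,⟨0,[]⟩⟩,[.o ⟨false,1,⟨13,[(12,5),(18,1),(2,6),(0,1),(2,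
  0)]⟩,⟨0,[(37,0)]⟩⟩,.a ⟨true,1,⟨3,[(12,1),(25,0),(0,0)]⟩,⟨0,[(6,0)]⟩⟩ ⟨true,0,⟨1,[(23,0),(0,0)]⟩,
  ⟨0,[]⟩⟩ ⟨false,2,⟨3,[(3,3),(8,1),(25,0),(0,0)]⟩,⟨0,[(2,0),(3,0)]⟩⟩,.o ⟨false,0,⟨0,[(2,0)]⟩,⟨6,[(0,
  0),(2,1),(1,1),(17,2),(7,0),(2,1)]⟩⟩,.o ⟨false,0,⟨0,[(24,0)]⟩,⟨0,[(3,0)]⟩⟩]⟩)) (.I [0,-1,1,1,0,0,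
  0,1] (.Q [0,1,0,1,0,0,1,1,0,-1,1] (.p true [0,0,1] [1] (⟨0,[(26,0)]⟩,⟨0,[(25,0)]⟩) .k 1 (⟨0,[]⟩,
  ⟨0,[]⟩) .k .k) (.R ⟨0,false,false,true,[1,0,-1],[0,1],[0,0,1],(⟨0,[(26,0)]⟩,⟨0,[(27,0)]⟩),(⟨0,
  [(31,0)]⟩,⟨0,[(30,0)]⟩),⟨0,[(15,0)]⟩,.k,.k,.k,.k,.k,.k,⟨false,1,⟨3,[(8,1),(26,0),(3,1),(0,2)]⟩,⟨0,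
  [(37,0)]⟩⟩,⟨true,1,⟨0,[(4,0)]⟩,⟨3,[(3,3),(4,1),(2,3),(22,0),(5,2)]⟩⟩,⟨false,0,⟨3,[(1,3),(6,1),(26,
  0),(4,0)]⟩,⟨3,[(4,0),(1,2),(0,0),(15,0),(12,0),(2,0)]⟩⟩,⟨true,0,⟨0,[(0,0)]⟩,⟨3,[(8,1),(14,3),(10,
  0),(5,2)]⟩⟩,⟨false,0,⟨0,[]⟩,⟨0,[]⟩⟩,⟨false,0,⟨0,[]⟩,⟨0,[]⟩⟩,[.a ⟨true,0,⟨0,[(37,0)]⟩,⟨3,[(8,1),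
  (25,0),(5,2)]⟩⟩ ⟨true,0,⟨1,[(24,0),(0,0)]⟩,⟨0,[]⟩⟩ ⟨false,1,⟨0,[(4,0),(32,0)]⟩,⟨3,[(3,3),(4,1),
  (25,0),(5,2)]⟩⟩,.o ⟨false,1,⟨13,[(13,5),(18,1),(2,6),(0,1),(2,0)]⟩,⟨0,[(38,0)]⟩⟩,.o ⟨false,0,⟨0,
  [(3,0)]⟩,⟨2,[(4,0),(1,0),(15,0),(1,0),(10,0)]⟩⟩,.o ⟨false,0,⟨0,[(25,0)]⟩,⟨0,[(4,0)]⟩⟩]⟩) (.R ⟨0,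
  false,false,true,[1,0,-1],[0,1],[1,1,2,1],(⟨0,[(26,0)]⟩,⟨0,[(27,0)]⟩),(⟨0,[(31,0)]⟩,⟨0,[(30,0)]⟩),
  ⟨0,[(15,0)]⟩,.k,.k,.k,.k,.k,.k,⟨false,0,⟨0,[]⟩,⟨12,[(6,3),(5,3),(0,1),(18,0),(6,6)]⟩⟩,⟨true,1,⟨0,
  [(4,0)]⟩,⟨5,[(0,2),(0,2),(6,1),(2,3),(2,0),(10,0)]⟩⟩,⟨true,(-1),⟨0,[(2,0),(8,0)]⟩,⟨5,[(0,5),(3,5),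
  (3,1),(26,0),(0,3),(2,0)]⟩⟩,⟨false,1,⟨17,[(1,7),(2,7),(8,3),(8,9),(12,4),(0,1),(2,0)]⟩,⟨0,[(0,
  0)]⟩⟩,⟨false,0,⟨0,[]⟩,⟨0,[]⟩⟩,⟨false,0,⟨0,[]⟩,⟨0,[]⟩⟩,[.a ⟨true,0,⟨0,[(37,0)]⟩,⟨3,[(8,1),(25,0),
  (5,2)]⟩⟩ ⟨true,(-1),⟨0,[(11,0)]⟩,⟨3,[(8,1),(26,0),(3,1),(0,2)]⟩⟩ ⟨false,1,⟨0,[(4,0),(32,0)]⟩,⟨0,
  [(0,0),(1,0)]⟩⟩,.o ⟨false,1,⟨13,[(13,5),(18,1),(2,6),(0,1),(2,0)]⟩,⟨0,[(38,0)]⟩⟩,.o ⟨false,0,⟨0,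
  [(3,0)]⟩,⟨2,[(4,0),(1,0),(15,0),(1,0),(10,0)]⟩⟩,.o ⟨false,0,⟨0,[(25,0)]⟩,⟨0,[(4,0)]⟩⟩]⟩)) (.Q [0,
  -1,0,0,1,0,1,1,0,-1,1] (.p true [0,0,1] [1] (⟨0,[(26,0)]⟩,⟨0,[(25,0)]⟩) .k 1 (⟨0,[]⟩,⟨0,[]⟩) .k
  .k) (.R ⟨0,false,false,false,[1,0,-1],[1,-1],[1,1],(⟨0,[(26,0)]⟩,⟨0,[(27,0)]⟩),(⟨0,[(30,0)]⟩,⟨0,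
  [(31,0)]⟩),⟨0,[(15,0)]⟩,.k,.k,.k,.k,.k,.k,⟨false,0,⟨0,[(37,0)]⟩,⟨3,[(8,1),(26,0),(3,1),(0,2)]⟩⟩,
  ⟨true,0,⟨0,[(24,0)]⟩,⟨0,[(3,0)]⟩⟩,⟨false,0,⟨0,[(2,0)]⟩,⟨0,[(1,0),(5,1),(1,0),(25,0),(0,0),(3,
  2)]⟩⟩,⟨true,0,⟨0,[(0,0),(6,0)]⟩,⟨1,[(1,0),(1,0),(5,0),(13,0),(12,0),(3,0)]⟩⟩,⟨false,0,⟨0,[]⟩,⟨0,
  []⟩⟩,⟨false,0,⟨0,[]⟩,⟨0,[]⟩⟩,[.o ⟨false,0,⟨0,[(38,0)]⟩,⟨13,[(13,5),(18,1),(2,6),(0,1),(2,0)]⟩⟩,.a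
  ⟨true,0,⟨3,[(8,1),(25,0),(5,2)]⟩,⟨0,[(37,0)]⟩⟩ ⟨true,0,⟨0,[]⟩,⟨1,[(24,0),(0,0)]⟩⟩ ⟨false,1,⟨3,[(4,
  3),(3,1),(25,0),(5,2)]⟩,⟨7,[(9,1),(4,3),(17,0),(2,1),(0,2),(0,0)]⟩⟩,.o ⟨false,0,⟨0,[(3,0)]⟩,⟨2,
  [(4,0),(1,0),(15,0),(1,0),(10,0)]⟩⟩,.o ⟨false,0,⟨0,[(25,0)]⟩,⟨0,[(4,0)]⟩⟩]⟩) (.R ⟨0,false,false,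
  true,[1,0,-1],[0,1],[1,1,2,1],(⟨0,[(26,0)]⟩,⟨0,[(27,0)]⟩),(⟨0,[(31,0)]⟩,⟨0,[(30,0)]⟩),⟨0,[(15,
  0)]⟩,.k,.k,.k,.k,.k,.k,⟨false,0,⟨0,[]⟩,⟨12,[(6,3),(5,3),(0,1),(18,0),(6,6)]⟩⟩,⟨true,1,⟨0,[(4,0)]⟩,
  ⟨3,[(3,3),(4,1),(2,3),(22,0),(5,2)]⟩⟩,⟨true,(-1),⟨0,[(2,0),(8,0)]⟩,⟨1,[(1,1),(37,0),(0,0)]⟩⟩,
  ⟨false,1,⟨7,[(2,5),(1,5),(4,1),(3,1),(8,1),(12,0),(4,0)]⟩,⟨3,[(0,3),(7,1),(26,0),(4,4)]⟩⟩,⟨false,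
  0,⟨0,[]⟩,⟨0,[]⟩⟩,⟨false,0,⟨0,[]⟩,⟨0,[]⟩⟩,[.a ⟨true,0,⟨0,[(37,0)]⟩,⟨3,[(8,1),(25,0),(5,2)]⟩⟩ ⟨true,
  (-1),⟨0,[(11,0)]⟩,⟨3,[(8,1),(26,0),(3,1),(0,2)]⟩⟩ ⟨false,1,⟨0,[(4,0),(32,0)]⟩,⟨3,[(3,3),(4,1),(25,
  0),(5,2)]⟩⟩,.o ⟨false,1,⟨13,[(13,5),(18,1),(2,6),(0,1),(2,0)]⟩,⟨0,[(38,0)]⟩⟩,.o ⟨false,0,⟨0,[(3,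
  0)]⟩,⟨2,[(4,0),(1,0),(15,0),(1,0),(10,0)]⟩⟩,.o ⟨false,0,⟨0,[(25,0)]⟩,⟨0,[(4,0)]⟩⟩]⟩))))))))) (.S
  ⟨1,0,[0,1,-1,-2],[1,-1],[1,0,-1,-1],(⟨0,[(22,0)]⟩,⟨0,[(23,0)]⟩),⟨0,[(2,0)]⟩,.k,(.r (-1) ⟨0,[(30,
  1),(0,0)]⟩ ⟨3,[(1,1),(3,1),(10,0),(0,0)]⟩),⟨true,0,⟨0,[]⟩,⟨0,[(34,0)]⟩⟩,⟨false,0,⟨0,[(30,0)]⟩,⟨3,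
  [(5,1),(25,0),(0,0)]⟩⟩,⟨false,1,⟨3,[(5,1),(25,0),(0,0)]⟩,⟨0,[(30,0)]⟩⟩,⟨true,0,⟨0,[(34,0)]⟩,⟨0,
  []⟩⟩,[.o ⟨false,0,⟨3,[(4,0),(10,0),(0,0),(7,0),(5,6)]⟩,⟨0,[(0,0)]⟩⟩,.o ⟨false,0,⟨0,[(30,1)]⟩,⟨4,
  [(0,2),(4,0),(18,0),(2,0),(1,1)]⟩⟩,.o ⟨false,0,⟨1,[(16,0),(0,0)]⟩,⟨1,[(27,0),(3,0)]⟩⟩,.a ⟨true,
  (-1),⟨1,[(3,1),(22,0),(3,1),(1,0)]⟩,⟨0,[(31,0)]⟩⟩ ⟨true,1,⟨0,[(30,0),(0,0)]⟩,⟨0,[(1,0),(28,0)]⟩⟩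
  ⟨false,1,⟨0,[(30,1),(0,0)]⟩,⟨0,[(1,0),(30,0)]⟩⟩]⟩)) (.R ⟨1,false,false,true,[1,-1],[0,1],[0,0,-1,
  -2],(⟨0,[(21,0)]⟩,⟨0,[(22,0)]⟩),(⟨0,[(22,0)]⟩,⟨0,[(21,0)]⟩),⟨0,[(1,0)]⟩,.k,.k,(.r (-1) ⟨12,[(0,
  11),(2,1),(4,0),(0,0),(4,1),(0,1),(7,3)]⟩ ⟨2,[(1,1),(0,3),(16,3),(6,0),(0,1),(3,2)]⟩),(.r (-1)
  ⟨12,[(0,11),(2,1),(4,0),(0,0),(4,1),(0,1),(7,3)]⟩ ⟨2,[(1,1),(0,3),(16,3),(6,0),(0,1),(3,2)]⟩),(.r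
  (-1) ⟨0,[(0,0),(26,0),(1,1)]⟩ ⟨1,[(1,1),(0,3),(16,3),(6,0),(0,1),(3,2)]⟩),.k,⟨true,1,⟨0,[(0,0),
  (28,0)]⟩,⟨0,[(2,1),(24,0),(3,0)]⟩⟩,⟨false,2,⟨1,[(26,0),(3,2)]⟩,⟨1,[(2,1),(22,0),(3,1),(1,0)]⟩⟩,
  ⟨true,0,⟨0,[(29,0)]⟩,⟨0,[(28,0)]⟩⟩,⟨false,1,⟨5,[(2,1),(1,1),(21,2),(0,5),(3,2)]⟩,⟨1,[(25,0),(3,3),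
  (1,0)]⟩⟩,⟨false,1,⟨1,[(8,0),(0,0),(21,0)]⟩,⟨0,[]⟩⟩,⟨false,1,⟨1,[(2,1),(23,0),(0,3),(3,2)]⟩,⟨1,
  [(25,0),(3,5),(1,0)]⟩⟩,[.e ⟨false,1,⟨12,[(0,11),(2,1),(4,0),(0,0),(4,1),(0,1),(7,3)]⟩,⟨0,[(2,0),
  (24,0),(3,0)]⟩⟩ ⟨false,1,⟨1,[(26,0),(0,1),(2,0)]⟩,⟨1,[(15,0),(0,0),(8,0),(3,1),(1,0)]⟩⟩,.o ⟨false,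
  1,⟨13,[(4,5),(18,1),(2,6),(0,1),(2,0)]⟩,⟨0,[(29,0)]⟩⟩,.o ⟨false,0,⟨1,[(15,0),(0,0)]⟩,⟨1,[(26,0),
  (3,0)]⟩⟩,.a ⟨true,(-1),⟨1,[(2,1),(22,0),(3,1),(1,0)]⟩,⟨0,[(30,0)]⟩⟩ ⟨false,1,⟨0,[(0,0)]⟩,⟨2,[(2,
  1),(1,1)]⟩⟩ ⟨true,1,⟨1,[(26,0),(0,1),(2,0)]⟩,⟨1,[(2,1),(22,0),(3,3),(1,0)]⟩⟩]⟩)))

theorem ok1 : chk K t1 l2 = true := by decide +kernel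

noncomputable def t2 : Tre :=
  (.Q [0,1,0,1,0,0,-1,-1,0,0,-1] (.p false [0,0,1] [] (⟨0,[(18,0)]⟩,⟨0,[(17,0)]⟩) .k 0 (⟨0,[]⟩,⟨0,
  []⟩) .k .k) (.Q [0,0,0,-1,0,0,1,1,0,0,1] (.p true [0,0,1] [] (⟨0,[(19,0)]⟩,⟨0,[(18,0)]⟩) .k 0 (⟨0,
  []⟩,⟨0,[]⟩) .k .k) (.Q [0,0,0,0,0,0,-1,-1,0,0,-1] (.p false [0,0,1] [] (⟨0,[(20,0)]⟩,⟨0,[(19,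
  0)]⟩) .k 0 (⟨0,[]⟩,⟨0,[]⟩) .k .k) (.R ⟨2,true,false,false,[0,1],[0,0,1],[0,1,1],(⟨0,[]⟩,⟨0,[]⟩),
  (⟨0,[(21,0)]⟩,⟨0,[(20,0)]⟩),⟨0,[]⟩,.k,.k,.k,.k,.k,.k,⟨false,0,⟨0,[(0,0),(17,0),(11,0),(1,0)]⟩,⟨0,
  [(1,0),(1,0),(26,0),(3,0)]⟩⟩,⟨true,0,⟨0,[(18,0)]⟩,⟨0,[(3,0)]⟩⟩,⟨false,0,⟨0,[(32,0)]⟩,⟨3,[(7,1),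
  (25,0),(0,0)]⟩⟩,⟨true,0,⟨0,[(1,0)]⟩,⟨0,[(2,0)]⟩⟩,⟨true,0,⟨0,[(36,0)]⟩,⟨0,[]⟩⟩,⟨false,1,⟨0,[(16,0),
  (17,0)]⟩,⟨0,[(0,0)]⟩⟩,[]⟩) (.Q [0,0,-1,0,1,0,1,0,0,-1,1] (.p true [0,0,1] [1] (⟨0,[(21,0)]⟩,⟨0,
  [(20,0)]⟩) .k 1 (⟨0,[]⟩,⟨0,[]⟩) .k .k) (.I [0,-1,0,0,1,0,0,-1] (.R ⟨0,false,false,false,[1,0,-1],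
  [1,-1],[1,1],(⟨0,[(22,0)]⟩,⟨0,[(23,0)]⟩),(⟨0,[(26,0)]⟩,⟨0,[(27,0)]⟩),⟨0,[(11,0)]⟩,.k,.k,.k,.k,.k,
  .k,⟨false,0,⟨0,[(33,0)]⟩,⟨3,[(0,0),(6,1),(0,0),(25,0),(1,0)]⟩⟩,⟨true,0,⟨0,[(20,0)]⟩,⟨0,[(5,0)]⟩⟩,
  ⟨false,0,⟨0,[(2,0),(2,0)]⟩,⟨0,[(0,0)]⟩⟩,⟨true,0,⟨0,[(3,0)]⟩,⟨0,[(4,0)]⟩⟩,⟨false,0,⟨0,[]⟩,⟨0,[]⟩⟩,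
  ⟨false,0,⟨0,[]⟩,⟨0,[]⟩⟩,[.o ⟨false,0,⟨0,[(34,0)]⟩,⟨13,[(9,5),(18,1),(2,6),(0,1),(2,0)]⟩⟩,.a ⟨true,
  0,⟨1,[(30,0),(3,1),(1,0)]⟩,⟨0,[(33,0)]⟩⟩ ⟨true,0,⟨0,[]⟩,⟨1,[(20,0),(0,0)]⟩⟩ ⟨false,1,⟨0,[(7,0),
  (12,0)]⟩,⟨0,[(21,0),(10,0)]⟩⟩,.o ⟨false,0,⟨0,[(5,0)]⟩,⟨15,[(0,2),(0,7),(4,0),(1,0),(11,7),(7,0),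
  (2,3)]⟩⟩,.o ⟨false,0,⟨0,[(21,0)]⟩,⟨0,[(1,0)]⟩⟩]⟩) (.Q [0,-1,0,-2,0,0,1,1,0,0,1] (.p true [0,0,1]
  [] (⟨0,[(23,0)]⟩,⟨0,[(22,0)]⟩) .k 0 (⟨0,[]⟩,⟨0,[]⟩) .k .k) (.R ⟨1,false,false,true,[0,0,1],[0,1],
  [1,1,1],(⟨0,[(24,0)]⟩,⟨0,[(23,0)]⟩),(⟨0,[(28,0)]⟩,⟨0,[(27,0)]⟩),⟨0,[(13,0)]⟩,.k,.k,.k,.k,(.r 0 ⟨1,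
  [(0,0),(0,1),(6,1),(11,0)]⟩ ⟨0,[(10,0),(9,0),(0,0)]⟩),.k,⟨true,0,⟨1,[(0,0),(19,0)]⟩,⟨0,[(1,0),(3,
  0),(15,0),(15,0)]⟩⟩,⟨false,1,⟨1,[(18,1),(13,0),(3,0)]⟩,⟨0,[(21,0)]⟩⟩,⟨true,0,⟨0,[(20,0),(0,0)]⟩,
  ⟨12,[(1,10),(5,0),(0,4),(24,3),(3,4)]⟩⟩,⟨true,0,⟨0,[(5,0)]⟩,⟨0,[(4,0)]⟩⟩,⟨true,0,⟨0,[(5,0),(15,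
  0)]⟩,⟨78,[(0,15),(0,47),(5,2),(0,40),(0,8),(1,7),(20,3)]⟩⟩,⟨false,1,⟨3,[(5,3),(4,1),(25,0),(0,
  0)]⟩,⟨0,[(0,0)]⟩⟩,[.e ⟨false,0,⟨0,[(39,0)]⟩,⟨1,[(36,0),(0,0)]⟩⟩ ⟨false,0,⟨0,[(6,0),(26,0)]⟩,⟨3,
  [(0,0),(7,1),(5,0),(0,0),(4,0),(0,3),(15,0)]⟩⟩,.o ⟨false,1,⟨13,[(10,5),(18,1),(2,6),(0,1),(2,0)]⟩,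
  ⟨0,[(35,0)]⟩⟩,.o ⟨false,1,⟨3,[(2,1),(11,0),(0,0),(5,1),(10,0)]⟩,⟨0,[(6,0)]⟩⟩,.a ⟨true,0,⟨0,[(21,
  0)]⟩,⟨0,[(18,0)]⟩⟩ ⟨false,0,⟨0,[]⟩,⟨1,[(14,0),(0,0),(21,0)]⟩⟩ ⟨true,0,⟨0,[(6,0),(26,0)]⟩,⟨1,[(0,
  0),(19,0),(0,1)]⟩⟩]⟩) (.Q [0,0,2,0,-1,0,-1,0,0,1,-1] (.p false [0,0,1] [1] (⟨0,[(24,0)]⟩,⟨0,[(23,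
  0)]⟩) .k 1 (⟨0,[]⟩,⟨0,[]⟩) .k .k) (.R ⟨0,false,false,true,[1,0,-1],[0,1],[1],(⟨0,[(24,0)]⟩,⟨0,
  [(25,0)]⟩),(⟨0,[(29,0)]⟩,⟨0,[(28,0)]⟩),⟨0,[(13,0)]⟩,.k,.k,.k,.k,.k,.k,⟨false,1,⟨0,[(9,0)]⟩,⟨17,
  [(0,3),(0,0),(6,1),(12,2),(0,7),(10,1),(1,13)]⟩⟩,⟨true,1,⟨0,[(3,0)]⟩,⟨0,[(0,0)]⟩⟩,⟨false,0,⟨0,[(2,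
  0),(35,0)]⟩,⟨1,[(21,1),(0,1),(14,0),(0,0)]⟩⟩,⟨true,0,⟨7,[(1,1),(0,9),(0,5),(7,1),(10,3),(10,0),(4,
  0)]⟩,⟨1,[(21,1),(10,0),(3,1),(1,0)]⟩⟩,⟨false,0,⟨0,[]⟩,⟨0,[]⟩⟩,⟨false,0,⟨0,[]⟩,⟨0,[]⟩⟩,[.a ⟨true,0,
  ⟨0,[(35,0)]⟩,⟨1,[(32,0),(3,1),(1,0)]⟩⟩ ⟨true,0,⟨0,[]⟩,⟨1,[(22,0),(0,0)]⟩⟩ ⟨false,1,⟨0,[(3,0),(31,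
  0)]⟩,⟨0,[(0,0),(8,0)]⟩⟩,.o ⟨false,1,⟨17,[(1,3),(1,3),(4,1),(2,3),(21,6),(3,0)]⟩,⟨0,[(36,0)]⟩⟩,.o
  ⟨false,0,⟨0,[(7,0)]⟩,⟨3,[(3,1),(11,0),(0,0),(5,1),(10,0)]⟩⟩,.o ⟨false,0,⟨0,[(23,0)]⟩,⟨0,[(3,
  0)]⟩⟩]⟩) (.R ⟨0,false,false,false,[-1,1,1],[1,0,-1],[1,1],(⟨0,[(13,0)]⟩,⟨0,[(24,0),(3,0)]⟩),(⟨0,
  [(24,0)]⟩,⟨0,[(25,0)]⟩),⟨0,[(24,0)]⟩,.k,.k,.k,(.r 1 ⟨3,[(1,1),(0,9),(19,2),(0,0),(14,5)]⟩ ⟨1,[(9,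
  1),(11,3),(0,3),(14,0),(0,0)]⟩),.k,.k,⟨true,(-1),⟨0,[(2,0)]⟩,⟨0,[(21,0),(0,0),(15,0)]⟩⟩,⟨false,
  (-1),⟨0,[(1,0),(0,0),(4,0),(24,0),(3,1),(1,0)]⟩,⟨3,[(3,5),(11,0),(0,0),(5,1),(10,0)]⟩⟩,⟨false,1,
  ⟨0,[(9,0),(11,0),(0,0)]⟩,⟨3,[(1,1),(0,5),(19,2),(0,0),(14,5)]⟩⟩,⟨true,0,⟨1,[(1,0),(19,2),(10,1),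
  (3,3),(1,1)]⟩,⟨11,[(0,9),(0,3),(0,27),(8,1),(10,17),(10,6),(4,8)]⟩⟩,⟨false,0,⟨0,[]⟩,⟨0,[]⟩⟩,
  ⟨false,0,⟨0,[]⟩,⟨0,[]⟩⟩,[.e ⟨false,0,⟨9,[(0,2),(1,1),(16,0),(1,1),(8,2),(1,0)]⟩,⟨1,[(15,0),(0,0),
  (21,0)]⟩⟩ ⟨false,0,⟨17,[(12,8),(2,0),(0,0),(4,17),(4,6),(1,6),(3,9),(5,8)]⟩,⟨1,[(0,1),(1,1),(19,
  1),(10,0),(4,0)]⟩⟩,.o ⟨false,1,⟨0,[(21,0),(16,0)]⟩,⟨4,[(0,0),(1,2),(17,1),(1,1),(10,1)]⟩⟩,.e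
  ⟨false,0,⟨0,[]⟩,⟨1,[(15,0),(0,0),(21,0)]⟩⟩ ⟨false,0,⟨0,[(7,0),(13,0),(10,0),(5,0),(0,0)]⟩,⟨1,[(0,
  1),(1,1),(19,1),(10,0),(4,0)]⟩⟩,.a ⟨true,1,⟨3,[(3,1),(11,0),(0,0),(5,1),(10,0)]⟩,⟨0,[(1,0),(0,0),
  (29,0),(3,1),(1,0)]⟩⟩ ⟨true,0,⟨9,[(0,2),(1,1),(16,0),(1,1),(8,2),(1,0)]⟩,⟨1,[(22,0),(0,0)]⟩⟩
  ⟨false,0,⟨0,[(1,0),(5,0),(24,0),(3,1),(1,0)]⟩,⟨3,[(0,1),(1,1),(1,1),(17,3),(10,2),(4,0)]⟩⟩]⟩))))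
  (.R ⟨0,false,false,false,[1,0,-1],[1,-1],[1,0,1],(⟨0,[(21,0)]⟩,⟨0,[(22,0)]⟩),(⟨0,[(25,0)]⟩,⟨0,
  [(26,0)]⟩),⟨0,[(10,0)]⟩,.k,.k,.k,.k,.k,.k,⟨false,0,⟨1,[(0,1),(18,1),(10,0),(0,1),(3,0)]⟩,⟨8,[(6,
  7),(0,0),(4,0),(0,0),(4,0),(0,0),(7,2)]⟩⟩,⟨true,0,⟨0,[(19,0)]⟩,⟨0,[(4,0)]⟩⟩,⟨false,0,⟨1,[(0,1),(0,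
  1),(28,0),(4,0)]⟩,⟨0,[(3,0),(2,0),(12,0)]⟩⟩,⟨true,0,⟨0,[(2,0)]⟩,⟨0,[(3,0)]⟩⟩,⟨false,0,⟨0,[]⟩,⟨0,
  []⟩⟩,⟨false,0,⟨0,[]⟩,⟨0,[]⟩⟩,[.o ⟨false,0,⟨0,[(33,0)]⟩,⟨13,[(8,5),(18,1),(2,6),(0,1),(2,0)]⟩⟩,.e
  ⟨false,1,⟨1,[(12,0),(0,0),(21,0)]⟩,⟨0,[(31,0),(1,0)]⟩⟩ ⟨false,1,⟨0,[(6,0),(12,0)]⟩,⟨24,[(0,10),(2,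
  7),(1,3),(3,2),(17,1),(2,6),(0,12)]⟩⟩,.o ⟨false,0,⟨0,[(4,0)]⟩,⟨1,[(19,1),(10,0),(3,0)]⟩⟩,.a ⟨true,
  (-1),⟨0,[(0,0)]⟩,⟨0,[(19,0),(14,0)]⟩⟩ ⟨true,0,⟨0,[]⟩,⟨0,[(37,0)]⟩⟩ ⟨false,1,⟨0,[(6,0),(12,0)]⟩,
  ⟨12,[(0,9),(2,1),(0,0),(0,0),(2,3),(21,4),(0,1)]⟩⟩]⟩))) (.I [1,0,-1,0,0,0,0,-1] (.R ⟨0,false,
  false,false,[1,0,-1],[1,-1],[0,1,1],(⟨0,[(20,0)]⟩,⟨0,[(21,0)]⟩),(⟨0,[(24,0)]⟩,⟨0,[(25,0)]⟩),⟨0,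
  [(9,0)]⟩,.k,.k,.k,.k,.k,.k,⟨false,0,⟨1,[(18,0),(0,0),(11,1)]⟩,⟨0,[(5,0)]⟩⟩,⟨true,0,⟨0,[(18,0)]⟩,
  ⟨0,[(3,0)]⟩⟩,⟨true,0,⟨0,[(16,0),(2,0)]⟩,⟨0,[(0,0)]⟩⟩,⟨false,1,⟨0,[(16,0),(15,0),(1,0)]⟩,⟨0,[(1,
  0)]⟩⟩,⟨false,0,⟨0,[]⟩,⟨0,[]⟩⟩,⟨false,0,⟨0,[]⟩,⟨0,[]⟩⟩,[.o ⟨false,0,⟨0,[(32,0)]⟩,⟨13,[(7,5),(18,1),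
  (2,6),(0,1),(2,0)]⟩⟩,.a ⟨true,0,⟨1,[(28,0),(3,1),(1,0)]⟩,⟨0,[(31,0)]⟩⟩ ⟨true,0,⟨1,[(18,0),(0,0)]⟩,
  ⟨0,[]⟩⟩ ⟨false,1,⟨0,[(5,0),(12,0)]⟩,⟨0,[(19,0),(10,0)]⟩⟩,.o ⟨false,0,⟨0,[(3,0)]⟩,⟨1,[(18,1),(10,
  0),(3,0)]⟩⟩,.o ⟨false,0,⟨0,[(19,0)]⟩,⟨1,[(0,1),(15,1),(12,0),(4,0)]⟩⟩]⟩) (.I [0,0,0,-1,0,0,0,-1]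
  (.I [0,-1,1,0,0,0,0,-1] (.S ⟨1,0,[0,0,1,0,0,0,0,-1],[1,1,-1],[1,1,1,1,0,0,0,-1],(⟨22,[(13,2),(0,
  2),(7,22),(1,4),(4,5),(0,2)]⟩,⟨0,[(12,0)]⟩),⟨0,[(22,0)]⟩,.k,.k,⟨false,0,⟨0,[]⟩,⟨1,[(13,0),(0,0),
  (21,0)]⟩⟩,⟨true,0,⟨0,[(34,0)]⟩,⟨0,[(33,0)]⟩⟩,⟨true,0,⟨0,[(33,0)]⟩,⟨0,[(34,0)]⟩⟩,⟨false,1,⟨1,[(13,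
  0),(0,0),(21,0)]⟩,⟨0,[]⟩⟩,[.o ⟨false,0,⟨1,[(1,0),(1,0),(1,0)]⟩,⟨1,[(18,1),(12,0),(4,0)]⟩⟩,.a
  ⟨true,0,⟨2,[(0,1),(2,0),(3,0),(2,0),(19,0)]⟩,⟨0,[(18,0)]⟩⟩ ⟨false,0,⟨0,[(0,0),(31,0)]⟩,⟨13,[(1,2),
  (4,4),(0,8),(0,6),(19,0)]⟩⟩ ⟨true,0,⟨0,[(0,0)]⟩,⟨1,[(2,0),(5,0),(23,0)]⟩⟩,.e ⟨false,0,⟨0,[(3,0),
  (16,0)]⟩,⟨0,[(2,0),(4,0)]⟩⟩ ⟨false,0,⟨0,[(0,0)]⟩,⟨4,[(6,1),(0,1),(0,0),(23,0),(2,0)]⟩⟩,.o ⟨false,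
  0,⟨0,[(5,0)]⟩,⟨1,[(20,1),(10,0),(3,0)]⟩⟩]⟩) (.I [0,0,0,0,0,0,0,-1] (.S ⟨1,0,[0,0,0,-1,0,0,0,1],[0,
  0,1],[1,1,0,0,0,0,0,1],(⟨0,[(24,0)]⟩,⟨0,[(23,0)]⟩),⟨0,[(13,0)]⟩,.k,.k,⟨false,0,⟨0,[]⟩,⟨1,[(14,0),
  (0,0),(21,0)]⟩⟩,⟨true,0,⟨0,[(35,0)]⟩,⟨0,[(34,0)]⟩⟩,⟨true,0,⟨0,[(34,0)]⟩,⟨0,[(35,0)]⟩⟩,⟨false,1,⟨1,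
  [(14,0),(0,0),(21,0)]⟩,⟨0,[]⟩⟩,[.o ⟨false,1,⟨1,[(19,1),(12,0),(2,1),(1,0)]⟩,⟨0,[(4,0)]⟩⟩,.e
  ⟨false,1,⟨7,[(1,0),(5,2),(0,1),(0,0),(26,2)]⟩,⟨0,[(0,0)]⟩⟩ ⟨false,1,⟨0,[(3,0),(4,0)]⟩,⟨0,[(0,0),
  (33,0)]⟩⟩,.o ⟨false,1,⟨1,[(21,1),(10,0),(3,0)]⟩,⟨0,[(6,0)]⟩⟩,.a ⟨true,0,⟨0,[(21,0)]⟩,⟨0,[(18,
  0)]⟩⟩ ⟨true,0,⟨0,[(1,0)]⟩,⟨3,[(2,1),(1,1),(16,2),(0,0)]⟩⟩ ⟨false,1,⟨0,[(3,0),(4,0)]⟩,⟨0,[(4,0),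
  (16,0)]⟩⟩]⟩) (.Q [0,0,0,-2,0,0,1,1,0,0,1] (.p true [0,0,1] [] (⟨0,[(24,0)]⟩,⟨0,[(23,0)]⟩) .k 0
  (⟨0,[]⟩,⟨0,[]⟩) .k .k) (.R ⟨1,false,false,true,[0,0,1],[0,1],[0,1,2,1],(⟨0,[(25,0)]⟩,⟨0,[(24,
  0)]⟩),(⟨0,[(29,0)]⟩,⟨0,[(28,0)]⟩),⟨0,[(14,0)]⟩,.k,.k,.k,.k,(.r (-1) ⟨0,[(9,0),(0,0)]⟩ ⟨0,[(1,0),
  (3,1),(16,1)]⟩),.k,⟨true,0,⟨1,[(22,0),(0,0)]⟩,⟨0,[]⟩⟩,⟨false,1,⟨1,[(19,1),(13,0),(3,0)]⟩,⟨0,[(22,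
  0)]⟩⟩,⟨false,0,⟨1,[(5,1),(16,2),(0,0)]⟩,⟨0,[(1,0),(7,0)]⟩⟩,⟨false,0,⟨0,[(5,0)]⟩,⟨3,[(0,3),(10,1),
  (25,0),(0,0)]⟩⟩,⟨false,0,⟨0,[(1,0),(3,1),(16,1)]⟩,⟨1,[(0,0),(0,0),(5,0),(1,1)]⟩⟩,⟨true,0,⟨0,[(5,
  0),(29,0)]⟩,⟨0,[(0,0)]⟩⟩,[.e ⟨false,0,⟨1,[(22,0),(0,0),(11,1)]⟩,⟨0,[(9,0)]⟩⟩ ⟨false,0,⟨0,[(2,0),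
  (2,0)]⟩,⟨7,[(0,3),(2,3),(7,1),(10,3),(14,2),(0,2)]⟩⟩,.o ⟨false,1,⟨13,[(11,5),(18,1),(2,6),(0,1),
  (2,0)]⟩,⟨0,[(36,0)]⟩⟩,.o ⟨false,1,⟨1,[(22,1),(10,0),(3,0)]⟩,⟨0,[(7,0)]⟩⟩,.a ⟨true,0,⟨0,[(22,0)]⟩,
  ⟨0,[(19,0)]⟩⟩ ⟨false,0,⟨0,[(1,0),(3,0),(16,0)]⟩,⟨53,[(0,3),(2,23),(4,9),(0,31),(2,1),(20,0),(4,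
  10)]⟩⟩ ⟨true,0,⟨0,[(2,0),(2,0)]⟩,⟨5,[(0,1),(2,1),(18,4),(0,0)]⟩⟩]⟩) (.Q [0,0,-1,0,1,0,1,0,0,-1,1]
  (.p true [0,0,1] [1] (⟨0,[(25,0)]⟩,⟨0,[(24,0)]⟩) .k 1 (⟨0,[]⟩,⟨0,[]⟩) .k .k) (.R ⟨0,false,false,
  false,[1,0,-1],[2,-1,-1],[1],(⟨0,[(25,0)]⟩,⟨0,[(26,0)]⟩),(⟨0,[(25,0),(3,0)]⟩,⟨0,[(14,0)]⟩),⟨0,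
  [(14,0)]⟩,.k,.k,.k,.k,.k,.k,⟨true,0,⟨1,[(1,0),(0,1),(2,0),(17,0)]⟩,⟨0,[(4,0)]⟩⟩,⟨false,0,⟨121,[(4,
  47),(4,23),(2,11),(14,19),(1,19),(1,5),(1,50),(4,14)]⟩,⟨1,[(34,0),(3,0)]⟩⟩,⟨true,0,⟨0,[(2,0)]⟩,⟨4,
  [(1,0),(2,2),(2,0),(15,1),(7,1)]⟩⟩,⟨false,0,⟨1,[(33,0),(3,1),(1,0)]⟩,⟨25,[(0,3),(0,3),(7,1),(2,7),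
  (18,3),(2,10),(3,0)]⟩⟩,⟨false,0,⟨0,[]⟩,⟨0,[]⟩⟩,⟨false,0,⟨0,[]⟩,⟨0,[]⟩⟩,[.a ⟨true,(-1),⟨0,[(1,0),
  (31,0),(3,2)]⟩,⟨5,[(0,3),(0,1),(0,6),(9,0),(8,0),(1,2),(10,0)]⟩⟩ ⟨true,0,⟨0,[]⟩,⟨1,[(23,0),(0,
  0)]⟩⟩ ⟨false,0,⟨1,[(4,1),(28,0),(4,0)]⟩,⟨2,[(0,0),(0,0),(0,1),(6,0),(24,0)]⟩⟩,.o ⟨false,0,⟨1,[(4,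
  1),(3,1),(24,0),(5,0)]⟩,⟨0,[(2,0),(20,0),(10,0),(0,0)]⟩⟩,.o ⟨false,0,⟨0,[(8,0)]⟩,⟨20,[(0,12),(3,
  4),(4,2),(2,0),(9,0),(0,8),(10,3)]⟩⟩,.o ⟨false,0,⟨0,[(24,0)]⟩,⟨0,[(0,0)]⟩⟩]⟩) (.R ⟨0,false,false,
  false,[1,0,-1],[1,-1],[0,1,0,0,0,0,0,-1],(⟨0,[(25,0)]⟩,⟨0,[(26,0)]⟩),(⟨0,[(29,0)]⟩,⟨0,[(30,0)]⟩),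
  ⟨0,[(14,0)]⟩,.k,.k,.k,.k,.k,.k,⟨false,0,⟨4,[(1,2),(2,1),(18,2),(7,1),(3,0)]⟩,⟨1,[(2,0),(7,0),(0,
  0),(27,0)]⟩⟩,⟨true,0,⟨0,[(23,0)]⟩,⟨0,[(8,0)]⟩⟩,⟨true,0,⟨0,[(41,0)]⟩,⟨0,[]⟩⟩,⟨false,1,⟨0,[(21,0),
  (15,0),(1,0)]⟩,⟨0,[(6,0)]⟩⟩,⟨false,0,⟨0,[]⟩,⟨0,[]⟩⟩,⟨false,0,⟨0,[]⟩,⟨0,[]⟩⟩,[.o ⟨false,0,⟨0,[(37,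
  0)]⟩,⟨13,[(12,5),(18,1),(2,6),(0,1),(2,0)]⟩⟩,.e ⟨false,1,⟨10,[(1,0),(2,9),(7,3),(10,0),(7,1),(6,
  6)]⟩,⟨0,[(2,0)]⟩⟩ ⟨false,1,⟨0,[(10,0),(12,0)]⟩,⟨3,[(1,0),(1,1),(3,0),(16,1),(11,0)]⟩⟩,.o ⟨false,0,
  ⟨0,[(8,0)]⟩,⟨1,[(23,1),(10,0),(3,0)]⟩⟩,.a ⟨true,(-1),⟨0,[(0,0)]⟩,⟨0,[(23,0),(14,0)]⟩⟩ ⟨true,0,⟨0,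
  [(4,0),(30,0)]⟩,⟨0,[(5,0)]⟩⟩ ⟨false,1,⟨0,[(10,0),(12,0)]⟩,⟨1,[(1,0),(3,0),(18,0)]⟩⟩]⟩))))) (.Q [0,
  -1,0,-1,1,0,1,1,0,-1,1] (.p true [0,0,1] [1] (⟨0,[(22,0)]⟩,⟨0,[(21,0)]⟩) .k 1 (⟨0,[]⟩,⟨0,[]⟩) .k
  .k) (.S ⟨1,0,[0,0,0,-1,0,0,0,1],[0,0,1],[1,1,0,0,0,0,0,1],(⟨0,[(23,0)]⟩,⟨0,[(22,0)]⟩),⟨0,[(12,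
  0)]⟩,.k,.k,⟨false,0,⟨0,[]⟩,⟨1,[(13,0),(0,0),(21,0)]⟩⟩,⟨true,0,⟨0,[(34,0)]⟩,⟨0,[(33,0)]⟩⟩,⟨true,0,
  ⟨0,[(33,0)]⟩,⟨0,[(34,0)]⟩⟩,⟨false,1,⟨1,[(13,0),(0,0),(21,0)]⟩,⟨0,[]⟩⟩,[.o ⟨false,1,⟨7,[(0,5),(7,
  1),(4,0),(0,0),(5,1),(7,1),(2,0)]⟩,⟨0,[(3,0)]⟩⟩,.o ⟨false,1,⟨0,[(0,0)]⟩,⟨0,[(4,0)]⟩⟩,.o ⟨false,1,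
  ⟨1,[(20,1),(10,0),(3,0)]⟩,⟨0,[(5,0)]⟩⟩,.a ⟨true,0,⟨0,[(20,0)]⟩,⟨0,[(17,0)]⟩⟩ ⟨true,0,⟨0,[(1,0),
  (30,0),(1,1)]⟩,⟨0,[(3,0),(16,0),(13,0)]⟩⟩ ⟨false,1,⟨32,[(0,19),(0,6),(4,0),(0,16),(0,3),(1,9),(19,
  4)]⟩,⟨0,[(3,0),(16,0)]⟩⟩]⟩) (.Q [0,0,1,0,-1,0,-1,0,0,1,-1] (.p false [0,0,1] [1] (⟨0,[(23,0)]⟩,⟨0,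
  [(22,0)]⟩) .k 1 (⟨0,[]⟩,⟨0,[]⟩) .k .k) (.R ⟨0,false,false,true,[-1,1,1],[0,1],[1,1,1,1,0,0,0,1],
  (⟨0,[(12,0)]⟩,⟨0,[(23,0),(3,0)]⟩),(⟨0,[(28,0)]⟩,⟨0,[(27,0)]⟩),⟨0,[(23,0)]⟩,.k,.k,.k,.k,.k,.k,
  ⟨true,0,⟨0,[(2,0),(32,0)]⟩,⟨0,[(4,0),(16,0),(13,0)]⟩⟩,⟨false,0,⟨0,[(18,0)]⟩,⟨1,[(21,1),(10,0),(3,
  0)]⟩⟩,⟨false,0,⟨0,[]⟩,⟨1,[(14,0),(0,0),(21,0)]⟩⟩,⟨true,(-1),⟨0,[(1,0),(33,0)]⟩,⟨1,[(19,1),(12,0),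
  (4,0)]⟩⟩,⟨false,0,⟨0,[]⟩,⟨0,[]⟩⟩,⟨false,0,⟨0,[]⟩,⟨0,[]⟩⟩,[.e ⟨false,0,⟨2,[(2,1),(6,0),(24,1)]⟩,⟨0,
  [(4,0),(3,0),(12,0),(13,0)]⟩⟩ ⟨false,(-1),⟨0,[(0,0),(32,0)]⟩,⟨1,[(8,1),(5,0),(0,0),(5,1),(10,
  0)]⟩⟩,.o ⟨false,1,⟨13,[(10,5),(18,1),(2,6),(0,1),(2,0)]⟩,⟨0,[(35,0)]⟩⟩,.o ⟨false,2,⟨0,[(21,0),(10,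
  0),(3,0)]⟩,⟨0,[(0,0)]⟩⟩,.a ⟨true,1,⟨1,[(21,1),(10,0),(3,0)]⟩,⟨12,[(0,10),(7,2),(9,1),(6,2),(1,2),
  (3,4),(1,2)]⟩⟩ ⟨false,0,⟨0,[(2,0)]⟩,⟨1,[(4,0),(3,0),(11,0),(0,1),(13,1),(1,0)]⟩⟩ ⟨true,(-1),⟨0,
  [(0,0),(32,0)]⟩,⟨7,[(8,3),(0,0),(10,0),(0,8),(7,0),(2,3),(2,2)]⟩⟩]⟩) (.Q [0,-1,-1,0,2,0,2,1,0,-2,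
  2] (.p true [0,0,1] [2,-1,-1] (⟨0,[(24,0)]⟩,⟨0,[(23,0)]⟩) .k 2 (⟨0,[(23,0),(3,0)]⟩,⟨0,[(12,0)]⟩)
  .k (.r 0 ⟨0,[(2,1),(32,1)]⟩ ⟨0,[(4,0),(3,0),(11,0),(0,1)]⟩)) (.R ⟨0,false,false,true,[-1,1,1],[1,
  0,-1],[1,1],(⟨0,[(13,0)]⟩,⟨0,[(24,0),(3,0)]⟩),(⟨0,[(24,0)]⟩,⟨0,[(25,0)]⟩),⟨0,[(24,0)]⟩,.k,.k,.k,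
  (.r 0 ⟨0,[(3,0),(0,0)]⟩ ⟨1,[(1,0),(0,0),(2,1),(3,1),(11,0),(0,2),(13,2)]⟩),.k,.k,⟨true,0,⟨0,[(3,
  0),(32,0)]⟩,⟨0,[(5,0),(16,0),(13,0)]⟩⟩,⟨false,(-1),⟨7,[(2,5),(0,5),(3,9),(24,4),(3,11),(1,2)]⟩,⟨1,
  [(0,0),(0,1),(19,0),(0,0)]⟩⟩,⟨true,0,⟨0,[(1,0),(0,0),(33,1)]⟩,⟨1,[(3,1),(18,0),(0,0)]⟩⟩,⟨false,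
  (-1),⟨0,[(5,1),(26,0),(3,2)]⟩,⟨6,[(0,5),(2,4),(0,2),(6,0),(10,1),(10,0)]⟩⟩,⟨false,0,⟨0,[]⟩,⟨0,
  []⟩⟩,⟨false,0,⟨0,[]⟩,⟨0,[]⟩⟩,[.e ⟨false,0,⟨0,[(34,0),(1,0)]⟩,⟨1,[(15,0),(0,0),(21,0)]⟩⟩ ⟨false,
  (-1),⟨13,[(2,8),(9,6),(8,4),(4,1),(1,1),(3,4),(3,8)]⟩,⟨0,[(0,0)]⟩⟩,.o ⟨false,0,⟨0,[(5,0),(30,0)]⟩,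
  ⟨5,[(0,1),(7,0),(1,0),(9,0),(1,0),(10,0)]⟩⟩,.e ⟨false,0,⟨0,[]⟩,⟨1,[(15,0),(0,0),(21,0)]⟩⟩ ⟨false,
  (-1),⟨1,[(2,1),(20,1),(8,0),(3,1),(1,0)]⟩,⟨0,[(0,0)]⟩⟩,.a ⟨true,1,⟨1,[(0,0),(20,0),(0,0)]⟩,⟨7,[(2,
  5),(0,5),(3,1),(24,4),(3,11),(1,2)]⟩⟩ ⟨true,0,⟨0,[(34,0),(1,0)]⟩,⟨1,[(22,0),(0,0)]⟩⟩ ⟨false,(-1),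
  ⟨1,[(2,1),(4,1),(24,0),(3,1),(1,0)]⟩,⟨1,[(0,1),(21,0),(0,0)]⟩⟩]⟩) (.R ⟨0,false,false,true,[1,0,
  -1],[0,1],[0,0,1],(⟨0,[(24,0)]⟩,⟨0,[(25,0)]⟩),(⟨0,[(29,0)]⟩,⟨0,[(28,0)]⟩),⟨0,[(13,0)]⟩,.k,.k,.k,
  .k,.k,.k,⟨false,1,⟨3,[(9,1),(5,0),(0,0),(19,1),(1,0)]⟩,⟨0,[(35,0)]⟩⟩,⟨true,1,⟨0,[(1,0)]⟩,⟨1,[(0,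
  1),(2,1),(18,1),(10,0),(2,1),(1,0)]⟩⟩,⟨true,0,⟨0,[(4,0)]⟩,⟨0,[(0,0),(0,1)]⟩⟩,⟨false,1,⟨8,[(1,4),
  (1,5),(4,0),(2,0),(8,0),(1,2),(10,1)]⟩,⟨1,[(0,0),(4,0),(3,0),(12,0),(13,1),(1,0)]⟩⟩,⟨false,0,⟨0,
  []⟩,⟨0,[]⟩⟩,⟨false,0,⟨0,[]⟩,⟨0,[]⟩⟩,[.a ⟨true,0,⟨0,[(35,0)]⟩,⟨1,[(32,0),(3,1),(1,0)]⟩⟩ ⟨true,0,⟨1,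
  [(22,0),(0,0)]⟩,⟨0,[]⟩⟩ ⟨false,1,⟨0,[(1,0),(33,0)]⟩,⟨1,[(0,0),(3,0),(4,0),(26,0),(1,0)]⟩⟩,.o
  ⟨false,1,⟨13,[(11,5),(18,1),(2,6),(0,1),(2,0)]⟩,⟨0,[(36,0)]⟩⟩,.o ⟨false,0,⟨0,[(7,0)]⟩,⟨3,[(1,1),
  (13,0),(0,0),(5,1),(10,0)]⟩⟩,.o ⟨false,0,⟨0,[(23,0)]⟩,⟨0,[(1,0)]⟩⟩]⟩))))))) (.R ⟨2,true,false,
  false,[0,1],[0,0,1],[0,0,1],(⟨0,[]⟩,⟨0,[]⟩),(⟨0,[(19,0)]⟩,⟨0,[(18,0)]⟩),⟨0,[]⟩,.k,.k,.k,.k,.k,.k,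
  ⟨false,1,⟨1,[(15,1),(0,1),(14,0),(0,0)]⟩,⟨0,[(0,0),(0,0),(26,0)]⟩⟩,⟨true,0,⟨0,[(16,0)]⟩,⟨0,[(1,
  0)]⟩⟩,⟨true,0,⟨0,[(30,0)]⟩,⟨0,[(29,0)]⟩⟩,⟨false,0,⟨0,[(0,0)]⟩,⟨3,[(5,1),(9,3),(15,0),(0,0)]⟩⟩,
  ⟨false,1,⟨1,[(9,0),(0,0),(21,0)]⟩,⟨0,[]⟩⟩,⟨true,0,⟨0,[(0,0),(28,0)]⟩,⟨0,[(15,0)]⟩⟩,[]⟩))

theorem ok2 : chk K t2 l4 = true := by decide +kernel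

noncomputable def t3 : Tre :=
  (.Q [0,0,0,1,1,0,1,1,0,-1,1] (.p true [0,0,1] [1] (⟨0,[(20,0)]⟩,⟨0,[(19,0)]⟩) .k 1 (⟨0,[]⟩,⟨0,
  []⟩) .k .k) (.I [0,0,-1,-1,0,0,0,-1] (.I [1,1,0,1,0,0,0,1] (.R ⟨0,false,false,false,[1,0,-1],[2,
  -1,-1],[0,0,0,-1,0,0,0,-1],(⟨0,[(22,0)]⟩,⟨0,[(23,0)]⟩),(⟨0,[(22,0),(3,0)]⟩,⟨0,[(11,0)]⟩),⟨0,[(11,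
  0)]⟩,.k,.k,.k,.k,.k,.k,⟨true,0,⟨1,[(20,0),(0,0)]⟩,⟨0,[]⟩⟩,⟨false,0,⟨2,[(13,0),(0,0),(9,0),(1,0),
  (3,0)]⟩,⟨1,[(31,0),(3,0)]⟩⟩,⟨true,0,⟨0,[(34,0)]⟩,⟨0,[(33,0)]⟩⟩,⟨false,0,⟨1,[(30,0),(3,1),(1,0)]⟩,
  ⟨13,[(9,5),(18,1),(2,6),(0,1),(2,0)]⟩⟩,⟨false,0,⟨0,[]⟩,⟨0,[]⟩⟩,⟨false,0,⟨0,[]⟩,⟨0,[]⟩⟩,[.e ⟨false,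
  0,⟨0,[(1,0)]⟩,⟨13,[(6,6),(2,2),(18,0),(3,0),(2,3)]⟩⟩ ⟨false,0,⟨8,[(1,8),(11,3),(0,3),(9,0),(1,0),
  (3,3)]⟩,⟨1,[(0,1),(30,0),(4,0)]⟩⟩,.o ⟨false,0,⟨1,[(1,1),(19,1),(8,0),(5,0)]⟩,⟨0,[(0,0),(4,0),(25,
  0)]⟩⟩,.a ⟨true,0,⟨5,[(10,2),(2,0),(0,0),(9,0),(1,0),(3,0)]⟩,⟨0,[(5,0)]⟩⟩ ⟨true,0,⟨1,[(3,1),(16,0),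
  (0,0)]⟩,⟨0,[(0,0)]⟩⟩ ⟨false,0,⟨3,[(3,3),(16,0),(0,0),(8,1),(5,1),(0,1)]⟩,⟨1,[(0,1),(30,0),(4,
  0)]⟩⟩,.o ⟨false,0,⟨0,[(21,0)]⟩,⟨0,[(2,0),(0,0)]⟩⟩]⟩) (.I [1,-1,-1,0,1,0,0,1] (.I [0,-1,1,0,0,0,0,
  -1] (.S ⟨1,0,[0,1,1,0,0,0,0,-1],[1,1,-1],[0,0,1,0,0,0,0,-1],(⟨22,[(15,2),(0,2),(7,22),(1,4),(4,5),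
  (0,2)]⟩,⟨0,[(14,0)]⟩),⟨0,[(24,0)]⟩,.k,.k,⟨true,0,⟨0,[(36,0)]⟩,⟨0,[(35,0)]⟩⟩,⟨false,0,⟨0,[(36,0)]⟩,
  ⟨3,[(11,1),(25,0),(0,0)]⟩⟩,⟨false,1,⟨1,[(15,0),(0,0),(21,0)]⟩,⟨0,[]⟩⟩,⟨true,0,⟨0,[(40,0)]⟩,⟨0,
  []⟩⟩,[.e ⟨false,0,⟨1,[(0,0),(4,0),(29,0)]⟩,⟨3,[(1,0),(6,0),(1,0),(26,1)]⟩⟩ ⟨false,0,⟨0,[(0,0),(29,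
  0)]⟩,⟨0,[(1,0)]⟩⟩,.o ⟨false,0,⟨0,[(2,0),(20,0),(10,0)]⟩,⟨1,[(20,1),(12,0),(4,0)]⟩⟩,.e ⟨false,0,⟨0,
  [(0,0)]⟩,⟨3,[(1,0),(6,0),(1,0),(26,1)]⟩⟩ ⟨false,0,⟨1,[(0,0),(20,0),(0,0)]⟩,⟨0,[(1,0)]⟩⟩,.a ⟨true,
  0,⟨5,[(12,2),(2,0),(0,0),(9,0),(1,0),(3,0)]⟩,⟨0,[(7,0)]⟩⟩ ⟨true,0,⟨1,[(0,0),(4,0),(29,0)]⟩,⟨0,[(6,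
  0)]⟩⟩ ⟨false,0,⟨1,[(0,0),(4,0),(29,0)]⟩,⟨3,[(1,0),(6,0),(1,0),(27,1)]⟩⟩]⟩) (.Q [0,1,0,-1,-1,0,-1,
  0,0,1,-1] (.p false [0,0,1] [1] (⟨0,[(25,0)]⟩,⟨0,[(24,0)]⟩) .k 1 (⟨0,[]⟩,⟨0,[]⟩) .k .k) (.R ⟨0,
  false,false,false,[1,0,-1],[0,1],[1,0,1,1],(⟨0,[(25,0)]⟩,⟨0,[(26,0)]⟩),(⟨0,[(30,0)]⟩,⟨0,[(29,
  0)]⟩),⟨0,[(14,0)]⟩,.k,.k,.k,.k,.k,.k,⟨true,0,⟨0,[]⟩,⟨1,[(23,0),(0,0)]⟩⟩,⟨false,1,⟨1,[(1,0),(0,0),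
  (0,1),(4,1),(25,0),(0,1)]⟩,⟨0,[(13,0),(9,0)]⟩⟩,⟨false,1,⟨1,[(5,1),(18,1),(8,0),(5,0)]⟩,⟨0,[(4,
  0)]⟩⟩,⟨true,1,⟨0,[(5,0)]⟩,⟨0,[(0,0),(2,0),(32,0)]⟩⟩,⟨false,0,⟨0,[]⟩,⟨0,[]⟩⟩,⟨false,0,⟨0,[]⟩,⟨0,
  []⟩⟩,[.o ⟨false,1,⟨13,[(12,5),(18,1),(2,6),(0,1),(2,0)]⟩,⟨0,[(37,0)]⟩⟩,.e ⟨false,1,⟨3,[(12,1),(25,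
  0),(0,0)]⟩,⟨4,[(1,0),(4,2),(4,1),(19,0)]⟩⟩ ⟨false,2,⟨3,[(5,3),(0,3),(5,1),(25,0),(0,0)]⟩,⟨0,[(0,
  0)]⟩⟩,.a ⟨true,0,⟨5,[(13,2),(2,0),(0,0),(9,0),(1,0),(3,0)]⟩,⟨0,[(8,0)]⟩⟩ ⟨false,1,⟨3,[(12,1),(3,
  0),(0,0),(5,0),(0,0),(14,0)]⟩,⟨0,[(1,0),(1,0)]⟩⟩ ⟨true,1,⟨2,[(5,0),(0,0),(1,1),(3,0),(21,0),(1,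
  0)]⟩,⟨0,[(0,0)]⟩⟩,.o ⟨false,0,⟨0,[(24,0)]⟩,⟨0,[(5,0),(0,0)]⟩⟩]⟩) (.I [1,1,1,1,0,0,0,1] (.R ⟨0,
  false,false,true,[1,0,-1],[0,1],[1,1,1,1],(⟨0,[(26,0)]⟩,⟨0,[(27,0)]⟩),(⟨0,[(31,0)]⟩,⟨0,[(30,0)]⟩),
  ⟨0,[(15,0)]⟩,.k,.k,.k,.k,.k,.k,⟨true,0,⟨0,[]⟩,⟨1,[(24,0),(0,0)]⟩⟩,⟨false,1,⟨0,[(1,0),(0,0),(4,
  0)]⟩,⟨0,[(14,0),(9,0)]⟩⟩,⟨true,0,⟨0,[(0,0)]⟩,⟨0,[(5,0)]⟩⟩,⟨false,1,⟨0,[(6,0)]⟩,⟨3,[(4,3),(9,1),(2,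
  0),(0,0),(15,0)]⟩⟩,⟨false,0,⟨0,[]⟩,⟨0,[]⟩⟩,⟨false,0,⟨0,[]⟩,⟨0,[]⟩⟩,[.e ⟨false,0,⟨0,[(37,0)]⟩,⟨3,
  [(11,1),(5,0),(0,0),(19,1),(1,0)]⟩⟩ ⟨false,1,⟨0,[(1,0),(30,0)]⟩,⟨1,[(2,1),(1,1),(20,1),(8,0),(5,
  0)]⟩⟩,.o ⟨false,1,⟨13,[(13,5),(18,1),(2,6),(0,1),(2,0)]⟩,⟨0,[(38,0)]⟩⟩,.a ⟨true,0,⟨5,[(14,2),(2,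
  0),(0,0),(9,0),(1,0),(3,0)]⟩,⟨0,[(9,0)]⟩⟩ ⟨true,0,⟨1,[(24,0),(0,0),(11,1)]⟩,⟨0,[(2,0),(1,0)]⟩⟩
  ⟨false,1,⟨6,[(1,4),(11,0),(10,1),(7,2),(2,0)]⟩,⟨1,[(2,1),(1,1),(20,1),(8,0),(5,0)]⟩⟩,.o ⟨false,0,
  ⟨0,[(25,0)]⟩,⟨4,[(1,2),(5,1),(3,0),(10,1),(9,0),(2,0)]⟩⟩]⟩) (.I [0,1,2,1,0,0,0,1] (.R ⟨0,false,
  false,true,[1,0,-1],[0,1],[1,0,0,0,0,0,0,-1],(⟨0,[(27,0)]⟩,⟨0,[(28,0)]⟩),(⟨0,[(32,0)]⟩,⟨0,[(31,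
  0)]⟩),⟨0,[(16,0)]⟩,.k,.k,.k,.k,.k,.k,⟨true,0,⟨0,[(1,0)]⟩,⟨0,[(0,0)]⟩⟩,⟨false,1,⟨0,[(2,0),(0,0),(4,
  0)]⟩,⟨0,[(15,0),(9,0)]⟩⟩,⟨true,0,⟨0,[]⟩,⟨11,[(0,0),(12,0),(10,1),(0,1),(7,3)]⟩⟩,⟨false,1,⟨0,[(7,
  0)]⟩,⟨3,[(5,3),(9,1),(2,0),(0,0),(15,0)]⟩⟩,⟨false,0,⟨0,[]⟩,⟨0,[]⟩⟩,⟨false,0,⟨0,[]⟩,⟨0,[]⟩⟩,[.e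
  ⟨false,0,⟨0,[(1,0),(36,0)]⟩,⟨4,[(11,1),(0,0),(0,0),(4,1),(0,1)]⟩⟩ ⟨false,1,⟨0,[(2,0),(30,0)]⟩,⟨3,
  [(1,3),(2,0),(6,0),(1,0),(12,3),(8,1)]⟩⟩,.o ⟨false,1,⟨13,[(14,5),(18,1),(2,6),(0,1),(2,0)]⟩,⟨0,
  [(39,0)]⟩⟩,.a ⟨true,0,⟨5,[(15,2),(2,0),(0,0),(9,0),(1,0),(3,0)]⟩,⟨0,[(10,0)]⟩⟩ ⟨true,0,⟨0,[(5,0),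
  (32,0)]⟩,⟨0,[(9,0)]⟩⟩ ⟨false,1,⟨6,[(2,4),(11,0),(10,1),(7,2),(2,0)]⟩,⟨3,[(1,3),(2,0),(6,0),(1,0),
  (12,3),(8,1)]⟩⟩,.o ⟨false,0,⟨0,[(26,0)]⟩,⟨4,[(2,2),(5,1),(3,0),(10,1),(9,0),(2,0)]⟩⟩]⟩) (.Q [0,1,
  0,-1,-1,0,0,0,0,1] (.pp false [-1,1]) (.R ⟨0,false,false,false,[1,0,-1],[0,1],[1,0,1,1],(⟨0,[(28,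
  0)]⟩,⟨0,[(29,0)]⟩),(⟨0,[(33,0)]⟩,⟨0,[(32,0)]⟩),⟨0,[(17,0)]⟩,.k,.k,.k,.k,.k,.k,⟨true,0,⟨0,[]⟩,⟨1,
  [(26,0),(0,0)]⟩⟩,⟨false,1,⟨8,[(1,5),(1,2),(4,3),(4,0),(10,1),(9,3),(2,0)]⟩,⟨0,[(16,0),(9,0)]⟩⟩,
  ⟨false,1,⟨3,[(3,1),(8,1),(14,1),(8,0),(5,0)]⟩,⟨0,[(7,0)]⟩⟩,⟨true,1,⟨0,[(8,0)]⟩,⟨0,[(0,0),(1,0),
  (24,0),(11,0)]⟩⟩,⟨false,0,⟨0,[]⟩,⟨0,[]⟩⟩,⟨false,0,⟨0,[]⟩,⟨0,[]⟩⟩,[.o ⟨false,1,⟨13,[(15,5),(18,1),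
  (2,6),(0,1),(2,0)]⟩,⟨0,[(40,0)]⟩⟩,.a ⟨true,1,⟨3,[(15,1),(25,0),(0,0)]⟩,⟨0,[(0,0)]⟩⟩ ⟨false,1,⟨3,
  [(15,1),(25,0),(0,0)]⟩,⟨5,[(1,0),(7,1),(4,2),(19,1)]⟩⟩ ⟨true,1,⟨0,[(3,0)]⟩,⟨0,[(0,0),(26,0)]⟩⟩,.e
  ⟨false,1,⟨3,[(15,1),(3,0),(0,0),(5,0),(0,0),(14,0)]⟩,⟨1,[(1,0),(12,0)]⟩⟩ ⟨false,1,⟨0,[(3,0)]⟩,⟨3,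
  [(0,1),(15,1),(2,0),(0,0),(19,1),(1,0)]⟩⟩,.o ⟨false,0,⟨0,[(27,0)]⟩,⟨4,[(3,2),(5,1),(3,0),(10,1),
  (9,0),(2,0)]⟩⟩]⟩) (.Q [0,0,1,0,-1,0,-2,0,0,2,-2] (.p false [0,0,1] [2,-1,-1] (⟨0,[(29,0)]⟩,⟨0,
  [(28,0)]⟩) .k 2 (⟨0,[(28,0),(3,0)]⟩,⟨0,[(17,0)]⟩) .k (.r (-1) ⟨1,[(5,0),(6,0),(1,0)]⟩ ⟨0,[(6,1),
  (32,1)]⟩)) (.R ⟨0,false,false,false,[-1,1,1],[1,0,-1],[1,0,1,1,0,0,0,1],(⟨0,[(18,0)]⟩,⟨0,[(29,0),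
  (3,0)]⟩),(⟨0,[(29,0)]⟩,⟨0,[(30,0)]⟩),⟨0,[(29,0)]⟩,.k,.k,.k,(.r (-1) ⟨0,[(13,0)]⟩ ⟨1,[(3,1),(6,0),
  (15,0),(0,0),(12,0)]⟩),.k,.k,⟨false,1,⟨5,[(1,1),(3,2),(0,0),(6,3),(23,0)]⟩,⟨1,[(3,1),(6,0),(15,0),
  (0,0),(12,0)]⟩⟩,⟨true,(-1),⟨0,[(0,0)]⟩,⟨0,[(12,1),(25,0)]⟩⟩,⟨true,0,⟨0,[]⟩,⟨0,[(45,0)]⟩⟩,⟨false,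
  (-1),⟨0,[(0,0),(2,0),(3,0),(32,0)]⟩,⟨1,[(9,1),(15,1),(12,0),(4,0)]⟩⟩,⟨false,0,⟨0,[]⟩,⟨0,[]⟩⟩,
  ⟨false,0,⟨0,[]⟩,⟨0,[]⟩⟩,[.o ⟨false,0,⟨0,[(3,0),(24,0),(11,0)]⟩,⟨1,[(25,1),(12,0),(4,0)]⟩⟩,.e
  ⟨false,1,⟨2,[(1,1),(4,0),(6,0),(23,0)]⟩,⟨8,[(10,7),(4,0),(10,1),(0,1),(7,2)]⟩⟩ ⟨false,0,⟨3,[(0,3),
  (9,3),(5,1),(25,0),(0,0)]⟩,⟨0,[(5,0),(6,1),(25,0)]⟩⟩,.a ⟨true,1,⟨4,[(4,2),(5,1),(3,0),(10,1),(9,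
  0),(2,0)]⟩,⟨0,[(0,0),(11,0)]⟩⟩ ⟨false,1,⟨7,[(0,1),(3,3),(8,3),(13,0),(0,0),(14,1)]⟩,⟨0,[(8,0)]⟩⟩
  ⟨true,(-1),⟨0,[(0,0),(6,0),(32,0)]⟩,⟨0,[(5,0),(6,1),(25,0)]⟩⟩,.o ⟨false,1,⟨0,[(12,0),(25,0)]⟩,⟨3,
  [(0,1),(19,0),(0,0),(20,0)]⟩⟩]⟩) (.Q [0,0,2,0,-1,0,-2,0,0,2,-2] (.p false [0,0,1] [2,-1,-1] (⟨0,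
  [(30,0)]⟩,⟨0,[(29,0)]⟩) .k 2 (⟨0,[(29,0),(3,0)]⟩,⟨0,[(18,0)]⟩) .k (.r (-1) ⟨1,[(6,0),(6,0),(1,
  0)]⟩ ⟨0,[(7,1),(32,1)]⟩)) (.R ⟨0,false,false,true,[1,0,-1],[-1,1,1],[0,1,1],(⟨0,[(30,0)]⟩,⟨0,[(31,
  0)]⟩),(⟨0,[(19,0)]⟩,⟨0,[(30,0),(3,0)]⟩),⟨0,[(19,0)]⟩,.k,.k,.k,(.r 0 ⟨1,[(4,1),(6,0),(15,0),(0,0),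
  (12,0)]⟩ ⟨0,[(14,0)]⟩),.k,.k,⟨false,0,⟨0,[(9,0)]⟩,⟨13,[(14,6),(2,2),(18,0),(3,0),(2,3)]⟩⟩,⟨true,1,
  ⟨0,[(1,0)]⟩,⟨0,[(0,0)]⟩⟩,⟨true,0,⟨0,[(26,0),(2,0)]⟩,⟨0,[(4,0),(36,0)]⟩⟩,⟨false,2,⟨0,[(1,0),(12,
  0)]⟩,⟨0,[(0,0),(3,1),(36,0)]⟩⟩,⟨false,0,⟨0,[]⟩,⟨0,[]⟩⟩,⟨false,0,⟨0,[]⟩,⟨0,[]⟩⟩,[.e ⟨false,0,⟨0,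
  [(46,0)]⟩,⟨1,[(43,0),(0,0)]⟩⟩ ⟨false,2,⟨15,[(1,15),(12,7),(2,3),(3,2),(0,2),(13,9),(6,0)]⟩,⟨0,[(0,
  0),(2,0)]⟩⟩,.a ⟨true,1,⟨0,[(10,0)]⟩,⟨3,[(0,1),(3,0),(4,2),(28,1),(7,0)]⟩⟩ ⟨true,0,⟨1,[(28,0),(0,
  0)]⟩,⟨0,[]⟩⟩ ⟨false,2,⟨9,[(1,8),(8,1),(3,3),(2,1),(18,0),(6,2)]⟩,⟨2,[(0,2),(2,1),(7,0),(24,0)]⟩⟩,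
  .e ⟨false,0,⟨1,[(28,0),(0,0)]⟩,⟨1,[(43,0),(0,0)]⟩⟩ ⟨false,2,⟨4,[(1,4),(12,2),(2,0),(3,0),(0,0),(4,
  0),(0,0)]⟩,⟨0,[(0,0),(2,0)]⟩⟩,.o ⟨false,0,⟨0,[(29,0)]⟩,⟨3,[(1,1),(19,0),(0,0),(20,0)]⟩⟩]⟩) (.Q [0,
  0,1,0,-1,0,0,0,1,0,0,1] (.p true [0,0,0,0,1] [] (⟨0,[(24,0)]⟩,⟨0,[(23,0)]⟩) .k 0 (⟨0,[]⟩,⟨0,[]⟩)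
  .k .k) (.K ⟨0,[0,0,0,0,1],(-1),(-1),(⟨0,[(25,0)]⟩,⟨0,[(24,0)]⟩),.k,(.r 0 ⟨5,[(4,0),(7,1),(4,2),
  (19,1)]⟩ ⟨3,[(18,1),(3,0),(0,0),(5,0),(0,0),(14,0)]⟩),(.r 0 ⟨1,[(29,0),(0,0),(11,1)]⟩ ⟨3,[(16,1),
  (5,0),(0,0),(19,1),(1,0)]⟩),.k,.k,[⟨0,[(14,0),(7,0)]⟩,⟨0,[(0,0)]⟩,⟨0,[(22,0)]⟩,⟨0,[(0,0),(36,
  0)]⟩]⟩) (.Q [0,-1,0,0,0,0,0,0,-1,1,0,-1] (.p false [0,0,0,0,1] [1] (⟨0,[(25,0)]⟩,⟨0,[(24,0)]⟩) .k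
  1 (⟨0,[]⟩,⟨0,[]⟩) .k .k) (.R ⟨2,false,false,true,[0,1],[1,0,0,0,-1],[1],(⟨0,[]⟩,⟨0,[]⟩),(⟨0,[(25,
  0)]⟩,⟨0,[(26,0)]⟩),⟨0,[]⟩,.k,.k,.k,(.r 0 ⟨1,[(30,0),(0,0),(11,1)]⟩ ⟨3,[(17,1),(5,0),(0,0),(19,1),
  (1,0)]⟩),.k,.k,⟨true,0,⟨0,[]⟩,⟨1,[(30,0),(0,0)]⟩⟩,⟨false,0,⟨0,[(0,0),(47,0)]⟩,⟨1,[(24,1),(16,0),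
  (3,0)]⟩⟩,⟨true,0,⟨1,[(5,0),(12,0)]⟩,⟨1,[(30,0),(0,0),(11,1)]⟩⟩,⟨false,0,⟨0,[(0,0),(43,0)]⟩,⟨13,
  [(19,5),(4,13),(13,1),(2,6),(0,1),(2,0)]⟩⟩,⟨false,1,⟨1,[(45,0),(0,0)]⟩,⟨1,[(30,0),(0,0)]⟩⟩,⟨false,
  0,⟨0,[(0,0)]⟩,⟨1,[(23,0),(0,2),(16,0)]⟩⟩,[.a ⟨true,0,⟨0,[(0,0),(47,0)]⟩,⟨0,[(24,0)]⟩⟩ ⟨true,0,⟨0,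
  []⟩,⟨1,[(30,0),(0,0)]⟩⟩ ⟨false,0,⟨0,[(0,0),(47,0)]⟩,⟨1,[(24,1),(16,0),(3,0)]⟩⟩,.e ⟨false,1,⟨1,
  [(45,0),(0,0)]⟩,⟨0,[(48,0)]⟩⟩ ⟨false,0,⟨0,[(0,0)]⟩,⟨3,[(23,0),(0,4),(13,1),(2,1),(3,0)]⟩⟩,.o
  ⟨false,1,⟨1,[(41,0),(3,0)]⟩,⟨1,[(30,0),(0,0)]⟩⟩,.fo]⟩) (.Q [0,0,0,0,-1,0,-2,-2,0,1,-2] (.p false
  [0,0,1] [1,0,-1] (⟨0,[(33,0)]⟩,⟨0,[(32,0)]⟩) .k 2 (⟨0,[(32,0)]⟩,⟨0,[(33,0)]⟩) .k (.r (-1) ⟨1,[(9,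
  0),(6,0),(1,0)]⟩ ⟨0,[(10,1),(32,1)]⟩)) (.R ⟨0,false,false,true,[1,0,-1],[0,0,1],[1,1,0,0,0,0,0,1],
  (⟨0,[(33,0)]⟩,⟨0,[(34,0)]⟩),(⟨0,[(34,0)]⟩,⟨0,[(33,0)]⟩),⟨0,[(22,0)]⟩,.k,.k,.k,.k,.k,.k,⟨true,0,⟨0,
  []⟩,⟨1,[(31,0),(0,0)]⟩⟩,⟨false,1,⟨5,[(4,3),(26,3),(9,0),(4,2)]⟩,⟨0,[(21,0)]⟩⟩,⟨false,1,⟨1,[(10,0),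
  (6,0),(1,0)]⟩,⟨2,[(0,1),(3,0),(2,1),(12,0),(10,1)]⟩⟩,⟨true,1,⟨7,[(4,3),(12,2),(1,2),(9,6),(1,0),
  (15,0)]⟩,⟨0,[(0,0)]⟩⟩,⟨false,0,⟨0,[]⟩,⟨0,[]⟩⟩,⟨false,0,⟨0,[]⟩,⟨0,[]⟩⟩,[.e ⟨false,0,⟨0,[(9,0)]⟩,⟨5,
  [(14,3),(5,1),(3,0),(0,0),(4,1),(0,1),(15,2)]⟩⟩ ⟨false,1,⟨3,[(4,1),(19,0),(0,0),(3,3),(16,0)]⟩,⟨1,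
  [(0,0),(20,0),(25,0)]⟩⟩,.o ⟨false,1,⟨17,[(4,7),(12,5),(1,5),(11,1),(10,0),(4,2)]⟩,⟨5,[(0,1),(29,
  1),(11,0),(4,0)]⟩⟩,.a ⟨true,0,⟨5,[(21,2),(2,0),(0,0),(9,0),(1,0),(3,0)]⟩,⟨0,[(16,0)]⟩⟩ ⟨true,0,⟨0,
  [(15,0)]⟩,⟨18,[(0,5),(3,2),(9,5),(5,2),(9,0),(0,6),(7,0)]⟩⟩ ⟨false,1,⟨7,[(4,3),(12,0),(1,0),(9,4),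
  (1,2),(15,2)]⟩,⟨1,[(0,0),(20,0),(25,0)]⟩⟩,.o ⟨false,0,⟨0,[(32,0)]⟩,⟨3,[(4,1),(19,0),(0,0),(20,
  0)]⟩⟩]⟩) (.I [0,0,0,-1,0,0,0,1] (.S ⟨1,1,[],[0,0,1],[1,1],(⟨0,[(35,0)]⟩,⟨0,[(34,0)]⟩),⟨0,[(24,
  0)]⟩,.k,.k,⟨false,0,⟨0,[(12,0),(32,0)]⟩,⟨4,[(0,0),(17,1),(0,0),(28,1)]⟩⟩,⟨true,0,⟨0,[(8,0),(24,0),
  (11,0)]⟩,⟨0,[(30,0)]⟩⟩,⟨true,0,⟨0,[(12,0),(32,1)]⟩,⟨0,[(0,0)]⟩⟩,⟨false,1,⟨4,[(6,0),(0,0),(0,0),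
  (12,2),(0,0),(8,2),(16,0)]⟩,⟨2,[(0,2),(4,0),(26,0),(9,0)]⟩⟩,[.fo,.o ⟨false,1,⟨1,[(43,0),(4,0)]⟩,
  ⟨0,[(50,0)]⟩⟩,.e ⟨false,0,⟨0,[]⟩,⟨1,[(25,0),(0,0),(21,0)]⟩⟩ ⟨false,1,⟨16,[(18,1),(0,0),(0,0),(1,
  5),(8,4),(11,2),(4,10)]⟩,⟨0,[(17,0)]⟩⟩,.a ⟨true,0,⟨0,[(32,0)]⟩,⟨0,[(29,0)]⟩⟩ ⟨true,0,⟨6,[(7,0),(2,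
  0),(29,2),(3,0)]⟩,⟨1,[(32,0),(0,0)]⟩⟩ ⟨false,1,⟨1,[(6,0),(12,0),(2,0)]⟩,⟨0,[(32,0)]⟩⟩]⟩) (.I [0,1,
  0,-1,0,0,0,2] (.R ⟨0,false,false,true,[1,0,-1],[0,-1,1],[0,1,0,-1,0,0,0,1],(⟨0,[(35,0)]⟩,⟨0,[(36,
  0)]⟩),(⟨0,[(25,0)]⟩,⟨22,[(26,2),(0,2),(7,22),(1,4),(4,5),(0,2)]⟩),⟨0,[(24,0)]⟩,.k,.k,.k,(.r 0 ⟨2,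
  [(1,3),(11,0),(18,0),(0,1),(0,0)]⟩ ⟨2,[(0,1),(18,0),(0,1)]⟩),.k,.k,⟨true,0,⟨1,[(33,0),(0,0)]⟩,⟨0,
  []⟩⟩,⟨false,1,⟨3,[(6,1),(19,0),(0,0),(5,3),(14,0)]⟩,⟨3,[(0,0),(6,0),(0,1),(14,2),(10,1),(8,0),(1,
  1)]⟩⟩,⟨true,0,⟨0,[(0,0)]⟩,⟨4,[(1,6),(11,0),(2,0),(15,0),(0,0)]⟩⟩,⟨false,1,⟨1,[(2,1),(10,0),(7,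
  0)]⟩,⟨7,[(1,9),(5,2),(1,5),(13,4),(10,5),(8,2),(1,0),(4,0)]⟩⟩,⟨false,0,⟨0,[]⟩,⟨0,[]⟩⟩,⟨false,0,⟨0,
  []⟩,⟨0,[]⟩⟩,[.e ⟨false,0,⟨2,[(0,1),(7,0),(32,0)]⟩,⟨0,[(16,0),(5,0)]⟩⟩ ⟨false,1,⟨7,[(2,5),(3,0),(9,
  5),(4,1),(4,0),(0,0),(5,1),(7,2)]⟩,⟨0,[(7,0),(0,0),(25,1),(8,0),(1,0),(4,0)]⟩⟩,.e ⟨false,1,⟨4,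
  [(19,0),(0,2),(0,2),(4,0),(0,0)]⟩,⟨0,[(1,0)]⟩⟩ ⟨false,1,⟨0,[(2,0),(13,0)]⟩,⟨0,[(1,0),(21,0)]⟩⟩,.a
  ⟨true,0,⟨5,[(23,2),(2,0),(0,0),(9,0),(1,0),(3,0)]⟩,⟨0,[(18,0)]⟩⟩ ⟨true,0,⟨0,[(21,0)]⟩,⟨0,[(1,
  0)]⟩⟩ ⟨false,1,⟨4,[(2,2),(3,0),(9,0),(9,0),(0,0),(5,1),(13,3)]⟩,⟨0,[(7,0),(0,0),(25,1),(8,0),(1,
  0),(4,0)]⟩⟩,.o ⟨false,0,⟨0,[(34,0)]⟩,⟨3,[(6,1),(19,0),(0,0),(20,0)]⟩⟩]⟩) (.Q [0,1,0,0,-1,0,-2,-1,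
  0,1,-2] (.p false [0,0,1] [1,0,-1] (⟨0,[(36,0)]⟩,⟨0,[(35,0)]⟩) .k 2 (⟨0,[(35,0)]⟩,⟨0,[(36,0)]⟩)
  .k (.r (-1) ⟨1,[(12,0),(6,0),(1,0)]⟩ ⟨1,[(0,0),(15,0),(15,0),(0,0)]⟩)) (.R ⟨0,false,false,false,
  [1,0,-1],[0,0,1],[1,0,0,0,0,0,0,1],(⟨0,[(36,0)]⟩,⟨0,[(37,0)]⟩),(⟨0,[(37,0)]⟩,⟨0,[(36,0)]⟩),⟨0,
  [(25,0)]⟩,.k,.k,.k,.k,.k,.k,⟨true,0,⟨0,[]⟩,⟨1,[(34,0),(0,0)]⟩⟩,⟨false,1,⟨5,[(7,3),(26,3),(9,0),(4,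
  2)]⟩,⟨0,[(24,0)]⟩⟩,⟨false,1,⟨0,[(3,0),(4,0),(0,0),(2,0),(22,1),(8,0),(6,0)]⟩,⟨1,[(1,0),(15,0),(15,
  0),(0,0)]⟩⟩,⟨true,1,⟨0,[(3,0)]⟩,⟨3,[(0,3),(0,0),(15,0),(15,0),(0,0)]⟩⟩,⟨false,0,⟨0,[]⟩,⟨0,[]⟩⟩,
  ⟨false,0,⟨0,[]⟩,⟨0,[]⟩⟩,[.o ⟨false,1,⟨3,[(3,1),(23,0),(0,0),(16,0)]⟩,⟨15,[(0,5),(0,1),(12,1),(18,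
  3),(11,2),(4,2)]⟩⟩,.e ⟨false,1,⟨0,[(13,0)]⟩,⟨5,[(1,0),(15,0),(15,2),(0,2),(7,1)]⟩⟩ ⟨false,2,⟨7,
  [(3,3),(3,1),(19,0),(0,0),(5,3),(14,4),(0,3)]⟩,⟨0,[(0,0)]⟩⟩,.a ⟨true,0,⟨5,[(24,2),(2,0),(0,0),(9,
  0),(1,0),(3,0)]⟩,⟨0,[(19,0)]⟩⟩ ⟨false,1,⟨3,[(13,0),(6,0),(1,0),(27,1)]⟩,⟨3,[(1,0),(15,0),(15,0),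
  (0,0)]⟩⟩ ⟨true,1,⟨7,[(3,3),(3,1),(19,0),(0,0),(5,3),(14,0)]⟩,⟨0,[(0,0)]⟩⟩,.o ⟨false,0,⟨0,[(35,
  0)]⟩,⟨3,[(7,1),(19,0),(0,0),(20,0)]⟩⟩]⟩) (.Q [0,-1,0,-1,0,0,0,0,-1,1,0,-1] (.p false [0,0,0,0,1]
  [1] (⟨0,[(30,0)]⟩,⟨0,[(29,0)]⟩) .k 1 (⟨0,[]⟩,⟨0,[]⟩) .k .k) (.R ⟨2,true,false,true,[0,1],[1,0,0,0,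
  -1],[1],(⟨0,[]⟩,⟨0,[]⟩),(⟨0,[(30,0)]⟩,⟨0,[(31,0)]⟩),⟨0,[]⟩,.k,.k,.k,(.r 0 ⟨1,[(35,0),(0,0),(11,
  1)]⟩ ⟨3,[(22,1),(5,0),(0,0),(19,1),(1,0)]⟩),.k,.k,⟨true,0,⟨0,[]⟩,⟨1,[(35,0),(0,0)]⟩⟩,⟨false,0,⟨0,
  [(0,0),(47,0)]⟩,⟨1,[(29,1),(16,0),(3,0)]⟩⟩,⟨true,0,⟨1,[(10,0),(12,0)]⟩,⟨1,[(35,0),(0,0),(11,1)]⟩⟩,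
  ⟨false,0,⟨0,[(0,0)]⟩,⟨3,[(5,1),(18,1),(4,1),(16,0),(3,0)]⟩⟩,⟨false,1,⟨1,[(50,0),(0,0)]⟩,⟨1,[(35,
  0),(0,0)]⟩⟩,⟨true,0,⟨0,[(0,0),(47,0)]⟩,⟨0,[(5,0)]⟩⟩,[]⟩) (.Q [0,1,0,0,-1,0,-1,-1,0,1,-1] (.p
  false [0,0,1] [1] (⟨0,[(38,0)]⟩,⟨0,[(37,0)]⟩) .k 1 (⟨0,[]⟩,⟨0,[]⟩) .k .k) (.R ⟨0,false,false,
  false,[1,0,-1],[0,0,1],[1,0,0,0,0,0,0,1],(⟨0,[(38,0)]⟩,⟨0,[(39,0)]⟩),(⟨0,[(39,0)]⟩,⟨0,[(38,0)]⟩),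
  ⟨0,[(27,0)]⟩,.k,.k,.k,.k,.k,.k,⟨true,0,⟨0,[]⟩,⟨1,[(36,0),(0,0)]⟩⟩,⟨false,1,⟨5,[(9,3),(26,3),(9,0),
  (4,2)]⟩,⟨0,[(26,0)]⟩⟩,⟨false,1,⟨3,[(2,3),(7,1),(0,1),(2,5),(22,7),(8,2),(5,0),(0,1)]⟩,⟨1,[(3,0),
  (15,0),(15,0),(0,0)]⟩⟩,⟨true,1,⟨0,[(5,0)]⟩,⟨4,[(0,5),(2,0),(8,0),(13,0),(8,0),(1,0),(9,0)]⟩⟩,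
  ⟨false,0,⟨0,[]⟩,⟨0,[]⟩⟩,⟨false,0,⟨0,[]⟩,⟨0,[]⟩⟩,[.o ⟨false,1,⟨3,[(5,1),(23,0),(0,0),(16,0)]⟩,⟨4,
  [(0,0),(2,0),(8,0),(13,0),(8,0),(1,0),(9,0)]⟩⟩,.a ⟨true,1,⟨5,[(2,1),(19,1),(0,1),(12,1),(9,0),(5,
  0)]⟩,⟨0,[(0,0)]⟩⟩ ⟨false,1,⟨0,[(15,0)]⟩,⟨5,[(3,0),(15,0),(15,2),(0,2),(7,1)]⟩⟩ ⟨true,1,⟨0,[(2,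
  0)]⟩,⟨0,[(0,0),(36,0)]⟩⟩,.e ⟨false,1,⟨3,[(15,0),(6,0),(1,0),(27,1)]⟩,⟨3,[(3,0),(15,0),(15,0),(0,
  0)]⟩⟩ ⟨false,1,⟨0,[(2,0)]⟩,⟨8,[(0,0),(2,0),(12,0),(9,5),(8,4),(10,0),(5,1)]⟩⟩,.o ⟨false,0,⟨0,[(37,
  0)]⟩,⟨3,[(9,1),(19,0),(0,0),(20,0)]⟩⟩]⟩) (.Q [0,0,0,0,0,0,0,0,-1,1,0,-1] (.p false [0,0,0,0,1]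
  [1] (⟨0,[(32,0)]⟩,⟨0,[(31,0)]⟩) .k 1 (⟨0,[]⟩,⟨0,[]⟩) .k .k) (.Q [0,0,0,0,0,1,0,0,0,-1,0,1] (.ed
  false [0,1,0,0,1] .k) (.R ⟨0,false,false,false,[-1,1,0,0,1],[0,0,0,0,1],[1,1],(⟨0,[(0,0)]⟩,⟨0,
  [(33,0),(10,0)]⟩),(⟨0,[(34,0)]⟩,⟨0,[(33,0)]⟩),⟨0,[(33,0)]⟩,(.r 0 ⟨1,[(38,0),(0,0),(11,1)]⟩ ⟨3,
  [(25,1),(5,0),(0,0),(19,1),(1,0)]⟩),.k,.k,.k,.k,.k,⟨true,0,⟨0,[]⟩,⟨1,[(38,0),(0,0)]⟩⟩,⟨false,0,⟨2,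
  [(31,0),(0,0),(9,0),(1,0),(3,0)]⟩,⟨1,[(49,0),(3,0)]⟩⟩,⟨true,0,⟨1,[(13,0),(12,0)]⟩,⟨1,[(38,0),(0,
  0),(11,1)]⟩⟩,⟨false,0,⟨1,[(48,0),(3,1),(1,0)]⟩,⟨13,[(27,5),(18,1),(2,6),(0,1),(2,0)]⟩⟩,⟨false,0,
  ⟨0,[]⟩,⟨0,[]⟩⟩,⟨false,0,⟨0,[]⟩,⟨0,[]⟩⟩,[.o ⟨false,0,⟨0,[(8,0)]⟩,⟨1,[(1,1),(47,0),(4,0)]⟩⟩,.a
  ⟨true,0,⟨0,[(32,0)]⟩,⟨0,[(1,0)]⟩⟩ ⟨true,0,⟨0,[]⟩,⟨1,[(38,0),(0,0)]⟩⟩ ⟨false,0,⟨2,[(31,0),(0,0),(9,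
  0),(1,0),(3,0)]⟩,⟨1,[(49,0),(3,0)]⟩⟩,.o ⟨false,1,⟨2,[(3,0),(4,0),(4,0),(3,0),(14,0),(16,1)]⟩,⟨1,
  [(1,1),(36,0),(0,0)]⟩⟩,.o ⟨false,1,⟨0,[(32,0),(16,0)]⟩,⟨0,[(1,0)]⟩⟩]⟩) (.S ⟨1,0,[0,-1,0,-1],[1,0,
  0,0,-1],[1],(⟨0,[(33,0)]⟩,⟨0,[(34,0)]⟩),⟨0,[(0,0)]⟩,.k,(.r (-1) ⟨3,[(25,1),(5,0),(0,0),(19,1),(1,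
  0)]⟩ ⟨1,[(38,0),(0,0),(11,1)]⟩),⟨false,0,⟨0,[]⟩,⟨1,[(31,0),(0,0),(21,0)]⟩⟩,⟨true,0,⟨0,[(52,0)]⟩,
  ⟨0,[(51,0)]⟩⟩,⟨true,0,⟨0,[(51,0)]⟩,⟨0,[(52,0)]⟩⟩,⟨false,1,⟨1,[(31,0),(0,0),(21,0)]⟩,⟨0,[]⟩⟩,[.o
  ⟨false,1,⟨1,[(1,0),(0,0),(11,0),(16,0),(7,0),(12,0)]⟩,⟨0,[(3,0)]⟩⟩,.o ⟨false,1,⟨0,[(1,0),(0,0),
  (11,0),(24,0)]⟩,⟨0,[(3,0),(52,0)]⟩⟩,.a ⟨true,0,⟨0,[(1,0)]⟩,⟨0,[(32,0)]⟩⟩ ⟨true,0,⟨0,[]⟩,⟨0,[(56,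
  0)]⟩⟩ ⟨false,1,⟨0,[(52,0),(1,0)]⟩,⟨0,[(51,0)]⟩⟩,.e ⟨false,1,⟨1,[(53,0),(0,0)]⟩,⟨1,[(38,0),(0,
  0)]⟩⟩ ⟨false,1,⟨2,[(14,1),(2,0),(8,0),(27,1)]⟩,⟨1,[(38,0),(0,0),(11,1)]⟩⟩]⟩)) (.Q [0,0,0,0,0,1,0,
  0,0,-1,0,1] (.ed false [0,1,0,0,1] .k) (.Q [0,0,0,1,1,0,0,0,-1,0,0,-1] (.p false [0,0,0,0,1] []
  (⟨0,[(34,0)]⟩,⟨0,[(33,0)]⟩) .k 0 (⟨0,[]⟩,⟨0,[]⟩) .k .k) (.R ⟨0,false,false,false,[-1,1,0,0,1],[0,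
  0,0,0,1],[1,1],(⟨0,[(1,0)]⟩,⟨0,[(34,0),(10,0)]⟩),(⟨0,[(35,0)]⟩,⟨0,[(34,0)]⟩),⟨0,[(34,0)]⟩,(.r 0
  ⟨1,[(39,0),(0,0),(11,1)]⟩ ⟨3,[(26,1),(5,0),(0,0),(19,1),(1,0)]⟩),.k,.k,.k,.k,.k,⟨true,0,⟨0,[]⟩,⟨1,
  [(39,0),(0,0)]⟩⟩,⟨false,0,⟨2,[(32,0),(0,0),(9,0),(1,0),(3,0)]⟩,⟨1,[(50,0),(3,0)]⟩⟩,⟨true,0,⟨1,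
  [(14,0),(12,0)]⟩,⟨1,[(39,0),(0,0),(11,1)]⟩⟩,⟨false,0,⟨1,[(49,0),(3,1),(1,0)]⟩,⟨7,[(0,1),(3,1),(23,
  1),(21,2),(3,0)]⟩⟩,⟨false,0,⟨0,[]⟩,⟨0,[]⟩⟩,⟨false,0,⟨0,[]⟩,⟨0,[]⟩⟩,[.e ⟨false,0,⟨6,[(14,0),(2,0),
  (29,2),(3,0)]⟩,⟨1,[(32,0),(0,0),(21,0)]⟩⟩ ⟨false,0,⟨35,[(25,0),(1,0),(4,16),(0,16),(4,2),(0,2),(7,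
  3),(1,17),(7,23)]⟩,⟨2,[(13,0),(0,0),(3,0),(31,0)]⟩⟩,.o ⟨false,0,⟨0,[(2,0)]⟩,⟨0,[(32,0)]⟩⟩,.e
  ⟨false,0,⟨0,[]⟩,⟨1,[(32,0),(0,0),(21,0)]⟩⟩ ⟨false,0,⟨5,[(29,2),(2,0),(0,0),(5,5),(3,0),(1,0),(3,
  0)]⟩,⟨2,[(13,0),(0,0),(3,0),(31,0)]⟩⟩,.a ⟨true,0,⟨0,[(2,0)]⟩,⟨2,[(0,0),(9,1),(4,0),(1,0),(31,2),
  (6,3)]⟩⟩ ⟨true,0,⟨6,[(14,0),(2,0),(29,2),(3,0)]⟩,⟨1,[(39,0),(0,0)]⟩⟩ ⟨false,0,⟨2,[(32,0),(0,0),(9,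
  0),(1,0),(3,0)]⟩,⟨1,[(50,0),(4,0)]⟩⟩]⟩) (.R ⟨0,false,false,true,[1,0,-1],[2,0,-1,0,-1],[1,0,0,0,0,
  0,0,-1],(⟨0,[(41,0)]⟩,⟨0,[(42,0)]⟩),(⟨0,[(34,0),(6,0)]⟩,⟨0,[(1,0),(29,0)]⟩),⟨0,[(30,0)]⟩,.k,.k,.k,
  .k,.k,.k,⟨true,0,⟨0,[]⟩,⟨1,[(39,0),(0,0)]⟩⟩,⟨false,1,⟨7,[(10,1),(21,5),(10,1),(1,1),(3,2),(4,2)]⟩,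
  ⟨0,[(2,0)]⟩⟩,⟨true,0,⟨0,[]⟩,⟨0,[(57,0)]⟩⟩,⟨false,1,⟨1,[(10,0),(21,0),(16,0),(5,0),(0,0)]⟩,⟨0,[(2,
  0)]⟩⟩,⟨false,0,⟨0,[]⟩,⟨0,[]⟩⟩,⟨false,0,⟨0,[]⟩,⟨0,[]⟩⟩,[.e ⟨false,0,⟨2,[(6,0),(7,0),(32,0)]⟩,⟨4,
  [(25,1),(0,0),(0,0),(4,1),(0,1)]⟩⟩ ⟨false,1,⟨32,[(6,4),(13,22),(7,8),(3,32),(10,2),(1,2),(1,6),(1,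
  14),(4,5)]⟩,⟨1,[(0,1),(12,0),(3,0),(3,0),(18,0)]⟩⟩,.e ⟨false,1,⟨3,[(22,3),(5,1),(25,0),(0,0)]⟩,⟨0,
  [(23,0)]⟩⟩ ⟨false,1,⟨17,[(6,7),(3,3),(4,1),(10,5),(5,13),(10,3),(1,3),(3,6),(5,0)]⟩,⟨0,[(2,0),(20,
  0)]⟩⟩,.a ⟨true,0,⟨5,[(29,2),(2,0),(0,0),(9,0),(1,0),(3,0)]⟩,⟨0,[(24,0)]⟩⟩ ⟨true,0,⟨3,[(6,0),(15,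
  0),(15,0),(0,0)]⟩,⟨0,[(23,0)]⟩⟩ ⟨false,1,⟨21,[(6,5),(12,1),(0,3),(11,21),(5,3),(0,3),(3,3),(1,3),
  (3,8),(5,8)]⟩,⟨1,[(0,1),(12,0),(3,0),(3,0),(18,0)]⟩⟩,.o ⟨false,0,⟨0,[(40,0)]⟩,⟨3,[(12,1),(19,0),
  (0,0),(20,0)]⟩⟩]⟩)) (.Q [0,1,0,0,-1,0,0,0,1,0,0,1] (.p true [0,0,0,0,1] [] (⟨0,[(34,0)]⟩,⟨0,[(33,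
  0)]⟩) .k 0 (⟨0,[]⟩,⟨0,[]⟩) .k .k) (.S ⟨1,0,[0,2,1],[0,1,0,0,1],[0,1,1],(⟨22,[(32,2),(0,2),(1,22),
  (7,4),(4,5),(0,2)]⟩,⟨0,[(1,0)]⟩),⟨0,[(35,0)]⟩,(.r 0 ⟨1,[(39,0),(0,0),(11,1)]⟩ ⟨3,[(26,1),(5,0),(0,
  0),(19,1),(1,0)]⟩),.k,⟨true,0,⟨0,[(53,0)]⟩,⟨0,[(52,0)]⟩⟩,⟨false,0,⟨0,[(53,0)]⟩,⟨3,[(28,1),(25,0),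
  (0,0)]⟩⟩,⟨false,1,⟨1,[(32,0),(0,0),(21,0)]⟩,⟨0,[]⟩⟩,⟨true,0,⟨0,[(57,0)]⟩,⟨0,[]⟩⟩,[.e ⟨false,0,⟨0,
  [(57,0)]⟩,⟨1,[(54,0),(0,0)]⟩⟩ ⟨false,0,⟨0,[(57,1)]⟩,⟨5,[(13,1),(0,1),(3,1),(30,0),(5,2)]⟩⟩,.a
  ⟨true,(-1),⟨0,[(0,0)]⟩,⟨1,[(10,0),(21,0),(16,0),(5,0),(0,0)]⟩⟩ ⟨true,0,⟨1,[(39,0),(0,0)]⟩,⟨0,[]⟩⟩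
  ⟨false,0,⟨0,[(57,0)]⟩,⟨1,[(54,0),(0,0)]⟩⟩,.o ⟨false,0,⟨2,[(0,0),(1,1),(10,0),(0,0),(2,0)]⟩,⟨1,
  [(32,1),(6,0),(0,0)]⟩⟩,.o ⟨false,0,⟨0,[(2,0)]⟩,⟨0,[(32,0)]⟩⟩]⟩) (.Q [0,0,0,0,0,0,0,0,0,1,-1,-1]
  (.ed true [0,0,1,0,1] (.r 0 ⟨0,[(23,0)]⟩ ⟨5,[(22,3),(5,1),(3,0),(0,0),(4,1),(0,1),(15,2)]⟩)) (.R
  ⟨0,false,false,true,[1,0,-1],[1,0,-1,0,-1],[1,0,0,0,0,0,0,-1],(⟨0,[(42,0)]⟩,⟨0,[(43,0)]⟩),(⟨0,[(0,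
  0)]⟩,⟨0,[(36,0),(6,0)]⟩),⟨0,[(31,0)]⟩,.k,.k,.k,.k,.k,.k,⟨true,0,⟨0,[]⟩,⟨1,[(40,0),(0,0)]⟩⟩,⟨false,
  1,⟨0,[(11,0)]⟩,⟨0,[(34,0)]⟩⟩,⟨true,0,⟨0,[]⟩,⟨0,[(58,0)]⟩⟩,⟨false,1,⟨0,[(1,0)]⟩,⟨0,[(34,0)]⟩⟩,
  ⟨false,0,⟨0,[]⟩,⟨0,[]⟩⟩,⟨false,0,⟨0,[]⟩,⟨0,[]⟩⟩,[.e ⟨false,0,⟨2,[(7,0),(7,0),(32,0)]⟩,⟨4,[(26,1),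
  (0,0),(0,0),(4,1),(0,1)]⟩⟩ ⟨false,1,⟨5,[(7,1),(3,2),(11,1),(9,2),(14,0)]⟩,⟨1,[(3,1),(12,0),(7,0),
  (1,0),(23,0)]⟩⟩,.o ⟨false,1,⟨3,[(1,2),(5,0),(3,0),(3,0),(23,0),(1,2)]⟩,⟨0,[(3,0),(34,0)]⟩⟩,.a
  ⟨true,0,⟨5,[(30,2),(2,0),(0,0),(9,0),(1,0),(3,0)]⟩,⟨0,[(25,0)]⟩⟩ ⟨true,0,⟨3,[(7,0),(15,0),(15,0),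
  (0,0)]⟩,⟨0,[(24,0)]⟩⟩ ⟨false,1,⟨2,[(1,0),(5,0),(12,0),(12,1)]⟩,⟨1,[(3,1),(12,0),(7,0),(1,0),(23,
  0)]⟩⟩,.o ⟨false,0,⟨0,[(41,0)]⟩,⟨3,[(13,1),(19,0),(0,0),(20,0)]⟩⟩]⟩) (.R ⟨1,false,false,true,[2,0,
  -1,0,-1],[1,0,0,0,-1],[1],(⟨0,[(35,0),(6,0)]⟩,⟨0,[(0,0)]⟩),(⟨0,[(35,0)]⟩,⟨0,[(36,0)]⟩),⟨0,[(2,0),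
  (39,0)]⟩,.k,.k,(.r 0 ⟨0,[(16,0)]⟩ ⟨14,[(26,10),(2,1),(3,1),(0,1),(4,6),(0,6),(7,4)]⟩),.k,.k,.k,
  ⟨true,0,⟨0,[]⟩,⟨1,[(40,0),(0,0)]⟩⟩,⟨false,1,⟨3,[(13,1),(19,0),(0,0),(20,0)]⟩,⟨5,[(30,2),(2,0),(0,
  0),(9,0),(1,0),(3,0)]⟩⟩,⟨true,0,⟨0,[(24,0)]⟩,⟨3,[(7,0),(15,0),(15,0),(0,0)]⟩⟩,⟨false,1,⟨3,[(9,1),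
  (23,0),(0,0),(16,0)]⟩,⟨32,[(7,9),(12,9),(9,14),(8,2),(4,1),(1,1),(3,7),(5,7)]⟩⟩,⟨false,1,⟨13,[(26,
  6),(2,2),(18,0),(3,0),(2,3)]⟩,⟨0,[(20,0)]⟩⟩,⟨false,1,⟨0,[(22,0)]⟩,⟨3,[(20,3),(9,1),(2,0),(0,0),
  (15,0)]⟩⟩,[.o ⟨false,1,⟨0,[(33,0)]⟩,⟨0,[(3,0)]⟩⟩,.o ⟨false,1,⟨0,[(1,0)]⟩,⟨0,[(10,0)]⟩⟩,.a ⟨true,0,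
  ⟨4,[(1,4),(14,2),(7,2),(16,4),(8,4),(1,2),(4,0),(0,1)]⟩,⟨0,[(3,0),(21,0)]⟩⟩ ⟨true,0,⟨0,[]⟩,⟨0,
  [(58,0)]⟩⟩ ⟨false,1,⟨5,[(13,1),(26,1),(10,0),(4,2)]⟩,⟨5,[(30,2),(2,0),(0,0),(9,0),(1,0),(3,0)]⟩⟩,
  .e ⟨false,1,⟨1,[(55,0),(0,0)]⟩,⟨1,[(40,0),(0,0)]⟩⟩ ⟨false,1,⟨1,[(12,0),(43,0)]⟩,⟨0,[(30,0),(9,
  0)]⟩⟩]⟩)))))))))))))))))))) (.S ⟨1,0,[0,0,1,0,0,0,0,-1],[1,1,-1],[0,1,1,0,0,0,0,-1],(⟨22,[(14,2),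
  (0,2),(7,22),(1,4),(4,5),(0,2)]⟩,⟨0,[(13,0)]⟩),⟨0,[(23,0)]⟩,.k,.k,⟨false,0,⟨0,[(35,0)]⟩,⟨3,[(10,
  1),(25,0),(0,0)]⟩⟩,⟨true,0,⟨0,[(35,0)]⟩,⟨0,[(34,0)]⟩⟩,⟨true,0,⟨11,[(0,0),(6,0),(1,0),(10,1),(0,1),
  (7,3)]⟩,⟨0,[]⟩⟩,⟨false,1,⟨1,[(14,0),(0,0),(21,0)]⟩,⟨0,[]⟩⟩,[.o ⟨false,0,⟨3,[(0,1),(0,1),(9,1),(20,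
  0),(0,1),(3,0)]⟩,⟨1,[(19,1),(12,0),(4,0)]⟩⟩,.a ⟨true,0,⟨0,[(0,0),(17,0),(18,0)]⟩,⟨0,[(19,0)]⟩⟩
  ⟨false,0,⟨2,[(0,0),(3,1),(5,0)]⟩,⟨2,[(5,0),(1,0),(0,0),(27,0)]⟩⟩ ⟨true,0,⟨0,[(0,0),(36,0)]⟩,⟨0,
  [(5,0)]⟩⟩,.a ⟨true,0,⟨0,[(18,0)]⟩,⟨0,[(21,0)]⟩⟩ ⟨true,(-1),⟨0,[(0,0)]⟩,⟨2,[(5,0),(1,0),(0,0),(27,
  0)]⟩⟩ ⟨false,0,⟨0,[(0,0),(36,0)]⟩,⟨2,[(5,0),(1,0),(0,0),(27,0)]⟩⟩,.a ⟨true,0,⟨5,[(11,2),(2,0),(0,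
  0),(9,0),(1,0),(3,0)]⟩,⟨0,[(6,0)]⟩⟩ ⟨false,0,⟨2,[(0,0),(3,1),(5,0)]⟩,⟨0,[(5,0),(31,0)]⟩⟩ ⟨true,0,
  ⟨2,[(0,0),(3,1),(5,0)]⟩,⟨0,[(5,0)]⟩⟩]⟩))) (.N [0,1,1] 0 ⟨0,[(0,0)]⟩ ⟨0,[(2,0)]⟩ .k)) (.R ⟨2,true,
  false,false,[0,1],[1,0,-1],[0,0,1,0,0,0,0,-1],(⟨0,[]⟩,⟨0,[]⟩),(⟨0,[(20,0)]⟩,⟨0,[(21,0)]⟩),⟨0,[]⟩,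
  .k,.k,.k,.k,.k,.k,⟨true,0,⟨1,[(18,0),(0,0)]⟩,⟨0,[]⟩⟩,⟨false,0,⟨5,[(8,2),(2,0),(0,0),(9,0),(1,0),
  (3,0)]⟩,⟨1,[(3,1),(25,0),(3,0)]⟩⟩,⟨false,0,⟨1,[(0,1),(2,1),(25,0),(4,0)]⟩,⟨13,[(4,6),(2,2),(18,0),
  (3,0),(2,3)]⟩⟩,⟨true,(-1),⟨0,[(0,0)]⟩,⟨13,[(7,5),(8,13),(9,1),(2,6),(0,1),(2,0)]⟩⟩,⟨true,0,⟨2,[(0,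
  1),(0,0),(1,1),(3,0),(21,0),(1,0)]⟩,⟨0,[(2,0)]⟩⟩,⟨false,0,⟨3,[(0,2),(0,0),(5,1),(7,0),(18,0)]⟩,⟨1,
  [(16,1),(12,0),(4,0)]⟩⟩,[]⟩))

theorem ok3 : chk K t3 l6 = true := by decide +kernel

noncomputable def t4 : Tre :=
  (.I [0,0,0,-1,0,0,0,1] (.S ⟨1,0,[0,1,0,-1,0,0,0,1],[0,0,1],[0,0,0,-1,0,0,0,1],(⟨0,[(23,0)]⟩,⟨0,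
  [(22,0)]⟩),⟨0,[(12,0)]⟩,.k,.k,⟨true,0,⟨0,[(34,0)]⟩,⟨0,[(33,0)]⟩⟩,⟨false,0,⟨0,[(34,0)]⟩,⟨3,[(9,1),
  (25,0),(0,0)]⟩⟩,⟨false,1,⟨1,[(13,0),(0,0),(21,0)]⟩,⟨0,[]⟩⟩,⟨true,0,⟨0,[(38,0)]⟩,⟨0,[]⟩⟩,[.o
  ⟨false,0,⟨0,[(2,0),(31,0)]⟩,⟨3,[(1,1),(8,1),(20,0),(0,1),(3,2)]⟩⟩,.a ⟨true,0,⟨0,[(0,0),(4,0)]⟩,⟨2,
  [(1,1),(1,0),(13,2)]⟩⟩ ⟨false,1,⟨4,[(0,2),(5,0),(0,2),(28,0)]⟩,⟨3,[(1,1),(26,0),(3,0),(0,0)]⟩⟩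
  ⟨true,0,⟨0,[(0,0)]⟩,⟨2,[(1,1),(1,0)]⟩⟩,.a ⟨true,0,⟨0,[(5,0)]⟩,⟨5,[(10,2),(2,0),(0,0),(9,0),(1,0),
  (3,0)]⟩⟩ ⟨true,0,⟨0,[(0,0)]⟩,⟨3,[(1,1),(26,0),(3,0),(0,0)]⟩⟩ ⟨false,0,⟨0,[(0,0)]⟩,⟨7,[(1,3),(7,1),
  (25,2),(0,2)]⟩⟩,.a ⟨true,0,⟨0,[(20,0)]⟩,⟨0,[(17,0)]⟩⟩ ⟨false,1,⟨4,[(0,2),(5,0),(0,2),(28,0)]⟩,⟨2,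
  [(1,1),(1,0)]⟩⟩ ⟨true,0,⟨0,[(2,0),(14,0),(16,0)]⟩,⟨2,[(1,1),(1,0)]⟩⟩]⟩) (.R ⟨0,false,false,true,
  [1,0,-1],[1,-1],[0,1],(⟨0,[(22,0)]⟩,⟨0,[(23,0)]⟩),(⟨0,[(26,0)]⟩,⟨0,[(27,0)]⟩),⟨0,[(11,0)]⟩,.k,.k,
  .k,.k,.k,.k,⟨true,0,⟨2,[(1,0),(1,1)]⟩,⟨0,[(34,0)]⟩⟩,⟨false,0,⟨0,[(5,0)]⟩,⟨11,[(6,1),(0,1),(2,3),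
  (8,3),(11,1),(3,4),(0,0)]⟩⟩,⟨true,0,⟨0,[(4,0)]⟩,⟨0,[(0,0),(33,0)]⟩⟩,⟨false,0,⟨1,[(2,1),(27,0),(3,
  1),(1,0)]⟩,⟨15,[(0,7),(0,3),(7,1),(0,7),(20,3),(3,2),(0,6)]⟩⟩,⟨false,0,⟨0,[]⟩,⟨0,[]⟩⟩,⟨false,0,⟨0,
  []⟩,⟨0,[]⟩⟩,[.e ⟨false,0,⟨0,[(32,0),(1,0)]⟩,⟨1,[(13,0),(0,0),(21,0)]⟩⟩ ⟨false,0,⟨2,[(0,1),(1,1),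
  (2,0),(1,0),(20,0),(1,0),(3,3)]⟩,⟨11,[(0,1),(2,1),(5,1),(0,5),(20,2),(0,3),(3,6)]⟩⟩,.o ⟨false,0,
  ⟨0,[(34,0)]⟩,⟨13,[(9,5),(18,1),(2,6),(0,1),(2,0)]⟩⟩,.a ⟨true,0,⟨5,[(10,2),(2,0),(0,0),(9,0),(1,0),
  (3,0)]⟩,⟨0,[(5,0)]⟩⟩ ⟨true,0,⟨0,[(38,0)]⟩,⟨0,[]⟩⟩ ⟨false,0,⟨0,[(5,0),(28,0)]⟩,⟨11,[(0,1),(2,1),(5,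
  1),(0,5),(20,2),(0,3),(3,6)]⟩⟩,.o ⟨false,0,⟨0,[(21,0)]⟩,⟨1,[(5,1),(25,0),(3,0)]⟩⟩]⟩))

theorem ok4 : chk K t4 l8 = true := by decide +kernel

noncomputable def t5 : Tre :=
  (.Q [0,0,0,0,0,0,2,2,0,-1,2] (.p true [0,0,1] [1,0,-1] (⟨0,[(22,0)]⟩,⟨0,[(21,0)]⟩) .k 2 (⟨0,[(21,
  0)]⟩,⟨0,[(22,0)]⟩) .k (.r 0 ⟨2,[(0,1),(1,1)]⟩ ⟨0,[(4,1),(13,1),(16,0)]⟩)) (.I [0,1,0,-1,-1,0,0,1]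
  (.S ⟨1,1,[],[0,0,1],[1,1],(⟨0,[(24,0)]⟩,⟨0,[(23,0)]⟩),⟨0,[(13,0)]⟩,.k,.k,⟨true,0,⟨0,[(6,0),(13,
  0)]⟩,⟨2,[(2,0),(1,0)]⟩⟩,⟨false,1,⟨0,[(20,0),(16,0)]⟩,⟨21,[(1,7),(17,5),(5,1),(1,1),(3,2),(5,2)]⟩⟩,
  ⟨false,1,⟨3,[(6,3),(3,1),(9,3),(15,0),(0,0)]⟩,⟨0,[(0,0),(36,0)]⟩⟩,⟨true,1,⟨3,[(10,1),(9,3),(15,0),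
  (0,0)]⟩,⟨0,[(0,0),(5,0)]⟩⟩,[.fo,.o ⟨false,1,⟨1,[(32,0),(4,0)]⟩,⟨0,[(39,0)]⟩⟩,.e ⟨false,0,⟨0,[]⟩,
  ⟨1,[(14,0),(0,0),(21,0)]⟩⟩ ⟨false,1,⟨16,[(7,1),(0,0),(0,0),(1,5),(8,4),(11,2),(4,10)]⟩,⟨0,[(6,
  0)]⟩⟩,.a ⟨true,0,⟨0,[(21,0)]⟩,⟨0,[(18,0)]⟩⟩ ⟨true,0,⟨4,[(0,0),(5,0),(1,0),(11,0),(8,0),(3,1)]⟩,⟨1,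
  [(21,0),(0,0)]⟩⟩ ⟨false,1,⟨1,[(18,1),(13,0),(4,0)]⟩,⟨0,[(21,0)]⟩⟩]⟩) (.I [1,0,-1,0,0,0,0,1] (.Q
  [0,1,0,-1,-1,0,-1,-1,0,2,-1] (.p false [-1,1,1] [1] (⟨0,[(13,0)]⟩,⟨0,[(24,0),(3,0)]⟩) .k 1 (⟨0,
  []⟩,⟨0,[]⟩) .k .k) (.Q [0,-1,0,-1,0,0,-1,0,0,1,-1] (.p false [0,0,1] [1] (⟨0,[(26,0)]⟩,⟨0,[(25,
  0)]⟩) .k 1 (⟨0,[]⟩,⟨0,[]⟩) .k .k) (.I [1,-1,1,0,0,0,0,1] (.Q [0,0,0,0,0,0,-2,-1,0,1,-2] (.p false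
  [0,0,1] [1,0,-1] (⟨0,[(28,0)]⟩,⟨0,[(27,0)]⟩) .k 2 (⟨0,[(27,0)]⟩,⟨0,[(28,0)]⟩) .k (.r 0 ⟨2,[(6,1),
  (1,1)]⟩ ⟨0,[(2,0),(1,0),(5,0),(25,0)]⟩)) (.R ⟨0,false,false,false,[1,0,-1],[0,0,1],[0,1],(⟨0,[(28,
  0)]⟩,⟨0,[(29,0)]⟩),(⟨0,[(29,0)]⟩,⟨0,[(28,0)]⟩),⟨0,[(17,0)]⟩,.k,.k,.k,.k,.k,.k,⟨true,0,⟨0,[(11,0),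
  (13,0)]⟩,⟨0,[(1,0)]⟩⟩,⟨false,1,⟨1,[(11,3),(25,0),(3,0)]⟩,⟨0,[(16,0)]⟩⟩,⟨false,0,⟨2,[(7,0),(1,0)]⟩,
  ⟨0,[(5,0),(34,0)]⟩⟩,⟨true,0,⟨0,[(6,0)]⟩,⟨2,[(0,0),(2,0),(1,0),(19,2)]⟩⟩,⟨false,0,⟨0,[]⟩,⟨0,[]⟩⟩,
  ⟨false,0,⟨0,[]⟩,⟨0,[]⟩⟩,[.e ⟨false,0,⟨0,[(38,0),(1,0)]⟩,⟨1,[(19,0),(0,0),(21,0)]⟩⟩ ⟨false,1,⟨9,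
  [(5,1),(0,3),(4,7),(1,1),(10,3),(12,2),(3,2)]⟩,⟨0,[(0,0)]⟩⟩,.o ⟨false,1,⟨2,[(6,0),(17,0),(12,0),
  (4,1)]⟩,⟨0,[(25,0)]⟩⟩,.a ⟨true,0,⟨18,[(0,2),(1,1),(0,2),(8,2),(2,0),(0,1),(6,3),(12,0)]⟩,⟨0,[(11,
  0)]⟩⟩ ⟨true,0,⟨0,[(44,0)]⟩,⟨0,[]⟩⟩ ⟨false,1,⟨5,[(5,1),(0,3),(6,1),(12,3),(10,0),(4,0)]⟩,⟨0,[(0,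
  0)]⟩⟩,.o ⟨false,0,⟨0,[(27,0)]⟩,⟨1,[(11,1),(25,0),(3,0)]⟩⟩]⟩) (.I [1,0,1,1] (.Q [0,0,-1,0,1,0,2,0,
  0,-2,2] (.p true [0,0,1] [2,-1,-1] (⟨0,[(30,0)]⟩,⟨0,[(29,0)]⟩) .k 2 (⟨0,[(29,0),(3,0)]⟩,⟨0,[(18,
  0)]⟩) .k (.r 0 ⟨2,[(8,1),(1,1)]⟩ ⟨0,[(4,0),(1,0),(5,0),(25,0)]⟩)) (.K ⟨0,[2,-1,-1],(-1),(-1),(⟨0,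
  [(30,0),(3,0)]⟩,⟨0,[(19,0)]⟩),.k,(.r (-1) ⟨8,[(0,3),(4,7),(1,0),(7,6),(5,0),(0,0),(16,3),(2,3)]⟩
  ⟨0,[(1,0),(9,0)]⟩),.k,(.r (-1) ⟨2,[(0,2),(3,1),(0,2),(1,1),(19,0),(11,0)]⟩ ⟨2,[(9,0),(1,3)]⟩),.k,
  [⟨0,[(0,0)]⟩,⟨0,[(1,0),(1,0),(1,0)]⟩,⟨4,[(0,0),(7,0),(1,0),(3,0),(24,2),(1,3)]⟩,⟨0,[(5,0)]⟩]⟩)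
  (.I [0,0,1,1] (.R ⟨0,false,false,false,[1,0,-1],[1,-1],[],(⟨0,[(31,0)]⟩,⟨0,[(32,0)]⟩),(⟨0,[(35,
  0)]⟩,⟨0,[(36,0)]⟩),⟨0,[(20,0)]⟩,.k,.k,.k,.k,.k,.k,⟨true,0,⟨0,[(0,0)]⟩,⟨0,[(43,0)]⟩⟩,⟨false,0,⟨0,
  [(14,0)]⟩,⟨16,[(8,0),(6,2),(0,3),(2,5),(8,4),(11,2),(3,5)]⟩⟩,⟨true,0,⟨2,[(10,0),(1,0)]⟩,⟨0,[(14,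
  0),(13,0)]⟩⟩,⟨false,0,⟨0,[(3,0),(1,0)]⟩,⟨12,[(8,5),(6,0),(2,2),(0,1),(8,8),(11,0),(3,1)]⟩⟩,⟨false,
  0,⟨0,[]⟩,⟨0,[]⟩⟩,⟨false,0,⟨0,[]⟩,⟨0,[]⟩⟩,[.o ⟨false,0,⟨0,[(43,0)]⟩,⟨13,[(18,5),(18,1),(2,6),(0,1),
  (2,0)]⟩⟩,.e ⟨false,1,⟨1,[(44,0),(0,0)]⟩,⟨0,[(47,0)]⟩⟩ ⟨false,1,⟨0,[(16,0),(12,0)]⟩,⟨1,[(1,0),(38,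
  0),(0,0),(0,0)]⟩⟩,.a ⟨true,0,⟨26,[(1,1),(3,1),(0,4),(1,2),(6,3),(3,4),(6,5)]⟩,⟨0,[(14,0)]⟩⟩
  ⟨false,1,⟨1,[(22,0),(0,0),(21,0)]⟩,⟨0,[]⟩⟩ ⟨true,0,⟨0,[(14,0),(28,0)]⟩,⟨1,[(1,0),(38,0),(0,0),(0,
  0)]⟩⟩,.o ⟨false,0,⟨0,[(30,0)]⟩,⟨2,[(3,0),(4,0),(5,0),(1,0),(20,0),(2,0)]⟩⟩]⟩) (.N [0,1] 0 ⟨0,[(2,
  0)]⟩ ⟨0,[(0,0)]⟩ .k))) (.R ⟨0,false,false,true,[1,0,-1],[0,1],[1,1,1,1],(⟨0,[(29,0)]⟩,⟨0,[(30,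
  0)]⟩),(⟨0,[(34,0)]⟩,⟨0,[(33,0)]⟩),⟨0,[(18,0)]⟩,.k,.k,.k,.k,.k,.k,⟨true,0,⟨0,[]⟩,⟨1,[(27,0),(0,
  0)]⟩⟩,⟨false,1,⟨11,[(0,9),(0,5),(4,5),(7,2),(20,0),(2,2),(0,6)]⟩,⟨9,[(3,1),(0,3),(8,1),(2,1),(10,
  0),(0,4)]⟩⟩,⟨false,0,⟨0,[(10,0)]⟩,⟨0,[(0,0),(5,0),(34,0)]⟩⟩,⟨true,0,⟨0,[(1,0),(26,0),(10,0)]⟩,⟨1,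
  [(4,1),(33,0),(4,0)]⟩⟩,⟨false,0,⟨0,[]⟩,⟨0,[]⟩⟩,⟨false,0,⟨0,[]⟩,⟨0,[]⟩⟩,[.e ⟨false,0,⟨0,[(40,0)]⟩,
  ⟨3,[(14,1),(5,0),(0,0),(19,1),(1,0)]⟩⟩ ⟨false,1,⟨27,[(1,13),(4,13),(9,3),(18,19),(2,6),(0,5),(2,
  2)]⟩,⟨0,[(3,0)]⟩⟩,.o ⟨false,1,⟨13,[(16,5),(18,1),(2,6),(0,1),(2,0)]⟩,⟨0,[(41,0)]⟩⟩,.a ⟨true,0,⟨8,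
  [(3,0),(0,1),(8,0),(2,0),(0,1),(6,1)]⟩,⟨0,[(12,0)]⟩⟩ ⟨true,0,⟨1,[(27,0),(0,0),(11,1)]⟩,⟨0,[(0,
  0)]⟩⟩ ⟨false,1,⟨10,[(1,4),(4,4),(9,2),(10,0),(7,3),(2,2)]⟩,⟨0,[(3,0)]⟩⟩,.o ⟨false,0,⟨0,[(28,0)]⟩,
  ⟨2,[(1,0),(4,0),(5,0),(1,0),(20,0),(2,0)]⟩⟩]⟩))) (.I [1,-1,0,0,0,0,0,2] (.Q [0,1,0,1,0,0,-2,-2,0,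
  1,-2] (.p false [0,0,1] [1,0,-1] (⟨0,[(29,0)]⟩,⟨0,[(28,0)]⟩) .k 2 (⟨0,[(28,0)]⟩,⟨0,[(29,0)]⟩) .k
  (.r 0 ⟨2,[(7,1),(1,1)]⟩ ⟨1,[(1,0),(1,0),(1,1),(20,0),(10,0),(2,0)]⟩)) (.Q [0,1,0,1,0,0,0,1,0,-1]
  (.pp true [-1,1]) (.R ⟨0,false,false,false,[1,0,-1],[2,-1,-1],[0,0,0,-1,0,0,0,-1],(⟨0,[(30,0)]⟩,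
  ⟨0,[(31,0)]⟩),(⟨0,[(30,0),(3,0)]⟩,⟨0,[(19,0)]⟩),⟨0,[(19,0)]⟩,.k,.k,.k,.k,.k,.k,⟨true,0,⟨1,[(28,0),
  (0,0)]⟩,⟨0,[]⟩⟩,⟨false,0,⟨73,[(5,17),(1,11),(6,5),(11,17),(5,7),(1,7),(3,14),(4,2),(0,11)]⟩,⟨1,
  [(39,0),(3,0)]⟩⟩,⟨true,0,⟨0,[(42,0)]⟩,⟨0,[(41,0)]⟩⟩,⟨false,0,⟨1,[(38,0),(3,1),(1,0)]⟩,⟨13,[(17,5),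
  (18,1),(2,6),(0,1),(2,0)]⟩⟩,⟨false,0,⟨0,[]⟩,⟨0,[]⟩⟩,⟨false,0,⟨0,[]⟩,⟨0,[]⟩⟩,[.o ⟨false,0,⟨2,[(1,
  0),(3,0),(36,2),(1,0)]⟩,⟨1,[(0,0),(6,0),(0,0),(30,0)]⟩⟩,.e ⟨false,1,⟨0,[(3,0),(38,0),(1,0)]⟩,⟨7,
  [(0,3),(13,1),(21,0),(1,1),(1,0),(0,0)]⟩⟩ ⟨false,1,⟨7,[(5,3),(1,3),(7,5),(5,0),(0,0),(5,3),(13,1),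
  (1,0)]⟩,⟨0,[(0,0)]⟩⟩,.a ⟨true,0,⟨40,[(1,2),(2,6),(0,5),(8,5),(2,1),(0,6),(6,7),(12,1)]⟩,⟨0,[(13,
  0)]⟩⟩ ⟨false,1,⟨0,[(7,0),(34,1)]⟩,⟨2,[(0,1),(1,0),(4,0),(30,0)]⟩⟩ ⟨true,0,⟨1,[(5,0),(1,0),(5,0),
  (28,1)]⟩,⟨0,[(0,0)]⟩⟩,.o ⟨false,0,⟨0,[(29,0)]⟩,⟨1,[(13,1),(25,0),(3,0)]⟩⟩]⟩) (.I [0,0,-1,-1] (.Q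
  [0,0,0,0,0,0,-2,-1,0,1,-2] (.p false [0,0,1] [1,0,-1] (⟨0,[(32,0)]⟩,⟨0,[(31,0)]⟩) .k 2 (⟨0,[(31,
  0)]⟩,⟨0,[(32,0)]⟩) .k (.r 0 ⟨2,[(10,1),(1,1)]⟩ ⟨20,[(1,15),(0,5),(1,3),(3,9),(20,11),(7,7),(2,
  10)]⟩)) (.R ⟨0,false,false,false,[1,0,-1],[0,0,1],[1,0,0,0,0,0,0,1],(⟨0,[(32,0)]⟩,⟨0,[(33,0)]⟩),
  (⟨0,[(33,0)]⟩,⟨0,[(32,0)]⟩),⟨0,[(21,0)]⟩,.k,.k,.k,.k,.k,.k,⟨true,0,⟨0,[]⟩,⟨1,[(30,0),(0,0)]⟩⟩,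
  ⟨false,1,⟨1,[(15,3),(25,0),(3,0)]⟩,⟨0,[(20,0)]⟩⟩,⟨false,0,⟨0,[(4,0)]⟩,⟨20,[(2,15),(0,5),(1,3),(3,
  9),(20,11),(7,7),(2,10)]⟩⟩,⟨true,0,⟨0,[(10,0)]⟩,⟨6,[(2,1),(0,3),(2,0),(11,0),(10,4)]⟩⟩,⟨false,0,
  ⟨0,[]⟩,⟨0,[]⟩⟩,⟨false,0,⟨0,[]⟩,⟨0,[]⟩⟩,[.e ⟨false,0,⟨0,[(8,0)]⟩,⟨6,[(2,2),(0,0),(5,1),(13,2),(0,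
  2),(5,1),(7,1),(2,1)]⟩⟩ ⟨false,1,⟨9,[(9,1),(0,3),(4,7),(1,1),(10,3),(12,2),(3,2)]⟩,⟨0,[(0,0)]⟩⟩,
  .o ⟨false,1,⟨2,[(10,0),(17,0),(12,0),(4,1)]⟩,⟨0,[(29,0)]⟩⟩,.a ⟨true,0,⟨40,[(3,2),(2,6),(0,5),(8,
  5),(2,1),(0,6),(6,7),(12,1)]⟩,⟨0,[(15,0)]⟩⟩ ⟨true,0,⟨2,[(11,0),(1,0)]⟩,⟨1,[(5,0),(23,0),(0,0)]⟩⟩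
  ⟨false,1,⟨5,[(9,1),(0,3),(6,1),(12,3),(10,0),(4,0)]⟩,⟨0,[(0,0)]⟩⟩,.o ⟨false,0,⟨0,[(31,0)]⟩,⟨1,
  [(15,1),(25,0),(3,0)]⟩⟩]⟩) (.R ⟨0,false,false,false,[1,0,-1],[0,0,1],[1,0,0,0,0,0,0,1],(⟨0,[(32,
  0)]⟩,⟨0,[(33,0)]⟩),(⟨0,[(33,0)]⟩,⟨0,[(32,0)]⟩),⟨0,[(21,0)]⟩,.k,.k,.k,.k,.k,.k,⟨true,0,⟨0,[]⟩,⟨1,
  [(30,0),(0,0)]⟩⟩,⟨false,1,⟨24,[(0,18),(4,7),(3,10),(7,10),(12,11),(7,6),(2,2)]⟩,⟨0,[(20,0)]⟩⟩,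
  ⟨false,0,⟨0,[(4,0)]⟩,⟨20,[(2,15),(0,5),(1,3),(3,9),(20,11),(7,7),(2,10)]⟩⟩,⟨true,0,⟨0,[(10,0)]⟩,
  ⟨6,[(2,1),(0,3),(2,0),(11,0),(10,4)]⟩⟩,⟨false,0,⟨0,[]⟩,⟨0,[]⟩⟩,⟨false,0,⟨0,[]⟩,⟨0,[]⟩⟩,[.a ⟨true,
  0,⟨21,[(10,7),(17,5),(5,1),(1,1),(3,2),(5,2)]⟩,⟨42,[(2,8),(0,16),(2,4),(0,3),(8,1),(0,0),(22,1),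
  (5,2)]⟩⟩ ⟨false,0,⟨0,[(8,0)]⟩,⟨6,[(2,2),(0,0),(5,1),(13,2),(0,2),(5,1),(7,1),(2,1)]⟩⟩ ⟨true,0,⟨0,
  [(0,0)]⟩,⟨22,[(2,4),(0,8),(2,4),(0,1),(8,0),(2,0),(11,20)]⟩⟩,.o ⟨false,1,⟨11,[(0,4),(9,0),(5,1),
  (0,0),(0,0),(22,2),(4,5)]⟩,⟨0,[(29,0)]⟩⟩,.e ⟨true,0,⟨2,[(11,0),(1,0)]⟩,⟨1,[(5,0),(23,0),(0,0)]⟩⟩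
  ⟨true,0,⟨0,[(0,0)]⟩,⟨4,[(3,2),(2,0),(11,1),(1,0),(8,0)]⟩⟩,.o ⟨false,0,⟨0,[(31,0)]⟩,⟨24,[(0,10),(4,
  1),(3,8),(7,8),(12,2),(7,7),(2,6)]⟩⟩]⟩)) (.Q [0,-1,0,1,1,0,0,0,0,-1] (.pp true [-1,1]) (.R ⟨0,
  false,false,false,[1,0,-1],[0,1],[0,0,1],(⟨0,[(32,0)]⟩,⟨0,[(33,0)]⟩),(⟨0,[(37,0)]⟩,⟨0,[(36,0)]⟩),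
  ⟨0,[(21,0)]⟩,.k,.k,.k,.k,.k,.k,⟨true,0,⟨0,[(44,0)]⟩,⟨0,[(1,0)]⟩⟩,⟨false,1,⟨1,[(0,0),(4,1),(4,0),
  (6,0)]⟩,⟨19,[(2,2),(3,0),(0,6),(8,4),(2,2),(11,11),(8,0)]⟩⟩,⟨true,0,⟨7,[(4,1),(8,1),(4,1),(11,2),
  (0,2)]⟩,⟨0,[(5,0)]⟩⟩,⟨false,1,⟨7,[(0,3),(9,3),(8,1),(25,0),(0,0)]⟩,⟨6,[(2,3),(0,0),(2,1),(11,1),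
  (10,2)]⟩⟩,⟨false,0,⟨0,[]⟩,⟨0,[]⟩⟩,⟨false,0,⟨0,[]⟩,⟨0,[]⟩⟩,[.o ⟨false,1,⟨13,[(19,5),(18,1),(2,6),
  (0,1),(2,0)]⟩,⟨0,[(44,0)]⟩⟩,.o ⟨false,1,⟨0,[(0,0)]⟩,⟨3,[(7,0),(10,0),(11,0),(7,0),(2,0),(2,1)]⟩⟩,
  .a ⟨true,0,⟨40,[(3,2),(2,6),(0,5),(8,5),(2,1),(0,6),(6,7),(12,1)]⟩,⟨0,[(15,0)]⟩⟩ ⟨true,0,⟨1,[(30,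
  0),(0,0)]⟩,⟨2,[(5,0),(2,0),(29,0)]⟩⟩ ⟨false,1,⟨0,[(0,0),(14,0)]⟩,⟨43,[(2,4),(0,7),(2,24),(0,2),(8,
  1),(0,0),(0,19)]⟩⟩,.o ⟨false,0,⟨0,[(31,0)]⟩,⟨1,[(15,1),(25,0),(3,0)]⟩⟩]⟩) (.R ⟨0,false,false,true,
  [1,0,-1],[2,-1,-1],[1,1,0,0,0,0,0,-1],(⟨0,[(32,0)]⟩,⟨0,[(33,0)]⟩),(⟨0,[(32,0),(3,0)]⟩,⟨0,[(21,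
  0)]⟩),⟨0,[(21,0)]⟩,.k,.k,.k,.k,.k,.k,⟨true,0,⟨0,[(1,0)]⟩,⟨0,[(44,0)]⟩⟩,⟨false,0,⟨181,[(2,35),(4,
  29),(8,17),(2,23),(8,29),(5,19),(1,19),(3,32),(4,20)]⟩,⟨1,[(41,0),(3,0)]⟩⟩,⟨false,0,⟨0,[]⟩,⟨25,
  [(2,9),(6,5),(6,7),(0,3),(23,4),(4,2)]⟩⟩,⟨true,(-1),⟨0,[(0,0)]⟩,⟨13,[(19,5),(18,1),(2,6),(0,1),(2,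
  0)]⟩⟩,⟨false,0,⟨0,[]⟩,⟨0,[]⟩⟩,⟨false,0,⟨0,[]⟩,⟨0,[]⟩⟩,[.e ⟨false,0,⟨0,[(5,0)]⟩,⟨13,[(11,0),(4,4),
  (0,1),(0,1),(27,6)]⟩⟩ ⟨false,0,⟨0,[(2,0),(35,0)]⟩,⟨3,[(1,0),(2,2),(4,1),(31,1),(0,0)]⟩⟩,.o ⟨false,
  0,⟨6,[(2,3),(0,0),(2,1),(11,1),(10,2)]⟩,⟨7,[(1,2),(2,0),(4,1),(0,3),(30,5),(0,2)]⟩⟩,.a ⟨true,0,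
  ⟨40,[(3,2),(2,6),(0,5),(8,5),(2,1),(0,6),(6,7),(12,1)]⟩,⟨0,[(15,0)]⟩⟩ ⟨true,0,⟨1,[(5,0),(23,0),(0,
  0)]⟩,⟨2,[(11,0),(1,0)]⟩⟩ ⟨false,0,⟨10,[(2,9),(0,0),(14,1),(10,0),(0,2),(7,2)]⟩,⟨3,[(1,0),(2,2),(4,
  1),(31,1),(0,0)]⟩⟩,.o ⟨false,0,⟨0,[(31,0)]⟩,⟨1,[(15,1),(25,0),(3,0)]⟩⟩]⟩)))) (.I [0,-1,-2,-2,0,0,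
  0,1] (.R ⟨2,true,false,true,[0,1],[1,1,-1],[1,1,1,1,0,0,0,-1],(⟨0,[]⟩,⟨0,[]⟩),(⟨131,[(5,9),(1,7),
  (6,3),(0,1),(10,9),(3,131),(1,17),(4,37),(0,8),(5,4)]⟩,⟨0,[(20,0)]⟩),⟨0,[]⟩,.k,.k,.k,.k,.k,.k,
  ⟨true,0,⟨0,[]⟩,⟨1,[(28,0),(0,0)]⟩⟩,⟨false,0,⟨0,[(25,0)]⟩,⟨1,[(28,1),(10,0),(3,0)]⟩⟩,⟨true,0,⟨1,
  [(3,0),(23,0),(0,0)]⟩,⟨2,[(9,0),(1,0)]⟩⟩,⟨false,0,⟨1,[(3,1),(25,1),(8,0),(5,0)]⟩,⟨22,[(1,10),(5,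
  8),(6,4),(0,2),(12,0),(10,5)]⟩⟩,⟨false,1,⟨11,[(7,10),(6,0),(12,2),(0,2),(7,3)]⟩,⟨5,[(0,1),(0,1),
  (27,3),(8,0),(5,0)]⟩⟩,⟨true,0,⟨1,[(5,0),(11,0),(9,0),(12,0)]⟩,⟨0,[(1,0),(25,0)]⟩⟩,[]⟩) (.I [0,-1,
  0,-1,0,0,0,1] (.R ⟨2,true,false,true,[0,1],[1,1,-1],[0,0,1],(⟨0,[]⟩,⟨0,[]⟩),(⟨131,[(6,9),(1,7),(6,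
  3),(0,1),(10,9),(3,131),(1,17),(4,37),(0,8),(5,4)]⟩,⟨0,[(21,0)]⟩),⟨0,[]⟩,.k,.k,.k,.k,.k,.k,⟨true,
  0,⟨0,[(0,0)]⟩,⟨3,[(1,1),(2,0),(23,0),(0,0)]⟩⟩,⟨false,0,⟨0,[(26,0)]⟩,⟨1,[(29,1),(10,0),(3,0)]⟩⟩,
  ⟨true,0,⟨0,[(43,0)]⟩,⟨0,[(42,0)]⟩⟩,⟨false,0,⟨1,[(4,1),(25,1),(8,0),(5,0)]⟩,⟨22,[(2,10),(5,8),(6,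
  4),(0,2),(12,0),(10,5)]⟩⟩,⟨false,1,⟨1,[(22,0),(0,0),(21,0)]⟩,⟨0,[]⟩⟩,⟨true,0,⟨15,[(1,6),(4,2),(1,
  2),(17,9),(1,2),(8,1),(3,1)]⟩,⟨0,[(2,0),(25,0)]⟩⟩,[]⟩) (.R ⟨0,false,false,false,[1,0,-1],[0,0,1],
  [1,0,0,0,0,0,0,1],(⟨0,[(31,0)]⟩,⟨0,[(32,0)]⟩),(⟨0,[(32,0)]⟩,⟨0,[(31,0)]⟩),⟨0,[(20,0)]⟩,.k,.k,.k,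
  .k,.k,.k,⟨true,0,⟨0,[]⟩,⟨1,[(29,0),(0,0)]⟩⟩,⟨false,1,⟨1,[(14,3),(25,0),(3,0)]⟩,⟨0,[(19,0)]⟩⟩,
  ⟨false,0,⟨0,[(3,0)]⟩,⟨1,[(4,0),(1,0),(1,1),(20,0),(10,0),(2,0)]⟩⟩,⟨true,0,⟨0,[(9,0)]⟩,⟨0,[(0,0),
  (4,0),(22,0)]⟩⟩,⟨false,0,⟨0,[]⟩,⟨0,[]⟩⟩,⟨false,0,⟨0,[]⟩,⟨0,[]⟩⟩,[.a ⟨true,0,⟨69,[(2,11),(6,13),(8,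
  5),(8,17),(5,7),(1,7),(3,8),(4,2)]⟩,⟨0,[(0,0),(4,0)]⟩⟩ ⟨false,0,⟨0,[(7,0)]⟩,⟨2,[(8,0),(7,0),(5,0),
  (0,0),(4,1),(0,1)]⟩⟩ ⟨true,0,⟨0,[(0,0),(1,0)]⟩,⟨0,[(0,0),(4,0),(24,0)]⟩⟩,.o ⟨false,1,⟨22,[(2,10),
  (5,8),(6,4),(0,2),(12,0),(10,5)]⟩,⟨0,[(28,0)]⟩⟩,.e ⟨true,0,⟨2,[(10,0),(1,0)]⟩,⟨1,[(4,0),(23,0),(0,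
  0)]⟩⟩ ⟨true,0,⟨0,[(0,0),(1,0)]⟩,⟨11,[(6,2),(1,1),(6,0),(3,5),(8,8),(8,0)]⟩⟩,.o ⟨false,0,⟨0,[(30,
  0)]⟩,⟨1,[(14,1),(25,0),(3,0)]⟩⟩]⟩)))) (.Q [0,1,0,1,0,0,0,1,0,-1] (.pp true [-1,1]) (.R ⟨0,false,
  false,false,[1,0,-1],[2,-1,-1],[0,0,0,-1,0,0,0,-1],(⟨0,[(29,0)]⟩,⟨0,[(30,0)]⟩),(⟨0,[(29,0),(3,
  0)]⟩,⟨0,[(18,0)]⟩),⟨0,[(18,0)]⟩,.k,.k,.k,.k,.k,.k,⟨true,0,⟨1,[(27,0),(0,0)]⟩,⟨0,[]⟩⟩,⟨false,0,⟨73,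
  [(4,17),(1,11),(6,5),(11,17),(5,7),(1,7),(3,14),(4,2),(0,11)]⟩,⟨1,[(38,0),(3,0)]⟩⟩,⟨true,0,⟨0,
  [(41,0)]⟩,⟨0,[(40,0)]⟩⟩,⟨false,0,⟨1,[(37,0),(3,1),(1,0)]⟩,⟨13,[(16,5),(18,1),(2,6),(0,1),(2,0)]⟩⟩,
  ⟨false,0,⟨0,[]⟩,⟨0,[]⟩⟩,⟨false,0,⟨0,[]⟩,⟨0,[]⟩⟩,[.o ⟨false,0,⟨31,[(1,16),(1,25),(0,2),(8,1),(0,0),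
  (0,3),(10,2)]⟩,⟨1,[(0,0),(5,0),(0,0),(30,0)]⟩⟩,.e ⟨false,1,⟨1,[(1,0),(12,0),(26,0),(1,0)]⟩,⟨7,[(0,
  3),(12,1),(21,0),(1,1),(1,0),(0,0)]⟩⟩ ⟨false,1,⟨25,[(1,6),(2,12),(1,4),(6,2),(0,20),(12,12),(15,
  9)]⟩,⟨0,[(0,0)]⟩⟩,.a ⟨true,0,⟨8,[(3,0),(0,1),(8,0),(2,0),(0,1),(6,1)]⟩,⟨0,[(12,0)]⟩⟩ ⟨false,1,⟨2,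
  [(1,1),(13,0),(25,1),(1,2)]⟩,⟨1,[(0,1),(36,0),(5,0)]⟩⟩ ⟨true,0,⟨3,[(1,0),(2,1),(9,0),(12,1),(13,
  0),(1,0)]⟩,⟨0,[(0,0)]⟩⟩,.o ⟨false,0,⟨0,[(28,0)]⟩,⟨25,[(1,9),(4,5),(0,11),(6,5),(10,1),(12,6),(3,
  6)]⟩⟩]⟩) (.Q [0,0,-1,0,1,0,1,0,0,-2,1] (.p true [-1,1,1] [1] (⟨0,[(18,0)]⟩,⟨0,[(29,0),(3,0)]⟩) .k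
  1 (⟨0,[]⟩,⟨0,[]⟩) .k .k) (.Q [0,1,0,-1,-1,0,-1,0,0,1,-1] (.p false [0,0,1] [1] (⟨0,[(31,0)]⟩,⟨0,
  [(30,0)]⟩) .k 1 (⟨0,[]⟩,⟨0,[]⟩) .k .k) (.R ⟨0,false,false,false,[1,0,-1],[0,1],[1,0,1,1],(⟨0,[(31,
  0)]⟩,⟨0,[(32,0)]⟩),(⟨0,[(36,0)]⟩,⟨0,[(35,0)]⟩),⟨0,[(20,0)]⟩,.k,.k,.k,.k,.k,.k,⟨true,0,⟨0,[]⟩,⟨1,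
  [(29,0),(0,0)]⟩⟩,⟨false,1,⟨1,[(1,0),(12,0),(1,0),(24,0)]⟩,⟨19,[(2,2),(2,0),(0,6),(8,4),(2,2),(11,
  11),(8,0)]⟩⟩,⟨true,0,⟨0,[(12,0)]⟩,⟨5,[(0,2),(0,2),(0,2),(0,0),(0,0),(32,1)]⟩⟩,⟨false,1,⟨1,[(1,1),
  (10,1),(26,0),(5,0)]⟩,⟨31,[(2,16),(2,8),(0,2),(8,1),(0,0),(0,3),(10,19)]⟩⟩,⟨false,0,⟨0,[]⟩,⟨0,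
  []⟩⟩,⟨false,0,⟨0,[]⟩,⟨0,[]⟩⟩,[.o ⟨false,1,⟨13,[(18,5),(18,1),(2,6),(0,1),(2,0)]⟩,⟨0,[(43,0)]⟩⟩,.e
  ⟨false,1,⟨3,[(18,1),(25,0),(0,0)]⟩,⟨12,[(0,4),(0,2),(0,1),(6,0),(6,1),(20,5),(5,3)]⟩⟩ ⟨false,2,⟨4,
  [(1,1),(6,4),(0,0),(5,0),(0,0),(10,0),(16,0)]⟩,⟨0,[(0,0)]⟩⟩,.a ⟨true,0,⟨8,[(5,0),(0,1),(8,0),(2,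
  0),(0,1),(6,1)]⟩,⟨0,[(14,0)]⟩⟩ ⟨false,1,⟨9,[(2,3),(12,1),(2,5),(10,0),(0,0),(9,1)]⟩,⟨1,[(0,0),(0,
  0),(0,0),(4,0)]⟩⟩ ⟨true,1,⟨8,[(1,3),(1,1),(4,0),(0,0),(8,3),(8,2)]⟩,⟨0,[(0,0)]⟩⟩,.o ⟨false,0,⟨0,
  [(30,0)]⟩,⟨4,[(1,2),(0,0),(5,0),(18,1),(16,0)]⟩⟩]⟩) (.I [1,0,2,2,0,0,0,1] (.Q [0,0,0,-1,0,0,2,1,0,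
  -1,2] (.p true [0,0,1] [1,0,-1] (⟨0,[(33,0)]⟩,⟨0,[(32,0)]⟩) .k 2 (⟨0,[(32,0)]⟩,⟨0,[(33,0)]⟩) .k
  (.r 0 ⟨0,[(8,1),(38,1)]⟩ ⟨12,[(3,5),(0,11),(4,3),(6,3),(0,1),(23,2)]⟩)) (.I [0,0,2,0,-1,2,-1] (.Q
  [0,0,2,0,-1,0,-1,0,0,2,-1] (.p false [-1,1,1] [1] (⟨0,[(23,0)]⟩,⟨0,[(34,0),(3,0)]⟩) .k 1 (⟨0,[]⟩,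
  ⟨0,[]⟩) .k .k) (.K ⟨0,[2,-1,-1],(-1),(-1),(⟨0,[(35,0),(3,0)]⟩,⟨0,[(24,0)]⟩),.k,(.x 1 ⟨0,[(1,0)]⟩
  ⟨1,[(5,1),(29,1),(3,3),(4,0),(3,0)]⟩),.k,(.r (-1) ⟨40,[(6,19),(0,39),(11,6),(0,23),(0,3),(22,9)]⟩
  ⟨0,[(11,0),(4,0),(33,0)]⟩),.k,[⟨1,[(2,0),(1,0),(0,0),(2,0)]⟩,⟨0,[(0,0)]⟩,⟨5,[(3,0),(1,2),(9,1),(3,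
  0),(11,0),(12,1),(1,2)]⟩,⟨0,[(10,0)]⟩]⟩) (.I [1,0,-2,-2,0,0,0,-1] (.N [0,2,1] 0 ⟨0,[(4,0)]⟩ ⟨0,
  [(0,0)]⟩ (.x (-2) ⟨1,[(6,1),(29,1),(3,3),(4,0),(3,0)]⟩ ⟨0,[(2,0)]⟩)) (.Q [0,-1,0,1,1,0,0,0,0,-1]
  (.pp true [-1,1]) (.I [1,1,1,1,0,0,0,-2] (.R ⟨0,false,false,false,[1,0,-1],[0,1],[0,0,2,1],(⟨0,
  [(38,0)]⟩,⟨0,[(39,0)]⟩),(⟨0,[(43,0)]⟩,⟨0,[(42,0)]⟩),⟨0,[(27,0)]⟩,.k,.k,.k,.k,.k,.k,⟨true,0,⟨1,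
  [(36,0),(0,0)]⟩,⟨0,[]⟩⟩,⟨false,1,⟨1,[(3,0),(17,0),(29,0)]⟩,⟨20,[(2,0),(6,2),(2,1),(0,7),(8,4),(2,
  2),(11,10)]⟩⟩,⟨true,0,⟨13,[(2,9),(2,1),(6,1),(11,1),(11,2),(0,4)]⟩,⟨0,[(3,0),(9,0)]⟩⟩,⟨false,1,
  ⟨16,[(1,3),(0,0),(4,8),(6,3),(1,3),(5,1),(29,1)]⟩,⟨31,[(9,16),(2,8),(0,2),(8,1),(0,0),(0,3),(10,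
  19)]⟩⟩,⟨false,0,⟨0,[]⟩,⟨0,[]⟩⟩,⟨false,0,⟨0,[]⟩,⟨0,[]⟩⟩,[.o ⟨false,1,⟨13,[(25,5),(18,1),(2,6),(0,
  1),(2,0)]⟩,⟨0,[(50,0)]⟩⟩,.o ⟨false,1,⟨0,[(1,0)]⟩,⟨2,[(10,0),(13,1),(25,0)]⟩⟩,.a ⟨true,0,⟨8,[(12,
  0),(0,1),(8,0),(2,0),(0,1),(6,1)]⟩,⟨0,[(21,0)]⟩⟩ ⟨true,0,⟨5,[(0,1),(0,0),(0,2),(2,1),(3,0),(27,3),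
  (8,0)]⟩,⟨6,[(3,4),(9,4),(0,0),(2,1),(26,0)]⟩⟩ ⟨false,1,⟨0,[(7,0)]⟩,⟨15,[(9,0),(2,8),(0,2),(8,1),
  (0,0),(0,3),(10,3)]⟩⟩,.o ⟨false,0,⟨0,[(37,0)]⟩,⟨13,[(5,3),(2,4),(1,1),(4,2),(6,0),(11,0),(16,
  4)]⟩⟩]⟩) (.R ⟨0,false,false,false,[1,0,-1],[0,0,1],[0,0,1,0,0,0,0,1],(⟨0,[(38,0)]⟩,⟨0,[(39,0)]⟩),
  (⟨0,[(39,0)]⟩,⟨0,[(38,0)]⟩),⟨0,[(27,0)]⟩,.k,.k,.k,.k,.k,.k,⟨true,0,⟨1,[(36,0),(0,0)]⟩,⟨0,[]⟩⟩,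
  ⟨false,1,⟨5,[(5,2),(1,2),(2,1),(10,1),(12,0),(16,2)]⟩,⟨0,[(26,0)]⟩⟩,⟨false,0,⟨5,[(0,3),(0,0),(0,
  2),(2,1),(3,0),(27,3),(8,0)]⟩,⟨14,[(10,12),(4,5),(6,0),(0,6),(27,0)]⟩⟩,⟨true,0,⟨0,[(16,0)]⟩,⟨0,
  [(10,0),(15,0)]⟩⟩,⟨false,0,⟨0,[]⟩,⟨0,[]⟩⟩,⟨false,0,⟨0,[]⟩,⟨0,[]⟩⟩,[.e ⟨false,0,⟨4,[(2,0),(14,1)]⟩,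
  ⟨4,[(10,2),(4,0),(6,0),(0,1),(27,0)]⟩⟩ ⟨false,1,⟨1,[(5,0),(1,0),(26,0),(16,0)]⟩,⟨9,[(0,10),(0,7),
  (1,1),(6,15),(15,1),(10,17),(8,9),(1,2)]⟩⟩,.o ⟨false,1,⟨9,[(5,1),(2,1),(7,1),(5,1),(24,0),(4,4)]⟩,
  ⟨0,[(35,0)]⟩⟩,.a ⟨true,0,⟨8,[(12,0),(0,1),(8,0),(2,0),(0,1),(6,1)]⟩,⟨0,[(21,0)]⟩⟩ ⟨true,0,⟨24,[(0,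
  0),(1,9),(2,5),(6,5),(11,6),(12,5)]⟩,⟨0,[(11,0)]⟩⟩ ⟨false,1,⟨1,[(5,0),(1,0),(26,0),(17,0)]⟩,⟨9,
  [(0,10),(0,7),(1,1),(6,15),(15,1),(10,17),(8,9),(1,2)]⟩⟩,.o ⟨false,0,⟨0,[(37,0)]⟩,⟨13,[(5,3),(2,
  4),(1,1),(4,2),(6,0),(11,0),(16,4)]⟩⟩]⟩)) (.R ⟨0,false,false,false,[1,0,-1],[0,1],[0,0,0,-1,0,0,0,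
  -1],(⟨0,[(37,0)]⟩,⟨0,[(38,0)]⟩),(⟨0,[(42,0)]⟩,⟨0,[(41,0)]⟩),⟨0,[(26,0)]⟩,.k,.k,.k,.k,.k,.k,⟨true,
  0,⟨0,[(0,0),(1,0),(5,0),(27,0)]⟩,⟨0,[(5,0)]⟩⟩,⟨false,1,⟨1,[(2,0),(17,0),(29,0)]⟩,⟨20,[(1,0),(6,2),
  (2,1),(0,7),(8,4),(2,2),(11,10)]⟩⟩,⟨true,0,⟨0,[(49,0)]⟩,⟨0,[(48,0)]⟩⟩,⟨false,1,⟨4,[(1,0),(4,4),(9,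
  1)]⟩,⟨31,[(8,16),(2,8),(0,2),(8,1),(0,0),(0,3),(10,19)]⟩⟩,⟨false,0,⟨0,[]⟩,⟨0,[]⟩⟩,⟨false,0,⟨0,[]⟩,
  ⟨0,[]⟩⟩,[.o ⟨false,1,⟨13,[(24,5),(18,1),(2,6),(0,1),(2,0)]⟩,⟨0,[(49,0)]⟩⟩,.a ⟨true,1,⟨3,[(24,1),
  (25,0),(0,0)]⟩,⟨0,[(0,0)]⟩⟩ ⟨false,1,⟨12,[(8,7),(0,2),(4,0),(6,0),(0,6),(23,3)]⟩,⟨14,[(1,6),(14,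
  3),(26,4),(3,4)]⟩⟩ ⟨true,1,⟨0,[(6,0)]⟩,⟨0,[(0,0),(35,0)]⟩⟩,.e ⟨false,1,⟨40,[(8,45),(0,9),(11,11),
  (0,5),(0,0),(22,22)]⟩,⟨1,[(1,0),(0,0),(10,0),(22,0),(8,0)]⟩⟩ ⟨false,1,⟨0,[(6,0)]⟩,⟨15,[(8,0),(2,
  8),(0,2),(8,1),(0,0),(0,3),(10,3)]⟩⟩,.o ⟨false,0,⟨0,[(36,0)]⟩,⟨13,[(4,3),(2,4),(1,1),(4,2),(6,0),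
  (11,0),(16,4)]⟩⟩]⟩)))) (.Q [0,0,0,0,0,0,-2,-1,0,1,-2] (.p false [0,0,1] [1,0,-1] (⟨0,[(35,0)]⟩,⟨0,
  [(34,0)]⟩) .k 2 (⟨0,[(34,0)]⟩,⟨0,[(35,0)]⟩) .k (.r 0 ⟨0,[(10,1),(38,1)]⟩ ⟨12,[(5,5),(0,11),(4,3),
  (6,3),(0,1),(23,2)]⟩)) (.I [0,-1,1,0,0,0,0,2] (.R ⟨0,false,false,false,[1,0,-1],[0,0,1],[0,0,1,0,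
  0,0,0,1],(⟨0,[(36,0)]⟩,⟨0,[(37,0)]⟩),(⟨0,[(37,0)]⟩,⟨0,[(36,0)]⟩),⟨0,[(25,0)]⟩,.k,.k,.k,.k,.k,.k,
  ⟨true,0,⟨1,[(34,0),(0,0)]⟩,⟨0,[]⟩⟩,⟨false,1,⟨5,[(3,2),(1,2),(2,1),(10,1),(12,0),(16,2)]⟩,⟨0,[(24,
  0)]⟩⟩,⟨false,0,⟨0,[(0,0)]⟩,⟨14,[(8,12),(4,5),(6,0),(0,6),(27,0)]⟩⟩,⟨true,0,⟨0,[(14,0)]⟩,⟨11,[(1,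
  9),(6,5),(2,0),(8,0),(12,2),(8,0)]⟩⟩,⟨false,0,⟨0,[]⟩,⟨0,[]⟩⟩,⟨false,0,⟨0,[]⟩,⟨0,[]⟩⟩,[.e ⟨false,0,
  ⟨0,[(12,0),(38,0)]⟩,⟨4,[(8,2),(4,0),(6,0),(0,1),(27,0)]⟩⟩ ⟨false,1,⟨1,[(3,0),(1,0),(26,0),(16,
  0)]⟩,⟨0,[(1,0)]⟩⟩,.o ⟨false,1,⟨9,[(3,1),(2,1),(7,1),(5,1),(24,0),(4,4)]⟩,⟨0,[(33,0)]⟩⟩,.a ⟨true,0,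
  ⟨18,[(1,2),(8,1),(0,2),(8,2),(2,0),(0,1),(6,3),(12,0)]⟩,⟨0,[(19,0)]⟩⟩ ⟨true,0,⟨13,[(0,3),(3,1),
  (17,3),(11,2),(0,2)]⟩,⟨0,[(9,0)]⟩⟩ ⟨false,1,⟨1,[(3,0),(1,0),(26,0),(17,0)]⟩,⟨0,[(1,0)]⟩⟩,.o
  ⟨false,0,⟨0,[(35,0)]⟩,⟨13,[(3,3),(2,4),(1,1),(4,2),(6,0),(11,0),(16,4)]⟩⟩]⟩) (.I [1,0,0,1,0,0,0,
  1] (.R ⟨0,false,false,false,[1,0,-1],[2,-1,-1],[0,0,0,-1,0,0,0,-1],(⟨0,[(37,0)]⟩,⟨0,[(38,0)]⟩),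
  (⟨0,[(37,0),(3,0)]⟩,⟨0,[(26,0)]⟩),⟨0,[(26,0)]⟩,.k,.k,.k,.k,.k,.k,⟨true,0,⟨1,[(35,0),(0,0)]⟩,⟨0,
  []⟩⟩,⟨false,0,⟨181,[(8,35),(3,29),(8,17),(2,23),(8,29),(5,19),(1,19),(3,32),(4,20)]⟩,⟨1,[(46,0),
  (3,0)]⟩⟩,⟨true,0,⟨0,[(49,0)]⟩,⟨0,[(48,0)]⟩⟩,⟨false,0,⟨17,[(8,13),(2,3),(3,1),(0,2),(1,1),(2,0),
  (23,0)]⟩,⟨13,[(24,5),(18,1),(2,6),(0,1),(2,0)]⟩⟩,⟨false,0,⟨0,[]⟩,⟨0,[]⟩⟩,⟨false,0,⟨0,[]⟩,⟨0,[]⟩⟩,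
  [.o ⟨false,0,⟨2,[(2,0),(5,1),(14,0),(10,0)]⟩,⟨14,[(0,3),(4,4),(1,10),(7,1),(5,0),(24,2)]⟩⟩,.a
  ⟨true,0,⟨17,[(2,3),(5,16),(2,2),(0,2),(8,2),(2,0),(7,3),(12,0)]⟩,⟨0,[(0,0),(0,0),(13,0),(20,0)]⟩⟩
  ⟨false,1,⟨12,[(8,7),(0,2),(4,0),(6,0),(0,6),(23,3)]⟩,⟨14,[(5,6),(10,3),(26,4),(3,4)]⟩⟩ ⟨true,0,⟨0,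
  [(8,0)]⟩,⟨0,[(0,0),(0,0),(13,0),(20,1)]⟩⟩,.e ⟨false,1,⟨40,[(8,45),(0,9),(11,11),(0,5),(0,0),(22,
  22)]⟩,⟨0,[(0,0)]⟩⟩ ⟨false,0,⟨0,[(8,0)]⟩,⟨9,[(0,0),(12,2),(7,2),(2,1),(21,4),(0,1)]⟩⟩,.o ⟨false,0,
  ⟨0,[(36,0)]⟩,⟨13,[(4,3),(2,4),(1,1),(4,2),(6,0),(11,0),(16,4)]⟩⟩]⟩) (.Q [0,0,0,0,0,-2,0,0,0,1]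
  (.pp false [-1,1]) (.S ⟨1,0,[0,1,-1,-2],[1,-1],[1,0,-1,-1],(⟨0,[(42,0)]⟩,⟨0,[(43,0)]⟩),⟨0,[(0,
  0)]⟩,.k,(.r 0 ⟨0,[(1,1),(12,1)]⟩ ⟨17,[(6,3),(3,9),(11,7),(2,9),(10,4),(0,4)]⟩),⟨true,0,⟨0,[]⟩,⟨14,
  [(6,1),(3,2),(13,3),(19,3)]⟩⟩,⟨false,0,⟨0,[(50,0)]⟩,⟨3,[(25,1),(25,0),(0,0)]⟩⟩,⟨false,1,⟨3,[(25,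
  1),(25,0),(0,0)]⟩,⟨0,[(50,0)]⟩⟩,⟨true,0,⟨14,[(6,1),(3,2),(13,3),(19,3)]⟩,⟨0,[]⟩⟩,[.a ⟨true,(-1),
  ⟨1,[(1,2),(0,0),(10,0),(0,1),(1,1),(20,2),(8,0)]⟩,⟨4,[(3,1),(2,0),(0,3),(6,0),(10,0),(20,0),(1,1),
  (3,0)]⟩⟩ ⟨true,0,⟨0,[(1,0),(12,0)]⟩,⟨0,[(1,0),(4,0)]⟩⟩ ⟨false,0,⟨6,[(1,4),(0,5),(14,7),(6,0)]⟩,⟨0,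
  [(25,0)]⟩⟩,.o ⟨false,0,⟨0,[(50,1)]⟩,⟨2,[(3,0),(2,0),(0,1),(39,0),(0,1)]⟩⟩,.o ⟨false,0,⟨1,[(36,0),
  (0,0)]⟩,⟨1,[(47,0),(3,0)]⟩⟩,.o ⟨false,0,⟨0,[(36,0),(0,0)]⟩,⟨2,[(3,0),(4,1),(5,0),(8,0),(24,
  0)]⟩⟩]⟩) (.Q [0,1,0,-1,-1,0,0,0,0,1] (.pp false [-1,1]) (.R ⟨0,false,false,false,[1,0,-1],[0,1],
  [],(⟨0,[(39,0)]⟩,⟨0,[(40,0)]⟩),(⟨0,[(44,0)]⟩,⟨0,[(43,0)]⟩),⟨0,[(28,0)]⟩,.k,.k,.k,.k,.k,.k,⟨true,0,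
  ⟨0,[(2,0),(12,0)]⟩,⟨0,[(2,0),(4,0)]⟩⟩,⟨false,1,⟨6,[(3,1),(4,0),(0,1),(7,1),(6,2),(24,1),(2,0)]⟩,
  ⟨20,[(7,0),(2,2),(2,1),(0,7),(8,4),(2,2),(11,10)]⟩⟩,⟨true,0,⟨0,[(15,0),(38,0)]⟩,⟨14,[(7,0),(3,8),
  (13,1),(19,1)]⟩⟩,⟨false,1,⟨4,[(7,0),(0,4),(9,1)]⟩,⟨7,[(2,0),(1,3),(5,3),(0,0),(13,2)]⟩⟩,⟨false,0,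
  ⟨0,[]⟩,⟨0,[]⟩⟩,⟨false,0,⟨0,[]⟩,⟨0,[]⟩⟩,[.o ⟨false,1,⟨13,[(26,5),(18,1),(2,6),(0,1),(2,0)]⟩,⟨0,
  [(51,0)]⟩⟩,.a ⟨true,1,⟨3,[(26,1),(25,0),(0,0)]⟩,⟨0,[(0,0)]⟩⟩ ⟨false,1,⟨1,[(52,0),(0,0)]⟩,⟨14,[(7,
  1),(3,2),(13,3),(19,3)]⟩⟩ ⟨true,1,⟨0,[(8,0)]⟩,⟨0,[(0,0),(37,0)]⟩⟩,.e ⟨false,1,⟨25,[(10,9),(5,5),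
  (6,7),(0,3),(23,4),(4,2)]⟩,⟨0,[]⟩⟩ ⟨false,1,⟨0,[(8,0)]⟩,⟨27,[(4,7),(5,4),(2,8),(0,2),(8,1),(0,0),
  (0,11)]⟩⟩,.o ⟨false,0,⟨0,[(38,0)]⟩,⟨13,[(6,3),(2,4),(1,1),(4,2),(6,0),(11,0),(16,4)]⟩⟩]⟩) (.R ⟨2,
  true,false,true,[0,1],[1,-1],[0,1,1],(⟨0,[]⟩,⟨0,[]⟩),(⟨0,[(43,0)]⟩,⟨0,[(44,0)]⟩),⟨0,[]⟩,.k,.k,.k,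
  (.r (-1) ⟨17,[(7,3),(3,9),(11,7),(2,9),(10,4),(0,4)]⟩ ⟨0,[(2,1),(12,1)]⟩),.k,.k,⟨true,0,⟨0,[(2,0),
  (4,0)]⟩,⟨0,[(2,0),(12,0)]⟩⟩,⟨false,0,⟨21,[(7,1),(2,5),(3,7),(8,5),(2,1),(10,8),(0,0)]⟩,⟨2,[(4,0),
  (4,1),(5,0),(8,0),(24,0)]⟩⟩,⟨false,0,⟨0,[(51,0)]⟩,⟨3,[(26,1),(25,0),(0,0)]⟩⟩,⟨true,(-1),⟨1,[(2,2),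
  (0,0),(10,0),(0,1),(1,1),(20,2),(8,0)]⟩,⟨0,[(0,0),(49,0)]⟩⟩,⟨true,0,⟨14,[(7,1),(3,2),(13,3),(19,
  3)]⟩,⟨0,[]⟩⟩,⟨false,0,⟨34,[(10,20),(3,6),(3,0),(4,4),(0,1),(0,8),(9,6)]⟩,⟨0,[(0,0)]⟩⟩,[]⟩)))))
  (.I [1,0,-2,-2] (.R ⟨0,false,false,false,[1,0,-1],[2,-1,-1],[1,0,-1,-1,0,0,0,-1],(⟨0,[(36,0)]⟩,⟨0,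
  [(37,0)]⟩),(⟨0,[(36,0),(3,0)]⟩,⟨0,[(25,0)]⟩),⟨0,[(25,0)]⟩,.k,.k,.k,.k,.k,.k,⟨true,0,⟨0,[]⟩,⟨1,
  [(34,0),(0,0)]⟩⟩,⟨false,0,⟨181,[(7,35),(3,29),(8,17),(2,23),(8,29),(5,19),(1,19),(3,32),(4,20)]⟩,
  ⟨1,[(45,0),(3,0)]⟩⟩,⟨true,0,⟨1,[(0,0)]⟩,⟨4,[(4,2),(3,1),(13,0),(19,0)]⟩⟩,⟨false,0,⟨17,[(7,13),(2,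
  3),(3,1),(0,2),(1,1),(2,0),(23,0)]⟩,⟨13,[(23,5),(18,1),(2,6),(0,1),(2,0)]⟩⟩,⟨false,0,⟨0,[]⟩,⟨0,
  []⟩⟩,⟨false,0,⟨0,[]⟩,⟨0,[]⟩⟩,[.o ⟨false,0,⟨31,[(7,16),(2,8),(0,2),(8,1),(0,0),(0,3),(10,19)]⟩,⟨18,
  [(4,8),(1,14),(5,3),(1,1),(5,0),(24,2)]⟩⟩,.a ⟨true,0,⟨8,[(7,8),(2,0),(0,1),(8,0),(2,0),(0,1),(6,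
  1)]⟩,⟨0,[(1,0),(33,0),(10,0)]⟩⟩ ⟨false,1,⟨0,[(0,0),(12,0)]⟩,⟨2,[(4,1),(17,0),(19,0)]⟩⟩ ⟨true,0,⟨0,
  [(7,0)]⟩,⟨0,[(1,0),(33,1),(10,0)]⟩⟩,.e ⟨false,1,⟨12,[(7,7),(0,2),(4,0),(6,0),(0,6),(23,3)]⟩,⟨0,
  [(17,0)]⟩⟩ ⟨false,0,⟨0,[(7,0)]⟩,⟨23,[(4,0),(7,8),(7,6),(2,4),(21,11),(0,4)]⟩⟩,.o ⟨false,0,⟨0,[(35,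
  0)]⟩,⟨13,[(3,3),(2,4),(1,1),(4,2),(6,0),(11,0),(16,4)]⟩⟩]⟩) (.R ⟨0,false,false,false,[1,0,-1],[0,
  0,1],[0,0,1,0,0,0,0,1],(⟨0,[(36,0)]⟩,⟨0,[(37,0)]⟩),(⟨0,[(37,0)]⟩,⟨0,[(36,0)]⟩),⟨0,[(25,0)]⟩,.k,.k,
  .k,.k,.k,.k,⟨true,0,⟨1,[(34,0),(0,0)]⟩,⟨0,[]⟩⟩,⟨false,1,⟨7,[(1,1),(1,2),(1,3),(1,0),(0,2),(23,1),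
  (16,3)]⟩,⟨0,[(24,0)]⟩⟩,⟨false,0,⟨1,[(0,0),(0,1),(8,1),(1,1),(22,1)]⟩,⟨14,[(8,12),(4,5),(6,0),(0,
  6),(27,0)]⟩⟩,⟨true,0,⟨0,[(14,0)]⟩,⟨0,[(8,0),(15,0)]⟩⟩,⟨false,0,⟨0,[]⟩,⟨0,[]⟩⟩,⟨false,0,⟨0,[]⟩,⟨0,
  []⟩⟩,[.a ⟨true,0,⟨21,[(14,7),(17,5),(5,1),(1,1),(3,2),(5,2)]⟩,⟨23,[(0,0),(6,4),(0,7),(4,2),(10,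
  10),(6,1),(12,2)]⟩⟩ ⟨false,0,⟨0,[(12,0),(38,0)]⟩,⟨4,[(8,2),(4,0),(6,0),(0,1),(27,0)]⟩⟩ ⟨true,0,⟨0,
  [(1,0)]⟩,⟨5,[(0,0),(6,1),(0,1),(15,3),(10,3)]⟩⟩,.o ⟨false,1,⟨9,[(3,1),(2,1),(7,1),(5,1),(24,0),(4,
  4)]⟩,⟨0,[(33,0)]⟩⟩,.e ⟨true,0,⟨19,[(3,4),(0,7),(5,4),(4,0),(6,4),(12,4)]⟩,⟨0,[(9,0)]⟩⟩ ⟨true,0,⟨0,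
  [(1,0)]⟩,⟨9,[(8,3),(2,0),(8,0),(3,7),(8,2),(8,0)]⟩⟩,.o ⟨false,0,⟨0,[(35,0)]⟩,⟨13,[(3,3),(2,4),(1,
  1),(4,2),(6,0),(11,0),(16,4)]⟩⟩]⟩)))) (.I [0,-1,1,0,0,0,0,2] (.R ⟨0,false,false,false,[1,0,-1],[0,
  0,1],[0,0,1,0,0,0,0,1],(⟨0,[(34,0)]⟩,⟨0,[(35,0)]⟩),(⟨0,[(35,0)]⟩,⟨0,[(34,0)]⟩),⟨0,[(23,0)]⟩,.k,.k,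
  .k,.k,.k,.k,⟨true,0,⟨1,[(32,0),(0,0)]⟩,⟨0,[]⟩⟩,⟨false,1,⟨8,[(3,2),(0,2),(1,1),(10,7),(1,2),(10,
  3)]⟩,⟨0,[(22,0)]⟩⟩,⟨false,0,⟨0,[(0,0)]⟩,⟨14,[(6,12),(4,5),(6,0),(0,6),(27,0)]⟩⟩,⟨true,0,⟨0,[(12,
  0)]⟩,⟨0,[(6,0),(15,0)]⟩⟩,⟨false,0,⟨0,[]⟩,⟨0,[]⟩⟩,⟨false,0,⟨0,[]⟩,⟨0,[]⟩⟩,[.e ⟨false,0,⟨0,[(10,0),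
  (38,0)]⟩,⟨4,[(6,2),(4,0),(6,0),(0,1),(27,0)]⟩⟩ ⟨false,1,⟨7,[(3,2),(0,1),(7,0),(4,2),(1,2),(10,
  5)]⟩,⟨1,[(1,0),(6,0),(22,0)]⟩⟩,.o ⟨false,1,⟨8,[(4,1),(7,2),(5,0),(1,0),(11,0),(10,0),(4,4)]⟩,⟨0,
  [(31,0)]⟩⟩,.a ⟨true,0,⟨4,[(1,0),(6,0),(0,0),(8,0),(10,0)]⟩,⟨0,[(17,0)]⟩⟩ ⟨true,0,⟨13,[(0,3),(1,1),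
  (17,3),(11,2),(0,2)]⟩,⟨0,[(7,0)]⟩⟩ ⟨false,1,⟨4,[(3,0),(0,0),(7,1),(6,0),(10,0),(1,2),(15,1)]⟩,⟨1,
  [(1,0),(6,0),(22,0)]⟩⟩,.o ⟨false,0,⟨0,[(33,0)]⟩,⟨6,[(3,0),(0,2),(1,0),(4,0),(7,1),(10,2)]⟩⟩]⟩)
  (.R ⟨0,false,false,false,[1,0,-1],[2,-1,-1],[0,0,0,-1,0,0,0,-1],(⟨0,[(34,0)]⟩,⟨0,[(35,0)]⟩),(⟨0,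
  [(34,0),(3,0)]⟩,⟨0,[(23,0)]⟩),⟨0,[(23,0)]⟩,.k,.k,.k,.k,.k,.k,⟨true,0,⟨1,[(32,0),(0,0)]⟩,⟨0,[]⟩⟩,
  ⟨false,0,⟨181,[(5,35),(3,29),(8,17),(2,23),(8,29),(5,19),(1,19),(3,32),(4,20)]⟩,⟨1,[(43,0),(3,
  0)]⟩⟩,⟨true,0,⟨0,[(46,0)]⟩,⟨0,[(45,0)]⟩⟩,⟨false,0,⟨17,[(5,13),(2,3),(3,1),(0,2),(1,1),(2,0),(23,
  0)]⟩,⟨13,[(21,5),(18,1),(2,6),(0,1),(2,0)]⟩⟩,⟨false,0,⟨0,[]⟩,⟨0,[]⟩⟩,⟨false,0,⟨0,[]⟩,⟨0,[]⟩⟩,[.o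
  ⟨false,0,⟨31,[(5,16),(2,8),(0,2),(8,1),(0,0),(0,3),(10,19)]⟩,⟨18,[(2,8),(1,14),(5,3),(1,1),(5,0),
  (24,2)]⟩⟩,.a ⟨true,0,⟨4,[(1,0),(3,4),(2,0),(0,0),(8,0),(10,0)]⟩,⟨0,[(0,0),(0,0),(10,1),(20,0)]⟩⟩
  ⟨false,1,⟨12,[(5,7),(0,2),(4,0),(6,0),(0,6),(23,3)]⟩,⟨14,[(2,6),(10,3),(26,4),(3,4)]⟩⟩ ⟨true,0,⟨0,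
  [(5,0)]⟩,⟨0,[(0,0),(0,0),(10,1),(20,1)]⟩⟩,.e ⟨false,1,⟨40,[(5,45),(0,9),(11,11),(0,5),(0,0),(22,
  22)]⟩,⟨0,[(1,0),(10,0)]⟩⟩ ⟨false,0,⟨0,[(5,0)]⟩,⟨23,[(2,0),(7,8),(7,6),(2,4),(21,11),(0,4)]⟩⟩,.o
  ⟨false,0,⟨0,[(33,0)]⟩,⟨6,[(3,0),(0,2),(1,0),(4,0),(7,1),(10,2)]⟩⟩]⟩))) (.Q [0,1,0,-1,-1,0,0,0,0,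
  1] (.pp false [-1,1]) (.R ⟨0,false,false,false,[1,0,-1],[0,1],[1,0,1,1],(⟨0,[(33,0)]⟩,⟨0,[(34,
  0)]⟩),(⟨0,[(38,0)]⟩,⟨0,[(37,0)]⟩),⟨0,[(22,0)]⟩,.k,.k,.k,.k,.k,.k,⟨true,0,⟨0,[]⟩,⟨1,[(31,0),(0,
  0)]⟩⟩,⟨false,1,⟨13,[(1,3),(0,4),(0,2),(2,1),(4,2),(31,2),(2,5)]⟩,⟨19,[(4,2),(2,0),(0,6),(8,4),(2,
  2),(11,11),(8,0)]⟩⟩,⟨true,0,⟨0,[(14,0)]⟩,⟨4,[(1,1),(3,1),(13,0),(19,0)]⟩⟩,⟨false,1,⟨2,[(2,2),(9,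
  0),(1,0)]⟩,⟨31,[(4,16),(2,8),(0,2),(8,1),(0,0),(0,3),(10,19)]⟩⟩,⟨false,0,⟨0,[]⟩,⟨0,[]⟩⟩,⟨false,0,
  ⟨0,[]⟩,⟨0,[]⟩⟩,[.o ⟨false,1,⟨13,[(20,5),(18,1),(2,6),(0,1),(2,0)]⟩,⟨0,[(45,0)]⟩⟩,.a ⟨true,1,⟨3,
  [(20,1),(25,0),(0,0)]⟩,⟨0,[(0,0)]⟩⟩ ⟨false,1,⟨3,[(20,1),(25,0),(0,0)]⟩,⟨2,[(1,0),(17,0),(19,0)]⟩⟩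
  ⟨true,1,⟨0,[(2,0)]⟩,⟨0,[(0,0),(31,0)]⟩⟩,.e ⟨false,1,⟨9,[(4,3),(12,1),(2,5),(10,0),(0,0),(9,1)]⟩,
  ⟨4,[(1,1),(10,0)]⟩⟩ ⟨false,1,⟨0,[(2,0)]⟩,⟨15,[(4,0),(2,8),(0,2),(8,1),(0,0),(0,3),(10,3)]⟩⟩,.o
  ⟨false,0,⟨0,[(32,0)]⟩,⟨6,[(2,0),(0,2),(1,0),(4,0),(7,1),(10,2)]⟩⟩]⟩) (.I [0,0,0,-1,0,0,0,-1] (.R
  ⟨2,true,false,false,[0,1],[1,0,-1],[1,0,1,1],(⟨0,[]⟩,⟨0,[]⟩),(⟨0,[(34,0)]⟩,⟨0,[(35,0)]⟩),⟨0,[]⟩,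
  .k,.k,.k,.k,.k,.k,⟨true,0,⟨0,[(15,0)]⟩,⟨0,[(0,0)]⟩⟩,⟨false,0,⟨8,[(8,0),(0,1),(8,0),(2,0),(0,1),(6,
  1)]⟩,⟨6,[(3,0),(0,2),(1,0),(4,0),(7,1),(10,2)]⟩⟩,⟨true,0,⟨0,[]⟩,⟨0,[(50,0)]⟩⟩,⟨false,0,⟨0,[(1,0),
  (0,0),(30,0),(8,0),(6,0)]⟩,⟨5,[(3,2),(0,0),(7,0),(5,1),(21,0),(4,0)]⟩⟩,⟨false,1,⟨3,[(21,1),(25,0),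
  (0,0)]⟩,⟨0,[(46,0)]⟩⟩,⟨true,0,⟨19,[(1,0),(3,4),(0,6),(4,1),(3,0),(6,9),(19,2),(1,0)]⟩,⟨0,[(14,
  0)]⟩⟩,[]⟩) (.R ⟨0,false,false,false,[1,0,-1],[0,0,1],[0,0,1,0,0,0,0,1],(⟨0,[(34,0)]⟩,⟨0,[(35,
  0)]⟩),(⟨0,[(35,0)]⟩,⟨0,[(34,0)]⟩),⟨0,[(23,0)]⟩,.k,.k,.k,.k,.k,.k,⟨true,0,⟨1,[(32,0),(0,0)]⟩,⟨0,
  []⟩⟩,⟨false,1,⟨5,[(2,2),(0,5),(2,0),(10,0),(12,4)]⟩,⟨0,[(22,0)]⟩⟩,⟨false,0,⟨0,[(0,0),(0,0),(0,0),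
  (9,0),(20,1),(8,0),(6,0)]⟩,⟨14,[(6,12),(4,5),(6,0),(0,6),(27,0)]⟩⟩,⟨true,0,⟨0,[(12,0)]⟩,⟨0,[(6,0),
  (15,0)]⟩⟩,⟨false,0,⟨0,[]⟩,⟨0,[]⟩⟩,⟨false,0,⟨0,[]⟩,⟨0,[]⟩⟩,[.e ⟨false,0,⟨2,[(13,0),(1,0)]⟩,⟨4,[(6,
  2),(4,0),(6,0),(0,1),(27,0)]⟩⟩ ⟨false,1,⟨12,[(2,2),(0,8),(0,0),(7,1),(6,2),(10,11)]⟩,⟨4,[(0,4),(0,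
  1),(0,2),(2,0),(0,2),(15,1),(10,5),(8,1)]⟩⟩,.o ⟨false,1,⟨8,[(4,1),(7,2),(5,0),(1,0),(11,0),(10,0),
  (4,4)]⟩,⟨0,[(31,0)]⟩⟩,.a ⟨true,0,⟨8,[(8,0),(0,1),(8,0),(2,0),(0,1),(6,1)]⟩,⟨0,[(17,0)]⟩⟩ ⟨true,0,
  ⟨4,[(8,0),(3,0),(2,1),(4,0),(11,0),(0,1)]⟩,⟨0,[(7,0)]⟩⟩ ⟨false,1,⟨4,[(3,0),(0,0),(7,1),(6,0),(10,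
  0),(1,2),(15,1)]⟩,⟨4,[(0,4),(0,1),(0,2),(2,0),(0,2),(15,1),(10,5),(8,1)]⟩⟩,.o ⟨false,0,⟨0,[(33,
  0)]⟩,⟨6,[(3,0),(0,2),(1,0),(4,0),(7,1),(10,2)]⟩⟩]⟩))))) (.R ⟨0,false,false,false,[-1,1,1],[0,0,1],
  [0,0,1,0,0,0,0,1],(⟨0,[(19,0)]⟩,⟨0,[(30,0),(3,0)]⟩),(⟨0,[(31,0)]⟩,⟨0,[(30,0)]⟩),⟨0,[(30,0)]⟩,.k,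
  .k,.k,.k,.k,.k,⟨true,0,⟨1,[(28,0),(0,0)]⟩,⟨0,[]⟩⟩,⟨false,0,⟨181,[(1,35),(3,29),(8,17),(2,23),(8,
  29),(5,19),(1,19),(3,32),(4,20)]⟩,⟨1,[(39,0),(3,0)]⟩⟩,⟨true,0,⟨0,[(42,0)]⟩,⟨0,[(41,0)]⟩⟩,⟨false,0,
  ⟨27,[(0,1),(0,19),(2,5),(3,3),(0,3),(4,1),(23,0),(5,0)]⟩,⟨13,[(17,5),(18,1),(2,6),(0,1),(2,0)]⟩⟩,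
  ⟨false,0,⟨0,[]⟩,⟨0,[]⟩⟩,⟨false,0,⟨0,[]⟩,⟨0,[]⟩⟩,[.e ⟨false,0,⟨2,[(9,0),(1,0)]⟩,⟨4,[(2,2),(4,0),(6,
  0),(0,1),(27,0)]⟩⟩ ⟨false,0,⟨6,[(0,0),(8,0),(4,1),(0,0),(10,0),(5,0),(1,0),(3,1)]⟩,⟨1,[(3,1),(35,
  0),(4,0)]⟩⟩,.o ⟨false,1,⟨2,[(8,0),(17,0),(12,0),(4,1)]⟩,⟨0,[(27,0)]⟩⟩,.a ⟨true,1,⟨25,[(2,9),(4,5),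
  (0,11),(6,5),(10,1),(12,6),(3,6)]⟩,⟨0,[(0,0)]⟩⟩ ⟨true,0,⟨14,[(0,1),(3,0),(3,4),(5,1),(1,0),(11,1),
  (0,8)]⟩,⟨0,[(3,0)]⟩⟩ ⟨false,0,⟨13,[(0,6),(3,3),(3,3),(2,1),(2,1),(13,2),(15,4)]⟩,⟨1,[(3,1),(35,0),
  (4,0)]⟩⟩,.o ⟨false,1,⟨5,[(1,0),(0,1),(4,0),(0,2),(30,4)]⟩,⟨8,[(4,0),(0,1),(8,0),(2,0),(0,1),(6,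
  1)]⟩⟩]⟩))))) (.I [1,-1,-1,0,1,0,0,-1] (.R ⟨0,false,false,false,[1,0,-1],[2,-1,-1],[1,0,0,0,0,0,0,
  -1],(⟨0,[(27,0)]⟩,⟨0,[(28,0)]⟩),(⟨0,[(27,0),(3,0)]⟩,⟨0,[(16,0)]⟩),⟨0,[(16,0)]⟩,.k,.k,.k,.k,.k,.k,
  ⟨true,0,⟨1,[(1,1),(24,1),(8,0),(5,0)]⟩,⟨0,[(39,0)]⟩⟩,⟨false,0,⟨73,[(2,17),(1,11),(6,5),(11,17),(5,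
  7),(1,7),(3,14),(4,2),(0,11)]⟩,⟨1,[(36,0),(3,0)]⟩⟩,⟨true,0,⟨0,[]⟩,⟨0,[(43,0)]⟩⟩,⟨false,0,⟨1,[(35,
  0),(3,1),(1,0)]⟩,⟨13,[(14,5),(18,1),(2,6),(0,1),(2,0)]⟩⟩,⟨false,0,⟨0,[]⟩,⟨0,[]⟩⟩,⟨false,0,⟨0,[]⟩,
  ⟨0,[]⟩⟩,[.o ⟨false,0,⟨1,[(2,1),(33,0),(4,0)]⟩,⟨2,[(1,0),(1,0),(1,0),(8,0),(21,1)]⟩⟩,.e ⟨false,1,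
  ⟨0,[(0,0)]⟩,⟨0,[(9,0)]⟩⟩ ⟨false,1,⟨15,[(0,12),(1,7),(8,0),(0,5),(0,2),(11,7),(15,3)]⟩,⟨0,[(1,0),
  (1,0),(22,0)]⟩⟩,.a ⟨true,0,⟨33,[(2,7),(8,3),(2,1),(0,9),(6,5),(12,0),(5,2)]⟩,⟨0,[(10,0)]⟩⟩ ⟨false,
  1,⟨0,[(4,0),(34,0)]⟩,⟨2,[(6,0),(1,0)]⟩⟩ ⟨true,0,⟨1,[(0,0),(1,0),(22,0),(13,0)]⟩,⟨0,[(1,0),(1,0),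
  (22,0)]⟩⟩,.o ⟨false,0,⟨0,[(26,0)]⟩,⟨3,[(0,0),(0,1),(10,1),(10,0),(1,0),(10,0)]⟩⟩]⟩) (.Q [0,-1,0,
  -1,0,0,1,1,0,0,1] (.p true [0,0,1] [] (⟨0,[(28,0)]⟩,⟨0,[(27,0)]⟩) .k 0 (⟨0,[]⟩,⟨0,[]⟩) .k .k) (.R
  ⟨0,false,false,false,[1,0,-1],[1,-1],[],(⟨0,[(28,0)]⟩,⟨0,[(29,0)]⟩),(⟨0,[(32,0)]⟩,⟨0,[(33,0)]⟩),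
  ⟨0,[(17,0)]⟩,.k,.k,.k,.k,.k,.k,⟨true,0,⟨0,[(1,0),(3,0)]⟩,⟨0,[(40,0)]⟩⟩,⟨false,0,⟨0,[(11,0)]⟩,⟨16,
  [(5,0),(6,2),(0,3),(2,5),(8,4),(11,2),(3,5)]⟩⟩,⟨true,0,⟨2,[(7,0),(1,0)]⟩,⟨0,[(11,0),(13,0)]⟩⟩,
  ⟨false,0,⟨0,[(0,0)]⟩,⟨12,[(5,5),(6,0),(2,2),(0,1),(8,8),(11,0),(3,1)]⟩⟩,⟨false,0,⟨0,[]⟩,⟨0,[]⟩⟩,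
  ⟨false,0,⟨0,[]⟩,⟨0,[]⟩⟩,[.o ⟨false,0,⟨0,[(40,0)]⟩,⟨13,[(15,5),(18,1),(2,6),(0,1),(2,0)]⟩⟩,.e
  ⟨false,1,⟨1,[(41,0),(0,0)]⟩,⟨0,[(44,0)]⟩⟩ ⟨false,1,⟨0,[(13,0),(12,0)]⟩,⟨0,[(27,0),(10,0)]⟩⟩,.a
  ⟨true,0,⟨33,[(3,7),(8,3),(2,1),(0,9),(6,5),(12,0),(5,2)]⟩,⟨0,[(11,0)]⟩⟩ ⟨false,1,⟨1,[(19,0),(0,0),
  (21,0)]⟩,⟨0,[]⟩⟩ ⟨true,0,⟨0,[(11,0),(28,0)]⟩,⟨0,[(27,0),(10,0)]⟩⟩,.o ⟨false,0,⟨0,[(27,0)]⟩,⟨3,[(2,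
  1),(10,1),(12,1),(10,0),(3,0)]⟩⟩]⟩) (.Q [0,0,0,0,0,0,-2,-1,0,1,-2] (.p false [0,0,1] [1,0,-1] (⟨0,
  [(29,0)]⟩,⟨0,[(28,0)]⟩) .k 2 (⟨0,[(28,0)]⟩,⟨0,[(29,0)]⟩) .k (.r 0 ⟨2,[(7,1),(1,1)]⟩ ⟨0,[(3,0),(1,
  0),(5,0),(25,0)]⟩)) (.R ⟨0,false,false,false,[1,0,-1],[0,0,1],[1,0,0,0,0,0,0,1],(⟨0,[(29,0)]⟩,⟨0,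
  [(30,0)]⟩),(⟨0,[(30,0)]⟩,⟨0,[(29,0)]⟩),⟨0,[(18,0)]⟩,.k,.k,.k,.k,.k,.k,⟨true,0,⟨0,[]⟩,⟨1,[(27,0),
  (0,0)]⟩⟩,⟨false,1,⟨0,[(3,0),(10,0),(12,0)]⟩,⟨0,[(17,0)]⟩⟩,⟨false,0,⟨0,[(2,0),(2,0),(37,0)]⟩,⟨0,
  [(4,0),(1,0),(5,0),(25,0)]⟩⟩,⟨true,0,⟨0,[(7,0)]⟩,⟨2,[(0,0),(3,0),(1,0),(19,2)]⟩⟩,⟨false,0,⟨0,[]⟩,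
  ⟨0,[]⟩⟩,⟨false,0,⟨0,[]⟩,⟨0,[]⟩⟩,[.e ⟨false,0,⟨0,[(5,0)]⟩,⟨2,[(6,0),(7,0),(5,0),(0,0),(4,1),(0,
  1)]⟩⟩ ⟨false,1,⟨20,[(3,8),(2,4),(0,7),(6,13),(10,9),(1,6),(10,1)]⟩,⟨0,[(0,0)]⟩⟩,.o ⟨false,1,⟨2,
  [(7,0),(17,0),(12,0),(4,1)]⟩,⟨0,[(26,0)]⟩⟩,.a ⟨true,0,⟨11,[(0,1),(3,1),(8,1),(3,1),(6,1),(12,0),
  (5,0)]⟩,⟨0,[(12,0)]⟩⟩ ⟨true,0,⟨2,[(8,0),(1,0)]⟩,⟨0,[(12,0),(13,0)]⟩⟩ ⟨false,1,⟨5,[(6,1),(0,3),(6,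
  1),(12,3),(10,0),(4,0)]⟩,⟨0,[(0,0)]⟩⟩,.o ⟨false,0,⟨0,[(28,0)]⟩,⟨3,[(3,1),(10,1),(12,1),(10,0),(3,
  0)]⟩⟩]⟩) (.R ⟨0,false,false,false,[1,0,-1],[0,0,1],[1,0,0,0,0,0,0,1],(⟨0,[(29,0)]⟩,⟨0,[(30,0)]⟩),
  (⟨0,[(30,0)]⟩,⟨0,[(29,0)]⟩),⟨0,[(18,0)]⟩,.k,.k,.k,.k,.k,.k,⟨true,0,⟨0,[]⟩,⟨1,[(27,0),(0,0)]⟩⟩,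
  ⟨false,1,⟨2,[(0,0),(5,0),(5,3),(1,0),(20,0),(2,0)]⟩,⟨0,[(17,0)]⟩⟩,⟨false,0,⟨0,[(2,0),(2,0),(37,
  0)]⟩,⟨0,[(4,0),(1,0),(5,0),(25,0)]⟩⟩,⟨true,0,⟨0,[(7,0)]⟩,⟨1,[(1,0),(2,0),(21,1),(16,0)]⟩⟩,⟨false,
  0,⟨0,[]⟩,⟨0,[]⟩⟩,⟨false,0,⟨0,[]⟩,⟨0,[]⟩⟩,[.a ⟨true,0,⟨21,[(7,7),(17,5),(5,1),(1,1),(3,2),(5,2)]⟩,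
  ⟨1,[(1,0),(2,0),(38,0)]⟩⟩ ⟨false,0,⟨0,[(5,0)]⟩,⟨2,[(6,0),(7,0),(5,0),(0,0),(4,1),(0,1)]⟩⟩ ⟨true,0,
  ⟨0,[(0,0)]⟩,⟨1,[(1,0),(2,0),(23,1),(14,0)]⟩⟩,.o ⟨false,1,⟨11,[(0,4),(6,0),(5,1),(0,0),(0,0),(22,
  2),(4,5)]⟩,⟨0,[(26,0)]⟩⟩,.e ⟨true,0,⟨2,[(8,0),(1,0)]⟩,⟨0,[(12,0),(13,0)]⟩⟩ ⟨true,0,⟨0,[(0,0)]⟩,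
  ⟨11,[(4,2),(1,1),(6,0),(3,5),(8,8),(8,0)]⟩⟩,.o ⟨false,0,⟨0,[(28,0)]⟩,⟨2,[(0,0),(5,0),(5,0),(1,0),
  (20,0),(2,0)]⟩⟩]⟩))))) (.Q [0,1,1,1,0,0,1,0,0,-1,1] (.p true [0,0,1] [1] (⟨0,[(26,0)]⟩,⟨0,[(25,
  0)]⟩) .k 1 (⟨0,[]⟩,⟨0,[]⟩) .k .k) (.Q [0,-1,1,1,0,0,-1,0,0,1,-1] (.p false [0,0,1] [1] (⟨0,[(27,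
  0)]⟩,⟨0,[(26,0)]⟩) .k 1 (⟨0,[]⟩,⟨0,[]⟩) .k .k) (.Q [0,1,0,1,0,0,-2,-2,0,1,-2] (.p false [0,0,1]
  [1,0,-1] (⟨0,[(28,0)]⟩,⟨0,[(27,0)]⟩) .k 2 (⟨0,[(27,0)]⟩,⟨0,[(28,0)]⟩) .k (.r 0 ⟨2,[(6,1),(1,1)]⟩
  ⟨0,[(4,0),(5,0),(13,0),(14,0)]⟩)) (.R ⟨0,false,false,true,[1,0,-1],[2,-1,-1],[0,1,0,0,0,0,0,-1],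
  (⟨0,[(28,0)]⟩,⟨0,[(29,0)]⟩),(⟨0,[(28,0),(3,0)]⟩,⟨0,[(17,0)]⟩),⟨0,[(17,0)]⟩,.k,.k,.k,.k,.k,.k,
  ⟨true,0,⟨1,[(1,0),(0,0)]⟩,⟨0,[(40,0)]⟩⟩,⟨false,0,⟨100,[(0,14),(11,11),(0,20),(0,5),(11,29),(3,19),
  (1,19),(3,32)]⟩,⟨1,[(37,0),(3,0)]⟩⟩,⟨true,0,⟨7,[(0,0),(1,0),(11,1),(11,0),(7,1)]⟩,⟨0,[]⟩⟩,⟨false,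
  0,⟨4,[(0,0),(12,0),(0,1),(11,1),(9,1),(3,2),(1,0)]⟩,⟨2,[(0,0),(2,1),(38,0)]⟩⟩,⟨false,0,⟨0,[]⟩,⟨0,
  []⟩⟩,⟨false,0,⟨0,[]⟩,⟨0,[]⟩⟩,[.o ⟨false,0,⟨18,[(0,12),(12,2),(0,6),(11,6),(7,0),(1,2),(3,21)]⟩,⟨0,
  [(3,0)]⟩⟩,.o ⟨false,0,⟨3,[(0,1),(35,0),(3,5),(1,0)]⟩,⟨11,[(2,1),(0,8),(8,0),(11,0),(9,2),(2,1)]⟩⟩,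
  .a ⟨true,0,⟨115,[(0,14),(11,5),(0,2),(0,17),(1,42),(13,9),(1,9),(3,23),(5,14)]⟩,⟨0,[(11,0)]⟩⟩
  ⟨true,0,⟨0,[(11,0),(13,0)]⟩,⟨2,[(7,0),(1,0)]⟩⟩ ⟨false,0,⟨2,[(0,0),(4,0),(5,1),(24,0),(3,4)]⟩,⟨47,
  [(3,31),(0,7),(7,3),(2,5),(0,15),(24,0),(0,4)]⟩⟩,.o ⟨false,0,⟨0,[(27,0)]⟩,⟨0,[(2,0),(10,0)]⟩⟩]⟩)
  (.R ⟨0,false,false,false,[1,0,-1],[1,-1],[],(⟨0,[(28,0)]⟩,⟨0,[(29,0)]⟩),(⟨0,[(32,0)]⟩,⟨0,[(33,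
  0)]⟩),⟨0,[(17,0)]⟩,.k,.k,.k,.k,.k,.k,⟨true,0,⟨1,[(1,0),(0,0)]⟩,⟨0,[(40,0)]⟩⟩,⟨false,0,⟨0,[(11,
  0)]⟩,⟨16,[(5,0),(6,2),(0,3),(2,5),(8,4),(11,2),(3,5)]⟩⟩,⟨true,0,⟨2,[(7,0),(1,0)]⟩,⟨0,[(11,0),(13,
  0)]⟩⟩,⟨false,0,⟨3,[(0,1),(35,0),(3,1),(1,0)]⟩,⟨12,[(5,5),(6,0),(2,2),(0,1),(8,8),(11,0),(3,1)]⟩⟩,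
  ⟨false,0,⟨0,[]⟩,⟨0,[]⟩⟩,⟨false,0,⟨0,[]⟩,⟨0,[]⟩⟩,[.o ⟨false,0,⟨0,[(40,0)]⟩,⟨13,[(15,5),(18,1),(2,
  6),(0,1),(2,0)]⟩⟩,.e ⟨false,1,⟨1,[(41,0),(0,0)]⟩,⟨0,[(44,0)]⟩⟩ ⟨false,1,⟨0,[(13,0),(12,0)]⟩,⟨0,
  [(27,0),(10,0)]⟩⟩,.a ⟨true,0,⟨15,[(5,2),(8,2),(1,7),(13,1),(1,1),(3,2)]⟩,⟨0,[(11,0)]⟩⟩ ⟨false,1,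
  ⟨1,[(19,0),(0,0),(21,0)]⟩,⟨0,[]⟩⟩ ⟨true,0,⟨0,[(11,0),(28,0)]⟩,⟨0,[(27,0),(10,0)]⟩⟩,.o ⟨false,0,⟨0,
  [(27,0)]⟩,⟨0,[(2,0),(10,0)]⟩⟩]⟩)) (.I [1,1,0,-1,0,0,0,-2] (.I [1,1,1,1,-1,0,0,2] (.R ⟨0,false,
  false,false,[1,0,-1],[2,-1,-1],[1,0,0,0,0,0,0,-1],(⟨0,[(29,0)]⟩,⟨0,[(30,0)]⟩),(⟨0,[(29,0),(3,0)]⟩,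
  ⟨0,[(18,0)]⟩),⟨0,[(18,0)]⟩,.k,.k,.k,.k,.k,.k,⟨true,0,⟨0,[(4,0),(21,0),(10,0),(6,0)]⟩,⟨0,[(41,
  0)]⟩⟩,⟨false,0,⟨29,[(1,4),(4,1),(6,5),(0,2),(16,7),(1,7),(3,10)]⟩,⟨1,[(38,0),(3,0)]⟩⟩,⟨true,0,⟨0,
  []⟩,⟨6,[(0,0),(0,1),(11,0),(21,1)]⟩⟩,⟨false,0,⟨1,[(37,0),(3,1),(1,0)]⟩,⟨13,[(16,5),(18,1),(2,6),
  (0,1),(2,0)]⟩⟩,⟨false,0,⟨0,[]⟩,⟨0,[]⟩⟩,⟨false,0,⟨0,[]⟩,⟨0,[]⟩⟩,[.o ⟨false,0,⟨3,[(1,1),(15,1),(19,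
  0),(3,1),(1,0)]⟩,⟨11,[(3,1),(0,8),(8,0),(11,0),(9,2),(2,1)]⟩⟩,.e ⟨false,1,⟨1,[(1,1),(2,1),(19,1),
  (12,0),(5,0)]⟩,⟨0,[(11,0)]⟩⟩ ⟨false,1,⟨89,[(1,64),(4,7),(6,23),(0,56),(16,1),(1,1),(3,43),(5,
  44)]⟩,⟨1,[(0,0),(37,0),(0,0)]⟩⟩,.a ⟨true,0,⟨17,[(1,1),(11,1),(3,7),(6,1),(6,1),(1,1),(3,2),(5,
  0)]⟩,⟨0,[(12,0)]⟩⟩ ⟨false,1,⟨21,[(1,8),(4,7),(6,1),(0,0),(28,10)]⟩,⟨11,[(0,1),(7,2),(4,0),(29,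
  0)]⟩⟩ ⟨true,0,⟨25,[(1,15),(13,5),(15,3),(1,3),(3,10),(3,3),(1,10)]⟩,⟨1,[(0,0),(37,0),(0,0)]⟩⟩,.o
  ⟨false,0,⟨0,[(28,0)]⟩,⟨11,[(2,5),(1,1),(1,5),(7,1),(10,3),(12,0),(3,0)]⟩⟩]⟩) (.Q [0,-1,0,1,1,0,0,
  0,0,-1] (.pp true [-1,1]) (.R ⟨0,false,false,false,[1,0,-1],[0,1],[1,0,1,1],(⟨0,[(30,0)]⟩,⟨0,[(31,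
  0)]⟩),(⟨0,[(35,0)]⟩,⟨0,[(34,0)]⟩),⟨0,[(19,0)]⟩,.k,.k,.k,.k,.k,.k,⟨true,0,⟨0,[]⟩,⟨1,[(28,0),(0,
  0)]⟩⟩,⟨false,1,⟨7,[(1,2),(1,1),(1,1),(2,1),(6,1),(24,4),(2,0)]⟩,⟨7,[(1,0),(0,0),(11,1),(3,1),(10,
  3),(8,2),(6,2)]⟩⟩,⟨true,0,⟨0,[(11,0)]⟩,⟨1,[(2,0),(0,0),(21,0)]⟩⟩,⟨false,1,⟨5,[(5,1),(2,1),(8,1),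
  (25,0),(0,0)]⟩,⟨12,[(1,3),(0,2),(13,0),(1,4),(10,2),(8,3),(3,4),(2,0)]⟩⟩,⟨false,0,⟨0,[]⟩,⟨0,[]⟩⟩,
  ⟨false,0,⟨0,[]⟩,⟨0,[]⟩⟩,[.o ⟨false,1,⟨13,[(17,5),(18,1),(2,6),(0,1),(2,0)]⟩,⟨0,[(42,0)]⟩⟩,.o
  ⟨false,1,⟨0,[(0,0)]⟩,⟨2,[(2,0),(13,1)]⟩⟩,.a ⟨true,0,⟨109,[(1,8),(0,2),(11,11),(3,54),(13,12),(1,
  12),(1,2),(1,20)]⟩,⟨0,[(13,0)]⟩⟩ ⟨true,0,⟨0,[(5,0),(21,0),(10,0),(6,0)]⟩,⟨4,[(2,1),(0,0),(5,1),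
  (15,0),(10,0)]⟩⟩ ⟨false,1,⟨1,[(5,0),(1,0),(5,0)]⟩,⟨9,[(1,1),(14,3),(1,3),(10,1),(8,2),(3,3),(1,
  0)]⟩⟩,.o ⟨false,0,⟨0,[(29,0)]⟩,⟨5,[(1,1),(1,0),(0,0),(0,1),(20,1),(16,1)]⟩⟩]⟩) (.I [0,0,0,0,0,0,
  -1] (.I [3,0,0,1] (.I [0,0,0,0,1,0,0,0,-1] (.I [0,0,0,0,0,0,1,1] (.I [0,0,-1,0,0,0,0,1] (.C [(0,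
  0),(2,1),(1,1),(0,0),(3,0),(23,0),(15,0)]) (.C [(0,0),(4,0),(4,0),(19,0)])) (.C [(0,0),(3,0),(4,
  0),(24,0)])) (.C [(0,0),(23,0),(2,0)])) (.C [(0,0),(6,0),(21,0),(10,0)])) (.C [(0,1),(19,0),(0,0),
  (4,0),(3,0)])))) (.R ⟨0,false,false,false,[1,0,-1],[2,-1,-1],[0,0,0,-1,0,0,0,-1],(⟨0,[(28,0)]⟩,⟨0,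
  [(29,0)]⟩),(⟨0,[(28,0),(3,0)]⟩,⟨0,[(17,0)]⟩),⟨0,[(17,0)]⟩,.k,.k,.k,.k,.k,.k,⟨true,0,⟨1,[(26,0),(0,
  0)]⟩,⟨0,[]⟩⟩,⟨false,0,⟨7,[(5,2),(8,2),(15,1),(1,1),(3,2)]⟩,⟨1,[(37,0),(3,0)]⟩⟩,⟨true,0,⟨0,[(40,
  0)]⟩,⟨0,[(39,0)]⟩⟩,⟨false,0,⟨1,[(36,0),(3,1),(1,0)]⟩,⟨13,[(15,5),(18,1),(2,6),(0,1),(2,0)]⟩⟩,
  ⟨false,0,⟨0,[]⟩,⟨0,[]⟩⟩,⟨false,0,⟨0,[]⟩,⟨0,[]⟩⟩,[.o ⟨false,0,⟨1,[(25,1),(10,0),(3,1),(1,0)]⟩,⟨11,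
  [(2,1),(0,8),(8,0),(11,0),(9,2),(2,1)]⟩⟩,.e ⟨false,1,⟨1,[(1,1),(23,1),(10,0),(5,2)]⟩,⟨3,[(0,0),(8,
  1),(24,1),(4,0)]⟩⟩ ⟨false,1,⟨5,[(5,3),(7,3),(5,0),(0,0),(4,1),(0,1),(9,2),(3,5)]⟩,⟨1,[(0,1),(0,0),
  (0,0),(22,1)]⟩⟩,.a ⟨true,0,⟨15,[(5,2),(8,2),(1,7),(13,1),(1,1),(3,2)]⟩,⟨0,[(11,0)]⟩⟩ ⟨false,1,⟨0,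
  [(5,0),(34,1)]⟩,⟨1,[(0,0),(38,0)]⟩⟩ ⟨true,0,⟨1,[(5,0),(5,0),(13,0),(10,0),(3,2)]⟩,⟨1,[(0,1),(0,0),
  (0,0),(22,1)]⟩⟩,.o ⟨false,0,⟨0,[(27,0)]⟩,⟨11,[(1,5),(1,1),(1,5),(7,1),(10,3),(12,0),(3,0)]⟩⟩]⟩)))
  (.I [1,-1,0,0,0,0,0,2] (.Q [0,0,0,0,0,0,-2,-1,0,1,-2] (.p false [0,0,1] [1,0,-1] (⟨0,[(28,0)]⟩,⟨0,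
  [(27,0)]⟩) .k 2 (⟨0,[(27,0)]⟩,⟨0,[(28,0)]⟩) .k (.r 0 ⟨2,[(6,1),(1,1)]⟩ ⟨0,[(4,0),(5,0),(13,0),(14,
  0)]⟩)) (.R ⟨0,false,false,false,[1,0,-1],[0,0,1],[1,0,0,0,0,0,0,1],(⟨0,[(28,0)]⟩,⟨0,[(29,0)]⟩),
  (⟨0,[(29,0)]⟩,⟨0,[(28,0)]⟩),⟨0,[(17,0)]⟩,.k,.k,.k,.k,.k,.k,⟨true,0,⟨0,[]⟩,⟨1,[(26,0),(0,0)]⟩⟩,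
  ⟨false,1,⟨1,[(11,3),(25,0),(3,0)]⟩,⟨0,[(16,0)]⟩⟩,⟨false,0,⟨0,[(1,0)]⟩,⟨0,[(5,0),(5,0),(13,0),(14,
  0)]⟩⟩,⟨true,0,⟨0,[(6,0)]⟩,⟨0,[(0,0),(10,0),(13,0)]⟩⟩,⟨false,0,⟨0,[]⟩,⟨0,[]⟩⟩,⟨false,0,⟨0,[]⟩,⟨0,
  []⟩⟩,[.e ⟨false,0,⟨0,[(4,0)]⟩,⟨2,[(5,0),(7,0),(5,0),(0,0),(4,1),(0,1)]⟩⟩ ⟨false,1,⟨9,[(5,1),(0,3),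
  (4,7),(1,1),(10,3),(12,2),(3,2)]⟩,⟨0,[(0,0)]⟩⟩,.o ⟨false,1,⟨2,[(6,0),(17,0),(12,0),(4,1)]⟩,⟨0,
  [(25,0)]⟩⟩,.a ⟨true,0,⟨11,[(0,4),(1,0),(9,1),(1,0),(8,0),(6,0),(1,0),(3,1)]⟩,⟨0,[(11,0)]⟩⟩ ⟨true,
  0,⟨2,[(7,0),(1,0)]⟩,⟨0,[(11,0),(13,0)]⟩⟩ ⟨false,1,⟨5,[(5,1),(0,3),(6,1),(12,3),(10,0),(4,0)]⟩,⟨0,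
  [(0,0)]⟩⟩,.o ⟨false,0,⟨0,[(27,0)]⟩,⟨1,[(11,1),(25,0),(3,0)]⟩⟩]⟩) (.I [3,0,0,1] (.C [(0,0),(0,0),
  (1,0),(22,0),(17,0)]) (.C [(0,0),(3,0),(21,0),(10,0)]))) (.I [0,0,0,0,1,0,0,0,-1] (.I [0,0,1,0,0,
  -1,-1] (.I [0,0,1,0,0,0,1,2] (.I [3,-1,1,1,0,0,0,1] (.C [(0,0),(3,1),(0,0),(1,0),(1,0),(20,0)])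
  (.C [(0,0),(5,0),(23,0),(8,0)])) (.C [(0,0),(7,0),(20,0),(0,0)])) (.C [(0,0),(18,0),(8,0)])) (.C
  [(0,0),(18,0),(2,0)]))))) (.S ⟨1,0,[0,0,1,0,0,0,0,-1],[1,1,-1],[0,1,1,0,0,0,0,-1],(⟨21,[(1,2),(8,
  2),(13,21),(1,3),(4,5),(0,2)]⟩,⟨0,[(14,0)]⟩),⟨0,[(24,0)]⟩,.k,.k,⟨false,0,⟨0,[(36,0)]⟩,⟨3,[(11,1),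
  (25,0),(0,0)]⟩⟩,⟨true,0,⟨0,[(36,0)]⟩,⟨0,[(35,0)]⟩⟩,⟨true,0,⟨6,[(0,1),(4,0),(4,0),(19,2)]⟩,⟨0,[]⟩⟩,
  ⟨false,1,⟨10,[(0,4),(0,0),(6,2),(0,3),(28,2)]⟩,⟨0,[]⟩⟩,[.a ⟨true,0,⟨0,[(0,0),(18,0)]⟩,⟨21,[(2,7),
  (17,5),(5,1),(1,1),(3,2),(5,2)]⟩⟩ ⟨false,0,⟨0,[(7,0),(13,0)]⟩,⟨7,[(3,3),(7,1),(25,2),(0,2)]⟩⟩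
  ⟨true,0,⟨0,[(0,0)]⟩,⟨2,[(3,0),(1,0)]⟩⟩,.o ⟨false,1,⟨0,[(21,0),(16,0)]⟩,⟨0,[(4,0)]⟩⟩,.a ⟨true,0,⟨0,
  [(19,0)]⟩,⟨0,[(22,0)]⟩⟩ ⟨false,0,⟨0,[(0,0)]⟩,⟨7,[(3,3),(7,1),(25,2),(0,2)]⟩⟩ ⟨true,0,⟨0,[(0,0)]⟩,
  ⟨8,[(3,3),(1,0),(24,2),(3,2)]⟩⟩,.a ⟨true,0,⟨151,[(0,29),(7,11),(0,5),(0,5),(1,75),(13,9),(1,9),(3,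
  32),(4,14)]⟩,⟨0,[(7,0)]⟩⟩ ⟨true,0,⟨0,[(7,0),(13,0)]⟩,⟨2,[(3,0),(1,0)]⟩⟩ ⟨false,1,⟨10,[(0,8),(0,3),
  (6,0),(0,4),(28,0)]⟩,⟨2,[(3,0),(1,0)]⟩⟩]⟩))) (.I [1,0,-1,0,0,0,0,1] (.R ⟨0,false,false,true,[1,0,
  -1],[0,0,1],[1,1,0,0,0,0,0,1],(⟨0,[(23,0)]⟩,⟨0,[(24,0)]⟩),(⟨0,[(24,0)]⟩,⟨0,[(23,0)]⟩),⟨0,[(12,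
  0)]⟩,.k,.k,.k,.k,.k,.k,⟨true,0,⟨0,[]⟩,⟨1,[(21,0),(0,0)]⟩⟩,⟨false,1,⟨1,[(6,3),(25,0),(3,0)]⟩,⟨0,
  [(11,0)]⟩⟩,⟨false,0,⟨2,[(2,1),(1,1)]⟩,⟨1,[(1,1),(4,3),(25,0),(4,0)]⟩⟩,⟨true,0,⟨2,[(2,0),(0,2),(0,
  0),(1,2)]⟩,⟨0,[(1,0)]⟩⟩,⟨false,0,⟨0,[]⟩,⟨0,[]⟩⟩,⟨false,0,⟨0,[]⟩,⟨0,[]⟩⟩,[.o ⟨false,0,⟨0,[(3,0)]⟩,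
  ⟨3,[(1,1),(12,0),(0,0),(16,0),(4,1)]⟩⟩,.e ⟨false,0,⟨0,[(0,0)]⟩,⟨3,[(1,1),(12,0),(0,0),(5,3),(10,
  0),(3,1)]⟩⟩ ⟨false,1,⟨1,[(3,1),(2,1),(29,0),(0,0)]⟩,⟨1,[(1,0),(9,0)]⟩⟩,.a ⟨true,0,⟨91,[(1,14),(5,
  11),(0,5),(0,5),(1,30),(13,9),(1,9),(3,17)]⟩,⟨0,[(6,0)]⟩⟩ ⟨false,0,⟨2,[(2,0),(1,0)]⟩,⟨3,[(1,1),(4,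
  1),(14,1),(10,0),(3,0),(0,1)]⟩⟩ ⟨true,0,⟨0,[(3,0),(2,0)]⟩,⟨1,[(1,0),(9,0)]⟩⟩,.o ⟨false,0,⟨0,[(22,
  0)]⟩,⟨1,[(6,1),(25,0),(3,0)]⟩⟩]⟩) (.S ⟨1,0,[0,0,1,0,0,0,0,-1],[1,1,-1],[0,1,1,0,0,0,0,-1],(⟨22,
  [(14,2),(0,2),(7,22),(1,4),(4,5),(0,2)]⟩,⟨0,[(13,0)]⟩),⟨0,[(23,0)]⟩,.k,.k,⟨false,0,⟨0,[(35,0)]⟩,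
  ⟨3,[(10,1),(25,0),(0,0)]⟩⟩,⟨true,0,⟨0,[(35,0)]⟩,⟨0,[(34,0)]⟩⟩,⟨true,0,⟨0,[(39,0)]⟩,⟨0,[]⟩⟩,⟨false,
  1,⟨1,[(14,0),(0,0),(21,0)]⟩,⟨0,[]⟩⟩,[.a ⟨true,0,⟨163,[(1,93),(5,11),(0,11),(12,23),(3,15),(1,15),
  (1,5),(1,26),(4,2)]⟩,⟨2,[(2,0),(1,0),(1,2)]⟩⟩ ⟨false,0,⟨0,[(6,0),(13,0)]⟩,⟨7,[(2,3),(7,1),(25,2),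
  (0,2)]⟩⟩ ⟨true,0,⟨0,[(0,0)]⟩,⟨2,[(2,0),(1,0)]⟩⟩,.o ⟨false,1,⟨3,[(1,1),(12,0),(0,0),(16,0),(4,1)]⟩,
  ⟨0,[(3,0)]⟩⟩,.a ⟨true,0,⟨0,[(18,0)]⟩,⟨0,[(21,0)]⟩⟩ ⟨false,0,⟨0,[(0,0)]⟩,⟨7,[(2,3),(7,1),(25,2),(0,
  2)]⟩⟩ ⟨true,0,⟨0,[(0,0)]⟩,⟨8,[(2,3),(1,0),(24,2),(3,2)]⟩⟩,.a ⟨true,0,⟨91,[(1,14),(5,11),(0,5),(0,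
  5),(1,30),(13,9),(1,9),(3,17)]⟩,⟨0,[(6,0)]⟩⟩ ⟨true,0,⟨0,[(6,0),(13,0)]⟩,⟨2,[(2,0),(1,0)]⟩⟩ ⟨false,
  1,⟨1,[(0,1),(35,0),(0,0)]⟩,⟨2,[(2,0),(1,0)]⟩⟩]⟩)))

theorem ok5 : chk K t5 r8 = true := by decide +kernel

noncomputable def t7 : Tre :=
  (.R ⟨0,false,false,true,[1,0,-1],[1,-1],[0,1],(⟨0,[(23,0)]⟩,⟨0,[(24,0)]⟩),(⟨0,[(27,0)]⟩,⟨0,[(28,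
  0)]⟩),⟨0,[(12,0)]⟩,.k,.k,.k,.k,.k,.k,⟨true,0,⟨0,[(0,0),(3,0)]⟩,⟨0,[(35,0)]⟩⟩,⟨false,0,⟨0,[(6,0)]⟩,
  ⟨11,[(7,1),(0,1),(2,3),(8,3),(11,1),(3,4),(0,0)]⟩⟩,⟨true,0,⟨0,[(5,0)]⟩,⟨0,[(0,0)]⟩⟩,⟨false,0,⟨0,
  [(1,0)]⟩,⟨6,[(3,5),(6,2),(9,0),(11,2),(0,0),(2,0)]⟩⟩,⟨false,0,⟨0,[]⟩,⟨0,[]⟩⟩,⟨false,0,⟨0,[]⟩,⟨0,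
  []⟩⟩,[.e ⟨false,0,⟨0,[(33,0),(1,0)]⟩,⟨1,[(14,0),(0,0),(21,0)]⟩⟩ ⟨false,0,⟨0,[(6,0),(26,0),(1,1)]⟩,
  ⟨9,[(3,1),(0,1),(5,1),(0,3),(20,2),(0,3),(3,4)]⟩⟩,.o ⟨false,0,⟨0,[(35,0)]⟩,⟨13,[(10,5),(18,1),(2,
  6),(0,1),(2,0)]⟩⟩,.a ⟨true,0,⟨6,[(3,2),(3,0),(1,0),(1,1),(17,0),(1,0)]⟩,⟨0,[(6,0)]⟩⟩ ⟨true,0,⟨0,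
  [(39,0)]⟩,⟨0,[]⟩⟩ ⟨false,0,⟨0,[(6,0),(28,0)]⟩,⟨9,[(3,1),(0,1),(5,1),(0,3),(20,2),(0,3),(3,4)]⟩⟩,
  .o ⟨false,0,⟨0,[(22,0)]⟩,⟨5,[(2,3),(11,0),(0,0),(5,1),(10,0)]⟩⟩]⟩)

theorem ok7 : chk K t7 l11 = true := by decide +kernel

noncomputable def t8 : Tre :=
  (.R ⟨0,false,false,false,[1,0,-1],[0,0,1],[1,0,0,0,0,0,0,1],(⟨0,[(25,0)]⟩,⟨0,[(26,0)]⟩),(⟨0,[(26,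
  0)]⟩,⟨0,[(25,0)]⟩),⟨0,[(14,0)]⟩,.k,.k,.k,.k,.k,.k,⟨true,0,⟨0,[]⟩,⟨1,[(23,0),(0,0)]⟩⟩,⟨false,1,⟨0,
  [(4,0),(18,0)]⟩,⟨0,[(13,0)]⟩⟩,⟨true,0,⟨0,[(2,1)]⟩,⟨0,[(0,0)]⟩⟩,⟨false,1,⟨5,[(1,3),(1,3),(2,3),(1,
  7),(25,2),(4,2)]⟩,⟨0,[(5,0),(16,0)]⟩⟩,⟨false,0,⟨0,[]⟩,⟨0,[]⟩⟩,⟨false,0,⟨0,[]⟩,⟨0,[]⟩⟩,[.e ⟨false,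
  0,⟨0,[(1,0)]⟩,⟨16,[(0,15),(8,5),(0,2),(0,2),(27,7)]⟩⟩ ⟨false,1,⟨1,[(3,0),(0,1),(1,0),(16,0)]⟩,⟨1,
  [(5,0),(7,0),(8,0)]⟩⟩,.o ⟨false,1,⟨5,[(1,1),(1,1),(2,1),(1,3),(25,2),(4,2)]⟩,⟨0,[(22,0)]⟩⟩,.a
  ⟨true,0,⟨142,[(0,14),(4,14),(3,17),(0,8),(0,8),(1,63),(13,9),(1,9),(3,26)]⟩,⟨0,[(8,0)]⟩⟩ ⟨true,0,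
  ⟨0,[(2,0)]⟩,⟨1,[(0,0),(40,0)]⟩⟩ ⟨false,1,⟨5,[(1,1),(1,1),(2,1),(1,9),(25,2),(4,2)]⟩,⟨1,[(5,0),(7,
  0),(8,0)]⟩⟩,.o ⟨false,0,⟨0,[(24,0)]⟩,⟨10,[(0,0),(3,6),(4,0),(0,0),(12,3),(10,1)]⟩⟩]⟩)

theorem ok8 : chk K t8 l13 = true := by decide +kernel

noncomputable def t9 : Tre :=
  (.I [1,-1,1,1,0,0,0,1] (.R ⟨0,false,false,false,[-1,1,1],[1,0,-1],[1,0,1,1,0,0,0,1],(⟨0,[(16,0)]⟩,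
  ⟨0,[(27,0),(3,0)]⟩),(⟨0,[(27,0)]⟩,⟨0,[(28,0)]⟩),⟨0,[(27,0)]⟩,.k,.k,.k,(.r 0 ⟨2,[(2,0),(5,2),(0,
  0)]⟩ ⟨0,[(6,0),(0,0),(16,0),(0,0),(13,0)]⟩),.k,.k,⟨false,0,⟨0,[(3,0),(4,0)]⟩,⟨0,[(6,0),(0,0),(16,
  0),(0,0),(13,0)]⟩⟩,⟨true,(-1),⟨0,[(1,0)]⟩,⟨0,[(10,1),(25,0)]⟩⟩,⟨true,0,⟨0,[]⟩,⟨0,[(43,0)]⟩⟩,
  ⟨false,0,⟨6,[(7,11),(4,0),(0,1),(10,3),(0,1),(9,0),(3,3)]⟩,⟨1,[(0,0),(1,0),(7,2),(12,0),(12,1),(0,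
  0)]⟩⟩,⟨false,0,⟨0,[]⟩,⟨0,[]⟩⟩,⟨false,0,⟨0,[]⟩,⟨0,[]⟩⟩,[.e ⟨false,0,⟨3,[(0,0),(1,0),(5,0),(28,1)]⟩,
  ⟨0,[(12,0),(11,0),(0,0)]⟩⟩ ⟨false,0,⟨1,[(1,0),(5,1),(10,0),(0,0),(13,0)]⟩,⟨0,[(3,0),(6,1),(25,
  0)]⟩⟩,.a ⟨true,0,⟨0,[(7,0)]⟩,⟨0,[(23,0)]⟩⟩ ⟨true,0,⟨0,[(0,0)]⟩,⟨0,[(10,0),(13,0),(14,0)]⟩⟩ ⟨false,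
  0,⟨3,[(1,1),(5,3),(10,0),(0,0),(20,0)]⟩,⟨2,[(3,1),(6,4),(12,0),(9,0),(2,2)]⟩⟩,.e ⟨false,0,⟨0,[(0,
  0)]⟩,⟨0,[(12,0),(11,0),(0,0)]⟩⟩ ⟨false,0,⟨3,[(1,1),(5,3),(10,1),(0,1),(5,0),(0,0)]⟩,⟨0,[(3,0),(6,
  1),(25,0)]⟩⟩,.o ⟨false,1,⟨0,[(10,0),(25,0)]⟩,⟨3,[(1,1),(16,0),(0,0),(20,0)]⟩⟩]⟩) (.R ⟨0,false,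
  false,false,[-1,1,1],[1,0,-1],[1,1],(⟨0,[(16,0)]⟩,⟨0,[(27,0),(3,0)]⟩),(⟨0,[(27,0)]⟩,⟨0,[(28,0)]⟩),
  ⟨0,[(27,0)]⟩,.k,.k,.k,(.r 0 ⟨2,[(2,0),(5,2),(0,0)]⟩ ⟨5,[(0,9),(6,1),(6,1),(10,1),(10,0),(4,2)]⟩),
  .k,.k,⟨false,0,⟨2,[(3,1),(5,0),(23,0)]⟩,⟨5,[(0,3),(6,1),(6,1),(10,1),(10,0),(4,2)]⟩⟩,⟨true,(-1),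
  ⟨0,[(1,0)]⟩,⟨0,[(10,1),(25,0)]⟩⟩,⟨true,0,⟨0,[(0,0)]⟩,⟨0,[(8,0)]⟩⟩,⟨false,0,⟨7,[(0,2),(0,1),(5,11),
  (10,1),(0,1),(4,0),(0,0),(13,4)]⟩,⟨5,[(2,3),(5,2),(1,10),(12,0),(12,5),(0,2)]⟩⟩,⟨false,0,⟨0,[]⟩,
  ⟨0,[]⟩⟩,⟨false,0,⟨0,[]⟩,⟨0,[]⟩⟩,[.e ⟨false,0,⟨3,[(0,0),(2,0),(29,0),(3,0)]⟩,⟨1,[(18,0),(0,0),(21,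
  0)]⟩⟩ ⟨false,0,⟨1,[(1,0),(5,1),(10,0),(0,0),(13,0)]⟩,⟨0,[(3,0),(6,1),(25,0)]⟩⟩,.a ⟨true,0,⟨0,[(7,
  0)]⟩,⟨0,[(23,0)]⟩⟩ ⟨true,0,⟨0,[]⟩,⟨1,[(25,0),(0,0)]⟩⟩ ⟨false,0,⟨3,[(1,1),(5,3),(10,0),(0,0),(20,
  0)]⟩,⟨2,[(3,1),(6,4),(12,0),(9,0),(2,2)]⟩⟩,.e ⟨false,0,⟨0,[]⟩,⟨1,[(18,0),(0,0),(21,0)]⟩⟩ ⟨false,0,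
  ⟨3,[(1,1),(5,3),(10,1),(0,1),(5,0),(0,0)]⟩,⟨0,[(3,0),(6,1),(25,0)]⟩⟩,.o ⟨false,1,⟨0,[(10,0),(25,
  0)]⟩,⟨3,[(1,1),(16,0),(0,0),(20,0)]⟩⟩]⟩))

theorem ok9 : chk K t9 l14 = true := by decide +kernel

noncomputable def t10 : Tre :=
  (.Q [0,0,0,1,1,0,1,1,0,-2,1] (.p true [-1,1,1] [1] (⟨0,[(16,0)]⟩,⟨0,[(27,0),(3,0)]⟩) .k 1 (⟨0,[]⟩,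
  ⟨0,[]⟩) .k .k) (.R ⟨0,false,false,true,[1,0,-1],[-1,1,1],[1],(⟨0,[(28,0)]⟩,⟨0,[(29,0)]⟩),(⟨0,[(17,
  0)]⟩,⟨0,[(28,0),(3,0)]⟩),⟨0,[(17,0)]⟩,.k,.k,.k,(.r (-1) ⟨8,[(2,4),(5,5),(4,5),(11,11),(0,7),(9,1),
  (3,2)]⟩ ⟨2,[(3,0),(5,2),(0,0)]⟩),.k,.k,⟨false,1,⟨0,[(7,0),(0,0),(31,0)]⟩,⟨0,[(9,0),(34,0)]⟩⟩,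
  ⟨true,1,⟨0,[(2,0)]⟩,⟨0,[(1,0)]⟩⟩,⟨true,0,⟨2,[(3,0),(6,0)]⟩,⟨0,[(11,0),(13,0)]⟩⟩,⟨false,1,⟨2,[(0,
  0),(1,1),(0,0),(5,1),(14,0)]⟩,⟨5,[(1,0),(6,7),(4,1),(11,3),(0,1),(9,0),(3,3)]⟩⟩,⟨false,0,⟨0,[]⟩,
  ⟨0,[]⟩⟩,⟨false,0,⟨0,[]⟩,⟨0,[]⟩⟩,[.o ⟨false,1,⟨1,[(0,0),(23,0),(12,0),(1,0)]⟩,⟨0,[(8,0),(31,0)]⟩⟩,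
  .o ⟨false,1,⟨0,[(0,0)]⟩,⟨5,[(1,0),(6,1),(4,1),(11,3),(0,1),(9,0),(3,3)]⟩⟩,.a ⟨true,0,⟨1,[(1,0),
  (39,0)]⟩,⟨0,[(11,0)]⟩⟩ ⟨true,0,⟨0,[]⟩,⟨0,[(44,0)]⟩⟩ ⟨false,1,⟨0,[(2,0),(6,0)]⟩,⟨11,[(1,6),(6,7),
  (4,7),(11,3),(0,1),(9,0),(3,3)]⟩⟩,.o ⟨false,0,⟨0,[(27,0)]⟩,⟨3,[(2,1),(16,0),(0,0),(20,0)]⟩⟩]⟩)
  (.K ⟨0,[2,-1,-1],(-1),(-1),(⟨0,[(28,0),(3,0)]⟩,⟨0,[(17,0)]⟩),.k,(.r 0 ⟨0,[(0,1),(1,0),(1,0),(32,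
  0)]⟩ ⟨1,[(12,0),(2,0),(10,0),(0,0),(11,0)]⟩),.k,(.r (-1) ⟨1,[(0,1),(1,1),(16,0),(0,0),(4,1),(16,
  0)]⟩ ⟨2,[(3,0),(5,2),(0,0)]⟩),.k,[⟨0,[(2,0)]⟩,⟨9,[(0,2),(0,5),(7,2),(16,4),(9,0)]⟩,⟨1,[(2,0),(6,
  1),(24,0),(2,0)]⟩,⟨12,[(0,11),(0,0),(12,0),(10,1),(0,2),(7,4)]⟩]⟩))

theorem ok10 : chk K t10 l15 = true := by decide +kernel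

noncomputable def t11 : Tre :=
  (.I [0,0,-2,-2,0,0,0,-1] (.Q [0,0,0,0,0,-2,0,0,0,2,-1] (.p false [-1,1,1] [1] (⟨0,[(18,0)]⟩,⟨0,
  [(29,0),(3,0)]⟩) .k 1 (⟨0,[]⟩,⟨0,[]⟩) .k .k) (.S ⟨1,0,[0,1,-1,-2,0,0,0,-1],[2,-1,-1],[1],(⟨73,[(0,
  37),(1,11),(14,5),(8,11),(3,35),(1,1),(5,5),(4,2),(0,8)]⟩,⟨0,[(19,0)]⟩),⟨0,[(0,0)]⟩,.k,(.r 0 ⟨0,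
  [(1,0)]⟩ ⟨1,[(14,0),(2,0),(10,0),(0,0),(11,0)]⟩),⟨true,0,⟨0,[(11,0)]⟩,⟨14,[(1,3),(0,5),(1,5),(11,
  0),(10,5),(8,0)]⟩⟩,⟨false,0,⟨0,[(42,0)]⟩,⟨3,[(17,1),(25,0),(0,0)]⟩⟩,⟨false,1,⟨10,[(5,2),(5,0),(2,
  1),(2,8),(22,0)]⟩,⟨1,[(1,1),(26,0),(0,0)]⟩⟩,⟨true,0,⟨0,[(46,0)]⟩,⟨0,[]⟩⟩,[.a ⟨true,(-1),⟨0,[(2,0),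
  (39,0)]⟩,⟨0,[(3,0),(6,0),(0,1)]⟩⟩ ⟨true,0,⟨0,[]⟩,⟨1,[(28,0),(0,0)]⟩⟩ ⟨false,0,⟨4,[(1,3),(0,0),(1,
  0),(11,0),(10,0),(8,0)]⟩,⟨10,[(5,2),(5,0),(2,1),(2,8),(22,0)]⟩⟩,.e ⟨false,1,⟨1,[(43,0),(0,0)]⟩,⟨0,
  [(46,0)]⟩⟩ ⟨false,0,⟨0,[(1,0)]⟩,⟨1,[(14,0),(2,0),(23,0)]⟩⟩,.o ⟨false,0,⟨17,[(2,7),(11,3),(2,1),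
  (10,0),(0,10),(8,0),(5,2)]⟩,⟨1,[(3,0),(35,0)]⟩⟩,.e ⟨false,1,⟨1,[(43,0),(0,0)]⟩,⟨1,[(28,0),(0,
  0)]⟩⟩ ⟨false,0,⟨0,[(1,0)]⟩,⟨9,[(11,5),(2,1),(2,5),(10,2),(0,2),(14,1)]⟩⟩]⟩) (.Q [0,0,2,0,-1,0,-1,
  0,0,2,-1] (.p false [-1,1,1] [1] (⟨0,[(19,0)]⟩,⟨0,[(30,0),(3,0)]⟩) .k 1 (⟨0,[]⟩,⟨0,[]⟩) .k .k)
  (.K ⟨0,[2,-1,-1],(-1),(-1),(⟨0,[(31,0),(3,0)]⟩,⟨0,[(20,0)]⟩),.k,(.r 0 ⟨0,[(2,0)]⟩ ⟨5,[(0,1),(14,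
  2),(2,2),(10,1),(10,1),(1,2)]⟩),.k,(.r (-1) ⟨0,[(3,0),(1,0),(22,0),(16,0)]⟩ ⟨2,[(6,0),(5,2),(0,
  0)]⟩),.k,[⟨0,[(5,0)]⟩,⟨0,[(0,0)]⟩,⟨1,[(5,0),(6,1),(24,0),(2,0)]⟩,⟨0,[(3,0)]⟩]⟩) (.I [0,0,0,-1,0,0,
  0,-1] (.R ⟨0,false,false,false,[1,0,-1],[2,-1,-1],[0,0,0,-1,0,0,0,-1],(⟨0,[(32,0)]⟩,⟨0,[(33,0)]⟩),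
  (⟨0,[(32,0),(3,0)]⟩,⟨0,[(21,0)]⟩),⟨0,[(21,0)]⟩,.k,.k,.k,.k,.k,.k,⟨true,0,⟨1,[(30,0),(0,0)]⟩,⟨0,
  []⟩⟩,⟨false,0,⟨37,[(4,11),(14,5),(8,11),(5,1),(1,1),(3,5),(4,2),(0,8)]⟩,⟨1,[(41,0),(3,0)]⟩⟩,⟨true,
  0,⟨0,[(44,0)]⟩,⟨0,[(43,0)]⟩⟩,⟨false,0,⟨1,[(40,0),(3,1),(1,0)]⟩,⟨13,[(19,5),(18,1),(2,6),(0,1),(2,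
  0)]⟩⟩,⟨false,0,⟨0,[]⟩,⟨0,[]⟩⟩,⟨false,0,⟨0,[]⟩,⟨0,[]⟩⟩,[.o ⟨false,0,⟨6,[(0,2),(3,2),(13,0),(1,0),
  (8,1),(16,2)]⟩,⟨2,[(1,0),(4,0),(6,2),(27,0)]⟩⟩,.o ⟨false,0,⟨0,[(12,0),(31,0)]⟩,⟨5,[(1,0),(4,0),(6,
  2),(14,2),(12,3),(1,2)]⟩⟩,.a ⟨true,0,⟨4,[(4,0),(7,0),(3,0),(3,0),(6,0)]⟩,⟨0,[(15,0)]⟩⟩ ⟨true,0,⟨0,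
  [(0,0)]⟩,⟨4,[(8,0),(4,3),(24,1),(3,0)]⟩⟩ ⟨false,0,⟨1,[(0,1),(39,0),(5,0)]⟩,⟨59,[(1,3),(5,10),(8,
  18),(2,9),(0,1),(20,26),(0,20)]⟩⟩,.o ⟨false,0,⟨0,[(31,0)]⟩,⟨3,[(6,1),(16,0),(0,0),(20,0)]⟩⟩]⟩)
  (.Q [0,-1,0,0,0,0,0,0,-1,1,0,-1] (.p false [0,0,0,0,1] [1] (⟨0,[(26,0)]⟩,⟨0,[(25,0)]⟩) .k 1 (⟨0,
  []⟩,⟨0,[]⟩) .k .k) (.R ⟨2,false,false,true,[0,1],[1,0,0,0,-1],[1],(⟨0,[]⟩,⟨0,[]⟩),(⟨0,[(26,0)]⟩,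
  ⟨0,[(27,0)]⟩),⟨0,[]⟩,.k,.k,.k,(.r 0 ⟨1,[(31,0),(0,0),(11,1)]⟩ ⟨3,[(4,0),(13,0),(0,0),(4,0),(0,0),
  (21,1)]⟩),.k,.k,⟨true,0,⟨0,[]⟩,⟨1,[(31,0),(0,0)]⟩⟩,⟨false,0,⟨0,[(0,0),(48,0)]⟩,⟨1,[(25,1),(16,0),
  (3,0)]⟩⟩,⟨true,0,⟨8,[(4,3),(3,0),(0,0),(9,0)]⟩,⟨1,[(31,0),(0,0),(11,1)]⟩⟩,⟨false,0,⟨0,[(0,0),(44,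
  0)]⟩,⟨13,[(20,5),(4,13),(13,1),(2,6),(0,1),(2,0)]⟩⟩,⟨false,1,⟨1,[(46,0),(0,0)]⟩,⟨1,[(31,0),(0,
  0)]⟩⟩,⟨false,0,⟨0,[(0,0)]⟩,⟨1,[(24,0),(0,2),(16,0)]⟩⟩,[.a ⟨true,0,⟨0,[(0,0),(48,0)]⟩,⟨0,[(25,
  0)]⟩⟩ ⟨true,0,⟨0,[]⟩,⟨1,[(31,0),(0,0)]⟩⟩ ⟨false,0,⟨0,[(0,0),(48,0)]⟩,⟨1,[(25,1),(16,0),(3,0)]⟩⟩,
  .e ⟨false,1,⟨1,[(46,0),(0,0)]⟩,⟨0,[(49,0)]⟩⟩ ⟨false,0,⟨0,[(0,0)]⟩,⟨3,[(24,0),(0,4),(13,1),(2,1),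
  (3,0)]⟩⟩,.o ⟨false,1,⟨1,[(42,0),(3,0)]⟩,⟨1,[(31,0),(0,0)]⟩⟩,.fo]⟩) (.Q [0,-1,0,-1,0,0,0,0,-1,1,0,
  -1] (.p false [0,0,0,0,1] [1] (⟨0,[(27,0)]⟩,⟨0,[(26,0)]⟩) .k 1 (⟨0,[]⟩,⟨0,[]⟩) .k .k) (.R ⟨2,true,
  false,true,[0,1],[1,0,0,0,-1],[1],(⟨0,[]⟩,⟨0,[]⟩),(⟨0,[(27,0)]⟩,⟨0,[(28,0)]⟩),⟨0,[]⟩,.k,.k,.k,(.r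
  0 ⟨1,[(32,0),(0,0),(11,1)]⟩ ⟨3,[(5,0),(13,0),(0,0),(4,0),(0,0),(21,1)]⟩),.k,.k,⟨true,0,⟨0,[]⟩,⟨1,
  [(32,0),(0,0)]⟩⟩,⟨false,0,⟨0,[(0,0),(44,0)]⟩,⟨1,[(26,1),(16,0),(3,0)]⟩⟩,⟨true,0,⟨8,[(5,3),(3,0),
  (0,0),(9,0)]⟩,⟨1,[(32,0),(0,0),(11,1)]⟩⟩,⟨false,0,⟨0,[(0,0)]⟩,⟨3,[(1,1),(19,1),(4,1),(16,0),(3,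
  0)]⟩⟩,⟨false,1,⟨1,[(47,0),(0,0)]⟩,⟨1,[(32,0),(0,0)]⟩⟩,⟨true,0,⟨0,[(0,0),(44,0)]⟩,⟨0,[(1,0)]⟩⟩,
  []⟩) (.Q [0,0,1,0,-1,0,0,0,1,0,0,1] (.p true [0,0,0,0,1] [] (⟨0,[(28,0)]⟩,⟨0,[(27,0)]⟩) .k 0 (⟨0,
  []⟩,⟨0,[]⟩) .k .k) (.K ⟨0,[0,0,0,0,1],(-1),(-1),(⟨0,[(29,0)]⟩,⟨0,[(28,0)]⟩),.k,(.r 0 ⟨2,[(6,0),
  (14,0),(19,0)]⟩ ⟨13,[(19,1),(2,5),(9,3),(0,4),(0,0),(14,5)]⟩),(.r 0 ⟨1,[(33,0),(0,0),(11,1)]⟩ ⟨3,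
  [(6,0),(13,0),(0,0),(4,0),(0,0),(21,1)]⟩),.k,.k,[⟨0,[(18,0),(7,0)]⟩,⟨0,[(0,0)]⟩,⟨0,[(26,0)]⟩,⟨0,
  [(0,0),(40,0)]⟩]⟩) (.Q [0,0,0,0,0,0,0,0,1,-1,0,1] (.p true [0,0,0,0,1] [1] (⟨0,[(29,0)]⟩,⟨0,[(28,
  0)]⟩) .k 1 (⟨0,[]⟩,⟨0,[]⟩) .k .k) (.Q [0,1,0,0,-1,0,0,0,1,0,0,1] (.p true [0,0,0,0,1] [] (⟨0,[(30,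
  0)]⟩,⟨0,[(29,0)]⟩) .k 0 (⟨0,[]⟩,⟨0,[]⟩) .k .k) (.Q [0,0,0,0,0,1,0,0,0,-1,1,-1] (.p true [-1,1,1]
  [0,0,0,0,1] (⟨0,[(26,0)]⟩,⟨0,[(37,0),(3,0)]⟩) .k 2 (⟨0,[(31,0)]⟩,⟨0,[(30,0)]⟩) .k (.r (-1) ⟨16,
  [(12,0),(8,5),(0,2),(0,2),(27,7)]⟩ ⟨0,[(20,0),(13,0)]⟩)) (.R ⟨0,false,false,false,[1,0,-1,0,1],[0,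
  0,0,0,1],[1,1],(⟨0,[(32,0),(5,0)]⟩,⟨1,[(0,0),(27,0),(2,0)]⟩),(⟨0,[(32,0)]⟩,⟨0,[(31,0)]⟩),⟨0,[(0,
  0)]⟩,.k,.k,(.r 0 ⟨14,[(9,3),(0,5),(1,5),(11,0),(10,5),(8,0)]⟩ ⟨9,[(19,1),(2,3),(2,1),(10,0),(0,0),
  (14,3)]⟩),.k,.k,.k,⟨true,0,⟨0,[]⟩,⟨1,[(36,0),(0,0)]⟩⟩,⟨false,1,⟨3,[(12,1),(16,0),(0,0),(20,0)]⟩,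
  ⟨4,[(10,0),(7,0),(3,0),(3,0),(6,0)]⟩⟩,⟨true,0,⟨2,[(13,0),(6,0)]⟩,⟨0,[(21,0),(13,0)]⟩⟩,⟨false,1,
  ⟨41,[(12,13),(0,11),(2,5),(5,5),(13,7),(10,6),(4,14)]⟩,⟨11,[(10,3),(7,3),(6,1),(9,3),(15,0),(0,
  0)]⟩⟩,⟨false,0,⟨0,[]⟩,⟨0,[]⟩⟩,⟨false,0,⟨0,[]⟩,⟨0,[]⟩⟩,[.e ⟨false,0,⟨7,[(9,0),(4,0),(29,2),(3,1)]⟩,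
  ⟨1,[(29,0),(0,0),(21,0)]⟩⟩ ⟨false,1,⟨1,[(12,0),(16,0),(0,0),(13,0)]⟩,⟨37,[(10,1),(2,11),(4,25),(3,
  1),(3,3),(6,1),(12,0),(5,0)]⟩⟩,.o ⟨false,0,⟨0,[(2,0)]⟩,⟨0,[(29,0)]⟩⟩,.e ⟨false,0,⟨0,[]⟩,⟨1,[(29,
  0),(0,0),(21,0)]⟩⟩ ⟨false,1,⟨5,[(12,1),(16,2),(0,2),(5,1),(10,0)]⟩,⟨37,[(10,1),(2,11),(4,25),(3,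
  1),(3,3),(6,1),(12,0),(5,0)]⟩⟩,.a ⟨true,(-1),⟨9,[(1,7),(11,1),(4,3),(11,1),(6,5),(8,2),(5,0),(0,
  3)]⟩,⟨0,[(3,0),(17,0)]⟩⟩ ⟨true,0,⟨7,[(9,0),(4,0),(29,2),(3,1)]⟩,⟨1,[(36,0),(0,0)]⟩⟩ ⟨false,1,⟨3,
  [(12,1),(16,0),(0,0),(20,0)]⟩,⟨9,[(10,0),(2,0),(4,1),(0,0),(17,6),(8,2),(5,3),(0,1)]⟩⟩]⟩) (.Q [0,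
  0,0,0,0,0,0,0,0,0,-1,1] (.ed false [1,0,-1,0,1] (.r 0 ⟨0,[(21,0),(13,0)]⟩ ⟨16,[(13,0),(8,5),(0,2),
  (0,2),(27,7)]⟩)) (.S ⟨1,0,[0,2,0,-1],[0,0,0,0,1],[1,1],(⟨0,[(33,0)]⟩,⟨0,[(32,0)]⟩),⟨0,[(0,0),(28,
  0)]⟩,.k,(.r 0 ⟨2,[(10,0),(14,0),(19,0)]⟩ ⟨13,[(23,1),(2,5),(9,3),(0,4),(0,0),(14,5)]⟩),⟨true,0,⟨0,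
  []⟩,⟨0,[(55,0)]⟩⟩,⟨false,0,⟨0,[(51,0)]⟩,⟨3,[(26,1),(25,0),(0,0)]⟩⟩,⟨false,1,⟨3,[(26,1),(25,0),(0,
  0)]⟩,⟨0,[(51,0)]⟩⟩,⟨true,0,⟨0,[(55,0)]⟩,⟨0,[]⟩⟩,[.e ⟨false,0,⟨7,[(10,0),(4,0),(29,2),(3,1)]⟩,⟨1,
  [(30,0),(0,0),(21,0)]⟩⟩ ⟨false,0,⟨14,[(10,1),(0,2),(1,2),(11,7),(10,2),(8,7)]⟩,⟨1,[(13,0),(0,0),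
  (4,1),(6,0)]⟩⟩,.a ⟨true,(-1),⟨0,[(2,0),(48,0)]⟩,⟨2,[(4,0),(7,0),(6,2),(0,2),(1,0),(7,1),(16,0)]⟩⟩
  ⟨true,0,⟨0,[]⟩,⟨1,[(37,0),(0,0)]⟩⟩ ⟨false,0,⟨2,[(10,0),(14,0),(19,0)]⟩,⟨3,[(26,1),(25,0),(0,0)]⟩⟩,
  .o ⟨false,0,⟨0,[(3,0)]⟩,⟨0,[(30,0)]⟩⟩,.o ⟨false,0,⟨1,[(3,1),(33,0),(0,0)]⟩,⟨0,[(4,0)]⟩⟩]⟩) (.R ⟨0,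
  false,false,true,[0,0,1,0,-1],[1,0,0,0,-1],[1],(⟨0,[(0,0)]⟩,⟨121,[(1,121),(9,11),(14,5),(8,11),(5,
  13),(4,35),(0,5),(4,2),(0,8)]⟩),(⟨0,[(32,0)]⟩,⟨0,[(33,0)]⟩),⟨0,[(1,0),(7,0),(29,0)]⟩,.k,.k,(.x
  (-1) ⟨0,[(1,0),(7,0),(20,0),(6,0),(1,0)]⟩ ⟨6,[(0,6),(1,5),(0,0),(4,5),(5,1),(4,3),(7,1),(10,4),(4,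
  6)]⟩),.k,.k,.k,⟨true,0,⟨0,[]⟩,⟨1,[(37,0),(0,0)]⟩⟩,⟨false,0,⟨0,[(34,0)]⟩,⟨5,[(13,1),(16,2),(0,2),
  (5,1),(10,0)]⟩⟩,⟨true,0,⟨2,[(13,0),(22,2),(0,0),(9,0)]⟩,⟨0,[(16,0)]⟩⟩,⟨false,0,⟨11,[(11,3),(7,3),
  (6,1),(9,3),(15,0),(0,0)]⟩,⟨41,[(13,13),(0,11),(2,5),(5,5),(13,7),(10,6),(4,14)]⟩⟩,⟨false,0,⟨0,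
  []⟩,⟨0,[]⟩⟩,⟨false,0,⟨0,[]⟩,⟨0,[]⟩⟩,[.o ⟨false,1,⟨0,[(30,0)]⟩,⟨0,[(3,0)]⟩⟩,.e ⟨false,1,⟨1,[(52,0),
  (0,0)]⟩,⟨0,[(55,0)]⟩⟩ ⟨false,0,⟨0,[(15,0),(3,0)]⟩,⟨3,[(6,1),(6,0),(16,2),(0,0),(5,1),(7,0)]⟩⟩,.a
  ⟨true,1,⟨0,[(22,0),(7,0)]⟩,⟨45,[(2,41),(8,2),(2,14),(4,29),(0,2),(6,4),(3,3),(2,2),(12,0)]⟩⟩
  ⟨true,0,⟨0,[]⟩,⟨0,[(55,0)]⟩⟩ ⟨false,0,⟨37,[(11,1),(2,11),(4,25),(3,1),(3,3),(6,1),(12,0),(5,0)]⟩,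
  ⟨5,[(13,1),(16,2),(0,2),(5,1),(10,0)]⟩⟩,.e ⟨false,1,⟨1,[(52,0),(0,0)]⟩,⟨1,[(37,0),(0,0)]⟩⟩ ⟨false,
  0,⟨0,[(15,0),(3,0)]⟩,⟨1,[(30,0),(0,0),(5,1),(10,0)]⟩⟩]⟩))) (.R ⟨0,false,false,true,[1,0,-1],[1,0,
  0,0,-1],[1],(⟨0,[(37,0)]⟩,⟨0,[(38,0)]⟩),(⟨0,[(30,0)]⟩,⟨0,[(31,0)]⟩),⟨0,[(26,0)]⟩,.k,.k,.k,.k,.k,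
  .k,⟨true,0,⟨0,[]⟩,⟨1,[(35,0),(0,0)]⟩⟩,⟨false,1,⟨0,[(2,0),(17,0)]⟩,⟨1,[(1,0),(23,0),(3,0)]⟩⟩,⟨true,
  0,⟨2,[(12,0),(6,0)]⟩,⟨0,[(20,0),(13,0)]⟩⟩,⟨false,1,⟨2,[(0,2),(11,0),(7,1),(12,0)]⟩,⟨1,[(1,0),(15,
  0),(11,0),(4,0)]⟩⟩,⟨false,0,⟨0,[]⟩,⟨0,[]⟩⟩,⟨false,0,⟨0,[]⟩,⟨0,[]⟩⟩,[.o ⟨false,1,⟨0,[(28,0)]⟩,⟨0,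
  [(1,0)]⟩⟩,.o ⟨false,1,⟨0,[(0,0)]⟩,⟨0,[(4,0)]⟩⟩,.a ⟨true,0,⟨4,[(9,0),(7,0),(3,0),(3,0),(6,0)]⟩,⟨0,
  [(20,0)]⟩⟩ ⟨true,0,⟨0,[]⟩,⟨0,[(53,0)]⟩⟩ ⟨false,1,⟨0,[(0,0),(19,0)]⟩,⟨1,[(1,0),(23,0),(3,0)]⟩⟩,.o
  ⟨false,0,⟨0,[(36,0)]⟩,⟨3,[(11,1),(16,0),(0,0),(20,0)]⟩⟩]⟩)) (.Q [0,0,0,0,0,1,0,0,0,-1,0,1] (.ed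
  false [0,1,0,0,1] .k) (.R ⟨0,false,false,false,[-1,1,0,0,1],[0,0,0,0,1],[1,1],(⟨0,[(0,0)]⟩,⟨0,
  [(30,0),(10,0)]⟩),(⟨0,[(31,0)]⟩,⟨0,[(30,0)]⟩),⟨0,[(30,0)]⟩,(.r 0 ⟨1,[(35,0),(0,0),(11,1)]⟩ ⟨3,[(8,
  0),(13,0),(0,0),(4,0),(0,0),(21,1)]⟩),.k,.k,.k,.k,.k,⟨true,0,⟨0,[]⟩,⟨1,[(35,0),(0,0)]⟩⟩,⟨false,0,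
  ⟨37,[(9,11),(14,5),(8,11),(5,1),(1,1),(3,5),(4,2),(0,8)]⟩,⟨1,[(46,0),(3,0)]⟩⟩,⟨true,0,⟨8,[(8,3),
  (3,0),(0,0),(9,0)]⟩,⟨1,[(35,0),(0,0),(11,1)]⟩⟩,⟨false,0,⟨1,[(45,0),(3,1),(1,0)]⟩,⟨13,[(24,5),(18,
  1),(2,6),(0,1),(2,0)]⟩⟩,⟨false,0,⟨0,[]⟩,⟨0,[]⟩⟩,⟨false,0,⟨0,[]⟩,⟨0,[]⟩⟩,[.o ⟨false,0,⟨0,[(4,0)]⟩,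
  ⟨1,[(1,1),(44,0),(4,0)]⟩⟩,.a ⟨true,0,⟨0,[(29,0)]⟩,⟨0,[(1,0)]⟩⟩ ⟨true,0,⟨0,[]⟩,⟨1,[(35,0),(0,0)]⟩⟩
  ⟨false,0,⟨37,[(9,11),(14,5),(8,11),(5,1),(1,1),(3,5),(4,2),(0,8)]⟩,⟨1,[(46,0),(3,0)]⟩⟩,.o ⟨false,
  1,⟨11,[(3,9),(4,3),(3,1),(9,1),(6,1),(16,6),(4,2)]⟩,⟨1,[(1,1),(33,0),(0,0)]⟩⟩,.o ⟨false,1,⟨0,[(29,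
  0),(16,0)]⟩,⟨0,[(1,0)]⟩⟩]⟩) (.S ⟨1,0,[0,2,1],[0,1,0,0,1],[0,1,1],(⟨121,[(9,11),(14,5),(6,121),(1,
  11),(5,13),(4,35),(0,5),(4,2),(0,8)]⟩,⟨0,[(0,0)]⟩),⟨0,[(31,0)]⟩,(.r 0 ⟨1,[(35,0),(0,0),(11,1)]⟩
  ⟨3,[(8,0),(13,0),(0,0),(4,0),(0,0),(21,1)]⟩),.k,⟨true,0,⟨0,[(49,0)]⟩,⟨0,[(48,0)]⟩⟩,⟨false,0,⟨0,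
  [(49,0)]⟩,⟨3,[(24,1),(25,0),(0,0)]⟩⟩,⟨false,1,⟨1,[(28,0),(0,0),(21,0)]⟩,⟨0,[]⟩⟩,⟨true,0,⟨0,[(53,
  0)]⟩,⟨0,[]⟩⟩,[.e ⟨false,0,⟨0,[(53,0)]⟩,⟨1,[(50,0),(0,0)]⟩⟩ ⟨false,0,⟨0,[(53,1)]⟩,⟨5,[(6,1),(6,1),
  (3,1),(27,0),(5,4)]⟩⟩,.o ⟨false,0,⟨0,[(4,0)]⟩,⟨1,[(1,1),(44,0),(4,0)]⟩⟩,.e ⟨false,0,⟨1,[(35,0),(0,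
  0)]⟩,⟨1,[(50,0),(0,0)]⟩⟩ ⟨false,0,⟨1,[(35,0),(0,0),(16,1)]⟩,⟨5,[(6,1),(6,1),(3,1),(27,0),(5,4)]⟩⟩,
  .a ⟨true,0,⟨0,[(29,0)]⟩,⟨0,[(1,0)]⟩⟩ ⟨true,0,⟨0,[(53,0)]⟩,⟨0,[]⟩⟩ ⟨false,0,⟨0,[(53,0)]⟩,⟨0,[(51,
  0)]⟩⟩]⟩))))))))) (.Q [0,1,2,1,-1,0,-2,-1,0,2,-2] (.p false [0,0,1] [2,-1,-1] (⟨0,[(30,0)]⟩,⟨0,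
  [(29,0)]⟩) .k 2 (⟨0,[(29,0),(3,0)]⟩,⟨0,[(18,0)]⟩) .k (.r 0 ⟨2,[(4,1),(6,1)]⟩ ⟨12,[(1,7),(1,9),(5,
  3),(6,3),(9,13),(0,5),(15,6)]⟩)) (.Q [0,0,2,0,-1,0,-1,0,0,2,-1] (.p false [-1,1,1] [1] (⟨0,[(19,
  0)]⟩,⟨0,[(30,0),(3,0)]⟩) .k 1 (⟨0,[]⟩,⟨0,[]⟩) .k .k) (.I [0,0,2,2,0,0,0,1] (.K ⟨0,[2,-1,-1],(-1),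
  (-1),(⟨0,[(32,0),(3,0)]⟩,⟨0,[(21,0)]⟩),.k,(.r (-1) ⟨7,[(4,7),(1,3),(10,5),(5,0),(0,0),(16,3),(2,
  1),(1,0)]⟩ ⟨0,[(0,0)]⟩),.k,(.r (-1) ⟨0,[(4,0),(1,0),(22,0),(16,0)]⟩ ⟨1,[(3,0),(3,0),(6,0)]⟩),.k,
  [⟨0,[(6,0)]⟩,⟨0,[(1,0)]⟩,⟨7,[(3,3),(1,2),(8,1),(13,1),(9,1),(2,4)]⟩,⟨0,[(4,0)]⟩]⟩) (.I [0,0,2,0,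
  -1,2,-1] (.N [0,2,1] 0 ⟨0,[(4,0)]⟩ ⟨0,[(1,0)]⟩ (.x (-2) ⟨0,[(12,0),(20,0),(3,1),(4,0)]⟩ ⟨0,[(0,
  0)]⟩)) (.I [0,0,-2,0,1,-2,1] (.N [0,2,1] 0 ⟨0,[(5,0)]⟩ ⟨0,[(2,0)]⟩ (.x (-1) ⟨0,[(0,0)]⟩ ⟨2,[(3,2),
  (21,0),(0,0),(8,2),(5,1),(1,1)]⟩)) (.Q [0,-1,0,-1,0,0,0,0,-1,1,0,-1] (.p false [0,0,0,0,1] [1]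
  (⟨0,[(28,0)]⟩,⟨0,[(27,0)]⟩) .k 1 (⟨0,[]⟩,⟨0,[]⟩) .k .k) (.Q [0,-1,0,0,0,0,0,0,-1,1,0,-1] (.p
  false [0,0,0,0,1] [1] (⟨0,[(29,0)]⟩,⟨0,[(28,0)]⟩) .k 1 (⟨0,[]⟩,⟨0,[]⟩) .k .k) (.R ⟨2,false,false,
  true,[0,1],[1,0,0,0,-1],[1],(⟨0,[]⟩,⟨0,[]⟩),(⟨0,[(29,0)]⟩,⟨0,[(30,0)]⟩),⟨0,[]⟩,.k,.k,.k,(.r 0 ⟨8,
  [(6,2),(0,2),(2,1),(23,1),(7,2),(2,0)]⟩ ⟨3,[(4,0),(16,0),(0,0),(4,0),(0,0),(21,1)]⟩),.k,.k,⟨true,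
  0,⟨0,[]⟩,⟨2,[(5,0),(28,0),(10,0)]⟩⟩,⟨false,0,⟨12,[(0,9),(0,2),(4,0),(0,0),(26,1),(7,5),(2,0)]⟩,⟨1,
  [(28,1),(16,0),(3,0)]⟩⟩,⟨true,0,⟨8,[(4,3),(6,0),(0,0),(9,0)]⟩,⟨8,[(6,2),(0,2),(2,1),(23,1),(7,2),
  (2,0)]⟩⟩,⟨false,0,⟨0,[(1,0)]⟩,⟨13,[(23,5),(4,13),(13,1),(2,6),(0,1),(2,0)]⟩⟩,⟨false,1,⟨1,[(49,0),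
  (0,0)]⟩,⟨2,[(5,0),(28,0),(10,0)]⟩⟩,⟨false,0,⟨0,[(0,0)]⟩,⟨1,[(27,0),(0,2),(16,0)]⟩⟩,[.a ⟨true,0,
  ⟨12,[(0,9),(0,2),(4,0),(0,0),(26,1),(7,5),(2,0)]⟩,⟨0,[(28,0)]⟩⟩ ⟨true,0,⟨0,[]⟩,⟨2,[(5,0),(28,0),
  (10,0)]⟩⟩ ⟨false,0,⟨12,[(0,9),(0,2),(4,0),(0,0),(26,1),(7,5),(2,0)]⟩,⟨1,[(28,1),(16,0),(3,0)]⟩⟩,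
  .e ⟨false,1,⟨1,[(49,0),(0,0)]⟩,⟨9,[(6,0),(15,0),(11,1),(7,3),(2,0)]⟩⟩ ⟨false,0,⟨0,[(0,0)]⟩,⟨3,
  [(27,0),(0,4),(13,1),(2,1),(3,0)]⟩⟩,.o ⟨false,1,⟨1,[(45,0),(3,0)]⟩,⟨2,[(5,0),(28,0),(10,0)]⟩⟩,
  .fo]⟩) (.R ⟨2,true,false,true,[0,1],[1,0,0,0,-1],[1],(⟨0,[]⟩,⟨0,[]⟩),(⟨0,[(29,0)]⟩,⟨0,[(30,0)]⟩),
  ⟨0,[]⟩,.k,.k,.k,(.r 0 ⟨8,[(6,2),(0,2),(2,1),(23,1),(7,2),(2,0)]⟩ ⟨3,[(4,0),(16,0),(0,0),(4,0),(0,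
  0),(21,1)]⟩),.k,.k,⟨true,0,⟨0,[]⟩,⟨2,[(5,0),(28,0),(10,0)]⟩⟩,⟨false,0,⟨0,[(1,0),(45,0)]⟩,⟨1,[(0,
  1),(48,0),(0,0)]⟩⟩,⟨true,0,⟨8,[(4,3),(6,0),(0,0),(9,0)]⟩,⟨8,[(6,2),(0,2),(2,1),(23,1),(7,2),(2,
  0)]⟩⟩,⟨false,0,⟨0,[(1,0)]⟩,⟨3,[(0,3),(22,1),(25,0),(0,0)]⟩⟩,⟨false,1,⟨1,[(49,0),(0,0)]⟩,⟨2,[(5,0),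
  (28,0),(10,0)]⟩⟩,⟨true,0,⟨0,[(1,0),(45,0)]⟩,⟨0,[(0,0)]⟩⟩,[]⟩)) (.Q [0,1,1,0,-1,0,0,-1,1,0,0,1]
  (.p true [0,0,0,0,1] [] (⟨0,[(29,0)]⟩,⟨0,[(28,0)]⟩) .k 0 (⟨0,[]⟩,⟨0,[]⟩) .k .k) (.Q [0,0,0,0,0,-1,
  0,0,0,1,0,-1] (.ed true [0,1,0,0,1] .k) (.S ⟨1,0,[0,2,1],[0,1,0,0,1],[0,1,1],(⟨121,[(9,11),(14,5),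
  (6,121),(1,11),(5,13),(4,35),(0,5),(4,2),(0,8)]⟩,⟨0,[(0,0)]⟩),⟨0,[(31,0)]⟩,(.r 0 ⟨6,[(1,1),(5,0),
  (0,2),(2,0),(16,1),(14,1)]⟩ ⟨3,[(5,0),(16,0),(0,0),(4,0),(0,0),(21,1)]⟩),.k,⟨true,0,⟨0,[(49,0)]⟩,
  ⟨0,[(48,0)]⟩⟩,⟨false,0,⟨0,[(49,0)]⟩,⟨3,[(24,1),(25,0),(0,0)]⟩⟩,⟨false,1,⟨1,[(28,0),(0,0),(21,0)]⟩,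
  ⟨0,[]⟩⟩,⟨true,0,⟨14,[(1,2),(6,0),(14,1),(4,2),(14,4)]⟩,⟨0,[]⟩⟩,[.e ⟨false,0,⟨14,[(1,2),(6,0),(14,
  1),(4,2),(14,4)]⟩,⟨1,[(50,0),(0,0)]⟩⟩ ⟨false,0,⟨14,[(1,5),(6,1),(14,3),(4,5),(14,9)]⟩,⟨3,[(10,0),
  (2,1),(3,1),(33,2)]⟩⟩,.a ⟨true,(-1),⟨0,[(1,0),(11,0)]⟩,⟨11,[(12,1),(4,3),(2,3),(7,11),(10,1),(1,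
  1),(3,2),(5,2)]⟩⟩ ⟨true,0,⟨2,[(6,0),(28,0),(10,0)]⟩,⟨0,[]⟩⟩ ⟨false,0,⟨14,[(1,2),(6,0),(14,1),(4,
  2),(14,4)]⟩,⟨1,[(50,0),(0,0)]⟩⟩,.o ⟨false,0,⟨9,[(1,5),(0,3),(2,1),(4,2),(1,3),(0,5),(3,5),(28,
  2)]⟩,⟨2,[(6,0),(21,2),(6,0),(10,0)]⟩⟩,.o ⟨false,0,⟨17,[(1,9),(0,7),(2,3),(4,0),(1,7),(4,1),(28,4),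
  (4,3)]⟩,⟨0,[(28,0)]⟩⟩]⟩) (.Q [0,1,0,0,-1,0,-1,-1,1,0,-1,1] (.p false [0,0,1] [0,0,0,0,1] (⟨0,[(38,
  0)]⟩,⟨0,[(37,0)]⟩) .k 2 (⟨0,[(31,0)]⟩,⟨0,[(30,0)]⟩) .k (.r (-1) ⟨16,[(12,0),(8,5),(0,2),(0,2),(27,
  7)]⟩ ⟨2,[(7,0),(1,0),(1,1),(22,0)]⟩)) (.R ⟨0,false,false,true,[1,0,-1],[2,-1,0,0,-1],[1,0,-1,-1],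
  (⟨0,[(38,0)]⟩,⟨0,[(39,0)]⟩),(⟨0,[(31,0),(10,0)]⟩,⟨0,[(1,0)]⟩),⟨0,[(27,0)]⟩,.k,(.r (-1) ⟨3,[(6,0),
  (16,0),(0,0),(4,0),(0,0),(21,1)]⟩ ⟨6,[(2,1),(5,0),(0,2),(2,0),(16,1),(14,1)]⟩),.k,(.r 0 ⟨0,[(8,0),
  (3,0)]⟩ ⟨16,[(13,2),(8,0),(0,8),(0,8),(27,6)]⟩),.k,.k,⟨true,0,⟨0,[]⟩,⟨2,[(7,0),(28,0),(10,0)]⟩⟩,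
  ⟨false,1,⟨7,[(21,1),(7,7),(6,5),(3,1),(1,1),(3,2),(4,2)]⟩,⟨1,[(0,1),(13,1),(32,0),(4,0)]⟩⟩,⟨true,
  0,⟨2,[(6,0),(6,0),(0,0),(9,0)]⟩,⟨0,[(8,0),(3,0)]⟩⟩,⟨false,1,⟨35,[(6,3),(0,3),(5,5),(2,27),(4,11),
  (7,35),(10,5),(1,5),(3,10),(5,14)]⟩,⟨29,[(0,29),(8,9),(1,10),(1,5),(4,21),(6,3),(21,14),(0,1)]⟩⟩,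
  ⟨false,0,⟨0,[]⟩,⟨0,[]⟩⟩,⟨false,0,⟨0,[]⟩,⟨0,[]⟩⟩,[.e ⟨false,0,⟨0,[(6,0),(1,0),(2,0),(1,0)]⟩,⟨4,[(2,
  1),(19,0),(2,1),(3,3),(0,1)]⟩⟩ ⟨false,1,⟨5,[(10,1),(5,0),(4,5),(1,2),(5,5),(4,0),(11,0)]⟩,⟨9,[(0,
  9),(10,0),(1,5),(4,1),(6,3),(21,4),(0,1)]⟩⟩,.o ⟨false,1,⟨5,[(6,1),(0,1),(8,1),(12,5),(16,0),(5,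
  2)]⟩,⟨5,[(0,5),(8,2),(1,2),(1,0),(6,0),(26,2)]⟩⟩,.a ⟨true,0,⟨14,[(8,0),(1,2),(11,1),(3,2),(6,3),
  (18,1)]⟩,⟨0,[(21,0)]⟩⟩ ⟨true,0,⟨8,[(6,3),(6,0),(0,0),(9,0)]⟩,⟨6,[(2,1),(5,0),(0,2),(2,0),(16,1),
  (14,1)]⟩⟩ ⟨false,1,⟨5,[(6,1),(0,1),(8,1),(4,5),(7,5),(16,0),(5,2)]⟩,⟨9,[(0,9),(10,0),(1,5),(4,1),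
  (6,3),(21,4),(0,1)]⟩⟩,.o ⟨false,0,⟨0,[(37,0)]⟩,⟨3,[(12,1),(16,0),(0,0),(20,0)]⟩⟩]⟩) (.R ⟨0,false,
  false,false,[-1,1,0,0,1],[0,0,0,0,1],[1,1],(⟨0,[(1,0)]⟩,⟨0,[(31,0),(10,0)]⟩),(⟨0,[(32,0)]⟩,⟨0,
  [(31,0)]⟩),⟨0,[(31,0)]⟩,(.r 0 ⟨6,[(2,1),(5,0),(0,2),(2,0),(16,1),(14,1)]⟩ ⟨3,[(6,0),(16,0),(0,0),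
  (4,0),(0,0),(21,1)]⟩),.k,.k,.k,.k,.k,⟨true,0,⟨0,[]⟩,⟨2,[(7,0),(28,0),(10,0)]⟩⟩,⟨false,0,⟨37,[(10,
  11),(14,5),(8,11),(5,1),(1,1),(3,5),(4,2),(0,8)]⟩,⟨1,[(47,0),(3,0)]⟩⟩,⟨true,0,⟨8,[(6,3),(6,0),(0,
  0),(9,0)]⟩,⟨6,[(2,1),(5,0),(0,2),(2,0),(16,1),(14,1)]⟩⟩,⟨false,0,⟨5,[(6,1),(0,1),(8,1),(29,0),(5,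
  2)]⟩,⟨13,[(25,5),(18,1),(2,6),(0,1),(2,0)]⟩⟩,⟨false,0,⟨0,[]⟩,⟨0,[]⟩⟩,⟨false,0,⟨0,[]⟩,⟨0,[]⟩⟩,[.e
  ⟨false,0,⟨7,[(6,0),(7,0),(29,2),(3,1)]⟩,⟨1,[(29,0),(0,0),(21,0)]⟩⟩ ⟨false,0,⟨21,[(10,10),(11,2),
  (2,3),(8,4),(1,5),(7,4),(6,3)]⟩,⟨3,[(11,0),(2,1),(3,1),(28,1),(4,0)]⟩⟩,.o ⟨false,0,⟨17,[(2,9),(0,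
  7),(2,3),(4,0),(1,7),(4,1),(28,4),(4,3)]⟩,⟨0,[(29,0)]⟩⟩,.e ⟨false,0,⟨0,[]⟩,⟨1,[(29,0),(0,0),(21,
  0)]⟩⟩ ⟨false,0,⟨19,[(7,1),(2,7),(11,3),(2,1),(3,0),(0,0),(5,9),(15,2)]⟩,⟨3,[(11,0),(2,1),(3,1),
  (28,1),(4,0)]⟩⟩,.a ⟨true,0,⟨17,[(2,9),(0,7),(2,3),(4,0),(1,7),(4,1),(28,4),(4,3)]⟩,⟨1,[(0,1),(5,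
  0),(1,0),(37,0),(1,0),(4,0)]⟩⟩ ⟨true,0,⟨7,[(6,0),(7,0),(29,2),(3,1)]⟩,⟨2,[(7,0),(28,0),(10,0)]⟩⟩
  ⟨false,0,⟨37,[(10,11),(14,5),(8,11),(5,1),(1,1),(3,5),(4,2),(0,8)]⟩,⟨1,[(47,0),(4,0)]⟩⟩]⟩))) (.Q
  [0,0,0,0,0,1,0,0,0,-1,0,1] (.ed false [0,1,0,0,1] .k) (.Q [0,0,0,0,0,0,0,0,-1,1,0,-1] (.p false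
  [0,0,0,0,1] [1] (⟨0,[(31,0)]⟩,⟨0,[(30,0)]⟩) .k 1 (⟨0,[]⟩,⟨0,[]⟩) .k .k) (.R ⟨0,false,false,false,
  [-1,1,0,0,1],[0,0,0,0,1],[1,1],(⟨0,[(1,0)]⟩,⟨0,[(31,0),(10,0)]⟩),(⟨0,[(32,0)]⟩,⟨0,[(31,0)]⟩),⟨0,
  [(31,0)]⟩,(.r 0 ⟨8,[(8,2),(0,2),(2,1),(23,1),(7,2),(2,0)]⟩ ⟨3,[(6,0),(16,0),(0,0),(4,0),(0,0),(21,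
  1)]⟩),.k,.k,.k,.k,.k,⟨true,0,⟨0,[]⟩,⟨2,[(7,0),(28,0),(10,0)]⟩⟩,⟨false,0,⟨37,[(10,11),(14,5),(8,
  11),(5,1),(1,1),(3,5),(4,2),(0,8)]⟩,⟨1,[(47,0),(3,0)]⟩⟩,⟨true,0,⟨8,[(6,3),(6,0),(0,0),(9,0)]⟩,⟨8,
  [(8,2),(0,2),(2,1),(23,1),(7,2),(2,0)]⟩⟩,⟨false,0,⟨5,[(6,1),(0,1),(8,1),(29,0),(5,2)]⟩,⟨13,[(25,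
  5),(18,1),(2,6),(0,1),(2,0)]⟩⟩,⟨false,0,⟨0,[]⟩,⟨0,[]⟩⟩,⟨false,0,⟨0,[]⟩,⟨0,[]⟩⟩,[.o ⟨false,0,⟨0,
  [(3,0),(46,0)]⟩,⟨1,[(0,1),(46,0),(4,0)]⟩⟩,.a ⟨true,0,⟨0,[(30,0)]⟩,⟨0,[(0,0)]⟩⟩ ⟨true,0,⟨0,[]⟩,⟨2,
  [(7,0),(28,0),(10,0)]⟩⟩ ⟨false,0,⟨37,[(10,11),(14,5),(8,11),(5,1),(1,1),(3,5),(4,2),(0,8)]⟩,⟨1,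
  [(47,0),(3,0)]⟩⟩,.o ⟨false,1,⟨11,[(3,9),(2,3),(6,1),(9,1),(6,1),(16,6),(4,2)]⟩,⟨2,[(0,2),(6,0),
  (28,0),(10,0)]⟩⟩,.o ⟨false,1,⟨0,[(30,0),(16,0)]⟩,⟨0,[(0,0)]⟩⟩]⟩) (.R ⟨0,false,false,false,[-1,1,0,
  0,1],[0,0,0,0,1],[1,1],(⟨0,[(1,0)]⟩,⟨0,[(31,0),(10,0)]⟩),(⟨0,[(32,0)]⟩,⟨0,[(31,0)]⟩),⟨0,[(31,0)]⟩,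
  (.r 0 ⟨8,[(8,2),(0,2),(2,1),(23,1),(7,2),(2,0)]⟩ ⟨3,[(6,0),(16,0),(0,0),(4,0),(0,0),(21,1)]⟩),.k,
  .k,.k,.k,.k,⟨true,0,⟨0,[]⟩,⟨2,[(7,0),(28,0),(10,0)]⟩⟩,⟨false,0,⟨37,[(10,11),(14,5),(8,11),(5,1),
  (1,1),(3,5),(4,2),(0,8)]⟩,⟨1,[(47,0),(3,0)]⟩⟩,⟨true,0,⟨8,[(6,3),(6,0),(0,0),(9,0)]⟩,⟨8,[(8,2),(0,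
  2),(2,1),(23,1),(7,2),(2,0)]⟩⟩,⟨false,0,⟨5,[(6,1),(0,1),(8,1),(29,0),(5,2)]⟩,⟨13,[(25,5),(18,1),
  (2,6),(0,1),(2,0)]⟩⟩,⟨false,0,⟨0,[]⟩,⟨0,[]⟩⟩,⟨false,0,⟨0,[]⟩,⟨0,[]⟩⟩,[.e ⟨false,0,⟨7,[(6,0),(7,0),
  (29,2),(3,1)]⟩,⟨1,[(29,0),(0,0),(21,0)]⟩⟩ ⟨false,0,⟨21,[(10,10),(11,2),(2,3),(8,4),(1,5),(7,4),(6,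
  3)]⟩,⟨3,[(11,0),(2,1),(3,1),(28,1),(4,0)]⟩⟩,.o ⟨false,0,⟨0,[(0,0)]⟩,⟨0,[(29,0)]⟩⟩,.e ⟨false,0,⟨0,
  []⟩,⟨1,[(29,0),(0,0),(21,0)]⟩⟩ ⟨false,0,⟨19,[(7,1),(2,7),(11,3),(2,1),(3,0),(0,0),(5,9),(15,2)]⟩,
  ⟨3,[(11,0),(2,1),(3,1),(28,1),(4,0)]⟩⟩,.a ⟨true,0,⟨0,[(0,0)]⟩,⟨1,[(2,1),(5,0),(1,0),(10,2)]⟩⟩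
  ⟨true,0,⟨7,[(6,0),(7,0),(29,2),(3,1)]⟩,⟨2,[(7,0),(28,0),(10,0)]⟩⟩ ⟨false,0,⟨37,[(10,11),(14,5),(8,
  11),(5,1),(1,1),(3,5),(4,2),(0,8)]⟩,⟨1,[(47,0),(4,0)]⟩⟩]⟩)) (.Q [0,-1,1,0,1,0,1,0,-1,0,1,-1] (.p
  false [1,0,-1,0,1] [1] (⟨0,[(31,0),(5,0)]⟩,⟨0,[(0,0),(25,0)]⟩) .k 1 (⟨0,[]⟩,⟨0,[]⟩) .k (.r 0 ⟨2,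
  [(7,0),(1,0),(1,1),(22,0)]⟩ ⟨16,[(12,0),(8,5),(0,2),(0,2),(27,7)]⟩)) (.R ⟨0,false,false,true,[1,0,
  -1],[1,-1,0,0,-1],[1,0,-1,-1],(⟨0,[(38,0)]⟩,⟨0,[(39,0)]⟩),(⟨0,[(1,0)]⟩,⟨34,[(10,1),(11,0),(0,0),
  (1,0),(6,34),(3,1),(6,10),(1,7),(0,1),(4,0)]⟩),⟨0,[(27,0)]⟩,.k,(.r (-1) ⟨13,[(0,1),(5,0),(3,1),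
  (12,6),(0,2),(5,1),(16,1),(4,4)]⟩ ⟨8,[(8,2),(0,2),(2,1),(23,1),(7,2),(2,0)]⟩),.k,(.r 0 ⟨0,[(8,0),
  (3,0)]⟩ ⟨16,[(13,2),(8,0),(0,8),(0,8),(27,6)]⟩),.k,.k,⟨true,0,⟨0,[]⟩,⟨2,[(7,0),(28,0),(10,0)]⟩⟩,
  ⟨false,1,⟨31,[(0,22),(1,0),(7,0),(0,4),(17,7),(14,10),(1,3),(1,0)]⟩,⟨10,[(3,7),(2,3),(6,2),(0,2),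
  (3,4),(7,2),(3,2)]⟩⟩,⟨true,0,⟨2,[(6,0),(6,0),(0,0),(9,0)]⟩,⟨0,[(8,0),(3,0)]⟩⟩,⟨false,1,⟨1,[(0,0),
  (1,0),(13,0),(33,0)]⟩,⟨0,[(3,0),(14,0)]⟩⟩,⟨false,0,⟨0,[]⟩,⟨0,[]⟩⟩,⟨false,0,⟨0,[]⟩,⟨0,[]⟩⟩,[.e
  ⟨false,0,⟨0,[(6,0),(1,0),(2,0),(1,0)]⟩,⟨7,[(0,2),(21,1),(2,2),(4,2),(4,3),(0,0),(7,0)]⟩⟩ ⟨false,1,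
  ⟨41,[(0,22),(1,7),(3,20),(4,2),(17,10),(4,12),(9,8),(1,2)]⟩,⟨14,[(3,12),(5,0),(3,3),(4,8),(7,1),
  (3,1),(2,1)]⟩⟩,.o ⟨false,1,⟨4,[(0,2),(1,1),(3,1),(30,2),(12,0)]⟩,⟨0,[(3,0)]⟩⟩,.a ⟨true,0,⟨14,[(8,
  0),(1,2),(11,1),(3,2),(6,3),(18,1)]⟩,⟨0,[(21,0)]⟩⟩ ⟨true,0,⟨8,[(6,3),(6,0),(0,0),(9,0)]⟩,⟨8,[(8,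
  2),(0,2),(2,1),(23,1),(7,2),(2,0)]⟩⟩ ⟨false,1,⟨5,[(0,4),(1,0),(3,1),(9,0),(33,0)]⟩,⟨14,[(3,12),(5,
  0),(3,3),(4,8),(7,1),(3,1),(2,1)]⟩⟩,.o ⟨false,0,⟨0,[(37,0)]⟩,⟨3,[(12,1),(16,0),(0,0),(20,0)]⟩⟩]⟩)
  (.S ⟨1,0,[0,2,1],[0,1,0,0,1],[0,1,1],(⟨121,[(10,11),(14,5),(6,121),(1,11),(5,13),(4,35),(0,5),(4,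
  2),(0,8)]⟩,⟨0,[(1,0)]⟩),⟨0,[(32,0)]⟩,(.r 0 ⟨8,[(8,2),(0,2),(2,1),(23,1),(7,2),(2,0)]⟩ ⟨3,[(6,0),
  (16,0),(0,0),(4,0),(0,0),(21,1)]⟩),.k,⟨true,0,⟨0,[(50,0)]⟩,⟨0,[(49,0)]⟩⟩,⟨false,0,⟨0,[(50,0)]⟩,⟨3,
  [(25,1),(25,0),(0,0)]⟩⟩,⟨false,1,⟨1,[(29,0),(0,0),(21,0)]⟩,⟨0,[]⟩⟩,⟨true,0,⟨9,[(8,0),(15,0),(11,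
  1),(7,3),(2,0)]⟩,⟨0,[]⟩⟩,[.e ⟨false,0,⟨9,[(8,0),(15,0),(11,1),(7,3),(2,0)]⟩,⟨1,[(51,0),(0,0)]⟩⟩
  ⟨false,0,⟨4,[(8,0),(15,0),(11,1),(7,3),(2,0)]⟩,⟨3,[(11,0),(2,1),(3,1),(33,2)]⟩⟩,.a ⟨true,(-1),⟨0,
  [(0,0),(35,0)]⟩,⟨25,[(2,3),(4,1),(10,3),(2,5),(7,21),(10,3),(1,3),(3,6),(5,8)]⟩⟩ ⟨true,0,⟨2,[(7,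
  0),(28,0),(10,0)]⟩,⟨0,[]⟩⟩ ⟨false,0,⟨9,[(8,0),(15,0),(11,1),(7,3),(2,0)]⟩,⟨1,[(51,0),(0,0)]⟩⟩,.o
  ⟨false,0,⟨5,[(0,5),(11,1),(23,1),(10,0),(4,2)]⟩,⟨2,[(7,0),(21,2),(6,0),(10,0)]⟩⟩,.o ⟨false,0,⟨1,
  [(0,1),(35,1),(10,0),(4,0)]⟩,⟨0,[(29,0)]⟩⟩]⟩)))))))) (.Q [0,-1,0,-1,0,0,0,0,-1,1,0,-1] (.p false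
  [0,0,0,0,1] [1] (⟨0,[(25,0)]⟩,⟨0,[(24,0)]⟩) .k 1 (⟨0,[]⟩,⟨0,[]⟩) .k .k) (.Q [0,-1,0,0,0,0,0,0,-1,
  1,0,-1] (.p false [0,0,0,0,1] [1] (⟨0,[(26,0)]⟩,⟨0,[(25,0)]⟩) .k 1 (⟨0,[]⟩,⟨0,[]⟩) .k .k) (.R ⟨2,
  false,false,true,[0,1],[1,0,0,0,-1],[0,0,1],(⟨0,[]⟩,⟨0,[]⟩),(⟨0,[(26,0)]⟩,⟨0,[(27,0)]⟩),⟨0,[]⟩,.k,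
  .k,.k,(.r 0 ⟨8,[(3,2),(0,2),(2,1),(23,1),(7,2),(2,0)]⟩ ⟨3,[(18,1),(5,0),(0,0),(19,1),(1,0)]⟩),.k,
  .k,⟨true,0,⟨1,[(31,0),(0,0)]⟩,⟨0,[]⟩⟩,⟨false,0,⟨12,[(0,9),(0,2),(1,0),(0,0),(26,1),(7,5),(2,0)]⟩,
  ⟨1,[(25,1),(16,0),(3,0)]⟩⟩,⟨true,0,⟨0,[(45,0)]⟩,⟨0,[(44,0)]⟩⟩,⟨false,0,⟨0,[(1,0)]⟩,⟨13,[(20,5),(4,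
  13),(13,1),(2,6),(0,1),(2,0)]⟩⟩,⟨false,1,⟨1,[(24,0),(0,0),(21,0)]⟩,⟨0,[]⟩⟩,⟨false,0,⟨0,[(0,0)]⟩,
  ⟨1,[(24,0),(0,2),(16,0)]⟩⟩,[.a ⟨true,0,⟨12,[(0,9),(0,2),(1,0),(0,0),(26,1),(7,5),(2,0)]⟩,⟨0,[(25,
  0)]⟩⟩ ⟨true,0,⟨1,[(31,0),(0,0)]⟩,⟨0,[]⟩⟩ ⟨false,0,⟨12,[(0,9),(0,2),(1,0),(0,0),(26,1),(7,5),(2,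
  0)]⟩,⟨1,[(25,1),(16,0),(3,0)]⟩⟩,.e ⟨false,1,⟨1,[(24,0),(0,0),(21,0)]⟩,⟨5,[(2,0),(2,0),(3,0),(29,
  1),(3,0)]⟩⟩ ⟨false,0,⟨0,[(0,0)]⟩,⟨3,[(24,0),(0,4),(13,1),(2,1),(3,0)]⟩⟩,.o ⟨false,1,⟨1,[(42,0),(3,
  0)]⟩,⟨1,[(31,0),(0,0)]⟩⟩,.fo]⟩) (.R ⟨2,true,false,true,[0,1],[1,0,0,0,-1],[0,0,1],(⟨0,[]⟩,⟨0,[]⟩),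
  (⟨0,[(26,0)]⟩,⟨0,[(27,0)]⟩),⟨0,[]⟩,.k,.k,.k,(.r 0 ⟨8,[(3,2),(0,2),(2,1),(23,1),(7,2),(2,0)]⟩ ⟨3,
  [(18,1),(5,0),(0,0),(19,1),(1,0)]⟩),.k,.k,⟨true,0,⟨1,[(31,0),(0,0)]⟩,⟨0,[]⟩⟩,⟨false,0,⟨0,[(1,0),
  (42,0)]⟩,⟨1,[(25,1),(16,0),(3,0)]⟩⟩,⟨true,0,⟨0,[(45,0)]⟩,⟨0,[(44,0)]⟩⟩,⟨false,0,⟨0,[(1,0)]⟩,⟨3,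
  [(0,1),(19,1),(4,1),(16,0),(3,0)]⟩⟩,⟨false,1,⟨1,[(24,0),(0,0),(21,0)]⟩,⟨0,[]⟩⟩,⟨true,0,⟨0,[(1,0),
  (42,0)]⟩,⟨0,[(0,0)]⟩⟩,[]⟩)) (.Q [0,1,0,-1,0,0,1,1,0,-1,1] (.p true [0,0,1] [1] (⟨0,[(33,0)]⟩,⟨0,
  [(32,0)]⟩) .k 1 (⟨0,[]⟩,⟨0,[]⟩) .k .k) (.R ⟨0,false,false,true,[1,0,-1],[0,-1,1],[1,1,-1,-1,0,0,0,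
  1],(⟨0,[(33,0)]⟩,⟨0,[(34,0)]⟩),(⟨0,[(23,0)]⟩,⟨121,[(5,11),(14,5),(8,11),(3,121),(1,13),(4,35),(0,
  5),(4,2),(0,8)]⟩),⟨0,[(22,0)]⟩,.k,.k,.k,(.r (-1) ⟨12,[(5,2),(1,6),(5,7),(6,7),(9,14),(0,11),(15,
  0)]⟩ ⟨2,[(8,0),(0,2),(9,0),(25,1)]⟩),.k,.k,⟨true,0,⟨0,[]⟩,⟨1,[(31,0),(0,0)]⟩⟩,⟨false,1,⟨3,[(7,1),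
  (16,0),(0,0),(5,3),(14,0)]⟩,⟨1,[(9,1),(3,0),(7,0),(8,0)]⟩⟩,⟨false,0,⟨2,[(8,0),(0,2),(9,0),(25,
  1)]⟩,⟨8,[(3,2),(3,6),(5,11),(6,2),(9,2),(0,6),(10,1)]⟩⟩,⟨true,0,⟨2,[(0,2),(7,0),(7,1),(12,0)]⟩,⟨0,
  [(2,0),(0,0),(9,0)]⟩⟩,⟨false,0,⟨0,[]⟩,⟨0,[]⟩⟩,⟨false,0,⟨0,[]⟩,⟨0,[]⟩⟩,[.o ⟨false,0,⟨0,[(0,0)]⟩,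
  ⟨11,[(2,1),(10,8),(6,5),(0,0),(8,2),(11,2),(3,0)]⟩⟩,.e ⟨false,0,⟨0,[(2,0),(2,0),(2,0)]⟩,⟨4,[(5,0),
  (1,0),(12,2),(3,0),(0,0),(4,3),(0,2),(15,0)]⟩⟩ ⟨false,1,⟨15,[(7,7),(3,6),(5,0),(0,6),(0,2),(9,3),
  (1,4)]⟩,⟨12,[(2,8),(0,8),(0,0),(3,1),(4,8),(7,3),(21,1)]⟩⟩,.a ⟨true,0,⟨14,[(3,0),(1,2),(11,1),(3,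
  2),(6,3),(18,1)]⟩,⟨0,[(16,0)]⟩⟩ ⟨false,0,⟨0,[(9,0),(35,0)]⟩,⟨11,[(7,1),(5,5),(6,5),(9,5),(0,7),
  (10,0),(4,2)]⟩⟩ ⟨true,0,⟨0,[(0,0),(15,0)]⟩,⟨12,[(2,8),(0,8),(0,0),(3,1),(4,8),(7,3),(21,1)]⟩⟩,.o
  ⟨false,0,⟨0,[(32,0)]⟩,⟨3,[(7,1),(16,0),(0,0),(20,0)]⟩⟩]⟩) (.I [0,0,2,1] (.R ⟨0,false,false,false,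
  [1,0,-1],[0,1],[0,0,2,1],(⟨0,[(34,0)]⟩,⟨0,[(35,0)]⟩),(⟨0,[(39,0)]⟩,⟨0,[(38,0)]⟩),⟨0,[(23,0)]⟩,.k,
  .k,.k,.k,.k,.k,⟨true,0,⟨1,[(0,0),(45,0)]⟩,⟨0,[]⟩⟩,⟨false,1,⟨0,[(13,0)]⟩,⟨11,[(0,0),(3,0),(1,4),
  (11,2),(14,4),(14,2)]⟩⟩,⟨true,0,⟨3,[(0,2),(4,0),(3,0),(10,0)]⟩,⟨0,[(3,0),(2,0)]⟩⟩,⟨false,1,⟨1,[(8,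
  0),(0,0),(11,0)]⟩,⟨1,[(6,1),(36,0),(4,0)]⟩⟩,⟨false,0,⟨0,[]⟩,⟨0,[]⟩⟩,⟨false,0,⟨0,[]⟩,⟨0,[]⟩⟩,[.o
  ⟨false,1,⟨13,[(21,5),(18,1),(2,6),(0,1),(2,0)]⟩,⟨0,[(46,0)]⟩⟩,.o ⟨false,1,⟨2,[(1,0),(1,0),(1,0),
  (37,0),(4,0)]⟩,⟨5,[(6,2),(1,0),(11,2),(11,0),(10,1)]⟩⟩,.a ⟨true,0,⟨11,[(1,0),(4,2),(11,1),(3,2),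
  (6,1),(18,0)]⟩,⟨0,[(17,0)]⟩⟩ ⟨true,0,⟨0,[(0,0)]⟩,⟨3,[(3,2),(2,2),(3,1),(9,0)]⟩⟩ ⟨false,1,⟨2,[(1,
  0),(3,0),(2,1),(39,0)]⟩,⟨2,[(6,0),(13,0),(1,0),(23,0),(1,0)]⟩⟩,.o ⟨false,0,⟨0,[(33,0)]⟩,⟨3,[(8,1),
  (16,0),(0,0),(20,0)]⟩⟩]⟩) (.Q [0,0,1,0,-1,0,0,0,1,0,0,1] (.p true [0,0,0,0,1] [] (⟨0,[(28,0)]⟩,⟨0,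
  [(27,0)]⟩) .k 0 (⟨0,[]⟩,⟨0,[]⟩) .k .k) (.K ⟨0,[0,0,0,0,1],(-1),(-1),(⟨0,[(29,0)]⟩,⟨0,[(28,0)]⟩),
  .k,(.r 0 ⟨5,[(1,1),(5,1),(1,0),(11,1),(19,0),(2,0)]⟩ ⟨29,[(5,3),(13,1),(2,11),(3,4),(0,4),(5,7),
  (10,3),(4,10)]⟩),(.r 0 ⟨8,[(5,2),(0,2),(2,1),(23,1),(7,2),(2,0)]⟩ ⟨3,[(20,1),(5,0),(0,0),(19,1),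
  (1,0)]⟩),.k,.k,[⟨0,[(18,0),(7,0)]⟩,⟨0,[(0,0)]⟩,⟨0,[(26,0)]⟩,⟨0,[(0,0),(40,0)]⟩]⟩) (.Q [0,0,0,0,0,
  0,0,0,1,-1,0,1] (.p true [0,0,0,0,1] [1] (⟨0,[(29,0)]⟩,⟨0,[(28,0)]⟩) .k 1 (⟨0,[]⟩,⟨0,[]⟩) .k .k)
  (.Q [0,0,0,0,0,-1,0,0,0,1,0,-1] (.ed true [0,1,0,0,1] .k) (.Q [0,-1,0,0,1,0,0,0,-1,0,0,-1] (.p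
  false [0,0,0,0,1] [] (⟨0,[(31,0)]⟩,⟨0,[(30,0)]⟩) .k 0 (⟨0,[]⟩,⟨0,[]⟩) .k .k) (.R ⟨0,false,false,
  true,[1,0,-1],[1,0,0,0,-1],[1],(⟨0,[(38,0)]⟩,⟨0,[(39,0)]⟩),(⟨0,[(31,0)]⟩,⟨0,[(32,0)]⟩),⟨0,[(27,
  0)]⟩,.k,.k,.k,.k,.k,.k,⟨true,0,⟨0,[]⟩,⟨1,[(36,0),(0,0)]⟩⟩,⟨false,1,⟨0,[(3,0),(17,0)]⟩,⟨1,[(2,0),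
  (23,0),(3,0)]⟩⟩,⟨true,0,⟨2,[(13,0),(6,0)]⟩,⟨2,[(8,0),(1,0),(1,1),(22,0)]⟩⟩,⟨false,1,⟨2,[(0,2),(12,
  0),(7,1),(12,0)]⟩,⟨1,[(2,0),(15,0),(11,0),(4,0)]⟩⟩,⟨false,0,⟨0,[]⟩,⟨0,[]⟩⟩,⟨false,0,⟨0,[]⟩,⟨0,
  []⟩⟩,[.o ⟨false,1,⟨0,[(29,0)]⟩,⟨0,[(2,0)]⟩⟩,.o ⟨false,1,⟨0,[(0,0)]⟩,⟨4,[(2,3),(3,0),(17,0),(10,0),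
  (0,0),(7,0)]⟩⟩,.a ⟨true,0,⟨11,[(5,0),(4,2),(11,1),(3,2),(6,1),(18,0)]⟩,⟨0,[(21,0)]⟩⟩ ⟨true,0,⟨0,
  []⟩,⟨9,[(8,0),(15,0),(11,1),(7,3),(2,0)]⟩⟩ ⟨false,1,⟨0,[(0,0),(20,0)]⟩,⟨1,[(2,0),(23,0),(3,0)]⟩⟩,
  .o ⟨false,0,⟨0,[(37,0)]⟩,⟨3,[(12,1),(16,0),(0,0),(20,0)]⟩⟩]⟩) (.S ⟨1,0,[0,2,1],[0,1,0,0,1],[0,1,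
  1],(⟨121,[(10,11),(14,5),(6,121),(1,11),(5,13),(4,35),(0,5),(4,2),(0,8)]⟩,⟨0,[(1,0)]⟩),⟨0,[(32,
  0)]⟩,(.r 0 ⟨8,[(8,2),(0,2),(2,1),(23,1),(7,2),(2,0)]⟩ ⟨3,[(23,1),(5,0),(0,0),(19,1),(1,0)]⟩),.k,
  ⟨true,0,⟨0,[(50,0)]⟩,⟨0,[(49,0)]⟩⟩,⟨false,0,⟨0,[(50,0)]⟩,⟨3,[(25,1),(25,0),(0,0)]⟩⟩,⟨false,1,⟨1,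
  [(29,0),(0,0),(21,0)]⟩,⟨0,[]⟩⟩,⟨true,0,⟨9,[(8,0),(15,0),(11,1),(7,3),(2,0)]⟩,⟨0,[]⟩⟩,[.e ⟨false,0,
  ⟨9,[(8,0),(15,0),(11,1),(7,3),(2,0)]⟩,⟨1,[(51,0),(0,0)]⟩⟩ ⟨false,0,⟨4,[(8,0),(15,0),(11,1),(7,3),
  (2,0)]⟩,⟨5,[(4,0),(0,1),(5,0),(1,0),(9,0),(28,3)]⟩⟩,.a ⟨true,(-1),⟨0,[(0,0)]⟩,⟨1,[(3,0),(25,0),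
  (16,0),(5,0),(0,0)]⟩⟩ ⟨true,0,⟨1,[(36,0),(0,0)]⟩,⟨0,[]⟩⟩ ⟨false,0,⟨9,[(8,0),(15,0),(11,1),(7,3),
  (2,0)]⟩,⟨1,[(51,0),(0,0)]⟩⟩,.o ⟨false,0,⟨4,[(0,0),(1,3),(1,0),(0,0),(1,0),(6,0)]⟩,⟨1,[(29,1),(6,
  0),(0,0)]⟩⟩,.o ⟨false,0,⟨0,[(2,0)]⟩,⟨0,[(29,0)]⟩⟩]⟩)) (.Q [0,-1,0,0,1,0,1,1,-1,0,1,-1] (.p true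
  [0,0,1] [0,0,0,0,1] (⟨0,[(38,0)]⟩,⟨0,[(37,0)]⟩) .k 2 (⟨0,[(31,0)]⟩,⟨0,[(30,0)]⟩) .k (.r (-1) ⟨16,
  [(12,0),(8,5),(0,2),(0,2),(27,7)]⟩ ⟨2,[(7,0),(1,0),(1,1),(22,0)]⟩)) (.R ⟨0,false,false,false,[-1,
  1,0,0,1],[0,0,0,0,1],[1,1],(⟨0,[(1,0)]⟩,⟨0,[(31,0),(10,0)]⟩),(⟨0,[(32,0)]⟩,⟨0,[(31,0)]⟩),⟨0,[(31,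
  0)]⟩,(.r 0 ⟨8,[(8,2),(0,2),(2,1),(23,1),(7,2),(2,0)]⟩ ⟨3,[(23,1),(5,0),(0,0),(19,1),(1,0)]⟩),.k,
  .k,.k,.k,.k,⟨true,0,⟨0,[]⟩,⟨1,[(36,0),(0,0)]⟩⟩,⟨false,0,⟨37,[(10,11),(14,5),(8,11),(5,1),(1,1),(3,
  5),(4,2),(0,8)]⟩,⟨1,[(47,0),(3,0)]⟩⟩,⟨true,0,⟨1,[(4,0),(45,0)]⟩,⟨8,[(8,2),(0,2),(2,1),(23,1),(7,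
  2),(2,0)]⟩⟩,⟨false,0,⟨1,[(46,0),(3,1),(1,0)]⟩,⟨13,[(25,5),(18,1),(2,6),(0,1),(2,0)]⟩⟩,⟨false,0,⟨0,
  []⟩,⟨0,[]⟩⟩,⟨false,0,⟨0,[]⟩,⟨0,[]⟩⟩,[.e ⟨false,0,⟨4,[(4,0),(39,1),(3,0)]⟩,⟨1,[(29,0),(0,0),(21,
  0)]⟩⟩ ⟨false,0,⟨21,[(10,10),(11,2),(2,3),(8,4),(1,5),(7,4),(6,3)]⟩,⟨23,[(4,3),(0,3),(1,7),(5,1),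
  (12,1),(20,6),(4,8)]⟩⟩,.o ⟨false,0,⟨0,[(2,0)]⟩,⟨0,[(29,0)]⟩⟩,.e ⟨false,0,⟨0,[]⟩,⟨1,[(29,0),(0,0),
  (21,0)]⟩⟩ ⟨false,0,⟨49,[(8,3),(1,19),(11,11),(2,1),(10,27),(9,0),(5,10)]⟩,⟨23,[(4,3),(0,3),(1,7),
  (5,1),(12,1),(20,6),(4,8)]⟩⟩,.a ⟨true,0,⟨0,[(2,0)]⟩,⟨0,[(0,0),(3,0),(3,0),(12,0)]⟩⟩ ⟨true,0,⟨4,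
  [(4,0),(39,1),(3,0)]⟩,⟨1,[(36,0),(0,0)]⟩⟩ ⟨false,0,⟨37,[(10,11),(14,5),(8,11),(5,1),(1,1),(3,5),
  (4,2),(0,8)]⟩,⟨1,[(47,0),(4,0)]⟩⟩]⟩) (.R ⟨0,false,false,true,[1,0,-1],[2,-1,0,0,-1],[1,0,-1,-1],
  (⟨0,[(38,0)]⟩,⟨0,[(39,0)]⟩),(⟨0,[(31,0),(10,0)]⟩,⟨0,[(1,0)]⟩),⟨0,[(27,0)]⟩,.k,(.r (-1) ⟨3,[(23,1),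
  (5,0),(0,0),(19,1),(1,0)]⟩ ⟨8,[(8,2),(0,2),(2,1),(23,1),(7,2),(2,0)]⟩),.k,(.r 0 ⟨0,[(8,0),(3,0)]⟩
  ⟨16,[(13,2),(8,0),(0,8),(0,8),(27,6)]⟩),.k,.k,⟨true,0,⟨0,[]⟩,⟨1,[(36,0),(0,0)]⟩⟩,⟨false,1,⟨7,[(21,
  1),(7,7),(6,5),(3,1),(1,1),(3,2),(4,2)]⟩,⟨5,[(0,2),(1,2),(1,0),(0,0),(1,1),(5,1),(12,1),(20,0)]⟩⟩,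
  ⟨true,0,⟨5,[(4,2),(8,1),(10,1),(25,0)]⟩,⟨0,[(8,0),(3,0)]⟩⟩,⟨false,1,⟨1,[(3,0),(12,1),(12,0),(16,
  0),(5,0),(0,0)]⟩,⟨4,[(0,2),(1,1),(2,2),(1,0),(1,0),(37,1)]⟩⟩,⟨false,0,⟨0,[]⟩,⟨0,[]⟩⟩,⟨false,0,⟨0,
  []⟩,⟨0,[]⟩⟩,[.e ⟨false,0,⟨0,[(4,0)]⟩,⟨4,[(22,0),(2,1),(3,1),(0,1),(4,1),(0,1)]⟩⟩ ⟨false,1,⟨5,[(10,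
  1),(5,0),(4,5),(1,2),(5,5),(4,0),(11,0)]⟩,⟨1,[(0,0),(4,0),(0,0),(6,0),(33,0)]⟩⟩,.o ⟨false,1,⟨1,
  [(29,1),(16,0),(3,1),(1,0)]⟩,⟨17,[(0,17),(6,6),(1,8),(2,3),(0,2),(20,2),(12,6)]⟩⟩,.a ⟨true,0,⟨11,
  [(5,0),(4,2),(11,1),(3,2),(6,1),(18,0)]⟩,⟨0,[(21,0)]⟩⟩ ⟨true,0,⟨1,[(4,0),(45,0)]⟩,⟨8,[(8,2),(0,2),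
  (2,1),(23,1),(7,2),(2,0)]⟩⟩ ⟨false,1,⟨1,[(21,1),(7,1),(16,0),(3,1),(1,0)]⟩,⟨1,[(0,0),(4,0),(0,0),
  (6,0),(33,0)]⟩⟩,.o ⟨false,0,⟨0,[(37,0)]⟩,⟨3,[(12,1),(16,0),(0,0),(20,0)]⟩⟩]⟩))) (.Q [0,0,0,0,0,1,
  0,0,0,-1,0,1] (.ed false [0,1,0,0,1] .k) (.R ⟨0,false,false,false,[-1,1,0,0,1],[0,0,0,0,1],[1,1],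
  (⟨0,[(0,0)]⟩,⟨0,[(30,0),(10,0)]⟩),(⟨0,[(31,0)]⟩,⟨0,[(30,0)]⟩),⟨0,[(30,0)]⟩,(.r 0 ⟨8,[(7,2),(0,2),
  (2,1),(23,1),(7,2),(2,0)]⟩ ⟨3,[(22,1),(5,0),(0,0),(19,1),(1,0)]⟩),.k,.k,.k,.k,.k,⟨true,0,⟨0,[]⟩,
  ⟨1,[(35,0),(0,0)]⟩⟩,⟨false,0,⟨37,[(9,11),(14,5),(8,11),(5,1),(1,1),(3,5),(4,2),(0,8)]⟩,⟨1,[(46,0),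
  (3,0)]⟩⟩,⟨true,0,⟨1,[(3,0),(45,0)]⟩,⟨8,[(7,2),(0,2),(2,1),(23,1),(7,2),(2,0)]⟩⟩,⟨false,0,⟨1,[(45,
  0),(3,1),(1,0)]⟩,⟨13,[(24,5),(18,1),(2,6),(0,1),(2,0)]⟩⟩,⟨false,0,⟨0,[]⟩,⟨0,[]⟩⟩,⟨false,0,⟨0,[]⟩,
  ⟨0,[]⟩⟩,[.o ⟨false,0,⟨0,[(5,0),(43,0)]⟩,⟨1,[(1,1),(44,0),(4,0)]⟩⟩,.a ⟨true,0,⟨0,[(29,0)]⟩,⟨0,[(1,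
  0)]⟩⟩ ⟨true,0,⟨0,[]⟩,⟨1,[(35,0),(0,0)]⟩⟩ ⟨false,0,⟨37,[(9,11),(14,5),(8,11),(5,1),(1,1),(3,5),(4,
  2),(0,8)]⟩,⟨1,[(46,0),(3,0)]⟩⟩,.o ⟨false,1,⟨17,[(3,4),(0,1),(0,2),(0,3),(5,0),(12,0),(3,14),(16,
  13)]⟩,⟨1,[(1,1),(33,0),(0,0)]⟩⟩,.o ⟨false,1,⟨0,[(29,0),(16,0)]⟩,⟨0,[(1,0)]⟩⟩]⟩) (.S ⟨1,0,[0,-1,0,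
  -1],[1,0,0,0,-1],[1],(⟨0,[(30,0)]⟩,⟨0,[(31,0)]⟩),⟨0,[(0,0)]⟩,.k,(.r (-1) ⟨3,[(22,1),(5,0),(0,0),
  (19,1),(1,0)]⟩ ⟨8,[(7,2),(0,2),(2,1),(23,1),(7,2),(2,0)]⟩),⟨false,0,⟨0,[]⟩,⟨1,[(28,0),(0,0),(21,
  0)]⟩⟩,⟨true,0,⟨0,[(49,0)]⟩,⟨0,[(48,0)]⟩⟩,⟨true,0,⟨0,[(48,0)]⟩,⟨0,[(49,0)]⟩⟩,⟨false,1,⟨1,[(28,0),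
  (0,0),(21,0)]⟩,⟨0,[]⟩⟩,[.o ⟨false,1,⟨1,[(1,1),(44,0),(2,1),(1,0)]⟩,⟨0,[(5,0)]⟩⟩,.e ⟨false,1,⟨1,
  [(50,0),(0,0)]⟩,⟨9,[(7,0),(15,0),(11,1),(7,3),(2,0)]⟩⟩ ⟨false,1,⟨1,[(3,0),(45,0),(1,1)]⟩,⟨3,[(7,
  0),(0,0),(2,0),(31,2),(4,0)]⟩⟩,.a ⟨true,0,⟨0,[(1,0)]⟩,⟨0,[(29,0)]⟩⟩ ⟨true,0,⟨0,[]⟩,⟨9,[(7,0),(15,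
  0),(11,1),(7,3),(2,0)]⟩⟩ ⟨false,1,⟨0,[(49,0),(1,0)]⟩,⟨0,[(48,0)]⟩⟩,.e ⟨false,1,⟨1,[(50,0),(0,0)]⟩,
  ⟨1,[(35,0),(0,0)]⟩⟩ ⟨false,1,⟨1,[(3,0),(45,0),(1,1)]⟩,⟨8,[(7,2),(0,2),(2,1),(23,1),(7,2),(2,
  0)]⟩⟩]⟩)))))))) (.I [0,0,2,0,-1,2,-1] (.Q [0,0,2,0,-1,0,-1,0,0,2,-1] (.p false [-1,1,1] [1] (⟨0,
  [(20,0)]⟩,⟨0,[(31,0),(3,0)]⟩) .k 1 (⟨0,[]⟩,⟨0,[]⟩) .k .k) (.K ⟨0,[2,-1,-1],(-1),(-1),(⟨0,[(32,0),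
  (3,0)]⟩,⟨0,[(21,0)]⟩),.k,(.x 1 ⟨0,[(1,0)]⟩ ⟨0,[(11,0),(20,0),(3,1),(4,0)]⟩),.k,(.r (-1) ⟨0,[(4,0),
  (1,0),(22,0),(16,0)]⟩ ⟨1,[(3,0),(3,0),(6,0)]⟩),.k,[⟨0,[(6,0)]⟩,⟨0,[(0,0)]⟩,⟨13,[(2,1),(0,7),(1,2),
  (22,3),(9,5),(2,8)]⟩,⟨0,[(4,0)]⟩]⟩) (.Q [0,0,0,0,0,0,0,0,-1,1,0,-1] (.p false [0,0,0,0,1] [1] (⟨0,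
  [(26,0)]⟩,⟨0,[(25,0)]⟩) .k 1 (⟨0,[]⟩,⟨0,[]⟩) .k .k) (.Q [0,0,0,0,0,1,0,0,0,-1,0,1] (.ed false [0,
  1,0,0,1] .k) (.R ⟨0,false,false,false,[-1,1,0,0,1],[0,0,0,0,1],[0,1,1],(⟨0,[(0,0)]⟩,⟨0,[(27,0),
  (10,0)]⟩),(⟨0,[(28,0)]⟩,⟨0,[(27,0)]⟩),⟨0,[(27,0)]⟩,(.r 0 ⟨4,[(5,1),(25,1),(0,1),(7,0),(4,0)]⟩ ⟨3,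
  [(19,1),(5,0),(0,0),(19,1),(1,0)]⟩),.k,.k,.k,.k,.k,⟨true,0,⟨1,[(32,0),(0,0)]⟩,⟨0,[]⟩⟩,⟨false,0,
  ⟨37,[(6,11),(14,5),(8,11),(5,1),(1,1),(3,5),(4,2),(0,8)]⟩,⟨1,[(43,0),(3,0)]⟩⟩,⟨true,0,⟨0,[(46,
  0)]⟩,⟨0,[(45,0)]⟩⟩,⟨false,0,⟨1,[(42,0),(3,1),(1,0)]⟩,⟨13,[(21,5),(18,1),(2,6),(0,1),(2,0)]⟩⟩,
  ⟨false,0,⟨0,[]⟩,⟨0,[]⟩⟩,⟨false,0,⟨0,[]⟩,⟨0,[]⟩⟩,[.e ⟨false,0,⟨14,[(5,0),(14,1),(10,2),(0,2),(7,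
  4)]⟩,⟨1,[(47,0),(0,0)]⟩⟩ ⟨false,0,⟨21,[(6,10),(11,2),(2,3),(8,4),(1,5),(7,4),(6,3)]⟩,⟨15,[(2,7),
  (6,1),(4,3),(7,1),(20,2),(4,4)]⟩⟩,.a ⟨true,0,⟨0,[(26,0)]⟩,⟨0,[(1,0)]⟩⟩ ⟨true,0,⟨1,[(32,0),(0,0)]⟩,
  ⟨0,[]⟩⟩ ⟨false,0,⟨37,[(6,11),(14,5),(8,11),(5,1),(1,1),(3,5),(4,2),(0,8)]⟩,⟨1,[(43,0),(3,0)]⟩⟩,.o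
  ⟨false,1,⟨0,[(2,0),(23,0),(6,0)]⟩,⟨1,[(1,1),(30,0),(0,0)]⟩⟩,.o ⟨false,1,⟨0,[(26,0),(16,0)]⟩,⟨0,
  [(1,0)]⟩⟩]⟩) (.R ⟨0,false,false,false,[1,0,-1,0,1],[0,0,0,0,1],[1,1],(⟨0,[(28,0),(5,0)]⟩,⟨0,[(0,
  0),(22,0)]⟩),(⟨0,[(28,0)]⟩,⟨0,[(27,0)]⟩),⟨0,[(0,0),(1,0),(0,0)]⟩,.k,.k,(.r 0 ⟨2,[(2,0),(3,2),(1,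
  0),(34,0)]⟩ ⟨13,[(5,1),(12,5),(2,1),(10,0),(0,0),(14,5)]⟩),.k,.k,.k,⟨true,0,⟨0,[]⟩,⟨1,[(32,0),(0,
  0)]⟩⟩,⟨false,1,⟨3,[(8,1),(16,0),(0,0),(20,0)]⟩,⟨4,[(6,0),(7,0),(3,0),(3,0),(6,0)]⟩⟩,⟨true,0,⟨2,
  [(9,0),(6,0)]⟩,⟨0,[(17,0),(13,0)]⟩⟩,⟨false,1,⟨5,[(4,1),(0,0),(6,0),(5,0),(13,0),(10,0),(4,1)]⟩,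
  ⟨11,[(6,3),(7,3),(6,1),(9,3),(15,0),(0,0)]⟩⟩,⟨false,0,⟨0,[]⟩,⟨0,[]⟩⟩,⟨false,0,⟨0,[]⟩,⟨0,[]⟩⟩,[.e
  ⟨false,0,⟨5,[(2,0),(3,0),(3,0),(29,1),(3,0)]⟩,⟨1,[(25,0),(0,0),(21,0)]⟩⟩ ⟨false,1,⟨1,[(8,0),(16,
  0),(0,0),(13,0)]⟩,⟨37,[(6,1),(2,11),(4,25),(3,1),(3,3),(6,1),(12,0),(5,0)]⟩⟩,.a ⟨true,0,⟨0,[(26,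
  0)]⟩,⟨0,[(1,0)]⟩⟩ ⟨true,0,⟨0,[]⟩,⟨1,[(32,0),(0,0)]⟩⟩ ⟨false,1,⟨3,[(8,1),(16,0),(0,0),(20,0)]⟩,⟨4,
  [(6,0),(7,0),(3,0),(3,0),(6,0)]⟩⟩,.e ⟨false,0,⟨0,[]⟩,⟨1,[(25,0),(0,0),(21,0)]⟩⟩ ⟨false,1,⟨5,[(8,
  1),(16,2),(0,2),(5,1),(10,0)]⟩,⟨37,[(6,1),(2,11),(4,25),(3,1),(3,3),(6,1),(12,0),(5,0)]⟩⟩,.o
  ⟨false,0,⟨0,[(26,0),(6,0)]⟩,⟨2,[(1,2),(0,0),(5,0),(34,0)]⟩⟩]⟩)) (.Q [0,1,0,0,-1,0,0,0,1,0,0,1]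
  (.p true [0,0,0,0,1] [] (⟨0,[(27,0)]⟩,⟨0,[(26,0)]⟩) .k 0 (⟨0,[]⟩,⟨0,[]⟩) .k .k) (.Q [0,0,0,0,0,1,
  0,0,0,-1,0,1] (.ed false [0,1,0,0,1] .k) (.Q [0,0,0,0,0,0,0,0,0,0,1,-1] (.ed true [1,0,-1,0,1]
  (.r 0 ⟨0,[(18,0),(13,0)]⟩ ⟨16,[(10,0),(8,5),(0,2),(0,2),(27,7)]⟩)) (.R ⟨0,false,false,true,[0,0,1,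
  0,-1],[1,0,0,0,-1],[1],(⟨0,[(0,0)]⟩,⟨0,[(30,0),(5,0)]⟩),(⟨0,[(29,0)]⟩,⟨0,[(30,0)]⟩),⟨0,[(1,0),(34,
  0)]⟩,.k,.k,(.x (-1) ⟨0,[(1,0),(25,0),(6,0),(1,0)]⟩ ⟨2,[(0,2),(1,2),(1,1),(6,0),(4,1),(7,0),(10,0),
  (4,2),(4,0)]⟩),.k,.k,.k,⟨true,0,⟨0,[]⟩,⟨1,[(34,0),(0,0)]⟩⟩,⟨false,0,⟨0,[(31,0)]⟩,⟨5,[(10,1),(16,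
  2),(0,2),(5,1),(10,0)]⟩⟩,⟨true,0,⟨2,[(10,0),(22,2),(0,0),(9,0)]⟩,⟨0,[(13,0)]⟩⟩,⟨false,0,⟨11,[(8,
  3),(7,3),(6,1),(9,3),(15,0),(0,0)]⟩,⟨5,[(6,1),(0,0),(6,0),(5,0),(13,0),(10,0),(4,1)]⟩⟩,⟨false,0,
  ⟨0,[]⟩,⟨0,[]⟩⟩,⟨false,0,⟨0,[]⟩,⟨0,[]⟩⟩,[.o ⟨false,1,⟨0,[(27,0)]⟩,⟨0,[(3,0)]⟩⟩,.e ⟨false,1,⟨1,[(49,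
  0),(0,0)]⟩,⟨14,[(7,0),(14,1),(10,2),(0,2),(7,4)]⟩⟩ ⟨false,0,⟨0,[(12,0),(3,0)]⟩,⟨5,[(10,0),(16,2),
  (0,2),(5,3),(7,2),(2,1)]⟩⟩,.a ⟨true,1,⟨0,[(19,0),(7,0)]⟩,⟨22,[(2,20),(4,0),(0,1),(2,7),(4,14),(7,
  1),(3,1),(2,1)]⟩⟩ ⟨true,0,⟨0,[]⟩,⟨14,[(7,0),(14,1),(10,2),(0,2),(7,4)]⟩⟩ ⟨false,0,⟨37,[(8,1),(2,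
  11),(4,25),(3,1),(3,3),(6,1),(12,0),(5,0)]⟩,⟨5,[(10,1),(16,2),(0,2),(5,1),(10,0)]⟩⟩,.e ⟨false,1,
  ⟨1,[(49,0),(0,0)]⟩,⟨1,[(34,0),(0,0)]⟩⟩ ⟨false,0,⟨0,[(12,0),(3,0)]⟩,⟨1,[(27,0),(0,0),(5,1),(10,
  0)]⟩⟩]⟩) (.R ⟨0,false,false,false,[1,0,0,0,-1],[1,0,1,0,-1],[1,1],(⟨0,[(29,0)]⟩,⟨0,[(30,0)]⟩),(⟨0,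
  [(29,0),(7,0)]⟩,⟨0,[(0,0)]⟩),⟨0,[(1,0)]⟩,.k,.k,(.r (-1) ⟨3,[(21,1),(5,0),(0,0),(19,1),(1,0)]⟩ ⟨4,
  [(7,1),(25,1),(0,1),(7,0),(4,0)]⟩),.k,.k,.k,⟨false,0,⟨3,[(8,1),(1,1),(22,1),(8,0),(3,0),(0,0)]⟩,
  ⟨16,[(11,5),(8,1),(0,0),(0,0),(27,13)]⟩⟩,⟨true,0,⟨0,[(19,0)]⟩,⟨0,[(35,0)]⟩⟩,⟨false,0,⟨14,[(7,0),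
  (14,1),(10,2),(0,2),(7,4)]⟩,⟨0,[(50,0)]⟩⟩,⟨true,0,⟨2,[(11,0),(7,1),(12,0)]⟩,⟨0,[(33,0)]⟩⟩,⟨false,
  0,⟨0,[]⟩,⟨0,[]⟩⟩,⟨false,0,⟨0,[]⟩,⟨0,[]⟩⟩,[.e ⟨false,0,⟨5,[(4,0),(3,0),(3,0),(29,1),(3,0)]⟩,⟨1,
  [(27,0),(0,0),(21,0)]⟩⟩ ⟨false,1,⟨32,[(6,9),(4,0),(8,3),(2,2),(8,12),(11,9),(4,9),(0,15)]⟩,⟨0,
  [(33,0)]⟩⟩,.a ⟨true,1,⟨0,[(11,0),(4,0),(2,1),(7,0)]⟩,⟨0,[(2,0),(30,0)]⟩⟩ ⟨true,0,⟨0,[]⟩,⟨1,[(34,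
  0),(0,0)]⟩⟩ ⟨false,1,⟨40,[(6,15),(4,7),(11,2),(8,8),(11,15),(1,9),(2,0),(0,36)]⟩,⟨14,[(7,0),(14,
  1),(10,17),(0,2),(7,4)]⟩⟩,.o ⟨false,1,⟨0,[(27,0)]⟩,⟨0,[(3,0)]⟩⟩,.o ⟨false,1,⟨1,[(27,1),(6,0),(0,
  0)]⟩,⟨2,[(2,0),(0,1),(0,0),(7,0),(3,0)]⟩⟩]⟩)) (.S ⟨1,0,[0,2,1],[0,1,0,0,1],[0,1,1],(⟨121,[(7,11),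
  (14,5),(6,121),(1,11),(5,13),(4,35),(0,5),(4,2),(0,8)]⟩,⟨0,[(0,0)]⟩),⟨0,[(29,0)]⟩,(.r 0 ⟨4,[(6,1),
  (25,1),(0,1),(7,0),(4,0)]⟩ ⟨3,[(20,1),(5,0),(0,0),(19,1),(1,0)]⟩),.k,⟨true,0,⟨0,[(47,0)]⟩,⟨0,[(46,
  0)]⟩⟩,⟨false,0,⟨0,[(47,0)]⟩,⟨3,[(22,1),(25,0),(0,0)]⟩⟩,⟨false,1,⟨1,[(26,0),(0,0),(21,0)]⟩,⟨0,[]⟩⟩,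
  ⟨true,0,⟨14,[(6,0),(14,1),(10,2),(0,2),(7,4)]⟩,⟨0,[]⟩⟩,[.e ⟨false,0,⟨14,[(6,0),(14,1),(10,2),(0,
  2),(7,4)]⟩,⟨1,[(48,0),(0,0)]⟩⟩ ⟨false,0,⟨14,[(6,1),(14,3),(10,5),(0,5),(7,9)]⟩,⟨3,[(8,0),(2,1),(3,
  1),(33,2)]⟩⟩,.a ⟨true,(-1),⟨0,[(1,0)]⟩,⟨11,[(10,1),(4,3),(2,3),(7,11),(10,1),(1,1),(3,2),(5,2)]⟩⟩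
  ⟨true,0,⟨1,[(33,0),(0,0)]⟩,⟨0,[]⟩⟩ ⟨false,0,⟨14,[(6,0),(14,1),(10,2),(0,2),(7,4)]⟩,⟨1,[(48,0),(0,
  0)]⟩⟩,.o ⟨false,0,⟨2,[(1,0),(0,1),(0,0),(7,0),(3,0)]⟩,⟨1,[(26,1),(6,0),(0,0)]⟩⟩,.o ⟨false,0,⟨0,
  [(2,0)]⟩,⟨0,[(26,0)]⟩⟩]⟩)) (.R ⟨0,false,false,true,[1,0,-1],[1,0,0,0,-1],[1],(⟨0,[(34,0)]⟩,⟨0,
  [(35,0)]⟩),(⟨0,[(27,0)]⟩,⟨0,[(28,0)]⟩),⟨0,[(23,0)]⟩,.k,.k,.k,.k,.k,.k,⟨true,0,⟨0,[]⟩,⟨1,[(32,0),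
  (0,0)]⟩⟩,⟨false,1,⟨10,[(0,8),(5,2),(0,3),(9,2),(7,1),(4,2),(11,0),(1,2)]⟩,⟨1,[(1,0),(20,0),(3,
  0)]⟩⟩,⟨true,0,⟨2,[(9,0),(6,0)]⟩,⟨0,[(17,0),(13,0)]⟩⟩,⟨false,1,⟨2,[(0,2),(8,0),(7,1),(12,0)]⟩,⟨1,
  [(1,0),(12,0),(11,0),(4,0)]⟩⟩,⟨false,0,⟨0,[]⟩,⟨0,[]⟩⟩,⟨false,0,⟨0,[]⟩,⟨0,[]⟩⟩,[.o ⟨false,1,⟨0,
  [(25,0)]⟩,⟨0,[(1,0)]⟩⟩,.o ⟨false,1,⟨0,[(0,0)]⟩,⟨14,[(1,14),(3,0),(14,1),(10,2),(0,2),(7,4)]⟩⟩,.a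
  ⟨true,0,⟨4,[(6,0),(7,0),(3,0),(3,0),(6,0)]⟩,⟨0,[(17,0)]⟩⟩ ⟨true,0,⟨0,[]⟩,⟨14,[(5,0),(14,1),(10,2),
  (0,2),(7,4)]⟩⟩ ⟨false,1,⟨0,[(0,0),(16,0)]⟩,⟨1,[(1,0),(20,0),(3,0)]⟩⟩,.o ⟨false,0,⟨0,[(33,0)]⟩,⟨3,
  [(8,1),(16,0),(0,0),(20,0)]⟩⟩]⟩)))) (.I [1,0,1,1] (.R ⟨0,false,false,false,[1,0,-1],[0,1],[1,0,1,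
  1],(⟨0,[(32,0)]⟩,⟨0,[(33,0)]⟩),(⟨0,[(37,0)]⟩,⟨0,[(36,0)]⟩),⟨0,[(21,0)]⟩,.k,.k,.k,.k,.k,.k,⟨true,0,
  ⟨0,[]⟩,⟨1,[(30,0),(0,0)]⟩⟩,⟨false,1,⟨0,[(11,0)]⟩,⟨27,[(3,1),(0,13),(11,5),(2,1),(10,0),(0,14),(14,
  5)]⟩⟩,⟨true,0,⟨5,[(3,2),(3,0),(6,0)]⟩,⟨2,[(2,0),(1,1),(1,0),(22,1)]⟩⟩,⟨false,1,⟨24,[(2,11),(0,6),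
  (3,1),(3,0),(4,0),(2,10)]⟩,⟨1,[(4,1),(36,0),(4,0)]⟩⟩,⟨false,0,⟨0,[]⟩,⟨0,[]⟩⟩,⟨false,0,⟨0,[]⟩,⟨0,
  []⟩⟩,[.o ⟨false,1,⟨13,[(19,5),(18,1),(2,6),(0,1),(2,0)]⟩,⟨0,[(44,0)]⟩⟩,.o ⟨false,1,⟨29,[(3,9),(1,
  10),(1,5),(4,21),(6,3),(21,14),(0,1)]⟩,⟨5,[(4,2),(1,0),(11,2),(11,0),(10,1)]⟩⟩,.a ⟨true,0,⟨4,[(4,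
  0),(7,0),(3,0),(3,0),(6,0)]⟩,⟨0,[(15,0)]⟩⟩ ⟨true,0,⟨0,[(0,0)]⟩,⟨10,[(2,3),(1,3),(3,0),(9,2),(10,
  3),(8,1)]⟩⟩ ⟨false,1,⟨3,[(3,1),(1,0),(0,1),(5,1),(33,0)]⟩,⟨2,[(4,0),(13,0),(1,0),(23,0),(1,0)]⟩⟩,
  .o ⟨false,0,⟨0,[(31,0)]⟩,⟨3,[(6,1),(16,0),(0,0),(20,0)]⟩⟩]⟩) (.I [0,0,2,1] (.R ⟨0,false,false,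
  false,[1,0,-1],[0,1],[1],(⟨0,[(33,0)]⟩,⟨0,[(34,0)]⟩),(⟨0,[(38,0)]⟩,⟨0,[(37,0)]⟩),⟨0,[(22,0)]⟩,.k,
  .k,.k,.k,.k,.k,⟨true,0,⟨0,[(1,0)]⟩,⟨0,[(0,0)]⟩⟩,⟨false,1,⟨0,[(12,0)]⟩,⟨8,[(0,1),(4,3),(11,1),(3,
  0),(10,2),(14,1)]⟩⟩,⟨true,0,⟨2,[(8,0),(6,0)]⟩,⟨7,[(0,2),(4,2),(0,1),(0,1),(22,4),(10,0)]⟩⟩,⟨false,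
  1,⟨24,[(3,11),(0,6),(3,1),(3,0),(4,0),(2,10)]⟩,⟨1,[(5,1),(36,0),(4,0)]⟩⟩,⟨false,0,⟨0,[]⟩,⟨0,[]⟩⟩,
  ⟨false,0,⟨0,[]⟩,⟨0,[]⟩⟩,[.o ⟨false,1,⟨13,[(20,5),(18,1),(2,6),(0,1),(2,0)]⟩,⟨0,[(45,0)]⟩⟩,.o
  ⟨false,1,⟨29,[(4,9),(1,10),(1,5),(4,21),(6,3),(21,14),(0,1)]⟩,⟨5,[(5,2),(1,0),(11,2),(11,0),(10,
  1)]⟩⟩,.a ⟨true,0,⟨4,[(5,0),(7,0),(3,0),(3,0),(6,0)]⟩,⟨0,[(16,0)]⟩⟩ ⟨true,0,⟨0,[]⟩,⟨7,[(0,0),(18,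
  0),(10,0),(0,0),(7,2)]⟩⟩ ⟨false,1,⟨3,[(4,1),(1,0),(0,1),(5,1),(33,0)]⟩,⟨2,[(5,0),(13,0),(1,0),(23,
  0),(1,0)]⟩⟩,.o ⟨false,0,⟨0,[(32,0)]⟩,⟨3,[(7,1),(16,0),(0,0),(20,0)]⟩⟩]⟩) (.Q [0,-1,0,0,0,0,0,0,-1,
  1,0,-1] (.p false [0,0,0,0,1] [1] (⟨0,[(27,0)]⟩,⟨0,[(26,0)]⟩) .k 1 (⟨0,[]⟩,⟨0,[]⟩) .k .k) (.R ⟨2,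
  false,false,true,[0,1],[1,0,0,0,-1],[1],(⟨0,[]⟩,⟨0,[]⟩),(⟨0,[(27,0)]⟩,⟨0,[(28,0)]⟩),⟨0,[]⟩,.k,.k,
  .k,(.r 0 ⟨4,[(5,1),(25,1),(0,1),(7,0),(4,0)]⟩ ⟨3,[(19,1),(5,0),(0,0),(19,1),(1,0)]⟩),.k,.k,⟨true,
  0,⟨0,[]⟩,⟨1,[(32,0),(0,0)]⟩⟩,⟨false,0,⟨14,[(0,14),(4,0),(14,1),(10,2),(0,2),(7,4)]⟩,⟨1,[(26,1),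
  (16,0),(3,0)]⟩⟩,⟨true,0,⟨1,[(1,0),(44,0)]⟩,⟨4,[(5,1),(25,1),(0,1),(7,0),(4,0)]⟩⟩,⟨false,0,⟨0,[(0,
  0),(45,0)]⟩,⟨13,[(21,5),(4,13),(13,1),(2,6),(0,1),(2,0)]⟩⟩,⟨false,1,⟨1,[(47,0),(0,0)]⟩,⟨1,[(32,0),
  (0,0)]⟩⟩,⟨false,0,⟨0,[(0,0)]⟩,⟨1,[(25,0),(0,2),(16,0)]⟩⟩,[.a ⟨true,0,⟨14,[(0,14),(4,0),(14,1),(10,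
  2),(0,2),(7,4)]⟩,⟨0,[(26,0)]⟩⟩ ⟨true,0,⟨0,[]⟩,⟨1,[(32,0),(0,0)]⟩⟩ ⟨false,0,⟨14,[(0,14),(4,0),(14,
  1),(10,2),(0,2),(7,4)]⟩,⟨1,[(26,1),(16,0),(3,0)]⟩⟩,.e ⟨false,1,⟨1,[(47,0),(0,0)]⟩,⟨14,[(5,0),(14,
  1),(10,2),(0,2),(7,4)]⟩⟩ ⟨false,0,⟨0,[(0,0)]⟩,⟨3,[(25,0),(0,4),(13,1),(2,1),(3,0)]⟩⟩,.o ⟨false,1,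
  ⟨1,[(43,0),(3,0)]⟩,⟨1,[(32,0),(0,0)]⟩⟩,.fo]⟩) (.Q [0,0,1,0,-1,0,0,0,1,0,0,1] (.p true [0,0,0,0,1]
  [] (⟨0,[(28,0)]⟩,⟨0,[(27,0)]⟩) .k 0 (⟨0,[]⟩,⟨0,[]⟩) .k .k) (.K ⟨0,[0,0,0,0,1],(-1),(-1),(⟨0,[(29,
  0)]⟩,⟨0,[(28,0)]⟩),.k,(.r 0 ⟨5,[(2,1),(4,1),(1,0),(11,1),(19,0),(2,0)]⟩ ⟨13,[(19,1),(2,5),(9,3),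
  (0,4),(0,0),(14,5)]⟩),(.r 0 ⟨4,[(6,1),(25,1),(0,1),(7,0),(4,0)]⟩ ⟨3,[(20,1),(5,0),(0,0),(19,1),(1,
  0)]⟩),.k,.k,[⟨0,[(18,0),(7,0)]⟩,⟨0,[(0,0)]⟩,⟨0,[(26,0)]⟩,⟨0,[(0,0),(40,0)]⟩]⟩) (.Q [0,-1,0,1,1,0,
  1,1,-1,-1,1,-1] (.p true [-1,1,1] [0,0,0,0,1] (⟨0,[(24,0)]⟩,⟨0,[(35,0),(3,0)]⟩) .k 2 (⟨0,[(29,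
  0)]⟩,⟨0,[(28,0)]⟩) .k (.r (-1) ⟨16,[(10,0),(8,5),(0,2),(0,2),(27,7)]⟩ ⟨0,[(18,0),(13,0)]⟩)) (.R
  ⟨0,false,false,false,[-1,1,1],[0,0,0,0,1],[1,1],(⟨0,[(25,0)]⟩,⟨0,[(36,0),(3,0)]⟩),(⟨0,[(30,0)]⟩,
  ⟨0,[(29,0)]⟩),⟨0,[(36,0)]⟩,.k,.k,.k,(.r (-1) ⟨13,[(7,1),(12,5),(2,1),(10,0),(0,0),(14,5)]⟩ ⟨3,[(3,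
  0),(4,2),(1,1),(22,0),(11,0)]⟩),.k,.k,⟨true,0,⟨0,[]⟩,⟨1,[(34,0),(0,0)]⟩⟩,⟨false,0,⟨4,[(8,0),(7,0),
  (3,0),(3,0),(3,4),(2,0)]⟩,⟨3,[(0,3),(2,0),(4,2),(1,1),(22,0),(11,0)]⟩⟩,⟨true,0,⟨3,[(3,0),(4,2),(1,
  1),(22,0),(11,0)]⟩,⟨0,[(17,0)]⟩⟩,⟨false,0,⟨0,[(2,0),(5,0),(41,0)]⟩,⟨0,[(0,0)]⟩⟩,⟨false,0,⟨0,[]⟩,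
  ⟨0,[]⟩⟩,⟨false,0,⟨0,[]⟩,⟨0,[]⟩⟩,[.o ⟨false,0,⟨0,[(2,0)]⟩,⟨1,[(0,0),(15,0),(10,0),(20,0)]⟩⟩,.a
  ⟨true,0,⟨0,[(28,0)]⟩,⟨0,[(0,0),(7,0)]⟩⟩ ⟨true,0,⟨0,[]⟩,⟨1,[(34,0),(0,0)]⟩⟩ ⟨false,0,⟨4,[(8,0),(7,
  0),(3,0),(3,0),(3,4),(2,0)]⟩,⟨3,[(0,3),(2,0),(4,2),(1,1),(22,0),(11,0)]⟩⟩,.o ⟨false,1,⟨1,[(9,0),
  (35,0)]⟩,⟨27,[(7,1),(0,13),(11,5),(2,1),(10,0),(0,14),(14,5)]⟩⟩,.o ⟨false,1,⟨2,[(10,0),(23,0),(10,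
  1)]⟩,⟨4,[(8,0),(7,0),(3,0),(3,0),(6,0)]⟩⟩]⟩) (.Q [0,0,0,0,0,1,0,0,0,-1,1,-1] (.p true [-1,1,1] [0,
  0,0,0,1] (⟨0,[(25,0)]⟩,⟨0,[(36,0),(3,0)]⟩) .k 2 (⟨0,[(30,0)]⟩,⟨0,[(29,0)]⟩) .k (.r (-1) ⟨16,[(11,
  0),(8,5),(0,2),(0,2),(27,7)]⟩ ⟨0,[(19,0),(13,0)]⟩)) (.Q [0,0,1,0,-1,0,-1,0,1,1,-1,1] (.p true [1,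
  0,-1,0,1] [] (⟨0,[(31,0),(5,0)]⟩,⟨1,[(0,0),(26,0),(2,0)]⟩) .k 0 (⟨0,[]⟩,⟨0,[]⟩) .k (.r 0 ⟨0,[(20,
  0),(13,0)]⟩ ⟨16,[(12,0),(8,5),(0,2),(0,2),(27,7)]⟩)) (.R ⟨0,false,false,false,[1,0,-1,0,1],[0,0,0,
  0,1],[1,1],(⟨0,[(32,0),(5,0)]⟩,⟨1,[(1,0),(26,0),(2,0)]⟩),(⟨0,[(32,0)]⟩,⟨0,[(31,0)]⟩),⟨0,[(1,0)]⟩,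
  .k,.k,(.r 0 ⟨3,[(5,0),(4,2),(1,1),(22,0),(11,0)]⟩ ⟨13,[(9,1),(12,5),(2,1),(10,0),(0,0),(14,5)]⟩),
  .k,.k,.k,⟨true,0,⟨0,[]⟩,⟨1,[(36,0),(0,0)]⟩⟩,⟨false,1,⟨3,[(12,1),(16,0),(0,0),(20,0)]⟩,⟨4,[(10,0),
  (7,0),(3,0),(3,0),(6,0)]⟩⟩,⟨true,0,⟨2,[(13,0),(6,0)]⟩,⟨0,[(21,0),(13,0)]⟩⟩,⟨false,1,⟨5,[(8,1),(0,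
  0),(6,0),(5,0),(13,0),(10,0),(4,1)]⟩,⟨11,[(2,0),(7,2),(7,4),(6,1),(3,0),(5,2),(15,0)]⟩⟩,⟨false,0,
  ⟨0,[]⟩,⟨0,[]⟩⟩,⟨false,0,⟨0,[]⟩,⟨0,[]⟩⟩,[.e ⟨false,0,⟨4,[(5,0),(38,1),(3,0)]⟩,⟨1,[(29,0),(0,0),(21,
  0)]⟩⟩ ⟨false,1,⟨1,[(12,0),(16,0),(0,0),(13,0)]⟩,⟨37,[(10,1),(2,11),(4,25),(3,1),(3,3),(6,1),(12,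
  0),(5,0)]⟩⟩,.o ⟨false,0,⟨1,[(0,1),(10,0),(35,0)]⟩,⟨0,[(29,0)]⟩⟩,.e ⟨false,0,⟨0,[]⟩,⟨1,[(29,0),(0,
  0),(21,0)]⟩⟩ ⟨false,1,⟨5,[(4,1),(7,1),(16,2),(0,0),(5,1),(15,0)]⟩,⟨37,[(10,1),(2,11),(4,25),(3,1),
  (3,3),(6,1),(12,0),(5,0)]⟩⟩,.a ⟨true,(-1),⟨0,[(0,0)]⟩,⟨0,[(3,0),(17,0)]⟩⟩ ⟨true,0,⟨4,[(5,0),(38,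
  1),(3,0)]⟩,⟨1,[(36,0),(0,0)]⟩⟩ ⟨false,1,⟨3,[(12,1),(16,0),(0,0),(20,0)]⟩,⟨14,[(9,0),(0,1),(2,1),
  (4,2),(18,9),(8,3),(5,5),(0,2)]⟩⟩]⟩) (.Q [0,0,0,0,0,0,0,0,-1,1,0,-1] (.p false [0,0,0,0,1] [1]
  (⟨0,[(32,0)]⟩,⟨0,[(31,0)]⟩) .k 1 (⟨0,[]⟩,⟨0,[]⟩) .k .k) (.R ⟨0,false,false,false,[1,0,-1,0,1],[0,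
  0,0,0,1],[1,1],(⟨0,[(33,0),(5,0)]⟩,⟨1,[(2,0),(26,0),(2,0)]⟩),(⟨0,[(33,0)]⟩,⟨0,[(32,0)]⟩),⟨0,[(2,
  0)]⟩,.k,.k,(.r 0 ⟨0,[(1,0),(1,0)]⟩ ⟨13,[(10,1),(12,5),(2,1),(10,0),(0,0),(14,5)]⟩),.k,.k,.k,⟨true,
  0,⟨0,[]⟩,⟨1,[(37,0),(0,0)]⟩⟩,⟨false,1,⟨3,[(13,1),(16,0),(0,0),(20,0)]⟩,⟨4,[(11,0),(7,0),(3,0),(3,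
  0),(6,0)]⟩⟩,⟨true,0,⟨2,[(14,0),(6,0)]⟩,⟨0,[(22,0),(13,0)]⟩⟩,⟨false,1,⟨5,[(9,1),(0,0),(6,0),(5,0),
  (13,0),(10,0),(4,1)]⟩,⟨11,[(3,0),(7,2),(7,4),(6,1),(3,0),(5,2),(15,0)]⟩⟩,⟨false,0,⟨0,[]⟩,⟨0,[]⟩⟩,
  ⟨false,0,⟨0,[]⟩,⟨0,[]⟩⟩,[.o ⟨false,0,⟨0,[(5,0)]⟩,⟨1,[(0,1),(47,0),(4,0)]⟩⟩,.a ⟨true,0,⟨0,[(31,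
  0)]⟩,⟨0,[(0,0)]⟩⟩ ⟨true,0,⟨0,[]⟩,⟨1,[(37,0),(0,0)]⟩⟩ ⟨false,1,⟨3,[(13,1),(16,0),(0,0),(20,0)]⟩,⟨4,
  [(11,0),(7,0),(3,0),(3,0),(6,0)]⟩⟩,.o ⟨false,0,⟨3,[(5,2),(8,0),(4,1),(7,0),(3,0)]⟩,⟨1,[(0,0),(0,
  0),(35,0),(10,0)]⟩⟩,.o ⟨false,0,⟨0,[(31,0),(6,0)]⟩,⟨0,[(1,0)]⟩⟩]⟩) (.R ⟨0,false,false,true,[1,0,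
  -1],[1,0,0,0,-1],[1],(⟨0,[(39,0)]⟩,⟨0,[(40,0)]⟩),(⟨0,[(32,0)]⟩,⟨0,[(33,0)]⟩),⟨0,[(28,0)]⟩,.k,.k,
  .k,.k,.k,.k,⟨true,0,⟨0,[]⟩,⟨1,[(37,0),(0,0)]⟩⟩,⟨false,1,⟨0,[(4,0),(17,0)]⟩,⟨1,[(0,0),(26,0),(3,
  0)]⟩⟩,⟨true,0,⟨2,[(14,0),(6,0)]⟩,⟨0,[(22,0),(13,0)]⟩⟩,⟨false,1,⟨27,[(1,15),(12,13),(15,11),(6,11),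
  (3,1),(1,1),(3,6),(5,6),(0,3)]⟩,⟨11,[(0,7),(2,3),(15,3),(6,1),(9,3),(15,0),(0,0)]⟩⟩,⟨false,0,⟨0,
  []⟩,⟨0,[]⟩⟩,⟨false,0,⟨0,[]⟩,⟨0,[]⟩⟩,[.o ⟨false,1,⟨0,[(30,0)]⟩,⟨0,[(0,0)]⟩⟩,.o ⟨false,1,⟨2,[(1,1),
  (12,0),(4,1),(10,0),(6,0),(0,0)]⟩,⟨0,[(5,0)]⟩⟩,.a ⟨true,0,⟨4,[(11,0),(7,0),(3,0),(3,0),(6,0)]⟩,⟨0,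
  [(22,0)]⟩⟩ ⟨true,0,⟨0,[]⟩,⟨14,[(10,0),(14,1),(10,2),(0,2),(7,4)]⟩⟩ ⟨false,1,⟨4,[(1,3),(12,0),(4,
  1),(10,0),(6,2),(9,0),(5,0),(0,0)]⟩,⟨1,[(0,0),(26,0),(3,0)]⟩⟩,.o ⟨false,0,⟨0,[(38,0)]⟩,⟨3,[(13,1),
  (16,0),(0,0),(20,0)]⟩⟩]⟩))) (.I [0,0,-1,0,0,-1,-1,0,1] (.Q [0,0,0,0,0,0,0,0,1,-1,0,1] (.p true [0,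
  0,0,0,1] [1] (⟨0,[(32,0)]⟩,⟨0,[(31,0)]⟩) .k 1 (⟨0,[]⟩,⟨0,[]⟩) .k .k) (.Q [0,0,0,0,0,-1,0,0,0,1,0,
  -1] (.ed true [0,1,0,0,1] .k) (.Q [0,-1,0,0,1,0,0,0,-1,0,0,-1] (.p false [0,0,0,0,1] [] (⟨0,[(34,
  0)]⟩,⟨0,[(33,0)]⟩) .k 0 (⟨0,[]⟩,⟨0,[]⟩) .k .k) (.R ⟨0,false,false,true,[1,0,-1],[1,0,0,0,-1],[1],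
  (⟨0,[(41,0)]⟩,⟨0,[(42,0)]⟩),(⟨0,[(34,0)]⟩,⟨0,[(35,0)]⟩),⟨0,[(30,0)]⟩,.k,.k,.k,.k,.k,.k,⟨true,0,⟨0,
  []⟩,⟨1,[(39,0),(0,0)]⟩⟩,⟨false,1,⟨0,[(6,0),(17,0)]⟩,⟨1,[(2,0),(26,0),(3,0)]⟩⟩,⟨true,0,⟨2,[(16,0),
  (6,0)]⟩,⟨0,[(24,0),(13,0)]⟩⟩,⟨false,1,⟨2,[(0,2),(15,0),(7,1),(12,0)]⟩,⟨11,[(2,7),(2,3),(15,3),(6,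
  1),(9,3),(15,0),(0,0)]⟩⟩,⟨false,0,⟨0,[]⟩,⟨0,[]⟩⟩,⟨false,0,⟨0,[]⟩,⟨0,[]⟩⟩,[.o ⟨false,1,⟨0,[(32,
  0)]⟩,⟨0,[(2,0)]⟩⟩,.o ⟨false,1,⟨0,[(0,0)]⟩,⟨0,[(7,0)]⟩⟩,.a ⟨true,0,⟨4,[(13,0),(7,0),(3,0),(3,0),(6,
  0)]⟩,⟨0,[(24,0)]⟩⟩ ⟨true,0,⟨0,[]⟩,⟨14,[(12,0),(14,1),(10,2),(0,2),(7,4)]⟩⟩ ⟨false,1,⟨0,[(0,0),(23,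
  0)]⟩,⟨1,[(2,0),(26,0),(3,0)]⟩⟩,.o ⟨false,0,⟨0,[(40,0)]⟩,⟨3,[(15,1),(16,0),(0,0),(20,0)]⟩⟩]⟩) (.S
  ⟨1,0,[0,2,1],[0,1,0,0,1],[0,1,1],(⟨121,[(13,11),(14,5),(6,121),(1,11),(5,13),(4,35),(0,5),(4,2),
  (0,8)]⟩,⟨0,[(1,0)]⟩),⟨0,[(35,0)]⟩,(.r 0 ⟨4,[(12,1),(25,1),(0,1),(7,0),(4,0)]⟩ ⟨10,[(5,1),(9,0),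
  (10,4),(0,1),(4,1),(20,1),(1,4)]⟩),.k,⟨true,0,⟨0,[(53,0)]⟩,⟨0,[(52,0)]⟩⟩,⟨false,0,⟨0,[(53,0)]⟩,⟨3,
  [(28,1),(25,0),(0,0)]⟩⟩,⟨false,1,⟨1,[(32,0),(0,0),(21,0)]⟩,⟨0,[]⟩⟩,⟨true,0,⟨14,[(12,0),(14,1),(10,
  2),(0,2),(7,4)]⟩,⟨0,[]⟩⟩,[.e ⟨false,0,⟨14,[(12,0),(14,1),(10,2),(0,2),(7,4)]⟩,⟨1,[(54,0),(0,0)]⟩⟩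
  ⟨false,0,⟨14,[(12,1),(14,3),(10,5),(0,5),(7,9)]⟩,⟨3,[(14,0),(2,1),(3,1),(33,2)]⟩⟩,.a ⟨true,(-1),
  ⟨0,[(0,0)]⟩,⟨1,[(6,0),(25,0),(16,0),(5,0),(0,0)]⟩⟩ ⟨true,0,⟨1,[(39,0),(0,0)]⟩,⟨0,[]⟩⟩ ⟨false,0,
  ⟨14,[(12,0),(14,1),(10,2),(0,2),(7,4)]⟩,⟨1,[(54,0),(0,0)]⟩⟩,.o ⟨false,0,⟨4,[(0,1),(1,2),(5,0),(5,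
  0),(1,0),(4,1),(28,0),(0,0)]⟩,⟨1,[(32,1),(6,0),(0,0)]⟩⟩,.o ⟨false,0,⟨0,[(2,0)]⟩,⟨0,[(32,0)]⟩⟩]⟩))
  (.Q [0,0,0,0,0,0,0,0,-1,2,0,-1] (.p false [-1,1,0,0,1] [1] (⟨0,[(0,0)]⟩,⟨0,[(33,0),(10,0)]⟩) (.r
  0 ⟨4,[(11,1),(25,1),(0,1),(7,0),(4,0)]⟩ ⟨10,[(4,1),(9,0),(10,4),(0,1),(4,1),(20,1),(1,4)]⟩) 1 (⟨0,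
  []⟩,⟨0,[]⟩) .k .k) (.R ⟨0,false,false,false,[-1,1,0,0,1],[0,0,0,0,1],[1,1],(⟨0,[(1,0)]⟩,⟨0,[(34,
  0),(10,0)]⟩),(⟨0,[(35,0)]⟩,⟨0,[(34,0)]⟩),⟨0,[(34,0)]⟩,(.r 0 ⟨4,[(12,1),(25,1),(0,1),(7,0),(4,0)]⟩
  ⟨10,[(5,1),(9,0),(10,4),(0,1),(4,1),(20,1),(1,4)]⟩),.k,.k,.k,.k,.k,⟨true,0,⟨0,[]⟩,⟨1,[(39,0),(0,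
  0)]⟩⟩,⟨false,0,⟨1,[(0,0),(32,0)]⟩,⟨1,[(50,0),(3,0)]⟩⟩,⟨true,0,⟨1,[(8,0),(44,0)]⟩,⟨4,[(12,1),(25,
  1),(0,1),(7,0),(4,0)]⟩⟩,⟨false,0,⟨1,[(49,0),(3,1),(1,0)]⟩,⟨13,[(28,5),(18,1),(2,6),(0,1),(2,0)]⟩⟩,
  ⟨false,0,⟨0,[]⟩,⟨0,[]⟩⟩,⟨false,0,⟨0,[]⟩,⟨0,[]⟩⟩,[.e ⟨false,0,⟨4,[(8,0),(38,1),(3,0)]⟩,⟨1,[(32,0),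
  (0,0),(21,0)]⟩⟩ ⟨false,0,⟨33,[(0,12),(4,7),(19,3),(2,1),(3,1),(0,6),(5,7),(7,13)]⟩,⟨3,[(14,0),(2,
  1),(3,1),(28,1),(4,0)]⟩⟩,.o ⟨false,0,⟨0,[(2,0)]⟩,⟨0,[(32,0)]⟩⟩,.e ⟨false,0,⟨0,[]⟩,⟨1,[(32,0),(0,
  0),(21,0)]⟩⟩ ⟨false,0,⟨27,[(12,1),(0,13),(11,5),(2,1),(10,14),(0,0),(14,5)]⟩,⟨3,[(14,0),(2,1),(3,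
  1),(28,1),(4,0)]⟩⟩,.a ⟨true,0,⟨0,[(2,0)]⟩,⟨0,[(0,0)]⟩⟩ ⟨true,0,⟨4,[(8,0),(38,1),(3,0)]⟩,⟨1,[(39,
  0),(0,0)]⟩⟩ ⟨false,0,⟨1,[(0,0),(32,0)]⟩,⟨1,[(50,0),(4,0)]⟩⟩]⟩) (.R ⟨0,false,false,true,[-1,1,0,0,
  1],[0,1],[1,1,1,1],(⟨0,[(1,0)]⟩,⟨0,[(34,0),(10,0)]⟩),(⟨0,[(46,0)]⟩,⟨0,[(45,0)]⟩),⟨0,[(34,0)]⟩,(.r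
  0 ⟨4,[(12,1),(25,1),(0,1),(7,0),(4,0)]⟩ ⟨10,[(5,1),(9,0),(10,4),(0,1),(4,1),(20,1),(1,4)]⟩),.k,.k,
  .k,.k,.k,⟨true,0,⟨0,[]⟩,⟨1,[(39,0),(0,0)]⟩⟩,⟨false,1,⟨7,[(6,1),(25,5),(10,1),(1,1),(3,2),(4,2)]⟩,
  ⟨0,[(2,0)]⟩⟩,⟨true,0,⟨0,[]⟩,⟨14,[(12,0),(14,1),(10,2),(0,2),(7,4)]⟩⟩,⟨false,1,⟨1,[(6,0),(25,0),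
  (16,0),(5,0),(0,0)]⟩,⟨0,[(2,0)]⟩⟩,⟨false,0,⟨0,[]⟩,⟨0,[]⟩⟩,⟨false,0,⟨0,[]⟩,⟨0,[]⟩⟩,[.e ⟨false,0,⟨0,
  [(52,0)]⟩,⟨10,[(5,1),(9,0),(10,4),(0,1),(4,1),(20,1),(1,4)]⟩⟩ ⟨false,1,⟨11,[(13,2),(14,4),(3,11),
  (4,2),(9,2),(1,2),(2,4),(1,0)]⟩,⟨7,[(0,4),(4,2),(3,0),(1,3),(4,1),(4,4),(27,0),(6,0)]⟩⟩,.o ⟨false,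
  1,⟨13,[(28,5),(18,1),(2,6),(0,1),(2,0)]⟩,⟨0,[(53,0)]⟩⟩,.a ⟨true,0,⟨9,[(0,1),(1,7),(5,1),(2,0),(5,
  0),(3,1),(27,0),(1,2)]⟩,⟨1,[(6,0),(25,0),(16,1),(6,2)]⟩⟩ ⟨true,0,⟨4,[(12,1),(25,1),(0,1),(7,0),(4,
  0)]⟩,⟨0,[(9,0)]⟩⟩ ⟨false,1,⟨68,[(12,12),(0,19),(14,29),(3,68),(4,6),(1,12),(3,8),(1,8),(3,9),(2,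
  2)]⟩,⟨7,[(0,4),(4,2),(3,0),(1,3),(4,1),(4,4),(27,0),(6,0)]⟩⟩,.o ⟨false,0,⟨0,[(0,0)]⟩,⟨37,[(13,11),
  (14,5),(3,37),(4,11),(5,1),(1,1),(3,5),(4,2),(0,8)]⟩⟩]⟩))) (.Q [0,0,0,0,0,1,0,0,0,-1,0,1] (.ed
  false [0,1,0,0,1] .k) (.R ⟨0,false,false,false,[-1,1,0,0,1],[0,0,0,0,1],[1,1],(⟨0,[(0,0)]⟩,⟨0,
  [(33,0),(10,0)]⟩),(⟨0,[(34,0)]⟩,⟨0,[(33,0)]⟩),⟨0,[(33,0)]⟩,(.r 0 ⟨4,[(11,1),(25,1),(0,1),(7,0),(4,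
  0)]⟩ ⟨10,[(4,1),(9,0),(10,4),(0,1),(4,1),(20,1),(1,4)]⟩),.k,.k,.k,.k,.k,⟨true,0,⟨0,[]⟩,⟨1,[(38,0),
  (0,0)]⟩⟩,⟨false,0,⟨37,[(12,11),(14,5),(8,11),(5,1),(1,1),(3,5),(4,2),(0,8)]⟩,⟨1,[(49,0),(3,0)]⟩⟩,
  ⟨true,0,⟨1,[(7,0),(44,0)]⟩,⟨4,[(11,1),(25,1),(0,1),(7,0),(4,0)]⟩⟩,⟨false,0,⟨1,[(48,0),(3,1),(1,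
  0)]⟩,⟨13,[(27,5),(18,1),(2,6),(0,1),(2,0)]⟩⟩,⟨false,0,⟨0,[]⟩,⟨0,[]⟩⟩,⟨false,0,⟨0,[]⟩,⟨0,[]⟩⟩,[.o
  ⟨false,0,⟨0,[(6,0)]⟩,⟨1,[(1,1),(47,0),(4,0)]⟩⟩,.a ⟨true,0,⟨0,[(32,0)]⟩,⟨0,[(1,0)]⟩⟩ ⟨true,0,⟨0,
  []⟩,⟨1,[(38,0),(0,0)]⟩⟩ ⟨false,0,⟨37,[(12,11),(14,5),(8,11),(5,1),(1,1),(3,5),(4,2),(0,8)]⟩,⟨1,
  [(49,0),(3,0)]⟩⟩,.o ⟨false,1,⟨41,[(0,11),(1,11),(3,29),(2,11),(0,3),(4,1),(4,7),(6,1),(19,7),(1,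
  16),(4,6)]⟩,⟨1,[(1,1),(36,0),(0,0)]⟩⟩,.o ⟨false,1,⟨1,[(6,1),(42,0),(4,0)]⟩,⟨0,[(1,0)]⟩⟩]⟩) (.S ⟨1,
  0,[0,2,1],[0,1,0,0,1],[0,1,1],(⟨121,[(12,11),(14,5),(6,121),(1,11),(5,13),(4,35),(0,5),(4,2),(0,
  8)]⟩,⟨0,[(0,0)]⟩),⟨0,[(34,0)]⟩,(.r 0 ⟨4,[(11,1),(25,1),(0,1),(7,0),(4,0)]⟩ ⟨10,[(4,1),(9,0),(10,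
  4),(0,1),(4,1),(20,1),(1,4)]⟩),.k,⟨true,0,⟨0,[(52,0)]⟩,⟨0,[(51,0)]⟩⟩,⟨false,0,⟨0,[(52,0)]⟩,⟨3,
  [(27,1),(25,0),(0,0)]⟩⟩,⟨false,1,⟨1,[(31,0),(0,0),(21,0)]⟩,⟨0,[]⟩⟩,⟨true,0,⟨14,[(11,0),(14,1),(10,
  2),(0,2),(7,4)]⟩,⟨0,[]⟩⟩,[.e ⟨false,0,⟨14,[(11,0),(14,1),(10,2),(0,2),(7,4)]⟩,⟨1,[(53,0),(0,0)]⟩⟩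
  ⟨false,0,⟨14,[(11,1),(14,3),(10,5),(0,5),(7,9)]⟩,⟨3,[(13,0),(2,1),(3,1),(33,2)]⟩⟩,.o ⟨false,0,⟨0,
  [(6,0)]⟩,⟨1,[(1,1),(47,0),(4,0)]⟩⟩,.e ⟨false,0,⟨1,[(38,0),(0,0)]⟩,⟨1,[(53,0),(0,0)]⟩⟩ ⟨false,0,⟨4,
  [(11,0),(14,1),(10,2),(0,2)]⟩,⟨3,[(13,0),(2,1),(3,1),(33,2)]⟩⟩,.a ⟨true,0,⟨0,[(32,0)]⟩,⟨0,[(1,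
  0)]⟩⟩ ⟨true,0,⟨14,[(11,0),(14,1),(10,2),(0,2),(7,4)]⟩,⟨0,[]⟩⟩ ⟨false,0,⟨14,[(11,0),(14,1),(10,2),
  (0,2),(7,4)]⟩,⟨0,[(54,0)]⟩⟩]⟩))) (.Q [0,0,0,0,0,0,0,0,-1,1,0,-1] (.p false [0,0,0,0,1] [1] (⟨0,
  [(32,0)]⟩,⟨0,[(31,0)]⟩) .k 1 (⟨0,[]⟩,⟨0,[]⟩) .k .k) (.Q [0,0,0,0,0,1,0,0,0,-1,0,1] (.ed false [0,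
  1,0,0,1] .k) (.R ⟨0,false,false,false,[-1,1,0,0,1],[0,0,0,0,1],[1,1],(⟨0,[(0,0)]⟩,⟨0,[(33,0),(10,
  0)]⟩),(⟨0,[(34,0)]⟩,⟨0,[(33,0)]⟩),⟨0,[(33,0)]⟩,(.r 0 ⟨4,[(11,1),(25,1),(0,1),(7,0),(4,0)]⟩ ⟨10,
  [(4,1),(9,0),(10,4),(0,1),(4,1),(20,1),(1,4)]⟩),.k,.k,.k,.k,.k,⟨true,0,⟨0,[]⟩,⟨1,[(38,0),(0,0)]⟩⟩,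
  ⟨false,0,⟨37,[(12,11),(14,5),(8,11),(5,1),(1,1),(3,5),(4,2),(0,8)]⟩,⟨1,[(49,0),(3,0)]⟩⟩,⟨true,0,
  ⟨1,[(7,0),(44,0)]⟩,⟨4,[(11,1),(25,1),(0,1),(7,0),(4,0)]⟩⟩,⟨false,0,⟨1,[(48,0),(3,1),(1,0)]⟩,⟨13,
  [(27,5),(18,1),(2,6),(0,1),(2,0)]⟩⟩,⟨false,0,⟨0,[]⟩,⟨0,[]⟩⟩,⟨false,0,⟨0,[]⟩,⟨0,[]⟩⟩,[.o ⟨false,0,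
  ⟨0,[(6,0)]⟩,⟨1,[(1,1),(47,0),(4,0)]⟩⟩,.a ⟨true,0,⟨0,[(32,0)]⟩,⟨0,[(1,0)]⟩⟩ ⟨true,0,⟨0,[]⟩,⟨1,[(38,
  0),(0,0)]⟩⟩ ⟨false,0,⟨37,[(12,11),(14,5),(8,11),(5,1),(1,1),(3,5),(4,2),(0,8)]⟩,⟨1,[(49,0),(3,
  0)]⟩⟩,.o ⟨false,1,⟨3,[(6,3),(6,0),(2,1),(3,1),(28,1),(4,0)]⟩,⟨1,[(1,1),(36,0),(0,0)]⟩⟩,.o ⟨false,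
  1,⟨1,[(6,1),(42,0),(4,0)]⟩,⟨0,[(1,0)]⟩⟩]⟩) (.S ⟨1,0,[0,2,1],[0,1,0,0,1],[1,1],(⟨121,[(12,11),(14,
  5),(6,121),(1,11),(5,13),(4,35),(0,5),(4,2),(0,8)]⟩,⟨0,[(0,0)]⟩),⟨0,[(34,0)]⟩,(.r 0 ⟨4,[(11,1),
  (25,1),(0,1),(7,0),(4,0)]⟩ ⟨10,[(4,1),(9,0),(10,4),(0,1),(4,1),(20,1),(1,4)]⟩),.k,⟨true,0,⟨1,[(7,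
  0),(44,0)]⟩,⟨4,[(11,1),(25,1),(0,1),(7,0),(4,0)]⟩⟩,⟨false,0,⟨0,[(52,0)]⟩,⟨3,[(27,1),(25,0),(0,
  0)]⟩⟩,⟨false,1,⟨1,[(53,0),(0,0)]⟩,⟨1,[(38,0),(0,0)]⟩⟩,⟨true,0,⟨14,[(11,0),(14,1),(10,2),(0,2),(7,
  4)]⟩,⟨0,[]⟩⟩,[.o ⟨false,0,⟨14,[(6,14),(4,0),(14,1),(10,2),(0,2),(7,4)]⟩,⟨2,[(0,1),(0,0),(0,1),(10,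
  0),(1,1),(4,3),(8,0),(0,0),(18,1)]⟩⟩,.o ⟨false,0,⟨0,[(6,0)]⟩,⟨1,[(1,1),(47,0),(4,0)]⟩⟩,.e ⟨false,
  0,⟨0,[]⟩,⟨1,[(31,0),(0,0),(21,0)]⟩⟩ ⟨false,0,⟨4,[(11,0),(14,1),(10,2),(0,2)]⟩,⟨3,[(13,0),(2,1),(3,
  1),(33,2)]⟩⟩,.a ⟨true,0,⟨0,[(32,0)]⟩,⟨0,[(1,0)]⟩⟩ ⟨true,0,⟨4,[(7,0),(38,1),(3,0)]⟩,⟨1,[(38,0),(0,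
  0)]⟩⟩ ⟨false,0,⟨14,[(11,0),(14,1),(10,2),(0,2),(7,4)]⟩,⟨0,[(54,0)]⟩⟩]⟩)) (.R ⟨0,false,false,true,
  [1,0,-1],[1,0,0,0,-1],[1],(⟨0,[(39,0)]⟩,⟨0,[(40,0)]⟩),(⟨0,[(32,0)]⟩,⟨0,[(33,0)]⟩),⟨0,[(28,0)]⟩,.k,
  .k,.k,.k,.k,.k,⟨true,0,⟨0,[]⟩,⟨1,[(37,0),(0,0)]⟩⟩,⟨false,1,⟨0,[(4,0),(17,0)]⟩,⟨1,[(0,0),(26,0),(3,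
  0)]⟩⟩,⟨true,0,⟨2,[(14,0),(6,0)]⟩,⟨0,[(22,0),(13,0)]⟩⟩,⟨false,1,⟨13,[(1,5),(2,1),(4,3),(0,1),(3,3),
  (14,5),(0,5),(1,5),(14,0),(5,2)]⟩,⟨11,[(0,7),(2,3),(15,3),(6,1),(9,3),(15,0),(0,0)]⟩⟩,⟨false,0,⟨0,
  []⟩,⟨0,[]⟩⟩,⟨false,0,⟨0,[]⟩,⟨0,[]⟩⟩,[.o ⟨false,1,⟨0,[(30,0)]⟩,⟨0,[(0,0)]⟩⟩,.o ⟨false,1,⟨3,[(1,2),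
  (2,0),(1,1),(3,0),(3,0),(4,2),(9,2),(2,2),(15,2)]⟩,⟨0,[(5,0)]⟩⟩,.a ⟨true,0,⟨4,[(11,0),(7,0),(3,0),
  (3,0),(6,0)]⟩,⟨0,[(22,0)]⟩⟩ ⟨true,0,⟨0,[]⟩,⟨14,[(10,0),(14,1),(10,2),(0,2),(7,4)]⟩⟩ ⟨false,1,⟨9,
  [(1,5),(7,3),(0,1),(1,0),(6,5),(9,5),(0,3),(1,5),(15,0)]⟩,⟨1,[(0,0),(26,0),(3,0)]⟩⟩,.o ⟨false,0,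
  ⟨0,[(38,0)]⟩,⟨3,[(13,1),(16,0),(0,0),(20,0)]⟩⟩]⟩))))))))))))

theorem ok11 : chk K t11 l16 = true := by decide +kernel

noncomputable def t12 : Tre :=
  (.I [1,1,-2,-2,0,0,0,-1] (.R ⟨0,false,false,false,[1,0,-1],[0,1],[1,0,1,1],(⟨0,[(29,0)]⟩,⟨0,[(30,
  0)]⟩),(⟨0,[(34,0)]⟩,⟨0,[(33,0)]⟩),⟨0,[(18,0)]⟩,.k,.k,.k,.k,.k,.k,⟨true,0,⟨0,[]⟩,⟨1,[(27,0),(0,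
  0)]⟩⟩,⟨false,1,⟨0,[(8,0)]⟩,⟨0,[(17,0),(9,0)]⟩⟩,⟨true,0,⟨0,[(10,0)]⟩,⟨1,[(0,0),(11,0),(13,0)]⟩⟩,
  ⟨false,1,⟨1,[(3,0),(0,0),(11,0)]⟩,⟨7,[(0,1),(8,7),(5,3),(10,1),(0,2),(0,0)]⟩⟩,⟨false,0,⟨0,[]⟩,⟨0,
  []⟩⟩,⟨false,0,⟨0,[]⟩,⟨0,[]⟩⟩,[.o ⟨false,1,⟨13,[(16,5),(18,1),(2,6),(0,1),(2,0)]⟩,⟨0,[(41,0)]⟩⟩,.o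
  ⟨false,1,⟨17,[(1,7),(7,7),(6,3),(21,4),(0,1),(2,0)]⟩,⟨7,[(0,1),(14,3),(10,1),(0,2),(0,0)]⟩⟩,.a
  ⟨true,0,⟨10,[(0,0),(8,2),(3,1),(3,3),(19,1),(7,1)]⟩,⟨0,[(12,0)]⟩⟩ ⟨true,0,⟨0,[(1,0),(24,0),(10,0),
  (6,0)]⟩,⟨10,[(0,3),(4,0),(9,2),(19,1)]⟩⟩ ⟨false,1,⟨2,[(1,0),(1,0),(5,0),(2,0),(3,0)]⟩,⟨0,[(9,0),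
  (5,0)]⟩⟩,.o ⟨false,0,⟨0,[(28,0)]⟩,⟨31,[(0,7),(2,15),(9,3),(2,5),(25,4),(0,0)]⟩⟩]⟩) (.R ⟨0,false,
  false,true,[1,0,-1],[2,-1,-1],[1,1,-1,-1,0,0,0,-1],(⟨0,[(29,0)]⟩,⟨0,[(30,0)]⟩),(⟨0,[(29,0),(3,
  0)]⟩,⟨0,[(18,0)]⟩),⟨0,[(18,0)]⟩,.k,.k,.k,.k,.k,.k,⟨true,0,⟨0,[]⟩,⟨1,[(27,0),(0,0)]⟩⟩,⟨false,0,⟨2,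
  [(20,0),(0,0),(9,0),(1,0),(3,0)]⟩,⟨1,[(38,0),(3,0)]⟩⟩,⟨true,0,⟨5,[(2,0),(2,1),(20,1),(8,1),(1,0),
  (3,5)]⟩,⟨5,[(0,2),(2,0),(22,2),(0,0),(9,0)]⟩⟩,⟨false,0,⟨6,[(9,2),(4,1),(0,3),(10,0),(0,3),(9,1),
  (3,0)]⟩,⟨17,[(1,7),(7,7),(6,3),(21,4),(0,1),(2,0)]⟩⟩,⟨false,0,⟨0,[]⟩,⟨0,[]⟩⟩,⟨false,0,⟨0,[]⟩,⟨0,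
  []⟩⟩,[.o ⟨false,0,⟨6,[(9,2),(4,1),(0,3),(10,7),(0,3),(9,1),(3,0)]⟩,⟨0,[(1,0)]⟩⟩,.o ⟨false,0,⟨6,
  [(9,4),(4,0),(0,1),(10,3),(0,1),(9,0),(3,3)]⟩,⟨2,[(1,1),(23,0),(12,0),(1,0)]⟩⟩,.a ⟨true,0,⟨6,[(9,
  2),(3,0),(1,0),(1,1),(17,0),(1,0)]⟩,⟨0,[(12,0)]⟩⟩ ⟨true,0,⟨1,[(2,0),(23,1),(10,0),(3,1)]⟩,⟨0,[(10,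
  0)]⟩⟩ ⟨false,0,⟨2,[(9,0),(2,0),(1,0),(11,1),(0,1),(9,0),(3,1)]⟩,⟨71,[(1,47),(2,7),(8,3),(2,9),(0,
  23),(24,6),(0,2)]⟩⟩,.o ⟨false,0,⟨0,[(28,0)]⟩,⟨3,[(3,1),(16,0),(0,0),(20,0)]⟩⟩]⟩))

theorem ok12 : chk K t12 r16 = true := by decide +kernel


end Helper25.S1T.Ymp_1dP3
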