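import Pool.Agent.Helper25.S1T.Ymp_2_p0
import Pool.Agent.Helper25.S1T.Ymp_2_p1
import Pool.Agent.Helper25.S1T.Ymp_2_p2
import Pool.Agent.Helper25.S1T.Ymp_2_p3

set_option autoImplicit false
set_option linter.all false

namespace Helper25.S1T.Ymp_2

open Helper25.KG Helper25.KW Helper55.KE Helper11.CT

noncomputable def t3 : Tre :=
  .Q [0,0,0,0,0,-1,0,0,0,1,-1] (.ed true [0,1,1] .k) t1 t2

theorem ok3 : chk K t3 l2 = true :=
  chk_Q (e' := [0,0,0,0,0,1,0,0,0,-1,1]) (by decide +kernel) (by decide +kernel) ok1 ok2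

noncomputable def t5 : Tre :=
  .I [1,0,0,1,0,0,0,-1] t3 t4

theorem ok5 : chk K t5 r1 = true :=
  chk_I (e' := [0,0,0,-1,0,0,0,1]) (by decide +kernel) (by decide +kernel) ok3 ok4

noncomputable def t6 : Tre :=
  .Q [0,0,0,-1,-1,0,-1,-1,0,1,-1] (.p false [0,0,1] [1] (⟨0,[(12,0)]⟩,⟨0,[(11,0)]⟩) .k 1 (⟨0,[]⟩,⟨0,
  []⟩) .k .k) t0 t5

theorem ok6 : chk K t6 l0 = true :=
  chk_Q (e' := [0,0,0,1,1,0,1,1,0,-1,1]) (by decide +kernel) (by decide +kernel) ok0 ok5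

noncomputable def t11 : Tre :=
  .I [1,1,-2,-2,-1] t9 t10

theorem ok11 : chk K t11 r6 = true :=
  chk_I (e' := [0,-1,2,2,1]) (by decide +kernel) (by decide +kernel) ok9 ok10

noncomputable def t12 : Tre :=
  .Q [0,0,0,0,0,-1,0,0,0,1,-1] (.ed true [0,1,1] .k) t8 t11

theorem ok12 : chk K t12 r5 = true :=
  chk_Q (e' := [0,0,0,0,0,1,0,0,0,-1,1]) (by decide +kernel) (by decide +kernel) ok8 ok11

noncomputable def t13 : Tre :=
  .Q [0,0,0,0,0,0,-1,0,0,0,-1] (.p false [0,0,1] [] (⟨0,[(13,0)]⟩,⟨0,[(12,0)]⟩) .k 0 (⟨0,[]⟩,⟨0,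
  []⟩) .k .k) t7 t12

theorem ok13 : chk K t13 l4 = true :=
  chk_Q (e' := [0,0,0,0,0,0,1,0,0,0,1]) (by decide +kernel) (by decide +kernel) ok7 ok12

noncomputable def t25 : Tre :=
  .I [0,0,2,2,-1,0,0,-1] t23 t24

theorem ok25 : chk K t25 l25 = true :=
  chk_I (e' := [1,0,-2,-2,1,0,0,1]) (by decide +kernel) (by decide +kernel) ok23 ok24

noncomputable def t27 : Tre :=
  .Q [0,0,2,0,0,0,1,0,0,-1,1] (.p true [0,0,1] [1] (⟨0,[(30,0)]⟩,⟨0,[(29,0)]⟩) .k 1 (⟨0,[]⟩,⟨0,[]⟩)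
  .k .k) t25 t26

theorem ok27 : chk K t27 l24 = true :=
  chk_Q (e' := [0,0,-2,0,0,0,-1,0,0,1,-1]) (by decide +kernel) (by decide +kernel) ok25 ok26

noncomputable def t29 : Tre :=
  .Q [0,0,0,0,0,2,0,0,0,0,-1] (.p false [0,0,1] [] (⟨0,[(29,0)]⟩,⟨0,[(28,0)]⟩) .k 0 (⟨0,[]⟩,⟨0,[]⟩)
  .k .k) t27 t28

theorem ok29 : chk K t29 r23 = true :=
  chk_Q (e' := [0,0,0,0,0,-2,0,0,0,0,1]) (by decide +kernel) (by decide +kernel) ok27 ok28

noncomputable def t30 : Tre :=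
  .I [0,-1,-2,-2,1] t22 t29

theorem ok30 : chk K t30 r22 = true :=
  chk_I (e' := [1,1,2,2,-1]) (by decide +kernel) (by decide +kernel) ok22 ok29

noncomputable def t31 : Tre :=
  .Q [0,0,0,-2,-1,0,-1,-1,0,1,-1] (.p false [0,0,1] [1] (⟨0,[(27,0)]⟩,⟨0,[(26,0)]⟩) .k 1 (⟨0,[]⟩,⟨0,
  []⟩) .k .k) t21 t30

theorem ok31 : chk K t31 l21 = true :=
  chk_Q (e' := [0,0,0,2,1,0,1,1,0,-1,1]) (by decide +kernel) (by decide +kernel) ok21 ok30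

noncomputable def t33 : Tre :=
  .I [1,1,2,1,-1,0,0,1] t31 t32

theorem ok33 : chk K t33 r20 = true :=
  chk_I (e' := [0,-1,-2,-1,1,0,0,-1]) (by decide +kernel) (by decide +kernel) ok31 ok32

noncomputable def t34 : Tre :=
  .Q [0,-1,0,1,1,0,0,0,0,-1] (.pp true [-1,1]) t20 t33

theorem ok34 : chk K t34 r19 = true :=
  chk_Q (e' := [0,1,0,-1,-1,0,0,0,0,1]) (by decide +kernel) (by decide +kernel) ok20 ok33

noncomputable def t35 : Tre :=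
  .Q [0,-1,0,-1,0,0,-1,-1,0,0,-1] (.p false [0,0,1] [] (⟨0,[(24,0)]⟩,⟨0,[(23,0)]⟩) .k 0 (⟨0,[]⟩,⟨0,
  []⟩) .k .k) t19 t34

theorem ok35 : chk K t35 r18 = true :=
  chk_Q (e' := [0,1,0,1,0,0,1,1,0,0,1]) (by decide +kernel) (by decide +kernel) ok19 ok34

noncomputable def t36 : Tre :=
  .Q [0,0,0,0,0,1,0,0,0,-1,1] (.ed false [0,1,1] .k) t18 t35

theorem ok36 : chk K t36 l17 = true :=
  chk_Q (e' := [0,0,0,0,0,-1,0,0,0,1,-1]) (by decide +kernel) (by decide +kernel) ok18 ok35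

noncomputable def t38 : Tre :=
  .Q [0,0,0,2,0,0,-1,-1,0,0,-1] (.p false [0,0,1] [] (⟨0,[(22,0)]⟩,⟨0,[(21,0)]⟩) .k 0 (⟨0,[]⟩,⟨0,
  []⟩) .k .k) t36 t37

theorem ok38 : chk K t38 r16 = true :=
  chk_Q (e' := [0,0,0,-2,0,0,1,1,0,0,1]) (by decide +kernel) (by decide +kernel) ok36 ok37

noncomputable def t39 : Tre :=
  .I [1,0,-1,-2,0,0,0,1] t17 t38

theorem ok39 : chk K t39 r15 = true :=
  chk_I (e' := [0,0,1,2,0,0,0,-1]) (by decide +kernel) (by decide +kernel) ok17 ok38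

noncomputable def t40 : Tre :=
  .Q [0,-1,0,-1,1,0,1,1,0,-1,1] (.p true [0,0,1] [1] (⟨0,[(20,0)]⟩,⟨0,[(19,0)]⟩) .k 1 (⟨0,[]⟩,⟨0,
  []⟩) .k .k) t16 t39

theorem ok40 : chk K t40 l14 = true :=
  chk_Q (e' := [0,1,0,1,-1,0,-1,-1,0,1,-1]) (by decide +kernel) (by decide +kernel) ok16 ok39

noncomputable def t42 : Tre :=
  .Q [0,0,0,0,0,-1,0,0,0,0,1] (.ed false [1,-1,1] .k) t40 t41

theorem ok42 : chk K t42 r13 = true :=
  chk_Q (e' := [0,0,0,0,0,1,0,0,0,0,-1]) (by decide +kernel) (by decide +kernel) ok40 ok41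

noncomputable def t43 : Tre :=
  .Q [0,0,0,-1,-1,0,-1,-1,0,1,-1] (.p false [0,0,1] [1] (⟨0,[(18,0)]⟩,⟨0,[(17,0)]⟩) .k 1 (⟨0,[]⟩,⟨0,
  []⟩) .k .k) t15 t42

theorem ok43 : chk K t43 r12 = true :=
  chk_Q (e' := [0,0,0,1,1,0,1,1,0,-1,1]) (by decide +kernel) (by decide +kernel) ok15 ok42

noncomputable def t44 : Tre :=
  .I [1,0,-1,-1,0,0,0,-1] t14 t43

theorem ok44 : chk K t44 l11 = true :=
  chk_I (e' := [0,0,1,1,0,0,0,1]) (by decide +kernel) (by decide +kernel) ok14 ok43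

noncomputable def t47 : Tre :=
  .Q [0,0,0,0,0,1,0,0,0,-1,1] (.ed false [0,1,1] .k) t45 t46

theorem ok47 : chk K t47 r11 = true :=
  chk_Q (e' := [0,0,0,0,0,-1,0,0,0,1,-1]) (by decide +kernel) (by decide +kernel) ok45 ok46

noncomputable def t48 : Tre :=
  .Q [0,0,1,0,-1,0,-1,0,0,1,-1] (.p false [0,0,1] [1] (⟨0,[(16,0)]⟩,⟨0,[(15,0)]⟩) .k 1 (⟨0,[]⟩,⟨0,
  []⟩) .k .k) t44 t47

theorem ok48 : chk K t48 l10 = true :=
  chk_Q (e' := [0,0,-1,0,1,0,1,0,0,-1,1]) (by decide +kernel) (by decide +kernel) ok44 ok47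

noncomputable def t58 : Tre :=
  .Q [0,-1,0,-1,0,0,-1,-1,0,1,-1] (.p false [0,0,1] [1] (⟨0,[(28,0)]⟩,⟨0,[(27,0)]⟩) .k 1 (⟨0,[]⟩,⟨0,
  []⟩) .k .k) t56 t57

theorem ok58 : chk K t58 r39 = true :=
  chk_Q (e' := [0,1,0,1,0,0,1,1,0,-1,1]) (by decide +kernel) (by decide +kernel) ok56 ok57

noncomputable def t59 : Tre :=
  .Q [0,0,-1,0,1,0,1,0,0,-1,1] (.p true [0,0,1] [1] (⟨0,[(27,0)]⟩,⟨0,[(26,0)]⟩) .k 1 (⟨0,[]⟩,⟨0,
  []⟩) .k .k) t55 t58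

theorem ok59 : chk K t59 r38 = true :=
  chk_Q (e' := [0,0,1,0,-1,0,-1,0,0,1,-1]) (by decide +kernel) (by decide +kernel) ok55 ok58

noncomputable def t60 : Tre :=
  .Q [0,-1,0,1,1,0,0,0,0,-1] (.pp true [-1,1]) t54 t59

theorem ok60 : chk K t60 l37 = true :=
  chk_Q (e' := [0,1,0,-1,-1,0,0,0,0,1]) (by decide +kernel) (by decide +kernel) ok54 ok59

noncomputable def t62 : Tre :=
  .I [0,-1,2,1,0,0,0,-1] t60 t61

theorem ok62 : chk K t62 l36 = true :=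
  chk_I (e' := [1,1,-2,-1,0,0,0,1]) (by decide +kernel) (by decide +kernel) ok60 ok61

noncomputable def t64 : Tre :=
  .I [0,0,1,1,0,0,0,-1] t62 t63

theorem ok64 : chk K t64 l35 = true :=
  chk_I (e' := [1,0,-1,-1,0,0,0,1]) (by decide +kernel) (by decide +kernel) ok62 ok63

noncomputable def t66 : Tre :=
  .I [1,0,1,1,0,0,0,-1] t64 t65

theorem ok66 : chk K t66 r34 = true :=
  chk_I (e' := [0,0,-1,-1,0,0,0,1]) (by decide +kernel) (by decide +kernel) ok64 ok65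

noncomputable def t67 : Tre :=
  .I [1,-1,0,-1,0,0,0,1] t53 t66

theorem ok67 : chk K t67 l33 = true :=
  chk_I (e' := [0,1,0,1,0,0,0,-1]) (by decide +kernel) (by decide +kernel) ok53 ok66

noncomputable def t80 : Tre :=
  .Q [0,0,-2,0,0,0,-1,0,0,1,-1] (.p false [0,0,1] [1] (⟨0,[(34,0)]⟩,⟨0,[(33,0)]⟩) .k 1 (⟨0,[]⟩,⟨0,
  []⟩) .k .k) t78 t79

theorem ok80 : chk K t80 l52 = true :=
  chk_Q (e' := [0,0,2,0,0,0,1,0,0,-1,1]) (by decide +kernel) (by decide +kernel) ok78 ok79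

noncomputable def t82 : Tre :=
  .Q [0,0,0,0,0,-2,0,0,0,0,1] (.p true [0,0,1] [] (⟨0,[(33,0)]⟩,⟨0,[(32,0)]⟩) .k 0 (⟨0,[]⟩,⟨0,[]⟩)
  .k .k) t80 t81

theorem ok82 : chk K t82 r51 = true :=
  chk_Q (e' := [0,0,0,0,0,2,0,0,0,0,-1]) (by decide +kernel) (by decide +kernel) ok80 ok81

noncomputable def t83 : Tre :=
  .I [0,-1,-2,-1,2,0,0,-1] t77 t82

theorem ok83 : chk K t83 r50 = true :=
  chk_I (e' := [1,1,2,1,-2,0,0,1]) (by decide +kernel) (by decide +kernel) ok77 ok82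

noncomputable def t84 : Tre :=
  .Q [0,0,-1,0,0,0,0,0,-1,1,0,-1] (.p false [0,0,0,0,1] [1] (⟨0,[(24,0)]⟩,⟨0,[(23,0)]⟩) .k 1 (⟨0,
  []⟩,⟨0,[]⟩) .k .k) t76 t83

theorem ok84 : chk K t84 r49 = true :=
  chk_Q (e' := [0,0,1,0,0,0,0,0,1,-1,0,1]) (by decide +kernel) (by decide +kernel) ok76 ok83

noncomputable def t85 : Tre :=
  .Q [0,-1,0,-2,0,0,1,1,0,0,1] (.p true [0,0,1] [] (⟨0,[(30,0)]⟩,⟨0,[(29,0)]⟩) .k 0 (⟨0,[]⟩,⟨0,[]⟩)
  .k .k) t75 t84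

theorem ok85 : chk K t85 r48 = true :=
  chk_Q (e' := [0,1,0,2,0,0,-1,-1,0,0,-1]) (by decide +kernel) (by decide +kernel) ok75 ok84

noncomputable def t86 : Tre :=
  .I [1,0,-1,-1,1,0,0,-1] t74 t85

theorem ok86 : chk K t86 r47 = true :=
  chk_I (e' := [0,0,1,1,-1,0,0,1]) (by decide +kernel) (by decide +kernel) ok74 ok85

noncomputable def t87 : Tre :=
  .I [0,0,-1,-1,1,0,0,-1] t73 t86

theorem ok87 : chk K t87 r46 = true :=
  chk_I (e' := [1,0,1,1,-1,0,0,1]) (by decide +kernel) (by decide +kernel) ok73 ok86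

noncomputable def t88 : Tre :=
  .I [1,0,-1,0,1,0,0,-1] t72 t87

theorem ok88 : chk K t88 l45 = true :=
  chk_I (e' := [0,0,1,0,-1,0,0,1]) (by decide +kernel) (by decide +kernel) ok72 ok87

noncomputable def t90 : Tre :=
  .Q [0,1,0,-1,-1,0,0,0,0,1] (.pp false [-1,1]) t88 t89

theorem ok90 : chk K t90 r44 = true :=
  chk_Q (e' := [0,-1,0,1,1,0,0,0,0,-1]) (by decide +kernel) (by decide +kernel) ok88 ok89

noncomputable def t91 : Tre :=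
  .Q [0,-1,0,2,1,0,0,0,0,-1] (.pp true [-1,1]) t71 t90

theorem ok91 : chk K t91 r43 = true :=
  chk_Q (e' := [0,1,0,-2,-1,0,0,0,0,1]) (by decide +kernel) (by decide +kernel) ok71 ok90

noncomputable def t92 : Tre :=
  .Q [0,0,0,0,0,1,0,0,0,-1,1] (.ed false [0,1,1] .k) t70 t91

theorem ok92 : chk K t92 r42 = true :=
  chk_Q (e' := [0,0,0,0,0,-1,0,0,0,1,-1]) (by decide +kernel) (by decide +kernel) ok70 ok91

noncomputable def t93 : Tre :=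
  .I [0,-1,0,0,1,0,0,-1] t69 t92

theorem ok93 : chk K t93 r41 = true :=
  chk_I (e' := [1,1,0,0,-1,0,0,1]) (by decide +kernel) (by decide +kernel) ok69 ok92

noncomputable def t94 : Tre :=
  .I [1,-1,-1,-2,0,0,0,1] t68 t93

theorem ok94 : chk K t94 r33 = true :=
  chk_I (e' := [0,1,1,2,0,0,0,-1]) (by decide +kernel) (by decide +kernel) ok68 ok93

noncomputable def t95 : Tre :=
  .I [0,1,0,0,0,0,0,-1] t67 t94

theorem ok95 : chk K t95 l32 = true :=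
  chk_I (e' := [1,-1,0,0,0,0,0,1]) (by decide +kernel) (by decide +kernel) ok67 ok94

noncomputable def t97 : Tre :=
  .Q [0,0,0,0,0,-1,0,0,0,0,1] (.ed false [1,-1,1] .k) t95 t96

theorem ok97 : chk K t97 r31 = true :=
  chk_Q (e' := [0,0,0,0,0,1,0,0,0,0,-1]) (by decide +kernel) (by decide +kernel) ok95 ok96

noncomputable def t98 : Tre :=
  .I [0,0,0,-1,0,0,0,-1] t52 t97

theorem ok98 : chk K t98 r30 = true :=
  chk_I (e' := [1,0,0,1,0,0,0,1]) (by decide +kernel) (by decide +kernel) ok52 ok97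

noncomputable def t99 : Tre :=
  .Q [0,-1,0,0,0,0,-1,-1,0,1,-1] (.p false [0,0,1] [1] (⟨0,[(18,0)]⟩,⟨0,[(17,0)]⟩) .k 1 (⟨0,[]⟩,⟨0,
  []⟩) .k .k) t51 t98

theorem ok99 : chk K t99 r29 = true :=
  chk_Q (e' := [0,1,0,0,0,0,1,1,0,-1,1]) (by decide +kernel) (by decide +kernel) ok51 ok98

noncomputable def t100 : Tre :=
  .Q [0,0,0,0,0,0,-1,-1,0,0,-1] (.p false [0,0,1] [] (⟨0,[(17,0)]⟩,⟨0,[(16,0)]⟩) .k 0 (⟨0,[]⟩,⟨0,
  []⟩) .k .k) t50 t99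

theorem ok100 : chk K t100 r28 = true :=
  chk_Q (e' := [0,0,0,0,0,0,1,1,0,0,1]) (by decide +kernel) (by decide +kernel) ok50 ok99

noncomputable def t101 : Tre :=
  .I [1,0,0,0,0,0,0,-1] t49 t100

theorem ok101 : chk K t101 r10 = true :=
  chk_I (e' := [0,0,0,0,0,0,0,1]) (by decide +kernel) (by decide +kernel) ok49 ok100

noncomputable def t102 : Tre :=
  .Q [0,0,0,1,0,0,-1,-1,0,0,-1] (.p false [0,0,1] [] (⟨0,[(15,0)]⟩,⟨0,[(14,0)]⟩) .k 0 (⟨0,[]⟩,⟨0,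
  []⟩) .k .k) t48 t101

theorem ok102 : chk K t102 l9 = true :=
  chk_Q (e' := [0,0,0,-1,0,0,1,1,0,0,1]) (by decide +kernel) (by decide +kernel) ok48 ok101

noncomputable def t104 : Tre :=
  .Q [0,1,0,1,0,0,-1,-1,0,0,-1] (.p false [0,0,1] [] (⟨0,[(14,0)]⟩,⟨0,[(13,0)]⟩) .k 0 (⟨0,[]⟩,⟨0,
  []⟩) .k .k) t102 t103

theorem ok104 : chk K t104 l8 = true :=
  chk_Q (e' := [0,-1,0,-1,0,0,1,1,0,0,1]) (by decide +kernel) (by decide +kernel) ok102 ok103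

noncomputable def t108 : Tre :=
  .Q [0,0,0,0,0,0,-1,-1,0,0,-1] (.p false [0,0,1] [] (⟨0,[(15,0)]⟩,⟨0,[(14,0)]⟩) .k 0 (⟨0,[]⟩,⟨0,
  []⟩) .k .k) t106 t107

theorem ok108 : chk K t108 r54 = true :=
  chk_Q (e' := [0,0,0,0,0,0,1,1,0,0,1]) (by decide +kernel) (by decide +kernel) ok106 ok107

noncomputable def t109 : Tre :=
  .Q [0,0,0,-2,-1,0,0,0,0,1] (.pp false [-1,1]) t105 t108

theorem ok109 : chk K t109 r8 = true :=
  chk_Q (e' := [0,0,0,2,1,0,0,0,0,-1]) (by decide +kernel) (by decide +kernel) ok105 ok108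

noncomputable def t110 : Tre :=
  .Q [0,0,0,0,0,0,-1,0,0,0,-1] (.p false [0,0,1] [] (⟨0,[(13,0)]⟩,⟨0,[(12,0)]⟩) .k 0 (⟨0,[]⟩,⟨0,
  []⟩) .k .k) t104 t109

theorem ok110 : chk K t110 r4 = true :=
  chk_Q (e' := [0,0,0,0,0,0,1,0,0,0,1]) (by decide +kernel) (by decide +kernel) ok104 ok109

noncomputable def t111 : Tre :=
  .I [1,-1,-1,-1,0,0,0,1] t13 t110

theorem ok111 : chk K t111 r0 = true :=
  chk_I (e' := [0,1,1,1,0,0,0,-1]) (by decide +kernel) (by decide +kernel) ok13 ok110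

noncomputable def t112 : Tre :=
  .I [1,1,-1,-1,-1,0,0,-1] t6 t111

theorem ok112 : chk K t112 base = true :=
  chk_I (e' := [0,-1,1,1,1,0,0,1]) (by decide +kernel) (by decide +kernel) ok6 ok111

theorem closed {p a b c J l q : ℤ} {D dl : ℝ} {Cl : ℤ → ℤ → ℤ → ℤ → ℝ → Prop}
    (W : World p a b c J 1 l q D dl Cl) (g : G0 p a b c J D)
    {N X R : ℤ} {I : ℝ} (hk : KCl p l Cl N X R I) (kz : KF a b D (X + (1 : ℤ) * I) (X + (1 : ℤ) * I + R) I)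
    {Ne Xe : ℤ} {Ie : ℝ} (he : EFac p 1 D Cl 1 Ne Xe Ie)
    (hkf : ∀ kf ∈ (kfY 1 [0,0,0,0,0,0,1,0,0,0,1]), KOk p l Cl 1
      (xv [1, a, b, c, p, J, X, R, Xe] [D, I, Ie]) N kf)
    (h0 : 1 ≤ -(c : ℝ))
    (h1 : 1 ≤ (a : ℝ) - (b : ℝ))
    (h2 : 1 ≤ 1 - (a : ℝ) + (b : ℝ) - (c : ℝ))
    (h3 : 1 ≤ 2 * (a : ℝ) - (b : ℝ))
    (h4 : 0 < -(b : ℝ) - (X : ℝ) + D - I)
    (h5 : 0 < -2 * (X : ℝ) + D - 2 * I) : False := by
  have g1 := g.a2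
  have g2 := g.b2
  have g3 := g.pa
  have g4 := g.pb
  have g5 := g.J1
  have g6 := g.JD
  have g7 := g.D2
  have g8 := g.ca
  have g9 := g.ca'
  have k1 := kz.I0
  have k2 := kz.ID
  have k3 := kz.z1
  have k4 := kz.z2
  have k5 := kz.s1
  have k6 := kz.s2
  have e1 := he.I0
  have e2 := he.ID
  have e3 := he.x0
  have e4 := he.xp
  push_cast at *
  refine (val_E W.toBase hk he (row := [1]) (by simp) (by simp) (kfY 1 [0,0,0,0,0,0,1,0,0,0,1])).sound W rfl (Nk := N)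
    (fun kf _ _ => ⟨_, rfl⟩) hkf ?_ ok112
  · simp only [base, List.forall_mem_cons, List.not_mem_nil, false_imp_iff, implies_true,
      and_true, hld, xv, evg_cons, evg_nil, List.map_cons, List.map_nil, List.cons_append,
      List.nil_append, if_true, if_false, Bool.false_eq_true]
    push_cast
    refine ⟨?_, ?_, ?_, ?_, ?_, ?_, ?_, ?_, ?_, ?_, ?_, ?_, ?_, ?_, ?_, ?_, ?_, ?_, ?_, ?_, ?_, ?_, ?_, ?_⟩ <;> linarith

end Helper25.S1T.Ymp_2
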