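import Pool.Agent.Helper25.KG.S1b
import Pool.Agent.Helper11.CT.Cut

set_option autoImplicit false
set_option linter.all false

namespace Helper25.S1T.Ypm_1a

open Helper25.KG Helper25.KW Helper55.KE Helper11.CT

noncomputable def K : Cls :=
  cE (-1) [1] (kfY (-1) [0,0,0,0,0,0,1,0,0,0,-1])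

noncomputable def base : List Con :=
  [(false,[0,0,0,0,0,0,2,0,0,1,-2]),
  (false,[0,0,0,0,0,1,0,0,0,-1,1]),
  (false,[0,0,0,0,0,1,0,0,0,0,-1]),
  (false,[0,0,0,0,1,0,0,0,-1,0,0,1]),
  (false,[0,0,0,0,0,0,0,0,1,0,0,-1]),
  (false,[0,0,0,0,0,0,0,0,0,1,0,-1]),
  (false,[0,0,0,0,0,0,0,0,0,0,0,1]),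
  (false,[0,0,-1,0,0,0,1,0,0,1,-1]),
  (false,[0,1,0,0,0,0,1,1,0,0,-1]),
  (false,[0,1,0,0,0,0,-1,-1,0,0,1]),
  (false,[0,0,1,0,0,0,1,0,0,0,-1]),
  (false,[0,0,1,0,0,0,-1,0,0,0,1]),
  (false,[0,0,0,0,0,0,0,0,0,1,-1]),
  (false,[0,0,0,0,0,0,0,0,0,0,1]),
  (false,[0,0,0,0,1,0,0,0,0,-2]),
  (false,[0,0,0,0,0,-1,0,0,0,1]),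
  (true,[0,0,0,0,0,1]),
  (true,[0,2,-1]),
  (true,[0,1,-1,-1]),
  (true,[0,1,0,-1]),
  (true,[0,0,0,1]),
  (true,[0,0,-2,0,1]),
  (true,[0,-2,0,0,1]),
  (true,[-1,0,1]),
  (true,[-1,1])]

noncomputable def l0 : List Con := (false, [0,0,0,2,-1,0,0,0,0,1]) :: base

noncomputable def r0 : List Con := (false, [0,0,0,-2,1,0,0,0,0,-1]) :: base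

noncomputable def l1 : List Con := (false, [0,0,2,0,0,0,-1,0,0,-1,1]) :: r0

noncomputable def r1 : List Con := (false, [0,0,-2,0,0,0,1,0,0,1,-1]) :: r0

noncomputable def t0 : Tre :=
  (.R ⟨2,true,false,true,[0,1],[1,-1],[0,1,0,-1],(⟨0,[]⟩,⟨0,[]⟩),(⟨0,[(16,0)]⟩,⟨0,[(17,0)]⟩),⟨0,[]⟩,
  .k,.k,.k,(.r 0 ⟨0,[(11,0),(0,0),(8,1)]⟩ ⟨0,[(19,1),(3,0)]⟩),.k,.k,⟨true,0,⟨1,[(11,0),(0,0)]⟩,⟨0,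
  []⟩⟩,⟨false,1,⟨1,[(4,0),(0,0),(5,0),(0,0),(2,0)]⟩,⟨0,[(0,0),(18,1),(3,0)]⟩⟩,⟨false,1,⟨0,[(19,0),
  (0,0),(2,0)]⟩,⟨1,[(0,1),(10,0),(0,0),(2,0),(7,0)]⟩⟩,⟨true,1,⟨1,[(15,0),(4,3),(2,0)]⟩,⟨0,[(0,0)]⟩⟩,
  ⟨true,0,⟨0,[(19,0)]⟩,⟨1,[(11,0),(0,0),(8,1)]⟩⟩,⟨false,1,⟨1,[(15,0),(4,1),(2,0)]⟩,⟨1,[(0,0),(12,0),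
  (0,0),(8,0)]⟩⟩,[]⟩)

theorem ok0 : chk K t0 l0 = true := by decide +kernel

noncomputable def t1 : Tre :=
  (.Q [0,0,1,1,0,0,0,1,0,1] (.pp false [-1,1]) (.Q [0,0,1,0,0,0,0,0,0,-1] (.pp true [-1,1]) (.Q [0,
  0,0,1,0,0,1,1,0,1,-1] (.p false [0,0,1] [1] (⟨0,[(17,0)]⟩,⟨0,[(16,0)]⟩) .k 1 (⟨0,[]⟩,⟨0,[]⟩) .k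
  .k) (.I [0,1,-1,-1,0,0,0,-1] (.I [1,0,-1,0,0,0,0,-1] (.R ⟨0,false,false,false,[1,0,-1],[0,1],[0,0,
  1],(⟨0,[(19,0)]⟩,⟨0,[(20,0)]⟩),(⟨0,[(23,0)]⟩,⟨0,[(22,0)]⟩),⟨0,[(8,0)]⟩,.k,.k,.k,.k,.k,.k,⟨false,1,
  ⟨1,[(26,1),(1,0),(0,0)]⟩,⟨0,[(27,0)]⟩⟩,⟨true,0,⟨0,[(14,0)]⟩,⟨0,[(5,0)]⟩⟩,⟨false,1,⟨1,[(4,0),(0,0),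
  (9,0),(9,0),(3,1)]⟩,⟨0,[(0,0)]⟩⟩,⟨true,0,⟨0,[(2,0)]⟩,⟨0,[(0,0),(4,0),(19,0)]⟩⟩,⟨false,0,⟨0,[]⟩,⟨0,
  []⟩⟩,⟨false,0,⟨0,[]⟩,⟨0,[]⟩⟩,[.o ⟨false,0,⟨0,[(27,0)]⟩,⟨3,[(6,1),(3,0),(0,0),(9,0)]⟩⟩,.o ⟨false,1,
  ⟨13,[(4,3),(2,1),(8,3),(4,2),(5,9),(0,1),(0,8)]⟩,⟨0,[(3,0),(21,0)]⟩⟩,.o ⟨false,1,⟨1,[(18,1),(2,0),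
  (6,0)]⟩,⟨0,[(3,0),(10,0)]⟩⟩,.a ⟨true,0,⟨0,[(18,0)]⟩,⟨0,[(14,0)]⟩⟩ ⟨false,1,⟨1,[(10,0),(0,0),(17,
  0)]⟩,⟨0,[]⟩⟩ ⟨true,0,⟨0,[(14,0),(12,0)]⟩,⟨0,[(5,0),(19,0)]⟩⟩]⟩) (.Q [0,1,0,-1,0,0,-1,-1,0,-1,1]
  (.p true [0,0,1] [1] (⟨0,[(20,0)]⟩,⟨0,[(19,0)]⟩) .k 1 (⟨0,[]⟩,⟨0,[]⟩) .k .k) (.R ⟨0,false,false,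
  false,[1,0,-1],[0,1],[1,1,1],(⟨0,[(20,0)]⟩,⟨0,[(21,0)]⟩),(⟨0,[(24,0)]⟩,⟨0,[(23,0)]⟩),⟨0,[(9,0)]⟩,
  .k,.k,.k,.k,.k,.k,⟨false,0,⟨0,[(26,0)]⟩,⟨13,[(5,3),(2,1),(8,3),(4,2),(5,9),(0,1),(0,8)]⟩⟩,⟨true,0,
  ⟨0,[(15,0)]⟩,⟨0,[(6,0)]⟩⟩,⟨false,0,⟨0,[(1,0)]⟩,⟨0,[(2,0),(25,0),(1,0)]⟩⟩,⟨true,0,⟨0,[(3,0)]⟩,⟨0,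
  [(0,0)]⟩⟩,⟨false,0,⟨0,[]⟩,⟨0,[]⟩⟩,⟨false,0,⟨0,[]⟩,⟨0,[]⟩⟩,[.o ⟨false,0,⟨0,[(28,0)]⟩,⟨3,[(7,1),(3,
  0),(0,0),(9,0)]⟩⟩,.o ⟨false,1,⟨13,[(5,3),(2,1),(8,3),(4,2),(5,9),(0,1),(0,8)]⟩,⟨0,[(4,0),(21,
  0)]⟩⟩,.o ⟨false,1,⟨1,[(19,1),(2,0),(6,0)]⟩,⟨0,[(4,0),(10,0)]⟩⟩,.a ⟨true,0,⟨0,[(19,0)]⟩,⟨0,[(15,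
  0)]⟩⟩ ⟨false,0,⟨0,[]⟩,⟨1,[(11,0),(0,0),(17,0)]⟩⟩ ⟨true,0,⟨0,[(15,0),(12,0)]⟩,⟨0,[(0,0),(0,
  0)]⟩⟩]⟩) (.R ⟨0,false,false,false,[1,0,-1],[0,1],[0,0,1],(⟨0,[(20,0)]⟩,⟨0,[(21,0)]⟩),(⟨0,[(24,
  0)]⟩,⟨0,[(23,0)]⟩),⟨0,[(9,0)]⟩,.k,.k,.k,.k,.k,.k,⟨false,1,⟨1,[(27,1),(1,0),(0,0)]⟩,⟨0,[(28,0)]⟩⟩,
  ⟨true,0,⟨0,[(15,0)]⟩,⟨0,[(6,0)]⟩⟩,⟨true,0,⟨0,[(1,0)]⟩,⟨0,[(2,0),(25,0)]⟩⟩,⟨false,0,⟨0,[(0,0)]⟩,⟨3,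
  [(2,1),(3,1),(10,1),(4,0),(3,1),(3,2)]⟩⟩,⟨false,0,⟨0,[]⟩,⟨0,[]⟩⟩,⟨false,0,⟨0,[]⟩,⟨0,[]⟩⟩,[.o
  ⟨false,0,⟨0,[(28,0)]⟩,⟨3,[(7,1),(3,0),(0,0),(9,0)]⟩⟩,.o ⟨false,1,⟨13,[(5,3),(2,1),(8,3),(4,2),(5,
  9),(0,1),(0,8)]⟩,⟨0,[(4,0),(21,0)]⟩⟩,.o ⟨false,1,⟨1,[(19,1),(2,0),(6,0)]⟩,⟨0,[(4,0),(10,0)]⟩⟩,.a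
  ⟨true,0,⟨0,[(19,0)]⟩,⟨0,[(15,0)]⟩⟩ ⟨false,1,⟨1,[(11,0),(0,0),(17,0)]⟩,⟨0,[]⟩⟩ ⟨true,0,⟨0,[(15,0),
  (12,0)]⟩,⟨0,[(6,0),(19,0)]⟩⟩]⟩))) (.R ⟨0,false,false,false,[1,0,-1],[0,1],[0,1,0,-1,0,0,0,-1],(⟨0,
  [(18,0)]⟩,⟨0,[(19,0)]⟩),(⟨0,[(22,0)]⟩,⟨0,[(21,0)]⟩),⟨0,[(7,0)]⟩,.k,.k,.k,.k,.k,.k,⟨false,1,⟨0,[(2,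
  0),(10,0),(1,0),(8,1),(3,0)]⟩,⟨0,[(0,0),(25,0)]⟩⟩,⟨true,0,⟨0,[(13,0)]⟩,⟨0,[(4,0)]⟩⟩,⟨true,0,⟨0,
  [(25,0)]⟩,⟨0,[(26,0)]⟩⟩,⟨false,0,⟨0,[(0,0),(12,0)]⟩,⟨0,[(2,0),(12,0),(8,0),(3,0)]⟩⟩,⟨false,0,⟨0,
  []⟩,⟨0,[]⟩⟩,⟨false,0,⟨0,[]⟩,⟨0,[]⟩⟩,[.o ⟨false,0,⟨0,[(26,0)]⟩,⟨3,[(5,1),(3,0),(0,0),(9,0)]⟩⟩,.o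
  ⟨false,1,⟨13,[(3,3),(2,1),(8,3),(4,2),(5,9),(0,1),(0,8)]⟩,⟨0,[(2,0),(21,0)]⟩⟩,.o ⟨false,1,⟨1,[(17,
  1),(2,0),(6,0)]⟩,⟨0,[(2,0),(10,0)]⟩⟩,.a ⟨true,0,⟨0,[(17,0)]⟩,⟨0,[(13,0)]⟩⟩ ⟨false,1,⟨0,[(2,0),(10,
  0),(1,0),(8,0),(3,0)]⟩,⟨0,[(0,0)]⟩⟩ ⟨true,0,⟨0,[(13,0),(12,0)]⟩,⟨0,[(4,0),(19,0)]⟩⟩]⟩)) (.R ⟨0,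
  false,false,false,[1,0,-1],[0,1],[1,1,1],(⟨0,[(17,0)]⟩,⟨0,[(18,0)]⟩),(⟨0,[(21,0)]⟩,⟨0,[(20,0)]⟩),
  ⟨0,[(6,0)]⟩,.k,.k,.k,.k,.k,.k,⟨false,0,⟨0,[(23,0)]⟩,⟨13,[(2,3),(2,1),(8,3),(4,2),(5,9),(0,1),(0,
  8)]⟩⟩,⟨true,0,⟨0,[(12,0)]⟩,⟨0,[(3,0)]⟩⟩,⟨true,0,⟨1,[(2,0),(0,0),(9,0),(9,0)]⟩,⟨0,[(0,0),(11,0),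
  (12,0)]⟩⟩,⟨false,1,⟨2,[(2,1),(2,0),(7,0),(11,0),(0,0),(0,1)]⟩,⟨0,[(0,0)]⟩⟩,⟨false,0,⟨0,[]⟩,⟨0,
  []⟩⟩,⟨false,0,⟨0,[]⟩,⟨0,[]⟩⟩,[.o ⟨false,0,⟨0,[(25,0)]⟩,⟨3,[(4,1),(3,0),(0,0),(9,0)]⟩⟩,.o ⟨false,1,
  ⟨13,[(2,3),(2,1),(8,3),(4,2),(5,9),(0,1),(0,8)]⟩,⟨0,[(0,0),(12,0)]⟩⟩,.o ⟨false,1,⟨1,[(16,1),(2,0),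
  (6,0)]⟩,⟨0,[(1,0),(10,0)]⟩⟩,.a ⟨true,0,⟨0,[(16,0)]⟩,⟨0,[(12,0)]⟩⟩ ⟨false,0,⟨0,[]⟩,⟨1,[(8,0),(0,0),
  (17,0)]⟩⟩ ⟨true,0,⟨0,[(12,0),(12,0)]⟩,⟨0,[(3,0),(19,0)]⟩⟩]⟩)) (.Q [0,1,1,-1,0,0,0,0,0,-1] (.pp
  true [-1,1]) (.I [0,0,-2,-2,1,0,0,-1] (.Q [0,-1,0,-1,1,0,-1,-1,0,-1,1] (.p true [0,0,1] [1] (⟨0,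
  [(19,0)]⟩,⟨0,[(18,0)]⟩) .k 1 (⟨0,[]⟩,⟨0,[]⟩) .k .k) (.I [0,0,1,0,0,0,0,-1] (.Q [0,1,0,-1,0,0,-1,
  -1,0,-1,1] (.p true [0,0,1] [1] (⟨0,[(21,0)]⟩,⟨0,[(20,0)]⟩) .k 1 (⟨0,[]⟩,⟨0,[]⟩) .k .k) (.I [0,0,
  2,2,0,0,0,1] (.K ⟨0,[-1,1,1],0,0,(⟨0,[(11,0)]⟩,⟨0,[(22,0),(2,0)]⟩),.k,.k,(.r 0 ⟨0,[(0,0)]⟩ ⟨0,[(4,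
  0)]⟩),.k,.k,[⟨0,[(6,0)]⟩,⟨0,[(8,0)]⟩,⟨0,[(1,0)]⟩,⟨2,[(0,0),(6,0),(9,1),(0,0),(8,0)]⟩]⟩) (.I [0,0,
  -2,0,0,2,1] (.K ⟨0,[-1,1,1],0,0,(⟨0,[(12,0)]⟩,⟨0,[(23,0),(2,0)]⟩),.k,.k,(.x 0 ⟨0,[(0,0)]⟩ ⟨0,[(9,
  0),(13,0),(1,0),(0,1)]⟩),.k,.k,[⟨0,[(7,0)]⟩,⟨0,[(9,0)]⟩,⟨0,[(2,0)]⟩,⟨6,[(8,3),(2,0),(6,1),(0,2),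
  (8,1),(2,2)]⟩]⟩) (.R ⟨0,false,false,true,[1,-1],[0,0,1],[1,1],(⟨0,[(26,0)]⟩,⟨0,[(27,0)]⟩),(⟨0,
  [(24,0)]⟩,⟨0,[(23,0)]⟩),⟨0,[(12,0),(0,0)]⟩,.k,.k,(.r (-1) ⟨0,[(29,1),(3,0)]⟩ ⟨4,[(3,1),(4,1),(0,
  1),(11,1),(9,7)]⟩),.k,.k,.k,⟨false,0,⟨2,[(1,1),(1,0),(27,3)]⟩,⟨1,[(8,1),(16,0),(3,1),(3,0)]⟩⟩,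
  ⟨true,0,⟨0,[(18,0)]⟩,⟨0,[(9,0)]⟩⟩,⟨false,0,⟨4,[(3,0),(4,0),(0,0),(11,0),(9,3)]⟩,⟨0,[(29,0),(3,
  0)]⟩⟩,⟨true,0,⟨6,[(8,3),(2,0),(6,1),(0,2),(8,1),(2,2)]⟩,⟨0,[(1,0),(7,0),(21,0)]⟩⟩,⟨false,0,⟨0,[]⟩,
  ⟨0,[]⟩⟩,⟨false,0,⟨0,[]⟩,⟨0,[]⟩⟩,[.o ⟨false,0,⟨0,[(19,0)]⟩,⟨0,[(4,0),(26,0)]⟩⟩,.o ⟨false,1,⟨3,[(8,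
  1),(1,0),(0,0),(7,1),(5,0),(6,0),(0,0)]⟩,⟨0,[(1,0),(7,0),(21,1)]⟩⟩,.a ⟨true,0,⟨2,[(9,0),(1,0),(10,
  0)]⟩,⟨0,[(7,0)]⟩⟩ ⟨false,0,⟨0,[]⟩,⟨1,[(14,0),(0,0),(17,0)]⟩⟩ ⟨true,0,⟨0,[(7,0),(11,0)]⟩,⟨2,[(1,1),
  (1,0),(5,2),(21,3)]⟩⟩,.o ⟨false,0,⟨2,[(0,1),(11,2),(0,0),(7,1)]⟩,⟨0,[(32,0)]⟩⟩]⟩))) (.Q [0,-1,0,1,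
  0,0,0,0,0,1] (.pp false [-1,1]) (.I [1,0,0,1,0,0,0,1] (.Q [0,0,2,0,0,0,0,0,0,-1] (.pp true [-1,
  1]) (.Q [0,0,0,0,1,0,-1,0,0,-2,1] (.p true [-1,1,1] [1] (⟨0,[(13,0)]⟩,⟨0,[(24,0),(2,0)]⟩) .k 1
  (⟨0,[]⟩,⟨0,[]⟩) .k .k) (.R ⟨0,false,false,false,[-1,1,1],[0,1],[0,0,2,1],(⟨0,[(14,0)]⟩,⟨0,[(25,0),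
  (2,0)]⟩),(⟨0,[(29,0)]⟩,⟨0,[(28,0)]⟩),⟨0,[(25,0)]⟩,.k,.k,.k,.k,.k,.k,⟨true,0,⟨2,[(11,0),(1,0),(10,
  0)]⟩,⟨0,[]⟩⟩,⟨false,1,⟨0,[(0,0),(8,0)]⟩,⟨2,[(9,0),(3,1),(10,0)]⟩⟩,⟨true,0,⟨0,[(5,0)]⟩,⟨0,[(2,0),
  (28,0)]⟩⟩,⟨false,1,⟨0,[(6,0),(26,0)]⟩,⟨0,[(4,0),(27,0)]⟩⟩,⟨false,0,⟨0,[]⟩,⟨0,[]⟩⟩,⟨false,0,⟨0,[]⟩,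
  ⟨0,[]⟩⟩,[.o ⟨false,0,⟨0,[(33,0)]⟩,⟨3,[(12,1),(3,0),(0,0),(9,0)]⟩⟩,.a ⟨true,0,⟨0,[(3,0)]⟩,⟨0,[(32,
  0)]⟩⟩ ⟨true,0,⟨0,[(1,0),(1,0)]⟩,⟨0,[(31,0)]⟩⟩ ⟨false,1,⟨0,[(0,0),(2,0)]⟩,⟨0,[(20,0),(11,0)]⟩⟩,.o
  ⟨false,0,⟨0,[(20,0)]⟩,⟨9,[(0,6),(4,1),(4,1),(0,2),(0,0),(14,1)]⟩⟩,.o ⟨false,0,⟨2,[(9,0),(3,1),(10,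
  0)]⟩,⟨0,[(0,0)]⟩⟩]⟩) (.R ⟨0,false,false,true,[0,0,1],[1,-1],[0,0,1],(⟨0,[(26,0)]⟩,⟨0,[(25,0)]⟩),
  (⟨0,[(28,0)]⟩,⟨0,[(29,0)]⟩),⟨0,[(15,0)]⟩,.k,.k,.k,.k,.k,.k,⟨true,0,⟨0,[(1,0),(1,0)]⟩,⟨0,[(31,
  0)]⟩⟩,⟨false,1,⟨1,[(24,1),(2,0),(6,0)]⟩,⟨0,[(20,0)]⟩⟩,⟨true,0,⟨0,[(5,0)]⟩,⟨0,[(2,0),(28,0)]⟩⟩,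
  ⟨false,1,⟨7,[(6,3),(5,1),(3,0),(0,0),(4,3),(4,0)]⟩,⟨0,[(4,0)]⟩⟩,⟨false,0,⟨0,[]⟩,⟨0,[]⟩⟩,⟨false,0,
  ⟨0,[]⟩,⟨0,[]⟩⟩,[.a ⟨true,0,⟨0,[(32,0)]⟩,⟨0,[(3,0)]⟩⟩ ⟨true,0,⟨9,[(0,0),(0,1),(3,1),(4,1),(0,0),(0,
  0)]⟩,⟨0,[]⟩⟩ ⟨false,1,⟨1,[(24,1),(2,0),(3,1),(2,0)]⟩,⟨0,[(0,0),(2,0),(23,0)]⟩⟩,.o ⟨false,1,⟨3,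
  [(12,1),(3,0),(0,0),(9,0)]⟩,⟨0,[(33,0)]⟩⟩,.o ⟨false,0,⟨0,[(0,0),(26,0)]⟩,⟨1,[(24,1),(2,0),(6,
  0)]⟩⟩,.o ⟨false,0,⟨0,[(23,0)]⟩,⟨0,[(2,0),(3,0),(24,0),(1,0)]⟩⟩]⟩)) (.R ⟨0,false,false,false,[1,
  -1],[0,1],[1],(⟨0,[(27,0)]⟩,⟨0,[(28,0)]⟩),(⟨0,[(28,0)]⟩,⟨0,[(27,0)]⟩),⟨0,[(13,0),(0,0)]⟩,.k,.k,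
  (.r (-1) ⟨0,[(0,0),(10,0)]⟩ ⟨4,[(4,1),(4,1),(0,1),(11,1),(9,7)]⟩),(.r (-1) ⟨0,[(0,0),(10,0)]⟩ ⟨4,
  [(4,1),(4,1),(0,1),(11,1),(9,7)]⟩),.k,.k,⟨false,1,⟨1,[(0,0),(10,0),(21,0)]⟩,⟨4,[(4,0),(4,0),(0,0),
  (11,0),(9,3)]⟩⟩,⟨true,0,⟨0,[(0,0)]⟩,⟨0,[(10,0),(11,0)]⟩⟩,⟨true,0,⟨4,[(4,0),(4,0),(0,0),(11,0),(9,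
  3)]⟩,⟨0,[(30,0)]⟩⟩,⟨false,0,⟨0,[(2,0),(29,0)]⟩,⟨0,[(11,0)]⟩⟩,⟨false,0,⟨0,[]⟩,⟨0,[]⟩⟩,⟨false,0,⟨0,
  []⟩,⟨0,[]⟩⟩,[.o ⟨false,0,⟨0,[(32,0)]⟩,⟨3,[(11,1),(3,0),(0,0),(9,0)]⟩⟩,.e ⟨false,1,⟨1,[(33,0),(0,
  0)]⟩,⟨6,[(4,0),(2,0),(1,0),(19,2)]⟩⟩ ⟨false,1,⟨0,[(2,0),(30,0)]⟩,⟨0,[(7,0)]⟩⟩,.e ⟨true,0,⟨0,[]⟩,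
  ⟨6,[(4,0),(2,0),(1,0),(19,2)]⟩⟩ ⟨true,0,⟨2,[(0,0),(1,1),(26,0),(2,0)]⟩,⟨0,[(7,0)]⟩⟩,.a ⟨true,0,⟨2,
  [(10,1),(1,1),(10,1)]⟩,⟨0,[(0,0)]⟩⟩ ⟨false,1,⟨1,[(33,0),(0,0)]⟩,⟨2,[(10,0),(1,0),(10,0)]⟩⟩ ⟨true,
  0,⟨0,[(0,0),(31,0)]⟩,⟨1,[(7,0),(2,0),(11,0),(8,0)]⟩⟩]⟩)) (.Q [0,0,0,0,0,0,1,0,0,0,-1] (.p false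
  [0,0,1] [] (⟨0,[(24,0)]⟩,⟨0,[(23,0)]⟩) .k 0 (⟨0,[]⟩,⟨0,[]⟩) .k .k) (.R ⟨0,false,false,false,[1,0,
  -1],[0,1],[1,0,1],(⟨0,[(24,0)]⟩,⟨0,[(25,0)]⟩),(⟨0,[(28,0)]⟩,⟨0,[(27,0)]⟩),⟨0,[(13,0)]⟩,.k,.k,.k,
  .k,.k,.k,⟨false,1,⟨2,[(6,0),(2,0),(1,0),(21,0)]⟩,⟨0,[(32,0)]⟩⟩,⟨true,0,⟨0,[(19,0)]⟩,⟨0,[(10,0)]⟩⟩,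
  ⟨true,0,⟨0,[(3,0),(6,0),(19,0)]⟩,⟨0,[(1,0),(28,0),(1,1)]⟩⟩,⟨false,0,⟨0,[(3,0)]⟩,⟨7,[(5,3),(5,1),
  (3,0),(0,0),(4,3),(4,0)]⟩⟩,⟨false,0,⟨0,[]⟩,⟨0,[]⟩⟩,⟨false,0,⟨0,[]⟩,⟨0,[]⟩⟩,[.o ⟨false,0,⟨0,[(32,
  0)]⟩,⟨3,[(11,1),(3,0),(0,0),(9,0)]⟩⟩,.a ⟨true,0,⟨0,[(2,0)]⟩,⟨0,[(31,0)]⟩⟩ ⟨false,1,⟨1,[(15,0),(0,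
  0),(17,0)]⟩,⟨0,[(30,0),(1,0)]⟩⟩ ⟨true,0,⟨0,[(0,0),(1,0)]⟩,⟨0,[(10,0),(19,0)]⟩⟩,.o ⟨false,1,⟨1,
  [(23,1),(2,0),(6,0)]⟩,⟨0,[(0,0)]⟩⟩,.e ⟨true,0,⟨0,[]⟩,⟨6,[(4,0),(2,0),(1,0),(19,2)]⟩⟩ ⟨true,0,⟨0,
  [(19,0),(12,0)]⟩,⟨0,[(10,0),(19,0)]⟩⟩]⟩) (.R ⟨0,false,false,false,[1,0,-1],[0,1],[0,0,1],(⟨0,[(24,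
  0)]⟩,⟨0,[(25,0)]⟩),(⟨0,[(28,0)]⟩,⟨0,[(27,0)]⟩),⟨0,[(13,0)]⟩,.k,.k,.k,.k,.k,.k,⟨false,1,⟨2,[(6,0),
  (2,0),(1,0),(21,0)]⟩,⟨0,[(32,0)]⟩⟩,⟨true,0,⟨0,[(19,0)]⟩,⟨0,[(10,0)]⟩⟩,⟨true,0,⟨0,[(0,0),(2,0),(3,
  0)]⟩,⟨0,[(1,0),(28,0),(1,1)]⟩⟩,⟨false,0,⟨0,[(3,0)]⟩,⟨7,[(5,3),(5,1),(3,0),(0,0),(4,3),(4,0)]⟩⟩,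
  ⟨false,0,⟨0,[]⟩,⟨0,[]⟩⟩,⟨false,0,⟨0,[]⟩,⟨0,[]⟩⟩,[.o ⟨false,0,⟨0,[(32,0)]⟩,⟨3,[(11,1),(3,0),(0,0),
  (9,0)]⟩⟩,.a ⟨true,0,⟨0,[(2,0)]⟩,⟨0,[(31,0)]⟩⟩ ⟨false,1,⟨1,[(15,0),(0,0),(17,0)]⟩,⟨0,[(30,0),(1,
  0)]⟩⟩ ⟨true,0,⟨0,[(1,0),(1,0),(28,0)]⟩,⟨0,[(0,0),(6,0)]⟩⟩,.a ⟨true,0,⟨0,[(0,0)]⟩,⟨3,[(1,0),(6,0),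
  (0,0),(2,1)]⟩⟩ ⟨true,0,⟨3,[(1,0),(7,0),(0,0),(11,0)]⟩,⟨0,[(30,0),(1,0)]⟩⟩ ⟨false,0,⟨0,[(1,0),(1,
  0),(28,0)]⟩,⟨3,[(0,1),(10,1),(11,1),(2,0),(6,0)]⟩⟩,.a ⟨true,0,⟨0,[(23,0)]⟩,⟨0,[(19,0)]⟩⟩ ⟨false,1,
  ⟨1,[(15,0),(0,0),(17,0)]⟩,⟨0,[]⟩⟩ ⟨true,0,⟨0,[(19,0),(12,0)]⟩,⟨0,[(0,0),(6,0)]⟩⟩]⟩))) (.Q [0,0,2,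
  0,0,0,0,0,0,-1] (.pp true [-1,1]) (.R ⟨0,false,false,true,[1,-1],[0,0,1],[1],(⟨0,[(26,0)]⟩,⟨0,
  [(27,0)]⟩),(⟨0,[(24,0)]⟩,⟨0,[(23,0)]⟩),⟨0,[(12,0),(0,0)]⟩,.k,.k,(.r (-1) ⟨0,[(29,1),(3,0)]⟩ ⟨1,
  [(0,0),(2,0),(4,0),(22,2)]⟩),.k,.k,.k,⟨false,1,⟨0,[(4,0),(13,0),(12,0)]⟩,⟨0,[(1,0),(0,0),(19,0),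
  (6,0),(1,0)]⟩⟩,⟨true,0,⟨0,[(18,0)]⟩,⟨0,[(9,0)]⟩⟩,⟨true,0,⟨3,[(0,0),(2,0),(4,0),(22,2)]⟩,⟨0,[(29,
  0)]⟩⟩,⟨false,0,⟨7,[(2,4),(5,1),(2,0),(7,0),(8,1),(2,0)]⟩,⟨0,[(4,0)]⟩⟩,⟨false,0,⟨0,[]⟩,⟨0,[]⟩⟩,
  ⟨false,0,⟨0,[]⟩,⟨0,[]⟩⟩,[.o ⟨false,0,⟨0,[(19,0)]⟩,⟨0,[(4,0),(26,0)]⟩⟩,.o ⟨false,0,⟨0,[(1,0),(0,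
  0)]⟩,⟨1,[(20,1),(4,0),(7,0)]⟩⟩,.a ⟨true,0,⟨3,[(0,0),(10,0),(10,1)]⟩,⟨0,[(7,0)]⟩⟩ ⟨true,0,⟨0,[]⟩,
  ⟨6,[(3,0),(2,0),(1,0),(19,2)]⟩⟩ ⟨false,0,⟨0,[(2,0),(26,0)]⟩,⟨5,[(3,1),(0,1),(4,1),(10,1),(4,0),(5,
  1),(1,2)]⟩⟩,.o ⟨false,0,⟨0,[(0,0)]⟩,⟨0,[(32,0)]⟩⟩]⟩) (.R ⟨0,false,false,false,[1,0,-1],[0,1],[1],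
  (⟨0,[(23,0)]⟩,⟨0,[(24,0)]⟩),(⟨0,[(27,0)]⟩,⟨0,[(26,0)]⟩),⟨0,[(12,0)]⟩,.k,.k,.k,.k,.k,.k,⟨false,1,
  ⟨1,[(0,0),(9,0),(21,0)]⟩,⟨4,[(3,0),(4,0),(0,0),(11,0),(9,3)]⟩⟩,⟨true,0,⟨0,[(18,0)]⟩,⟨0,[(9,0)]⟩⟩,
  ⟨true,0,⟨0,[(0,0),(0,0),(0,0),(6,0)]⟩,⟨2,[(0,0),(0,0),(1,2),(24,0),(2,0)]⟩⟩,⟨false,0,⟨0,[(2,0)]⟩,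
  ⟨7,[(4,3),(5,1),(3,0),(0,0),(4,3),(4,0)]⟩⟩,⟨false,0,⟨0,[]⟩,⟨0,[]⟩⟩,⟨false,0,⟨0,[]⟩,⟨0,[]⟩⟩,[.o
  ⟨false,0,⟨0,[(31,0)]⟩,⟨3,[(10,1),(3,0),(0,0),(9,0)]⟩⟩,.o ⟨false,1,⟨5,[(3,1),(4,1),(16,0),(5,3),(0,
  1),(0,2)]⟩,⟨0,[(1,0)]⟩⟩,.e ⟨true,0,⟨0,[]⟩,⟨6,[(3,0),(2,0),(1,0),(19,2)]⟩⟩ ⟨true,0,⟨3,[(0,0),(2,0),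
  (4,0),(2,1),(19,2)]⟩,⟨0,[(0,0),(0,0),(7,0)]⟩⟩,.a ⟨true,0,⟨0,[(22,0)]⟩,⟨0,[(18,0)]⟩⟩ ⟨false,1,⟨1,
  [(32,0),(0,0)]⟩,⟨2,[(9,0),(1,0),(10,0)]⟩⟩ ⟨true,0,⟨1,[(0,0),(10,0),(19,1)]⟩,⟨0,[(1,0),(20,
  0)]⟩⟩]⟩)))) (.R ⟨0,false,false,true,[1,-1],[0,0,1],[1],(⟨0,[(23,0)]⟩,⟨0,[(24,0)]⟩),(⟨0,[(21,0)]⟩,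
  ⟨0,[(20,0)]⟩),⟨0,[(9,0),(0,0)]⟩,.k,.k,(.r (-1) ⟨1,[(0,0),(1,0),(1,0),(2,0)]⟩ ⟨2,[(6,1),(1,1),(10,
  1),(8,5)]⟩),.k,.k,.k,⟨false,1,⟨0,[(1,0),(13,0),(12,0)]⟩,⟨6,[(0,3),(2,2),(1,2),(19,1)]⟩⟩,⟨true,0,
  ⟨0,[(15,0)]⟩,⟨0,[(6,0)]⟩⟩,⟨true,0,⟨2,[(6,0),(1,0),(10,0),(8,2)]⟩,⟨0,[(26,0)]⟩⟩,⟨false,0,⟨1,[(0,0),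
  (4,0),(2,0),(19,0)]⟩,⟨0,[(1,0)]⟩⟩,⟨false,0,⟨0,[]⟩,⟨0,[]⟩⟩,⟨false,0,⟨0,[]⟩,⟨0,[]⟩⟩,[.o ⟨false,0,⟨0,
  [(16,0)]⟩,⟨0,[(1,0),(26,0)]⟩⟩,.o ⟨false,0,⟨0,[(0,0),(17,0)]⟩,⟨1,[(17,1),(4,0),(7,0)]⟩⟩,.a ⟨true,0,
  ⟨2,[(6,0),(1,0),(10,0)]⟩,⟨0,[(4,0)]⟩⟩ ⟨true,0,⟨0,[]⟩,⟨7,[(3,0),(1,0),(11,0),(0,0),(6,2)]⟩⟩ ⟨false,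
  0,⟨2,[(0,2),(3,0),(3,1),(10,0)]⟩,⟨2,[(1,1),(4,0),(10,0),(0,0),(9,1),(1,0)]⟩⟩,.e ⟨false,1,⟨1,[(29,
  0),(0,0)]⟩,⟨2,[(6,0),(1,0),(10,0)]⟩⟩ ⟨false,0,⟨0,[(0,0),(14,0)]⟩,⟨2,[(1,0),(4,1),(10,1),(0,1),(9,
  0),(1,1)]⟩⟩]⟩)) (.K ⟨0,[-1,1,1],0,(-1),(⟨0,[(8,0)]⟩,⟨0,[(19,0),(2,0)]⟩),.k,.k,(.r 0 ⟨4,[(0,1),(3,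
  2),(0,2),(11,0),(3,0),(5,4),(1,0)]⟩ ⟨0,[(1,0)]⟩),.k,.k,[⟨0,[(3,0)]⟩,⟨0,[(5,0)]⟩,⟨3,[(6,1),(3,0),
  (0,0),(4,3),(4,0)]⟩,⟨0,[(0,0)]⟩]⟩)) (.I [0,0,-2,0,0,2,1] (.K ⟨0,[-1,1,1],0,(-1),(⟨0,[(8,0)]⟩,⟨0,
  [(19,0),(2,0)]⟩),.k,.k,(.x 0 ⟨0,[(0,0)]⟩ ⟨0,[(5,0),(13,0),(1,0),(0,1)]⟩),.k,.k,[⟨0,[(3,0)]⟩,⟨0,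
  [(5,0)]⟩,⟨3,[(6,1),(3,0),(0,0),(4,3),(4,0)]⟩,⟨0,[(1,0),(12,0),(10,0)]⟩]⟩) (.I [0,0,2,2,-1,0,0,1]
  (.K ⟨0,[-1,1,1],0,(-1),(⟨0,[(9,0)]⟩,⟨0,[(20,0),(2,0)]⟩),.k,.k,(.r 1 ⟨0,[(0,0)]⟩ ⟨1,[(7,1),(7,1),
  (1,1),(11,0),(0,0)]⟩),.k,.k,[⟨0,[(4,0)]⟩,⟨0,[(6,0)]⟩,⟨3,[(7,1),(3,0),(0,0),(4,3),(4,0)]⟩,⟨0,[(2,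
  0),(12,0),(10,0)]⟩]⟩) (.Q [0,0,0,0,0,0,1,0,0,0,-1] (.p false [0,0,1] [] (⟨0,[(21,0)]⟩,⟨0,[(20,
  0)]⟩) .k 0 (⟨0,[]⟩,⟨0,[]⟩) .k .k) (.Q [0,-1,1,0,1,0,-1,-1,0,-1,1] (.p true [0,0,1] [1] (⟨0,[(22,
  0)]⟩,⟨0,[(21,0)]⟩) .k 1 (⟨0,[]⟩,⟨0,[]⟩) .k .k) (.R ⟨0,false,false,true,[1,-1],[0,0,1],[0,1],(⟨0,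
  [(25,0)]⟩,⟨0,[(26,0)]⟩),(⟨0,[(23,0)]⟩,⟨0,[(22,0)]⟩),⟨0,[(11,0),(0,0)]⟩,.k,.k,(.r (-1) ⟨0,[(28,1),
  (3,0)]⟩ ⟨12,[(0,5),(3,7),(2,3),(2,5),(8,5),(4,1),(5,5)]⟩),.k,.k,.k,⟨false,1,⟨2,[(0,0),(1,0),(7,0),
  (8,0),(10,1),(0,0)]⟩,⟨0,[(4,0),(23,1),(3,0)]⟩⟩,⟨true,0,⟨0,[(17,0)]⟩,⟨0,[(8,0)]⟩⟩,⟨false,0,⟨12,[(0,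
  2),(3,3),(2,1),(2,2),(8,2),(4,0),(5,2)]⟩,⟨0,[(28,0),(3,0)]⟩⟩,⟨true,(-1),⟨0,[(4,0),(12,0),(10,0)]⟩,
  ⟨3,[(0,0),(1,1),(5,0),(10,0),(1,0),(2,0)]⟩⟩,⟨false,0,⟨0,[]⟩,⟨0,[]⟩⟩,⟨false,0,⟨0,[]⟩,⟨0,[]⟩⟩,[.e
  ⟨false,0,⟨0,[(28,0),(1,0)]⟩,⟨7,[(0,1),(6,1),(1,0),(0,0),(20,1),(0,2)]⟩⟩ ⟨false,0,⟨1,[(4,1),(12,1),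
  (10,3),(2,0),(0,0)]⟩,⟨0,[(0,0)]⟩⟩,.o ⟨false,0,⟨0,[(1,0),(2,0),(23,1),(3,0)]⟩,⟨3,[(0,1),(18,1),(4,
  0),(6,0)]⟩⟩,.a ⟨true,0,⟨2,[(8,0),(1,0),(10,0)]⟩,⟨0,[(6,0)]⟩⟩ ⟨true,0,⟨7,[(5,0),(1,0),(11,0),(0,0),
  (6,2)]⟩,⟨0,[]⟩⟩ ⟨false,0,⟨0,[(4,0),(12,0),(10,1),(3,0)]⟩,⟨0,[(0,0)]⟩⟩,.o ⟨false,0,⟨0,[(1,0),(6,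
  0)]⟩,⟨0,[(31,0)]⟩⟩]⟩) (.R ⟨0,false,false,true,[1,-1],[0,0,1],[0,1],(⟨0,[(25,0)]⟩,⟨0,[(26,0)]⟩),
  (⟨0,[(23,0)]⟩,⟨0,[(22,0)]⟩),⟨0,[(11,0),(0,0)]⟩,.k,.k,(.r (-1) ⟨0,[(28,1),(3,0)]⟩ ⟨7,[(4,3),(2,1),
  (11,5),(0,5),(3,0),(5,5),(1,2)]⟩),.k,.k,.k,⟨false,1,⟨5,[(2,1),(7,1),(8,3),(4,0),(5,3),(0,0),(0,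
  1)]⟩,⟨1,[(0,1),(20,1),(2,0),(7,0)]⟩⟩,⟨true,0,⟨0,[(17,0)]⟩,⟨0,[(8,0)]⟩⟩,⟨false,0,⟨15,[(4,3),(2,1),
  (11,5),(0,5),(3,0),(5,5),(1,2)]⟩,⟨0,[(28,0),(3,0)]⟩⟩,⟨true,(-1),⟨14,[(0,7),(3,6),(2,0),(2,1),(6,
  3),(1,0),(7,2)]⟩,⟨3,[(2,1),(5,1),(10,1),(4,0),(7,0)]⟩⟩,⟨false,0,⟨0,[]⟩,⟨0,[]⟩⟩,⟨false,0,⟨0,[]⟩,⟨0,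
  []⟩⟩,[.a ⟨true,(-1),⟨2,[(0,2),(7,0),(1,0),(10,0)]⟩,⟨0,[(19,0),(12,0)]⟩⟩ ⟨false,0,⟨3,[(0,1),(18,1),
  (4,0),(6,0)]⟩,⟨1,[(13,0),(0,0),(17,0)]⟩⟩ ⟨true,(-1),⟨0,[(0,0)]⟩,⟨0,[(1,0),(6,0),(10,0),(12,0)]⟩⟩,
  .o ⟨false,0,⟨13,[(0,7),(3,3),(4,3),(0,1),(7,1),(5,2),(7,4)]⟩,⟨1,[(19,1),(4,0),(7,0)]⟩⟩,.e ⟨true,0,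
  ⟨7,[(5,0),(1,0),(11,0),(0,0),(6,2)]⟩,⟨0,[]⟩⟩ ⟨true,(-1),⟨0,[(0,0)]⟩,⟨37,[(7,3),(0,9),(0,1),(9,41),
  (0,13),(3,14),(7,20)]⟩⟩,.o ⟨false,0,⟨0,[(1,0),(6,0)]⟩,⟨0,[(31,0)]⟩⟩]⟩)) (.Q [0,-1,0,-1,1,0,0,0,0,
  -1] (.pp true [-1,1]) (.I [1,1,2,1,-1] (.R ⟨0,false,false,true,[1,0,-1],[0,1],[1,1],(⟨0,[(23,0)]⟩,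
  ⟨0,[(24,0)]⟩),(⟨0,[(27,0)]⟩,⟨0,[(26,0)]⟩),⟨0,[(12,0)]⟩,.k,.k,.k,.k,.k,.k,⟨false,1,⟨1,[(29,1),(2,
  0),(0,0)]⟩,⟨23,[(0,9),(7,3),(2,1),(8,3),(4,2),(5,9),(1,6)]⟩⟩,⟨true,0,⟨0,[(18,0)]⟩,⟨0,[(9,0)]⟩⟩,
  ⟨false,0,⟨0,[(5,0),(23,1),(3,0)]⟩,⟨0,[(0,0),(2,0),(27,0),(1,0)]⟩⟩,⟨true,(-1),⟨0,[(5,0),(12,0),(10,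
  0)]⟩,⟨0,[(1,0),(18,0)]⟩⟩,⟨false,0,⟨0,[]⟩,⟨0,[]⟩⟩,⟨false,0,⟨0,[]⟩,⟨0,[]⟩⟩,[.o ⟨false,0,⟨26,[(0,2),
  (7,3),(2,1),(8,3),(4,2),(2,9),(2,19)]⟩,⟨0,[(1,0)]⟩⟩,.o ⟨false,0,⟨0,[(31,0)]⟩,⟨3,[(10,1),(3,0),(0,
  0),(9,0)]⟩⟩,.e ⟨false,0,⟨0,[]⟩,⟨1,[(14,0),(0,0),(17,0)]⟩⟩ ⟨false,0,⟨6,[(5,0),(2,0),(2,2),(6,2),(1,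
  1),(10,3),(1,0)]⟩,⟨0,[(1,0),(0,0)]⟩⟩,.a ⟨true,0,⟨0,[(22,0)]⟩,⟨0,[(18,0)]⟩⟩ ⟨true,0,⟨0,[(29,0),(1,
  0)]⟩,⟨2,[(9,0),(1,0),(10,0)]⟩⟩ ⟨false,0,⟨0,[(18,0),(12,0)]⟩,⟨1,[(2,0),(6,0),(0,0),(22,0)]⟩⟩]⟩)
  (.R ⟨0,false,false,true,[0,0,1],[-1,1,1],[1,1,1],(⟨0,[(24,0)]⟩,⟨0,[(23,0)]⟩),(⟨0,[(12,0)]⟩,⟨0,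
  [(23,0),(2,0)]⟩),⟨0,[(13,0)]⟩,.k,.k,.k,.k,.k,.k,⟨false,1,⟨7,[(3,3),(7,1),(2,0),(0,0),(4,3),(4,0),
  (7,1)]⟩,⟨12,[(0,8),(1,0),(2,9),(2,1),(10,0),(5,0),(2,3)]⟩⟩,⟨true,0,⟨0,[(7,0)]⟩,⟨2,[(4,1),(7,2),(0,
  0),(7,1)]⟩⟩,⟨true,0,⟨0,[(20,0),(0,0)]⟩,⟨0,[(0,0),(4,0),(23,0)]⟩⟩,⟨false,0,⟨3,[(5,0),(1,0),(0,0),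
  (9,1),(1,1),(10,0),(1,0)]⟩,⟨0,[(1,0)]⟩⟩,⟨false,0,⟨0,[]⟩,⟨0,[]⟩⟩,⟨false,0,⟨0,[]⟩,⟨0,[]⟩⟩,[.o
  ⟨false,(-1),⟨0,[(5,0),(12,0),(10,0)]⟩,⟨1,[(1,1),(18,1),(4,0),(7,0)]⟩⟩,.e ⟨false,0,⟨0,[]⟩,⟨1,[(14,
  0),(0,0),(16,0)]⟩⟩ ⟨false,0,⟨4,[(0,3),(4,3),(1,3),(0,0),(19,1)]⟩,⟨2,[(3,2),(0,1),(7,2),(0,0),(7,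
  1),(9,2)]⟩⟩,.a ⟨true,0,⟨2,[(7,0),(3,1),(10,0)]⟩,⟨0,[(2,0)]⟩⟩ ⟨false,0,⟨2,[(9,0),(1,0),(10,0)]⟩,⟨1,
  [(32,0),(0,0)]⟩⟩ ⟨true,(-1),⟨0,[(5,0),(1,0),(21,0)]⟩,⟨2,[(3,2),(0,1),(7,2),(0,0),(7,1),(9,2)]⟩⟩,
  .o ⟨false,0,⟨0,[(21,0)]⟩,⟨1,[(2,1),(22,0),(6,0)]⟩⟩]⟩)) (.R ⟨0,false,false,true,[0,0,1],[-1,1,1],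
  [],(⟨0,[(23,0)]⟩,⟨0,[(22,0)]⟩),(⟨0,[(11,0)]⟩,⟨0,[(22,0),(2,0)]⟩),⟨0,[(12,0)]⟩,.k,.k,.k,.k,.k,.k,
  ⟨false,2,⟨7,[(2,3),(7,1),(2,0),(0,0),(4,3),(4,0),(6,3),(0,5)]⟩,⟨0,[(4,0),(23,0)]⟩⟩,⟨true,0,⟨0,[(6,
  0)]⟩,⟨2,[(3,1),(7,2),(0,0),(7,1)]⟩⟩,⟨false,1,⟨2,[(0,2),(1,2),(0,1),(7,2),(0,0),(7,1),(9,2),(1,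
  2)]⟩,⟨0,[(4,0),(23,1),(3,0)]⟩⟩,⟨true,(-1),⟨0,[(0,0)]⟩,⟨3,[(9,1),(3,0),(0,0),(9,0)]⟩⟩,⟨false,0,⟨0,
  []⟩,⟨0,[]⟩⟩,⟨false,0,⟨0,[]⟩,⟨0,[]⟩⟩,[.o ⟨false,(-1),⟨0,[(4,0),(12,0),(10,0)]⟩,⟨3,[(2,1),(5,1),(10,
  1),(4,2),(7,2)]⟩⟩,.e ⟨false,1,⟨1,[(31,0),(0,0)]⟩,⟨7,[(5,0),(1,0),(11,0),(0,0),(6,2)]⟩⟩ ⟨false,0,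
  ⟨1,[(4,1),(1,1),(21,1),(2,0),(0,0)]⟩,⟨2,[(2,2),(0,1),(7,2),(0,0),(7,1),(9,2)]⟩⟩,.a ⟨true,0,⟨2,[(6,
  0),(3,1),(10,0)]⟩,⟨0,[(1,0)]⟩⟩ ⟨false,1,⟨1,[(13,0),(0,0),(17,0)]⟩,⟨0,[]⟩⟩ ⟨true,(-1),⟨0,[(4,0),(1,
  0),(21,0)]⟩,⟨2,[(2,2),(0,1),(7,2),(0,0),(7,1),(9,2)]⟩⟩,.o ⟨false,0,⟨0,[(20,0)]⟩,⟨1,[(1,1),(22,0),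
  (6,0)]⟩⟩]⟩)))))) (.R ⟨0,false,false,false,[1,-1],[0,1],[1],(⟨0,[(20,0)]⟩,⟨0,[(21,0)]⟩),(⟨0,[(21,
  0)]⟩,⟨0,[(20,0)]⟩),⟨0,[(6,0),(0,0)]⟩,.k,.k,(.r (-1) ⟨0,[(0,0),(3,0),(18,0)]⟩ ⟨6,[(0,1),(1,1),(0,
  3),(10,1),(0,5),(9,9)]⟩),(.r (-1) ⟨0,[(0,0),(3,0),(18,0)]⟩ ⟨6,[(0,1),(1,1),(0,3),(10,1),(0,5),(9,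
  9)]⟩),.k,.k,⟨false,1,⟨1,[(0,0),(3,0),(18,0),(2,0)]⟩,⟨6,[(0,0),(1,0),(0,1),(10,0),(0,2),(9,4)]⟩⟩,
  ⟨true,0,⟨0,[(0,0),(22,0)]⟩,⟨0,[(3,0),(11,0)]⟩⟩,⟨true,0,⟨6,[(0,0),(1,0),(0,1),(10,0),(0,2),(9,4)]⟩,
  ⟨0,[(23,0)]⟩⟩,⟨false,0,⟨6,[(0,7),(1,0),(0,1),(10,0),(0,2),(9,4)]⟩,⟨0,[(4,0)]⟩⟩,⟨false,0,⟨0,[]⟩,⟨0,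
  []⟩⟩,⟨false,0,⟨0,[]⟩,⟨0,[]⟩⟩,[.o ⟨false,0,⟨0,[(25,0)]⟩,⟨3,[(4,1),(3,0),(0,0),(9,0)]⟩⟩,.a ⟨true,0,
  ⟨2,[(0,2),(2,0),(1,0),(10,0)]⟩,⟨0,[(24,0)]⟩⟩ ⟨false,1,⟨1,[(26,0),(0,0)]⟩,⟨11,[(2,0),(0,0),(10,0),
  (0,1),(6,4),(1,0)]⟩⟩ ⟨true,0,⟨0,[(0,0)]⟩,⟨0,[(3,0),(11,0),(7,0)]⟩⟩,.a ⟨true,0,⟨2,[(3,0),(1,0),(10,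
  0)]⟩,⟨0,[(1,0)]⟩⟩ ⟨true,0,⟨0,[]⟩,⟨11,[(2,0),(0,0),(10,0),(0,1),(6,4),(1,0)]⟩⟩ ⟨false,0,⟨0,[(0,
  0)]⟩,⟨37,[(2,9),(0,5),(0,23),(9,9),(0,15),(3,8),(7,4)]⟩⟩,.a ⟨true,0,⟨2,[(3,1),(1,1),(10,1)]⟩,⟨0,
  [(0,0),(22,0)]⟩⟩ ⟨false,1,⟨1,[(26,0),(0,0)]⟩,⟨2,[(3,0),(1,0),(10,0)]⟩⟩ ⟨true,0,⟨0,[(0,0),(22,0),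
  (1,0)]⟩,⟨0,[(3,0),(11,0),(7,0)]⟩⟩]⟩))) (.Q [0,0,1,0,0,0,1,0,0,-1,-1] (.p false [1,-1,1] [] (⟨0,
  [(16,0),(1,0)]⟩,⟨0,[(5,0)]⟩) .k 0 (⟨0,[]⟩,⟨0,[]⟩) .k .k) (.R ⟨0,false,false,false,[1,0,-1],[0,1],
  [1,1,1],(⟨0,[(16,0)]⟩,⟨0,[(17,0)]⟩),(⟨0,[(20,0)]⟩,⟨0,[(19,0)]⟩),⟨0,[(5,0)]⟩,.k,.k,.k,.k,.k,.k,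
  ⟨false,0,⟨0,[(22,0)]⟩,⟨1,[(7,0),(0,0),(15,1),(1,0)]⟩⟩,⟨true,0,⟨0,[(11,0)]⟩,⟨0,[(2,0)]⟩⟩,⟨true,0,
  ⟨0,[(12,0),(2,0)]⟩,⟨0,[(1,0),(14,0),(0,0),(6,0)]⟩⟩,⟨false,1,⟨0,[(12,0),(3,0),(0,0),(6,0),(1,0)]⟩,
  ⟨0,[(1,0),(13,0)]⟩⟩,⟨false,0,⟨0,[]⟩,⟨0,[]⟩⟩,⟨false,0,⟨0,[]⟩,⟨0,[]⟩⟩,[.o ⟨false,0,⟨0,[(24,0)]⟩,⟨3,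
  [(3,1),(3,0),(0,0),(9,0)]⟩⟩,.o ⟨false,1,⟨1,[(7,0),(0,0),(15,1),(1,0)]⟩,⟨1,[(1,0),(0,0),(9,0),(9,
  0)]⟩⟩,.o ⟨false,1,⟨1,[(15,1),(2,0),(6,0)]⟩,⟨1,[(0,0),(10,0)]⟩⟩,.a ⟨true,0,⟨0,[(15,0)]⟩,⟨0,[(11,
  0)]⟩⟩ ⟨false,0,⟨0,[]⟩,⟨1,[(7,0),(0,0),(17,0)]⟩⟩ ⟨true,0,⟨0,[(11,0),(12,0)]⟩,⟨0,[(2,0),(19,
  0)]⟩⟩]⟩) (.Q [0,0,-2,1,0,0,0,0,0,1] (.pp false [-1,1]) (.Q [0,0,2,0,0,0,0,0,0,-1] (.pp true [-1,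
  1]) (.R ⟨0,false,false,false,[1,-1],[0,0,1],[1],(⟨0,[(21,0)]⟩,⟨0,[(22,0)]⟩),(⟨0,[(19,0)]⟩,⟨0,[(18,
  0)]⟩),⟨0,[(7,0),(0,0)]⟩,.k,.k,(.r (-1) ⟨0,[(24,1),(3,0)]⟩ ⟨1,[(0,0),(5,0),(10,1),(8,3)]⟩),.k,.k,
  .k,⟨false,0,⟨1,[(1,0),(1,1),(2,0),(10,1),(8,0)]⟩,⟨1,[(14,1),(2,1),(9,0),(0,0)]⟩⟩,⟨true,0,⟨0,[(13,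
  0)]⟩,⟨0,[(4,0)]⟩⟩,⟨true,0,⟨3,[(0,0),(5,0),(10,1),(8,3)]⟩,⟨0,[(24,0)]⟩⟩,⟨false,1,⟨1,[(1,0),(4,0),
  (7,1),(2,1),(8,0),(1,1)]⟩,⟨0,[(3,0),(13,0)]⟩⟩,⟨false,0,⟨0,[]⟩,⟨0,[]⟩⟩,⟨false,0,⟨0,[]⟩,⟨0,[]⟩⟩,[.o
  ⟨false,1,⟨1,[(9,0),(0,0),(3,1),(13,0)]⟩,⟨0,[(3,0),(13,0),(8,0)]⟩⟩,.o ⟨false,1,⟨0,[(14,0),(13,0)]⟩,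
  ⟨6,[(1,0),(1,3),(0,3),(10,2),(7,1),(2,2)]⟩⟩,.a ⟨true,0,⟨3,[(0,0),(5,0),(10,1)]⟩,⟨1,[(2,0),(10,
  0)]⟩⟩ ⟨true,0,⟨0,[]⟩,⟨0,[(30,0)]⟩⟩ ⟨false,1,⟨1,[(2,0),(10,0),(0,1),(13,1)]⟩,⟨3,[(0,0),(2,3),(2,0),
  (10,5),(8,3)]⟩⟩,.o ⟨false,0,⟨0,[(0,0)]⟩,⟨0,[(27,0)]⟩⟩]⟩) (.R ⟨0,false,false,false,[1,0,-1],[0,1],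
  [0,1,1],(⟨0,[(18,0)]⟩,⟨0,[(19,0)]⟩),(⟨0,[(22,0)]⟩,⟨0,[(21,0)]⟩),⟨0,[(7,0)]⟩,.k,.k,.k,.k,.k,.k,
  ⟨false,0,⟨0,[(24,0)]⟩,⟨1,[(9,0),(0,0),(15,1),(1,0)]⟩⟩,⟨true,0,⟨0,[(13,0)]⟩,⟨0,[(4,0)]⟩⟩,⟨true,0,
  ⟨0,[(14,0),(2,0)]⟩,⟨1,[(1,0),(1,1),(2,0),(10,1),(8,0)]⟩⟩,⟨false,1,⟨1,[(1,0),(4,0),(7,1),(2,1),(8,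
  0),(1,1)]⟩,⟨0,[(3,0),(13,0)]⟩⟩,⟨false,0,⟨0,[]⟩,⟨0,[]⟩⟩,⟨false,0,⟨0,[]⟩,⟨0,[]⟩⟩,[.o ⟨false,0,⟨0,
  [(26,0)]⟩,⟨3,[(5,1),(3,0),(0,0),(9,0)]⟩⟩,.o ⟨false,1,⟨1,[(9,0),(0,0),(15,1),(1,0)]⟩,⟨1,[(3,0),(0,
  0),(9,0),(9,0)]⟩⟩,.a ⟨true,0,⟨0,[(0,0),(3,0)]⟩,⟨3,[(2,0),(3,2),(10,0)]⟩⟩ ⟨false,0,⟨2,[(4,0),(1,0),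
  (10,0)]⟩,⟨1,[(27,0),(0,0)]⟩⟩ ⟨true,0,⟨3,[(1,0),(4,2),(10,1),(8,2)]⟩,⟨1,[(0,1),(2,0),(0,2),(9,0),
  (9,0)]⟩⟩,.e ⟨true,0,⟨0,[(30,0)]⟩,⟨0,[]⟩⟩ ⟨true,0,⟨1,[(1,0),(4,0),(19,0)]⟩,⟨0,[(4,0),(19,0)]⟩⟩]⟩))
  (.R ⟨0,false,false,false,[1,-1],[0,0,1],[1],(⟨0,[(20,0)]⟩,⟨0,[(21,0)]⟩),(⟨0,[(18,0)]⟩,⟨0,[(17,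
  0)]⟩),⟨0,[(6,0),(0,0)]⟩,.k,.k,(.r (-1) ⟨0,[(23,1),(3,0)]⟩ ⟨2,[(3,1),(1,1),(10,1),(8,5)]⟩),.k,.k,
  .k,⟨false,0,⟨1,[(1,0),(0,1),(2,0),(10,0),(8,1)]⟩,⟨1,[(13,1),(2,1),(9,0),(0,0)]⟩⟩,⟨true,0,⟨0,[(12,
  0)]⟩,⟨0,[(3,0)]⟩⟩,⟨true,0,⟨2,[(3,0),(1,0),(10,0),(8,2)]⟩,⟨0,[(23,0)]⟩⟩,⟨false,1,⟨1,[(1,0),(3,0),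
  (7,1),(2,0),(8,1),(1,1)]⟩,⟨0,[(2,0),(13,0)]⟩⟩,⟨false,0,⟨0,[]⟩,⟨0,[]⟩⟩,⟨false,0,⟨0,[]⟩,⟨0,[]⟩⟩,[.o
  ⟨false,1,⟨1,[(8,0),(0,0),(3,1),(13,0)]⟩,⟨0,[(2,0),(13,0),(8,0)]⟩⟩,.o ⟨false,1,⟨0,[(13,0),(13,0)]⟩,
  ⟨9,[(1,0),(0,5),(0,4),(10,3),(7,2),(2,5)]⟩⟩,.a ⟨true,0,⟨2,[(3,0),(1,0),(10,0)]⟩,⟨1,[(1,0),(10,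
  0)]⟩⟩ ⟨true,0,⟨0,[]⟩,⟨0,[(29,0)]⟩⟩ ⟨false,1,⟨1,[(1,0),(10,0),(0,1),(13,1)]⟩,⟨2,[(2,2),(0,0),(1,0),
  (10,3),(8,2)]⟩⟩,.o ⟨false,0,⟨0,[(0,0),(24,0)]⟩,⟨0,[(26,0)]⟩⟩]⟩))))

theorem ok1 : chk K t1 l1 = true := by decide +kernel

noncomputable def t2 : Tre :=
  (.I [1,-1,0,1,1,0,0,1] (.I [1,0,1,1,0,0,0,-1] (.Q [0,0,0,0,0,0,-1,0,0,0,1] (.p true [0,0,1] []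
  (⟨0,[(17,0)]⟩,⟨0,[(16,0)]⟩) .k 0 (⟨0,[]⟩,⟨0,[]⟩) .k .k) (.Q [0,-1,0,1,0,0,-1,-1,0,0,1] (.p true
  [0,0,1] [] (⟨0,[(18,0)]⟩,⟨0,[(17,0)]⟩) .k 0 (⟨0,[]⟩,⟨0,[]⟩) .k .k) (.R ⟨2,true,false,true,[0,1],
  [0,0,1],[1,1,1],(⟨0,[]⟩,⟨0,[]⟩),(⟨0,[(19,0)]⟩,⟨0,[(18,0)]⟩),⟨0,[]⟩,.k,.k,.k,.k,.k,.k,⟨false,0,⟨0,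
  [(0,0),(15,0),(7,0)]⟩,⟨0,[(3,0),(20,0)]⟩⟩,⟨true,0,⟨0,[(16,0)]⟩,⟨0,[(1,0)]⟩⟩,⟨true,0,⟨0,[(25,0)]⟩,
  ⟨0,[(26,0)]⟩⟩,⟨false,1,⟨0,[(14,0),(10,0),(2,0)]⟩,⟨0,[(0,0)]⟩⟩,⟨false,0,⟨0,[]⟩,⟨5,[(3,1),(1,0),(0,
  0),(8,1),(12,2)]⟩⟩,⟨true,0,⟨0,[(14,0)]⟩,⟨0,[(0,0),(24,0)]⟩⟩,[]⟩) (.I [0,0,1,1,0,0,0,-1] (.I [1,0,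
  -1,0,0,0,0,-1] (.Q [0,-1,0,-1,1,0,0,0,0,-1] (.pp true [-1,1]) (.R ⟨0,false,false,false,[1,0,-1],
  [1,-1],[0,1,1],(⟨0,[(21,0)]⟩,⟨0,[(22,0)]⟩),(⟨0,[(24,0)]⟩,⟨0,[(25,0)]⟩),⟨0,[(10,0)]⟩,.k,.k,.k,.k,
  .k,.k,⟨false,0,⟨4,[(2,2),(14,2),(2,2),(5,0),(2,1)]⟩,⟨0,[(0,0),(3,0),(2,0)]⟩⟩,⟨true,0,⟨0,[(19,0)]⟩,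
  ⟨0,[(4,0)]⟩⟩,⟨true,0,⟨0,[(17,0),(2,0)]⟩,⟨0,[(1,0)]⟩⟩,⟨false,1,⟨0,[(3,0),(27,0)]⟩,⟨1,[(1,0),(0,0),
  (1,1),(24,0)]⟩⟩,⟨false,0,⟨0,[]⟩,⟨0,[]⟩⟩,⟨false,0,⟨0,[]⟩,⟨0,[]⟩⟩,[.o ⟨false,1,⟨27,[(2,3),(3,3),(1,
  17),(14,4),(2,1),(3,0)]⟩,⟨0,[(29,0)]⟩⟩,.o ⟨false,1,⟨0,[(0,0)]⟩,⟨4,[(2,0),(14,0),(2,0),(5,1),(2,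
  3)]⟩⟩,.e ⟨false,0,⟨1,[(19,0),(0,0)]⟩,⟨1,[(30,0),(0,0)]⟩⟩ ⟨false,1,⟨1,[(8,0),(0,0),(21,0)]⟩,⟨0,[(4,
  0),(24,0)]⟩⟩,.a ⟨true,0,⟨0,[(20,0)]⟩,⟨0,[(16,0)]⟩⟩ ⟨true,0,⟨0,[(33,0)]⟩,⟨0,[]⟩⟩ ⟨false,1,⟨3,[(0,
  1),(6,1),(0,0),(0,0),(21,0)]⟩,⟨0,[(20,0),(8,0)]⟩⟩]⟩) (.Q [0,0,-1,0,0,0,0,1,0,1] (.pp false [-1,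
  1]) (.R ⟨0,false,false,false,[0,1,-1],[1,0,-1],[1,0,0,0,0,0,0,-1],(⟨0,[(12,0)]⟩,⟨0,[(23,0),(1,
  0)]⟩),(⟨0,[(22,0)]⟩,⟨0,[(23,0)]⟩),⟨0,[(23,0)]⟩,.k,.k,.k,.k,.k,.k,⟨true,0,⟨0,[]⟩,⟨1,[(20,0),(0,
  0)]⟩⟩,⟨false,1,⟨13,[(3,3),(3,3),(1,3),(14,4),(2,1),(3,0)]⟩,⟨0,[(5,0),(11,0)]⟩⟩,⟨false,1,⟨1,[(0,0),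
  (1,0),(6,0),(22,0)]⟩,⟨1,[(20,0),(0,0),(8,1)]⟩⟩,⟨true,1,⟨27,[(3,3),(3,3),(1,17),(14,4),(2,1),(3,
  0)]⟩,⟨0,[(1,0)]⟩⟩,⟨false,0,⟨0,[]⟩,⟨0,[]⟩⟩,⟨false,0,⟨0,[]⟩,⟨0,[]⟩⟩,[.e ⟨false,0,⟨0,[(2,0)]⟩,⟨0,[(7,
  0),(21,0)]⟩⟩ ⟨false,1,⟨9,[(2,1),(0,7),(5,3),(14,2),(6,2)]⟩,⟨0,[(0,0)]⟩⟩,.o ⟨false,1,⟨1,[(2,1),(18,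
  1),(2,0),(7,0)]⟩,⟨0,[(18,0)]⟩⟩,.a ⟨true,0,⟨0,[(5,1),(11,0)]⟩,⟨0,[(20,0)]⟩⟩ ⟨true,0,⟨1,[(2,1),(17,
  0),(0,0)]⟩,⟨0,[(5,0),(12,0)]⟩⟩ ⟨false,1,⟨1,[(2,1),(17,1),(0,1),(2,0),(7,0)]⟩,⟨0,[(0,0)]⟩⟩,.o
  ⟨false,0,⟨0,[(5,0)]⟩,⟨27,[(3,3),(3,3),(1,3),(0,13),(13,18),(2,1),(3,0)]⟩⟩]⟩) (.R ⟨0,false,false,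
  false,[0,1,-1],[1,0,-1],[1,0,0,0,0,0,0,-1],(⟨0,[(12,0)]⟩,⟨0,[(23,0),(1,0)]⟩),(⟨0,[(22,0)]⟩,⟨0,
  [(23,0)]⟩),⟨0,[(23,0)]⟩,.k,.k,.k,.k,.k,.k,⟨true,0,⟨0,[]⟩,⟨1,[(20,0),(0,0)]⟩⟩,⟨false,1,⟨13,[(3,3),
  (3,3),(1,3),(14,4),(2,1),(3,0)]⟩,⟨0,[(5,0),(11,0)]⟩⟩,⟨false,1,⟨1,[(5,0),(2,0),(0,0),(22,0)]⟩,⟨3,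
  [(0,1),(0,1),(5,1),(12,0),(0,0)]⟩⟩,⟨true,1,⟨27,[(3,3),(3,3),(1,17),(14,4),(2,1),(3,0)]⟩,⟨0,[(1,
  0)]⟩⟩,⟨false,0,⟨0,[]⟩,⟨0,[]⟩⟩,⟨false,0,⟨0,[]⟩,⟨0,[]⟩⟩,[.a ⟨true,0,⟨0,[(2,0),(18,0)]⟩,⟨0,[(1,0),(2,
  0),(27,0)]⟩⟩ ⟨false,0,⟨0,[(2,0)]⟩,⟨0,[(7,0),(21,0)]⟩⟩ ⟨true,0,⟨0,[(0,0)]⟩,⟨0,[(1,0),(2,0),(0,0),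
  (26,0)]⟩⟩,.o ⟨false,1,⟨2,[(0,0),(1,0),(2,1),(13,0),(4,0),(7,1)]⟩,⟨0,[(18,0)]⟩⟩,.e ⟨true,0,⟨3,[(0,
  0),(1,2),(7,0),(10,1)]⟩,⟨0,[(5,0),(12,0)]⟩⟩ ⟨true,0,⟨0,[(0,0)]⟩,⟨5,[(1,1),(2,3),(0,7),(1,1),(0,0),
  (8,2),(9,0)]⟩⟩,.o ⟨false,0,⟨0,[(5,0)]⟩,⟨27,[(3,3),(3,3),(1,3),(0,13),(13,18),(2,1),(3,0)]⟩⟩]⟩)))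
  (.I [1,0,0,1,0,0,0,-1] (.Q [0,-1,-1,-1,1,0,1,0,0,0,-1] (.p false [0,0,1] [] (⟨0,[(22,0)]⟩,⟨0,[(21,
  0)]⟩) .k 0 (⟨0,[]⟩,⟨0,[]⟩) .k .k) (.R ⟨0,false,false,false,[1,0,-1],[1,-1],[0,0,1],(⟨0,[(22,0)]⟩,
  ⟨0,[(23,0)]⟩),(⟨0,[(25,0)]⟩,⟨0,[(26,0)]⟩),⟨0,[(11,0)]⟩,.k,.k,.k,.k,.k,.k,⟨false,0,⟨1,[(2,0),(0,0),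
  (26,0)]⟩,⟨1,[(5,0),(2,0),(0,0),(21,0)]⟩⟩,⟨true,0,⟨0,[(20,0)]⟩,⟨0,[(5,0)]⟩⟩,⟨true,0,⟨0,[(2,0)]⟩,⟨0,
  [(1,0),(26,0)]⟩⟩,⟨false,1,⟨0,[(4,0),(27,0)]⟩,⟨0,[(1,0),(3,0)]⟩⟩,⟨false,0,⟨0,[]⟩,⟨0,[]⟩⟩,⟨false,0,
  ⟨0,[]⟩,⟨0,[]⟩⟩,[.o ⟨false,1,⟨27,[(3,3),(3,3),(1,17),(14,4),(2,1),(3,0)]⟩,⟨0,[(30,0)]⟩⟩,.e ⟨false,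
  1,⟨5,[(7,1),(1,0),(0,0),(8,1),(12,2)]⟩,⟨0,[(28,0),(1,0)]⟩⟩ ⟨false,1,⟨0,[(0,0)]⟩,⟨1,[(5,0),(15,0),
  (5,0),(2,1)]⟩⟩,.a ⟨true,0,⟨0,[(5,0)]⟩,⟨1,[(10,0),(11,0),(0,0)]⟩⟩ ⟨true,0,⟨1,[(20,0),(0,0)]⟩,⟨0,
  [(28,0),(1,0)]⟩⟩ ⟨false,1,⟨1,[(9,0),(0,0),(21,0)]⟩,⟨0,[(5,0),(24,0)]⟩⟩,.e ⟨false,1,⟨5,[(7,1),(1,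
  0),(0,0),(8,1),(12,2)]⟩,⟨0,[]⟩⟩ ⟨false,1,⟨0,[(0,0)]⟩,⟨0,[(21,0),(8,0)]⟩⟩]⟩) (.R ⟨0,false,false,
  false,[1,0,-1],[1,-1],[0,0,1],(⟨0,[(22,0)]⟩,⟨0,[(23,0)]⟩),(⟨0,[(25,0)]⟩,⟨0,[(26,0)]⟩),⟨0,[(11,
  0)]⟩,.k,.k,.k,.k,.k,.k,⟨false,0,⟨2,[(0,0),(2,0),(3,0),(12,0)]⟩,⟨1,[(5,0),(2,0),(0,0),(21,0)]⟩⟩,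
  ⟨true,0,⟨0,[(20,0)]⟩,⟨0,[(5,0)]⟩⟩,⟨true,0,⟨0,[(2,0)]⟩,⟨0,[(1,0),(26,0)]⟩⟩,⟨false,1,⟨0,[(4,0),(27,
  0)]⟩,⟨0,[(1,0),(3,0)]⟩⟩,⟨false,0,⟨0,[]⟩,⟨0,[]⟩⟩,⟨false,0,⟨0,[]⟩,⟨0,[]⟩⟩,[.o ⟨false,1,⟨27,[(3,3),
  (3,3),(1,17),(14,4),(2,1),(3,0)]⟩,⟨0,[(30,0)]⟩⟩,.a ⟨true,1,⟨0,[(29,0),(2,0)]⟩,⟨0,[(0,0),(16,0)]⟩⟩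
  ⟨false,1,⟨5,[(7,1),(1,0),(0,0),(8,1),(12,2)]⟩,⟨7,[(0,1),(7,1),(15,0),(2,1),(0,1),(2,0)]⟩⟩ ⟨true,1,
  ⟨1,[(9,0),(0,0),(21,0)]⟩,⟨0,[(0,0)]⟩⟩,.a ⟨true,0,⟨0,[(5,0)]⟩,⟨1,[(10,0),(11,0),(0,0)]⟩⟩ ⟨true,0,
  ⟨1,[(20,0),(0,0)]⟩,⟨7,[(0,1),(7,1),(15,0),(2,1),(0,1),(2,0)]⟩⟩ ⟨false,1,⟨1,[(9,0),(0,0),(21,0)]⟩,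
  ⟨0,[(5,0),(24,0)]⟩⟩,.a ⟨true,0,⟨0,[(21,0)]⟩,⟨0,[(17,0)]⟩⟩ ⟨false,1,⟨5,[(7,1),(1,0),(0,0),(8,1),
  (12,2)]⟩,⟨0,[]⟩⟩ ⟨true,1,⟨1,[(9,0),(0,0),(20,0)]⟩,⟨0,[(0,0)]⟩⟩]⟩)) (.Q [0,0,0,1,0,0,-1,-1,0,0,1]
  (.p true [0,0,1] [] (⟨0,[(22,0)]⟩,⟨0,[(21,0)]⟩) .k 0 (⟨0,[]⟩,⟨0,[]⟩) .k .k) (.I [1,-1,1,0,0,0,0,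
  1] (.R ⟨0,false,false,true,[1,0,-1],[1,-1],[1,1],(⟨0,[(23,0)]⟩,⟨0,[(24,0)]⟩),(⟨0,[(26,0)]⟩,⟨0,
  [(27,0)]⟩),⟨0,[(12,0)]⟩,.k,.k,.k,.k,.k,.k,⟨false,0,⟨0,[(31,0)]⟩,⟨1,[(30,1),(1,0),(0,0)]⟩⟩,⟨true,0,
  ⟨0,[(21,0)]⟩,⟨0,[(6,0)]⟩⟩,⟨false,0,⟨0,[(2,0),(28,0)]⟩,⟨2,[(4,1),(4,0),(0,0),(9,0),(12,1)]⟩⟩,⟨true,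
  0,⟨0,[(5,0)]⟩,⟨0,[(1,0)]⟩⟩,⟨false,0,⟨0,[]⟩,⟨0,[]⟩⟩,⟨false,0,⟨0,[]⟩,⟨0,[]⟩⟩,[.a ⟨true,0,⟨0,[(30,
  0)]⟩,⟨0,[(0,0),(0,0),(16,0)]⟩⟩ ⟨false,0,⟨0,[(29,0),(1,0)]⟩,⟨5,[(8,1),(1,0),(0,0),(8,1),(12,2)]⟩⟩
  ⟨true,0,⟨0,[(21,0),(7,0)]⟩,⟨0,[(0,0),(0,0)]⟩⟩,.o ⟨false,1,⟨27,[(4,3),(3,3),(1,17),(14,4),(2,1),(3,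
  0)]⟩,⟨0,[(31,0)]⟩⟩,.a ⟨true,0,⟨0,[(6,0)]⟩,⟨1,[(11,0),(11,0),(0,0)]⟩⟩ ⟨false,0,⟨0,[]⟩,⟨5,[(8,1),(1,
  0),(0,0),(8,1),(12,2)]⟩⟩ ⟨true,0,⟨0,[(21,0),(7,0)]⟩,⟨0,[(6,0),(24,0)]⟩⟩,.a ⟨true,0,⟨0,[(22,0)]⟩,
  ⟨0,[(18,0)]⟩⟩ ⟨true,0,⟨0,[(29,0),(1,0)]⟩,⟨1,[(21,0),(0,0)]⟩⟩ ⟨false,1,⟨1,[(10,0),(0,0),(20,0)]⟩,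
  ⟨0,[(0,0),(0,0)]⟩⟩]⟩) (.Q [0,-1,0,0,1,0,-1,-1,0,-1,1] (.p true [0,0,1] [1] (⟨0,[(24,0)]⟩,⟨0,[(23,
  0)]⟩) .k 1 (⟨0,[]⟩,⟨0,[]⟩) .k .k) (.R ⟨0,false,false,false,[1,0,-1],[1,-1],[0,0,1],(⟨0,[(24,0)]⟩,
  ⟨0,[(25,0)]⟩),(⟨0,[(27,0)]⟩,⟨0,[(28,0)]⟩),⟨0,[(13,0)]⟩,.k,.k,.k,.k,.k,.k,⟨false,0,⟨1,[(4,0),(0,0),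
  (26,0)]⟩,⟨1,[(7,0),(2,0),(0,0),(21,0)]⟩⟩,⟨true,0,⟨0,[(22,0)]⟩,⟨0,[(7,0)]⟩⟩,⟨true,0,⟨0,[(4,0)]⟩,⟨0,
  [(1,0)]⟩⟩,⟨false,1,⟨0,[(6,0),(27,0)]⟩,⟨0,[(2,0)]⟩⟩,⟨false,0,⟨0,[]⟩,⟨0,[]⟩⟩,⟨false,0,⟨0,[]⟩,⟨0,
  []⟩⟩,[.o ⟨false,1,⟨27,[(5,3),(3,3),(1,17),(14,4),(2,1),(3,0)]⟩,⟨0,[(32,0)]⟩⟩,.e ⟨false,1,⟨5,[(9,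
  1),(1,0),(0,0),(8,1),(12,2)]⟩,⟨0,[(30,0),(1,0)]⟩⟩ ⟨false,1,⟨0,[(0,0),(2,0),(6,0),(11,0)]⟩,⟨1,[(2,
  0),(1,0),(2,0),(21,0),(2,0)]⟩⟩,.a ⟨true,0,⟨0,[(7,0)]⟩,⟨1,[(12,0),(11,0),(0,0)]⟩⟩ ⟨true,0,⟨1,[(22,
  0),(0,0)]⟩,⟨0,[(30,0),(1,0)]⟩⟩ ⟨false,1,⟨1,[(11,0),(0,0),(21,0)]⟩,⟨0,[(7,0),(24,0)]⟩⟩,.e ⟨false,1,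
  ⟨5,[(9,1),(1,0),(0,0),(8,1),(12,2)]⟩,⟨0,[]⟩⟩ ⟨false,1,⟨0,[(0,0),(2,0),(6,0),(11,0)]⟩,⟨0,[(2,0),(1,
  0)]⟩⟩]⟩) (.R ⟨2,true,false,false,[0,1],[0,0,1],[1,1,1],(⟨0,[]⟩,⟨0,[]⟩),(⟨0,[(25,0)]⟩,⟨0,[(24,
  0)]⟩),⟨0,[]⟩,.k,.k,.k,.k,.k,.k,⟨false,0,⟨1,[(1,0),(19,0),(0,0)]⟩,⟨3,[(3,1),(3,1),(1,1),(0,1),(15,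
  0),(7,0)]⟩⟩,⟨true,0,⟨0,[(22,0)]⟩,⟨0,[(7,0)]⟩⟩,⟨true,0,⟨0,[(31,0)]⟩,⟨0,[(32,0)]⟩⟩,⟨false,1,⟨0,[(6,
  0),(27,0)]⟩,⟨0,[(2,0)]⟩⟩,⟨false,0,⟨0,[]⟩,⟨5,[(9,1),(1,0),(0,0),(8,1),(12,2)]⟩⟩,⟨true,0,⟨1,[(0,1),
  (25,0),(7,0)]⟩,⟨0,[(21,0)]⟩⟩,[]⟩))) (.Q [0,-1,0,-1,1,0,0,0,0,-1] (.pp true [-1,1]) (.R ⟨0,false,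
  false,false,[1,0,-1],[1,-1],[0,1,1],(⟨0,[(23,0)]⟩,⟨0,[(24,0)]⟩),(⟨0,[(26,0)]⟩,⟨0,[(27,0)]⟩),⟨0,
  [(12,0)]⟩,.k,.k,.k,.k,.k,.k,⟨false,0,⟨3,[(3,2),(0,2),(23,1),(2,0)]⟩,⟨0,[(0,0),(5,0),(2,0)]⟩⟩,
  ⟨true,0,⟨0,[(21,0)]⟩,⟨0,[(6,0)]⟩⟩,⟨false,0,⟨0,[(3,0)]⟩,⟨0,[(0,0),(3,0),(1,0),(2,0)]⟩⟩,⟨true,0,⟨0,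
  [(1,0)]⟩,⟨0,[(20,0),(10,0)]⟩⟩,⟨false,0,⟨0,[]⟩,⟨0,[]⟩⟩,⟨false,0,⟨0,[]⟩,⟨0,[]⟩⟩,[.o ⟨false,1,⟨27,
  [(4,3),(3,3),(1,17),(14,4),(2,1),(3,0)]⟩,⟨0,[(31,0)]⟩⟩,.o ⟨false,1,⟨0,[(0,0)]⟩,⟨3,[(3,0),(0,0),
  (23,1),(2,2)]⟩⟩,.e ⟨false,0,⟨1,[(21,0),(0,0)]⟩,⟨1,[(32,0),(0,0)]⟩⟩ ⟨false,1,⟨1,[(10,0),(0,0),(21,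
  0)]⟩,⟨0,[(6,0),(24,0)]⟩⟩,.a ⟨true,0,⟨0,[(22,0)]⟩,⟨0,[(18,0)]⟩⟩ ⟨true,0,⟨0,[(35,0)]⟩,⟨0,[]⟩⟩
  ⟨false,1,⟨3,[(0,1),(8,1),(0,0),(0,0),(21,0)]⟩,⟨0,[(22,0),(8,0)]⟩⟩]⟩) (.I [0,-1,-1,-1,1,0,0,-1]
  (.I [0,1,0,-1,0,0,0,-1] (.R ⟨0,false,false,true,[0,0,1],[-1,1,1],[1,1,1,1,0,0,0,1],(⟨0,[(26,0)]⟩,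
  ⟨0,[(25,0)]⟩),(⟨0,[(14,0)]⟩,⟨0,[(25,0),(2,0)]⟩),⟨0,[(15,0)]⟩,.k,.k,.k,.k,.k,.k,⟨true,0,⟨0,[]⟩,⟨1,
  [(23,0),(0,0)]⟩⟩,⟨false,0,⟨0,[(8,0),(2,0)]⟩,⟨10,[(5,3),(0,6),(3,2),(1,4),(14,2),(9,2)]⟩⟩,⟨false,0,
  ⟨1,[(5,0),(0,0),(26,0)]⟩,⟨3,[(1,1),(2,1),(29,0),(0,0)]⟩⟩,⟨true,(-1),⟨0,[(2,0)]⟩,⟨27,[(6,3),(3,3),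
  (1,17),(14,4),(2,1),(3,0)]⟩⟩,⟨false,0,⟨0,[]⟩,⟨0,[]⟩⟩,⟨false,0,⟨0,[]⟩,⟨0,[]⟩⟩,[.o ⟨false,(-1),⟨0,
  [(2,0),(0,0),(29,0)]⟩,⟨0,[(1,0),(22,0),(2,0)]⟩⟩,.e ⟨false,0,⟨0,[(4,0),(28,1)]⟩,⟨3,[(1,1),(10,0),
  (0,0),(8,1),(11,0)]⟩⟩ ⟨false,0,⟨1,[(2,0),(1,0),(3,0),(1,0),(0,0),(21,0)]⟩,⟨2,[(0,0),(0,0),(4,0),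
  (5,0),(14,0)]⟩⟩,.a ⟨true,0,⟨1,[(13,0),(11,0),(0,0)]⟩,⟨0,[(8,0)]⟩⟩ ⟨false,0,⟨0,[(5,0),(27,0)]⟩,⟨0,
  [(1,0)]⟩⟩ ⟨true,(-1),⟨0,[(2,0),(1,0),(28,0)]⟩,⟨2,[(0,0),(0,0),(4,0),(5,0),(14,0)]⟩⟩,.o ⟨false,0,
  ⟨0,[(23,0)]⟩,⟨1,[(8,1),(18,0),(6,0)]⟩⟩]⟩) (.R ⟨0,false,false,true,[0,1,-1],[1,0,-1],[0,1,1,0,0,0,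
  0,-1],(⟨0,[(15,0)]⟩,⟨0,[(26,0),(1,0)]⟩),(⟨0,[(25,0)]⟩,⟨0,[(26,0)]⟩),⟨0,[(26,0)]⟩,.k,.k,.k,.k,.k,
  .k,⟨true,0,⟨1,[(23,0),(0,0)]⟩,⟨0,[]⟩⟩,⟨false,1,⟨13,[(6,3),(3,3),(1,3),(14,4),(2,1),(3,0)]⟩,⟨0,[(8,
  0),(11,0)]⟩⟩,⟨true,0,⟨0,[(32,0)]⟩,⟨0,[(33,0)]⟩⟩,⟨false,1,⟨27,[(6,3),(3,3),(1,17),(14,4),(2,1),(3,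
  0)]⟩,⟨0,[(2,0),(32,0)]⟩⟩,⟨false,0,⟨0,[]⟩,⟨0,[]⟩⟩,⟨false,0,⟨0,[]⟩,⟨0,[]⟩⟩,[.e ⟨false,0,⟨0,[(6,0),
  (24,0)]⟩,⟨3,[(0,0),(3,1),(5,0),(23,1),(0,0)]⟩⟩ ⟨false,1,⟨3,[(6,3),(5,1),(14,0),(2,1),(3,0)]⟩,⟨0,
  [(0,0),(0,0),(0,0),(1,0)]⟩⟩,.o ⟨false,1,⟨1,[(22,1),(4,0),(7,0)]⟩,⟨5,[(0,1),(1,0),(0,2),(9,0),(7,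
  0),(5,0)]⟩⟩,.a ⟨true,0,⟨0,[(8,1),(11,0)]⟩,⟨0,[(23,0)]⟩⟩ ⟨true,0,⟨0,[(22,0),(0,0)]⟩,⟨0,[(0,0),(30,
  0)]⟩⟩ ⟨false,1,⟨27,[(6,31),(3,3),(1,17),(14,4),(2,1),(3,0)]⟩,⟨0,[(0,0),(0,0),(0,0),(1,0)]⟩⟩,.o
  ⟨false,0,⟨0,[(8,0)]⟩,⟨27,[(6,3),(3,3),(1,3),(0,13),(13,18),(2,1),(3,0)]⟩⟩]⟩)) (.I [0,-1,0,0,0,0,0,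
  2] (.Q [0,-1,-1,0,0,0,0,1,0,1] (.pp false [-1,1]) (.I [1,0,-1,0,0,0,0,1] (.R ⟨0,false,false,true,
  [0,1,-1],[1,0,-1],[0,1,1,0,0,0,0,-1],(⟨0,[(17,0)]⟩,⟨0,[(28,0),(1,0)]⟩),(⟨0,[(27,0)]⟩,⟨0,[(28,
  0)]⟩),⟨0,[(28,0)]⟩,.k,.k,.k,.k,.k,.k,⟨true,0,⟨1,[(25,0),(0,0)]⟩,⟨0,[]⟩⟩,⟨false,1,⟨13,[(8,3),(3,3),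
  (1,3),(14,4),(2,1),(3,0)]⟩,⟨1,[(1,0),(20,0),(1,0)]⟩⟩,⟨true,0,⟨0,[(34,0)]⟩,⟨0,[(35,0)]⟩⟩,⟨false,1,
  ⟨27,[(8,3),(3,3),(1,17),(14,4),(2,1),(3,0)]⟩,⟨0,[(4,0),(32,0)]⟩⟩,⟨false,0,⟨0,[]⟩,⟨0,[]⟩⟩,⟨false,0,
  ⟨0,[]⟩,⟨0,[]⟩⟩,[.e ⟨false,0,⟨0,[(8,0),(24,0)]⟩,⟨6,[(1,0),(0,1),(9,1),(1,0),(21,2),(0,0)]⟩⟩ ⟨false,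
  1,⟨3,[(8,3),(5,1),(14,0),(2,1),(3,0)]⟩,⟨0,[(1,0)]⟩⟩,.o ⟨false,1,⟨1,[(24,1),(4,0),(7,0)]⟩,⟨18,[(2,
  4),(0,3),(1,3),(7,1),(1,5),(7,0),(5,3)]⟩⟩,.a ⟨true,0,⟨0,[(1,0),(22,0)]⟩,⟨0,[(25,0)]⟩⟩ ⟨true,0,⟨0,
  [(24,0),(0,0)]⟩,⟨0,[(0,0)]⟩⟩ ⟨false,1,⟨27,[(8,31),(3,3),(1,17),(14,4),(2,1),(3,0)]⟩,⟨0,[(1,0)]⟩⟩,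
  .o ⟨false,0,⟨0,[(10,0)]⟩,⟨27,[(8,3),(3,3),(1,3),(0,13),(13,18),(2,1),(3,0)]⟩⟩]⟩) (.R ⟨0,false,
  false,true,[0,1,-1],[1,0,-1],[1,0,1],(⟨0,[(17,0)]⟩,⟨0,[(28,0),(1,0)]⟩),(⟨0,[(27,0)]⟩,⟨0,[(28,
  0)]⟩),⟨0,[(28,0)]⟩,.k,.k,.k,.k,.k,.k,⟨true,0,⟨0,[(0,0),(1,0)]⟩,⟨4,[(0,3),(3,0),(8,0),(10,0),(4,0),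
  (2,0),(0,0)]⟩⟩,⟨false,1,⟨13,[(8,3),(3,3),(1,3),(14,4),(2,1),(3,0)]⟩,⟨1,[(1,0),(20,0),(1,0)]⟩⟩,
  ⟨true,0,⟨0,[(6,0)]⟩,⟨3,[(4,0),(3,2),(4,0),(10,0),(4,0),(2,0)]⟩⟩,⟨false,1,⟨27,[(8,3),(3,3),(1,17),
  (14,4),(2,1),(3,0)]⟩,⟨0,[(4,0),(32,0)]⟩⟩,⟨false,0,⟨0,[]⟩,⟨0,[]⟩⟩,⟨false,0,⟨0,[]⟩,⟨0,[]⟩⟩,[.e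
  ⟨false,0,⟨0,[]⟩,⟨5,[(12,1),(1,0),(0,0),(8,1),(11,2)]⟩⟩ ⟨false,1,⟨3,[(8,3),(5,1),(14,0),(2,1),(3,
  0)]⟩,⟨0,[(1,0)]⟩⟩,.o ⟨false,1,⟨1,[(24,1),(4,0),(7,0)]⟩,⟨18,[(2,4),(0,3),(1,3),(7,1),(1,5),(7,0),
  (5,3)]⟩⟩,.a ⟨true,0,⟨0,[(1,0),(22,0)]⟩,⟨0,[(25,0)]⟩⟩ ⟨true,0,⟨1,[(0,0),(6,0)]⟩,⟨3,[(4,0),(5,0),(2,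
  0),(15,0),(2,0),(0,0)]⟩⟩ ⟨false,1,⟨27,[(8,31),(3,3),(1,17),(14,4),(2,1),(3,0)]⟩,⟨0,[(1,0)]⟩⟩,.o
  ⟨false,0,⟨0,[(10,0)]⟩,⟨27,[(8,3),(3,3),(1,3),(0,13),(13,18),(2,1),(3,0)]⟩⟩]⟩)) (.R ⟨0,false,false,
  true,[0,1,-1],[1,0,-1],[0,1,1,0,0,0,0,-1],(⟨0,[(16,0)]⟩,⟨0,[(27,0),(1,0)]⟩),(⟨0,[(26,0)]⟩,⟨0,[(27,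
  0)]⟩),⟨0,[(27,0)]⟩,.k,.k,.k,.k,.k,.k,⟨true,0,⟨1,[(24,0),(0,0)]⟩,⟨0,[]⟩⟩,⟨false,1,⟨13,[(7,3),(3,3),
  (1,3),(14,4),(2,1),(3,0)]⟩,⟨0,[(9,0),(11,0)]⟩⟩,⟨true,0,⟨0,[(33,0)]⟩,⟨0,[(34,0)]⟩⟩,⟨false,1,⟨27,
  [(7,3),(3,3),(1,17),(14,4),(2,1),(3,0)]⟩,⟨0,[(3,0),(32,0)]⟩⟩,⟨false,0,⟨0,[]⟩,⟨0,[]⟩⟩,⟨false,0,⟨0,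
  []⟩,⟨0,[]⟩⟩,[.a ⟨true,0,⟨0,[(23,0)]⟩,⟨0,[(3,0),(0,0),(31,0)]⟩⟩ ⟨false,0,⟨4,[(0,1),(11,0),(1,0),(8,
  2)]⟩,⟨3,[(1,0),(3,0),(5,0),(23,1),(0,0)]⟩⟩ ⟨true,0,⟨0,[(0,0)]⟩,⟨0,[(3,0),(1,0),(30,0)]⟩⟩,.o
  ⟨false,1,⟨1,[(23,1),(4,0),(7,0)]⟩,⟨18,[(1,4),(0,3),(1,3),(7,1),(1,5),(7,0),(5,3)]⟩⟩,.e ⟨true,0,⟨0,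
  [(23,0),(0,0)]⟩,⟨0,[(0,0),(0,0),(7,0),(2,0)]⟩⟩ ⟨true,0,⟨0,[(0,0)]⟩,⟨5,[(1,0),(1,1),(1,2),(3,3),(1,
  0),(9,3),(13,0)]⟩⟩,.o ⟨false,0,⟨0,[(9,0)]⟩,⟨27,[(7,3),(3,3),(1,3),(0,13),(13,18),(2,1),(3,
  0)]⟩⟩]⟩)) (.R ⟨0,false,false,true,[-1,1,1],[0,1,-1],[1,1,1,1,0,0,0,-1],(⟨0,[(14,0)]⟩,⟨0,[(25,0),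
  (2,0)]⟩),(⟨0,[(15,0)]⟩,⟨0,[(26,0),(1,0)]⟩),⟨0,[(25,0)]⟩,.k,.k,.k,.k,.k,.k,⟨true,0,⟨0,[]⟩,⟨1,[(23,
  0),(0,0)]⟩⟩,⟨false,1,⟨1,[(8,3),(18,0),(6,0)]⟩,⟨0,[(13,0)]⟩⟩,⟨true,0,⟨0,[(0,0)]⟩,⟨5,[(1,3),(2,5),
  (3,1),(1,1),(0,1),(15,0),(7,0)]⟩⟩,⟨false,1,⟨1,[(0,1),(7,3),(18,0),(7,0)]⟩,⟨8,[(1,5),(0,3),(0,10),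
  (6,0),(0,2),(1,1),(21,8)]⟩⟩,⟨false,0,⟨0,[]⟩,⟨0,[]⟩⟩,⟨false,0,⟨0,[]⟩,⟨0,[]⟩⟩,[.o ⟨false,0,⟨0,[(22,
  0),(10,0)]⟩,⟨1,[(3,1),(23,0),(7,0)]⟩⟩,.a ⟨true,0,⟨0,[(2,0),(19,0),(12,0)]⟩,⟨0,[(3,0)]⟩⟩ ⟨true,0,
  ⟨0,[(9,0)]⟩,⟨0,[(4,0)]⟩⟩ ⟨false,1,⟨1,[(8,1),(13,1),(4,0),(5,1),(1,0)]⟩,⟨0,[(3,0),(16,0)]⟩⟩,.o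
  ⟨false,0,⟨0,[(20,0)]⟩,⟨0,[(24,0),(2,0)]⟩⟩,.o ⟨false,0,⟨1,[(13,0),(11,0),(0,0)]⟩,⟨0,[(8,0),(18,
  0)]⟩⟩]⟩))))))) (.N [0,-1,1] 0 ⟨0,[(0,0)]⟩ ⟨0,[(3,0)]⟩ .k))) (.I [0,0,-1,-1,1,0,0,1] (.Q [0,-1,0,1,
  0,0,-1,-1,0,0,1] (.p true [0,0,1] [] (⟨0,[(19,0)]⟩,⟨0,[(18,0)]⟩) .k 0 (⟨0,[]⟩,⟨0,[]⟩) .k .k) (.Q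
  [0,-1,-1,-1,1,0,-1,0,0,0,1] (.p true [0,0,1] [] (⟨0,[(20,0)]⟩,⟨0,[(19,0)]⟩) .k 0 (⟨0,[]⟩,⟨0,[]⟩)
  .k .k) (.R ⟨0,false,false,true,[0,1,-1],[0,1],[1,1],(⟨0,[(10,0)]⟩,⟨0,[(21,0),(1,0)]⟩),(⟨0,[(24,
  0)]⟩,⟨0,[(23,0)]⟩),⟨0,[(21,0)]⟩,.k,.k,.k,.k,.k,.k,⟨false,1,⟨3,[(0,0),(5,0),(0,0),(18,0),(2,1)]⟩,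
  ⟨1,[(18,0),(0,0),(8,1)]⟩⟩,⟨true,0,⟨0,[(3,0)]⟩,⟨0,[(19,0)]⟩⟩,⟨false,1,⟨0,[(2,0)]⟩,⟨0,[(1,0),(16,
  0)]⟩⟩,⟨true,0,⟨0,[(16,0)]⟩,⟨0,[(1,0),(25,0)]⟩⟩,⟨false,0,⟨0,[]⟩,⟨0,[]⟩⟩,⟨false,0,⟨0,[]⟩,⟨0,[]⟩⟩,
  [.e ⟨false,0,⟨0,[(26,0),(1,0)]⟩,⟨5,[(5,1),(1,0),(0,0),(8,1),(12,2)]⟩⟩ ⟨false,0,⟨2,[(3,1),(0,0),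
  (11,0),(8,0),(2,1)]⟩,⟨0,[(0,0)]⟩⟩,.o ⟨false,0,⟨0,[(28,0)]⟩,⟨11,[(5,1),(1,6),(0,0),(8,1),(4,2)]⟩⟩,
  .e ⟨false,0,⟨0,[]⟩,⟨5,[(5,1),(1,0),(0,0),(8,1),(12,2)]⟩⟩ ⟨false,0,⟨0,[(18,0),(9,0)]⟩,⟨0,[(0,0)]⟩⟩,
  .a ⟨true,0,⟨0,[(6,0),(12,1)]⟩,⟨0,[(3,0)]⟩⟩ ⟨true,0,⟨0,[(26,0),(1,0)]⟩,⟨1,[(18,0),(0,0)]⟩⟩ ⟨false,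
  0,⟨0,[(3,0),(24,0)]⟩,⟨5,[(0,3),(6,0),(0,0),(10,3),(10,0)]⟩⟩]⟩) (.Q [0,0,-1,0,0,0,-1,0,0,1,1] (.p
  true [1,-1,1] [] (⟨0,[(21,0),(1,0)]⟩,⟨0,[(10,0)]⟩) .k 0 (⟨0,[]⟩,⟨0,[]⟩) .k .k) (.R ⟨0,false,false,
  true,[0,1,-1],[0,1],[1,1],(⟨0,[(11,0)]⟩,⟨0,[(22,0),(1,0)]⟩),(⟨0,[(25,0)]⟩,⟨0,[(24,0)]⟩),⟨0,[(22,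
  0)]⟩,.k,.k,.k,.k,.k,.k,⟨false,1,⟨3,[(0,1),(6,1),(0,1),(14,0),(6,0)]⟩,⟨2,[(1,0),(3,0),(0,0),(13,
  0)]⟩⟩,⟨true,0,⟨0,[(4,0)]⟩,⟨0,[(20,0)]⟩⟩,⟨false,1,⟨0,[(3,0)]⟩,⟨0,[(2,0),(16,0)]⟩⟩,⟨true,0,⟨0,[(17,
  0)]⟩,⟨0,[(2,0),(25,0)]⟩⟩,⟨false,0,⟨0,[]⟩,⟨0,[]⟩⟩,⟨false,0,⟨0,[]⟩,⟨0,[]⟩⟩,[.a ⟨true,(-1),⟨0,[(0,0),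
  (0,0)]⟩,⟨3,[(0,0),(7,1),(0,0),(10,0),(10,1)]⟩⟩ ⟨false,0,⟨5,[(0,2),(0,1),(5,0),(15,1),(2,0),(0,
  1)]⟩,⟨5,[(6,1),(1,0),(0,0),(8,1),(12,2)]⟩⟩ ⟨true,(-1),⟨0,[(1,0)]⟩,⟨1,[(0,0),(7,0),(11,0),(10,
  0)]⟩⟩,.o ⟨false,0,⟨0,[(29,0)]⟩,⟨11,[(6,1),(1,6),(0,0),(8,1),(4,2)]⟩⟩,.a ⟨true,0,⟨0,[(0,0)]⟩,⟨0,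
  [(19,0)]⟩⟩ ⟨false,0,⟨0,[]⟩,⟨5,[(6,1),(1,0),(0,0),(8,1),(12,2)]⟩⟩ ⟨true,(-1),⟨0,[(1,0)]⟩,⟨2,[(0,0),
  (1,0),(0,1),(4,0),(9,0)]⟩⟩,.a ⟨true,0,⟨3,[(0,2),(8,0),(10,2)]⟩,⟨0,[(4,0)]⟩⟩ ⟨true,0,⟨5,[(0,2),(0,
  1),(5,0),(15,1),(2,0),(0,1)]⟩,⟨1,[(19,0),(0,0)]⟩⟩ ⟨false,0,⟨3,[(1,1),(0,0),(3,0),(0,0),(1,0),(13,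
  0)]⟩,⟨1,[(0,0),(7,0),(11,0),(10,0)]⟩⟩]⟩) (.R ⟨0,false,false,true,[1,-1],[1,-1,1],[0,1],(⟨0,[(24,
  0)]⟩,⟨0,[(25,0)]⟩),(⟨0,[(22,0),(1,0)]⟩,⟨0,[(11,0)]⟩),⟨0,[(10,0),(0,0)]⟩,.k,.k,(.r (-1) ⟨0,[(27,1),
  (3,0)]⟩ ⟨2,[(1,1),(3,1),(0,1),(13,1)]⟩),.k,.k,.k,⟨false,0,⟨5,[(1,0),(0,1),(2,2),(1,1),(10,0),(4,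
  0)]⟩,⟨0,[(3,0)]⟩⟩,⟨true,0,⟨0,[(4,0)]⟩,⟨0,[(20,0)]⟩⟩,⟨false,0,⟨2,[(1,0),(3,0),(0,0),(13,0)]⟩,⟨0,
  [(27,0),(3,0)]⟩⟩,⟨true,0,⟨0,[(17,0)]⟩,⟨0,[(2,0),(25,0)]⟩⟩,⟨false,0,⟨0,[]⟩,⟨0,[]⟩⟩,⟨false,0,⟨0,[]⟩,
  ⟨0,[]⟩⟩,[.o ⟨false,1,⟨4,[(6,0),(1,2),(8,3),(1,0),(3,0),(2,0)]⟩,⟨0,[(2,0)]⟩⟩,.o ⟨false,1,⟨0,[(0,0),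
  (2,0)]⟩,⟨1,[(2,0),(15,0),(10,0)]⟩⟩,.a ⟨true,0,⟨1,[(19,0),(0,0)]⟩,⟨0,[(7,0),(12,0)]⟩⟩ ⟨true,0,⟨0,
  [(33,0)]⟩,⟨0,[]⟩⟩ ⟨false,1,⟨4,[(0,1),(2,4),(3,0),(1,0)]⟩,⟨1,[(2,1),(16,0),(0,0)]⟩⟩,.o ⟨false,0,⟨0,
  [(0,0),(19,0)]⟩,⟨0,[(30,0)]⟩⟩]⟩))) (.I [0,0,1,1,0,0,0,-1] (.Q [0,0,0,0,0,0,-1,-1,0,0,1] (.p true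
  [0,0,1] [] (⟨0,[(21,0)]⟩,⟨0,[(20,0)]⟩) .k 0 (⟨0,[]⟩,⟨0,[]⟩) .k .k) (.Q [0,-1,-2,-1,1,0,1,1,0,0,
  -1] (.p false [0,0,1] [] (⟨0,[(22,0)]⟩,⟨0,[(21,0)]⟩) .k 0 (⟨0,[]⟩,⟨0,[]⟩) .k .k) (.R ⟨0,false,
  false,false,[1,-1],[1,-1,1],[1],(⟨0,[(25,0)]⟩,⟨0,[(26,0)]⟩),(⟨0,[(23,0),(1,0)]⟩,⟨0,[(12,0)]⟩),⟨0,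
  [(11,0),(0,0)]⟩,.k,.k,(.r (-1) ⟨0,[(0,0),(0,0),(27,0)]⟩ ⟨0,[(20,0),(0,0),(8,1)]⟩),.k,.k,.k,⟨false,
  0,⟨0,[(1,0),(3,0),(24,0)]⟩,⟨0,[(4,0)]⟩⟩,⟨true,0,⟨0,[(5,0)]⟩,⟨0,[(21,0)]⟩⟩,⟨true,0,⟨1,[(20,0),(0,
  0),(8,1)]⟩,⟨0,[(28,0)]⟩⟩,⟨false,1,⟨3,[(0,0),(2,0),(3,1),(12,1),(11,0)]⟩,⟨0,[(1,0)]⟩⟩,⟨false,0,⟨0,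
  []⟩,⟨0,[]⟩⟩,⟨false,0,⟨0,[]⟩,⟨0,[]⟩⟩,[.o ⟨false,1,⟨1,[(3,1),(20,0),(7,0)]⟩,⟨0,[(1,0),(28,0)]⟩⟩,.e
  ⟨false,1,⟨1,[(31,0),(0,0)]⟩,⟨0,[(34,0)]⟩⟩ ⟨false,1,⟨0,[(0,0)]⟩,⟨2,[(2,1),(16,0),(1,1),(5,0),(2,
  0)]⟩⟩,.a ⟨true,0,⟨1,[(20,0),(0,0)]⟩,⟨0,[(8,0),(12,0)]⟩⟩ ⟨true,0,⟨0,[]⟩,⟨0,[(34,0)]⟩⟩ ⟨false,1,⟨1,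
  [(0,0),(2,0),(28,0)]⟩,⟨1,[(1,0),(0,0),(18,0),(8,0)]⟩⟩,.e ⟨false,1,⟨1,[(31,0),(0,0)]⟩,⟨1,[(20,0),
  (0,0)]⟩⟩ ⟨false,1,⟨0,[(0,0)]⟩,⟨0,[(2,0),(18,0)]⟩⟩]⟩) (.Q [0,0,2,0,0,0,0,0,0,-1] (.pp true [-1,1])
  (.Q [0,-1,1,1,0,0,-1,-1,0,0,1] (.p true [0,0,1] [] (⟨0,[(24,0)]⟩,⟨0,[(23,0)]⟩) .k 0 (⟨0,[]⟩,⟨0,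
  []⟩) .k .k) (.R ⟨0,false,false,true,[1,-1],[1,-1,1],[0,1],(⟨0,[(27,0)]⟩,⟨0,[(28,0)]⟩),(⟨0,[(25,0),
  (1,0)]⟩,⟨0,[(14,0)]⟩),⟨0,[(13,0),(0,0)]⟩,.k,.k,(.r (-1) ⟨0,[(30,1),(3,0)]⟩ ⟨2,[(1,0),(0,1),(6,1),
  (2,0),(19,1)]⟩),.k,.k,.k,⟨false,0,⟨2,[(0,0),(1,0),(1,0),(5,1),(15,0)]⟩,⟨0,[(6,0)]⟩⟩,⟨true,0,⟨0,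
  [(7,0)]⟩,⟨0,[(23,0)]⟩⟩,⟨false,0,⟨5,[(1,0),(0,1),(6,1),(2,0),(19,1)]⟩,⟨0,[(30,0),(3,0)]⟩⟩,⟨true,0,
  ⟨0,[(20,0)]⟩,⟨0,[(3,0)]⟩⟩,⟨false,0,⟨0,[]⟩,⟨0,[]⟩⟩,⟨false,0,⟨0,[]⟩,⟨0,[]⟩⟩,[.e ⟨false,0,⟨0,[(30,0),
  (1,0)]⟩,⟨5,[(9,1),(1,0),(0,0),(8,1),(12,2)]⟩⟩ ⟨false,1,⟨16,[(5,4),(0,11),(3,7),(1,1),(13,4),(2,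
  5)]⟩,⟨0,[(0,0)]⟩⟩,.o ⟨false,1,⟨1,[(5,1),(20,0),(7,0)]⟩,⟨0,[(3,0),(28,0)]⟩⟩,.a ⟨true,0,⟨3,[(1,0),
  (10,0),(10,1)]⟩,⟨0,[(10,0),(12,0)]⟩⟩ ⟨true,0,⟨0,[(36,0)]⟩,⟨0,[]⟩⟩ ⟨false,1,⟨4,[(5,1),(0,2),(3,0),
  (1,0),(13,0),(7,0)]⟩,⟨0,[(0,0)]⟩⟩,.o ⟨false,0,⟨0,[(1,0)]⟩,⟨0,[(33,0)]⟩⟩]⟩) (.Q [0,1,0,1,-1,0,-1,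
  -1,0,1,1] (.p true [1,-1,1] [] (⟨0,[(25,0),(1,0)]⟩,⟨0,[(14,0)]⟩) .k 0 (⟨0,[]⟩,⟨0,[]⟩) .k .k) (.R
  ⟨0,false,false,true,[1,-1],[1,-1,1],[0,1],(⟨0,[(28,0)]⟩,⟨0,[(29,0)]⟩),(⟨0,[(26,0),(1,0)]⟩,⟨0,[(15,
  0)]⟩),⟨0,[(14,0),(0,0)]⟩,.k,.k,(.r (-1) ⟨0,[(31,1),(3,0)]⟩ ⟨2,[(2,0),(0,1),(6,1),(2,0),(19,1)]⟩),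
  .k,.k,.k,⟨false,0,⟨1,[(0,1),(7,1),(18,0),(7,0)]⟩,⟨0,[(7,0)]⟩⟩,⟨true,0,⟨0,[(8,0)]⟩,⟨0,[(24,0)]⟩⟩,
  ⟨false,0,⟨5,[(2,0),(0,1),(6,1),(2,0),(19,1)]⟩,⟨0,[(31,0),(3,0)]⟩⟩,⟨true,0,⟨0,[(21,0)]⟩,⟨0,[(4,
  0)]⟩⟩,⟨false,0,⟨0,[]⟩,⟨0,[]⟩⟩,⟨false,0,⟨0,[]⟩,⟨0,[]⟩⟩,[.a ⟨true,0,⟨0,[(6,0)]⟩,⟨0,[(0,0),(34,0)]⟩⟩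
  ⟨false,0,⟨3,[(0,1),(0,1),(25,0),(6,0)]⟩,⟨5,[(10,1),(1,0),(0,0),(8,1),(12,2)]⟩⟩ ⟨true,0,⟨0,[(1,
  0)]⟩,⟨0,[(3,0),(31,0)]⟩⟩,.o ⟨false,1,⟨1,[(6,1),(20,0),(7,0)]⟩,⟨1,[(0,1),(26,0),(7,0)]⟩⟩,.e ⟨true,
  0,⟨0,[(37,0)]⟩,⟨0,[]⟩⟩ ⟨true,0,⟨0,[(1,0)]⟩,⟨2,[(3,0),(0,1),(0,0),(4,0)]⟩⟩,.o ⟨false,0,⟨0,[(2,0)]⟩,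
  ⟨0,[(34,0)]⟩⟩]⟩) (.R ⟨0,false,false,false,[1,-1],[1,-1,1],[1],(⟨0,[(28,0)]⟩,⟨0,[(29,0)]⟩),(⟨0,
  [(26,0),(1,0)]⟩,⟨0,[(15,0)]⟩),⟨0,[(14,0),(0,0)]⟩,.k,.k,(.r (-1) ⟨0,[(31,1),(3,0)]⟩ ⟨2,[(2,0),(0,
  1),(6,1),(2,0),(19,1)]⟩),.k,.k,.k,⟨false,0,⟨1,[(3,1),(7,1),(15,0),(7,0)]⟩,⟨0,[(7,0)]⟩⟩,⟨true,0,⟨0,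
  [(8,0)]⟩,⟨0,[(24,0)]⟩⟩,⟨true,0,⟨5,[(2,0),(0,1),(6,1),(2,0),(19,1)]⟩,⟨0,[(31,0)]⟩⟩,⟨false,1,⟨3,[(0,
  0),(5,0),(3,1),(2,0),(21,0)]⟩,⟨0,[(4,0)]⟩⟩,⟨false,0,⟨0,[]⟩,⟨0,[]⟩⟩,⟨false,0,⟨0,[]⟩,⟨0,[]⟩⟩,[.o
  ⟨false,1,⟨19,[(0,7),(9,1),(1,6),(0,0),(7,9),(5,2)]⟩,⟨0,[(4,0),(28,0)]⟩⟩,.o ⟨false,1,⟨0,[(0,0)]⟩,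
  ⟨0,[(22,0),(10,0)]⟩⟩,.a ⟨true,0,⟨3,[(2,0),(10,0),(10,1)]⟩,⟨0,[(11,0),(12,0)]⟩⟩ ⟨true,0,⟨0,[]⟩,⟨0,
  [(37,0)]⟩⟩ ⟨false,1,⟨0,[(1,0),(33,0)]⟩,⟨2,[(3,0),(0,1),(0,0),(4,0)]⟩⟩,.o ⟨false,0,⟨0,[(2,0)]⟩,⟨0,
  [(34,0)]⟩⟩]⟩))) (.Q [0,-1,-1,-1,1,0,1,1,0,0,-1] (.p false [0,0,1] [] (⟨0,[(24,0)]⟩,⟨0,[(23,0)]⟩)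
  .k 0 (⟨0,[]⟩,⟨0,[]⟩) .k .k) (.R ⟨0,false,false,false,[1,-1],[1,-1,1],[1],(⟨0,[(27,0)]⟩,⟨0,[(28,
  0)]⟩),(⟨0,[(25,0),(1,0)]⟩,⟨0,[(14,0)]⟩),⟨0,[(13,0),(0,0)]⟩,.k,.k,(.r (-1) ⟨0,[(1,0),(9,0)]⟩ ⟨2,
  [(2,1),(6,1),(12,1),(9,1)]⟩),.k,.k,.k,⟨false,0,⟨1,[(2,1),(7,1),(15,0),(7,0)]⟩,⟨0,[(6,0)]⟩⟩,⟨true,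
  0,⟨0,[(7,0)]⟩,⟨0,[(23,0)]⟩⟩,⟨true,0,⟨2,[(2,0),(6,0),(12,0),(9,0)]⟩,⟨0,[(30,0)]⟩⟩,⟨false,1,⟨1,[(0,
  0),(8,0),(12,0)]⟩,⟨0,[(3,0)]⟩⟩,⟨false,0,⟨0,[]⟩,⟨0,[]⟩⟩,⟨false,0,⟨0,[]⟩,⟨0,[]⟩⟩,[.o ⟨false,1,⟨1,
  [(5,1),(20,0),(7,0)]⟩,⟨0,[(3,0),(28,0)]⟩⟩,.a ⟨true,1,⟨0,[(5,0),(28,0)]⟩,⟨0,[(1,0),(0,0)]⟩⟩ ⟨false,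
  1,⟨1,[(33,0),(0,0)]⟩,⟨0,[(36,0)]⟩⟩ ⟨true,1,⟨0,[(0,0)]⟩,⟨0,[(2,0)]⟩⟩,.a ⟨true,0,⟨1,[(22,0),(0,0)]⟩,
  ⟨1,[(1,0),(22,0),(0,0)]⟩⟩ ⟨true,0,⟨0,[]⟩,⟨0,[(36,0)]⟩⟩ ⟨false,1,⟨0,[(0,0)]⟩,⟨2,[(2,0),(0,1),(0,0),
  (4,0)]⟩⟩,.a ⟨true,0,⟨0,[(22,0),(0,0)]⟩,⟨0,[(1,0)]⟩⟩ ⟨false,1,⟨1,[(33,0),(0,0)]⟩,⟨1,[(22,0),(0,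
  0)]⟩⟩ ⟨true,1,⟨2,[(0,0),(0,0),(3,0),(0,0),(3,0),(15,0)]⟩,⟨0,[(2,0)]⟩⟩]⟩) (.R ⟨0,false,false,false,
  [1,-1],[1,-1,1],[1],(⟨0,[(27,0)]⟩,⟨0,[(28,0)]⟩),(⟨0,[(25,0),(1,0)]⟩,⟨0,[(14,0)]⟩),⟨0,[(13,0),(0,
  0)]⟩,.k,.k,(.r (-1) ⟨0,[(1,0),(9,0)]⟩ ⟨2,[(2,1),(6,1),(12,1),(9,1)]⟩),.k,.k,.k,⟨false,0,⟨3,[(0,1),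
  (3,1),(5,1),(15,0),(7,0)]⟩,⟨0,[(6,0)]⟩⟩,⟨true,0,⟨0,[(7,0)]⟩,⟨0,[(23,0)]⟩⟩,⟨true,0,⟨2,[(2,0),(6,0),
  (12,0),(9,0)]⟩,⟨0,[(30,0)]⟩⟩,⟨false,1,⟨1,[(5,0),(1,0),(1,0),(24,0)]⟩,⟨0,[(3,0)]⟩⟩,⟨false,0,⟨0,[]⟩,
  ⟨0,[]⟩⟩,⟨false,0,⟨0,[]⟩,⟨0,[]⟩⟩,[.o ⟨false,1,⟨1,[(5,1),(20,0),(7,0)]⟩,⟨1,[(0,1),(32,0),(0,0)]⟩⟩,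
  .e ⟨false,1,⟨1,[(33,0),(0,0)]⟩,⟨0,[(36,0)]⟩⟩ ⟨false,2,⟨5,[(6,5),(3,1),(1,1),(13,1),(6,0),(0,2)]⟩,
  ⟨0,[(0,0)]⟩⟩,.e ⟨true,0,⟨0,[]⟩,⟨0,[(36,0)]⟩⟩ ⟨true,1,⟨4,[(5,1),(0,2),(3,0),(1,0),(13,0),(7,0)]⟩,
  ⟨0,[(0,0)]⟩⟩,.a ⟨true,0,⟨0,[(22,0),(0,0)]⟩,⟨0,[(1,0)]⟩⟩ ⟨false,1,⟨1,[(33,0),(0,0)]⟩,⟨1,[(22,0),(0,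
  0)]⟩⟩ ⟨true,1,⟨1,[(1,1),(3,1),(20,0),(7,0)]⟩,⟨0,[(2,0)]⟩⟩]⟩)))) (.Q [0,0,1,-1,0,0,0,-1,0,-1] (.pp
  true [-1,1]) (.Q [0,-1,0,1,0,0,0,0,0,1] (.pp false [-1,1]) (.R ⟨0,false,false,false,[0,1,-1],[0,
  1],[1,0,1],(⟨0,[(13,0)]⟩,⟨0,[(24,0),(1,0)]⟩),(⟨0,[(27,0)]⟩,⟨0,[(26,0)]⟩),⟨0,[(24,0)]⟩,.k,.k,.k,.k,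
  .k,.k,⟨false,1,⟨5,[(5,1),(4,1),(7,1),(1,1),(11,0),(0,0)]⟩,⟨0,[(31,0)]⟩⟩,⟨true,0,⟨0,[(6,0)]⟩,⟨0,
  [(22,0)]⟩⟩,⟨false,1,⟨0,[(2,0),(19,0),(6,0),(3,0)]⟩,⟨2,[(0,0),(0,1),(7,0),(10,0),(10,3)]⟩⟩,⟨true,0,
  ⟨0,[(2,0)]⟩,⟨0,[(20,0)]⟩⟩,⟨false,0,⟨0,[]⟩,⟨0,[]⟩⟩,⟨false,0,⟨0,[]⟩,⟨0,[]⟩⟩,[.o ⟨false,0,⟨0,[(31,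
  0)]⟩,⟨27,[(3,3),(4,3),(1,17),(14,4),(2,1),(3,0)]⟩⟩,.a ⟨true,0,⟨0,[(0,0)]⟩,⟨0,[(30,0)]⟩⟩ ⟨false,1,
  ⟨5,[(8,1),(1,0),(0,0),(8,1),(12,2)]⟩,⟨0,[(29,0),(1,0)]⟩⟩ ⟨true,0,⟨0,[(0,0),(0,0),(0,0),(28,0)]⟩,
  ⟨0,[(22,0),(6,0)]⟩⟩,.o ⟨false,1,⟨0,[(22,0),(9,0)]⟩,⟨0,[(1,0),(0,0),(28,0)]⟩⟩,.e ⟨true,0,⟨0,[]⟩,⟨0,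
  [(35,0)]⟩⟩ ⟨true,0,⟨0,[(6,0),(24,0)]⟩,⟨0,[(22,0),(6,0)]⟩⟩]⟩) (.R ⟨0,false,false,false,[0,1,-1],[0,
  1],[0,0,1],(⟨0,[(13,0)]⟩,⟨0,[(24,0),(1,0)]⟩),(⟨0,[(27,0)]⟩,⟨0,[(26,0)]⟩),⟨0,[(24,0)]⟩,.k,.k,.k,.k,
  .k,.k,⟨false,1,⟨5,[(5,1),(4,1),(7,1),(1,1),(11,0),(0,0)]⟩,⟨0,[(31,0)]⟩⟩,⟨true,0,⟨0,[(6,0)]⟩,⟨0,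
  [(22,0)]⟩⟩,⟨false,1,⟨0,[(2,0),(19,0),(6,0),(3,0)]⟩,⟨0,[(1,0),(7,0),(12,0),(8,1)]⟩⟩,⟨true,0,⟨0,[(2,
  0)]⟩,⟨0,[(20,0)]⟩⟩,⟨false,0,⟨0,[]⟩,⟨0,[]⟩⟩,⟨false,0,⟨0,[]⟩,⟨0,[]⟩⟩,[.o ⟨false,0,⟨0,[(31,0)]⟩,⟨27,
  [(3,3),(4,3),(1,17),(14,4),(2,1),(3,0)]⟩⟩,.o ⟨false,1,⟨3,[(3,1),(4,1),(23,0),(0,0)]⟩,⟨0,[(0,0)]⟩⟩,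
  .o ⟨false,1,⟨0,[(22,0),(9,0)]⟩,⟨0,[(1,0),(0,0),(28,0)]⟩⟩,.a ⟨true,0,⟨0,[(9,0),(12,1)]⟩,⟨0,[(6,
  0)]⟩⟩ ⟨false,1,⟨5,[(8,1),(1,0),(0,0),(8,1),(12,2)]⟩,⟨0,[]⟩⟩ ⟨true,0,⟨0,[(6,0),(24,0)]⟩,⟨0,[(22,0),
  (6,0)]⟩⟩]⟩)) (.Q [0,-1,1,1,0,0,1,0,0,0,-1] (.p false [0,0,1] [] (⟨0,[(23,0)]⟩,⟨0,[(22,0)]⟩) .k 0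
  (⟨0,[]⟩,⟨0,[]⟩) .k .k) (.Q [0,0,-1,0,0,0,-1,0,0,1,1] (.p true [1,-1,1] [] (⟨0,[(24,0),(1,0)]⟩,⟨0,
  [(13,0)]⟩) .k 0 (⟨0,[]⟩,⟨0,[]⟩) .k .k) (.Q [0,0,0,1,0,0,-1,-1,0,0,1] (.p true [0,0,1] [] (⟨0,[(25,
  0)]⟩,⟨0,[(24,0)]⟩) .k 0 (⟨0,[]⟩,⟨0,[]⟩) .k .k) (.R ⟨0,false,false,false,[0,1,-1],[0,1],[0,0,1],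
  (⟨0,[(15,0)]⟩,⟨0,[(26,0),(1,0)]⟩),(⟨0,[(29,0)]⟩,⟨0,[(28,0)]⟩),⟨0,[(26,0)]⟩,.k,.k,.k,.k,.k,.k,
  ⟨false,1,⟨5,[(7,1),(4,1),(7,1),(1,1),(11,0),(0,0)]⟩,⟨0,[(33,0)]⟩⟩,⟨true,0,⟨0,[(8,0)]⟩,⟨0,[(24,
  0)]⟩⟩,⟨false,1,⟨1,[(1,0),(2,1),(7,0),(11,0),(10,0)]⟩,⟨0,[(0,0),(7,0)]⟩⟩,⟨true,0,⟨0,[(4,0)]⟩,⟨0,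
  [(22,0)]⟩⟩,⟨false,0,⟨0,[]⟩,⟨0,[]⟩⟩,⟨false,0,⟨0,[]⟩,⟨0,[]⟩⟩,[.o ⟨false,0,⟨0,[(33,0)]⟩,⟨27,[(5,3),
  (4,3),(1,17),(14,4),(2,1),(3,0)]⟩⟩,.a ⟨true,0,⟨0,[(1,0),(0,0)]⟩,⟨0,[(32,0)]⟩⟩ ⟨false,1,⟨5,[(10,1),
  (1,0),(0,0),(8,1),(12,2)]⟩,⟨0,[(31,0),(1,0)]⟩⟩ ⟨true,0,⟨0,[(2,0)]⟩,⟨0,[(24,0),(6,0)]⟩⟩,.a ⟨true,0,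
  ⟨0,[(1,0)]⟩,⟨0,[(23,0)]⟩⟩ ⟨true,0,⟨1,[(23,0),(0,0)]⟩,⟨0,[(31,0),(1,0)]⟩⟩ ⟨false,0,⟨0,[(2,0)]⟩,⟨1,
  [(0,0),(0,0),(5,0),(4,0)]⟩⟩,.a ⟨true,0,⟨3,[(1,2),(11,0),(10,2)]⟩,⟨0,[(8,0)]⟩⟩ ⟨false,1,⟨5,[(10,1),
  (1,0),(0,0),(8,1),(12,2)]⟩,⟨0,[]⟩⟩ ⟨true,0,⟨0,[(8,0),(24,0)]⟩,⟨0,[(24,0),(6,0)]⟩⟩]⟩) (.R ⟨0,false,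
  false,false,[0,1,-1],[0,1],[1],(⟨0,[(15,0)]⟩,⟨0,[(26,0),(1,0)]⟩),(⟨0,[(29,0)]⟩,⟨0,[(28,0)]⟩),⟨0,
  [(26,0)]⟩,.k,.k,.k,.k,.k,.k,⟨false,1,⟨3,[(1,1),(9,1),(0,1),(14,0),(6,0)]⟩,⟨3,[(2,0),(2,0),(15,0),
  (2,1),(8,1)]⟩⟩,⟨true,0,⟨0,[(8,0)]⟩,⟨0,[(24,0)]⟩⟩,⟨false,1,⟨1,[(0,1),(0,1),(25,0),(7,0)]⟩,⟨0,[(5,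
  0)]⟩⟩,⟨true,0,⟨0,[(4,0)]⟩,⟨0,[(22,0)]⟩⟩,⟨false,0,⟨0,[]⟩,⟨0,[]⟩⟩,⟨false,0,⟨0,[]⟩,⟨0,[]⟩⟩,[.o
  ⟨false,0,⟨0,[(33,0)]⟩,⟨27,[(5,3),(4,3),(1,17),(14,4),(2,1),(3,0)]⟩⟩,.a ⟨true,0,⟨0,[(1,0),(0,0)]⟩,
  ⟨0,[(32,0)]⟩⟩ ⟨false,1,⟨1,[(34,0),(0,0)]⟩,⟨0,[(37,0)]⟩⟩ ⟨true,0,⟨0,[(2,0)]⟩,⟨0,[(24,0),(6,0)]⟩⟩,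
  .a ⟨true,0,⟨0,[(1,0)]⟩,⟨0,[(23,0)]⟩⟩ ⟨true,0,⟨0,[]⟩,⟨0,[(37,0)]⟩⟩ ⟨false,0,⟨0,[(2,0)]⟩,⟨5,[(1,3),
  (5,1),(4,1),(9,1),(4,0),(7,0)]⟩⟩,.a ⟨true,0,⟨3,[(1,2),(11,0),(10,2)]⟩,⟨0,[(8,0)]⟩⟩ ⟨false,1,⟨1,
  [(34,0),(0,0)]⟩,⟨1,[(23,0),(0,0)]⟩⟩ ⟨true,0,⟨0,[(8,0),(24,0)]⟩,⟨0,[(24,0),(6,0)]⟩⟩]⟩)) (.I [1,1,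
  -1,-1,0,0,0,1] (.Q [0,0,-1,-1,0,0,1,1,0,0,-1] (.p false [0,0,1] [] (⟨0,[(26,0)]⟩,⟨0,[(25,0)]⟩) .k
  0 (⟨0,[]⟩,⟨0,[]⟩) .k .k) (.Q [0,-1,0,-1,1,0,0,0,0,-1] (.pp true [-1,1]) (.R ⟨0,false,false,true,
  [0,1,-1],[0,1],[1,1],(⟨0,[(17,0)]⟩,⟨0,[(28,0),(1,0)]⟩),(⟨0,[(31,0)]⟩,⟨0,[(30,0)]⟩),⟨0,[(28,0)]⟩,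
  .k,.k,.k,.k,.k,.k,⟨false,1,⟨1,[(33,1),(2,0),(0,0)]⟩,⟨3,[(4,0),(2,0),(15,0),(2,1),(8,1)]⟩⟩,⟨true,0,
  ⟨0,[(10,0)]⟩,⟨0,[(26,0)]⟩⟩,⟨true,0,⟨0,[(2,0)]⟩,⟨0,[(7,0)]⟩⟩,⟨false,0,⟨0,[(6,0)]⟩,⟨0,[(24,0),(12,
  0)]⟩⟩,⟨false,0,⟨0,[]⟩,⟨0,[]⟩⟩,⟨false,0,⟨0,[]⟩,⟨0,[]⟩⟩,[.o ⟨false,0,⟨4,[(7,0),(15,0),(2,0),(5,1),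
  (2,3)]⟩,⟨0,[(0,0)]⟩⟩,.o ⟨false,0,⟨0,[(35,0)]⟩,⟨27,[(7,3),(4,3),(1,17),(14,4),(2,1),(3,0)]⟩⟩,.o
  ⟨false,1,⟨0,[(26,0),(9,0)]⟩,⟨0,[(3,0)]⟩⟩,.a ⟨true,0,⟨0,[(13,0),(12,1)]⟩,⟨0,[(10,0)]⟩⟩ ⟨true,0,⟨0,
  [(33,0),(1,0)]⟩,⟨1,[(25,0),(0,0)]⟩⟩ ⟨false,0,⟨3,[(3,0),(0,1),(8,0),(18,0),(2,1)]⟩,⟨0,[(26,0),(6,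
  0),(3,0)]⟩⟩]⟩) (.R ⟨0,false,false,false,[1,-1],[1,-1,1],[1,0,1],(⟨0,[(30,0)]⟩,⟨0,[(31,0)]⟩),(⟨0,
  [(28,0),(1,0)]⟩,⟨0,[(17,0)]⟩),⟨0,[(16,0),(0,0)]⟩,.k,.k,(.r (-1) ⟨0,[(33,1),(3,0)]⟩ ⟨2,[(0,1),(2,
  1),(3,1),(4,1),(13,1)]⟩),.k,.k,.k,⟨false,0,⟨0,[(11,0)]⟩,⟨1,[(2,1),(33,0),(0,0)]⟩⟩,⟨true,0,⟨0,[(10,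
  0)]⟩,⟨0,[(26,0)]⟩⟩,⟨false,0,⟨0,[(4,0),(21,0)]⟩,⟨1,[(33,1),(2,0),(0,0)]⟩⟩,⟨true,0,⟨0,[(6,0)]⟩,⟨0,
  [(24,0)]⟩⟩,⟨false,0,⟨0,[]⟩,⟨0,[]⟩⟩,⟨false,0,⟨0,[]⟩,⟨0,[]⟩⟩,[.a ⟨true,0,⟨1,[(1,1),(23,0),(0,0)]⟩,
  ⟨0,[(0,0),(23,0),(12,0)]⟩⟩ ⟨false,0,⟨0,[]⟩,⟨5,[(12,1),(1,0),(0,0),(8,1),(11,2)]⟩⟩ ⟨true,0,⟨0,[(1,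
  0)]⟩,⟨0,[(7,0),(18,0)]⟩⟩,.o ⟨false,1,⟨7,[(1,5),(1,3),(8,1),(1,1),(11,1),(2,0),(7,2)]⟩,⟨0,[(24,0),
  (10,0)]⟩⟩,.e ⟨true,0,⟨1,[(25,0),(0,0)]⟩,⟨3,[(0,1),(28,0),(3,1),(2,0)]⟩⟩ ⟨true,0,⟨0,[(1,0)]⟩,⟨8,
  [(0,1),(6,5),(4,0),(11,3),(1,4),(2,0),(2,1)]⟩⟩,.o ⟨false,0,⟨0,[(3,0),(22,0)]⟩,⟨0,[(36,0)]⟩⟩]⟩))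
  (.R ⟨0,false,false,false,[1,-1],[1,-1,1],[1,0,1],(⟨0,[(29,0)]⟩,⟨0,[(30,0)]⟩),(⟨0,[(27,0),(1,0)]⟩,
  ⟨0,[(16,0)]⟩),⟨0,[(15,0),(0,0)]⟩,.k,.k,(.r (-1) ⟨0,[(32,1),(3,0)]⟩ ⟨2,[(0,1),(2,1),(18,1),(2,1),
  (8,1)]⟩),.k,.k,.k,⟨false,0,⟨0,[(10,0)]⟩,⟨1,[(1,1),(33,0),(0,0)]⟩⟩,⟨true,0,⟨0,[(9,0)]⟩,⟨0,[(25,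
  0)]⟩⟩,⟨false,0,⟨0,[(3,0),(21,0)]⟩,⟨1,[(32,1),(2,0),(0,0)]⟩⟩,⟨true,0,⟨0,[(5,0)]⟩,⟨0,[(23,0)]⟩⟩,
  ⟨false,0,⟨0,[]⟩,⟨0,[]⟩⟩,⟨false,0,⟨0,[]⟩,⟨0,[]⟩⟩,[.e ⟨false,0,⟨0,[]⟩,⟨5,[(11,1),(1,0),(0,0),(8,1),
  (11,2)]⟩⟩ ⟨false,1,⟨11,[(1,1),(3,3),(2,5),(3,7),(0,1),(14,2),(7,0)]⟩,⟨0,[(0,0)]⟩⟩,.o ⟨false,1,⟨0,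
  [(1,0),(0,0),(33,0)]⟩,⟨0,[(23,0),(10,0)]⟩⟩,.a ⟨true,0,⟨1,[(24,0),(0,0)]⟩,⟨0,[(12,0),(12,0)]⟩⟩
  ⟨true,0,⟨1,[(24,0),(0,0)]⟩,⟨0,[(32,0),(1,0)]⟩⟩ ⟨false,1,⟨2,[(1,0),(3,1),(6,0),(0,0),(22,1)]⟩,⟨0,
  [(0,0)]⟩⟩,.o ⟨false,0,⟨0,[(2,0),(22,0)]⟩,⟨0,[(35,0)]⟩⟩]⟩)) (.Q [0,1,0,1,-1,0,1,1,0,1,-1] (.p
  false [0,0,1] [1] (⟨0,[(26,0)]⟩,⟨0,[(25,0)]⟩) .k 1 (⟨0,[]⟩,⟨0,[]⟩) .k .k) (.R ⟨0,false,false,true,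
  [1,-1],[0,0,1],[0,1],(⟨0,[(29,0)]⟩,⟨0,[(30,0)]⟩),(⟨0,[(27,0)]⟩,⟨0,[(26,0)]⟩),⟨0,[(15,0),(0,0)]⟩,
  .k,.k,(.r (-1) ⟨0,[(32,1),(3,0)]⟩ ⟨6,[(0,3),(2,1),(2,5),(4,1),(13,5),(2,1)]⟩),.k,.k,.k,⟨true,0,⟨0,
  [(1,0),(30,0)]⟩,⟨0,[(5,0),(19,0)]⟩⟩,⟨false,0,⟨0,[(12,0)]⟩,⟨10,[(6,1),(4,3),(1,2),(9,1),(1,8),(2,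
  3),(9,1)]⟩⟩,⟨false,0,⟨6,[(0,1),(2,0),(2,2),(4,0),(13,2),(2,0)]⟩,⟨0,[(32,0),(3,0)]⟩⟩,⟨true,(-1),⟨0,
  [(0,0)]⟩,⟨1,[(1,1),(23,1),(2,0),(3,3),(3,0)]⟩⟩,⟨false,0,⟨0,[]⟩,⟨0,[]⟩⟩,⟨false,0,⟨0,[]⟩,⟨0,[]⟩⟩,
  [.e ⟨false,0,⟨0,[(32,0),(1,0)]⟩,⟨5,[(11,1),(1,0),(0,0),(8,1),(12,2)]⟩⟩ ⟨false,0,⟨12,[(0,5),(3,1),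
  (3,4),(3,6),(15,0),(2,1),(0,2)]⟩,⟨1,[(1,1),(23,1),(2,0),(3,1),(3,0)]⟩⟩,.o ⟨false,0,⟨0,[(5,0)]⟩,⟨1,
  [(23,1),(4,0),(7,0)]⟩⟩,.a ⟨true,0,⟨1,[(24,0),(0,0)]⟩,⟨0,[(12,0),(12,0)]⟩⟩ ⟨true,0,⟨0,[(38,0)]⟩,⟨0,
  []⟩⟩ ⟨false,0,⟨0,[(0,0),(31,0),(3,0)]⟩,⟨1,[(1,1),(23,1),(2,0),(3,1),(3,0)]⟩⟩,.o ⟨false,0,⟨0,[(2,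
  0),(22,0)]⟩,⟨0,[(35,0)]⟩⟩]⟩) (.R ⟨0,false,false,true,[0,1,-1],[0,1],[0,1,1],(⟨0,[(16,0)]⟩,⟨0,[(27,
  0),(1,0)]⟩),(⟨0,[(30,0)]⟩,⟨0,[(29,0)]⟩),⟨0,[(27,0)]⟩,.k,.k,.k,.k,.k,.k,⟨false,1,⟨5,[(8,1),(4,1),
  (7,1),(1,1),(11,0),(0,0)]⟩,⟨0,[(34,0)]⟩⟩,⟨true,0,⟨0,[(9,0)]⟩,⟨0,[(25,0)]⟩⟩,⟨true,0,⟨0,[(5,0),(19,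
  0),(6,0)]⟩,⟨0,[(1,0),(30,0),(1,0)]⟩⟩,⟨false,0,⟨0,[(5,0)]⟩,⟨0,[(23,0),(12,0)]⟩⟩,⟨false,0,⟨0,[]⟩,⟨0,
  []⟩⟩,⟨false,0,⟨0,[]⟩,⟨0,[]⟩⟩,[.o ⟨false,0,⟨4,[(6,0),(15,0),(2,0),(5,1),(2,3)]⟩,⟨0,[(0,0),(4,0)]⟩⟩,
  .o ⟨false,0,⟨0,[(34,0)]⟩,⟨27,[(6,3),(4,3),(1,17),(14,4),(2,1),(3,0)]⟩⟩,.o ⟨false,1,⟨13,[(0,5),(3,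
  7),(3,3),(2,1),(11,7),(4,0),(6,0)]⟩,⟨0,[(2,0)]⟩⟩,.a ⟨true,0,⟨0,[(12,0),(12,1)]⟩,⟨0,[(9,0)]⟩⟩
  ⟨true,0,⟨0,[(38,0)]⟩,⟨0,[]⟩⟩ ⟨false,0,⟨3,[(2,0),(0,1),(8,0),(18,0),(2,1)]⟩,⟨0,[(25,0),(6,0),(3,
  0)]⟩⟩]⟩)))) (.R ⟨0,false,false,false,[0,1,-1],[0,1],[1],(⟨0,[(13,0)]⟩,⟨0,[(24,0),(1,0)]⟩),(⟨0,
  [(27,0)]⟩,⟨0,[(26,0)]⟩),⟨0,[(24,0)]⟩,.k,.k,.k,.k,.k,.k,⟨false,1,⟨5,[(0,1),(8,1),(0,1),(21,2),(0,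
  0)]⟩,⟨1,[(21,0),(0,0),(8,1)]⟩⟩,⟨true,0,⟨0,[(6,0)]⟩,⟨0,[(22,0)]⟩⟩,⟨false,1,⟨0,[(0,0),(1,0),(30,
  0)]⟩,⟨0,[(3,0)]⟩⟩,⟨true,0,⟨0,[(2,0)]⟩,⟨0,[(20,0)]⟩⟩,⟨false,0,⟨0,[]⟩,⟨0,[]⟩⟩,⟨false,0,⟨0,[]⟩,⟨0,
  []⟩⟩,[.o ⟨false,0,⟨0,[(31,0)]⟩,⟨27,[(3,3),(4,3),(1,17),(14,4),(2,1),(3,0)]⟩⟩,.e ⟨false,1,⟨1,[(32,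
  0),(0,0)]⟩,⟨0,[(35,0)]⟩⟩ ⟨false,1,⟨9,[(3,3),(4,3),(0,1),(1,3),(13,2),(5,1),(1,2)]⟩,⟨0,[(0,0)]⟩⟩,
  .e ⟨true,0,⟨0,[]⟩,⟨0,[(35,0)]⟩⟩ ⟨true,0,⟨0,[(21,0),(9,0)]⟩,⟨0,[(0,0)]⟩⟩,.a ⟨true,0,⟨0,[(9,0),(12,
  1)]⟩,⟨0,[(6,0)]⟩⟩ ⟨false,1,⟨1,[(32,0),(0,0)]⟩,⟨1,[(21,0),(0,0)]⟩⟩ ⟨true,0,⟨0,[(6,0),(24,0)]⟩,⟨1,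
  [(0,0),(21,0),(7,0)]⟩⟩]⟩)))) (.N [0,-1,1] 0 ⟨0,[(0,0)]⟩ ⟨0,[(4,0)]⟩ .k))) (.Q [0,-1,0,1,0,0,0,0,0,
  1] (.pp false [-1,1]) (.R ⟨0,false,false,true,[1,0,-1],[2,-1,-1],[0,1,0,-1,0,0,0,-1],(⟨0,[(19,
  0)]⟩,⟨0,[(20,0)]⟩),(⟨0,[(19,0),(2,0)]⟩,⟨0,[(8,0)]⟩),⟨0,[(8,0)]⟩,.k,.k,.k,.k,.k,.k,⟨true,0,⟨1,[(17,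
  0),(0,0)]⟩,⟨0,[]⟩⟩,⟨false,1,⟨5,[(4,1),(1,0),(0,0),(8,1),(4,2)]⟩,⟨0,[(0,0),(24,0)]⟩⟩,⟨true,0,⟨0,
  [(26,0)]⟩,⟨0,[(27,0)]⟩⟩,⟨false,1,⟨11,[(4,1),(1,6),(0,0),(8,1),(4,2)]⟩,⟨0,[(0,0)]⟩⟩,⟨false,0,⟨0,
  []⟩,⟨0,[]⟩⟩,⟨false,0,⟨0,[]⟩,⟨0,[]⟩⟩,[.e ⟨false,0,⟨1,[(1,0),(3,0),(0,0),(9,0),(8,0)]⟩,⟨0,[(4,0)]⟩⟩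
  ⟨false,0,⟨1,[(1,1),(19,0),(3,3),(3,0)]⟩,⟨0,[(0,0),(3,0),(21,0)]⟩⟩,.o ⟨false,1,⟨0,[(1,0),(16,0),(2,
  0),(3,1),(3,0)]⟩,⟨0,[(0,0),(14,0)]⟩⟩,.o ⟨false,1,⟨1,[(18,1),(2,0),(6,0)]⟩,⟨0,[(2,0)]⟩⟩,.a ⟨true,0,
  ⟨0,[(18,0)]⟩,⟨0,[(14,0)]⟩⟩ ⟨false,0,⟨0,[(1,0),(23,1),(3,0)]⟩,⟨1,[(4,1),(12,0),(0,0)]⟩⟩ ⟨true,0,⟨1,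
  [(1,1),(19,0),(3,3),(3,0)]⟩,⟨0,[(0,0),(14,0),(2,0)]⟩⟩]⟩) (.R ⟨2,true,false,true,[0,1],[1,-1],[1,1,
  1],(⟨0,[]⟩,⟨0,[]⟩),(⟨0,[(22,0)]⟩,⟨0,[(23,0)]⟩),⟨0,[]⟩,.k,.k,.k,(.r 0 ⟨2,[(1,1),(1,1),(0,1),(10,1),
  (2,1)]⟩ ⟨0,[(25,1),(3,0)]⟩),.k,.k,⟨false,0,⟨2,[(1,0),(1,0),(0,0),(10,0),(2,0)]⟩,⟨1,[(25,1),(2,0),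
  (0,0)]⟩⟩,⟨true,0,⟨0,[(0,0),(0,0),(13,0),(2,0),(10,0)]⟩,⟨0,[(5,0),(12,0)]⟩⟩,⟨true,0,⟨0,[(26,0)]⟩,
  ⟨0,[(27,0)]⟩⟩,⟨false,1,⟨0,[(6,0)]⟩,⟨0,[(1,0),(2,0),(0,0),(12,0)]⟩⟩,⟨false,0,⟨0,[]⟩,⟨5,[(4,1),(1,
  0),(0,0),(8,1),(12,2)]⟩⟩,⟨true,0,⟨0,[(0,0)]⟩,⟨0,[(19,0),(0,0),(6,0)]⟩⟩,[]⟩)))) (.Q [0,0,0,0,0,0,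
  -1,0,0,0,1] (.p true [0,0,1] [] (⟨0,[(17,0)]⟩,⟨0,[(16,0)]⟩) .k 0 (⟨0,[]⟩,⟨0,[]⟩) .k .k) (.I [0,1,
  1,1,-1,0,0,1] (.Q [0,1,0,1,-1,0,1,0,0,1,-1] (.p false [0,0,1] [1] (⟨0,[(19,0)]⟩,⟨0,[(18,0)]⟩) .k
  1 (⟨0,[]⟩,⟨0,[]⟩) .k .k) (.R ⟨0,false,false,false,[0,0,1],[1,-1,1],[0,0,0,-1,0,0,0,1],(⟨0,[(20,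
  0)]⟩,⟨0,[(19,0)]⟩),(⟨0,[(20,0),(1,0)]⟩,⟨0,[(9,0)]⟩),⟨0,[(9,0)]⟩,.k,.k,.k,.k,.k,.k,⟨true,0,⟨1,[(17,
  0),(0,0)]⟩,⟨0,[]⟩⟩,⟨false,1,⟨5,[(4,1),(1,0),(0,0),(8,1),(4,2)]⟩,⟨0,[(2,0),(11,0)]⟩⟩,⟨false,1,⟨0,
  [(26,0),(2,0)]⟩,⟨0,[(27,0)]⟩⟩,⟨true,1,⟨11,[(4,1),(1,6),(0,0),(8,1),(4,2)]⟩,⟨0,[(0,0),(1,0)]⟩⟩,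
  ⟨false,0,⟨0,[]⟩,⟨0,[]⟩⟩,⟨false,0,⟨0,[]⟩,⟨0,[]⟩⟩,[.e ⟨false,0,⟨0,[(3,0)]⟩,⟨9,[(4,1),(2,5),(8,11),
  (4,2),(5,7),(1,4)]⟩⟩ ⟨false,1,⟨13,[(3,9),(0,3),(1,3),(14,4),(2,1),(3,0)]⟩,⟨0,[(0,0),(15,0),(12,
  0)]⟩⟩,.o ⟨false,1,⟨1,[(3,1),(13,1),(3,0),(7,0)]⟩,⟨0,[(16,0),(10,0)]⟩⟩,.a ⟨true,0,⟨1,[(7,0),(11,0),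
  (0,0)]⟩,⟨0,[(2,0)]⟩⟩ ⟨true,0,⟨1,[(3,1),(13,0),(0,0)]⟩,⟨1,[(0,1),(15,1),(4,0),(7,0)]⟩⟩ ⟨false,1,⟨3,
  [(1,1),(1,1),(2,1),(14,0),(7,2)]⟩,⟨0,[(0,0),(15,0),(12,0)]⟩⟩,.o ⟨false,0,⟨0,[(17,0)]⟩,⟨1,[(2,1),
  (18,0),(6,0)]⟩⟩]⟩) (.I [0,-1,1,0,0,0,0,1] (.R ⟨0,false,false,false,[1,0,-1],[1,-1],[0,0,1],(⟨0,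
  [(20,0)]⟩,⟨0,[(21,0)]⟩),(⟨0,[(23,0)]⟩,⟨0,[(24,0)]⟩),⟨0,[(9,0)]⟩,.k,.k,.k,.k,.k,.k,⟨false,0,⟨1,
  [(18,0),(0,0),(8,1)]⟩,⟨1,[(3,0),(2,0),(0,0),(21,0)]⟩⟩,⟨true,0,⟨0,[(18,0)]⟩,⟨0,[(3,0)]⟩⟩,⟨false,0,
  ⟨0,[(0,0)]⟩,⟨5,[(6,1),(1,1),(8,5),(4,1),(6,0),(0,2)]⟩⟩,⟨true,0,⟨0,[(4,0),(13,0)]⟩,⟨0,[(17,0),(10,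
  0)]⟩⟩,⟨false,0,⟨0,[]⟩,⟨0,[]⟩⟩,⟨false,0,⟨0,[]⟩,⟨0,[]⟩⟩,[.o ⟨false,1,⟨11,[(5,1),(1,6),(0,0),(8,1),
  (4,2)]⟩,⟨0,[(28,0)]⟩⟩,.e ⟨false,1,⟨5,[(5,1),(1,0),(0,0),(8,1),(12,2)]⟩,⟨4,[(2,0),(1,0),(1,1),(10,
  1),(4,0),(2,0)]⟩⟩ ⟨false,1,⟨0,[(1,0),(4,0),(11,0)]⟩,⟨3,[(2,1),(0,0),(1,0),(11,2),(10,0),(0,0)]⟩⟩,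
  .a ⟨true,0,⟨0,[(3,0)]⟩,⟨1,[(8,0),(11,0),(0,0)]⟩⟩ ⟨true,0,⟨1,[(18,0),(0,0)]⟩,⟨4,[(2,0),(1,0),(1,1),
  (10,1),(4,0),(2,0)]⟩⟩ ⟨false,1,⟨1,[(7,0),(0,0),(21,0)]⟩,⟨0,[(3,0),(24,0)]⟩⟩,.e ⟨false,1,⟨5,[(5,1),
  (1,0),(0,0),(8,1),(12,2)]⟩,⟨0,[]⟩⟩ ⟨false,1,⟨0,[(1,0),(4,0),(11,0)]⟩,⟨0,[(19,0),(8,0)]⟩⟩]⟩) (.Q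
  [0,-1,0,-1,1,0,0,0,0,-1] (.pp true [-1,1]) (.R ⟨0,false,false,false,[1,0,-1],[1,-1],[1,1],(⟨0,
  [(21,0)]⟩,⟨0,[(22,0)]⟩),(⟨0,[(24,0)]⟩,⟨0,[(25,0)]⟩),⟨0,[(10,0)]⟩,.k,.k,.k,.k,.k,.k,⟨false,0,⟨7,
  [(3,0),(2,0),(11,1),(0,1),(6,2),(2,5)]⟩,⟨1,[(4,0),(2,0),(0,0),(22,0)]⟩⟩,⟨true,0,⟨0,[(19,0)]⟩,⟨0,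
  [(4,0)]⟩⟩,⟨false,0,⟨7,[(3,1),(1,3),(0,1),(12,0),(0,0)]⟩,⟨1,[(1,0),(16,0),(0,0),(11,1)]⟩⟩,⟨true,0,
  ⟨0,[(5,0),(13,0)]⟩,⟨0,[(18,0),(10,0)]⟩⟩,⟨false,0,⟨0,[]⟩,⟨0,[]⟩⟩,⟨false,0,⟨0,[]⟩,⟨0,[]⟩⟩,[.o
  ⟨false,1,⟨11,[(6,1),(1,6),(0,0),(8,1),(4,2)]⟩,⟨0,[(29,0)]⟩⟩,.o ⟨false,1,⟨0,[(0,0)]⟩,⟨7,[(3,0),(2,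
  0),(11,1),(0,1),(6,2),(2,5)]⟩⟩,.e ⟨false,0,⟨0,[]⟩,⟨5,[(6,1),(1,0),(0,0),(8,1),(12,2)]⟩⟩ ⟨false,1,
  ⟨1,[(8,0),(0,0),(21,0)]⟩,⟨0,[(4,0),(24,0)]⟩⟩,.a ⟨true,0,⟨0,[(20,0)]⟩,⟨0,[(16,0)]⟩⟩ ⟨true,0,⟨4,[(1,
  1),(1,0),(1,0),(20,0),(3,0)]⟩,⟨1,[(19,0),(0,0)]⟩⟩ ⟨false,1,⟨3,[(0,1),(6,1),(0,0),(0,0),(21,0)]⟩,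
  ⟨0,[(20,0),(8,0)]⟩⟩]⟩) (.R ⟨0,false,false,false,[0,0,1],[1,-1,1],[0,0,0,-1,0,0,0,1],(⟨0,[(22,0)]⟩,
  ⟨0,[(21,0)]⟩),(⟨0,[(22,0),(1,0)]⟩,⟨0,[(11,0)]⟩),⟨0,[(11,0)]⟩,.k,.k,.k,.k,.k,.k,⟨true,0,⟨1,[(19,0),
  (0,0)]⟩,⟨0,[]⟩⟩,⟨false,1,⟨5,[(6,1),(1,0),(0,0),(8,1),(4,2)]⟩,⟨0,[(4,0),(11,0)]⟩⟩,⟨false,1,⟨0,[(28,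
  0),(2,0)]⟩,⟨0,[(29,0)]⟩⟩,⟨true,1,⟨11,[(6,1),(1,6),(0,0),(8,1),(4,2)]⟩,⟨0,[(0,0)]⟩⟩,⟨false,0,⟨0,
  []⟩,⟨0,[]⟩⟩,⟨false,0,⟨0,[]⟩,⟨0,[]⟩⟩,[.e ⟨false,0,⟨0,[(5,0)]⟩,⟨9,[(6,1),(2,5),(8,11),(4,2),(5,7),
  (1,4)]⟩⟩ ⟨false,1,⟨13,[(5,9),(0,3),(1,3),(14,4),(2,1),(3,0)]⟩,⟨1,[(0,1),(0,0),(16,0),(0,0),(11,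
  1)]⟩⟩,.o ⟨false,1,⟨1,[(5,1),(13,1),(3,0),(7,0)]⟩,⟨0,[(18,0),(10,0)]⟩⟩,.a ⟨true,0,⟨1,[(9,0),(11,0),
  (0,0)]⟩,⟨0,[(4,0)]⟩⟩ ⟨true,0,⟨1,[(5,1),(13,0),(0,0)]⟩,⟨1,[(1,0),(16,0),(0,0),(9,1)]⟩⟩ ⟨false,1,⟨3,
  [(3,1),(1,1),(2,1),(14,0),(7,2)]⟩,⟨1,[(0,1),(0,0),(16,0),(0,0),(11,1)]⟩⟩,.o ⟨false,0,⟨0,[(19,0)]⟩,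
  ⟨1,[(4,1),(18,0),(6,0)]⟩⟩]⟩)))) (.Q [0,-1,0,-1,1,0,0,0,0,-1] (.pp true [-1,1]) (.R ⟨0,false,false,
  false,[1,0,-1],[1,-1],[1,1],(⟨0,[(19,0)]⟩,⟨0,[(20,0)]⟩),(⟨0,[(22,0)]⟩,⟨0,[(23,0)]⟩),⟨0,[(8,0)]⟩,
  .k,.k,.k,.k,.k,.k,⟨false,0,⟨0,[(27,0),(3,0)]⟩,⟨4,[(1,2),(1,1),(0,0),(21,0),(2,0)]⟩⟩,⟨true,0,⟨0,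
  [(17,0)]⟩,⟨0,[(2,0)]⟩⟩,⟨false,0,⟨1,[(3,1),(13,0),(0,0),(8,1)]⟩,⟨1,[(1,0),(14,0),(0,0),(9,0),(1,
  0)]⟩⟩,⟨true,0,⟨0,[(3,0),(13,0)]⟩,⟨0,[(16,0),(10,0)]⟩⟩,⟨false,0,⟨0,[]⟩,⟨0,[]⟩⟩,⟨false,0,⟨0,[]⟩,⟨0,
  []⟩⟩,[.o ⟨false,1,⟨11,[(4,1),(1,6),(0,0),(8,1),(4,2)]⟩,⟨0,[(27,0)]⟩⟩,.o ⟨false,1,⟨0,[(0,0)]⟩,⟨0,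
  [(27,0),(3,0)]⟩⟩,.e ⟨false,0,⟨0,[]⟩,⟨5,[(4,1),(1,0),(0,0),(8,1),(12,2)]⟩⟩ ⟨false,1,⟨1,[(6,0),(0,
  0),(21,0)]⟩,⟨0,[(2,0),(24,0)]⟩⟩,.a ⟨true,0,⟨0,[(18,0)]⟩,⟨0,[(14,0)]⟩⟩ ⟨true,0,⟨0,[(25,0),(1,0)]⟩,
  ⟨1,[(17,0),(0,0)]⟩⟩ ⟨false,1,⟨3,[(0,1),(4,1),(0,0),(0,0),(21,0)]⟩,⟨0,[(18,0),(8,0)]⟩⟩]⟩) (.R ⟨0,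
  false,false,false,[0,0,1],[1,-1,1],[0,0,0,-1,0,0,0,1],(⟨0,[(20,0)]⟩,⟨0,[(19,0)]⟩),(⟨0,[(20,0),(1,
  0)]⟩,⟨0,[(9,0)]⟩),⟨0,[(9,0)]⟩,.k,.k,.k,.k,.k,.k,⟨true,0,⟨1,[(17,0),(0,0)]⟩,⟨0,[]⟩⟩,⟨false,1,⟨5,
  [(4,1),(1,0),(0,0),(8,1),(4,2)]⟩,⟨0,[(2,0),(11,0)]⟩⟩,⟨false,1,⟨0,[(26,0),(2,0)]⟩,⟨0,[(27,0)]⟩⟩,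
  ⟨true,1,⟨11,[(4,1),(1,6),(0,0),(8,1),(4,2)]⟩,⟨0,[(0,0)]⟩⟩,⟨false,0,⟨0,[]⟩,⟨0,[]⟩⟩,⟨false,0,⟨0,[]⟩,
  ⟨0,[]⟩⟩,[.e ⟨false,0,⟨0,[(3,0)]⟩,⟨9,[(4,1),(2,5),(8,11),(4,2),(5,7),(1,4)]⟩⟩ ⟨false,1,⟨13,[(3,9),
  (0,3),(1,3),(14,4),(2,1),(3,0)]⟩,⟨1,[(0,1),(0,0),(14,0),(0,0),(9,0),(1,0)]⟩⟩,.o ⟨false,1,⟨1,[(3,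
  1),(13,1),(3,0),(7,0)]⟩,⟨0,[(16,0),(10,0)]⟩⟩,.a ⟨true,0,⟨1,[(7,0),(11,0),(0,0)]⟩,⟨0,[(2,0)]⟩⟩
  ⟨true,0,⟨1,[(3,1),(13,0),(0,0)]⟩,⟨1,[(0,1),(0,0),(14,0),(0,0),(3,0),(5,0)]⟩⟩ ⟨false,1,⟨1,[(3,1),
  (13,0),(0,0),(2,0),(7,0)]⟩,⟨1,[(0,1),(0,0),(14,0),(0,0),(9,0),(1,0)]⟩⟩,.o ⟨false,0,⟨0,[(17,0)]⟩,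
  ⟨1,[(2,1),(18,0),(6,0)]⟩⟩]⟩))) (.Q [0,0,0,0,-1,0,2,2,0,1,-2] (.p false [0,0,1] [1,0,-1] (⟨0,[(18,
  0)]⟩,⟨0,[(17,0)]⟩) .k 2 (⟨0,[(17,0)]⟩,⟨0,[(18,0)]⟩) .k (.r 0 ⟨0,[(1,1),(13,0),(0,0),(8,1)]⟩ ⟨0,
  [(0,1),(13,1),(12,0)]⟩)) (.I [0,-1,0,0,0,0,0,2] (.R ⟨0,false,false,false,[1,0,-1],[0,0,1],[1,0,0,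
  0,0,0,0,1],(⟨0,[(19,0)]⟩,⟨0,[(20,0)]⟩),(⟨0,[(20,0)]⟩,⟨0,[(19,0)]⟩),⟨0,[(8,0)]⟩,.k,.k,.k,.k,.k,.k,
  ⟨true,0,⟨0,[]⟩,⟨1,[(17,0),(0,0)]⟩⟩,⟨false,0,⟨1,[(2,0),(2,0),(1,0)]⟩,⟨1,[(0,1),(15,3),(4,0),(7,
  0)]⟩⟩,⟨false,0,⟨0,[(0,0)]⟩,⟨0,[(2,1),(13,1),(12,0)]⟩⟩,⟨true,(-1),⟨0,[(1,0)]⟩,⟨1,[(16,3),(4,0),(7,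
  0)]⟩⟩,⟨false,0,⟨0,[]⟩,⟨0,[]⟩⟩,⟨false,0,⟨0,[]⟩,⟨0,[]⟩⟩,[.o ⟨false,0,⟨15,[(1,5),(2,1),(1,0),(0,0),
  (7,1),(5,2)]⟩,⟨1,[(16,1),(4,0),(7,0)]⟩⟩,.e ⟨false,1,⟨3,[(3,1),(0,1),(23,0),(0,0)]⟩,⟨0,[(2,0),(13,
  0)]⟩⟩ ⟨false,0,⟨1,[(1,0),(0,0),(2,0),(23,0)]⟩,⟨1,[(16,1),(1,1),(2,0),(6,0)]⟩⟩,.o ⟨false,1,⟨1,[(18,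
  1),(2,0),(6,0)]⟩,⟨0,[(2,0)]⟩⟩,.a ⟨true,0,⟨0,[(18,0)]⟩,⟨0,[(14,0)]⟩⟩ ⟨true,0,⟨0,[(3,0),(23,0)]⟩,⟨0,
  [(16,0),(0,0)]⟩⟩ ⟨false,0,⟨1,[(1,0),(0,0),(2,0),(23,0)]⟩,⟨1,[(16,1),(1,1),(2,0),(7,0)]⟩⟩]⟩) (.I
  [0,-1,1,0,0,0,0,2] (.R ⟨0,false,false,false,[1,0,-1],[0,0,1],[1,1,0,0,0,0,0,-1],(⟨0,[(20,0)]⟩,⟨0,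
  [(21,0)]⟩),(⟨0,[(21,0)]⟩,⟨0,[(20,0)]⟩),⟨0,[(9,0)]⟩,.k,.k,.k,.k,.k,.k,⟨true,0,⟨0,[(1,0)]⟩,⟨0,[(0,
  0)]⟩⟩,⟨false,0,⟨1,[(3,0),(2,0),(1,0)]⟩,⟨1,[(4,1),(12,1),(1,1),(2,0),(5,1),(1,0)]⟩⟩,⟨false,0,⟨0,
  []⟩,⟨5,[(5,1),(1,0),(0,0),(8,1),(12,2)]⟩⟩,⟨true,(-1),⟨0,[(2,0)]⟩,⟨1,[(17,3),(4,0),(7,0)]⟩⟩,⟨false,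
  0,⟨0,[]⟩,⟨0,[]⟩⟩,⟨false,0,⟨0,[]⟩,⟨0,[]⟩⟩,[.o ⟨false,0,⟨15,[(2,5),(2,1),(1,0),(0,0),(7,1),(5,2)]⟩,
  ⟨1,[(17,1),(4,0),(7,0)]⟩⟩,.e ⟨false,1,⟨11,[(1,5),(3,1),(1,0),(0,0),(8,1),(11,5),(0,2)]⟩,⟨4,[(0,1),
  (3,0),(20,0),(2,0)]⟩⟩ ⟨false,0,⟨1,[(2,0),(0,0),(2,0),(23,0)]⟩,⟨1,[(17,1),(1,1),(2,0),(6,0)]⟩⟩,.o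
  ⟨false,1,⟨1,[(19,1),(2,0),(6,0)]⟩,⟨0,[(3,0)]⟩⟩,.a ⟨true,0,⟨0,[(19,0)]⟩,⟨0,[(15,0)]⟩⟩ ⟨true,0,⟨0,
  [(1,0),(2,0),(23,0)]⟩,⟨5,[(0,1),(15,1),(1,0),(0,2)]⟩⟩ ⟨false,0,⟨1,[(2,0),(0,0),(2,0),(23,0)]⟩,⟨1,
  [(17,1),(1,1),(2,0),(7,0)]⟩⟩]⟩) (.Q [0,0,-2,-1,0,0,1,1,0,0,-1] (.p false [0,0,1] [] (⟨0,[(21,0)]⟩,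
  ⟨0,[(20,0)]⟩) .k 0 (⟨0,[]⟩,⟨0,[]⟩) .k .k) (.R ⟨0,false,false,false,[1,-1],[1,-1,1],[1,1],(⟨0,[(24,
  0)]⟩,⟨0,[(25,0)]⟩),(⟨0,[(22,0),(1,0)]⟩,⟨0,[(11,0)]⟩),⟨0,[(10,0),(0,0)]⟩,.k,.k,(.r (-1) ⟨2,[(5,1),
  (1,1),(0,1),(9,1),(12,0)]⟩ ⟨0,[(19,0),(0,0),(8,1)]⟩),.k,.k,.k,⟨false,0,⟨1,[(2,0),(26,1),(3,0)]⟩,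
  ⟨7,[(5,5),(0,1),(21,3),(1,0),(0,4)]⟩⟩,⟨true,0,⟨0,[(4,0)]⟩,⟨0,[(20,0)]⟩⟩,⟨false,0,⟨1,[(19,0),(0,0),
  (8,1)]⟩,⟨2,[(5,0),(1,0),(0,0),(9,0),(12,1)]⟩⟩,⟨true,0,⟨15,[(3,5),(2,1),(1,0),(0,0),(7,1),(5,2)]⟩,
  ⟨0,[(18,0)]⟩⟩,⟨false,0,⟨0,[]⟩,⟨0,[]⟩⟩,⟨false,0,⟨0,[]⟩,⟨0,[]⟩⟩,[.e ⟨false,0,⟨2,[(0,0),(17,0),(7,0),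
  (2,0)]⟩,⟨5,[(6,1),(1,0),(0,0),(8,1),(12,2)]⟩⟩ ⟨false,0,⟨0,[(0,0)]⟩,⟨0,[(2,0),(3,0),(13,0)]⟩⟩,.o
  ⟨false,1,⟨1,[(3,0),(4,0),(14,0),(7,0)]⟩,⟨0,[(18,0),(10,0)]⟩⟩,.a ⟨true,0,⟨1,[(19,0),(0,0)]⟩,⟨0,[(7,
  0),(12,0)]⟩⟩ ⟨false,0,⟨0,[]⟩,⟨5,[(6,1),(1,0),(0,0),(8,1),(12,2)]⟩⟩ ⟨true,0,⟨3,[(0,1),(2,0),(4,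
  0)]⟩,⟨1,[(18,1),(0,0),(0,0),(8,1)]⟩⟩,.e ⟨true,0,⟨2,[(0,0),(17,0),(7,0),(2,0)]⟩,⟨1,[(19,0),(0,
  0)]⟩⟩ ⟨true,0,⟨0,[(0,0)]⟩,⟨0,[(18,0),(0,0),(0,0),(8,0)]⟩⟩]⟩) (.R ⟨0,false,false,false,[1,-1],[1,
  -1,1],[1,1],(⟨0,[(24,0)]⟩,⟨0,[(25,0)]⟩),(⟨0,[(22,0),(1,0)]⟩,⟨0,[(11,0)]⟩),⟨0,[(10,0),(0,0)]⟩,.k,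
  .k,(.r (-1) ⟨2,[(5,1),(1,1),(0,1),(9,1),(12,0)]⟩ ⟨12,[(0,11),(2,3),(2,1),(10,1),(1,1),(3,1),(5,
  11)]⟩),.k,.k,.k,⟨false,0,⟨9,[(0,0),(1,4),(14,0),(8,1),(2,8)]⟩,⟨7,[(5,5),(0,1),(21,3),(1,0),(0,
  4)]⟩⟩,⟨true,0,⟨0,[(4,0)]⟩,⟨0,[(20,0)]⟩⟩,⟨false,0,⟨12,[(0,5),(2,1),(2,0),(10,0),(1,0),(3,0),(5,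
  5)]⟩,⟨2,[(5,0),(1,0),(0,0),(9,0),(12,1)]⟩⟩,⟨true,0,⟨15,[(3,5),(2,1),(1,0),(0,0),(7,1),(5,2)]⟩,⟨0,
  [(18,0)]⟩⟩,⟨false,0,⟨0,[]⟩,⟨0,[]⟩⟩,⟨false,0,⟨0,[]⟩,⟨0,[]⟩⟩,[.a ⟨true,0,⟨1,[(3,0),(4,0)]⟩,⟨0,[(1,
  1),(1,0),(1,0),(14,2),(8,1),(1,0)]⟩⟩ ⟨false,0,⟨4,[(1,0),(3,1),(20,1),(2,1)]⟩,⟨5,[(6,1),(1,0),(0,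
  0),(8,1),(12,2)]⟩⟩ ⟨true,0,⟨5,[(1,1),(1,2),(1,3),(2,0),(14,0),(7,0)]⟩,⟨0,[(0,0)]⟩⟩,.o ⟨false,1,⟨1,
  [(3,0),(4,0),(14,0),(7,0)]⟩,⟨0,[(18,0),(10,0)]⟩⟩,.a ⟨true,0,⟨3,[(0,1),(2,0),(4,0)]⟩,⟨0,[(7,0),(12,
  0)]⟩⟩ ⟨false,0,⟨0,[]⟩,⟨5,[(6,1),(1,0),(0,0),(8,1),(12,2)]⟩⟩ ⟨true,0,⟨5,[(1,1),(1,2),(1,3),(2,0),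
  (14,0),(7,0)]⟩,⟨2,[(0,1),(17,0),(7,0),(2,0)]⟩⟩,.a ⟨true,0,⟨1,[(0,1),(2,0),(4,0)]⟩,⟨0,[(1,1),(1,0),
  (1,1),(14,1),(8,1),(1,0)]⟩⟩ ⟨true,0,⟨4,[(1,0),(3,1),(20,1),(2,1)]⟩,⟨3,[(0,1),(2,0),(4,0)]⟩⟩
  ⟨false,1,⟨3,[(3,0),(1,1),(1,1),(0,0),(14,0),(6,0),(0,1)]⟩,⟨0,[(0,0)]⟩⟩]⟩)))) (.Q [0,0,-2,-1,0,0,1,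
  1,0,0,-1] (.p false [0,0,1] [] (⟨0,[(19,0)]⟩,⟨0,[(18,0)]⟩) .k 0 (⟨0,[]⟩,⟨0,[]⟩) .k .k) (.R ⟨0,
  false,false,false,[1,-1],[1,-1,1],[1,1],(⟨0,[(22,0)]⟩,⟨0,[(23,0)]⟩),(⟨0,[(20,0),(1,0)]⟩,⟨0,[(9,
  0)]⟩),⟨0,[(8,0),(0,0)]⟩,.k,.k,(.r (-1) ⟨2,[(3,1),(1,1),(0,1),(9,1),(12,0)]⟩ ⟨0,[(17,0),(0,0),(8,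
  1)]⟩),.k,.k,.k,⟨false,0,⟨0,[(2,0),(13,0),(10,0)]⟩,⟨7,[(3,5),(0,1),(21,3),(1,0),(0,4)]⟩⟩,⟨true,0,
  ⟨0,[(2,0)]⟩,⟨0,[(18,0)]⟩⟩,⟨false,0,⟨1,[(17,0),(0,0),(8,1)]⟩,⟨2,[(3,0),(1,0),(0,0),(9,0),(12,1)]⟩⟩,
  ⟨true,0,⟨0,[(3,0),(13,0),(9,0)]⟩,⟨0,[(16,0)]⟩⟩,⟨false,0,⟨0,[]⟩,⟨0,[]⟩⟩,⟨false,0,⟨0,[]⟩,⟨0,[]⟩⟩,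
  [.e ⟨false,0,⟨2,[(0,0),(15,0),(7,0),(2,0)]⟩,⟨5,[(4,1),(1,0),(0,0),(8,1),(12,2)]⟩⟩ ⟨false,0,⟨0,[(0,
  0)]⟩,⟨3,[(1,1),(2,1),(2,1),(8,1),(0,0),(0,2),(8,1)]⟩⟩,.o ⟨false,1,⟨1,[(3,1),(13,1),(3,0),(7,0)]⟩,
  ⟨0,[(16,0),(10,0)]⟩⟩,.a ⟨true,0,⟨1,[(17,0),(0,0)]⟩,⟨0,[(5,0),(12,0)]⟩⟩ ⟨false,0,⟨0,[]⟩,⟨5,[(4,1),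
  (1,0),(0,0),(8,1),(12,2)]⟩⟩ ⟨true,0,⟨1,[(0,0),(2,0),(13,0)]⟩,⟨1,[(16,1),(0,0),(0,0),(8,1)]⟩⟩,.e
  ⟨true,0,⟨2,[(0,0),(15,0),(7,0),(2,0)]⟩,⟨1,[(17,0),(0,0)]⟩⟩ ⟨true,0,⟨0,[(0,0)]⟩,⟨0,[(16,0),(0,0),
  (0,0),(8,0)]⟩⟩]⟩) (.Q [0,0,-2,0,0,0,0,0,0,1] (.pp false [-1,1]) (.R ⟨0,false,false,false,[1,-1],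
  [1,-1,1],[1,1],(⟨0,[(23,0)]⟩,⟨0,[(24,0)]⟩),(⟨0,[(21,0),(1,0)]⟩,⟨0,[(10,0)]⟩),⟨0,[(9,0),(0,0)]⟩,.k,
  .k,(.r (-1) ⟨0,[(0,0),(6,0)]⟩ ⟨0,[(18,0),(0,0),(8,1)]⟩),.k,.k,.k,⟨false,0,⟨0,[(3,0),(13,0),(10,
  0)]⟩,⟨5,[(0,0),(3,3),(0,1),(1,0),(19,1),(2,2)]⟩⟩,⟨true,0,⟨0,[(3,0)]⟩,⟨0,[(19,0)]⟩⟩,⟨false,0,⟨1,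
  [(18,0),(0,0),(8,1)]⟩,⟨1,[(0,0),(6,0),(22,0)]⟩⟩,⟨true,0,⟨0,[(4,0),(13,0),(9,0)]⟩,⟨0,[(17,0)]⟩⟩,
  ⟨false,0,⟨0,[]⟩,⟨0,[]⟩⟩,⟨false,0,⟨0,[]⟩,⟨0,[]⟩⟩,[.a ⟨true,0,⟨0,[(4,0),(13,0)]⟩,⟨0,[(0,0),(0,0)]⟩⟩
  ⟨false,0,⟨0,[(26,0),(1,0)]⟩,⟨5,[(5,1),(1,0),(0,0),(8,1),(12,2)]⟩⟩ ⟨true,0,⟨0,[(3,0),(0,0)]⟩,⟨0,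
  [(1,0)]⟩⟩,.o ⟨false,1,⟨1,[(4,1),(13,1),(3,0),(7,0)]⟩,⟨0,[(17,0),(10,0)]⟩⟩,.a ⟨true,0,⟨1,[(18,0),
  (0,0)]⟩,⟨1,[(0,0),(19,0),(0,0)]⟩⟩ ⟨false,0,⟨0,[]⟩,⟨5,[(5,1),(1,0),(0,0),(8,1),(12,2)]⟩⟩ ⟨true,0,
  ⟨0,[(3,0),(0,0)]⟩,⟨2,[(1,1),(15,0),(7,0),(2,0)]⟩⟩,.a ⟨true,0,⟨0,[(18,0),(0,0)]⟩,⟨0,[(0,0)]⟩⟩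
  ⟨true,0,⟨0,[(26,0),(1,0)]⟩,⟨1,[(18,0),(0,0)]⟩⟩ ⟨false,1,⟨8,[(4,7),(0,0),(0,4),(0,0),(0,1),(13,2),
  (7,3)]⟩,⟨0,[(1,0)]⟩⟩]⟩) (.Q [0,0,0,1,0,0,-1,-1,0,1,1] (.p true [1,-1,1] [] (⟨0,[(21,0),(1,0)]⟩,⟨0,
  [(10,0)]⟩) .k 0 (⟨0,[]⟩,⟨0,[]⟩) .k .k) (.R ⟨0,false,false,false,[1,-1],[1,-1,1],[0,1],(⟨0,[(24,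
  0)]⟩,⟨0,[(25,0)]⟩),(⟨0,[(22,0),(1,0)]⟩,⟨0,[(11,0)]⟩),⟨0,[(10,0),(0,0)]⟩,.k,.k,(.r (-1) ⟨5,[(0,1),
  (2,0),(1,3),(1,3),(0,4)]⟩ ⟨1,[(1,0),(7,0),(10,1),(8,3)]⟩),.k,.k,.k,⟨false,0,⟨0,[(4,0),(13,0),(10,
  0)]⟩,⟨5,[(0,0),(4,4),(0,1),(1,1),(7,0),(14,1)]⟩⟩,⟨true,0,⟨0,[(4,0)]⟩,⟨0,[(20,0)]⟩⟩,⟨false,0,⟨3,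
  [(1,0),(7,0),(10,1),(8,3)]⟩,⟨11,[(0,1),(2,0),(1,3),(1,3),(0,4),(22,5)]⟩⟩,⟨true,0,⟨1,[(1,0),(3,1),
  (3,0),(19,1)]⟩,⟨0,[(18,0)]⟩⟩,⟨false,0,⟨0,[]⟩,⟨0,[]⟩⟩,⟨false,0,⟨0,[]⟩,⟨0,[]⟩⟩,[.a ⟨true,0,⟨1,[(1,
  0),(3,1),(3,0)]⟩,⟨0,[(0,0)]⟩⟩ ⟨false,0,⟨0,[(27,0),(1,0)]⟩,⟨11,[(0,1),(2,0),(2,3),(1,2),(0,1),(21,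
  3)]⟩⟩ ⟨true,0,⟨0,[(4,0),(0,0)]⟩,⟨0,[(2,0)]⟩⟩,.o ⟨false,1,⟨1,[(1,0),(3,1),(3,0),(13,0),(7,0)]⟩,⟨0,
  [(18,0),(10,0)]⟩⟩,.e ⟨true,0,⟨5,[(2,0),(14,0),(8,1),(1,0)]⟩,⟨0,[]⟩⟩ ⟨true,0,⟨0,[(4,0),(0,0)]⟩,⟨2,
  [(2,1),(15,0),(7,0),(2,0)]⟩⟩,.o ⟨false,0,⟨0,[(1,0)]⟩,⟨0,[(30,0)]⟩⟩]⟩) (.R ⟨0,false,false,false,[1,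
  0,-1],[0,1,-1],[0,1,1],(⟨0,[(21,0)]⟩,⟨0,[(22,0)]⟩),(⟨0,[(11,0)]⟩,⟨0,[(22,0),(1,0)]⟩),⟨0,[(10,0)]⟩,
  .k,.k,.k,.k,.k,.k,⟨false,0,⟨5,[(5,4),(11,0),(2,0),(5,1),(1,0)]⟩,⟨1,[(3,0),(5,0),(19,1),(1,0)]⟩⟩,
  ⟨true,0,⟨0,[(7,0),(12,0)]⟩,⟨0,[(1,0)]⟩⟩,⟨false,0,⟨1,[(1,0),(3,1),(3,0),(10,1),(8,1)]⟩,⟨1,[(3,0),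
  (0,0),(2,0),(23,0)]⟩⟩,⟨true,0,⟨0,[(21,0),(0,0),(6,0)]⟩,⟨0,[(0,0),(17,0)]⟩⟩,⟨false,0,⟨0,[]⟩,⟨0,
  []⟩⟩,⟨false,0,⟨0,[]⟩,⟨0,[]⟩⟩,[.o ⟨false,1,⟨0,[(2,0),(27,0)]⟩,⟨0,[(0,0)]⟩⟩,.o ⟨false,1,⟨6,[(2,1),
  (0,2),(2,0),(0,2),(12,1),(8,3),(1,2)]⟩,⟨5,[(0,4),(0,0),(15,0),(8,1),(1,0)]⟩⟩,.o ⟨false,1,⟨23,[(3,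
  6),(1,5),(0,7),(1,0),(11,9),(2,7),(2,3)]⟩,⟨0,[(4,0)]⟩⟩,.a ⟨true,0,⟨0,[(20,0)]⟩,⟨0,[(16,0)]⟩⟩
  ⟨true,0,⟨5,[(2,0),(14,0),(8,1),(1,0)]⟩,⟨0,[]⟩⟩ ⟨false,1,⟨2,[(2,1),(0,0),(2,0),(0,2),(8,0),(14,
  0)]⟩,⟨0,[(1,0),(3,0)]⟩⟩]⟩))))))) (.Q [0,-1,0,1,0,0,0,0,0,1] (.pp false [-1,1]) (.R ⟨0,false,false,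
  true,[1,0,-1],[2,-1,-1],[],(⟨0,[(16,0)]⟩,⟨0,[(17,0)]⟩),(⟨0,[(16,0),(2,0)]⟩,⟨0,[(5,0)]⟩),⟨0,[(5,
  0)]⟩,.k,.k,.k,.k,.k,.k,⟨true,1,⟨0,[(12,0),(2,0),(8,0),(1,0)]⟩,⟨0,[(1,0)]⟩⟩,⟨false,1,⟨1,[(7,0),(0,
  0),(9,0)]⟩,⟨0,[(2,0),(12,0)]⟩⟩,⟨true,1,⟨1,[(12,1),(2,1),(9,0),(0,0)]⟩,⟨0,[(1,0),(22,0)]⟩⟩,⟨false,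
  1,⟨3,[(3,1),(3,0),(0,0),(9,0)]⟩,⟨0,[(0,0)]⟩⟩,⟨false,0,⟨0,[]⟩,⟨0,[]⟩⟩,⟨false,0,⟨0,[]⟩,⟨0,[]⟩⟩,[.e
  ⟨false,1,⟨1,[(7,0),(0,0),(16,0)]⟩,⟨0,[]⟩⟩ ⟨false,0,⟨1,[(1,1),(16,0),(6,0)]⟩,⟨1,[(0,1),(11,1),(2,
  1),(9,0),(0,0)]⟩⟩,.o ⟨false,1,⟨1,[(1,1),(13,1),(2,1),(6,0),(0,0)]⟩,⟨0,[(0,0),(11,0)]⟩⟩,.o ⟨false,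
  1,⟨1,[(15,1),(2,0),(6,0)]⟩,⟨0,[(1,0),(10,0),(11,0),(1,0)]⟩⟩,.a ⟨true,0,⟨0,[(15,0)]⟩,⟨0,[(11,0)]⟩⟩
  ⟨false,1,⟨1,[(25,0),(0,0)]⟩,⟨1,[(14,0),(0,0)]⟩⟩ ⟨true,0,⟨1,[(1,1),(16,0),(6,0)]⟩,⟨0,[(0,0),(11,0),
  (2,0)]⟩⟩]⟩) (.Q [0,0,1,0,0,0,1,0,0,-1,-1] (.p false [1,-1,1] [] (⟨0,[(17,0),(1,0)]⟩,⟨0,[(6,0)]⟩)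
  .k 0 (⟨0,[]⟩,⟨0,[]⟩) .k .k) (.R ⟨0,false,false,false,[0,1,-1],[0,1],[0,0,1],(⟨0,[(7,0)]⟩,⟨0,[(18,
  0),(1,0)]⟩),(⟨0,[(21,0)]⟩,⟨0,[(20,0)]⟩),⟨0,[(18,0)]⟩,.k,.k,.k,.k,.k,.k,⟨false,1,⟨1,[(24,1),(1,0),
  (0,0)]⟩,⟨0,[(25,0)]⟩⟩,⟨true,0,⟨4,[(0,1),(2,0),(1,0)]⟩,⟨0,[(16,0)]⟩⟩,⟨true,1,⟨0,[(13,0),(2,0),(6,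
  0),(3,0)]⟩,⟨0,[(2,0),(22,1)]⟩⟩,⟨false,1,⟨0,[(13,0),(13,0)]⟩,⟨1,[(2,1),(13,1),(8,1),(0,0),(0,0)]⟩⟩,
  ⟨false,0,⟨0,[]⟩,⟨0,[]⟩⟩,⟨false,0,⟨0,[]⟩,⟨0,[]⟩⟩,[.o ⟨false,0,⟨0,[(25,0)]⟩,⟨3,[(4,1),(3,0),(0,0),
  (9,0)]⟩⟩,.o ⟨false,1,⟨1,[(8,0),(0,0),(15,1),(1,0)]⟩,⟨0,[(1,0)]⟩⟩,.o ⟨false,1,⟨0,[(16,0),(9,0)]⟩,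
  ⟨0,[(0,0)]⟩⟩,.a ⟨true,0,⟨0,[(3,0),(12,1)]⟩,⟨4,[(0,1),(2,0),(1,0)]⟩⟩ ⟨false,1,⟨1,[(8,0),(0,0),(17,
  0)]⟩,⟨0,[]⟩⟩ ⟨true,0,⟨4,[(0,1),(2,0),(1,0),(19,4)]⟩,⟨0,[(16,0),(6,0)]⟩⟩]⟩) (.R ⟨0,false,false,
  false,[0,1,-1],[0,1],[1],(⟨0,[(7,0)]⟩,⟨0,[(18,0),(1,0)]⟩),(⟨0,[(21,0)]⟩,⟨0,[(20,0)]⟩),⟨0,[(18,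
  0)]⟩,.k,.k,.k,.k,.k,.k,⟨false,1,⟨3,[(0,1),(2,1),(0,1),(14,0),(6,0)]⟩,⟨1,[(15,0),(0,0),(8,1)]⟩⟩,
  ⟨true,0,⟨0,[(2,0),(10,0),(11,0),(1,0)]⟩,⟨0,[(16,0)]⟩⟩,⟨true,1,⟨0,[(0,0),(0,0),(11,0),(13,0)]⟩,⟨1,
  [(2,1),(12,0),(0,0),(8,3)]⟩⟩,⟨false,1,⟨0,[(13,0),(13,0)]⟩,⟨5,[(0,1),(1,3),(11,1),(1,1),(2,0),(5,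
  3),(1,2)]⟩⟩,⟨false,0,⟨0,[]⟩,⟨0,[]⟩⟩,⟨false,0,⟨0,[]⟩,⟨0,[]⟩⟩,[.o ⟨false,0,⟨0,[(25,0)]⟩,⟨3,[(4,1),
  (3,0),(0,0),(9,0)]⟩⟩,.o ⟨false,1,⟨1,[(8,0),(0,0),(15,1),(1,0)]⟩,⟨0,[(1,0)]⟩⟩,.e ⟨true,0,⟨0,[]⟩,⟨0,
  [(29,0)]⟩⟩ ⟨true,0,⟨0,[(15,0),(9,0)]⟩,⟨0,[(0,0),(0,0)]⟩⟩,.a ⟨true,0,⟨3,[(0,2),(4,0),(10,2)]⟩,⟨0,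
  [(2,0),(10,0),(11,0),(1,0)]⟩⟩ ⟨false,1,⟨1,[(26,0),(0,0)]⟩,⟨1,[(15,0),(0,0)]⟩⟩ ⟨true,0,⟨0,[(2,0),
  (10,0),(11,1),(1,0)]⟩,⟨1,[(0,0),(0,0),(14,0),(7,0)]⟩⟩]⟩))))

theorem ok2 : chk K t2 r1 = true := by decide +kernel

noncomputable def t3 : Tre :=
  .Q [0,0,2,0,0,0,-1,0,0,-1,1] (.p true [0,0,1] [1] (⟨0,[(14,0)]⟩,⟨0,[(13,0)]⟩) .k 1 (⟨0,[]⟩,⟨0,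
  []⟩) .k .k) t1 t2

theorem ok3 : chk K t3 r0 = true :=
  chk_Q (e' := [0,0,-2,0,0,0,1,0,0,1,-1]) (by decide +kernel) (by decide +kernel) ok1 ok2

noncomputable def t4 : Tre :=
  .Q [0,0,0,2,-1,0,0,0,0,1] (.pp false [-1,1]) t0 t3

theorem ok4 : chk K t4 base = true :=
  chk_Q (e' := [0,0,0,-2,1,0,0,0,0,-1]) (by decide +kernel) (by decide +kernel) ok0 ok3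

theorem closed {p a b c J l q : ℤ} {D dl : ℝ} {Cl : ℤ → ℤ → ℤ → ℤ → ℝ → Prop}
    (W : World p a b c J (-1) l q D dl Cl) (g : G0 p a b c J D)
    {N X R : ℤ} {I : ℝ} (hk : KCl p l Cl N X R I) (kz : KF a b D (X + (-1 : ℤ) * I) (X + (-1 : ℤ) * I + R) I)
    {Ne Xe : ℤ} {Ie : ℝ} (he : EFac p (-1) D Cl 1 Ne Xe Ie)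
    (hkf : ∀ kf ∈ (kfY (-1) [0,0,0,0,0,0,1,0,0,0,-1]), KOk p l Cl (-1)
      (xv [1, a, b, c, p, J, X, R, Xe] [D, I, Ie]) N kf)
    (h0 : 1 ≤ (c : ℝ))
    (h1 : 1 ≤ (a : ℝ) - (b : ℝ) - (c : ℝ))
    (h2 : 1 ≤ 2 * (a : ℝ) - (b : ℝ))
    (h3 : 0 < -(b : ℝ) + (X : ℝ) + D - I)
    (h4 : 0 < (J : ℝ) - I)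
    (h5 : 0 < (J : ℝ) - D + I)
    (h6 : 0 < 2 * (X : ℝ) + D - 2 * I) : False := by
  have g1 := g.a2
  have g2 := g.b2
  have g3 := g.pa
  have g4 := g.pb
  have g5 := g.J1
  have g6 := g.JD
  have g7 := g.D2
  have g8 := g.ca
  have g9 := g.ca'
  have k1 := kz.I0
  have k2 := kz.ID
  have k3 := kz.z1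
  have k4 := kz.z2
  have k5 := kz.s1
  have k6 := kz.s2
  have e1 := he.I0
  have e2 := he.ID
  have e3 := he.x0
  have e4 := he.xp
  push_cast at *
  refine (val_E W.toBase hk he (row := [1]) (by simp) (by simp) (kfY (-1) [0,0,0,0,0,0,1,0,0,0,-1])).sound W rfl (Nk := N)
    (fun kf _ _ => ⟨_, rfl⟩) hkf ?_ ok4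
  · simp only [base, List.forall_mem_cons, List.not_mem_nil, false_imp_iff, implies_true,
      and_true, hld, xv, evg_cons, evg_nil, List.map_cons, List.map_nil, List.cons_append,
      List.nil_append, if_true, if_false, Bool.false_eq_true]
    push_cast
    refine ⟨?_, ?_, ?_, ?_, ?_, ?_, ?_, ?_, ?_, ?_, ?_, ?_, ?_, ?_, ?_, ?_, ?_, ?_, ?_, ?_, ?_, ?_, ?_, ?_, ?_⟩ <;> linarith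

end Helper25.S1T.Ypm_1a
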