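import Pool.Agent.Helper25.KG.S1b
import Pool.Agent.Helper11.CT.Cut

set_option autoImplicit false
set_option linter.all false

namespace Helper25.S1T.Ypm_1b

open Helper25.KG Helper25.KW Helper55.KE Helper11.CT

noncomputable def K : Cls :=
  cE (-1) [1] (kfY (-1) [0,0,0,0,0,0,1,0,0,0,-1])

noncomputable def base : List Con :=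
  [(false,[0,0,0,0,0,0,2,0,0,1,-2]),
  (false,[0,0,0,0,0,-1,0,0,0,1,-1]),
  (false,[0,0,0,0,0,1,0,0,0,0,-1]),
  (false,[0,0,0,0,1,0,0,0,-1,0,0,1]),
  (false,[0,0,0,0,0,0,0,0,1,0,0,-1]),
  (false,[0,0,0,0,0,0,0,0,0,1,0,-1]),
  (false,[0,0,0,0,0,0,0,0,0,0,0,1]),
  (false,[0,0,-1,0,0,0,1,0,0,1,-1]),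
  (false,[0,1,0,0,0,0,1,1,0,0,-1]),
  (false,[0,1,0,0,0,0,-1,-1,0,0,1]),
  (false,[0,0,1,0,0,0,1,0,0,0,-1]),
  (false,[0,0,1,0,0,0,-1,0,0,0,1]),
  (false,[0,0,0,0,0,0,0,0,0,1,-1]),
  (false,[0,0,0,0,0,0,0,0,0,0,1]),
  (false,[0,0,0,0,1,0,0,0,0,-2]),
  (false,[0,0,0,0,0,-1,0,0,0,1]),
  (true,[0,0,0,0,0,1]),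
  (true,[0,2,-1]),
  (true,[0,1,-1,-1]),
  (true,[0,1,0,-1]),
  (true,[0,0,0,1]),
  (true,[0,0,-2,0,1]),
  (true,[0,-2,0,0,1]),
  (true,[-1,0,1]),
  (true,[-1,1])]

noncomputable def l0 : List Con := (false, [0,0,0,-2,1,0,0,0,0,-1]) :: base

noncomputable def r0 : List Con := (false, [0,0,0,2,-1,0,0,0,0,1]) :: base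

noncomputable def l1 : List Con := (true, [0,1,0,0,-1,0,0,-1]) :: l0

noncomputable def r1 : List Con := (true, [1,-1,0,0,1,0,0,1]) :: l0

noncomputable def l2 : List Con := (true, [1,0,1,1,0,0,0,1]) :: r1

noncomputable def r2 : List Con := (true, [0,0,-1,-1,0,0,0,-1]) :: r1

noncomputable def l3 : List Con := (true, [0,-1,-1,0,1,0,0,-1]) :: l2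

noncomputable def r3 : List Con := (true, [1,1,1,0,-1,0,0,1]) :: l2

noncomputable def l4 : List Con := (true, [0,0,1,1,0,0,0,1]) :: l3

noncomputable def r4 : List Con := (true, [1,0,-1,-1,0,0,0,-1]) :: l3

noncomputable def l5 : List Con := (false, [0,0,0,1,0,0,1,1,0,0,-1]) :: l4

noncomputable def r5 : List Con := (false, [0,0,0,-1,0,0,-1,-1,0,0,1]) :: l4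

noncomputable def t0 : Tre :=
  (.Q [0,0,0,0,0,0,-1,-1,0,-1,1] (.p true [0,0,1] [1] (⟨0,[(15,0)]⟩,⟨0,[(14,0)]⟩) .k 1 (⟨0,[]⟩,⟨0,
  []⟩) .k .k) (.S ⟨1,0,[0,0,0,0,0,0,0,-1],[1,0,-1],[1,1,0,-1,0,0,0,-1],(⟨0,[(15,0)]⟩,⟨0,[(16,0)]⟩),
  ⟨0,[(4,0)]⟩,.k,.k,⟨true,0,⟨0,[(22,0)]⟩,⟨0,[(23,0)]⟩⟩,⟨false,1,⟨1,[(6,0),(0,0),(17,0)]⟩,⟨0,[]⟩⟩,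
  ⟨false,0,⟨0,[]⟩,⟨1,[(6,0),(0,0),(17,0)]⟩⟩,⟨true,0,⟨0,[(23,0)]⟩,⟨0,[(22,0)]⟩⟩,[.o ⟨false,0,⟨0,[(0,
  0)]⟩,⟨1,[(6,0),(0,0),(3,1),(13,0)]⟩⟩,.o ⟨false,1,⟨3,[(0,1),(11,1),(4,0),(7,2)]⟩,⟨0,[(11,0)]⟩⟩,.o
  ⟨false,1,⟨1,[(14,1),(2,0),(6,0)]⟩,⟨0,[(1,0),(9,0),(13,0)]⟩⟩,.a ⟨true,0,⟨0,[(14,0)]⟩,⟨0,[(10,0)]⟩⟩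
  ⟨false,0,⟨0,[(1,0),(19,0),(3,0)]⟩,⟨0,[(11,0),(2,0),(8,0),(1,0)]⟩⟩ ⟨true,0,⟨0,[(0,0),(9,0)]⟩,⟨0,
  [(11,0),(2,0)]⟩⟩]⟩) (.Q [0,1,1,1,-1,0,1,0,0,0,-1] (.p false [0,0,1] [] (⟨0,[(16,0)]⟩,⟨0,[(15,
  0)]⟩) .k 0 (⟨0,[]⟩,⟨0,[]⟩) .k .k) (.Q [0,1,1,0,-1,0,2,1,0,1,-2] (.p false [0,0,1] [1,0,-1] (⟨0,
  [(17,0)]⟩,⟨0,[(16,0)]⟩) .k 2 (⟨0,[(16,0)]⟩,⟨0,[(17,0)]⟩) .k (.r (-2) ⟨0,[(1,1),(13,1),(2,0),(6,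
  0)]⟩ ⟨0,[(2,1),(23,0)]⟩)) (.Q [0,0,1,0,-1,0,1,0,0,1,-1] (.p false [0,0,1] [1] (⟨0,[(18,0)]⟩,⟨0,
  [(17,0)]⟩) .k 1 (⟨0,[]⟩,⟨0,[]⟩) .k .k) (.Q [0,-1,0,1,0,0,0,0,0,1] (.pp false [-1,1]) (.R ⟨0,false,
  false,false,[0,1,-1],[0,1],[1,0,1],(⟨0,[(9,0)]⟩,⟨0,[(20,0),(1,0)]⟩),(⟨0,[(23,0)]⟩,⟨0,[(22,0)]⟩),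
  ⟨0,[(20,0)]⟩,.k,.k,.k,.k,.k,.k,⟨false,1,⟨1,[(26,1),(1,0),(0,0)]⟩,⟨0,[(27,0)]⟩⟩,⟨true,0,⟨1,[(1,0),
  (12,0),(6,0)]⟩,⟨0,[(18,0)]⟩⟩,⟨true,1,⟨1,[(4,1),(13,1),(2,0),(3,1),(3,0)]⟩,⟨0,[(5,0),(21,0)]⟩⟩,
  ⟨false,1,⟨1,[(4,1),(16,0),(7,0)]⟩,⟨1,[(5,1),(12,1),(9,0),(0,0)]⟩⟩,⟨false,0,⟨0,[]⟩,⟨0,[]⟩⟩,⟨false,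
  0,⟨0,[]⟩,⟨0,[]⟩⟩,[.o ⟨false,0,⟨0,[(27,0)]⟩,⟨3,[(6,1),(3,0),(0,0),(9,0)]⟩⟩,.a ⟨true,0,⟨0,[(0,0)]⟩,
  ⟨0,[(26,0)]⟩⟩ ⟨false,1,⟨1,[(10,0),(0,0),(17,0)]⟩,⟨0,[(25,0),(1,0)]⟩⟩ ⟨true,0,⟨0,[(3,0),(25,0)]⟩,
  ⟨0,[(18,0),(6,0)]⟩⟩,.o ⟨false,1,⟨0,[(18,0),(9,0)]⟩,⟨0,[(1,0),(19,0)]⟩⟩,.e ⟨true,0,⟨0,[]⟩,⟨0,[(31,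
  0)]⟩⟩ ⟨true,0,⟨3,[(3,1),(10,1),(6,0),(5,1),(1,0)]⟩,⟨0,[(18,0),(6,0)]⟩⟩]⟩) (.R ⟨0,false,false,true,
  [0,0,1],[1,-1],[1,1,-1,-1],(⟨0,[(20,0)]⟩,⟨0,[(19,0)]⟩),(⟨0,[(22,0)]⟩,⟨0,[(23,0)]⟩),⟨0,[(9,0)]⟩,.k,
  .k,.k,.k,.k,.k,⟨true,0,⟨0,[]⟩,⟨1,[(17,0),(0,0)]⟩⟩,⟨false,1,⟨1,[(18,1),(2,0),(6,0)]⟩,⟨0,[(14,0)]⟩⟩,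
  ⟨false,0,⟨0,[(5,0),(19,0),(3,0)]⟩,⟨1,[(4,1),(13,1),(2,0),(5,1),(1,0)]⟩⟩,⟨true,0,⟨1,[(5,1),(12,1),
  (2,0),(3,1),(3,0)]⟩,⟨0,[(4,0),(22,0)]⟩⟩,⟨false,0,⟨0,[]⟩,⟨0,[]⟩⟩,⟨false,0,⟨0,[]⟩,⟨0,[]⟩⟩,[.o
  ⟨false,0,⟨0,[(0,0)]⟩,⟨1,[(10,0),(0,0),(15,1),(1,0)]⟩⟩,.o ⟨false,1,⟨3,[(6,1),(3,0),(0,0),(9,0)]⟩,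
  ⟨0,[(27,0)]⟩⟩,.o ⟨false,0,⟨1,[(1,0),(12,0),(6,0)]⟩,⟨1,[(18,1),(2,0),(6,0)]⟩⟩,.a ⟨true,(-1),⟨0,[(1,
  0)]⟩,⟨0,[(18,0),(9,0)]⟩⟩ ⟨false,1,⟨1,[(25,1),(2,0),(0,0)]⟩,⟨0,[(3,0),(14,0),(10,0)]⟩⟩ ⟨true,1,⟨1,
  [(18,1),(2,0),(3,1),(2,0)]⟩,⟨0,[(1,0),(25,0)]⟩⟩]⟩)) (.R ⟨0,false,false,false,[0,0,1],[1,0,-1],[1],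
  (⟨0,[(19,0)]⟩,⟨0,[(18,0)]⟩),(⟨0,[(18,0)]⟩,⟨0,[(19,0)]⟩),⟨0,[(8,0)]⟩,.k,.k,.k,.k,.k,.k,⟨false,1,⟨0,
  [(0,0),(2,0)]⟩,⟨9,[(4,5),(1,1),(8,3),(4,0),(7,4)]⟩⟩,⟨true,1,⟨0,[(0,0),(16,0)]⟩,⟨0,[(1,0),(2,0),
  (23,0)]⟩⟩,⟨false,0,⟨0,[(4,0),(23,0)]⟩,⟨3,[(0,1),(2,3),(5,0),(0,0),(6,1),(2,0)]⟩⟩,⟨true,0,⟨0,[(0,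
  0),(3,1),(12,0),(10,0)]⟩,⟨0,[(3,0),(10,0)]⟩⟩,⟨false,0,⟨0,[]⟩,⟨0,[]⟩⟩,⟨false,0,⟨0,[]⟩,⟨0,[]⟩⟩,[.a
  ⟨true,0,⟨1,[(4,1),(12,1),(9,0),(0,0)]⟩,⟨0,[(3,0)]⟩⟩ ⟨true,0,⟨0,[]⟩,⟨1,[(16,0),(0,0)]⟩⟩ ⟨false,1,
  ⟨1,[(0,1),(3,1),(12,1),(9,0),(0,0)]⟩,⟨3,[(1,1),(1,1),(9,1),(6,0),(7,0)]⟩⟩,.o ⟨false,1,⟨2,[(0,0),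
  (3,1),(10,0),(1,0),(2,0),(7,2)]⟩,⟨0,[(14,0)]⟩⟩,.o ⟨false,0,⟨2,[(1,0),(2,0),(8,0),(6,0),(7,0)]⟩,⟨3,
  [(0,1),(8,0),(0,0),(6,1),(2,0)]⟩⟩,.o ⟨false,0,⟨0,[(16,0)]⟩,⟨0,[(0,0)]⟩⟩]⟩)) (.Q [0,1,-1,0,0,0,0,1,
  0,1] (.pp false [-1,1]) (.Q [0,0,0,1,-1,0,-1,-1,0,1,1] (.p true [1,-1,1] [] (⟨0,[(19,0),(1,0)]⟩,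
  ⟨0,[(8,0)]⟩) .k 0 (⟨0,[]⟩,⟨0,[]⟩) .k .k) (.R ⟨0,false,false,true,[0,0,1],[1,-1],[0,0,1],(⟨0,[(20,
  0)]⟩,⟨0,[(19,0)]⟩),(⟨0,[(22,0)]⟩,⟨0,[(23,0)]⟩),⟨0,[(9,0)]⟩,.k,.k,.k,.k,.k,.k,⟨true,0,⟨0,[(3,0),
  (14,0),(10,0)]⟩,⟨0,[(25,0)]⟩⟩,⟨false,1,⟨3,[(1,0),(0,0),(7,0),(0,0),(6,1),(2,1)]⟩,⟨0,[(14,0)]⟩⟩,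
  ⟨false,0,⟨1,[(5,1),(11,0),(0,0),(10,1)]⟩,⟨1,[(1,1),(19,0),(7,0)]⟩⟩,⟨true,0,⟨3,[(2,0),(2,2),(0,0),
  (11,1),(2,0),(3,0),(0,0)]⟩,⟨0,[(4,0),(22,0)]⟩⟩,⟨false,0,⟨0,[]⟩,⟨0,[]⟩⟩,⟨false,0,⟨0,[]⟩,⟨0,[]⟩⟩,
  [.a ⟨true,0,⟨0,[(26,0)]⟩,⟨1,[(0,0),(3,0),(22,0),(1,0)]⟩⟩ ⟨true,0,⟨1,[(17,0),(0,0)]⟩,⟨0,[]⟩⟩
  ⟨false,1,⟨2,[(1,0),(0,0),(3,0),(11,0),(2,0),(2,0),(0,0)]⟩,⟨3,[(0,0),(2,1),(0,0),(9,1),(12,0),(1,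
  2)]⟩⟩,.o ⟨false,1,⟨3,[(6,1),(3,0),(0,0),(9,0)]⟩,⟨0,[(27,0)]⟩⟩,.o ⟨false,0,⟨1,[(4,1),(0,1),(15,0),
  (7,0)]⟩,⟨3,[(1,0),(0,0),(7,0),(0,0),(6,1),(2,1)]⟩⟩,.o ⟨false,0,⟨0,[(17,0)]⟩,⟨1,[(1,0),(0,0),(18,
  0)]⟩⟩]⟩) (.Q [0,-1,0,1,0,0,-1,-1,0,0,1] (.p true [0,0,1] [] (⟨0,[(20,0)]⟩,⟨0,[(19,0)]⟩) .k 0 (⟨0,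
  []⟩,⟨0,[]⟩) .k .k) (.R ⟨0,false,false,false,[0,0,1],[0,1],[1,1],(⟨0,[(21,0)]⟩,⟨0,[(20,0)]⟩),(⟨0,
  [(24,0)]⟩,⟨0,[(23,0)]⟩),⟨0,[(10,0)]⟩,.k,.k,.k,.k,.k,.k,⟨true,0,⟨0,[(26,0)]⟩,⟨0,[(4,0),(14,0),(10,
  0)]⟩⟩,⟨false,1,⟨1,[(2,0),(0,0),(25,0)]⟩,⟨0,[(18,0)]⟩⟩,⟨true,(-1),⟨0,[(6,0)]⟩,⟨3,[(2,1),(2,1),(5,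
  0),(0,0),(6,1),(2,1),(7,0)]⟩⟩,⟨false,0,⟨0,[(0,0)]⟩,⟨2,[(1,0),(3,1),(1,0),(3,0),(0,0)]⟩⟩,⟨false,0,
  ⟨0,[]⟩,⟨0,[]⟩⟩,⟨false,0,⟨0,[]⟩,⟨0,[]⟩⟩,[.o ⟨false,0,⟨0,[(28,0)]⟩,⟨3,[(7,1),(3,0),(0,0),(9,0)]⟩⟩,
  .a ⟨true,0,⟨0,[(0,0),(4,0)]⟩,⟨0,[(27,0)]⟩⟩ ⟨true,0,⟨0,[]⟩,⟨1,[(18,0),(0,0)]⟩⟩ ⟨false,1,⟨1,[(2,0),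
  (0,0),(24,1),(1,0)]⟩,⟨2,[(6,0),(0,0),(0,0),(7,0),(10,0)]⟩⟩,.o ⟨false,0,⟨2,[(1,0),(2,0),(1,0),(8,
  0),(14,0)]⟩,⟨3,[(2,0),(0,0),(7,0),(0,0),(6,1),(2,1)]⟩⟩,.o ⟨false,0,⟨0,[(18,0)]⟩,⟨1,[(2,0),(0,0),
  (18,0)]⟩⟩]⟩) (.Q [0,0,1,0,-1,0,2,0,0,1,-2] (.p false [0,0,1] [1,0,-1] (⟨0,[(21,0)]⟩,⟨0,[(20,0)]⟩)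
  .k 2 (⟨0,[(20,0)]⟩,⟨0,[(21,0)]⟩) .k (.r (-2) ⟨1,[(2,1),(2,1),(5,0),(0,0),(6,1),(2,1),(7,0)]⟩ ⟨0,
  [(6,1),(23,0)]⟩)) (.R ⟨0,false,false,false,[0,0,1],[1,0,-1],[1],(⟨0,[(22,0)]⟩,⟨0,[(21,0)]⟩),(⟨0,
  [(21,0)]⟩,⟨0,[(22,0)]⟩),⟨0,[(11,0)]⟩,.k,.k,.k,.k,.k,.k,⟨false,1,⟨1,[(3,1),(19,0),(7,0)]⟩,⟨3,[(4,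
  0),(2,1),(1,0),(8,0),(0,0),(11,0)]⟩⟩,⟨true,1,⟨1,[(3,0),(0,0),(15,1),(2,0)]⟩,⟨0,[(0,0)]⟩⟩,⟨false,0,
  ⟨0,[(7,0),(23,0)]⟩,⟨3,[(3,1),(2,1),(5,0),(0,0),(6,1),(2,1),(7,0)]⟩⟩,⟨true,0,⟨1,[(4,1),(2,1),(11,
  0),(0,0)]⟩,⟨0,[(6,0),(10,0)]⟩⟩,⟨false,0,⟨0,[]⟩,⟨0,[]⟩⟩,⟨false,0,⟨0,[]⟩,⟨0,[]⟩⟩,[.a ⟨true,0,⟨3,[(4,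
  0),(2,1),(10,0),(1,0),(0,0),(0,0),(8,0)]⟩,⟨0,[(6,0)]⟩⟩ ⟨true,0,⟨0,[]⟩,⟨1,[(19,0),(0,0)]⟩⟩ ⟨false,
  1,⟨3,[(3,0),(0,2),(13,1),(4,0)]⟩,⟨2,[(0,0),(5,2),(9,0),(6,0)]⟩⟩,.o ⟨false,1,⟨0,[(4,0),(14,0)]⟩,⟨0,
  [(17,0)]⟩⟩,.o ⟨false,0,⟨2,[(0,0),(15,0),(6,0)]⟩,⟨3,[(3,0),(0,0),(7,0),(0,0),(6,1),(2,1)]⟩⟩,.o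
  ⟨false,0,⟨0,[(19,0)]⟩,⟨1,[(3,0),(0,0),(18,0)]⟩⟩]⟩) (.S ⟨1,0,[0,0,0,0,0,0,0,-1],[1,0,-1],[1,1,0,-1,
  0,0,0,-1],(⟨0,[(21,0)]⟩,⟨0,[(22,0)]⟩),⟨0,[(10,0)]⟩,.k,.k,⟨true,0,⟨0,[(28,0)]⟩,⟨0,[(29,0)]⟩⟩,
  ⟨false,1,⟨1,[(12,0),(0,0),(17,0)]⟩,⟨0,[]⟩⟩,⟨false,0,⟨0,[]⟩,⟨1,[(12,0),(0,0),(17,0)]⟩⟩,⟨true,0,⟨0,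
  [(29,0)]⟩,⟨0,[(28,0)]⟩⟩,[.e ⟨false,0,⟨9,[(4,0),(2,5),(0,3),(7,4),(1,2),(8,1),(2,0)]⟩,⟨0,[(0,0),(4,
  0),(0,0),(24,0)]⟩⟩ ⟨false,0,⟨5,[(4,1),(2,3),(8,3),(6,0),(7,0)]⟩,⟨2,[(0,0),(5,2),(5,0),(0,0),(6,0),
  (2,0)]⟩⟩,.o ⟨false,1,⟨0,[(4,0),(14,0)]⟩,⟨0,[(17,0)]⟩⟩,.o ⟨false,1,⟨2,[(0,0),(11,0),(0,0),(6,0),(2,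
  0)]⟩,⟨2,[(2,0),(2,0),(1,0),(8,0),(14,0)]⟩⟩,.a ⟨true,0,⟨0,[(20,0)]⟩,⟨0,[(16,0)]⟩⟩ ⟨false,0,⟨0,[(7,
  0),(19,0),(3,0)]⟩,⟨1,[(6,1),(13,1),(2,0),(5,1),(1,0)]⟩⟩ ⟨true,0,⟨5,[(4,1),(2,3),(8,3),(6,0),(7,
  0)]⟩,⟨0,[(17,0),(2,0)]⟩⟩]⟩)))) (.R ⟨0,false,false,false,[0,0,1],[1,0,-1],[1],(⟨0,[(19,0)]⟩,⟨0,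
  [(18,0)]⟩),(⟨0,[(18,0)]⟩,⟨0,[(19,0)]⟩),⟨0,[(8,0)]⟩,.k,.k,.k,.k,.k,.k,⟨false,1,⟨0,[(1,0),(1,0),(10,
  0)]⟩,⟨1,[(0,0),(12,0),(1,0)]⟩⟩,⟨true,1,⟨0,[(1,0),(12,0),(2,0)]⟩,⟨0,[(0,0),(2,1),(0,0)]⟩⟩,⟨false,0,
  ⟨0,[(4,0),(23,0)]⟩,⟨1,[(3,1),(13,1),(2,0),(6,0)]⟩⟩,⟨true,0,⟨2,[(0,0),(0,1),(2,1),(10,0),(1,0)]⟩,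
  ⟨0,[(3,0),(10,0)]⟩⟩,⟨false,0,⟨0,[]⟩,⟨0,[]⟩⟩,⟨false,0,⟨0,[]⟩,⟨0,[]⟩⟩,[.a ⟨true,0,⟨3,[(1,0),(2,1),
  (10,0),(1,0),(0,0),(0,0),(8,0)]⟩,⟨0,[(3,0)]⟩⟩ ⟨true,0,⟨0,[]⟩,⟨1,[(16,0),(0,0)]⟩⟩ ⟨false,1,⟨11,[(1,
  9),(7,0),(0,0),(4,1),(1,1),(2,0),(2,3)]⟩,⟨1,[(0,0),(2,1),(9,0),(0,0)]⟩⟩,.o ⟨false,1,⟨3,[(0,0),(0,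
  0),(13,1),(4,0),(7,1)]⟩,⟨0,[(14,0)]⟩⟩,.o ⟨false,0,⟨1,[(0,0),(12,0),(0,0)]⟩,⟨1,[(17,1),(2,0),(6,
  0)]⟩⟩,.o ⟨false,0,⟨0,[(16,0)]⟩,⟨0,[(1,0),(12,0)]⟩⟩]⟩))) (.R ⟨0,false,false,true,[0,1,-1],[0,1],[1,
  1],(⟨0,[(6,0)]⟩,⟨0,[(17,0),(1,0)]⟩),(⟨0,[(20,0)]⟩,⟨0,[(19,0)]⟩),⟨0,[(17,0)]⟩,.k,.k,.k,.k,.k,.k,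
  ⟨false,1,⟨3,[(0,1),(10,1),(6,0),(3,1),(2,0)]⟩,⟨1,[(14,0),(0,0),(8,1)]⟩⟩,⟨true,0,⟨1,[(1,1),(0,1),
  (15,0),(7,0)]⟩,⟨0,[(15,0)]⟩⟩,⟨false,1,⟨0,[(0,0),(11,0)]⟩,⟨1,[(2,1),(11,0),(0,0),(8,1),(1,1)]⟩⟩,
  ⟨true,0,⟨0,[(12,0)]⟩,⟨2,[(0,0),(1,1),(10,0),(1,0),(8,0),(1,0)]⟩⟩,⟨false,0,⟨0,[]⟩,⟨0,[]⟩⟩,⟨false,0,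
  ⟨0,[]⟩,⟨0,[]⟩⟩,[.e ⟨false,0,⟨0,[(22,0),(1,0)]⟩,⟨1,[(7,0),(0,0),(17,0)]⟩⟩ ⟨false,0,⟨7,[(2,0),(1,1),
  (7,0),(1,2),(3,0),(2,2),(2,7)]⟩,⟨0,[(0,0)]⟩⟩,.o ⟨false,0,⟨0,[(24,0)]⟩,⟨3,[(3,1),(3,0),(0,0),(9,
  0)]⟩⟩,.e ⟨false,0,⟨0,[]⟩,⟨1,[(7,0),(0,0),(17,0)]⟩⟩ ⟨false,0,⟨0,[(14,0),(9,0)]⟩,⟨0,[(0,0)]⟩⟩,.a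
  ⟨true,0,⟨0,[(0,0),(0,0),(0,0),(12,0),(8,0)]⟩,⟨1,[(1,1),(0,1),(15,0),(7,0)]⟩⟩ ⟨true,0,⟨0,[(22,0),
  (1,0)]⟩,⟨1,[(14,0),(0,0)]⟩⟩ ⟨false,0,⟨1,[(1,1),(0,1),(15,0),(5,1),(1,0)]⟩,⟨5,[(0,3),(2,0),(0,0),
  (10,3),(10,0)]⟩⟩]⟩)))

theorem ok0 : chk K t0 l1 = true := by decide +kernel

noncomputable def t1 : Tre :=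
  (.Q [0,0,0,0,0,0,1,0,0,0,-1] (.p false [0,0,1] [] (⟨0,[(19,0)]⟩,⟨0,[(18,0)]⟩) .k 0 (⟨0,[]⟩,⟨0,
  []⟩) .k .k) (.Q [0,1,0,-1,0,0,-1,-1,0,0,1] (.p true [0,0,1] [] (⟨0,[(20,0)]⟩,⟨0,[(19,0)]⟩) .k 0
  (⟨0,[]⟩,⟨0,[]⟩) .k .k) (.Q [0,0,0,0,0,0,-1,-1,0,0,1] (.p true [0,0,1] [] (⟨0,[(21,0)]⟩,⟨0,[(20,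
  0)]⟩) .k 0 (⟨0,[]⟩,⟨0,[]⟩) .k .k) (.R ⟨2,true,false,false,[0,1],[0,1,1],[0,1,1,1],(⟨0,[]⟩,⟨0,[]⟩),
  (⟨0,[(22,0),(2,0)]⟩,⟨0,[(10,0)]⟩),⟨0,[]⟩,.k,.k,.k,.k,.k,.k,⟨false,0,⟨0,[(0,0),(1,0),(24,0),(1,
  0)]⟩,⟨0,[(7,0)]⟩⟩,⟨true,0,⟨0,[(2,0)]⟩,⟨0,[(20,0)]⟩⟩,⟨true,0,⟨0,[(33,0)]⟩,⟨0,[]⟩⟩,⟨false,1,⟨3,[(3,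
  1),(3,1),(0,0),(0,0),(21,0)]⟩,⟨0,[(0,0)]⟩⟩,⟨false,0,⟨0,[(29,0)]⟩,⟨0,[(28,0),(2,0)]⟩⟩,⟨true,0,⟨0,
  [(3,0)]⟩,⟨0,[(1,0)]⟩⟩,[]⟩) (.I [1,1,-1,-1,0,0,0,-1] (.Q [0,-1,0,0,1,0,-1,-1,0,-1,1] (.p true [0,0,
  1] [1] (⟨0,[(23,0)]⟩,⟨0,[(22,0)]⟩) .k 1 (⟨0,[]⟩,⟨0,[]⟩) .k .k) (.S ⟨1,0,[0,0,0,0,0,0,0,-1],[1,0,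
  -1],[1,1,0,-1,0,0,0,-1],(⟨0,[(23,0)]⟩,⟨0,[(24,0)]⟩),⟨0,[(12,0)]⟩,.k,.k,⟨true,0,⟨0,[(30,0)]⟩,⟨0,
  [(31,0)]⟩⟩,⟨false,1,⟨1,[(14,0),(0,0),(17,0)]⟩,⟨0,[]⟩⟩,⟨false,0,⟨0,[]⟩,⟨1,[(14,0),(0,0),(17,0)]⟩⟩,
  ⟨true,0,⟨0,[(31,0)]⟩,⟨0,[(30,0)]⟩⟩,[.o ⟨false,1,⟨3,[(0,1),(13,0),(0,0),(4,1),(4,0)]⟩,⟨0,[(2,0)]⟩⟩,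
  .o ⟨false,1,⟨0,[(0,0)]⟩,⟨0,[(19,0)]⟩⟩,.o ⟨false,1,⟨1,[(22,1),(2,0),(6,0)]⟩,⟨0,[(4,0)]⟩⟩,.a ⟨true,
  0,⟨0,[(22,0)]⟩,⟨0,[(18,0)]⟩⟩ ⟨true,0,⟨0,[(1,0)]⟩,⟨0,[(6,0)]⟩⟩ ⟨false,1,⟨0,[(7,0)]⟩,⟨0,[(2,0),(19,
  0)]⟩⟩]⟩) (.I [1,0,0,-1,0,0,0,-1] (.Q [0,1,1,1,-1,0,1,0,0,0,-1] (.p false [0,0,1] [] (⟨0,[(25,0)]⟩,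
  ⟨0,[(24,0)]⟩) .k 0 (⟨0,[]⟩,⟨0,[]⟩) .k .k) (.Q [0,0,1,0,-1,0,1,0,0,1,-1] (.p false [0,0,1] [1] (⟨0,
  [(26,0)]⟩,⟨0,[(25,0)]⟩) .k 1 (⟨0,[]⟩,⟨0,[]⟩) .k .k) (.Q [0,-1,0,-1,1,0,0,0,0,-1] (.pp true [-1,
  1]) (.R ⟨0,false,false,false,[0,0,1],[1,-1],[1,0,-1,-1],(⟨0,[(28,0)]⟩,⟨0,[(27,0)]⟩),(⟨0,[(30,0)]⟩,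
  ⟨0,[(31,0)]⟩),⟨0,[(17,0)]⟩,.k,.k,.k,.k,.k,.k,⟨true,0,⟨0,[]⟩,⟨1,[(25,0),(0,0)]⟩⟩,⟨false,1,⟨1,[(26,
  1),(2,0),(6,0)]⟩,⟨0,[(22,0)]⟩⟩,⟨false,1,⟨0,[(5,0),(31,0)]⟩,⟨0,[(10,0)]⟩⟩,⟨true,1,⟨1,[(7,1),(21,0),
  (7,0)]⟩,⟨0,[(4,0),(30,0)]⟩⟩,⟨false,0,⟨0,[]⟩,⟨0,[]⟩⟩,⟨false,0,⟨0,[]⟩,⟨0,[]⟩⟩,[.o ⟨false,1,⟨3,[(14,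
  1),(3,0),(0,0),(9,0)]⟩,⟨0,[(35,0)]⟩⟩,.o ⟨false,1,⟨0,[(0,0)]⟩,⟨17,[(2,0),(9,4),(2,1),(8,4),(4,0),
  (2,5),(2,11)]⟩⟩,.o ⟨false,0,⟨0,[(8,0)]⟩,⟨1,[(26,1),(2,0),(6,0)]⟩⟩,.a ⟨true,(-1),⟨0,[(1,0)]⟩,⟨0,
  [(26,0),(9,0)]⟩⟩ ⟨true,1,⟨1,[(33,1),(2,0),(0,0)]⟩,⟨0,[(2,0),(23,0)]⟩⟩ ⟨false,2,⟨0,[(0,0),(25,0),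
  (9,0)]⟩,⟨0,[(1,0),(33,0)]⟩⟩]⟩) (.R ⟨0,false,false,false,[0,1,-1],[0,1],[1,0,1],(⟨0,[(17,0)]⟩,⟨0,
  [(28,0),(1,0)]⟩),(⟨0,[(31,0)]⟩,⟨0,[(30,0)]⟩),⟨0,[(28,0)]⟩,.k,.k,.k,.k,.k,.k,⟨false,1,⟨2,[(7,0),(5,
  0),(0,0),(7,0),(13,0)]⟩,⟨0,[(35,0)]⟩⟩,⟨true,0,⟨0,[(8,0)]⟩,⟨0,[(26,0)]⟩⟩,⟨false,1,⟨0,[(6,0),(19,0),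
  (6,0),(3,0)]⟩,⟨0,[(3,0),(31,1)]⟩⟩,⟨true,0,⟨0,[(6,0)]⟩,⟨0,[(24,0)]⟩⟩,⟨false,0,⟨0,[]⟩,⟨0,[]⟩⟩,
  ⟨false,0,⟨0,[]⟩,⟨0,[]⟩⟩,[.o ⟨false,0,⟨0,[(35,0)]⟩,⟨3,[(14,1),(3,0),(0,0),(9,0)]⟩⟩,.a ⟨true,0,⟨0,
  [(0,0),(36,0)]⟩,⟨0,[(34,0)]⟩⟩ ⟨false,1,⟨1,[(18,0),(0,0),(17,0)]⟩,⟨3,[(0,1),(28,0),(3,1),(2,0)]⟩⟩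
  ⟨true,0,⟨0,[(2,0),(34,0)]⟩,⟨0,[(26,0),(6,0)]⟩⟩,.o ⟨false,1,⟨0,[(26,0),(9,0)]⟩,⟨0,[(1,0),(27,0)]⟩⟩,
  .e ⟨true,0,⟨0,[]⟩,⟨0,[(39,0)]⟩⟩ ⟨true,0,⟨1,[(2,0),(6,0),(1,0)]⟩,⟨0,[(26,0),(6,0)]⟩⟩]⟩)) (.R ⟨0,
  false,false,false,[0,0,1],[1,0,-1],[1,1],(⟨0,[(27,0)]⟩,⟨0,[(26,0)]⟩),(⟨0,[(26,0)]⟩,⟨0,[(27,0)]⟩),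
  ⟨0,[(16,0)]⟩,.k,.k,.k,.k,.k,.k,⟨false,0,⟨0,[(0,0),(2,0)]⟩,⟨1,[(10,0),(12,0),(0,0),(11,0)]⟩⟩,⟨true,
  1,⟨0,[(0,0),(24,0)]⟩,⟨0,[(1,0),(0,0),(0,0),(32,0)]⟩⟩,⟨false,0,⟨0,[(2,0),(31,0)]⟩,⟨1,[(3,1),(21,1),
  (2,0),(3,1),(1,1),(1,2)]⟩⟩,⟨true,1,⟨0,[(0,0),(1,1),(22,0),(8,1)]⟩,⟨0,[(3,0),(1,0)]⟩⟩,⟨false,0,⟨0,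
  []⟩,⟨0,[]⟩⟩,⟨false,0,⟨0,[]⟩,⟨0,[]⟩⟩,[.o ⟨false,1,⟨1,[(23,1),(4,0),(7,0)]⟩,⟨0,[(5,0)]⟩⟩,.a ⟨true,1,
  ⟨0,[(23,0),(12,0)]⟩,⟨0,[(3,0)]⟩⟩ ⟨true,0,⟨0,[]⟩,⟨1,[(24,0),(0,0)]⟩⟩ ⟨false,2,⟨0,[(0,0),(22,0),(12,
  0)]⟩,⟨0,[(3,0),(3,0)]⟩⟩,.o ⟨false,0,⟨0,[(7,0)]⟩,⟨2,[(0,0),(11,0),(10,0),(1,0),(2,0)]⟩⟩,.o ⟨false,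
  0,⟨0,[(24,0)]⟩,⟨0,[(0,0)]⟩⟩]⟩)) (.R ⟨0,false,false,true,[0,1,-1],[0,1],[0,1,1],(⟨0,[(15,0)]⟩,⟨0,
  [(26,0),(1,0)]⟩),(⟨0,[(29,0)]⟩,⟨0,[(28,0)]⟩),⟨0,[(26,0)]⟩,.k,.k,.k,.k,.k,.k,⟨false,1,⟨17,[(0,7),
  (10,1),(0,4),(0,4),(8,1),(7,3),(3,2)]⟩,⟨0,[(33,0)]⟩⟩,⟨true,0,⟨0,[(6,0)]⟩,⟨0,[(24,0)]⟩⟩,⟨true,0,⟨3,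
  [(0,0),(1,2),(7,0),(1,0),(11,1),(2,0),(3,1)]⟩,⟨0,[(1,0),(31,1)]⟩⟩,⟨false,0,⟨0,[(4,0)]⟩,⟨0,[(22,0),
  (12,0)]⟩⟩,⟨false,0,⟨0,[]⟩,⟨0,[]⟩⟩,⟨false,0,⟨0,[]⟩,⟨0,[]⟩⟩,[.e ⟨false,0,⟨0,[(37,0)]⟩,⟨1,[(34,0),(0,
  0)]⟩⟩ ⟨false,0,⟨1,[(6,0),(16,0),(6,0),(2,1)]⟩,⟨0,[(0,0)]⟩⟩,.o ⟨false,0,⟨0,[(33,0)]⟩,⟨3,[(12,1),(3,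
  0),(0,0),(9,0)]⟩⟩,.e ⟨false,0,⟨1,[(23,0),(0,0)]⟩,⟨1,[(34,0),(0,0)]⟩⟩ ⟨false,0,⟨0,[(23,0),(9,0)]⟩,
  ⟨0,[(0,0)]⟩⟩,.a ⟨true,0,⟨0,[(0,0),(0,0),(0,0),(21,0),(8,1)]⟩,⟨0,[(6,0)]⟩⟩ ⟨true,0,⟨0,[(37,0)]⟩,⟨0,
  []⟩⟩ ⟨false,0,⟨0,[(6,0),(26,0)]⟩,⟨5,[(0,3),(11,0),(0,0),(10,3),(10,0)]⟩⟩]⟩)) (.S ⟨1,0,[0,0,0,0,0,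
  0,0,-1],[1,0,-1],[1,1,0,-1,0,0,0,-1],(⟨0,[(24,0)]⟩,⟨0,[(25,0)]⟩),⟨0,[(13,0)]⟩,.k,.k,⟨true,0,⟨0,
  [(31,0)]⟩,⟨0,[(32,0)]⟩⟩,⟨false,1,⟨1,[(15,0),(0,0),(17,0)]⟩,⟨0,[]⟩⟩,⟨false,0,⟨0,[]⟩,⟨1,[(15,0),(0,
  0),(17,0)]⟩⟩,⟨true,0,⟨0,[(32,0)]⟩,⟨0,[(31,0)]⟩⟩,[.o ⟨false,1,⟨1,[(21,1),(4,0),(7,0)]⟩,⟨0,[(3,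
  0)]⟩⟩,.e ⟨false,1,⟨3,[(4,1),(3,1),(2,0),(0,0),(20,0)]⟩,⟨0,[(0,0)]⟩⟩ ⟨false,1,⟨0,[(8,0)]⟩,⟨0,[(0,
  0),(30,0)]⟩⟩,.o ⟨false,1,⟨1,[(23,1),(2,0),(6,0)]⟩,⟨0,[(5,0)]⟩⟩,.a ⟨true,0,⟨0,[(23,0)]⟩,⟨0,[(19,
  0)]⟩⟩ ⟨true,0,⟨0,[(2,0)]⟩,⟨0,[(7,0)]⟩⟩ ⟨false,1,⟨0,[(8,0)]⟩,⟨0,[(3,0),(19,0)]⟩⟩]⟩))) (.S ⟨1,0,[0,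
  0,1,1,0,0,0,1],[0,1,1],[1,1,1,0,0,0,0,1],(⟨0,[(23,0),(2,0)]⟩,⟨0,[(11,0)]⟩),⟨0,[(23,0)]⟩,.k,.k,
  ⟨true,0,⟨0,[(29,0)]⟩,⟨0,[(30,0)]⟩⟩,⟨false,1,⟨1,[(13,0),(0,0),(17,0)]⟩,⟨0,[]⟩⟩,⟨false,0,⟨0,[]⟩,⟨1,
  [(13,0),(0,0),(17,0)]⟩⟩,⟨true,0,⟨0,[(30,0)]⟩,⟨0,[(29,0)]⟩⟩,[.o ⟨false,0,⟨0,[(4,0)]⟩,⟨1,[(2,1),(21,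
  0),(7,0)]⟩⟩,.a ⟨true,0,⟨0,[(0,0),(16,0)]⟩,⟨0,[(2,0)]⟩⟩ ⟨false,0,⟨0,[(0,0),(27,0)]⟩,⟨15,[(6,11),(3,
  1),(2,2),(0,2),(4,3),(4,0),(2,3)]⟩⟩ ⟨true,0,⟨0,[(0,0)]⟩,⟨0,[(2,0),(0,0)]⟩⟩,.e ⟨false,0,⟨0,[(0,0),
  (28,0)]⟩,⟨0,[(6,0)]⟩⟩ ⟨false,0,⟨0,[(0,0)]⟩,⟨3,[(2,1),(3,1),(2,0),(0,0),(20,0)]⟩⟩,.o ⟨false,0,⟨0,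
  [(3,0)]⟩,⟨1,[(21,1),(2,0),(6,0)]⟩⟩]⟩))) (.R ⟨2,true,false,false,[0,1],[0,1,1],[1,0,1],(⟨0,[]⟩,⟨0,
  []⟩),(⟨0,[(21,0),(2,0)]⟩,⟨0,[(9,0)]⟩),⟨0,[]⟩,.k,.k,.k,.k,.k,.k,⟨false,1,⟨1,[(4,0),(2,0),(7,0),(1,
  0)]⟩,⟨0,[(0,0),(18,0),(6,0),(1,0)]⟩⟩,⟨true,0,⟨0,[(1,0)]⟩,⟨0,[(19,0)]⟩⟩,⟨false,1,⟨0,[(27,0),(2,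
  0)]⟩,⟨0,[(28,0)]⟩⟩,⟨true,0,⟨0,[(0,0),(26,0)]⟩,⟨0,[(17,0)]⟩⟩,⟨true,0,⟨0,[]⟩,⟨0,[(32,0)]⟩⟩,⟨false,0,
  ⟨0,[(0,0)]⟩,⟨0,[(17,0),(9,0),(2,0)]⟩⟩,[]⟩)) (.I [1,0,0,0,0,0,0,1] (.Q [0,0,1,0,0,0,2,0,0,0,-2]
  (.p false [0,0,1] [0,1,-1] (⟨0,[(21,0)]⟩,⟨0,[(20,0)]⟩) .k 2 (⟨0,[(10,0)]⟩,⟨0,[(21,0),(1,0)]⟩) .k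
  (.i 0 ⟨0,[(21,1)]⟩ ⟨0,[(9,0),(0,0)]⟩)) (.Q [0,0,0,0,0,0,1,1,0,0,-1] (.p false [0,0,1] [] (⟨0,[(22,
  0)]⟩,⟨0,[(21,0)]⟩) .k 0 (⟨0,[]⟩,⟨0,[]⟩) .k .k) (.Q [0,0,0,-1,0,0,1,1,0,0,-1] (.p false [0,0,1] []
  (⟨0,[(23,0)]⟩,⟨0,[(22,0)]⟩) .k 0 (⟨0,[]⟩,⟨0,[]⟩) .k .k) (.I [0,1,0,0,0,0,0,-1] (.I [1,-1,1,0,0,0,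
  0,1] (.S ⟨1,0,[0,0,0,0,0,0,0,-1],[1,0,-1],[0,1,0,0,0,0,0,-1],(⟨0,[(25,0)]⟩,⟨0,[(26,0)]⟩),⟨0,[(14,
  0)]⟩,.k,.k,⟨true,0,⟨0,[(37,0)]⟩,⟨0,[]⟩⟩,⟨false,1,⟨1,[(16,0),(0,0),(17,0)]⟩,⟨0,[]⟩⟩,⟨false,0,⟨0,
  [(33,0)]⟩,⟨0,[(32,0),(2,0)]⟩⟩,⟨true,0,⟨0,[(33,0)]⟩,⟨0,[(32,0)]⟩⟩,[.o ⟨false,1,⟨1,[(22,1),(4,0),(7,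
  0)]⟩,⟨0,[(3,0)]⟩⟩,.e ⟨false,1,⟨3,[(1,0),(7,2),(6,0),(0,0),(12,0)]⟩,⟨0,[(5,0)]⟩⟩ ⟨false,1,⟨0,[(9,
  0)]⟩,⟨2,[(5,1),(4,0),(19,0),(1,0)]⟩⟩,.a ⟨true,0,⟨0,[(6,0)]⟩,⟨1,[(13,0),(11,0),(0,0)]⟩⟩ ⟨true,0,⟨0,
  [(1,0)]⟩,⟨0,[(5,0)]⟩⟩ ⟨false,1,⟨2,[(4,0),(4,0),(12,1),(12,1)]⟩,⟨0,[(5,0)]⟩⟩,.e ⟨false,1,⟨3,[(1,0),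
  (7,2),(6,0),(0,0),(12,0)]⟩,⟨0,[(0,0)]⟩⟩ ⟨false,1,⟨0,[(9,0)]⟩,⟨1,[(0,0),(9,0),(21,0)]⟩⟩]⟩) (.I [1,
  1,-1,-1,0,0,0,-1] (.Q [0,-1,0,1,0,0,1,0,0,1,-1] (.p false [0,0,1] [1] (⟨0,[(27,0)]⟩,⟨0,[(26,0)]⟩)
  .k 1 (⟨0,[]⟩,⟨0,[]⟩) .k .k) (.R ⟨0,false,false,true,[0,0,1],[1,-1],[0,1,0,-1],(⟨0,[(28,0)]⟩,⟨0,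
  [(27,0)]⟩),(⟨0,[(30,0)]⟩,⟨0,[(31,0)]⟩),⟨0,[(17,0)]⟩,.k,.k,.k,.k,.k,.k,⟨true,0,⟨1,[(25,0),(0,0)]⟩,
  ⟨0,[]⟩⟩,⟨false,1,⟨1,[(8,0),(4,0),(10,0),(4,0)]⟩,⟨0,[(22,0)]⟩⟩,⟨true,0,⟨1,[(1,1),(23,0),(0,0)]⟩,⟨0,
  [(8,0),(0,0)]⟩⟩,⟨false,1,⟨1,[(1,1),(24,1),(2,0),(7,0)]⟩,⟨0,[(0,0),(6,0)]⟩⟩,⟨false,0,⟨0,[]⟩,⟨0,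
  []⟩⟩,⟨false,0,⟨0,[]⟩,⟨0,[]⟩⟩,[.e ⟨false,0,⟨0,[(33,0)]⟩,⟨0,[(11,0),(0,0)]⟩⟩ ⟨false,1,⟨3,[(8,3),(5,
  1),(14,0),(2,1),(3,0)]⟩,⟨0,[(0,0)]⟩⟩,.o ⟨false,1,⟨3,[(14,1),(3,0),(0,0),(9,0)]⟩,⟨0,[(35,0)]⟩⟩,.a
  ⟨true,0,⟨1,[(15,0),(11,0),(0,0)]⟩,⟨0,[(8,0)]⟩⟩ ⟨true,0,⟨0,[(34,0)]⟩,⟨0,[(35,0)]⟩⟩ ⟨false,1,⟨3,[(8,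
  2),(4,0),(0,1),(9,0),(4,0)]⟩,⟨0,[(0,0)]⟩⟩,.o ⟨false,0,⟨0,[(25,0)]⟩,⟨1,[(8,1),(20,0),(6,0)]⟩⟩]⟩)
  (.Q [0,-1,0,1,0,0,0,0,0,1] (.pp false [-1,1]) (.R ⟨0,false,false,true,[0,0,1],[1,-1],[0,1,0,-1],
  (⟨0,[(29,0)]⟩,⟨0,[(28,0)]⟩),(⟨0,[(31,0)]⟩,⟨0,[(32,0)]⟩),⟨0,[(18,0)]⟩,.k,.k,.k,.k,.k,.k,⟨true,0,⟨1,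
  [(26,0),(0,0)]⟩,⟨0,[]⟩⟩,⟨false,1,⟨1,[(9,0),(4,0),(10,0),(4,0)]⟩,⟨0,[(23,0)]⟩⟩,⟨true,0,⟨1,[(2,1),
  (23,0),(0,0)]⟩,⟨0,[(9,0),(0,0)]⟩⟩,⟨false,1,⟨5,[(1,3),(0,1),(22,3),(0,1),(3,0),(7,4)]⟩,⟨1,[(0,1),
  (4,0),(4,0)]⟩⟩,⟨false,0,⟨0,[]⟩,⟨0,[]⟩⟩,⟨false,0,⟨0,[]⟩,⟨0,[]⟩⟩,[.a ⟨true,0,⟨0,[(35,0)]⟩,⟨0,[(0,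
  0)]⟩⟩ ⟨false,0,⟨0,[(34,0)]⟩,⟨0,[(12,0),(0,0)]⟩⟩ ⟨true,0,⟨0,[(1,0)]⟩,⟨0,[(0,0),(25,0)]⟩⟩,.o ⟨false,
  1,⟨3,[(15,1),(3,0),(0,0),(9,0)]⟩,⟨0,[(36,0)]⟩⟩,.e ⟨true,0,⟨0,[(35,0)]⟩,⟨0,[(36,0)]⟩⟩ ⟨true,0,⟨0,
  [(1,0)]⟩,⟨5,[(0,2),(3,0),(8,0),(2,2),(16,0),(2,1)]⟩⟩,.o ⟨false,0,⟨0,[(26,0)]⟩,⟨1,[(9,1),(20,0),(6,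
  0)]⟩⟩]⟩) (.I [0,-1,2,1] (.R ⟨0,false,false,false,[0,0,1],[0,1],[1,1],(⟨0,[(30,0)]⟩,⟨0,[(29,0)]⟩),
  (⟨0,[(33,0)]⟩,⟨0,[(32,0)]⟩),⟨0,[(19,0)]⟩,.k,.k,.k,.k,.k,.k,⟨true,0,⟨0,[(35,0)]⟩,⟨0,[(0,0)]⟩⟩,
  ⟨false,1,⟨0,[(10,0),(27,0)]⟩,⟨0,[(27,0)]⟩⟩,⟨true,0,⟨0,[(5,0)]⟩,⟨0,[(6,0),(3,0),(26,0)]⟩⟩,⟨false,1,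
  ⟨0,[(26,0),(10,0),(1,0)]⟩,⟨0,[(6,0)]⟩⟩,⟨false,0,⟨0,[]⟩,⟨0,[]⟩⟩,⟨false,0,⟨0,[]⟩,⟨0,[]⟩⟩,[.o ⟨false,
  0,⟨0,[(37,0)]⟩,⟨3,[(16,1),(3,0),(0,0),(9,0)]⟩⟩,.o ⟨false,1,⟨0,[(13,0),(0,0)]⟩,⟨0,[(1,0)]⟩⟩,.a
  ⟨true,0,⟨1,[(17,0),(11,0),(0,0)]⟩,⟨0,[(10,0)]⟩⟩ ⟨false,0,⟨0,[]⟩,⟨1,[(20,0),(0,0),(17,0)]⟩⟩ ⟨true,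
  0,⟨0,[(10,0),(26,0)]⟩,⟨1,[(1,0),(15,0),(18,0)]⟩⟩,.o ⟨false,0,⟨0,[(27,0)]⟩,⟨1,[(10,1),(20,0),(6,
  0)]⟩⟩]⟩) (.Q [0,1,0,1,0,0,-2,-2,0,0,2] (.p true [0,0,1] [0,1,-1] (⟨0,[(30,0)]⟩,⟨0,[(29,0)]⟩) .k 2
  (⟨0,[(19,0)]⟩,⟨0,[(30,0),(1,0)]⟩) .k (.r 0 ⟨0,[(6,1),(3,1),(26,1)]⟩ ⟨2,[(8,1),(4,1),(12,3),(12,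
  0)]⟩)) (.I [0,0,-1,-1,0,0,0,2] (.R ⟨0,false,false,false,[0,1,-1],[0,0,1],[1,1,1],(⟨0,[(21,0)]⟩,⟨0,
  [(32,0),(1,0)]⟩),(⟨0,[(32,0)]⟩,⟨0,[(31,0)]⟩),⟨0,[(32,0)]⟩,.k,.k,.k,(.r (-1) ⟨9,[(1,11),(8,10),(4,
  0),(1,4),(0,0),(0,0),(21,2)]⟩ ⟨0,[(0,0)]⟩),.k,.k,⟨false,0,⟨0,[(7,0)]⟩,⟨5,[(0,1),(15,1),(23,2),(0,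
  2)]⟩⟩,⟨true,0,⟨0,[(10,0)]⟩,⟨0,[(12,1)]⟩⟩,⟨false,0,⟨0,[(8,0),(3,0)]⟩,⟨9,[(1,5),(8,1),(2,3),(1,1),
  (3,1),(13,0),(7,6)]⟩⟩,⟨true,0,⟨1,[(8,2),(4,0)]⟩,⟨0,[(1,0)]⟩⟩,⟨false,0,⟨0,[]⟩,⟨0,[]⟩⟩,⟨false,0,⟨0,
  []⟩,⟨0,[]⟩⟩,[.o ⟨false,0,⟨0,[(9,0)]⟩,⟨21,[(1,11),(8,0),(4,0),(1,2),(0,5),(14,7),(7,3)]⟩⟩,.e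
  ⟨false,0,⟨0,[]⟩,⟨1,[(22,0),(0,0),(16,0)]⟩⟩ ⟨false,1,⟨2,[(8,0),(4,0),(3,0),(1,1),(13,0),(7,0)]⟩,⟨1,
  [(1,0),(0,0),(9,1)]⟩⟩,.a ⟨true,0,⟨0,[(12,1),(13,0)]⟩,⟨0,[(29,0)]⟩⟩ ⟨false,0,⟨1,[(29,0),(0,0)]⟩,⟨1,
  [(40,0),(0,0)]⟩⟩ ⟨true,0,⟨5,[(8,2),(1,3),(2,0),(2,1)]⟩,⟨1,[(1,0),(0,0),(9,1)]⟩⟩,.o ⟨false,0,⟨0,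
  [(12,0)]⟩,⟨3,[(19,1),(2,0),(0,0),(9,2)]⟩⟩]⟩) (.I [0,0,1,0,0,-1,2] (.R ⟨0,false,false,false,[0,1,
  -1],[0,0,1],[],(⟨0,[(22,0)]⟩,⟨0,[(33,0),(1,0)]⟩),(⟨0,[(33,0)]⟩,⟨0,[(32,0)]⟩),⟨0,[(33,0)]⟩,.k,.k,
  .k,(.x (-1) ⟨5,[(2,0),(2,0),(7,8),(4,1),(2,2),(0,8),(11,0),(6,2)]⟩ ⟨0,[(0,0)]⟩),.k,.k,⟨false,1,⟨9,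
  [(1,1),(0,1),(13,1),(2,1),(0,1),(2,0),(0,0),(16,4)]⟩,⟨0,[(12,0)]⟩⟩,⟨true,0,⟨0,[(11,0)]⟩,⟨0,[(13,
  1)]⟩⟩,⟨false,1,⟨1,[(3,0),(5,0),(3,0),(4,0),(23,0)]⟩,⟨2,[(1,1),(15,0)]⟩⟩,⟨true,0,⟨1,[(9,2),(4,0)]⟩,
  ⟨0,[(2,0)]⟩⟩,⟨false,0,⟨0,[]⟩,⟨0,[]⟩⟩,⟨false,0,⟨0,[]⟩,⟨0,[]⟩⟩,[.o ⟨false,0,⟨0,[(10,0)]⟩,⟨35,[(1,1),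
  (0,17),(13,1),(1,5),(0,9),(14,12),(7,4)]⟩⟩,.e ⟨false,1,⟨1,[(41,0),(0,0)]⟩,⟨0,[(44,0)]⟩⟩ ⟨false,1,
  ⟨2,[(9,0),(4,0),(3,0),(1,1),(13,0),(7,0)]⟩,⟨1,[(2,0),(0,0),(9,1)]⟩⟩,.a ⟨true,0,⟨0,[(13,1),(13,
  0)]⟩,⟨0,[(30,0)]⟩⟩ ⟨false,1,⟨8,[(1,0),(0,0),(13,0),(1,4),(0,0),(0,0),(21,1)]⟩,⟨0,[]⟩⟩ ⟨true,0,⟨5,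
  [(9,2),(1,3),(2,0),(2,1)]⟩,⟨1,[(2,0),(0,0),(9,1)]⟩⟩,.o ⟨false,0,⟨0,[(13,0)]⟩,⟨3,[(20,1),(2,0),(0,
  0),(9,2)]⟩⟩]⟩) (.I [0,0,-1,0,0,1,-2] (.R ⟨0,false,false,false,[0,1,-1],[0,0,1],[],(⟨0,[(23,0)]⟩,
  ⟨0,[(34,0),(1,0)]⟩),(⟨0,[(34,0)]⟩,⟨0,[(33,0)]⟩),⟨0,[(34,0)]⟩,.k,.k,.k,(.x 0 ⟨0,[(0,0)]⟩ ⟨1,[(12,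
  1),(11,0),(0,0),(8,3),(0,0),(0,1)]⟩),.k,.k,⟨false,1,⟨9,[(2,1),(0,1),(13,1),(2,1),(0,1),(2,0),(0,
  0),(16,4)]⟩,⟨0,[(13,0)]⟩⟩,⟨true,0,⟨0,[(12,0)]⟩,⟨0,[(14,1)]⟩⟩,⟨false,1,⟨1,[(4,0),(5,0),(3,0),(4,0),
  (23,0)]⟩,⟨2,[(2,1),(15,0)]⟩⟩,⟨true,0,⟨1,[(10,2),(4,0)]⟩,⟨0,[(3,0)]⟩⟩,⟨false,0,⟨0,[]⟩,⟨0,[]⟩⟩,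
  ⟨false,0,⟨0,[]⟩,⟨0,[]⟩⟩,[.o ⟨false,0,⟨0,[(11,0)]⟩,⟨35,[(2,1),(0,17),(13,1),(1,5),(0,9),(14,12),(7,
  4)]⟩⟩,.e ⟨false,1,⟨1,[(42,0),(0,0)]⟩,⟨0,[(45,0)]⟩⟩ ⟨false,1,⟨2,[(10,0),(4,0),(3,0),(1,1),(13,0),
  (7,0)]⟩,⟨1,[(3,0),(0,0),(9,1)]⟩⟩,.a ⟨true,0,⟨2,[(0,1),(27,0),(5,3),(1,1)]⟩,⟨0,[(31,0)]⟩⟩ ⟨false,1,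
  ⟨8,[(2,0),(0,0),(13,0),(1,4),(0,0),(0,0),(21,1)]⟩,⟨0,[]⟩⟩ ⟨true,0,⟨5,[(10,2),(1,3),(2,0),(2,1)]⟩,
  ⟨1,[(3,0),(0,0),(9,1)]⟩⟩,.o ⟨false,0,⟨0,[(14,0)]⟩,⟨3,[(21,1),(2,0),(0,0),(9,2)]⟩⟩]⟩) (.Q [0,0,0,0,
  0,-2,0,0,0,1] (.pp false [-1,1]) (.I [0,0,1,1,0,0,0,-2] (.R ⟨0,false,false,false,[0,1,-1],[0,0,1],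
  [],(⟨0,[(25,0)]⟩,⟨0,[(36,0),(1,0)]⟩),(⟨0,[(36,0)]⟩,⟨0,[(35,0)]⟩),⟨0,[(36,0)]⟩,.k,.k,.k,(.r 0 ⟨0,
  [(0,0)]⟩ ⟨1,[(6,0),(8,1),(5,1),(20,0)]⟩),.k,.k,⟨false,1,⟨12,[(0,2),(4,2),(13,1),(1,0),(0,2),(0,2),
  (20,6)]⟩,⟨0,[(15,0)]⟩⟩,⟨true,0,⟨0,[(14,0)]⟩,⟨0,[(16,1)]⟩⟩,⟨false,1,⟨1,[(6,0),(5,0),(3,0),(4,0),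
  (23,0)]⟩,⟨2,[(0,1),(19,0)]⟩⟩,⟨true,0,⟨1,[(12,2),(4,0)]⟩,⟨0,[(5,0)]⟩⟩,⟨false,0,⟨0,[]⟩,⟨0,[]⟩⟩,
  ⟨false,0,⟨0,[]⟩,⟨0,[]⟩⟩,[.o ⟨false,0,⟨0,[(13,0)]⟩,⟨35,[(0,1),(4,17),(13,1),(1,5),(0,9),(14,12),(7,
  4)]⟩⟩,.e ⟨false,1,⟨1,[(44,0),(0,0)]⟩,⟨0,[(47,0)]⟩⟩ ⟨false,1,⟨2,[(12,0),(4,0),(3,0),(1,1),(13,0),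
  (7,0)]⟩,⟨1,[(5,0),(0,0),(9,1)]⟩⟩,.a ⟨true,0,⟨0,[(16,1),(13,0)]⟩,⟨0,[(33,0)]⟩⟩ ⟨false,1,⟨8,[(0,0),
  (4,0),(13,0),(1,4),(0,0),(0,0),(21,1)]⟩,⟨0,[]⟩⟩ ⟨true,0,⟨5,[(12,2),(1,3),(2,0),(2,1)]⟩,⟨1,[(5,0),
  (0,0),(9,1)]⟩⟩,.o ⟨false,0,⟨0,[(16,0)]⟩,⟨17,[(0,1),(20,3),(0,0),(0,8),(13,12),(2,1)]⟩⟩]⟩) (.Q [0,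
  0,2,0,0,0,0,0,0,-1] (.pp true [-1,1]) (.S ⟨1,0,[0,1,-1,-1],[1,-1],[1,0,-1,-2],(⟨0,[(39,0)]⟩,⟨0,
  [(40,0)]⟩),⟨0,[(2,0)]⟩,.k,(.r (-1) ⟨4,[(1,1),(5,1),(2,1),(12,1),(7,1),(1,1),(12,2)]⟩ ⟨0,[(44,1),
  (2,1)]⟩),⟨false,1,⟨0,[(43,0),(2,0)]⟩,⟨0,[(44,0)]⟩⟩,⟨true,0,⟨0,[(48,0)]⟩,⟨0,[]⟩⟩,⟨true,0,⟨0,[]⟩,⟨0,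
  [(48,0)]⟩⟩,⟨false,0,⟨0,[(44,0)]⟩,⟨0,[(43,0),(2,0)]⟩⟩,[.o ⟨false,0,⟨0,[(8,0)]⟩,⟨10,[(5,1),(0,2),
  (11,5),(1,1),(1,5),(23,2)]⟩⟩,.o ⟨false,1,⟨3,[(23,1),(3,0),(0,0),(9,0)]⟩,⟨0,[(44,0)]⟩⟩,.a ⟨true,0,
  ⟨1,[(34,0),(0,0)]⟩,⟨0,[(17,0),(13,0)]⟩⟩ ⟨false,1,⟨0,[(10,0),(2,0),(3,0),(28,0)]⟩,⟨2,[(5,0),(15,1),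
  (22,2)]⟩⟩ ⟨true,0,⟨0,[(42,0)]⟩,⟨2,[(5,0),(15,1)]⟩⟩,.o ⟨false,0,⟨0,[(0,0)]⟩,⟨0,[(45,0)]⟩⟩]⟩) (.Q
  [0,-1,0,2,0,0,0,0,0,1] (.pp false [-1,1]) (.R ⟨1,false,false,false,[1,-1,1],[0,0,1],[1,0,0,0,0,0,
  0,1],(⟨0,[(38,0),(1,0)]⟩,⟨0,[(27,0)]⟩),(⟨0,[(38,0)]⟩,⟨0,[(37,0)]⟩),⟨0,[(3,0),(34,0)]⟩,.k,.k,(.r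
  (-1) ⟨9,[(1,6),(0,3),(20,1),(0,6),(19,1),(1,0)]⟩ ⟨1,[(6,0),(38,2),(2,2)]⟩),.k,(.r (-1) ⟨0,[(1,0),
  (22,0)]⟩ ⟨0,[(45,1),(2,1)]⟩),.k,⟨true,0,⟨0,[]⟩,⟨1,[(35,0),(0,0)]⟩⟩,⟨false,0,⟨0,[(1,0)]⟩,⟨11,[(6,
  3),(15,7),(1,5),(3,2),(0,2),(9,2)]⟩⟩,⟨true,0,⟨2,[(6,0),(15,1)]⟩,⟨0,[(43,0)]⟩⟩,⟨true,0,⟨7,[(0,3),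
  (24,0),(10,1),(0,2),(0,2),(3,1)]⟩,⟨0,[(9,0)]⟩⟩,⟨true,0,⟨2,[(6,0),(15,1),(22,2)]⟩,⟨0,[(11,0),(2,0),
  (3,0)]⟩⟩,⟨false,0,⟨0,[(0,0)]⟩,⟨0,[(24,0)]⟩⟩,[.o ⟨false,0,⟨0,[(15,0)]⟩,⟨35,[(6,1),(0,17),(13,1),(1,
  5),(0,9),(14,12),(7,4)]⟩⟩,.e ⟨false,1,⟨11,[(0,1),(1,3),(20,3),(15,0),(6,3),(0,2)]⟩,⟨0,[(13,0)]⟩⟩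
  ⟨false,1,⟨0,[(1,0),(21,0)]⟩,⟨2,[(6,1),(2,2),(12,0)]⟩⟩,.e ⟨true,0,⟨0,[(17,0)]⟩,⟨0,[(13,0)]⟩⟩ ⟨true,
  0,⟨15,[(0,3),(0,2),(0,7),(34,8),(0,8),(3,1)]⟩,⟨2,[(6,1),(2,2),(12,0)]⟩⟩,.a ⟨true,0,⟨1,[(35,2),(0,
  0)]⟩,⟨0,[(1,0),(16,0)]⟩⟩ ⟨false,1,⟨11,[(0,1),(1,3),(20,3),(15,0),(6,3),(0,2)]⟩,⟨0,[(6,0),(7,0),(3,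
  0)]⟩⟩ ⟨true,0,⟨15,[(0,3),(0,10),(0,7),(34,0),(0,0),(3,1)]⟩,⟨5,[(6,3),(2,5),(12,1),(12,2),(0,
  2)]⟩⟩]⟩) (.Q [0,0,0,2,0,0,-1,-1,0,0,1] (.p true [0,0,1] [] (⟨0,[(38,0)]⟩,⟨0,[(37,0)]⟩) .k 0 (⟨0,
  []⟩,⟨0,[]⟩) .k .k) (.R ⟨1,false,false,false,[1,-1],[1,0,-1],[1],(⟨0,[(41,0)]⟩,⟨0,[(42,0)]⟩),(⟨0,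
  [(38,0)]⟩,⟨0,[(39,0)]⟩),⟨0,[(4,0)]⟩,.k,.k,(.r (-1) ⟨0,[(2,0),(22,0)]⟩ ⟨0,[(46,1),(2,1)]⟩),.k,(.r
  (-1) ⟨9,[(2,6),(0,3),(20,1),(0,6),(19,1),(1,0)]⟩ ⟨1,[(7,0),(38,2),(2,2)]⟩),.k,⟨true,0,⟨0,[(18,
  0)]⟩,⟨0,[(7,0),(7,0),(3,0)]⟩⟩,⟨false,1,⟨3,[(3,1),(4,1),(38,2),(0,0)]⟩,⟨0,[(36,0)]⟩⟩,⟨true,0,⟨2,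
  [(7,0),(15,1)]⟩,⟨0,[(44,0)]⟩⟩,⟨false,1,⟨12,[(0,2),(6,1),(0,4),(13,1),(1,5),(23,4)]⟩,⟨0,[(15,0)]⟩⟩,
  ⟨true,0,⟨2,[(0,1),(16,0),(5,1)]⟩,⟨1,[(1,1),(0,0),(35,0),(0,0)]⟩⟩,⟨true,0,⟨0,[(0,0)]⟩,⟨0,[(15,0),
  (29,0)]⟩⟩,[.o ⟨false,1,⟨35,[(7,1),(0,17),(13,1),(1,5),(0,9),(14,12),(7,4)]⟩,⟨0,[(16,0)]⟩⟩,.o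
  ⟨false,1,⟨0,[(0,0),(0,0),(46,0)]⟩,⟨0,[(34,0)]⟩⟩,.a ⟨true,0,⟨1,[(36,0),(0,0)]⟩,⟨1,[(2,0),(35,0),(0,
  0)]⟩⟩ ⟨true,0,⟨0,[]⟩,⟨0,[(50,0)]⟩⟩ ⟨false,1,⟨1,[(8,0),(0,0),(38,1)]⟩,⟨1,[(15,0),(7,0),(12,0)]⟩⟩,
  .e ⟨false,1,⟨1,[(47,0),(0,0)]⟩,⟨1,[(36,0),(0,0)]⟩⟩ ⟨false,1,⟨0,[(0,0),(0,0),(0,0),(45,0)]⟩,⟨1,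
  [(15,0),(7,0),(12,1),(0,0)]⟩⟩]⟩) (.Q [0,0,1,0,0,0,0,0,-1,0,0,1] (.p true [0,0,0,0,1] [] (⟨0,[(32,
  0)]⟩,⟨0,[(31,0)]⟩) .k 0 (⟨0,[]⟩,⟨0,[]⟩) .k .k) (.K ⟨0,[0,0,0,0,1],0,0,(⟨0,[(33,0)]⟩,⟨0,[(32,0)]⟩),
  .k,(.r (-1) ⟨5,[(3,0),(21,1),(0,2),(7,1),(1,1),(11,0)]⟩ ⟨0,[(1,1),(6,0),(11,1),(26,3)]⟩),(.r 0 ⟨2,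
  [(8,0),(15,1)]⟩ ⟨29,[(3,4),(5,0),(13,7),(1,9),(0,6),(7,1),(11,16),(1,4)]⟩),.k,.k,[⟨0,[(20,0),(10,
  0)]⟩,⟨0,[(0,0)]⟩,⟨4,[(0,4),(9,1),(33,0),(2,1),(3,0)]⟩,⟨0,[(31,0),(19,0)]⟩]⟩) (.Q [0,1,0,-1,0,0,-2,
  -1,0,-1,2] (.p true [0,0,1] [1,0,-1] (⟨0,[(40,0)]⟩,⟨0,[(39,0)]⟩) .k 2 (⟨0,[(39,0)]⟩,⟨0,[(40,0)]⟩)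
  .k (.r 0 ⟨0,[(1,1),(18,1),(26,3)]⟩ ⟨4,[(8,1),(0,1),(13,1),(2,1),(0,1),(2,0),(0,0)]⟩)) (.Q [0,-1,0,
  1,0,0,1,1,0,1,-1] (.p false [0,0,1] [1] (⟨0,[(41,0)]⟩,⟨0,[(40,0)]⟩) .k 1 (⟨0,[]⟩,⟨0,[]⟩) .k .k)
  (.R ⟨0,false,false,true,[0,0,1],[1,-1,-1],[0,1,0,-1,0,0,0,-1],(⟨0,[(42,0)]⟩,⟨0,[(41,0)]⟩),(⟨0,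
  [(30,0)]⟩,⟨0,[(42,0),(2,0)]⟩),⟨0,[(31,0)]⟩,.k,.k,.k,(.r 0 ⟨0,[(0,3),(0,3),(1,3),(6,0),(38,7)]⟩ ⟨6,
  [(10,0),(0,1),(3,5),(9,1),(2,1),(0,1),(21,2)]⟩),.k,.k,⟨true,0,⟨1,[(39,0),(0,0)]⟩,⟨0,[]⟩⟩,⟨false,1,
  ⟨8,[(1,2),(4,0),(4,2),(10,5),(3,0),(0,5),(15,2)]⟩,⟨0,[(5,0),(14,0)]⟩⟩,⟨true,0,⟨2,[(3,1),(6,1),(0,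
  0),(3,1)]⟩,⟨2,[(6,1),(19,1),(22,2)]⟩⟩,⟨false,1,⟨4,[(1,2),(8,0),(0,1),(3,0),(12,1),(22,2)]⟩,⟨2,[(0,
  2),(2,0),(19,1)]⟩⟩,⟨false,0,⟨0,[]⟩,⟨0,[]⟩⟩,⟨false,0,⟨0,[]⟩,⟨0,[]⟩⟩,[.a ⟨true,0,⟨0,[(3,0),(7,0)]⟩,
  ⟨0,[(0,0)]⟩⟩ ⟨false,0,⟨0,[(1,0),(1,1),(1,0),(4,0),(38,2)]⟩,⟨1,[(26,1),(23,0),(0,0)]⟩⟩ ⟨true,0,⟨0,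
  [(1,0)]⟩,⟨0,[(0,0),(38,0)]⟩⟩,.o ⟨false,1,⟨17,[(1,2),(8,0),(0,5),(13,0),(2,10),(14,1),(7,3)]⟩,⟨0,
  [(23,0)]⟩⟩,.e ⟨true,0,⟨2,[(3,0),(6,0),(4,0),(22,0),(9,0)]⟩,⟨2,[(6,0),(19,0),(22,2)]⟩⟩ ⟨true,0,⟨0,
  [(1,0)]⟩,⟨4,[(0,1),(22,1),(2,0),(2,2),(16,0)]⟩⟩,.o ⟨false,0,⟨0,[(39,0)]⟩,⟨3,[(6,1),(4,1),(31,1),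
  (6,0),(0,0)]⟩⟩]⟩) (.Q [0,-1,0,0,0,0,2,2,0,1,-2] (.p false [0,0,1] [1,0,-1] (⟨0,[(42,0)]⟩,⟨0,[(41,
  0)]⟩) .k 2 (⟨0,[(41,0)]⟩,⟨0,[(42,0)]⟩) .k (.r 0 ⟨0,[(3,1),(18,1),(26,3)]⟩ ⟨4,[(10,1),(0,1),(13,1),
  (2,1),(0,1),(2,0),(0,0)]⟩)) (.R ⟨0,false,false,true,[0,0,1],[1,0,-1],[1,1],(⟨0,[(43,0)]⟩,⟨0,[(42,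
  0)]⟩),(⟨0,[(42,0)]⟩,⟨0,[(43,0)]⟩),⟨0,[(32,0)]⟩,.k,.k,.k,.k,.k,.k,⟨true,0,⟨0,[(22,0)]⟩,⟨2,[(4,0),
  (6,1),(29,0)]⟩⟩,⟨false,1,⟨1,[(7,1),(4,1),(31,0),(7,0)]⟩,⟨0,[(30,0)]⟩⟩,⟨true,0,⟨0,[(18,0)]⟩,⟨0,[(4,
  0),(18,0),(26,1)]⟩⟩,⟨false,1,⟨8,[(2,2),(8,0),(0,5),(13,0),(2,1),(14,1),(7,3)]⟩,⟨0,[(0,0)]⟩⟩,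
  ⟨false,0,⟨0,[]⟩,⟨0,[]⟩⟩,⟨false,0,⟨0,[]⟩,⟨0,[]⟩⟩,[.o ⟨false,0,⟨0,[(1,0),(48,0)]⟩,⟨11,[(0,1),(27,7),
  (1,3),(13,2),(7,0)]⟩⟩,.o ⟨false,1,⟨35,[(11,1),(0,17),(13,1),(1,5),(0,9),(14,12),(7,4)]⟩,⟨0,[(20,
  0)]⟩⟩,.a ⟨true,0,⟨1,[(30,0),(11,0),(0,0)]⟩,⟨0,[(23,0)]⟩⟩ ⟨false,0,⟨0,[]⟩,⟨8,[(11,0),(0,0),(13,0),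
  (1,4),(0,0),(0,0),(21,1)]⟩⟩ ⟨true,0,⟨0,[(2,0),(47,0)]⟩,⟨6,[(0,2),(26,0),(2,3),(16,0),(1,0)]⟩⟩,.o
  ⟨false,0,⟨0,[(40,0)]⟩,⟨3,[(7,1),(4,1),(31,1),(6,0),(0,0)]⟩⟩]⟩) (.Q [0,-1,0,1,0,0,2,2,0,1,-2] (.p
  false [0,0,1] [1,0,-1] (⟨0,[(43,0)]⟩,⟨0,[(42,0)]⟩) .k 2 (⟨0,[(42,0)]⟩,⟨0,[(43,0)]⟩) .k (.r 0 ⟨0,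
  [(4,1),(18,1),(26,3)]⟩ ⟨4,[(11,1),(0,1),(13,1),(2,1),(0,1),(2,0),(0,0)]⟩)) (.R ⟨1,false,false,
  false,[1,0,-1],[0,0,1],[0,0,1],(⟨0,[(43,0)]⟩,⟨0,[(44,0)]⟩),(⟨0,[(44,0)]⟩,⟨0,[(43,0)]⟩),⟨0,[(32,
  0)]⟩,.k,.k,.k,.k,(.r (-1) ⟨6,[(12,0),(0,1),(3,5),(9,1),(2,1),(0,1),(21,2)]⟩ ⟨0,[(5,3),(6,0),(11,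
  3),(26,7)]⟩),.k,⟨true,0,⟨2,[(5,0),(6,1),(29,0)]⟩,⟨0,[(23,0)]⟩⟩,⟨false,0,⟨0,[(7,0),(14,0)]⟩,⟨8,[(3,
  2),(4,0),(4,2),(10,5),(3,0),(0,5),(15,2)]⟩⟩,⟨true,0,⟨2,[(5,0),(22,1),(13,0)]⟩,⟨0,[(18,0)]⟩⟩,⟨true,
  0,⟨0,[(0,0),(49,0)]⟩,⟨0,[(1,0)]⟩⟩,⟨true,0,⟨0,[(26,0)]⟩,⟨0,[(17,0)]⟩⟩,⟨false,0,⟨0,[(0,0)]⟩,⟨4,[(3,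
  2),(8,0),(0,1),(3,0),(12,1),(22,2)]⟩⟩,[.o ⟨false,0,⟨0,[(21,0)]⟩,⟨35,[(12,1),(0,17),(13,1),(1,5),
  (0,9),(14,12),(7,4)]⟩⟩,.o ⟨false,1,⟨9,[(0,1),(28,5),(0,0),(0,2),(13,1),(7,0)]⟩,⟨2,[(1,1),(13,0),
  (9,0)]⟩⟩,.e ⟨true,0,⟨1,[(41,0),(0,0)]⟩,⟨7,[(13,0),(0,2),(10,1),(22,1)]⟩⟩ ⟨true,0,⟨1,[(0,0),(30,0),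
  (18,0)]⟩,⟨2,[(1,2),(6,0),(19,0)]⟩⟩,.a ⟨true,0,⟨0,[(42,0)]⟩,⟨0,[(38,0)]⟩⟩ ⟨false,1,⟨8,[(12,0),(0,
  0),(13,0),(1,4),(0,0),(0,0),(21,1)]⟩,⟨0,[]⟩⟩ ⟨true,0,⟨1,[(0,0),(13,0),(16,0)]⟩,⟨2,[(3,2),(8,0),
  (15,1)]⟩⟩]⟩) (.Q [-1,-1,0,0,1,0,0,0,-1,-1,0,1] (.p true [0,0,0,0,1] [1] (⟨0,[(37,0)]⟩,⟨0,[(36,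
  0)]⟩) .k 1 (⟨0,[]⟩,⟨0,[]⟩) .k .k) (.R ⟨0,false,false,false,[0,1,-1],[1,0,0,0,-1],[-1,0,1],(⟨0,
  [(34,0)]⟩,⟨0,[(45,0),(1,0)]⟩),(⟨0,[(37,0)]⟩,⟨0,[(38,0)]⟩),⟨0,[(45,0)]⟩,.k,.k,.k,(.r 0 ⟨2,[(13,1),
  (15,0)]⟩ ⟨27,[(8,1),(0,5),(20,15),(0,1),(19,17),(1,8),(0,0)]⟩),.k,.k,⟨true,0,⟨1,[(42,0),(0,0)]⟩,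
  ⟨0,[]⟩⟩,⟨false,1,⟨1,[(0,1),(22,0),(25,0)]⟩,⟨0,[(8,0),(27,0),(6,0)]⟩⟩,⟨true,0,⟨0,[(6,0),(18,0),(26,
  0)]⟩,⟨10,[(13,4),(0,1),(4,0),(6,3),(22,3)]⟩⟩,⟨false,1,⟨2,[(0,2),(5,1),(19,0)]⟩,⟨2,[(8,2),(4,1),
  (15,0),(6,2),(6,2)]⟩⟩,⟨false,0,⟨0,[]⟩,⟨0,[]⟩⟩,⟨false,0,⟨0,[]⟩,⟨0,[]⟩⟩,[.o ⟨false,1,⟨11,[(0,8),(12,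
  0),(2,2),(12,1),(5,2),(13,2)]⟩,⟨0,[(36,0)]⟩⟩,.o ⟨false,1,⟨0,[(0,0)]⟩,⟨0,[(36,0),(19,0)]⟩⟩,.a
  ⟨true,0,⟨0,[(8,0),(34,0)]⟩,⟨0,[(42,0)]⟩⟩ ⟨true,0,⟨0,[(55,0)]⟩,⟨7,[(14,0),(0,2),(10,1),(22,1)]⟩⟩
  ⟨false,1,⟨0,[(0,0),(41,0)]⟩,⟨0,[(8,0),(27,0),(6,0)]⟩⟩,.o ⟨false,0,⟨0,[(25,0)]⟩,⟨3,[(32,1),(2,0),
  (0,0),(9,2)]⟩⟩]⟩) (.Q [1,-1,0,0,0,0,-1,-1,1,0,1,-1] (.p true [0,0,1] [0,0,0,0,1] (⟨0,[(45,0)]⟩,⟨0,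
  [(44,0)]⟩) .k 2 (⟨0,[(38,0)]⟩,⟨0,[(37,0)]⟩) .k (.r 0 ⟨0,[(6,0),(18,0),(26,1)]⟩ ⟨4,[(13,0),(0,0),
  (13,0),(2,0),(0,0),(2,2),(0,2)]⟩)) (.Q [-1,0,0,0,1,0,1,0,-1,0,-1,1] (.p false [0,0,1] [0,0,0,0,1]
  (⟨0,[(46,0)]⟩,⟨0,[(45,0)]⟩) .k 2 (⟨0,[(39,0)]⟩,⟨0,[(38,0)]⟩) .k (.r 0 ⟨0,[(7,0),(18,0),(26,1)]⟩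
  ⟨4,[(14,0),(0,0),(13,0),(2,0),(0,0),(2,2),(0,2)]⟩)) (.R ⟨0,false,false,false,[0,0,1],[0,0,0,0,1],
  [1,0,1],(⟨0,[(47,0)]⟩,⟨0,[(46,0)]⟩),(⟨0,[(40,0)]⟩,⟨0,[(39,0)]⟩),⟨0,[(36,0)]⟩,.k,.k,.k,.k,.k,.k,
  ⟨true,0,⟨1,[(44,0),(0,0)]⟩,⟨0,[]⟩⟩,⟨false,0,⟨16,[(1,6),(5,9),(3,7),(4,4),(12,0),(24,1),(3,1)]⟩,⟨0,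
  [(0,0)]⟩⟩,⟨true,0,⟨2,[(8,0),(6,1),(29,0)]⟩,⟨15,[(11,7),(4,2),(0,0),(10,5),(22,5)]⟩⟩,⟨false,0,⟨0,
  [(1,0)]⟩,⟨2,[(0,2),(10,0),(19,0)]⟩⟩,⟨false,0,⟨0,[]⟩,⟨0,[]⟩⟩,⟨false,0,⟨0,[]⟩,⟨0,[]⟩⟩,[.e ⟨false,0,
  ⟨0,[]⟩,⟨12,[(0,1),(15,1),(15,3),(0,0),(0,0),(3,1),(12,0),(3,5)]⟩⟩ ⟨false,0,⟨8,[(1,2),(5,5),(3,3),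
  (4,2),(14,0)]⟩,⟨0,[(0,0)]⟩⟩,.o ⟨false,0,⟨2,[(1,2),(6,0),(19,1)]⟩,⟨3,[(0,2),(3,0),(14,2),(8,1),(8,
  0),(16,0)]⟩⟩,.a ⟨true,0,⟨1,[(34,0),(11,0),(0,0)]⟩,⟨0,[(27,0)]⟩⟩ ⟨true,0,⟨1,[(44,0),(0,0)]⟩,⟨7,
  [(16,0),(0,2),(10,1),(22,1)]⟩⟩ ⟨false,0,⟨2,[(1,2),(9,0),(19,0)]⟩,⟨0,[(0,0)]⟩⟩,.o ⟨false,0,⟨0,[(44,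
  0)]⟩,⟨3,[(11,1),(4,1),(31,1),(6,0),(0,0)]⟩⟩]⟩) (.Q [0,0,0,0,-1,0,-1,0,1,0,1,-1] (.p true [0,0,1]
  [0,0,0,0,1] (⟨0,[(47,0)]⟩,⟨0,[(46,0)]⟩) .k 2 (⟨0,[(40,0)]⟩,⟨0,[(39,0)]⟩) .k (.r 0 ⟨0,[(8,0),(18,
  0),(26,1)]⟩ ⟨4,[(15,0),(0,0),(13,0),(2,0),(0,0),(2,2),(0,2)]⟩)) (.K ⟨0,[0,0,0,0,1],(-1),(-1),(⟨0,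
  [(41,0)]⟩,⟨0,[(40,0)]⟩),.k,(.r (-1) ⟨5,[(11,0),(21,1),(0,2),(7,1),(1,1),(11,0)]⟩ ⟨0,[(0,1),(8,1),
  (6,0),(21,1),(16,3)]⟩),(.r 0 ⟨2,[(16,0),(15,1)]⟩ ⟨29,[(11,4),(5,0),(13,7),(1,9),(0,6),(7,1),(11,
  16),(1,4)]⟩),.k,.k,[⟨0,[(0,0)]⟩,⟨1,[(38,1),(6,0),(0,0)]⟩,⟨0,[(38,0),(20,0)]⟩,⟨1,[(0,1),(25,0),(25,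
  0)]⟩]⟩) (.Q [-1,0,0,0,1,0,0,0,-1,0,0,1] (.p true [0,0,0,0,1] [] (⟨0,[(41,0)]⟩,⟨0,[(40,0)]⟩) .k 0
  (⟨0,[]⟩,⟨0,[]⟩) .k .k) (.R ⟨0,false,false,false,[0,0,1],[0,0,0,0,1],[1,0,1],(⟨0,[(49,0)]⟩,⟨0,[(48,
  0)]⟩),(⟨0,[(42,0)]⟩,⟨0,[(41,0)]⟩),⟨0,[(38,0)]⟩,.k,.k,.k,.k,.k,.k,⟨true,0,⟨1,[(46,0),(0,0)]⟩,⟨0,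
  []⟩⟩,⟨false,0,⟨4,[(2,0),(6,2),(3,1),(4,1),(21,0),(17,0)]⟩,⟨0,[(1,0)]⟩⟩,⟨true,0,⟨2,[(10,0),(6,1),
  (29,0)]⟩,⟨15,[(13,7),(4,2),(0,0),(10,5),(22,5)]⟩⟩,⟨false,0,⟨0,[(3,0)]⟩,⟨2,[(0,2),(9,0),(19,1)]⟩⟩,
  ⟨false,0,⟨0,[]⟩,⟨0,[]⟩⟩,⟨false,0,⟨0,[]⟩,⟨0,[]⟩⟩,[.a ⟨true,(-1),⟨1,[(2,1),(33,0),(11,0),(0,0)]⟩,⟨0,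
  [(0,0)]⟩⟩ ⟨false,0,⟨0,[]⟩,⟨1,[(0,0),(39,0),(16,0)]⟩⟩ ⟨true,(-1),⟨0,[(2,0)]⟩,⟨0,[(0,0),(45,0)]⟩⟩,
  .o ⟨false,0,⟨3,[(2,1),(6,0),(17,0),(12,0),(17,1)]⟩,⟨2,[(0,2),(5,0),(13,1),(9,1)]⟩⟩,.e ⟨true,0,⟨1,
  [(46,0),(0,0)]⟩,⟨7,[(18,0),(0,2),(10,1),(22,1)]⟩⟩ ⟨true,(-1),⟨0,[(2,0)]⟩,⟨0,[(1,0),(58,0)]⟩⟩,.o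
  ⟨false,0,⟨0,[(46,0)]⟩,⟨3,[(13,1),(4,1),(31,1),(6,0),(0,0)]⟩⟩]⟩) (.R ⟨2,true,false,false,[0,1],[0,
  0,0,0,1],[1,1,1],(⟨0,[]⟩,⟨0,[]⟩),(⟨0,[(42,0)]⟩,⟨0,[(41,0)]⟩),⟨0,[]⟩,.k,.k,.k,(.r 0 ⟨0,[(10,1),(6,
  0),(11,1),(26,3)]⟩ ⟨5,[(12,0),(21,1),(0,2),(7,1),(1,1),(11,0)]⟩),.k,.k,⟨false,0,⟨0,[(60,0)]⟩,⟨1,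
  [(57,0),(0,0)]⟩⟩,⟨true,(-1),⟨3,[(0,3),(45,0),(0,0),(11,1)]⟩,⟨0,[(39,0)]⟩⟩,⟨true,0,⟨0,[(55,0)]⟩,⟨0,
  [(56,0)]⟩⟩,⟨false,0,⟨3,[(0,0),(2,1),(6,1),(29,0),(17,0)]⟩,⟨0,[(39,0),(16,0)]⟩⟩,⟨false,0,⟨0,[]⟩,⟨8,
  [(17,0),(0,0),(13,0),(1,4),(0,0),(0,0),(21,1)]⟩⟩,⟨true,(-1),⟨0,[(0,0)]⟩,⟨0,[(39,0),(20,0)]⟩⟩,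
  []⟩)))) (.Q [-1,1,1,0,0,0,1,0,-1,-1,-1,1] (.p false [1,-1,1] [0,0,0,0,1] (⟨0,[(46,0),(1,0)]⟩,⟨0,
  [(35,0)]⟩) .k 2 (⟨0,[(39,0)]⟩,⟨0,[(38,0)]⟩) .k (.r 0 ⟨0,[(7,0),(18,0),(26,1)]⟩ ⟨4,[(14,0),(0,0),
  (13,0),(2,0),(0,0),(2,2),(0,2)]⟩)) (.Q [-1,-1,0,0,1,0,-1,0,-1,-1,1,1] (.p true [0,0,1] [1,0,0,0,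
  -1] (⟨0,[(47,0)]⟩,⟨0,[(46,0)]⟩) .k 2 (⟨0,[(39,0)]⟩,⟨0,[(40,0)]⟩) .k (.r 0 ⟨0,[(26,0)]⟩ ⟨10,[(15,
  2),(0,2),(13,2),(1,3),(0,2),(0,2),(2,0),(0,0),(19,3)]⟩)) (.R ⟨0,false,false,false,[0,0,1],[1,0,0,
  0,-1],[],(⟨0,[(48,0)]⟩,⟨0,[(47,0)]⟩),(⟨0,[(40,0)]⟩,⟨0,[(41,0)]⟩),⟨0,[(37,0)]⟩,.k,.k,.k,.k,.k,.k,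
  ⟨true,0,⟨0,[]⟩,⟨1,[(45,0),(0,0)]⟩⟩,⟨false,1,⟨7,[(0,7),(16,0),(0,2),(10,1),(22,1)]⟩,⟨21,[(3,8),(13,
  1),(15,3),(1,12),(3,12),(14,1),(2,4),(1,0)]⟩⟩,⟨false,1,⟨8,[(16,1),(0,1),(13,1),(1,0),(0,1),(0,1),
  (21,3)]⟩,⟨0,[(27,0)]⟩⟩,⟨true,1,⟨115,[(0,55),(0,27),(2,21),(12,21),(4,4),(8,22),(6,31),(10,4),(9,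
  1)]⟩,⟨2,[(3,2),(5,0),(19,1)]⟩⟩,⟨false,0,⟨0,[]⟩,⟨0,[]⟩⟩,⟨false,0,⟨0,[]⟩,⟨0,[]⟩⟩,[.o ⟨false,1,⟨16,
  [(0,5),(0,4),(0,0),(28,0),(6,4),(10,2),(6,1),(2,0)]⟩,⟨0,[(39,0)]⟩⟩,.a ⟨true,1,⟨1,[(0,1),(34,0),
  (11,0),(0,0)]⟩,⟨0,[(3,0)]⟩⟩ ⟨false,1,⟨1,[(56,0),(0,0)]⟩,⟨0,[(59,0)]⟩⟩ ⟨true,1,⟨0,[(0,0)]⟩,⟨0,[(3,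
  0),(41,0)]⟩⟩,.e ⟨false,1,⟨8,[(16,0),(0,0),(13,0),(1,4),(0,0),(0,0),(21,1)]⟩,⟨0,[]⟩⟩ ⟨false,1,⟨0,
  [(0,0)]⟩,⟨17,[(3,7),(13,1),(15,3),(0,0),(0,10),(3,9),(17,2)]⟩⟩,.o ⟨false,0,⟨0,[(45,0)]⟩,⟨35,[(0,
  7),(6,1),(0,7),(3,9),(4,11),(15,5),(15,12),(6,8)]⟩⟩]⟩) (.R ⟨0,false,false,false,[0,0,1],[1,0,0,0,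
  -1],[],(⟨0,[(48,0)]⟩,⟨0,[(47,0)]⟩),(⟨0,[(40,0)]⟩,⟨0,[(41,0)]⟩),⟨0,[(37,0)]⟩,.k,.k,.k,.k,.k,.k,
  ⟨true,0,⟨0,[]⟩,⟨1,[(45,0),(0,0)]⟩⟩,⟨false,1,⟨2,[(1,0),(0,1),(2,2),(5,0),(0,1),(42,1),(1,2)]⟩,⟨21,
  [(3,8),(13,1),(15,3),(1,12),(3,12),(14,1),(2,4),(1,0)]⟩⟩,⟨false,1,⟨8,[(16,1),(0,1),(13,1),(1,0),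
  (0,1),(0,1),(21,3)]⟩,⟨0,[(27,0)]⟩⟩,⟨true,1,⟨0,[(2,0),(2,0),(51,0)]⟩,⟨2,[(0,2),(11,0),(19,0)]⟩⟩,
  ⟨false,0,⟨0,[]⟩,⟨0,[]⟩⟩,⟨false,0,⟨0,[]⟩,⟨0,[]⟩⟩,[.o ⟨false,1,⟨3,[(2,3),(2,1),(43,0),(7,2)]⟩,⟨0,
  [(39,0)]⟩⟩,.e ⟨false,1,⟨1,[(56,0),(0,0)]⟩,⟨0,[(59,0)]⟩⟩ ⟨false,2,⟨15,[(2,3),(2,9),(5,3),(0,7),(25,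
  11),(10,4),(5,7),(1,14)]⟩,⟨0,[(0,0)]⟩⟩,.a ⟨true,0,⟨1,[(35,0),(11,0),(0,0)]⟩,⟨0,[(28,0)]⟩⟩ ⟨false,
  1,⟨8,[(16,0),(0,0),(13,0),(1,4),(0,0),(0,0),(21,1)]⟩,⟨0,[]⟩⟩ ⟨true,1,⟨3,[(2,3),(2,1),(22,3),(20,
  0),(7,2)]⟩,⟨0,[(0,0)]⟩⟩,.o ⟨false,0,⟨0,[(45,0)]⟩,⟨3,[(12,1),(4,1),(31,1),(6,0),(0,0)]⟩⟩]⟩)) (.Q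
  [0,0,0,0,1,0,1,0,-1,-1,-1,1] (.p false [1,-1,1] [0,0,0,0,1] (⟨0,[(47,0),(1,0)]⟩,⟨0,[(36,0)]⟩) .k
  2 (⟨0,[(40,0)]⟩,⟨0,[(39,0)]⟩) .k (.r 0 ⟨0,[(8,0),(18,0),(26,1)]⟩ ⟨4,[(15,0),(0,0),(13,0),(2,0),(0,
  0),(2,2),(0,2)]⟩)) (.R ⟨0,false,false,true,[0,1,-1],[1,0,0,0,-1],[0,1],(⟨0,[(37,0)]⟩,⟨0,[(48,0),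
  (1,0)]⟩),(⟨0,[(40,0)]⟩,⟨0,[(41,0)]⟩),⟨0,[(48,0)]⟩,.k,.k,.k,(.r 0 ⟨2,[(16,1),(15,0)]⟩ ⟨26,[(1,0),
  (7,0),(2,5),(20,13),(0,0),(3,0),(15,16),(1,9),(0,0)]⟩),.k,.k,⟨true,0,⟨0,[]⟩,⟨1,[(45,0),(0,0)]⟩⟩,
  ⟨false,1,⟨0,[(0,0)]⟩,⟨12,[(1,10),(1,1),(13,0),(15,1),(18,1),(1,0),(4,4)]⟩⟩,⟨true,0,⟨7,[(12,3),(5,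
  0),(33,1),(1,2)]⟩,⟨2,[(16,1),(15,0)]⟩⟩,⟨false,1,⟨12,[(0,4),(1,7),(4,1),(1,4),(2,0),(33,0),(2,2),
  (7,4)]⟩,⟨2,[(1,2),(14,1),(15,0)]⟩⟩,⟨false,0,⟨0,[]⟩,⟨0,[]⟩⟩,⟨false,0,⟨0,[]⟩,⟨0,[]⟩⟩,[.e ⟨false,0,
  ⟨7,[(17,0),(0,2),(10,1),(22,1)]⟩,⟨8,[(16,0),(0,0),(13,0),(1,4),(0,0),(0,0),(21,1)]⟩⟩ ⟨false,1,⟨0,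
  [(0,0),(58,0)]⟩,⟨0,[(1,0)]⟩⟩,.o ⟨false,1,⟨6,[(0,2),(1,3),(2,1),(22,2),(20,0),(7,2)]⟩,⟨0,[(39,
  0)]⟩⟩,.a ⟨true,0,⟨0,[(11,0),(34,0)]⟩,⟨0,[(45,0)]⟩⟩ ⟨true,0,⟨0,[(59,0)]⟩,⟨0,[]⟩⟩ ⟨false,1,⟨3,[(0,
  3),(44,0),(0,0),(11,1)]⟩,⟨0,[(1,0)]⟩⟩,.o ⟨false,0,⟨0,[(28,0)]⟩,⟨3,[(35,1),(2,0),(0,0),(9,2)]⟩⟩]⟩)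
  (.R ⟨0,false,false,true,[0,1,-1],[1,0,0,0,-1],[-1,1],(⟨0,[(37,0)]⟩,⟨0,[(48,0),(1,0)]⟩),(⟨0,[(40,
  0)]⟩,⟨0,[(41,0)]⟩),⟨0,[(48,0)]⟩,.k,.k,.k,(.r 0 ⟨2,[(16,1),(15,0)]⟩ ⟨26,[(1,0),(7,0),(2,5),(20,13),
  (0,0),(3,0),(15,16),(1,9),(0,0)]⟩),.k,.k,⟨false,1,⟨1,[(38,0),(0,0),(16,0)]⟩,⟨0,[]⟩⟩,⟨true,1,⟨7,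
  [(2,7),(1,1),(11,1),(28,4),(0,0),(2,2),(7,4)]⟩,⟨0,[(0,0)]⟩⟩,⟨true,0,⟨0,[(0,2),(1,2),(1,3),(4,7),
  (1,0),(4,0),(38,17),(1,2)]⟩,⟨2,[(16,1),(15,0)]⟩⟩,⟨false,1,⟨3,[(2,3),(7,1),(38,0),(7,2)]⟩,⟨2,[(1,
  2),(14,1),(15,0)]⟩⟩,⟨false,0,⟨0,[]⟩,⟨0,[]⟩⟩,⟨false,0,⟨0,[]⟩,⟨0,[]⟩⟩,[.e ⟨false,0,⟨0,[(0,1),(1,1),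
  (1,2),(4,5),(1,0),(4,0),(38,13),(1,1)]⟩,⟨8,[(16,0),(0,0),(13,0),(1,4),(0,0),(0,0),(21,1)]⟩⟩
  ⟨false,1,⟨3,[(2,1),(19,0),(0,0),(2,0),(11,1),(10,1)]⟩,⟨0,[(1,0)]⟩⟩,.o ⟨false,1,⟨3,[(2,3),(2,1),
  (43,0),(7,2)]⟩,⟨0,[(39,0)]⟩⟩,.a ⟨true,0,⟨1,[(0,0),(10,0),(16,0),(9,0)]⟩,⟨0,[(45,0)]⟩⟩ ⟨true,0,⟨0,
  [(59,0)]⟩,⟨0,[]⟩⟩ ⟨false,1,⟨7,[(2,7),(1,1),(11,1),(28,4),(0,0),(2,2),(7,4)]⟩,⟨0,[(1,0)]⟩⟩,.o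
  ⟨false,0,⟨0,[(28,0)]⟩,⟨3,[(35,1),(2,0),(0,0),(9,2)]⟩⟩]⟩)))))))) (.R ⟨0,false,false,true,[0,0,1],
  [1,-1,-1],[0,1,0,-1,0,0,0,-1],(⟨0,[(41,0)]⟩,⟨0,[(40,0)]⟩),(⟨0,[(29,0)]⟩,⟨0,[(41,0),(2,0)]⟩),⟨0,
  [(30,0)]⟩,.k,.k,.k,(.r 0 ⟨0,[(2,3),(6,0),(11,3),(26,7)]⟩ ⟨6,[(9,0),(0,1),(3,5),(9,1),(2,1),(0,1),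
  (21,2)]⟩),.k,.k,⟨true,0,⟨1,[(38,0),(0,0)]⟩,⟨0,[]⟩⟩,⟨false,1,⟨2,[(10,0),(2,0),(7,2),(4,1),(15,0)]⟩,
  ⟨0,[(0,0),(13,0)]⟩⟩,⟨true,0,⟨2,[(2,1),(6,1),(0,0),(3,1)]⟩,⟨2,[(5,1),(19,1),(22,2)]⟩⟩,⟨false,1,⟨0,
  [(3,0),(6,0),(39,0)]⟩,⟨2,[(0,2),(4,0),(19,0)]⟩⟩,⟨false,0,⟨0,[]⟩,⟨0,[]⟩⟩,⟨false,0,⟨0,[]⟩,⟨0,[]⟩⟩,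
  [.e ⟨false,0,⟨0,[(2,0),(0,0),(0,0),(4,0),(11,0),(26,1)]⟩,⟨1,[(25,1),(23,0),(0,0)]⟩⟩ ⟨false,1,⟨7,
  [(5,1),(4,5),(2,3),(13,3),(21,2),(0,0)]⟩,⟨0,[(0,0)]⟩⟩,.o ⟨false,1,⟨7,[(3,1),(6,3),(16,3),(14,0),
  (7,2)]⟩,⟨0,[(22,0)]⟩⟩,.a ⟨true,0,⟨1,[(28,0),(11,0),(0,0)]⟩,⟨0,[(21,0)]⟩⟩ ⟨true,0,⟨2,[(2,0),(6,0),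
  (4,0),(22,0),(9,0)]⟩,⟨2,[(5,0),(19,0),(22,2)]⟩⟩ ⟨false,1,⟨1,[(10,0),(2,0),(7,0),(5,0),(22,0)]⟩,⟨0,
  [(0,0)]⟩⟩,.o ⟨false,0,⟨0,[(38,0)]⟩,⟨3,[(5,1),(4,1),(31,1),(6,0),(0,0)]⟩⟩]⟩))))))) (.Q [0,-1,-2,0,
  1,0,-1,-1,0,0,1] (.p true [0,0,1] [] (⟨0,[(35,0)]⟩,⟨0,[(34,0)]⟩) .k 0 (⟨0,[]⟩,⟨0,[]⟩) .k .k) (.R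
  ⟨0,false,false,false,[1,-1],[1,0,-1],[1],(⟨0,[(38,0)]⟩,⟨0,[(39,0)]⟩),(⟨0,[(35,0)]⟩,⟨0,[(36,0)]⟩),
  ⟨0,[(1,0)]⟩,.k,.k,(.r (-1) ⟨0,[(0,0),(11,0),(29,0)]⟩ ⟨0,[(43,1),(2,1)]⟩),.k,.k,.k,⟨true,0,⟨0,[(15,
  0)]⟩,⟨0,[(4,0),(7,0),(3,0)]⟩⟩,⟨false,1,⟨0,[(16,0),(27,0)]⟩,⟨0,[(33,0)]⟩⟩,⟨true,0,⟨2,[(4,0),(15,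
  1)]⟩,⟨0,[(41,0)]⟩⟩,⟨false,1,⟨10,[(4,0),(0,6),(11,2),(1,0),(1,2),(23,6)]⟩,⟨0,[(12,0)]⟩⟩,⟨false,0,
  ⟨0,[]⟩,⟨0,[]⟩⟩,⟨false,0,⟨0,[]⟩,⟨0,[]⟩⟩,[.o ⟨false,1,⟨35,[(4,1),(0,17),(13,1),(1,5),(0,9),(14,12),
  (7,4)]⟩,⟨0,[(13,0)]⟩⟩,.e ⟨false,1,⟨1,[(44,0),(0,0)]⟩,⟨0,[(47,0)]⟩⟩ ⟨false,1,⟨0,[(0,0)]⟩,⟨1,[(20,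
  0),(10,0),(1,0),(8,0)]⟩⟩,.a ⟨true,0,⟨1,[(33,0),(0,0)]⟩,⟨0,[(16,0),(13,0)]⟩⟩ ⟨true,0,⟨0,[]⟩,⟨0,
  [(47,0)]⟩⟩ ⟨false,1,⟨1,[(0,0),(31,0),(12,0)]⟩,⟨1,[(12,0),(7,0),(12,0)]⟩⟩,.e ⟨false,1,⟨1,[(44,0),
  (0,0)]⟩,⟨1,[(33,0),(0,0)]⟩⟩ ⟨false,1,⟨0,[(0,0)]⟩,⟨1,[(12,0),(7,0),(12,1),(0,0)]⟩⟩]⟩) (.Q [0,0,0,0,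
  0,2,0,0,0,-1,-1] (.p false [1,-1,1] [] (⟨0,[(36,0),(1,0)]⟩,⟨0,[(25,0)]⟩) .k 0 (⟨0,[]⟩,⟨0,[]⟩) .k
  .k) (.R ⟨0,false,false,true,[1,-1,1],[1,-1],[1,1],(⟨0,[(37,0),(1,0)]⟩,⟨0,[(26,0)]⟩),(⟨0,[(39,0)]⟩,
  ⟨0,[(40,0)]⟩),⟨0,[(0,0)]⟩,.k,.k,(.r (-1) ⟨1,[(7,1),(5,0),(3,0),(4,0),(20,0),(2,0)]⟩ ⟨0,[(1,2),(3,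
  1),(1,2),(9,2),(26,2),(1,2)]⟩),.k,.k,.k,⟨false,0,⟨0,[(44,0)]⟩,⟨9,[(7,1),(14,3),(0,3),(7,3),(1,3),
  (11,0),(0,0)]⟩⟩,⟨true,0,⟨0,[(17,0)]⟩,⟨0,[(34,0)]⟩⟩,⟨false,0,⟨2,[(5,1),(15,0)]⟩,⟨1,[(7,0),(5,0),(3,
  0),(4,0),(23,0)]⟩⟩,⟨true,0,⟨0,[(33,0)]⟩,⟨0,[(14,0)]⟩⟩,⟨false,0,⟨0,[]⟩,⟨0,[]⟩⟩,⟨false,0,⟨0,[]⟩,⟨0,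
  []⟩⟩,[.o ⟨false,0,⟨0,[(8,0)]⟩,⟨10,[(5,1),(0,2),(11,5),(1,1),(1,5),(23,2)]⟩⟩,.o ⟨false,1,⟨3,[(23,
  1),(3,0),(0,0),(9,0)]⟩,⟨0,[(44,0)]⟩⟩,.a ⟨true,0,⟨0,[(34,0)]⟩,⟨0,[(17,1),(13,0)]⟩⟩ ⟨false,0,⟨0,[]⟩,
  ⟨8,[(5,0),(0,0),(13,0),(1,4),(0,0),(0,0),(21,1)]⟩⟩ ⟨true,0,⟨1,[(7,0),(9,1),(25,0)]⟩,⟨2,[(5,0),(9,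
  0),(2,0),(2,0)]⟩⟩,.e ⟨true,0,⟨7,[(6,0),(0,2),(10,1),(22,1)]⟩,⟨1,[(34,0),(0,0)]⟩⟩ ⟨true,0,⟨0,[(7,
  0),(9,0)]⟩,⟨2,[(5,0),(15,1),(12,2)]⟩⟩]⟩) (.Q [0,-1,0,0,1,0,-1,-1,0,-1,1] (.p true [0,0,1] [1] (⟨0,
  [(37,0)]⟩,⟨0,[(36,0)]⟩) .k 1 (⟨0,[]⟩,⟨0,[]⟩) .k .k) (.R ⟨0,false,false,false,[1,-1],[1,0,-1],[1],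
  (⟨0,[(40,0)]⟩,⟨0,[(41,0)]⟩),(⟨0,[(37,0)]⟩,⟨0,[(38,0)]⟩),⟨0,[(3,0)]⟩,.k,.k,(.r (-1) ⟨0,[(8,0),(35,
  0),(2,0)]⟩ ⟨0,[(0,0),(0,3),(0,4),(0,2),(1,1),(0,1),(1,3),(36,3),(1,3)]⟩),.k,.k,.k,⟨true,0,⟨0,[(17,
  0)]⟩,⟨1,[(2,0),(3,0),(4,0),(6,0),(28,0)]⟩⟩,⟨false,1,⟨0,[(18,0),(27,0)]⟩,⟨0,[(35,0)]⟩⟩,⟨true,0,⟨2,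
  [(6,0),(15,1)]⟩,⟨0,[(43,0)]⟩⟩,⟨false,1,⟨10,[(6,0),(0,6),(11,2),(1,0),(1,2),(23,6)]⟩,⟨0,[(14,0)]⟩⟩,
  ⟨false,0,⟨0,[]⟩,⟨0,[]⟩⟩,⟨false,0,⟨0,[]⟩,⟨0,[]⟩⟩,[.o ⟨false,1,⟨38,[(0,4),(5,2),(0,16),(13,2),(1,8),
  (0,9),(14,11)]⟩,⟨0,[(15,0)]⟩⟩,.o ⟨false,1,⟨0,[(0,0)]⟩,⟨0,[(33,0)]⟩⟩,.a ⟨true,0,⟨1,[(35,0),(0,0)]⟩,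
  ⟨0,[(18,0),(13,0)]⟩⟩ ⟨true,0,⟨0,[]⟩,⟨0,[(49,0)]⟩⟩ ⟨false,1,⟨1,[(7,0),(0,0),(38,1)]⟩,⟨9,[(2,3),(11,
  0),(1,1),(2,0),(3,3)]⟩⟩,.o ⟨false,0,⟨0,[(0,0),(1,0)]⟩,⟨0,[(46,0)]⟩⟩]⟩) (.Q [0,0,2,0,0,0,0,0,0,-1]
  (.pp true [-1,1]) (.R ⟨0,false,false,false,[1,-1],[1,0,-1],[],(⟨0,[(41,0)]⟩,⟨0,[(42,0)]⟩),(⟨0,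
  [(38,0)]⟩,⟨0,[(39,0)]⟩),⟨0,[(4,0)]⟩,.k,.k,(.r (-1) ⟨0,[(9,0),(35,0),(2,0)]⟩ ⟨0,[(0,0),(0,3),(0,3),
  (1,2),(1,1),(0,1),(2,3),(35,3),(1,3)]⟩),.k,.k,.k,⟨true,0,⟨3,[(0,0),(0,3),(0,3),(1,2),(1,1),(3,3),
  (35,3),(1,3)]⟩,⟨1,[(3,0),(3,0),(4,0),(6,0),(28,0)]⟩⟩,⟨false,1,⟨0,[(19,0),(27,0)]⟩,⟨0,[(36,0)]⟩⟩,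
  ⟨true,0,⟨1,[(0,0),(0,3),(0,3),(1,2),(1,1),(0,1),(2,3),(35,3),(1,3)]⟩,⟨1,[(9,0),(35,0)]⟩⟩,⟨false,1,
  ⟨10,[(7,0),(0,6),(11,2),(1,0),(1,2),(23,6)]⟩,⟨0,[(15,0)]⟩⟩,⟨false,0,⟨0,[]⟩,⟨0,[]⟩⟩,⟨false,0,⟨0,
  []⟩,⟨0,[]⟩⟩,[.o ⟨false,1,⟨35,[(7,1),(0,17),(13,1),(1,5),(0,9),(14,12),(7,4)]⟩,⟨0,[(16,0)]⟩⟩,.a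
  ⟨true,1,⟨0,[(35,0),(12,0)]⟩,⟨0,[(1,0)]⟩⟩ ⟨false,1,⟨1,[(47,0),(0,0)]⟩,⟨0,[(50,0)]⟩⟩ ⟨true,1,⟨1,[(8,
  0),(0,0),(38,1)]⟩,⟨0,[(3,0)]⟩⟩,.e ⟨false,1,⟨8,[(7,0),(0,0),(13,0),(1,4),(0,0),(0,0),(21,1)]⟩,⟨0,
  []⟩⟩ ⟨false,1,⟨1,[(8,0),(0,0),(38,1)]⟩,⟨9,[(3,3),(11,0),(1,1),(2,0),(3,3)]⟩⟩,.o ⟨false,0,⟨0,[(0,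
  0)]⟩,⟨0,[(47,0)]⟩⟩]⟩) (.R ⟨0,false,false,false,[1,-1],[1,0,-1],[1],(⟨0,[(41,0)]⟩,⟨0,[(42,0)]⟩),
  (⟨0,[(38,0)]⟩,⟨0,[(39,0)]⟩),⟨0,[(4,0)]⟩,.k,.k,(.r (-1) ⟨0,[(0,0),(24,0)]⟩ ⟨0,[(0,2),(1,3),(0,3),
  (0,2),(1,1),(0,1),(2,3),(35,3),(1,3)]⟩),.k,.k,.k,⟨true,0,⟨0,[(18,0)]⟩,⟨1,[(3,0),(3,0),(4,0),(6,0),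
  (28,0)]⟩⟩,⟨false,1,⟨0,[(19,0),(27,0)]⟩,⟨0,[(36,0)]⟩⟩,⟨true,0,⟨2,[(7,0),(15,1)]⟩,⟨0,[(44,0)]⟩⟩,
  ⟨false,1,⟨10,[(7,0),(0,6),(11,2),(1,0),(1,2),(23,6)]⟩,⟨0,[(15,0)]⟩⟩,⟨false,0,⟨0,[]⟩,⟨0,[]⟩⟩,
  ⟨false,0,⟨0,[]⟩,⟨0,[]⟩⟩,[.o ⟨false,1,⟨35,[(7,1),(0,17),(13,1),(1,5),(0,9),(14,12),(7,4)]⟩,⟨0,[(16,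
  0)]⟩⟩,.a ⟨true,1,⟨0,[(35,0),(12,0)]⟩,⟨0,[(1,0)]⟩⟩ ⟨false,1,⟨1,[(47,0),(0,0)]⟩,⟨0,[(50,0)]⟩⟩ ⟨true,
  1,⟨2,[(0,0),(7,0),(2,0),(10,0),(25,1)]⟩,⟨0,[(3,0)]⟩⟩,.a ⟨true,0,⟨1,[(36,0),(0,0)]⟩,⟨1,[(0,0),(37,
  0),(0,0)]⟩⟩ ⟨true,0,⟨0,[]⟩,⟨0,[(50,0)]⟩⟩ ⟨false,1,⟨2,[(0,0),(7,0),(2,0),(10,0),(25,1)]⟩,⟨9,[(3,3),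
  (11,0),(1,1),(2,0),(3,3)]⟩⟩,.a ⟨true,0,⟨0,[(36,0),(0,0)]⟩,⟨0,[(0,0)]⟩⟩ ⟨false,1,⟨1,[(47,0),(0,
  0)]⟩,⟨1,[(36,0),(0,0)]⟩⟩ ⟨true,1,⟨5,[(0,1),(7,1),(2,1),(10,1),(24,2),(0,0)]⟩,⟨0,[(3,
  0)]⟩⟩]⟩))))))))) (.R ⟨0,false,false,false,[0,1,-1],[0,0,1],[],(⟨0,[(20,0)]⟩,⟨0,[(31,0),(1,0)]⟩),
  (⟨0,[(31,0)]⟩,⟨0,[(30,0)]⟩),⟨0,[(31,0)]⟩,.k,.k,.k,(.r (-1) ⟨0,[(9,0),(17,1),(10,0),(1,0)]⟩ ⟨1,[(0,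
  0),(0,0),(8,1),(0,1)]⟩),.k,.k,⟨false,1,⟨3,[(6,0),(7,2),(6,0),(0,0),(12,0)]⟩,⟨0,[(10,0)]⟩⟩,⟨true,0,
  ⟨0,[(9,0)]⟩,⟨0,[(11,1)]⟩⟩,⟨true,0,⟨1,[(0,0),(0,0),(9,1)]⟩,⟨0,[(27,0),(0,0),(9,0)]⟩⟩,⟨false,0,⟨0,
  [(0,0)]⟩,⟨0,[(27,1),(10,0),(1,0)]⟩⟩,⟨false,0,⟨0,[]⟩,⟨0,[]⟩⟩,⟨false,0,⟨0,[]⟩,⟨0,[]⟩⟩,[.o ⟨false,0,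
  ⟨0,[(8,0)]⟩,⟨1,[(27,1),(4,0),(7,0)]⟩⟩,.e ⟨false,1,⟨1,[(39,0),(0,0)]⟩,⟨0,[(42,0)]⟩⟩ ⟨false,1,⟨10,
  [(0,1),(11,1),(3,4),(1,7),(13,3),(7,1)]⟩,⟨0,[(5,0),(5,1)]⟩⟩,.a ⟨true,0,⟨0,[(11,1),(13,0)]⟩,⟨0,
  [(28,0)]⟩⟩ ⟨false,1,⟨1,[(21,0),(0,0),(17,0)]⟩,⟨0,[]⟩⟩ ⟨true,0,⟨5,[(0,0),(6,0),(1,3),(5,1),(10,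
  0)]⟩,⟨0,[(5,0),(5,1)]⟩⟩,.o ⟨false,0,⟨0,[(11,0)]⟩,⟨3,[(18,1),(2,0),(0,0),(9,2)]⟩⟩]⟩))))) (.S ⟨1,0,
  [0,0,0,0,0,0,0,-1],[1,0,-1],[0,0,1],(⟨0,[(26,0)]⟩,⟨0,[(27,0)]⟩),⟨0,[(15,0)]⟩,.k,.k,⟨true,0,⟨1,[(3,
  0),(7,0),(13,0)]⟩,⟨0,[(1,0)]⟩⟩,⟨false,1,⟨1,[(17,0),(0,0),(17,0)]⟩,⟨0,[]⟩⟩,⟨false,0,⟨0,[(0,0)]⟩,⟨1,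
  [(10,0),(2,0),(7,0),(1,0)]⟩⟩,⟨true,0,⟨0,[(34,0)]⟩,⟨0,[(33,0)]⟩⟩,[.o ⟨false,1,⟨1,[(23,1),(4,0),(7,
  0)]⟩,⟨0,[(4,0)]⟩⟩,.e ⟨false,1,⟨1,[(17,0),(0,0),(17,0)]⟩,⟨0,[(1,0),(4,0)]⟩⟩ ⟨false,1,⟨0,[(10,0)]⟩,
  ⟨2,[(6,1),(4,0),(19,0),(1,0)]⟩⟩,.a ⟨true,0,⟨0,[(7,0)]⟩,⟨1,[(14,0),(11,0),(0,0)]⟩⟩ ⟨true,0,⟨1,[(24,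
  0),(0,0)]⟩,⟨0,[(1,0),(4,0)]⟩⟩ ⟨false,1,⟨2,[(5,0),(4,0),(12,1),(12,1)]⟩,⟨0,[(6,0)]⟩⟩,.e ⟨false,1,
  ⟨1,[(17,0),(0,0),(17,0)]⟩,⟨0,[]⟩⟩ ⟨false,1,⟨0,[(10,0)]⟩,⟨1,[(3,0),(7,0),(13,0)]⟩⟩]⟩))) (.R ⟨0,
  false,false,false,[0,1,-1],[0,0,1],[],(⟨0,[(14,0)]⟩,⟨0,[(25,0),(1,0)]⟩),(⟨0,[(25,0)]⟩,⟨0,[(24,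
  0)]⟩),⟨0,[(25,0)]⟩,.k,.k,.k,(.r (-1) ⟨0,[(3,0),(17,1),(10,0),(1,0)]⟩ ⟨0,[(0,0),(3,0),(25,0)]⟩),.k,
  .k,⟨false,1,⟨15,[(8,11),(3,1),(2,2),(0,2),(4,3),(4,0),(2,3)]⟩,⟨0,[(4,0)]⟩⟩,⟨true,0,⟨0,[(3,0)]⟩,⟨0,
  [(5,1)]⟩⟩,⟨true,0,⟨0,[(0,0),(29,0)]⟩,⟨0,[(21,0),(0,0),(9,0)]⟩⟩,⟨false,0,⟨0,[(0,1),(2,0),(26,0)]⟩,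
  ⟨0,[(21,1),(10,0),(1,0)]⟩⟩,⟨false,0,⟨0,[]⟩,⟨0,[]⟩⟩,⟨false,0,⟨0,[]⟩,⟨0,[]⟩⟩,[.o ⟨false,0,⟨0,[(2,
  0)]⟩,⟨1,[(21,1),(4,0),(7,0)]⟩⟩,.a ⟨true,0,⟨1,[(0,1),(11,0),(11,0),(0,0)]⟩,⟨0,[(21,0)]⟩⟩ ⟨false,1,
  ⟨1,[(33,0),(0,0)]⟩,⟨0,[(36,0)]⟩⟩ ⟨true,0,⟨0,[(0,0),(2,0)]⟩,⟨0,[(5,0),(15,0)]⟩⟩,.e ⟨false,1,⟨1,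
  [(15,0),(0,0),(17,0)]⟩,⟨0,[]⟩⟩ ⟨false,0,⟨0,[(0,0),(2,0)]⟩,⟨1,[(5,1),(15,1),(11,0),(0,0)]⟩⟩,.o
  ⟨false,0,⟨0,[(5,0)]⟩,⟨3,[(12,1),(2,0),(0,0),(9,2)]⟩⟩]⟩)) (.R ⟨2,true,false,false,[0,1],[0,0,1],[1,
  1,1],(⟨0,[]⟩,⟨0,[]⟩),(⟨0,[(24,0)]⟩,⟨0,[(23,0)]⟩),⟨0,[]⟩,.k,.k,.k,.k,.k,.k,⟨false,0,⟨1,[(0,0),(1,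
  0),(17,0),(8,0)]⟩,⟨1,[(3,1),(28,0),(0,0)]⟩⟩,⟨true,0,⟨0,[(21,0)]⟩,⟨0,[(4,0)]⟩⟩,⟨true,0,⟨0,[(30,
  0)]⟩,⟨0,[(31,0)]⟩⟩,⟨false,1,⟨1,[(3,1),(6,0),(0,0),(21,0)]⟩,⟨0,[(0,0)]⟩⟩,⟨false,0,⟨0,[]⟩,⟨1,[(14,
  0),(0,0),(17,0)]⟩⟩,⟨true,0,⟨0,[(1,0)]⟩,⟨0,[(20,0)]⟩⟩,[]⟩)) (.R ⟨0,false,false,true,[0,1,-1],[0,0,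
  1],[],(⟨0,[(12,0)]⟩,⟨0,[(23,0),(1,0)]⟩),(⟨0,[(23,0)]⟩,⟨0,[(22,0)]⟩),⟨0,[(23,0)]⟩,.k,.k,.k,(.r 0
  ⟨0,[(0,1),(0,0),(28,0)]⟩ ⟨0,[(2,0),(5,0),(19,0)]⟩),.k,.k,⟨false,1,⟨0,[(6,0)]⟩,⟨2,[(2,1),(4,0),(19,
  0),(1,0)]⟩⟩,⟨true,0,⟨0,[(1,0)]⟩,⟨0,[(3,1)]⟩⟩,⟨false,1,⟨0,[(2,0),(25,0),(3,0)]⟩,⟨0,[(0,0),(19,0),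
  (9,0)]⟩⟩,⟨true,0,⟨0,[(1,0),(0,1),(25,0)]⟩,⟨0,[(0,1),(29,0)]⟩⟩,⟨false,0,⟨0,[]⟩,⟨0,[]⟩⟩,⟨false,0,⟨0,
  []⟩,⟨0,[]⟩⟩,[.o ⟨false,0,⟨0,[(18,0)]⟩,⟨1,[(0,1),(23,0),(7,0)]⟩⟩,.a ⟨true,0,⟨1,[(2,1),(7,0),(11,0),
  (0,0)]⟩,⟨0,[(0,0)]⟩⟩ ⟨false,1,⟨1,[(31,0),(0,0)]⟩,⟨0,[(34,0)]⟩⟩ ⟨true,0,⟨0,[(1,0),(0,0)]⟩,⟨0,[(0,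
  0),(2,0)]⟩⟩,.e ⟨false,1,⟨1,[(13,0),(0,0),(17,0)]⟩,⟨0,[]⟩⟩ ⟨false,0,⟨0,[(1,0),(0,0)]⟩,⟨1,[(0,1),(2,
  1),(27,0),(0,0)]⟩⟩,.o ⟨false,0,⟨0,[(3,0)]⟩,⟨3,[(10,1),(2,0),(0,0),(9,2)]⟩⟩]⟩)) (.Q [0,0,0,1,0,0,
  -2,-1,0,0,2] (.p true [0,0,1] [0,1,-1] (⟨0,[(22,0)]⟩,⟨0,[(21,0)]⟩) .k 2 (⟨0,[(11,0)]⟩,⟨0,[(22,0),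
  (1,0)]⟩) .k (.i 0 ⟨0,[(22,1)]⟩ ⟨0,[(10,0),(0,0)]⟩)) (.I [0,0,-1,0,0,1,-2] (.K ⟨0,[0,1,-1],0,0,(⟨0,
  [(13,0)]⟩,⟨0,[(24,0),(1,0)]⟩),.k,.k,(.r 0 ⟨0,[(1,0),(19,1),(9,0)]⟩ ⟨0,[(3,0),(25,1),(3,0)]⟩),(.x
  0 ⟨0,[(0,0)]⟩ ⟨3,[(11,1),(2,0),(0,0),(5,3),(2,7),(0,2),(0,3)]⟩),.k,[⟨0,[(2,0)]⟩,⟨1,[(21,2),(0,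
  0)]⟩,⟨0,[(3,0),(17,0),(7,0)]⟩,⟨0,[(20,0),(10,0)]⟩]⟩) (.I [0,0,1,1,0,0,0,-2] (.K ⟨0,[0,1,-1],0,0,
  (⟨0,[(14,0)]⟩,⟨0,[(25,0),(1,0)]⟩),.k,.k,(.r 0 ⟨0,[(0,0),(8,0)]⟩ ⟨0,[(4,0),(25,1),(3,0)]⟩),(.r 0
  ⟨0,[(0,0)]⟩ ⟨0,[(4,0),(5,0),(19,0)]⟩),.k,[⟨0,[(3,0)]⟩,⟨1,[(22,2),(0,0)]⟩,⟨0,[(4,0),(17,0),(7,0)]⟩,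
  ⟨5,[(0,1),(1,2),(6,0),(19,2)]⟩]⟩) (.I [0,0,-1,-1,0,0,0,2] (.K ⟨0,[0,1,-1],0,0,(⟨0,[(15,0)]⟩,⟨0,
  [(26,0),(1,0)]⟩),.k,.k,(.r 0 ⟨0,[(3,0),(19,1),(9,0)]⟩ ⟨18,[(0,8),(3,6),(6,0),(0,13),(7,13),(11,0),
  (1,3)]⟩),(.r (-1) ⟨5,[(3,3),(5,4),(0,1),(2,1),(8,4),(0,8),(3,0)]⟩ ⟨0,[(0,0)]⟩),.k,[⟨0,[(4,0)]⟩,⟨1,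
  [(23,2),(0,0)]⟩,⟨2,[(0,0),(20,0),(1,1),(7,0),(0,0)]⟩,⟨0,[(22,0),(10,0)]⟩]⟩) (.Q [0,0,0,0,0,0,1,1,
  0,0,-1] (.p false [0,0,1] [] (⟨0,[(26,0)]⟩,⟨0,[(25,0)]⟩) .k 0 (⟨0,[]⟩,⟨0,[]⟩) .k .k) (.R ⟨2,true,
  false,false,[0,1],[0,0,1],[1,1,1],(⟨0,[]⟩,⟨0,[]⟩),(⟨0,[(27,0)]⟩,⟨0,[(26,0)]⟩),⟨0,[]⟩,.k,.k,.k,.k,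
  .k,.k,⟨false,0,⟨3,[(1,1),(29,0),(0,0),(0,0)]⟩,⟨8,[(2,1),(2,0),(2,1),(3,2),(22,2),(0,2)]⟩⟩,⟨true,0,
  ⟨0,[(24,0)]⟩,⟨0,[(7,0)]⟩⟩,⟨true,0,⟨0,[(33,0)]⟩,⟨0,[(34,0)]⟩⟩,⟨false,1,⟨2,[(2,0),(9,0),(0,0),(0,0),
  (9,0),(11,0)]⟩,⟨1,[(1,0),(3,0),(28,0)]⟩⟩,⟨false,0,⟨0,[]⟩,⟨13,[(1,1),(8,1),(1,7),(0,0),(0,0),(8,1),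
  (12,2)]⟩⟩,⟨true,0,⟨0,[(0,0)]⟩,⟨0,[(23,0)]⟩⟩,[]⟩) (.Q [0,-1,0,1,0,0,1,0,0,1,-1] (.p false [0,0,1]
  [1] (⟨0,[(27,0)]⟩,⟨0,[(26,0)]⟩) .k 1 (⟨0,[]⟩,⟨0,[]⟩) .k .k) (.R ⟨0,false,false,true,[0,0,1],[1,
  -1],[0,1,0,-1],(⟨0,[(28,0)]⟩,⟨0,[(27,0)]⟩),(⟨0,[(30,0)]⟩,⟨0,[(31,0)]⟩),⟨0,[(17,0)]⟩,.k,.k,.k,.k,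
  .k,.k,⟨true,0,⟨1,[(25,0),(0,0)]⟩,⟨0,[]⟩⟩,⟨false,1,⟨5,[(5,2),(6,0),(0,1),(0,1),(14,1),(2,0)]⟩,⟨0,
  [(22,0)]⟩⟩,⟨true,0,⟨0,[(1,0),(23,0),(7,0)]⟩,⟨2,[(6,0),(2,1),(2,0)]⟩⟩,⟨false,1,⟨7,[(1,0),(0,0),(2,
  2),(5,0),(2,5),(9,0),(4,0)]⟩,⟨2,[(0,2),(2,0),(8,0)]⟩⟩,⟨false,0,⟨0,[]⟩,⟨0,[]⟩⟩,⟨false,0,⟨0,[]⟩,⟨0,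
  []⟩⟩,[.e ⟨false,0,⟨0,[(33,0)]⟩,⟨4,[(2,1),(2,0),(3,1),(3,2),(22,0),(0,0)]⟩⟩ ⟨false,1,⟨23,[(5,3),(0,
  7),(6,3),(0,13),(14,4),(2,13),(3,0)]⟩,⟨0,[(0,0)]⟩⟩,.o ⟨false,1,⟨8,[(2,0),(10,1),(0,4),(14,1),(2,
  0)]⟩,⟨0,[(35,0)]⟩⟩,.a ⟨true,0,⟨1,[(15,0),(11,0),(0,0)]⟩,⟨0,[(8,0)]⟩⟩ ⟨true,0,⟨0,[(34,0)]⟩,⟨0,[(35,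
  0)]⟩⟩ ⟨false,1,⟨17,[(5,5),(0,2),(5,3),(0,1),(0,13),(14,1),(2,0)]⟩,⟨0,[(0,0)]⟩⟩,.o ⟨false,0,⟨0,
  [(25,0)]⟩,⟨23,[(5,3),(0,7),(6,3),(0,1),(14,10),(2,1),(3,6)]⟩⟩]⟩) (.Q [0,-1,0,1,0,0,0,0,0,1] (.pp
  false [-1,1]) (.Q [0,-1,0,1,0,0,1,1,0,1,-1] (.p false [0,0,1] [1] (⟨0,[(29,0)]⟩,⟨0,[(28,0)]⟩) .k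
  1 (⟨0,[]⟩,⟨0,[]⟩) .k .k) (.R ⟨0,false,false,true,[0,0,1],[1,-1],[0,1,0,-1],(⟨0,[(30,0)]⟩,⟨0,[(29,
  0)]⟩),(⟨0,[(32,0)]⟩,⟨0,[(33,0)]⟩),⟨0,[(19,0)]⟩,.k,.k,.k,.k,.k,.k,⟨true,0,⟨1,[(27,0),(0,0)]⟩,⟨0,
  []⟩⟩,⟨false,1,⟨4,[(2,0),(4,0),(7,2),(10,1),(4,1)]⟩,⟨0,[(24,0)]⟩⟩,⟨true,0,⟨0,[(2,0),(0,0),(13,0)]⟩,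
  ⟨2,[(8,0),(2,1),(2,0)]⟩⟩,⟨false,1,⟨11,[(2,0),(1,1),(2,4),(5,1),(2,8),(9,0),(4,0)]⟩,⟨0,[(0,0)]⟩⟩,
  ⟨false,0,⟨0,[]⟩,⟨0,[]⟩⟩,⟨false,0,⟨0,[]⟩,⟨0,[]⟩⟩,[.a ⟨true,0,⟨0,[(36,0)]⟩,⟨0,[(1,0)]⟩⟩ ⟨false,0,⟨0,
  [(35,0)]⟩,⟨11,[(1,5),(2,3),(9,1),(0,5),(15,2),(6,2)]⟩⟩ ⟨true,0,⟨0,[(2,0)]⟩,⟨0,[(1,0),(25,0)]⟩⟩,.o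
  ⟨false,1,⟨8,[(4,0),(10,1),(0,4),(14,1),(2,0)]⟩,⟨0,[(37,0)]⟩⟩,.e ⟨true,0,⟨0,[(36,0)]⟩,⟨0,[(37,
  0)]⟩⟩ ⟨true,0,⟨0,[(2,0)]⟩,⟨6,[(1,3),(2,0),(6,0),(2,0),(2,2),(16,1)]⟩⟩,.o ⟨false,0,⟨0,[(27,0)]⟩,
  ⟨23,[(7,3),(0,7),(6,3),(0,1),(14,10),(2,1),(3,6)]⟩⟩]⟩) (.R ⟨0,false,false,true,[0,0,1],[1,-1,1],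
  [0,1],(⟨0,[(30,0)]⟩,⟨0,[(29,0)]⟩),(⟨0,[(30,0),(1,0)]⟩,⟨0,[(19,0)]⟩),⟨0,[(19,0)]⟩,.k,.k,.k,.k,.k,
  .k,⟨true,0,⟨1,[(4,0),(32,0),(2,0)]⟩,⟨0,[(3,0),(1,0),(21,0)]⟩⟩,⟨false,1,⟨8,[(4,1),(10,3),(0,0),(14,
  3),(2,1)]⟩,⟨2,[(1,0),(6,0),(15,1),(11,0)]⟩⟩,⟨true,0,⟨3,[(0,0),(3,0),(12,0),(8,0),(7,0)]⟩,⟨0,[(9,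
  0)]⟩⟩,⟨false,1,⟨8,[(4,0),(10,1),(0,4),(14,1),(2,0)]⟩,⟨0,[(1,0)]⟩⟩,⟨false,0,⟨0,[]⟩,⟨0,[]⟩⟩,⟨false,
  0,⟨0,[]⟩,⟨0,[]⟩⟩,[.a ⟨true,0,⟨2,[(2,0),(2,0),(11,0),(7,0),(1,0),(8,0)]⟩,⟨0,[(1,0),(1,0)]⟩⟩ ⟨false,
  0,⟨3,[(0,1),(7,0),(2,1),(12,1),(9,0)]⟩,⟨13,[(4,1),(8,1),(1,7),(0,0),(0,0),(8,1),(12,2)]⟩⟩ ⟨true,0,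
  ⟨1,[(0,0),(1,0),(2,0),(5,0),(15,0)]⟩,⟨0,[(1,0),(1,0),(23,0)]⟩⟩,.o ⟨false,1,⟨0,[(11,0),(4,0)]⟩,⟨1,
  [(4,0),(3,0),(28,0)]⟩⟩,.e ⟨true,0,⟨0,[(41,0)]⟩,⟨0,[]⟩⟩ ⟨true,0,⟨1,[(0,0),(1,0),(2,0),(5,0),(15,
  0)]⟩,⟨6,[(1,4),(2,1),(12,0),(6,0),(1,2),(7,0)]⟩⟩,.o ⟨false,0,⟨0,[(27,0)]⟩,⟨23,[(7,3),(0,7),(6,3),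
  (0,1),(14,10),(2,1),(3,6)]⟩⟩]⟩)) (.I [0,0,1,0,0,-1,2] (.N [0,-1,2] 0 ⟨0,[(5,0)]⟩ ⟨0,[(4,0)]⟩ (.x
  0 ⟨0,[(0,0)]⟩ ⟨11,[(7,3),(0,7),(6,3),(0,1),(2,11),(9,11),(1,4),(2,1),(3,0)]⟩)) (.Q [0,0,1,0,0,0,
  -2,0,0,-1,2] (.p true [0,0,1] [1,0,-1] (⟨0,[(30,0)]⟩,⟨0,[(29,0)]⟩) .k 2 (⟨0,[(29,0)]⟩,⟨0,[(30,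
  0)]⟩) .k (.r 0 ⟨0,[(5,0),(31,0),(2,0)]⟩ ⟨3,[(4,1),(8,1),(2,0),(0,0),(2,0),(0,0),(4,1)]⟩)) (.K ⟨0,
  [1,-1,-1],0,0,(⟨0,[(19,0)]⟩,⟨0,[(31,0),(2,0)]⟩),.k,(.r (-1) ⟨0,[(2,0),(1,0),(20,0),(10,0),(3,0)]⟩
  ⟨1,[(6,0),(31,4),(2,4)]⟩),.k,(.r (-1) ⟨1,[(4,0),(0,0),(8,0),(2,0),(7,0),(10,0)]⟩ ⟨0,[(6,0),(31,1),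
  (2,1)]⟩),.k,[⟨0,[(0,0)]⟩,⟨1,[(18,0),(11,0),(0,0)]⟩,⟨3,[(15,3),(2,0),(6,1),(4,0),(0,0),(3,1)]⟩,⟨0,
  [(2,0),(1,0)]⟩]⟩) (.Q [0,0,0,0,0,2,0,0,0,-1] (.pp true [-1,1]) (.R ⟨0,false,false,false,[1,-1],[1,
  -1,-1],[1,1],(⟨0,[(34,0)]⟩,⟨0,[(35,0)]⟩),(⟨0,[(20,0)]⟩,⟨0,[(32,0),(2,0)]⟩),⟨0,[(0,0)]⟩,.k,.k,(.r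
  (-1) ⟨0,[(1,0),(8,0),(7,0)]⟩ ⟨0,[(39,1),(2,1)]⟩),.k,.k,.k,⟨false,0,⟨5,[(10,0),(2,1),(2,3),(19,
  2)]⟩,⟨4,[(1,2),(1,1),(1,5),(1,0),(7,0),(2,0),(22,2)]⟩⟩,⟨true,0,⟨0,[(12,0)]⟩,⟨0,[(29,0)]⟩⟩,⟨false,
  0,⟨2,[(6,0),(9,1)]⟩,⟨1,[(1,0),(8,0),(7,0),(22,0)]⟩⟩,⟨true,0,⟨0,[(5,0)]⟩,⟨0,[(27,0)]⟩⟩,⟨false,0,⟨0,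
  []⟩,⟨0,[]⟩⟩,⟨false,0,⟨0,[]⟩,⟨0,[]⟩⟩,[.o ⟨false,1,⟨11,[(4,0),(1,1),(2,4),(5,1),(2,8),(9,0),(4,0)]⟩,
  ⟨0,[(13,0)]⟩⟩,.o ⟨false,1,⟨0,[(3,0),(1,0),(35,0)]⟩,⟨8,[(6,0),(6,5),(2,1),(10,2),(8,2)]⟩⟩,.e
  ⟨false,0,⟨0,[]⟩,⟨13,[(6,1),(8,1),(1,7),(0,0),(0,0),(8,1),(12,2)]⟩⟩ ⟨false,1,⟨1,[(1,0),(3,1),(4,0),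
  (7,0),(22,0)]⟩,⟨1,[(13,0),(2,0),(12,0)]⟩⟩,.a ⟨true,0,⟨0,[(29,0),(0,0)]⟩,⟨0,[(1,0),(8,0)]⟩⟩ ⟨true,
  0,⟨2,[(1,0),(1,0),(6,0),(25,0),(2,0)]⟩,⟨1,[(29,0),(0,0)]⟩⟩ ⟨false,1,⟨0,[(1,0),(1,0),(1,0),(4,0),
  (30,0)]⟩,⟨0,[(16,0),(12,0)]⟩⟩]⟩) (.R ⟨1,false,false,true,[1,-1],[1,-1,1],[0,1,0,-1,0,0,0,1],(⟨0,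
  [(34,0)]⟩,⟨0,[(35,0)]⟩),(⟨0,[(32,0),(1,0)]⟩,⟨0,[(21,0)]⟩),⟨0,[(0,0)]⟩,.k,.k,(.r (-1) ⟨0,[(1,0),(8,
  0),(7,0)]⟩ ⟨0,[(39,1),(2,1)]⟩),.k,.k,.k,⟨true,0,⟨1,[(29,0),(0,0)]⟩,⟨0,[]⟩⟩,⟨false,1,⟨17,[(6,1),
  (10,3),(0,0),(0,8),(13,3),(2,1),(3,8)]⟩,⟨0,[(12,0)]⟩⟩,⟨false,0,⟨5,[(7,1),(8,1),(12,2),(0,2)]⟩,⟨0,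
  [(15,0)]⟩⟩,⟨true,0,⟨0,[(27,0)]⟩,⟨0,[(5,0)]⟩⟩,⟨false,0,⟨0,[(14,0)]⟩,⟨4,[(1,2),(1,1),(1,5),(1,0),(7,
  0),(2,0),(22,2)]⟩⟩,⟨false,0,⟨0,[(13,0)]⟩,⟨0,[(5,0),(32,0),(2,0)]⟩⟩,[.e ⟨false,0,⟨3,[(7,1),(28,0),
  (0,0),(0,0)]⟩,⟨19,[(6,13),(2,1),(3,3),(3,5),(22,6),(0,6)]⟩⟩ ⟨false,0,⟨2,[(1,2),(1,2),(3,0),(2,1),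
  (2,0)]⟩,⟨6,[(6,4),(2,1),(7,5),(10,0),(1,1),(10,0)]⟩⟩,.o ⟨false,1,⟨0,[(13,0),(4,0)]⟩,⟨1,[(6,0),(3,
  0),(28,0)]⟩⟩,.a ⟨true,0,⟨1,[(29,0),(0,0)]⟩,⟨2,[(10,0),(15,1),(4,0),(0,0)]⟩⟩ ⟨false,0,⟨0,[(5,0),(1,
  0),(21,0)]⟩,⟨19,[(6,13),(2,1),(3,3),(3,5),(22,6),(0,6)]⟩⟩ ⟨true,0,⟨6,[(1,2),(1,2),(3,2),(19,0),(8,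
  0),(1,0)]⟩,⟨8,[(6,3),(2,2),(6,1),(13,2)]⟩⟩,.e ⟨true,0,⟨3,[(7,1),(28,0),(0,0),(0,0)]⟩,⟨2,[(6,1),(9,
  0)]⟩⟩ ⟨true,0,⟨2,[(1,2),(1,2),(3,0),(2,1),(2,0)]⟩,⟨2,[(6,1),(9,0),(13,2)]⟩⟩]⟩)))))))))) (.Q [0,-1,
  0,-1,0,0,2,2,0,0,-2] (.p false [0,0,1] [0,1,-1] (⟨0,[(23,0)]⟩,⟨0,[(22,0)]⟩) .k 2 (⟨0,[(12,0)]⟩,⟨0,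
  [(23,0),(1,0)]⟩) .k (.r 0 ⟨0,[(0,1),(0,1),(28,1),(2,1)]⟩ ⟨0,[(6,0),(12,0),(0,0)]⟩)) (.R ⟨0,false,
  false,true,[0,0,1],[0,1,-1],[1,1,1],(⟨0,[(24,0)]⟩,⟨0,[(23,0)]⟩),(⟨0,[(13,0)]⟩,⟨0,[(24,0),(1,0)]⟩),
  ⟨0,[(13,0)]⟩,.k,.k,.k,(.r 0 ⟨3,[(0,2),(1,2),(0,1),(24,0),(1,0)]⟩ ⟨1,[(7,0),(12,2),(0,2),(9,1),(1,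
  0)]⟩),.k,.k,⟨false,0,⟨1,[(0,0),(1,0),(26,0)]⟩,⟨5,[(7,4),(0,3),(2,1),(8,4),(0,0),(3,0),(5,1)]⟩⟩,
  ⟨true,0,⟨0,[(2,0)]⟩,⟨0,[(21,1)]⟩⟩,⟨true,0,⟨0,[(20,0),(0,0)]⟩,⟨1,[(0,0),(1,0),(26,0),(1,1)]⟩⟩,
  ⟨false,1,⟨0,[(20,1),(10,0),(1,0)]⟩,⟨0,[(0,0)]⟩⟩,⟨false,0,⟨0,[]⟩,⟨0,[]⟩⟩,⟨false,0,⟨0,[]⟩,⟨0,[]⟩⟩,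
  [.o ⟨false,0,⟨0,[(20,0),(10,0)]⟩,⟨17,[(0,7),(8,1),(0,4),(0,0),(13,6),(7,3)]⟩⟩,.e ⟨false,0,⟨0,[]⟩,
  ⟨1,[(14,0),(0,0),(16,0)]⟩⟩ ⟨false,1,⟨6,[(2,3),(4,5),(0,4),(11,5),(10,1),(0,0)]⟩,⟨0,[(1,0)]⟩⟩,.a
  ⟨true,0,⟨1,[(11,0),(11,0),(0,0)]⟩,⟨0,[(4,0)]⟩⟩ ⟨false,0,⟨1,[(21,0),(0,0)]⟩,⟨1,[(32,0),(0,0)]⟩⟩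
  ⟨true,0,⟨2,[(2,0),(17,2),(1,0),(8,2)]⟩,⟨0,[(1,0)]⟩⟩,.o ⟨false,0,⟨0,[(21,0)]⟩,⟨9,[(2,3),(6,1),(10,
  1),(4,4),(6,2)]⟩⟩]⟩) (.R ⟨0,false,false,true,[0,0,1],[0,1,-1],[1,1,0,0,0,0,0,1],(⟨0,[(24,0)]⟩,⟨0,
  [(23,0)]⟩),(⟨0,[(13,0)]⟩,⟨0,[(24,0),(1,0)]⟩),⟨0,[(13,0)]⟩,.k,.k,.k,(.r 0 ⟨0,[(1,0),(0,0),(0,0)]⟩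
  ⟨17,[(0,19),(8,3),(0,0),(0,10),(9,17),(3,4),(7,7)]⟩),.k,.k,⟨false,0,⟨0,[(1,1),(0,1),(28,0)]⟩,⟨17,
  [(0,19),(8,3),(0,0),(0,10),(9,17),(3,4),(7,7)]⟩⟩,⟨true,0,⟨0,[(2,0)]⟩,⟨0,[(21,1)]⟩⟩,⟨false,0,⟨0,
  []⟩,⟨17,[(0,3),(8,7),(0,1),(0,3),(13,0),(7,6)]⟩⟩,⟨true,0,⟨0,[(0,0)]⟩,⟨0,[(1,0),(1,0)]⟩⟩,⟨false,0,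
  ⟨0,[]⟩,⟨0,[]⟩⟩,⟨false,0,⟨0,[]⟩,⟨0,[]⟩⟩,[.o ⟨false,0,⟨11,[(0,7),(4,2),(2,0),(12,0),(6,1)]⟩,⟨5,[(1,
  5),(0,1),(19,1),(2,2),(7,2)]⟩⟩,.e ⟨false,0,⟨0,[(1,0),(0,0),(28,0)]⟩,⟨5,[(0,3),(8,1),(0,1),(0,3),
  (13,0),(7,0)]⟩⟩ ⟨false,1,⟨3,[(0,2),(1,0),(5,0),(0,0),(22,1),(0,0)]⟩,⟨0,[(1,0)]⟩⟩,.a ⟨true,0,⟨1,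
  [(11,0),(11,0),(0,0)]⟩,⟨0,[(4,0)]⟩⟩ ⟨false,0,⟨0,[(3,0)]⟩,⟨5,[(0,1),(6,1),(2,0),(0,0),(9,1),(11,
  2)]⟩⟩ ⟨true,0,⟨17,[(0,11),(1,4),(5,5),(13,1),(5,2)]⟩,⟨0,[(1,0)]⟩⟩,.o ⟨false,0,⟨0,[(21,0)]⟩,⟨39,
  [(0,3),(1,15),(6,7),(0,1),(14,18),(2,1),(3,10)]⟩⟩]⟩)))) (.S ⟨1,1,[],[1,0,-1],[1,1],(⟨0,[(20,0)]⟩,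
  ⟨0,[(21,0)]⟩),⟨0,[(9,0)]⟩,.k,.k,⟨true,0,⟨0,[(5,0),(20,0)]⟩,⟨0,[(0,0)]⟩⟩,⟨false,1,⟨3,[(2,1),(3,1),
  (0,0),(0,0),(21,0)]⟩,⟨0,[(0,0),(0,0)]⟩⟩,⟨false,0,⟨0,[(1,0),(0,0)]⟩,⟨0,[(0,0),(26,0),(2,0)]⟩⟩,
  ⟨true,0,⟨0,[(2,0)]⟩,⟨0,[(0,0),(0,0),(25,0)]⟩⟩,[.fo,.o ⟨false,1,⟨1,[(22,0),(7,0)]⟩,⟨0,[(32,0)]⟩⟩,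
  .e ⟨false,0,⟨0,[]⟩,⟨1,[(11,0),(0,0),(17,0)]⟩⟩ ⟨false,1,⟨3,[(8,1),(2,0),(0,0),(9,0),(7,1)]⟩,⟨0,[(1,
  0)]⟩⟩,.a ⟨true,0,⟨0,[(19,0)]⟩,⟨0,[(15,0)]⟩⟩ ⟨true,0,⟨0,[(26,0),(1,0)]⟩,⟨1,[(18,0),(0,0)]⟩⟩ ⟨false,
  1,⟨1,[(15,1),(6,0),(7,0)]⟩,⟨0,[(19,0)]⟩⟩]⟩)))

theorem ok1 : chk K t1 l5 = true := by decide +kernel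

noncomputable def t2 : Tre :=
  (.I [0,1,-1,-1,0,0,0,-1] (.Q [0,0,0,0,0,0,-1,0,0,0,1] (.p true [0,0,1] [] (⟨0,[(20,0)]⟩,⟨0,[(19,
  0)]⟩) .k 0 (⟨0,[]⟩,⟨0,[]⟩) .k .k) (.I [1,0,0,-1,0,0,0,-1] (.S ⟨1,0,[0,1,1,1,0,0,0,1],[0,1,1],[0,0,
  1,1,0,0,0,1],(⟨0,[(22,0),(2,0)]⟩,⟨0,[(10,0)]⟩),⟨0,[(22,0)]⟩,.k,.k,⟨false,1,⟨1,[(12,0),(0,0),(17,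
  0)]⟩,⟨0,[]⟩⟩,⟨true,0,⟨0,[(33,0)]⟩,⟨0,[]⟩⟩,⟨true,0,⟨0,[(29,0)]⟩,⟨0,[(28,0)]⟩⟩,⟨false,0,⟨0,[(29,
  0)]⟩,⟨3,[(3,1),(3,1),(0,0),(0,0),(21,0)]⟩⟩,[.o ⟨false,0,⟨0,[(17,0),(11,0)]⟩,⟨1,[(3,1),(19,0),(7,
  0)]⟩⟩,.a ⟨true,0,⟨0,[(6,0),(9,0)]⟩,⟨0,[(3,0)]⟩⟩ ⟨false,1,⟨1,[(6,1),(23,0),(0,0)]⟩,⟨0,[(2,0)]⟩⟩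
  ⟨true,0,⟨0,[(4,0)]⟩,⟨0,[(0,0)]⟩⟩,.a ⟨true,0,⟨0,[(16,0)]⟩,⟨0,[(20,0)]⟩⟩ ⟨true,0,⟨0,[(4,0)]⟩,⟨0,[(2,
  0)]⟩⟩ ⟨false,0,⟨0,[(4,0)]⟩,⟨0,[(2,0),(28,0)]⟩⟩,.a ⟨true,0,⟨1,[(9,0),(11,0),(0,0)]⟩,⟨0,[(1,0)]⟩⟩
  ⟨false,1,⟨1,[(6,1),(23,0),(0,0)]⟩,⟨0,[(0,0)]⟩⟩ ⟨true,0,⟨0,[(1,0),(15,0),(11,0)]⟩,⟨0,[(0,0)]⟩⟩]⟩)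
  (.I [1,0,0,0,0,0,0,1] (.Q [0,0,-1,-1,0,0,-2,-1,0,0,2] (.p true [0,0,1] [0,1,-1] (⟨0,[(23,0)]⟩,⟨0,
  [(22,0)]⟩) .k 2 (⟨0,[(12,0)]⟩,⟨0,[(23,0),(1,0)]⟩) .k (.i 0 ⟨0,[(23,1)]⟩ ⟨0,[(11,0),(0,0)]⟩)) (.R
  ⟨0,false,false,false,[0,1,-1],[0,1,1],[1,0,1,1,0,0,0,1],(⟨0,[(13,0)]⟩,⟨0,[(24,0),(1,0)]⟩),(⟨0,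
  [(24,0),(2,0)]⟩,⟨0,[(12,0)]⟩),⟨0,[(24,0)]⟩,.k,.k,.k,.k,.k,.k,⟨true,0,⟨0,[]⟩,⟨1,[(21,0),(0,0)]⟩⟩,
  ⟨false,1,⟨1,[(11,1),(13,0),(6,0)]⟩,⟨0,[(0,0),(7,0)]⟩⟩,⟨true,0,⟨0,[(1,1)]⟩,⟨0,[(4,0),(0,0),(15,0),
  (9,1)]⟩⟩,⟨false,1,⟨1,[(1,3),(9,1),(13,0),(7,0)]⟩,⟨0,[(5,1),(25,1)]⟩⟩,⟨false,0,⟨0,[]⟩,⟨0,[]⟩⟩,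
  ⟨false,0,⟨0,[]⟩,⟨0,[]⟩⟩,[.e ⟨false,0,⟨0,[(2,0)]⟩,⟨1,[(7,0),(2,0),(7,0),(1,0)]⟩⟩ ⟨false,1,⟨1,[(8,
  1),(2,1),(13,0),(6,0)]⟩,⟨0,[(0,0)]⟩⟩,.e ⟨false,1,⟨1,[(8,1),(23,0),(0,0)]⟩,⟨0,[(4,0)]⟩⟩ ⟨false,1,
  ⟨1,[(2,1),(8,1),(13,0),(7,0)]⟩,⟨5,[(0,4),(19,0),(1,0),(5,1),(1,0)]⟩⟩,.a ⟨true,0,⟨0,[(0,0),(7,0),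
  (9,0)]⟩,⟨0,[(21,0)]⟩⟩ ⟨true,0,⟨0,[(8,0)]⟩,⟨0,[(4,0)]⟩⟩ ⟨false,1,⟨1,[(8,1),(2,1),(13,0),(7,0)]⟩,⟨0,
  [(0,0)]⟩⟩,.o ⟨false,0,⟨0,[(3,0)]⟩,⟨3,[(11,1),(2,0),(0,0),(9,2)]⟩⟩]⟩) (.R ⟨0,false,false,false,[0,
  1,-1],[0,1,1],[1,0,1,1,0,0,0,1],(⟨0,[(13,0)]⟩,⟨0,[(24,0),(1,0)]⟩),(⟨0,[(24,0),(2,0)]⟩,⟨0,[(12,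
  0)]⟩),⟨0,[(24,0)]⟩,.k,.k,.k,.k,.k,.k,⟨true,0,⟨0,[]⟩,⟨1,[(21,0),(0,0)]⟩⟩,⟨false,1,⟨1,[(11,1),(13,
  0),(6,0)]⟩,⟨0,[(3,1)]⟩⟩,⟨true,0,⟨0,[(1,1)]⟩,⟨0,[(4,0),(0,0),(15,0),(9,1)]⟩⟩,⟨false,1,⟨5,[(0,3),(0,
  7),(8,1),(7,3),(6,0),(7,2)]⟩,⟨0,[(5,1),(25,1)]⟩⟩,⟨false,0,⟨0,[]⟩,⟨0,[]⟩⟩,⟨false,0,⟨0,[]⟩,⟨0,[]⟩⟩,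
  [.a ⟨true,0,⟨0,[(8,0),(9,0)]⟩,⟨0,[(5,0)]⟩⟩ ⟨false,0,⟨0,[(2,0)]⟩,⟨1,[(7,0),(2,0),(7,0),(1,0)]⟩⟩
  ⟨true,0,⟨0,[(0,0)]⟩,⟨0,[(3,0),(1,0)]⟩⟩,.e ⟨false,1,⟨1,[(8,1),(23,0),(0,0)]⟩,⟨0,[(4,0)]⟩⟩ ⟨false,1,
  ⟨1,[(0,1),(31,0),(0,0)]⟩,⟨0,[(3,1),(0,0)]⟩⟩,.e ⟨true,0,⟨0,[(8,0)]⟩,⟨0,[(4,0)]⟩⟩ ⟨true,0,⟨0,[(0,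
  0)]⟩,⟨0,[(3,1),(0,0)]⟩⟩,.o ⟨false,0,⟨0,[(3,0)]⟩,⟨3,[(11,1),(2,0),(0,0),(9,2)]⟩⟩]⟩)) (.S ⟨1,0,[0,1,
  1,1,0,0,0,1],[0,1,1],[0,0,1],(⟨0,[(23,0),(2,0)]⟩,⟨0,[(11,0)]⟩),⟨0,[(23,0)]⟩,.k,.k,⟨false,1,⟨3,[(4,
  1),(1,0),(2,0),(0,0),(8,0),(0,0),(11,1)]⟩,⟨0,[(1,0)]⟩⟩,⟨true,0,⟨0,[(34,0)]⟩,⟨0,[]⟩⟩,⟨true,0,⟨0,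
  [(0,0)]⟩,⟨0,[(2,0),(15,0)]⟩⟩,⟨false,0,⟨0,[(30,0)]⟩,⟨3,[(4,1),(3,1),(0,0),(0,0),(21,0)]⟩⟩,[.o
  ⟨false,0,⟨0,[(18,0),(11,0)]⟩,⟨1,[(4,1),(19,0),(7,0)]⟩⟩,.e ⟨false,1,⟨1,[(13,0),(0,0),(17,0)]⟩,⟨0,
  [(28,0),(1,0)]⟩⟩ ⟨false,0,⟨0,[(1,0)]⟩,⟨1,[(6,0),(2,0),(7,0),(1,0)]⟩⟩,.a ⟨true,0,⟨0,[(17,0)]⟩,⟨0,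
  [(21,0)]⟩⟩ ⟨true,0,⟨1,[(20,0),(0,0)]⟩,⟨0,[(28,0),(1,0)]⟩⟩ ⟨false,0,⟨0,[(5,0)]⟩,⟨0,[(3,0),(28,
  0)]⟩⟩,.e ⟨false,1,⟨1,[(13,0),(0,0),(17,0)]⟩,⟨0,[]⟩⟩ ⟨false,0,⟨0,[(1,0)]⟩,⟨3,[(4,1),(1,0),(2,0),(0,
  0),(8,0),(0,0),(11,1)]⟩⟩]⟩))) (.I [1,0,1,0,0,0,0,1] (.Q [0,1,0,-1,0,0,-1,-1,0,-1,1] (.p true [0,0,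
  1] [1] (⟨0,[(22,0)]⟩,⟨0,[(21,0)]⟩) .k 1 (⟨0,[]⟩,⟨0,[]⟩) .k .k) (.Q [0,0,2,0,0,0,-1,0,0,-1,1] (.p
  true [0,0,1] [1] (⟨0,[(23,0)]⟩,⟨0,[(22,0)]⟩) .k 1 (⟨0,[]⟩,⟨0,[]⟩) .k .k) (.Q [0,-1,0,-1,1,0,0,0,0,
  -1] (.pp true [-1,1]) (.R ⟨1,false,false,true,[1,0,-1],[0,1],[0,1,0,0,0,0,0,-1],(⟨0,[(24,0)]⟩,⟨0,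
  [(25,0)]⟩),(⟨0,[(28,0)]⟩,⟨0,[(27,0)]⟩),⟨0,[(13,0)]⟩,.k,.k,.k,.k,(.r (-1) ⟨2,[(0,1),(4,0),(0,1),
  (12,1),(10,0),(2,0)]⟩ ⟨2,[(1,0),(7,2),(2,0),(10,0),(8,2)]⟩),.k,⟨false,1,⟨3,[(0,0),(4,1),(0,0),(1,
  0),(10,0),(13,1)]⟩,⟨0,[(9,0)]⟩⟩,⟨true,0,⟨0,[(19,0)]⟩,⟨0,[(1,0)]⟩⟩,⟨true,0,⟨0,[(36,0)]⟩,⟨0,[]⟩⟩,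
  ⟨false,0,⟨0,[(9,0),(9,0)]⟩,⟨1,[(6,1),(19,0),(7,0)]⟩⟩,⟨false,0,⟨0,[(32,0)]⟩,⟨3,[(6,1),(3,1),(0,0),
  (0,0),(21,0)]⟩⟩,⟨false,0,⟨0,[(9,0),(9,0),(12,0)]⟩,⟨0,[(0,0),(5,0)]⟩⟩,[.o ⟨false,0,⟨4,[(9,0),(11,
  0),(0,0),(6,1),(2,3)]⟩,⟨0,[(0,0)]⟩⟩,.o ⟨false,0,⟨0,[(32,0)]⟩,⟨3,[(11,1),(3,0),(0,0),(9,0)]⟩⟩,.o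
  ⟨false,1,⟨0,[(1,0),(31,0)]⟩,⟨0,[(4,0)]⟩⟩,.a ⟨true,0,⟨0,[(23,0)]⟩,⟨0,[(19,0)]⟩⟩ ⟨true,0,⟨0,[(5,0),
  (26,0)]⟩,⟨0,[(3,0)]⟩⟩ ⟨false,0,⟨0,[(19,0),(12,0)]⟩,⟨1,[(0,0),(0,0),(4,0),(3,0)]⟩⟩]⟩) (.Q [0,0,-1,
  0,1,0,-1,0,0,-1,1] (.p true [0,0,1] [1] (⟨0,[(25,0)]⟩,⟨0,[(24,0)]⟩) .k 1 (⟨0,[]⟩,⟨0,[]⟩) .k .k)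
  (.R ⟨0,false,false,false,[0,0,1],[0,1],[1,1],(⟨0,[(26,0)]⟩,⟨0,[(25,0)]⟩),(⟨0,[(29,0)]⟩,⟨0,[(28,
  0)]⟩),⟨0,[(15,0)]⟩,.k,.k,.k,.k,.k,.k,⟨true,0,⟨0,[(31,0)]⟩,⟨0,[(1,0),(0,0),(2,0),(29,0)]⟩⟩,⟨false,
  1,⟨0,[(0,0),(0,0),(29,0),(3,0)]⟩,⟨0,[(23,0)]⟩⟩,⟨false,0,⟨0,[(5,0),(1,0),(25,0)]⟩,⟨0,[(8,0),(22,0),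
  (3,0)]⟩⟩,⟨true,0,⟨0,[(7,0),(25,1)]⟩,⟨0,[(4,0),(0,0),(25,0)]⟩⟩,⟨false,0,⟨0,[]⟩,⟨0,[]⟩⟩,⟨false,0,⟨0,
  []⟩,⟨0,[]⟩⟩,[.o ⟨false,0,⟨0,[(33,0)]⟩,⟨3,[(12,1),(3,0),(0,0),(9,0)]⟩⟩,.a ⟨true,0,⟨0,[(1,0),(33,
  0)]⟩,⟨0,[(32,0)]⟩⟩ ⟨true,0,⟨0,[]⟩,⟨2,[(2,0),(10,0),(10,0)]⟩⟩ ⟨false,1,⟨0,[(0,0),(0,0),(33,0)]⟩,⟨0,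
  [(5,0),(26,0)]⟩⟩,.o ⟨false,0,⟨0,[(5,0)]⟩,⟨4,[(0,1),(1,0),(8,1),(10,1),(4,0)]⟩⟩,.o ⟨false,0,⟨0,
  [(23,0)]⟩,⟨0,[(0,0)]⟩⟩]⟩) (.R ⟨0,false,false,false,[0,0,1],[1,-1,1],[0,1],(⟨0,[(26,0)]⟩,⟨0,[(25,
  0)]⟩),(⟨0,[(26,0),(1,0)]⟩,⟨0,[(15,0)]⟩),⟨0,[(15,0)]⟩,.k,.k,.k,.k,.k,.k,⟨true,(-1),⟨0,[(0,0),(2,0),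
  (29,1)]⟩,⟨0,[(4,0),(26,0),(3,0)]⟩⟩,⟨false,1,⟨1,[(16,0),(0,0),(9,0)]⟩,⟨0,[(1,0),(29,0),(3,0)]⟩⟩,
  ⟨false,0,⟨1,[(0,0),(2,0),(5,0),(23,0)]⟩,⟨0,[(11,0)]⟩⟩,⟨true,1,⟨3,[(12,1),(3,0),(0,0),(9,0)]⟩,⟨0,
  [(1,0)]⟩⟩,⟨false,0,⟨0,[]⟩,⟨0,[]⟩⟩,⟨false,0,⟨0,[]⟩,⟨0,[]⟩⟩,[.o ⟨false,1,⟨0,[(0,0),(10,0),(15,0),(3,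
  0)]⟩,⟨0,[(7,0),(25,1)]⟩⟩,.e ⟨false,1,⟨1,[(16,0),(0,0),(16,0)]⟩,⟨0,[]⟩⟩ ⟨false,2,⟨1,[(11,1),(15,0),
  (3,1),(3,0)]⟩,⟨1,[(0,0),(0,1),(1,0),(5,0),(23,0)]⟩⟩,.o ⟨false,0,⟨0,[(5,0)]⟩,⟨0,[(2,0),(31,0)]⟩⟩,
  .a ⟨true,(-1),⟨0,[(0,0)]⟩,⟨0,[(24,0),(9,0)]⟩⟩ ⟨true,0,⟨3,[(1,1),(25,0),(3,1),(2,0)]⟩,⟨2,[(2,0),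
  (10,0),(10,0)]⟩⟩ ⟨false,2,⟨1,[(11,1),(15,0),(3,1),(3,0)]⟩,⟨0,[(0,0),(6,0),(25,1)]⟩⟩]⟩))) (.Q [0,
  -1,0,2,0,0,1,1,0,1,-1] (.p false [0,0,1] [1] (⟨0,[(24,0)]⟩,⟨0,[(23,0)]⟩) .k 1 (⟨0,[]⟩,⟨0,[]⟩) .k
  .k) (.R ⟨1,false,false,false,[1,0,-1],[0,1],[1,0,1,1],(⟨0,[(24,0)]⟩,⟨0,[(25,0)]⟩),(⟨0,[(28,0)]⟩,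
  ⟨0,[(27,0)]⟩),⟨0,[(13,0)]⟩,.k,.k,.k,.k,(.r (-1) ⟨4,[(1,2),(3,0),(0,2),(1,0),(2,2),(21,0)]⟩ ⟨1,[(9,
  1),(12,0),(0,0),(8,1)]⟩),.k,⟨true,0,⟨0,[]⟩,⟨1,[(22,0),(0,0)]⟩⟩,⟨false,0,⟨0,[(1,0)]⟩,⟨3,[(10,1),
  (10,1),(0,0),(0,2),(2,1)]⟩⟩,⟨true,0,⟨0,[(9,0)]⟩,⟨0,[(5,0)]⟩⟩,⟨true,0,⟨0,[(9,0),(9,0)]⟩,⟨0,[(2,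
  0)]⟩⟩,⟨true,0,⟨0,[(9,0),(22,0)]⟩,⟨0,[(4,0),(1,0),(23,0)]⟩⟩,⟨false,0,⟨0,[(0,0)]⟩,⟨5,[(6,3),(4,3),
  (9,1),(4,0),(7,0)]⟩⟩,[.o ⟨false,0,⟨0,[(32,0)]⟩,⟨3,[(11,1),(3,0),(0,0),(9,0)]⟩⟩,.a ⟨true,0,⟨0,[(0,
  0),(5,0)]⟩,⟨0,[(31,0)]⟩⟩ ⟨false,1,⟨0,[(8,0),(0,0)]⟩,⟨0,[(30,0)]⟩⟩ ⟨true,0,⟨0,[(0,0),(3,0),(1,0)]⟩,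
  ⟨0,[(2,0),(0,0)]⟩⟩,.o ⟨false,1,⟨1,[(23,1),(2,0),(6,0)]⟩,⟨0,[(4,0)]⟩⟩,.e ⟨true,0,⟨0,[(32,0)]⟩,⟨0,
  [(31,0)]⟩⟩ ⟨true,0,⟨3,[(0,0),(0,1),(10,0),(8,0),(10,1)]⟩,⟨0,[(2,0),(0,0)]⟩⟩]⟩) (.Q [0,0,0,-1,0,0,
  -2,-1,0,0,2] (.p true [0,0,1] [0,1,-1] (⟨0,[(25,0)]⟩,⟨0,[(24,0)]⟩) .k 2 (⟨0,[(14,0)]⟩,⟨0,[(25,0),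
  (1,0)]⟩) .k (.r (-1) ⟨0,[(9,0),(0,0),(19,0)]⟩ ⟨0,[(4,1),(1,1),(25,1)]⟩)) (.R ⟨0,false,false,false,
  [0,1,-1],[0,1,1],[0,1,1],(⟨0,[(15,0)]⟩,⟨0,[(26,0),(1,0)]⟩),(⟨0,[(26,0),(2,0)]⟩,⟨0,[(14,0)]⟩),⟨0,
  [(26,0)]⟩,.k,.k,.k,.k,.k,.k,⟨false,0,⟨0,[(6,0)]⟩,⟨1,[(10,1),(23,0),(0,0)]⟩⟩,⟨true,0,⟨0,[(5,1)]⟩,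
  ⟨0,[(0,0),(9,0)]⟩⟩,⟨true,0,⟨0,[(4,0),(26,0)]⟩,⟨0,[(5,0),(1,0),(25,1)]⟩⟩,⟨false,1,⟨1,[(2,1),(1,3),
  (0,1),(21,0),(7,0)]⟩,⟨0,[(7,1),(25,1)]⟩⟩,⟨false,0,⟨0,[]⟩,⟨0,[]⟩⟩,⟨false,0,⟨0,[]⟩,⟨0,[]⟩⟩,[.a
  ⟨true,0,⟨0,[(10,0),(9,0)]⟩,⟨0,[(7,0)]⟩⟩ ⟨false,0,⟨0,[(37,0)]⟩,⟨1,[(34,0),(0,0)]⟩⟩ ⟨true,0,⟨0,[(5,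
  1),(4,0)]⟩,⟨0,[(0,0)]⟩⟩,.o ⟨false,1,⟨5,[(2,1),(7,5),(2,1),(13,1),(6,0),(0,2)]⟩,⟨0,[(3,0)]⟩⟩,.a
  ⟨true,0,⟨0,[(0,0),(1,0),(7,0)]⟩,⟨0,[(23,0)]⟩⟩ ⟨false,0,⟨1,[(23,0),(0,0)]⟩,⟨1,[(34,0),(0,0)]⟩⟩
  ⟨true,0,⟨0,[(5,1),(4,0)]⟩,⟨0,[(0,0),(30,0),(1,0)]⟩⟩,.a ⟨true,0,⟨0,[(0,0),(9,0),(9,0)]⟩,⟨0,[(5,
  0)]⟩⟩ ⟨true,0,⟨0,[(37,0)]⟩,⟨0,[]⟩⟩ ⟨false,1,⟨1,[(2,0),(2,0),(4,1),(2,0),(13,0),(7,0)]⟩,⟨0,[(0,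
  0)]⟩⟩]⟩) (.Q [0,0,1,0,0,0,-2,0,0,0,2] (.p true [0,0,1] [0,1,-1] (⟨0,[(26,0)]⟩,⟨0,[(25,0)]⟩) .k 2
  (⟨0,[(15,0)]⟩,⟨0,[(26,0),(1,0)]⟩) .k (.r (-1) ⟨0,[(10,0),(0,0),(19,0)]⟩ ⟨0,[(5,1),(1,1),(25,
  1)]⟩)) (.R ⟨0,false,false,false,[0,1,-1],[0,1,1],[0,1,1],(⟨0,[(16,0)]⟩,⟨0,[(27,0),(1,0)]⟩),(⟨0,
  [(27,0),(2,0)]⟩,⟨0,[(15,0)]⟩),⟨0,[(27,0)]⟩,.k,.k,.k,.k,.k,.k,⟨false,0,⟨0,[(7,0)]⟩,⟨1,[(11,1),(23,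
  0),(0,0)]⟩⟩,⟨true,0,⟨0,[(6,1)]⟩,⟨0,[(0,0)]⟩⟩,⟨true,0,⟨0,[(5,0),(26,0)]⟩,⟨0,[(6,0),(1,0),(25,1)]⟩⟩,
  ⟨false,1,⟨5,[(1,3),(1,3),(1,7),(7,1),(14,0),(7,2)]⟩,⟨0,[(8,1),(25,1)]⟩⟩,⟨false,0,⟨0,[]⟩,⟨0,[]⟩⟩,
  ⟨false,0,⟨0,[]⟩,⟨0,[]⟩⟩,[.e ⟨false,0,⟨0,[(38,0)]⟩,⟨1,[(35,0),(0,0)]⟩⟩ ⟨false,0,⟨0,[(1,0)]⟩,⟨2,[(0,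
  0),(7,2),(3,0),(10,0),(11,1)]⟩⟩,.o ⟨false,1,⟨1,[(1,0),(8,0),(0,0),(0,0)]⟩,⟨0,[(4,0)]⟩⟩,.a ⟨true,0,
  ⟨0,[(0,0),(2,0)]⟩,⟨0,[(24,0)]⟩⟩ ⟨false,0,⟨2,[(0,0),(23,1)]⟩,⟨1,[(35,0),(0,0)]⟩⟩ ⟨true,0,⟨2,[(1,1),
  (9,0),(12,1)]⟩,⟨0,[(0,0),(2,0),(0,0)]⟩⟩,.e ⟨true,0,⟨0,[(38,0)]⟩,⟨0,[]⟩⟩ ⟨true,0,⟨0,[(1,0)]⟩,⟨1,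
  [(0,0),(7,1),(22,0)]⟩⟩]⟩) (.Q [0,0,-1,0,1,0,-1,0,0,-1,1] (.p true [0,0,1] [1] (⟨0,[(27,0)]⟩,⟨0,
  [(26,0)]⟩) .k 1 (⟨0,[]⟩,⟨0,[]⟩) .k .k) (.R ⟨0,false,false,true,[0,0,1],[1,-1,-1],[1,1],(⟨0,[(28,
  0)]⟩,⟨0,[(27,0)]⟩),(⟨0,[(16,0)]⟩,⟨0,[(28,0),(2,0)]⟩),⟨0,[(17,0)]⟩,.k,.k,.k,(.r (-1) ⟨0,[(12,0),(0,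
  0),(25,0)]⟩ ⟨0,[(1,0),(7,1),(25,0)]⟩),.k,.k,⟨true,0,⟨0,[(12,0)]⟩,⟨2,[(1,0),(7,2),(15,0)]⟩⟩,⟨false,
  1,⟨0,[(0,0),(25,0)]⟩,⟨4,[(1,0),(2,1),(10,2)]⟩⟩,⟨false,0,⟨2,[(1,0),(7,2),(15,0),(9,2)]⟩,⟨0,[(3,0),
  (0,0),(5,1),(26,0)]⟩⟩,⟨true,0,⟨0,[(5,0),(3,0),(25,0)]⟩,⟨4,[(2,1),(1,3),(1,4),(5,2),(2,0)]⟩⟩,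
  ⟨false,0,⟨0,[]⟩,⟨0,[]⟩⟩,⟨false,0,⟨0,[]⟩,⟨0,[]⟩⟩,[.o ⟨false,0,⟨0,[(5,0)]⟩,⟨1,[(2,0),(8,0),(0,0),(0,
  0)]⟩⟩,.a ⟨true,0,⟨0,[(9,0)]⟩,⟨0,[(12,0),(9,0)]⟩⟩ ⟨true,0,⟨0,[]⟩,⟨1,[(25,0),(0,0)]⟩⟩ ⟨false,1,⟨0,
  [(0,0),(8,0)]⟩,⟨4,[(2,0),(1,1),(7,3),(2,2)]⟩⟩,.o ⟨false,0,⟨0,[(7,0)]⟩,⟨2,[(0,0),(12,0),(10,0),(1,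
  0),(2,0)]⟩⟩,.o ⟨false,0,⟨0,[(25,0)]⟩,⟨0,[(0,0)]⟩⟩]⟩) (.Q [0,-1,0,-1,1,0,0,0,0,-1] (.pp true [-1,
  1]) (.R ⟨0,false,false,false,[0,0,1],[1,-1],[1,0,0,0,0,0,0,1],(⟨0,[(29,0)]⟩,⟨0,[(28,0)]⟩),(⟨0,
  [(31,0)]⟩,⟨0,[(32,0)]⟩),⟨0,[(18,0)]⟩,.k,.k,.k,.k,.k,.k,⟨true,0,⟨0,[(13,0)]⟩,⟨1,[(1,0),(2,0),(7,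
  0)]⟩⟩,⟨false,1,⟨1,[(27,1),(2,0),(6,0)]⟩,⟨0,[(23,0)]⟩⟩,⟨true,0,⟨0,[]⟩,⟨0,[(40,0)]⟩⟩,⟨false,1,⟨1,
  [(10,1),(19,0),(7,0)]⟩,⟨0,[(13,0),(9,0)]⟩⟩,⟨false,0,⟨0,[]⟩,⟨0,[]⟩⟩,⟨false,0,⟨0,[]⟩,⟨0,[]⟩⟩,[.o
  ⟨false,1,⟨3,[(15,1),(3,0),(0,0),(9,0)]⟩,⟨0,[(36,0)]⟩⟩,.o ⟨false,1,⟨0,[(0,0)]⟩,⟨3,[(3,0),(9,0),(11,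
  1),(7,0),(2,1)]⟩⟩,.o ⟨false,0,⟨0,[(8,0)]⟩,⟨1,[(27,1),(2,0),(6,0)]⟩⟩,.a ⟨true,(-1),⟨0,[(1,0)]⟩,⟨0,
  [(27,0),(9,0)]⟩⟩ ⟨true,1,⟨1,[(13,0),(0,0),(19,0),(2,0)]⟩,⟨0,[(1,0),(4,0),(29,0)]⟩⟩ ⟨false,2,⟨1,
  [(10,1),(3,1),(15,0),(6,0)]⟩,⟨0,[(1,0),(34,0)]⟩⟩]⟩) (.R ⟨0,false,false,false,[0,0,1],[1,-1,1],[0,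
  1],(⟨0,[(29,0)]⟩,⟨0,[(28,0)]⟩),(⟨0,[(29,0),(1,0)]⟩,⟨0,[(18,0)]⟩),⟨0,[(18,0)]⟩,.k,.k,.k,.k,.k,.k,
  ⟨true,(-1),⟨0,[(1,0),(4,0),(29,1)]⟩,⟨1,[(4,0),(0,0),(1,1),(6,0),(23,0)]⟩⟩,⟨false,1,⟨1,[(19,0),(0,
  0),(9,0)]⟩,⟨1,[(0,0),(4,0),(4,0),(3,0)]⟩⟩,⟨false,0,⟨1,[(1,0),(4,0),(5,0),(23,0)]⟩,⟨0,[(14,0)]⟩⟩,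
  ⟨true,1,⟨3,[(15,1),(3,0),(0,0),(9,0)]⟩,⟨0,[(0,0)]⟩⟩,⟨false,0,⟨0,[]⟩,⟨0,[]⟩⟩,⟨false,0,⟨0,[]⟩,⟨0,
  []⟩⟩,[.o ⟨false,1,⟨2,[(3,0),(1,0),(1,1),(7,1),(14,0)]⟩,⟨0,[(10,0),(25,1)]⟩⟩,.e ⟨false,1,⟨1,[(19,
  0),(0,0),(16,0)]⟩,⟨0,[]⟩⟩ ⟨false,2,⟨1,[(4,0),(0,0),(8,2),(15,0)]⟩,⟨1,[(0,1),(0,0),(4,0),(5,0),(23,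
  0)]⟩⟩,.o ⟨false,0,⟨0,[(8,0)]⟩,⟨1,[(27,1),(2,0),(6,0)]⟩⟩,.a ⟨true,(-1),⟨0,[(1,0)]⟩,⟨0,[(27,0),(9,
  0)]⟩⟩ ⟨true,0,⟨3,[(0,1),(29,0),(3,1),(2,0)]⟩,⟨1,[(26,0),(0,0)]⟩⟩ ⟨false,2,⟨1,[(4,0),(0,0),(8,2),
  (15,0)]⟩,⟨0,[(1,0),(8,0),(25,1)]⟩⟩]⟩))))))) (.S ⟨1,0,[0,0,1,1,0,0,0,1],[0,1,1],[1,1,1,0,0,0,0,1],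
  (⟨0,[(23,0),(2,0)]⟩,⟨0,[(11,0)]⟩),⟨0,[(23,0)]⟩,.k,.k,⟨true,0,⟨0,[(29,0)]⟩,⟨0,[(30,0)]⟩⟩,⟨false,1,
  ⟨1,[(13,0),(0,0),(17,0)]⟩,⟨0,[]⟩⟩,⟨false,0,⟨0,[]⟩,⟨1,[(13,0),(0,0),(17,0)]⟩⟩,⟨true,0,⟨0,[(30,0)]⟩,
  ⟨0,[(29,0)]⟩⟩,[.a ⟨true,0,⟨4,[(0,3),(6,0),(2,0),(10,0),(5,1)]⟩,⟨0,[(4,0)]⟩⟩ ⟨false,0,⟨0,[(7,0),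
  (20,0)]⟩,⟨0,[(6,0)]⟩⟩ ⟨true,0,⟨0,[(5,0)]⟩,⟨0,[(2,0),(1,0)]⟩⟩,.a ⟨true,0,⟨0,[(0,0)]⟩,⟨1,[(4,0),(14,
  0),(9,0)]⟩⟩ ⟨true,0,⟨0,[(1,0)]⟩,⟨0,[(2,0),(1,0),(25,0)]⟩⟩ ⟨false,1,⟨1,[(7,1),(23,0),(0,0)]⟩,⟨0,
  [(3,0)]⟩⟩,.a ⟨true,0,⟨0,[(17,0)]⟩,⟨0,[(21,0)]⟩⟩ ⟨false,0,⟨0,[(1,0)]⟩,⟨0,[(6,0)]⟩⟩ ⟨true,0,⟨0,[(5,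
  0)]⟩,⟨0,[(3,0)]⟩⟩,.o ⟨false,0,⟨0,[(2,0)]⟩,⟨1,[(21,1),(2,0),(6,0)]⟩⟩]⟩)) (.S ⟨1,0,[0,0,0,0,0,0,0,
  -1],[1,0,-1],[1,1,1],(⟨0,[(21,0)]⟩,⟨0,[(22,0)]⟩),⟨0,[(10,0)]⟩,.k,.k,⟨true,0,⟨0,[(6,0),(21,0)]⟩,⟨0,
  [(0,0)]⟩⟩,⟨false,1,⟨1,[(12,0),(0,0),(17,0)]⟩,⟨0,[]⟩⟩,⟨false,0,⟨0,[(6,0)]⟩,⟨2,[(0,0),(2,0),(1,0),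
  (2,0),(7,0),(14,0)]⟩⟩,⟨true,0,⟨0,[(29,0)]⟩,⟨0,[(28,0)]⟩⟩,[.e ⟨false,0,⟨0,[(33,0)]⟩,⟨1,[(30,0),(0,
  0)]⟩⟩ ⟨false,0,⟨0,[(0,0)]⟩,⟨0,[(7,0),(25,0)]⟩⟩,.o ⟨false,1,⟨1,[(3,1),(19,0),(5,1),(1,0)]⟩,⟨0,[(17,
  0)]⟩⟩,.o ⟨false,1,⟨1,[(20,1),(2,0),(6,0)]⟩,⟨0,[(1,0)]⟩⟩,.a ⟨true,0,⟨0,[(20,0)]⟩,⟨0,[(16,0)]⟩⟩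
  ⟨false,0,⟨0,[]⟩,⟨1,[(12,0),(0,0),(17,0)]⟩⟩ ⟨true,0,⟨0,[(0,0)]⟩,⟨0,[(6,0),(21,0)]⟩⟩]⟩))) (.Q [0,1,
  0,-1,0,0,-2,-1,0,-1,2] (.p true [0,0,1] [1,0,-1] (⟨0,[(20,0)]⟩,⟨0,[(19,0)]⟩) .k 2 (⟨0,[(19,0)]⟩,
  ⟨0,[(20,0)]⟩) .k (.r 0 ⟨0,[(0,1),(24,1)]⟩ ⟨0,[(3,0),(12,0),(0,0)]⟩)) (.R ⟨0,false,false,false,[0,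
  0,1],[1,-1,-1],[1,0,1],(⟨0,[(21,0)]⟩,⟨0,[(20,0)]⟩),(⟨0,[(9,0)]⟩,⟨0,[(21,0),(2,0)]⟩),⟨0,[(10,0)]⟩,
  .k,.k,.k,(.r 0 ⟨0,[(1,0),(3,0),(20,0)]⟩ ⟨0,[(0,0),(3,0),(3,0)]⟩),.k,.k,⟨false,0,⟨0,[(5,0)]⟩,⟨0,
  [(4,0),(21,0)]⟩⟩,⟨true,0,⟨0,[(0,0),(0,0)]⟩,⟨0,[(8,0)]⟩⟩,⟨true,0,⟨0,[(2,0),(15,0),(9,0)]⟩,⟨0,[(1,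
  0),(24,1),(1,0)]⟩⟩,⟨false,1,⟨1,[(2,3),(19,0),(5,1),(1,0)]⟩,⟨0,[(1,0),(13,0),(0,0)]⟩⟩,⟨false,0,⟨0,
  []⟩,⟨0,[]⟩⟩,⟨false,0,⟨0,[]⟩,⟨0,[]⟩⟩,[.e ⟨false,0,⟨0,[]⟩,⟨1,[(11,0),(0,0),(16,0)]⟩⟩ ⟨false,1,⟨1,
  [(0,1),(28,0),(0,0)]⟩,⟨1,[(1,0),(6,0),(6,0),(0,0),(11,0)]⟩⟩,.o ⟨false,1,⟨1,[(2,1),(19,0),(7,0)]⟩,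
  ⟨0,[(16,0),(11,0)]⟩⟩,.a ⟨true,0,⟨1,[(8,0),(11,0),(0,0)]⟩,⟨0,[(0,0),(0,0),(13,0)]⟩⟩ ⟨true,0,⟨1,
  [(18,0),(0,0)]⟩,⟨0,[(26,0),(1,0)]⟩⟩ ⟨false,1,⟨0,[(0,0),(29,0)]⟩,⟨1,[(1,0),(6,0),(6,0),(0,0),(11,
  0)]⟩⟩,.o ⟨false,0,⟨0,[(18,0)]⟩,⟨3,[(0,1),(0,1),(20,0),(6,2)]⟩⟩]⟩) (.R ⟨0,false,false,true,[0,0,1],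
  [1,-1],[0,1,0,-1],(⟨0,[(21,0)]⟩,⟨0,[(20,0)]⟩),(⟨0,[(23,0)]⟩,⟨0,[(24,0)]⟩),⟨0,[(10,0)]⟩,.k,.k,.k,
  .k,.k,.k,⟨true,0,⟨1,[(18,0),(0,0)]⟩,⟨0,[]⟩⟩,⟨false,1,⟨1,[(19,1),(2,0),(6,0)]⟩,⟨0,[(15,0)]⟩⟩,⟨true,
  0,⟨0,[(2,0),(15,0),(7,0),(1,0)]⟩,⟨0,[(1,0),(24,0),(1,0)]⟩⟩,⟨false,1,⟨2,[(2,0),(4,0),(9,1),(4,0),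
  (7,0)]⟩,⟨0,[(1,0),(13,0)]⟩⟩,⟨false,0,⟨0,[]⟩,⟨0,[]⟩⟩,⟨false,0,⟨0,[]⟩,⟨0,[]⟩⟩,[.e ⟨false,0,⟨0,[(26,
  0)]⟩,⟨0,[(4,0),(0,0)]⟩⟩ ⟨false,1,⟨1,[(19,1),(2,0),(3,1),(2,0)]⟩,⟨0,[(0,0),(1,0),(25,0)]⟩⟩,.o
  ⟨false,1,⟨3,[(7,1),(3,0),(0,0),(9,0)]⟩,⟨0,[(28,0)]⟩⟩,.a ⟨true,0,⟨1,[(8,0),(11,0),(0,0)]⟩,⟨0,[(1,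
  0),(0,0),(23,0),(1,0)]⟩⟩ ⟨true,0,⟨0,[(27,0)]⟩,⟨0,[(28,0)]⟩⟩ ⟨false,1,⟨1,[(2,0),(3,0),(12,0),(2,0),
  (3,0)]⟩,⟨0,[(0,0),(1,0),(25,0)]⟩⟩,.o ⟨false,0,⟨0,[(18,0)]⟩,⟨1,[(1,1),(0,1),(19,0),(3,1),(1,1),(0,
  0)]⟩⟩]⟩)))

theorem ok2 : chk K t2 r5 = true := by decide +kernel

noncomputable def t4 : Tre :=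
  (.N [0,1,1] 0 ⟨0,[(2,0)]⟩ ⟨0,[(0,0)]⟩ .k)

theorem ok4 : chk K t4 r4 = true := by decide +kernel

noncomputable def t6 : Tre :=
  (.Q [0,0,1,0,0,0,2,0,0,0,-2] (.p false [0,0,1] [0,1,-1] (⟨0,[(17,0)]⟩,⟨0,[(16,0)]⟩) .k 2 (⟨0,[(6,
  0)]⟩,⟨0,[(17,0),(1,0)]⟩) .k (.i 0 ⟨0,[(17,1)]⟩ ⟨0,[(5,0),(0,0)]⟩)) (.I [1,-1,0,0,0,0,0,1] (.R ⟨0,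
  false,false,false,[0,1,-1],[0,0,1],[],(⟨0,[(8,0)]⟩,⟨0,[(19,0),(1,0)]⟩),(⟨0,[(19,0)]⟩,⟨0,[(18,
  0)]⟩),⟨0,[(19,0)]⟩,.k,.k,.k,(.r (-1) ⟨0,[(1,0),(13,1),(10,0),(1,0)]⟩ ⟨3,[(0,5),(1,0),(1,0),(18,0),
  (0,3)]⟩),.k,.k,⟨false,1,⟨1,[(13,1),(1,1),(4,0),(7,0)]⟩,⟨3,[(0,1),(1,0),(1,0),(18,0)]⟩⟩,⟨true,0,⟨0,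
  [(1,0)]⟩,⟨0,[(0,1),(14,1)]⟩⟩,⟨true,0,⟨0,[(0,0),(23,0)]⟩,⟨0,[(15,0),(0,0),(9,0)]⟩⟩,⟨false,0,⟨0,[(0,
  1),(0,0),(22,0)]⟩,⟨0,[(15,1),(10,0),(1,0)]⟩⟩,⟨false,0,⟨0,[]⟩,⟨0,[]⟩⟩,⟨false,0,⟨0,[]⟩,⟨0,[]⟩⟩,[.o
  ⟨false,0,⟨5,[(0,2),(0,0),(0,0),(10,1),(0,1),(5,0)]⟩,⟨1,[(15,1),(4,0),(7,0)]⟩⟩,.a ⟨true,0,⟨1,[(0,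
  1),(5,0),(11,0),(0,0)]⟩,⟨0,[(15,0)]⟩⟩ ⟨false,1,⟨1,[(27,0),(0,0)]⟩,⟨0,[(30,0)]⟩⟩ ⟨true,0,⟨0,[(0,0),
  (0,0)]⟩,⟨0,[(0,0),(14,1)]⟩⟩,.e ⟨false,1,⟨1,[(9,0),(0,0),(17,0)]⟩,⟨0,[]⟩⟩ ⟨false,0,⟨0,[(0,0),(0,
  0)]⟩,⟨1,[(0,1),(14,3),(11,0),(0,0)]⟩⟩,.o ⟨false,0,⟨0,[(0,0),(14,0)]⟩,⟨3,[(6,1),(2,0),(0,0),(9,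
  2)]⟩⟩]⟩) (.Q [0,0,0,0,0,0,-1,0,0,0,1] (.p true [0,0,1] [] (⟨0,[(19,0)]⟩,⟨0,[(18,0)]⟩) .k 0 (⟨0,
  []⟩,⟨0,[]⟩) .k .k) (.S ⟨1,0,[0,1,0,0,0,0,0,-1],[1,0,-1],[0,0,0,0,0,0,0,-1],(⟨0,[(19,0)]⟩,⟨0,[(20,
  0)]⟩),⟨0,[(8,0)]⟩,.k,.k,⟨false,1,⟨1,[(10,0),(0,0),(17,0)]⟩,⟨0,[]⟩⟩,⟨true,0,⟨0,[(31,0)]⟩,⟨0,[]⟩⟩,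
  ⟨true,0,⟨0,[(27,0)]⟩,⟨0,[(26,0)]⟩⟩,⟨false,0,⟨0,[(27,0)]⟩,⟨0,[(26,0),(2,0)]⟩⟩,[.a ⟨true,0,⟨0,[(16,
  0)]⟩,⟨0,[(3,0),(10,0),(14,0)]⟩⟩ ⟨false,1,⟨1,[(1,1),(26,0),(0,0)]⟩,⟨1,[(3,1),(24,0),(0,0)]⟩⟩ ⟨true,
  0,⟨0,[(1,0)]⟩,⟨0,[(3,0),(25,0)]⟩⟩,.o ⟨false,1,⟨1,[(16,1),(4,0),(7,0)]⟩,⟨1,[(3,1),(10,1),(6,0),(7,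
  0)]⟩⟩,.a ⟨true,0,⟨0,[(0,0)]⟩,⟨1,[(7,0),(11,0),(0,0)]⟩⟩ ⟨false,1,⟨0,[(1,0),(27,0)]⟩,⟨1,[(3,1),(24,
  0),(0,0)]⟩⟩ ⟨true,0,⟨0,[(1,0)]⟩,⟨1,[(3,1),(24,0),(0,0)]⟩⟩,.a ⟨true,0,⟨0,[(18,0)]⟩,⟨0,[(14,0)]⟩⟩
  ⟨true,1,⟨1,[(1,1),(26,0),(0,0)]⟩,⟨0,[(3,0)]⟩⟩ ⟨false,1,⟨1,[(1,1),(26,0),(0,0)]⟩,⟨0,[(3,0),(25,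
  0)]⟩⟩]⟩) (.Q [0,-1,0,1,0,0,1,1,0,0,-1] (.p false [0,0,1] [] (⟨0,[(20,0)]⟩,⟨0,[(19,0)]⟩) .k 0 (⟨0,
  []⟩,⟨0,[]⟩) .k .k) (.R ⟨2,true,false,false,[0,1],[0,1,1],[1,0,1],(⟨0,[]⟩,⟨0,[]⟩),(⟨0,[(21,0),(2,
  0)]⟩,⟨0,[(9,0)]⟩),⟨0,[]⟩,.k,.k,.k,.k,.k,.k,⟨false,1,⟨0,[(2,0),(23,0),(3,0)]⟩,⟨1,[(0,0),(3,0),(14,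
  0),(8,0),(0,0)]⟩⟩,⟨true,0,⟨0,[(1,0)]⟩,⟨0,[(19,0)]⟩⟩,⟨false,1,⟨0,[(27,0),(2,0)]⟩,⟨0,[(28,0)]⟩⟩,
  ⟨true,0,⟨3,[(0,1),(3,0),(2,0),(7,0),(0,0)]⟩,⟨0,[(17,0)]⟩⟩,⟨true,0,⟨0,[]⟩,⟨0,[(32,0)]⟩⟩,⟨false,0,
  ⟨0,[(0,0)]⟩,⟨0,[(17,0),(9,0),(2,0)]⟩⟩,[]⟩) (.I [0,0,1,1,0,0,0,-1] (.Q [0,-1,0,-1,1,0,0,0,0,-1]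
  (.pp true [-1,1]) (.R ⟨1,false,false,false,[1,0,-1],[1,-1],[0,0,0,0,0,0,0,-1],(⟨0,[(22,0)]⟩,⟨0,
  [(23,0)]⟩),(⟨0,[(25,0)]⟩,⟨0,[(26,0)]⟩),⟨0,[(11,0)]⟩,.k,.k,.k,.k,.k,.k,⟨true,0,⟨0,[(1,0)]⟩,⟨0,[(6,
  0),(21,0),(3,0)]⟩⟩,⟨false,0,⟨0,[(3,0)]⟩,⟨0,[(21,0),(9,0)]⟩⟩,⟨false,1,⟨1,[(13,0),(0,0),(17,0)]⟩,⟨0,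
  []⟩⟩,⟨true,0,⟨0,[(0,0),(5,0),(10,0)]⟩,⟨0,[(19,0),(10,0)]⟩⟩,⟨true,0,⟨0,[(30,0)]⟩,⟨0,[(29,0)]⟩⟩,
  ⟨true,0,⟨1,[(6,1),(10,1),(6,0),(7,0)]⟩,⟨0,[(19,0)]⟩⟩,[.o ⟨false,1,⟨3,[(9,1),(3,0),(0,0),(9,0)]⟩,
  ⟨0,[(30,0)]⟩⟩,.o ⟨false,1,⟨0,[(0,0)]⟩,⟨3,[(1,0),(5,0),(19,1),(2,1)]⟩⟩,.o ⟨false,1,⟨1,[(21,1),(2,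
  0),(6,0)]⟩,⟨0,[(3,0)]⟩⟩,.a ⟨true,0,⟨0,[(21,0)]⟩,⟨0,[(17,0)]⟩⟩ ⟨true,1,⟨1,[(4,1),(26,0),(0,0)]⟩,⟨0,
  [(6,0)]⟩⟩ ⟨false,1,⟨0,[(0,0),(16,0)]⟩,⟨0,[(21,0),(8,0)]⟩⟩]⟩) (.Q [0,0,-1,0,1,0,-1,0,0,-1,1] (.p
  true [0,0,1] [1] (⟨0,[(23,0)]⟩,⟨0,[(22,0)]⟩) .k 1 (⟨0,[]⟩,⟨0,[]⟩) .k .k) (.R ⟨0,false,false,false,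
  [0,0,1],[0,1],[1,1],(⟨0,[(24,0)]⟩,⟨0,[(23,0)]⟩),(⟨0,[(27,0)]⟩,⟨0,[(26,0)]⟩),⟨0,[(13,0)]⟩,.k,.k,.k,
  .k,.k,.k,⟨true,0,⟨0,[(29,0)]⟩,⟨0,[(2,0),(4,0),(25,0)]⟩⟩,⟨false,1,⟨0,[(0,0),(0,0),(27,0),(3,0)]⟩,
  ⟨0,[(21,0)]⟩⟩,⟨true,0,⟨0,[(5,0)]⟩,⟨1,[(7,1),(24,0),(0,0)]⟩⟩,⟨false,1,⟨0,[(20,0),(10,0),(1,0)]⟩,⟨0,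
  [(4,0),(2,0),(21,0),(3,0)]⟩⟩,⟨false,0,⟨0,[]⟩,⟨0,[]⟩⟩,⟨false,0,⟨0,[]⟩,⟨0,[]⟩⟩,[.o ⟨false,0,⟨0,[(31,
  0)]⟩,⟨3,[(10,1),(3,0),(0,0),(9,0)]⟩⟩,.a ⟨true,0,⟨0,[(1,0),(31,0)]⟩,⟨0,[(30,0)]⟩⟩ ⟨true,0,⟨0,[]⟩,
  ⟨1,[(21,0),(0,0)]⟩⟩ ⟨false,1,⟨0,[(0,0),(0,0),(31,0)]⟩,⟨1,[(6,0),(22,0),(0,0)]⟩⟩,.o ⟨false,0,⟨0,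
  [(4,0)]⟩,⟨2,[(0,0),(8,0),(10,0),(1,0),(2,0)]⟩⟩,.o ⟨false,0,⟨0,[(21,0)]⟩,⟨0,[(0,0)]⟩⟩]⟩) (.R ⟨0,
  false,false,false,[0,0,1],[1,-1,1],[],(⟨0,[(24,0)]⟩,⟨0,[(23,0)]⟩),(⟨0,[(24,0),(1,0)]⟩,⟨0,[(13,
  0)]⟩),⟨0,[(13,0)]⟩,.k,.k,.k,.k,.k,.k,⟨true,0,⟨0,[(2,0)]⟩,⟨0,[(7,0),(21,0),(3,0)]⟩⟩,⟨false,1,⟨1,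
  [(14,0),(0,0),(9,0)]⟩,⟨0,[(1,0),(27,0),(3,0)]⟩⟩,⟨false,1,⟨0,[(5,0),(27,0)]⟩,⟨1,[(7,1),(24,0),(0,
  0)]⟩⟩,⟨true,1,⟨3,[(10,1),(3,0),(0,0),(9,0)]⟩,⟨0,[(1,0)]⟩⟩,⟨false,0,⟨0,[]⟩,⟨0,[]⟩⟩,⟨false,0,⟨0,[]⟩,
  ⟨0,[]⟩⟩,[.e ⟨false,1,⟨1,[(14,0),(0,0),(16,0)]⟩,⟨0,[]⟩⟩ ⟨false,1,⟨1,[(7,1),(17,0),(3,1),(2,0),(0,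
  1)]⟩,⟨1,[(1,0),(0,0),(15,0),(1,0),(12,0)]⟩⟩,.o ⟨false,1,⟨1,[(4,1),(2,1),(17,0),(3,1),(3,2)]⟩,⟨0,
  [(20,0),(10,0)]⟩⟩,.o ⟨false,0,⟨0,[(4,0)]⟩,⟨1,[(22,1),(2,0),(6,0)]⟩⟩,.a ⟨true,(-1),⟨0,[(0,0)]⟩,⟨0,
  [(22,0),(9,0)]⟩⟩ ⟨false,1,⟨1,[(32,0),(0,0)]⟩,⟨1,[(21,0),(0,0)]⟩⟩ ⟨true,1,⟨1,[(7,1),(17,0),(3,1),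
  (2,0),(0,1)]⟩,⟨1,[(0,0),(0,0),(0,0),(17,0)]⟩⟩]⟩))) (.I [1,1,1,1,0,0,0,-2] (.Q [0,0,0,1,0,0,-1,-1,
  0,1,1] (.p true [1,-1,1] [] (⟨0,[(23,0),(1,0)]⟩,⟨0,[(12,0)]⟩) .k 0 (⟨0,[]⟩,⟨0,[]⟩) .k .k) (.R ⟨0,
  false,false,false,[0,0,1],[0,1,-1],[1],(⟨0,[(24,0)]⟩,⟨0,[(23,0)]⟩),(⟨0,[(13,0)]⟩,⟨0,[(24,0),(1,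
  0)]⟩),⟨0,[(13,0)]⟩,.k,.k,.k,(.r 0 ⟨0,[(2,1),(0,0),(0,0),(2,0),(23,1),(1,0)]⟩ ⟨23,[(0,1),(0,27),(7,
  9),(0,2),(0,0),(20,1),(0,8)]⟩),.k,.k,⟨true,0,⟨0,[(2,0)]⟩,⟨0,[(1,0),(5,0),(25,0)]⟩⟩,⟨false,1,⟨0,
  [(0,1),(1,1),(22,0)]⟩,⟨0,[(6,0)]⟩⟩,⟨false,1,⟨0,[(5,0),(27,0)]⟩,⟨0,[(2,0),(0,0),(0,0),(2,0),(23,1),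
  (1,0)]⟩⟩,⟨true,1,⟨1,[(0,1),(19,1),(4,0),(7,0)]⟩,⟨0,[(2,0),(1,1),(2,0)]⟩⟩,⟨false,0,⟨0,[]⟩,⟨0,[]⟩⟩,
  ⟨false,0,⟨0,[]⟩,⟨0,[]⟩⟩,[.a ⟨true,0,⟨0,[(0,0)]⟩,⟨5,[(2,3),(3,1),(0,1),(2,0),(0,0),(21,0)]⟩⟩ ⟨true,
  0,⟨0,[]⟩,⟨1,[(21,0),(0,0)]⟩⟩ ⟨false,1,⟨0,[(0,1),(1,0),(22,0)]⟩,⟨0,[(2,0),(3,0)]⟩⟩,.o ⟨false,1,⟨1,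
  [(0,1),(24,0),(7,0)]⟩,⟨1,[(2,0),(3,0),(0,0),(17,0),(3,0)]⟩⟩,.o ⟨false,0,⟨0,[(4,0)]⟩,⟨1,[(22,1),(2,
  0),(6,0)]⟩⟩,.o ⟨false,0,⟨0,[(21,0)]⟩,⟨0,[(0,0),(1,0),(22,0)]⟩⟩]⟩) (.R ⟨1,false,false,true,[1,0,
  -1],[1,-1,1],[0,0,0,0,0,0,0,-1],(⟨0,[(23,0)]⟩,⟨0,[(24,0)]⟩),(⟨0,[(24,0),(1,0)]⟩,⟨0,[(13,0)]⟩),⟨0,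
  [(12,0)]⟩,.k,.k,.k,(.r (-1) ⟨21,[(1,25),(1,1),(5,9),(0,0),(0,0),(20,1),(0,8)]⟩ ⟨1,[(0,0),(1,2),(0,
  1),(3,1),(10,0),(12,3),(1,1)]⟩),.k,.k,⟨true,1,⟨0,[(1,0),(31,0)]⟩,⟨0,[(2,0),(4,0)]⟩⟩,⟨false,0,⟨0,
  [(4,1)]⟩,⟨1,[(2,1),(17,1),(1,1),(8,1),(0,0),(0,0)]⟩⟩,⟨false,1,⟨21,[(1,3),(1,1),(5,9),(0,0),(0,0),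
  (20,1),(0,8)]⟩,⟨0,[]⟩⟩,⟨true,(-1),⟨0,[(0,0),(6,0),(10,0)]⟩,⟨0,[(20,1),(10,0),(1,0)]⟩⟩,⟨true,0,⟨0,
  [(31,0)]⟩,⟨0,[(30,0)]⟩⟩,⟨true,(-1),⟨0,[(0,0),(6,0),(10,0),(12,0)]⟩,⟨0,[(20,1),(12,0)]⟩⟩,[.o
  ⟨false,0,⟨25,[(0,17),(5,2),(0,5),(2,3),(8,1),(5,1),(2,8)]⟩,⟨0,[(20,0),(10,0),(1,0)]⟩⟩,.o ⟨false,0,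
  ⟨0,[(0,0)]⟩,⟨7,[(1,1),(6,3),(11,7),(10,1),(0,2),(0,4)]⟩⟩,.o ⟨false,1,⟨1,[(22,1),(2,0),(6,0)]⟩,⟨0,
  [(4,0)]⟩⟩,.a ⟨true,0,⟨0,[(22,0)]⟩,⟨0,[(18,0)]⟩⟩ ⟨true,1,⟨1,[(5,1),(26,0),(0,0)]⟩,⟨0,[(7,0)]⟩⟩
  ⟨false,0,⟨0,[(0,0),(17,0)]⟩,⟨0,[(20,0),(1,0),(8,0),(1,0)]⟩⟩]⟩)) (.Q [0,0,0,0,-1,0,2,2,0,1,-2] (.p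
  false [0,0,1] [1,0,-1] (⟨0,[(23,0)]⟩,⟨0,[(22,0)]⟩) .k 2 (⟨0,[(22,0)]⟩,⟨0,[(23,0)]⟩) .k (.r 0 ⟨4,
  [(0,2),(6,3),(19,0),(1,0)]⟩ ⟨0,[(4,1),(27,0)]⟩)) (.R ⟨0,false,false,true,[0,0,1],[1,0,-1],[0,0,1],
  (⟨0,[(24,0)]⟩,⟨0,[(23,0)]⟩),(⟨0,[(23,0)]⟩,⟨0,[(24,0)]⟩),⟨0,[(13,0)]⟩,.k,.k,.k,.k,.k,.k,⟨true,0,⟨0,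
  [(7,0),(25,0)]⟩,⟨0,[(5,0)]⟩⟩,⟨false,1,⟨1,[(1,1),(18,3),(4,0),(5,1),(1,0)]⟩,⟨0,[(11,0)]⟩⟩,⟨false,1,
  ⟨0,[(20,0),(0,0),(11,0)]⟩,⟨1,[(1,0),(27,0),(1,1)]⟩⟩,⟨true,1,⟨1,[(20,3),(4,0),(7,0)]⟩,⟨0,[(0,0)]⟩⟩,
  ⟨false,0,⟨0,[]⟩,⟨0,[]⟩⟩,⟨false,0,⟨0,[]⟩,⟨0,[]⟩⟩,[.a ⟨true,0,⟨0,[(20,0)]⟩,⟨1,[(0,0),(22,0),(0,0),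
  (8,0)]⟩⟩ ⟨true,0,⟨1,[(21,0),(0,0)]⟩,⟨0,[]⟩⟩ ⟨false,1,⟨3,[(1,1),(18,7),(4,1),(5,1),(0,0),(0,0)]⟩,
  ⟨1,[(0,0),(10,0),(21,0)]⟩⟩,.o ⟨false,1,⟨1,[(20,1),(4,0),(7,0)]⟩,⟨13,[(0,4),(8,1),(1,0),(7,1),(5,
  2)]⟩⟩,.o ⟨false,0,⟨0,[(4,0)]⟩,⟨1,[(22,1),(2,0),(6,0)]⟩⟩,.o ⟨false,0,⟨0,[(21,0)]⟩,⟨3,[(1,1),(18,3),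
  (4,1),(5,1),(0,0),(0,0)]⟩⟩]⟩) (.R ⟨1,false,false,true,[1,0,-1],[0,1],[0,0,0,0,0,0,0,-1],(⟨0,[(23,
  0)]⟩,⟨0,[(24,0)]⟩),(⟨0,[(27,0)]⟩,⟨0,[(26,0)]⟩),⟨0,[(12,0)]⟩,.k,.k,.k,.k,(.r (-1) ⟨0,[(0,0),(0,0),
  (1,0),(0,1),(13,0)]⟩ ⟨1,[(8,1),(12,0),(0,0),(8,1)]⟩),.k,⟨false,2,⟨1,[(0,0),(9,0),(7,1),(13,0),(0,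
  0)]⟩,⟨0,[(7,0),(23,0)]⟩⟩,⟨true,0,⟨0,[(18,0)]⟩,⟨0,[(0,0),(3,0),(2,1),(25,0)]⟩⟩,⟨false,1,⟨3,[(0,0),
  (8,1),(1,0),(21,0)]⟩,⟨0,[]⟩⟩,⟨true,(-1),⟨0,[(7,0),(10,0),(12,0)]⟩,⟨1,[(0,0),(9,0)]⟩⟩,⟨true,0,⟨0,
  [(31,0)]⟩,⟨0,[(30,0)]⟩⟩,⟨true,(-1),⟨0,[(7,0),(10,0),(12,1)]⟩,⟨0,[(0,0),(0,0),(1,0),(2,0)]⟩⟩,[.o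
  ⟨false,0,⟨2,[(5,0),(2,0),(19,0),(2,1)]⟩,⟨0,[(0,0),(0,0),(4,0)]⟩⟩,.o ⟨false,0,⟨0,[(31,0)]⟩,⟨9,[(0,
  0),(5,0),(2,1),(0,4),(14,1),(2,0)]⟩⟩,.o ⟨false,1,⟨9,[(0,4),(0,1),(6,3),(0,1),(0,0),(14,1),(2,1)]⟩,
  ⟨0,[(4,0)]⟩⟩,.a ⟨true,0,⟨0,[(22,0)]⟩,⟨0,[(18,0)]⟩⟩ ⟨true,1,⟨1,[(0,0),(10,0),(20,0)]⟩,⟨0,[(7,0)]⟩⟩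
  ⟨false,0,⟨0,[(18,0),(12,0)]⟩,⟨1,[(0,0),(6,1),(2,0),(22,1)]⟩⟩]⟩))))))) (.I [1,-1,0,0,0,0,0,1] (.I
  [0,-1,0,0,1,0,0,-1] (.S ⟨1,0,[0,1,0,0,0,0,0,-1],[1,0,-1],[0,0,0,0,0,0,0,-1],(⟨0,[(19,0)]⟩,⟨0,[(20,
  0)]⟩),⟨0,[(8,0)]⟩,.k,.k,⟨false,1,⟨1,[(0,0),(4,0)]⟩,⟨0,[]⟩⟩,⟨true,0,⟨0,[(31,0)]⟩,⟨0,[]⟩⟩,⟨true,0,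
  ⟨0,[(27,0)]⟩,⟨0,[(26,0)]⟩⟩,⟨false,0,⟨0,[(27,0)]⟩,⟨0,[(26,0),(2,0)]⟩⟩,[.e ⟨false,1,⟨3,[(0,1),(13,
  1),(1,1),(4,0),(6,0)]⟩,⟨5,[(1,1),(0,0),(0,0),(1,0),(9,1)]⟩⟩ ⟨false,1,⟨0,[(0,0),(23,0)]⟩,⟨0,[(1,
  0)]⟩⟩,.o ⟨false,1,⟨5,[(0,2),(1,0),(13,2),(1,0),(2,2)]⟩,⟨3,[(1,1),(1,0),(3,0),(6,0),(0,0),(5,0)]⟩⟩,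
  .e ⟨false,1,⟨0,[(0,0)]⟩,⟨5,[(1,1),(0,0),(0,0),(1,0),(9,1)]⟩⟩ ⟨false,1,⟨0,[(0,0),(30,0)]⟩,⟨0,[(1,
  0)]⟩⟩,.a ⟨true,0,⟨0,[(18,0)]⟩,⟨0,[(14,0)]⟩⟩ ⟨true,1,⟨3,[(0,1),(13,1),(1,1),(4,0),(6,0)]⟩,⟨0,[(3,
  0)]⟩⟩ ⟨false,1,⟨3,[(0,1),(13,1),(1,1),(4,0),(6,0)]⟩,⟨1,[(1,1),(15,0),(0,0)]⟩⟩]⟩) (.Q [0,0,0,-1,0,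
  0,0,1,0,-1] (.pp true [-1,1]) (.I [0,0,1,1,1,0,0,-2] (.R ⟨0,false,false,false,[0,0,1],[0,1,-1],[0,
  1],(⟨0,[(22,0)]⟩,⟨0,[(21,0)]⟩),(⟨0,[(11,0)]⟩,⟨0,[(22,0),(1,0)]⟩),⟨0,[(11,0)]⟩,.k,.k,.k,(.r 0 ⟨1,
  [(2,0),(0,1),(3,0),(19,1)]⟩ ⟨0,[(0,0)]⟩),.k,.k,⟨false,0,⟨1,[(2,0),(0,0),(23,1),(2,0)]⟩,⟨0,[(0,0),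
  (2,0)]⟩⟩,⟨true,0,⟨0,[(4,0)]⟩,⟨0,[(19,1)]⟩⟩,⟨false,1,⟨19,[(0,9),(3,0),(2,2),(0,4),(7,4),(1,2),(11,
  1)]⟩,⟨0,[(3,0)]⟩⟩,⟨true,1,⟨0,[(0,0),(3,0)]⟩,⟨0,[(1,0),(0,0),(6,0)]⟩⟩,⟨false,0,⟨0,[]⟩,⟨0,[]⟩⟩,
  ⟨false,0,⟨0,[]⟩,⟨0,[]⟩⟩,[.e ⟨false,0,⟨5,[(2,1),(1,0),(11,3),(1,1),(4,1),(2,0)]⟩,⟨41,[(0,7),(3,1),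
  (2,15),(0,3),(7,3),(13,0),(0,12)]⟩⟩ ⟨false,1,⟨4,[(0,2),(3,4),(1,0),(22,0),(0,1)]⟩,⟨0,[(1,0),(7,
  0)]⟩⟩,.o ⟨false,1,⟨1,[(0,0),(3,0),(24,0),(1,0)]⟩,⟨1,[(1,0),(0,0),(6,0),(13,0),(4,0)]⟩⟩,.a ⟨true,0,
  ⟨1,[(9,0),(11,0),(0,0)]⟩,⟨2,[(4,0),(15,0)]⟩⟩ ⟨true,0,⟨8,[(0,0),(4,0),(0,0),(19,2),(1,1)]⟩,⟨0,[]⟩⟩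
  ⟨false,1,⟨5,[(0,2),(3,4),(15,1),(8,2),(1,2)]⟩,⟨0,[(1,0),(7,0)]⟩⟩,.o ⟨false,0,⟨0,[(19,0)]⟩,⟨51,[(0,
  3),(3,25),(2,7),(0,1),(14,24),(2,3),(3,12)]⟩⟩]⟩) (.Q [0,-1,0,1,0,0,0,0,0,1] (.pp false [-1,1])
  (.R ⟨0,false,false,true,[0,0,1],[1,-1,1],[],(⟨0,[(23,0)]⟩,⟨0,[(22,0)]⟩),(⟨0,[(23,0),(1,0)]⟩,⟨0,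
  [(12,0)]⟩),⟨0,[(12,0)]⟩,.k,.k,.k,.k,.k,.k,⟨true,1,⟨1,[(0,1),(18,1),(0,1),(3,0),(7,0)]⟩,⟨0,[(1,0),
  (17,0),(0,0)]⟩⟩,⟨false,1,⟨1,[(13,0),(0,0),(9,0)]⟩,⟨2,[(0,0),(4,0),(11,1),(11,0)]⟩⟩,⟨true,1,⟨3,
  [(10,1),(2,0),(0,0),(4,3),(4,0),(7,1)]⟩,⟨0,[(3,0)]⟩⟩,⟨false,1,⟨3,[(9,1),(3,0),(0,0),(9,0)]⟩,⟨0,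
  [(0,0)]⟩⟩,⟨false,0,⟨0,[]⟩,⟨0,[]⟩⟩,⟨false,0,⟨0,[]⟩,⟨0,[]⟩⟩,[.o ⟨false,0,⟨1,[(2,0),(0,0),(6,0),(13,
  0),(4,0)]⟩,⟨1,[(0,1),(18,1),(4,0),(7,0)]⟩⟩,.a ⟨true,0,⟨15,[(1,5),(4,0),(1,1),(0,4),(0,4),(7,0),(1,
  4)]⟩,⟨0,[(0,0),(18,0)]⟩⟩ ⟨false,1,⟨1,[(31,0),(0,0)]⟩,⟨0,[(34,0)]⟩⟩ ⟨true,0,⟨0,[(2,0)]⟩,⟨0,[(0,0),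
  (18,0),(0,0)]⟩⟩,.e ⟨false,1,⟨1,[(13,0),(0,0),(17,0)]⟩,⟨0,[]⟩⟩ ⟨false,0,⟨0,[(2,0)]⟩,⟨3,[(0,3),(9,
  1),(2,0),(0,0),(4,3),(4,0),(7,1)]⟩⟩,.o ⟨false,0,⟨0,[(20,0)]⟩,⟨9,[(5,3),(2,1),(10,1),(4,4),(6,
  2)]⟩⟩]⟩) (.I [0,0,-1,0,0,1,-2] (.K ⟨0,[0,1,-1],0,0,(⟨0,[(13,0)]⟩,⟨0,[(24,0),(1,0)]⟩),.k,.k,(.r
  (-1) ⟨7,[(8,5),(2,1),(8,13),(0,9),(3,0),(5,9),(1,6)]⟩ ⟨0,[(1,0),(0,0),(15,0),(1,0),(12,0)]⟩),(.x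
  0 ⟨0,[(0,0)]⟩ ⟨3,[(11,1),(2,0),(0,0),(5,3),(2,7),(0,2),(0,3)]⟩),.k,[⟨0,[(6,0)]⟩,⟨1,[(21,2),(0,
  0)]⟩,⟨20,[(2,2),(4,2),(1,0),(0,4),(0,4),(7,10),(10,7)]⟩,⟨0,[(20,0),(10,0)]⟩]⟩) (.I [0,0,1,0,0,-1,
  2] (.K ⟨0,[0,1,-1],0,0,(⟨0,[(14,0)]⟩,⟨0,[(25,0),(1,0)]⟩),.k,.k,(.r (-1) ⟨7,[(9,5),(2,1),(8,13),(0,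
  9),(3,0),(5,9),(1,6)]⟩ ⟨0,[(2,0),(0,0),(15,0),(1,0),(12,0)]⟩),(.x (-1) ⟨9,[(7,7),(2,3),(3,9),(6,
  3),(2,9),(1,4),(6,0)]⟩ ⟨0,[(0,0)]⟩),.k,[⟨0,[(7,0)]⟩,⟨1,[(22,2),(0,0)]⟩,⟨20,[(3,2),(4,2),(1,0),(0,
  4),(0,4),(7,10),(10,7)]⟩,⟨0,[(21,0),(10,0)]⟩]⟩) (.Q [0,0,1,0,0,0,-2,0,0,-1,2] (.p true [0,0,1] [1,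
  0,-1] (⟨0,[(25,0)]⟩,⟨0,[(24,0)]⟩) .k 2 (⟨0,[(24,0)]⟩,⟨0,[(25,0)]⟩) .k (.r 1 ⟨1,[(3,0),(2,0),(1,0),
  (23,0)]⟩ ⟨1,[(12,1),(2,0),(0,0),(4,3),(4,0),(7,1)]⟩)) (.R ⟨0,false,false,false,[0,0,1],[1,-1,-1],
  [],(⟨0,[(26,0)]⟩,⟨0,[(25,0)]⟩),(⟨0,[(14,0)]⟩,⟨0,[(26,0),(2,0)]⟩),⟨0,[(15,0)]⟩,.k,.k,.k,(.r 1 ⟨0,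
  [(7,0),(1,0),(23,0)]⟩ ⟨1,[(12,0),(0,0),(6,1),(1,3),(4,0),(7,1)]⟩),.k,.k,⟨false,0,⟨4,[(4,0),(5,2),
  (22,2),(0,0)]⟩,⟨0,[(3,0),(16,0),(1,0),(12,0)]⟩⟩,⟨true,0,⟨0,[(0,0)]⟩,⟨0,[(13,0)]⟩⟩,⟨true,1,⟨3,[(13,
  1),(2,0),(0,0),(4,3),(4,0),(7,1)]⟩,⟨0,[(6,0)]⟩⟩,⟨false,2,⟨0,[(3,0),(18,1),(12,1)]⟩,⟨0,[(6,0),(0,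
  0),(5,0),(19,0)]⟩⟩,⟨false,0,⟨0,[]⟩,⟨0,[]⟩⟩,⟨false,0,⟨0,[]⟩,⟨0,[]⟩⟩,[.o ⟨false,1,⟨0,[(3,0),(18,0),
  (12,0)]⟩,⟨4,[(4,0),(2,0),(2,0),(2,1),(7,0),(5,0),(5,4)]⟩⟩,.e ⟨false,1,⟨1,[(34,0),(0,0)]⟩,⟨0,[(37,
  0)]⟩⟩ ⟨false,2,⟨3,[(8,1),(3,1),(9,3),(4,0),(6,0),(0,3)]⟩,⟨0,[(6,0),(6,0),(19,0)]⟩⟩,.a ⟨true,0,⟨1,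
  [(13,0),(11,0),(0,0)]⟩,⟨2,[(8,0),(15,0)]⟩⟩ ⟨false,1,⟨1,[(16,0),(0,0),(17,0)]⟩,⟨0,[]⟩⟩ ⟨true,1,⟨3,
  [(0,0),(2,1),(4,0),(3,0),(9,3),(12,2)]⟩,⟨0,[(6,0),(6,0),(19,0)]⟩⟩,.o ⟨false,0,⟨0,[(23,0)]⟩,⟨3,[(0,
  1),(26,0),(6,2)]⟩⟩]⟩) (.Q [0,0,0,0,0,-2,0,0,0,1] (.pp false [-1,1]) (.Q [0,-1,0,1,0,0,1,1,0,0,-1]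
  (.p false [0,0,1] [] (⟨0,[(27,0)]⟩,⟨0,[(26,0)]⟩) .k 0 (⟨0,[]⟩,⟨0,[]⟩) .k .k) (.R ⟨1,false,false,
  false,[1,-1],[1,-1,1],[1,1],(⟨0,[(30,0)]⟩,⟨0,[(31,0)]⟩),(⟨0,[(28,0),(1,0)]⟩,⟨0,[(17,0)]⟩),⟨0,[(1,
  0)]⟩,.k,.k,(.r (-1) ⟨0,[(2,0),(7,0),(3,0)]⟩ ⟨0,[(25,0),(0,0),(8,1)]⟩),.k,.k,.k,⟨true,0,⟨0,[(24,0),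
  (0,0),(9,0)]⟩,⟨0,[(6,0),(17,0),(0,0),(11,0)]⟩⟩,⟨false,1,⟨3,[(15,1),(2,0),(0,0),(9,0),(6,1)]⟩,⟨2,
  [(10,0),(15,0)]⟩⟩,⟨false,0,⟨1,[(25,0),(0,0),(8,1)]⟩,⟨1,[(2,0),(7,0),(3,0),(22,0)]⟩⟩,⟨true,0,⟨16,
  [(0,3),(5,0),(0,3),(4,0),(0,0),(1,3),(7,4)]⟩,⟨0,[(24,0)]⟩⟩,⟨false,0,⟨1,[(25,0),(0,0),(8,3)]⟩,⟨2,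
  [(2,1),(2,0),(0,2),(7,0),(9,5),(0,1),(11,4)]⟩⟩,⟨false,0,⟨0,[(0,0)]⟩,⟨0,[(24,0),(9,0),(2,0)]⟩⟩,[.e
  ⟨false,0,⟨9,[(2,3),(5,1),(1,2),(13,1),(4,1),(2,2)]⟩,⟨1,[(18,0),(0,0),(17,0)]⟩⟩ ⟨false,0,⟨3,[(2,3),
  (2,1),(0,1),(3,1),(18,0),(7,0)]⟩,⟨7,[(12,5),(2,1),(8,13),(0,1),(3,0),(5,1),(1,6)]⟩⟩,.o ⟨false,1,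
  ⟨0,[(0,0),(13,0)]⟩,⟨0,[(24,0),(10,0)]⟩⟩,.a ⟨true,0,⟨1,[(25,0),(0,0)]⟩,⟨2,[(10,0),(11,1),(4,0),(0,
  0)]⟩⟩ ⟨false,0,⟨0,[]⟩,⟨1,[(18,0),(0,0),(17,0)]⟩⟩ ⟨true,0,⟨87,[(2,41),(3,39),(6,3),(0,23),(8,3),(5,
  8),(6,2)]⟩,⟨1,[(24,1),(0,0),(0,0),(8,1)]⟩⟩,.e ⟨true,0,⟨9,[(2,3),(5,1),(1,2),(13,1),(4,1),(2,2)]⟩,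
  ⟨1,[(25,0),(0,0)]⟩⟩ ⟨true,0,⟨3,[(2,3),(2,1),(0,1),(3,1),(18,0),(7,0)]⟩,⟨0,[(24,0),(0,0),(0,0),(8,
  0)]⟩⟩]⟩) (.Q [0,1,-1,-1,0,0,-2,-1,0,0,2] (.p true [0,0,1] [0,1,-1] (⟨0,[(28,0)]⟩,⟨0,[(27,0)]⟩) .k
  2 (⟨0,[(17,0)]⟩,⟨0,[(28,0),(1,0)]⟩) .k (.r 1 ⟨1,[(6,0),(2,0),(1,0),(23,0)]⟩ ⟨1,[(15,1),(2,0),(0,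
  0),(4,3),(4,0),(7,1)]⟩)) (.R ⟨0,false,false,false,[0,1,-1],[0,1,1],[1,0,1,1,0,0,0,1],(⟨0,[(18,
  0)]⟩,⟨0,[(29,0),(1,0)]⟩),(⟨0,[(29,0),(2,0)]⟩,⟨0,[(17,0)]⟩),⟨0,[(29,0)]⟩,.k,.k,.k,.k,.k,.k,⟨true,0,
  ⟨0,[]⟩,⟨1,[(26,0),(0,0)]⟩⟩,⟨false,1,⟨1,[(16,1),(13,0),(6,0)]⟩,⟨2,[(11,1),(15,1)]⟩⟩,⟨true,(-1),⟨0,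
  [(9,0),(0,0)]⟩,⟨1,[(16,1),(8,3),(4,0),(7,0)]⟩⟩,⟨false,0,⟨2,[(3,1),(3,0),(2,2),(2,0),(12,1),(3,
  0)]⟩,⟨0,[(25,1),(12,0)]⟩⟩,⟨false,0,⟨0,[]⟩,⟨0,[]⟩⟩,⟨false,0,⟨0,[]⟩,⟨0,[]⟩⟩,[.o ⟨false,0,⟨3,[(3,1),
  (5,0),(0,0),(2,1),(16,0),(5,1)]⟩,⟨1,[(1,1),(28,0),(7,0)]⟩⟩,.e ⟨false,0,⟨0,[(10,0),(25,0)]⟩,⟨1,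
  [(15,0),(0,0),(8,1),(11,0)]⟩⟩ ⟨false,1,⟨1,[(3,1),(9,1),(16,0),(7,0)]⟩,⟨0,[(0,0)]⟩⟩,.a ⟨true,0,⟨2,
  [(11,1),(11,0),(4,1),(0,1)]⟩,⟨0,[(26,0)]⟩⟩ ⟨false,0,⟨1,[(10,1),(15,0),(0,0),(8,1)]⟩,⟨5,[(0,1),(2,
  3),(11,1),(9,3),(4,0),(7,2)]⟩⟩ ⟨true,0,⟨3,[(3,1),(5,0),(0,0),(2,1),(12,3),(3,0),(5,1)]⟩,⟨0,[(0,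
  0)]⟩⟩,.o ⟨false,0,⟨2,[(11,0),(15,0)]⟩,⟨3,[(16,1),(2,0),(0,0),(9,2)]⟩⟩]⟩) (.R ⟨0,false,false,false,
  [0,1,-1],[0,1,1],[1,0,1,1,0,0,0,1],(⟨0,[(18,0)]⟩,⟨0,[(29,0),(1,0)]⟩),(⟨0,[(29,0),(2,0)]⟩,⟨0,[(17,
  0)]⟩),⟨0,[(29,0)]⟩,.k,.k,.k,.k,.k,.k,⟨true,0,⟨0,[]⟩,⟨1,[(26,0),(0,0)]⟩⟩,⟨false,1,⟨1,[(16,1),(13,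
  0),(6,0)]⟩,⟨2,[(11,1),(15,1)]⟩⟩,⟨true,(-1),⟨0,[(9,0),(0,0)]⟩,⟨1,[(16,1),(8,3),(4,0),(7,0)]⟩⟩,
  ⟨false,0,⟨69,[(0,56),(2,11),(3,32),(6,14),(0,11),(8,1),(12,5)]⟩,⟨0,[(25,1),(12,0)]⟩⟩,⟨false,0,⟨0,
  []⟩,⟨0,[]⟩⟩,⟨false,0,⟨0,[]⟩,⟨0,[]⟩⟩,[.o ⟨false,0,⟨19,[(0,9),(6,2),(5,3),(19,4),(2,8),(0,2)]⟩,⟨1,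
  [(1,1),(28,0),(7,0)]⟩⟩,.a ⟨true,0,⟨2,[(0,2),(10,1),(11,0),(4,1),(0,1)]⟩,⟨0,[(1,0)]⟩⟩ ⟨false,0,⟨0,
  [(0,0),(10,0)]⟩,⟨1,[(15,0),(0,0),(8,1),(11,0)]⟩⟩ ⟨true,0,⟨0,[(0,0)]⟩,⟨2,[(1,2),(9,0),(15,0)]⟩⟩,.e
  ⟨false,0,⟨2,[(0,2),(10,1),(15,1)]⟩,⟨3,[(1,3),(1,1),(26,0),(6,0),(0,1)]⟩⟩ ⟨false,0,⟨0,[(0,0)]⟩,⟨9,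
  [(1,9),(9,3),(2,1),(10,1),(11,2),(0,4)]⟩⟩,.o ⟨false,0,⟨2,[(11,0),(15,0)]⟩,⟨3,[(16,1),(2,0),(0,0),
  (9,2)]⟩⟩]⟩))) (.R ⟨0,false,false,false,[1,-1],[1,-1,-1],[1],(⟨0,[(29,0)]⟩,⟨0,[(30,0)]⟩),(⟨0,[(15,
  0)]⟩,⟨0,[(27,0),(2,0)]⟩),⟨0,[(0,0)]⟩,.k,.k,(.r (-1) ⟨0,[(1,0),(7,0),(3,0)]⟩ ⟨0,[(24,0),(0,0),(8,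
  1)]⟩),.k,.k,.k,⟨false,0,⟨4,[(5,0),(5,2),(22,2),(0,0)]⟩,⟨3,[(1,2),(2,1),(4,0),(3,0),(9,3),(12,
  2)]⟩⟩,⟨true,0,⟨2,[(9,0),(15,0)]⟩,⟨0,[(24,0)]⟩⟩,⟨true,0,⟨1,[(24,0),(0,0),(8,1)]⟩,⟨0,[(32,0)]⟩⟩,
  ⟨false,1,⟨0,[(23,0),(12,0)]⟩,⟨4,[(5,0),(2,0),(2,0),(2,1),(7,0),(5,0)]⟩⟩,⟨false,0,⟨0,[]⟩,⟨0,[]⟩⟩,
  ⟨false,0,⟨0,[]⟩,⟨0,[]⟩⟩,[.o ⟨false,1,⟨0,[(4,0),(18,0),(12,0)]⟩,⟨3,[(1,1),(5,0),(0,0),(2,1),(16,0),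
  (5,1)]⟩⟩,.e ⟨false,1,⟨1,[(35,0),(0,0)]⟩,⟨0,[(38,0)]⟩⟩ ⟨false,2,⟨1,[(1,0),(7,0),(3,0),(9,1),(11,0),
  (0,1)]⟩,⟨0,[(7,0),(16,0),(9,0)]⟩⟩,.e ⟨true,0,⟨0,[]⟩,⟨0,[(38,0)]⟩⟩ ⟨true,1,⟨1,[(1,0),(7,0),(3,0),
  (9,1),(12,0)]⟩,⟨0,[(7,0),(16,0),(9,0)]⟩⟩,.a ⟨true,0,⟨0,[(24,0),(0,0)]⟩,⟨0,[(1,0),(7,0)]⟩⟩ ⟨false,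
  1,⟨1,[(35,0),(0,0)]⟩,⟨1,[(24,0),(0,0)]⟩⟩ ⟨true,1,⟨0,[(1,0),(2,0),(4,0),(13,0),(12,0)]⟩,⟨0,[(10,0),
  (13,0),(9,0)]⟩⟩]⟩))))))) (.R ⟨0,false,false,true,[0,0,1],[1,-1,1],[0,1,0,-1,0,0,0,1],(⟨0,[(21,
  0)]⟩,⟨0,[(20,0)]⟩),(⟨0,[(21,0),(1,0)]⟩,⟨0,[(10,0)]⟩),⟨0,[(10,0)]⟩,.k,.k,.k,.k,.k,.k,⟨true,0,⟨1,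
  [(18,0),(0,0)]⟩,⟨0,[]⟩⟩,⟨false,1,⟨1,[(11,0),(0,0),(9,0)]⟩,⟨2,[(3,0),(11,1),(4,0),(0,0)]⟩⟩,⟨true,0,
  ⟨0,[(27,0)]⟩,⟨0,[(28,0)]⟩⟩,⟨false,1,⟨3,[(7,1),(3,0),(0,0),(9,0)]⟩,⟨0,[(0,0),(1,0)]⟩⟩,⟨false,0,⟨0,
  []⟩,⟨0,[]⟩⟩,⟨false,0,⟨0,[]⟩,⟨0,[]⟩⟩,[.o ⟨false,0,⟨1,[(1,1),(5,0),(0,0),(13,0)]⟩,⟨5,[(0,5),(2,1),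
  (15,1),(2,2),(7,2)]⟩⟩,.e ⟨false,0,⟨0,[(2,0),(23,0)]⟩,⟨1,[(0,1),(10,0),(0,0),(9,0)]⟩⟩ ⟨false,1,⟨3,
  [(1,1),(0,0),(3,0),(0,1),(14,0),(6,1)]⟩,⟨0,[(0,0)]⟩⟩,.a ⟨true,0,⟨1,[(8,0),(11,0),(0,0)]⟩,⟨2,[(3,
  0),(15,0)]⟩⟩ ⟨false,0,⟨0,[(2,0),(24,0)]⟩,⟨1,[(0,1),(21,0),(7,0)]⟩⟩ ⟨true,0,⟨17,[(1,13),(1,0),(1,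
  1),(1,9),(8,1),(5,3),(2,0)]⟩,⟨0,[(0,0)]⟩⟩,.o ⟨false,0,⟨0,[(18,0)]⟩,⟨9,[(3,3),(2,1),(10,1),(4,4),
  (6,2)]⟩⟩]⟩))) (.S ⟨1,0,[0,1,0,0,0,0,0,-1],[1,0,-1],[0,0,0,0,0,0,0,-1],(⟨0,[(18,0)]⟩,⟨0,[(19,0)]⟩),
  ⟨0,[(7,0)]⟩,.k,.k,⟨false,1,⟨1,[(9,0),(0,0),(17,0)]⟩,⟨0,[]⟩⟩,⟨true,0,⟨0,[(30,0)]⟩,⟨0,[]⟩⟩,⟨true,0,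
  ⟨0,[(26,0)]⟩,⟨0,[(25,0)]⟩⟩,⟨false,0,⟨0,[(26,0)]⟩,⟨0,[(25,0),(2,0)]⟩⟩,[.a ⟨true,0,⟨0,[(15,0)]⟩,⟨0,
  [(2,0),(10,0),(14,0)]⟩⟩ ⟨false,1,⟨1,[(0,1),(26,0),(0,0)]⟩,⟨1,[(2,1),(24,0),(0,0)]⟩⟩ ⟨true,0,⟨0,
  [(0,0)]⟩,⟨0,[(2,0),(25,0)]⟩⟩,.o ⟨false,1,⟨1,[(15,1),(4,0),(7,0)]⟩,⟨1,[(2,1),(10,1),(6,0),(7,0)]⟩⟩,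
  .a ⟨true,0,⟨2,[(1,0),(15,0)]⟩,⟨1,[(6,0),(11,0),(0,0)]⟩⟩ ⟨false,1,⟨0,[(0,0),(27,0)]⟩,⟨1,[(2,1),(24,
  0),(0,0)]⟩⟩ ⟨true,0,⟨0,[(0,0)]⟩,⟨1,[(2,1),(24,0),(0,0)]⟩⟩,.a ⟨true,0,⟨0,[(17,0)]⟩,⟨0,[(13,0)]⟩⟩
  ⟨true,1,⟨1,[(0,1),(26,0),(0,0)]⟩,⟨0,[(2,0)]⟩⟩ ⟨false,1,⟨1,[(0,1),(26,0),(0,0)]⟩,⟨0,[(2,0),(25,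
  0)]⟩⟩]⟩)))

theorem ok6 : chk K t6 r3 = true := by decide +kernel

noncomputable def t8 : Tre :=
  (.Q [0,0,0,0,0,0,1,0,0,0,-1] (.p false [0,0,1] [] (⟨0,[(16,0)]⟩,⟨0,[(15,0)]⟩) .k 0 (⟨0,[]⟩,⟨0,
  []⟩) .k .k) (.S ⟨1,0,[0,0,0,0,0,0,0,-1],[1,0,-1],[0,1,0,0,0,0,0,-1],(⟨0,[(16,0)]⟩,⟨0,[(17,0)]⟩),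
  ⟨0,[(5,0)]⟩,.k,.k,⟨true,0,⟨0,[(28,0)]⟩,⟨0,[]⟩⟩,⟨false,1,⟨1,[(7,0),(0,0),(17,0)]⟩,⟨0,[]⟩⟩,⟨false,0,
  ⟨0,[(24,0)]⟩,⟨0,[(23,0),(2,0)]⟩⟩,⟨true,0,⟨0,[(24,0)]⟩,⟨0,[(23,0)]⟩⟩,[.e ⟨false,0,⟨2,[(0,0),(0,1),
  (11,0),(7,0),(2,1)]⟩,⟨0,[(2,0)]⟩⟩ ⟨false,0,⟨0,[(1,0),(22,0)]⟩,⟨0,[(2,0),(25,0)]⟩⟩,.o ⟨false,1,⟨1,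
  [(1,1),(13,1),(2,0),(5,1),(1,0)]⟩,⟨0,[(12,0)]⟩⟩,.o ⟨false,1,⟨1,[(15,1),(2,0),(6,0)]⟩,⟨0,[(0,0)]⟩⟩,
  .a ⟨true,0,⟨0,[(15,0)]⟩,⟨0,[(11,0)]⟩⟩ ⟨false,0,⟨0,[(1,0),(22,0)]⟩,⟨1,[(2,1),(11,0),(0,0)]⟩⟩ ⟨true,
  0,⟨0,[(1,0),(22,0)]⟩,⟨0,[(12,0),(2,0)]⟩⟩]⟩) (.Q [0,-1,0,1,0,0,-1,-1,0,0,1] (.p true [0,0,1] []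
  (⟨0,[(17,0)]⟩,⟨0,[(16,0)]⟩) .k 0 (⟨0,[]⟩,⟨0,[]⟩) .k .k) (.R ⟨2,true,false,true,[0,1],[0,0,1],[1,1,
  1],(⟨0,[]⟩,⟨0,[]⟩),(⟨0,[(18,0)]⟩,⟨0,[(17,0)]⟩),⟨0,[]⟩,.k,.k,.k,.k,.k,.k,⟨false,0,⟨6,[(0,2),(1,2),
  (11,0),(0,3),(6,0)]⟩,⟨1,[(1,0),(1,0),(9,0),(12,0)]⟩⟩,⟨true,0,⟨0,[(15,0)]⟩,⟨0,[(1,0)]⟩⟩,⟨true,0,⟨0,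
  [(24,0)]⟩,⟨0,[(25,0)]⟩⟩,⟨false,1,⟨2,[(3,1),(0,0),(0,0),(7,0),(10,0)]⟩,⟨0,[(0,0)]⟩⟩,⟨false,0,⟨0,
  []⟩,⟨1,[(8,0),(0,0),(17,0)]⟩⟩,⟨true,0,⟨0,[(13,0)]⟩,⟨2,[(0,0),(1,0),(11,0),(1,0)]⟩⟩,[]⟩) (.Q [0,0,
  1,0,0,0,2,0,0,0,-2] (.p false [0,0,1] [0,1,-1] (⟨0,[(18,0)]⟩,⟨0,[(17,0)]⟩) .k 2 (⟨0,[(7,0)]⟩,⟨0,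
  [(18,0),(1,0)]⟩) .k (.r (-1) ⟨0,[(1,0),(1,0),(9,0)]⟩ ⟨0,[(2,1),(12,0),(0,0),(8,1)]⟩)) (.I [0,0,-1,
  -1,1,0,0,2] (.Q [0,1,0,-1,0,0,2,2,0,0,-2] (.p false [0,0,1] [0,1,-1] (⟨0,[(20,0)]⟩,⟨0,[(19,0)]⟩)
  .k 2 (⟨0,[(9,0)]⟩,⟨0,[(20,0),(1,0)]⟩) .k (.r (-1) ⟨1,[(0,0),(4,0),(9,0),(2,0),(8,0)]⟩ ⟨2,[(1,1),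
  (2,5),(13,3),(8,5)]⟩)) (.R ⟨0,false,false,true,[0,1,-1],[0,0,1],[1,1,1,1,0,0,0,-1],(⟨0,[(10,0)]⟩,
  ⟨0,[(21,0),(1,0)]⟩),(⟨0,[(21,0)]⟩,⟨0,[(20,0)]⟩),⟨0,[(21,0)]⟩,.k,.k,.k,(.r 0 ⟨0,[(2,0),(2,1),(13,
  1),(8,2)]⟩ ⟨0,[(1,0)]⟩),.k,.k,⟨false,0,⟨2,[(2,1),(2,5),(13,3),(8,8)]⟩,⟨0,[(1,0)]⟩⟩,⟨true,0,⟨0,[(2,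
  0)]⟩,⟨0,[(4,1)]⟩⟩,⟨false,0,⟨0,[]⟩,⟨1,[(11,0),(0,0),(17,0)]⟩⟩,⟨true,0,⟨0,[(0,0)]⟩,⟨0,[(5,1),(13,1),
  (8,2)]⟩⟩,⟨false,0,⟨0,[]⟩,⟨0,[]⟩⟩,⟨false,0,⟨0,[]⟩,⟨0,[]⟩⟩,[.o ⟨false,0,⟨0,[(16,0)]⟩,⟨1,[(5,1),(13,
  1),(2,0),(5,1),(1,0)]⟩⟩,.e ⟨false,0,⟨2,[(2,0),(2,2),(13,1),(8,5)]⟩,⟨9,[(1,5),(5,1),(7,1),(1,1),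
  (11,0),(0,0)]⟩⟩ ⟨false,1,⟨5,[(2,0),(3,3),(1,3),(7,1),(5,1),(2,0)]⟩,⟨0,[(4,1),(0,0),(22,0)]⟩⟩,.a
  ⟨true,0,⟨0,[(4,1),(10,0)]⟩,⟨0,[(18,0)]⟩⟩ ⟨false,0,⟨2,[(2,1),(2,2),(13,3),(8,5)]⟩,⟨0,[(0,0),(3,1),
  (0,0),(22,0),(1,0)]⟩⟩ ⟨true,0,⟨2,[(2,1),(13,2),(2,0)]⟩,⟨0,[(4,1),(0,0),(22,0)]⟩⟩,.o ⟨false,0,⟨0,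
  [(4,0)]⟩,⟨3,[(8,1),(2,0),(0,0),(9,2)]⟩⟩]⟩) (.R ⟨0,false,false,true,[0,1,-1],[0,0,1],[1,1,1],(⟨0,
  [(10,0)]⟩,⟨0,[(21,0),(1,0)]⟩),(⟨0,[(21,0)]⟩,⟨0,[(20,0)]⟩),⟨0,[(21,0)]⟩,.k,.k,.k,(.r 0 ⟨2,[(0,1),
  (1,2),(14,1),(10,0)]⟩ ⟨0,[(1,0)]⟩),.k,.k,⟨false,0,⟨13,[(0,3),(1,4),(2,3),(11,1),(7,0)]⟩,⟨3,[(1,0),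
  (4,1),(18,0),(2,0),(0,0)]⟩⟩,⟨true,0,⟨0,[(2,0)]⟩,⟨0,[(4,1)]⟩⟩,⟨true,0,⟨0,[(3,0),(0,0)]⟩,⟨4,[(0,1),
  (1,1),(2,0),(19,0),(2,3)]⟩⟩,⟨false,1,⟨0,[(1,0),(0,0)]⟩,⟨0,[(0,0)]⟩⟩,⟨false,0,⟨0,[]⟩,⟨0,[]⟩⟩,
  ⟨false,0,⟨0,[]⟩,⟨0,[]⟩⟩,[.o ⟨false,0,⟨0,[(16,0)]⟩,⟨4,[(0,1),(6,0),(9,0),(4,1),(7,1)]⟩⟩,.e ⟨false,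
  0,⟨0,[]⟩,⟨1,[(11,0),(0,0),(16,0)]⟩⟩ ⟨false,1,⟨5,[(2,0),(3,3),(1,3),(7,1),(5,1),(2,0)]⟩,⟨0,[(4,1),
  (0,0),(22,0)]⟩⟩,.a ⟨true,0,⟨0,[(4,1),(10,0)]⟩,⟨0,[(18,0)]⟩⟩ ⟨false,0,⟨2,[(2,0),(16,1)]⟩,⟨1,[(29,
  0),(0,0)]⟩⟩ ⟨true,0,⟨2,[(2,1),(13,2),(2,0)]⟩,⟨0,[(4,1),(0,0),(22,0)]⟩⟩,.o ⟨false,0,⟨0,[(4,0)]⟩,⟨3,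
  [(8,1),(2,0),(0,0),(9,2)]⟩⟩]⟩)) (.I [0,0,-1,0,0,1,-2] (.R ⟨0,false,false,false,[0,1,-1],[0,0,1],
  [0,1],(⟨0,[(10,0)]⟩,⟨0,[(21,0),(1,0)]⟩),(⟨0,[(21,0)]⟩,⟨0,[(20,0)]⟩),⟨0,[(21,0)]⟩,.k,.k,.k,(.x 0
  ⟨0,[(0,0)]⟩ ⟨1,[(2,1),(8,0),(0,0),(8,3),(0,0),(0,1)]⟩),.k,.k,⟨false,0,⟨39,[(1,11),(3,11),(2,1),(8,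
  3),(4,0),(2,17),(3,10)]⟩,⟨0,[(6,0)]⟩⟩,⟨true,0,⟨0,[(2,0)]⟩,⟨0,[(4,1)]⟩⟩,⟨false,1,⟨0,[(6,0),(19,
  0)]⟩,⟨5,[(1,2),(0,0),(16,1),(8,2),(1,2)]⟩⟩,⟨true,1,⟨0,[(3,0),(12,0),(13,0)]⟩,⟨0,[(1,0),(2,1),(21,
  0),(1,0)]⟩⟩,⟨false,0,⟨0,[]⟩,⟨0,[]⟩⟩,⟨false,0,⟨0,[]⟩,⟨0,[]⟩⟩,[.e ⟨false,0,⟨0,[(26,0),(1,0)]⟩,⟨1,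
  [(11,0),(0,0),(17,0)]⟩⟩ ⟨false,1,⟨5,[(2,0),(3,3),(1,3),(7,1),(5,1),(2,0)]⟩,⟨0,[(4,1),(0,0),(22,
  0)]⟩⟩,.o ⟨false,1,⟨0,[(16,0),(13,0)]⟩,⟨3,[(1,1),(2,3),(17,1),(2,0),(0,0),(0,0)]⟩⟩,.a ⟨true,0,⟨2,
  [(0,1),(14,0),(5,3),(1,1)]⟩,⟨0,[(18,0)]⟩⟩ ⟨true,0,⟨0,[(32,0)]⟩,⟨0,[]⟩⟩ ⟨false,1,⟨0,[(2,0),(3,0)]⟩,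
  ⟨0,[(4,1),(0,0),(22,0)]⟩⟩,.o ⟨false,0,⟨0,[(4,0)]⟩,⟨3,[(8,1),(2,0),(0,0),(9,2)]⟩⟩]⟩) (.I [0,0,1,0,
  0,-1,2] (.R ⟨0,false,false,false,[0,1,-1],[0,0,1],[0,1],(⟨0,[(11,0)]⟩,⟨0,[(22,0),(1,0)]⟩),(⟨0,
  [(22,0)]⟩,⟨0,[(21,0)]⟩),⟨0,[(22,0)]⟩,.k,.k,.k,(.x (-1) ⟨1,[(5,3),(5,1),(9,1),(1,0),(6,0)]⟩ ⟨0,[(0,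
  0)]⟩),.k,.k,⟨false,0,⟨39,[(2,11),(3,11),(2,1),(8,3),(4,0),(2,17),(3,10)]⟩,⟨0,[(7,0)]⟩⟩,⟨true,0,⟨0,
  [(3,0)]⟩,⟨0,[(5,1)]⟩⟩,⟨false,1,⟨0,[(7,0),(19,0)]⟩,⟨5,[(2,2),(0,0),(16,1),(8,2),(1,2)]⟩⟩,⟨true,1,
  ⟨0,[(4,0),(12,0),(13,0)]⟩,⟨0,[(2,0),(2,1),(21,0),(1,0)]⟩⟩,⟨false,0,⟨0,[]⟩,⟨0,[]⟩⟩,⟨false,0,⟨0,[]⟩,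
  ⟨0,[]⟩⟩,[.e ⟨false,0,⟨0,[(27,0),(1,0)]⟩,⟨1,[(12,0),(0,0),(17,0)]⟩⟩ ⟨false,1,⟨5,[(3,0),(3,3),(1,3),
  (7,1),(5,1),(2,0)]⟩,⟨0,[(5,1),(0,0),(22,0)]⟩⟩,.o ⟨false,1,⟨0,[(17,0),(13,0)]⟩,⟨3,[(2,1),(2,3),(17,
  1),(2,0),(0,0),(0,0)]⟩⟩,.a ⟨true,0,⟨0,[(5,1),(10,0)]⟩,⟨0,[(19,0)]⟩⟩ ⟨true,0,⟨0,[(33,0)]⟩,⟨0,[]⟩⟩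
  ⟨false,1,⟨0,[(3,0),(3,0)]⟩,⟨0,[(5,1),(0,0),(22,0)]⟩⟩,.o ⟨false,0,⟨0,[(5,0)]⟩,⟨3,[(9,1),(2,0),(0,
  0),(9,2)]⟩⟩]⟩) (.Q [0,-1,0,1,0,0,0,0,0,1] (.pp false [-1,1]) (.R ⟨0,false,false,true,[0,1,-1],[1,
  0,-1],[],(⟨0,[(12,0)]⟩,⟨0,[(23,0),(1,0)]⟩),(⟨0,[(22,0)]⟩,⟨0,[(23,0)]⟩),⟨0,[(23,0)]⟩,.k,.k,.k,.k,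
  .k,.k,⟨true,1,⟨0,[(5,0),(0,0),(23,0),(1,0)]⟩,⟨0,[(3,0),(1,0),(0,0)]⟩⟩,⟨false,1,⟨1,[(13,0),(0,0),
  (9,0)]⟩,⟨2,[(1,0),(15,1),(5,1),(1,0)]⟩⟩,⟨true,1,⟨0,[(8,0),(19,0)]⟩,⟨0,[(3,0),(2,0),(11,0)]⟩⟩,
  ⟨false,1,⟨3,[(9,1),(3,0),(0,0),(9,0)]⟩,⟨0,[(0,0)]⟩⟩,⟨false,0,⟨0,[]⟩,⟨0,[]⟩⟩,⟨false,0,⟨0,[]⟩,⟨0,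
  []⟩⟩,[.o ⟨false,0,⟨3,[(3,1),(2,3),(17,1),(2,0),(0,0),(0,0)]⟩,⟨0,[(18,0),(13,0)]⟩⟩,.a ⟨true,0,⟨4,
  [(3,0),(2,2),(0,0),(11,1),(12,0)]⟩,⟨0,[(0,0),(4,0)]⟩⟩ ⟨false,1,⟨1,[(31,0),(0,0)]⟩,⟨0,[(34,0)]⟩⟩
  ⟨true,0,⟨1,[(3,1),(1,1),(0,1),(17,0),(7,0)]⟩,⟨0,[(0,0),(4,0),(0,0)]⟩⟩,.e ⟨false,1,⟨1,[(13,0),(0,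
  0),(17,0)]⟩,⟨0,[]⟩⟩ ⟨false,0,⟨1,[(3,1),(1,1),(0,1),(17,0),(7,0)]⟩,⟨2,[(1,0),(6,2),(8,1),(5,1),(1,
  0)]⟩⟩,.o ⟨false,0,⟨0,[(6,0)]⟩,⟨3,[(10,1),(2,0),(0,0),(9,2)]⟩⟩]⟩) (.I [0,0,1,1,-1,0,0,-2] (.R ⟨0,
  false,false,false,[0,1,-1],[0,0,1],[0,1],(⟨0,[(13,0)]⟩,⟨0,[(24,0),(1,0)]⟩),(⟨0,[(24,0)]⟩,⟨0,[(23,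
  0)]⟩),⟨0,[(24,0)]⟩,.k,.k,.k,(.r 1 ⟨0,[(0,0)]⟩ ⟨1,[(9,3),(18,0),(0,0),(0,0)]⟩),.k,.k,⟨false,0,⟨39,
  [(0,11),(7,11),(2,1),(8,3),(4,0),(2,17),(3,10)]⟩,⟨0,[(9,0)]⟩⟩,⟨true,0,⟨0,[(5,0)]⟩,⟨0,[(7,1)]⟩⟩,
  ⟨false,1,⟨0,[(9,0),(19,0)]⟩,⟨5,[(0,2),(4,0),(16,1),(8,2),(1,2)]⟩⟩,⟨true,1,⟨0,[(6,0),(12,0),(13,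
  0)]⟩,⟨0,[(0,0),(6,1),(21,0),(1,0)]⟩⟩,⟨false,0,⟨0,[]⟩,⟨0,[]⟩⟩,⟨false,0,⟨0,[]⟩,⟨0,[]⟩⟩,[.e ⟨false,0,
  ⟨0,[(29,0),(1,0)]⟩,⟨1,[(14,0),(0,0),(17,0)]⟩⟩ ⟨false,1,⟨5,[(5,0),(3,3),(1,3),(7,1),(5,1),(2,0)]⟩,
  ⟨0,[(7,1),(0,0),(22,0)]⟩⟩,.o ⟨false,1,⟨0,[(19,0),(13,0)]⟩,⟨10,[(0,3),(0,2),(5,8),(0,0),(11,1),(4,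
  3),(2,2)]⟩⟩,.a ⟨true,0,⟨2,[(2,1),(15,0),(5,3),(1,1)]⟩,⟨0,[(21,0)]⟩⟩ ⟨true,0,⟨0,[(35,0)]⟩,⟨0,[]⟩⟩
  ⟨false,1,⟨0,[(5,0),(3,0)]⟩,⟨0,[(7,1),(0,0),(22,0)]⟩⟩,.o ⟨false,0,⟨0,[(7,0)]⟩,⟨3,[(11,1),(2,0),(0,
  0),(9,2)]⟩⟩]⟩) (.I [0,-1,2,1] (.R ⟨0,false,false,false,[0,0,1],[0,1],[1,1],(⟨0,[(25,0)]⟩,⟨0,[(24,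
  0)]⟩),(⟨0,[(28,0)]⟩,⟨0,[(27,0)]⟩),⟨0,[(14,0)]⟩,.k,.k,.k,.k,.k,.k,⟨true,0,⟨0,[(30,0)]⟩,⟨0,[(0,
  0)]⟩⟩,⟨false,1,⟨0,[(8,0),(24,0)]⟩,⟨0,[(22,0)]⟩⟩,⟨false,0,⟨8,[(5,2),(3,0),(1,0),(0,0),(8,1),(11,0),
  (0,0)]⟩,⟨0,[(0,0),(0,0),(7,0),(22,0)]⟩⟩,⟨true,0,⟨5,[(5,1),(2,3),(12,1),(10,3),(0,0),(0,0)]⟩,⟨0,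
  [(7,0)]⟩⟩,⟨false,0,⟨0,[]⟩,⟨0,[]⟩⟩,⟨false,0,⟨0,[]⟩,⟨0,[]⟩⟩,[.o ⟨false,0,⟨0,[(32,0)]⟩,⟨3,[(11,1),(3,
  0),(0,0),(9,0)]⟩⟩,.o ⟨false,1,⟨0,[(0,0),(32,0)]⟩,⟨0,[(2,0)]⟩⟩,.a ⟨true,0,⟨1,[(12,0),(11,0),(0,
  0)]⟩,⟨0,[(8,0)]⟩⟩ ⟨false,0,⟨0,[]⟩,⟨1,[(15,0),(0,0),(17,0)]⟩⟩ ⟨true,0,⟨0,[(8,0),(23,0)]⟩,⟨7,[(6,2),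
  (0,1),(1,1),(19,0),(1,3)]⟩⟩,.o ⟨false,0,⟨0,[(22,0)]⟩,⟨1,[(8,1),(17,0),(6,0)]⟩⟩]⟩) (.Q [0,0,0,0,0,
  2,0,0,0,-1,-1] (.p false [1,-1,1] [] (⟨0,[(25,0),(1,0)]⟩,⟨0,[(14,0)]⟩) .k 0 (⟨0,[]⟩,⟨0,[]⟩) .k
  .k) (.R ⟨0,false,false,false,[1,-1,1],[1,-1],[1],(⟨0,[(26,0),(1,0)]⟩,⟨0,[(15,0)]⟩),(⟨0,[(28,0)]⟩,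
  ⟨0,[(29,0)]⟩),⟨0,[(0,0)]⟩,.k,.k,(.r (-1) ⟨0,[(2,0),(7,0)]⟩ ⟨3,[(6,0),(0,2),(14,1),(1,3),(8,6),(1,
  0)]⟩),.k,.k,.k,⟨false,0,⟨0,[(33,0)]⟩,⟨4,[(2,0),(9,1),(7,1),(1,1),(11,0),(0,0)]⟩⟩,⟨true,0,⟨0,[(9,
  0)]⟩,⟨0,[(23,0)]⟩⟩,⟨false,0,⟨5,[(6,2),(0,0),(16,1),(8,2),(1,2)]⟩,⟨9,[(2,5),(9,1),(7,1),(1,1),(11,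
  0),(0,0)]⟩⟩,⟨true,0,⟨4,[(6,0),(2,2),(0,0),(11,1),(12,0)]⟩,⟨0,[(21,0)]⟩⟩,⟨false,0,⟨0,[]⟩,⟨0,[]⟩⟩,
  ⟨false,0,⟨0,[]⟩,⟨0,[]⟩⟩,[.o ⟨false,1,⟨3,[(12,1),(3,0),(0,0),(9,0)]⟩,⟨0,[(33,0)]⟩⟩,.o ⟨false,1,⟨0,
  [(3,0),(31,0)]⟩,⟨0,[(33,0),(3,0)]⟩⟩,.a ⟨true,0,⟨0,[(23,0)]⟩,⟨2,[(4,1),(15,0),(5,3),(1,1)]⟩⟩ ⟨true,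
  0,⟨0,[]⟩,⟨0,[(37,0)]⟩⟩ ⟨false,1,⟨4,[(2,1),(6,3),(0,2),(11,0),(12,2)]⟩,⟨2,[(7,1),(16,0),(8,2)]⟩⟩,
  .e ⟨false,1,⟨1,[(34,0),(0,0)]⟩,⟨2,[(7,0),(16,1)]⟩⟩ ⟨false,1,⟨0,[(1,0),(7,0),(25,0)]⟩,⟨0,[(7,0),
  (16,0),(8,0)]⟩⟩]⟩) (.Q [0,0,0,1,0,0,2,1,0,1,-2] (.p false [0,0,1] [1,0,-1] (⟨0,[(26,0)]⟩,⟨0,[(25,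
  0)]⟩) .k 2 (⟨0,[(25,0)]⟩,⟨0,[(26,0)]⟩) .k (.r (-1) ⟨1,[(2,0),(8,0),(9,0),(2,0),(8,0)]⟩ ⟨8,[(6,5),
  (3,1),(1,1),(0,1),(8,3),(11,1),(0,1)]⟩)) (.R ⟨0,false,false,false,[0,0,1],[1,-1,-1],[0,0,0,-1,0,0,
  0,-1],(⟨0,[(27,0)]⟩,⟨0,[(26,0)]⟩),(⟨0,[(15,0)]⟩,⟨0,[(27,0),(2,0)]⟩),⟨0,[(16,0)]⟩,.k,.k,.k,(.r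
  (-1) ⟨0,[(12,0),(9,0),(2,0),(8,0)]⟩ ⟨8,[(7,2),(3,9),(1,0),(0,0),(8,1),(11,0),(0,0)]⟩),.k,.k,⟨true,
  0,⟨2,[(8,0),(16,1)]⟩,⟨0,[]⟩⟩,⟨false,1,⟨1,[(10,2),(1,0),(10,0),(4,0)]⟩,⟨0,[(0,0),(10,0)]⟩⟩,⟨false,
  0,⟨0,[(7,0),(1,0),(0,0),(0,0),(24,0)]⟩,⟨1,[(3,0),(8,0),(9,0),(2,0),(8,2)]⟩⟩,⟨true,0,⟨5,[(4,1),(2,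
  3),(2,11),(0,3),(1,1),(14,0),(7,0)]⟩,⟨0,[(0,0),(9,0),(11,0)]⟩⟩,⟨false,0,⟨0,[]⟩,⟨0,[]⟩⟩,⟨false,0,
  ⟨0,[]⟩,⟨0,[]⟩⟩,[.e ⟨false,0,⟨0,[(11,0)]⟩,⟨7,[(0,1),(11,6),(10,0),(1,2),(2,0),(2,2),(2,5)]⟩⟩
  ⟨false,1,⟨4,[(10,7),(0,2),(1,0),(9,1),(4,1),(6,0),(0,0)]⟩,⟨0,[(0,0)]⟩⟩,.o ⟨false,1,⟨19,[(7,5),(2,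
  17),(0,5),(1,9),(9,1),(4,4),(7,10)]⟩,⟨0,[(22,0),(11,0)]⟩⟩,.a ⟨true,0,⟨1,[(14,0),(11,0),(0,0)]⟩,⟨0,
  [(10,0)]⟩⟩ ⟨true,0,⟨2,[(8,0),(2,2),(13,1)]⟩,⟨0,[(10,0),(11,0),(11,0)]⟩⟩ ⟨false,1,⟨19,[(7,5),(2,
  37),(0,5),(1,9),(9,1),(4,4),(7,10)]⟩,⟨0,[(0,0)]⟩⟩,.o ⟨false,0,⟨0,[(24,0)]⟩,⟨1,[(10,1),(17,0),(6,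
  0)]⟩⟩]⟩) (.Q [0,0,0,1,0,0,1,1,0,1,-1] (.p false [0,0,1] [1] (⟨0,[(27,0)]⟩,⟨0,[(26,0)]⟩) .k 1 (⟨0,
  []⟩,⟨0,[]⟩) .k .k) (.R ⟨0,false,false,false,[0,0,1],[1,-1,-1],[0,0,0,-1,0,0,0,-1],(⟨0,[(28,0)]⟩,
  ⟨0,[(27,0)]⟩),(⟨0,[(16,0)]⟩,⟨0,[(28,0),(2,0)]⟩),⟨0,[(17,0)]⟩,.k,.k,.k,(.r (-1) ⟨2,[(0,3),(3,0),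
  (21,3),(2,1)]⟩ ⟨8,[(8,2),(3,9),(1,0),(0,0),(8,1),(11,0),(0,0)]⟩),.k,.k,⟨true,0,⟨2,[(9,0),(16,1)]⟩,
  ⟨0,[]⟩⟩,⟨false,1,⟨1,[(11,2),(1,0),(10,0),(4,0)]⟩,⟨0,[(0,0),(2,0),(4,0),(1,0),(26,0)]⟩⟩,⟨false,0,
  ⟨7,[(1,1),(0,0),(3,1),(1,7),(1,7),(1,5),(14,0),(0,3),(8,7)]⟩,⟨2,[(0,1),(3,1),(21,1),(2,0),(5,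
  2)]⟩⟩,⟨true,0,⟨24,[(1,20),(6,6),(3,6),(1,1),(9,7),(4,0),(7,3)]⟩,⟨0,[(0,0),(22,0)]⟩⟩,⟨false,0,⟨0,
  []⟩,⟨0,[]⟩⟩,⟨false,0,⟨0,[]⟩,⟨0,[]⟩⟩,[.a ⟨true,0,⟨0,[(12,0),(13,0)]⟩,⟨0,[(0,0)]⟩⟩ ⟨false,0,⟨0,[(12,
  0)]⟩,⟨3,[(0,1),(12,2),(10,0),(1,0),(2,0),(2,0),(2,1)]⟩⟩ ⟨true,0,⟨0,[(1,0)]⟩,⟨2,[(0,2),(8,1),(16,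
  0)]⟩⟩,.o ⟨false,1,⟨24,[(1,8),(6,2),(3,2),(1,7),(9,6),(4,3),(7,15)]⟩,⟨0,[(23,0),(11,0)]⟩⟩,.e ⟨true,
  0,⟨2,[(9,0),(2,2),(13,1)]⟩,⟨0,[(11,0),(11,0),(11,0)]⟩⟩ ⟨true,0,⟨0,[(1,0)]⟩,⟨1,[(0,1),(8,0),(22,
  0)]⟩⟩,.o ⟨false,0,⟨0,[(25,0)]⟩,⟨1,[(11,1),(17,0),(6,0)]⟩⟩]⟩) (.Q [0,-1,0,0,1,0,2,2,0,1,-2] (.p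
  false [0,0,1] [1,0,-1] (⟨0,[(28,0)]⟩,⟨0,[(27,0)]⟩) .k 2 (⟨0,[(27,0)]⟩,⟨0,[(28,0)]⟩) .k (.r (-1)
  ⟨1,[(4,0),(8,0),(9,0),(2,0),(8,0)]⟩ ⟨8,[(8,5),(3,1),(1,1),(0,1),(8,3),(11,1),(0,1)]⟩)) (.R ⟨0,
  false,false,true,[0,0,1],[1,0,-1],[1],(⟨0,[(29,0)]⟩,⟨0,[(28,0)]⟩),(⟨0,[(28,0)]⟩,⟨0,[(29,0)]⟩),⟨0,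
  [(18,0)]⟩,.k,.k,.k,.k,.k,.k,⟨true,1,⟨0,[(14,0)]⟩,⟨0,[(9,0),(1,0),(0,0)]⟩⟩,⟨false,1,⟨1,[(12,3),(17,
  0),(6,0)]⟩,⟨0,[(16,0)]⟩⟩,⟨true,0,⟨8,[(9,2),(3,0),(1,0),(0,0),(8,1),(11,0),(0,0)]⟩,⟨0,[(12,0),(11,
  0)]⟩⟩,⟨false,0,⟨13,[(2,11),(6,5),(15,3),(4,0),(5,5),(0,2),(0,1)]⟩,⟨0,[(0,0)]⟩⟩,⟨false,0,⟨0,[]⟩,⟨0,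
  []⟩⟩,⟨false,0,⟨0,[]⟩,⟨0,[]⟩⟩,[.o ⟨false,0,⟨9,[(2,3),(6,2),(17,1),(2,2),(2,4),(2,0)]⟩,⟨3,[(0,1),
  (29,0),(7,0)]⟩⟩,.o ⟨false,0,⟨0,[(1,0),(34,0)]⟩,⟨2,[(0,1),(24,0),(4,0),(9,0)]⟩⟩,.a ⟨true,0,⟨1,[(16,
  0),(11,0),(0,0)]⟩,⟨0,[(12,0)]⟩⟩ ⟨true,0,⟨0,[]⟩,⟨0,[(40,0)]⟩⟩ ⟨false,0,⟨0,[(2,0),(33,0)]⟩,⟨15,[(0,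
  9),(15,7),(8,3),(4,0),(7,4)]⟩⟩,.o ⟨false,0,⟨0,[(26,0)]⟩,⟨1,[(12,1),(17,0),(6,0)]⟩⟩]⟩) (.Q [0,0,1,
  0,0,0,0,0,-1,0,0,1] (.p true [0,0,0,0,1] [] (⟨0,[(22,0)]⟩,⟨0,[(21,0)]⟩) .k 0 (⟨0,[]⟩,⟨0,[]⟩) .k
  .k) (.K ⟨0,[0,0,0,0,1],0,0,(⟨0,[(23,0)]⟩,⟨0,[(22,0)]⟩),.k,(.r (-1) ⟨4,[(6,0),(9,1),(7,1),(1,1),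
  (11,0),(0,0)]⟩ ⟨2,[(11,0),(16,1),(8,2)]⟩),(.r 0 ⟨2,[(11,0),(16,1),(8,2)]⟩ ⟨15,[(6,1),(9,3),(7,3),
  (1,3),(9,5),(1,4),(0,4)]⟩),.k,.k,[⟨0,[(13,0),(7,0)]⟩,⟨0,[(0,0)]⟩,⟨4,[(0,4),(4,1),(28,0),(2,1),(3,
  0)]⟩,⟨0,[(21,0),(19,0)]⟩]⟩) (.Q [0,0,0,0,0,-2,0,0,0,1] (.pp false [-1,1]) (.Q [0,0,2,0,0,0,0,0,0,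
  -1] (.pp true [-1,1]) (.S ⟨1,0,[0,1,-1,-1],[1,-1],[1,0,-1,-2],(⟨0,[(34,0)]⟩,⟨0,[(35,0)]⟩),⟨0,[(1,
  0)]⟩,.k,(.r (-1) ⟨9,[(8,5),(7,9),(1,1),(7,1),(1,1),(11,0),(0,0)]⟩ ⟨2,[(13,1),(16,3),(8,5)]⟩),
  ⟨false,1,⟨0,[(38,0),(2,0)]⟩,⟨0,[(39,0)]⟩⟩,⟨true,0,⟨0,[(43,0)]⟩,⟨0,[]⟩⟩,⟨true,0,⟨0,[]⟩,⟨0,[(43,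
  0)]⟩⟩,⟨false,0,⟨0,[(39,0)]⟩,⟨0,[(38,0),(2,0)]⟩⟩,[.o ⟨false,0,⟨0,[(9,0)]⟩,⟨1,[(22,0),(0,0),(15,1),
  (1,0)]⟩⟩,.o ⟨false,1,⟨3,[(18,1),(3,0),(0,0),(9,0)]⟩,⟨0,[(39,0)]⟩⟩,.a ⟨true,0,⟨2,[(13,0),(16,1)]⟩,
  ⟨5,[(6,0),(3,1),(15,3),(4,0),(0,3)]⟩⟩ ⟨false,1,⟨7,[(5,1),(0,0),(3,1),(3,7),(1,5),(14,0),(0,3),(8,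
  7)]⟩,⟨2,[(13,0),(16,1),(8,5)]⟩⟩ ⟨true,0,⟨0,[(37,0)]⟩,⟨2,[(13,0),(16,1),(8,2)]⟩⟩,.o ⟨false,0,⟨0,
  [(0,0)]⟩,⟨0,[(40,0)]⟩⟩]⟩) (.Q [0,-1,0,2,0,0,-1,-1,0,0,1] (.p true [0,0,1] [] (⟨0,[(32,0)]⟩,⟨0,
  [(31,0)]⟩) .k 0 (⟨0,[]⟩,⟨0,[]⟩) .k .k) (.R ⟨1,false,false,false,[1,-1],[1,0,-1],[1,1],(⟨0,[(35,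
  0)]⟩,⟨0,[(36,0)]⟩),(⟨0,[(32,0)]⟩,⟨0,[(33,0)]⟩),⟨0,[(2,0)]⟩,.k,.k,(.r (-1) ⟨0,[(1,0),(17,0)]⟩ ⟨2,
  [(14,1),(16,3),(8,5)]⟩),.k,(.r (-1) ⟨0,[(9,0),(7,0)]⟩ ⟨0,[(0,0),(13,0),(16,0),(12,0)]⟩),.k,⟨true,
  0,⟨0,[(16,0),(11,0)]⟩,⟨0,[(13,0),(1,0),(0,0),(25,0)]⟩⟩,⟨false,1,⟨9,[(0,2),(0,1),(4,1),(2,3),(19,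
  2),(11,5)]⟩,⟨0,[(30,0)]⟩⟩,⟨false,0,⟨2,[(14,0),(16,1),(8,2)]⟩,⟨1,[(1,0),(17,0),(22,0)]⟩⟩,⟨true,0,
  ⟨1,[(0,0),(28,0)]⟩,⟨0,[(15,0)]⟩⟩,⟨false,0,⟨2,[(14,0),(16,1),(8,5)]⟩,⟨2,[(1,0),(4,0),(8,2),(1,1),
  (13,0),(10,2)]⟩⟩,⟨false,0,⟨0,[(0,0)]⟩,⟨7,[(9,1),(5,5),(1,1),(1,2),(0,2),(10,3),(10,2)]⟩⟩,[.o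
  ⟨false,0,⟨3,[(4,1),(29,0),(7,0)]⟩,⟨1,[(14,0),(3,1),(18,0)]⟩⟩,.o ⟨false,1,⟨7,[(4,1),(24,3),(4,2),
  (7,6)]⟩,⟨0,[(28,0)]⟩⟩,.a ⟨true,0,⟨2,[(14,0),(16,1)]⟩,⟨1,[(1,0),(30,0),(0,0)]⟩⟩ ⟨false,0,⟨0,[]⟩,⟨1,
  [(23,0),(0,0),(17,0)]⟩⟩ ⟨true,0,⟨12,[(0,2),(0,3),(2,0),(1,2),(10,2),(11,1),(11,0)]⟩,⟨2,[(14,0),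
  (13,2),(2,1)]⟩⟩,.e ⟨true,0,⟨2,[(8,0),(28,0),(2,0)]⟩,⟨2,[(14,0),(16,1)]⟩⟩ ⟨true,0,⟨3,[(1,3),(2,1),
  (29,0),(7,0)]⟩,⟨2,[(14,1),(13,2),(2,3)]⟩⟩]⟩) (.Q [0,-1,0,1,1,0,2,2,0,1,-2] (.p false [0,0,1] [1,0,
  -1] (⟨0,[(33,0)]⟩,⟨0,[(32,0)]⟩) .k 2 (⟨0,[(32,0)]⟩,⟨0,[(33,0)]⟩) .k (.r (-1) ⟨1,[(9,0),(8,0),(9,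
  0),(2,0),(8,0)]⟩ ⟨8,[(13,5),(3,1),(1,1),(0,1),(8,3),(11,1),(0,1)]⟩)) (.R ⟨1,false,false,false,[1,
  0,-1],[0,0,1],[0,1,1],(⟨0,[(33,0)]⟩,⟨0,[(34,0)]⟩),(⟨0,[(34,0)]⟩,⟨0,[(33,0)]⟩),⟨0,[(22,0)]⟩,.k,.k,
  .k,.k,(.r 0 ⟨8,[(14,2),(3,9),(1,0),(0,0),(8,1),(11,0),(0,0)]⟩ ⟨8,[(0,3),(9,2),(18,3),(2,11),(2,1),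
  (5,7)]⟩),.k,⟨true,(-1),⟨0,[(14,0),(1,0),(0,0)]⟩,⟨0,[(19,0)]⟩⟩,⟨false,0,⟨0,[(2,0),(12,0)]⟩,⟨1,[(17,
  2),(1,0),(10,0),(4,0)]⟩⟩,⟨true,0,⟨0,[(29,0),(2,0)]⟩,⟨5,[(2,1),(11,1),(3,1),(16,0),(6,0)]⟩⟩,⟨true,
  1,⟨0,[(0,0),(39,0)]⟩,⟨0,[(5,0)]⟩⟩,⟨true,0,⟨0,[(29,0),(2,0),(8,0)]⟩,⟨0,[(18,0)]⟩⟩,⟨false,1,⟨0,[(0,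
  0)]⟩,⟨12,[(5,1),(1,8),(6,2),(3,2),(1,1),(9,3),(12,2)]⟩⟩,[.o ⟨false,1,⟨6,[(0,3),(19,1),(9,0),(4,0),
  (9,2)]⟩,⟨3,[(5,1),(29,0),(7,0)]⟩⟩,.o ⟨false,1,⟨4,[(0,1),(0,0),(33,0),(7,1)]⟩,⟨2,[(5,0),(24,0),(4,
  0),(9,0)]⟩⟩,.e ⟨false,0,⟨2,[(15,0),(16,1)]⟩,⟨1,[(42,0),(0,0)]⟩⟩ ⟨false,1,⟨1,[(0,0),(20,0),(18,0),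
  (2,0)]⟩,⟨0,[(5,0),(13,0)]⟩⟩,.a ⟨true,0,⟨0,[(32,0)]⟩,⟨0,[(28,0)]⟩⟩ ⟨true,0,⟨0,[(45,0)]⟩,⟨0,[]⟩⟩
  ⟨false,1,⟨0,[(0,0),(17,0)]⟩,⟨3,[(5,1),(26,3),(2,0),(7,0)]⟩⟩]⟩) (.Q [0,0,-1,0,1,0,-1,0,-1,-1,1,1]
  (.p true [0,0,1] [1,0,0,0,-1] (⟨0,[(34,0)]⟩,⟨0,[(33,0)]⟩) .k 2 (⟨0,[(26,0)]⟩,⟨0,[(27,0)]⟩) .k (.r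
  (-1) ⟨0,[(19,0),(25,0)]⟩ ⟨59,[(14,15),(0,5),(2,15),(11,11),(11,2),(0,12),(1,13)]⟩)) (.Q [1,-1,0,0,
  0,0,1,0,1,1,-1,-1] (.p false [0,0,1] [1,0,0,0,-1] (⟨0,[(35,0)]⟩,⟨0,[(34,0)]⟩) .k 2 (⟨0,[(27,0)]⟩,
  ⟨0,[(28,0)]⟩) .k (.r (-1) ⟨0,[(20,0),(25,0)]⟩ ⟨59,[(15,15),(0,5),(2,15),(11,11),(11,2),(0,12),(1,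
  13)]⟩)) (.R ⟨0,false,false,true,[0,0,1],[1,0,0,0,-1],[0,1],(⟨0,[(36,0)]⟩,⟨0,[(35,0)]⟩),(⟨0,[(28,
  0)]⟩,⟨0,[(29,0)]⟩),⟨0,[(25,0)]⟩,.k,.k,.k,.k,.k,.k,⟨true,0,⟨0,[]⟩,⟨2,[(17,0),(16,1)]⟩⟩,⟨false,1,⟨0,
  [(1,0)]⟩,⟨0,[(0,0),(46,0)]⟩⟩,⟨false,0,⟨8,[(16,2),(3,0),(1,0),(0,0),(8,1),(11,0),(0,0)]⟩,⟨0,[(21,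
  0)]⟩⟩,⟨true,0,⟨0,[(1,0),(1,0),(12,0),(2,0),(23,0)]⟩,⟨0,[(0,0),(18,0),(11,0)]⟩⟩,⟨false,0,⟨0,[]⟩,⟨0,
  []⟩⟩,⟨false,0,⟨0,[]⟩,⟨0,[]⟩⟩,[.e ⟨false,0,⟨2,[(11,0),(28,0),(2,0)]⟩,⟨1,[(26,0),(0,0),(17,0)]⟩⟩
  ⟨false,1,⟨23,[(1,20),(5,0),(18,2),(4,1),(2,2),(2,0),(2,5),(6,8)]⟩,⟨0,[(0,0)]⟩⟩,.o ⟨false,1,⟨1,[(1,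
  1),(15,0),(28,0)]⟩,⟨0,[(27,0)]⟩⟩,.a ⟨true,0,⟨1,[(23,0),(11,0),(0,0)]⟩,⟨0,[(19,0)]⟩⟩ ⟨true,0,⟨0,
  [(47,0)]⟩,⟨0,[]⟩⟩ ⟨false,1,⟨5,[(1,5),(15,0),(16,1),(11,2)]⟩,⟨0,[(0,0)]⟩⟩,.o ⟨false,0,⟨0,[(33,0)]⟩,
  ⟨0,[(1,0),(25,0)]⟩⟩]⟩) (.Q [-1,-1,0,0,1,0,0,0,-1,-1,0,1] (.p true [0,0,0,0,1] [1] (⟨0,[(29,0)]⟩,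
  ⟨0,[(28,0)]⟩) .k 1 (⟨0,[]⟩,⟨0,[]⟩) .k .k) (.R ⟨0,false,false,false,[0,1,-1],[1,0,0,0,-1],[-1,0,1],
  (⟨0,[(26,0)]⟩,⟨1,[(11,0),(24,0),(0,1)]⟩),(⟨0,[(29,0)]⟩,⟨0,[(30,0)]⟩),⟨0,[(37,0)]⟩,.k,.k,.k,(.r 0
  ⟨11,[(17,2),(0,4),(14,5),(1,3),(8,8),(1,2)]⟩ ⟨0,[(3,0),(0,4),(0,0),(11,0),(2,2),(23,8),(1,2)]⟩),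
  .k,.k,⟨true,0,⟨2,[(18,0),(16,1)]⟩,⟨0,[]⟩⟩,⟨false,1,⟨0,[(2,0),(15,0)]⟩,⟨0,[(5,0),(22,0),(6,0)]⟩⟩,
  ⟨false,1,⟨5,[(4,1),(8,1),(6,0),(14,0),(10,3),(0,0)]⟩,⟨15,[(17,5),(6,1),(8,3),(4,0),(5,9),(0,2),(0,
  1)]⟩⟩,⟨true,1,⟨0,[(0,0),(18,0)]⟩,⟨0,[(5,0),(11,0),(2,0),(7,0),(3,0),(2,0)]⟩⟩,⟨false,0,⟨0,[]⟩,⟨0,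
  []⟩⟩,⟨false,0,⟨0,[]⟩,⟨0,[]⟩⟩,[.o ⟨false,1,⟨22,[(0,10),(0,3),(16,1),(8,7),(10,3),(2,1),(6,2)]⟩,⟨0,
  [(28,0)]⟩⟩,.o ⟨false,1,⟨0,[(0,0)]⟩,⟨0,[(28,0),(19,0)]⟩⟩,.a ⟨true,0,⟨0,[(5,0),(29,0)]⟩,⟨0,[(34,
  0)]⟩⟩ ⟨true,0,⟨0,[(47,0)]⟩,⟨2,[(12,0),(28,0),(2,0)]⟩⟩ ⟨false,1,⟨2,[(0,2),(17,1),(16,0)]⟩,⟨0,[(5,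
  0),(22,0),(6,0)]⟩⟩,.o ⟨false,0,⟨0,[(20,0)]⟩,⟨3,[(24,1),(2,0),(0,0),(9,2)]⟩⟩]⟩) (.R ⟨0,false,false,
  true,[0,0,1],[1,0,0,0,-1],[0,1],(⟨0,[(37,0)]⟩,⟨0,[(36,0)]⟩),(⟨0,[(29,0)]⟩,⟨0,[(30,0)]⟩),⟨0,[(26,
  0)]⟩,.k,.k,.k,.k,.k,.k,⟨true,0,⟨0,[]⟩,⟨2,[(18,0),(16,1)]⟩⟩,⟨false,1,⟨0,[(2,0)]⟩,⟨11,[(0,4),(21,1),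
  (1,6),(3,6),(4,1),(12,2),(1,0)]⟩⟩,⟨false,0,⟨8,[(17,2),(3,0),(1,0),(0,0),(8,1),(11,0),(0,0)]⟩,⟨0,
  [(22,0)]⟩⟩,⟨true,0,⟨48,[(1,32),(1,2),(4,4),(8,11),(3,8),(5,15),(10,3),(2,2),(6,1)]⟩,⟨1,[(0,1),(12,
  0),(4,0),(25,0),(1,0)]⟩⟩,⟨false,0,⟨0,[]⟩,⟨0,[]⟩⟩,⟨false,0,⟨0,[]⟩,⟨0,[]⟩⟩,[.a ⟨true,0,⟨1,[(1,1),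
  (22,0),(11,0),(0,0)]⟩,⟨0,[(0,0),(45,0)]⟩⟩ ⟨false,0,⟨2,[(12,0),(28,0),(2,0)]⟩,⟨1,[(27,0),(0,0),(17,
  0)]⟩⟩ ⟨true,0,⟨0,[(1,0)]⟩,⟨2,[(0,2),(17,1),(16,0),(10,2)]⟩⟩,.o ⟨false,1,⟨23,[(1,13),(0,1),(15,7),
  (8,7),(10,3),(6,2),(0,6)]⟩,⟨0,[(28,0)]⟩⟩,.e ⟨true,0,⟨0,[(48,0)]⟩,⟨0,[]⟩⟩ ⟨true,0,⟨0,[(1,0)]⟩,⟨4,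
  [(0,1),(21,0),(1,2),(3,2),(4,0),(12,0)]⟩⟩,.o ⟨false,0,⟨0,[(34,0)]⟩,⟨0,[(2,0),(25,0)]⟩⟩]⟩))) (.Q
  [0,0,0,0,1,0,-1,0,-1,-1,1,1] (.p true [0,0,1] [1,0,0,0,-1] (⟨0,[(35,0)]⟩,⟨0,[(34,0)]⟩) .k 2 (⟨0,
  [(27,0)]⟩,⟨0,[(28,0)]⟩) .k (.r (-1) ⟨0,[(20,0),(25,0)]⟩ ⟨59,[(15,15),(0,5),(2,15),(11,11),(11,2),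
  (0,12),(1,13)]⟩)) (.K ⟨0,[1,0,0,0,-1],1,1,(⟨0,[(28,0)]⟩,⟨0,[(29,0)]⟩),.k,(.r (-1) ⟨15,[(12,1),(9,
  3),(7,3),(1,3),(9,5),(1,4),(0,4)]⟩ ⟨2,[(17,0),(16,1),(8,2)]⟩),(.r 0 ⟨2,[(17,0),(16,1),(8,2)]⟩ ⟨4,
  [(12,0),(9,1),(7,1),(1,1),(11,0),(0,0)]⟩),.k,.k,[⟨0,[(0,0)]⟩,⟨0,[(1,0),(17,0)]⟩,⟨4,[(1,4),(2,0),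
  (2,0),(4,0),(6,2),(20,1),(2,0)]⟩,⟨9,[(0,9),(10,0),(5,4),(22,2),(2,0),(3,2)]⟩]⟩) (.Q [-1,0,0,0,1,0,
  1,0,-1,0,-1,1] (.p false [0,0,1] [0,0,0,0,1] (⟨0,[(36,0)]⟩,⟨0,[(35,0)]⟩) .k 2 (⟨0,[(29,0)]⟩,⟨0,
  [(28,0)]⟩) .k (.r (-1) ⟨0,[(21,0),(25,0)]⟩ ⟨8,[(16,2),(3,0),(1,0),(0,0),(8,1),(11,0),(0,0)]⟩))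
  (.R ⟨0,false,false,false,[0,0,1],[0,0,0,0,1],[1,0,1],(⟨0,[(37,0)]⟩,⟨0,[(36,0)]⟩),(⟨0,[(30,0)]⟩,⟨0,
  [(29,0)]⟩),⟨0,[(26,0)]⟩,.k,.k,.k,.k,.k,.k,⟨true,0,⟨2,[(18,0),(16,1)]⟩,⟨0,[]⟩⟩,⟨false,0,⟨0,[(7,0),
  (12,0)]⟩,⟨0,[(0,0)]⟩⟩,⟨false,0,⟨2,[(4,0),(12,1),(17,0),(10,1)]⟩,⟨3,[(13,0),(8,1),(18,0),(2,0),(0,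
  0)]⟩⟩,⟨true,(-1),⟨0,[(1,0),(6,0),(13,0)]⟩,⟨0,[(19,0),(7,0),(16,0)]⟩⟩,⟨false,0,⟨0,[]⟩,⟨0,[]⟩⟩,
  ⟨false,0,⟨0,[]⟩,⟨0,[]⟩⟩,[.e ⟨false,0,⟨0,[]⟩,⟨1,[(27,0),(0,0),(16,0)]⟩⟩ ⟨false,0,⟨0,[(7,0),(12,
  0)]⟩,⟨0,[(0,0)]⟩⟩,.o ⟨false,0,⟨3,[(1,3),(6,1),(13,3),(15,0),(7,0)]⟩,⟨14,[(0,5),(7,6),(4,2),(13,8),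
  (4,7),(5,3),(5,2),(2,2)]⟩⟩,.a ⟨true,0,⟨1,[(24,0),(11,0),(0,0)]⟩,⟨0,[(20,0)]⟩⟩ ⟨true,0,⟨2,[(18,0),
  (16,1)]⟩,⟨2,[(12,0),(28,0),(2,0)]⟩⟩ ⟨false,0,⟨0,[(1,0),(6,0),(13,1)]⟩,⟨0,[(0,0)]⟩⟩,.o ⟨false,0,⟨0,
  [(34,0)]⟩,⟨1,[(20,1),(17,0),(6,0)]⟩⟩]⟩) (.Q [0,0,0,0,-1,0,-1,0,1,0,1,-1] (.p true [0,0,1] [0,0,0,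
  0,1] (⟨0,[(37,0)]⟩,⟨0,[(36,0)]⟩) .k 2 (⟨0,[(30,0)]⟩,⟨0,[(29,0)]⟩) .k (.r (-1) ⟨0,[(22,0),(25,0)]⟩
  ⟨8,[(17,2),(3,0),(1,0),(0,0),(8,1),(11,0),(0,0)]⟩)) (.K ⟨0,[0,0,0,0,1],(-1),(-1),(⟨0,[(31,0)]⟩,⟨0,
  [(30,0)]⟩),.k,(.r (-1) ⟨4,[(14,0),(9,1),(7,1),(1,1),(11,0),(0,0)]⟩ ⟨2,[(19,0),(16,1),(8,2)]⟩),(.r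
  0 ⟨2,[(19,0),(16,1),(8,2)]⟩ ⟨15,[(14,1),(9,3),(7,3),(1,3),(9,5),(1,4),(0,4)]⟩),.k,.k,[⟨0,[(0,0)]⟩,
  ⟨2,[(19,0),(8,2),(7,1)]⟩,⟨0,[(28,0),(20,0)]⟩,⟨11,[(0,5),(1,2),(0,2),(5,1),(23,3),(5,1),(2,2)]⟩]⟩)
  (.Q [-1,0,0,0,1,0,0,0,-1,0,0,1] (.p true [0,0,0,0,1] [] (⟨0,[(31,0)]⟩,⟨0,[(30,0)]⟩) .k 0 (⟨0,[]⟩,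
  ⟨0,[]⟩) .k .k) (.R ⟨0,false,false,false,[0,0,1],[0,0,0,0,1],[1,0,1],(⟨0,[(39,0)]⟩,⟨0,[(38,0)]⟩),
  (⟨0,[(32,0)]⟩,⟨0,[(31,0)]⟩),⟨0,[(28,0)]⟩,.k,.k,.k,.k,.k,.k,⟨true,0,⟨2,[(20,0),(16,1)]⟩,⟨0,[]⟩⟩,
  ⟨false,0,⟨1,[(2,0),(19,0),(7,0),(16,0)]⟩,⟨0,[(1,0)]⟩⟩,⟨false,0,⟨2,[(6,0),(12,1),(17,0),(10,1)]⟩,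
  ⟨3,[(15,0),(8,1),(18,0),(2,0),(0,0)]⟩⟩,⟨true,(-1),⟨6,[(2,2),(0,2),(6,2),(19,0),(4,0),(12,1)]⟩,⟨0,
  [(0,0),(33,0)]⟩⟩,⟨false,0,⟨0,[]⟩,⟨0,[]⟩⟩,⟨false,0,⟨0,[]⟩,⟨0,[]⟩⟩,[.a ⟨true,(-1),⟨4,[(2,1),(1,2),
  (2,1),(29,0)]⟩,⟨0,[(0,0)]⟩⟩ ⟨false,0,⟨0,[]⟩,⟨1,[(0,0),(29,0),(16,0)]⟩⟩ ⟨true,(-1),⟨0,[(2,0)]⟩,⟨2,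
  [(0,2),(19,1),(16,0)]⟩⟩,.o ⟨false,0,⟨5,[(2,1),(0,1),(26,1),(9,0),(7,2)]⟩,⟨2,[(0,2),(9,0),(23,1),
  (5,0)]⟩⟩,.e ⟨true,0,⟨2,[(20,0),(16,1)]⟩,⟨2,[(14,0),(28,0),(2,0)]⟩⟩ ⟨true,(-1),⟨0,[(2,0)]⟩,⟨1,[(0,
  1),(19,0),(22,0)]⟩⟩,.o ⟨false,0,⟨0,[(36,0)]⟩,⟨1,[(22,1),(17,0),(6,0)]⟩⟩]⟩) (.R ⟨2,true,false,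
  false,[0,1],[0,0,0,0,1],[1,1,1],(⟨0,[]⟩,⟨0,[]⟩),(⟨0,[(32,0)]⟩,⟨0,[(31,0)]⟩),⟨0,[]⟩,.k,.k,.k,(.r 0
  ⟨2,[(20,0),(16,1),(8,2)]⟩ ⟨4,[(15,0),(9,1),(7,1),(1,1),(11,0),(0,0)]⟩),.k,.k,⟨false,0,⟨0,[(50,
  0)]⟩,⟨1,[(47,0),(0,0)]⟩⟩,⟨true,(-1),⟨5,[(0,5),(19,0),(16,1),(11,2)]⟩,⟨0,[(29,0)]⟩⟩,⟨true,0,⟨0,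
  [(45,0)]⟩,⟨0,[(46,0)]⟩⟩,⟨false,0,⟨1,[(2,0),(0,0),(21,0),(22,0)]⟩,⟨0,[(29,0),(16,0)]⟩⟩,⟨false,0,⟨0,
  []⟩,⟨3,[(1,0),(22,0),(5,0),(4,0),(12,1)]⟩⟩,⟨true,(-1),⟨0,[(0,0)]⟩,⟨0,[(29,0),(20,0)]⟩⟩,
  []⟩))))))))) (.Q [0,0,-2,0,0,0,-1,-1,0,0,1] (.p true [0,0,1] [] (⟨0,[(31,0)]⟩,⟨0,[(30,0)]⟩) .k 0
  (⟨0,[]⟩,⟨0,[]⟩) .k .k) (.R ⟨0,false,false,false,[1,-1],[1,0,-1],[1,1],(⟨0,[(34,0)]⟩,⟨0,[(35,0)]⟩),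
  (⟨0,[(31,0)]⟩,⟨0,[(32,0)]⟩),⟨0,[(1,0)]⟩,.k,.k,(.r (-1) ⟨9,[(8,5),(7,9),(1,1),(7,1),(1,1),(11,0),
  (0,0)]⟩ ⟨2,[(13,1),(16,3),(8,5)]⟩),.k,.k,.k,⟨true,0,⟨0,[(15,0),(11,0)]⟩,⟨0,[(12,0),(1,0),(0,0),
  (25,0)]⟩⟩,⟨false,1,⟨0,[(15,0),(24,0)]⟩,⟨0,[(29,0)]⟩⟩,⟨false,0,⟨2,[(13,0),(16,1),(8,2)]⟩,⟨19,[(8,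
  5),(7,9),(1,1),(7,1),(1,1),(11,0),(0,10)]⟩⟩,⟨true,0,⟨10,[(0,2),(11,1),(15,3),(1,3),(8,8),(1,1)]⟩,
  ⟨0,[(14,0)]⟩⟩,⟨false,0,⟨0,[]⟩,⟨0,[]⟩⟩,⟨false,0,⟨0,[]⟩,⟨0,[]⟩⟩,[.o ⟨false,0,⟨3,[(3,1),(29,0),(7,
  0)]⟩,⟨1,[(13,0),(3,1),(18,0)]⟩⟩,.o ⟨false,1,⟨7,[(3,1),(24,3),(4,2),(7,6)]⟩,⟨0,[(27,0)]⟩⟩,.a ⟨true,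
  0,⟨2,[(13,0),(16,1)]⟩,⟨5,[(6,0),(3,1),(15,3),(4,0),(0,3)]⟩⟩ ⟨false,0,⟨0,[]⟩,⟨1,[(22,0),(0,0),(17,
  0)]⟩⟩ ⟨true,0,⟨12,[(0,7),(11,0),(3,0),(11,1),(1,2),(10,0)]⟩,⟨2,[(13,0),(13,2),(2,1)]⟩⟩,.e ⟨true,0,
  ⟨2,[(7,0),(28,0),(2,0)]⟩,⟨2,[(13,0),(16,1)]⟩⟩ ⟨true,0,⟨0,[(0,0)]⟩,⟨2,[(13,1),(13,2),(2,3)]⟩⟩]⟩)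
  (.R ⟨0,false,false,false,[1,-1],[1,0,-1],[0,0,1,0,0,0,0,-1],(⟨0,[(34,0)]⟩,⟨0,[(35,0)]⟩),(⟨0,[(31,
  0)]⟩,⟨0,[(32,0)]⟩),⟨0,[(1,0)]⟩,.k,.k,(.r (-1) ⟨9,[(8,5),(7,9),(1,1),(7,1),(1,1),(11,0),(0,0)]⟩
  ⟨10,[(0,7),(11,1),(15,3),(1,3),(8,19),(1,1)]⟩),.k,.k,.k,⟨true,0,⟨19,[(0,5),(11,1),(5,0),(0,0),(8,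
  1),(1,5),(10,0)]⟩,⟨0,[]⟩⟩,⟨false,1,⟨0,[(15,0),(24,0)]⟩,⟨0,[(29,0)]⟩⟩,⟨false,0,⟨10,[(0,5),(11,6),
  (15,2),(1,2),(8,3),(1,6)]⟩,⟨3,[(7,1),(0,1),(31,0),(0,0)]⟩⟩,⟨true,0,⟨10,[(3,0),(2,0),(3,1),(1,1),
  (15,4),(3,2),(6,8),(1,2)]⟩,⟨0,[(14,0)]⟩⟩,⟨false,0,⟨0,[]⟩,⟨0,[]⟩⟩,⟨false,0,⟨0,[]⟩,⟨0,[]⟩⟩,[.o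
  ⟨false,0,⟨3,[(3,1),(29,0),(7,0)]⟩,⟨1,[(13,0),(3,1),(18,0)]⟩⟩,.o ⟨false,1,⟨7,[(3,1),(24,3),(4,2),
  (7,6)]⟩,⟨0,[(27,0)]⟩⟩,.a ⟨true,0,⟨19,[(0,5),(11,1),(5,0),(0,0),(8,1),(1,5),(10,0)]⟩,⟨5,[(6,0),(3,
  1),(15,3),(4,0),(0,3)]⟩⟩ ⟨false,0,⟨15,[(0,7),(4,1),(0,0),(3,1),(1,7),(3,5),(14,0),(0,3),(8,7)]⟩,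
  ⟨3,[(8,0),(8,1),(18,0),(2,0),(0,0)]⟩⟩ ⟨true,0,⟨41,[(3,19),(2,3),(3,7),(15,15),(1,1),(3,11),(7,8),
  (0,10)]⟩,⟨2,[(0,1),(26,0),(8,0)]⟩⟩,.o ⟨false,0,⟨3,[(0,3),(2,1),(29,0),(7,0)]⟩,⟨0,[(40,
  0)]⟩⟩]⟩)))))))))))))) (.K ⟨0,[0,1,-1],0,0,(⟨0,[(8,0)]⟩,⟨0,[(19,0),(1,0)]⟩),.k,.k,(.r 0 ⟨1,[(3,1),
  (12,2),(0,2),(8,5)]⟩ ⟨3,[(0,3),(0,5),(1,1),(9,1),(6,0),(7,2)]⟩),(.r 0 ⟨1,[(3,3),(12,2),(0,2),(8,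
  5)]⟩ ⟨0,[(0,0),(0,0),(12,0),(13,0)]⟩),.k,[⟨0,[(0,0)]⟩,⟨1,[(16,2),(0,0)]⟩,⟨0,[(1,0)]⟩,⟨0,[(15,0),
  (10,0)]⟩]⟩))))

theorem ok8 : chk K t8 r2 = true := by decide +kernel

noncomputable def t11 : Tre :=
  (.R ⟨2,true,false,true,[0,1],[1,-1],[0,1,0,-1],(⟨0,[]⟩,⟨0,[]⟩),(⟨0,[(16,0)]⟩,⟨0,[(17,0)]⟩),⟨0,[]⟩,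
  .k,.k,.k,(.r 0 ⟨0,[(11,0),(0,0),(8,1)]⟩ ⟨0,[(19,1),(3,0)]⟩),.k,.k,⟨true,0,⟨1,[(11,0),(0,0)]⟩,⟨0,
  []⟩⟩,⟨false,1,⟨1,[(4,0),(0,0),(5,0),(0,0),(2,0)]⟩,⟨0,[(0,0),(18,1),(3,0)]⟩⟩,⟨false,1,⟨0,[(19,0),
  (0,0),(2,0)]⟩,⟨1,[(0,1),(10,0),(0,0),(2,0),(7,0)]⟩⟩,⟨true,1,⟨1,[(15,0),(4,3),(2,0)]⟩,⟨0,[(0,0)]⟩⟩,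
  ⟨true,0,⟨0,[(19,0)]⟩,⟨1,[(11,0),(0,0),(8,1)]⟩⟩,⟨false,1,⟨1,[(15,0),(4,1),(2,0)]⟩,⟨1,[(0,0),(12,0),
  (0,0),(8,0)]⟩⟩,[]⟩)

theorem ok11 : chk K t11 r0 = true := by decide +kernel

noncomputable def t3 : Tre :=
  .Q [0,0,0,1,0,0,1,1,0,0,-1] (.p false [0,0,1] [] (⟨0,[(18,0)]⟩,⟨0,[(17,0)]⟩) .k 0 (⟨0,[]⟩,⟨0,[]⟩)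
  .k .k) t1 t2

theorem ok3 : chk K t3 l4 = true :=
  chk_Q (e' := [0,0,0,-1,0,0,-1,-1,0,0,1]) (by decide +kernel) (by decide +kernel) ok1 ok2

noncomputable def t5 : Tre :=
  .I [0,0,1,1,0,0,0,1] t3 t4

theorem ok5 : chk K t5 l3 = true :=
  chk_I (e' := [1,0,-1,-1,0,0,0,-1]) (by decide +kernel) (by decide +kernel) ok3 ok4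

noncomputable def t7 : Tre :=
  .I [0,-1,-1,0,1,0,0,-1] t5 t6

theorem ok7 : chk K t7 l2 = true :=
  chk_I (e' := [1,1,1,0,-1,0,0,1]) (by decide +kernel) (by decide +kernel) ok5 ok6

noncomputable def t9 : Tre :=
  .I [1,0,1,1,0,0,0,1] t7 t8

theorem ok9 : chk K t9 r1 = true :=
  chk_I (e' := [0,0,-1,-1,0,0,0,-1]) (by decide +kernel) (by decide +kernel) ok7 ok8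

noncomputable def t10 : Tre :=
  .I [0,1,0,0,-1,0,0,-1] t0 t9

theorem ok10 : chk K t10 l0 = true :=
  chk_I (e' := [1,-1,0,0,1,0,0,1]) (by decide +kernel) (by decide +kernel) ok0 ok9

noncomputable def t12 : Tre :=
  .Q [0,0,0,-2,1,0,0,0,0,-1] (.pp true [-1,1]) t10 t11

theorem ok12 : chk K t12 base = true :=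
  chk_Q (e' := [0,0,0,2,-1,0,0,0,0,1]) (by decide +kernel) (by decide +kernel) ok10 ok11

theorem closed {p a b c J l q : ℤ} {D dl : ℝ} {Cl : ℤ → ℤ → ℤ → ℤ → ℝ → Prop}
    (W : World p a b c J (-1) l q D dl Cl) (g : G0 p a b c J D)
    {N X R : ℤ} {I : ℝ} (hk : KCl p l Cl N X R I) (kz : KF a b D (X + (-1 : ℤ) * I) (X + (-1 : ℤ) * I + R) I)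
    {Ne Xe : ℤ} {Ie : ℝ} (he : EFac p (-1) D Cl 1 Ne Xe Ie)
    (hkf : ∀ kf ∈ (kfY (-1) [0,0,0,0,0,0,1,0,0,0,-1]), KOk p l Cl (-1)
      (xv [1, a, b, c, p, J, X, R, Xe] [D, I, Ie]) N kf)
    (h0 : 1 ≤ (c : ℝ))
    (h1 : 1 ≤ (a : ℝ) - (b : ℝ) - (c : ℝ))
    (h2 : 1 ≤ 2 * (a : ℝ) - (b : ℝ))
    (h3 : 0 < -(b : ℝ) + (X : ℝ) + D - I)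
    (h4 : 0 < (J : ℝ) - I)
    (h5 : 0 < -(J : ℝ) + D - I)
    (h6 : 0 < 2 * (X : ℝ) + D - 2 * I) : False := by
  have g1 := g.a2
  have g2 := g.b2
  have g3 := g.pa
  have g4 := g.pb
  have g5 := g.J1
  have g6 := g.JD
  have g7 := g.D2
  have g8 := g.ca
  have g9 := g.ca'
  have k1 := kz.I0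
  have k2 := kz.ID
  have k3 := kz.z1
  have k4 := kz.z2
  have k5 := kz.s1
  have k6 := kz.s2
  have e1 := he.I0
  have e2 := he.ID
  have e3 := he.x0
  have e4 := he.xp
  push_cast at *
  refine (val_E W.toBase hk he (row := [1]) (by simp) (by simp) (kfY (-1) [0,0,0,0,0,0,1,0,0,0,-1])).sound W rfl (Nk := N)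
    (fun kf _ _ => ⟨_, rfl⟩) hkf ?_ ok12
  · simp only [base, List.forall_mem_cons, List.not_mem_nil, false_imp_iff, implies_true,
      and_true, hld, xv, evg_cons, evg_nil, List.map_cons, List.map_nil, List.cons_append,
      List.nil_append, if_true, if_false, Bool.false_eq_true]
    push_cast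
    refine ⟨?_, ?_, ?_, ?_, ?_, ?_, ?_, ?_, ?_, ?_, ?_, ?_, ?_, ?_, ?_, ?_, ?_, ?_, ?_, ?_, ?_, ?_, ?_, ?_, ?_⟩ <;> linarith

end Helper25.S1T.Ypm_1b
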