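import Pool.Agent.Helper25.S1T.Ypm_1c_q

set_option autoImplicit false
set_option linter.all false

namespace Helper25.S1T.Ypm_1c

open Helper25.KG Helper25.KW Helper55.KE Helper11.CT

noncomputable def t14 : Tre :=
  (.R ⟨1,false,false,false,[1,-1],[1,-1,-1],[1,0,1],(⟨0,[(26,0)]⟩,⟨0,[(27,0)]⟩),(⟨0,[(12,0)]⟩,⟨0,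
  [(3,0),(22,0)]⟩),⟨0,[(12,0),(0,0)]⟩,.k,.k,(.r (-1) ⟨1,[(8,1),(23,0),(0,0)]⟩ ⟨3,[(4,2),(1,0),(0,1),
  (23,0),(1,0)]⟩),.k,.k,.k,⟨true,0,⟨0,[(4,0)]⟩,⟨0,[(0,0),(0,0),(6,0)]⟩⟩,⟨false,1,⟨0,[(22,0),(9,0)]⟩,
  ⟨0,[(1,0)]⟩⟩,⟨false,0,⟨0,[(9,0),(0,0),(22,0)]⟩,⟨3,[(8,1),(23,2),(0,0)]⟩⟩,⟨true,0,⟨7,[(0,3),(5,0),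
  (1,2),(11,2),(1,0),(10,0)]⟩,⟨0,[(19,0)]⟩⟩,⟨false,0,⟨1,[(4,0),(1,0),(24,0),(1,0)]⟩,⟨1,[(8,1),(23,
  0),(0,0)]⟩⟩,⟨false,0,⟨0,[(0,0)]⟩,⟨0,[(19,0),(10,0),(2,0)]⟩⟩,[.a ⟨true,0,⟨7,[(0,3),(5,2),(1,8),(11,
  0),(1,2),(10,2)]⟩,⟨0,[(9,0),(9,0),(13,0)]⟩⟩ ⟨false,0,⟨0,[]⟩,⟨1,[(14,0),(0,0),(16,0)]⟩⟩ ⟨true,0,⟨0,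
  [(0,0),(7,0)]⟩,⟨0,[(1,0),(2,0)]⟩⟩,.o ⟨false,1,⟨6,[(0,4),(7,5),(1,2),(9,1),(4,1),(7,4)]⟩,⟨0,[(19,
  0),(11,0)]⟩⟩,.e ⟨true,0,⟨3,[(10,0),(0,0),(10,1)]⟩,⟨3,[(9,1),(15,0),(3,1),(2,0)]⟩⟩ ⟨true,0,⟨0,[(0,
  0),(7,0)]⟩,⟨19,[(4,8),(1,0),(0,3),(3,1),(7,15),(5,0),(5,4)]⟩⟩,.o ⟨false,0,⟨0,[(10,0)]⟩,⟨0,[(32,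
  0)]⟩⟩]⟩)

theorem ok14 : chk K t14 r13 = true := by decide +kernel

noncomputable def t16 : Tre :=
  (.Q [0,1,0,-1,0,0,1,1,0,0,-1] (.p false [0,0,1] [] (⟨0,[(23,0)]⟩,⟨0,[(22,0)]⟩) .k 0 (⟨0,[]⟩,⟨0,
  []⟩) .k .k) (.K ⟨0,[0,-1,1],0,0,(⟨0,[(13,0)]⟩,⟨1,[(3,0),(19,2)]⟩),.k,(.r (-2) ⟨3,[(0,3),(7,1),(13,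
  3),(9,4),(0,2)]⟩ ⟨0,[(6,0)]⟩),.k,.k,.k,[⟨3,[(10,0),(0,0),(10,1)]⟩,⟨0,[(1,0)]⟩,⟨0,[(20,0),(10,0)]⟩,
  ⟨0,[(0,0)]⟩]⟩) (.R ⟨2,true,false,true,[0,1],[0,0,1],[1,1,1],(⟨0,[]⟩,⟨0,[]⟩),(⟨0,[(24,0)]⟩,⟨0,[(23,
  0)]⟩),⟨0,[]⟩,.k,.k,.k,.k,.k,.k,⟨false,0,⟨9,[(0,7),(4,3),(2,1),(1,2),(0,2),(8,1)]⟩,⟨1,[(1,1),(17,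
  1),(12,0),(0,0)]⟩⟩,⟨true,0,⟨0,[(21,0)]⟩,⟨0,[(1,0)]⟩⟩,⟨true,0,⟨0,[(30,0)]⟩,⟨0,[(31,0)]⟩⟩,⟨false,1,
  ⟨0,[(19,0),(10,0),(2,0)]⟩,⟨0,[(0,0)]⟩⟩,⟨false,0,⟨0,[]⟩,⟨1,[(14,0),(0,0),(17,0)]⟩⟩,⟨true,0,⟨0,[(19,
  0)]⟩,⟨7,[(0,3),(5,0),(1,2),(11,2),(1,0),(10,0)]⟩⟩,[]⟩))

theorem ok16 : chk K t16 r12 = true := by decide +kernel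

noncomputable def t19 : Tre :=
  (.R ⟨2,true,false,false,[0,1],[1,0,0,0,-1],[1,1,1],(⟨0,[]⟩,⟨0,[]⟩),(⟨0,[(14,0)]⟩,⟨0,[(15,0)]⟩),⟨0,
  []⟩,.k,.k,.k,(.r 0 ⟨17,[(2,9),(2,7),(2,0),(0,0),(8,1),(7,3)]⟩ ⟨3,[(6,1),(23,0),(0,2)]⟩),.k,.k,
  ⟨true,(-1),⟨6,[(6,3),(0,7),(0,5),(14,0),(2,0)]⟩,⟨0,[(31,0)]⟩⟩,⟨false,1,⟨4,[(0,3),(7,0),(3,0),(13,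
  1)]⟩,⟨3,[(6,1),(0,3),(5,3),(16,0),(0,2)]⟩⟩,⟨true,0,⟨0,[(28,0)]⟩,⟨0,[(29,0)]⟩⟩,⟨false,2,⟨15,[(0,9),
  (5,7),(1,3),(3,5),(10,0),(7,14)]⟩,⟨0,[(7,0),(5,0)]⟩⟩,⟨false,0,⟨0,[]⟩,⟨1,[(12,0),(0,0),(17,0)]⟩⟩,
  ⟨true,1,⟨0,[(0,0)]⟩,⟨0,[(7,0),(5,0),(14,0)]⟩⟩,[]⟩)

theorem ok19 : chk K t19 l15 = true := by decide +kernel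

noncomputable def t20 : Tre :=
  (.S ⟨1,0,[0,0,-1,-1,0,0,0,-1],[1,-1,-1],[0,1,-1,-1,0,0,0,-1],(⟨0,[(13,0)]⟩,⟨0,[(25,0),(2,0)]⟩),⟨0,
  [(4,0)]⟩,.k,(.r (-1) ⟨19,[(0,11),(8,13),(2,3),(8,7),(4,1),(6,6),(0,10)]⟩ ⟨0,[(5,0),(26,0)]⟩),
  ⟨true,0,⟨15,[(5,1),(5,0),(0,0),(8,1),(7,5),(1,1)]⟩,⟨0,[]⟩⟩,⟨false,1,⟨1,[(15,0),(0,0),(17,0)]⟩,⟨0,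
  []⟩⟩,⟨false,0,⟨0,[(32,0)]⟩,⟨0,[(31,0),(2,0)]⟩⟩,⟨true,0,⟨0,[(32,0)]⟩,⟨0,[(31,0)]⟩⟩,[.a ⟨true,0,⟨0,
  [(0,0),(22,0)]⟩,⟨0,[(1,0),(3,0)]⟩⟩ ⟨false,0,⟨3,[(0,3),(9,1),(15,0),(3,1),(2,0)]⟩,⟨1,[(5,1),(27,0),
  (0,0)]⟩⟩ ⟨true,0,⟨0,[(0,0)]⟩,⟨0,[(5,0)]⟩⟩,.o ⟨false,1,⟨1,[(0,1),(22,1),(2,0),(7,0)]⟩,⟨0,[(20,0),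
  (11,0)]⟩⟩,.a ⟨true,0,⟨0,[(23,0)]⟩,⟨0,[(19,0)]⟩⟩ ⟨false,0,⟨0,[(0,0)]⟩,⟨1,[(5,1),(27,0),(0,0)]⟩⟩
  ⟨true,0,⟨0,[(0,0)]⟩,⟨3,[(5,3),(4,1),(15,0),(3,1),(2,0)]⟩⟩,.a ⟨true,0,⟨3,[(11,0),(0,0),(10,5)]⟩,⟨0,
  [(1,0)]⟩⟩ ⟨true,0,⟨3,[(0,3),(9,1),(15,0),(3,1),(2,0)]⟩,⟨0,[(5,0)]⟩⟩ ⟨false,1,⟨1,[(0,1),(32,0),(0,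
  0)]⟩,⟨0,[(5,0)]⟩⟩]⟩)

theorem ok20 : chk K t20 l18 = true := by decide +kernel

noncomputable def t21 : Tre :=
  (.S ⟨1,0,[0,0,0,0,0,0,0,-1],[1,0,-1],[1,1,1],(⟨0,[(25,0)]⟩,⟨0,[(26,0)]⟩),⟨0,[(14,0)]⟩,.k,.k,⟨true,
  0,⟨3,[(1,0),(4,2),(3,1),(19,0)]⟩,⟨0,[(0,0)]⟩⟩,⟨false,1,⟨1,[(16,0),(0,0),(17,0)]⟩,⟨0,[]⟩⟩,⟨false,0,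
  ⟨0,[(1,0)]⟩,⟨15,[(0,9),(9,7),(1,0),(0,2),(8,5),(4,0),(7,14)]⟩⟩,⟨true,0,⟨0,[(33,0)]⟩,⟨0,[(32,0)]⟩⟩,
  [.e ⟨false,0,⟨15,[(6,1),(5,0),(0,0),(8,1),(7,5),(1,1)]⟩,⟨1,[(34,0),(0,0)]⟩⟩ ⟨false,0,⟨0,[(0,0)]⟩,
  ⟨3,[(6,3),(3,1),(23,2),(0,0)]⟩⟩,.o ⟨false,1,⟨1,[(0,1),(23,1),(2,0),(7,0)]⟩,⟨0,[(21,0)]⟩⟩,.o
  ⟨false,1,⟨1,[(24,1),(2,0),(6,0)]⟩,⟨0,[(2,0),(9,0)]⟩⟩,.a ⟨true,0,⟨0,[(24,0)]⟩,⟨0,[(20,0)]⟩⟩ ⟨false,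
  0,⟨0,[]⟩,⟨1,[(16,0),(0,0),(17,0)]⟩⟩ ⟨true,0,⟨0,[(0,0)]⟩,⟨3,[(1,0),(4,2),(3,1),(19,0)]⟩⟩]⟩)

theorem ok21 : chk K t21 l19 = true := by decide +kernel

noncomputable def t22 : Tre :=
  (.S ⟨1,0,[0,0,-1,-1,0,0,0,-1],[1,-1,-1],[0,1,-1,-1,0,0,0,-1],(⟨0,[(15,0)]⟩,⟨0,[(27,0),(2,0)]⟩),⟨0,
  [(6,0)]⟩,.k,(.r (-1) ⟨2,[(3,1),(5,0),(1,3),(11,1),(4,0),(7,2)]⟩ ⟨0,[(7,0),(26,0)]⟩),⟨true,0,⟨15,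
  [(7,1),(5,0),(0,0),(8,1),(7,5),(1,1)]⟩,⟨0,[]⟩⟩,⟨false,1,⟨1,[(17,0),(0,0),(17,0)]⟩,⟨0,[]⟩⟩,⟨false,
  0,⟨0,[(34,0)]⟩,⟨0,[(33,0),(2,0)]⟩⟩,⟨true,0,⟨0,[(34,0)]⟩,⟨0,[(33,0)]⟩⟩,[.o ⟨false,1,⟨3,[(9,0),(1,
  2),(11,2),(1,0),(2,1),(7,2)]⟩,⟨1,[(0,1),(2,1),(24,0),(7,0)]⟩⟩,.a ⟨true,1,⟨3,[(9,0),(1,2),(11,2),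
  (1,0),(10,4)]⟩,⟨0,[(0,0),(2,0)]⟩⟩ ⟨false,1,⟨11,[(3,9),(5,1),(1,7),(11,9),(4,4),(7,8)]⟩,⟨0,[(2,
  0)]⟩⟩ ⟨true,1,⟨3,[(3,1),(5,1),(1,3),(11,1),(4,0),(7,4)]⟩,⟨0,[(0,0)]⟩⟩,.a ⟨true,0,⟨0,[(25,0)]⟩,⟨0,
  [(21,0)]⟩⟩ ⟨true,0,⟨3,[(3,1),(5,1),(1,3),(11,1),(4,0),(7,0)]⟩,⟨0,[(2,0)]⟩⟩ ⟨false,1,⟨3,[(3,1),(5,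
  1),(1,3),(11,1),(4,0),(7,4)]⟩,⟨0,[(2,0)]⟩⟩,.a ⟨true,0,⟨3,[(13,0),(0,0),(10,5)]⟩,⟨0,[(3,0)]⟩⟩
  ⟨false,1,⟨11,[(3,9),(5,1),(1,7),(11,9),(4,4),(7,8)]⟩,⟨0,[(0,0),(35,0)]⟩⟩ ⟨true,1,⟨11,[(3,9),(5,1),
  (1,7),(11,9),(4,4),(7,8)]⟩,⟨0,[(0,0)]⟩⟩]⟩)

theorem ok22 : chk K t22 l20 = true := by decide +kernel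

noncomputable def t23 : Tre :=
  (.Q [0,0,1,0,0,0,0,0,-1,0,0,1] (.p true [0,0,0,0,1] [] (⟨0,[(23,0)]⟩,⟨0,[(22,0)]⟩) .k 0 (⟨0,[]⟩,
  ⟨0,[]⟩) .k .k) (.Q [0,0,0,0,0,-1,0,0,0,1,0,-1] (.ed true [0,1,0,0,1] .k) (.S ⟨1,0,[0,-1],[1,0,0,0,
  -1],[1,0,0,-1],(⟨0,[(24,0)]⟩,⟨0,[(25,0)]⟩),⟨0,[(0,0)]⟩,.k,(.r (-1) ⟨3,[(16,1),(23,0),(0,2)]⟩ ⟨17,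
  [(12,9),(2,7),(2,0),(0,0),(8,1),(7,3)]⟩),⟨true,0,⟨0,[(38,0)]⟩,⟨0,[(39,0)]⟩⟩,⟨false,1,⟨1,[(22,0),
  (0,0),(17,0)]⟩,⟨0,[]⟩⟩,⟨false,0,⟨0,[]⟩,⟨1,[(22,0),(0,0),(17,0)]⟩⟩,⟨true,0,⟨0,[(39,0)]⟩,⟨0,[(38,
  0)]⟩⟩,[.e ⟨false,1,⟨1,[(38,1),(1,0),(0,0)]⟩,⟨0,[(39,0)]⟩⟩ ⟨false,1,⟨1,[(40,0),(0,0)]⟩,⟨15,[(12,1),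
  (5,0),(0,0),(8,1),(7,5),(1,1)]⟩⟩,.o ⟨false,2,⟨0,[(2,0),(38,0)]⟩,⟨0,[(3,0)]⟩⟩,.o ⟨false,1,⟨0,[(2,
  0)]⟩,⟨0,[(23,0)]⟩⟩,.a ⟨true,0,⟨0,[(1,0)]⟩,⟨1,[(10,1),(29,0),(0,0)]⟩⟩ ⟨false,1,⟨3,[(16,1),(23,0),
  (0,2)]⟩,⟨7,[(12,2),(1,0),(0,1),(23,0),(1,0)]⟩⟩ ⟨true,1,⟨1,[(40,0),(0,0)]⟩,⟨0,[(1,0),(1,0)]⟩⟩]⟩)
  (.Q [0,0,2,0,0,0,0,0,-1,-1,0,1] (.p true [0,0,0,0,1] [1] (⟨0,[(25,0)]⟩,⟨0,[(24,0)]⟩) .k 1 (⟨0,[]⟩,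
  ⟨0,[]⟩) .k .k) (.R ⟨0,false,false,true,[1,0,0,0,-1],[0,1],[1,1,1],(⟨0,[(25,0)]⟩,⟨0,[(26,0)]⟩),(⟨0,
  [(36,0)]⟩,⟨0,[(35,0)]⟩),⟨0,[(1,0)]⟩,.k,.k,(.r (-1) ⟨3,[(17,1),(23,0),(0,2)]⟩ ⟨17,[(13,9),(2,7),(2,
  0),(0,0),(8,1),(7,3)]⟩),(.r (-1) ⟨3,[(17,1),(23,0),(0,2)]⟩ ⟨17,[(13,9),(2,7),(2,0),(0,0),(8,1),(7,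
  3)]⟩),.k,.k,⟨false,1,⟨1,[(39,1),(1,0),(0,0)]⟩,⟨0,[(40,0)]⟩⟩,⟨true,0,⟨1,[(11,1),(29,0),(0,0)]⟩,⟨0,
  [(0,0)]⟩⟩,⟨true,(-1),⟨0,[(2,0),(1,0)]⟩,⟨1,[(41,0),(0,0)]⟩⟩,⟨false,(-1),⟨0,[(18,0),(5,0)]⟩,⟨3,[(0,
  0),(2,2),(13,1),(24,4)]⟩⟩,⟨false,0,⟨0,[]⟩,⟨0,[]⟩⟩,⟨false,0,⟨0,[]⟩,⟨0,[]⟩⟩,[.a ⟨true,(-1),⟨0,[(18,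
  0)]⟩,⟨0,[(39,0),(2,0)]⟩⟩ ⟨false,0,⟨15,[(13,1),(5,0),(0,0),(8,1),(7,5),(1,1)]⟩,⟨1,[(41,0),(0,0)]⟩⟩
  ⟨true,(-1),⟨0,[(18,0),(5,0)]⟩,⟨3,[(0,2),(2,0),(13,1),(24,2)]⟩⟩,.o ⟨false,0,⟨0,[(40,0)]⟩,⟨1,[(34,
  0),(4,1),(2,0)]⟩⟩,.o ⟨false,1,⟨0,[(3,0)]⟩,⟨0,[(24,0)]⟩⟩,.e ⟨false,0,⟨0,[]⟩,⟨1,[(23,0),(0,0),(17,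
  0)]⟩⟩ ⟨false,0,⟨1,[(18,1),(5,1),(16,0),(0,0)]⟩,⟨3,[(0,2),(2,0),(13,1),(24,2)]⟩⟩]⟩) (.Q [0,1,1,-1,
  0,0,0,0,-1,-1,0,1] (.p true [0,0,0,0,1] [1] (⟨0,[(26,0)]⟩,⟨0,[(25,0)]⟩) .k 1 (⟨0,[]⟩,⟨0,[]⟩) .k
  .k) (.R ⟨0,false,false,false,[1,0,0,0,-1],[0,1],[1,0,1,1],(⟨0,[(26,0)]⟩,⟨0,[(27,0)]⟩),(⟨0,[(37,
  0)]⟩,⟨0,[(36,0)]⟩),⟨0,[(2,0)]⟩,.k,.k,(.r (-1) ⟨3,[(18,1),(23,0),(0,2)]⟩ ⟨17,[(14,9),(2,7),(2,0),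
  (0,0),(8,1),(7,3)]⟩),(.r (-1) ⟨3,[(18,1),(23,0),(0,2)]⟩ ⟨17,[(14,9),(2,7),(2,0),(0,0),(8,1),(7,
  3)]⟩),.k,.k,⟨true,0,⟨0,[]⟩,⟨3,[(20,0),(0,0),(10,1)]⟩⟩,⟨false,0,⟨0,[(1,0)]⟩,⟨1,[(4,0),(15,0),(3,
  0)]⟩⟩,⟨false,0,⟨7,[(14,2),(1,0),(0,1),(23,0),(1,0)]⟩,⟨3,[(18,1),(23,0),(0,2)]⟩⟩,⟨true,(-1),⟨3,[(1,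
  1),(3,0),(6,0),(1,0),(1,0),(2,0)]⟩,⟨2,[(0,0),(3,1),(13,0),(24,0)]⟩⟩,⟨false,0,⟨0,[]⟩,⟨0,[]⟩⟩,
  ⟨false,0,⟨0,[]⟩,⟨0,[]⟩⟩,[.o ⟨false,0,⟨0,[(41,0)]⟩,⟨1,[(35,0),(4,1),(2,0)]⟩⟩,.a ⟨true,0,⟨0,[(19,0),
  (23,0)]⟩,⟨0,[(40,0)]⟩⟩ ⟨false,1,⟨2,[(14,0),(2,0),(23,0),(0,0),(0,1)]⟩,⟨0,[(39,0)]⟩⟩ ⟨true,0,⟨2,
  [(1,1),(10,0),(1,0),(1,0),(26,1)]⟩,⟨0,[(0,0)]⟩⟩,.o ⟨false,1,⟨0,[(4,0)]⟩,⟨0,[(25,0)]⟩⟩,.e ⟨true,0,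
  ⟨0,[(41,0)]⟩,⟨0,[(40,0)]⟩⟩ ⟨true,0,⟨7,[(1,7),(12,2),(1,0),(0,1),(23,0),(1,0)]⟩,⟨0,[(0,0)]⟩⟩]⟩)
  (.R ⟨0,false,false,false,[1,0,0,0,-1],[0,1],[1,0,1,1],(⟨0,[(26,0)]⟩,⟨0,[(27,0)]⟩),(⟨0,[(37,0)]⟩,
  ⟨0,[(36,0)]⟩),⟨0,[(2,0)]⟩,.k,.k,(.r (-1) ⟨3,[(18,1),(23,0),(0,2)]⟩ ⟨17,[(14,9),(2,7),(2,0),(0,0),
  (8,1),(7,3)]⟩),(.r (-1) ⟨3,[(18,1),(23,0),(0,2)]⟩ ⟨17,[(14,9),(2,7),(2,0),(0,0),(8,1),(7,3)]⟩),.k,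
  .k,⟨true,0,⟨0,[]⟩,⟨3,[(20,0),(0,0),(10,1)]⟩⟩,⟨false,0,⟨0,[(1,0)]⟩,⟨1,[(4,0),(15,0),(3,0)]⟩⟩,
  ⟨false,0,⟨21,[(0,1),(13,7),(1,3),(0,3),(6,1),(10,0),(7,0)]⟩,⟨3,[(18,1),(23,0),(0,2)]⟩⟩,⟨true,(-1),
  ⟨21,[(0,7),(4,6),(6,6),(1,2),(1,0),(0,1),(1,6)]⟩,⟨3,[(3,1),(0,1),(13,1),(16,0),(7,0)]⟩⟩,⟨false,0,
  ⟨0,[]⟩,⟨0,[]⟩⟩,⟨false,0,⟨0,[]⟩,⟨0,[]⟩⟩,[.o ⟨false,0,⟨0,[(41,0)]⟩,⟨1,[(35,0),(4,1),(2,0)]⟩⟩,.e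
  ⟨false,1,⟨10,[(0,5),(13,1),(1,0),(0,0),(6,5),(10,2),(7,2)]⟩,⟨0,[(39,0)]⟩⟩ ⟨false,0,⟨0,[(0,0)]⟩,⟨0,
  [(4,0),(35,0)]⟩⟩,.o ⟨false,1,⟨0,[(4,0)]⟩,⟨0,[(25,0)]⟩⟩,.a ⟨true,0,⟨0,[(3,0)]⟩,⟨3,[(1,2),(19,0),(3,
  0),(6,1)]⟩⟩ ⟨true,0,⟨0,[(41,0)]⟩,⟨0,[(40,0)]⟩⟩ ⟨false,0,⟨0,[(0,0)]⟩,⟨7,[(3,1),(0,2),(13,3),(1,4),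
  (3,2),(18,1)]⟩⟩]⟩)))) (.Q [0,0,0,0,0,-1,0,0,0,0,0,1] (.ed false [1,-1,0,0,1] .k) (.S ⟨1,0,[0,1],
  [0,0,0,0,1],[0,2],(⟨0,[(25,0)]⟩,⟨0,[(24,0)]⟩),⟨0,[(0,0)]⟩,.k,(.r 0 ⟨0,[(37,0)]⟩ ⟨3,[(12,1),(2,1),
  (6,0),(0,0),(17,2)]⟩),⟨true,0,⟨15,[(12,1),(5,0),(0,0),(8,1),(7,5),(1,1)]⟩,⟨0,[]⟩⟩,⟨false,1,⟨1,
  [(22,0),(0,0),(17,0)]⟩,⟨0,[]⟩⟩,⟨false,0,⟨0,[(39,0)]⟩,⟨0,[(38,0),(2,0)]⟩⟩,⟨true,0,⟨0,[(39,0)]⟩,⟨0,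
  [(38,0)]⟩⟩,[.e ⟨false,0,⟨0,[(36,0)]⟩,⟨0,[(41,0)]⟩⟩ ⟨false,0,⟨3,[(17,1),(15,0),(3,1),(2,0)]⟩,⟨1,
  [(22,0),(0,0),(17,0)]⟩⟩,.o ⟨false,0,⟨0,[(23,0)]⟩,⟨0,[(2,0)]⟩⟩,.o ⟨false,0,⟨0,[(23,0)]⟩,⟨0,[(2,
  0)]⟩⟩,.a ⟨true,(-1),⟨0,[(1,0),(2,0),(25,0)]⟩,⟨0,[(9,0)]⟩⟩ ⟨false,0,⟨3,[(17,1),(15,0),(3,1),(2,
  0)]⟩,⟨3,[(18,0),(0,0),(10,1),(10,3)]⟩⟩ ⟨true,0,⟨3,[(17,1),(15,0),(3,1),(2,0)]⟩,⟨3,[(18,0),(0,0),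
  (10,1)]⟩⟩]⟩) (.Q [0,0,0,-1,1,0,0,0,-1,-1,0,1] (.p true [0,0,0,0,1] [1] (⟨0,[(25,0)]⟩,⟨0,[(24,
  0)]⟩) .k 1 (⟨0,[]⟩,⟨0,[]⟩) .k .k) (.S ⟨1,0,[],[1,0,0,0,-1],[0,-1],(⟨0,[(25,0)]⟩,⟨0,[(26,0)]⟩),⟨1,
  [(1,0),(10,0),(9,0),(2,0)]⟩,.k,(.r (-1) ⟨3,[(17,1),(23,0),(0,2)]⟩ ⟨17,[(13,9),(2,7),(2,0),(0,0),
  (8,1),(7,3)]⟩),⟨false,1,⟨1,[(23,0),(0,0),(17,0)]⟩,⟨0,[]⟩⟩,⟨true,0,⟨15,[(13,1),(5,0),(0,0),(8,1),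
  (7,5),(1,1)]⟩,⟨0,[]⟩⟩,⟨true,0,⟨0,[(40,0)]⟩,⟨0,[(39,0)]⟩⟩,⟨false,0,⟨0,[(40,0)]⟩,⟨0,[(39,0),(2,
  0)]⟩⟩,[.o ⟨false,1,⟨0,[(3,0)]⟩,⟨0,[(24,0)]⟩⟩,.a ⟨true,1,⟨0,[(0,0),(17,0),(23,0)]⟩,⟨0,[(11,0)]⟩⟩
  ⟨true,1,⟨0,[(42,0)]⟩,⟨2,[(0,0),(3,0),(12,0),(0,2),(0,1)]⟩⟩ ⟨false,1,⟨1,[(41,0),(0,0)]⟩,⟨15,[(13,
  1),(5,0),(0,0),(8,1),(7,5),(1,1)]⟩⟩,.o ⟨false,1,⟨0,[(3,0)]⟩,⟨0,[(24,0)]⟩⟩,.o ⟨false,1,⟨1,[(3,0),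
  (15,0),(3,0)]⟩,⟨0,[(2,0)]⟩⟩]⟩) (.R ⟨1,false,false,false,[1,0,0,0,-1],[0,1],[0,-1],(⟨0,[(25,0)]⟩,
  ⟨0,[(26,0)]⟩),(⟨0,[(36,0)]⟩,⟨0,[(35,0)]⟩),⟨1,[(1,0),(10,0),(9,0),(2,0)]⟩,.k,.k,(.r (-1) ⟨3,[(17,
  1),(23,0),(0,2)]⟩ ⟨17,[(13,9),(2,7),(2,0),(0,0),(8,1),(7,3)]⟩),(.r (-1) ⟨3,[(17,1),(23,0),(0,2)]⟩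
  ⟨17,[(13,9),(2,7),(2,0),(0,0),(8,1),(7,3)]⟩),(.r (-2) ⟨3,[(17,1),(21,3),(1,2),(0,4)]⟩ ⟨3,[(3,0),
  (0,0),(3,1),(6,1),(2,1),(0,0)]⟩),.k,⟨true,1,⟨3,[(17,1),(23,0),(0,2)]⟩,⟨0,[(18,0),(0,0)]⟩⟩,⟨false,
  0,⟨3,[(0,3),(16,1),(23,2),(0,0)]⟩,⟨1,[(3,0),(15,0),(3,0)]⟩⟩,⟨false,1,⟨1,[(23,0),(0,0),(17,0)]⟩,⟨0,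
  []⟩⟩,⟨false,(-1),⟨0,[(0,0)]⟩,⟨3,[(3,0),(13,1),(1,0),(3,2),(10,0),(7,2)]⟩⟩,⟨true,0,⟨0,[(40,0)]⟩,⟨0,
  [(39,0)]⟩⟩,⟨false,(-1),⟨0,[(0,0),(39,0)]⟩,⟨1,[(3,0),(13,1),(1,0),(3,0),(18,1)]⟩⟩,[.o ⟨false,0,⟨0,
  [(40,0)]⟩,⟨1,[(34,0),(4,1),(2,0)]⟩⟩,.a ⟨true,0,⟨0,[(18,0),(23,0)]⟩,⟨0,[(39,0)]⟩⟩ ⟨true,1,⟨0,[(42,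
  0)]⟩,⟨3,[(3,0),(0,0),(12,1),(0,3),(0,2)]⟩⟩ ⟨false,0,⟨1,[(0,1),(40,0),(0,0)]⟩,⟨0,[(3,0),(35,0)]⟩⟩,
  .o ⟨false,1,⟨0,[(3,0)]⟩,⟨0,[(24,0)]⟩⟩,.o ⟨false,1,⟨1,[(3,0),(15,0),(3,0)]⟩,⟨0,[(2,0)]⟩⟩]⟩))))

theorem ok23 : chk K t23 l23 = true := by decide +kernel

noncomputable def t24 : Tre :=
  (.S ⟨1,0,[0,-1],[1,0,0,0,-1],[],(⟨0,[(25,0)]⟩,⟨0,[(26,0)]⟩),⟨0,[(0,0)]⟩,.k,(.r (-1) ⟨3,[(17,1),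
  (23,0),(0,2)]⟩ ⟨17,[(13,9),(2,7),(2,0),(0,0),(8,1),(7,3)]⟩),⟨true,0,⟨15,[(13,1),(5,0),(0,0),(8,1),
  (7,5),(1,1)]⟩,⟨0,[]⟩⟩,⟨false,1,⟨1,[(23,0),(0,0),(17,0)]⟩,⟨0,[]⟩⟩,⟨false,0,⟨0,[(40,0)]⟩,⟨0,[(39,0),
  (2,0)]⟩⟩,⟨true,0,⟨0,[(40,0)]⟩,⟨0,[(39,0)]⟩⟩,[.o ⟨false,2,⟨1,[(23,1),(10,0),(7,0)]⟩,⟨0,[(2,0)]⟩⟩,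
  .a ⟨true,2,⟨0,[(23,0),(18,0)]⟩,⟨0,[(1,0)]⟩⟩ ⟨false,1,⟨1,[(41,0),(0,0)]⟩,⟨15,[(13,1),(5,0),(0,0),
  (8,1),(7,5),(1,1)]⟩⟩ ⟨true,1,⟨0,[(42,0)]⟩,⟨6,[(17,3),(0,7),(0,5),(14,0),(2,0)]⟩⟩,.e ⟨false,1,⟨1,
  [(23,0),(0,0),(17,0)]⟩,⟨0,[]⟩⟩ ⟨false,1,⟨0,[(42,0)]⟩,⟨15,[(13,1),(5,0),(0,0),(8,1),(7,5),(1,1)]⟩⟩,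
  .o ⟨false,1,⟨0,[(10,0),(8,0)]⟩,⟨1,[(2,1),(38,0),(0,0)]⟩⟩]⟩)

theorem ok24 : chk K t24 l26 = true := by decide +kernel

noncomputable def t25 : Tre :=
  (.R ⟨0,false,false,true,[1,0,0,0,-1],[0,-1,1],[],(⟨0,[(26,0)]⟩,⟨0,[(27,0)]⟩),(⟨0,[(23,0)]⟩,⟨0,
  [(33,0),(3,0)]⟩),⟨0,[(1,0)]⟩,.k,.k,(.r (-1) ⟨3,[(18,1),(23,0),(0,2)]⟩ ⟨17,[(14,9),(2,7),(2,0),(0,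
  0),(8,1),(7,3)]⟩),(.r 0 ⟨31,[(6,1),(0,7),(8,19),(3,2),(0,0),(8,3),(12,13)]⟩ ⟨0,[(8,0),(31,0),(1,
  0)]⟩),.k,.k,⟨true,0,⟨31,[(6,1),(0,7),(8,19),(3,2),(0,0),(8,3),(12,13)]⟩,⟨0,[(9,0),(8,0)]⟩⟩,⟨false,
  (-1),⟨4,[(3,3),(0,0),(1,1),(3,0),(10,0),(21,1)]⟩,⟨1,[(11,1),(20,1),(2,0),(6,0)]⟩⟩,⟨true,0,⟨15,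
  [(14,1),(5,0),(0,0),(8,1),(7,5),(1,1)]⟩,⟨0,[]⟩⟩,⟨false,(-1),⟨0,[(4,0),(3,0),(6,0)]⟩,⟨0,[(0,0),(42,
  0)]⟩⟩,⟨false,0,⟨0,[]⟩,⟨0,[]⟩⟩,⟨false,0,⟨0,[]⟩,⟨0,[]⟩⟩,[.o ⟨false,0,⟨0,[(8,0),(6,0)]⟩,⟨0,[(0,0),(2,
  0),(39,0)]⟩⟩,.e ⟨false,1,⟨1,[(42,0),(0,0)]⟩,⟨15,[(14,1),(5,0),(0,0),(8,1),(7,5),(1,1)]⟩⟩ ⟨false,0,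
  ⟨1,[(4,0),(3,0),(1,0),(7,0),(6,0),(3,0),(13,0)]⟩,⟨0,[(0,0)]⟩⟩,.a ⟨true,1,⟨0,[(24,0)]⟩,⟨0,[(4,
  0)]⟩⟩ ⟨false,1,⟨1,[(24,0),(0,0),(17,0)]⟩,⟨0,[]⟩⟩ ⟨true,(-1),⟨0,[(4,0),(3,0),(6,0)]⟩,⟨0,[(0,0)]⟩⟩,
  .o ⟨false,1,⟨0,[(11,0),(8,0)]⟩,⟨1,[(3,1),(38,0),(0,0)]⟩⟩]⟩)

theorem ok25 : chk K t25 l27 = true := by decide +kernel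

noncomputable def t26 : Tre :=
  (.R ⟨0,false,false,true,[1,0,0,0,-1],[0,-1,1],[],(⟨0,[(27,0)]⟩,⟨0,[(28,0)]⟩),(⟨0,[(24,0)]⟩,⟨0,
  [(34,0),(3,0)]⟩),⟨0,[(2,0)]⟩,.k,.k,(.r (-1) ⟨3,[(19,1),(23,0),(0,2)]⟩ ⟨17,[(15,9),(2,7),(2,0),(0,
  0),(8,1),(7,3)]⟩),(.r 0 ⟨31,[(7,1),(0,7),(8,19),(3,2),(0,0),(8,3),(12,13)]⟩ ⟨0,[(9,0),(31,0),(1,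
  0)]⟩),.k,.k,⟨true,0,⟨31,[(7,1),(0,7),(8,19),(3,2),(0,0),(8,3),(12,13)]⟩,⟨0,[(9,0),(30,0)]⟩⟩,
  ⟨false,(-1),⟨5,[(1,2),(2,0),(0,0),(2,0),(2,0),(5,1),(4,0),(3,0)]⟩,⟨1,[(12,1),(20,1),(2,0),(6,
  0)]⟩⟩,⟨true,0,⟨15,[(15,1),(5,0),(0,0),(8,1),(7,5),(1,1)]⟩,⟨0,[]⟩⟩,⟨false,(-1),⟨14,[(1,12),(4,0),
  (6,0),(1,1),(6,0),(16,3),(1,3)]⟩,⟨0,[(0,0)]⟩⟩,⟨false,0,⟨0,[]⟩,⟨0,[]⟩⟩,⟨false,0,⟨0,[]⟩,⟨0,[]⟩⟩,[.o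
  ⟨false,0,⟨0,[(9,0),(6,0)]⟩,⟨0,[(0,0),(3,0)]⟩⟩,.a ⟨true,0,⟨0,[(1,0),(23,0)]⟩,⟨0,[(0,0),(2,0)]⟩⟩
  ⟨false,1,⟨1,[(43,0),(0,0)]⟩,⟨15,[(15,1),(5,0),(0,0),(8,1),(7,5),(1,1)]⟩⟩ ⟨true,(-1),⟨0,[(1,0)]⟩,
  ⟨9,[(0,1),(11,7),(4,4),(1,0),(1,1),(9,2),(1,4),(2,2)]⟩⟩,.e ⟨false,1,⟨1,[(25,0),(0,0),(17,0)]⟩,⟨0,
  []⟩⟩ ⟨false,(-1),⟨0,[(1,0)]⟩,⟨10,[(0,8),(14,0),(2,0),(6,2),(0,0),(4,1),(4,0),(2,1)]⟩⟩,.o ⟨false,1,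
  ⟨0,[(12,0),(8,0)]⟩,⟨1,[(4,1),(38,0),(0,0)]⟩⟩]⟩)

theorem ok26 : chk K t26 l28 = true := by decide +kernel

noncomputable def t27 : Tre :=
  (.R ⟨0,false,false,false,[1,0,0,0,-1],[0,1,1],[],(⟨0,[(29,0)]⟩,⟨0,[(30,0)]⟩),(⟨0,[(37,0),(2,0)]⟩,
  ⟨0,[(25,0)]⟩),⟨0,[(4,0)]⟩,.k,.k,(.r (-1) ⟨3,[(21,1),(23,0),(0,2)]⟩ ⟨17,[(17,9),(2,7),(2,0),(0,0),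
  (8,1),(7,3)]⟩),(.r (-1) ⟨23,[(9,1),(0,15),(10,3),(1,4),(0,2),(8,7),(12,9)]⟩ ⟨1,[(12,0),(4,0),(23,
  0)]⟩),.k,.k,⟨false,1,⟨15,[(10,11),(13,1),(8,3),(4,0),(2,1),(1,3),(1,2)]⟩,⟨0,[(12,0)]⟩⟩,⟨true,(-1),
  ⟨0,[(0,0)]⟩,⟨0,[(14,0),(8,0),(11,0)]⟩⟩,⟨true,0,⟨15,[(17,1),(5,0),(0,0),(8,1),(7,5),(1,1)]⟩,⟨0,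
  []⟩⟩,⟨false,(-1),⟨0,[(0,0),(11,0)]⟩,⟨0,[(10,0),(3,0),(8,0),(11,0)]⟩⟩,⟨false,0,⟨0,[]⟩,⟨0,[]⟩⟩,
  ⟨false,0,⟨0,[]⟩,⟨0,[]⟩⟩,[.o ⟨false,0,⟨1,[(1,1),(36,0),(7,0)]⟩,⟨2,[(10,0),(10,0),(1,0),(9,1),(1,0),
  (2,0),(7,0)]⟩⟩,.e ⟨false,1,⟨1,[(45,0),(0,0)]⟩,⟨15,[(17,1),(5,0),(0,0),(8,1),(7,5),(1,1)]⟩⟩ ⟨false,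
  0,⟨1,[(0,1),(11,1),(32,0),(0,0)]⟩,⟨4,[(10,0),(3,4),(4,2),(1,4),(1,0),(9,0),(1,3),(2,1)]⟩⟩,.a
  ⟨true,1,⟨0,[(27,0)]⟩,⟨0,[(7,0)]⟩⟩ ⟨false,1,⟨1,[(27,0),(0,0),(17,0)]⟩,⟨0,[]⟩⟩ ⟨true,(-1),⟨0,[(0,0),
  (11,0)]⟩,⟨4,[(10,0),(3,4),(4,2),(1,4),(1,0),(9,0),(1,3),(2,1)]⟩⟩,.o ⟨false,1,⟨0,[(14,0),(8,0)]⟩,
  ⟨1,[(6,1),(38,0),(0,0)]⟩⟩]⟩)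

theorem ok27 : chk K t27 l30 = true := by decide +kernel

noncomputable def t28 : Tre :=
  (.R ⟨2,true,false,false,[0,1],[1,0,-1],[1,0,1],(⟨0,[]⟩,⟨0,[]⟩),(⟨0,[(37,0)]⟩,⟨0,[(38,0)]⟩),⟨0,[]⟩,
  .k,.k,.k,.k,.k,.k,⟨true,0,⟨0,[(12,0)]⟩,⟨9,[(11,3),(8,3),(1,1),(1,0),(0,0),(8,1)]⟩⟩,⟨false,1,⟨1,
  [(36,1),(2,0),(6,0)]⟩,⟨0,[(32,0)]⟩⟩,⟨false,1,⟨0,[(44,0),(2,0)]⟩,⟨0,[(45,0)]⟩⟩,⟨true,1,⟨0,[(0,0),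
  (43,0)]⟩,⟨0,[(2,0)]⟩⟩,⟨true,0,⟨0,[]⟩,⟨15,[(18,1),(5,0),(0,0),(8,1),(7,5),(1,1)]⟩⟩,⟨false,1,⟨0,[(0,
  0)]⟩,⟨0,[(12,0),(19,0)]⟩⟩,[]⟩)

theorem ok28 : chk K t28 l31 = true := by decide +kernel

noncomputable def t29 : Tre :=
  (.S ⟨1,0,[0,0,-1,-1,0,0,0,-1],[1,-1,-1],[1,1,-1,-2,0,0,0,-1],(⟨0,[(27,0)]⟩,⟨0,[(39,0),(2,0)]⟩),⟨0,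
  [(18,0)]⟩,.k,(.r (-1) ⟨0,[(12,0),(32,0)]⟩ ⟨6,[(0,4),(18,2),(2,0),(20,1)]⟩),⟨true,0,⟨0,[(45,0)]⟩,
  ⟨0,[(46,0)]⟩⟩,⟨false,1,⟨1,[(29,0),(0,0),(17,0)]⟩,⟨0,[]⟩⟩,⟨false,0,⟨0,[]⟩,⟨1,[(29,0),(0,0),(17,
  0)]⟩⟩,⟨true,0,⟨0,[(46,0)]⟩,⟨0,[(45,0)]⟩⟩,[.o ⟨false,1,⟨2,[(12,0),(10,0),(1,0),(9,1),(1,0),(2,0),
  (7,0)]⟩,⟨1,[(0,0),(0,0),(13,0),(24,0)]⟩⟩,.e ⟨false,1,⟨0,[(12,0),(32,0)]⟩,⟨3,[(0,1),(13,1),(9,1),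
  (15,0),(6,0)]⟩⟩ ⟨false,1,⟨0,[(12,0)]⟩,⟨1,[(14,0),(4,0),(23,0)]⟩⟩,.a ⟨true,0,⟨0,[(37,0)]⟩,⟨0,[(33,
  0)]⟩⟩ ⟨true,0,⟨9,[(12,3),(8,3),(1,11),(1,0),(0,0),(8,1)]⟩,⟨3,[(0,1),(13,1),(9,1),(15,0),(6,0)]⟩⟩
  ⟨false,1,⟨23,[(11,1),(0,15),(10,3),(1,4),(0,2),(8,7),(12,9)]⟩,⟨0,[(14,0)]⟩⟩,.e ⟨false,1,⟨0,[(12,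
  0),(32,0)]⟩,⟨0,[(0,0)]⟩⟩ ⟨false,1,⟨0,[(12,0)]⟩,⟨0,[(19,0)]⟩⟩]⟩)

theorem ok29 : chk K t29 l32 = true := by decide +kernel

noncomputable def t30 : Tre :=
  (.R ⟨0,false,false,true,[1,0,0,0,-1],[1,-1,-1],[0,1],(⟨0,[(32,0)]⟩,⟨0,[(33,0)]⟩),(⟨0,[(28,0)]⟩,⟨0,
  [(40,0),(2,0)]⟩),⟨0,[(7,0)]⟩,.k,.k,(.r (-1) ⟨3,[(24,1),(23,0),(0,2)]⟩ ⟨17,[(20,9),(2,7),(2,0),(0,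
  0),(8,1),(7,3)]⟩),(.r (-1) ⟨1,[(20,1),(27,0),(0,0)]⟩ ⟨9,[(1,5),(21,1),(2,0),(0,0),(8,1)]⟩),.k,.k,
  ⟨true,0,⟨0,[(3,0),(1,0),(41,1),(1,0)]⟩,⟨15,[(1,9),(10,4),(9,1),(3,4),(9,3),(1,0),(10,6)]⟩⟩,⟨false,
  0,⟨1,[(9,1),(28,1),(9,0),(0,0)]⟩,⟨7,[(0,2),(0,1),(15,4),(3,0),(0,0),(4,1),(13,0)]⟩⟩,⟨false,0,⟨15,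
  [(20,1),(5,0),(0,0),(8,1),(7,5),(1,1)]⟩,⟨0,[(49,0)]⟩⟩,⟨true,(-1),⟨3,[(1,0),(7,2),(0,0),(13,0),(1,
  0),(9,2),(1,0)]⟩,⟨0,[(0,0)]⟩⟩,⟨false,0,⟨0,[]⟩,⟨0,[]⟩⟩,⟨false,0,⟨0,[]⟩,⟨0,[]⟩⟩,[.e ⟨false,0,⟨3,[(8,
  1),(8,1),(23,0),(6,0)]⟩,⟨1,[(30,0),(0,0),(17,0)]⟩⟩ ⟨false,0,⟨4,[(1,1),(7,1),(3,0),(17,2),(4,1),(1,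
  2),(9,0)]⟩,⟨0,[(0,0)]⟩⟩,.o ⟨false,1,⟨7,[(1,1),(22,1),(1,1),(9,5),(1,1),(2,2),(7,4)]⟩,⟨1,[(4,1),
  (36,0),(7,0)]⟩⟩,.a ⟨true,1,⟨0,[(30,0)]⟩,⟨0,[(10,0)]⟩⟩ ⟨true,0,⟨15,[(20,1),(5,0),(0,0),(8,1),(7,5),
  (1,1)]⟩,⟨0,[]⟩⟩ ⟨false,0,⟨4,[(1,0),(7,0),(0,1),(2,2),(12,1),(4,1),(4,0),(1,3)]⟩,⟨0,[(0,0)]⟩⟩,.o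
  ⟨false,1,⟨0,[(17,0),(8,0)]⟩,⟨1,[(9,1),(38,0),(0,0)]⟩⟩]⟩)

theorem ok30 : chk K t30 l33 = true := by decide +kernel

noncomputable def t31 : Tre :=
  (.R ⟨2,true,false,false,[0,1],[1,1,-1],[1,0,1],(⟨0,[]⟩,⟨0,[]⟩),(⟨0,[(40,0),(3,0)]⟩,⟨0,[(30,0)]⟩),
  ⟨0,[]⟩,.k,.k,.k,.k,.k,.k,⟨false,1,⟨3,[(15,3),(9,1),(23,2),(0,0)]⟩,⟨5,[(0,0),(13,0),(2,0),(5,1),(0,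
  1)]⟩⟩,⟨true,1,⟨1,[(39,1),(2,0),(6,0)]⟩,⟨0,[(13,0)]⟩⟩,⟨false,1,⟨0,[(47,0),(2,0)]⟩,⟨0,[(48,0)]⟩⟩,
  ⟨true,1,⟨1,[(37,1),(4,0),(7,0)]⟩,⟨0,[(3,0)]⟩⟩,⟨true,0,⟨0,[]⟩,⟨15,[(21,1),(5,0),(0,0),(8,1),(7,5),
  (1,1)]⟩⟩,⟨false,1,⟨0,[(0,0)]⟩,⟨0,[(7,0),(23,0)]⟩⟩,[]⟩)

theorem ok31 : chk K t31 l34 = true := by decide +kernel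

noncomputable def t32 : Tre :=
  (.Q [0,0,0,0,0,-2,0,0,0,0,1] (.p true [0,0,1] [] (⟨0,[(42,0)]⟩,⟨0,[(41,0)]⟩) .k 0 (⟨0,[]⟩,⟨0,[]⟩)
  .k .k) (.I [1,0,-2,-1,1,0,0,1] (.I [0,0,-2,0,1,2,1,0,-1] (.Q [0,-1,0,2,1,0,1,1,-1,0,-1,1] (.p
  false [0,0,1] [0,0,0,0,1] (⟨0,[(45,0)]⟩,⟨0,[(44,0)]⟩) .k 2 (⟨0,[(38,0)]⟩,⟨0,[(37,0)]⟩) .k (.r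
  (-1) ⟨1,[(1,0),(23,0),(28,0)]⟩ ⟨4,[(6,0),(21,1),(2,0),(0,0),(8,1)]⟩)) (.R ⟨1,false,false,true,[0,
  0,0,0,1],[0,1,1],[1,1,1,1,0,0,0,1],(⟨0,[(39,0)]⟩,⟨0,[(38,0)]⟩),(⟨0,[(46,0),(2,0)]⟩,⟨0,[(34,0)]⟩),
  ⟨2,[(3,0),(9,0),(11,0),(13,1)]⟩,.k,.k,(.r 0 ⟨0,[(51,0)]⟩ ⟨3,[(26,1),(2,1),(6,0),(0,0),(17,2)]⟩),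
  (.r 0 ⟨9,[(7,5),(21,1),(2,0),(0,0),(8,1)]⟩ ⟨1,[(26,1),(27,0),(0,0)]⟩),(.x 0 ⟨3,[(4,0),(8,3),(11,
  3),(11,4),(1,0),(4,3)]⟩ ⟨0,[(1,0)]⟩),.k,⟨true,0,⟨0,[]⟩,⟨3,[(32,0),(0,0),(10,1)]⟩⟩,⟨false,1,⟨0,[(0,
  0),(6,0)]⟩,⟨0,[(37,0),(6,0)]⟩⟩,⟨true,0,⟨0,[(21,0)]⟩,⟨9,[(7,5),(21,1),(2,0),(0,0),(8,1)]⟩⟩,⟨true,1,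
  ⟨1,[(0,0),(35,0),(4,0)]⟩,⟨0,[(6,0)]⟩⟩,⟨true,0,⟨0,[(21,0),(31,0)]⟩,⟨4,[(7,3),(10,0),(13,0),(9,0),
  (9,1),(2,0)]⟩⟩,⟨false,1,⟨0,[(0,0)]⟩,⟨0,[(6,0),(45,0),(2,0)]⟩⟩,[.e ⟨false,0,⟨3,[(2,0),(18,2),(9,1),
  (15,0),(2,0)]⟩,⟨5,[(7,1),(11,1),(12,0),(0,0),(8,1),(12,3)]⟩⟩ ⟨false,1,⟨1,[(0,0),(22,0),(17,0),(8,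
  0)]⟩,⟨0,[(6,0),(48,0)]⟩⟩,.o ⟨false,0,⟨3,[(0,1),(9,0),(1,0),(2,0),(31,0)]⟩,⟨15,[(6,1),(2,1),(9,1),
  (10,5),(1,3),(9,11),(4,4),(7,8)]⟩⟩,.e ⟨false,0,⟨0,[(21,0)]⟩,⟨5,[(7,1),(11,1),(12,0),(0,0),(8,1),
  (12,3)]⟩⟩ ⟨false,1,⟨1,[(0,0),(35,0),(4,0)]⟩,⟨0,[(6,0),(48,0)]⟩⟩,.a ⟨true,(-1),⟨1,[(16,0),(1,0),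
  (18,0),(6,0)]⟩,⟨0,[(23,0)]⟩⟩ ⟨true,0,⟨3,[(2,0),(18,2),(9,1),(15,0),(2,0)]⟩,⟨26,[(6,0),(0,15),(1,
  0),(8,8),(9,2),(3,7),(9,6),(12,11)]⟩⟩ ⟨false,1,⟨5,[(0,2),(1,0),(7,1),(12,2),(3,0),(19,0)]⟩,⟨3,[(6,
  3),(25,0),(0,0),(10,1),(10,3)]⟩⟩]⟩) (.I [1,-2,-2,-2,2,0,0,1] (.I [1,2,2,2,-2,0,0,-1] (.N [0,-2,1,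
  0,-2] (-2) ⟨0,[(1,0)]⟩ ⟨0,[(0,0)]⟩ (.x (-1) ⟨0,[(3,0),(2,0)]⟩ ⟨3,[(4,1),(3,1),(6,7),(2,3),(20,1),
  (6,1),(0,3),(7,3),(0,2),(0,0)]⟩)) (.I [1,-1,2,2,0,0,0,1] (.N [0,2,1,0,-1] 0 ⟨0,[(0,0)]⟩ ⟨0,[(10,
  0)]⟩ (.x (-1) ⟨0,[(4,0)]⟩ ⟨2,[(0,0),(2,0),(24,2),(6,0),(4,1),(1,2),(4,1),(2,0)]⟩)) (.R ⟨0,false,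
  false,true,[1,0,0,0,-1],[2,0,-1,0,-1],[],(⟨0,[(41,0)]⟩,⟨0,[(42,0)]⟩),(⟨0,[(41,0),(6,0)]⟩,⟨0,[(16,
  0),(21,0)]⟩),⟨0,[(16,0)]⟩,.k,.k,(.r (-1) ⟨17,[(1,5),(1,0),(18,3),(12,0),(0,0),(2,0),(5,0),(12,
  1)]⟩ ⟨17,[(29,9),(2,7),(2,0),(0,0),(8,1),(7,3)]⟩),.k,.k,.k,⟨false,1,⟨1,[(5,0),(23,0),(27,0)]⟩,⟨17,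
  [(3,0),(6,1),(11,5),(8,5),(3,1),(0,1),(2,0),(5,2)]⟩⟩,⟨true,1,⟨1,[(47,1),(2,0),(6,0)]⟩,⟨0,[(21,
  0)]⟩⟩,⟨true,0,⟨15,[(29,1),(5,0),(0,0),(8,1),(7,5),(1,1)]⟩,⟨0,[]⟩⟩,⟨false,1,⟨1,[(45,1),(4,0),(7,
  0)]⟩,⟨1,[(8,0),(4,0),(44,1)]⟩⟩,⟨false,0,⟨0,[]⟩,⟨0,[]⟩⟩,⟨false,0,⟨0,[]⟩,⟨0,[]⟩⟩,[.o ⟨false,2,⟨1,
  [(12,1),(9,0),(9,0),(17,0)]⟩,⟨1,[(13,0),(1,0),(2,0),(39,0)]⟩⟩,.e ⟨false,1,⟨1,[(57,0),(0,0)]⟩,⟨15,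
  [(29,1),(5,0),(0,0),(8,1),(7,5),(1,1)]⟩⟩ ⟨false,2,⟨1,[(45,1),(4,0),(6,0),(0,1)]⟩,⟨0,[(11,0)]⟩⟩,.a
  ⟨true,1,⟨0,[(39,0)]⟩,⟨0,[(19,0)]⟩⟩ ⟨false,1,⟨1,[(39,0),(0,0),(17,0)]⟩,⟨0,[]⟩⟩ ⟨true,1,⟨1,[(45,1),
  (4,0),(7,0)]⟩,⟨0,[(11,0)]⟩⟩,.o ⟨false,1,⟨0,[(26,0),(8,0)]⟩,⟨1,[(18,1),(38,0),(0,0)]⟩⟩]⟩))) (.Q [0,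
  -1,0,2,1,0,-1,-1,0,-1,1] (.p true [0,0,1] [1] (⟨0,[(47,0)]⟩,⟨0,[(46,0)]⟩) .k 1 (⟨0,[]⟩,⟨0,[]⟩) .k
  .k) (.Q [0,0,2,0,-1,0,1,0,0,0,-1] (.p false [0,0,1] [] (⟨0,[(48,0)]⟩,⟨0,[(47,0)]⟩) .k 0 (⟨0,[]⟩,
  ⟨0,[]⟩) .k .k) (.S ⟨1,1,[],[0,-1,1],[1,0,-1,-2,0,0,0,1],(⟨0,[(38,0)]⟩,⟨0,[(48,0),(3,0)]⟩),⟨0,[(6,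
  0)]⟩,.k,(.r (-2) ⟨1,[(5,1),(33,0),(0,0),(14,1),(2,0)]⟩ ⟨0,[(31,0)]⟩),⟨false,1,⟨0,[(55,0),(2,0)]⟩,
  ⟨0,[(56,0)]⟩⟩,⟨true,1,⟨3,[(1,1),(37,0),(0,0),(4,1),(4,0)]⟩,⟨0,[(8,0)]⟩⟩,⟨true,0,⟨0,[]⟩,⟨15,[(29,
  1),(5,0),(0,0),(8,1),(7,5),(1,1)]⟩⟩,⟨false,1,⟨0,[(1,0)]⟩,⟨0,[(8,0),(46,0),(2,0)]⟩⟩,[.fo,.o ⟨false,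
  1,⟨1,[(50,0),(7,0)]⟩,⟨15,[(29,1),(5,0),(0,0),(8,1),(7,5),(1,1)]⟩⟩,.a ⟨true,(-1),⟨0,[(21,0)]⟩,⟨9,
  [(1,1),(3,6),(23,0),(4,1),(10,5),(1,1),(10,2)]⟩⟩ ⟨true,1,⟨1,[(5,0),(17,0),(9,0),(21,0),(2,0)]⟩,
  ⟨17,[(1,3),(0,8),(10,0),(11,2),(5,2),(0,2)]⟩⟩ ⟨false,2,⟨5,[(1,1),(3,3),(6,1),(27,1),(4,1),(4,0),
  (7,2)]⟩,⟨0,[(21,0)]⟩⟩,.o ⟨false,(-1),⟨0,[(0,0)]⟩,⟨3,[(1,1),(3,3),(33,0),(0,0),(4,1),(4,0)]⟩⟩]⟩)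
  (.S ⟨1,1,[],[0,-1,1],[1,0,-1,-2,0,0,0,1],(⟨0,[(38,0)]⟩,⟨0,[(48,0),(3,0)]⟩),⟨0,[(6,0)]⟩,.k,(.r
  (-2) ⟨1,[(5,1),(33,0),(0,0),(14,1),(2,0)]⟩ ⟨0,[(31,0)]⟩),⟨false,1,⟨0,[(55,0),(2,0)]⟩,⟨0,[(56,
  0)]⟩⟩,⟨true,1,⟨3,[(1,1),(37,0),(0,0),(4,1),(4,0)]⟩,⟨0,[(8,0)]⟩⟩,⟨true,0,⟨0,[]⟩,⟨15,[(29,1),(5,0),
  (0,0),(8,1),(7,5),(1,1)]⟩⟩,⟨false,1,⟨0,[(1,0)]⟩,⟨0,[(8,0),(46,0),(2,0)]⟩⟩,[.fo,.o ⟨false,1,⟨1,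
  [(50,0),(7,0)]⟩,⟨15,[(29,1),(5,0),(0,0),(8,1),(7,5),(1,1)]⟩⟩,.a ⟨true,(-1),⟨0,[(21,0)]⟩,⟨2,[(0,1),
  (38,0),(0,0),(6,0)]⟩⟩ ⟨true,1,⟨1,[(5,0),(17,0),(9,0),(21,0),(2,0)]⟩,⟨17,[(1,3),(0,8),(10,0),(11,
  2),(5,2),(0,2)]⟩⟩ ⟨false,2,⟨5,[(0,3),(11,1),(26,0),(0,2),(9,1),(7,2)]⟩,⟨0,[(21,0)]⟩⟩,.e ⟨false,2,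
  ⟨0,[(5,0),(49,0),(2,0)]⟩,⟨0,[(31,0)]⟩⟩ ⟨false,2,⟨1,[(0,1),(49,0),(7,0)]⟩,⟨3,[(21,3),(13,0),(0,0),
  (10,1)]⟩⟩]⟩)) (.R ⟨0,false,false,true,[1,0,0,0,-1],[2,0,-1,0,-1],[1,0,0,-1],(⟨0,[(40,0)]⟩,⟨0,[(41,
  0)]⟩),(⟨0,[(40,0),(6,0)]⟩,⟨0,[(15,0),(21,0)]⟩),⟨0,[(15,0)]⟩,.k,.k,(.r (-1) ⟨4,[(4,0),(16,0),(10,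
  0),(21,0),(2,2)]⟩ ⟨17,[(28,9),(2,7),(2,0),(0,0),(8,1),(7,3)]⟩),.k,.k,.k,⟨false,1,⟨3,[(4,2),(23,0),
  (25,1),(2,0)]⟩,⟨3,[(21,0),(8,1),(0,0),(24,0)]⟩⟩,⟨true,1,⟨1,[(46,1),(2,0),(6,0)]⟩,⟨0,[(20,0)]⟩⟩,
  ⟨true,0,⟨0,[(54,0)]⟩,⟨0,[(55,0)]⟩⟩,⟨false,1,⟨1,[(44,1),(4,0),(7,0)]⟩,⟨1,[(7,0),(4,0),(44,1)]⟩⟩,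
  ⟨false,0,⟨0,[]⟩,⟨0,[]⟩⟩,⟨false,0,⟨0,[]⟩,⟨0,[]⟩⟩,[.o ⟨false,2,⟨1,[(11,1),(9,0),(9,0),(17,0)]⟩,⟨1,
  [(12,0),(1,0),(2,0),(39,0)]⟩⟩,.e ⟨false,1,⟨4,[(4,0),(16,0),(10,0),(21,0),(2,2)]⟩,⟨2,[(23,0),(7,0),
  (20,0),(2,0)]⟩⟩ ⟨false,2,⟨1,[(44,1),(4,0),(6,0),(0,1)]⟩,⟨0,[(10,0)]⟩⟩,.a ⟨true,1,⟨0,[(38,0)]⟩,⟨0,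
  [(18,0)]⟩⟩ ⟨false,1,⟨0,[(54,0),(2,0)]⟩,⟨0,[(55,0)]⟩⟩ ⟨true,1,⟨1,[(44,1),(4,0),(7,0)]⟩,⟨0,[(10,
  0)]⟩⟩,.o ⟨false,1,⟨0,[(25,0),(8,0)]⟩,⟨1,[(17,1),(38,0),(0,0)]⟩⟩]⟩)))) (.Q [0,1,0,2,0,0,-1,-1,0,-1,
  1] (.p true [0,0,1] [1] (⟨0,[(45,0)]⟩,⟨0,[(44,0)]⟩) .k 1 (⟨0,[]⟩,⟨0,[]⟩) .k .k) (.Q [0,0,-2,0,1,0,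
  -1,0,0,0,1] (.p true [0,0,1] [] (⟨0,[(46,0)]⟩,⟨0,[(45,0)]⟩) .k 0 (⟨0,[]⟩,⟨0,[]⟩) .k .k) (.S ⟨1,1,
  [],[0,-1,1],[1,0,-1,-2,0,0,0,1],(⟨0,[(36,0)]⟩,⟨0,[(46,0),(3,0)]⟩),⟨0,[(4,0)]⟩,.k,(.r (-2) ⟨1,[(3,
  1),(33,0),(0,0),(14,1),(2,0)]⟩ ⟨0,[(29,0)]⟩),⟨false,1,⟨0,[(53,0),(2,0)]⟩,⟨0,[(54,0)]⟩⟩,⟨true,1,⟨3,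
  [(1,1),(35,0),(0,0),(4,1),(4,0),(7,1)]⟩,⟨0,[(6,0)]⟩⟩,⟨true,0,⟨0,[]⟩,⟨15,[(27,1),(5,0),(0,0),(8,1),
  (7,5),(1,1)]⟩⟩,⟨false,1,⟨0,[(1,0),(54,0)]⟩,⟨0,[(6,0),(46,0),(2,0)]⟩⟩,[.fo,.o ⟨false,1,⟨1,[(48,0),
  (7,0)]⟩,⟨15,[(27,1),(5,0),(0,0),(8,1),(7,5),(1,1)]⟩⟩,.a ⟨true,(-1),⟨0,[(19,0)]⟩,⟨3,[(0,1),(2,0),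
  (23,0),(15,1),(12,0)]⟩⟩ ⟨true,1,⟨1,[(3,0),(17,0),(9,0),(21,0),(2,0)]⟩,⟨10,[(1,2),(6,1),(2,2),(17,
  7),(0,0),(20,0)]⟩⟩ ⟨false,2,⟨5,[(0,3),(9,1),(26,0),(0,2),(9,1),(7,2)]⟩,⟨0,[(19,0)]⟩⟩,.e ⟨false,2,
  ⟨0,[(3,0),(49,0),(2,0)]⟩,⟨0,[(29,0)]⟩⟩ ⟨false,2,⟨1,[(0,1),(47,0),(7,0)]⟩,⟨3,[(19,3),(13,0),(0,0),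
  (10,1)]⟩⟩]⟩) (.S ⟨1,1,[],[0,-1,1],[1,0,-1,-2,0,0,0,1],(⟨0,[(36,0)]⟩,⟨0,[(46,0),(3,0)]⟩),⟨0,[(4,
  0)]⟩,.k,(.r (-2) ⟨1,[(3,1),(33,0),(0,0),(14,1),(2,0)]⟩ ⟨0,[(29,0)]⟩),⟨false,1,⟨0,[(53,0),(2,0)]⟩,
  ⟨0,[(54,0)]⟩⟩,⟨true,1,⟨3,[(1,1),(35,0),(0,0),(4,1),(4,0),(7,1)]⟩,⟨0,[(6,0)]⟩⟩,⟨true,0,⟨0,[]⟩,⟨15,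
  [(27,1),(5,0),(0,0),(8,1),(7,5),(1,1)]⟩⟩,⟨false,1,⟨0,[(1,0),(54,0)]⟩,⟨0,[(6,0),(46,0),(2,0)]⟩⟩,
  [.fo,.o ⟨false,1,⟨1,[(48,0),(7,0)]⟩,⟨15,[(27,1),(5,0),(0,0),(8,1),(7,5),(1,1)]⟩⟩,.a ⟨true,(-1),⟨0,
  [(19,0)]⟩,⟨0,[(45,0),(9,0)]⟩⟩ ⟨true,1,⟨1,[(3,0),(17,0),(9,0),(21,0),(2,0)]⟩,⟨10,[(1,2),(6,1),(2,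
  2),(17,7),(0,0),(20,0)]⟩⟩ ⟨false,2,⟨5,[(1,1),(1,3),(6,1),(27,1),(4,1),(4,0),(7,4)]⟩,⟨0,[(19,0)]⟩⟩,
  .o ⟨false,(-1),⟨0,[(0,0)]⟩,⟨5,[(1,1),(1,3),(6,1),(27,1),(4,1),(4,0),(6,2),(0,1)]⟩⟩]⟩)) (.Q [0,-1,
  0,2,1,0,-1,-1,0,-1,1] (.p true [0,0,1] [1] (⟨0,[(46,0)]⟩,⟨0,[(45,0)]⟩) .k 1 (⟨0,[]⟩,⟨0,[]⟩) .k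
  .k) (.Q [0,0,2,0,-1,0,1,0,0,0,-1] (.p false [0,0,1] [] (⟨0,[(47,0)]⟩,⟨0,[(46,0)]⟩) .k 0 (⟨0,[]⟩,
  ⟨0,[]⟩) .k .k) (.S ⟨1,1,[],[0,-1,1],[1,0,-1,-2,0,0,0,1],(⟨0,[(37,0)]⟩,⟨0,[(47,0),(3,0)]⟩),⟨0,[(5,
  0)]⟩,.k,(.r (-2) ⟨1,[(4,1),(33,0),(0,0),(14,1),(2,0)]⟩ ⟨0,[(30,0)]⟩),⟨false,1,⟨0,[(54,0),(2,0)]⟩,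
  ⟨0,[(55,0)]⟩⟩,⟨true,1,⟨3,[(1,1),(36,0),(0,0),(4,1),(4,0)]⟩,⟨0,[(7,0)]⟩⟩,⟨true,0,⟨0,[]⟩,⟨15,[(28,
  1),(5,0),(0,0),(8,1),(7,5),(1,1)]⟩⟩,⟨false,1,⟨0,[(1,0)]⟩,⟨16,[(2,14),(23,0),(1,1),(6,0),(2,0),(13,
  3),(1,5)]⟩⟩,[.fo,.o ⟨false,1,⟨1,[(49,0),(7,0)]⟩,⟨15,[(28,1),(5,0),(0,0),(8,1),(7,5),(1,1)]⟩⟩,.a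
  ⟨true,(-1),⟨0,[(20,0)]⟩,⟨9,[(1,1),(2,6),(23,0),(4,1),(10,5),(1,1),(10,2)]⟩⟩ ⟨true,1,⟨4,[(2,1),(1,
  2),(6,1),(20,0),(6,1),(14,0)]⟩,⟨14,[(1,0),(7,1),(14,0),(5,11),(2,7),(15,3),(2,2)]⟩⟩ ⟨false,2,⟨5,
  [(1,1),(2,3),(6,1),(27,1),(4,1),(4,0),(7,2)]⟩,⟨0,[(20,0)]⟩⟩,.o ⟨false,(-1),⟨0,[(0,0)]⟩,⟨3,[(1,1),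
  (2,3),(33,0),(0,0),(4,1),(4,0)]⟩⟩]⟩) (.S ⟨1,1,[],[0,-1,1],[1,0,-1,-2,0,0,0,1],(⟨0,[(37,0)]⟩,⟨0,
  [(47,0),(3,0)]⟩),⟨0,[(5,0)]⟩,.k,(.r (-2) ⟨1,[(4,1),(33,0),(0,0),(14,1),(2,0)]⟩ ⟨0,[(30,0)]⟩),
  ⟨false,1,⟨0,[(54,0),(2,0)]⟩,⟨0,[(55,0)]⟩⟩,⟨true,1,⟨3,[(1,1),(36,0),(0,0),(4,1),(4,0)]⟩,⟨0,[(7,
  0)]⟩⟩,⟨true,0,⟨0,[]⟩,⟨15,[(28,1),(5,0),(0,0),(8,1),(7,5),(1,1)]⟩⟩,⟨false,1,⟨0,[(1,0)]⟩,⟨16,[(2,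
  14),(23,0),(1,1),(6,0),(2,0),(13,3),(1,5)]⟩⟩,[.fo,.o ⟨false,1,⟨1,[(49,0),(7,0)]⟩,⟨15,[(28,1),(5,
  0),(0,0),(8,1),(7,5),(1,1)]⟩⟩,.a ⟨true,(-1),⟨0,[(20,0)]⟩,⟨3,[(0,1),(3,0),(23,0),(15,1),(12,0)]⟩⟩
  ⟨true,1,⟨4,[(2,1),(1,2),(6,1),(20,0),(6,1),(14,0)]⟩,⟨14,[(1,0),(7,1),(14,0),(5,11),(2,7),(15,3),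
  (2,2)]⟩⟩ ⟨false,2,⟨5,[(0,3),(10,1),(26,0),(0,2),(9,1),(7,2)]⟩,⟨0,[(20,0)]⟩⟩,.e ⟨false,2,⟨0,[(4,0),
  (49,0),(2,0)]⟩,⟨0,[(30,0)]⟩⟩ ⟨false,2,⟨1,[(0,1),(48,0),(7,0)]⟩,⟨3,[(20,3),(13,0),(0,0),(10,
  1)]⟩⟩]⟩)) (.I [0,0,2,0,1,-2,1,0,-2] (.I [1,-2,-2,-2,2,0,0,1] (.I [1,2,2,2,-2,0,0,-1] (.N [0,-2,1,
  0,-2] (-2) ⟨0,[(1,0)]⟩ ⟨0,[(0,0)]⟩ (.x (-1) ⟨0,[(2,0)]⟩ ⟨3,[(6,1),(3,1),(6,7),(2,3),(20,1),(6,1),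
  (0,3),(7,3),(0,2),(0,0)]⟩)) (.R ⟨0,false,false,true,[1,0,0,0,-1],[2,0,-1,0,-1],[],(⟨0,[(42,0)]⟩,
  ⟨0,[(43,0)]⟩),(⟨0,[(42,0),(6,0)]⟩,⟨0,[(17,0),(21,0)]⟩),⟨0,[(17,0)]⟩,.k,.k,(.r (-1) ⟨23,[(1,7),(2,
  0),(18,5),(12,1),(0,0),(8,2),(12,1)]⟩ ⟨17,[(30,9),(2,7),(2,0),(0,0),(8,1),(7,3)]⟩),.k,.k,.k,
  ⟨false,1,⟨1,[(6,0),(23,0),(27,0)]⟩,⟨33,[(11,3),(10,1),(0,11),(8,9),(3,4),(0,2),(8,7)]⟩⟩,⟨true,1,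
  ⟨1,[(48,1),(2,0),(6,0)]⟩,⟨0,[(22,0)]⟩⟩,⟨true,0,⟨15,[(30,1),(5,0),(0,0),(8,1),(7,5),(1,1)]⟩,⟨0,
  []⟩⟩,⟨false,1,⟨1,[(46,1),(4,0),(7,0)]⟩,⟨2,[(4,0),(9,1),(44,1)]⟩⟩,⟨false,0,⟨0,[]⟩,⟨0,[]⟩⟩,⟨false,0,
  ⟨0,[]⟩,⟨0,[]⟩⟩,[.o ⟨false,2,⟨1,[(13,1),(9,0),(9,0),(17,0)]⟩,⟨1,[(14,0),(1,0),(2,0),(39,0)]⟩⟩,.e
  ⟨false,1,⟨1,[(58,0),(0,0)]⟩,⟨15,[(30,1),(5,0),(0,0),(8,1),(7,5),(1,1)]⟩⟩ ⟨false,2,⟨1,[(46,1),(4,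
  0),(6,0),(0,1)]⟩,⟨0,[(12,0)]⟩⟩,.a ⟨true,1,⟨0,[(40,0)]⟩,⟨0,[(20,0)]⟩⟩ ⟨false,1,⟨1,[(40,0),(0,0),
  (17,0)]⟩,⟨0,[]⟩⟩ ⟨true,1,⟨1,[(46,1),(4,0),(7,0)]⟩,⟨0,[(12,0)]⟩⟩,.o ⟨false,1,⟨4,[(2,0),(10,0),(3,
  1),(18,0),(3,1),(8,0),(1,0)]⟩,⟨1,[(19,1),(38,0),(0,0)]⟩⟩]⟩)) (.R ⟨0,false,false,true,[1,0,0,0,-1],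
  [2,0,-1,0,-1],[1,0,0,-1],(⟨0,[(41,0)]⟩,⟨0,[(42,0)]⟩),(⟨0,[(41,0),(6,0)]⟩,⟨0,[(16,0),(21,0)]⟩),⟨0,
  [(16,0)]⟩,.k,.k,(.r (-1) ⟨4,[(5,0),(16,0),(10,0),(21,0),(2,2)]⟩ ⟨17,[(29,9),(2,7),(2,0),(0,0),(8,
  1),(7,3)]⟩),.k,.k,.k,⟨false,1,⟨6,[(3,0),(1,4),(6,0),(16,0),(9,0),(0,1),(14,0)]⟩,⟨3,[(22,0),(8,1),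
  (0,0),(24,0)]⟩⟩,⟨true,1,⟨1,[(47,1),(2,0),(6,0)]⟩,⟨0,[(21,0)]⟩⟩,⟨true,0,⟨0,[(55,0)]⟩,⟨0,[(56,0)]⟩⟩,
  ⟨false,1,⟨1,[(45,1),(4,0),(7,0)]⟩,⟨2,[(3,0),(9,1),(44,1)]⟩⟩,⟨false,0,⟨0,[]⟩,⟨0,[]⟩⟩,⟨false,0,⟨0,
  []⟩,⟨0,[]⟩⟩,[.o ⟨false,2,⟨1,[(12,1),(9,0),(9,0),(17,0)]⟩,⟨1,[(13,0),(1,0),(2,0),(39,0)]⟩⟩,.e
  ⟨false,1,⟨4,[(5,0),(16,0),(10,0),(21,0),(2,2)]⟩,⟨2,[(24,0),(7,0),(20,0),(2,0)]⟩⟩ ⟨false,2,⟨1,[(45,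
  1),(4,0),(6,0),(0,1)]⟩,⟨0,[(11,0)]⟩⟩,.a ⟨true,1,⟨0,[(39,0)]⟩,⟨0,[(19,0)]⟩⟩ ⟨false,1,⟨0,[(55,0),(2,
  0)]⟩,⟨0,[(56,0)]⟩⟩ ⟨true,1,⟨1,[(45,1),(4,0),(7,0)]⟩,⟨0,[(11,0)]⟩⟩,.o ⟨false,1,⟨4,[(1,0),(10,0),(3,
  1),(18,0),(3,1),(8,0),(1,0)]⟩,⟨1,[(18,1),(38,0),(0,0)]⟩⟩]⟩)) (.Q [0,-1,0,2,1,0,1,1,-1,0,-1,1] (.p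
  false [0,0,1] [0,0,0,0,1] (⟨0,[(48,0)]⟩,⟨0,[(47,0)]⟩) .k 2 (⟨0,[(41,0)]⟩,⟨0,[(40,0)]⟩) .k (.r
  (-1) ⟨1,[(4,0),(23,0),(28,0)]⟩ ⟨4,[(9,0),(21,1),(2,0),(0,0),(8,1)]⟩)) (.R ⟨1,false,false,true,[0,
  0,0,0,1],[0,1,1],[1,1,1,1,0,0,0,1],(⟨0,[(42,0)]⟩,⟨0,[(41,0)]⟩),(⟨0,[(49,0),(2,0)]⟩,⟨0,[(37,0)]⟩),
  ⟨2,[(6,0),(9,0),(11,0),(13,1)]⟩,.k,.k,(.r 0 ⟨0,[(54,0)]⟩ ⟨3,[(29,1),(2,1),(6,0),(0,0),(17,2)]⟩),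
  (.r 0 ⟨9,[(10,5),(21,1),(2,0),(0,0),(8,1)]⟩ ⟨1,[(29,1),(27,0),(0,0)]⟩),(.x 1 ⟨0,[(1,0),(5,0)]⟩ ⟨5,
  [(25,1),(0,5),(9,1),(4,5),(7,5),(0,4),(1,11),(4,0)]⟩),.k,⟨true,0,⟨0,[]⟩,⟨3,[(35,0),(0,0),(10,
  1)]⟩⟩,⟨false,1,⟨0,[(0,0),(9,0)]⟩,⟨0,[(40,0),(6,0)]⟩⟩,⟨true,0,⟨0,[(24,0)]⟩,⟨9,[(10,5),(21,1),(2,0),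
  (0,0),(8,1)]⟩⟩,⟨true,1,⟨1,[(0,0),(38,0),(4,0)]⟩,⟨0,[(9,0)]⟩⟩,⟨true,0,⟨0,[(24,0),(31,0)]⟩,⟨9,[(3,
  1),(6,7),(24,2),(0,0),(8,3)]⟩⟩,⟨false,1,⟨0,[(0,0)]⟩,⟨0,[(9,0),(45,0),(2,0)]⟩⟩,[.e ⟨false,0,⟨3,[(5,
  0),(18,2),(9,1),(15,0),(2,0)]⟩,⟨7,[(3,0),(18,5),(12,1),(0,0),(8,2),(12,1)]⟩⟩ ⟨false,1,⟨1,[(0,0),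
  (25,0),(17,0),(8,0)]⟩,⟨0,[(9,0),(48,0)]⟩⟩,.o ⟨false,0,⟨3,[(0,1),(12,0),(1,0),(2,0),(31,0)]⟩,⟨15,
  [(9,1),(2,1),(9,1),(10,5),(1,3),(9,11),(4,4),(7,8)]⟩⟩,.e ⟨false,0,⟨0,[(24,0)]⟩,⟨7,[(3,0),(18,5),
  (12,1),(0,0),(8,2),(12,1)]⟩⟩ ⟨false,1,⟨1,[(0,0),(38,0),(4,0)]⟩,⟨0,[(9,0),(48,0)]⟩⟩,.a ⟨true,(-1),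
  ⟨1,[(19,0),(1,0),(18,0),(6,0)]⟩,⟨0,[(26,0)]⟩⟩ ⟨true,0,⟨3,[(5,0),(18,2),(9,1),(15,0),(2,0)]⟩,⟨2,
  [(3,0),(6,0),(11,0),(8,0),(3,0),(9,0)]⟩⟩ ⟨false,1,⟨5,[(0,2),(4,0),(7,1),(12,2),(3,0),(19,0)]⟩,⟨9,
  [(3,0),(5,7),(11,1),(13,2),(4,1),(4,2),(1,1),(10,9)]⟩⟩]⟩) (.R ⟨0,false,false,true,[1,0,0,0,-1],[2,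
  0,-1,0,-1],[1,0,0,-1],(⟨0,[(41,0)]⟩,⟨0,[(42,0)]⟩),(⟨0,[(41,0),(6,0)]⟩,⟨0,[(16,0),(21,0)]⟩),⟨0,
  [(16,0)]⟩,.k,.k,(.r (-1) ⟨4,[(5,0),(16,0),(10,0),(21,0),(2,2)]⟩ ⟨17,[(29,9),(2,7),(2,0),(0,0),(8,
  1),(7,3)]⟩),.k,.k,.k,⟨false,1,⟨6,[(3,0),(1,4),(6,0),(16,0),(9,0),(0,1),(14,0)]⟩,⟨3,[(22,0),(8,1),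
  (0,0),(24,0)]⟩⟩,⟨true,1,⟨1,[(47,1),(2,0),(6,0)]⟩,⟨0,[(21,0)]⟩⟩,⟨true,0,⟨0,[(55,0)]⟩,⟨0,[(56,0)]⟩⟩,
  ⟨false,1,⟨1,[(45,1),(4,0),(7,0)]⟩,⟨2,[(3,0),(9,1),(44,1)]⟩⟩,⟨false,0,⟨0,[]⟩,⟨0,[]⟩⟩,⟨false,0,⟨0,
  []⟩,⟨0,[]⟩⟩,[.o ⟨false,2,⟨1,[(12,1),(9,0),(9,0),(17,0)]⟩,⟨1,[(13,0),(1,0),(2,0),(39,0)]⟩⟩,.e
  ⟨false,1,⟨4,[(5,0),(16,0),(10,0),(21,0),(2,2)]⟩,⟨2,[(24,0),(7,0),(20,0),(2,0)]⟩⟩ ⟨false,2,⟨1,[(45,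
  1),(4,0),(6,0),(0,1)]⟩,⟨0,[(11,0)]⟩⟩,.a ⟨true,1,⟨0,[(39,0)]⟩,⟨0,[(19,0)]⟩⟩ ⟨false,1,⟨0,[(55,0),(2,
  0)]⟩,⟨0,[(56,0)]⟩⟩ ⟨true,1,⟨1,[(45,1),(4,0),(7,0)]⟩,⟨0,[(11,0)]⟩⟩,.o ⟨false,1,⟨0,[(26,0),(8,0)]⟩,
  ⟨1,[(18,1),(38,0),(0,0)]⟩⟩]⟩)))))) (.Q [0,-1,0,2,1,0,-1,-1,0,-1,1] (.p true [0,0,1] [1] (⟨0,[(44,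
  0)]⟩,⟨0,[(43,0)]⟩) .k 1 (⟨0,[]⟩,⟨0,[]⟩) .k .k) (.S ⟨1,1,[],[0,-1,1],[1,0,-1,-2,0,0,0,1],(⟨0,[(34,
  0)]⟩,⟨0,[(44,0),(3,0)]⟩),⟨0,[(2,0)]⟩,.k,(.r (-2) ⟨3,[(19,3),(9,1),(21,3),(1,4),(0,2)]⟩ ⟨0,[(27,
  0)]⟩),⟨false,1,⟨0,[(51,0),(2,0)]⟩,⟨0,[(52,0)]⟩⟩,⟨true,1,⟨3,[(0,1),(34,0),(0,0),(4,1),(4,0)]⟩,⟨0,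
  [(4,0)]⟩⟩,⟨true,0,⟨0,[]⟩,⟨15,[(25,1),(5,0),(0,0),(8,1),(7,5),(1,1)]⟩⟩,⟨false,1,⟨0,[(0,0)]⟩,⟨0,[(4,
  0),(46,0),(2,0)]⟩⟩,[.fo,.o ⟨false,1,⟨1,[(46,0),(7,0)]⟩,⟨15,[(25,1),(5,0),(0,0),(8,1),(7,5),(1,
  1)]⟩⟩,.a ⟨true,(-1),⟨0,[(17,0)]⟩,⟨0,[(43,0),(9,0)]⟩⟩ ⟨true,1,⟨1,[(19,1),(9,1),(23,0),(0,0)]⟩,⟨14,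
  [(0,1),(5,2),(2,1),(17,11),(2,5),(15,2),(2,2)]⟩⟩ ⟨false,2,⟨1,[(43,1),(2,0),(6,1),(0,0)]⟩,⟨0,[(17,
  0)]⟩⟩,.o ⟨false,(-1),⟨1,[(1,1),(2,1),(41,0),(7,0)]⟩,⟨1,[(43,1),(2,0),(6,2)]⟩⟩]⟩) (.R ⟨0,false,
  false,true,[1,0,0,0,-1],[2,0,-1,0,-1],[1,0,0,-1],(⟨0,[(37,0)]⟩,⟨0,[(38,0)]⟩),(⟨0,[(37,0),(6,0)]⟩,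
  ⟨0,[(12,0),(21,0)]⟩),⟨0,[(12,0)]⟩,.k,.k,(.r (-1) ⟨3,[(29,1),(23,0),(0,2)]⟩ ⟨17,[(25,9),(2,7),(2,
  0),(0,0),(8,1),(7,3)]⟩),.k,.k,.k,⟨false,1,⟨3,[(19,3),(9,1),(23,2),(0,0)]⟩,⟨3,[(18,0),(8,1),(0,0),
  (24,0)]⟩⟩,⟨true,1,⟨1,[(43,1),(2,0),(6,0)]⟩,⟨0,[(17,0)]⟩⟩,⟨true,0,⟨0,[(51,0)]⟩,⟨0,[(52,0)]⟩⟩,
  ⟨false,1,⟨1,[(41,1),(4,0),(7,0)]⟩,⟨1,[(4,0),(4,0),(44,1)]⟩⟩,⟨false,0,⟨0,[]⟩,⟨0,[]⟩⟩,⟨false,0,⟨0,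
  []⟩,⟨0,[]⟩⟩,[.o ⟨false,2,⟨1,[(8,1),(9,0),(9,0),(17,0)]⟩,⟨1,[(9,0),(1,0),(2,0),(39,0)]⟩⟩,.e ⟨false,
  1,⟨3,[(29,1),(23,0),(0,2)]⟩,⟨2,[(20,0),(7,0),(20,0),(2,0)]⟩⟩ ⟨false,2,⟨1,[(41,1),(4,0),(6,0),(0,
  1)]⟩,⟨0,[(7,0)]⟩⟩,.a ⟨true,1,⟨0,[(35,0)]⟩,⟨0,[(15,0)]⟩⟩ ⟨false,1,⟨0,[(51,0),(2,0)]⟩,⟨0,[(52,0)]⟩⟩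
  ⟨true,1,⟨1,[(41,1),(4,0),(7,0)]⟩,⟨0,[(7,0)]⟩⟩,.o ⟨false,1,⟨0,[(22,0),(8,0)]⟩,⟨1,[(14,1),(38,0),(0,
  0)]⟩⟩]⟩))) (.Q [0,0,2,0,-1,0,1,0,0,0,-1] (.p false [0,0,1] [] (⟨0,[(43,0)]⟩,⟨0,[(42,0)]⟩) .k 0
  (⟨0,[]⟩,⟨0,[]⟩) .k .k) (.R ⟨0,false,false,false,[0,-1,1],[1,-1],[],(⟨0,[(33,0)]⟩,⟨1,[(1,0),(41,1),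
  (0,0)]⟩),(⟨0,[(46,0)]⟩,⟨0,[(47,0)]⟩),⟨0,[(1,0)]⟩,.k,.k,(.r (-2) ⟨3,[(18,3),(9,1),(21,3),(1,4),(0,
  2)]⟩ ⟨0,[(26,0)]⟩),.k,.k,.k,⟨false,0,⟨0,[(51,0)]⟩,⟨1,[(50,1),(1,0),(0,0)]⟩⟩,⟨true,1,⟨1,[(42,1),(2,
  0),(6,0)]⟩,⟨0,[(16,0)]⟩⟩,⟨false,0,⟨25,[(0,1),(16,5),(8,15),(3,0),(0,0),(8,3),(12,11)]⟩,⟨3,[(18,3),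
  (9,1),(23,2),(0,0)]⟩⟩,⟨true,1,⟨1,[(40,1),(4,0),(7,0)]⟩,⟨0,[(6,0)]⟩⟩,⟨false,0,⟨0,[]⟩,⟨0,[]⟩⟩,
  ⟨false,0,⟨0,[]⟩,⟨0,[]⟩⟩,[.o ⟨false,1,⟨1,[(45,0),(4,1),(2,0)]⟩,⟨0,[(51,0)]⟩⟩,.a ⟨true,1,⟨0,[(50,0),
  (2,0)]⟩,⟨0,[(29,0)]⟩⟩ ⟨false,1,⟨1,[(52,0),(0,0)]⟩,⟨15,[(24,1),(5,0),(0,0),(8,1),(7,5),(1,1)]⟩⟩
  ⟨true,2,⟨3,[(28,1),(13,3),(2,1),(6,2),(0,2)]⟩,⟨0,[(0,0),(28,0)]⟩⟩,.e ⟨false,1,⟨1,[(34,0),(0,0),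
  (17,0)]⟩,⟨0,[]⟩⟩ ⟨false,2,⟨3,[(28,1),(13,3),(2,1),(6,2),(0,2)]⟩,⟨5,[(8,1),(7,2),(9,1),(11,0),(14,
  0)]⟩⟩,.o ⟨false,(-1),⟨0,[(0,0)]⟩,⟨1,[(42,1),(2,0),(6,2)]⟩⟩]⟩) (.R ⟨0,false,false,false,[0,-1,1],
  [1,-1],[1,0,-1,-2,0,0,0,1],(⟨0,[(33,0)]⟩,⟨1,[(1,0),(41,1),(0,0)]⟩),(⟨0,[(46,0)]⟩,⟨0,[(47,0)]⟩),⟨0,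
  [(1,0)]⟩,.k,.k,(.r (-2) ⟨5,[(0,4),(17,0),(9,2),(10,4),(10,5),(2,6)]⟩ ⟨0,[(26,0)]⟩),.k,.k,.k,
  ⟨false,1,⟨1,[(0,0),(17,0),(9,0),(10,0),(13,0)]⟩,⟨3,[(17,0),(8,1),(0,0),(24,0)]⟩⟩,⟨true,1,⟨2,[(0,
  0),(6,0),(27,0),(6,0),(2,0)]⟩,⟨0,[(16,0)]⟩⟩,⟨false,1,⟨0,[(50,0),(2,0)]⟩,⟨0,[(51,0)]⟩⟩,⟨true,1,⟨1,
  [(40,1),(4,0),(7,0)]⟩,⟨0,[(6,0)]⟩⟩,⟨false,0,⟨0,[]⟩,⟨0,[]⟩⟩,⟨false,0,⟨0,[]⟩,⟨0,[]⟩⟩,[.o ⟨false,1,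
  ⟨1,[(45,0),(4,1),(2,0)]⟩,⟨0,[(51,0)]⟩⟩,.a ⟨true,1,⟨0,[(50,0),(2,0)]⟩,⟨0,[(29,0)]⟩⟩ ⟨false,2,⟨2,
  [(0,1),(17,0),(9,2),(10,1),(13,3)]⟩,⟨24,[(0,1),(4,2),(14,1),(5,21),(2,11),(15,6),(2,4)]⟩⟩ ⟨true,2,
  ⟨3,[(0,1),(6,1),(20,1),(6,1),(9,0),(7,2)]⟩,⟨0,[(3,0),(22,0)]⟩⟩,.a ⟨true,(-1),⟨0,[(16,0)]⟩,⟨2,[(0,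
  1),(33,0),(0,0),(6,0)]⟩⟩ ⟨true,1,⟨2,[(0,0),(17,1),(9,2),(10,0),(13,1)]⟩,⟨24,[(0,1),(4,2),(14,1),
  (5,21),(2,11),(15,6),(2,4)]⟩⟩ ⟨false,2,⟨3,[(0,1),(6,1),(20,1),(6,1),(9,0),(7,2)]⟩,⟨5,[(8,1),(7,2),
  (9,1),(11,0),(14,0)]⟩⟩,.a ⟨true,(-1),⟨3,[(16,3),(13,0),(0,0),(10,1)]⟩,⟨0,[(0,0)]⟩⟩ ⟨false,2,⟨2,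
  [(0,1),(17,0),(9,2),(10,1),(13,3)]⟩,⟨0,[(26,0)]⟩⟩ ⟨true,2,⟨1,[(0,1),(44,0),(4,1),(2,0)]⟩,⟨0,[(3,
  0),(22,0)]⟩⟩]⟩)))

theorem ok32 : chk K t32 l35 = true := by decide +kernel

noncomputable def t33 : Tre :=
  (.I [0,0,-4,0,0,4,0,0,1] (.Q [0,-1,0,2,1,0,1,1,-1,0,-1,1] (.p false [0,0,1] [0,0,0,0,1] (⟨0,[(43,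
  0)]⟩,⟨0,[(42,0)]⟩) .k 2 (⟨0,[(36,0)]⟩,⟨0,[(35,0)]⟩) .k (.r (-1) ⟨1,[(17,1),(33,0),(0,0)]⟩ ⟨4,[(4,
  0),(21,1),(2,0),(0,0),(8,1)]⟩)) (.I [0,0,-2,0,1,2,1,0,-1] (.R ⟨1,false,false,true,[0,0,0,0,1],[0,
  1,1],[1,1,1,1,0,0,0,1],(⟨0,[(38,0)]⟩,⟨0,[(37,0)]⟩),(⟨23,[(0,3),(1,3),(14,3),(13,4),(0,0),(10,9),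
  (1,19)]⟩,⟨0,[(33,0)]⟩),⟨1,[(12,0),(11,0),(9,0),(3,0)]⟩,.k,.k,(.r 0 ⟨0,[(50,0)]⟩ ⟨3,[(25,1),(2,1),
  (6,0),(0,0),(17,2)]⟩),(.r 0 ⟨9,[(6,5),(21,1),(2,0),(0,0),(8,1)]⟩ ⟨1,[(25,1),(27,0),(0,0)]⟩),(.x 0
  ⟨3,[(12,2),(11,4),(6,1),(2,0),(1,3),(1,0),(4,3)]⟩ ⟨0,[(0,0)]⟩),.k,⟨true,0,⟨0,[]⟩,⟨3,[(31,0),(0,0),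
  (10,1)]⟩⟩,⟨false,1,⟨0,[(1,0),(4,0)]⟩,⟨0,[(36,0),(6,0)]⟩⟩,⟨true,0,⟨0,[(20,0)]⟩,⟨9,[(6,5),(21,1),(2,
  0),(0,0),(8,1)]⟩⟩,⟨true,1,⟨1,[(1,0),(33,0),(4,0)]⟩,⟨0,[(5,0)]⟩⟩,⟨true,0,⟨0,[(20,0),(31,0)]⟩,⟨4,
  [(6,3),(10,0),(13,0),(9,0),(9,1),(2,0)]⟩⟩,⟨false,1,⟨0,[(1,0)]⟩,⟨0,[(5,0),(45,0),(2,0)]⟩⟩,[.e
  ⟨false,0,⟨5,[(8,1),(0,1),(3,1),(6,3),(25,0),(6,2)]⟩,⟨5,[(6,1),(11,1),(12,0),(0,0),(8,1),(12,3)]⟩⟩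
  ⟨false,1,⟨1,[(1,0),(20,0),(17,0),(8,0)]⟩,⟨0,[(5,0),(48,0)]⟩⟩,.o ⟨false,0,⟨3,[(1,1),(7,0),(1,0),(2,
  0),(31,0)]⟩,⟨15,[(5,1),(2,1),(9,1),(10,5),(1,3),(9,11),(4,4),(7,8)]⟩⟩,.e ⟨false,0,⟨0,[(20,0)]⟩,⟨5,
  [(6,1),(11,1),(12,0),(0,0),(8,1),(12,3)]⟩⟩ ⟨false,1,⟨1,[(1,0),(33,0),(4,0)]⟩,⟨0,[(5,0),(48,0)]⟩⟩,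
  .a ⟨true,(-1),⟨1,[(15,0),(1,0),(18,0),(6,0)]⟩,⟨0,[(22,0)]⟩⟩ ⟨true,0,⟨5,[(8,1),(0,1),(3,1),(6,3),
  (25,0),(6,2)]⟩,⟨26,[(5,0),(0,15),(1,0),(8,8),(9,2),(3,7),(9,6),(12,11)]⟩⟩ ⟨false,1,⟨5,[(1,3),(7,
  1),(12,1),(6,1),(16,0),(6,0)]⟩,⟨3,[(5,3),(25,0),(0,0),(10,1),(10,3)]⟩⟩]⟩) (.I [0,0,2,0,-1,-2,-1,0,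
  1] (.R ⟨1,false,false,true,[0,0,0,0,1],[0,1,1],[1,1,1,1,0,0,0,1],(⟨0,[(39,0)]⟩,⟨0,[(38,0)]⟩),(⟨0,
  [(46,0),(2,0)]⟩,⟨0,[(34,0)]⟩),⟨2,[(0,0),(1,0),(4,0),(27,0),(3,1)]⟩,.k,.k,(.r 0 ⟨0,[(51,0)]⟩ ⟨3,
  [(26,1),(2,1),(6,0),(0,0),(17,2)]⟩),(.r 0 ⟨9,[(7,5),(21,1),(2,0),(0,0),(8,1)]⟩ ⟨1,[(26,1),(27,0),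
  (0,0)]⟩),(.x 1 ⟨0,[(0,0)]⟩ ⟨10,[(2,0),(0,1),(3,0),(15,11),(9,4),(4,12),(7,10),(0,8),(1,13)]⟩),.k,
  ⟨true,0,⟨0,[]⟩,⟨3,[(32,0),(0,0),(10,1)]⟩⟩,⟨false,1,⟨0,[(2,0),(4,0)]⟩,⟨0,[(37,0),(6,0)]⟩⟩,⟨true,0,
  ⟨0,[(21,0)]⟩,⟨9,[(7,5),(21,1),(2,0),(0,0),(8,1)]⟩⟩,⟨true,1,⟨1,[(2,0),(33,0),(4,0)]⟩,⟨0,[(6,0)]⟩⟩,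
  ⟨true,0,⟨0,[(21,0),(31,0)]⟩,⟨4,[(7,3),(10,0),(13,0),(9,0),(9,1),(2,0)]⟩⟩,⟨false,1,⟨0,[(2,0)]⟩,⟨0,
  [(6,0),(45,0),(2,0)]⟩⟩,[.e ⟨false,0,⟨5,[(9,1),(0,1),(3,1),(6,3),(25,0),(6,2)]⟩,⟨5,[(7,1),(11,1),
  (12,0),(0,0),(8,1),(12,3)]⟩⟩ ⟨false,1,⟨1,[(2,0),(20,0),(17,0),(8,0)]⟩,⟨0,[(6,0),(48,0)]⟩⟩,.o
  ⟨false,0,⟨3,[(2,1),(7,0),(1,0),(2,0),(31,0)]⟩,⟨15,[(6,1),(2,1),(9,1),(10,5),(1,3),(9,11),(4,4),(7,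
  8)]⟩⟩,.e ⟨false,0,⟨0,[(21,0)]⟩,⟨5,[(7,1),(11,1),(12,0),(0,0),(8,1),(12,3)]⟩⟩ ⟨false,1,⟨1,[(2,0),
  (33,0),(4,0)]⟩,⟨0,[(6,0),(48,0)]⟩⟩,.a ⟨true,(-1),⟨1,[(16,0),(1,0),(18,0),(6,0)]⟩,⟨0,[(23,0)]⟩⟩
  ⟨true,0,⟨5,[(9,1),(0,1),(3,1),(6,3),(25,0),(6,2)]⟩,⟨26,[(6,0),(0,15),(1,0),(8,8),(9,2),(3,7),(9,
  6),(12,11)]⟩⟩ ⟨false,1,⟨5,[(2,3),(7,1),(12,1),(6,1),(16,0),(6,0)]⟩,⟨3,[(6,3),(25,0),(0,0),(10,1),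
  (10,3)]⟩⟩]⟩) (.I [1,-2,-2,-2,2,0,0,1] (.I [1,2,2,2,-2,0,0,-1] (.N [0,-2,1,0,-2] (-2) ⟨0,[(1,0)]⟩
  ⟨0,[(0,0)]⟩ (.x (-2) ⟨8,[(2,10),(8,1),(15,13),(6,18),(2,11),(0,4),(1,6)]⟩ ⟨0,[(3,0),(1,0)]⟩)) (.Q
  [0,0,0,2,0,0,-1,-1,0,0,1] (.p true [0,0,1] [] (⟨0,[(48,0)]⟩,⟨0,[(47,0)]⟩) .k 0 (⟨0,[]⟩,⟨0,[]⟩) .k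
  .k) (.Q [0,0,2,0,-1,0,1,0,0,0,-1] (.p false [0,0,1] [] (⟨0,[(49,0)]⟩,⟨0,[(48,0)]⟩) .k 0 (⟨0,[]⟩,
  ⟨0,[]⟩) .k .k) (.R ⟨1,true,false,false,[0,0,1],[0,1],[0,1,0,0,0,0,0,1],(⟨0,[(50,0)]⟩,⟨0,[(49,
  0)]⟩),(⟨0,[(53,0)]⟩,⟨0,[(52,0)]⟩),⟨0,[(39,0)]⟩,.k,.k,.k,.k,(.r (-2) ⟨12,[(2,10),(27,1),(9,3),(0,
  3),(12,7),(1,5)]⟩ ⟨0,[(32,0)]⟩),.k,⟨false,1,⟨5,[(2,3),(10,1),(0,1),(3,1),(32,0),(2,3),(3,0)]⟩,⟨25,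
  [(0,1),(22,5),(8,15),(3,0),(0,0),(8,3),(12,11)]⟩⟩,⟨true,1,⟨1,[(1,0),(0,0),(45,0),(5,0)]⟩,⟨0,[(0,
  0)]⟩⟩,⟨true,0,⟨15,[(30,1),(5,0),(0,0),(8,1),(7,5),(1,1)]⟩,⟨0,[]⟩⟩,⟨false,1,⟨3,[(1,1),(38,0),(0,0),
  (4,1),(12,2)]⟩,⟨11,[(0,2),(1,2),(3,0),(2,6),(6,0),(34,3)]⟩⟩,⟨false,0,⟨0,[(57,0)]⟩,⟨0,[(56,0),(2,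
  0)]⟩⟩,⟨true,0,⟨0,[(1,0)]⟩,⟨9,[(2,1),(6,3),(24,5),(1,4),(0,0),(7,3)]⟩⟩,[]⟩) (.R ⟨1,false,false,
  false,[0,0,1],[0,1],[1,0,1,1],(⟨0,[(50,0)]⟩,⟨0,[(49,0)]⟩),(⟨0,[(53,0)]⟩,⟨0,[(52,0)]⟩),⟨0,[(39,
  0)]⟩,.k,.k,.k,.k,(.r (-2) ⟨12,[(2,10),(27,1),(9,3),(0,3),(12,7),(1,5)]⟩ ⟨0,[(32,0)]⟩),.k,⟨true,0,
  ⟨0,[]⟩,⟨3,[(36,0),(0,0),(10,1)]⟩⟩,⟨false,1,⟨0,[(0,0)]⟩,⟨0,[(47,0)]⟩⟩,⟨false,0,⟨31,[(22,1),(0,7),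
  (8,19),(3,2),(0,0),(8,3),(12,13)]⟩,⟨1,[(2,0),(21,0),(29,0)]⟩⟩,⟨false,1,⟨3,[(1,1),(38,0),(0,0),(4,
  1),(12,2)]⟩,⟨1,[(9,1),(41,0),(7,0)]⟩⟩,⟨false,0,⟨7,[(1,2),(24,0),(5,4),(4,0),(13,0),(7,3)]⟩,⟨5,[(2,
  2),(21,2),(9,1),(19,0),(1,1)]⟩⟩,⟨true,0,⟨0,[(1,0)]⟩,⟨9,[(2,1),(6,3),(24,5),(1,4),(0,0),(7,3)]⟩⟩,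
  [.o ⟨false,0,⟨0,[(57,0)]⟩,⟨22,[(2,6),(8,0),(24,7),(0,2),(8,5),(4,8),(4,6)]⟩⟩,.a ⟨true,0,⟨0,[(35,
  0),(23,0)]⟩,⟨0,[(56,0)]⟩⟩ ⟨false,1,⟨7,[(1,1),(4,1),(33,2),(0,4),(17,2)]⟩,⟨0,[(55,0)]⟩⟩ ⟨true,1,
  ⟨12,[(1,9),(0,5),(27,4),(15,0),(1,1),(10,0)]⟩,⟨3,[(9,3),(1,1),(20,1),(3,1),(14,0),(7,0)]⟩⟩,.o
  ⟨false,0,⟨4,[(22,1),(3,0),(10,0),(13,1)]⟩,⟨2,[(0,0),(12,0),(27,0),(6,0),(2,0)]⟩⟩,.e ⟨true,0,⟨3,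
  [(1,0),(4,0),(12,0)]⟩,⟨0,[(56,0)]⟩⟩ ⟨true,1,⟨17,[(0,13),(0,4),(4,0),(23,4),(2,0),(6,2),(0,3)]⟩,⟨3,
  [(9,3),(1,1),(20,1),(3,1),(14,0),(7,0)]⟩⟩]⟩)) (.Q [0,0,0,0,0,2,0,0,0,0,-1] (.p false [0,0,1] []
  (⟨0,[(49,0)]⟩,⟨0,[(48,0)]⟩) .k 0 (⟨0,[]⟩,⟨0,[]⟩) .k .k) (.R ⟨0,false,false,false,[0,-1,1],[1,-1],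
  [],(⟨0,[(39,0)]⟩,⟨9,[(0,2),(6,0),(14,0),(14,0),(2,0),(1,0),(5,2),(0,6)]⟩),(⟨0,[(52,0)]⟩,⟨0,[(53,
  0)]⟩),⟨0,[(0,0)]⟩,.k,.k,(.r (-2) ⟨12,[(2,10),(27,1),(9,3),(0,3),(12,7),(1,5)]⟩ ⟨0,[(32,0)]⟩),.k,
  .k,.k,⟨false,0,⟨0,[(57,0)]⟩,⟨27,[(2,11),(34,5),(2,0),(0,0),(4,11),(4,2),(2,3),(1,3)]⟩⟩,⟨true,1,⟨1,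
  [(48,1),(2,0),(6,0)]⟩,⟨0,[(22,0)]⟩⟩,⟨false,0,⟨31,[(22,1),(0,7),(8,19),(3,2),(0,0),(8,3),(12,13)]⟩,
  ⟨1,[(2,0),(21,0),(29,0)]⟩⟩,⟨true,1,⟨1,[(46,1),(4,0),(7,0)]⟩,⟨0,[(12,0)]⟩⟩,⟨false,0,⟨0,[]⟩,⟨0,[]⟩⟩,
  ⟨false,0,⟨0,[]⟩,⟨0,[]⟩⟩,[.o ⟨false,1,⟨22,[(2,6),(8,0),(24,7),(0,2),(8,5),(4,8),(4,6)]⟩,⟨0,[(57,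
  0)]⟩⟩,.a ⟨true,1,⟨0,[(56,0),(2,0)]⟩,⟨0,[(35,0)]⟩⟩ ⟨false,1,⟨1,[(58,0),(0,0)]⟩,⟨15,[(30,1),(5,0),
  (0,0),(8,1),(7,5),(1,1)]⟩⟩ ⟨true,2,⟨3,[(2,1),(43,1),(1,1),(2,1),(6,0),(0,0)]⟩,⟨0,[(9,0),(22,0)]⟩⟩,
  .e ⟨false,1,⟨1,[(40,0),(0,0),(17,0)]⟩,⟨0,[]⟩⟩ ⟨false,2,⟨3,[(2,1),(43,1),(1,1),(2,1),(6,0),(0,0)]⟩,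
  ⟨18,[(6,2),(7,1),(5,2),(1,10),(3,0),(5,4),(2,0),(1,0)]⟩⟩,.o ⟨false,(-1),⟨0,[(1,0),(30,0)]⟩,⟨1,
  [(48,1),(2,0),(6,2)]⟩⟩]⟩) (.Q [0,-1,0,2,1,0,-1,-1,0,-1,1] (.p true [0,0,1] [1] (⟨0,[(50,0)]⟩,⟨0,
  [(49,0)]⟩) .k 1 (⟨0,[]⟩,⟨0,[]⟩) .k .k) (.S ⟨1,1,[],[0,-1,1],[1,0,-1,-2,0,0,0,1],(⟨0,[(40,0)]⟩,⟨0,
  [(50,0),(3,0)]⟩),⟨0,[(1,0)]⟩,.k,(.r (-2) ⟨12,[(3,10),(27,1),(9,3),(0,3),(12,7),(1,5)]⟩ ⟨0,[(33,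
  0)]⟩),⟨false,1,⟨0,[(57,0),(2,0)]⟩,⟨0,[(58,0)]⟩⟩,⟨true,1,⟨3,[(0,1),(40,0),(0,0),(4,1),(4,0)]⟩,⟨0,
  [(10,0)]⟩⟩,⟨true,0,⟨0,[]⟩,⟨15,[(31,1),(5,0),(0,0),(8,1),(7,5),(1,1)]⟩⟩,⟨false,1,⟨0,[(0,0)]⟩,⟨4,
  [(2,0),(0,1),(6,1),(12,1),(14,0),(10,1),(7,1)]⟩⟩,[.fo,.o ⟨false,1,⟨1,[(52,0),(7,0)]⟩,⟨15,[(31,1),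
  (5,0),(0,0),(8,1),(7,5),(1,1)]⟩⟩,.a ⟨true,(-1),⟨0,[(23,0)]⟩,⟨0,[(49,0),(9,0)]⟩⟩ ⟨true,1,⟨5,[(3,2),
  (21,2),(9,1),(19,0),(1,1)]⟩,⟨14,[(0,1),(11,2),(2,1),(17,11),(2,5),(15,2),(2,2)]⟩⟩ ⟨false,2,⟨4,[(0,
  2),(2,2),(10,1),(7,0),(19,0),(12,0)]⟩,⟨0,[(23,0)]⟩⟩,.o ⟨false,(-1),⟨0,[(2,0),(30,0)]⟩,⟨5,[(0,3),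
  (2,3),(10,1),(4,1),(32,0),(2,3),(3,0)]⟩⟩]⟩) (.R ⟨0,false,false,true,[1,0,0,0,-1],[2,0,-1,0,-1],[],
  (⟨0,[(43,0)]⟩,⟨0,[(44,0)]⟩),(⟨0,[(43,0),(6,0)]⟩,⟨0,[(18,0),(21,0)]⟩),⟨0,[(18,0)]⟩,.k,.k,(.r (-1)
  ⟨17,[(3,5),(8,1),(11,1),(12,0),(0,0),(8,1),(12,3)]⟩ ⟨17,[(31,9),(2,7),(2,0),(0,0),(8,1),(7,3)]⟩),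
  .k,.k,.k,⟨false,1,⟨2,[(3,0),(22,1),(28,0),(3,0)]⟩,⟨33,[(12,3),(10,1),(0,11),(8,9),(3,4),(0,2),(8,
  7)]⟩⟩,⟨true,1,⟨1,[(49,1),(2,0),(6,0)]⟩,⟨0,[(23,0)]⟩⟩,⟨true,0,⟨15,[(31,1),(5,0),(0,0),(8,1),(7,5),
  (1,1)]⟩,⟨0,[]⟩⟩,⟨false,1,⟨1,[(47,1),(4,0),(7,0)]⟩,⟨2,[(0,0),(6,0),(9,0),(18,0),(23,1)]⟩⟩,⟨false,0,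
  ⟨0,[]⟩,⟨0,[]⟩⟩,⟨false,0,⟨0,[]⟩,⟨0,[]⟩⟩,[.o ⟨false,2,⟨1,[(14,1),(9,0),(9,0),(17,0)]⟩,⟨2,[(7,0),(9,
  1),(2,0),(0,0)]⟩⟩,.e ⟨false,1,⟨1,[(59,0),(0,0)]⟩,⟨15,[(31,1),(5,0),(0,0),(8,1),(7,5),(1,1)]⟩⟩
  ⟨false,2,⟨1,[(47,1),(4,0),(6,0),(0,1)]⟩,⟨0,[(13,0)]⟩⟩,.a ⟨true,1,⟨0,[(41,0)]⟩,⟨0,[(21,0)]⟩⟩
  ⟨false,1,⟨1,[(41,0),(0,0),(17,0)]⟩,⟨0,[]⟩⟩ ⟨true,1,⟨1,[(47,1),(4,0),(7,0)]⟩,⟨0,[(13,0)]⟩⟩,.o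
  ⟨false,1,⟨0,[(28,0),(8,0)]⟩,⟨1,[(20,1),(38,0),(0,0)]⟩⟩]⟩))))) (.Q [0,0,0,2,0,0,-1,-1,0,0,1] (.p
  true [0,0,1] [] (⟨0,[(47,0)]⟩,⟨0,[(46,0)]⟩) .k 0 (⟨0,[]⟩,⟨0,[]⟩) .k .k) (.Q [0,0,2,0,-1,0,1,0,0,0,
  -1] (.p false [0,0,1] [] (⟨0,[(48,0)]⟩,⟨0,[(47,0)]⟩) .k 0 (⟨0,[]⟩,⟨0,[]⟩) .k .k) (.R ⟨1,true,
  false,false,[0,0,1],[0,1],[0,1,0,0,0,0,0,1],(⟨0,[(49,0)]⟩,⟨0,[(48,0)]⟩),(⟨0,[(52,0)]⟩,⟨0,[(51,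
  0)]⟩),⟨0,[(38,0)]⟩,.k,.k,.k,.k,(.r (-2) ⟨3,[(23,3),(9,1),(21,3),(1,4),(0,2)]⟩ ⟨0,[(31,0)]⟩),.k,
  ⟨false,1,⟨0,[(24,0),(8,0),(23,0)]⟩,⟨25,[(0,1),(21,5),(8,15),(3,0),(0,0),(8,3),(12,11)]⟩⟩,⟨true,1,
  ⟨0,[(47,0),(9,0)]⟩,⟨0,[(0,0)]⟩⟩,⟨true,0,⟨15,[(29,1),(5,0),(0,0),(8,1),(7,5),(1,1)]⟩,⟨0,[]⟩⟩,
  ⟨false,1,⟨3,[(1,1),(37,0),(0,0),(4,1),(12,2)]⟩,⟨1,[(8,1),(41,0),(7,0)]⟩⟩,⟨false,0,⟨0,[(56,0)]⟩,⟨0,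
  [(55,0),(2,0)]⟩⟩,⟨true,0,⟨0,[(1,0)]⟩,⟨9,[(8,3),(14,5),(9,7),(1,0),(0,2),(13,2),(7,0)]⟩⟩,[]⟩) (.R
  ⟨1,false,false,true,[0,0,1],[0,1],[],(⟨0,[(49,0)]⟩,⟨0,[(48,0)]⟩),(⟨0,[(52,0)]⟩,⟨0,[(51,0)]⟩),⟨0,
  [(38,0)]⟩,.k,.k,.k,.k,(.r (-2) ⟨5,[(0,4),(22,0),(9,2),(10,4),(10,5),(2,6)]⟩ ⟨0,[(31,0)]⟩),.k,
  ⟨true,1,⟨3,[(33,1),(23,0),(0,2)]⟩,⟨18,[(2,7),(5,1),(12,0),(7,5),(5,2),(11,2),(7,0)]⟩⟩,⟨false,1,⟨0,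
  [(0,0)]⟩,⟨0,[(46,0)]⟩⟩,⟨true,0,⟨33,[(10,3),(10,1),(0,11),(8,9),(3,4),(0,2),(8,7)]⟩,⟨15,[(0,3),(7,
  0),(3,1),(0,2),(0,1),(8,9),(26,1),(2,3)]⟩⟩,⟨true,0,⟨11,[(1,4),(27,0),(2,0),(12,6),(7,1)]⟩,⟨1,[(8,
  1),(41,0),(7,0)]⟩⟩,⟨true,0,⟨15,[(1,2),(20,3),(2,0),(5,4),(0,3),(3,0),(13,0)]⟩,⟨12,[(0,1),(7,1),(3,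
  0),(1,0),(8,9),(9,4),(16,0),(2,1)]⟩⟩,⟨false,0,⟨0,[(1,0)]⟩,⟨9,[(8,3),(14,5),(9,7),(1,0),(0,2),(13,
  2),(7,10)]⟩⟩,[.a ⟨true,(-1),⟨0,[(34,0)]⟩,⟨0,[(55,0),(2,0)]⟩⟩ ⟨false,1,⟨1,[(39,0),(0,0),(16,0)]⟩,
  ⟨0,[]⟩⟩ ⟨true,0,⟨11,[(0,8),(1,3),(9,0),(4,0),(11,3),(17,1),(5,0)]⟩,⟨3,[(8,3),(1,1),(20,1),(3,1),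
  (14,0),(7,4)]⟩⟩,.o ⟨false,0,⟨0,[(56,0)]⟩,⟨1,[(50,0),(4,1),(2,0)]⟩⟩,.o ⟨false,0,⟨4,[(21,1),(3,0),
  (10,0),(13,1)]⟩,⟨2,[(0,0),(11,0),(27,0),(6,0),(2,0)]⟩⟩,.e ⟨false,1,⟨1,[(57,0),(0,0)]⟩,⟨3,[(35,0),
  (0,0),(10,1)]⟩⟩ ⟨false,1,⟨29,[(0,25),(0,4),(3,0),(23,10),(2,6),(7,0),(17,2)]⟩,⟨3,[(8,3),(1,1),(20,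
  1),(3,1),(14,0),(7,4)]⟩⟩]⟩)) (.I [0,1,-2,-2,0,0,0,-1] (.R ⟨1,false,false,true,[0,0,0,0,1],[0,1,1],
  [1,1,1,1,0,0,0,1],(⟨0,[(42,0)]⟩,⟨0,[(41,0)]⟩),(⟨23,[(3,3),(2,3),(14,3),(13,4),(0,0),(10,9),(1,
  19)]⟩,⟨0,[(37,0)]⟩),⟨1,[(16,0),(11,0),(9,0),(3,0)]⟩,.k,.k,(.r 0 ⟨0,[(54,0)]⟩ ⟨3,[(29,1),(2,1),(6,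
  0),(0,0),(17,2)]⟩),(.r 0 ⟨9,[(10,5),(21,1),(2,0),(0,0),(8,1)]⟩ ⟨1,[(29,1),(27,0),(0,0)]⟩),(.r 0
  ⟨0,[(0,0)]⟩ ⟨1,[(5,0),(23,1),(10,0),(4,0),(12,0)]⟩),.k,⟨true,0,⟨0,[]⟩,⟨3,[(35,0),(0,0),(10,1)]⟩⟩,
  ⟨false,1,⟨0,[(5,0),(4,0)]⟩,⟨0,[(40,0),(6,0)]⟩⟩,⟨true,0,⟨0,[(24,0)]⟩,⟨9,[(10,5),(21,1),(2,0),(0,0),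
  (8,1)]⟩⟩,⟨true,1,⟨1,[(5,0),(33,0),(4,0)]⟩,⟨0,[(9,0)]⟩⟩,⟨true,0,⟨0,[(24,0),(31,0)]⟩,⟨4,[(10,3),(10,
  0),(13,0),(9,0),(9,1),(2,0)]⟩⟩,⟨false,1,⟨0,[(5,0)]⟩,⟨0,[(9,0),(45,0),(2,0)]⟩⟩,[.e ⟨false,0,⟨5,
  [(12,1),(0,1),(3,1),(6,3),(25,0),(6,2)]⟩,⟨5,[(10,1),(11,1),(12,0),(0,0),(8,1),(12,3)]⟩⟩ ⟨false,1,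
  ⟨1,[(5,0),(20,0),(17,0),(8,0)]⟩,⟨0,[(9,0),(48,0)]⟩⟩,.o ⟨false,0,⟨3,[(5,1),(7,0),(1,0),(2,0),(31,
  0)]⟩,⟨15,[(9,1),(2,1),(9,1),(10,5),(1,3),(9,11),(4,4),(7,8)]⟩⟩,.e ⟨false,0,⟨0,[(24,0)]⟩,⟨5,[(10,
  1),(11,1),(12,0),(0,0),(8,1),(12,3)]⟩⟩ ⟨false,1,⟨1,[(5,0),(33,0),(4,0)]⟩,⟨0,[(9,0),(48,0)]⟩⟩,.a
  ⟨true,(-1),⟨1,[(19,0),(1,0),(18,0),(6,0)]⟩,⟨0,[(26,0)]⟩⟩ ⟨true,0,⟨5,[(12,1),(0,1),(3,1),(6,3),(25,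
  0),(6,2)]⟩,⟨26,[(9,0),(0,15),(1,0),(8,8),(9,2),(3,7),(9,6),(12,11)]⟩⟩ ⟨false,1,⟨5,[(5,3),(7,1),
  (12,1),(6,1),(16,0),(6,0)]⟩,⟨3,[(9,3),(25,0),(0,0),(10,1),(10,3)]⟩⟩]⟩) (.Q [0,0,0,0,0,2,0,0,0,0,
  -1] (.p false [0,0,1] [] (⟨0,[(49,0)]⟩,⟨0,[(48,0)]⟩) .k 0 (⟨0,[]⟩,⟨0,[]⟩) .k .k) (.R ⟨0,false,
  false,false,[0,-1,1],[1,-1],[],(⟨0,[(39,0)]⟩,⟨9,[(0,2),(6,0),(14,0),(14,0),(2,0),(1,0),(5,2),(0,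
  6)]⟩),(⟨0,[(52,0)]⟩,⟨0,[(53,0)]⟩),⟨0,[(0,0)]⟩,.k,.k,(.r (-2) ⟨3,[(24,3),(9,1),(21,3),(1,4),(0,
  2)]⟩ ⟨0,[(32,0)]⟩),.k,.k,.k,⟨false,0,⟨0,[(57,0)]⟩,⟨1,[(56,1),(1,0),(0,0)]⟩⟩,⟨true,1,⟨1,[(48,1),(2,
  0),(6,0)]⟩,⟨0,[(22,0)]⟩⟩,⟨false,0,⟨31,[(22,1),(0,7),(8,19),(3,2),(0,0),(8,3),(12,13)]⟩,⟨3,[(24,3),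
  (9,1),(23,2),(0,0)]⟩⟩,⟨true,1,⟨1,[(46,1),(4,0),(7,0)]⟩,⟨0,[(12,0)]⟩⟩,⟨false,0,⟨0,[]⟩,⟨0,[]⟩⟩,
  ⟨false,0,⟨0,[]⟩,⟨0,[]⟩⟩,[.o ⟨false,1,⟨1,[(51,0),(4,1),(2,0)]⟩,⟨0,[(57,0)]⟩⟩,.a ⟨true,1,⟨0,[(56,0),
  (2,0)]⟩,⟨0,[(35,0)]⟩⟩ ⟨false,1,⟨1,[(58,0),(0,0)]⟩,⟨15,[(30,1),(5,0),(0,0),(8,1),(7,5),(1,1)]⟩⟩
  ⟨true,2,⟨3,[(34,1),(13,3),(2,1),(6,2),(0,2)]⟩,⟨0,[(9,0),(22,0)]⟩⟩,.e ⟨false,1,⟨1,[(40,0),(0,0),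
  (17,0)]⟩,⟨0,[]⟩⟩ ⟨false,2,⟨3,[(34,1),(13,3),(2,1),(6,2),(0,2)]⟩,⟨18,[(1,2),(12,1),(7,10),(3,3),(5,
  4),(2,0),(1,0)]⟩⟩,.o ⟨false,(-1),⟨0,[(2,0),(29,0)]⟩,⟨1,[(48,1),(2,0),(6,2)]⟩⟩]⟩) (.R ⟨0,false,
  false,true,[1,0,0,0,-1],[2,0,-1,0,-1],[1,0,0,-1],(⟨0,[(42,0)]⟩,⟨0,[(43,0)]⟩),(⟨0,[(42,0),(6,0)]⟩,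
  ⟨0,[(17,0),(21,0)]⟩),⟨0,[(17,0)]⟩,.k,.k,(.r (-1) ⟨3,[(34,1),(23,0),(0,2)]⟩ ⟨17,[(30,9),(2,7),(2,
  0),(0,0),(8,1),(7,3)]⟩),.k,.k,.k,⟨false,1,⟨3,[(24,3),(9,1),(23,2),(0,0)]⟩,⟨3,[(23,0),(8,1),(0,0),
  (24,0)]⟩⟩,⟨true,1,⟨1,[(48,1),(2,0),(6,0)]⟩,⟨0,[(22,0)]⟩⟩,⟨true,0,⟨0,[(56,0)]⟩,⟨0,[(57,0)]⟩⟩,
  ⟨false,1,⟨1,[(46,1),(4,0),(7,0)]⟩,⟨2,[(1,0),(7,1),(16,0),(32,1)]⟩⟩,⟨false,0,⟨0,[]⟩,⟨0,[]⟩⟩,⟨false,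
  0,⟨0,[]⟩,⟨0,[]⟩⟩,[.o ⟨false,2,⟨1,[(13,1),(9,0),(9,0),(17,0)]⟩,⟨2,[(1,0),(14,1),(2,0),(6,0)]⟩⟩,.e
  ⟨false,1,⟨3,[(34,1),(23,0),(0,2)]⟩,⟨12,[(1,3),(1,0),(29,2),(20,5),(3,1)]⟩⟩ ⟨false,2,⟨1,[(46,1),(4,
  0),(6,0),(0,1)]⟩,⟨0,[(12,0)]⟩⟩,.a ⟨true,1,⟨0,[(40,0)]⟩,⟨0,[(20,0)]⟩⟩ ⟨false,1,⟨0,[(56,0),(2,0)]⟩,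
  ⟨0,[(57,0)]⟩⟩ ⟨true,1,⟨1,[(46,1),(4,0),(7,0)]⟩,⟨0,[(12,0)]⟩⟩,.o ⟨false,1,⟨0,[(27,0),(8,0)]⟩,⟨1,
  [(19,1),(38,0),(0,0)]⟩⟩]⟩))))))) (.I [1,-1,-4,-4,2] (.I [1,1,4,4,-2] (.N [0,4,0,0,1] 2 ⟨0,[(0,
  0)]⟩ ⟨0,[(1,0)]⟩ (.x 0 ⟨0,[(3,0)]⟩ ⟨2,[(23,1),(1,3),(6,6),(2,3),(0,0),(1,2)]⟩)) (.Q [0,0,0,0,0,2,
  0,0,0,0,-1] (.p false [0,0,1] [] (⟨0,[(46,0)]⟩,⟨0,[(45,0)]⟩) .k 0 (⟨0,[]⟩,⟨0,[]⟩) .k .k) (.Q [0,0,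
  2,0,-1,0,1,0,0,0,-1] (.p false [0,0,1] [] (⟨0,[(47,0)]⟩,⟨0,[(46,0)]⟩) .k 0 (⟨0,[]⟩,⟨0,[]⟩) .k .k)
  (.R ⟨0,false,false,false,[0,-1,1],[1,-1],[],(⟨0,[(37,0)]⟩,⟨9,[(1,2),(3,0),(14,0),(14,0),(2,0),(1,
  0),(5,2),(0,6)]⟩),(⟨0,[(50,0)]⟩,⟨0,[(51,0)]⟩),⟨0,[(1,0)]⟩,.k,.k,(.r (-2) ⟨15,[(2,11),(25,15),(9,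
  2),(0,2),(12,5),(3,4)]⟩ ⟨0,[(30,0)]⟩),.k,.k,.k,⟨false,0,⟨0,[(55,0)]⟩,⟨12,[(2,2),(35,6),(0,6),(12,
  0),(1,0)]⟩⟩,⟨true,1,⟨1,[(46,1),(2,0),(6,0)]⟩,⟨0,[(20,0)]⟩⟩,⟨false,0,⟨25,[(0,1),(20,5),(8,15),(3,
  0),(0,0),(8,3),(12,11)]⟩,⟨3,[(2,1),(20,2),(4,0),(23,0)]⟩⟩,⟨true,1,⟨1,[(44,1),(4,0),(7,0)]⟩,⟨0,
  [(10,0)]⟩⟩,⟨false,0,⟨0,[]⟩,⟨0,[]⟩⟩,⟨false,0,⟨0,[]⟩,⟨0,[]⟩⟩,[.o ⟨false,1,⟨9,[(2,1),(31,3),(3,2),(0,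
  2),(9,2),(4,1)]⟩,⟨0,[(55,0)]⟩⟩,.a ⟨true,1,⟨27,[(2,7),(25,3),(5,6),(0,6),(8,3),(1,9),(10,11)]⟩,⟨0,
  [(33,0)]⟩⟩ ⟨false,1,⟨1,[(56,0),(0,0)]⟩,⟨15,[(28,1),(5,0),(0,0),(8,1),(7,5),(1,1)]⟩⟩ ⟨true,2,⟨7,
  [(2,1),(8,1),(27,1),(6,5),(2,2),(6,3),(0,2)]⟩,⟨0,[(7,0),(22,0)]⟩⟩,.e ⟨false,1,⟨1,[(38,0),(0,0),
  (17,0)]⟩,⟨0,[]⟩⟩ ⟨false,2,⟨7,[(2,1),(8,1),(27,1),(6,5),(2,2),(6,3),(0,2)]⟩,⟨5,[(12,1),(7,2),(9,1),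
  (11,0),(14,0)]⟩⟩,.o ⟨false,(-1),⟨0,[(0,0)]⟩,⟨1,[(46,1),(2,0),(6,2)]⟩⟩]⟩) (.R ⟨0,false,false,false,
  [0,-1,1],[1,-1],[1,0,-1,-2,0,0,0,1],(⟨0,[(37,0)]⟩,⟨9,[(1,2),(3,0),(14,0),(14,0),(2,0),(1,0),(5,2),
  (0,6)]⟩),(⟨0,[(50,0)]⟩,⟨0,[(51,0)]⟩),⟨0,[(1,0)]⟩,.k,.k,(.r (-2) ⟨15,[(2,11),(25,15),(9,2),(0,2),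
  (12,5),(3,4)]⟩ ⟨0,[(30,0)]⟩),.k,.k,.k,⟨false,1,⟨2,[(0,0),(1,0),(19,0),(5,0),(14,0)]⟩,⟨3,[(21,0),
  (8,1),(0,0),(24,0)]⟩⟩,⟨true,1,⟨2,[(0,0),(10,0),(27,0),(6,0),(2,0)]⟩,⟨0,[(20,0)]⟩⟩,⟨false,1,⟨27,
  [(2,7),(25,3),(5,6),(0,6),(8,3),(1,9),(10,11)]⟩,⟨0,[(55,0)]⟩⟩,⟨true,1,⟨1,[(44,1),(4,0),(7,0)]⟩,⟨0,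
  [(10,0)]⟩⟩,⟨false,0,⟨0,[]⟩,⟨0,[]⟩⟩,⟨false,0,⟨0,[]⟩,⟨0,[]⟩⟩,[.o ⟨false,1,⟨9,[(2,1),(31,3),(3,2),(0,
  2),(9,2),(4,1)]⟩,⟨0,[(55,0)]⟩⟩,.a ⟨true,1,⟨27,[(2,7),(25,3),(5,6),(0,6),(8,3),(1,9),(10,11)]⟩,⟨0,
  [(33,0)]⟩⟩ ⟨false,2,⟨7,[(2,5),(20,1),(4,5),(27,2),(0,0)]⟩,⟨24,[(0,1),(8,2),(14,1),(5,21),(2,11),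
  (15,6),(2,4)]⟩⟩ ⟨true,2,⟨23,[(0,7),(1,5),(8,13),(27,13),(6,1),(2,4),(7,8)]⟩,⟨0,[(7,0),(22,0)]⟩⟩,
  .a ⟨true,(-1),⟨0,[(20,0)]⟩,⟨23,[(0,15),(1,1),(25,7),(9,0),(0,0),(4,7),(12,2)]⟩⟩ ⟨true,1,⟨5,[(2,2),
  (19,4),(5,0),(23,0),(1,0)]⟩,⟨24,[(0,1),(8,2),(14,1),(5,21),(2,11),(15,6),(2,4)]⟩⟩ ⟨false,2,⟨23,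
  [(0,7),(1,5),(8,13),(27,13),(6,1),(2,4),(7,8)]⟩,⟨5,[(12,1),(7,2),(9,1),(11,0),(14,0)]⟩⟩,.a ⟨true,
  (-1),⟨3,[(20,3),(13,0),(0,0),(10,1)]⟩,⟨0,[(0,0)]⟩⟩ ⟨false,2,⟨7,[(2,5),(20,1),(4,5),(27,2),(0,0)]⟩,
  ⟨0,[(30,0)]⟩⟩ ⟨true,2,⟨15,[(0,9),(1,3),(8,5),(26,2),(0,8),(9,4),(2,1)]⟩,⟨0,[(7,0),(22,0)]⟩⟩]⟩))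
  (.I [1,0,-2,-1,1,0,0,1] (.I [0,0,-2,0,-1,2,-1,0,2] (.I [1,-2,-2,-2,2,0,0,1] (.I [1,2,2,2,-2,0,0,
  -1] (.N [0,-2,1,0,-2] (-2) ⟨0,[(1,0)]⟩ ⟨0,[(0,0)]⟩ (.x (-2) ⟨3,[(4,3),(18,1),(4,7),(8,6),(0,0),(4,
  7),(8,1)]⟩ ⟨0,[(2,0)]⟩)) (.Q [0,-1,-2,0,2,0,-1,0,0,-1,1] (.p true [0,0,1] [1] (⟨0,[(51,0)]⟩,⟨0,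
  [(50,0)]⟩) .k 1 (⟨0,[]⟩,⟨0,[]⟩) .k .k) (.S ⟨1,1,[],[0,-1,1],[1,0,-1,-2,0,0,0,1],(⟨0,[(41,0)]⟩,⟨0,
  [(51,0),(3,0)]⟩),⟨0,[(5,0)]⟩,.k,(.r (-2) ⟨12,[(1,10),(30,1),(9,3),(0,3),(12,7),(1,5)]⟩ ⟨0,[(34,
  0)]⟩),⟨false,1,⟨11,[(1,3),(6,1),(29,2),(0,2),(2,1),(5,1),(1,1),(10,3)]⟩,⟨0,[(59,0)]⟩⟩,⟨true,1,⟨2,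
  [(0,1),(33,0),(0,0),(2,0),(9,0)]⟩,⟨0,[(11,0)]⟩⟩,⟨true,0,⟨0,[]⟩,⟨15,[(32,1),(5,0),(0,0),(8,1),(7,
  5),(1,1)]⟩⟩,⟨false,1,⟨0,[(0,0),(33,0)]⟩,⟨35,[(1,18),(6,0),(2,12),(3,0),(8,24),(7,4),(5,0),(19,
  23)]⟩⟩,[.fo,.o ⟨false,1,⟨1,[(53,0),(7,0)]⟩,⟨15,[(32,1),(5,0),(0,0),(8,1),(7,5),(1,1)]⟩⟩,.a ⟨true,
  (-1),⟨0,[(24,0)]⟩,⟨62,[(0,25),(3,12),(4,3),(22,6),(4,5),(4,3),(1,3),(3,19),(1,16),(3,15)]⟩⟩ ⟨true,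
  1,⟨4,[(1,0),(2,0),(1,0),(19,2),(31,2)]⟩,⟨14,[(0,0),(12,1),(14,0),(5,12),(2,7),(15,3),(2,2)]⟩⟩
  ⟨false,2,⟨13,[(0,10),(0,0),(30,1),(5,2),(3,1),(0,1),(4,2),(12,1)]⟩,⟨0,[(24,0)]⟩⟩,.e ⟨false,2,⟨12,
  [(1,11),(30,0),(9,1),(0,1),(12,3),(1,2)]⟩,⟨0,[(34,0)]⟩⟩ ⟨false,2,⟨0,[(0,0)]⟩,⟨3,[(24,3),(13,0),(0,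
  0),(10,1)]⟩⟩]⟩) (.I [0,0,-2,-1,1,0,0,1] (.S ⟨1,0,[0,0,-1,-1,0,0,0,1],[0,-1,1],[0,1,-1,-1,0,0,0,1],
  (⟨0,[(42,0)]⟩,⟨0,[(52,0),(3,0)]⟩),⟨0,[(6,0)]⟩,.k,(.r (-2) ⟨12,[(2,10),(30,1),(9,3),(0,3),(12,7),
  (1,5)]⟩ ⟨0,[(35,0)]⟩),⟨true,0,⟨15,[(33,1),(5,0),(0,0),(8,1),(7,5),(1,1)]⟩,⟨0,[]⟩⟩,⟨false,1,⟨1,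
  [(43,0),(0,0),(17,0)]⟩,⟨0,[]⟩⟩,⟨false,0,⟨0,[(60,0)]⟩,⟨11,[(2,3),(6,1),(29,2),(0,2),(2,1),(5,1),(1,
  1),(10,3)]⟩⟩,⟨true,0,⟨0,[(60,0)]⟩,⟨0,[(59,0)]⟩⟩,[.o ⟨false,0,⟨1,[(12,1),(41,0),(7,0)]⟩,⟨1,[(49,1),
  (4,0),(5,1),(1,0)]⟩⟩,.e ⟨false,1,⟨0,[(0,0)]⟩,⟨5,[(35,1),(0,1),(2,0),(0,0),(8,1),(12,1)]⟩⟩ ⟨false,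
  2,⟨11,[(2,7),(30,3),(9,0),(0,0),(12,1),(3,6)]⟩,⟨10,[(1,0),(12,2),(1,0),(4,0),(13,7),(2,0),(15,0),
  (2,1)]⟩⟩,.a ⟨true,(-1),⟨0,[(25,0)]⟩,⟨0,[(51,0),(9,0)]⟩⟩ ⟨false,1,⟨6,[(2,1),(2,2),(27,1),(23,0),(1,
  1)]⟩,⟨17,[(9,0),(16,3),(8,11),(3,0),(0,0),(2,0),(5,0),(12,7)]⟩⟩ ⟨true,1,⟨6,[(2,1),(2,2),(27,1),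
  (23,0),(1,1)]⟩,⟨10,[(1,0),(12,2),(1,0),(4,0),(13,7),(2,0),(15,0),(2,1)]⟩⟩,.o ⟨false,(-1),⟨1,[(1,
  1),(52,0),(7,0)]⟩,⟨1,[(51,1),(2,0),(6,2)]⟩⟩]⟩) (.Q [0,0,0,2,0,0,-1,-1,0,0,1] (.p true [0,0,1] []
  (⟨0,[(53,0)]⟩,⟨0,[(52,0)]⟩) .k 0 (⟨0,[]⟩,⟨0,[]⟩) .k .k) (.R ⟨1,true,false,true,[0,0,1],[0,1],[1,0,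
  0,-1,0,0,0,1],(⟨0,[(54,0)]⟩,⟨0,[(53,0)]⟩),(⟨0,[(57,0)]⟩,⟨0,[(56,0)]⟩),⟨0,[(43,0)]⟩,.k,.k,.k,.k,
  (.r (-2) ⟨12,[(3,10),(30,1),(9,3),(0,3),(12,7),(1,5)]⟩ ⟨0,[(36,0)]⟩),.k,⟨false,2,⟨12,[(3,11),(30,
  0),(9,1),(0,1),(12,3),(1,2)]⟩,⟨4,[(0,0),(14,0),(2,0),(17,3),(2,0),(15,0),(2,0)]⟩⟩,⟨true,1,⟨14,[(0,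
  5),(2,3),(2,6),(27,2),(15,7),(1,0)]⟩,⟨1,[(2,1),(52,0),(7,0)]⟩⟩,⟨false,1,⟨11,[(3,3),(6,1),(29,2),
  (0,2),(2,1),(5,1),(1,1),(10,3)]⟩,⟨0,[(61,0)]⟩⟩,⟨true,0,⟨11,[(0,4),(33,0),(2,0),(12,6),(7,1)]⟩,⟨1,
  [(13,1),(41,0),(7,0)]⟩⟩,⟨true,0,⟨0,[]⟩,⟨15,[(34,1),(5,0),(0,0),(8,1),(7,5),(1,1)]⟩⟩,⟨false,0,⟨0,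
  [(0,0)]⟩,⟨16,[(2,1),(0,11),(4,0),(4,4),(26,11),(0,4),(18,0)]⟩⟩,[]⟩) (.I [1,1,-4,-4,1] (.I [1,-1,4,
  4,-1] (.I [0,0,4,0,-2,-4,0,0,1] (.N [0,-4,0,0,1] (-1) ⟨0,[(2,0)]⟩ ⟨0,[(1,0)]⟩ (.x 2 ⟨0,[(0,0)]⟩
  ⟨0,[(14,0),(32,1),(1,1),(8,0)]⟩)) (.I [0,0,-4,0,2,4,0,0,-1] (.N [0,-4,0,0,1] (-1) ⟨0,[(3,0)]⟩ ⟨0,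
  [(2,0)]⟩ (.x 1 ⟨62,[(2,17),(8,61),(2,23),(9,23),(12,61),(6,89),(4,14),(1,62),(8,3),(6,2)]⟩ ⟨0,[(0,
  0)]⟩)) (.Q [0,-1,0,2,1,0,-1,-1,0,-1,1] (.p true [0,0,1] [1] (⟨0,[(58,0)]⟩,⟨0,[(57,0)]⟩) .k 1 (⟨0,
  []⟩,⟨0,[]⟩) .k .k) (.S ⟨1,1,[],[0,-1,1],[1,0,-1,-2,0,0,0,1],(⟨0,[(48,0)]⟩,⟨7,[(2,0),(13,0),(14,1),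
  (13,1),(11,1),(0,7)]⟩),⟨0,[(12,0)]⟩,.k,(.r (-2) ⟨12,[(8,10),(30,1),(9,3),(0,3),(12,7),(1,5)]⟩ ⟨0,
  [(41,0)]⟩),⟨false,1,⟨11,[(8,3),(6,1),(29,2),(0,2),(2,1),(5,1),(1,1),(10,3)]⟩,⟨0,[(66,0)]⟩⟩,⟨true,
  1,⟨3,[(0,1),(48,0),(0,0),(4,1),(4,0)]⟩,⟨0,[(18,0)]⟩⟩,⟨true,0,⟨0,[]⟩,⟨15,[(39,1),(5,0),(0,0),(8,1),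
  (7,5),(1,1)]⟩⟩,⟨false,1,⟨0,[(0,0)]⟩,⟨15,[(5,0),(2,7),(9,4),(12,10),(7,1),(17,0),(7,10)]⟩⟩,[.fo,.o
  ⟨false,1,⟨1,[(60,0),(7,0)]⟩,⟨15,[(39,1),(5,0),(0,0),(8,1),(7,5),(1,1)]⟩⟩,.a ⟨true,(-1),⟨0,[(31,
  0)]⟩,⟨194,[(0,53),(1,11),(5,9),(1,5),(0,102),(27,14),(8,5),(6,73),(1,60),(3,53)]⟩⟩ ⟨true,1,⟨2,[(4,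
  0),(3,0),(24,0),(5,0),(25,0)]⟩,⟨14,[(0,1),(19,2),(2,1),(17,11),(2,5),(15,2),(2,2)]⟩⟩ ⟨false,2,⟨20,
  [(0,10),(7,8),(2,3),(10,7),(27,7),(4,1),(4,0),(2,2)]⟩,⟨0,[(31,0)]⟩⟩,.o ⟨false,(-1),⟨0,[(5,0),(35,
  0)]⟩,⟨6,[(0,3),(7,1),(2,3),(10,0),(27,0),(4,1),(4,0),(2,2)]⟩⟩]⟩) (.R ⟨0,false,false,true,[1,0,0,0,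
  -1],[2,0,-1,0,-1],[1,0,0,-1],(⟨0,[(51,0)]⟩,⟨0,[(52,0)]⟩),(⟨0,[(51,0),(6,0)]⟩,⟨0,[(26,0),(21,0)]⟩),
  ⟨0,[(26,0)]⟩,.k,.k,(.r (-1) ⟨31,[(8,3),(4,5),(32,1),(8,3),(4,0),(7,10)]⟩ ⟨17,[(39,9),(2,7),(2,0),
  (0,0),(8,1),(7,3)]⟩),.k,.k,.k,⟨false,1,⟨12,[(4,1),(3,3),(2,2),(27,5),(23,2)]⟩,⟨3,[(32,0),(8,1),(0,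
  0),(24,0)]⟩⟩,⟨true,1,⟨1,[(57,1),(2,0),(6,0)]⟩,⟨0,[(31,0)]⟩⟩,⟨true,0,⟨0,[(65,0)]⟩,⟨0,[(66,0)]⟩⟩,
  ⟨false,1,⟨1,[(55,1),(4,0),(7,0)]⟩,⟨1,[(0,0),(2,0),(4,0),(26,0)]⟩⟩,⟨false,0,⟨0,[]⟩,⟨0,[]⟩⟩,⟨false,
  0,⟨0,[]⟩,⟨0,[]⟩⟩,[.o ⟨false,2,⟨1,[(22,1),(9,0),(9,0),(17,0)]⟩,⟨3,[(3,0),(7,0),(13,2),(2,0),(6,
  0)]⟩⟩,.e ⟨false,1,⟨31,[(8,3),(4,5),(32,1),(8,3),(4,0),(7,10)]⟩,⟨13,[(3,2),(35,0),(2,0),(20,7),(3,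
  2)]⟩⟩ ⟨false,2,⟨1,[(55,1),(4,0),(6,0),(0,1)]⟩,⟨0,[(21,0)]⟩⟩,.a ⟨true,1,⟨0,[(49,0)]⟩,⟨0,[(29,0)]⟩⟩
  ⟨false,1,⟨11,[(8,3),(6,1),(29,2),(0,2),(2,1),(5,1),(1,1),(10,3)]⟩,⟨0,[(66,0)]⟩⟩ ⟨true,1,⟨1,[(55,
  1),(4,0),(7,0)]⟩,⟨0,[(21,0)]⟩⟩,.o ⟨false,1,⟨0,[(36,0),(8,0)]⟩,⟨1,[(28,1),(38,0),(0,0)]⟩⟩]⟩))))
  (.R ⟨0,false,false,true,[1,0,0,0,-1],[2,0,-1,0,-1],[1,0,0,-1],(⟨0,[(48,0)]⟩,⟨0,[(49,0)]⟩),(⟨0,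
  [(48,0),(6,0)]⟩,⟨0,[(23,0),(21,0)]⟩),⟨0,[(23,0)]⟩,.k,.k,(.r (-1) ⟨31,[(5,3),(4,5),(32,1),(8,3),(4,
  0),(7,10)]⟩ ⟨17,[(36,9),(2,7),(2,0),(0,0),(8,1),(7,3)]⟩),.k,.k,.k,⟨false,1,⟨12,[(0,1),(4,3),(2,2),
  (27,5),(23,2)]⟩,⟨3,[(29,0),(8,1),(0,0),(24,0)]⟩⟩,⟨true,1,⟨1,[(54,1),(2,0),(6,0)]⟩,⟨0,[(28,0)]⟩⟩,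
  ⟨true,0,⟨0,[(62,0)]⟩,⟨0,[(63,0)]⟩⟩,⟨false,1,⟨1,[(52,1),(4,0),(7,0)]⟩,⟨1,[(15,0),(4,0),(44,1)]⟩⟩,
  ⟨false,0,⟨0,[]⟩,⟨0,[]⟩⟩,⟨false,0,⟨0,[]⟩,⟨0,[]⟩⟩,[.o ⟨false,2,⟨1,[(19,1),(9,0),(9,0),(17,0)]⟩,⟨1,
  [(20,0),(1,0),(2,0),(39,0)]⟩⟩,.e ⟨false,1,⟨31,[(5,3),(4,5),(32,1),(8,3),(4,0),(7,10)]⟩,⟨2,[(31,0),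
  (7,0),(20,0),(2,0)]⟩⟩ ⟨false,2,⟨1,[(52,1),(4,0),(6,0),(0,1)]⟩,⟨0,[(18,0)]⟩⟩,.a ⟨true,1,⟨0,[(46,
  0)]⟩,⟨0,[(26,0)]⟩⟩ ⟨false,1,⟨11,[(5,3),(6,1),(29,2),(0,2),(2,1),(5,1),(1,1),(10,3)]⟩,⟨0,[(63,
  0)]⟩⟩ ⟨true,1,⟨1,[(52,1),(4,0),(7,0)]⟩,⟨0,[(18,0)]⟩⟩,.o ⟨false,1,⟨0,[(33,0),(8,0)]⟩,⟨1,[(25,1),
  (38,0),(0,0)]⟩⟩]⟩)) (.R ⟨0,false,false,true,[1,0,0,0,-1],[2,0,-1,0,-1],[],(⟨0,[(47,0)]⟩,⟨0,[(48,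
  0)]⟩),(⟨0,[(47,0),(6,0)]⟩,⟨0,[(22,0),(21,0)]⟩),⟨0,[(22,0)]⟩,.k,.k,(.r (-1) ⟨31,[(4,3),(4,5),(32,
  1),(8,3),(4,0),(7,10)]⟩ ⟨17,[(35,9),(2,7),(2,0),(0,0),(8,1),(7,3)]⟩),.k,.k,.k,⟨false,1,⟨1,[(7,0),
  (27,0),(27,0)]⟩,⟨14,[(2,4),(13,0),(11,4),(9,1),(2,0),(0,0),(8,1)]⟩⟩,⟨true,1,⟨1,[(53,1),(2,0),(6,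
  0)]⟩,⟨0,[(27,0)]⟩⟩,⟨true,0,⟨15,[(35,1),(5,0),(0,0),(8,1),(7,5),(1,1)]⟩,⟨0,[]⟩⟩,⟨false,1,⟨1,[(51,
  1),(4,0),(7,0)]⟩,⟨1,[(14,0),(4,0),(44,1)]⟩⟩,⟨false,0,⟨0,[]⟩,⟨0,[]⟩⟩,⟨false,0,⟨0,[]⟩,⟨0,[]⟩⟩,[.o
  ⟨false,2,⟨1,[(18,1),(9,0),(9,0),(17,0)]⟩,⟨3,[(0,0),(6,0),(13,2),(2,0),(6,0)]⟩⟩,.e ⟨false,1,⟨1,
  [(63,0),(0,0)]⟩,⟨15,[(35,1),(5,0),(0,0),(8,1),(7,5),(1,1)]⟩⟩ ⟨false,2,⟨1,[(51,1),(4,0),(6,0),(0,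
  1)]⟩,⟨0,[(17,0)]⟩⟩,.a ⟨true,1,⟨0,[(45,0)]⟩,⟨0,[(25,0)]⟩⟩ ⟨false,1,⟨1,[(45,0),(0,0),(17,0)]⟩,⟨0,
  []⟩⟩ ⟨true,1,⟨1,[(51,1),(4,0),(7,0)]⟩,⟨0,[(17,0)]⟩⟩,.o ⟨false,1,⟨0,[(32,0),(8,0)]⟩,⟨1,[(24,1),(38,
  0),(0,0)]⟩⟩]⟩)))))) (.Q [0,0,0,2,0,0,-1,-1,0,0,1] (.p true [0,0,1] [] (⟨0,[(50,0)]⟩,⟨0,[(49,0)]⟩)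
  .k 0 (⟨0,[]⟩,⟨0,[]⟩) .k .k) (.Q [0,0,2,0,-1,0,1,0,0,0,-1] (.p false [0,0,1] [] (⟨0,[(51,0)]⟩,⟨0,
  [(50,0)]⟩) .k 0 (⟨0,[]⟩,⟨0,[]⟩) .k .k) (.R ⟨1,true,false,true,[0,0,1],[0,1],[1,0,0,-1,0,0,0,1],
  (⟨0,[(52,0)]⟩,⟨0,[(51,0)]⟩),(⟨0,[(55,0)]⟩,⟨0,[(54,0)]⟩),⟨0,[(41,0)]⟩,.k,.k,.k,.k,(.r (-2) ⟨13,[(4,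
  4),(1,7),(25,8),(9,6),(0,6),(12,3)]⟩ ⟨0,[(34,0)]⟩),.k,⟨false,2,⟨5,[(4,0),(1,3),(25,4),(27,1),(0,
  0)]⟩,⟨7,[(1,2),(0,3),(25,0),(5,0),(4,0),(13,0)]⟩⟩,⟨true,1,⟨6,[(1,1),(2,4),(27,0),(15,3),(1,0),(10,
  1)]⟩,⟨0,[(0,0)]⟩⟩,⟨false,1,⟨27,[(6,7),(25,3),(5,6),(0,6),(8,3),(1,9),(10,11)]⟩,⟨0,[(59,0)]⟩⟩,
  ⟨true,0,⟨11,[(1,4),(30,0),(2,0),(12,6),(7,1)]⟩,⟨1,[(11,1),(41,0),(7,0)]⟩⟩,⟨true,0,⟨0,[]⟩,⟨15,[(32,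
  1),(5,0),(0,0),(8,1),(7,5),(1,1)]⟩⟩,⟨false,0,⟨0,[(1,0)]⟩,⟨11,[(0,3),(5,5),(19,11),(11,1),(0,3),
  (13,0),(7,2)]⟩⟩,[]⟩) (.S ⟨1,4,[],[0,-1,1],[1,0,-1,-2,0,0,0,1],(⟨0,[(41,0)]⟩,⟨0,[(51,0),(3,0)]⟩),
  ⟨0,[(5,0)]⟩,.k,(.r (-2) ⟨13,[(4,4),(1,7),(25,8),(9,6),(0,6),(12,3)]⟩ ⟨0,[(34,0)]⟩),⟨false,1,⟨27,
  [(6,7),(25,3),(5,6),(0,6),(8,3),(1,9),(10,11)]⟩,⟨0,[(59,0)]⟩⟩,⟨true,0,⟨11,[(1,4),(30,0),(2,0),(12,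
  6),(7,1)]⟩,⟨1,[(11,1),(41,0),(7,0)]⟩⟩,⟨true,0,⟨0,[]⟩,⟨15,[(32,1),(5,0),(0,0),(8,1),(7,5),(1,1)]⟩⟩,
  ⟨false,0,⟨0,[(1,0)]⟩,⟨9,[(6,3),(4,3),(14,5),(11,4),(0,2),(13,0),(7,4)]⟩⟩,[.o ⟨false,0,⟨15,[(32,1),
  (5,0),(0,0),(8,1),(7,5),(1,1)]⟩,⟨1,[(53,0),(7,0)]⟩⟩,.e ⟨false,2,⟨5,[(4,0),(1,3),(25,4),(27,1),(0,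
  0)]⟩,⟨7,[(1,2),(0,3),(25,0),(5,0),(4,0),(13,0)]⟩⟩ ⟨false,1,⟨0,[(0,0)]⟩,⟨0,[(49,0)]⟩⟩,.a ⟨true,
  (-1),⟨0,[(24,0)]⟩,⟨23,[(0,15),(5,1),(25,7),(9,0),(0,0),(4,7),(12,2)]⟩⟩ ⟨true,1,⟨4,[(4,0),(1,1),
  (19,2),(5,0),(25,1)]⟩,⟨7,[(1,2),(0,3),(25,0),(5,0),(4,0),(13,0)]⟩⟩ ⟨false,1,⟨23,[(0,15),(5,1),(25,
  7),(9,0),(0,0),(4,7),(12,2)]⟩,⟨1,[(24,1),(28,0),(7,0)]⟩⟩,.e ⟨false,2,⟨5,[(4,0),(1,3),(25,4),(27,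
  1),(0,0)]⟩,⟨0,[(34,0)]⟩⟩ ⟨false,1,⟨0,[(0,0)]⟩,⟨3,[(24,1),(13,2),(0,0),(21,1)]⟩⟩]⟩)) (.R ⟨0,false,
  false,true,[1,0,0,0,-1],[2,0,-1,0,-1],[1,0,0,-1],(⟨0,[(43,0)]⟩,⟨0,[(44,0)]⟩),(⟨0,[(43,0),(6,0)]⟩,
  ⟨0,[(18,0),(21,0)]⟩),⟨0,[(18,0)]⟩,.k,.k,(.r (-1) ⟨7,[(5,1),(35,0),(0,0),(17,2)]⟩ ⟨17,[(31,9),(2,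
  7),(2,0),(0,0),(8,1),(7,3)]⟩),.k,.k,.k,⟨false,1,⟨6,[(3,2),(1,1),(25,3),(23,0)]⟩,⟨3,[(24,0),(8,1),
  (0,0),(24,0)]⟩⟩,⟨true,1,⟨1,[(49,1),(2,0),(6,0)]⟩,⟨0,[(23,0)]⟩⟩,⟨true,0,⟨0,[(57,0)]⟩,⟨0,[(58,0)]⟩⟩,
  ⟨false,1,⟨1,[(47,1),(4,0),(7,0)]⟩,⟨1,[(10,0),(4,0),(44,1)]⟩⟩,⟨false,0,⟨0,[]⟩,⟨0,[]⟩⟩,⟨false,0,⟨0,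
  []⟩,⟨0,[]⟩⟩,[.o ⟨false,2,⟨1,[(14,1),(9,0),(9,0),(17,0)]⟩,⟨1,[(15,0),(1,0),(2,0),(39,0)]⟩⟩,.e
  ⟨false,1,⟨7,[(5,1),(35,0),(0,0),(17,2)]⟩,⟨2,[(26,0),(7,0),(20,0),(2,0)]⟩⟩ ⟨false,2,⟨1,[(47,1),(4,
  0),(6,0),(0,1)]⟩,⟨0,[(13,0)]⟩⟩,.a ⟨true,1,⟨0,[(41,0)]⟩,⟨0,[(21,0)]⟩⟩ ⟨false,1,⟨27,[(5,7),(25,3),
  (5,6),(0,6),(8,3),(1,9),(10,11)]⟩,⟨0,[(58,0)]⟩⟩ ⟨true,1,⟨1,[(47,1),(4,0),(7,0)]⟩,⟨0,[(13,0)]⟩⟩,.o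
  ⟨false,1,⟨0,[(28,0),(8,0)]⟩,⟨1,[(20,1),(38,0),(0,0)]⟩⟩]⟩))) (.Q [0,-1,0,2,1,0,-1,-1,0,-1,1] (.p
  true [0,0,1] [1] (⟨0,[(49,0)]⟩,⟨0,[(48,0)]⟩) .k 1 (⟨0,[]⟩,⟨0,[]⟩) .k .k) (.Q [0,0,2,0,-1,0,1,0,0,
  0,-1] (.p false [0,0,1] [] (⟨0,[(50,0)]⟩,⟨0,[(49,0)]⟩) .k 0 (⟨0,[]⟩,⟨0,[]⟩) .k .k) (.S ⟨1,1,[],[0,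
  -1,1],[1,0,-1,-2,0,0,0,1],(⟨0,[(40,0)]⟩,⟨0,[(50,0),(3,0)]⟩),⟨0,[(4,0)]⟩,.k,(.r (-2) ⟨13,[(3,4),(1,
  7),(25,8),(9,6),(0,6),(12,3)]⟩ ⟨0,[(33,0)]⟩),⟨false,1,⟨27,[(5,7),(25,3),(5,6),(0,6),(8,3),(1,9),
  (10,11)]⟩,⟨0,[(58,0)]⟩⟩,⟨true,1,⟨3,[(1,1),(39,0),(0,0),(4,1),(4,0)]⟩,⟨0,[(10,0)]⟩⟩,⟨true,0,⟨0,[]⟩,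
  ⟨15,[(31,1),(5,0),(0,0),(8,1),(7,5),(1,1)]⟩⟩,⟨false,1,⟨0,[(1,0)]⟩,⟨18,[(5,9),(4,6),(12,12),(7,11),
  (5,0),(11,0),(7,2)]⟩⟩,[.fo,.o ⟨false,1,⟨1,[(52,0),(7,0)]⟩,⟨15,[(31,1),(5,0),(0,0),(8,1),(7,5),(1,
  1)]⟩⟩,.a ⟨true,(-1),⟨0,[(23,0)]⟩,⟨17,[(1,4),(1,10),(4,0),(22,0),(9,0),(1,0),(3,6),(1,5),(3,3),(6,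
  0)]⟩⟩ ⟨true,1,⟨4,[(3,0),(1,1),(19,2),(5,0),(25,1)]⟩,⟨14,[(1,1),(10,2),(2,1),(17,11),(2,5),(15,2),
  (2,2)]⟩⟩ ⟨false,2,⟨2,[(1,1),(1,0),(1,0),(8,0),(16,0),(10,0)]⟩,⟨0,[(23,0)]⟩⟩,.o ⟨false,(-1),⟨0,[(0,
  0)]⟩,⟨36,[(1,23),(1,23),(1,5),(8,12),(26,0),(0,13),(12,14)]⟩⟩]⟩) (.S ⟨1,1,[],[0,-1,1],[1,0,-1,-2,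
  0,0,0,1],(⟨0,[(40,0)]⟩,⟨0,[(50,0),(3,0)]⟩),⟨0,[(4,0)]⟩,.k,(.r (-2) ⟨13,[(3,4),(1,7),(25,8),(9,6),
  (0,6),(12,3)]⟩ ⟨0,[(33,0)]⟩),⟨false,1,⟨27,[(5,7),(25,3),(5,6),(0,6),(8,3),(1,9),(10,11)]⟩,⟨0,[(58,
  0)]⟩⟩,⟨true,1,⟨3,[(1,1),(39,0),(0,0),(4,1),(4,0)]⟩,⟨0,[(10,0)]⟩⟩,⟨true,0,⟨0,[]⟩,⟨15,[(31,1),(5,0),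
  (0,0),(8,1),(7,5),(1,1)]⟩⟩,⟨false,1,⟨0,[(1,0)]⟩,⟨18,[(5,9),(4,6),(12,12),(7,11),(5,0),(11,0),(7,
  2)]⟩⟩,[.fo,.o ⟨false,1,⟨1,[(52,0),(7,0)]⟩,⟨15,[(31,1),(5,0),(0,0),(8,1),(7,5),(1,1)]⟩⟩,.a ⟨true,
  (-1),⟨0,[(23,0)]⟩,⟨23,[(0,15),(4,1),(25,7),(9,0),(0,0),(4,7),(12,2)]⟩⟩ ⟨true,1,⟨4,[(3,0),(1,1),
  (19,2),(5,0),(25,1)]⟩,⟨14,[(1,1),(10,2),(2,1),(17,11),(2,5),(15,2),(2,2)]⟩⟩ ⟨false,2,⟨6,[(0,1),(0,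
  3),(3,2),(8,0),(16,3),(10,0),(9,0)]⟩,⟨0,[(23,0)]⟩⟩,.e ⟨false,2,⟨5,[(3,0),(1,3),(25,4),(27,1),(0,
  0)]⟩,⟨0,[(33,0)]⟩⟩ ⟨false,2,⟨1,[(0,1),(51,0),(7,0)]⟩,⟨3,[(23,3),(13,0),(0,0),(10,1)]⟩⟩]⟩)) (.R ⟨0,
  false,false,true,[1,0,0,0,-1],[2,0,-1,0,-1],[1,0,0,-1],(⟨0,[(42,0)]⟩,⟨0,[(43,0)]⟩),(⟨0,[(42,0),(6,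
  0)]⟩,⟨0,[(17,0),(21,0)]⟩),⟨0,[(17,0)]⟩,.k,.k,(.r (-1) ⟨7,[(4,1),(35,0),(0,0),(17,2)]⟩ ⟨17,[(30,9),
  (2,7),(2,0),(0,0),(8,1),(7,3)]⟩),.k,.k,.k,⟨false,1,⟨6,[(2,2),(1,1),(25,3),(23,0)]⟩,⟨3,[(23,0),(8,
  1),(0,0),(24,0)]⟩⟩,⟨true,1,⟨1,[(48,1),(2,0),(6,0)]⟩,⟨0,[(22,0)]⟩⟩,⟨true,0,⟨0,[(56,0)]⟩,⟨0,[(57,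
  0)]⟩⟩,⟨false,1,⟨1,[(46,1),(4,0),(7,0)]⟩,⟨1,[(9,0),(4,0),(44,1)]⟩⟩,⟨false,0,⟨0,[]⟩,⟨0,[]⟩⟩,⟨false,
  0,⟨0,[]⟩,⟨0,[]⟩⟩,[.o ⟨false,2,⟨1,[(13,1),(9,0),(9,0),(17,0)]⟩,⟨1,[(14,0),(1,0),(2,0),(39,0)]⟩⟩,.e
  ⟨false,1,⟨7,[(4,1),(35,0),(0,0),(17,2)]⟩,⟨2,[(25,0),(7,0),(20,0),(2,0)]⟩⟩ ⟨false,2,⟨1,[(46,1),(4,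
  0),(6,0),(0,1)]⟩,⟨0,[(12,0)]⟩⟩,.a ⟨true,1,⟨0,[(40,0)]⟩,⟨0,[(20,0)]⟩⟩ ⟨false,1,⟨27,[(4,7),(25,3),
  (5,6),(0,6),(8,3),(1,9),(10,11)]⟩,⟨0,[(57,0)]⟩⟩ ⟨true,1,⟨1,[(46,1),(4,0),(7,0)]⟩,⟨0,[(12,0)]⟩⟩,.o
  ⟨false,1,⟨4,[(1,0),(11,0),(3,1),(18,0),(3,1),(8,0),(1,0)]⟩,⟨1,[(19,1),(38,0),(0,0)]⟩⟩]⟩))) (.Q [0,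
  -1,0,2,1,0,-1,-1,0,-1,1] (.p true [0,0,1] [1] (⟨0,[(48,0)]⟩,⟨0,[(47,0)]⟩) .k 1 (⟨0,[]⟩,⟨0,[]⟩) .k
  .k) (.S ⟨1,1,[],[0,-1,1],[1,0,-1,-2,0,0,0,1],(⟨0,[(38,0)]⟩,⟨0,[(48,0),(3,0)]⟩),⟨0,[(2,0)]⟩,.k,(.r
  (-2) ⟨15,[(3,11),(25,15),(9,2),(0,2),(12,5),(3,4)]⟩ ⟨0,[(31,0)]⟩),⟨false,1,⟨27,[(3,7),(25,3),(5,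
  6),(0,6),(8,3),(1,9),(10,11)]⟩,⟨0,[(56,0)]⟩⟩,⟨true,1,⟨3,[(0,1),(38,0),(0,0),(4,1),(4,0)]⟩,⟨0,[(8,
  0)]⟩⟩,⟨true,0,⟨0,[]⟩,⟨15,[(29,1),(5,0),(0,0),(8,1),(7,5),(1,1)]⟩⟩,⟨false,1,⟨0,[(0,0)]⟩,⟨18,[(3,9),
  (4,6),(12,12),(7,11),(5,0),(11,0),(7,2)]⟩⟩,[.fo,.o ⟨false,1,⟨1,[(50,0),(7,0)]⟩,⟨15,[(29,1),(5,0),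
  (0,0),(8,1),(7,5),(1,1)]⟩⟩,.a ⟨true,(-1),⟨0,[(21,0)]⟩,⟨0,[(47,0),(9,0)]⟩⟩ ⟨true,1,⟨5,[(3,2),(19,
  4),(5,0),(23,0),(1,0)]⟩,⟨14,[(0,1),(9,2),(2,1),(17,11),(2,5),(15,2),(2,2)]⟩⟩ ⟨false,2,⟨11,[(0,7),
  (2,5),(8,3),(11,6),(4,0),(10,3),(12,0)]⟩,⟨0,[(21,0)]⟩⟩,.o ⟨false,(-1),⟨1,[(1,1),(6,1),(41,0),(7,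
  0)]⟩,⟨4,[(0,3),(2,2),(8,0),(5,0),(5,3),(28,2)]⟩⟩]⟩) (.R ⟨0,false,false,true,[1,0,0,0,-1],[2,0,-1,
  0,-1],[1,0,0,-1],(⟨0,[(41,0)]⟩,⟨0,[(42,0)]⟩),(⟨0,[(41,0),(6,0)]⟩,⟨0,[(16,0),(21,0)]⟩),⟨0,[(16,
  0)]⟩,.k,.k,(.r (-1) ⟨7,[(3,1),(35,0),(0,0),(17,2)]⟩ ⟨17,[(29,9),(2,7),(2,0),(0,0),(8,1),(7,3)]⟩),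
  .k,.k,.k,⟨false,1,⟨3,[(3,1),(20,2),(4,0),(23,0)]⟩,⟨3,[(22,0),(8,1),(0,0),(24,0)]⟩⟩,⟨true,1,⟨1,
  [(47,1),(2,0),(6,0)]⟩,⟨0,[(21,0)]⟩⟩,⟨true,0,⟨0,[(55,0)]⟩,⟨0,[(56,0)]⟩⟩,⟨false,1,⟨1,[(45,1),(4,0),
  (7,0)]⟩,⟨2,[(0,0),(12,1),(44,2)]⟩⟩,⟨false,0,⟨0,[]⟩,⟨0,[]⟩⟩,⟨false,0,⟨0,[]⟩,⟨0,[]⟩⟩,[.o ⟨false,2,
  ⟨1,[(12,1),(9,0),(9,0),(17,0)]⟩,⟨1,[(13,0),(1,0),(2,0),(39,0)]⟩⟩,.e ⟨false,1,⟨7,[(3,1),(35,0),(0,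
  0),(17,2)]⟩,⟨2,[(24,0),(7,0),(20,0),(2,0)]⟩⟩ ⟨false,2,⟨1,[(45,1),(4,0),(6,0),(0,1)]⟩,⟨0,[(11,
  0)]⟩⟩,.a ⟨true,1,⟨0,[(39,0)]⟩,⟨0,[(19,0)]⟩⟩ ⟨false,1,⟨27,[(3,7),(25,3),(5,6),(0,6),(8,3),(1,9),
  (10,11)]⟩,⟨0,[(56,0)]⟩⟩ ⟨true,1,⟨1,[(45,1),(4,0),(7,0)]⟩,⟨0,[(11,0)]⟩⟩,.o ⟨false,1,⟨0,[(26,0),(8,
  0)]⟩,⟨1,[(18,1),(38,0),(0,0)]⟩⟩]⟩))))) (.Q [0,0,0,2,0,0,-1,-1,0,0,1] (.p true [0,0,1] [] (⟨0,[(45,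
  0)]⟩,⟨0,[(44,0)]⟩) .k 0 (⟨0,[]⟩,⟨0,[]⟩) .k .k) (.Q [0,0,2,0,-1,0,1,0,0,0,-1] (.p false [0,0,1] []
  (⟨0,[(46,0)]⟩,⟨0,[(45,0)]⟩) .k 0 (⟨0,[]⟩,⟨0,[]⟩) .k .k) (.R ⟨1,true,false,false,[0,0,1],[0,1],[0,
  1,0,0,0,0,0,1],(⟨0,[(47,0)]⟩,⟨0,[(46,0)]⟩),(⟨0,[(50,0)]⟩,⟨0,[(49,0)]⟩),⟨0,[(36,0)]⟩,.k,.k,.k,.k,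
  (.r (-2) ⟨3,[(21,3),(9,1),(21,3),(1,4),(0,2)]⟩ ⟨0,[(29,0)]⟩),.k,⟨false,1,⟨0,[(21,0),(30,0),(2,
  0)]⟩,⟨17,[(3,0),(16,3),(8,11),(3,0),(0,0),(2,0),(5,0),(12,7)]⟩⟩,⟨true,1,⟨0,[(45,0),(9,0)]⟩,⟨0,[(0,
  0)]⟩⟩,⟨true,0,⟨15,[(27,1),(5,0),(0,0),(8,1),(7,5),(1,1)]⟩,⟨0,[]⟩⟩,⟨false,1,⟨3,[(1,1),(35,0),(0,0),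
  (4,1),(12,2)]⟩,⟨1,[(6,1),(41,0),(7,0)]⟩⟩,⟨false,0,⟨0,[(54,0)]⟩,⟨0,[(53,0),(2,0)]⟩⟩,⟨true,0,⟨0,[(1,
  0)]⟩,⟨9,[(6,3),(14,5),(9,7),(1,0),(0,2),(13,2),(7,0)]⟩⟩,[]⟩) (.R ⟨1,false,false,false,[0,0,1],[0,
  1],[1,0,1,1],(⟨0,[(47,0)]⟩,⟨0,[(46,0)]⟩),(⟨0,[(50,0)]⟩,⟨0,[(49,0)]⟩),⟨0,[(36,0)]⟩,.k,.k,.k,.k,(.r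
  (-2) ⟨5,[(0,4),(20,0),(9,2),(10,4),(10,5),(2,6)]⟩ ⟨0,[(29,0)]⟩),.k,⟨true,0,⟨0,[]⟩,⟨3,[(33,0),(0,
  0),(10,1)]⟩⟩,⟨false,1,⟨0,[(0,0)]⟩,⟨0,[(44,0)]⟩⟩,⟨false,0,⟨17,[(3,0),(16,3),(8,11),(3,0),(0,0),(2,
  0),(5,0),(12,7)]⟩,⟨1,[(0,0),(20,0),(9,0),(10,0),(13,0)]⟩⟩,⟨false,1,⟨3,[(1,1),(35,0),(0,0),(4,1),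
  (12,2)]⟩,⟨1,[(6,1),(41,0),(7,0)]⟩⟩,⟨false,0,⟨7,[(1,2),(21,0),(5,4),(4,0),(13,0),(7,3)]⟩,⟨2,[(0,0),
  (20,1),(9,2),(10,0),(13,1)]⟩⟩,⟨true,0,⟨0,[(1,0)]⟩,⟨9,[(6,3),(14,5),(9,7),(1,0),(0,2),(13,2),(7,
  0)]⟩⟩,[.o ⟨false,0,⟨0,[(54,0)]⟩,⟨1,[(48,0),(4,1),(2,0)]⟩⟩,.a ⟨true,0,⟨0,[(32,0),(23,0)]⟩,⟨0,[(53,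
  0)]⟩⟩ ⟨false,1,⟨15,[(1,3),(25,5),(2,1),(3,1),(13,0),(6,5),(0,8)]⟩,⟨0,[(52,0)]⟩⟩ ⟨true,1,⟨12,[(0,
  5),(0,3),(25,4),(15,0),(1,1),(10,6)]⟩,⟨4,[(3,0),(2,2),(1,0),(1,0),(8,3),(9,0),(18,2)]⟩⟩,.o ⟨false,
  0,⟨4,[(19,1),(3,0),(10,0),(13,1)]⟩,⟨2,[(0,0),(9,0),(27,0),(6,0),(2,0)]⟩⟩,.e ⟨true,0,⟨5,[(1,1),(9,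
  1),(36,0),(7,0)]⟩,⟨0,[(53,0)]⟩⟩ ⟨true,1,⟨5,[(0,3),(0,1),(25,1),(9,0),(0,0),(16,0)]⟩,⟨4,[(3,0),(2,
  2),(1,0),(1,0),(8,3),(9,0),(18,2)]⟩⟩]⟩)) (.Q [0,0,0,0,0,2,0,0,0,0,-1] (.p false [0,0,1] [] (⟨0,
  [(46,0)]⟩,⟨0,[(45,0)]⟩) .k 0 (⟨0,[]⟩,⟨0,[]⟩) .k .k) (.R ⟨0,false,false,false,[0,-1,1],[1,-1],[],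
  (⟨0,[(36,0)]⟩,⟨9,[(0,2),(3,0),(14,0),(14,0),(2,0),(1,0),(5,2),(0,6)]⟩),(⟨0,[(49,0)]⟩,⟨0,[(50,
  0)]⟩),⟨0,[(0,0)]⟩,.k,.k,(.r (-2) ⟨3,[(21,3),(9,1),(21,3),(1,4),(0,2)]⟩ ⟨0,[(29,0)]⟩),.k,.k,.k,
  ⟨false,0,⟨0,[(54,0)]⟩,⟨1,[(53,1),(1,0),(0,0)]⟩⟩,⟨true,1,⟨1,[(45,1),(2,0),(6,0)]⟩,⟨0,[(19,0)]⟩⟩,
  ⟨false,0,⟨17,[(3,0),(16,3),(8,11),(3,0),(0,0),(2,0),(5,0),(12,7)]⟩,⟨3,[(21,3),(9,1),(23,2),(0,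
  0)]⟩⟩,⟨true,1,⟨1,[(43,1),(4,0),(7,0)]⟩,⟨0,[(9,0)]⟩⟩,⟨false,0,⟨0,[]⟩,⟨0,[]⟩⟩,⟨false,0,⟨0,[]⟩,⟨0,
  []⟩⟩,[.o ⟨false,1,⟨1,[(48,0),(4,1),(2,0)]⟩,⟨0,[(54,0)]⟩⟩,.a ⟨true,1,⟨0,[(53,0),(2,0)]⟩,⟨0,[(32,
  0)]⟩⟩ ⟨false,1,⟨1,[(55,0),(0,0)]⟩,⟨15,[(27,1),(5,0),(0,0),(8,1),(7,5),(1,1)]⟩⟩ ⟨true,2,⟨3,[(3,1),
  (6,1),(10,1),(26,0),(6,3),(0,2)]⟩,⟨0,[(6,0),(22,0)]⟩⟩,.e ⟨false,1,⟨1,[(37,0),(0,0),(17,0)]⟩,⟨0,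
  []⟩⟩ ⟨false,2,⟨3,[(3,1),(6,1),(10,1),(26,0),(6,3),(0,2)]⟩,⟨7,[(2,1),(16,4),(3,1),(17,0),(14,0)]⟩⟩,
  .o ⟨false,(-1),⟨0,[(1,0),(27,0)]⟩,⟨1,[(45,1),(2,0),(6,2)]⟩⟩]⟩) (.Q [0,-1,0,2,1,0,-1,-1,0,-1,1]
  (.p true [0,0,1] [1] (⟨0,[(47,0)]⟩,⟨0,[(46,0)]⟩) .k 1 (⟨0,[]⟩,⟨0,[]⟩) .k .k) (.S ⟨1,1,[],[0,-1,1],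
  [1,0,-1,-2,0,0,0,1],(⟨0,[(37,0)]⟩,⟨0,[(47,0),(3,0)]⟩),⟨0,[(1,0)]⟩,.k,(.r (-2) ⟨3,[(22,3),(9,1),
  (21,3),(1,4),(0,2)]⟩ ⟨0,[(30,0)]⟩),⟨false,1,⟨0,[(54,0),(2,0)]⟩,⟨0,[(55,0)]⟩⟩,⟨true,1,⟨3,[(0,1),
  (37,0),(0,0),(4,1),(4,0)]⟩,⟨0,[(7,0)]⟩⟩,⟨true,0,⟨0,[]⟩,⟨15,[(28,1),(5,0),(0,0),(8,1),(7,5),(1,
  1)]⟩⟩,⟨false,1,⟨0,[(0,0)]⟩,⟨3,[(2,0),(1,0),(2,0),(6,2),(23,3),(18,0)]⟩⟩,[.fo,.o ⟨false,1,⟨1,[(49,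
  0),(7,0)]⟩,⟨15,[(28,1),(5,0),(0,0),(8,1),(7,5),(1,1)]⟩⟩,.a ⟨true,(-1),⟨0,[(20,0)]⟩,⟨0,[(46,0),(9,
  0)]⟩⟩ ⟨true,1,⟨1,[(22,1),(9,1),(23,0),(0,0)]⟩,⟨23,[(0,4),(2,12),(5,11),(14,4),(5,2),(0,3)]⟩⟩
  ⟨false,2,⟨1,[(46,1),(2,0),(6,1),(0,0)]⟩,⟨0,[(20,0)]⟩⟩,.o ⟨false,(-1),⟨0,[(2,0),(27,0)]⟩,⟨1,[(46,
  1),(2,0),(6,2)]⟩⟩]⟩) (.R ⟨0,false,false,true,[1,0,0,0,-1],[2,0,-1,0,-1],[1,0,0,-1],(⟨0,[(40,0)]⟩,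
  ⟨0,[(41,0)]⟩),(⟨0,[(40,0),(6,0)]⟩,⟨0,[(15,0),(21,0)]⟩),⟨0,[(15,0)]⟩,.k,.k,(.r (-1) ⟨3,[(32,1),(23,
  0),(0,2)]⟩ ⟨17,[(28,9),(2,7),(2,0),(0,0),(8,1),(7,3)]⟩),.k,.k,.k,⟨false,1,⟨3,[(22,3),(9,1),(23,2),
  (0,0)]⟩,⟨3,[(21,0),(8,1),(0,0),(24,0)]⟩⟩,⟨true,1,⟨1,[(46,1),(2,0),(6,0)]⟩,⟨0,[(20,0)]⟩⟩,⟨true,0,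
  ⟨0,[(54,0)]⟩,⟨0,[(55,0)]⟩⟩,⟨false,1,⟨1,[(44,1),(4,0),(7,0)]⟩,⟨1,[(7,0),(4,0),(44,1)]⟩⟩,⟨false,0,
  ⟨0,[]⟩,⟨0,[]⟩⟩,⟨false,0,⟨0,[]⟩,⟨0,[]⟩⟩,[.o ⟨false,2,⟨1,[(11,1),(9,0),(9,0),(17,0)]⟩,⟨1,[(12,0),(1,
  0),(2,0),(39,0)]⟩⟩,.e ⟨false,1,⟨3,[(32,1),(23,0),(0,2)]⟩,⟨5,[(3,0),(24,0),(2,0),(20,1),(3,1)]⟩⟩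
  ⟨false,2,⟨1,[(44,1),(4,0),(6,0),(0,1)]⟩,⟨0,[(10,0)]⟩⟩,.a ⟨true,1,⟨0,[(38,0)]⟩,⟨0,[(18,0)]⟩⟩
  ⟨false,1,⟨0,[(54,0),(2,0)]⟩,⟨0,[(55,0)]⟩⟩ ⟨true,1,⟨1,[(44,1),(4,0),(7,0)]⟩,⟨0,[(10,0)]⟩⟩,.o
  ⟨false,1,⟨0,[(25,0),(8,0)]⟩,⟨1,[(17,1),(38,0),(0,0)]⟩⟩]⟩)))))) (.Q [0,0,0,0,0,2,0,0,0,0,-1] (.p
  false [0,0,1] [] (⟨0,[(43,0)]⟩,⟨0,[(42,0)]⟩) .k 0 (⟨0,[]⟩,⟨0,[]⟩) .k .k) (.Q [0,0,2,0,-1,0,1,0,0,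
  0,-1] (.p false [0,0,1] [] (⟨0,[(44,0)]⟩,⟨0,[(43,0)]⟩) .k 0 (⟨0,[]⟩,⟨0,[]⟩) .k .k) (.R ⟨0,false,
  false,false,[0,-1,1],[1,-1],[],(⟨0,[(34,0)]⟩,⟨9,[(1,2),(1,0),(13,0),(14,0),(2,0),(1,0),(5,2),(0,
  6)]⟩),(⟨0,[(47,0)]⟩,⟨0,[(48,0)]⟩),⟨0,[(1,0)]⟩,.k,.k,(.r (-2) ⟨3,[(19,3),(9,1),(21,3),(1,4),(0,
  2)]⟩ ⟨0,[(27,0)]⟩),.k,.k,.k,⟨false,0,⟨0,[(52,0)]⟩,⟨1,[(51,1),(1,0),(0,0)]⟩⟩,⟨true,1,⟨1,[(43,1),(2,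
  0),(6,0)]⟩,⟨0,[(17,0)]⟩⟩,⟨false,0,⟨25,[(0,1),(17,5),(8,15),(3,0),(0,0),(8,3),(12,11)]⟩,⟨3,[(19,3),
  (9,1),(23,2),(0,0)]⟩⟩,⟨true,1,⟨1,[(41,1),(4,0),(7,0)]⟩,⟨0,[(7,0)]⟩⟩,⟨false,0,⟨0,[]⟩,⟨0,[]⟩⟩,
  ⟨false,0,⟨0,[]⟩,⟨0,[]⟩⟩,[.o ⟨false,1,⟨1,[(46,0),(4,1),(2,0)]⟩,⟨0,[(52,0)]⟩⟩,.a ⟨true,1,⟨0,[(51,0),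
  (2,0)]⟩,⟨0,[(30,0)]⟩⟩ ⟨false,1,⟨1,[(53,0),(0,0)]⟩,⟨15,[(25,1),(5,0),(0,0),(8,1),(7,5),(1,1)]⟩⟩
  ⟨true,2,⟨3,[(29,1),(13,3),(2,1),(6,2),(0,2)]⟩,⟨0,[(4,0),(22,0)]⟩⟩,.e ⟨false,1,⟨1,[(35,0),(0,0),
  (17,0)]⟩,⟨0,[]⟩⟩ ⟨false,2,⟨3,[(29,1),(13,3),(2,1),(6,2),(0,2)]⟩,⟨5,[(9,1),(7,2),(9,1),(11,0),(14,
  0)]⟩⟩,.o ⟨false,(-1),⟨0,[(0,0)]⟩,⟨1,[(43,1),(2,0),(6,2)]⟩⟩]⟩) (.R ⟨0,false,false,false,[0,-1,1],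
  [1,-1],[1,0,-1,-2,0,0,0,1],(⟨0,[(34,0)]⟩,⟨9,[(1,2),(1,0),(13,0),(14,0),(2,0),(1,0),(5,2),(0,6)]⟩),
  (⟨0,[(47,0)]⟩,⟨0,[(48,0)]⟩),⟨0,[(1,0)]⟩,.k,.k,(.r (-2) ⟨5,[(0,4),(18,0),(9,2),(10,4),(10,5),(2,
  6)]⟩ ⟨0,[(27,0)]⟩),.k,.k,.k,⟨false,1,⟨1,[(0,0),(18,0),(9,0),(10,0),(13,0)]⟩,⟨3,[(18,0),(8,1),(0,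
  0),(24,0)]⟩⟩,⟨true,1,⟨2,[(0,0),(7,0),(27,0),(6,0),(2,0)]⟩,⟨0,[(17,0)]⟩⟩,⟨false,1,⟨0,[(51,0),(2,
  0)]⟩,⟨0,[(52,0)]⟩⟩,⟨true,1,⟨1,[(41,1),(4,0),(7,0)]⟩,⟨0,[(7,0)]⟩⟩,⟨false,0,⟨0,[]⟩,⟨0,[]⟩⟩,⟨false,0,
  ⟨0,[]⟩,⟨0,[]⟩⟩,[.o ⟨false,1,⟨1,[(46,0),(4,1),(2,0)]⟩,⟨0,[(52,0)]⟩⟩,.a ⟨true,1,⟨0,[(51,0),(2,0)]⟩,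
  ⟨0,[(30,0)]⟩⟩ ⟨false,2,⟨2,[(0,1),(18,0),(9,2),(10,1),(13,3)]⟩,⟨24,[(0,1),(5,2),(14,1),(5,21),(2,
  11),(15,6),(2,4)]⟩⟩ ⟨true,2,⟨3,[(0,1),(7,1),(20,1),(6,1),(9,0),(7,2)]⟩,⟨0,[(4,0),(22,0)]⟩⟩,.a
  ⟨true,(-1),⟨0,[(17,0)]⟩,⟨2,[(0,1),(34,0),(0,0),(6,0)]⟩⟩ ⟨true,1,⟨2,[(0,0),(18,1),(9,2),(10,0),(13,
  1)]⟩,⟨24,[(0,1),(5,2),(14,1),(5,21),(2,11),(15,6),(2,4)]⟩⟩ ⟨false,2,⟨3,[(0,1),(7,1),(20,1),(6,1),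
  (9,0),(7,2)]⟩,⟨5,[(9,1),(7,2),(9,1),(11,0),(14,0)]⟩⟩,.a ⟨true,(-1),⟨3,[(17,3),(13,0),(0,0),(10,
  1)]⟩,⟨0,[(0,0)]⟩⟩ ⟨false,2,⟨2,[(0,1),(18,0),(9,2),(10,1),(13,3)]⟩,⟨0,[(27,0)]⟩⟩ ⟨true,2,⟨1,[(0,1),
  (45,0),(4,1),(2,0)]⟩,⟨0,[(4,0),(22,0)]⟩⟩]⟩)) (.I [1,0,-2,-1,1,0,0,1] (.Q [0,-1,-2,0,2,0,-1,0,0,-1,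
  1] (.p true [0,0,1] [1] (⟨0,[(45,0)]⟩,⟨0,[(44,0)]⟩) .k 1 (⟨0,[]⟩,⟨0,[]⟩) .k .k) (.S ⟨1,1,[],[0,-1,
  1],[1,0,-1,-2,0,0,0,1],(⟨0,[(35,0)]⟩,⟨0,[(45,0),(3,0)]⟩),⟨0,[(2,0)]⟩,.k,(.r (-2) ⟨1,[(1,1),(34,0),
  (0,0),(14,1),(2,0)]⟩ ⟨0,[(28,0)]⟩),⟨false,1,⟨0,[(52,0),(2,0)]⟩,⟨0,[(53,0)]⟩⟩,⟨true,1,⟨2,[(0,1),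
  (27,0),(0,0),(2,0),(9,0)]⟩,⟨0,[(5,0)]⟩⟩,⟨true,0,⟨0,[]⟩,⟨15,[(26,1),(5,0),(0,0),(8,1),(7,5),(1,
  1)]⟩⟩,⟨false,1,⟨0,[(0,0),(27,0)]⟩,⟨0,[(5,0),(46,0),(2,0)]⟩⟩,[.fo,.o ⟨false,1,⟨1,[(47,0),(7,0)]⟩,
  ⟨15,[(26,1),(5,0),(0,0),(8,1),(7,5),(1,1)]⟩⟩,.a ⟨true,(-1),⟨0,[(18,0)]⟩,⟨62,[(0,25),(0,12),(2,3),
  (21,6),(4,5),(4,3),(1,3),(3,19),(1,16),(3,15)]⟩⟩ ⟨true,1,⟨1,[(1,0),(18,0),(9,0),(21,0),(2,0)]⟩,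
  ⟨14,[(0,0),(6,1),(14,0),(5,12),(2,7),(15,3),(2,2)]⟩⟩ ⟨false,2,⟨5,[(0,3),(8,1),(26,0),(0,2),(17,
  0)]⟩,⟨0,[(18,0)]⟩⟩,.e ⟨false,2,⟨0,[(1,0),(50,0),(2,0)]⟩,⟨0,[(28,0)]⟩⟩ ⟨false,2,⟨0,[(0,0)]⟩,⟨3,
  [(18,3),(13,0),(0,0),(10,1)]⟩⟩]⟩) (.Q [0,-1,0,2,1,0,-1,-1,0,-1,1] (.p true [0,0,1] [1] (⟨0,[(46,
  0)]⟩,⟨0,[(45,0)]⟩) .k 1 (⟨0,[]⟩,⟨0,[]⟩) .k .k) (.S ⟨1,1,[],[0,-1,1],[1,0,-1,-2,0,0,0,1],(⟨0,[(36,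
  0)]⟩,⟨0,[(46,0),(3,0)]⟩),⟨0,[(3,0)]⟩,.k,(.r (-2) ⟨1,[(2,1),(34,0),(0,0),(14,1),(2,0)]⟩ ⟨0,[(29,
  0)]⟩),⟨false,1,⟨0,[(53,0),(2,0)]⟩,⟨0,[(54,0)]⟩⟩,⟨true,1,⟨3,[(0,1),(36,0),(0,0),(4,1),(4,0)]⟩,⟨0,
  [(6,0)]⟩⟩,⟨true,0,⟨0,[]⟩,⟨15,[(27,1),(5,0),(0,0),(8,1),(7,5),(1,1)]⟩⟩,⟨false,1,⟨0,[(0,0)]⟩,⟨0,[(6,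
  0),(46,0),(2,0)]⟩⟩,[.fo,.o ⟨false,1,⟨1,[(48,0),(7,0)]⟩,⟨15,[(27,1),(5,0),(0,0),(8,1),(7,5),(1,
  1)]⟩⟩,.a ⟨true,(-1),⟨0,[(19,0)]⟩,⟨17,[(0,4),(1,10),(2,0),(21,0),(9,0),(1,0),(3,6),(1,5),(3,3),(6,
  0)]⟩⟩ ⟨true,1,⟨1,[(2,0),(18,0),(9,0),(21,0),(2,0)]⟩,⟨14,[(0,0),(7,1),(14,0),(5,11),(2,7),(15,3),
  (2,2)]⟩⟩ ⟨false,2,⟨5,[(0,1),(1,3),(7,1),(27,1),(4,1),(4,0),(7,2)]⟩,⟨0,[(19,0)]⟩⟩,.o ⟨false,(-1),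
  ⟨1,[(1,1),(46,0),(7,0)]⟩,⟨5,[(0,1),(1,3),(7,1),(27,1),(4,1),(4,0),(6,2)]⟩⟩]⟩) (.I [0,0,-2,0,-1,2,
  -1,0,2] (.I [1,-2,-2,-2,2,0,0,1] (.I [1,2,2,2,-2,0,0,-1] (.N [0,-2,1,0,-2] (-2) ⟨0,[(1,0)]⟩ ⟨0,
  [(0,0)]⟩ (.x (-2) ⟨11,[(4,1),(2,5),(19,17),(8,6),(0,4),(4,17),(7,11),(0,8),(7,0)]⟩ ⟨0,[(2,0)]⟩))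
  (.R ⟨0,false,false,true,[1,0,0,0,-1],[2,0,-1,0,-1],[],(⟨0,[(42,0)]⟩,⟨0,[(43,0)]⟩),(⟨0,[(42,0),(6,
  0)]⟩,⟨0,[(17,0),(21,0)]⟩),⟨0,[(17,0)]⟩,.k,.k,(.r (-1) ⟨17,[(1,5),(9,1),(11,1),(12,0),(0,0),(8,1),
  (12,3)]⟩ ⟨17,[(30,9),(2,7),(2,0),(0,0),(8,1),(7,3)]⟩),.k,.k,.k,⟨false,1,⟨1,[(5,0),(24,0),(27,0)]⟩,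
  ⟨20,[(4,0),(6,1),(11,7),(8,5),(3,2),(0,1),(8,4)]⟩⟩,⟨true,1,⟨1,[(48,1),(2,0),(6,0)]⟩,⟨0,[(22,0)]⟩⟩,
  ⟨true,0,⟨15,[(30,1),(5,0),(0,0),(8,1),(7,5),(1,1)]⟩,⟨0,[]⟩⟩,⟨false,1,⟨1,[(46,1),(4,0),(7,0)]⟩,⟨2,
  [(1,0),(2,0),(9,1),(44,1)]⟩⟩,⟨false,0,⟨0,[]⟩,⟨0,[]⟩⟩,⟨false,0,⟨0,[]⟩,⟨0,[]⟩⟩,[.o ⟨false,2,⟨1,[(13,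
  1),(9,0),(9,0),(17,0)]⟩,⟨1,[(14,0),(1,0),(2,0),(39,0)]⟩⟩,.e ⟨false,1,⟨1,[(58,0),(0,0)]⟩,⟨15,[(30,
  1),(5,0),(0,0),(8,1),(7,5),(1,1)]⟩⟩ ⟨false,2,⟨1,[(46,1),(4,0),(6,0),(0,1)]⟩,⟨0,[(12,0)]⟩⟩,.a
  ⟨true,1,⟨0,[(40,0)]⟩,⟨0,[(20,0)]⟩⟩ ⟨false,1,⟨1,[(40,0),(0,0),(17,0)]⟩,⟨0,[]⟩⟩ ⟨true,1,⟨1,[(46,1),
  (4,0),(7,0)]⟩,⟨0,[(12,0)]⟩⟩,.o ⟨false,1,⟨0,[(27,0),(8,0)]⟩,⟨1,[(19,1),(38,0),(0,0)]⟩⟩]⟩)) (.R ⟨0,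
  false,false,false,[1,0,0,0,-1],[2,0,-1,0,-1],[1,-1,0,-1],(⟨0,[(41,0)]⟩,⟨0,[(42,0)]⟩),(⟨0,[(41,0),
  (6,0)]⟩,⟨0,[(16,0),(21,0)]⟩),⟨0,[(16,0)]⟩,.k,.k,(.r (-1) ⟨4,[(4,0),(17,0),(10,0),(21,0),(2,2)]⟩
  ⟨17,[(29,9),(2,7),(2,0),(0,0),(8,1),(7,3)]⟩),.k,.k,.k,⟨false,1,⟨3,[(4,2),(24,0),(25,1),(2,0)]⟩,⟨3,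
  [(22,0),(8,1),(0,0),(24,0)]⟩⟩,⟨true,1,⟨1,[(47,1),(2,0),(6,0)]⟩,⟨0,[(21,0)]⟩⟩,⟨false,1,⟨0,[(55,0),
  (2,0)]⟩,⟨0,[(56,0)]⟩⟩,⟨true,1,⟨1,[(45,1),(4,0),(7,0)]⟩,⟨0,[(11,0)]⟩⟩,⟨false,0,⟨0,[]⟩,⟨0,[]⟩⟩,
  ⟨false,0,⟨0,[]⟩,⟨0,[]⟩⟩,[.e ⟨false,1,⟨4,[(4,0),(17,0),(10,0),(21,0),(2,2)]⟩,⟨2,[(24,0),(7,0),(20,
  0),(2,0)]⟩⟩ ⟨false,2,⟨1,[(45,1),(4,0),(6,0),(0,1)]⟩,⟨0,[(11,0)]⟩⟩,.o ⟨false,3,⟨1,[(12,1),(9,0),(9,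
  0),(17,0),(7,1)]⟩,⟨1,[(13,0),(0,0),(3,0)]⟩⟩,.a ⟨true,1,⟨0,[(39,0)]⟩,⟨0,[(19,0)]⟩⟩ ⟨true,1,⟨0,[(55,
  0),(2,0)]⟩,⟨0,[(0,0),(3,0)]⟩⟩ ⟨false,2,⟨1,[(45,1),(4,0),(7,2)]⟩,⟨0,[(11,0)]⟩⟩,.o ⟨false,1,⟨0,[(26,
  0),(8,0)]⟩,⟨1,[(18,1),(38,0),(0,0)]⟩⟩]⟩)) (.R ⟨0,false,false,true,[1,0,0,0,-1],[2,0,-1,0,-1],[1,0,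
  0,-1],(⟨0,[(40,0)]⟩,⟨0,[(41,0)]⟩),(⟨0,[(40,0),(6,0)]⟩,⟨0,[(15,0),(21,0)]⟩),⟨0,[(15,0)]⟩,.k,.k,(.r
  (-1) ⟨4,[(3,0),(17,0),(10,0),(21,0),(2,2)]⟩ ⟨17,[(28,9),(2,7),(2,0),(0,0),(8,1),(7,3)]⟩),.k,.k,.k,
  ⟨false,1,⟨3,[(3,2),(24,0),(25,1),(2,0)]⟩,⟨3,[(21,0),(8,1),(0,0),(24,0)]⟩⟩,⟨true,1,⟨1,[(46,1),(2,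
  0),(6,0)]⟩,⟨0,[(20,0)]⟩⟩,⟨true,0,⟨0,[(54,0)]⟩,⟨0,[(55,0)]⟩⟩,⟨false,1,⟨1,[(44,1),(4,0),(7,0)]⟩,⟨1,
  [(7,0),(4,0),(44,1)]⟩⟩,⟨false,0,⟨0,[]⟩,⟨0,[]⟩⟩,⟨false,0,⟨0,[]⟩,⟨0,[]⟩⟩,[.o ⟨false,2,⟨1,[(11,1),(9,
  0),(9,0),(17,0)]⟩,⟨1,[(12,0),(1,0),(2,0),(39,0)]⟩⟩,.e ⟨false,1,⟨4,[(3,0),(17,0),(10,0),(21,0),(2,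
  2)]⟩,⟨2,[(23,0),(7,0),(20,0),(2,0)]⟩⟩ ⟨false,2,⟨1,[(44,1),(4,0),(6,0),(0,1)]⟩,⟨0,[(10,0)]⟩⟩,.a
  ⟨true,1,⟨0,[(38,0)]⟩,⟨0,[(18,0)]⟩⟩ ⟨false,1,⟨0,[(54,0),(2,0)]⟩,⟨0,[(55,0)]⟩⟩ ⟨true,1,⟨1,[(44,1),
  (4,0),(7,0)]⟩,⟨0,[(10,0)]⟩⟩,.o ⟨false,1,⟨4,[(0,0),(10,0),(3,1),(18,0),(3,1),(8,0),(1,0)]⟩,⟨1,[(17,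
  1),(38,0),(0,0)]⟩⟩]⟩)))) (.Q [0,-1,0,2,1,0,-1,-1,0,-1,1] (.p true [0,0,1] [1] (⟨0,[(45,0)]⟩,⟨0,
  [(44,0)]⟩) .k 1 (⟨0,[]⟩,⟨0,[]⟩) .k .k) (.S ⟨1,1,[],[0,-1,1],[1,0,-1,-2,0,0,0,1],(⟨0,[(35,0)]⟩,⟨0,
  [(45,0),(3,0)]⟩),⟨0,[(2,0)]⟩,.k,(.r (-2) ⟨3,[(20,3),(9,1),(21,3),(1,4),(0,2)]⟩ ⟨0,[(28,0)]⟩),
  ⟨false,1,⟨0,[(52,0),(2,0)]⟩,⟨0,[(53,0)]⟩⟩,⟨true,1,⟨3,[(0,1),(35,0),(0,0),(4,1),(4,0)]⟩,⟨0,[(5,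
  0)]⟩⟩,⟨true,0,⟨0,[]⟩,⟨15,[(26,1),(5,0),(0,0),(8,1),(7,5),(1,1)]⟩⟩,⟨false,1,⟨0,[(0,0)]⟩,⟨0,[(5,0),
  (46,0),(2,0)]⟩⟩,[.fo,.o ⟨false,1,⟨1,[(47,0),(7,0)]⟩,⟨15,[(26,1),(5,0),(0,0),(8,1),(7,5),(1,1)]⟩⟩,
  .a ⟨true,(-1),⟨0,[(18,0)]⟩,⟨0,[(44,0),(9,0)]⟩⟩ ⟨true,1,⟨1,[(20,1),(9,1),(23,0),(0,0)]⟩,⟨14,[(0,1),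
  (6,2),(2,1),(17,11),(2,5),(15,2),(2,2)]⟩⟩ ⟨false,2,⟨1,[(44,1),(2,0),(6,1),(0,0)]⟩,⟨0,[(18,0)]⟩⟩,
  .o ⟨false,(-1),⟨1,[(1,1),(3,1),(41,0),(7,0)]⟩,⟨1,[(44,1),(2,0),(6,2)]⟩⟩]⟩) (.R ⟨0,false,false,
  true,[1,0,0,0,-1],[2,0,-1,0,-1],[1,0,0,-1],(⟨0,[(38,0)]⟩,⟨0,[(39,0)]⟩),(⟨0,[(38,0),(6,0)]⟩,⟨0,
  [(13,0),(21,0)]⟩),⟨0,[(13,0)]⟩,.k,.k,(.r (-1) ⟨3,[(30,1),(23,0),(0,2)]⟩ ⟨17,[(26,9),(2,7),(2,0),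
  (0,0),(8,1),(7,3)]⟩),.k,.k,.k,⟨false,1,⟨3,[(20,3),(9,1),(23,2),(0,0)]⟩,⟨3,[(19,0),(8,1),(0,0),(24,
  0)]⟩⟩,⟨true,1,⟨1,[(44,1),(2,0),(6,0)]⟩,⟨0,[(18,0)]⟩⟩,⟨true,0,⟨0,[(52,0)]⟩,⟨0,[(53,0)]⟩⟩,⟨false,1,
  ⟨1,[(42,1),(4,0),(7,0)]⟩,⟨2,[(0,0),(9,1),(44,2)]⟩⟩,⟨false,0,⟨0,[]⟩,⟨0,[]⟩⟩,⟨false,0,⟨0,[]⟩,⟨0,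
  []⟩⟩,[.o ⟨false,2,⟨1,[(9,1),(9,0),(9,0),(17,0)]⟩,⟨1,[(10,0),(1,0),(2,0),(39,0)]⟩⟩,.e ⟨false,1,⟨3,
  [(30,1),(23,0),(0,2)]⟩,⟨2,[(21,0),(7,0),(20,0),(2,0)]⟩⟩ ⟨false,2,⟨1,[(42,1),(4,0),(6,0),(0,1)]⟩,
  ⟨0,[(8,0)]⟩⟩,.a ⟨true,1,⟨0,[(36,0)]⟩,⟨0,[(16,0)]⟩⟩ ⟨false,1,⟨0,[(52,0),(2,0)]⟩,⟨0,[(53,0)]⟩⟩
  ⟨true,1,⟨1,[(42,1),(4,0),(7,0)]⟩,⟨0,[(8,0)]⟩⟩,.o ⟨false,1,⟨0,[(23,0),(8,0)]⟩,⟨1,[(15,1),(38,0),(0,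
  0)]⟩⟩]⟩)))))

theorem ok33 : chk K t33 r35 = true := by decide +kernel

noncomputable def t40 : Tre :=
  (.Q [0,1,0,2,-1,0,1,1,0,1,-1] (.p false [0,0,1] [1] (⟨0,[(36,0)]⟩,⟨0,[(35,0)]⟩) .k 1 (⟨0,[]⟩,⟨0,
  []⟩) .k .k) (.R ⟨1,false,false,true,[1,0,-1],[0,1],[1,1,1,1],(⟨0,[(36,0)]⟩,⟨0,[(37,0)]⟩),(⟨0,[(40,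
  0)]⟩,⟨0,[(39,0)]⟩),⟨0,[(25,0)]⟩,.k,.k,.k,.k,(.r (-1) ⟨0,[(10,0),(32,0)]⟩ ⟨0,[(17,0),(26,0)]⟩),.k,
  ⟨true,0,⟨0,[]⟩,⟨3,[(23,0),(0,0),(10,1)]⟩⟩,⟨false,0,⟨0,[(13,0)]⟩,⟨5,[(1,3),(15,3),(17,1),(2,0),(2,
  1),(3,0)]⟩⟩,⟨false,0,⟨0,[(12,0)]⟩,⟨16,[(1,4),(7,0),(0,7),(10,1),(2,3),(8,3),(12,4)]⟩⟩,⟨false,0,⟨0,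
  [(13,0),(3,0)]⟩,⟨0,[(1,0)]⟩⟩,⟨false,0,⟨0,[(12,0),(31,0)]⟩,⟨16,[(1,7),(7,4),(0,5),(10,9),(2,2),(8,
  2),(12,7)]⟩⟩,⟨true,(-1),⟨0,[(0,0)]⟩,⟨0,[(1,0),(41,0)]⟩⟩,[.a ⟨true,(-1),⟨0,[(22,0)]⟩,⟨0,[(43,0),(2,
  0)]⟩⟩ ⟨false,0,⟨2,[(12,0),(7,0),(20,0),(2,0)]⟩,⟨3,[(21,1),(23,0),(0,2)]⟩⟩ ⟨true,(-1),⟨8,[(0,1),(8,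
  0),(3,0),(4,2),(0,1),(2,3),(1,0)]⟩,⟨0,[(1,0),(9,0)]⟩⟩,.o ⟨false,0,⟨0,[(44,0)]⟩,⟨1,[(38,0),(4,1),
  (2,0)]⟩⟩,.o ⟨false,1,⟨1,[(35,1),(2,0),(6,0)]⟩,⟨4,[(9,1),(3,0),(10,0),(13,1)]⟩⟩,.e ⟨false,0,⟨0,
  [(44,0)]⟩,⟨0,[(43,0),(2,0)]⟩⟩ ⟨false,0,⟨2,[(0,0),(12,0),(6,0),(10,0),(14,0)]⟩,⟨0,[(1,0),(9,
  0)]⟩⟩]⟩) (.Q [0,0,-1,0,0,0,-1,0,1,0,1,-1] (.p true [0,0,1] [0,0,0,0,1] (⟨0,[(37,0)]⟩,⟨0,[(36,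
  0)]⟩) .k 2 (⟨0,[(30,0)]⟩,⟨0,[(29,0)]⟩) .k (.r (-1) ⟨1,[(11,1),(33,0),(0,0)]⟩ ⟨19,[(0,1),(17,5),(0,
  1),(0,5),(2,0),(0,2),(8,9)]⟩)) (.R ⟨0,false,false,false,[1,0,0,0,-1],[1,0,-1],[1,0,1],(⟨0,[(30,
  0)]⟩,⟨0,[(31,0)]⟩),(⟨0,[(37,0)]⟩,⟨0,[(38,0)]⟩),⟨0,[(5,0)]⟩,.k,.k,(.r (-1) ⟨3,[(22,1),(23,0),(0,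
  2)]⟩ ⟨17,[(18,9),(2,7),(2,0),(0,0),(8,1),(7,3)]⟩),.k,.k,.k,⟨true,0,⟨0,[(12,0)]⟩,⟨16,[(1,1),(8,0),
  (0,4),(7,2),(0,5),(4,0),(8,3)]⟩⟩,⟨false,0,⟨0,[(0,0)]⟩,⟨1,[(15,1),(8,0),(0,0)]⟩⟩,⟨false,0,⟨11,[(1,
  1),(8,1),(7,3),(5,0),(0,0),(8,1)]⟩,⟨1,[(46,0),(0,0)]⟩⟩,⟨true,(-1),⟨12,[(0,3),(1,7),(3,8),(4,0),(8,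
  2),(2,2),(10,0),(4,1)]⟩,⟨3,[(10,1),(1,1),(2,3),(17,1),(5,0),(7,0)]⟩⟩,⟨false,0,⟨0,[]⟩,⟨0,[]⟩⟩,
  ⟨false,0,⟨0,[]⟩,⟨0,[]⟩⟩,[.e ⟨false,0,⟨0,[]⟩,⟨1,[(28,0),(0,0),(16,0)]⟩⟩ ⟨false,0,⟨16,[(0,10),(1,0),
  (4,2),(0,0),(2,6),(8,3),(8,1),(4,4)]⟩,⟨3,[(10,1),(1,1),(2,3),(17,1),(5,0),(7,0)]⟩⟩,.o ⟨false,1,⟨5,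
  [(0,1),(1,3),(12,1),(4,1),(18,0),(7,0)]⟩,⟨0,[(33,0)]⟩⟩,.a ⟨true,1,⟨0,[(28,0)]⟩,⟨0,[(8,0)]⟩⟩ ⟨true,
  0,⟨11,[(1,1),(8,1),(7,3),(5,0),(0,0),(8,1)]⟩,⟨7,[(0,0),(5,2),(7,0),(0,3),(23,1),(2,0)]⟩⟩ ⟨false,0,
  ⟨18,[(0,7),(1,9),(5,9),(2,1),(8,5),(8,0),(4,0),(12,3)]⟩,⟨3,[(10,1),(1,1),(2,3),(17,1),(5,0),(7,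
  0)]⟩⟩,.o ⟨false,1,⟨0,[(15,0),(8,0)]⟩,⟨5,[(0,1),(6,1),(6,1),(14,1),(9,0),(7,0)]⟩⟩]⟩) (.Q [0,-2,0,2,
  2,0,-1,-1,-1,-1,1,1] (.p true [0,0,1] [1,0,0,0,-1] (⟨0,[(38,0)]⟩,⟨0,[(37,0)]⟩) .k 2 (⟨0,[(30,0)]⟩,
  ⟨0,[(31,0)]⟩) .k (.r 0 ⟨0,[(13,0),(29,0)]⟩ ⟨2,[(2,0),(18,0),(3,0),(8,0),(12,1)]⟩)) (.I [1,0,2,1,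
  -1,0,0,-1] (.R ⟨1,true,false,false,[0,0,0,0,1],[1,1,-1],[0,1],(⟨0,[(33,0)]⟩,⟨0,[(32,0)]⟩),(⟨0,
  [(39,0),(3,0)]⟩,⟨0,[(29,0)]⟩),⟨1,[(7,0),(11,0),(9,0),(3,0)]⟩,.k,.k,(.r 0 ⟨0,[(45,0)]⟩ ⟨7,[(1,1),
  (18,3),(6,1),(2,0),(0,2),(4,1),(12,2)]⟩),(.r (-1) ⟨0,[(14,0),(31,0),(1,0)]⟩ ⟨11,[(0,0),(3,0),(8,
  1),(8,6),(4,0),(8,0),(12,4)]⟩),(.r (-1) ⟨0,[(14,0),(9,0),(23,0)]⟩ ⟨4,[(0,0),(0,0),(18,0),(1,2),(4,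
  0),(3,0),(4,0),(12,1)]⟩),.k,⟨false,1,⟨0,[(15,0),(8,0),(23,0)]⟩,⟨11,[(0,0),(3,0),(8,1),(8,6),(4,0),
  (8,0),(12,4)]⟩⟩,⟨true,2,⟨1,[(17,1),(20,1),(2,0),(6,0)]⟩,⟨0,[(0,0),(5,0)]⟩⟩,⟨false,1,⟨1,[(30,0),(0,
  0),(17,0)]⟩,⟨0,[]⟩⟩,⟨true,2,⟨6,[(1,3),(2,0),(25,3),(0,0),(4,1),(4,0)]⟩,⟨0,[(5,0)]⟩⟩,⟨true,0,⟨0,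
  [(47,0)]⟩,⟨0,[(46,0)]⟩⟩,⟨false,2,⟨0,[(1,0)]⟩,⟨0,[(6,0),(39,0)]⟩⟩,[]⟩) (.Q [0,0,0,0,0,2,0,0,0,0,
  -1] (.p false [0,0,1] [] (⟨0,[(40,0)]⟩,⟨0,[(39,0)]⟩) .k 0 (⟨0,[]⟩,⟨0,[]⟩) .k .k) (.R ⟨0,false,
  false,false,[0,-1,1],[1,0,-1],[1,1],(⟨0,[(30,0)]⟩,⟨0,[(0,0),(42,0)]⟩),(⟨0,[(40,0)]⟩,⟨0,[(41,0)]⟩),
  ⟨0,[(0,0)]⟩,.k,.k,(.r (-2) ⟨1,[(1,1),(29,0),(0,0),(14,1),(2,0)]⟩ ⟨0,[(23,0)]⟩),(.r (-1) ⟨0,[(1,0),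
  (13,0)]⟩ ⟨33,[(2,0),(2,14),(8,5),(8,22),(0,6),(3,15),(3,0),(4,15)]⟩),.k,.k,⟨true,0,⟨8,[(1,1),(13,
  6),(9,0),(0,3),(15,1),(2,1)]⟩,⟨17,[(4,6),(8,5),(0,1),(8,7),(4,0),(8,0),(12,4)]⟩⟩,⟨false,2,⟨8,[(1,
  11),(0,6),(2,1),(3,5),(0,0),(26,2),(1,5),(2,2)]⟩,⟨4,[(13,6),(3,0),(10,0),(13,1)]⟩⟩,⟨true,(-1),⟨0,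
  [(23,0),(22,0)]⟩,⟨3,[(1,2),(19,0),(25,1),(2,0)]⟩⟩,⟨false,1,⟨0,[(2,0),(2,0),(3,0)]⟩,⟨2,[(1,1),(1,
  1),(3,1),(7,0),(0,0),(11,0)]⟩⟩,⟨false,0,⟨0,[]⟩,⟨0,[]⟩⟩,⟨false,0,⟨0,[]⟩,⟨0,[]⟩⟩,[.e ⟨false,0,⟨3,
  [(9,1),(8,1),(23,0),(6,0)]⟩,⟨1,[(31,0),(0,0),(17,0)]⟩⟩ ⟨false,2,⟨2,[(1,2),(0,1),(2,0),(4,1),(26,
  2)]⟩,⟨0,[(3,0),(3,0),(40,0)]⟩⟩,.o ⟨false,1,⟨2,[(2,0),(2,1),(4,0)]⟩,⟨0,[(36,0)]⟩⟩,.e ⟨false,0,⟨0,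
  []⟩,⟨1,[(31,0),(0,0),(17,0)]⟩⟩ ⟨false,2,⟨17,[(1,11),(0,10),(2,9),(4,4),(0,2),(20,2),(4,8),(1,5)]⟩,
  ⟨0,[(3,0),(3,0),(40,0)]⟩⟩,.a ⟨true,(-1),⟨11,[(4,1),(8,13),(7,3),(5,0),(0,0),(8,1)]⟩,⟨1,[(1,1),(0,
  0),(2,0),(3,0),(16,0)]⟩⟩ ⟨true,0,⟨3,[(9,1),(8,1),(23,0),(6,0)]⟩,⟨11,[(4,1),(8,1),(7,3),(5,0),(0,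
  0),(8,1)]⟩⟩ ⟨false,2,⟨0,[(1,0),(0,0),(2,0),(3,0)]⟩,⟨4,[(3,3),(3,3),(13,1),(1,0),(4,0)]⟩⟩]⟩) (.S
  ⟨1,0,[0,0,-1,-1,0,0,0,1],[0,-1,1],[1,1,-1,-2,0,0,0,1],(⟨0,[(30,0)]⟩,⟨0,[(40,0),(3,0)]⟩),⟨0,[(0,
  0)]⟩,.k,(.r (-2) ⟨1,[(1,1),(29,0),(0,0),(14,1),(2,0)]⟩ ⟨0,[(23,0)]⟩),⟨true,0,⟨0,[(47,0)]⟩,⟨0,[(48,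
  0)]⟩⟩,⟨false,1,⟨1,[(31,0),(0,0),(17,0)]⟩,⟨0,[]⟩⟩,⟨false,0,⟨0,[]⟩,⟨1,[(31,0),(0,0),(17,0)]⟩⟩,⟨true,
  0,⟨0,[(48,0)]⟩,⟨0,[(47,0)]⟩⟩,[.e ⟨false,1,⟨0,[(1,0),(45,0)]⟩,⟨3,[(2,0),(14,0),(5,2),(8,0),(17,
  0)]⟩⟩ ⟨false,1,⟨0,[(1,0)]⟩,⟨27,[(2,3),(2,2),(15,0),(1,10),(3,1),(0,8),(3,3),(4,10)]⟩⟩,.o ⟨false,1,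
  ⟨14,[(1,9),(1,2),(0,0),(2,2),(7,2),(11,6),(0,4),(21,6)]⟩,⟨0,[(5,0),(20,1),(15,0)]⟩⟩,.a ⟨true,(-1),
  ⟨0,[(13,0)]⟩,⟨2,[(1,1),(0,0),(16,0),(17,0),(1,0)]⟩⟩ ⟨false,1,⟨2,[(1,1),(2,0),(2,0),(7,0),(15,0),
  (15,0)]⟩,⟨3,[(2,0),(14,0),(5,2),(8,0),(17,0)]⟩⟩ ⟨true,1,⟨3,[(1,2),(19,0),(25,1),(2,0)]⟩,⟨0,[(23,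
  0),(22,0)]⟩⟩,.e ⟨true,1,⟨0,[(1,0),(45,0)]⟩,⟨0,[(23,0)]⟩⟩ ⟨true,1,⟨0,[(1,0)]⟩,⟨3,[(3,0),(8,0),(0,
  0),(9,1),(3,0),(9,1)]⟩⟩]⟩))) (.R ⟨0,false,false,true,[1,0,0,0,-1],[2,-1,0,0,-1],[0,0,0,-1],(⟨0,
  [(31,0)]⟩,⟨0,[(32,0)]⟩),(⟨0,[(31,0),(9,0)]⟩,⟨0,[(6,0)]⟩),⟨0,[(6,0)]⟩,.k,(.r (-1) ⟨3,[(23,1),(23,
  0),(0,2)]⟩ ⟨17,[(19,9),(2,7),(2,0),(0,0),(8,1),(7,3)]⟩),(.r (-1) ⟨3,[(23,1),(23,0),(0,2)]⟩ ⟨17,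
  [(19,9),(2,7),(2,0),(0,0),(8,1),(7,3)]⟩),.k,.k,.k,⟨true,0,⟨11,[(2,1),(8,1),(7,3),(5,0),(0,0),(8,
  1)]⟩,⟨0,[]⟩⟩,⟨false,1,⟨1,[(29,0),(0,0),(9,0)]⟩,⟨0,[(15,0),(21,0)]⟩⟩,⟨true,0,⟨0,[(45,0)]⟩,⟨0,[(46,
  0)]⟩⟩,⟨false,1,⟨3,[(2,1),(26,0),(0,0),(3,1),(5,0)]⟩,⟨0,[(24,0),(23,0)]⟩⟩,⟨false,0,⟨0,[]⟩,⟨0,[]⟩⟩,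
  ⟨false,0,⟨0,[]⟩,⟨0,[]⟩⟩,[.o ⟨false,2,⟨11,[(1,1),(0,1),(10,1),(9,3),(5,9),(10,10),(7,0)]⟩,⟨0,[(9,
  0),(36,0)]⟩⟩,.e ⟨false,1,⟨3,[(23,1),(23,0),(0,2)]⟩,⟨2,[(14,0),(7,0),(20,0),(2,0)]⟩⟩ ⟨false,2,⟨3,
  [(2,1),(26,0),(0,0),(3,1),(5,0),(6,1),(0,1)]⟩,⟨0,[(24,0)]⟩⟩,.a ⟨true,1,⟨0,[(29,0)]⟩,⟨0,[(9,0)]⟩⟩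
  ⟨false,1,⟨0,[(45,0),(2,0)]⟩,⟨0,[(46,0)]⟩⟩ ⟨true,1,⟨3,[(2,1),(26,0),(0,0),(3,1),(5,0)]⟩,⟨0,[(24,
  0)]⟩⟩,.o ⟨false,1,⟨0,[(16,0),(8,0)]⟩,⟨1,[(8,1),(38,0),(0,0)]⟩⟩]⟩))))

theorem ok40 : chk K t40 r29 = true := by decide +kernel

noncomputable def t45 : Tre :=
  (.R ⟨2,true,false,false,[0,1],[1,0,0,0,-1],[1,0,1],(⟨0,[]⟩,⟨0,[]⟩),(⟨0,[(24,0)]⟩,⟨0,[(25,0)]⟩),⟨0,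
  []⟩,.k,.k,.k,(.r 0 ⟨17,[(12,9),(2,7),(2,0),(0,0),(8,1),(7,3)]⟩ ⟨3,[(16,1),(23,0),(0,2)]⟩),.k,.k,
  ⟨false,0,⟨15,[(12,1),(5,0),(0,0),(8,1),(7,5),(1,1)]⟩,⟨1,[(40,0),(0,0)]⟩⟩,⟨true,1,⟨0,[(9,0),(8,
  0)]⟩,⟨0,[(2,0)]⟩⟩,⟨false,1,⟨0,[(38,0),(2,0)]⟩,⟨0,[(39,0)]⟩⟩,⟨true,2,⟨0,[(0,0),(37,0)]⟩,⟨0,[(1,0),
  (15,0)]⟩⟩,⟨true,0,⟨0,[]⟩,⟨15,[(12,1),(5,0),(0,0),(8,1),(7,5),(1,1)]⟩⟩,⟨false,2,⟨0,[(0,0)]⟩,⟨0,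
  [(10,0)]⟩⟩,[]⟩)

theorem ok45 : chk K t45 r25 = true := by decide +kernel

noncomputable def t47 : Tre :=
  (.R ⟨1,false,false,true,[1,-1],[1,0,0,0,-1],[0,0,-1,-1],(⟨0,[(33,0)]⟩,⟨0,[(34,0)]⟩),(⟨0,[(23,0)]⟩,
  ⟨0,[(24,0)]⟩),⟨1,[(10,0),(9,0),(12,0)]⟩,.k,.k,(.r (-1) ⟨1,[(15,1),(23,0),(0,0)]⟩ ⟨3,[(11,2),(1,0),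
  (0,1),(23,0),(1,0)]⟩),(.r 0 ⟨0,[(36,0)]⟩ ⟨3,[(11,1),(2,1),(6,0),(0,0),(17,2)]⟩),(.r (-1) ⟨3,[(15,
  1),(21,3),(1,2),(0,0)]⟩ ⟨1,[(11,0),(1,0),(24,0),(1,0)]⟩),.k,⟨false,1,⟨3,[(15,1),(23,2),(0,0)]⟩,⟨7,
  [(11,2),(1,0),(0,1),(23,0),(1,0)]⟩⟩,⟨true,1,⟨0,[(8,0)]⟩,⟨0,[(1,0),(15,0)]⟩⟩,⟨false,1,⟨1,[(21,0),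
  (0,0),(17,0)]⟩,⟨0,[]⟩⟩,⟨false,1,⟨0,[(0,0),(37,0)]⟩,⟨3,[(1,0),(13,1),(1,0),(4,2),(17,0)]⟩⟩,⟨true,0,
  ⟨0,[(38,0)]⟩,⟨0,[(37,0)]⟩⟩,⟨false,1,⟨0,[(0,0),(37,1)]⟩,⟨1,[(1,0),(13,1),(1,0),(4,0),(17,0)]⟩⟩,[.a
  ⟨true,1,⟨0,[(21,0)]⟩,⟨0,[(1,0)]⟩⟩ ⟨false,1,⟨3,[(15,1),(23,2),(0,0)]⟩,⟨7,[(11,2),(1,0),(0,1),(23,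
  0),(1,0)]⟩⟩ ⟨true,1,⟨0,[(8,0)]⟩,⟨0,[(1,0),(15,0)]⟩⟩,.a ⟨true,1,⟨0,[(0,0)]⟩,⟨0,[(9,0)]⟩⟩ ⟨true,1,
  ⟨3,[(15,1),(23,0),(0,2)]⟩,⟨0,[(16,0),(0,0)]⟩⟩ ⟨false,2,⟨1,[(8,1),(30,0),(0,0)]⟩,⟨1,[(1,0),(0,0),
  (14,0)]⟩⟩,.a ⟨true,0,⟨3,[(17,0),(0,0),(10,1)]⟩,⟨0,[(7,0),(21,0)]⟩⟩ ⟨false,1,⟨3,[(15,1),(23,0),(0,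
  2)]⟩,⟨7,[(11,2),(1,0),(0,1),(23,0),(1,0)]⟩⟩ ⟨true,1,⟨0,[(8,0)]⟩,⟨1,[(1,0),(0,0),(14,0)]⟩⟩,.o
  ⟨false,0,⟨0,[(17,0)]⟩,⟨0,[(39,0)]⟩⟩]⟩)

theorem ok47 : chk K t47 r24 = true := by decide +kernel

noncomputable def t50 : Tre :=
  (.R ⟨1,false,false,false,[1,-1],[1,0,0,0,-1],[1,0,-1,-2],(⟨0,[(31,0)]⟩,⟨0,[(32,0)]⟩),(⟨0,[(21,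
  0)]⟩,⟨0,[(22,0)]⟩),⟨1,[(8,0),(9,0),(12,0)]⟩,.k,.k,(.r (-1) ⟨1,[(13,1),(23,0),(0,0)]⟩ ⟨3,[(9,2),(1,
  0),(0,1),(23,0),(1,0)]⟩),(.r 0 ⟨0,[(34,0)]⟩ ⟨3,[(9,1),(2,1),(6,0),(0,0),(17,2)]⟩),(.r (-1) ⟨3,
  [(13,1),(21,3),(1,2),(0,0)]⟩ ⟨1,[(9,0),(1,0),(24,0),(1,0)]⟩),.k,⟨true,0,⟨0,[(13,0)]⟩,⟨1,[(9,0),(1,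
  0),(24,0),(1,0)]⟩⟩,⟨false,1,⟨1,[(0,1),(13,1),(15,0),(3,1),(2,0)]⟩,⟨3,[(15,0),(0,0),(3,3),(6,1)]⟩⟩,
  ⟨false,1,⟨0,[(35,0),(2,0)]⟩,⟨0,[(36,0)]⟩⟩,⟨false,1,⟨0,[(0,0),(35,0)]⟩,⟨0,[(20,0),(14,0)]⟩⟩,⟨true,
  0,⟨0,[]⟩,⟨15,[(9,1),(5,0),(0,0),(8,1),(7,5),(1,1)]⟩⟩,⟨false,1,⟨0,[(0,0),(35,1)]⟩,⟨5,[(1,0),(11,3),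
  (1,0),(4,5),(6,0),(7,3),(2,0)]⟩⟩,[.a ⟨true,1,⟨1,[(0,0),(18,0)]⟩,⟨0,[(7,0)]⟩⟩ ⟨false,1,⟨1,[(13,1),
  (23,0),(0,0)]⟩,⟨7,[(9,2),(1,0),(0,1),(23,8),(1,0)]⟩⟩ ⟨true,1,⟨3,[(0,3),(13,1),(15,0),(3,1),(2,
  0)]⟩,⟨0,[(7,0),(7,0)]⟩⟩,.a ⟨true,1,⟨0,[(0,0)]⟩,⟨15,[(7,15),(1,1),(5,0),(0,0),(8,1),(7,5),(1,1)]⟩⟩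
  ⟨true,1,⟨0,[(13,0),(24,0)]⟩,⟨6,[(4,2),(6,2),(2,4),(0,2),(14,0),(2,0)]⟩⟩ ⟨false,2,⟨0,[(0,0),(36,
  0)]⟩,⟨6,[(7,6),(5,0),(0,1),(0,4),(14,1),(2,1)]⟩⟩,.a ⟨true,0,⟨3,[(15,0),(0,0),(10,1)]⟩,⟨0,[(5,0),
  (21,0)]⟩⟩ ⟨false,1,⟨0,[(13,0),(24,0)]⟩,⟨7,[(9,2),(1,0),(0,1),(23,8),(1,0)]⟩⟩ ⟨true,1,⟨3,[(0,3),
  (13,1),(15,0),(3,1),(2,0)]⟩,⟨6,[(7,6),(5,0),(0,1),(0,4),(14,1),(2,1)]⟩⟩,.o ⟨false,0,⟨0,[(15,0)]⟩,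
  ⟨0,[(37,0)]⟩⟩]⟩)

theorem ok50 : chk K t50 r22 = true := by decide +kernel

noncomputable def t52 : Tre :=
  (.S ⟨1,0,[0,0,1,1,0,0,0,-1],[1,1,-1],[1,1,1,0,0,0,0,-1],(⟨0,[(27,0),(3,0)]⟩,⟨0,[(17,0)]⟩),⟨0,[(27,
  0)]⟩,.k,.k,⟨true,0,⟨0,[(34,0)]⟩,⟨0,[(35,0)]⟩⟩,⟨false,1,⟨1,[(18,0),(0,0),(17,0)]⟩,⟨0,[]⟩⟩,⟨false,0,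
  ⟨0,[]⟩,⟨1,[(18,0),(0,0),(17,0)]⟩⟩,⟨true,0,⟨0,[(35,0)]⟩,⟨0,[(34,0)]⟩⟩,[.a ⟨true,0,⟨1,[(0,0),(0,0),
  (8,0),(2,0),(12,0)]⟩,⟨4,[(2,6),(1,2),(5,1),(1,4),(0,0),(1,0),(21,2)]⟩⟩ ⟨true,(-1),⟨0,[(10,0),(1,
  0)]⟩,⟨1,[(2,1),(33,0),(0,0)]⟩⟩ ⟨false,0,⟨3,[(1,0),(8,1),(0,0),(24,0)]⟩,⟨3,[(2,3),(9,1),(23,2),(0,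
  0)]⟩⟩,.o ⟨false,1,⟨9,[(0,7),(0,1),(8,5),(13,1),(4,0),(7,4)]⟩,⟨0,[(2,0),(6,0)]⟩⟩,.o ⟨false,1,⟨0,
  [(0,0)]⟩,⟨0,[(25,0)]⟩⟩,.o ⟨false,1,⟨3,[(0,2),(13,0),(3,0),(0,0),(6,0)]⟩,⟨0,[(4,0),(9,0)]⟩⟩]⟩)

theorem ok52 : chk K t52 r21 = true := by decide +kernel

noncomputable def t57 : Tre :=
  (.Q [0,2,0,0,-1,0,0,0,1,0,0,-1] (.p false [0,0,0,0,1] [] (⟨0,[(17,0)]⟩,⟨0,[(16,0)]⟩) .k 0 (⟨0,[]⟩,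
  ⟨0,[]⟩) .k .k) (.Q [0,0,0,0,0,0,-1,-1,0,-1,1] (.p true [0,0,1] [1] (⟨0,[(25,0)]⟩,⟨0,[(24,0)]⟩) .k
  1 (⟨0,[]⟩,⟨0,[]⟩) .k .k) (.R ⟨1,false,false,false,[1,-1],[0,0,1],[0,1,-1,-1],(⟨0,[(28,0)]⟩,⟨0,
  [(29,0)]⟩),(⟨0,[(26,0)]⟩,⟨0,[(25,0)]⟩),⟨1,[(5,0),(9,0),(12,0)]⟩,.k,.k,(.r (-1) ⟨1,[(10,1),(23,0),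
  (0,0)]⟩ ⟨3,[(6,2),(1,0),(0,1),(23,0),(1,0)]⟩),.k,(.r (-1) ⟨7,[(0,3),(6,3),(2,5),(9,3),(1,3),(11,
  0),(0,6)]⟩ ⟨0,[(6,0),(26,0)]⟩),.k,⟨false,0,⟨3,[(0,3),(6,0),(2,1),(0,0),(8,2),(13,0)]⟩,⟨1,[(6,1),
  (27,0),(0,0)]⟩⟩,⟨true,0,⟨0,[(20,0)]⟩,⟨0,[(2,0)]⟩⟩,⟨true,0,⟨15,[(6,1),(5,0),(0,0),(8,1),(7,5),(1,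
  1)]⟩,⟨0,[]⟩⟩,⟨true,0,⟨0,[(11,0),(9,0),(13,0)]⟩,⟨9,[(0,6),(9,4),(1,2),(9,2),(7,0)]⟩⟩,⟨false,0,⟨0,
  [(33,0)]⟩,⟨0,[(32,0),(2,0)]⟩⟩,⟨true,0,⟨0,[(11,0),(9,0),(11,0),(1,0)]⟩,⟨4,[(0,2),(1,0),(5,0),(1,5),
  (1,0),(9,0),(12,0)]⟩⟩,[.o ⟨false,1,⟨1,[(16,0),(0,0),(3,1),(13,0)]⟩,⟨0,[(0,0)]⟩⟩,.o ⟨false,1,⟨0,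
  [(21,0),(13,0)]⟩,⟨4,[(0,3),(11,0),(9,0),(7,1)]⟩⟩,.a ⟨true,0,⟨2,[(2,0),(10,0),(10,0)]⟩,⟨3,[(10,1),
  (0,3),(22,0),(0,2)]⟩⟩ ⟨true,0,⟨0,[(31,0)]⟩,⟨7,[(6,2),(1,0),(0,1),(23,0),(1,0)]⟩⟩ ⟨false,1,⟨3,[(10,
  1),(0,3),(9,3),(12,0),(0,6)]⟩,⟨4,[(0,2),(1,0),(5,0),(1,0),(1,0),(9,0),(12,0)]⟩⟩,.o ⟨false,0,⟨0,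
  [(12,0)]⟩,⟨0,[(34,0)]⟩⟩]⟩) (.Q [0,0,1,0,0,0,0,0,-1,0,0,1] (.p true [0,0,0,0,1] [] (⟨0,[(19,0)]⟩,
  ⟨0,[(18,0)]⟩) .k 0 (⟨0,[]⟩,⟨0,[]⟩) .k .k) (.Q [0,0,0,0,0,-1,0,0,0,1,0,-1] (.ed true [0,1,0,0,1]
  .k) (.S ⟨1,0,[0,-1],[1,0,0,0,-1],[1,0,0,-1],(⟨0,[(20,0)]⟩,⟨0,[(21,0)]⟩),⟨0,[(0,0)]⟩,.k,(.r (-1)
  ⟨3,[(12,1),(23,0),(0,2)]⟩ ⟨17,[(8,9),(2,7),(2,0),(0,0),(8,1),(7,3)]⟩),⟨true,0,⟨0,[(34,0)]⟩,⟨0,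
  [(35,0)]⟩⟩,⟨false,1,⟨1,[(18,0),(0,0),(17,0)]⟩,⟨0,[]⟩⟩,⟨false,0,⟨0,[]⟩,⟨1,[(18,0),(0,0),(17,0)]⟩⟩,
  ⟨true,0,⟨0,[(35,0)]⟩,⟨0,[(34,0)]⟩⟩,[.e ⟨false,1,⟨1,[(34,1),(1,0),(0,0)]⟩,⟨0,[(35,0)]⟩⟩ ⟨false,1,
  ⟨1,[(36,0),(0,0)]⟩,⟨15,[(8,1),(5,0),(0,0),(8,1),(7,5),(1,1)]⟩⟩,.o ⟨false,2,⟨1,[(1,0),(3,0),(23,0),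
  (7,1)]⟩,⟨0,[(3,0)]⟩⟩,.o ⟨false,1,⟨1,[(1,0),(3,0),(23,0)]⟩,⟨0,[(19,0)]⟩⟩,.a ⟨true,0,⟨0,[(1,0)]⟩,⟨1,
  [(6,1),(29,0),(0,0)]⟩⟩ ⟨false,1,⟨3,[(12,1),(23,0),(0,2)]⟩,⟨7,[(8,2),(1,0),(0,1),(23,0),(1,0)]⟩⟩
  ⟨true,1,⟨1,[(36,0),(0,0)]⟩,⟨0,[(1,0),(1,0)]⟩⟩]⟩) (.Q [0,0,2,0,0,0,0,0,-1,-1,0,1] (.p true [0,0,0,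
  0,1] [1] (⟨0,[(21,0)]⟩,⟨0,[(20,0)]⟩) .k 1 (⟨0,[]⟩,⟨0,[]⟩) .k .k) (.R ⟨0,false,false,true,[1,0,0,0,
  -1],[0,1],[1,1,1],(⟨0,[(21,0)]⟩,⟨0,[(22,0)]⟩),(⟨0,[(32,0)]⟩,⟨0,[(31,0)]⟩),⟨0,[(1,0)]⟩,.k,.k,(.r
  (-1) ⟨3,[(13,1),(23,0),(0,2)]⟩ ⟨17,[(9,9),(2,7),(2,0),(0,0),(8,1),(7,3)]⟩),(.r (-1) ⟨3,[(13,1),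
  (23,0),(0,2)]⟩ ⟨17,[(9,9),(2,7),(2,0),(0,0),(8,1),(7,3)]⟩),.k,.k,⟨false,1,⟨1,[(35,1),(1,0),(0,
  0)]⟩,⟨0,[(36,0)]⟩⟩,⟨true,0,⟨1,[(7,1),(29,0),(0,0)]⟩,⟨0,[(0,0)]⟩⟩,⟨true,(-1),⟨1,[(0,0),(3,0),(9,0),
  (20,0)]⟩,⟨1,[(37,0),(0,0)]⟩⟩,⟨false,(-1),⟨0,[(14,0),(5,0)]⟩,⟨3,[(0,1),(5,1),(6,1),(16,0),(7,4)]⟩⟩,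
  ⟨false,0,⟨0,[]⟩,⟨0,[]⟩⟩,⟨false,0,⟨0,[]⟩,⟨0,[]⟩⟩,[.a ⟨true,(-1),⟨0,[(14,0)]⟩,⟨0,[(35,0),(2,0)]⟩⟩
  ⟨false,0,⟨15,[(9,1),(5,0),(0,0),(8,1),(7,5),(1,1)]⟩,⟨1,[(37,0),(0,0)]⟩⟩ ⟨true,(-1),⟨0,[(14,0),(5,
  0)]⟩,⟨11,[(0,9),(5,1),(6,5),(16,0),(7,8)]⟩⟩,.o ⟨false,0,⟨0,[(36,0)]⟩,⟨1,[(30,0),(4,1),(2,0)]⟩⟩,.o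
  ⟨false,1,⟨2,[(0,0),(5,1),(23,0)]⟩,⟨0,[(20,0)]⟩⟩,.e ⟨false,0,⟨0,[]⟩,⟨1,[(19,0),(0,0),(17,0)]⟩⟩
  ⟨false,0,⟨1,[(14,1),(5,1),(16,0),(0,0)]⟩,⟨11,[(0,9),(5,1),(6,5),(16,0),(7,8)]⟩⟩]⟩) (.K ⟨0,[0,0,0,
  0,1],0,(-1),(⟨0,[(22,0)]⟩,⟨0,[(21,0)]⟩),.k,(.r 0 ⟨0,[(34,0)]⟩ ⟨3,[(9,1),(2,1),(6,0),(0,0),(17,
  2)]⟩),(.r 0 ⟨17,[(9,9),(2,7),(2,0),(0,0),(8,1),(7,3)]⟩ ⟨3,[(13,1),(23,0),(0,2)]⟩),.k,.k,[⟨0,[(0,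
  0),(4,0)]⟩,⟨0,[(2,0)]⟩,⟨0,[(19,0)]⟩,⟨0,[(4,0)]⟩]⟩))) (.Q [0,-2,0,0,2,0,0,0,-1,-1,0,1] (.p true [0,
  0,0,0,1] [1] (⟨0,[(20,0)]⟩,⟨0,[(19,0)]⟩) .k 1 (⟨0,[]⟩,⟨0,[]⟩) .k .k) (.Q [0,-1,0,0,1,0,0,0,-1,0,0,
  1] (.p true [0,0,0,0,1] [] (⟨0,[(21,0)]⟩,⟨0,[(20,0)]⟩) .k 0 (⟨0,[]⟩,⟨0,[]⟩) .k .k) (.Q [0,0,0,0,0,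
  -1,0,0,0,1,0,-1] (.ed true [0,1,0,0,1] .k) (.S ⟨1,0,[],[1,0,0,0,-1],[0,-1],(⟨0,[(22,0)]⟩,⟨0,[(23,
  0)]⟩),⟨0,[(0,0)]⟩,.k,(.r (-1) ⟨3,[(14,1),(23,0),(0,2)]⟩ ⟨17,[(10,9),(2,7),(2,0),(0,0),(8,1),(7,
  3)]⟩),⟨false,1,⟨1,[(20,0),(0,0),(17,0)]⟩,⟨0,[]⟩⟩,⟨true,0,⟨15,[(10,1),(5,0),(0,0),(8,1),(7,5),(1,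
  1)]⟩,⟨0,[]⟩⟩,⟨true,0,⟨0,[(37,0)]⟩,⟨0,[(36,0)]⟩⟩,⟨false,0,⟨0,[(37,0)]⟩,⟨0,[(36,0),(2,0)]⟩⟩,[.e
  ⟨false,1,⟨1,[(38,0),(0,0)]⟩,⟨15,[(10,1),(5,0),(0,0),(8,1),(7,5),(1,1)]⟩⟩ ⟨false,1,⟨1,[(20,0),(0,
  0),(16,0)]⟩,⟨0,[]⟩⟩,.a ⟨true,1,⟨0,[(1,0)]⟩,⟨0,[(8,0)]⟩⟩ ⟨true,1,⟨0,[(39,0)]⟩,⟨6,[(14,3),(0,7),(0,
  5),(14,0),(2,0)]⟩⟩ ⟨false,1,⟨1,[(38,0),(0,0)]⟩,⟨15,[(10,1),(5,0),(0,0),(8,1),(7,5),(1,1)]⟩⟩,.e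
  ⟨false,1,⟨0,[(39,0)]⟩,⟨15,[(10,1),(5,0),(0,0),(8,1),(7,5),(1,1)]⟩⟩ ⟨false,1,⟨1,[(20,0),(0,0),(17,
  0)]⟩,⟨0,[]⟩⟩,.o ⟨false,1,⟨0,[(7,0),(8,0)]⟩,⟨0,[(3,0)]⟩⟩]⟩) (.Q [0,0,0,0,1,0,0,0,-1,-1,0,1] (.p
  true [0,0,0,0,1] [1] (⟨0,[(23,0)]⟩,⟨0,[(22,0)]⟩) .k 1 (⟨0,[]⟩,⟨0,[]⟩) .k .k) (.R ⟨0,false,false,
  true,[1,0,0,0,-1],[1,-1],[0,0,1],(⟨0,[(23,0)]⟩,⟨0,[(24,0)]⟩),(⟨0,[(33,0)]⟩,⟨0,[(34,0)]⟩),⟨0,[(1,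
  0)]⟩,.k,.k,(.r (-1) ⟨3,[(15,1),(23,0),(0,2)]⟩ ⟨17,[(11,9),(2,7),(2,0),(0,0),(8,1),(7,3)]⟩),(.r
  (-1) ⟨3,[(11,1),(2,1),(6,0),(0,0),(17,2)]⟩ ⟨0,[(36,0)]⟩),.k,.k,⟨true,0,⟨1,[(5,0),(1,0),(5,0),(26,
  0)]⟩,⟨0,[(36,0)]⟩⟩,⟨false,0,⟨0,[(22,0)]⟩,⟨0,[(8,0)]⟩⟩,⟨false,0,⟨2,[(7,0),(10,0),(10,0)]⟩,⟨1,[(39,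
  0),(0,0)]⟩⟩,⟨true,(-1),⟨0,[(4,0),(10,0),(0,0),(0,0)]⟩,⟨0,[(2,0),(35,0)]⟩⟩,⟨false,0,⟨0,[]⟩,⟨0,[]⟩⟩,
  ⟨false,0,⟨0,[]⟩,⟨0,[]⟩⟩,[.a ⟨true,0,⟨0,[(37,0)]⟩,⟨0,[(16,0),(23,0)]⟩⟩ ⟨true,0,⟨2,[(7,0),(10,0),
  (10,0)]⟩,⟨0,[]⟩⟩ ⟨false,0,⟨3,[(4,0),(10,1),(6,2),(12,0)]⟩,⟨0,[(2,0),(35,0)]⟩⟩,.o ⟨false,1,⟨7,[(3,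
  2),(11,1),(1,0),(4,2),(9,1),(4,3)]⟩,⟨0,[(38,0)]⟩⟩,.o ⟨false,1,⟨0,[(0,0)]⟩,⟨0,[(22,0)]⟩⟩,.o ⟨false,
  1,⟨1,[(0,0),(16,0),(3,0)]⟩,⟨0,[(4,0)]⟩⟩]⟩) (.R ⟨0,false,false,true,[1,0,0,0,-1],[1,-1],[0,1,0,-1],
  (⟨0,[(23,0)]⟩,⟨0,[(24,0)]⟩),(⟨0,[(33,0)]⟩,⟨0,[(34,0)]⟩),⟨0,[(1,0)]⟩,.k,.k,(.r (-1) ⟨3,[(15,1),(23,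
  0),(0,2)]⟩ ⟨17,[(11,9),(2,7),(2,0),(0,0),(8,1),(7,3)]⟩),(.r (-1) ⟨3,[(11,1),(2,1),(6,0),(0,0),(17,
  2)]⟩ ⟨0,[(36,0)]⟩),.k,.k,⟨true,0,⟨2,[(7,0),(10,0),(10,0)]⟩,⟨0,[]⟩⟩,⟨false,0,⟨0,[(22,0)]⟩,⟨0,[(8,
  0)]⟩⟩,⟨false,0,⟨0,[(37,0)]⟩,⟨0,[(38,0),(1,0)]⟩⟩,⟨true,(-1),⟨3,[(0,0),(5,2),(8,1),(1,0)]⟩,⟨0,[(2,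
  0),(35,0)]⟩⟩,⟨false,0,⟨0,[]⟩,⟨0,[]⟩⟩,⟨false,0,⟨0,[]⟩,⟨0,[]⟩⟩,[.e ⟨false,0,⟨0,[(36,0)]⟩,⟨2,[(11,0),
  (2,0),(23,0),(0,0),(0,1)]⟩⟩ ⟨false,0,⟨3,[(4,0),(10,1),(6,2),(12,0)]⟩,⟨0,[(2,0),(35,0)]⟩⟩,.o
  ⟨false,1,⟨7,[(3,2),(11,1),(1,0),(4,2),(9,1),(4,3)]⟩,⟨0,[(38,0)]⟩⟩,.a ⟨true,1,⟨0,[(21,0)]⟩,⟨0,[(0,
  0)]⟩⟩ ⟨true,0,⟨0,[(37,0)]⟩,⟨0,[(38,0)]⟩⟩ ⟨false,0,⟨3,[(0,0),(14,1),(1,0),(4,2),(17,0)]⟩,⟨0,[(2,0),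
  (35,0)]⟩⟩,.o ⟨false,1,⟨0,[(8,0),(8,0)]⟩,⟨0,[(4,0)]⟩⟩]⟩))) (.R ⟨2,false,false,true,[0,1],[0,0,0,0,
  1],[0,2,1],(⟨0,[]⟩,⟨0,[]⟩),(⟨0,[(22,0)]⟩,⟨0,[(21,0)]⟩),⟨0,[]⟩,.k,.k,.k,(.r (-1) ⟨3,[(9,1),(2,1),
  (6,0),(0,0),(17,2)]⟩ ⟨0,[(34,0)]⟩),.k,.k,⟨true,0,⟨2,[(5,0),(10,0),(10,0)]⟩,⟨0,[]⟩⟩,⟨false,0,⟨0,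
  [(20,0)]⟩,⟨0,[(6,0)]⟩⟩,⟨false,0,⟨0,[(35,0)]⟩,⟨0,[(36,0),(1,0)]⟩⟩,⟨true,(-1),⟨3,[(0,0),(3,1),(2,0),
  (5,1),(1,0)]⟩,⟨0,[(1,0),(12,0)]⟩⟩,⟨false,0,⟨15,[(9,1),(5,0),(0,0),(8,1),(7,5),(1,1)]⟩,⟨0,[(38,
  0)]⟩⟩,⟨false,(-1),⟨0,[(0,0)]⟩,⟨0,[(19,0),(18,0)]⟩⟩,[.o ⟨false,(-1),⟨0,[(4,0)]⟩,⟨0,[(1,0)]⟩⟩,.o
  ⟨false,(-1),⟨0,[(0,0)]⟩,⟨3,[(1,1),(17,2),(0,0),(9,0)]⟩⟩,.a ⟨true,0,⟨3,[(13,1),(0,3),(22,0),(0,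
  2)]⟩,⟨2,[(5,0),(10,0),(10,0)]⟩⟩ ⟨true,(-1),⟨6,[(13,3),(0,7),(0,5),(14,0),(2,0)]⟩,⟨1,[(37,0),(0,
  0)]⟩⟩ ⟨false,(-1),⟨1,[(0,0),(6,0),(7,0)]⟩,⟨0,[(6,0),(31,0)]⟩⟩,.e ⟨false,0,⟨15,[(9,1),(5,0),(0,0),
  (8,1),(7,5),(1,1)]⟩,⟨0,[(38,0)]⟩⟩ ⟨false,(-1),⟨0,[(0,0)]⟩,⟨0,[(19,0),(18,0)]⟩⟩]⟩)) (.Q [0,0,0,0,0,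
  -1,0,0,0,1,0,-1] (.ed true [0,1,0,0,1] .k) (.S ⟨1,0,[0,-1],[1,0,0,0,-1],[],(⟨0,[(21,0)]⟩,⟨0,[(22,
  0)]⟩),⟨0,[(0,0)]⟩,.k,(.r (-1) ⟨3,[(13,1),(23,0),(0,2)]⟩ ⟨17,[(9,9),(2,7),(2,0),(0,0),(8,1),(7,
  3)]⟩),⟨true,0,⟨15,[(9,1),(5,0),(0,0),(8,1),(7,5),(1,1)]⟩,⟨0,[]⟩⟩,⟨false,1,⟨1,[(19,0),(0,0),(17,
  0)]⟩,⟨0,[]⟩⟩,⟨false,0,⟨0,[(36,0)]⟩,⟨0,[(35,0),(2,0)]⟩⟩,⟨true,0,⟨0,[(36,0)]⟩,⟨0,[(35,0)]⟩⟩,[.o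
  ⟨false,2,⟨1,[(19,1),(10,0),(7,0)]⟩,⟨1,[(1,1),(28,0),(7,0)]⟩⟩,.a ⟨true,2,⟨0,[(19,0),(18,0)]⟩,⟨0,
  [(1,0)]⟩⟩ ⟨false,1,⟨1,[(37,0),(0,0)]⟩,⟨15,[(9,1),(5,0),(0,0),(8,1),(7,5),(1,1)]⟩⟩ ⟨true,1,⟨0,[(38,
  0)]⟩,⟨6,[(13,3),(0,7),(0,5),(14,0),(2,0)]⟩⟩,.e ⟨false,1,⟨1,[(19,0),(0,0),(17,0)]⟩,⟨0,[]⟩⟩ ⟨false,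
  1,⟨0,[(38,0)]⟩,⟨15,[(9,1),(5,0),(0,0),(8,1),(7,5),(1,1)]⟩⟩,.o ⟨false,1,⟨0,[(6,0),(8,0)]⟩,⟨0,[(2,
  0)]⟩⟩]⟩) (.Q [0,1,0,-1,-1,0,0,0,1,0,0,-1] (.p false [0,0,0,0,1] [] (⟨0,[(22,0)]⟩,⟨0,[(21,0)]⟩) .k
  0 (⟨0,[]⟩,⟨0,[]⟩) .k .k) (.Q [0,-1,0,2,1,0,0,0,-1,0,0,1] (.p true [0,0,0,0,1] [] (⟨0,[(23,0)]⟩,⟨0,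
  [(22,0)]⟩) .k 0 (⟨0,[]⟩,⟨0,[]⟩) .k .k) (.R ⟨1,true,false,false,[0,0,0,0,1],[0,1],[0,2],(⟨0,[(24,
  0)]⟩,⟨0,[(23,0)]⟩),(⟨0,[(34,0)]⟩,⟨0,[(33,0)]⟩),⟨1,[(2,0),(7,0),(9,0),(3,0)]⟩,.k,.k,(.r 0 ⟨0,[(36,
  0)]⟩ ⟨3,[(11,1),(2,1),(6,0),(0,0),(17,2)]⟩),(.r 0 ⟨0,[(36,0)]⟩ ⟨3,[(11,1),(2,1),(6,0),(0,0),(17,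
  2)]⟩),(.r (-1) ⟨3,[(15,1),(21,3),(1,2),(0,0)]⟩ ⟨1,[(11,0),(1,0),(24,0),(1,0)]⟩),.k,⟨false,0,⟨3,
  [(3,1),(4,1),(23,0),(3,3),(2,0)]⟩,⟨13,[(0,0),(10,4),(1,1),(0,2),(7,0),(17,14)]⟩⟩,⟨true,1,⟨0,[(8,
  0)]⟩,⟨0,[(3,0),(13,0),(22,0)]⟩⟩,⟨true,0,⟨15,[(11,1),(5,0),(0,0),(8,1),(7,5),(1,1)]⟩,⟨0,[]⟩⟩,
  ⟨false,2,⟨3,[(0,1),(20,2),(0,0),(17,2)]⟩,⟨0,[(1,0)]⟩⟩,⟨false,0,⟨0,[(38,0)]⟩,⟨0,[(37,0),(2,0)]⟩⟩,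
  ⟨true,1,⟨0,[(0,0)]⟩,⟨0,[(1,0),(35,0)]⟩⟩,[]⟩) (.Q [0,0,0,0,-1,0,1,0,1,1,-1,-1] (.p false [0,0,1]
  [1,0,0,0,-1] (⟨0,[(31,0)]⟩,⟨0,[(30,0)]⟩) .k 2 (⟨0,[(23,0)]⟩,⟨0,[(24,0)]⟩) .k (.i 0 ⟨0,[(2,0),(17,
  0)]⟩ ⟨0,[(23,0),(6,0)]⟩)) (.Q [0,0,-1,0,1,0,-1,0,0,-1,1] (.p true [0,0,1] [1] (⟨0,[(32,0)]⟩,⟨0,
  [(31,0)]⟩) .k 1 (⟨0,[]⟩,⟨0,[]⟩) .k .k) (.Q [0,0,-1,0,0,0,-1,-1,0,0,1] (.p true [0,0,1] [] (⟨0,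
  [(33,0)]⟩,⟨0,[(32,0)]⟩) .k 0 (⟨0,[]⟩,⟨0,[]⟩) .k .k) (.R ⟨0,false,false,true,[1,0,0,0,-1],[0,0,1],
  [1,1,1],(⟨0,[(26,0)]⟩,⟨0,[(27,0)]⟩),(⟨0,[(34,0)]⟩,⟨0,[(33,0)]⟩),⟨0,[(5,0)]⟩,.k,.k,(.r (-1) ⟨3,
  [(18,1),(23,0),(0,2)]⟩ ⟨17,[(14,9),(2,7),(2,0),(0,0),(8,1),(7,3)]⟩),.k,.k,.k,⟨false,0,⟨1,[(0,1),
  (19,0),(0,0)]⟩,⟨0,[(1,0),(6,0)]⟩⟩,⟨true,(-1),⟨0,[(2,0)]⟩,⟨0,[(10,0),(0,0)]⟩⟩,⟨true,(-1),⟨6,[(18,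
  3),(0,7),(0,5),(14,0),(2,0)]⟩,⟨1,[(42,0),(0,0)]⟩⟩,⟨false,(-1),⟨1,[(6,1),(1,1),(26,0),(7,0)]⟩,⟨0,
  [(0,0),(10,0),(8,0),(22,0)]⟩⟩,⟨false,0,⟨0,[]⟩,⟨0,[]⟩⟩,⟨false,0,⟨0,[]⟩,⟨0,[]⟩⟩,[.o ⟨false,0,⟨0,
  [(29,0)]⟩,⟨2,[(0,1),(19,0),(9,0),(4,0),(7,1)]⟩⟩,.e ⟨false,0,⟨0,[]⟩,⟨1,[(24,0),(0,0),(16,0)]⟩⟩
  ⟨false,0,⟨0,[(7,0),(0,0)]⟩,⟨0,[(0,0),(10,0),(8,0)]⟩⟩,.a ⟨true,1,⟨0,[(24,0)]⟩,⟨0,[(6,0),(36,0)]⟩⟩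
  ⟨false,0,⟨2,[(10,0),(10,0),(10,0)]⟩,⟨1,[(42,0),(0,0)]⟩⟩ ⟨true,(-1),⟨1,[(6,1),(1,1),(26,0),(7,0)]⟩,
  ⟨0,[(0,0),(10,0),(8,0)]⟩⟩,.o ⟨false,1,⟨0,[(11,0),(8,0)]⟩,⟨0,[(7,0)]⟩⟩]⟩) (.I [0,-1,0,0,1,0,0,1]
  (.R ⟨0,false,false,true,[1,0,0,0,-1],[1,0,-1],[],(⟨0,[(27,0)]⟩,⟨0,[(28,0)]⟩),(⟨0,[(34,0)]⟩,⟨0,
  [(35,0)]⟩),⟨0,[(6,0)]⟩,.k,.k,(.r (-1) ⟨3,[(19,1),(23,0),(0,2)]⟩ ⟨17,[(15,9),(2,7),(2,0),(0,0),(8,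
  1),(7,3)]⟩),.k,.k,.k,⟨true,1,⟨0,[(0,0)]⟩,⟨0,[(17,0),(1,0)]⟩⟩,⟨false,0,⟨0,[(2,0),(4,0),(36,0)]⟩,⟨1,
  [(12,1),(8,0),(0,0)]⟩⟩,⟨true,0,⟨15,[(15,1),(5,0),(0,0),(8,1),(7,5),(1,1)]⟩,⟨0,[]⟩⟩,⟨false,(-1),⟨0,
  [(2,0),(4,0),(9,0),(1,0),(24,0)]⟩,⟨0,[(1,0),(10,0),(31,0)]⟩⟩,⟨false,0,⟨0,[]⟩,⟨0,[]⟩⟩,⟨false,0,⟨0,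
  []⟩,⟨0,[]⟩⟩,[.o ⟨false,0,⟨0,[(2,0),(14,0),(1,0)]⟩,⟨1,[(9,1),(26,0),(7,0)]⟩⟩,.e ⟨false,1,⟨1,[(43,
  0),(0,0)]⟩,⟨15,[(15,1),(5,0),(0,0),(8,1),(7,5),(1,1)]⟩⟩ ⟨false,0,⟨1,[(2,1),(4,1),(9,1),(1,1),(23,
  0),(0,2)]⟩,⟨0,[(1,0),(10,0)]⟩⟩,.a ⟨true,1,⟨0,[(25,0)]⟩,⟨0,[(7,0),(36,0)]⟩⟩ ⟨false,1,⟨1,[(25,0),(0,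
  0),(17,0)]⟩,⟨0,[]⟩⟩ ⟨true,(-1),⟨0,[(2,0),(4,0),(9,0),(1,0),(24,0)]⟩,⟨0,[(1,0),(10,0)]⟩⟩,.o ⟨false,
  1,⟨0,[(12,0),(8,0)]⟩,⟨0,[(8,0)]⟩⟩]⟩) (.S ⟨1,0,[0,1,0,0,0,0,0,-1],[1,0,-1],[1,0,0,-1,0,0,0,-1],(⟨0,
  [(34,0)]⟩,⟨0,[(35,0)]⟩),⟨0,[(23,0)]⟩,.k,.k,⟨false,1,⟨0,[(41,0),(2,0)]⟩,⟨0,[(42,0)]⟩⟩,⟨true,0,⟨15,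
  [(15,1),(5,0),(0,0),(8,1),(7,5),(1,1)]⟩,⟨0,[]⟩⟩,⟨true,0,⟨0,[]⟩,⟨15,[(15,1),(5,0),(0,0),(8,1),(7,
  5),(1,1)]⟩⟩,⟨false,0,⟨0,[(42,0)]⟩,⟨0,[(41,0),(2,0)]⟩⟩,[.o ⟨false,0,⟨4,[(0,2),(1,1),(8,0),(19,1),
  (4,0)]⟩,⟨1,[(9,1),(26,0),(7,0)]⟩⟩,.e ⟨false,1,⟨7,[(0,3),(15,3),(2,1),(11,3),(11,0),(0,10)]⟩,⟨0,
  [(1,0),(0,0),(17,0)]⟩⟩ ⟨false,0,⟨1,[(0,1),(42,0),(0,0)]⟩,⟨5,[(2,3),(6,3),(5,1),(9,0),(0,0),(14,1),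
  (2,0)]⟩⟩,.o ⟨false,1,⟨2,[(2,1),(8,0),(13,0),(0,0)]⟩,⟨3,[(0,1),(0,1),(27,1),(6,0),(7,0)]⟩⟩,.a
  ⟨true,0,⟨0,[(33,0)]⟩,⟨0,[(29,0)]⟩⟩ ⟨true,0,⟨3,[(0,3),(18,1),(23,0),(0,2)]⟩,⟨3,[(2,0),(12,2),(4,0),
  (9,0),(8,0)]⟩⟩ ⟨false,0,⟨1,[(0,1),(42,0),(0,0)]⟩,⟨3,[(2,0),(6,0),(5,2),(3,0),(21,0),(2,2)]⟩⟩]⟩)))
  (.Q [0,-1,0,1,0,0,-1,-1,0,0,1] (.p true [0,0,1] [] (⟨0,[(33,0)]⟩,⟨0,[(32,0)]⟩) .k 0 (⟨0,[]⟩,⟨0,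
  []⟩) .k .k) (.R ⟨1,false,false,false,[1,-1],[1,-1,-1],[1,0,1],(⟨0,[(36,0)]⟩,⟨0,[(37,0)]⟩),(⟨0,
  [(22,0)]⟩,⟨0,[(34,0),(2,0)]⟩),⟨1,[(13,0),(9,0),(12,0)]⟩,.k,.k,(.r (-1) ⟨1,[(18,1),(23,0),(0,0)]⟩
  ⟨3,[(14,2),(1,0),(0,1),(23,0),(1,0)]⟩),.k,.k,.k,⟨true,0,⟨0,[(14,0)]⟩,⟨5,[(0,5),(0,1),(13,3),(2,3),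
  (16,0),(7,0)]⟩⟩,⟨false,1,⟨0,[(32,0),(9,0)]⟩,⟨1,[(1,0),(26,0),(6,0)]⟩⟩,⟨false,0,⟨17,[(1,2),(8,3),
  (3,5),(1,5),(4,0),(10,0),(10,8)]⟩,⟨3,[(18,1),(23,2),(0,0)]⟩⟩,⟨true,0,⟨10,[(0,5),(0,0),(8,0),(7,2),
  (11,4),(12,0)]⟩,⟨0,[(29,0)]⟩⟩,⟨false,0,⟨1,[(14,0),(1,0),(24,0),(1,0)]⟩,⟨1,[(18,1),(23,0),(0,0)]⟩⟩,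
  ⟨false,0,⟨0,[(0,0)]⟩,⟨1,[(8,1),(26,0),(4,1),(2,0)]⟩⟩,[.a ⟨true,0,⟨10,[(0,6),(0,2),(8,2),(7,8),(11,
  3),(12,2)]⟩,⟨0,[(8,0),(32,0)]⟩⟩ ⟨false,0,⟨0,[]⟩,⟨1,[(24,0),(0,0),(16,0)]⟩⟩ ⟨true,0,⟨0,[(0,0),(17,
  0)]⟩,⟨6,[(1,1),(6,2),(5,4),(1,0),(4,0),(13,2)]⟩⟩,.o ⟨false,1,⟨6,[(0,4),(17,5),(1,2),(9,1),(4,1),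
  (7,4)]⟩,⟨0,[(29,0),(11,0)]⟩⟩,.e ⟨true,0,⟨2,[(10,0),(10,0),(10,0)]⟩,⟨3,[(6,1),(4,1),(23,0),(6,
  0)]⟩⟩ ⟨true,0,⟨0,[(0,0),(17,0)]⟩,⟨19,[(14,8),(1,0),(0,3),(3,1),(7,15),(5,0),(5,4)]⟩⟩,.o ⟨false,0,
  ⟨0,[(20,0)]⟩,⟨0,[(42,0)]⟩⟩]⟩) (.I [1,-1,0,0,0,0,0,-1] (.Q [0,0,0,-1,-1,0,-1,-1,1,0,1,-1] (.p true
  [0,0,1] [0,0,0,0,1] (⟨0,[(35,0)]⟩,⟨0,[(34,0)]⟩) .k 2 (⟨0,[(28,0)]⟩,⟨0,[(27,0)]⟩) .k (.x (-1) ⟨0,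
  [(2,0),(9,0),(14,0),(7,0),(0,0)]⟩ ⟨1,[(6,1),(1,1),(5,0),(18,1),(0,0)]⟩)) (.Q [0,-2,0,1,2,0,1,1,-1,
  0,-1,1] (.p false [0,0,1] [0,0,0,0,1] (⟨0,[(36,0)]⟩,⟨0,[(35,0)]⟩) .k 2 (⟨0,[(29,0)]⟩,⟨0,[(28,
  0)]⟩) .k (.r (-2) ⟨0,[(16,0),(25,0),(1,0),(0,0)]⟩ ⟨0,[(0,0),(2,0),(9,0),(7,0),(15,0)]⟩)) (.R ⟨0,
  false,false,true,[1,0,0,0,-1],[1,-1,-1],[0,0,0,-1],(⟨0,[(29,0)]⟩,⟨0,[(30,0)]⟩),(⟨0,[(25,0)]⟩,⟨0,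
  [(37,0),(2,0)]⟩),⟨0,[(8,0)]⟩,.k,.k,(.r (-1) ⟨3,[(21,1),(23,0),(0,2)]⟩ ⟨17,[(17,9),(2,7),(2,0),(0,
  0),(8,1),(7,3)]⟩),(.r (-1) ⟨1,[(17,1),(27,0),(0,0)]⟩ ⟨3,[(1,0),(0,0),(11,0),(3,2),(14,1)]⟩),.k,.k,
  ⟨true,1,⟨3,[(3,1),(13,1),(17,1),(9,0),(0,2)]⟩,⟨0,[(1,0),(2,0),(9,0),(7,0),(15,0)]⟩⟩,⟨false,0,⟨0,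
  [(10,0),(24,0)]⟩,⟨1,[(4,0),(9,1),(16,0),(6,0)]⟩⟩,⟨true,0,⟨0,[(43,0)]⟩,⟨0,[(44,0)]⟩⟩,⟨false,(-1),
  ⟨4,[(1,2),(4,0),(5,0),(20,1)]⟩,⟨0,[(0,0)]⟩⟩,⟨false,0,⟨0,[]⟩,⟨0,[]⟩⟩,⟨false,0,⟨0,[]⟩,⟨0,[]⟩⟩,[.o
  ⟨false,0,⟨23,[(1,11),(7,2),(3,6),(0,14),(4,6),(1,12),(11,4),(4,9)]⟩,⟨1,[(11,1),(26,0),(5,1),(1,
  0)]⟩⟩,.a ⟨true,0,⟨0,[(1,0),(25,0)]⟩,⟨0,[(11,0),(32,0)]⟩⟩ ⟨false,1,⟨3,[(21,1),(23,0),(0,2)]⟩,⟨4,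
  [(17,0),(2,0),(20,1),(2,2)]⟩⟩ ⟨true,(-1),⟨0,[(1,0)]⟩,⟨2,[(0,0),(2,0),(10,0),(2,0),(1,0),(7,0),(4,
  0)]⟩⟩,.e ⟨false,1,⟨0,[(43,0),(2,0)]⟩,⟨0,[(44,0)]⟩⟩ ⟨false,(-1),⟨0,[(1,0)]⟩,⟨15,[(0,15),(16,1),(5,
  0),(0,0),(8,1),(7,5),(1,1)]⟩⟩,.o ⟨false,1,⟨0,[(14,0),(8,0)]⟩,⟨0,[(10,0)]⟩⟩]⟩) (.Q [0,-2,0,2,2,0,1,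
  1,-1,0,-1,1] (.p false [0,0,1] [0,0,0,0,1] (⟨0,[(37,0)]⟩,⟨0,[(36,0)]⟩) .k 2 (⟨0,[(30,0)]⟩,⟨0,[(29,
  0)]⟩) .k (.r (-2) ⟨0,[(17,0),(25,0),(1,0),(0,0)]⟩ ⟨1,[(0,0),(1,0),(1,0),(9,0),(7,0),(15,0)]⟩))
  (.R ⟨1,true,false,false,[1,-1,-1],[1,0,0,0,-1],[0,0,-1,-1,0,0,0,-1],(⟨0,[(26,0)]⟩,⟨0,[(38,0),(2,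
  0)]⟩),(⟨0,[(30,0)]⟩,⟨0,[(31,0)]⟩),⟨0,[(17,0)]⟩,.k,.k,(.r (-1) ⟨7,[(3,3),(15,3),(2,5),(11,3),(11,
  2),(0,4)]⟩ ⟨0,[(18,0),(26,0)]⟩),(.r 0 ⟨11,[(1,0),(1,4),(11,0),(3,6),(2,1),(11,5),(11,0)]⟩ ⟨1,[(18,
  1),(27,0),(0,0)]⟩),(.r 0 ⟨2,[(1,0),(1,1),(11,0),(3,0),(2,1),(23,0)]⟩ ⟨8,[(0,4),(17,5),(1,0),(8,4),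
  (4,0),(1,3)]⟩),.k,⟨false,0,⟨1,[(1,0),(1,0),(11,0),(3,0),(26,0)]⟩,⟨1,[(18,1),(27,0),(0,0)]⟩⟩,⟨true,
  1,⟨9,[(0,1),(2,1),(1,2),(9,7),(3,4),(3,0),(15,1)]⟩,⟨0,[(2,0),(15,0)]⟩⟩,⟨false,1,⟨1,[(28,0),(0,0),
  (17,0)]⟩,⟨0,[]⟩⟩,⟨true,2,⟨0,[(0,0),(43,0)]⟩,⟨0,[(1,0)]⟩⟩,⟨true,0,⟨0,[(45,0)]⟩,⟨0,[(44,0)]⟩⟩,
  ⟨false,2,⟨0,[(0,0)]⟩,⟨0,[(2,0),(41,0)]⟩⟩,[]⟩) (.I [0,0,-1,0,1,0,0,1] (.S ⟨1,0,[0,0,0,0,0,0,0,1],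
  [0,0,1],[0,1,0,0,0,0,0,1],(⟨0,[(39,0)]⟩,⟨0,[(38,0)]⟩),⟨0,[(28,0)]⟩,.k,.k,⟨true,0,⟨15,[(19,1),(5,
  0),(0,0),(8,1),(7,5),(1,1)]⟩,⟨0,[]⟩⟩,⟨false,1,⟨1,[(29,0),(0,0),(17,0)]⟩,⟨0,[]⟩⟩,⟨false,0,⟨0,[(46,
  0)]⟩,⟨0,[(45,0),(2,0)]⟩⟩,⟨true,0,⟨0,[(46,0)]⟩,⟨0,[(45,0)]⟩⟩,[.e ⟨false,1,⟨15,[(0,15),(18,1),(5,0),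
  (0,0),(8,1),(7,5),(1,1)]⟩,⟨0,[(4,0)]⟩⟩ ⟨false,1,⟨0,[(0,0)]⟩,⟨13,[(4,7),(15,1),(1,1),(2,0),(0,0),
  (8,3)]⟩⟩,.o ⟨false,1,⟨1,[(13,1),(26,0),(7,0)]⟩,⟨15,[(2,4),(0,2),(11,1),(0,7),(4,1),(13,5),(4,6),
  (5,3)]⟩⟩,.o ⟨false,0,⟨1,[(6,0),(26,0),(6,0)]⟩,⟨0,[(15,0),(31,0)]⟩⟩,.a ⟨true,(-1),⟨0,[(6,0)]⟩,⟨0,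
  [(37,0),(9,0)]⟩⟩ ⟨false,1,⟨0,[(0,0)]⟩,⟨2,[(4,1),(1,0),(18,0),(9,0),(12,0)]⟩⟩ ⟨true,1,⟨0,[(0,0)]⟩,
  ⟨12,[(1,4),(2,0),(1,0),(13,3),(0,6),(3,0),(3,4)]⟩⟩]⟩) (.Q [0,0,-2,0,1,0,-2,-1,0,-1,2] (.p true [0,
  0,1] [1,0,-1] (⟨0,[(39,0)]⟩,⟨0,[(38,0)]⟩) .k 2 (⟨0,[(38,0)]⟩,⟨0,[(39,0)]⟩) .k (.r (-2) ⟨1,[(5,1),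
  (13,1),(17,1),(9,2),(0,0)]⟩ ⟨0,[(0,1),(46,0)]⟩)) (.K ⟨0,[-1,0,1,0,1],(-1),(-1),(⟨0,[(11,0),(17,
  0)]⟩,⟨0,[(32,0),(6,0)]⟩),.k,(.r (-1) ⟨0,[(6,0),(31,0),(9,0)]⟩ ⟨17,[(5,5),(16,7),(0,1),(2,0),(0,0),
  (8,1),(12,7)]⟩),(.r 0 ⟨4,[(0,0),(19,3),(4,0),(9,1),(8,0)]⟩ ⟨39,[(0,9),(4,17),(18,19),(2,15),(8,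
  11),(4,2),(7,26)]⟩),.k,.k,[⟨0,[(12,0),(36,0)]⟩,⟨0,[(16,0),(0,0)]⟩,⟨4,[(0,1),(0,2),(14,0),(0,0),
  (12,3),(10,0)]⟩,⟨0,[(14,0),(0,0)]⟩]⟩) (.Q [0,0,2,0,-1,0,1,0,0,0,-1] (.p false [0,0,1] [] (⟨0,[(40,
  0)]⟩,⟨0,[(39,0)]⟩) .k 0 (⟨0,[]⟩,⟨0,[]⟩) .k .k) (.Q [0,-1,0,2,0,0,-1,-1,0,0,1] (.p true [0,0,1] []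
  (⟨0,[(41,0)]⟩,⟨0,[(40,0)]⟩) .k 0 (⟨0,[]⟩,⟨0,[]⟩) .k .k) (.R ⟨1,true,false,false,[0,0,1],[0,1],[0,
  0,0,0,0,0,0,1],(⟨0,[(42,0)]⟩,⟨0,[(41,0)]⟩),(⟨0,[(45,0)]⟩,⟨0,[(44,0)]⟩),⟨0,[(31,0)]⟩,.k,.k,.k,.k,
  (.r (-2) ⟨3,[(8,3),(17,1),(13,3),(9,4),(0,2)]⟩ ⟨0,[(24,0)]⟩),.k,⟨false,2,⟨1,[(8,1),(31,1),(9,2),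
  (0,0)]⟩,⟨6,[(0,2),(0,1),(1,3),(19,0),(3,1),(15,0)]⟩⟩,⟨true,1,⟨0,[(40,0),(9,0)]⟩,⟨0,[(1,0)]⟩⟩,
  ⟨false,1,⟨1,[(32,0),(0,0),(17,0)]⟩,⟨0,[]⟩⟩,⟨true,0,⟨1,[(0,0),(37,0)]⟩,⟨0,[(8,0)]⟩⟩,⟨true,0,⟨0,
  [(49,0)]⟩,⟨0,[(48,0)]⟩⟩,⟨false,0,⟨0,[(0,0)]⟩,⟨0,[(8,0),(39,0),(2,0)]⟩⟩,[]⟩) (.K ⟨0,[-1,0,1,0,1],
  (-1),(-1),(⟨0,[(13,0),(17,0)]⟩,⟨0,[(34,0),(6,0)]⟩),.k,(.r (-1) ⟨0,[(8,0),(31,0),(9,0)]⟩ ⟨17,[(7,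
  5),(16,7),(0,1),(2,0),(0,0),(8,1),(12,7)]⟩),(.r 0 ⟨3,[(14,1),(4,1),(2,3),(20,0),(6,0)]⟩ ⟨7,[(7,3),
  (15,3),(2,1),(11,3),(11,0),(0,6)]⟩),.k,.k,[⟨0,[(14,0),(36,0)]⟩,⟨0,[(18,0),(0,0)]⟩,⟨10,[(3,0),(2,
  3),(0,1),(10,4),(0,14),(4,1),(13,1),(4,2)]⟩,⟨0,[(16,0),(0,0)]⟩]⟩)) (.Q [0,-1,0,2,0,0,-1,-1,0,0,1]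
  (.p true [0,0,1] [] (⟨0,[(41,0)]⟩,⟨0,[(40,0)]⟩) .k 0 (⟨0,[]⟩,⟨0,[]⟩) .k .k) (.R ⟨1,false,false,
  false,[0,0,1],[0,1],[1,0,1,1],(⟨0,[(42,0)]⟩,⟨0,[(41,0)]⟩),(⟨0,[(45,0)]⟩,⟨0,[(44,0)]⟩),⟨0,[(31,
  0)]⟩,.k,.k,.k,.k,(.r (-2) ⟨0,[(1,0),(6,0),(39,0),(2,0)]⟩ ⟨0,[(24,0)]⟩),.k,⟨true,0,⟨0,[]⟩,⟨2,[(18,
  0),(10,0),(10,0)]⟩⟩,⟨false,1,⟨0,[(1,0)]⟩,⟨0,[(39,0)]⟩⟩,⟨true,(-1),⟨12,[(0,4),(1,1),(0,9),(19,0),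
  (3,3),(15,2)]⟩,⟨7,[(1,5),(6,5),(13,1),(9,0),(0,0),(14,3),(2,0)]⟩⟩,⟨true,0,⟨1,[(0,0),(37,0)]⟩,⟨0,
  [(8,0)]⟩⟩,⟨true,(-1),⟨12,[(0,9),(1,3),(0,6),(19,1),(3,7),(15,5)]⟩,⟨4,[(1,2),(6,4),(17,0),(13,1),
  (7,2),(2,1)]⟩⟩,⟨false,0,⟨0,[(0,0)]⟩,⟨0,[(8,0),(39,0),(2,0)]⟩⟩,[.o ⟨false,0,⟨0,[(49,0)]⟩,⟨1,[(43,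
  0),(4,1),(2,0)]⟩⟩,.a ⟨true,0,⟨0,[(27,0),(23,0)]⟩,⟨0,[(48,0)]⟩⟩ ⟨false,1,⟨23,[(0,3),(21,9),(2,5),
  (3,1),(13,0),(6,9),(0,12)]⟩,⟨0,[(47,0)]⟩⟩ ⟨true,1,⟨3,[(0,0),(0,1),(20,1),(15,0),(12,1)]⟩,⟨0,[(3,
  0),(4,0)]⟩⟩,.o ⟨false,0,⟨4,[(2,0),(0,0),(32,2),(6,1)]⟩,⟨3,[(1,1),(16,1),(13,0),(0,0),(9,0)]⟩⟩,.e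
  ⟨true,0,⟨0,[(49,0)]⟩,⟨0,[(48,0)]⟩⟩ ⟨true,1,⟨13,[(0,1),(0,11),(20,5),(2,3),(24,0),(0,0)]⟩,⟨0,[(3,
  0),(4,0)]⟩⟩]⟩) (.K ⟨0,[-1,0,1,0,1],(-1),(-1),(⟨0,[(13,0),(17,0)]⟩,⟨0,[(34,0),(6,0)]⟩),.k,(.r (-1)
  ⟨3,[(0,0),(0,2),(6,1),(13,0),(9,0),(0,0),(14,0)]⟩ ⟨17,[(7,5),(16,7),(0,1),(2,0),(0,0),(8,1),(12,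
  7)]⟩),(.r 0 ⟨9,[(1,1),(16,0),(3,6),(4,2),(9,2),(5,0),(2,1)]⟩ ⟨7,[(7,3),(15,3),(2,1),(11,3),(11,0),
  (0,6)]⟩),.k,.k,[⟨0,[(14,0),(36,0)]⟩,⟨0,[(18,0),(0,0)]⟩,⟨3,[(1,0),(1,1),(3,0),(10,1),(0,3),(18,0),
  (4,0)]⟩,⟨0,[(16,0),(0,0)]⟩]⟩))))))) (.R ⟨0,false,false,false,[1,0,0,0,-1],[1,-1,-1],[1,0,1],(⟨0,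
  [(28,0)]⟩,⟨0,[(29,0)]⟩),(⟨0,[(24,0)]⟩,⟨0,[(36,0),(2,0)]⟩),⟨0,[(7,0)]⟩,.k,.k,(.r (-1) ⟨3,[(20,1),
  (23,0),(0,2)]⟩ ⟨17,[(16,9),(2,7),(2,0),(0,0),(8,1),(7,3)]⟩),(.r (-1) ⟨1,[(16,1),(27,0),(0,0)]⟩ ⟨2,
  [(1,1),(15,0),(2,0),(11,0),(7,0)]⟩),.k,.k,⟨true,0,⟨0,[(16,0)]⟩,⟨0,[(1,0),(39,0)]⟩⟩,⟨false,0,⟨0,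
  [(9,0),(24,0)]⟩,⟨1,[(0,0),(0,0),(11,0),(3,0)]⟩⟩,⟨false,0,⟨2,[(12,0),(10,0),(10,0)]⟩,⟨1,[(44,0),(0,
  0)]⟩⟩,⟨true,(-1),⟨3,[(1,3),(6,2),(0,0),(2,2),(7,1),(13,0),(9,1)]⟩,⟨0,[(0,0)]⟩⟩,⟨false,0,⟨0,[]⟩,⟨0,
  []⟩⟩,⟨false,0,⟨0,[]⟩,⟨0,[]⟩⟩,[.e ⟨false,0,⟨0,[]⟩,⟨1,[(26,0),(0,0),(16,0)]⟩⟩ ⟨false,0,⟨3,[(1,3),(6,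
  0),(0,2),(2,0),(7,1),(13,2),(9,1)]⟩,⟨0,[(0,0)]⟩⟩,.o ⟨false,1,⟨3,[(1,3),(10,3),(7,1),(23,2),(0,
  0)]⟩,⟨0,[(31,0),(11,0)]⟩⟩,.a ⟨true,1,⟨0,[(26,0)]⟩,⟨0,[(8,0),(36,0)]⟩⟩ ⟨true,0,⟨2,[(12,0),(10,0),
  (10,0)]⟩,⟨3,[(8,1),(4,1),(23,0),(6,0)]⟩⟩ ⟨false,0,⟨3,[(1,3),(3,0),(3,2),(10,0),(13,3),(10,0)]⟩,⟨0,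
  [(0,0)]⟩⟩,.o ⟨false,1,⟨0,[(13,0),(8,0)]⟩,⟨0,[(9,0)]⟩⟩]⟩)) (.Q [0,0,0,1,1,0,-1,-1,-1,-1,1,1] (.p
  true [0,0,1] [1,0,0,0,-1] (⟨0,[(35,0)]⟩,⟨0,[(34,0)]⟩) .k 2 (⟨0,[(27,0)]⟩,⟨0,[(28,0)]⟩) .k (.r 0
  ⟨0,[(0,0)]⟩ ⟨9,[(16,3),(0,1),(4,1),(8,7),(4,0),(7,10)]⟩)) (.R ⟨0,false,false,true,[1,0,0,0,-1],[0,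
  -1,1],[0,0,0,-1],(⟨0,[(28,0)]⟩,⟨0,[(29,0)]⟩),(⟨0,[(25,0)]⟩,⟨0,[(35,0),(3,0)]⟩),⟨0,[(7,0)]⟩,.k,.k,
  (.r (-1) ⟨3,[(20,1),(23,0),(0,2)]⟩ ⟨17,[(16,9),(2,7),(2,0),(0,0),(8,1),(7,3)]⟩),(.r 0 ⟨2,[(0,0),
  (4,0),(12,1),(11,0),(14,1)]⟩ ⟨1,[(1,1),(40,1),(1,0),(0,0)]⟩),.k,.k,⟨true,0,⟨0,[(18,0),(1,0),(24,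
  0)]⟩,⟨0,[(1,0)]⟩⟩,⟨false,(-1),⟨0,[(4,0)]⟩,⟨0,[(12,0),(0,0),(30,0)]⟩⟩,⟨true,0,⟨0,[(42,0)]⟩,⟨0,[(43,
  0)]⟩⟩,⟨false,(-1),⟨0,[(6,0),(3,0)]⟩,⟨0,[(0,0),(44,0)]⟩⟩,⟨false,0,⟨0,[]⟩,⟨0,[]⟩⟩,⟨false,0,⟨0,[]⟩,
  ⟨0,[]⟩⟩,[.o ⟨false,0,⟨0,[(2,0)]⟩,⟨1,[(0,1),(7,1),(28,0),(7,2)]⟩⟩,.e ⟨false,1,⟨3,[(20,1),(23,0),(0,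
  2)]⟩,⟨4,[(16,0),(2,0),(20,1),(2,2)]⟩⟩ ⟨false,0,⟨3,[(5,0),(3,2),(0,3),(9,0),(24,0)]⟩,⟨0,[(0,0)]⟩⟩,
  .a ⟨true,1,⟨0,[(26,0)]⟩,⟨0,[(8,0),(36,0)]⟩⟩ ⟨false,1,⟨0,[(42,0),(2,0)]⟩,⟨0,[(43,0)]⟩⟩ ⟨true,(-1),
  ⟨0,[(6,0),(3,0)]⟩,⟨0,[(0,0)]⟩⟩,.o ⟨false,1,⟨0,[(13,0),(8,0)]⟩,⟨0,[(9,0)]⟩⟩]⟩) (.Q [0,-2,0,1,2,0,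
  -1,-1,-1,-1,1,1] (.p true [0,0,1] [1,0,0,0,-1] (⟨0,[(36,0)]⟩,⟨0,[(35,0)]⟩) .k 2 (⟨0,[(28,0)]⟩,⟨0,
  [(29,0)]⟩) .k (.r 0 ⟨0,[(1,0)]⟩ ⟨9,[(17,3),(0,1),(4,1),(8,7),(4,0),(7,10)]⟩)) (.R ⟨0,false,false,
  true,[1,0,0,0,-1],[0,-1,1],[],(⟨0,[(29,0)]⟩,⟨0,[(30,0)]⟩),(⟨0,[(26,0)]⟩,⟨0,[(36,0),(3,0)]⟩),⟨0,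
  [(8,0)]⟩,.k,.k,(.r (-1) ⟨3,[(21,1),(23,0),(0,2)]⟩ ⟨17,[(17,9),(2,7),(2,0),(0,0),(8,1),(7,3)]⟩),
  (.r 0 ⟨4,[(0,2),(3,0),(0,1),(0,0),(12,1)]⟩ ⟨1,[(2,1),(40,1),(1,0),(0,0)]⟩),.k,.k,⟨true,0,⟨4,[(0,
  2),(3,0),(0,1),(0,0),(12,1)]⟩,⟨2,[(1,0),(0,1),(10,0),(0,0),(6,0)]⟩⟩,⟨false,(-1),⟨0,[(5,0)]⟩,⟨0,
  [(13,0),(0,0),(30,0)]⟩⟩,⟨true,0,⟨15,[(17,1),(5,0),(0,0),(8,1),(7,5),(1,1)]⟩,⟨0,[]⟩⟩,⟨false,(-1),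
  ⟨1,[(1,0),(1,0),(11,0)]⟩,⟨0,[(0,0)]⟩⟩,⟨false,0,⟨0,[]⟩,⟨0,[]⟩⟩,⟨false,0,⟨0,[]⟩,⟨0,[]⟩⟩,[.o ⟨false,
  0,⟨0,[(3,0)]⟩,⟨1,[(0,1),(8,1),(28,0),(7,0)]⟩⟩,.a ⟨true,0,⟨0,[(1,0),(25,0)]⟩,⟨0,[(0,0),(8,0)]⟩⟩
  ⟨false,1,⟨1,[(45,0),(0,0)]⟩,⟨15,[(17,1),(5,0),(0,0),(8,1),(7,5),(1,1)]⟩⟩ ⟨true,(-1),⟨0,[(1,0)]⟩,
  ⟨4,[(0,0),(12,1),(0,2),(4,1),(7,0),(5,1),(4,0)]⟩⟩,.e ⟨false,1,⟨1,[(27,0),(0,0),(17,0)]⟩,⟨0,[]⟩⟩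
  ⟨false,(-1),⟨0,[(1,0)]⟩,⟨10,[(0,8),(16,0),(2,0),(6,2),(0,0),(4,1),(4,0),(2,1)]⟩⟩,.o ⟨false,1,⟨0,
  [(14,0),(8,0)]⟩,⟨0,[(10,0)]⟩⟩]⟩) (.Q [0,-1,0,1,1,0,1,1,-1,0,-1,1] (.p false [0,0,1] [0,0,0,0,1]
  (⟨0,[(37,0)]⟩,⟨0,[(36,0)]⟩) .k 2 (⟨0,[(30,0)]⟩,⟨0,[(29,0)]⟩) .k (.r (-1) ⟨0,[(2,0),(43,0)]⟩ ⟨9,
  [(18,3),(0,1),(4,1),(8,7),(4,0),(7,0)]⟩)) (.R ⟨0,false,false,true,[1,0,0,0,-1],[1,-1,-1],[1,0,1],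
  (⟨0,[(30,0)]⟩,⟨0,[(31,0)]⟩),(⟨0,[(26,0)]⟩,⟨0,[(38,0),(2,0)]⟩),⟨0,[(9,0)]⟩,.k,.k,(.r (-1) ⟨3,[(22,
  1),(23,0),(0,2)]⟩ ⟨17,[(18,9),(2,7),(2,0),(0,0),(8,1),(7,3)]⟩),(.r (-1) ⟨1,[(18,1),(27,0),(0,0)]⟩
  ⟨3,[(20,3),(1,5),(23,2),(0,0)]⟩),.k,.k,⟨true,0,⟨1,[(0,0),(1,0),(11,1),(8,0),(21,0),(1,0)]⟩,⟨3,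
  [(20,3),(1,5),(23,2),(0,0)]⟩⟩,⟨false,0,⟨0,[(11,0),(24,0)]⟩,⟨3,[(0,0),(14,2),(3,2),(0,0),(26,0)]⟩⟩,
  ⟨false,0,⟨2,[(14,0),(10,0),(10,0)]⟩,⟨1,[(46,0),(0,0)]⟩⟩,⟨true,(-1),⟨0,[(8,0),(25,0)]⟩,⟨0,[(0,
  0)]⟩⟩,⟨false,0,⟨0,[]⟩,⟨0,[]⟩⟩,⟨false,0,⟨0,[]⟩,⟨0,[]⟩⟩,[.e ⟨false,0,⟨0,[]⟩,⟨1,[(28,0),(0,0),(16,
  0)]⟩⟩ ⟨false,0,⟨3,[(7,0),(3,2),(10,0),(11,3),(12,0)]⟩,⟨0,[(0,0)]⟩⟩,.o ⟨false,1,⟨11,[(14,1),(5,1),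
  (1,7),(11,9),(4,4),(7,8)]⟩,⟨3,[(0,1),(0,0),(0,0),(36,0),(5,3)]⟩⟩,.a ⟨true,1,⟨0,[(28,0)]⟩,⟨0,[(10,
  0),(36,0)]⟩⟩ ⟨true,0,⟨2,[(14,0),(10,0),(10,0)]⟩,⟨3,[(10,1),(4,1),(23,0),(6,0)]⟩⟩ ⟨false,0,⟨7,[(7,
  4),(3,2),(8,0),(13,6),(1,0),(10,5)]⟩,⟨0,[(0,0)]⟩⟩,.o ⟨false,1,⟨0,[(15,0),(8,0)]⟩,⟨0,[(11,0)]⟩⟩]⟩)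
  (.Q [0,-2,0,2,2,0,-1,-1,-1,-1,1,1] (.p true [0,0,1] [1,0,0,0,-1] (⟨0,[(38,0)]⟩,⟨0,[(37,0)]⟩) .k 2
  (⟨0,[(30,0)]⟩,⟨0,[(31,0)]⟩) .k (.r 0 ⟨0,[(3,0)]⟩ ⟨9,[(19,3),(0,1),(4,1),(8,7),(4,0),(7,10)]⟩))
  (.Q [0,0,2,0,-2,0,1,0,1,1,-1,-1] (.p false [0,0,1] [1,0,0,0,-1] (⟨0,[(39,0)]⟩,⟨0,[(38,0)]⟩) .k 2
  (⟨0,[(31,0)]⟩,⟨0,[(32,0)]⟩) .k (.r 0 ⟨0,[(4,0)]⟩ ⟨13,[(0,3),(0,3),(21,1),(1,0),(0,6),(8,5),(4,0),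
  (7,8)]⟩)) (.R ⟨1,true,false,false,[0,0,0,0,1],[1,1,-1],[0,1],(⟨0,[(33,0)]⟩,⟨0,[(32,0)]⟩),(⟨0,[(39,
  0),(3,0)]⟩,⟨0,[(29,0)]⟩),⟨1,[(11,0),(7,0),(9,0),(3,0)]⟩,.k,.k,(.r 0 ⟨0,[(45,0)]⟩ ⟨7,[(1,1),(18,3),
  (6,1),(2,0),(0,2),(4,1),(12,2)]⟩),(.r (-1) ⟨1,[(5,1),(40,1),(1,0),(0,0)]⟩ ⟨3,[(0,1),(0,2),(0,0),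
  (4,0),(13,0)]⟩),(.r (-1) ⟨1,[(5,1),(18,1),(23,0),(0,0)]⟩ ⟨34,[(0,16),(0,21),(18,5),(1,9),(3,1),(0,
  6),(3,4),(4,8)]⟩),.k,⟨false,1,⟨3,[(5,3),(18,1),(23,2),(0,0)]⟩,⟨3,[(0,1),(0,2),(0,0),(4,0),(13,
  0)]⟩⟩,⟨true,2,⟨0,[(1,0),(3,0),(18,0)]⟩,⟨0,[(0,0)]⟩⟩,⟨false,1,⟨1,[(30,0),(0,0),(17,0)]⟩,⟨0,[]⟩⟩,
  ⟨true,2,⟨0,[(1,0),(44,0)]⟩,⟨0,[(3,0)]⟩⟩,⟨true,0,⟨0,[(47,0)]⟩,⟨0,[(46,0)]⟩⟩,⟨false,2,⟨0,[(1,0)]⟩,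
  ⟨0,[(4,0),(41,0)]⟩⟩,[]⟩) (.R ⟨1,false,false,false,[0,0,0,0,1],[1,1,-1],[0,1,1],(⟨0,[(33,0)]⟩,⟨0,
  [(32,0)]⟩),(⟨0,[(39,0),(3,0)]⟩,⟨0,[(29,0)]⟩),⟨1,[(11,0),(7,0),(9,0),(3,0)]⟩,.k,.k,(.r 0 ⟨0,[(45,
  0)]⟩ ⟨7,[(1,1),(18,3),(6,1),(2,0),(0,2),(4,1),(12,2)]⟩),(.r (-1) ⟨3,[(0,1),(4,0),(0,0),(7,1),(9,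
  0),(6,1),(6,0),(7,0)]⟩ ⟨3,[(1,0),(0,0),(4,0),(13,0),(0,1),(26,1)]⟩),(.r (-1) ⟨6,[(0,4),(3,2),(0,
  0),(0,0),(7,1),(9,4),(6,1),(6,0)]⟩ ⟨34,[(1,4),(18,5),(1,26),(3,1),(0,6),(3,4),(4,8),(12,16)]⟩),.k,
  ⟨true,0,⟨2,[(4,0),(0,1),(10,0),(0,0),(6,0)]⟩,⟨3,[(1,0),(0,0),(4,0),(13,0),(0,1),(26,1)]⟩⟩,⟨false,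
  2,⟨0,[(0,0)]⟩,⟨0,[(7,0),(23,0)]⟩⟩,⟨true,0,⟨2,[(16,0),(10,0),(10,0)]⟩,⟨7,[(0,1),(11,1),(8,1),(3,1),
  (15,0),(6,0)]⟩⟩,⟨true,2,⟨0,[(1,0),(44,0)]⟩,⟨0,[(3,0)]⟩⟩,⟨true,0,⟨21,[(1,1),(18,7),(1,2),(0,2),(1,
  0),(1,0),(3,1)]⟩,⟨4,[(0,0),(11,0),(8,0),(2,1)]⟩⟩,⟨false,2,⟨0,[(1,0)]⟩,⟨0,[(4,0),(41,0)]⟩⟩,[.e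
  ⟨false,0,⟨15,[(20,1),(5,0),(0,0),(8,1),(7,5),(1,1)]⟩,⟨1,[(48,0),(0,0)]⟩⟩ ⟨false,2,⟨6,[(0,2),(0,2),
  (21,0),(3,0),(2,0),(5,2),(4,0),(2,0)]⟩,⟨0,[(4,0)]⟩⟩,.o ⟨false,1,⟨6,[(1,5),(0,2),(1,1),(7,0),(28,
  1)]⟩,⟨0,[(6,0)]⟩⟩,.e ⟨false,0,⟨2,[(16,0),(10,0),(10,0)]⟩,⟨1,[(48,0),(0,0)]⟩⟩ ⟨false,2,⟨0,[(1,0),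
  (44,0)]⟩,⟨0,[(4,0)]⟩⟩,.a ⟨true,(-1),⟨10,[(2,0),(1,2),(2,1),(8,0),(1,6),(3,1),(15,2),(10,3)]⟩,⟨0,
  [(17,0)]⟩⟩ ⟨true,0,⟨15,[(20,1),(5,0),(0,0),(8,1),(7,5),(1,1)]⟩,⟨0,[]⟩⟩ ⟨false,2,⟨3,[(0,0),(0,2),
  (0,0),(14,0),(3,0)]⟩,⟨2,[(4,2),(11,0),(10,0),(10,0)]⟩⟩]⟩)) (.Q [0,-1,0,2,1,0,1,1,-1,0,-1,1] (.p
  false [0,0,1] [0,0,0,0,1] (⟨0,[(39,0)]⟩,⟨0,[(38,0)]⟩) .k 2 (⟨0,[(32,0)]⟩,⟨0,[(31,0)]⟩) .k (.r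
  (-1) ⟨0,[(4,0),(43,0)]⟩ ⟨9,[(20,3),(0,1),(4,1),(8,7),(4,0),(7,0)]⟩)) (.R ⟨1,true,false,false,[1,
  -1,-1],[1,0,0,0,-1],[0,1,-1,-1,0,0,0,-1],(⟨0,[(28,0)]⟩,⟨0,[(40,0),(2,0)]⟩),(⟨0,[(32,0)]⟩,⟨0,[(33,
  0)]⟩),⟨0,[(19,0)]⟩,.k,.k,(.r (-1) ⟨0,[(2,0),(14,0),(3,0),(27,0)]⟩ ⟨0,[(20,0),(26,0)]⟩),(.r 0 ⟨3,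
  [(2,2),(14,2),(3,2),(0,0),(26,0)]⟩ ⟨1,[(20,1),(27,0),(0,0)]⟩),(.r (-1) ⟨3,[(21,3),(2,1),(11,3),
  (11,0),(0,2)]⟩ ⟨0,[(0,0),(11,0),(3,0),(32,0)]⟩),.k,⟨false,0,⟨5,[(2,4),(14,4),(3,4),(0,0),(2,1),
  (15,0),(6,1)]⟩,⟨2,[(0,1),(3,0),(8,0),(2,0),(21,1),(10,1)]⟩⟩,⟨true,1,⟨11,[(0,1),(6,1),(9,9),(3,7),
  (0,1),(18,0),(7,2)]⟩,⟨0,[(12,0),(3,0),(32,0)]⟩⟩,⟨true,0,⟨15,[(20,1),(5,0),(0,0),(8,1),(7,5),(1,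
  1)]⟩,⟨0,[]⟩⟩,⟨false,2,⟨3,[(0,1),(13,1),(15,1),(10,0),(7,2)]⟩,⟨0,[(2,0)]⟩⟩,⟨false,0,⟨0,[(47,0)]⟩,
  ⟨0,[(46,0),(2,0)]⟩⟩,⟨true,1,⟨0,[(0,0)]⟩,⟨0,[(9,0),(26,0)]⟩⟩,[]⟩) (.Q [0,0,-1,0,0,0,-1,0,1,0,1,-1]
  (.p true [0,0,1] [0,0,0,0,1] (⟨0,[(40,0)]⟩,⟨0,[(39,0)]⟩) .k 2 (⟨0,[(33,0)]⟩,⟨0,[(32,0)]⟩) .k (.r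
  (-1) ⟨0,[(5,0),(43,0)]⟩ ⟨6,[(0,0),(16,0),(3,0),(0,0),(0,0),(3,1),(8,3),(4,0)]⟩)) (.Q [0,-1,0,1,1,
  0,-1,-1,0,-1,1] (.p true [0,0,1] [1] (⟨0,[(41,0)]⟩,⟨0,[(40,0)]⟩) .k 1 (⟨0,[]⟩,⟨0,[]⟩) .k .k) (.R
  ⟨0,false,false,false,[1,0,0,0,-1],[1,1,-1],[0,1],(⟨0,[(34,0)]⟩,⟨0,[(35,0)]⟩),(⟨0,[(41,0),(3,0)]⟩,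
  ⟨0,[(31,0)]⟩),⟨0,[(13,0)]⟩,.k,.k,(.r (-1) ⟨3,[(26,1),(23,0),(0,2)]⟩ ⟨17,[(22,9),(2,7),(2,0),(0,0),
  (8,1),(7,3)]⟩),(.r (-2) ⟨0,[(1,0),(6,0),(23,0),(18,0)]⟩ ⟨0,[(24,0),(22,0)]⟩),.k,.k,⟨false,1,⟨3,
  [(7,3),(18,1),(23,2),(0,0)]⟩,⟨10,[(0,0),(1,1),(16,1),(3,1),(0,7),(11,0),(14,6)]⟩⟩,⟨true,0,⟨0,[(1,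
  0)]⟩,⟨0,[(9,0),(9,0),(8,0)]⟩⟩,⟨false,0,⟨15,[(22,1),(5,0),(0,0),(8,1),(7,5),(1,1)]⟩,⟨0,[(51,0)]⟩⟩,
  ⟨true,(-1),⟨0,[(0,0),(13,0)]⟩,⟨3,[(6,1),(1,1),(0,1),(8,1),(0,5),(23,0),(7,0)]⟩⟩,⟨false,0,⟨0,[]⟩,
  ⟨0,[]⟩⟩,⟨false,0,⟨0,[]⟩,⟨0,[]⟩⟩,[.e ⟨false,0,⟨3,[(14,1),(4,1),(23,0),(6,0)]⟩,⟨1,[(32,0),(0,0),(17,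
  0)]⟩⟩ ⟨false,0,⟨3,[(0,0),(0,2),(2,0),(19,1),(11,0),(13,1)]⟩,⟨3,[(6,1),(1,1),(0,1),(8,1),(0,5),(23,
  0),(7,0)]⟩⟩,.o ⟨false,1,⟨0,[(0,0)]⟩,⟨0,[(8,0)]⟩⟩,.a ⟨true,1,⟨0,[(32,0)]⟩,⟨0,[(1,0),(7,0)]⟩⟩ ⟨true,
  0,⟨15,[(22,1),(5,0),(0,0),(8,1),(7,5),(1,1)]⟩,⟨0,[]⟩⟩ ⟨false,0,⟨3,[(0,0),(0,2),(2,0),(19,1),(11,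
  0),(14,1)]⟩,⟨3,[(6,1),(1,1),(0,1),(8,1),(0,5),(23,0),(7,0)]⟩⟩,.o ⟨false,1,⟨0,[(19,0),(8,0)]⟩,⟨0,
  [(15,0)]⟩⟩]⟩) (.R ⟨1,false,false,false,[0,0,1],[0,1],[1,0,1,1],(⟨0,[(42,0)]⟩,⟨0,[(41,0)]⟩),(⟨0,
  [(45,0)]⟩,⟨0,[(44,0)]⟩),⟨0,[(31,0)]⟩,.k,.k,.k,.k,(.r (-2) ⟨3,[(1,3),(6,3),(17,1),(5,3),(17,0),(0,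
  2)]⟩ ⟨0,[(24,0)]⟩),.k,⟨true,0,⟨0,[]⟩,⟨2,[(18,0),(10,0),(10,0)]⟩⟩,⟨false,1,⟨0,[(1,0),(17,0)]⟩,⟨0,
  [(39,0)]⟩⟩,⟨false,0,⟨9,[(2,1),(16,1),(3,1),(0,7),(25,0),(0,6)]⟩,⟨3,[(7,3),(18,1),(23,0),(0,2)]⟩⟩,
  ⟨false,1,⟨0,[(38,0),(10,0),(1,0)]⟩,⟨1,[(0,1),(42,0),(7,0)]⟩⟩,⟨false,0,⟨1,[(24,1),(25,0),(0,0)]⟩,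
  ⟨0,[(7,0),(18,0),(24,0)]⟩⟩,⟨true,0,⟨0,[(1,0),(17,0),(4,0)]⟩,⟨3,[(0,0),(7,2),(17,1),(1,0),(22,
  0)]⟩⟩,[.o ⟨false,0,⟨0,[(49,0)]⟩,⟨1,[(43,0),(4,1),(2,0)]⟩⟩,.a ⟨true,0,⟨0,[(27,0),(23,0)]⟩,⟨0,[(48,
  0)]⟩⟩ ⟨false,1,⟨2,[(22,0),(2,0),(23,0),(0,0),(0,1)]⟩,⟨0,[(47,0)]⟩⟩ ⟨true,1,⟨12,[(1,9),(17,9),(2,
  4),(1,3),(13,0),(1,1),(10,6)]⟩,⟨1,[(0,1),(23,1),(1,1),(16,0),(7,0)]⟩⟩,.o ⟨false,0,⟨1,[(9,0),(26,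
  0),(6,0)]⟩,⟨2,[(1,1),(16,0),(13,1),(10,0)]⟩⟩,.e ⟨true,0,⟨0,[(49,0)]⟩,⟨0,[(48,0)]⟩⟩ ⟨true,1,⟨5,[(1,
  3),(17,3),(2,1),(15,1),(10,3),(0,0),(0,0)]⟩,⟨1,[(0,1),(23,1),(1,1),(16,0),(7,0)]⟩⟩]⟩)) (.Q [0,0,0,
  0,0,0,1,1,0,0,-1] (.p false [0,0,1] [] (⟨0,[(41,0)]⟩,⟨0,[(40,0)]⟩) .k 0 (⟨0,[]⟩,⟨0,[]⟩) .k .k)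
  (.R ⟨0,false,false,true,[1,0,0,0,-1],[2,-1,0,0,-1],[0,0,0,-1],(⟨0,[(34,0)]⟩,⟨0,[(35,0)]⟩),(⟨0,
  [(34,0),(9,0)]⟩,⟨0,[(13,0)]⟩),⟨0,[(13,0)]⟩,.k,(.r (-1) ⟨3,[(26,1),(23,0),(0,2)]⟩ ⟨17,[(22,9),(2,
  7),(2,0),(0,0),(8,1),(7,3)]⟩),(.r (-1) ⟨3,[(26,1),(23,0),(0,2)]⟩ ⟨17,[(22,9),(2,7),(2,0),(0,0),(8,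
  1),(7,3)]⟩),.k,.k,.k,⟨true,0,⟨2,[(18,0),(10,0),(10,0)]⟩,⟨0,[]⟩⟩,⟨false,1,⟨1,[(32,0),(0,0),(9,0)]⟩,
  ⟨3,[(26,1),(0,3),(22,0),(0,2)]⟩⟩,⟨true,0,⟨0,[(48,0)]⟩,⟨0,[(49,0)]⟩⟩,⟨false,1,⟨1,[(43,0),(4,1),(2,
  0)]⟩,⟨0,[(27,0),(23,0)]⟩⟩,⟨false,0,⟨0,[]⟩,⟨0,[]⟩⟩,⟨false,0,⟨0,[]⟩,⟨0,[]⟩⟩,[.o ⟨false,2,⟨11,[(1,1),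
  (16,1),(7,5),(5,9),(10,10),(7,2)]⟩,⟨0,[(14,0),(34,0),(1,0)]⟩⟩,.e ⟨false,1,⟨3,[(26,1),(23,0),(0,
  2)]⟩,⟨4,[(22,0),(2,0),(20,1),(2,2)]⟩⟩ ⟨false,2,⟨1,[(43,0),(4,1),(1,0),(0,1)]⟩,⟨0,[(27,0)]⟩⟩,.a
  ⟨true,1,⟨0,[(32,0)]⟩,⟨0,[(14,0),(36,0)]⟩⟩ ⟨false,1,⟨0,[(48,0),(2,0)]⟩,⟨0,[(49,0)]⟩⟩ ⟨true,1,⟨1,
  [(43,0),(4,1),(2,0)]⟩,⟨0,[(27,0)]⟩⟩,.o ⟨false,1,⟨2,[(1,0),(16,0),(13,1),(10,0)]⟩,⟨0,[(15,0)]⟩⟩]⟩)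
  (.Q [0,0,0,1,0,0,1,1,0,0,-1] (.p false [0,0,1] [] (⟨0,[(42,0)]⟩,⟨0,[(41,0)]⟩) .k 0 (⟨0,[]⟩,⟨0,
  []⟩) .k .k) (.R ⟨2,true,false,true,[0,1],[0,1,1],[1,0,1],(⟨0,[]⟩,⟨0,[]⟩),(⟨0,[(43,0),(2,0)]⟩,⟨0,
  [(31,0)]⟩),⟨0,[]⟩,.k,.k,.k,.k,.k,.k,⟨false,1,⟨0,[(1,0),(22,0),(27,0)]⟩,⟨0,[(8,0),(41,0)]⟩⟩,⟨true,
  0,⟨2,[(2,0),(8,0),(25,0),(6,0)]⟩,⟨0,[(41,0)]⟩⟩,⟨false,1,⟨0,[(49,0),(2,0)]⟩,⟨0,[(50,0)]⟩⟩,⟨true,0,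
  ⟨0,[(38,0)]⟩,⟨0,[(1,0)]⟩⟩,⟨true,0,⟨0,[]⟩,⟨15,[(23,1),(5,0),(0,0),(8,1),(7,5),(1,1)]⟩⟩,⟨false,0,⟨0,
  [(0,0)]⟩,⟨1,[(3,0),(29,0),(5,0),(12,1)]⟩⟩,[]⟩) (.Q [0,0,0,2,0,0,1,1,0,0,-1] (.p false [0,0,1] []
  (⟨0,[(43,0)]⟩,⟨0,[(42,0)]⟩) .k 0 (⟨0,[]⟩,⟨0,[]⟩) .k .k) (.S ⟨1,1,[],[1,-1,-1],[0,1,-1,-1,0,0,0,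
  -1],(⟨0,[(32,0)]⟩,⟨0,[(44,0),(2,0)]⟩),⟨0,[(23,0)]⟩,.k,(.r (-1) ⟨1,[(1,1),(23,1),(26,0),(0,0)]⟩
  ⟨10,[(0,5),(23,7),(1,0),(13,1),(1,3),(10,0)]⟩),⟨true,0,⟨15,[(24,1),(5,0),(0,0),(8,1),(7,5),(1,
  1)]⟩,⟨0,[]⟩⟩,⟨false,1,⟨7,[(0,2),(17,2),(5,1),(6,0),(13,1),(6,1),(0,3)]⟩,⟨0,[(1,0)]⟩⟩,⟨false,0,⟨0,
  [(51,0)]⟩,⟨0,[(50,0),(2,0)]⟩⟩,⟨true,0,⟨0,[(0,0)]⟩,⟨0,[(1,0),(48,0)]⟩⟩,[.fo,.o ⟨false,1,⟨1,[(45,0),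
  (7,0)]⟩,⟨15,[(24,1),(5,0),(0,0),(8,1),(7,5),(1,1)]⟩⟩,.a ⟨true,0,⟨0,[(42,0)]⟩,⟨0,[(38,0)]⟩⟩ ⟨true,
  0,⟨0,[(2,0),(22,0)]⟩,⟨2,[(0,1),(7,0),(11,0),(0,0),(20,1)]⟩⟩ ⟨false,1,⟨1,[(38,1),(6,0),(7,0)]⟩,⟨0,
  [(42,0)]⟩⟩,.o ⟨false,0,⟨0,[(20,0)]⟩,⟨1,[(38,1),(6,0),(6,0)]⟩⟩]⟩) (.Q [0,-1,0,2,0,0,1,1,0,1,-1]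
  (.p false [0,0,1] [1] (⟨0,[(44,0)]⟩,⟨0,[(43,0)]⟩) .k 1 (⟨0,[]⟩,⟨0,[]⟩) .k .k) (.R ⟨1,true,false,
  false,[1,0,-1],[0,1],[0,0,0,0,0,0,0,-1],(⟨0,[(44,0)]⟩,⟨0,[(45,0)]⟩),(⟨0,[(48,0)]⟩,⟨0,[(47,0)]⟩),
  ⟨0,[(33,0)]⟩,.k,.k,.k,.k,(.r (-1) ⟨1,[(1,1),(37,1),(6,0),(6,0)]⟩ ⟨0,[(25,0),(26,0)]⟩),.k,⟨false,1,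
  ⟨7,[(1,5),(25,1),(11,5),(6,2),(6,6)]⟩,⟨1,[(0,0),(9,0),(10,0)]⟩⟩,⟨true,0,⟨0,[(39,0)]⟩,⟨0,[(21,
  0)]⟩⟩,⟨false,1,⟨1,[(35,0),(0,0),(17,0)]⟩,⟨0,[]⟩⟩,⟨true,0,⟨11,[(0,4),(18,6),(5,0),(2,0),(20,1)]⟩,
  ⟨0,[(1,0),(28,0),(15,0)]⟩⟩,⟨true,0,⟨0,[(52,0)]⟩,⟨0,[(51,0)]⟩⟩,⟨false,0,⟨0,[(0,0)]⟩,⟨1,[(1,1),(33,
  0),(0,0),(9,0)]⟩⟩,[]⟩) (.R ⟨0,false,false,true,[1,0,0,0,-1],[2,-1,0,0,-1],[0,0,0,-1],(⟨0,[(37,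
  0)]⟩,⟨0,[(38,0)]⟩),(⟨0,[(37,0),(9,0)]⟩,⟨0,[(16,0)]⟩),⟨0,[(16,0)]⟩,.k,(.r (-1) ⟨3,[(29,1),(23,0),
  (0,2)]⟩ ⟨17,[(25,9),(2,7),(2,0),(0,0),(8,1),(7,3)]⟩),(.r (-1) ⟨3,[(29,1),(23,0),(0,2)]⟩ ⟨17,[(25,
  9),(2,7),(2,0),(0,0),(8,1),(7,3)]⟩),.k,.k,.k,⟨true,0,⟨49,[(1,9),(23,15),(1,1),(3,6),(0,6),(8,3),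
  (12,1)]⟩,⟨0,[]⟩⟩,⟨false,1,⟨1,[(35,0),(0,0),(9,0)]⟩,⟨7,[(1,1),(7,1),(12,1),(7,5),(22,2),(0,2)]⟩⟩,
  ⟨true,0,⟨0,[(51,0)]⟩,⟨0,[(52,0)]⟩⟩,⟨false,1,⟨1,[(46,0),(4,1),(2,0)]⟩,⟨0,[(30,0),(23,0)]⟩⟩,⟨false,
  0,⟨0,[]⟩,⟨0,[]⟩⟩,⟨false,0,⟨0,[]⟩,⟨0,[]⟩⟩,[.o ⟨false,2,⟨17,[(1,5),(2,1),(6,5),(9,1),(0,5),(12,9),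
  (10,16),(7,2)]⟩,⟨0,[(17,0),(34,0),(1,0)]⟩⟩,.e ⟨false,1,⟨3,[(29,1),(23,0),(0,2)]⟩,⟨4,[(25,0),(2,0),
  (20,1),(2,2)]⟩⟩ ⟨false,2,⟨1,[(46,0),(4,1),(1,0),(0,1)]⟩,⟨0,[(30,0)]⟩⟩,.a ⟨true,1,⟨0,[(35,0)]⟩,⟨0,
  [(17,0),(36,0)]⟩⟩ ⟨false,1,⟨0,[(51,0),(2,0)]⟩,⟨0,[(52,0)]⟩⟩ ⟨true,1,⟨1,[(46,0),(4,1),(2,0)]⟩,⟨0,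
  [(30,0)]⟩⟩,.o ⟨false,1,⟨2,[(4,0),(16,0),(13,1),(10,0)]⟩,⟨0,[(18,0)]⟩⟩]⟩)))))))))))))) (.Q [0,1,0,
  -1,0,0,1,1,0,0,-1] (.p false [0,0,1] [] (⟨0,[(32,0)]⟩,⟨0,[(31,0)]⟩) .k 0 (⟨0,[]⟩,⟨0,[]⟩) .k .k)
  (.K ⟨0,[0,-1,1],0,0,(⟨0,[(22,0)]⟩,⟨0,[(32,0),(3,0)]⟩),.k,(.r (-2) ⟨3,[(13,3),(3,5),(23,4),(0,2)]⟩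
  ⟨0,[(15,0)]⟩),.k,.k,.k,[⟨2,[(9,0),(10,0),(10,0)]⟩,⟨0,[(1,0),(3,0),(36,0)]⟩,⟨0,[(29,0),(10,0)]⟩,⟨0,
  [(0,0)]⟩]⟩) (.R ⟨2,true,false,true,[0,1],[0,0,1],[1,1,1],(⟨0,[]⟩,⟨0,[]⟩),(⟨0,[(33,0)]⟩,⟨0,[(32,
  0)]⟩),⟨0,[]⟩,.k,.k,.k,.k,.k,.k,⟨false,0,⟨9,[(0,7),(13,3),(2,1),(1,2),(0,2),(8,1)]⟩,⟨0,[(1,0),(4,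
  0),(0,0)]⟩⟩,⟨true,0,⟨0,[(30,0)]⟩,⟨0,[(1,0),(3,0),(36,0)]⟩⟩,⟨true,0,⟨0,[(39,0)]⟩,⟨0,[(40,0)]⟩⟩,
  ⟨false,1,⟨1,[(7,1),(26,0),(4,1),(2,0)]⟩,⟨0,[(0,0)]⟩⟩,⟨false,0,⟨0,[]⟩,⟨1,[(23,0),(0,0),(17,0)]⟩⟩,
  ⟨true,0,⟨0,[(28,0)]⟩,⟨7,[(0,3),(14,0),(1,2),(11,2),(1,0),(10,0)]⟩⟩,[]⟩)))) (.R ⟨0,false,false,
  true,[1,0,0,0,-1],[1,-1],[0,1,0,-1],(⟨0,[(22,0)]⟩,⟨0,[(23,0)]⟩),(⟨0,[(32,0)]⟩,⟨0,[(33,0)]⟩),⟨0,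
  [(1,0)]⟩,.k,.k,(.r (-1) ⟨3,[(14,1),(23,0),(0,2)]⟩ ⟨17,[(10,9),(2,7),(2,0),(0,0),(8,1),(7,3)]⟩),
  (.r (-1) ⟨3,[(10,1),(2,1),(6,0),(0,0),(17,2)]⟩ ⟨0,[(35,0)]⟩),.k,.k,⟨true,0,⟨2,[(6,0),(10,0),(10,
  0)]⟩,⟨0,[]⟩⟩,⟨false,0,⟨0,[(21,0)]⟩,⟨0,[(7,0)]⟩⟩,⟨false,0,⟨0,[(36,0)]⟩,⟨0,[(37,0),(1,0)]⟩⟩,⟨true,
  (-1),⟨3,[(2,0),(2,1),(8,1),(1,0),(4,0)]⟩,⟨0,[(0,0)]⟩⟩,⟨false,0,⟨0,[]⟩,⟨0,[]⟩⟩,⟨false,0,⟨0,[]⟩,⟨0,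
  []⟩⟩,[.e ⟨false,0,⟨0,[(35,0)]⟩,⟨0,[(0,0),(20,0)]⟩⟩ ⟨false,0,⟨3,[(3,0),(10,1),(6,2),(12,0)]⟩,⟨0,
  [(0,0)]⟩⟩,.o ⟨false,1,⟨1,[(31,0),(4,1),(2,0)]⟩,⟨0,[(37,0)]⟩⟩,.a ⟨true,1,⟨0,[(20,0)]⟩,⟨0,[(2,0),
  (36,0)]⟩⟩ ⟨true,0,⟨0,[(36,0)]⟩,⟨0,[(37,0)]⟩⟩ ⟨false,0,⟨3,[(2,0),(11,1),(1,0),(4,2),(17,1)]⟩,⟨0,
  [(0,0)]⟩⟩,.o ⟨false,1,⟨0,[(7,0),(8,0)]⟩,⟨0,[(3,0)]⟩⟩]⟩)))))) (.R ⟨1,false,false,false,[1,-1],[1,0,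
  0,0,-1],[1,0,-1,-2],(⟨0,[(27,0)]⟩,⟨0,[(28,0)]⟩),(⟨0,[(17,0)]⟩,⟨0,[(18,0)]⟩),⟨1,[(4,0),(9,0),(12,
  0)]⟩,.k,.k,(.r (-1) ⟨1,[(9,1),(23,0),(0,0)]⟩ ⟨3,[(5,2),(1,0),(0,1),(23,0),(1,0)]⟩),(.r 0 ⟨0,[(30,
  0)]⟩ ⟨3,[(5,1),(2,1),(6,0),(0,0),(17,2)]⟩),(.r (-1) ⟨3,[(9,1),(21,3),(1,2),(0,0)]⟩ ⟨1,[(5,0),(1,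
  0),(24,0),(1,0)]⟩),.k,⟨true,0,⟨0,[(9,0)]⟩,⟨1,[(5,0),(1,0),(24,0),(1,0)]⟩⟩,⟨false,1,⟨1,[(0,1),(9,
  1),(15,0),(3,1),(2,0)]⟩,⟨2,[(1,0),(10,0),(3,2),(6,0)]⟩⟩,⟨false,1,⟨0,[(31,0),(2,0)]⟩,⟨0,[(32,0)]⟩⟩,
  ⟨false,1,⟨0,[(0,0),(31,0)]⟩,⟨0,[(16,0),(14,0)]⟩⟩,⟨true,0,⟨0,[]⟩,⟨15,[(5,1),(5,0),(0,0),(8,1),(7,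
  5),(1,1)]⟩⟩,⟨false,1,⟨0,[(0,0),(31,1)]⟩,⟨4,[(1,1),(1,0),(5,3),(2,0),(3,3),(14,1),(2,0)]⟩⟩,[.a
  ⟨true,1,⟨1,[(0,0),(14,0)]⟩,⟨0,[(3,0)]⟩⟩ ⟨false,1,⟨1,[(9,1),(23,0),(0,0)]⟩,⟨7,[(5,2),(1,0),(0,1),
  (23,8),(1,0)]⟩⟩ ⟨true,1,⟨3,[(0,3),(9,1),(15,0),(3,1),(2,0)]⟩,⟨0,[(3,0),(7,0)]⟩⟩,.a ⟨true,1,⟨0,[(0,
  0)]⟩,⟨15,[(3,15),(1,1),(5,0),(0,0),(8,1),(7,5),(1,1)]⟩⟩ ⟨true,1,⟨0,[(9,0),(24,0)]⟩,⟨3,[(1,0),(3,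
  0),(1,1),(2,2),(9,0),(5,0)]⟩⟩ ⟨false,2,⟨0,[(0,0),(32,0)]⟩,⟨6,[(3,6),(5,0),(0,1),(0,4),(14,1),(2,
  1)]⟩⟩,.a ⟨true,0,⟨2,[(1,0),(10,0),(10,0)]⟩,⟨4,[(0,2),(2,2),(5,0),(0,1),(22,1)]⟩⟩ ⟨false,1,⟨0,[(9,
  0),(24,0)]⟩,⟨7,[(5,2),(1,0),(0,1),(23,8),(1,0)]⟩⟩ ⟨true,1,⟨3,[(0,3),(9,1),(15,0),(3,1),(2,0)]⟩,⟨6,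
  [(3,6),(5,0),(0,1),(0,4),(14,1),(2,1)]⟩⟩,.o ⟨false,0,⟨0,[(11,0)]⟩,⟨0,[(33,0)]⟩⟩]⟩))

theorem ok57 : chk K t57 r17 = true := by decide +kernel

noncomputable def t59 : Tre :=
  (.Q [0,0,0,0,0,-1,0,0,0,0,0,1] (.ed false [1,-1,0,0,1] .k) (.S ⟨1,0,[0,2],[0,0,0,0,1],[1,1,0,-1],
  (⟨0,[(17,0)]⟩,⟨0,[(16,0)]⟩),⟨0,[(0,0)]⟩,.k,(.r 0 ⟨0,[(29,0)]⟩ ⟨3,[(4,1),(2,1),(6,0),(0,0),(17,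
  2)]⟩),⟨false,1,⟨0,[(30,0),(2,0)]⟩,⟨0,[(31,0)]⟩⟩,⟨true,0,⟨15,[(4,1),(5,0),(0,0),(8,1),(7,5),(1,
  1)]⟩,⟨0,[]⟩⟩,⟨true,0,⟨0,[]⟩,⟨15,[(4,1),(5,0),(0,0),(8,1),(7,5),(1,1)]⟩⟩,⟨false,0,⟨0,[(31,0)]⟩,⟨0,
  [(30,0),(2,0)]⟩⟩,[.e ⟨false,0,⟨0,[(29,0)]⟩,⟨2,[(4,0),(2,0),(23,0),(0,0),(0,1)]⟩⟩ ⟨false,0,⟨0,[(28,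
  0)]⟩,⟨0,[(33,0)]⟩⟩,.o ⟨false,(-1),⟨3,[(1,3),(7,1),(15,0),(3,1),(2,0)]⟩,⟨1,[(14,1),(10,0),(7,0)]⟩⟩,
  .a ⟨true,(-1),⟨3,[(1,3),(6,1),(0,3),(22,0),(0,2)]⟩,⟨0,[(14,0)]⟩⟩ ⟨true,0,⟨0,[(30,0)]⟩,⟨0,[(31,
  0)]⟩⟩ ⟨false,0,⟨15,[(4,1),(5,0),(0,0),(8,1),(7,5),(1,1)]⟩,⟨0,[(33,0)]⟩⟩,.o ⟨false,(-1),⟨0,[(1,
  0)]⟩,⟨1,[(14,1),(10,0),(6,0)]⟩⟩]⟩) (.Q [0,0,1,0,1,0,0,0,-1,-1,0,1] (.p true [0,0,0,0,1] [1] (⟨0,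
  [(17,0)]⟩,⟨0,[(16,0)]⟩) .k 1 (⟨0,[]⟩,⟨0,[]⟩) .k .k) (.R ⟨0,false,false,false,[0,0,0,0,1],[1,-1],
  [],(⟨0,[(18,0)]⟩,⟨0,[(17,0)]⟩),(⟨0,[(27,0)]⟩,⟨0,[(28,0)]⟩),⟨0,[(1,0)]⟩,.k,.k,(.r 0 ⟨0,[(30,0)]⟩
  ⟨3,[(5,1),(2,1),(6,0),(0,0),(17,2)]⟩),(.r 0 ⟨17,[(5,9),(2,7),(2,0),(0,0),(8,1),(7,3)]⟩ ⟨3,[(9,1),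
  (23,0),(0,2)]⟩),.k,.k,⟨false,0,⟨0,[(32,0)]⟩,⟨1,[(31,1),(1,0),(0,0)]⟩⟩,⟨true,1,⟨0,[(0,0)]⟩,⟨3,[(2,
  3),(6,1),(0,3),(22,0),(0,2)]⟩⟩,⟨false,1,⟨0,[(34,0)]⟩,⟨15,[(5,1),(5,0),(0,0),(8,1),(7,5),(1,1)]⟩⟩,
  ⟨true,2,⟨3,[(0,1),(8,1),(5,1),(10,0),(7,2)]⟩,⟨3,[(2,3),(7,5),(15,0),(3,1),(2,0)]⟩⟩,⟨false,0,⟨0,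
  []⟩,⟨0,[]⟩⟩,⟨false,0,⟨0,[]⟩,⟨0,[]⟩⟩,[.o ⟨false,1,⟨1,[(26,0),(4,1),(2,0)]⟩,⟨0,[(32,0)]⟩⟩,.a ⟨true,
  1,⟨0,[(31,0),(2,0)]⟩,⟨0,[(10,0)]⟩⟩ ⟨false,1,⟨1,[(33,0),(0,0)]⟩,⟨15,[(5,1),(5,0),(0,0),(8,1),(7,5),
  (1,1)]⟩⟩ ⟨true,2,⟨3,[(0,1),(8,1),(5,1),(10,0),(7,2)]⟩,⟨0,[(2,0),(7,0)]⟩⟩,.e ⟨false,1,⟨1,[(15,0),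
  (0,0),(17,0)]⟩,⟨0,[]⟩⟩ ⟨false,2,⟨3,[(0,1),(8,1),(5,1),(10,0),(7,2)]⟩,⟨1,[(2,1),(7,1),(22,0),(0,
  0)]⟩⟩,.o ⟨false,(-1),⟨0,[(2,0)]⟩,⟨1,[(15,1),(10,0),(6,0)]⟩⟩]⟩) (.S ⟨1,0,[],[1,0,0,0,-1],[0,-1],
  (⟨0,[(17,0)]⟩,⟨0,[(18,0)]⟩),⟨1,[(1,0),(2,0),(9,0),(2,0)]⟩,.k,(.r (-1) ⟨3,[(9,1),(23,0),(0,2)]⟩
  ⟨17,[(5,9),(2,7),(2,0),(0,0),(8,1),(7,3)]⟩),⟨false,1,⟨1,[(15,0),(0,0),(17,0)]⟩,⟨0,[]⟩⟩,⟨true,0,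
  ⟨15,[(5,1),(5,0),(0,0),(8,1),(7,5),(1,1)]⟩,⟨0,[]⟩⟩,⟨true,0,⟨0,[(32,0)]⟩,⟨0,[(31,0)]⟩⟩,⟨false,0,⟨0,
  [(32,0)]⟩,⟨0,[(31,0),(2,0)]⟩⟩,[.e ⟨false,1,⟨1,[(33,0),(0,0)]⟩,⟨15,[(5,1),(5,0),(0,0),(8,1),(7,5),
  (1,1)]⟩⟩ ⟨false,1,⟨1,[(15,0),(0,0),(16,0)]⟩,⟨0,[]⟩⟩,.o ⟨false,2,⟨1,[(15,1),(10,0),(7,0)]⟩,⟨6,[(0,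
  1),(1,4),(6,0),(0,1),(15,1),(2,1)]⟩⟩,.e ⟨false,1,⟨0,[(34,0)]⟩,⟨15,[(5,1),(5,0),(0,0),(8,1),(7,5),
  (1,1)]⟩⟩ ⟨false,1,⟨1,[(15,0),(0,0),(17,0)]⟩,⟨0,[]⟩⟩,.a ⟨true,1,⟨3,[(11,0),(0,0),(2,3),(7,1)]⟩,⟨0,
  [(0,0)]⟩⟩ ⟨true,1,⟨1,[(33,0),(0,0)]⟩,⟨6,[(9,3),(0,7),(0,5),(14,0),(2,0)]⟩⟩ ⟨false,1,⟨1,[(33,0),(0,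
  0)]⟩,⟨3,[(11,0),(0,0),(10,1)]⟩⟩]⟩)))

theorem ok59 : chk K t59 r16 = true := by decide +kernel

noncomputable def t64 : Tre :=
  (.S ⟨1,0,[0,0,1,1,0,0,0,1],[0,1,1],[0,1,1,1,0,0,0,1],(⟨0,[(19,0),(2,0)]⟩,⟨0,[(7,0)]⟩),⟨0,[(19,
  0)]⟩,.k,.k,⟨true,0,⟨0,[(30,0)]⟩,⟨0,[]⟩⟩,⟨false,1,⟨1,[(9,0),(0,0),(17,0)]⟩,⟨0,[]⟩⟩,⟨false,0,⟨0,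
  [(26,0)]⟩,⟨0,[(25,0),(2,0)]⟩⟩,⟨true,0,⟨0,[(26,0)]⟩,⟨0,[(25,0)]⟩⟩,[.a ⟨true,0,⟨0,[(0,0),(12,0),(0,
  0)]⟩,⟨1,[(0,1),(0,1),(1,3),(23,0),(0,0)]⟩⟩ ⟨false,0,⟨3,[(0,3),(3,1),(9,3),(5,0),(3,1),(2,0)]⟩,⟨3,
  [(1,3),(1,5),(23,2),(0,4)]⟩⟩ ⟨true,0,⟨0,[(0,0),(13,0)]⟩,⟨3,[(1,3),(1,5),(23,0),(0,2)]⟩⟩,.o ⟨false,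
  1,⟨0,[(14,0),(11,0),(1,0)]⟩,⟨1,[(0,1),(0,1),(1,3),(16,0),(6,0)]⟩⟩,.a ⟨true,0,⟨0,[(13,0)]⟩,⟨0,[(17,
  0)]⟩⟩ ⟨false,0,⟨0,[(0,0),(13,0)]⟩,⟨3,[(1,3),(1,5),(23,2),(0,4)]⟩⟩ ⟨true,0,⟨0,[(0,0),(13,0)]⟩,⟨3,
  [(1,3),(1,5),(23,2),(0,0)]⟩⟩,.a ⟨true,0,⟨1,[(6,0),(11,0),(0,0)]⟩,⟨0,[(0,0),(23,0)]⟩⟩ ⟨true,0,⟨3,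
  [(0,3),(3,1),(9,3),(5,0),(3,1),(2,0)]⟩,⟨3,[(1,3),(1,5),(23,0),(0,2)]⟩⟩ ⟨false,1,⟨1,[(0,1),(13,1),
  (12,0),(0,0)]⟩,⟨3,[(1,3),(1,5),(23,0),(0,2)]⟩⟩]⟩)

theorem ok64 : chk K t64 r5 = true := by decide +kernel

noncomputable def t66 : Tre :=
  (.I [1,1,-1,-1,0,0,0,1] (.K ⟨0,[0,-1,1],0,0,(⟨0,[(9,0)]⟩,⟨0,[(19,0),(3,0)]⟩),.k,(.r (-1) ⟨0,[(0,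
  0),(24,0),(3,0)]⟩ ⟨0,[(3,0),(1,0),(0,0),(22,0)]⟩),.k,.k,.k,[⟨3,[(6,0),(0,0),(10,1)]⟩,⟨0,[(1,0)]⟩,
  ⟨0,[(16,0),(10,0)]⟩,⟨1,[(0,1),(5,0),(0,0)]⟩]⟩) (.I [0,0,1,1,0,0,0,1] (.S ⟨1,0,[0,1,1,1,0,0,0,1],
  [0,1,1],[0,0,1,1,0,0,0,1],(⟨0,[(21,0),(2,0)]⟩,⟨0,[(9,0)]⟩),⟨0,[(21,0)]⟩,.k,.k,⟨false,1,⟨1,[(11,0),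
  (0,0),(17,0)]⟩,⟨0,[]⟩⟩,⟨true,0,⟨0,[(32,0)]⟩,⟨0,[]⟩⟩,⟨true,0,⟨0,[(28,0)]⟩,⟨0,[(27,0)]⟩⟩,⟨false,0,
  ⟨0,[(28,0)]⟩,⟨0,[(27,0),(2,0)]⟩⟩,[.o ⟨false,0,⟨0,[(16,0),(11,0)]⟩,⟨1,[(1,1),(0,1),(2,1),(16,0),(7,
  0)]⟩⟩,.a ⟨true,0,⟨0,[(0,0),(14,0)]⟩,⟨0,[(1,0),(0,0),(2,0)]⟩⟩ ⟨false,1,⟨1,[(0,1),(28,0),(0,0)]⟩,⟨0,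
  [(1,0),(24,1)]⟩⟩ ⟨true,0,⟨0,[(0,0)]⟩,⟨0,[(1,0),(3,0)]⟩⟩,.a ⟨true,0,⟨0,[(15,0)]⟩,⟨0,[(19,0)]⟩⟩
  ⟨true,0,⟨0,[(0,0)]⟩,⟨0,[(1,0),(24,1)]⟩⟩ ⟨false,0,⟨0,[(0,0)]⟩,⟨1,[(1,1),(3,1),(23,0),(0,0)]⟩⟩,.a
  ⟨true,0,⟨1,[(8,0),(11,0),(0,0)]⟩,⟨0,[(2,0)]⟩⟩ ⟨false,1,⟨1,[(0,1),(28,0),(0,0)]⟩,⟨0,[(1,0),(3,
  0)]⟩⟩ ⟨true,0,⟨9,[(0,7),(2,1),(2,5),(15,2),(2,1),(3,0)]⟩,⟨0,[(1,0),(3,0)]⟩⟩]⟩) (.Q [0,1,0,-1,0,0,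
  1,1,0,0,-1] (.p false [0,0,1] [] (⟨0,[(21,0)]⟩,⟨0,[(20,0)]⟩) .k 0 (⟨0,[]⟩,⟨0,[]⟩) .k .k) (.I [0,0,
  -2,0,1,2,-1] (.K ⟨0,[0,-1,1],0,0,(⟨0,[(12,0)]⟩,⟨0,[(22,0),(3,0)]⟩),.k,(.x 0 ⟨1,[(9,1),(0,0),(0,0),
  (0,2)]⟩ ⟨0,[(0,0)]⟩),.k,.k,.k,[⟨3,[(9,0),(0,0),(10,1)]⟩,⟨0,[(4,0)]⟩,⟨0,[(19,0),(10,0)]⟩,⟨0,[(1,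
  0)]⟩]⟩) (.Q [0,0,0,0,0,2,0,0,0,-1,1] (.p true [0,0,1] [1] (⟨0,[(23,0)]⟩,⟨0,[(22,0)]⟩) .k 1 (⟨0,
  []⟩,⟨0,[]⟩) .k .k) (.I [1,0,1,1,0,0,0,1] (.N [0,1,1] 0 ⟨0,[(0,0)]⟩ ⟨0,[(4,0)]⟩ .k) (.Q [0,0,-1,0,
  0,0,2,0,0,1,-2] (.p false [0,0,1] [1,0,-1] (⟨0,[(25,0)]⟩,⟨0,[(24,0)]⟩) .k 2 (⟨0,[(24,0)]⟩,⟨0,[(25,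
  0)]⟩) .k (.r (-1) ⟨0,[(6,1),(13,1),(13,0)]⟩ ⟨6,[(4,5),(0,3),(2,1),(2,0),(0,0),(8,1)]⟩)) (.R ⟨0,
  false,false,true,[1,-1,-1],[0,-1,1],[],(⟨0,[(14,0)]⟩,⟨0,[(2,0),(25,0)]⟩),(⟨0,[(15,0)]⟩,⟨1,[(2,0),
  (22,2)]⟩),⟨0,[(2,0)]⟩,.k,.k,(.r (-1) ⟨12,[(5,11),(2,6),(4,3),(8,7),(4,1),(7,3)]⟩ ⟨0,[(7,0),(3,0),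
  (0,0),(8,0),(11,0),(1,0)]⟩),.k,.k,.k,⟨true,0,⟨0,[(6,0)]⟩,⟨0,[(4,0),(2,0)]⟩⟩,⟨false,0,⟨0,[(0,0)]⟩,
  ⟨1,[(7,1),(16,1),(2,0),(6,0)]⟩⟩,⟨false,1,⟨0,[(21,0),(2,0),(8,0),(1,0)]⟩,⟨0,[(5,0)]⟩⟩,⟨true,0,⟨0,
  [(4,0),(6,0),(9,0),(13,0)]⟩,⟨2,[(5,3),(0,1),(0,5),(3,1),(0,0),(14,1)]⟩⟩,⟨false,0,⟨0,[]⟩,⟨0,[]⟩⟩,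
  ⟨false,0,⟨0,[]⟩,⟨0,[]⟩⟩,[.o ⟨false,0,⟨0,[(4,0)]⟩,⟨1,[(6,1),(0,1),(19,0),(6,0)]⟩⟩,.e ⟨false,1,⟨1,
  [(34,0),(0,0)]⟩,⟨0,[(37,0)]⟩⟩ ⟨false,1,⟨3,[(8,1),(4,1),(6,1),(0,1),(12,0),(0,0)]⟩,⟨2,[(5,0),(0,1),
  (0,5),(3,1),(0,0),(14,1)]⟩⟩,.a ⟨true,0,⟨0,[(24,0)]⟩,⟨0,[(20,0)]⟩⟩ ⟨false,1,⟨1,[(16,0),(0,0),(17,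
  0)]⟩,⟨0,[]⟩⟩ ⟨true,0,⟨0,[(4,0),(15,0)]⟩,⟨2,[(5,0),(0,1),(0,5),(3,1),(0,0),(14,1)]⟩⟩,.o ⟨false,0,
  ⟨0,[(7,0),(4,0)]⟩,⟨3,[(0,1),(26,0),(6,2)]⟩⟩]⟩) (.K ⟨0,[1,-1,-1],0,0,(⟨0,[(14,0)]⟩,⟨0,[(2,0),(25,
  0)]⟩),.k,(.r (-1) ⟨12,[(5,11),(2,6),(4,3),(8,7),(4,1),(7,3)]⟩ ⟨2,[(0,0),(10,2),(0,1),(8,2),(2,0),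
  (8,2),(1,2)]⟩),.k,(.r 0 ⟨13,[(5,19),(0,3),(2,1),(2,0),(0,0),(8,1)]⟩ ⟨0,[(7,0),(13,1),(2,0),(8,0),
  (1,0)]⟩),.k,[⟨0,[(0,0)]⟩,⟨3,[(2,0),(10,1),(11,0),(2,1)]⟩,⟨1,[(11,1),(4,0),(0,0),(3,1),(13,0)]⟩,⟨1,
  [(0,0),(4,1),(6,0),(17,0)]⟩]⟩))) (.I [0,0,1,2,0,0,0,1] (.Q [0,0,-1,0,0,0,2,0,0,1,-2] (.p false [0,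
  0,1] [1,0,-1] (⟨0,[(25,0)]⟩,⟨0,[(24,0)]⟩) .k 2 (⟨0,[(24,0)]⟩,⟨0,[(25,0)]⟩) .k (.r (-1) ⟨8,[(0,7),
  (2,3),(3,5),(7,0),(0,0),(6,3),(10,1)]⟩ ⟨6,[(4,5),(0,3),(2,1),(2,0),(0,0),(8,1)]⟩)) (.R ⟨1,false,
  false,true,[1,-1,-1],[0,-1,1],[],(⟨0,[(14,0)]⟩,⟨0,[(26,0),(2,0)]⟩),(⟨0,[(15,0)]⟩,⟨0,[(25,0),(3,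
  0)]⟩),⟨0,[(2,0)]⟩,.k,.k,(.r (-1) ⟨12,[(5,11),(2,6),(4,3),(8,7),(4,1),(7,3)]⟩ ⟨3,[(1,3),(10,0),(0,
  0),(10,1)]⟩),.k,(.r 0 ⟨13,[(5,19),(0,3),(2,1),(2,0),(0,0),(8,1)]⟩ ⟨17,[(1,19),(2,9),(3,5),(7,6),
  (0,6),(6,9),(10,4)]⟩),.k,⟨true,0,⟨0,[(6,0)]⟩,⟨0,[(4,0),(2,0)]⟩⟩,⟨false,0,⟨0,[(0,0)]⟩,⟨1,[(7,1),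
  (16,1),(2,0),(6,0)]⟩⟩,⟨false,1,⟨2,[(1,1),(2,0),(11,0),(0,0),(6,0),(10,1)]⟩,⟨0,[(5,0)]⟩⟩,⟨true,0,
  ⟨1,[(1,0),(2,2),(6,0),(8,0),(14,0)]⟩,⟨2,[(5,3),(0,1),(0,5),(3,1),(0,0),(14,1)]⟩⟩,⟨true,0,⟨0,[(1,
  0)]⟩,⟨0,[(5,0),(26,0)]⟩⟩,⟨true,0,⟨0,[(1,0),(2,0),(15,0)]⟩,⟨2,[(5,4),(0,0),(0,5),(3,0),(0,1),(14,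
  0)]⟩⟩,[.o ⟨false,0,⟨0,[(4,0)]⟩,⟨1,[(6,1),(0,1),(19,0),(6,0)]⟩⟩,.e ⟨false,1,⟨1,[(34,0),(0,0)]⟩,⟨0,
  [(37,0)]⟩⟩ ⟨false,1,⟨3,[(0,0),(0,0),(6,2),(4,2),(20,0)]⟩,⟨2,[(5,0),(0,1),(0,5),(3,1),(0,0),(14,
  1)]⟩⟩,.a ⟨true,0,⟨0,[(24,0)]⟩,⟨0,[(20,0)]⟩⟩ ⟨false,1,⟨1,[(16,0),(0,0),(17,0)]⟩,⟨0,[]⟩⟩ ⟨true,0,⟨0,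
  [(4,0),(15,0)]⟩,⟨2,[(5,0),(0,1),(0,5),(3,1),(0,0),(14,1)]⟩⟩,.o ⟨false,0,⟨0,[(7,0),(4,0)]⟩,⟨3,[(0,
  1),(26,0),(6,2)]⟩⟩]⟩) (.K ⟨0,[1,-1,-1],0,0,(⟨0,[(14,0)]⟩,⟨0,[(26,0),(2,0)]⟩),.k,(.r (-1) ⟨12,[(5,
  11),(2,6),(4,3),(8,7),(4,1),(7,3)]⟩ ⟨3,[(1,3),(10,0),(0,0),(10,1)]⟩),.k,(.r 0 ⟨13,[(5,19),(0,3),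
  (2,1),(2,0),(0,0),(8,1)]⟩ ⟨17,[(1,19),(2,9),(3,5),(7,6),(0,6),(6,9),(10,4)]⟩),.k,[⟨0,[(0,0)]⟩,⟨1,
  [(13,0),(11,0),(0,0)]⟩,⟨2,[(1,1),(6,0),(2,0),(1,1),(10,0),(5,0)]⟩,⟨1,[(0,0),(4,1),(6,0),(17,
  0)]⟩]⟩)) (.I [0,0,-2,-2,1,0,0,1] (.K ⟨0,[0,-1,1],0,0,(⟨0,[(15,0)]⟩,⟨0,[(25,0),(3,0)]⟩),.k,(.r
  (-1) ⟨0,[(0,0)]⟩ ⟨7,[(6,3),(2,3),(2,2),(0,2),(10,5),(8,7)]⟩),.k,.k,.k,[⟨3,[(12,0),(0,0),(10,1)]⟩,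
  ⟨0,[(7,0)]⟩,⟨0,[(22,0),(10,0)]⟩,⟨0,[(4,0)]⟩]⟩) (.Q [0,0,0,2,0,0,0,0,-1,0,0,1] (.p true [0,0,0,0,
  1] [] (⟨0,[(19,0)]⟩,⟨0,[(18,0)]⟩) .k 0 (⟨0,[]⟩,⟨0,[]⟩) .k .k) (.Q [0,0,0,1,0,0,0,0,-1,0,0,1] (.p
  true [0,0,0,0,1] [] (⟨0,[(20,0)]⟩,⟨0,[(19,0)]⟩) .k 0 (⟨0,[]⟩,⟨0,[]⟩) .k .k) (.Q [0,0,0,0,0,-1,0,0,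
  0,1,0,-1] (.ed true [0,1,0,0,1] .k) (.R ⟨1,false,false,false,[1,0,0,0,-1],[1,0,-1],[],(⟨0,[(21,
  0)]⟩,⟨0,[(22,0)]⟩),(⟨0,[(28,0)]⟩,⟨0,[(29,0)]⟩),⟨0,[(0,0)]⟩,.k,.k,(.r (-1) ⟨31,[(4,5),(6,9),(4,1),
  (8,3),(4,0),(6,2),(0,17)]⟩ ⟨9,[(2,0),(0,1),(8,3),(6,1),(0,2),(3,5),(2,5)]⟩),.k,(.r (-2) ⟨3,[(11,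
  1),(7,1),(0,1),(3,1),(2,1),(9,0),(0,2)]⟩ ⟨6,[(3,5),(4,0),(4,2),(0,1),(15,0),(2,0)]⟩),.k,⟨false,1,
  ⟨1,[(10,1),(13,1),(12,0),(0,0)]⟩,⟨2,[(4,0),(4,0),(2,0)]⟩⟩,⟨true,0,⟨0,[(10,0),(9,0)]⟩,⟨37,[(1,35),
  (2,11),(1,7),(0,11),(7,16),(0,8),(2,1),(8,7),(3,15),(5,5)]⟩⟩,⟨true,0,⟨0,[(40,0)]⟩,⟨0,[]⟩⟩,⟨false,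
  0,⟨2,[(8,0),(0,0),(0,1),(9,2),(4,0)]⟩,⟨0,[(1,0),(5,0),(30,0)]⟩⟩,⟨false,0,⟨0,[(36,0)]⟩,⟨0,[(35,0),
  (2,0)]⟩⟩,⟨false,0,⟨5,[(3,2),(4,0),(0,0),(0,4),(9,5),(4,0),(11,2)]⟩,⟨1,[(1,1),(4,1),(4,1),(16,1),
  (1,0),(1,3),(5,0)]⟩⟩,[.e ⟨false,1,⟨1,[(19,0),(0,0),(16,0)]⟩,⟨0,[]⟩⟩ ⟨false,0,⟨1,[(2,0),(5,1),(1,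
  1),(9,2)]⟩,⟨1,[(1,0),(5,0),(11,0),(4,0),(13,0)]⟩⟩,.o ⟨false,1,⟨5,[(8,1),(0,1),(0,3),(14,1),(4,2),
  (7,2)]⟩,⟨0,[(24,0)]⟩⟩,.o ⟨false,1,⟨14,[(1,7),(2,1),(6,1),(3,2),(3,6),(10,5)]⟩,⟨0,[(20,0)]⟩⟩,.a
  ⟨true,0,⟨24,[(1,23),(2,7),(1,4),(0,7),(7,4),(3,0),(7,12),(0,4),(3,9),(5,3)]⟩,⟨0,[(10,0),(9,0),(2,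
  0)]⟩⟩ ⟨false,1,⟨1,[(37,0),(0,0)]⟩,⟨3,[(15,0),(0,0),(10,1)]⟩⟩ ⟨true,0,⟨1,[(2,0),(5,1),(1,1),(9,
  2)]⟩,⟨3,[(1,3),(5,3),(7,0),(0,0),(10,1)]⟩⟩]⟩) (.R ⟨0,false,false,false,[1,0,0,0,-1],[1,0,-1],[0,0,
  0,-1],(⟨0,[(21,0)]⟩,⟨0,[(22,0)]⟩),(⟨0,[(28,0)]⟩,⟨0,[(29,0)]⟩),⟨0,[(0,0)]⟩,.k,.k,(.r (-1) ⟨31,[(4,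
  5),(6,9),(4,1),(8,3),(4,0),(6,2),(0,17)]⟩ ⟨9,[(2,0),(0,1),(8,3),(6,1),(0,2),(3,5),(2,5)]⟩),.k,.k,
  .k,⟨false,1,⟨3,[(11,1),(12,1),(2,1),(9,0),(0,0)]⟩,⟨4,[(3,1),(4,0),(0,0),(2,0),(24,1)]⟩⟩,⟨true,0,
  ⟨0,[(10,0),(9,0)]⟩,⟨37,[(1,35),(2,11),(1,7),(0,11),(7,16),(0,8),(2,1),(8,7),(3,15),(5,5)]⟩⟩,⟨true,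
  0,⟨0,[(35,0)]⟩,⟨1,[(2,0),(17,0)]⟩⟩,⟨false,0,⟨2,[(8,0),(0,0),(0,1),(9,2),(4,0)]⟩,⟨0,[(1,0),(5,0),
  (30,0)]⟩⟩,⟨false,0,⟨0,[]⟩,⟨0,[]⟩⟩,⟨false,0,⟨0,[]⟩,⟨0,[]⟩⟩,[.e ⟨false,1,⟨7,[(11,3),(4,1),(2,0),(0,
  0),(4,3),(4,0),(7,1)]⟩,⟨1,[(2,0),(17,0)]⟩⟩ ⟨false,0,⟨1,[(2,0),(5,1),(1,1),(9,2)]⟩,⟨1,[(1,0),(5,0),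
  (11,0),(4,0),(13,0)]⟩⟩,.o ⟨false,1,⟨5,[(8,1),(0,1),(0,3),(14,1),(4,2),(7,2)]⟩,⟨0,[(24,0)]⟩⟩,.o
  ⟨false,1,⟨14,[(1,7),(2,1),(6,1),(3,2),(3,6),(10,5)]⟩,⟨0,[(20,0)]⟩⟩,.a ⟨true,0,⟨24,[(1,23),(2,7),
  (1,4),(0,7),(7,4),(3,0),(7,12),(0,4),(3,9),(5,3)]⟩,⟨0,[(10,0),(9,0),(2,0)]⟩⟩ ⟨false,1,⟨31,[(4,5),
  (6,9),(4,1),(8,3),(4,0),(6,2),(0,17)]⟩,⟨5,[(2,0),(0,1),(15,0),(0,1),(3,1),(2,1),(10,0)]⟩⟩ ⟨true,0,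
  ⟨1,[(2,0),(5,1),(1,1),(9,2)]⟩,⟨3,[(1,3),(5,3),(7,0),(0,0),(10,1)]⟩⟩]⟩)) (.R ⟨1,true,false,true,[1,
  -1],[1,0,0,0,-1],[1,1,-1,-2],(⟨0,[(30,0)]⟩,⟨0,[(31,0)]⟩),(⟨0,[(20,0)]⟩,⟨0,[(21,0)]⟩),⟨1,[(4,0),
  (12,0),(12,0)]⟩,.k,.k,(.r (-1) ⟨8,[(0,1),(2,3),(6,3),(7,1),(17,2)]⟩ ⟨2,[(1,0),(0,1),(15,0),(0,1),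
  (3,1),(2,1),(10,0)]⟩),(.r 0 ⟨0,[(33,0)]⟩ ⟨5,[(1,0),(0,1),(15,3),(0,4),(3,1),(2,1),(10,3)]⟩),(.r
  (-1) ⟨5,[(10,3),(1,1),(2,1),(8,3),(4,0),(6,0)]⟩ ⟨0,[(2,0),(6,0),(13,0),(13,0)]⟩),.k,⟨true,0,⟨0,
  [(12,0)]⟩,⟨0,[(2,0),(6,0),(13,0),(13,0)]⟩⟩,⟨false,1,⟨3,[(1,2),(5,1),(2,1),(7,0),(17,0)]⟩,⟨3,[(14,
  0),(0,0),(3,3),(6,1)]⟩⟩,⟨true,0,⟨0,[(34,0)]⟩,⟨0,[(35,0)]⟩⟩,⟨false,1,⟨1,[(1,0),(16,0),(18,0)]⟩,⟨0,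
  [(0,0)]⟩⟩,⟨false,0,⟨0,[]⟩,⟨1,[(18,0),(0,0),(17,0)]⟩⟩,⟨true,0,⟨0,[(1,0)]⟩,⟨0,[(0,0),(33,0)]⟩⟩,
  []⟩)) (.Q [0,0,1,0,0,0,0,0,-1,0,0,1] (.p true [0,0,0,0,1] [] (⟨0,[(20,0)]⟩,⟨0,[(19,0)]⟩) .k 0 (⟨0,
  []⟩,⟨0,[]⟩) .k .k) (.K ⟨0,[0,0,0,0,1],0,(-1),(⟨0,[(21,0)]⟩,⟨0,[(20,0)]⟩),.k,(.r 0 ⟨0,[(33,0)]⟩ ⟨2,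
  [(2,0),(15,1),(0,1),(3,0),(2,0),(8,0),(1,1)]⟩),(.r 0 ⟨4,[(2,0),(8,1),(6,0),(0,0),(3,2),(2,2),(8,
  0)]⟩ ⟨9,[(1,0),(1,1),(6,1),(7,0),(17,1),(0,4)]⟩),.k,.k,[⟨0,[(9,0),(9,0)]⟩,⟨0,[(0,0)]⟩,⟨0,[(18,
  0)]⟩,⟨0,[(1,0),(11,1),(15,0)]⟩]⟩) (.Q [0,0,0,0,-1,0,0,0,1,1,0,-1] (.p false [0,0,0,0,1] [1] (⟨0,
  [(21,0)]⟩,⟨0,[(20,0)]⟩) .k 1 (⟨0,[]⟩,⟨0,[]⟩) .k .k) (.Q [0,-2,0,-1,2,0,-1,-1,-1,-1,1,1] (.p true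
  [0,0,1] [1,0,0,0,-1] (⟨0,[(29,0)]⟩,⟨0,[(28,0)]⟩) .k 2 (⟨0,[(21,0)]⟩,⟨0,[(22,0)]⟩) .k (.r 0 ⟨0,
  [(10,0),(13,0)]⟩ ⟨17,[(4,1),(4,1),(2,1),(3,5),(8,11),(4,2),(7,14)]⟩)) (.Q [0,-1,0,2,1,0,0,0,-1,0,
  0,1] (.p true [0,0,0,0,1] [] (⟨0,[(23,0)]⟩,⟨0,[(22,0)]⟩) .k 0 (⟨0,[]⟩,⟨0,[]⟩) .k .k) (.Q [0,0,0,0,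
  0,-1,0,0,0,1,0,-1] (.ed true [0,1,0,0,1] .k) (.Q [0,-2,0,-1,2,0,1,1,-1,0,-1,1] (.p false [0,0,1]
  [0,0,0,0,1] (⟨0,[(32,0)]⟩,⟨0,[(31,0)]⟩) .k 2 (⟨0,[(25,0)]⟩,⟨0,[(24,0)]⟩) .k (.r (-1) ⟨0,[(13,0),
  (13,0),(13,0)]⟩ ⟨9,[(7,1),(7,5),(2,0),(0,0),(8,1),(9,1)]⟩)) (.Q [0,0,0,0,1,0,1,1,-1,0,-1,1] (.p
  false [0,0,1] [0,0,0,0,1] (⟨0,[(33,0)]⟩,⟨0,[(32,0)]⟩) .k 2 (⟨0,[(26,0)]⟩,⟨0,[(25,0)]⟩) .k (.r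
  (-1) ⟨0,[(14,0),(13,0),(13,0)]⟩ ⟨9,[(8,1),(7,5),(2,0),(0,0),(8,1),(9,1)]⟩)) (.R ⟨1,false,false,
  true,[1,0,0,0,-1],[1,0,-1],[1,0,0,-1],(⟨0,[(26,0)]⟩,⟨0,[(27,0)]⟩),(⟨0,[(33,0)]⟩,⟨0,[(34,0)]⟩),⟨0,
  [(2,0)]⟩,.k,.k,(.r (-1) ⟨17,[(4,1),(2,1),(1,1),(6,3),(11,1),(13,2),(0,6)]⟩ ⟨5,[(0,0),(2,0),(4,1),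
  (16,1),(3,0),(2,1),(12,5)]⟩),.k,(.r (-2) ⟨12,[(1,6),(1,2),(12,5),(8,9),(6,6),(5,1),(3,2)]⟩ ⟨6,[(8,
  5),(4,0),(4,2),(0,1),(15,0),(2,0)]⟩),.k,⟨true,1,⟨2,[(1,0),(3,0),(9,1),(0,0),(3,0),(8,0),(13,0)]⟩,
  ⟨6,[(8,5),(4,0),(4,2),(0,1),(15,0),(2,0)]⟩⟩,⟨false,0,⟨0,[(6,0),(8,0)]⟩,⟨6,[(0,5),(3,0),(3,0),(0,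
  0),(3,0),(3,1),(3,0)]⟩⟩,⟨true,0,⟨0,[(40,0)]⟩,⟨0,[(41,0)]⟩⟩,⟨false,(-1),⟨9,[(5,9),(2,4),(4,3),(1,
  8),(2,2),(11,0),(4,4),(2,2)]⟩,⟨2,[(1,1),(1,0),(25,0),(13,0)]⟩⟩,⟨false,0,⟨0,[]⟩,⟨6,[(1,1),(1,0),
  (21,2),(4,1),(12,1)]⟩⟩,⟨false,(-1),⟨4,[(5,2),(0,1),(1,2),(4,1),(1,4),(3,0),(15,1),(2,1)]⟩,⟨0,[(1,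
  0)]⟩⟩,[.o ⟨false,0,⟨9,[(8,4),(4,3),(1,8),(2,2),(11,0),(4,4),(2,2)]⟩,⟨0,[(29,0),(13,0)]⟩⟩,.e
  ⟨false,1,⟨17,[(4,1),(2,1),(1,1),(6,3),(11,1),(13,2),(0,6)]⟩,⟨5,[(3,0),(4,0),(16,0),(3,0),(2,0),(5,
  2),(2,1)]⟩⟩ ⟨false,0,⟨2,[(6,2),(6,0),(0,0),(0,1),(14,0)]⟩,⟨0,[(0,0)]⟩⟩,.a ⟨true,1,⟨0,[(24,0)]⟩,⟨0,
  [(5,0)]⟩⟩ ⟨false,1,⟨2,[(1,0),(5,0),(22,0),(12,0)]⟩,⟨0,[(41,0)]⟩⟩ ⟨true,(-1),⟨9,[(5,9),(2,4),(4,3),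
  (1,8),(2,2),(11,0),(4,4),(2,2)]⟩,⟨0,[(0,0)]⟩⟩,.o ⟨false,1,⟨9,[(0,6),(3,1),(3,4),(6,4),(2,3),(1,1),
  (3,0),(10,2)]⟩,⟨0,[(6,0)]⟩⟩]⟩) (.R ⟨1,false,false,true,[1,0,0,0,-1],[1,0,-1],[1,0,0,-1],(⟨0,[(26,
  0)]⟩,⟨0,[(27,0)]⟩),(⟨0,[(33,0)]⟩,⟨0,[(34,0)]⟩),⟨0,[(2,0)]⟩,.k,.k,(.r (-1) ⟨17,[(4,1),(2,1),(1,1),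
  (6,3),(11,1),(13,2),(0,6)]⟩ ⟨31,[(3,3),(4,3),(8,15),(2,0),(0,0),(3,3),(3,19),(2,21)]⟩),.k,(.r
  (-2) ⟨12,[(1,6),(1,2),(12,5),(8,9),(6,6),(5,1),(3,2)]⟩ ⟨6,[(8,5),(4,0),(4,2),(0,1),(15,0),(2,
  0)]⟩),.k,⟨true,1,⟨2,[(1,0),(3,0),(9,1),(0,0),(3,0),(8,0),(13,0)]⟩,⟨6,[(8,5),(4,0),(4,2),(0,1),(15,
  0),(2,0)]⟩⟩,⟨false,0,⟨0,[(6,0),(8,0)]⟩,⟨37,[(1,0),(1,14),(4,5),(0,11),(2,16),(8,9),(2,21),(10,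
  4)]⟩⟩,⟨true,0,⟨0,[(40,0)]⟩,⟨0,[(41,0)]⟩⟩,⟨false,(-1),⟨4,[(0,3),(4,0),(14,0),(9,0),(7,1)]⟩,⟨2,[(1,
  1),(1,0),(25,0),(13,0)]⟩⟩,⟨false,0,⟨0,[]⟩,⟨6,[(1,1),(1,0),(21,2),(4,1),(12,1)]⟩⟩,⟨false,(-1),⟨3,
  [(0,2),(7,0),(6,0),(9,0),(12,1),(2,1)]⟩,⟨0,[(1,0)]⟩⟩,[.o ⟨false,0,⟨9,[(8,4),(4,3),(1,8),(2,2),(11,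
  0),(4,4),(2,2)]⟩,⟨0,[(29,0),(13,0)]⟩⟩,.a ⟨true,0,⟨2,[(0,0),(3,0),(14,0),(10,0)]⟩,⟨1,[(1,0),(3,0),
  (13,0),(9,0)]⟩⟩ ⟨false,1,⟨17,[(4,1),(2,1),(1,1),(6,3),(11,1),(13,2),(0,6)]⟩,⟨5,[(3,0),(4,0),(16,
  0),(3,0),(2,0),(5,2),(2,1)]⟩⟩ ⟨true,(-1),⟨0,[(0,0)]⟩,⟨1,[(1,0),(17,0),(0,0),(3,0),(4,0)]⟩⟩,.e
  ⟨false,1,⟨2,[(1,0),(5,0),(22,0),(12,0)]⟩,⟨0,[(41,0)]⟩⟩ ⟨false,(-1),⟨0,[(0,0)]⟩,⟨6,[(1,3),(1,1),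
  (20,3),(0,2),(3,2)]⟩⟩,.o ⟨false,1,⟨0,[(3,0),(14,0),(1,0)]⟩,⟨0,[(6,0)]⟩⟩]⟩)) (.R ⟨1,true,false,
  true,[0,0,1],[0,0,0,0,1],[1,1,0,-1,0,0,0,1],(⟨0,[(33,0)]⟩,⟨0,[(32,0)]⟩),(⟨0,[(26,0)]⟩,⟨0,[(25,
  0)]⟩),⟨0,[(22,0)]⟩,.k,.k,.k,.k,(.r (-2) ⟨11,[(2,1),(12,7),(7,6),(0,8),(3,3),(2,3),(10,6)]⟩ ⟨7,[(0,
  0),(1,0),(4,6),(4,0),(4,3),(10,0),(8,0)]⟩),.k,⟨true,1,⟨0,[(11,0),(2,0),(27,0)]⟩,⟨7,[(0,0),(1,0),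
  (4,6),(4,0),(4,3),(10,0),(8,0)]⟩⟩,⟨false,0,⟨0,[(5,0),(8,0)]⟩,⟨17,[(2,7),(4,1),(0,5),(2,7),(7,0),
  (0,4),(2,9),(10,1)]⟩⟩,⟨true,0,⟨0,[(39,0)]⟩,⟨0,[(40,0)]⟩⟩,⟨false,(-1),⟨4,[(0,2),(2,0),(0,0),(1,0),
  (17,0),(4,0)]⟩,⟨1,[(2,1),(7,1),(4,1),(16,1),(1,0),(1,3),(5,0)]⟩⟩,⟨false,0,⟨0,[]⟩,⟨1,[(23,0),(0,0),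
  (17,0)]⟩⟩,⟨true,(-2),⟨0,[(0,0)]⟩,⟨0,[(11,0),(11,0),(18,0)]⟩⟩,[]⟩)) (.R ⟨0,false,false,false,[1,0,
  0,0,-1],[1,-1,-1],[1,0,1],(⟨0,[(24,0)]⟩,⟨0,[(25,0)]⟩),(⟨0,[(20,0)]⟩,⟨0,[(32,0),(2,0)]⟩),⟨0,[(0,
  0)]⟩,.k,.k,(.r (-1) ⟨17,[(2,1),(2,1),(1,1),(6,3),(11,1),(13,2),(0,6)]⟩ ⟨31,[(1,3),(4,3),(8,15),(2,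
  0),(0,0),(3,3),(3,19),(2,21)]⟩),(.r (-1) ⟨3,[(1,1),(1,0),(9,1),(4,0),(4,0),(3,3),(2,1),(10,2)]⟩
  ⟨2,[(7,1),(7,0),(20,0)]⟩),.k,.k,⟨true,0,⟨0,[(1,0),(1,0),(6,0),(2,0),(4,0)]⟩,⟨0,[(7,0),(31,0)]⟩⟩,
  ⟨false,0,⟨0,[(13,0),(9,0)]⟩,⟨0,[(1,0),(8,0),(0,0)]⟩⟩,⟨false,0,⟨3,[(18,0),(0,0),(10,1)]⟩,⟨1,[(40,
  0),(0,0)]⟩⟩,⟨true,(-1),⟨3,[(3,3),(2,1),(0,0),(5,2),(2,2),(11,0),(4,1)]⟩,⟨0,[(1,0),(8,0)]⟩⟩,⟨false,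
  0,⟨0,[]⟩,⟨0,[]⟩⟩,⟨false,0,⟨0,[]⟩,⟨0,[]⟩⟩,[.e ⟨false,0,⟨0,[]⟩,⟨1,[(22,0),(0,0),(16,0)]⟩⟩ ⟨false,0,
  ⟨6,[(2,0),(0,0),(0,5),(0,0),(0,0),(0,2),(5,3),(14,1)]⟩,⟨0,[(1,0),(8,0)]⟩⟩,.o ⟨false,1,⟨3,[(2,1),
  (1,0),(0,0),(0,0),(0,0),(5,1),(19,0)]⟩,⟨0,[(27,0),(11,0)]⟩⟩,.a ⟨true,1,⟨0,[(22,0)]⟩,⟨0,[(3,0)]⟩⟩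
  ⟨true,0,⟨3,[(18,0),(0,0),(10,1)]⟩,⟨3,[(17,1),(15,0),(3,1),(2,0)]⟩⟩ ⟨false,0,⟨3,[(2,1),(0,3),(0,0),
  (0,0),(0,0),(0,0),(5,1),(19,0)]⟩,⟨0,[(1,0),(8,0)]⟩⟩,.o ⟨false,1,⟨0,[(1,0),(14,0),(1,0)]⟩,⟨0,[(4,
  0)]⟩⟩]⟩)) (.I [0,0,-3,0,3,3,0,0,-2] (.Q [0,0,1,0,1,0,0,0,-1,-1,0,1] (.p true [0,0,0,0,1] [1] (⟨0,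
  [(25,0)]⟩,⟨0,[(24,0)]⟩) .k 1 (⟨0,[]⟩,⟨0,[]⟩) .k .k) (.Q [0,0,0,0,0,-1,0,0,0,1,0,-1] (.ed true [0,
  1,0,0,1] .k) (.S ⟨1,0,[0,-1],[1,0,0,0,-1],[],(⟨0,[(26,0)]⟩,⟨0,[(27,0)]⟩),⟨0,[(0,0)]⟩,.k,(.r (-1)
  ⟨17,[(4,1),(2,1),(1,1),(6,3),(11,1),(13,2),(0,6)]⟩ ⟨4,[(8,0),(8,1),(6,0),(0,0),(3,2),(2,2),(8,
  0)]⟩),⟨true,0,⟨0,[(45,0)]⟩,⟨0,[]⟩⟩,⟨false,1,⟨1,[(24,0),(0,0),(17,0)]⟩,⟨0,[]⟩⟩,⟨false,0,⟨0,[(41,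
  0)]⟩,⟨1,[(7,0),(16,0),(18,0)]⟩⟩,⟨true,0,⟨0,[(41,0)]⟩,⟨0,[(40,0)]⟩⟩,[.o ⟨false,2,⟨1,[(24,1),(10,0),
  (7,0)]⟩,⟨2,[(3,0),(1,1),(13,1),(15,1)]⟩⟩,.a ⟨true,2,⟨0,[(24,0),(18,0)]⟩,⟨2,[(3,1),(1,0),(13,3),
  (15,0)]⟩⟩ ⟨false,1,⟨1,[(42,0),(0,0)]⟩,⟨0,[(45,0)]⟩⟩ ⟨true,1,⟨0,[(43,0)]⟩,⟨6,[(18,3),(0,7),(0,5),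
  (14,0),(2,0)]⟩⟩,.e ⟨false,1,⟨1,[(24,0),(0,0),(17,0)]⟩,⟨0,[]⟩⟩ ⟨false,1,⟨0,[(43,0)]⟩,⟨0,[(45,0)]⟩⟩,
  .o ⟨false,1,⟨0,[(1,0)]⟩,⟨0,[(6,0)]⟩⟩]⟩) (.Q [0,0,0,0,-1,0,1,0,1,1,-1,-1] (.p false [0,0,1] [1,0,0,
  0,-1] (⟨0,[(34,0)]⟩,⟨0,[(33,0)]⟩) .k 2 (⟨0,[(26,0)]⟩,⟨0,[(27,0)]⟩) .k (.r 0 ⟨0,[(15,0),(13,0)]⟩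
  ⟨10,[(4,2),(8,0),(0,0),(2,2),(3,2),(3,2),(4,2),(12,4)]⟩)) (.R ⟨0,false,false,true,[1,0,0,0,-1],[0,
  0,1],[0,0,0,-1],(⟨0,[(27,0)]⟩,⟨0,[(28,0)]⟩),(⟨0,[(35,0)]⟩,⟨0,[(34,0)]⟩),⟨0,[(1,0)]⟩,.k,.k,(.r
  (-1) ⟨17,[(5,1),(2,1),(1,1),(6,3),(11,1),(13,2),(0,6)]⟩ ⟨4,[(9,0),(8,1),(6,0),(0,0),(3,2),(2,2),
  (8,0)]⟩),.k,.k,.k,⟨false,1,⟨1,[(5,0),(8,0),(11,0),(2,0)]⟩,⟨0,[(16,0),(13,0),(11,0)]⟩⟩,⟨true,(-1),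
  ⟨0,[(0,0)]⟩,⟨0,[(2,0),(13,0)]⟩⟩,⟨true,0,⟨0,[(41,0)]⟩,⟨0,[(42,0)]⟩⟩,⟨false,(-1),⟨0,[(6,0),(23,0)]⟩,
  ⟨0,[(5,0),(36,0)]⟩⟩,⟨false,0,⟨0,[]⟩,⟨0,[]⟩⟩,⟨false,0,⟨0,[]⟩,⟨0,[]⟩⟩,[.o ⟨false,0,⟨0,[(30,0)]⟩,⟨12,
  [(5,6),(1,6),(1,3),(4,0),(1,4),(14,0),(4,2)]⟩⟩,.e ⟨false,1,⟨17,[(5,1),(2,1),(1,1),(6,3),(11,1),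
  (13,2),(0,6)]⟩,⟨3,[(18,0),(11,0),(2,0),(5,0),(2,2)]⟩⟩ ⟨false,0,⟨1,[(6,1),(23,1),(12,0),(0,0)]⟩,⟨1,
  [(2,0),(2,0),(8,0),(1,0),(3,1),(15,0)]⟩⟩,.a ⟨true,1,⟨0,[(25,0)]⟩,⟨0,[(6,0)]⟩⟩ ⟨false,1,⟨1,[(8,0),
  (16,0),(18,0)]⟩,⟨0,[(42,0)]⟩⟩ ⟨true,(-1),⟨0,[(6,0),(23,0)]⟩,⟨1,[(2,0),(2,0),(8,0),(1,0),(3,1),(15,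
  0)]⟩⟩,.o ⟨false,1,⟨0,[(2,0)]⟩,⟨0,[(7,0)]⟩⟩]⟩) (.R ⟨0,false,false,true,[1,0,0,0,-1],[0,-1,1],[1,1,
  1],(⟨0,[(27,0)]⟩,⟨0,[(28,0)]⟩),(⟨0,[(24,0)]⟩,⟨0,[(34,0),(3,0)]⟩),⟨0,[(1,0)]⟩,.k,.k,(.r (-1) ⟨17,
  [(5,1),(2,1),(1,1),(6,3),(11,1),(13,2),(0,6)]⟩ ⟨4,[(9,0),(8,1),(6,0),(0,0),(3,2),(2,2),(8,0)]⟩),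
  (.r 0 ⟨0,[(15,0)]⟩ ⟨7,[(17,3),(7,2),(0,2),(3,3),(2,3),(5,1),(3,0)]⟩),.k,.k,⟨false,0,⟨9,[(9,1),(5,
  3),(2,1),(2,0),(0,0),(2,1),(0,1),(4,1)]⟩,⟨0,[(17,0),(24,0)]⟩⟩,⟨true,(-1),⟨1,[(6,1),(14,0),(0,0)]⟩,
  ⟨0,[(0,0)]⟩⟩,⟨true,(-1),⟨3,[(0,0),(3,0),(4,0),(3,0),(5,0),(0,2),(0,1),(17,0)]⟩,⟨1,[(43,0),(0,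
  0)]⟩⟩,⟨false,(-1),⟨0,[(6,0),(6,0)]⟩,⟨2,[(0,1),(4,0),(3,1),(33,1),(0,1)]⟩⟩,⟨false,0,⟨0,[]⟩,⟨0,[]⟩⟩,
  ⟨false,0,⟨0,[]⟩,⟨0,[]⟩⟩,[.o ⟨false,0,⟨0,[(13,0)]⟩,⟨5,[(5,1),(1,1),(1,3),(6,3),(19,1),(6,2),(0,
  0)]⟩⟩,.e ⟨false,0,⟨0,[]⟩,⟨1,[(25,0),(0,0),(16,0)]⟩⟩ ⟨false,0,⟨3,[(6,2),(10,1),(4,0),(3,0),(3,1),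
  (13,0)]⟩,⟨10,[(0,9),(4,0),(3,5),(4,1),(3,1),(24,4)]⟩⟩,.a ⟨true,1,⟨0,[(25,0)]⟩,⟨0,[(6,0)]⟩⟩ ⟨false,
  0,⟨3,[(21,0),(0,0),(10,1)]⟩,⟨1,[(43,0),(0,0)]⟩⟩ ⟨true,(-1),⟨0,[(6,0),(6,0)]⟩,⟨10,[(0,9),(4,0),(3,
  5),(4,1),(3,1),(24,4)]⟩⟩,.o ⟨false,1,⟨0,[(2,0)]⟩,⟨0,[(7,0)]⟩⟩]⟩))) (.S ⟨1,0,[],[1,0,0,0,-1],[0,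
  -1],(⟨0,[(25,0)]⟩,⟨0,[(26,0)]⟩),⟨16,[(0,3),(0,1),(7,5),(0,4),(3,4),(7,0),(2,12),(8,2)]⟩,.k,(.r
  (-1) ⟨17,[(3,1),(2,1),(1,1),(6,3),(11,1),(13,2),(0,6)]⟩ ⟨4,[(7,0),(8,1),(6,0),(0,0),(3,2),(2,2),
  (8,0)]⟩),⟨false,1,⟨1,[(23,0),(0,0),(17,0)]⟩,⟨0,[]⟩⟩,⟨true,0,⟨0,[(44,0)]⟩,⟨0,[]⟩⟩,⟨true,0,⟨0,[(40,
  0)]⟩,⟨0,[(39,0)]⟩⟩,⟨false,0,⟨0,[(40,0)]⟩,⟨1,[(6,0),(16,0),(18,0)]⟩⟩,[.e ⟨false,1,⟨1,[(41,0),(0,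
  0)]⟩,⟨0,[(44,0)]⟩⟩ ⟨false,1,⟨1,[(23,0),(0,0),(16,0)]⟩,⟨0,[]⟩⟩,.o ⟨false,2,⟨1,[(23,1),(10,0),(7,
  0)]⟩,⟨2,[(2,0),(1,1),(13,1),(15,1)]⟩⟩,.e ⟨false,1,⟨0,[(42,0)]⟩,⟨0,[(44,0)]⟩⟩ ⟨false,1,⟨1,[(23,0),
  (0,0),(17,0)]⟩,⟨0,[]⟩⟩,.a ⟨true,1,⟨3,[(19,0),(0,0),(2,3),(7,1)]⟩,⟨0,[(0,0)]⟩⟩ ⟨true,1,⟨1,[(41,0),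
  (0,0)]⟩,⟨6,[(17,3),(0,7),(0,5),(14,0),(2,0)]⟩⟩ ⟨false,1,⟨1,[(41,0),(0,0)]⟩,⟨3,[(19,0),(0,0),(10,
  1)]⟩⟩]⟩)) (.Q [0,0,1,0,-1,0,0,0,1,0,0,-1] (.p false [0,0,0,0,1] [] (⟨0,[(25,0)]⟩,⟨0,[(24,0)]⟩) .k
  0 (⟨0,[]⟩,⟨0,[]⟩) .k .k) (.S ⟨1,0,[0,2],[0,0,0,0,1],[1,1,0,-1],(⟨0,[(26,0)]⟩,⟨0,[(25,0)]⟩),⟨10,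
  [(1,0),(1,1),(5,1),(0,1),(1,0),(2,2),(2,3),(7,8),(7,1),(5,4)]⟩,.k,(.r 0 ⟨0,[(38,0)]⟩ ⟨2,[(7,0),
  (15,1),(0,1),(3,0),(2,0),(8,0),(1,1)]⟩),⟨false,1,⟨1,[(6,0),(16,0),(18,0)]⟩,⟨0,[(40,0)]⟩⟩,⟨true,0,
  ⟨0,[(44,0)]⟩,⟨0,[]⟩⟩,⟨true,0,⟨0,[]⟩,⟨0,[(44,0)]⟩⟩,⟨false,0,⟨0,[(40,0)]⟩,⟨1,[(6,0),(16,0),(18,
  0)]⟩⟩,[.e ⟨false,0,⟨0,[(38,0)]⟩,⟨1,[(23,0),(0,0),(15,1),(1,0)]⟩⟩ ⟨false,0,⟨0,[(37,0)]⟩,⟨0,[(42,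
  0)]⟩⟩,.o ⟨false,(-1),⟨2,[(0,0),(1,0),(2,0),(12,1),(15,0)]⟩,⟨1,[(23,1),(10,0),(7,0)]⟩⟩,.a ⟨true,
  (-1),⟨0,[(4,0)]⟩,⟨0,[(23,0)]⟩⟩ ⟨true,0,⟨0,[(39,0)]⟩,⟨0,[(40,0)]⟩⟩ ⟨false,0,⟨0,[(44,0)]⟩,⟨0,[(42,
  0)]⟩⟩,.o ⟨false,(-1),⟨0,[(0,0)]⟩,⟨1,[(23,1),(10,0),(6,0)]⟩⟩]⟩) (.Q [0,0,0,0,0,1,0,0,0,-1,0,1]
  (.ed false [0,1,0,0,1] .k) (.Q [0,0,0,0,-1,0,1,0,1,1,-1,-1] (.p false [0,0,1] [1,0,0,0,-1] (⟨0,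
  [(34,0)]⟩,⟨0,[(33,0)]⟩) .k 2 (⟨0,[(26,0)]⟩,⟨0,[(27,0)]⟩) .k (.r 0 ⟨0,[(15,0),(13,0)]⟩ ⟨10,[(4,2),
  (8,0),(0,0),(2,2),(3,2),(3,2),(4,2),(12,4)]⟩)) (.R ⟨0,false,false,true,[1,0,0,0,-1],[0,0,1],[0,0,
  0,-1],(⟨0,[(27,0)]⟩,⟨0,[(28,0)]⟩),(⟨0,[(35,0)]⟩,⟨0,[(34,0)]⟩),⟨0,[(1,0)]⟩,.k,.k,(.r (-1) ⟨17,[(5,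
  1),(2,1),(1,1),(6,3),(11,1),(13,2),(0,6)]⟩ ⟨4,[(9,0),(8,1),(6,0),(0,0),(3,2),(2,2),(8,0)]⟩),.k,.k,
  .k,⟨false,1,⟨1,[(5,0),(8,0),(11,0),(2,0)]⟩,⟨0,[(16,0),(13,0),(11,0)]⟩⟩,⟨true,(-1),⟨0,[(0,0)]⟩,⟨0,
  [(2,0),(13,0),(4,0)]⟩⟩,⟨true,0,⟨0,[(41,0)]⟩,⟨0,[(42,0)]⟩⟩,⟨false,(-1),⟨0,[(6,0),(23,0)]⟩,⟨0,[(5,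
  0),(36,0)]⟩⟩,⟨false,0,⟨0,[]⟩,⟨0,[]⟩⟩,⟨false,0,⟨0,[]⟩,⟨0,[]⟩⟩,[.o ⟨false,0,⟨0,[(30,0)]⟩,⟨12,[(5,6),
  (1,6),(1,3),(4,0),(1,4),(14,0),(4,2)]⟩⟩,.e ⟨false,1,⟨17,[(5,1),(2,1),(1,1),(6,3),(11,1),(13,2),(0,
  6)]⟩,⟨3,[(18,0),(11,0),(2,0),(5,0),(2,2)]⟩⟩ ⟨false,0,⟨1,[(6,1),(23,1),(12,0),(0,0)]⟩,⟨15,[(2,11),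
  (2,3),(3,9),(0,0),(5,10),(2,6),(11,0),(4,5)]⟩⟩,.a ⟨true,1,⟨0,[(25,0)]⟩,⟨0,[(6,0)]⟩⟩ ⟨false,1,⟨1,
  [(8,0),(16,0),(18,0)]⟩,⟨0,[(42,0)]⟩⟩ ⟨true,(-1),⟨0,[(6,0),(23,0)]⟩,⟨15,[(2,11),(2,3),(3,9),(0,0),
  (5,10),(2,6),(11,0),(4,5)]⟩⟩,.o ⟨false,1,⟨0,[(2,0),(18,0)]⟩,⟨0,[(7,0)]⟩⟩]⟩) (.R ⟨0,false,false,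
  true,[1,0,0,0,-1],[0,-1,1],[1,1,1],(⟨0,[(27,0)]⟩,⟨0,[(28,0)]⟩),(⟨0,[(24,0)]⟩,⟨0,[(34,0),(3,0)]⟩),
  ⟨0,[(1,0)]⟩,.k,.k,(.r (-1) ⟨17,[(5,1),(2,1),(1,1),(6,3),(11,1),(13,2),(0,6)]⟩ ⟨4,[(9,0),(8,1),(6,
  0),(0,0),(3,2),(2,2),(8,0)]⟩),(.r 0 ⟨0,[(15,0)]⟩ ⟨7,[(17,3),(7,2),(0,2),(3,3),(2,3),(5,1),(3,
  0)]⟩),.k,.k,⟨false,0,⟨9,[(9,1),(5,3),(2,1),(2,0),(0,0),(2,1),(0,1),(4,1)]⟩,⟨0,[(17,0),(24,0)]⟩⟩,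
  ⟨true,(-1),⟨1,[(6,1),(14,0),(0,0)]⟩,⟨0,[(0,0)]⟩⟩,⟨true,(-1),⟨3,[(0,0),(3,0),(4,0),(3,0),(5,0),(0,
  2),(0,1),(17,0)]⟩,⟨1,[(43,0),(0,0)]⟩⟩,⟨false,(-1),⟨0,[(6,0),(6,0)]⟩,⟨2,[(0,1),(4,0),(3,1),(33,1),
  (0,1)]⟩⟩,⟨false,0,⟨0,[]⟩,⟨0,[]⟩⟩,⟨false,0,⟨0,[]⟩,⟨0,[]⟩⟩,[.o ⟨false,0,⟨0,[(13,0)]⟩,⟨5,[(5,1),(1,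
  1),(1,3),(6,3),(19,1),(6,2),(0,0)]⟩⟩,.e ⟨false,0,⟨0,[]⟩,⟨1,[(25,0),(0,0),(16,0)]⟩⟩ ⟨false,0,⟨3,
  [(6,2),(10,1),(4,0),(3,0),(3,1),(13,0)]⟩,⟨10,[(0,9),(4,0),(3,5),(4,1),(3,1),(24,4)]⟩⟩,.a ⟨true,1,
  ⟨0,[(25,0)]⟩,⟨0,[(6,0)]⟩⟩ ⟨false,0,⟨3,[(21,0),(0,0),(10,1)]⟩,⟨1,[(43,0),(0,0)]⟩⟩ ⟨true,(-1),⟨0,
  [(6,0),(6,0)]⟩,⟨10,[(0,9),(4,0),(3,5),(4,1),(3,1),(24,4)]⟩⟩,.o ⟨false,1,⟨0,[(2,0),(18,0)]⟩,⟨0,[(7,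
  0)]⟩⟩]⟩)) (.S ⟨1,0,[0,-1],[1,0,0,0,-1],[],(⟨0,[(26,0)]⟩,⟨0,[(27,0)]⟩),⟨0,[(0,0)]⟩,.k,(.r (-1) ⟨17,
  [(4,1),(2,1),(1,1),(6,3),(11,1),(13,2),(0,6)]⟩ ⟨4,[(8,0),(8,1),(6,0),(0,0),(3,2),(2,2),(8,0)]⟩),
  ⟨true,0,⟨0,[(45,0)]⟩,⟨0,[]⟩⟩,⟨false,1,⟨1,[(24,0),(0,0),(17,0)]⟩,⟨0,[]⟩⟩,⟨false,0,⟨0,[(41,0)]⟩,⟨1,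
  [(7,0),(16,0),(18,0)]⟩⟩,⟨true,0,⟨0,[(41,0)]⟩,⟨0,[(40,0)]⟩⟩,[.o ⟨false,2,⟨1,[(24,1),(10,0),(7,0)]⟩,
  ⟨2,[(3,0),(1,1),(13,1),(15,1)]⟩⟩,.a ⟨true,2,⟨0,[(24,0),(18,0)]⟩,⟨2,[(3,1),(1,0),(13,3),(15,0)]⟩⟩
  ⟨false,1,⟨1,[(42,0),(0,0)]⟩,⟨0,[(45,0)]⟩⟩ ⟨true,1,⟨0,[(43,0)]⟩,⟨6,[(18,3),(0,7),(0,5),(14,0),(2,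
  0)]⟩⟩,.e ⟨false,1,⟨1,[(24,0),(0,0),(17,0)]⟩,⟨0,[]⟩⟩ ⟨false,1,⟨0,[(43,0)]⟩,⟨0,[(45,0)]⟩⟩,.o ⟨false,
  1,⟨0,[(1,0),(18,0)]⟩,⟨0,[(6,0)]⟩⟩]⟩))))) (.Q [0,0,0,0,0,-1,0,0,0,0,0,1] (.ed false [1,-1,0,0,1]
  .k) (.S ⟨1,0,[0,2],[0,0,0,0,1],[1,1,0,-1],(⟨0,[(24,0)]⟩,⟨0,[(23,0)]⟩),⟨0,[(0,0)]⟩,.k,(.r 0 ⟨0,
  [(36,0)]⟩ ⟨2,[(5,0),(15,1),(0,1),(3,0),(2,0),(8,0),(1,1)]⟩),⟨false,1,⟨1,[(4,0),(16,0),(18,0)]⟩,⟨0,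
  [(38,0)]⟩⟩,⟨true,0,⟨0,[(42,0)]⟩,⟨0,[]⟩⟩,⟨true,0,⟨0,[]⟩,⟨0,[(42,0)]⟩⟩,⟨false,0,⟨0,[(38,0)]⟩,⟨1,[(4,
  0),(16,0),(18,0)]⟩⟩,[.e ⟨false,0,⟨0,[(36,0)]⟩,⟨1,[(21,0),(0,0),(15,1),(1,0)]⟩⟩ ⟨false,0,⟨0,[(35,
  0)]⟩,⟨0,[(40,0)]⟩⟩,.o ⟨false,(-1),⟨32,[(1,13),(0,18),(2,0),(0,7),(5,8),(4,2),(9,4),(4,14)]⟩,⟨1,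
  [(21,1),(10,0),(7,0)]⟩⟩,.a ⟨true,(-1),⟨0,[(2,0)]⟩,⟨0,[(21,0)]⟩⟩ ⟨true,0,⟨0,[(37,0)]⟩,⟨0,[(38,
  0)]⟩⟩ ⟨false,0,⟨0,[(42,0)]⟩,⟨0,[(40,0)]⟩⟩,.o ⟨false,(-1),⟨4,[(1,3),(0,0),(2,0),(0,2),(5,3),(4,2),
  (14,0),(7,3)]⟩,⟨1,[(21,1),(10,0),(6,0)]⟩⟩]⟩) (.R ⟨0,false,false,false,[0,0,0,0,1],[1,0,0,0,-1],[1,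
  1,1],(⟨0,[(24,0)]⟩,⟨0,[(23,0)]⟩),(⟨0,[(23,0)]⟩,⟨0,[(24,0)]⟩),⟨0,[(0,0)]⟩,.k,.k,(.r 0 ⟨0,[(36,0)]⟩
  ⟨2,[(5,0),(15,1),(0,1),(3,0),(2,0),(8,0),(1,1)]⟩),.k,.k,.k,⟨true,(-1),⟨6,[(15,3),(0,7),(0,5),(14,
  0),(2,0)]⟩,⟨0,[(40,0)]⟩⟩,⟨false,3,⟨1,[(21,3),(10,0),(6,0)]⟩,⟨4,[(1,7),(0,1),(2,1),(0,5),(5,7),(4,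
  0),(14,1),(7,7)]⟩⟩,⟨true,0,⟨3,[(17,0),(0,0),(10,1)]⟩,⟨3,[(16,1),(15,0),(3,1),(2,0)]⟩⟩,⟨false,4,⟨1,
  [(21,3),(10,0),(7,2)]⟩,⟨4,[(1,7),(0,1),(2,1),(0,5),(5,7),(4,0),(14,1),(7,2)]⟩⟩,⟨false,0,⟨0,[]⟩,⟨0,
  []⟩⟩,⟨false,0,⟨0,[]⟩,⟨0,[]⟩⟩,[.o ⟨false,2,⟨1,[(21,1),(10,0),(7,0)]⟩,⟨32,[(1,13),(0,18),(2,0),(0,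
  7),(5,8),(4,2),(9,4),(4,14)]⟩⟩,.e ⟨false,0,⟨0,[]⟩,⟨1,[(21,0),(0,0),(16,0)]⟩⟩ ⟨false,4,⟨1,[(21,3),
  (10,0),(6,0),(0,1)]⟩,⟨4,[(1,7),(0,1),(2,1),(0,5),(5,7),(4,0),(14,1),(7,2)]⟩⟩,.a ⟨true,(-1),⟨0,[(2,
  0)]⟩,⟨0,[(21,0)]⟩⟩ ⟨false,0,⟨3,[(17,0),(0,0),(10,1)]⟩,⟨1,[(39,0),(0,0)]⟩⟩ ⟨true,3,⟨1,[(21,3),(10,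
  0),(7,0)]⟩,⟨4,[(1,7),(0,1),(2,1),(0,5),(5,7),(4,0),(14,1),(7,2)]⟩⟩,.o ⟨false,(-1),⟨4,[(1,3),(0,0),
  (2,0),(0,2),(5,3),(4,2),(14,0),(7,3)]⟩,⟨1,[(21,1),(10,0),(6,0)]⟩⟩]⟩))) (.K ⟨0,[1,0,0,0,-1],1,1,
  (⟨0,[(21,0)]⟩,⟨0,[(22,0)]⟩),.k,(.r (-1) ⟨9,[(2,0),(1,1),(6,1),(7,0),(17,1),(0,4)]⟩ ⟨4,[(3,0),(8,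
  1),(6,0),(0,0),(3,2),(2,2),(8,0)]⟩),(.r (-1) ⟨2,[(3,0),(15,1),(0,1),(3,0),(2,0),(8,0),(1,1)]⟩ ⟨0,
  [(34,0)]⟩),.k,.k,[⟨0,[(0,0),(9,0)]⟩,⟨0,[(1,0),(4,0),(3,0),(17,0),(3,1)]⟩,⟨0,[(14,0),(5,0),(14,
  0)]⟩,⟨0,[(0,0)]⟩]⟩)))))))) (.R ⟨2,true,false,true,[0,1],[0,0,1],[1,1,1],(⟨0,[]⟩,⟨0,[]⟩),(⟨0,[(22,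
  0)]⟩,⟨0,[(21,0)]⟩),⟨0,[]⟩,.k,.k,.k,.k,.k,.k,⟨false,0,⟨13,[(1,5),(0,3),(2,1),(2,0),(0,0),(8,1)]⟩,
  ⟨1,[(3,1),(13,1),(12,0),(0,0)]⟩⟩,⟨true,0,⟨0,[(19,0)]⟩,⟨0,[(3,0)]⟩⟩,⟨true,0,⟨0,[(28,0)]⟩,⟨0,[(29,
  0)]⟩⟩,⟨false,1,⟨7,[(4,3),(3,2),(0,2),(2,1),(0,1),(3,3),(2,1),(10,1)]⟩,⟨0,[(0,0)]⟩⟩,⟨false,0,⟨0,
  []⟩,⟨1,[(12,0),(0,0),(17,0)]⟩⟩,⟨true,0,⟨0,[(17,0)]⟩,⟨2,[(0,0),(0,0),(16,0),(1,0)]⟩⟩,[]⟩))))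

theorem ok66 : chk K t66 l36 = true := by decide +kernel

noncomputable def t67 : Tre :=
  (.R ⟨2,true,false,false,[0,1],[1,0,0,0,-1],[1,1,1],(⟨0,[]⟩,⟨0,[]⟩),(⟨0,[(14,0)]⟩,⟨0,[(15,0)]⟩),⟨0,
  []⟩,.k,.k,.k,(.r 0 ⟨0,[(1,0),(3,0)]⟩ ⟨3,[(6,1),(23,0),(0,2)]⟩),.k,.k,⟨true,(-1),⟨2,[(2,0),(3,0),
  (0,2),(0,1),(8,0)]⟩,⟨0,[(31,0)]⟩⟩,⟨false,1,⟨4,[(0,3),(7,0),(3,0),(13,1)]⟩,⟨3,[(6,1),(0,3),(5,3),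
  (16,0),(0,2)]⟩⟩,⟨true,0,⟨0,[(28,0)]⟩,⟨0,[(29,0)]⟩⟩,⟨false,2,⟨15,[(0,9),(5,7),(1,3),(3,5),(10,0),
  (7,14)]⟩,⟨0,[(7,0),(5,0)]⟩⟩,⟨false,0,⟨0,[]⟩,⟨1,[(12,0),(0,0),(17,0)]⟩⟩,⟨true,1,⟨0,[(0,0)]⟩,⟨0,[(7,
  0),(5,0),(14,0)]⟩⟩,[]⟩)

theorem ok67 : chk K t67 l39 = true := by decide +kernel

noncomputable def t68 : Tre :=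
  (.Q [0,0,0,0,0,-1,0,0,0,1,0,-1] (.ed true [0,1,0,0,1] .k) (.R ⟨1,false,false,false,[1,0,0,0,-1],
  [0,0,1],[],(⟨0,[(19,0)]⟩,⟨0,[(20,0)]⟩),(⟨0,[(27,0)]⟩,⟨0,[(26,0)]⟩),⟨0,[(0,0)]⟩,.k,.k,(.r (-1) ⟨2,
  [(3,0),(5,1),(26,0)]⟩ ⟨0,[(6,0),(3,0)]⟩),.k,(.r (-1) ⟨0,[(7,0),(0,0),(3,0),(19,0),(3,1)]⟩ ⟨2,[(6,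
  3),(3,0),(20,0),(2,1)]⟩),.k,⟨true,0,⟨2,[(3,0),(3,0),(13,0)]⟩,⟨0,[(6,0)]⟩⟩,⟨false,0,⟨0,[(18,0),(2,
  0)]⟩,⟨3,[(1,3),(4,2),(2,0),(2,1),(15,0),(2,0),(2,3)]⟩⟩,⟨true,0,⟨0,[(38,0)]⟩,⟨0,[]⟩⟩,⟨false,0,⟨7,
  [(2,3),(2,1),(0,3),(7,1),(2,0),(0,6),(17,0)]⟩,⟨0,[(1,0),(32,0)]⟩⟩,⟨false,0,⟨0,[(34,0)]⟩,⟨0,[(33,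
  0),(2,0)]⟩⟩,⟨false,0,⟨7,[(2,3),(3,3),(5,1),(1,1),(2,0),(0,8),(15,5),(1,0)]⟩,⟨0,[(1,0)]⟩⟩,[.e
  ⟨false,1,⟨1,[(17,0),(0,0),(16,0)]⟩,⟨0,[]⟩⟩ ⟨false,0,⟨0,[(2,0),(15,0)]⟩,⟨2,[(1,1),(10,0),(4,0),(5,
  0),(4,0),(5,0)]⟩⟩,.o ⟨false,1,⟨0,[(22,0),(13,0)]⟩,⟨0,[(7,0),(26,0)]⟩⟩,.o ⟨false,1,⟨0,[(1,0),(20,
  0),(11,0)]⟩,⟨0,[(18,0)]⟩⟩,.a ⟨true,0,⟨0,[(1,0),(4,0),(1,0),(3,0)]⟩,⟨1,[(5,1),(29,0),(0,0)]⟩⟩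
  ⟨false,1,⟨1,[(35,0),(0,0)]⟩,⟨3,[(13,0),(0,0),(10,1)]⟩⟩ ⟨true,0,⟨0,[(2,0),(15,0)]⟩,⟨4,[(1,4),(5,0),
  (4,5),(0,2),(8,0),(5,0),(2,0)]⟩⟩]⟩) (.R ⟨0,false,false,false,[1,0,0,0,-1],[0,0,1],[],(⟨0,[(19,
  0)]⟩,⟨0,[(20,0)]⟩),(⟨0,[(27,0)]⟩,⟨0,[(26,0)]⟩),⟨0,[(0,0)]⟩,.k,.k,(.r (-1) ⟨2,[(3,0),(5,1),(26,
  0)]⟩ ⟨0,[(6,0),(3,0)]⟩),.k,.k,.k,⟨true,0,⟨2,[(3,0),(3,0),(13,0)]⟩,⟨0,[(6,0)]⟩⟩,⟨false,0,⟨0,[(18,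
  0),(2,0)]⟩,⟨3,[(1,3),(4,2),(2,0),(2,1),(15,0),(2,0),(2,3)]⟩⟩,⟨true,0,⟨0,[(38,0)]⟩,⟨0,[]⟩⟩,⟨false,
  0,⟨7,[(2,3),(2,1),(0,3),(7,1),(2,0),(0,6),(17,0)]⟩,⟨0,[(1,0),(32,0)]⟩⟩,⟨false,0,⟨0,[]⟩,⟨0,[]⟩⟩,
  ⟨false,0,⟨0,[]⟩,⟨0,[]⟩⟩,[.e ⟨false,1,⟨1,[(17,0),(0,0),(16,0)]⟩,⟨0,[]⟩⟩ ⟨false,0,⟨0,[(2,0),(15,
  0)]⟩,⟨2,[(1,1),(10,0),(4,0),(5,0),(4,0),(5,0)]⟩⟩,.o ⟨false,1,⟨0,[(22,0),(13,0)]⟩,⟨0,[(7,0),(26,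
  0)]⟩⟩,.o ⟨false,1,⟨0,[(1,0),(20,0),(11,0)]⟩,⟨0,[(18,0)]⟩⟩,.a ⟨true,0,⟨0,[(1,0),(4,0),(1,0),(3,
  0)]⟩,⟨1,[(5,1),(29,0),(0,0)]⟩⟩ ⟨false,1,⟨1,[(35,0),(0,0)]⟩,⟨3,[(13,0),(0,0),(10,1)]⟩⟩ ⟨true,0,⟨0,
  [(2,0),(15,0)]⟩,⟨4,[(1,4),(5,0),(4,5),(0,2),(8,0),(5,0),(2,0)]⟩⟩]⟩))

theorem ok68 : chk K t68 l43 = true := by decide +kernel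

noncomputable def t69 : Tre :=
  (.Q [0,0,-1,0,1,0,-1,0,0,-1,1] (.p true [0,0,1] [1] (⟨0,[(27,0)]⟩,⟨0,[(26,0)]⟩) .k 1 (⟨0,[]⟩,⟨0,
  []⟩) .k .k) (.S ⟨1,0,[0,0,0,0,0,0,0,1],[0,0,1],[1,1,0,-1,0,0,0,1],(⟨0,[(28,0)]⟩,⟨0,[(27,0)]⟩),⟨0,
  [(17,0)]⟩,.k,.k,⟨true,0,⟨0,[(34,0)]⟩,⟨0,[(35,0)]⟩⟩,⟨false,1,⟨1,[(18,0),(0,0),(17,0)]⟩,⟨0,[]⟩⟩,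
  ⟨false,0,⟨0,[]⟩,⟨1,[(18,0),(0,0),(17,0)]⟩⟩,⟨true,0,⟨0,[(35,0)]⟩,⟨0,[(34,0)]⟩⟩,[.a ⟨true,0,⟨2,[(3,
  1),(3,0),(7,0),(10,0)]⟩,⟨2,[(0,0),(0,0),(3,1),(7,0)]⟩⟩ ⟨true,0,⟨7,[(7,6),(2,0),(1,3),(0,1),(15,0),
  (2,0)]⟩,⟨0,[(1,0)]⟩⟩ ⟨false,1,⟨0,[(7,0),(28,0)]⟩,⟨2,[(4,0),(3,0),(13,0)]⟩⟩,.o ⟨false,1,⟨0,[(23,0),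
  (13,0)]⟩,⟨3,[(0,0),(0,0),(6,2),(4,1),(15,0)]⟩⟩,.o ⟨false,0,⟨0,[(9,0)]⟩,⟨3,[(0,2),(13,0),(3,0),(0,
  0),(6,0)]⟩⟩,.o ⟨false,0,⟨0,[(25,0)]⟩,⟨0,[(0,0)]⟩⟩]⟩) (.Q [0,-1,1,-1,1,0,0,0,-1,-1,0,1] (.p true
  [0,0,0,0,1] [1] (⟨0,[(21,0)]⟩,⟨0,[(20,0)]⟩) .k 1 (⟨0,[]⟩,⟨0,[]⟩) .k .k) (.Q [0,0,0,0,0,-1,0,0,0,1,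
  0,-1] (.ed true [0,1,0,0,1] .k) (.S ⟨1,0,[0,-1],[1,0,0,0,-1],[1,0,0,-1],(⟨0,[(22,0)]⟩,⟨0,[(23,
  0)]⟩),⟨0,[(0,0)]⟩,.k,(.r (-1) ⟨2,[(6,0),(5,1),(26,0)]⟩ ⟨0,[(9,0),(3,0)]⟩),⟨true,0,⟨0,[(36,0)]⟩,⟨0,
  [(37,0)]⟩⟩,⟨false,1,⟨1,[(20,0),(0,0),(17,0)]⟩,⟨0,[]⟩⟩,⟨false,0,⟨0,[]⟩,⟨1,[(20,0),(0,0),(17,0)]⟩⟩,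
  ⟨true,0,⟨0,[(37,0)]⟩,⟨0,[(36,0)]⟩⟩,[.e ⟨false,1,⟨19,[(6,3),(5,11),(4,1),(2,6),(0,6),(4,3),(4,0)]⟩,
  ⟨0,[(37,0)]⟩⟩ ⟨false,1,⟨1,[(38,0),(0,0)]⟩,⟨0,[(41,0)]⟩⟩,.o ⟨false,2,⟨1,[(1,1),(35,1),(0,0),(0,
  0)]⟩,⟨0,[(4,0),(5,0)]⟩⟩,.o ⟨false,1,⟨1,[(1,1),(13,1),(15,0),(6,0)]⟩,⟨0,[(21,0)]⟩⟩,.a ⟨true,0,⟨0,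
  [(1,0),(13,0)]⟩,⟨1,[(8,1),(29,0),(0,0)]⟩⟩ ⟨false,1,⟨2,[(6,0),(5,1),(26,0)]⟩,⟨2,[(3,0),(5,1),(3,0),
  (23,0)]⟩⟩ ⟨true,1,⟨1,[(38,0),(0,0)]⟩,⟨2,[(10,0),(3,0),(0,2),(0,1),(8,0)]⟩⟩]⟩) (.Q [0,0,1,-1,0,0,1,
  1,-1,0,-1,1] (.p false [0,0,1] [0,0,0,0,1] (⟨0,[(30,0)]⟩,⟨0,[(29,0)]⟩) .k 2 (⟨0,[(23,0)]⟩,⟨0,[(22,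
  0)]⟩) .k (.r (-1) ⟨1,[(9,1),(28,0),(0,0)]⟩ ⟨2,[(10,0),(2,0),(3,0),(8,0)]⟩)) (.R ⟨0,false,false,
  false,[1,0,0,0,-1],[1,1,-1],[1,1,1],(⟨0,[(23,0)]⟩,⟨0,[(24,0)]⟩),(⟨0,[(30,0),(3,0)]⟩,⟨0,[(20,0)]⟩),
  ⟨0,[(1,0)]⟩,.k,.k,(.r (-1) ⟨2,[(7,0),(5,1),(26,0)]⟩ ⟨0,[(10,0),(3,0)]⟩),(.r (-2) ⟨3,[(10,1),(2,1),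
  (7,2),(0,2),(16,0),(0,1)]⟩ ⟨1,[(3,0),(0,0),(6,0),(4,1),(15,0)]⟩),.k,.k,⟨true,0,⟨7,[(10,6),(2,0),
  (1,3),(0,1),(15,0),(2,0)]⟩,⟨0,[(4,0)]⟩⟩,⟨false,1,⟨0,[(8,0),(4,0),(8,0),(15,2)]⟩,⟨3,[(0,3),(6,1),
  (8,1),(15,0),(6,0)]⟩⟩,⟨true,(-1),⟨6,[(0,1),(4,1),(5,3),(4,4),(0,2),(17,0),(1,0)]⟩,⟨1,[(39,0),(0,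
  0)]⟩⟩,⟨false,0,⟨0,[(8,0),(13,0),(15,1)]⟩,⟨0,[(2,0),(3,0)]⟩⟩,⟨false,0,⟨0,[]⟩,⟨0,[]⟩⟩,⟨false,0,⟨0,
  []⟩,⟨0,[]⟩⟩,[.a ⟨true,0,⟨0,[(8,0),(29,1)]⟩,⟨5,[(3,2),(2,0),(3,1),(2,2),(4,1),(10,1)]⟩⟩ ⟨false,0,
  ⟨0,[(42,0)]⟩,⟨1,[(39,0),(0,0)]⟩⟩ ⟨true,0,⟨0,[(8,0),(13,0),(15,1)]⟩,⟨0,[(0,0)]⟩⟩,.o ⟨false,1,⟨1,
  [(8,1),(23,0),(5,3),(1,0)]⟩,⟨2,[(0,0),(14,0),(6,0),(3,1)]⟩⟩,.o ⟨false,1,⟨1,[(2,1),(13,1),(15,0),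
  (6,0)]⟩,⟨0,[(22,0)]⟩⟩,.e ⟨false,0,⟨0,[]⟩,⟨1,[(21,0),(0,0),(17,0)]⟩⟩ ⟨false,1,⟨1,[(8,1),(13,1),(15,
  3),(0,0),(0,0)]⟩,⟨0,[(0,0)]⟩⟩]⟩) (.R ⟨0,false,false,true,[1,0,0,0,-1],[0,1],[1,1,1,1],(⟨0,[(23,
  0)]⟩,⟨0,[(24,0)]⟩),(⟨0,[(34,0)]⟩,⟨0,[(33,0)]⟩),⟨0,[(1,0)]⟩,.k,.k,(.r (-1) ⟨2,[(7,0),(5,1),(26,
  0)]⟩ ⟨0,[(10,0),(3,0)]⟩),(.r (-1) ⟨2,[(7,0),(5,1),(26,0)]⟩ ⟨0,[(10,0),(3,0)]⟩),.k,.k,⟨true,0,⟨0,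
  []⟩,⟨3,[(17,0),(0,0),(10,1)]⟩⟩,⟨false,0,⟨1,[(0,1),(2,0),(2,0),(6,0)]⟩,⟨2,[(2,0),(13,0),(0,0),(3,
  1),(10,0)]⟩⟩,⟨true,(-1),⟨4,[(11,0),(4,5),(0,2),(8,0),(5,0),(2,0)]⟩,⟨2,[(7,0),(5,1),(26,0)]⟩⟩,
  ⟨false,(-1),⟨12,[(0,2),(4,5),(1,0),(1,3),(6,2),(10,0),(1,1)]⟩,⟨1,[(2,1),(36,0),(0,0)]⟩⟩,⟨false,0,
  ⟨0,[]⟩,⟨0,[]⟩⟩,⟨false,0,⟨0,[]⟩,⟨0,[]⟩⟩,[.a ⟨true,(-1),⟨0,[(16,0)]⟩,⟨0,[(37,0),(2,0)]⟩⟩ ⟨false,0,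
  ⟨2,[(10,0),(3,0),(20,0),(2,1)]⟩,⟨2,[(7,0),(5,1),(26,0)]⟩⟩ ⟨true,(-1),⟨12,[(0,2),(4,5),(1,0),(1,3),
  (6,2),(10,0),(1,1)]⟩,⟨0,[(2,0)]⟩⟩,.o ⟨false,0,⟨0,[(38,0)]⟩,⟨19,[(2,7),(10,3),(4,1),(2,0),(0,8),(4,
  3),(4,6),(4,3)]⟩⟩,.o ⟨false,1,⟨1,[(2,1),(13,1),(15,0),(6,0)]⟩,⟨0,[(22,0)]⟩⟩,.e ⟨false,0,⟨0,[(38,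
  0)]⟩,⟨0,[(37,0),(2,0)]⟩⟩ ⟨false,0,⟨2,[(0,1),(4,0),(0,0),(2,0),(11,0),(18,0)]⟩,⟨0,[(2,0)]⟩⟩]⟩)))
  (.Q [0,0,0,0,0,2,0,0,0,0,-1] (.p false [0,0,1] [] (⟨0,[(29,0)]⟩,⟨0,[(28,0)]⟩) .k 0 (⟨0,[]⟩,⟨0,
  []⟩) .k .k) (.Q [0,0,-1,0,1,0,-2,-1,0,-1,2] (.p true [0,0,1] [1,0,-1] (⟨0,[(30,0)]⟩,⟨0,[(29,0)]⟩)
  .k 2 (⟨0,[(29,0)]⟩,⟨0,[(30,0)]⟩) .k (.r (-1) ⟨0,[(9,1),(28,0)]⟩ ⟨2,[(6,1),(3,1),(13,1)]⟩)) (.R ⟨0,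
  false,false,false,[0,-1,1],[1,0,-1],[1,1],(⟨0,[(20,0)]⟩,⟨1,[(1,0),(28,1),(0,0)]⟩),(⟨0,[(30,0)]⟩,
  ⟨0,[(31,0)]⟩),⟨0,[(1,0)]⟩,.k,.k,(.x 0 ⟨1,[(17,1),(0,0),(0,0),(0,2)]⟩ ⟨0,[(0,0),(0,0),(4,0)]⟩),(.r
  (-1) ⟨0,[(10,0),(2,0),(24,0)]⟩ ⟨5,[(7,3),(6,1),(2,0),(0,0),(8,1)]⟩),.k,.k,⟨true,0,⟨3,[(10,2),(2,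
  0),(2,1),(15,0),(2,0)]⟩,⟨3,[(3,1),(0,1),(3,1),(23,0),(7,0)]⟩⟩,⟨false,2,⟨0,[(0,0),(9,0),(28,0)]⟩,
  ⟨0,[(3,0),(8,0)]⟩⟩,⟨true,(-1),⟨1,[(3,0),(0,0),(6,0),(4,1),(15,0)]⟩,⟨3,[(10,1),(2,1),(7,0),(0,0),
  (16,0)]⟩⟩,⟨false,1,⟨0,[(0,0),(3,0)]⟩,⟨1,[(3,0),(2,0),(3,1),(1,1),(0,0)]⟩⟩,⟨false,0,⟨0,[]⟩,⟨0,[]⟩⟩,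
  ⟨false,0,⟨0,[]⟩,⟨0,[]⟩⟩,[.a ⟨true,0,⟨3,[(0,0),(3,0),(3,1),(7,0)]⟩,⟨2,[(6,1),(3,0),(7,0),(10,0)]⟩⟩
  ⟨false,0,⟨3,[(16,1),(15,0),(3,1),(2,0)]⟩,⟨1,[(21,0),(0,0),(17,0)]⟩⟩ ⟨true,1,⟨0,[(0,0)]⟩,⟨0,[(3,0),
  (6,0),(1,0)]⟩⟩,.o ⟨false,1,⟨2,[(0,0),(3,0),(3,0),(23,0),(7,0)]⟩,⟨0,[(26,0)]⟩⟩,.a ⟨true,(-1),⟨0,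
  [(3,0)]⟩,⟨3,[(0,1),(1,0),(2,0),(7,0),(7,1),(7,0),(10,0)]⟩⟩ ⟨false,0,⟨0,[]⟩,⟨1,[(21,0),(0,0),(17,
  0)]⟩⟩ ⟨true,1,⟨0,[(0,0)]⟩,⟨0,[(3,0),(22,0)]⟩⟩,.a ⟨true,(-1),⟨3,[(3,3),(13,0),(0,0),(10,1)]⟩,⟨0,
  [(0,0),(5,0)]⟩⟩ ⟨true,0,⟨3,[(16,1),(15,0),(3,1),(2,0)]⟩,⟨3,[(17,0),(0,0),(10,1)]⟩⟩ ⟨false,2,⟨1,
  [(0,1),(38,0),(0,0)]⟩,⟨0,[(3,0),(6,0),(1,0)]⟩⟩]⟩) (.R ⟨0,false,false,false,[0,-1,1],[1,0,-1],[1,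
  1],(⟨0,[(20,0)]⟩,⟨1,[(1,0),(28,1),(0,0)]⟩),(⟨0,[(30,0)]⟩,⟨0,[(31,0)]⟩),⟨0,[(1,0)]⟩,.k,.k,(.x 0 ⟨1,
  [(17,1),(0,0),(0,0),(0,2)]⟩ ⟨0,[(1,0),(6,0),(4,0),(24,2)]⟩),(.r (-1) ⟨0,[(10,0),(2,0),(24,0)]⟩ ⟨5,
  [(7,3),(6,1),(2,0),(0,0),(8,1)]⟩),.k,.k,⟨true,0,⟨3,[(10,2),(2,0),(2,1),(15,0),(2,0)]⟩,⟨3,[(3,1),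
  (0,1),(3,1),(23,0),(7,0)]⟩⟩,⟨false,2,⟨1,[(8,1),(4,1),(15,1),(2,0),(5,5),(0,0)]⟩,⟨6,[(0,5),(6,2),
  (4,1),(2,1),(0,0)]⟩⟩,⟨true,(-1),⟨1,[(3,0),(0,0),(6,0),(4,1),(15,0)]⟩,⟨3,[(10,1),(2,1),(7,0),(0,0),
  (16,0)]⟩⟩,⟨false,1,⟨1,[(8,3),(23,0),(5,5),(1,0)]⟩,⟨11,[(0,6),(5,1),(3,6),(2,5),(4,2),(7,1),(13,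
  0)]⟩⟩,⟨false,0,⟨0,[]⟩,⟨0,[]⟩⟩,⟨false,0,⟨0,[]⟩,⟨0,[]⟩⟩,[.e ⟨false,0,⟨3,[(16,1),(15,0),(3,1),(2,
  0)]⟩,⟨1,[(21,0),(0,0),(17,0)]⟩⟩ ⟨false,2,⟨1,[(8,1),(20,1),(2,0),(5,1),(0,2)]⟩,⟨0,[(0,0)]⟩⟩,.o
  ⟨false,1,⟨1,[(8,1),(23,0),(5,1),(1,0)]⟩,⟨0,[(26,0)]⟩⟩,.e ⟨false,0,⟨0,[]⟩,⟨1,[(21,0),(0,0),(17,
  0)]⟩⟩ ⟨false,2,⟨1,[(8,1),(20,1),(2,0),(5,1),(0,1),(0,0)]⟩,⟨0,[(0,0)]⟩⟩,.a ⟨true,(-1),⟨3,[(3,3),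
  (13,0),(0,0),(10,1)]⟩,⟨0,[(8,0),(4,0),(24,2)]⟩⟩ ⟨true,0,⟨3,[(16,1),(15,0),(3,1),(2,0)]⟩,⟨3,[(17,
  0),(0,0),(10,1)]⟩⟩ ⟨false,2,⟨1,[(8,3),(4,1),(18,0),(5,7),(1,0)]⟩,⟨3,[(0,1),(2,1),(6,1),(6,0),(0,
  0)]⟩⟩]⟩)) (.Q [0,0,-1,0,0,0,0,0,1,0,0,-1] (.p false [0,0,0,0,1] [] (⟨0,[(23,0)]⟩,⟨0,[(22,0)]⟩) .k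
  0 (⟨0,[]⟩,⟨0,[]⟩) .k .k) (.Q [0,0,0,-1,1,0,0,0,-1,-1,0,1] (.p true [0,0,0,0,1] [1] (⟨0,[(24,0)]⟩,
  ⟨0,[(23,0)]⟩) .k 1 (⟨0,[]⟩,⟨0,[]⟩) .k .k) (.Q [0,0,0,0,0,-1,0,0,0,0,0,1] (.ed false [1,-1,0,0,1]
  .k) (.S ⟨1,0,[0,1],[0,0,0,0,1],[0,2],(⟨0,[(26,0)]⟩,⟨0,[(25,0)]⟩),⟨0,[(0,0)]⟩,.k,(.r 0 ⟨0,[(38,
  0)]⟩ ⟨0,[(12,0),(3,0),(25,0)]⟩),⟨true,0,⟨0,[(44,0)]⟩,⟨0,[]⟩⟩,⟨false,1,⟨1,[(23,0),(0,0),(17,0)]⟩,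
  ⟨0,[]⟩⟩,⟨false,0,⟨0,[(40,0)]⟩,⟨0,[(39,0),(2,0)]⟩⟩,⟨true,0,⟨0,[(40,0)]⟩,⟨0,[(39,0)]⟩⟩,[.e ⟨false,0,
  ⟨0,[(37,0)]⟩,⟨0,[(42,0)]⟩⟩ ⟨false,0,⟨3,[(18,1),(15,0),(3,1),(2,0)]⟩,⟨1,[(23,0),(0,0),(17,0)]⟩⟩,.o
  ⟨false,0,⟨0,[(24,0)]⟩,⟨0,[(1,0),(38,0)]⟩⟩,.o ⟨false,0,⟨0,[(24,0)]⟩,⟨0,[(1,0),(38,0)]⟩⟩,.a ⟨true,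
  (-1),⟨0,[(2,0),(2,0),(25,0)]⟩,⟨1,[(1,1),(16,1),(22,0),(0,0)]⟩⟩ ⟨false,0,⟨3,[(18,1),(15,0),(3,1),
  (2,0)]⟩,⟨3,[(19,0),(0,0),(10,1),(10,3)]⟩⟩ ⟨true,0,⟨3,[(18,1),(15,0),(3,1),(2,0)]⟩,⟨3,[(19,0),(0,
  0),(10,1)]⟩⟩]⟩) (.S ⟨1,0,[],[1,0,0,0,-1],[0,-1],(⟨0,[(25,0)]⟩,⟨0,[(26,0)]⟩),⟨1,[(0,0),(2,0),(17,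
  0),(3,0)]⟩,.k,(.r (-1) ⟨2,[(9,0),(5,1),(26,0)]⟩ ⟨0,[(12,0),(3,0)]⟩),⟨false,1,⟨1,[(23,0),(0,0),(17,
  0)]⟩,⟨0,[]⟩⟩,⟨true,0,⟨0,[(44,0)]⟩,⟨0,[]⟩⟩,⟨true,0,⟨0,[(40,0)]⟩,⟨0,[(39,0)]⟩⟩,⟨false,0,⟨0,[(40,
  0)]⟩,⟨0,[(39,0),(2,0)]⟩⟩,[.o ⟨false,1,⟨0,[(1,0),(38,0)]⟩,⟨0,[(24,0)]⟩⟩,.a ⟨true,1,⟨0,[(1,0),(16,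
  0),(23,0)]⟩,⟨0,[(11,0)]⟩⟩ ⟨true,1,⟨0,[(42,0)]⟩,⟨2,[(13,0),(3,0),(0,2),(0,1),(8,0)]⟩⟩ ⟨false,1,⟨1,
  [(41,0),(0,0)]⟩,⟨0,[(44,0)]⟩⟩,.o ⟨false,1,⟨0,[(1,0),(38,0)]⟩,⟨0,[(24,0)]⟩⟩,.o ⟨false,1,⟨1,[(1,0),
  (17,0),(3,0),(16,0)]⟩,⟨0,[(2,0)]⟩⟩]⟩)) (.Q [0,0,-2,0,0,0,1,0,0,1,-1] (.p false [0,0,1] [1] (⟨0,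
  [(32,0)]⟩,⟨0,[(31,0)]⟩) .k 1 (⟨0,[]⟩,⟨0,[]⟩) .k .k) (.Q [0,-1,0,2,0,0,1,1,0,1,-1] (.p false [0,0,
  1] [1] (⟨0,[(33,0)]⟩,⟨0,[(32,0)]⟩) .k 1 (⟨0,[]⟩,⟨0,[]⟩) .k .k) (.R ⟨1,false,false,false,[1,0,-1],
  [0,1],[1,0,1,1],(⟨0,[(33,0)]⟩,⟨0,[(34,0)]⟩),(⟨0,[(37,0)]⟩,⟨0,[(36,0)]⟩),⟨0,[(22,0)]⟩,.k,.k,.k,.k,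
  (.r (-1) ⟨4,[(10,3),(5,2),(1,3),(23,1)]⟩ ⟨8,[(0,7),(12,0),(5,1),(0,5),(11,7),(2,1),(2,2)]⟩),.k,
  ⟨true,0,⟨0,[]⟩,⟨3,[(20,0),(0,0),(10,1)]⟩⟩,⟨false,0,⟨0,[(1,0)]⟩,⟨1,[(24,0),(0,0),(6,1),(2,0)]⟩⟩,
  ⟨true,0,⟨2,[(0,0),(12,1),(5,0),(12,0),(2,0)]⟩,⟨10,[(1,2),(8,3),(3,2),(3,5),(19,2)]⟩⟩,⟨true,0,⟨10,
  [(0,3),(7,2),(0,1),(2,0),(0,1),(7,0),(2,3)]⟩,⟨0,[(14,0)]⟩⟩,⟨true,0,⟨2,[(0,1),(12,0),(5,1),(12,1),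
  (2,1)]⟩,⟨10,[(1,0),(8,4),(3,0),(3,12),(19,0)]⟩⟩,⟨false,0,⟨0,[(0,0)]⟩,⟨1,[(11,1),(23,0),(4,1),(2,
  0)]⟩⟩,[.o ⟨false,0,⟨0,[(41,0)]⟩,⟨1,[(35,0),(4,1),(2,0)]⟩⟩,.a ⟨true,0,⟨0,[(0,0),(10,0)]⟩,⟨0,[(40,
  0)]⟩⟩ ⟨false,1,⟨3,[(0,1),(23,0),(0,0),(4,1),(4,0),(7,1)]⟩,⟨0,[(39,0)]⟩⟩ ⟨true,0,⟨4,[(0,1),(5,0),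
  (3,0),(17,1),(14,0)]⟩,⟨0,[(13,0),(0,0)]⟩⟩,.o ⟨false,1,⟨1,[(32,1),(2,0),(6,0)]⟩,⟨0,[(15,0)]⟩⟩,.e
  ⟨true,0,⟨0,[(41,0)]⟩,⟨0,[(40,0)]⟩⟩ ⟨true,0,⟨2,[(0,0),(0,0),(15,0),(10,0)]⟩,⟨0,[(13,0),(0,0)]⟩⟩]⟩)
  (.Q [0,0,0,0,-1,0,0,0,1,1,0,-1] (.p false [0,0,0,0,1] [1] (⟨0,[(27,0)]⟩,⟨0,[(26,0)]⟩) .k 1 (⟨0,
  []⟩,⟨0,[]⟩) .k .k) (.Q [0,0,1,0,-1,0,0,0,1,0,0,-1] (.p false [0,0,0,0,1] [] (⟨0,[(28,0)]⟩,⟨0,[(27,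
  0)]⟩) .k 0 (⟨0,[]⟩,⟨0,[]⟩) .k .k) (.Q [0,0,0,0,0,-1,0,0,0,0,0,1] (.ed false [1,-1,0,0,1] .k) (.S
  ⟨1,0,[0,2],[0,0,0,0,1],[1,1,0,-1],(⟨0,[(30,0)]⟩,⟨0,[(29,0)]⟩),⟨0,[(0,0)]⟩,.k,(.r 0 ⟨0,[(42,0)]⟩
  ⟨0,[(16,0),(3,0),(25,0)]⟩),⟨false,1,⟨0,[(43,0),(2,0)]⟩,⟨0,[(44,0)]⟩⟩,⟨true,0,⟨0,[(48,0)]⟩,⟨0,[]⟩⟩,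
  ⟨true,0,⟨0,[]⟩,⟨0,[(48,0)]⟩⟩,⟨false,0,⟨0,[(44,0)]⟩,⟨0,[(43,0),(2,0)]⟩⟩,[.e ⟨false,0,⟨0,[(42,0)]⟩,
  ⟨1,[(27,0),(0,0),(15,1),(1,0)]⟩⟩ ⟨false,0,⟨0,[(41,0)]⟩,⟨0,[(46,0)]⟩⟩,.o ⟨false,(-1),⟨2,[(1,1),(6,
  0),(12,0),(0,0),(15,0)]⟩,⟨1,[(27,1),(10,0),(7,0)]⟩⟩,.a ⟨true,(-1),⟨0,[(2,0)]⟩,⟨0,[(27,0)]⟩⟩ ⟨true,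
  0,⟨0,[(43,0)]⟩,⟨0,[(44,0)]⟩⟩ ⟨false,0,⟨0,[(48,0)]⟩,⟨0,[(46,0)]⟩⟩,.o ⟨false,(-1),⟨0,[(1,0)]⟩,⟨1,
  [(27,1),(10,0),(6,0)]⟩⟩]⟩) (.Q [0,0,-1,0,2,0,-1,0,-1,-1,1,1] (.p true [0,0,1] [1,0,0,0,-1] (⟨0,
  [(37,0)]⟩,⟨0,[(36,0)]⟩) .k 2 (⟨0,[(29,0)]⟩,⟨0,[(30,0)]⟩) .k (.r 0 ⟨3,[(16,2),(2,0),(2,1),(15,0),
  (2,0)]⟩ ⟨5,[(13,3),(5,1),(7,2),(0,2),(17,0)]⟩)) (.R ⟨0,false,false,false,[0,0,0,0,1],[1,0,-1],[1,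
  0,1],(⟨0,[(31,0)]⟩,⟨0,[(30,0)]⟩),(⟨0,[(37,0)]⟩,⟨0,[(38,0)]⟩),⟨0,[(1,0)]⟩,.k,.k,(.r 0 ⟨0,[(43,0)]⟩
  ⟨4,[(0,1),(11,1),(1,2),(2,3),(10,0),(0,0),(17,1)]⟩),.k,.k,.k,⟨true,0,⟨0,[(17,0)]⟩,⟨25,[(4,4),(0,
  3),(8,9),(10,0),(8,0),(7,1)]⟩⟩,⟨false,2,⟨0,[(0,0)]⟩,⟨2,[(2,1),(0,0),(1,0),(19,0)]⟩⟩,⟨false,1,⟨3,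
  [(24,0),(0,0),(10,1),(10,3)]⟩,⟨23,[(0,0),(4,4),(3,0),(8,3),(1,3),(2,10),(15,5),(2,3)]⟩⟩,⟨true,2,
  ⟨2,[(0,1),(3,0),(6,1),(16,0),(18,0)]⟩,⟨0,[(2,0),(7,0),(9,0),(2,1),(15,0)]⟩⟩,⟨false,0,⟨0,[]⟩,⟨0,
  []⟩⟩,⟨false,0,⟨0,[]⟩,⟨0,[]⟩⟩,[.e ⟨false,0,⟨0,[]⟩,⟨1,[(0,0),(28,0),(2,0)]⟩⟩ ⟨false,2,⟨25,[(0,25),
  (3,4),(0,3),(8,9),(10,0),(8,0),(7,1)]⟩,⟨0,[(2,0),(10,0)]⟩⟩,.o ⟨false,1,⟨1,[(15,1),(23,0),(5,1),(1,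
  0)]⟩,⟨0,[(33,0)]⟩⟩,.a ⟨true,(-1),⟨0,[(3,0)]⟩,⟨0,[(28,0)]⟩⟩ ⟨true,0,⟨3,[(24,0),(0,0),(10,1)]⟩,⟨23,
  [(0,0),(4,4),(3,0),(8,3),(1,3),(2,10),(15,5),(2,3)]⟩⟩ ⟨false,2,⟨2,[(0,1),(3,0),(6,1),(16,0),(18,
  0)]⟩,⟨0,[(2,0),(10,0)]⟩⟩,.o ⟨false,(-1),⟨0,[(2,0)]⟩,⟨4,[(0,2),(4,0),(19,0),(2,1),(10,1)]⟩⟩]⟩) (.R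
  ⟨0,false,false,false,[0,0,0,0,1],[1,0,0,0,-1],[1,1,1],(⟨0,[(31,0)]⟩,⟨0,[(30,0)]⟩),(⟨0,[(30,0)]⟩,
  ⟨0,[(31,0)]⟩),⟨0,[(1,0)]⟩,.k,.k,(.r 0 ⟨0,[(43,0)]⟩ ⟨0,[(17,0),(3,0),(25,0)]⟩),.k,.k,.k,⟨true,(-1),
  ⟨1,[(4,0),(18,1),(0,0),(8,0)]⟩,⟨0,[(47,0)]⟩⟩,⟨false,3,⟨1,[(28,3),(10,0),(6,0)]⟩,⟨0,[(0,0),(1,0),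
  (12,0),(4,0),(24,2)]⟩⟩,⟨true,0,⟨3,[(24,0),(0,0),(10,1)]⟩,⟨11,[(5,1),(12,1),(1,1),(2,5),(15,2),(2,
  1),(3,0)]⟩⟩,⟨false,4,⟨1,[(28,3),(10,0),(7,2)]⟩,⟨0,[(0,0),(1,0),(15,0),(1,0),(2,0),(21,1)]⟩⟩,
  ⟨false,0,⟨0,[]⟩,⟨0,[]⟩⟩,⟨false,0,⟨0,[]⟩,⟨0,[]⟩⟩,[.o ⟨false,2,⟨1,[(28,1),(10,0),(7,0)]⟩,⟨2,[(0,0),
  (3,0),(4,1),(7,0),(21,0)]⟩⟩,.e ⟨false,0,⟨0,[]⟩,⟨1,[(28,0),(0,0),(16,0)]⟩⟩ ⟨false,4,⟨1,[(28,3),(10,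
  0),(6,0),(0,1)]⟩,⟨0,[(0,0),(1,0),(15,0),(1,0),(2,0),(21,1)]⟩⟩,.a ⟨true,(-1),⟨0,[(3,0)]⟩,⟨0,[(28,
  0)]⟩⟩ ⟨false,0,⟨3,[(24,0),(0,0),(10,1)]⟩,⟨1,[(46,0),(0,0)]⟩⟩ ⟨true,3,⟨1,[(28,3),(10,0),(7,0)]⟩,⟨0,
  [(0,0),(1,0),(15,0),(1,0),(2,0),(21,1)]⟩⟩,.o ⟨false,(-1),⟨0,[(2,0)]⟩,⟨1,[(28,1),(10,0),(6,
  0)]⟩⟩]⟩))) (.Q [0,0,0,0,0,1,0,0,0,0,0,-1] (.ed true [1,-1,0,0,1] .k) (.Q [0,-1,0,2,1,0,0,0,-1,0,0,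
  1] (.p true [0,0,0,0,1] [] (⟨0,[(30,0)]⟩,⟨0,[(29,0)]⟩) .k 0 (⟨0,[]⟩,⟨0,[]⟩) .k .k) (.R ⟨0,false,
  false,true,[0,0,0,0,1],[1,-1],[1,1],(⟨0,[(31,0)]⟩,⟨0,[(30,0)]⟩),(⟨0,[(40,0)]⟩,⟨0,[(41,0)]⟩),⟨0,
  [(1,0)]⟩,.k,.k,(.r 0 ⟨0,[(43,0)]⟩ ⟨3,[(0,1),(23,0),(0,0),(2,0),(0,2),(6,1),(10,0)]⟩),(.r 0 ⟨0,
  [(17,0),(3,0)]⟩ ⟨2,[(14,0),(5,1),(26,0)]⟩),.k,.k,⟨false,0,⟨3,[(0,0),(5,0),(16,0),(15,0)]⟩,⟨19,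
  [(14,3),(5,11),(4,1),(2,6),(0,6),(4,3),(4,0)]⟩⟩,⟨true,1,⟨0,[(2,0),(21,0)]⟩,⟨0,[(3,0)]⟩⟩,⟨true,0,
  ⟨0,[]⟩,⟨0,[(49,0)]⟩⟩,⟨false,2,⟨7,[(2,5),(1,1),(15,1),(3,4),(0,0),(2,1),(10,0),(7,4)]⟩,⟨0,[(6,
  0)]⟩⟩,⟨false,0,⟨0,[]⟩,⟨0,[]⟩⟩,⟨false,0,⟨0,[]⟩,⟨0,[]⟩⟩,[.e ⟨false,0,⟨3,[(2,0),(6,0),(13,0),(15,0),
  (3,1)]⟩,⟨1,[(28,0),(0,0),(17,0)]⟩⟩ ⟨false,1,⟨0,[(0,0),(3,0),(5,0),(9,0),(2,0),(15,0)]⟩,⟨2,[(0,0),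
  (5,0),(9,1),(12,0),(17,1)]⟩⟩,.o ⟨false,1,⟨15,[(4,3),(15,3),(3,3),(0,1),(2,4),(0,4),(9,4),(7,1)]⟩,
  ⟨0,[(45,0)]⟩⟩,.a ⟨true,(-1),⟨0,[(3,0)]⟩,⟨0,[(28,0)]⟩⟩ ⟨false,0,⟨0,[]⟩,⟨1,[(28,0),(0,0),(17,0)]⟩⟩
  ⟨true,1,⟨1,[(2,1),(1,0),(19,0),(8,0)]⟩,⟨0,[(6,0)]⟩⟩,.e ⟨true,0,⟨3,[(2,0),(6,0),(13,0),(15,0),(3,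
  1)]⟩,⟨3,[(24,0),(0,0),(10,1)]⟩⟩ ⟨true,1,⟨0,[(0,0),(3,0),(5,0),(9,0),(2,0),(15,0)]⟩,⟨2,[(3,0),(2,
  0),(5,0),(1,0),(2,0),(18,0)]⟩⟩]⟩) (.S ⟨1,0,[0,-1],[1,0,0,0,-1],[],(⟨0,[(30,0)]⟩,⟨0,[(31,0)]⟩),⟨1,
  [(1,0),(6,0),(17,0),(3,0)]⟩,.k,(.r (-1) ⟨2,[(14,0),(5,1),(26,0)]⟩ ⟨0,[(17,0),(3,0)]⟩),⟨true,0,⟨0,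
  [(49,0)]⟩,⟨0,[]⟩⟩,⟨false,1,⟨1,[(28,0),(0,0),(17,0)]⟩,⟨0,[]⟩⟩,⟨false,0,⟨0,[(45,0)]⟩,⟨0,[(44,0),(2,
  0)]⟩⟩,⟨true,0,⟨0,[(45,0)]⟩,⟨0,[(44,0)]⟩⟩,[.o ⟨false,2,⟨1,[(28,1),(10,0),(7,0)]⟩,⟨1,[(0,0),(5,0),
  (16,0),(15,0)]⟩⟩,.a ⟨true,2,⟨0,[(28,0),(18,0)]⟩,⟨3,[(0,2),(5,0),(16,4),(15,0)]⟩⟩ ⟨false,1,⟨1,[(46,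
  0),(0,0)]⟩,⟨0,[(49,0)]⟩⟩ ⟨true,1,⟨0,[(47,0)]⟩,⟨1,[(4,0),(18,1),(0,0),(8,0)]⟩⟩,.e ⟨false,1,⟨1,[(28,
  0),(0,0),(17,0)]⟩,⟨0,[]⟩⟩ ⟨false,1,⟨0,[(47,0)]⟩,⟨0,[(49,0)]⟩⟩,.o ⟨false,1,⟨0,[(2,0),(21,0)]⟩,⟨0,
  [(7,0)]⟩⟩]⟩)) (.Q [0,1,0,0,-1,0,0,0,1,0,0,-1] (.p false [0,0,0,0,1] [] (⟨0,[(30,0)]⟩,⟨0,[(29,
  0)]⟩) .k 0 (⟨0,[]⟩,⟨0,[]⟩) .k .k) (.Q [0,2,0,0,-2,0,0,0,1,1,0,-1] (.p false [0,0,0,0,1] [1] (⟨0,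
  [(31,0)]⟩,⟨0,[(30,0)]⟩) .k 1 (⟨0,[]⟩,⟨0,[]⟩) .k .k) (.Q [0,0,0,0,0,-1,0,0,0,1,0,-1] (.ed true [0,
  1,0,0,1] .k) (.S ⟨1,0,[0,-1],[1,0,0,0,-1],[],(⟨0,[(32,0)]⟩,⟨0,[(33,0)]⟩),⟨0,[(0,0)]⟩,.k,(.r (-1)
  ⟨2,[(16,0),(5,1),(26,0)]⟩ ⟨0,[(19,0),(3,0)]⟩),⟨true,0,⟨0,[(51,0)]⟩,⟨0,[]⟩⟩,⟨false,1,⟨1,[(30,0),(0,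
  0),(17,0)]⟩,⟨0,[]⟩⟩,⟨false,0,⟨0,[(47,0)]⟩,⟨0,[(46,0),(2,0)]⟩⟩,⟨true,0,⟨0,[(47,0)]⟩,⟨0,[(46,0)]⟩⟩,
  [.o ⟨false,2,⟨1,[(30,1),(10,0),(7,0)]⟩,⟨0,[(2,0)]⟩⟩,.a ⟨true,2,⟨0,[(30,0),(18,0)]⟩,⟨0,[(1,0)]⟩⟩
  ⟨false,1,⟨1,[(48,0),(0,0)]⟩,⟨0,[(51,0)]⟩⟩ ⟨true,1,⟨0,[(49,0)]⟩,⟨1,[(6,0),(18,1),(0,0),(8,0)]⟩⟩,.e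
  ⟨false,1,⟨1,[(30,0),(0,0),(17,0)]⟩,⟨0,[]⟩⟩ ⟨false,1,⟨0,[(49,0)]⟩,⟨0,[(51,0)]⟩⟩,.o ⟨false,1,⟨0,[(4,
  0),(21,0)]⟩,⟨0,[(9,0)]⟩⟩]⟩) (.Q [0,0,-1,0,0,0,-1,0,1,0,1,-1] (.p true [0,0,1] [0,0,0,0,1] (⟨0,
  [(40,0)]⟩,⟨0,[(39,0)]⟩) .k 2 (⟨0,[(33,0)]⟩,⟨0,[(32,0)]⟩) .k (.r (-1) ⟨1,[(19,1),(28,0),(0,0)]⟩ ⟨3,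
  [(6,0),(16,1),(3,0),(8,0)]⟩)) (.R ⟨0,false,false,false,[1,0,0,0,-1],[1,0,-1],[1,0,1],(⟨0,[(33,
  0)]⟩,⟨0,[(34,0)]⟩),(⟨0,[(40,0)]⟩,⟨0,[(41,0)]⟩),⟨0,[(1,0)]⟩,.k,.k,(.r (-1) ⟨2,[(17,0),(5,1),(26,
  0)]⟩ ⟨0,[(20,0),(3,0)]⟩),.k,.k,.k,⟨true,0,⟨0,[(20,0)]⟩,⟨25,[(7,4),(0,3),(8,9),(10,0),(8,0),(7,
  1)]⟩⟩,⟨false,0,⟨0,[(0,0)]⟩,⟨1,[(5,1),(21,0),(0,0)]⟩⟩,⟨false,0,⟨3,[(27,0),(0,0),(10,1)]⟩,⟨1,[(49,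
  0),(0,0)]⟩⟩,⟨true,(-1),⟨1,[(0,0),(1,0),(11,0),(6,0)]⟩,⟨0,[(5,0),(14,0),(1,0)]⟩⟩,⟨false,0,⟨0,[]⟩,
  ⟨0,[]⟩⟩,⟨false,0,⟨0,[]⟩,⟨0,[]⟩⟩,[.e ⟨false,0,⟨0,[]⟩,⟨1,[(31,0),(0,0),(16,0)]⟩⟩ ⟨false,0,⟨5,[(0,4),
  (6,0),(0,0),(1,0),(6,1),(19,0)]⟩,⟨0,[(5,0),(14,0),(1,0)]⟩⟩,.o ⟨false,1,⟨1,[(18,1),(23,0),(5,1),(1,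
  0)]⟩,⟨0,[(36,0)]⟩⟩,.a ⟨true,1,⟨0,[(31,0)]⟩,⟨0,[(6,0)]⟩⟩ ⟨true,0,⟨3,[(27,0),(0,0),(10,1)]⟩,⟨7,[(0,
  0),(1,2),(2,3),(2,0),(33,1),(2,0)]⟩⟩ ⟨false,0,⟨2,[(0,1),(5,0),(0,0),(6,1),(35,0)]⟩,⟨0,[(5,0),(14,
  0),(1,0)]⟩⟩,.o ⟨false,1,⟨0,[(5,0),(21,0)]⟩,⟨0,[(10,0)]⟩⟩]⟩) (.Q [0,-2,0,0,2,0,-1,-1,-1,-1,1,1]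
  (.p true [0,0,1] [1,0,0,0,-1] (⟨0,[(41,0)]⟩,⟨0,[(40,0)]⟩) .k 2 (⟨0,[(33,0)]⟩,⟨0,[(34,0)]⟩) .k (.r
  0 ⟨3,[(20,2),(2,0),(2,1),(15,0),(2,0)]⟩ ⟨5,[(17,3),(5,1),(7,2),(0,2),(17,0)]⟩)) (.Q [0,0,1,0,1,0,
  -1,0,-1,-1,1,1] (.p true [0,0,1] [1,0,0,0,-1] (⟨0,[(42,0)]⟩,⟨0,[(41,0)]⟩) .k 2 (⟨0,[(34,0)]⟩,⟨0,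
  [(35,0)]⟩) .k (.r 0 ⟨3,[(21,2),(2,0),(2,1),(15,0),(2,0)]⟩ ⟨8,[(0,2),(17,1),(5,0),(4,2),(3,2),(4,
  2),(12,1)]⟩)) (.Q [0,0,0,1,1,0,-1,-1,-1,-1,1,1] (.p true [0,0,1] [1,0,0,0,-1] (⟨0,[(43,0)]⟩,⟨0,
  [(42,0)]⟩) .k 2 (⟨0,[(35,0)]⟩,⟨0,[(36,0)]⟩) .k (.r 0 ⟨3,[(22,2),(2,0),(2,1),(15,0),(2,0)]⟩ ⟨8,[(1,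
  2),(17,1),(5,0),(4,2),(3,2),(4,2),(12,1)]⟩)) (.R ⟨0,false,false,false,[1,0,0,0,-1],[0,-1,1],[1,0,
  -1,-1,0,0,0,1],(⟨0,[(36,0)]⟩,⟨0,[(37,0)]⟩),(⟨0,[(33,0)]⟩,⟨0,[(43,0),(3,0)]⟩),⟨0,[(4,0)]⟩,.k,.k,
  (.r (-1) ⟨2,[(20,0),(5,1),(26,0)]⟩ ⟨3,[(1,0),(16,1),(8,1),(2,0),(3,0),(7,0)]⟩),(.r 0 ⟨0,[(17,0)]⟩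
  ⟨1,[(23,0),(2,0),(7,0),(0,0),(12,0)]⟩),.k,.k,⟨true,0,⟨0,[]⟩,⟨3,[(30,0),(0,0),(10,1)]⟩⟩,⟨false,
  (-1),⟨0,[(13,0),(2,0)]⟩,⟨0,[(1,0),(50,0)]⟩⟩,⟨false,1,⟨3,[(23,1),(2,1),(7,0),(0,0),(16,0)]⟩,⟨0,
  [(17,0)]⟩⟩,⟨true,(-1),⟨4,[(9,1),(6,1),(1,2),(7,1),(1,1),(1,1)]⟩,⟨0,[(0,0)]⟩⟩,⟨false,0,⟨0,[]⟩,⟨0,
  []⟩⟩,⟨false,0,⟨0,[]⟩,⟨0,[]⟩⟩,[.e ⟨false,1,⟨0,[(26,0),(24,0)]⟩,⟨7,[(1,0),(16,1),(1,3),(6,1),(2,0),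
  (3,0),(7,0)]⟩⟩ ⟨false,0,⟨5,[(9,0),(6,1),(1,1),(7,3),(4,0),(3,2),(17,0)]⟩,⟨0,[(0,0)]⟩⟩,.o ⟨false,1,
  ⟨3,[(23,1),(1,1),(0,1),(3,0),(0,0),(21,1)]⟩,⟨0,[(0,0),(5,0)]⟩⟩,.a ⟨true,1,⟨0,[(34,0)]⟩,⟨0,[(9,
  0)]⟩⟩ ⟨true,1,⟨3,[(23,1),(2,1),(7,0),(0,0),(16,0)]⟩,⟨4,[(0,1),(2,1),(1,3),(11,2),(27,0)]⟩⟩ ⟨false,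
  0,⟨2,[(9,0),(6,1),(1,0),(7,1),(3,0),(4,0),(17,1)]⟩,⟨0,[(0,0)]⟩⟩,.o ⟨false,1,⟨3,[(1,2),(1,0),(27,
  0),(13,0)]⟩,⟨0,[(13,0)]⟩⟩]⟩) (.R ⟨0,false,false,true,[1,0,0,0,-1],[0,-1,1],[1,1,-1,-1,0,0,0,1],
  (⟨0,[(36,0)]⟩,⟨0,[(37,0)]⟩),(⟨0,[(33,0)]⟩,⟨0,[(43,0),(3,0)]⟩),⟨0,[(4,0)]⟩,.k,.k,(.r (-1) ⟨2,[(20,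
  0),(5,1),(26,0)]⟩ ⟨3,[(1,0),(16,1),(8,1),(2,0),(3,0),(7,0)]⟩),(.r 0 ⟨0,[(17,0)]⟩ ⟨1,[(23,0),(2,0),
  (7,0),(0,0),(12,0)]⟩),.k,.k,⟨true,0,⟨0,[]⟩,⟨3,[(30,0),(0,0),(10,1)]⟩⟩,⟨false,(-1),⟨4,[(0,2),(5,0),
  (4,0),(6,0),(1,1)]⟩,⟨0,[(1,0),(50,0)]⟩⟩,⟨true,0,⟨6,[(1,2),(3,3),(2,0),(17,3),(2,0),(9,2),(5,0),(2,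
  0)]⟩,⟨0,[(17,0)]⟩⟩,⟨false,(-1),⟨2,[(0,1),(17,0),(31,1)]⟩,⟨0,[(2,0),(48,0)]⟩⟩,⟨false,0,⟨0,[]⟩,⟨0,
  []⟩⟩,⟨false,0,⟨0,[]⟩,⟨0,[]⟩⟩,[.o ⟨false,0,⟨5,[(0,0),(2,0),(22,0),(1,0),(1,0),(8,3),(10,0)]⟩,⟨2,
  [(2,1),(9,1),(11,0),(20,0),(5,1)]⟩⟩,.a ⟨true,0,⟨0,[(0,0),(33,0)]⟩,⟨1,[(2,0),(9,0),(11,0),(4,0),
  (21,0)]⟩⟩ ⟨false,1,⟨0,[(26,0),(24,0)]⟩,⟨7,[(1,0),(16,1),(1,3),(6,1),(2,0),(3,0),(7,0)]⟩⟩ ⟨true,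
  (-1),⟨0,[(0,0)]⟩,⟨3,[(1,2),(0,0),(17,0),(6,0),(1,1),(15,0)]⟩⟩,.e ⟨false,1,⟨3,[(23,1),(2,1),(7,0),
  (0,0),(16,0)]⟩,⟨0,[(17,0)]⟩⟩ ⟨false,(-1),⟨0,[(0,0)]⟩,⟨4,[(1,1),(0,3),(15,0),(8,1),(23,1),(0,0)]⟩⟩,
  .o ⟨false,1,⟨3,[(1,2),(1,0),(27,0),(13,0)]⟩,⟨0,[(13,0)]⟩⟩]⟩)) (.I [1,2,3,3,-2] (.R ⟨1,false,false,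
  true,[1,0,-1],[0,0,0,0,1],[],(⟨0,[(43,0)]⟩,⟨0,[(44,0)]⟩),(⟨0,[(37,0)]⟩,⟨0,[(36,0)]⟩),⟨0,[(32,0)]⟩,
  .k,.k,.k,.k,(.r (-1) ⟨0,[(1,2),(1,2),(6,5),(12,2),(2,1),(2,2),(21,11),(1,4)]⟩ ⟨11,[(0,3),(22,11),
  (10,2),(0,2),(12,1),(3,4)]⟩),.k,⟨true,1,⟨0,[(53,0)]⟩,⟨1,[(0,0),(27,0),(21,0)]⟩⟩,⟨false,(-1),⟨0,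
  [(1,0)]⟩,⟨0,[(2,0),(20,0),(24,0)]⟩⟩,⟨false,1,⟨1,[(23,1),(28,0),(0,0)]⟩,⟨25,[(10,4),(0,3),(8,9),
  (10,0),(8,0),(7,1)]⟩⟩,⟨false,(-1),⟨4,[(9,0),(6,0),(1,3),(7,0),(1,0),(1,0)]⟩,⟨0,[(2,0)]⟩⟩,⟨false,1,
  ⟨1,[(23,1),(27,1),(0,0),(0,0)]⟩,⟨6,[(10,0),(5,0),(3,2),(7,3),(24,0)]⟩⟩,⟨true,(-2),⟨0,[(0,0),(0,0),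
  (24,0)]⟩,⟨0,[(2,0),(47,0)]⟩⟩,[.a ⟨true,(-2),⟨0,[(5,0)]⟩,⟨0,[(34,0),(18,0)]⟩⟩ ⟨false,1,⟨1,[(34,0),
  (0,0),(16,0)]⟩,⟨0,[]⟩⟩ ⟨true,(-2),⟨0,[(5,0),(19,0)]⟩,⟨0,[(2,0),(20,0)]⟩⟩,.o ⟨false,(-1),⟨0,[(6,
  0)]⟩,⟨1,[(34,1),(10,0),(7,0)]⟩⟩,.o ⟨false,1,⟨1,[(42,1),(2,0),(6,0)]⟩,⟨0,[(25,0)]⟩⟩,.e ⟨false,1,⟨1,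
  [(52,0),(0,0)]⟩,⟨3,[(30,0),(0,0),(10,1)]⟩⟩ ⟨false,(-1),⟨3,[(1,1),(3,0),(7,0),(17,0),(16,0)]⟩,⟨0,
  [(2,0),(20,0)]⟩⟩]⟩) (.Q [0,0,0,1,1,0,-1,-1,-1,-1,1,1] (.p true [0,0,1] [1,0,0,0,-1] (⟨0,[(44,0)]⟩,
  ⟨0,[(43,0)]⟩) .k 2 (⟨0,[(36,0)]⟩,⟨0,[(37,0)]⟩) .k (.r 0 ⟨3,[(23,2),(2,0),(2,1),(15,0),(2,0)]⟩ ⟨19,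
  [(0,0),(1,6),(17,2),(10,6),(3,6),(4,6),(12,3)]⟩)) (.R ⟨1,true,false,true,[0,0,1],[1,0,0,0,-1],[1,
  1,0,-1,0,0,0,1],(⟨0,[(45,0)]⟩,⟨0,[(44,0)]⟩),(⟨0,[(37,0)]⟩,⟨0,[(38,0)]⟩),⟨0,[(34,0)]⟩,.k,.k,.k,.k,
  (.r (-1) ⟨1,[(24,0),(2,0),(7,0),(0,0),(12,0)]⟩ ⟨0,[(18,0)]⟩),.k,⟨true,0,⟨9,[(6,1),(2,1),(14,8),(2,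
  0),(1,3),(16,0),(2,0)]⟩,⟨0,[(18,0)]⟩⟩,⟨false,2,⟨2,[(0,1),(2,0),(20,1),(2,0),(21,0),(3,0)]⟩,⟨1,[(2,
  0),(14,0),(18,0)]⟩⟩,⟨true,0,⟨0,[(51,0)]⟩,⟨0,[(52,0)]⟩⟩,⟨false,2,⟨5,[(3,3),(31,2),(0,0),(4,1),(4,
  0)]⟩,⟨0,[(2,0),(21,0)]⟩⟩,⟨false,0,⟨0,[]⟩,⟨1,[(35,0),(0,0),(17,0)]⟩⟩,⟨true,1,⟨0,[(0,0)]⟩,⟨2,[(1,0),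
  (4,0),(10,0),(1,1),(4,0),(4,0),(1,0)]⟩⟩,[]⟩) (.R ⟨0,false,false,true,[1,0,0,0,-1],[0,-1,1],[],(⟨0,
  [(37,0)]⟩,⟨0,[(38,0)]⟩),(⟨0,[(34,0)]⟩,⟨0,[(44,0),(3,0)]⟩),⟨0,[(5,0)]⟩,.k,.k,(.r (-1) ⟨5,[(1,1),
  (33,0),(0,0),(17,0)]⟩ ⟨0,[(24,0),(3,0)]⟩),(.r 0 ⟨0,[(18,0)]⟩ ⟨1,[(24,0),(2,0),(7,0),(0,0),(12,
  0)]⟩),.k,.k,⟨true,0,⟨0,[(18,0)]⟩,⟨9,[(6,1),(2,1),(14,8),(2,0),(1,3),(16,0),(2,0)]⟩⟩,⟨false,(-1),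
  ⟨13,[(0,5),(1,3),(3,0),(12,1),(1,3),(10,0),(3,0)]⟩,⟨1,[(9,1),(33,1),(2,0),(6,0)]⟩⟩,⟨true,0,⟨0,
  [(56,0)]⟩,⟨0,[]⟩⟩,⟨false,(-1),⟨2,[(0,1),(18,0),(31,1)]⟩,⟨0,[(3,0),(48,0)]⟩⟩,⟨false,0,⟨0,[]⟩,⟨0,
  []⟩⟩,⟨false,0,⟨0,[]⟩,⟨0,[]⟩⟩,[.o ⟨false,0,⟨5,[(0,0),(3,0),(22,0),(1,0),(1,0),(8,3),(10,0)]⟩,⟨2,
  [(3,1),(9,1),(11,0),(20,0),(5,1)]⟩⟩,.a ⟨true,0,⟨0,[(0,0),(34,0)]⟩,⟨1,[(3,0),(9,0),(11,0),(4,0),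
  (21,0)]⟩⟩ ⟨false,1,⟨1,[(53,0),(0,0)]⟩,⟨0,[(56,0)]⟩⟩ ⟨true,(-1),⟨0,[(0,0)]⟩,⟨2,[(3,1),(5,0),(20,2),
  (0,1),(9,0),(4,0)]⟩⟩,.e ⟨false,1,⟨1,[(35,0),(0,0),(17,0)]⟩,⟨0,[]⟩⟩ ⟨false,(-1),⟨0,[(0,0)]⟩,⟨2,[(3,
  2),(20,0),(3,0),(20,0),(2,1)]⟩⟩,.o ⟨false,1,⟨0,[(9,0),(21,0)]⟩,⟨0,[(14,0)]⟩⟩]⟩)))) (.R ⟨0,false,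
  false,true,[1,0,0,0,-1],[2,-1,0,0,-1],[0,0,0,-1],(⟨0,[(34,0)]⟩,⟨0,[(35,0)]⟩),(⟨0,[(34,0),(9,0)]⟩,
  ⟨0,[(2,0)]⟩),⟨0,[(2,0)]⟩,.k,(.r (-1) ⟨2,[(18,0),(5,1),(26,0)]⟩ ⟨0,[(21,0),(3,0)]⟩),(.r (-1) ⟨2,
  [(18,0),(5,1),(26,0)]⟩ ⟨0,[(21,0),(3,0)]⟩),.k,.k,.k,⟨true,0,⟨3,[(28,0),(0,0),(10,1)]⟩,⟨0,[]⟩⟩,
  ⟨false,1,⟨1,[(32,0),(0,0),(9,0)]⟩,⟨7,[(6,0),(6,0),(5,1),(4,1),(2,4),(8,1),(14,2)]⟩⟩,⟨true,0,⟨0,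
  [(48,0)]⟩,⟨0,[(49,0)]⟩⟩,⟨false,1,⟨15,[(8,3),(15,3),(3,3),(0,1),(2,4),(0,4),(9,4),(7,1)]⟩,⟨0,[(27,
  0),(23,0)]⟩⟩,⟨false,0,⟨0,[]⟩,⟨0,[]⟩⟩,⟨false,0,⟨0,[]⟩,⟨0,[]⟩⟩,[.o ⟨false,2,⟨31,[(1,5),(6,7),(15,7),
  (3,4),(0,0),(2,25),(10,25),(7,3)]⟩,⟨0,[(10,0)]⟩⟩,.e ⟨false,1,⟨2,[(18,0),(5,1),(26,0)]⟩,⟨2,[(21,0),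
  (3,0),(20,0),(2,1)]⟩⟩ ⟨false,2,⟨5,[(18,1),(5,3),(7,2),(0,2),(9,2),(7,1)]⟩,⟨0,[(27,0)]⟩⟩,.a ⟨true,
  1,⟨0,[(32,0)]⟩,⟨0,[(7,0)]⟩⟩ ⟨false,1,⟨0,[(48,0),(2,0)]⟩,⟨0,[(49,0)]⟩⟩ ⟨true,1,⟨15,[(8,3),(15,3),
  (3,3),(0,1),(2,4),(0,4),(9,4),(7,1)]⟩,⟨0,[(27,0)]⟩⟩,.o ⟨false,1,⟨0,[(6,0),(21,0)]⟩,⟨0,[(11,
  0)]⟩⟩]⟩)))) (.R ⟨2,true,false,false,[0,1],[1,0,0,0,-1],[0,0,1,1],(⟨0,[]⟩,⟨0,[]⟩),(⟨0,[(31,0)]⟩,⟨0,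
  [(32,0)]⟩),⟨0,[]⟩,.k,.k,.k,(.r 0 ⟨0,[(18,0),(3,0)]⟩ ⟨2,[(15,0),(5,1),(26,0)]⟩),.k,.k,⟨false,0,⟨2,
  [(18,0),(3,0),(20,0),(2,1)]⟩,⟨2,[(15,0),(5,1),(26,0)]⟩⟩,⟨true,1,⟨0,[(3,0),(21,0)]⟩,⟨0,[(4,0)]⟩⟩,
  ⟨false,1,⟨1,[(29,0),(0,0),(17,0)]⟩,⟨0,[]⟩⟩,⟨true,2,⟨0,[(0,0),(44,0)]⟩,⟨0,[(1,0),(22,0)]⟩⟩,⟨true,0,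
  ⟨0,[(46,0)]⟩,⟨0,[(45,0)]⟩⟩,⟨false,2,⟨0,[(0,0)]⟩,⟨0,[(17,0)]⟩⟩,[]⟩)) (.R ⟨1,false,false,false,[1,0,
  -1],[0,0,0,0,1],[0,0,0,0,0,0,0,-1],(⟨0,[(37,0)]⟩,⟨0,[(38,0)]⟩),(⟨0,[(31,0)]⟩,⟨0,[(30,0)]⟩),⟨0,
  [(26,0)]⟩,.k,.k,.k,.k,(.r (-1) ⟨0,[(4,2),(5,2),(9,1),(24,8),(1,1)]⟩ ⟨2,[(17,3),(3,0),(20,0),(2,
  1)]⟩),.k,⟨false,1,⟨5,[(14,3),(5,1),(25,2),(0,0)]⟩,⟨3,[(17,2),(2,0),(2,1),(15,0),(2,0)]⟩⟩,⟨true,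
  (-1),⟨0,[(3,0),(15,0)]⟩,⟨1,[(0,1),(16,0),(0,0),(4,0),(12,0),(2,0)]⟩⟩,⟨false,1,⟨1,[(28,0),(0,0),
  (17,0)]⟩,⟨0,[]⟩⟩,⟨true,(-1),⟨4,[(3,0),(6,0),(1,3),(7,0),(1,0),(1,0)]⟩,⟨0,[(0,0),(17,0),(26,0)]⟩⟩,
  ⟨true,0,⟨0,[(45,0)]⟩,⟨0,[(44,0)]⟩⟩,⟨true,(-1),⟨0,[(12,0)]⟩,⟨0,[(0,0),(17,0)]⟩⟩,[.a ⟨true,(-1),⟨0,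
  [(16,0)]⟩,⟨0,[(0,0)]⟩⟩ ⟨true,0,⟨25,[(4,4),(0,3),(8,9),(10,0),(8,0),(7,1)]⟩,⟨0,[(17,0)]⟩⟩ ⟨false,
  (-1),⟨2,[(7,0),(1,1),(0,0),(8,1),(2,0)]⟩,⟨1,[(2,1),(33,1),(2,0),(7,0)]⟩⟩,.a ⟨true,(-1),⟨0,[(3,
  0)]⟩,⟨0,[(28,0)]⟩⟩ ⟨false,1,⟨5,[(14,3),(5,1),(25,2),(0,0)]⟩,⟨3,[(17,2),(2,0),(2,1),(15,0),(2,
  0)]⟩⟩ ⟨true,(-1),⟨0,[(3,0),(15,0)]⟩,⟨1,[(0,1),(16,0),(0,0),(4,0),(12,0),(2,0)]⟩⟩,.o ⟨false,1,⟨1,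
  [(36,1),(2,0),(6,0)]⟩,⟨0,[(19,0)]⟩⟩,.a ⟨true,0,⟨0,[(36,0)]⟩,⟨0,[(32,0)]⟩⟩ ⟨false,1,⟨5,[(14,3),(5,
  1),(25,2),(0,0)]⟩,⟨0,[(17,0)]⟩⟩ ⟨true,(-1),⟨2,[(7,0),(1,1),(0,0),(8,1),(2,0)]⟩,⟨1,[(0,1),(16,0),
  (0,0),(4,0),(12,0),(2,0)]⟩⟩]⟩)))) (.Q [0,0,0,0,0,-1,0,0,0,0,0,1] (.ed false [1,-1,0,0,1] .k) (.S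
  ⟨1,0,[0,1],[0,0,0,0,1],[0,2],(⟨0,[(29,0)]⟩,⟨0,[(28,0)]⟩),⟨0,[(0,0)]⟩,.k,(.r 0 ⟨0,[(41,0)]⟩ ⟨0,
  [(15,0),(3,0),(25,0)]⟩),⟨true,0,⟨0,[(47,0)]⟩,⟨0,[]⟩⟩,⟨false,1,⟨1,[(26,0),(0,0),(17,0)]⟩,⟨0,[]⟩⟩,
  ⟨false,0,⟨0,[(43,0)]⟩,⟨0,[(42,0),(2,0)]⟩⟩,⟨true,0,⟨0,[(43,0)]⟩,⟨0,[(42,0)]⟩⟩,[.e ⟨false,0,⟨0,[(40,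
  0)]⟩,⟨0,[(45,0)]⟩⟩ ⟨false,0,⟨5,[(1,0),(1,0),(3,0),(8,0),(1,0),(2,1),(15,0),(2,0)]⟩,⟨1,[(26,0),(0,
  0),(17,0)]⟩⟩,.o ⟨false,0,⟨0,[(27,0)]⟩,⟨0,[(1,0)]⟩⟩,.o ⟨false,0,⟨0,[(27,0)]⟩,⟨0,[(1,0)]⟩⟩,.a ⟨true,
  (-1),⟨1,[(4,0),(3,0),(4,0),(1,0),(11,0)]⟩,⟨9,[(1,7),(1,1),(9,1),(4,1),(2,5),(4,1),(17,0),(0,2)]⟩⟩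
  ⟨false,0,⟨5,[(1,0),(1,0),(3,0),(8,0),(1,0),(2,1),(15,0),(2,0)]⟩,⟨3,[(22,0),(0,0),(10,1),(10,3)]⟩⟩
  ⟨true,0,⟨5,[(1,0),(1,0),(3,0),(8,0),(1,0),(2,1),(15,0),(2,0)]⟩,⟨3,[(22,0),(0,0),(10,1)]⟩⟩]⟩) (.R
  ⟨0,false,false,false,[0,0,0,0,1],[0,1],[0,0,1,1],(⟨0,[(29,0)]⟩,⟨0,[(28,0)]⟩),(⟨0,[(39,0)]⟩,⟨0,
  [(38,0)]⟩),⟨0,[(0,0)]⟩,.k,.k,(.r 0 ⟨0,[(41,0)]⟩ ⟨0,[(15,0),(3,0),(25,0)]⟩),(.r 0 ⟨0,[(41,0)]⟩ ⟨0,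
  [(15,0),(3,0),(25,0)]⟩),.k,.k,⟨false,1,⟨1,[(26,0),(0,0),(16,0)]⟩,⟨0,[]⟩⟩,⟨true,1,⟨9,[(1,7),(1,1),
  (9,1),(4,1),(2,5),(4,1),(17,0),(0,2)]⟩,⟨3,[(2,1),(1,3),(3,1),(6,1),(6,1),(14,0),(7,0)]⟩⟩,⟨false,1,
  ⟨2,[(9,0),(5,1),(3,0),(23,0),(1,2)]⟩,⟨0,[(41,0)]⟩⟩,⟨true,1,⟨0,[(1,0),(19,0),(23,0)]⟩,⟨0,[(2,0),(7,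
  0)]⟩⟩,⟨false,0,⟨0,[]⟩,⟨0,[]⟩⟩,⟨false,0,⟨0,[]⟩,⟨0,[]⟩⟩,[.o ⟨false,0,⟨0,[(43,0)]⟩,⟨15,[(2,3),(15,3),
  (3,3),(0,1),(2,4),(0,4),(9,4),(7,1)]⟩⟩,.a ⟨true,0,⟨0,[(21,0),(23,0)]⟩,⟨0,[(42,0)]⟩⟩ ⟨false,1,⟨1,
  [(26,0),(0,0),(15,1),(1,0)]⟩,⟨0,[(41,0)]⟩⟩ ⟨true,1,⟨0,[(1,0),(19,0),(23,0)]⟩,⟨3,[(2,2),(1,0),(0,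
  1),(2,1),(1,0),(4,1),(6,0)]⟩⟩,.o ⟨false,0,⟨0,[(27,0)]⟩,⟨0,[(1,0)]⟩⟩,.e ⟨true,0,⟨0,[(43,0)]⟩,⟨0,
  [(42,0)]⟩⟩ ⟨true,1,⟨1,[(1,1),(19,1),(22,0),(0,0)]⟩,⟨3,[(2,2),(1,0),(0,1),(2,1),(1,0),(4,1),(6,
  0)]⟩⟩]⟩)))) (.Q [0,-1,0,2,0,0,1,1,0,1,-1] (.p false [0,0,1] [1] (⟨0,[(33,0)]⟩,⟨0,[(32,0)]⟩) .k 1
  (⟨0,[]⟩,⟨0,[]⟩) .k .k) (.R ⟨1,true,false,false,[1,0,-1],[0,1],[0,0,0,0,0,0,0,-1],(⟨0,[(33,0)]⟩,⟨0,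
  [(34,0)]⟩),(⟨0,[(37,0)]⟩,⟨0,[(36,0)]⟩),⟨0,[(22,0)]⟩,.k,.k,.k,.k,(.r (-1) ⟨4,[(10,3),(5,2),(1,3),
  (23,1)]⟩ ⟨9,[(0,7),(0,10),(6,2),(8,0),(6,2),(13,1)]⟩),.k,⟨false,1,⟨4,[(10,2),(5,0),(1,2),(23,3)]⟩,
  ⟨7,[(0,3),(0,3),(11,2),(2,0),(2,1),(15,0),(2,0)]⟩⟩,⟨true,0,⟨0,[(28,0)]⟩,⟨0,[(1,0)]⟩⟩,⟨false,1,⟨1,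
  [(24,0),(0,0),(17,0)]⟩,⟨0,[]⟩⟩,⟨true,0,⟨10,[(0,3),(7,2),(0,1),(2,0),(0,1),(7,0),(2,3)]⟩,⟨0,[(14,
  0)]⟩⟩,⟨true,0,⟨0,[(41,0)]⟩,⟨0,[(40,0)]⟩⟩,⟨false,0,⟨0,[(0,0)]⟩,⟨1,[(11,1),(23,0),(4,1),(2,0)]⟩⟩,
  []⟩) (.Q [0,0,0,0,0,-2,0,0,0,1,-1] (.p false [0,0,1] [1] (⟨0,[(34,0)]⟩,⟨0,[(33,0)]⟩) .k 1 (⟨0,[]⟩,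
  ⟨0,[]⟩) .k .k) (.I [1,-1,-2,-2,1,0,0,-1] (.S ⟨1,0,[0,1,-1,-1,0,0,0,-1],[1,-1,-1],[1,0,-1,-2,0,0,0,
  -1],(⟨0,[(24,0)]⟩,⟨0,[(36,0),(2,0)]⟩),⟨0,[(1,0)]⟩,.k,(.r (-1) ⟨31,[(0,27),(22,1),(2,2),(0,2),(4,
  3),(4,0),(2,7),(1,7)]⟩ ⟨2,[(3,0),(5,0),(0,0),(4,2),(10,0),(16,3)]⟩),⟨false,1,⟨0,[(42,0),(2,0)]⟩,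
  ⟨0,[(43,0)]⟩⟩,⟨true,0,⟨0,[(47,0)]⟩,⟨0,[]⟩⟩,⟨true,0,⟨0,[]⟩,⟨0,[(47,0)]⟩⟩,⟨false,0,⟨0,[(43,0)]⟩,⟨0,
  [(42,0),(2,0)]⟩⟩,[.o ⟨false,0,⟨0,[(16,0)]⟩,⟨0,[(31,0),(11,0),(1,0)]⟩⟩,.e ⟨false,1,⟨0,[(0,0)]⟩,⟨2,
  [(3,0),(6,0),(4,1),(10,0),(13,0),(2,4)]⟩⟩ ⟨false,1,⟨19,[(0,11),(18,3),(3,1),(8,3),(4,0),(2,1),(3,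
  6)]⟩,⟨0,[(15,0),(27,0)]⟩⟩,.a ⟨true,0,⟨0,[(34,0)]⟩,⟨0,[(30,0)]⟩⟩ ⟨false,1,⟨3,[(0,1),(1,0),(10,0),
  (9,0),(18,0),(2,1)]⟩,⟨0,[(15,0),(27,1)]⟩⟩ ⟨true,0,⟨7,[(0,2),(1,2),(9,0),(4,2),(3,2),(18,2)]⟩,⟨0,
  [(15,0),(27,0)]⟩⟩,.o ⟨false,0,⟨0,[(3,0)]⟩,⟨1,[(30,1),(6,0),(6,0)]⟩⟩]⟩) (.Q [0,1,0,0,-1,0,0,0,1,0,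
  0,-1] (.p false [0,0,0,0,1] [] (⟨0,[(29,0)]⟩,⟨0,[(28,0)]⟩) .k 0 (⟨0,[]⟩,⟨0,[]⟩) .k .k) (.Q [0,0,0,
  0,-2,0,0,0,2,1,0,-2] (.p false [0,0,0,0,1] [1,0,0,0,-1] (⟨0,[(30,0)]⟩,⟨0,[(29,0)]⟩) .k 2 (⟨0,[(29,
  0)]⟩,⟨0,[(30,0)]⟩) .k (.r 0 ⟨0,[(48,1)]⟩ ⟨0,[(46,0)]⟩)) (.Q [0,0,0,0,0,1,0,0,0,0,0,-1] (.ed true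
  [1,-1,0,0,1] .k) (.Q [0,0,-1,0,-1,0,0,0,1,1,0,-1] (.p false [0,0,0,0,1] [1] (⟨0,[(32,0)]⟩,⟨0,[(31,
  0)]⟩) .k 1 (⟨0,[]⟩,⟨0,[]⟩) .k .k) (.S ⟨1,0,[],[1,0,0,0,-1],[0,-1],(⟨0,[(32,0)]⟩,⟨0,[(33,0)]⟩),⟨2,
  [(1,0),(3,0),(4,0),(21,1)]⟩,.k,(.r (-1) ⟨2,[(16,0),(5,1),(26,0)]⟩ ⟨9,[(4,3),(18,1),(2,0),(0,0),(2,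
  3),(0,3),(4,1),(14,1)]⟩),⟨false,1,⟨1,[(30,0),(0,0),(17,0)]⟩,⟨0,[]⟩⟩,⟨true,0,⟨0,[(51,0)]⟩,⟨0,[]⟩⟩,
  ⟨true,0,⟨0,[(47,0)]⟩,⟨0,[(46,0)]⟩⟩,⟨false,0,⟨0,[(47,0)]⟩,⟨0,[(46,0),(2,0)]⟩⟩,[.e ⟨false,1,⟨1,[(48,
  0),(0,0)]⟩,⟨0,[(51,0)]⟩⟩ ⟨false,1,⟨1,[(30,0),(0,0),(16,0)]⟩,⟨0,[]⟩⟩,.o ⟨false,2,⟨1,[(30,1),(10,0),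
  (7,0)]⟩,⟨0,[(3,0)]⟩⟩,.e ⟨false,1,⟨0,[(49,0)]⟩,⟨0,[(51,0)]⟩⟩ ⟨false,1,⟨1,[(30,0),(0,0),(17,0)]⟩,⟨0,
  []⟩⟩,.a ⟨true,1,⟨3,[(26,0),(0,0),(2,3),(7,1)]⟩,⟨0,[(0,0)]⟩⟩ ⟨true,1,⟨1,[(48,0),(0,0)]⟩,⟨1,[(4,0),
  (1,0),(5,0),(31,0)]⟩⟩ ⟨false,1,⟨1,[(48,0),(0,0)]⟩,⟨3,[(26,0),(0,0),(10,1)]⟩⟩]⟩) (.S ⟨1,0,[0,-1],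
  [1,0,0,0,-1],[1,0,0,-1],(⟨0,[(32,0)]⟩,⟨0,[(33,0)]⟩),⟨2,[(1,0),(3,0),(4,0),(21,1)]⟩,.k,(.r (-1) ⟨2,
  [(16,0),(5,1),(26,0)]⟩ ⟨6,[(0,0),(3,2),(18,0),(3,0),(2,1),(0,2),(4,1),(14,0)]⟩),⟨true,0,⟨0,[(46,
  0)]⟩,⟨0,[(47,0)]⟩⟩,⟨false,1,⟨1,[(30,0),(0,0),(17,0)]⟩,⟨0,[]⟩⟩,⟨false,0,⟨0,[]⟩,⟨1,[(30,0),(0,0),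
  (17,0)]⟩⟩,⟨true,0,⟨0,[(47,0)]⟩,⟨0,[(46,0)]⟩⟩,[.o ⟨false,2,⟨1,[(30,1),(10,0),(7,0)]⟩,⟨0,[(3,0)]⟩⟩,
  .a ⟨true,2,⟨0,[(30,0),(18,0)]⟩,⟨5,[(2,1),(0,1),(0,0),(1,0),(5,0),(11,1),(0,3),(18,0)]⟩⟩ ⟨false,1,
  ⟨2,[(16,0),(5,1),(26,0)]⟩,⟨11,[(4,3),(18,3),(6,0),(0,0),(12,1),(3,2)]⟩⟩ ⟨true,1,⟨0,[(49,0)]⟩,⟨1,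
  [(4,0),(1,0),(5,0),(31,0)]⟩⟩,.e ⟨false,1,⟨0,[(46,0),(2,0)]⟩,⟨0,[(47,0)]⟩⟩ ⟨false,1,⟨0,[(49,0)]⟩,
  ⟨0,[(51,0)]⟩⟩,.o ⟨false,1,⟨0,[(0,0)]⟩,⟨0,[(9,0)]⟩⟩]⟩)) (.S ⟨1,0,[0,2],[0,0,0,0,1],[1,1,0,-1],(⟨0,
  [(32,0)]⟩,⟨0,[(31,0)]⟩),⟨0,[(0,0)]⟩,.k,(.r 0 ⟨0,[(44,0)]⟩ ⟨4,[(3,1),(11,0),(13,3),(0,3),(17,2)]⟩),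
  ⟨false,1,⟨0,[(45,0),(2,0)]⟩,⟨0,[(46,0)]⟩⟩,⟨true,0,⟨0,[(50,0)]⟩,⟨0,[]⟩⟩,⟨true,0,⟨0,[]⟩,⟨0,[(50,
  0)]⟩⟩,⟨false,0,⟨0,[(46,0)]⟩,⟨0,[(45,0),(2,0)]⟩⟩,[.e ⟨false,0,⟨0,[(44,0)]⟩,⟨5,[(3,1),(18,1),(6,0),
  (0,0),(16,1),(0,4)]⟩⟩ ⟨false,0,⟨0,[(43,0)]⟩,⟨0,[(48,0)]⟩⟩,.o ⟨false,(-1),⟨0,[(2,0)]⟩,⟨1,[(29,1),
  (10,0),(7,0)]⟩⟩,.a ⟨true,(-1),⟨9,[(1,2),(5,1),(3,0),(2,1),(1,1),(0,1),(19,0),(10,0)]⟩,⟨0,[(29,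
  0)]⟩⟩ ⟨true,0,⟨0,[(45,0)]⟩,⟨0,[(46,0)]⟩⟩ ⟨false,0,⟨0,[(50,0)]⟩,⟨0,[(48,0)]⟩⟩,.o ⟨false,(-1),⟨1,
  [(1,0),(23,0)]⟩,⟨1,[(29,1),(10,0),(6,0)]⟩⟩]⟩)) (.Q [0,2,0,0,-2,0,0,0,1,1,0,-1] (.p false [0,0,0,0,
  1] [1] (⟨0,[(31,0)]⟩,⟨0,[(30,0)]⟩) .k 1 (⟨0,[]⟩,⟨0,[]⟩) .k .k) (.Q [0,0,0,0,0,-1,0,0,0,1,0,-1]
  (.ed true [0,1,0,0,1] .k) (.S ⟨1,0,[0,-1],[1,0,0,0,-1],[],(⟨0,[(32,0)]⟩,⟨0,[(33,0)]⟩),⟨0,[(0,0)]⟩,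
  .k,(.r (-1) ⟨2,[(16,0),(5,1),(26,0)]⟩ ⟨3,[(2,0),(1,1),(22,0),(3,1),(4,1)]⟩),⟨true,0,⟨0,[(51,0)]⟩,
  ⟨0,[]⟩⟩,⟨false,1,⟨1,[(30,0),(0,0),(17,0)]⟩,⟨0,[]⟩⟩,⟨false,0,⟨0,[(47,0)]⟩,⟨0,[(46,0),(2,0)]⟩⟩,
  ⟨true,0,⟨0,[(47,0)]⟩,⟨0,[(46,0)]⟩⟩,[.o ⟨false,2,⟨5,[(2,3),(28,1),(9,0),(7,2)]⟩,⟨0,[(3,0)]⟩⟩,.a
  ⟨true,2,⟨0,[(30,0),(18,0)]⟩,⟨0,[(1,0)]⟩⟩ ⟨false,1,⟨1,[(48,0),(0,0)]⟩,⟨0,[(51,0)]⟩⟩ ⟨true,1,⟨0,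
  [(49,0)]⟩,⟨1,[(1,1),(0,0),(23,0)]⟩⟩,.e ⟨false,1,⟨1,[(30,0),(0,0),(17,0)]⟩,⟨0,[]⟩⟩ ⟨false,1,⟨0,
  [(49,0)]⟩,⟨0,[(51,0)]⟩⟩,.o ⟨false,1,⟨1,[(2,0),(23,0)]⟩,⟨0,[(9,0)]⟩⟩]⟩) (.Q [0,0,0,-1,1,0,-1,-1,-1,
  -1,1,1] (.p true [0,0,1] [1,0,0,0,-1] (⟨0,[(40,0)]⟩,⟨0,[(39,0)]⟩) .k 2 (⟨0,[(32,0)]⟩,⟨0,[(33,
  0)]⟩) .k (.r 0 ⟨2,[(4,0),(14,0),(2,0),(21,0)]⟩ ⟨17,[(2,2),(13,7),(5,3),(4,2),(3,5),(4,5),(12,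
  7)]⟩)) (.R ⟨0,false,false,true,[1,0,0,0,-1],[0,0,1],[0,0,0,-1],(⟨0,[(33,0)]⟩,⟨0,[(34,0)]⟩),(⟨0,
  [(41,0)]⟩,⟨0,[(40,0)]⟩),⟨0,[(1,0)]⟩,.k,.k,(.r (-1) ⟨2,[(17,0),(5,1),(26,0)]⟩ ⟨3,[(3,0),(1,1),(22,
  0),(3,1),(4,1)]⟩),.k,.k,.k,⟨false,1,⟨0,[(7,2),(5,2),(9,1),(24,8),(1,1)]⟩,⟨5,[(5,3),(14,0),(2,0),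
  (21,0),(3,2)]⟩⟩,⟨true,(-1),⟨0,[(10,0),(2,0)]⟩,⟨11,[(0,7),(2,1),(1,5),(17,1),(15,3),(2,0),(7,2)]⟩⟩,
  ⟨true,0,⟨0,[(47,0)]⟩,⟨0,[(48,0)]⟩⟩,⟨false,(-1),⟨5,[(2,0),(10,1),(1,3),(7,1),(3,0),(4,0)]⟩,⟨0,[(0,
  0),(47,0),(1,0)]⟩⟩,⟨false,0,⟨0,[]⟩,⟨0,[]⟩⟩,⟨false,0,⟨0,[]⟩,⟨0,[]⟩⟩,[.o ⟨false,0,⟨0,[(36,0)]⟩,⟨1,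
  [(18,1),(23,0),(5,1),(1,0)]⟩⟩,.e ⟨false,1,⟨2,[(17,0),(5,1),(26,0)]⟩,⟨15,[(3,0),(1,4),(9,0),(8,4),
  (7,0),(4,0),(7,1),(3,3)]⟩⟩ ⟨false,0,⟨2,[(15,1),(7,0),(8,0),(2,0),(14,0)]⟩,⟨0,[(0,0),(47,0)]⟩⟩,.a
  ⟨true,1,⟨0,[(31,0)]⟩,⟨0,[(2,0),(47,0)]⟩⟩ ⟨false,1,⟨0,[(47,0),(2,0)]⟩,⟨0,[(48,0)]⟩⟩ ⟨true,(-1),⟨5,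
  [(2,0),(10,1),(1,3),(7,1),(3,0),(4,0)]⟩,⟨0,[(0,0),(47,0)]⟩⟩,.o ⟨false,1,⟨1,[(3,0),(23,0)]⟩,⟨0,
  [(10,0)]⟩⟩]⟩) (.Q [0,0,0,0,1,0,-1,-1,-1,-1,1,1] (.p true [0,0,1] [1,0,0,0,-1] (⟨0,[(41,0)]⟩,⟨0,
  [(40,0)]⟩) .k 2 (⟨0,[(33,0)]⟩,⟨0,[(34,0)]⟩) .k (.r 0 ⟨2,[(5,0),(14,0),(2,0),(21,0)]⟩ ⟨17,[(3,2),
  (13,7),(5,3),(4,2),(3,5),(4,5),(12,7)]⟩)) (.R ⟨1,true,false,false,[1,0,-1],[0,0,0,0,1],[0,0,0,0,0,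
  0,0,-1],(⟨0,[(41,0)]⟩,⟨0,[(42,0)]⟩),(⟨0,[(35,0)]⟩,⟨0,[(34,0)]⟩),⟨0,[(30,0)]⟩,.k,.k,.k,.k,(.r (-1)
  ⟨0,[(8,2),(5,2),(9,1),(24,8),(1,1)]⟩ ⟨10,[(4,2),(1,3),(9,2),(4,3),(11,2),(6,2),(5,1),(3,0)]⟩),.k,
  ⟨false,1,⟨5,[(18,3),(5,1),(25,2),(0,0)]⟩,⟨2,[(6,0),(14,0),(2,0),(21,0)]⟩⟩,⟨true,(-1),⟨0,[(11,0),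
  (2,0)]⟩,⟨0,[(0,0),(20,0)]⟩⟩,⟨false,1,⟨1,[(32,0),(0,0),(17,0)]⟩,⟨0,[]⟩⟩,⟨true,(-1),⟨4,[(1,0),(12,
  0),(1,2),(4,0),(4,1),(6,0)]⟩,⟨0,[(0,0)]⟩⟩,⟨true,0,⟨0,[(49,0)]⟩,⟨0,[(48,0)]⟩⟩,⟨false,(-1),⟨0,[(1,
  0)]⟩,⟨1,[(4,0),(3,0),(29,0),(12,1)]⟩⟩,[]⟩) (.Q [0,0,-1,0,0,0,-1,0,1,0,1,-1] (.p true [0,0,1] [0,0,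
  0,0,1] (⟨0,[(42,0)]⟩,⟨0,[(41,0)]⟩) .k 2 (⟨0,[(35,0)]⟩,⟨0,[(34,0)]⟩) .k (.r (-1) ⟨1,[(21,1),(28,0),
  (0,0)]⟩ ⟨3,[(8,0),(16,1),(3,0),(8,0)]⟩)) (.R ⟨0,false,false,false,[1,0,0,0,-1],[1,0,-1],[1,0,1],
  (⟨0,[(35,0)]⟩,⟨0,[(36,0)]⟩),(⟨0,[(42,0)]⟩,⟨0,[(43,0)]⟩),⟨0,[(3,0)]⟩,.k,.k,(.r (-1) ⟨2,[(19,0),(5,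
  1),(26,0)]⟩ ⟨3,[(5,0),(1,1),(22,0),(3,1),(4,1)]⟩),.k,.k,.k,⟨true,0,⟨0,[(22,0)]⟩,⟨2,[(19,0),(3,0),
  (13,0)]⟩⟩,⟨false,0,⟨0,[(0,0)]⟩,⟨1,[(5,0),(24,0)]⟩⟩,⟨false,0,⟨3,[(29,0),(0,0),(10,1)]⟩,⟨1,[(51,0),
  (0,0)]⟩⟩,⟨true,(-1),⟨1,[(0,0),(3,0),(11,0),(6,0)]⟩,⟨1,[(5,0),(12,0),(3,0),(1,0)]⟩⟩,⟨false,0,⟨0,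
  []⟩,⟨0,[]⟩⟩,⟨false,0,⟨0,[]⟩,⟨0,[]⟩⟩,[.e ⟨false,0,⟨0,[]⟩,⟨1,[(33,0),(0,0),(16,0)]⟩⟩ ⟨false,0,⟨5,
  [(0,3),(8,0),(2,0),(1,0),(4,1),(0,0),(30,0)]⟩,⟨1,[(5,0),(12,0),(3,0),(1,0)]⟩⟩,.o ⟨false,1,⟨1,[(20,
  1),(23,0),(5,1),(1,0)]⟩,⟨0,[(38,0)]⟩⟩,.a ⟨true,1,⟨0,[(33,0)]⟩,⟨1,[(1,0),(9,0),(8,0)]⟩⟩ ⟨true,0,⟨3,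
  [(29,0),(0,0),(10,1)]⟩,⟨3,[(28,1),(15,0),(3,1),(2,0)]⟩⟩ ⟨false,0,⟨1,[(0,0),(8,0),(1,0),(4,0),(35,
  0)]⟩,⟨1,[(5,0),(12,0),(3,0),(1,0)]⟩⟩,.o ⟨false,1,⟨1,[(5,0),(23,0)]⟩,⟨0,[(12,0)]⟩⟩]⟩) (.Q [0,0,0,1,
  1,0,-1,-1,-1,-1,1,1] (.p true [0,0,1] [1,0,0,0,-1] (⟨0,[(43,0)]⟩,⟨0,[(42,0)]⟩) .k 2 (⟨0,[(35,0)]⟩,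
  ⟨0,[(36,0)]⟩) .k (.r 0 ⟨2,[(7,0),(14,0),(2,0),(21,0)]⟩ ⟨17,[(5,2),(13,7),(5,3),(4,2),(3,5),(4,5),
  (12,7)]⟩)) (.R ⟨1,true,false,true,[0,0,1],[1,0,0,0,-1],[1,1,0,-1,0,0,0,1],(⟨0,[(44,0)]⟩,⟨0,[(43,
  0)]⟩),(⟨0,[(36,0)]⟩,⟨0,[(37,0)]⟩),⟨0,[(33,0)]⟩,.k,.k,.k,.k,(.r (-1) ⟨1,[(23,0),(2,0),(7,0),(0,0),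
  (12,0)]⟩ ⟨0,[(17,0)]⟩),.k,⟨true,0,⟨2,[(8,0),(14,0),(2,0),(1,0),(21,0)]⟩,⟨0,[(17,0)]⟩⟩,⟨false,2,⟨4,
  [(0,3),(5,0),(16,1),(2,1),(8,0),(6,0),(9,1)]⟩,⟨9,[(2,7),(2,0),(7,0),(6,3),(4,0),(2,1),(9,0)]⟩⟩,
  ⟨true,0,⟨0,[(50,0)]⟩,⟨0,[(51,0)]⟩⟩,⟨false,2,⟨7,[(0,1),(5,2),(3,0),(29,4),(4,0),(7,6)]⟩,⟨0,[(2,
  0)]⟩⟩,⟨false,0,⟨0,[]⟩,⟨1,[(34,0),(0,0),(17,0)]⟩⟩,⟨true,1,⟨0,[(0,0)]⟩,⟨0,[(2,0),(47,0)]⟩⟩,[]⟩) (.Q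
  [0,0,2,0,-2,0,1,0,1,1,-1,-1] (.p false [0,0,1] [1,0,0,0,-1] (⟨0,[(44,0)]⟩,⟨0,[(43,0)]⟩) .k 2 (⟨0,
  [(36,0)]⟩,⟨0,[(37,0)]⟩) .k (.r 0 ⟨2,[(8,0),(14,0),(2,0),(21,0)]⟩ ⟨17,[(6,2),(13,7),(5,3),(4,2),(3,
  5),(4,5),(12,7)]⟩)) (.Q [0,-2,0,2,2,0,-1,-1,-1,-1,1,1] (.p true [0,0,1] [1,0,0,0,-1] (⟨0,[(45,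
  0)]⟩,⟨0,[(44,0)]⟩) .k 2 (⟨0,[(37,0)]⟩,⟨0,[(38,0)]⟩) .k (.r 0 ⟨2,[(9,0),(14,0),(2,0),(21,0)]⟩ ⟨17,
  [(7,2),(13,7),(5,3),(4,2),(3,5),(4,5),(12,7)]⟩)) (.Q [0,2,0,-1,-2,0,1,1,1,1,-1,-1] (.p false [0,0,
  1] [1,0,0,0,-1] (⟨0,[(46,0)]⟩,⟨0,[(45,0)]⟩) .k 2 (⟨0,[(38,0)]⟩,⟨0,[(39,0)]⟩) .k (.r 0 ⟨2,[(10,0),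
  (14,0),(2,0),(21,0)]⟩ ⟨17,[(8,2),(13,7),(5,3),(4,2),(3,5),(4,5),(12,7)]⟩)) (.R ⟨1,true,false,
  false,[0,0,0,0,1],[1,1,-1],[0,1],(⟨0,[(40,0)]⟩,⟨0,[(39,0)]⟩),(⟨0,[(46,0),(3,0)]⟩,⟨0,[(36,0)]⟩),⟨2,
  [(7,0),(4,0),(4,0),(22,1)]⟩,.k,.k,(.r 0 ⟨0,[(52,0)]⟩ ⟨1,[(1,0),(24,0),(7,0),(3,0),(6,0)]⟩),(.r
  (-1) ⟨1,[(26,0),(2,0),(7,0),(0,0),(12,0)]⟩ ⟨0,[(20,0)]⟩),(.r (-1) ⟨7,[(26,0),(2,6),(7,0),(0,0),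
  (12,2),(1,1)]⟩ ⟨7,[(1,0),(9,3),(11,5),(2,0),(7,0),(3,0),(6,0),(10,1)]⟩),.k,⟨false,1,⟨4,[(1,0),(19,
  0),(4,0),(2,3),(21,2)]⟩,⟨2,[(1,0),(0,0),(20,0)]⟩⟩,⟨true,2,⟨12,[(1,6),(7,2),(1,2),(2,0),(12,1),(1,
  8),(13,2),(7,2)]⟩,⟨0,[(2,0)]⟩⟩,⟨false,1,⟨1,[(37,0),(0,0),(17,0)]⟩,⟨0,[]⟩⟩,⟨true,2,⟨13,[(1,7),(7,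
  4),(3,0),(24,3),(4,4),(12,1)]⟩,⟨0,[(0,0)]⟩⟩,⟨true,0,⟨0,[(54,0)]⟩,⟨0,[(53,0)]⟩⟩,⟨false,2,⟨0,[(1,
  0)]⟩,⟨0,[(3,0),(49,0)]⟩⟩,[]⟩) (.R ⟨1,true,false,false,[0,0,1],[1,0,0,0,-1],[1,0,0,-1,0,0,0,1],(⟨0,
  [(47,0)]⟩,⟨0,[(46,0)]⟩),(⟨0,[(39,0)]⟩,⟨0,[(40,0)]⟩),⟨0,[(36,0)]⟩,.k,.k,.k,.k,(.r (-1) ⟨1,[(26,0),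
  (2,0),(7,0),(0,0),(12,0)]⟩ ⟨0,[(20,0)]⟩),.k,⟨true,0,⟨2,[(11,0),(14,0),(2,0),(1,0),(21,0)]⟩,⟨0,
  [(20,0)]⟩⟩,⟨false,2,⟨12,[(1,6),(7,2),(1,2),(2,0),(12,1),(1,8),(13,2),(7,2)]⟩,⟨1,[(2,0),(13,0),(24,
  0)]⟩⟩,⟨false,1,⟨0,[(53,0),(2,0)]⟩,⟨0,[(54,0)]⟩⟩,⟨true,2,⟨4,[(0,1),(8,1),(3,0),(24,0),(4,1),(12,
  1)]⟩,⟨0,[(2,0),(26,0),(2,1),(15,0)]⟩⟩,⟨true,0,⟨0,[]⟩,⟨0,[(58,0)]⟩⟩,⟨false,2,⟨0,[(0,0)]⟩,⟨2,[(3,1),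
  (17,0),(31,1)]⟩⟩,[]⟩)) (.I [0,0,-2,0,1,2,-1] (.K ⟨0,[0,0,-1,0,1],0,(-1),(⟨1,[(7,1),(4,0),(33,0)]⟩,
  ⟨0,[(39,0),(7,0)]⟩),.k,(.r 0 ⟨0,[(27,0),(13,0)]⟩ ⟨3,[(11,1),(14,1),(10,1),(0,1),(16,0),(0,2)]⟩),
  (.r 1 ⟨4,[(2,0),(1,0),(15,0),(2,0),(3,1),(4,4),(15,1)]⟩ ⟨3,[(26,1),(2,1),(7,2),(0,2),(16,0),(0,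
  1)]⟩),.k,.k,[⟨2,[(0,1),(13,2),(0,2),(1,1),(6,0),(4,0)]⟩,⟨0,[(4,0)]⟩,⟨4,[(4,0),(4,1),(12,1),(3,0),
  (15,1),(13,0)]⟩,⟨0,[(10,0),(32,0)]⟩]⟩) (.K ⟨0,[0,0,-1,0,1],0,(-1),(⟨1,[(7,1),(4,0),(33,0)]⟩,⟨0,
  [(39,0),(7,0)]⟩),.k,(.r 0 ⟨0,[(27,0),(13,0)]⟩ ⟨3,[(11,1),(14,1),(10,1),(0,1),(16,0),(0,2)]⟩),(.r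
  1 ⟨4,[(2,0),(1,0),(15,0),(2,0),(3,1),(4,4),(15,1)]⟩ ⟨3,[(26,1),(2,1),(7,2),(0,2),(16,0),(0,1)]⟩),
  .k,.k,[⟨0,[(14,0),(0,0),(8,0),(4,0),(24,1)]⟩,⟨0,[(4,0)]⟩,⟨4,[(4,0),(4,1),(12,1),(3,0),(15,1),(13,
  0)]⟩,⟨0,[(10,0),(32,0)]⟩]⟩))) (.Q [0,0,0,2,1,0,-1,-1,-1,-1,1,1] (.p true [0,0,1] [1,0,0,0,-1] (⟨0,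
  [(45,0)]⟩,⟨0,[(44,0)]⟩) .k 2 (⟨0,[(37,0)]⟩,⟨0,[(38,0)]⟩) .k (.r 0 ⟨2,[(9,0),(14,0),(2,0),(21,0)]⟩
  ⟨17,[(7,2),(13,7),(5,3),(4,2),(3,5),(4,5),(12,7)]⟩)) (.R ⟨1,false,false,true,[0,0,0,0,1],[1,1,-1],
  [0,0,1],(⟨0,[(39,0)]⟩,⟨0,[(38,0)]⟩),(⟨0,[(45,0),(3,0)]⟩,⟨0,[(35,0)]⟩),⟨2,[(6,0),(4,0),(4,0),(22,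
  1)]⟩,.k,.k,(.r 0 ⟨0,[(51,0)]⟩ ⟨4,[(10,1),(11,0),(13,3),(0,3),(17,2)]⟩),(.r (-1) ⟨1,[(25,0),(2,0),
  (7,0),(0,0),(12,0)]⟩ ⟨0,[(19,0)]⟩),(.r (-1) ⟨7,[(25,0),(2,6),(7,0),(0,0),(12,2),(1,1)]⟩ ⟨4,[(10,
  2),(11,3),(13,0),(0,0),(17,1)]⟩),.k,⟨true,1,⟨2,[(25,1),(2,0),(23,0),(2,1)]⟩,⟨6,[(0,1),(2,2),(3,4),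
  (11,3),(6,0),(20,0)]⟩⟩,⟨false,2,⟨0,[(1,0)]⟩,⟨0,[(18,0),(18,0)]⟩⟩,⟨false,1,⟨3,[(32,0),(0,0),(10,1),
  (10,3)]⟩,⟨1,[(1,0),(5,0),(19,0)]⟩⟩,⟨false,2,⟨35,[(0,15),(0,4),(6,11),(4,2),(8,3),(14,8),(4,11),
  (12,21)]⟩,⟨0,[(2,0)]⟩⟩,⟨false,1,⟨9,[(10,3),(11,1),(13,2),(0,2),(17,10)]⟩,⟨0,[(51,0)]⟩⟩,⟨true,1,⟨0,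
  [(0,0)]⟩,⟨0,[(2,0),(49,0)]⟩⟩,[.o ⟨false,0,⟨2,[(0,1),(8,1),(16,0)]⟩,⟨5,[(2,1),(5,0),(16,1),(2,1),
  (3,0),(0,1),(13,0),(7,2)]⟩⟩,.e ⟨false,1,⟨1,[(36,0),(0,0),(17,0)]⟩,⟨1,[(1,0),(5,0),(19,0)]⟩⟩
  ⟨false,2,⟨12,[(0,3),(0,7),(6,0),(13,2),(6,1),(6,3),(0,4),(4,0)]⟩,⟨0,[(2,0)]⟩⟩,.e ⟨true,0,⟨3,[(32,
  0),(0,0),(10,1)]⟩,⟨1,[(1,0),(5,0),(19,0)]⟩⟩ ⟨true,1,⟨13,[(0,7),(7,2),(3,0),(19,1),(9,4),(7,3)]⟩,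
  ⟨0,[(2,0)]⟩⟩,.a ⟨true,(-1),⟨8,[(2,4),(11,0),(5,0),(1,2),(1,1),(19,5)]⟩,⟨8,[(1,4),(1,3),(17,1),(1,
  1),(7,1),(8,0),(14,0)]⟩⟩ ⟨false,1,⟨1,[(36,0),(0,0),(17,0)]⟩,⟨0,[]⟩⟩ ⟨true,1,⟨0,[(0,0),(50,0)]⟩,⟨3,
  [(2,3),(29,0),(0,0),(10,1)]⟩⟩]⟩) (.K ⟨0,[0,0,-1,0,1],0,(-1),(⟨1,[(6,1),(4,0),(33,0)]⟩,⟨0,[(38,0),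
  (7,0)]⟩),.k,(.r 0 ⟨0,[(26,0),(13,0)]⟩ ⟨13,[(1,1),(8,5),(9,1),(4,5),(10,6),(0,6),(17,10)]⟩),(.r 1
  ⟨2,[(3,0),(3,0),(11,1),(6,0),(4,1),(15,0)]⟩ ⟨8,[(1,0),(18,0),(4,2),(2,4),(7,6),(0,6),(17,4)]⟩),.k,
  .k,[⟨1,[(1,0),(11,1),(0,2),(8,0),(4,0)]⟩,⟨0,[(3,0)]⟩,⟨4,[(3,0),(4,1),(12,1),(3,0),(15,1),(13,0)]⟩,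
  ⟨0,[(9,0),(32,0)]⟩]⟩)))))))) (.R ⟨2,false,false,true,[0,1],[0,0,0,0,1],[0,2,1],(⟨0,[]⟩,⟨0,[]⟩),
  (⟨0,[(32,0)]⟩,⟨0,[(31,0)]⟩),⟨0,[]⟩,.k,.k,.k,(.r (-1) ⟨4,[(3,1),(11,0),(13,3),(0,3),(17,2)]⟩ ⟨0,
  [(44,0)]⟩),.k,.k,⟨true,0,⟨3,[(25,0),(0,0),(10,1)]⟩,⟨0,[]⟩⟩,⟨false,0,⟨0,[(30,0)]⟩,⟨0,[(0,0),(23,0),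
  (19,0)]⟩⟩,⟨false,0,⟨0,[(45,0)]⟩,⟨0,[(46,0),(1,0)]⟩⟩,⟨true,(-1),⟨0,[(5,0),(7,0)]⟩,⟨0,[(0,0),(23,
  0)]⟩⟩,⟨false,0,⟨0,[(50,0)]⟩,⟨0,[(48,0)]⟩⟩,⟨false,(-1),⟨0,[(2,0)]⟩,⟨0,[(29,0),(18,0)]⟩⟩,[.o ⟨false,
  (-1),⟨3,[(2,2),(14,0),(7,0),(17,1)]⟩,⟨0,[(0,0)]⟩⟩,.o ⟨false,(-1),⟨0,[(2,0)]⟩,⟨1,[(0,0),(0,0),(28,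
  0)]⟩⟩,.a ⟨true,0,⟨7,[(16,1),(4,1),(2,5),(8,1),(13,0),(0,2)]⟩,⟨3,[(25,0),(0,0),(10,1)]⟩⟩ ⟨true,
  (-1),⟨1,[(3,0),(1,0),(5,0),(31,0)]⟩,⟨1,[(47,0),(0,0)]⟩⟩ ⟨false,(-1),⟨1,[(2,0),(14,0),(7,0)]⟩,⟨7,
  [(0,7),(15,1),(4,1),(2,5),(8,1),(13,0),(0,2)]⟩⟩,.e ⟨false,0,⟨0,[(50,0)]⟩,⟨0,[(48,0)]⟩⟩ ⟨false,
  (-1),⟨0,[(2,0)]⟩,⟨0,[(29,0),(18,0)]⟩⟩]⟩))) (.Q [0,0,0,0,0,-1,0,0,0,1,0,-1] (.ed true [0,1,0,0,1]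
  .k) (.S ⟨1,0,[],[1,0,0,0,-1],[0,-1],(⟨0,[(30,0)]⟩,⟨0,[(31,0)]⟩),⟨0,[(0,0)]⟩,.k,(.r (-1) ⟨2,[(14,
  0),(5,1),(26,0)]⟩ ⟨9,[(2,3),(18,1),(2,0),(0,0),(2,3),(0,3),(4,1),(14,1)]⟩),⟨false,1,⟨1,[(28,0),(0,
  0),(17,0)]⟩,⟨0,[]⟩⟩,⟨true,0,⟨0,[(49,0)]⟩,⟨0,[]⟩⟩,⟨true,0,⟨0,[(45,0)]⟩,⟨0,[(44,0)]⟩⟩,⟨false,0,⟨0,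
  [(45,0)]⟩,⟨0,[(44,0),(2,0)]⟩⟩,[.e ⟨false,1,⟨1,[(46,0),(0,0)]⟩,⟨0,[(49,0)]⟩⟩ ⟨false,1,⟨1,[(28,0),
  (0,0),(16,0)]⟩,⟨0,[]⟩⟩,.a ⟨true,1,⟨0,[(1,0)]⟩,⟨0,[(16,0)]⟩⟩ ⟨true,1,⟨0,[(47,0)]⟩,⟨1,[(2,0),(1,0),
  (5,0),(31,0)]⟩⟩ ⟨false,1,⟨1,[(46,0),(0,0)]⟩,⟨0,[(49,0)]⟩⟩,.e ⟨false,1,⟨0,[(47,0)]⟩,⟨0,[(49,0)]⟩⟩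
  ⟨false,1,⟨1,[(28,0),(0,0),(17,0)]⟩,⟨0,[]⟩⟩,.o ⟨false,1,⟨4,[(1,1),(0,0),(1,0),(5,0),(13,0),(3,2),
  (10,1)]⟩,⟨0,[(7,0)]⟩⟩]⟩) (.Q [0,-2,0,-1,2,0,0,0,-1,-1,0,1] (.p true [0,0,0,0,1] [1] (⟨0,[(31,0)]⟩,
  ⟨0,[(30,0)]⟩) .k 1 (⟨0,[]⟩,⟨0,[]⟩) .k .k) (.Q [0,2,0,2,-2,0,0,0,1,1,0,-1] (.p false [0,0,0,0,1]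
  [1] (⟨0,[(32,0)]⟩,⟨0,[(31,0)]⟩) .k 1 (⟨0,[]⟩,⟨0,[]⟩) .k .k) (.R ⟨1,true,false,true,[1,-1],[0,0,0,
  0,1],[0,1,-1,-1],(⟨0,[(42,0)]⟩,⟨0,[(43,0)]⟩),(⟨0,[(33,0)]⟩,⟨0,[(32,0)]⟩),⟨2,[(5,0),(4,0),(31,1)]⟩,
  .k,.k,(.r (-1) ⟨4,[(16,1),(5,3),(1,1),(23,0)]⟩ ⟨4,[(4,3),(11,1),(13,2),(0,2),(17,0)]⟩),(.r (-1)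
  ⟨2,[(16,0),(5,1),(26,0)]⟩ ⟨9,[(4,3),(18,1),(2,0),(0,0),(2,3),(0,3),(4,1),(14,1)]⟩),(.r (-2) ⟨7,
  [(1,1),(14,1),(5,7),(4,1),(3,1),(4,3),(11,0),(0,2)]⟩ ⟨11,[(4,9),(7,0),(3,2),(3,1),(0,0),(1,1),(1,
  0)]⟩),.k,⟨true,1,⟨2,[(16,0),(5,1),(26,0)]⟩,⟨21,[(4,13),(1,4),(5,7),(3,1),(6,1),(2,2),(9,2)]⟩⟩,
  ⟨false,0,⟨7,[(9,1),(1,5),(5,1),(4,1),(11,1),(13,0),(0,2)]⟩,⟨4,[(3,1),(0,0),(1,0),(5,0),(13,0),(3,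
  2),(10,1)]⟩⟩,⟨true,0,⟨0,[(51,0)]⟩,⟨0,[]⟩⟩,⟨false,(-1),⟨1,[(8,0),(5,0),(21,0)]⟩,⟨0,[(1,0)]⟩⟩,
  ⟨false,0,⟨0,[(47,0)]⟩,⟨0,[(46,0),(2,0)]⟩⟩,⟨true,(-2),⟨0,[(0,0)]⟩,⟨0,[(1,0),(44,0)]⟩⟩,[]⟩) (.S ⟨1,
  0,[0,2],[0,0,0,0,1],[1,1,0,-1],(⟨0,[(33,0)]⟩,⟨0,[(32,0)]⟩),⟨2,[(2,0),(2,0),(4,0),(22,1)]⟩,.k,(.r
  0 ⟨0,[(45,0)]⟩ ⟨4,[(4,1),(11,0),(13,3),(0,3),(17,2)]⟩),⟨false,1,⟨13,[(0,4),(17,1),(3,1),(4,2),(3,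
  2),(4,1),(1,3),(10,3)]⟩,⟨0,[(47,0)]⟩⟩,⟨true,0,⟨0,[(51,0)]⟩,⟨0,[]⟩⟩,⟨true,0,⟨0,[]⟩,⟨0,[(51,0)]⟩⟩,
  ⟨false,0,⟨0,[(47,0)]⟩,⟨13,[(0,4),(17,1),(3,1),(4,2),(3,2),(4,1),(1,3),(10,3)]⟩⟩,[.o ⟨false,(-1),
  ⟨6,[(4,0),(1,4),(4,1),(2,4),(8,0),(17,0)]⟩,⟨0,[(1,0),(45,0)]⟩⟩,.e ⟨false,1,⟨9,[(1,1),(20,3),(4,1),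
  (2,0),(0,2),(4,3),(11,0)]⟩,⟨0,[(47,0)]⟩⟩ ⟨false,0,⟨3,[(25,1),(15,0),(3,1),(2,0)]⟩,⟨1,[(30,0),(0,
  0),(17,0)]⟩⟩,.o ⟨false,0,⟨0,[(31,0)]⟩,⟨0,[(0,0),(24,1),(15,0)]⟩⟩,.a ⟨true,(-1),⟨7,[(7,2),(0,2),(3,
  3),(4,0),(0,3),(3,0),(8,0),(17,1)]⟩,⟨3,[(3,3),(21,1),(15,0),(3,1),(2,0)]⟩⟩ ⟨true,0,⟨0,[(45,0)]⟩,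
  ⟨9,[(4,3),(11,1),(13,2),(0,2),(17,0)]⟩⟩ ⟨false,0,⟨3,[(25,1),(15,0),(3,1),(2,0)]⟩,⟨3,[(26,0),(0,0),
  (10,1),(10,3)]⟩⟩]⟩)) (.Q [0,0,0,0,-1,0,0,0,1,1,0,-1] (.p false [0,0,0,0,1] [1] (⟨0,[(32,0)]⟩,⟨0,
  [(31,0)]⟩) .k 1 (⟨0,[]⟩,⟨0,[]⟩) .k .k) (.R ⟨2,true,false,false,[0,1],[1,0,0,0,-1],[0,0,1,1],(⟨0,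
  []⟩,⟨0,[]⟩),(⟨0,[(32,0)]⟩,⟨0,[(33,0)]⟩),⟨0,[]⟩,.k,.k,.k,(.r 0 ⟨9,[(4,3),(18,1),(2,0),(0,0),(2,3),
  (0,3),(4,1),(14,1)]⟩ ⟨2,[(16,0),(5,1),(26,0)]⟩),.k,.k,⟨false,0,⟨11,[(4,3),(18,3),(6,0),(0,0),(12,
  1),(3,2)]⟩,⟨2,[(16,0),(5,1),(26,0)]⟩⟩,⟨true,1,⟨4,[(3,1),(0,0),(1,0),(5,0),(13,0),(3,2),(10,1)]⟩,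
  ⟨0,[(0,0)]⟩⟩,⟨false,1,⟨1,[(30,0),(0,0),(17,0)]⟩,⟨0,[]⟩⟩,⟨true,2,⟨15,[(3,5),(2,3),(15,3),(3,3),(0,
  1),(2,9),(10,4),(7,6)]⟩,⟨0,[(1,0)]⟩⟩,⟨true,0,⟨0,[(47,0)]⟩,⟨0,[(46,0)]⟩⟩,⟨false,2,⟨1,[(3,1),(37,0),
  (7,0)]⟩,⟨0,[(18,0)]⟩⟩,[]⟩) (.R ⟨0,false,false,true,[1,0,0,0,-1],[0,1],[0,1,2,1],(⟨0,[(32,0)]⟩,⟨0,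
  [(33,0)]⟩),(⟨0,[(43,0)]⟩,⟨0,[(42,0)]⟩),⟨0,[(2,0)]⟩,.k,.k,(.r (-1) ⟨2,[(16,0),(5,1),(26,0)]⟩ ⟨9,
  [(4,3),(18,1),(2,0),(0,0),(2,3),(0,3),(4,1),(14,1)]⟩),(.r (-1) ⟨2,[(16,0),(5,1),(26,0)]⟩ ⟨9,[(4,
  3),(18,1),(2,0),(0,0),(2,3),(0,3),(4,1),(14,1)]⟩),.k,.k,⟨true,0,⟨3,[(26,0),(0,0),(10,1)]⟩,⟨0,[]⟩⟩,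
  ⟨false,0,⟨7,[(9,1),(1,5),(5,1),(4,1),(11,1),(13,0),(0,2)]⟩,⟨1,[(0,0),(25,0),(3,0)]⟩⟩,⟨false,(-1),
  ⟨21,[(4,13),(1,4),(5,7),(3,1),(6,1),(2,2),(9,2)]⟩,⟨5,[(16,1),(5,3),(25,2),(0,4)]⟩⟩,⟨true,(-2),⟨0,
  [(1,0)]⟩,⟨7,[(0,2),(5,1),(15,1),(3,1),(0,0),(2,4),(10,0),(7,4)]⟩⟩,⟨false,0,⟨0,[]⟩,⟨0,[]⟩⟩,⟨false,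
  0,⟨0,[]⟩,⟨0,[]⟩⟩,[.a ⟨true,(-1),⟨0,[(25,0)]⟩,⟨0,[(46,0),(2,0)]⟩⟩ ⟨true,(-1),⟨21,[(4,13),(1,4),(5,
  7),(3,1),(6,1),(2,2),(9,2)]⟩,⟨2,[(16,0),(5,1),(26,0)]⟩⟩ ⟨false,(-1),⟨0,[(11,0)]⟩,⟨7,[(0,2),(5,1),
  (15,1),(3,1),(0,0),(2,4),(10,0),(7,4)]⟩⟩,.o ⟨false,0,⟨0,[(47,0)]⟩,⟨15,[(6,3),(15,3),(3,3),(0,1),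
  (2,4),(0,4),(9,4),(7,1)]⟩⟩,.o ⟨false,1,⟨0,[(0,0)]⟩,⟨0,[(31,0)]⟩⟩,.o ⟨false,1,⟨1,[(0,0),(25,0),(3,
  0)]⟩,⟨0,[(9,0)]⟩⟩]⟩)))))) (.R ⟨0,false,false,true,[1,-1,-1],[1,-1],[1,1,0,-1],(⟨0,[(23,0)]⟩,⟨1,
  [(0,0),(33,0),(0,1)]⟩),(⟨0,[(37,0)]⟩,⟨0,[(38,0)]⟩),⟨0,[(0,0)]⟩,.k,.k,(.r (-1) ⟨4,[(11,3),(5,2),(1,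
  3),(23,1)]⟩ ⟨2,[(2,0),(5,0),(0,0),(4,2),(10,0),(16,3)]⟩),.k,.k,.k,⟨false,0,⟨0,[]⟩,⟨1,[(25,0),(0,
  0),(16,0)]⟩⟩,⟨true,0,⟨0,[(16,0)]⟩,⟨0,[(33,0)]⟩⟩,⟨false,0,⟨0,[(14,0)]⟩,⟨5,[(11,3),(5,1),(25,2),(0,
  0)]⟩⟩,⟨true,0,⟨0,[(30,0)]⟩,⟨0,[(12,0),(29,0)]⟩⟩,⟨false,0,⟨0,[]⟩,⟨0,[]⟩⟩,⟨false,0,⟨0,[]⟩,⟨0,[]⟩⟩,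
  [.a ⟨true,0,⟨0,[(41,0)]⟩,⟨0,[(20,0),(23,0)]⟩⟩ ⟨false,0,⟨0,[(40,0)]⟩,⟨1,[(25,0),(0,0),(15,1),(1,
  0)]⟩⟩ ⟨true,0,⟨0,[(16,0),(23,0)]⟩,⟨0,[(2,0),(17,0),(23,0)]⟩⟩,.o ⟨false,1,⟨15,[(1,3),(15,3),(3,3),
  (0,1),(2,4),(0,4),(9,4),(7,1)]⟩,⟨0,[(42,0)]⟩⟩,.e ⟨true,0,⟨0,[(41,0)]⟩,⟨0,[(42,0)]⟩⟩ ⟨true,0,⟨0,
  [(16,0),(23,0)]⟩,⟨0,[(33,0),(8,0)]⟩⟩,.o ⟨false,0,⟨0,[(2,0)]⟩,⟨1,[(29,1),(6,0),(6,0)]⟩⟩]⟩))))) (.K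
  ⟨0,[0,0,0,0,1],0,(-1),(⟨0,[(24,0)]⟩,⟨0,[(23,0)]⟩),.k,(.r 0 ⟨0,[(36,0)]⟩ ⟨0,[(10,0),(3,0),(25,
  0)]⟩),(.r 0 ⟨0,[(10,0),(3,0)]⟩ ⟨2,[(7,0),(5,1),(26,0)]⟩),.k,.k,[⟨1,[(2,1),(5,1),(1,1),(21,0),(7,
  0)]⟩,⟨0,[(0,0)]⟩,⟨0,[(21,0)]⟩,⟨0,[(5,0),(5,0)]⟩]⟩)))))

theorem ok69 : chk K t69 l44 = true := by decide +kernel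


end Helper25.S1T.Ypm_1c
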