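import Pool.Agent.Helper25.S1T.Ypm_1c_q

set_option autoImplicit false
set_option linter.all false

namespace Helper25.S1T.Ypm_1c

open Helper25.KG Helper25.KW Helper55.KE Helper11.CT

noncomputable def t70 : Tre :=
  (.Q [0,-1,0,0,1,0,-1,-1,-1,-1,1,1] (.p true [0,0,1] [1,0,0,0,-1] (⟨0,[(27,0)]⟩,⟨0,[(26,0)]⟩) .k 2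
  (⟨0,[(19,0)]⟩,⟨0,[(20,0)]⟩) .k (.r 0 ⟨2,[(0,0),(5,1),(24,0),(2,0)]⟩ ⟨5,[(3,3),(5,1),(7,2),(0,2),
  (17,0)]⟩)) (.R ⟨1,true,false,false,[1,0,-1],[0,0,0,0,1],[0,1,0,0,0,0,0,-1],(⟨0,[(27,0)]⟩,⟨0,[(28,
  0)]⟩),(⟨0,[(21,0)]⟩,⟨0,[(20,0)]⟩),⟨0,[(16,0)]⟩,.k,.k,.k,.k,(.r (-1) ⟨0,[(1,0),(6,1),(0,1),(3,1),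
  (23,2)]⟩ ⟨2,[(7,3),(3,0),(20,0),(2,1)]⟩),.k,⟨true,0,⟨2,[(4,0),(3,0),(13,0)]⟩,⟨0,[(7,0)]⟩⟩,⟨false,
  0,⟨0,[(19,0),(2,0)]⟩,⟨2,[(0,2),(0,0),(5,1),(24,0),(2,0)]⟩⟩,⟨true,0,⟨0,[(39,0)]⟩,⟨0,[]⟩⟩,⟨false,0,
  ⟨19,[(2,7),(3,5),(0,7),(2,3),(4,5),(2,2),(0,8),(17,6)]⟩,⟨0,[(0,0)]⟩⟩,⟨false,0,⟨0,[(35,0)]⟩,⟨0,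
  [(34,0),(2,0)]⟩⟩,⟨true,(-1),⟨0,[(2,0)]⟩,⟨6,[(0,3),(4,0),(2,1),(3,1),(1,0),(3,2)]⟩⟩,[]⟩) (.Q [0,0,
  2,0,0,0,-1,0,0,-1,1] (.p true [0,0,1] [1] (⟨0,[(28,0)]⟩,⟨0,[(27,0)]⟩) .k 1 (⟨0,[]⟩,⟨0,[]⟩) .k .k)
  (.Q [0,-1,0,2,0,0,1,1,0,1,-1] (.p false [0,0,1] [1] (⟨0,[(29,0)]⟩,⟨0,[(28,0)]⟩) .k 1 (⟨0,[]⟩,⟨0,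
  []⟩) .k .k) (.R ⟨1,true,false,false,[1,0,-1],[0,1],[0,0,0,0,0,0,0,-1],(⟨0,[(29,0)]⟩,⟨0,[(30,0)]⟩),
  (⟨0,[(33,0)]⟩,⟨0,[(32,0)]⟩),⟨0,[(18,0)]⟩,.k,.k,.k,.k,(.r (-1) ⟨4,[(6,3),(5,2),(1,3),(23,1)]⟩ ⟨9,
  [(0,7),(0,10),(2,2),(8,0),(6,2),(13,1)]⟩),.k,⟨false,1,⟨4,[(6,2),(5,0),(1,2),(23,3)]⟩,⟨4,[(0,2),(0,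
  2),(1,0),(5,0),(24,0)]⟩⟩,⟨true,0,⟨0,[(24,0)]⟩,⟨0,[(1,0)]⟩⟩,⟨false,1,⟨1,[(20,0),(0,0),(17,0)]⟩,⟨0,
  []⟩⟩,⟨true,0,⟨1,[(0,0),(1,0),(17,0)]⟩,⟨0,[(10,0)]⟩⟩,⟨true,0,⟨0,[(37,0)]⟩,⟨0,[(36,0)]⟩⟩,⟨false,0,
  ⟨0,[(0,0)]⟩,⟨1,[(7,1),(23,0),(4,1),(2,0)]⟩⟩,[]⟩) (.Q [0,0,0,0,0,2,0,0,0,-1,1] (.p true [0,0,1]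
  [1] (⟨0,[(30,0)]⟩,⟨0,[(29,0)]⟩) .k 1 (⟨0,[]⟩,⟨0,[]⟩) .k .k) (.R ⟨0,false,false,true,[1,-1,-1],[1,
  -1],[1,1,0,-1],(⟨0,[(19,0)]⟩,⟨0,[(0,0),(32,0)]⟩),(⟨0,[(33,0)]⟩,⟨0,[(34,0)]⟩),⟨0,[(0,0)]⟩,.k,.k,
  (.r (-1) ⟨4,[(7,3),(5,2),(1,3),(23,1)]⟩ ⟨3,[(2,0),(2,0),(1,0),(2,4),(10,0),(16,5)]⟩),.k,.k,.k,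
  ⟨false,0,⟨0,[]⟩,⟨1,[(21,0),(0,0),(16,0)]⟩⟩,⟨true,0,⟨0,[(12,0)]⟩,⟨0,[(29,0)]⟩⟩,⟨false,0,⟨0,[(10,
  0)]⟩,⟨5,[(7,3),(5,1),(25,2),(0,0)]⟩⟩,⟨true,0,⟨0,[(26,0)]⟩,⟨0,[(8,0),(29,0)]⟩⟩,⟨false,0,⟨0,[]⟩,⟨0,
  []⟩⟩,⟨false,0,⟨0,[]⟩,⟨0,[]⟩⟩,[.a ⟨true,0,⟨0,[(37,0)]⟩,⟨0,[(16,0),(23,0)]⟩⟩ ⟨false,0,⟨0,[(36,0)]⟩,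
  ⟨1,[(21,0),(0,0),(15,1),(1,0)]⟩⟩ ⟨true,0,⟨0,[(12,0),(23,0)]⟩,⟨0,[(2,0),(13,0),(23,0)]⟩⟩,.o ⟨false,
  1,⟨1,[(32,0),(4,1),(2,0)]⟩,⟨0,[(38,0)]⟩⟩,.e ⟨true,0,⟨0,[(37,0)]⟩,⟨0,[(38,0)]⟩⟩ ⟨true,0,⟨0,[(12,0),
  (23,0)]⟩,⟨0,[(29,0),(8,0)]⟩⟩,.o ⟨false,0,⟨0,[(2,0)]⟩,⟨1,[(25,1),(6,0),(6,0)]⟩⟩]⟩) (.I [0,-1,-2,-1,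
  1,0,0,-1] (.S ⟨1,0,[0,1,-1,-1,0,0,0,-1],[1,-1,-1],[0,0,-1,-1,0,0,0,-1],(⟨0,[(20,0)]⟩,⟨0,[(32,0),
  (2,0)]⟩),⟨0,[(1,0)]⟩,.k,(.r (-1) ⟨0,[(0,0),(37,0)]⟩ ⟨3,[(3,0),(2,0),(1,0),(2,4),(10,0),(16,5)]⟩),
  ⟨false,1,⟨1,[(22,0),(0,0),(17,0)]⟩,⟨0,[]⟩⟩,⟨true,0,⟨0,[(43,0)]⟩,⟨0,[]⟩⟩,⟨true,0,⟨0,[(39,0)]⟩,⟨0,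
  [(38,0)]⟩⟩,⟨false,0,⟨0,[(39,0)]⟩,⟨0,[(38,0),(2,0)]⟩⟩,[.o ⟨false,0,⟨0,[(12,0)]⟩,⟨0,[(27,0),(11,0),
  (1,0)]⟩⟩,.e ⟨false,1,⟨0,[(0,0)]⟩,⟨2,[(3,0),(2,0),(4,1),(10,0),(13,0),(2,1)]⟩⟩ ⟨false,1,⟨31,[(0,
  23),(13,3),(4,5),(8,11),(4,2),(2,5),(3,0)]⟩,⟨0,[(11,0),(27,0)]⟩⟩,.a ⟨true,0,⟨0,[(30,0)]⟩,⟨0,[(26,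
  0)]⟩⟩ ⟨false,1,⟨3,[(0,1),(1,0),(16,0),(8,0),(12,1)]⟩,⟨0,[(11,0),(27,0)]⟩⟩ ⟨true,0,⟨3,[(0,0),(7,0),
  (3,0),(0,0),(2,1),(0,0),(18,0)]⟩,⟨0,[(11,0),(27,0)]⟩⟩,.o ⟨false,0,⟨0,[(3,0)]⟩,⟨1,[(26,1),(6,0),(6,
  0)]⟩⟩]⟩) (.Q [0,0,0,2,0,0,1,1,0,0,-1] (.p false [0,0,1] [] (⟨0,[(32,0)]⟩,⟨0,[(31,0)]⟩) .k 0 (⟨0,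
  []⟩,⟨0,[]⟩) .k .k) (.S ⟨1,1,[],[1,-1,-1],[0,1,-1,-1,0,0,0,-1],(⟨0,[(21,0)]⟩,⟨0,[(33,0),(2,0)]⟩),
  ⟨0,[(2,0)]⟩,.k,(.r (-1) ⟨4,[(9,3),(5,2),(1,3),(23,1)]⟩ ⟨3,[(0,2),(3,0),(2,0),(1,0),(2,1),(10,0),
  (7,2)]⟩),⟨true,0,⟨0,[(44,0)]⟩,⟨0,[]⟩⟩,⟨false,1,⟨3,[(0,1),(22,0),(0,0),(3,1),(13,2)]⟩,⟨0,[(10,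
  0)]⟩⟩,⟨false,0,⟨0,[(40,0)]⟩,⟨0,[(39,0),(2,0)]⟩⟩,⟨true,0,⟨0,[(0,0)]⟩,⟨0,[(10,0),(28,0)]⟩⟩,[.fo,.o
  ⟨false,1,⟨1,[(34,0),(7,0)]⟩,⟨0,[(44,0)]⟩⟩,.a ⟨true,0,⟨0,[(31,0)]⟩,⟨0,[(27,0)]⟩⟩ ⟨true,0,⟨0,[(13,
  0),(13,0)]⟩,⟨1,[(0,0),(11,0),(18,0)]⟩⟩ ⟨false,1,⟨1,[(27,1),(6,0),(7,0)]⟩,⟨0,[(31,0)]⟩⟩,.o ⟨false,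
  0,⟨0,[(4,0)]⟩,⟨1,[(27,1),(6,0),(6,0)]⟩⟩]⟩) (.Q [0,0,-1,0,1,0,-2,0,0,-1,2] (.p true [0,0,1] [1,0,
  -1] (⟨0,[(33,0)]⟩,⟨0,[(32,0)]⟩) .k 2 (⟨0,[(32,0)]⟩,⟨0,[(33,0)]⟩) .k (.r (-1) ⟨0,[(12,1),(28,0)]⟩
  ⟨2,[(9,1),(3,1),(13,1)]⟩)) (.K ⟨0,[1,1,-1],1,0,(⟨0,[(33,0),(3,0)]⟩,⟨0,[(23,0)]⟩),.k,.k,(.r 0 ⟨3,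
  [(2,1),(2,0),(2,0),(1,1),(6,2),(6,0),(18,1)]⟩ ⟨0,[(4,0),(2,1),(7,0),(3,0),(21,0),(1,1)]⟩),(.r 0
  ⟨5,[(10,3),(6,1),(2,0),(0,0),(8,1)]⟩ ⟨11,[(0,3),(8,5),(3,9),(2,5),(12,1),(5,0),(7,0)]⟩),.k,[⟨0,
  [(0,0)]⟩,⟨0,[(1,0),(0,0),(12,1),(3,0),(23,0)]⟩,⟨4,[(1,0),(4,1),(2,1),(3,1),(7,0),(2,1),(15,2)]⟩,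
  ⟨2,[(0,0),(9,0),(3,0),(4,2),(15,1)]⟩]⟩) (.I [0,0,1,0,-1,-1,1,0,1] (.Q [0,0,2,0,-2,0,1,0,1,1,-1,
  -1] (.p false [0,0,1] [1,0,0,0,-1] (⟨0,[(35,0)]⟩,⟨0,[(34,0)]⟩) .k 2 (⟨0,[(27,0)]⟩,⟨0,[(28,0)]⟩)
  .k (.r 0 ⟨3,[(3,0),(4,0),(5,1),(24,0),(3,0)]⟩ ⟨5,[(11,3),(5,1),(7,2),(0,2),(17,0)]⟩)) (.Q [0,0,0,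
  0,0,-1,0,0,0,0,0,1] (.ed false [1,-1,0,0,1] .k) (.S ⟨1,0,[0,2],[0,0,0,0,1],[1,1,0,-1],(⟨0,[(30,
  0)]⟩,⟨0,[(29,0)]⟩),⟨0,[(0,0)]⟩,.k,(.r 0 ⟨0,[(42,0)]⟩ ⟨1,[(8,0),(2,0),(8,0),(6,0),(18,1)]⟩),⟨false,
  1,⟨0,[(43,0),(2,0)]⟩,⟨0,[(44,0)]⟩⟩,⟨true,0,⟨0,[(48,0)]⟩,⟨0,[]⟩⟩,⟨true,0,⟨0,[]⟩,⟨0,[(48,0)]⟩⟩,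
  ⟨false,0,⟨0,[(44,0)]⟩,⟨0,[(43,0),(2,0)]⟩⟩,[.e ⟨false,0,⟨0,[(42,0)]⟩,⟨1,[(27,0),(0,0),(15,1),(1,
  0)]⟩⟩ ⟨false,0,⟨0,[(41,0)]⟩,⟨0,[(46,0)]⟩⟩,.o ⟨false,(-1),⟨0,[(1,0),(15,0),(1,0),(24,2)]⟩,⟨1,[(27,
  1),(10,0),(7,0)]⟩⟩,.a ⟨true,(-1),⟨0,[(1,0),(12,0),(4,0),(24,2)]⟩,⟨0,[(27,0)]⟩⟩ ⟨true,0,⟨0,[(43,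
  0)]⟩,⟨0,[(44,0)]⟩⟩ ⟨false,0,⟨0,[(48,0)]⟩,⟨0,[(46,0)]⟩⟩,.o ⟨false,(-1),⟨1,[(1,1),(8,1),(3,1),(23,
  0),(5,3),(1,0)]⟩,⟨1,[(27,1),(10,0),(6,0)]⟩⟩]⟩) (.R ⟨0,false,false,false,[0,0,0,0,1],[1,0,-1],[1,0,
  1],(⟨0,[(30,0)]⟩,⟨0,[(29,0)]⟩),(⟨0,[(36,0)]⟩,⟨0,[(37,0)]⟩),⟨0,[(0,0)]⟩,.k,.k,(.r 0 ⟨0,[(42,0)]⟩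
  ⟨1,[(8,0),(2,0),(8,0),(6,0),(18,1)]⟩),.k,.k,.k,⟨true,0,⟨0,[(16,0)]⟩,⟨2,[(13,0),(3,0),(13,0)]⟩⟩,
  ⟨false,2,⟨1,[(10,1),(3,1),(12,1),(10,0),(5,3),(1,0)]⟩,⟨0,[(1,0),(43,0)]⟩⟩,⟨false,1,⟨2,[(8,0),(15,
  0),(10,0),(10,2)]⟩,⟨3,[(22,1),(15,0),(3,1),(2,0)]⟩⟩,⟨true,2,⟨1,[(14,1),(12,1),(10,0),(5,1),(1,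
  0)]⟩,⟨1,[(1,1),(8,1),(11,1),(15,0),(6,0)]⟩⟩,⟨false,0,⟨0,[]⟩,⟨0,[]⟩⟩,⟨false,0,⟨0,[]⟩,⟨0,[]⟩⟩,[.e
  ⟨false,0,⟨0,[]⟩,⟨1,[(27,0),(0,0),(16,0)]⟩⟩ ⟨false,2,⟨1,[(14,1),(12,1),(10,0),(5,1),(0,0)]⟩,⟨0,[(1,
  0),(17,0),(24,1)]⟩⟩,.o ⟨false,1,⟨1,[(14,1),(23,0),(5,1),(1,0)]⟩,⟨0,[(32,0)]⟩⟩,.a ⟨true,(-1),⟨0,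
  [(1,0),(12,0),(4,0),(24,2)]⟩,⟨0,[(27,0)]⟩⟩ ⟨true,0,⟨2,[(8,0),(15,0),(10,0)]⟩,⟨3,[(22,1),(15,0),(3,
  1),(2,0)]⟩⟩ ⟨false,2,⟨1,[(14,1),(12,1),(10,0),(5,1),(1,0)]⟩,⟨0,[(1,0),(17,0),(24,1)]⟩⟩,.o ⟨false,
  (-1),⟨1,[(1,1),(8,1),(3,1),(23,0),(5,3),(1,0)]⟩,⟨1,[(27,1),(10,0),(6,0)]⟩⟩]⟩)) (.I [1,-1,1,1,0,0,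
  0,-1] (.I [0,0,-1,0,2,1,-1,0,-1] (.N [0,-1,1,0,1] 0 ⟨0,[(11,0)]⟩ ⟨0,[(1,0)]⟩ (.x 1 ⟨0,[(3,0)]⟩ ⟨0,
  [(0,0)]⟩)) (.S ⟨1,0,[0,0,-1,-1,0,0,0,1],[0,-1,1],[1,1,-1,-2,0,0,0,1],(⟨0,[(27,0)]⟩,⟨0,[(37,0),(3,
  0)]⟩),⟨8,[(0,4),(1,4),(1,0),(2,2),(1,1),(17,6),(2,4),(8,0)]⟩,.k,(.r (-1) ⟨0,[(4,0),(3,1),(2,2),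
  (11,0),(21,3),(1,2)]⟩ ⟨3,[(6,1),(2,0),(2,0),(1,1),(6,2),(6,0),(18,1)]⟩),⟨true,0,⟨0,[(44,0)]⟩,⟨0,
  [(45,0)]⟩⟩,⟨false,1,⟨1,[(28,0),(0,0),(17,0)]⟩,⟨0,[]⟩⟩,⟨false,0,⟨0,[]⟩,⟨1,[(28,0),(0,0),(17,0)]⟩⟩,
  ⟨true,0,⟨0,[(45,0)]⟩,⟨0,[(44,0)]⟩⟩,[.e ⟨false,1,⟨7,[(17,0),(2,6),(7,0),(0,0),(12,2),(1,1)]⟩,⟨0,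
  [(1,0),(43,0)]⟩⟩ ⟨false,1,⟨0,[(20,0),(24,0)]⟩,⟨3,[(9,0),(2,0),(1,1),(6,0),(6,0)]⟩⟩,.o ⟨false,1,⟨5,
  [(4,0),(12,2),(2,2),(3,0),(0,1),(13,0),(7,2)]⟩,⟨0,[(18,0),(26,1)]⟩⟩,.o ⟨false,0,⟨0,[(35,0)]⟩,⟨1,
  [(11,1),(3,1),(23,0),(5,3),(1,0)]⟩⟩,.a ⟨true,(-1),⟨0,[(4,0),(31,0)]⟩,⟨0,[(15,0),(4,0),(24,2)]⟩⟩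
  ⟨false,1,⟨0,[(20,0)]⟩,⟨3,[(2,0),(3,2),(5,0),(1,3),(32,1)]⟩⟩ ⟨true,1,⟨0,[(20,0),(24,0)]⟩,⟨10,[(4,
  2),(1,6),(7,4),(3,3),(2,1),(1,0),(10,1)]⟩⟩]⟩)) (.Q [0,0,0,0,1,0,-1,0,-1,-1,1,1] (.p true [0,0,1]
  [1,0,0,0,-1] (⟨0,[(37,0)]⟩,⟨0,[(36,0)]⟩) .k 2 (⟨0,[(29,0)]⟩,⟨0,[(30,0)]⟩) .k (.r 0 ⟨7,[(1,0),(3,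
  0),(4,1),(0,0),(4,3),(24,1)]⟩ ⟨9,[(1,1),(2,1),(8,3),(10,1),(2,2),(0,4),(17,2)]⟩)) (.Q [0,0,1,0,-1,
  0,0,0,1,1,0,-1] (.p false [0,0,0,0,1] [1] (⟨0,[(31,0)]⟩,⟨0,[(30,0)]⟩) .k 1 (⟨0,[]⟩,⟨0,[]⟩) .k .k)
  (.K ⟨0,[1,0,0,0,-1],1,1,(⟨0,[(31,0)]⟩,⟨0,[(32,0)]⟩),.k,(.r (-1) ⟨2,[(15,0),(5,1),(26,0)]⟩ ⟨1,[(10,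
  0),(2,0),(8,0),(6,0)]⟩),(.r (-1) ⟨1,[(10,0),(2,0),(8,0),(6,0),(18,1)]⟩ ⟨0,[(44,0)]⟩),.k,.k,[⟨0,
  [(1,0)]⟩,⟨0,[(0,0)]⟩,⟨0,[(0,0),(42,0)]⟩,⟨3,[(1,2),(1,0),(1,1),(34,0)]⟩]⟩) (.Q [0,0,0,0,0,-1,0,0,0,
  1,0,-1] (.ed true [0,1,0,0,1] .k) (.S ⟨1,0,[0,-1],[1,0,0,0,-1],[1,0,0,-1],(⟨0,[(32,0)]⟩,⟨0,[(33,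
  0)]⟩),⟨0,[(0,0)]⟩,.k,(.r (-1) ⟨2,[(16,0),(5,1),(26,0)]⟩ ⟨1,[(11,0),(2,0),(8,0),(6,0)]⟩),⟨true,0,
  ⟨0,[(46,0)]⟩,⟨0,[(47,0)]⟩⟩,⟨false,1,⟨1,[(30,0),(0,0),(17,0)]⟩,⟨0,[]⟩⟩,⟨false,0,⟨0,[]⟩,⟨1,[(30,0),
  (0,0),(17,0)]⟩⟩,⟨true,0,⟨0,[(47,0)]⟩,⟨0,[(46,0)]⟩⟩,[.e ⟨false,1,⟨3,[(4,0),(2,0),(14,0),(4,0),(2,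
  0),(0,1)]⟩,⟨0,[(47,0)]⟩⟩ ⟨false,1,⟨1,[(48,0),(0,0)]⟩,⟨0,[(51,0)]⟩⟩,.o ⟨false,2,⟨2,[(1,1),(24,0),
  (3,0),(18,2)]⟩,⟨0,[(14,0),(5,0)]⟩⟩,.o ⟨false,1,⟨2,[(1,1),(24,0),(3,0)]⟩,⟨0,[(31,0)]⟩⟩,.a ⟨true,0,
  ⟨1,[(1,0),(0,0),(3,0),(0,0),(0,0),(16,0),(23,0)]⟩,⟨1,[(18,1),(29,0),(0,0)]⟩⟩ ⟨false,1,⟨2,[(16,0),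
  (5,1),(26,0)]⟩,⟨1,[(8,0),(14,0),(25,0)]⟩⟩ ⟨true,1,⟨1,[(48,0),(0,0)]⟩,⟨10,[(6,2),(1,5),(1,2),(9,1),
  (4,1),(10,0),(7,3)]⟩⟩]⟩) (.Q [0,0,2,0,0,0,0,0,-1,-1,0,1] (.p true [0,0,0,0,1] [1] (⟨0,[(33,0)]⟩,
  ⟨0,[(32,0)]⟩) .k 1 (⟨0,[]⟩,⟨0,[]⟩) .k .k) (.R ⟨0,false,false,true,[1,0,0,0,-1],[0,1],[1,1,1],(⟨0,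
  [(33,0)]⟩,⟨0,[(34,0)]⟩),(⟨0,[(44,0)]⟩,⟨0,[(43,0)]⟩),⟨0,[(1,0)]⟩,.k,.k,(.r (-1) ⟨2,[(17,0),(5,1),
  (26,0)]⟩ ⟨1,[(12,0),(2,0),(8,0),(6,0)]⟩),(.r (-1) ⟨2,[(17,0),(5,1),(26,0)]⟩ ⟨1,[(12,0),(2,0),(8,
  0),(6,0)]⟩),.k,.k,⟨false,1,⟨3,[(5,0),(2,0),(14,0),(4,0),(2,0),(0,1)]⟩,⟨0,[(48,0)]⟩⟩,⟨true,0,⟨1,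
  [(19,1),(29,0),(0,0)]⟩,⟨0,[(0,0)]⟩⟩,⟨true,(-1),⟨10,[(7,2),(1,5),(1,2),(9,1),(4,1),(10,0),(7,3)]⟩,
  ⟨1,[(49,0),(0,0)]⟩⟩,⟨false,(-1),⟨0,[(26,0),(5,0)]⟩,⟨39,[(0,16),(1,13),(5,9),(14,9),(4,4),(2,8),
  (10,6),(7,39)]⟩⟩,⟨false,0,⟨0,[]⟩,⟨0,[]⟩⟩,⟨false,0,⟨0,[]⟩,⟨0,[]⟩⟩,[.a ⟨true,(-1),⟨0,[(26,0)]⟩,⟨0,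
  [(47,0),(2,0)]⟩⟩ ⟨false,0,⟨0,[(52,0)]⟩,⟨1,[(49,0),(0,0)]⟩⟩ ⟨true,(-1),⟨0,[(26,0),(5,0)]⟩,⟨39,[(0,
  32),(1,5),(5,9),(14,9),(4,4),(2,0),(10,2),(7,19)]⟩⟩,.o ⟨false,0,⟨0,[(48,0)]⟩,⟨1,[(42,0),(4,1),(2,
  0)]⟩⟩,.o ⟨false,1,⟨4,[(0,0),(1,1),(28,1),(10,0)]⟩,⟨0,[(32,0)]⟩⟩,.e ⟨false,0,⟨0,[]⟩,⟨1,[(31,0),(0,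
  0),(17,0)]⟩⟩ ⟨false,0,⟨1,[(26,1),(5,1),(16,0),(0,0)]⟩,⟨39,[(0,32),(1,5),(5,9),(14,9),(4,4),(2,0),
  (10,2),(7,19)]⟩⟩]⟩) (.K ⟨0,[0,0,0,0,1],0,(-1),(⟨0,[(34,0)]⟩,⟨0,[(33,0)]⟩),.k,(.r 0 ⟨0,[(46,0)]⟩
  ⟨1,[(12,0),(2,0),(8,0),(6,0),(18,1)]⟩),(.r 0 ⟨1,[(12,0),(2,0),(8,0),(6,0)]⟩ ⟨2,[(17,0),(5,1),(26,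
  0)]⟩),.k,.k,[⟨0,[(0,0),(11,0)]⟩,⟨1,[(2,0),(0,0),(3,0),(0,0),(0,0),(16,0),(23,0)]⟩,⟨0,[(31,0)]⟩,⟨0,
  [(15,0),(5,0)]⟩]⟩)))) (.Q [0,-2,0,0,2,0,0,0,-1,-1,0,1] (.p true [0,0,0,0,1] [1] (⟨0,[(31,0)]⟩,⟨0,
  [(30,0)]⟩) .k 1 (⟨0,[]⟩,⟨0,[]⟩) .k .k) (.Q [0,0,0,0,1,0,0,0,-1,-1,0,1] (.p true [0,0,0,0,1] [1]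
  (⟨0,[(32,0)]⟩,⟨0,[(31,0)]⟩) .k 1 (⟨0,[]⟩,⟨0,[]⟩) .k .k) (.Q [0,0,0,0,0,-1,0,0,0,0,0,1] (.ed false
  [1,-1,0,0,1] .k) (.S ⟨1,0,[0,1],[0,0,0,0,1],[0,2],(⟨0,[(34,0)]⟩,⟨0,[(33,0)]⟩),⟨0,[(0,0)]⟩,.k,(.r
  0 ⟨0,[(46,0)]⟩ ⟨2,[(2,1),(12,1),(1,0),(13,0),(0,0),(6,1)]⟩),⟨true,0,⟨0,[(52,0)]⟩,⟨0,[]⟩⟩,⟨false,1,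
  ⟨1,[(31,0),(0,0),(17,0)]⟩,⟨0,[]⟩⟩,⟨false,0,⟨0,[(48,0)]⟩,⟨0,[(47,0),(2,0)]⟩⟩,⟨true,0,⟨0,[(48,0)]⟩,
  ⟨0,[(47,0)]⟩⟩,[.e ⟨false,0,⟨0,[(45,0)]⟩,⟨0,[(50,0)]⟩⟩ ⟨false,0,⟨3,[(26,1),(15,0),(3,1),(2,0)]⟩,⟨1,
  [(31,0),(0,0),(17,0)]⟩⟩,.o ⟨false,0,⟨0,[(32,0)]⟩,⟨0,[(1,0)]⟩⟩,.o ⟨false,0,⟨0,[(32,0)]⟩,⟨0,[(1,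
  0)]⟩⟩,.a ⟨true,(-1),⟨0,[(3,0),(35,0)]⟩,⟨3,[(1,0),(0,0),(2,1),(1,0),(0,0),(7,0),(9,1)]⟩⟩ ⟨false,0,
  ⟨3,[(26,1),(15,0),(3,1),(2,0)]⟩,⟨2,[(12,0),(15,0),(10,0),(10,2)]⟩⟩ ⟨true,0,⟨3,[(26,1),(15,0),(3,
  1),(2,0)]⟩,⟨2,[(12,0),(15,0),(10,0)]⟩⟩]⟩) (.R ⟨0,false,false,false,[0,0,0,0,1],[0,1],[1,0,1],(⟨0,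
  [(34,0)]⟩,⟨0,[(33,0)]⟩),(⟨0,[(44,0)]⟩,⟨0,[(43,0)]⟩),⟨0,[(0,0)]⟩,.k,.k,(.r 0 ⟨0,[(46,0)]⟩ ⟨2,[(2,
  1),(12,1),(1,0),(13,0),(0,0),(6,1)]⟩),(.r 0 ⟨0,[(46,0)]⟩ ⟨2,[(2,1),(12,1),(1,0),(13,0),(0,0),(6,
  1)]⟩),.k,.k,⟨false,1,⟨3,[(2,0),(20,1),(4,0),(3,0),(4,1)]⟩,⟨0,[(48,0)]⟩⟩,⟨true,1,⟨3,[(1,0),(0,0),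
  (2,1),(1,0),(0,0),(7,0),(9,1)]⟩,⟨0,[(3,0),(8,0)]⟩⟩,⟨false,1,⟨2,[(12,0),(15,0),(10,0),(10,2)]⟩,⟨3,
  [(26,1),(15,0),(3,1),(2,0)]⟩⟩,⟨true,1,⟨0,[(2,0),(23,0)]⟩,⟨0,[(11,0),(3,0)]⟩⟩,⟨false,0,⟨0,[]⟩,⟨0,
  []⟩⟩,⟨false,0,⟨0,[]⟩,⟨0,[]⟩⟩,[.o ⟨false,0,⟨0,[(48,0)]⟩,⟨15,[(2,4),(8,1),(11,1),(3,1),(0,0),(3,4),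
  (9,3),(4,7)]⟩⟩,.a ⟨true,0,⟨0,[(26,0),(23,0)]⟩,⟨0,[(47,0)]⟩⟩ ⟨false,1,⟨1,[(31,0),(0,0),(17,0)]⟩,⟨3,
  [(26,1),(15,0),(3,1),(2,0)]⟩⟩ ⟨true,1,⟨0,[(2,0),(23,0)]⟩,⟨1,[(3,0),(7,0),(0,0),(0,0)]⟩⟩,.o ⟨false,
  0,⟨0,[(32,0)]⟩,⟨0,[(1,0)]⟩⟩,.e ⟨true,0,⟨0,[]⟩,⟨0,[(52,0)]⟩⟩ ⟨true,1,⟨2,[(2,0),(2,1),(1,0),(18,1),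
  (21,0)]⟩,⟨1,[(3,0),(7,0),(0,0),(0,0)]⟩⟩]⟩)) (.Q [0,2,0,1,-2,0,0,0,1,1,0,-1] (.p false [0,0,0,0,1]
  [1] (⟨0,[(33,0)]⟩,⟨0,[(32,0)]⟩) .k 1 (⟨0,[]⟩,⟨0,[]⟩) .k .k) (.R ⟨2,true,false,false,[0,1],[1,0,0,
  0,-1],[1,0,1],(⟨0,[]⟩,⟨0,[]⟩),(⟨0,[(33,0)]⟩,⟨0,[(34,0)]⟩),⟨0,[]⟩,.k,.k,.k,(.r 0 ⟨1,[(12,0),(2,0),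
  (8,0),(6,0)]⟩ ⟨2,[(17,0),(5,1),(26,0)]⟩),.k,.k,⟨false,0,⟨0,[(52,0)]⟩,⟨1,[(49,0),(0,0)]⟩⟩,⟨true,1,
  ⟨4,[(2,1),(4,0),(1,1),(11,1),(9,2),(10,0)]⟩,⟨0,[(1,0)]⟩⟩,⟨false,1,⟨0,[(47,0),(2,0)]⟩,⟨0,[(48,
  0)]⟩⟩,⟨true,2,⟨0,[(2,0),(44,0)]⟩,⟨0,[(0,0)]⟩⟩,⟨true,0,⟨0,[]⟩,⟨0,[(52,0)]⟩⟩,⟨false,2,⟨0,[(2,0)]⟩,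
  ⟨0,[(19,0)]⟩⟩,[]⟩) (.R ⟨1,true,false,true,[1,-1],[0,0,0,0,1],[0,1,-1,-1],(⟨0,[(43,0)]⟩,⟨0,[(44,
  0)]⟩),(⟨0,[(34,0)]⟩,⟨0,[(33,0)]⟩),⟨1,[(10,0),(19,0),(12,0)]⟩,.k,.k,(.r (-1) ⟨4,[(17,1),(5,3),(1,
  1),(23,0)]⟩ ⟨10,[(2,5),(6,5),(5,5),(1,3),(6,3),(14,5),(8,1)]⟩),(.r (-1) ⟨2,[(17,0),(5,1),(26,0)]⟩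
  ⟨1,[(12,0),(2,0),(8,0),(6,0)]⟩),(.r (-2) ⟨12,[(0,3),(7,2),(14,7),(4,3),(3,3),(4,4),(11,4),(0,4)]⟩
  ⟨5,[(9,4),(7,1),(6,0),(1,1),(15,0),(5,1)]⟩),.k,⟨true,1,⟨2,[(17,0),(5,1),(26,0)]⟩,⟨21,[(7,2),(1,
  17),(7,4),(3,3),(2,1),(1,0),(10,1)]⟩⟩,⟨false,0,⟨0,[(1,0),(47,0)]⟩,⟨4,[(2,1),(4,0),(1,1),(11,1),(9,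
  2),(10,0)]⟩⟩,⟨true,0,⟨0,[(52,0)]⟩,⟨0,[]⟩⟩,⟨false,(-1),⟨0,[(26,0),(5,0)]⟩,⟨0,[(0,0)]⟩⟩,⟨false,0,⟨0,
  [(48,0)]⟩,⟨21,[(0,5),(7,3),(14,3),(4,5),(2,0),(0,6),(6,7),(10,4)]⟩⟩,⟨true,(-2),⟨0,[(1,0),(24,1),
  (15,0)]⟩,⟨0,[(0,0),(46,0)]⟩⟩,[]⟩))) (.Q [0,0,0,0,0,-1,0,0,0,1,0,-1] (.ed true [0,1,0,0,1] .k) (.S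
  ⟨1,0,[0,-1],[1,0,0,0,-1],[],(⟨0,[(32,0)]⟩,⟨0,[(33,0)]⟩),⟨0,[(0,0)]⟩,.k,(.r (-1) ⟨2,[(16,0),(5,1),
  (26,0)]⟩ ⟨1,[(11,0),(2,0),(8,0),(6,0)]⟩),⟨true,0,⟨0,[(51,0)]⟩,⟨0,[]⟩⟩,⟨false,1,⟨1,[(30,0),(0,0),
  (17,0)]⟩,⟨0,[]⟩⟩,⟨false,0,⟨0,[(47,0)]⟩,⟨0,[(46,0),(2,0)]⟩⟩,⟨true,0,⟨0,[(47,0)]⟩,⟨0,[(46,0)]⟩⟩,[.o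
  ⟨false,2,⟨1,[(30,1),(10,0),(7,0)]⟩,⟨1,[(1,1),(39,0),(7,0)]⟩⟩,.a ⟨true,2,⟨0,[(30,0),(18,0)]⟩,⟨0,
  [(1,0)]⟩⟩ ⟨false,1,⟨1,[(48,0),(0,0)]⟩,⟨0,[(51,0)]⟩⟩ ⟨true,1,⟨0,[(49,0)]⟩,⟨10,[(6,2),(1,5),(1,2),
  (9,1),(4,1),(10,0),(7,3)]⟩⟩,.e ⟨false,1,⟨1,[(30,0),(0,0),(17,0)]⟩,⟨0,[]⟩⟩ ⟨false,1,⟨0,[(49,0)]⟩,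
  ⟨0,[(51,0)]⟩⟩,.o ⟨false,1,⟨0,[(4,0),(1,0),(4,0)]⟩,⟨1,[(1,1),(39,0),(6,0),(0,1)]⟩⟩]⟩) (.R ⟨0,false,
  false,false,[1,0,0,0,-1],[1,0,-1],[1,0,1],(⟨0,[(32,0)]⟩,⟨0,[(33,0)]⟩),(⟨0,[(39,0)]⟩,⟨0,[(40,0)]⟩),
  ⟨0,[(0,0)]⟩,.k,.k,(.r (-1) ⟨2,[(16,0),(5,1),(26,0)]⟩ ⟨1,[(11,0),(2,0),(8,0),(6,0)]⟩),.k,.k,.k,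
  ⟨true,0,⟨0,[(19,0)]⟩,⟨2,[(16,0),(3,0),(13,0)]⟩⟩,⟨false,0,⟨1,[(1,1),(11,1),(3,1),(23,0),(5,3),(1,
  2)]⟩,⟨4,[(4,0),(1,1),(20,0),(2,3),(10,0)]⟩⟩,⟨false,0,⟨2,[(11,0),(15,0),(10,0)]⟩,⟨1,[(48,0),(0,
  0)]⟩⟩,⟨true,(-1),⟨1,[(1,1),(15,1),(23,0),(5,1),(1,0)]⟩,⟨0,[(4,0),(1,0),(12,0)]⟩⟩,⟨false,0,⟨0,[]⟩,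
  ⟨0,[]⟩⟩,⟨false,0,⟨0,[]⟩,⟨0,[]⟩⟩,[.e ⟨false,0,⟨0,[]⟩,⟨1,[(30,0),(0,0),(16,0)]⟩⟩ ⟨false,0,⟨5,[(1,9),
  (2,3),(11,1),(0,1),(23,2),(7,8)]⟩,⟨0,[(4,0),(1,0),(12,0)]⟩⟩,.o ⟨false,1,⟨1,[(17,1),(23,0),(5,1),
  (1,0)]⟩,⟨0,[(35,0)]⟩⟩,.a ⟨true,1,⟨0,[(30,0)]⟩,⟨0,[(1,0),(47,0)]⟩⟩ ⟨true,0,⟨2,[(11,0),(15,0),(10,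
  0)]⟩,⟨1,[(1,0),(2,0),(16,0)]⟩⟩ ⟨false,0,⟨1,[(1,1),(15,1),(23,0),(5,1),(1,2)]⟩,⟨0,[(4,0),(1,0),(12,
  0)]⟩⟩,.o ⟨false,1,⟨0,[(4,0),(1,0),(4,0)]⟩,⟨1,[(1,1),(39,0),(6,0),(0,1)]⟩⟩]⟩)))))) (.Q [0,0,1,0,0,
  0,0,0,-1,0,0,1] (.p true [0,0,0,0,1] [] (⟨0,[(28,0)]⟩,⟨0,[(27,0)]⟩) .k 0 (⟨0,[]⟩,⟨0,[]⟩) .k .k)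
  (.Q [0,0,0,0,0,-1,0,0,0,1,0,-1] (.ed true [0,1,0,0,1] .k) (.S ⟨1,0,[0,-1],[1,0,0,0,-1],[1,0,0,-1],
  (⟨0,[(29,0)]⟩,⟨0,[(30,0)]⟩),⟨0,[(0,0)]⟩,.k,(.r (-1) ⟨2,[(13,0),(5,1),(26,0)]⟩ ⟨1,[(8,0),(2,0),(8,
  0),(6,0)]⟩),⟨true,0,⟨0,[(43,0)]⟩,⟨0,[(44,0)]⟩⟩,⟨false,1,⟨1,[(27,0),(0,0),(17,0)]⟩,⟨0,[]⟩⟩,⟨false,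
  0,⟨0,[]⟩,⟨1,[(27,0),(0,0),(17,0)]⟩⟩,⟨true,0,⟨0,[(44,0)]⟩,⟨0,[(43,0)]⟩⟩,[.e ⟨false,1,⟨19,[(13,3),
  (5,11),(4,1),(2,6),(0,6),(4,3),(4,0)]⟩,⟨0,[(44,0)]⟩⟩ ⟨false,1,⟨1,[(45,0),(0,0)]⟩,⟨0,[(48,0)]⟩⟩,.o
  ⟨false,2,⟨1,[(1,1),(36,0),(6,0),(0,1)]⟩,⟨0,[(11,0),(5,0)]⟩⟩,.o ⟨false,1,⟨1,[(1,1),(36,0),(6,0)]⟩,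
  ⟨0,[(28,0)]⟩⟩,.a ⟨true,0,⟨0,[(1,0)]⟩,⟨1,[(15,1),(29,0),(0,0)]⟩⟩ ⟨false,1,⟨2,[(13,0),(5,1),(26,
  0)]⟩,⟨1,[(5,0),(14,0),(25,0)]⟩⟩ ⟨true,1,⟨1,[(45,0),(0,0)]⟩,⟨10,[(3,2),(1,5),(1,2),(9,1),(4,1),(10,
  0),(7,3)]⟩⟩]⟩) (.Q [0,0,2,0,0,0,0,0,-1,-1,0,1] (.p true [0,0,0,0,1] [1] (⟨0,[(30,0)]⟩,⟨0,[(29,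
  0)]⟩) .k 1 (⟨0,[]⟩,⟨0,[]⟩) .k .k) (.R ⟨0,false,false,true,[1,0,0,0,-1],[0,1],[1,1,1],(⟨0,[(30,
  0)]⟩,⟨0,[(31,0)]⟩),(⟨0,[(41,0)]⟩,⟨0,[(40,0)]⟩),⟨0,[(1,0)]⟩,.k,.k,(.r (-1) ⟨2,[(14,0),(5,1),(26,
  0)]⟩ ⟨1,[(9,0),(2,0),(8,0),(6,0)]⟩),(.r (-1) ⟨2,[(14,0),(5,1),(26,0)]⟩ ⟨1,[(9,0),(2,0),(8,0),(6,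
  0)]⟩),.k,.k,⟨false,1,⟨19,[(14,3),(5,11),(4,1),(2,6),(0,6),(4,3),(4,0)]⟩,⟨0,[(45,0)]⟩⟩,⟨true,0,⟨1,
  [(16,1),(29,0),(0,0)]⟩,⟨0,[(0,0)]⟩⟩,⟨true,(-1),⟨10,[(4,2),(1,5),(1,2),(9,1),(4,1),(10,0),(7,3)]⟩,
  ⟨1,[(46,0),(0,0)]⟩⟩,⟨false,(-1),⟨0,[(23,0),(5,0)]⟩,⟨5,[(2,5),(11,1),(5,3),(18,2),(7,4)]⟩⟩,⟨false,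
  0,⟨0,[]⟩,⟨0,[]⟩⟩,⟨false,0,⟨0,[]⟩,⟨0,[]⟩⟩,[.a ⟨true,(-1),⟨0,[(23,0)]⟩,⟨0,[(44,0),(2,0)]⟩⟩ ⟨false,0,
  ⟨0,[(49,0)]⟩,⟨1,[(46,0),(0,0)]⟩⟩ ⟨true,(-1),⟨0,[(23,0),(5,0)]⟩,⟨2,[(0,2),(13,0),(5,1),(26,0)]⟩⟩,
  .o ⟨false,0,⟨0,[(45,0)]⟩,⟨1,[(39,0),(4,1),(2,0)]⟩⟩,.o ⟨false,1,⟨1,[(2,1),(36,0),(6,0)]⟩,⟨0,[(29,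
  0)]⟩⟩,.e ⟨false,0,⟨0,[]⟩,⟨1,[(28,0),(0,0),(17,0)]⟩⟩ ⟨false,0,⟨1,[(23,1),(5,1),(16,0),(0,0)]⟩,⟨2,
  [(0,2),(13,0),(5,1),(26,0)]⟩⟩]⟩) (.K ⟨0,[0,0,0,0,1],0,(-1),(⟨0,[(31,0)]⟩,⟨0,[(30,0)]⟩),.k,(.r 0
  ⟨0,[(43,0)]⟩ ⟨1,[(9,0),(2,0),(8,0),(6,0),(18,1)]⟩),(.r 0 ⟨1,[(9,0),(2,0),(8,0),(6,0)]⟩ ⟨2,[(14,0),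
  (5,1),(26,0)]⟩),.k,.k,[⟨0,[(0,0),(8,0)]⟩,⟨0,[(2,0)]⟩,⟨0,[(28,0)]⟩,⟨0,[(12,0),(5,0)]⟩]⟩))) (.Q [0,
  -1,0,1,1,0,0,0,-1,0,0,1] (.p true [0,0,0,0,1] [] (⟨0,[(29,0)]⟩,⟨0,[(28,0)]⟩) .k 0 (⟨0,[]⟩,⟨0,[]⟩)
  .k .k) (.Q [0,-1,0,0,1,0,0,0,-1,0,0,1] (.p true [0,0,0,0,1] [] (⟨0,[(30,0)]⟩,⟨0,[(29,0)]⟩) .k 0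
  (⟨0,[]⟩,⟨0,[]⟩) .k .k) (.Q [0,0,0,0,1,0,0,0,-1,-1,0,1] (.p true [0,0,0,0,1] [1] (⟨0,[(31,0)]⟩,⟨0,
  [(30,0)]⟩) .k 1 (⟨0,[]⟩,⟨0,[]⟩) .k .k) (.S ⟨1,0,[],[1,0,0,0,-1],[0,-1],(⟨0,[(31,0)]⟩,⟨0,[(32,
  0)]⟩),⟨11,[(3,9),(0,9),(0,6),(0,2),(0,4),(0,3),(1,0),(4,0),(12,13),(2,1),(16,1)]⟩,.k,(.r (-1) ⟨2,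
  [(15,0),(5,1),(26,0)]⟩ ⟨1,[(10,0),(2,0),(8,0),(6,0)]⟩),⟨false,1,⟨1,[(29,0),(0,0),(17,0)]⟩,⟨0,[]⟩⟩,
  ⟨true,0,⟨0,[(50,0)]⟩,⟨0,[]⟩⟩,⟨true,0,⟨0,[(46,0)]⟩,⟨0,[(45,0)]⟩⟩,⟨false,0,⟨0,[(46,0)]⟩,⟨0,[(45,0),
  (2,0)]⟩⟩,[.o ⟨false,1,⟨0,[(0,0)]⟩,⟨0,[(30,0)]⟩⟩,.a ⟨true,1,⟨0,[(1,0)]⟩,⟨0,[(17,0)]⟩⟩ ⟨true,1,⟨0,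
  [(48,0)]⟩,⟨10,[(5,2),(1,5),(1,2),(9,1),(4,1),(10,0),(7,3)]⟩⟩ ⟨false,1,⟨1,[(47,0),(0,0)]⟩,⟨0,[(50,
  0)]⟩⟩,.o ⟨false,1,⟨0,[(0,0)]⟩,⟨0,[(30,0)]⟩⟩,.o ⟨false,1,⟨1,[(0,0),(24,0),(3,0)]⟩,⟨0,[(3,0)]⟩⟩]⟩)
  (.S ⟨1,0,[],[1,0,0,0,-1],[0,-1],(⟨0,[(31,0)]⟩,⟨0,[(32,0)]⟩),⟨11,[(0,4),(3,4),(0,2),(2,3),(1,0),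
  (17,8),(2,6),(8,2)]⟩,.k,(.r (-1) ⟨2,[(15,0),(5,1),(26,0)]⟩ ⟨1,[(10,0),(2,0),(8,0),(6,0)]⟩),⟨false,
  1,⟨1,[(29,0),(0,0),(17,0)]⟩,⟨0,[]⟩⟩,⟨true,0,⟨0,[(50,0)]⟩,⟨0,[]⟩⟩,⟨true,0,⟨0,[(46,0)]⟩,⟨0,[(45,
  0)]⟩⟩,⟨false,0,⟨0,[(46,0)]⟩,⟨0,[(45,0),(2,0)]⟩⟩,[.e ⟨false,1,⟨1,[(47,0),(0,0)]⟩,⟨0,[(50,0)]⟩⟩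
  ⟨false,1,⟨1,[(29,0),(0,0),(16,0)]⟩,⟨0,[]⟩⟩,.a ⟨true,1,⟨0,[(1,0)]⟩,⟨0,[(17,0)]⟩⟩ ⟨true,1,⟨0,[(48,
  0)]⟩,⟨10,[(5,2),(1,5),(1,2),(9,1),(4,1),(10,0),(7,3)]⟩⟩ ⟨false,1,⟨1,[(47,0),(0,0)]⟩,⟨0,[(50,0)]⟩⟩,
  .e ⟨false,1,⟨0,[(48,0)]⟩,⟨0,[(50,0)]⟩⟩ ⟨false,1,⟨1,[(29,0),(0,0),(17,0)]⟩,⟨0,[]⟩⟩,.o ⟨false,1,⟨8,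
  [(1,3),(3,0),(1,1),(11,1),(5,1),(3,4),(10,2)]⟩,⟨0,[(3,0)]⟩⟩]⟩)) (.Q [0,-2,0,0,2,0,0,0,-1,-1,0,1]
  (.p true [0,0,0,0,1] [1] (⟨0,[(31,0)]⟩,⟨0,[(30,0)]⟩) .k 1 (⟨0,[]⟩,⟨0,[]⟩) .k .k) (.R ⟨2,false,
  false,true,[0,1],[0,0,0,0,1],[0,2,1],(⟨0,[]⟩,⟨0,[]⟩),(⟨0,[(32,0)]⟩,⟨0,[(31,0)]⟩),⟨0,[]⟩,.k,.k,.k,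
  (.r (-1) ⟨4,[(2,1),(7,1),(2,1),(1,0),(13,2),(0,2),(17,1)]⟩ ⟨0,[(44,0)]⟩),.k,.k,⟨true,0,⟨2,[(10,0),
  (15,0),(10,0)]⟩,⟨0,[]⟩⟩,⟨false,0,⟨0,[(30,0)]⟩,⟨0,[(2,0),(41,0)]⟩⟩,⟨false,0,⟨0,[(45,0)]⟩,⟨0,[(46,
  0),(1,0)]⟩⟩,⟨true,(-1),⟨7,[(1,2),(7,3),(1,3),(5,0),(7,0),(17,1)]⟩,⟨0,[(2,0)]⟩⟩,⟨false,0,⟨0,[(50,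
  0)]⟩,⟨0,[(48,0)]⟩⟩,⟨false,(-1),⟨0,[(1,0)]⟩,⟨0,[(29,0),(18,0)]⟩⟩,[.o ⟨false,(-1),⟨3,[(1,2),(15,0),
  (7,0),(17,1)]⟩,⟨0,[(0,0)]⟩⟩,.o ⟨false,(-1),⟨0,[(1,0)]⟩,⟨3,[(0,1),(28,2),(0,0),(9,0)]⟩⟩,.a ⟨true,0,
  ⟨7,[(16,1),(4,1),(2,5),(8,1),(13,0),(0,2)]⟩,⟨2,[(10,0),(15,0),(10,0)]⟩⟩ ⟨true,(-1),⟨10,[(5,2),(1,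
  5),(1,2),(9,1),(4,1),(10,0),(7,3)]⟩,⟨1,[(47,0),(0,0)]⟩⟩ ⟨false,(-1),⟨1,[(1,0),(15,0),(7,0)]⟩,⟨4,
  [(0,0),(1,3),(3,0),(14,0),(11,0),(13,0),(0,1)]⟩⟩,.e ⟨false,0,⟨0,[(50,0)]⟩,⟨0,[(48,0)]⟩⟩ ⟨false,
  (-1),⟨0,[(1,0)]⟩,⟨0,[(29,0),(18,0)]⟩⟩]⟩) (.S ⟨1,0,[0,-1],[1,0,0,0,-1],[],(⟨0,[(31,0)]⟩,⟨0,[(32,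
  0)]⟩),⟨23,[(1,9),(2,9),(0,5),(2,7),(1,1),(17,17),(2,13),(8,0),(7,4)]⟩,.k,(.r (-1) ⟨2,[(15,0),(5,
  1),(26,0)]⟩ ⟨1,[(10,0),(2,0),(8,0),(6,0)]⟩),⟨true,0,⟨0,[(50,0)]⟩,⟨0,[]⟩⟩,⟨false,1,⟨1,[(29,0),(0,
  0),(17,0)]⟩,⟨0,[]⟩⟩,⟨false,0,⟨0,[(46,0)]⟩,⟨0,[(45,0),(2,0)]⟩⟩,⟨true,0,⟨0,[(46,0)]⟩,⟨0,[(45,0)]⟩⟩,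
  [.o ⟨false,2,⟨1,[(29,1),(10,0),(7,0)]⟩,⟨0,[(1,0)]⟩⟩,.a ⟨true,2,⟨0,[(29,0),(18,0)]⟩,⟨0,[(0,0)]⟩⟩
  ⟨false,1,⟨1,[(47,0),(0,0)]⟩,⟨0,[(50,0)]⟩⟩ ⟨true,1,⟨0,[(48,0)]⟩,⟨10,[(5,2),(1,5),(1,2),(9,1),(4,1),
  (10,0),(7,3)]⟩⟩,.e ⟨false,1,⟨1,[(29,0),(0,0),(17,0)]⟩,⟨0,[]⟩⟩ ⟨false,1,⟨0,[(48,0)]⟩,⟨0,[(50,0)]⟩⟩,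
  .o ⟨false,1,⟨7,[(2,3),(2,0),(1,0),(1,1),(2,0),(12,2),(3,3),(10,1)]⟩,⟨0,[(3,0)]⟩⟩]⟩))) (.S ⟨1,0,[0,
  -1],[1,0,0,0,-1],[],(⟨0,[(29,0)]⟩,⟨0,[(30,0)]⟩),⟨47,[(0,19),(1,19),(0,9),(1,3),(0,15),(6,1),(12,
  35),(2,27),(8,2),(5,13),(1,10)]⟩,.k,(.r (-1) ⟨2,[(13,0),(5,1),(26,0)]⟩ ⟨1,[(8,0),(2,0),(8,0),(6,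
  0)]⟩),⟨true,0,⟨0,[(48,0)]⟩,⟨0,[]⟩⟩,⟨false,1,⟨1,[(27,0),(0,0),(17,0)]⟩,⟨0,[]⟩⟩,⟨false,0,⟨0,[(44,
  0)]⟩,⟨0,[(43,0),(2,0)]⟩⟩,⟨true,0,⟨0,[(44,0)]⟩,⟨0,[(43,0)]⟩⟩,[.o ⟨false,2,⟨1,[(27,1),(10,0),(7,
  0)]⟩,⟨0,[(0,0),(43,0)]⟩⟩,.a ⟨true,2,⟨0,[(27,0),(18,0)]⟩,⟨0,[(0,0),(21,0)]⟩⟩ ⟨false,1,⟨1,[(45,0),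
  (0,0)]⟩,⟨0,[(48,0)]⟩⟩ ⟨true,1,⟨0,[(46,0)]⟩,⟨10,[(3,2),(1,5),(1,2),(9,1),(4,1),(10,0),(7,3)]⟩⟩,.e
  ⟨false,1,⟨1,[(27,0),(0,0),(17,0)]⟩,⟨0,[]⟩⟩ ⟨false,1,⟨0,[(46,0)]⟩,⟨0,[(48,0)]⟩⟩,.o ⟨false,1,⟨1,[(2,
  0),(0,0),(4,0),(17,0),(0,0),(2,0),(7,0)]⟩,⟨0,[(1,0)]⟩⟩]⟩))))))))) (.Q [0,-1,0,2,0,0,1,1,0,1,-1]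
  (.p false [0,0,1] [1] (⟨0,[(29,0)]⟩,⟨0,[(28,0)]⟩) .k 1 (⟨0,[]⟩,⟨0,[]⟩) .k .k) (.R ⟨1,false,false,
  false,[1,0,-1],[0,1],[1,0,1,1],(⟨0,[(29,0)]⟩,⟨0,[(30,0)]⟩),(⟨0,[(33,0)]⟩,⟨0,[(32,0)]⟩),⟨0,[(18,
  0)]⟩,.k,.k,.k,.k,(.r (-1) ⟨4,[(6,3),(5,2),(1,3),(23,1)]⟩ ⟨2,[(0,1),(8,0),(6,1),(11,1),(5,0),(2,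
  1)]⟩),.k,⟨true,0,⟨0,[]⟩,⟨3,[(16,0),(0,0),(10,1)]⟩⟩,⟨false,0,⟨0,[(1,0)]⟩,⟨1,[(20,0),(0,0),(6,1),(2,
  0)]⟩⟩,⟨true,0,⟨0,[(9,0),(27,0)]⟩,⟨10,[(1,2),(4,3),(3,2),(3,5),(19,2)]⟩⟩,⟨true,0,⟨1,[(0,0),(1,0),
  (17,0)]⟩,⟨0,[(10,0)]⟩⟩,⟨true,0,⟨0,[(9,0),(27,1)]⟩,⟨10,[(1,0),(4,4),(3,0),(3,12),(19,0)]⟩⟩,⟨false,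
  0,⟨0,[(0,0)]⟩,⟨1,[(7,1),(23,0),(4,1),(2,0)]⟩⟩,[.o ⟨false,0,⟨0,[(37,0)]⟩,⟨1,[(31,0),(4,1),(2,0)]⟩⟩,
  .a ⟨true,0,⟨0,[(15,0),(23,0)]⟩,⟨0,[(36,0)]⟩⟩ ⟨false,1,⟨3,[(0,1),(19,0),(0,0),(4,1),(4,0),(7,1)]⟩,
  ⟨0,[(35,0)]⟩⟩ ⟨true,0,⟨0,[(11,0),(3,0),(23,0)]⟩,⟨0,[(9,0),(0,0)]⟩⟩,.o ⟨false,1,⟨1,[(28,1),(2,0),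
  (6,0)]⟩,⟨0,[(11,0)]⟩⟩,.e ⟨true,0,⟨0,[(37,0)]⟩,⟨0,[(36,0)]⟩⟩ ⟨true,0,⟨2,[(0,0),(0,0),(11,0),(10,
  0)]⟩,⟨0,[(9,0),(0,0)]⟩⟩]⟩) (.Q [0,0,0,0,0,0,-1,0,1,0,1,-1] (.p true [0,0,1] [0,0,0,0,1] (⟨0,[(30,
  0)]⟩,⟨0,[(29,0)]⟩) .k 2 (⟨0,[(23,0)]⟩,⟨0,[(22,0)]⟩) .k (.r (-1) ⟨1,[(9,1),(28,0),(0,0)]⟩ ⟨3,[(0,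
  0),(12,1),(3,0),(8,0)]⟩)) (.Q [0,0,-1,0,0,0,0,0,1,0,0,-1] (.p false [0,0,0,0,1] [] (⟨0,[(24,0)]⟩,
  ⟨0,[(23,0)]⟩) .k 0 (⟨0,[]⟩,⟨0,[]⟩) .k .k) (.Q [0,-1,0,0,1,0,0,0,-1,0,0,1] (.p true [0,0,0,0,1] []
  (⟨0,[(25,0)]⟩,⟨0,[(24,0)]⟩) .k 0 (⟨0,[]⟩,⟨0,[]⟩) .k .k) (.Q [0,0,0,0,0,-1,0,0,0,1,0,-1] (.ed true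
  [0,1,0,0,1] .k) (.S ⟨1,0,[],[1,0,0,0,-1],[0,-1],(⟨0,[(26,0)]⟩,⟨0,[(27,0)]⟩),⟨0,[(0,0)]⟩,.k,(.r
  (-1) ⟨2,[(10,0),(5,1),(26,0)]⟩ ⟨0,[(13,0),(3,0)]⟩),⟨false,1,⟨1,[(24,0),(0,0),(17,0)]⟩,⟨0,[]⟩⟩,
  ⟨true,0,⟨0,[(45,0)]⟩,⟨0,[]⟩⟩,⟨true,0,⟨0,[(41,0)]⟩,⟨0,[(40,0)]⟩⟩,⟨false,0,⟨0,[(41,0)]⟩,⟨0,[(40,0),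
  (2,0)]⟩⟩,[.e ⟨false,1,⟨1,[(42,0),(0,0)]⟩,⟨0,[(45,0)]⟩⟩ ⟨false,1,⟨1,[(24,0),(0,0),(16,0)]⟩,⟨0,[]⟩⟩,
  .a ⟨true,1,⟨0,[(1,0)]⟩,⟨0,[(12,0)]⟩⟩ ⟨true,1,⟨0,[(43,0)]⟩,⟨1,[(4,0),(14,1),(0,0),(8,0)]⟩⟩ ⟨false,
  1,⟨1,[(42,0),(0,0)]⟩,⟨0,[(45,0)]⟩⟩,.e ⟨false,1,⟨0,[(43,0)]⟩,⟨0,[(45,0)]⟩⟩ ⟨false,1,⟨1,[(24,0),(0,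
  0),(17,0)]⟩,⟨0,[]⟩⟩,.o ⟨false,1,⟨5,[(1,3),(2,0),(14,1),(0,2),(3,1),(4,0),(5,1)]⟩,⟨0,[(2,0)]⟩⟩]⟩)
  (.Q [0,0,0,0,1,0,0,0,-1,-1,0,1] (.p true [0,0,0,0,1] [1] (⟨0,[(27,0)]⟩,⟨0,[(26,0)]⟩) .k 1 (⟨0,[]⟩,
  ⟨0,[]⟩) .k .k) (.R ⟨0,false,false,true,[1,0,0,0,-1],[1,-1],[0,0,1],(⟨0,[(27,0)]⟩,⟨0,[(28,0)]⟩),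
  (⟨0,[(37,0)]⟩,⟨0,[(38,0)]⟩),⟨0,[(1,0)]⟩,.k,.k,(.r (-1) ⟨2,[(11,0),(5,1),(26,0)]⟩ ⟨0,[(14,0),(3,
  0)]⟩),(.r (-1) ⟨0,[(14,0),(3,0),(25,0)]⟩ ⟨0,[(40,0)]⟩),.k,.k,⟨true,0,⟨0,[(20,0),(0,0),(22,0)]⟩,⟨5,
  [(6,0),(1,0),(6,0),(3,1),(19,0)]⟩⟩,⟨false,0,⟨0,[(26,0)]⟩,⟨5,[(0,2),(1,2),(3,0),(10,0),(2,1),(10,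
  0),(11,0)]⟩⟩,⟨false,0,⟨3,[(21,0),(0,0),(10,1)]⟩,⟨1,[(43,0),(0,0)]⟩⟩,⟨true,(-1),⟨0,[(5,0),(3,0)]⟩,
  ⟨0,[(2,0),(39,0)]⟩⟩,⟨false,0,⟨0,[]⟩,⟨0,[]⟩⟩,⟨false,0,⟨0,[]⟩,⟨0,[]⟩⟩,[.a ⟨true,0,⟨0,[(41,0)]⟩,⟨0,
  [(20,0),(23,0)]⟩⟩ ⟨true,0,⟨3,[(21,0),(0,0),(10,1)]⟩,⟨0,[]⟩⟩ ⟨false,0,⟨3,[(3,0),(15,1),(6,2),(12,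
  0)]⟩,⟨0,[(2,0),(39,0)]⟩⟩,.o ⟨false,1,⟨1,[(36,0),(4,1),(2,0)]⟩,⟨0,[(42,0)]⟩⟩,.o ⟨false,1,⟨0,[(0,
  0)]⟩,⟨0,[(26,0)]⟩⟩,.o ⟨false,1,⟨1,[(0,0),(20,0),(3,0)]⟩,⟨0,[(3,0)]⟩⟩]⟩) (.R ⟨0,false,false,true,
  [1,0,0,0,-1],[0,0,1],[0,0,0,-1],(⟨0,[(27,0)]⟩,⟨0,[(28,0)]⟩),(⟨0,[(35,0)]⟩,⟨0,[(34,0)]⟩),⟨0,[(1,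
  0)]⟩,.k,.k,(.r (-1) ⟨2,[(11,0),(5,1),(26,0)]⟩ ⟨0,[(14,0),(3,0)]⟩),.k,.k,.k,⟨false,1,⟨0,[(0,1),(1,
  1),(2,1),(0,1),(1,0),(12,1),(20,3),(1,0)]⟩,⟨2,[(8,0),(5,1),(24,0),(2,3)]⟩⟩,⟨true,(-1),⟨0,[(0,0),
  (15,0)]⟩,⟨1,[(2,1),(11,0),(0,0),(4,0),(12,0),(2,0)]⟩⟩,⟨true,0,⟨0,[(41,0)]⟩,⟨0,[(42,0)]⟩⟩,⟨false,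
  (-1),⟨0,[(7,0)]⟩,⟨1,[(2,1),(9,1),(23,0),(5,1),(1,0)]⟩⟩,⟨false,0,⟨0,[]⟩,⟨0,[]⟩⟩,⟨false,0,⟨0,[]⟩,⟨0,
  []⟩⟩,[.o ⟨false,0,⟨0,[(30,0)]⟩,⟨1,[(12,1),(23,0),(5,1),(1,0)]⟩⟩,.e ⟨false,1,⟨2,[(11,0),(5,1),(26,
  0)]⟩,⟨2,[(14,0),(3,0),(20,0),(2,1)]⟩⟩ ⟨false,0,⟨2,[(9,1),(7,0),(8,0),(2,0),(14,0)]⟩,⟨0,[(2,0),(12,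
  0),(26,0)]⟩⟩,.a ⟨true,1,⟨0,[(25,0)]⟩,⟨0,[(0,0)]⟩⟩ ⟨false,1,⟨0,[(41,0),(2,0)]⟩,⟨0,[(42,0)]⟩⟩ ⟨true,
  (-1),⟨0,[(7,0)]⟩,⟨0,[(2,0),(12,0),(26,0)]⟩⟩,.o ⟨false,1,⟨5,[(2,3),(2,0),(14,1),(0,2),(3,1),(4,0),
  (5,1)]⟩,⟨0,[(3,0)]⟩⟩]⟩))) (.I [1,-1,1,1,0,0,0,-1] (.I [0,0,1,0,-1,-1,1,0,1] (.I [0,0,-1,0,2,1,-1,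
  0,-1] (.N [0,-1,1,0,1] 0 ⟨0,[(9,0)]⟩ ⟨0,[(2,0)]⟩ (.x 1 ⟨0,[(1,0)]⟩ ⟨0,[(0,0)]⟩)) (.Q [0,0,-1,0,-1,
  0,0,0,1,1,0,-1] (.p false [0,0,0,0,1] [1] (⟨0,[(29,0)]⟩,⟨0,[(28,0)]⟩) .k 1 (⟨0,[]⟩,⟨0,[]⟩) .k .k)
  (.S ⟨1,0,[0,2],[0,0,0,0,1],[1,1,0,-1],(⟨0,[(30,0)]⟩,⟨0,[(29,0)]⟩),⟨3,[(1,1),(8,1),(3,1),(10,1),(1,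
  1),(2,1),(7,0),(5,3),(1,0)]⟩,.k,(.r 0 ⟨0,[(42,0)]⟩ ⟨6,[(3,3),(2,2),(4,2),(4,0),(6,0),(3,5),(10,0),
  (7,2)]⟩),⟨false,1,⟨0,[(43,0),(2,0)]⟩,⟨0,[(44,0)]⟩⟩,⟨true,0,⟨0,[(48,0)]⟩,⟨0,[]⟩⟩,⟨true,0,⟨0,[]⟩,⟨0,
  [(48,0)]⟩⟩,⟨false,0,⟨0,[(44,0)]⟩,⟨0,[(43,0),(2,0)]⟩⟩,[.e ⟨false,0,⟨5,[(8,0),(1,0),(6,0),(3,1),(19,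
  0)]⟩,⟨9,[(6,1),(4,1),(8,1),(6,3),(10,0),(5,5),(1,6)]⟩⟩ ⟨false,0,⟨0,[(41,0)]⟩,⟨0,[(46,0)]⟩⟩,.o
  ⟨false,(-1),⟨0,[(4,0)]⟩,⟨1,[(27,1),(10,0),(7,0)]⟩⟩,.a ⟨true,(-1),⟨6,[(0,3),(0,0),(13,1),(7,0),(5,
  0),(5,0),(0,0),(3,0),(5,0)]⟩,⟨0,[(27,0)]⟩⟩ ⟨true,0,⟨0,[(43,0)]⟩,⟨0,[(44,0)]⟩⟩ ⟨false,0,⟨0,[(48,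
  0)]⟩,⟨0,[(46,0)]⟩⟩,.o ⟨false,(-1),⟨0,[(0,0),(22,0)]⟩,⟨1,[(27,1),(10,0),(6,0)]⟩⟩]⟩) (.S ⟨1,0,[0,0,
  -1,-1,0,0,0,1],[0,-1,1],[1,1,-1,-2,0,0,0,1],(⟨0,[(26,0)]⟩,⟨0,[(36,0),(3,0)]⟩),⟨1,[(0,2),(0,2),(6,
  0),(1,3),(3,3),(10,0),(3,2),(8,0),(5,7),(1,1)]⟩,.k,(.r (-1) ⟨1,[(0,0),(0,0),(5,1),(0,0),(1,3),(14,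
  0),(3,0),(10,1),(3,3),(1,2)]⟩ ⟨0,[(3,0),(12,0),(3,0)]⟩),⟨true,0,⟨0,[(43,0)]⟩,⟨0,[(44,0)]⟩⟩,⟨false,
  1,⟨1,[(27,0),(0,0),(17,0)]⟩,⟨0,[]⟩⟩,⟨false,0,⟨0,[]⟩,⟨1,[(27,0),(0,0),(17,0)]⟩⟩,⟨true,0,⟨0,[(44,
  0)]⟩,⟨0,[(43,0)]⟩⟩,[.e ⟨false,1,⟨7,[(16,0),(2,6),(7,0),(0,0),(12,2),(1,1)]⟩,⟨0,[(3,0),(40,0)]⟩⟩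
  ⟨false,1,⟨0,[(19,0),(24,0)]⟩,⟨5,[(3,0),(7,0),(1,1),(6,1),(2,0),(3,0),(7,0)]⟩⟩,.o ⟨false,1,⟨3,[(16,
  1),(1,1),(0,1),(3,0),(0,0),(21,1)]⟩,⟨0,[(17,0),(26,1)]⟩⟩,.o ⟨false,0,⟨0,[(34,0)]⟩,⟨1,[(10,1),(3,
  1),(23,0),(5,3),(1,0)]⟩⟩,.a ⟨true,(-1),⟨0,[(0,0),(0,0),(27,0),(6,0),(3,0)]⟩,⟨0,[(14,0),(4,0),(24,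
  2)]⟩⟩ ⟨false,1,⟨0,[(19,0)]⟩,⟨2,[(3,3),(12,1),(3,0),(23,0)]⟩⟩ ⟨true,1,⟨0,[(19,0),(24,0)]⟩,⟨17,[(7,
  3),(5,5),(4,1),(1,1),(1,17),(0,14),(0,0)]⟩⟩]⟩))) (.Q [0,2,0,0,-2,0,0,0,1,1,0,-1] (.p false [0,0,0,
  0,1] [1] (⟨0,[(28,0)]⟩,⟨0,[(27,0)]⟩) .k 1 (⟨0,[]⟩,⟨0,[]⟩) .k .k) (.S ⟨1,0,[0,-1],[1,0,0,0,-1],[],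
  (⟨0,[(28,0)]⟩,⟨0,[(29,0)]⟩),⟨1,[(0,1),(0,1),(15,1),(4,0),(1,0),(0,2),(19,1)]⟩,.k,(.r (-1) ⟨2,[(12,
  0),(5,1),(26,0)]⟩ ⟨0,[(15,0),(3,0)]⟩),⟨true,0,⟨0,[(47,0)]⟩,⟨0,[]⟩⟩,⟨false,1,⟨1,[(26,0),(0,0),(17,
  0)]⟩,⟨0,[]⟩⟩,⟨false,0,⟨0,[(43,0)]⟩,⟨0,[(42,0),(2,0)]⟩⟩,⟨true,0,⟨0,[(43,0)]⟩,⟨0,[(42,0)]⟩⟩,[.o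
  ⟨false,2,⟨1,[(26,1),(10,0),(7,0)]⟩,⟨0,[(3,0)]⟩⟩,.a ⟨true,2,⟨0,[(26,0),(18,0)]⟩,⟨0,[(0,0)]⟩⟩
  ⟨false,1,⟨1,[(44,0),(0,0)]⟩,⟨0,[(47,0)]⟩⟩ ⟨true,1,⟨0,[(45,0)]⟩,⟨1,[(6,0),(14,1),(0,0),(8,0)]⟩⟩,.e
  ⟨false,1,⟨1,[(26,0),(0,0),(17,0)]⟩,⟨0,[]⟩⟩ ⟨false,1,⟨0,[(45,0)]⟩,⟨0,[(47,0)]⟩⟩,.o ⟨false,1,⟨0,[(1,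
  0),(15,0),(4,0),(2,0),(3,0)]⟩,⟨0,[(4,0)]⟩⟩]⟩) (.R ⟨2,false,false,true,[0,1],[0,0,0,0,1],[0,2,1],
  (⟨0,[]⟩,⟨0,[]⟩),(⟨0,[(29,0)]⟩,⟨0,[(28,0)]⟩),⟨0,[]⟩,.k,.k,.k,(.r (-1) ⟨2,[(0,0),(1,1),(2,0),(4,0),
  (4,0),(10,1),(0,0)]⟩ ⟨0,[(41,0)]⟩),.k,.k,⟨true,0,⟨3,[(22,0),(0,0),(10,1)]⟩,⟨0,[]⟩⟩,⟨false,0,⟨0,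
  [(27,0)]⟩,⟨2,[(0,1),(6,0),(1,0),(6,0),(4,1),(4,0)]⟩⟩,⟨false,0,⟨0,[(42,0)]⟩,⟨0,[(43,0),(1,0)]⟩⟩,
  ⟨true,(-1),⟨7,[(3,2),(2,3),(1,3),(5,0),(7,0),(17,1)]⟩,⟨0,[(0,0),(20,0)]⟩⟩,⟨false,0,⟨0,[(47,0)]⟩,
  ⟨0,[(45,0)]⟩⟩,⟨false,(-1),⟨0,[(3,0)]⟩,⟨0,[(26,0),(18,0)]⟩⟩,[.o ⟨false,(-1),⟨3,[(3,2),(10,0),(7,0),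
  (17,1)]⟩,⟨0,[(0,0)]⟩⟩,.o ⟨false,(-1),⟨0,[(3,0)]⟩,⟨3,[(0,1),(25,2),(0,0),(9,0)]⟩⟩,.a ⟨true,0,⟨7,
  [(7,1),(5,0),(4,1),(2,4),(10,0),(2,0),(0,0),(8,2)]⟩,⟨3,[(22,0),(0,0),(10,1)]⟩⟩ ⟨true,(-1),⟨1,[(6,
  0),(14,1),(0,0),(8,0)]⟩,⟨1,[(44,0),(0,0)]⟩⟩ ⟨false,(-1),⟨1,[(3,0),(10,0),(7,0)]⟩,⟨2,[(0,0),(0,0),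
  (5,0),(17,0),(0,0),(2,0),(15,1)]⟩⟩,.e ⟨false,0,⟨0,[(47,0)]⟩,⟨0,[(45,0)]⟩⟩ ⟨false,(-1),⟨0,[(3,0)]⟩,
  ⟨0,[(26,0),(18,0)]⟩⟩]⟩))) (.Q [0,0,-1,0,1,0,-2,0,0,-1,2] (.p true [0,0,1] [1,0,-1] (⟨0,[(34,0)]⟩,
  ⟨0,[(33,0)]⟩) .k 2 (⟨0,[(33,0)]⟩,⟨0,[(34,0)]⟩) .k (.r (-1) ⟨0,[(13,1),(28,0)]⟩ ⟨8,[(4,1),(0,1),(4,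
  7),(7,1),(19,1)]⟩)) (.Q [0,0,2,0,-1,0,1,0,0,1,-1] (.p false [0,0,1] [1] (⟨0,[(35,0)]⟩,⟨0,[(34,
  0)]⟩) .k 1 (⟨0,[]⟩,⟨0,[]⟩) .k .k) (.K ⟨0,[1,1,-1],1,0,(⟨0,[(35,0),(3,0)]⟩,⟨0,[(25,0)]⟩),.k,.k,(.r
  0 ⟨3,[(12,2),(2,4),(3,2),(23,1)]⟩ ⟨1,[(0,0),(1,3),(3,1),(0,0),(35,3),(1,2)]⟩),(.r 0 ⟨5,[(12,3),(6,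
  1),(2,0),(0,0),(8,1)]⟩ ⟨7,[(1,1),(9,3),(3,7),(2,3),(18,0),(6,0)]⟩),.k,[⟨0,[(1,0)]⟩,⟨0,[(0,0)]⟩,⟨2,
  [(0,0),(7,1),(9,0),(7,1),(15,0)]⟩,⟨2,[(1,0),(10,0),(3,0),(4,2),(15,1)]⟩]⟩) (.Q [0,0,0,0,0,2,0,0,0,
  0,-1] (.p false [0,0,1] [] (⟨0,[(36,0)]⟩,⟨0,[(35,0)]⟩) .k 0 (⟨0,[]⟩,⟨0,[]⟩) .k .k) (.R ⟨0,false,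
  false,false,[0,-1,1],[1,-1],[0,1,1],(⟨0,[(26,0)]⟩,⟨1,[(0,0),(35,1),(0,0)]⟩),(⟨0,[(39,0)]⟩,⟨0,[(40,
  0)]⟩),⟨0,[(0,0)]⟩,.k,.k,(.r (-1) ⟨0,[(3,1),(3,0),(0,0),(13,0),(0,0),(20,0),(1,1)]⟩ ⟨3,[(13,2),(2,
  4),(3,2),(23,1)]⟩),.k,.k,.k,⟨true,(-1),⟨0,[(22,0),(0,0)]⟩,⟨2,[(13,0),(5,1),(26,0)]⟩⟩,⟨false,1,⟨3,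
  [(2,1),(35,0),(6,0)]⟩,⟨1,[(24,0),(11,0),(0,0)]⟩⟩,⟨true,(-1),⟨17,[(7,3),(5,5),(4,1),(1,1),(1,17),
  (0,14),(0,0)]⟩,⟨3,[(1,0),(10,0),(3,0),(2,1),(25,0)]⟩⟩,⟨false,1,⟨4,[(2,1),(4,0),(5,1),(24,0),(7,
  1)]⟩,⟨2,[(12,1),(3,0),(7,0),(10,0)]⟩⟩,⟨false,0,⟨0,[]⟩,⟨0,[]⟩⟩,⟨false,0,⟨0,[]⟩,⟨0,[]⟩⟩,[.o ⟨false,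
  1,⟨1,[(38,0),(4,1),(2,0)]⟩,⟨0,[(44,0)]⟩⟩,.a ⟨true,1,⟨0,[(43,0),(2,0)]⟩,⟨0,[(22,0)]⟩⟩ ⟨true,0,⟨3,
  [(23,0),(0,0),(10,1)]⟩,⟨0,[]⟩⟩ ⟨false,2,⟨15,[(2,5),(4,3),(11,3),(18,2),(6,8),(0,9)]⟩,⟨1,[(22,1),
  (0,0),(0,0)]⟩⟩,.o ⟨false,0,⟨0,[(34,0)]⟩,⟨3,[(2,1),(35,0),(6,0)]⟩⟩,.o ⟨false,0,⟨3,[(23,2),(0,2),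
  (10,1)]⟩,⟨0,[(1,0)]⟩⟩]⟩) (.S ⟨1,0,[0,0,-1,-1,0,0,0,1],[0,-1,1],[0,1,-1,-1,0,0,0,1],(⟨0,[(26,0)]⟩,
  ⟨0,[(36,0),(3,0)]⟩),⟨0,[(0,0)]⟩,.k,(.r (-1) ⟨0,[(3,1),(3,0),(0,0),(13,0),(0,0),(20,0),(1,1)]⟩ ⟨3,
  [(13,2),(2,4),(3,2),(23,1)]⟩),⟨true,0,⟨0,[(48,0)]⟩,⟨0,[]⟩⟩,⟨false,1,⟨1,[(27,0),(0,0),(17,0)]⟩,⟨0,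
  []⟩⟩,⟨false,0,⟨0,[(44,0)]⟩,⟨0,[(43,0),(2,0)]⟩⟩,⟨true,0,⟨0,[(44,0)]⟩,⟨0,[(43,0)]⟩⟩,[.a ⟨true,0,⟨0,
  [(12,0),(1,0),(1,0),(1,0)]⟩,⟨1,[(2,0),(10,0),(8,0)]⟩⟩ ⟨true,0,⟨0,[(3,0)]⟩,⟨0,[(13,0),(2,0)]⟩⟩
  ⟨false,1,⟨3,[(1,0),(10,0),(3,0),(2,1),(25,0)]⟩,⟨1,[(13,0),(2,0),(3,0)]⟩⟩,.o ⟨false,1,⟨3,[(16,1),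
  (1,1),(0,1),(3,0),(0,0),(21,1)]⟩,⟨2,[(2,0),(10,0),(3,0),(4,2),(15,1)]⟩⟩,.o ⟨false,0,⟨0,[(34,0)]⟩,
  ⟨3,[(2,1),(35,0),(6,0)]⟩⟩,.o ⟨false,0,⟨3,[(23,2),(0,2),(10,1)]⟩,⟨0,[(1,0)]⟩⟩]⟩))) (.Q [0,0,0,0,0,
  2,0,0,0,0,-1] (.p false [0,0,1] [] (⟨0,[(35,0)]⟩,⟨0,[(34,0)]⟩) .k 0 (⟨0,[]⟩,⟨0,[]⟩) .k .k) (.R ⟨0,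
  false,false,true,[0,-1,1],[1,-1,-1],[1,0,1],(⟨0,[(25,0)]⟩,⟨0,[(0,0),(37,0)]⟩),(⟨0,[(24,0)]⟩,⟨1,
  [(0,0),(35,2)]⟩),⟨0,[(0,0)]⟩,.k,.k,(.r (-1) ⟨0,[(1,0),(0,2),(3,1),(14,0),(21,3),(1,2)]⟩ ⟨3,[(12,
  2),(2,4),(3,2),(23,1)]⟩),.k,.k,.k,⟨false,1,⟨9,[(5,1),(4,1),(4,9),(3,1),(6,3),(10,0),(5,5),(1,6)]⟩,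
  ⟨0,[(7,0),(8,0)]⟩⟩,⟨true,1,⟨1,[(2,1),(10,1),(20,1),(2,0),(5,3),(1,0)]⟩,⟨0,[(1,0)]⟩⟩,⟨false,0,⟨0,
  [(12,0),(2,0)]⟩,⟨1,[(2,1),(41,0),(0,0)]⟩⟩,⟨true,0,⟨0,[(13,0),(2,0),(26,1)]⟩,⟨5,[(1,1),(9,5),(3,3),
  (15,1),(5,0),(7,0)]⟩⟩,⟨false,0,⟨0,[]⟩,⟨0,[]⟩⟩,⟨false,0,⟨0,[]⟩,⟨0,[]⟩⟩,[.o ⟨false,0,⟨0,[(16,0)]⟩,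
  ⟨0,[(31,0),(11,0),(1,0)]⟩⟩,.a ⟨true,0,⟨0,[(13,0)]⟩,⟨7,[(1,0),(8,2),(0,2),(3,1),(5,0),(4,2),(16,3),
  (1,1)]⟩⟩ ⟨false,1,⟨1,[(26,0),(0,0),(17,0)]⟩,⟨5,[(2,0),(4,0),(8,0),(4,1),(15,0),(2,0),(3,0)]⟩⟩
  ⟨true,1,⟨1,[(2,1),(10,3),(23,0),(5,3),(1,0)]⟩,⟨0,[(1,0),(13,0),(27,0)]⟩⟩,.o ⟨false,0,⟨0,[(33,0)]⟩,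
  ⟨1,[(2,1),(10,1),(23,0),(5,3),(1,0)]⟩⟩,.e ⟨true,0,⟨0,[]⟩,⟨0,[(47,0)]⟩⟩ ⟨true,1,⟨1,[(2,1),(10,3),
  (23,0),(5,3),(0,0)]⟩,⟨0,[(1,0),(13,0),(27,0)]⟩⟩]⟩) (.Q [0,2,0,0,-2,0,0,0,1,1,0,-1] (.p false [0,0,
  0,0,1] [1] (⟨0,[(29,0)]⟩,⟨0,[(28,0)]⟩) .k 1 (⟨0,[]⟩,⟨0,[]⟩) .k .k) (.Q [0,0,1,0,1,0,0,0,-1,-1,0,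
  1] (.p true [0,0,0,0,1] [1] (⟨0,[(30,0)]⟩,⟨0,[(29,0)]⟩) .k 1 (⟨0,[]⟩,⟨0,[]⟩) .k .k) (.Q [0,0,0,0,
  0,-1,0,0,0,1,0,-1] (.ed true [0,1,0,0,1] .k) (.S ⟨1,0,[0,-1],[1,0,0,0,-1],[],(⟨0,[(31,0)]⟩,⟨0,
  [(32,0)]⟩),⟨0,[(0,0)]⟩,.k,(.r (-1) ⟨2,[(15,0),(5,1),(26,0)]⟩ ⟨1,[(1,0),(11,0),(8,0),(14,0)]⟩),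
  ⟨true,0,⟨0,[(50,0)]⟩,⟨0,[]⟩⟩,⟨false,1,⟨1,[(29,0),(0,0),(17,0)]⟩,⟨0,[]⟩⟩,⟨false,0,⟨0,[(46,0)]⟩,⟨0,
  [(45,0),(2,0)]⟩⟩,⟨true,0,⟨0,[(46,0)]⟩,⟨0,[(45,0)]⟩⟩,[.o ⟨false,2,⟨1,[(29,1),(10,0),(7,0)]⟩,⟨0,[(6,
  0)]⟩⟩,.a ⟨true,2,⟨0,[(29,0),(18,0)]⟩,⟨0,[(2,0)]⟩⟩ ⟨false,1,⟨1,[(47,0),(0,0)]⟩,⟨0,[(50,0)]⟩⟩ ⟨true,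
  1,⟨0,[(48,0)]⟩,⟨0,[(1,0),(0,0)]⟩⟩,.e ⟨false,1,⟨1,[(29,0),(0,0),(17,0)]⟩,⟨0,[]⟩⟩ ⟨false,1,⟨0,[(48,
  0)]⟩,⟨0,[(50,0)]⟩⟩,.o ⟨false,1,⟨0,[(1,0)]⟩,⟨0,[(7,0)]⟩⟩]⟩) (.R ⟨0,false,false,false,[1,0,0,0,-1],
  [1,0,-1],[1,0,1],(⟨0,[(31,0)]⟩,⟨0,[(32,0)]⟩),(⟨0,[(38,0)]⟩,⟨0,[(39,0)]⟩),⟨0,[(0,0)]⟩,.k,.k,(.r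
  (-1) ⟨2,[(15,0),(5,1),(26,0)]⟩ ⟨1,[(1,0),(11,0),(8,0),(14,0)]⟩),.k,.k,.k,⟨true,0,⟨0,[(18,0)]⟩,⟨8,
  [(9,0),(0,0),(4,3),(7,0),(19,0)]⟩⟩,⟨false,0,⟨0,[(5,0),(0,0),(9,0),(29,1),(1,0)]⟩,⟨2,[(1,1),(8,0),
  (15,0),(2,0)]⟩⟩,⟨false,0,⟨3,[(25,0),(0,0),(10,1)]⟩,⟨1,[(47,0),(0,0)]⟩⟩,⟨true,(-1),⟨0,[(6,0),(9,0),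
  (29,0)]⟩,⟨0,[(1,0),(12,0)]⟩⟩,⟨false,0,⟨0,[]⟩,⟨0,[]⟩⟩,⟨false,0,⟨0,[]⟩,⟨0,[]⟩⟩,[.e ⟨false,0,⟨0,[]⟩,
  ⟨1,[(29,0),(0,0),(16,0)]⟩⟩ ⟨false,0,⟨0,[(7,0),(8,0),(29,0)]⟩,⟨0,[(1,0),(12,0)]⟩⟩,.o ⟨false,1,⟨1,
  [(16,1),(23,0),(5,1),(1,0)]⟩,⟨0,[(34,0)]⟩⟩,.a ⟨true,1,⟨0,[(29,0)]⟩,⟨0,[(2,0),(45,0)]⟩⟩ ⟨true,0,⟨3,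
  [(25,0),(0,0),(10,1)]⟩,⟨5,[(5,0),(4,0),(8,0),(4,1),(15,0),(2,0),(3,0)]⟩⟩ ⟨false,0,⟨0,[(6,0),(9,0),
  (29,0),(1,0)]⟩,⟨0,[(1,0),(12,0)]⟩⟩,.o ⟨false,1,⟨0,[(1,0)]⟩,⟨0,[(7,0)]⟩⟩]⟩)) (.Q [0,0,0,0,0,-1,0,0,
  0,0,0,1] (.ed false [1,-1,0,0,1] .k) (.S ⟨1,0,[0,2],[0,0,0,0,1],[1,1,0,-1],(⟨0,[(32,0)]⟩,⟨0,[(31,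
  0)]⟩),⟨0,[(0,0)]⟩,.k,(.r 0 ⟨0,[(44,0)]⟩ ⟨0,[(18,0),(3,0),(25,0)]⟩),⟨false,1,⟨0,[(45,0),(2,0)]⟩,⟨0,
  [(46,0)]⟩⟩,⟨true,0,⟨0,[(50,0)]⟩,⟨0,[]⟩⟩,⟨true,0,⟨0,[]⟩,⟨0,[(50,0)]⟩⟩,⟨false,0,⟨0,[(46,0)]⟩,⟨0,
  [(45,0),(2,0)]⟩⟩,[.e ⟨false,0,⟨4,[(5,0),(3,0),(0,0),(12,0),(19,0)]⟩,⟨9,[(8,1),(4,1),(8,1),(6,3),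
  (10,0),(5,5),(1,6)]⟩⟩ ⟨false,0,⟨0,[(43,0)]⟩,⟨0,[(48,0)]⟩⟩,.o ⟨false,(-1),⟨0,[(6,0)]⟩,⟨1,[(29,1),
  (10,0),(7,0)]⟩⟩,.a ⟨true,(-1),⟨2,[(1,1),(2,0),(3,0),(28,0)]⟩,⟨0,[(29,0)]⟩⟩ ⟨true,0,⟨0,[(45,0)]⟩,
  ⟨0,[(46,0)]⟩⟩ ⟨false,0,⟨0,[(50,0)]⟩,⟨0,[(48,0)]⟩⟩,.o ⟨false,(-1),⟨0,[(1,0),(23,0)]⟩,⟨1,[(29,1),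
  (10,0),(6,0)]⟩⟩]⟩) (.S ⟨1,0,[],[1,0,0,0,-1],[0,-1],(⟨0,[(31,0)]⟩,⟨0,[(32,0)]⟩),⟨1,[(0,0),(2,0),
  (23,0),(3,0)]⟩,.k,(.r (-1) ⟨2,[(15,0),(5,1),(26,0)]⟩ ⟨0,[(18,0),(3,0)]⟩),⟨false,1,⟨1,[(29,0),(0,
  0),(17,0)]⟩,⟨0,[]⟩⟩,⟨true,0,⟨0,[(50,0)]⟩,⟨0,[]⟩⟩,⟨true,0,⟨0,[(46,0)]⟩,⟨0,[(45,0)]⟩⟩,⟨false,0,⟨0,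
  [(46,0)]⟩,⟨0,[(45,0),(2,0)]⟩⟩,[.e ⟨false,1,⟨1,[(47,0),(0,0)]⟩,⟨0,[(50,0)]⟩⟩ ⟨false,1,⟨1,[(29,0),
  (0,0),(16,0)]⟩,⟨0,[]⟩⟩,.o ⟨false,2,⟨1,[(29,1),(10,0),(7,0)]⟩,⟨0,[(6,0)]⟩⟩,.e ⟨false,1,⟨0,[(48,
  0)]⟩,⟨0,[(50,0)]⟩⟩ ⟨false,1,⟨1,[(29,0),(0,0),(17,0)]⟩,⟨0,[]⟩⟩,.a ⟨true,1,⟨3,[(25,0),(0,0),(2,3),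
  (7,1)]⟩,⟨0,[(1,0)]⟩⟩ ⟨true,1,⟨1,[(47,0),(0,0)]⟩,⟨6,[(4,0),(0,1),(3,1),(14,5),(0,4),(17,1)]⟩⟩
  ⟨false,1,⟨1,[(47,0),(0,0)]⟩,⟨3,[(25,0),(0,0),(10,1)]⟩⟩]⟩))) (.R ⟨2,false,false,true,[0,1],[0,0,0,
  0,1],[0,2,1],(⟨0,[]⟩,⟨0,[]⟩),(⟨0,[(30,0)]⟩,⟨0,[(29,0)]⟩),⟨0,[]⟩,.k,.k,.k,(.r (-1) ⟨1,[(0,0),(5,0),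
  (4,0),(1,0),(2,0),(10,0)]⟩ ⟨0,[(42,0)]⟩),.k,.k,⟨true,0,⟨3,[(23,0),(0,0),(10,1)]⟩,⟨0,[]⟩⟩,⟨false,0,
  ⟨0,[(28,0)]⟩,⟨2,[(0,1),(2,0),(4,0),(8,0),(4,1),(4,0)]⟩⟩,⟨false,0,⟨0,[(43,0)]⟩,⟨0,[(44,0),(1,0)]⟩⟩,
  ⟨true,(-1),⟨7,[(4,2),(2,3),(1,3),(5,0),(7,0),(17,1)]⟩,⟨0,[(0,0),(21,0)]⟩⟩,⟨false,0,⟨0,[(48,0)]⟩,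
  ⟨0,[(46,0)]⟩⟩,⟨false,(-1),⟨0,[(4,0)]⟩,⟨0,[(27,0),(18,0)]⟩⟩,[.o ⟨false,(-1),⟨3,[(4,2),(10,0),(7,0),
  (17,1)]⟩,⟨0,[(0,0)]⟩⟩,.o ⟨false,(-1),⟨0,[(4,0)]⟩,⟨3,[(0,1),(26,2),(0,0),(9,0)]⟩⟩,.a ⟨true,0,⟨7,
  [(8,1),(5,0),(4,1),(2,4),(10,0),(2,0),(0,0),(8,2)]⟩,⟨3,[(23,0),(0,0),(10,1)]⟩⟩ ⟨true,(-1),⟨6,[(2,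
  0),(0,1),(3,1),(14,5),(0,4),(17,1)]⟩,⟨1,[(45,0),(0,0)]⟩⟩ ⟨false,(-1),⟨1,[(4,0),(10,0),(7,0)]⟩,⟨9,
  [(0,7),(7,1),(5,1),(4,1),(2,5),(4,1),(17,0),(0,4)]⟩⟩,.e ⟨false,0,⟨0,[(48,0)]⟩,⟨0,[(46,0)]⟩⟩
  ⟨false,(-1),⟨0,[(4,0)]⟩,⟨0,[(27,0),(18,0)]⟩⟩]⟩)))))) (.K ⟨0,[0,0,0,0,1],0,(-1),(⟨0,[(25,0)]⟩,⟨0,
  [(24,0)]⟩),.k,(.r 0 ⟨0,[(37,0)]⟩ ⟨0,[(11,0),(3,0),(25,0)]⟩),(.r 0 ⟨0,[(11,0),(3,0)]⟩ ⟨2,[(8,0),(5,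
  1),(26,0)]⟩),.k,.k,[⟨0,[(1,0)]⟩,⟨0,[(0,0)]⟩,⟨0,[(22,0)]⟩,⟨0,[(6,0),(5,0)]⟩]⟩)) (.Q [0,0,0,0,0,-1,
  0,0,0,1,0,-1] (.ed true [0,1,0,0,1] .k) (.S ⟨1,0,[0,-1],[1,0,0,0,-1],[1,0,0,-1],(⟨0,[(24,0)]⟩,⟨0,
  [(25,0)]⟩),⟨0,[(0,0)]⟩,.k,(.r (-1) ⟨2,[(8,0),(5,1),(26,0)]⟩ ⟨0,[(11,0),(3,0)]⟩),⟨true,0,⟨0,[(38,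
  0)]⟩,⟨0,[(39,0)]⟩⟩,⟨false,1,⟨1,[(22,0),(0,0),(17,0)]⟩,⟨0,[]⟩⟩,⟨false,0,⟨0,[]⟩,⟨1,[(22,0),(0,0),
  (17,0)]⟩⟩,⟨true,0,⟨0,[(39,0)]⟩,⟨0,[(38,0)]⟩⟩,[.e ⟨false,1,⟨19,[(8,3),(5,11),(4,1),(2,6),(0,6),(4,
  3),(4,0)]⟩,⟨0,[(39,0)]⟩⟩ ⟨false,1,⟨1,[(40,0),(0,0)]⟩,⟨0,[(43,0)]⟩⟩,.o ⟨false,2,⟨1,[(1,1),(28,1),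
  (2,0),(6,0),(0,1)]⟩,⟨0,[(6,0),(5,0)]⟩⟩,.o ⟨false,1,⟨1,[(1,1),(28,1),(2,0),(6,0)]⟩,⟨0,[(23,0)]⟩⟩,
  .a ⟨true,0,⟨0,[(1,0),(28,0)]⟩,⟨1,[(10,1),(29,0),(0,0)]⟩⟩ ⟨false,1,⟨2,[(8,0),(5,1),(26,0)]⟩,⟨3,[(8,
  0),(2,2),(3,0),(23,1)]⟩⟩ ⟨true,1,⟨1,[(40,0),(0,0)]⟩,⟨1,[(2,0),(14,1),(0,0),(8,0)]⟩⟩]⟩) (.R ⟨0,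
  false,false,false,[1,0,0,0,-1],[1,-1,-1],[0,0,-1,-1,0,0,0,-1],(⟨0,[(24,0)]⟩,⟨0,[(25,0)]⟩),(⟨0,
  [(20,0)]⟩,⟨0,[(32,0),(2,0)]⟩),⟨0,[(0,0)]⟩,.k,.k,(.r (-1) ⟨2,[(8,0),(5,1),(26,0)]⟩ ⟨0,[(11,0),(3,
  0)]⟩),(.r (-1) ⟨1,[(11,1),(10,0),(0,0),(15,1),(1,0)]⟩ ⟨2,[(2,0),(0,0),(4,0),(7,0),(19,0)]⟩),.k,.k,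
  ⟨false,1,⟨1,[(22,0),(0,0),(16,0)]⟩,⟨0,[]⟩⟩,⟨true,0,⟨0,[(23,0),(6,0)]⟩,⟨0,[(1,0)]⟩⟩,⟨true,0,⟨2,[(2,
  0),(0,0),(4,0),(7,0),(19,0)]⟩,⟨0,[(11,0),(27,0)]⟩⟩,⟨false,0,⟨0,[(9,0),(13,0)]⟩,⟨9,[(1,7),(5,1),(3,
  5),(2,1),(7,1),(10,0),(5,13),(1,4)]⟩⟩,⟨false,0,⟨0,[]⟩,⟨0,[]⟩⟩,⟨false,0,⟨0,[]⟩,⟨0,[]⟩⟩,[.a ⟨true,0,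
  ⟨0,[(9,0)]⟩,⟨4,[(1,0),(4,2),(0,0),(3,0),(5,0),(4,1),(16,0),(1,1)]⟩⟩ ⟨false,1,⟨4,[(8,2),(5,0),(1,
  2),(23,3)]⟩,⟨0,[(11,0),(27,0)]⟩⟩ ⟨true,0,⟨0,[(9,0),(13,0)]⟩,⟨0,[(1,0),(9,0),(27,0)]⟩⟩,.o ⟨false,1,
  ⟨1,[(9,1),(23,0),(7,0)]⟩,⟨0,[(27,0),(11,0)]⟩⟩,.o ⟨false,1,⟨1,[(1,1),(28,1),(2,0),(6,0)]⟩,⟨0,[(23,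
  0)]⟩⟩,.e ⟨false,1,⟨1,[(3,1),(5,1),(23,0),(7,0)]⟩,⟨3,[(8,0),(2,6),(3,0),(23,1)]⟩⟩ ⟨false,1,⟨1,[(9,
  1),(13,1),(16,0),(0,0)]⟩,⟨0,[(1,0),(9,0),(27,0)]⟩⟩]⟩))))))

theorem ok70 : chk K t70 r44 = true := by decide +kernel

noncomputable def t73 : Tre :=
  (.S ⟨1,0,[0,1,0,0,0,0,0,1],[0,0,1],[1,0,0,-1,0,0,0,1],(⟨0,[(25,0)]⟩,⟨0,[(24,0)]⟩),⟨0,[(14,0)]⟩,.k,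
  .k,⟨false,1,⟨0,[(31,0),(2,0)]⟩,⟨0,[(32,0)]⟩⟩,⟨true,0,⟨0,[(36,0)]⟩,⟨0,[]⟩⟩,⟨true,0,⟨0,[]⟩,⟨0,[(36,
  0)]⟩⟩,⟨false,0,⟨0,[(32,0)]⟩,⟨0,[(31,0),(2,0)]⟩⟩,[.o ⟨false,0,⟨0,[(20,0)]⟩,⟨1,[(0,1),(32,0),(0,
  0)]⟩⟩,.a ⟨true,0,⟨0,[(4,0),(14,0)]⟩,⟨0,[(2,0),(29,0)]⟩⟩ ⟨true,1,⟨2,[(4,1),(2,0),(23,0),(2,1)]⟩,⟨0,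
  [(0,0),(5,0),(3,0)]⟩⟩ ⟨false,1,⟨0,[(4,0),(28,0)]⟩,⟨2,[(1,0),(3,0),(13,0)]⟩⟩,.o ⟨false,0,⟨0,[(6,
  0)]⟩,⟨1,[(23,1),(2,0),(6,0)]⟩⟩,.o ⟨false,0,⟨0,[(22,0)]⟩,⟨0,[(0,0),(6,0),(24,1)]⟩⟩]⟩)

theorem ok73 : chk K t73 r42 = true := by decide +kernel

noncomputable def t75 : Tre :=
  (.Q [0,0,2,0,-1,0,1,0,0,1,-1] (.p false [0,0,1] [1] (⟨0,[(24,0)]⟩,⟨0,[(23,0)]⟩) .k 1 (⟨0,[]⟩,⟨0,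
  []⟩) .k .k) (.K ⟨0,[1,1,-1],1,0,(⟨0,[(24,0),(3,0)]⟩,⟨0,[(14,0)]⟩),.k,.k,(.r 0 ⟨6,[(0,2),(1,0),(5,
  5),(2,2),(11,1),(8,8),(1,2)]⟩ ⟨0,[(1,1),(3,2),(0,2),(3,2),(23,3)]⟩),(.r 0 ⟨3,[(0,0),(1,5),(3,4),
  (1,1),(2,0),(20,7),(1,0)]⟩ ⟨5,[(1,1),(2,5),(2,1),(25,2),(0,0)]⟩),.k,[⟨1,[(1,1),(0,3),(23,0),(5,5),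
  (1,0)]⟩,⟨0,[(0,0)]⟩,⟨14,[(0,2),(0,3),(1,5),(0,3),(2,2),(4,5),(2,5),(15,4)]⟩,⟨0,[(5,0),(26,1)]⟩]⟩)
  (.Q [0,0,0,0,0,-2,0,0,0,0,1] (.p true [0,0,1] [] (⟨0,[(25,0)]⟩,⟨0,[(24,0)]⟩) .k 0 (⟨0,[]⟩,⟨0,[]⟩)
  .k .k) (.S ⟨1,0,[0,0,-1,-1,0,0,0,1],[0,-1,1],[1,1,-1,-2,0,0,0,1],(⟨0,[(15,0)]⟩,⟨0,[(25,0),(3,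
  0)]⟩),⟨0,[(0,0)]⟩,.k,(.r (-1) ⟨0,[(2,1),(3,2),(0,2),(3,2),(23,3)]⟩ ⟨0,[(9,0),(1,0),(0,0),(22,
  0)]⟩),⟨true,0,⟨0,[(32,0)]⟩,⟨0,[(33,0)]⟩⟩,⟨false,1,⟨1,[(16,0),(0,0),(17,0)]⟩,⟨0,[]⟩⟩,⟨false,0,⟨0,
  []⟩,⟨1,[(16,0),(0,0),(17,0)]⟩⟩,⟨true,0,⟨0,[(33,0)]⟩,⟨0,[(32,0)]⟩⟩,[.a ⟨true,0,⟨0,[(5,0),(1,0),(2,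
  0),(0,0),(23,0)]⟩,⟨0,[(3,0),(29,1)]⟩⟩ ⟨true,0,⟨0,[(2,0),(0,0),(3,0)]⟩,⟨0,[(3,0),(3,0),(3,0),(0,0),
  (20,1),(1,0)]⟩⟩ ⟨false,1,⟨5,[(2,1),(5,1),(25,2),(0,0)]⟩,⟨1,[(3,0),(3,0),(1,0),(1,0),(0,0),(20,0),
  (1,0)]⟩⟩,.o ⟨false,1,⟨5,[(2,1),(5,1),(3,2),(0,2),(21,3)]⟩,⟨0,[(6,0),(26,1)]⟩⟩,.o ⟨false,0,⟨0,[(23,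
  0)]⟩,⟨5,[(1,3),(14,0),(0,0),(6,1),(2,0)]⟩⟩,.o ⟨false,0,⟨3,[(12,2),(0,2),(10,1)]⟩,⟨0,[(1,0)]⟩⟩]⟩)
  (.R ⟨0,false,false,false,[0,-1,1],[1,-1],[0,1,1],(⟨0,[(15,0)]⟩,⟨0,[(0,0),(27,0)]⟩),(⟨0,[(28,0)]⟩,
  ⟨0,[(29,0)]⟩),⟨0,[(0,0)]⟩,.k,.k,(.r (-1) ⟨0,[(2,1),(3,2),(0,2),(3,2),(23,3)]⟩ ⟨0,[(9,0),(1,0),(0,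
  0),(22,0)]⟩),.k,.k,.k,⟨true,(-1),⟨0,[(11,0),(0,0)]⟩,⟨3,[(10,1),(23,0),(0,2)]⟩⟩,⟨false,1,⟨5,[(1,3),
  (14,0),(0,0),(6,1),(2,0)]⟩,⟨3,[(0,0),(12,1),(12,0),(1,1)]⟩⟩,⟨true,(-1),⟨0,[(3,0),(3,0),(3,0),(0,
  0),(20,0)]⟩,⟨5,[(2,1),(5,1),(25,2),(0,0)]⟩⟩,⟨false,1,⟨1,[(3,1),(23,0),(5,1),(1,0)]⟩,⟨0,[(5,0),(14,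
  0)]⟩⟩,⟨false,0,⟨0,[]⟩,⟨0,[]⟩⟩,⟨false,0,⟨0,[]⟩,⟨0,[]⟩⟩,[.o ⟨false,1,⟨1,[(27,0),(4,1),(2,0)]⟩,⟨0,
  [(33,0)]⟩⟩,.a ⟨true,1,⟨0,[(32,0),(2,0)]⟩,⟨0,[(11,0)]⟩⟩ ⟨true,0,⟨3,[(12,0),(0,0),(10,1)]⟩,⟨0,[]⟩⟩
  ⟨false,2,⟨3,[(1,1),(6,1),(13,1),(4,0),(7,2)]⟩,⟨1,[(11,1),(0,0),(0,0)]⟩⟩,.o ⟨false,0,⟨0,[(23,0)]⟩,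
  ⟨5,[(1,3),(14,0),(0,0),(6,1),(2,0)]⟩⟩,.o ⟨false,0,⟨3,[(12,2),(0,2),(10,1)]⟩,⟨0,[(1,0)]⟩⟩]⟩)))

theorem ok75 : chk K t75 r41 = true := by decide +kernel

noncomputable def t77 : Tre :=
  (.R ⟨2,true,false,true,[0,1],[0,1,1],[1,0,1],(⟨0,[]⟩,⟨0,[]⟩),(⟨0,[(23,0),(2,0)]⟩,⟨0,[(11,0)]⟩),⟨0,
  []⟩,.k,.k,.k,.k,.k,.k,⟨false,1,⟨0,[(3,0),(13,0),(14,0)]⟩,⟨3,[(2,2),(2,0),(2,1),(15,0),(2,0),(2,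
  3)]⟩⟩,⟨true,0,⟨0,[(4,0)]⟩,⟨0,[(21,0)]⟩⟩,⟨false,1,⟨0,[(29,0),(2,0)]⟩,⟨0,[(30,0)]⟩⟩,⟨true,0,⟨0,[(18,
  0)]⟩,⟨0,[(3,0),(4,0),(23,0)]⟩⟩,⟨true,0,⟨0,[]⟩,⟨0,[(34,0)]⟩⟩,⟨false,0,⟨0,[(0,0)]⟩,⟨4,[(3,2),(3,1),
  (0,1),(1,0),(8,1),(1,1),(10,6)]⟩⟩,[]⟩)

theorem ok77 : chk K t77 r40 = true := by decide +kernel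

noncomputable def t80 : Tre :=
  (.S ⟨1,0,[0,0,0,0,0,0,0,-1],[1,0,-1],[0,1,0,0,0,0,0,-1],(⟨0,[(20,0)]⟩,⟨0,[(21,0)]⟩),⟨0,[(9,0)]⟩,
  .k,.k,⟨true,0,⟨0,[(32,0)]⟩,⟨0,[]⟩⟩,⟨false,1,⟨1,[(11,0),(0,0),(17,0)]⟩,⟨0,[]⟩⟩,⟨false,0,⟨0,[(28,
  0)]⟩,⟨0,[(27,0),(2,0)]⟩⟩,⟨true,0,⟨0,[(28,0)]⟩,⟨0,[(27,0)]⟩⟩,[.e ⟨false,0,⟨4,[(0,2),(3,1),(0,0),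
  (19,0)]⟩,⟨0,[(3,0),(2,0),(0,0),(20,0),(1,0)]⟩⟩ ⟨false,0,⟨0,[(0,0)]⟩,⟨1,[(16,1),(2,1),(9,0),(0,
  0)]⟩⟩,.o ⟨false,1,⟨1,[(0,1),(18,1),(2,0),(7,0)]⟩,⟨0,[(16,0)]⟩⟩,.o ⟨false,1,⟨1,[(19,1),(2,0),(6,
  0)]⟩,⟨0,[(2,0)]⟩⟩,.a ⟨true,0,⟨0,[(19,0)]⟩,⟨0,[(15,0)]⟩⟩ ⟨false,0,⟨0,[(0,0)]⟩,⟨0,[(16,0),(2,0),(10,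
  0)]⟩⟩ ⟨true,0,⟨0,[(0,0)]⟩,⟨0,[(16,0),(2,0)]⟩⟩]⟩)

theorem ok80 : chk K t80 r38 = true := by decide +kernel

noncomputable def t82 : Tre :=
  (.R ⟨2,true,false,false,[0,1],[0,1,1],[1,0,1],(⟨0,[]⟩,⟨0,[]⟩),(⟨0,[(21,0),(2,0)]⟩,⟨0,[(9,0)]⟩),⟨0,
  []⟩,.k,.k,.k,.k,.k,.k,⟨false,1,⟨0,[(4,0),(0,0),(24,0)]⟩,⟨2,[(0,1),(2,0),(2,1),(12,1),(2,0),(5,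
  0)]⟩⟩,⟨true,0,⟨0,[(2,0)]⟩,⟨0,[(19,0)]⟩⟩,⟨false,1,⟨0,[(27,0),(2,0)]⟩,⟨0,[(28,0)]⟩⟩,⟨true,0,⟨5,[(0,
  2),(0,0),(3,1),(1,0),(8,1)]⟩,⟨0,[(17,0)]⟩⟩,⟨true,0,⟨0,[]⟩,⟨0,[(32,0)]⟩⟩,⟨false,0,⟨0,[(0,0)]⟩,⟨0,
  [(17,0),(9,0),(2,0)]⟩⟩,[]⟩)

theorem ok82 : chk K t82 l45 = true := by decide +kernel

noncomputable def t83 : Tre :=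
  (.R ⟨2,true,false,false,[0,1],[1,0,0,0,-1],[1,1,1],(⟨0,[]⟩,⟨0,[]⟩),(⟨0,[(15,0)]⟩,⟨0,[(16,0)]⟩),⟨0,
  []⟩,.k,.k,.k,(.r 0 ⟨5,[(3,0),(2,3),(2,0),(8,2),(2,3),(8,0)]⟩ ⟨3,[(7,1),(23,0),(0,2)]⟩),.k,.k,
  ⟨true,(-1),⟨6,[(7,3),(0,7),(0,5),(14,0),(2,0)]⟩,⟨0,[(32,0)]⟩⟩,⟨false,1,⟨4,[(0,3),(8,0),(3,0),(13,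
  1)]⟩,⟨3,[(7,1),(0,3),(5,3),(16,0),(0,2)]⟩⟩,⟨true,0,⟨0,[(29,0)]⟩,⟨0,[(30,0)]⟩⟩,⟨false,2,⟨6,[(0,3),
  (0,0),(5,2),(1,1),(3,1),(18,5)]⟩,⟨0,[(8,0),(5,0)]⟩⟩,⟨false,0,⟨0,[]⟩,⟨1,[(13,0),(0,0),(17,0)]⟩⟩,
  ⟨true,1,⟨0,[(0,0)]⟩,⟨0,[(8,0),(5,0),(14,0)]⟩⟩,[]⟩)

theorem ok83 : chk K t83 l47 = true := by decide +kernel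

noncomputable def t84 : Tre :=
  (.Q [0,0,0,0,0,-1,0,0,0,1,0,-1] (.ed true [0,1,0,0,1] .k) (.S ⟨1,0,[0,-1],[1,0,0,0,-1],[1,0,0,-1],
  (⟨0,[(18,0)]⟩,⟨0,[(19,0)]⟩),⟨0,[(0,0)]⟩,.k,(.r (-1) ⟨3,[(10,1),(23,0),(0,2)]⟩ ⟨5,[(6,0),(2,3),(2,
  0),(8,2),(2,3),(8,0)]⟩),⟨true,0,⟨0,[(32,0)]⟩,⟨0,[(33,0)]⟩⟩,⟨false,1,⟨1,[(16,0),(0,0),(17,0)]⟩,⟨0,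
  []⟩⟩,⟨false,0,⟨0,[]⟩,⟨1,[(16,0),(0,0),(17,0)]⟩⟩,⟨true,0,⟨0,[(33,0)]⟩,⟨0,[(32,0)]⟩⟩,[.e ⟨false,1,
  ⟨13,[(4,1),(0,3),(2,3),(4,1),(2,2),(0,4),(16,1),(0,0)]⟩,⟨0,[(33,0)]⟩⟩ ⟨false,1,⟨1,[(34,0),(0,0)]⟩,
  ⟨0,[(37,0)]⟩⟩,.o ⟨false,2,⟨3,[(1,1),(2,1),(22,0),(5,1),(1,2)]⟩,⟨0,[(2,0)]⟩⟩,.o ⟨false,1,⟨1,[(1,0),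
  (2,0),(6,0),(15,0)]⟩,⟨0,[(17,0)]⟩⟩,.a ⟨true,0,⟨0,[(1,0)]⟩,⟨1,[(3,1),(30,0),(0,0)]⟩⟩ ⟨false,1,⟨3,
  [(10,1),(23,0),(0,2)]⟩,⟨2,[(6,0),(2,0),(2,0),(11,0),(8,0)]⟩⟩ ⟨true,1,⟨1,[(34,0),(0,0)]⟩,⟨0,[(1,0),
  (0,0)]⟩⟩]⟩) (.Q [0,0,0,0,0,0,-1,0,1,0,1,-1] (.p true [0,0,1] [0,0,0,0,1] (⟨0,[(26,0)]⟩,⟨0,[(25,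
  0)]⟩) .k 2 (⟨0,[(19,0)]⟩,⟨0,[(18,0)]⟩) .k (.r (-1) ⟨5,[(6,3),(1,1),(7,0),(0,0),(6,3),(2,1),(7,
  0)]⟩ ⟨1,[(5,0),(1,0),(1,0)]⟩)) (.K ⟨0,[0,0,0,0,1],0,(-1),(⟨0,[(20,0)]⟩,⟨0,[(19,0)]⟩),.k,(.r 0 ⟨0,
  [(32,0)]⟩ ⟨1,[(0,0),(6,0),(2,0),(2,0),(3,0),(18,0)]⟩),(.r 0 ⟨5,[(7,0),(2,3),(2,0),(8,2),(2,3),(8,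
  0)]⟩ ⟨3,[(11,1),(23,0),(0,2)]⟩),.k,.k,[⟨0,[(0,0)]⟩,⟨0,[(2,0)]⟩,⟨0,[(17,0)]⟩,⟨0,[(3,0)]⟩]⟩) (.Q [0,
  0,-2,0,0,0,0,0,1,1,0,-1] (.p false [0,0,0,0,1] [1] (⟨0,[(20,0)]⟩,⟨0,[(19,0)]⟩) .k 1 (⟨0,[]⟩,⟨0,
  []⟩) .k .k) (.Q [0,-1,-1,1,0,0,0,0,1,1,0,-1] (.p false [0,0,0,0,1] [1] (⟨0,[(21,0)]⟩,⟨0,[(20,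
  0)]⟩) .k 1 (⟨0,[]⟩,⟨0,[]⟩) .k .k) (.R ⟨0,false,false,false,[1,0,0,0,-1],[0,1],[1,0,1,1],(⟨0,[(21,
  0)]⟩,⟨0,[(22,0)]⟩),(⟨0,[(32,0)]⟩,⟨0,[(31,0)]⟩),⟨0,[(3,0)]⟩,.k,.k,(.r (-1) ⟨4,[(1,0),(5,0),(5,1),
  (24,2)]⟩ ⟨5,[(9,0),(2,3),(2,0),(8,2),(2,3),(8,0)]⟩),(.r (-1) ⟨4,[(1,0),(5,0),(5,1),(24,2)]⟩ ⟨5,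
  [(9,0),(2,3),(2,0),(8,2),(2,3),(8,0)]⟩),.k,.k,⟨true,0,⟨0,[]⟩,⟨3,[(15,0),(0,0),(10,1)]⟩⟩,⟨false,0,
  ⟨0,[(1,0)]⟩,⟨2,[(4,0),(10,0),(3,1),(10,0)]⟩⟩,⟨false,0,⟨2,[(9,0),(2,0),(2,0),(11,0),(8,0)]⟩,⟨4,[(1,
  0),(5,0),(5,1),(24,2)]⟩⟩,⟨true,(-1),⟨7,[(0,2),(4,2),(0,1),(2,0),(2,0),(1,2),(0,0),(11,0)]⟩,⟨2,[(4,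
  1),(2,0),(5,0),(16,0)]⟩⟩,⟨false,0,⟨0,[]⟩,⟨0,[]⟩⟩,⟨false,0,⟨0,[]⟩,⟨0,[]⟩⟩,[.o ⟨false,0,⟨0,[(36,
  0)]⟩,⟨6,[(7,2),(5,0),(1,1),(4,2),(9,0),(4,1)]⟩⟩,.e ⟨false,1,⟨5,[(0,3),(14,1),(3,3),(10,0),(5,1),
  (1,0)]⟩,⟨0,[(34,0)]⟩⟩ ⟨false,0,⟨0,[(0,0)]⟩,⟨5,[(4,2),(8,1),(5,2),(10,2),(2,0),(1,1)]⟩⟩,.o ⟨false,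
  1,⟨1,[(4,0),(2,0),(6,0),(15,0)]⟩,⟨0,[(20,0)]⟩⟩,.a ⟨true,0,⟨0,[(4,0)]⟩,⟨11,[(0,5),(0,0),(4,3),(1,
  1),(2,1),(4,0),(2,1),(0,2)]⟩⟩ ⟨true,0,⟨0,[(36,0)]⟩,⟨0,[(35,0)]⟩⟩ ⟨false,0,⟨0,[(0,0)]⟩,⟨1,[(4,0),
  (2,0),(7,0),(19,0)]⟩⟩]⟩) (.R ⟨0,false,false,false,[1,0,0,0,-1],[0,1],[1,0,1,1],(⟨0,[(21,0)]⟩,⟨0,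
  [(22,0)]⟩),(⟨0,[(32,0)]⟩,⟨0,[(31,0)]⟩),⟨0,[(3,0)]⟩,.k,.k,(.r (-1) ⟨4,[(1,0),(5,0),(5,1),(24,2)]⟩
  ⟨5,[(9,0),(2,3),(2,0),(8,2),(2,3),(8,0)]⟩),(.r (-1) ⟨4,[(1,0),(5,0),(5,1),(24,2)]⟩ ⟨5,[(9,0),(2,
  3),(2,0),(8,2),(2,3),(8,0)]⟩),.k,.k,⟨true,0,⟨0,[]⟩,⟨3,[(15,0),(0,0),(10,1)]⟩⟩,⟨false,0,⟨0,[(1,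
  0)]⟩,⟨2,[(4,0),(10,0),(3,1),(10,0)]⟩⟩,⟨false,0,⟨2,[(9,0),(2,0),(2,0),(11,0),(8,0)]⟩,⟨4,[(1,0),(5,
  0),(5,1),(24,2)]⟩⟩,⟨true,(-1),⟨0,[(14,0),(5,0)]⟩,⟨1,[(0,0),(6,0)]⟩⟩,⟨false,0,⟨0,[]⟩,⟨0,[]⟩⟩,
  ⟨false,0,⟨0,[]⟩,⟨0,[]⟩⟩,[.o ⟨false,0,⟨0,[(36,0)]⟩,⟨6,[(7,2),(5,0),(1,1),(4,2),(9,0),(4,1)]⟩⟩,.a
  ⟨true,0,⟨0,[(14,0),(23,0)]⟩,⟨0,[(35,0)]⟩⟩ ⟨false,1,⟨1,[(19,0),(0,0),(15,1),(1,0)]⟩,⟨0,[(34,0)]⟩⟩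
  ⟨true,0,⟨0,[(14,0),(5,0),(17,0)]⟩,⟨0,[(0,0)]⟩⟩,.o ⟨false,1,⟨1,[(0,0),(6,0),(28,1)]⟩,⟨0,[(20,0)]⟩⟩,
  .e ⟨true,0,⟨0,[(36,0)]⟩,⟨0,[(35,0)]⟩⟩ ⟨true,0,⟨2,[(1,1),(7,0),(2,0),(7,0),(6,0),(8,0)]⟩,⟨0,[(0,
  0)]⟩⟩]⟩)) (.R ⟨0,false,false,true,[1,0,0,0,-1],[0,1],[1,1,1],(⟨0,[(20,0)]⟩,⟨0,[(21,0)]⟩),(⟨0,[(31,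
  0)]⟩,⟨0,[(30,0)]⟩),⟨0,[(2,0)]⟩,.k,.k,(.r (-1) ⟨3,[(12,1),(23,0),(0,2)]⟩ ⟨5,[(8,0),(2,3),(2,0),(8,
  2),(2,3),(8,0)]⟩),(.r (-1) ⟨3,[(12,1),(23,0),(0,2)]⟩ ⟨5,[(8,0),(2,3),(2,0),(8,2),(2,3),(8,0)]⟩),
  .k,.k,⟨false,1,⟨13,[(6,1),(0,3),(2,3),(4,1),(2,2),(0,4),(16,1),(0,0)]⟩,⟨0,[(35,0)]⟩⟩,⟨true,0,⟨1,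
  [(5,1),(30,0),(0,0)]⟩,⟨0,[(0,0)]⟩⟩,⟨true,(-1),⟨1,[(0,0),(3,0),(8,0),(20,0)]⟩,⟨1,[(36,0),(0,0)]⟩⟩,
  ⟨false,(-1),⟨0,[(13,0),(5,0)]⟩,⟨4,[(0,1),(5,2),(5,0),(24,3)]⟩⟩,⟨false,0,⟨0,[]⟩,⟨0,[]⟩⟩,⟨false,0,
  ⟨0,[]⟩,⟨0,[]⟩⟩,[.a ⟨true,(-1),⟨0,[(13,0)]⟩,⟨0,[(34,0),(2,0)]⟩⟩ ⟨false,0,⟨0,[(39,0)]⟩,⟨1,[(36,0),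
  (0,0)]⟩⟩ ⟨true,(-1),⟨0,[(13,0),(5,0)]⟩,⟨4,[(0,3),(5,0),(5,1),(24,2)]⟩⟩,.o ⟨false,0,⟨0,[(35,0)]⟩,
  ⟨6,[(6,2),(5,0),(1,1),(4,2),(9,0),(4,1)]⟩⟩,.o ⟨false,1,⟨1,[(3,0),(2,0),(6,0),(15,0)]⟩,⟨0,[(19,
  0)]⟩⟩,.e ⟨false,0,⟨0,[]⟩,⟨1,[(18,0),(0,0),(17,0)]⟩⟩ ⟨false,0,⟨1,[(13,1),(5,1),(16,0),(0,0)]⟩,⟨4,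
  [(0,3),(5,0),(5,1),(24,2)]⟩⟩]⟩))))

theorem ok84 : chk K t84 l49 = true := by decide +kernel

noncomputable def t85 : Tre :=
  (.Q [0,0,0,0,0,-1,0,0,0,1,0,-1] (.ed true [0,1,0,0,1] .k) (.S ⟨1,0,[],[1,0,0,0,-1],[0,-1],(⟨0,
  [(19,0)]⟩,⟨0,[(20,0)]⟩),⟨0,[(0,0)]⟩,.k,(.r (-1) ⟨3,[(11,1),(23,0),(0,2)]⟩ ⟨5,[(7,0),(2,3),(2,0),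
  (8,2),(2,3),(8,0)]⟩),⟨false,1,⟨1,[(17,0),(0,0),(17,0)]⟩,⟨0,[]⟩⟩,⟨true,0,⟨0,[(38,0)]⟩,⟨0,[]⟩⟩,
  ⟨true,0,⟨0,[(34,0)]⟩,⟨0,[(33,0)]⟩⟩,⟨false,0,⟨0,[(34,0)]⟩,⟨0,[(33,0),(2,0)]⟩⟩,[.e ⟨false,1,⟨1,[(35,
  0),(0,0)]⟩,⟨0,[(38,0)]⟩⟩ ⟨false,1,⟨1,[(17,0),(0,0),(16,0)]⟩,⟨0,[]⟩⟩,.a ⟨true,1,⟨0,[(1,0)]⟩,⟨0,[(4,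
  0)]⟩⟩ ⟨true,1,⟨0,[(36,0)]⟩,⟨6,[(11,3),(0,7),(0,5),(14,0),(2,0)]⟩⟩ ⟨false,1,⟨1,[(35,0),(0,0)]⟩,⟨0,
  [(38,0)]⟩⟩,.e ⟨false,1,⟨0,[(36,0)]⟩,⟨0,[(38,0)]⟩⟩ ⟨false,1,⟨1,[(17,0),(0,0),(17,0)]⟩,⟨0,[]⟩⟩,.o
  ⟨false,1,⟨4,[(1,2),(9,0),(0,1),(0,2),(3,1),(10,1)]⟩,⟨0,[(2,0)]⟩⟩]⟩) (.Q [0,0,0,0,-1,0,0,0,1,1,0,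
  -1] (.p false [0,0,0,0,1] [1] (⟨0,[(20,0)]⟩,⟨0,[(19,0)]⟩) .k 1 (⟨0,[]⟩,⟨0,[]⟩) .k .k) (.R ⟨0,
  false,false,true,[1,0,0,0,-1],[1,-1],[0,1,0,-1],(⟨0,[(20,0)]⟩,⟨0,[(21,0)]⟩),(⟨0,[(30,0)]⟩,⟨0,[(31,
  0)]⟩),⟨0,[(1,0)]⟩,.k,.k,(.r (-1) ⟨3,[(12,1),(23,0),(0,2)]⟩ ⟨5,[(8,0),(2,3),(2,0),(8,2),(2,3),(8,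
  0)]⟩),(.r (-1) ⟨5,[(8,1),(2,1),(2,1),(3,2),(0,2),(6,1),(8,1),(1,2)]⟩ ⟨0,[(33,0)]⟩),.k,.k,⟨true,0,
  ⟨3,[(14,0),(0,0),(10,1)]⟩,⟨0,[]⟩⟩,⟨false,0,⟨0,[(19,0)]⟩,⟨0,[(6,0),(6,0)]⟩⟩,⟨false,0,⟨0,[(34,0)]⟩,
  ⟨0,[(35,0),(1,0)]⟩⟩,⟨true,(-1),⟨3,[(0,0),(3,2),(7,1),(1,0)]⟩,⟨0,[(2,0),(32,0)]⟩⟩,⟨false,0,⟨0,[]⟩,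
  ⟨0,[]⟩⟩,⟨false,0,⟨0,[]⟩,⟨0,[]⟩⟩,[.e ⟨false,0,⟨0,[(33,0)]⟩,⟨1,[(18,0),(0,0),(15,1),(1,0)]⟩⟩ ⟨false,
  0,⟨3,[(4,0),(7,1),(6,2),(16,0)]⟩,⟨0,[(2,0),(32,0)]⟩⟩,.o ⟨false,1,⟨6,[(6,2),(5,0),(1,1),(4,2),(9,
  0),(4,1)]⟩,⟨0,[(35,0)]⟩⟩,.a ⟨true,1,⟨0,[(18,0)]⟩,⟨0,[(0,0)]⟩⟩ ⟨true,0,⟨0,[(34,0)]⟩,⟨0,[(35,0)]⟩⟩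
  ⟨false,0,⟨3,[(0,0),(11,1),(1,0),(4,2),(17,0)]⟩,⟨0,[(2,0),(32,0)]⟩⟩,.o ⟨false,1,⟨4,[(2,2),(9,0),(0,
  1),(0,2),(3,1),(10,1)]⟩,⟨0,[(3,0)]⟩⟩]⟩) (.R ⟨0,false,false,true,[1,0,0,0,-1],[1,-1],[0,0,1],(⟨0,
  [(20,0)]⟩,⟨0,[(21,0)]⟩),(⟨0,[(30,0)]⟩,⟨0,[(31,0)]⟩),⟨0,[(1,0)]⟩,.k,.k,(.r (-1) ⟨3,[(12,1),(23,0),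
  (0,2)]⟩ ⟨5,[(8,0),(2,3),(2,0),(8,2),(2,3),(8,0)]⟩),(.r (-1) ⟨5,[(8,1),(2,1),(2,1),(3,2),(0,2),(6,
  1),(8,1),(1,2)]⟩ ⟨0,[(33,0)]⟩),.k,.k,⟨true,0,⟨0,[(13,0),(0,0),(22,0)]⟩,⟨0,[(33,0)]⟩⟩,⟨false,0,⟨0,
  [(19,0)]⟩,⟨4,[(0,1),(1,2),(9,0),(0,1),(22,1)]⟩⟩,⟨false,0,⟨3,[(14,0),(0,0),(10,1)]⟩,⟨1,[(36,0),(0,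
  0)]⟩⟩,⟨true,(-1),⟨0,[(3,0),(8,0),(0,0),(0,0)]⟩,⟨0,[(2,0),(32,0)]⟩⟩,⟨false,0,⟨0,[]⟩,⟨0,[]⟩⟩,⟨false,
  0,⟨0,[]⟩,⟨0,[]⟩⟩,[.a ⟨true,0,⟨0,[(34,0)]⟩,⟨0,[(13,0),(23,0)]⟩⟩ ⟨true,0,⟨3,[(14,0),(0,0),(10,1)]⟩,
  ⟨0,[]⟩⟩ ⟨false,0,⟨3,[(4,0),(7,1),(6,2),(16,0)]⟩,⟨0,[(2,0),(32,0)]⟩⟩,.o ⟨false,1,⟨6,[(6,2),(5,0),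
  (1,1),(4,2),(9,0),(4,1)]⟩,⟨0,[(35,0)]⟩⟩,.o ⟨false,1,⟨0,[(0,0)]⟩,⟨0,[(19,0)]⟩⟩,.o ⟨false,1,⟨1,[(0,
  0),(13,0),(3,0)]⟩,⟨0,[(3,0)]⟩⟩]⟩)))

theorem ok85 : chk K t85 l50 = true := by decide +kernel

noncomputable def t86 : Tre :=
  (.R ⟨2,false,false,true,[0,1],[0,0,0,0,1],[0,2,1],(⟨0,[]⟩,⟨0,[]⟩),(⟨0,[(20,0)]⟩,⟨0,[(19,0)]⟩),⟨0,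
  []⟩,.k,.k,.k,(.r (-1) ⟨3,[(0,0),(6,1),(2,1),(2,0),(3,0),(0,1),(6,1),(10,0)]⟩ ⟨0,[(32,0)]⟩),.k,.k,
  ⟨true,0,⟨3,[(13,0),(0,0),(10,1)]⟩,⟨0,[]⟩⟩,⟨false,0,⟨0,[(18,0)]⟩,⟨0,[(5,0),(6,0)]⟩⟩,⟨false,0,⟨0,
  [(33,0)]⟩,⟨0,[(34,0),(1,0)]⟩⟩,⟨true,(-1),⟨3,[(1,0),(1,1),(0,0),(6,1),(1,0)]⟩,⟨0,[(0,0),(11,0)]⟩⟩,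
  ⟨false,0,⟨0,[(38,0)]⟩,⟨0,[(36,0)]⟩⟩,⟨false,(-1),⟨0,[(1,0)]⟩,⟨0,[(17,0),(18,0)]⟩⟩,[.o ⟨false,(-1),
  ⟨0,[(3,0)]⟩,⟨0,[(0,0)]⟩⟩,.o ⟨false,(-1),⟨0,[(1,0)]⟩,⟨3,[(0,1),(16,2),(0,0),(9,0)]⟩⟩,.a ⟨true,0,⟨3,
  [(11,1),(0,3),(22,0),(0,2)]⟩,⟨3,[(13,0),(0,0),(10,1)]⟩⟩ ⟨true,(-1),⟨6,[(11,3),(0,7),(0,5),(14,0),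
  (2,0)]⟩,⟨1,[(35,0),(0,0)]⟩⟩ ⟨false,(-1),⟨1,[(1,0),(2,0),(8,0)]⟩,⟨0,[(5,0),(6,0),(23,0)]⟩⟩,.e
  ⟨false,0,⟨0,[(38,0)]⟩,⟨0,[(36,0)]⟩⟩ ⟨false,(-1),⟨0,[(1,0)]⟩,⟨0,[(17,0),(18,0)]⟩⟩]⟩)

theorem ok86 : chk K t86 l51 = true := by decide +kernel

noncomputable def t87 : Tre :=
  (.S ⟨1,0,[0,-1],[1,0,0,0,-1],[],(⟨0,[(20,0)]⟩,⟨0,[(21,0)]⟩),⟨0,[(0,0)]⟩,.k,(.r (-1) ⟨3,[(12,1),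
  (23,0),(0,2)]⟩ ⟨5,[(8,0),(2,3),(2,0),(8,2),(2,3),(8,0)]⟩),⟨true,0,⟨0,[(39,0)]⟩,⟨0,[]⟩⟩,⟨false,1,
  ⟨1,[(18,0),(0,0),(17,0)]⟩,⟨0,[]⟩⟩,⟨false,0,⟨0,[(35,0)]⟩,⟨0,[(34,0),(2,0)]⟩⟩,⟨true,0,⟨0,[(35,0)]⟩,
  ⟨0,[(34,0)]⟩⟩,[.o ⟨false,2,⟨1,[(18,1),(10,0),(7,0)]⟩,⟨0,[(2,0)]⟩⟩,.a ⟨true,2,⟨0,[(18,0),(18,0)]⟩,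
  ⟨0,[(1,0)]⟩⟩ ⟨false,1,⟨1,[(36,0),(0,0)]⟩,⟨0,[(39,0)]⟩⟩ ⟨true,1,⟨0,[(37,0)]⟩,⟨6,[(12,3),(0,7),(0,
  5),(14,0),(2,0)]⟩⟩,.e ⟨false,1,⟨1,[(18,0),(0,0),(17,0)]⟩,⟨0,[]⟩⟩ ⟨false,1,⟨0,[(37,0)]⟩,⟨0,[(39,
  0)]⟩⟩,.o ⟨false,1,⟨0,[(6,0),(6,0),(0,0)]⟩,⟨0,[(3,0)]⟩⟩]⟩)

theorem ok87 : chk K t87 l52 = true := by decide +kernel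

noncomputable def t88 : Tre :=
  (.R ⟨1,true,false,false,[0,0,0,0,1],[0,1],[0,2],(⟨0,[(23,0)]⟩,⟨0,[(22,0)]⟩),(⟨0,[(33,0)]⟩,⟨0,[(32,
  0)]⟩),⟨0,[(2,0),(15,0),(0,0)]⟩,.k,.k,(.r 0 ⟨0,[(35,0)]⟩ ⟨3,[(0,1),(15,0),(0,0),(2,0),(0,2),(6,1),
  (10,0)]⟩),(.r 0 ⟨0,[(35,0)]⟩ ⟨3,[(0,1),(15,0),(0,0),(2,0),(0,2),(6,1),(10,0)]⟩),(.r (-1) ⟨6,[(9,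
  3),(2,3),(1,0),(2,1),(13,0),(2,0),(3,1)]⟩ ⟨1,[(0,0),(3,0),(10,1),(0,1),(22,1)]⟩),.k,⟨false,0,⟨3,
  [(15,1),(15,0),(3,5),(2,0)]⟩,⟨1,[(0,0),(6,0),(8,0),(22,1)]⟩⟩,⟨true,1,⟨0,[(0,0),(13,0)]⟩,⟨0,[(3,0),
  (12,0),(22,0)]⟩⟩,⟨true,0,⟨0,[(41,0)]⟩,⟨0,[]⟩⟩,⟨false,2,⟨3,[(0,1),(19,2),(0,0),(17,2)]⟩,⟨0,[(1,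
  0)]⟩⟩,⟨false,0,⟨0,[(37,0)]⟩,⟨0,[(36,0),(2,0)]⟩⟩,⟨true,1,⟨0,[(0,0)]⟩,⟨0,[(1,0),(34,0)]⟩⟩,[]⟩)

theorem ok88 : chk K t88 l54 = true := by decide +kernel

noncomputable def t89 : Tre :=
  (.I [1,-1,1,0,0,0,0,1] (.I [0,0,-1,-1,0,0,0,2] (.I [1,0,-1,0,0,0,0,1] (.R ⟨0,false,false,true,[1,
  0,0,0,-1],[1,0,-1],[1,0,1],(⟨0,[(26,0)]⟩,⟨0,[(27,0)]⟩),(⟨0,[(33,0)]⟩,⟨0,[(34,0)]⟩),⟨0,[(6,0)]⟩,.k,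
  .k,(.r (-1) ⟨3,[(18,1),(23,0),(0,2)]⟩ ⟨6,[(3,0),(10,0),(2,4),(2,0),(8,2),(2,4)]⟩),.k,.k,.k,⟨true,
  0,⟨0,[(2,0)]⟩,⟨1,[(13,0),(1,0),(1,0)]⟩⟩,⟨false,0,⟨0,[(0,0),(7,0),(21,0),(12,0)]⟩,⟨0,[(15,0),(8,
  0)]⟩⟩,⟨false,0,⟨3,[(20,0),(0,0),(10,1)]⟩,⟨1,[(42,0),(0,0)]⟩⟩,⟨true,(-1),⟨0,[(8,0),(21,0)]⟩,⟨0,[(2,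
  0),(9,0),(2,0),(3,0)]⟩⟩,⟨false,0,⟨0,[]⟩,⟨0,[]⟩⟩,⟨false,0,⟨0,[]⟩,⟨0,[]⟩⟩,[.e ⟨false,0,⟨0,[]⟩,⟨1,
  [(24,0),(0,0),(16,0)]⟩⟩ ⟨false,0,⟨0,[(9,0),(20,0)]⟩,⟨0,[(2,0),(9,0),(2,0),(3,0)]⟩⟩,.o ⟨false,1,⟨1,
  [(30,1),(4,0),(7,0)]⟩,⟨5,[(1,1),(1,1),(11,1),(4,0),(0,0)]⟩⟩,.a ⟨true,1,⟨0,[(24,0)]⟩,⟨0,[(7,0),(35,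
  0)]⟩⟩ ⟨true,0,⟨3,[(20,0),(0,0),(10,1)]⟩,⟨1,[(0,0),(16,0),(21,0)]⟩⟩ ⟨false,0,⟨0,[(8,0),(21,0),(12,
  0)]⟩,⟨0,[(2,0),(9,0),(2,0),(3,0)]⟩⟩,.o ⟨false,1,⟨0,[(12,0),(6,0),(0,0)]⟩,⟨0,[(9,0)]⟩⟩]⟩) (.Q [0,
  -1,0,1,2,0,-1,-1,-1,-1,1,1] (.p true [0,0,1] [1,0,0,0,-1] (⟨0,[(34,0)]⟩,⟨0,[(33,0)]⟩) .k 2 (⟨0,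
  [(26,0)]⟩,⟨0,[(27,0)]⟩) .k (.r 0 ⟨8,[(1,1),(1,1),(25,2),(2,4),(5,2)]⟩ ⟨1,[(0,1),(41,0),(0,0)]⟩))
  (.R ⟨0,false,false,true,[1,0,0,0,-1],[0,-1,1],[0,1],(⟨0,[(27,0)]⟩,⟨0,[(28,0)]⟩),(⟨0,[(24,0)]⟩,⟨0,
  [(34,0),(3,0)]⟩),⟨0,[(7,0)]⟩,.k,.k,(.r (-1) ⟨3,[(19,1),(23,0),(0,2)]⟩ ⟨6,[(4,0),(10,0),(2,4),(2,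
  0),(8,2),(2,4)]⟩),(.r (-1) ⟨1,[(0,0),(0,1),(13,0),(10,0)]⟩ ⟨5,[(2,2),(16,0),(19,1),(1,0)]⟩),.k,.k,
  ⟨true,0,⟨0,[(1,0),(40,0)]⟩,⟨3,[(2,0),(0,1),(15,0),(21,0)]⟩⟩,⟨false,(-1),⟨0,[(8,0),(7,0),(27,0)]⟩,
  ⟨16,[(0,13),(1,7),(10,0),(0,2),(2,0),(7,1),(10,0),(2,5)]⟩⟩,⟨false,0,⟨0,[(46,0)]⟩,⟨0,[(44,0)]⟩⟩,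
  ⟨true,(-2),⟨3,[(2,1),(2,1),(2,1),(7,1),(3,1),(0,0),(0,0)]⟩,⟨0,[(0,0)]⟩⟩,⟨false,0,⟨0,[]⟩,⟨0,[]⟩⟩,
  ⟨false,0,⟨0,[]⟩,⟨0,[]⟩⟩,[.e ⟨false,0,⟨3,[(20,1),(15,0),(3,1),(2,0)]⟩,⟨1,[(25,0),(0,0),(17,0)]⟩⟩
  ⟨false,(-1),⟨5,[(2,2),(3,2),(1,0),(1,0),(1,0),(9,1),(6,1)]⟩,⟨0,[(0,0)]⟩⟩,.o ⟨false,0,⟨5,[(2,1),(0,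
  1),(12,3),(2,1),(1,0),(0,0)]⟩,⟨0,[(0,0),(8,0)]⟩⟩,.a ⟨true,1,⟨0,[(25,0)]⟩,⟨0,[(8,0),(35,0)]⟩⟩
  ⟨true,0,⟨0,[(46,0)]⟩,⟨0,[]⟩⟩ ⟨false,(-1),⟨0,[(5,0),(9,0)]⟩,⟨0,[(0,0)]⟩⟩,.o ⟨false,1,⟨0,[(13,0),(6,
  0),(0,0)]⟩,⟨0,[(10,0)]⟩⟩]⟩) (.Q [0,0,-1,0,0,0,-1,0,1,0,1,-1] (.p true [0,0,1] [0,0,0,0,1] (⟨0,
  [(35,0)]⟩,⟨0,[(34,0)]⟩) .k 2 (⟨0,[(28,0)]⟩,⟨0,[(27,0)]⟩) .k (.r (-1) ⟨5,[(2,1),(1,1),(20,2),(0,2),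
  (6,1),(10,2)]⟩ ⟨2,[(1,0),(16,1),(0,0)]⟩)) (.R ⟨0,false,false,false,[1,0,0,0,-1],[1,0,-1],[0,0,0,
  -1],(⟨0,[(28,0)]⟩,⟨0,[(29,0)]⟩),(⟨0,[(35,0)]⟩,⟨0,[(36,0)]⟩),⟨0,[(8,0)]⟩,.k,.k,(.r (-1) ⟨3,[(20,1),
  (23,0),(0,2)]⟩ ⟨6,[(5,0),(10,0),(2,4),(2,0),(8,2),(2,4)]⟩),.k,.k,.k,⟨true,0,⟨3,[(3,0),(0,1),(15,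
  0),(21,0)]⟩,⟨0,[(2,0),(40,0)]⟩⟩,⟨false,0,⟨0,[(0,0)]⟩,⟨0,[(17,0),(8,0)]⟩⟩,⟨true,0,⟨0,[(42,0)]⟩,⟨0,
  [(43,0)]⟩⟩,⟨false,0,⟨0,[(0,0),(1,0)]⟩,⟨0,[(4,0),(9,0),(2,0),(3,0)]⟩⟩,⟨false,0,⟨0,[]⟩,⟨0,[]⟩⟩,
  ⟨false,0,⟨0,[]⟩,⟨0,[]⟩⟩,[.o ⟨false,1,⟨1,[(32,1),(4,0),(7,0)]⟩,⟨5,[(3,1),(1,1),(11,1),(4,0),(0,
  0)]⟩⟩,.e ⟨false,1,⟨3,[(20,1),(23,0),(0,2)]⟩,⟨2,[(5,0),(13,0),(14,0),(5,0),(2,0)]⟩⟩ ⟨false,1,⟨1,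
  [(0,1),(1,1),(41,0),(0,0)]⟩,⟨2,[(1,1),(2,0),(9,4),(2,0),(3,6),(0,1),(14,0)]⟩⟩,.a ⟨true,1,⟨0,[(26,
  0)]⟩,⟨0,[(9,0),(35,0)]⟩⟩ ⟨false,1,⟨0,[(42,0),(2,0)]⟩,⟨0,[(43,0)]⟩⟩ ⟨true,0,⟨0,[(0,0),(1,0)]⟩,⟨2,
  [(1,1),(2,0),(9,4),(2,0),(3,6),(0,1),(14,0)]⟩⟩,.o ⟨false,1,⟨0,[(14,0),(6,0),(0,0)]⟩,⟨0,[(11,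
  0)]⟩⟩]⟩) (.I [0,-1,-1,0,1,0,0,-1] (.S ⟨1,0,[0,0,1,1,0,0,0,1],[0,1,1],[1,1,1,0,0,0,0,1],(⟨0,[(37,
  0),(2,0)]⟩,⟨0,[(25,0)]⟩),⟨0,[(37,0)]⟩,.k,.k,⟨true,0,⟨0,[(43,0)]⟩,⟨0,[(44,0)]⟩⟩,⟨false,1,⟨1,[(27,
  0),(0,0),(17,0)]⟩,⟨0,[]⟩⟩,⟨false,0,⟨0,[]⟩,⟨1,[(27,0),(0,0),(17,0)]⟩⟩,⟨true,0,⟨0,[(44,0)]⟩,⟨0,[(43,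
  0)]⟩⟩,[.o ⟨false,0,⟨0,[(6,0)]⟩,⟨1,[(16,1),(21,0),(7,0)]⟩⟩,.a ⟨true,0,⟨0,[(17,0)]⟩,⟨0,[(16,0)]⟩⟩
  ⟨false,0,⟨2,[(4,0),(1,0),(28,0)]⟩,⟨8,[(0,5),(14,0),(4,0),(3,0),(2,0),(0,1),(4,1),(7,1)]⟩⟩ ⟨true,0,
  ⟨0,[(5,0),(38,0)]⟩,⟨2,[(3,1),(16,0),(0,1)]⟩⟩,.e ⟨false,0,⟨1,[(5,0),(26,0),(2,0)]⟩,⟨0,[(0,0)]⟩⟩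
  ⟨false,0,⟨0,[(5,0),(38,0)]⟩,⟨36,[(0,20),(14,2),(0,21),(2,5),(4,10),(3,2),(9,3),(2,0)]⟩⟩,.o ⟨false,
  0,⟨0,[(18,0)]⟩,⟨1,[(35,1),(2,0),(6,0)]⟩⟩]⟩) (.I [0,0,-2,-2,1,0,0,-1] (.Q [0,0,0,2,-1,0,1,1,0,1,
  -1] (.p false [0,0,1] [1] (⟨0,[(38,0)]⟩,⟨0,[(37,0)]⟩) .k 1 (⟨0,[]⟩,⟨0,[]⟩) .k .k) (.R ⟨1,false,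
  false,false,[1,0,-1],[0,1],[1,0,1,1],(⟨0,[(38,0)]⟩,⟨0,[(39,0)]⟩),(⟨0,[(42,0)]⟩,⟨0,[(41,0)]⟩),⟨0,
  [(27,0)]⟩,.k,.k,.k,.k,(.r (-1) ⟨0,[(1,0)]⟩ ⟨2,[(8,2),(10,0),(2,0),(2,0),(11,3),(8,0)]⟩),.k,⟨true,
  0,⟨0,[]⟩,⟨3,[(25,0),(0,0),(10,1)]⟩⟩,⟨false,0,⟨0,[(0,0),(0,0)]⟩,⟨1,[(29,0),(0,0),(6,1),(2,0)]⟩⟩,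
  ⟨false,0,⟨3,[(0,1),(6,1),(29,1),(2,0),(7,0)]⟩,⟨9,[(1,5),(3,1),(16,1),(6,2),(0,2),(17,0)]⟩⟩,⟨false,
  0,⟨0,[(19,0)]⟩,⟨1,[(18,1),(21,0),(7,0)]⟩⟩,⟨false,0,⟨1,[(0,1),(36,1),(2,0),(7,0)]⟩,⟨2,[(1,1),(3,0),
  (39,1),(2,0)]⟩⟩,⟨true,(-1),⟨0,[(0,0)]⟩,⟨11,[(1,0),(15,3),(0,11),(2,0),(3,3),(4,3),(9,1),(4,3)]⟩⟩,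
  [.o ⟨false,0,⟨0,[(46,0)]⟩,⟨11,[(1,0),(15,3),(3,0),(3,3),(4,3),(9,1),(4,3)]⟩⟩,.a ⟨true,0,⟨0,[(24,
  0),(23,0)]⟩,⟨0,[(45,0)]⟩⟩ ⟨false,1,⟨1,[(29,0),(0,0),(15,1),(1,0)]⟩,⟨0,[(44,0)]⟩⟩ ⟨true,0,⟨1,[(0,
  0),(4,0),(27,0),(14,0)]⟩,⟨1,[(2,0),(4,0),(10,1),(21,0)]⟩⟩,.o ⟨false,1,⟨1,[(37,1),(2,0),(6,0)]⟩,⟨0,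
  [(20,0)]⟩⟩,.e ⟨true,0,⟨0,[(46,0)]⟩,⟨0,[(45,0)]⟩⟩ ⟨true,0,⟨5,[(0,1),(21,1),(10,3),(13,0),(0,0)]⟩,
  ⟨1,[(2,0),(4,0),(10,1),(21,0)]⟩⟩]⟩) (.R ⟨0,false,false,true,[1,0,0,0,-1],[2,-1,0,0,-1],[0,0,0,-1],
  (⟨0,[(31,0)]⟩,⟨0,[(32,0)]⟩),(⟨0,[(31,0),(9,0)]⟩,⟨0,[(11,0)]⟩),⟨0,[(11,0)]⟩,.k,(.r (-1) ⟨3,[(1,0),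
  (19,0),(26,1)]⟩ ⟨6,[(8,0),(10,0),(2,4),(2,0),(8,2),(2,4)]⟩),(.r (-1) ⟨3,[(1,0),(19,0),(26,1)]⟩ ⟨6,
  [(8,0),(10,0),(2,4),(2,0),(8,2),(2,4)]⟩),.k,.k,.k,⟨true,0,⟨3,[(25,0),(0,0),(10,1)]⟩,⟨0,[]⟩⟩,
  ⟨false,1,⟨1,[(29,0),(0,0),(9,0)]⟩,⟨3,[(1,0),(19,0),(2,3),(23,1)]⟩⟩,⟨true,0,⟨0,[(45,0)]⟩,⟨0,[(46,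
  0)]⟩⟩,⟨false,1,⟨25,[(0,7),(16,5),(3,1),(3,4),(0,0),(3,5),(3,5),(5,3)]⟩,⟨0,[(24,0),(23,0)]⟩⟩,
  ⟨false,0,⟨0,[]⟩,⟨0,[]⟩⟩,⟨false,0,⟨0,[]⟩,⟨0,[]⟩⟩,[.o ⟨false,2,⟨10,[(0,1),(2,1),(2,0),(10,2),(7,0),
  (3,5),(10,7),(4,2)]⟩,⟨0,[(13,0),(10,0),(23,0)]⟩⟩,.e ⟨false,1,⟨3,[(1,0),(19,0),(26,1)]⟩,⟨2,[(8,0),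
  (13,0),(14,0),(5,0),(2,0)]⟩⟩ ⟨false,2,⟨0,[(17,0),(12,0)]⟩,⟨0,[(24,0)]⟩⟩,.a ⟨true,1,⟨0,[(29,0)]⟩,
  ⟨0,[(12,0),(35,0)]⟩⟩ ⟨false,1,⟨15,[(0,3),(20,3),(3,0),(0,4),(10,5),(10,7)]⟩,⟨0,[(46,0)]⟩⟩ ⟨true,1,
  ⟨25,[(0,7),(16,5),(3,1),(3,4),(0,0),(3,5),(3,5),(5,3)]⟩,⟨0,[(24,0)]⟩⟩,.o ⟨false,1,⟨1,[(3,0),(25,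
  0),(7,0),(2,0)]⟩,⟨0,[(14,0)]⟩⟩]⟩)) (.I [1,1,2,1,-1,0,0,-1] (.Q [0,-1,0,2,2,0,-1,-1,-1,-1,1,1] (.p
  true [0,0,1] [1,0,0,0,-1] (⟨0,[(39,0)]⟩,⟨0,[(38,0)]⟩) .k 2 (⟨0,[(31,0)]⟩,⟨0,[(32,0)]⟩) .k (.r 0
  ⟨14,[(1,1),(4,3),(22,1),(0,1),(3,4),(2,4),(5,4)]⟩ ⟨1,[(5,1),(41,0),(0,0)]⟩)) (.R ⟨1,true,false,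
  true,[0,0,0,0,1],[1,1,-1],[1,1,0,-1],(⟨0,[(33,0)]⟩,⟨0,[(32,0)]⟩),(⟨0,[(39,0),(3,0)]⟩,⟨0,[(29,
  0)]⟩),⟨0,[(12,0),(15,0),(0,0)]⟩,.k,.k,(.r 0 ⟨0,[(45,0)]⟩ ⟨11,[(0,3),(19,3),(5,2),(0,2),(2,1),(0,
  5),(6,5),(10,1)]⟩),(.r 0 ⟨5,[(7,2),(16,0),(19,1),(1,0)]⟩ ⟨4,[(0,1),(5,3),(13,0),(6,0),(3,1),(6,0),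
  (10,0)]⟩),(.r (-1) ⟨8,[(22,7),(7,0),(0,0),(3,0),(2,0),(5,2),(1,1)]⟩ ⟨0,[(1,0),(45,0),(1,0)]⟩),.k,
  ⟨false,1,⟨0,[(22,0)]⟩,⟨3,[(0,0),(0,2),(13,0),(18,0),(12,2),(1,0)]⟩⟩,⟨true,2,⟨22,[(0,13),(6,9),(10,
  2),(0,8),(2,2),(7,5),(10,2),(2,3)]⟩,⟨0,[(1,0),(3,0),(43,0)]⟩⟩,⟨false,1,⟨0,[(46,0),(2,0)]⟩,⟨0,[(47,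
  0)]⟩⟩,⟨true,2,⟨0,[(0,0),(45,0)]⟩,⟨0,[(5,0)]⟩⟩,⟨true,0,⟨0,[]⟩,⟨0,[(51,0)]⟩⟩,⟨false,2,⟨0,[(0,0)]⟩,
  ⟨8,[(5,5),(2,2),(1,2),(8,1),(2,1),(4,2),(10,0),(10,3)]⟩⟩,[]⟩) (.Q [0,0,0,0,0,2,0,0,0,-1,1] (.p
  true [0,0,1] [1] (⟨0,[(40,0)]⟩,⟨0,[(39,0)]⟩) .k 1 (⟨0,[]⟩,⟨0,[]⟩) .k .k) (.I [1,0,2,1,-1,0,0,1]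
  (.R ⟨0,false,false,false,[1,-1,-1],[1,-1],[1,0,0,-1],(⟨0,[(30,0)]⟩,⟨0,[(1,0),(42,0)]⟩),(⟨0,[(44,
  0)]⟩,⟨0,[(45,0)]⟩),⟨0,[(1,0)]⟩,.k,.k,(.r (-2) ⟨6,[(17,1),(2,3),(0,7),(2,0),(4,3),(3,1),(16,2),(0,
  1)]⟩ ⟨0,[(0,0),(48,0)]⟩),.k,.k,.k,⟨false,0,⟨0,[]⟩,⟨1,[(32,0),(0,0),(16,0)]⟩⟩,⟨true,0,⟨0,[(23,0)]⟩,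
  ⟨0,[(40,0)]⟩⟩,⟨false,0,⟨0,[(10,0)]⟩,⟨0,[(8,0),(41,0)]⟩⟩,⟨true,0,⟨15,[(2,0),(3,0),(2,3),(0,0),(0,
  5),(16,0),(0,3),(13,1)]⟩,⟨0,[(38,0)]⟩⟩,⟨false,0,⟨0,[]⟩,⟨0,[]⟩⟩,⟨false,0,⟨0,[]⟩,⟨0,[]⟩⟩,[.o ⟨false,
  1,⟨12,[(12,0),(7,5),(7,2),(4,4),(9,1),(4,4)]⟩,⟨0,[(49,0)]⟩⟩,.a ⟨true,1,⟨0,[(48,0),(2,0)]⟩,⟨0,[(27,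
  0)]⟩⟩ ⟨false,1,⟨3,[(26,1),(23,0),(0,2)]⟩,⟨5,[(4,1),(20,1),(6,0),(0,0),(12,1),(3,0)]⟩⟩ ⟨true,1,⟨6,
  [(12,1),(4,0),(2,2),(2,3),(12,2),(14,2)]⟩,⟨0,[(4,0),(16,0)]⟩⟩,.e ⟨false,1,⟨0,[(48,0),(2,0)]⟩,⟨0,
  [(49,0)]⟩⟩ ⟨false,1,⟨6,[(12,1),(4,0),(2,2),(2,3),(12,2),(14,2)]⟩,⟨3,[(4,1),(33,1),(1,1),(9,0),(0,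
  0)]⟩⟩,.o ⟨false,0,⟨1,[(0,1),(20,1),(21,0),(7,0)]⟩,⟨1,[(36,1),(6,0),(6,0)]⟩⟩]⟩) (.Q [0,0,-2,0,0,0,
  1,0,0,1,-1] (.p false [0,0,1] [1] (⟨0,[(42,0)]⟩,⟨0,[(41,0)]⟩) .k 1 (⟨0,[]⟩,⟨0,[]⟩) .k .k) (.R ⟨0,
  false,false,false,[1,-1,-1],[1,-1],[0,0,-1,-2,0,0,0,-1],(⟨0,[(31,0)]⟩,⟨0,[(2,0),(42,0)]⟩),(⟨0,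
  [(45,0)]⟩,⟨0,[(46,0)]⟩),⟨0,[(2,0)]⟩,.k,.k,(.x (-1) ⟨3,[(29,1),(1,3),(1,0),(0,0),(6,3),(2,2),(0,
  3)]⟩ ⟨0,[(0,0),(1,0)]⟩),.k,.k,.k,⟨false,1,⟨11,[(1,5),(7,1),(11,1),(0,3),(7,1),(2,0),(0,2),(17,
  0)]⟩,⟨9,[(5,5),(4,1),(22,0),(0,0),(16,4)]⟩⟩,⟨true,0,⟨0,[(24,0)]⟩,⟨0,[(41,0)]⟩⟩,⟨false,1,⟨0,[(49,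
  0),(2,0)]⟩,⟨0,[(50,0)]⟩⟩,⟨true,0,⟨15,[(3,0),(3,0),(2,3),(0,0),(0,5),(16,0),(0,3),(13,1)]⟩,⟨0,[(39,
  0)]⟩⟩,⟨false,0,⟨0,[]⟩,⟨0,[]⟩⟩,⟨false,0,⟨0,[]⟩,⟨0,[]⟩⟩,[.o ⟨false,1,⟨12,[(13,0),(7,5),(7,2),(4,4),
  (9,1),(4,4)]⟩,⟨0,[(50,0)]⟩⟩,.a ⟨true,1,⟨0,[(49,0),(2,0)]⟩,⟨0,[(28,0)]⟩⟩ ⟨false,2,⟨6,[(1,4),(7,2),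
  (11,0),(0,1),(2,2),(4,0),(3,0),(17,3)]⟩,⟨13,[(5,9),(4,1),(17,9),(15,4),(2,1),(3,0)]⟩⟩ ⟨true,1,⟨77,
  [(0,7),(0,19),(1,17),(17,17),(3,1),(4,25),(13,16),(7,38)]⟩,⟨0,[(5,0),(16,0)]⟩⟩,.a ⟨true,0,⟨0,[(41,
  0)]⟩,⟨0,[(37,0)]⟩⟩ ⟨true,1,⟨4,[(1,1),(7,4),(15,1),(1,1),(24,0)]⟩,⟨13,[(5,9),(4,1),(17,9),(15,4),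
  (2,1),(3,0)]⟩⟩ ⟨false,1,⟨77,[(0,7),(0,19),(1,17),(17,17),(3,1),(4,25),(13,16),(7,38)]⟩,⟨3,[(5,1),
  (33,1),(1,1),(9,0),(0,0)]⟩⟩,.a ⟨true,0,⟨3,[(29,0),(0,0),(10,5)]⟩,⟨0,[(0,0)]⟩⟩ ⟨false,2,⟨6,[(1,4),
  (7,2),(11,0),(0,1),(2,2),(4,0),(3,0),(17,3)]⟩,⟨0,[(5,0)]⟩⟩ ⟨true,1,⟨2,[(0,0),(0,0),(23,0),(4,0),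
  (13,0)]⟩,⟨0,[(5,0),(16,0)]⟩⟩]⟩) (.R ⟨0,false,false,true,[1,0,0,0,-1],[2,-1,0,0,-1],[0,0,0,-1],(⟨0,
  [(35,0)]⟩,⟨0,[(36,0)]⟩),(⟨0,[(35,0),(9,0)]⟩,⟨0,[(15,0)]⟩),⟨0,[(15,0)]⟩,.k,(.r (-1) ⟨4,[(1,0),(23,
  0),(1,0),(24,2)]⟩ ⟨5,[(4,0),(0,1),(20,0),(6,2),(0,2),(19,3)]⟩),(.r (-1) ⟨4,[(1,0),(23,0),(1,0),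
  (24,2)]⟩ ⟨5,[(4,0),(0,1),(20,0),(6,2),(0,2),(19,3)]⟩),.k,.k,.k,⟨true,0,⟨3,[(29,0),(0,0),(10,1)]⟩,
  ⟨0,[]⟩⟩,⟨false,1,⟨1,[(33,0),(0,0),(9,0)]⟩,⟨4,[(1,0),(23,0),(1,0),(0,4),(23,2)]⟩⟩,⟨true,0,⟨0,[(49,
  0)]⟩,⟨0,[(50,0)]⟩⟩,⟨false,1,⟨12,[(13,0),(7,5),(7,2),(4,4),(9,1),(4,4)]⟩,⟨0,[(28,0),(23,0)]⟩⟩,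
  ⟨false,0,⟨0,[]⟩,⟨0,[]⟩⟩,⟨false,0,⟨0,[]⟩,⟨0,[]⟩⟩,[.o ⟨false,2,⟨5,[(0,0),(6,0),(13,2),(11,1),(10,3),
  (4,2)]⟩,⟨0,[(17,0),(10,0),(23,0)]⟩⟩,.e ⟨false,1,⟨4,[(1,0),(23,0),(1,0),(24,2)]⟩,⟨5,[(5,1),(20,1),
  (6,0),(0,0),(12,1),(3,0)]⟩⟩ ⟨false,2,⟨0,[(21,0),(12,0)]⟩,⟨0,[(28,0)]⟩⟩,.a ⟨true,1,⟨0,[(33,0)]⟩,⟨0,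
  [(16,0),(35,0)]⟩⟩ ⟨false,1,⟨0,[(49,0),(2,0)]⟩,⟨0,[(50,0)]⟩⟩ ⟨true,1,⟨12,[(13,0),(7,5),(7,2),(4,4),
  (9,1),(4,4)]⟩,⟨0,[(28,0)]⟩⟩,.o ⟨false,1,⟨2,[(0,0),(6,0),(25,1),(10,0)]⟩,⟨0,[(18,0)]⟩⟩]⟩))) (.I [0,
  0,2,2,-1,0,0,1] (.Q [0,0,2,0,0,0,-1,0,0,-1,1] (.p true [0,0,1] [1] (⟨0,[(42,0)]⟩,⟨0,[(41,0)]⟩) .k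
  1 (⟨0,[]⟩,⟨0,[]⟩) .k .k) (.Q [0,-1,0,2,0,0,1,1,0,0,-1] (.p false [0,0,1] [] (⟨0,[(43,0)]⟩,⟨0,[(42,
  0)]⟩) .k 0 (⟨0,[]⟩,⟨0,[]⟩) .k .k) (.S ⟨1,1,[],[1,-1,-1],[1,0,-1,-2,0,0,0,-1],(⟨0,[(32,0)]⟩,⟨0,
  [(44,0),(2,0)]⟩),⟨0,[(3,0)]⟩,.k,(.r (-2) ⟨6,[(19,1),(2,3),(0,7),(2,0),(4,3),(3,1),(16,2),(0,1)]⟩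
  ⟨0,[(2,0)]⟩),⟨false,1,⟨0,[(50,0),(2,0)]⟩,⟨0,[(51,0)]⟩⟩,⟨true,0,⟨0,[(13,0)]⟩,⟨0,[(23,0)]⟩⟩,⟨true,0,
  ⟨0,[]⟩,⟨0,[(55,0)]⟩⟩,⟨false,0,⟨0,[(0,0)]⟩,⟨0,[(23,0),(26,0),(2,0)]⟩⟩,[.fo,.o ⟨false,1,⟨1,[(45,0),
  (7,0)]⟩,⟨0,[(55,0)]⟩⟩,.a ⟨true,0,⟨0,[(42,0)]⟩,⟨0,[(38,0)]⟩⟩ ⟨true,1,⟨1,[(10,1),(17,1),(23,0),(0,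
  0)]⟩,⟨11,[(0,0),(5,7),(4,1),(17,7),(10,0),(4,3),(2,1)]⟩⟩ ⟨false,1,⟨1,[(38,1),(6,0),(7,0)]⟩,⟨0,
  [(42,0)]⟩⟩,.o ⟨false,0,⟨0,[(1,0)]⟩,⟨1,[(38,1),(6,0),(6,0)]⟩⟩]⟩) (.R ⟨0,false,false,true,[1,0,0,0,
  -1],[2,-1,0,0,-1],[0,0,0,-1],(⟨0,[(36,0)]⟩,⟨0,[(37,0)]⟩),(⟨0,[(36,0),(9,0)]⟩,⟨0,[(16,0)]⟩),⟨0,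
  [(16,0)]⟩,.k,(.r (-1) ⟨3,[(28,1),(23,0),(0,2)]⟩ ⟨5,[(5,0),(0,1),(20,0),(6,2),(0,2),(19,3)]⟩),(.r
  (-1) ⟨3,[(28,1),(23,0),(0,2)]⟩ ⟨5,[(5,0),(0,1),(20,0),(6,2),(0,2),(19,3)]⟩),.k,.k,.k,⟨true,0,⟨3,
  [(30,0),(0,0),(10,1)]⟩,⟨0,[]⟩⟩,⟨false,1,⟨1,[(34,0),(0,0),(9,0)]⟩,⟨3,[(28,1),(0,3),(22,0),(0,2)]⟩⟩,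
  ⟨true,0,⟨0,[(50,0)]⟩,⟨0,[(51,0)]⟩⟩,⟨false,1,⟨17,[(0,1),(21,5),(3,1),(3,4),(0,0),(3,5),(9,3),(4,
  3)]⟩,⟨0,[(29,0),(23,0)]⟩⟩,⟨false,0,⟨0,[]⟩,⟨0,[]⟩⟩,⟨false,0,⟨0,[]⟩,⟨0,[]⟩⟩,[.o ⟨false,2,⟨5,[(1,0),
  (6,0),(13,2),(11,1),(10,3),(4,2)]⟩,⟨0,[(18,0),(10,0),(23,0)]⟩⟩,.e ⟨false,1,⟨3,[(28,1),(23,0),(0,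
  2)]⟩,⟨5,[(6,1),(20,1),(6,0),(0,0),(12,1),(3,0)]⟩⟩ ⟨false,2,⟨0,[(22,0),(12,0)]⟩,⟨0,[(29,0)]⟩⟩,.a
  ⟨true,1,⟨0,[(34,0)]⟩,⟨0,[(17,0),(35,0)]⟩⟩ ⟨false,1,⟨15,[(0,3),(25,3),(3,2),(0,2),(2,1),(0,1),(6,
  1),(10,9)]⟩,⟨0,[(51,0)]⟩⟩ ⟨true,1,⟨17,[(0,1),(21,5),(3,1),(3,4),(0,0),(3,5),(9,3),(4,3)]⟩,⟨0,[(29,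
  0)]⟩⟩,.o ⟨false,1,⟨2,[(1,0),(6,0),(25,1),(10,0)]⟩,⟨0,[(19,0)]⟩⟩]⟩)) (.S ⟨1,1,[],[1,-1,-1],[1,0,-1,
  -2,0,0,0,-1],(⟨0,[(31,0)]⟩,⟨0,[(43,0),(2,0)]⟩),⟨0,[(2,0)]⟩,.k,(.r (-2) ⟨6,[(18,1),(2,3),(0,7),(2,
  0),(4,3),(3,1),(16,2),(0,1)]⟩ ⟨0,[(1,0)]⟩),⟨false,1,⟨0,[(49,0),(2,0)]⟩,⟨0,[(50,0)]⟩⟩,⟨true,0,⟨0,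
  [(12,0)]⟩,⟨0,[(22,0)]⟩⟩,⟨true,0,⟨0,[]⟩,⟨0,[(54,0)]⟩⟩,⟨false,0,⟨1,[(0,1),(4,1),(38,0),(7,0)]⟩,⟨0,
  [(22,0),(26,0),(2,0)]⟩⟩,[.fo,.o ⟨false,1,⟨1,[(44,0),(7,0)]⟩,⟨0,[(54,0)]⟩⟩,.a ⟨true,0,⟨0,[(41,0)]⟩,
  ⟨0,[(37,0)]⟩⟩ ⟨true,1,⟨12,[(0,1),(8,6),(8,3),(2,3),(0,5),(4,7),(2,1),(21,4)]⟩,⟨13,[(5,9),(4,1),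
  (17,9),(15,4),(2,1),(3,0)]⟩⟩ ⟨false,1,⟨5,[(0,1),(29,1),(13,1),(6,0),(0,2)]⟩,⟨0,[(41,0)]⟩⟩,.e
  ⟨false,2,⟨12,[(0,3),(8,0),(8,7),(2,7),(0,11),(4,2),(2,3),(21,9)]⟩,⟨0,[(1,0)]⟩⟩ ⟨false,1,⟨1,[(0,1),
  (43,0),(7,0)]⟩,⟨3,[(29,0),(0,0),(10,5)]⟩⟩]⟩)) (.R ⟨0,false,false,true,[1,0,0,0,-1],[2,-1,0,0,-1],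
  [0,0,0,-1],(⟨0,[(34,0)]⟩,⟨0,[(35,0)]⟩),(⟨0,[(34,0),(9,0)]⟩,⟨0,[(14,0)]⟩),⟨0,[(14,0)]⟩,.k,(.r (-1)
  ⟨3,[(0,0),(23,0),(26,1)]⟩ ⟨5,[(3,0),(0,1),(20,0),(6,2),(0,2),(19,3)]⟩),(.r (-1) ⟨3,[(0,0),(23,0),
  (26,1)]⟩ ⟨5,[(3,0),(0,1),(20,0),(6,2),(0,2),(19,3)]⟩),.k,.k,.k,⟨true,0,⟨3,[(28,0),(0,0),(10,1)]⟩,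
  ⟨0,[]⟩⟩,⟨false,1,⟨1,[(32,0),(0,0),(9,0)]⟩,⟨3,[(0,0),(23,0),(2,3),(23,1)]⟩⟩,⟨true,0,⟨0,[(48,0)]⟩,
  ⟨0,[(49,0)]⟩⟩,⟨false,1,⟨11,[(0,0),(19,3),(3,0),(3,3),(4,3),(9,1),(4,3)]⟩,⟨0,[(27,0),(23,0)]⟩⟩,
  ⟨false,0,⟨0,[]⟩,⟨0,[]⟩⟩,⟨false,0,⟨0,[]⟩,⟨0,[]⟩⟩,[.o ⟨false,2,⟨2,[(20,0),(5,0),(1,0),(3,1),(10,
  1)]⟩,⟨0,[(16,0),(10,0),(23,0)]⟩⟩,.e ⟨false,1,⟨3,[(0,0),(23,0),(26,1)]⟩,⟨5,[(4,1),(20,1),(6,0),(0,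
  0),(12,1),(3,0)]⟩⟩ ⟨false,2,⟨0,[(20,0),(12,0)]⟩,⟨0,[(27,0)]⟩⟩,.a ⟨true,1,⟨0,[(32,0)]⟩,⟨0,[(15,0),
  (35,0)]⟩⟩ ⟨false,1,⟨0,[(48,0),(2,0)]⟩,⟨0,[(49,0)]⟩⟩ ⟨true,1,⟨11,[(0,0),(19,3),(3,0),(3,3),(4,3),
  (9,1),(4,3)]⟩,⟨0,[(27,0)]⟩⟩,.o ⟨false,1,⟨3,[(4,0),(1,0),(13,0),(0,0),(6,0),(3,1),(10,0)]⟩,⟨0,[(17,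
  0)]⟩⟩]⟩)))) (.I [1,-1,2,1,0,0,0,-1] (.Q [0,0,0,0,0,-2,0,0,0,0,1] (.p true [0,0,1] [] (⟨0,[(40,
  0)]⟩,⟨0,[(39,0)]⟩) .k 0 (⟨0,[]⟩,⟨0,[]⟩) .k .k) (.S ⟨1,0,[0,0,-1,-1,0,0,0,1],[0,-1,1],[1,1,-1,-2,0,
  0,0,1],(⟨0,[(30,0)]⟩,⟨0,[(40,0),(3,0)]⟩),⟨0,[(0,0)]⟩,.k,(.r (-1) ⟨0,[(2,3),(0,0),(1,3),(0,3),(13,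
  7),(21,1),(5,11),(1,3)]⟩ ⟨2,[(1,1),(1,0),(20,1),(6,0),(0,0)]⟩),⟨true,0,⟨0,[(47,0)]⟩,⟨0,[(48,0)]⟩⟩,
  ⟨false,1,⟨1,[(31,0),(0,0),(17,0)]⟩,⟨0,[]⟩⟩,⟨false,0,⟨0,[]⟩,⟨1,[(31,0),(0,0),(17,0)]⟩⟩,⟨true,0,⟨0,
  [(48,0)]⟩,⟨0,[(47,0)]⟩⟩,[.o ⟨false,0,⟨2,[(6,0),(1,0),(10,0),(7,0),(0,0)]⟩,⟨1,[(37,1),(4,0),(5,1),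
  (1,0)]⟩⟩,.e ⟨false,1,⟨0,[(23,0)]⟩,⟨1,[(1,0),(22,0),(23,1)]⟩⟩ ⟨false,1,⟨0,[(2,0)]⟩,⟨1,[(1,0),(22,
  0),(27,1)]⟩⟩,.a ⟨true,(-1),⟨5,[(1,1),(3,2),(0,2),(13,0),(5,1),(8,0),(14,1)]⟩,⟨0,[(39,0),(9,0)]⟩⟩
  ⟨true,0,⟨1,[(8,0),(16,0),(21,0)]⟩,⟨1,[(1,0),(22,0),(23,1)]⟩⟩ ⟨false,1,⟨5,[(8,1),(14,1),(7,0),(0,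
  0),(17,2)]⟩,⟨1,[(1,0),(22,0)]⟩⟩,.e ⟨false,1,⟨0,[(23,0)]⟩,⟨0,[(1,0),(46,0)]⟩⟩ ⟨false,1,⟨0,[(2,0)]⟩,
  ⟨0,[(1,0),(50,0)]⟩⟩]⟩) (.R ⟨0,false,false,true,[0,-1,1],[1,0,0,0,-1],[1,1],(⟨0,[(30,0)]⟩,⟨0,[(0,
  0),(42,0)]⟩),(⟨0,[(33,0)]⟩,⟨0,[(34,0)]⟩),⟨0,[(0,0)]⟩,.k,.k,(.r (-1) ⟨0,[(2,3),(0,0),(1,3),(0,3),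
  (13,7),(21,1),(5,11),(1,3)]⟩ ⟨2,[(1,1),(1,0),(20,1),(6,0),(0,0)]⟩),(.r 0 ⟨5,[(8,2),(16,0),(19,1),
  (1,0)]⟩ ⟨1,[(1,0),(22,0),(6,0),(0,0),(17,0)]⟩),.k,.k,⟨false,0,⟨3,[(26,1),(15,0),(3,1),(2,0)]⟩,⟨1,
  [(31,0),(0,0),(17,0)]⟩⟩,⟨true,2,⟨11,[(3,5),(4,1),(10,9),(11,1),(5,9),(1,1),(2,0),(6,6)]⟩,⟨0,[(1,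
  0),(4,0)]⟩⟩,⟨false,0,⟨1,[(1,0),(22,0)]⟩,⟨5,[(8,1),(14,1),(7,0),(0,0),(17,2)]⟩⟩,⟨true,2,⟨1,[(31,1),
  (5,1),(4,0),(5,1),(1,0)]⟩,⟨0,[(6,0)]⟩⟩,⟨false,0,⟨0,[]⟩,⟨0,[]⟩⟩,⟨false,0,⟨0,[]⟩,⟨0,[]⟩⟩,[.a ⟨true,
  1,⟨0,[(31,0)]⟩,⟨0,[(14,0),(35,0)]⟩⟩ ⟨false,0,⟨3,[(26,1),(15,0),(3,1),(2,0)]⟩,⟨1,[(31,0),(0,0),(17,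
  0)]⟩⟩ ⟨true,2,⟨11,[(3,5),(4,1),(10,9),(11,1),(5,9),(1,1),(2,0),(6,6)]⟩,⟨0,[(1,0),(4,0)]⟩⟩,.o
  ⟨false,2,⟨1,[(31,1),(10,0),(7,0)]⟩,⟨0,[(15,0)]⟩⟩,.a ⟨true,(-1),⟨5,[(1,1),(3,2),(0,2),(13,0),(5,1),
  (8,0),(14,1)]⟩,⟨0,[(39,0),(9,0)]⟩⟩ ⟨false,0,⟨0,[]⟩,⟨1,[(31,0),(0,0),(17,0)]⟩⟩ ⟨true,2,⟨11,[(3,5),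
  (4,1),(10,9),(11,1),(5,9),(1,1),(2,0),(6,6)]⟩,⟨1,[(1,0),(4,0),(7,0),(7,0)]⟩⟩,.a ⟨true,(-1),⟨7,[(0,
  0),(0,3),(3,3),(0,3),(21,1),(10,3),(1,0),(1,1)]⟩,⟨0,[(2,0),(34,0),(10,0)]⟩⟩ ⟨true,0,⟨3,[(26,1),
  (15,0),(3,1),(2,0)]⟩,⟨3,[(27,0),(0,0),(10,1)]⟩⟩ ⟨false,3,⟨3,[(3,1),(15,3),(17,1),(1,1),(9,4),(0,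
  0)]⟩,⟨0,[(1,0),(4,0)]⟩⟩]⟩)) (.Q [0,0,0,0,0,2,0,0,0,0,-1] (.p false [0,0,1] [] (⟨0,[(40,0)]⟩,⟨0,
  [(39,0)]⟩) .k 0 (⟨0,[]⟩,⟨0,[]⟩) .k .k) (.R ⟨0,false,false,false,[0,-1,1],[1,0,-1],[1],(⟨0,[(30,
  0)]⟩,⟨0,[(0,0),(42,0)]⟩),(⟨0,[(40,0)]⟩,⟨0,[(41,0)]⟩),⟨0,[(0,0)]⟩,.k,.k,(.r (-1) ⟨0,[(1,3),(1,0),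
  (1,3),(0,3),(13,7),(21,1),(5,11),(1,7)]⟩ ⟨4,[(3,2),(3,3),(16,3),(6,0),(0,0),(17,1)]⟩),(.r 0 ⟨0,
  [(8,0)]⟩ ⟨1,[(7,1),(16,1),(6,0),(0,0),(17,0)]⟩),.k,.k,⟨true,0,⟨4,[(3,0),(4,1),(22,0),(0,0)]⟩,⟨0,
  [(7,0)]⟩⟩,⟨false,2,⟨3,[(2,3),(0,1),(33,5),(1,1),(2,1),(6,2),(0,0)]⟩,⟨1,[(5,0),(0,0),(0,0),(14,1),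
  (3,0),(23,0)]⟩⟩,⟨true,0,⟨0,[(7,0),(40,0)]⟩,⟨5,[(8,2),(16,0),(19,1),(1,0)]⟩⟩,⟨false,2,⟨1,[(37,3),
  (4,0),(5,1),(1,2)]⟩,⟨16,[(2,0),(2,10),(0,10),(1,8),(1,1),(10,1),(6,3),(21,3)]⟩⟩,⟨false,0,⟨0,[]⟩,
  ⟨0,[]⟩⟩,⟨false,0,⟨0,[]⟩,⟨0,[]⟩⟩,[.o ⟨false,1,⟨1,[(37,1),(4,0),(7,0)]⟩,⟨14,[(5,0),(0,0),(1,3),(0,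
  0),(0,4),(16,0),(0,3),(13,1)]⟩⟩,.e ⟨false,1,⟨1,[(49,0),(0,0)]⟩,⟨0,[(52,0)]⟩⟩ ⟨false,3,⟨1,[(37,1),
  (1,1),(2,0),(6,2),(0,1)]⟩,⟨0,[(5,0),(0,0),(41,0)]⟩⟩,.e ⟨true,0,⟨0,[]⟩,⟨0,[(52,0)]⟩⟩ ⟨true,2,⟨1,
  [(37,1),(1,1),(2,0),(6,1),(0,0)]⟩,⟨0,[(5,0),(0,0),(41,0)]⟩⟩,.a ⟨true,(-1),⟨1,[(5,0),(0,0),(0,1),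
  (13,0),(17,0)]⟩,⟨0,[(2,0),(34,0),(10,0)]⟩⟩ ⟨false,1,⟨1,[(49,0),(0,0)]⟩,⟨3,[(27,0),(0,0),(10,1)]⟩⟩
  ⟨true,2,⟨1,[(2,1),(34,3),(4,0),(5,1),(1,0)]⟩,⟨5,[(3,1),(1,5),(0,3),(11,1),(8,0),(0,0)]⟩⟩]⟩) (.I
  [0,0,-2,0,2,2,-1,0,-1] (.Q [0,-1,0,2,2,0,-1,-1,-1,-1,1,1] (.p true [0,0,1] [1,0,0,0,-1] (⟨0,[(42,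
  0)]⟩,⟨0,[(41,0)]⟩) .k 2 (⟨0,[(34,0)]⟩,⟨0,[(35,0)]⟩) .k (.r 0 ⟨14,[(4,1),(4,3),(22,1),(0,1),(3,4),
  (2,4),(5,4)]⟩ ⟨1,[(8,1),(41,0),(0,0)]⟩)) (.Q [0,0,-2,0,2,0,-1,0,-1,-1,1,1] (.p true [0,0,1] [1,0,
  0,0,-1] (⟨0,[(43,0)]⟩,⟨0,[(42,0)]⟩) .k 2 (⟨0,[(35,0)]⟩,⟨0,[(36,0)]⟩) .k (.r 0 ⟨14,[(0,0),(4,0),(4,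
  3),(9,0),(17,6),(2,5),(5,3)]⟩ ⟨1,[(9,1),(41,0),(0,0)]⟩)) (.R ⟨1,false,false,false,[0,0,0,0,1],[1,
  1,-1],[1,0,1,1,0,0,0,-1],(⟨0,[(37,0)]⟩,⟨0,[(36,0)]⟩),(⟨0,[(43,0),(3,0)]⟩,⟨0,[(33,0)]⟩),⟨1,[(3,0),
  (12,0),(15,0),(4,0)]⟩,.k,.k,(.r 0 ⟨0,[(49,0)]⟩ ⟨11,[(1,3),(22,3),(5,2),(0,2),(2,1),(0,5),(6,5),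
  (10,1)]⟩),(.r 0 ⟨5,[(11,2),(16,0),(19,1),(1,0)]⟩ ⟨4,[(1,1),(8,3),(13,0),(6,0),(3,1),(6,0),(10,
  0)]⟩),(.x 1 ⟨11,[(3,11),(2,1),(2,3),(0,5),(7,7),(6,1),(4,6),(0,2),(5,11),(15,5)]⟩ ⟨0,[(2,0)]⟩),.k,
  ⟨true,0,⟨0,[]⟩,⟨3,[(30,0),(0,0),(10,1)]⟩⟩,⟨false,2,⟨0,[(0,0)]⟩,⟨1,[(9,0),(0,1),(13,0),(10,0)]⟩⟩,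
  ⟨false,1,⟨0,[(10,0),(40,0),(1,0)]⟩,⟨5,[(11,2),(16,0),(19,1),(1,0)]⟩⟩,⟨false,3,⟨21,[(1,15),(20,3),
  (0,5),(6,1),(3,10),(0,8),(17,14)]⟩,⟨0,[(9,0)]⟩⟩,⟨false,1,⟨0,[(10,0),(40,1),(1,0)]⟩,⟨1,[(11,0),(16,
  0),(21,0)]⟩⟩,⟨true,2,⟨0,[(1,0)]⟩,⟨0,[(9,0),(40,0)]⟩⟩,[.o ⟨false,1,⟨3,[(1,1),(16,1),(21,1),(4,0),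
  (7,0)]⟩,⟨2,[(9,0),(1,0),(10,0),(7,0),(0,0)]⟩⟩,.e ⟨false,1,⟨0,[(27,0),(25,0)]⟩,⟨5,[(11,2),(16,0),
  (19,1),(1,0)]⟩⟩ ⟨false,3,⟨25,[(1,29),(20,1),(0,7),(2,11),(4,5),(2,0),(0,6),(17,0)]⟩,⟨0,[(9,0)]⟩⟩,
  .e ⟨true,0,⟨0,[(10,0),(40,0)]⟩,⟨5,[(11,2),(16,0),(19,1),(1,0)]⟩⟩ ⟨true,2,⟨0,[(1,0),(48,0)]⟩,⟨0,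
  [(9,0)]⟩⟩,.a ⟨true,(-1),⟨6,[(6,0),(2,1),(0,2),(6,0),(3,3),(20,1),(10,3)]⟩,⟨5,[(0,2),(4,0),(2,2),
  (14,0),(5,1),(8,0),(14,0)]⟩⟩ ⟨false,1,⟨0,[(27,0),(25,0)]⟩,⟨3,[(11,0),(0,1),(15,0),(21,0)]⟩⟩ ⟨true,
  2,⟨6,[(0,2),(0,2),(20,0),(0,0),(3,2)]⟩,⟨3,[(9,3),(20,0),(0,0),(10,1)]⟩⟩]⟩) (.R ⟨1,true,false,true,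
  [0,0,0,0,1],[1,1,-1],[0,1],(⟨0,[(37,0)]⟩,⟨0,[(36,0)]⟩),(⟨1,[(0,0),(1,0),(34,0),(5,0)]⟩,⟨0,[(33,
  0)]⟩),⟨1,[(3,0),(12,0),(15,0),(4,0)]⟩,.k,.k,(.r 0 ⟨0,[(49,0)]⟩ ⟨11,[(1,3),(22,3),(5,2),(0,2),(2,
  1),(0,5),(6,5),(10,1)]⟩),(.r 0 ⟨5,[(11,2),(16,0),(19,1),(1,0)]⟩ ⟨4,[(1,1),(8,3),(13,0),(6,0),(3,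
  1),(6,0),(10,0)]⟩),(.x 1 ⟨4,[(0,2),(2,4),(26,1),(0,0),(3,1),(1,4),(7,0)]⟩ ⟨0,[(2,0)]⟩),.k,⟨false,
  1,⟨9,[(1,0),(3,3),(5,0),(12,0),(1,3),(8,0),(12,2)]⟩,⟨2,[(0,0),(0,0),(8,0),(16,0)]⟩⟩,⟨true,2,⟨22,
  [(1,13),(9,9),(10,2),(0,8),(2,2),(7,5),(10,2),(2,3)]⟩,⟨0,[(0,0)]⟩⟩,⟨false,1,⟨1,[(34,0),(0,0),(17,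
  0)]⟩,⟨0,[]⟩⟩,⟨true,2,⟨0,[(1,0),(48,0)]⟩,⟨0,[(9,0)]⟩⟩,⟨true,0,⟨0,[(51,0)]⟩,⟨0,[(50,0)]⟩⟩,⟨false,2,
  ⟨0,[(1,0)]⟩,⟨0,[(0,0),(25,0)]⟩⟩,[]⟩)) (.K ⟨0,[0,0,-1,0,1],0,(-1),(⟨0,[(15,0),(15,0)]⟩,⟨0,[(35,0),
  (7,0)]⟩),.k,(.r (-1) ⟨4,[(21,1),(0,3),(3,0),(3,1),(3,1),(12,0),(3,0)]⟩ ⟨9,[(5,5),(4,1),(22,0),(0,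
  0),(17,4)]⟩),(.r 0 ⟨3,[(26,3),(2,0),(0,0),(10,1)]⟩ ⟨5,[(10,1),(14,1),(7,0),(0,0),(17,2)]⟩),.k,.k,
  [⟨0,[(4,0),(0,0),(8,0),(24,1),(12,0)]⟩,⟨0,[(7,0)]⟩,⟨13,[(7,2),(2,0),(0,0),(0,0),(8,2),(1,2),(9,7),
  (4,6)]⟩,⟨0,[(17,0),(21,0)]⟩]⟩)) (.Q [0,-1,0,2,2,0,-1,-1,-1,-1,1,1] (.p true [0,0,1] [1,0,0,0,-1]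
  (⟨0,[(42,0)]⟩,⟨0,[(41,0)]⟩) .k 2 (⟨0,[(34,0)]⟩,⟨0,[(35,0)]⟩) .k (.r 0 ⟨14,[(4,1),(4,3),(22,1),(0,
  1),(3,4),(2,4),(5,4)]⟩ ⟨1,[(8,1),(41,0),(0,0)]⟩)) (.I [0,0,2,0,-2,-2,1,0,1] (.Q [0,0,-2,0,2,0,-1,
  0,-1,-1,1,1] (.p true [0,0,1] [1,0,0,0,-1] (⟨0,[(44,0)]⟩,⟨0,[(43,0)]⟩) .k 2 (⟨0,[(36,0)]⟩,⟨0,[(37,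
  0)]⟩) .k (.r 0 ⟨14,[(1,0),(4,0),(4,3),(9,0),(17,6),(2,5),(5,3)]⟩ ⟨1,[(10,1),(41,0),(0,0)]⟩)) (.R
  ⟨1,false,false,false,[0,0,0,0,1],[1,1,-1],[1,0,1,1,0,0,0,-1],(⟨0,[(38,0)]⟩,⟨0,[(37,0)]⟩),(⟨0,[(44,
  0),(3,0)]⟩,⟨0,[(34,0)]⟩),⟨2,[(0,0),(0,0),(31,0),(4,1)]⟩,.k,.k,(.r 0 ⟨0,[(50,0)]⟩ ⟨11,[(2,3),(22,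
  3),(5,2),(0,2),(2,1),(0,5),(6,5),(10,1)]⟩),(.r 0 ⟨5,[(12,2),(16,0),(19,1),(1,0)]⟩ ⟨4,[(2,1),(8,3),
  (13,0),(6,0),(3,1),(6,0),(10,0)]⟩),(.x 2 ⟨0,[(1,0)]⟩ ⟨6,[(0,2),(1,3),(24,3),(3,0),(5,6),(6,6),(1,
  2),(1,13),(0,1)]⟩),.k,⟨true,0,⟨0,[]⟩,⟨3,[(31,0),(0,0),(10,1)]⟩⟩,⟨false,2,⟨0,[(0,0)]⟩,⟨1,[(10,0),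
  (0,1),(13,0),(10,0)]⟩⟩,⟨false,1,⟨0,[(11,0),(40,0),(1,0)]⟩,⟨5,[(12,2),(16,0),(19,1),(1,0)]⟩⟩,
  ⟨false,3,⟨21,[(2,15),(20,3),(0,5),(6,1),(3,10),(0,8),(17,14)]⟩,⟨0,[(10,0)]⟩⟩,⟨false,1,⟨0,[(11,0),
  (40,1),(1,0)]⟩,⟨1,[(12,0),(16,0),(21,0)]⟩⟩,⟨true,2,⟨0,[(2,0)]⟩,⟨0,[(10,0),(40,0)]⟩⟩,[.o ⟨false,1,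
  ⟨3,[(2,1),(16,1),(21,1),(4,0),(7,0)]⟩,⟨2,[(10,0),(1,0),(10,0),(7,0),(0,0)]⟩⟩,.e ⟨false,1,⟨0,[(28,
  0),(25,0)]⟩,⟨5,[(12,2),(16,0),(19,1),(1,0)]⟩⟩ ⟨false,3,⟨25,[(2,29),(20,1),(0,7),(2,11),(4,5),(2,
  0),(0,6),(17,0)]⟩,⟨0,[(10,0)]⟩⟩,.e ⟨true,0,⟨0,[(11,0),(40,0)]⟩,⟨5,[(12,2),(16,0),(19,1),(1,0)]⟩⟩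
  ⟨true,2,⟨0,[(2,0),(48,0)]⟩,⟨0,[(10,0)]⟩⟩,.a ⟨true,(-1),⟨6,[(7,0),(2,1),(0,2),(6,0),(3,3),(20,1),
  (10,3)]⟩,⟨5,[(0,2),(5,0),(2,2),(14,0),(5,1),(8,0),(14,0)]⟩⟩ ⟨false,1,⟨0,[(28,0),(25,0)]⟩,⟨3,[(12,
  0),(0,1),(15,0),(21,0)]⟩⟩ ⟨true,2,⟨6,[(0,2),(1,2),(20,0),(0,0),(3,2)]⟩,⟨3,[(10,3),(20,0),(0,0),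
  (10,1)]⟩⟩]⟩) (.R ⟨1,true,false,true,[0,0,0,0,1],[1,1,-1],[0,1],(⟨0,[(38,0)]⟩,⟨0,[(37,0)]⟩),(⟨0,
  [(44,0),(3,0)]⟩,⟨0,[(34,0)]⟩),⟨1,[(4,0),(12,0),(15,0),(4,0)]⟩,.k,.k,(.r 0 ⟨0,[(50,0)]⟩ ⟨11,[(2,3),
  (22,3),(5,2),(0,2),(2,1),(0,5),(6,5),(10,1)]⟩),(.r 0 ⟨5,[(12,2),(16,0),(19,1),(1,0)]⟩ ⟨4,[(2,1),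
  (8,3),(13,0),(6,0),(3,1),(6,0),(10,0)]⟩),(.x 2 ⟨0,[(1,0)]⟩ ⟨5,[(2,4),(2,0),(6,0),(10,0),(0,0),(2,
  2),(9,5),(6,5),(1,2),(1,11),(0,1)]⟩),.k,⟨false,1,⟨9,[(2,0),(3,3),(5,0),(12,0),(1,3),(8,0),(12,
  2)]⟩,⟨2,[(0,0),(1,0),(8,0),(16,0)]⟩⟩,⟨true,2,⟨22,[(2,13),(9,9),(10,2),(0,8),(2,2),(7,5),(10,2),(2,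
  3)]⟩,⟨0,[(0,0)]⟩⟩,⟨false,1,⟨1,[(35,0),(0,0),(17,0)]⟩,⟨0,[]⟩⟩,⟨true,2,⟨0,[(2,0),(48,0)]⟩,⟨0,[(10,
  0)]⟩⟩,⟨true,0,⟨0,[(52,0)]⟩,⟨0,[(51,0)]⟩⟩,⟨false,2,⟨0,[(2,0)]⟩,⟨0,[(0,0),(26,0)]⟩⟩,[]⟩)) (.I [1,0,
  -2,-2,1,0,0,-1] (.I [0,0,2,0,0,-2,-1] (.N [0,2,1] 1 ⟨0,[(8,0)]⟩ ⟨0,[(1,0)]⟩ (.x (-1) ⟨1,[(2,0),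
  (15,0),(2,0),(5,1),(12,0),(5,2),(2,0)]⟩ ⟨0,[(0,0)]⟩)) (.K ⟨0,[0,0,-1,0,1],0,(-1),(⟨0,[(18,0),(15,
  0)]⟩,⟨0,[(38,0),(7,0)]⟩),.k,(.r (-1) ⟨12,[(1,4),(1,3),(21,3),(7,3),(3,3),(12,2),(1,6)]⟩ ⟨12,[(3,
  0),(4,5),(4,1),(0,2),(11,0),(10,0),(17,3)]⟩),(.r 0 ⟨13,[(3,1),(4,1),(3,7),(10,1),(5,5),(2,0),(0,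
  0),(23,7)]⟩ ⟨14,[(3,0),(9,1),(0,2),(11,0),(1,7),(8,0),(17,4)]⟩),.k,.k,[⟨0,[(7,0),(0,0),(8,0),(24,
  1),(12,0)]⟩,⟨0,[(10,0)]⟩,⟨13,[(10,2),(2,0),(0,0),(0,0),(8,2),(1,2),(9,7),(4,6)]⟩,⟨0,[(20,0),(21,
  0)]⟩]⟩)) (.Q [0,0,0,0,0,-2,0,0,0,1,-1] (.p false [0,0,1] [1] (⟨0,[(45,0)]⟩,⟨0,[(44,0)]⟩) .k 1 (⟨0,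
  []⟩,⟨0,[]⟩) .k .k) (.I [0,1,-2,-2,0,0,0,1] (.R ⟨1,false,false,false,[0,0,0,0,1],[1,1,-1],[1,0,1,1,
  0,0,0,-1],(⟨0,[(40,0)]⟩,⟨0,[(39,0)]⟩),(⟨0,[(46,0),(3,0)]⟩,⟨0,[(36,0)]⟩),⟨2,[(1,0),(4,0),(12,0),
  (20,1)]⟩,.k,.k,(.r 0 ⟨0,[(52,0)]⟩ ⟨11,[(4,3),(22,3),(5,2),(0,2),(2,1),(0,5),(6,5),(10,1)]⟩),(.r 0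
  ⟨6,[(0,0),(13,2),(36,1),(1,1)]⟩ ⟨4,[(4,1),(8,3),(13,0),(6,0),(3,1),(6,0),(10,0)]⟩),(.r 0 ⟨0,[(0,
  0)]⟩ ⟨9,[(4,5),(4,1),(3,9),(13,3),(5,0),(0,2),(3,5),(6,3)]⟩),.k,⟨true,0,⟨0,[]⟩,⟨3,[(33,0),(0,0),
  (10,1)]⟩⟩,⟨false,2,⟨0,[(0,0),(3,0)]⟩,⟨1,[(12,0),(0,1),(13,0),(10,0)]⟩⟩,⟨false,1,⟨0,[(13,0),(40,0),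
  (1,0)]⟩,⟨6,[(0,0),(13,2),(36,1),(1,1)]⟩⟩,⟨false,3,⟨21,[(4,15),(20,3),(0,5),(6,1),(3,10),(0,8),(17,
  14)]⟩,⟨0,[(12,0)]⟩⟩,⟨false,1,⟨0,[(13,0),(40,1),(1,0)]⟩,⟨1,[(14,0),(16,0),(21,0)]⟩⟩,⟨true,2,⟨0,[(4,
  0)]⟩,⟨0,[(12,0),(40,0)]⟩⟩,[.o ⟨false,1,⟨3,[(4,1),(16,1),(21,1),(4,0),(7,0)]⟩,⟨2,[(12,0),(1,0),(10,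
  0),(7,0),(0,0)]⟩⟩,.e ⟨false,1,⟨0,[(30,0),(25,0)]⟩,⟨6,[(0,0),(13,2),(36,1),(1,1)]⟩⟩ ⟨false,3,⟨25,
  [(4,29),(20,1),(0,7),(2,11),(4,5),(2,0),(0,6),(17,0)]⟩,⟨0,[(12,0)]⟩⟩,.e ⟨true,0,⟨0,[(13,0),(40,
  0)]⟩,⟨6,[(0,0),(13,2),(36,1),(1,1)]⟩⟩ ⟨true,2,⟨0,[(4,0),(48,0)]⟩,⟨0,[(12,0)]⟩⟩,.a ⟨true,(-1),⟨6,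
  [(9,0),(2,1),(0,2),(6,0),(3,3),(20,1),(10,3)]⟩,⟨0,[(25,0),(6,0)]⟩⟩ ⟨false,1,⟨0,[(30,0),(25,0)]⟩,
  ⟨3,[(14,0),(0,1),(15,0),(21,0)]⟩⟩ ⟨true,2,⟨3,[(4,3),(2,0),(22,0),(0,1)]⟩,⟨3,[(12,3),(20,0),(0,0),
  (10,1)]⟩⟩]⟩) (.Q [0,0,-2,0,0,0,2,0,0,1,-2] (.p false [0,0,1] [1,0,-1] (⟨0,[(47,0)]⟩,⟨0,[(46,0)]⟩)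
  .k 2 (⟨0,[(46,0)]⟩,⟨0,[(47,0)]⟩) .k (.r 0 ⟨18,[(4,1),(4,3),(4,13),(0,0),(11,1),(10,1),(3,4),(2,
  4)]⟩ ⟨0,[(13,1),(41,0)]⟩)) (.I [0,-1,2,2,0,0,0,-1] (.S ⟨1,0,[0,0,-1,-1,0,0,0,1],[0,-1,1],[1,1,-1,
  -2,0,0,0,1],(⟨0,[(38,0)]⟩,⟨0,[(48,0),(3,0)]⟩),⟨0,[(8,0)]⟩,.k,(.r (-1) ⟨0,[(0,11),(3,0),(4,15),(3,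
  3),(0,3),(13,7),(21,1),(7,7)]⟩ ⟨0,[(0,0),(59,0)]⟩),⟨true,0,⟨0,[(55,0)]⟩,⟨0,[(56,0)]⟩⟩,⟨false,1,⟨1,
  [(39,0),(0,0),(17,0)]⟩,⟨0,[]⟩⟩,⟨false,0,⟨0,[]⟩,⟨1,[(39,0),(0,0),(17,0)]⟩⟩,⟨true,0,⟨0,[(56,0)]⟩,⟨0,
  [(55,0)]⟩⟩,[.o ⟨false,0,⟨2,[(14,0),(1,0),(10,0),(7,0),(0,0)]⟩,⟨3,[(6,1),(16,1),(21,1),(4,0),(7,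
  0)]⟩⟩,.e ⟨false,1,⟨0,[(31,0)]⟩,⟨11,[(0,5),(0,0),(4,1),(4,0),(11,1),(8,4),(1,0)]⟩⟩ ⟨false,1,⟨0,
  [(10,0)]⟩,⟨1,[(0,0),(14,0),(37,0),(6,0)]⟩⟩,.a ⟨true,(-1),⟨1,[(13,0),(0,0),(0,0),(18,0),(23,0)]⟩,
  ⟨8,[(6,3),(3,2),(5,0),(9,3),(4,1),(13,2),(1,1)]⟩⟩ ⟨true,0,⟨1,[(16,0),(16,0),(21,0)]⟩,⟨11,[(0,5),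
  (0,0),(4,1),(4,0),(11,1),(8,4),(1,0)]⟩⟩ ⟨false,1,⟨14,[(6,0),(9,1),(0,2),(11,0),(1,7),(8,0),(17,
  4)]⟩,⟨2,[(0,0),(14,0),(16,0)]⟩⟩,.e ⟨false,1,⟨0,[(31,0)]⟩,⟨0,[(0,0)]⟩⟩ ⟨false,1,⟨0,[(10,0)]⟩,⟨0,
  [(0,0),(54,0)]⟩⟩]⟩) (.K ⟨0,[0,0,-1,0,1],0,(-1),(⟨1,[(3,0),(17,1),(26,0)]⟩,⟨0,[(41,0),(7,0)]⟩),.k,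
  (.r (-1) ⟨51,[(6,3),(20,11),(0,47),(7,25),(3,15),(9,4),(2,9),(3,14)]⟩ ⟨12,[(6,0),(4,5),(4,1),(0,
  2),(11,0),(10,0),(17,3)]⟩),(.r 0 ⟨1,[(2,0),(12,0),(37,0),(6,0)]⟩ ⟨14,[(6,0),(9,1),(0,2),(11,0),(1,
  7),(8,0),(17,4)]⟩),.k,.k,[⟨0,[(10,0),(0,0),(8,0),(24,1),(12,0)]⟩,⟨0,[(13,0)]⟩,⟨13,[(13,2),(2,0),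
  (0,0),(0,0),(8,2),(1,2),(9,7),(4,6)]⟩,⟨0,[(23,0),(21,0)]⟩]⟩)) (.Q [0,-1,0,2,0,0,1,1,0,0,-1] (.p
  false [0,0,1] [] (⟨0,[(48,0)]⟩,⟨0,[(47,0)]⟩) .k 0 (⟨0,[]⟩,⟨0,[]⟩) .k .k) (.S ⟨1,1,[],[1,-1,-1],[1,
  0,-1,-2,0,0,0,-1],(⟨0,[(37,0)]⟩,⟨0,[(49,0),(2,0)]⟩),⟨0,[(3,0)]⟩,.k,(.r (-2) ⟨6,[(24,1),(2,3),(0,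
  7),(2,0),(4,3),(3,1),(16,2),(0,1)]⟩ ⟨0,[(4,0)]⟩),⟨false,1,⟨0,[(55,0),(2,0)]⟩,⟨0,[(56,0)]⟩⟩,⟨true,
  0,⟨0,[(18,0)]⟩,⟨0,[(28,0)]⟩⟩,⟨true,0,⟨0,[]⟩,⟨0,[(60,0)]⟩⟩,⟨false,0,⟨0,[(0,0)]⟩,⟨0,[(28,0),(26,0),
  (2,0)]⟩⟩,[.fo,.o ⟨false,1,⟨1,[(50,0),(7,0)]⟩,⟨0,[(60,0)]⟩⟩,.a ⟨true,0,⟨0,[(47,0)]⟩,⟨0,[(43,0)]⟩⟩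
  ⟨true,1,⟨1,[(15,1),(17,1),(23,0),(0,0)]⟩,⟨19,[(0,0),(5,0),(2,3),(1,15),(10,0),(11,7),(15,3),(2,
  3)]⟩⟩ ⟨false,1,⟨1,[(43,1),(6,0),(7,0)]⟩,⟨0,[(47,0)]⟩⟩,.o ⟨false,0,⟨1,[(1,0),(33,0)]⟩,⟨1,[(43,1),
  (6,0),(6,0)]⟩⟩]⟩) (.K ⟨0,[0,0,-1,0,1],0,(-1),(⟨1,[(3,0),(17,1),(26,0)]⟩,⟨0,[(41,0),(7,0)]⟩),.k,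
  (.r (-1) ⟨7,[(0,5),(5,1),(29,3),(3,1),(9,0),(2,1),(3,2)]⟩ ⟨12,[(6,0),(4,5),(4,1),(0,2),(11,0),(10,
  0),(17,3)]⟩),(.r 0 ⟨1,[(2,0),(12,0),(37,0),(6,0)]⟩ ⟨14,[(6,0),(9,1),(0,2),(11,0),(1,7),(8,0),(17,
  4)]⟩),.k,.k,[⟨8,[(1,6),(8,3),(11,0),(1,5),(1,1),(7,3),(10,3),(12,3)]⟩,⟨0,[(13,0)]⟩,⟨13,[(13,2),(2,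
  0),(0,0),(0,0),(8,2),(1,2),(9,7),(4,6)]⟩,⟨0,[(23,0),(21,0)]⟩]⟩)))) (.Q [0,0,-2,0,0,0,1,0,0,1,-1]
  (.p false [0,0,1] [1] (⟨0,[(46,0)]⟩,⟨0,[(45,0)]⟩) .k 1 (⟨0,[]⟩,⟨0,[]⟩) .k .k) (.R ⟨0,false,false,
  false,[1,-1,-1],[1,-1],[0,0,-1,-2,0,0,0,-1],(⟨0,[(35,0)]⟩,⟨0,[(1,0),(47,0)]⟩),(⟨0,[(49,0)]⟩,⟨0,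
  [(50,0)]⟩),⟨0,[(1,0)]⟩,.k,.k,(.r (-2) ⟨6,[(22,1),(2,3),(0,7),(2,0),(4,3),(3,1),(16,2),(0,1)]⟩ ⟨0,
  [(2,0)]⟩),.k,.k,.k,⟨false,1,⟨9,[(0,1),(12,3),(8,3),(2,3),(0,5),(7,1),(20,0),(0,0)]⟩,⟨11,[(4,0),(4,
  5),(4,2),(12,0),(10,0),(12,0),(3,3)]⟩⟩,⟨true,0,⟨0,[(28,0)]⟩,⟨0,[(45,0)]⟩⟩,⟨false,1,⟨0,[(53,0),(2,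
  0)]⟩,⟨3,[(0,0),(3,0),(4,0),(11,0)]⟩⟩,⟨true,0,⟨14,[(11,0),(0,0),(1,3),(0,0),(0,4),(16,0),(0,3),(13,
  1)]⟩,⟨0,[(43,0)]⟩⟩,⟨false,0,⟨0,[]⟩,⟨0,[]⟩⟩,⟨false,0,⟨0,[]⟩,⟨0,[]⟩⟩,[.o ⟨false,1,⟨12,[(17,0),(7,5),
  (7,2),(4,4),(9,1),(4,4)]⟩,⟨0,[(54,0)]⟩⟩,.a ⟨true,1,⟨0,[(53,0),(2,0)]⟩,⟨0,[(32,0)]⟩⟩ ⟨false,2,⟨12,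
  [(0,3),(12,0),(8,7),(2,7),(0,11),(4,2),(2,3),(21,9)]⟩,⟨17,[(4,0),(2,3),(1,13),(6,0),(6,0),(8,8),
  (15,3),(2,1)]⟩⟩ ⟨true,1,⟨5,[(0,1),(16,1),(7,1),(8,1),(13,0),(7,2)]⟩,⟨0,[(9,0),(16,0)]⟩⟩,.a ⟨true,
  0,⟨0,[(45,0)]⟩,⟨0,[(41,0)]⟩⟩ ⟨true,1,⟨12,[(0,1),(12,6),(8,3),(2,3),(0,5),(4,7),(2,1),(21,4)]⟩,⟨17,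
  [(4,0),(2,3),(1,13),(6,0),(6,0),(8,8),(15,3),(2,1)]⟩⟩ ⟨false,1,⟨5,[(0,1),(16,1),(7,1),(8,1),(13,
  0),(7,2)]⟩,⟨4,[(4,0),(4,0),(12,0),(9,0),(12,3)]⟩⟩,.a ⟨true,0,⟨3,[(33,0),(0,0),(10,5)]⟩,⟨0,[(0,
  0)]⟩⟩ ⟨false,2,⟨12,[(0,3),(12,0),(8,7),(2,7),(0,11),(4,2),(2,3),(21,9)]⟩,⟨0,[(9,0)]⟩⟩ ⟨true,1,⟨5,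
  [(0,1),(21,1),(2,1),(5,1),(2,1),(13,0),(6,0)]⟩,⟨0,[(9,0),(16,0)]⟩⟩]⟩) (.R ⟨0,false,false,false,[1,
  -1,-1],[1,-1],[1,0,0,-1],(⟨0,[(35,0)]⟩,⟨0,[(1,0),(47,0)]⟩),(⟨0,[(49,0)]⟩,⟨0,[(50,0)]⟩),⟨0,[(1,
  0)]⟩,.k,.k,(.r (-2) ⟨6,[(22,1),(2,3),(0,7),(2,0),(4,3),(3,1),(16,2),(0,1)]⟩ ⟨0,[(2,0)]⟩),.k,.k,.k,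
  ⟨false,0,⟨0,[]⟩,⟨10,[(4,3),(19,1),(4,3),(4,1),(3,1),(12,0),(3,0)]⟩⟩,⟨true,0,⟨0,[(28,0)]⟩,⟨0,[(45,
  0)]⟩⟩,⟨false,0,⟨0,[(15,0)]⟩,⟨0,[(13,0),(41,0)]⟩⟩,⟨true,0,⟨14,[(11,0),(0,0),(1,3),(0,0),(0,4),(16,
  0),(0,3),(13,1)]⟩,⟨0,[(43,0)]⟩⟩,⟨false,0,⟨0,[]⟩,⟨0,[]⟩⟩,⟨false,0,⟨0,[]⟩,⟨0,[]⟩⟩,[.o ⟨false,1,⟨12,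
  [(17,0),(7,5),(7,2),(4,4),(9,1),(4,4)]⟩,⟨0,[(54,0)]⟩⟩,.a ⟨true,1,⟨0,[(53,0),(2,0)]⟩,⟨0,[(32,0)]⟩⟩
  ⟨false,1,⟨3,[(31,1),(23,0),(0,2)]⟩,⟨13,[(4,2),(4,2),(13,1),(0,0),(2,0),(2,0),(3,0),(16,5)]⟩⟩
  ⟨true,1,⟨6,[(17,1),(4,0),(2,2),(2,3),(12,2),(14,2)]⟩,⟨0,[(9,0),(16,0)]⟩⟩,.e ⟨false,1,⟨0,[(53,0),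
  (2,0)]⟩,⟨0,[(54,0)]⟩⟩ ⟨false,1,⟨6,[(17,1),(4,0),(2,2),(2,3),(12,2),(14,2)]⟩,⟨4,[(4,0),(4,0),(12,
  0),(9,0),(12,3)]⟩⟩,.o ⟨false,0,⟨0,[(0,0)]⟩,⟨1,[(41,1),(6,0),(6,0)]⟩⟩]⟩))))) (.I [1,0,-2,-2,1,0,0,
  -1] (.I [0,0,2,0,0,-2,-1] (.N [0,2,1] 1 ⟨0,[(7,0)]⟩ ⟨0,[(1,0)]⟩ (.x (-1) ⟨1,[(39,1),(5,1),(0,0),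
  (1,3),(4,0)]⟩ ⟨0,[(0,0)]⟩)) (.K ⟨0,[0,0,-1,0,1],0,(-1),(⟨0,[(17,0),(15,0)]⟩,⟨0,[(37,0),(7,0)]⟩),
  .k,(.r (-1) ⟨1,[(1,0),(9,0),(23,0),(0,0),(12,0)]⟩ ⟨9,[(7,5),(4,1),(22,0),(0,0),(17,4)]⟩),(.r 0 ⟨3,
  [(28,3),(2,0),(0,0),(10,1)]⟩ ⟨5,[(12,1),(14,1),(7,0),(0,0),(17,2)]⟩),.k,.k,[⟨0,[(6,0),(0,0),(8,0),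
  (24,1),(12,0)]⟩,⟨0,[(9,0)]⟩,⟨13,[(9,2),(2,0),(0,0),(0,0),(8,2),(1,2),(9,7),(4,6)]⟩,⟨0,[(19,0),(21,
  0)]⟩]⟩)) (.Q [0,0,0,0,0,-2,0,0,0,1,-1] (.p false [0,0,1] [1] (⟨0,[(44,0)]⟩,⟨0,[(43,0)]⟩) .k 1 (⟨0,
  []⟩,⟨0,[]⟩) .k .k) (.I [1,-2,1,1,0,0,0,2] (.Q [0,-1,0,2,0,0,1,1,0,0,-1] (.p false [0,0,1] [] (⟨0,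
  [(46,0)]⟩,⟨0,[(45,0)]⟩) .k 0 (⟨0,[]⟩,⟨0,[]⟩) .k .k) (.S ⟨1,1,[],[1,-1,-1],[1,0,-1,-2,0,0,0,-1],
  (⟨0,[(35,0)]⟩,⟨0,[(47,0),(2,0)]⟩),⟨0,[(2,0)]⟩,.k,(.r (-2) ⟨6,[(22,1),(2,3),(0,7),(2,0),(4,3),(3,
  1),(16,2),(0,1)]⟩ ⟨0,[(3,0)]⟩),⟨false,1,⟨0,[(53,0),(2,0)]⟩,⟨0,[(54,0)]⟩⟩,⟨true,0,⟨0,[(16,0)]⟩,⟨0,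
  [(26,0)]⟩⟩,⟨true,0,⟨0,[]⟩,⟨0,[(58,0)]⟩⟩,⟨false,0,⟨0,[(0,0)]⟩,⟨0,[(26,0),(26,0),(2,0)]⟩⟩,[.fo,.o
  ⟨false,1,⟨1,[(48,0),(7,0)]⟩,⟨0,[(58,0)]⟩⟩,.a ⟨true,0,⟨0,[(45,0)]⟩,⟨0,[(41,0)]⟩⟩ ⟨true,1,⟨1,[(13,
  1),(17,1),(23,0),(0,0)]⟩,⟨9,[(0,0),(2,7),(3,1),(24,3),(10,0),(4,1),(2,1)]⟩⟩ ⟨false,1,⟨1,[(41,1),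
  (6,0),(7,0)]⟩,⟨0,[(45,0)]⟩⟩,.o ⟨false,0,⟨7,[(1,4),(1,2),(7,0),(1,3),(3,0),(8,8),(21,3)]⟩,⟨1,[(41,
  1),(6,0),(6,0)]⟩⟩]⟩) (.K ⟨0,[0,0,-1,0,1],0,(-1),(⟨1,[(2,0),(16,1),(26,0)]⟩,⟨0,[(39,0),(7,0)]⟩),.k,
  (.r (-1) ⟨4,[(25,1),(0,3),(3,0),(3,1),(3,1),(12,0),(3,0)]⟩ ⟨5,[(1,1),(1,1),(33,0),(0,0),(17,0)]⟩),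
  (.r 0 ⟨8,[(3,0),(9,2),(10,1),(5,6),(2,1),(3,2),(0,0)]⟩ ⟨9,[(1,1),(27,5),(7,0),(0,0),(17,2)]⟩),.k,
  .k,[⟨0,[(1,0),(20,0),(3,0),(16,0)]⟩,⟨0,[(11,0)]⟩,⟨17,[(1,0),(9,3),(2,0),(10,3),(1,3),(9,9),(4,
  9)]⟩,⟨0,[(21,0),(21,0)]⟩]⟩)) (.K ⟨0,[0,0,-1,0,1],0,(-1),(⟨1,[(1,0),(16,1),(26,0)]⟩,⟨0,[(38,0),(7,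
  0)]⟩),.k,(.r (-1) ⟨9,[(0,5),(27,1),(7,6),(0,6),(17,0)]⟩ ⟨3,[(2,2),(25,0),(26,1)]⟩),(.r 0 ⟨8,[(2,
  0),(9,2),(10,1),(5,6),(2,1),(3,2),(0,0)]⟩ ⟨3,[(2,0),(25,2),(26,1)]⟩),.k,.k,[⟨0,[(2,0),(4,0),(9,0),
  (24,1),(12,0)]⟩,⟨0,[(10,0)]⟩,⟨13,[(10,2),(2,0),(0,0),(0,0),(8,2),(1,2),(9,7),(4,6)]⟩,⟨0,[(20,0),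
  (21,0)]⟩]⟩)) (.Q [0,0,2,0,0,0,-1,0,0,-1,1] (.p true [0,0,1] [1] (⟨0,[(45,0)]⟩,⟨0,[(44,0)]⟩) .k 1
  (⟨0,[]⟩,⟨0,[]⟩) .k .k) (.R ⟨0,false,false,false,[1,-1,-1],[1,-1],[1,0,0,-1],(⟨0,[(34,0)]⟩,⟨1,[(1,
  0),(43,0),(0,1)]⟩),(⟨0,[(48,0)]⟩,⟨0,[(49,0)]⟩),⟨0,[(1,0)]⟩,.k,.k,(.r (-2) ⟨6,[(21,1),(2,3),(0,7),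
  (2,0),(4,3),(3,1),(16,2),(0,1)]⟩ ⟨0,[(2,0)]⟩),.k,.k,.k,⟨false,0,⟨0,[]⟩,⟨1,[(36,0),(0,0),(16,0)]⟩⟩,
  ⟨true,0,⟨0,[(27,0)]⟩,⟨0,[(44,0)]⟩⟩,⟨false,0,⟨0,[(14,0)]⟩,⟨0,[(12,0),(41,0)]⟩⟩,⟨true,0,⟨15,[(3,0),
  (6,0),(2,3),(0,0),(0,5),(16,0),(0,3),(13,1)]⟩,⟨0,[(42,0)]⟩⟩,⟨false,0,⟨0,[]⟩,⟨0,[]⟩⟩,⟨false,0,⟨0,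
  []⟩,⟨0,[]⟩⟩,[.o ⟨false,1,⟨12,[(16,0),(7,5),(7,2),(4,4),(9,1),(4,4)]⟩,⟨0,[(53,0)]⟩⟩,.a ⟨true,1,⟨0,
  [(52,0),(2,0)]⟩,⟨0,[(31,0)]⟩⟩ ⟨false,1,⟨3,[(30,1),(23,0),(0,2)]⟩,⟨5,[(2,1),(26,1),(6,0),(0,0),(12,
  1),(3,0)]⟩⟩ ⟨true,1,⟨6,[(16,1),(4,0),(2,2),(2,3),(12,2),(14,2)]⟩,⟨0,[(2,0),(22,0)]⟩⟩,.e ⟨false,1,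
  ⟨0,[(52,0),(2,0)]⟩,⟨0,[(53,0)]⟩⟩ ⟨false,1,⟨6,[(16,1),(4,0),(2,2),(2,3),(12,2),(14,2)]⟩,⟨3,[(2,1),
  (39,1),(1,1),(9,0),(0,0)]⟩⟩,.o ⟨false,0,⟨0,[(0,0)]⟩,⟨1,[(40,1),(6,0),(6,0)]⟩⟩]⟩) (.R ⟨0,false,
  false,false,[1,-1,-1],[1,-1],[0,0,-1,-2,0,0,0,-1],(⟨0,[(34,0)]⟩,⟨1,[(1,0),(43,0),(0,1)]⟩),(⟨0,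
  [(48,0)]⟩,⟨0,[(49,0)]⟩),⟨0,[(1,0)]⟩,.k,.k,(.r (-2) ⟨8,[(0,1),(23,5),(0,9),(2,0),(4,3),(3,5),(16,
  2),(0,1)]⟩ ⟨0,[(2,0)]⟩),.k,.k,.k,⟨false,1,⟨9,[(0,1),(11,3),(8,3),(2,3),(0,5),(7,1),(20,0),(0,0)]⟩,
  ⟨3,[(2,2),(25,0),(25,1)]⟩⟩,⟨true,0,⟨0,[(27,0)]⟩,⟨0,[(44,0)]⟩⟩,⟨false,1,⟨0,[(52,0),(2,0)]⟩,⟨0,[(53,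
  0)]⟩⟩,⟨true,0,⟨15,[(3,0),(6,0),(2,3),(0,0),(0,5),(16,0),(0,3),(13,1)]⟩,⟨0,[(42,0)]⟩⟩,⟨false,0,⟨0,
  []⟩,⟨0,[]⟩⟩,⟨false,0,⟨0,[]⟩,⟨0,[]⟩⟩,[.o ⟨false,1,⟨12,[(16,0),(7,5),(7,2),(4,4),(9,1),(4,4)]⟩,⟨0,
  [(53,0)]⟩⟩,.a ⟨true,1,⟨0,[(52,0),(2,0)]⟩,⟨0,[(31,0)]⟩⟩ ⟨false,2,⟨12,[(0,3),(11,0),(8,7),(2,7),(0,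
  11),(4,2),(2,3),(21,9)]⟩,⟨4,[(2,3),(3,0),(24,1),(15,0),(2,0),(2,0)]⟩⟩ ⟨true,1,⟨5,[(0,1),(15,1),(7,
  1),(8,1),(13,0),(7,2)]⟩,⟨0,[(2,0),(22,0)]⟩⟩,.a ⟨true,0,⟨0,[(44,0)]⟩,⟨0,[(40,0)]⟩⟩ ⟨true,1,⟨12,[(0,
  1),(11,6),(8,3),(2,3),(0,5),(4,7),(2,1),(21,4)]⟩,⟨4,[(2,3),(3,0),(24,1),(15,0),(2,0),(2,0)]⟩⟩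
  ⟨false,1,⟨5,[(0,1),(15,1),(7,1),(8,1),(13,0),(7,2)]⟩,⟨3,[(2,1),(39,1),(1,1),(9,0),(0,0)]⟩⟩,.a
  ⟨true,0,⟨3,[(32,0),(0,0),(10,5)]⟩,⟨0,[(0,0)]⟩⟩ ⟨false,2,⟨12,[(0,3),(11,0),(8,7),(2,7),(0,11),(4,
  2),(2,3),(21,9)]⟩,⟨0,[(8,0)]⟩⟩ ⟨true,1,⟨5,[(0,1),(20,1),(2,1),(5,1),(2,1),(13,0),(6,0)]⟩,⟨0,[(2,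
  0),(22,0)]⟩⟩]⟩)))))))))))))) (.Q [0,-1,0,1,2,0,-1,-1,-1,-1,1,1] (.p true [0,0,1] [1,0,0,0,-1] (⟨0,
  [(33,0)]⟩,⟨0,[(32,0)]⟩) .k 2 (⟨0,[(25,0)]⟩,⟨0,[(26,0)]⟩) .k (.r 0 ⟨0,[(1,0),(35,0)]⟩ ⟨15,[(0,5),
  (10,1),(0,3),(7,1),(2,0),(0,2),(16,1),(0,8)]⟩)) (.R ⟨0,false,false,true,[1,0,0,0,-1],[0,-1,1],[1,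
  0,1],(⟨0,[(26,0)]⟩,⟨0,[(27,0)]⟩),(⟨0,[(23,0)]⟩,⟨0,[(33,0),(3,0)]⟩),⟨0,[(6,0)]⟩,.k,.k,(.r (-1) ⟨3,
  [(18,1),(23,0),(0,2)]⟩ ⟨1,[(0,0),(10,0),(7,0),(0,0),(8,0)]⟩),(.r (-1) ⟨9,[(0,3),(0,3),(12,1),(5,
  0),(0,2),(3,3),(6,3),(10,1)]⟩ ⟨1,[(2,0),(13,0),(1,0),(0,1),(15,0)]⟩),.k,.k,⟨true,0,⟨0,[(1,0),(0,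
  0)]⟩,⟨1,[(2,0),(13,0),(1,0),(0,1),(15,0)]⟩⟩,⟨false,(-1),⟨0,[(7,0),(7,0),(27,0)]⟩,⟨1,[(0,0),(11,0),
  (3,0),(2,1),(12,0),(2,0)]⟩⟩,⟨false,0,⟨3,[(20,0),(0,0),(10,1)]⟩,⟨1,[(42,0),(0,0)]⟩⟩,⟨true,(-2),⟨2,
  [(2,1),(0,0),(3,2),(7,1),(2,1)]⟩,⟨0,[(0,0)]⟩⟩,⟨false,0,⟨0,[]⟩,⟨0,[]⟩⟩,⟨false,0,⟨0,[]⟩,⟨0,[]⟩⟩,[.e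
  ⟨false,0,⟨0,[]⟩,⟨16,[(0,5),(10,1),(2,1),(1,3),(4,1),(3,3),(12,2),(3,2)]⟩⟩ ⟨false,(-1),⟨2,[(3,0),
  (0,0),(0,0),(1,0),(6,0),(1,0),(11,0)]⟩,⟨0,[(0,0)]⟩⟩,.o ⟨false,0,⟨2,[(2,1),(0,0),(11,1),(2,1)]⟩,⟨0,
  [(0,0),(7,0)]⟩⟩,.a ⟨true,1,⟨0,[(24,0)]⟩,⟨0,[(7,0),(35,0)]⟩⟩ ⟨true,0,⟨3,[(20,0),(0,0),(10,1)]⟩,⟨3,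
  [(19,1),(15,0),(3,1),(2,0)]⟩⟩ ⟨false,(-1),⟨0,[(4,0),(9,0)]⟩,⟨0,[(0,0)]⟩⟩,.o ⟨false,1,⟨0,[(12,0),
  (6,0),(0,0)]⟩,⟨0,[(9,0)]⟩⟩]⟩) (.Q [0,-1,-1,1,0,0,1,0,0,1,-1] (.p false [0,0,1] [1] (⟨0,[(34,0)]⟩,
  ⟨0,[(33,0)]⟩) .k 1 (⟨0,[]⟩,⟨0,[]⟩) .k .k) (.S ⟨1,0,[0,0,1,1,0,0,0,1],[0,1,1],[1,1,1,0,0,0,0,1],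
  (⟨0,[(35,0),(2,0)]⟩,⟨0,[(23,0)]⟩),⟨0,[(35,0)]⟩,.k,.k,⟨true,0,⟨0,[(41,0)]⟩,⟨0,[(42,0)]⟩⟩,⟨false,1,
  ⟨1,[(25,0),(0,0),(17,0)]⟩,⟨0,[]⟩⟩,⟨false,0,⟨0,[]⟩,⟨1,[(25,0),(0,0),(17,0)]⟩⟩,⟨true,0,⟨0,[(42,0)]⟩,
  ⟨0,[(41,0)]⟩⟩,[.o ⟨false,0,⟨0,[(4,0)]⟩,⟨1,[(14,1),(21,0),(7,0)]⟩⟩,.a ⟨true,0,⟨0,[(15,0)]⟩,⟨0,[(14,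
  0)]⟩⟩ ⟨false,0,⟨2,[(3,1),(13,0),(2,1),(15,0)]⟩,⟨15,[(2,5),(10,1),(0,3),(7,1),(2,0),(0,2),(16,9),
  (0,0)]⟩⟩ ⟨true,0,⟨0,[(3,0),(38,0)]⟩,⟨1,[(2,0),(16,0),(21,0)]⟩⟩,.e ⟨false,0,⟨1,[(3,0),(26,0),(2,
  0)]⟩,⟨1,[(0,1),(13,1),(21,0),(7,0)]⟩⟩ ⟨false,0,⟨0,[(3,0),(38,0)]⟩,⟨0,[(2,0),(14,0)]⟩⟩,.o ⟨false,0,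
  ⟨0,[(16,0)]⟩,⟨1,[(33,1),(2,0),(6,0)]⟩⟩]⟩) (.Q [0,-1,0,2,2,0,-1,-1,-1,-1,1,1] (.p true [0,0,1] [1,
  0,0,0,-1] (⟨0,[(35,0)]⟩,⟨0,[(34,0)]⟩) .k 2 (⟨0,[(27,0)]⟩,⟨0,[(28,0)]⟩) .k (.r 0 ⟨0,[(3,0),(35,
  0)]⟩ ⟨15,[(2,5),(10,1),(0,3),(7,1),(2,0),(0,2),(16,1),(0,8)]⟩)) (.R ⟨1,true,false,true,[0,0,0,0,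
  1],[1,1,-1],[1,1,0,-1],(⟨0,[(29,0)]⟩,⟨0,[(28,0)]⟩),(⟨0,[(35,0),(3,0)]⟩,⟨0,[(25,0)]⟩),⟨0,[(8,0),
  (15,0),(0,0)]⟩,.k,.k,(.r 0 ⟨0,[(41,0)]⟩ ⟨11,[(0,3),(15,3),(5,2),(0,2),(2,1),(0,5),(6,5),(10,1)]⟩),
  (.r 0 ⟨11,[(1,2),(0,2),(1,1),(9,2),(3,6),(2,10),(15,3)]⟩ ⟨11,[(0,3),(2,3),(18,0),(0,4),(3,3),(6,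
  5),(10,3)]⟩),(.r (-1) ⟨8,[(18,7),(7,0),(0,0),(3,0),(2,0),(5,2),(1,1)]⟩ ⟨0,[(3,0),(0,0),(38,0)]⟩),
  .k,⟨false,1,⟨0,[(18,0)]⟩,⟨3,[(0,0),(2,1),(6,0),(5,0),(4,0),(0,0),(20,1)]⟩⟩,⟨true,2,⟨14,[(0,8),(0,
  5),(2,0),(9,5),(3,7),(2,9),(15,1)]⟩,⟨0,[(2,0),(0,0),(0,0)]⟩⟩,⟨false,1,⟨0,[(42,0),(2,0)]⟩,⟨0,[(43,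
  0)]⟩⟩,⟨true,2,⟨0,[(0,0),(41,0)]⟩,⟨0,[(2,0)]⟩⟩,⟨true,0,⟨0,[]⟩,⟨0,[(47,0)]⟩⟩,⟨false,2,⟨0,[(0,0)]⟩,
  ⟨8,[(2,5),(1,2),(1,2),(8,1),(2,1),(4,2),(10,0),(10,3)]⟩⟩,[]⟩) (.R ⟨0,false,false,false,[1,0,0,0,
  -1],[1,0,1,0,-1],[1,0,1],(⟨0,[(28,0)]⟩,⟨0,[(29,0)]⟩),(⟨0,[(28,0),(7,0)]⟩,⟨0,[(8,0),(15,0)]⟩),⟨0,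
  [(8,0)]⟩,.k,.k,(.r (-1) ⟨3,[(20,1),(23,0),(0,2)]⟩ ⟨6,[(5,0),(10,0),(2,4),(2,0),(8,2),(2,4)]⟩),.k,
  .k,.k,⟨false,0,⟨5,[(3,2),(16,0),(19,1),(1,0)]⟩,⟨0,[(4,0),(39,0)]⟩⟩,⟨true,0,⟨0,[(17,0)]⟩,⟨0,[(34,
  0)]⟩⟩,⟨false,0,⟨3,[(22,0),(0,0),(10,1)]⟩,⟨1,[(44,0),(0,0)]⟩⟩,⟨true,0,⟨19,[(0,3),(3,1),(0,11),(8,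
  3),(7,0),(0,0),(7,1)]⟩,⟨0,[(32,0)]⟩⟩,⟨false,0,⟨0,[]⟩,⟨0,[]⟩⟩,⟨false,0,⟨0,[]⟩,⟨0,[]⟩⟩,[.e ⟨false,0,
  ⟨0,[]⟩,⟨1,[(26,0),(0,0),(16,0)]⟩⟩ ⟨false,1,⟨5,[(5,3),(12,1),(11,1),(6,0),(7,2)]⟩,⟨0,[(32,0)]⟩⟩,.o
  ⟨false,2,⟨0,[(4,0),(9,0),(2,0),(25,0)]⟩,⟨0,[(10,0),(21,0)]⟩⟩,.a ⟨true,1,⟨0,[(26,0)]⟩,⟨0,[(9,0),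
  (35,0)]⟩⟩ ⟨true,0,⟨3,[(22,0),(0,0),(10,1)]⟩,⟨3,[(21,1),(15,0),(3,1),(2,0)]⟩⟩ ⟨false,1,⟨39,[(0,5),
  (3,9),(0,21),(8,5),(3,1),(4,5),(13,2),(7,34)]⟩,⟨0,[(32,0)]⟩⟩,.o ⟨false,1,⟨0,[(14,0),(6,0),(0,0)]⟩,
  ⟨0,[(11,0)]⟩⟩]⟩))))) (.Q [0,0,0,0,0,0,1,1,0,0,-1] (.p false [0,0,1] [] (⟨0,[(32,0)]⟩,⟨0,[(31,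
  0)]⟩) .k 0 (⟨0,[]⟩,⟨0,[]⟩) .k .k) (.I [1,0,0,0,0,0,0,1] (.S ⟨1,0,[0,0,0,0,0,0,0,-1],[1,0,-1],[0,1,
  0,0,0,0,0,-1],(⟨0,[(33,0)]⟩,⟨0,[(34,0)]⟩),⟨0,[(22,0)]⟩,.k,.k,⟨true,0,⟨0,[(45,0)]⟩,⟨0,[]⟩⟩,⟨false,
  1,⟨1,[(24,0),(0,0),(17,0)]⟩,⟨0,[]⟩⟩,⟨false,0,⟨0,[(41,0)]⟩,⟨0,[(40,0),(2,0)]⟩⟩,⟨true,0,⟨0,[(41,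
  0)]⟩,⟨0,[(40,0)]⟩⟩,[.o ⟨false,1,⟨1,[(30,1),(4,0),(7,0)]⟩,⟨0,[(1,0)]⟩⟩,.e ⟨false,1,⟨6,[(2,1),(9,0),
  (0,1),(3,2),(3,0),(3,0),(16,1),(0,2)]⟩,⟨0,[(0,0)]⟩⟩ ⟨false,1,⟨0,[(2,0),(40,0)]⟩,⟨2,[(0,1),(28,0),
  (2,0),(5,0)]⟩⟩,.o ⟨false,1,⟨1,[(32,1),(2,0),(6,0)]⟩,⟨0,[(15,0)]⟩⟩,.a ⟨true,0,⟨0,[(32,0)]⟩,⟨0,[(28,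
  0)]⟩⟩ ⟨true,0,⟨0,[(2,0)]⟩,⟨2,[(0,1),(13,0),(5,0),(11,0),(7,0)]⟩⟩ ⟨false,1,⟨0,[(2,0),(40,0)]⟩,⟨2,
  [(0,1),(13,0),(5,0),(11,0),(7,0)]⟩⟩]⟩) (.Q [0,0,-1,0,-1,0,1,0,1,1,-1,-1] (.p false [0,0,1] [1,0,0,
  0,-1] (⟨0,[(34,0)]⟩,⟨0,[(33,0)]⟩) .k 2 (⟨0,[(26,0)]⟩,⟨0,[(27,0)]⟩) .k (.r 0 ⟨2,[(1,0),(14,0),(2,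
  1),(9,0),(2,1),(2,0)]⟩ ⟨9,[(0,1),(12,3),(3,3),(3,1),(13,0),(7,8)]⟩)) (.R ⟨0,false,false,true,[1,0,
  0,0,-1],[0,0,1],[0,1],(⟨0,[(27,0)]⟩,⟨0,[(28,0)]⟩),(⟨0,[(35,0)]⟩,⟨0,[(34,0)]⟩),⟨0,[(7,0)]⟩,.k,.k,
  (.r (-1) ⟨1,[(1,0),(15,0),(26,0)]⟩ ⟨6,[(4,0),(10,0),(2,4),(2,0),(8,2),(2,4)]⟩),.k,.k,.k,⟨true,0,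
  ⟨0,[(1,0)]⟩,⟨0,[(2,0),(30,0)]⟩⟩,⟨false,(-1),⟨0,[(0,0)]⟩,⟨1,[(25,1),(7,1),(2,0),(6,0)]⟩⟩,⟨false,0,
  ⟨0,[(46,0)]⟩,⟨0,[(44,0)]⟩⟩,⟨true,(-2),⟨0,[(2,0),(5,0)]⟩,⟨0,[(1,0),(11,0),(19,0),(8,0)]⟩⟩,⟨false,0,
  ⟨0,[]⟩,⟨0,[]⟩⟩,⟨false,0,⟨0,[]⟩,⟨0,[]⟩⟩,[.e ⟨false,0,⟨3,[(20,1),(15,0),(3,1),(2,0)]⟩,⟨1,[(25,0),(0,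
  0),(17,0)]⟩⟩ ⟨false,(-1),⟨2,[(0,0),(3,1),(3,0),(3,0),(4,0)]⟩,⟨0,[(1,0),(11,0),(19,0),(8,0)]⟩⟩,.o
  ⟨false,0,⟨0,[(2,0)]⟩,⟨1,[(31,1),(4,0),(7,0)]⟩⟩,.a ⟨true,1,⟨0,[(25,0)]⟩,⟨0,[(8,0),(35,0)]⟩⟩ ⟨true,
  0,⟨0,[(46,0)]⟩,⟨0,[]⟩⟩ ⟨false,(-1),⟨0,[(6,0),(8,0)]⟩,⟨0,[(1,0),(11,0),(19,0),(8,0)]⟩⟩,.o ⟨false,1,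
  ⟨0,[(13,0),(6,0),(0,0)]⟩,⟨0,[(10,0)]⟩⟩]⟩) (.I [0,-1,-1,0,1,0,0,1] (.R ⟨0,false,false,false,[1,0,0,
  0,-1],[0,0,1],[1,1,1],(⟨0,[(28,0)]⟩,⟨0,[(29,0)]⟩),(⟨0,[(36,0)]⟩,⟨0,[(35,0)]⟩),⟨0,[(8,0)]⟩,.k,.k,
  (.r (-1) ⟨1,[(2,0),(15,0),(26,0)]⟩ ⟨6,[(5,0),(10,0),(2,4),(2,0),(8,2),(2,4)]⟩),.k,.k,.k,⟨false,0,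
  ⟨5,[(4,1),(10,1),(3,1),(2,0),(0,0)]⟩,⟨0,[(0,0)]⟩⟩,⟨true,(-1),⟨0,[(2,0),(4,0),(8,0)]⟩,⟨0,[(1,0)]⟩⟩,
  ⟨true,(-1),⟨6,[(20,3),(0,7),(0,5),(14,0),(2,0)]⟩,⟨1,[(44,0),(0,0)]⟩⟩,⟨false,(-1),⟨0,[(7,0),(8,
  0)]⟩,⟨1,[(1,0),(0,0),(11,0),(17,0),(10,0),(1,0)]⟩⟩,⟨false,0,⟨0,[]⟩,⟨0,[]⟩⟩,⟨false,0,⟨0,[]⟩,⟨0,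
  []⟩⟩,[.o ⟨false,0,⟨0,[(3,0)]⟩,⟨1,[(32,1),(4,0),(7,0)]⟩⟩,.e ⟨false,0,⟨0,[]⟩,⟨1,[(26,0),(0,0),(16,
  0)]⟩⟩ ⟨false,0,⟨8,[(6,2),(4,5),(4,7),(1,0),(11,0),(14,1)]⟩,⟨0,[(1,0),(2,0)]⟩⟩,.a ⟨true,1,⟨0,[(26,
  0)]⟩,⟨0,[(9,0),(35,0)]⟩⟩ ⟨false,0,⟨3,[(22,0),(0,0),(10,1)]⟩,⟨1,[(44,0),(0,0)]⟩⟩ ⟨true,(-1),⟨0,[(7,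
  0),(8,0)]⟩,⟨0,[(1,0),(2,0)]⟩⟩,.o ⟨false,1,⟨0,[(1,0),(15,0)]⟩,⟨0,[(11,0)]⟩⟩]⟩) (.Q [0,0,0,1,0,0,-1,
  -1,0,0,1] (.p true [0,0,1] [] (⟨0,[(36,0)]⟩,⟨0,[(35,0)]⟩) .k 0 (⟨0,[]⟩,⟨0,[]⟩) .k .k) (.R ⟨2,true,
  false,false,[0,1],[0,0,1],[1,1,1],(⟨0,[]⟩,⟨0,[]⟩),(⟨0,[(37,0)]⟩,⟨0,[(36,0)]⟩),⟨0,[]⟩,.k,.k,.k,.k,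
  .k,.k,⟨true,(-1),⟨0,[(1,0)]⟩,⟨2,[(2,0),(3,0),(10,0),(1,0),(8,0),(6,0),(10,0)]⟩⟩,⟨false,0,⟨0,[(18,
  0)]⟩,⟨0,[(35,0),(9,0)]⟩⟩,⟨true,0,⟨0,[(43,0)]⟩,⟨0,[(44,0)]⟩⟩,⟨false,1,⟨2,[(17,0),(1,1),(3,1),(0,0),
  (21,0)]⟩,⟨0,[(0,0)]⟩⟩,⟨false,0,⟨0,[]⟩,⟨1,[(27,0),(0,0),(17,0)]⟩⟩,⟨true,0,⟨0,[(4,0)]⟩,⟨0,[(33,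
  0)]⟩⟩,[]⟩) (.Q [0,-1,0,1,1,0,1,1,-1,0,-1,1] (.p false [0,0,1] [0,0,0,0,1] (⟨0,[(37,0)]⟩,⟨0,[(36,
  0)]⟩) .k 2 (⟨0,[(30,0)]⟩,⟨0,[(29,0)]⟩) .k (.r (-1) ⟨2,[(2,0),(3,0),(10,0),(1,0),(8,0),(6,0),(10,
  0)]⟩ ⟨9,[(1,0),(3,0),(10,3),(3,3),(3,1),(13,0)]⟩)) (.R ⟨0,false,false,true,[1,0,0,0,-1],[1,-1,-1],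
  [0,1],(⟨0,[(30,0)]⟩,⟨0,[(31,0)]⟩),(⟨0,[(26,0)]⟩,⟨0,[(38,0),(2,0)]⟩),⟨0,[(10,0)]⟩,.k,.k,(.r (-1)
  ⟨1,[(4,0),(15,0),(26,0)]⟩ ⟨6,[(7,0),(10,0),(2,4),(2,0),(8,2),(2,4)]⟩),(.r (-1) ⟨0,[(0,0),(28,0),
  (6,0)]⟩ ⟨1,[(4,0),(1,0),(15,0)]⟩),.k,.k,⟨true,0,⟨0,[(7,0),(28,0)]⟩,⟨1,[(2,0),(1,0),(17,0),(24,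
  0)]⟩⟩,⟨false,0,⟨0,[(13,0),(22,0)]⟩,⟨3,[(0,2),(1,0),(3,1),(9,0),(5,0),(9,0)]⟩⟩,⟨false,0,⟨0,[(49,
  0)]⟩,⟨0,[(47,0)]⟩⟩,⟨true,(-1),⟨0,[(9,0),(24,0)]⟩,⟨0,[(0,0)]⟩⟩,⟨false,0,⟨0,[]⟩,⟨0,[]⟩⟩,⟨false,0,⟨0,
  []⟩,⟨0,[]⟩⟩,[.e ⟨false,0,⟨3,[(23,1),(15,0),(3,1),(2,0)]⟩,⟨1,[(28,0),(0,0),(17,0)]⟩⟩ ⟨false,0,⟨0,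
  [(13,0),(3,0)]⟩,⟨0,[(0,0)]⟩⟩,.o ⟨false,1,⟨1,[(17,1),(21,0),(7,0)]⟩,⟨0,[(7,0)]⟩⟩,.a ⟨true,1,⟨0,
  [(28,0)]⟩,⟨0,[(11,0),(35,0)]⟩⟩ ⟨true,0,⟨0,[(49,0)]⟩,⟨0,[]⟩⟩ ⟨false,0,⟨0,[(9,0),(24,0),(12,0)]⟩,⟨0,
  [(0,0)]⟩⟩,.o ⟨false,1,⟨9,[(0,1),(1,2),(0,2),(12,1),(7,2),(3,2),(4,0),(5,0)]⟩,⟨0,[(13,0)]⟩⟩]⟩) (.Q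
  [0,-1,0,1,1,0,-1,-1,0,-1,1] (.p true [0,0,1] [1] (⟨0,[(38,0)]⟩,⟨0,[(37,0)]⟩) .k 1 (⟨0,[]⟩,⟨0,[]⟩)
  .k .k) (.R ⟨2,true,false,false,[0,1],[1,1,-1],[1,0,1],(⟨0,[]⟩,⟨0,[]⟩),(⟨0,[(38,0),(3,0)]⟩,⟨0,[(28,
  0)]⟩),⟨0,[]⟩,.k,.k,.k,.k,.k,.k,⟨false,1,⟨10,[(4,2),(14,2),(1,6),(7,0),(0,3),(3,0),(2,0),(5,0)]⟩,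
  ⟨1,[(0,0),(4,0),(14,0),(3,0)]⟩⟩,⟨true,1,⟨11,[(0,5),(3,3),(3,1),(6,2),(5,3),(8,0),(6,3),(2,0)]⟩,⟨0,
  [(2,0),(0,0),(20,0),(23,0)]⟩⟩,⟨false,1,⟨0,[(45,0),(2,0)]⟩,⟨0,[(46,0)]⟩⟩,⟨true,1,⟨7,[(0,2),(16,1),
  (0,0),(6,0),(4,1),(4,3),(4,0)]⟩,⟨0,[(2,0),(21,0)]⟩⟩,⟨true,0,⟨0,[]⟩,⟨0,[(50,0)]⟩⟩,⟨false,1,⟨0,[(0,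
  0)]⟩,⟨2,[(2,0),(16,1),(3,1),(2,0),(10,1)]⟩⟩,[]⟩) (.Q [0,0,0,0,0,2,0,0,0,0,-1] (.p false [0,0,1]
  [] (⟨0,[(39,0)]⟩,⟨0,[(38,0)]⟩) .k 0 (⟨0,[]⟩,⟨0,[]⟩) .k .k) (.Q [0,-1,-2,-1,2,0,-1,0,0,-1,1] (.p
  true [0,0,1] [1] (⟨0,[(40,0)]⟩,⟨0,[(39,0)]⟩) .k 1 (⟨0,[]⟩,⟨0,[]⟩) .k .k) (.R ⟨0,false,false,false,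
  [0,-1,1],[1,-1],[1],(⟨0,[(30,0)]⟩,⟨1,[(1,0),(38,1),(0,0)]⟩),(⟨0,[(43,0)]⟩,⟨0,[(44,0)]⟩),⟨0,[(1,
  0)]⟩,.k,.k,(.r (-1) ⟨0,[(0,0),(1,0)]⟩ ⟨0,[(24,0),(1,0),(0,0),(22,0)]⟩),.k,.k,.k,⟨false,0,⟨0,[(48,
  0)]⟩,⟨3,[(0,0),(19,0),(2,0),(4,0),(2,0),(0,0)]⟩⟩,⟨true,1,⟨5,[(0,1),(5,1),(10,0),(14,0),(6,1),(2,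
  0),(5,1)]⟩,⟨1,[(2,0),(2,1),(15,0),(28,0)]⟩⟩,⟨false,0,⟨0,[(5,0),(42,0),(1,0)]⟩,⟨5,[(0,0),(20,0),(1,
  2),(7,0),(0,0),(3,1),(2,1)]⟩⟩,⟨true,1,⟨1,[(37,1),(4,0),(7,0)]⟩,⟨2,[(2,1),(7,0),(15,0)]⟩⟩,⟨false,0,
  ⟨0,[]⟩,⟨0,[]⟩⟩,⟨false,0,⟨0,[]⟩,⟨0,[]⟩⟩,[.o ⟨false,1,⟨25,[(0,9),(10,1),(7,1),(7,10),(0,4),(13,3),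
  (4,9)]⟩,⟨0,[(48,0)]⟩⟩,.e ⟨false,1,⟨1,[(49,0),(0,0)]⟩,⟨0,[(52,0)]⟩⟩ ⟨false,2,⟨0,[(0,0)]⟩,⟨1,[(26,
  1),(0,0),(0,0)]⟩⟩,.a ⟨true,(-1),⟨1,[(2,0),(2,1),(15,0),(28,0)]⟩,⟨4,[(0,2),(20,1),(4,0),(10,1),(1,
  1),(5,0)]⟩⟩ ⟨true,0,⟨0,[]⟩,⟨0,[(52,0)]⟩⟩ ⟨false,2,⟨2,[(0,1),(5,0),(25,0),(14,0),(2,0)]⟩,⟨0,[(5,0),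
  (15,0)]⟩⟩,.e ⟨false,1,⟨1,[(49,0),(0,0)]⟩,⟨3,[(27,0),(0,0),(10,1)]⟩⟩ ⟨false,2,⟨0,[(0,0)]⟩,⟨3,[(5,
  3),(15,3),(5,0),(0,0),(10,1)]⟩⟩]⟩) (.Q [0,0,-2,0,1,0,-1,0,0,0,1] (.p true [0,0,1] [] (⟨0,[(41,
  0)]⟩,⟨0,[(40,0)]⟩) .k 0 (⟨0,[]⟩,⟨0,[]⟩) .k .k) (.R ⟨0,false,false,false,[0,-1,1],[1,-1],[1],(⟨0,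
  [(31,0)]⟩,⟨1,[(2,0),(38,1),(0,0)]⟩),(⟨0,[(44,0)]⟩,⟨0,[(45,0)]⟩),⟨0,[(2,0)]⟩,.k,.k,(.x 0 ⟨1,[(28,
  1),(0,0),(0,0),(0,2)]⟩ ⟨0,[(0,0),(1,0)]⟩),.k,.k,.k,⟨false,0,⟨0,[(49,0)]⟩,⟨29,[(0,3),(19,5),(0,7),
  (2,7),(4,5),(2,4),(0,10),(17,0)]⟩⟩,⟨true,1,⟨2,[(0,0),(6,0),(25,0),(6,0),(2,0)]⟩,⟨1,[(1,0),(1,0),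
  (4,0),(42,0)]⟩⟩,⟨false,0,⟨0,[(6,0),(42,0),(1,0)]⟩,⟨14,[(0,0),(6,2),(14,2),(1,8),(7,1),(0,4),(3,2),
  (2,1)]⟩⟩,⟨true,1,⟨1,[(38,1),(4,0),(7,0)]⟩,⟨2,[(3,1),(7,0),(15,0)]⟩⟩,⟨false,0,⟨0,[]⟩,⟨0,[]⟩⟩,
  ⟨false,0,⟨0,[]⟩,⟨0,[]⟩⟩,[.o ⟨false,1,⟨12,[(12,0),(7,5),(7,2),(4,4),(9,1),(4,4)]⟩,⟨0,[(49,0)]⟩⟩,.a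
  ⟨true,1,⟨0,[(48,0),(2,0)]⟩,⟨0,[(27,0)]⟩⟩ ⟨false,1,⟨1,[(50,0),(0,0)]⟩,⟨0,[(53,0)]⟩⟩ ⟨true,2,⟨2,[(0,
  0),(6,0),(13,0),(2,0),(8,0),(9,0),(7,1)]⟩,⟨0,[(1,0)]⟩⟩,.a ⟨true,(-1),⟨1,[(1,0),(1,0),(4,0),(42,
  0)]⟩,⟨2,[(0,1),(31,0),(0,0),(6,0)]⟩⟩ ⟨true,0,⟨0,[]⟩,⟨0,[(53,0)]⟩⟩ ⟨false,2,⟨2,[(0,0),(6,0),(13,0),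
  (2,0),(8,0),(9,0),(7,1)]⟩,⟨1,[(1,0),(6,0),(13,0)]⟩⟩,.a ⟨true,(-1),⟨11,[(1,7),(1,3),(17,3),(6,2),
  (0,2),(10,1),(10,7)]⟩,⟨0,[(0,0)]⟩⟩ ⟨false,1,⟨1,[(50,0),(0,0)]⟩,⟨3,[(28,0),(0,0),(10,1)]⟩⟩ ⟨true,2,
  ⟨28,[(0,15),(6,3),(12,10),(3,8),(8,14),(4,8),(4,6),(2,0)]⟩,⟨0,[(1,0)]⟩⟩]⟩) (.I [0,0,-2,0,1,2,-1]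
  (.R ⟨0,false,false,false,[0,-1,1],[1,-1],[],(⟨0,[(32,0)]⟩,⟨1,[(3,0),(38,1),(0,0)]⟩),(⟨0,[(45,0)]⟩,
  ⟨0,[(46,0)]⟩),⟨0,[(3,0)]⟩,.k,.k,(.x 0 ⟨1,[(29,1),(0,0),(0,0),(0,2)]⟩ ⟨0,[(0,0)]⟩),.k,.k,.k,⟨false,
  0,⟨0,[(50,0)]⟩,⟨13,[(21,1),(0,3),(2,3),(4,1),(2,2),(0,4),(16,1),(0,0)]⟩⟩,⟨true,1,⟨0,[(8,0),(9,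
  0)]⟩,⟨1,[(2,0),(1,0),(4,0),(42,0)]⟩⟩,⟨false,0,⟨0,[(7,0),(42,0),(1,0)]⟩,⟨10,[(8,2),(14,2),(1,6),(7,
  0),(0,3),(3,0),(2,0),(5,0)]⟩⟩,⟨true,1,⟨1,[(39,1),(4,0),(7,0)]⟩,⟨2,[(4,1),(7,0),(15,0)]⟩⟩,⟨false,0,
  ⟨0,[]⟩,⟨0,[]⟩⟩,⟨false,0,⟨0,[]⟩,⟨0,[]⟩⟩,[.o ⟨false,1,⟨12,[(13,0),(7,5),(7,2),(4,4),(9,1),(4,4)]⟩,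
  ⟨0,[(50,0)]⟩⟩,.a ⟨true,1,⟨0,[(49,0),(2,0)]⟩,⟨0,[(28,0)]⟩⟩ ⟨false,1,⟨1,[(51,0),(0,0)]⟩,⟨0,[(54,
  0)]⟩⟩ ⟨true,2,⟨3,[(8,1),(9,1),(6,1),(13,1),(4,0),(7,2)]⟩,⟨0,[(2,0)]⟩⟩,.e ⟨false,1,⟨1,[(33,0),(0,
  0),(17,0)]⟩,⟨0,[]⟩⟩ ⟨false,2,⟨3,[(8,1),(9,1),(6,1),(13,1),(4,0),(7,2)]⟩,⟨1,[(2,0),(6,0),(13,0)]⟩⟩,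
  .o ⟨false,(-1),⟨0,[(1,0)]⟩,⟨0,[(8,0),(9,0),(32,0)]⟩⟩]⟩) (.I [0,0,-1,-1,0,0,0,-2] (.R ⟨0,false,
  false,true,[1,0,0,0,-1],[2,-1,0,0,-1],[0,0,0,-1],(⟨0,[(36,0)]⟩,⟨0,[(37,0)]⟩),(⟨0,[(36,0),(9,0)]⟩,
  ⟨0,[(16,0)]⟩),⟨0,[(16,0)]⟩,.k,(.r (-1) ⟨26,[(0,3),(21,0),(0,1),(2,9),(4,0),(3,0),(16,0),(0,13)]⟩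
  ⟨6,[(13,0),(10,0),(2,4),(2,0),(8,2),(2,4)]⟩),(.r (-1) ⟨26,[(0,3),(21,0),(0,1),(2,9),(4,0),(3,0),
  (16,0),(0,13)]⟩ ⟨6,[(13,0),(10,0),(2,4),(2,0),(8,2),(2,4)]⟩),.k,.k,.k,⟨true,0,⟨3,[(30,0),(0,0),
  (10,1)]⟩,⟨0,[]⟩⟩,⟨false,1,⟨1,[(34,0),(0,0),(9,0)]⟩,⟨7,[(0,0),(25,2),(2,6),(8,0),(1,0),(12,3)]⟩⟩,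
  ⟨true,0,⟨0,[(50,0)]⟩,⟨0,[(51,0)]⟩⟩,⟨false,1,⟨12,[(14,0),(7,5),(7,2),(4,4),(9,1),(4,4)]⟩,⟨0,[(29,
  0),(23,0)]⟩⟩,⟨false,0,⟨0,[]⟩,⟨0,[]⟩⟩,⟨false,0,⟨0,[]⟩,⟨0,[]⟩⟩,[.o ⟨false,2,⟨2,[(22,0),(5,0),(1,0),
  (3,1),(10,1)]⟩,⟨0,[(18,0),(10,0),(23,0)]⟩⟩,.e ⟨false,1,⟨26,[(0,3),(21,0),(0,1),(2,9),(4,0),(3,0),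
  (16,0),(0,13)]⟩,⟨2,[(13,0),(13,0),(14,0),(5,0),(2,0)]⟩⟩ ⟨false,2,⟨0,[(22,0),(12,0)]⟩,⟨0,[(29,
  0)]⟩⟩,.a ⟨true,1,⟨0,[(34,0)]⟩,⟨0,[(6,0),(17,0)]⟩⟩ ⟨false,1,⟨0,[(50,0),(2,0)]⟩,⟨0,[(51,0)]⟩⟩ ⟨true,
  1,⟨12,[(14,0),(7,5),(7,2),(4,4),(9,1),(4,4)]⟩,⟨0,[(29,0)]⟩⟩,.o ⟨false,1,⟨2,[(2,0),(6,0),(24,1),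
  (10,0)]⟩,⟨0,[(19,0)]⟩⟩]⟩) (.Q [0,-1,0,2,1,0,1,1,-1,0,-1,1] (.p false [0,0,1] [0,0,0,0,1] (⟨0,[(44,
  0)]⟩,⟨0,[(43,0)]⟩) .k 2 (⟨0,[(37,0)]⟩,⟨0,[(36,0)]⟩) .k (.r (-1) ⟨9,[(0,3),(25,1),(7,2),(0,2),(17,
  4)]⟩ ⟨9,[(8,0),(3,0),(10,3),(3,3),(3,1),(13,0)]⟩)) (.R ⟨1,true,false,false,[0,0,0,0,1],[0,1,1],[0,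
  2],(⟨0,[(38,0)]⟩,⟨0,[(37,0)]⟩),(⟨1,[(5,0),(39,2)]⟩,⟨0,[(33,0)]⟩),⟨0,[(17,0),(15,0),(0,0)]⟩,.k,.k,
  (.r 0 ⟨0,[(50,0)]⟩ ⟨5,[(1,1),(26,3),(2,0),(0,0),(2,0),(0,0),(6,1),(10,4)]⟩),(.r 0 ⟨1,[(11,0),(1,
  0),(15,0)]⟩ ⟨11,[(1,7),(26,3),(2,0),(0,0),(2,3),(0,3),(6,1),(10,7)]⟩),(.r (-1) ⟨7,[(11,2),(1,0),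
  (9,1),(0,3),(4,4),(2,1),(3,1),(16,3)]⟩ ⟨3,[(1,1),(2,1),(38,1),(2,0),(5,3),(1,2)]⟩),.k,⟨false,0,⟨0,
  [(13,0),(36,0)]⟩,⟨12,[(1,7),(2,0),(23,2),(2,0),(11,0),(8,0),(1,14)]⟩⟩,⟨true,1,⟨8,[(0,2),(3,1),(1,
  1),(6,4),(9,5),(15,1)]⟩,⟨3,[(1,1),(2,1),(2,3),(35,1),(2,0),(7,2)]⟩⟩,⟨true,0,⟨0,[(56,0)]⟩,⟨0,[]⟩⟩,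
  ⟨false,2,⟨7,[(0,3),(0,1),(21,1),(8,1),(2,2),(0,0),(17,4)]⟩,⟨0,[(7,0)]⟩⟩,⟨false,0,⟨0,[(52,0)]⟩,⟨0,
  [(51,0),(2,0)]⟩⟩,⟨true,1,⟨0,[(0,0)]⟩,⟨3,[(7,0),(7,1),(5,0),(2,2)]⟩⟩,[]⟩) (.K ⟨0,[0,0,-1,0,1],0,
  (-1),(⟨0,[(17,0),(15,0)]⟩,⟨0,[(37,0),(7,0)]⟩),.k,(.r 0 ⟨1,[(11,0),(1,0),(15,0)]⟩ ⟨11,[(1,7),(26,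
  3),(2,0),(0,0),(2,3),(0,3),(6,1),(10,7)]⟩),(.r 1 ⟨0,[(9,0),(42,0)]⟩ ⟨9,[(1,1),(25,5),(7,8),(0,8),
  (17,4)]⟩),.k,.k,[⟨1,[(1,0),(5,2),(2,0),(16,0),(2,0),(21,2),(1,1)]⟩,⟨0,[(4,0),(18,0)]⟩,⟨0,[(12,0),
  (22,0)]⟩,⟨0,[(19,0),(21,0)]⟩]⟩)))))) (.Q [0,0,2,0,-1,0,-1,0,1,0,1,-1] (.p true [0,0,1] [0,0,0,0,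
  1] (⟨0,[(40,0)]⟩,⟨0,[(39,0)]⟩) .k 2 (⟨0,[(33,0)]⟩,⟨0,[(32,0)]⟩) .k (.r (-1) ⟨2,[(5,0),(3,0),(10,
  0),(1,0),(8,0),(6,0),(10,0)]⟩ ⟨9,[(4,0),(3,0),(10,3),(3,3),(3,1),(13,0)]⟩)) (.Q [0,-1,0,2,1,0,1,1,
  -1,0,-1,1] (.p false [0,0,1] [0,0,0,0,1] (⟨0,[(41,0)]⟩,⟨0,[(40,0)]⟩) .k 2 (⟨0,[(34,0)]⟩,⟨0,[(33,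
  0)]⟩) .k (.r (-1) ⟨11,[(0,1),(5,5),(3,1),(10,5),(1,3),(8,3),(16,0),(0,2)]⟩ ⟨9,[(5,0),(3,0),(10,3),
  (3,3),(3,1),(13,0)]⟩)) (.R ⟨1,true,false,false,[0,0,0,0,1],[0,1,1],[0,2],(⟨0,[(35,0)]⟩,⟨0,[(34,
  0)]⟩),(⟨0,[(42,0),(2,0)]⟩,⟨0,[(30,0)]⟩),⟨1,[(2,0),(11,0),(15,0),(4,0)]⟩,.k,.k,(.r 0 ⟨0,[(47,0)]⟩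
  ⟨17,[(0,5),(0,7),(23,5),(2,0),(0,0),(2,10),(0,8),(17,8)]⟩),(.r 0 ⟨1,[(8,0),(1,0),(15,0)]⟩ ⟨0,[(7,
  0),(14,0),(10,0)]⟩),(.r (-1) ⟨7,[(8,2),(1,0),(9,1),(0,3),(4,4),(2,1),(3,1),(16,3)]⟩ ⟨0,[(0,0),(0,
  0)]⟩),.k,⟨false,0,⟨0,[(10,0),(36,0)]⟩,⟨4,[(0,2),(0,2),(5,0),(14,0),(1,0),(8,0),(17,2)]⟩⟩,⟨true,1,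
  ⟨6,[(0,2),(2,1),(2,1),(3,2),(9,3),(15,1)]⟩,⟨0,[(1,0)]⟩⟩,⟨true,0,⟨0,[(53,0)]⟩,⟨0,[]⟩⟩,⟨false,2,⟨1,
  [(0,0),(31,0),(4,0),(13,1)]⟩,⟨0,[(4,0)]⟩⟩,⟨false,0,⟨0,[(49,0)]⟩,⟨0,[(48,0),(2,0)]⟩⟩,⟨true,1,⟨0,
  [(0,0)]⟩,⟨3,[(4,0),(7,1),(5,0),(2,2)]⟩⟩,[]⟩) (.R ⟨0,false,false,true,[1,0,0,0,-1],[2,-1,0,0,-1],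
  [0,0,0,-1],(⟨0,[(34,0)]⟩,⟨0,[(35,0)]⟩),(⟨0,[(34,0),(9,0)]⟩,⟨0,[(14,0)]⟩),⟨0,[(14,0)]⟩,.k,(.r (-1)
  ⟨9,[(0,1),(19,1),(3,1),(11,1),(13,0),(0,4)]⟩ ⟨3,[(1,0),(5,0),(14,0),(2,2),(11,1),(2,0)]⟩),(.r
  (-1) ⟨9,[(0,1),(19,1),(3,1),(11,1),(13,0),(0,4)]⟩ ⟨3,[(1,0),(5,0),(14,0),(2,2),(11,1),(2,0)]⟩),.k,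
  .k,.k,⟨true,0,⟨5,[(1,1),(26,0),(0,0),(2,1)]⟩,⟨0,[]⟩⟩,⟨false,1,⟨1,[(32,0),(0,0),(9,0)]⟩,⟨9,[(0,1),
  (19,1),(3,1),(2,9),(8,1),(13,0),(0,4)]⟩⟩,⟨true,0,⟨0,[(48,0)]⟩,⟨0,[(49,0)]⟩⟩,⟨false,1,⟨12,[(12,0),
  (7,5),(7,2),(4,4),(9,1),(4,4)]⟩,⟨0,[(27,0),(23,0)]⟩⟩,⟨false,0,⟨0,[]⟩,⟨0,[]⟩⟩,⟨false,0,⟨0,[]⟩,⟨0,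
  []⟩⟩,[.o ⟨false,2,⟨2,[(20,0),(5,0),(1,0),(3,1),(10,1)]⟩,⟨0,[(16,0),(10,0),(23,0)]⟩⟩,.e ⟨false,1,
  ⟨9,[(0,1),(19,1),(3,1),(11,1),(13,0),(0,4)]⟩,⟨2,[(11,0),(13,0),(14,0),(5,0),(2,0)]⟩⟩ ⟨false,2,⟨0,
  [(20,0),(12,0)]⟩,⟨0,[(27,0)]⟩⟩,.a ⟨true,1,⟨0,[(32,0)]⟩,⟨0,[(4,0),(17,0)]⟩⟩ ⟨false,1,⟨0,[(48,0),(2,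
  0)]⟩,⟨0,[(49,0)]⟩⟩ ⟨true,1,⟨12,[(12,0),(7,5),(7,2),(4,4),(9,1),(4,4)]⟩,⟨0,[(27,0)]⟩⟩,.o ⟨false,1,
  ⟨0,[(7,0),(15,0)]⟩,⟨0,[(17,0)]⟩⟩]⟩)) (.R ⟨0,false,false,true,[1,0,0,0,-1],[2,-1,0,0,-1],[0,0,0,
  -1],(⟨0,[(33,0)]⟩,⟨0,[(34,0)]⟩),(⟨0,[(33,0),(9,0)]⟩,⟨0,[(13,0)]⟩),⟨0,[(13,0)]⟩,.k,(.r (-1) ⟨1,[(7,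
  0),(15,0),(26,0)]⟩ ⟨6,[(10,0),(10,0),(2,4),(2,0),(8,2),(2,4)]⟩),(.r (-1) ⟨1,[(7,0),(15,0),(26,
  0)]⟩ ⟨6,[(10,0),(10,0),(2,4),(2,0),(8,2),(2,4)]⟩),.k,.k,.k,⟨true,0,⟨3,[(27,0),(0,0),(10,1)]⟩,⟨0,
  []⟩⟩,⟨false,1,⟨1,[(31,0),(0,0),(9,0)]⟩,⟨6,[(0,0),(2,0),(16,0),(2,1),(2,5),(8,0),(14,3)]⟩⟩,⟨true,0,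
  ⟨0,[(47,0)]⟩,⟨0,[(48,0)]⟩⟩,⟨false,1,⟨12,[(11,0),(7,5),(7,2),(4,4),(9,1),(4,4)]⟩,⟨0,[(26,0),(23,
  0)]⟩⟩,⟨false,0,⟨0,[]⟩,⟨0,[]⟩⟩,⟨false,0,⟨0,[]⟩,⟨0,[]⟩⟩,[.o ⟨false,2,⟨5,[(0,0),(5,0),(12,2),(7,1),
  (3,0),(10,2),(4,2)]⟩,⟨0,[(15,0),(10,0),(23,0)]⟩⟩,.e ⟨false,1,⟨1,[(7,0),(15,0),(26,0)]⟩,⟨2,[(10,0),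
  (13,0),(14,0),(5,0),(2,0)]⟩⟩ ⟨false,2,⟨0,[(19,0),(12,0)]⟩,⟨0,[(26,0)]⟩⟩,.a ⟨true,1,⟨0,[(31,0)]⟩,
  ⟨0,[(3,0),(17,0)]⟩⟩ ⟨false,1,⟨0,[(47,0),(2,0)]⟩,⟨0,[(48,0)]⟩⟩ ⟨true,1,⟨12,[(11,0),(7,5),(7,2),(4,
  4),(9,1),(4,4)]⟩,⟨0,[(26,0)]⟩⟩,.o ⟨false,1,⟨2,[(0,0),(5,0),(20,1),(3,0)]⟩,⟨0,[(16,
  0)]⟩⟩]⟩))))))))) (.R ⟨2,true,false,false,[0,1],[0,1,1],[0,1,1,1],(⟨0,[]⟩,⟨0,[]⟩),(⟨0,[(33,0),(2,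
  0)]⟩,⟨0,[(21,0)]⟩),⟨0,[]⟩,.k,.k,.k,.k,.k,.k,⟨false,0,⟨0,[(1,0)]⟩,⟨5,[(2,3),(12,1),(7,0),(0,0),(6,
  3),(10,2)]⟩⟩,⟨true,0,⟨0,[(14,0)]⟩,⟨0,[(31,0)]⟩⟩,⟨true,0,⟨0,[(44,0)]⟩,⟨0,[]⟩⟩,⟨false,1,⟨0,[(28,0),
  (13,0)]⟩,⟨0,[(0,0)]⟩⟩,⟨false,0,⟨0,[(40,0)]⟩,⟨0,[(39,0),(2,0)]⟩⟩,⟨true,0,⟨0,[(2,0)]⟩,⟨0,[(12,0)]⟩⟩,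
  []⟩)))

theorem ok89 : chk K t89 l55 = true := by decide +kernel

noncomputable def t90 : Tre :=
  (.Q [0,0,-1,0,1,0,-2,0,0,-1,2] (.p true [0,0,1] [1,0,-1] (⟨0,[(31,0)]⟩,⟨0,[(30,0)]⟩) .k 2 (⟨0,
  [(30,0)]⟩,⟨0,[(31,0)]⟩) .k (.r (-1) ⟨2,[(11,1),(1,1),(12,1),(2,3),(2,0),(5,1)]⟩ ⟨0,[(0,1),(11,1),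
  (25,1)]⟩)) (.R ⟨2,true,false,true,[0,1],[1,0,-1],[0,1,1,1],(⟨0,[]⟩,⟨0,[]⟩),(⟨0,[(31,0)]⟩,⟨0,[(32,
  0)]⟩),⟨0,[]⟩,.k,.k,.k,.k,.k,.k,⟨true,0,⟨6,[(0,2),(11,4),(1,0),(2,3),(0,5),(8,0)]⟩,⟨0,[(1,0),(11,
  0)]⟩⟩,⟨false,1,⟨7,[(0,3),(17,1),(3,2),(0,2),(9,0)]⟩,⟨0,[(26,0)]⟩⟩,⟨true,0,⟨0,[(43,0)]⟩,⟨0,[]⟩⟩,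
  ⟨false,1,⟨1,[(11,1),(21,0),(7,0)]⟩,⟨0,[(12,0)]⟩⟩,⟨false,0,⟨0,[(39,0)]⟩,⟨0,[(38,0),(2,0)]⟩⟩,⟨true,
  0,⟨0,[(1,0),(15,0),(15,0)]⟩,⟨0,[(12,0),(25,0)]⟩⟩,[]⟩) (.I [0,2,0,-1,-1,0,0,-1] (.R ⟨0,false,false,
  true,[1,0,0,0,-1],[1,-1,-1],[1,-1],(⟨0,[(25,0)]⟩,⟨0,[(26,0)]⟩),(⟨0,[(21,0)]⟩,⟨0,[(33,0),(2,0)]⟩),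
  ⟨0,[(5,0)]⟩,.k,.k,(.r (-1) ⟨3,[(17,1),(23,0),(0,2)]⟩ ⟨5,[(13,0),(2,3),(2,0),(8,2),(2,3),(8,0)]⟩),
  (.r (-1) ⟨1,[(13,1),(9,0),(0,0),(6,1),(2,0)]⟩ ⟨3,[(0,1),(1,1),(24,1),(6,0),(6,0)]⟩),.k,.k,⟨true,1,
  ⟨1,[(13,1),(17,1),(2,0),(7,0)]⟩,⟨0,[(0,0)]⟩⟩,⟨false,0,⟨0,[(8,0),(22,0)]⟩,⟨0,[(11,0),(2,0),(3,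
  0)]⟩⟩,⟨true,0,⟨0,[]⟩,⟨0,[(44,0)]⟩⟩,⟨false,(-1),⟨0,[(2,0),(4,0)]⟩,⟨1,[(13,1),(9,1),(10,0),(7,0)]⟩⟩,
  ⟨false,0,⟨0,[]⟩,⟨0,[]⟩⟩,⟨false,0,⟨0,[]⟩,⟨0,[]⟩⟩,[.a ⟨true,0,⟨0,[(12,0)]⟩,⟨0,[(13,0)]⟩⟩ ⟨false,1,
  ⟨1,[(41,0),(0,0)]⟩,⟨0,[(44,0)]⟩⟩ ⟨true,(-1),⟨0,[(2,0),(4,0)]⟩,⟨0,[(11,0),(1,0),(4,0),(0,0)]⟩⟩,.a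
  ⟨true,0,⟨0,[(2,0)]⟩,⟨6,[(10,0),(2,5),(2,0),(6,0),(4,1),(2,0),(5,0)]⟩⟩ ⟨true,1,⟨0,[(42,0)]⟩,⟨6,
  [(17,3),(0,7),(0,5),(14,0),(2,0)]⟩⟩ ⟨false,0,⟨0,[(2,0),(5,0)]⟩,⟨2,[(11,1),(1,1),(4,2),(0,0),(3,0),
  (4,0),(5,0)]⟩⟩,.a ⟨true,1,⟨0,[(23,0)]⟩,⟨0,[(6,0),(35,0)]⟩⟩ ⟨false,1,⟨0,[(42,0)]⟩,⟨0,[(44,0)]⟩⟩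
  ⟨true,(-1),⟨0,[(2,0),(4,0)]⟩,⟨2,[(11,1),(1,1),(4,2),(0,0),(3,0),(4,0),(5,0)]⟩⟩,.o ⟨false,1,⟨0,
  [(11,0),(6,0),(0,0)]⟩,⟨0,[(8,0)]⟩⟩]⟩) (.R ⟨2,true,false,true,[0,1],[1,0,-1],[0,1,1,1],(⟨0,[]⟩,⟨0,
  []⟩),(⟨0,[(32,0)]⟩,⟨0,[(33,0)]⟩),⟨0,[]⟩,.k,.k,.k,.k,.k,.k,⟨true,0,⟨6,[(0,3),(14,1),(2,6),(0,4),(8,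
  0),(2,0),(2,0)]⟩,⟨0,[(2,0),(11,0)]⟩⟩,⟨false,1,⟨1,[(31,1),(2,0),(6,0)]⟩,⟨0,[(27,0)]⟩⟩,⟨true,0,⟨0,
  [(44,0)]⟩,⟨0,[]⟩⟩,⟨false,1,⟨1,[(12,1),(21,0),(7,0)]⟩,⟨0,[(13,0)]⟩⟩,⟨false,0,⟨0,[(40,0)]⟩,⟨0,[(39,
  0),(2,0)]⟩⟩,⟨true,0,⟨0,[(2,0),(15,0),(15,0)]⟩,⟨0,[(13,0),(25,0)]⟩⟩,[]⟩)))

theorem ok90 : chk K t90 r55 = true := by decide +kernel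

noncomputable def t93 : Tre :=
  (.R ⟨0,false,false,true,[1,0,0,0,-1],[1,-1],[0,1,0,-1],(⟨0,[(21,0)]⟩,⟨0,[(22,0)]⟩),(⟨0,[(31,0)]⟩,
  ⟨0,[(32,0)]⟩),⟨0,[(1,0)]⟩,.k,.k,(.r (-1) ⟨3,[(13,1),(23,0),(0,2)]⟩ ⟨4,[(0,0),(4,0),(3,0),(2,2),(2,
  0),(8,1),(2,2)]⟩),(.r (-1) ⟨3,[(0,3),(14,0),(0,0),(3,3),(6,1)]⟩ ⟨0,[(34,0)]⟩),.k,.k,⟨true,0,⟨3,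
  [(15,0),(0,0),(10,1)]⟩,⟨0,[]⟩⟩,⟨false,0,⟨0,[(20,0)]⟩,⟨0,[(0,0),(33,0)]⟩⟩,⟨false,0,⟨0,[(35,0)]⟩,⟨0,
  [(36,0),(1,0)]⟩⟩,⟨true,(-1),⟨3,[(3,0),(1,1),(0,0),(6,1),(1,0)]⟩,⟨0,[(0,0)]⟩⟩,⟨false,0,⟨0,[]⟩,⟨0,
  []⟩⟩,⟨false,0,⟨0,[]⟩,⟨0,[]⟩⟩,[.e ⟨false,0,⟨0,[(34,0)]⟩,⟨0,[(0,0),(19,0)]⟩⟩ ⟨false,0,⟨3,[(5,0),(7,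
  1),(6,2),(16,0)]⟩,⟨0,[(0,0)]⟩⟩,.o ⟨false,1,⟨6,[(7,2),(5,0),(1,1),(4,2),(9,0),(4,1)]⟩,⟨0,[(36,
  0)]⟩⟩,.a ⟨true,1,⟨0,[(19,0)]⟩,⟨0,[(2,0),(35,0)]⟩⟩ ⟨true,0,⟨0,[(35,0)]⟩,⟨0,[(36,0)]⟩⟩ ⟨false,0,⟨3,
  [(3,0),(2,0),(6,1),(1,0),(4,1),(17,1)]⟩,⟨0,[(0,0)]⟩⟩,.o ⟨false,1,⟨3,[(0,2),(12,1),(0,0),(0,2),(3,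
  0),(10,0)]⟩,⟨0,[(4,0)]⟩⟩]⟩)

theorem ok93 : chk K t93 r53 = true := by decide +kernel

noncomputable def t99 : Tre :=
  (.R ⟨1,false,false,false,[1,-1],[1,0,0,0,-1],[1,0,-1,-2],(⟨0,[(26,0)]⟩,⟨0,[(27,0)]⟩),(⟨0,[(16,
  0)]⟩,⟨0,[(17,0)]⟩),⟨0,[(12,0),(0,0)]⟩,.k,.k,(.r (-1) ⟨1,[(8,1),(23,0),(0,0)]⟩ ⟨2,[(4,1),(2,1),(2,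
  1),(11,1),(8,1)]⟩),(.r 0 ⟨0,[(29,0)]⟩ ⟨5,[(4,1),(2,1),(2,1),(3,2),(0,2),(6,1),(8,1),(1,2)]⟩),(.r
  (-1) ⟨6,[(3,3),(2,3),(1,0),(2,1),(13,0),(2,0),(3,1)]⟩ ⟨0,[(9,0),(0,0),(20,0),(1,0)]⟩),.k,⟨true,0,
  ⟨0,[(8,0)]⟩,⟨0,[(9,0),(0,0),(20,0),(1,0)]⟩⟩,⟨false,1,⟨1,[(0,1),(8,1),(15,0),(3,1),(2,0)]⟩,⟨3,[(10,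
  0),(0,0),(3,3),(6,1)]⟩⟩,⟨false,1,⟨0,[(30,0),(2,0)]⟩,⟨0,[(31,0)]⟩⟩,⟨false,1,⟨0,[(0,0),(30,0)]⟩,⟨0,
  [(15,0),(14,0)]⟩⟩,⟨true,0,⟨0,[]⟩,⟨0,[(35,0)]⟩⟩,⟨false,1,⟨0,[(0,0),(30,1)]⟩,⟨2,[(1,0),(6,1),(1,0),
  (4,1),(14,1),(2,0)]⟩⟩,[.a ⟨true,1,⟨1,[(0,0),(13,0)]⟩,⟨0,[(1,0)]⟩⟩ ⟨false,1,⟨1,[(8,1),(23,0),(0,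
  0)]⟩,⟨2,[(4,0),(2,0),(2,0),(11,0),(8,3)]⟩⟩ ⟨true,1,⟨3,[(0,3),(8,1),(15,0),(3,1),(2,0)]⟩,⟨0,[(1,0),
  (8,0)]⟩⟩,.a ⟨true,1,⟨0,[(0,0)]⟩,⟨0,[(1,0),(33,0)]⟩⟩ ⟨true,1,⟨0,[(8,0),(24,0)]⟩,⟨0,[(9,0),(0,0),
  (20,0)]⟩⟩ ⟨false,2,⟨0,[(0,0),(31,0)]⟩,⟨6,[(1,6),(6,0),(0,1),(0,4),(14,1),(2,1)]⟩⟩,.a ⟨true,0,⟨3,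
  [(10,0),(0,0),(10,1)]⟩,⟨4,[(0,2),(0,2),(6,0),(0,1),(22,1)]⟩⟩ ⟨false,1,⟨0,[(8,0),(24,0)]⟩,⟨2,[(4,
  0),(2,0),(2,0),(11,0),(8,3)]⟩⟩ ⟨true,1,⟨3,[(0,3),(8,1),(15,0),(3,1),(2,0)]⟩,⟨6,[(1,6),(6,0),(0,1),
  (0,4),(14,1),(2,1)]⟩⟩,.o ⟨false,0,⟨0,[(10,0)]⟩,⟨0,[(32,0)]⟩⟩]⟩)

theorem ok99 : chk K t99 r48 = true := by decide +kernel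

noncomputable def t102 : Tre :=
  (.Q [0,0,-1,0,-1,0,0,0,1,1,0,-1] (.p false [0,0,0,0,1] [1] (⟨0,[(15,0)]⟩,⟨0,[(14,0)]⟩) .k 1 (⟨0,
  []⟩,⟨0,[]⟩) .k .k) (.Q [0,0,0,0,0,-1,0,0,0,0,0,1] (.ed false [1,-1,0,0,1] .k) (.S ⟨1,0,[0,2],[0,0,
  0,0,1],[1,1,0,-1],(⟨0,[(17,0)]⟩,⟨0,[(16,0)]⟩),⟨0,[(0,0)]⟩,.k,(.r 0 ⟨0,[(29,0)]⟩ ⟨5,[(4,1),(2,1),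
  (2,1),(3,2),(0,2),(6,1),(8,1),(1,2)]⟩),⟨false,1,⟨0,[(30,0),(2,0)]⟩,⟨0,[(31,0)]⟩⟩,⟨true,0,⟨0,[(35,
  0)]⟩,⟨0,[]⟩⟩,⟨true,0,⟨0,[]⟩,⟨0,[(35,0)]⟩⟩,⟨false,0,⟨0,[(31,0)]⟩,⟨0,[(30,0),(2,0)]⟩⟩,[.e ⟨false,0,
  ⟨0,[(29,0)]⟩,⟨1,[(14,0),(0,0),(15,1),(1,0)]⟩⟩ ⟨false,0,⟨0,[(28,0)]⟩,⟨0,[(33,0)]⟩⟩,.o ⟨false,(-1),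
  ⟨16,[(1,3),(0,9),(5,4),(6,2),(9,6),(2,0)]⟩,⟨1,[(14,1),(10,0),(7,0)]⟩⟩,.a ⟨true,(-1),⟨8,[(1,3),(0,
  3),(5,1),(2,0),(3,0),(6,1),(10,2)]⟩,⟨0,[(14,0)]⟩⟩ ⟨true,0,⟨0,[(30,0)]⟩,⟨0,[(31,0)]⟩⟩ ⟨false,0,⟨0,
  [(35,0)]⟩,⟨0,[(33,0)]⟩⟩,.o ⟨false,(-1),⟨0,[(1,0),(8,0)]⟩,⟨1,[(14,1),(10,0),(6,0)]⟩⟩]⟩) (.S ⟨1,0,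
  [],[1,0,0,0,-1],[0,-1],(⟨0,[(16,0)]⟩,⟨0,[(17,0)]⟩),⟨0,[(0,0),(11,0),(0,0)]⟩,.k,(.r (-1) ⟨3,[(8,1),
  (23,0),(0,2)]⟩ ⟨5,[(4,0),(2,3),(2,0),(8,2),(2,3),(8,0)]⟩),⟨false,1,⟨1,[(14,0),(0,0),(17,0)]⟩,⟨0,
  []⟩⟩,⟨true,0,⟨0,[(35,0)]⟩,⟨0,[]⟩⟩,⟨true,0,⟨0,[(31,0)]⟩,⟨0,[(30,0)]⟩⟩,⟨false,0,⟨0,[(31,0)]⟩,⟨0,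
  [(30,0),(2,0)]⟩⟩,[.e ⟨false,1,⟨1,[(32,0),(0,0)]⟩,⟨0,[(35,0)]⟩⟩ ⟨false,1,⟨1,[(14,0),(0,0),(16,0)]⟩,
  ⟨0,[]⟩⟩,.o ⟨false,2,⟨1,[(14,1),(10,0),(7,0)]⟩,⟨16,[(1,3),(0,9),(5,4),(6,2),(9,6),(2,0)]⟩⟩,.e
  ⟨false,1,⟨0,[(33,0)]⟩,⟨0,[(35,0)]⟩⟩ ⟨false,1,⟨1,[(14,0),(0,0),(17,0)]⟩,⟨0,[]⟩⟩,.a ⟨true,1,⟨3,[(10,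
  0),(0,0),(2,3),(7,1)]⟩,⟨0,[(1,0)]⟩⟩ ⟨true,1,⟨1,[(32,0),(0,0)]⟩,⟨6,[(8,3),(0,7),(0,5),(14,0),(2,
  0)]⟩⟩ ⟨false,1,⟨1,[(32,0),(0,0)]⟩,⟨3,[(10,0),(0,0),(10,1)]⟩⟩]⟩)) (.Q [0,0,0,0,0,-1,0,0,0,1,0,-1]
  (.ed true [0,1,0,0,1] .k) (.S ⟨1,0,[0,-1],[1,0,0,0,-1],[],(⟨0,[(16,0)]⟩,⟨0,[(17,0)]⟩),⟨0,[(0,0)]⟩,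
  .k,(.r (-1) ⟨3,[(8,1),(23,0),(0,2)]⟩ ⟨5,[(4,0),(2,3),(2,0),(8,2),(2,3),(8,0)]⟩),⟨true,0,⟨0,[(35,
  0)]⟩,⟨0,[]⟩⟩,⟨false,1,⟨1,[(14,0),(0,0),(17,0)]⟩,⟨0,[]⟩⟩,⟨false,0,⟨0,[(31,0)]⟩,⟨0,[(30,0),(2,0)]⟩⟩,
  ⟨true,0,⟨0,[(31,0)]⟩,⟨0,[(30,0)]⟩⟩,[.o ⟨false,2,⟨1,[(14,1),(10,0),(7,0)]⟩,⟨3,[(2,3),(5,1),(16,1),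
  (6,0),(0,0)]⟩⟩,.a ⟨true,2,⟨0,[(14,0),(18,0)]⟩,⟨0,[(2,0),(26,0)]⟩⟩ ⟨false,1,⟨1,[(32,0),(0,0)]⟩,⟨0,
  [(35,0)]⟩⟩ ⟨true,1,⟨0,[(33,0)]⟩,⟨6,[(8,3),(0,7),(0,5),(14,0),(2,0)]⟩⟩,.e ⟨false,1,⟨1,[(14,0),(0,
  0),(17,0)]⟩,⟨0,[]⟩⟩ ⟨false,1,⟨0,[(33,0)]⟩,⟨0,[(35,0)]⟩⟩,.o ⟨false,1,⟨0,[(1,0)]⟩,⟨3,[(2,3),(5,1),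
  (16,1),(6,2),(0,2)]⟩⟩]⟩) (.Q [0,0,1,0,-1,0,0,0,1,0,0,-1] (.p false [0,0,0,0,1] [] (⟨0,[(17,0)]⟩,
  ⟨0,[(16,0)]⟩) .k 0 (⟨0,[]⟩,⟨0,[]⟩) .k .k) (.S ⟨1,0,[0,2],[0,0,0,0,1],[1,1,0,-1],(⟨0,[(18,0)]⟩,⟨0,
  [(17,0)]⟩),⟨0,[(1,0),(11,0),(0,0)]⟩,.k,(.r 0 ⟨0,[(30,0)]⟩ ⟨1,[(2,0),(2,0),(2,0),(7,0),(6,0),(10,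
  0)]⟩),⟨false,1,⟨0,[(31,0),(2,0)]⟩,⟨0,[(32,0)]⟩⟩,⟨true,0,⟨0,[(36,0)]⟩,⟨0,[]⟩⟩,⟨true,0,⟨0,[]⟩,⟨0,
  [(36,0)]⟩⟩,⟨false,0,⟨0,[(32,0)]⟩,⟨0,[(31,0),(2,0)]⟩⟩,[.e ⟨false,0,⟨0,[(30,0)]⟩,⟨1,[(15,0),(0,0),
  (15,1),(1,0)]⟩⟩ ⟨false,0,⟨0,[(29,0)]⟩,⟨0,[(34,0)]⟩⟩,.o ⟨false,(-1),⟨2,[(0,0),(2,1),(5,0),(16,0),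
  (6,0)]⟩,⟨1,[(15,1),(10,0),(7,0)]⟩⟩,.a ⟨true,(-1),⟨3,[(3,3),(5,1),(23,0),(0,2)]⟩,⟨0,[(15,0)]⟩⟩
  ⟨true,0,⟨0,[(31,0)]⟩,⟨0,[(32,0)]⟩⟩ ⟨false,0,⟨0,[(36,0)]⟩,⟨0,[(34,0)]⟩⟩,.o ⟨false,(-1),⟨0,[(0,0)]⟩,
  ⟨1,[(15,1),(10,0),(6,0)]⟩⟩]⟩) (.Q [0,-1,0,2,1,0,0,0,-1,0,0,1] (.p true [0,0,0,0,1] [] (⟨0,[(18,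
  0)]⟩,⟨0,[(17,0)]⟩) .k 0 (⟨0,[]⟩,⟨0,[]⟩) .k .k) (.R ⟨1,true,false,false,[0,0,0,0,1],[0,1],[0,2],
  (⟨0,[(19,0)]⟩,⟨0,[(18,0)]⟩),(⟨0,[(29,0)]⟩,⟨0,[(28,0)]⟩),⟨0,[(2,0),(11,0),(0,0)]⟩,.k,.k,(.r 0 ⟨0,
  [(31,0)]⟩ ⟨3,[(0,1),(11,0),(0,0),(2,0),(0,2),(6,1),(10,0)]⟩),(.r 0 ⟨0,[(31,0)]⟩ ⟨3,[(0,1),(11,0),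
  (0,0),(2,0),(0,2),(6,1),(10,0)]⟩),(.r (-1) ⟨6,[(5,3),(2,3),(1,0),(2,1),(13,0),(2,0),(3,1)]⟩ ⟨13,
  [(0,9),(3,7),(7,8),(0,0),(3,1),(6,1),(10,5)]⟩),.k,⟨false,0,⟨3,[(11,1),(15,0),(3,5),(2,0)]⟩,⟨6,[(0,
  2),(3,0),(7,1),(0,0),(3,1),(6,1),(10,5)]⟩⟩,⟨true,1,⟨0,[(1,0)]⟩,⟨4,[(4,3),(5,1),(1,3),(4,0),(17,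
  2)]⟩⟩,⟨true,0,⟨0,[(37,0)]⟩,⟨0,[]⟩⟩,⟨false,2,⟨3,[(0,1),(15,2),(0,0),(17,2)]⟩,⟨1,[(4,1),(5,1),(16,
  0),(7,0)]⟩⟩,⟨false,0,⟨0,[(33,0)]⟩,⟨0,[(32,0),(2,0)]⟩⟩,⟨true,1,⟨0,[(0,0)]⟩,⟨18,[(4,9),(5,23),(1,7),
  (4,8),(9,0),(2,1)]⟩⟩,[]⟩) (.I [1,1,-1,-1,0,0,0,-1] (.I [0,0,0,1,0,0,0,1] (.S ⟨1,0,[0,0,1,1,0,0,0,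
  1],[0,1,1],[0,1,1,1,0,0,0,1],(⟨0,[(28,0),(2,0)]⟩,⟨0,[(16,0)]⟩),⟨0,[(28,0)]⟩,.k,.k,⟨true,0,⟨0,[(39,
  0)]⟩,⟨0,[]⟩⟩,⟨false,1,⟨1,[(18,0),(0,0),(17,0)]⟩,⟨0,[]⟩⟩,⟨false,0,⟨0,[(35,0)]⟩,⟨0,[(34,0),(2,0)]⟩⟩,
  ⟨true,0,⟨0,[(35,0)]⟩,⟨0,[(34,0)]⟩⟩,[.o ⟨false,0,⟨0,[(0,0),(8,0)]⟩,⟨1,[(7,1),(21,0),(7,0)]⟩⟩,.e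
  ⟨false,0,⟨0,[(0,0)]⟩,⟨5,[(1,1),(5,3),(7,1),(13,0),(6,1),(0,2)]⟩⟩ ⟨false,1,⟨1,[(0,1),(17,0),(0,0),
  (17,0)]⟩,⟨0,[(1,0)]⟩⟩,.a ⟨true,0,⟨0,[(22,0)]⟩,⟨0,[(26,0)]⟩⟩ ⟨false,0,⟨10,[(0,6),(7,2),(2,0),(2,2),
  (8,1),(2,4)]⟩,⟨0,[(1,0),(35,0)]⟩⟩ ⟨true,0,⟨10,[(0,6),(7,2),(2,0),(2,2),(8,1),(2,4)]⟩,⟨0,[(1,0)]⟩⟩,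
  .o ⟨false,0,⟨0,[(9,0)]⟩,⟨1,[(26,1),(2,0),(6,0)]⟩⟩]⟩) (.Q [0,1,0,-1,-1,0,-1,-1,1,0,1,-1] (.p true
  [0,0,1] [0,0,0,0,1] (⟨0,[(28,0)]⟩,⟨0,[(27,0)]⟩) .k 2 (⟨0,[(21,0)]⟩,⟨0,[(20,0)]⟩) .k (.r (-1) ⟨5,
  [(8,3),(1,1),(7,0),(0,0),(6,3),(2,1),(7,0)]⟩ ⟨7,[(1,1),(5,1),(3,3),(2,0),(0,0)]⟩)) (.I [0,0,1,0,0,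
  0,0,1] (.Q [0,-1,0,0,1,0,-1,-1,0,-1,1] (.p true [0,0,1] [1] (⟨0,[(30,0)]⟩,⟨0,[(29,0)]⟩) .k 1 (⟨0,
  []⟩,⟨0,[]⟩) .k .k) (.R ⟨0,false,false,false,[1,0,0,0,-1],[1,0,-1],[1,0,1],(⟨0,[(23,0)]⟩,⟨0,[(24,
  0)]⟩),(⟨0,[(30,0)]⟩,⟨0,[(31,0)]⟩),⟨0,[(7,0)]⟩,.k,.k,(.r (-1) ⟨5,[(3,1),(9,1),(25,0),(0,2)]⟩ ⟨0,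
  [(1,0),(12,0)]⟩),.k,.k,.k,⟨true,0,⟨0,[(1,0)]⟩,⟨1,[(0,0),(2,0),(8,0),(3,0)]⟩⟩,⟨false,0,⟨0,[(0,0),
  (8,0),(3,0),(24,0)]⟩,⟨1,[(6,0),(1,0),(9,0)]⟩⟩,⟨false,0,⟨3,[(17,0),(0,0),(10,1)]⟩,⟨1,[(39,0),(0,
  0)]⟩⟩,⟨true,(-1),⟨0,[(2,0),(35,0)]⟩,⟨2,[(6,0),(1,1),(2,1),(3,0),(10,0)]⟩⟩,⟨false,0,⟨0,[]⟩,⟨0,[]⟩⟩,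
  ⟨false,0,⟨0,[]⟩,⟨0,[]⟩⟩,[.e ⟨false,0,⟨0,[]⟩,⟨1,[(21,0),(0,0),(16,0)]⟩⟩ ⟨false,0,⟨3,[(0,1),(1,1),
  (6,1),(29,2),(0,0)]⟩,⟨2,[(6,0),(1,1),(2,1),(3,0),(10,0)]⟩⟩,.o ⟨false,1,⟨0,[(0,0)]⟩,⟨0,[(26,0)]⟩⟩,
  .a ⟨true,1,⟨0,[(21,0)]⟩,⟨0,[(2,0),(8,0)]⟩⟩ ⟨true,0,⟨3,[(17,0),(0,0),(10,1)]⟩,⟨3,[(16,1),(15,0),(3,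
  1),(2,0)]⟩⟩ ⟨false,0,⟨3,[(0,1),(1,1),(6,1),(29,0),(0,2)]⟩,⟨2,[(6,0),(1,1),(2,1),(3,0),(10,0)]⟩⟩,
  .o ⟨false,1,⟨0,[(8,0)]⟩,⟨5,[(5,1),(3,3),(22,1),(6,4),(0,2)]⟩⟩]⟩) (.Q [0,0,-1,0,-1,0,1,0,1,1,-1,
  -1] (.p false [0,0,1] [1,0,0,0,-1] (⟨0,[(31,0)]⟩,⟨0,[(30,0)]⟩) .k 2 (⟨0,[(23,0)]⟩,⟨0,[(24,0)]⟩)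
  .k (.r 0 ⟨3,[(1,2),(11,0),(2,1),(15,0),(2,0)]⟩ ⟨11,[(3,1),(6,3),(3,5),(3,1),(13,0),(7,10)]⟩)) (.R
  ⟨0,false,false,false,[1,0,0,0,-1],[0,0,1],[1,0,0,-1],(⟨0,[(24,0)]⟩,⟨0,[(25,0)]⟩),(⟨0,[(32,0)]⟩,⟨0,
  [(31,0)]⟩),⟨0,[(8,0)]⟩,.k,.k,(.r (-1) ⟨5,[(4,1),(9,1),(25,0),(0,2)]⟩ ⟨0,[(2,0),(12,0)]⟩),.k,.k,.k,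
  ⟨true,0,⟨0,[(4,0)]⟩,⟨0,[(2,0),(36,0)]⟩⟩,⟨false,(-1),⟨0,[(0,0)]⟩,⟨1,[(22,1),(7,1),(2,0),(6,0)]⟩⟩,
  ⟨true,0,⟨0,[(38,0)]⟩,⟨0,[(39,0)]⟩⟩,⟨false,(-1),⟨0,[(0,0),(1,0)]⟩,⟨0,[(3,0),(3,0),(1,0),(29,0),(1,
  0)]⟩⟩,⟨false,0,⟨0,[]⟩,⟨0,[]⟩⟩,⟨false,0,⟨0,[]⟩,⟨0,[]⟩⟩,[.o ⟨false,0,⟨1,[(1,1),(31,0),(7,0)]⟩,⟨1,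
  [(28,1),(4,0),(7,0)]⟩⟩,.e ⟨false,1,⟨5,[(4,1),(9,1),(25,0),(0,2)]⟩,⟨2,[(2,0),(12,0),(20,0),(2,
  1)]⟩⟩ ⟨false,0,⟨9,[(0,3),(9,1),(1,5),(1,3),(8,3),(9,0),(7,2)]⟩,⟨0,[(3,0),(3,0),(1,0),(29,0)]⟩⟩,.a
  ⟨true,1,⟨0,[(22,0)]⟩,⟨0,[(3,0),(8,0)]⟩⟩ ⟨false,1,⟨0,[(38,0),(2,0)]⟩,⟨0,[(39,0)]⟩⟩ ⟨true,(-1),⟨0,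
  [(0,0),(1,0)]⟩,⟨0,[(3,0),(3,0),(1,0),(29,0)]⟩⟩,.o ⟨false,1,⟨0,[(9,0)]⟩,⟨5,[(0,0),(2,0),(6,2),(3,
  0),(8,0),(9,1),(6,2),(0,1)]⟩⟩]⟩) (.I [1,1,1,0,-1,0,0,-1] (.R ⟨0,false,false,true,[1,0,0,0,-1],[2,
  -1,0,0,-1],[0,0,0,-1],(⟨0,[(25,0)]⟩,⟨0,[(26,0)]⟩),(⟨0,[(25,0),(9,0)]⟩,⟨0,[(9,0)]⟩),⟨0,[(9,0)]⟩,.k,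
  (.r (-1) ⟨5,[(5,1),(9,1),(25,0),(0,2)]⟩ ⟨0,[(3,0),(12,0)]⟩),(.r (-1) ⟨5,[(5,1),(9,1),(25,0),(0,
  2)]⟩ ⟨0,[(3,0),(12,0)]⟩),.k,.k,.k,⟨true,0,⟨3,[(19,0),(0,0),(10,1)]⟩,⟨0,[]⟩⟩,⟨false,1,⟨1,[(23,0),
  (0,0),(9,0)]⟩,⟨3,[(4,0),(3,0),(6,0),(2,2),(8,0),(14,1)]⟩⟩,⟨true,0,⟨0,[(39,0)]⟩,⟨0,[(40,0)]⟩⟩,
  ⟨false,1,⟨17,[(10,1),(1,5),(2,5),(3,4),(0,2),(3,1),(9,6),(7,2)]⟩,⟨0,[(18,0),(23,0)]⟩⟩,⟨false,0,⟨0,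
  []⟩,⟨0,[]⟩⟩,⟨false,0,⟨0,[]⟩,⟨0,[]⟩⟩,[.o ⟨false,2,⟨2,[(5,0),(4,1),(4,0),(7,0),(10,1)]⟩,⟨1,[(11,1),
  (29,0),(0,0)]⟩⟩,.e ⟨false,1,⟨5,[(5,1),(9,1),(25,0),(0,2)]⟩,⟨2,[(3,0),(12,0),(20,0),(2,1)]⟩⟩
  ⟨false,2,⟨11,[(12,3),(2,3),(4,1),(2,2),(0,2),(9,6),(6,1),(0,7)]⟩,⟨0,[(18,0)]⟩⟩,.a ⟨true,1,⟨0,[(23,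
  0)]⟩,⟨0,[(4,0),(8,0)]⟩⟩ ⟨false,1,⟨0,[(39,0),(2,0)]⟩,⟨0,[(40,0)]⟩⟩ ⟨true,1,⟨17,[(10,1),(1,5),(2,5),
  (3,4),(0,2),(3,1),(9,6),(7,2)]⟩,⟨0,[(18,0)]⟩⟩,.o ⟨false,1,⟨0,[(10,0)]⟩,⟨5,[(7,1),(3,3),(22,1),(6,
  4),(0,2)]⟩⟩]⟩) (.R ⟨0,false,false,false,[1,0,0,0,-1],[0,0,1],[1,1,1],(⟨0,[(25,0)]⟩,⟨0,[(26,0)]⟩),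
  (⟨0,[(33,0)]⟩,⟨0,[(32,0)]⟩),⟨0,[(9,0)]⟩,.k,.k,(.r (-1) ⟨5,[(5,1),(9,1),(25,0),(0,2)]⟩ ⟨0,[(3,0),
  (12,0)]⟩),.k,.k,.k,⟨false,0,⟨7,[(6,1),(5,1),(3,3),(2,0),(0,0)]⟩,⟨0,[(0,0)]⟩⟩,⟨true,(-1),⟨5,[(7,1),
  (3,3),(2,1),(12,3),(6,0),(7,2)]⟩,⟨0,[(1,0)]⟩⟩,⟨true,(-1),⟨6,[(2,3),(1,3),(5,3),(7,3),(0,1),(14,0),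
  (2,0)]⟩,⟨1,[(41,0),(0,0)]⟩⟩,⟨false,(-1),⟨5,[(7,3),(3,1),(1,5),(20,0),(6,0)]⟩,⟨3,[(1,1),(3,1),(2,
  1),(20,1),(4,0),(5,1),(1,2)]⟩⟩,⟨false,0,⟨0,[]⟩,⟨0,[]⟩⟩,⟨false,0,⟨0,[]⟩,⟨0,[]⟩⟩,[.o ⟨false,0,⟨1,
  [(2,1),(31,0),(7,0)]⟩,⟨1,[(29,1),(4,0),(7,0)]⟩⟩,.e ⟨false,0,⟨0,[]⟩,⟨1,[(23,0),(0,0),(16,0)]⟩⟩
  ⟨false,0,⟨5,[(7,3),(3,1),(1,5),(20,0),(6,3),(0,2)]⟩,⟨1,[(1,0),(3,0),(2,0),(9,0),(10,0),(4,0)]⟩⟩,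
  .a ⟨true,1,⟨0,[(23,0)]⟩,⟨0,[(4,0),(8,0)]⟩⟩ ⟨false,0,⟨3,[(19,0),(0,0),(10,1)]⟩,⟨1,[(41,0),(0,0)]⟩⟩
  ⟨true,(-1),⟨5,[(7,3),(3,1),(1,5),(20,0),(6,0)]⟩,⟨1,[(1,0),(3,0),(2,0),(9,0),(10,0),(4,0)]⟩⟩,.o
  ⟨false,1,⟨0,[(10,0)]⟩,⟨5,[(7,1),(3,3),(22,1),(6,4),(0,2)]⟩⟩]⟩)))) (.R ⟨0,false,false,false,[1,0,0,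
  0,-1],[1,0,-1],[1,0,0,0,0,0,0,-1],(⟨0,[(22,0)]⟩,⟨0,[(23,0)]⟩),(⟨0,[(29,0)]⟩,⟨0,[(30,0)]⟩),⟨0,[(6,
  0)]⟩,.k,.k,(.r (-1) ⟨5,[(2,1),(9,1),(25,0),(0,2)]⟩ ⟨5,[(10,0),(2,3),(2,0),(8,2),(2,3),(8,0)]⟩),.k,
  .k,.k,⟨true,0,⟨0,[]⟩,⟨3,[(16,0),(0,0),(10,1)]⟩⟩,⟨false,0,⟨1,[(0,1),(7,1),(3,1),(15,1),(2,0),(5,1),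
  (1,0)]⟩,⟨1,[(5,0),(1,0),(9,0)]⟩⟩,⟨false,0,⟨4,[(0,1),(1,1),(10,0),(1,0),(0,0),(22,0)]⟩,⟨5,[(10,3),
  (1,1),(7,0),(0,0),(6,3),(2,1),(7,0)]⟩⟩,⟨true,(-1),⟨0,[(1,0),(35,0)]⟩,⟨2,[(5,0),(1,1),(2,1),(3,0),
  (10,0)]⟩⟩,⟨false,0,⟨0,[]⟩,⟨0,[]⟩⟩,⟨false,0,⟨0,[]⟩,⟨0,[]⟩⟩,[.e ⟨false,0,⟨0,[(0,0)]⟩,⟨4,[(10,1),(1,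
  0),(7,1),(0,1),(3,1),(2,3),(2,0),(6,0)]⟩⟩ ⟨false,0,⟨1,[(1,1),(35,1),(0,0),(0,0)]⟩,⟨2,[(5,0),(1,1),
  (2,1),(3,0),(10,0)]⟩⟩,.o ⟨false,1,⟨1,[(0,1),(27,1),(2,0),(7,0)]⟩,⟨0,[(25,0)]⟩⟩,.a ⟨true,1,⟨0,[(20,
  0)]⟩,⟨0,[(1,0),(8,0)]⟩⟩ ⟨true,0,⟨4,[(0,1),(1,1),(10,0),(1,0),(0,0),(22,0)]⟩,⟨4,[(10,0),(1,2),(2,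
  4),(0,1),(8,0),(2,1),(2,1)]⟩⟩ ⟨false,0,⟨0,[(1,0),(35,0),(1,0)]⟩,⟨2,[(5,0),(1,1),(2,1),(3,0),(10,
  0)]⟩⟩,.o ⟨false,1,⟨0,[(7,0)]⟩,⟨2,[(0,0),(7,1),(3,0),(8,0),(9,0),(6,0),(0,0)]⟩⟩]⟩)) (.R ⟨0,false,
  false,true,[1,0,0,0,-1],[1,-1,-1],[0,1],(⟨0,[(21,0)]⟩,⟨0,[(22,0)]⟩),(⟨0,[(17,0)]⟩,⟨0,[(29,0),(2,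
  0)]⟩),⟨0,[(5,0)]⟩,.k,.k,(.r (-1) ⟨5,[(1,1),(9,1),(25,0),(0,2)]⟩ ⟨8,[(0,1),(6,0),(4,5),(2,0),(4,0),
  (3,3),(2,5)]⟩),(.r (-1) ⟨0,[(0,0),(19,0),(6,0)]⟩ ⟨0,[(1,0),(1,0),(0,0),(31,1)]⟩),.k,.k,⟨true,0,⟨5,
  [(0,2),(6,2),(1,0),(1,0),(12,0),(2,4),(2,1),(5,0)]⟩,⟨0,[(1,0)]⟩⟩,⟨false,0,⟨5,[(3,1),(3,3),(19,5),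
  (2,1),(6,4),(0,2)]⟩,⟨0,[(4,0),(5,0)]⟩⟩,⟨false,0,⟨0,[(40,0)]⟩,⟨0,[(38,0)]⟩⟩,⟨true,(-1),⟨5,[(3,3),
  (3,1),(17,5),(4,0),(6,0)]⟩,⟨0,[(0,0)]⟩⟩,⟨false,0,⟨0,[]⟩,⟨0,[]⟩⟩,⟨false,0,⟨0,[]⟩,⟨0,[]⟩⟩,[.e
  ⟨false,0,⟨3,[(14,1),(15,0),(3,1),(2,0)]⟩,⟨1,[(19,0),(0,0),(17,0)]⟩⟩ ⟨false,0,⟨5,[(3,3),(3,1),(17,
  5),(4,0),(6,3),(0,2)]⟩,⟨0,[(0,0)]⟩⟩,.o ⟨false,1,⟨1,[(8,1),(21,0),(7,0)]⟩,⟨3,[(0,2),(6,2),(3,0),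
  (11,0),(6,1)]⟩⟩,.a ⟨true,1,⟨0,[(19,0)]⟩,⟨5,[(1,1),(5,5),(3,1),(25,0),(0,2)]⟩⟩ ⟨true,0,⟨0,[(40,
  0)]⟩,⟨0,[]⟩⟩ ⟨false,0,⟨5,[(3,3),(3,1),(17,5),(4,0),(6,0),(0,5)]⟩,⟨0,[(0,0)]⟩⟩,.o ⟨false,1,⟨0,[(6,
  0)]⟩,⟨5,[(3,1),(3,3),(22,1),(6,4),(0,2)]⟩⟩]⟩))) (.I [1,1,1,0,-1,0,0,1] (.Q [0,0,-1,0,0,0,-1,0,1,0,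
  1,-1] (.p true [0,0,1] [0,0,0,0,1] (⟨0,[(28,0)]⟩,⟨0,[(27,0)]⟩) .k 2 (⟨0,[(21,0)]⟩,⟨0,[(20,0)]⟩)
  .k (.r (-1) ⟨5,[(1,3),(8,1),(7,2),(0,2),(17,0)]⟩ ⟨1,[(7,0),(1,0),(1,0)]⟩)) (.R ⟨0,false,false,
  false,[1,0,0,0,-1],[1,0,-1],[1,1,1],(⟨0,[(21,0)]⟩,⟨0,[(22,0)]⟩),(⟨0,[(28,0)]⟩,⟨0,[(29,0)]⟩),⟨0,
  [(5,0)]⟩,.k,.k,(.r (-1) ⟨3,[(13,1),(23,0),(0,2)]⟩ ⟨7,[(2,0),(6,0),(2,5),(2,0),(8,3),(2,4)]⟩),.k,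
  .k,.k,⟨true,(-1),⟨0,[(1,0)]⟩,⟨1,[(8,0),(1,0),(1,0),(25,1)]⟩⟩,⟨false,0,⟨0,[(0,0)]⟩,⟨1,[(4,0),(1,0),
  (9,0)]⟩⟩,⟨true,(-1),⟨1,[(1,1),(6,0),(1,0),(1,0)]⟩,⟨1,[(37,0),(0,0)]⟩⟩,⟨false,0,⟨5,[(0,1),(2,1),(3,
  1),(4,1),(12,3),(4,0),(7,4)]⟩,⟨0,[(1,0),(2,0),(5,0),(27,0)]⟩⟩,⟨false,0,⟨0,[]⟩,⟨0,[]⟩⟩,⟨false,0,⟨0,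
  []⟩,⟨0,[]⟩⟩,[.o ⟨false,1,⟨1,[(25,1),(4,0),(7,0)]⟩,⟨4,[(1,1),(7,1),(0,2),(0,0),(18,0)]⟩⟩,.e ⟨false,
  0,⟨0,[]⟩,⟨1,[(19,0),(0,0),(16,0)]⟩⟩ ⟨false,1,⟨7,[(0,5),(2,1),(4,1),(3,5),(24,0),(0,8)]⟩,⟨0,[(1,0),
  (2,0),(5,0)]⟩⟩,.a ⟨true,1,⟨0,[(19,0)]⟩,⟨4,[(0,0),(2,1),(3,1),(6,1),(8,0),(14,2)]⟩⟩ ⟨false,0,⟨3,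
  [(15,0),(0,0),(10,1)]⟩,⟨1,[(37,0),(0,0)]⟩⟩ ⟨true,0,⟨5,[(0,1),(2,1),(3,1),(4,1),(12,3),(4,0),(7,
  4)]⟩,⟨0,[(1,0),(2,0),(5,0)]⟩⟩,.o ⟨false,1,⟨0,[(6,0)]⟩,⟨0,[(0,0),(9,0)]⟩⟩]⟩) (.Q [0,-1,0,1,2,0,-1,
  -1,-1,-1,1,1] (.p true [0,0,1] [1,0,0,0,-1] (⟨0,[(29,0)]⟩,⟨0,[(28,0)]⟩) .k 2 (⟨0,[(21,0)]⟩,⟨0,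
  [(22,0)]⟩) .k (.r 0 ⟨10,[(1,1),(0,3),(8,1),(12,2),(2,2),(5,4)]⟩ ⟨1,[(8,0),(1,0),(1,0),(25,1)]⟩))
  (.R ⟨0,false,false,true,[1,0,0,0,-1],[0,-1,1],[1,0,1],(⟨0,[(22,0)]⟩,⟨0,[(23,0)]⟩),(⟨0,[(19,0)]⟩,
  ⟨0,[(29,0),(3,0)]⟩),⟨0,[(6,0)]⟩,.k,.k,(.r (-1) ⟨3,[(14,1),(23,0),(0,2)]⟩ ⟨7,[(3,0),(6,0),(2,5),(2,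
  0),(8,3),(2,4)]⟩),(.r (-1) ⟨9,[(0,5),(7,3),(7,2),(0,4),(3,1),(4,3),(12,5)]⟩ ⟨2,[(2,1),(9,0),(22,
  0),(2,0)]⟩),.k,.k,⟨true,0,⟨6,[(0,1),(0,5),(6,7),(0,3),(3,0),(17,2),(7,8)]⟩,⟨2,[(2,1),(9,0),(22,0),
  (2,0)]⟩⟩,⟨false,(-1),⟨5,[(4,1),(3,3),(2,1),(12,3),(6,0),(7,2)]⟩,⟨9,[(0,7),(1,5),(2,1),(6,3),(13,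
  1),(4,0),(6,2)]⟩⟩,⟨false,0,⟨3,[(16,0),(0,0),(10,1)]⟩,⟨1,[(38,0),(0,0)]⟩⟩,⟨true,(-2),⟨8,[(2,7),(1,
  4),(3,3),(3,0),(11,8),(6,1),(3,0)]⟩,⟨0,[(0,0)]⟩⟩,⟨false,0,⟨0,[]⟩,⟨0,[]⟩⟩,⟨false,0,⟨0,[]⟩,⟨0,[]⟩⟩,
  [.e ⟨false,0,⟨0,[]⟩,⟨1,[(20,0),(0,0),(16,0)]⟩⟩ ⟨false,(-1),⟨0,[(8,0),(2,0),(0,0)]⟩,⟨0,[(0,0)]⟩⟩,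
  .o ⟨false,0,⟨18,[(1,8),(0,1),(0,0),(0,8),(5,9),(1,5),(18,4)]⟩,⟨3,[(0,1),(7,1),(17,1),(4,1),(6,0),
  (0,0)]⟩⟩,.a ⟨true,1,⟨0,[(20,0)]⟩,⟨3,[(4,1),(3,1),(6,1),(22,0),(0,2)]⟩⟩ ⟨true,0,⟨3,[(16,0),(0,0),
  (10,1)]⟩,⟨3,[(15,1),(15,0),(3,1),(2,0)]⟩⟩ ⟨false,(-1),⟨0,[(4,0),(5,0)]⟩,⟨0,[(0,0)]⟩⟩,.o ⟨false,1,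
  ⟨0,[(7,0)]⟩,⟨5,[(4,1),(3,3),(22,1),(6,4),(0,2)]⟩⟩]⟩) (.R ⟨0,false,false,true,[1,0,0,0,-1],[2,-1,0,
  0,-1],[0,0,0,-1],(⟨0,[(22,0)]⟩,⟨0,[(23,0)]⟩),(⟨0,[(22,0),(9,0)]⟩,⟨0,[(6,0)]⟩),⟨0,[(6,0)]⟩,.k,(.r
  (-1) ⟨3,[(14,1),(23,0),(0,2)]⟩ ⟨7,[(3,0),(6,0),(2,5),(2,0),(8,3),(2,4)]⟩),(.r (-1) ⟨3,[(14,1),(23,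
  0),(0,2)]⟩ ⟨7,[(3,0),(6,0),(2,5),(2,0),(8,3),(2,4)]⟩),.k,.k,.k,⟨true,0,⟨3,[(16,0),(0,0),(10,1)]⟩,
  ⟨0,[]⟩⟩,⟨false,1,⟨1,[(20,0),(0,0),(9,0)]⟩,⟨3,[(14,1),(0,3),(22,0),(0,2)]⟩⟩,⟨true,0,⟨0,[(36,0)]⟩,
  ⟨0,[(37,0)]⟩⟩,⟨false,1,⟨17,[(7,1),(1,5),(2,5),(3,4),(0,2),(3,1),(9,6),(7,2)]⟩,⟨0,[(15,0),(23,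
  0)]⟩⟩,⟨false,0,⟨0,[]⟩,⟨0,[]⟩⟩,⟨false,0,⟨0,[]⟩,⟨0,[]⟩⟩,[.o ⟨false,2,⟨3,[(7,1),(6,1),(5,1),(10,2),
  (7,0)]⟩,⟨1,[(8,1),(29,0),(0,0)]⟩⟩,.e ⟨false,1,⟨3,[(14,1),(23,0),(0,2)]⟩,⟨1,[(3,0),(9,0),(20,0)]⟩⟩
  ⟨false,2,⟨11,[(9,3),(2,3),(4,1),(2,2),(0,2),(9,6),(6,1),(0,7)]⟩,⟨0,[(15,0)]⟩⟩,.a ⟨true,1,⟨0,[(20,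
  0)]⟩,⟨2,[(0,0),(7,1),(0,0),(28,0),(0,1)]⟩⟩ ⟨false,1,⟨0,[(36,0),(2,0)]⟩,⟨0,[(37,0)]⟩⟩ ⟨true,1,⟨17,
  [(7,1),(1,5),(2,5),(3,4),(0,2),(3,1),(9,6),(7,2)]⟩,⟨0,[(15,0)]⟩⟩,.o ⟨false,1,⟨0,[(7,0)]⟩,⟨5,[(4,
  1),(3,3),(22,1),(6,4),(0,2)]⟩⟩]⟩))) (.S ⟨1,0,[0,0,1,1,0,0,0,1],[0,1,1],[1,1,1,0,0,0,0,1],(⟨0,[(28,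
  0),(2,0)]⟩,⟨0,[(16,0)]⟩),⟨0,[(28,0)]⟩,.k,.k,⟨true,0,⟨0,[(34,0)]⟩,⟨0,[(35,0)]⟩⟩,⟨false,1,⟨1,[(18,
  0),(0,0),(17,0)]⟩,⟨0,[]⟩⟩,⟨false,0,⟨0,[]⟩,⟨1,[(18,0),(0,0),(17,0)]⟩⟩,⟨true,0,⟨0,[(35,0)]⟩,⟨0,[(34,
  0)]⟩⟩,[.o ⟨false,0,⟨3,[(1,1),(6,0),(0,2),(0,0),(2,2),(15,1)]⟩,⟨1,[(7,1),(21,0),(7,0)]⟩⟩,.a ⟨true,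
  0,⟨0,[(8,0)]⟩,⟨0,[(7,0)]⟩⟩ ⟨false,0,⟨4,[(1,3),(8,0),(1,1),(0,1),(15,0)]⟩,⟨9,[(0,7),(4,0),(9,0),(2,
  0),(0,1),(4,1),(7,2)]⟩⟩ ⟨true,0,⟨0,[(1,0)]⟩,⟨0,[(7,0),(1,0)]⟩⟩,.e ⟨false,0,⟨0,[(1,0),(32,0)]⟩,⟨0,
  [(0,0)]⟩⟩ ⟨false,0,⟨0,[(1,0)]⟩,⟨57,[(0,35),(4,2),(1,33),(2,11),(4,16),(3,2),(9,6),(2,0)]⟩⟩,.o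
  ⟨false,0,⟨0,[(9,0)]⟩,⟨1,[(26,1),(2,0),(6,0)]⟩⟩]⟩)))))))

theorem ok102 : chk K t102 r46 = true := by decide +kernel

noncomputable def t111 : Tre :=
  (.S ⟨1,0,[0,0,-1,-1],[1,-1],[0,1,-1,-1],(⟨0,[(18,0)]⟩,⟨0,[(19,0)]⟩),⟨0,[(4,0),(0,0)]⟩,.k,(.r (-1)
  ⟨0,[(1,0),(20,0)]⟩ ⟨2,[(0,3),(19,1),(2,1)]⟩),⟨true,0,⟨0,[(27,0)]⟩,⟨0,[]⟩⟩,⟨false,1,⟨1,[(6,0),(0,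
  0),(17,0)]⟩,⟨0,[]⟩⟩,⟨false,0,⟨0,[(23,0)]⟩,⟨0,[(22,0),(2,0)]⟩⟩,⟨true,0,⟨0,[(23,0)]⟩,⟨0,[(22,0)]⟩⟩,
  [.o ⟨false,1,⟨1,[(17,0),(4,1),(2,0)]⟩,⟨0,[(23,0)]⟩⟩,.e ⟨false,1,⟨1,[(1,0),(20,0),(1,0)]⟩,⟨2,[(0,
  1),(19,0),(2,0)]⟩⟩ ⟨false,1,⟨0,[(1,0)]⟩,⟨0,[(0,0),(19,0)]⟩⟩,.a ⟨true,0,⟨1,[(0,0),(21,0)]⟩,⟨1,[(2,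
  0),(12,0),(0,0)]⟩⟩ ⟨true,0,⟨0,[(21,0)]⟩,⟨2,[(0,1),(19,0),(2,0)]⟩⟩ ⟨false,1,⟨1,[(1,0),(20,0),(2,
  0)]⟩,⟨2,[(0,1),(19,0),(2,0)]⟩⟩,.e ⟨false,1,⟨1,[(1,0),(20,0),(1,0)]⟩,⟨0,[(0,0)]⟩⟩ ⟨false,1,⟨0,[(1,
  0)]⟩,⟨0,[(0,0),(26,0)]⟩⟩]⟩)

theorem ok111 : chk K t111 l57 = true := by decide +kernel

noncomputable def t112 : Tre :=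
  (.S ⟨1,0,[0,0,-1,-1],[1,-1],[0,0,1],(⟨0,[(19,0)]⟩,⟨0,[(20,0)]⟩),⟨0,[(5,0),(0,0)]⟩,.k,(.r (-1) ⟨0,
  [(2,0),(20,0)]⟩ ⟨0,[(0,0),(27,0)]⟩),⟨true,0,⟨0,[(0,0),(22,0)]⟩,⟨0,[(1,0)]⟩⟩,⟨false,1,⟨1,[(7,0),(0,
  0),(17,0)]⟩,⟨0,[]⟩⟩,⟨false,0,⟨0,[(0,0)]⟩,⟨0,[(2,0),(20,0)]⟩⟩,⟨true,0,⟨0,[(24,0)]⟩,⟨0,[(23,0)]⟩⟩,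
  [.o ⟨false,1,⟨1,[(18,0),(4,1),(2,0)]⟩,⟨0,[(24,0)]⟩⟩,.e ⟨false,1,⟨1,[(7,0),(0,0),(17,0)]⟩,⟨2,[(1,
  0),(19,0),(2,0)]⟩⟩ ⟨false,1,⟨0,[(2,0)]⟩,⟨1,[(0,0),(27,2)]⟩⟩,.a ⟨true,0,⟨1,[(14,0),(0,0)]⟩,⟨1,[(3,
  0),(12,0),(0,0)]⟩⟩ ⟨true,0,⟨1,[(14,0),(0,0)]⟩,⟨2,[(1,0),(19,0),(2,0)]⟩⟩ ⟨false,1,⟨1,[(2,0),(20,0),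
  (2,0)]⟩,⟨1,[(0,0),(27,0)]⟩⟩,.e ⟨false,1,⟨1,[(7,0),(0,0),(17,0)]⟩,⟨0,[]⟩⟩ ⟨false,1,⟨0,[(2,0)]⟩,⟨0,
  [(0,0),(22,0)]⟩⟩]⟩)

theorem ok112 : chk K t112 l58 = true := by decide +kernel

noncomputable def t113 : Tre :=
  (.R ⟨2,true,false,false,[0,1],[0,1,1],[1,1,1],(⟨0,[]⟩,⟨0,[]⟩),(⟨0,[(21,0),(2,0)]⟩,⟨0,[(9,0)]⟩),⟨0,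
  []⟩,.k,.k,.k,.k,.k,.k,⟨false,0,⟨1,[(0,0),(2,1),(0,0),(12,0)]⟩,⟨1,[(2,1),(16,1),(9,0),(0,0)]⟩⟩,
  ⟨true,0,⟨0,[(3,0)]⟩,⟨0,[(19,0)]⟩⟩,⟨true,0,⟨0,[(27,0)]⟩,⟨0,[(28,0)]⟩⟩,⟨false,1,⟨0,[(16,0),(13,0)]⟩,
  ⟨0,[(0,0)]⟩⟩,⟨false,0,⟨0,[]⟩,⟨1,[(11,0),(0,0),(17,0)]⟩⟩,⟨true,0,⟨0,[(2,0)]⟩,⟨0,[(1,0)]⟩⟩,[]⟩)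

theorem ok113 : chk K t113 l62 = true := by decide +kernel

noncomputable def t114 : Tre :=
  (.S ⟨1,0,[0,0,0,0,0,0,0,-1],[1,0,-1],[1,1,0,-1,0,0,0,-1],(⟨0,[(24,0)]⟩,⟨0,[(25,0)]⟩),⟨0,[(13,0)]⟩,
  .k,.k,⟨true,0,⟨0,[(31,0)]⟩,⟨0,[(32,0)]⟩⟩,⟨false,1,⟨1,[(15,0),(0,0),(17,0)]⟩,⟨0,[]⟩⟩,⟨false,0,⟨0,
  []⟩,⟨1,[(15,0),(0,0),(17,0)]⟩⟩,⟨true,0,⟨0,[(32,0)]⟩,⟨0,[(31,0)]⟩⟩,[.o ⟨false,1,⟨1,[(21,1),(4,0),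
  (7,0)]⟩,⟨0,[(4,0)]⟩⟩,.e ⟨false,1,⟨19,[(3,15),(8,1),(2,2),(0,2),(4,3),(4,0),(2,3),(1,3)]⟩,⟨0,[(0,
  0)]⟩⟩ ⟨false,1,⟨0,[(3,0),(28,0)]⟩,⟨0,[(0,0),(30,0)]⟩⟩,.o ⟨false,1,⟨1,[(23,1),(2,0),(6,0)]⟩,⟨0,[(7,
  0)]⟩⟩,.a ⟨true,0,⟨0,[(23,0)]⟩,⟨0,[(19,0)]⟩⟩ ⟨true,0,⟨0,[(1,0)]⟩,⟨0,[(6,0),(16,0)]⟩⟩ ⟨false,1,⟨0,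
  [(3,0),(28,0)]⟩,⟨0,[(4,0),(18,0)]⟩⟩]⟩)

theorem ok114 : chk K t114 l66 = true := by decide +kernel

noncomputable def t115 : Tre :=
  (.R ⟨2,true,false,false,[0,1],[1,0,-1],[0,0,1,1],(⟨0,[]⟩,⟨0,[]⟩),(⟨0,[(25,0)]⟩,⟨0,[(26,0)]⟩),⟨0,
  []⟩,.k,.k,.k,.k,.k,.k,⟨true,0,⟨0,[(7,0),(16,0)]⟩,⟨0,[(1,0)]⟩⟩,⟨false,1,⟨1,[(24,1),(2,0),(6,0)]⟩,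
  ⟨0,[(20,0)]⟩⟩,⟨false,1,⟨1,[(16,0),(0,0),(17,0)]⟩,⟨0,[]⟩⟩,⟨true,1,⟨0,[(0,0),(31,0)]⟩,⟨0,[(3,0)]⟩⟩,
  ⟨true,0,⟨0,[(33,0)]⟩,⟨0,[(32,0)]⟩⟩,⟨false,1,⟨0,[(0,0)]⟩,⟨0,[(3,0),(28,0),(2,0)]⟩⟩,[]⟩)

theorem ok115 : chk K t115 l67 = true := by decide +kernel

noncomputable def t116 : Tre :=
  (.Q [0,0,0,0,0,-1,0,0,0,1,0,-1] (.ed true [0,1,0,0,1] .k) (.Q [0,0,0,0,0,0,1,0,-1,0,-1,1] (.p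
  false [0,0,1] [0,0,0,0,1] (⟨0,[(28,0)]⟩,⟨0,[(27,0)]⟩) .k 2 (⟨0,[(21,0)]⟩,⟨0,[(20,0)]⟩) .k (.r
  (-1) ⟨1,[(9,0),(3,0),(9,0),(2,1),(10,0)]⟩ ⟨0,[(10,0),(13,0)]⟩)) (.R ⟨1,false,false,true,[1,0,0,0,
  -1],[1,-1,-1],[],(⟨0,[(21,0)]⟩,⟨0,[(22,0)]⟩),(⟨0,[(17,0)]⟩,⟨0,[(29,0),(2,0)]⟩),⟨0,[(1,0)]⟩,.k,.k,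
  (.r (-1) ⟨1,[(14,0),(20,0),(2,0)]⟩ ⟨1,[(10,1),(14,1),(0,0),(0,0)]⟩),(.r (-1) ⟨1,[(10,1),(8,0),(0,
  0),(6,1),(10,0)]⟩ ⟨0,[(4,0),(8,0),(22,0),(2,0)]⟩),.k,.k,⟨false,1,⟨1,[(10,1),(16,1),(9,0),(0,0)]⟩,
  ⟨0,[(5,0)]⟩⟩,⟨true,0,⟨0,[(20,0),(6,0)]⟩,⟨0,[(0,0)]⟩⟩,⟨true,0,⟨0,[(40,0)]⟩,⟨0,[]⟩⟩,⟨false,0,⟨0,[(9,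
  0),(10,0)]⟩,⟨0,[(2,0),(7,0)]⟩⟩,⟨false,0,⟨0,[(36,0)]⟩,⟨0,[(35,0),(2,0)]⟩⟩,⟨false,0,⟨0,[(20,0),(4,
  0)]⟩,⟨0,[(2,0),(5,0)]⟩⟩,[.e ⟨false,1,⟨1,[(19,0),(0,0),(16,0)]⟩,⟨0,[]⟩⟩ ⟨false,0,⟨0,[(4,0),(8,0),
  (6,0),(6,0),(8,0)]⟩,⟨1,[(2,0),(7,1),(8,0)]⟩⟩,.o ⟨false,1,⟨1,[(9,1),(20,0),(7,0)]⟩,⟨0,[(10,0)]⟩⟩,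
  .o ⟨false,1,⟨7,[(0,3),(1,0),(10,1),(5,2),(7,3),(2,3),(5,1)]⟩,⟨0,[(20,0)]⟩⟩,.a ⟨true,0,⟨0,[(0,0),
  (26,0)]⟩,⟨1,[(15,0),(4,1),(7,0),(0,0)]⟩⟩ ⟨false,1,⟨1,[(37,0),(0,0)]⟩,⟨1,[(26,0),(0,0)]⟩⟩ ⟨true,0,
  ⟨0,[(4,0),(8,0),(6,0),(6,0),(8,0)]⟩,⟨0,[(0,0),(9,0),(16,0)]⟩⟩]⟩) (.Q [0,0,0,0,0,0,0,0,0,0,1,-1]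
  (.ed true [1,0,-1,0,1] (.r 0 ⟨0,[(11,0),(13,0)]⟩ ⟨1,[(0,1),(1,0),(5,1),(10,0)]⟩)) (.R ⟨1,false,
  false,false,[1,0,-1,0,1],[0,0,0,0,1],[1,1,0,-1,0,0,0,-1],(⟨0,[(23,0),(5,0)]⟩,⟨0,[(0,0)]⟩),(⟨0,
  [(23,0)]⟩,⟨0,[(22,0)]⟩),⟨0,[(18,0),(4,0)]⟩,.k,.k,(.r 0 ⟨0,[(1,0),(1,0),(0,1),(0,2),(8,0),(13,0),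
  (2,0),(5,2)]⟩ ⟨3,[(1,1),(9,3),(8,1),(6,0),(0,2),(10,1)]⟩),.k,.k,.k,⟨true,0,⟨0,[(5,0)]⟩,⟨0,[(11,0),
  (16,0)]⟩⟩,⟨false,0,⟨0,[(24,0)]⟩,⟨1,[(28,1),(2,0),(6,0)]⟩⟩,⟨false,1,⟨0,[(36,0),(2,0)]⟩,⟨0,[(37,
  0)]⟩⟩,⟨false,0,⟨0,[(4,0),(34,0)]⟩,⟨1,[(26,1),(4,0),(7,0)]⟩⟩,⟨true,0,⟨0,[]⟩,⟨0,[(41,0)]⟩⟩,⟨false,0,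
  ⟨0,[(7,0),(31,0)]⟩,⟨1,[(10,1),(20,0),(7,0)]⟩⟩,[.a ⟨true,(-1),⟨0,[(1,0),(3,0),(1,0)]⟩,⟨1,[(3,0),
  (16,0)]⟩⟩ ⟨false,0,⟨0,[(6,0)]⟩,⟨1,[(1,1),(1,0),(7,1),(8,0)]⟩⟩ ⟨true,(-1),⟨0,[(5,0),(1,0)]⟩,⟨1,
  [(28,1),(2,0),(7,0)]⟩⟩,.o ⟨false,0,⟨0,[(21,0)]⟩,⟨0,[(3,0),(0,0),(21,0),(4,0)]⟩⟩,.a ⟨true,0,⟨0,[(1,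
  0)]⟩,⟨1,[(3,0),(1,1),(1,1),(12,0)]⟩⟩ ⟨false,0,⟨0,[(5,0)]⟩,⟨1,[(1,1),(1,0),(7,1),(8,0)]⟩⟩ ⟨true,
  (-1),⟨0,[(5,0),(1,0)]⟩,⟨1,[(28,1),(2,0),(6,0)]⟩⟩,.a ⟨true,0,⟨1,[(1,1),(25,0),(0,0)]⟩,⟨0,[(3,0),(2,
  0),(0,0)]⟩⟩ ⟨true,0,⟨0,[(6,0)]⟩,⟨0,[(11,0),(16,0)]⟩⟩ ⟨false,0,⟨0,[(24,0)]⟩,⟨1,[(28,1),(2,0),(7,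
  0)]⟩⟩]⟩) (.R ⟨1,false,false,true,[1,0,-1],[1,0,1,0,-1],[1,1,0,-1,0,0,0,-1],(⟨0,[(29,0)]⟩,⟨0,[(30,
  0)]⟩),(⟨0,[(22,0),(7,0)]⟩,⟨0,[(0,0)]⟩),⟨0,[(18,0)]⟩,.k,.k,.k,.k,(.r 0 ⟨0,[(5,0),(0,0),(30,0)]⟩ ⟨1,
  [(1,1),(1,0),(5,1),(1,1),(8,0),(7,1)]⟩),.k,⟨false,0,⟨0,[(5,0),(0,0),(30,0)]⟩,⟨0,[(11,1),(3,0),(12,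
  1)]⟩⟩,⟨true,0,⟨0,[(3,0),(1,1),(1,1),(23,0)]⟩,⟨0,[(1,0),(26,0)]⟩⟩,⟨true,0,⟨0,[(36,0)]⟩,⟨0,[(37,
  0)]⟩⟩,⟨true,0,⟨0,[(3,0),(0,1),(26,0)]⟩,⟨0,[(1,0),(3,0),(20,0),(10,0)]⟩⟩,⟨false,0,⟨0,[]⟩,⟨1,[(20,
  0),(0,0),(17,0)]⟩⟩,⟨true,0,⟨0,[(3,0),(0,0),(2,0),(23,0)]⟩,⟨0,[(1,0),(3,0),(20,0)]⟩⟩,[.o ⟨false,1,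
  ⟨1,[(3,0),(0,1),(15,0),(10,1)]⟩,⟨0,[(1,0),(3,0),(31,0)]⟩⟩,.o ⟨false,1,⟨0,[(3,0),(0,0),(26,0)]⟩,⟨0,
  [(21,0),(4,0)]⟩⟩,.o ⟨false,1,⟨1,[(28,1),(2,0),(6,0)]⟩,⟨0,[(12,0)]⟩⟩,.a ⟨true,0,⟨0,[(28,0)]⟩,⟨0,
  [(24,0)]⟩⟩ ⟨true,0,⟨0,[(6,0)]⟩,⟨0,[(11,0),(16,0)]⟩⟩ ⟨false,1,⟨1,[(3,1),(0,0),(6,0),(2,0),(2,0),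
  (13,0)]⟩,⟨0,[(1,0),(3,0),(22,0),(8,0)]⟩⟩]⟩))) (.Q [0,0,0,0,0,0,1,0,-1,0,-1,1] (.p false [0,0,1]
  [0,0,0,0,1] (⟨0,[(28,0)]⟩,⟨0,[(27,0)]⟩) .k 2 (⟨0,[(21,0)]⟩,⟨0,[(20,0)]⟩) .k (.r (-1) ⟨1,[(9,0),(3,
  0),(9,0),(2,1),(10,0)]⟩ ⟨0,[(10,0),(13,0)]⟩)) (.R ⟨0,false,false,true,[1,0,0,0,-1],[1,-1,-1],[],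
  (⟨0,[(21,0)]⟩,⟨0,[(22,0)]⟩),(⟨0,[(17,0)]⟩,⟨0,[(29,0),(2,0)]⟩),⟨0,[(1,0)]⟩,.k,.k,(.r (-1) ⟨1,[(14,
  0),(20,0),(2,0)]⟩ ⟨1,[(10,1),(14,1),(0,0),(0,0)]⟩),(.r (-1) ⟨1,[(10,1),(8,0),(0,0),(6,1),(10,0)]⟩
  ⟨0,[(4,0),(8,0),(22,0),(2,0)]⟩),.k,.k,⟨false,1,⟨1,[(10,1),(16,1),(9,0),(0,0)]⟩,⟨0,[(5,0)]⟩⟩,⟨true,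
  0,⟨0,[(20,0),(6,0)]⟩,⟨0,[(0,0)]⟩⟩,⟨true,0,⟨0,[(40,0)]⟩,⟨0,[]⟩⟩,⟨false,0,⟨0,[(9,0),(10,0)]⟩,⟨0,[(2,
  0),(7,0)]⟩⟩,⟨false,0,⟨0,[]⟩,⟨0,[]⟩⟩,⟨false,0,⟨0,[]⟩,⟨0,[]⟩⟩,[.e ⟨false,1,⟨1,[(19,0),(0,0),(16,
  0)]⟩,⟨0,[]⟩⟩ ⟨false,0,⟨0,[(4,0),(8,0),(6,0),(6,0),(8,0)]⟩,⟨1,[(2,0),(7,1),(8,0)]⟩⟩,.o ⟨false,1,⟨1,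
  [(9,1),(20,0),(7,0)]⟩,⟨0,[(10,0)]⟩⟩,.o ⟨false,1,⟨7,[(0,3),(1,0),(10,1),(5,2),(7,3),(2,3),(5,1)]⟩,
  ⟨0,[(20,0)]⟩⟩,.a ⟨true,0,⟨0,[(0,0),(26,0)]⟩,⟨1,[(15,0),(4,1),(7,0),(0,0)]⟩⟩ ⟨false,1,⟨1,[(37,0),
  (0,0)]⟩,⟨1,[(26,0),(0,0)]⟩⟩ ⟨true,0,⟨0,[(4,0),(8,0),(6,0),(6,0),(8,0)]⟩,⟨0,[(0,0),(9,0),(16,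
  0)]⟩⟩]⟩) (.R ⟨1,false,false,true,[1,0,-1],[1,0,1,0,-1],[1,1,0,-1,0,0,0,-1],(⟨0,[(28,0)]⟩,⟨0,[(29,
  0)]⟩),(⟨0,[(21,0),(7,0)]⟩,⟨0,[(1,0),(15,0)]⟩),⟨0,[(17,0)]⟩,.k,.k,.k,.k,(.r 0 ⟨0,[(4,0),(0,0),(30,
  0)]⟩ ⟨1,[(0,1),(1,0),(5,1),(1,1),(8,0),(7,1)]⟩),.k,⟨false,0,⟨0,[(4,0),(0,0),(30,0)]⟩,⟨0,[(10,1),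
  (3,0),(12,1)]⟩⟩,⟨true,0,⟨0,[(2,0),(1,1),(1,1),(23,0)]⟩,⟨0,[(0,0),(26,0)]⟩⟩,⟨true,0,⟨0,[(35,0)]⟩,
  ⟨0,[(36,0)]⟩⟩,⟨true,0,⟨0,[(2,0),(0,1),(26,0)]⟩,⟨0,[(0,0),(3,0),(20,0),(10,0)]⟩⟩,⟨false,0,⟨0,[]⟩,
  ⟨1,[(19,0),(0,0),(17,0)]⟩⟩,⟨true,0,⟨0,[(2,0),(0,0),(2,0),(23,0)]⟩,⟨0,[(0,0),(3,0),(20,0)]⟩⟩,[.o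
  ⟨false,1,⟨1,[(2,0),(0,1),(15,0),(10,1)]⟩,⟨0,[(0,0),(3,0),(31,0)]⟩⟩,.o ⟨false,1,⟨0,[(2,0),(0,0),
  (26,0)]⟩,⟨0,[(20,0),(4,0)]⟩⟩,.o ⟨false,1,⟨1,[(27,1),(2,0),(6,0)]⟩,⟨0,[(11,0)]⟩⟩,.a ⟨true,0,⟨0,
  [(27,0)]⟩,⟨0,[(23,0)]⟩⟩ ⟨true,0,⟨0,[(5,0)]⟩,⟨0,[(10,0),(16,0)]⟩⟩ ⟨false,1,⟨1,[(2,1),(0,0),(6,0),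
  (2,0),(2,0),(13,0)]⟩,⟨0,[(0,0),(3,0),(22,0),(8,0)]⟩⟩]⟩)))

theorem ok116 : chk K t116 l68 = true := by decide +kernel

noncomputable def t117 : Tre :=
  (.Q [0,1,0,-1,-1,0,2,2,0,1,-2] (.p false [0,0,1] [1,0,-1] (⟨0,[(28,0)]⟩,⟨0,[(27,0)]⟩) .k 2 (⟨0,
  [(27,0)]⟩,⟨0,[(28,0)]⟩) .k (.r (-1) ⟨1,[(0,1),(33,1),(1,0),(0,0)]⟩ ⟨0,[(3,1),(31,1)]⟩)) (.Q [0,0,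
  0,0,0,0,1,0,-1,0,-1,1] (.p false [0,0,1] [0,0,0,0,1] (⟨0,[(29,0)]⟩,⟨0,[(28,0)]⟩) .k 2 (⟨0,[(22,
  0)]⟩,⟨0,[(21,0)]⟩) .k (.r (-1) ⟨3,[(1,1),(33,1),(1,0),(0,2)]⟩ ⟨0,[(11,0),(13,0)]⟩)) (.Q [0,0,0,0,
  0,-1,0,0,0,1,0,-1] (.ed true [0,1,0,0,1] .k) (.S ⟨1,0,[0,-1],[1,0,0,0,-1],[1,0,0,-1],(⟨0,[(23,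
  0)]⟩,⟨0,[(24,0)]⟩),⟨0,[(0,0)]⟩,.k,(.r (-1) ⟨1,[(16,0),(20,0),(2,0)]⟩ ⟨2,[(3,0),(8,0),(14,2),(0,1),
  (9,0)]⟩),⟨true,0,⟨0,[(37,0)]⟩,⟨0,[(38,0)]⟩⟩,⟨false,1,⟨1,[(21,0),(0,0),(17,0)]⟩,⟨0,[]⟩⟩,⟨false,0,
  ⟨0,[]⟩,⟨1,[(21,0),(0,0),(17,0)]⟩⟩,⟨true,0,⟨0,[(38,0)]⟩,⟨0,[(37,0)]⟩⟩,[.e ⟨false,1,⟨1,[(37,1),(1,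
  0),(0,0)]⟩,⟨0,[(38,0)]⟩⟩ ⟨false,1,⟨1,[(39,0),(0,0)]⟩,⟨0,[(42,0)]⟩⟩,.o ⟨false,2,⟨2,[(1,1),(15,0),
  (3,0),(7,1),(2,1),(7,2)]⟩,⟨0,[(4,0)]⟩⟩,.o ⟨false,1,⟨2,[(1,1),(15,0),(3,0),(7,1),(2,1)]⟩,⟨0,[(22,
  0)]⟩⟩,.a ⟨true,0,⟨0,[(1,0),(27,0)]⟩,⟨1,[(17,0),(4,1),(7,0),(0,0)]⟩⟩ ⟨false,1,⟨1,[(16,0),(20,0),(2,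
  0)]⟩,⟨1,[(28,0),(0,0),(8,1)]⟩⟩ ⟨true,1,⟨1,[(39,0),(0,0)]⟩,⟨0,[(1,0),(2,0),(24,0)]⟩⟩]⟩) (.Q [0,1,
  -1,1,-1,0,1,1,1,1,-1,-1] (.p false [0,0,1] [1,0,0,0,-1] (⟨0,[(31,0)]⟩,⟨0,[(30,0)]⟩) .k 2 (⟨0,[(23,
  0)]⟩,⟨0,[(24,0)]⟩) .k (.r 0 ⟨9,[(3,4),(10,0),(20,2),(1,2)]⟩ ⟨1,[(9,0),(17,0),(0,0),(9,0),(1,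
  0)]⟩)) (.R ⟨0,false,false,true,[1,0,0,0,-1],[0,1,1],[1,1,1],(⟨0,[(24,0)]⟩,⟨0,[(25,0)]⟩),(⟨0,[(32,
  0),(2,0)]⟩,⟨0,[(20,0)]⟩),⟨0,[(1,0)]⟩,.k,.k,(.r (-1) ⟨1,[(17,0),(20,0),(2,0)]⟩ ⟨2,[(4,0),(8,0),(14,
  2),(0,1),(9,0)]⟩),(.r (-1) ⟨0,[(10,0)]⟩ ⟨6,[(4,4),(8,1),(14,4),(0,2),(6,0)]⟩),.k,.k,⟨true,0,⟨0,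
  [(7,0)]⟩,⟨3,[(4,1),(24,0),(0,0),(8,1)]⟩⟩,⟨false,0,⟨0,[(0,0),(9,0)]⟩,⟨2,[(2,1),(15,0),(3,0),(7,4),
  (2,1)]⟩⟩,⟨true,(-1),⟨0,[(2,0),(2,0),(24,0)]⟩,⟨1,[(40,0),(0,0)]⟩⟩,⟨false,(-1),⟨0,[(9,0),(13,0)]⟩,
  ⟨0,[(2,0),(4,0),(10,0),(11,1),(2,0),(7,0)]⟩⟩,⟨false,0,⟨0,[]⟩,⟨0,[]⟩⟩,⟨false,0,⟨0,[]⟩,⟨0,[]⟩⟩,[.e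
  ⟨false,0,⟨0,[(43,0)]⟩,⟨1,[(40,0),(0,0)]⟩⟩ ⟨false,(-1),⟨0,[(0,0)]⟩,⟨5,[(2,3),(9,3),(4,1),(4,1),(5,
  1),(1,3),(2,2),(7,4)]⟩⟩,.o ⟨false,0,⟨0,[(13,0)]⟩,⟨1,[(12,1),(20,0),(7,0)]⟩⟩,.o ⟨false,1,⟨2,[(2,1),
  (15,0),(3,0),(7,1),(2,1)]⟩,⟨0,[(23,0)]⟩⟩,.a ⟨true,0,⟨0,[(2,0),(27,0)]⟩,⟨1,[(18,0),(4,1),(7,0),(0,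
  0)]⟩⟩ ⟨false,0,⟨0,[]⟩,⟨1,[(22,0),(0,0),(17,0)]⟩⟩ ⟨true,(-1),⟨0,[(0,0)]⟩,⟨1,[(2,1),(9,1),(17,1),(2,
  0),(7,0)]⟩⟩]⟩) (.R ⟨0,false,false,true,[1,0,0,0,-1],[0,1,1],[1,1,1],(⟨0,[(24,0)]⟩,⟨0,[(25,0)]⟩),
  (⟨0,[(32,0),(2,0)]⟩,⟨0,[(20,0)]⟩),⟨0,[(1,0)]⟩,.k,.k,(.r (-1) ⟨1,[(17,0),(20,0),(2,0)]⟩ ⟨2,[(4,0),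
  (8,0),(14,2),(0,1),(9,0)]⟩),(.r (-1) ⟨0,[(10,0)]⟩ ⟨6,[(4,4),(8,1),(14,4),(0,2),(6,0)]⟩),.k,.k,
  ⟨true,0,⟨0,[(7,0)]⟩,⟨3,[(4,1),(24,0),(0,0),(8,1)]⟩⟩,⟨false,0,⟨0,[(14,0),(3,0),(4,0)]⟩,⟨1,[(0,1),
  (3,0),(31,0),(2,0)]⟩⟩,⟨true,(-1),⟨0,[(0,0),(4,0),(3,0)]⟩,⟨1,[(40,0),(0,0)]⟩⟩,⟨false,(-1),⟨0,[(9,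
  0),(13,0)]⟩,⟨1,[(0,1),(39,0),(0,0)]⟩⟩,⟨false,0,⟨0,[]⟩,⟨0,[]⟩⟩,⟨false,0,⟨0,[]⟩,⟨0,[]⟩⟩,[.a ⟨true,
  (-1),⟨0,[(9,0)]⟩,⟨0,[(12,0),(28,0)]⟩⟩ ⟨false,0,⟨0,[(43,0)]⟩,⟨1,[(40,0),(0,0)]⟩⟩ ⟨true,(-1),⟨0,[(9,
  0),(13,0)]⟩,⟨0,[(0,0)]⟩⟩,.o ⟨false,0,⟨0,[(13,0)]⟩,⟨1,[(12,1),(20,0),(7,0)]⟩⟩,.o ⟨false,1,⟨17,[(0,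
  5),(1,5),(1,2),(11,3),(5,5),(10,5),(2,0),(2,6)]⟩,⟨0,[(23,0)]⟩⟩,.e ⟨false,0,⟨0,[]⟩,⟨1,[(22,0),(0,
  0),(17,0)]⟩⟩ ⟨false,0,⟨2,[(4,0),(8,0),(4,1),(0,0),(3,2),(15,0)]⟩,⟨0,[(0,0)]⟩⟩]⟩))) (.Q [0,-1,0,2,
  1,0,-2,-2,0,-1,2] (.p true [0,0,1] [1,0,-1] (⟨0,[(30,0)]⟩,⟨0,[(29,0)]⟩) .k 2 (⟨0,[(29,0)]⟩,⟨0,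
  [(30,0)]⟩) .k (.r (-1) ⟨1,[(2,1),(33,1),(1,0),(0,0)]⟩ ⟨0,[(5,1),(31,1)]⟩)) (.Q [0,0,0,1,0,0,-1,-1,
  0,0,1] (.p true [0,0,1] [] (⟨0,[(31,0)]⟩,⟨0,[(30,0)]⟩) .k 0 (⟨0,[]⟩,⟨0,[]⟩) .k .k) (.I [0,0,0,-1,
  0,0,0,-1] (.R ⟨1,false,false,false,[1,-1],[1,-1,-1],[1],(⟨0,[(35,0)]⟩,⟨0,[(36,0)]⟩),(⟨0,[(21,0)]⟩,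
  ⟨0,[(33,0),(2,0)]⟩),⟨0,[(21,0),(0,0)]⟩,.k,.k,(.r (-1) ⟨0,[(18,0),(20,0)]⟩ ⟨6,[(2,3),(2,1),(4,3),
  (19,7),(0,3)]⟩),.k,.k,.k,⟨true,0,⟨6,[(2,0),(2,3),(4,0),(19,1),(0,0)]⟩,⟨0,[(0,0)]⟩⟩,⟨false,1,⟨0,
  [(31,0),(9,0)]⟩,⟨0,[(15,0)]⟩⟩,⟨true,0,⟨6,[(2,1),(2,0),(4,1),(19,3),(0,1)]⟩,⟨0,[(38,0)]⟩⟩,⟨false,1,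
  ⟨0,[(29,0),(12,0)]⟩,⟨0,[(12,0)]⟩⟩,⟨true,0,⟨13,[(2,7),(2,3),(4,7),(19,8),(0,0)]⟩,⟨15,[(0,3),(3,1),
  (11,9),(14,3),(2,0),(4,5),(2,0)]⟩⟩,⟨true,0,⟨0,[(1,0)]⟩,⟨5,[(4,1),(23,1),(5,0),(4,3),(2,0)]⟩⟩,[.o
  ⟨false,1,⟨1,[(13,1),(20,0),(7,0)]⟩,⟨0,[(14,0)]⟩⟩,.e ⟨false,1,⟨1,[(41,0),(0,0)]⟩,⟨0,[(44,0)]⟩⟩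
  ⟨false,1,⟨0,[(1,0),(14,0),(25,0)]⟩,⟨7,[(2,0),(2,3),(4,0),(3,0),(15,7),(6,3)]⟩⟩,.a ⟨true,0,⟨1,[(30,
  0),(0,0)]⟩,⟨1,[(19,0),(12,0),(0,0)]⟩⟩ ⟨true,0,⟨0,[]⟩,⟨0,[(44,0)]⟩⟩ ⟨false,1,⟨6,[(0,2),(1,0),(10,
  1),(4,3),(0,0),(11,2),(10,1)]⟩,⟨11,[(2,0),(2,3),(4,0),(3,4),(15,7)]⟩⟩,.e ⟨false,1,⟨1,[(41,0),(0,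
  0)]⟩,⟨1,[(30,0),(0,0)]⟩⟩ ⟨false,1,⟨0,[(1,0),(14,0),(25,0)]⟩,⟨6,[(2,0),(2,3),(4,0),(19,8),(0,
  0)]⟩⟩]⟩) (.Q [0,0,2,0,-1,0,2,0,0,1,-2] (.p false [0,0,1] [1,0,-1] (⟨0,[(33,0)]⟩,⟨0,[(32,0)]⟩) .k
  2 (⟨0,[(32,0)]⟩,⟨0,[(33,0)]⟩) .k (.r (-1) ⟨1,[(5,1),(33,1),(1,0),(0,0)]⟩ ⟨1,[(2,0),(5,2),(1,0),(4,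
  0)]⟩)) (.R ⟨1,true,false,false,[0,0,1],[1,1,-1],[0,0,0,0,0,0,0,1],(⟨0,[(34,0)]⟩,⟨0,[(33,0)]⟩),(⟨0,
  [(33,0),(3,0)]⟩,⟨0,[(23,0)]⟩),⟨0,[(23,0)]⟩,.k,.k,.k,(.r (-1) ⟨0,[(6,0),(12,0),(20,0)]⟩ ⟨27,[(0,
  20),(2,19),(6,11),(10,0),(8,3),(4,0),(2,1)]⟩),(.r (-1) ⟨1,[(6,1),(10,1),(1,0),(20,0),(2,0)]⟩ ⟨0,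
  [(0,0),(2,0),(41,0)]⟩),.k,⟨false,1,⟨3,[(6,3),(10,1),(1,2),(20,0),(1,0)]⟩,⟨27,[(0,20),(2,19),(6,
  11),(10,0),(8,3),(4,0),(2,1)]⟩⟩,⟨true,1,⟨3,[(1,3),(1,1),(13,3),(14,3),(2,0),(7,0)]⟩,⟨0,[(0,0)]⟩⟩,
  ⟨false,1,⟨1,[(24,0),(0,0),(17,0)]⟩,⟨0,[]⟩⟩,⟨true,1,⟨5,[(3,3),(10,1),(9,0),(0,0),(4,1),(4,0)]⟩,⟨0,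
  [(5,0)]⟩⟩,⟨true,0,⟨0,[(41,0)]⟩,⟨0,[(40,0)]⟩⟩,⟨false,1,⟨0,[(3,0)]⟩,⟨0,[(5,0),(34,0),(2,0)]⟩⟩,[]⟩)
  (.Q [0,0,-1,0,0,0,0,0,1,0,0,-1] (.p false [0,0,0,0,1] [] (⟨0,[(27,0)]⟩,⟨0,[(26,0)]⟩) .k 0 (⟨0,[]⟩,
  ⟨0,[]⟩) .k .k) (.Q [0,0,0,0,-1,0,0,0,1,1,0,-1] (.p false [0,0,0,0,1] [1] (⟨0,[(28,0)]⟩,⟨0,[(27,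
  0)]⟩) .k 1 (⟨0,[]⟩,⟨0,[]⟩) .k .k) (.Q [0,-1,0,0,0,0,-1,-1,1,0,1,-1] (.p true [0,0,1] [0,0,0,0,1]
  (⟨0,[(36,0)]⟩,⟨0,[(35,0)]⟩) .k 2 (⟨0,[(29,0)]⟩,⟨0,[(28,0)]⟩) .k (.r (-1) ⟨3,[(8,1),(33,1),(1,0),
  (0,2)]⟩ ⟨12,[(5,1),(6,5),(0,1),(18,4),(0,6),(6,0)]⟩)) (.Q [0,0,0,0,0,2,0,0,0,0,-1] (.p false [0,0,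
  1] [] (⟨0,[(37,0)]⟩,⟨0,[(36,0)]⟩) .k 0 (⟨0,[]⟩,⟨0,[]⟩) .k .k) (.Q [0,-1,0,1,1,0,1,1,-1,0,-1,1]
  (.p false [0,0,1] [0,0,0,0,1] (⟨0,[(38,0)]⟩,⟨0,[(37,0)]⟩) .k 2 (⟨0,[(31,0)]⟩,⟨0,[(30,0)]⟩) .k (.r
  (-1) ⟨3,[(10,1),(33,1),(1,0),(0,2)]⟩ ⟨12,[(7,1),(6,5),(0,1),(18,4),(0,6),(6,0)]⟩)) (.R ⟨0,false,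
  false,true,[0,-1,1],[1,0,0,0,-1],[1],(⟨0,[(28,0)]⟩,⟨1,[(1,0),(36,1),(0,0)]⟩),(⟨0,[(31,0)]⟩,⟨0,
  [(32,0)]⟩),⟨0,[(1,0)]⟩,.k,.k,(.r (-1) ⟨3,[(11,1),(10,1),(1,2),(20,2),(2,0)]⟩ ⟨1,[(7,0),(0,0),(7,
  0),(19,2),(0,0)]⟩),(.r 0 ⟨1,[(5,0),(4,0),(34,0)]⟩ ⟨3,[(8,1),(17,1),(2,0),(0,0),(5,1),(0,1),(10,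
  0)]⟩),.k,.k,⟨true,0,⟨0,[]⟩,⟨1,[(36,0),(0,0)]⟩⟩,⟨false,2,⟨5,[(0,1),(4,3),(9,1),(13,3),(10,0),(6,
  0)]⟩,⟨0,[(3,0),(32,0)]⟩⟩,⟨true,0,⟨0,[(7,0),(28,0)]⟩,⟨1,[(5,0),(4,0),(34,0)]⟩⟩,⟨false,2,⟨3,[(8,1),
  (20,3),(10,0),(7,0)]⟩,⟨0,[(2,0),(7,0)]⟩⟩,⟨false,0,⟨0,[]⟩,⟨0,[]⟩⟩,⟨false,0,⟨0,[]⟩,⟨0,[]⟩⟩,[.a
  ⟨true,1,⟨0,[(29,0)]⟩,⟨0,[(3,0)]⟩⟩ ⟨true,0,⟨0,[]⟩,⟨1,[(36,0),(0,0)]⟩⟩ ⟨false,2,⟨5,[(0,1),(4,3),(9,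
  1),(13,3),(10,0),(6,0)]⟩,⟨0,[(3,0),(32,0)]⟩⟩,.e ⟨false,1,⟨1,[(47,0),(0,0)]⟩,⟨0,[(50,0)]⟩⟩ ⟨false,
  2,⟨0,[(0,0),(4,0),(8,0)]⟩,⟨1,[(3,0),(8,0),(13,0),(9,0),(0,0)]⟩⟩,.o ⟨false,0,⟨0,[(36,0)]⟩,⟨3,[(5,
  1),(23,0),(0,0),(9,0)]⟩⟩,.o ⟨false,0,⟨1,[(36,2),(0,0)]⟩,⟨1,[(5,0),(19,0),(14,0)]⟩⟩]⟩) (.R ⟨0,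
  false,false,true,[0,-1,1],[1,0,0,0,-1],[1],(⟨0,[(28,0)]⟩,⟨1,[(1,0),(36,1),(0,0)]⟩),(⟨0,[(31,0)]⟩,
  ⟨0,[(32,0)]⟩),⟨0,[(1,0)]⟩,.k,.k,(.r (-1) ⟨3,[(11,1),(10,1),(1,2),(20,2),(2,0)]⟩ ⟨1,[(7,0),(0,0),
  (7,0),(19,2),(0,0)]⟩),(.r 0 ⟨1,[(5,0),(4,0),(34,0)]⟩ ⟨3,[(8,1),(17,1),(2,0),(0,0),(5,1),(0,1),(10,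
  0)]⟩),.k,.k,⟨true,0,⟨0,[]⟩,⟨1,[(36,0),(0,0)]⟩⟩,⟨false,2,⟨1,[(5,0),(19,0),(3,1),(10,0)]⟩,⟨0,[(3,0),
  (32,0)]⟩⟩,⟨true,0,⟨0,[(7,0),(28,0)]⟩,⟨1,[(5,0),(4,0),(34,0)]⟩⟩,⟨false,2,⟨3,[(8,1),(20,3),(10,0),
  (7,0)]⟩,⟨0,[(2,0),(7,0)]⟩⟩,⟨false,0,⟨0,[]⟩,⟨0,[]⟩⟩,⟨false,0,⟨0,[]⟩,⟨0,[]⟩⟩,[.a ⟨true,1,⟨0,[(29,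
  0)]⟩,⟨0,[(3,0)]⟩⟩ ⟨true,0,⟨0,[]⟩,⟨1,[(36,0),(0,0)]⟩⟩ ⟨false,2,⟨1,[(5,0),(19,0),(3,1),(10,0)]⟩,⟨0,
  [(3,0),(32,0)]⟩⟩,.o ⟨false,2,⟨1,[(29,1),(10,0),(7,0)]⟩,⟨0,[(0,0),(19,0)]⟩⟩,.o ⟨false,0,⟨0,[(36,
  0)]⟩,⟨3,[(5,1),(23,0),(0,0),(9,0)]⟩⟩,.o ⟨false,0,⟨1,[(36,2),(0,0)]⟩,⟨1,[(5,0),(19,0),(14,
  0)]⟩⟩]⟩)) (.Q [0,0,0,2,1,0,-1,-1,-1,-1,1,1] (.p true [0,0,1] [1,0,0,0,-1] (⟨0,[(38,0)]⟩,⟨0,[(37,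
  0)]⟩) .k 2 (⟨0,[(30,0)]⟩,⟨0,[(31,0)]⟩) .k (.r 0 ⟨13,[(4,0),(4,0),(0,5),(31,3),(1,4)]⟩ ⟨7,[(7,1),
  (8,1),(1,1),(6,1),(2,0),(0,0),(5,1),(11,2)]⟩)) (.R ⟨1,false,false,true,[0,-1,1],[1,0,0,0,-1],[1],
  (⟨0,[(28,0)]⟩,⟨0,[(38,0),(3,0)]⟩),(⟨0,[(31,0)]⟩,⟨0,[(32,0)]⟩),⟨0,[(1,0)]⟩,.k,.k,(.r (-1) ⟨3,[(11,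
  1),(10,1),(1,2),(20,2),(2,0)]⟩ ⟨1,[(7,0),(0,0),(7,0),(19,2),(0,0)]⟩),(.r 0 ⟨1,[(5,0),(4,0),(34,
  0)]⟩ ⟨3,[(8,1),(17,1),(2,0),(0,0),(5,1),(0,1),(10,0)]⟩),(.r 0 ⟨0,[(5,0),(4,0),(3,0)]⟩ ⟨11,[(8,9),
  (2,3),(14,9),(2,0),(0,0),(5,9),(0,9),(10,0)]⟩),.k,⟨true,0,⟨0,[]⟩,⟨1,[(36,0),(0,0)]⟩⟩,⟨false,2,⟨9,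
  [(0,1),(4,4),(4,0),(12,0),(0,1),(4,7),(10,1),(6,1)]⟩,⟨0,[(3,0),(32,0)]⟩⟩,⟨true,0,⟨0,[(7,0),(28,
  0)]⟩,⟨1,[(5,0),(4,0),(34,0)]⟩⟩,⟨false,2,⟨3,[(8,1),(20,3),(10,0),(7,0)]⟩,⟨0,[(2,0),(7,0)]⟩⟩,⟨true,
  0,⟨1,[(7,0),(0,0),(7,0),(19,1)]⟩,⟨19,[(10,5),(0,3),(10,17),(14,11),(2,2),(4,1),(2,2)]⟩⟩,⟨true,1,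
  ⟨0,[(0,0)]⟩,⟨0,[(2,0),(7,0),(34,0)]⟩⟩,[.a ⟨true,1,⟨0,[(29,0)]⟩,⟨0,[(3,0)]⟩⟩ ⟨true,0,⟨0,[]⟩,⟨1,
  [(36,0),(0,0)]⟩⟩ ⟨false,2,⟨9,[(0,1),(4,4),(4,0),(12,0),(0,1),(4,7),(10,1),(6,1)]⟩,⟨0,[(3,0),(32,
  0)]⟩⟩,.e ⟨false,1,⟨1,[(47,0),(0,0)]⟩,⟨0,[(50,0)]⟩⟩ ⟨false,2,⟨0,[(0,0),(4,0),(4,0),(3,0),(33,0)]⟩,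
  ⟨1,[(3,0),(8,0),(13,0),(9,0),(0,0)]⟩⟩,.o ⟨false,0,⟨0,[(36,0)]⟩,⟨3,[(5,1),(23,0),(0,0),(9,0)]⟩⟩,.o
  ⟨false,0,⟨1,[(36,2),(0,0)]⟩,⟨1,[(5,0),(19,0),(14,0)]⟩⟩]⟩) (.Q [0,0,-1,0,-1,0,0,0,1,1,0,-1] (.p
  false [0,0,0,0,1] [1] (⟨0,[(32,0)]⟩,⟨0,[(31,0)]⟩) .k 1 (⟨0,[]⟩,⟨0,[]⟩) .k .k) (.Q [0,0,0,0,0,-1,0,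
  0,0,1,0,-1] (.ed true [0,1,0,0,1] .k) (.S ⟨1,0,[],[1,0,0,0,-1],[0,-1],(⟨0,[(33,0)]⟩,⟨0,[(34,0)]⟩),
  ⟨0,[(0,0)]⟩,.k,(.r (-1) ⟨1,[(26,0),(20,0),(2,0)]⟩ ⟨4,[(10,0),(2,1),(4,0),(18,2),(0,3),(6,0)]⟩),
  ⟨false,1,⟨1,[(31,0),(0,0),(17,0)]⟩,⟨0,[]⟩⟩,⟨true,0,⟨0,[(52,0)]⟩,⟨0,[]⟩⟩,⟨true,0,⟨0,[(48,0)]⟩,⟨0,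
  [(47,0)]⟩⟩,⟨false,0,⟨0,[(48,0)]⟩,⟨0,[(47,0),(2,0)]⟩⟩,[.e ⟨false,1,⟨1,[(49,0),(0,0)]⟩,⟨0,[(52,
  0)]⟩⟩ ⟨false,1,⟨1,[(31,0),(0,0),(16,0)]⟩,⟨0,[]⟩⟩,.o ⟨false,2,⟨1,[(31,1),(10,0),(7,0)]⟩,⟨1,[(1,0),
  (3,0),(3,0),(5,1),(0,0),(22,0),(2,1)]⟩⟩,.e ⟨false,1,⟨0,[(50,0)]⟩,⟨0,[(52,0)]⟩⟩ ⟨false,1,⟨1,[(31,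
  0),(0,0),(17,0)]⟩,⟨0,[]⟩⟩,.a ⟨true,1,⟨1,[(31,1),(6,0),(0,0)]⟩,⟨0,[(1,0)]⟩⟩ ⟨true,1,⟨1,[(49,0),(0,
  0)]⟩,⟨0,[(9,0),(5,1),(0,0),(22,0),(2,0)]⟩⟩ ⟨false,1,⟨1,[(49,0),(0,0)]⟩,⟨1,[(38,0),(0,0)]⟩⟩]⟩) (.Q
  [0,0,0,2,-1,0,-1,-1,1,0,1,-1] (.p true [0,0,1] [0,0,0,0,1] (⟨0,[(41,0)]⟩,⟨0,[(40,0)]⟩) .k 2 (⟨0,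
  [(34,0)]⟩,⟨0,[(33,0)]⟩) .k (.r (-1) ⟨3,[(13,1),(33,1),(1,0),(0,2)]⟩ ⟨12,[(10,1),(6,5),(0,1),(18,
  4),(0,6),(6,0)]⟩)) (.S ⟨1,0,[0,2],[0,0,0,0,1],[1,1,0,-1],(⟨0,[(35,0)]⟩,⟨0,[(34,0)]⟩),⟨1,[(1,0),(2,
  0),(25,0),(4,0)]⟩,.k,(.r 0 ⟨0,[(47,0)]⟩ ⟨2,[(11,0),(2,0),(14,0),(2,0),(0,0),(5,0),(0,0),(10,0)]⟩),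
  ⟨false,1,⟨0,[(48,0),(2,0)]⟩,⟨0,[(49,0)]⟩⟩,⟨true,0,⟨0,[(53,0)]⟩,⟨0,[]⟩⟩,⟨true,0,⟨0,[]⟩,⟨0,[(53,
  0)]⟩⟩,⟨false,0,⟨0,[(49,0)]⟩,⟨0,[(48,0),(2,0)]⟩⟩,[.e ⟨false,0,⟨4,[(25,1),(20,0),(1,0)]⟩,⟨5,[(11,1),
  (2,1),(14,1),(2,0),(0,0),(16,0),(0,1)]⟩⟩ ⟨false,0,⟨0,[(46,0)]⟩,⟨0,[(51,0)]⟩⟩,.o ⟨false,(-1),⟨3,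
  [(0,1),(2,0),(9,0),(1,0),(6,0),(20,0)]⟩,⟨1,[(32,1),(10,0),(7,0)]⟩⟩,.a ⟨true,(-1),⟨0,[(6,0)]⟩,⟨0,
  [(32,0)]⟩⟩ ⟨true,0,⟨0,[(48,0)]⟩,⟨0,[(49,0)]⟩⟩ ⟨false,0,⟨0,[(53,0)]⟩,⟨0,[(51,0)]⟩⟩,.o ⟨false,(-1),
  ⟨1,[(0,1),(12,1),(3,1),(22,1),(2,0),(7,0)]⟩,⟨1,[(32,1),(10,0),(6,0)]⟩⟩]⟩) (.R ⟨0,false,false,true,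
  [1,0,0,0,-1],[0,0,1],[1,1],(⟨0,[(34,0)]⟩,⟨0,[(35,0)]⟩),(⟨0,[(42,0)]⟩,⟨0,[(41,0)]⟩),⟨0,[(1,0)]⟩,.k,
  .k,(.r (-1) ⟨4,[(0,0),(11,0),(7,0),(6,1),(23,0)]⟩ ⟨4,[(11,0),(2,1),(4,0),(18,2),(0,3),(6,0)]⟩),.k,
  .k,.k,⟨true,0,⟨3,[(11,0),(5,2),(1,0),(4,0)]⟩,⟨7,[(13,1),(0,1),(24,0),(0,4),(2,0),(7,0)]⟩⟩,⟨false,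
  (-1),⟨0,[(2,0),(21,0)]⟩,⟨6,[(8,0),(3,2),(19,9),(7,1),(2,2)]⟩⟩,⟨false,0,⟨0,[(53,0)]⟩,⟨0,[(51,0)]⟩⟩,
  ⟨true,(-2),⟨1,[(2,0),(3,0),(3,0),(5,3),(0,0),(22,0),(2,1)]⟩,⟨0,[(0,0),(10,0)]⟩⟩,⟨false,0,⟨0,[]⟩,
  ⟨0,[]⟩⟩,⟨false,0,⟨0,[]⟩,⟨0,[]⟩⟩,[.e ⟨false,0,⟨11,[(11,0),(7,0),(3,0),(2,3),(19,3)]⟩,⟨1,[(32,0),(0,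
  0),(17,0)]⟩⟩ ⟨false,(-1),⟨5,[(2,0),(4,2),(5,1),(1,0),(3,1),(8,0),(4,0)]⟩,⟨0,[(0,0),(10,0)]⟩⟩,.o
  ⟨false,0,⟨0,[(21,0)]⟩,⟨6,[(0,1),(10,2),(10,1),(10,1),(4,0),(4,1)]⟩⟩,.e ⟨false,0,⟨0,[]⟩,⟨1,[(32,0),
  (0,0),(17,0)]⟩⟩ ⟨false,(-1),⟨2,[(3,0),(2,1),(16,1)]⟩,⟨0,[(0,0),(10,0)]⟩⟩,.a ⟨true,1,⟨1,[(32,1),(6,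
  0),(0,0)]⟩,⟨0,[(2,0)]⟩⟩ ⟨true,0,⟨11,[(11,0),(7,0),(3,0),(2,3),(19,3)]⟩,⟨1,[(39,0),(0,0)]⟩⟩ ⟨false,
  (-1),⟨5,[(2,5),(10,1),(9,1),(19,0),(7,0)]⟩,⟨1,[(0,1),(10,1),(27,0),(0,0)]⟩⟩]⟩))) (.Q [0,0,0,0,0,
  -1,0,0,0,0,0,1] (.ed false [1,-1,0,0,1] .k) (.Q [0,0,0,0,0,-1,0,0,0,1,0,-1] (.ed true [0,1,0,0,1]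
  .k) (.Q [0,1,0,0,-1,0,-1,-1,1,0,1,-1] (.p true [0,0,1] [0,0,0,0,1] (⟨0,[(42,0)]⟩,⟨0,[(41,0)]⟩) .k
  2 (⟨0,[(35,0)]⟩,⟨0,[(34,0)]⟩) .k (.r (-1) ⟨3,[(14,1),(33,1),(1,0),(0,2)]⟩ ⟨12,[(11,1),(6,5),(0,1),
  (18,4),(0,6),(6,0)]⟩)) (.S ⟨1,0,[0,-1],[1,0,0,0,-1],[],(⟨0,[(35,0)]⟩,⟨0,[(36,0)]⟩),⟨0,[(1,0)]⟩,.k,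
  (.r (-1) ⟨1,[(28,0),(20,0),(2,0)]⟩ ⟨4,[(12,0),(2,1),(4,0),(18,2),(0,3),(6,0)]⟩),⟨true,0,⟨0,[(54,
  0)]⟩,⟨0,[]⟩⟩,⟨false,1,⟨1,[(33,0),(0,0),(17,0)]⟩,⟨0,[]⟩⟩,⟨false,0,⟨0,[(50,0)]⟩,⟨0,[(49,0),(2,0)]⟩⟩,
  ⟨true,0,⟨0,[(50,0)]⟩,⟨0,[(49,0)]⟩⟩,[.o ⟨false,2,⟨1,[(33,1),(10,0),(7,0)]⟩,⟨6,[(0,5),(3,0),(9,0),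
  (9,2),(19,0)]⟩⟩,.a ⟨true,2,⟨0,[(33,0),(18,0)]⟩,⟨0,[(0,0),(16,0)]⟩⟩ ⟨false,1,⟨1,[(51,0),(0,0)]⟩,⟨0,
  [(54,0)]⟩⟩ ⟨true,1,⟨0,[(52,0)]⟩,⟨0,[(0,0),(2,0),(13,0)]⟩⟩,.e ⟨false,1,⟨1,[(33,0),(0,0),(17,0)]⟩,
  ⟨0,[]⟩⟩ ⟨false,1,⟨0,[(52,0)]⟩,⟨0,[(54,0)]⟩⟩,.o ⟨false,1,⟨0,[(3,0)]⟩,⟨0,[(8,0)]⟩⟩]⟩) (.R ⟨1,false,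
  false,false,[0,0,1],[0,0,0,0,1],[1,1],(⟨0,[(43,0)]⟩,⟨0,[(42,0)]⟩),(⟨0,[(36,0)]⟩,⟨0,[(35,0)]⟩),⟨0,
  [(32,0)]⟩,.k,.k,.k,.k,(.r (-1) ⟨7,[(0,1),(3,1),(4,1),(5,1),(12,2),(20,2),(2,2)]⟩ ⟨24,[(12,7),(2,
  0),(4,7),(18,18),(0,26),(6,2)]⟩),.k,⟨true,0,⟨0,[]⟩,⟨1,[(40,0),(0,0)]⟩⟩,⟨false,0,⟨2,[(7,0),(0,0),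
  (0,0),(3,0)]⟩,⟨19,[(0,7),(2,6),(8,1),(6,5),(0,1),(9,6),(2,4),(13,0)]⟩⟩,⟨false,0,⟨3,[(12,0),(5,2),
  (1,0),(4,0)]⟩,⟨3,[(15,1),(33,1),(1,0),(0,2)]⟩⟩,⟨false,0,⟨1,[(6,0),(27,0),(4,0)]⟩,⟨0,[(0,0)]⟩⟩,
  ⟨false,0,⟨1,[(12,0),(5,0),(1,0),(4,0)]⟩,⟨9,[(0,0),(2,0),(0,2),(4,1),(5,2),(17,0),(15,6),(2,7)]⟩⟩,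
  ⟨true,(-1),⟨0,[(4,0),(6,2),(5,0),(26,0)]⟩,⟨0,[(0,0),(48,0)]⟩⟩,[.o ⟨false,(-1),⟨0,[(4,0),(6,1),(5,
  0),(26,0)]⟩,⟨1,[(33,1),(10,0),(7,0)]⟩⟩,.a ⟨true,(-1),⟨0,[(7,0)]⟩,⟨0,[(33,0)]⟩⟩ ⟨true,0,⟨0,[]⟩,⟨1,
  [(40,0),(0,0)]⟩⟩ ⟨false,0,⟨2,[(7,0),(0,0),(0,0),(3,0)]⟩,⟨19,[(0,7),(2,6),(8,1),(6,5),(0,1),(9,6),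
  (2,4),(13,0)]⟩⟩,.o ⟨false,0,⟨0,[(25,0)]⟩,⟨4,[(3,1),(5,0),(3,2),(19,0),(10,0)]⟩⟩,.o ⟨false,0,⟨0,
  [(40,0)]⟩,⟨3,[(9,1),(23,0),(0,0),(9,0)]⟩⟩]⟩)) (.R ⟨0,false,false,false,[1,0,0,0,-1],[1,1,-1],[1,0,
  1,1,0,0,0,-1],(⟨0,[(34,0)]⟩,⟨0,[(35,0)]⟩),(⟨0,[(41,0),(3,0)]⟩,⟨0,[(31,0)]⟩),⟨0,[(0,0)]⟩,.k,.k,(.r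
  (-1) ⟨1,[(27,0),(20,0),(2,0)]⟩ ⟨4,[(11,0),(2,1),(4,0),(18,2),(0,3),(6,0)]⟩),(.r (-1) ⟨11,[(2,1),
  (0,3),(4,1),(5,3),(12,6),(4,1),(15,0),(2,2)]⟩ ⟨24,[(11,7),(2,0),(4,7),(18,18),(0,26),(6,2)]⟩),.k,
  .k,⟨true,0,⟨0,[]⟩,⟨1,[(39,0),(0,0)]⟩⟩,⟨false,0,⟨1,[(6,1),(1,0),(19,0),(14,0)]⟩,⟨0,[(32,0),(6,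
  0)]⟩⟩,⟨false,0,⟨0,[(10,0),(28,0)]⟩,⟨11,[(2,1),(0,3),(4,1),(5,3),(12,6),(4,1),(15,0),(2,2)]⟩⟩,
  ⟨true,(-1),⟨0,[(3,0),(6,2),(5,0),(26,0)]⟩,⟨9,[(2,3),(0,1),(9,3),(13,1),(4,7),(10,0),(7,0)]⟩⟩,
  ⟨false,0,⟨0,[]⟩,⟨0,[]⟩⟩,⟨false,0,⟨0,[]⟩,⟨0,[]⟩⟩,[.e ⟨false,0,⟨1,[(11,0),(5,0),(1,0),(4,0)]⟩,⟨3,
  [(14,1),(12,1),(20,3),(1,0),(0,0)]⟩⟩ ⟨false,0,⟨3,[(6,0),(0,1),(3,1),(3,0),(12,0)]⟩,⟨9,[(2,3),(0,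
  1),(9,3),(13,1),(4,7),(10,0),(7,0)]⟩⟩,.o ⟨false,1,⟨3,[(11,1),(31,0),(7,0)]⟩,⟨4,[(3,0),(9,0),(18,
  0),(4,1),(5,0),(4,1)]⟩⟩,.a ⟨true,1,⟨0,[(32,0)]⟩,⟨0,[(6,0)]⟩⟩ ⟨true,0,⟨0,[(10,0),(28,0)]⟩,⟨1,[(8,
  0),(4,0),(34,0)]⟩⟩ ⟨false,0,⟨2,[(5,1),(0,0),(4,0),(11,0)]⟩,⟨9,[(2,3),(0,1),(9,3),(13,1),(4,7),(10,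
  0),(7,0)]⟩⟩,.o ⟨false,1,⟨0,[(2,0)]⟩,⟨0,[(7,0)]⟩⟩]⟩)) (.R ⟨0,false,false,false,[0,0,0,0,1],[1,-1],
  [1],(⟨0,[(34,0)]⟩,⟨0,[(33,0)]⟩),(⟨0,[(43,0)]⟩,⟨0,[(44,0)]⟩),⟨0,[(0,0)]⟩,.k,.k,(.r 0 ⟨0,[(46,0)]⟩
  ⟨2,[(10,0),(2,0),(14,0),(2,0),(0,0),(5,0),(0,0),(10,0)]⟩),(.r 0 ⟨4,[(10,0),(2,1),(4,0),(18,2),(0,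
  3),(6,0)]⟩ ⟨1,[(26,0),(20,0),(2,0)]⟩),.k,.k,⟨false,0,⟨3,[(10,0),(7,0),(3,0)]⟩,⟨1,[(47,1),(1,0),(0,
  0)]⟩⟩,⟨true,1,⟨0,[(1,0)]⟩,⟨0,[(5,0)]⟩⟩,⟨false,1,⟨0,[(50,0)]⟩,⟨0,[(52,0)]⟩⟩,⟨true,2,⟨1,[(1,1),(24,
  0),(20,0),(2,0)]⟩,⟨0,[(2,0),(6,2),(5,1),(26,0)]⟩⟩,⟨false,0,⟨0,[]⟩,⟨0,[]⟩⟩,⟨false,0,⟨0,[]⟩,⟨0,[]⟩⟩,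
  [.o ⟨false,1,⟨1,[(42,0),(4,1),(2,0)]⟩,⟨0,[(48,0)]⟩⟩,.e ⟨false,1,⟨1,[(49,0),(0,0)]⟩,⟨0,[(52,0)]⟩⟩
  ⟨false,2,⟨0,[(1,0),(24,0)]⟩,⟨6,[(5,2),(4,0),(7,4),(13,3),(4,2)]⟩⟩,.a ⟨true,(-1),⟨0,[(5,0)]⟩,⟨0,
  [(31,0)]⟩⟩ ⟨true,0,⟨0,[]⟩,⟨0,[(52,0)]⟩⟩ ⟨false,2,⟨1,[(1,1),(24,0),(20,0),(2,0)]⟩,⟨3,[(5,3),(4,0),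
  (7,0),(3,0)]⟩⟩,.e ⟨false,1,⟨1,[(49,0),(0,0)]⟩,⟨1,[(38,0),(0,0)]⟩⟩ ⟨false,2,⟨0,[(1,0),(24,0)]⟩,⟨6,
  [(5,6),(4,1),(2,0),(4,1),(19,3),(0,1)]⟩⟩]⟩))))) (.Q [0,0,0,0,0,-1,0,0,0,1,0,-1] (.ed true [0,1,0,
  0,1] .k) (.R ⟨1,false,false,false,[1,0,0,0,-1],[1,-1,-1],[],(⟨0,[(30,0)]⟩,⟨0,[(31,0)]⟩),(⟨0,[(26,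
  0)]⟩,⟨0,[(38,0),(2,0)]⟩),⟨0,[(0,0)]⟩,.k,.k,(.r (-1) ⟨1,[(23,0),(20,0),(2,0)]⟩ ⟨4,[(7,0),(2,1),(4,
  0),(18,2),(0,3),(6,0)]⟩),(.r (-1) ⟨11,[(7,1),(2,7),(14,1),(2,4),(0,4),(5,1),(0,1),(10,4)]⟩ ⟨0,[(4,
  0),(4,0),(3,2),(31,2),(2,0)]⟩),.k,.k,⟨true,0,⟨6,[(7,0),(2,3),(4,0),(19,1),(0,0)]⟩,⟨0,[(13,0)]⟩⟩,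
  ⟨false,0,⟨0,[(8,0)]⟩,⟨2,[(1,2),(5,0),(8,0),(6,0),(1,0)]⟩⟩,⟨true,0,⟨0,[(49,0)]⟩,⟨0,[]⟩⟩,⟨false,0,
  ⟨0,[(8,0),(4,0)]⟩,⟨3,[(1,3),(5,0),(7,0),(3,0),(27,3)]⟩⟩,⟨false,0,⟨0,[(45,0)]⟩,⟨0,[(44,0),(2,0)]⟩⟩,
  ⟨false,0,⟨3,[(2,0),(4,0),(0,0),(4,0),(4,0),(10,1)]⟩,⟨0,[(1,0),(45,0)]⟩⟩,[.o ⟨false,1,⟨1,[(18,1),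
  (20,0),(7,0)]⟩,⟨0,[(19,0)]⟩⟩,.e ⟨false,1,⟨1,[(46,0),(0,0)]⟩,⟨0,[(49,0)]⟩⟩ ⟨false,1,⟨0,[(8,0),(7,
  0)]⟩,⟨3,[(1,3),(5,0),(7,0),(3,0)]⟩⟩,.a ⟨true,1,⟨0,[(28,0)]⟩,⟨0,[(2,0)]⟩⟩ ⟨false,1,⟨1,[(28,0),(0,
  0),(17,0)]⟩,⟨0,[]⟩⟩ ⟨true,0,⟨0,[(8,0),(4,0)]⟩,⟨3,[(1,3),(5,0),(7,0),(3,0)]⟩⟩,.o ⟨false,1,⟨7,[(1,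
  7),(5,1),(5,3),(21,1),(0,5),(2,2),(7,2)]⟩,⟨0,[(3,0)]⟩⟩]⟩) (.R ⟨0,false,false,false,[1,0,0,0,-1],
  [1,-1],[0,0,0,-1],(⟨0,[(30,0)]⟩,⟨0,[(31,0)]⟩),(⟨0,[(40,0)]⟩,⟨0,[(41,0)]⟩),⟨0,[(0,0)]⟩,.k,.k,(.r
  (-1) ⟨1,[(23,0),(20,0),(2,0)]⟩ ⟨4,[(7,0),(2,1),(4,0),(18,2),(0,3),(6,0)]⟩),(.r (-1) ⟨2,[(7,0),(2,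
  0),(14,0),(2,0),(0,0),(5,0),(0,0),(10,0)]⟩ ⟨0,[(43,0)]⟩),.k,.k,⟨true,0,⟨1,[(35,0),(0,0)]⟩,⟨0,[]⟩⟩,
  ⟨false,0,⟨0,[(29,0)]⟩,⟨11,[(1,5),(2,0),(2,1),(5,1),(9,1),(0,2),(3,5),(18,0)]⟩⟩,⟨true,0,⟨0,[(44,
  0)]⟩,⟨3,[(7,0),(7,0),(3,0)]⟩⟩,⟨false,0,⟨5,[(8,3),(0,1),(3,3),(15,1),(9,0),(7,0)]⟩,⟨0,[(1,0),(4,0),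
  (40,0)]⟩⟩,⟨false,0,⟨0,[]⟩,⟨0,[]⟩⟩,⟨false,0,⟨0,[]⟩,⟨0,[]⟩⟩,[.o ⟨false,1,⟨1,[(39,0),(4,1),(2,0)]⟩,
  ⟨0,[(45,0)]⟩⟩,.e ⟨false,1,⟨1,[(23,0),(20,0),(2,0)]⟩,⟨24,[(7,6),(2,3),(4,6),(18,0),(0,7),(6,11)]⟩⟩
  ⟨false,1,⟨1,[(23,0),(5,1),(14,0),(2,0)]⟩,⟨0,[(1,0),(4,0)]⟩⟩,.a ⟨true,1,⟨0,[(28,0)]⟩,⟨0,[(2,0)]⟩⟩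
  ⟨false,1,⟨0,[(44,0),(2,0)]⟩,⟨3,[(7,0),(7,0),(3,0)]⟩⟩ ⟨true,0,⟨5,[(8,3),(0,1),(3,3),(15,1),(9,0),
  (7,0)]⟩,⟨0,[(1,0),(4,0)]⟩⟩,.o ⟨false,1,⟨7,[(1,7),(5,1),(5,3),(21,1),(0,5),(2,2),(7,2)]⟩,⟨0,[(3,
  0)]⟩⟩]⟩))) (.Q [0,0,0,0,0,-1,0,0,0,1,0,-1] (.ed true [0,1,0,0,1] .k) (.Q [0,-1,0,0,1,0,0,0,-1,0,0,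
  1] (.p true [0,0,0,0,1] [] (⟨0,[(30,0)]⟩,⟨0,[(29,0)]⟩) .k 0 (⟨0,[]⟩,⟨0,[]⟩) .k .k) (.S ⟨1,0,[],[1,
  0,0,0,-1],[0,-1],(⟨0,[(30,0)]⟩,⟨0,[(31,0)]⟩),⟨0,[(1,0)]⟩,.k,(.r (-1) ⟨1,[(23,0),(20,0),(2,0)]⟩ ⟨4,
  [(7,0),(2,1),(4,0),(18,2),(0,3),(6,0)]⟩),⟨false,1,⟨1,[(28,0),(0,0),(17,0)]⟩,⟨0,[]⟩⟩,⟨true,0,⟨0,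
  [(49,0)]⟩,⟨0,[]⟩⟩,⟨true,0,⟨0,[(45,0)]⟩,⟨0,[(44,0)]⟩⟩,⟨false,0,⟨0,[(45,0)]⟩,⟨0,[(44,0),(2,0)]⟩⟩,
  [.o ⟨false,1,⟨0,[(2,0)]⟩,⟨0,[(29,0)]⟩⟩,.a ⟨true,1,⟨0,[(0,0)]⟩,⟨1,[(6,0),(1,0),(3,1),(0,0),(15,
  0)]⟩⟩ ⟨true,1,⟨0,[(47,0)]⟩,⟨0,[(6,0),(5,1),(0,0),(22,0),(2,0)]⟩⟩ ⟨false,1,⟨1,[(46,0),(0,0)]⟩,⟨0,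
  [(49,0)]⟩⟩,.o ⟨false,1,⟨0,[(2,0)]⟩,⟨0,[(29,0)]⟩⟩,.o ⟨false,1,⟨1,[(2,1),(32,0),(0,0)]⟩,⟨0,[(3,
  0)]⟩⟩]⟩) (.R ⟨2,false,false,false,[0,1],[0,0,0,0,1],[0,1,1],(⟨0,[]⟩,⟨0,[]⟩),(⟨0,[(31,0)]⟩,⟨0,[(30,
  0)]⟩),⟨0,[]⟩,.k,.k,.k,(.r (-1) ⟨2,[(7,0),(2,0),(14,0),(2,0),(0,0),(5,0),(0,0),(10,0)]⟩ ⟨0,[(43,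
  0)]⟩),.k,.k,⟨true,0,⟨1,[(35,0),(0,0)]⟩,⟨0,[]⟩⟩,⟨false,0,⟨0,[(29,0)]⟩,⟨1,[(2,0),(21,0),(3,0)]⟩⟩,
  ⟨true,0,⟨0,[(44,0)]⟩,⟨3,[(7,0),(7,0),(3,0)]⟩⟩,⟨false,0,⟨5,[(8,3),(0,1),(3,3),(15,1),(9,0),(7,0)]⟩,
  ⟨0,[(2,0),(3,0),(5,0),(34,0)]⟩⟩,⟨true,0,⟨0,[(49,0)]⟩,⟨0,[]⟩⟩,⟨true,(-1),⟨0,[(0,0)]⟩,⟨0,[(28,0)]⟩⟩,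
  [.o ⟨false,(-1),⟨0,[(0,0)]⟩,⟨1,[(28,1),(10,0),(7,0)]⟩⟩,.o ⟨false,0,⟨0,[(29,0)]⟩,⟨0,[(2,0)]⟩⟩,.a
  ⟨true,0,⟨1,[(24,0),(12,0),(0,0)]⟩,⟨1,[(35,0),(0,0)]⟩⟩ ⟨false,0,⟨1,[(35,0),(0,0)]⟩,⟨1,[(46,0),(0,
  0)]⟩⟩ ⟨true,(-1),⟨1,[(0,1),(34,0),(0,0)]⟩,⟨1,[(2,0),(21,0),(3,0)]⟩⟩,.e ⟨true,0,⟨0,[(49,0)]⟩,⟨0,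
  []⟩⟩ ⟨true,(-1),⟨0,[(0,0)]⟩,⟨0,[(28,0)]⟩⟩]⟩)) (.R ⟨0,false,false,true,[1,0,0,0,-1],[1,0,1,0,-1],
  [0,1,1],(⟨0,[(29,0)]⟩,⟨0,[(30,0)]⟩),(⟨0,[(29,0),(7,0)]⟩,⟨0,[(0,0),(24,0)]⟩),⟨0,[(0,0)]⟩,.k,.k,(.r
  (-1) ⟨1,[(22,0),(20,0),(2,0)]⟩ ⟨4,[(6,0),(2,1),(4,0),(18,2),(0,3),(6,0)]⟩),.k,.k,.k,⟨false,0,⟨12,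
  [(6,1),(6,5),(0,1),(18,4),(0,6),(6,0)]⟩,⟨3,[(9,1),(12,1),(22,0),(0,0)]⟩⟩,⟨true,0,⟨0,[(19,0)]⟩,⟨0,
  [(35,0)]⟩⟩,⟨true,(-1),⟨0,[(5,0),(5,1),(0,0),(22,0),(2,0)]⟩,⟨1,[(45,0),(0,0)]⟩⟩,⟨false,0,⟨0,[(16,
  0)]⟩,⟨0,[(33,0),(12,0)]⟩⟩,⟨false,0,⟨0,[]⟩,⟨0,[]⟩⟩,⟨false,0,⟨0,[]⟩,⟨0,[]⟩⟩,[.o ⟨false,1,⟨5,[(1,5),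
  (6,1),(9,1),(19,0),(7,0)]⟩,⟨1,[(5,0),(1,0),(4,0),(15,0)]⟩⟩,.a ⟨true,1,⟨0,[(1,0),(9,0),(34,0)]⟩,⟨0,
  [(5,0),(1,0),(3,0),(0,0)]⟩⟩ ⟨true,0,⟨1,[(34,0),(0,0)]⟩,⟨0,[]⟩⟩ ⟨false,1,⟨5,[(8,1),(9,1),(19,0),(6,
  2),(0,3)]⟩,⟨0,[(33,0)]⟩⟩,.o ⟨false,1,⟨0,[(1,0)]⟩,⟨0,[(28,0)]⟩⟩,.o ⟨false,1,⟨1,[(1,1),(32,0),(0,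
  0)]⟩,⟨0,[(2,0)]⟩⟩]⟩))) (.K ⟨0,[0,0,0,0,1],0,(-1),(⟨0,[(28,0)]⟩,⟨0,[(27,0)]⟩),.k,(.r 0 ⟨0,[(40,
  0)]⟩ ⟨2,[(4,0),(2,0),(14,0),(2,0),(0,0),(5,0),(0,0),(10,0)]⟩),(.r 0 ⟨4,[(4,0),(2,1),(4,0),(18,2),
  (0,3),(6,0)]⟩ ⟨1,[(20,0),(20,0),(2,0)]⟩),.k,.k,[⟨0,[(5,0)]⟩,⟨0,[(0,0)]⟩,⟨0,[(25,0)]⟩,⟨0,[(8,
  0)]⟩]⟩)))) (.R ⟨1,false,false,false,[1,-1],[1,0,-1],[0,0,1],(⟨0,[(34,0)]⟩,⟨0,[(35,0)]⟩),(⟨0,[(31,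
  0)]⟩,⟨0,[(32,0)]⟩),⟨0,[(20,0),(0,0)]⟩,.k,.k,(.r (-1) ⟨0,[(17,0),(20,0)]⟩ ⟨6,[(1,3),(2,1),(4,3),
  (19,7),(0,3)]⟩),.k,(.r (-1) ⟨6,[(0,0),(3,2),(10,1),(1,6),(12,0),(7,4)]⟩ ⟨7,[(1,5),(5,1),(1,5),(19,
  10),(0,4)]⟩),.k,⟨true,0,⟨5,[(0,1),(3,1),(24,0),(0,2)]⟩,⟨3,[(1,0),(5,2),(1,0),(4,0)]⟩⟩,⟨false,1,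
  ⟨27,[(1,8),(2,13),(7,9),(2,6),(1,7),(0,8),(21,10)]⟩,⟨0,[(29,0)]⟩⟩,⟨true,0,⟨13,[(1,3),(2,1),(4,3),
  (19,14),(0,10)]⟩,⟨0,[(16,0)]⟩⟩,⟨false,1,⟨7,[(1,3),(0,1),(16,0),(2,1),(8,2),(0,2),(8,1)]⟩,⟨0,[(0,
  0)]⟩⟩,⟨true,0,⟨6,[(1,3),(2,1),(4,3),(19,7),(0,3)]⟩,⟨0,[(15,0)]⟩⟩,⟨true,0,⟨0,[(1,0),(4,0)]⟩,⟨0,[(0,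
  0),(37,0)]⟩⟩,[.o ⟨false,1,⟨7,[(1,1),(10,3),(9,1),(0,1),(9,2),(7,0)]⟩,⟨0,[(11,0)]⟩⟩,.e ⟨false,1,⟨1,
  [(22,0),(0,0),(17,0)]⟩,⟨11,[(1,0),(7,0),(3,0),(2,3),(19,3)]⟩⟩ ⟨false,1,⟨1,[(1,0),(13,0),(2,0),(22,
  0)]⟩,⟨2,[(4,0),(22,0),(1,1),(8,0),(4,0)]⟩⟩,.a ⟨true,0,⟨1,[(29,0),(0,0)]⟩,⟨1,[(18,0),(12,0),(0,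
  0)]⟩⟩ ⟨true,0,⟨1,[(29,0),(0,0)]⟩,⟨11,[(1,0),(7,0),(3,0),(2,3),(19,3)]⟩⟩ ⟨false,1,⟨16,[(1,4),(0,0),
  (7,0),(1,5),(4,2),(0,4),(3,0),(18,6)]⟩,⟨2,[(0,0),(3,0),(24,1)]⟩⟩,.e ⟨false,1,⟨1,[(22,0),(0,0),(17,
  0)]⟩,⟨0,[]⟩⟩ ⟨false,1,⟨1,[(1,0),(13,0),(2,0),(22,0)]⟩,⟨5,[(0,1),(3,1),(24,6),(0,2)]⟩⟩]⟩)) (.Q [0,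
  0,0,2,0,0,-1,-1,0,0,1] (.p true [0,0,1] [] (⟨0,[(31,0)]⟩,⟨0,[(30,0)]⟩) .k 0 (⟨0,[]⟩,⟨0,[]⟩) .k
  .k) (.R ⟨1,false,false,false,[1,-1],[1,0,-1],[0,0,1],(⟨0,[(34,0)]⟩,⟨0,[(35,0)]⟩),(⟨0,[(31,0)]⟩,⟨0,
  [(32,0)]⟩),⟨0,[(20,0),(0,0)]⟩,.k,.k,(.r (-1) ⟨0,[(17,0),(20,0)]⟩ ⟨4,[(0,3),(3,1),(24,5),(0,1)]⟩),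
  .k,(.r (-1) ⟨23,[(1,1),(2,9),(10,5),(1,24),(12,3),(2,0),(4,16)]⟩ ⟨1,[(0,1),(28,2),(0,0)]⟩),.k,
  ⟨true,0,⟨11,[(1,1),(2,3),(24,1),(0,5),(2,0),(7,0)]⟩,⟨2,[(0,0),(6,1),(6,0)]⟩⟩,⟨false,1,⟨11,[(0,3),
  (3,1),(11,4),(0,4),(12,7),(9,6)]⟩,⟨0,[(29,0)]⟩⟩,⟨true,0,⟨9,[(0,3),(3,1),(24,10),(0,6)]⟩,⟨0,[(16,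
  0)]⟩⟩,⟨false,1,⟨3,[(0,1),(21,0),(0,0),(4,1),(12,2)]⟩,⟨3,[(1,1),(31,0),(7,0)]⟩⟩,⟨true,0,⟨4,[(0,3),
  (3,1),(24,5),(0,1)]⟩,⟨0,[(15,0)]⟩⟩,⟨true,0,⟨0,[(0,0)]⟩,⟨3,[(1,1),(31,0),(4,3),(2,0)]⟩⟩,[.o ⟨false,
  1,⟨1,[(28,1),(4,0),(7,0)]⟩,⟨0,[(11,0)]⟩⟩,.e ⟨false,1,⟨1,[(22,0),(0,0),(17,0)]⟩,⟨8,[(0,0),(12,0),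
  (2,2),(19,2)]⟩⟩ ⟨false,1,⟨0,[(0,0),(14,0),(25,0)]⟩,⟨2,[(4,0),(22,0),(1,1),(8,0),(4,0)]⟩⟩,.a ⟨true,
  0,⟨1,[(29,0),(0,0)]⟩,⟨1,[(18,0),(12,0),(0,0)]⟩⟩ ⟨true,0,⟨1,[(29,0),(0,0)]⟩,⟨8,[(0,0),(12,0),(2,2),
  (19,2)]⟩⟩ ⟨false,1,⟨1,[(0,0),(11,0),(4,0),(23,0)]⟩,⟨11,[(1,1),(2,3),(24,7),(3,0),(7,0)]⟩⟩,.e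
  ⟨false,1,⟨1,[(22,0),(0,0),(17,0)]⟩,⟨0,[]⟩⟩ ⟨false,1,⟨0,[(0,0),(14,0),(25,0)]⟩,⟨11,[(1,1),(2,3),
  (24,13),(0,5),(2,0),(7,0)]⟩⟩]⟩) (.Q [0,0,0,0,1,0,0,0,-1,-1,0,1] (.p true [0,0,0,0,1] [1] (⟨0,[(25,
  0)]⟩,⟨0,[(24,0)]⟩) .k 1 (⟨0,[]⟩,⟨0,[]⟩) .k .k) (.Q [0,0,0,0,0,0,0,0,0,0,1,-1] (.ed true [1,0,-1,0,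
  1] (.r 0 ⟨0,[(15,0),(13,0)]⟩ ⟨9,[(1,1),(1,1),(1,3),(17,2),(0,0),(16,1),(0,4)]⟩)) (.Q [0,0,-1,0,0,
  0,1,0,-1,1,-1,1] (.p true [1,0,-1,0,1] [] (⟨0,[(27,0),(5,0)]⟩,⟨0,[(0,0)]⟩) .k 0 (⟨0,[]⟩,⟨0,[]⟩)
  .k (.r 0 ⟨0,[(16,0),(13,0)]⟩ ⟨9,[(2,1),(1,1),(1,3),(17,2),(0,0),(16,1),(0,4)]⟩)) (.R ⟨1,false,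
  false,false,[1,0,-1,0,1],[0,0,0,0,1],[1,1,0,-1,0,0,0,-1],(⟨0,[(28,0),(5,0)]⟩,⟨0,[(1,0)]⟩),(⟨0,
  [(28,0)]⟩,⟨0,[(27,0)]⟩),⟨0,[(23,0),(4,0)]⟩,.k,.k,(.r 0 ⟨0,[(3,0),(6,1),(8,0),(13,0),(8,3)]⟩ ⟨2,
  [(7,1),(17,0),(0,0),(4,0),(0,0),(9,0),(1,1)]⟩),.k,.k,.k,⟨true,0,⟨0,[(10,0)]⟩,⟨3,[(7,1),(24,0),(0,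
  0),(8,1)]⟩⟩,⟨false,0,⟨0,[(29,0)]⟩,⟨0,[(2,0),(2,0)]⟩⟩,⟨false,1,⟨0,[(41,0),(2,0)]⟩,⟨0,[(42,0)]⟩⟩,
  ⟨false,0,⟨0,[(9,0),(34,0)]⟩,⟨1,[(31,1),(4,0),(7,0)]⟩⟩,⟨true,0,⟨0,[]⟩,⟨0,[(46,0)]⟩⟩,⟨false,0,⟨0,
  [(12,0),(31,0)]⟩,⟨1,[(15,1),(20,0),(7,0)]⟩⟩,[.a ⟨true,(-1),⟨0,[(5,0),(4,0),(1,0)]⟩,⟨1,[(0,0),(1,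
  0),(30,0),(10,0)]⟩⟩ ⟨false,0,⟨0,[(11,0)]⟩,⟨3,[(7,1),(17,0),(0,0),(15,1),(0,0),(0,1)]⟩⟩ ⟨true,(-1),
  ⟨0,[(10,0),(1,0)]⟩,⟨1,[(33,1),(2,0),(7,0)]⟩⟩,.o ⟨false,0,⟨0,[(26,0)]⟩,⟨0,[(2,0)]⟩⟩,.a ⟨true,0,⟨0,
  [(5,0)]⟩,⟨1,[(0,1),(31,0),(0,0)]⟩⟩ ⟨false,0,⟨0,[(10,0)]⟩,⟨3,[(7,1),(17,0),(0,0),(15,1),(0,0),(0,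
  1)]⟩⟩ ⟨true,(-1),⟨0,[(10,0),(1,0)]⟩,⟨0,[(2,0),(2,0)]⟩⟩,.a ⟨true,0,⟨0,[(26,0),(6,0)]⟩,⟨0,[(0,0)]⟩⟩
  ⟨true,0,⟨0,[(11,0)]⟩,⟨3,[(7,1),(24,0),(0,0),(8,1)]⟩⟩ ⟨false,0,⟨0,[(29,0)]⟩,⟨1,[(33,1),(2,0),(7,
  0)]⟩⟩]⟩) (.Q [0,0,0,0,0,1,0,0,0,0,0,-1] (.ed true [1,-1,0,0,1] .k) (.Q [0,0,0,-1,-1,0,1,1,1,1,-1,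
  -1] (.p false [0,0,1] [1,0,0,0,-1] (⟨0,[(36,0)]⟩,⟨0,[(35,0)]⟩) .k 2 (⟨0,[(28,0)]⟩,⟨0,[(29,0)]⟩)
  .k (.r 0 ⟨9,[(8,4),(10,0),(20,2),(1,2)]⟩ ⟨1,[(14,0),(17,0),(0,0),(9,0),(1,0)]⟩)) (.R ⟨0,false,
  false,false,[0,0,0,0,1],[0,0,1,0,1],[1,0,1],(⟨0,[(30,0)]⟩,⟨0,[(29,0)]⟩),(⟨0,[(30,0),(6,0)]⟩,⟨0,
  [(1,0),(23,0)]⟩),⟨0,[(1,0)]⟩,.k,.k,(.r 0 ⟨0,[(42,0)]⟩ ⟨5,[(9,1),(17,0),(0,0),(4,3),(0,3),(9,3),(1,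
  4)]⟩),.k,.k,.k,⟨false,1,⟨1,[(15,0),(17,0),(0,0),(9,0),(1,0)]⟩,⟨5,[(9,2),(11,3),(19,0),(2,0)]⟩⟩,
  ⟨true,0,⟨0,[(19,0)]⟩,⟨0,[(35,0)]⟩⟩,⟨false,1,⟨1,[(34,0),(0,0),(10,1)]⟩,⟨2,[(21,0),(19,0),(2,0)]⟩⟩,
  ⟨true,0,⟨0,[(16,0)]⟩,⟨0,[(33,0)]⟩⟩,⟨false,0,⟨0,[]⟩,⟨0,[]⟩⟩,⟨false,0,⟨0,[]⟩,⟨0,[]⟩⟩,[.e ⟨false,0,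
  ⟨0,[]⟩,⟨1,[(27,0),(0,0),(16,0)]⟩⟩ ⟨false,0,⟨7,[(8,1),(9,3),(2,1),(16,0),(2,1),(3,0)]⟩,⟨0,[(33,0),
  (12,0)]⟩⟩,.a ⟨true,(-1),⟨0,[(0,0),(43,0)]⟩,⟨1,[(4,0),(7,1),(10,0),(3,0),(7,1),(8,1)]⟩⟩ ⟨false,1,
  ⟨1,[(27,0),(0,0),(17,0)]⟩,⟨2,[(21,0),(19,0),(2,0)]⟩⟩ ⟨true,0,⟨0,[(16,0)]⟩,⟨0,[(12,0),(22,0),(8,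
  0)]⟩⟩,.o ⟨false,0,⟨0,[(28,0)]⟩,⟨0,[(4,0)]⟩⟩,.e ⟨true,0,⟨0,[]⟩,⟨0,[(48,0)]⟩⟩ ⟨true,0,⟨7,[(8,1),(9,
  3),(2,1),(16,0),(2,1),(3,0)]⟩,⟨0,[(12,0),(22,0),(8,0)]⟩⟩]⟩) (.Q [0,-1,0,0,1,0,0,0,-1,0,0,1] (.p
  true [0,0,0,0,1] [] (⟨0,[(30,0)]⟩,⟨0,[(29,0)]⟩) .k 0 (⟨0,[]⟩,⟨0,[]⟩) .k .k) (.S ⟨1,0,[],[1,0,0,0,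
  -1],[0,-1],(⟨0,[(30,0)]⟩,⟨0,[(31,0)]⟩),⟨0,[(4,0),(21,0)]⟩,.k,(.r (-1) ⟨1,[(23,0),(20,0),(2,0)]⟩
  ⟨2,[(10,0),(8,0),(14,2),(0,1),(9,0)]⟩),⟨false,1,⟨1,[(28,0),(0,0),(17,0)]⟩,⟨0,[]⟩⟩,⟨true,0,⟨0,[(49,
  0)]⟩,⟨0,[]⟩⟩,⟨true,0,⟨0,[(45,0)]⟩,⟨0,[(44,0)]⟩⟩,⟨false,0,⟨0,[(45,0)]⟩,⟨0,[(44,0),(2,0)]⟩⟩,[.o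
  ⟨false,1,⟨0,[(5,0)]⟩,⟨0,[(29,0)]⟩⟩,.a ⟨true,1,⟨0,[(0,0)]⟩,⟨0,[(8,0),(4,0),(1,0)]⟩⟩ ⟨true,1,⟨0,
  [(47,0)]⟩,⟨0,[(1,0),(1,0),(8,1),(0,0)]⟩⟩ ⟨false,1,⟨1,[(46,0),(0,0)]⟩,⟨0,[(49,0)]⟩⟩,.o ⟨false,1,⟨0,
  [(5,0)]⟩,⟨0,[(29,0)]⟩⟩,.o ⟨false,1,⟨1,[(5,1),(29,0),(0,0)]⟩,⟨0,[(3,0),(16,0),(3,0)]⟩⟩]⟩) (.R ⟨2,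
  false,false,false,[0,1],[0,0,0,0,1],[0,1,1],(⟨0,[]⟩,⟨0,[]⟩),(⟨0,[(31,0)]⟩,⟨0,[(30,0)]⟩),⟨0,[]⟩,.k,
  .k,.k,(.r (-1) ⟨7,[(1,3),(8,1),(14,3),(3,3),(5,0),(0,4),(8,1),(1,3)]⟩ ⟨0,[(43,0)]⟩),.k,.k,⟨true,0,
  ⟨1,[(35,0),(0,0)]⟩,⟨0,[]⟩⟩,⟨false,0,⟨0,[(29,0)]⟩,⟨1,[(5,0),(18,0),(3,0)]⟩⟩,⟨true,0,⟨0,[(44,0)]⟩,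
  ⟨0,[(45,0)]⟩⟩,⟨false,0,⟨2,[(6,0),(1,0),(4,0),(15,1)]⟩,⟨0,[(1,0),(10,0),(34,0)]⟩⟩,⟨true,0,⟨0,[(49,
  0)]⟩,⟨0,[]⟩⟩,⟨true,(-1),⟨0,[(0,0)]⟩,⟨0,[(28,0)]⟩⟩,[.o ⟨false,(-1),⟨0,[(0,0)]⟩,⟨1,[(28,1),(10,0),
  (7,0)]⟩⟩,.o ⟨false,0,⟨0,[(29,0)]⟩,⟨0,[(5,0)]⟩⟩,.a ⟨true,0,⟨1,[(24,0),(12,0),(0,0)]⟩,⟨1,[(35,0),(0,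
  0)]⟩⟩ ⟨false,0,⟨1,[(35,0),(0,0)]⟩,⟨1,[(46,0),(0,0)]⟩⟩ ⟨true,(-1),⟨1,[(0,1),(34,0),(0,0)]⟩,⟨1,[(5,
  0),(18,0),(3,0)]⟩⟩,.e ⟨true,0,⟨0,[(49,0)]⟩,⟨0,[]⟩⟩ ⟨true,(-1),⟨0,[(0,0)]⟩,⟨0,[(28,0)]⟩⟩]⟩))) (.Q
  [0,0,0,0,-1,0,1,1,1,1,-1,-1] (.p false [0,0,1] [1,0,0,0,-1] (⟨0,[(36,0)]⟩,⟨0,[(35,0)]⟩) .k 2 (⟨0,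
  [(28,0)]⟩,⟨0,[(29,0)]⟩) .k (.r 0 ⟨9,[(8,4),(10,0),(20,2),(1,2)]⟩ ⟨1,[(14,0),(17,0),(0,0),(9,0),(1,
  0)]⟩)) (.S ⟨1,0,[0,1],[0,0,0,0,1],[0,2],(⟨0,[(30,0)]⟩,⟨0,[(29,0)]⟩),⟨0,[(1,0)]⟩,.k,(.r 0 ⟨0,[(42,
  0)]⟩ ⟨5,[(9,1),(17,0),(0,0),(4,3),(0,3),(9,3),(1,4)]⟩),⟨true,0,⟨0,[(48,0)]⟩,⟨0,[]⟩⟩,⟨false,1,⟨1,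
  [(27,0),(0,0),(17,0)]⟩,⟨0,[]⟩⟩,⟨false,0,⟨0,[(44,0)]⟩,⟨0,[(43,0),(2,0)]⟩⟩,⟨true,0,⟨0,[(44,0)]⟩,⟨0,
  [(43,0)]⟩⟩,[.e ⟨false,0,⟨0,[(41,0)]⟩,⟨0,[(46,0)]⟩⟩ ⟨false,0,⟨2,[(21,0),(19,0),(2,0)]⟩,⟨1,[(27,0),
  (0,0),(17,0)]⟩⟩,.o ⟨false,0,⟨0,[(28,0)]⟩,⟨0,[(4,0)]⟩⟩,.o ⟨false,0,⟨0,[(28,0)]⟩,⟨0,[(4,0)]⟩⟩,.a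
  ⟨true,(-1),⟨0,[(0,0),(11,0),(22,0),(8,0)]⟩,⟨1,[(4,0),(18,0),(3,0)]⟩⟩ ⟨false,0,⟨2,[(21,0),(19,0),
  (2,0)]⟩,⟨1,[(34,0),(0,0),(10,1)]⟩⟩ ⟨true,0,⟨2,[(21,0),(19,0),(2,0)]⟩,⟨1,[(34,0),(0,0)]⟩⟩]⟩) (.S
  ⟨1,0,[],[1,0,0,0,-1],[0,-1],(⟨0,[(29,0)]⟩,⟨0,[(30,0)]⟩),⟨0,[(3,0),(21,0)]⟩,.k,(.r (-1) ⟨1,[(22,0),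
  (20,0),(2,0)]⟩ ⟨2,[(9,0),(8,0),(14,2),(0,1),(9,0)]⟩),⟨false,1,⟨1,[(27,0),(0,0),(17,0)]⟩,⟨0,[]⟩⟩,
  ⟨true,0,⟨0,[(48,0)]⟩,⟨0,[]⟩⟩,⟨true,0,⟨0,[(44,0)]⟩,⟨0,[(43,0)]⟩⟩,⟨false,0,⟨0,[(44,0)]⟩,⟨0,[(43,0),
  (2,0)]⟩⟩,[.o ⟨false,1,⟨0,[(4,0)]⟩,⟨0,[(28,0)]⟩⟩,.a ⟨true,1,⟨0,[(0,0),(10,0),(34,0)]⟩,⟨0,[(7,0),(4,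
  0),(1,0)]⟩⟩ ⟨true,1,⟨0,[(46,0)]⟩,⟨0,[(0,0),(1,0),(8,0),(0,0),(1,0)]⟩⟩ ⟨false,1,⟨1,[(45,0),(0,0)]⟩,
  ⟨0,[(48,0)]⟩⟩,.o ⟨false,1,⟨0,[(4,0)]⟩,⟨0,[(28,0)]⟩⟩,.o ⟨false,1,⟨1,[(4,1),(29,0),(0,0)]⟩,⟨0,[(2,
  0),(16,0),(3,0)]⟩⟩]⟩)))) (.Q [0,0,1,0,-1,0,0,0,1,1,0,-1] (.p false [0,0,0,0,1] [1] (⟨0,[(27,0)]⟩,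
  ⟨0,[(26,0)]⟩) .k 1 (⟨0,[]⟩,⟨0,[]⟩) .k .k) (.S ⟨1,0,[0,1],[0,0,0,0,1],[0,2],(⟨0,[(28,0)]⟩,⟨0,[(27,
  0)]⟩),⟨0,[(1,0),(22,0)]⟩,.k,(.r 0 ⟨0,[(40,0)]⟩ ⟨5,[(7,1),(17,0),(0,0),(4,3),(0,3),(9,3),(1,4)]⟩),
  ⟨true,0,⟨0,[(46,0)]⟩,⟨0,[]⟩⟩,⟨false,1,⟨1,[(25,0),(0,0),(17,0)]⟩,⟨0,[]⟩⟩,⟨false,0,⟨0,[(42,0)]⟩,⟨0,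
  [(41,0),(2,0)]⟩⟩,⟨true,0,⟨0,[(42,0)]⟩,⟨0,[(41,0)]⟩⟩,[.e ⟨false,0,⟨0,[(39,0)]⟩,⟨0,[(44,0)]⟩⟩
  ⟨false,0,⟨2,[(19,0),(19,0),(2,0)]⟩,⟨1,[(25,0),(0,0),(17,0)]⟩⟩,.o ⟨false,0,⟨0,[(26,0)]⟩,⟨0,[(2,
  0)]⟩⟩,.o ⟨false,0,⟨0,[(26,0)]⟩,⟨0,[(2,0)]⟩⟩,.a ⟨true,(-1),⟨0,[(0,0)]⟩,⟨1,[(2,0),(18,0),(3,0)]⟩⟩
  ⟨false,0,⟨2,[(19,0),(19,0),(2,0)]⟩,⟨1,[(32,0),(0,0),(10,1)]⟩⟩ ⟨true,0,⟨2,[(19,0),(19,0),(2,0)]⟩,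
  ⟨1,[(32,0),(0,0)]⟩⟩]⟩) (.Q [0,0,0,0,0,1,0,0,0,0,1,-1] (.p true [0,0,1] [0,0,0,0,1] (⟨0,[(35,0)]⟩,
  ⟨0,[(34,0)]⟩) .k 2 (⟨0,[(28,0)]⟩,⟨0,[(27,0)]⟩) .k (.r (-1) ⟨9,[(3,1),(1,1),(1,3),(17,2),(0,0),(16,
  1),(0,4)]⟩ ⟨0,[(17,0),(13,0)]⟩)) (.R ⟨0,false,false,false,[0,0,-1,0,1],[0,0,0,0,1],[0,0,1],(⟨0,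
  [(2,0)]⟩,⟨0,[(0,0),(37,0)]⟩),(⟨0,[(29,0)]⟩,⟨0,[(28,0)]⟩),⟨0,[(0,0)]⟩,.k,.k,(.r 0 ⟨0,[(4,0),(6,1),
  (8,0),(13,0),(8,3)]⟩ ⟨2,[(8,1),(17,0),(0,0),(4,0),(0,0),(9,0),(1,1)]⟩),.k,.k,.k,⟨false,1,⟨1,[(26,
  0),(0,0),(17,0)]⟩,⟨2,[(20,0),(19,0),(2,0)]⟩⟩,⟨true,0,⟨0,[(18,0)]⟩,⟨0,[(34,0)]⟩⟩,⟨false,1,⟨4,[(4,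
  0),(3,1),(24,0),(0,1),(10,4)]⟩,⟨0,[(12,0),(30,0)]⟩⟩,⟨true,0,⟨0,[(15,0)]⟩,⟨0,[(32,0)]⟩⟩,⟨false,0,
  ⟨0,[]⟩,⟨0,[]⟩⟩,⟨false,0,⟨0,[]⟩,⟨0,[]⟩⟩,[.a ⟨true,(-1),⟨0,[(6,0),(4,0),(1,0)]⟩,⟨0,[(1,0),(9,0),(1,
  0),(20,0),(10,0)]⟩⟩ ⟨true,0,⟨1,[(33,0),(0,0)]⟩,⟨0,[]⟩⟩ ⟨false,0,⟨0,[(12,0),(4,0)]⟩,⟨1,[(34,1),(9,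
  0),(0,0)]⟩⟩,.o ⟨false,0,⟨0,[(27,0)]⟩,⟨0,[(3,0)]⟩⟩,.o ⟨false,0,⟨0,[(6,0)]⟩,⟨0,[(3,0),(14,0)]⟩⟩,.o
  ⟨false,0,⟨0,[(27,0),(6,0)]⟩,⟨0,[(1,0),(16,0)]⟩⟩]⟩) (.R ⟨1,false,false,true,[0,0,-1,0,1],[0,0,0,0,
  1],[1,1,0,-1,0,0,0,-1],(⟨0,[(2,0)]⟩,⟨0,[(28,0),(7,0)]⟩),(⟨0,[(29,0)]⟩,⟨0,[(28,0)]⟩),⟨0,[(0,0)]⟩,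
  .k,.k,(.r 0 ⟨0,[(4,0),(6,1),(8,0),(13,0),(8,3)]⟩ ⟨2,[(8,1),(17,0),(0,0),(4,0),(0,0),(9,0),(1,
  1)]⟩),.k,.k,.k,⟨false,1,⟨0,[(14,0)]⟩,⟨1,[(8,0),(31,0),(2,0)]⟩⟩,⟨true,0,⟨0,[(18,0)]⟩,⟨0,[(34,0)]⟩⟩,
  ⟨false,1,⟨0,[(42,0),(2,0)]⟩,⟨0,[(43,0)]⟩⟩,⟨false,0,⟨0,[(15,0)]⟩,⟨0,[(32,0),(12,0)]⟩⟩,⟨true,0,⟨0,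
  []⟩,⟨0,[(47,0)]⟩⟩,⟨false,0,⟨0,[(17,0)]⟩,⟨0,[(16,0),(28,0)]⟩⟩,[.o ⟨false,(-1),⟨0,[(9,0)]⟩,⟨0,[(3,
  0),(41,0)]⟩⟩,.a ⟨true,(-1),⟨0,[(6,0),(4,0),(1,0)]⟩,⟨0,[(1,0),(9,0),(1,0),(20,0),(10,0)]⟩⟩ ⟨true,0,
  ⟨0,[(11,0)]⟩,⟨3,[(8,1),(24,0),(0,0),(8,1)]⟩⟩ ⟨false,0,⟨0,[(12,0),(4,0)]⟩,⟨1,[(34,1),(9,0),(0,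
  0)]⟩⟩,.o ⟨false,0,⟨0,[(6,0)]⟩,⟨0,[(3,0),(14,0)]⟩⟩,.o ⟨false,0,⟨0,[(27,0),(6,0)]⟩,⟨0,[(1,0),(16,
  0)]⟩⟩]⟩)))) (.Q [0,0,-1,0,1,0,1,1,-1,0,-1,1] (.p false [0,0,1] [0,0,0,0,1] (⟨0,[(33,0)]⟩,⟨0,[(32,
  0)]⟩) .k 2 (⟨0,[(26,0)]⟩,⟨0,[(25,0)]⟩) .k (.r (-1) ⟨9,[(1,1),(1,1),(1,3),(17,2),(0,0),(16,1),(0,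
  4)]⟩ ⟨0,[(15,0),(13,0)]⟩)) (.Q [0,1,0,1,0,0,1,1,-1,0,-1,1] (.p false [0,0,1] [0,0,0,0,1] (⟨0,[(34,
  0)]⟩,⟨0,[(33,0)]⟩) .k 2 (⟨0,[(27,0)]⟩,⟨0,[(26,0)]⟩) .k (.r (-1) ⟨13,[(0,3),(1,1),(1,5),(1,3),(17,
  2),(0,0),(17,6)]⟩ ⟨0,[(16,0),(13,0)]⟩)) (.Q [0,0,0,0,0,1,0,0,0,0,0,-1] (.ed true [1,-1,0,0,1] .k)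
  (.R ⟨0,false,false,true,[0,0,0,0,1],[1,-1],[1,1],(⟨0,[(29,0)]⟩,⟨0,[(28,0)]⟩),(⟨0,[(38,0)]⟩,⟨0,
  [(39,0)]⟩),⟨0,[(0,0)]⟩,.k,.k,(.r 0 ⟨0,[(41,0)]⟩ ⟨5,[(8,1),(17,0),(0,0),(4,3),(0,3),(9,3),(1,4)]⟩),
  (.r 0 ⟨2,[(8,0),(8,0),(14,2),(0,1),(9,0)]⟩ ⟨1,[(21,0),(20,0),(2,0)]⟩),.k,.k,⟨false,0,⟨0,[(43,0)]⟩,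
  ⟨1,[(42,1),(1,0),(0,0)]⟩⟩,⟨true,1,⟨1,[(1,1),(9,1),(22,1),(2,0),(7,0)]⟩,⟨0,[(3,0)]⟩⟩,⟨true,0,⟨0,
  []⟩,⟨0,[(47,0)]⟩⟩,⟨false,2,⟨9,[(1,1),(2,1),(6,3),(7,1),(6,7),(7,3),(2,4),(7,6)]⟩,⟨0,[(3,0),(39,
  0)]⟩⟩,⟨false,0,⟨0,[]⟩,⟨0,[]⟩⟩,⟨false,0,⟨0,[]⟩,⟨0,[]⟩⟩,[.e ⟨false,0,⟨2,[(20,0),(19,0),(2,0)]⟩,⟨1,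
  [(26,0),(0,0),(17,0)]⟩⟩ ⟨false,1,⟨1,[(1,1),(9,1),(8,0),(0,0),(12,1),(2,0)]⟩,⟨15,[(3,9),(2,5),(1,
  1),(13,0),(0,4),(8,3),(10,13),(1,9)]⟩⟩,.o ⟨false,1,⟨1,[(37,0),(4,1),(2,0)]⟩,⟨0,[(43,0)]⟩⟩,.a
  ⟨true,(-1),⟨0,[(3,0)]⟩,⟨0,[(26,0)]⟩⟩ ⟨false,0,⟨0,[]⟩,⟨1,[(26,0),(0,0),(17,0)]⟩⟩ ⟨true,1,⟨9,[(1,4),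
  (2,1),(6,3),(4,2),(2,1),(6,4),(7,3),(2,4)]⟩,⟨0,[(3,0),(39,0)]⟩⟩,.e ⟨true,0,⟨2,[(20,0),(19,0),(2,
  0)]⟩,⟨1,[(33,0),(0,0)]⟩⟩ ⟨true,1,⟨1,[(1,1),(9,1),(8,0),(0,0),(12,1),(2,0)]⟩,⟨1,[(3,1),(29,0),(0,
  0),(8,1)]⟩⟩]⟩) (.Q [0,0,0,0,0,1,0,0,0,-1,0,1] (.ed false [0,1,0,0,1] .k) (.R ⟨0,false,false,false,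
  [1,0,0,0,-1],[1,-1,-1],[],(⟨0,[(29,0)]⟩,⟨0,[(30,0)]⟩),(⟨0,[(25,0)]⟩,⟨0,[(37,0),(2,0)]⟩),⟨0,[(0,
  0)]⟩,.k,.k,(.r (-1) ⟨1,[(22,0),(20,0),(2,0)]⟩ ⟨2,[(9,0),(8,0),(14,2),(0,1),(9,0)]⟩),(.r (-1) ⟨2,
  [(9,1),(17,0),(0,0),(4,0),(0,0),(9,0),(1,1)]⟩ ⟨0,[(5,0),(6,1),(8,0),(13,0),(8,3)]⟩),.k,.k,⟨true,0,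
  ⟨3,[(9,1),(24,0),(0,0),(8,1)]⟩,⟨0,[(12,0)]⟩⟩,⟨false,0,⟨0,[(7,0)]⟩,⟨0,[(2,0),(12,0)]⟩⟩,⟨true,0,⟨0,
  [(48,0)]⟩,⟨0,[]⟩⟩,⟨false,0,⟨0,[(7,0),(4,0)]⟩,⟨0,[(2,0),(43,0)]⟩⟩,⟨false,0,⟨0,[]⟩,⟨0,[]⟩⟩,⟨false,0,
  ⟨0,[]⟩,⟨0,[]⟩⟩,[.o ⟨false,1,⟨1,[(17,1),(20,0),(7,0)]⟩,⟨0,[(18,0)]⟩⟩,.e ⟨false,1,⟨1,[(45,0),(0,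
  0)]⟩,⟨0,[(48,0)]⟩⟩ ⟨false,1,⟨0,[(7,0),(7,0)]⟩,⟨0,[(2,0)]⟩⟩,.a ⟨true,1,⟨0,[(27,0)]⟩,⟨0,[(4,0)]⟩⟩
  ⟨false,1,⟨1,[(27,0),(0,0),(17,0)]⟩,⟨0,[]⟩⟩ ⟨true,0,⟨0,[(7,0),(4,0)]⟩,⟨0,[(2,0)]⟩⟩,.o ⟨false,1,⟨1,
  [(2,1),(9,1),(22,1),(2,0),(7,0)]⟩,⟨1,[(4,0),(18,0),(4,0),(9,0)]⟩⟩]⟩) (.Q [0,0,-1,0,-1,0,1,0,1,1,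
  -1,-1] (.p false [0,0,1] [1,0,0,0,-1] (⟨0,[(37,0)]⟩,⟨0,[(36,0)]⟩) .k 2 (⟨0,[(29,0)]⟩,⟨0,[(30,
  0)]⟩) .k (.r 0 ⟨9,[(9,4),(10,0),(20,2),(1,2)]⟩ ⟨1,[(15,0),(17,0),(0,0),(9,0),(1,0)]⟩)) (.R ⟨1,
  false,false,false,[1,0,0,0,-1],[0,0,1],[1,0,0,-1],(⟨0,[(30,0)]⟩,⟨0,[(31,0)]⟩),(⟨0,[(38,0)]⟩,⟨0,
  [(37,0)]⟩),⟨0,[(1,0)]⟩,.k,.k,(.r (-1) ⟨1,[(23,0),(20,0),(2,0)]⟩ ⟨2,[(10,0),(8,0),(14,2),(0,1),(9,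
  0)]⟩),.k,(.r (-1) ⟨0,[(16,0)]⟩ ⟨6,[(10,4),(8,1),(14,4),(0,2),(6,0)]⟩),.k,⟨true,0,⟨0,[(13,0)]⟩,⟨3,
  [(10,1),(24,0),(0,0),(8,1)]⟩⟩,⟨false,(-1),⟨0,[(0,0)]⟩,⟨1,[(28,1),(7,1),(2,0),(6,0)]⟩⟩,⟨true,0,⟨0,
  [(44,0)]⟩,⟨0,[(45,0)]⟩⟩,⟨false,(-1),⟨11,[(0,5),(4,5),(1,1),(2,3),(24,1),(3,0),(7,0)]⟩,⟨0,[(3,0),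
  (9,1),(10,0),(11,1),(2,0),(5,0),(1,0)]⟩⟩,⟨false,0,⟨0,[]⟩,⟨1,[(28,0),(0,0),(17,0)]⟩⟩,⟨false,(-1),
  ⟨0,[(5,0),(13,0)]⟩,⟨0,[(3,0),(9,1),(10,0),(11,1),(2,0),(7,0)]⟩⟩,[.o ⟨false,0,⟨0,[(17,0)]⟩,⟨1,[(34,
  1),(4,0),(7,0)]⟩⟩,.e ⟨false,1,⟨1,[(23,0),(20,0),(2,0)]⟩,⟨0,[(19,0),(14,0)]⟩⟩ ⟨false,0,⟨7,[(0,3),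
  (8,1),(0,1),(13,1),(4,3),(16,0),(0,4)]⟩,⟨0,[(3,0),(9,1),(10,0),(11,1),(2,0),(5,0)]⟩⟩,.a ⟨true,1,
  ⟨0,[(28,0)]⟩,⟨0,[(5,0)]⟩⟩ ⟨false,1,⟨0,[(44,0),(2,0)]⟩,⟨0,[(45,0)]⟩⟩ ⟨true,(-1),⟨11,[(0,5),(4,5),
  (1,1),(2,3),(24,1),(3,0),(7,0)]⟩,⟨0,[(3,0),(9,1),(10,0),(11,1),(2,0),(5,0)]⟩⟩,.o ⟨false,1,⟨1,[(3,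
  1),(9,1),(22,1),(2,0),(7,0)]⟩,⟨3,[(0,1),(7,1),(30,0),(6,0)]⟩⟩]⟩) (.Q [0,2,0,0,-2,0,0,0,1,1,0,-1]
  (.p false [0,0,0,0,1] [1] (⟨0,[(31,0)]⟩,⟨0,[(30,0)]⟩) .k 1 (⟨0,[]⟩,⟨0,[]⟩) .k .k) (.S ⟨1,0,[0,-1],
  [1,0,0,0,-1],[],(⟨0,[(31,0)]⟩,⟨0,[(32,0)]⟩),⟨0,[(2,0)]⟩,.k,(.r (-1) ⟨1,[(24,0),(20,0),(2,0)]⟩ ⟨2,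
  [(11,0),(8,0),(14,2),(0,1),(9,0)]⟩),⟨true,0,⟨0,[(50,0)]⟩,⟨0,[]⟩⟩,⟨false,1,⟨1,[(29,0),(0,0),(17,
  0)]⟩,⟨0,[]⟩⟩,⟨false,0,⟨0,[(46,0)]⟩,⟨0,[(45,0),(2,0)]⟩⟩,⟨true,0,⟨0,[(46,0)]⟩,⟨0,[(45,0)]⟩⟩,[.o
  ⟨false,2,⟨1,[(29,1),(10,0),(7,0)]⟩,⟨1,[(0,0),(5,0),(33,0)]⟩⟩,.a ⟨true,2,⟨0,[(29,0),(18,0)]⟩,⟨0,
  [(0,0)]⟩⟩ ⟨false,1,⟨1,[(47,0),(0,0)]⟩,⟨0,[(50,0)]⟩⟩ ⟨true,1,⟨0,[(48,0)]⟩,⟨7,[(0,6),(0,4),(2,1),(9,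
  1),(21,2),(3,0)]⟩⟩,.e ⟨false,1,⟨1,[(29,0),(0,0),(17,0)]⟩,⟨0,[]⟩⟩ ⟨false,1,⟨0,[(48,0)]⟩,⟨0,[(50,
  0)]⟩⟩,.o ⟨false,1,⟨0,[(1,0),(19,0)]⟩,⟨1,[(6,0),(18,0),(4,0),(9,0)]⟩⟩]⟩) (.R ⟨1,false,false,false,
  [1,0,0,0,-1],[1,-1,-1],[],(⟨0,[(31,0)]⟩,⟨0,[(32,0)]⟩),(⟨0,[(27,0)]⟩,⟨0,[(39,0),(2,0)]⟩),⟨0,[(2,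
  0)]⟩,.k,.k,(.r (-1) ⟨1,[(24,0),(20,0),(2,0)]⟩ ⟨2,[(11,0),(8,0),(14,2),(0,1),(9,0)]⟩),(.r (-1) ⟨4,
  [(0,0),(10,3),(14,0),(3,0),(4,2),(0,0),(9,0),(1,2)]⟩ ⟨0,[(1,0),(4,0),(0,0),(6,1),(8,0),(22,3)]⟩),
  .k,.k,⟨true,0,⟨3,[(11,1),(24,0),(0,0),(8,1)]⟩,⟨0,[(14,0)]⟩⟩,⟨false,0,⟨0,[(9,0)]⟩,⟨3,[(0,1),(3,1),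
  (10,1),(9,0),(0,0)]⟩⟩,⟨true,0,⟨0,[(50,0)]⟩,⟨0,[]⟩⟩,⟨false,0,⟨0,[(9,0),(4,0)]⟩,⟨0,[(0,0),(15,0)]⟩⟩,
  ⟨false,0,⟨0,[(46,0)]⟩,⟨0,[(45,0),(2,0)]⟩⟩,⟨false,0,⟨1,[(6,1),(28,1),(4,0),(7,0)]⟩,⟨0,[(0,0),(12,
  0)]⟩⟩,[.o ⟨false,1,⟨1,[(19,1),(20,0),(7,0)]⟩,⟨0,[(20,0)]⟩⟩,.e ⟨false,1,⟨1,[(47,0),(0,0)]⟩,⟨0,[(50,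
  0)]⟩⟩ ⟨false,1,⟨0,[(9,0),(7,0)]⟩,⟨0,[(4,0)]⟩⟩,.a ⟨true,1,⟨0,[(29,0)]⟩,⟨0,[(6,0)]⟩⟩ ⟨false,1,⟨1,
  [(29,0),(0,0),(17,0)]⟩,⟨0,[]⟩⟩ ⟨true,0,⟨0,[(9,0),(4,0)]⟩,⟨0,[(4,0)]⟩⟩,.o ⟨false,1,⟨7,[(0,0),(0,4),
  (2,1),(9,1),(21,2),(3,0)]⟩,⟨1,[(6,0),(18,0),(4,0),(9,0)]⟩⟩]⟩))))) (.Q [0,0,0,0,0,2,0,0,0,-1,1]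
  (.p true [0,0,1] [1] (⟨0,[(35,0)]⟩,⟨0,[(34,0)]⟩) .k 1 (⟨0,[]⟩,⟨0,[]⟩) .k .k) (.Q [0,-1,0,-1,1,0,0,
  0,0,-1] (.pp true [-1,1]) (.R ⟨0,false,false,false,[1,-1,-1],[1,-1],[1,1],(⟨0,[(25,0)]⟩,⟨0,[(1,0),
  (37,0)]⟩),(⟨0,[(39,0)]⟩,⟨0,[(40,0)]⟩),⟨0,[(1,0)]⟩,.k,.k,(.r (-1) ⟨4,[(15,4),(4,1),(20,0),(1,0)]⟩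
  ⟨3,[(9,1),(24,2),(0,2),(8,5)]⟩),.k,.k,.k,⟨false,0,⟨0,[(18,0),(14,0)]⟩,⟨1,[(22,0),(20,0),(2,0)]⟩⟩,
  ⟨true,0,⟨0,[(19,0)]⟩,⟨0,[(35,0)]⟩⟩,⟨false,0,⟨3,[(9,1),(24,0),(0,0),(8,1)]⟩,⟨0,[(15,0)]⟩⟩,⟨true,0,
  ⟨0,[(16,0)]⟩,⟨0,[(33,0)]⟩⟩,⟨false,0,⟨0,[]⟩,⟨0,[]⟩⟩,⟨false,0,⟨0,[]⟩,⟨0,[]⟩⟩,[.o ⟨false,1,⟨3,[(0,1),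
  (26,0),(0,0),(9,0),(4,1)]⟩,⟨0,[(44,0)]⟩⟩,.o ⟨false,1,⟨0,[(0,0)]⟩,⟨0,[(18,0),(14,0)]⟩⟩,.e ⟨false,0,
  ⟨0,[]⟩,⟨1,[(27,0),(0,0),(17,0)]⟩⟩ ⟨false,1,⟨1,[(0,0),(21,0),(1,0)]⟩,⟨0,[(35,0),(8,0)]⟩⟩,.a ⟨true,
  0,⟨1,[(34,0),(0,2)]⟩,⟨0,[(19,0),(3,0)]⟩⟩ ⟨true,0,⟨2,[(21,0),(19,0),(2,0)]⟩,⟨1,[(34,0),(0,0)]⟩⟩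
  ⟨false,1,⟨0,[(19,0),(2,0)]⟩,⟨1,[(34,0),(0,2),(8,1)]⟩⟩]⟩) (.Q [0,-1,-1,0,0,0,2,1,0,1,-2] (.p false
  [0,0,1] [1,0,-1] (⟨0,[(37,0)]⟩,⟨0,[(36,0)]⟩) .k 2 (⟨0,[(36,0)]⟩,⟨0,[(37,0)]⟩) .k (.r (-1) ⟨6,[(3,
  3),(1,1),(1,5),(1,3),(17,2),(0,0)]⟩ ⟨0,[(12,1),(31,1)]⟩)) (.R ⟨0,false,false,false,[1,-1,-1],[0,0,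
  1],[1],(⟨0,[(26,0)]⟩,⟨0,[(2,0),(37,0)]⟩),(⟨0,[(38,0)]⟩,⟨0,[(37,0)]⟩),⟨0,[(2,0)]⟩,.k,.k,(.r (-1)
  ⟨4,[(16,4),(4,1),(20,0),(1,0)]⟩ ⟨3,[(10,1),(24,2),(0,2),(8,5)]⟩),(.r (-1) ⟨5,[(13,1),(0,0),(1,4),
  (8,1),(8,3),(4,0),(5,1)]⟩ ⟨0,[(10,0)]⟩),.k,.k,⟨true,0,⟨0,[(13,0),(31,0)]⟩,⟨4,[(6,0),(3,1),(24,0),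
  (0,1)]⟩⟩,⟨false,0,⟨0,[(20,1),(3,0)]⟩,⟨1,[(36,3),(2,0),(6,0)]⟩⟩,⟨true,0,⟨3,[(10,1),(24,0),(0,0),(8,
  1)]⟩,⟨0,[(6,0),(6,1),(8,0),(13,0),(8,3)]⟩⟩,⟨false,0,⟨4,[(0,2),(9,1),(4,1),(3,0),(15,0),(11,1)]⟩,
  ⟨0,[(13,1),(10,0),(11,1),(2,0),(5,0)]⟩⟩,⟨false,0,⟨0,[]⟩,⟨0,[]⟩⟩,⟨false,0,⟨0,[]⟩,⟨0,[]⟩⟩,[.o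
  ⟨false,0,⟨0,[(17,0)]⟩,⟨1,[(34,1),(4,0),(7,0)]⟩⟩,.a ⟨true,0,⟨0,[(12,0),(34,0)]⟩,⟨0,[(34,0)]⟩⟩
  ⟨false,1,⟨1,[(46,0),(0,0)]⟩,⟨0,[(49,0)]⟩⟩ ⟨true,0,⟨0,[(0,0)]⟩,⟨0,[(1,0),(11,0),(22,1),(2,0)]⟩⟩,.a
  ⟨true,0,⟨0,[(36,0)]⟩,⟨0,[(32,0)]⟩⟩ ⟨true,0,⟨0,[]⟩,⟨0,[(49,0)]⟩⟩ ⟨false,0,⟨0,[(0,0)]⟩,⟨1,[(34,1),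
  (1,1),(2,0),(7,0)]⟩⟩,.a ⟨true,0,⟨1,[(35,0),(0,2)]⟩,⟨0,[(20,0),(3,0)]⟩⟩ ⟨false,1,⟨1,[(46,0),(0,
  0)]⟩,⟨1,[(35,0),(0,0)]⟩⟩ ⟨true,0,⟨3,[(0,1),(18,1),(2,1),(1,0),(0,0)]⟩,⟨0,[(1,0),(11,0),(22,1),(2,
  0)]⟩⟩]⟩) (.R ⟨0,false,false,false,[1,-1,-1],[0,0,1],[1],(⟨0,[(26,0)]⟩,⟨0,[(2,0),(37,0)]⟩),(⟨0,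
  [(38,0)]⟩,⟨0,[(37,0)]⟩),⟨0,[(2,0)]⟩,.k,.k,(.r (-1) ⟨4,[(16,4),(4,1),(20,0),(1,0)]⟩ ⟨3,[(10,1),(24,
  2),(0,2),(8,5)]⟩),(.r (-1) ⟨5,[(13,1),(0,0),(1,4),(8,1),(8,3),(4,0),(5,1)]⟩ ⟨0,[(10,0)]⟩),.k,.k,
  ⟨true,0,⟨0,[(13,0),(31,0)]⟩,⟨4,[(6,0),(3,1),(24,0),(0,1)]⟩⟩,⟨false,0,⟨0,[(20,1),(3,0)]⟩,⟨61,[(0,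
  51),(5,7),(1,27),(1,21),(12,5),(4,27),(10,4),(7,22)]⟩⟩,⟨true,0,⟨3,[(10,1),(24,0),(0,0),(8,1)]⟩,⟨0,
  [(0,0),(0,0),(4,1),(6,1),(8,0),(22,4),(1,0)]⟩⟩,⟨false,0,⟨2,[(9,0),(5,1),(3,1),(27,2)]⟩,⟨0,[(0,0),
  (15,0)]⟩⟩,⟨false,0,⟨0,[]⟩,⟨0,[]⟩⟩,⟨false,0,⟨0,[]⟩,⟨0,[]⟩⟩,[.o ⟨false,0,⟨0,[(17,0)]⟩,⟨1,[(34,1),(4,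
  0),(7,0)]⟩⟩,.e ⟨false,1,⟨1,[(46,0),(0,0)]⟩,⟨0,[(49,0)]⟩⟩ ⟨false,1,⟨3,[(9,0),(9,1),(3,0),(0,0),(0,
  1),(20,1),(0,1)]⟩,⟨0,[(0,0)]⟩⟩,.e ⟨true,0,⟨0,[]⟩,⟨0,[(49,0)]⟩⟩ ⟨true,0,⟨3,[(9,0),(9,1),(3,0),(0,
  0),(0,1)]⟩,⟨0,[(0,0)]⟩⟩,.a ⟨true,0,⟨1,[(35,0),(0,2)]⟩,⟨0,[(20,0),(3,0)]⟩⟩ ⟨false,1,⟨1,[(46,0),(0,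
  0)]⟩,⟨1,[(35,0),(0,0)]⟩⟩ ⟨true,0,⟨3,[(9,0),(9,1),(0,3),(2,0),(0,2)]⟩,⟨1,[(0,1),(34,0),(0,
  0)]⟩⟩]⟩))) (.Q [0,2,0,-1,-2,0,1,1,1,1,-1,-1] (.p false [0,0,1] [1,0,0,0,-1] (⟨0,[(36,0)]⟩,⟨0,[(35,
  0)]⟩) .k 2 (⟨0,[(28,0)]⟩,⟨0,[(29,0)]⟩) .k (.r 0 ⟨9,[(8,4),(10,0),(20,2),(1,2)]⟩ ⟨1,[(14,0),(17,0),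
  (0,0),(9,0),(1,0)]⟩)) (.Q [0,0,-1,0,-1,0,0,0,1,1,0,-1] (.p false [0,0,0,0,1] [1] (⟨0,[(30,0)]⟩,⟨0,
  [(29,0)]⟩) .k 1 (⟨0,[]⟩,⟨0,[]⟩) .k .k) (.Q [0,0,0,0,0,0,0,0,0,0,-1,1] (.ed false [1,0,-1,0,1] (.r
  0 ⟨0,[(20,0),(13,0)]⟩ ⟨13,[(4,3),(1,1),(1,5),(1,3),(17,2),(0,0),(17,6)]⟩)) (.Q [0,0,1,0,1,0,1,0,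
  -1,-1,-1,1] (.p true [0,0,-1,0,1] [1] (⟨0,[(0,0)]⟩,⟨0,[(31,0),(7,0)]⟩) .k 1 (⟨0,[]⟩,⟨0,[]⟩) .k
  (.r 0 ⟨0,[(21,0),(13,0)]⟩ ⟨13,[(5,3),(1,1),(1,5),(1,3),(17,2),(0,0),(17,6)]⟩)) (.R ⟨1,false,false,
  false,[1,0,1,0,-1],[0,1,1],[0,0,0,0,0,0,0,1],(⟨0,[(32,0),(7,0)]⟩,⟨0,[(1,0)]⟩),(⟨0,[(40,0),(2,0)]⟩,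
  ⟨0,[(28,0)]⟩),⟨0,[(29,0),(2,0)]⟩,.k,.k,(.r (-1) ⟨16,[(8,4),(1,1),(1,5),(12,12),(4,1),(7,2),(10,
  1)]⟩ ⟨0,[(36,0),(0,0),(9,0)]⟩),(.r (-1) ⟨1,[(25,0),(20,0),(2,0)]⟩ ⟨2,[(12,0),(8,0),(14,2),(0,1),
  (9,0)]⟩),(.r (-1) ⟨0,[(23,0),(25,0)]⟩ ⟨3,[(12,1),(23,3),(0,4),(0,0),(8,5)]⟩),.k,⟨false,1,⟨1,[(25,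
  0),(20,0),(1,0)]⟩,⟨1,[(37,0),(0,0),(8,1)]⟩⟩,⟨true,(-1),⟨0,[(2,0)]⟩,⟨0,[(0,0),(37,0)]⟩⟩,⟨true,0,⟨0,
  [(51,0)]⟩,⟨0,[]⟩⟩,⟨false,(-1),⟨0,[(7,0),(39,0)]⟩,⟨3,[(0,1),(22,1),(6,1),(7,1),(2,0),(7,2)]⟩⟩,
  ⟨false,0,⟨0,[(47,0)]⟩,⟨0,[(46,0),(2,0)]⟩⟩,⟨false,(-1),⟨0,[(7,0),(39,1)]⟩,⟨0,[(0,0),(22,0),(14,0),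
  (10,0)]⟩⟩,[.o ⟨false,0,⟨0,[(21,0)]⟩,⟨1,[(20,1),(20,0),(7,0)]⟩⟩,.e ⟨false,1,⟨3,[(12,1),(12,1),(22,
  0),(0,0)]⟩,⟨0,[(22,0),(13,0)]⟩⟩ ⟨false,0,⟨1,[(2,0),(9,0),(13,0),(4,0),(15,0),(1,0)]⟩,⟨0,[(0,0),
  (14,0),(8,0),(13,0),(8,0)]⟩⟩,.a ⟨true,1,⟨3,[(0,1),(25,0),(0,0),(2,1)]⟩,⟨0,[(2,0),(35,0)]⟩⟩ ⟨false,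
  1,⟨13,[(6,3),(1,1),(1,5),(1,3),(17,2),(0,0),(17,6)]⟩,⟨0,[(15,0),(31,0)]⟩⟩ ⟨true,(-1),⟨1,[(2,0),(4,
  0),(4,0),(34,0)]⟩,⟨0,[(0,0),(14,0),(8,0),(13,0),(8,0)]⟩⟩,.o ⟨false,1,⟨0,[(0,0)]⟩,⟨1,[(2,0),(7,0),
  (15,0),(11,0),(2,0)]⟩⟩]⟩) (.Q [0,0,0,0,0,-1,0,0,0,0,-1,1] (.p false [0,0,1] [0,0,0,0,1] (⟨0,[(40,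
  0)]⟩,⟨0,[(39,0)]⟩) .k 2 (⟨0,[(33,0)]⟩,⟨0,[(32,0)]⟩) .k (.r (-1) ⟨13,[(6,3),(1,1),(1,5),(1,3),(17,
  2),(0,0),(17,6)]⟩ ⟨0,[(22,0),(13,0)]⟩)) (.Q [0,1,0,-1,-1,0,-2,-2,1,0,2,-1] (.p true [0,0,1] [0,0,
  -1,0,1] (⟨0,[(41,0)]⟩,⟨0,[(40,0)]⟩) .k 2 (⟨0,[(2,0)]⟩,⟨0,[(33,0),(7,0)]⟩) .k (.r (-1) ⟨12,[(7,0),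
  (1,2),(1,3),(1,10),(12,4),(4,2),(18,3)]⟩ ⟨0,[(16,0),(6,0),(13,0),(10,0)]⟩)) (.R ⟨1,false,false,
  true,[0,0,-1,0,1],[0,0,1],[1,1,0,-1,0,0,0,-1],(⟨0,[(3,0)]⟩,⟨0,[(34,0),(7,0)]⟩),(⟨0,[(42,0)]⟩,⟨0,
  [(41,0)]⟩),⟨0,[(1,0)]⟩,.k,.k,(.r 0 ⟨0,[(10,0),(6,1),(8,0),(13,0),(8,3)]⟩ ⟨2,[(14,1),(17,0),(0,0),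
  (4,0),(0,0),(9,0),(1,1)]⟩),.k,(.r 0 ⟨0,[(17,0),(0,0),(30,0)]⟩ ⟨1,[(14,1),(17,0),(0,0),(17,0)]⟩),
  .k,⟨true,0,⟨0,[(17,1),(31,0)]⟩,⟨0,[(14,0)]⟩⟩,⟨false,1,⟨0,[(8,0),(8,0),(6,0),(24,0)]⟩,⟨3,[(2,1),(9,
  1),(27,3),(2,0),(6,0)]⟩⟩,⟨false,1,⟨0,[(48,0),(2,0)]⟩,⟨0,[(49,0)]⟩⟩,⟨true,1,⟨11,[(8,11),(2,1),(2,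
  3),(24,7),(3,0),(7,0)]⟩,⟨0,[(0,0),(48,0)]⟩⟩,⟨true,0,⟨0,[]⟩,⟨0,[(53,0)]⟩⟩,⟨true,1,⟨3,[(8,2),(5,0),
  (8,2),(8,0),(6,1)]⟩,⟨0,[(0,0)]⟩⟩,[.e ⟨false,0,⟨0,[(18,0)]⟩,⟨3,[(14,1),(17,0),(0,0),(15,1),(0,0),
  (0,1)]⟩⟩ ⟨false,1,⟨5,[(8,5),(9,0),(0,0),(9,0),(9,2),(3,0),(2,1)]⟩,⟨3,[(0,1),(1,1),(37,1),(2,0),(5,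
  1),(1,2)]⟩⟩,.o ⟨false,0,⟨0,[(21,0)]⟩,⟨1,[(38,1),(4,0),(7,0)]⟩⟩,.e ⟨false,0,⟨0,[(17,0)]⟩,⟨3,[(14,
  1),(17,0),(0,0),(15,1),(0,0),(0,1)]⟩⟩ ⟨false,1,⟨0,[(8,0),(30,0)]⟩,⟨3,[(0,1),(1,1),(37,1),(2,0),(5,
  1),(1,2)]⟩⟩,.a ⟨true,(-1),⟨0,[(9,0),(30,0)]⟩,⟨0,[(8,0),(8,0),(31,0)]⟩⟩ ⟨true,0,⟨0,[(18,0)]⟩,⟨3,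
  [(14,1),(24,0),(0,0),(8,1)]⟩⟩ ⟨false,1,⟨0,[(8,0),(15,0)]⟩,⟨0,[(7,0),(32,0),(8,0)]⟩⟩]⟩) (.S ⟨1,0,
  [0,2,0,0,0,0,0,-1],[0,0,-1,0,1],[1,1,0,-1,0,0,0,-1],(⟨0,[(3,0)]⟩,⟨0,[(34,0),(7,0)]⟩),⟨0,[(1,0)]⟩,
  .k,(.r 0 ⟨0,[(10,0),(6,1),(8,0),(13,0),(8,3)]⟩ ⟨2,[(14,1),(17,0),(0,0),(4,0),(0,0),(9,0),(1,1)]⟩),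
  ⟨false,1,⟨0,[(48,0),(2,0)]⟩,⟨0,[(49,0)]⟩⟩,⟨true,0,⟨0,[(53,0)]⟩,⟨0,[]⟩⟩,⟨true,0,⟨0,[]⟩,⟨0,[(53,
  0)]⟩⟩,⟨false,0,⟨0,[(49,0)]⟩,⟨0,[(48,0),(2,0)]⟩⟩,[.e ⟨false,0,⟨0,[(18,0)]⟩,⟨3,[(14,1),(17,0),(0,0),
  (15,1),(0,0),(0,1)]⟩⟩ ⟨false,0,⟨5,[(18,3),(0,0),(9,0),(8,2),(4,0),(2,1),(2,2)]⟩,⟨1,[(0,1),(1,1),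
  (14,1),(22,1),(2,0),(7,0)]⟩⟩,.o ⟨false,(-1),⟨0,[(2,0),(14,1),(1,0),(20,0),(2,0),(5,0)]⟩,⟨9,[(0,3),
  (9,1),(21,7),(0,1),(9,4),(7,2)]⟩⟩,.e ⟨false,0,⟨0,[(17,0)]⟩,⟨3,[(14,1),(17,0),(0,0),(15,1),(0,0),
  (0,1)]⟩⟩ ⟨false,0,⟨0,[(24,0),(13,0)]⟩,⟨1,[(0,1),(1,1),(14,1),(22,1),(2,0),(7,0)]⟩⟩,.a ⟨true,(-1),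
  ⟨0,[(9,0),(30,0)]⟩,⟨0,[(8,0),(8,0),(31,0)]⟩⟩ ⟨true,0,⟨0,[(18,0)]⟩,⟨3,[(14,1),(24,0),(0,0),(8,
  1)]⟩⟩ ⟨false,0,⟨0,[(18,0),(30,0)]⟩,⟨4,[(10,0),(3,1),(24,0),(0,1),(10,4)]⟩⟩]⟩)) (.R ⟨0,false,false,
  false,[0,0,-1,0,1],[0,0,0,0,1],[0,0,1],(⟨0,[(2,0)]⟩,⟨0,[(0,0),(42,0)]⟩),(⟨0,[(34,0)]⟩,⟨0,[(33,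
  0)]⟩),⟨0,[(0,0)]⟩,.k,.k,(.r 0 ⟨0,[(9,0),(6,1),(8,0),(13,0),(8,3)]⟩ ⟨2,[(13,1),(17,0),(0,0),(4,0),
  (0,0),(9,0),(1,1)]⟩),.k,.k,.k,⟨false,1,⟨1,[(31,0),(0,0),(17,0)]⟩,⟨2,[(25,0),(19,0),(2,0)]⟩⟩,⟨true,
  0,⟨0,[(23,0)]⟩,⟨0,[(39,0)]⟩⟩,⟨false,1,⟨4,[(9,0),(3,1),(24,0),(0,1),(10,4)]⟩,⟨0,[(17,0),(30,0)]⟩⟩,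
  ⟨true,0,⟨0,[(20,0)]⟩,⟨0,[(37,0)]⟩⟩,⟨false,0,⟨0,[]⟩,⟨0,[]⟩⟩,⟨false,0,⟨0,[]⟩,⟨0,[]⟩⟩,[.o ⟨false,
  (-1),⟨4,[(1,0),(2,2),(1,0),(9,1),(22,0),(2,1),(5,5)]⟩,⟨1,[(31,1),(10,0),(7,0)]⟩⟩,.a ⟨true,(-1),⟨0,
  [(8,0)]⟩,⟨0,[(31,0)]⟩⟩ ⟨false,1,⟨1,[(31,0),(0,0),(17,0)]⟩,⟨2,[(25,0),(19,0),(2,0)]⟩⟩ ⟨true,0,⟨0,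
  [(23,0)]⟩,⟨0,[(39,0)]⟩⟩,.a ⟨true,(-1),⟨1,[(1,0),(6,0),(30,0)]⟩,⟨0,[(23,0),(7,0)]⟩⟩ ⟨true,0,⟨1,
  [(38,0),(0,0)]⟩,⟨2,[(25,0),(19,0),(2,0)]⟩⟩ ⟨false,0,⟨0,[(23,0)]⟩,⟨1,[(39,1),(9,0),(0,0)]⟩⟩,.a
  ⟨true,(-1),⟨0,[(8,0),(30,0)]⟩,⟨0,[(7,0),(8,0),(31,0)]⟩⟩ ⟨false,1,⟨1,[(31,0),(0,0),(17,0)]⟩,⟨0,
  []⟩⟩ ⟨true,0,⟨0,[(17,0),(4,0)]⟩,⟨0,[(39,0)]⟩⟩]⟩))) (.R ⟨1,false,false,false,[1,0,-1,0,1],[0,0,0,0,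
  1],[1,1,0,-1,0,0,0,-1],(⟨0,[(32,0),(5,0)]⟩,⟨0,[(0,0)]⟩),(⟨0,[(32,0)]⟩,⟨0,[(31,0)]⟩),⟨1,[(3,0),(28,
  1),(5,0)]⟩,.k,.k,(.r 0 ⟨0,[(7,0),(6,1),(8,0),(13,0),(8,3)]⟩ ⟨2,[(11,1),(17,0),(0,0),(4,0),(0,0),
  (9,0),(1,1)]⟩),.k,.k,.k,⟨true,0,⟨0,[(14,0)]⟩,⟨3,[(11,1),(24,0),(0,0),(8,1)]⟩⟩,⟨false,0,⟨0,[(33,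
  0)]⟩,⟨1,[(37,1),(2,0),(6,0)]⟩⟩,⟨false,1,⟨0,[(45,0),(2,0)]⟩,⟨0,[(46,0)]⟩⟩,⟨false,0,⟨0,[(13,0),(34,
  0)]⟩,⟨1,[(35,1),(4,0),(7,0)]⟩⟩,⟨true,0,⟨0,[]⟩,⟨0,[(50,0)]⟩⟩,⟨false,0,⟨0,[(16,0),(31,0)]⟩,⟨1,[(19,
  1),(20,0),(7,0)]⟩⟩,[.o ⟨false,(-1),⟨1,[(1,0),(0,0),(11,0),(22,0),(2,0),(5,1)]⟩,⟨1,[(29,1),(10,0),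
  (7,0)]⟩⟩,.a ⟨true,(-1),⟨0,[(6,0)]⟩,⟨0,[(29,0)]⟩⟩ ⟨true,0,⟨0,[(14,0)]⟩,⟨3,[(11,1),(24,0),(0,0),(8,
  1)]⟩⟩ ⟨false,0,⟨0,[(33,0)]⟩,⟨1,[(37,1),(2,0),(6,0)]⟩⟩,.o ⟨false,0,⟨0,[(1,0),(35,0),(2,0)]⟩,⟨0,
  [(21,0),(7,0)]⟩⟩,.o ⟨false,0,⟨0,[(6,0),(30,0),(2,0)]⟩,⟨0,[(5,0),(8,0),(31,0)]⟩⟩]⟩)) (.Q [0,0,0,0,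
  0,-1,0,0,0,0,0,1] (.ed false [1,-1,0,0,1] .k) (.Q [0,0,0,0,0,-1,0,0,0,1,0,-1] (.ed true [0,1,0,0,
  1] .k) (.Q [0,1,0,0,-1,0,-1,-1,1,0,1,-1] (.p true [0,0,1] [0,0,0,0,1] (⟨0,[(40,0)]⟩,⟨0,[(39,0)]⟩)
  .k 2 (⟨0,[(33,0)]⟩,⟨0,[(32,0)]⟩) .k (.r (-1) ⟨13,[(6,3),(1,1),(1,5),(1,3),(17,2),(0,0),(17,6)]⟩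
  ⟨0,[(22,0),(13,0)]⟩)) (.S ⟨1,0,[0,-1],[1,0,0,0,-1],[],(⟨0,[(33,0)]⟩,⟨0,[(34,0)]⟩),⟨0,[(1,0)]⟩,.k,
  (.r (-1) ⟨1,[(26,0),(20,0),(2,0)]⟩ ⟨2,[(13,0),(8,0),(14,2),(0,1),(9,0)]⟩),⟨true,0,⟨0,[(52,0)]⟩,⟨0,
  []⟩⟩,⟨false,1,⟨1,[(31,0),(0,0),(17,0)]⟩,⟨0,[]⟩⟩,⟨false,0,⟨0,[(48,0)]⟩,⟨0,[(47,0),(2,0)]⟩⟩,⟨true,0,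
  ⟨0,[(48,0)]⟩,⟨0,[(47,0)]⟩⟩,[.o ⟨false,2,⟨1,[(31,1),(10,0),(7,0)]⟩,⟨3,[(0,1),(3,0),(3,0),(13,0),
  (19,0)]⟩⟩,.a ⟨true,2,⟨0,[(31,0),(18,0)]⟩,⟨0,[(0,0),(14,0)]⟩⟩ ⟨false,1,⟨1,[(49,0),(0,0)]⟩,⟨0,[(52,
  0)]⟩⟩ ⟨true,1,⟨0,[(50,0)]⟩,⟨0,[(0,0),(2,0),(11,0)]⟩⟩,.e ⟨false,1,⟨1,[(31,0),(0,0),(17,0)]⟩,⟨0,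
  []⟩⟩ ⟨false,1,⟨0,[(50,0)]⟩,⟨0,[(52,0)]⟩⟩,.o ⟨false,1,⟨0,[(3,0)]⟩,⟨1,[(8,0),(18,0),(4,0),(9,
  0)]⟩⟩]⟩) (.R ⟨1,false,false,false,[1,0,0,0,-1],[1,-1,-1],[],(⟨0,[(33,0)]⟩,⟨0,[(34,0)]⟩),(⟨0,[(29,
  0)]⟩,⟨0,[(41,0),(2,0)]⟩),⟨0,[(1,0)]⟩,.k,.k,(.r (-1) ⟨1,[(26,0),(20,0),(2,0)]⟩ ⟨2,[(13,0),(8,0),
  (14,2),(0,1),(9,0)]⟩),(.r (-1) ⟨3,[(3,0),(9,2),(14,0),(3,0),(4,1),(10,0),(1,2)]⟩ ⟨0,[(9,0),(6,1),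
  (8,0),(13,0),(8,3)]⟩),.k,.k,⟨true,0,⟨3,[(13,1),(24,0),(0,0),(8,1)]⟩,⟨0,[(16,0)]⟩⟩,⟨false,0,⟨0,
  [(11,0)]⟩,⟨0,[(0,0),(16,0),(30,0)]⟩⟩,⟨true,0,⟨0,[(52,0)]⟩,⟨0,[]⟩⟩,⟨false,0,⟨1,[(6,0),(14,0),(10,
  0)]⟩,⟨0,[(0,0),(47,0)]⟩⟩,⟨false,0,⟨0,[(48,0)]⟩,⟨0,[(47,0),(2,0)]⟩⟩,⟨false,0,⟨1,[(6,0),(25,0),(4,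
  0),(10,0)]⟩,⟨0,[(0,0)]⟩⟩,[.o ⟨false,1,⟨1,[(21,1),(20,0),(7,0)]⟩,⟨0,[(22,0)]⟩⟩,.a ⟨true,1,⟨0,[(21,
  0),(28,0)]⟩,⟨0,[(18,0)]⟩⟩ ⟨false,1,⟨1,[(49,0),(0,0)]⟩,⟨0,[(52,0)]⟩⟩ ⟨true,0,⟨0,[(6,0)]⟩,⟨0,[(3,0),
  (14,0)]⟩⟩,.e ⟨false,1,⟨1,[(31,0),(0,0),(17,0)]⟩,⟨0,[]⟩⟩ ⟨false,0,⟨0,[(6,0)]⟩,⟨0,[(22,0),(8,0)]⟩⟩,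
  .o ⟨false,1,⟨0,[(3,0)]⟩,⟨1,[(8,0),(18,0),(4,0),(9,0)]⟩⟩]⟩)) (.R ⟨0,false,false,true,[1,0,0,0,-1],
  [0,-1,1],[0,1,0,-1,0,0,0,1],(⟨0,[(32,0)]⟩,⟨0,[(33,0)]⟩),(⟨0,[(29,0)]⟩,⟨0,[(39,0),(3,0)]⟩),⟨0,[(0,
  0)]⟩,.k,.k,(.r (-1) ⟨1,[(25,0),(20,0),(2,0)]⟩ ⟨2,[(12,0),(8,0),(14,2),(0,1),(9,0)]⟩),(.r (-1) ⟨0,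
  [(36,0),(0,0),(9,0),(1,0)]⟩ ⟨9,[(12,4),(10,6),(20,0),(1,0)]⟩),.k,.k,⟨true,0,⟨1,[(37,0),(0,0)]⟩,⟨0,
  []⟩⟩,⟨false,(-1),⟨0,[(7,0),(14,0)]⟩,⟨0,[(26,0),(3,0),(7,0),(2,0)]⟩⟩,⟨false,0,⟨7,[(8,0),(3,3),(7,
  0),(2,1),(22,4)]⟩,⟨0,[(15,0),(31,1),(1,0)]⟩⟩,⟨true,(-2),⟨0,[(3,0)]⟩,⟨0,[(2,1),(2,0),(20,0),(20,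
  1)]⟩⟩,⟨false,0,⟨0,[]⟩,⟨0,[]⟩⟩,⟨false,0,⟨0,[]⟩,⟨0,[]⟩⟩,[.e ⟨false,0,⟨9,[(12,4),(10,6),(20,0),(1,
  0)]⟩,⟨1,[(18,0),(17,0),(0,0),(9,2),(1,0)]⟩⟩ ⟨false,(-1),⟨3,[(3,1),(7,0),(13,0),(0,0),(4,1)]⟩,⟨0,
  [(2,1),(2,0),(20,0),(20,1)]⟩⟩,.o ⟨false,0,⟨3,[(9,1),(31,0),(7,0)]⟩,⟨1,[(36,1),(4,0),(5,1),(1,
  0)]⟩⟩,.a ⟨true,1,⟨0,[(30,0)]⟩,⟨0,[(7,0)]⟩⟩ ⟨true,0,⟨7,[(8,0),(3,3),(7,0),(2,1),(22,4)]⟩,⟨0,[(15,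
  0),(31,1)]⟩⟩ ⟨false,(-1),⟨5,[(5,1),(1,3),(3,3),(29,0),(7,0)]⟩,⟨0,[(2,1),(2,0),(20,0),(20,1)]⟩⟩,.o
  ⟨false,1,⟨0,[(2,0)]⟩,⟨1,[(7,0),(18,0),(4,0),(9,0)]⟩⟩]⟩)) (.R ⟨0,false,false,true,[0,0,0,0,1],[1,
  -1],[1,1],(⟨0,[(32,0)]⟩,⟨0,[(31,0)]⟩),(⟨0,[(41,0)]⟩,⟨0,[(42,0)]⟩),⟨0,[(0,0)]⟩,.k,.k,(.r 0 ⟨0,[(44,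
  0)]⟩ ⟨7,[(1,0),(9,2),(14,0),(3,0),(4,5),(0,3),(9,4),(1,6)]⟩),(.r 0 ⟨2,[(11,0),(8,0),(14,2),(0,1),
  (9,0)]⟩ ⟨1,[(24,0),(20,0),(2,0)]⟩),.k,.k,⟨false,0,⟨0,[(46,0)]⟩,⟨1,[(45,1),(1,0),(0,0)]⟩⟩,⟨true,1,
  ⟨0,[(1,0)]⟩,⟨0,[(6,0)]⟩⟩,⟨true,0,⟨0,[]⟩,⟨0,[(50,0)]⟩⟩,⟨false,2,⟨1,[(1,1),(22,0),(20,0),(2,0)]⟩,⟨0,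
  [(6,0),(39,0)]⟩⟩,⟨false,0,⟨0,[]⟩,⟨0,[]⟩⟩,⟨false,0,⟨0,[]⟩,⟨0,[]⟩⟩,[.e ⟨false,0,⟨2,[(23,0),(19,0),
  (2,0)]⟩,⟨1,[(29,0),(0,0),(17,0)]⟩⟩ ⟨false,1,⟨0,[(1,0),(21,0)]⟩,⟨15,[(6,9),(2,5),(1,1),(13,0),(0,
  4),(8,3),(10,13),(1,9)]⟩⟩,.o ⟨false,1,⟨1,[(40,0),(4,1),(2,0)]⟩,⟨0,[(46,0)]⟩⟩,.a ⟨true,(-1),⟨0,[(6,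
  0)]⟩,⟨0,[(29,0)]⟩⟩ ⟨false,0,⟨0,[]⟩,⟨1,[(29,0),(0,0),(17,0)]⟩⟩ ⟨true,1,⟨4,[(1,4),(20,1),(20,0),(1,
  0)]⟩,⟨0,[(6,0),(39,0)]⟩⟩,.e ⟨true,0,⟨2,[(23,0),(19,0),(2,0)]⟩,⟨1,[(36,0),(0,0)]⟩⟩ ⟨true,1,⟨0,[(1,
  0),(21,0)]⟩,⟨1,[(6,1),(29,0),(0,0),(8,1)]⟩⟩]⟩))) (.Q [0,0,0,0,0,-1,0,0,0,1,0,-1] (.ed true [0,1,0,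
  0,1] .k) (.R ⟨1,false,false,false,[1,0,0,0,-1],[1,-1,-1],[],(⟨0,[(30,0)]⟩,⟨0,[(31,0)]⟩),(⟨0,[(26,
  0)]⟩,⟨0,[(38,0),(2,0)]⟩),⟨0,[(0,0)]⟩,.k,.k,(.r (-1) ⟨1,[(23,0),(20,0),(2,0)]⟩ ⟨2,[(10,0),(8,0),
  (14,2),(0,1),(9,0)]⟩),(.r (-1) ⟨5,[(1,1),(8,3),(14,1),(2,0),(0,2),(6,1),(10,0)]⟩ ⟨0,[(6,0),(6,1),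
  (8,0),(13,0),(8,3)]⟩),.k,.k,⟨true,0,⟨3,[(10,1),(24,0),(0,0),(8,1)]⟩,⟨0,[(13,0)]⟩⟩,⟨false,0,⟨0,[(8,
  0)]⟩,⟨2,[(1,0),(2,1),(8,0),(0,0),(0,0),(4,0)]⟩⟩,⟨true,0,⟨0,[(49,0)]⟩,⟨0,[]⟩⟩,⟨false,0,⟨1,[(3,0),
  (14,0),(10,0)]⟩,⟨2,[(1,2),(7,1),(5,0),(3,0)]⟩⟩,⟨false,0,⟨0,[(45,0)]⟩,⟨0,[(44,0),(2,0)]⟩⟩,⟨false,0,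
  ⟨1,[(3,0),(25,0),(4,0),(10,0)]⟩,⟨0,[(1,0),(7,0)]⟩⟩,[.o ⟨false,1,⟨2,[(1,0),(1,0),(14,0),(20,0),(4,
  1)]⟩,⟨0,[(19,0)]⟩⟩,.a ⟨true,1,⟨0,[(18,0),(28,0)]⟩,⟨0,[(15,0)]⟩⟩ ⟨false,1,⟨1,[(46,0),(0,0)]⟩,⟨0,
  [(49,0)]⟩⟩ ⟨true,0,⟨0,[(3,0)]⟩,⟨0,[(1,0),(10,1),(0,0),(1,0),(20,0),(2,0)]⟩⟩,.e ⟨false,1,⟨1,[(28,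
  0),(0,0),(17,0)]⟩,⟨0,[]⟩⟩ ⟨false,0,⟨0,[(3,0)]⟩,⟨0,[(19,0),(8,0)]⟩⟩,.o ⟨false,1,⟨0,[(1,0),(10,1),
  (0,0),(22,0),(2,0)]⟩,⟨1,[(5,0),(18,0),(4,0),(9,0)]⟩⟩]⟩) (.R ⟨0,false,false,true,[1,0,0,0,-1],[1,
  -1],[0,1,0,-1],(⟨0,[(30,0)]⟩,⟨0,[(31,0)]⟩),(⟨0,[(40,0)]⟩,⟨0,[(41,0)]⟩),⟨0,[(0,0)]⟩,.k,.k,(.r (-1)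
  ⟨1,[(23,0),(20,0),(2,0)]⟩ ⟨2,[(10,0),(8,0),(14,2),(0,1),(9,0)]⟩),(.r (-1) ⟨7,[(1,3),(8,1),(14,3),
  (3,3),(5,0),(0,4),(8,1)]⟩ ⟨0,[(43,0)]⟩),.k,.k,⟨true,0,⟨1,[(35,0),(0,0)]⟩,⟨0,[]⟩⟩,⟨false,0,⟨0,[(29,
  0)]⟩,⟨1,[(1,0),(10,0),(9,0),(5,0)]⟩⟩,⟨false,0,⟨0,[(44,0)]⟩,⟨0,[(45,0),(1,0)]⟩⟩,⟨true,(-1),⟨6,[(3,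
  0),(3,0),(3,5),(0,0),(0,1),(7,0),(14,1),(2,0)]⟩,⟨0,[(1,0),(10,0)]⟩⟩,⟨false,0,⟨0,[]⟩,⟨0,[]⟩⟩,
  ⟨false,0,⟨0,[]⟩,⟨0,[]⟩⟩,[.e ⟨false,0,⟨0,[(43,0)]⟩,⟨9,[(1,5),(6,1),(1,1),(4,1),(8,0),(0,2),(3,
  3)]⟩⟩ ⟨false,0,⟨4,[(21,1),(7,4),(12,0),(1,0)]⟩,⟨0,[(1,0),(10,0)]⟩⟩,.o ⟨false,1,⟨1,[(39,0),(4,1),
  (2,0)]⟩,⟨0,[(45,0)]⟩⟩,.a ⟨true,1,⟨0,[(28,0)]⟩,⟨0,[(5,0)]⟩⟩ ⟨true,0,⟨0,[(44,0)]⟩,⟨0,[(45,0)]⟩⟩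
  ⟨false,0,⟨3,[(3,0),(2,0),(22,2),(14,0)]⟩,⟨0,[(1,0),(10,0)]⟩⟩,.o ⟨false,1,⟨0,[(1,0),(10,1),(0,0),
  (22,0),(2,0)]⟩,⟨1,[(5,0),(18,0),(4,0),(9,0)]⟩⟩]⟩))))) (.Q [0,0,0,0,0,-1,0,0,0,0,0,1] (.ed false
  [1,-1,0,0,1] .k) (.S ⟨1,0,[0,2],[0,0,0,0,1],[1,1,0,-1],(⟨0,[(28,0)]⟩,⟨0,[(27,0)]⟩),⟨0,[(0,0)]⟩,.k,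
  (.r 0 ⟨0,[(40,0)]⟩ ⟨5,[(7,1),(17,0),(0,0),(4,3),(0,3),(9,3),(1,4)]⟩),⟨false,1,⟨0,[(41,0),(2,0)]⟩,
  ⟨0,[(42,0)]⟩⟩,⟨true,0,⟨0,[(46,0)]⟩,⟨0,[]⟩⟩,⟨true,0,⟨0,[]⟩,⟨0,[(46,0)]⟩⟩,⟨false,0,⟨0,[(42,0)]⟩,⟨0,
  [(41,0),(2,0)]⟩⟩,[.e ⟨false,0,⟨4,[(18,1),(20,0),(1,0)]⟩,⟨1,[(25,0),(0,0),(15,1),(1,0)]⟩⟩ ⟨false,0,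
  ⟨0,[(39,0)]⟩,⟨0,[(44,0)]⟩⟩,.o ⟨false,(-1),⟨9,[(1,5),(0,0),(3,0),(1,2),(7,3),(2,2),(16,0)]⟩,⟨1,
  [(25,1),(10,0),(7,0)]⟩⟩,.a ⟨true,(-1),⟨0,[(2,0)]⟩,⟨0,[(25,0)]⟩⟩ ⟨true,0,⟨0,[(41,0)]⟩,⟨0,[(42,
  0)]⟩⟩ ⟨false,0,⟨0,[(46,0)]⟩,⟨0,[(44,0)]⟩⟩,.o ⟨false,(-1),⟨5,[(1,5),(4,1),(9,1),(19,0),(7,0)]⟩,⟨1,
  [(25,1),(10,0),(6,0)]⟩⟩]⟩) (.R ⟨0,false,false,true,[0,0,0,0,1],[0,-1,1],[0,1,0,-1,0,0,0,1],(⟨0,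
  [(28,0)]⟩,⟨0,[(27,0)]⟩),(⟨0,[(24,0)]⟩,⟨0,[(34,0),(3,0)]⟩),⟨0,[(0,0)]⟩,.k,.k,(.r 0 ⟨0,[(40,0)]⟩ ⟨5,
  [(7,1),(17,0),(0,0),(4,3),(0,3),(9,3),(1,4)]⟩),(.r 0 ⟨0,[(31,0),(0,0),(9,0)]⟩ ⟨16,[(3,4),(1,1),(1,
  5),(12,12),(4,1),(7,2),(10,1)]⟩),.k,.k,⟨true,0,⟨1,[(32,0),(0,0)]⟩,⟨0,[]⟩⟩,⟨false,1,⟨0,[(17,0),(7,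
  0)]⟩,⟨9,[(1,3),(3,5),(1,1),(11,0),(0,0),(0,5),(14,2)]⟩⟩,⟨false,1,⟨16,[(3,8),(1,6),(1,3),(12,2),(4,
  6),(7,1),(10,6)]⟩,⟨0,[(10,0),(31,1)]⟩⟩,⟨true,1,⟨3,[(4,1),(20,3),(10,0),(7,0)]⟩,⟨2,[(1,2),(17,0),
  (19,0),(2,3)]⟩⟩,⟨false,0,⟨0,[]⟩,⟨0,[]⟩⟩,⟨false,0,⟨0,[]⟩,⟨0,[]⟩⟩,[.e ⟨false,0,⟨9,[(7,4),(10,6),(20,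
  0),(1,0)]⟩,⟨1,[(13,0),(17,0),(0,0),(9,2),(1,0)]⟩⟩ ⟨false,1,⟨11,[(4,3),(1,1),(12,1),(5,11),(10,2),
  (2,1),(3,2)]⟩,⟨1,[(1,1),(40,1),(0,0),(0,0)]⟩⟩,.o ⟨false,0,⟨3,[(4,1),(31,0),(7,0)]⟩,⟨1,[(31,1),(4,
  0),(5,1),(1,0)]⟩⟩,.a ⟨true,(-1),⟨0,[(2,0)]⟩,⟨0,[(25,0)]⟩⟩ ⟨true,0,⟨7,[(3,0),(3,3),(7,0),(2,1),(22,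
  4)]⟩,⟨0,[(10,0),(31,1)]⟩⟩ ⟨false,1,⟨3,[(4,1),(20,3),(10,0),(7,0)]⟩,⟨1,[(1,1),(40,1),(0,0),(0,
  0)]⟩⟩,.o ⟨false,(-1),⟨5,[(1,5),(4,1),(9,1),(19,0),(7,0)]⟩,⟨1,[(25,1),(10,0),(6,0)]⟩⟩]⟩))))))) (.R
  ⟨1,false,false,true,[1,0,-1],[0,-1,1],[0,1,0,-1,0,0,0,1],(⟨0,[(28,0)]⟩,⟨0,[(29,0)]⟩),(⟨0,[(18,
  0)]⟩,⟨0,[(28,0),(3,0)]⟩),⟨0,[(17,0)]⟩,.k,.k,.k,(.r 0 ⟨0,[(0,0),(3,0),(1,0),(19,0)]⟩ ⟨0,[(1,0),(12,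
  0),(20,0)]⟩),.k,.k,⟨true,0,⟨1,[(26,0),(0,0)]⟩,⟨0,[]⟩⟩,⟨false,0,⟨0,[(16,0)]⟩,⟨0,[(0,0),(0,0),(10,
  0)]⟩⟩,⟨true,0,⟨2,[(1,1),(6,1),(3,1),(14,1),(7,0)]⟩,⟨0,[(0,0),(3,0),(1,0),(4,0)]⟩⟩,⟨false,0,⟨0,[(3,
  0),(4,0),(26,0),(2,0)]⟩,⟨0,[(0,0)]⟩⟩,⟨true,0,⟨4,[(1,4),(10,1),(20,0),(1,0)]⟩,⟨2,[(0,1),(3,3),(1,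
  1),(4,1)]⟩⟩,⟨true,(-1),⟨0,[(3,0),(4,0)]⟩,⟨5,[(0,3),(8,3),(9,0),(0,0),(9,0)]⟩⟩,[.o ⟨false,0,⟨0,[(8,
  0),(26,0)]⟩,⟨5,[(0,3),(9,1),(19,0),(7,0)]⟩⟩,.e ⟨false,1,⟨3,[(1,1),(12,1),(20,3),(1,0),(0,0)]⟩,⟨2,
  [(0,1),(3,0),(1,1),(4,1)]⟩⟩ ⟨false,0,⟨1,[(3,0),(4,0),(3,0),(3,0),(21,0)]⟩,⟨43,[(0,37),(0,21),(7,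
  11),(2,1),(17,2),(2,11),(3,2)]⟩⟩,.o ⟨false,1,⟨19,[(0,3),(0,9),(7,11),(4,1),(15,7),(6,2),(0,2)]⟩,
  ⟨0,[(11,0)]⟩⟩,.a ⟨true,0,⟨0,[(27,0)]⟩,⟨0,[(23,0)]⟩⟩ ⟨true,0,⟨9,[(1,4),(10,6),(20,0),(1,0)]⟩,⟨5,
  [(0,3),(3,1),(1,3),(19,4),(0,0)]⟩⟩ ⟨false,0,⟨1,[(3,0),(4,0),(3,0),(3,0),(21,0)]⟩,⟨7,[(0,5),(0,1),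
  (24,0),(0,4),(2,0),(7,0)]⟩⟩]⟩))

theorem ok117 : chk K t117 l69 = true := by decide +kernel


end Helper25.S1T.Ypm_1c
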