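import Pool.Agent.Helper25.S1T.Ypm_1c_q

set_option autoImplicit false
set_option linter.all false

namespace Helper25.S1T.Ypm_1c

open Helper25.KG Helper25.KW Helper55.KE Helper11.CT

noncomputable def t118 : Tre :=
  (.Q [0,0,0,1,0,0,-1,-1,0,0,1] (.p true [0,0,1] [] (⟨0,[(28,0)]⟩,⟨0,[(27,0)]⟩) .k 0 (⟨0,[]⟩,⟨0,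
  []⟩) .k .k) (.R ⟨1,false,false,false,[1,-1],[1,-1,-1],[1],(⟨0,[(31,0)]⟩,⟨0,[(32,0)]⟩),(⟨0,[(17,
  0)]⟩,⟨0,[(29,0),(2,0)]⟩),⟨0,[(17,0),(0,0)]⟩,.k,.k,(.r (-1) ⟨0,[(14,0),(20,0)]⟩ ⟨0,[(0,0),(9,0),
  (15,0),(0,0)]⟩),.k,.k,.k,⟨true,0,⟨0,[(10,0),(16,0)]⟩,⟨1,[(1,1),(1,1),(23,1),(2,0),(7,0)]⟩⟩,⟨false,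
  1,⟨0,[(27,0),(9,0)]⟩,⟨0,[(11,0)]⟩⟩,⟨true,0,⟨1,[(0,0),(9,0),(15,0),(0,0)]⟩,⟨0,[(34,0)]⟩⟩,⟨false,1,
  ⟨0,[(25,0),(12,0)]⟩,⟨0,[(8,0)]⟩⟩,⟨true,0,⟨1,[(0,1),(9,1),(15,0),(0,0)]⟩,⟨2,[(4,0),(3,0),(3,1),(14,
  0),(7,0)]⟩⟩,⟨true,0,⟨0,[(0,0)]⟩,⟨0,[(8,0),(26,0)]⟩⟩,[.o ⟨false,1,⟨1,[(9,1),(20,0),(7,0)]⟩,⟨0,[(10,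
  0)]⟩⟩,.e ⟨false,1,⟨1,[(37,0),(0,0)]⟩,⟨0,[(40,0)]⟩⟩ ⟨false,1,⟨0,[(0,0),(11,0),(25,0)]⟩,⟨1,[(10,1),
  (15,0),(0,0),(12,1)]⟩⟩,.a ⟨true,0,⟨1,[(26,0),(0,0)]⟩,⟨1,[(15,0),(12,0),(0,0)]⟩⟩ ⟨true,0,⟨0,[]⟩,⟨0,
  [(40,0)]⟩⟩ ⟨false,1,⟨4,[(0,0),(0,0),(7,1),(4,2),(12,1),(10,1)]⟩,⟨1,[(10,1),(15,0),(0,0)]⟩⟩,.e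
  ⟨false,1,⟨1,[(37,0),(0,0)]⟩,⟨1,[(26,0),(0,0)]⟩⟩ ⟨false,1,⟨0,[(0,0),(11,0),(25,0)]⟩,⟨0,[(10,0),(15,
  0),(0,0)]⟩⟩]⟩) (.Q [0,0,0,2,0,0,-1,-1,0,0,1] (.p true [0,0,1] [] (⟨0,[(29,0)]⟩,⟨0,[(28,0)]⟩) .k 0
  (⟨0,[]⟩,⟨0,[]⟩) .k .k) (.R ⟨1,false,false,false,[1,-1],[1,0,-1],[0,0,1],(⟨0,[(32,0)]⟩,⟨0,[(33,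
  0)]⟩),(⟨0,[(29,0)]⟩,⟨0,[(30,0)]⟩),⟨0,[(18,0),(0,0)]⟩,.k,.k,(.r (-1) ⟨0,[(15,0),(20,0)]⟩ ⟨2,[(0,1),
  (10,1),(15,2),(0,2)]⟩),.k,(.r (-1) ⟨1,[(1,1),(12,0),(0,0),(12,1),(9,0)]⟩ ⟨1,[(0,1),(26,2),(0,
  0)]⟩),.k,⟨true,0,⟨1,[(1,0),(9,0),(16,1)]⟩,⟨9,[(0,1),(1,3),(24,2),(0,0)]⟩⟩,⟨false,1,⟨1,[(16,1),(11,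
  1),(2,0),(6,0)]⟩,⟨0,[(27,0)]⟩⟩,⟨true,0,⟨2,[(0,0),(10,0),(15,2),(0,2)]⟩,⟨0,[(14,0)]⟩⟩,⟨false,1,⟨3,
  [(0,1),(19,0),(0,0),(4,1),(12,2)]⟩,⟨0,[(1,0)]⟩⟩,⟨true,0,⟨2,[(0,1),(10,1),(15,2),(0,2)]⟩,⟨0,[(13,
  0)]⟩⟩,⟨true,0,⟨0,[(0,0)]⟩,⟨0,[(1,0),(34,0)]⟩⟩,[.o ⟨false,1,⟨1,[(26,1),(4,0),(7,0)]⟩,⟨0,[(9,0)]⟩⟩,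
  .e ⟨false,1,⟨1,[(20,0),(0,0),(17,0)]⟩,⟨8,[(0,0),(10,0),(2,2),(19,2)]⟩⟩ ⟨false,1,⟨0,[(0,0),(12,0),
  (25,0)]⟩,⟨1,[(25,1),(1,0),(0,0)]⟩⟩,.a ⟨true,0,⟨1,[(27,0),(0,0)]⟩,⟨1,[(16,0),(12,0),(0,0)]⟩⟩ ⟨true,
  0,⟨1,[(27,0),(0,0)]⟩,⟨8,[(0,0),(10,0),(2,2),(19,2)]⟩⟩ ⟨false,1,⟨1,[(0,0),(9,0),(4,0),(23,0)]⟩,⟨1,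
  [(1,0),(9,0),(15,0),(0,0)]⟩⟩,.e ⟨false,1,⟨1,[(20,0),(0,0),(17,0)]⟩,⟨0,[]⟩⟩ ⟨false,1,⟨0,[(0,0),(12,
  0),(25,0)]⟩,⟨1,[(1,0),(9,0),(15,1),(0,1)]⟩⟩]⟩) (.Q [0,0,1,0,0,0,0,0,-1,0,0,1] (.p true [0,0,0,0,
  1] [] (⟨0,[(23,0)]⟩,⟨0,[(22,0)]⟩) .k 0 (⟨0,[]⟩,⟨0,[]⟩) .k .k) (.Q [0,0,0,0,0,-1,0,0,0,1,0,-1]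
  (.ed true [0,1,0,0,1] .k) (.S ⟨1,0,[0,-1],[1,0,0,0,-1],[1,0,0,-1],(⟨0,[(24,0)]⟩,⟨0,[(25,0)]⟩),⟨0,
  [(0,0)]⟩,.k,(.r (-1) ⟨1,[(17,0),(20,0),(2,0)]⟩ ⟨1,[(13,1),(14,1),(0,0),(0,0)]⟩),⟨true,0,⟨0,[(38,
  0)]⟩,⟨0,[(39,0)]⟩⟩,⟨false,1,⟨1,[(22,0),(0,0),(17,0)]⟩,⟨0,[]⟩⟩,⟨false,0,⟨0,[]⟩,⟨1,[(22,0),(0,0),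
  (17,0)]⟩⟩,⟨true,0,⟨0,[(39,0)]⟩,⟨0,[(38,0)]⟩⟩,[.e ⟨false,1,⟨1,[(38,1),(1,0),(0,0)]⟩,⟨0,[(39,0)]⟩⟩
  ⟨false,1,⟨1,[(40,0),(0,0)]⟩,⟨0,[(43,0)]⟩⟩,.o ⟨false,2,⟨2,[(1,1),(16,0),(3,0),(10,1),(7,2)]⟩,⟨0,
  [(5,0)]⟩⟩,.o ⟨false,1,⟨2,[(1,1),(16,0),(3,0),(10,1)]⟩,⟨0,[(23,0)]⟩⟩,.a ⟨true,0,⟨0,[(1,0)]⟩,⟨1,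
  [(18,0),(4,1),(7,0),(0,0)]⟩⟩ ⟨false,1,⟨1,[(17,0),(20,0),(2,0)]⟩,⟨1,[(29,0),(0,0),(8,1)]⟩⟩ ⟨true,1,
  ⟨1,[(40,0),(0,0)]⟩,⟨0,[(1,0),(3,0)]⟩⟩]⟩) (.Q [0,1,1,-1,0,0,-1,-1,-1,-1,1,1] (.p true [0,0,1] [1,0,
  0,0,-1] (⟨0,[(32,0)]⟩,⟨0,[(31,0)]⟩) .k 2 (⟨0,[(24,0)]⟩,⟨0,[(25,0)]⟩) .k (.r 0 ⟨1,[(13,0),(2,0),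
  (10,0),(2,1)]⟩ ⟨6,[(4,0),(14,1),(8,4),(0,0),(3,0),(5,0),(1,5)]⟩)) (.R ⟨0,false,false,true,[1,0,0,
  0,-1],[0,1,1],[1,1,1],(⟨0,[(25,0)]⟩,⟨0,[(26,0)]⟩),(⟨0,[(33,0),(2,0)]⟩,⟨0,[(21,0)]⟩),⟨0,[(1,0)]⟩,
  .k,.k,(.r (-1) ⟨1,[(18,0),(20,0),(2,0)]⟩ ⟨1,[(14,1),(14,1),(0,0),(0,0)]⟩),(.r (-1) ⟨0,[(11,0)]⟩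
  ⟨0,[(14,0),(16,0),(12,0)]⟩),.k,.k,⟨true,0,⟨0,[(8,0)]⟩,⟨0,[(14,0),(16,0)]⟩⟩,⟨false,0,⟨5,[(4,0),(0,
  1),(8,2),(4,4),(0,0),(3,5)]⟩,⟨2,[(2,1),(16,0),(3,0),(7,2),(2,1)]⟩⟩,⟨true,(-1),⟨0,[(2,0),(3,0)]⟩,
  ⟨1,[(41,0),(0,0)]⟩⟩,⟨false,(-1),⟨0,[(10,0),(13,0)]⟩,⟨1,[(0,1),(40,0),(0,2)]⟩⟩,⟨false,0,⟨0,[]⟩,⟨0,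
  []⟩⟩,⟨false,0,⟨0,[]⟩,⟨0,[]⟩⟩,[.a ⟨true,(-1),⟨0,[(10,0)]⟩,⟨0,[(13,0),(28,0)]⟩⟩ ⟨false,0,⟨0,[(44,
  0)]⟩,⟨1,[(41,0),(0,0)]⟩⟩ ⟨true,(-1),⟨0,[(10,0),(13,0)]⟩,⟨0,[(0,0),(41,0)]⟩⟩,.o ⟨false,0,⟨0,[(14,
  0)]⟩,⟨1,[(13,1),(20,0),(7,0)]⟩⟩,.o ⟨false,1,⟨2,[(2,1),(16,0),(3,0),(10,1)]⟩,⟨0,[(24,0)]⟩⟩,.e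
  ⟨false,0,⟨0,[]⟩,⟨1,[(23,0),(0,0),(17,0)]⟩⟩ ⟨false,0,⟨1,[(10,1),(13,1),(16,0),(0,0)]⟩,⟨0,[(0,0),
  (41,0)]⟩⟩]⟩) (.R ⟨0,false,false,false,[1,0,0,0,-1],[0,1,1],[1,0,1],(⟨0,[(25,0)]⟩,⟨0,[(26,0)]⟩),
  (⟨0,[(33,0),(2,0)]⟩,⟨0,[(21,0)]⟩),⟨0,[(1,0)]⟩,.k,.k,(.r (-1) ⟨1,[(18,0),(20,0),(2,0)]⟩ ⟨1,[(14,1),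
  (14,1),(0,0),(0,0)]⟩),(.r (-1) ⟨0,[(11,0)]⟩ ⟨0,[(14,0),(16,0),(12,0)]⟩),.k,.k,⟨true,0,⟨0,[(8,0)]⟩,
  ⟨0,[(14,0),(16,0)]⟩⟩,⟨false,0,⟨0,[(0,0),(8,0)]⟩,⟨2,[(2,1),(16,0),(3,0),(7,2),(2,1)]⟩⟩,⟨false,0,⟨1,
  [(30,0),(0,0)]⟩,⟨1,[(41,0),(0,0)]⟩⟩,⟨true,(-1),⟨0,[(10,0),(13,0)]⟩,⟨5,[(2,5),(2,1),(11,0),(0,2),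
  (10,1),(1,3),(2,2)]⟩⟩,⟨false,0,⟨0,[]⟩,⟨0,[]⟩⟩,⟨false,0,⟨0,[]⟩,⟨0,[]⟩⟩,[.o ⟨false,0,⟨0,[(14,0)]⟩,
  ⟨1,[(13,1),(20,0),(7,0)]⟩⟩,.e ⟨false,1,⟨1,[(23,0),(0,0),(17,0)]⟩,⟨2,[(17,0),(19,0),(2,0)]⟩⟩
  ⟨false,0,⟨0,[(0,0)]⟩,⟨5,[(2,3),(10,2),(2,0),(1,0),(4,1),(5,2),(4,2)]⟩⟩,.o ⟨false,1,⟨2,[(2,1),(16,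
  0),(3,0),(10,1)]⟩,⟨0,[(24,0)]⟩⟩,.a ⟨true,0,⟨0,[(2,0)]⟩,⟨0,[(0,0),(12,0)]⟩⟩ ⟨true,0,⟨0,[]⟩,⟨0,[(44,
  0)]⟩⟩ ⟨false,0,⟨0,[(0,0)]⟩,⟨1,[(2,1),(10,1),(20,0),(7,0)]⟩⟩]⟩))) (.Q [0,0,-1,0,-1,0,0,0,1,1,0,-1]
  (.p false [0,0,0,0,1] [1] (⟨0,[(24,0)]⟩,⟨0,[(23,0)]⟩) .k 1 (⟨0,[]⟩,⟨0,[]⟩) .k .k) (.Q [0,0,0,0,0,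
  -1,0,0,0,1,0,-1] (.ed true [0,1,0,0,1] .k) (.S ⟨1,0,[],[1,0,0,0,-1],[0,-1],(⟨0,[(25,0)]⟩,⟨0,[(26,
  0)]⟩),⟨0,[(0,0)]⟩,.k,(.r (-1) ⟨1,[(18,0),(20,0),(2,0)]⟩ ⟨1,[(14,1),(14,1),(0,0),(0,0)]⟩),⟨false,1,
  ⟨1,[(23,0),(0,0),(17,0)]⟩,⟨0,[]⟩⟩,⟨true,0,⟨0,[(44,0)]⟩,⟨0,[]⟩⟩,⟨true,0,⟨0,[(40,0)]⟩,⟨0,[(39,0)]⟩⟩,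
  ⟨false,0,⟨0,[(40,0)]⟩,⟨0,[(39,0),(2,0)]⟩⟩,[.e ⟨false,1,⟨1,[(41,0),(0,0)]⟩,⟨0,[(44,0)]⟩⟩ ⟨false,1,
  ⟨1,[(23,0),(0,0),(16,0)]⟩,⟨0,[]⟩⟩,.o ⟨false,2,⟨1,[(23,1),(10,0),(7,0)]⟩,⟨3,[(1,3),(3,1),(1,1),(2,
  1),(19,0),(0,4),(2,3)]⟩⟩,.e ⟨false,1,⟨0,[(42,0)]⟩,⟨0,[(44,0)]⟩⟩ ⟨false,1,⟨1,[(23,0),(0,0),(17,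
  0)]⟩,⟨0,[]⟩⟩,.a ⟨true,1,⟨1,[(23,1),(6,0),(0,0)]⟩,⟨0,[(1,0)]⟩⟩ ⟨true,1,⟨1,[(41,0),(0,0)]⟩,⟨0,[(5,
  0),(1,0),(2,0),(20,1),(2,0)]⟩⟩ ⟨false,1,⟨1,[(41,0),(0,0)]⟩,⟨1,[(30,0),(0,0)]⟩⟩]⟩) (.Q [0,0,1,0,-1,
  0,0,0,1,0,0,-1] (.p false [0,0,0,0,1] [] (⟨0,[(26,0)]⟩,⟨0,[(25,0)]⟩) .k 0 (⟨0,[]⟩,⟨0,[]⟩) .k .k)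
  (.S ⟨1,0,[0,2],[0,0,0,0,1],[1,1,0,-1],(⟨0,[(27,0)]⟩,⟨0,[(26,0)]⟩),⟨0,[(1,0),(20,0),(0,0)]⟩,.k,(.r
  0 ⟨0,[(39,0)]⟩ ⟨1,[(24,0),(0,0),(5,0),(0,0),(8,1),(1,0)]⟩),⟨false,1,⟨0,[(40,0),(2,0)]⟩,⟨0,[(41,
  0)]⟩⟩,⟨true,0,⟨0,[(45,0)]⟩,⟨0,[]⟩⟩,⟨true,0,⟨0,[]⟩,⟨0,[(45,0)]⟩⟩,⟨false,0,⟨0,[(41,0)]⟩,⟨0,[(40,0),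
  (2,0)]⟩⟩,[.e ⟨false,0,⟨4,[(17,1),(20,0),(1,0)]⟩,⟨1,[(24,0),(0,0),(15,1),(1,0)]⟩⟩ ⟨false,0,⟨0,[(38,
  0)]⟩,⟨0,[(43,0)]⟩⟩,.o ⟨false,(-1),⟨2,[(0,1),(6,0),(10,0),(22,0)]⟩,⟨1,[(24,1),(10,0),(7,0)]⟩⟩,.a
  ⟨true,(-1),⟨3,[(0,0),(1,2),(18,0),(10,1)]⟩,⟨0,[(24,0)]⟩⟩ ⟨true,0,⟨0,[(40,0)]⟩,⟨0,[(41,0)]⟩⟩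
  ⟨false,0,⟨0,[(45,0)]⟩,⟨0,[(43,0)]⟩⟩,.o ⟨false,(-1),⟨0,[(0,0)]⟩,⟨1,[(24,1),(10,0),(6,0)]⟩⟩]⟩) (.R
  ⟨0,false,false,true,[1,0,0,0,-1],[0,0,1],[1,1],(⟨0,[(26,0)]⟩,⟨0,[(27,0)]⟩),(⟨0,[(34,0)]⟩,⟨0,[(33,
  0)]⟩),⟨0,[(1,0)]⟩,.k,.k,(.r (-1) ⟨1,[(19,0),(20,0),(2,0)]⟩ ⟨1,[(15,1),(14,1),(0,0),(0,0)]⟩),.k,.k,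
  .k,⟨true,0,⟨3,[(6,1),(24,0),(0,0),(8,1)]⟩,⟨1,[(5,0),(9,0),(16,1)]⟩⟩,⟨false,(-1),⟨0,[(2,0),(13,
  0)]⟩,⟨1,[(24,1),(7,1),(2,0),(6,0)]⟩⟩,⟨false,0,⟨0,[(45,0)]⟩,⟨0,[(43,0)]⟩⟩,⟨true,(-2),⟨3,[(2,3),(3,
  1),(1,5),(2,1),(19,0),(0,4),(2,3)]⟩,⟨1,[(0,0),(5,0),(17,0),(7,1),(2,0),(5,0),(1,0)]⟩⟩,⟨false,0,⟨0,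
  []⟩,⟨0,[]⟩⟩,⟨false,0,⟨0,[]⟩,⟨0,[]⟩⟩,[.e ⟨false,0,⟨2,[(18,0),(19,0),(2,0)]⟩,⟨1,[(24,0),(0,0),(17,
  0)]⟩⟩ ⟨false,(-1),⟨0,[(3,0),(4,0)]⟩,⟨1,[(0,0),(5,0),(17,0),(7,1),(2,0),(5,0),(1,0)]⟩⟩,.o ⟨false,0,
  ⟨0,[(13,0)]⟩,⟨1,[(30,1),(4,0),(7,0)]⟩⟩,.e ⟨false,0,⟨0,[]⟩,⟨1,[(24,0),(0,0),(17,0)]⟩⟩ ⟨false,(-1),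
  ⟨1,[(2,1),(2,0),(9,0),(15,0),(0,0)]⟩,⟨1,[(0,0),(5,0),(17,0),(7,1),(2,0),(5,0),(1,0)]⟩⟩,.a ⟨true,1,
  ⟨1,[(24,1),(6,0),(0,0)]⟩,⟨0,[(2,0)]⟩⟩ ⟨true,0,⟨2,[(18,0),(19,0),(2,0)]⟩,⟨1,[(31,0),(0,0)]⟩⟩
  ⟨false,(-1),⟨1,[(2,1),(2,0),(9,0)]⟩,⟨3,[(6,1),(17,3),(6,0),(0,4),(2,1),(5,1),(1,1)]⟩⟩]⟩))) (.Q [0,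
  0,-1,0,-1,0,1,0,1,1,-1,-1] (.p false [0,0,1] [1,0,0,0,-1] (⟨0,[(32,0)]⟩,⟨0,[(31,0)]⟩) .k 2 (⟨0,
  [(24,0)]⟩,⟨0,[(25,0)]⟩) .k (.r 0 ⟨1,[(13,0),(2,0),(10,0),(2,1)]⟩ ⟨6,[(4,0),(14,1),(8,4),(0,0),(3,
  0),(5,0),(1,5)]⟩)) (.Q [0,0,0,0,0,-1,0,0,0,1,0,-1] (.ed true [0,1,0,0,1] .k) (.R ⟨1,false,false,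
  false,[1,0,0,0,-1],[0,0,1],[1,0,0,-1],(⟨0,[(26,0)]⟩,⟨0,[(27,0)]⟩),(⟨0,[(34,0)]⟩,⟨0,[(33,0)]⟩),⟨0,
  [(0,0)]⟩,.k,.k,(.r (-1) ⟨1,[(19,0),(20,0),(2,0)]⟩ ⟨1,[(15,1),(14,1),(0,0),(0,0)]⟩),.k,(.r (-1) ⟨0,
  [(12,0)]⟩ ⟨0,[(15,0),(16,0),(12,0)]⟩),.k,⟨true,0,⟨0,[(9,0)]⟩,⟨0,[(15,0),(16,0)]⟩⟩,⟨false,(-1),⟨0,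
  [(1,0)]⟩,⟨1,[(24,1),(7,1),(2,0),(6,0)]⟩⟩,⟨true,0,⟨0,[(40,0)]⟩,⟨0,[(41,0)]⟩⟩,⟨false,(-1),⟨1,[(1,1),
  (3,0),(9,0),(16,1)]⟩,⟨2,[(2,2),(3,0),(13,1),(9,0),(1,1),(2,0),(5,0),(1,1)]⟩⟩,⟨false,0,⟨0,[]⟩,⟨1,
  [(24,0),(0,0),(17,0)]⟩⟩,⟨false,(-1),⟨0,[(1,0),(13,0),(16,0)]⟩,⟨2,[(2,2),(3,0),(12,1),(10,0),(1,1),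
  (10,0)]⟩⟩,[.o ⟨false,0,⟨0,[(13,0)]⟩,⟨1,[(30,1),(4,0),(7,0)]⟩⟩,.e ⟨false,1,⟨1,[(19,0),(20,0),(2,
  0)]⟩,⟨0,[(15,0),(14,0)]⟩⟩ ⟨false,0,⟨0,[(3,0),(4,0),(34,0)]⟩,⟨2,[(2,2),(3,0),(11,1),(11,0),(1,1),
  (8,2)]⟩⟩,.a ⟨true,1,⟨0,[(24,0)]⟩,⟨0,[(1,0),(30,0)]⟩⟩ ⟨false,1,⟨0,[(40,0),(2,0)]⟩,⟨0,[(41,0)]⟩⟩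
  ⟨true,(-1),⟨1,[(1,1),(3,0),(9,0),(16,1)]⟩,⟨2,[(2,2),(3,0),(11,1),(11,0),(1,1),(8,2)]⟩⟩,.o ⟨false,
  1,⟨0,[(2,0)]⟩,⟨0,[(3,0)]⟩⟩]⟩) (.R ⟨0,false,false,false,[1,0,0,0,-1],[0,0,1],[0,0,0,-1],(⟨0,[(26,
  0)]⟩,⟨0,[(27,0)]⟩),(⟨0,[(34,0)]⟩,⟨0,[(33,0)]⟩),⟨0,[(0,0)]⟩,.k,.k,(.r (-1) ⟨1,[(19,0),(20,0),(2,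
  0)]⟩ ⟨1,[(15,1),(14,1),(0,0),(0,0)]⟩),.k,.k,.k,⟨true,0,⟨0,[(4,0),(1,0),(25,0),(8,1)]⟩,⟨0,[(15,0),
  (16,0)]⟩⟩,⟨false,(-1),⟨0,[(1,0)]⟩,⟨1,[(24,1),(7,1),(2,0),(6,0)]⟩⟩,⟨true,0,⟨0,[(40,0)]⟩,⟨0,[(41,
  0)]⟩⟩,⟨false,(-1),⟨1,[(1,1),(3,0),(9,0),(16,1)]⟩,⟨2,[(2,2),(3,0),(13,1),(9,0),(1,1),(2,0),(5,0),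
  (1,1)]⟩⟩,⟨false,0,⟨0,[]⟩,⟨0,[]⟩⟩,⟨false,0,⟨0,[]⟩,⟨0,[]⟩⟩,[.o ⟨false,0,⟨0,[(13,0)]⟩,⟨1,[(30,1),(4,
  0),(7,0)]⟩⟩,.e ⟨false,1,⟨1,[(19,0),(20,0),(2,0)]⟩,⟨0,[(15,0),(14,0)]⟩⟩ ⟨false,0,⟨0,[(3,0),(4,0),
  (34,0)]⟩,⟨2,[(2,2),(3,0),(11,1),(11,0),(1,1),(8,2)]⟩⟩,.a ⟨true,1,⟨0,[(24,0)]⟩,⟨0,[(1,0),(30,0)]⟩⟩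
  ⟨false,1,⟨0,[(40,0),(2,0)]⟩,⟨0,[(41,0)]⟩⟩ ⟨true,(-1),⟨1,[(1,1),(3,0),(9,0),(16,1)]⟩,⟨2,[(2,2),(3,
  0),(11,1),(11,0),(1,1),(8,2)]⟩⟩,.o ⟨false,1,⟨0,[(2,0)]⟩,⟨0,[(3,0)]⟩⟩]⟩)) (.Q [0,0,0,0,0,-1,0,0,0,
  1,0,-1] (.ed true [0,1,0,0,1] .k) (.Q [0,0,0,2,1,0,-1,-1,-1,-1,1,1] (.p true [0,0,1] [1,0,0,0,-1]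
  (⟨0,[(34,0)]⟩,⟨0,[(33,0)]⟩) .k 2 (⟨0,[(26,0)]⟩,⟨0,[(27,0)]⟩) .k (.r 0 ⟨1,[(15,0),(2,0),(10,0),(2,
  1)]⟩ ⟨6,[(6,0),(14,1),(8,4),(0,0),(3,0),(5,0),(1,5)]⟩)) (.Q [0,-1,0,0,1,0,0,0,-1,0,0,1] (.p true
  [0,0,0,0,1] [] (⟨0,[(28,0)]⟩,⟨0,[(27,0)]⟩) .k 0 (⟨0,[]⟩,⟨0,[]⟩) .k .k) (.S ⟨1,0,[],[1,0,0,0,-1],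
  [0,-1],(⟨0,[(28,0)]⟩,⟨0,[(29,0)]⟩),⟨0,[(2,0)]⟩,.k,(.r (-1) ⟨1,[(21,0),(20,0),(2,0)]⟩ ⟨5,[(1,1),
  (11,1),(13,1),(5,2),(0,2),(12,3)]⟩),⟨false,1,⟨1,[(26,0),(0,0),(17,0)]⟩,⟨0,[]⟩⟩,⟨true,0,⟨0,[(47,
  0)]⟩,⟨0,[]⟩⟩,⟨true,0,⟨0,[(43,0)]⟩,⟨0,[(42,0)]⟩⟩,⟨false,0,⟨0,[(43,0)]⟩,⟨0,[(42,0),(2,0)]⟩⟩,[.o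
  ⟨false,1,⟨0,[(1,0),(4,0)]⟩,⟨0,[(27,0)]⟩⟩,.a ⟨true,1,⟨0,[(0,0)]⟩,⟨1,[(5,0),(2,0),(1,0),(2,0),(13,
  0),(6,1)]⟩⟩ ⟨true,1,⟨0,[(45,0)]⟩,⟨0,[(8,0),(1,0),(2,0),(20,1),(2,0)]⟩⟩ ⟨false,1,⟨1,[(44,0),(0,
  0)]⟩,⟨0,[(47,0)]⟩⟩,.o ⟨false,1,⟨0,[(1,0),(4,0)]⟩,⟨0,[(27,0)]⟩⟩,.o ⟨false,1,⟨0,[(4,0)]⟩,⟨0,[(5,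
  0)]⟩⟩]⟩) (.R ⟨1,false,false,false,[1,0,0,0,-1],[0,0,1],[0,-1],(⟨0,[(28,0)]⟩,⟨0,[(29,0)]⟩),(⟨0,
  [(36,0)]⟩,⟨0,[(35,0)]⟩),⟨0,[(2,0)]⟩,.k,.k,(.r (-1) ⟨1,[(21,0),(20,0),(2,0)]⟩ ⟨5,[(1,1),(11,1),(13,
  1),(5,2),(0,2),(12,3)]⟩),.k,(.r (-1) ⟨0,[(14,0)]⟩ ⟨3,[(1,0),(11,0),(3,0),(9,0),(3,2),(2,3)]⟩),.k,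
  ⟨false,1,⟨6,[(1,1),(3,0),(2,0),(5,2),(7,0),(0,0),(3,0),(17,1)]⟩,⟨1,[(17,0),(2,0),(10,0),(2,1)]⟩⟩,
  ⟨true,(-1),⟨3,[(0,3),(7,1),(1,1),(2,1),(19,0),(0,0),(10,3)]⟩,⟨0,[(3,0)]⟩⟩,⟨false,1,⟨1,[(26,0),(0,
  0),(17,0)]⟩,⟨0,[]⟩⟩,⟨false,(-1),⟨0,[(0,0),(9,0),(34,0)]⟩,⟨5,[(1,1),(1,3),(10,3),(11,0),(0,0),(17,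
  0)]⟩⟩,⟨true,0,⟨0,[(43,0)]⟩,⟨0,[(42,0)]⟩⟩,⟨false,(-1),⟨0,[(0,0),(12,0),(31,0)]⟩,⟨0,[(3,0),(10,
  0)]⟩⟩,[.o ⟨false,0,⟨0,[(15,0)]⟩,⟨1,[(32,1),(4,0),(7,0)]⟩⟩,.a ⟨true,0,⟨0,[(10,0),(34,0)]⟩,⟨0,[(32,
  0)]⟩⟩ ⟨true,1,⟨0,[(45,0)]⟩,⟨9,[(0,9),(0,1),(1,7),(4,3),(1,9),(22,2),(0,2)]⟩⟩ ⟨false,0,⟨0,[(5,0),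
  (4,0),(34,0)]⟩,⟨6,[(1,1),(1,3),(0,0),(7,3),(19,0),(7,0)]⟩⟩,.o ⟨false,1,⟨0,[(1,0),(4,0)]⟩,⟨0,[(27,
  0)]⟩⟩,.o ⟨false,1,⟨0,[(4,0)]⟩,⟨0,[(5,0)]⟩⟩]⟩)) (.Q [0,-1,0,0,1,0,0,0,-1,0,0,1] (.p true [0,0,0,0,
  1] [] (⟨0,[(28,0)]⟩,⟨0,[(27,0)]⟩) .k 0 (⟨0,[]⟩,⟨0,[]⟩) .k .k) (.S ⟨1,0,[],[1,0,0,0,-1],[0,-1],(⟨0,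
  [(28,0)]⟩,⟨0,[(29,0)]⟩),⟨0,[(2,0)]⟩,.k,(.r (-1) ⟨1,[(21,0),(20,0),(2,0)]⟩ ⟨1,[(17,1),(14,1),(0,0),
  (0,0)]⟩),⟨false,1,⟨1,[(26,0),(0,0),(17,0)]⟩,⟨0,[]⟩⟩,⟨true,0,⟨0,[(47,0)]⟩,⟨0,[]⟩⟩,⟨true,0,⟨0,[(43,
  0)]⟩,⟨0,[(42,0)]⟩⟩,⟨false,0,⟨0,[(43,0)]⟩,⟨0,[(42,0),(2,0)]⟩⟩,[.e ⟨false,1,⟨1,[(44,0),(0,0)]⟩,⟨0,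
  [(47,0)]⟩⟩ ⟨false,1,⟨1,[(26,0),(0,0),(16,0)]⟩,⟨0,[]⟩⟩,.a ⟨true,1,⟨0,[(0,0)]⟩,⟨6,[(1,0),(3,0),(2,
  2),(0,0),(3,4),(8,0),(4,3),(6,5)]⟩⟩ ⟨true,1,⟨0,[(45,0)]⟩,⟨0,[(8,0),(1,0),(2,0),(20,1),(2,0)]⟩⟩
  ⟨false,1,⟨1,[(44,0),(0,0)]⟩,⟨0,[(47,0)]⟩⟩,.e ⟨false,1,⟨0,[(45,0)]⟩,⟨0,[(47,0)]⟩⟩ ⟨false,1,⟨1,[(26,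
  0),(0,0),(17,0)]⟩,⟨0,[]⟩⟩,.o ⟨false,1,⟨0,[(4,0)]⟩,⟨0,[(5,0)]⟩⟩]⟩) (.Q [0,-2,0,0,2,0,0,0,-1,-1,0,
  1] (.p true [0,0,0,0,1] [1] (⟨0,[(29,0)]⟩,⟨0,[(28,0)]⟩) .k 1 (⟨0,[]⟩,⟨0,[]⟩) .k .k) (.R ⟨1,false,
  false,true,[1,0,-1],[0,0,0,0,1],[1,1,0,-1,0,0,0,-1],(⟨0,[(36,0)]⟩,⟨0,[(37,0)]⟩),(⟨0,[(30,0)]⟩,⟨0,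
  [(29,0)]⟩),⟨0,[(25,0)]⟩,.k,.k,.k,.k,(.r (-1) ⟨0,[(15,0)]⟩ ⟨0,[(4,0),(9,0),(13,0)]⟩),.k,⟨false,1,
  ⟨0,[(15,0)]⟩,⟨2,[(1,0),(2,0),(13,2),(4,0),(11,1),(5,0)]⟩⟩,⟨true,(-1),⟨11,[(1,9),(0,1),(6,5),(4,9),
  (19,2),(0,2),(10,9)]⟩,⟨0,[(4,0)]⟩⟩,⟨true,0,⟨0,[(43,0)]⟩,⟨0,[(44,0)]⟩⟩,⟨true,(-2),⟨0,[(1,0),(9,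
  0)]⟩,⟨0,[(0,0),(32,0)]⟩⟩,⟨false,0,⟨0,[]⟩,⟨1,[(27,0),(0,0),(17,0)]⟩⟩,⟨true,(-2),⟨0,[(1,0),(12,0)]⟩,
  ⟨0,[(4,0),(10,0)]⟩⟩,[.o ⟨false,(-1),⟨0,[(10,0)]⟩,⟨0,[(0,0)]⟩⟩,.o ⟨false,(-1),⟨0,[(1,0)]⟩,⟨3,[(0,
  1),(26,2),(0,0),(9,0)]⟩⟩,.o ⟨false,1,⟨0,[(4,0),(1,0)]⟩,⟨0,[(19,0)]⟩⟩,.a ⟨true,0,⟨0,[(35,0)]⟩,⟨0,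
  [(31,0)]⟩⟩ ⟨true,0,⟨0,[(13,0)]⟩,⟨0,[(18,0),(16,0)]⟩⟩ ⟨false,(-1),⟨1,[(1,1),(21,0),(0,0)]⟩,⟨0,[(4,
  0),(41,0)]⟩⟩]⟩) (.S ⟨1,0,[0,-1],[1,0,0,0,-1],[],(⟨0,[(29,0)]⟩,⟨0,[(30,0)]⟩),⟨0,[(3,0)]⟩,.k,(.r
  (-1) ⟨1,[(22,0),(20,0),(2,0)]⟩ ⟨1,[(18,1),(14,1),(0,0),(0,0)]⟩),⟨true,0,⟨0,[(48,0)]⟩,⟨0,[]⟩⟩,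
  ⟨false,1,⟨1,[(27,0),(0,0),(17,0)]⟩,⟨0,[]⟩⟩,⟨false,0,⟨0,[(44,0)]⟩,⟨0,[(43,0),(2,0)]⟩⟩,⟨true,0,⟨0,
  [(44,0)]⟩,⟨0,[(43,0)]⟩⟩,[.o ⟨false,2,⟨1,[(27,1),(10,0),(7,0)]⟩,⟨0,[(1,0)]⟩⟩,.a ⟨true,2,⟨0,[(27,0),
  (18,0)]⟩,⟨0,[(0,0)]⟩⟩ ⟨false,1,⟨1,[(45,0),(0,0)]⟩,⟨0,[(48,0)]⟩⟩ ⟨true,1,⟨0,[(46,0)]⟩,⟨0,[(0,0),(4,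
  0)]⟩⟩,.e ⟨false,1,⟨1,[(27,0),(0,0),(17,0)]⟩,⟨0,[]⟩⟩ ⟨false,1,⟨0,[(46,0)]⟩,⟨0,[(48,0)]⟩⟩,.o ⟨false,
  1,⟨0,[(5,0)]⟩,⟨0,[(6,0)]⟩⟩]⟩)))) (.Q [0,0,1,0,0,0,1,0,-1,0,-1,1] (.p false [0,0,1] [0,0,0,0,1]
  (⟨0,[(34,0)]⟩,⟨0,[(33,0)]⟩) .k 2 (⟨0,[(27,0)]⟩,⟨0,[(26,0)]⟩) .k (.r (-1) ⟨1,[(5,0),(9,0),(16,1),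
  (9,0),(0,0)]⟩ ⟨4,[(6,0),(4,0),(9,0),(8,3),(0,0),(3,0)]⟩)) (.R ⟨0,false,false,false,[1,0,0,0,-1],
  [1,0,-1],[0,1,1],(⟨0,[(27,0)]⟩,⟨0,[(28,0)]⟩),(⟨0,[(34,0)]⟩,⟨0,[(35,0)]⟩),⟨0,[(1,0)]⟩,.k,.k,(.r
  (-1) ⟨1,[(20,0),(20,0),(2,0)]⟩ ⟨1,[(16,1),(14,1),(0,0),(0,0)]⟩),.k,.k,.k,⟨false,0,⟨1,[(16,0),(2,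
  0),(10,0),(2,1)]⟩,⟨15,[(7,5),(14,1),(8,3),(4,0),(5,5),(0,4),(0,9)]⟩⟩,⟨true,0,⟨0,[(4,0),(28,0)]⟩,
  ⟨0,[(0,0)]⟩⟩,⟨true,(-1),⟨0,[(7,0),(1,0),(2,0),(20,1),(2,0)]⟩,⟨1,[(43,0),(0,0)]⟩⟩,⟨false,0,⟨1,[(4,
  0),(2,0),(18,0),(6,1),(8,0)]⟩,⟨1,[(0,0),(1,0),(3,0),(9,0),(4,0),(22,0)]⟩⟩,⟨false,0,⟨0,[]⟩,⟨0,[]⟩⟩,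
  ⟨false,0,⟨0,[]⟩,⟨0,[]⟩⟩,[.o ⟨false,1,⟨1,[(31,1),(4,0),(7,0)]⟩,⟨0,[(14,0)]⟩⟩,.a ⟨true,1,⟨0,[(31,0),
  (12,0)]⟩,⟨0,[(9,0)]⟩⟩ ⟨true,0,⟨1,[(32,0),(0,0)]⟩,⟨0,[]⟩⟩ ⟨false,1,⟨0,[(4,0),(26,0),(12,0)]⟩,⟨1,
  [(0,0),(1,0),(6,0),(6,0),(2,0)]⟩⟩,.o ⟨false,1,⟨1,[(0,0),(1,0),(18,0),(14,0)]⟩,⟨0,[(26,0)]⟩⟩,.o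
  ⟨false,1,⟨0,[(3,0)]⟩,⟨0,[(4,0)]⟩⟩]⟩) (.Q [0,0,0,0,-1,0,0,0,1,1,0,-1] (.p false [0,0,0,0,1] [1]
  (⟨0,[(28,0)]⟩,⟨0,[(27,0)]⟩) .k 1 (⟨0,[]⟩,⟨0,[]⟩) .k .k) (.R ⟨0,false,false,false,[1,0,0,0,-1],[0,
  0,1],[1,1,1],(⟨0,[(28,0)]⟩,⟨0,[(29,0)]⟩),(⟨0,[(36,0)]⟩,⟨0,[(35,0)]⟩),⟨0,[(2,0)]⟩,.k,.k,(.r (-1)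
  ⟨1,[(21,0),(20,0),(2,0)]⟩ ⟨1,[(17,1),(14,1),(0,0),(0,0)]⟩),.k,.k,.k,⟨false,0,⟨4,[(8,0),(4,0),(9,
  0),(8,3),(0,0),(3,0)]⟩,⟨1,[(1,0),(1,0),(3,0),(9,0),(4,0),(22,0)]⟩⟩,⟨true,(-1),⟨0,[(0,0),(17,0)]⟩,
  ⟨0,[(3,0)]⟩⟩,⟨true,(-1),⟨0,[(8,0),(1,0),(2,0),(20,1),(2,0)]⟩,⟨1,[(44,0),(0,0)]⟩⟩,⟨false,(-1),⟨1,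
  [(0,1),(6,0),(9,0)]⟩,⟨5,[(3,3),(4,1),(17,1),(5,1),(4,0),(5,1),(0,0),(0,3)]⟩⟩,⟨false,0,⟨0,[]⟩,⟨0,
  []⟩⟩,⟨false,0,⟨0,[]⟩,⟨0,[]⟩⟩,[.o ⟨false,0,⟨0,[(15,0)]⟩,⟨1,[(32,1),(4,0),(7,0)]⟩⟩,.e ⟨false,0,⟨0,
  []⟩,⟨1,[(26,0),(0,0),(16,0)]⟩⟩ ⟨false,0,⟨1,[(0,0),(6,0),(9,0),(4,0),(4,0),(17,0)]⟩,⟨1,[(3,1),(4,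
  0),(31,0),(2,0)]⟩⟩,.a ⟨true,1,⟨0,[(26,0)]⟩,⟨0,[(0,0)]⟩⟩ ⟨false,0,⟨1,[(33,0),(0,0)]⟩,⟨1,[(44,0),(0,
  0)]⟩⟩ ⟨true,(-1),⟨1,[(0,1),(6,0),(9,0)]⟩,⟨1,[(3,1),(4,0),(31,0),(2,0)]⟩⟩,.o ⟨false,1,⟨0,[(4,0)]⟩,
  ⟨0,[(5,0)]⟩⟩]⟩) (.Q [0,0,2,0,0,0,1,0,-1,0,-1,1] (.p false [0,0,1] [0,0,0,0,1] (⟨0,[(36,0)]⟩,⟨0,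
  [(35,0)]⟩) .k 2 (⟨0,[(29,0)]⟩,⟨0,[(28,0)]⟩) .k (.r (-1) ⟨1,[(1,0),(5,0),(9,0),(8,0),(7,0),(10,
  0)]⟩ ⟨4,[(8,0),(4,0),(9,0),(8,3),(0,0),(3,0)]⟩)) (.Q [0,-1,0,-1,0,0,1,1,0,1,-1] (.p false [0,0,1]
  [1] (⟨0,[(37,0)]⟩,⟨0,[(36,0)]⟩) .k 1 (⟨0,[]⟩,⟨0,[]⟩) .k .k) (.R ⟨0,false,false,true,[1,0,0,0,-1],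
  [1,1,-1],[0,0,1],(⟨0,[(30,0)]⟩,⟨0,[(31,0)]⟩),(⟨0,[(37,0),(3,0)]⟩,⟨0,[(27,0)]⟩),⟨0,[(4,0)]⟩,.k,.k,
  (.r (-1) ⟨1,[(23,0),(20,0),(2,0)]⟩ ⟨2,[(1,0),(17,2),(9,0),(4,2),(1,0)]⟩),(.r (-1) ⟨3,[(0,1),(2,1),
  (1,1),(3,0),(9,0),(3,1)]⟩ ⟨0,[(34,0),(0,0),(9,0)]⟩),.k,.k,⟨false,1,⟨3,[(0,1),(2,1),(1,1),(3,0),(9,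
  0),(3,1)]⟩,⟨15,[(1,1),(8,2),(0,1),(13,3),(8,9),(4,1),(2,0),(2,18)]⟩⟩,⟨true,0,⟨0,[(3,0)]⟩,⟨0,[(1,
  0)]⟩⟩,⟨false,0,⟨2,[(1,0),(27,0),(6,0)]⟩,⟨1,[(46,0),(0,0)]⟩⟩,⟨true,(-1),⟨1,[(3,0),(6,1),(0,0),(3,
  1),(20,2),(2,0),(5,1)]⟩,⟨0,[(0,0),(1,0)]⟩⟩,⟨false,0,⟨0,[]⟩,⟨0,[]⟩⟩,⟨false,0,⟨0,[]⟩,⟨0,[]⟩⟩,[.a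
  ⟨true,0,⟨0,[(34,0),(10,0)]⟩,⟨0,[(0,0)]⟩⟩ ⟨true,0,⟨2,[(1,0),(27,0),(6,0)]⟩,⟨0,[]⟩⟩ ⟨false,0,⟨0,[(7,
  0),(26,0),(10,0)]⟩,⟨0,[(0,0),(1,0)]⟩⟩,.o ⟨false,1,⟨1,[(34,1),(4,0),(5,1),(1,0)]⟩,⟨0,[(9,0)]⟩⟩,.o
  ⟨false,1,⟨0,[(2,0)]⟩,⟨0,[(29,0)]⟩⟩,.o ⟨false,1,⟨0,[(6,0)]⟩,⟨0,[(7,0)]⟩⟩]⟩) (.Q [0,0,1,0,-1,0,0,0,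
  1,1,0,-1] (.p false [0,0,0,0,1] [1] (⟨0,[(31,0)]⟩,⟨0,[(30,0)]⟩) .k 1 (⟨0,[]⟩,⟨0,[]⟩) .k .k) (.S
  ⟨1,0,[0,1],[0,0,0,0,1],[0,2],(⟨0,[(32,0)]⟩,⟨0,[(31,0)]⟩),⟨0,[(5,0),(21,0),(0,0)]⟩,.k,(.r 0 ⟨0,
  [(44,0)]⟩ ⟨5,[(0,1),(5,3),(19,1),(2,0),(0,2),(15,5),(1,2)]⟩),⟨true,0,⟨0,[(50,0)]⟩,⟨0,[]⟩⟩,⟨false,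
  1,⟨1,[(29,0),(0,0),(17,0)]⟩,⟨0,[]⟩⟩,⟨false,0,⟨0,[(46,0)]⟩,⟨0,[(45,0),(2,0)]⟩⟩,⟨true,0,⟨0,[(46,
  0)]⟩,⟨0,[(45,0)]⟩⟩,[.e ⟨false,0,⟨0,[(43,0)]⟩,⟨0,[(48,0)]⟩⟩ ⟨false,0,⟨8,[(1,0),(18,0),(2,1),(1,0),
  (17,2)]⟩,⟨1,[(29,0),(0,0),(17,0)]⟩⟩,.o ⟨false,0,⟨0,[(30,0)]⟩,⟨0,[(3,0)]⟩⟩,.o ⟨false,0,⟨0,[(30,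
  0)]⟩,⟨0,[(3,0)]⟩⟩,.a ⟨true,(-1),⟨0,[(0,0)]⟩,⟨1,[(3,0),(21,0),(3,0)]⟩⟩ ⟨false,0,⟨8,[(1,0),(18,0),
  (2,1),(1,0),(17,2)]⟩,⟨2,[(0,0),(5,0),(29,0),(11,2)]⟩⟩ ⟨true,0,⟨8,[(1,0),(18,0),(2,1),(1,0),(17,
  2)]⟩,⟨2,[(0,0),(5,0),(29,0)]⟩⟩]⟩) (.I [0,0,-1,0,1,1,2,0,-2] (.Q [0,0,0,0,0,2,0,0,0,-1,1] (.p true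
  [0,0,1] [1] (⟨0,[(40,0)]⟩,⟨0,[(39,0)]⟩) .k 1 (⟨0,[]⟩,⟨0,[]⟩) .k .k) (.R ⟨0,false,false,false,[1,
  -1,-1],[0,0,0,0,1],[1,1],(⟨0,[(29,0)]⟩,⟨0,[(0,0),(42,0)]⟩),(⟨0,[(34,0)]⟩,⟨0,[(33,0)]⟩),⟨0,[(0,
  0)]⟩,.k,.k,(.r (-1) ⟨4,[(19,4),(4,1),(20,0),(1,0)]⟩ ⟨2,[(4,0),(17,2),(9,0),(6,3),(8,2)]⟩),(.r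
  (-1) ⟨0,[(19,0)]⟩ ⟨0,[(8,0),(9,0),(13,0)]⟩),.k,.k,⟨true,0,⟨0,[]⟩,⟨2,[(4,0),(27,0),(6,0)]⟩⟩,⟨false,
  0,⟨1,[(10,1),(16,0),(0,0)]⟩,⟨0,[(8,0)]⟩⟩,⟨false,0,⟨0,[(22,0),(16,0)]⟩,⟨0,[(19,0)]⟩⟩,⟨true,(-1),⟨0,
  [(18,0),(13,0)]⟩,⟨4,[(2,2),(5,1),(2,0),(1,2),(25,3)]⟩⟩,⟨false,0,⟨0,[]⟩,⟨0,[]⟩⟩,⟨false,0,⟨0,[]⟩,⟨0,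
  []⟩⟩,[.e ⟨false,0,⟨8,[(3,0),(18,0),(2,1),(1,0),(17,2)]⟩,⟨1,[(31,0),(0,0),(17,0)]⟩⟩ ⟨false,(-1),⟨0,
  [(6,0),(6,0),(1,0),(6,0)]⟩,⟨1,[(8,1),(22,0),(0,0),(17,0)]⟩⟩,.o ⟨false,0,⟨0,[(32,0)]⟩,⟨0,[(5,0)]⟩⟩,
  .a ⟨true,0,⟨0,[(39,0)]⟩,⟨0,[(35,0)]⟩⟩ ⟨false,0,⟨0,[]⟩,⟨1,[(31,0),(0,0),(17,0)]⟩⟩ ⟨true,(-1),⟨1,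
  [(10,0),(2,0),(1,0),(2,0),(13,0)]⟩,⟨0,[(8,0)]⟩⟩,.e ⟨true,0,⟨8,[(3,0),(18,0),(2,1),(1,0),(17,2)]⟩,
  ⟨2,[(4,0),(27,0),(6,0)]⟩⟩ ⟨true,(-1),⟨0,[(6,0),(6,0),(1,0),(6,0)]⟩,⟨2,[(4,0),(3,2),(23,0),(6,
  0)]⟩⟩]⟩) (.Q [0,1,0,-2,0,0,0,0,0,-1] (.pp true [-1,1]) (.Q [0,0,1,0,1,0,0,0,-2,-1,0,2] (.p true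
  [0,0,0,0,1] [1,0,0,0,-1] (⟨0,[(35,0)]⟩,⟨0,[(34,0)]⟩) .k 2 (⟨0,[(34,0)]⟩,⟨0,[(35,0)]⟩) .k (.r 0 ⟨0,
  [(53,1)]⟩ ⟨0,[(51,0)]⟩)) (.Q [0,0,0,0,-1,0,0,0,2,1,0,-2] (.p false [0,0,0,0,1] [1,0,0,0,-1] (⟨0,
  [(36,0)]⟩,⟨0,[(35,0)]⟩) .k 2 (⟨0,[(35,0)]⟩,⟨0,[(36,0)]⟩) .k (.r 0 ⟨0,[(54,1)]⟩ ⟨0,[(52,0)]⟩)) (.Q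
  [0,2,0,0,-2,0,0,0,2,1,0,-2] (.p false [0,0,0,0,1] [1,0,0,0,-1] (⟨0,[(37,0)]⟩,⟨0,[(36,0)]⟩) .k 2
  (⟨0,[(36,0)]⟩,⟨0,[(37,0)]⟩) .k (.r 0 ⟨0,[(55,1)]⟩ ⟨0,[(53,0)]⟩)) (.R ⟨0,false,false,false,[1,0,0,
  0,-1],[0,0,0,0,1],[1],(⟨0,[(37,0)]⟩,⟨0,[(38,0)]⟩),(⟨0,[(38,0)]⟩,⟨0,[(37,0)]⟩),⟨0,[(11,0)]⟩,.k,.k,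
  (.r (-1) ⟨1,[(30,0),(20,0),(2,0)]⟩ ⟨2,[(1,0),(6,0),(3,0),(13,2),(14,2)]⟩),.k,.k,.k,⟨false,1,⟨1,
  [(53,0),(0,0)]⟩,⟨0,[(56,0)]⟩⟩,⟨true,(-1),⟨0,[(1,0)]⟩,⟨0,[(2,0)]⟩⟩,⟨false,0,⟨0,[]⟩,⟨1,[(35,0),(0,
  0),(17,0)]⟩⟩,⟨true,(-2),⟨0,[(0,0)]⟩,⟨1,[(2,0),(3,0),(28,0),(18,0)]⟩⟩,⟨false,0,⟨0,[]⟩,⟨0,[]⟩⟩,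
  ⟨false,0,⟨0,[]⟩,⟨0,[]⟩⟩,[.a ⟨true,(-1),⟨1,[(1,0),(17,0),(21,0)]⟩,⟨7,[(2,2),(5,0),(22,2),(3,0),(7,
  0),(10,3)]⟩⟩ ⟨true,0,⟨0,[]⟩,⟨2,[(1,0),(6,0),(3,0)]⟩⟩ ⟨false,(-1),⟨1,[(0,0),(0,0),(51,0)]⟩,⟨1,[(2,
  0),(3,0),(28,0),(18,0)]⟩⟩,.o ⟨false,0,⟨0,[(36,0)]⟩,⟨0,[(9,0)]⟩⟩,.o ⟨false,1,⟨0,[(9,0)]⟩,⟨0,[(36,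
  0)]⟩⟩,.o ⟨false,1,⟨0,[(13,0)]⟩,⟨0,[(14,0)]⟩⟩]⟩) (.R ⟨0,false,false,true,[1,0,0,0,-1],[0,0,0,0,1],
  [1,1],(⟨0,[(37,0)]⟩,⟨0,[(38,0)]⟩),(⟨0,[(38,0)]⟩,⟨0,[(37,0)]⟩),⟨0,[(11,0)]⟩,.k,.k,(.r (-1) ⟨1,[(30,
  0),(20,0),(2,0)]⟩ ⟨2,[(1,0),(6,0),(3,0),(13,2),(14,2)]⟩),.k,.k,.k,⟨false,1,⟨1,[(53,0),(0,0)]⟩,⟨0,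
  [(56,0)]⟩⟩,⟨true,(-1),⟨0,[(1,0)]⟩,⟨0,[(2,0)]⟩⟩,⟨false,0,⟨0,[(56,0)]⟩,⟨0,[(54,0)]⟩⟩,⟨true,(-2),⟨1,
  [(1,0),(16,1),(0,0),(21,0)]⟩,⟨0,[(0,0)]⟩⟩,⟨false,0,⟨0,[]⟩,⟨0,[]⟩⟩,⟨false,0,⟨0,[]⟩,⟨0,[]⟩⟩,[.o
  ⟨false,(-1),⟨0,[(18,0)]⟩,⟨2,[(0,0),(34,0),(10,0),(7,1)]⟩⟩,.a ⟨true,(-1),⟨1,[(1,0),(17,0),(21,0)]⟩,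
  ⟨9,[(0,2),(7,1),(22,2),(3,1),(7,1),(10,1)]⟩⟩ ⟨true,0,⟨0,[]⟩,⟨2,[(1,0),(6,0),(3,0)]⟩⟩ ⟨false,(-1),
  ⟨3,[(1,2),(12,0),(3,0),(12,0),(17,0)]⟩,⟨1,[(0,0),(8,0),(25,0)]⟩⟩,.o ⟨false,1,⟨0,[(9,0)]⟩,⟨0,[(36,
  0)]⟩⟩,.o ⟨false,1,⟨0,[(13,0)]⟩,⟨0,[(14,0)]⟩⟩]⟩)) (.I [1,2,-1,-1,-1,0,0,-2] (.R ⟨0,false,false,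
  false,[1,0,0,0,-1],[1,0,1,0,-1],[0,0,1],(⟨0,[(37,0)]⟩,⟨0,[(38,0)]⟩),(⟨0,[(37,0),(7,0)]⟩,⟨1,[(4,0),
  (6,1),(32,0)]⟩),⟨0,[(11,0)]⟩,.k,.k,(.r (-1) ⟨1,[(30,0),(20,0),(2,0)]⟩ ⟨2,[(8,0),(17,2),(9,0),(4,
  2),(1,0)]⟩),.k,.k,.k,⟨false,0,⟨8,[(0,0),(6,0),(24,2),(8,5),(0,0),(3,0)]⟩,⟨1,[(10,0),(1,0),(3,0),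
  (9,0),(4,0),(22,0)]⟩⟩,⟨true,0,⟨0,[(27,0)]⟩,⟨0,[(43,0)]⟩⟩,⟨false,0,⟨2,[(8,0),(27,0),(6,0)]⟩,⟨1,
  [(53,0),(0,0)]⟩⟩,⟨true,0,⟨0,[(24,0)]⟩,⟨0,[(41,0)]⟩⟩,⟨false,0,⟨0,[]⟩,⟨0,[]⟩⟩,⟨false,0,⟨0,[]⟩,⟨0,
  []⟩⟩,[.a ⟨true,1,⟨2,[(1,0),(14,0),(2,0),(6,0),(8,0),(18,1)]⟩,⟨1,[(10,0),(6,1),(4,1),(13,0),(6,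
  2)]⟩⟩ ⟨true,0,⟨2,[(8,0),(27,0),(6,0)]⟩,⟨0,[]⟩⟩ ⟨false,1,⟨1,[(16,0),(9,0),(26,0),(0,0)]⟩,⟨0,[(41,
  0)]⟩⟩,.o ⟨false,2,⟨5,[(1,1),(14,2),(9,2),(8,1),(10,1),(7,5)]⟩,⟨3,[(0,1),(6,0),(2,0),(7,0),(3,0),
  (13,1),(6,2)]⟩⟩,.o ⟨false,1,⟨0,[(9,0)]⟩,⟨0,[(36,0)]⟩⟩,.o ⟨false,1,⟨0,[(13,0)]⟩,⟨0,[(14,0)]⟩⟩]⟩)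
  (.I [1,0,1,1,0,0,0,2] (.I [0,0,1,0,1,-1,-2] (.N [0,1,2] 0 ⟨0,[(1,0)]⟩ ⟨0,[(19,0)]⟩ (.x 0 ⟨2,[(7,
  0),(5,1),(2,0),(2,0),(1,0),(2,0),(4,1),(8,0),(8,3),(8,0)]⟩ ⟨0,[(0,0)]⟩)) (.R ⟨0,false,false,false,
  [1,0,0,0,-1],[1,0,1,0,-1],[0,0,1],(⟨0,[(39,0)]⟩,⟨0,[(40,0)]⟩),(⟨0,[(39,0),(7,0)]⟩,⟨1,[(6,0),(6,1),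
  (32,0)]⟩),⟨0,[(13,0)]⟩,.k,.k,(.r (-1) ⟨9,[(2,1),(14,0),(7,3),(1,0),(4,3),(20,0)]⟩ ⟨3,[(1,1),(7,0),
  (24,0),(8,2),(0,1),(9,0)]⟩),.k,.k,.k,⟨false,0,⟨3,[(9,0),(13,0),(10,0),(8,1),(0,0)]⟩,⟨3,[(2,1),(28,
  0),(0,0),(22,0)]⟩⟩,⟨true,0,⟨0,[(29,0)]⟩,⟨0,[(45,0)]⟩⟩,⟨false,0,⟨2,[(10,0),(27,0),(6,0)]⟩,⟨1,[(55,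
  0),(0,0)]⟩⟩,⟨true,0,⟨0,[(26,0)]⟩,⟨0,[(43,0)]⟩⟩,⟨false,0,⟨0,[]⟩,⟨0,[]⟩⟩,⟨false,0,⟨0,[]⟩,⟨0,[]⟩⟩,
  [.a ⟨true,1,⟨5,[(2,1),(0,2),(14,1),(14,0),(0,1),(21,0)]⟩,⟨1,[(12,0),(6,1),(4,1),(13,0),(6,2)]⟩⟩
  ⟨true,0,⟨2,[(10,0),(27,0),(6,0)]⟩,⟨0,[]⟩⟩ ⟨false,1,⟨7,[(2,1),(15,0),(9,2),(3,3),(1,1),(13,0),(6,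
  0)]⟩,⟨0,[(43,0)]⟩⟩,.o ⟨false,2,⟨2,[(2,0),(0,0),(4,0),(9,0),(15,0),(13,0),(7,1)]⟩,⟨3,[(9,0),(2,0),
  (6,1),(0,2),(3,0),(20,2)]⟩⟩,.o ⟨false,1,⟨0,[(11,0)]⟩,⟨0,[(38,0)]⟩⟩,.o ⟨false,1,⟨0,[(15,0)]⟩,⟨0,
  [(16,0)]⟩⟩]⟩)) (.R ⟨0,false,false,false,[1,0,0,0,-1],[1,0,1,0,-1],[0,0,1],(⟨0,[(38,0)]⟩,⟨0,[(39,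
  0)]⟩),(⟨0,[(38,0),(7,0)]⟩,⟨1,[(5,0),(6,1),(32,0)]⟩),⟨0,[(12,0)]⟩,.k,.k,(.r (-1) ⟨9,[(1,1),(14,0),
  (7,3),(1,0),(4,3),(20,0)]⟩ ⟨2,[(1,0),(6,0),(14,0),(18,1),(0,1),(13,0)]⟩),.k,.k,.k,⟨false,0,⟨3,[(8,
  0),(13,0),(10,0),(8,1),(0,0)]⟩,⟨3,[(1,1),(28,0),(0,0),(22,0)]⟩⟩,⟨true,0,⟨0,[(28,0)]⟩,⟨0,[(44,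
  0)]⟩⟩,⟨false,0,⟨2,[(9,0),(27,0),(6,0)]⟩,⟨1,[(54,0),(0,0)]⟩⟩,⟨true,0,⟨0,[(25,0)]⟩,⟨0,[(42,0)]⟩⟩,
  ⟨false,0,⟨0,[]⟩,⟨0,[]⟩⟩,⟨false,0,⟨0,[]⟩,⟨0,[]⟩⟩,[.a ⟨true,1,⟨5,[(1,1),(0,2),(14,1),(14,0),(0,1),
  (21,0)]⟩,⟨1,[(0,1),(10,0),(11,1),(13,0),(6,2)]⟩⟩ ⟨true,0,⟨2,[(9,0),(27,0),(6,0)]⟩,⟨0,[]⟩⟩ ⟨false,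
  1,⟨7,[(1,1),(15,0),(9,2),(3,3),(1,1),(13,0),(6,0)]⟩,⟨0,[(42,0)]⟩⟩,.o ⟨false,2,⟨2,[(1,0),(0,0),(4,
  0),(9,0),(15,0),(13,0),(7,1)]⟩,⟨3,[(0,1),(7,0),(2,0),(7,2),(3,0),(20,2)]⟩⟩,.o ⟨false,1,⟨0,[(10,
  0)]⟩,⟨0,[(37,0)]⟩⟩,.o ⟨false,1,⟨0,[(14,0)]⟩,⟨0,[(15,0)]⟩⟩]⟩)))) (.Q [0,0,3,0,0,0,0,0,0,-1] (.pp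
  true [-1,1]) (.Q [0,-1,0,3,0,0,0,0,0,1] (.pp false [-1,1]) (.R ⟨1,true,false,false,[1,-1],[0,1],
  [0,0,-1,-1],(⟨0,[(47,0)]⟩,⟨0,[(48,0)]⟩),(⟨0,[(48,0)]⟩,⟨0,[(47,0)]⟩),⟨1,[(4,0),(29,0),(12,0)]⟩,.k,
  .k,(.r (-1) ⟨0,[(30,0),(20,0)]⟩ ⟨14,[(0,9),(0,10),(30,0),(10,1),(5,4)]⟩),(.r (-1) ⟨0,[(30,0),(20,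
  0)]⟩ ⟨14,[(0,9),(0,10),(30,0),(10,1),(5,4)]⟩),(.r (-1) ⟨3,[(15,0),(9,0),(2,1),(1,3),(20,0)]⟩ ⟨9,
  [(0,9),(0,10),(30,0),(10,1),(5,4)]⟩),.k,⟨false,1,⟨3,[(28,1),(1,2),(20,0),(1,0)]⟩,⟨14,[(0,9),(0,
  10),(30,0),(10,1),(5,4)]⟩⟩,⟨true,0,⟨0,[(31,0)]⟩,⟨0,[(1,0)]⟩⟩,⟨false,1,⟨1,[(35,0),(0,0),(17,0)]⟩,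
  ⟨0,[]⟩⟩,⟨true,0,⟨11,[(0,7),(1,0),(16,0),(12,1),(2,1),(5,0),(1,3),(5,2)]⟩,⟨0,[(3,0)]⟩⟩,⟨true,0,⟨0,
  [(52,0)]⟩,⟨0,[(51,0)]⟩⟩,⟨false,0,⟨0,[(0,0)]⟩,⟨4,[(3,2),(8,1),(2,2),(7,1),(1,0),(10,1),(17,0)]⟩⟩,
  []⟩) (.Q [0,0,0,0,0,2,0,0,0,0,-1] (.p false [0,0,1] [] (⟨0,[(45,0)]⟩,⟨0,[(44,0)]⟩) .k 0 (⟨0,[]⟩,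
  ⟨0,[]⟩) .k .k) (.R ⟨0,false,false,true,[0,-1,1],[0,0,0,0,1],[1,1],(⟨0,[(35,0)]⟩,⟨0,[(0,0),(47,
  0)]⟩),(⟨0,[(39,0)]⟩,⟨0,[(38,0)]⟩),⟨0,[(0,0)]⟩,.k,.k,(.r (-1) ⟨1,[(11,0),(1,0),(2,1),(15,0),(21,
  0)]⟩ ⟨13,[(2,4),(0,4),(5,9),(8,1),(23,9),(10,29),(1,4)]⟩),(.r (-1) ⟨1,[(11,0),(1,0),(3,1),(14,0),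
  (22,0)]⟩ ⟨5,[(2,1),(5,0),(24,2),(8,4),(10,4)]⟩),.k,.k,⟨false,1,⟨1,[(54,0),(0,0)]⟩,⟨9,[(2,0),(30,
  0),(10,1),(5,4)]⟩⟩,⟨true,0,⟨0,[(11,0)]⟩,⟨0,[(9,0)]⟩⟩,⟨false,0,⟨13,[(2,2),(0,2),(5,5),(8,3),(23,5),
  (10,17),(1,2)]⟩,⟨1,[(11,0),(1,0),(3,1),(14,0),(22,0)]⟩⟩,⟨true,(-1),⟨5,[(2,0),(0,2),(4,4),(11,1),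
  (2,0),(18,3)]⟩,⟨11,[(7,4),(1,2),(3,2),(2,5),(3,5),(11,1),(3,0),(18,8)]⟩⟩,⟨false,0,⟨0,[]⟩,⟨0,[]⟩⟩,
  ⟨false,0,⟨0,[]⟩,⟨0,[]⟩⟩,[.o ⟨false,(-1),⟨0,[(19,0)]⟩,⟨0,[(10,0),(44,0)]⟩⟩,.a ⟨true,(-1),⟨9,[(2,0),
  (0,4),(16,4),(12,0),(8,4),(1,1)]⟩,⟨1,[(7,0),(1,0),(22,0),(11,0),(10,0)]⟩⟩ ⟨true,0,⟨0,[]⟩,⟨4,[(2,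
  0),(30,0),(10,1)]⟩⟩ ⟨false,0,⟨8,[(8,0),(2,8),(15,0),(2,1),(1,0),(17,2)]⟩,⟨3,[(9,1),(0,0),(22,0),
  (2,0),(18,1)]⟩⟩,.o ⟨false,0,⟨0,[(43,0)]⟩,⟨5,[(7,1),(3,3),(1,1),(33,0),(6,0)]⟩⟩,.o ⟨false,0,⟨4,[(2,
  2),(30,2),(10,0)]⟩,⟨0,[(7,0),(3,0)]⟩⟩]⟩) (.R ⟨0,false,false,false,[1,0,0,0,-1],[1,0,1,0,-1],[0,0,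
  1],(⟨0,[(38,0)]⟩,⟨0,[(39,0)]⟩),(⟨0,[(38,0),(7,0)]⟩,⟨1,[(5,0),(6,1),(32,0)]⟩),⟨0,[(12,0)]⟩,.k,.k,
  (.r (-1) ⟨1,[(31,0),(20,0),(2,0)]⟩ ⟨2,[(2,0),(20,0),(3,0),(8,0),(0,0),(4,1),(10,0)]⟩),.k,.k,.k,
  ⟨false,0,⟨10,[(2,0),(5,2),(13,2),(10,3),(8,4)]⟩,⟨1,[(11,0),(1,0),(3,0),(9,0),(4,0),(22,0)]⟩⟩,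
  ⟨true,0,⟨0,[(28,0)]⟩,⟨0,[(44,0)]⟩⟩,⟨false,0,⟨4,[(2,0),(30,0),(10,1)]⟩,⟨1,[(54,0),(0,0)]⟩⟩,⟨true,0,
  ⟨0,[(25,0)]⟩,⟨0,[(42,0)]⟩⟩,⟨false,0,⟨0,[]⟩,⟨0,[]⟩⟩,⟨false,0,⟨0,[]⟩,⟨0,[]⟩⟩,[.a ⟨true,1,⟨5,[(7,2),
  (1,0),(3,0),(3,0),(2,3),(6,0),(8,0),(18,4)]⟩,⟨1,[(3,0),(14,0),(4,0),(18,0),(1,1)]⟩⟩ ⟨true,0,⟨4,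
  [(2,0),(30,0),(10,1)]⟩,⟨0,[]⟩⟩ ⟨false,1,⟨1,[(17,0),(9,0),(26,0),(0,0)]⟩,⟨0,[(42,0)]⟩⟩,.o ⟨false,2,
  ⟨1,[(10,1),(6,0),(9,0),(27,1)]⟩,⟨3,[(3,0),(4,1),(9,0),(0,1),(0,0),(5,0),(17,1)]⟩⟩,.o ⟨false,1,⟨0,
  [(10,0)]⟩,⟨0,[(37,0)]⟩⟩,.o ⟨false,1,⟨0,[(14,0)]⟩,⟨0,[(15,0)]⟩⟩]⟩))) (.Q [0,0,0,0,0,2,0,0,0,0,-1]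
  (.p false [0,0,1] [] (⟨0,[(44,0)]⟩,⟨0,[(43,0)]⟩) .k 0 (⟨0,[]⟩,⟨0,[]⟩) .k .k) (.R ⟨0,false,false,
  true,[0,-1,1],[0,0,0,0,1],[1,1],(⟨0,[(34,0)]⟩,⟨1,[(0,0),(43,1),(0,0)]⟩),(⟨0,[(38,0)]⟩,⟨0,[(37,
  0)]⟩),⟨0,[(0,0)]⟩,.k,.k,(.r (-1) ⟨1,[(10,0),(1,0),(2,1),(15,0),(21,0)]⟩ ⟨5,[(2,2),(4,2),(0,6),(27,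
  0),(4,2),(1,0),(8,8),(1,2)]⟩),(.r (-1) ⟨1,[(10,0),(1,0),(3,1),(14,0),(22,0)]⟩ ⟨0,[(41,0),(0,0),(9,
  0)]⟩),.k,.k,⟨false,1,⟨1,[(53,0),(0,0)]⟩,⟨0,[(56,0)]⟩⟩,⟨true,0,⟨0,[(10,0)]⟩,⟨0,[(8,0)]⟩⟩,⟨false,0,
  ⟨7,[(2,2),(4,2),(0,5),(8,0),(23,2),(10,5),(1,2)]⟩,⟨1,[(10,0),(1,0),(3,1),(14,0),(22,0)]⟩⟩,⟨true,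
  (-1),⟨15,[(2,6),(4,11),(0,1),(8,0),(0,3),(3,4),(18,6),(1,3)]⟩,⟨7,[(1,0),(4,2),(1,1),(3,1),(2,3),
  (3,3),(15,0),(18,5)]⟩⟩,⟨false,0,⟨0,[]⟩,⟨0,[]⟩⟩,⟨false,0,⟨0,[]⟩,⟨0,[]⟩⟩,[.o ⟨false,(-1),⟨0,[(18,
  0)]⟩,⟨0,[(9,0),(44,0)]⟩⟩,.a ⟨true,(-1),⟨9,[(2,4),(5,0),(9,0),(0,3),(12,0),(8,3),(1,2)]⟩,⟨1,[(1,0),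
  (6,0),(3,0),(41,0)]⟩⟩ ⟨true,0,⟨0,[]⟩,⟨2,[(8,0),(27,0),(6,0)]⟩⟩ ⟨false,0,⟨15,[(1,1),(5,0),(2,15),
  (11,0),(6,1),(16,0),(2,5)]⟩,⟨3,[(8,1),(0,0),(22,0),(2,0),(18,1)]⟩⟩,.o ⟨false,0,⟨0,[(42,0)]⟩,⟨5,
  [(6,1),(3,3),(1,1),(33,0),(6,0)]⟩⟩,.o ⟨false,0,⟨0,[(8,0),(27,0)]⟩,⟨0,[(6,0),(3,0)]⟩⟩]⟩) (.I [1,1,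
  3,3,-1] (.I [1,-1,-3,-3,1] (.N [0,3,0,0,1] 1 ⟨0,[(1,0)]⟩ ⟨0,[(0,0)]⟩ (.x 0 ⟨1,[(3,0),(0,0),(8,1),
  (36,3),(4,0)]⟩ ⟨3,[(2,2),(3,2),(3,3),(3,0),(23,0),(0,3),(5,2),(2,2)]⟩)) (.R ⟨0,false,false,false,
  [1,0,0,0,-1],[1,0,1,0,-1],[0,0,1],(⟨0,[(39,0)]⟩,⟨0,[(40,0)]⟩),(⟨0,[(39,0),(7,0)]⟩,⟨1,[(6,0),(6,1),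
  (32,0)]⟩),⟨0,[(13,0)]⟩,.k,.k,(.r (-1) ⟨1,[(32,0),(20,0),(2,0)]⟩ ⟨4,[(1,1),(35,1),(0,1),(12,0),(1,
  0)]⟩),.k,.k,.k,⟨false,0,⟨14,[(1,1),(17,0),(3,4),(10,3),(8,7),(4,1)]⟩,⟨1,[(12,0),(1,0),(3,0),(9,0),
  (4,0),(22,0)]⟩⟩,⟨true,0,⟨0,[(29,0)]⟩,⟨0,[(45,0)]⟩⟩,⟨false,0,⟨2,[(10,0),(27,0),(6,0)]⟩,⟨1,[(55,0),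
  (0,0)]⟩⟩,⟨true,0,⟨0,[(26,0)]⟩,⟨0,[(43,0)]⟩⟩,⟨false,0,⟨0,[]⟩,⟨0,[]⟩⟩,⟨false,0,⟨0,[]⟩,⟨0,[]⟩⟩,[.a
  ⟨true,1,⟨5,[(8,2),(1,0),(3,0),(3,0),(2,3),(6,0),(8,0),(18,4)]⟩,⟨13,[(1,3),(1,1),(0,6),(14,4),(1,
  2),(5,6),(5,1),(11,9)]⟩⟩ ⟨true,0,⟨2,[(10,0),(27,0),(6,0)]⟩,⟨0,[]⟩⟩ ⟨false,1,⟨1,[(18,0),(9,0),(26,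
  0),(0,0)]⟩,⟨0,[(43,0)]⟩⟩,.o ⟨false,2,⟨1,[(11,1),(6,0),(9,0),(27,1)]⟩,⟨3,[(4,0),(4,1),(9,0),(0,1),
  (0,0),(5,0),(17,1)]⟩⟩,.o ⟨false,1,⟨0,[(11,0)]⟩,⟨0,[(38,0)]⟩⟩,.o ⟨false,1,⟨0,[(15,0)]⟩,⟨0,[(16,
  0)]⟩⟩]⟩)) (.I [1,2,-1,-1,-1,0,0,-2] (.R ⟨0,false,false,false,[1,0,0,0,-1],[1,0,1,0,-1],[0,0,1],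
  (⟨0,[(39,0)]⟩,⟨0,[(40,0)]⟩),(⟨0,[(39,0),(7,0)]⟩,⟨1,[(6,0),(6,1),(32,0)]⟩),⟨0,[(13,0)]⟩,.k,.k,(.r
  (-1) ⟨2,[(1,0),(35,0),(0,0),(17,0)]⟩ ⟨2,[(10,0),(17,2),(9,0),(4,2),(1,0)]⟩),.k,.k,.k,⟨false,0,⟨8,
  [(0,0),(8,0),(24,2),(8,5),(0,0),(3,0)]⟩,⟨1,[(12,0),(1,0),(3,0),(9,0),(4,0),(22,0)]⟩⟩,⟨true,0,⟨0,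
  [(29,0)]⟩,⟨0,[(45,0)]⟩⟩,⟨false,0,⟨2,[(10,0),(27,0),(6,0)]⟩,⟨1,[(55,0),(0,0)]⟩⟩,⟨true,0,⟨0,[(26,
  0)]⟩,⟨0,[(43,0)]⟩⟩,⟨false,0,⟨0,[]⟩,⟨0,[]⟩⟩,⟨false,0,⟨0,[]⟩,⟨0,[]⟩⟩,[.a ⟨true,1,⟨5,[(8,2),(1,0),(3,
  0),(3,0),(2,3),(6,0),(8,0),(18,4)]⟩,⟨1,[(4,0),(14,0),(4,0),(18,0),(1,1)]⟩⟩ ⟨true,0,⟨2,[(10,0),(27,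
  0),(6,0)]⟩,⟨0,[]⟩⟩ ⟨false,1,⟨1,[(18,0),(9,0),(26,0),(0,0)]⟩,⟨0,[(43,0)]⟩⟩,.o ⟨false,2,⟨1,[(11,1),
  (6,0),(9,0),(27,1)]⟩,⟨3,[(0,0),(3,0),(4,0),(10,1),(22,0),(1,1)]⟩⟩,.o ⟨false,1,⟨0,[(11,0)]⟩,⟨0,
  [(38,0)]⟩⟩,.o ⟨false,1,⟨0,[(15,0)]⟩,⟨0,[(16,0)]⟩⟩]⟩) (.R ⟨0,false,false,false,[1,0,0,0,-1],[1,0,1,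
  0,-1],[0,0,1],(⟨0,[(39,0)]⟩,⟨0,[(40,0)]⟩),(⟨0,[(39,0),(7,0)]⟩,⟨1,[(6,0),(6,1),(32,0)]⟩),⟨0,[(13,
  0)]⟩,.k,.k,(.r (-1) ⟨10,[(0,1),(0,2),(23,3),(11,1),(0,1)]⟩ ⟨2,[(0,0),(8,0),(14,0),(18,1),(0,1),
  (13,0)]⟩),.k,.k,.k,⟨false,0,⟨3,[(9,0),(13,0),(10,0),(8,1),(0,0)]⟩,⟨31,[(0,15),(0,3),(1,1),(27,3),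
  (16,0),(6,10)]⟩⟩,⟨true,0,⟨0,[(29,0)]⟩,⟨0,[(45,0)]⟩⟩,⟨false,0,⟨2,[(10,0),(27,0),(6,0)]⟩,⟨1,[(55,0),
  (0,0)]⟩⟩,⟨true,0,⟨0,[(26,0)]⟩,⟨0,[(43,0)]⟩⟩,⟨false,0,⟨0,[]⟩,⟨0,[]⟩⟩,⟨false,0,⟨0,[]⟩,⟨0,[]⟩⟩,[.a
  ⟨true,1,⟨21,[(0,9),(0,2),(1,4),(4,9),(1,11),(7,0),(2,0),(12,3)]⟩,⟨1,[(4,0),(14,0),(4,0),(18,0),(1,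
  1)]⟩⟩ ⟨true,0,⟨2,[(10,0),(27,0),(6,0)]⟩,⟨0,[]⟩⟩ ⟨false,1,⟨6,[(0,1),(0,0),(26,2),(3,1),(1,1),(13,
  0),(6,0)]⟩,⟨0,[(43,0)]⟩⟩,.o ⟨false,2,⟨8,[(0,2),(7,6),(1,1),(7,2),(15,1),(13,1),(7,5)]⟩,⟨3,[(4,0),
  (4,1),(9,0),(0,1),(0,0),(5,0),(17,1)]⟩⟩,.o ⟨false,1,⟨0,[(11,0)]⟩,⟨0,[(38,0)]⟩⟩,.o ⟨false,1,⟨0,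
  [(15,0)]⟩,⟨0,[(16,0)]⟩⟩]⟩)))))) (.Q [0,0,0,0,-1,0,0,0,2,1,0,-2] (.p false [0,0,0,0,1] [1,0,0,0,
  -1] (⟨0,[(35,0)]⟩,⟨0,[(34,0)]⟩) .k 2 (⟨0,[(34,0)]⟩,⟨0,[(35,0)]⟩) .k (.r 0 ⟨0,[(53,1)]⟩ ⟨0,[(51,
  0)]⟩)) (.Q [0,0,1,0,1,0,0,0,-2,-1,0,2] (.p true [0,0,0,0,1] [1,0,0,0,-1] (⟨0,[(36,0)]⟩,⟨0,[(35,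
  0)]⟩) .k 2 (⟨0,[(35,0)]⟩,⟨0,[(36,0)]⟩) .k (.r 0 ⟨0,[(54,1)]⟩ ⟨0,[(52,0)]⟩)) (.Q [0,2,0,0,-2,0,0,0,
  2,1,0,-2] (.p false [0,0,0,0,1] [1,0,0,0,-1] (⟨0,[(37,0)]⟩,⟨0,[(36,0)]⟩) .k 2 (⟨0,[(36,0)]⟩,⟨0,
  [(37,0)]⟩) .k (.r 0 ⟨0,[(55,1)]⟩ ⟨0,[(53,0)]⟩)) (.R ⟨0,false,false,false,[1,0,0,0,-1],[0,0,0,0,1],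
  [1],(⟨0,[(37,0)]⟩,⟨0,[(38,0)]⟩),(⟨0,[(38,0)]⟩,⟨0,[(37,0)]⟩),⟨0,[(11,0)]⟩,.k,.k,(.r (-1) ⟨1,[(30,
  0),(20,0),(2,0)]⟩ ⟨1,[(3,0),(8,0),(5,0),(23,0),(13,0)]⟩),.k,.k,.k,⟨false,1,⟨1,[(53,0),(0,0)]⟩,⟨0,
  [(56,0)]⟩⟩,⟨true,(-1),⟨0,[(2,0)]⟩,⟨0,[(1,0)]⟩⟩,⟨false,0,⟨0,[]⟩,⟨1,[(35,0),(0,0),(17,0)]⟩⟩,⟨true,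
  (-2),⟨0,[(0,0)]⟩,⟨1,[(1,0),(4,0),(28,0),(18,0)]⟩⟩,⟨false,0,⟨0,[]⟩,⟨0,[]⟩⟩,⟨false,0,⟨0,[]⟩,⟨0,[]⟩⟩,
  [.a ⟨true,(-1),⟨1,[(2,0),(16,0),(21,0)]⟩,⟨7,[(1,2),(6,0),(22,2),(3,0),(7,0),(10,3)]⟩⟩ ⟨true,0,⟨0,
  []⟩,⟨2,[(8,0),(27,0),(6,0)]⟩⟩ ⟨false,(-1),⟨1,[(0,0),(1,0),(50,0)]⟩,⟨1,[(1,0),(4,0),(28,0),(18,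
  0)]⟩⟩,.o ⟨false,0,⟨0,[(36,0)]⟩,⟨0,[(9,0)]⟩⟩,.o ⟨false,1,⟨0,[(9,0)]⟩,⟨0,[(36,0)]⟩⟩,.o ⟨false,1,⟨0,
  [(13,0)]⟩,⟨0,[(14,0)]⟩⟩]⟩) (.R ⟨0,false,false,true,[1,0,0,0,-1],[0,0,0,0,1],[1,1],(⟨0,[(37,0)]⟩,
  ⟨0,[(38,0)]⟩),(⟨0,[(38,0)]⟩,⟨0,[(37,0)]⟩),⟨0,[(11,0)]⟩,.k,.k,(.r (-1) ⟨1,[(30,0),(20,0),(2,0)]⟩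
  ⟨1,[(3,0),(8,0),(5,0),(23,0),(13,0)]⟩),.k,.k,.k,⟨false,1,⟨1,[(53,0),(0,0)]⟩,⟨0,[(56,0)]⟩⟩,⟨true,
  (-1),⟨0,[(2,0)]⟩,⟨0,[(1,0)]⟩⟩,⟨false,0,⟨0,[(56,0)]⟩,⟨0,[(54,0)]⟩⟩,⟨true,(-2),⟨1,[(2,0),(15,1),(0,
  0),(21,0)]⟩,⟨0,[(0,0)]⟩⟩,⟨false,0,⟨0,[]⟩,⟨0,[]⟩⟩,⟨false,0,⟨0,[]⟩,⟨0,[]⟩⟩,[.o ⟨false,(-1),⟨0,[(18,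
  0)]⟩,⟨2,[(0,0),(34,0),(10,0),(7,1)]⟩⟩,.a ⟨true,(-1),⟨1,[(2,0),(16,0),(21,0)]⟩,⟨9,[(0,2),(7,1),(22,
  2),(3,1),(7,1),(10,1)]⟩⟩ ⟨true,0,⟨0,[]⟩,⟨2,[(8,0),(27,0),(6,0)]⟩⟩ ⟨false,(-1),⟨3,[(2,2),(11,0),(3,
  0),(12,0),(17,0)]⟩,⟨7,[(0,3),(0,0),(4,0),(28,4),(10,0)]⟩⟩,.o ⟨false,1,⟨0,[(9,0)]⟩,⟨0,[(36,0)]⟩⟩,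
  .o ⟨false,1,⟨0,[(13,0)]⟩,⟨0,[(14,0)]⟩⟩]⟩)) (.R ⟨0,false,false,false,[1,0,0,0,-1],[1,0,1,0,-1],[1],
  (⟨0,[(36,0)]⟩,⟨0,[(37,0)]⟩),(⟨0,[(36,0),(7,0)]⟩,⟨1,[(3,0),(6,1),(32,0)]⟩),⟨0,[(10,0)]⟩,.k,.k,(.r
  (-1) ⟨1,[(29,0),(20,0),(2,0)]⟩ ⟨1,[(2,0),(8,0),(5,0),(23,0),(13,0)]⟩),.k,.k,.k,⟨false,0,⟨5,[(6,1),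
  (9,1),(13,0),(0,0),(16,1)]⟩,⟨1,[(9,0),(5,0),(9,0),(8,0),(7,0),(10,0)]⟩⟩,⟨true,0,⟨0,[(26,0)]⟩,⟨0,
  [(42,0)]⟩⟩,⟨false,0,⟨0,[]⟩,⟨1,[(34,0),(0,0),(17,0)]⟩⟩,⟨true,0,⟨0,[(23,0)]⟩,⟨0,[(40,0)]⟩⟩,⟨false,0,
  ⟨0,[]⟩,⟨0,[]⟩⟩,⟨false,0,⟨0,[]⟩,⟨0,[]⟩⟩,[.a ⟨true,1,⟨5,[(5,2),(1,0),(3,0),(3,0),(2,3),(6,0),(8,0),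
  (18,4)]⟩,⟨1,[(0,0),(15,0),(4,0),(18,0),(1,1)]⟩⟩ ⟨true,0,⟨0,[]⟩,⟨2,[(7,0),(27,0),(6,0)]⟩⟩ ⟨false,1,
  ⟨1,[(15,0),(9,0),(26,0),(0,0)]⟩,⟨0,[(40,0)]⟩⟩,.o ⟨false,2,⟨1,[(8,1),(6,0),(9,0),(27,1)]⟩,⟨3,[(0,
  0),(5,1),(9,0),(0,1),(0,0),(5,0),(17,1)]⟩⟩,.o ⟨false,1,⟨0,[(8,0)]⟩,⟨0,[(35,0)]⟩⟩,.o ⟨false,1,⟨0,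
  [(12,0)]⟩,⟨0,[(13,0)]⟩⟩]⟩)) (.R ⟨0,false,false,false,[1,0,0,0,-1],[1,0,1,0,-1],[0,0,1],(⟨0,[(35,
  0)]⟩,⟨0,[(36,0)]⟩),(⟨0,[(35,0),(7,0)]⟩,⟨1,[(2,0),(6,1),(32,0)]⟩),⟨0,[(9,0)]⟩,.k,.k,(.r (-1) ⟨1,
  [(28,0),(20,0),(2,0)]⟩ ⟨1,[(1,0),(8,0),(5,0),(23,0),(13,0)]⟩),.k,.k,.k,⟨false,0,⟨3,[(5,0),(13,0),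
  (10,0),(8,1),(0,0)]⟩,⟨1,[(8,0),(1,0),(3,0),(9,0),(4,0),(22,0)]⟩⟩,⟨true,0,⟨0,[(25,0)]⟩,⟨0,[(41,
  0)]⟩⟩,⟨false,0,⟨2,[(6,0),(27,0),(6,0)]⟩,⟨1,[(51,0),(0,0)]⟩⟩,⟨true,0,⟨0,[(22,0)]⟩,⟨0,[(39,0)]⟩⟩,
  ⟨false,0,⟨0,[]⟩,⟨0,[]⟩⟩,⟨false,0,⟨0,[]⟩,⟨0,[]⟩⟩,[.a ⟨true,1,⟨2,[(0,0),(13,0),(2,0),(6,0),(8,0),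
  (18,1)]⟩,⟨4,[(1,1),(6,1),(6,3),(0,1),(0,2),(16,0),(6,5)]⟩⟩ ⟨true,0,⟨2,[(6,0),(27,0),(6,0)]⟩,⟨0,
  []⟩⟩ ⟨false,1,⟨1,[(14,0),(9,0),(26,0),(0,0)]⟩,⟨0,[(39,0)]⟩⟩,.o ⟨false,2,⟨1,[(7,1),(6,0),(9,0),(27,
  1)]⟩,⟨3,[(5,0),(2,0),(6,1),(0,2),(3,0),(20,2)]⟩⟩,.o ⟨false,1,⟨0,[(7,0)]⟩,⟨0,[(34,0)]⟩⟩,.o ⟨false,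
  1,⟨0,[(11,0)]⟩,⟨0,[(12,0)]⟩⟩]⟩)))) (.Q [0,0,0,0,0,2,0,0,0,0,-1] (.p false [0,0,1] [] (⟨0,[(40,
  0)]⟩,⟨0,[(39,0)]⟩) .k 0 (⟨0,[]⟩,⟨0,[]⟩) .k .k) (.R ⟨0,false,false,true,[0,-1,1],[0,0,0,0,1],[1,1],
  (⟨0,[(30,0)]⟩,⟨0,[(0,0),(42,0)]⟩),(⟨0,[(34,0)]⟩,⟨0,[(33,0)]⟩),⟨0,[(0,0)]⟩,.k,.k,(.r (-1) ⟨1,[(6,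
  0),(1,0),(2,1),(15,0),(21,0)]⟩ ⟨5,[(4,4),(8,2),(18,4),(6,4),(8,14)]⟩),(.r (-1) ⟨1,[(6,0),(1,0),(3,
  1),(14,0),(22,0)]⟩ ⟨0,[(37,0),(0,0),(9,0)]⟩),.k,.k,⟨false,1,⟨1,[(49,0),(0,0)]⟩,⟨0,[(52,0)]⟩⟩,
  ⟨true,0,⟨0,[(6,0)]⟩,⟨0,[(4,0)]⟩⟩,⟨false,0,⟨1,[(4,0),(8,0),(18,0),(6,0),(8,2)]⟩,⟨1,[(6,0),(1,0),(3,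
  1),(14,0),(22,0)]⟩⟩,⟨true,(-1),⟨7,[(0,0),(0,1),(1,6),(9,1),(0,2),(3,2),(13,0),(0,3),(7,4)]⟩,⟨11,
  [(2,4),(1,2),(3,2),(2,5),(3,5),(11,1),(3,0),(18,8)]⟩⟩,⟨false,0,⟨0,[]⟩,⟨0,[]⟩⟩,⟨false,0,⟨0,[]⟩,⟨0,
  []⟩⟩,[.o ⟨false,(-1),⟨0,[(14,0)]⟩,⟨0,[(5,0),(44,0)]⟩⟩,.a ⟨true,(-1),⟨7,[(0,0),(0,1),(11,1),(0,1),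
  (0,1),(2,1),(13,1),(0,3),(7,4)]⟩,⟨1,[(2,0),(1,0),(22,0),(11,0),(10,0)]⟩⟩ ⟨true,0,⟨0,[]⟩,⟨2,[(4,0),
  (27,0),(6,0)]⟩⟩ ⟨false,0,⟨8,[(3,0),(2,8),(15,0),(2,1),(1,0),(17,2)]⟩,⟨3,[(4,1),(0,0),(22,0),(2,0),
  (18,1)]⟩⟩,.o ⟨false,0,⟨0,[(38,0)]⟩,⟨5,[(2,1),(3,3),(1,1),(33,0),(6,0)]⟩⟩,.o ⟨false,0,⟨0,[(4,0),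
  (27,0)]⟩,⟨0,[(2,0),(3,0)]⟩⟩]⟩) (.R ⟨0,false,false,false,[1,0,0,0,-1],[1,0,1,0,-1],[0,0,1],(⟨0,
  [(33,0)]⟩,⟨0,[(34,0)]⟩),(⟨0,[(33,0),(7,0)]⟩,⟨0,[(7,0),(21,0)]⟩),⟨0,[(7,0)]⟩,.k,.k,(.r (-1) ⟨1,
  [(26,0),(20,0),(2,0)]⟩ ⟨2,[(4,0),(17,2),(9,0),(4,2),(1,0)]⟩),.k,.k,.k,⟨false,0,⟨3,[(3,0),(13,0),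
  (10,0),(8,1),(0,0)]⟩,⟨1,[(6,0),(1,0),(3,0),(9,0),(4,0),(22,0)]⟩⟩,⟨true,0,⟨0,[(23,0)]⟩,⟨0,[(39,
  0)]⟩⟩,⟨false,0,⟨2,[(4,0),(27,0),(6,0)]⟩,⟨1,[(49,0),(0,0)]⟩⟩,⟨true,0,⟨0,[(20,0)]⟩,⟨0,[(37,0)]⟩⟩,
  ⟨false,0,⟨0,[]⟩,⟨0,[]⟩⟩,⟨false,0,⟨0,[]⟩,⟨0,[]⟩⟩,[.a ⟨true,1,⟨5,[(2,2),(1,0),(3,0),(3,0),(2,3),(6,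
  0),(8,0),(18,4)]⟩,⟨5,[(1,1),(1,0),(2,0),(6,3),(0,0),(3,2),(14,3),(5,2),(1,3),(2,1)]⟩⟩ ⟨true,0,⟨2,
  [(4,0),(27,0),(6,0)]⟩,⟨0,[]⟩⟩ ⟨false,1,⟨1,[(12,0),(9,0),(26,0),(0,0)]⟩,⟨0,[(37,0)]⟩⟩,.o ⟨false,2,
  ⟨1,[(5,1),(6,0),(9,0),(27,1)]⟩,⟨3,[(3,0),(2,0),(6,1),(0,2),(3,0),(20,2)]⟩⟩,.o ⟨false,1,⟨0,[(5,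
  0)]⟩,⟨0,[(32,0)]⟩⟩,.o ⟨false,1,⟨0,[(9,0)]⟩,⟨0,[(10,0)]⟩⟩]⟩))))) (.Q [0,0,1,0,-1,0,0,0,1,1,0,-1]
  (.p false [0,0,0,0,1] [1] (⟨0,[(30,0)]⟩,⟨0,[(29,0)]⟩) .k 1 (⟨0,[]⟩,⟨0,[]⟩) .k .k) (.S ⟨1,0,[0,1],
  [0,0,0,0,1],[0,2],(⟨0,[(31,0)]⟩,⟨0,[(30,0)]⟩),⟨0,[(4,0),(21,0),(0,0)]⟩,.k,(.r 0 ⟨0,[(43,0)]⟩ ⟨5,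
  [(0,1),(4,3),(19,1),(2,0),(0,2),(15,5),(1,2)]⟩),⟨true,0,⟨0,[(49,0)]⟩,⟨0,[]⟩⟩,⟨false,1,⟨1,[(28,0),
  (0,0),(17,0)]⟩,⟨0,[]⟩⟩,⟨false,0,⟨0,[(45,0)]⟩,⟨0,[(44,0),(2,0)]⟩⟩,⟨true,0,⟨0,[(45,0)]⟩,⟨0,[(44,
  0)]⟩⟩,[.e ⟨false,0,⟨0,[(42,0)]⟩,⟨0,[(47,0)]⟩⟩ ⟨false,0,⟨2,[(22,0),(19,0),(2,0)]⟩,⟨1,[(28,0),(0,0),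
  (17,0)]⟩⟩,.o ⟨false,0,⟨0,[(29,0)]⟩,⟨0,[(2,0)]⟩⟩,.o ⟨false,0,⟨0,[(29,0)]⟩,⟨0,[(2,0)]⟩⟩,.a ⟨true,
  (-1),⟨0,[(0,0)]⟩,⟨1,[(2,0),(21,0),(3,0)]⟩⟩ ⟨false,0,⟨2,[(22,0),(19,0),(2,0)]⟩,⟨2,[(0,0),(4,0),(29,
  0),(11,2)]⟩⟩ ⟨true,0,⟨2,[(22,0),(19,0),(2,0)]⟩,⟨2,[(0,0),(4,0),(29,0)]⟩⟩]⟩) (.Q [0,0,0,0,0,2,0,0,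
  0,-1,1] (.p true [0,0,1] [1] (⟨0,[(38,0)]⟩,⟨0,[(37,0)]⟩) .k 1 (⟨0,[]⟩,⟨0,[]⟩) .k .k) (.R ⟨0,false,
  false,false,[1,-1,-1],[0,0,0,0,1],[1,1],(⟨0,[(27,0)]⟩,⟨0,[(0,0),(40,0)]⟩),(⟨0,[(32,0)]⟩,⟨0,[(31,
  0)]⟩),⟨0,[(0,0)]⟩,.k,.k,(.r (-1) ⟨4,[(17,4),(4,1),(20,0),(1,0)]⟩ ⟨1,[(20,1),(15,0),(0,2),(8,1)]⟩),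
  (.r (-1) ⟨0,[(17,0)]⟩ ⟨0,[(6,0),(9,0),(13,0)]⟩),.k,.k,⟨true,0,⟨0,[]⟩,⟨1,[(36,0),(0,0)]⟩⟩,⟨false,0,
  ⟨1,[(8,1),(16,0),(0,0)]⟩,⟨0,[(6,0)]⟩⟩,⟨false,0,⟨0,[(20,0),(16,0)]⟩,⟨0,[(17,0)]⟩⟩,⟨true,(-1),⟨0,
  [(16,0),(13,0)]⟩,⟨4,[(1,2),(4,1),(2,0),(1,2),(25,3)]⟩⟩,⟨false,0,⟨0,[]⟩,⟨0,[]⟩⟩,⟨false,0,⟨0,[]⟩,⟨0,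
  []⟩⟩,[.e ⟨false,0,⟨14,[(1,1),(0,1),(8,0),(4,1),(6,0),(19,5)]⟩,⟨1,[(29,0),(0,0),(17,0)]⟩⟩ ⟨false,
  (-1),⟨2,[(2,0),(5,1),(2,1),(1,1),(2,0),(3,0)]⟩,⟨1,[(6,1),(22,0),(0,0),(17,0)]⟩⟩,.o ⟨false,0,⟨0,
  [(30,0)]⟩,⟨0,[(3,0)]⟩⟩,.a ⟨true,0,⟨0,[(37,0)]⟩,⟨0,[(33,0)]⟩⟩ ⟨false,0,⟨0,[]⟩,⟨1,[(29,0),(0,0),(17,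
  0)]⟩⟩ ⟨true,(-1),⟨1,[(8,0),(2,0),(1,0),(2,0),(13,0)]⟩,⟨0,[(6,0)]⟩⟩,.e ⟨true,0,⟨14,[(1,1),(0,1),(8,
  0),(4,1),(6,0),(19,5)]⟩,⟨1,[(36,0),(0,0)]⟩⟩ ⟨true,(-1),⟨2,[(2,0),(5,1),(2,1),(1,1),(2,0),(3,0)]⟩,
  ⟨1,[(6,1),(29,0),(0,0)]⟩⟩]⟩) (.R ⟨0,false,false,false,[1,0,0,0,-1],[1,0,1,0,-1],[0,0,1],(⟨0,[(31,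
  0)]⟩,⟨0,[(32,0)]⟩),(⟨0,[(31,0),(7,0)]⟩,⟨1,[(0,0),(4,1),(32,0)]⟩),⟨0,[(5,0)]⟩,.k,.k,(.r (-1) ⟨1,
  [(24,0),(20,0),(2,0)]⟩ ⟨1,[(20,1),(14,1),(0,0),(0,0)]⟩),.k,.k,.k,⟨false,0,⟨4,[(11,0),(4,0),(9,0),
  (8,3),(0,0),(3,0)]⟩,⟨1,[(4,0),(1,0),(3,0),(9,0),(4,0),(22,0)]⟩⟩,⟨true,0,⟨0,[(21,0)]⟩,⟨0,[(37,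
  0)]⟩⟩,⟨false,0,⟨1,[(36,0),(0,0)]⟩,⟨1,[(47,0),(0,0)]⟩⟩,⟨true,0,⟨0,[(18,0)]⟩,⟨0,[(35,0)]⟩⟩,⟨false,0,
  ⟨0,[]⟩,⟨0,[]⟩⟩,⟨false,0,⟨0,[]⟩,⟨0,[]⟩⟩,[.a ⟨true,1,⟨0,[(3,0),(9,0),(34,0)]⟩,⟨1,[(4,0),(6,1),(4,1),
  (13,0),(6,2)]⟩⟩ ⟨true,0,⟨1,[(36,0),(0,0)]⟩,⟨0,[]⟩⟩ ⟨false,1,⟨1,[(10,0),(9,0),(26,0),(0,0)]⟩,⟨0,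
  [(35,0)]⟩⟩,.o ⟨false,2,⟨1,[(3,1),(6,0),(9,0),(27,1)]⟩,⟨3,[(2,0),(8,2),(0,2),(3,1),(20,4),(2,0),(5,
  0)]⟩⟩,.o ⟨false,1,⟨0,[(3,0)]⟩,⟨0,[(30,0)]⟩⟩,.o ⟨false,1,⟨0,[(7,0)]⟩,⟨0,[(8,0)]⟩⟩]⟩))))))))))))

theorem ok118 : chk K t118 r69 = true := by decide +kernel

noncomputable def t123 : Tre :=
  (.S ⟨1,0,[0,0,1,1,0,0,0,1],[0,1,1],[1,1,1,0,0,0,0,1],(⟨0,[(24,0),(2,0)]⟩,⟨0,[(12,0)]⟩),⟨0,[(24,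
  0)]⟩,.k,.k,⟨true,0,⟨0,[(30,0)]⟩,⟨0,[(31,0)]⟩⟩,⟨false,1,⟨1,[(14,0),(0,0),(17,0)]⟩,⟨0,[]⟩⟩,⟨false,0,
  ⟨0,[]⟩,⟨1,[(14,0),(0,0),(17,0)]⟩⟩,⟨true,0,⟨0,[(31,0)]⟩,⟨0,[(30,0)]⟩⟩,[.o ⟨false,0,⟨0,[(5,0)]⟩,⟨1,
  [(4,1),(20,0),(7,0)]⟩⟩,.a ⟨true,0,⟨1,[(0,1),(9,0),(0,0)]⟩,⟨0,[(4,0)]⟩⟩ ⟨false,0,⟨6,[(0,5),(6,2),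
  (11,0),(2,0),(5,0)]⟩,⟨5,[(2,1),(8,1),(8,3),(4,0),(5,1),(0,1),(0,0)]⟩⟩ ⟨true,0,⟨0,[(0,0)]⟩,⟨0,[(4,
  0),(1,0)]⟩⟩,.e ⟨false,0,⟨0,[(0,0),(29,0)]⟩,⟨0,[(2,0),(28,0)]⟩⟩ ⟨false,0,⟨0,[(0,0)]⟩,⟨19,[(2,15),
  (8,1),(2,2),(0,2),(4,3),(4,0),(2,3),(1,3)]⟩⟩,.o ⟨false,0,⟨0,[(6,0)]⟩,⟨1,[(22,1),(2,0),(6,0)]⟩⟩]⟩)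

theorem ok123 : chk K t123 r65 = true := by decide +kernel

noncomputable def t125 : Tre :=
  (.I [1,1,-1,-1,0,0,0,-1] (.S ⟨1,0,[0,0,0,0,0,0,0,-1],[1,0,-1],[1,1,0,-1,0,0,0,-1],(⟨0,[(23,0)]⟩,
  ⟨0,[(24,0)]⟩),⟨0,[(12,0)]⟩,.k,.k,⟨true,0,⟨0,[(30,0)]⟩,⟨0,[(31,0)]⟩⟩,⟨false,1,⟨1,[(14,0),(0,0),(17,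
  0)]⟩,⟨0,[]⟩⟩,⟨false,0,⟨0,[]⟩,⟨1,[(14,0),(0,0),(17,0)]⟩⟩,⟨true,0,⟨0,[(31,0)]⟩,⟨0,[(30,0)]⟩⟩,[.o
  ⟨false,1,⟨1,[(20,1),(4,0),(7,0)]⟩,⟨0,[(3,0)]⟩⟩,.o ⟨false,1,⟨0,[(1,0),(29,0)]⟩,⟨0,[(19,0)]⟩⟩,.o
  ⟨false,1,⟨1,[(22,1),(2,0),(6,0)]⟩,⟨0,[(6,0)]⟩⟩,.a ⟨true,0,⟨0,[(22,0)]⟩,⟨0,[(18,0)]⟩⟩ ⟨true,0,⟨0,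
  [(0,0)]⟩,⟨0,[(5,0),(16,0)]⟩⟩ ⟨false,1,⟨0,[(2,0),(28,0)]⟩,⟨0,[(3,0),(18,0)]⟩⟩]⟩) (.S ⟨1,0,[0,0,1,1,
  0,0,0,1],[0,1,1],[1,1,1,0,0,0,0,1],(⟨0,[(24,0),(2,0)]⟩,⟨0,[(12,0)]⟩),⟨0,[(24,0)]⟩,.k,.k,⟨true,0,
  ⟨0,[(30,0)]⟩,⟨0,[(31,0)]⟩⟩,⟨false,1,⟨1,[(14,0),(0,0),(17,0)]⟩,⟨0,[]⟩⟩,⟨false,0,⟨0,[]⟩,⟨1,[(14,0),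
  (0,0),(17,0)]⟩⟩,⟨true,0,⟨0,[(31,0)]⟩,⟨0,[(30,0)]⟩⟩,[.o ⟨false,0,⟨0,[(5,0)]⟩,⟨3,[(1,1),(2,1),(9,0),
  (0,0),(9,0)]⟩⟩,.a ⟨true,0,⟨1,[(0,1),(9,0),(0,0)]⟩,⟨0,[(4,0)]⟩⟩ ⟨false,0,⟨6,[(0,5),(6,2),(11,0),(2,
  0),(5,0)]⟩,⟨5,[(2,1),(8,1),(8,3),(4,0),(5,1),(0,1),(0,0)]⟩⟩ ⟨true,0,⟨0,[(0,0)]⟩,⟨0,[(4,0),(1,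
  0)]⟩⟩,.e ⟨false,0,⟨0,[(0,0),(29,0)]⟩,⟨0,[(2,0),(28,0)]⟩⟩ ⟨false,0,⟨0,[(0,0)]⟩,⟨19,[(2,15),(8,1),
  (2,2),(0,2),(4,3),(4,0),(2,3),(1,3)]⟩⟩,.o ⟨false,0,⟨0,[(6,0)]⟩,⟨1,[(22,1),(2,0),(6,0)]⟩⟩]⟩))

theorem ok125 : chk K t125 r64 = true := by decide +kernel

noncomputable def t127 : Tre :=
  (.S ⟨1,0,[0,0,1,1,0,0,0,1],[0,1,1],[1,1,1,0,0,0,0,1],(⟨0,[(23,0),(2,0)]⟩,⟨0,[(11,0)]⟩),⟨0,[(23,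
  0)]⟩,.k,.k,⟨true,0,⟨0,[(29,0)]⟩,⟨0,[(30,0)]⟩⟩,⟨false,1,⟨1,[(13,0),(0,0),(17,0)]⟩,⟨0,[]⟩⟩,⟨false,0,
  ⟨0,[]⟩,⟨1,[(13,0),(0,0),(17,0)]⟩⟩,⟨true,0,⟨0,[(30,0)]⟩,⟨0,[(29,0)]⟩⟩,[.o ⟨false,0,⟨0,[(4,0)]⟩,⟨1,
  [(3,1),(20,0),(7,0)]⟩⟩,.a ⟨true,0,⟨1,[(1,1),(7,0),(0,0),(21,1)]⟩,⟨0,[(3,0)]⟩⟩ ⟨false,0,⟨1,[(1,0),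
  (0,0),(5,0),(12,0)]⟩,⟨15,[(0,11),(9,1),(2,2),(0,2),(4,3),(4,0),(2,3)]⟩⟩ ⟨true,0,⟨0,[(1,0),(30,
  0)]⟩,⟨0,[(3,0),(1,0)]⟩⟩,.e ⟨false,0,⟨0,[(2,0),(18,0)]⟩,⟨0,[(0,0)]⟩⟩ ⟨false,0,⟨0,[(1,0),(30,0)]⟩,
  ⟨0,[(0,0),(28,0)]⟩⟩,.o ⟨false,0,⟨0,[(5,0)]⟩,⟨1,[(21,1),(2,0),(6,0)]⟩⟩]⟩)

theorem ok127 : chk K t127 l70 = true := by decide +kernel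

noncomputable def t128 : Tre :=
  (.R ⟨0,false,false,true,[1,-1,-1],[1,-1],[1,1],(⟨0,[(12,0)]⟩,⟨0,[(0,0),(25,0)]⟩),(⟨0,[(26,0)]⟩,⟨0,
  [(27,0)]⟩),⟨0,[(0,0)]⟩,.k,.k,(.r (-1) ⟨0,[(4,0),(1,0),(2,0)]⟩ ⟨1,[(5,1),(15,0),(0,2),(8,1)]⟩),.k,
  .k,.k,⟨false,0,⟨0,[(31,0)]⟩,⟨1,[(30,1),(1,0),(0,0)]⟩⟩,⟨true,0,⟨0,[(6,0)]⟩,⟨0,[(22,0)]⟩⟩,⟨true,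
  (-1),⟨0,[(2,0)]⟩,⟨3,[(4,1),(4,1),(1,1),(8,1),(4,0),(7,0)]⟩⟩,⟨false,0,⟨0,[(3,0)]⟩,⟨0,[(20,0),(12,
  0)]⟩⟩,⟨false,0,⟨0,[]⟩,⟨0,[]⟩⟩,⟨false,0,⟨0,[]⟩,⟨0,[]⟩⟩,[.e ⟨false,0,⟨2,[(8,0),(19,0),(2,0)]⟩,⟨1,
  [(14,0),(0,0),(17,0)]⟩⟩ ⟨false,0,⟨0,[(6,0),(1,0)]⟩,⟨1,[(14,0),(0,0),(6,1),(8,1),(1,0)]⟩⟩,.o
  ⟨false,1,⟨1,[(25,0),(4,1),(2,0)]⟩,⟨0,[(31,0)]⟩⟩,.a ⟨true,0,⟨0,[(22,0)]⟩,⟨0,[(18,0)]⟩⟩ ⟨false,0,⟨0,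
  []⟩,⟨1,[(14,0),(0,0),(17,0)]⟩⟩ ⟨true,0,⟨3,[(6,2),(0,1),(13,0),(6,0)]⟩,⟨0,[(22,0),(8,0)]⟩⟩,.e
  ⟨true,0,⟨2,[(8,0),(19,0),(2,0)]⟩,⟨1,[(21,0),(0,0)]⟩⟩ ⟨true,0,⟨0,[(6,0),(1,0)]⟩,⟨1,[(21,0),(0,2),
  (8,1)]⟩⟩]⟩)

theorem ok128 : chk K t128 l71 = true := by decide +kernel

noncomputable def t129 : Tre :=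
  (.R ⟨1,false,false,false,[1,0,-1],[0,1],[1,0,1,1],(⟨0,[(24,0)]⟩,⟨0,[(25,0)]⟩),(⟨0,[(28,0)]⟩,⟨0,
  [(27,0)]⟩),⟨0,[(13,0)]⟩,.k,.k,.k,.k,(.r (-1) ⟨0,[(5,0),(1,0),(2,0)]⟩ ⟨1,[(6,1),(15,0),(0,2),(8,
  1)]⟩),.k,⟨true,0,⟨0,[]⟩,⟨1,[(22,0),(0,0)]⟩⟩,⟨false,0,⟨0,[(7,0),(3,0)]⟩,⟨1,[(15,0),(0,0),(6,1),(2,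
  0)]⟩⟩,⟨false,0,⟨0,[(3,0),(30,0)]⟩,⟨3,[(5,1),(4,1),(1,1),(8,1),(4,0),(7,0)]⟩⟩,⟨false,0,⟨1,[(0,0),
  (3,0),(19,0),(0,0),(8,0)]⟩,⟨1,[(5,1),(20,0),(7,0)]⟩⟩,⟨false,0,⟨1,[(0,1),(22,1),(2,0),(7,0)]⟩,⟨3,
  [(5,3),(2,1),(3,1),(13,0),(7,2)]⟩⟩,⟨true,(-1),⟨0,[(0,0)]⟩,⟨1,[(5,1),(20,0),(4,1),(2,0)]⟩⟩,[.o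
  ⟨false,0,⟨0,[(32,0)]⟩,⟨1,[(26,0),(4,1),(2,0)]⟩⟩,.a ⟨true,0,⟨0,[(0,0),(4,0),(28,0)]⟩,⟨0,[(31,0)]⟩⟩
  ⟨false,1,⟨1,[(15,0),(0,0),(15,1),(1,0)]⟩,⟨0,[(30,0)]⟩⟩ ⟨true,0,⟨0,[(0,0),(4,0),(1,0),(26,0)]⟩,⟨1,
  [(2,1),(2,1),(20,0),(7,0)]⟩⟩,.o ⟨false,1,⟨1,[(23,1),(2,0),(6,0)]⟩,⟨0,[(7,0)]⟩⟩,.e ⟨true,0,⟨0,[(32,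
  0)]⟩,⟨0,[(31,0)]⟩⟩ ⟨true,0,⟨1,[(11,0),(0,0),(19,1)]⟩,⟨1,[(2,1),(2,1),(20,0),(7,0)]⟩⟩]⟩)

theorem ok129 : chk K t129 l72 = true := by decide +kernel

noncomputable def t130 : Tre :=
  (.R ⟨1,false,false,false,[1,0,-1],[0,0,0,0,1],[0,0,0,0,0,0,0,-1],(⟨0,[(25,0)]⟩,⟨0,[(26,0)]⟩),(⟨0,
  [(19,0)]⟩,⟨0,[(18,0)]⟩),⟨0,[(14,0)]⟩,.k,.k,.k,.k,(.r (-2) ⟨3,[(1,1),(11,1),(2,0),(0,0),(4,1),(11,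
  1),(0,2)]⟩ ⟨0,[(3,0),(29,0)]⟩),.k,⟨true,1,⟨0,[(8,0),(13,0),(12,0)]⟩,⟨0,[(3,0)]⟩⟩,⟨false,0,⟨1,[(12,
  0),(0,0),(3,1)]⟩,⟨4,[(0,4),(3,0),(5,0),(11,0),(1,3),(5,0),(3,0)]⟩⟩,⟨false,1,⟨1,[(16,0),(0,0),(17,
  0)]⟩,⟨0,[]⟩⟩,⟨true,(-1),⟨1,[(3,1),(8,0),(0,0),(3,1)]⟩,⟨0,[(0,0),(21,0)]⟩⟩,⟨true,0,⟨0,[(33,0)]⟩,⟨0,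
  [(32,0)]⟩⟩,⟨true,(-1),⟨1,[(4,1),(7,0),(0,0),(3,1)]⟩,⟨0,[(0,0),(5,0)]⟩⟩,[.o ⟨false,0,⟨0,[(17,0),
  (19,0)]⟩,⟨0,[(0,0)]⟩⟩,.o ⟨false,0,⟨0,[(17,0)]⟩,⟨7,[(0,5),(2,0),(12,1),(5,0),(0,0),(3,0),(2,1)]⟩⟩,
  .o ⟨false,1,⟨1,[(24,1),(2,0),(6,0)]⟩,⟨0,[(8,0)]⟩⟩,.a ⟨true,0,⟨0,[(24,0)]⟩,⟨0,[(20,0)]⟩⟩ ⟨true,1,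
  ⟨1,[(12,0),(0,0),(8,1),(4,0),(7,0)]⟩,⟨0,[(3,0)]⟩⟩ ⟨false,0,⟨1,[(12,0),(0,0),(3,1)]⟩,⟨0,[(0,0),(23,
  0)]⟩⟩]⟩)

theorem ok130 : chk K t130 l73 = true := by decide +kernel

noncomputable def t131 : Tre :=
  (.I [0,0,2,2,0,0,0,-1] (.Q [0,0,-2,0,1,0,-1,0,0,-1,1] (.p true [0,0,1] [1] (⟨0,[(29,0)]⟩,⟨0,[(28,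
  0)]⟩) .k 1 (⟨0,[]⟩,⟨0,[]⟩) .k .k) (.S ⟨1,0,[0,0,-1,-1,0,0,0,1],[0,-1,1],[1,1,-1,-2,0,0,0,1],(⟨0,
  [(19,0)]⟩,⟨0,[(29,0),(3,0)]⟩),⟨0,[(3,0)]⟩,.k,(.r (-1) ⟨1,[(7,0),(7,2),(9,0),(2,0),(7,0)]⟩ ⟨0,[(1,
  0)]⟩),⟨true,0,⟨0,[(36,0)]⟩,⟨0,[(37,0)]⟩⟩,⟨false,1,⟨1,[(20,0),(0,0),(17,0)]⟩,⟨0,[]⟩⟩,⟨false,0,⟨0,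
  []⟩,⟨1,[(20,0),(0,0),(17,0)]⟩⟩,⟨true,0,⟨0,[(37,0)]⟩,⟨0,[(36,0)]⟩⟩,[.o ⟨false,0,⟨1,[(7,0),(1,0),(3,
  0),(13,0),(11,0)]⟩,⟨3,[(0,2),(0,2),(3,0)]⟩⟩,.a ⟨true,0,⟨0,[(7,1),(2,0),(1,1),(3,0),(22,1)]⟩,⟨0,
  [(26,0),(10,0)]⟩⟩ ⟨true,0,⟨0,[(7,0),(5,0),(25,0)]⟩,⟨0,[(1,0)]⟩⟩ ⟨false,1,⟨4,[(0,0),(6,1),(1,2),(5,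
  4),(0,0),(11,1),(10,0)]⟩,⟨2,[(1,1),(8,0),(1,0),(21,0)]⟩⟩,.o ⟨false,0,⟨0,[(27,0)]⟩,⟨5,[(0,3),(19,
  0),(0,0),(6,1),(2,0)]⟩⟩,.o ⟨false,0,⟨1,[(27,2),(0,0)]⟩,⟨0,[(0,0)]⟩⟩]⟩) (.Q [0,0,-1,0,1,0,-2,0,0,
  -1,2] (.p true [0,0,1] [1,0,-1] (⟨0,[(30,0)]⟩,⟨0,[(29,0)]⟩) .k 2 (⟨0,[(29,0)]⟩,⟨0,[(30,0)]⟩) .k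
  (.r 0 ⟨0,[(7,0),(3,0),(3,0),(12,0)]⟩ ⟨0,[(1,0),(3,0),(6,0),(3,0)]⟩)) (.K ⟨0,[1,1,-1],1,1,(⟨0,[(30,
  0),(3,0)]⟩,⟨0,[(20,0)]⟩),.k,.k,(.r 0 ⟨0,[(2,0)]⟩ ⟨1,[(8,0),(7,2),(9,0),(2,0),(7,0)]⟩),(.r (-1)
  ⟨17,[(2,19),(3,5),(9,9),(1,7),(8,9),(4,0),(6,0)]⟩ ⟨4,[(0,0),(7,6),(1,2),(5,4),(0,0),(11,0),(10,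
  0)]⟩),.k,[⟨0,[(0,0)]⟩,⟨0,[(1,0)]⟩,⟨6,[(1,3),(6,3),(1,2),(3,1),(1,0),(0,2),(19,1)]⟩,⟨31,[(0,9),(1,
  19),(3,3),(20,7),(4,8),(2,11),(3,8)]⟩]⟩) (.I [0,0,-2,0,1,2,0,0,-1] (.I [1,-1,2,2] (.N [0,-2,0,0,
  1] 0 ⟨0,[(16,0)]⟩ ⟨0,[(0,0)]⟩ (.x 0 ⟨1,[(0,0),(5,0),(1,0),(0,0),(0,0),(13,1),(1,1),(3,0)]⟩ ⟨0,[(1,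
  0)]⟩)) (.Q [0,0,1,0,0,0,0,0,-1,0,0,1] (.p true [0,0,0,0,1] [] (⟨0,[(26,0)]⟩,⟨0,[(25,0)]⟩) .k 0
  (⟨0,[]⟩,⟨0,[]⟩) .k .k) (.Q [0,0,0,0,0,0,0,0,0,0,1,-1] (.ed true [1,0,-1,0,1] (.r 0 ⟨8,[(3,1),(1,
  2),(3,0),(8,3),(2,0),(8,4),(4,0)]⟩ ⟨1,[(15,0),(3,0),(9,0),(2,1),(10,0)]⟩)) (.R ⟨1,false,false,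
  false,[1,0,0,0,-1],[0,0,1,0,-1],[],(⟨0,[(27,0)]⟩,⟨0,[(28,0)]⟩),(⟨0,[(0,0)]⟩,⟨0,[(28,0),(5,0)]⟩),
  ⟨1,[(0,0),(10,0),(15,0)]⟩,.k,.k,(.r (-1) ⟨1,[(20,0),(20,0),(2,0)]⟩ ⟨8,[(6,3),(9,0),(13,2),(2,3),
  (5,2)]⟩),.k,.k,.k,⟨true,0,⟨8,[(4,1),(1,2),(3,0),(8,3),(2,0),(8,4),(4,0)]⟩,⟨0,[(12,0),(31,0)]⟩⟩,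
  ⟨false,0,⟨0,[(29,0)]⟩,⟨1,[(33,1),(2,0),(6,0)]⟩⟩,⟨true,0,⟨8,[(6,0),(23,0),(2,0),(5,2),(1,1)]⟩,⟨0,
  []⟩⟩,⟨false,0,⟨4,[(5,1),(6,0),(1,3),(6,2),(11,0),(10,2)]⟩,⟨1,[(31,1),(4,0),(7,0)]⟩⟩,⟨false,0,⟨0,
  [(42,0)]⟩,⟨0,[(41,0),(2,0)]⟩⟩,⟨false,0,⟨3,[(1,1),(5,2),(8,0),(4,0),(3,0),(18,1)]⟩,⟨3,[(10,1),(20,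
  1),(4,0),(7,0)]⟩⟩,[.e ⟨false,1,⟨1,[(25,0),(0,0),(16,0)]⟩,⟨0,[]⟩⟩ ⟨false,0,⟨2,[(4,0),(7,1),(3,0),
  (3,0),(0,1),(22,1)]⟩,⟨1,[(25,0),(0,0),(4,1),(4,0)]⟩⟩,.o ⟨false,1,⟨5,[(1,5),(2,1),(8,3),(2,1),(3,
  5),(15,0),(7,4)]⟩,⟨0,[(9,0),(21,0),(4,0)]⟩⟩,.o ⟨false,1,⟨2,[(1,1),(19,0),(3,0),(10,1)]⟩,⟨0,[(26,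
  0)]⟩⟩,.a ⟨true,0,⟨0,[(1,0)]⟩,⟨1,[(9,1),(33,0),(0,0)]⟩⟩ ⟨false,1,⟨1,[(43,0),(0,0)]⟩,⟨1,[(32,0),(0,
  0)]⟩⟩ ⟨true,0,⟨2,[(4,0),(7,1),(3,0),(3,0),(0,1),(22,1)]⟩,⟨14,[(4,0),(1,4),(5,6),(2,9),(15,6),(4,
  7),(2,2)]⟩⟩]⟩) (.Q [0,0,0,0,0,-1,0,0,0,1,0,-1] (.ed true [0,1,0,0,1] .k) (.R ⟨1,false,false,true,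
  [1,0,0,0,-1],[1,0,1,0,-1],[],(⟨0,[(28,0)]⟩,⟨0,[(29,0)]⟩),(⟨0,[(28,0),(7,0)]⟩,⟨0,[(1,0)]⟩),⟨0,[(0,
  0)]⟩,.k,.k,(.r (-1) ⟨1,[(21,0),(20,0),(2,0)]⟩ ⟨8,[(7,3),(9,0),(13,2),(2,3),(5,2)]⟩),.k,.k,.k,
  ⟨false,1,⟨5,[(7,1),(13,3),(1,1),(8,3),(4,0),(6,0)]⟩,⟨1,[(13,0),(3,0),(3,0),(12,0)]⟩⟩,⟨true,0,⟨0,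
  [(18,0)]⟩,⟨0,[(34,0)]⟩⟩,⟨true,0,⟨8,[(7,0),(23,0),(2,0),(5,2),(1,1)]⟩,⟨0,[]⟩⟩,⟨false,0,⟨0,[(15,
  0)]⟩,⟨0,[(32,0),(12,0)]⟩⟩,⟨false,0,⟨0,[(43,0)]⟩,⟨0,[(42,0),(2,0)]⟩⟩,⟨false,0,⟨0,[(17,0)]⟩,⟨0,[(16,
  0),(28,0)]⟩⟩,[.e ⟨false,1,⟨1,[(26,0),(0,0),(16,0)]⟩,⟨0,[]⟩⟩ ⟨false,0,⟨5,[(5,1),(8,3),(2,1),(2,0),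
  (0,4),(15,0)]⟩,⟨1,[(26,0),(0,0),(4,1),(12,0)]⟩⟩,.o ⟨false,1,⟨2,[(2,2),(2,0),(8,1),(2,0),(3,2),(15,
  1),(7,0)]⟩,⟨0,[(27,0),(4,0)]⟩⟩,.o ⟨false,1,⟨2,[(2,1),(19,0),(3,0),(10,1)]⟩,⟨0,[(27,0)]⟩⟩,.a ⟨true,
  0,⟨0,[(2,0)]⟩,⟨1,[(10,1),(33,0),(0,0)]⟩⟩ ⟨false,1,⟨1,[(44,0),(0,0)]⟩,⟨1,[(33,0),(0,0)]⟩⟩ ⟨true,0,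
  ⟨5,[(5,1),(8,3),(2,1),(2,0),(0,4),(15,0)]⟩,⟨2,[(7,0),(8,0),(15,0),(1,0),(7,0)]⟩⟩]⟩) (.R ⟨0,false,
  false,true,[1,0,0,0,-1],[1,0,1,0,-1],[0,0,0,-1],(⟨0,[(28,0)]⟩,⟨0,[(29,0)]⟩),(⟨0,[(28,0),(7,0)]⟩,
  ⟨0,[(1,0)]⟩),⟨0,[(0,0)]⟩,.k,.k,(.r (-1) ⟨1,[(21,0),(20,0),(2,0)]⟩ ⟨8,[(7,3),(9,0),(13,2),(2,3),(5,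
  2)]⟩),.k,.k,.k,⟨false,1,⟨17,[(7,1),(3,5),(9,9),(1,7),(8,9),(4,0),(6,0)]⟩,⟨1,[(14,1),(29,0),(0,
  0)]⟩⟩,⟨true,0,⟨0,[(18,0)]⟩,⟨0,[(34,0)]⟩⟩,⟨true,0,⟨0,[(42,0)]⟩,⟨0,[(43,0)]⟩⟩,⟨false,0,⟨0,[(15,0)]⟩,
  ⟨0,[(32,0),(12,0)]⟩⟩,⟨false,0,⟨0,[]⟩,⟨0,[]⟩⟩,⟨false,0,⟨0,[]⟩,⟨0,[]⟩⟩,[.e ⟨false,1,⟨1,[(42,1),(1,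
  0),(0,0)]⟩,⟨0,[(43,0)]⟩⟩ ⟨false,0,⟨5,[(5,1),(8,3),(2,1),(2,0),(0,4),(15,0)]⟩,⟨1,[(26,0),(0,0),(4,
  1),(12,0)]⟩⟩,.o ⟨false,1,⟨2,[(2,2),(2,0),(8,1),(2,0),(3,2),(15,1),(7,0)]⟩,⟨0,[(27,0),(4,0)]⟩⟩,.o
  ⟨false,1,⟨2,[(2,1),(19,0),(3,0),(10,1)]⟩,⟨0,[(27,0)]⟩⟩,.a ⟨true,0,⟨0,[(2,0)]⟩,⟨1,[(10,1),(33,0),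
  (0,0)]⟩⟩ ⟨false,1,⟨1,[(21,0),(20,0),(2,0)]⟩,⟨2,[(7,0),(9,0),(16,0)]⟩⟩ ⟨true,0,⟨5,[(5,1),(8,3),(2,
  1),(2,0),(0,4),(15,0)]⟩,⟨2,[(7,0),(8,0),(15,0),(1,0),(7,0)]⟩⟩]⟩))) (.Q [0,0,0,0,0,-1,0,0,0,1,0,
  -1] (.ed true [0,1,0,0,1] .k) (.Q [0,-1,0,0,1,0,0,0,-1,0,0,1] (.p true [0,0,0,0,1] [] (⟨0,[(28,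
  0)]⟩,⟨0,[(27,0)]⟩) .k 0 (⟨0,[]⟩,⟨0,[]⟩) .k .k) (.Q [0,0,0,0,1,0,0,0,-1,-1,0,1] (.p true [0,0,0,0,
  1] [1] (⟨0,[(29,0)]⟩,⟨0,[(28,0)]⟩) .k 1 (⟨0,[]⟩,⟨0,[]⟩) .k .k) (.S ⟨1,0,[],[1,0,0,0,-1],[0,-1],
  (⟨0,[(29,0)]⟩,⟨0,[(30,0)]⟩),⟨0,[(2,0)]⟩,.k,(.r (-1) ⟨1,[(22,0),(20,0),(2,0)]⟩ ⟨8,[(8,3),(9,0),(13,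
  2),(2,3),(5,2)]⟩),⟨false,1,⟨1,[(27,0),(0,0),(17,0)]⟩,⟨0,[]⟩⟩,⟨true,0,⟨8,[(8,0),(23,0),(2,0),(5,2),
  (1,1)]⟩,⟨0,[]⟩⟩,⟨true,0,⟨0,[(44,0)]⟩,⟨0,[(43,0)]⟩⟩,⟨false,0,⟨0,[(44,0)]⟩,⟨0,[(43,0),(2,0)]⟩⟩,[.o
  ⟨false,1,⟨0,[(0,0)]⟩,⟨0,[(28,0)]⟩⟩,.a ⟨true,1,⟨0,[(1,0)]⟩,⟨0,[(11,0)]⟩⟩ ⟨true,1,⟨0,[(46,0)]⟩,⟨4,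
  [(6,1),(7,3),(18,3),(4,0),(2,0)]⟩⟩ ⟨false,1,⟨1,[(45,0),(0,0)]⟩,⟨8,[(8,0),(23,0),(2,0),(5,2),(1,
  1)]⟩⟩,.o ⟨false,1,⟨0,[(0,0)]⟩,⟨0,[(28,0)]⟩⟩,.o ⟨false,1,⟨2,[(0,1),(6,0),(19,0),(7,0),(2,0)]⟩,⟨0,
  [(3,0)]⟩⟩]⟩) (.S ⟨1,0,[],[1,0,0,0,-1],[0,-1],(⟨0,[(29,0)]⟩,⟨0,[(30,0)]⟩),⟨0,[(2,0)]⟩,.k,(.r (-1)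
  ⟨1,[(22,0),(20,0),(2,0)]⟩ ⟨8,[(8,3),(9,0),(13,2),(2,3),(5,2)]⟩),⟨false,1,⟨1,[(27,0),(0,0),(17,
  0)]⟩,⟨0,[]⟩⟩,⟨true,0,⟨8,[(8,0),(23,0),(2,0),(5,2),(1,1)]⟩,⟨0,[]⟩⟩,⟨true,0,⟨0,[(44,0)]⟩,⟨0,[(43,
  0)]⟩⟩,⟨false,0,⟨0,[(44,0)]⟩,⟨0,[(43,0),(2,0)]⟩⟩,[.e ⟨false,1,⟨1,[(45,0),(0,0)]⟩,⟨8,[(8,0),(23,0),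
  (2,0),(5,2),(1,1)]⟩⟩ ⟨false,1,⟨1,[(27,0),(0,0),(16,0)]⟩,⟨0,[]⟩⟩,.a ⟨true,1,⟨0,[(1,0)]⟩,⟨0,[(11,
  0)]⟩⟩ ⟨true,1,⟨0,[(46,0)]⟩,⟨4,[(6,1),(7,3),(18,3),(4,0),(2,0)]⟩⟩ ⟨false,1,⟨1,[(45,0),(0,0)]⟩,⟨8,
  [(8,0),(23,0),(2,0),(5,2),(1,1)]⟩⟩,.e ⟨false,1,⟨0,[(46,0)]⟩,⟨8,[(8,0),(23,0),(2,0),(5,2),(1,1)]⟩⟩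
  ⟨false,1,⟨1,[(27,0),(0,0),(17,0)]⟩,⟨0,[]⟩⟩,.o ⟨false,1,⟨14,[(1,9),(4,0),(0,1),(0,1),(5,5),(2,3),
  (9,4),(10,8)]⟩,⟨0,[(3,0)]⟩⟩]⟩)) (.Q [0,2,0,0,-2,0,0,0,1,1,0,-1] (.p false [0,0,0,0,1] [1] (⟨0,
  [(29,0)]⟩,⟨0,[(28,0)]⟩) .k 1 (⟨0,[]⟩,⟨0,[]⟩) .k .k) (.Q [0,0,1,0,1,0,0,0,-1,-1,0,1] (.p true [0,0,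
  0,0,1] [1] (⟨0,[(30,0)]⟩,⟨0,[(29,0)]⟩) .k 1 (⟨0,[]⟩,⟨0,[]⟩) .k .k) (.S ⟨1,0,[0,-1],[1,0,0,0,-1],
  [],(⟨0,[(30,0)]⟩,⟨0,[(31,0)]⟩),⟨0,[(3,0)]⟩,.k,(.r (-1) ⟨1,[(23,0),(20,0),(2,0)]⟩ ⟨8,[(9,3),(9,0),
  (13,2),(2,3),(5,2)]⟩),⟨true,0,⟨8,[(9,0),(23,0),(2,0),(5,2),(1,1)]⟩,⟨0,[]⟩⟩,⟨false,1,⟨1,[(28,0),(0,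
  0),(17,0)]⟩,⟨0,[]⟩⟩,⟨false,0,⟨0,[(45,0)]⟩,⟨0,[(44,0),(2,0)]⟩⟩,⟨true,0,⟨0,[(45,0)]⟩,⟨0,[(44,0)]⟩⟩,
  [.o ⟨false,2,⟨1,[(28,1),(10,0),(7,0)]⟩,⟨0,[(2,0)]⟩⟩,.a ⟨true,2,⟨0,[(28,0),(18,0)]⟩,⟨0,[(1,0)]⟩⟩
  ⟨false,1,⟨1,[(46,0),(0,0)]⟩,⟨8,[(9,0),(23,0),(2,0),(5,2),(1,1)]⟩⟩ ⟨true,1,⟨0,[(47,0)]⟩,⟨0,[(0,0),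
  (0,0)]⟩⟩,.e ⟨false,1,⟨1,[(28,0),(0,0),(17,0)]⟩,⟨0,[]⟩⟩ ⟨false,1,⟨0,[(47,0)]⟩,⟨8,[(9,0),(23,0),(2,
  0),(5,2),(1,1)]⟩⟩,.o ⟨false,1,⟨0,[(0,0)]⟩,⟨0,[(4,0)]⟩⟩]⟩) (.S ⟨1,0,[],[1,0,0,0,-1],[0,-1],(⟨0,
  [(30,0)]⟩,⟨0,[(31,0)]⟩),⟨0,[(3,0)]⟩,.k,(.r (-1) ⟨1,[(23,0),(20,0),(2,0)]⟩ ⟨8,[(9,3),(9,0),(13,2),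
  (2,3),(5,2)]⟩),⟨false,1,⟨1,[(28,0),(0,0),(17,0)]⟩,⟨0,[]⟩⟩,⟨true,0,⟨8,[(9,0),(23,0),(2,0),(5,2),(1,
  1)]⟩,⟨0,[]⟩⟩,⟨true,0,⟨0,[(45,0)]⟩,⟨0,[(44,0)]⟩⟩,⟨false,0,⟨0,[(45,0)]⟩,⟨0,[(44,0),(2,0)]⟩⟩,[.e
  ⟨false,1,⟨1,[(46,0),(0,0)]⟩,⟨8,[(9,0),(23,0),(2,0),(5,2),(1,1)]⟩⟩ ⟨false,1,⟨1,[(28,0),(0,0),(16,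
  0)]⟩,⟨0,[]⟩⟩,.o ⟨false,2,⟨1,[(28,1),(10,0),(7,0)]⟩,⟨0,[(2,0)]⟩⟩,.e ⟨false,1,⟨0,[(47,0)]⟩,⟨8,[(9,
  0),(23,0),(2,0),(5,2),(1,1)]⟩⟩ ⟨false,1,⟨1,[(28,0),(0,0),(17,0)]⟩,⟨0,[]⟩⟩,.a ⟨true,1,⟨1,[(28,1),
  (6,0),(0,0)]⟩,⟨0,[(0,0)]⟩⟩ ⟨true,1,⟨1,[(46,0),(0,0)]⟩,⟨4,[(7,1),(7,3),(18,3),(4,0),(2,0)]⟩⟩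
  ⟨false,1,⟨1,[(46,0),(0,0)]⟩,⟨1,[(35,0),(0,0)]⟩⟩]⟩)) (.R ⟨1,false,false,true,[1,0,-1],[0,0,0,0,1],
  [0,0,0,0,0,0,0,-1],(⟨0,[(36,0)]⟩,⟨0,[(37,0)]⟩),(⟨0,[(30,0)]⟩,⟨0,[(29,0)]⟩),⟨0,[(25,0)]⟩,.k,.k,.k,
  .k,(.r (-2) ⟨3,[(12,1),(11,1),(2,0),(0,0),(4,1),(11,1),(0,2)]⟩ ⟨0,[(14,0),(29,0)]⟩),.k,⟨false,2,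
  ⟨9,[(8,5),(3,1),(9,7),(1,1),(8,1),(11,2),(0,6)]⟩,⟨2,[(14,1),(0,0),(5,0),(19,0)]⟩⟩,⟨true,(-1),⟨3,
  [(1,2),(4,1),(4,0),(11,0),(22,1)]⟩,⟨0,[(0,0),(13,0),(18,0)]⟩⟩,⟨false,1,⟨1,[(27,0),(0,0),(17,0)]⟩,
  ⟨0,[]⟩⟩,⟨true,(-2),⟨8,[(1,2),(4,2),(2,2),(1,2),(2,4),(0,0),(5,3),(19,0)]⟩,⟨0,[(0,0),(32,0)]⟩⟩,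
  ⟨true,0,⟨0,[(44,0)]⟩,⟨0,[(43,0)]⟩⟩,⟨true,(-2),⟨2,[(1,1),(4,0),(2,0),(5,1),(7,0),(17,0)]⟩,⟨0,[(0,
  0),(16,0)]⟩⟩,[.o ⟨false,(-1),⟨7,[(1,6),(6,0),(5,0),(13,0),(12,2),(1,1)]⟩,⟨0,[(0,0)]⟩⟩,.o ⟨false,
  (-1),⟨0,[(1,0)]⟩,⟨3,[(0,1),(26,2),(0,0),(9,0)]⟩⟩,.o ⟨false,1,⟨1,[(35,1),(2,0),(6,0)]⟩,⟨0,[(19,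
  0)]⟩⟩,.a ⟨true,0,⟨0,[(35,0)]⟩,⟨0,[(31,0)]⟩⟩ ⟨true,1,⟨5,[(8,1),(13,3),(1,1),(8,3),(4,0),(6,0)]⟩,⟨0,
  [(14,0)]⟩⟩ ⟨false,(-1),⟨1,[(1,1),(21,0),(0,0)]⟩,⟨0,[(0,0),(34,0)]⟩⟩]⟩))) (.Q [0,0,0,0,1,0,0,0,-1,
  -1,0,1] (.p true [0,0,0,0,1] [1] (⟨0,[(28,0)]⟩,⟨0,[(27,0)]⟩) .k 1 (⟨0,[]⟩,⟨0,[]⟩) .k .k) (.R ⟨0,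
  false,false,false,[1,0,0,0,-1],[0,1,1],[1,0,1,1,0,0,0,1],(⟨0,[(28,0)]⟩,⟨0,[(29,0)]⟩),(⟨0,[(36,0),
  (2,0)]⟩,⟨0,[(24,0)]⟩),⟨0,[(1,0)]⟩,.k,.k,(.r (-1) ⟨1,[(21,0),(20,0),(2,0)]⟩ ⟨8,[(7,3),(9,0),(13,2),
  (2,3),(5,2)]⟩),(.r (-2) ⟨3,[(11,1),(11,1),(2,0),(0,0),(4,1),(11,1),(0,2)]⟩ ⟨0,[(13,0),(29,0)]⟩),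
  .k,.k,⟨true,0,⟨0,[]⟩,⟨1,[(33,0),(0,0)]⟩⟩,⟨false,0,⟨1,[(2,1),(19,0),(0,0)]⟩,⟨0,[(0,0),(33,0)]⟩⟩,
  ⟨true,(-1),⟨0,[(14,0)]⟩,⟨17,[(7,1),(3,5),(9,9),(1,7),(8,9),(4,0),(6,0)]⟩⟩,⟨false,(-1),⟨0,[(8,0)]⟩,
  ⟨0,[(0,0),(15,0),(28,0)]⟩⟩,⟨false,0,⟨0,[]⟩,⟨0,[]⟩⟩,⟨false,0,⟨0,[]⟩,⟨0,[]⟩⟩,[.o ⟨false,0,⟨0,[(17,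
  0)]⟩,⟨3,[(11,1),(20,1),(4,0),(7,0)]⟩⟩,.a ⟨true,0,⟨5,[(6,1),(1,0),(5,1),(2,2),(4,2),(3,0),(18,3)]⟩,
  ⟨0,[(16,0)]⟩⟩ ⟨true,0,⟨0,[(14,0),(30,0)]⟩,⟨11,[(3,1),(1,4),(5,3),(11,0),(8,7),(4,0),(2,0)]⟩⟩
  ⟨false,0,⟨1,[(8,1),(35,0),(0,0)]⟩,⟨0,[(0,0),(15,0)]⟩⟩,.o ⟨false,1,⟨0,[(0,0)]⟩,⟨0,[(27,0)]⟩⟩,.o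
  ⟨false,1,⟨2,[(0,1),(5,0),(19,0),(7,0),(2,0)]⟩,⟨0,[(2,0)]⟩⟩]⟩) (.R ⟨0,false,false,true,[1,0,0,0,
  -1],[1,0,1,0,-1],[],(⟨0,[(28,0)]⟩,⟨0,[(29,0)]⟩),(⟨0,[(28,0),(7,0)]⟩,⟨1,[(1,1),(10,0),(22,0)]⟩),⟨0,
  [(1,0)]⟩,.k,.k,(.r (-1) ⟨1,[(21,0),(20,0),(2,0)]⟩ ⟨8,[(7,3),(9,0),(13,2),(2,3),(5,2)]⟩),.k,.k,.k,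
  ⟨false,1,⟨5,[(7,1),(13,3),(1,1),(8,3),(4,0),(6,0)]⟩,⟨1,[(13,0),(3,0),(3,0),(12,0)]⟩⟩,⟨true,0,⟨0,
  [(18,0)]⟩,⟨0,[(34,0)]⟩⟩,⟨true,0,⟨8,[(7,0),(23,0),(2,0),(5,2),(1,1)]⟩,⟨0,[]⟩⟩,⟨false,0,⟨0,[(15,
  0)]⟩,⟨0,[(32,0),(12,0)]⟩⟩,⟨false,0,⟨0,[]⟩,⟨0,[]⟩⟩,⟨false,0,⟨0,[]⟩,⟨0,[]⟩⟩,[.o ⟨false,1,⟨26,[(1,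
  11),(2,11),(0,7),(3,8),(2,8),(0,15),(1,10),(10,14),(10,15),(7,7)]⟩,⟨1,[(0,1),(31,1),(4,0),(7,
  0)]⟩⟩,.e ⟨false,1,⟨1,[(44,0),(0,0)]⟩,⟨8,[(7,0),(23,0),(2,0),(5,2),(1,1)]⟩⟩ ⟨false,1,⟨1,[(17,0),(3,
  0),(9,0),(13,0)]⟩,⟨0,[(32,0)]⟩⟩,.a ⟨true,1,⟨0,[(26,0)]⟩,⟨0,[(0,0)]⟩⟩ ⟨false,1,⟨1,[(26,0),(0,0),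
  (17,0)]⟩,⟨0,[]⟩⟩ ⟨true,0,⟨0,[(15,0)]⟩,⟨0,[(32,0)]⟩⟩,.o ⟨false,1,⟨10,[(1,7),(2,7),(1,8),(2,5),(2,
  5),(13,2),(7,8),(2,8)]⟩,⟨0,[(2,0)]⟩⟩]⟩))))) (.I [1,-1,2,2] (.I [0,0,2,0,-1,-2,0,0,1] (.N [0,-2,0,
  0,1] 0 ⟨0,[(17,0)]⟩ ⟨0,[(1,0)]⟩ (.x 1 ⟨0,[(0,0)]⟩ ⟨0,[(20,0),(3,0),(1,0),(8,0),(1,1)]⟩)) (.Q [0,0,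
  0,0,1,0,0,0,-1,-1,0,1] (.p true [0,0,0,0,1] [1] (⟨0,[(27,0)]⟩,⟨0,[(26,0)]⟩) .k 1 (⟨0,[]⟩,⟨0,[]⟩)
  .k .k) (.Q [0,0,1,0,-1,0,0,0,1,1,0,-1] (.p false [0,0,0,0,1] [1] (⟨0,[(28,0)]⟩,⟨0,[(27,0)]⟩) .k 1
  (⟨0,[]⟩,⟨0,[]⟩) .k .k) (.S ⟨1,0,[0,1],[0,0,0,0,1],[0,2],(⟨0,[(29,0)]⟩,⟨0,[(28,0)]⟩),⟨1,[(1,0),(2,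
  0),(17,0),(6,0)]⟩,.k,(.r 0 ⟨0,[(41,0)]⟩ ⟨3,[(3,1),(22,2),(0,2),(17,0)]⟩),⟨true,0,⟨8,[(7,0),(23,0),
  (2,0),(5,2),(1,1)]⟩,⟨0,[]⟩⟩,⟨false,1,⟨1,[(26,0),(0,0),(17,0)]⟩,⟨0,[]⟩⟩,⟨false,0,⟨0,[(43,0)]⟩,⟨0,
  [(42,0),(2,0)]⟩⟩,⟨true,0,⟨0,[(43,0)]⟩,⟨0,[(42,0)]⟩⟩,[.e ⟨false,0,⟨0,[(40,0)]⟩,⟨0,[(45,0)]⟩⟩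
  ⟨false,0,⟨2,[(20,0),(19,0),(2,0)]⟩,⟨1,[(26,0),(0,0),(17,0)]⟩⟩,.o ⟨false,0,⟨0,[(27,0)]⟩,⟨0,[(1,
  0)]⟩⟩,.o ⟨false,0,⟨0,[(27,0)]⟩,⟨0,[(1,0)]⟩⟩,.a ⟨true,(-1),⟨0,[(0,0)]⟩,⟨1,[(1,0),(20,0),(3,0)]⟩⟩
  ⟨false,0,⟨2,[(20,0),(19,0),(2,0)]⟩,⟨1,[(33,0),(0,0),(10,1)]⟩⟩ ⟨true,0,⟨2,[(20,0),(19,0),(2,0)]⟩,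
  ⟨1,[(33,0),(0,0)]⟩⟩]⟩) (.Q [0,0,0,0,0,0,0,0,0,-1,1,1] (.ed false [0,0,1,0,1] (.r 0 ⟨1,[(13,0),(17,
  0),(2,0),(9,0)]⟩ ⟨15,[(5,1),(1,9),(3,5),(9,7),(0,2),(0,0),(21,3)]⟩)) (.Q [0,0,-1,0,-1,0,1,0,1,2,
  -1,-1] (.p false [-1,0,1,0,1] [1] (⟨0,[(0,0)]⟩,⟨0,[(29,0),(6,0)]⟩) .k 1 (⟨0,[]⟩,⟨0,[]⟩) .k (.r 0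
  ⟨1,[(14,0),(17,0),(2,0),(9,0)]⟩ ⟨15,[(6,1),(1,9),(3,5),(9,7),(0,2),(0,0),(21,3)]⟩)) (.S ⟨1,0,[0,0,
  0,0,0,0,0,-1],[2,0,-1,0,-1],[1,-1,0,-1,0,0,0,-1],(⟨0,[(30,0),(6,0)]⟩,⟨0,[(1,0)]⟩),⟨1,[(14,0),(15,
  1),(6,0)]⟩,.k,(.r (-2) ⟨7,[(0,1),(8,1),(3,5),(11,1),(2,2),(0,0),(16,4),(0,3)]⟩ ⟨0,[(15,0),(29,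
  0)]⟩),⟨false,1,⟨0,[(44,0),(2,0)]⟩,⟨0,[(45,0)]⟩⟩,⟨true,0,⟨8,[(9,0),(23,0),(2,0),(5,2),(1,1)]⟩,⟨0,
  []⟩⟩,⟨true,0,⟨0,[]⟩,⟨8,[(9,0),(23,0),(2,0),(5,2),(1,1)]⟩⟩,⟨false,0,⟨0,[(45,0)]⟩,⟨0,[(44,0),(2,
  0)]⟩⟩,[.o ⟨false,2,⟨3,[(2,2),(6,0),(3,0),(14,0),(5,1),(1,0),(2,1),(7,0)]⟩,⟨1,[(0,1),(14,1),(23,0),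
  (7,0)]⟩⟩,.a ⟨true,2,⟨3,[(2,2),(6,0),(3,0),(14,0),(5,1),(1,0),(10,2)]⟩,⟨0,[(0,0),(14,0)]⟩⟩ ⟨false,
  2,⟨9,[(9,1),(3,3),(9,5),(1,3),(8,3),(11,0),(0,8)]⟩,⟨2,[(16,2),(5,0),(19,0),(2,0)]⟩⟩ ⟨true,1,⟨15,
  [(7,1),(1,9),(3,5),(9,7),(0,2),(0,0),(21,3)]⟩,⟨0,[(15,0)]⟩⟩,.a ⟨true,1,⟨0,[(2,0),(33,0)]⟩,⟨10,[(0,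
  5),(7,2),(3,5),(12,0),(2,0),(18,2)]⟩⟩ ⟨true,1,⟨7,[(7,1),(1,1),(3,5),(10,2),(0,0),(21,3)]⟩,⟨2,[(16,
  2),(5,0),(19,0),(2,0)]⟩⟩ ⟨false,1,⟨15,[(7,1),(1,9),(3,5),(9,7),(0,2),(0,0),(21,3)]⟩,⟨1,[(15,0),(3,
  0),(3,0),(12,0)]⟩⟩,.a ⟨true,1,⟨0,[(3,0),(32,0)]⟩,⟨0,[(0,0)]⟩⟩ ⟨false,2,⟨9,[(9,1),(3,3),(9,5),(1,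
  3),(8,3),(11,0),(0,8)]⟩,⟨0,[(15,0),(29,0)]⟩⟩ ⟨true,1,⟨5,[(9,1),(13,3),(1,1),(8,3),(4,0),(6,0)]⟩,
  ⟨0,[(15,0)]⟩⟩]⟩) (.Q [0,0,0,0,0,1,0,0,0,-1,0,1] (.ed false [0,1,0,0,1] .k) (.R ⟨0,false,false,
  true,[1,0,0,0,-1],[1,0,1,0,-1],[0,0,0,-1],(⟨0,[(31,0)]⟩,⟨0,[(32,0)]⟩),(⟨0,[(31,0),(7,0)]⟩,⟨1,[(0,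
  1),(14,0),(22,0)]⟩),⟨0,[(0,0)]⟩,.k,.k,(.r (-1) ⟨1,[(24,0),(20,0),(2,0)]⟩ ⟨7,[(6,0),(3,2),(23,2),
  (2,2),(5,2)]⟩),.k,.k,.k,⟨false,1,⟨17,[(10,1),(3,5),(9,9),(1,7),(8,9),(4,0),(6,0)]⟩,⟨1,[(17,1),(29,
  0),(0,0)]⟩⟩,⟨true,0,⟨0,[(21,0)]⟩,⟨0,[(37,0)]⟩⟩,⟨true,0,⟨0,[(45,0)]⟩,⟨0,[(46,0)]⟩⟩,⟨false,0,⟨0,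
  [(18,0)]⟩,⟨0,[(35,0),(12,0)]⟩⟩,⟨false,0,⟨0,[]⟩,⟨0,[]⟩⟩,⟨false,0,⟨0,[]⟩,⟨0,[]⟩⟩,[.e ⟨false,1,⟨1,
  [(45,1),(1,0),(0,0)]⟩,⟨0,[(46,0)]⟩⟩ ⟨false,0,⟨12,[(3,6),(4,1),(2,6),(4,3),(1,1),(3,0),(1,4),(15,
  0)]⟩,⟨1,[(29,0),(0,0),(4,1),(12,0)]⟩⟩,.o ⟨false,1,⟨5,[(3,5),(4,1),(7,3),(1,1),(21,0),(7,4)]⟩,⟨0,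
  [(30,0),(4,0)]⟩⟩,.o ⟨false,1,⟨0,[(4,0)]⟩,⟨0,[(30,0)]⟩⟩,.a ⟨true,0,⟨0,[(1,0),(7,0),(15,0)]⟩,⟨1,
  [(13,1),(33,0),(0,0)]⟩⟩ ⟨false,1,⟨1,[(24,0),(20,0),(2,0)]⟩,⟨7,[(6,2),(3,0),(23,0),(2,0),(5,0)]⟩⟩
  ⟨true,0,⟨12,[(3,6),(4,1),(2,6),(4,3),(1,1),(3,0),(1,4),(15,0)]⟩,⟨2,[(10,0),(8,0),(15,0),(1,0),(7,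
  0)]⟩⟩]⟩) (.Q [0,2,0,0,-1,0,0,0,1,0,0,-1] (.p false [0,0,0,0,1] [] (⟨0,[(32,0)]⟩,⟨0,[(31,0)]⟩) .k
  0 (⟨0,[]⟩,⟨0,[]⟩) .k .k) (.S ⟨1,0,[0,-1],[1,0,0,0,-1],[],(⟨0,[(32,0)]⟩,⟨0,[(33,0)]⟩),⟨0,[(1,0)]⟩,
  .k,(.r (-1) ⟨1,[(25,0),(20,0),(2,0)]⟩ ⟨7,[(7,0),(3,2),(23,2),(2,2),(5,2)]⟩),⟨true,0,⟨8,[(11,0),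
  (23,0),(2,0),(5,2),(1,1)]⟩,⟨0,[]⟩⟩,⟨false,1,⟨1,[(30,0),(0,0),(17,0)]⟩,⟨0,[]⟩⟩,⟨false,0,⟨0,[(47,
  0)]⟩,⟨0,[(46,0),(2,0)]⟩⟩,⟨true,0,⟨0,[(47,0)]⟩,⟨0,[(46,0)]⟩⟩,[.e ⟨false,1,⟨1,[(30,0),(0,0),(16,
  0)]⟩,⟨0,[]⟩⟩ ⟨false,1,⟨1,[(48,0),(0,0)]⟩,⟨8,[(11,0),(23,0),(2,0),(5,2),(1,1)]⟩⟩,.o ⟨false,2,⟨0,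
  [(5,0),(43,0)]⟩,⟨0,[(0,0)]⟩⟩,.o ⟨false,1,⟨0,[(5,0)]⟩,⟨0,[(31,0)]⟩⟩,.a ⟨true,0,⟨0,[(2,0),(7,0),(15,
  0)]⟩,⟨1,[(14,1),(33,0),(0,0)]⟩⟩ ⟨false,1,⟨1,[(48,0),(0,0)]⟩,⟨1,[(37,0),(0,0)]⟩⟩ ⟨true,1,⟨1,[(48,
  0),(0,0)]⟩,⟨4,[(0,0),(1,0),(6,1),(7,2),(18,2),(7,0)]⟩⟩]⟩) (.R ⟨1,false,false,true,[1,0,0,0,-1],[0,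
  0,1],[],(⟨0,[(32,0)]⟩,⟨0,[(33,0)]⟩),(⟨0,[(40,0)]⟩,⟨0,[(39,0)]⟩),⟨0,[(1,0)]⟩,.k,.k,(.r (-1) ⟨1,
  [(25,0),(20,0),(2,0)]⟩ ⟨7,[(7,0),(3,2),(23,2),(2,2),(5,2)]⟩),.k,(.r (-2) ⟨3,[(15,1),(11,1),(2,0),
  (0,0),(4,1),(11,1),(0,2)]⟩ ⟨0,[(17,0),(29,0)]⟩),.k,⟨true,1,⟨15,[(9,1),(1,9),(3,5),(9,7),(0,2),(0,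
  0),(21,3)]⟩,⟨0,[(17,0)]⟩⟩,⟨false,0,⟨1,[(26,0),(0,0),(3,1)]⟩,⟨3,[(2,2),(23,1),(3,0),(7,0)]⟩⟩,⟨true,
  0,⟨8,[(11,0),(23,0),(2,0),(5,2),(1,1)]⟩,⟨0,[]⟩⟩,⟨false,(-1),⟨0,[(14,0),(4,0)]⟩,⟨1,[(0,1),(35,1),
  (4,0),(7,0)]⟩⟩,⟨false,0,⟨0,[(47,0)]⟩,⟨0,[(46,0),(2,0)]⟩⟩,⟨false,(-1),⟨6,[(7,0),(4,4),(1,1),(20,1),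
  (8,1)]⟩,⟨3,[(0,3),(14,1),(20,1),(4,0),(7,0)]⟩⟩,[.e ⟨false,1,⟨1,[(30,0),(0,0),(16,0)]⟩,⟨0,[]⟩⟩
  ⟨false,(-1),⟨6,[(12,5),(1,0),(8,2),(11,0),(8,0)]⟩,⟨5,[(0,2),(1,1),(8,1),(3,1),(14,0),(5,1),(11,2),
  (0,0)]⟩⟩,.o ⟨false,0,⟨0,[(19,0)]⟩,⟨1,[(36,1),(4,0),(7,0)]⟩⟩,.o ⟨false,1,⟨0,[(5,0)]⟩,⟨0,[(31,0)]⟩⟩,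
  .a ⟨true,0,⟨1,[(0,0),(3,0),(5,0),(6,0),(18,0)]⟩,⟨1,[(14,1),(33,0),(0,0)]⟩⟩ ⟨false,1,⟨1,[(48,0),(0,
  0)]⟩,⟨1,[(37,0),(0,0)]⟩⟩ ⟨true,(-1),⟨6,[(12,5),(1,0),(8,2),(11,0),(8,0)]⟩,⟨2,[(0,0),(1,0),(2,0),
  (5,0),(8,1)]⟩⟩]⟩)))) (.Q [0,0,0,0,0,0,-1,0,1,0,1,-1] (.p true [0,0,1] [0,0,0,0,1] (⟨0,[(37,0)]⟩,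
  ⟨0,[(36,0)]⟩) .k 2 (⟨0,[(30,0)]⟩,⟨0,[(29,0)]⟩) .k (.r (-1) ⟨1,[(18,0),(3,0),(9,0),(2,1),(10,0)]⟩
  ⟨8,[(6,1),(1,2),(3,0),(8,3),(2,0),(8,4),(4,0)]⟩)) (.R ⟨1,false,false,false,[0,0,-1,0,1],[0,0,0,0,
  1],[1,1,0,-1,0,0,0,-1],(⟨0,[(1,0),(0,1),(3,1),(17,0),(16,3)]⟩,⟨0,[(30,0),(7,0)]⟩),(⟨0,[(31,0)]⟩,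
  ⟨0,[(30,0)]⟩),⟨0,[(1,0),(0,1),(3,1),(17,0),(16,2)]⟩,.k,.k,(.r (-1) ⟨7,[(13,3),(11,3),(2,0),(0,0),
  (4,3),(7,1),(3,2)]⟩ ⟨0,[(16,0),(30,0)]⟩),.k,.k,.k,⟨false,1,⟨17,[(9,1),(3,5),(9,9),(1,7),(8,9),(4,
  0),(6,0)]⟩,⟨1,[(16,1),(29,0),(0,0)]⟩⟩,⟨true,0,⟨0,[(20,0)]⟩,⟨0,[(36,0)]⟩⟩,⟨false,1,⟨0,[(44,0),(2,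
  0)]⟩,⟨0,[(45,0)]⟩⟩,⟨true,0,⟨0,[(17,0)]⟩,⟨0,[(34,0)]⟩⟩,⟨true,0,⟨0,[]⟩,⟨8,[(9,0),(23,0),(2,0),(5,2),
  (1,1)]⟩⟩,⟨true,0,⟨0,[(19,0)]⟩,⟨0,[(18,0)]⟩⟩,[.a ⟨true,(-1),⟨0,[(12,0)]⟩,⟨5,[(2,4),(5,2),(15,1),(3,
  0),(7,2),(10,2)]⟩⟩ ⟨true,0,⟨23,[(7,10),(5,9),(8,3),(2,0),(8,13),(4,0),(2,2)]⟩,⟨0,[(16,0),(30,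
  0)]⟩⟩ ⟨false,0,⟨1,[(7,0),(16,0),(14,0),(2,0)]⟩,⟨1,[(36,1),(9,0),(0,0)]⟩⟩,.o ⟨false,0,⟨0,[(29,0)]⟩,
  ⟨0,[(3,0)]⟩⟩,.o ⟨false,0,⟨0,[(0,0)]⟩,⟨3,[(2,0),(0,2),(3,0),(17,0),(13,0)]⟩⟩,.o ⟨false,0,⟨0,[(29,
  0),(6,0)]⟩,⟨5,[(2,5),(4,1),(16,0),(0,0),(13,1)]⟩⟩]⟩) (.R ⟨1,false,false,true,[1,0,0,0,-1],[1,0,1,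
  0,-1],[],(⟨0,[(30,0)]⟩,⟨0,[(31,0)]⟩),(⟨0,[(30,0),(7,0)]⟩,⟨0,[(1,0),(0,1),(3,1),(17,0),(16,3)]⟩),
  ⟨1,[(1,0),(9,0),(18,0)]⟩,.k,.k,(.r (-1) ⟨1,[(23,0),(20,0),(2,0)]⟩ ⟨7,[(5,0),(3,2),(23,2),(2,2),(5,
  2)]⟩),.k,.k,.k,⟨false,1,⟨5,[(9,1),(13,3),(1,1),(8,3),(4,0),(6,0)]⟩,⟨1,[(15,0),(3,0),(3,0),(12,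
  0)]⟩⟩,⟨true,0,⟨0,[(20,0)]⟩,⟨0,[(36,0)]⟩⟩,⟨true,0,⟨8,[(9,0),(23,0),(2,0),(5,2),(1,1)]⟩,⟨0,[]⟩⟩,
  ⟨false,0,⟨0,[(17,0)]⟩,⟨0,[(34,0),(12,0)]⟩⟩,⟨false,0,⟨0,[(45,0)]⟩,⟨0,[(44,0),(2,0)]⟩⟩,⟨false,0,⟨0,
  [(19,0)]⟩,⟨0,[(18,0),(28,0)]⟩⟩,[.e ⟨false,1,⟨1,[(28,0),(0,0),(16,0)]⟩,⟨0,[]⟩⟩ ⟨false,0,⟨8,[(0,1),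
  (1,2),(7,4),(4,1),(1,1),(3,0),(1,2),(15,0)]⟩,⟨1,[(28,0),(0,0),(4,1),(12,0)]⟩⟩,.o ⟨false,1,⟨3,[(0,
  1),(1,1),(12,1),(1,1),(21,0),(7,2)]⟩,⟨0,[(29,0),(4,0)]⟩⟩,.o ⟨false,1,⟨0,[(3,0)]⟩,⟨0,[(29,0)]⟩⟩,.a
  ⟨true,0,⟨0,[(0,0),(35,0)]⟩,⟨1,[(12,1),(33,0),(0,0)]⟩⟩ ⟨false,1,⟨1,[(46,0),(0,0)]⟩,⟨1,[(35,0),(0,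
  0)]⟩⟩ ⟨true,0,⟨8,[(0,1),(1,2),(7,4),(4,1),(1,1),(3,0),(1,2),(15,0)]⟩,⟨2,[(9,0),(8,0),(15,0),(1,0),
  (7,0)]⟩⟩]⟩)))) (.Q [0,-1,-1,-1,1,0,1,1,-1,0,-1,1] (.p false [0,0,1] [0,0,0,0,1] (⟨0,[(35,0)]⟩,⟨0,
  [(34,0)]⟩) .k 2 (⟨0,[(28,0)]⟩,⟨0,[(27,0)]⟩) .k (.r (-1) ⟨1,[(16,0),(3,0),(9,0),(2,1),(10,0)]⟩ ⟨8,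
  [(4,1),(1,2),(3,0),(8,3),(2,0),(8,4),(4,0)]⟩)) (.Q [0,2,0,0,-2,0,0,0,1,1,0,-1] (.p false [0,0,0,0,
  1] [1] (⟨0,[(29,0)]⟩,⟨0,[(28,0)]⟩) .k 1 (⟨0,[]⟩,⟨0,[]⟩) .k .k) (.Q [0,0,1,0,1,0,0,0,-1,-1,0,1]
  (.p true [0,0,0,0,1] [1] (⟨0,[(30,0)]⟩,⟨0,[(29,0)]⟩) .k 1 (⟨0,[]⟩,⟨0,[]⟩) .k .k) (.S ⟨1,0,[0,-1],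
  [1,0,0,0,-1],[],(⟨0,[(30,0)]⟩,⟨0,[(31,0)]⟩),⟨9,[(3,6),(0,6),(0,3),(1,1),(3,5),(1,3),(0,5),(0,3),
  (14,2),(8,1)]⟩,.k,(.r (-1) ⟨1,[(23,0),(20,0),(2,0)]⟩ ⟨7,[(5,0),(3,2),(23,2),(2,2),(5,2)]⟩),⟨true,
  0,⟨8,[(9,0),(23,0),(2,0),(5,2),(1,1)]⟩,⟨0,[]⟩⟩,⟨false,1,⟨1,[(28,0),(0,0),(17,0)]⟩,⟨0,[]⟩⟩,⟨false,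
  0,⟨0,[(45,0)]⟩,⟨0,[(44,0),(2,0)]⟩⟩,⟨true,0,⟨0,[(45,0)]⟩,⟨0,[(44,0)]⟩⟩,[.o ⟨false,2,⟨1,[(28,1),(10,
  0),(7,0)]⟩,⟨1,[(1,0),(1,0),(35,0)]⟩⟩,.a ⟨true,2,⟨0,[(28,0),(18,0)]⟩,⟨0,[(1,0)]⟩⟩ ⟨false,1,⟨1,[(46,
  0),(0,0)]⟩,⟨8,[(9,0),(23,0),(2,0),(5,2),(1,1)]⟩⟩ ⟨true,1,⟨0,[(47,0)]⟩,⟨0,[(0,0),(0,0)]⟩⟩,.e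
  ⟨false,1,⟨1,[(28,0),(0,0),(17,0)]⟩,⟨0,[]⟩⟩ ⟨false,1,⟨0,[(47,0)]⟩,⟨8,[(9,0),(23,0),(2,0),(5,2),(1,
  1)]⟩⟩,.o ⟨false,1,⟨0,[(0,0)]⟩,⟨1,[(3,0),(20,0),(4,0),(9,0)]⟩⟩]⟩) (.S ⟨1,0,[],[1,0,0,0,-1],[0,-1],
  (⟨0,[(30,0)]⟩,⟨0,[(31,0)]⟩),⟨21,[(0,6),(3,6),(0,5),(1,2),(3,8),(1,5),(0,8),(0,5),(14,14),(8,2)]⟩,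
  .k,(.r (-1) ⟨1,[(23,0),(20,0),(2,0)]⟩ ⟨7,[(5,0),(3,2),(23,2),(2,2),(5,2)]⟩),⟨false,1,⟨1,[(28,0),
  (0,0),(17,0)]⟩,⟨0,[]⟩⟩,⟨true,0,⟨8,[(9,0),(23,0),(2,0),(5,2),(1,1)]⟩,⟨0,[]⟩⟩,⟨true,0,⟨0,[(45,0)]⟩,
  ⟨0,[(44,0)]⟩⟩,⟨false,0,⟨0,[(45,0)]⟩,⟨0,[(44,0),(2,0)]⟩⟩,[.e ⟨false,1,⟨1,[(46,0),(0,0)]⟩,⟨8,[(9,0),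
  (23,0),(2,0),(5,2),(1,1)]⟩⟩ ⟨false,1,⟨1,[(28,0),(0,0),(16,0)]⟩,⟨0,[]⟩⟩,.o ⟨false,2,⟨1,[(28,1),(10,
  0),(7,0)]⟩,⟨1,[(1,0),(1,0),(35,0)]⟩⟩,.e ⟨false,1,⟨0,[(47,0)]⟩,⟨8,[(9,0),(23,0),(2,0),(5,2),(1,
  1)]⟩⟩ ⟨false,1,⟨1,[(28,0),(0,0),(17,0)]⟩,⟨0,[]⟩⟩,.a ⟨true,1,⟨1,[(28,1),(6,0),(0,0)]⟩,⟨0,[(0,0)]⟩⟩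
  ⟨true,1,⟨1,[(46,0),(0,0)]⟩,⟨4,[(7,1),(7,3),(18,3),(4,0),(2,0)]⟩⟩ ⟨false,1,⟨1,[(46,0),(0,0)]⟩,⟨1,
  [(35,0),(0,0)]⟩⟩]⟩)) (.Q [0,1,0,0,-1,0,0,0,1,0,0,-1] (.p false [0,0,0,0,1] [] (⟨0,[(30,0)]⟩,⟨0,
  [(29,0)]⟩) .k 0 (⟨0,[]⟩,⟨0,[]⟩) .k .k) (.R ⟨1,false,false,true,[1,0,-1],[0,0,0,0,1],[0,0,0,0,0,0,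
  0,-1],(⟨0,[(37,0)]⟩,⟨0,[(38,0)]⟩),(⟨0,[(31,0)]⟩,⟨0,[(30,0)]⟩),⟨0,[(26,0)]⟩,.k,.k,.k,.k,(.r (-2)
  ⟨3,[(13,1),(11,1),(2,0),(0,0),(4,1),(11,1),(0,2)]⟩ ⟨0,[(15,0),(29,0)]⟩),.k,⟨false,2,⟨9,[(9,5),(3,
  1),(9,7),(1,1),(8,1),(11,2),(0,6)]⟩,⟨2,[(15,1),(0,0),(5,0),(19,0)]⟩⟩,⟨true,(-1),⟨8,[(0,2),(2,3),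
  (3,3),(1,0),(0,0),(12,2),(5,0)]⟩,⟨0,[(1,0),(13,0),(18,0)]⟩⟩,⟨false,1,⟨1,[(28,0),(0,0),(17,0)]⟩,⟨0,
  []⟩⟩,⟨true,(-2),⟨8,[(0,2),(6,2),(2,2),(1,2),(2,4),(0,0),(5,3),(19,0)]⟩,⟨0,[(1,0),(32,0)]⟩⟩,⟨true,
  0,⟨0,[(45,0)]⟩,⟨0,[(44,0)]⟩⟩,⟨true,(-2),⟨2,[(0,1),(6,0),(2,0),(5,1),(7,0),(17,0)]⟩,⟨0,[(1,0),(16,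
  0)]⟩⟩,[.o ⟨false,(-1),⟨7,[(0,6),(8,0),(5,0),(13,0),(12,2),(1,1)]⟩,⟨0,[(1,0)]⟩⟩,.o ⟨false,(-1),⟨0,
  [(0,0)]⟩,⟨3,[(1,1),(26,2),(0,0),(9,0)]⟩⟩,.o ⟨false,1,⟨1,[(36,1),(2,0),(6,0)]⟩,⟨0,[(20,0)]⟩⟩,.a
  ⟨true,0,⟨0,[(36,0)]⟩,⟨0,[(32,0)]⟩⟩ ⟨true,1,⟨5,[(9,1),(13,3),(1,1),(8,3),(4,0),(6,0)]⟩,⟨0,[(15,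
  0)]⟩⟩ ⟨false,(-1),⟨1,[(0,1),(23,0),(0,0)]⟩,⟨0,[(1,0),(34,0)]⟩⟩]⟩) (.S ⟨1,0,[],[1,0,0,0,-1],[0,-1],
  (⟨0,[(30,0)]⟩,⟨0,[(31,0)]⟩),⟨9,[(3,6),(0,6),(0,3),(1,1),(3,5),(1,3),(0,5),(0,3),(14,2),(8,1)]⟩,.k,
  (.r (-1) ⟨1,[(23,0),(20,0),(2,0)]⟩ ⟨7,[(5,0),(3,2),(23,2),(2,2),(5,2)]⟩),⟨false,1,⟨1,[(28,0),(0,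
  0),(17,0)]⟩,⟨0,[]⟩⟩,⟨true,0,⟨8,[(9,0),(23,0),(2,0),(5,2),(1,1)]⟩,⟨0,[]⟩⟩,⟨true,0,⟨0,[(45,0)]⟩,⟨0,
  [(44,0)]⟩⟩,⟨false,0,⟨0,[(45,0)]⟩,⟨0,[(44,0),(2,0)]⟩⟩,[.e ⟨false,1,⟨1,[(46,0),(0,0)]⟩,⟨8,[(9,0),
  (23,0),(2,0),(5,2),(1,1)]⟩⟩ ⟨false,1,⟨1,[(28,0),(0,0),(16,0)]⟩,⟨0,[]⟩⟩,.a ⟨true,1,⟨0,[(0,0)]⟩,⟨0,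
  [(12,0)]⟩⟩ ⟨true,1,⟨0,[(47,0)]⟩,⟨4,[(7,1),(7,3),(18,3),(4,0),(2,0)]⟩⟩ ⟨false,1,⟨1,[(46,0),(0,0)]⟩,
  ⟨8,[(9,0),(23,0),(2,0),(5,2),(1,1)]⟩⟩,.e ⟨false,1,⟨0,[(47,0)]⟩,⟨8,[(9,0),(23,0),(2,0),(5,2),(1,
  1)]⟩⟩ ⟨false,1,⟨1,[(28,0),(0,0),(17,0)]⟩,⟨0,[]⟩⟩,.o ⟨false,1,⟨14,[(0,9),(6,0),(0,1),(0,1),(5,5),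
  (2,3),(9,4),(10,8)]⟩,⟨1,[(3,0),(20,0),(4,0),(9,0)]⟩⟩]⟩))) (.S ⟨1,0,[0,1,0,0,0,0,0,-1],[1,0,-1,0,
  1],[1,2,0,-1,0,0,0,-1],(⟨0,[(29,0),(5,0)]⟩,⟨13,[(0,7),(0,4),(0,12),(2,5),(3,11),(1,3),(1,11),(11,
  1),(2,0),(8,3),(7,9)]⟩),⟨1,[(12,0),(16,1),(5,0)]⟩,.k,(.r (-1) ⟨7,[(11,3),(11,3),(2,0),(0,0),(4,3),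
  (7,1),(3,2)]⟩ ⟨0,[(14,0),(30,0)]⟩),⟨true,0,⟨0,[(42,0)]⟩,⟨0,[(43,0)]⟩⟩,⟨false,1,⟨1,[(26,0),(0,0),
  (17,0)]⟩,⟨0,[]⟩⟩,⟨false,0,⟨0,[]⟩,⟨1,[(26,0),(0,0),(17,0)]⟩⟩,⟨true,0,⟨0,[(43,0)]⟩,⟨0,[(42,0)]⟩⟩,
  [.o ⟨false,0,⟨7,[(0,5),(10,1),(8,1),(6,1),(9,2),(6,0)]⟩,⟨7,[(2,3),(2,3),(3,1),(2,1),(0,5),(0,1),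
  (6,1),(4,3),(2,3),(7,2),(7,6)]⟩⟩,.a ⟨true,0,⟨2,[(0,1),(10,0),(10,0),(4,0),(17,0)]⟩,⟨3,[(2,1),(2,
  1),(3,0),(2,0),(0,3),(8,0),(3,1),(2,1),(15,1)]⟩⟩ ⟨true,0,⟨23,[(5,10),(5,9),(8,3),(2,0),(8,13),(4,
  0),(2,2)]⟩,⟨0,[(14,0),(30,0)]⟩⟩ ⟨false,1,⟨5,[(7,1),(13,3),(1,1),(8,3),(4,0),(6,0)]⟩,⟨1,[(13,0),(3,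
  0),(3,0),(12,0)]⟩⟩,.o ⟨false,0,⟨1,[(0,1),(12,1),(7,1),(15,0),(7,0)]⟩,⟨5,[(5,1),(16,0),(0,0),(2,5),
  (10,1)]⟩⟩,.o ⟨false,0,⟨0,[(1,0),(32,0),(2,0)]⟩,⟨3,[(2,1),(2,1),(3,0),(2,0),(9,0),(3,1),(2,1),(7,
  1)]⟩⟩]⟩)))) (.Q [0,0,0,0,1,0,0,0,-1,-1,0,1] (.p true [0,0,0,0,1] [1] (⟨0,[(26,0)]⟩,⟨0,[(25,0)]⟩)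
  .k 1 (⟨0,[]⟩,⟨0,[]⟩) .k .k) (.Q [0,0,1,0,-1,0,0,0,1,1,0,-1] (.p false [0,0,0,0,1] [1] (⟨0,[(27,
  0)]⟩,⟨0,[(26,0)]⟩) .k 1 (⟨0,[]⟩,⟨0,[]⟩) .k .k) (.S ⟨1,0,[0,1],[0,0,0,0,1],[0,2],(⟨0,[(28,0)]⟩,⟨0,
  [(27,0)]⟩),⟨1,[(1,0),(1,0),(17,0),(6,0)]⟩,.k,(.r 0 ⟨0,[(40,0)]⟩ ⟨5,[(6,1),(9,1),(8,2),(0,2),(6,1),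
  (10,2)]⟩),⟨true,0,⟨8,[(6,0),(23,0),(2,0),(5,2),(1,1)]⟩,⟨0,[]⟩⟩,⟨false,1,⟨1,[(25,0),(0,0),(17,0)]⟩,
  ⟨0,[]⟩⟩,⟨false,0,⟨0,[(42,0)]⟩,⟨0,[(41,0),(2,0)]⟩⟩,⟨true,0,⟨0,[(42,0)]⟩,⟨0,[(41,0)]⟩⟩,[.e ⟨false,0,
  ⟨0,[(39,0)]⟩,⟨0,[(44,0)]⟩⟩ ⟨false,0,⟨2,[(19,0),(19,0),(2,0)]⟩,⟨1,[(25,0),(0,0),(17,0)]⟩⟩,.o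
  ⟨false,0,⟨0,[(26,0)]⟩,⟨0,[(1,0)]⟩⟩,.o ⟨false,0,⟨0,[(26,0)]⟩,⟨0,[(1,0)]⟩⟩,.a ⟨true,(-1),⟨0,[(0,
  0)]⟩,⟨1,[(1,0),(19,0),(3,0)]⟩⟩ ⟨false,0,⟨2,[(19,0),(19,0),(2,0)]⟩,⟨1,[(32,0),(0,0),(10,1)]⟩⟩
  ⟨true,0,⟨2,[(19,0),(19,0),(2,0)]⟩,⟨1,[(32,0),(0,0)]⟩⟩]⟩) (.S ⟨1,0,[0,1,-1,-1],[0,-1,0,0,1],[1,2,
  -1,-2],(⟨7,[(0,1),(2,1),(4,0),(2,0),(9,0),(6,5)]⟩,⟨0,[(27,0),(10,0)]⟩),⟨3,[(0,1),(2,1),(4,0),(2,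
  0),(9,0),(6,1)]⟩,(.r 0 ⟨0,[(40,0)]⟩ ⟨5,[(6,1),(9,1),(8,2),(0,2),(6,1),(10,2)]⟩),(.r 0 ⟨0,[(2,0)]⟩
  ⟨5,[(6,3),(9,3),(8,2),(0,2),(6,3),(10,2)]⟩),⟨true,0,⟨0,[(41,0)]⟩,⟨0,[(42,0)]⟩⟩,⟨false,1,⟨1,[(25,
  0),(0,0),(17,0)]⟩,⟨0,[]⟩⟩,⟨false,0,⟨0,[]⟩,⟨1,[(25,0),(0,0),(17,0)]⟩⟩,⟨true,0,⟨0,[(42,0)]⟩,⟨0,[(41,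
  0)]⟩⟩,[.e ⟨false,0,⟨4,[(2,3),(36,1),(1,1)]⟩,⟨2,[(6,0),(9,0),(16,0),(8,2),(1,2)]⟩⟩ ⟨false,0,⟨0,
  [(19,0)]⟩,⟨5,[(6,1),(9,1),(8,2),(0,2),(6,1),(10,2)]⟩⟩,.o ⟨false,0,⟨0,[(7,0),(2,0)]⟩,⟨0,[(1,0),(40,
  0)]⟩⟩,.o ⟨false,0,⟨1,[(26,1),(5,0),(0,0)]⟩,⟨0,[(0,0)]⟩⟩,.a ⟨true,(-1),⟨0,[(3,0),(23,0),(10,1)]⟩,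
  ⟨2,[(0,1),(20,1),(3,0)]⟩⟩ ⟨false,0,⟨0,[(18,0)]⟩,⟨2,[(6,1),(9,1),(16,1),(10,2)]⟩⟩ ⟨true,0,⟨0,[(19,
  0)]⟩,⟨3,[(6,1),(7,1),(17,0),(0,2)]⟩⟩]⟩)) (.Q [0,0,1,0,1,0,0,0,-1,-1,0,1] (.p true [0,0,0,0,1] [1]
  (⟨0,[(27,0)]⟩,⟨0,[(26,0)]⟩) .k 1 (⟨0,[]⟩,⟨0,[]⟩) .k .k) (.Q [0,0,0,0,0,-1,0,0,0,1,0,-1] (.ed true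
  [0,1,0,0,1] .k) (.Q [0,2,0,0,-2,0,0,0,1,1,0,-1] (.p false [0,0,0,0,1] [1] (⟨0,[(29,0)]⟩,⟨0,[(28,
  0)]⟩) .k 1 (⟨0,[]⟩,⟨0,[]⟩) .k .k) (.S ⟨1,0,[0,-1],[1,0,0,0,-1],[],(⟨0,[(29,0)]⟩,⟨0,[(30,0)]⟩),⟨0,
  [(1,0)]⟩,.k,(.r (-1) ⟨1,[(22,0),(20,0),(2,0)]⟩ ⟨8,[(8,3),(9,0),(13,2),(2,3),(5,2)]⟩),⟨true,0,⟨8,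
  [(8,0),(23,0),(2,0),(5,2),(1,1)]⟩,⟨0,[]⟩⟩,⟨false,1,⟨1,[(27,0),(0,0),(17,0)]⟩,⟨0,[]⟩⟩,⟨false,0,⟨0,
  [(44,0)]⟩,⟨0,[(43,0),(2,0)]⟩⟩,⟨true,0,⟨0,[(44,0)]⟩,⟨0,[(43,0)]⟩⟩,[.o ⟨false,2,⟨1,[(27,1),(10,0),
  (7,0)]⟩,⟨1,[(0,0),(2,0),(34,0)]⟩⟩,.a ⟨true,2,⟨0,[(27,0),(18,0)]⟩,⟨0,[(0,0)]⟩⟩ ⟨false,1,⟨1,[(45,0),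
  (0,0)]⟩,⟨8,[(8,0),(23,0),(2,0),(5,2),(1,1)]⟩⟩ ⟨true,1,⟨0,[(46,0)]⟩,⟨0,[(0,0),(1,0)]⟩⟩,.e ⟨false,1,
  ⟨1,[(27,0),(0,0),(17,0)]⟩,⟨0,[]⟩⟩ ⟨false,1,⟨0,[(46,0)]⟩,⟨8,[(8,0),(23,0),(2,0),(5,2),(1,1)]⟩⟩,.o
  ⟨false,1,⟨0,[(2,0)]⟩,⟨1,[(3,0),(19,0),(4,0),(9,0)]⟩⟩]⟩) (.Q [0,1,0,0,-1,0,0,0,1,0,0,-1] (.p false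
  [0,0,0,0,1] [] (⟨0,[(30,0)]⟩,⟨0,[(29,0)]⟩) .k 0 (⟨0,[]⟩,⟨0,[]⟩) .k .k) (.R ⟨1,false,false,true,[1,
  0,-1],[0,0,0,0,1],[0,0,0,0,0,0,0,-1],(⟨0,[(37,0)]⟩,⟨0,[(38,0)]⟩),(⟨0,[(31,0)]⟩,⟨0,[(30,0)]⟩),⟨0,
  [(26,0)]⟩,.k,.k,.k,.k,(.r (-2) ⟨3,[(13,1),(11,1),(2,0),(0,0),(4,1),(11,1),(0,2)]⟩ ⟨0,[(15,0),(29,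
  0)]⟩),.k,⟨false,2,⟨9,[(9,5),(3,1),(9,7),(1,1),(8,1),(11,2),(0,6)]⟩,⟨2,[(15,1),(0,0),(5,0),(19,
  0)]⟩⟩,⟨true,(-1),⟨3,[(4,2),(2,1),(16,0),(4,0),(9,0)]⟩,⟨0,[(1,0),(13,0),(18,0)]⟩⟩,⟨false,1,⟨1,[(28,
  0),(0,0),(17,0)]⟩,⟨0,[]⟩⟩,⟨true,(-2),⟨8,[(0,2),(6,2),(2,2),(1,2),(2,4),(0,0),(5,3),(19,0)]⟩,⟨0,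
  [(1,0),(32,0)]⟩⟩,⟨true,0,⟨0,[(45,0)]⟩,⟨0,[(44,0)]⟩⟩,⟨true,(-2),⟨2,[(0,1),(6,0),(2,0),(5,1),(7,0),
  (17,0)]⟩,⟨0,[(1,0),(16,0)]⟩⟩,[.o ⟨false,(-1),⟨7,[(0,6),(8,0),(5,0),(13,0),(12,2),(1,1)]⟩,⟨0,[(1,
  0)]⟩⟩,.o ⟨false,(-1),⟨0,[(0,0)]⟩,⟨3,[(1,1),(26,2),(0,0),(9,0)]⟩⟩,.o ⟨false,1,⟨1,[(36,1),(2,0),(6,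
  0)]⟩,⟨0,[(20,0)]⟩⟩,.a ⟨true,0,⟨0,[(36,0)]⟩,⟨0,[(32,0)]⟩⟩ ⟨true,1,⟨5,[(9,1),(13,3),(1,1),(8,3),(4,
  0),(6,0)]⟩,⟨0,[(15,0)]⟩⟩ ⟨false,(-1),⟨1,[(0,1),(23,0),(0,0)]⟩,⟨0,[(1,0),(34,0)]⟩⟩]⟩) (.S ⟨1,0,[],
  [1,0,0,0,-1],[0,-1],(⟨0,[(30,0)]⟩,⟨0,[(31,0)]⟩),⟨0,[(2,0)]⟩,.k,(.r (-1) ⟨1,[(23,0),(20,0),(2,0)]⟩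
  ⟨8,[(9,3),(9,0),(13,2),(2,3),(5,2)]⟩),⟨false,1,⟨1,[(28,0),(0,0),(17,0)]⟩,⟨0,[]⟩⟩,⟨true,0,⟨8,[(9,
  0),(23,0),(2,0),(5,2),(1,1)]⟩,⟨0,[]⟩⟩,⟨true,0,⟨0,[(45,0)]⟩,⟨0,[(44,0)]⟩⟩,⟨false,0,⟨0,[(45,0)]⟩,⟨0,
  [(44,0),(2,0)]⟩⟩,[.e ⟨false,1,⟨1,[(46,0),(0,0)]⟩,⟨8,[(9,0),(23,0),(2,0),(5,2),(1,1)]⟩⟩ ⟨false,1,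
  ⟨1,[(28,0),(0,0),(16,0)]⟩,⟨0,[]⟩⟩,.a ⟨true,1,⟨0,[(0,0)]⟩,⟨0,[(12,0)]⟩⟩ ⟨true,1,⟨0,[(47,0)]⟩,⟨4,
  [(7,1),(7,3),(18,3),(4,0),(2,0)]⟩⟩ ⟨false,1,⟨1,[(46,0),(0,0)]⟩,⟨8,[(9,0),(23,0),(2,0),(5,2),(1,
  1)]⟩⟩,.e ⟨false,1,⟨0,[(47,0)]⟩,⟨8,[(9,0),(23,0),(2,0),(5,2),(1,1)]⟩⟩ ⟨false,1,⟨1,[(28,0),(0,0),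
  (17,0)]⟩,⟨0,[]⟩⟩,.o ⟨false,1,⟨0,[(3,0)]⟩,⟨1,[(4,0),(19,0),(4,0),(9,0)]⟩⟩]⟩))) (.R ⟨0,false,false,
  true,[1,0,0,0,-1],[1,0,1,0,-1],[0,0,0,-1],(⟨0,[(28,0)]⟩,⟨0,[(29,0)]⟩),(⟨0,[(28,0),(7,0)]⟩,⟨1,[(0,
  1),(11,0),(22,0)]⟩),⟨0,[(0,0)]⟩,.k,.k,(.r (-1) ⟨1,[(21,0),(20,0),(2,0)]⟩ ⟨8,[(7,3),(9,0),(13,2),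
  (2,3),(5,2)]⟩),.k,.k,.k,⟨false,1,⟨17,[(7,1),(3,5),(9,9),(1,7),(8,9),(4,0),(6,0)]⟩,⟨1,[(14,1),(29,
  0),(0,0)]⟩⟩,⟨true,0,⟨0,[(18,0)]⟩,⟨0,[(34,0)]⟩⟩,⟨true,0,⟨0,[(42,0)]⟩,⟨0,[(43,0)]⟩⟩,⟨false,0,⟨0,
  [(15,0)]⟩,⟨0,[(32,0),(12,0)]⟩⟩,⟨false,0,⟨0,[]⟩,⟨0,[]⟩⟩,⟨false,0,⟨0,[]⟩,⟨0,[]⟩⟩,[.o ⟨false,1,⟨5,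
  [(1,5),(3,1),(8,3),(2,1),(2,0),(0,4),(15,0)]⟩,⟨1,[(2,1),(29,1),(4,0),(7,0)]⟩⟩,.e ⟨false,1,⟨1,[(21,
  0),(20,0),(2,0)]⟩,⟨2,[(7,0),(6,0),(25,0),(3,0)]⟩⟩ ⟨false,1,⟨1,[(15,1),(28,0),(0,0)]⟩,⟨0,[(32,
  0)]⟩⟩,.a ⟨true,1,⟨0,[(26,0)]⟩,⟨0,[(2,0)]⟩⟩ ⟨false,1,⟨0,[(42,0),(2,0)]⟩,⟨0,[(43,0)]⟩⟩ ⟨true,0,⟨0,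
  [(15,0)]⟩,⟨0,[(32,0)]⟩⟩,.o ⟨false,1,⟨0,[(1,0)]⟩,⟨1,[(2,0),(19,0),(4,0),(9,0)]⟩⟩]⟩)) (.Q [0,0,0,0,
  0,-1,0,0,0,1,0,-1] (.ed true [0,1,0,0,1] .k) (.S ⟨1,0,[],[1,0,0,0,-1],[0,-1],(⟨0,[(28,0)]⟩,⟨0,
  [(29,0)]⟩),⟨0,[(0,0)]⟩,.k,(.r (-1) ⟨1,[(21,0),(20,0),(2,0)]⟩ ⟨8,[(7,3),(9,0),(13,2),(2,3),(5,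
  2)]⟩),⟨false,1,⟨1,[(26,0),(0,0),(17,0)]⟩,⟨0,[]⟩⟩,⟨true,0,⟨8,[(7,0),(23,0),(2,0),(5,2),(1,1)]⟩,⟨0,
  []⟩⟩,⟨true,0,⟨0,[(43,0)]⟩,⟨0,[(42,0)]⟩⟩,⟨false,0,⟨0,[(43,0)]⟩,⟨0,[(42,0),(2,0)]⟩⟩,[.e ⟨false,1,⟨1,
  [(44,0),(0,0)]⟩,⟨8,[(7,0),(23,0),(2,0),(5,2),(1,1)]⟩⟩ ⟨false,1,⟨1,[(26,0),(0,0),(16,0)]⟩,⟨0,[]⟩⟩,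
  .o ⟨false,2,⟨1,[(26,1),(10,0),(7,0)]⟩,⟨4,[(1,2),(0,0),(2,0),(4,0),(2,1),(18,1),(4,2)]⟩⟩,.e ⟨false,
  1,⟨0,[(45,0)]⟩,⟨8,[(7,0),(23,0),(2,0),(5,2),(1,1)]⟩⟩ ⟨false,1,⟨1,[(26,0),(0,0),(17,0)]⟩,⟨0,[]⟩⟩,
  .a ⟨true,1,⟨1,[(26,1),(6,0),(0,0)]⟩,⟨0,[(1,0)]⟩⟩ ⟨true,1,⟨1,[(44,0),(0,0)]⟩,⟨4,[(5,1),(7,3),(18,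
  3),(4,0),(2,0)]⟩⟩ ⟨false,1,⟨1,[(44,0),(0,0)]⟩,⟨1,[(33,0),(0,0)]⟩⟩]⟩) (.Q [0,0,1,0,1,0,1,0,-1,-1,
  -1,1] (.p true [0,0,-1,0,1] [1] (⟨1,[(0,1),(11,0),(22,0)]⟩,⟨0,[(28,0),(7,0)]⟩) .k 1 (⟨0,[]⟩,⟨0,
  []⟩) .k (.r 0 ⟨8,[(5,1),(1,2),(3,0),(8,3),(2,0),(8,4),(4,0)]⟩ ⟨1,[(17,0),(3,0),(9,0),(2,1),(10,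
  0)]⟩)) (.R ⟨0,false,false,false,[1,0,0,0,-1],[1,0,1,0,-1],[1,1],(⟨0,[(29,0)]⟩,⟨0,[(30,0)]⟩),(⟨0,
  [(29,0),(7,0)]⟩,⟨1,[(1,1),(11,0),(22,0)]⟩),⟨0,[(1,0)]⟩,.k,.k,(.r (-1) ⟨1,[(22,0),(20,0),(2,0)]⟩
  ⟨8,[(8,3),(9,0),(13,2),(2,3),(5,2)]⟩),.k,.k,.k,⟨false,0,⟨6,[(6,0),(1,2),(12,5),(2,0),(8,3),(4,0),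
  (2,1)]⟩,⟨1,[(14,0),(3,0),(3,0),(12,0),(10,1)]⟩⟩,⟨true,0,⟨0,[(19,0)]⟩,⟨0,[(35,0)]⟩⟩,⟨false,0,⟨8,
  [(8,0),(23,0),(2,0),(5,2),(1,1)]⟩,⟨0,[(46,0)]⟩⟩,⟨true,0,⟨0,[(16,0)]⟩,⟨0,[(33,0)]⟩⟩,⟨false,0,⟨0,
  []⟩,⟨0,[]⟩⟩,⟨false,0,⟨0,[]⟩,⟨0,[]⟩⟩,[.e ⟨false,0,⟨2,[(21,0),(19,0),(2,0)]⟩,⟨1,[(27,0),(0,0),(17,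
  0)]⟩⟩ ⟨false,1,⟨1,[(16,1),(28,0),(0,0)]⟩,⟨0,[(33,0)]⟩⟩,.o ⟨false,2,⟨0,[(0,0),(14,0),(6,0),(23,
  0)]⟩,⟨4,[(2,2),(0,0),(2,0),(4,0),(2,1),(18,6),(4,2)]⟩⟩,.e ⟨false,0,⟨0,[]⟩,⟨1,[(27,0),(0,0),(17,
  0)]⟩⟩ ⟨false,1,⟨0,[(16,0),(29,0)]⟩,⟨0,[(33,0)]⟩⟩,.a ⟨true,1,⟨4,[(0,0),(6,0),(19,4),(0,0),(6,1)]⟩,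
  ⟨0,[(2,0)]⟩⟩ ⟨true,0,⟨2,[(21,0),(19,0),(2,0)]⟩,⟨4,[(0,0),(6,0),(20,0),(6,1)]⟩⟩ ⟨false,1,⟨5,[(6,1),
  (8,3),(2,1),(3,5),(15,0),(7,4)]⟩,⟨2,[(8,0),(8,0),(15,0),(1,0),(7,0)]⟩⟩]⟩) (.S ⟨1,0,[0,2],[0,0,0,0,
  1],[1,1,0,-1],(⟨0,[(30,0)]⟩,⟨0,[(29,0)]⟩),⟨2,[(1,0),(8,0),(2,0),(16,1)]⟩,.k,(.r 0 ⟨0,[(42,0)]⟩ ⟨5,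
  [(8,1),(9,1),(8,2),(0,2),(6,1),(10,2)]⟩),⟨false,1,⟨0,[(43,0),(2,0)]⟩,⟨0,[(44,0)]⟩⟩,⟨true,0,⟨8,[(8,
  0),(23,0),(2,0),(5,2),(1,1)]⟩,⟨0,[]⟩⟩,⟨true,0,⟨0,[]⟩,⟨8,[(8,0),(23,0),(2,0),(5,2),(1,1)]⟩⟩,⟨false,
  0,⟨0,[(44,0)]⟩,⟨0,[(43,0),(2,0)]⟩⟩,[.e ⟨false,0,⟨4,[(4,1),(36,0),(1,0)]⟩,⟨5,[(8,1),(9,1),(16,1),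
  (9,2),(0,2)]⟩⟩ ⟨false,0,⟨0,[(41,0)]⟩,⟨0,[(46,0)]⟩⟩,.o ⟨false,(-1),⟨4,[(2,2),(0,0),(2,0),(4,0),(2,
  1),(18,1),(4,2)]⟩,⟨1,[(27,1),(10,0),(7,0)]⟩⟩,.a ⟨true,(-1),⟨0,[(3,0)]⟩,⟨0,[(27,0)]⟩⟩ ⟨true,0,⟨0,
  [(43,0)]⟩,⟨0,[(44,0)]⟩⟩ ⟨false,0,⟨8,[(8,0),(23,0),(2,0),(5,2),(1,1)]⟩,⟨0,[(46,0)]⟩⟩,.o ⟨false,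
  (-1),⟨0,[(0,0),(6,0),(30,0)]⟩,⟨1,[(27,1),(10,0),(6,0)]⟩⟩]⟩))))))))) (.Q [0,0,0,0,1,0,-1,0,-1,-1,1,
  1] (.p true [0,0,1] [1,0,0,0,-1] (⟨0,[(29,0)]⟩,⟨0,[(28,0)]⟩) .k 2 (⟨0,[(21,0)]⟩,⟨0,[(22,0)]⟩) .k
  (.r 0 ⟨14,[(0,1),(6,3),(16,8),(2,8),(5,0),(3,3)]⟩ ⟨0,[(11,0),(13,0),(12,0)]⟩)) (.Q [0,0,0,0,-1,0,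
  1,1,1,1,-1,-1] (.p false [0,0,1] [1,0,0,0,-1] (⟨0,[(30,0)]⟩,⟨0,[(29,0)]⟩) .k 2 (⟨0,[(22,0)]⟩,⟨0,
  [(23,0)]⟩) .k (.r 0 ⟨14,[(1,1),(6,3),(16,8),(2,8),(5,0),(3,3)]⟩ ⟨0,[(12,0),(13,0),(12,0)]⟩)) (.Q
  [0,0,1,0,-1,0,0,0,1,1,0,-1] (.p false [0,0,0,0,1] [1] (⟨0,[(24,0)]⟩,⟨0,[(23,0)]⟩) .k 1 (⟨0,[]⟩,⟨0,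
  []⟩) .k .k) (.K ⟨0,[1,0,0,0,-1],1,1,(⟨0,[(24,0)]⟩,⟨0,[(25,0)]⟩),.k,(.r (-1) ⟨1,[(17,0),(20,0),(2,
  0)]⟩ ⟨1,[(13,1),(14,1),(0,0),(0,0)]⟩),(.r (-1) ⟨1,[(22,0),(0,0),(5,0),(0,0),(8,1),(1,0)]⟩ ⟨0,[(37,
  0)]⟩),.k,.k,[⟨0,[(2,0)]⟩,⟨0,[(0,0)]⟩,⟨0,[(6,0),(36,0)]⟩,⟨0,[(2,0),(11,0)]⟩]⟩) (.Q [0,0,0,0,0,-1,0,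
  0,0,0,-1,1] (.p false [0,0,1] [0,0,0,0,1] (⟨0,[(32,0)]⟩,⟨0,[(31,0)]⟩) .k 2 (⟨0,[(25,0)]⟩,⟨0,[(24,
  0)]⟩) .k (.r (-1) ⟨11,[(3,1),(9,3),(13,5),(2,9),(9,2),(0,8)]⟩ ⟨0,[(14,0),(13,0)]⟩)) (.Q [0,0,0,0,
  0,0,-1,0,1,0,1,-1] (.p true [0,0,1] [0,0,0,0,1] (⟨0,[(33,0)]⟩,⟨0,[(32,0)]⟩) .k 2 (⟨0,[(26,0)]⟩,⟨0,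
  [(25,0)]⟩) .k (.r (-1) ⟨11,[(4,1),(9,3),(13,5),(2,9),(9,2),(0,8)]⟩ ⟨0,[(15,0),(13,0)]⟩)) (.R ⟨1,
  false,false,false,[0,0,-1,0,1],[1,-1,-1],[1,2,0,-1,0,0,0,-1],(⟨0,[(1,0),(35,0)]⟩,⟨0,[(26,0),(7,
  0)]⟩),(⟨0,[(22,0)]⟩,⟨0,[(34,0),(2,0)]⟩),⟨0,[(1,0)]⟩,.k,.k,(.r (-1) ⟨7,[(9,3),(11,3),(2,0),(0,0),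
  (4,3),(7,1),(3,2)]⟩ ⟨0,[(12,0),(30,0)]⟩),(.r 0 ⟨1,[(15,1),(14,1),(0,0),(0,0)]⟩ ⟨1,[(19,0),(20,0),
  (2,0)]⟩),.k,.k,⟨true,(-1),⟨0,[(11,0),(4,0),(13,0)]⟩,⟨0,[(43,0)]⟩⟩,⟨false,1,⟨1,[(2,0),(1,0),(26,
  0)]⟩,⟨1,[(0,1),(19,0),(0,0)]⟩⟩,⟨true,0,⟨0,[(40,0)]⟩,⟨0,[(41,0)]⟩⟩,⟨false,2,⟨0,[(2,0),(8,0),(2,0),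
  (1,0),(26,1)]⟩,⟨0,[(6,0),(23,0)]⟩⟩,⟨false,0,⟨0,[]⟩,⟨1,[(24,0),(0,0),(17,0)]⟩⟩,⟨false,2,⟨1,[(2,0),
  (1,0),(26,0),(11,1)]⟩,⟨0,[(8,0)]⟩⟩,[.o ⟨false,1,⟨3,[(9,1),(20,1),(4,0),(7,0)]⟩,⟨0,[(15,0)]⟩⟩,.a
  ⟨true,1,⟨0,[(14,0),(28,0)]⟩,⟨1,[(12,1),(7,0),(0,0)]⟩⟩ ⟨true,0,⟨0,[(14,0),(1,0)]⟩,⟨0,[(12,0),(30,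
  0)]⟩⟩ ⟨false,2,⟨0,[(2,0),(11,0),(1,0),(26,0)]⟩,⟨9,[(0,4),(5,4),(1,2),(3,4),(7,1),(3,2),(13,0)]⟩⟩,
  .o ⟨false,0,⟨0,[(0,0)]⟩,⟨0,[(2,0),(28,0)]⟩⟩,.o ⟨false,0,⟨1,[(0,1),(30,0),(0,0)]⟩,⟨0,[(2,0),(13,
  0)]⟩⟩]⟩) (.Q [0,0,0,0,0,-1,0,0,0,1,0,-1] (.ed true [0,1,0,0,1] .k) (.R ⟨1,false,false,true,[1,0,0,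
  0,-1],[1,0,1,0,-1],[],(⟨0,[(27,0)]⟩,⟨0,[(28,0)]⟩),(⟨0,[(27,0),(7,0)]⟩,⟨0,[(2,0),(35,0)]⟩),⟨0,[(0,
  0)]⟩,.k,.k,(.r (-1) ⟨1,[(20,0),(20,0),(2,0)]⟩ ⟨1,[(16,1),(14,1),(0,0),(0,0)]⟩),.k,.k,.k,⟨false,1,
  ⟨1,[(21,0),(0,0),(8,1),(4,0),(7,0)]⟩,⟨2,[(6,0),(9,1),(16,1)]⟩⟩,⟨true,0,⟨0,[(17,0)]⟩,⟨0,[(33,0)]⟩⟩,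
  ⟨true,0,⟨0,[(46,0)]⟩,⟨0,[]⟩⟩,⟨false,0,⟨0,[(14,0)]⟩,⟨0,[(31,0),(12,0)]⟩⟩,⟨false,0,⟨0,[(42,0)]⟩,⟨0,
  [(41,0),(2,0)]⟩⟩,⟨false,0,⟨0,[(16,0)]⟩,⟨0,[(15,0),(28,0)]⟩⟩,[.e ⟨false,1,⟨1,[(25,0),(0,0),(16,
  0)]⟩,⟨0,[]⟩⟩ ⟨false,0,⟨7,[(1,1),(4,1),(0,1),(8,3),(2,0),(0,0),(15,0)]⟩,⟨1,[(25,0),(0,0),(4,1),(12,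
  0)]⟩⟩,.o ⟨false,1,⟨13,[(1,9),(3,3),(0,1),(5,3),(1,3),(1,3),(19,4),(7,8)]⟩,⟨0,[(26,0),(4,0)]⟩⟩,.o
  ⟨false,1,⟨2,[(1,0),(3,0),(19,0),(10,0)]⟩,⟨0,[(26,0)]⟩⟩,.a ⟨true,0,⟨0,[(1,0),(31,0)]⟩,⟨1,[(9,1),
  (33,0),(0,0)]⟩⟩ ⟨false,1,⟨1,[(43,0),(0,0)]⟩,⟨1,[(32,0),(0,0)]⟩⟩ ⟨true,0,⟨7,[(1,1),(4,1),(0,1),(8,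
  3),(2,0),(0,0),(15,0)]⟩,⟨1,[(31,1),(0,0),(0,0)]⟩⟩]⟩) (.R ⟨0,false,false,true,[1,0,0,0,-1],[1,0,1,
  0,-1],[0,0,0,-1],(⟨0,[(27,0)]⟩,⟨0,[(28,0)]⟩),(⟨0,[(27,0),(7,0)]⟩,⟨1,[(0,0),(1,0),(31,0)]⟩),⟨0,[(0,
  0)]⟩,.k,.k,(.r (-1) ⟨1,[(20,0),(20,0),(2,0)]⟩ ⟨1,[(16,1),(14,1),(0,0),(0,0)]⟩),.k,.k,.k,⟨false,1,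
  ⟨7,[(10,1),(9,3),(1,3),(8,5),(4,0),(7,0)]⟩,⟨0,[(5,0),(1,0)]⟩⟩,⟨true,0,⟨0,[(17,0)]⟩,⟨0,[(33,0)]⟩⟩,
  ⟨true,0,⟨0,[(41,0)]⟩,⟨0,[(42,0)]⟩⟩,⟨false,0,⟨0,[(14,0)]⟩,⟨0,[(31,0),(12,0)]⟩⟩,⟨false,0,⟨0,[]⟩,⟨0,
  []⟩⟩,⟨false,0,⟨0,[]⟩,⟨0,[]⟩⟩,[.e ⟨false,1,⟨1,[(41,1),(1,0),(0,0)]⟩,⟨0,[(42,0)]⟩⟩ ⟨false,0,⟨7,[(1,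
  1),(4,1),(0,1),(8,3),(2,0),(0,0),(15,0)]⟩,⟨1,[(25,0),(0,0),(4,1),(12,0)]⟩⟩,.o ⟨false,1,⟨13,[(1,9),
  (3,3),(0,1),(5,3),(1,3),(1,3),(19,4),(7,8)]⟩,⟨0,[(26,0),(4,0)]⟩⟩,.o ⟨false,1,⟨2,[(1,0),(3,0),(19,
  0),(10,0)]⟩,⟨0,[(26,0)]⟩⟩,.a ⟨true,0,⟨0,[(1,0),(31,0)]⟩,⟨1,[(9,1),(33,0),(0,0)]⟩⟩ ⟨false,1,⟨1,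
  [(20,0),(20,0),(2,0)]⟩,⟨1,[(32,0),(0,0),(8,1)]⟩⟩ ⟨true,0,⟨7,[(1,1),(4,1),(0,1),(8,3),(2,0),(0,0),
  (15,0)]⟩,⟨1,[(31,1),(0,0),(0,0)]⟩⟩]⟩))) (.Q [0,0,-1,0,0,0,0,0,1,0,0,-1] (.p false [0,0,0,0,1] []
  (⟨0,[(26,0)]⟩,⟨0,[(25,0)]⟩) .k 0 (⟨0,[]⟩,⟨0,[]⟩) .k .k) (.R ⟨1,false,false,false,[1,0,0,0,-1],[0,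
  0,1],[0,-1],(⟨0,[(26,0)]⟩,⟨0,[(27,0)]⟩),(⟨0,[(34,0)]⟩,⟨0,[(33,0)]⟩),⟨0,[(1,0),(8,0)]⟩,.k,.k,(.r
  (-1) ⟨1,[(19,0),(20,0),(2,0)]⟩ ⟨1,[(15,1),(14,1),(0,0),(0,0)]⟩),.k,(.r (-2) ⟨3,[(9,1),(11,1),(2,
  0),(0,0),(4,1),(11,1),(0,2)]⟩ ⟨0,[(11,0),(29,0)]⟩),.k,⟨true,1,⟨0,[(16,0),(13,0),(12,0)]⟩,⟨0,[(11,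
  0)]⟩⟩,⟨false,0,⟨1,[(20,0),(0,0),(3,1)]⟩,⟨0,[(4,0)]⟩⟩,⟨false,1,⟨1,[(24,0),(0,0),(17,0)]⟩,⟨0,[]⟩⟩,
  ⟨false,(-1),⟨0,[(3,0)]⟩,⟨1,[(2,0),(1,0),(25,1),(0,0),(11,1)]⟩⟩,⟨true,0,⟨0,[(41,0)]⟩,⟨0,[(40,0)]⟩⟩,
  ⟨false,(-1),⟨0,[(6,0)]⟩,⟨1,[(2,0),(1,0),(9,1),(16,0),(11,1)]⟩⟩,[.o ⟨false,0,⟨0,[(13,0)]⟩,⟨1,[(30,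
  1),(4,0),(7,0)]⟩⟩,.a ⟨true,0,⟨1,[(11,1),(8,0),(0,0),(21,1)]⟩,⟨0,[(30,0)]⟩⟩ ⟨true,1,⟨0,[(43,0)]⟩,
  ⟨0,[(11,0),(4,0),(13,0)]⟩⟩ ⟨false,0,⟨1,[(3,1),(38,0),(0,0)]⟩,⟨1,[(2,0),(1,0),(25,1),(0,0)]⟩⟩,.o
  ⟨false,1,⟨1,[(2,0),(1,0),(26,0)]⟩,⟨0,[(25,0)]⟩⟩,.o ⟨false,1,⟨0,[(4,0),(26,0)]⟩,⟨0,[(0,0)]⟩⟩]⟩)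
  (.Q [0,2,0,1,-1,0,0,0,1,0,0,-1] (.p false [0,0,0,0,1] [] (⟨0,[(27,0)]⟩,⟨0,[(26,0)]⟩) .k 0 (⟨0,[]⟩,
  ⟨0,[]⟩) .k .k) (.S ⟨1,0,[0,2,1,1],[0,1,0,0,1],[1,1,1],(⟨0,[(28,0),(9,0)]⟩,⟨0,[(2,0),(8,0)]⟩),⟨0,
  [(28,0)]⟩,(.r 0 ⟨1,[(0,0),(24,0),(6,0),(0,0),(8,0)]⟩ ⟨1,[(20,0),(20,0),(2,0)]⟩),.k,⟨false,1,⟨0,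
  [(41,0),(2,0)]⟩,⟨0,[(42,0)]⟩⟩,⟨true,0,⟨0,[(46,0)]⟩,⟨0,[]⟩⟩,⟨true,0,⟨0,[]⟩,⟨0,[(46,0)]⟩⟩,⟨false,0,
  ⟨0,[(42,0)]⟩,⟨0,[(41,0),(2,0)]⟩⟩,[.o ⟨false,(-1),⟨0,[(0,0)]⟩,⟨7,[(1,4),(1,0),(2,1),(3,1),(11,0),
  (2,1),(10,2),(7,7)]⟩⟩,.e ⟨false,0,⟨0,[]⟩,⟨1,[(25,0),(0,0),(16,0)]⟩⟩ ⟨false,0,⟨1,[(0,0),(24,0),(16,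
  0)]⟩,⟨1,[(20,0),(20,0),(2,0)]⟩⟩,.a ⟨true,0,⟨1,[(9,1),(33,0),(0,0)]⟩,⟨0,[(1,0)]⟩⟩ ⟨false,0,⟨1,[(32,
  0),(0,0)]⟩,⟨1,[(43,0),(0,0)]⟩⟩ ⟨true,(-1),⟨0,[(0,0),(0,0)]⟩,⟨1,[(20,0),(20,0),(2,0)]⟩⟩,.o ⟨false,
  0,⟨0,[(26,0)]⟩,⟨2,[(1,0),(1,0),(21,0),(10,0)]⟩⟩]⟩) (.R ⟨1,false,false,true,[1,0,-1],[0,0,0,0,1],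
  [0,1,0,0,0,0,0,-1],(⟨0,[(34,0)]⟩,⟨0,[(35,0)]⟩),(⟨0,[(28,0)]⟩,⟨0,[(27,0)]⟩),⟨0,[(23,0)]⟩,.k,.k,.k,
  .k,(.r (-2) ⟨3,[(10,1),(11,1),(2,0),(0,0),(4,1),(11,1),(0,2)]⟩ ⟨0,[(12,0),(29,0)]⟩),.k,⟨true,1,⟨0,
  [(17,0),(13,0),(12,0)]⟩,⟨0,[(12,0)]⟩⟩,⟨false,0,⟨1,[(21,0),(0,0),(3,1)]⟩,⟨0,[(5,0)]⟩⟩,⟨true,0,⟨0,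
  [(46,0)]⟩,⟨0,[]⟩⟩,⟨false,(-1),⟨1,[(4,0),(4,0),(20,0)]⟩,⟨1,[(0,1),(30,1),(4,0),(5,1),(1,0)]⟩⟩,
  ⟨false,0,⟨0,[(42,0)]⟩,⟨0,[(41,0),(2,0)]⟩⟩,⟨false,(-1),⟨0,[(9,0),(6,0)]⟩,⟨1,[(0,1),(30,1),(4,0),(7,
  0)]⟩⟩,[.a ⟨true,(-1),⟨0,[(9,0),(36,0)]⟩,⟨0,[(0,0),(41,0)]⟩⟩ ⟨true,0,⟨0,[(17,0),(13,0)]⟩,⟨0,[(12,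
  0),(31,0)]⟩⟩ ⟨false,(-1),⟨2,[(7,0),(1,1),(7,2),(1,0),(11,0),(7,0)]⟩,⟨0,[(5,0),(38,0)]⟩⟩,.a ⟨true,
  (-1),⟨0,[(9,0)]⟩,⟨1,[(0,0),(24,0),(16,0)]⟩⟩ ⟨false,1,⟨1,[(21,0),(0,0),(8,1),(4,0),(7,0)]⟩,⟨2,[(6,
  0),(9,1),(16,1)]⟩⟩ ⟨true,(-1),⟨0,[(9,0),(7,0)]⟩,⟨1,[(0,1),(12,0),(17,0),(1,0),(2,0),(5,0)]⟩⟩,.o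
  ⟨false,1,⟨0,[(5,0),(20,0)]⟩,⟨0,[(17,0)]⟩⟩,.a ⟨true,0,⟨0,[(33,0)]⟩,⟨0,[(29,0)]⟩⟩ ⟨false,1,⟨1,[(21,
  0),(0,0),(8,1),(4,0),(7,0)]⟩,⟨0,[(12,0),(31,0)]⟩⟩ ⟨true,(-1),⟨2,[(7,0),(1,1),(7,2),(1,0),(11,0),
  (7,0)]⟩,⟨1,[(0,1),(12,0),(17,0),(1,0),(2,0),(5,0)]⟩⟩]⟩))))) (.R ⟨1,true,false,false,[1,0,-1],[0,0,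
  0,0,1],[0,0,0,0,0,0,0,-1],(⟨0,[(30,0)]⟩,⟨0,[(31,0)]⟩),(⟨0,[(24,0)]⟩,⟨0,[(23,0)]⟩),⟨0,[(19,0)]⟩,.k,
  .k,.k,.k,(.r (-2) ⟨3,[(6,1),(11,1),(2,0),(0,0),(4,1),(11,1),(0,2)]⟩ ⟨0,[(8,0),(29,0)]⟩),.k,⟨true,
  1,⟨0,[(13,0),(13,0),(12,0)]⟩,⟨0,[(8,0)]⟩⟩,⟨false,0,⟨1,[(17,0),(0,0),(3,1)]⟩,⟨0,[(1,0)]⟩⟩,⟨false,1,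
  ⟨1,[(21,0),(0,0),(17,0)]⟩,⟨0,[]⟩⟩,⟨true,(-1),⟨0,[(5,0),(4,0)]⟩,⟨0,[(0,0)]⟩⟩,⟨true,0,⟨0,[(38,0)]⟩,
  ⟨0,[(37,0)]⟩⟩,⟨false,(-1),⟨0,[(3,0)]⟩,⟨1,[(0,0),(5,0),(14,0),(18,0)]⟩⟩,[]⟩)) (.Q [0,0,1,0,-1,0,0,
  0,1,0,0,-1] (.p false [0,0,0,0,1] [] (⟨0,[(23,0)]⟩,⟨0,[(22,0)]⟩) .k 0 (⟨0,[]⟩,⟨0,[]⟩) .k .k) (.Q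
  [0,0,0,0,0,-1,0,0,0,0,0,1] (.ed false [1,-1,0,0,1] .k) (.S ⟨1,0,[0,2],[0,0,0,0,1],[1,1,0,-1],(⟨0,
  [(25,0)]⟩,⟨0,[(24,0)]⟩),⟨0,[(0,0)]⟩,.k,(.r 0 ⟨0,[(37,0)]⟩ ⟨1,[(22,0),(0,0),(5,0),(0,0),(8,1),(1,
  0)]⟩),⟨false,1,⟨0,[(38,0),(2,0)]⟩,⟨0,[(39,0)]⟩⟩,⟨true,0,⟨0,[(43,0)]⟩,⟨0,[]⟩⟩,⟨true,0,⟨0,[]⟩,⟨0,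
  [(43,0)]⟩⟩,⟨false,0,⟨0,[(39,0)]⟩,⟨0,[(38,0),(2,0)]⟩⟩,[.e ⟨false,0,⟨4,[(15,1),(20,0),(1,0)]⟩,⟨1,
  [(22,0),(0,0),(15,1),(1,0)]⟩⟩ ⟨false,0,⟨0,[(36,0)]⟩,⟨0,[(41,0)]⟩⟩,.o ⟨false,(-1),⟨2,[(1,2),(14,0),
  (19,0),(2,0)]⟩,⟨1,[(22,1),(10,0),(7,0)]⟩⟩,.a ⟨true,(-1),⟨1,[(1,0),(0,0),(15,0),(11,0)]⟩,⟨0,[(22,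
  0)]⟩⟩ ⟨true,0,⟨0,[(38,0)]⟩,⟨0,[(39,0)]⟩⟩ ⟨false,0,⟨0,[(43,0)]⟩,⟨0,[(41,0)]⟩⟩,.o ⟨false,(-1),⟨0,
  [(1,0)]⟩,⟨1,[(22,1),(10,0),(6,0)]⟩⟩]⟩) (.R ⟨0,false,false,false,[0,0,0,0,1],[0,0,1,0,1],[0,1,0,
  -1],(⟨0,[(25,0)]⟩,⟨0,[(24,0)]⟩),(⟨0,[(25,0),(6,0)]⟩,⟨1,[(0,1),(7,0),(22,0)]⟩),⟨0,[(0,0)]⟩,.k,.k,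
  (.r 0 ⟨0,[(37,0)]⟩ ⟨1,[(22,0),(0,0),(5,0),(0,0),(8,1),(1,0)]⟩),.k,.k,.k,⟨false,1,⟨7,[(7,1),(9,3),
  (1,3),(8,5),(4,0),(7,0)]⟩,⟨1,[(10,1),(29,0),(0,0)]⟩⟩,⟨true,0,⟨0,[(14,0)]⟩,⟨0,[(30,0)]⟩⟩,⟨false,1,
  ⟨0,[(38,0),(2,0)]⟩,⟨0,[(39,0)]⟩⟩,⟨true,0,⟨0,[(11,0)]⟩,⟨0,[(28,0)]⟩⟩,⟨false,0,⟨0,[]⟩,⟨0,[]⟩⟩,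
  ⟨false,0,⟨0,[]⟩,⟨0,[]⟩⟩,[.e ⟨false,0,⟨0,[(37,0)]⟩,⟨1,[(22,0),(0,0),(15,1),(1,0)]⟩⟩ ⟨false,0,⟨1,
  [(13,0),(2,0),(10,0)]⟩,⟨0,[(28,0),(12,0)]⟩⟩,.o ⟨false,(-1),⟨1,[(1,1),(1,0),(9,0),(0,0),(24,0)]⟩,
  ⟨1,[(22,1),(5,1),(4,0),(7,0)]⟩⟩,.a ⟨true,(-1),⟨1,[(1,0),(0,0),(15,0),(11,0)]⟩,⟨0,[(22,0)]⟩⟩ ⟨true,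
  0,⟨0,[(38,0)]⟩,⟨0,[(39,0)]⟩⟩ ⟨false,0,⟨0,[(11,0)]⟩,⟨0,[(28,0),(12,0)]⟩⟩,.o ⟨false,(-1),⟨0,[(1,
  0)]⟩,⟨1,[(22,1),(10,0),(6,0)]⟩⟩]⟩)) (.I [1,0,2,2,0,0,0,-1] (.N [0,-2,1] 0 ⟨0,[(3,0)]⟩ ⟨0,[(0,0)]⟩
  (.x 0 ⟨1,[(5,1),(23,2),(0,0)]⟩ ⟨1,[(3,1),(24,1),(2,1),(1,0),(1,3),(3,3),(1,0)]⟩)) (.Q [0,0,0,0,0,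
  0,0,0,0,0,-1,1] (.ed false [1,0,-1,0,1] (.r 0 ⟨0,[(14,0),(13,0)]⟩ ⟨11,[(3,1),(9,3),(13,5),(2,9),
  (9,2),(0,8)]⟩)) (.Q [0,0,0,0,-1,0,0,0,1,1,0,-1] (.p false [0,0,0,0,1] [1] (⟨0,[(26,0)]⟩,⟨0,[(25,
  0)]⟩) .k 1 (⟨0,[]⟩,⟨0,[]⟩) .k .k) (.Q [0,0,0,1,1,0,0,0,-1,-1,0,1] (.p true [0,0,0,0,1] [1] (⟨0,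
  [(27,0)]⟩,⟨0,[(26,0)]⟩) .k 1 (⟨0,[]⟩,⟨0,[]⟩) .k .k) (.R ⟨1,false,false,true,[0,0,1],[1,0,1,0,-1],
  [1,1],(⟨0,[(35,0)]⟩,⟨0,[(34,0)]⟩),(⟨0,[(27,0),(7,0)]⟩,⟨0,[(2,0)]⟩),⟨0,[(24,0)]⟩,.k,.k,.k,.k,(.r 0
  ⟨0,[(40,0)]⟩ ⟨1,[(25,0),(0,0),(5,0),(0,0),(8,1),(1,0)]⟩),.k,⟨true,0,⟨0,[(17,0),(13,0)]⟩,⟨0,[(12,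
  0),(31,0)]⟩⟩,⟨false,2,⟨1,[(25,1),(10,0),(6,0)]⟩,⟨0,[(1,0)]⟩⟩,⟨true,0,⟨0,[(17,0),(13,0)]⟩,⟨2,[(6,
  0),(9,1),(16,1)]⟩⟩,⟨false,2,⟨1,[(25,1),(10,0),(7,0)]⟩,⟨0,[(1,0)]⟩⟩,⟨true,0,⟨0,[(17,0),(13,0),(10,
  0)]⟩,⟨2,[(6,0),(5,0),(1,0),(18,0),(7,0),(2,0)]⟩⟩,⟨true,1,⟨0,[(0,0)]⟩,⟨0,[(1,0),(39,0)]⟩⟩,[.o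
  ⟨false,1,⟨9,[(0,7),(5,3),(5,1),(1,3),(10,1),(6,5),(3,0),(7,0)]⟩,⟨1,[(1,1),(29,1),(4,0),(7,0)]⟩⟩,
  .a ⟨true,1,⟨0,[(4,0),(7,0),(4,0),(26,0)]⟩,⟨0,[(1,0),(29,0)]⟩⟩ ⟨true,0,⟨0,[]⟩,⟨1,[(32,0),(0,0)]⟩⟩
  ⟨false,2,⟨3,[(0,1),(5,1),(9,1),(8,1),(7,1),(2,0),(6,0),(0,1)]⟩,⟨0,[(5,0),(25,0)]⟩⟩,.o ⟨false,0,⟨0,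
  [(17,0)]⟩,⟨1,[(33,1),(2,0),(6,0)]⟩⟩,.o ⟨false,0,⟨0,[(32,0)]⟩,⟨0,[(21,0),(11,0),(2,0)]⟩⟩]⟩) (.Q [0,
  0,2,0,-1,0,0,0,1,0,0,-1] (.p false [0,0,0,0,1] [] (⟨0,[(28,0)]⟩,⟨0,[(27,0)]⟩) .k 0 (⟨0,[]⟩,⟨0,
  []⟩) .k .k) (.S ⟨1,0,[0,1,-1,-1],[0,-1,0,0,1],[1,2,-1,-2],(⟨1,[(3,0),(5,0),(19,0)]⟩,⟨0,[(28,0),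
  (10,0)]⟩),⟨0,[(3,0),(5,0)]⟩,(.r 0 ⟨0,[(41,0)]⟩ ⟨1,[(0,0),(25,1),(0,0),(15,1),(1,0)]⟩),(.r 0 ⟨0,
  [(4,0),(11,0),(1,0),(24,0)]⟩ ⟨1,[(0,1),(25,2),(0,0),(15,3),(1,0)]⟩),⟨true,0,⟨0,[(42,0)]⟩,⟨0,[(43,
  0)]⟩⟩,⟨false,1,⟨1,[(26,0),(0,0),(17,0)]⟩,⟨0,[]⟩⟩,⟨false,0,⟨0,[]⟩,⟨1,[(26,0),(0,0),(17,0)]⟩⟩,⟨true,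
  0,⟨0,[(43,0)]⟩,⟨0,[(42,0)]⟩⟩,[.o ⟨false,(-1),⟨0,[(0,0),(19,0)]⟩,⟨1,[(26,1),(10,0),(5,1),(1,0)]⟩⟩,
  .e ⟨false,0,⟨0,[(19,0)]⟩,⟨1,[(0,0),(25,1),(0,0),(15,3),(1,0)]⟩⟩ ⟨false,1,⟨1,[(21,0),(20,0),(1,
  0)]⟩,⟨1,[(0,0),(25,0),(16,1)]⟩⟩,.a ⟨true,(-1),⟨3,[(0,0),(1,2),(20,0),(10,1)]⟩,⟨0,[(5,0)]⟩⟩ ⟨false,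
  0,⟨4,[(7,0),(3,0),(1,0),(2,0),(2,1),(3,0),(18,0)]⟩,⟨1,[(0,0),(25,0),(16,3),(1,1)]⟩⟩ ⟨true,0,⟨0,
  [(41,0)]⟩,⟨1,[(0,0),(25,0),(16,1)]⟩⟩,.o ⟨false,(-1),⟨0,[(0,0)]⟩,⟨1,[(5,1),(31,0),(6,0)]⟩⟩]⟩) (.Q
  [0,0,0,2,1,0,0,0,-1,-1,0,1] (.p true [0,0,0,0,1] [1] (⟨0,[(29,0)]⟩,⟨0,[(28,0)]⟩) .k 1 (⟨0,[]⟩,⟨0,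
  []⟩) .k .k) (.R ⟨1,false,false,true,[0,-1,1],[1,0,1,0,-1],[0,0,1,0,0,0,0,1],(⟨0,[(26,0)]⟩,⟨0,[(36,
  0),(3,0)]⟩),(⟨0,[(29,0),(7,0)]⟩,⟨0,[(4,0)]⟩),⟨0,[(10,0)]⟩,.k,.k,(.r 0 ⟨0,[(5,0)]⟩ ⟨3,[(0,2),(8,1),
  (14,0),(3,0),(4,5),(0,4),(0,2),(10,2)]⟩),(.r 0 ⟨0,[(42,0)]⟩ ⟨1,[(0,0),(23,0),(3,0),(6,1),(10,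
  0)]⟩),(.r 0 ⟨0,[(5,0),(11,0),(1,0),(24,0)]⟩ ⟨3,[(0,2),(8,1),(14,0),(3,0),(4,1),(0,2),(0,4),(10,
  2)]⟩),.k,⟨true,0,⟨1,[(34,0),(0,0)]⟩,⟨0,[]⟩⟩,⟨false,2,⟨1,[(6,1),(31,0),(6,0)]⟩,⟨1,[(3,1),(30,0),(0,
  0)]⟩⟩,⟨true,0,⟨1,[(0,0),(2,0),(30,1),(0,1)]⟩,⟨0,[(21,0)]⟩⟩,⟨false,2,⟨3,[(0,1),(26,2),(0,0),(9,0),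
  (7,1)]⟩,⟨0,[(2,0)]⟩⟩,⟨true,0,⟨0,[(0,0),(2,0),(30,0),(0,0)]⟩,⟨0,[(20,0)]⟩⟩,⟨true,1,⟨0,[(0,0)]⟩,⟨0,
  [(2,0),(40,0)]⟩⟩,[.o ⟨false,1,⟨5,[(0,3),(7,3),(5,1),(12,1),(6,5),(3,0),(7,0)]⟩,⟨1,[(3,1),(29,1),
  (4,0),(7,0)]⟩⟩,.a ⟨true,1,⟨0,[(1,0),(12,0),(19,0),(11,0)]⟩,⟨0,[(3,0),(29,0)]⟩⟩ ⟨true,0,⟨0,[(14,0),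
  (31,0)]⟩,⟨0,[(19,0),(13,0)]⟩⟩ ⟨false,2,⟨17,[(0,11),(7,13),(9,3),(8,5),(7,3),(2,2),(6,5),(0,8)]⟩,
  ⟨0,[(3,0),(29,0),(0,0)]⟩⟩,.o ⟨false,0,⟨0,[(34,0)]⟩,⟨0,[(23,0),(11,0),(2,0)]⟩⟩,.o ⟨false,0,⟨1,[(34,
  2),(0,0)]⟩,⟨1,[(0,1),(2,1),(4,1),(24,1),(4,0),(7,0)]⟩⟩]⟩) (.Q [0,0,0,0,0,-1,0,0,0,0,-1,1] (.p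
  false [0,0,1] [0,0,0,0,1] (⟨0,[(37,0)]⟩,⟨0,[(36,0)]⟩) .k 2 (⟨0,[(30,0)]⟩,⟨0,[(29,0)]⟩) .k (.r
  (-1) ⟨11,[(8,1),(9,3),(13,5),(2,9),(9,2),(0,8)]⟩ ⟨0,[(19,0),(13,0)]⟩)) (.Q [0,0,0,0,-1,0,-1,0,1,1,
  1,-1] (.p false [0,0,-1,0,1] [1] (⟨0,[(5,0)]⟩,⟨0,[(30,0),(7,0)]⟩) .k 1 (⟨0,[]⟩,⟨0,[]⟩) .k (.r 0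
  ⟨0,[(20,0),(13,0)]⟩ ⟨11,[(9,1),(9,3),(13,5),(2,9),(9,2),(0,8)]⟩)) (.S ⟨1,0,[0,1,0,0,0,0,0,-1],[0,
  0,-1,0,1],[1,2,0,-1,0,0,0,-1],(⟨0,[(6,0)]⟩,⟨0,[(31,0),(7,0)]⟩),⟨0,[(1,0)]⟩,.k,(.r (-1) ⟨7,[(14,3),
  (11,3),(2,0),(0,0),(4,3),(7,1),(3,2)]⟩ ⟨0,[(17,0),(30,0)]⟩),⟨true,0,⟨0,[(45,0)]⟩,⟨0,[(46,0)]⟩⟩,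
  ⟨false,1,⟨1,[(29,0),(0,0),(17,0)]⟩,⟨0,[]⟩⟩,⟨false,0,⟨0,[]⟩,⟨1,[(29,0),(0,0),(17,0)]⟩⟩,⟨true,0,⟨0,
  [(46,0)]⟩,⟨0,[(45,0)]⟩⟩,[.a ⟨true,(-1),⟨0,[(5,0),(29,0)]⟩,⟨0,[(3,0),(12,0),(19,0),(11,0)]⟩⟩
  ⟨false,0,⟨2,[(19,0),(1,2),(0,0),(12,1),(7,0)]⟩,⟨1,[(17,1),(29,0),(0,2)]⟩⟩ ⟨true,0,⟨0,[(21,0),(13,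
  0)]⟩,⟨0,[(16,0),(31,0)]⟩⟩,.o ⟨false,0,⟨1,[(5,1),(29,1),(4,0),(7,0)]⟩,⟨1,[(3,1),(12,1),(19,1),(3,
  0),(7,0)]⟩⟩,.a ⟨true,(-1),⟨0,[(0,0)]⟩,⟨0,[(8,0),(27,0)]⟩⟩ ⟨false,0,⟨0,[(19,0),(1,0)]⟩,⟨1,[(17,1),
  (29,0),(0,2)]⟩⟩ ⟨true,0,⟨0,[(21,0),(13,0)]⟩,⟨2,[(10,0),(9,1),(16,1)]⟩⟩,.a ⟨true,(-1),⟨1,[(0,1),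
  (35,0),(0,0)]⟩,⟨0,[(3,0),(32,0)]⟩⟩ ⟨true,0,⟨2,[(19,0),(1,2),(0,0),(12,1),(7,0)]⟩,⟨0,[(17,0),(30,
  0)]⟩⟩ ⟨false,1,⟨1,[(25,0),(0,0),(8,1),(4,0),(7,0)]⟩,⟨0,[(16,0),(31,0)]⟩⟩]⟩) (.Q [0,0,0,0,0,-1,0,0,
  0,1,0,-1] (.ed true [0,1,0,0,1] .k) (.R ⟨1,false,false,true,[1,0,0,0,-1],[1,0,1,0,-1],[],(⟨0,[(32,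
  0)]⟩,⟨0,[(33,0)]⟩),(⟨0,[(32,0),(7,0)]⟩,⟨0,[(7,0)]⟩),⟨0,[(0,0)]⟩,.k,.k,(.r (-1) ⟨1,[(25,0),(20,0),
  (2,0)]⟩ ⟨1,[(21,1),(14,1),(0,0),(0,0)]⟩),.k,.k,.k,⟨false,1,⟨1,[(26,0),(0,0),(8,1),(4,0),(7,0)]⟩,
  ⟨2,[(11,0),(9,1),(16,1)]⟩⟩,⟨true,0,⟨0,[(22,0)]⟩,⟨0,[(38,0)]⟩⟩,⟨true,0,⟨0,[(51,0)]⟩,⟨0,[]⟩⟩,⟨false,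
  0,⟨0,[(19,0)]⟩,⟨0,[(36,0),(12,0)]⟩⟩,⟨false,0,⟨0,[(47,0)]⟩,⟨0,[(46,0),(2,0)]⟩⟩,⟨false,0,⟨0,[(21,
  0)]⟩,⟨0,[(20,0),(28,0)]⟩⟩,[.o ⟨false,1,⟨4,[(1,2),(9,0),(5,1),(3,1),(8,1),(10,0),(7,0)]⟩,⟨1,[(6,1),
  (29,1),(4,0),(7,0)]⟩⟩,.e ⟨false,1,⟨1,[(48,0),(0,0)]⟩,⟨0,[(51,0)]⟩⟩ ⟨false,1,⟨1,[(21,0),(3,0),(9,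
  0),(13,0)]⟩,⟨0,[(36,0)]⟩⟩,.a ⟨true,1,⟨0,[(30,0)]⟩,⟨0,[(6,0)]⟩⟩ ⟨false,1,⟨1,[(30,0),(0,0),(17,0)]⟩,
  ⟨0,[]⟩⟩ ⟨true,0,⟨0,[(19,0)]⟩,⟨0,[(36,0)]⟩⟩,.o ⟨false,1,⟨0,[(1,0),(36,0)]⟩,⟨1,[(6,0),(19,0),(4,0),
  (9,0)]⟩⟩]⟩) (.R ⟨0,false,false,true,[1,0,0,0,-1],[1,0,1,0,-1],[0,0,0,-1],(⟨0,[(32,0)]⟩,⟨0,[(33,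
  0)]⟩),(⟨0,[(32,0),(7,0)]⟩,⟨0,[(7,0)]⟩),⟨0,[(0,0)]⟩,.k,.k,(.r (-1) ⟨1,[(25,0),(20,0),(2,0)]⟩ ⟨1,
  [(21,1),(14,1),(0,0),(0,0)]⟩),.k,.k,.k,⟨false,1,⟨7,[(15,1),(9,3),(1,3),(8,5),(4,0),(7,0)]⟩,⟨1,
  [(18,1),(29,0),(0,0)]⟩⟩,⟨true,0,⟨0,[(22,0)]⟩,⟨0,[(38,0)]⟩⟩,⟨true,0,⟨0,[(46,0)]⟩,⟨0,[(47,0)]⟩⟩,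
  ⟨false,0,⟨0,[(19,0)]⟩,⟨0,[(36,0),(12,0)]⟩⟩,⟨false,0,⟨0,[]⟩,⟨0,[]⟩⟩,⟨false,0,⟨0,[]⟩,⟨0,[]⟩⟩,[.o
  ⟨false,1,⟨4,[(1,2),(9,0),(5,1),(3,1),(8,1),(10,0),(7,0)]⟩,⟨1,[(6,1),(29,1),(4,0),(7,0)]⟩⟩,.e
  ⟨false,1,⟨1,[(25,0),(20,0),(2,0)]⟩,⟨0,[(21,0),(14,0)]⟩⟩ ⟨false,1,⟨1,[(21,0),(3,0),(9,0),(13,0)]⟩,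
  ⟨0,[(36,0)]⟩⟩,.a ⟨true,1,⟨0,[(30,0)]⟩,⟨0,[(6,0)]⟩⟩ ⟨false,1,⟨0,[(46,0),(2,0)]⟩,⟨0,[(47,0)]⟩⟩
  ⟨true,0,⟨0,[(19,0)]⟩,⟨0,[(36,0)]⟩⟩,.o ⟨false,1,⟨0,[(1,0),(36,0)]⟩,⟨1,[(6,0),(19,0),(4,0),(9,
  0)]⟩⟩]⟩))) (.Q [0,-1,0,0,2,0,0,-1,-1,-1,0,1] (.p true [0,0,0,0,1] [1] (⟨0,[(31,0)]⟩,⟨0,[(30,0)]⟩)
  .k 1 (⟨0,[]⟩,⟨0,[]⟩) .k .k) (.R ⟨1,false,false,true,[1,0,0,0,-1],[1,0,1,0,-1],[],(⟨0,[(31,0)]⟩,⟨0,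
  [(32,0)]⟩),(⟨0,[(1,0),(39,0)]⟩,⟨0,[(6,0)]⟩),⟨0,[(1,0),(13,0)]⟩,.k,.k,(.r (-1) ⟨1,[(24,0),(20,0),
  (2,0)]⟩ ⟨1,[(20,1),(14,1),(0,0),(0,0)]⟩),.k,.k,.k,⟨false,1,⟨1,[(0,0),(8,0),(25,0),(11,0)]⟩,⟨2,
  [(10,0),(9,1),(16,1)]⟩⟩,⟨true,0,⟨0,[(21,0)]⟩,⟨0,[(37,0)]⟩⟩,⟨true,0,⟨0,[(50,0)]⟩,⟨0,[]⟩⟩,⟨false,0,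
  ⟨0,[(18,0)]⟩,⟨0,[(35,0),(12,0)]⟩⟩,⟨false,0,⟨0,[(46,0)]⟩,⟨0,[(45,0),(2,0)]⟩⟩,⟨false,0,⟨0,[(20,0)]⟩,
  ⟨0,[(19,0),(28,0)]⟩⟩,[.o ⟨false,1,⟨7,[(0,5),(2,1),(6,1),(5,7),(3,3),(0,3),(18,0),(7,0)]⟩,⟨1,[(5,
  1),(29,1),(4,0),(7,0)]⟩⟩,.e ⟨false,1,⟨1,[(47,0),(0,0)]⟩,⟨0,[(50,0)]⟩⟩ ⟨false,1,⟨1,[(20,0),(3,0),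
  (9,0),(13,0)]⟩,⟨0,[(35,0)]⟩⟩,.a ⟨true,1,⟨0,[(29,0)]⟩,⟨0,[(5,0)]⟩⟩ ⟨false,1,⟨1,[(29,0),(0,0),(17,
  0)]⟩,⟨0,[]⟩⟩ ⟨true,0,⟨0,[(18,0)]⟩,⟨0,[(35,0)]⟩⟩,.o ⟨false,1,⟨0,[(0,0),(15,0)]⟩,⟨1,[(5,0),(19,0),
  (4,0),(9,0)]⟩⟩]⟩) (.R ⟨0,false,false,false,[0,0,-1,0,1],[0,0,0,0,1],[1,1,0,-1,0,0,0,-1],(⟨0,[(6,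
  0)]⟩,⟨0,[(1,0),(39,0)]⟩),(⟨0,[(32,0)]⟩,⟨0,[(31,0)]⟩),⟨0,[(1,0)]⟩,.k,.k,(.r (-1) ⟨7,[(14,3),(11,3),
  (2,0),(0,0),(4,3),(7,1),(3,2)]⟩ ⟨0,[(17,0),(30,0)]⟩),.k,.k,.k,⟨false,1,⟨7,[(14,1),(9,3),(1,3),(8,
  5),(4,0),(7,0)]⟩,⟨1,[(17,1),(29,0),(0,0)]⟩⟩,⟨true,0,⟨0,[(21,0)]⟩,⟨0,[(37,0)]⟩⟩,⟨false,1,⟨0,[(45,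
  0),(2,0)]⟩,⟨0,[(46,0)]⟩⟩,⟨true,0,⟨0,[(18,0)]⟩,⟨0,[(35,0)]⟩⟩,⟨false,0,⟨0,[]⟩,⟨0,[]⟩⟩,⟨false,0,⟨0,
  []⟩,⟨0,[]⟩⟩,[.o ⟨false,(-1),⟨1,[(0,0),(8,0),(25,0),(4,0)]⟩,⟨1,[(29,1),(10,0),(7,0)]⟩⟩,.a ⟨true,
  (-1),⟨0,[(5,0)]⟩,⟨0,[(29,0)]⟩⟩ ⟨false,1,⟨7,[(14,1),(9,3),(1,3),(8,5),(4,0),(7,0)]⟩,⟨1,[(17,1),(29,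
  0),(0,0)]⟩⟩ ⟨true,0,⟨0,[(21,0)]⟩,⟨0,[(37,0)]⟩⟩,.a ⟨true,(-1),⟨0,[(0,0),(34,0),(12,0)]⟩,⟨0,[(8,0),
  (27,0)]⟩⟩ ⟨true,0,⟨0,[(19,0),(1,0)]⟩,⟨1,[(17,1),(29,0),(0,0)]⟩⟩ ⟨false,0,⟨0,[(21,0)]⟩,⟨1,[(37,1),
  (9,0),(0,0)]⟩⟩,.a ⟨true,(-1),⟨0,[(5,0),(31,0)]⟩,⟨0,[(3,0),(32,0)]⟩⟩ ⟨false,1,⟨7,[(14,1),(9,3),(1,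
  3),(8,5),(4,0),(7,0)]⟩,⟨0,[(17,0),(30,0)]⟩⟩ ⟨true,0,⟨2,[(21,2),(1,0),(19,0),(2,0)]⟩,⟨0,[(37,
  0)]⟩⟩]⟩)))))) (.S ⟨1,0,[0,1],[0,0,0,0,1],[0,2],(⟨0,[(27,0)]⟩,⟨0,[(26,0)]⟩),⟨1,[(1,0),(5,0),(19,
  0)]⟩,.k,(.r 0 ⟨0,[(39,0)]⟩ ⟨1,[(24,0),(0,0),(5,0),(0,0),(8,1),(1,0)]⟩),⟨true,0,⟨0,[(45,0)]⟩,⟨0,
  []⟩⟩,⟨false,1,⟨1,[(24,0),(0,0),(17,0)]⟩,⟨0,[]⟩⟩,⟨false,0,⟨0,[(41,0)]⟩,⟨0,[(40,0),(2,0)]⟩⟩,⟨true,0,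
  ⟨0,[(41,0)]⟩,⟨0,[(40,0)]⟩⟩,[.e ⟨false,0,⟨0,[(38,0)]⟩,⟨0,[(43,0)]⟩⟩ ⟨false,0,⟨2,[(18,0),(19,0),(2,
  0)]⟩,⟨1,[(24,0),(0,0),(17,0)]⟩⟩,.o ⟨false,0,⟨0,[(25,0)]⟩,⟨0,[(0,0)]⟩⟩,.o ⟨false,0,⟨0,[(25,0)]⟩,⟨0,
  [(0,0)]⟩⟩,.a ⟨true,(-1),⟨0,[(4,0),(27,0)]⟩,⟨0,[(3,0)]⟩⟩ ⟨false,0,⟨2,[(18,0),(19,0),(2,0)]⟩,⟨1,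
  [(31,0),(0,0),(10,1)]⟩⟩ ⟨true,0,⟨2,[(18,0),(19,0),(2,0)]⟩,⟨1,[(31,0),(0,0)]⟩⟩]⟩)) (.Q [0,1,0,0,-1,
  0,0,0,1,0,0,-1] (.p false [0,0,0,0,1] [] (⟨0,[(26,0)]⟩,⟨0,[(25,0)]⟩) .k 0 (⟨0,[]⟩,⟨0,[]⟩) .k .k)
  (.Q [0,0,0,0,0,0,-1,0,1,-1,1,-1] (.p false [1,0,-1,0,1] [] (⟨0,[(27,0),(5,0)]⟩,⟨0,[(1,0)]⟩) .k 0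
  (⟨0,[]⟩,⟨0,[]⟩) .k (.r 0 ⟨0,[(16,0),(13,0)]⟩ ⟨11,[(5,1),(9,3),(13,5),(2,9),(9,2),(0,8)]⟩)) (.R ⟨1,
  false,false,false,[1,0,-1,0,1],[1,-1,-1],[1,2,0,-1,0,0,0,-1],(⟨0,[(28,0),(5,0)]⟩,⟨0,[(2,0)]⟩),(⟨0,
  [(23,0)]⟩,⟨0,[(35,0),(2,0)]⟩),⟨1,[(11,0),(16,1),(5,0)]⟩,.k,.k,(.r (-1) ⟨7,[(10,3),(11,3),(2,0),(0,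
  0),(4,3),(7,1),(3,2)]⟩ ⟨0,[(13,0),(30,0)]⟩),(.r 0 ⟨1,[(16,1),(14,1),(0,0),(0,0)]⟩ ⟨1,[(20,0),(20,
  0),(2,0)]⟩),.k,.k,⟨true,(-1),⟨0,[(12,0),(4,0),(13,0)]⟩,⟨0,[(44,0)]⟩⟩,⟨false,1,⟨0,[(25,0)]⟩,⟨1,[(0,
  0),(4,0),(37,0)]⟩⟩,⟨true,0,⟨0,[(41,0)]⟩,⟨0,[(42,0)]⟩⟩,⟨false,2,⟨0,[(4,0),(7,0),(2,0),(1,0),(26,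
  1)]⟩,⟨0,[(1,0),(40,0)]⟩⟩,⟨false,0,⟨0,[]⟩,⟨1,[(25,0),(0,0),(17,0)]⟩⟩,⟨false,2,⟨0,[(25,0),(18,0)]⟩,
  ⟨0,[(1,0)]⟩⟩,[.o ⟨false,1,⟨3,[(10,1),(20,1),(4,0),(7,0)]⟩,⟨0,[(16,0)]⟩⟩,.a ⟨true,1,⟨0,[(15,0),(28,
  0)]⟩,⟨1,[(13,1),(7,0),(0,0)]⟩⟩ ⟨true,0,⟨0,[(15,0),(1,0)]⟩,⟨0,[(13,0),(30,0)]⟩⟩ ⟨false,2,⟨0,[(4,0),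
  (10,0),(1,0),(26,0)]⟩,⟨5,[(0,2),(0,0),(5,1),(5,2),(2,0),(4,0),(17,0)]⟩⟩,.o ⟨false,0,⟨0,[(0,0)]⟩,
  ⟨0,[(4,0),(27,0)]⟩⟩,.o ⟨false,0,⟨1,[(0,1),(31,0),(0,0)]⟩,⟨0,[(4,0),(12,0)]⟩⟩]⟩) (.Q [0,-2,0,0,2,0,
  0,0,-1,-1,0,1] (.p true [0,0,0,0,1] [1] (⟨0,[(28,0)]⟩,⟨0,[(27,0)]⟩) .k 1 (⟨0,[]⟩,⟨0,[]⟩) .k .k)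
  (.R ⟨1,false,false,true,[1,0,-1],[0,0,0,0,1],[0,0,0,0,0,0,0,-1],(⟨0,[(35,0)]⟩,⟨0,[(36,0)]⟩),(⟨0,
  [(29,0)]⟩,⟨0,[(28,0)]⟩),⟨0,[(24,0)]⟩,.k,.k,.k,.k,(.r (-2) ⟨3,[(11,1),(11,1),(2,0),(0,0),(4,1),(11,
  1),(0,2)]⟩ ⟨0,[(13,0),(29,0)]⟩),.k,⟨false,2,⟨1,[(22,0),(0,0),(8,1),(4,0),(7,2)]⟩,⟨2,[(13,1),(0,0),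
  (5,0),(19,0)]⟩⟩,⟨true,(-1),⟨0,[(6,0)]⟩,⟨0,[(0,0),(12,0),(18,0)]⟩⟩,⟨false,1,⟨1,[(26,0),(0,0),(17,
  0)]⟩,⟨0,[]⟩⟩,⟨true,(-2),⟨3,[(1,0),(0,1),(3,1),(1,0),(4,2),(6,0),(19,0)]⟩,⟨0,[(0,0),(31,0)]⟩⟩,
  ⟨true,0,⟨0,[(43,0)]⟩,⟨0,[(42,0)]⟩⟩,⟨true,(-2),⟨5,[(1,2),(0,6),(5,1),(5,2),(2,0),(4,0),(17,0)]⟩,⟨0,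
  [(0,0),(15,0)]⟩⟩,[.o ⟨false,(-1),⟨0,[(2,0),(44,0)]⟩,⟨0,[(0,0)]⟩⟩,.o ⟨false,(-1),⟨0,[(2,0)]⟩,⟨3,
  [(0,1),(25,2),(0,0),(9,0)]⟩⟩,.o ⟨false,1,⟨1,[(34,1),(2,0),(6,0)]⟩,⟨0,[(18,0)]⟩⟩,.a ⟨true,0,⟨0,
  [(34,0)]⟩,⟨0,[(30,0)]⟩⟩ ⟨true,1,⟨1,[(22,0),(0,0),(8,1),(4,0),(7,0)]⟩,⟨0,[(13,0)]⟩⟩ ⟨false,(-1),⟨1,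
  [(2,1),(19,0),(0,0)]⟩,⟨0,[(0,0),(33,0)]⟩⟩]⟩) (.S ⟨1,0,[0,-1],[1,0,0,0,-1],[],(⟨0,[(28,0)]⟩,⟨0,
  [(29,0)]⟩),⟨1,[(3,0),(8,0),(15,0)]⟩,.k,(.r (-1) ⟨1,[(21,0),(20,0),(2,0)]⟩ ⟨1,[(17,1),(14,1),(0,0),
  (0,0)]⟩),⟨true,0,⟨0,[(47,0)]⟩,⟨0,[]⟩⟩,⟨false,1,⟨1,[(26,0),(0,0),(17,0)]⟩,⟨0,[]⟩⟩,⟨false,0,⟨0,[(43,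
  0)]⟩,⟨0,[(42,0),(2,0)]⟩⟩,⟨true,0,⟨0,[(43,0)]⟩,⟨0,[(42,0)]⟩⟩,[.o ⟨false,2,⟨1,[(26,1),(10,0),(7,
  0)]⟩,⟨0,[(2,0)]⟩⟩,.a ⟨true,2,⟨0,[(26,0),(18,0)]⟩,⟨0,[(0,0)]⟩⟩ ⟨false,1,⟨1,[(44,0),(0,0)]⟩,⟨0,[(47,
  0)]⟩⟩ ⟨true,1,⟨0,[(45,0)]⟩,⟨2,[(0,0),(0,0),(11,1),(18,1),(0,0),(3,0)]⟩⟩,.e ⟨false,1,⟨1,[(26,0),(0,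
  0),(17,0)]⟩,⟨0,[]⟩⟩ ⟨false,1,⟨0,[(45,0)]⟩,⟨0,[(47,0)]⟩⟩,.o ⟨false,1,⟨0,[(1,0),(32,0),(2,0)]⟩,⟨3,
  [(2,1),(19,1),(4,1),(9,0),(7,0)]⟩⟩]⟩))) (.S ⟨1,0,[],[1,0,0,0,-1],[0,-1],(⟨0,[(26,0)]⟩,⟨0,[(27,
  0)]⟩),⟨1,[(1,0),(8,0),(15,0)]⟩,.k,(.r (-1) ⟨1,[(19,0),(20,0),(2,0)]⟩ ⟨1,[(15,1),(14,1),(0,0),(0,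
  0)]⟩),⟨false,1,⟨1,[(24,0),(0,0),(17,0)]⟩,⟨0,[]⟩⟩,⟨true,0,⟨0,[(45,0)]⟩,⟨0,[]⟩⟩,⟨true,0,⟨0,[(41,
  0)]⟩,⟨0,[(40,0)]⟩⟩,⟨false,0,⟨0,[(41,0)]⟩,⟨0,[(40,0),(2,0)]⟩⟩,[.e ⟨false,1,⟨1,[(42,0),(0,0)]⟩,⟨0,
  [(45,0)]⟩⟩ ⟨false,1,⟨1,[(24,0),(0,0),(16,0)]⟩,⟨0,[]⟩⟩,.a ⟨true,1,⟨0,[(0,0)]⟩,⟨0,[(8,0)]⟩⟩ ⟨true,1,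
  ⟨0,[(43,0)]⟩,⟨0,[(11,0),(4,0),(13,0)]⟩⟩ ⟨false,1,⟨1,[(42,0),(0,0)]⟩,⟨0,[(45,0)]⟩⟩,.e ⟨false,1,⟨0,
  [(43,0)]⟩,⟨0,[(45,0)]⟩⟩ ⟨false,1,⟨1,[(24,0),(0,0),(17,0)]⟩,⟨0,[]⟩⟩,.o ⟨false,1,⟨1,[(0,1),(10,0),
  (18,0),(0,0),(3,0)]⟩,⟨3,[(4,1),(0,1),(19,1),(4,1),(4,0),(5,3),(1,0)]⟩⟩]⟩)))))))

theorem ok131 : chk K t131 l75 = true := by decide +kernel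

noncomputable def t132 : Tre :=
  (.Q [0,0,0,2,-1,0,1,1,1,1,-1,-1] (.p false [0,0,1] [1,0,0,0,-1] (⟨0,[(28,0)]⟩,⟨0,[(27,0)]⟩) .k 2
  (⟨0,[(20,0)]⟩,⟨0,[(21,0)]⟩) .k (.r 0 ⟨1,[(5,0),(17,0),(2,0),(9,0)]⟩ ⟨0,[(10,0),(13,0),(12,0)]⟩))
  (.R ⟨1,false,false,false,[1,-1,-1],[0,0,0,0,1],[1,1],(⟨0,[(17,0)]⟩,⟨0,[(29,0),(2,0)]⟩),(⟨0,[(22,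
  0)]⟩,⟨0,[(21,0)]⟩),⟨0,[(5,0)]⟩,.k,.k,(.r (-1) ⟨0,[(4,0),(6,0),(3,0)]⟩ ⟨1,[(10,1),(15,0),(0,2),(8,
  1)]⟩),(.r (-2) ⟨3,[(4,1),(11,1),(2,0),(0,0),(4,1),(11,1),(0,2)]⟩ ⟨0,[(6,0),(29,0)]⟩),(.r (-2) ⟨1,
  [(4,1),(10,0),(0,0),(20,0),(0,0)]⟩ ⟨1,[(7,1),(18,0),(0,0),(8,1)]⟩),.k,⟨true,0,⟨0,[]⟩,⟨1,[(26,0),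
  (0,0)]⟩⟩,⟨false,0,⟨0,[(11,0),(3,0),(4,0)]⟩,⟨3,[(1,1),(5,1),(11,1),(7,1),(2,0),(7,0)]⟩⟩,⟨true,(-1),
  ⟨0,[(7,0)]⟩,⟨7,[(4,1),(9,3),(1,3),(8,5),(4,0),(7,0)]⟩⟩,⟨true,(-1),⟨1,[(0,0),(2,0),(20,0)]⟩,⟨0,[(1,
  0)]⟩⟩,⟨true,(-1),⟨0,[(7,0),(28,0)]⟩,⟨1,[(4,1),(10,0),(0,0)]⟩⟩,⟨false,(-1),⟨0,[(0,0)]⟩,⟨0,[(1,0),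
  (33,0),(2,0)]⟩⟩,[.e ⟨false,0,⟨2,[(13,0),(19,0),(2,0)]⟩,⟨1,[(19,0),(0,0),(17,0)]⟩⟩ ⟨false,0,⟨9,[(0,
  1),(12,3),(1,2),(0,4),(3,7),(4,1),(7,1),(3,1)]⟩,⟨0,[(1,0),(5,0),(30,0)]⟩⟩,.o ⟨false,0,⟨0,[(20,
  0)]⟩,⟨0,[(1,0),(8,0)]⟩⟩,.e ⟨false,0,⟨0,[]⟩,⟨1,[(19,0),(0,0),(17,0)]⟩⟩ ⟨false,0,⟨1,[(15,0),(0,0),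
  (3,1)]⟩,⟨0,[(1,0),(5,0),(30,0)]⟩⟩,.a ⟨true,0,⟨1,[(26,0),(0,2)]⟩,⟨0,[(11,0),(3,0)]⟩⟩ ⟨true,0,⟨2,
  [(13,0),(19,0),(2,0)]⟩,⟨1,[(26,0),(0,0)]⟩⟩ ⟨false,0,⟨0,[(11,0),(3,0),(4,0)]⟩,⟨1,[(1,1),(5,1),(18,
  0),(0,0),(10,1)]⟩⟩]⟩) (.Q [0,-2,0,0,1,0,0,0,-1,0,0,1] (.p true [0,0,0,0,1] [] (⟨0,[(22,0)]⟩,⟨0,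
  [(21,0)]⟩) .k 0 (⟨0,[]⟩,⟨0,[]⟩) .k .k) (.R ⟨1,false,false,true,[1,0,-1],[0,0,0,0,1],[0,1,0,0,0,0,
  0,-1],(⟨0,[(29,0)]⟩,⟨0,[(30,0)]⟩),(⟨0,[(23,0)]⟩,⟨0,[(22,0)]⟩),⟨0,[(18,0)]⟩,.k,.k,.k,.k,(.r (-2)
  ⟨3,[(5,1),(11,1),(2,0),(0,0),(4,1),(11,1),(0,2)]⟩ ⟨0,[(7,0),(29,0)]⟩),.k,⟨true,1,⟨0,[(12,0),(13,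
  0),(12,0)]⟩,⟨0,[(7,0)]⟩⟩,⟨false,0,⟨1,[(16,0),(0,0),(3,1)]⟩,⟨5,[(0,1),(1,3),(5,3),(19,1),(2,0),(6,
  2)]⟩⟩,⟨true,0,⟨0,[(41,0)]⟩,⟨0,[]⟩⟩,⟨false,(-1),⟨0,[(4,0),(4,0)]⟩,⟨1,[(0,1),(25,1),(4,0),(7,0)]⟩⟩,
  ⟨false,0,⟨0,[(37,0)]⟩,⟨0,[(36,0),(2,0)]⟩⟩,⟨false,(-1),⟨0,[(4,0),(6,0)]⟩,⟨0,[(2,0),(36,0)]⟩⟩,[.a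
  ⟨true,(-1),⟨0,[(4,0),(36,0)]⟩,⟨0,[(0,0)]⟩⟩ ⟨true,0,⟨0,[(12,0),(13,0)]⟩,⟨0,[(7,0),(31,0)]⟩⟩ ⟨false,
  (-1),⟨2,[(4,2),(7,2),(1,0),(19,0),(2,0)]⟩,⟨1,[(0,1),(27,1),(2,0),(6,0)]⟩⟩,.a ⟨true,(-1),⟨0,[(4,
  0)]⟩,⟨1,[(0,0),(19,0)]⟩⟩ ⟨false,1,⟨1,[(16,0),(0,0),(8,1),(4,0),(7,0)]⟩,⟨1,[(7,0),(3,0),(3,0),(12,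
  0)]⟩⟩ ⟨true,(-1),⟨0,[(4,0),(7,0)]⟩,⟨2,[(0,1),(1,0),(5,0),(19,1),(2,0)]⟩⟩,.o ⟨false,1,⟨1,[(28,1),
  (2,0),(6,0)]⟩,⟨0,[(12,0)]⟩⟩,.a ⟨true,0,⟨0,[(28,0)]⟩,⟨0,[(24,0)]⟩⟩ ⟨false,1,⟨1,[(16,0),(0,0),(8,1),
  (4,0),(7,0)]⟩,⟨0,[(7,0),(31,0)]⟩⟩ ⟨true,(-1),⟨2,[(4,2),(7,2),(1,0),(19,0),(2,0)]⟩,⟨2,[(0,1),(1,0),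
  (5,0),(19,1),(2,0)]⟩⟩]⟩) (.Q [0,0,0,0,0,-1,0,0,0,0,-1,1] (.p false [0,0,1] [0,0,0,0,1] (⟨0,[(30,
  0)]⟩,⟨0,[(29,0)]⟩) .k 2 (⟨0,[(23,0)]⟩,⟨0,[(22,0)]⟩) .k (.r (-1) ⟨1,[(11,0),(3,0),(9,0),(2,1),(10,
  0)]⟩ ⟨0,[(12,0),(13,0)]⟩)) (.Q [0,0,0,0,0,0,-1,0,1,0,1,-1] (.p true [0,0,1] [0,0,0,0,1] (⟨0,[(31,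
  0)]⟩,⟨0,[(30,0)]⟩) .k 2 (⟨0,[(24,0)]⟩,⟨0,[(23,0)]⟩) .k (.r (-1) ⟨1,[(12,0),(3,0),(9,0),(2,1),(10,
  0)]⟩ ⟨0,[(13,0),(13,0)]⟩)) (.R ⟨1,false,false,false,[0,0,-1,0,1],[0,0,0,0,1],[1,1,0,-1,0,0,0,-1],
  (⟨0,[(1,0),(33,0)]⟩,⟨0,[(24,0),(7,0)]⟩),(⟨0,[(25,0)]⟩,⟨0,[(24,0)]⟩),⟨0,[(1,0)]⟩,.k,.k,(.r (-1) ⟨7,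
  [(7,3),(11,3),(2,0),(0,0),(4,3),(7,1),(3,2)]⟩ ⟨0,[(10,0),(30,0)]⟩),.k,.k,.k,⟨false,1,⟨7,[(7,1),(9,
  3),(1,3),(8,5),(4,0),(7,0)]⟩,⟨1,[(10,1),(29,0),(0,0)]⟩⟩,⟨true,0,⟨0,[(14,0)]⟩,⟨0,[(30,0)]⟩⟩,⟨false,
  1,⟨0,[(38,0),(2,0)]⟩,⟨0,[(39,0)]⟩⟩,⟨true,0,⟨0,[(11,0)]⟩,⟨0,[(28,0)]⟩⟩,⟨true,0,⟨0,[]⟩,⟨0,[(43,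
  0)]⟩⟩,⟨true,0,⟨0,[(13,0)]⟩,⟨0,[(12,0)]⟩⟩,[.a ⟨true,(-1),⟨0,[(6,0)]⟩,⟨1,[(4,1),(5,1),(7,0),(0,0),
  (21,1)]⟩⟩ ⟨true,0,⟨0,[(12,0),(1,0)]⟩,⟨0,[(10,0),(30,0)]⟩⟩ ⟨false,0,⟨2,[(14,2),(1,0),(19,0),(2,
  0)]⟩,⟨1,[(30,1),(9,0),(0,0)]⟩⟩,.o ⟨false,0,⟨0,[(23,0)]⟩,⟨0,[(4,0),(8,0)]⟩⟩,.o ⟨false,0,⟨0,[(0,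
  0)]⟩,⟨0,[(4,0),(8,0),(0,0)]⟩⟩,.o ⟨false,0,⟨0,[(23,0),(6,0)]⟩,⟨1,[(4,1),(5,1),(3,3),(3,1),(14,0),
  (7,0)]⟩⟩]⟩) (.Q [0,0,0,0,0,-1,0,0,0,1,0,-1] (.ed true [0,1,0,0,1] .k) (.S ⟨1,0,[0,-1],[1,0,0,0,
  -1],[1,0,0,-1],(⟨0,[(25,0)]⟩,⟨0,[(26,0)]⟩),⟨0,[(0,0)]⟩,.k,(.r (-1) ⟨1,[(18,0),(20,0),(2,0)]⟩ ⟨1,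
  [(14,1),(14,1),(0,0),(0,0)]⟩),⟨true,0,⟨0,[(39,0)]⟩,⟨0,[(40,0)]⟩⟩,⟨false,1,⟨1,[(23,0),(0,0),(17,
  0)]⟩,⟨0,[]⟩⟩,⟨false,0,⟨0,[]⟩,⟨1,[(23,0),(0,0),(17,0)]⟩⟩,⟨true,0,⟨0,[(40,0)]⟩,⟨0,[(39,0)]⟩⟩,[.e
  ⟨false,1,⟨1,[(39,1),(1,0),(0,0)]⟩,⟨0,[(40,0)]⟩⟩ ⟨false,1,⟨1,[(41,0),(0,0)]⟩,⟨0,[(44,0)]⟩⟩,.o
  ⟨false,2,⟨0,[(5,0),(8,0),(27,0)]⟩,⟨0,[(3,0)]⟩⟩,.o ⟨false,1,⟨0,[(5,0),(8,0)]⟩,⟨0,[(24,0)]⟩⟩,.a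
  ⟨true,0,⟨0,[(1,0),(29,0)]⟩,⟨1,[(7,1),(33,0),(0,0)]⟩⟩ ⟨false,1,⟨1,[(18,0),(20,0),(2,0)]⟩,⟨1,[(30,
  0),(0,0),(8,1)]⟩⟩ ⟨true,1,⟨1,[(41,0),(0,0)]⟩,⟨2,[(1,0),(1,0),(6,1),(18,1),(0,0)]⟩⟩]⟩) (.R ⟨0,
  false,false,true,[1,0,0,0,-1],[0,0,1],[0,0,0,-1],(⟨0,[(25,0)]⟩,⟨0,[(26,0)]⟩),(⟨0,[(33,0)]⟩,⟨0,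
  [(32,0)]⟩),⟨0,[(0,0)]⟩,.k,.k,(.r (-1) ⟨1,[(18,0),(20,0),(2,0)]⟩ ⟨1,[(14,1),(14,1),(0,0),(0,0)]⟩),
  .k,.k,.k,⟨true,1,⟨0,[(13,0),(1,0),(26,0)]⟩,⟨0,[(11,0)]⟩⟩,⟨false,0,⟨1,[(19,0),(0,0),(3,1)]⟩,⟨1,[(5,
  1),(5,1),(29,0),(0,0)]⟩⟩,⟨true,0,⟨0,[(39,0)]⟩,⟨0,[(40,0)]⟩⟩,⟨false,(-1),⟨0,[(7,0),(4,0)]⟩,⟨0,[(5,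
  0),(34,0),(1,0)]⟩⟩,⟨false,0,⟨0,[]⟩,⟨0,[]⟩⟩,⟨false,0,⟨0,[]⟩,⟨0,[]⟩⟩,[.e ⟨false,1,⟨1,[(39,1),(1,0),
  (0,0)]⟩,⟨0,[(40,0)]⟩⟩ ⟨false,(-1),⟨0,[(10,0),(4,0),(3,0),(4,0)]⟩,⟨3,[(5,1),(17,1),(5,1),(4,0),(5,
  1),(1,2)]⟩⟩,.o ⟨false,0,⟨0,[(12,0)]⟩,⟨1,[(29,1),(4,0),(7,0)]⟩⟩,.o ⟨false,1,⟨0,[(5,0),(8,0)]⟩,⟨0,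
  [(24,0)]⟩⟩,.a ⟨true,0,⟨0,[(1,0),(29,0)]⟩,⟨1,[(7,1),(33,0),(0,0)]⟩⟩ ⟨false,1,⟨1,[(18,0),(20,0),(2,
  0)]⟩,⟨1,[(30,0),(0,0),(8,1)]⟩⟩ ⟨true,(-1),⟨0,[(10,0),(4,0),(3,0),(4,0)]⟩,⟨1,[(5,1),(24,0),(0,0),
  (8,1)]⟩⟩]⟩))) (.Q [0,0,1,0,0,0,0,0,-1,0,0,1] (.p true [0,0,0,0,1] [] (⟨0,[(24,0)]⟩,⟨0,[(23,0)]⟩)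
  .k 0 (⟨0,[]⟩,⟨0,[]⟩) .k .k) (.S ⟨1,0,[0,-1],[1,0,0,0,-1],[1,0,0,-1],(⟨0,[(24,0)]⟩,⟨0,[(25,0)]⟩),
  ⟨0,[(1,0),(6,0)]⟩,.k,(.r (-1) ⟨1,[(17,0),(20,0),(2,0)]⟩ ⟨1,[(13,1),(14,1),(0,0),(0,0)]⟩),⟨true,0,
  ⟨0,[(38,0)]⟩,⟨0,[(39,0)]⟩⟩,⟨false,1,⟨1,[(22,0),(0,0),(17,0)]⟩,⟨0,[]⟩⟩,⟨false,0,⟨0,[]⟩,⟨1,[(22,0),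
  (0,0),(17,0)]⟩⟩,⟨true,0,⟨0,[(39,0)]⟩,⟨0,[(38,0)]⟩⟩,[.e ⟨false,1,⟨1,[(38,1),(1,0),(0,0)]⟩,⟨0,[(39,
  0)]⟩⟩ ⟨false,1,⟨1,[(40,0),(0,0)]⟩,⟨0,[(43,0)]⟩⟩,.o ⟨false,2,⟨0,[(4,0),(8,0),(27,0)]⟩,⟨0,[(2,0)]⟩⟩,
  .o ⟨false,1,⟨0,[(4,0),(8,0)]⟩,⟨0,[(23,0)]⟩⟩,.a ⟨true,0,⟨0,[(0,0)]⟩,⟨1,[(6,1),(33,0),(0,0)]⟩⟩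
  ⟨false,1,⟨1,[(17,0),(20,0),(2,0)]⟩,⟨1,[(29,0),(0,0),(8,1)]⟩⟩ ⟨true,1,⟨1,[(40,0),(0,0)]⟩,⟨0,[(0,0),
  (1,0)]⟩⟩]⟩) (.S ⟨1,0,[],[1,0,0,0,-1],[0,-1],(⟨0,[(24,0)]⟩,⟨0,[(25,0)]⟩),⟨0,[(1,0),(6,0)]⟩,.k,(.r
  (-1) ⟨1,[(17,0),(20,0),(2,0)]⟩ ⟨1,[(13,1),(14,1),(0,0),(0,0)]⟩),⟨false,1,⟨1,[(22,0),(0,0),(17,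
  0)]⟩,⟨0,[]⟩⟩,⟨true,0,⟨0,[(43,0)]⟩,⟨0,[]⟩⟩,⟨true,0,⟨0,[(39,0)]⟩,⟨0,[(38,0)]⟩⟩,⟨false,0,⟨0,[(39,
  0)]⟩,⟨0,[(38,0),(2,0)]⟩⟩,[.o ⟨false,1,⟨0,[(4,0),(8,0)]⟩,⟨0,[(23,0)]⟩⟩,.a ⟨true,1,⟨1,[(4,1),(5,1),
  (7,0),(0,0),(21,1)]⟩,⟨0,[(6,0)]⟩⟩ ⟨true,1,⟨0,[(41,0)]⟩,⟨0,[(9,0),(4,0),(13,0)]⟩⟩ ⟨false,1,⟨1,[(40,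
  0),(0,0)]⟩,⟨0,[(43,0)]⟩⟩,.o ⟨false,1,⟨0,[(4,0),(8,0)]⟩,⟨0,[(23,0)]⟩⟩,.o ⟨false,1,⟨3,[(4,1),(5,1),
  (11,1),(6,1),(3,0),(7,0)]⟩,⟨0,[(0,0)]⟩⟩]⟩)))))

theorem ok132 : chk K t132 r75 = true := by decide +kernel

noncomputable def t134 : Tre :=
  (.I [1,0,2,2,0,0,0,-1] (.Q [0,0,-2,0,1,0,-1,0,0,-1,1] (.p true [0,0,1] [1] (⟨0,[(28,0)]⟩,⟨0,[(27,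
  0)]⟩) .k 1 (⟨0,[]⟩,⟨0,[]⟩) .k .k) (.R ⟨0,false,false,false,[0,-1,1],[1,-1,-1],[1,1],(⟨0,[(18,0)]⟩,
  ⟨1,[(2,0),(25,1),(0,0)]⟩),(⟨0,[(17,0)]⟩,⟨1,[(2,0),(26,2)]⟩),⟨0,[(2,0)]⟩,.k,.k,(.x 0 ⟨2,[(1,0),(2,
  0),(0,0),(0,1),(4,1),(6,3),(7,1),(11,0)]⟩ ⟨2,[(0,0),(1,2),(12,0),(11,1),(9,1)]⟩),.k,.k,.k,⟨true,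
  (-1),⟨0,[(7,0)]⟩,⟨0,[(9,0),(1,0),(26,0)]⟩⟩,⟨false,1,⟨0,[(0,0),(26,0)]⟩,⟨0,[(16,0)]⟩⟩,⟨true,0,⟨2,
  [(1,1),(7,0),(1,0),(21,0)]⟩,⟨0,[(6,0),(7,0)]⟩⟩,⟨false,2,⟨1,[(0,0),(0,0),(2,0),(20,1),(12,1)]⟩,⟨0,
  [(6,1),(4,1),(3,0),(22,0)]⟩⟩,⟨false,0,⟨0,[]⟩,⟨0,[]⟩⟩,⟨false,0,⟨0,[]⟩,⟨0,[]⟩⟩,[.o ⟨false,1,⟨3,[(0,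
  0),(0,0),(2,2)]⟩,⟨0,[(10,0)]⟩⟩,.a ⟨true,1,⟨0,[(9,0),(28,0)]⟩,⟨1,[(7,1),(7,0),(0,0)]⟩⟩ ⟨true,0,⟨0,
  []⟩,⟨1,[(26,0),(0,0)]⟩⟩ ⟨false,2,⟨0,[(0,0),(8,0),(28,0)]⟩,⟨0,[(7,0),(8,0)]⟩⟩,.o ⟨false,0,⟨0,[(26,
  0)]⟩,⟨5,[(0,3),(18,0),(0,0),(6,1),(2,0)]⟩⟩,.o ⟨false,0,⟨1,[(26,2),(0,0)]⟩,⟨0,[(0,0)]⟩⟩]⟩) (.Q [0,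
  0,-1,0,1,0,-2,0,0,-1,2] (.p true [0,0,1] [1,0,-1] (⟨0,[(29,0)]⟩,⟨0,[(28,0)]⟩) .k 2 (⟨0,[(28,0)]⟩,
  ⟨0,[(29,0)]⟩) .k (.r 0 ⟨0,[(6,0),(3,0),(3,0),(12,0)]⟩ ⟨0,[(1,0),(2,0),(6,0),(3,0)]⟩)) (.K ⟨0,[1,1,
  -1],1,1,(⟨17,[(1,1),(1,8),(0,3),(11,2),(3,3),(7,1),(0,8),(9,1)]⟩,⟨0,[(19,0)]⟩),.k,.k,(.r 0 ⟨0,[(1,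
  0),(3,0),(31,3)]⟩ ⟨1,[(7,0),(7,2),(9,0),(2,0),(7,0)]⟩),(.r (-1) ⟨17,[(2,19),(2,5),(9,9),(1,7),(8,
  9),(4,0),(6,0)]⟩ ⟨4,[(0,0),(6,6),(1,2),(5,4),(0,0),(11,0),(10,0)]⟩),.k,[⟨0,[(0,0)]⟩,⟨0,[(1,0)]⟩,
  ⟨6,[(1,3),(5,3),(1,2),(3,1),(1,0),(0,2),(19,1)]⟩,⟨31,[(0,9),(1,19),(2,3),(20,7),(4,8),(2,11),(3,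
  8)]⟩]⟩) (.R ⟨0,false,false,false,[0,-1,1],[1,-1,-1],[0,0,-1,-1,0,0,0,-1],(⟨0,[(19,0)]⟩,⟨17,[(1,1),
  (1,8),(0,3),(11,2),(3,3),(7,1),(0,8),(9,1)]⟩),(⟨0,[(18,0)]⟩,⟨1,[(3,0),(26,2)]⟩),⟨0,[(3,0)]⟩,.k,.k,
  (.r (-1) ⟨1,[(7,0),(7,2),(9,0),(2,0),(7,0)]⟩ ⟨0,[(0,0),(4,0),(1,0),(2,0),(26,4),(1,0)]⟩),.k,.k,.k,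
  ⟨false,1,⟨1,[(20,0),(0,0),(16,0)]⟩,⟨0,[]⟩⟩,⟨true,1,⟨0,[(16,0),(11,1),(2,0)]⟩,⟨0,[(0,0)]⟩⟩,⟨true,1,
  ⟨12,[(0,3),(1,13),(2,5),(8,4),(0,10),(1,1),(8,5)]⟩,⟨0,[(7,0),(0,0),(6,0)]⟩⟩,⟨false,2,⟨1,[(26,3),
  (4,0),(7,2)]⟩,⟨2,[(0,1),(6,3),(3,1),(3,1),(0,0),(22,0)]⟩⟩,⟨false,0,⟨0,[]⟩,⟨0,[]⟩⟩,⟨false,0,⟨0,[]⟩,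
  ⟨0,[]⟩⟩,[.o ⟨false,1,⟨3,[(5,1),(20,1),(4,0),(7,0)]⟩,⟨0,[(11,0)]⟩⟩,.a ⟨true,1,⟨0,[(10,0),(28,0)]⟩,
  ⟨1,[(8,1),(7,0),(0,0)]⟩⟩ ⟨false,2,⟨4,[(2,0),(2,1),(9,2),(1,1),(8,1),(11,2),(0,1)]⟩,⟨0,[(8,0)]⟩⟩
  ⟨true,2,⟨1,[(15,1),(10,1),(1,1),(2,0),(7,0)]⟩,⟨0,[(0,0),(7,0)]⟩⟩,.o ⟨false,0,⟨0,[(27,0)]⟩,⟨0,[(16,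
  0),(11,0),(2,0)]⟩⟩,.e ⟨true,1,⟨12,[(0,1),(1,6),(2,2),(8,8),(0,11),(1,0),(8,2)]⟩,⟨2,[(2,0),(4,2),
  (3,0),(16,0)]⟩⟩ ⟨true,2,⟨1,[(15,1),(10,1),(1,1),(2,0),(6,0)]⟩,⟨0,[(0,0),(7,0)]⟩⟩]⟩))) (.R ⟨0,
  false,false,false,[0,-1,1],[1,-1,-1],[1,1],(⟨0,[(17,0)]⟩,⟨1,[(1,0),(25,1),(0,0)]⟩),(⟨0,[(16,0)]⟩,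
  ⟨1,[(1,0),(26,2)]⟩),⟨0,[(1,0)]⟩,.k,.k,(.r 0 ⟨0,[(0,0)]⟩ ⟨1,[(18,0),(0,0),(4,1),(0,2),(0,0),(8,3),
  (1,0)]⟩),.k,.k,.k,⟨true,(-1),⟨0,[(6,0)]⟩,⟨0,[(8,0),(1,0),(26,0)]⟩⟩,⟨false,1,⟨1,[(0,1),(23,1),(1,
  1),(2,0),(5,3),(1,0)]⟩,⟨0,[(15,0)]⟩⟩,⟨true,0,⟨0,[(24,0),(0,0),(9,0)]⟩,⟨2,[(0,1),(8,0),(16,0)]⟩⟩,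
  ⟨false,2,⟨1,[(24,3),(4,0),(7,2)]⟩,⟨0,[(5,1),(4,1),(3,0),(22,0)]⟩⟩,⟨false,0,⟨0,[]⟩,⟨0,[]⟩⟩,⟨false,
  0,⟨0,[]⟩,⟨0,[]⟩⟩,[.o ⟨false,1,⟨3,[(3,1),(20,1),(4,0),(7,0)]⟩,⟨0,[(9,0)]⟩⟩,.a ⟨true,1,⟨0,[(8,0),
  (28,0)]⟩,⟨1,[(6,1),(7,0),(0,0)]⟩⟩ ⟨true,0,⟨0,[]⟩,⟨1,[(25,0),(0,0)]⟩⟩ ⟨false,2,⟨1,[(0,1),(23,3),(4,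
  0),(5,1),(1,2)]⟩,⟨0,[(6,0),(8,0)]⟩⟩,.o ⟨false,0,⟨0,[(25,0)]⟩,⟨0,[(14,0),(11,0),(2,0)]⟩⟩,.o ⟨false,
  0,⟨1,[(25,2),(0,0)]⟩,⟨1,[(0,1),(23,1),(4,0),(5,3),(1,0)]⟩⟩]⟩))

theorem ok134 : chk K t134 r74 = true := by decide +kernel

noncomputable def t142 : Tre :=
  (.R ⟨2,true,false,false,[0,1],[0,1,1],[1,0,1],(⟨0,[]⟩,⟨0,[]⟩),(⟨0,[(20,0),(2,0)]⟩,⟨0,[(8,0)]⟩),⟨0,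
  []⟩,.k,.k,.k,.k,.k,.k,⟨false,1,⟨3,[(3,1),(3,1),(8,3),(4,0),(7,2)]⟩,⟨1,[(0,0),(0,0),(2,0),(13,1),
  (8,0)]⟩⟩,⟨true,0,⟨0,[(2,0)]⟩,⟨0,[(18,0)]⟩⟩,⟨false,1,⟨0,[(26,0),(2,0)]⟩,⟨0,[(27,0)]⟩⟩,⟨true,0,⟨0,
  [(0,0),(25,0)]⟩,⟨0,[(16,0)]⟩⟩,⟨true,0,⟨0,[]⟩,⟨0,[(31,0)]⟩⟩,⟨false,0,⟨0,[(0,0)]⟩,⟨0,[(16,0),(9,0),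
  (2,0)]⟩⟩,[]⟩)

theorem ok142 : chk K t142 r61 = true := by decide +kernel

noncomputable def t144 : Tre :=
  (.S ⟨1,0,[0,0,0,0,0,0,0,-1],[1,0,-1],[0,1,0,0,0,0,0,-1],(⟨0,[(21,0)]⟩,⟨0,[(22,0)]⟩),⟨0,[(10,0)]⟩,
  .k,.k,⟨true,0,⟨0,[(33,0)]⟩,⟨0,[]⟩⟩,⟨false,1,⟨1,[(12,0),(0,0),(17,0)]⟩,⟨0,[]⟩⟩,⟨false,0,⟨0,[(29,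
  0)]⟩,⟨0,[(28,0),(2,0)]⟩⟩,⟨true,0,⟨0,[(29,0)]⟩,⟨0,[(28,0)]⟩⟩,[.e ⟨false,0,⟨4,[(0,3),(17,0),(0,0),
  (6,1)]⟩,⟨0,[(1,0)]⟩⟩ ⟨false,0,⟨0,[(0,0)]⟩,⟨0,[(1,0),(31,0)]⟩⟩,.o ⟨false,1,⟨1,[(3,1),(19,0),(5,1),
  (1,0)]⟩,⟨0,[(17,0)]⟩⟩,.o ⟨false,1,⟨1,[(20,1),(2,0),(6,0)]⟩,⟨0,[(4,0)]⟩⟩,.a ⟨true,0,⟨0,[(20,0)]⟩,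
  ⟨0,[(16,0)]⟩⟩ ⟨false,0,⟨0,[(0,0)]⟩,⟨1,[(1,1),(17,0),(0,0)]⟩⟩ ⟨true,0,⟨0,[(0,0)]⟩,⟨0,[(17,0),(2,
  0)]⟩⟩]⟩)

theorem ok144 : chk K t144 l78 = true := by decide +kernel

noncomputable def t145 : Tre :=
  (.R ⟨0,false,false,true,[1,-1,-1],[1,-1],[1,1],(⟨0,[(11,0)]⟩,⟨0,[(0,0),(24,0)]⟩),(⟨0,[(25,0)]⟩,⟨0,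
  [(26,0)]⟩),⟨0,[(0,0)]⟩,.k,.k,(.r (-1) ⟨7,[(4,4),(1,1),(1,5),(1,3),(8,2),(4,1),(4,0)]⟩ ⟨1,[(1,1),
  (18,0),(0,0),(8,3)]⟩),.k,.k,.k,⟨false,0,⟨0,[(30,0)]⟩,⟨1,[(29,1),(1,0),(0,0)]⟩⟩,⟨true,0,⟨0,[(5,
  0)]⟩,⟨0,[(21,0)]⟩⟩,⟨false,0,⟨0,[(1,0),(28,0)]⟩,⟨1,[(4,1),(4,0),(0,0),(13,0),(7,0)]⟩⟩,⟨true,0,⟨0,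
  [(18,0)]⟩,⟨0,[(4,0),(25,0)]⟩⟩,⟨false,0,⟨0,[]⟩,⟨0,[]⟩⟩,⟨false,0,⟨0,[]⟩,⟨0,[]⟩⟩,[.e ⟨false,0,⟨2,[(7,
  0),(19,0),(2,0)]⟩,⟨1,[(13,0),(0,0),(17,0)]⟩⟩ ⟨false,0,⟨0,[(5,0),(1,0)]⟩,⟨3,[(2,1),(16,1),(0,0),(0,
  2),(8,3),(1,1)]⟩⟩,.o ⟨false,1,⟨1,[(24,0),(4,1),(2,0)]⟩,⟨0,[(30,0)]⟩⟩,.a ⟨true,0,⟨0,[(21,0)]⟩,⟨0,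
  [(17,0)]⟩⟩ ⟨false,0,⟨0,[]⟩,⟨1,[(13,0),(0,0),(17,0)]⟩⟩ ⟨true,0,⟨3,[(5,2),(0,1),(13,0),(6,0)]⟩,⟨0,
  [(21,0),(8,0)]⟩⟩,.e ⟨true,0,⟨2,[(7,0),(19,0),(2,0)]⟩,⟨1,[(20,0),(0,0)]⟩⟩ ⟨true,0,⟨0,[(5,0),(1,
  0)]⟩,⟨1,[(20,0),(0,2),(8,1)]⟩⟩]⟩)

theorem ok145 : chk K t145 l79 = true := by decide +kernel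

noncomputable def t146 : Tre :=
  (.S ⟨1,0,[0,0,1,1,0,0,0,1],[0,1,1],[1,1,1,0,0,0,0,1],(⟨0,[(24,0),(2,0)]⟩,⟨0,[(12,0)]⟩),⟨0,[(24,
  0)]⟩,.k,.k,⟨true,0,⟨0,[(30,0)]⟩,⟨0,[(31,0)]⟩⟩,⟨false,1,⟨1,[(14,0),(0,0),(17,0)]⟩,⟨0,[]⟩⟩,⟨false,0,
  ⟨0,[]⟩,⟨1,[(14,0),(0,0),(17,0)]⟩⟩,⟨true,0,⟨0,[(31,0)]⟩,⟨0,[(30,0)]⟩⟩,[.a ⟨true,0,⟨0,[(0,0),(34,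
  0)]⟩,⟨0,[(5,0)]⟩⟩ ⟨false,0,⟨2,[(2,2),(5,0),(19,0),(2,0)]⟩,⟨1,[(5,1),(4,0),(0,0),(13,0),(5,1),(1,
  0)]⟩⟩ ⟨true,0,⟨0,[(2,0),(28,0)]⟩,⟨0,[(5,0),(0,0)]⟩⟩,.a ⟨true,0,⟨0,[(0,0)]⟩,⟨1,[(5,0),(14,0),(9,
  0)]⟩⟩ ⟨true,0,⟨0,[(2,0)]⟩,⟨0,[(5,0),(0,0),(24,0)]⟩⟩ ⟨false,1,⟨0,[(3,0),(27,0)]⟩,⟨1,[(5,0),(0,1),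
  (1,0),(11,0)]⟩⟩,.a ⟨true,0,⟨0,[(18,0)]⟩,⟨0,[(22,0)]⟩⟩ ⟨false,0,⟨0,[(2,0)]⟩,⟨1,[(5,1),(4,0),(0,0),
  (13,0),(5,1),(1,0)]⟩⟩ ⟨true,0,⟨0,[(2,0),(28,0)]⟩,⟨1,[(5,0),(0,1),(1,0),(11,0)]⟩⟩,.o ⟨false,0,⟨0,
  [(6,0)]⟩,⟨1,[(22,1),(2,0),(6,0)]⟩⟩]⟩)

theorem ok146 : chk K t146 l80 = true := by decide +kernel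

noncomputable def t147 : Tre :=
  (.R ⟨1,false,false,false,[1,0,-1],[0,1],[1,0,1,1],(⟨0,[(25,0)]⟩,⟨0,[(26,0)]⟩),(⟨0,[(29,0)]⟩,⟨0,
  [(28,0)]⟩),⟨0,[(14,0)]⟩,.k,.k,.k,.k,(.r (-1) ⟨3,[(2,1),(4,0),(3,3),(1,1),(8,0),(9,0)]⟩ ⟨1,[(4,1),
  (18,0),(0,0),(8,3)]⟩),.k,⟨true,0,⟨0,[]⟩,⟨1,[(23,0),(0,0)]⟩⟩,⟨false,0,⟨0,[(8,0),(3,0)]⟩,⟨3,[(5,1),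
  (16,1),(0,0),(0,2),(2,1)]⟩⟩,⟨true,0,⟨0,[(4,0),(28,0)]⟩,⟨1,[(2,1),(9,0),(0,0)]⟩⟩,⟨true,0,⟨1,[(0,0),
  (5,0),(30,0)]⟩,⟨0,[(2,0)]⟩⟩,⟨true,0,⟨0,[(4,0),(28,1)]⟩,⟨1,[(2,0),(4,0),(1,0),(3,0)]⟩⟩,⟨false,0,⟨0,
  [(0,0)]⟩,⟨1,[(7,1),(19,0),(4,1),(2,0)]⟩⟩,[.o ⟨false,0,⟨0,[(33,0)]⟩,⟨1,[(27,0),(4,1),(2,0)]⟩⟩,.a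
  ⟨true,0,⟨0,[(0,0),(6,0)]⟩,⟨0,[(32,0)]⟩⟩ ⟨false,1,⟨3,[(0,1),(15,0),(0,0),(4,1),(4,0),(7,1)]⟩,⟨0,
  [(31,0)]⟩⟩ ⟨true,0,⟨0,[(0,0),(6,0),(0,0)]⟩,⟨0,[(2,0),(1,0)]⟩⟩,.o ⟨false,1,⟨1,[(24,1),(2,0),(6,
  0)]⟩,⟨0,[(8,0)]⟩⟩,.e ⟨true,0,⟨0,[(33,0)]⟩,⟨0,[(32,0)]⟩⟩ ⟨true,0,⟨1,[(12,0),(0,0),(19,1)]⟩,⟨0,[(2,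
  0),(1,0)]⟩⟩]⟩)

theorem ok147 : chk K t147 l82 = true := by decide +kernel

noncomputable def t148 : Tre :=
  (.R ⟨1,false,false,false,[1,0,-1],[0,0,0,0,1],[0,1,0,0,0,0,0,-1],(⟨0,[(26,0)]⟩,⟨0,[(27,0)]⟩),(⟨0,
  [(20,0)]⟩,⟨0,[(19,0)]⟩),⟨0,[(15,0)]⟩,.k,.k,.k,.k,(.r (-1) ⟨1,[(8,1),(4,0),(0,0),(13,0),(7,0)]⟩ ⟨0,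
  [(5,0),(28,0),(3,0)]⟩),.k,⟨true,0,⟨0,[(8,0),(0,0),(24,0)]⟩,⟨0,[(5,0)]⟩⟩,⟨false,0,⟨1,[(13,0),(0,0),
  (3,1)]⟩,⟨2,[(0,2),(10,0),(13,2),(5,0),(2,0)]⟩⟩,⟨true,0,⟨0,[(38,0)]⟩,⟨0,[]⟩⟩,⟨false,0,⟨0,[(7,0),
  (10,0)]⟩,⟨0,[(0,0),(7,0),(25,0)]⟩⟩,⟨false,0,⟨0,[(34,0)]⟩,⟨0,[(33,0),(2,0)]⟩⟩,⟨false,0,⟨0,[(7,0),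
  (10,0),(15,0)]⟩,⟨0,[(0,0),(7,0)]⟩⟩,[.o ⟨false,0,⟨0,[(18,0),(19,0)]⟩,⟨0,[(0,0)]⟩⟩,.o ⟨false,0,⟨0,
  [(18,0)]⟩,⟨0,[(0,0),(37,0)]⟩⟩,.o ⟨false,1,⟨1,[(25,1),(2,0),(6,0)]⟩,⟨0,[(9,0)]⟩⟩,.a ⟨true,0,⟨0,
  [(25,0)]⟩,⟨0,[(21,0)]⟩⟩ ⟨true,0,⟨1,[(3,0),(5,1),(3,0),(9,0),(10,0)]⟩,⟨0,[(5,0)]⟩⟩ ⟨false,0,⟨1,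
  [(13,0),(0,0),(3,1)]⟩,⟨0,[(0,0),(24,0)]⟩⟩]⟩)

theorem ok148 : chk K t148 l83 = true := by decide +kernel

noncomputable def t149 : Tre :=
  (.Q [0,0,0,0,0,-1,0,0,0,0,0,1] (.ed false [1,-1,0,0,1] .k) (.S ⟨1,0,[0,2],[0,0,0,0,1],[1,1,0,-1],
  (⟨0,[(22,0)]⟩,⟨0,[(21,0)]⟩),⟨0,[(0,0)]⟩,.k,(.r 0 ⟨0,[(34,0)]⟩ ⟨3,[(8,1),(16,1),(0,2),(0,0),(8,3),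
  (1,1)]⟩),⟨false,1,⟨0,[(35,0),(2,0)]⟩,⟨0,[(36,0)]⟩⟩,⟨true,0,⟨0,[(40,0)]⟩,⟨0,[]⟩⟩,⟨true,0,⟨0,[]⟩,⟨0,
  [(40,0)]⟩⟩,⟨false,0,⟨0,[(36,0)]⟩,⟨0,[(35,0),(2,0)]⟩⟩,[.e ⟨false,0,⟨4,[(12,1),(20,0),(1,0)]⟩,⟨1,
  [(19,0),(0,0),(15,1),(1,0)]⟩⟩ ⟨false,0,⟨0,[(33,0)]⟩,⟨0,[(38,0)]⟩⟩,.o ⟨false,(-1),⟨2,[(1,2),(11,0),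
  (19,0),(2,0)]⟩,⟨1,[(19,1),(10,0),(7,0)]⟩⟩,.a ⟨true,(-1),⟨1,[(1,1),(13,0),(12,0),(0,0)]⟩,⟨0,[(19,
  0)]⟩⟩ ⟨true,0,⟨0,[(35,0)]⟩,⟨0,[(36,0)]⟩⟩ ⟨false,0,⟨0,[(40,0)]⟩,⟨0,[(38,0)]⟩⟩,.o ⟨false,(-1),⟨0,
  [(1,0)]⟩,⟨1,[(19,1),(10,0),(6,0)]⟩⟩]⟩) (.R ⟨0,false,false,true,[0,0,0,0,1],[1,0,-1],[1,1,1],(⟨0,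
  [(22,0)]⟩,⟨0,[(21,0)]⟩),(⟨0,[(28,0)]⟩,⟨0,[(29,0)]⟩),⟨0,[(0,0)]⟩,.k,.k,(.r 0 ⟨0,[(34,0)]⟩ ⟨3,[(8,
  1),(16,1),(0,2),(0,0),(8,3),(1,1)]⟩),.k,.k,.k,⟨true,0,⟨0,[(7,0)]⟩,⟨0,[(10,0),(0,0),(24,0)]⟩⟩,
  ⟨false,2,⟨0,[(15,0),(3,0),(7,0),(2,0)]⟩,⟨1,[(1,1),(13,0),(0,0)]⟩⟩,⟨true,0,⟨1,[(26,0),(0,0)]⟩,⟨2,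
  [(13,0),(19,0),(2,0)]⟩⟩,⟨false,2,⟨1,[(10,1),(8,1),(10,0),(5,1),(1,0)]⟩,⟨0,[(1,0),(5,0),(3,0),(3,
  0)]⟩⟩,⟨false,0,⟨0,[]⟩,⟨0,[]⟩⟩,⟨false,0,⟨0,[]⟩,⟨0,[]⟩⟩,[.o ⟨false,0,⟨0,[(5,0),(30,0)]⟩,⟨0,[(8,0),
  (2,0)]⟩⟩,.e ⟨false,0,⟨0,[]⟩,⟨1,[(19,0),(0,0),(16,0)]⟩⟩ ⟨false,2,⟨3,[(10,1),(4,1),(3,3),(5,1),(4,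
  2),(5,1),(1,0)]⟩,⟨0,[(1,0),(5,0),(3,0),(3,0)]⟩⟩,.a ⟨true,(-1),⟨1,[(1,1),(13,0),(12,0),(0,0)]⟩,⟨0,
  [(19,0)]⟩⟩ ⟨false,0,⟨1,[(26,0),(0,0)]⟩,⟨1,[(37,0),(0,0)]⟩⟩ ⟨true,1,⟨0,[(5,0),(13,0),(16,0)]⟩,⟨0,
  [(1,0),(5,0),(3,0),(3,0)]⟩⟩,.o ⟨false,(-1),⟨0,[(1,0)]⟩,⟨1,[(19,1),(10,0),(6,0)]⟩⟩]⟩))

theorem ok149 : chk K t149 l84 = true := by decide +kernel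

noncomputable def t150 : Tre :=
  (.I [0,-1,2,2,0,0,0,-1] (.S ⟨1,0,[0,0,-1,-1,0,0,0,1],[0,-1,1],[1,1,-1,-2,0,0,0,1],(⟨0,[(19,0)]⟩,
  ⟨0,[(29,0),(3,0)]⟩),⟨0,[(5,0)]⟩,.k,(.r (-1) ⟨0,[(9,0),(3,0)]⟩ ⟨0,[(0,0),(40,0)]⟩),⟨true,0,⟨0,[(36,
  0)]⟩,⟨0,[(37,0)]⟩⟩,⟨false,1,⟨1,[(20,0),(0,0),(17,0)]⟩,⟨0,[]⟩⟩,⟨false,0,⟨0,[]⟩,⟨1,[(20,0),(0,0),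
  (17,0)]⟩⟩,⟨true,0,⟨0,[(37,0)]⟩,⟨0,[(36,0)]⟩⟩,[.a ⟨true,0,⟨0,[(8,1),(2,0),(0,1),(3,0)]⟩,⟨0,[(11,0),
  (25,1)]⟩⟩ ⟨true,0,⟨0,[(8,0),(4,0)]⟩,⟨0,[(0,0)]⟩⟩ ⟨false,1,⟨0,[(9,0),(4,0)]⟩,⟨10,[(0,6),(5,1),(7,
  0),(2,1),(8,1),(7,0)]⟩⟩,.o ⟨false,1,⟨1,[(8,0),(0,0),(2,0),(0,0),(13,0),(11,0)]⟩,⟨0,[(6,0),(30,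
  1)]⟩⟩,.o ⟨false,0,⟨0,[(27,0)]⟩,⟨4,[(1,2),(7,0),(16,0),(1,0),(2,0)]⟩⟩,.o ⟨false,0,⟨1,[(27,2),(0,
  0)]⟩,⟨0,[(1,0)]⟩⟩]⟩) (.Q [0,0,-1,1,1,0,1,1,-1,0,-1,1] (.p false [0,0,1] [0,0,0,0,1] (⟨0,[(30,0)]⟩,
  ⟨0,[(29,0)]⟩) .k 2 (⟨0,[(23,0)]⟩,⟨0,[(22,0)]⟩) .k (.r (-1) ⟨0,[(9,0)]⟩ ⟨0,[(12,0),(13,0)]⟩)) (.Q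
  [0,-1,0,0,1,0,1,1,-1,0,-1,1] (.p false [0,0,1] [0,0,0,0,1] (⟨0,[(31,0)]⟩,⟨0,[(30,0)]⟩) .k 2 (⟨0,
  [(24,0)]⟩,⟨0,[(23,0)]⟩) .k (.r (-1) ⟨0,[(10,0)]⟩ ⟨0,[(13,0),(13,0)]⟩)) (.Q [0,0,0,0,0,0,0,0,0,0,1,
  -1] (.ed true [1,0,-1,0,1] (.r 0 ⟨0,[(14,0),(13,0)]⟩ ⟨0,[(11,0)]⟩)) (.Q [0,0,1,0,0,0,0,0,-1,0,0,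
  1] (.p true [0,0,0,0,1] [] (⟨0,[(26,0)]⟩,⟨0,[(25,0)]⟩) .k 0 (⟨0,[]⟩,⟨0,[]⟩) .k .k) (.R ⟨1,false,
  false,true,[1,0,0,0,-1],[0,0,1,0,-1],[],(⟨0,[(26,0)]⟩,⟨0,[(27,0)]⟩),(⟨0,[(1,0)]⟩,⟨0,[(27,0),(5,
  0)]⟩),⟨1,[(1,0),(9,0),(14,0)]⟩,.k,.k,(.r (-1) ⟨1,[(19,0),(20,0),(2,0)]⟩ ⟨1,[(12,0),(17,0),(0,0),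
  (9,1),(3,0)]⟩),.k,.k,.k,⟨true,0,⟨0,[(15,0),(0,0),(24,0)]⟩,⟨0,[(12,0)]⟩⟩,⟨false,0,⟨0,[(28,0)]⟩,⟨4,
  [(5,0),(7,1),(16,1),(1,1),(2,1)]⟩⟩,⟨true,0,⟨0,[(45,0)]⟩,⟨0,[]⟩⟩,⟨false,0,⟨0,[(14,0)]⟩,⟨1,[(15,1),
  (19,0),(5,1),(1,0)]⟩⟩,⟨false,0,⟨0,[(41,0)]⟩,⟨0,[(40,0),(2,0)]⟩⟩,⟨false,0,⟨0,[(14,0),(26,0)]⟩,⟨1,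
  [(15,1),(19,0),(7,0)]⟩⟩,[.e ⟨false,1,⟨1,[(24,0),(0,0),(16,0)]⟩,⟨0,[]⟩⟩ ⟨false,0,⟨0,[(12,0),(3,0),
  (3,0)]⟩,⟨1,[(30,1),(4,0),(7,0)]⟩⟩,.o ⟨false,1,⟨0,[(2,0)]⟩,⟨0,[(10,0),(14,0),(15,0)]⟩⟩,.o ⟨false,1,
  ⟨1,[(0,0),(5,0),(28,0)]⟩,⟨0,[(25,0)]⟩⟩,.a ⟨true,0,⟨0,[(0,0)]⟩,⟨9,[(7,3),(5,1),(6,4),(0,0),(3,5),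
  (4,1),(12,1)]⟩⟩ ⟨false,1,⟨1,[(42,0),(0,0)]⟩,⟨1,[(31,0),(0,0)]⟩⟩ ⟨true,0,⟨0,[(12,0),(3,0),(3,0)]⟩,
  ⟨1,[(10,1),(20,0),(0,0),(8,1)]⟩⟩]⟩) (.I [1,2,1,0,-1] (.S ⟨1,0,[],[1,0,0,0,-1],[0,-1],(⟨0,[(27,
  0)]⟩,⟨0,[(28,0)]⟩),⟨1,[(2,0),(9,0),(14,0)]⟩,.k,(.r (-1) ⟨1,[(20,0),(20,0),(2,0)]⟩ ⟨1,[(0,0),(13,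
  0),(16,0),(0,0),(9,1)]⟩),⟨false,1,⟨1,[(25,0),(0,0),(17,0)]⟩,⟨0,[]⟩⟩,⟨true,0,⟨0,[(46,0)]⟩,⟨0,[]⟩⟩,
  ⟨true,0,⟨0,[(42,0)]⟩,⟨0,[(41,0)]⟩⟩,⟨false,0,⟨0,[(42,0)]⟩,⟨0,[(41,0),(2,0)]⟩⟩,[.o ⟨false,1,⟨0,[(3,
  0),(7,0),(30,0)]⟩,⟨0,[(26,0)]⟩⟩,.a ⟨true,1,⟨0,[(3,0),(12,0),(25,0)]⟩,⟨0,[(8,0)]⟩⟩ ⟨true,1,⟨0,[(44,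
  0)]⟩,⟨0,[(0,0)]⟩⟩ ⟨false,1,⟨1,[(43,0),(0,0)]⟩,⟨0,[(46,0)]⟩⟩,.o ⟨false,1,⟨0,[(3,0),(7,0),(30,0)]⟩,
  ⟨0,[(26,0)]⟩⟩,.o ⟨false,1,⟨1,[(3,1),(7,1),(20,0),(0,0),(8,1)]⟩,⟨0,[(1,0)]⟩⟩]⟩) (.Q [0,0,0,0,0,-1,
  0,0,0,1,-1,-1] (.p false [0,0,1] [1,0,0,0,-1] (⟨0,[(35,0)]⟩,⟨0,[(34,0)]⟩) .k 2 (⟨0,[(27,0)]⟩,⟨0,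
  [(28,0)]⟩) .k (.r 0 ⟨4,[(5,0),(7,3),(25,1),(2,1)]⟩ ⟨3,[(16,1),(5,1),(8,1),(4,0),(5,1),(1,2)]⟩))
  (.Q [0,0,-1,0,1,0,0,0,-1,-1,0,1] (.p true [0,0,0,0,1] [1] (⟨0,[(29,0)]⟩,⟨0,[(28,0)]⟩) .k 1 (⟨0,
  []⟩,⟨0,[]⟩) .k .k) (.R ⟨1,false,false,false,[1,0,-1,0,-1],[1,0,0,0,-1],[0,0,0,0,0,0,0,-1],(⟨0,[(1,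
  0),(38,0)]⟩,⟨0,[(30,0),(6,0)]⟩),(⟨0,[(29,0)]⟩,⟨0,[(30,0)]⟩),⟨0,[(1,0)]⟩,.k,.k,(.r (-1) ⟨3,[(2,1),
  (15,2),(3,0),(1,1),(8,0),(4,0)]⟩ ⟨0,[(15,0),(28,0),(3,0)]⟩),.k,.k,.k,⟨false,0,⟨1,[(13,0),(5,1),(3,
  0),(9,0),(10,0)]⟩,⟨0,[(16,0)]⟩⟩,⟨true,0,⟨0,[(19,0)]⟩,⟨0,[(35,0)]⟩⟩,⟨true,0,⟨0,[(48,0)]⟩,⟨0,[]⟩⟩,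
  ⟨false,1,⟨0,[(16,0),(2,0)]⟩,⟨0,[(18,0),(25,0)]⟩⟩,⟨false,0,⟨0,[(44,0)]⟩,⟨0,[(43,0),(2,0)]⟩⟩,⟨false,
  1,⟨1,[(6,0),(8,0),(3,0),(8,0),(15,0),(1,0)]⟩,⟨0,[(18,0)]⟩⟩,[.a ⟨true,1,⟨0,[(5,0),(12,0),(25,0)]⟩,
  ⟨0,[(10,0)]⟩⟩ ⟨true,0,⟨0,[(18,0),(0,0),(24,0)]⟩,⟨0,[(15,0)]⟩⟩ ⟨false,1,⟨3,[(2,1),(21,1),(13,0),(6,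
  0)]⟩,⟨7,[(7,0),(5,0),(9,0),(11,6),(5,2),(2,2)]⟩⟩,.e ⟨false,1,⟨0,[(2,0),(16,0),(13,0)]⟩,⟨4,[(7,0),
  (7,3),(25,1),(2,1)]⟩⟩ ⟨false,1,⟨0,[(2,0),(16,0)]⟩,⟨0,[(35,0),(5,0)]⟩⟩,.o ⟨false,1,⟨0,[(0,0),(34,
  0)]⟩,⟨0,[(19,0),(8,0)]⟩⟩,.o ⟨false,1,⟨1,[(0,1),(33,0),(0,2)]⟩,⟨0,[(3,0),(15,0)]⟩⟩]⟩) (.Q [0,0,0,0,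
  1,0,-1,0,-1,-1,1,1] (.p true [0,0,1] [1,0,0,0,-1] (⟨0,[(37,0)]⟩,⟨0,[(36,0)]⟩) .k 2 (⟨0,[(29,0)]⟩,
  ⟨0,[(30,0)]⟩) .k (.r 0 ⟨4,[(7,0),(7,3),(25,1),(2,1)]⟩ ⟨3,[(18,1),(5,1),(8,1),(4,0),(5,1),(1,
  2)]⟩)) (.K ⟨0,[1,0,0,0,-1],1,1,(⟨0,[(30,0)]⟩,⟨0,[(31,0)]⟩),.k,(.r (-1) ⟨1,[(23,0),(20,0),(2,0)]⟩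
  ⟨1,[(16,0),(17,0),(0,0),(9,1),(3,0)]⟩),(.r (-1) ⟨3,[(17,1),(16,1),(0,2),(0,0),(8,3),(1,1)]⟩ ⟨0,
  [(43,0)]⟩),.k,.k,[⟨0,[(0,0)]⟩,⟨0,[(1,0)]⟩,⟨0,[(11,0),(37,0)]⟩,⟨0,[(0,0),(19,0)]⟩]⟩) (.S ⟨1,0,[0,0,
  0,0,0,0,0,-1],[1,0,-1,0,-1],[1,-1,0,-1,0,0,0,-1],(⟨0,[(2,0),(38,0)]⟩,⟨0,[(31,0),(6,0)]⟩),⟨0,[(2,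
  0)]⟩,.k,(.r (-1) ⟨3,[(3,1),(15,2),(3,0),(1,1),(8,0),(4,0)]⟩ ⟨0,[(16,0),(28,0),(3,0)]⟩),⟨false,1,
  ⟨0,[(44,0),(2,0)]⟩,⟨0,[(45,0)]⟩⟩,⟨true,0,⟨0,[(49,0)]⟩,⟨0,[]⟩⟩,⟨true,0,⟨0,[]⟩,⟨0,[(49,0)]⟩⟩,⟨false,
  0,⟨0,[(45,0)]⟩,⟨0,[(44,0),(2,0)]⟩⟩,[.o ⟨false,1,⟨0,[(6,0),(7,0),(4,0),(25,1)]⟩,⟨2,[(0,1),(3,0),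
  (11,0),(0,0),(15,0),(5,0)]⟩⟩,.e ⟨false,1,⟨0,[(3,0),(15,0),(0,0)]⟩,⟨0,[(16,0),(25,0),(2,0)]⟩⟩
  ⟨false,1,⟨0,[(3,0),(16,0),(13,0)]⟩,⟨4,[(8,0),(7,3),(25,1),(2,1)]⟩⟩,.a ⟨true,1,⟨0,[(10,0),(25,0)]⟩,
  ⟨0,[(0,0)]⟩⟩ ⟨false,1,⟨0,[(19,0),(0,0),(26,0)]⟩,⟨4,[(8,0),(7,3),(25,1),(2,6)]⟩⟩ ⟨true,0,⟨0,[(19,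
  0),(0,0),(24,0)]⟩,⟨4,[(8,0),(7,3),(25,1),(2,1)]⟩⟩,.o ⟨false,1,⟨0,[(6,0),(7,0),(21,0),(8,0)]⟩,⟨3,
  [(0,1),(3,1),(19,0),(0,0),(13,1)]⟩⟩]⟩))) (.Q [0,0,0,0,0,0,0,0,0,-1,1,1] (.ed false [0,0,1,0,1]
  (.r 0 ⟨4,[(6,0),(7,3),(25,1),(2,1)]⟩ ⟨3,[(17,1),(5,1),(8,1),(4,0),(5,1),(1,2)]⟩)) (.Q [0,-1,0,1,1,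
  0,0,0,-1,-1,0,1] (.p true [0,0,0,0,1] [1] (⟨0,[(30,0)]⟩,⟨0,[(29,0)]⟩) .k 1 (⟨0,[]⟩,⟨0,[]⟩) .k .k)
  (.R ⟨1,false,false,true,[1,0,-1],[2,0,-1,0,-1],[1,0,1],(⟨0,[(37,0)]⟩,⟨0,[(38,0)]⟩),(⟨0,[(30,0),(6,
  0)]⟩,⟨0,[(1,0)]⟩),⟨0,[(26,0)]⟩,.k,.k,.k,.k,(.r 0 ⟨0,[(43,0)]⟩ ⟨3,[(17,1),(16,1),(0,2),(0,0),(8,3),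
  (1,1)]⟩),.k,⟨true,0,⟨0,[(16,0)]⟩,⟨0,[(19,0),(0,0),(24,0)]⟩⟩,⟨false,1,⟨2,[(0,1),(6,0),(4,0),(9,
  0)]⟩,⟨4,[(11,3),(5,1),(7,0),(3,0),(4,1),(12,1)]⟩⟩,⟨true,0,⟨0,[(16,0)]⟩,⟨1,[(14,0),(5,1),(3,0),(9,
  0),(10,0)]⟩⟩,⟨true,1,⟨2,[(0,1),(11,0),(15,0),(4,0)]⟩,⟨0,[(11,0)]⟩⟩,⟨true,0,⟨0,[(16,0),(28,0)]⟩,⟨1,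
  [(14,1),(9,0),(0,0)]⟩⟩,⟨false,1,⟨0,[(0,0)]⟩,⟨0,[(18,0),(0,0),(9,0)]⟩⟩,[.o ⟨false,1,⟨0,[(0,0),(13,
  0)]⟩,⟨0,[(18,0),(10,0)]⟩⟩,.a ⟨true,1,⟨0,[(0,0),(18,0)]⟩,⟨0,[(11,0),(6,0)]⟩⟩ ⟨false,1,⟨1,[(28,0),
  (0,0),(17,0)]⟩,⟨2,[(22,0),(19,0),(2,0)]⟩⟩ ⟨true,1,⟨0,[(0,0),(18,0),(0,0)]⟩,⟨0,[(11,0),(4,0)]⟩⟩,.o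
  ⟨false,1,⟨4,[(9,0),(7,1),(16,1),(1,1),(2,1)]⟩,⟨0,[(20,0)]⟩⟩,.e ⟨true,0,⟨0,[]⟩,⟨0,[(49,0)]⟩⟩ ⟨true,
  1,⟨1,[(0,1),(13,1),(9,0),(0,0)]⟩,⟨0,[(11,0),(4,0)]⟩⟩]⟩) (.Q [0,1,0,1,-1,0,-1,-1,1,0,1,-1] (.p
  true [0,0,1] [0,0,0,0,1] (⟨0,[(38,0)]⟩,⟨0,[(37,0)]⟩) .k 2 (⟨0,[(31,0)]⟩,⟨0,[(30,0)]⟩) .k (.r (-1)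
  ⟨0,[(17,0)]⟩ ⟨0,[(20,0),(13,0)]⟩)) (.R ⟨1,false,false,false,[1,-1,0,0,-1],[1,-1,-1],[1],(⟨1,[(6,
  0),(9,0),(14,0)]⟩,⟨0,[(3,0),(34,0)]⟩),(⟨0,[(27,0)]⟩,⟨0,[(3,0),(27,0)]⟩),⟨0,[(6,0),(9,0)]⟩,(.r
  (-1) ⟨1,[(24,0),(20,0),(2,0)]⟩ ⟨3,[(0,1),(7,1),(8,1),(17,1),(0,2),(0,0)]⟩),.k,(.r (-1) ⟨0,[(22,0),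
  (25,0)]⟩ ⟨1,[(0,1),(7,1),(27,2),(0,2)]⟩),.k,(.r (-1) ⟨1,[(9,0),(8,0),(29,0)]⟩ ⟨0,[(35,0),(0,0),(9,
  0)]⟩),.k,⟨true,0,⟨0,[(17,0),(28,0)]⟩,⟨0,[(20,0),(0,0)]⟩⟩,⟨false,0,⟨2,[(0,1),(3,0),(0,0),(3,0),(8,
  0),(18,0)]⟩,⟨0,[(11,0),(24,0)]⟩⟩,⟨false,0,⟨1,[(36,0),(0,0),(8,1)]⟩,⟨1,[(24,0),(20,0),(2,0)]⟩⟩,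
  ⟨false,0,⟨2,[(0,0),(19,0),(9,1),(4,0),(12,0)]⟩,⟨0,[(7,0)]⟩⟩,⟨false,0,⟨1,[(36,0),(0,0),(8,3)]⟩,⟨3,
  [(9,1),(3,0),(6,0),(5,0),(18,0),(2,3)]⟩⟩,⟨true,(-1),⟨0,[(0,0)]⟩,⟨0,[(7,0),(37,0)]⟩⟩,[.a ⟨true,0,
  ⟨0,[(20,0)]⟩,⟨0,[(19,0),(26,0)]⟩⟩ ⟨true,0,⟨0,[]⟩,⟨1,[(36,0),(0,0)]⟩⟩ ⟨false,0,⟨1,[(0,0),(3,0),(0,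
  0),(14,0),(1,0)]⟩,⟨0,[(8,0),(27,0),(0,0)]⟩⟩,.o ⟨false,1,⟨1,[(20,1),(19,0),(7,0)]⟩,⟨0,[(34,0),(11,
  0)]⟩⟩,.o ⟨false,1,⟨1,[(7,1),(7,1),(20,0),(0,0),(8,1)]⟩,⟨0,[(5,0)]⟩⟩,.o ⟨false,1,⟨0,[(7,0),(7,0),
  (20,0),(0,0),(8,0)]⟩,⟨1,[(0,0),(3,0),(0,0),(3,0),(11,0),(24,0)]⟩⟩]⟩) (.Q [0,0,-1,0,0,0,1,0,-1,1,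
  -1,1] (.p true [1,0,-1,0,1] [] (⟨0,[(32,0),(5,0)]⟩,⟨0,[(6,0)]⟩) .k 0 (⟨0,[]⟩,⟨0,[]⟩) .k (.r 0 ⟨0,
  [(21,0),(13,0)]⟩ ⟨0,[(18,0)]⟩)) (.S ⟨1,0,[0,2,0,0,0,0,0,-1],[1,0,-1,0,1],[0,1,0,0,0,0,0,-1],(⟨0,
  [(33,0),(5,0)]⟩,⟨0,[(7,0)]⟩),⟨1,[(17,0),(15,1),(5,0)]⟩,.k,(.r 0 ⟨1,[(16,1),(9,0),(0,0)]⟩ ⟨1,[(19,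
  1),(17,0),(0,0),(8,1)]⟩),⟨false,1,⟨1,[(30,0),(0,0),(17,0)]⟩,⟨0,[]⟩⟩,⟨true,0,⟨0,[(51,0)]⟩,⟨0,[]⟩⟩,
  ⟨true,0,⟨0,[(47,0)]⟩,⟨0,[(46,0)]⟩⟩,⟨false,0,⟨0,[(47,0)]⟩,⟨0,[(46,0),(2,0)]⟩⟩,[.e ⟨false,0,⟨1,[(16,
  0),(5,1),(3,0),(9,0),(10,0)]⟩,⟨0,[(19,0)]⟩⟩ ⟨false,0,⟨3,[(16,0),(5,3),(3,0),(9,2),(7,1),(2,0)]⟩,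
  ⟨0,[(5,0),(12,0)]⟩⟩,.o ⟨false,0,⟨0,[(16,0),(14,0),(15,0)]⟩,⟨0,[(8,0)]⟩⟩,.e ⟨false,0,⟨0,[(21,0),(0,
  0),(24,0)]⟩,⟨0,[(19,0)]⟩⟩ ⟨false,0,⟨0,[(22,0),(13,0)]⟩,⟨0,[(5,0),(12,0)]⟩⟩,.a ⟨true,0,⟨0,[(31,0),
  (6,0)]⟩,⟨0,[(0,0)]⟩⟩ ⟨true,0,⟨1,[(16,0),(5,1),(3,0),(9,0),(10,0)]⟩,⟨0,[(18,0)]⟩⟩ ⟨false,0,⟨1,[(16,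
  0),(5,1),(3,0),(9,0),(10,0)]⟩,⟨0,[(18,0),(30,0)]⟩⟩]⟩) (.Q [0,0,0,0,0,0,-1,0,1,-1,1,-1] (.p false
  [1,0,-1,0,1] [] (⟨0,[(33,0),(5,0)]⟩,⟨0,[(7,0)]⟩) .k 0 (⟨0,[]⟩,⟨0,[]⟩) .k (.r 0 ⟨0,[(22,0),(13,
  0)]⟩ ⟨0,[(19,0)]⟩)) (.I [0,0,-1,-1,0,0,0,-2] (.R ⟨1,false,false,true,[1,0,-1,0,1],[0,1,1],[0,1,0,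
  0,0,0,0,-1],(⟨0,[(35,0),(5,0)]⟩,⟨0,[(9,0)]⟩),(⟨0,[(6,0),(27,0)]⟩,⟨0,[(30,0)]⟩),⟨1,[(19,0),(15,1),
  (5,0)]⟩,.k,.k,(.r 0 ⟨9,[(0,4),(24,0),(20,2),(1,2)]⟩ ⟨1,[(21,1),(17,0),(0,0),(8,1)]⟩),(.r 0 ⟨3,[(0,
  2),(17,0),(10,0),(8,0),(7,0)]⟩ ⟨0,[(20,0),(0,0),(27,0)]⟩),(.r 0 ⟨4,[(0,4),(24,1),(20,0),(1,0)]⟩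
  ⟨1,[(20,1),(0,1),(17,0),(0,0),(8,3)]⟩),.k,⟨true,0,⟨0,[(0,0)]⟩,⟨0,[(20,1),(28,0)]⟩⟩,⟨false,1,⟨12,
  [(0,3),(2,0),(7,6),(2,4),(10,0),(2,3),(0,8)]⟩,⟨0,[(1,0),(38,0)]⟩⟩,⟨false,1,⟨1,[(32,0),(0,0),(17,
  0)]⟩,⟨0,[]⟩⟩,⟨false,1,⟨0,[(10,0),(11,0),(26,0)]⟩,⟨1,[(0,0),(0,0),(0,0),(20,1),(25,0)]⟩⟩,⟨true,0,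
  ⟨0,[(49,0)]⟩,⟨0,[(48,0)]⟩⟩,⟨false,1,⟨0,[(10,0),(11,0),(26,1)]⟩,⟨0,[(1,0),(21,1),(0,0)]⟩⟩,[.o
  ⟨false,0,⟨0,[(37,0),(11,0)]⟩,⟨1,[(23,1),(19,0),(7,0)]⟩⟩,.a ⟨true,0,⟨0,[(22,0),(26,0)]⟩,⟨0,[(23,
  0)]⟩⟩ ⟨true,0,⟨3,[(0,1),(38,0),(0,0),(8,1)]⟩,⟨0,[(20,0)]⟩⟩ ⟨false,1,⟨5,[(11,3),(10,1),(5,0),(0,2),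
  (2,1),(16,1)]⟩,⟨0,[(1,0),(21,0)]⟩⟩,.o ⟨false,0,⟨0,[(1,0)]⟩,⟨16,[(0,2),(2,0),(7,5),(4,0),(12,0),(2,
  9),(6,8)]⟩⟩,.o ⟨false,0,⟨0,[(2,0)]⟩,⟨16,[(0,5),(2,1),(7,11),(4,1),(12,1),(2,2),(6,0)]⟩⟩]⟩) (.I [0,
  0,1,1,0,0,0,2] (.Q [0,0,0,0,0,0,-2,0,1,-1,2,-1] (.p true [0,0,1] [1,0,-1,0,1] (⟨0,[(43,0)]⟩,⟨0,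
  [(42,0)]⟩) .k 2 (⟨0,[(36,0),(5,0)]⟩,⟨0,[(10,0)]⟩) .k (.r (-1) ⟨3,[(0,1),(12,0),(8,2),(29,0)]⟩ ⟨0,
  [(24,0),(0,1),(13,0),(10,0)]⟩)) (.R ⟨1,false,false,true,[1,0,-1,0,1],[0,0,1],[1,1,0,-1,0,0,0,-1],
  (⟨0,[(37,0),(5,0)]⟩,⟨0,[(11,0)]⟩),(⟨0,[(44,0)]⟩,⟨0,[(43,0)]⟩),⟨1,[(21,0),(15,1),(5,0)]⟩,.k,.k,(.r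
  0 ⟨1,[(20,1),(9,0),(0,0)]⟩ ⟨1,[(1,0),(21,0),(16,0),(0,0),(9,0),(1,0)]⟩),.k,(.r 0 ⟨1,[(20,0),(4,1),
  (0,3),(3,0),(9,0),(10,0)]⟩ ⟨3,[(1,2),(21,2),(16,0),(0,0),(9,0),(1,0)]⟩),.k,⟨true,0,⟨0,[(25,1),(0,
  1),(24,0)]⟩,⟨0,[(1,0)]⟩⟩,⟨false,1,⟨0,[(16,0),(14,0)]⟩,⟨0,[(0,0)]⟩⟩,⟨false,1,⟨0,[(50,0),(2,0)]⟩,⟨0,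
  [(51,0)]⟩⟩,⟨false,1,⟨0,[(12,0),(11,0)]⟩,⟨0,[(3,0),(21,1),(0,0),(24,1)]⟩⟩,⟨true,0,⟨0,[]⟩,⟨0,[(55,
  0)]⟩⟩,⟨false,1,⟨0,[(12,0),(11,0),(26,0)]⟩,⟨0,[(3,0),(21,1),(0,0),(24,0)]⟩⟩,[.o ⟨false,0,⟨0,[(39,
  0)]⟩,⟨1,[(25,1),(19,0),(5,1),(1,0)]⟩⟩,.a ⟨true,0,⟨0,[(24,0)]⟩,⟨0,[(25,0),(25,0)]⟩⟩ ⟨true,0,⟨0,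
  [(25,0),(0,0)]⟩,⟨3,[(1,1),(39,0),(0,0),(8,1)]⟩⟩ ⟨false,1,⟨13,[(5,3),(7,3),(2,5),(7,5),(5,0),(0,6),
  (16,1)]⟩,⟨0,[(3,0),(21,0),(25,0)]⟩⟩,.o ⟨false,0,⟨0,[(3,0)]⟩,⟨0,[(16,0),(24,0)]⟩⟩,.o ⟨false,0,⟨0,
  [(4,0)]⟩,⟨0,[(16,0),(9,0)]⟩⟩]⟩) (.R ⟨1,false,false,true,[1,0,-1],[0,0,1,0,-1],[0,1,0,0,0,0,0,-1],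
  (⟨0,[(43,0)]⟩,⟨0,[(44,0)]⟩),(⟨0,[(11,0)]⟩,⟨0,[(37,0),(5,0)]⟩),⟨0,[(32,0)]⟩,.k,.k,.k,.k,(.r 0 ⟨0,
  [(0,0),(9,0),(9,0),(4,0),(25,0)]⟩ ⟨3,[(1,2),(21,2),(16,0),(0,0),(9,0),(1,0)]⟩),.k,⟨false,0,⟨0,[(0,
  0),(9,0),(9,0),(4,0),(25,1)]⟩,⟨3,[(1,1),(12,0),(8,2),(29,0)]⟩⟩,⟨true,0,⟨0,[(0,0)]⟩,⟨0,[(3,0),(38,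
  0)]⟩⟩,⟨true,0,⟨0,[(55,0)]⟩,⟨0,[]⟩⟩,⟨false,1,⟨0,[(12,0),(11,0)]⟩,⟨0,[(3,0),(21,1),(0,0),(24,1)]⟩⟩,
  ⟨false,0,⟨0,[(51,0)]⟩,⟨0,[(50,0),(2,0)]⟩⟩,⟨false,1,⟨1,[(0,0),(0,0),(11,0),(10,0),(28,0)]⟩,⟨0,[(3,
  0),(21,1),(0,0),(24,0)]⟩⟩,[.o ⟨false,1,⟨12,[(1,0),(3,3),(7,2),(20,5),(4,3),(1,1)]⟩,⟨0,[(3,0),(21,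
  0),(0,0),(24,0)]⟩⟩,.o ⟨false,1,⟨0,[(12,0)]⟩,⟨0,[(20,0),(14,0),(15,0)]⟩⟩,.o ⟨false,1,⟨2,[(4,1),(10,
  0),(18,1)]⟩,⟨0,[(26,0)]⟩⟩,.a ⟨true,0,⟨0,[(42,0)]⟩,⟨0,[(38,0)]⟩⟩ ⟨true,0,⟨3,[(0,1),(9,1),(9,2),(9,
  0),(9,0),(10,2)]⟩,⟨0,[(22,0)]⟩⟩ ⟨false,1,⟨5,[(0,1),(4,1),(3,1),(3,1),(10,1),(5,0),(0,0)]⟩,⟨0,[(4,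
  0),(20,0),(25,0)]⟩⟩]⟩)) (.N [0,1,2] 0 ⟨0,[(1,0)]⟩ ⟨0,[(0,0)]⟩ (.x 0 ⟨1,[(7,1),(2,1),(14,1),(3,0),
  (0,0)]⟩ ⟨1,[(1,0),(6,0),(10,1),(0,0),(20,1),(0,2),(1,0),(5,0)]⟩)))) (.Q [0,0,0,0,0,0,-2,-1,1,-1,2,
  -1] (.p true [0,0,1] [1,0,-1,0,1] (⟨0,[(41,0)]⟩,⟨0,[(40,0)]⟩) .k 2 (⟨0,[(34,0),(5,0)]⟩,⟨0,[(8,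
  0)]⟩) .k (.r (-1) ⟨12,[(6,4),(0,1),(2,1),(0,0),(0,1),(6,18),(0,3),(6,1)]⟩ ⟨0,[(22,0),(0,1),(13,0),
  (10,0)]⟩)) (.R ⟨1,false,false,true,[1,0,-1],[0,0,1,0,-1],[0,1,0,0,0,0,0,-1],(⟨0,[(41,0)]⟩,⟨0,[(42,
  0)]⟩),(⟨0,[(9,0)]⟩,⟨0,[(35,0),(5,0)]⟩),⟨0,[(30,0)]⟩,.k,.k,.k,.k,(.r 0 ⟨1,[(18,0),(4,1),(0,3),(3,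
  0),(9,0),(10,0)]⟩ ⟨0,[(20,0),(0,0),(27,0)]⟩),.k,⟨false,0,⟨1,[(18,0),(4,1),(0,3),(3,0),(9,0),(10,
  2)]⟩,⟨12,[(7,4),(0,1),(2,1),(0,0),(0,1),(6,18),(0,3),(6,1)]⟩⟩,⟨true,0,⟨0,[(1,0),(22,0)]⟩,⟨0,[(0,
  0),(19,0)]⟩⟩,⟨true,0,⟨0,[(53,0)]⟩,⟨0,[]⟩⟩,⟨false,1,⟨0,[(10,0),(11,0)]⟩,⟨0,[(0,0),(22,0),(0,0),(24,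
  0)]⟩⟩,⟨false,0,⟨0,[(49,0)]⟩,⟨0,[(48,0),(2,0)]⟩⟩,⟨false,1,⟨0,[(10,0),(11,0),(26,0)]⟩,⟨0,[(0,0),(22,
  0),(0,0)]⟩⟩,[.o ⟨false,1,⟨6,[(3,1),(7,1),(8,0),(11,2),(4,1),(1,0)]⟩,⟨0,[(0,0),(23,0)]⟩⟩,.o ⟨false,
  1,⟨0,[(10,0)]⟩,⟨1,[(0,0),(14,0),(8,0),(13,0),(4,0)]⟩⟩,.o ⟨false,1,⟨2,[(2,1),(10,0),(18,1)]⟩,⟨0,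
  [(24,0)]⟩⟩,.a ⟨true,0,⟨0,[(40,0)]⟩,⟨0,[(36,0)]⟩⟩ ⟨true,0,⟨1,[(18,0),(5,1),(3,0),(9,0),(10,0)]⟩,⟨0,
  [(20,0)]⟩⟩ ⟨false,1,⟨1,[(10,1),(17,0),(0,0)]⟩,⟨1,[(0,1),(38,0),(0,0)]⟩⟩]⟩) (.Q [0,2,0,0,-1,0,0,0,
  1,0,0,-1] (.p false [0,0,0,0,1] [] (⟨0,[(35,0)]⟩,⟨0,[(34,0)]⟩) .k 0 (⟨0,[]⟩,⟨0,[]⟩) .k .k) (.R ⟨1,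
  false,false,true,[1,0,-1,0,1],[0,0,0,0,1],[0,2,0,0,0,0,0,-1],(⟨0,[(36,0),(5,0)]⟩,⟨0,[(10,0)]⟩),
  (⟨0,[(36,0)]⟩,⟨0,[(35,0)]⟩),⟨1,[(20,0),(15,1),(5,0)]⟩,.k,.k,(.r 0 ⟨1,[(19,1),(9,0),(0,0)]⟩ ⟨1,
  [(22,1),(17,0),(0,0),(8,1)]⟩),.k,.k,.k,⟨true,0,⟨0,[(24,0),(0,0),(24,0)]⟩,⟨0,[(21,0)]⟩⟩,⟨false,0,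
  ⟨0,[(37,0)]⟩,⟨2,[(3,1),(10,0),(18,1)]⟩⟩,⟨true,0,⟨0,[(54,0)]⟩,⟨0,[]⟩⟩,⟨false,0,⟨0,[(23,0)]⟩,⟨1,
  [(24,1),(19,0),(5,1),(1,0)]⟩⟩,⟨false,0,⟨0,[(50,0)]⟩,⟨0,[(49,0),(2,0)]⟩⟩,⟨false,0,⟨0,[(23,0),(26,
  0)]⟩,⟨1,[(24,1),(19,0),(7,0)]⟩⟩,[.o ⟨false,(-1),⟨0,[(0,0)]⟩,⟨1,[(11,1),(12,1),(19,0),(5,1),(1,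
  0)]⟩⟩,.e ⟨false,0,⟨1,[(19,0),(5,1),(3,0),(9,0),(10,0)]⟩,⟨0,[(22,0)]⟩⟩ ⟨false,0,⟨9,[(23,1),(5,2),
  (0,4),(8,1),(7,3)]⟩,⟨0,[(8,0),(10,0),(1,0),(28,0)]⟩⟩,.a ⟨true,0,⟨1,[(3,0),(25,0),(4,0),(6,0)]⟩,⟨0,
  [(2,0)]⟩⟩ ⟨false,0,⟨0,[(25,0),(13,0)]⟩,⟨0,[(8,0),(12,0)]⟩⟩ ⟨true,(-1),⟨0,[(0,0),(1,0)]⟩,⟨0,[(8,0),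
  (10,0),(1,0),(28,0)]⟩⟩,.o ⟨false,0,⟨0,[(3,0)]⟩,⟨3,[(2,1),(12,1),(13,0),(0,0),(13,1)]⟩⟩]⟩) (.Q [0,
  0,0,0,0,0,-1,-1,1,-1,1,-1] (.p false [1,0,-1,0,1] [] (⟨0,[(36,0),(5,0)]⟩,⟨0,[(10,0)]⟩) .k 0 (⟨0,
  []⟩,⟨0,[]⟩) .k (.r 0 ⟨0,[(25,0),(13,0)]⟩ ⟨0,[(22,0)]⟩)) (.Q [0,0,0,0,1,0,-1,-1,-1,-2,1,1] (.p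
  true [-1,0,1,0,1] [1] (⟨0,[(7,0)]⟩,⟨0,[(36,0),(6,0)]⟩) .k 1 (⟨0,[]⟩,⟨0,[]⟩) .k (.r 0 ⟨4,[(14,0),
  (7,3),(25,1),(2,1)]⟩ ⟨7,[(0,1),(0,1),(29,3),(8,5),(4,0),(7,4)]⟩)) (.S ⟨1,0,[0,0,0,0,0,0,0,-1],[2,
  0,-1,0,-1],[1,-1,0,-1,0,0,0,-1],(⟨0,[(37,0),(6,0)]⟩,⟨0,[(8,0)]⟩),⟨1,[(22,0),(14,1),(6,0)]⟩,.k,(.r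
  (-1) ⟨5,[(0,0),(0,0),(24,2),(3,2),(1,2),(8,0),(12,1)]⟩ ⟨0,[(23,0),(28,0),(3,0)]⟩),⟨false,1,⟨0,
  [(51,0),(2,0)]⟩,⟨0,[(52,0)]⟩⟩,⟨true,0,⟨0,[(56,0)]⟩,⟨0,[]⟩⟩,⟨true,0,⟨0,[]⟩,⟨0,[(56,0)]⟩⟩,⟨false,0,
  ⟨0,[(52,0)]⟩,⟨0,[(51,0),(2,0)]⟩⟩,[.o ⟨false,1,⟨0,[(0,0)]⟩,⟨0,[(25,0),(10,0)]⟩⟩,.e ⟨false,1,⟨0,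
  [(10,0),(15,0),(0,0)]⟩,⟨0,[(23,0),(25,0),(2,0)]⟩⟩ ⟨false,1,⟨9,[(0,1),(0,1),(8,7),(20,0),(0,4),(8,
  5)]⟩,⟨4,[(15,0),(7,3),(25,1),(2,1)]⟩⟩,.a ⟨true,1,⟨22,[(0,11),(1,1),(11,7),(0,3),(1,0),(13,0),(11,
  18)]⟩,⟨0,[(2,0),(15,1),(8,0)]⟩⟩ ⟨false,1,⟨0,[(26,0),(0,0),(26,0)]⟩,⟨4,[(15,0),(7,3),(25,1),(2,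
  6)]⟩⟩ ⟨true,0,⟨0,[(1,0),(2,0)]⟩,⟨4,[(15,0),(7,3),(25,1),(2,1)]⟩⟩,.o ⟨false,1,⟨0,[(0,0),(22,0)]⟩,
  ⟨1,[(31,0),(0,0),(3,1)]⟩⟩]⟩) (.Q [0,2,0,1,-1,0,0,0,1,0,0,-1] (.p false [0,0,0,0,1] [] (⟨0,[(38,
  0)]⟩,⟨0,[(37,0)]⟩) .k 0 (⟨0,[]⟩,⟨0,[]⟩) .k .k) (.R ⟨1,false,false,true,[1,0,-1],[1,0,-1,0,1],[1,2,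
  0,0,0,0,0,-1],(⟨0,[(45,0)]⟩,⟨0,[(46,0)]⟩),(⟨0,[(39,0),(5,0)]⟩,⟨0,[(13,0)]⟩),⟨0,[(34,0)]⟩,.k,.k,.k,
  .k,(.r (-1) ⟨1,[(31,0),(20,0),(2,0)]⟩ ⟨1,[(0,0),(35,0),(6,0),(0,0),(8,0)]⟩),.k,⟨true,0,⟨0,[]⟩,⟨1,
  [(43,0),(0,0)]⟩⟩,⟨false,0,⟨0,[(12,0)]⟩,⟨0,[(36,0)]⟩⟩,⟨false,0,⟨0,[(57,0)]⟩,⟨0,[(55,0)]⟩⟩,⟨false,0,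
  ⟨0,[(37,0),(19,0)]⟩,⟨0,[(3,0)]⟩⟩,⟨false,0,⟨1,[(0,0),(35,0),(16,0)]⟩,⟨2,[(1,0),(0,0),(0,0),(3,0),
  (12,0),(34,1)]⟩⟩,⟨true,(-1),⟨0,[(0,0)]⟩,⟨3,[(3,0),(3,1),(19,1),(8,0)]⟩⟩,[.a ⟨true,(-1),⟨0,[(0,0),
  (26,0)]⟩,⟨3,[(1,0),(1,2),(0,0),(0,0),(19,1)]⟩⟩ ⟨false,0,⟨15,[(0,5),(4,5),(16,5),(9,6),(0,4),(8,9),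
  (4,5),(2,1)]⟩,⟨0,[(11,0),(12,0)]⟩⟩ ⟨true,(-1),⟨2,[(0,1),(1,1),(2,1),(2,0),(13,0),(5,0)]⟩,⟨0,[(3,
  0),(20,0)]⟩⟩,.o ⟨false,0,⟨8,[(0,1),(1,3),(17,0),(16,2),(4,3),(4,1)]⟩,⟨0,[(14,0)]⟩⟩,.o ⟨false,1,⟨2,
  [(6,1),(10,0),(18,1)]⟩,⟨0,[(28,0)]⟩⟩,.e ⟨false,0,⟨13,[(0,3),(1,7),(2,11),(16,3),(9,6),(0,0),(8,1),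
  (4,3)]⟩,⟨0,[(24,0),(30,0)]⟩⟩ ⟨false,0,⟨5,[(2,3),(9,1),(19,0),(0,2),(8,1),(7,1)]⟩,⟨0,[(3,0),(20,
  0)]⟩⟩]⟩) (.Q [0,0,0,1,0,0,1,1,-1,1,-1,1] (.p true [1,0,-1,0,1] [] (⟨0,[(39,0),(5,0)]⟩,⟨0,[(13,
  0)]⟩) .k 0 (⟨0,[]⟩,⟨0,[]⟩) .k (.r 0 ⟨0,[(28,0),(13,0)]⟩ ⟨0,[(25,0)]⟩)) (.R ⟨2,true,false,false,[0,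
  1],[1,0,-1,0,1],[1,0,1],(⟨0,[]⟩,⟨0,[]⟩),(⟨0,[(40,0),(5,0)]⟩,⟨0,[(14,0)]⟩),⟨0,[]⟩,.k,.k,.k,(.r
  (-1) ⟨1,[(26,1),(17,0),(0,0),(8,1)]⟩ ⟨1,[(23,1),(9,0),(0,0)]⟩),.k,.k,⟨false,1,⟨0,[(26,0)]⟩,⟨2,[(3,
  1),(2,1),(16,0),(5,0),(3,0),(17,0),(2,0)]⟩⟩,⟨true,0,⟨0,[(7,0)]⟩,⟨0,[(6,0)]⟩⟩,⟨false,1,⟨0,[(53,0),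
  (2,0)]⟩,⟨0,[(54,0)]⟩⟩,⟨true,0,⟨9,[(3,3),(3,0),(13,4),(16,4),(4,0),(0,0),(6,1)]⟩,⟨0,[(0,0)]⟩⟩,
  ⟨true,0,⟨0,[]⟩,⟨0,[(58,0)]⟩⟩,⟨false,0,⟨0,[(3,0)]⟩,⟨0,[(6,0),(19,0)]⟩⟩,[]⟩) (.I [0,0,1,0,0,0,0,1]
  (.Q [0,0,0,2,0,0,1,1,-1,1,-1,1] (.p true [1,0,-1,0,1] [] (⟨0,[(41,0),(5,0)]⟩,⟨0,[(15,0)]⟩) .k 0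
  (⟨0,[]⟩,⟨0,[]⟩) .k (.r 0 ⟨0,[(30,0),(13,0)]⟩ ⟨0,[(27,0)]⟩)) (.R ⟨1,false,false,true,[1,-1],[0,0,1,
  0,-1],[1],(⟨0,[(51,0)]⟩,⟨0,[(52,0)]⟩),(⟨0,[(16,0)]⟩,⟨0,[(42,0),(5,0)]⟩),⟨2,[(24,0),(1,0),(24,1)]⟩,
  .k,.k,(.r (-1) ⟨0,[(34,0),(20,0)]⟩ ⟨0,[(0,0),(4,0),(40,0),(0,0)]⟩),(.r 0 ⟨1,[(25,1),(9,0),(0,0)]⟩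
  ⟨7,[(0,3),(8,3),(18,5),(16,1),(0,2),(0,0),(10,1)]⟩),(.r 0 ⟨0,[(23,0),(7,0),(3,0)]⟩ ⟨3,[(0,3),(8,
  3),(18,1),(16,1),(0,2),(0,0),(10,1)]⟩),.k,⟨true,0,⟨0,[(5,0),(2,0)]⟩,⟨0,[(1,0)]⟩⟩,⟨false,1,⟨1,[(21,
  1),(13,0),(0,0)]⟩,⟨0,[(9,0)]⟩⟩,⟨true,0,⟨1,[(0,0),(4,0),(40,0),(0,0)]⟩,⟨0,[(54,0)]⟩⟩,⟨false,1,⟨9,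
  [(0,4),(3,0),(3,1),(19,3),(7,0),(2,3),(18,2)]⟩,⟨0,[(2,0)]⟩⟩,⟨true,0,⟨1,[(0,1),(4,1),(40,0),(0,
  0)]⟩,⟨5,[(10,0),(0,0),(11,0),(8,2),(22,1)]⟩⟩,⟨true,0,⟨0,[(0,0)]⟩,⟨0,[(23,0),(16,0)]⟩⟩,[.o ⟨false,
  1,⟨6,[(1,0),(8,1),(7,1),(20,2),(4,1),(1,0)]⟩,⟨0,[(5,0)]⟩⟩,.o ⟨false,1,⟨0,[(17,0)]⟩,⟨4,[(5,3),(3,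
  0),(35,0),(0,0),(6,1)]⟩⟩,.a ⟨true,0,⟨1,[(46,0),(0,0)]⟩,⟨7,[(4,1),(1,0),(28,3),(3,0),(5,1)]⟩⟩
  ⟨true,0,⟨0,[]⟩,⟨0,[(60,0)]⟩⟩ ⟨false,1,⟨17,[(0,3),(7,3),(1,7),(17,5),(6,8),(0,0),(2,1),(18,1)]⟩,⟨1,
  [(5,1),(40,0),(0,0)]⟩⟩,.e ⟨false,1,⟨1,[(57,0),(0,0)]⟩,⟨1,[(46,0),(0,0)]⟩⟩ ⟨false,1,⟨4,[(0,0),(9,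
  2),(3,0),(3,0),(16,3)]⟩,⟨0,[(5,0),(40,0),(0,0)]⟩⟩]⟩) (.Q [0,0,1,0,0,0,-2,0,1,-1,2,-1] (.p true [0,
  0,1] [1,0,-1,0,1] (⟨0,[(49,0)]⟩,⟨0,[(48,0)]⟩) .k 2 (⟨0,[(42,0),(5,0)]⟩,⟨0,[(16,0)]⟩) .k (.r (-1)
  ⟨12,[(1,16),(2,1),(9,4),(3,1),(0,0),(0,3),(7,3)]⟩ ⟨0,[(5,0),(2,0),(22,0),(13,0)]⟩)) (.R ⟨1,false,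
  false,true,[1,0,-1],[0,0,1,0,-1],[0,1,0,0,0,0,0,-1],(⟨0,[(49,0)]⟩,⟨0,[(50,0)]⟩),(⟨0,[(17,0)]⟩,⟨0,
  [(43,0),(5,0)]⟩),⟨0,[(38,0)]⟩,.k,.k,.k,.k,(.r 0 ⟨1,[(6,1),(2,1),(16,1),(9,0),(0,0)]⟩ ⟨0,[(2,0),
  (26,0),(27,0)]⟩),.k,⟨false,0,⟨2,[(6,4),(2,4),(16,0),(5,0),(3,0),(17,0),(2,0)]⟩,⟨12,[(2,16),(2,1),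
  (9,4),(3,1),(0,0),(0,3),(7,3)]⟩⟩,⟨true,0,⟨0,[(9,0),(22,0)]⟩,⟨0,[(0,0)]⟩⟩,⟨true,0,⟨0,[(61,0)]⟩,⟨0,
  []⟩⟩,⟨false,1,⟨0,[(8,0),(20,0)]⟩,⟨0,[(6,0),(24,0),(25,0)]⟩⟩,⟨false,0,⟨0,[(57,0)]⟩,⟨10,[(1,2),(9,
  0),(17,5),(1,3),(5,2),(2,1),(18,1)]⟩⟩,⟨false,1,⟨1,[(2,0),(2,0),(1,0),(11,1),(27,0)]⟩,⟨0,[(6,0),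
  (24,0)]⟩⟩,[.o ⟨false,1,⟨6,[(2,0),(8,1),(7,1),(20,2),(4,1),(1,0)]⟩,⟨0,[(6,0)]⟩⟩,.o ⟨false,1,⟨0,
  [(18,0)]⟩,⟨4,[(6,3),(3,0),(35,0),(0,0),(6,1)]⟩⟩,.o ⟨false,1,⟨6,[(0,1),(20,0),(7,1),(10,1),(5,1),
  (4,1)]⟩,⟨0,[(32,0)]⟩⟩,.a ⟨true,0,⟨0,[(48,0)]⟩,⟨0,[(44,0)]⟩⟩ ⟨true,0,⟨2,[(6,1),(2,1),(16,0),(5,0),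
  (3,0),(17,0),(2,0)]⟩,⟨0,[(28,0)]⟩⟩ ⟨false,1,⟨19,[(5,1),(1,3),(0,1),(2,7),(3,1),(3,7),(16,4),(0,
  8)]⟩,⟨0,[(6,0),(41,0)]⟩⟩]⟩) (.R ⟨1,false,false,true,[1,0,-1,0,1],[0,1,1],[0,2,0,0,0,0,0,-1],(⟨0,
  [(43,0),(5,0)]⟩,⟨0,[(17,0)]⟩),(⟨0,[(14,0),(27,0)]⟩,⟨0,[(38,0)]⟩),⟨1,[(27,0),(15,1),(5,0)]⟩,.k,.k,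
  (.r 0 ⟨11,[(0,3),(0,2),(4,0),(19,1),(7,3),(2,1),(8,5)]⟩ ⟨1,[(29,1),(17,0),(0,0),(8,1)]⟩),(.r 0 ⟨1,
  [(0,1),(0,0),(4,0),(39,1)]⟩ ⟨0,[(2,0),(26,0),(27,0)]⟩),(.r 0 ⟨3,[(0,3),(0,2),(4,0),(19,1),(9,1),
  (9,1)]⟩ ⟨1,[(2,1),(26,1),(17,0),(0,0),(8,3)]⟩),.k,⟨false,0,⟨3,[(0,3),(0,0),(4,2),(19,1),(9,1),(9,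
  1)]⟩,⟨0,[(2,0),(26,0),(27,0)]⟩⟩,⟨true,0,⟨0,[(0,0)]⟩,⟨0,[(10,0),(37,0)]⟩⟩,⟨true,0,⟨0,[(61,0)]⟩,⟨0,
  []⟩⟩,⟨false,1,⟨1,[(2,0),(2,0),(1,0),(11,1),(27,0)]⟩,⟨0,[(6,0),(24,0)]⟩⟩,⟨false,0,⟨0,[(57,0)]⟩,⟨10,
  [(1,2),(9,0),(17,5),(1,3),(5,2),(2,1),(18,1)]⟩⟩,⟨false,1,⟨1,[(2,0),(2,0),(1,0),(11,1),(27,0),(9,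
  1)]⟩,⟨1,[(1,0),(4,0),(24,1)]⟩⟩,[.o ⟨false,0,⟨0,[(45,0),(11,0)]⟩,⟨1,[(31,1),(19,0),(7,0)]⟩⟩,.a
  ⟨true,0,⟨5,[(2,0),(2,2),(13,1),(20,0),(6,0),(9,3)]⟩,⟨0,[(31,0)]⟩⟩ ⟨false,0,⟨7,[(0,3),(5,3),(19,0),
  (9,0),(9,2),(7,1),(2,0)]⟩,⟨0,[(29,0)]⟩⟩ ⟨true,0,⟨0,[(8,0),(48,0)]⟩,⟨0,[(10,0),(20,0)]⟩⟩,.e ⟨false,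
  0,⟨6,[(0,1),(5,1),(39,4),(0,2),(6,0)]⟩,⟨0,[(2,0),(12,0)]⟩⟩ ⟨false,0,⟨0,[(8,0),(48,0)]⟩,⟨0,[(6,0),
  (22,0),(1,0)]⟩⟩,.o ⟨false,0,⟨0,[(10,0)]⟩,⟨3,[(0,0),(21,2),(14,0),(13,0)]⟩⟩]⟩))) (.R ⟨1,false,
  false,true,[2,0,-1,0,-1],[1,0,0,0,-1],[0,0,0,0,0,0,0,-1],(⟨0,[(40,0),(6,0)]⟩,⟨0,[(11,0)]⟩),(⟨0,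
  [(40,0)]⟩,⟨0,[(41,0)]⟩),⟨1,[(25,0),(14,1),(6,0)]⟩,.k,.k,(.r (-1) ⟨2,[(0,0),(21,0),(10,0),(1,0),(8,
  0),(12,1)]⟩ ⟨0,[(26,0),(28,0),(3,0)]⟩),.k,.k,.k,⟨true,0,⟨0,[(4,0),(2,0)]⟩,⟨0,[(26,0)]⟩⟩,⟨false,0,
  ⟨0,[(42,0)]⟩,⟨2,[(8,1),(10,0),(18,1)]⟩⟩,⟨true,0,⟨0,[(59,0)]⟩,⟨0,[]⟩⟩,⟨false,0,⟨0,[(28,0)]⟩,⟨3,[(4,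
  1),(0,1),(38,1),(4,0),(7,0)]⟩⟩,⟨false,0,⟨0,[(55,0)]⟩,⟨0,[(54,0),(2,0)]⟩⟩,⟨false,0,⟨3,[(3,1),(13,
  1),(27,0),(0,0),(8,1)]⟩,⟨1,[(29,1),(19,0),(7,0)]⟩⟩,[.o ⟨false,1,⟨2,[(5,0),(1,0),(9,0),(6,1),(1,0),
  (22,0),(5,0)]⟩,⟨0,[(39,0)]⟩⟩,.a ⟨true,1,⟨1,[(5,0),(32,0)]⟩,⟨0,[(21,0)]⟩⟩ ⟨false,1,⟨9,[(0,5),(34,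
  1),(8,3),(4,0),(6,1),(0,6)]⟩,⟨4,[(18,0),(7,3),(25,1),(2,1)]⟩⟩ ⟨true,0,⟨1,[(0,0),(2,0),(1,0),(39,
  0)]⟩,⟨0,[(24,0),(1,0),(28,0)]⟩⟩,.a ⟨true,1,⟨4,[(5,2),(11,1),(0,0),(5,4),(1,1),(19,1),(8,4)]⟩,⟨0,
  [(3,0),(0,0),(2,0)]⟩⟩ ⟨true,0,⟨0,[(4,0),(2,0)]⟩,⟨4,[(18,0),(7,3),(25,1),(2,1)]⟩⟩ ⟨false,0,⟨1,[(0,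
  0),(2,0),(1,0),(39,0)]⟩,⟨2,[(8,1),(10,0),(18,1)]⟩⟩,.a ⟨true,1,⟨2,[(5,0),(1,0),(9,0),(6,1),(1,0),
  (19,2),(2,0),(5,0)]⟩,⟨0,[(0,0),(2,0)]⟩⟩ ⟨false,1,⟨9,[(0,5),(34,1),(8,3),(4,0),(6,1),(0,6)]⟩,⟨0,
  [(26,0)]⟩⟩ ⟨true,0,⟨0,[(42,0)]⟩,⟨0,[(24,0),(1,0),(28,0)]⟩⟩]⟩))))) (.S ⟨1,0,[0,1,0,0,0,0,0,-1],[1,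
  0,-1,0,1],[1,2,0,-1,0,0,0,-1],(⟨0,[(37,0),(5,0)]⟩,⟨0,[(11,0)]⟩),⟨1,[(21,0),(15,1),(5,0)]⟩,.k,(.r
  0 ⟨1,[(20,1),(9,0),(0,0)]⟩ ⟨1,[(23,1),(17,0),(0,0),(8,1)]⟩),⟨true,0,⟨0,[(50,0)]⟩,⟨0,[(51,0)]⟩⟩,
  ⟨false,1,⟨1,[(34,0),(0,0),(17,0)]⟩,⟨0,[]⟩⟩,⟨false,0,⟨0,[]⟩,⟨1,[(34,0),(0,0),(17,0)]⟩⟩,⟨true,0,⟨0,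
  [(51,0)]⟩,⟨0,[(50,0)]⟩⟩,[.o ⟨false,0,⟨0,[(20,0),(14,0),(15,0)]⟩,⟨0,[(12,0)]⟩⟩,.a ⟨true,0,⟨0,[(25,
  0),(9,0),(15,0)]⟩,⟨0,[(0,0)]⟩⟩ ⟨false,0,⟨1,[(20,1),(9,0),(0,0)]⟩,⟨0,[(23,0),(27,0)]⟩⟩ ⟨true,0,⟨0,
  [(25,0),(0,0),(24,0)]⟩,⟨0,[(22,0)]⟩⟩,.e ⟨false,0,⟨1,[(18,0),(12,0),(8,0)]⟩,⟨0,[(9,0),(12,0),(28,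
  0)]⟩⟩ ⟨false,0,⟨0,[(25,0),(0,0),(24,0)]⟩,⟨0,[(23,0)]⟩⟩,.o ⟨false,0,⟨0,[(4,0)]⟩,⟨3,[(3,1),(12,1),
  (13,0),(0,0),(13,1)]⟩⟩]⟩)))))))) (.Q [0,1,0,1,-1,0,-1,-1,1,0,1,-1] (.p true [0,0,1] [0,0,0,0,1]
  (⟨0,[(37,0)]⟩,⟨0,[(36,0)]⟩) .k 2 (⟨0,[(30,0)]⟩,⟨0,[(29,0)]⟩) .k (.r (-1) ⟨0,[(16,0)]⟩ ⟨0,[(19,0),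
  (13,0)]⟩)) (.R ⟨1,false,false,false,[1,-1,0,0,-1],[1,-1,-1],[1],(⟨1,[(5,0),(9,0),(14,0)]⟩,⟨0,[(2,
  0),(34,0)]⟩),(⟨0,[(26,0)]⟩,⟨0,[(2,0),(27,0)]⟩),⟨0,[(5,0),(9,0)]⟩,(.r (-1) ⟨1,[(23,0),(20,0),(2,
  0)]⟩ ⟨1,[(16,0),(17,0),(0,0),(9,1),(3,0)]⟩),.k,(.r (-1) ⟨0,[(21,0),(25,0)]⟩ ⟨0,[(16,0),(17,0),(0,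
  0),(9,1)]⟩),.k,(.r (-1) ⟨1,[(8,0),(8,0),(29,0)]⟩ ⟨0,[(34,0),(0,0),(9,0)]⟩),.k,⟨true,0,⟨0,[(16,0),
  (28,0)]⟩,⟨0,[(19,0),(0,0)]⟩⟩,⟨false,0,⟨2,[(0,1),(2,0),(0,0),(3,0),(8,0),(18,0)]⟩,⟨0,[(10,0),(24,
  0)]⟩⟩,⟨false,0,⟨1,[(35,0),(0,0),(8,1)]⟩,⟨1,[(23,0),(20,0),(2,0)]⟩⟩,⟨false,0,⟨2,[(0,0),(18,0),(9,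
  1),(4,0),(12,0)]⟩,⟨0,[(6,0)]⟩⟩,⟨false,0,⟨1,[(35,0),(0,0),(8,3)]⟩,⟨3,[(8,1),(3,0),(6,0),(5,0),(18,
  0),(2,3)]⟩⟩,⟨true,(-1),⟨0,[(0,0)]⟩,⟨0,[(6,0),(37,0)]⟩⟩,[.a ⟨true,0,⟨0,[(19,0)]⟩,⟨0,[(18,0),(26,
  0)]⟩⟩ ⟨true,0,⟨0,[]⟩,⟨1,[(35,0),(0,0)]⟩⟩ ⟨false,0,⟨1,[(0,0),(2,0),(0,0),(14,0),(1,0)]⟩,⟨0,[(7,0),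
  (27,0),(0,0)]⟩⟩,.o ⟨false,1,⟨1,[(19,1),(19,0),(7,0)]⟩,⟨0,[(33,0),(11,0)]⟩⟩,.o ⟨false,1,⟨1,[(6,1),
  (7,1),(20,0),(0,0),(8,1)]⟩,⟨0,[(4,0)]⟩⟩,.o ⟨false,1,⟨0,[(6,0),(7,0),(20,0),(0,0),(8,0)]⟩,⟨1,[(0,
  0),(2,0),(0,0),(3,0),(11,0),(24,0)]⟩⟩]⟩) (.Q [0,0,0,0,1,0,-1,0,-1,-1,1,1] (.p true [0,0,1] [1,0,0,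
  0,-1] (⟨0,[(38,0)]⟩,⟨0,[(37,0)]⟩) .k 2 (⟨0,[(30,0)]⟩,⟨0,[(31,0)]⟩) .k (.r 0 ⟨4,[(8,0),(7,3),(25,
  1),(2,1)]⟩ ⟨3,[(19,1),(5,1),(8,1),(4,0),(5,1),(1,2)]⟩)) (.R ⟨0,false,false,true,[1,0,-1,0,-1],[1,
  0,0,0,-1],[1,1],(⟨0,[(2,0)]⟩,⟨0,[(3,0),(37,0)]⟩),(⟨0,[(31,0)]⟩,⟨0,[(32,0)]⟩),⟨0,[(3,0)]⟩,.k,.k,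
  (.r (-1) ⟨3,[(4,1),(15,2),(3,0),(1,1),(8,0),(4,0)]⟩ ⟨0,[(17,0),(28,0),(3,0)]⟩),.k,.k,.k,⟨false,0,
  ⟨2,[(23,0),(19,0),(2,0)]⟩,⟨1,[(29,0),(0,0),(17,0)]⟩⟩,⟨true,0,⟨0,[(21,0)]⟩,⟨0,[(37,0)]⟩⟩,⟨false,0,
  ⟨4,[(9,0),(7,3),(25,1),(2,1)]⟩,⟨0,[(20,0),(0,0),(24,0),(1,0)]⟩⟩,⟨true,0,⟨0,[(34,0)]⟩,⟨0,[(20,0),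
  (25,0)]⟩⟩,⟨false,0,⟨0,[]⟩,⟨0,[]⟩⟩,⟨false,0,⟨0,[]⟩,⟨0,[]⟩⟩,[.o ⟨false,1,⟨0,[(0,0),(20,0)]⟩,⟨0,[(30,
  0)]⟩⟩,.a ⟨true,1,⟨0,[(7,0),(12,0),(25,0)]⟩,⟨0,[(12,0)]⟩⟩ ⟨true,0,⟨0,[]⟩,⟨1,[(36,0),(0,0)]⟩⟩
  ⟨false,1,⟨3,[(4,1),(21,1),(13,0),(6,0)]⟩,⟨0,[(0,0),(11,0)]⟩⟩,.o ⟨false,1,⟨0,[(0,0)]⟩,⟨0,[(21,0),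
  (8,0)]⟩⟩,.o ⟨false,1,⟨1,[(0,1),(35,0),(0,0)]⟩,⟨0,[(5,0),(15,0)]⟩⟩]⟩) (.R ⟨0,false,false,true,[1,0,
  -1,0,-1],[1,0,0,0,-1],[0,-1,0,0,0,0,0,-1],(⟨0,[(2,0)]⟩,⟨0,[(3,0),(37,0)]⟩),(⟨0,[(31,0)]⟩,⟨0,[(32,
  0)]⟩),⟨0,[(3,0)]⟩,.k,.k,(.r (-1) ⟨3,[(4,1),(15,2),(3,0),(1,1),(8,0),(4,0)]⟩ ⟨0,[(17,0),(28,0),(3,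
  0)]⟩),.k,.k,.k,⟨false,1,⟨0,[(4,0),(16,0),(13,0)]⟩,⟨4,[(9,0),(7,3),(25,1),(2,1)]⟩⟩,⟨true,0,⟨0,[(21,
  0)]⟩,⟨0,[(37,0)]⟩⟩,⟨false,1,⟨1,[(29,0),(0,0),(17,0)]⟩,⟨0,[]⟩⟩,⟨true,0,⟨0,[(34,0)]⟩,⟨0,[(20,0),(25,
  0)]⟩⟩,⟨false,0,⟨0,[]⟩,⟨0,[]⟩⟩,⟨false,0,⟨0,[]⟩,⟨0,[]⟩⟩,[.o ⟨false,1,⟨0,[(7,0),(7,0),(30,0)]⟩,⟨0,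
  [(30,0)]⟩⟩,.e ⟨false,1,⟨0,[(4,0),(15,0),(0,0),(24,0)]⟩,⟨0,[(17,0),(25,0)]⟩⟩ ⟨false,1,⟨3,[(4,1),
  (21,1),(13,0),(6,0)]⟩,⟨7,[(9,0),(5,0),(9,0),(11,6),(5,2),(2,2)]⟩⟩,.a ⟨true,1,⟨0,[(11,0),(25,0)]⟩,
  ⟨0,[(0,0)]⟩⟩ ⟨false,1,⟨0,[(20,0),(0,0),(24,0),(1,0)]⟩,⟨4,[(9,0),(7,3),(25,1),(2,1)]⟩⟩ ⟨true,0,⟨0,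
  [(21,0)]⟩,⟨7,[(9,0),(5,0),(9,0),(11,6),(5,2),(2,2)]⟩⟩,.o ⟨false,1,⟨0,[(7,0),(7,0),(21,0),(8,0)]⟩,
  ⟨3,[(0,1),(4,1),(19,0),(0,0),(13,1)]⟩⟩]⟩))))))) (.Q [0,0,1,0,-1,0,0,0,1,1,0,-1] (.p false [0,0,0,
  0,1] [1] (⟨0,[(26,0)]⟩,⟨0,[(25,0)]⟩) .k 1 (⟨0,[]⟩,⟨0,[]⟩) .k .k) (.S ⟨1,0,[0,1],[0,0,0,0,1],[0,2],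
  (⟨0,[(27,0)]⟩,⟨0,[(26,0)]⟩),⟨1,[(1,0),(7,0),(17,0)]⟩,.k,(.r 0 ⟨0,[(39,0)]⟩ ⟨3,[(13,1),(16,1),(0,
  2),(0,0),(8,3),(1,1)]⟩),⟨true,0,⟨0,[(45,0)]⟩,⟨0,[]⟩⟩,⟨false,1,⟨1,[(24,0),(0,0),(17,0)]⟩,⟨0,[]⟩⟩,
  ⟨false,0,⟨0,[(41,0)]⟩,⟨0,[(40,0),(2,0)]⟩⟩,⟨true,0,⟨0,[(41,0)]⟩,⟨0,[(40,0)]⟩⟩,[.e ⟨false,0,⟨0,[(38,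
  0)]⟩,⟨0,[(43,0)]⟩⟩ ⟨false,0,⟨2,[(18,0),(19,0),(2,0)]⟩,⟨1,[(24,0),(0,0),(17,0)]⟩⟩,.o ⟨false,0,⟨0,
  [(25,0)]⟩,⟨0,[(2,0),(7,0),(30,0)]⟩⟩,.o ⟨false,0,⟨0,[(25,0)]⟩,⟨0,[(2,0),(7,0),(30,0)]⟩⟩,.a ⟨true,
  (-1),⟨0,[(0,0)]⟩,⟨0,[(6,0)]⟩⟩ ⟨false,0,⟨2,[(18,0),(19,0),(2,0)]⟩,⟨1,[(31,0),(0,0),(10,1)]⟩⟩ ⟨true,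
  0,⟨2,[(18,0),(19,0),(2,0)]⟩,⟨1,[(31,0),(0,0)]⟩⟩]⟩) (.Q [0,0,0,0,0,-1,0,0,0,0,-1,1] (.p false [0,0,
  1] [0,0,0,0,1] (⟨0,[(34,0)]⟩,⟨0,[(33,0)]⟩) .k 2 (⟨0,[(27,0)]⟩,⟨0,[(26,0)]⟩) .k (.r (-1) ⟨0,[(13,
  0)]⟩ ⟨0,[(16,0),(13,0)]⟩)) (.Q [0,0,0,0,0,0,-1,0,1,0,1,-1] (.p true [0,0,1] [0,0,0,0,1] (⟨0,[(35,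
  0)]⟩,⟨0,[(34,0)]⟩) .k 2 (⟨0,[(28,0)]⟩,⟨0,[(27,0)]⟩) .k (.r (-1) ⟨0,[(14,0)]⟩ ⟨0,[(17,0),(13,
  0)]⟩)) (.S ⟨1,0,[0,2,0,0,0,0,0,-1],[0,0,-1,0,1],[1,1,0,-1,0,0,0,-1],(⟨0,[(3,0)]⟩,⟨0,[(28,0),(7,
  0)]⟩),⟨0,[(1,0)]⟩,.k,(.r 0 ⟨1,[(12,1),(9,0),(0,0)]⟩ ⟨1,[(15,1),(17,0),(0,0),(8,1)]⟩),⟨false,1,⟨0,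
  [(42,0),(2,0)]⟩,⟨0,[(43,0)]⟩⟩,⟨true,0,⟨0,[(47,0)]⟩,⟨0,[]⟩⟩,⟨true,0,⟨0,[]⟩,⟨0,[(47,0)]⟩⟩,⟨false,0,
  ⟨0,[(43,0)]⟩,⟨0,[(42,0),(2,0)]⟩⟩,[.o ⟨false,(-1),⟨0,[(9,0),(2,0),(30,0)]⟩,⟨1,[(4,1),(32,0),(7,
  0)]⟩⟩,.a ⟨true,(-1),⟨0,[(9,0),(7,0),(25,0)]⟩,⟨0,[(4,0)]⟩⟩ ⟨true,0,⟨0,[(17,0),(0,0)]⟩,⟨0,[(14,0),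
  (28,0)]⟩⟩ ⟨false,0,⟨1,[(12,0),(5,1),(3,0),(9,0),(10,0)]⟩,⟨0,[(15,0)]⟩⟩,.o ⟨false,0,⟨0,[(0,0)]⟩,⟨0,
  [(2,0),(30,0)]⟩⟩,.o ⟨false,0,⟨0,[(27,0),(6,0)]⟩,⟨0,[(2,0),(15,0)]⟩⟩]⟩) (.Q [0,0,0,0,0,-1,0,0,0,1,
  0,-1] (.ed true [0,1,0,0,1] .k) (.R ⟨1,false,false,false,[1,0,0,0,-1],[1,0,1,0,-1],[],(⟨0,[(29,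
  0)]⟩,⟨0,[(30,0)]⟩),(⟨0,[(29,0),(7,0)]⟩,⟨0,[(4,0)]⟩),⟨0,[(0,0)]⟩,.k,.k,(.r (-1) ⟨1,[(22,0),(20,0),
  (2,0)]⟩ ⟨1,[(15,0),(17,0),(0,0),(9,1),(3,0)]⟩),.k,.k,.k,⟨false,0,⟨1,[(13,0),(5,1),(3,0),(9,0),(10,
  0)]⟩,⟨0,[(16,0)]⟩⟩,⟨true,0,⟨0,[(19,0)]⟩,⟨0,[(35,0)]⟩⟩,⟨true,0,⟨0,[(48,0)]⟩,⟨0,[]⟩⟩,⟨false,1,⟨0,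
  [(16,0),(2,0)]⟩,⟨0,[(18,0),(25,0)]⟩⟩,⟨false,0,⟨0,[(44,0)]⟩,⟨0,[(43,0),(2,0)]⟩⟩,⟨false,1,⟨1,[(6,0),
  (8,0),(3,0),(8,0),(15,0),(1,0)]⟩,⟨0,[(18,0)]⟩⟩,[.e ⟨false,1,⟨1,[(27,0),(0,0),(16,0)]⟩,⟨0,[]⟩⟩
  ⟨false,1,⟨3,[(6,0),(0,1),(7,0),(3,2),(8,0),(15,2),(1,2)]⟩,⟨0,[(33,0)]⟩⟩,.o ⟨false,2,⟨1,[(5,1),(32,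
  0),(7,0)]⟩,⟨0,[(10,0),(2,0),(30,0)]⟩⟩,.o ⟨false,1,⟨2,[(1,0),(1,0),(23,0),(7,0),(2,0)]⟩,⟨0,[(28,
  0)]⟩⟩,.a ⟨true,0,⟨0,[(1,0),(33,0)]⟩,⟨9,[(10,3),(5,1),(6,4),(0,0),(3,5),(4,1),(12,1)]⟩⟩ ⟨false,1,
  ⟨1,[(45,0),(0,0)]⟩,⟨1,[(34,0),(0,0)]⟩⟩ ⟨true,1,⟨3,[(6,0),(0,1),(7,0),(3,2),(8,0),(15,2),(1,2)]⟩,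
  ⟨0,[(1,0),(8,0),(2,0),(21,0),(8,0)]⟩⟩]⟩) (.R ⟨0,false,false,false,[1,0,0,0,-1],[1,0,1,0,-1],[0,0,
  0,-1],(⟨0,[(29,0)]⟩,⟨0,[(30,0)]⟩),(⟨0,[(29,0),(7,0)]⟩,⟨0,[(4,0)]⟩),⟨0,[(0,0)]⟩,.k,.k,(.r (-1) ⟨1,
  [(22,0),(20,0),(2,0)]⟩ ⟨1,[(15,0),(17,0),(0,0),(9,1),(3,0)]⟩),.k,.k,.k,⟨false,0,⟨1,[(13,1),(9,0),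
  (0,0)]⟩,⟨0,[(16,0),(27,0)]⟩⟩,⟨true,0,⟨0,[(19,0)]⟩,⟨0,[(35,0)]⟩⟩,⟨true,0,⟨0,[(43,0)]⟩,⟨0,[(44,
  0)]⟩⟩,⟨false,1,⟨0,[(16,0),(2,0)]⟩,⟨0,[(18,0),(25,0)]⟩⟩,⟨false,0,⟨0,[]⟩,⟨0,[]⟩⟩,⟨false,0,⟨0,[]⟩,⟨0,
  []⟩⟩,[.e ⟨false,1,⟨1,[(43,1),(1,0),(0,0)]⟩,⟨0,[(44,0)]⟩⟩ ⟨false,1,⟨3,[(6,0),(0,1),(7,0),(3,2),(8,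
  0),(15,2),(1,2)]⟩,⟨0,[(33,0)]⟩⟩,.o ⟨false,2,⟨1,[(5,1),(32,0),(7,0)]⟩,⟨0,[(10,0),(2,0),(30,0)]⟩⟩,
  .o ⟨false,1,⟨2,[(1,0),(1,0),(23,0),(7,0),(2,0)]⟩,⟨0,[(28,0)]⟩⟩,.a ⟨true,0,⟨0,[(1,0),(33,0)]⟩,⟨9,
  [(10,3),(5,1),(6,4),(0,0),(3,5),(4,1),(12,1)]⟩⟩ ⟨false,1,⟨1,[(22,0),(20,0),(2,0)]⟩,⟨1,[(34,0),(0,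
  0),(8,1)]⟩⟩ ⟨true,1,⟨3,[(6,0),(0,1),(7,0),(3,2),(8,0),(15,2),(1,2)]⟩,⟨0,[(1,0),(8,0),(2,0),(21,0),
  (8,0)]⟩⟩]⟩))) (.Q [0,0,-1,0,0,0,0,0,1,0,0,-1] (.p false [0,0,0,0,1] [] (⟨0,[(28,0)]⟩,⟨0,[(27,
  0)]⟩) .k 0 (⟨0,[]⟩,⟨0,[]⟩) .k .k) (.R ⟨0,false,false,true,[0,0,-1,0,1],[1,-1,-1],[1,1],(⟨0,[(3,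
  0)]⟩,⟨0,[(28,0),(7,0)]⟩),(⟨0,[(24,0)]⟩,⟨0,[(1,0),(27,0)]⟩),⟨0,[(1,0)]⟩,.k,.k,(.r 0 ⟨1,[(12,1),(9,
  0),(0,0)]⟩ ⟨1,[(15,1),(17,0),(0,0),(8,1)]⟩),(.r 0 ⟨1,[(14,0),(17,0),(0,0),(9,1),(3,0)]⟩ ⟨1,[(21,
  0),(20,0),(2,0)]⟩),.k,.k,⟨true,0,⟨0,[(14,0),(28,0)]⟩,⟨0,[(17,0),(0,0)]⟩⟩,⟨false,1,⟨1,[(2,1),(30,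
  0),(0,0)]⟩,⟨9,[(9,3),(5,1),(6,4),(0,0),(3,5),(4,1),(12,1)]⟩⟩,⟨false,1,⟨0,[(15,0)]⟩,⟨0,[(17,0),(0,
  0),(24,0)]⟩⟩,⟨true,1,⟨3,[(2,1),(1,1),(5,1),(22,0),(0,0)]⟩,⟨0,[(9,0),(33,0)]⟩⟩,⟨false,0,⟨0,[]⟩,⟨0,
  []⟩⟩,⟨false,0,⟨0,[]⟩,⟨0,[]⟩⟩,[.o ⟨false,0,⟨0,[(12,0)]⟩,⟨1,[(5,0),(8,0),(3,0),(8,0),(15,0),(1,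
  0)]⟩⟩,.a ⟨true,0,⟨0,[(17,0)]⟩,⟨0,[(16,0),(26,0)]⟩⟩ ⟨true,0,⟨0,[]⟩,⟨1,[(33,0),(0,0)]⟩⟩ ⟨false,1,⟨0,
  [(2,0),(14,0),(0,0)]⟩,⟨0,[(9,0),(5,0),(27,0)]⟩⟩,.o ⟨false,0,⟨0,[(0,0),(33,0)]⟩,⟨0,[(2,0),(30,
  0)]⟩⟩,.o ⟨false,0,⟨0,[(27,0),(6,0)]⟩,⟨0,[(2,0),(15,0)]⟩⟩]⟩) (.R ⟨1,false,false,false,[1,0,0,0,-1],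
  [1,0,1,0,-1],[],(⟨0,[(28,0)]⟩,⟨0,[(29,0)]⟩),(⟨0,[(28,0),(7,0)]⟩,⟨0,[(3,0)]⟩),⟨0,[(1,0),(11,0)]⟩,
  .k,.k,(.r (-1) ⟨1,[(21,0),(20,0),(2,0)]⟩ ⟨1,[(14,0),(17,0),(0,0),(9,1),(3,0)]⟩),.k,.k,.k,⟨false,0,
  ⟨1,[(12,0),(5,1),(3,0),(9,0),(10,0)]⟩,⟨0,[(15,0)]⟩⟩,⟨true,0,⟨0,[(18,0)]⟩,⟨0,[(34,0)]⟩⟩,⟨true,0,⟨0,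
  [(47,0)]⟩,⟨0,[]⟩⟩,⟨false,1,⟨0,[(15,0),(2,0)]⟩,⟨0,[(17,0),(25,0)]⟩⟩,⟨false,0,⟨0,[(43,0)]⟩,⟨0,[(42,
  0),(2,0)]⟩⟩,⟨false,1,⟨1,[(5,0),(8,0),(3,0),(8,0),(15,0),(1,0)]⟩,⟨0,[(17,0)]⟩⟩,[.e ⟨false,1,⟨1,
  [(26,0),(0,0),(16,0)]⟩,⟨0,[]⟩⟩ ⟨false,1,⟨3,[(5,0),(0,1),(7,0),(3,2),(8,0),(15,2),(1,2)]⟩,⟨0,[(32,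
  0)]⟩⟩,.o ⟨false,2,⟨1,[(4,1),(32,0),(7,0)]⟩,⟨0,[(9,0),(2,0),(30,0)]⟩⟩,.o ⟨false,1,⟨2,[(0,0),(1,0),
  (23,0),(10,0)]⟩,⟨0,[(27,0)]⟩⟩,.a ⟨true,0,⟨0,[(0,0)]⟩,⟨9,[(9,3),(5,1),(6,4),(0,0),(3,5),(4,1),(12,
  1)]⟩⟩ ⟨false,1,⟨1,[(44,0),(0,0)]⟩,⟨1,[(33,0),(0,0)]⟩⟩ ⟨true,1,⟨3,[(5,0),(0,1),(7,0),(3,2),(8,0),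
  (15,2),(1,2)]⟩,⟨0,[(0,0),(8,0),(2,0),(30,0)]⟩⟩]⟩))))) (.Q [0,0,0,0,0,0,0,0,0,0,1,-1] (.ed true [1,
  0,-1,0,1] (.r 0 ⟨0,[(14,0),(13,0)]⟩ ⟨0,[(11,0)]⟩)) (.Q [0,-1,0,1,1,0,1,1,-1,0,-1,1] (.p false [0,
  0,1] [0,0,0,0,1] (⟨0,[(33,0)]⟩,⟨0,[(32,0)]⟩) .k 2 (⟨0,[(26,0)]⟩,⟨0,[(25,0)]⟩) .k (.r (-1) ⟨0,[(12,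
  0)]⟩ ⟨0,[(15,0),(13,0)]⟩)) (.R ⟨1,true,false,true,[1,0,-1],[1,0,0,0,-1],[0,0,0,0,0,0,0,-1],(⟨0,
  [(33,0)]⟩,⟨0,[(34,0)]⟩),(⟨0,[(26,0)]⟩,⟨0,[(27,0)]⟩),⟨0,[(22,0)]⟩,.k,.k,.k,.k,(.r 0 ⟨1,[(10,1),(9,
  0),(0,0)]⟩ ⟨0,[(0,0),(24,0),(6,0)]⟩),.k,⟨true,0,⟨0,[(15,0),(0,0),(24,0)]⟩,⟨0,[(12,0)]⟩⟩,⟨false,1,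
  ⟨0,[(6,0),(9,0)]⟩,⟨0,[(2,0),(10,0)]⟩⟩,⟨false,1,⟨1,[(24,0),(0,0),(17,0)]⟩,⟨0,[]⟩⟩,⟨true,1,⟨0,[(0,
  0),(39,0)]⟩,⟨0,[(2,0)]⟩⟩,⟨true,0,⟨0,[(41,0)]⟩,⟨0,[(40,0)]⟩⟩,⟨false,1,⟨0,[(0,0)]⟩,⟨0,[(15,0),(9,
  0)]⟩⟩,[]⟩) (.Q [0,0,1,0,1,0,0,0,-1,-1,0,1] (.p true [0,0,0,0,1] [1] (⟨0,[(27,0)]⟩,⟨0,[(26,0)]⟩)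
  .k 1 (⟨0,[]⟩,⟨0,[]⟩) .k .k) (.Q [0,-1,0,2,1,0,1,1,-1,0,-1,1] (.p false [0,0,1] [0,0,0,0,1] (⟨0,
  [(35,0)]⟩,⟨0,[(34,0)]⟩) .k 2 (⟨0,[(28,0)]⟩,⟨0,[(27,0)]⟩) .k (.r (-1) ⟨0,[(14,0)]⟩ ⟨0,[(17,0),(13,
  0)]⟩)) (.R ⟨1,false,false,true,[1,-1,-1],[1,0,0,0,-1],[1],(⟨0,[(24,0)]⟩,⟨0,[(36,0),(2,0)]⟩),(⟨0,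
  [(28,0)]⟩,⟨0,[(29,0)]⟩),⟨0,[(13,0)]⟩,.k,.k,(.r (-1) ⟨1,[(10,0),(10,1),(1,0),(8,0)]⟩ ⟨1,[(14,1),
  (18,0),(0,0),(8,3)]⟩),(.r 0 ⟨1,[(12,1),(9,0),(0,0)]⟩ ⟨3,[(0,1),(14,1),(11,1),(5,0),(0,2)]⟩),(.r 0
  ⟨0,[(10,0),(7,0),(3,0)]⟩ ⟨1,[(0,1),(26,1),(5,0),(0,2)]⟩),.k,⟨true,0,⟨0,[]⟩,⟨1,[(33,0),(0,0)]⟩⟩,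
  ⟨false,1,⟨0,[(0,0),(9,0),(7,0),(3,0)]⟩,⟨0,[(27,0),(6,0)]⟩⟩,⟨true,0,⟨0,[(14,0),(28,0)]⟩,⟨1,[(12,1),
  (9,0),(0,0)]⟩⟩,⟨true,1,⟨1,[(0,0),(25,0),(4,0)]⟩,⟨0,[(2,0)]⟩⟩,⟨true,0,⟨0,[(14,0),(28,1)]⟩,⟨1,[(10,
  1),(11,0),(0,0)]⟩⟩,⟨false,1,⟨0,[(0,0)]⟩,⟨0,[(2,0),(39,0),(2,0)]⟩⟩,[.o ⟨false,1,⟨0,[(0,0),(9,0)]⟩,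
  ⟨0,[(27,0)]⟩⟩,.e ⟨false,1,⟨1,[(44,0),(0,0)]⟩,⟨0,[(47,0)]⟩⟩ ⟨false,2,⟨1,[(8,1),(13,0),(0,0),(13,0),
  (7,0)]⟩,⟨0,[(4,0),(9,0)]⟩⟩,.e ⟨true,0,⟨0,[]⟩,⟨0,[(47,0)]⟩⟩ ⟨true,1,⟨0,[(8,0),(9,0)]⟩,⟨0,[(4,0),(9,
  0)]⟩⟩,.a ⟨true,0,⟨1,[(33,0),(0,2)]⟩,⟨0,[(18,0),(3,0)]⟩⟩ ⟨false,1,⟨1,[(44,0),(0,0)]⟩,⟨1,[(33,0),(0,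
  0)]⟩⟩ ⟨true,1,⟨0,[(0,0),(9,0),(7,0),(3,0)]⟩,⟨1,[(4,1),(9,1),(18,0),(0,0)]⟩⟩]⟩) (.Q [0,0,0,0,1,0,0,
  0,-1,-1,0,1] (.p true [0,0,0,0,1] [1] (⟨0,[(29,0)]⟩,⟨0,[(28,0)]⟩) .k 1 (⟨0,[]⟩,⟨0,[]⟩) .k .k) (.Q
  [0,1,0,0,-1,0,0,0,1,0,0,-1] (.p false [0,0,0,0,1] [] (⟨0,[(30,0)]⟩,⟨0,[(29,0)]⟩) .k 0 (⟨0,[]⟩,⟨0,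
  []⟩) .k .k) (.R ⟨1,false,false,true,[1,0,-1],[1,0,0,0,-1],[0,0,0,0,0,0,0,-1],(⟨0,[(37,0)]⟩,⟨0,
  [(38,0)]⟩),(⟨0,[(30,0)]⟩,⟨0,[(31,0)]⟩),⟨0,[(26,0)]⟩,.k,.k,.k,.k,(.r 0 ⟨1,[(14,1),(9,0),(0,0)]⟩ ⟨1,
  [(17,1),(17,0),(0,0),(8,1)]⟩),.k,⟨true,0,⟨0,[(19,0),(0,0),(24,0)]⟩,⟨0,[(16,0)]⟩⟩,⟨false,1,⟨0,[(10,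
  0),(9,0)]⟩,⟨0,[(6,0),(10,0)]⟩⟩,⟨false,1,⟨1,[(28,0),(0,0),(17,0)]⟩,⟨0,[]⟩⟩,⟨true,1,⟨0,[(1,0),(16,
  0)]⟩,⟨0,[(6,0)]⟩⟩,⟨true,0,⟨0,[(45,0)]⟩,⟨0,[(44,0)]⟩⟩,⟨true,1,⟨1,[(7,1),(27,0),(0,0)]⟩,⟨0,[(4,
  0)]⟩⟩,[.o ⟨false,1,⟨0,[(1,0)]⟩,⟨0,[(29,0)]⟩⟩,.o ⟨false,2,⟨1,[(28,1),(10,0),(7,0)]⟩,⟨0,[(0,0)]⟩⟩,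
  .o ⟨false,1,⟨4,[(9,0),(7,1),(16,1),(1,1),(2,1)]⟩,⟨0,[(20,0)]⟩⟩,.a ⟨true,0,⟨0,[(36,0)]⟩,⟨0,[(32,
  0)]⟩⟩ ⟨false,1,⟨1,[(19,1),(4,0),(0,0),(13,0),(5,1),(1,0)]⟩,⟨0,[(16,0)]⟩⟩ ⟨true,1,⟨0,[(10,0),(9,
  0)]⟩,⟨0,[(0,0),(35,0)]⟩⟩]⟩) (.I [0,2,0,0,-1,0,0,-1] (.S ⟨1,0,[],[1,0,0,0,-1],[0,-1],(⟨0,[(31,0)]⟩,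
  ⟨0,[(32,0)]⟩),⟨1,[(6,0),(9,0),(14,0)]⟩,.k,(.r (-1) ⟨1,[(24,0),(20,0),(2,0)]⟩ ⟨1,[(36,0),(0,0),(8,
  1),(3,1)]⟩),⟨false,1,⟨1,[(29,0),(0,0),(17,0)]⟩,⟨0,[]⟩⟩,⟨true,0,⟨0,[(50,0)]⟩,⟨0,[]⟩⟩,⟨true,0,⟨0,
  [(46,0)]⟩,⟨0,[(45,0)]⟩⟩,⟨false,0,⟨0,[(46,0)]⟩,⟨0,[(45,0),(2,0)]⟩⟩,[.o ⟨false,1,⟨0,[(2,0)]⟩,⟨0,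
  [(30,0)]⟩⟩,.a ⟨true,1,⟨0,[(1,0)]⟩,⟨0,[(12,0)]⟩⟩ ⟨true,1,⟨0,[(48,0)]⟩,⟨0,[(0,0),(16,0)]⟩⟩ ⟨false,1,
  ⟨1,[(47,0),(0,0)]⟩,⟨0,[(50,0)]⟩⟩,.o ⟨false,1,⟨0,[(2,0)]⟩,⟨0,[(30,0)]⟩⟩,.o ⟨false,1,⟨0,[(4,0)]⟩,⟨1,
  [(7,0),(1,0),(11,0),(8,0),(15,1),(1,0)]⟩⟩]⟩) (.S ⟨1,0,[0,2,0,0,0,0,0,-1],[1,0,-1,0,1],[0,1,0,0,0,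
  0,0,-1],(⟨0,[(32,0),(5,0)]⟩,⟨0,[(6,0)]⟩),⟨1,[(16,0),(15,1),(5,0)]⟩,.k,(.r 0 ⟨1,[(15,1),(9,0),(0,
  0)]⟩ ⟨1,[(18,1),(17,0),(0,0),(8,1)]⟩),⟨false,1,⟨1,[(29,0),(0,0),(17,0)]⟩,⟨0,[]⟩⟩,⟨true,0,⟨0,[(50,
  0)]⟩,⟨0,[]⟩⟩,⟨true,0,⟨0,[(46,0)]⟩,⟨0,[(45,0)]⟩⟩,⟨false,0,⟨0,[(46,0)]⟩,⟨0,[(45,0),(2,0)]⟩⟩,[.e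
  ⟨false,0,⟨1,[(15,0),(5,1),(3,0),(9,0),(10,0)]⟩,⟨0,[(18,0)]⟩⟩ ⟨false,0,⟨3,[(15,0),(5,3),(3,0),(9,
  2),(7,1),(2,0)]⟩,⟨0,[(0,0)]⟩⟩,.a ⟨true,(-1),⟨0,[(7,0)]⟩,⟨0,[(1,0),(17,0)]⟩⟩ ⟨true,0,⟨0,[(20,0),(0,
  0),(24,0)]⟩,⟨0,[(17,0)]⟩⟩ ⟨false,0,⟨1,[(15,0),(5,1),(3,0),(9,0),(10,0)]⟩,⟨0,[(18,0)]⟩⟩,.e ⟨false,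
  0,⟨0,[(20,0),(0,0),(24,0)]⟩,⟨0,[(18,0)]⟩⟩ ⟨false,0,⟨0,[(21,0),(13,0)]⟩,⟨0,[(0,0)]⟩⟩,.o ⟨false,0,
  ⟨3,[(0,1),(6,3),(9,1),(18,0),(0,0),(2,1)]⟩,⟨0,[(11,0),(9,0)]⟩⟩]⟩))) (.R ⟨1,false,false,true,[1,0,
  0,0,-1],[0,0,1,0,-1],[],(⟨0,[(29,0)]⟩,⟨0,[(30,0)]⟩),(⟨0,[(4,0)]⟩,⟨0,[(30,0),(5,0)]⟩),⟨1,[(4,0),(9,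
  0),(14,0)]⟩,.k,.k,(.r (-1) ⟨1,[(22,0),(20,0),(2,0)]⟩ ⟨1,[(15,0),(17,0),(0,0),(9,1),(3,0)]⟩),.k,.k,
  .k,⟨true,0,⟨0,[(18,0),(0,0),(24,0)]⟩,⟨0,[(15,0)]⟩⟩,⟨false,0,⟨0,[(31,0)]⟩,⟨4,[(8,0),(7,1),(16,1),
  (1,1),(2,1)]⟩⟩,⟨true,0,⟨0,[(48,0)]⟩,⟨0,[]⟩⟩,⟨false,0,⟨0,[(17,0)]⟩,⟨1,[(18,1),(19,0),(5,1),(1,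
  0)]⟩⟩,⟨false,0,⟨0,[(44,0)]⟩,⟨0,[(43,0),(2,0)]⟩⟩,⟨false,0,⟨0,[(17,0),(26,0)]⟩,⟨1,[(18,1),(19,0),(7,
  0)]⟩⟩,[.o ⟨false,1,⟨0,[(9,0),(5,0),(3,0)]⟩,⟨1,[(5,1),(32,0),(7,0)]⟩⟩,.e ⟨false,1,⟨1,[(45,0),(0,
  0)]⟩,⟨0,[(48,0)]⟩⟩ ⟨false,1,⟨1,[(16,1),(6,0),(0,0)]⟩,⟨0,[(13,0),(30,0)]⟩⟩,.a ⟨true,1,⟨0,[(27,0)]⟩,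
  ⟨0,[(0,0)]⟩⟩ ⟨false,1,⟨1,[(27,0),(0,0),(17,0)]⟩,⟨0,[]⟩⟩ ⟨true,0,⟨0,[(17,0)]⟩,⟨0,[(13,0),(30,0)]⟩⟩,
  .o ⟨false,1,⟨0,[(2,0)]⟩,⟨1,[(0,0),(22,0),(4,0),(9,0)]⟩⟩]⟩))) (.R ⟨1,false,false,false,[1,0,-1,0,
  1],[0,0,0,0,1],[0,1,0,0,0,0,0,-1],(⟨0,[(28,0),(5,0)]⟩,⟨0,[(2,0)]⟩),(⟨0,[(28,0)]⟩,⟨0,[(27,0)]⟩),⟨1,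
  [(12,0),(15,1),(5,0)]⟩,.k,.k,(.r 0 ⟨1,[(11,1),(9,0),(0,0)]⟩ ⟨1,[(14,1),(17,0),(0,0),(8,1)]⟩),.k,
  .k,.k,⟨true,0,⟨0,[(16,0),(0,0),(24,0)]⟩,⟨0,[(13,0)]⟩⟩,⟨false,0,⟨0,[(29,0)]⟩,⟨4,[(6,0),(7,1),(16,
  1),(1,1),(2,1)]⟩⟩,⟨false,1,⟨1,[(25,0),(0,0),(17,0)]⟩,⟨0,[]⟩⟩,⟨true,0,⟨0,[(15,0)]⟩,⟨0,[(11,0),(30,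
  0)]⟩⟩,⟨true,0,⟨0,[(42,0)]⟩,⟨0,[(41,0)]⟩⟩,⟨true,0,⟨0,[(15,0),(26,0)]⟩,⟨0,[(11,0)]⟩⟩,[.o ⟨false,
  (-1),⟨0,[(0,0),(10,0),(1,0),(3,0),(24,0)]⟩,⟨1,[(25,1),(10,0),(7,0)]⟩⟩,.a ⟨true,(-1),⟨1,[(0,1),(31,
  0),(0,0)]⟩,⟨0,[(25,0)]⟩⟩ ⟨true,0,⟨0,[(16,0),(0,0),(24,0)]⟩,⟨0,[(13,0)]⟩⟩ ⟨false,0,⟨0,[(29,0)]⟩,⟨4,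
  [(6,0),(7,1),(16,1),(1,1),(2,1)]⟩⟩,.o ⟨false,0,⟨0,[(0,0),(32,0),(2,0)]⟩,⟨0,[(7,0),(24,0)]⟩⟩,.o
  ⟨false,0,⟨1,[(3,1),(9,1),(22,0),(7,0)]⟩,⟨0,[(7,0),(9,0)]⟩⟩]⟩))) (.Q [0,1,0,-1,-1,0,-1,-1,1,0,1,
  -1] (.p true [0,0,1] [0,0,0,0,1] (⟨0,[(33,0)]⟩,⟨0,[(32,0)]⟩) .k 2 (⟨0,[(26,0)]⟩,⟨0,[(25,0)]⟩) .k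
  (.r (-1) ⟨0,[(12,0)]⟩ ⟨0,[(15,0),(13,0)]⟩)) (.Q [0,1,0,-2,-1,0,-1,-1,1,0,1,-1] (.p true [0,0,1]
  [0,0,0,0,1] (⟨0,[(34,0)]⟩,⟨0,[(33,0)]⟩) .k 2 (⟨0,[(27,0)]⟩,⟨0,[(26,0)]⟩) .k (.r (-1) ⟨0,[(13,0)]⟩
  ⟨0,[(16,0),(13,0)]⟩)) (.Q [0,0,2,0,-1,0,0,0,1,0,0,-1] (.p false [0,0,0,0,1] [] (⟨0,[(28,0)]⟩,⟨0,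
  [(27,0)]⟩) .k 0 (⟨0,[]⟩,⟨0,[]⟩) .k .k) (.S ⟨1,0,[0,1,-1,-1],[0,-1,0,0,1],[1,2,-1,-2],(⟨1,[(3,0),
  (7,0),(17,0)]⟩,⟨0,[(28,0),(10,0)]⟩),⟨0,[(3,0),(7,0)]⟩,(.r 0 ⟨0,[(41,0)]⟩ ⟨3,[(0,0),(14,1),(10,0),
  (5,1),(0,1),(9,3),(1,1)]⟩),(.r 0 ⟨0,[(6,0),(10,0),(0,0),(24,0)]⟩ ⟨3,[(0,2),(14,1),(10,2),(5,1),(0,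
  1),(9,7),(1,1)]⟩),⟨true,0,⟨0,[(42,0)]⟩,⟨0,[(43,0)]⟩⟩,⟨false,1,⟨1,[(26,0),(0,0),(17,0)]⟩,⟨0,[]⟩⟩,
  ⟨false,0,⟨0,[]⟩,⟨1,[(26,0),(0,0),(17,0)]⟩⟩,⟨true,0,⟨0,[(43,0)]⟩,⟨0,[(42,0)]⟩⟩,[.o ⟨false,(-1),⟨0,
  [(0,0),(19,0)]⟩,⟨1,[(26,1),(10,0),(5,1),(1,0)]⟩⟩,.e ⟨false,0,⟨0,[(19,0)]⟩,⟨3,[(0,0),(14,1),(10,0),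
  (5,1),(0,1),(9,7),(1,1)]⟩⟩ ⟨false,1,⟨1,[(21,0),(20,0),(1,0)]⟩,⟨1,[(0,0),(25,0),(16,1)]⟩⟩,.a ⟨true,
  (-1),⟨1,[(0,1),(21,0),(12,0),(0,0)]⟩,⟨0,[(8,0)]⟩⟩ ⟨false,0,⟨3,[(6,1),(3,0),(6,0),(5,0),(18,0)]⟩,
  ⟨1,[(0,0),(25,0),(16,3),(1,1)]⟩⟩ ⟨true,0,⟨0,[(41,0)]⟩,⟨1,[(0,0),(25,0),(16,1)]⟩⟩,.o ⟨false,(-1),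
  ⟨0,[(0,0)]⟩,⟨1,[(8,1),(28,0),(6,0)]⟩⟩]⟩) (.Q [0,0,0,0,0,-1,0,0,0,0,-1,1] (.p false [0,0,1] [0,0,0,
  0,1] (⟨0,[(36,0)]⟩,⟨0,[(35,0)]⟩) .k 2 (⟨0,[(29,0)]⟩,⟨0,[(28,0)]⟩) .k (.r (-1) ⟨0,[(15,0)]⟩ ⟨0,
  [(18,0),(13,0)]⟩)) (.Q [0,0,0,0,1,0,0,0,-1,-1,0,1] (.p true [0,0,0,0,1] [1] (⟨0,[(30,0)]⟩,⟨0,[(29,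
  0)]⟩) .k 1 (⟨0,[]⟩,⟨0,[]⟩) .k .k) (.Q [0,0,1,0,-1,0,0,0,1,1,0,-1] (.p false [0,0,0,0,1] [1] (⟨0,
  [(31,0)]⟩,⟨0,[(30,0)]⟩) .k 1 (⟨0,[]⟩,⟨0,[]⟩) .k .k) (.S ⟨1,0,[0,1],[0,0,0,0,1],[0,2],(⟨0,[(32,
  0)]⟩,⟨0,[(31,0)]⟩),⟨2,[(2,0),(11,0),(17,1)]⟩,.k,(.r 0 ⟨0,[(44,0)]⟩ ⟨3,[(18,1),(16,1),(0,2),(0,0),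
  (8,3),(1,1)]⟩),⟨true,0,⟨0,[(50,0)]⟩,⟨0,[]⟩⟩,⟨false,1,⟨1,[(29,0),(0,0),(17,0)]⟩,⟨0,[]⟩⟩,⟨false,0,
  ⟨0,[(46,0)]⟩,⟨0,[(45,0),(2,0)]⟩⟩,⟨true,0,⟨0,[(46,0)]⟩,⟨0,[(45,0)]⟩⟩,[.e ⟨false,0,⟨0,[(43,0)]⟩,⟨0,
  [(48,0)]⟩⟩ ⟨false,0,⟨2,[(23,0),(19,0),(2,0)]⟩,⟨1,[(29,0),(0,0),(17,0)]⟩⟩,.o ⟨false,0,⟨0,[(30,0)]⟩,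
  ⟨0,[(1,0)]⟩⟩,.o ⟨false,0,⟨0,[(30,0)]⟩,⟨0,[(1,0)]⟩⟩,.a ⟨true,(-1),⟨0,[(0,0)]⟩,⟨0,[(11,0)]⟩⟩ ⟨false,
  0,⟨2,[(23,0),(19,0),(2,0)]⟩,⟨1,[(36,0),(0,0),(10,1)]⟩⟩ ⟨true,0,⟨2,[(23,0),(19,0),(2,0)]⟩,⟨1,[(36,
  0),(0,0)]⟩⟩]⟩) (.Q [0,1,0,0,-1,0,0,0,1,0,0,-1] (.p false [0,0,0,0,1] [] (⟨0,[(32,0)]⟩,⟨0,[(31,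
  0)]⟩) .k 0 (⟨0,[]⟩,⟨0,[]⟩) .k .k) (.R ⟨1,false,false,true,[1,0,-1],[1,0,0,0,-1],[0,0,0,0,0,0,0,
  -1],(⟨0,[(39,0)]⟩,⟨0,[(40,0)]⟩),(⟨0,[(32,0)]⟩,⟨0,[(33,0)]⟩),⟨0,[(28,0)]⟩,.k,.k,.k,.k,(.r 0 ⟨1,
  [(16,1),(9,0),(0,0)]⟩ ⟨1,[(19,1),(17,0),(0,0),(8,1)]⟩),.k,⟨true,0,⟨0,[(21,0),(0,0),(24,0)]⟩,⟨0,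
  [(18,0)]⟩⟩,⟨false,1,⟨3,[(1,1),(2,0),(22,1),(2,0)]⟩,⟨0,[(8,0),(10,0)]⟩⟩,⟨false,1,⟨1,[(30,0),(0,0),
  (17,0)]⟩,⟨0,[]⟩⟩,⟨true,1,⟨0,[(2,0),(17,0)]⟩,⟨0,[(8,0)]⟩⟩,⟨true,0,⟨0,[(47,0)]⟩,⟨0,[(46,0)]⟩⟩,⟨true,
  1,⟨1,[(9,1),(27,0),(0,0)]⟩,⟨0,[(6,0)]⟩⟩,[.o ⟨false,1,⟨0,[(2,0)]⟩,⟨0,[(31,0)]⟩⟩,.o ⟨false,2,⟨1,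
  [(30,1),(10,0),(7,0)]⟩,⟨0,[(0,0)]⟩⟩,.o ⟨false,1,⟨4,[(11,0),(7,1),(16,1),(1,1),(2,1)]⟩,⟨0,[(22,
  0)]⟩⟩,.a ⟨true,0,⟨0,[(38,0)]⟩,⟨0,[(34,0)]⟩⟩ ⟨false,1,⟨3,[(1,1),(2,0),(3,2),(18,1),(8,0),(12,3)]⟩,
  ⟨0,[(18,0)]⟩⟩ ⟨true,1,⟨3,[(1,1),(2,0),(22,1),(2,0)]⟩,⟨0,[(0,0),(37,0)]⟩⟩]⟩) (.R ⟨1,false,false,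
  true,[0,0,-1,0,1],[0,0,0,0,1],[0,1,0,0,0,0,0,-1],(⟨0,[(7,0)]⟩,⟨0,[(32,0),(7,0)]⟩),(⟨0,[(33,0)]⟩,
  ⟨0,[(32,0)]⟩),⟨0,[(3,0)]⟩,.k,.k,(.r 0 ⟨1,[(16,1),(9,0),(0,0)]⟩ ⟨1,[(19,1),(17,0),(0,0),(8,1)]⟩),
  .k,.k,.k,⟨false,1,⟨3,[(1,1),(2,0),(3,2),(18,1),(8,0),(12,3)]⟩,⟨4,[(10,0),(7,3),(25,1),(2,1)]⟩⟩,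
  ⟨true,0,⟨0,[(22,0)]⟩,⟨0,[(38,0)]⟩⟩,⟨false,1,⟨1,[(30,0),(0,0),(17,0)]⟩,⟨0,[]⟩⟩,⟨true,0,⟨0,[(35,
  0)]⟩,⟨0,[(21,0),(25,0)]⟩⟩,⟨true,0,⟨0,[(47,0)]⟩,⟨0,[(46,0)]⟩⟩,⟨true,0,⟨0,[(35,0),(11,0)]⟩,⟨0,[(21,
  0)]⟩⟩,[.o ⟨false,(-1),⟨0,[(8,0),(26,0)]⟩,⟨0,[(2,0),(46,0)]⟩⟩,.a ⟨true,(-1),⟨0,[(13,0)]⟩,⟨0,[(0,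
  0)]⟩⟩ ⟨true,0,⟨0,[(21,0),(0,0),(24,0)]⟩,⟨0,[(18,0)]⟩⟩ ⟨false,0,⟨2,[(22,2),(1,0),(19,0),(2,0)]⟩,⟨7,
  [(11,0),(7,2),(6,0),(9,2),(1,3),(10,3)]⟩⟩,.o ⟨false,0,⟨0,[(8,0),(10,0)]⟩,⟨0,[(1,0),(35,0)]⟩⟩,.o
  ⟨false,0,⟨0,[(31,0),(6,0)]⟩,⟨0,[(1,0),(20,0)]⟩⟩]⟩))) (.I [1,-2,0,0,1,0,0,1] (.S ⟨1,0,[0,2,0,0,0,0,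
  0,-1],[0,0,-1,0,1],[0,1,0,0,0,0,0,-1],(⟨0,[(6,0)]⟩,⟨0,[(31,0),(7,0)]⟩),⟨0,[(2,0)]⟩,.k,(.r 0 ⟨1,
  [(15,1),(9,0),(0,0)]⟩ ⟨1,[(18,1),(17,0),(0,0),(8,1)]⟩),⟨false,1,⟨1,[(29,0),(0,0),(17,0)]⟩,⟨0,[]⟩⟩,
  ⟨true,0,⟨0,[(50,0)]⟩,⟨0,[]⟩⟩,⟨true,0,⟨0,[(46,0)]⟩,⟨0,[(45,0)]⟩⟩,⟨false,0,⟨0,[(46,0)]⟩,⟨0,[(45,0),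
  (2,0)]⟩⟩,[.e ⟨false,0,⟨1,[(3,0),(3,0),(13,1),(13,0)]⟩,⟨0,[(18,0)]⟩⟩ ⟨false,0,⟨3,[(3,0),(3,0),(13,
  3),(13,2),(7,1)]⟩,⟨0,[(0,0)]⟩⟩,.o ⟨false,(-1),⟨0,[(7,0)]⟩,⟨2,[(0,1),(7,1),(4,0),(15,0),(6,1),(3,
  0)]⟩⟩,.e ⟨false,0,⟨0,[(20,0),(0,0),(24,0)]⟩,⟨0,[(18,0)]⟩⟩ ⟨false,0,⟨0,[(21,0),(13,0)]⟩,⟨0,[(0,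
  0)]⟩⟩,.a ⟨true,(-1),⟨0,[(1,0),(35,0)]⟩,⟨0,[(3,0),(32,0)]⟩⟩ ⟨true,0,⟨1,[(3,0),(3,0),(13,1),(13,
  0)]⟩,⟨0,[(17,0)]⟩⟩ ⟨false,0,⟨1,[(3,0),(3,0),(13,1),(13,0)]⟩,⟨1,[(0,1),(35,0),(0,0)]⟩⟩]⟩) (.Q [0,0,
  0,0,-1,0,-1,0,1,1,1,-1] (.p false [0,0,-1,0,1] [1] (⟨0,[(6,0)]⟩,⟨0,[(31,0),(7,0)]⟩) .k 1 (⟨0,[]⟩,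
  ⟨0,[]⟩) .k (.r 0 ⟨5,[(0,1),(25,1),(8,3),(4,0),(7,0)]⟩ ⟨0,[(18,0)]⟩)) (.S ⟨1,0,[0,1,0,0,0,0,0,-1],
  [0,0,-1,0,1],[0,2,0,0,0,0,0,-1],(⟨0,[(7,0)]⟩,⟨0,[(32,0),(7,0)]⟩),⟨0,[(3,0)]⟩,.k,(.r 0 ⟨3,[(1,1),
  (12,0),(10,1),(1,0),(8,0)]⟩ ⟨1,[(19,1),(17,0),(0,0),(8,1)]⟩),⟨true,0,⟨0,[(51,0)]⟩,⟨0,[]⟩⟩,⟨false,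
  1,⟨1,[(30,0),(0,0),(17,0)]⟩,⟨0,[]⟩⟩,⟨false,0,⟨0,[(47,0)]⟩,⟨0,[(46,0),(2,0)]⟩⟩,⟨true,0,⟨0,[(47,
  0)]⟩,⟨0,[(46,0)]⟩⟩,[.o ⟨false,(-1),⟨0,[(8,0)]⟩,⟨3,[(9,3),(4,1),(3,1),(18,1),(3,0),(7,2)]⟩⟩,.a
  ⟨true,(-1),⟨0,[(2,0),(18,0),(25,0)]⟩,⟨0,[(4,0),(13,0),(18,0)]⟩⟩ ⟨false,0,⟨1,[(1,1),(46,0),(0,0)]⟩,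
  ⟨0,[(19,0)]⟩⟩ ⟨true,0,⟨0,[(1,0),(47,0)]⟩,⟨0,[(18,0)]⟩⟩,.a ⟨true,(-1),⟨0,[(0,0)]⟩,⟨1,[(4,0),(25,0),
  (6,1)]⟩⟩ ⟨true,(-1),⟨0,[(1,0)]⟩,⟨0,[(19,0)]⟩⟩ ⟨false,0,⟨0,[(1,0),(47,0)]⟩,⟨0,[(19,0)]⟩⟩,.a ⟨true,
  (-1),⟨0,[(2,0),(35,0)]⟩,⟨0,[(4,0),(32,0)]⟩⟩ ⟨false,0,⟨1,[(1,1),(46,0),(0,0)]⟩,⟨0,[(18,0),(30,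
  0)]⟩⟩ ⟨true,0,⟨1,[(1,1),(46,0),(0,0)]⟩,⟨0,[(18,0)]⟩⟩]⟩) (.Q [0,0,0,0,0,-1,0,0,0,1,0,-1] (.ed true
  [0,1,0,0,1] .k) (.Q [0,0,0,0,1,0,-1,-1,-1,-1,1,1] (.p true [0,0,1] [1,0,0,0,-1] (⟨0,[(41,0)]⟩,⟨0,
  [(40,0)]⟩) .k 2 (⟨0,[(33,0)]⟩,⟨0,[(34,0)]⟩) .k (.r 0 ⟨4,[(11,0),(7,3),(25,1),(2,1)]⟩ ⟨5,[(2,1),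
  (25,1),(8,3),(4,0),(7,6)]⟩)) (.Q [0,-2,0,-1,2,0,-1,-1,-1,-1,1,1] (.p true [0,0,1] [1,0,0,0,-1]
  (⟨0,[(42,0)]⟩,⟨0,[(41,0)]⟩) .k 2 (⟨0,[(34,0)]⟩,⟨0,[(35,0)]⟩) .k (.r 0 ⟨4,[(12,0),(7,3),(25,1),(2,
  1)]⟩ ⟨7,[(0,1),(9,1),(18,3),(8,3),(4,0),(7,6)]⟩)) (.R ⟨1,false,false,true,[1,0,0,0,-1],[0,0,1],[],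
  (⟨0,[(35,0)]⟩,⟨0,[(36,0)]⟩),(⟨0,[(43,0)]⟩,⟨0,[(42,0)]⟩),⟨0,[(2,0)]⟩,.k,.k,(.r (-1) ⟨5,[(0,0),(7,
  0),(13,1),(5,2),(1,0)]⟩ ⟨1,[(40,0),(0,0),(8,1),(3,1)]⟩),.k,(.r (-1) ⟨1,[(0,0),(10,0),(16,0),(1,
  0)]⟩ ⟨0,[(21,0),(28,0),(3,0)]⟩),.k,⟨false,1,⟨1,[(4,1),(46,0),(0,2)]⟩,⟨4,[(13,0),(7,3),(25,1),(2,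
  1)]⟩⟩,⟨true,(-1),⟨0,[(5,0),(19,0)]⟩,⟨0,[(1,0),(19,0)]⟩⟩,⟨true,0,⟨0,[(54,0)]⟩,⟨0,[]⟩⟩,⟨false,(-1),
  ⟨0,[(5,0),(32,0)]⟩,⟨0,[(0,0),(49,0)]⟩⟩,⟨false,0,⟨0,[(50,0)]⟩,⟨2,[(0,0),(7,0),(13,1),(7,0)]⟩⟩,
  ⟨false,(-1),⟨0,[(5,0),(32,0),(11,0)]⟩,⟨0,[(0,0)]⟩⟩,[.o ⟨false,0,⟨0,[(38,0)]⟩,⟨3,[(0,1),(10,1),(32,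
  0),(5,1),(1,0)]⟩⟩,.e ⟨false,1,⟨1,[(51,0),(0,0)]⟩,⟨0,[(54,0)]⟩⟩ ⟨false,0,⟨2,[(5,1),(6,0),(10,0),(4,
  0),(5,1),(3,0)]⟩,⟨0,[(1,0)]⟩⟩,.a ⟨true,1,⟨0,[(33,0)]⟩,⟨0,[(5,0)]⟩⟩ ⟨false,1,⟨1,[(33,0),(0,0),(17,
  0)]⟩,⟨0,[]⟩⟩ ⟨true,(-1),⟨0,[(5,0),(32,0)]⟩,⟨0,[(1,0)]⟩⟩,.o ⟨false,1,⟨0,[(3,0),(37,0)]⟩,⟨1,[(5,0),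
  (23,0),(4,0),(9,0)]⟩⟩]⟩) (.R ⟨1,true,false,true,[1,0,-1],[0,0,0,0,1],[0,1,0,0,0,0,0,-1],(⟨0,[(42,
  0)]⟩,⟨0,[(43,0)]⟩),(⟨0,[(36,0)]⟩,⟨0,[(35,0)]⟩),⟨0,[(31,0)]⟩,.k,.k,.k,.k,(.r (-1) ⟨7,[(1,1),(9,1),
  (12,3),(3,3),(1,3),(13,0),(7,2)]⟩ ⟨0,[(21,0),(28,0),(3,0)]⟩),.k,⟨false,1,⟨1,[(4,1),(46,0),(0,2)]⟩,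
  ⟨10,[(0,0),(11,0),(0,0),(0,0),(6,7),(19,0),(5,3)]⟩⟩,⟨true,(-1),⟨0,[(5,0),(19,0)]⟩,⟨0,[(1,0),(19,
  0)]⟩⟩,⟨true,0,⟨0,[(54,0)]⟩,⟨0,[]⟩⟩,⟨false,(-1),⟨14,[(0,5),(4,1),(2,0),(4,1),(7,0),(1,6),(10,5),(5,
  2)]⟩,⟨0,[(1,0),(50,0)]⟩⟩,⟨false,0,⟨0,[(50,0)]⟩,⟨0,[(49,0),(2,0)]⟩⟩,⟨true,(-2),⟨0,[(0,0)]⟩,⟨7,[(1,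
  1),(15,3),(15,5),(5,1),(4,0),(7,6)]⟩⟩,[]⟩)) (.Q [0,-2,0,0,2,0,0,0,-1,-1,0,1] (.p true [0,0,0,0,1]
  [1] (⟨0,[(35,0)]⟩,⟨0,[(34,0)]⟩) .k 1 (⟨0,[]⟩,⟨0,[]⟩) .k .k) (.R ⟨1,false,false,false,[1,0,-1],[1,
  0,0,0,-1],[0,1,0,0,0,0,0,-1],(⟨0,[(42,0)]⟩,⟨0,[(43,0)]⟩),(⟨0,[(35,0)]⟩,⟨0,[(36,0)]⟩),⟨0,[(31,0)]⟩,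
  .k,.k,.k,.k,(.r 0 ⟨3,[(4,1),(12,0),(10,1),(1,0),(8,0)]⟩ ⟨1,[(22,1),(17,0),(0,0),(8,1)]⟩),.k,⟨true,
  (-1),⟨0,[(4,0)]⟩,⟨0,[(21,0),(30,0)]⟩⟩,⟨false,1,⟨5,[(3,1),(3,2),(22,1),(2,0)]⟩,⟨2,[(5,0),(8,0),(19,
  1),(6,1)]⟩⟩,⟨true,0,⟨0,[(54,0)]⟩,⟨0,[]⟩⟩,⟨false,2,⟨0,[(0,0),(22,0)]⟩,⟨0,[(11,0)]⟩⟩,⟨false,0,⟨0,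
  [(50,0)]⟩,⟨0,[(49,0),(2,0)]⟩⟩,⟨false,2,⟨1,[(12,1),(27,0),(0,0),(10,1)]⟩,⟨0,[(9,0)]⟩⟩,[.o ⟨false,2,
  ⟨3,[(0,1),(32,2),(0,0),(9,0)]⟩,⟨0,[(1,0),(17,0),(30,0)]⟩⟩,.o ⟨false,2,⟨0,[(0,0)]⟩,⟨0,[(11,0),(26,
  0)]⟩⟩,.o ⟨false,1,⟨4,[(14,0),(7,1),(16,1),(1,1),(2,1)]⟩,⟨0,[(25,0)]⟩⟩,.a ⟨true,0,⟨0,[(41,0)]⟩,⟨0,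
  [(37,0)]⟩⟩ ⟨true,0,⟨1,[(4,1),(46,0),(0,0)]⟩,⟨0,[(21,0)]⟩⟩ ⟨false,2,⟨1,[(0,1),(28,0),(0,0)]⟩,⟨0,
  [(11,0),(9,0)]⟩⟩]⟩) (.S ⟨1,0,[0,-1],[1,0,0,0,-1],[],(⟨0,[(35,0)]⟩,⟨0,[(36,0)]⟩),⟨0,[(2,0)]⟩,.k,
  (.r (-1) ⟨1,[(28,0),(20,0),(2,0)]⟩ ⟨1,[(40,0),(0,0),(8,1),(3,1)]⟩),⟨true,0,⟨0,[(54,0)]⟩,⟨0,[]⟩⟩,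
  ⟨false,1,⟨1,[(33,0),(0,0),(17,0)]⟩,⟨0,[]⟩⟩,⟨false,0,⟨0,[(50,0)]⟩,⟨0,[(49,0),(2,0)]⟩⟩,⟨true,0,⟨0,
  [(50,0)]⟩,⟨0,[(49,0)]⟩⟩,[.o ⟨false,2,⟨1,[(33,1),(10,0),(7,0)]⟩,⟨2,[(0,0),(0,0),(9,0),(32,0)]⟩⟩,.a
  ⟨true,2,⟨0,[(33,0),(18,0)]⟩,⟨0,[(0,0)]⟩⟩ ⟨false,1,⟨1,[(51,0),(0,0)]⟩,⟨0,[(54,0)]⟩⟩ ⟨true,1,⟨0,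
  [(52,0)]⟩,⟨0,[(4,0),(16,0)]⟩⟩,.e ⟨false,1,⟨1,[(33,0),(0,0),(17,0)]⟩,⟨0,[]⟩⟩ ⟨false,1,⟨0,[(52,0)]⟩,
  ⟨0,[(54,0)]⟩⟩,.o ⟨false,1,⟨0,[(3,0),(37,0)]⟩,⟨1,[(5,0),(23,0),(4,0),(9,0)]⟩⟩]⟩))) (.R ⟨0,false,
  false,true,[1,0,0,0,-1],[1,0,1,0,-1],[1,0,1],(⟨0,[(33,0)]⟩,⟨0,[(34,0)]⟩),(⟨0,[(33,0),(7,0)]⟩,⟨0,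
  [(8,0)]⟩),⟨0,[(0,0)]⟩,.k,.k,(.r (-1) ⟨1,[(26,0),(20,0),(2,0)]⟩ ⟨1,[(38,0),(0,0),(8,1),(3,1)]⟩),.k,
  .k,.k,⟨false,0,⟨0,[(2,0),(47,0)]⟩,⟨5,[(12,0),(7,4),(6,0),(8,0),(8,1)]⟩⟩,⟨true,0,⟨0,[(23,0)]⟩,⟨0,
  [(39,0)]⟩⟩,⟨false,0,⟨1,[(38,0),(0,0)]⟩,⟨1,[(49,0),(0,0)]⟩⟩,⟨true,0,⟨0,[(36,0)]⟩,⟨0,[(22,0),(25,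
  0)]⟩⟩,⟨false,0,⟨0,[]⟩,⟨0,[]⟩⟩,⟨false,0,⟨0,[]⟩,⟨0,[]⟩⟩,[.e ⟨false,0,⟨0,[]⟩,⟨1,[(31,0),(0,0),(16,
  0)]⟩⟩ ⟨false,1,⟨11,[(10,1),(9,3),(5,1),(1,1),(3,1),(3,5),(5,0),(6,2)]⟩,⟨0,[(22,0),(25,0)]⟩⟩,.o
  ⟨false,2,⟨0,[(1,0),(18,0)]⟩,⟨0,[(9,0)]⟩⟩,.a ⟨true,1,⟨0,[(31,0)]⟩,⟨0,[(3,0)]⟩⟩ ⟨true,0,⟨1,[(38,0),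
  (0,0)]⟩,⟨4,[(2,0),(9,0),(14,0),(8,0),(8,0)]⟩⟩ ⟨false,1,⟨0,[(20,0),(2,0)]⟩,⟨0,[(22,0),(25,0)]⟩⟩,.o
  ⟨false,1,⟨0,[(1,0),(37,0)]⟩,⟨1,[(3,0),(23,0),(4,0),(9,0)]⟩⟩]⟩))))) (.Q [0,0,1,0,-1,0,-1,0,1,1,1,
  -1] (.p false [0,0,-1,0,1] [1] (⟨0,[(4,0)]⟩,⟨0,[(29,0),(7,0)]⟩) .k 1 (⟨0,[]⟩,⟨0,[]⟩) .k (.r 0 ⟨0,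
  [(19,0),(13,0)]⟩ ⟨0,[(16,0)]⟩)) (.Q [0,0,0,0,-1,0,-1,0,1,1,1,-1] (.p false [0,0,-1,0,1] [1] (⟨0,
  [(5,0)]⟩,⟨0,[(30,0),(7,0)]⟩) .k 1 (⟨0,[]⟩,⟨0,[]⟩) .k (.r 0 ⟨0,[(20,0),(13,0)]⟩ ⟨0,[(17,0)]⟩)) (.Q
  [0,-2,0,0,2,0,0,0,-1,-1,0,1] (.p true [0,0,0,0,1] [1] (⟨0,[(32,0)]⟩,⟨0,[(31,0)]⟩) .k 1 (⟨0,[]⟩,⟨0,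
  []⟩) .k .k) (.R ⟨0,false,false,true,[0,0,-1,0,1],[0,0,0,0,1],[0,0,1],(⟨0,[(7,0)]⟩,⟨0,[(32,0),(7,
  0)]⟩),(⟨0,[(33,0)]⟩,⟨0,[(32,0)]⟩),⟨0,[(3,0)]⟩,.k,.k,(.r 0 ⟨1,[(16,1),(9,0),(0,0)]⟩ ⟨1,[(19,1),(17,
  0),(0,0),(8,1)]⟩),.k,.k,.k,⟨false,1,⟨0,[(49,0)]⟩,⟨0,[(44,0)]⟩⟩,⟨true,0,⟨0,[(22,0)]⟩,⟨0,[(38,0)]⟩⟩,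
  ⟨false,1,⟨0,[(18,0),(30,0)]⟩,⟨1,[(4,0),(3,0),(13,1),(13,0)]⟩⟩,⟨true,0,⟨0,[(35,0)]⟩,⟨0,[(21,0),(25,
  0)]⟩⟩,⟨false,0,⟨0,[]⟩,⟨0,[]⟩⟩,⟨false,0,⟨0,[]⟩,⟨0,[]⟩⟩,[.o ⟨false,(-1),⟨0,[(8,0),(26,0)]⟩,⟨0,[(0,
  0)]⟩⟩,.e ⟨false,1,⟨5,[(0,0),(18,1),(7,0),(3,0),(4,1),(12,1)]⟩,⟨2,[(24,0),(19,0),(2,0)]⟩⟩ ⟨false,0,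
  ⟨2,[(22,2),(1,0),(19,0),(2,0)]⟩,⟨1,[(0,0),(0,0),(17,0),(16,0)]⟩⟩,.a ⟨true,(-1),⟨0,[(1,0)]⟩,⟨1,[(4,
  0),(25,0),(6,1)]⟩⟩ ⟨true,0,⟨1,[(37,0),(0,0)]⟩,⟨2,[(24,0),(19,0),(2,0)]⟩⟩ ⟨false,0,⟨1,[(22,0),(14,
  0),(6,0)]⟩,⟨0,[(0,0),(0,0)]⟩⟩,.e ⟨false,1,⟨5,[(0,0),(18,1),(7,0),(3,0),(4,1),(12,1)]⟩,⟨0,[]⟩⟩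
  ⟨false,0,⟨2,[(22,2),(1,0),(19,0),(2,0)]⟩,⟨0,[(0,0),(1,0)]⟩⟩]⟩) (.I [0,2,0,0,-1,0,0,-1] (.R ⟨0,
  false,false,false,[0,0,-1,0,1],[0,0,0,0,1],[1],(⟨0,[(8,0)]⟩,⟨0,[(33,0),(7,0)]⟩),(⟨0,[(34,0)]⟩,⟨0,
  [(33,0)]⟩),⟨0,[(4,0)]⟩,.k,.k,(.r 0 ⟨3,[(0,1),(14,0),(10,1),(1,0),(8,0)]⟩ ⟨1,[(20,1),(17,0),(0,0),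
  (8,1)]⟩),.k,.k,.k,⟨false,1,⟨1,[(49,0),(0,0)]⟩,⟨0,[(52,0)]⟩⟩,⟨true,0,⟨0,[(23,0)]⟩,⟨0,[(39,0)]⟩⟩,
  ⟨true,1,⟨0,[(20,0)]⟩,⟨0,[(0,0)]⟩⟩,⟨false,1,⟨0,[(20,0),(2,0)]⟩,⟨0,[(22,0),(25,0)]⟩⟩,⟨false,0,⟨0,
  []⟩,⟨0,[]⟩⟩,⟨false,0,⟨0,[]⟩,⟨0,[]⟩⟩,[.o ⟨false,(-1),⟨1,[(1,0),(0,0),(20,0),(18,0)]⟩,⟨1,[(31,1),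
  (10,0),(7,0)]⟩⟩,.a ⟨true,(-1),⟨0,[(2,0),(20,0)]⟩,⟨0,[(31,0)]⟩⟩ ⟨false,1,⟨1,[(49,0),(0,0)]⟩,⟨0,
  [(52,0)]⟩⟩ ⟨true,0,⟨0,[(23,0)]⟩,⟨0,[(39,0)]⟩⟩,.a ⟨true,(-1),⟨0,[(2,0)]⟩,⟨1,[(5,0),(25,0),(6,1)]⟩⟩
  ⟨true,0,⟨0,[]⟩,⟨0,[(52,0)]⟩⟩ ⟨false,0,⟨0,[(23,0)]⟩,⟨9,[(2,0),(2,0),(6,0),(7,3),(16,3),(1,3),(10,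
  4)]⟩⟩,.a ⟨true,(-1),⟨0,[(3,0)]⟩,⟨0,[(5,0),(32,0)]⟩⟩ ⟨false,1,⟨1,[(49,0),(0,0)]⟩,⟨1,[(38,0),(0,
  0)]⟩⟩ ⟨true,0,⟨4,[(0,0),(0,0),(8,0),(14,0),(1,0),(0,1),(13,1)]⟩,⟨0,[(39,0)]⟩⟩]⟩) (.R ⟨0,false,
  false,true,[0,0,-1,0,1],[0,0,0,0,1],[0,1,0,0,0,0,0,-1],(⟨0,[(8,0)]⟩,⟨0,[(33,0),(7,0)]⟩),(⟨0,[(34,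
  0)]⟩,⟨0,[(33,0)]⟩),⟨0,[(4,0)]⟩,.k,.k,(.r 0 ⟨1,[(17,1),(9,0),(0,0)]⟩ ⟨1,[(20,1),(17,0),(0,0),(8,
  1)]⟩),.k,.k,.k,⟨false,1,⟨3,[(5,1),(3,1),(12,1),(5,1),(13,0),(5,1),(1,2)]⟩,⟨16,[(1,1),(8,1),(0,0),
  (0,1),(6,13),(25,5)]⟩⟩,⟨true,0,⟨0,[(23,0)]⟩,⟨0,[(39,0)]⟩⟩,⟨false,1,⟨1,[(31,0),(0,0),(17,0)]⟩,⟨0,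
  []⟩⟩,⟨true,0,⟨0,[(36,0)]⟩,⟨0,[(22,0),(25,0)]⟩⟩,⟨false,0,⟨0,[]⟩,⟨0,[]⟩⟩,⟨false,0,⟨0,[]⟩,⟨0,[]⟩⟩,
  [.e ⟨false,0,⟨1,[(5,0),(3,0),(13,1),(13,0)]⟩,⟨0,[(20,0)]⟩⟩ ⟨false,0,⟨0,[(23,0),(21,0)]⟩,⟨0,[(0,0),
  (21,0),(25,0)]⟩⟩,.o ⟨false,(-1),⟨1,[(1,0),(0,0),(20,0),(18,0)]⟩,⟨1,[(31,1),(10,0),(7,0)]⟩⟩,.e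
  ⟨false,0,⟨0,[(22,0),(0,0),(24,0)]⟩,⟨0,[(20,0)]⟩⟩ ⟨false,0,⟨1,[(23,0),(14,0),(6,0)]⟩,⟨0,[(0,0),(21,
  0),(25,0)]⟩⟩,.a ⟨true,(-1),⟨0,[(3,0)]⟩,⟨0,[(5,0),(32,0)]⟩⟩ ⟨true,0,⟨1,[(5,0),(3,0),(13,1),(13,
  0)]⟩,⟨0,[(19,0)]⟩⟩ ⟨false,0,⟨1,[(1,0),(3,0),(22,0),(13,0)]⟩,⟨0,[(39,0),(10,0)]⟩⟩]⟩))) (.R ⟨0,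
  false,false,true,[0,0,-1,0,1],[0,0,1],[0,1],(⟨0,[(6,0)]⟩,⟨0,[(31,0),(7,0)]⟩),(⟨0,[(39,0)]⟩,⟨0,
  [(38,0)]⟩),⟨0,[(2,0)]⟩,.k,.k,(.r 0 ⟨1,[(15,1),(9,0),(0,0)]⟩ ⟨1,[(18,1),(17,0),(0,0),(8,1)]⟩),.k,
  .k,.k,⟨true,0,⟨0,[(20,0),(0,0),(24,0)]⟩,⟨0,[(17,0)]⟩⟩,⟨false,1,⟨1,[(0,1),(24,0),(0,0)]⟩,⟨2,[(1,1),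
  (8,1),(19,0),(6,1)]⟩⟩,⟨false,1,⟨0,[(18,0)]⟩,⟨0,[(20,0),(0,0),(24,0)]⟩⟩,⟨true,1,⟨0,[(0,0),(16,1),
  (3,0),(3,0)]⟩,⟨0,[(7,0),(12,0),(25,0)]⟩⟩,⟨false,0,⟨0,[]⟩,⟨0,[]⟩⟩,⟨false,0,⟨0,[]⟩,⟨0,[]⟩⟩,[.o
  ⟨false,0,⟨0,[(34,0)]⟩,⟨1,[(20,1),(19,0),(5,1),(1,0)]⟩⟩,.e ⟨false,1,⟨1,[(29,0),(0,0),(16,0)]⟩,⟨0,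
  []⟩⟩ ⟨false,1,⟨0,[(0,0),(16,0),(3,0),(3,0)]⟩,⟨5,[(1,3),(5,1),(2,1),(24,3),(4,0),(7,2)]⟩⟩,.o
  ⟨false,0,⟨2,[(1,0),(8,0),(19,1),(6,0)]⟩,⟨0,[(0,0)]⟩⟩,.a ⟨true,(-1),⟨0,[(1,0)]⟩,⟨5,[(0,1),(2,2),
  (22,1),(2,0)]⟩⟩ ⟨true,0,⟨2,[(23,0),(19,0),(2,0)]⟩,⟨1,[(36,0),(0,0)]⟩⟩ ⟨false,1,⟨0,[(0,0),(16,0),
  (3,0),(3,0)]⟩,⟨0,[(7,0),(29,0),(10,0)]⟩⟩]⟩)) (.R ⟨0,false,false,true,[0,0,-1,0,1],[1,-1,-1],[1,1],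
  (⟨0,[(5,0)]⟩,⟨0,[(30,0),(7,0)]⟩),(⟨0,[(26,0)]⟩,⟨0,[(38,0),(2,0)]⟩),⟨0,[(1,0)]⟩,.k,.k,(.r 0 ⟨1,
  [(14,1),(9,0),(0,0)]⟩ ⟨1,[(17,1),(17,0),(0,0),(8,1)]⟩),(.r 0 ⟨1,[(16,0),(17,0),(0,0),(9,1),(3,
  0)]⟩ ⟨1,[(23,0),(20,0),(2,0)]⟩),.k,.k,⟨true,0,⟨0,[(16,0),(28,0)]⟩,⟨0,[(19,0),(0,0)]⟩⟩,⟨false,1,⟨0,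
  [(0,0),(35,0)]⟩,⟨9,[(11,3),(5,1),(6,4),(0,0),(3,5),(4,1),(12,1)]⟩⟩,⟨false,1,⟨0,[(17,0)]⟩,⟨0,[(19,
  0),(0,0),(24,0)]⟩⟩,⟨true,1,⟨0,[(0,0),(15,0),(2,0)]⟩,⟨0,[(11,0),(33,0)]⟩⟩,⟨false,0,⟨0,[]⟩,⟨0,[]⟩⟩,
  ⟨false,0,⟨0,[]⟩,⟨0,[]⟩⟩,[.o ⟨false,0,⟨0,[(14,0)]⟩,⟨1,[(7,0),(8,0),(3,0),(8,0),(15,0),(1,0)]⟩⟩,.a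
  ⟨true,0,⟨0,[(19,0)]⟩,⟨0,[(18,0),(26,0)]⟩⟩ ⟨true,0,⟨0,[]⟩,⟨1,[(35,0),(0,0)]⟩⟩ ⟨false,1,⟨0,[(0,0),
  (18,0)]⟩,⟨0,[(11,0),(5,0),(27,0)]⟩⟩,.o ⟨false,0,⟨0,[(6,0),(10,0)]⟩,⟨1,[(0,1),(34,0),(0,0)]⟩⟩,.o
  ⟨false,0,⟨0,[(29,0),(6,0)]⟩,⟨0,[(0,0)]⟩⟩]⟩)))) (.R ⟨1,false,false,true,[1,-1,-1],[1,0,0,0,-1],[1],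
  (⟨0,[(23,0)]⟩,⟨0,[(35,0),(2,0)]⟩),(⟨0,[(27,0)]⟩,⟨0,[(28,0)]⟩),⟨0,[(12,0)]⟩,.k,.k,(.r (-1) ⟨1,[(9,
  0),(10,1),(1,0),(8,0)]⟩ ⟨1,[(13,1),(18,0),(0,0),(8,3)]⟩),(.r 0 ⟨1,[(11,1),(9,0),(0,0)]⟩ ⟨3,[(0,1),
  (13,1),(11,1),(5,0),(0,2)]⟩),(.r 0 ⟨0,[(9,0),(7,0),(3,0)]⟩ ⟨1,[(0,1),(25,1),(5,0),(0,2)]⟩),.k,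
  ⟨true,0,⟨0,[]⟩,⟨1,[(32,0),(0,0)]⟩⟩,⟨false,1,⟨0,[(0,0),(8,0),(7,0),(3,0)]⟩,⟨0,[(26,0),(6,0)]⟩⟩,
  ⟨true,0,⟨0,[(13,0),(28,0)]⟩,⟨1,[(11,1),(9,0),(0,0)]⟩⟩,⟨true,1,⟨1,[(0,0),(24,0),(4,0)]⟩,⟨0,[(1,
  0)]⟩⟩,⟨true,0,⟨0,[(13,0),(28,1)]⟩,⟨1,[(9,1),(11,0),(0,0)]⟩⟩,⟨false,1,⟨0,[(0,0)]⟩,⟨0,[(1,0),(39,0),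
  (2,0)]⟩⟩,[.o ⟨false,1,⟨0,[(0,0),(8,0)]⟩,⟨0,[(26,0)]⟩⟩,.e ⟨false,1,⟨1,[(43,0),(0,0)]⟩,⟨0,[(46,
  0)]⟩⟩ ⟨false,2,⟨1,[(7,1),(13,0),(0,0),(13,0),(7,0)]⟩,⟨0,[(3,0),(9,0)]⟩⟩,.e ⟨true,0,⟨0,[]⟩,⟨0,[(46,
  0)]⟩⟩ ⟨true,1,⟨0,[(7,0),(9,0)]⟩,⟨0,[(3,0),(9,0)]⟩⟩,.a ⟨true,0,⟨1,[(32,0),(0,2)]⟩,⟨0,[(17,0),(3,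
  0)]⟩⟩ ⟨false,1,⟨1,[(43,0),(0,0)]⟩,⟨1,[(32,0),(0,0)]⟩⟩ ⟨true,1,⟨0,[(0,0),(8,0),(7,0),(3,0)]⟩,⟨1,
  [(3,1),(9,1),(18,0),(0,0)]⟩⟩]⟩)) (.R ⟨1,true,false,true,[1,0,-1],[1,0,0,0,-1],[0,0,0,0,0,0,0,-1],
  (⟨0,[(33,0)]⟩,⟨0,[(34,0)]⟩),(⟨0,[(26,0)]⟩,⟨0,[(27,0)]⟩),⟨0,[(22,0)]⟩,.k,.k,.k,.k,(.r 0 ⟨1,[(10,1),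
  (9,0),(0,0)]⟩ ⟨0,[(0,0),(24,0),(6,0)]⟩),.k,⟨true,0,⟨0,[(15,0),(0,0),(24,0)]⟩,⟨0,[(12,0)]⟩⟩,⟨false,
  1,⟨0,[(6,0),(9,0)]⟩,⟨0,[(2,0),(10,0)]⟩⟩,⟨false,1,⟨1,[(24,0),(0,0),(17,0)]⟩,⟨0,[]⟩⟩,⟨true,1,⟨0,[(0,
  0),(39,0)]⟩,⟨0,[(2,0)]⟩⟩,⟨true,0,⟨0,[(41,0)]⟩,⟨0,[(40,0)]⟩⟩,⟨false,1,⟨0,[(0,0)]⟩,⟨0,[(15,0),(9,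
  0)]⟩⟩,[]⟩)))) (.Q [0,0,0,0,0,-2,0,0,0,0,0,1] (.p true [0,0,0,0,1] [] (⟨0,[(24,0)]⟩,⟨0,[(23,0)]⟩)
  .k 0 (⟨0,[]⟩,⟨0,[]⟩) .k .k) (.S ⟨1,0,[0,1,-1,-1],[0,-1,0,0,1],[1,2,-1,-2],(⟨1,[(0,0),(24,0)]⟩,⟨0,
  [(24,0),(10,0)]⟩),⟨0,[(0,0)]⟩,(.r 0 ⟨0,[(37,0)]⟩ ⟨3,[(11,1),(16,1),(0,2),(0,0),(8,3),(1,1)]⟩),(.r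
  0 ⟨0,[(1,0),(0,0),(1,0),(9,0),(24,0)]⟩ ⟨3,[(11,1),(16,1),(0,4),(0,2),(8,7),(1,1)]⟩),⟨true,0,⟨0,
  [(38,0)]⟩,⟨0,[(39,0)]⟩⟩,⟨false,1,⟨1,[(22,0),(0,0),(17,0)]⟩,⟨0,[]⟩⟩,⟨false,0,⟨0,[]⟩,⟨1,[(22,0),(0,
  0),(17,0)]⟩⟩,⟨true,0,⟨0,[(39,0)]⟩,⟨0,[(38,0)]⟩⟩,[.o ⟨false,(-1),⟨1,[(1,1),(0,0),(11,0),(12,0),(11,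
  1)]⟩,⟨1,[(22,1),(10,0),(5,1),(1,0)]⟩⟩,.e ⟨false,0,⟨0,[(15,0)]⟩,⟨3,[(11,1),(16,1),(0,2),(0,0),(8,
  7),(1,1)]⟩⟩ ⟨false,1,⟨1,[(17,0),(20,0),(1,0)]⟩,⟨1,[(29,0),(0,0),(8,1)]⟩⟩,.a ⟨true,(-1),⟨0,[(1,0),
  (10,0),(26,0)]⟩,⟨0,[(4,0)]⟩⟩ ⟨false,0,⟨3,[(2,1),(3,0),(6,0),(5,0),(18,0)]⟩,⟨1,[(29,0),(0,0),(8,3),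
  (1,1)]⟩⟩ ⟨true,0,⟨0,[(37,0)]⟩,⟨1,[(29,0),(0,0),(8,1)]⟩⟩,.o ⟨false,(-1),⟨0,[(1,0),(8,0),(3,0),(24,
  0)]⟩,⟨1,[(4,1),(28,0),(6,0)]⟩⟩]⟩) (.R ⟨1,false,false,false,[1,0,-1,0,1],[0,0,0,0,1],[0,1,0,0,0,0,
  0,-1],(⟨0,[(25,0),(5,0)]⟩,⟨0,[(0,0),(6,0)]⟩),(⟨0,[(25,0)]⟩,⟨0,[(24,0)]⟩),⟨1,[(9,0),(15,1),(5,0)]⟩,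
  .k,.k,(.r 0 ⟨1,[(8,1),(9,0),(0,0)]⟩ ⟨1,[(11,1),(17,0),(0,0),(8,1)]⟩),.k,.k,.k,⟨true,0,⟨0,[(13,0),
  (0,0),(24,0)]⟩,⟨0,[(10,0)]⟩⟩,⟨false,0,⟨0,[(26,0)]⟩,⟨4,[(3,0),(7,1),(16,1),(1,1),(2,1)]⟩⟩,⟨false,1,
  ⟨1,[(22,0),(0,0),(17,0)]⟩,⟨0,[]⟩⟩,⟨true,0,⟨0,[(12,0)]⟩,⟨0,[(8,0),(30,0)]⟩⟩,⟨true,0,⟨0,[(39,0)]⟩,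
  ⟨0,[(38,0)]⟩⟩,⟨true,0,⟨0,[(12,0),(26,0)]⟩,⟨0,[(8,0)]⟩⟩,[.o ⟨false,(-1),⟨1,[(1,1),(0,0),(11,0),(12,
  0),(11,3)]⟩,⟨1,[(22,1),(10,0),(7,0)]⟩⟩,.a ⟨true,(-1),⟨0,[(1,0),(8,0),(3,0),(3,0),(20,0)]⟩,⟨0,[(22,
  0)]⟩⟩ ⟨true,0,⟨0,[(13,0),(0,0),(24,0)]⟩,⟨0,[(10,0)]⟩⟩ ⟨false,0,⟨0,[(26,0)]⟩,⟨4,[(3,0),(7,1),(16,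
  1),(1,1),(2,1)]⟩⟩,.o ⟨false,0,⟨4,[(1,3),(0,1),(0,0),(6,1),(12,0),(9,1),(5,7),(1,0)]⟩,⟨0,[(4,0),
  (24,0)]⟩⟩,.o ⟨false,0,⟨4,[(1,2),(1,0),(6,2),(12,1),(6,0),(2,1),(5,2)]⟩,⟨0,[(4,0),(9,0)]⟩⟩]⟩))))

theorem ok150 : chk K t150 l85 = true := by decide +kernel

noncomputable def t151 : Tre :=
  (.Q [0,0,-1,0,1,0,-2,0,0,-1,2] (.p true [0,0,1] [1,0,-1] (⟨0,[(29,0)]⟩,⟨0,[(28,0)]⟩) .k 2 (⟨0,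
  [(28,0)]⟩,⟨0,[(29,0)]⟩) .k (.r (-1) ⟨4,[(7,5),(0,3),(6,1),(14,0),(2,1)]⟩ ⟨0,[(10,1),(0,1),(24,
  1)]⟩)) (.K ⟨0,[1,1,-1],1,0,(⟨0,[(29,0),(3,0)]⟩,⟨0,[(19,0)]⟩),.k,.k,(.r 0 ⟨1,[(1,1),(24,1),(4,0),
  (5,3),(1,0)]⟩ ⟨0,[(9,0),(3,0)]⟩),(.r 0 ⟨1,[(1,0),(9,3),(0,0),(4,0),(13,0),(5,5)]⟩ ⟨0,[(8,0),(0,0),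
  (4,0)]⟩),.k,[⟨0,[(0,0)]⟩,⟨0,[(1,0)]⟩,⟨0,[(10,0),(25,0)]⟩,⟨0,[(6,0),(30,1)]⟩]⟩) (.Q [0,1,0,1,-1,0,
  1,1,1,1,-1,-1] (.p false [0,0,1] [1,0,0,0,-1] (⟨0,[(30,0)]⟩,⟨0,[(29,0)]⟩) .k 2 (⟨0,[(22,0)]⟩,⟨0,
  [(23,0)]⟩) .k (.r 0 ⟨2,[(8,2),(5,0),(19,0),(2,0)]⟩ ⟨5,[(0,1),(15,0),(0,0),(8,5),(4,1),(7,5)]⟩))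
  (.Q [0,0,-1,0,0,0,0,0,1,0,0,-1] (.p false [0,0,0,0,1] [] (⟨0,[(24,0)]⟩,⟨0,[(23,0)]⟩) .k 0 (⟨0,[]⟩,
  ⟨0,[]⟩) .k .k) (.Q [0,0,0,0,1,0,0,0,-1,-1,0,1] (.p true [0,0,0,0,1] [1] (⟨0,[(25,0)]⟩,⟨0,[(24,
  0)]⟩) .k 1 (⟨0,[]⟩,⟨0,[]⟩) .k .k) (.Q [0,0,0,0,0,-1,0,0,0,1,0,-1] (.ed true [0,1,0,0,1] .k) (.Q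
  [0,-1,0,0,1,0,1,1,-1,0,-1,1] (.p false [0,0,1] [0,0,0,0,1] (⟨0,[(34,0)]⟩,⟨0,[(33,0)]⟩) .k 2 (⟨0,
  [(27,0)]⟩,⟨0,[(26,0)]⟩) .k (.r (-1) ⟨0,[(13,0)]⟩ ⟨5,[(4,1),(15,0),(0,0),(8,5),(4,1)]⟩)) (.S ⟨1,0,
  [],[1,0,0,0,-1],[0,-1],(⟨0,[(27,0)]⟩,⟨0,[(28,0)]⟩),⟨0,[(1,0)]⟩,.k,(.r (-1) ⟨1,[(20,0),(20,0),(2,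
  0)]⟩ ⟨5,[(2,0),(1,2),(1,1),(18,1),(5,2),(1,1),(2,1),(5,2)]⟩),⟨false,1,⟨1,[(25,0),(0,0),(17,0)]⟩,
  ⟨0,[]⟩⟩,⟨true,0,⟨0,[(46,0)]⟩,⟨0,[]⟩⟩,⟨true,0,⟨0,[(42,0)]⟩,⟨0,[(41,0)]⟩⟩,⟨false,0,⟨0,[(42,0)]⟩,⟨0,
  [(41,0),(2,0)]⟩⟩,[.o ⟨false,1,⟨0,[(2,0)]⟩,⟨0,[(26,0)]⟩⟩,.a ⟨true,1,⟨0,[(0,0),(15,0),(25,0)]⟩,⟨0,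
  [(8,0)]⟩⟩ ⟨true,1,⟨0,[(44,0)]⟩,⟨0,[(6,0),(4,0),(1,0),(5,0),(22,1)]⟩⟩ ⟨false,1,⟨1,[(43,0),(0,0)]⟩,
  ⟨0,[(46,0)]⟩⟩,.o ⟨false,1,⟨0,[(2,0)]⟩,⟨0,[(26,0)]⟩⟩,.o ⟨false,1,⟨2,[(2,1),(3,0),(18,0),(7,0),(2,
  0)]⟩,⟨0,[(3,0)]⟩⟩]⟩) (.R ⟨1,false,false,true,[1,0,0,0,-1],[1,1,-1],[0,-1],(⟨0,[(27,0)]⟩,⟨0,[(28,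
  0)]⟩),(⟨0,[(34,0),(3,0)]⟩,⟨0,[(24,0)]⟩),⟨0,[(1,0)]⟩,.k,.k,(.r (-1) ⟨1,[(20,0),(20,0),(2,0)]⟩ ⟨5,
  [(2,0),(1,2),(1,1),(18,1),(5,2),(1,1),(2,1),(5,2)]⟩),(.r (-1) ⟨0,[(13,0),(6,0)]⟩ ⟨0,[(31,0),(0,0),
  (9,0)]⟩),(.r (-2) ⟨0,[(14,0),(5,0),(20,0)]⟩ ⟨0,[(6,0),(4,0),(30,2)]⟩),.k,⟨false,2,⟨0,[(14,0),(5,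
  0)]⟩,⟨2,[(6,2),(4,2),(7,0),(19,0),(2,6)]⟩⟩,⟨true,0,⟨1,[(0,1),(12,1),(7,1),(14,0),(7,0)]⟩,⟨0,[(2,
  0),(3,0)]⟩⟩,⟨false,1,⟨1,[(25,0),(0,0),(17,0)]⟩,⟨0,[]⟩⟩,⟨false,(-1),⟨0,[(0,0),(41,0)]⟩,⟨0,[(2,0),
  (3,0),(7,0),(5,0)]⟩⟩,⟨true,0,⟨0,[(42,0)]⟩,⟨0,[(41,0)]⟩⟩,⟨false,(-1),⟨0,[(0,0),(41,1)]⟩,⟨0,[(2,0),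
  (3,0),(7,0),(3,0),(25,0)]⟩⟩,[.o ⟨false,0,⟨0,[(11,0),(30,1)]⟩,⟨32,[(5,19),(3,8),(4,41),(3,4),(1,4),
  (1,0),(13,5)]⟩⟩,.a ⟨true,0,⟨0,[(16,0),(25,1)]⟩,⟨1,[(6,0),(7,0),(0,0),(2,0)]⟩⟩ ⟨true,1,⟨0,[(44,
  0)]⟩,⟨0,[(6,0),(4,0),(1,0),(5,0),(22,1)]⟩⟩ ⟨false,0,⟨1,[(0,1),(41,1),(0,0),(0,0)]⟩,⟨1,[(2,1),(3,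
  0),(7,0),(0,0),(2,0)]⟩⟩,.o ⟨false,1,⟨0,[(2,0)]⟩,⟨0,[(26,0)]⟩⟩,.o ⟨false,1,⟨2,[(2,1),(3,0),(18,0),
  (7,0),(2,0)]⟩,⟨0,[(3,0)]⟩⟩]⟩)) (.R ⟨0,false,false,false,[1,0,0,0,-1],[0,1,1],[1,0,1,1,0,0,0,1],
  (⟨0,[(26,0)]⟩,⟨0,[(27,0)]⟩),(⟨0,[(34,0),(2,0)]⟩,⟨0,[(22,0)]⟩),⟨0,[(0,0)]⟩,.k,.k,(.r (-1) ⟨1,[(19,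
  0),(20,0),(2,0)]⟩ ⟨5,[(1,0),(1,2),(1,1),(18,1),(5,2),(1,1),(2,1),(5,2)]⟩),(.r (-1) ⟨1,[(15,1),(4,
  0),(0,0),(13,0),(7,0)]⟩ ⟨0,[(1,0),(1,0),(28,0)]⟩),.k,.k,⟨true,0,⟨0,[]⟩,⟨1,[(31,0),(0,0)]⟩⟩,⟨false,
  0,⟨1,[(2,1),(17,0),(0,0)]⟩,⟨0,[(1,0),(30,0)]⟩⟩,⟨false,0,⟨0,[(12,0),(28,0)]⟩,⟨1,[(15,1),(4,0),(0,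
  0),(13,0),(7,0)]⟩⟩,⟨true,(-1),⟨0,[(3,0)]⟩,⟨0,[(1,0),(13,0)]⟩⟩,⟨false,0,⟨0,[]⟩,⟨0,[]⟩⟩,⟨false,0,⟨0,
  []⟩,⟨0,[]⟩⟩,[.a ⟨true,0,⟨0,[(14,0),(26,0)]⟩,⟨0,[(15,0)]⟩⟩ ⟨true,0,⟨0,[(12,0),(28,0)]⟩,⟨5,[(4,1),
  (10,5),(4,0),(0,0),(13,1)]⟩⟩ ⟨false,0,⟨1,[(3,1),(38,0),(0,0)]⟩,⟨0,[(1,0),(13,0)]⟩⟩,.o ⟨false,1,⟨0,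
  [(1,0),(1,0),(39,0)]⟩,⟨0,[(10,0)]⟩⟩,.o ⟨false,1,⟨0,[(1,0)]⟩,⟨0,[(25,0)]⟩⟩,.o ⟨false,1,⟨2,[(1,1),
  (3,0),(18,0),(7,0),(2,0)]⟩,⟨0,[(2,0)]⟩⟩]⟩)) (.Q [0,2,0,0,-2,0,0,0,1,1,0,-1] (.p false [0,0,0,0,1]
  [1] (⟨0,[(26,0)]⟩,⟨0,[(25,0)]⟩) .k 1 (⟨0,[]⟩,⟨0,[]⟩) .k .k) (.Q [0,0,1,0,1,0,0,0,-1,-1,0,1] (.p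
  true [0,0,0,0,1] [1] (⟨0,[(27,0)]⟩,⟨0,[(26,0)]⟩) .k 1 (⟨0,[]⟩,⟨0,[]⟩) .k .k) (.Q [0,0,0,0,0,-1,0,
  0,0,1,0,-1] (.ed true [0,1,0,0,1] .k) (.S ⟨1,0,[0,-1],[1,0,0,0,-1],[],(⟨0,[(28,0)]⟩,⟨0,[(29,0)]⟩),
  ⟨0,[(0,0)]⟩,.k,(.r (-1) ⟨1,[(21,0),(20,0),(2,0)]⟩ ⟨7,[(1,4),(3,3),(1,0),(19,0),(4,3),(1,0),(8,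
  3)]⟩),⟨true,0,⟨0,[(47,0)]⟩,⟨0,[]⟩⟩,⟨false,1,⟨1,[(26,0),(0,0),(17,0)]⟩,⟨0,[]⟩⟩,⟨false,0,⟨0,[(43,
  0)]⟩,⟨0,[(42,0),(2,0)]⟩⟩,⟨true,0,⟨0,[(43,0)]⟩,⟨0,[(42,0)]⟩⟩,[.o ⟨false,2,⟨1,[(26,1),(10,0),(7,
  0)]⟩,⟨1,[(2,0),(0,0),(33,0)]⟩⟩,.a ⟨true,2,⟨0,[(26,0),(18,0)]⟩,⟨0,[(2,0)]⟩⟩ ⟨false,1,⟨1,[(44,0),(0,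
  0)]⟩,⟨0,[(47,0)]⟩⟩ ⟨true,1,⟨0,[(45,0)]⟩,⟨0,[(1,0),(0,0)]⟩⟩,.e ⟨false,1,⟨1,[(26,0),(0,0),(17,0)]⟩,
  ⟨0,[]⟩⟩ ⟨false,1,⟨0,[(45,0)]⟩,⟨0,[(47,0)]⟩⟩,.o ⟨false,1,⟨0,[(1,0)]⟩,⟨0,[(4,0)]⟩⟩]⟩) (.R ⟨0,false,
  false,false,[1,0,0,0,-1],[1,0,-1],[1,0,1],(⟨0,[(28,0)]⟩,⟨0,[(29,0)]⟩),(⟨0,[(35,0)]⟩,⟨0,[(36,0)]⟩),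
  ⟨0,[(0,0)]⟩,.k,.k,(.r (-1) ⟨1,[(21,0),(20,0),(2,0)]⟩ ⟨7,[(1,4),(3,3),(1,0),(19,0),(4,3),(1,0),(8,
  3)]⟩),.k,.k,.k,⟨true,0,⟨0,[(14,0)]⟩,⟨7,[(6,3),(10,5),(4,1),(9,1),(4,2),(5,5),(1,0)]⟩⟩,⟨false,0,⟨0,
  [(3,0),(18,0),(11,0),(2,0)]⟩,⟨1,[(1,0),(6,0),(14,0)]⟩⟩,⟨false,0,⟨3,[(1,0),(5,0),(19,0),(6,0)]⟩,⟨1,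
  [(44,0),(0,0)]⟩⟩,⟨true,(-1),⟨0,[(3,0),(8,0),(30,0)]⟩,⟨4,[(6,1),(1,4),(5,2),(0,0),(15,0),(5,0)]⟩⟩,
  ⟨false,0,⟨0,[]⟩,⟨0,[]⟩⟩,⟨false,0,⟨0,[]⟩,⟨0,[]⟩⟩,[.e ⟨false,0,⟨0,[]⟩,⟨1,[(26,0),(0,0),(16,0)]⟩⟩
  ⟨false,0,⟨0,[(4,0),(12,0),(25,0)]⟩,⟨4,[(6,1),(1,4),(5,2),(0,0),(15,0),(5,0)]⟩⟩,.o ⟨false,1,⟨1,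
  [(17,1),(19,0),(5,1),(1,0)]⟩,⟨0,[(31,0)]⟩⟩,.a ⟨true,1,⟨0,[(26,0)]⟩,⟨0,[(3,0)]⟩⟩ ⟨true,0,⟨3,[(1,0),
  (5,0),(19,0),(6,0)]⟩,⟨2,[(20,0),(19,0),(2,0)]⟩⟩ ⟨false,0,⟨1,[(3,1),(13,1),(19,0),(5,1),(1,0)]⟩,⟨4,
  [(6,1),(1,4),(5,2),(0,0),(15,0),(5,0)]⟩⟩,.o ⟨false,1,⟨0,[(1,0)]⟩,⟨0,[(4,0)]⟩⟩]⟩)) (.Q [0,0,0,0,0,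
  -1,0,0,0,1,0,-1] (.ed true [0,1,0,0,1] .k) (.S ⟨1,0,[],[1,0,0,0,-1],[0,-1],(⟨0,[(28,0)]⟩,⟨0,[(29,
  0)]⟩),⟨0,[(0,0)]⟩,.k,(.r (-1) ⟨1,[(21,0),(20,0),(2,0)]⟩ ⟨2,[(5,0),(1,0),(18,0),(5,0),(1,0),(2,0),
  (5,1),(3,0)]⟩),⟨false,1,⟨1,[(26,0),(0,0),(17,0)]⟩,⟨0,[]⟩⟩,⟨true,0,⟨0,[(47,0)]⟩,⟨0,[]⟩⟩,⟨true,0,⟨0,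
  [(43,0)]⟩,⟨0,[(42,0)]⟩⟩,⟨false,0,⟨0,[(43,0)]⟩,⟨0,[(42,0),(2,0)]⟩⟩,[.e ⟨false,1,⟨1,[(44,0),(0,0)]⟩,
  ⟨0,[(47,0)]⟩⟩ ⟨false,1,⟨1,[(26,0),(0,0),(16,0)]⟩,⟨0,[]⟩⟩,.o ⟨false,2,⟨1,[(26,1),(10,0),(7,0)]⟩,⟨1,
  [(2,0),(0,0),(33,0)]⟩⟩,.e ⟨false,1,⟨0,[(45,0)]⟩,⟨0,[(47,0)]⟩⟩ ⟨false,1,⟨1,[(26,0),(0,0),(17,0)]⟩,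
  ⟨0,[]⟩⟩,.a ⟨true,1,⟨1,[(26,1),(6,0),(0,0)]⟩,⟨0,[(1,0)]⟩⟩ ⟨true,1,⟨1,[(44,0),(0,0)]⟩,⟨1,[(2,0),(3,
  0),(1,0),(3,1),(1,1),(28,1)]⟩⟩ ⟨false,1,⟨1,[(44,0),(0,0)]⟩,⟨1,[(33,0),(0,0)]⟩⟩]⟩) (.R ⟨0,false,
  false,true,[1,0,0,0,-1],[0,1],[1,1],(⟨0,[(28,0)]⟩,⟨0,[(29,0)]⟩),(⟨0,[(39,0)]⟩,⟨0,[(38,0)]⟩),⟨0,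
  [(0,0)]⟩,.k,.k,(.r (-1) ⟨1,[(21,0),(20,0),(2,0)]⟩ ⟨2,[(5,0),(1,0),(18,0),(5,0),(1,0),(2,0),(5,1),
  (3,0)]⟩),(.r (-1) ⟨1,[(21,0),(20,0),(2,0)]⟩ ⟨2,[(5,0),(1,0),(18,0),(5,0),(1,0),(2,0),(5,1),(3,
  0)]⟩),.k,.k,⟨false,1,⟨1,[(21,0),(20,0),(1,0)]⟩,⟨1,[(33,0),(0,0),(8,1)]⟩⟩,⟨true,(-1),⟨0,[(1,0)]⟩,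
  ⟨0,[(7,0),(0,0),(25,0),(2,0)]⟩⟩,⟨false,0,⟨0,[(47,0)]⟩,⟨0,[(45,0)]⟩⟩,⟨true,(-2),⟨0,[(2,0),(40,0)]⟩,
  ⟨11,[(6,1),(1,1),(1,3),(3,3),(4,1),(6,9),(10,4),(7,8)]⟩⟩,⟨false,0,⟨0,[]⟩,⟨0,[]⟩⟩,⟨false,0,⟨0,[]⟩,
  ⟨0,[]⟩⟩,[.e ⟨false,0,⟨2,[(20,0),(19,0),(2,0)]⟩,⟨1,[(26,0),(0,0),(17,0)]⟩⟩ ⟨false,(-1),⟨3,[(1,0),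
  (0,0),(1,0),(0,0),(16,0),(9,0),(10,2)]⟩,⟨11,[(6,1),(1,1),(1,3),(3,3),(4,1),(6,9),(10,4),(7,8)]⟩⟩,
  .o ⟨false,0,⟨0,[(43,0)]⟩,⟨7,[(10,3),(4,3),(7,1),(2,0),(0,0),(9,2)]⟩⟩,.e ⟨false,0,⟨0,[]⟩,⟨1,[(26,
  0),(0,0),(17,0)]⟩⟩ ⟨false,(-1),⟨0,[(3,0),(39,0)]⟩,⟨11,[(6,1),(1,1),(1,3),(3,3),(4,1),(6,9),(10,4),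
  (7,8)]⟩⟩,.a ⟨true,1,⟨1,[(26,1),(6,0),(0,0)]⟩,⟨0,[(1,0)]⟩⟩ ⟨true,0,⟨2,[(20,0),(19,0),(2,0)]⟩,⟨1,
  [(33,0),(0,0)]⟩⟩ ⟨false,(-1),⟨0,[(1,0),(41,0)]⟩,⟨1,[(7,0),(2,0),(4,0),(10,1),(10,0),(7,0)]⟩⟩]⟩)))
  (.Q [0,1,0,0,-1,0,0,0,1,0,0,-1] (.p false [0,0,0,0,1] [] (⟨0,[(27,0)]⟩,⟨0,[(26,0)]⟩) .k 0 (⟨0,[]⟩,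
  ⟨0,[]⟩) .k .k) (.R ⟨1,false,false,false,[1,0,-1],[1,0,0,0,-1],[0,1,0,0,0,0,0,-1],(⟨0,[(34,0)]⟩,⟨0,
  [(35,0)]⟩),(⟨0,[(27,0)]⟩,⟨0,[(28,0)]⟩),⟨0,[(23,0)]⟩,.k,.k,.k,.k,(.r 0 ⟨1,[(11,1),(9,0),(0,0)]⟩ ⟨0,
  [(1,0),(2,0),(28,0)]⟩),.k,⟨true,(-1),⟨0,[(6,0),(4,0),(7,0),(22,1)]⟩,⟨0,[(13,0),(30,0)]⟩⟩,⟨false,1,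
  ⟨5,[(5,1),(1,5),(13,0),(0,0),(13,1)]⟩,⟨0,[(3,0),(29,0)]⟩⟩,⟨true,0,⟨0,[(46,0)]⟩,⟨0,[]⟩⟩,⟨false,2,
  ⟨0,[(1,0),(13,0)]⟩,⟨0,[(2,0),(8,0),(30,0)]⟩⟩,⟨false,0,⟨0,[(42,0)]⟩,⟨0,[(41,0),(2,0)]⟩⟩,⟨false,2,
  ⟨0,[(1,0),(13,0),(26,0)]⟩,⟨0,[(2,0),(8,0)]⟩⟩,[.o ⟨false,2,⟨3,[(1,1),(23,2),(0,0),(9,0)]⟩,⟨0,[(0,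
  0)]⟩⟩,.o ⟨false,2,⟨0,[(1,0)]⟩,⟨0,[(4,0),(6,0)]⟩⟩,.o ⟨false,1,⟨1,[(33,1),(2,0),(6,0)]⟩,⟨0,[(17,
  0)]⟩⟩,.a ⟨true,0,⟨0,[(33,0)]⟩,⟨0,[(29,0)]⟩⟩ ⟨true,0,⟨3,[(5,1),(5,0),(9,2),(9,2),(4,1),(5,0)]⟩,⟨0,
  [(13,0)]⟩⟩ ⟨false,2,⟨1,[(1,1),(19,0),(0,0)]⟩,⟨0,[(0,0),(32,0)]⟩⟩]⟩) (.R ⟨1,false,false,false,[1,0,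
  -1],[0,0,0,0,1],[0,0,0,0,0,0,0,-1],(⟨0,[(34,0)]⟩,⟨0,[(35,0)]⟩),(⟨0,[(28,0)]⟩,⟨0,[(27,0)]⟩),⟨0,
  [(23,0)]⟩,.k,.k,.k,.k,(.r (-1) ⟨1,[(16,1),(4,0),(0,0),(13,0),(7,0)]⟩ ⟨0,[(13,0),(28,0),(3,0)]⟩),
  .k,⟨false,1,⟨7,[(5,3),(10,1),(4,5),(9,5),(4,4),(5,1),(1,6)]⟩,⟨2,[(13,2),(5,0),(19,0),(2,0)]⟩⟩,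
  ⟨true,(-1),⟨1,[(2,0),(0,0),(1,0)]⟩,⟨0,[(0,0),(10,0),(1,0),(28,0)]⟩⟩,⟨false,1,⟨5,[(1,0),(12,1),(7,
  0),(3,0),(4,1),(12,1)]⟩,⟨0,[]⟩⟩,⟨true,(-1),⟨8,[(2,0),(1,5),(0,0),(0,0),(6,2),(4,2),(7,1)]⟩,⟨0,[(0,
  0),(10,0),(30,0)]⟩⟩,⟨true,0,⟨0,[(42,0)]⟩,⟨0,[(41,0)]⟩⟩,⟨true,(-1),⟨0,[(4,0)]⟩,⟨0,[(0,0),(10,0)]⟩⟩,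
  [.a ⟨true,(-1),⟨0,[(8,0)]⟩,⟨0,[(0,0)]⟩⟩ ⟨true,0,⟨7,[(5,3),(10,5),(4,1),(9,1),(4,2),(5,5),(1,0)]⟩,
  ⟨0,[(13,0)]⟩⟩ ⟨false,(-1),⟨1,[(3,0),(0,0),(0,0),(5,0),(9,0)]⟩,⟨3,[(1,1),(5,1),(25,3),(2,0),(6,
  0)]⟩⟩,.a ⟨true,(-1),⟨0,[(2,0)]⟩,⟨0,[(25,0)]⟩⟩ ⟨false,1,⟨7,[(5,3),(10,1),(4,5),(9,5),(4,4),(5,1),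
  (1,6)]⟩,⟨2,[(13,2),(5,0),(19,0),(2,0)]⟩⟩ ⟨true,(-1),⟨1,[(2,0),(0,0),(1,0)]⟩,⟨0,[(0,0),(10,0),(1,
  0),(28,0)]⟩⟩,.o ⟨false,1,⟨1,[(33,1),(2,0),(6,0)]⟩,⟨0,[(17,0)]⟩⟩,.a ⟨true,0,⟨0,[(33,0)]⟩,⟨0,[(29,
  0)]⟩⟩ ⟨false,1,⟨7,[(5,3),(10,1),(4,5),(9,5),(4,4),(5,1),(1,6)]⟩,⟨0,[(13,0)]⟩⟩ ⟨true,(-1),⟨1,[(3,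
  0),(0,0),(0,0),(5,0),(9,0)]⟩,⟨0,[(0,0),(10,0),(1,0),(28,0)]⟩⟩]⟩)))) (.Q [0,0,0,0,0,-1,0,0,0,1,0,
  -1] (.ed true [0,1,0,0,1] .k) (.S ⟨1,0,[0,-1],[1,0,0,0,-1],[1,0,0,-1],(⟨0,[(25,0)]⟩,⟨0,[(26,0)]⟩),
  ⟨0,[(0,0)]⟩,.k,(.r (-1) ⟨1,[(18,0),(20,0),(2,0)]⟩ ⟨2,[(2,0),(1,0),(18,0),(5,0),(1,0),(2,0),(5,1),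
  (3,0)]⟩),⟨true,0,⟨0,[(39,0)]⟩,⟨0,[(40,0)]⟩⟩,⟨false,1,⟨1,[(23,0),(0,0),(17,0)]⟩,⟨0,[]⟩⟩,⟨false,0,
  ⟨0,[]⟩,⟨1,[(23,0),(0,0),(17,0)]⟩⟩,⟨true,0,⟨0,[(40,0)]⟩,⟨0,[(39,0)]⟩⟩,[.e ⟨false,1,⟨1,[(39,1),(1,
  0),(0,0)]⟩,⟨0,[(40,0)]⟩⟩ ⟨false,1,⟨1,[(41,0),(0,0)]⟩,⟨0,[(44,0)]⟩⟩,.o ⟨false,2,⟨1,[(1,0),(3,0),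
  (28,0),(7,1)]⟩,⟨0,[(2,0),(6,0)]⟩⟩,.o ⟨false,1,⟨1,[(1,0),(3,0),(28,0)]⟩,⟨0,[(24,0)]⟩⟩,.a ⟨true,0,
  ⟨0,[(1,0)]⟩,⟨9,[(6,3),(5,1),(6,4),(0,0),(3,5),(4,1),(12,1)]⟩⟩ ⟨false,1,⟨1,[(18,0),(20,0),(2,0)]⟩,
  ⟨1,[(30,0),(0,0),(8,1)]⟩⟩ ⟨true,1,⟨1,[(41,0),(0,0)]⟩,⟨0,[(1,0),(0,0),(6,0)]⟩⟩]⟩) (.Q [0,0,0,0,0,0,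
  1,0,-1,0,-1,1] (.p false [0,0,1] [0,0,0,0,1] (⟨0,[(33,0)]⟩,⟨0,[(32,0)]⟩) .k 2 (⟨0,[(26,0)]⟩,⟨0,
  [(25,0)]⟩) .k (.r (-1) ⟨0,[(12,0)]⟩ ⟨5,[(3,1),(15,0),(0,0),(8,5),(4,1)]⟩)) (.R ⟨0,false,false,
  false,[1,0,0,0,-1],[1,-1,-1],[0,0,-1,-1,0,0,0,-1],(⟨0,[(26,0)]⟩,⟨0,[(27,0)]⟩),(⟨0,[(22,0)]⟩,⟨0,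
  [(34,0),(2,0)]⟩),⟨0,[(1,0)]⟩,.k,.k,(.r (-1) ⟨1,[(19,0),(20,0),(2,0)]⟩ ⟨2,[(3,0),(1,0),(18,0),(5,
  0),(1,0),(2,0),(5,1),(3,0)]⟩),(.r (-1) ⟨1,[(13,1),(17,0),(0,0),(8,1)]⟩ ⟨1,[(10,1),(9,0),(0,0)]⟩),
  .k,.k,⟨false,1,⟨1,[(24,0),(0,0),(16,0)]⟩,⟨0,[]⟩⟩,⟨true,0,⟨0,[(25,0),(6,0)]⟩,⟨0,[(0,0)]⟩⟩,⟨true,0,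
  ⟨1,[(10,1),(9,0),(0,0)]⟩,⟨0,[(12,0),(28,0)]⟩⟩,⟨false,0,⟨0,[(15,0),(9,0)]⟩,⟨0,[(0,0),(12,0),(27,
  0)]⟩⟩,⟨false,0,⟨0,[]⟩,⟨0,[]⟩⟩,⟨false,0,⟨0,[]⟩,⟨0,[]⟩⟩,[.a ⟨true,0,⟨0,[(15,0)]⟩,⟨0,[(14,0),(26,
  0)]⟩⟩ ⟨false,1,⟨1,[(15,0),(3,0),(0,0),(0,0),(8,0),(4,0)]⟩,⟨0,[(12,0),(28,0)]⟩⟩ ⟨true,0,⟨0,[(15,0),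
  (9,0)]⟩,⟨0,[(0,0),(11,0),(28,0)]⟩⟩,.o ⟨false,1,⟨1,[(15,1),(19,0),(7,0)]⟩,⟨0,[(29,0),(11,0)]⟩⟩,.o
  ⟨false,1,⟨1,[(2,0),(3,0),(28,0)]⟩,⟨0,[(25,0)]⟩⟩,.e ⟨false,1,⟨5,[(4,1),(10,5),(4,6),(0,0),(13,4),
  (7,2)]⟩,⟨1,[(12,1),(18,0),(0,0),(8,1)]⟩⟩ ⟨false,1,⟨1,[(15,0),(3,0),(5,1),(4,0),(12,0)]⟩,⟨0,[(0,0),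
  (11,0),(28,0)]⟩⟩]⟩) (.K ⟨0,[0,0,0,0,1],0,(-1),(⟨0,[(27,0)]⟩,⟨0,[(26,0)]⟩),.k,(.r 0 ⟨0,[(39,0)]⟩
  ⟨3,[(13,1),(16,1),(0,2),(0,0),(8,3),(1,1)]⟩),(.r 0 ⟨2,[(3,0),(1,0),(18,0),(5,0),(1,0),(2,0),(5,1),
  (3,0)]⟩ ⟨1,[(19,0),(20,0),(2,0)]⟩),.k,.k,[⟨0,[(0,0)]⟩,⟨0,[(2,0)]⟩,⟨0,[(24,0)]⟩,⟨0,[(3,0),(6,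
  0)]⟩]⟩)))) (.Q [0,0,0,0,0,-1,0,0,0,1,0,-1] (.ed true [0,1,0,0,1] .k) (.R ⟨1,false,false,false,[1,
  0,0,0,-1],[0,0,1],[],(⟨0,[(24,0)]⟩,⟨0,[(25,0)]⟩),(⟨0,[(32,0)]⟩,⟨0,[(31,0)]⟩),⟨0,[(0,0)]⟩,.k,.k,
  (.r (-1) ⟨1,[(17,0),(20,0),(2,0)]⟩ ⟨1,[(29,0),(0,0),(8,1),(3,1)]⟩),.k,(.r (-1) ⟨1,[(13,1),(4,0),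
  (0,0),(13,0),(7,0)]⟩ ⟨0,[(10,0),(28,0),(3,0)]⟩),.k,⟨true,0,⟨7,[(2,3),(10,5),(4,1),(9,1),(4,2),(5,
  5),(1,0)]⟩,⟨0,[(10,0)]⟩⟩,⟨false,0,⟨1,[(18,0),(0,0),(3,1)]⟩,⟨2,[(1,1),(2,0),(3,0),(1,2),(5,0),(22,
  3)]⟩⟩,⟨true,0,⟨0,[(43,0)]⟩,⟨0,[]⟩⟩,⟨false,0,⟨0,[(12,0),(10,0)]⟩,⟨0,[(1,0),(37,0)]⟩⟩,⟨false,0,⟨0,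
  [(39,0)]⟩,⟨0,[(38,0),(2,0)]⟩⟩,⟨false,0,⟨0,[(12,0),(10,0),(15,0)]⟩,⟨0,[(1,0)]⟩⟩,[.e ⟨false,1,⟨1,
  [(22,0),(0,0),(16,0)]⟩,⟨0,[]⟩⟩ ⟨false,0,⟨4,[(2,1),(7,2),(0,0),(6,4),(4,4),(3,0),(5,0)]⟩,⟨1,[(1,0),
  (6,0),(13,0),(16,1)]⟩⟩,.o ⟨false,1,⟨5,[(2,1),(8,5),(6,0),(0,0),(13,1)]⟩,⟨0,[(8,0),(30,0)]⟩⟩,.o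
  ⟨false,1,⟨0,[(1,0),(25,0),(11,0)]⟩,⟨0,[(23,0)]⟩⟩,.a ⟨true,0,⟨0,[(1,0),(1,0),(6,0),(5,0),(22,1)]⟩,
  ⟨9,[(5,3),(5,1),(6,4),(0,0),(3,5),(4,1),(12,1)]⟩⟩ ⟨false,1,⟨1,[(40,0),(0,0)]⟩,⟨1,[(29,0),(0,0)]⟩⟩
  ⟨true,0,⟨4,[(2,1),(7,2),(0,0),(6,4),(4,4),(3,0),(5,0)]⟩,⟨0,[(1,0),(1,0),(4,0),(1,0),(5,0),(22,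
  2)]⟩⟩]⟩) (.R ⟨0,false,false,false,[1,0,0,0,-1],[0,0,1],[],(⟨0,[(24,0)]⟩,⟨0,[(25,0)]⟩),(⟨0,[(32,
  0)]⟩,⟨0,[(31,0)]⟩),⟨0,[(0,0)]⟩,.k,.k,(.r (-1) ⟨1,[(17,0),(20,0),(2,0)]⟩ ⟨1,[(29,0),(0,0),(8,1),(3,
  1)]⟩),.k,.k,.k,⟨true,0,⟨7,[(2,3),(10,5),(4,1),(9,1),(4,2),(5,5),(1,0)]⟩,⟨0,[(10,0)]⟩⟩,⟨false,0,⟨1,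
  [(18,0),(0,0),(3,1)]⟩,⟨2,[(1,1),(2,0),(3,0),(1,2),(5,0),(22,3)]⟩⟩,⟨true,0,⟨0,[(43,0)]⟩,⟨0,[]⟩⟩,
  ⟨false,0,⟨0,[(12,0),(10,0)]⟩,⟨0,[(1,0),(37,0)]⟩⟩,⟨false,0,⟨0,[]⟩,⟨0,[]⟩⟩,⟨false,0,⟨0,[]⟩,⟨0,[]⟩⟩,
  [.e ⟨false,1,⟨1,[(22,0),(0,0),(16,0)]⟩,⟨0,[]⟩⟩ ⟨false,0,⟨4,[(2,1),(7,2),(0,0),(6,4),(4,4),(3,0),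
  (5,0)]⟩,⟨1,[(1,0),(6,0),(13,0),(16,1)]⟩⟩,.o ⟨false,1,⟨5,[(2,1),(8,5),(6,0),(0,0),(13,1)]⟩,⟨0,[(8,
  0),(30,0)]⟩⟩,.o ⟨false,1,⟨0,[(1,0),(25,0),(11,0)]⟩,⟨0,[(23,0)]⟩⟩,.a ⟨true,0,⟨0,[(1,0),(1,0),(6,0),
  (5,0),(22,1)]⟩,⟨9,[(5,3),(5,1),(6,4),(0,0),(3,5),(4,1),(12,1)]⟩⟩ ⟨false,1,⟨1,[(40,0),(0,0)]⟩,⟨1,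
  [(29,0),(0,0)]⟩⟩ ⟨true,0,⟨4,[(2,1),(7,2),(0,0),(6,4),(4,4),(3,0),(5,0)]⟩,⟨0,[(1,0),(1,0),(4,0),(1,
  0),(5,0),(22,2)]⟩⟩]⟩))))

theorem ok151 : chk K t151 r85 = true := by decide +kernel


end Helper25.S1T.Ypm_1c
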