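import Pool.Agent.Helper25.S1T.Ypm_1c_q

set_option autoImplicit false
set_option linter.all false

namespace Helper25.S1T.Ypm_1c

open Helper25.KG Helper25.KW Helper55.KE Helper11.CT

noncomputable def t156 : Tre :=
  (.Q [0,0,-2,0,1,0,-1,0,0,-1,1] (.p true [0,0,1] [1] (⟨0,[(25,0)]⟩,⟨0,[(24,0)]⟩) .k 1 (⟨0,[]⟩,⟨0,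
  []⟩) .k .k) (.R ⟨0,false,false,true,[0,-1,1],[1,-1,-1],[1,1],(⟨0,[(15,0)]⟩,⟨1,[(1,0),(23,1),(0,
  0)]⟩),(⟨0,[(14,0)]⟩,⟨1,[(1,0),(24,2)]⟩),⟨0,[(1,0)]⟩,.k,.k,(.r (-1) ⟨0,[(5,0),(3,0)]⟩ ⟨1,[(7,1),
  (15,2),(0,0),(8,5)]⟩),.k,.k,.k,⟨true,0,⟨0,[(4,0),(28,0)]⟩,⟨0,[(7,0),(0,0)]⟩⟩,⟨false,1,⟨0,[(0,0),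
  (23,0)]⟩,⟨0,[(13,0)]⟩⟩,⟨false,0,⟨0,[(7,0),(15,0),(9,1)]⟩,⟨0,[(4,0),(6,0)]⟩⟩,⟨true,0,⟨0,[(2,0),(4,
  0),(25,1)]⟩,⟨0,[(4,1),(3,1),(3,0)]⟩⟩,⟨false,0,⟨0,[]⟩,⟨0,[]⟩⟩,⟨false,0,⟨0,[]⟩,⟨0,[]⟩⟩,[.o ⟨false,0,
  ⟨0,[(2,0)]⟩,⟨0,[(5,0),(2,0),(24,0)]⟩⟩,.a ⟨true,0,⟨0,[(7,0)]⟩,⟨0,[(6,0),(26,0)]⟩⟩ ⟨true,0,⟨0,[]⟩,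
  ⟨1,[(23,0),(0,0)]⟩⟩ ⟨false,1,⟨0,[(0,0),(6,0)]⟩,⟨0,[(6,0),(16,0),(9,0)]⟩⟩,.o ⟨false,0,⟨0,[(23,0)]⟩,
  ⟨4,[(0,2),(4,0),(16,0),(1,0),(2,0)]⟩⟩,.o ⟨false,0,⟨1,[(23,2),(0,0)]⟩,⟨0,[(0,0)]⟩⟩]⟩) (.Q [0,0,-1,
  0,1,0,-2,0,0,-1,2] (.p true [0,0,1] [1,0,-1] (⟨0,[(26,0)]⟩,⟨0,[(25,0)]⟩) .k 2 (⟨0,[(25,0)]⟩,⟨0,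
  [(26,0)]⟩) .k (.r (-1) ⟨4,[(4,5),(0,3),(6,1),(14,0),(2,1)]⟩ ⟨0,[(7,1),(0,1),(24,1)]⟩)) (.K ⟨0,[1,
  1,-1],1,0,(⟨17,[(1,1),(0,8),(4,3),(5,2),(9,3),(1,1),(0,8),(9,1)]⟩,⟨0,[(16,0)]⟩),.k,.k,(.r 0 ⟨1,
  [(1,1),(21,1),(4,0),(5,3),(1,0)]⟩ ⟨0,[(6,0),(3,0)]⟩),(.r 0 ⟨1,[(1,0),(6,3),(0,0),(4,0),(13,0),(5,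
  5)]⟩ ⟨0,[(5,0),(0,0),(4,0)]⟩),.k,[⟨0,[(0,0)]⟩,⟨0,[(1,0)]⟩,⟨0,[(7,0),(25,0)]⟩,⟨0,[(3,0),(30,
  1)]⟩]⟩) (.R ⟨0,false,false,true,[0,-1,1],[1,-1,-1],[1,0,1],(⟨0,[(16,0)]⟩,⟨17,[(1,1),(0,8),(4,3),
  (5,2),(9,3),(1,1),(0,8),(9,1)]⟩),(⟨0,[(15,0)]⟩,⟨1,[(2,0),(24,2)]⟩),⟨0,[(2,0)]⟩,.k,.k,(.r (-1) ⟨0,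
  [(6,0),(3,0)]⟩ ⟨1,[(1,1),(21,1),(4,0),(5,3),(1,0)]⟩),.k,.k,.k,⟨false,1,⟨1,[(6,1),(17,0),(0,0),(8,
  1)]⟩,⟨5,[(0,1),(2,5),(9,6),(0,0),(13,1)]⟩⟩,⟨true,1,⟨0,[(13,0),(11,1),(2,0)]⟩,⟨0,[(0,0)]⟩⟩,⟨false,
  0,⟨1,[(1,1),(6,1),(19,0),(5,3),(1,0)]⟩,⟨0,[(6,0),(4,0)]⟩⟩,⟨true,0,⟨0,[(3,0),(4,0),(25,1)]⟩,⟨4,[(0,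
  3),(4,5),(0,1),(6,4),(8,1),(5,1)]⟩⟩,⟨false,0,⟨0,[]⟩,⟨0,[]⟩⟩,⟨false,0,⟨0,[]⟩,⟨0,[]⟩⟩,[.o ⟨false,0,
  ⟨0,[(3,0)]⟩,⟨5,[(0,1),(5,5),(6,0),(0,0),(13,1),(5,5)]⟩⟩,.a ⟨true,0,⟨0,[(8,0)]⟩,⟨0,[(7,0),(26,
  0)]⟩⟩ ⟨false,1,⟨1,[(17,0),(0,0),(17,0)]⟩,⟨2,[(11,0),(19,0),(2,0)]⟩⟩ ⟨true,1,⟨0,[(8,0),(4,0),(11,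
  0),(2,0)]⟩,⟨0,[(0,0),(4,0),(28,0)]⟩⟩,.o ⟨false,0,⟨0,[(24,0)]⟩,⟨0,[(13,0),(11,0),(2,0)]⟩⟩,.e ⟨true,
  0,⟨0,[]⟩,⟨0,[(38,0)]⟩⟩ ⟨true,1,⟨1,[(3,1),(9,1),(11,1),(2,0),(6,0)]⟩,⟨0,[(0,0),(4,0),(28,0)]⟩⟩]⟩)))

theorem ok156 : chk K t156 r81 = true := by decide +kernel

noncomputable def t161 : Tre :=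
  (.S ⟨1,0,[0,0,0,0,0,0,0,-1],[1,0,-1],[1,1,0,-1,0,0,0,-1],(⟨0,[(21,0)]⟩,⟨0,[(22,0)]⟩),⟨0,[(10,0)]⟩,
  .k,.k,⟨true,0,⟨0,[(28,0)]⟩,⟨0,[(29,0)]⟩⟩,⟨false,1,⟨1,[(12,0),(0,0),(17,0)]⟩,⟨0,[]⟩⟩,⟨false,0,⟨0,
  []⟩,⟨1,[(12,0),(0,0),(17,0)]⟩⟩,⟨true,0,⟨0,[(29,0)]⟩,⟨0,[(28,0)]⟩⟩,[.e ⟨false,0,⟨5,[(1,1),(1,0),(1,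
  1),(1,0),(1,1),(8,2),(4,0)]⟩,⟨0,[(0,0)]⟩⟩ ⟨false,0,⟨1,[(1,1),(28,0),(0,0)]⟩,⟨0,[(0,0),(27,0)]⟩⟩,
  .o ⟨false,1,⟨1,[(3,1),(19,0),(5,1),(1,0)]⟩,⟨0,[(17,0)]⟩⟩,.o ⟨false,1,⟨1,[(20,1),(2,0),(6,0)]⟩,⟨0,
  [(4,0)]⟩⟩,.a ⟨true,0,⟨0,[(20,0)]⟩,⟨0,[(16,0)]⟩⟩ ⟨false,0,⟨1,[(1,0),(1,0),(0,0),(2,0)]⟩,⟨1,[(0,1),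
  (18,0),(0,0)]⟩⟩ ⟨true,0,⟨1,[(1,1),(28,0),(0,0)]⟩,⟨0,[(17,0),(2,0)]⟩⟩]⟩)

theorem ok161 : chk K t161 l86 = true := by decide +kernel

noncomputable def t162 : Tre :=
  (.R ⟨1,false,false,false,[1,-1],[1,-1,-1],[1,1],(⟨0,[(25,0)]⟩,⟨0,[(26,0)]⟩),(⟨0,[(11,0)]⟩,⟨0,[(23,
  0),(2,0)]⟩),⟨0,[(11,0),(0,0)]⟩,.k,.k,(.r (-1) ⟨0,[(8,0),(20,0)]⟩ ⟨0,[(20,0),(0,0),(8,1)]⟩),.k,.k,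
  .k,⟨true,0,⟨0,[(18,0),(2,0),(8,0)]⟩,⟨0,[(1,0),(30,0)]⟩⟩,⟨false,1,⟨0,[(21,0),(9,0)]⟩,⟨0,[(5,0)]⟩⟩,
  ⟨false,0,⟨1,[(20,0),(0,0),(8,1)]⟩,⟨1,[(8,0),(20,0),(2,0)]⟩⟩,⟨true,0,⟨2,[(0,0),(3,0),(14,0)]⟩,⟨0,
  [(18,0)]⟩⟩,⟨false,0,⟨1,[(20,0),(0,0),(8,3)]⟩,⟨1,[(6,1),(13,0),(0,0),(10,1)]⟩⟩,⟨false,0,⟨0,[(0,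
  0)]⟩,⟨1,[(3,1),(20,0),(4,1),(2,0)]⟩⟩,[.e ⟨false,0,⟨2,[(7,0),(19,0),(2,0)]⟩,⟨1,[(13,0),(0,0),(17,
  0)]⟩⟩ ⟨false,0,⟨0,[(0,0),(5,0)]⟩,⟨1,[(3,1),(9,0),(0,0),(5,0),(0,0),(2,0),(5,1)]⟩⟩,.o ⟨false,1,⟨1,
  [(4,1),(19,0),(7,0)]⟩,⟨0,[(18,0),(11,0)]⟩⟩,.a ⟨true,0,⟨1,[(20,0),(0,0)]⟩,⟨5,[(0,0),(2,2),(0,0),(4,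
  2),(9,0)]⟩⟩ ⟨false,0,⟨0,[]⟩,⟨1,[(13,0),(0,0),(17,0)]⟩⟩ ⟨true,0,⟨1,[(0,0),(3,0),(1,0)]⟩,⟨1,[(18,1),
  (1,0),(0,0),(8,1)]⟩⟩,.e ⟨true,0,⟨2,[(7,0),(19,0),(2,0)]⟩,⟨1,[(20,0),(0,0)]⟩⟩ ⟨true,0,⟨0,[(0,0),(5,
  0)]⟩,⟨0,[(18,0),(1,0),(0,0),(8,0)]⟩⟩]⟩)

theorem ok162 : chk K t162 l87 = true := by decide +kernel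

noncomputable def t163 : Tre :=
  (.Q [0,-1,0,2,0,0,-1,-1,0,0,1] (.p true [0,0,1] [] (⟨0,[(25,0)]⟩,⟨0,[(24,0)]⟩) .k 0 (⟨0,[]⟩,⟨0,
  []⟩) .k .k) (.R ⟨1,true,false,false,[0,0,1],[0,1],[1,0,0,-1,0,0,0,1],(⟨0,[(26,0)]⟩,⟨0,[(25,0)]⟩),
  (⟨0,[(29,0)]⟩,⟨0,[(28,0)]⟩),⟨0,[(15,0)]⟩,.k,.k,.k,.k,(.r (-2) ⟨1,[(3,1),(7,0),(12,1),(7,0),(1,1),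
  (0,0)]⟩ ⟨0,[(1,0)]⟩),.k,⟨true,1,⟨0,[(3,0),(7,0),(12,0)]⟩,⟨0,[(1,0)]⟩⟩,⟨false,1,⟨1,[(12,1),(11,1),
  (2,0),(6,0)]⟩,⟨0,[(23,0)]⟩⟩,⟨false,1,⟨0,[(32,0),(2,0)]⟩,⟨0,[(33,0)]⟩⟩,⟨true,0,⟨1,[(0,0),(21,0)]⟩,
  ⟨0,[(3,0)]⟩⟩,⟨true,0,⟨0,[]⟩,⟨0,[(37,0)]⟩⟩,⟨false,0,⟨0,[(0,0)]⟩,⟨0,[(3,0),(28,0),(2,0)]⟩⟩,[]⟩) (.I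
  [0,0,-1,0,-1,1,2] (.Q [0,1,0,-1,-1,0,-1,-1,1,0,1,-1] (.p true [0,0,1] [0,0,0,0,1] (⟨0,[(27,0)]⟩,
  ⟨0,[(26,0)]⟩) .k 2 (⟨0,[(20,0)]⟩,⟨0,[(19,0)]⟩) .k (.r (-2) ⟨1,[(7,1),(9,0),(0,0),(6,1),(2,0),(6,
  0),(0,0)]⟩ ⟨1,[(2,0),(2,0),(5,0)]⟩)) (.Q [0,-2,0,-1,2,0,-1,-1,-1,-1,1,1] (.p true [0,0,1] [1,0,0,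
  0,-1] (⟨0,[(28,0)]⟩,⟨0,[(27,0)]⟩) .k 2 (⟨0,[(20,0)]⟩,⟨0,[(21,0)]⟩) .k (.r (-1) ⟨1,[(18,0),(0,0),
  (3,1),(2,1),(9,0)]⟩ ⟨0,[(7,0),(29,0)]⟩)) (.Q [0,0,-1,0,1,0,0,0,-1,0,0,1] (.p true [0,0,0,0,1] []
  (⟨0,[(22,0)]⟩,⟨0,[(21,0)]⟩) .k 0 (⟨0,[]⟩,⟨0,[]⟩) .k .k) (.Q [0,0,1,0,-1,0,1,0,1,1,-1,-1] (.p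
  false [0,0,1] [1,0,0,0,-1] (⟨0,[(30,0)]⟩,⟨0,[(29,0)]⟩) .k 2 (⟨0,[(22,0)]⟩,⟨0,[(23,0)]⟩) .k (.r
  (-1) ⟨1,[(20,0),(0,0),(3,1),(2,1),(9,0)]⟩ ⟨0,[(9,0),(29,0)]⟩)) (.Q [0,0,0,0,0,2,0,0,0,-1,1] (.p
  true [0,0,1] [1] (⟨0,[(31,0)]⟩,⟨0,[(30,0)]⟩) .k 1 (⟨0,[]⟩,⟨0,[]⟩) .k .k) (.Q [0,0,-1,0,0,0,2,1,0,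
  1,-2] (.p false [0,0,1] [1,0,-1] (⟨0,[(32,0)]⟩,⟨0,[(31,0)]⟩) .k 2 (⟨0,[(31,0)]⟩,⟨0,[(32,0)]⟩) .k
  (.r (-2) ⟨0,[(12,1),(17,1),(2,0),(6,0)]⟩ ⟨0,[(11,1),(29,0)]⟩)) (.R ⟨0,false,false,false,[1,-1,-1],
  [0,0,1],[1,1],(⟨0,[(21,0)]⟩,⟨3,[(1,1),(0,0),(16,0),(3,0),(7,0),(1,1)]⟩),(⟨0,[(33,0)]⟩,⟨0,[(32,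
  0)]⟩),⟨0,[(1,0)]⟩,.k,.k,(.r 0 ⟨0,[(11,0),(6,0)]⟩ ⟨2,[(8,0),(4,3),(9,1),(0,1),(6,3),(2,1),(5,3)]⟩),
  (.x (-2) ⟨1,[(21,1),(1,0),(0,0),(6,3),(0,1),(1,1),(6,0)]⟩ ⟨0,[(6,0)]⟩),.k,.k,⟨true,(-1),⟨0,[(12,
  0)]⟩,⟨1,[(13,1),(17,1),(2,0),(7,0)]⟩⟩,⟨false,0,⟨8,[(0,5),(7,1),(3,3),(5,3),(0,3),(0,2),(13,1)]⟩,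
  ⟨1,[(31,3),(2,0),(6,0)]⟩⟩,⟨true,0,⟨0,[(28,0),(2,0),(8,0)]⟩,⟨5,[(4,0),(0,0),(5,0),(0,2),(5,2),(1,
  0)]⟩⟩,⟨false,1,⟨1,[(13,3),(20,0),(5,1),(1,0)]⟩,⟨1,[(12,3),(5,1),(12,3),(2,0),(7,0)]⟩⟩,⟨false,0,⟨0,
  []⟩,⟨0,[]⟩⟩,⟨false,0,⟨0,[]⟩,⟨0,[]⟩⟩,[.a ⟨true,0,⟨0,[(13,0)]⟩,⟨6,[(4,1),(3,0),(0,1),(2,0),(6,1),(9,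
  0),(1,1)]⟩⟩ ⟨false,0,⟨2,[(17,0),(19,0),(2,0)]⟩,⟨1,[(23,0),(0,0),(17,0)]⟩⟩ ⟨true,0,⟨0,[(0,0)]⟩,⟨1,
  [(12,1),(18,3),(2,0),(7,0)]⟩⟩,.o ⟨false,1,⟨1,[(13,1),(20,0),(7,0)]⟩,⟨1,[(3,0),(5,0),(2,0),(18,0),
  (2,0)]⟩⟩,.a ⟨true,0,⟨0,[(31,0)]⟩,⟨0,[(27,0)]⟩⟩ ⟨false,0,⟨0,[]⟩,⟨1,[(23,0),(0,0),(17,0)]⟩⟩ ⟨true,0,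
  ⟨0,[(0,0)]⟩,⟨1,[(3,0),(5,0),(2,0),(18,2),(2,0)]⟩⟩,.a ⟨true,0,⟨1,[(30,0),(0,2)]⟩,⟨17,[(0,5),(7,1),
  (3,3),(5,3),(0,12),(0,2),(13,1)]⟩⟩ ⟨true,0,⟨2,[(17,0),(19,0),(2,0)]⟩,⟨1,[(30,0),(0,0)]⟩⟩ ⟨false,1,
  ⟨1,[(0,1),(40,0),(0,0)]⟩,⟨1,[(12,1),(18,3),(2,0),(7,0)]⟩⟩]⟩) (.R ⟨0,false,false,false,[1,-1,-1],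
  [0,0,1],[1,1],(⟨0,[(21,0)]⟩,⟨3,[(1,1),(0,0),(16,0),(3,0),(7,0),(1,1)]⟩),(⟨0,[(33,0)]⟩,⟨0,[(32,
  0)]⟩),⟨0,[(1,0)]⟩,.k,.k,(.r 0 ⟨0,[(11,0),(6,0)]⟩ ⟨2,[(8,0),(4,3),(9,1),(0,1),(6,3),(2,1),(5,3)]⟩),
  (.x (-2) ⟨1,[(21,1),(1,0),(0,0),(6,3),(0,1),(1,1),(6,0)]⟩ ⟨0,[(6,0)]⟩),.k,.k,⟨true,(-1),⟨0,[(12,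
  0)]⟩,⟨1,[(13,1),(17,1),(2,0),(7,0)]⟩⟩,⟨false,0,⟨0,[(15,1),(3,0)]⟩,⟨1,[(31,3),(2,0),(6,0)]⟩⟩,⟨true,
  0,⟨0,[(28,0),(2,0),(8,0)]⟩,⟨5,[(4,0),(0,0),(5,0),(0,2),(5,2),(1,0)]⟩⟩,⟨false,1,⟨1,[(13,3),(20,0),
  (5,1),(1,0)]⟩,⟨2,[(0,1),(3,0),(0,0),(6,1),(5,0)]⟩⟩,⟨false,0,⟨0,[]⟩,⟨0,[]⟩⟩,⟨false,0,⟨0,[]⟩,⟨0,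
  []⟩⟩,[.e ⟨false,0,⟨2,[(17,0),(19,0),(2,0)]⟩,⟨1,[(23,0),(0,0),(17,0)]⟩⟩ ⟨false,1,⟨1,[(13,1),(5,0),
  (0,0),(13,0),(6,0)]⟩,⟨0,[(0,0)]⟩⟩,.o ⟨false,1,⟨1,[(13,1),(20,0),(7,0)]⟩,⟨9,[(0,3),(11,3),(16,1),
  (4,2),(2,1),(3,0)]⟩⟩,.e ⟨false,0,⟨0,[]⟩,⟨1,[(23,0),(0,0),(17,0)]⟩⟩ ⟨false,1,⟨1,[(13,1),(5,0),(0,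
  0),(13,0),(7,0)]⟩,⟨0,[(0,0)]⟩⟩,.a ⟨true,0,⟨1,[(30,0),(0,2)]⟩,⟨0,[(15,0),(3,0)]⟩⟩ ⟨true,0,⟨2,[(17,
  0),(19,0),(2,0)]⟩,⟨1,[(30,0),(0,0)]⟩⟩ ⟨false,1,⟨1,[(13,1),(1,1),(3,1),(14,0),(7,0)]⟩,⟨1,[(0,1),
  (29,0),(0,0)]⟩⟩]⟩)) (.Q [0,0,-1,0,-1,0,1,0,1,1,-1,-1] (.p false [0,0,1] [1,0,0,0,-1] (⟨0,[(32,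
  0)]⟩,⟨0,[(31,0)]⟩) .k 2 (⟨0,[(24,0)]⟩,⟨0,[(25,0)]⟩) .k (.r (-1) ⟨1,[(22,0),(0,0),(3,1),(2,1),(9,
  0)]⟩ ⟨0,[(11,0),(29,0)]⟩)) (.I [0,0,2,0,-1,-2,0,0,1] (.I [1,-1,2,2] (.N [0,-2,0,0,1] 0 ⟨0,[(18,
  0)]⟩ ⟨0,[(0,0)]⟩ (.x 1 ⟨0,[(1,0)]⟩ ⟨1,[(5,1),(21,1),(8,0),(1,3),(4,0)]⟩)) (.Q [0,0,1,0,1,0,0,0,-1,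
  -1,0,1] (.p true [0,0,0,0,1] [1] (⟨0,[(28,0)]⟩,⟨0,[(27,0)]⟩) .k 1 (⟨0,[]⟩,⟨0,[]⟩) .k .k) (.Q [0,0,
  0,0,0,-1,0,0,0,1,0,-1] (.ed true [0,1,0,0,1] .k) (.R ⟨1,false,false,true,[1,0,0,0,-1],[0,0,1],[1,
  0,0,-1],(⟨0,[(29,0)]⟩,⟨0,[(30,0)]⟩),(⟨0,[(37,0)]⟩,⟨0,[(36,0)]⟩),⟨0,[(0,0)]⟩,.k,.k,(.r (-1) ⟨9,[(8,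
  1),(2,0),(5,1),(0,0),(3,4),(5,1),(17,0)]⟩ ⟨7,[(1,2),(10,2),(4,2),(10,2),(6,2),(5,3),(2,1)]⟩),.k,
  (.r (-1) ⟨1,[(8,0),(4,0),(8,0),(1,0)]⟩ ⟨0,[(32,0),(2,0),(8,0)]⟩),.k,⟨true,0,⟨0,[(15,0),(30,0)]⟩,
  ⟨0,[(32,0),(2,0),(8,0)]⟩⟩,⟨false,(-1),⟨0,[(4,0)]⟩,⟨1,[(27,1),(7,1),(2,0),(6,0)]⟩⟩,⟨true,0,⟨0,[(43,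
  0)]⟩,⟨0,[(44,0)]⟩⟩,⟨false,(-1),⟨0,[(4,0),(27,0),(2,0)]⟩,⟨0,[(8,0),(35,0)]⟩⟩,⟨false,0,⟨0,[]⟩,⟨1,
  [(27,0),(0,0),(17,0)]⟩⟩,⟨false,(-1),⟨0,[(4,0),(27,0),(2,0),(8,0)]⟩,⟨0,[(8,0)]⟩⟩,[.o ⟨false,0,⟨0,
  [(32,0)]⟩,⟨3,[(8,1),(4,1),(24,0),(5,1),(1,0)]⟩⟩,.e ⟨false,1,⟨9,[(8,1),(2,0),(5,1),(0,0),(3,4),(5,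
  1),(17,0)]⟩,⟨7,[(1,0),(10,0),(4,0),(10,0),(6,0),(5,3),(2,5)]⟩⟩ ⟨false,0,⟨1,[(4,0),(12,1),(5,0),(4,
  0),(6,0),(2,0)]⟩,⟨6,[(7,4),(0,1),(3,0),(3,3),(6,0),(11,4),(2,2)]⟩⟩,.a ⟨true,1,⟨0,[(27,0)]⟩,⟨0,[(4,
  0),(30,0)]⟩⟩ ⟨false,1,⟨4,[(8,1),(2,0),(5,1),(0,0),(9,1),(17,0)]⟩,⟨0,[(44,0)]⟩⟩ ⟨true,(-1),⟨0,[(4,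
  0),(27,0),(2,0)]⟩,⟨6,[(7,4),(0,1),(3,0),(3,3),(6,0),(11,4),(2,2)]⟩⟩,.o ⟨false,1,⟨0,[(1,0)]⟩,⟨1,
  [(4,0),(18,0),(4,0),(6,0),(2,0)]⟩⟩]⟩) (.R ⟨0,false,false,true,[1,0,0,0,-1],[0,0,1],[0,0,0,-1],(⟨0,
  [(29,0)]⟩,⟨0,[(30,0)]⟩),(⟨0,[(37,0)]⟩,⟨0,[(36,0)]⟩),⟨0,[(0,0)]⟩,.k,.k,(.r (-1) ⟨9,[(8,1),(2,0),(5,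
  1),(0,0),(3,4),(5,1),(17,0)]⟩ ⟨7,[(1,2),(10,2),(4,2),(10,2),(6,2),(5,3),(2,1)]⟩),.k,.k,.k,⟨true,0,
  ⟨0,[(15,0),(30,0)]⟩,⟨0,[(32,0),(2,0),(8,0)]⟩⟩,⟨false,(-1),⟨0,[(4,0)]⟩,⟨1,[(27,1),(7,1),(2,0),(6,
  0)]⟩⟩,⟨true,0,⟨0,[(43,0)]⟩,⟨0,[(44,0)]⟩⟩,⟨false,(-1),⟨0,[(4,0),(27,0),(2,0)]⟩,⟨0,[(8,0),(35,0)]⟩⟩,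
  ⟨false,0,⟨0,[]⟩,⟨0,[]⟩⟩,⟨false,0,⟨0,[]⟩,⟨0,[]⟩⟩,[.o ⟨false,0,⟨0,[(32,0)]⟩,⟨3,[(8,1),(4,1),(24,0),
  (5,1),(1,0)]⟩⟩,.e ⟨false,1,⟨9,[(8,1),(2,0),(5,1),(0,0),(3,4),(5,1),(17,0)]⟩,⟨7,[(1,0),(10,0),(4,
  0),(10,0),(6,0),(5,3),(2,5)]⟩⟩ ⟨false,0,⟨1,[(4,0),(12,1),(5,0),(4,0),(6,0),(2,0)]⟩,⟨6,[(7,4),(0,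
  1),(3,0),(3,3),(6,0),(11,4),(2,2)]⟩⟩,.a ⟨true,1,⟨0,[(27,0)]⟩,⟨0,[(4,0),(30,0)]⟩⟩ ⟨false,1,⟨4,[(8,
  1),(2,0),(5,1),(0,0),(9,1),(17,0)]⟩,⟨0,[(44,0)]⟩⟩ ⟨true,(-1),⟨0,[(4,0),(27,0),(2,0)]⟩,⟨6,[(7,4),
  (0,1),(3,0),(3,3),(6,0),(11,4),(2,2)]⟩⟩,.o ⟨false,1,⟨0,[(1,0)]⟩,⟨1,[(4,0),(18,0),(4,0),(6,0),(2,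
  0)]⟩⟩]⟩)) (.Q [0,0,0,0,0,1,0,0,0,-1,0,1] (.ed false [0,1,0,0,1] .k) (.R ⟨0,false,false,true,[1,0,
  0,0,-1],[0,1],[1,1],(⟨0,[(29,0)]⟩,⟨0,[(30,0)]⟩),(⟨0,[(40,0)]⟩,⟨0,[(39,0)]⟩),⟨0,[(0,0)]⟩,.k,.k,(.r
  (-1) ⟨9,[(8,1),(2,0),(5,1),(0,0),(3,4),(5,1),(17,0)]⟩ ⟨6,[(12,2),(14,2),(0,2),(3,2),(2,2),(5,1),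
  (2,0)]⟩),(.r (-1) ⟨9,[(8,1),(2,0),(5,1),(0,0),(3,4),(5,1),(17,0)]⟩ ⟨6,[(12,2),(14,2),(0,2),(3,2),
  (2,2),(5,1),(2,0)]⟩),.k,.k,⟨false,1,⟨1,[(22,0),(20,0),(1,0)]⟩,⟨5,[(12,1),(4,1),(9,0),(0,0),(6,1),
  (2,0),(5,1)]⟩⟩,⟨true,(-1),⟨0,[(1,0)]⟩,⟨1,[(7,1),(3,1),(0,1),(22,1),(2,0),(7,0)]⟩⟩,⟨false,0,⟨0,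
  [(48,0)]⟩,⟨0,[(46,0)]⟩⟩,⟨true,(-2),⟨0,[(1,0),(14,0),(15,0),(2,0),(8,0)]⟩,⟨4,[(8,2),(2,0),(5,1),(9,
  1),(10,1)]⟩⟩,⟨false,0,⟨0,[]⟩,⟨0,[]⟩⟩,⟨false,0,⟨0,[]⟩,⟨0,[]⟩⟩,[.e ⟨false,0,⟨2,[(21,0),(19,0),(2,
  0)]⟩,⟨1,[(27,0),(0,0),(17,0)]⟩⟩ ⟨false,(-1),⟨7,[(1,6),(10,0),(4,0),(10,0),(6,0),(5,3),(2,5)]⟩,⟨4,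
  [(8,2),(2,0),(5,1),(9,1),(10,1)]⟩⟩,.o ⟨false,0,⟨0,[(44,0)]⟩,⟨7,[(8,1),(2,1),(15,0),(0,2),(9,2),(4,
  1)]⟩⟩,.e ⟨false,0,⟨0,[]⟩,⟨1,[(27,0),(0,0),(17,0)]⟩⟩ ⟨false,(-1),⟨3,[(1,2),(10,0),(4,0),(10,0),(6,
  0),(8,1)]⟩,⟨4,[(8,2),(2,0),(5,1),(9,1),(10,1)]⟩⟩,.a ⟨true,1,⟨1,[(27,1),(6,0),(0,0)]⟩,⟨0,[(1,0)]⟩⟩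
  ⟨true,0,⟨2,[(21,0),(19,0),(2,0)]⟩,⟨1,[(34,0),(0,0)]⟩⟩ ⟨false,(-1),⟨0,[(1,0),(42,0)]⟩,⟨9,[(8,5),(2,
  1),(5,3),(9,3),(6,4),(0,4),(2,3)]⟩⟩]⟩) (.S ⟨1,0,[],[1,0,0,0,-1],[0,-1],(⟨0,[(29,0)]⟩,⟨0,[(30,
  0)]⟩),⟨0,[(0,0)]⟩,.k,(.r (-1) ⟨9,[(8,1),(2,0),(5,1),(0,0),(3,4),(5,1),(17,0)]⟩ ⟨6,[(12,2),(14,2),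
  (0,2),(3,2),(2,2),(5,1),(2,0)]⟩),⟨false,1,⟨1,[(27,0),(0,0),(17,0)]⟩,⟨0,[]⟩⟩,⟨true,0,⟨0,[(48,0)]⟩,
  ⟨0,[]⟩⟩,⟨true,0,⟨0,[(44,0)]⟩,⟨0,[(43,0)]⟩⟩,⟨false,0,⟨0,[(44,0)]⟩,⟨4,[(8,1),(2,0),(5,1),(0,0),(9,
  1),(17,0)]⟩⟩,[.e ⟨false,1,⟨1,[(45,0),(0,0)]⟩,⟨0,[(48,0)]⟩⟩ ⟨false,1,⟨1,[(27,0),(0,0),(16,0)]⟩,⟨0,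
  []⟩⟩,.o ⟨false,2,⟨1,[(27,1),(10,0),(7,0)]⟩,⟨4,[(1,3),(9,0),(0,0),(0,0),(2,0),(15,1),(2,1),(2,
  1)]⟩⟩,.e ⟨false,1,⟨0,[(46,0)]⟩,⟨0,[(48,0)]⟩⟩ ⟨false,1,⟨1,[(27,0),(0,0),(17,0)]⟩,⟨0,[]⟩⟩,.a ⟨true,
  1,⟨1,[(27,1),(6,0),(0,0)]⟩,⟨0,[(1,0)]⟩⟩ ⟨true,1,⟨1,[(45,0),(0,0)]⟩,⟨0,[(16,0),(15,0),(2,0)]⟩⟩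
  ⟨false,1,⟨1,[(45,0),(0,0)]⟩,⟨1,[(34,0),(0,0)]⟩⟩]⟩)))) (.Q [0,0,1,0,1,0,0,0,-1,-1,0,1] (.p true [0,
  0,0,0,1] [1] (⟨0,[(27,0)]⟩,⟨0,[(26,0)]⟩) .k 1 (⟨0,[]⟩,⟨0,[]⟩) .k .k) (.R ⟨1,false,false,true,[1,0,
  0,0,-1],[0,0,1],[1,0,0,-1],(⟨0,[(27,0)]⟩,⟨0,[(28,0)]⟩),(⟨0,[(35,0)]⟩,⟨0,[(34,0)]⟩),⟨3,[(1,0),(0,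
  0),(0,3),(4,1),(18,2),(5,4),(2,1)]⟩,.k,.k,(.r (-1) ⟨9,[(6,1),(2,0),(5,1),(0,0),(3,4),(5,1),(17,
  0)]⟩ ⟨6,[(10,2),(14,2),(0,2),(3,2),(2,2),(5,1),(2,0)]⟩),.k,(.r (-1) ⟨1,[(6,0),(4,0),(8,0),(1,0)]⟩
  ⟨0,[(30,0),(2,0),(8,0)]⟩),.k,⟨true,0,⟨0,[(13,0),(30,0)]⟩,⟨0,[(30,0),(2,0),(8,0)]⟩⟩,⟨false,(-1),⟨0,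
  [(2,0)]⟩,⟨1,[(25,1),(7,1),(2,0),(6,0)]⟩⟩,⟨true,0,⟨0,[(41,0)]⟩,⟨0,[(42,0)]⟩⟩,⟨false,(-1),⟨0,[(2,0),
  (27,0),(2,0)]⟩,⟨0,[(6,0),(35,0)]⟩⟩,⟨false,0,⟨0,[]⟩,⟨1,[(25,0),(0,0),(17,0)]⟩⟩,⟨false,(-1),⟨0,[(2,
  0),(27,0),(2,0),(8,0)]⟩,⟨0,[(6,0)]⟩⟩,[.o ⟨false,0,⟨0,[(30,0)]⟩,⟨3,[(6,1),(4,1),(24,0),(5,1),(1,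
  0)]⟩⟩,.e ⟨false,1,⟨9,[(6,1),(2,0),(5,1),(0,0),(3,4),(5,1),(17,0)]⟩,⟨6,[(10,0),(14,0),(0,0),(3,0),
  (2,0),(5,2),(2,4)]⟩⟩ ⟨false,0,⟨1,[(2,0),(12,1),(5,0),(4,0),(6,0),(2,0)]⟩,⟨6,[(5,4),(0,1),(3,0),(3,
  3),(6,0),(11,4),(2,2)]⟩⟩,.a ⟨true,1,⟨0,[(25,0)]⟩,⟨0,[(2,0),(30,0)]⟩⟩ ⟨false,1,⟨4,[(6,1),(2,0),(5,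
  1),(0,0),(9,1),(17,0)]⟩,⟨0,[(42,0)]⟩⟩ ⟨true,(-1),⟨0,[(2,0),(27,0),(2,0)]⟩,⟨6,[(5,4),(0,1),(3,0),
  (3,3),(6,0),(11,4),(2,2)]⟩⟩,.o ⟨false,1,⟨0,[(0,0)]⟩,⟨1,[(2,0),(18,0),(4,0),(6,0),(2,0)]⟩⟩]⟩) (.S
  ⟨1,0,[],[1,0,0,0,-1],[0,-1],(⟨0,[(27,0)]⟩,⟨0,[(28,0)]⟩),⟨6,[(0,0),(0,0),(1,5),(4,2),(18,5),(5,5),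
  (2,2)]⟩,.k,(.r (-1) ⟨9,[(6,1),(2,0),(5,1),(0,0),(3,4),(5,1),(17,0)]⟩ ⟨6,[(10,2),(14,2),(0,2),(3,
  2),(2,2),(5,1),(2,0)]⟩),⟨false,1,⟨1,[(25,0),(0,0),(17,0)]⟩,⟨0,[]⟩⟩,⟨true,0,⟨0,[(46,0)]⟩,⟨0,[]⟩⟩,
  ⟨true,0,⟨0,[(42,0)]⟩,⟨0,[(41,0)]⟩⟩,⟨false,0,⟨0,[(42,0)]⟩,⟨4,[(6,1),(2,0),(5,1),(0,0),(9,1),(17,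
  0)]⟩⟩,[.e ⟨false,1,⟨1,[(43,0),(0,0)]⟩,⟨0,[(46,0)]⟩⟩ ⟨false,1,⟨1,[(25,0),(0,0),(16,0)]⟩,⟨0,[]⟩⟩,.o
  ⟨false,2,⟨1,[(25,1),(10,0),(7,0)]⟩,⟨4,[(0,3),(8,0),(0,0),(0,0),(2,0),(15,1),(2,1),(2,1)]⟩⟩,.e
  ⟨false,1,⟨0,[(44,0)]⟩,⟨0,[(46,0)]⟩⟩ ⟨false,1,⟨1,[(25,0),(0,0),(17,0)]⟩,⟨0,[]⟩⟩,.a ⟨true,1,⟨1,[(25,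
  1),(6,0),(0,0)]⟩,⟨0,[(0,0)]⟩⟩ ⟨true,1,⟨1,[(43,0),(0,0)]⟩,⟨0,[(14,0),(15,0),(2,0)]⟩⟩ ⟨false,1,⟨1,
  [(43,0),(0,0)]⟩,⟨1,[(32,0),(0,0)]⟩⟩]⟩))) (.Q [0,0,-1,0,0,0,0,0,1,0,0,-1] (.p false [0,0,0,0,1] []
  (⟨0,[(26,0)]⟩,⟨0,[(25,0)]⟩) .k 0 (⟨0,[]⟩,⟨0,[]⟩) .k .k) (.Q [0,0,0,0,1,0,0,0,-1,-1,0,1] (.p true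
  [0,0,0,0,1] [1] (⟨0,[(27,0)]⟩,⟨0,[(26,0)]⟩) .k 1 (⟨0,[]⟩,⟨0,[]⟩) .k .k) (.Q [0,0,0,0,0,-1,0,0,0,1,
  0,-1] (.ed true [0,1,0,0,1] .k) (.Q [0,-1,0,0,1,0,0,0,-1,0,0,1] (.p true [0,0,0,0,1] [] (⟨0,[(29,
  0)]⟩,⟨0,[(28,0)]⟩) .k 0 (⟨0,[]⟩,⟨0,[]⟩) .k .k) (.S ⟨1,0,[],[1,0,0,0,-1],[0,-1],(⟨0,[(29,0)]⟩,⟨0,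
  [(30,0)]⟩),⟨0,[(1,0)]⟩,.k,(.r (-1) ⟨9,[(8,1),(2,0),(5,1),(0,0),(3,4),(5,1),(17,0)]⟩ ⟨1,[(4,0),(7,
  0),(4,0),(10,0),(12,0)]⟩),⟨false,1,⟨1,[(27,0),(0,0),(17,0)]⟩,⟨0,[]⟩⟩,⟨true,0,⟨0,[(48,0)]⟩,⟨0,[]⟩⟩,
  ⟨true,0,⟨0,[(44,0)]⟩,⟨0,[(43,0)]⟩⟩,⟨false,0,⟨0,[(44,0)]⟩,⟨4,[(8,1),(2,0),(5,1),(0,0),(9,1),(17,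
  0)]⟩⟩,[.o ⟨false,1,⟨0,[(2,0)]⟩,⟨0,[(28,0)]⟩⟩,.a ⟨true,1,⟨0,[(0,0)]⟩,⟨0,[(13,0),(3,0)]⟩⟩ ⟨true,1,
  ⟨0,[(46,0)]⟩,⟨0,[(16,0),(15,0),(2,0)]⟩⟩ ⟨false,1,⟨1,[(45,0),(0,0)]⟩,⟨0,[(48,0)]⟩⟩,.o ⟨false,1,⟨0,
  [(2,0)]⟩,⟨0,[(28,0)]⟩⟩,.o ⟨false,1,⟨1,[(2,0),(1,0),(29,0)]⟩,⟨0,[(3,0)]⟩⟩]⟩) (.R ⟨1,false,false,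
  true,[1,0,-1],[1,0,0,0,-1],[1,1,0,-1,0,0,0,-1],(⟨0,[(36,0)]⟩,⟨0,[(37,0)]⟩),(⟨0,[(29,0)]⟩,⟨0,[(30,
  0)]⟩),⟨0,[(25,0)]⟩,.k,.k,.k,.k,(.r 0 ⟨29,[(8,4),(0,4),(5,4),(0,2),(4,14),(2,10),(8,11),(4,2)]⟩ ⟨1,
  [(17,1),(17,1),(2,0),(5,1),(1,0)]⟩),.k,⟨true,(-1),⟨0,[(15,0)]⟩,⟨1,[(17,1),(17,1),(2,0),(5,1),(1,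
  0)]⟩⟩,⟨false,1,⟨1,[(2,1),(20,0),(0,0)]⟩,⟨0,[(3,0),(31,0)]⟩⟩,⟨true,0,⟨0,[(43,0)]⟩,⟨0,[(44,0)]⟩⟩,
  ⟨true,1,⟨0,[(2,0),(14,0)]⟩,⟨0,[(13,0)]⟩⟩,⟨false,0,⟨0,[]⟩,⟨1,[(27,0),(0,0),(17,0)]⟩⟩,⟨true,1,⟨0,
  [(2,0),(14,0),(26,0)]⟩,⟨0,[(9,0)]⟩⟩,[.o ⟨false,1,⟨0,[(2,0)]⟩,⟨0,[(28,0)]⟩⟩,.o ⟨false,2,⟨1,[(27,1),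
  (10,0),(7,0)]⟩,⟨0,[(0,0)]⟩⟩,.o ⟨false,1,⟨0,[(3,0),(0,0)]⟩,⟨0,[(19,0)]⟩⟩,.a ⟨true,0,⟨0,[(35,0)]⟩,
  ⟨0,[(31,0)]⟩⟩ ⟨false,0,⟨5,[(8,0),(0,0),(5,0),(0,2),(5,2),(1,0)]⟩,⟨1,[(17,1),(17,1),(2,0),(5,1),(1,
  0)]⟩⟩ ⟨true,1,⟨1,[(2,1),(20,0),(0,0)]⟩,⟨0,[(0,0),(34,0)]⟩⟩]⟩)) (.Q [0,0,1,0,-1,0,0,0,1,1,0,-1]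
  (.p false [0,0,0,0,1] [1] (⟨0,[(29,0)]⟩,⟨0,[(28,0)]⟩) .k 1 (⟨0,[]⟩,⟨0,[]⟩) .k .k) (.S ⟨1,0,[0,1],
  [0,0,0,0,1],[0,2],(⟨0,[(30,0)]⟩,⟨0,[(29,0)]⟩),⟨1,[(1,0),(3,0),(20,0),(3,0)]⟩,.k,(.r 0 ⟨0,[(42,
  0)]⟩ ⟨5,[(4,1),(7,1),(4,1),(9,2),(0,4),(15,1),(1,2)]⟩),⟨true,0,⟨0,[(48,0)]⟩,⟨0,[]⟩⟩,⟨false,1,⟨1,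
  [(27,0),(0,0),(17,0)]⟩,⟨0,[]⟩⟩,⟨false,0,⟨0,[(44,0)]⟩,⟨10,[(0,1),(7,5),(2,1),(5,3),(4,0),(5,3)]⟩⟩,
  ⟨true,0,⟨0,[(44,0)]⟩,⟨0,[(43,0)]⟩⟩,[.e ⟨false,0,⟨0,[(41,0)]⟩,⟨0,[(46,0)]⟩⟩ ⟨false,0,⟨2,[(21,0),
  (19,0),(2,0)]⟩,⟨1,[(27,0),(0,0),(17,0)]⟩⟩,.o ⟨false,0,⟨0,[(28,0)]⟩,⟨0,[(2,0)]⟩⟩,.o ⟨false,0,⟨0,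
  [(28,0)]⟩,⟨0,[(2,0)]⟩⟩,.a ⟨true,(-1),⟨0,[(0,0)]⟩,⟨0,[(7,0)]⟩⟩ ⟨false,0,⟨2,[(21,0),(19,0),(2,0)]⟩,
  ⟨1,[(4,0),(1,0),(39,1)]⟩⟩ ⟨true,0,⟨2,[(21,0),(19,0),(2,0)]⟩,⟨1,[(4,0),(1,0)]⟩⟩]⟩) (.Q [0,0,1,0,0,
  0,1,0,-1,0,-1,1] (.p false [0,0,1] [0,0,0,0,1] (⟨0,[(37,0)]⟩,⟨0,[(36,0)]⟩) .k 2 (⟨0,[(30,0)]⟩,⟨0,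
  [(29,0)]⟩) .k (.r (-2) ⟨1,[(4,1),(12,1),(10,1),(16,0),(0,0)]⟩ ⟨1,[(12,0),(2,0),(5,0)]⟩)) (.R ⟨0,
  false,false,false,[1,0,0,0,-1],[1,0,-1],[1],(⟨0,[(30,0)]⟩,⟨0,[(31,0)]⟩),(⟨0,[(37,0)]⟩,⟨0,[(38,
  0)]⟩),⟨0,[(2,0)]⟩,.k,.k,(.r (-1) ⟨9,[(9,1),(2,0),(5,1),(0,0),(3,4),(5,1),(17,0)]⟩ ⟨1,[(5,0),(7,0),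
  (4,0),(10,0),(12,0)]⟩),.k,.k,.k,⟨false,1,⟨0,[(18,0),(5,0),(11,0),(2,0)]⟩,⟨6,[(9,1),(3,0),(0,1),(2,
  1),(7,1),(20,0)]⟩⟩,⟨true,0,⟨0,[(4,0),(31,0)]⟩,⟨0,[(0,0)]⟩⟩,⟨false,0,⟨0,[]⟩,⟨1,[(28,0),(0,0),(17,
  0)]⟩⟩,⟨true,(-1),⟨0,[(14,0)]⟩,⟨0,[(3,0),(14,0)]⟩⟩,⟨false,0,⟨0,[]⟩,⟨0,[]⟩⟩,⟨false,0,⟨0,[]⟩,⟨0,[]⟩⟩,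
  [.a ⟨true,0,⟨9,[(5,0),(3,1),(3,1),(0,2),(4,1),(4,2),(9,0),(1,0)]⟩,⟨0,[(18,0)]⟩⟩ ⟨true,0,⟨0,[]⟩,⟨1,
  [(5,0),(1,0)]⟩⟩ ⟨false,0,⟨1,[(14,1),(31,0),(0,0)]⟩,⟨0,[(3,0),(14,0)]⟩⟩,.o ⟨false,1,⟨3,[(9,1),(4,
  1),(24,0),(5,1),(1,0)]⟩,⟨0,[(33,0)]⟩⟩,.o ⟨false,1,⟨0,[(3,0)]⟩,⟨0,[(29,0)]⟩⟩,.o ⟨false,1,⟨3,[(0,0),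
  (4,2),(19,0),(13,0)]⟩,⟨0,[(4,0)]⟩⟩]⟩) (.R ⟨1,false,false,false,[0,-1,1],[1,0,-1],[1,0,-1,-2,0,0,0,
  1],(⟨0,[(27,0)]⟩,⟨0,[(37,0),(3,0)]⟩),(⟨0,[(37,0)]⟩,⟨0,[(38,0)]⟩),⟨5,[(0,0),(0,0),(4,4),(4,2),(15,
  4),(8,4),(2,1)]⟩,.k,.k,(.r (-2) ⟨9,[(0,7),(4,1),(3,3),(2,7),(5,5),(9,2),(0,0),(16,6)]⟩ ⟨0,[(13,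
  0)]⟩),(.r (-2) ⟨3,[(0,3),(4,3),(6,1),(5,5),(20,0),(6,1),(0,0)]⟩ ⟨19,[(4,1),(4,3),(3,11),(0,1),(2,
  21),(6,0),(0,2),(21,7)]⟩),(.r (-2) ⟨1,[(0,1),(4,1),(6,0),(5,1),(4,1),(9,0)]⟩ ⟨6,[(9,1),(3,7),(0,
  1),(2,1),(7,1),(20,0)]⟩),.k,⟨false,2,⟨1,[(0,1),(4,1),(6,0),(5,1),(4,1),(9,0)]⟩,⟨15,[(4,1),(4,1),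
  (3,19),(3,9),(5,5),(0,0),(0,0),(20,3)]⟩⟩,⟨true,1,⟨0,[(0,0),(0,0),(34,0)]⟩,⟨17,[(6,2),(0,1),(1,1),
  (1,5),(0,17),(0,19),(2,1),(1,5),(18,8),(9,7)]⟩⟩,⟨false,1,⟨4,[(9,1),(2,0),(5,1),(0,0),(9,1),(17,
  0)]⟩,⟨0,[(45,0)]⟩⟩,⟨true,0,⟨0,[(0,0),(0,0),(11,0),(5,0)]⟩,⟨1,[(12,0),(5,1),(14,0)]⟩⟩,⟨true,0,⟨0,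
  []⟩,⟨0,[(49,0)]⟩⟩,⟨true,0,⟨6,[(0,5),(0,5),(3,1),(3,1),(3,7),(0,3),(9,2)]⟩,⟨0,[(12,0),(5,0)]⟩⟩,[.a
  ⟨true,0,⟨9,[(5,0),(3,1),(3,1),(0,2),(4,1),(4,2),(9,0),(1,0)]⟩,⟨0,[(18,0)]⟩⟩ ⟨true,1,⟨2,[(0,0),(4,
  0),(6,1),(5,0),(4,1),(12,0)]⟩,⟨0,[(13,0)]⟩⟩ ⟨false,1,⟨6,[(0,5),(0,5),(3,1),(3,1),(3,0),(0,3),(9,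
  2)]⟩,⟨0,[(18,0),(16,0)]⟩⟩,.o ⟨false,1,⟨13,[(0,3),(3,1),(4,7),(3,3),(0,1),(24,2),(6,0)]⟩,⟨0,[(33,
  0)]⟩⟩,.o ⟨false,0,⟨0,[(35,0)]⟩,⟨5,[(0,3),(0,1),(3,1),(33,0),(6,0)]⟩⟩,.o ⟨false,0,⟨1,[(5,0),(1,0),
  (27,1)]⟩,⟨0,[(0,0),(0,0)]⟩⟩]⟩)))) (.Q [0,0,0,0,0,1,0,0,0,-1,0,1] (.ed false [0,1,0,0,1] .k) (.R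
  ⟨0,false,false,false,[1,0,0,0,-1],[0,0,1],[0,0,0,0,0,0,0,1],(⟨0,[(28,0)]⟩,⟨0,[(29,0)]⟩),(⟨0,[(36,
  0)]⟩,⟨0,[(35,0)]⟩),⟨0,[(0,0)]⟩,.k,.k,(.r (-1) ⟨9,[(7,1),(2,0),(5,1),(0,0),(3,4),(5,1),(17,0)]⟩ ⟨1,
  [(3,0),(7,0),(4,0),(10,0),(12,0)]⟩),.k,.k,.k,⟨false,1,⟨1,[(26,0),(0,0),(16,0)]⟩,⟨0,[]⟩⟩,⟨true,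
  (-1),⟨0,[(1,0),(16,0)]⟩,⟨0,[(3,0)]⟩⟩,⟨false,1,⟨0,[(2,0),(0,0),(12,0)]⟩,⟨0,[(15,0),(29,0)]⟩⟩,⟨true,
  (-1),⟨0,[(1,0),(29,0)]⟩,⟨27,[(3,14),(2,4),(0,7),(3,3),(3,10),(6,8),(9,4),(4,6)]⟩⟩,⟨false,0,⟨0,[]⟩,
  ⟨0,[]⟩⟩,⟨false,0,⟨0,[]⟩,⟨0,[]⟩⟩,[.e ⟨false,1,⟨0,[(16,0),(5,0),(11,0),(2,0)]⟩,⟨6,[(7,1),(3,0),(0,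
  1),(2,1),(7,1),(20,0)]⟩⟩ ⟨false,0,⟨0,[(2,0),(13,0)]⟩,⟨27,[(3,14),(2,4),(0,7),(3,3),(3,10),(6,8),
  (9,4),(4,6)]⟩⟩,.o ⟨false,1,⟨1,[(16,1),(20,0),(7,0)]⟩,⟨4,[(3,1),(8,1),(2,1),(6,0),(9,0),(4,1)]⟩⟩,
  .a ⟨true,1,⟨0,[(26,0)]⟩,⟨0,[(1,0)]⟩⟩ ⟨true,1,⟨0,[(2,0),(0,0),(12,0)]⟩,⟨0,[(15,0)]⟩⟩ ⟨false,0,⟨1,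
  [(1,1),(14,1),(20,0),(7,0)]⟩,⟨27,[(3,14),(2,4),(0,7),(3,3),(3,10),(6,8),(9,4),(4,6)]⟩⟩,.o ⟨false,
  1,⟨0,[(3,0),(14,0)]⟩,⟨0,[(2,0)]⟩⟩]⟩) (.Q [0,-2,0,0,2,0,0,0,-1,-1,0,1] (.p true [0,0,0,0,1] [1]
  (⟨0,[(29,0)]⟩,⟨0,[(28,0)]⟩) .k 1 (⟨0,[]⟩,⟨0,[]⟩) .k .k) (.Q [0,1,0,0,-1,0,0,0,1,0,0,-1] (.p false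
  [0,0,0,0,1] [] (⟨0,[(30,0)]⟩,⟨0,[(29,0)]⟩) .k 0 (⟨0,[]⟩,⟨0,[]⟩) .k .k) (.R ⟨1,false,false,false,
  [1,0,-1],[1,0,0,0,-1],[1,0,0,-1,0,0,0,-1],(⟨0,[(37,0)]⟩,⟨0,[(38,0)]⟩),(⟨0,[(30,0)]⟩,⟨0,[(31,0)]⟩),
  ⟨0,[(26,0)]⟩,.k,.k,.k,.k,(.r 0 ⟨29,[(9,4),(0,4),(5,4),(0,2),(4,14),(2,10),(8,11),(4,2)]⟩ ⟨1,[(18,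
  1),(17,1),(2,0),(5,1),(1,0)]⟩),.k,⟨true,(-1),⟨0,[(16,0)]⟩,⟨1,[(18,1),(17,1),(2,0),(5,1),(1,0)]⟩⟩,
  ⟨false,1,⟨0,[(8,0),(11,0)]⟩,⟨0,[(4,0),(31,0)]⟩⟩,⟨false,1,⟨4,[(9,1),(2,0),(5,1),(0,0),(9,1),(17,
  0)]⟩,⟨0,[(45,0)]⟩⟩,⟨false,2,⟨0,[(1,0),(16,0)]⟩,⟨0,[(14,0)]⟩⟩,⟨true,0,⟨0,[]⟩,⟨0,[(49,0)]⟩⟩,⟨false,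
  2,⟨0,[(1,0),(16,0),(26,0)]⟩,⟨0,[(10,0)]⟩⟩,[.o ⟨false,2,⟨3,[(1,1),(26,2),(0,0),(9,0)]⟩,⟨0,[(0,
  0)]⟩⟩,.o ⟨false,2,⟨0,[(1,0)]⟩,⟨0,[(0,0),(48,0)]⟩⟩,.o ⟨false,1,⟨0,[(4,0),(0,0)]⟩,⟨0,[(20,0)]⟩⟩,.a
  ⟨true,0,⟨0,[(36,0)]⟩,⟨0,[(32,0)]⟩⟩ ⟨true,0,⟨5,[(9,0),(0,0),(5,0),(0,2),(5,2),(1,0)]⟩,⟨0,[(33,0),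
  (2,0),(8,0)]⟩⟩ ⟨false,2,⟨1,[(1,1),(22,0),(0,0)]⟩,⟨0,[(0,0),(35,0)]⟩⟩]⟩) (.S ⟨1,0,[],[1,0,0,0,-1],
  [0,-1],(⟨0,[(30,0)]⟩,⟨0,[(31,0)]⟩),⟨0,[(2,0)]⟩,.k,(.r (-1) ⟨9,[(9,1),(2,0),(5,1),(0,0),(3,4),(5,
  1),(17,0)]⟩ ⟨1,[(5,0),(7,0),(4,0),(10,0),(12,0)]⟩),⟨false,1,⟨1,[(28,0),(0,0),(17,0)]⟩,⟨0,[]⟩⟩,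
  ⟨true,0,⟨0,[(49,0)]⟩,⟨0,[]⟩⟩,⟨true,0,⟨0,[(45,0)]⟩,⟨0,[(44,0)]⟩⟩,⟨false,0,⟨0,[(45,0)]⟩,⟨4,[(9,1),
  (2,0),(5,1),(0,0),(9,1),(17,0)]⟩⟩,[.e ⟨false,1,⟨1,[(46,0),(0,0)]⟩,⟨0,[(49,0)]⟩⟩ ⟨false,1,⟨1,[(28,
  0),(0,0),(16,0)]⟩,⟨0,[]⟩⟩,.a ⟨true,1,⟨0,[(0,0)]⟩,⟨3,[(3,2),(3,0),(28,0),(5,1)]⟩⟩ ⟨true,1,⟨0,[(47,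
  0)]⟩,⟨0,[(17,0),(15,0),(2,0)]⟩⟩ ⟨false,1,⟨1,[(46,0),(0,0)]⟩,⟨0,[(49,0)]⟩⟩,.e ⟨false,1,⟨0,[(47,
  0)]⟩,⟨0,[(49,0)]⟩⟩ ⟨false,1,⟨1,[(28,0),(0,0),(17,0)]⟩,⟨0,[]⟩⟩,.o ⟨false,1,⟨10,[(0,3),(4,6),(6,1),
  (0,1),(3,0),(7,1),(7,0),(5,2)]⟩,⟨0,[(4,0)]⟩⟩]⟩)) (.S ⟨1,0,[0,-1],[1,0,0,0,-1],[],(⟨0,[(29,0)]⟩,⟨0,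
  [(30,0)]⟩),⟨0,[(1,0)]⟩,.k,(.r (-1) ⟨9,[(8,1),(2,0),(5,1),(0,0),(3,4),(5,1),(17,0)]⟩ ⟨1,[(4,0),(7,
  0),(4,0),(10,0),(12,0)]⟩),⟨true,0,⟨0,[(48,0)]⟩,⟨0,[]⟩⟩,⟨false,1,⟨1,[(27,0),(0,0),(17,0)]⟩,⟨0,[]⟩⟩,
  ⟨false,0,⟨0,[(44,0)]⟩,⟨4,[(8,1),(2,0),(5,1),(0,0),(9,1),(17,0)]⟩⟩,⟨true,0,⟨0,[(44,0)]⟩,⟨0,[(43,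
  0)]⟩⟩,[.o ⟨false,2,⟨1,[(27,1),(10,0),(7,0)]⟩,⟨1,[(0,0),(1,0),(35,0)]⟩⟩,.a ⟨true,2,⟨0,[(27,0),(18,
  0)]⟩,⟨0,[(0,0)]⟩⟩ ⟨false,1,⟨1,[(45,0),(0,0)]⟩,⟨0,[(48,0)]⟩⟩ ⟨true,1,⟨0,[(46,0)]⟩,⟨5,[(0,2),(3,2),
  (6,1),(0,1),(3,0),(15,0),(8,0)]⟩⟩,.e ⟨false,1,⟨1,[(27,0),(0,0),(17,0)]⟩,⟨0,[]⟩⟩ ⟨false,1,⟨0,[(46,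
  0)]⟩,⟨0,[(48,0)]⟩⟩,.o ⟨false,1,⟨0,[(4,0),(14,0)]⟩,⟨0,[(3,0)]⟩⟩]⟩)))) (.Q [0,0,0,0,0,-1,0,0,0,1,0,
  -1] (.ed true [0,1,0,0,1] .k) (.S ⟨1,0,[0,-1],[1,0,0,0,-1],[1,0,0,-1],(⟨0,[(27,0)]⟩,⟨0,[(28,0)]⟩),
  ⟨0,[(0,0)]⟩,.k,(.r (-1) ⟨9,[(6,1),(2,0),(5,1),(0,0),(3,4),(5,1),(17,0)]⟩ ⟨1,[(2,0),(7,0),(4,0),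
  (10,0),(12,0)]⟩),⟨true,0,⟨0,[(41,0)]⟩,⟨0,[(42,0)]⟩⟩,⟨false,1,⟨1,[(25,0),(0,0),(17,0)]⟩,⟨0,[]⟩⟩,
  ⟨false,0,⟨0,[]⟩,⟨1,[(25,0),(0,0),(17,0)]⟩⟩,⟨true,0,⟨0,[(42,0)]⟩,⟨0,[(41,0)]⟩⟩,[.e ⟨false,1,⟨7,[(6,
  1),(8,1),(4,0),(5,1),(14,4),(1,2)]⟩,⟨0,[(42,0)]⟩⟩ ⟨false,1,⟨1,[(43,0),(0,0)]⟩,⟨0,[(46,0)]⟩⟩,.o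
  ⟨false,2,⟨1,[(1,0),(3,0),(30,0),(7,1)]⟩,⟨0,[(11,0),(18,0)]⟩⟩,.o ⟨false,1,⟨1,[(1,0),(3,0),(30,0)]⟩,
  ⟨0,[(26,0)]⟩⟩,.a ⟨true,0,⟨0,[(1,0)]⟩,⟨7,[(4,0),(10,1),(5,4),(4,6),(4,1),(1,0),(10,0)]⟩⟩ ⟨false,1,
  ⟨9,[(6,1),(2,0),(5,1),(0,0),(3,4),(5,1),(17,0)]⟩,⟨2,[(2,0),(7,0),(4,0),(10,0),(15,0)]⟩⟩ ⟨true,1,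
  ⟨1,[(43,0),(0,0)]⟩,⟨0,[(1,0),(9,0),(18,0)]⟩⟩]⟩) (.Q [0,0,-1,-1,0,0,1,1,1,1,-1,-1] (.p false [0,0,
  1] [1,0,0,0,-1] (⟨0,[(35,0)]⟩,⟨0,[(34,0)]⟩) .k 2 (⟨0,[(27,0)]⟩,⟨0,[(28,0)]⟩) .k (.r (-1) ⟨2,[(2,
  1),(12,1),(10,1),(3,0),(2,0),(5,0),(3,0)]⟩ ⟨0,[(14,0),(29,0)]⟩)) (.R ⟨0,false,false,false,[1,0,0,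
  0,-1],[0,-1,1],[0,0,0,-1],(⟨0,[(28,0)]⟩,⟨0,[(29,0)]⟩),(⟨0,[(25,0)]⟩,⟨0,[(35,0),(3,0)]⟩),⟨0,[(1,
  0)]⟩,.k,.k,(.r (-1) ⟨2,[(0,0),(6,0),(13,0)]⟩ ⟨1,[(3,0),(7,0),(4,0),(10,0),(12,0)]⟩),(.r 0 ⟨5,[(7,
  0),(3,3),(0,0),(8,0),(1,0),(21,1)]⟩ ⟨3,[(0,2),(2,2),(16,0),(10,0),(2,0),(5,0),(3,0)]⟩),.k,.k,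
  ⟨false,0,⟨6,[(7,1),(3,0),(0,1),(2,1),(7,1),(20,0)]⟩,⟨0,[(16,0),(5,0),(11,0),(2,0)]⟩⟩,⟨true,(-1),
  ⟨0,[(5,0)]⟩,⟨0,[(2,0),(19,0),(11,0),(2,0)]⟩⟩,⟨true,0,⟨0,[(42,0)]⟩,⟨0,[(43,0)]⟩⟩,⟨false,0,⟨1,[(0,
  1),(2,0),(1,0)]⟩,⟨0,[(2,0),(8,0),(9,0),(0,0),(11,0),(2,0)]⟩⟩,⟨false,0,⟨0,[]⟩,⟨0,[]⟩⟩,⟨false,0,⟨0,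
  []⟩,⟨0,[]⟩⟩,[.e ⟨false,1,⟨1,[(0,0),(6,0),(32,0)]⟩,⟨0,[(43,0)]⟩⟩ ⟨false,0,⟨0,[(0,0)]⟩,⟨13,[(3,8),
  (2,2),(0,1),(3,7),(3,0),(6,10),(9,2),(4,6)]⟩⟩,.o ⟨false,1,⟨3,[(10,1),(5,1),(20,0),(7,2)]⟩,⟨5,[(3,
  2),(7,1),(0,2),(2,0),(6,2),(14,2),(2,0),(2,1)]⟩⟩,.o ⟨false,1,⟨1,[(2,0),(3,0),(30,0)]⟩,⟨0,[(27,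
  0)]⟩⟩,.a ⟨true,0,⟨0,[(2,0)]⟩,⟨7,[(5,0),(10,1),(5,4),(4,6),(4,1),(1,0),(10,0)]⟩⟩ ⟨false,1,⟨2,[(0,
  0),(6,0),(13,0)]⟩,⟨2,[(3,0),(7,0),(4,0),(10,0),(15,0)]⟩⟩ ⟨true,0,⟨0,[(0,0)]⟩,⟨0,[(3,0),(11,0),(27,
  0)]⟩⟩]⟩) (.Q [0,0,0,-1,0,0,1,1,0,1,-1] (.p false [0,0,1] [1] (⟨0,[(36,0)]⟩,⟨0,[(35,0)]⟩) .k 1 (⟨0,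
  []⟩,⟨0,[]⟩) .k .k) (.R ⟨0,false,false,false,[1,0,0,0,-1],[0,-1,1],[0,0,0,-1],(⟨0,[(29,0)]⟩,⟨0,
  [(30,0)]⟩),(⟨0,[(26,0)]⟩,⟨0,[(36,0),(3,0)]⟩),⟨0,[(2,0)]⟩,.k,.k,(.r (-1) ⟨3,[(0,0),(7,0),(13,1),(5,
  0)]⟩ ⟨1,[(4,0),(7,0),(4,0),(10,0),(12,0)]⟩),(.r 0 ⟨5,[(8,0),(3,3),(0,0),(8,0),(1,0),(21,1)]⟩ ⟨1,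
  [(11,0),(20,0),(2,1),(9,1)]⟩),.k,.k,⟨false,0,⟨6,[(8,1),(3,0),(0,1),(2,1),(7,1),(20,0)]⟩,⟨0,[(17,
  0),(5,0),(11,0),(2,0)]⟩⟩,⟨true,(-1),⟨0,[(6,0)]⟩,⟨0,[(3,0),(19,0),(11,0),(2,0)]⟩⟩,⟨true,0,⟨0,[(43,
  0)]⟩,⟨0,[(44,0)]⟩⟩,⟨false,0,⟨0,[(0,0),(27,0)]⟩,⟨1,[(1,1),(43,0),(0,0)]⟩⟩,⟨false,0,⟨0,[]⟩,⟨0,[]⟩⟩,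
  ⟨false,0,⟨0,[]⟩,⟨0,[]⟩⟩,[.a ⟨true,0,⟨0,[(0,0)]⟩,⟨11,[(1,2),(10,0),(0,2),(9,2),(9,4),(1,0),(8,6),
  (1,3)]⟩⟩ ⟨false,1,⟨3,[(0,0),(7,0),(19,0),(14,1),(1,1)]⟩,⟨0,[(44,0)]⟩⟩ ⟨true,0,⟨0,[(0,0),(27,0)]⟩,
  ⟨0,[(1,0)]⟩⟩,.o ⟨false,1,⟨3,[(11,1),(5,1),(20,0),(7,2)]⟩,⟨9,[(1,3),(11,3),(19,1),(4,2),(2,1),(2,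
  5),(0,0)]⟩⟩,.o ⟨false,1,⟨1,[(3,0),(3,0),(30,0)]⟩,⟨0,[(28,0)]⟩⟩,.e ⟨false,1,⟨3,[(0,0),(7,0),(13,1),
  (5,0)]⟩,⟨2,[(4,0),(7,0),(4,0),(10,0),(15,0)]⟩⟩ ⟨false,1,⟨1,[(0,1),(27,1),(16,0),(0,0)]⟩,⟨0,[(1,
  0)]⟩⟩]⟩) (.R ⟨0,false,false,false,[1,0,0,0,-1],[0,-1,1],[1,-1],(⟨0,[(29,0)]⟩,⟨0,[(30,0)]⟩),(⟨0,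
  [(26,0)]⟩,⟨0,[(36,0),(3,0)]⟩),⟨0,[(2,0)]⟩,.k,.k,(.r (-1) ⟨9,[(8,1),(2,0),(5,1),(0,0),(3,4),(5,1),
  (17,0)]⟩ ⟨1,[(4,0),(7,0),(4,0),(10,0),(12,0)]⟩),(.r 0 ⟨5,[(8,0),(3,3),(0,0),(8,0),(1,0),(21,1)]⟩
  ⟨1,[(11,0),(20,0),(2,1),(9,1)]⟩),.k,.k,⟨false,0,⟨0,[(12,0),(9,0)]⟩,⟨1,[(11,0),(20,0),(2,1),(9,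
  1)]⟩⟩,⟨true,(-1),⟨0,[(6,0)]⟩,⟨0,[(3,0),(19,0),(11,0),(2,0)]⟩⟩,⟨true,0,⟨0,[]⟩,⟨0,[(48,0)]⟩⟩,⟨false,
  0,⟨2,[(9,0),(1,0),(5,2),(10,1),(17,0)]⟩,⟨1,[(1,1),(43,0),(0,0)]⟩⟩,⟨false,0,⟨0,[]⟩,⟨0,[]⟩⟩,⟨false,
  0,⟨0,[]⟩,⟨0,[]⟩⟩,[.o ⟨false,1,⟨9,[(8,1),(2,3),(5,7),(9,2),(0,4),(9,2)]⟩,⟨0,[(0,0)]⟩⟩,.o ⟨false,1,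
  ⟨3,[(11,1),(5,1),(20,0),(7,2)]⟩,⟨13,[(0,9),(3,1),(7,1),(0,0),(14,0),(4,0),(4,0),(2,5)]⟩⟩,.o
  ⟨false,1,⟨1,[(3,0),(3,0),(30,0)]⟩,⟨0,[(28,0)]⟩⟩,.a ⟨true,0,⟨0,[(3,0)]⟩,⟨7,[(6,0),(10,1),(5,4),(4,
  6),(4,1),(1,0),(10,0)]⟩⟩ ⟨true,1,⟨1,[(45,0),(0,0)]⟩,⟨0,[(3,0),(9,0),(18,0)]⟩⟩ ⟨false,1,⟨9,[(8,1),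
  (2,0),(5,11),(0,0),(3,4),(5,11),(17,0)]⟩,⟨0,[(1,0)]⟩⟩]⟩))))))) (.Q [0,0,0,0,0,-1,0,0,0,1,0,-1]
  (.ed true [0,1,0,0,1] .k) (.Q [0,0,0,0,0,2,0,0,0,-1,1] (.p true [0,0,1] [1] (⟨0,[(32,0)]⟩,⟨0,[(31,
  0)]⟩) .k 1 (⟨0,[]⟩,⟨0,[]⟩) .k .k) (.R ⟨0,false,false,true,[1,-1,-1],[1,0,0,0,-1],[1],(⟨0,[(21,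
  0)]⟩,⟨0,[(0,0),(34,0)]⟩),(⟨0,[(25,0)]⟩,⟨0,[(26,0)]⟩),⟨0,[(0,0)]⟩,.k,.k,(.r 0 ⟨0,[(11,0),(6,0)]⟩
  ⟨2,[(8,0),(4,3),(9,1),(0,1),(6,3),(2,1),(5,3)]⟩),(.r 0 ⟨29,[(4,4),(0,4),(5,4),(0,2),(4,14),(2,10),
  (8,11),(4,2)]⟩ ⟨1,[(13,1),(17,1),(2,0),(5,1),(1,0)]⟩),.k,.k,⟨true,0,⟨0,[]⟩,⟨1,[(30,0),(0,0)]⟩⟩,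
  ⟨false,1,⟨1,[(2,1),(12,1),(3,0),(0,0)]⟩,⟨0,[(24,0),(6,0)]⟩⟩,⟨false,1,⟨1,[(13,1),(17,1),(2,0),(5,
  1),(1,0)]⟩,⟨5,[(4,0),(0,0),(5,0),(0,2),(5,2),(1,0)]⟩⟩,⟨true,1,⟨1,[(2,0),(0,0),(4,0),(4,2),(20,
  0)]⟩,⟨0,[(5,0)]⟩⟩,⟨false,0,⟨0,[]⟩,⟨0,[]⟩⟩,⟨false,0,⟨0,[]⟩,⟨0,[]⟩⟩,[.o ⟨false,1,⟨0,[(2,0),(27,0)]⟩,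
  ⟨0,[(24,0)]⟩⟩,.e ⟨false,1,⟨1,[(41,0),(0,0)]⟩,⟨0,[(44,0)]⟩⟩ ⟨false,1,⟨1,[(2,1),(3,1),(14,1),(10,1),
  (1,0),(7,0)]⟩,⟨0,[(24,0),(6,0),(12,0)]⟩⟩,.a ⟨true,0,⟨0,[(31,0)]⟩,⟨0,[(27,0)]⟩⟩ ⟨true,0,⟨0,[]⟩,⟨0,
  [(44,0)]⟩⟩ ⟨false,1,⟨14,[(2,12),(1,1),(1,5),(0,0),(0,1),(4,2),(1,13),(5,5),(10,5),(9,5)]⟩,⟨0,[(24,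
  0),(6,0)]⟩⟩,.e ⟨false,1,⟨1,[(41,0),(0,0)]⟩,⟨1,[(30,0),(0,0)]⟩⟩ ⟨false,1,⟨1,[(2,1),(3,1),(14,1),
  (10,1),(1,0),(7,0)]⟩,⟨1,[(24,1),(5,0),(0,2)]⟩⟩]⟩) (.Q [0,0,1,0,0,0,0,0,-1,0,0,1] (.p true [0,0,0,
  0,1] [] (⟨0,[(26,0)]⟩,⟨0,[(25,0)]⟩) .k 0 (⟨0,[]⟩,⟨0,[]⟩) .k .k) (.S ⟨1,0,[0,-1],[1,0,0,0,-1],[1,0,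
  0,-1],(⟨0,[(26,0)]⟩,⟨0,[(27,0)]⟩),⟨0,[(2,0)]⟩,.k,(.r (-1) ⟨9,[(5,1),(2,0),(5,1),(0,0),(3,4),(5,1),
  (17,0)]⟩ ⟨6,[(9,2),(14,2),(0,2),(3,2),(2,2),(5,1),(2,0)]⟩),⟨true,0,⟨0,[(40,0)]⟩,⟨0,[(41,0)]⟩⟩,
  ⟨false,1,⟨1,[(24,0),(0,0),(17,0)]⟩,⟨0,[]⟩⟩,⟨false,0,⟨0,[]⟩,⟨1,[(24,0),(0,0),(17,0)]⟩⟩,⟨true,0,⟨0,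
  [(41,0)]⟩,⟨0,[(40,0)]⟩⟩,[.e ⟨false,1,⟨7,[(5,1),(8,1),(4,0),(5,1),(14,4),(1,2)]⟩,⟨0,[(41,0)]⟩⟩
  ⟨false,1,⟨1,[(42,0),(0,0)]⟩,⟨0,[(45,0)]⟩⟩,.o ⟨false,2,⟨1,[(0,0),(3,0),(30,0),(7,1)]⟩,⟨0,[(10,0),
  (18,0)]⟩⟩,.o ⟨false,1,⟨1,[(0,0),(3,0),(30,0)]⟩,⟨0,[(25,0)]⟩⟩,.a ⟨true,0,⟨0,[(0,0)]⟩,⟨3,[(10,0),(3,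
  1),(5,1),(4,2),(4,0),(12,0)]⟩⟩ ⟨false,1,⟨9,[(5,1),(2,0),(5,1),(0,0),(3,4),(5,1),(17,0)]⟩,⟨5,[(9,
  1),(4,1),(9,0),(0,0),(6,1),(2,0),(5,1)]⟩⟩ ⟨true,1,⟨1,[(42,0),(0,0)]⟩,⟨0,[(0,0),(9,0),(18,0)]⟩⟩]⟩)
  (.S ⟨1,0,[],[1,0,0,0,-1],[0,-1],(⟨0,[(26,0)]⟩,⟨0,[(27,0)]⟩),⟨0,[(2,0)]⟩,.k,(.r (-1) ⟨9,[(5,1),(2,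
  0),(5,1),(0,0),(3,4),(5,1),(17,0)]⟩ ⟨6,[(9,2),(14,2),(0,2),(3,2),(2,2),(5,1),(2,0)]⟩),⟨false,1,⟨1,
  [(24,0),(0,0),(17,0)]⟩,⟨0,[]⟩⟩,⟨true,0,⟨0,[(45,0)]⟩,⟨0,[]⟩⟩,⟨true,0,⟨0,[(41,0)]⟩,⟨0,[(40,0)]⟩⟩,
  ⟨false,0,⟨0,[(41,0)]⟩,⟨4,[(5,1),(2,0),(5,1),(0,0),(9,1),(17,0)]⟩⟩,[.o ⟨false,1,⟨0,[(3,0),(27,0)]⟩,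
  ⟨0,[(25,0)]⟩⟩,.a ⟨true,1,⟨2,[(3,1),(1,0),(3,0),(2,0),(1,2),(28,0)]⟩,⟨0,[(10,0),(3,0)]⟩⟩ ⟨true,1,
  ⟨0,[(43,0)]⟩,⟨0,[(13,0),(15,0),(2,0)]⟩⟩ ⟨false,1,⟨1,[(42,0),(0,0)]⟩,⟨0,[(45,0)]⟩⟩,.o ⟨false,1,⟨0,
  [(3,0),(27,0)]⟩,⟨0,[(25,0)]⟩⟩,.o ⟨false,1,⟨24,[(3,9),(1,5),(2,11),(0,14),(4,8),(9,8),(7,4),(2,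
  8)]⟩,⟨0,[(0,0)]⟩⟩]⟩))) (.Q [0,0,1,-1,0,0,-1,-1,-1,-1,1,1] (.p true [0,0,1] [1,0,0,0,-1] (⟨0,[(32,
  0)]⟩,⟨0,[(31,0)]⟩) .k 2 (⟨0,[(24,0)]⟩,⟨0,[(25,0)]⟩) .k (.r (-1) ⟨1,[(22,0),(0,0),(3,1),(2,1),(9,
  0)]⟩ ⟨0,[(11,0),(29,0)]⟩)) (.R ⟨0,false,false,false,[1,0,0,0,-1],[0,1,1],[1,1,1],(⟨0,[(25,0)]⟩,⟨0,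
  [(26,0)]⟩),(⟨0,[(33,0),(2,0)]⟩,⟨0,[(21,0)]⟩),⟨0,[(1,0)]⟩,.k,.k,(.r (-1) ⟨9,[(4,1),(2,0),(5,1),(0,
  0),(3,4),(5,1),(17,0)]⟩ ⟨6,[(8,2),(14,2),(0,2),(3,2),(2,2),(5,1),(2,0)]⟩),(.r (-1) ⟨1,[(4,0),(4,
  0),(8,0),(1,0)]⟩ ⟨0,[(28,0),(2,0),(8,0)]⟩),.k,.k,⟨true,(-1),⟨0,[(11,0)]⟩,⟨1,[(13,1),(17,1),(2,0),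
  (5,1),(1,0)]⟩⟩,⟨false,0,⟨0,[(15,0),(3,0),(4,0)]⟩,⟨14,[(0,3),(1,4),(5,1),(4,5),(9,5),(7,11),(2,
  5)]⟩⟩,⟨true,(-1),⟨0,[(12,0),(15,0),(2,0)]⟩,⟨1,[(41,0),(0,0)]⟩⟩,⟨false,0,⟨0,[(13,0),(10,0),(15,
  0)]⟩,⟨8,[(0,4),(1,0),(1,2),(3,0),(9,2)]⟩⟩,⟨false,0,⟨0,[]⟩,⟨0,[]⟩⟩,⟨false,0,⟨0,[]⟩,⟨0,[]⟩⟩,[.a
  ⟨true,0,⟨0,[(13,0),(26,0)]⟩,⟨0,[(14,0)]⟩⟩ ⟨false,0,⟨0,[(44,0)]⟩,⟨1,[(41,0),(0,0)]⟩⟩ ⟨true,0,⟨0,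
  [(13,0),(10,0),(15,0)]⟩,⟨0,[(0,0)]⟩⟩,.o ⟨false,1,⟨1,[(13,1),(20,0),(5,1),(1,0)]⟩,⟨14,[(0,4),(4,4),
  (10,1),(12,4),(4,4),(2,0),(1,0)]⟩⟩,.o ⟨false,1,⟨0,[(2,0),(27,0)]⟩,⟨0,[(24,0)]⟩⟩,.e ⟨false,0,⟨0,
  []⟩,⟨1,[(23,0),(0,0),(17,0)]⟩⟩ ⟨false,1,⟨1,[(13,1),(10,1),(15,1),(0,0),(0,0)]⟩,⟨0,[(0,0)]⟩⟩]⟩)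
  (.Q [0,0,1,0,0,0,0,0,-1,0,0,1] (.p true [0,0,0,0,1] [] (⟨0,[(26,0)]⟩,⟨0,[(25,0)]⟩) .k 0 (⟨0,[]⟩,
  ⟨0,[]⟩) .k .k) (.R ⟨0,false,false,false,[1,0,0,0,-1],[0,1,1],[1,1,1],(⟨0,[(26,0)]⟩,⟨0,[(27,0)]⟩),
  (⟨0,[(34,0),(2,0)]⟩,⟨0,[(22,0)]⟩),⟨0,[(2,0)]⟩,.k,.k,(.r (-1) ⟨4,[(1,0),(3,0),(2,0),(6,0),(3,1),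
  (23,0)]⟩ ⟨15,[(1,3),(7,5),(14,3),(4,1),(1,0),(0,6),(2,1),(9,13)]⟩),(.r (-1) ⟨1,[(5,0),(4,0),(8,0),
  (1,0)]⟩ ⟨2,[(1,0),(1,0),(5,0),(19,2),(2,2)]⟩),.k,.k,⟨true,(-1),⟨0,[(12,0)]⟩,⟨1,[(0,1),(0,1),(30,
  1),(2,0),(7,0)]⟩⟩,⟨false,0,⟨2,[(1,1),(8,0),(2,0),(5,1),(1,0)]⟩,⟨4,[(0,1),(2,0),(20,1),(7,3),(2,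
  1)]⟩⟩,⟨true,(-1),⟨0,[(0,0),(9,0),(18,0)]⟩,⟨1,[(42,0),(0,0)]⟩⟩,⟨false,0,⟨1,[(1,1),(29,0),(0,0)]⟩,
  ⟨7,[(0,3),(2,3),(1,1),(0,1),(5,3),(22,0),(7,4)]⟩⟩,⟨false,0,⟨0,[]⟩,⟨0,[]⟩⟩,⟨false,0,⟨0,[]⟩,⟨0,[]⟩⟩,
  [.e ⟨false,0,⟨0,[(45,0)]⟩,⟨1,[(42,0),(0,0)]⟩⟩ ⟨false,0,⟨0,[(1,0)]⟩,⟨6,[(0,1),(2,1),(1,2),(6,1),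
  (17,1),(4,0),(4,1)]⟩⟩,.o ⟨false,1,⟨1,[(0,1),(0,1),(33,0),(7,0)]⟩,⟨4,[(0,0),(2,0),(2,1),(5,0),(2,
  0),(14,0),(4,1),(4,0)]⟩⟩,.o ⟨false,1,⟨1,[(0,0),(3,0),(30,0)]⟩,⟨0,[(25,0)]⟩⟩,.a ⟨true,0,⟨0,[(0,
  0)]⟩,⟨0,[(1,0),(13,0)]⟩⟩ ⟨false,0,⟨0,[]⟩,⟨1,[(24,0),(0,0),(17,0)]⟩⟩ ⟨true,0,⟨0,[(1,0)]⟩,⟨4,[(0,5),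
  (2,0),(2,1),(5,0),(2,0),(14,0),(4,1),(4,0)]⟩⟩]⟩) (.R ⟨0,false,false,false,[1,0,0,0,-1],[1,0,-1],
  [1],(⟨0,[(26,0)]⟩,⟨0,[(27,0)]⟩),(⟨0,[(33,0)]⟩,⟨0,[(34,0)]⟩),⟨0,[(2,0)]⟩,.k,.k,(.r (-1) ⟨4,[(1,0),
  (3,0),(2,0),(6,0),(3,1),(23,0)]⟩ ⟨15,[(1,3),(7,5),(14,3),(4,1),(1,0),(0,6),(2,1),(9,13)]⟩),.k,.k,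
  .k,⟨false,1,⟨24,[(1,19),(1,14),(1,3),(2,7),(5,0),(9,0),(7,9),(2,0)]⟩,⟨6,[(5,1),(3,0),(0,1),(2,1),
  (7,1),(20,0)]⟩⟩,⟨true,0,⟨0,[(0,0),(31,0)]⟩,⟨8,[(3,7),(1,0),(1,2),(0,8),(0,9),(2,0),(1,2),(7,2),
  (10,2),(9,3)]⟩⟩,⟨false,0,⟨0,[]⟩,⟨1,[(24,0),(0,0),(17,0)]⟩⟩,⟨true,(-1),⟨0,[(10,0)]⟩,⟨0,[(3,0),(10,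
  0),(16,0)]⟩⟩,⟨false,0,⟨0,[]⟩,⟨0,[]⟩⟩,⟨false,0,⟨0,[]⟩,⟨0,[]⟩⟩,[.a ⟨true,0,⟨19,[(3,0),(1,3),(3,3),
  (0,4),(4,3),(4,4),(9,2),(1,2)]⟩,⟨0,[(14,0)]⟩⟩ ⟨true,0,⟨0,[]⟩,⟨1,[(31,0),(0,0)]⟩⟩ ⟨false,0,⟨1,[(10,
  1),(31,0),(0,0)]⟩,⟨0,[(3,0),(10,0),(16,0)]⟩⟩,.o ⟨false,1,⟨7,[(0,1),(2,1),(1,3),(3,1),(0,1),(14,1),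
  (9,0),(7,0)]⟩,⟨0,[(29,0)]⟩⟩,.o ⟨false,1,⟨0,[(3,0),(27,0)]⟩,⟨0,[(25,0)]⟩⟩,.o ⟨false,1,⟨24,[(3,9),
  (1,5),(2,11),(0,14),(4,8),(9,8),(7,4),(2,8)]⟩,⟨0,[(0,0)]⟩⟩]⟩))))) (.Q [0,0,0,0,0,-1,0,0,0,0,0,1]
  (.ed false [1,-1,0,0,1] .k) (.S ⟨1,0,[0,2],[0,0,0,0,1],[1,1,0,-1],(⟨0,[(24,0)]⟩,⟨0,[(23,0)]⟩),⟨0,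
  [(0,0)]⟩,.k,(.r 0 ⟨0,[(36,0)]⟩ ⟨5,[(6,1),(4,1),(9,3),(0,3),(6,1),(2,0),(5,1),(1,2)]⟩),⟨false,1,⟨4,
  [(2,1),(2,0),(5,1),(0,0),(9,1),(17,0)]⟩,⟨0,[(38,0)]⟩⟩,⟨true,0,⟨0,[(42,0)]⟩,⟨0,[]⟩⟩,⟨true,0,⟨0,[]⟩,
  ⟨0,[(42,0)]⟩⟩,⟨false,0,⟨0,[(38,0)]⟩,⟨4,[(2,1),(2,0),(5,1),(0,0),(9,1),(17,0)]⟩⟩,[.e ⟨false,0,⟨4,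
  [(14,1),(20,0),(1,0)]⟩,⟨1,[(21,0),(0,0),(15,1),(1,0)]⟩⟩ ⟨false,0,⟨0,[(35,0)]⟩,⟨0,[(40,0)]⟩⟩,.o
  ⟨false,(-1),⟨2,[(1,1),(5,0),(7,0),(10,0),(11,0)]⟩,⟨1,[(21,1),(10,0),(7,0)]⟩⟩,.a ⟨true,(-1),⟨10,
  [(1,8),(4,0),(0,1),(3,4),(0,1),(4,5),(11,0),(10,0)]⟩,⟨0,[(21,0)]⟩⟩ ⟨true,0,⟨0,[(37,0)]⟩,⟨0,[(38,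
  0)]⟩⟩ ⟨false,0,⟨0,[(42,0)]⟩,⟨0,[(40,0)]⟩⟩,.o ⟨false,(-1),⟨0,[(1,0)]⟩,⟨1,[(21,1),(10,0),(6,
  0)]⟩⟩]⟩) (.S ⟨1,0,[],[1,0,0,0,-1],[0,-1],(⟨0,[(23,0)]⟩,⟨0,[(24,0)]⟩),⟨0,[(0,0),(18,0),(0,0)]⟩,.k,
  (.r (-1) ⟨9,[(2,1),(2,0),(5,1),(0,0),(3,4),(5,1),(17,0)]⟩ ⟨6,[(6,2),(14,2),(0,2),(3,2),(2,2),(5,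
  1),(2,0)]⟩),⟨false,1,⟨1,[(21,0),(0,0),(17,0)]⟩,⟨0,[]⟩⟩,⟨true,0,⟨0,[(42,0)]⟩,⟨0,[]⟩⟩,⟨true,0,⟨0,
  [(38,0)]⟩,⟨0,[(37,0)]⟩⟩,⟨false,0,⟨0,[(38,0)]⟩,⟨4,[(2,1),(2,0),(5,1),(0,0),(9,1),(17,0)]⟩⟩,[.e
  ⟨false,1,⟨1,[(39,0),(0,0)]⟩,⟨0,[(42,0)]⟩⟩ ⟨false,1,⟨1,[(21,0),(0,0),(16,0)]⟩,⟨0,[]⟩⟩,.o ⟨false,2,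
  ⟨1,[(21,1),(10,0),(7,0)]⟩,⟨2,[(1,1),(5,0),(7,0),(10,0),(11,0)]⟩⟩,.e ⟨false,1,⟨0,[(40,0)]⟩,⟨0,[(42,
  0)]⟩⟩ ⟨false,1,⟨1,[(21,0),(0,0),(17,0)]⟩,⟨0,[]⟩⟩,.a ⟨true,1,⟨1,[(21,1),(6,0),(0,0)]⟩,⟨0,[(1,0),
  (15,0)]⟩⟩ ⟨true,1,⟨1,[(39,0),(0,0)]⟩,⟨0,[(10,0),(15,0),(2,0)]⟩⟩ ⟨false,1,⟨1,[(39,0),(0,0)]⟩,⟨1,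
  [(28,0),(0,0)]⟩⟩]⟩))) (.Q [0,0,0,0,0,-1,0,0,0,1,0,-1] (.ed true [0,1,0,0,1] .k) (.S ⟨1,0,[],[1,0,
  0,0,-1],[0,-1],(⟨0,[(22,0)]⟩,⟨0,[(23,0)]⟩),⟨0,[(0,0)]⟩,.k,(.r (-1) ⟨1,[(15,0),(20,0),(2,0)]⟩ ⟨6,
  [(5,2),(14,2),(0,2),(3,2),(2,2),(5,1),(2,0)]⟩),⟨false,1,⟨1,[(20,0),(0,0),(17,0)]⟩,⟨0,[]⟩⟩,⟨true,0,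
  ⟨0,[(41,0)]⟩,⟨0,[]⟩⟩,⟨true,0,⟨0,[(37,0)]⟩,⟨0,[(36,0)]⟩⟩,⟨false,0,⟨0,[(37,0)]⟩,⟨0,[(36,0),(2,0)]⟩⟩,
  [.e ⟨false,1,⟨1,[(38,0),(0,0)]⟩,⟨0,[(41,0)]⟩⟩ ⟨false,1,⟨1,[(20,0),(0,0),(16,0)]⟩,⟨0,[]⟩⟩,.o
  ⟨false,2,⟨1,[(20,1),(10,0),(7,0)]⟩,⟨3,[(1,1),(0,1),(28,0),(7,0)]⟩⟩,.e ⟨false,1,⟨0,[(39,0)]⟩,⟨0,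
  [(41,0)]⟩⟩ ⟨false,1,⟨1,[(20,0),(0,0),(17,0)]⟩,⟨0,[]⟩⟩,.a ⟨true,1,⟨1,[(20,1),(6,0),(0,0)]⟩,⟨0,[(1,
  0),(7,0),(5,0),(12,0),(10,0)]⟩⟩ ⟨true,1,⟨1,[(38,0),(0,0)]⟩,⟨13,[(1,5),(2,4),(0,1),(3,8),(10,5),(7,
  10),(2,2),(2,0)]⟩⟩ ⟨false,1,⟨1,[(38,0),(0,0)]⟩,⟨1,[(27,0),(0,0)]⟩⟩]⟩) (.S ⟨1,0,[0,2],[0,0,0,0,1],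
  [1,1,0,-1],(⟨0,[(23,0)]⟩,⟨0,[(22,0)]⟩),⟨0,[(0,0),(17,0),(0,0)]⟩,.k,(.r 0 ⟨0,[(35,0)]⟩ ⟨5,[(5,1),
  (4,1),(9,3),(0,3),(6,1),(2,0),(5,1),(1,2)]⟩),⟨false,1,⟨0,[(36,0),(2,0)]⟩,⟨0,[(37,0)]⟩⟩,⟨true,0,⟨0,
  [(41,0)]⟩,⟨0,[]⟩⟩,⟨true,0,⟨0,[]⟩,⟨0,[(41,0)]⟩⟩,⟨false,0,⟨0,[(37,0)]⟩,⟨0,[(36,0),(2,0)]⟩⟩,[.e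
  ⟨false,0,⟨4,[(13,1),(20,0),(1,0)]⟩,⟨1,[(20,0),(0,0),(15,1),(1,0)]⟩⟩ ⟨false,0,⟨0,[(34,0)]⟩,⟨0,[(39,
  0)]⟩⟩,.o ⟨false,(-1),⟨3,[(1,1),(0,1),(28,0),(7,0)]⟩,⟨1,[(20,1),(10,0),(7,0)]⟩⟩,.a ⟨true,(-1),⟨0,
  [(1,0),(9,0),(27,0)]⟩,⟨0,[(20,0)]⟩⟩ ⟨true,0,⟨0,[(36,0)]⟩,⟨0,[(37,0)]⟩⟩ ⟨false,0,⟨0,[(41,0)]⟩,⟨0,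
  [(39,0)]⟩⟩,.o ⟨false,(-1),⟨1,[(1,1),(6,1),(19,1),(2,0),(7,2)]⟩,⟨1,[(20,1),(10,0),(6,0)]⟩⟩]⟩)))
  (.R ⟨1,true,false,false,[1,0,-1],[1,0,0,0,-1],[0,1,0,0,0,0,0,-1],(⟨0,[(27,0)]⟩,⟨0,[(28,0)]⟩),(⟨0,
  [(20,0)]⟩,⟨0,[(21,0)]⟩),⟨0,[(16,0)]⟩,.k,.k,.k,.k,(.r 0 ⟨19,[(6,7),(4,1),(0,2),(0,4),(1,5),(8,11),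
  (4,2)]⟩ ⟨0,[(0,0),(18,0),(6,0)]⟩),.k,⟨false,(-1),⟨2,[(7,2),(4,0),(19,0),(2,0)]⟩,⟨5,[(0,3),(1,1),
  (16,3),(6,5),(9,2),(0,4)]⟩⟩,⟨true,0,⟨0,[(0,0),(5,0)]⟩,⟨0,[(19,0),(6,0)]⟩⟩,⟨true,0,⟨0,[(39,0)]⟩,⟨0,
  []⟩⟩,⟨false,2,⟨5,[(0,3),(1,1),(15,2),(0,0),(17,4)]⟩,⟨0,[(4,0)]⟩⟩,⟨false,0,⟨0,[(35,0)]⟩,⟨0,[(34,0),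
  (2,0)]⟩⟩,⟨true,1,⟨0,[(0,0)]⟩,⟨0,[(4,0),(29,0)]⟩⟩,[]⟩)) (.Q [0,0,0,0,0,0,1,0,-1,0,-1,1] (.p false
  [0,0,1] [0,0,0,0,1] (⟨0,[(27,0)]⟩,⟨0,[(26,0)]⟩) .k 2 (⟨0,[(20,0)]⟩,⟨0,[(19,0)]⟩) .k (.r (-2) ⟨1,
  [(7,1),(9,0),(0,0),(6,1),(2,0),(6,0),(0,0)]⟩ ⟨1,[(2,0),(2,0),(5,0)]⟩)) (.Q [0,0,0,0,0,-1,0,0,0,1,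
  0,-1] (.ed true [0,1,0,0,1] .k) (.S ⟨1,0,[0,-1],[1,0,0,0,-1],[1,0,0,-1],(⟨0,[(21,0)]⟩,⟨0,[(22,
  0)]⟩),⟨0,[(0,0)]⟩,.k,(.r (-1) ⟨1,[(14,0),(20,0),(2,0)]⟩ ⟨6,[(4,2),(14,2),(0,2),(3,2),(2,2),(5,1),
  (2,0)]⟩),⟨true,0,⟨0,[(35,0)]⟩,⟨0,[(36,0)]⟩⟩,⟨false,1,⟨1,[(19,0),(0,0),(17,0)]⟩,⟨0,[]⟩⟩,⟨false,0,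
  ⟨0,[]⟩,⟨1,[(19,0),(0,0),(17,0)]⟩⟩,⟨true,0,⟨0,[(36,0)]⟩,⟨0,[(35,0)]⟩⟩,[.e ⟨false,1,⟨1,[(35,1),(1,
  0),(0,0)]⟩,⟨0,[(36,0)]⟩⟩ ⟨false,1,⟨1,[(37,0),(0,0)]⟩,⟨0,[(40,0)]⟩⟩,.o ⟨false,2,⟨2,[(1,1),(13,0),
  (3,0),(7,1),(2,1),(7,2)]⟩,⟨0,[(5,0),(18,0)]⟩⟩,.o ⟨false,1,⟨2,[(1,1),(13,0),(3,0),(7,1),(2,1)]⟩,⟨0,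
  [(20,0)]⟩⟩,.a ⟨true,0,⟨0,[(1,0),(25,0)]⟩,⟨3,[(5,0),(3,1),(5,1),(4,2),(4,0),(12,0)]⟩⟩ ⟨false,1,⟨1,
  [(14,0),(20,0),(2,0)]⟩,⟨5,[(4,1),(4,1),(9,0),(0,0),(6,1),(2,0),(5,1)]⟩⟩ ⟨true,1,⟨1,[(37,0),(0,
  0)]⟩,⟨0,[(8,0),(15,0),(2,0)]⟩⟩]⟩) (.Q [0,0,1,-1,0,0,-1,-1,-1,-1,1,1] (.p true [0,0,1] [1,0,0,0,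
  -1] (⟨0,[(29,0)]⟩,⟨0,[(28,0)]⟩) .k 2 (⟨0,[(21,0)]⟩,⟨0,[(22,0)]⟩) .k (.r (-1) ⟨1,[(19,0),(0,0),(3,
  1),(2,1),(9,0)]⟩ ⟨0,[(8,0),(29,0)]⟩)) (.R ⟨0,false,false,false,[1,0,0,0,-1],[0,1,1],[1,1,1],(⟨0,
  [(22,0)]⟩,⟨0,[(23,0)]⟩),(⟨0,[(30,0),(2,0)]⟩,⟨0,[(18,0)]⟩),⟨0,[(1,0)]⟩,.k,.k,(.r (-1) ⟨1,[(15,0),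
  (20,0),(2,0)]⟩ ⟨6,[(5,2),(14,2),(0,2),(3,2),(2,2),(5,1),(2,0)]⟩),(.r (-1) ⟨13,[(5,1),(5,8),(3,8),
  (1,5),(8,2),(4,2),(7,3)]⟩ ⟨0,[(25,0),(2,0),(8,0)]⟩),.k,.k,⟨true,(-1),⟨0,[(8,0)]⟩,⟨1,[(10,1),(17,
  1),(2,0),(5,1),(1,0)]⟩⟩,⟨false,0,⟨0,[(12,0),(3,0),(4,0)]⟩,⟨2,[(2,1),(13,0),(3,0),(7,4),(2,1)]⟩⟩,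
  ⟨true,(-1),⟨0,[(9,0),(15,0),(2,0)]⟩,⟨1,[(38,0),(0,0)]⟩⟩,⟨false,0,⟨0,[(10,0),(10,0),(15,0)]⟩,⟨1,
  [(0,1),(37,0),(0,0)]⟩⟩,⟨false,0,⟨0,[]⟩,⟨0,[]⟩⟩,⟨false,0,⟨0,[]⟩,⟨0,[]⟩⟩,[.a ⟨true,0,⟨0,[(10,0),(26,
  0)]⟩,⟨0,[(11,0)]⟩⟩ ⟨false,0,⟨0,[(41,0)]⟩,⟨1,[(38,0),(0,0)]⟩⟩ ⟨true,0,⟨0,[(10,0),(10,0),(15,0)]⟩,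
  ⟨0,[(0,0)]⟩⟩,.o ⟨false,1,⟨1,[(10,1),(20,0),(5,1),(1,0)]⟩,⟨11,[(0,3),(5,3),(4,0),(1,1),(12,2),(4,
  3),(4,2)]⟩⟩,.o ⟨false,1,⟨2,[(2,1),(13,0),(3,0),(7,1),(2,1)]⟩,⟨0,[(21,0)]⟩⟩,.e ⟨false,0,⟨0,[]⟩,⟨1,
  [(20,0),(0,0),(17,0)]⟩⟩ ⟨false,1,⟨1,[(10,1),(10,1),(15,1),(0,0),(0,0)]⟩,⟨0,[(0,0)]⟩⟩]⟩) (.R ⟨0,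
  false,false,false,[1,0,0,0,-1],[0,1,1],[1,1,1],(⟨0,[(22,0)]⟩,⟨0,[(23,0)]⟩),(⟨0,[(30,0),(2,0)]⟩,⟨0,
  [(18,0)]⟩),⟨0,[(1,0)]⟩,.k,.k,(.r (-1) ⟨1,[(15,0),(20,0),(2,0)]⟩ ⟨15,[(0,3),(4,5),(14,3),(4,1),(1,
  0),(0,6),(2,1),(9,13)]⟩),(.r (-1) ⟨13,[(5,1),(5,8),(3,8),(1,5),(8,2),(4,2),(7,3)]⟩ ⟨0,[(25,0),(2,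
  0),(8,0)]⟩),.k,.k,⟨true,(-1),⟨0,[(8,0)]⟩,⟨1,[(10,1),(17,1),(2,0),(5,1),(1,0)]⟩⟩,⟨false,0,⟨2,[(0,
  1),(5,0),(2,0),(5,1),(1,0)]⟩,⟨2,[(2,1),(13,0),(3,0),(7,4),(2,1)]⟩⟩,⟨true,(-1),⟨0,[(9,0),(15,0),(2,
  0)]⟩,⟨1,[(38,0),(0,0)]⟩⟩,⟨false,0,⟨1,[(0,1),(26,0),(0,0)]⟩,⟨1,[(2,1),(6,1),(5,1),(12,3),(2,0),(7,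
  0)]⟩⟩,⟨false,0,⟨0,[]⟩,⟨0,[]⟩⟩,⟨false,0,⟨0,[]⟩,⟨0,[]⟩⟩,[.e ⟨false,0,⟨0,[(41,0)]⟩,⟨1,[(38,0),(0,
  0)]⟩⟩ ⟨false,0,⟨0,[(0,0)]⟩,⟨2,[(2,1),(8,2),(4,0),(3,0),(7,1),(2,1)]⟩⟩,.o ⟨false,1,⟨1,[(10,1),(20,
  0),(5,1),(1,0)]⟩,⟨3,[(8,1),(2,0),(2,0),(11,0),(1,1),(2,1)]⟩⟩,.o ⟨false,1,⟨2,[(2,1),(13,0),(3,0),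
  (7,1),(2,1)]⟩,⟨0,[(21,0)]⟩⟩,.a ⟨true,0,⟨0,[(2,0),(25,0)]⟩,⟨0,[(0,0),(10,0)]⟩⟩ ⟨false,0,⟨0,[]⟩,⟨1,
  [(20,0),(0,0),(17,0)]⟩⟩ ⟨true,0,⟨0,[(0,0)]⟩,⟨3,[(2,3),(5,1),(2,0),(2,0),(11,0),(1,5),(2,
  1)]⟩⟩]⟩))) (.Q [0,0,1,0,-1,0,2,0,0,1,-2] (.p false [0,0,1] [1,0,-1] (⟨0,[(28,0)]⟩,⟨0,[(27,0)]⟩)
  .k 2 (⟨0,[(27,0)]⟩,⟨0,[(28,0)]⟩) .k (.r (-2) ⟨0,[(8,1),(17,1),(2,0),(6,0)]⟩ ⟨0,[(7,1),(29,0)]⟩))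
  (.Q [0,0,0,0,0,2,0,0,0,0,-1] (.p false [0,0,1] [] (⟨0,[(29,0)]⟩,⟨0,[(28,0)]⟩) .k 0 (⟨0,[]⟩,⟨0,
  []⟩) .k .k) (.R ⟨0,false,false,false,[0,-1,1],[1,0,-1],[0,0,1,0,0,0,0,-1],(⟨0,[(19,0)]⟩,⟨1,[(0,0),
  (28,1),(0,0)]⟩),(⟨0,[(29,0)]⟩,⟨0,[(30,0)]⟩),⟨0,[(0,0)]⟩,.k,.k,(.r (-2) ⟨1,[(2,1),(1,0),(10,1),(4,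
  1),(4,0)]⟩ ⟨0,[(5,0)]⟩),(.r (-2) ⟨1,[(10,1),(4,1),(9,1),(2,3),(2,0),(6,0)]⟩ ⟨11,[(5,9),(3,9),(1,
  3),(3,3),(1,1),(13,0),(7,2)]⟩),.k,.k,⟨true,0,⟨1,[(27,0),(0,0)]⟩,⟨0,[]⟩⟩,⟨false,2,⟨0,[(16,0),(11,
  1),(2,0),(6,0)]⟩,⟨0,[(1,0)]⟩⟩,⟨false,(-1),⟨0,[(5,0),(2,0),(30,0)]⟩,⟨0,[(10,0),(4,0),(0,0),(8,0),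
  (2,1),(2,0)]⟩⟩,⟨true,0,⟨0,[(5,0),(3,0),(5,0),(0,0),(11,1),(2,0)]⟩,⟨1,[(4,0),(5,1),(14,0)]⟩⟩,
  ⟨false,0,⟨0,[]⟩,⟨0,[]⟩⟩,⟨false,0,⟨0,[]⟩,⟨0,[]⟩⟩,[.e ⟨false,0,⟨14,[(5,4),(3,1),(1,4),(3,4),(1,3),
  (8,2),(4,1)]⟩,⟨0,[(10,0),(5,0),(11,0),(2,0)]⟩⟩ ⟨false,1,⟨2,[(5,0),(3,1),(5,1),(0,4),(11,5),(2,
  3)]⟩,⟨0,[(10,0),(16,0)]⟩⟩,.o ⟨false,1,⟨6,[(5,1),(5,3),(4,2),(9,0),(1,1),(2,4),(7,3)]⟩,⟨0,[(25,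
  0)]⟩⟩,.o ⟨false,0,⟨0,[(27,0)]⟩,⟨0,[(16,0),(11,0),(2,0)]⟩⟩,.a ⟨true,(-1),⟨0,[(1,0),(26,0)]⟩,⟨1,
  [(16,1),(11,1),(2,0),(6,0)]⟩⟩ ⟨false,0,⟨0,[(9,0),(29,0)]⟩,⟨1,[(10,1),(17,1),(2,0),(6,0)]⟩⟩ ⟨true,
  1,⟨2,[(5,0),(3,1),(5,1),(0,4),(11,5),(2,3)]⟩,⟨0,[(1,0),(23,0),(2,0)]⟩⟩]⟩) (.Q [0,0,-1,0,0,0,0,0,1,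
  0,0,-1] (.p false [0,0,0,0,1] [] (⟨0,[(23,0)]⟩,⟨0,[(22,0)]⟩) .k 0 (⟨0,[]⟩,⟨0,[]⟩) .k .k) (.Q [0,0,
  0,0,-1,0,0,0,1,1,0,-1] (.p false [0,0,0,0,1] [1] (⟨0,[(24,0)]⟩,⟨0,[(23,0)]⟩) .k 1 (⟨0,[]⟩,⟨0,[]⟩)
  .k .k) (.Q [0,0,1,0,-1,0,0,0,1,0,0,-1] (.p false [0,0,0,0,1] [] (⟨0,[(25,0)]⟩,⟨0,[(24,0)]⟩) .k 0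
  (⟨0,[]⟩,⟨0,[]⟩) .k .k) (.Q [0,0,0,0,0,-1,0,0,0,1,0,-1] (.ed true [0,1,0,0,1] .k) (.S ⟨1,0,[],[1,0,
  0,0,-1],[0,-1],(⟨0,[(26,0)]⟩,⟨0,[(27,0)]⟩),⟨0,[(0,0)]⟩,.k,(.r (-1) ⟨1,[(19,0),(20,0),(2,0)]⟩ ⟨1,
  [(6,0),(2,0),(14,0),(4,0),(15,0)]⟩),⟨false,1,⟨1,[(24,0),(0,0),(17,0)]⟩,⟨0,[]⟩⟩,⟨true,0,⟨0,[(45,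
  0)]⟩,⟨0,[]⟩⟩,⟨true,0,⟨0,[(41,0)]⟩,⟨0,[(40,0)]⟩⟩,⟨false,0,⟨0,[(41,0)]⟩,⟨0,[(40,0),(2,0)]⟩⟩,[.e
  ⟨false,1,⟨1,[(42,0),(0,0)]⟩,⟨0,[(45,0)]⟩⟩ ⟨false,1,⟨1,[(24,0),(0,0),(16,0)]⟩,⟨0,[]⟩⟩,.o ⟨false,2,
  ⟨1,[(24,1),(10,0),(7,0)]⟩,⟨2,[(1,1),(8,0),(7,0),(10,0),(11,0)]⟩⟩,.e ⟨false,1,⟨0,[(43,0)]⟩,⟨0,[(45,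
  0)]⟩⟩ ⟨false,1,⟨1,[(24,0),(0,0),(17,0)]⟩,⟨0,[]⟩⟩,.a ⟨true,1,⟨1,[(24,1),(6,0),(0,0)]⟩,⟨0,[(1,0),
  (18,0)]⟩⟩ ⟨true,1,⟨1,[(42,0),(0,0)]⟩,⟨0,[(13,0),(15,0),(2,0)]⟩⟩ ⟨false,1,⟨1,[(42,0),(0,0)]⟩,⟨1,
  [(31,0),(0,0)]⟩⟩]⟩) (.S ⟨1,0,[0,2],[0,0,0,0,1],[1,1,0,-1],(⟨0,[(27,0)]⟩,⟨0,[(26,0)]⟩),⟨1,[(0,0),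
  (3,0),(17,0),(4,0)]⟩,.k,(.r 0 ⟨0,[(39,0)]⟩ ⟨3,[(6,1),(2,1),(4,1),(9,2),(0,0),(9,0),(7,1)]⟩),
  ⟨false,1,⟨0,[(40,0),(2,0)]⟩,⟨0,[(41,0)]⟩⟩,⟨true,0,⟨0,[(45,0)]⟩,⟨0,[]⟩⟩,⟨true,0,⟨0,[]⟩,⟨0,[(45,
  0)]⟩⟩,⟨false,0,⟨0,[(41,0)]⟩,⟨0,[(40,0),(2,0)]⟩⟩,[.e ⟨false,0,⟨4,[(17,1),(20,0),(1,0)]⟩,⟨1,[(24,0),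
  (0,0),(15,1),(1,0)]⟩⟩ ⟨false,0,⟨0,[(38,0)]⟩,⟨0,[(43,0)]⟩⟩,.o ⟨false,(-1),⟨2,[(1,1),(8,0),(7,0),
  (10,0),(11,0)]⟩,⟨1,[(24,1),(10,0),(7,0)]⟩⟩,.a ⟨true,(-1),⟨0,[(2,0)]⟩,⟨0,[(24,0)]⟩⟩ ⟨true,0,⟨0,
  [(40,0)]⟩,⟨0,[(41,0)]⟩⟩ ⟨false,0,⟨0,[(45,0)]⟩,⟨0,[(43,0)]⟩⟩,.o ⟨false,(-1),⟨0,[(1,0)]⟩,⟨1,[(24,1),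
  (10,0),(6,0)]⟩⟩]⟩)) (.Q [0,1,0,0,-1,0,0,0,1,0,0,-1] (.p false [0,0,0,0,1] [] (⟨0,[(26,0)]⟩,⟨0,
  [(25,0)]⟩) .k 0 (⟨0,[]⟩,⟨0,[]⟩) .k .k) (.Q [0,2,0,0,-2,0,0,0,1,1,0,-1] (.p false [0,0,0,0,1] [1]
  (⟨0,[(27,0)]⟩,⟨0,[(26,0)]⟩) .k 1 (⟨0,[]⟩,⟨0,[]⟩) .k .k) (.Q [0,0,1,0,1,0,0,0,-1,-1,0,1] (.p true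
  [0,0,0,0,1] [1] (⟨0,[(28,0)]⟩,⟨0,[(27,0)]⟩) .k 1 (⟨0,[]⟩,⟨0,[]⟩) .k .k) (.Q [0,0,0,0,0,-1,0,0,0,1,
  0,-1] (.ed true [0,1,0,0,1] .k) (.S ⟨1,0,[0,-1],[1,0,0,0,-1],[],(⟨0,[(29,0)]⟩,⟨0,[(30,0)]⟩),⟨0,
  [(0,0)]⟩,.k,(.r (-1) ⟨1,[(22,0),(20,0),(2,0)]⟩ ⟨1,[(1,0),(7,0),(2,0),(4,0),(23,0)]⟩),⟨true,0,⟨0,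
  [(48,0)]⟩,⟨0,[]⟩⟩,⟨false,1,⟨1,[(27,0),(0,0),(17,0)]⟩,⟨0,[]⟩⟩,⟨false,0,⟨0,[(44,0)]⟩,⟨0,[(43,0),(2,
  0)]⟩⟩,⟨true,0,⟨0,[(44,0)]⟩,⟨0,[(43,0)]⟩⟩,[.o ⟨false,2,⟨1,[(27,1),(10,0),(7,0)]⟩,⟨0,[(3,0)]⟩⟩,.a
  ⟨true,2,⟨0,[(27,0),(18,0)]⟩,⟨0,[(2,0)]⟩⟩ ⟨false,1,⟨1,[(45,0),(0,0)]⟩,⟨0,[(48,0)]⟩⟩ ⟨true,1,⟨0,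
  [(46,0)]⟩,⟨0,[(1,0),(0,0)]⟩⟩,.e ⟨false,1,⟨1,[(27,0),(0,0),(17,0)]⟩,⟨0,[]⟩⟩ ⟨false,1,⟨0,[(46,0)]⟩,
  ⟨0,[(48,0)]⟩⟩,.o ⟨false,1,⟨0,[(1,0)]⟩,⟨0,[(6,0)]⟩⟩]⟩) (.R ⟨0,false,false,true,[1,0,0,0,-1],[0,-1,
  1],[0,1,0,-1,0,0,0,1],(⟨0,[(29,0)]⟩,⟨0,[(30,0)]⟩),(⟨0,[(26,0)]⟩,⟨0,[(36,0),(3,0)]⟩),⟨0,[(0,0)]⟩,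
  .k,.k,(.r (-1) ⟨1,[(22,0),(20,0),(2,0)]⟩ ⟨1,[(1,0),(7,0),(2,0),(4,0),(23,0)]⟩),(.r 0 ⟨13,[(12,9),
  (5,2),(3,2),(1,1),(8,0),(4,0),(7,5)]⟩ ⟨1,[(4,1),(4,1),(1,0),(20,0)]⟩),.k,.k,⟨true,0,⟨1,[(34,0),(0,
  0)]⟩,⟨0,[]⟩⟩,⟨false,(-1),⟨1,[(5,0),(0,0),(1,0)]⟩,⟨1,[(4,2),(4,0),(25,0),(2,0)]⟩⟩,⟨true,0,⟨2,[(11,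
  0),(9,0),(10,1),(2,2),(5,0)]⟩,⟨0,[(12,0),(9,0)]⟩⟩,⟨false,(-1),⟨1,[(3,0),(1,0),(5,0),(5,0)]⟩,⟨1,
  [(4,1),(7,1),(9,1),(12,1),(2,0),(7,0)]⟩⟩,⟨false,0,⟨0,[]⟩,⟨0,[]⟩⟩,⟨false,0,⟨0,[]⟩,⟨0,[]⟩⟩,[.o
  ⟨false,0,⟨0,[(14,0)]⟩,⟨13,[(12,7),(5,1),(4,11),(9,3),(1,7),(2,12),(7,8)]⟩⟩,.e ⟨false,1,⟨0,[(22,0),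
  (9,0),(2,0)]⟩,⟨14,[(12,9),(3,0),(5,4),(1,1),(8,3),(4,0),(6,4)]⟩⟩ ⟨false,0,⟨2,[(5,0),(0,0),(4,0),
  (5,1),(4,0),(5,0)]⟩,⟨2,[(4,2),(7,1),(3,0),(5,0),(0,0),(11,2),(2,1)]⟩⟩,.a ⟨true,1,⟨0,[(27,0)]⟩,⟨0,
  [(5,0)]⟩⟩ ⟨false,1,⟨3,[(4,1),(4,1),(1,1),(5,1),(17,1),(2,0),(7,0)]⟩,⟨0,[(12,0),(9,0)]⟩⟩ ⟨true,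
  (-1),⟨1,[(3,0),(1,0),(5,0),(5,0)]⟩,⟨2,[(4,2),(7,1),(3,0),(5,0),(0,0),(11,2),(2,1)]⟩⟩,.o ⟨false,1,
  ⟨0,[(1,0)]⟩,⟨0,[(6,0)]⟩⟩]⟩)) (.Q [0,0,0,0,0,-1,0,0,0,1,0,-1] (.ed true [0,1,0,0,1] .k) (.S ⟨1,0,
  [],[1,0,0,0,-1],[0,-1],(⟨0,[(29,0)]⟩,⟨0,[(30,0)]⟩),⟨0,[(0,0)]⟩,.k,(.r (-1) ⟨1,[(22,0),(20,0),(2,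
  0)]⟩ ⟨1,[(9,0),(2,0),(14,0),(4,0),(15,0)]⟩),⟨false,1,⟨1,[(27,0),(0,0),(17,0)]⟩,⟨0,[]⟩⟩,⟨true,0,⟨0,
  [(48,0)]⟩,⟨0,[]⟩⟩,⟨true,0,⟨0,[(44,0)]⟩,⟨0,[(43,0)]⟩⟩,⟨false,0,⟨0,[(44,0)]⟩,⟨0,[(43,0),(2,0)]⟩⟩,
  [.e ⟨false,1,⟨1,[(45,0),(0,0)]⟩,⟨0,[(48,0)]⟩⟩ ⟨false,1,⟨1,[(27,0),(0,0),(16,0)]⟩,⟨0,[]⟩⟩,.o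
  ⟨false,2,⟨1,[(27,1),(10,0),(7,0)]⟩,⟨0,[(3,0)]⟩⟩,.e ⟨false,1,⟨0,[(46,0)]⟩,⟨0,[(48,0)]⟩⟩ ⟨false,1,
  ⟨1,[(27,0),(0,0),(17,0)]⟩,⟨0,[]⟩⟩,.a ⟨true,1,⟨1,[(27,1),(6,0),(0,0)]⟩,⟨0,[(1,0)]⟩⟩ ⟨true,1,⟨1,
  [(45,0),(0,0)]⟩,⟨0,[(16,0),(15,0),(2,0)]⟩⟩ ⟨false,1,⟨1,[(45,0),(0,0)]⟩,⟨1,[(34,0),(0,0)]⟩⟩]⟩) (.R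
  ⟨0,false,false,true,[1,0,0,0,-1],[0,1],[1,1],(⟨0,[(29,0)]⟩,⟨0,[(30,0)]⟩),(⟨0,[(40,0)]⟩,⟨0,[(39,
  0)]⟩),⟨0,[(0,0)]⟩,.k,.k,(.r (-1) ⟨1,[(22,0),(20,0),(2,0)]⟩ ⟨1,[(9,0),(2,0),(14,0),(4,0),(15,0)]⟩),
  (.r (-1) ⟨1,[(22,0),(20,0),(2,0)]⟩ ⟨1,[(9,0),(2,0),(14,0),(4,0),(15,0)]⟩),.k,.k,⟨false,1,⟨1,[(22,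
  0),(20,0),(1,0)]⟩,⟨4,[(9,0),(2,1),(4,1),(9,0),(7,0),(2,0),(5,0)]⟩⟩,⟨true,(-1),⟨0,[(1,0)]⟩,⟨0,[(4,
  0),(3,0),(26,1),(2,0)]⟩⟩,⟨false,0,⟨0,[(48,0)]⟩,⟨0,[(46,0)]⟩⟩,⟨true,(-2),⟨0,[(2,0),(41,0)]⟩,⟨5,[(4,
  1),(6,1),(3,1),(11,3),(7,1),(2,2),(7,4)]⟩⟩,⟨false,0,⟨0,[]⟩,⟨0,[]⟩⟩,⟨false,0,⟨0,[]⟩,⟨0,[]⟩⟩,[.e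
  ⟨false,0,⟨2,[(21,0),(19,0),(2,0)]⟩,⟨1,[(27,0),(0,0),(17,0)]⟩⟩ ⟨false,(-1),⟨1,[(2,0),(20,0),(4,0),
  (15,1)]⟩,⟨5,[(4,1),(6,1),(3,1),(11,3),(7,1),(2,2),(7,4)]⟩⟩,.o ⟨false,0,⟨0,[(44,0)]⟩,⟨1,[(38,0),(4,
  1),(2,0)]⟩⟩,.e ⟨false,0,⟨0,[]⟩,⟨1,[(27,0),(0,0),(17,0)]⟩⟩ ⟨false,(-1),⟨2,[(1,1),(7,0),(2,0),(4,0),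
  (26,0)]⟩,⟨5,[(4,1),(6,1),(3,1),(11,3),(7,1),(2,2),(7,4)]⟩⟩,.a ⟨true,1,⟨1,[(27,1),(6,0),(0,0)]⟩,⟨0,
  [(1,0)]⟩⟩ ⟨true,0,⟨2,[(21,0),(19,0),(2,0)]⟩,⟨1,[(34,0),(0,0)]⟩⟩ ⟨false,(-1),⟨0,[(1,0),(42,0)]⟩,⟨2,
  [(8,0),(2,0),(6,0),(8,2),(7,1),(2,1),(7,1)]⟩⟩]⟩))) (.R ⟨1,false,false,false,[1,0,-1],[1,0,0,0,-1],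
  [1,0,0,-1,0,0,0,-1],(⟨0,[(34,0)]⟩,⟨0,[(35,0)]⟩),(⟨0,[(27,0)]⟩,⟨0,[(28,0)]⟩),⟨0,[(23,0)]⟩,.k,.k,.k,
  .k,(.r 0 ⟨19,[(13,7),(4,1),(0,2),(0,4),(1,5),(8,11),(4,2)]⟩ ⟨1,[(15,1),(17,1),(2,0),(5,1),(1,
  0)]⟩),.k,⟨true,(-1),⟨0,[(13,0)]⟩,⟨1,[(15,1),(17,1),(2,0),(5,1),(1,0)]⟩⟩,⟨false,1,⟨5,[(2,5),(3,1),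
  (14,0),(0,0),(13,1)]⟩,⟨0,[(7,0)]⟩⟩,⟨false,1,⟨0,[(41,0),(2,0)]⟩,⟨0,[(42,0)]⟩⟩,⟨false,2,⟨0,[(0,0),
  (14,0)]⟩,⟨0,[(11,0)]⟩⟩,⟨true,0,⟨0,[]⟩,⟨0,[(46,0)]⟩⟩,⟨false,2,⟨0,[(0,0),(14,0),(26,0)]⟩,⟨0,[(1,0),
  (14,0)]⟩⟩,[.o ⟨false,2,⟨3,[(0,1),(24,2),(0,0),(9,0)]⟩,⟨0,[(1,0)]⟩⟩,.o ⟨false,2,⟨0,[(0,0)]⟩,⟨0,[(1,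
  0),(44,0)]⟩⟩,.o ⟨false,1,⟨1,[(2,0),(4,0),(25,0),(2,0)]⟩,⟨0,[(17,0)]⟩⟩,.a ⟨true,0,⟨0,[(33,0)]⟩,⟨0,
  [(29,0)]⟩⟩ ⟨true,0,⟨11,[(13,1),(0,5),(1,3),(3,5),(1,1),(13,0),(7,0)]⟩,⟨0,[(30,0),(2,0),(8,0)]⟩⟩
  ⟨false,2,⟨1,[(0,1),(20,0),(0,0)]⟩,⟨0,[(1,0),(31,0)]⟩⟩]⟩)) (.R ⟨1,false,false,false,[0,-1,1],[0,0,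
  0,0,1],[1,0,-1,-2,0,0,0,1],(⟨0,[(23,0)]⟩,⟨0,[(33,0),(3,0)]⟩),(⟨0,[(27,0)]⟩,⟨0,[(26,0)]⟩),⟨0,[(4,
  0)]⟩,.k,.k,(.r (-2) ⟨0,[(0,0),(5,0),(1,0),(33,0)]⟩ ⟨0,[(9,0)]⟩),(.r (-2) ⟨3,[(0,3),(5,3),(1,1),(5,
  1),(20,0),(6,1),(0,0)]⟩ ⟨4,[(9,2),(3,1),(24,0),(1,0)]⟩),(.r (-2) ⟨1,[(0,1),(5,1),(1,0),(10,1),(9,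
  0)]⟩ ⟨0,[(9,0),(35,0)]⟩),.k,⟨false,2,⟨1,[(0,1),(5,1),(1,0),(10,1),(9,0)]⟩,⟨2,[(9,1),(3,0),(24,0),
  (2,1)]⟩⟩,⟨true,0,⟨0,[(2,0),(17,0),(11,0),(2,0)]⟩,⟨0,[(0,0),(7,0),(0,0)]⟩⟩,⟨false,1,⟨0,[(40,0),(2,
  0)]⟩,⟨0,[(41,0)]⟩⟩,⟨true,(-1),⟨0,[(10,0),(30,0)]⟩,⟨1,[(0,1),(7,0),(20,0)]⟩⟩,⟨true,0,⟨0,[]⟩,⟨0,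
  [(45,0)]⟩⟩,⟨true,(-1),⟨0,[(10,0),(30,1)]⟩,⟨0,[(0,0),(7,0)]⟩⟩,[.a ⟨true,(-1),⟨0,[(10,0),(3,0)]⟩,⟨0,
  [(0,0)]⟩⟩ ⟨true,1,⟨1,[(8,0),(10,1),(9,0),(2,1)]⟩,⟨0,[(9,0)]⟩⟩ ⟨false,0,⟨0,[(6,0),(11,0),(22,0)]⟩,
  ⟨0,[(0,0),(30,0)]⟩⟩,.a ⟨true,(-1),⟨0,[(2,0)]⟩,⟨0,[(24,0)]⟩⟩ ⟨false,2,⟨1,[(0,1),(5,1),(1,0),(10,1),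
  (9,0)]⟩,⟨2,[(9,1),(3,0),(24,0),(2,1)]⟩⟩ ⟨true,0,⟨0,[(2,0),(17,0),(11,0),(2,0)]⟩,⟨0,[(0,0),(7,0),
  (0,0)]⟩⟩,.o ⟨false,0,⟨0,[(31,0)]⟩,⟨0,[(20,0),(11,0),(2,0)]⟩⟩,.a ⟨true,(-1),⟨0,[(5,0),(26,0)]⟩,⟨1,
  [(1,0),(4,0),(13,1),(11,0),(2,0)]⟩⟩ ⟨false,2,⟨1,[(0,1),(5,1),(1,0),(10,1),(9,0)]⟩,⟨0,[(9,0)]⟩⟩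
  ⟨true,0,⟨0,[(6,0),(11,0),(22,0)]⟩,⟨0,[(0,0),(7,0),(0,0)]⟩⟩]⟩))) (.I [0,0,2,0,1,-2,1,0,-2] (.I [0,
  0,-2,0,0,2,-1,0,2] (.Q [0,0,0,0,0,-1,0,0,0,1,0,-1] (.ed true [0,1,0,0,1] .k) (.Q [0,-1,0,0,1,0,-1,
  -1,-1,-1,1,1] (.p true [0,0,1] [1,0,0,0,-1] (⟨0,[(35,0)]⟩,⟨0,[(34,0)]⟩) .k 2 (⟨0,[(27,0)]⟩,⟨0,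
  [(28,0)]⟩) .k (.r (-1) ⟨0,[(7,0),(17,0),(4,0)]⟩ ⟨0,[(14,0),(29,0)]⟩)) (.S ⟨1,0,[],[1,0,0,0,-1],[0,
  -1],(⟨0,[(28,0)]⟩,⟨0,[(29,0)]⟩),⟨0,[(1,0)]⟩,.k,(.r (-1) ⟨1,[(21,0),(20,0),(2,0)]⟩ ⟨1,[(8,0),(2,0),
  (14,0),(4,0),(15,0)]⟩),⟨false,1,⟨1,[(2,0),(0,0),(41,0)]⟩,⟨0,[]⟩⟩,⟨true,0,⟨0,[(47,0)]⟩,⟨0,[]⟩⟩,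
  ⟨true,0,⟨0,[(43,0)]⟩,⟨0,[(42,0)]⟩⟩,⟨false,0,⟨0,[(43,0)]⟩,⟨0,[(42,0),(2,0)]⟩⟩,[.o ⟨false,1,⟨0,[(4,
  0)]⟩,⟨0,[(27,0)]⟩⟩,.a ⟨true,1,⟨0,[(0,0),(15,0)]⟩,⟨0,[(12,0),(3,0)]⟩⟩ ⟨true,1,⟨0,[(45,0)]⟩,⟨0,[(15,
  0),(15,0),(2,0)]⟩⟩ ⟨false,1,⟨1,[(44,0),(0,0)]⟩,⟨0,[(47,0)]⟩⟩,.o ⟨false,1,⟨0,[(4,0)]⟩,⟨0,[(27,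
  0)]⟩⟩,.o ⟨false,1,⟨1,[(4,1),(28,0),(0,0)]⟩,⟨0,[(5,0)]⟩⟩]⟩) (.R ⟨1,false,false,true,[1,0,0,0,-1],
  [0,0,1],[0,-1],(⟨0,[(28,0)]⟩,⟨0,[(29,0)]⟩),(⟨0,[(36,0)]⟩,⟨0,[(35,0)]⟩),⟨0,[(1,0)]⟩,.k,.k,(.r (-1)
  ⟨1,[(21,0),(20,0),(2,0)]⟩ ⟨1,[(8,0),(2,0),(14,0),(4,0),(15,0)]⟩),.k,(.r (-1) ⟨13,[(11,1),(5,8),(3,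
  8),(1,5),(8,2),(4,2),(7,3)]⟩ ⟨0,[(31,0),(2,0),(8,0)]⟩),.k,⟨false,1,⟨13,[(11,9),(5,2),(3,16),(1,1),
  (8,0),(4,0),(7,5)]⟩,⟨2,[(20,0),(10,2),(2,2),(5,0),(2,0)]⟩⟩,⟨true,(-1),⟨0,[(0,0),(14,0),(29,0)]⟩,
  ⟨0,[(4,0),(29,0)]⟩⟩,⟨false,1,⟨1,[(2,0),(0,0),(41,0)]⟩,⟨0,[]⟩⟩,⟨false,(-1),⟨0,[(0,0)]⟩,⟨13,[(4,13),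
  (6,3),(5,7),(4,5),(9,1),(1,3),(2,2),(7,14)]⟩⟩,⟨true,0,⟨0,[(43,0)]⟩,⟨0,[(42,0)]⟩⟩,⟨false,(-1),⟨0,
  [(0,0),(42,0)]⟩,⟨0,[(4,0),(12,0),(27,0)]⟩⟩,[.o ⟨false,0,⟨0,[(31,0)]⟩,⟨6,[(11,1),(5,3),(4,2),(9,0),
  (1,1),(2,4),(7,3)]⟩⟩,.a ⟨true,0,⟨0,[(16,0)]⟩,⟨13,[(11,3),(5,7),(4,5),(9,1),(1,3),(2,2),(7,0)]⟩⟩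
  ⟨true,1,⟨0,[(45,0)]⟩,⟨0,[(15,0),(15,0),(2,0)]⟩⟩ ⟨false,0,⟨1,[(0,1),(43,0),(0,0)]⟩,⟨13,[(4,13),(6,
  3),(5,7),(4,5),(9,1),(1,3),(2,2),(7,0)]⟩⟩,.o ⟨false,1,⟨0,[(4,0)]⟩,⟨0,[(27,0)]⟩⟩,.o ⟨false,1,⟨1,
  [(4,1),(28,0),(0,0)]⟩,⟨0,[(5,0)]⟩⟩]⟩)) (.Q [0,0,1,0,-1,0,0,0,1,1,0,-1] (.p false [0,0,0,0,1] [1]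
  (⟨0,[(28,0)]⟩,⟨0,[(27,0)]⟩) .k 1 (⟨0,[]⟩,⟨0,[]⟩) .k .k) (.S ⟨1,0,[0,1],[0,0,0,0,1],[0,2],(⟨0,[(29,
  0)]⟩,⟨0,[(28,0)]⟩),⟨1,[(1,0),(4,0),(17,0),(4,0)]⟩,.k,(.r 0 ⟨0,[(41,0)]⟩ ⟨3,[(2,0),(0,0),(4,1),(2,
  1),(4,1),(9,1),(10,0),(7,1)]⟩),⟨true,0,⟨0,[(47,0)]⟩,⟨0,[]⟩⟩,⟨false,1,⟨1,[(2,0),(0,0),(41,0)]⟩,⟨0,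
  []⟩⟩,⟨false,0,⟨0,[(43,0)]⟩,⟨0,[(42,0),(2,0)]⟩⟩,⟨true,0,⟨0,[(43,0)]⟩,⟨0,[(42,0)]⟩⟩,[.e ⟨false,0,⟨0,
  [(40,0)]⟩,⟨0,[(45,0)]⟩⟩ ⟨false,0,⟨2,[(20,0),(19,0),(2,0)]⟩,⟨1,[(2,0),(0,0),(41,0)]⟩⟩,.o ⟨false,0,
  ⟨0,[(27,0)]⟩,⟨0,[(4,0)]⟩⟩,.o ⟨false,0,⟨0,[(27,0)]⟩,⟨0,[(4,0)]⟩⟩,.a ⟨true,(-1),⟨0,[(0,0)]⟩,⟨1,[(4,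
  0),(17,0),(3,0)]⟩⟩ ⟨false,0,⟨2,[(20,0),(19,0),(2,0)]⟩,⟨1,[(33,0),(0,0),(10,1)]⟩⟩ ⟨true,0,⟨2,[(20,
  0),(19,0),(2,0)]⟩,⟨1,[(33,0),(0,0)]⟩⟩]⟩) (.R ⟨0,false,false,false,[1,0,0,0,-1],[1,0,-1],[1],(⟨0,
  [(28,0)]⟩,⟨0,[(29,0)]⟩),(⟨0,[(35,0)]⟩,⟨0,[(36,0)]⟩),⟨0,[(1,0)]⟩,.k,.k,(.r (-1) ⟨1,[(21,0),(20,0),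
  (2,0)]⟩ ⟨1,[(8,0),(2,0),(14,0),(4,0),(15,0)]⟩),.k,.k,.k,⟨false,1,⟨0,[(0,0),(7,0),(7,0)]⟩,⟨14,[(11,
  4),(3,1),(1,4),(3,4),(1,3),(8,2),(4,1)]⟩⟩,⟨true,0,⟨0,[(8,0)]⟩,⟨0,[(0,0),(6,0),(26,0)]⟩⟩,⟨false,0,
  ⟨0,[]⟩,⟨1,[(2,0),(0,0),(41,0)]⟩⟩,⟨true,(-1),⟨0,[(12,0)]⟩,⟨0,[(4,0),(11,0)]⟩⟩,⟨false,0,⟨0,[]⟩,⟨0,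
  []⟩⟩,⟨false,0,⟨0,[]⟩,⟨0,[]⟩⟩,[.a ⟨true,0,⟨13,[(0,2),(7,2),(2,3),(5,7),(4,2),(9,1),(1,0),(10,0)]⟩,
  ⟨0,[(16,0)]⟩⟩ ⟨true,0,⟨0,[]⟩,⟨1,[(33,0),(0,0)]⟩⟩ ⟨false,0,⟨1,[(12,1),(31,0),(0,0)]⟩,⟨0,[(4,0),(11,
  0)]⟩⟩,.o ⟨false,1,⟨9,[(0,3),(7,1),(2,1),(0,1),(4,3),(14,1),(4,2),(7,6)]⟩,⟨0,[(31,0)]⟩⟩,.o ⟨false,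
  1,⟨0,[(4,0)]⟩,⟨0,[(27,0)]⟩⟩,.o ⟨false,1,⟨11,[(1,7),(1,3),(5,1),(16,3),(6,0),(0,0),(2,1),(1,1)]⟩,
  ⟨0,[(5,0)]⟩⟩]⟩))) (.Q [0,-1,0,0,1,0,0,0,-1,0,0,1] (.p true [0,0,0,0,1] [] (⟨0,[(27,0)]⟩,⟨0,[(26,
  0)]⟩) .k 0 (⟨0,[]⟩,⟨0,[]⟩) .k .k) (.S ⟨1,0,[],[1,0,0,0,-1],[0,-1],(⟨0,[(27,0)]⟩,⟨0,[(28,0)]⟩),⟨8,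
  [(1,1),(2,1),(0,0),(1,1),(13,0),(1,2),(3,4)]⟩,.k,(.r (-1) ⟨1,[(20,0),(20,0),(2,0)]⟩ ⟨1,[(7,0),(2,
  0),(14,0),(4,0),(15,0)]⟩),⟨false,1,⟨1,[(25,0),(0,0),(17,0)]⟩,⟨0,[]⟩⟩,⟨true,0,⟨0,[(46,0)]⟩,⟨0,[]⟩⟩,
  ⟨true,0,⟨0,[(42,0)]⟩,⟨0,[(41,0)]⟩⟩,⟨false,0,⟨0,[(42,0)]⟩,⟨0,[(41,0),(2,0)]⟩⟩,[.o ⟨false,1,⟨0,[(3,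
  0)]⟩,⟨0,[(26,0)]⟩⟩,.a ⟨true,1,⟨0,[(0,0)]⟩,⟨0,[(11,0),(3,0)]⟩⟩ ⟨true,1,⟨0,[(44,0)]⟩,⟨0,[(14,0),(15,
  0),(2,0)]⟩⟩ ⟨false,1,⟨1,[(43,0),(0,0)]⟩,⟨0,[(46,0)]⟩⟩,.o ⟨false,1,⟨0,[(3,0)]⟩,⟨0,[(26,0)]⟩⟩,.o
  ⟨false,1,⟨1,[(3,1),(28,0),(0,0)]⟩,⟨0,[(4,0)]⟩⟩]⟩) (.R ⟨1,false,false,true,[1,0,-1],[1,0,0,0,-1],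
  [1,1,0,-1,0,0,0,-1],(⟨0,[(34,0)]⟩,⟨0,[(35,0)]⟩),(⟨0,[(27,0)]⟩,⟨0,[(28,0)]⟩),⟨0,[(23,0)]⟩,.k,.k,.k,
  .k,(.r 0 ⟨19,[(13,7),(4,1),(0,2),(0,4),(1,5),(8,11),(4,2)]⟩ ⟨1,[(15,1),(17,1),(2,0),(5,1),(1,
  0)]⟩),.k,⟨true,(-1),⟨0,[(13,0)]⟩,⟨1,[(15,1),(17,1),(2,0),(5,1),(1,0)]⟩⟩,⟨false,1,⟨1,[(3,1),(17,0),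
  (0,0)]⟩,⟨0,[(7,0)]⟩⟩,⟨true,0,⟨0,[(41,0)]⟩,⟨0,[(42,0)]⟩⟩,⟨true,1,⟨0,[(3,0),(11,0)]⟩,⟨0,[(11,0)]⟩⟩,
  ⟨false,0,⟨0,[]⟩,⟨1,[(25,0),(0,0),(17,0)]⟩⟩,⟨true,1,⟨0,[(3,0),(11,0),(26,0)]⟩,⟨0,[(0,0),(15,0)]⟩⟩,
  [.o ⟨false,1,⟨0,[(3,0)]⟩,⟨0,[(26,0)]⟩⟩,.o ⟨false,2,⟨1,[(25,1),(10,0),(7,0)]⟩,⟨0,[(0,0)]⟩⟩,.o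
  ⟨false,1,⟨0,[(3,0),(3,0)]⟩,⟨0,[(17,0)]⟩⟩,.a ⟨true,0,⟨0,[(33,0)]⟩,⟨0,[(29,0)]⟩⟩ ⟨false,0,⟨11,[(13,
  1),(0,5),(1,3),(3,5),(1,1),(13,0),(7,0)]⟩,⟨1,[(15,1),(17,1),(2,0),(5,1),(1,0)]⟩⟩ ⟨true,1,⟨1,[(3,
  1),(17,0),(0,0)]⟩,⟨0,[(0,0),(32,0)]⟩⟩]⟩))) (.Q [0,0,1,0,-1,0,0,0,1,1,0,-1] (.p false [0,0,0,0,1]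
  [1] (⟨0,[(26,0)]⟩,⟨0,[(25,0)]⟩) .k 1 (⟨0,[]⟩,⟨0,[]⟩) .k .k) (.S ⟨1,0,[0,1],[0,0,0,0,1],[0,2],(⟨0,
  [(27,0)]⟩,⟨0,[(26,0)]⟩),⟨2,[(1,0),(0,1),(1,1),(0,0),(16,0),(4,0),(4,0)]⟩,.k,(.r 0 ⟨0,[(39,0)]⟩ ⟨3,
  [(6,1),(2,1),(4,1),(9,2),(0,0),(9,0),(7,1)]⟩),⟨true,0,⟨0,[(45,0)]⟩,⟨0,[]⟩⟩,⟨false,1,⟨1,[(24,0),(0,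
  0),(17,0)]⟩,⟨0,[]⟩⟩,⟨false,0,⟨0,[(41,0)]⟩,⟨0,[(40,0),(2,0)]⟩⟩,⟨true,0,⟨0,[(41,0)]⟩,⟨0,[(40,0)]⟩⟩,
  [.e ⟨false,0,⟨0,[(38,0)]⟩,⟨0,[(43,0)]⟩⟩ ⟨false,0,⟨2,[(18,0),(19,0),(2,0)]⟩,⟨1,[(24,0),(0,0),(17,
  0)]⟩⟩,.o ⟨false,0,⟨0,[(25,0)]⟩,⟨0,[(2,0)]⟩⟩,.o ⟨false,0,⟨0,[(25,0)]⟩,⟨0,[(2,0)]⟩⟩,.a ⟨true,(-1),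
  ⟨0,[(0,0)]⟩,⟨1,[(2,0),(17,0),(3,0)]⟩⟩ ⟨false,0,⟨2,[(18,0),(19,0),(2,0)]⟩,⟨1,[(31,0),(0,0),(10,
  1)]⟩⟩ ⟨true,0,⟨2,[(18,0),(19,0),(2,0)]⟩,⟨1,[(31,0),(0,0)]⟩⟩]⟩) (.Q [0,0,0,0,0,1,0,0,0,-1,0,1]
  (.ed false [0,1,0,0,1] .k) (.R ⟨0,false,false,false,[1,0,0,0,-1],[1,0,-1],[1],(⟨0,[(27,0)]⟩,⟨0,
  [(28,0)]⟩),(⟨0,[(34,0)]⟩,⟨0,[(35,0)]⟩),⟨0,[(0,0)]⟩,.k,.k,(.r (-1) ⟨1,[(20,0),(20,0),(2,0)]⟩ ⟨1,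
  [(7,0),(2,0),(14,0),(4,0),(15,0)]⟩),.k,.k,.k,⟨false,1,⟨0,[(1,0),(5,0),(7,0)]⟩,⟨14,[(10,4),(3,1),
  (1,4),(3,4),(1,3),(8,2),(4,1)]⟩⟩,⟨true,0,⟨0,[(7,0)]⟩,⟨0,[(1,0),(4,0),(26,0)]⟩⟩,⟨false,0,⟨0,[]⟩,⟨1,
  [(25,0),(0,0),(17,0)]⟩⟩,⟨true,(-1),⟨0,[(11,0)]⟩,⟨0,[(3,0),(11,0)]⟩⟩,⟨false,0,⟨0,[]⟩,⟨0,[]⟩⟩,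
  ⟨false,0,⟨0,[]⟩,⟨0,[]⟩⟩,[.a ⟨true,0,⟨13,[(1,2),(5,2),(2,3),(5,7),(4,2),(9,1),(1,0),(10,0)]⟩,⟨0,
  [(15,0)]⟩⟩ ⟨true,0,⟨0,[]⟩,⟨1,[(32,0),(0,0)]⟩⟩ ⟨false,0,⟨1,[(11,1),(31,0),(0,0)]⟩,⟨0,[(3,0),(11,
  0)]⟩⟩,.o ⟨false,1,⟨9,[(1,3),(5,1),(2,1),(0,1),(4,3),(14,1),(4,2),(7,6)]⟩,⟨0,[(30,0)]⟩⟩,.o ⟨false,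
  1,⟨0,[(3,0)]⟩,⟨0,[(26,0)]⟩⟩,.o ⟨false,1,⟨1,[(3,1),(28,0),(0,0)]⟩,⟨0,[(4,0)]⟩⟩]⟩) (.S ⟨1,0,[],[1,0,
  0,0,-1],[0,-1],(⟨0,[(27,0)]⟩,⟨0,[(28,0)]⟩),⟨0,[(0,0)]⟩,.k,(.r (-1) ⟨1,[(20,0),(20,0),(2,0)]⟩ ⟨1,
  [(7,0),(2,0),(14,0),(4,0),(15,0)]⟩),⟨false,1,⟨1,[(25,0),(0,0),(17,0)]⟩,⟨0,[]⟩⟩,⟨true,0,⟨0,[(46,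
  0)]⟩,⟨0,[]⟩⟩,⟨true,0,⟨0,[(42,0)]⟩,⟨0,[(41,0)]⟩⟩,⟨false,0,⟨0,[(42,0)]⟩,⟨0,[(41,0),(2,0)]⟩⟩,[.o
  ⟨false,1,⟨0,[(3,0)]⟩,⟨0,[(26,0)]⟩⟩,.a ⟨true,1,⟨5,[(1,4),(4,2),(14,1),(3,0),(7,5),(10,2)]⟩,⟨0,[(11,
  0),(3,0)]⟩⟩ ⟨true,1,⟨0,[(44,0)]⟩,⟨0,[(14,0),(15,0),(2,0)]⟩⟩ ⟨false,1,⟨1,[(43,0),(0,0)]⟩,⟨0,[(46,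
  0)]⟩⟩,.o ⟨false,1,⟨0,[(3,0)]⟩,⟨0,[(26,0)]⟩⟩,.o ⟨false,1,⟨1,[(3,1),(28,0),(0,0)]⟩,⟨0,[(4,
  0)]⟩⟩]⟩))))) (.K ⟨0,[0,0,0,0,1],0,(-1),(⟨0,[(24,0)]⟩,⟨0,[(23,0)]⟩),.k,(.r 0 ⟨0,[(36,0)]⟩ ⟨3,[(3,
  1),(2,1),(4,1),(9,2),(0,0),(9,0),(7,1)]⟩),(.r 0 ⟨1,[(3,0),(2,0),(14,0),(4,0),(15,0)]⟩ ⟨1,[(16,0),
  (20,0),(2,0)]⟩),.k,.k,[⟨0,[(3,0)]⟩,⟨0,[(0,0)]⟩,⟨0,[(21,0)]⟩,⟨0,[(7,0),(18,0)]⟩]⟩))) (.Q [0,0,2,0,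
  -1,0,1,0,0,1,-1] (.p false [0,0,1] [1] (⟨0,[(29,0)]⟩,⟨0,[(28,0)]⟩) .k 1 (⟨0,[]⟩,⟨0,[]⟩) .k .k)
  (.K ⟨0,[1,1,-1],1,0,(⟨0,[(29,0),(3,0)]⟩,⟨0,[(19,0)]⟩),.k,.k,(.r 1 ⟨0,[(5,0)]⟩ ⟨11,[(1,1),(0,7),(1,
  9),(5,1),(4,3),(4,7),(17,6),(0,2)]⟩),(.r 1 ⟨11,[(5,9),(3,9),(1,3),(3,3),(1,1),(13,0),(7,2)]⟩ ⟨3,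
  [(1,3),(2,1),(5,5),(9,1),(0,1),(9,0),(7,0)]⟩),.k,[⟨0,[(1,0)]⟩,⟨0,[(0,0)]⟩,⟨0,[(10,0),(25,0)]⟩,⟨31,
  [(1,13),(3,15),(3,11),(16,3),(4,8),(2,7),(3,4)]⟩]⟩) (.Q [0,0,0,0,0,2,0,0,0,0,-1] (.p false [0,0,
  1] [] (⟨0,[(30,0)]⟩,⟨0,[(29,0)]⟩) .k 0 (⟨0,[]⟩,⟨0,[]⟩) .k .k) (.R ⟨0,false,false,false,[0,-1,1],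
  [1,0,-1],[1,0,-1,-2,0,0,0,1],(⟨0,[(20,0)]⟩,⟨0,[(0,0),(32,0)]⟩),(⟨0,[(30,0)]⟩,⟨0,[(31,0)]⟩),⟨0,[(0,
  0)]⟩,.k,.k,(.r (-2) ⟨11,[(2,1),(0,7),(1,9),(5,1),(4,3),(4,7),(17,6),(0,2)]⟩ ⟨0,[(6,0)]⟩),(.r (-2)
  ⟨3,[(2,3),(2,1),(5,5),(9,1),(0,1),(9,0),(7,0)]⟩ ⟨11,[(6,9),(3,9),(1,3),(3,3),(1,1),(13,0),(7,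
  2)]⟩),.k,.k,⟨false,2,⟨1,[(2,1),(2,1),(5,1),(27,0),(0,0)]⟩,⟨29,[(6,39),(3,15),(5,19),(1,1),(8,3),
  (4,0),(6,4)]⟩⟩,⟨true,1,⟨0,[(2,0)]⟩,⟨2,[(5,1),(0,2),(2,1),(1,2),(1,0),(26,1)]⟩⟩,⟨false,1,⟨0,[(37,
  0),(2,0)]⟩,⟨0,[(38,0)]⟩⟩,⟨true,0,⟨0,[(1,0),(4,0),(5,0)]⟩,⟨1,[(5,0),(5,1),(14,0)]⟩⟩,⟨false,0,⟨0,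
  []⟩,⟨0,[]⟩⟩,⟨false,0,⟨0,[]⟩,⟨0,[]⟩⟩,[.a ⟨true,0,⟨18,[(1,0),(0,1),(3,4),(5,9),(4,2),(9,3),(12,1)]⟩,
  ⟨0,[(11,0)]⟩⟩ ⟨true,1,⟨3,[(2,1),(2,2),(5,1),(0,0),(3,0),(23,0)]⟩,⟨0,[(6,0)]⟩⟩ ⟨false,1,⟨18,[(1,
  19),(0,1),(3,4),(5,9),(4,2),(9,3),(12,1)]⟩,⟨0,[(11,0),(16,0)]⟩⟩,.o ⟨false,1,⟨7,[(1,1),(4,1),(5,3),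
  (14,1),(4,2),(7,4)]⟩,⟨0,[(26,0)]⟩⟩,.o ⟨false,0,⟨0,[(28,0)]⟩,⟨3,[(2,1),(29,0),(6,0)]⟩⟩,.o ⟨false,0,
  ⟨1,[(28,2),(0,0)]⟩,⟨0,[(1,0)]⟩⟩]⟩) (.R ⟨1,false,false,false,[0,-1,1],[1,0,-1],[1,0,-1,-2,0,0,0,1],
  (⟨0,[(20,0)]⟩,⟨0,[(30,0),(3,0)]⟩),(⟨0,[(30,0)]⟩,⟨0,[(31,0)]⟩),⟨0,[(0,0)]⟩,.k,.k,(.r (-2) ⟨11,[(2,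
  1),(0,7),(1,9),(5,1),(4,3),(4,7),(17,6),(0,2)]⟩ ⟨0,[(6,0)]⟩),(.r (-2) ⟨3,[(2,3),(2,1),(5,5),(9,1),
  (0,1),(9,0),(7,0)]⟩ ⟨11,[(6,9),(3,9),(1,3),(3,3),(1,1),(13,0),(7,2)]⟩),(.r (-2) ⟨1,[(2,1),(2,1),
  (5,1),(27,0),(0,0)]⟩ ⟨14,[(6,19),(3,1),(1,4),(3,4),(1,3),(8,2),(4,1)]⟩),.k,⟨false,2,⟨1,[(2,1),(2,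
  1),(5,1),(27,0),(0,0)]⟩,⟨29,[(6,39),(3,15),(5,19),(1,1),(8,3),(4,0),(6,4)]⟩⟩,⟨true,1,⟨0,[(2,0)]⟩,
  ⟨2,[(5,1),(0,2),(2,1),(1,2),(1,0),(26,1)]⟩⟩,⟨false,1,⟨0,[(37,0),(2,0)]⟩,⟨0,[(38,0)]⟩⟩,⟨true,0,⟨0,
  [(1,0),(4,0),(5,0)]⟩,⟨1,[(5,0),(5,1),(14,0)]⟩⟩,⟨true,0,⟨0,[]⟩,⟨0,[(42,0)]⟩⟩,⟨true,0,⟨18,[(1,19),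
  (0,1),(3,23),(5,9),(4,2),(9,3),(12,1)]⟩,⟨0,[(5,0),(5,0)]⟩⟩,[.a ⟨true,0,⟨18,[(1,0),(0,1),(3,4),(5,
  9),(4,2),(9,3),(12,1)]⟩,⟨0,[(11,0)]⟩⟩ ⟨true,1,⟨3,[(2,1),(2,2),(5,1),(0,0),(3,0),(23,0)]⟩,⟨0,[(6,
  0)]⟩⟩ ⟨false,1,⟨18,[(1,19),(0,1),(3,4),(5,9),(4,2),(9,3),(12,1)]⟩,⟨0,[(11,0),(16,0)]⟩⟩,.o ⟨false,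
  1,⟨7,[(1,1),(4,1),(5,3),(14,1),(4,2),(7,4)]⟩,⟨0,[(26,0)]⟩⟩,.o ⟨false,0,⟨0,[(28,0)]⟩,⟨3,[(2,1),(29,
  0),(6,0)]⟩⟩,.o ⟨false,0,⟨1,[(28,2),(0,0)]⟩,⟨0,[(1,0)]⟩⟩]⟩)))))))

theorem ok163 : chk K t163 l89 = true := by decide +kernel

noncomputable def t164 : Tre :=
  (.I [0,0,-2,0,1,2,-1] (.R ⟨1,false,false,false,[1,-1],[1,0,-1],[0,1,1],(⟨0,[(30,0)]⟩,⟨0,[(31,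
  0)]⟩),(⟨0,[(27,0)]⟩,⟨0,[(28,0)]⟩),⟨0,[(16,0),(0,0)]⟩,.k,.k,(.r (-1) ⟨14,[(3,7),(5,4),(1,1),(1,4),
  (1,3),(8,2),(4,1)]⟩ ⟨0,[(25,0),(0,0),(8,1)]⟩),.k,(.x 0 ⟨0,[(2,0),(13,1),(0,0),(7,0),(0,1),(2,0)]⟩
  ⟨0,[(0,0)]⟩),.k,⟨true,0,⟨0,[(23,0),(2,0)]⟩,⟨0,[(7,0),(29,0)]⟩⟩,⟨false,1,⟨2,[(1,1),(1,1),(22,0),(5,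
  0),(3,0)]⟩,⟨0,[(25,0)]⟩⟩,⟨false,0,⟨0,[(25,0),(0,0),(8,0)]⟩,⟨0,[(13,0)]⟩⟩,⟨true,0,⟨1,[(1,0),(22,
  0)]⟩,⟨0,[(5,0)]⟩⟩,⟨false,0,⟨0,[(25,0),(0,0),(8,1)]⟩,⟨0,[(11,0),(25,0)]⟩⟩,⟨false,0,⟨0,[(1,0)]⟩,⟨0,
  [(5,0),(28,0),(2,0)]⟩⟩,[.e ⟨false,0,⟨0,[(39,0)]⟩,⟨1,[(36,0),(0,0)]⟩⟩ ⟨false,0,⟨0,[(1,0),(9,0)]⟩,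
  ⟨1,[(8,1),(9,0),(0,0),(5,0),(0,0),(2,0)]⟩⟩,.o ⟨false,1,⟨3,[(1,0),(7,1),(14,0),(4,1),(7,1)]⟩,⟨0,
  [(23,0)]⟩⟩,.a ⟨true,0,⟨1,[(25,0),(0,0)]⟩,⟨7,[(1,0),(6,3),(0,1),(4,3),(9,0)]⟩⟩ ⟨false,0,⟨1,[(25,0),
  (0,0)]⟩,⟨1,[(36,0),(0,0)]⟩⟩ ⟨true,0,⟨1,[(1,0),(7,0),(2,0)]⟩,⟨1,[(23,1),(1,0),(0,0)]⟩⟩,.e ⟨true,0,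
  ⟨0,[(39,0)]⟩,⟨0,[]⟩⟩ ⟨true,0,⟨0,[(1,0),(9,0)]⟩,⟨0,[(23,0),(1,0),(0,0)]⟩⟩]⟩) (.Q [0,1,1,1,0,0,1,1,
  -1,0,-1,1] (.p false [0,0,1] [0,0,0,0,1] (⟨0,[(28,0)]⟩,⟨0,[(27,0)]⟩) .k 2 (⟨0,[(21,0)]⟩,⟨0,[(20,
  0)]⟩) .k (.r (-2) ⟨1,[(8,1),(9,0),(0,0),(6,1),(2,0),(6,0),(0,0)]⟩ ⟨0,[(6,0),(28,0)]⟩)) (.Q [0,-1,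
  0,1,1,0,1,1,-1,0,-1,1] (.p false [0,0,1] [0,0,0,0,1] (⟨0,[(29,0)]⟩,⟨0,[(28,0)]⟩) .k 2 (⟨0,[(22,
  0)]⟩,⟨0,[(21,0)]⟩) .k (.r (-2) ⟨5,[(0,3),(3,1),(14,2),(0,6),(6,3),(9,1),(0,4)]⟩ ⟨0,[(7,0),(28,
  0)]⟩)) (.R ⟨1,true,false,false,[1,0,-1],[1,0,0,0,-1],[0,1,0,0,0,0,0,-1],(⟨0,[(29,0)]⟩,⟨0,[(30,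
  0)]⟩),(⟨0,[(22,0)]⟩,⟨0,[(23,0)]⟩),⟨0,[(18,0)]⟩,.k,.k,.k,.k,(.r 0 ⟨19,[(8,7),(4,1),(0,2),(0,4),(1,
  5),(8,11),(4,2)]⟩ ⟨0,[(0,0),(20,0),(6,0)]⟩),.k,⟨false,(-1),⟨2,[(9,2),(4,0),(19,0),(2,0)]⟩,⟨2,[(0,
  1),(4,0),(14,0),(0,2),(6,1),(10,1)]⟩⟩,⟨true,0,⟨0,[(0,0),(7,0)]⟩,⟨0,[(21,0),(6,0)]⟩⟩,⟨true,0,⟨4,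
  [(1,0),(19,0),(4,0),(7,0),(1,0)]⟩,⟨0,[]⟩⟩,⟨false,2,⟨1,[(0,0),(6,0),(12,0),(18,1)]⟩,⟨0,[(6,0)]⟩⟩,
  ⟨false,0,⟨0,[(37,0)]⟩,⟨0,[(36,0),(2,0)]⟩⟩,⟨true,1,⟨0,[(0,0)]⟩,⟨0,[(6,0),(29,0)]⟩⟩,[]⟩) (.Q [0,0,0,
  0,0,0,1,0,-1,0,-1,1] (.p false [0,0,1] [0,0,0,0,1] (⟨0,[(30,0)]⟩,⟨0,[(29,0)]⟩) .k 2 (⟨0,[(23,0)]⟩,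
  ⟨0,[(22,0)]⟩) .k (.r (-2) ⟨5,[(1,3),(3,1),(14,2),(0,6),(6,3),(9,1),(0,4)]⟩ ⟨0,[(8,0),(28,0)]⟩))
  (.Q [0,0,0,0,0,-1,0,0,0,1,0,-1] (.ed true [0,1,0,0,1] .k) (.S ⟨1,0,[0,-1],[1,0,0,0,-1],[1,0,0,-1],
  (⟨0,[(24,0)]⟩,⟨0,[(25,0)]⟩),⟨0,[(0,0)]⟩,.k,(.r (-1) ⟨13,[(7,3),(5,2),(3,2),(1,1),(8,0),(4,0),(7,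
  5)]⟩ ⟨5,[(3,3),(1,0),(17,3),(4,2),(0,0),(0,0)]⟩),⟨true,0,⟨0,[(38,0)]⟩,⟨0,[(39,0)]⟩⟩,⟨false,1,⟨1,
  [(22,0),(0,0),(17,0)]⟩,⟨0,[]⟩⟩,⟨false,0,⟨0,[]⟩,⟨1,[(22,0),(0,0),(17,0)]⟩⟩,⟨true,0,⟨0,[(39,0)]⟩,⟨0,
  [(38,0)]⟩⟩,[.e ⟨false,1,⟨7,[(7,3),(11,1),(2,0),(0,0),(4,3),(4,0),(7,1)]⟩,⟨0,[(39,0)]⟩⟩ ⟨false,1,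
  ⟨1,[(40,0),(0,0)]⟩,⟨4,[(3,0),(19,0),(4,0),(7,0),(1,0)]⟩⟩,.o ⟨false,2,⟨9,[(1,5),(3,1),(1,1),(14,3),
  (7,3),(2,4),(7,8)]⟩,⟨0,[(8,0),(18,0)]⟩⟩,.o ⟨false,1,⟨23,[(1,13),(1,0),(1,3),(1,2),(8,2),(5,8),(7,
  10),(2,11)]⟩,⟨0,[(23,0)]⟩⟩,.a ⟨true,0,⟨0,[(1,0),(28,0)]⟩,⟨3,[(8,0),(3,1),(5,1),(4,2),(4,0),(12,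
  0)]⟩⟩ ⟨false,1,⟨13,[(7,3),(5,2),(3,2),(1,1),(8,0),(4,0),(7,5)]⟩,⟨2,[(3,0),(1,0),(17,0),(5,0),(0,
  0)]⟩⟩ ⟨true,1,⟨1,[(40,0),(0,0)]⟩,⟨0,[(2,0),(0,0)]⟩⟩]⟩) (.Q [0,0,0,0,0,2,0,0,0,-1,1] (.p true [0,0,
  1] [1] (⟨0,[(32,0)]⟩,⟨0,[(31,0)]⟩) .k 1 (⟨0,[]⟩,⟨0,[]⟩) .k .k) (.R ⟨0,false,false,true,[1,-1,-1],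
  [1,0,0,0,-1],[1],(⟨0,[(21,0)]⟩,⟨0,[(0,0),(34,0)]⟩),(⟨0,[(25,0)]⟩,⟨0,[(26,0)]⟩),⟨0,[(0,0)]⟩,.k,.k,
  (.r 0 ⟨0,[(11,0),(6,0)]⟩ ⟨5,[(4,7),(1,1),(16,1),(0,9),(6,5),(9,0),(0,2)]⟩),(.r 0 ⟨19,[(11,7),(4,
  1),(0,2),(0,4),(1,5),(8,11),(4,2)]⟩ ⟨1,[(13,1),(17,1),(2,0),(5,1),(1,0)]⟩),.k,.k,⟨true,0,⟨0,[]⟩,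
  ⟨1,[(30,0),(0,0)]⟩⟩,⟨false,1,⟨0,[(2,0),(38,0)]⟩,⟨0,[(24,0),(6,0)]⟩⟩,⟨false,1,⟨1,[(13,1),(17,1),(2,
  0),(5,1),(1,0)]⟩,⟨11,[(11,1),(0,5),(1,3),(3,5),(1,1),(13,0),(7,0)]⟩⟩,⟨true,1,⟨1,[(4,1),(36,0),(0,
  0)]⟩,⟨0,[(3,0)]⟩⟩,⟨false,0,⟨0,[]⟩,⟨0,[]⟩⟩,⟨false,0,⟨0,[]⟩,⟨0,[]⟩⟩,[.o ⟨false,1,⟨23,[(2,13),(1,0),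
  (1,3),(1,2),(8,2),(5,8),(7,10),(2,11)]⟩,⟨0,[(24,0)]⟩⟩,.e ⟨false,1,⟨1,[(41,0),(0,0)]⟩,⟨4,[(4,0),
  (19,0),(4,0),(7,0),(1,0)]⟩⟩ ⟨false,1,⟨1,[(2,1),(16,1),(14,0),(7,0)]⟩,⟨4,[(4,0),(19,5),(4,0),(1,4),
  (5,0),(1,0)]⟩⟩,.a ⟨true,0,⟨0,[(31,0)]⟩,⟨0,[(27,0)]⟩⟩ ⟨true,0,⟨0,[]⟩,⟨4,[(4,0),(19,0),(4,0),(7,0),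
  (1,0)]⟩⟩ ⟨false,1,⟨1,[(2,1),(38,0),(0,0)]⟩,⟨0,[(24,0),(6,0)]⟩⟩,.e ⟨false,1,⟨1,[(41,0),(0,0)]⟩,⟨1,
  [(30,0),(0,0)]⟩⟩ ⟨false,1,⟨1,[(2,1),(16,1),(14,0),(7,0)]⟩,⟨1,[(24,1),(5,0),(0,2)]⟩⟩]⟩) (.Q [0,-1,
  0,2,1,0,1,1,-1,0,-1,1] (.p false [0,0,1] [0,0,0,0,1] (⟨0,[(33,0)]⟩,⟨0,[(32,0)]⟩) .k 2 (⟨0,[(26,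
  0)]⟩,⟨0,[(25,0)]⟩) .k (.r (-2) ⟨5,[(4,3),(3,1),(14,2),(0,6),(6,3),(9,1),(0,4)]⟩ ⟨0,[(2,0),(0,0),
  (36,0)]⟩)) (.R ⟨1,false,false,true,[1,-1,-1],[1,0,0,0,-1],[0,0,1],(⟨0,[(22,0)]⟩,⟨0,[(34,0),(2,
  0)]⟩),(⟨0,[(26,0)]⟩,⟨0,[(27,0)]⟩),⟨0,[(1,0)]⟩,.k,.k,(.r 0 ⟨0,[(12,0),(6,0)]⟩ ⟨3,[(0,2),(4,1),(18,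
  0),(0,5),(4,0),(0,0),(0,4)]⟩),(.r 0 ⟨19,[(12,7),(4,1),(0,2),(0,4),(1,5),(8,11),(4,2)]⟩ ⟨2,[(0,1),
  (10,0),(13,1),(6,2),(10,0)]⟩),(.r 0 ⟨9,[(12,5),(4,3),(0,0),(0,4),(1,1),(8,3),(4,0)]⟩ ⟨1,[(0,1),
  (24,1),(5,0),(0,2)]⟩),.k,⟨true,0,⟨1,[(31,0),(0,0)]⟩,⟨0,[]⟩⟩,⟨false,1,⟨0,[(3,0),(38,0)]⟩,⟨0,[(25,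
  0),(6,0)]⟩⟩,⟨false,1,⟨0,[(5,0),(19,0),(6,0),(10,0)]⟩,⟨0,[(13,0),(5,0)]⟩⟩,⟨true,1,⟨1,[(0,0),(23,0),
  (4,0)]⟩,⟨0,[(4,0)]⟩⟩,⟨false,1,⟨1,[(0,1),(24,1),(5,0),(0,2)]⟩,⟨0,[(12,0),(6,0)]⟩⟩,⟨false,1,⟨0,[(0,
  0)]⟩,⟨1,[(4,0),(6,0),(3,1),(9,0),(17,0)]⟩⟩,[.o ⟨false,1,⟨23,[(0,0),(2,13),(3,2),(1,1),(8,3),(5,8),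
  (7,11),(2,11)]⟩,⟨0,[(25,0)]⟩⟩,.e ⟨false,1,⟨1,[(24,0),(0,0),(17,0)]⟩,⟨5,[(0,0),(9,0),(7,1),(19,
  1)]⟩⟩ ⟨false,1,⟨5,[(0,0),(2,4),(3,0),(8,0),(2,3),(0,1),(14,0)]⟩,⟨4,[(5,0),(19,5),(4,0),(1,4),(5,
  0),(1,0)]⟩⟩,.a ⟨true,0,⟨0,[(32,0)]⟩,⟨0,[(28,0)]⟩⟩ ⟨true,0,⟨1,[(31,0),(0,0)]⟩,⟨5,[(0,0),(9,0),(7,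
  1),(19,1)]⟩⟩ ⟨false,1,⟨39,[(0,4),(2,27),(3,4),(11,19),(1,5),(2,6),(10,2),(7,4)]⟩,⟨0,[(25,0),(6,
  0)]⟩⟩,.e ⟨false,1,⟨1,[(24,0),(0,0),(17,0)]⟩,⟨0,[]⟩⟩ ⟨false,1,⟨5,[(0,0),(2,4),(3,0),(8,0),(2,3),(0,
  1),(14,0)]⟩,⟨1,[(25,1),(5,0),(0,2)]⟩⟩]⟩) (.Q [0,-1,-1,1,0,0,0,0,1,1,0,-1] (.p false [0,0,0,0,1]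
  [1] (⟨0,[(27,0)]⟩,⟨0,[(26,0)]⟩) .k 1 (⟨0,[]⟩,⟨0,[]⟩) .k .k) (.R ⟨0,false,false,false,[1,0,0,0,-1],
  [0,1],[1,0,1,1],(⟨0,[(27,0)]⟩,⟨0,[(28,0)]⟩),(⟨0,[(38,0)]⟩,⟨0,[(37,0)]⟩),⟨0,[(3,0)]⟩,.k,.k,(.r
  (-1) ⟨13,[(10,3),(5,2),(3,2),(1,1),(8,0),(4,0),(7,5)]⟩ ⟨5,[(6,3),(1,0),(17,3),(4,2),(0,0),(0,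
  0)]⟩),(.r (-1) ⟨13,[(10,3),(5,2),(3,2),(1,1),(8,0),(4,0),(7,5)]⟩ ⟨5,[(6,3),(1,0),(17,3),(4,2),(0,
  0),(0,0)]⟩),.k,.k,⟨true,0,⟨0,[]⟩,⟨1,[(32,0),(0,0)]⟩⟩,⟨false,0,⟨0,[(21,0),(4,0)]⟩,⟨3,[(4,1),(20,1),
  (6,0),(0,2),(2,1)]⟩⟩,⟨false,0,⟨2,[(6,0),(1,0),(17,0),(5,0),(0,0)]⟩,⟨13,[(10,3),(5,2),(3,2),(1,1),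
  (8,0),(4,0),(7,5)]⟩⟩,⟨true,(-1),⟨1,[(0,0),(5,0),(4,1),(3,0)]⟩,⟨21,[(4,17),(5,5),(1,1),(3,7),(8,3),
  (7,11),(2,10),(7,0)]⟩⟩,⟨false,0,⟨0,[]⟩,⟨0,[]⟩⟩,⟨false,0,⟨0,[]⟩,⟨0,[]⟩⟩,[.o ⟨false,0,⟨0,[(42,0)]⟩,
  ⟨1,[(36,0),(4,1),(2,0)]⟩⟩,.e ⟨false,1,⟨7,[(0,1),(5,1),(1,1),(16,3),(0,3),(9,0),(7,2)]⟩,⟨0,[(40,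
  0)]⟩⟩ ⟨false,0,⟨0,[(0,0)]⟩,⟨7,[(4,0),(1,3),(3,0),(5,4),(1,0),(6,2),(10,3),(4,2)]⟩⟩,.o ⟨false,1,
  ⟨23,[(4,13),(1,0),(1,3),(1,2),(8,2),(5,8),(7,10),(2,11)]⟩,⟨0,[(26,0)]⟩⟩,.a ⟨true,0,⟨0,[(4,0),(28,
  0)]⟩,⟨12,[(0,7),(0,1),(8,1),(4,3),(6,0),(3,2),(4,3),(7,0)]⟩⟩ ⟨true,0,⟨0,[(42,0)]⟩,⟨0,[(41,0)]⟩⟩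
  ⟨false,0,⟨0,[(0,0)]⟩,⟨7,[(4,5),(7,3),(3,3),(8,1),(6,0),(0,6),(2,3),(7,1)]⟩⟩]⟩) (.R ⟨0,false,false,
  false,[1,0,0,0,-1],[0,1],[1,0,1,1],(⟨0,[(27,0)]⟩,⟨0,[(28,0)]⟩),(⟨0,[(38,0)]⟩,⟨0,[(37,0)]⟩),⟨0,[(3,
  0)]⟩,.k,.k,(.r (-1) ⟨13,[(10,3),(5,2),(3,2),(1,1),(8,0),(4,0),(7,5)]⟩ ⟨5,[(6,3),(1,0),(17,3),(4,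
  2),(0,0),(0,0)]⟩),(.r (-1) ⟨13,[(10,3),(5,2),(3,2),(1,1),(8,0),(4,0),(7,5)]⟩ ⟨5,[(6,3),(1,0),(17,
  3),(4,2),(0,0),(0,0)]⟩),.k,.k,⟨true,0,⟨0,[]⟩,⟨1,[(32,0),(0,0)]⟩⟩,⟨false,0,⟨0,[(21,0),(4,0)]⟩,⟨15,
  [(0,5),(5,1),(1,1),(16,7),(6,3),(0,3),(2,4),(7,2)]⟩⟩,⟨false,0,⟨2,[(6,0),(1,0),(17,0),(5,0),(0,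
  0)]⟩,⟨13,[(10,3),(5,2),(3,2),(1,1),(8,0),(4,0),(7,5)]⟩⟩,⟨true,(-1),⟨0,[(11,0),(3,0),(26,0)]⟩,⟨5,
  [(0,3),(19,1),(4,1),(10,0),(7,0)]⟩⟩,⟨false,0,⟨0,[]⟩,⟨0,[]⟩⟩,⟨false,0,⟨0,[]⟩,⟨0,[]⟩⟩,[.o ⟨false,0,
  ⟨0,[(42,0)]⟩,⟨1,[(36,0),(4,1),(2,0)]⟩⟩,.a ⟨true,0,⟨1,[(7,0),(0,1),(1,0),(4,0),(18,0),(3,1)]⟩,⟨0,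
  [(41,0)]⟩⟩ ⟨false,1,⟨5,[(6,1),(1,1),(16,1),(0,3),(16,0),(0,2)]⟩,⟨0,[(40,0)]⟩⟩ ⟨true,0,⟨1,[(8,0),
  (2,0),(3,1),(10,0),(17,0)]⟩,⟨0,[(0,0)]⟩⟩,.o ⟨false,1,⟨19,[(0,5),(3,3),(1,1),(1,5),(1,3),(14,7),
  (10,6),(7,0)]⟩,⟨0,[(26,0)]⟩⟩,.e ⟨true,0,⟨0,[(42,0)]⟩,⟨0,[(41,0)]⟩⟩ ⟨true,0,⟨9,[(8,4),(6,5),(5,3),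
  (4,9),(4,0),(7,1)]⟩,⟨0,[(0,0)]⟩⟩]⟩))))) (.Q [0,0,-1,0,0,0,0,0,1,0,0,-1] (.p false [0,0,0,0,1] []
  (⟨0,[(24,0)]⟩,⟨0,[(23,0)]⟩) .k 0 (⟨0,[]⟩,⟨0,[]⟩) .k .k) (.Q [0,0,0,0,0,-1,0,0,0,1,0,-1] (.ed true
  [0,1,0,0,1] .k) (.S ⟨1,0,[],[1,0,0,0,-1],[0,-1],(⟨0,[(25,0)]⟩,⟨0,[(26,0)]⟩),⟨0,[(0,0)]⟩,.k,(.r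
  (-1) ⟨13,[(8,3),(5,2),(3,2),(1,1),(8,0),(4,0),(7,5)]⟩ ⟨5,[(4,3),(1,0),(17,3),(4,2),(0,0),(0,0)]⟩),
  ⟨false,1,⟨1,[(23,0),(0,0),(17,0)]⟩,⟨0,[]⟩⟩,⟨true,0,⟨4,[(4,0),(19,0),(4,0),(7,0),(1,0)]⟩,⟨0,[]⟩⟩,
  ⟨true,0,⟨0,[(40,0)]⟩,⟨0,[(39,0)]⟩⟩,⟨false,0,⟨0,[(40,0)]⟩,⟨0,[(39,0),(2,0)]⟩⟩,[.o ⟨false,1,⟨1,[(4,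
  1),(1,0),(1,0),(2,0),(2,0),(19,0),(7,0)]⟩,⟨0,[(24,0)]⟩⟩,.a ⟨true,1,⟨1,[(4,1),(1,0),(1,0),(2,0),(2,
  0),(27,1)]⟩,⟨0,[(9,0),(3,0)]⟩⟩ ⟨true,1,⟨0,[(42,0)]⟩,⟨0,[(3,0),(0,0)]⟩⟩ ⟨false,1,⟨1,[(41,0),(0,
  0)]⟩,⟨4,[(4,0),(19,0),(4,0),(7,0),(1,0)]⟩⟩,.o ⟨false,1,⟨1,[(4,1),(1,0),(1,0),(2,0),(2,0),(19,0),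
  (7,0)]⟩,⟨0,[(24,0)]⟩⟩,.o ⟨false,1,⟨1,[(4,1),(9,1),(19,0),(7,0)]⟩,⟨0,[(1,0)]⟩⟩]⟩) (.R ⟨0,false,
  false,false,[1,0,0,0,-1],[1,0,-1],[1],(⟨0,[(25,0)]⟩,⟨0,[(26,0)]⟩),(⟨0,[(32,0)]⟩,⟨0,[(33,0)]⟩),⟨0,
  [(0,0)]⟩,.k,.k,(.r (-1) ⟨13,[(8,3),(5,2),(3,2),(1,1),(8,0),(4,0),(7,5)]⟩ ⟨5,[(4,3),(1,0),(17,3),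
  (4,2),(0,0),(0,0)]⟩),.k,.k,.k,⟨false,1,⟨3,[(2,1),(1,1),(3,1),(31,1),(0,0),(0,0)]⟩,⟨19,[(6,4),(5,
  3),(1,9),(5,7),(8,0),(4,3)]⟩⟩,⟨true,0,⟨0,[(2,0)]⟩,⟨0,[(4,0),(6,0),(30,0)]⟩⟩,⟨false,0,⟨0,[]⟩,⟨1,
  [(23,0),(0,0),(17,0)]⟩⟩,⟨true,(-1),⟨0,[(9,0)]⟩,⟨15,[(4,11),(3,3),(7,1),(3,1),(2,3),(10,0),(7,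
  6)]⟩⟩,⟨false,0,⟨0,[]⟩,⟨0,[]⟩⟩,⟨false,0,⟨0,[]⟩,⟨0,[]⟩⟩,[.a ⟨true,0,⟨3,[(6,0),(7,1),(14,0)]⟩,⟨0,
  [(13,0)]⟩⟩ ⟨true,0,⟨0,[]⟩,⟨1,[(30,0),(0,0)]⟩⟩ ⟨false,0,⟨3,[(6,0),(2,1),(8,1),(5,1),(4,0)]⟩,⟨15,
  [(4,11),(3,3),(7,1),(3,1),(2,3),(10,0),(7,6)]⟩⟩,.o ⟨false,1,⟨3,[(6,0),(7,1),(14,0),(4,1),(7,1)]⟩,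
  ⟨0,[(28,0)]⟩⟩,.o ⟨false,1,⟨1,[(4,1),(1,0),(1,0),(2,0),(2,0),(19,0),(7,0)]⟩,⟨0,[(24,0)]⟩⟩,.o
  ⟨false,1,⟨1,[(4,1),(9,1),(19,0),(7,0)]⟩,⟨0,[(1,0)]⟩⟩]⟩)) (.K ⟨0,[0,0,0,0,1],0,(-1),(⟨0,[(25,0)]⟩,
  ⟨0,[(24,0)]⟩),.k,(.r 0 ⟨0,[(37,0)]⟩ ⟨5,[(3,1),(1,1),(16,2),(0,4),(5,1),(0,1),(10,2)]⟩),(.r 0 ⟨5,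
  [(3,3),(1,0),(17,3),(4,2),(0,0),(0,0)]⟩ ⟨13,[(7,3),(5,2),(3,2),(1,1),(8,0),(4,0),(7,5)]⟩),.k,.k,
  [⟨0,[(1,0)]⟩,⟨0,[(0,0)]⟩,⟨0,[(22,0)]⟩,⟨0,[(8,0),(18,0)]⟩]⟩)))) (.Q [0,0,1,0,0,0,1,0,-1,0,-1,1]
  (.p false [0,0,1] [0,0,0,0,1] (⟨0,[(29,0)]⟩,⟨0,[(28,0)]⟩) .k 2 (⟨0,[(22,0)]⟩,⟨0,[(21,0)]⟩) .k (.r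
  (-2) ⟨1,[(9,1),(9,0),(0,0),(6,1),(2,0),(6,0),(0,0)]⟩ ⟨0,[(7,0),(28,0)]⟩)) (.Q [0,0,0,0,0,-1,0,0,0,
  1,0,-1] (.ed true [0,1,0,0,1] .k) (.S ⟨1,0,[],[1,0,0,0,-1],[0,-1],(⟨0,[(23,0)]⟩,⟨0,[(24,0)]⟩),⟨0,
  [(0,0)]⟩,.k,(.r (-1) ⟨13,[(6,3),(5,2),(3,2),(1,1),(8,0),(4,0),(7,5)]⟩ ⟨1,[(28,0),(0,0),(8,1),(3,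
  1)]⟩),⟨false,1,⟨1,[(21,0),(0,0),(17,0)]⟩,⟨0,[]⟩⟩,⟨true,0,⟨0,[(42,0)]⟩,⟨0,[]⟩⟩,⟨true,0,⟨0,[(38,
  0)]⟩,⟨0,[(37,0)]⟩⟩,⟨false,0,⟨0,[(38,0)]⟩,⟨0,[(37,0),(2,0)]⟩⟩,[.o ⟨false,1,⟨5,[(1,4),(2,1),(1,1),
  (8,1),(5,0),(7,2),(2,2),(5,1)]⟩,⟨0,[(22,0)]⟩⟩,.a ⟨true,1,⟨3,[(1,2),(2,1),(1,1),(14,0),(7,0),(10,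
  0)]⟩,⟨0,[(7,0),(3,0)]⟩⟩ ⟨true,1,⟨0,[(40,0)]⟩,⟨0,[(10,0),(15,0),(2,0)]⟩⟩ ⟨false,1,⟨1,[(39,0),(0,
  0)]⟩,⟨0,[(42,0)]⟩⟩,.o ⟨false,1,⟨5,[(1,4),(2,1),(1,1),(8,1),(5,0),(7,2),(2,2),(5,1)]⟩,⟨0,[(22,
  0)]⟩⟩,.o ⟨false,1,⟨1,[(1,0),(19,0),(7,0),(2,0)]⟩,⟨0,[(2,0),(23,0),(11,0)]⟩⟩]⟩) (.R ⟨0,false,false,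
  false,[1,0,0,0,-1],[1,0,-1],[1],(⟨0,[(23,0)]⟩,⟨0,[(24,0)]⟩),(⟨0,[(30,0)]⟩,⟨0,[(31,0)]⟩),⟨0,[(0,
  0)]⟩,.k,.k,(.r (-1) ⟨13,[(6,3),(5,2),(3,2),(1,1),(8,0),(4,0),(7,5)]⟩ ⟨1,[(28,0),(0,0),(8,1),(3,
  1)]⟩),.k,.k,.k,⟨false,1,⟨3,[(6,1),(4,1),(17,1),(2,0),(5,3),(0,0)]⟩,⟨19,[(4,4),(5,3),(1,9),(5,7),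
  (8,0),(4,3)]⟩⟩,⟨true,0,⟨0,[(2,0),(23,0),(2,0),(8,0)]⟩,⟨0,[(1,0)]⟩⟩,⟨false,0,⟨0,[]⟩,⟨1,[(21,0),(0,
  0),(17,0)]⟩⟩,⟨true,(-1),⟨0,[(7,0)]⟩,⟨3,[(1,2),(4,1),(4,1),(9,0),(7,0),(2,0),(5,3)]⟩⟩,⟨false,0,⟨0,
  []⟩,⟨0,[]⟩⟩,⟨false,0,⟨0,[]⟩,⟨0,[]⟩⟩,[.a ⟨true,0,⟨3,[(4,0),(7,1),(14,0)]⟩,⟨0,[(11,0)]⟩⟩ ⟨true,0,⟨0,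
  []⟩,⟨1,[(28,0),(0,0)]⟩⟩ ⟨false,0,⟨5,[(2,1),(1,0),(2,1),(14,1),(4,0),(11,1)]⟩,⟨3,[(1,2),(4,1),(4,
  1),(9,0),(7,0),(2,0),(5,3)]⟩⟩,.o ⟨false,1,⟨3,[(4,0),(7,1),(14,0),(4,1),(7,1)]⟩,⟨0,[(26,0)]⟩⟩,.o
  ⟨false,1,⟨5,[(1,4),(2,1),(1,1),(8,1),(5,0),(7,2),(2,2),(5,1)]⟩,⟨0,[(22,0)]⟩⟩,.o ⟨false,1,⟨1,[(1,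
  0),(19,0),(7,0),(2,0)]⟩,⟨0,[(2,0),(23,0),(11,0)]⟩⟩]⟩)) (.Q [0,0,-1,0,0,0,2,1,0,1,-2] (.p false [0,
  0,1] [1,0,-1] (⟨0,[(30,0)]⟩,⟨0,[(29,0)]⟩) .k 2 (⟨0,[(29,0)]⟩,⟨0,[(30,0)]⟩) .k (.r (-2) ⟨0,[(0,0),
  (9,1),(9,0),(7,0),(2,0)]⟩ ⟨0,[(9,1),(29,0)]⟩)) (.Q [0,0,0,0,0,2,0,0,0,-1,1] (.p true [0,0,1] [1]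
  (⟨0,[(31,0)]⟩,⟨0,[(30,0)]⟩) .k 1 (⟨0,[]⟩,⟨0,[]⟩) .k .k) (.R ⟨0,false,false,false,[1,-1,-1],[0,0,
  1],[1,1],(⟨0,[(20,0)]⟩,⟨7,[(0,3),(4,0),(6,3),(0,1),(14,0),(3,3)]⟩),(⟨0,[(32,0)]⟩,⟨0,[(31,0)]⟩),⟨0,
  [(0,0)]⟩,.k,.k,(.r 0 ⟨0,[(10,0),(6,0)]⟩ ⟨1,[(12,1),(9,0),(0,0),(5,0),(0,2),(2,0),(5,3)]⟩),(.x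
  (-2) ⟨1,[(2,0),(17,1),(1,1),(0,0),(6,2),(0,1),(1,1)]⟩ ⟨0,[(6,0)]⟩),.k,.k,⟨true,(-1),⟨0,[(11,0)]⟩,
  ⟨1,[(12,1),(17,1),(2,0),(7,0)]⟩⟩,⟨false,0,⟨10,[(1,7),(3,1),(5,5),(5,3),(0,2),(0,3),(13,1)]⟩,⟨1,
  [(2,0),(19,0),(7,2),(2,0)]⟩⟩,⟨true,0,⟨0,[(27,0),(2,0),(8,0)]⟩,⟨11,[(10,1),(0,5),(1,3),(3,5),(1,1),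
  (13,0),(7,0)]⟩⟩,⟨false,1,⟨1,[(12,3),(20,0),(5,1),(1,0)]⟩,⟨5,[(5,3),(1,1),(2,5),(2,3),(16,3),(2,2),
  (7,0)]⟩⟩,⟨false,0,⟨0,[]⟩,⟨0,[]⟩⟩,⟨false,0,⟨0,[]⟩,⟨0,[]⟩⟩,[.a ⟨true,0,⟨0,[(12,0)]⟩,⟨3,[(5,0),(7,1),
  (14,0)]⟩⟩ ⟨false,0,⟨2,[(16,0),(19,0),(2,0)]⟩,⟨1,[(22,0),(0,0),(17,0)]⟩⟩ ⟨true,0,⟨0,[(1,0)]⟩,⟨5,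
  [(5,1),(4,3),(18,0),(0,10),(2,2),(7,0)]⟩⟩,.o ⟨false,1,⟨1,[(12,1),(20,0),(7,0)]⟩,⟨7,[(5,0),(5,3),
  (4,1),(11,2),(1,3),(2,3)]⟩⟩,.a ⟨true,0,⟨0,[(30,0)]⟩,⟨0,[(26,0)]⟩⟩ ⟨false,0,⟨0,[]⟩,⟨1,[(22,0),(0,
  0),(17,0)]⟩⟩ ⟨true,0,⟨0,[(1,0)]⟩,⟨7,[(5,0),(5,3),(4,1),(11,2),(1,11),(2,3)]⟩⟩,.a ⟨true,0,⟨1,[(29,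
  0),(0,2)]⟩,⟨10,[(1,3),(3,0),(5,2),(5,1),(0,6),(0,1),(13,0)]⟩⟩ ⟨true,0,⟨2,[(16,0),(19,0),(2,0)]⟩,
  ⟨1,[(29,0),(0,0)]⟩⟩ ⟨false,1,⟨1,[(1,1),(38,0),(0,0)]⟩,⟨5,[(5,1),(4,3),(18,0),(0,10),(2,2),(7,
  0)]⟩⟩]⟩) (.Q [0,0,-1,0,-1,0,0,0,1,1,0,-1] (.p false [0,0,0,0,1] [1] (⟨0,[(25,0)]⟩,⟨0,[(24,0)]⟩)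
  .k 1 (⟨0,[]⟩,⟨0,[]⟩) .k .k) (.Q [0,0,0,0,0,-1,0,0,0,1,0,-1] (.ed true [0,1,0,0,1] .k) (.S ⟨1,0,[],
  [1,0,0,0,-1],[0,-1],(⟨0,[(26,0)]⟩,⟨0,[(27,0)]⟩),⟨0,[(0,0)]⟩,.k,(.r (-1) ⟨13,[(9,3),(5,2),(3,2),(1,
  1),(8,0),(4,0),(7,5)]⟩ ⟨1,[(31,0),(0,0),(8,1),(3,1)]⟩),⟨false,1,⟨1,[(24,0),(0,0),(17,0)]⟩,⟨0,[]⟩⟩,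
  ⟨true,0,⟨0,[(45,0)]⟩,⟨0,[]⟩⟩,⟨true,0,⟨0,[(41,0)]⟩,⟨0,[(40,0)]⟩⟩,⟨false,0,⟨0,[(41,0)]⟩,⟨0,[(40,0),
  (2,0)]⟩⟩,[.e ⟨false,1,⟨1,[(42,0),(0,0)]⟩,⟨0,[(45,0)]⟩⟩ ⟨false,1,⟨1,[(24,0),(0,0),(16,0)]⟩,⟨0,[]⟩⟩,
  .o ⟨false,2,⟨1,[(24,1),(10,0),(7,0)]⟩,⟨5,[(1,4),(4,0),(3,0),(2,1),(15,2),(2,2),(0,0),(1,2),(1,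
  1)]⟩⟩,.e ⟨false,1,⟨0,[(43,0)]⟩,⟨0,[(45,0)]⟩⟩ ⟨false,1,⟨1,[(24,0),(0,0),(17,0)]⟩,⟨0,[]⟩⟩,.a ⟨true,
  1,⟨1,[(24,1),(6,0),(0,0)]⟩,⟨0,[(1,0)]⟩⟩ ⟨true,1,⟨1,[(42,0),(0,0)]⟩,⟨0,[(13,0),(15,0),(2,0)]⟩⟩
  ⟨false,1,⟨1,[(42,0),(0,0)]⟩,⟨1,[(31,0),(0,0)]⟩⟩]⟩) (.Q [0,0,1,1,1,0,1,1,-1,0,-1,1] (.p false [0,0,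
  1] [0,0,0,0,1] (⟨0,[(34,0)]⟩,⟨0,[(33,0)]⟩) .k 2 (⟨0,[(27,0)]⟩,⟨0,[(26,0)]⟩) .k (.r (-2) ⟨1,[(4,0),
  (9,1),(9,1),(0,0),(6,0),(2,0),(7,0)]⟩ ⟨0,[(12,0),(28,0)]⟩)) (.R ⟨0,false,false,false,[1,0,0,0,-1],
  [0,0,1],[1,1],(⟨0,[(27,0)]⟩,⟨0,[(28,0)]⟩),(⟨0,[(35,0)]⟩,⟨0,[(34,0)]⟩),⟨0,[(1,0)]⟩,.k,.k,(.r (-1)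
  ⟨13,[(10,3),(5,2),(3,2),(1,1),(8,0),(4,0),(7,5)]⟩ ⟨0,[(0,0),(10,0)]⟩),.k,.k,.k,⟨true,(-1),⟨0,[(14,
  0)]⟩,⟨1,[(15,1),(17,1),(2,0),(7,0)]⟩⟩,⟨false,(-1),⟨0,[(2,0),(14,0)]⟩,⟨1,[(5,0),(19,2),(7,0),(2,
  0)]⟩⟩,⟨false,0,⟨0,[(46,0)]⟩,⟨0,[(44,0)]⟩⟩,⟨true,(-1),⟨1,[(2,1),(27,1),(1,0),(0,0)]⟩,⟨5,[(0,3),(7,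
  5),(1,3),(2,7),(11,1),(7,3),(2,2),(7,0)]⟩⟩,⟨false,0,⟨0,[]⟩,⟨0,[]⟩⟩,⟨false,0,⟨0,[]⟩,⟨0,[]⟩⟩,[.e
  ⟨false,0,⟨2,[(19,0),(19,0),(2,0)]⟩,⟨1,[(25,0),(0,0),(17,0)]⟩⟩ ⟨false,0,⟨1,[(4,0),(0,0),(9,0),(10,
  0)]⟩,⟨5,[(0,3),(7,5),(1,3),(2,7),(11,1),(7,3),(2,2),(7,0)]⟩⟩,.o ⟨false,1,⟨1,[(15,1),(20,0),(7,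
  0)]⟩,⟨7,[(8,0),(5,3),(4,1),(11,2),(1,3),(2,3)]⟩⟩,.e ⟨false,0,⟨0,[]⟩,⟨1,[(25,0),(0,0),(17,0)]⟩⟩
  ⟨false,0,⟨1,[(2,1),(12,1),(16,0),(0,0),(2,0),(7,0)]⟩,⟨5,[(0,3),(7,5),(1,3),(2,7),(11,1),(7,3),(2,
  2),(7,0)]⟩⟩,.a ⟨true,1,⟨0,[(0,0),(15,0)]⟩,⟨0,[(2,0)]⟩⟩ ⟨true,0,⟨2,[(19,0),(19,0),(2,0)]⟩,⟨1,[(32,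
  0),(0,0)]⟩⟩ ⟨false,0,⟨1,[(2,1),(12,1),(20,0),(7,0)]⟩,⟨5,[(0,1),(7,1),(4,3),(2,1),(8,3),(7,3),(2,
  2),(7,0)]⟩⟩]⟩) (.R ⟨0,false,false,false,[1,0,0,0,-1],[1,0,-1],[1,0,0,0,0,0,0,-1],(⟨0,[(27,0)]⟩,⟨0,
  [(28,0)]⟩),(⟨0,[(34,0)]⟩,⟨0,[(35,0)]⟩),⟨0,[(1,0)]⟩,.k,.k,(.r (-1) ⟨13,[(10,3),(5,2),(3,2),(1,1),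
  (8,0),(4,0),(7,5)]⟩ ⟨1,[(32,0),(0,0),(8,1),(3,1)]⟩),.k,.k,.k,⟨true,0,⟨0,[]⟩,⟨1,[(32,0),(0,0)]⟩⟩,
  ⟨false,0,⟨0,[(5,0)]⟩,⟨0,[(17,0),(7,0)]⟩⟩,⟨true,(-1),⟨0,[(14,0)]⟩,⟨1,[(5,0),(9,1),(9,0),(7,0),(2,
  0)]⟩⟩,⟨false,(-1),⟨3,[(0,1),(1,0),(4,0),(0,0),(2,0),(21,0),(0,0),(1,0),(1,1)]⟩,⟨1,[(15,1),(9,1),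
  (10,0),(7,0)]⟩⟩,⟨false,0,⟨0,[]⟩,⟨0,[]⟩⟩,⟨false,0,⟨0,[]⟩,⟨0,[]⟩⟩,[.e ⟨false,0,⟨19,[(8,4),(5,11),(5,
  9),(1,3),(8,2),(4,1)]⟩,⟨1,[(5,0),(9,1),(9,0),(7,0),(2,0)]⟩⟩ ⟨false,(-1),⟨0,[(0,0),(41,0)]⟩,⟨1,
  [(15,1),(9,2),(0,0),(9,0)]⟩⟩,.o ⟨false,1,⟨3,[(8,0),(7,1),(14,0),(4,1),(7,1)]⟩,⟨0,[(30,0)]⟩⟩,.a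
  ⟨true,1,⟨0,[(25,0)]⟩,⟨1,[(2,1),(29,0),(0,0)]⟩⟩ ⟨false,0,⟨0,[(14,0),(29,0)]⟩,⟨1,[(5,0),(9,1),(9,0),
  (7,0),(2,0)]⟩⟩ ⟨true,(-1),⟨3,[(0,1),(1,0),(4,0),(0,0),(2,0),(21,0),(0,0),(1,0),(1,1)]⟩,⟨0,[(25,0),
  (4,0)]⟩⟩,.e ⟨true,0,⟨19,[(8,4),(5,11),(5,9),(1,3),(8,2),(4,1)]⟩,⟨0,[(30,0),(2,0)]⟩⟩ ⟨true,(-1),⟨0,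
  [(0,0),(41,0)]⟩,⟨1,[(25,1),(4,1),(1,0),(0,0)]⟩⟩]⟩))) (.Q [0,0,1,0,1,0,-1,0,-1,-1,1,1] (.p true [0,
  0,1] [1,0,0,0,-1] (⟨0,[(33,0)]⟩,⟨0,[(32,0)]⟩) .k 2 (⟨0,[(25,0)]⟩,⟨0,[(26,0)]⟩) .k (.r (-1) ⟨1,[(3,
  0),(19,1),(0,0),(3,1),(2,0)]⟩ ⟨0,[(12,0),(29,0)]⟩)) (.Q [0,-1,-1,1,1,0,0,0,-1,0,0,1] (.p true [0,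
  0,0,0,1] [] (⟨0,[(27,0)]⟩,⟨0,[(26,0)]⟩) .k 0 (⟨0,[]⟩,⟨0,[]⟩) .k .k) (.Q [0,0,0,0,0,-1,0,0,0,0,0,
  1] (.ed false [1,-1,0,0,1] .k) (.S ⟨1,0,[0,1],[0,0,0,0,1],[0,2],(⟨0,[(29,0)]⟩,⟨0,[(28,0)]⟩),⟨0,
  [(0,0)]⟩,.k,(.r 0 ⟨0,[(41,0)]⟩ ⟨3,[(2,2),(6,1),(6,1),(6,0),(3,2),(5,0),(11,0)]⟩),⟨true,0,⟨0,[(47,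
  0)]⟩,⟨0,[]⟩⟩,⟨false,1,⟨1,[(26,0),(0,0),(17,0)]⟩,⟨0,[]⟩⟩,⟨false,0,⟨0,[(43,0)]⟩,⟨0,[(42,0),(2,0)]⟩⟩,
  ⟨true,0,⟨0,[(43,0)]⟩,⟨0,[(42,0)]⟩⟩,[.e ⟨false,0,⟨0,[(40,0)]⟩,⟨0,[(45,0)]⟩⟩ ⟨false,0,⟨2,[(20,0),
  (19,0),(2,0)]⟩,⟨1,[(26,0),(0,0),(17,0)]⟩⟩,.o ⟨false,0,⟨0,[(27,0)]⟩,⟨3,[(1,1),(0,0),(0,0),(9,0),(0,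
  0),(22,0)]⟩⟩,.o ⟨false,0,⟨0,[(27,0)]⟩,⟨3,[(1,1),(0,0),(0,0),(9,0),(0,0),(22,0)]⟩⟩,.a ⟨true,(-1),
  ⟨0,[(6,0),(1,0),(26,0),(3,1)]⟩,⟨2,[(1,0),(18,0),(5,1)]⟩⟩ ⟨false,0,⟨2,[(20,0),(19,0),(2,0)]⟩,⟨1,
  [(33,0),(0,0),(10,1)]⟩⟩ ⟨true,0,⟨2,[(20,0),(19,0),(2,0)]⟩,⟨1,[(33,0),(0,0)]⟩⟩]⟩) (.S ⟨1,0,[],[1,0,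
  0,0,-1],[0,-1],(⟨0,[(28,0)]⟩,⟨0,[(29,0)]⟩),⟨1,[(0,0),(3,0),(20,0),(2,0)]⟩,.k,(.r (-1) ⟨13,[(11,3),
  (5,2),(3,2),(1,1),(8,0),(4,0),(7,5)]⟩ ⟨1,[(33,0),(0,0),(8,1),(3,1)]⟩),⟨false,1,⟨1,[(26,0),(0,0),
  (17,0)]⟩,⟨0,[]⟩⟩,⟨true,0,⟨0,[(47,0)]⟩,⟨0,[]⟩⟩,⟨true,0,⟨0,[(43,0)]⟩,⟨0,[(42,0)]⟩⟩,⟨false,0,⟨0,[(43,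
  0)]⟩,⟨0,[(42,0),(2,0)]⟩⟩,[.o ⟨false,1,⟨3,[(1,1),(0,0),(0,0),(9,0),(0,0),(22,0)]⟩,⟨0,[(27,0)]⟩⟩,.a
  ⟨true,1,⟨1,[(1,0),(0,0),(11,0),(1,0),(28,0)]⟩,⟨0,[(12,0),(3,0)]⟩⟩ ⟨true,1,⟨0,[(45,0)]⟩,⟨0,[(15,0),
  (15,0),(2,0)]⟩⟩ ⟨false,1,⟨1,[(44,0),(0,0)]⟩,⟨0,[(47,0)]⟩⟩,.o ⟨false,1,⟨3,[(1,1),(0,0),(0,0),(9,0),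
  (0,0),(22,0)]⟩,⟨0,[(27,0)]⟩⟩,.o ⟨false,1,⟨0,[(3,0)]⟩,⟨13,[(5,5),(0,5),(0,1),(1,0),(2,2),(14,2),(9,
  2)]⟩⟩]⟩)) (.I [0,0,2,0,-1,-2,1] (.S ⟨1,0,[0,1,-1,-1,0,0,0,1],[0,-1,1],[1,0,-1,-2,0,0,0,1],(⟨0,
  [(25,0)]⟩,⟨0,[(35,0),(3,0)]⟩),⟨12,[(0,3),(1,0),(1,2),(1,0),(2,1),(1,1),(8,1),(4,11),(11,0),(5,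
  1)]⟩,.k,(.x 1 ⟨0,[(0,0)]⟩ ⟨5,[(2,3),(3,1),(20,1),(7,5),(1,0),(1,11),(4,6)]⟩),⟨false,1,⟨0,[(42,0),
  (2,0)]⟩,⟨0,[(43,0)]⟩⟩,⟨true,0,⟨0,[(47,0)]⟩,⟨0,[]⟩⟩,⟨true,0,⟨0,[]⟩,⟨0,[(47,0)]⟩⟩,⟨false,0,⟨0,[(43,
  0)]⟩,⟨0,[(42,0),(2,0)]⟩⟩,[.o ⟨false,0,⟨0,[(13,0)]⟩,⟨1,[(9,0),(22,0),(4,0),(7,0)]⟩⟩,.e ⟨false,2,⟨1,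
  [(11,1),(14,0),(0,0),(17,0)]⟩,⟨1,[(15,1),(17,0),(0,0),(8,3)]⟩⟩ ⟨false,1,⟨0,[(11,0),(31,0)]⟩,⟨1,
  [(9,0),(22,0),(0,1)]⟩⟩,.o ⟨false,0,⟨0,[(33,0)]⟩,⟨1,[(2,0),(3,0),(15,0),(14,0)]⟩⟩,.a ⟨true,(-1),⟨0,
  [(0,0),(34,0),(3,1)]⟩,⟨1,[(2,0),(3,0),(15,0),(21,0)]⟩⟩ ⟨true,1,⟨0,[(11,0)]⟩,⟨0,[(15,0),(17,0),(0,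
  0),(8,1)]⟩⟩ ⟨false,1,⟨0,[(11,0),(31,0)]⟩,⟨2,[(9,1),(4,0),(18,3),(0,1),(10,0)]⟩⟩]⟩) (.Q [0,0,0,0,0,
  1,0,0,0,-1,0,1] (.ed false [0,1,0,0,1] .k) (.Q [0,0,0,0,1,0,0,0,-1,-1,0,1] (.p true [0,0,0,0,1]
  [1] (⟨0,[(30,0)]⟩,⟨0,[(29,0)]⟩) .k 1 (⟨0,[]⟩,⟨0,[]⟩) .k .k) (.S ⟨1,0,[0,1],[0,0,0,0,1],[0,2],(⟨0,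
  [(31,0)]⟩,⟨0,[(30,0)]⟩),⟨1,[(1,0),(4,0),(20,0),(3,0)]⟩,.k,(.r 0 ⟨0,[(43,0)]⟩ ⟨3,[(4,2),(6,1),(6,
  1),(6,0),(3,2),(5,0),(11,0)]⟩),⟨true,0,⟨0,[(49,0)]⟩,⟨0,[]⟩⟩,⟨false,1,⟨1,[(28,0),(0,0),(17,0)]⟩,⟨0,
  []⟩⟩,⟨false,0,⟨0,[(45,0)]⟩,⟨0,[(44,0),(2,0)]⟩⟩,⟨true,0,⟨0,[(45,0)]⟩,⟨0,[(44,0)]⟩⟩,[.e ⟨false,0,⟨0,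
  [(42,0)]⟩,⟨0,[(47,0)]⟩⟩ ⟨false,0,⟨2,[(22,0),(19,0),(2,0)]⟩,⟨1,[(28,0),(0,0),(17,0)]⟩⟩,.o ⟨false,0,
  ⟨0,[(29,0)]⟩,⟨0,[(0,0)]⟩⟩,.o ⟨false,0,⟨0,[(29,0)]⟩,⟨0,[(0,0)]⟩⟩,.a ⟨true,(-1),⟨0,[(8,0),(1,0),(26,
  0),(3,1)]⟩,⟨1,[(0,0),(23,0),(3,0)]⟩⟩ ⟨false,0,⟨2,[(22,0),(19,0),(2,0)]⟩,⟨1,[(35,0),(0,0),(10,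
  1)]⟩⟩ ⟨true,0,⟨2,[(22,0),(19,0),(2,0)]⟩,⟨1,[(35,0),(0,0)]⟩⟩]⟩) (.R ⟨0,false,false,false,[1,0,0,0,
  -1],[0,0,1],[0,0,0,0,0,0,0,1],(⟨0,[(30,0)]⟩,⟨0,[(31,0)]⟩),(⟨0,[(38,0)]⟩,⟨0,[(37,0)]⟩),⟨0,[(1,0)]⟩,
  .k,.k,(.r (-1) ⟨13,[(13,3),(5,2),(3,2),(1,1),(8,0),(4,0),(7,5)]⟩ ⟨1,[(35,0),(0,0),(8,1),(3,1)]⟩),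
  .k,.k,.k,⟨false,1,⟨1,[(28,0),(0,0),(16,0)]⟩,⟨0,[]⟩⟩,⟨true,(-1),⟨0,[(0,0),(19,0)]⟩,⟨0,[(4,0)]⟩⟩,
  ⟨false,1,⟨5,[(4,3),(3,1),(9,5),(10,1),(9,0),(6,0)]⟩,⟨0,[(17,0),(29,0)]⟩⟩,⟨true,(-1),⟨0,[(0,0),(32,
  0)]⟩,⟨3,[(4,1),(6,0),(5,1),(1,0),(3,0),(4,1),(10,0)]⟩⟩,⟨false,0,⟨0,[]⟩,⟨0,[]⟩⟩,⟨false,0,⟨0,[]⟩,⟨0,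
  []⟩⟩,[.e ⟨false,1,⟨5,[(4,1),(3,1),(4,1),(4,3),(20,0),(5,3),(0,0)]⟩,⟨19,[(11,4),(5,3),(1,9),(5,7),
  (8,0),(4,3)]⟩⟩ ⟨false,0,⟨1,[(7,0),(0,0),(9,0),(10,0)]⟩,⟨3,[(4,1),(6,0),(5,1),(1,0),(3,0),(4,1),
  (10,0)]⟩⟩,.o ⟨false,1,⟨1,[(18,1),(20,0),(7,0)]⟩,⟨11,[(4,3),(6,0),(2,3),(2,3),(4,1),(11,2),(4,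
  3)]⟩⟩,.a ⟨true,1,⟨0,[(28,0)]⟩,⟨0,[(0,0)]⟩⟩ ⟨true,1,⟨5,[(4,3),(3,1),(9,5),(10,1),(9,0),(6,0)]⟩,⟨0,
  [(17,0)]⟩⟩ ⟨false,0,⟨1,[(0,1),(17,1),(20,0),(7,0)]⟩,⟨3,[(4,1),(6,0),(5,1),(1,0),(3,0),(4,1),(10,
  0)]⟩⟩,.o ⟨false,1,⟨0,[(5,0)]⟩,⟨13,[(7,5),(0,5),(0,1),(1,0),(2,2),(14,2),(9,2)]⟩⟩]⟩)) (.Q [0,-1,0,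
  2,1,0,-1,-1,-1,-1,1,1] (.p true [0,0,1] [1,0,0,0,-1] (⟨0,[(37,0)]⟩,⟨0,[(36,0)]⟩) .k 2 (⟨0,[(29,
  0)]⟩,⟨0,[(30,0)]⟩) .k (.r (-1) ⟨6,[(3,5),(3,0),(9,5),(10,4),(3,0),(8,2),(3,0)]⟩ ⟨0,[(16,0),(29,
  0)]⟩)) (.Q [0,0,0,0,1,0,0,0,-1,-1,0,1] (.p true [0,0,0,0,1] [1] (⟨0,[(31,0)]⟩,⟨0,[(30,0)]⟩) .k 1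
  (⟨0,[]⟩,⟨0,[]⟩) .k .k) (.S ⟨1,0,[],[1,0,0,0,-1],[0,-1],(⟨0,[(31,0)]⟩,⟨0,[(32,0)]⟩),⟨0,[(2,0)]⟩,.k,
  (.r (-1) ⟨13,[(14,3),(5,2),(3,2),(1,1),(8,0),(4,0),(7,5)]⟩ ⟨1,[(36,0),(0,0),(8,1),(3,1)]⟩),⟨false,
  1,⟨1,[(29,0),(0,0),(17,0)]⟩,⟨0,[]⟩⟩,⟨true,0,⟨0,[(50,0)]⟩,⟨0,[]⟩⟩,⟨true,0,⟨0,[(46,0)]⟩,⟨0,[(45,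
  0)]⟩⟩,⟨false,0,⟨0,[(46,0)]⟩,⟨0,[(45,0),(2,0)]⟩⟩,[.o ⟨false,1,⟨0,[(0,0)]⟩,⟨0,[(30,0)]⟩⟩,.a ⟨true,1,
  ⟨0,[(1,0),(9,0),(2,0),(23,0),(3,1)]⟩,⟨0,[(15,0),(3,0)]⟩⟩ ⟨true,1,⟨0,[(48,0)]⟩,⟨0,[(18,0),(15,0),
  (2,0)]⟩⟩ ⟨false,1,⟨1,[(47,0),(0,0)]⟩,⟨0,[(50,0)]⟩⟩,.o ⟨false,1,⟨0,[(0,0)]⟩,⟨0,[(30,0)]⟩⟩,.o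
  ⟨false,1,⟨0,[(6,0)]⟩,⟨13,[(8,5),(0,5),(0,1),(1,0),(2,2),(14,2),(9,2)]⟩⟩]⟩) (.S ⟨1,0,[],[1,0,0,0,
  -1],[0,-1],(⟨0,[(31,0)]⟩,⟨0,[(32,0)]⟩),⟨0,[(2,0)]⟩,.k,(.r (-1) ⟨13,[(14,3),(5,2),(3,2),(1,1),(8,
  0),(4,0),(7,5)]⟩ ⟨1,[(36,0),(0,0),(8,1),(3,1)]⟩),⟨false,1,⟨1,[(29,0),(0,0),(17,0)]⟩,⟨0,[]⟩⟩,⟨true,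
  0,⟨0,[(50,0)]⟩,⟨0,[]⟩⟩,⟨true,0,⟨0,[(46,0)]⟩,⟨0,[(45,0)]⟩⟩,⟨false,0,⟨0,[(46,0)]⟩,⟨0,[(45,0),(2,
  0)]⟩⟩,[.e ⟨false,1,⟨1,[(47,0),(0,0)]⟩,⟨0,[(50,0)]⟩⟩ ⟨false,1,⟨1,[(29,0),(0,0),(16,0)]⟩,⟨0,[]⟩⟩,.a
  ⟨true,1,⟨0,[(1,0),(9,0),(2,0),(23,0),(3,1)]⟩,⟨0,[(0,0),(49,0)]⟩⟩ ⟨true,1,⟨0,[(48,0)]⟩,⟨0,[(18,0),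
  (15,0),(2,0)]⟩⟩ ⟨false,1,⟨1,[(47,0),(0,0)]⟩,⟨0,[(50,0)]⟩⟩,.e ⟨false,1,⟨0,[(48,0)]⟩,⟨0,[(50,0)]⟩⟩
  ⟨false,1,⟨1,[(29,0),(0,0),(17,0)]⟩,⟨0,[]⟩⟩,.o ⟨false,1,⟨0,[(6,0)]⟩,⟨13,[(8,5),(0,5),(0,1),(1,0),
  (2,2),(14,2),(9,2)]⟩⟩]⟩)) (.R ⟨1,false,false,true,[1,0,0,0,-1],[1,-1,-1],[],(⟨0,[(30,0)]⟩,⟨0,[(31,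
  0)]⟩),(⟨0,[(26,0)]⟩,⟨0,[(38,0),(2,0)]⟩),⟨0,[(1,0)]⟩,.k,.k,(.r (-1) ⟨13,[(13,3),(5,2),(3,2),(1,1),
  (8,0),(4,0),(7,5)]⟩ ⟨1,[(35,0),(0,0),(8,1),(3,1)]⟩),(.r (-1) ⟨1,[(18,1),(17,1),(2,0),(5,1),(1,
  0)]⟩ ⟨19,[(16,7),(4,1),(0,2),(0,4),(1,5),(8,11),(4,2)]⟩),.k,.k,⟨true,1,⟨1,[(18,1),(17,1),(2,0),(5,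
  1),(1,0)]⟩,⟨0,[(16,0)]⟩⟩,⟨false,0,⟨1,[(8,0),(20,0),(6,0)]⟩,⟨6,[(5,2),(1,3),(3,0),(5,2),(5,1),(0,
  0),(3,3),(10,0)]⟩⟩,⟨true,0,⟨0,[(49,0)]⟩,⟨0,[]⟩⟩,⟨false,(-1),⟨6,[(3,1),(5,0),(4,3),(1,0),(2,0),(1,
  0),(14,0)]⟩,⟨0,[(4,0),(2,0),(37,0),(1,0)]⟩⟩,⟨false,0,⟨0,[(45,0)]⟩,⟨0,[(44,0),(2,0)]⟩⟩,⟨false,(-1),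
  ⟨0,[(14,0)]⟩,⟨0,[(4,0),(2,0),(39,0)]⟩⟩,[.o ⟨false,0,⟨11,[(4,3),(9,3),(1,3),(2,2),(1,1),(12,0),(4,
  3),(4,0)]⟩,⟨1,[(18,1),(20,0),(5,1),(1,0)]⟩⟩,.e ⟨false,1,⟨1,[(46,0),(0,0)]⟩,⟨0,[(49,0)]⟩⟩ ⟨false,0,
  ⟨4,[(9,3),(19,0),(4,0),(7,0),(1,0)]⟩,⟨0,[(4,0),(2,0),(37,0)]⟩⟩,.a ⟨true,1,⟨0,[(28,0)]⟩,⟨0,[(0,0),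
  (10,0)]⟩⟩ ⟨false,1,⟨1,[(28,0),(0,0),(17,0)]⟩,⟨0,[]⟩⟩ ⟨true,(-1),⟨6,[(3,1),(5,0),(4,3),(1,0),(2,0),
  (1,0),(14,0)]⟩,⟨0,[(4,0),(2,0),(37,0)]⟩⟩,.o ⟨false,1,⟨0,[(5,0)]⟩,⟨13,[(7,5),(0,5),(0,1),(1,0),(2,
  2),(14,2),(9,2)]⟩⟩]⟩))))) (.Q [0,0,0,0,0,-1,0,0,0,1,0,-1] (.ed true [0,1,0,0,1] .k) (.R ⟨1,false,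
  false,true,[1,0,0,0,-1],[0,0,1],[1,0,0,-1],(⟨0,[(27,0)]⟩,⟨0,[(28,0)]⟩),(⟨0,[(35,0)]⟩,⟨0,[(34,
  0)]⟩),⟨0,[(0,0)]⟩,.k,.k,(.r (-1) ⟨13,[(10,3),(5,2),(3,2),(1,1),(8,0),(4,0),(7,5)]⟩ ⟨1,[(32,0),(0,
  0),(8,1),(3,1)]⟩),.k,(.r (-1) ⟨7,[(8,0),(7,5),(3,3),(1,3),(8,0),(4,1),(7,1)]⟩ ⟨0,[(30,0),(2,0),(8,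
  0)]⟩),.k,⟨true,0,⟨0,[(13,0),(30,0)]⟩,⟨0,[(30,0),(2,0),(8,0)]⟩⟩,⟨false,(-1),⟨0,[(1,0)]⟩,⟨1,[(5,0),
  (19,2),(7,0),(2,0)]⟩⟩,⟨true,0,⟨0,[(41,0)]⟩,⟨0,[(42,0)]⟩⟩,⟨false,(-1),⟨0,[(1,0),(28,0),(2,0)]⟩,⟨1,
  [(2,1),(5,0),(7,0),(3,0),(23,0)]⟩⟩,⟨false,0,⟨0,[]⟩,⟨1,[(25,0),(0,0),(17,0)]⟩⟩,⟨false,(-1),⟨0,[(1,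
  0),(28,0),(2,0),(8,0)]⟩,⟨1,[(2,1),(5,0),(1,0),(2,0),(2,0),(27,1)]⟩⟩,[.o ⟨false,0,⟨0,[(30,0)]⟩,⟨3,
  [(8,0),(7,1),(14,0),(4,1),(7,1)]⟩⟩,.e ⟨false,1,⟨13,[(10,3),(5,2),(3,2),(1,1),(8,0),(4,0),(7,5)]⟩,
  ⟨0,[(42,0),(3,0)]⟩⟩ ⟨false,0,⟨1,[(4,0),(0,0),(9,0),(10,0)]⟩,⟨1,[(2,1),(5,0),(7,0),(2,0)]⟩⟩,.a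
  ⟨true,1,⟨0,[(25,0)]⟩,⟨0,[(1,0),(31,0)]⟩⟩ ⟨false,1,⟨0,[(41,0),(2,0)]⟩,⟨0,[(42,0)]⟩⟩ ⟨true,(-1),⟨0,
  [(1,0),(28,0),(2,0)]⟩,⟨1,[(2,1),(5,0),(7,0),(2,0)]⟩⟩,.o ⟨false,1,⟨0,[(2,0)]⟩,⟨5,[(1,1),(3,1),(20,
  1),(9,0),(6,0)]⟩⟩]⟩) (.R ⟨0,false,false,true,[1,0,0,0,-1],[0,0,1],[0,0,0,-1],(⟨0,[(27,0)]⟩,⟨0,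
  [(28,0)]⟩),(⟨0,[(35,0)]⟩,⟨0,[(34,0)]⟩),⟨0,[(0,0)]⟩,.k,.k,(.r (-1) ⟨13,[(10,3),(5,2),(3,2),(1,1),
  (8,0),(4,0),(7,5)]⟩ ⟨1,[(32,0),(0,0),(8,1),(3,1)]⟩),.k,.k,.k,⟨true,0,⟨0,[(13,0),(30,0)]⟩,⟨0,[(30,
  0),(2,0),(8,0)]⟩⟩,⟨false,(-1),⟨0,[(1,0)]⟩,⟨1,[(5,0),(19,2),(7,0),(2,0)]⟩⟩,⟨true,0,⟨0,[(41,0)]⟩,⟨0,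
  [(42,0)]⟩⟩,⟨false,(-1),⟨0,[(1,0),(28,0),(2,0)]⟩,⟨1,[(2,1),(5,0),(7,0),(3,0),(23,0)]⟩⟩,⟨false,0,⟨0,
  []⟩,⟨0,[]⟩⟩,⟨false,0,⟨0,[]⟩,⟨0,[]⟩⟩,[.o ⟨false,0,⟨0,[(30,0)]⟩,⟨3,[(8,0),(7,1),(14,0),(4,1),(7,
  1)]⟩⟩,.e ⟨false,1,⟨13,[(10,3),(5,2),(3,2),(1,1),(8,0),(4,0),(7,5)]⟩,⟨0,[(42,0),(3,0)]⟩⟩ ⟨false,0,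
  ⟨1,[(4,0),(0,0),(9,0),(10,0)]⟩,⟨1,[(2,1),(5,0),(7,0),(2,0)]⟩⟩,.a ⟨true,1,⟨0,[(25,0)]⟩,⟨0,[(1,0),
  (31,0)]⟩⟩ ⟨false,1,⟨0,[(41,0),(2,0)]⟩,⟨0,[(42,0)]⟩⟩ ⟨true,(-1),⟨0,[(1,0),(28,0),(2,0)]⟩,⟨1,[(2,1),
  (5,0),(7,0),(2,0)]⟩⟩,.o ⟨false,1,⟨0,[(2,0)]⟩,⟨5,[(1,1),(3,1),(20,1),(9,0),(6,0)]⟩⟩]⟩))))) (.Q [0,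
  0,0,0,0,2,0,0,0,-1,1] (.p true [0,0,1] [1] (⟨0,[(31,0)]⟩,⟨0,[(30,0)]⟩) .k 1 (⟨0,[]⟩,⟨0,[]⟩) .k
  .k) (.R ⟨0,false,false,false,[1,-1,-1],[0,0,1],[1,1],(⟨0,[(20,0)]⟩,⟨7,[(0,3),(4,0),(6,3),(0,1),
  (14,0),(3,3)]⟩),(⟨0,[(32,0)]⟩,⟨0,[(31,0)]⟩),⟨0,[(0,0)]⟩,.k,.k,(.r 0 ⟨0,[(10,0),(6,0)]⟩ ⟨1,[(12,1),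
  (9,0),(0,0),(5,0),(0,2),(2,0),(5,3)]⟩),(.x (-2) ⟨1,[(2,0),(17,1),(1,1),(0,0),(6,2),(0,1),(1,1)]⟩
  ⟨0,[(6,0)]⟩),.k,.k,⟨true,(-1),⟨0,[(11,0)]⟩,⟨1,[(12,1),(17,1),(2,0),(7,0)]⟩⟩,⟨false,0,⟨0,[(14,1),
  (3,0)]⟩,⟨1,[(2,0),(19,0),(7,2),(2,0)]⟩⟩,⟨true,0,⟨0,[(27,0),(2,0),(8,0)]⟩,⟨11,[(10,1),(0,5),(1,3),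
  (3,5),(1,1),(13,0),(7,0)]⟩⟩,⟨false,1,⟨1,[(12,3),(20,0),(5,1),(1,0)]⟩,⟨3,[(1,1),(3,0),(4,1),(2,2),
  (3,0),(15,0)]⟩⟩,⟨false,0,⟨0,[]⟩,⟨0,[]⟩⟩,⟨false,0,⟨0,[]⟩,⟨0,[]⟩⟩,[.e ⟨false,0,⟨2,[(16,0),(19,0),(2,
  0)]⟩,⟨1,[(22,0),(0,0),(17,0)]⟩⟩ ⟨false,1,⟨1,[(12,1),(5,0),(0,0),(13,0),(6,0)]⟩,⟨0,[(1,0)]⟩⟩,.o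
  ⟨false,1,⟨1,[(12,1),(20,0),(7,0)]⟩,⟨23,[(1,7),(3,0),(5,7),(4,1),(11,6),(4,7),(2,3)]⟩⟩,.e ⟨false,0,
  ⟨0,[]⟩,⟨1,[(22,0),(0,0),(17,0)]⟩⟩ ⟨false,1,⟨1,[(12,1),(5,0),(0,0),(13,0),(7,0)]⟩,⟨0,[(1,0)]⟩⟩,.a
  ⟨true,0,⟨1,[(29,0),(0,2)]⟩,⟨0,[(14,0),(3,0)]⟩⟩ ⟨true,0,⟨2,[(16,0),(19,0),(2,0)]⟩,⟨1,[(29,0),(0,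
  0)]⟩⟩ ⟨false,1,⟨1,[(12,1),(1,1),(3,1),(14,0),(7,0)]⟩,⟨1,[(1,1),(27,0),(0,0)]⟩⟩]⟩) (.Q [0,0,-1,0,
  -1,0,1,0,1,1,-1,-1] (.p false [0,0,1] [1,0,0,0,-1] (⟨0,[(32,0)]⟩,⟨0,[(31,0)]⟩) .k 2 (⟨0,[(24,0)]⟩,
  ⟨0,[(25,0)]⟩) .k (.r (-1) ⟨1,[(2,0),(19,1),(0,0),(3,1),(2,0)]⟩ ⟨0,[(11,0),(29,0)]⟩)) (.Q [0,0,-1,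
  0,-1,0,0,0,1,1,0,-1] (.p false [0,0,0,0,1] [1] (⟨0,[(26,0)]⟩,⟨0,[(25,0)]⟩) .k 1 (⟨0,[]⟩,⟨0,[]⟩)
  .k .k) (.Q [0,0,0,0,0,-1,0,0,0,1,0,-1] (.ed true [0,1,0,0,1] .k) (.S ⟨1,0,[],[1,0,0,0,-1],[0,-1],
  (⟨0,[(27,0)]⟩,⟨0,[(28,0)]⟩),⟨0,[(0,0)]⟩,.k,(.r (-1) ⟨13,[(10,3),(5,2),(3,2),(1,1),(8,0),(4,0),(7,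
  5)]⟩ ⟨1,[(32,0),(0,0),(8,1),(3,1)]⟩),⟨false,1,⟨1,[(25,0),(0,0),(17,0)]⟩,⟨0,[]⟩⟩,⟨true,0,⟨0,[(46,
  0)]⟩,⟨0,[]⟩⟩,⟨true,0,⟨0,[(42,0)]⟩,⟨0,[(41,0)]⟩⟩,⟨false,0,⟨0,[(42,0)]⟩,⟨0,[(41,0),(2,0)]⟩⟩,[.e
  ⟨false,1,⟨1,[(43,0),(0,0)]⟩,⟨0,[(46,0)]⟩⟩ ⟨false,1,⟨1,[(25,0),(0,0),(16,0)]⟩,⟨0,[]⟩⟩,.o ⟨false,2,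
  ⟨1,[(25,1),(10,0),(7,0)]⟩,⟨0,[(2,0),(1,0),(25,0)]⟩⟩,.e ⟨false,1,⟨0,[(44,0)]⟩,⟨0,[(46,0)]⟩⟩ ⟨false,
  1,⟨1,[(25,0),(0,0),(17,0)]⟩,⟨0,[]⟩⟩,.a ⟨true,1,⟨1,[(25,1),(6,0),(0,0)]⟩,⟨0,[(1,0)]⟩⟩ ⟨true,1,⟨1,
  [(43,0),(0,0)]⟩,⟨0,[(14,0),(15,0),(2,0)]⟩⟩ ⟨false,1,⟨1,[(43,0),(0,0)]⟩,⟨1,[(32,0),(0,0)]⟩⟩]⟩) (.Q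
  [0,0,0,0,1,0,-1,-1,-1,-1,1,1] (.p true [0,0,1] [1,0,0,0,-1] (⟨0,[(35,0)]⟩,⟨0,[(34,0)]⟩) .k 2 (⟨0,
  [(27,0)]⟩,⟨0,[(28,0)]⟩) .k (.r (-1) ⟨1,[(5,0),(19,1),(0,0),(3,1),(2,0)]⟩ ⟨0,[(14,0),(29,0)]⟩))
  (.R ⟨0,false,false,false,[1,0,0,0,-1],[0,0,1],[1,1],(⟨0,[(28,0)]⟩,⟨0,[(29,0)]⟩),(⟨0,[(36,0)]⟩,⟨0,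
  [(35,0)]⟩),⟨0,[(1,0)]⟩,.k,.k,(.r (-1) ⟨4,[(0,0),(6,0),(3,1),(11,0),(21,1)]⟩ ⟨1,[(33,0),(0,0),(8,
  1),(3,1)]⟩),.k,.k,.k,⟨true,(-1),⟨0,[(15,0)]⟩,⟨1,[(16,1),(17,1),(2,0),(7,0)]⟩⟩,⟨false,(-1),⟨0,[(3,
  0)]⟩,⟨1,[(6,0),(19,2),(7,0),(2,0)]⟩⟩,⟨false,0,⟨0,[(47,0)]⟩,⟨0,[(45,0)]⟩⟩,⟨true,(-1),⟨1,[(2,1),(28,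
  1),(1,0),(0,0)]⟩,⟨0,[(0,0)]⟩⟩,⟨false,0,⟨0,[]⟩,⟨0,[]⟩⟩,⟨false,0,⟨0,[]⟩,⟨0,[]⟩⟩,[.e ⟨false,0,⟨2,
  [(20,0),(19,0),(2,0)]⟩,⟨1,[(26,0),(0,0),(17,0)]⟩⟩ ⟨false,0,⟨5,[(3,1),(2,1),(9,5),(10,1),(9,0),(6,
  0)]⟩,⟨0,[(0,0)]⟩⟩,.o ⟨false,1,⟨1,[(16,1),(20,0),(7,0)]⟩,⟨3,[(0,0),(4,0),(6,0),(2,0),(21,0),(2,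
  0)]⟩⟩,.e ⟨false,0,⟨0,[]⟩,⟨1,[(26,0),(0,0),(17,0)]⟩⟩ ⟨false,0,⟨1,[(2,1),(13,1),(16,0),(0,0),(2,0),
  (7,0)]⟩,⟨0,[(0,0)]⟩⟩,.a ⟨true,1,⟨1,[(26,1),(6,0),(0,0)]⟩,⟨0,[(2,0)]⟩⟩ ⟨true,0,⟨2,[(20,0),(19,0),
  (2,0)]⟩,⟨1,[(33,0),(0,0)]⟩⟩ ⟨false,0,⟨1,[(2,1),(13,1),(20,0),(7,0)]⟩,⟨1,[(0,0),(4,0),(20,0),(6,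
  0)]⟩⟩]⟩) (.R ⟨0,false,false,false,[1,0,0,0,-1],[0,0,1],[0,0,1,0,0,0,0,1],(⟨0,[(28,0)]⟩,⟨0,[(29,
  0)]⟩),(⟨0,[(36,0)]⟩,⟨0,[(35,0)]⟩),⟨0,[(1,0)]⟩,.k,.k,(.r (-1) ⟨13,[(11,3),(5,2),(3,2),(1,1),(8,0),
  (4,0),(7,5)]⟩ ⟨1,[(33,0),(0,0),(8,1),(3,1)]⟩),.k,.k,.k,⟨true,0,⟨1,[(33,0),(0,0)]⟩,⟨0,[]⟩⟩,⟨false,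
  (-1),⟨0,[(3,0)]⟩,⟨1,[(6,0),(19,2),(7,0),(2,0)]⟩⟩,⟨true,0,⟨0,[(31,0),(2,0)]⟩,⟨19,[(9,4),(5,11),(5,
  9),(1,3),(8,2),(4,1)]⟩⟩,⟨false,(-1),⟨0,[(0,0)]⟩,⟨3,[(9,0),(7,1),(8,3),(5,0),(4,1),(7,1)]⟩⟩,⟨false,
  0,⟨0,[]⟩,⟨0,[]⟩⟩,⟨false,0,⟨0,[]⟩,⟨0,[]⟩⟩,[.a ⟨true,0,⟨0,[(16,0)]⟩,⟨3,[(9,0),(7,1),(14,0)]⟩⟩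
  ⟨false,1,⟨1,[(6,0),(9,1),(9,0),(7,0),(2,0)]⟩,⟨19,[(9,4),(5,11),(5,9),(1,3),(8,2),(4,1)]⟩⟩ ⟨true,
  (-1),⟨0,[(0,0)]⟩,⟨5,[(5,3),(9,1),(10,5),(6,1),(3,0),(7,0)]⟩⟩,.o ⟨false,1,⟨1,[(16,1),(20,0),(7,
  0)]⟩,⟨23,[(5,7),(3,0),(5,7),(4,1),(11,6),(4,7),(2,3)]⟩⟩,.a ⟨true,1,⟨0,[(26,0)]⟩,⟨6,[(0,3),(1,1),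
  (6,0),(2,0),(4,1),(5,0),(10,1)]⟩⟩ ⟨false,1,⟨1,[(16,1),(17,1),(2,0),(7,0)]⟩,⟨19,[(9,4),(5,11),(5,
  9),(1,3),(8,2),(4,1)]⟩⟩ ⟨true,(-1),⟨0,[(0,0)]⟩,⟨23,[(5,7),(3,0),(5,7),(4,1),(5,23),(5,6),(4,7),(2,
  3)]⟩⟩,.a ⟨true,1,⟨1,[(26,1),(6,0),(0,0)]⟩,⟨0,[(2,0)]⟩⟩ ⟨true,1,⟨1,[(6,0),(9,1),(9,0),(7,0),(2,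
  0)]⟩,⟨0,[(15,0)]⟩⟩ ⟨false,0,⟨1,[(0,1),(43,0),(0,0)]⟩,⟨5,[(5,3),(9,1),(10,5),(6,1),(3,0),(7,
  0)]⟩⟩]⟩))) (.Q [0,0,0,0,0,-1,0,0,0,1,0,-1] (.ed true [0,1,0,0,1] .k) (.R ⟨1,false,false,true,[1,0,
  0,0,-1],[0,0,1],[1,0,0,-1],(⟨0,[(27,0)]⟩,⟨0,[(28,0)]⟩),(⟨0,[(35,0)]⟩,⟨0,[(34,0)]⟩),⟨0,[(0,0)]⟩,.k,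
  .k,(.r (-1) ⟨13,[(1,1),(4,1),(3,3),(5,0),(3,2),(1,1),(8,0),(12,4)]⟩ ⟨1,[(32,0),(0,0),(8,1),(3,
  1)]⟩),.k,(.r (-1) ⟨7,[(1,3),(4,3),(1,0),(7,1),(3,3),(1,3),(8,0)]⟩ ⟨0,[(30,0),(2,0),(8,0)]⟩),.k,
  ⟨true,0,⟨0,[(13,0),(30,0)]⟩,⟨0,[(30,0),(2,0),(8,0)]⟩⟩,⟨false,(-1),⟨0,[(2,0)]⟩,⟨0,[(1,0),(3,0),(19,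
  0)]⟩⟩,⟨true,0,⟨0,[(41,0)]⟩,⟨0,[(42,0)]⟩⟩,⟨false,(-1),⟨0,[(2,0),(27,0),(2,0)]⟩,⟨1,[(1,1),(6,0),(7,
  0),(3,0),(23,0)]⟩⟩,⟨false,0,⟨0,[]⟩,⟨1,[(25,0),(0,0),(17,0)]⟩⟩,⟨false,(-1),⟨0,[(2,0),(27,0),(2,0),
  (8,0)]⟩,⟨2,[(1,2),(2,0),(8,0),(2,0),(3,0),(0,0),(22,2)]⟩⟩,[.o ⟨false,0,⟨0,[(30,0)]⟩,⟨3,[(1,1),(4,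
  1),(1,0),(22,0),(4,0),(7,0)]⟩⟩,.e ⟨false,1,⟨13,[(1,1),(4,1),(3,3),(5,0),(3,2),(1,1),(8,0),(12,
  4)]⟩,⟨0,[(42,0),(3,0)]⟩⟩ ⟨false,0,⟨5,[(2,1),(2,1),(9,5),(10,1),(9,0),(6,0)]⟩,⟨1,[(1,1),(6,0),(7,
  0),(2,0)]⟩⟩,.a ⟨true,1,⟨0,[(25,0)]⟩,⟨0,[(2,0),(30,0)]⟩⟩ ⟨false,1,⟨0,[(41,0),(2,0)]⟩,⟨0,[(42,0)]⟩⟩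
  ⟨true,(-1),⟨0,[(2,0),(27,0),(2,0)]⟩,⟨1,[(1,1),(6,0),(7,0),(2,0)]⟩⟩,.o ⟨false,1,⟨0,[(1,0)]⟩,⟨5,[(2,
  1),(2,1),(20,1),(9,0),(6,0)]⟩⟩]⟩) (.R ⟨0,false,false,true,[1,0,0,0,-1],[0,0,1],[0,0,0,-1],(⟨0,
  [(27,0)]⟩,⟨0,[(28,0)]⟩),(⟨0,[(35,0)]⟩,⟨0,[(34,0)]⟩),⟨0,[(0,0)]⟩,.k,.k,(.r (-1) ⟨13,[(1,1),(4,1),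
  (3,3),(5,0),(3,2),(1,1),(8,0),(12,4)]⟩ ⟨1,[(32,0),(0,0),(8,1),(3,1)]⟩),.k,.k,.k,⟨true,0,⟨0,[(13,
  0),(30,0)]⟩,⟨0,[(30,0),(2,0),(8,0)]⟩⟩,⟨false,(-1),⟨0,[(2,0)]⟩,⟨0,[(1,0),(3,0),(19,0)]⟩⟩,⟨true,0,
  ⟨0,[(41,0)]⟩,⟨0,[(42,0)]⟩⟩,⟨false,(-1),⟨0,[(2,0),(27,0),(2,0)]⟩,⟨1,[(1,1),(6,0),(7,0),(3,0),(23,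
  0)]⟩⟩,⟨false,0,⟨0,[]⟩,⟨0,[]⟩⟩,⟨false,0,⟨0,[]⟩,⟨0,[]⟩⟩,[.o ⟨false,0,⟨0,[(30,0)]⟩,⟨3,[(1,1),(4,1),
  (1,0),(22,0),(4,0),(7,0)]⟩⟩,.e ⟨false,1,⟨13,[(1,1),(4,1),(3,3),(5,0),(3,2),(1,1),(8,0),(12,4)]⟩,
  ⟨0,[(42,0),(3,0)]⟩⟩ ⟨false,0,⟨5,[(2,1),(2,1),(9,5),(10,1),(9,0),(6,0)]⟩,⟨1,[(1,1),(6,0),(7,0),(2,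
  0)]⟩⟩,.a ⟨true,1,⟨0,[(25,0)]⟩,⟨0,[(2,0),(30,0)]⟩⟩ ⟨false,1,⟨0,[(41,0),(2,0)]⟩,⟨0,[(42,0)]⟩⟩ ⟨true,
  (-1),⟨0,[(2,0),(27,0),(2,0)]⟩,⟨1,[(1,1),(6,0),(7,0),(2,0)]⟩⟩,.o ⟨false,1,⟨0,[(1,0)]⟩,⟨5,[(2,1),(2,
  1),(20,1),(9,0),(6,0)]⟩⟩]⟩))) (.Q [0,-1,0,0,1,0,0,0,-1,0,0,1] (.p true [0,0,0,0,1] [] (⟨0,[(26,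
  0)]⟩,⟨0,[(25,0)]⟩) .k 0 (⟨0,[]⟩,⟨0,[]⟩) .k .k) (.Q [0,0,0,0,0,-1,0,0,0,1,0,-1] (.ed true [0,1,0,0,
  1] .k) (.S ⟨1,0,[],[1,0,0,0,-1],[0,-1],(⟨0,[(27,0)]⟩,⟨0,[(28,0)]⟩),⟨0,[(0,0)]⟩,.k,(.r (-1) ⟨13,
  [(10,3),(5,2),(3,2),(1,1),(8,0),(4,0),(7,5)]⟩ ⟨1,[(32,0),(0,0),(8,1),(3,1)]⟩),⟨false,1,⟨1,[(25,0),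
  (0,0),(17,0)]⟩,⟨0,[]⟩⟩,⟨true,0,⟨0,[(46,0)]⟩,⟨0,[]⟩⟩,⟨true,0,⟨0,[(42,0)]⟩,⟨0,[(41,0)]⟩⟩,⟨false,0,
  ⟨0,[(42,0)]⟩,⟨0,[(41,0),(2,0)]⟩⟩,[.e ⟨false,1,⟨1,[(43,0),(0,0)]⟩,⟨0,[(46,0)]⟩⟩ ⟨false,1,⟨1,[(25,
  0),(0,0),(16,0)]⟩,⟨0,[]⟩⟩,.a ⟨true,1,⟨0,[(1,0)]⟩,⟨0,[(11,0),(3,0)]⟩⟩ ⟨true,1,⟨0,[(44,0)]⟩,⟨0,[(14,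
  0),(15,0),(2,0)]⟩⟩ ⟨false,1,⟨1,[(43,0),(0,0)]⟩,⟨0,[(46,0)]⟩⟩,.e ⟨false,1,⟨0,[(44,0)]⟩,⟨0,[(46,
  0)]⟩⟩ ⟨false,1,⟨1,[(25,0),(0,0),(17,0)]⟩,⟨0,[]⟩⟩,.o ⟨false,1,⟨4,[(1,1),(0,2),(11,0),(15,0),(1,1),
  (3,0)]⟩,⟨0,[(5,0),(11,0)]⟩⟩]⟩) (.Q [0,-1,0,1,1,0,-1,-1,-1,-1,1,1] (.p true [0,0,1] [1,0,0,0,-1]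
  (⟨0,[(35,0)]⟩,⟨0,[(34,0)]⟩) .k 2 (⟨0,[(27,0)]⟩,⟨0,[(28,0)]⟩) .k (.r (-1) ⟨6,[(2,5),(2,0),(9,5),
  (10,4),(3,0),(8,2),(3,0)]⟩ ⟨0,[(14,0),(29,0)]⟩)) (.S ⟨1,0,[0,1],[0,0,0,0,1],[0,2],(⟨0,[(29,0)]⟩,
  ⟨0,[(28,0)]⟩),⟨1,[(1,0),(2,0),(20,0),(3,0)]⟩,.k,(.r 0 ⟨0,[(41,0)]⟩ ⟨3,[(3,2),(5,1),(6,1),(6,0),(3,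
  2),(5,0),(11,0)]⟩),⟨true,0,⟨0,[(47,0)]⟩,⟨0,[]⟩⟩,⟨false,1,⟨1,[(26,0),(0,0),(17,0)]⟩,⟨0,[]⟩⟩,⟨false,
  0,⟨0,[(43,0)]⟩,⟨0,[(42,0),(2,0)]⟩⟩,⟨true,0,⟨0,[(43,0)]⟩,⟨0,[(42,0)]⟩⟩,[.e ⟨false,0,⟨0,[(40,0)]⟩,
  ⟨0,[(45,0)]⟩⟩ ⟨false,0,⟨2,[(20,0),(19,0),(2,0)]⟩,⟨1,[(26,0),(0,0),(17,0)]⟩⟩,.o ⟨false,0,⟨0,[(27,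
  0)]⟩,⟨0,[(0,0),(12,0)]⟩⟩,.o ⟨false,0,⟨0,[(27,0)]⟩,⟨0,[(0,0),(12,0)]⟩⟩,.a ⟨true,(-1),⟨0,[(6,0),(1,
  0),(26,0),(3,1)]⟩,⟨5,[(0,0),(1,4),(17,0),(1,0),(8,0),(8,1)]⟩⟩ ⟨false,0,⟨2,[(20,0),(19,0),(2,0)]⟩,
  ⟨1,[(33,0),(0,0),(10,1)]⟩⟩ ⟨true,0,⟨2,[(20,0),(19,0),(2,0)]⟩,⟨1,[(33,0),(0,0)]⟩⟩]⟩) (.Q [0,0,0,0,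
  -1,0,0,0,1,1,0,-1] (.p false [0,0,0,0,1] [1] (⟨0,[(29,0)]⟩,⟨0,[(28,0)]⟩) .k 1 (⟨0,[]⟩,⟨0,[]⟩) .k
  .k) (.R ⟨0,false,false,true,[1,0,0,0,-1],[1,-1],[0,1,0,-1],(⟨0,[(29,0)]⟩,⟨0,[(30,0)]⟩),(⟨0,[(39,
  0)]⟩,⟨0,[(40,0)]⟩),⟨0,[(2,0)]⟩,.k,.k,(.r (-1) ⟨13,[(12,3),(5,2),(3,2),(1,1),(8,0),(4,0),(7,5)]⟩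
  ⟨1,[(34,0),(0,0),(8,1),(3,1)]⟩),(.r (-1) ⟨3,[(4,2),(5,1),(6,1),(6,0),(3,2),(5,0),(11,0)]⟩ ⟨0,[(42,
  0)]⟩),.k,.k,⟨true,0,⟨1,[(34,0),(0,0)]⟩,⟨0,[]⟩⟩,⟨false,0,⟨0,[(28,0)]⟩,⟨2,[(3,2),(17,0),(19,0),(2,
  0)]⟩⟩,⟨false,0,⟨0,[(43,0)]⟩,⟨0,[(44,0),(1,0)]⟩⟩,⟨true,(-1),⟨0,[(13,0),(0,0)]⟩,⟨0,[(3,0),(40,0)]⟩⟩,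
  ⟨false,0,⟨0,[]⟩,⟨0,[]⟩⟩,⟨false,0,⟨0,[]⟩,⟨0,[]⟩⟩,[.e ⟨false,0,⟨0,[(42,0)]⟩,⟨1,[(27,0),(0,0),(15,1),
  (1,0)]⟩⟩ ⟨false,0,⟨4,[(20,1),(7,4),(12,0),(1,0)]⟩,⟨0,[(3,0),(40,0)]⟩⟩,.o ⟨false,1,⟨1,[(38,0),(4,
  1),(2,0)]⟩,⟨0,[(44,0)]⟩⟩,.a ⟨true,1,⟨0,[(27,0)]⟩,⟨0,[(0,0)]⟩⟩ ⟨true,0,⟨0,[(43,0)]⟩,⟨0,[(44,0)]⟩⟩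
  ⟨false,0,⟨3,[(1,1),(16,1),(9,1),(9,0),(7,0)]⟩,⟨0,[(3,0),(40,0)]⟩⟩,.o ⟨false,1,⟨4,[(3,1),(0,2),(11,
  0),(15,0),(1,1),(3,0)]⟩,⟨1,[(0,0),(22,0),(4,0),(9,0)]⟩⟩]⟩) (.R ⟨0,false,false,false,[1,0,0,0,-1],
  [0,0,1],[1],(⟨0,[(29,0)]⟩,⟨0,[(30,0)]⟩),(⟨0,[(37,0)]⟩,⟨0,[(36,0)]⟩),⟨0,[(2,0)]⟩,.k,.k,(.r (-1)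
  ⟨13,[(12,3),(5,2),(3,2),(1,1),(8,0),(4,0),(7,5)]⟩ ⟨1,[(34,0),(0,0),(8,1),(3,1)]⟩),.k,.k,.k,⟨false,
  0,⟨19,[(10,4),(5,11),(5,9),(1,3),(8,2),(4,1)]⟩,⟨5,[(4,3),(2,1),(9,5),(10,1),(9,0),(6,0)]⟩⟩,⟨true,
  (-1),⟨1,[(1,1),(8,0),(5,0),(2,0),(26,0)]⟩,⟨0,[(4,0)]⟩⟩,⟨false,0,⟨0,[]⟩,⟨1,[(27,0),(0,0),(17,0)]⟩⟩,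
  ⟨true,(-1),⟨0,[(1,0),(42,0)]⟩,⟨3,[(0,3),(9,0),(7,1),(14,0)]⟩⟩,⟨false,0,⟨0,[]⟩,⟨0,[]⟩⟩,⟨false,0,⟨0,
  []⟩,⟨0,[]⟩⟩,[.a ⟨true,0,⟨0,[(17,0)]⟩,⟨3,[(10,0),(7,1),(14,0)]⟩⟩ ⟨true,0,⟨0,[]⟩,⟨1,[(34,0),(0,
  0)]⟩⟩ ⟨false,0,⟨3,[(1,1),(15,1),(5,1),(4,1),(9,0),(5,1),(1,0)]⟩,⟨3,[(0,3),(9,0),(7,1),(14,0)]⟩⟩,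
  .o ⟨false,1,⟨1,[(17,1),(20,0),(7,0)]⟩,⟨23,[(6,7),(3,0),(5,7),(4,1),(11,6),(4,7),(2,3)]⟩⟩,.o
  ⟨false,1,⟨0,[(0,0)]⟩,⟨0,[(28,0)]⟩⟩,.o ⟨false,1,⟨1,[(0,0),(3,0),(29,0)]⟩,⟨6,[(1,2),(6,0),(1,1),(12,
  2),(4,2),(9,2)]⟩⟩]⟩)))) (.Q [0,0,0,0,0,1,0,0,0,-1,0,1] (.ed false [0,1,0,0,1] .k) (.R ⟨0,false,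
  false,false,[1,0,0,0,-1],[0,0,1],[0,0,0,0,0,0,0,1],(⟨0,[(27,0)]⟩,⟨0,[(28,0)]⟩),(⟨0,[(35,0)]⟩,⟨0,
  [(34,0)]⟩),⟨0,[(0,0)]⟩,.k,.k,(.r (-1) ⟨13,[(10,3),(5,2),(3,2),(1,1),(8,0),(4,0),(7,5)]⟩ ⟨1,[(32,
  0),(0,0),(8,1),(3,1)]⟩),.k,.k,.k,⟨false,1,⟨1,[(25,0),(0,0),(16,0)]⟩,⟨0,[]⟩⟩,⟨true,(-1),⟨4,[(1,3),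
  (5,0),(1,1),(16,0),(7,4),(9,1)]⟩,⟨0,[(2,0)]⟩⟩,⟨false,1,⟨5,[(2,3),(2,1),(9,5),(10,1),(9,0),(6,0)]⟩,
  ⟨0,[(14,0),(29,0)]⟩⟩,⟨true,(-1),⟨0,[(1,0),(13,0)]⟩,⟨3,[(2,1),(5,0),(5,1),(1,0),(3,0),(4,1),(10,
  0)]⟩⟩,⟨false,0,⟨0,[]⟩,⟨0,[]⟩⟩,⟨false,0,⟨0,[]⟩,⟨0,[]⟩⟩,[.e ⟨false,1,⟨5,[(2,1),(2,1),(4,1),(4,3),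
  (20,0),(5,3),(0,0)]⟩,⟨19,[(8,4),(5,3),(1,9),(5,7),(8,0),(4,3)]⟩⟩ ⟨false,0,⟨3,[(1,1),(13,3),(5,1),
  (4,1),(9,0),(7,0)]⟩,⟨3,[(2,1),(5,0),(5,1),(1,0),(3,0),(4,1),(10,0)]⟩⟩,.o ⟨false,1,⟨1,[(15,1),(20,
  0),(7,0)]⟩,⟨23,[(4,7),(3,0),(5,7),(4,1),(11,6),(4,7),(2,3)]⟩⟩,.a ⟨true,1,⟨0,[(25,0)]⟩,⟨0,[(1,0),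
  (5,0),(0,0),(1,0),(23,0),(3,1)]⟩⟩ ⟨true,1,⟨5,[(2,3),(2,1),(9,5),(10,1),(9,0),(6,0)]⟩,⟨0,[(14,
  0)]⟩⟩ ⟨false,0,⟨0,[(1,0),(13,0),(28,0)]⟩,⟨3,[(2,1),(5,0),(5,1),(1,0),(3,0),(4,1),(10,0)]⟩⟩,.o
  ⟨false,1,⟨0,[(2,0),(14,0)]⟩,⟨3,[(1,1),(19,1),(4,1),(9,0),(7,0)]⟩⟩]⟩) (.Q [0,-2,0,0,2,0,0,0,-1,-1,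
  0,1] (.p true [0,0,0,0,1] [1] (⟨0,[(28,0)]⟩,⟨0,[(27,0)]⟩) .k 1 (⟨0,[]⟩,⟨0,[]⟩) .k .k) (.R ⟨1,
  false,false,true,[1,0,-1],[0,0,0,0,1],[0,0,0,0,0,0,0,-1],(⟨0,[(35,0)]⟩,⟨0,[(36,0)]⟩),(⟨0,[(29,
  0)]⟩,⟨0,[(28,0)]⟩),⟨0,[(24,0)]⟩,.k,.k,.k,.k,(.r (-1) ⟨21,[(0,7),(6,7),(6,1),(2,4),(3,6),(1,9),(8,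
  6),(4,0)]⟩ ⟨0,[(31,0),(2,0),(8,0)]⟩),.k,⟨false,1,⟨2,[(0,0),(6,0),(1,0),(5,0),(5,0),(1,0),(21,0)]⟩,
  ⟨2,[(2,0),(0,0),(18,0),(8,2),(2,1),(5,0)]⟩⟩,⟨true,(-1),⟨4,[(2,3),(5,0),(1,1),(16,0),(7,4),(9,1)]⟩,
  ⟨0,[(3,0)]⟩⟩,⟨false,1,⟨1,[(26,0),(0,0),(17,0)]⟩,⟨0,[]⟩⟩,⟨false,(-1),⟨0,[(2,0),(13,0)]⟩,⟨3,[(0,3),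
  (8,0),(7,1),(14,0)]⟩⟩,⟨true,0,⟨0,[(43,0)]⟩,⟨0,[(42,0)]⟩⟩,⟨false,(-1),⟨0,[(2,0),(13,0),(26,0)]⟩,⟨0,
  [(0,0),(16,0)]⟩⟩,[.o ⟨false,(-1),⟨0,[(2,0),(44,0)]⟩,⟨0,[(0,0)]⟩⟩,.o ⟨false,(-1),⟨0,[(2,0)]⟩,⟨3,
  [(0,1),(25,2),(0,0),(9,0)]⟩⟩,.o ⟨false,1,⟨5,[(3,3),(2,1),(20,1),(9,0),(6,0)]⟩,⟨0,[(18,0)]⟩⟩,.a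
  ⟨true,0,⟨0,[(34,0)]⟩,⟨0,[(30,0)]⟩⟩ ⟨true,0,⟨6,[(0,0),(6,0),(1,0),(5,4),(5,0),(1,0),(20,1)]⟩,⟨0,
  [(31,0),(2,0)]⟩⟩ ⟨false,(-1),⟨1,[(2,1),(19,0),(0,0)]⟩,⟨0,[(3,0),(41,0)]⟩⟩]⟩) (.S ⟨1,0,[0,-1],[1,0,
  0,0,-1],[],(⟨0,[(28,0)]⟩,⟨0,[(29,0)]⟩),⟨0,[(1,0)]⟩,.k,(.r (-1) ⟨13,[(11,3),(5,2),(3,2),(1,1),(8,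
  0),(4,0),(7,5)]⟩ ⟨1,[(33,0),(0,0),(8,1),(3,1)]⟩),⟨true,0,⟨0,[(47,0)]⟩,⟨0,[]⟩⟩,⟨false,1,⟨1,[(26,0),
  (0,0),(17,0)]⟩,⟨0,[]⟩⟩,⟨false,0,⟨0,[(43,0)]⟩,⟨0,[(42,0),(2,0)]⟩⟩,⟨true,0,⟨0,[(43,0)]⟩,⟨0,[(42,
  0)]⟩⟩,[.o ⟨false,2,⟨1,[(26,1),(10,0),(7,0)]⟩,⟨0,[(2,0)]⟩⟩,.a ⟨true,2,⟨0,[(26,0),(18,0)]⟩,⟨0,[(0,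
  0)]⟩⟩ ⟨false,1,⟨1,[(44,0),(0,0)]⟩,⟨0,[(47,0)]⟩⟩ ⟨true,1,⟨0,[(45,0)]⟩,⟨2,[(0,1),(2,1),(11,0),(15,
  0),(1,0)]⟩⟩,.e ⟨false,1,⟨1,[(26,0),(0,0),(17,0)]⟩,⟨0,[]⟩⟩ ⟨false,1,⟨0,[(45,0)]⟩,⟨0,[(47,0)]⟩⟩,.o
  ⟨false,1,⟨0,[(3,0),(14,0)]⟩,⟨3,[(2,1),(19,1),(4,1),(9,0),(7,0)]⟩⟩]⟩))))))))))

theorem ok164 : chk K t164 l91 = true := by decide +kernel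

noncomputable def t165 : Tre :=
  (.Q [0,0,-1,0,0,0,0,0,1,0,0,-1] (.p false [0,0,0,0,1] [] (⟨0,[(20,0)]⟩,⟨0,[(19,0)]⟩) .k 0 (⟨0,[]⟩,
  ⟨0,[]⟩) .k .k) (.Q [0,0,0,0,0,2,0,0,0,-1,1] (.p true [0,0,1] [1] (⟨0,[(28,0)]⟩,⟨0,[(27,0)]⟩) .k 1
  (⟨0,[]⟩,⟨0,[]⟩) .k .k) (.Q [0,0,-1,0,0,0,2,1,0,1,-2] (.p false [0,0,1] [1,0,-1] (⟨0,[(29,0)]⟩,⟨0,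
  [(28,0)]⟩) .k 2 (⟨0,[(28,0)]⟩,⟨0,[(29,0)]⟩) .k (.r (-2) ⟨0,[(9,1),(17,1),(2,0),(6,0)]⟩ ⟨0,[(8,1),
  (29,0)]⟩)) (.R ⟨0,false,false,false,[1,-1,-1],[0,0,1],[1,1],(⟨0,[(18,0)]⟩,⟨0,[(1,0),(30,0)]⟩),(⟨0,
  [(30,0)]⟩,⟨0,[(29,0)]⟩),⟨0,[(1,0)]⟩,.k,.k,(.r 0 ⟨0,[(8,0),(6,0)]⟩ ⟨1,[(10,1),(9,0),(0,0),(5,0),(0,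
  2),(2,0),(5,3)]⟩),(.x (-2) ⟨1,[(18,1),(1,0),(0,0),(6,3),(0,1),(1,1),(6,0)]⟩ ⟨0,[(4,0)]⟩),.k,.k,
  ⟨true,(-1),⟨0,[(9,0)]⟩,⟨1,[(10,1),(17,1),(2,0),(7,0)]⟩⟩,⟨false,0,⟨2,[(0,1),(8,1),(6,1),(0,0),(13,
  0),(7,0)]⟩,⟨1,[(28,3),(2,0),(6,0)]⟩⟩,⟨true,0,⟨0,[(25,0),(2,0),(8,0)]⟩,⟨11,[(8,1),(0,5),(1,3),(3,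
  5),(1,1),(13,0),(7,0)]⟩⟩,⟨false,1,⟨1,[(10,3),(20,0),(5,1),(1,0)]⟩,⟨1,[(9,3),(5,1),(12,3),(2,0),(7,
  0)]⟩⟩,⟨false,0,⟨0,[]⟩,⟨0,[]⟩⟩,⟨false,0,⟨0,[]⟩,⟨0,[]⟩⟩,[.a ⟨true,0,⟨0,[(10,0)]⟩,⟨0,[(11,0),(25,
  0)]⟩⟩ ⟨false,0,⟨2,[(14,0),(19,0),(2,0)]⟩,⟨1,[(20,0),(0,0),(17,0)]⟩⟩ ⟨true,0,⟨0,[(0,0)]⟩,⟨1,[(9,1),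
  (18,3),(2,0),(7,0)]⟩⟩,.o ⟨false,1,⟨1,[(10,1),(20,0),(7,0)]⟩,⟨2,[(9,1),(6,0),(9,0),(1,1),(2,1)]⟩⟩,
  .a ⟨true,0,⟨0,[(28,0)]⟩,⟨0,[(24,0)]⟩⟩ ⟨false,0,⟨0,[]⟩,⟨1,[(20,0),(0,0),(17,0)]⟩⟩ ⟨true,0,⟨0,[(0,
  0)]⟩,⟨2,[(9,1),(6,0),(9,0),(1,4),(2,1)]⟩⟩,.a ⟨true,0,⟨1,[(27,0),(0,2)]⟩,⟨5,[(0,1),(8,1),(6,4),(0,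
  0),(13,0),(7,0)]⟩⟩ ⟨true,0,⟨2,[(14,0),(19,0),(2,0)]⟩,⟨1,[(27,0),(0,0)]⟩⟩ ⟨false,1,⟨1,[(0,1),(37,
  0),(0,0)]⟩,⟨1,[(9,1),(18,3),(2,0),(7,0)]⟩⟩]⟩) (.R ⟨0,false,false,false,[1,-1,-1],[0,0,1],[1,1],
  (⟨0,[(18,0)]⟩,⟨0,[(1,0),(30,0)]⟩),(⟨0,[(30,0)]⟩,⟨0,[(29,0)]⟩),⟨0,[(1,0)]⟩,.k,.k,(.r 0 ⟨0,[(8,0),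
  (6,0)]⟩ ⟨1,[(10,1),(9,0),(0,0),(5,0),(0,2),(2,0),(5,3)]⟩),(.x (-2) ⟨1,[(18,1),(1,0),(0,0),(6,3),
  (0,1),(1,1),(6,0)]⟩ ⟨0,[(4,0)]⟩),.k,.k,⟨true,(-1),⟨0,[(9,0)]⟩,⟨1,[(10,1),(17,1),(2,0),(7,0)]⟩⟩,
  ⟨false,0,⟨0,[(12,1),(3,0)]⟩,⟨1,[(28,3),(2,0),(6,0)]⟩⟩,⟨true,0,⟨0,[(25,0),(2,0),(8,0)]⟩,⟨11,[(8,1),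
  (0,5),(1,3),(3,5),(1,1),(13,0),(7,0)]⟩⟩,⟨false,1,⟨1,[(10,3),(20,0),(5,1),(1,0)]⟩,⟨5,[(0,3),(8,3),
  (1,3),(3,1),(15,0),(7,0)]⟩⟩,⟨false,0,⟨0,[]⟩,⟨0,[]⟩⟩,⟨false,0,⟨0,[]⟩,⟨0,[]⟩⟩,[.e ⟨false,0,⟨2,[(14,
  0),(19,0),(2,0)]⟩,⟨1,[(20,0),(0,0),(17,0)]⟩⟩ ⟨false,1,⟨1,[(10,1),(5,0),(0,0),(13,0),(6,0)]⟩,⟨0,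
  [(0,0)]⟩⟩,.o ⟨false,1,⟨1,[(10,1),(20,0),(7,0)]⟩,⟨10,[(0,3),(8,3),(6,0),(9,2),(4,3),(2,1)]⟩⟩,.e
  ⟨false,0,⟨0,[]⟩,⟨1,[(20,0),(0,0),(17,0)]⟩⟩ ⟨false,1,⟨1,[(10,1),(5,0),(0,0),(13,0),(7,0)]⟩,⟨0,[(0,
  0)]⟩⟩,.a ⟨true,0,⟨1,[(27,0),(0,2)]⟩,⟨0,[(12,0),(3,0)]⟩⟩ ⟨true,0,⟨2,[(14,0),(19,0),(2,0)]⟩,⟨1,[(27,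
  0),(0,0)]⟩⟩ ⟨false,1,⟨1,[(10,1),(1,1),(3,1),(14,0),(7,0)]⟩,⟨1,[(0,1),(26,0),(0,0)]⟩⟩]⟩)) (.Q [0,0,
  1,0,-1,0,0,0,1,0,0,-1] (.p false [0,0,0,0,1] [] (⟨0,[(22,0)]⟩,⟨0,[(21,0)]⟩) .k 0 (⟨0,[]⟩,⟨0,[]⟩)
  .k .k) (.Q [0,0,0,0,0,-1,0,0,0,0,0,1] (.ed false [1,-1,0,0,1] .k) (.S ⟨1,0,[0,2],[0,0,0,0,1],[1,1,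
  0,-1],(⟨0,[(24,0)]⟩,⟨0,[(23,0)]⟩),⟨0,[(0,0)]⟩,.k,(.r 0 ⟨0,[(36,0)]⟩ ⟨1,[(21,0),(0,0),(5,0),(0,0),
  (8,1),(1,0)]⟩),⟨false,1,⟨0,[(37,0),(2,0)]⟩,⟨0,[(38,0)]⟩⟩,⟨true,0,⟨0,[(42,0)]⟩,⟨0,[]⟩⟩,⟨true,0,⟨0,
  []⟩,⟨0,[(42,0)]⟩⟩,⟨false,0,⟨0,[(38,0)]⟩,⟨0,[(37,0),(2,0)]⟩⟩,[.e ⟨false,0,⟨4,[(14,1),(20,0),(1,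
  0)]⟩,⟨1,[(21,0),(0,0),(15,1),(1,0)]⟩⟩ ⟨false,0,⟨0,[(35,0)]⟩,⟨0,[(40,0)]⟩⟩,.o ⟨false,(-1),⟨2,[(1,
  1),(5,0),(7,0),(10,0),(11,0)]⟩,⟨1,[(21,1),(10,0),(7,0)]⟩⟩,.a ⟨true,(-1),⟨8,[(1,6),(3,0),(1,1),(3,
  1),(5,3),(11,1),(0,1),(2,0),(6,0)]⟩,⟨0,[(21,0)]⟩⟩ ⟨true,0,⟨0,[(37,0)]⟩,⟨0,[(38,0)]⟩⟩ ⟨false,0,⟨0,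
  [(42,0)]⟩,⟨0,[(40,0)]⟩⟩,.o ⟨false,(-1),⟨0,[(1,0)]⟩,⟨1,[(21,1),(10,0),(6,0)]⟩⟩]⟩) (.S ⟨1,0,[],[1,0,
  0,0,-1],[0,-1],(⟨0,[(23,0)]⟩,⟨0,[(24,0)]⟩),⟨1,[(0,0),(1,0),(17,0),(2,0)]⟩,.k,(.r (-1) ⟨13,[(6,3),
  (5,2),(3,2),(1,1),(8,0),(4,0),(7,5)]⟩ ⟨1,[(28,0),(0,0),(8,1),(3,1)]⟩),⟨false,1,⟨1,[(21,0),(0,0),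
  (17,0)]⟩,⟨0,[]⟩⟩,⟨true,0,⟨0,[(42,0)]⟩,⟨0,[]⟩⟩,⟨true,0,⟨0,[(38,0)]⟩,⟨0,[(37,0)]⟩⟩,⟨false,0,⟨0,[(38,
  0)]⟩,⟨0,[(37,0),(2,0)]⟩⟩,[.e ⟨false,1,⟨1,[(39,0),(0,0)]⟩,⟨0,[(42,0)]⟩⟩ ⟨false,1,⟨1,[(21,0),(0,0),
  (16,0)]⟩,⟨0,[]⟩⟩,.o ⟨false,2,⟨1,[(21,1),(10,0),(7,0)]⟩,⟨2,[(1,1),(5,0),(7,0),(10,0),(11,0)]⟩⟩,.e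
  ⟨false,1,⟨0,[(40,0)]⟩,⟨0,[(42,0)]⟩⟩ ⟨false,1,⟨1,[(21,0),(0,0),(17,0)]⟩,⟨0,[]⟩⟩,.a ⟨true,1,⟨1,[(21,
  1),(6,0),(0,0)]⟩,⟨0,[(1,0),(15,0)]⟩⟩ ⟨true,1,⟨1,[(39,0),(0,0)]⟩,⟨0,[(10,0),(15,0),(2,0)]⟩⟩ ⟨false,
  1,⟨1,[(39,0),(0,0)]⟩,⟨1,[(28,0),(0,0)]⟩⟩]⟩)) (.Q [0,2,0,0,-2,0,0,0,2,1,0,-2] (.p false [0,0,0,0,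
  1] [1,0,0,0,-1] (⟨0,[(23,0)]⟩,⟨0,[(22,0)]⟩) .k 2 (⟨0,[(22,0)]⟩,⟨0,[(23,0)]⟩) .k (.r 0 ⟨0,[(41,
  1)]⟩ ⟨0,[(39,0)]⟩)) (.Q [0,0,0,0,1,0,0,0,-1,-1,0,1] (.p true [0,0,0,0,1] [1] (⟨0,[(24,0)]⟩,⟨0,
  [(23,0)]⟩) .k 1 (⟨0,[]⟩,⟨0,[]⟩) .k .k) (.Q [0,0,0,0,0,-1,0,0,0,1,0,-1] (.ed true [0,1,0,0,1] .k)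
  (.Q [0,-1,0,0,1,0,0,0,-1,0,0,1] (.p true [0,0,0,0,1] [] (⟨0,[(26,0)]⟩,⟨0,[(25,0)]⟩) .k 0 (⟨0,[]⟩,
  ⟨0,[]⟩) .k .k) (.S ⟨1,0,[],[1,0,0,0,-1],[0,-1],(⟨0,[(26,0)]⟩,⟨0,[(27,0)]⟩),⟨0,[(1,0)]⟩,.k,(.r
  (-1) ⟨13,[(9,3),(5,2),(3,2),(1,1),(8,0),(4,0),(7,5)]⟩ ⟨1,[(31,0),(0,0),(8,1),(3,1)]⟩),⟨false,1,⟨1,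
  [(24,0),(0,0),(17,0)]⟩,⟨0,[]⟩⟩,⟨true,0,⟨0,[(45,0)]⟩,⟨0,[]⟩⟩,⟨true,0,⟨0,[(41,0)]⟩,⟨0,[(40,0)]⟩⟩,
  ⟨false,0,⟨0,[(41,0)]⟩,⟨0,[(40,0),(2,0)]⟩⟩,[.o ⟨false,1,⟨0,[(2,0)]⟩,⟨0,[(25,0)]⟩⟩,.a ⟨true,1,⟨0,
  [(0,0)]⟩,⟨1,[(3,0),(29,0),(0,0)]⟩⟩ ⟨true,1,⟨0,[(43,0)]⟩,⟨0,[(13,0),(15,0),(2,0)]⟩⟩ ⟨false,1,⟨1,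
  [(42,0),(0,0)]⟩,⟨0,[(45,0)]⟩⟩,.o ⟨false,1,⟨0,[(2,0)]⟩,⟨0,[(25,0)]⟩⟩,.o ⟨false,1,⟨1,[(2,1),(28,0),
  (0,0)]⟩,⟨0,[(6,0)]⟩⟩]⟩) (.R ⟨1,false,false,true,[1,0,-1],[1,0,0,0,-1],[1,1,0,-1,0,0,0,-1],(⟨0,
  [(33,0)]⟩,⟨0,[(34,0)]⟩),(⟨0,[(26,0)]⟩,⟨0,[(27,0)]⟩),⟨0,[(22,0)]⟩,.k,.k,.k,.k,(.r 0 ⟨19,[(12,7),(4,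
  1),(0,2),(0,4),(1,5),(8,11),(4,2)]⟩ ⟨1,[(14,1),(17,1),(2,0),(5,1),(1,0)]⟩),.k,⟨true,(-1),⟨0,[(12,
  0)]⟩,⟨1,[(14,1),(17,1),(2,0),(5,1),(1,0)]⟩⟩,⟨false,1,⟨1,[(2,1),(17,0),(0,0)]⟩,⟨0,[(6,0),(25,0)]⟩⟩,
  ⟨true,0,⟨0,[(40,0)]⟩,⟨0,[(41,0)]⟩⟩,⟨true,1,⟨0,[(2,0),(11,0)]⟩,⟨0,[(10,0)]⟩⟩,⟨false,0,⟨0,[]⟩,⟨1,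
  [(24,0),(0,0),(17,0)]⟩⟩,⟨true,1,⟨0,[(2,0),(11,0),(26,0)]⟩,⟨0,[(0,0),(14,0)]⟩⟩,[.o ⟨false,1,⟨0,[(2,
  0)]⟩,⟨0,[(25,0)]⟩⟩,.o ⟨false,2,⟨1,[(24,1),(10,0),(7,0)]⟩,⟨0,[(0,0)]⟩⟩,.o ⟨false,1,⟨1,[(32,1),(2,
  0),(6,0)]⟩,⟨0,[(16,0)]⟩⟩,.a ⟨true,0,⟨0,[(32,0)]⟩,⟨0,[(28,0)]⟩⟩ ⟨false,0,⟨11,[(12,1),(0,5),(1,3),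
  (3,5),(1,1),(13,0),(7,0)]⟩,⟨1,[(14,1),(17,1),(2,0),(5,1),(1,0)]⟩⟩ ⟨true,1,⟨1,[(2,1),(17,0),(0,
  0)]⟩,⟨0,[(0,0),(31,0)]⟩⟩]⟩)) (.Q [0,0,0,0,1,0,-1,0,-1,-1,1,1] (.p true [0,0,1] [1,0,0,0,-1] (⟨0,
  [(33,0)]⟩,⟨0,[(32,0)]⟩) .k 2 (⟨0,[(25,0)]⟩,⟨0,[(26,0)]⟩) .k (.r (-1) ⟨1,[(23,0),(0,0),(3,1),(2,1),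
  (9,0)]⟩ ⟨0,[(12,0),(29,0)]⟩)) (.Q [0,0,1,0,-1,0,1,0,1,1,-1,-1] (.p false [0,0,1] [1,0,0,0,-1] (⟨0,
  [(34,0)]⟩,⟨0,[(33,0)]⟩) .k 2 (⟨0,[(26,0)]⟩,⟨0,[(27,0)]⟩) .k (.r (-1) ⟨2,[(0,1),(13,1),(9,0),(0,2),
  (3,0),(2,0),(5,0)]⟩ ⟨0,[(13,0),(29,0)]⟩)) (.Q [0,0,0,-1,0,0,1,1,0,1,-1] (.p false [0,0,1] [1] (⟨0,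
  [(35,0)]⟩,⟨0,[(34,0)]⟩) .k 1 (⟨0,[]⟩,⟨0,[]⟩) .k .k) (.R ⟨0,false,false,true,[1,0,0,0,-1],[0,-1,1],
  [1,1],(⟨0,[(28,0)]⟩,⟨0,[(29,0)]⟩),(⟨0,[(25,0)]⟩,⟨0,[(35,0),(3,0)]⟩),⟨0,[(3,0)]⟩,.k,.k,(.r (-1)
  ⟨13,[(11,3),(5,2),(3,2),(1,1),(8,0),(4,0),(7,5)]⟩ ⟨1,[(33,0),(0,0),(8,1),(3,1)]⟩),(.r 0 ⟨1,[(15,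
  1),(17,0),(0,0),(8,1),(1,1)]⟩ ⟨5,[(2,0),(8,2),(4,0),(9,1),(0,2),(3,1),(2,1),(5,1)]⟩),.k,.k,⟨false,
  0,⟨9,[(15,5),(7,1),(8,3),(4,0),(5,9),(1,4)]⟩,⟨1,[(2,0),(8,0),(4,0),(10,0)]⟩⟩,⟨true,(-1),⟨0,[(1,
  0)]⟩,⟨0,[(2,0)]⟩⟩,⟨false,0,⟨0,[(47,0)]⟩,⟨0,[(45,0)]⟩⟩,⟨true,(-1),⟨1,[(0,0),(4,0),(7,0),(33,0)]⟩,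
  ⟨0,[(2,0),(12,0),(27,0),(1,0)]⟩⟩,⟨false,0,⟨0,[]⟩,⟨0,[]⟩⟩,⟨false,0,⟨0,[]⟩,⟨0,[]⟩⟩,[.o ⟨false,0,⟨0,
  [(13,0)]⟩,⟨2,[(2,0),(9,0),(2,0),(16,0),(4,0),(5,2),(1,2)]⟩⟩,.a ⟨true,0,⟨0,[(0,0)]⟩,⟨0,[(17,0),(25,
  1)]⟩⟩ ⟨true,0,⟨0,[]⟩,⟨1,[(33,0),(0,0)]⟩⟩ ⟨false,0,⟨0,[(0,0),(7,0)]⟩,⟨1,[(2,0),(1,0),(10,0),(16,0),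
  (10,1),(1,0)]⟩⟩,.o ⟨false,1,⟨0,[(4,0)]⟩,⟨0,[(27,0)]⟩⟩,.o ⟨false,1,⟨0,[(2,0),(30,0)]⟩,⟨0,[(8,
  0)]⟩⟩]⟩) (.R ⟨0,false,false,true,[1,0,0,0,-1],[1,0,1,0,-1],[1],(⟨0,[(28,0)]⟩,⟨0,[(29,0)]⟩),(⟨0,
  [(28,0),(7,0)]⟩,⟨1,[(3,1),(3,0),(27,0)]⟩),⟨0,[(3,0)]⟩,.k,.k,(.r (-1) ⟨13,[(11,3),(5,2),(3,2),(1,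
  1),(8,0),(4,0),(7,5)]⟩ ⟨1,[(33,0),(0,0),(8,1),(3,1)]⟩),.k,.k,.k,⟨false,0,⟨5,[(0,2),(14,1),(1,0),
  (3,1),(0,0),(0,1)]⟩,⟨0,[(2,0),(13,0),(10,0)]⟩⟩,⟨true,0,⟨0,[(18,0)]⟩,⟨0,[(34,0)]⟩⟩,⟨false,0,⟨0,[]⟩,
  ⟨1,[(26,0),(0,0),(17,0)]⟩⟩,⟨true,0,⟨0,[(31,0)]⟩,⟨17,[(0,6),(9,1),(6,6),(4,0),(9,3),(1,3),(0,3),(2,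
  1),(6,1)]⟩⟩,⟨false,0,⟨0,[]⟩,⟨0,[]⟩⟩,⟨false,0,⟨0,[]⟩,⟨0,[]⟩⟩,[.a ⟨true,1,⟨0,[(4,0),(11,0)]⟩,⟨1,[(5,
  0),(9,1),(6,0),(11,1),(10,1)]⟩⟩ ⟨true,0,⟨0,[]⟩,⟨1,[(33,0),(0,0)]⟩⟩ ⟨false,1,⟨1,[(16,1),(20,0),(6,
  0)]⟩,⟨17,[(0,6),(9,1),(6,6),(4,0),(9,3),(1,3),(0,3),(2,1),(6,1)]⟩⟩,.o ⟨false,2,⟨1,[(4,1),(11,1),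
  (20,0),(7,0)]⟩,⟨0,[(12,0)]⟩⟩,.o ⟨false,1,⟨0,[(4,0)]⟩,⟨0,[(27,0)]⟩⟩,.o ⟨false,1,⟨0,[(2,0),(30,0)]⟩,
  ⟨0,[(8,0)]⟩⟩]⟩)) (.R ⟨0,false,false,true,[1,0,0,0,-1],[1,0,1,0,-1],[1],(⟨0,[(27,0)]⟩,⟨0,[(28,
  0)]⟩),(⟨0,[(27,0),(7,0)]⟩,⟨1,[(2,1),(3,0),(27,0)]⟩),⟨0,[(2,0)]⟩,.k,.k,(.r (-1) ⟨13,[(10,3),(5,2),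
  (3,2),(1,1),(8,0),(4,0),(7,5)]⟩ ⟨1,[(32,0),(0,0),(8,1),(3,1)]⟩),.k,.k,.k,⟨false,0,⟨1,[(14,1),(28,
  0),(0,0)]⟩,⟨0,[(1,0),(13,0),(10,0)]⟩⟩,⟨true,0,⟨0,[(17,0)]⟩,⟨0,[(33,0)]⟩⟩,⟨false,0,⟨0,[]⟩,⟨1,[(25,
  0),(0,0),(17,0)]⟩⟩,⟨true,0,⟨0,[(30,0)]⟩,⟨0,[(16,0),(25,0)]⟩⟩,⟨false,0,⟨0,[]⟩,⟨0,[]⟩⟩,⟨false,0,⟨0,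
  []⟩,⟨0,[]⟩⟩,[.a ⟨true,1,⟨0,[(3,0),(11,0)]⟩,⟨1,[(4,0),(9,1),(6,0),(11,1),(10,1)]⟩⟩ ⟨true,0,⟨0,[]⟩,
  ⟨1,[(32,0),(0,0)]⟩⟩ ⟨false,1,⟨1,[(15,1),(20,0),(6,0)]⟩,⟨0,[(16,0),(25,0)]⟩⟩,.o ⟨false,2,⟨1,[(3,1),
  (11,1),(20,0),(7,0)]⟩,⟨0,[(11,0)]⟩⟩,.o ⟨false,1,⟨0,[(3,0)]⟩,⟨0,[(26,0)]⟩⟩,.o ⟨false,1,⟨0,[(1,0),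
  (30,0)]⟩,⟨0,[(7,0)]⟩⟩]⟩)) (.S ⟨1,0,[0,1],[0,0,0,0,1],[0,2],(⟨0,[(27,0)]⟩,⟨0,[(26,0)]⟩),⟨1,[(1,0),
  (3,0),(17,0),(3,0)]⟩,.k,(.r 0 ⟨0,[(39,0)]⟩ ⟨1,[(24,0),(0,0),(5,0),(0,0),(8,1),(1,0)]⟩),⟨true,0,⟨0,
  [(45,0)]⟩,⟨0,[]⟩⟩,⟨false,1,⟨1,[(24,0),(0,0),(17,0)]⟩,⟨0,[]⟩⟩,⟨false,0,⟨0,[(41,0)]⟩,⟨0,[(40,0),(2,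
  0)]⟩⟩,⟨true,0,⟨0,[(41,0)]⟩,⟨0,[(40,0)]⟩⟩,[.e ⟨false,0,⟨0,[(38,0)]⟩,⟨0,[(43,0)]⟩⟩ ⟨false,0,⟨2,[(18,
  0),(19,0),(2,0)]⟩,⟨1,[(24,0),(0,0),(17,0)]⟩⟩,.o ⟨false,0,⟨0,[(25,0)]⟩,⟨0,[(2,0)]⟩⟩,.o ⟨false,0,⟨0,
  [(25,0)]⟩,⟨0,[(2,0)]⟩⟩,.a ⟨true,(-1),⟨0,[(0,0),(31,0)]⟩,⟨0,[(4,0)]⟩⟩ ⟨false,0,⟨2,[(18,0),(19,0),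
  (2,0)]⟩,⟨1,[(31,0),(0,0),(10,1)]⟩⟩ ⟨true,0,⟨2,[(18,0),(19,0),(2,0)]⟩,⟨1,[(31,0),(0,0)]⟩⟩]⟩))) (.Q
  [0,0,1,0,1,0,0,0,-1,-1,0,1] (.p true [0,0,0,0,1] [1] (⟨0,[(25,0)]⟩,⟨0,[(24,0)]⟩) .k 1 (⟨0,[]⟩,⟨0,
  []⟩) .k .k) (.Q [0,2,0,0,-2,0,0,0,1,1,0,-1] (.p false [0,0,0,0,1] [1] (⟨0,[(26,0)]⟩,⟨0,[(25,0)]⟩)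
  .k 1 (⟨0,[]⟩,⟨0,[]⟩) .k .k) (.Q [0,0,0,0,0,-1,0,0,0,1,0,-1] (.ed true [0,1,0,0,1] .k) (.S ⟨1,0,[0,
  -1],[1,0,0,0,-1],[],(⟨0,[(27,0)]⟩,⟨0,[(28,0)]⟩),⟨0,[(0,0)]⟩,.k,(.r (-1) ⟨13,[(10,3),(5,2),(3,2),
  (1,1),(8,0),(4,0),(7,5)]⟩ ⟨1,[(32,0),(0,0),(8,1),(3,1)]⟩),⟨true,0,⟨0,[(46,0)]⟩,⟨0,[]⟩⟩,⟨false,1,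
  ⟨1,[(25,0),(0,0),(17,0)]⟩,⟨0,[]⟩⟩,⟨false,0,⟨0,[(42,0)]⟩,⟨0,[(41,0),(2,0)]⟩⟩,⟨true,0,⟨0,[(42,0)]⟩,
  ⟨0,[(41,0)]⟩⟩,[.o ⟨false,2,⟨1,[(25,1),(10,0),(7,0)]⟩,⟨1,[(1,0),(1,0),(32,0)]⟩⟩,.a ⟨true,2,⟨0,[(25,
  0),(18,0)]⟩,⟨0,[(1,0)]⟩⟩ ⟨false,1,⟨1,[(43,0),(0,0)]⟩,⟨0,[(46,0)]⟩⟩ ⟨true,1,⟨0,[(44,0)]⟩,⟨0,[(1,0),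
  (0,0)]⟩⟩,.e ⟨false,1,⟨1,[(25,0),(0,0),(17,0)]⟩,⟨0,[]⟩⟩ ⟨false,1,⟨0,[(44,0)]⟩,⟨0,[(46,0)]⟩⟩,.o
  ⟨false,1,⟨0,[(2,0)]⟩,⟨0,[(7,0)]⟩⟩]⟩) (.R ⟨0,false,false,true,[1,0,0,0,-1],[0,-1,1],[1,1,-1,-1,0,0,
  0,1],(⟨0,[(27,0)]⟩,⟨0,[(28,0)]⟩),(⟨0,[(24,0)]⟩,⟨0,[(34,0),(3,0)]⟩),⟨0,[(0,0)]⟩,.k,.k,(.r (-1) ⟨13,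
  [(10,3),(5,2),(3,2),(1,1),(8,0),(4,0),(7,5)]⟩ ⟨1,[(32,0),(0,0),(8,1),(3,1)]⟩),(.r 0 ⟨1,[(14,1),
  (17,0),(0,0),(8,1),(1,1)]⟩ ⟨7,[(10,3),(14,2),(0,2),(3,3),(2,3),(5,1),(3,0)]⟩),.k,.k,⟨true,0,⟨0,
  []⟩,⟨1,[(32,0),(0,0)]⟩⟩,⟨false,(-1),⟨0,[(3,0),(13,0)]⟩,⟨1,[(5,1),(27,1),(2,0),(6,0)]⟩⟩,⟨true,0,⟨0,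
  [(19,0),(10,0),(2,0)]⟩,⟨1,[(14,1),(17,0),(0,0),(8,1),(1,1)]⟩⟩,⟨false,(-1),⟨0,[(3,0),(8,0)]⟩,⟨1,
  [(5,1),(8,1),(18,1),(2,0),(5,1),(1,2)]⟩⟩,⟨false,0,⟨0,[]⟩,⟨0,[]⟩⟩,⟨false,0,⟨0,[]⟩,⟨0,[]⟩⟩,[.o
  ⟨false,0,⟨0,[(12,0)]⟩,⟨1,[(16,1),(19,0),(5,3),(1,0)]⟩⟩,.e ⟨false,1,⟨0,[(10,0),(31,0)]⟩,⟨3,[(14,1),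
  (16,1),(0,2),(0,0),(8,3),(1,1)]⟩⟩ ⟨false,0,⟨7,[(3,1),(0,0),(2,3),(0,1),(1,1),(4,3),(6,0),(21,1)]⟩,
  ⟨1,[(5,1),(8,1),(18,1),(2,0),(5,1),(1,0)]⟩⟩,.a ⟨true,1,⟨0,[(25,0)]⟩,⟨0,[(3,0)]⟩⟩ ⟨false,1,⟨3,[(10,
  1),(4,1),(17,1),(2,0),(6,0)]⟩,⟨1,[(14,1),(17,0),(0,0),(8,1),(1,1)]⟩⟩ ⟨true,(-1),⟨0,[(3,0),(8,0)]⟩,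
  ⟨1,[(5,1),(8,1),(18,1),(2,0),(5,1),(1,0)]⟩⟩,.o ⟨false,1,⟨0,[(2,0)]⟩,⟨0,[(7,0)]⟩⟩]⟩)) (.Q [0,0,0,0,
  0,-1,0,0,0,1,0,-1] (.ed true [0,1,0,0,1] .k) (.Q [0,2,0,1,-2,0,0,0,1,1,0,-1] (.p false [0,0,0,0,
  1] [1] (⟨0,[(28,0)]⟩,⟨0,[(27,0)]⟩) .k 1 (⟨0,[]⟩,⟨0,[]⟩) .k .k) (.R ⟨2,true,false,false,[0,1],[1,0,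
  0,0,-1],[1,0,1],(⟨0,[]⟩,⟨0,[]⟩),(⟨0,[(28,0)]⟩,⟨0,[(29,0)]⟩),⟨0,[]⟩,.k,.k,.k,(.r 0 ⟨5,[(0,1),(2,3),
  (12,1),(10,1),(4,1),(0,0),(0,0),(8,3)]⟩ ⟨7,[(2,0),(8,1),(5,1),(3,1),(1,0),(3,0),(17,1)]⟩),.k,.k,
  ⟨false,0,⟨0,[(47,0)]⟩,⟨1,[(44,0),(0,0)]⟩⟩,⟨true,1,⟨0,[(3,0)]⟩,⟨0,[(4,0)]⟩⟩,⟨false,1,⟨0,[(42,0),(2,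
  0)]⟩,⟨0,[(43,0)]⟩⟩,⟨true,2,⟨0,[(2,0),(39,0)]⟩,⟨0,[(0,0)]⟩⟩,⟨true,0,⟨0,[]⟩,⟨0,[(47,0)]⟩⟩,⟨false,2,
  ⟨0,[(2,0)]⟩,⟨2,[(4,0),(0,0),(10,0),(15,0)]⟩⟩,[]⟩) (.Q [0,2,0,2,-2,0,0,0,1,1,0,-1] (.p false [0,0,
  0,0,1] [1] (⟨0,[(29,0)]⟩,⟨0,[(28,0)]⟩) .k 1 (⟨0,[]⟩,⟨0,[]⟩) .k .k) (.R ⟨1,false,false,true,[1,-1],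
  [0,0,0,0,1],[1],(⟨0,[(39,0)]⟩,⟨0,[(40,0)]⟩),(⟨0,[(30,0)]⟩,⟨0,[(29,0)]⟩),⟨1,[(8,0),(17,0),(12,0)]⟩,
  .k,.k,(.r (-1) ⟨10,[(1,1),(10,3),(5,0),(1,3),(1,2),(1,1),(3,1),(4,2)]⟩ ⟨0,[(0,0),(2,0),(30,0),(0,
  0)]⟩),(.r (-1) ⟨17,[(1,1),(10,3),(5,2),(3,4),(1,1),(3,1),(4,0),(12,4)]⟩ ⟨5,[(0,2),(3,3),(19,0),(2,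
  1),(0,2),(6,1)]⟩),(.r (-1) ⟨0,[(20,0),(25,0)]⟩ ⟨1,[(0,1),(2,0),(0,1),(19,0),(3,0),(6,1)]⟩),.k,
  ⟨true,1,⟨0,[(46,0)]⟩,⟨4,[(0,2),(3,2),(5,1),(4,1),(19,1)]⟩⟩,⟨false,0,⟨0,[(23,0),(4,0)]⟩,⟨0,[(4,
  0)]⟩⟩,⟨true,0,⟨1,[(0,0),(2,0),(30,0),(0,0)]⟩,⟨0,[(42,0)]⟩⟩,⟨false,(-1),⟨5,[(0,2),(5,0),(10,1),(10,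
  0),(4,1),(12,1)]⟩,⟨0,[(1,0)]⟩⟩,⟨true,0,⟨1,[(0,1),(2,1),(30,0),(0,0)]⟩,⟨3,[(10,0),(7,0),(1,1),(22,
  0)]⟩⟩,⟨true,(-2),⟨0,[(0,0)]⟩,⟨0,[(1,0),(41,0)]⟩⟩,[.o ⟨false,(-1),⟨4,[(0,0),(3,0),(1,1),(3,0),(2,
  0),(24,0),(2,0)]⟩,⟨0,[(3,0)]⟩⟩,.e ⟨false,1,⟨1,[(45,0),(0,0)]⟩,⟨0,[(48,0)]⟩⟩ ⟨false,(-1),⟨1,[(0,0),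
  (4,0),(15,0),(0,0)]⟩,⟨5,[(3,2),(0,3),(19,0),(2,1),(0,2),(6,1)]⟩⟩,.a ⟨true,0,⟨1,[(34,0),(0,0)]⟩,⟨1,
  [(23,0),(12,0),(0,0)]⟩⟩ ⟨true,0,⟨0,[]⟩,⟨0,[(48,0)]⟩⟩ ⟨false,(-1),⟨1,[(6,0),(16,0)]⟩,⟨1,[(3,1),(30,
  0),(0,0)]⟩⟩,.e ⟨false,1,⟨1,[(45,0),(0,0)]⟩,⟨1,[(34,0),(0,0)]⟩⟩ ⟨false,(-1),⟨1,[(0,0),(4,0),(15,0),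
  (0,0)]⟩,⟨0,[(3,0),(30,0),(0,0)]⟩⟩]⟩) (.Q [0,-1,0,0,1,0,0,0,-1,0,0,1] (.p true [0,0,0,0,1] [] (⟨0,
  [(30,0)]⟩,⟨0,[(29,0)]⟩) .k 0 (⟨0,[]⟩,⟨0,[]⟩) .k .k) (.S ⟨1,0,[],[1,0,0,0,-1],[0,-1],(⟨0,[(30,0)]⟩,
  ⟨0,[(31,0)]⟩),⟨0,[(3,0)]⟩,.k,(.r (-1) ⟨9,[(1,0),(11,1),(5,0),(3,2),(1,0),(3,0),(4,0),(12,2)]⟩ ⟨1,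
  [(35,0),(0,0),(8,1),(3,1)]⟩),⟨false,1,⟨1,[(28,0),(0,0),(17,0)]⟩,⟨0,[]⟩⟩,⟨true,0,⟨0,[(49,0)]⟩,⟨0,
  []⟩⟩,⟨true,0,⟨0,[(45,0)]⟩,⟨0,[(44,0)]⟩⟩,⟨false,0,⟨0,[(45,0)]⟩,⟨4,[(1,1),(16,1),(0,0),(9,1),(4,0),
  (12,0)]⟩⟩,[.e ⟨false,1,⟨1,[(46,0),(0,0)]⟩,⟨0,[(49,0)]⟩⟩ ⟨false,1,⟨1,[(28,0),(0,0),(16,0)]⟩,⟨0,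
  []⟩⟩,.a ⟨true,1,⟨0,[(0,0)]⟩,⟨2,[(6,0),(0,0),(10,0),(15,0)]⟩⟩ ⟨true,1,⟨0,[(47,0)]⟩,⟨0,[(17,0),(15,
  0),(2,0)]⟩⟩ ⟨false,1,⟨1,[(46,0),(0,0)]⟩,⟨0,[(49,0)]⟩⟩,.e ⟨false,1,⟨0,[(47,0)]⟩,⟨0,[(49,0)]⟩⟩
  ⟨false,1,⟨1,[(28,0),(0,0),(17,0)]⟩,⟨0,[]⟩⟩,.o ⟨false,1,⟨0,[(5,0)]⟩,⟨0,[(10,0)]⟩⟩]⟩) (.R ⟨1,false,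
  false,false,[1,0,-1],[1,0,0,0,-1],[1,0,0,-1,0,0,0,-1],(⟨0,[(37,0)]⟩,⟨0,[(38,0)]⟩),(⟨0,[(30,0)]⟩,
  ⟨0,[(31,0)]⟩),⟨0,[(26,0)]⟩,.k,.k,.k,.k,(.r 0 ⟨19,[(16,7),(4,1),(0,2),(0,4),(1,5),(8,11),(4,2)]⟩
  ⟨1,[(18,1),(17,1),(2,0),(5,1),(1,0)]⟩),.k,⟨true,(-1),⟨0,[(16,0)]⟩,⟨1,[(18,1),(17,1),(2,0),(5,1),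
  (1,0)]⟩⟩,⟨false,1,⟨0,[(8,0),(11,0)]⟩,⟨0,[(10,0),(25,0)]⟩⟩,⟨false,1,⟨4,[(1,1),(16,1),(0,0),(9,1),
  (4,0),(12,0)]⟩,⟨0,[(45,0)]⟩⟩,⟨false,2,⟨0,[(4,0),(13,0)]⟩,⟨0,[(14,0)]⟩⟩,⟨true,0,⟨0,[]⟩,⟨0,[(49,
  0)]⟩⟩,⟨false,2,⟨0,[(4,0),(13,0),(26,0)]⟩,⟨0,[(0,0),(18,0)]⟩⟩,[.o ⟨false,2,⟨3,[(4,2),(0,0),(22,0),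
  (0,0),(12,0)]⟩,⟨0,[(0,0)]⟩⟩,.o ⟨false,2,⟨0,[(4,0)]⟩,⟨2,[(0,1),(4,0),(1,0),(34,0)]⟩⟩,.o ⟨false,1,
  ⟨1,[(36,1),(2,0),(6,0)]⟩,⟨0,[(20,0)]⟩⟩,.a ⟨true,0,⟨0,[(36,0)]⟩,⟨0,[(32,0)]⟩⟩ ⟨true,0,⟨11,[(16,1),
  (0,5),(1,3),(3,5),(1,1),(13,0),(7,0)]⟩,⟨0,[(33,0),(2,0),(8,0)]⟩⟩ ⟨false,2,⟨1,[(4,1),(19,0),(0,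
  0)]⟩,⟨0,[(0,0),(35,0)]⟩⟩]⟩)))) (.R ⟨0,false,false,true,[1,0,0,0,-1],[0,-1,1],[1,1,-1,-1,0,0,0,1],
  (⟨0,[(27,0)]⟩,⟨0,[(28,0)]⟩),(⟨0,[(24,0)]⟩,⟨0,[(34,0),(3,0)]⟩),⟨0,[(0,0)]⟩,.k,.k,(.r (-1) ⟨7,[(1,
  0),(8,1),(5,1),(3,1),(1,0),(3,0),(17,1)]⟩ ⟨1,[(32,0),(0,0),(8,1),(3,1)]⟩),(.r 0 ⟨1,[(14,1),(17,0),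
  (0,0),(8,1),(1,1)]⟩ ⟨5,[(1,0),(8,2),(4,0),(9,0),(0,1),(3,1),(2,2),(5,2)]⟩),.k,.k,⟨true,0,⟨0,[]⟩,
  ⟨1,[(32,0),(0,0)]⟩⟩,⟨false,(-1),⟨0,[(3,0),(13,0)]⟩,⟨1,[(5,1),(27,1),(2,0),(6,0)]⟩⟩,⟨true,0,⟨0,
  [(19,0),(10,0),(2,0)]⟩,⟨1,[(14,1),(17,0),(0,0),(8,1),(1,1)]⟩⟩,⟨false,(-1),⟨0,[(3,0),(8,0)]⟩,⟨0,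
  [(1,0),(14,0),(25,1)]⟩⟩,⟨false,0,⟨0,[]⟩,⟨0,[]⟩⟩,⟨false,0,⟨0,[]⟩,⟨0,[]⟩⟩,[.o ⟨false,0,⟨0,[(12,0)]⟩,
  ⟨0,[(1,0),(9,0),(30,0)]⟩⟩,.e ⟨false,1,⟨0,[(10,0),(31,0)]⟩,⟨3,[(14,1),(16,1),(0,2),(0,0),(8,3),(1,
  1)]⟩⟩ ⟨false,0,⟨7,[(3,1),(0,0),(2,3),(0,1),(1,1),(4,3),(6,0),(21,1)]⟩,⟨3,[(1,1),(3,2),(5,0),(2,2),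
  (18,2),(2,0),(5,3)]⟩⟩,.a ⟨true,1,⟨0,[(25,0)]⟩,⟨0,[(3,0)]⟩⟩ ⟨false,1,⟨6,[(1,0),(8,3),(4,0),(10,0),
  (3,1),(2,2),(8,0),(0,0)]⟩,⟨1,[(14,1),(17,0),(0,0),(8,1),(1,1)]⟩⟩ ⟨true,(-1),⟨0,[(3,0),(8,0)]⟩,⟨3,
  [(1,1),(3,2),(5,0),(2,2),(18,2),(2,0),(5,3)]⟩⟩,.o ⟨false,1,⟨0,[(2,0)]⟩,⟨0,[(7,0)]⟩⟩]⟩))) (.Q [0,0,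
  0,0,0,-1,0,0,0,1,0,-1] (.ed true [0,1,0,0,1] .k) (.S ⟨1,0,[],[1,0,0,0,-1],[0,-1],(⟨0,[(26,0)]⟩,⟨0,
  [(27,0)]⟩),⟨0,[(0,0)]⟩,.k,(.r (-1) ⟨13,[(9,3),(5,2),(3,2),(1,1),(8,0),(4,0),(7,5)]⟩ ⟨1,[(31,0),(0,
  0),(8,1),(3,1)]⟩),⟨false,1,⟨1,[(24,0),(0,0),(17,0)]⟩,⟨0,[]⟩⟩,⟨true,0,⟨0,[(45,0)]⟩,⟨0,[]⟩⟩,⟨true,0,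
  ⟨0,[(41,0)]⟩,⟨0,[(40,0)]⟩⟩,⟨false,0,⟨0,[(41,0)]⟩,⟨0,[(40,0),(2,0)]⟩⟩,[.e ⟨false,1,⟨1,[(42,0),(0,
  0)]⟩,⟨0,[(45,0)]⟩⟩ ⟨false,1,⟨1,[(24,0),(0,0),(16,0)]⟩,⟨0,[]⟩⟩,.o ⟨false,2,⟨1,[(24,1),(10,0),(7,
  0)]⟩,⟨1,[(1,0),(0,0),(10,0),(15,0),(2,0),(2,0)]⟩⟩,.e ⟨false,1,⟨0,[(43,0)]⟩,⟨0,[(45,0)]⟩⟩ ⟨false,1,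
  ⟨1,[(24,0),(0,0),(17,0)]⟩,⟨0,[]⟩⟩,.a ⟨true,1,⟨1,[(24,1),(6,0),(0,0)]⟩,⟨0,[(1,0)]⟩⟩ ⟨true,1,⟨1,
  [(42,0),(0,0)]⟩,⟨0,[(13,0),(15,0),(2,0)]⟩⟩ ⟨false,1,⟨1,[(42,0),(0,0)]⟩,⟨1,[(31,0),(0,0)]⟩⟩]⟩) (.R
  ⟨0,false,false,false,[1,0,0,0,-1],[0,0,1],[1,1],(⟨0,[(26,0)]⟩,⟨0,[(27,0)]⟩),(⟨0,[(34,0)]⟩,⟨0,[(33,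
  0)]⟩),⟨0,[(0,0)]⟩,.k,.k,(.r (-1) ⟨13,[(9,3),(5,2),(3,2),(1,1),(8,0),(4,0),(7,5)]⟩ ⟨1,[(31,0),(0,
  0),(8,1),(3,1)]⟩),.k,.k,.k,⟨true,(-1),⟨0,[(13,0)]⟩,⟨1,[(14,1),(17,1),(2,0),(7,0)]⟩⟩,⟨false,(-1),
  ⟨0,[(1,0),(14,0)]⟩,⟨1,[(24,1),(7,1),(2,0),(6,0)]⟩⟩,⟨false,0,⟨0,[(45,0)]⟩,⟨0,[(43,0)]⟩⟩,⟨true,(-1),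
  ⟨0,[(2,0),(26,0)]⟩,⟨1,[(4,1),(8,1),(18,1),(2,0),(7,0)]⟩⟩,⟨false,0,⟨0,[]⟩,⟨0,[]⟩⟩,⟨false,0,⟨0,[]⟩,
  ⟨0,[]⟩⟩,[.e ⟨false,0,⟨2,[(18,0),(19,0),(2,0)]⟩,⟨1,[(24,0),(0,0),(17,0)]⟩⟩ ⟨false,0,⟨0,[(6,0),(7,
  0)]⟩,⟨1,[(4,1),(8,1),(18,1),(2,0),(7,0)]⟩⟩,.o ⟨false,1,⟨1,[(14,1),(20,0),(7,0)]⟩,⟨1,[(4,0),(5,0),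
  (2,0),(18,0),(2,0)]⟩⟩,.e ⟨false,0,⟨0,[]⟩,⟨1,[(24,0),(0,0),(17,0)]⟩⟩ ⟨false,0,⟨1,[(2,1),(11,1),(20,
  0),(7,0)]⟩,⟨1,[(4,1),(8,1),(18,1),(2,0),(7,0)]⟩⟩,.a ⟨true,1,⟨1,[(24,1),(6,0),(0,0)]⟩,⟨0,[(1,0)]⟩⟩
  ⟨true,0,⟨2,[(18,0),(19,0),(2,0)]⟩,⟨1,[(31,0),(0,0)]⟩⟩ ⟨false,0,⟨1,[(1,1),(12,1),(20,0),(7,0)]⟩,⟨1,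
  [(13,1),(10,1),(7,1),(2,0),(7,0)]⟩⟩]⟩)))) (.Q [0,0,0,0,0,-1,0,0,0,1,0,-1] (.ed true [0,1,0,0,1]
  .k) (.S ⟨1,0,[],[1,0,0,0,-1],[0,-1],(⟨0,[(24,0)]⟩,⟨0,[(25,0)]⟩),⟨0,[(0,0)]⟩,.k,(.r (-1) ⟨13,[(7,
  3),(5,2),(3,2),(1,1),(8,0),(4,0),(7,5)]⟩ ⟨1,[(29,0),(0,0),(8,1),(3,1)]⟩),⟨false,1,⟨1,[(22,0),(0,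
  0),(17,0)]⟩,⟨0,[]⟩⟩,⟨true,0,⟨0,[(43,0)]⟩,⟨0,[]⟩⟩,⟨true,0,⟨0,[(39,0)]⟩,⟨0,[(38,0)]⟩⟩,⟨false,0,⟨0,
  [(39,0)]⟩,⟨0,[(38,0),(2,0)]⟩⟩,[.o ⟨false,1,⟨3,[(1,1),(9,0),(15,0),(2,0),(2,0),(2,0)]⟩,⟨0,[(23,
  0)]⟩⟩,.a ⟨true,1,⟨17,[(1,6),(4,1),(11,0),(3,3),(7,3),(0,3),(2,1),(6,1)]⟩,⟨0,[(8,0),(3,0)]⟩⟩ ⟨true,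
  1,⟨0,[(41,0)]⟩,⟨0,[(11,0),(15,0),(2,0)]⟩⟩ ⟨false,1,⟨1,[(40,0),(0,0)]⟩,⟨0,[(43,0)]⟩⟩,.o ⟨false,1,
  ⟨3,[(1,1),(9,0),(15,0),(2,0),(2,0),(2,0)]⟩,⟨0,[(23,0)]⟩⟩,.o ⟨false,1,⟨2,[(1,0),(9,0),(10,0),(4,0),
  (1,0),(0,1),(2,0)]⟩,⟨0,[(4,0)]⟩⟩]⟩) (.Q [0,0,1,0,0,0,1,0,-1,0,-1,1] (.p false [0,0,1] [0,0,0,0,1]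
  (⟨0,[(32,0)]⟩,⟨0,[(31,0)]⟩) .k 2 (⟨0,[(25,0)]⟩,⟨0,[(24,0)]⟩) .k (.r (-2) ⟨1,[(12,1),(9,0),(0,0),
  (6,1),(2,0),(6,0),(0,0)]⟩ ⟨0,[(10,0),(28,0)]⟩)) (.R ⟨0,false,false,false,[1,0,0,0,-1],[1,0,-1],
  [1],(⟨0,[(25,0)]⟩,⟨0,[(26,0)]⟩),(⟨0,[(32,0)]⟩,⟨0,[(33,0)]⟩),⟨0,[(1,0)]⟩,.k,.k,(.r (-1) ⟨13,[(8,3),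
  (5,2),(3,2),(1,1),(8,0),(4,0),(7,5)]⟩ ⟨1,[(30,0),(0,0),(8,1),(3,1)]⟩),.k,.k,.k,⟨false,1,⟨3,[(8,1),
  (4,1),(17,1),(2,0),(5,3),(0,0)]⟩,⟨9,[(12,5),(7,1),(8,3),(4,0),(7,4)]⟩⟩,⟨true,0,⟨0,[(5,0),(25,0)]⟩,
  ⟨0,[(0,0)]⟩⟩,⟨false,0,⟨0,[]⟩,⟨1,[(23,0),(0,0),(17,0)]⟩⟩,⟨true,(-1),⟨0,[(9,0)]⟩,⟨2,[(2,0),(10,0),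
  (9,0),(4,1)]⟩⟩,⟨false,0,⟨0,[]⟩,⟨0,[]⟩⟩,⟨false,0,⟨0,[]⟩,⟨0,[]⟩⟩,[.a ⟨true,0,⟨0,[(14,0),(25,0)]⟩,⟨0,
  [(13,0)]⟩⟩ ⟨true,0,⟨0,[]⟩,⟨1,[(30,0),(0,0)]⟩⟩ ⟨false,0,⟨1,[(9,1),(31,0),(0,0)]⟩,⟨2,[(2,0),(10,0),
  (9,0),(4,1)]⟩⟩,.o ⟨false,1,⟨2,[(2,0),(6,1),(19,0),(4,0),(7,1)]⟩,⟨0,[(28,0)]⟩⟩,.o ⟨false,1,⟨3,[(2,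
  1),(9,0),(15,0),(2,0),(2,0),(2,0)]⟩,⟨0,[(24,0)]⟩⟩,.o ⟨false,1,⟨1,[(0,0),(22,0),(7,0),(2,0)]⟩,⟨0,
  [(5,0)]⟩⟩]⟩) (.R ⟨0,false,false,true,[1,0,0,0,-1],[1,0,1,0,-1],[1],(⟨0,[(25,0)]⟩,⟨0,[(26,0)]⟩),
  (⟨0,[(25,0),(7,0)]⟩,⟨1,[(1,1),(2,0),(27,0)]⟩),⟨0,[(1,0)]⟩,.k,.k,(.r (-1) ⟨13,[(8,3),(5,2),(3,2),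
  (1,1),(8,0),(4,0),(7,5)]⟩ ⟨1,[(30,0),(0,0),(8,1),(3,1)]⟩),.k,.k,.k,⟨false,0,⟨1,[(12,1),(28,0),(0,
  0)]⟩,⟨1,[(0,0),(12,1),(9,0),(7,0),(2,0)]⟩⟩,⟨true,0,⟨0,[(15,0)]⟩,⟨0,[(31,0)]⟩⟩,⟨false,0,⟨0,[]⟩,⟨1,
  [(23,0),(0,0),(17,0)]⟩⟩,⟨true,0,⟨0,[(28,0)]⟩,⟨0,[(14,0),(25,0)]⟩⟩,⟨false,0,⟨0,[]⟩,⟨0,[]⟩⟩,⟨false,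
  0,⟨0,[]⟩,⟨0,[]⟩⟩,[.a ⟨true,1,⟨2,[(2,0),(10,0),(9,0),(4,1)]⟩,⟨3,[(0,1),(3,0),(2,1),(1,1),(2,1),(18,
  3),(0,2),(9,1)]⟩⟩ ⟨true,0,⟨0,[]⟩,⟨1,[(30,0),(0,0)]⟩⟩ ⟨false,1,⟨1,[(13,1),(20,0),(6,0)]⟩,⟨0,[(14,
  0),(25,0)]⟩⟩,.o ⟨false,2,⟨5,[(2,1),(10,5),(9,1),(10,4),(7,0)]⟩,⟨0,[(9,0)]⟩⟩,.o ⟨false,1,⟨3,[(2,1),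
  (9,0),(15,0),(2,0),(2,0),(2,0)]⟩,⟨0,[(24,0)]⟩⟩,.o ⟨false,1,⟨2,[(2,0),(9,0),(10,0),(4,0),(1,0),(0,
  1),(2,0)]⟩,⟨0,[(5,0)]⟩⟩]⟩)))))) (.Q [0,0,0,0,0,-1,0,0,0,1,0,-1] (.ed true [0,1,0,0,1] .k) (.S ⟨1,
  0,[0,-1],[1,0,0,0,-1],[1,0,0,-1],(⟨0,[(21,0)]⟩,⟨0,[(22,0)]⟩),⟨0,[(0,0)]⟩,.k,(.r (-1) ⟨13,[(4,3),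
  (5,2),(3,2),(1,1),(8,0),(4,0),(7,5)]⟩ ⟨1,[(26,0),(0,0),(8,1),(3,1)]⟩),⟨true,0,⟨0,[(35,0)]⟩,⟨0,
  [(36,0)]⟩⟩,⟨false,1,⟨1,[(19,0),(0,0),(17,0)]⟩,⟨0,[]⟩⟩,⟨false,0,⟨0,[]⟩,⟨1,[(19,0),(0,0),(17,0)]⟩⟩,
  ⟨true,0,⟨0,[(36,0)]⟩,⟨0,[(35,0)]⟩⟩,[.e ⟨false,1,⟨7,[(4,3),(11,1),(2,0),(0,0),(4,3),(4,0),(7,1)]⟩,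
  ⟨0,[(36,0)]⟩⟩ ⟨false,1,⟨1,[(37,0),(0,0)]⟩,⟨0,[(40,0)]⟩⟩,.o ⟨false,2,⟨2,[(1,1),(13,0),(3,0),(10,1),
  (7,2)]⟩,⟨0,[(5,0),(18,0)]⟩⟩,.o ⟨false,1,⟨2,[(1,1),(13,0),(3,0),(10,1)]⟩,⟨0,[(20,0)]⟩⟩,.a ⟨true,0,
  ⟨0,[(1,0)]⟩,⟨3,[(5,0),(3,1),(5,1),(4,2),(4,0),(12,0)]⟩⟩ ⟨false,1,⟨13,[(4,3),(5,2),(3,2),(1,1),(8,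
  0),(4,0),(7,5)]⟩,⟨1,[(26,0),(0,0),(8,1)]⟩⟩ ⟨true,1,⟨1,[(37,0),(0,0)]⟩,⟨0,[(1,0),(3,0),(18,
  0)]⟩⟩]⟩) (.Q [0,0,-1,1,0,0,1,1,1,1,-1,-1] (.p false [0,0,1] [1,0,0,0,-1] (⟨0,[(29,0)]⟩,⟨0,[(28,
  0)]⟩) .k 2 (⟨0,[(21,0)]⟩,⟨0,[(22,0)]⟩) .k (.r (-1) ⟨1,[(19,0),(0,0),(3,1),(2,1),(9,0)]⟩ ⟨0,[(8,0),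
  (29,0)]⟩)) (.R ⟨0,false,false,false,[1,0,0,0,-1],[0,1,1],[1,1,1],(⟨0,[(22,0)]⟩,⟨0,[(23,0)]⟩),(⟨0,
  [(30,0),(2,0)]⟩,⟨0,[(18,0)]⟩),⟨0,[(1,0)]⟩,.k,.k,(.r (-1) ⟨13,[(5,3),(5,2),(3,2),(1,1),(8,0),(4,0),
  (7,5)]⟩ ⟨1,[(27,0),(0,0),(8,1),(3,1)]⟩),(.r (-1) ⟨9,[(9,1),(1,4),(3,4),(1,3),(8,2),(4,1),(7,4)]⟩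
  ⟨0,[(25,0),(2,0),(8,0)]⟩),.k,.k,⟨true,(-1),⟨0,[(8,0)]⟩,⟨1,[(0,1),(1,1),(25,1),(2,0),(7,0)]⟩⟩,
  ⟨false,0,⟨2,[(0,1),(5,0),(2,0),(5,1),(1,0)]⟩,⟨2,[(2,1),(13,0),(3,0),(7,2),(2,1)]⟩⟩,⟨true,(-1),⟨0,
  [(2,0),(3,0),(18,0)]⟩,⟨1,[(38,0),(0,0)]⟩⟩,⟨false,0,⟨1,[(0,1),(26,0),(0,0)]⟩,⟨1,[(2,3),(3,1),(8,1),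
  (15,0),(7,0)]⟩⟩,⟨false,0,⟨0,[]⟩,⟨0,[]⟩⟩,⟨false,0,⟨0,[]⟩,⟨0,[]⟩⟩,[.e ⟨false,0,⟨0,[(41,0)]⟩,⟨1,[(38,
  0),(0,0)]⟩⟩ ⟨false,0,⟨0,[(0,0)]⟩,⟨2,[(2,1),(8,2),(4,0),(3,0),(10,1)]⟩⟩,.o ⟨false,1,⟨1,[(0,1),(1,
  1),(28,0),(7,0)]⟩,⟨3,[(2,0),(3,0),(1,0),(2,0),(1,0),(12,0),(1,0),(2,1)]⟩⟩,.o ⟨false,1,⟨2,[(2,1),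
  (13,0),(3,0),(10,1)]⟩,⟨0,[(21,0)]⟩⟩,.a ⟨true,0,⟨0,[(2,0)]⟩,⟨0,[(0,0),(10,0)]⟩⟩ ⟨false,0,⟨0,[]⟩,⟨1,
  [(20,0),(0,0),(17,0)]⟩⟩ ⟨true,0,⟨0,[(0,0)]⟩,⟨3,[(2,4),(3,0),(1,0),(2,0),(1,0),(12,0),(1,0),(2,
  1)]⟩⟩]⟩) (.R ⟨0,false,false,false,[1,0,0,0,-1],[0,1,1],[1,1,1],(⟨0,[(22,0)]⟩,⟨0,[(23,0)]⟩),(⟨0,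
  [(30,0),(2,0)]⟩,⟨0,[(18,0)]⟩),⟨0,[(1,0)]⟩,.k,.k,(.r (-1) ⟨13,[(5,3),(5,2),(3,2),(1,1),(8,0),(4,0),
  (7,5)]⟩ ⟨1,[(27,0),(0,0),(8,1),(3,1)]⟩),(.r (-1) ⟨9,[(9,1),(1,4),(3,4),(1,3),(8,2),(4,1),(7,4)]⟩
  ⟨0,[(25,0),(2,0),(8,0)]⟩),.k,.k,⟨true,(-1),⟨0,[(8,0)]⟩,⟨1,[(10,1),(17,1),(2,0),(5,1),(1,0)]⟩⟩,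
  ⟨false,0,⟨0,[(12,0),(3,0),(4,0)]⟩,⟨2,[(2,1),(13,0),(3,0),(7,2),(2,1)]⟩⟩,⟨true,(-1),⟨0,[(2,0),(3,
  0),(18,0)]⟩,⟨1,[(38,0),(0,0)]⟩⟩,⟨false,0,⟨0,[(10,0),(10,0),(15,0)]⟩,⟨1,[(0,1),(37,0),(0,0)]⟩⟩,
  ⟨false,0,⟨0,[]⟩,⟨0,[]⟩⟩,⟨false,0,⟨0,[]⟩,⟨0,[]⟩⟩,[.a ⟨true,0,⟨0,[(10,0),(26,0)]⟩,⟨0,[(11,0)]⟩⟩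
  ⟨false,0,⟨0,[(41,0)]⟩,⟨1,[(38,0),(0,0)]⟩⟩ ⟨true,0,⟨0,[(10,0),(10,0),(15,0)]⟩,⟨0,[(0,0)]⟩⟩,.o
  ⟨false,1,⟨1,[(10,1),(20,0),(5,1),(1,0)]⟩,⟨11,[(0,3),(5,3),(4,0),(1,1),(12,2),(4,3),(4,2)]⟩⟩,.o
  ⟨false,1,⟨2,[(2,1),(13,0),(3,0),(10,1)]⟩,⟨0,[(21,0)]⟩⟩,.e ⟨false,0,⟨0,[]⟩,⟨1,[(20,0),(0,0),(17,
  0)]⟩⟩ ⟨false,1,⟨1,[(10,1),(10,1),(15,1),(0,0),(0,0)]⟩,⟨0,[(0,0)]⟩⟩]⟩))))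

theorem ok165 : chk K t165 r91 = true := by decide +kernel

noncomputable def t167 : Tre :=
  (.Q [0,0,1,0,0,0,0,0,-1,0,0,1] (.p true [0,0,0,0,1] [] (⟨0,[(19,0)]⟩,⟨0,[(18,0)]⟩) .k 0 (⟨0,[]⟩,
  ⟨0,[]⟩) .k .k) (.Q [0,0,0,0,0,-1,0,0,0,1,0,-1] (.ed true [0,1,0,0,1] .k) (.S ⟨1,0,[0,-1],[1,0,0,0,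
  -1],[1,0,0,-1],(⟨0,[(20,0)]⟩,⟨0,[(21,0)]⟩),⟨0,[(0,0)]⟩,.k,(.r (-1) ⟨13,[(3,3),(5,2),(3,2),(1,1),
  (8,0),(4,0),(7,5)]⟩ ⟨1,[(25,0),(0,0),(8,1),(3,1)]⟩),⟨true,0,⟨0,[(34,0)]⟩,⟨0,[(35,0)]⟩⟩,⟨false,1,
  ⟨1,[(18,0),(0,0),(17,0)]⟩,⟨0,[]⟩⟩,⟨false,0,⟨0,[]⟩,⟨1,[(18,0),(0,0),(17,0)]⟩⟩,⟨true,0,⟨0,[(35,0)]⟩,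
  ⟨0,[(34,0)]⟩⟩,[.e ⟨false,1,⟨7,[(3,3),(11,1),(2,0),(0,0),(4,3),(4,0),(7,1)]⟩,⟨0,[(35,0)]⟩⟩ ⟨false,
  1,⟨1,[(36,0),(0,0)]⟩,⟨0,[(39,0)]⟩⟩,.o ⟨false,2,⟨2,[(1,1),(12,0),(3,0),(10,1),(7,2)]⟩,⟨0,[(4,0),
  (18,0)]⟩⟩,.o ⟨false,1,⟨2,[(1,1),(12,0),(3,0),(10,1)]⟩,⟨0,[(19,0)]⟩⟩,.a ⟨true,0,⟨0,[(1,0)]⟩,⟨3,[(4,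
  0),(3,1),(5,1),(4,2),(4,0),(12,0)]⟩⟩ ⟨false,1,⟨13,[(3,3),(5,2),(3,2),(1,1),(8,0),(4,0),(7,5)]⟩,⟨1,
  [(25,0),(0,0),(8,1)]⟩⟩ ⟨true,1,⟨1,[(36,0),(0,0)]⟩,⟨0,[(1,0),(2,0),(18,0)]⟩⟩]⟩) (.Q [0,0,-1,1,0,0,
  1,1,1,1,-1,-1] (.p false [0,0,1] [1,0,0,0,-1] (⟨0,[(28,0)]⟩,⟨0,[(27,0)]⟩) .k 2 (⟨0,[(20,0)]⟩,⟨0,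
  [(21,0)]⟩) .k (.r (-1) ⟨1,[(18,0),(0,0),(3,1),(2,1),(9,0)]⟩ ⟨0,[(7,0),(29,0)]⟩)) (.R ⟨0,false,
  false,false,[1,0,0,0,-1],[0,1,1],[1,1,1],(⟨0,[(21,0)]⟩,⟨0,[(22,0)]⟩),(⟨0,[(29,0),(2,0)]⟩,⟨0,[(17,
  0)]⟩),⟨0,[(1,0)]⟩,.k,.k,(.r (-1) ⟨13,[(4,3),(5,2),(3,2),(1,1),(8,0),(4,0),(7,5)]⟩ ⟨1,[(26,0),(0,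
  0),(8,1),(3,1)]⟩),(.r (-1) ⟨9,[(8,1),(1,4),(3,4),(1,3),(8,2),(4,1),(7,4)]⟩ ⟨0,[(24,0),(2,0),(8,
  0)]⟩),.k,.k,⟨true,(-1),⟨0,[(7,0)]⟩,⟨1,[(0,1),(1,1),(24,1),(2,0),(7,0)]⟩⟩,⟨false,0,⟨2,[(0,1),(4,0),
  (2,0),(5,1),(1,0)]⟩,⟨2,[(2,1),(12,0),(3,0),(7,2),(2,1)]⟩⟩,⟨true,(-1),⟨0,[(2,0),(2,0),(18,0)]⟩,⟨1,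
  [(37,0),(0,0)]⟩⟩,⟨false,0,⟨1,[(0,1),(25,0),(0,0)]⟩,⟨1,[(2,3),(2,1),(8,1),(15,0),(7,0)]⟩⟩,⟨false,0,
  ⟨0,[]⟩,⟨0,[]⟩⟩,⟨false,0,⟨0,[]⟩,⟨0,[]⟩⟩,[.e ⟨false,0,⟨0,[(40,0)]⟩,⟨1,[(37,0),(0,0)]⟩⟩ ⟨false,0,⟨0,
  [(0,0)]⟩,⟨2,[(2,1),(7,2),(4,0),(3,0),(10,1)]⟩⟩,.o ⟨false,1,⟨1,[(0,1),(1,1),(27,0),(7,0)]⟩,⟨3,[(2,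
  0),(2,0),(1,0),(2,0),(1,0),(12,0),(1,0),(2,1)]⟩⟩,.o ⟨false,1,⟨2,[(2,1),(12,0),(3,0),(10,1)]⟩,⟨0,
  [(20,0)]⟩⟩,.a ⟨true,0,⟨0,[(2,0)]⟩,⟨0,[(0,0),(9,0)]⟩⟩ ⟨false,0,⟨0,[]⟩,⟨1,[(19,0),(0,0),(17,0)]⟩⟩
  ⟨true,0,⟨0,[(0,0)]⟩,⟨3,[(2,4),(2,0),(1,0),(2,0),(1,0),(12,0),(1,0),(2,1)]⟩⟩]⟩) (.R ⟨0,false,false,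
  false,[1,0,0,0,-1],[0,1,1],[1,1,1],(⟨0,[(21,0)]⟩,⟨0,[(22,0)]⟩),(⟨0,[(29,0),(2,0)]⟩,⟨0,[(17,0)]⟩),
  ⟨0,[(1,0)]⟩,.k,.k,(.r (-1) ⟨13,[(4,3),(5,2),(3,2),(1,1),(8,0),(4,0),(7,5)]⟩ ⟨1,[(26,0),(0,0),(8,
  1),(3,1)]⟩),(.r (-1) ⟨9,[(8,1),(1,4),(3,4),(1,3),(8,2),(4,1),(7,4)]⟩ ⟨0,[(24,0),(2,0),(8,0)]⟩),.k,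
  .k,⟨true,(-1),⟨0,[(7,0)]⟩,⟨1,[(9,1),(17,1),(2,0),(5,1),(1,0)]⟩⟩,⟨false,0,⟨0,[(11,0),(3,0),(4,0)]⟩,
  ⟨2,[(2,1),(12,0),(3,0),(7,2),(2,1)]⟩⟩,⟨true,(-1),⟨0,[(2,0),(2,0),(18,0)]⟩,⟨1,[(37,0),(0,0)]⟩⟩,
  ⟨false,0,⟨0,[(9,0),(10,0),(15,0)]⟩,⟨1,[(0,1),(36,0),(0,0)]⟩⟩,⟨false,0,⟨0,[]⟩,⟨0,[]⟩⟩,⟨false,0,⟨0,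
  []⟩,⟨0,[]⟩⟩,[.a ⟨true,0,⟨0,[(9,0),(26,0)]⟩,⟨0,[(10,0)]⟩⟩ ⟨false,0,⟨0,[(40,0)]⟩,⟨1,[(37,0),(0,
  0)]⟩⟩ ⟨true,0,⟨0,[(9,0),(10,0),(15,0)]⟩,⟨0,[(0,0)]⟩⟩,.o ⟨false,1,⟨1,[(9,1),(20,0),(5,1),(1,0)]⟩,
  ⟨11,[(0,3),(4,3),(4,0),(1,1),(12,2),(4,3),(4,2)]⟩⟩,.o ⟨false,1,⟨2,[(2,1),(12,0),(3,0),(10,1)]⟩,⟨0,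
  [(20,0)]⟩⟩,.e ⟨false,0,⟨0,[]⟩,⟨1,[(19,0),(0,0),(17,0)]⟩⟩ ⟨false,1,⟨1,[(9,1),(10,1),(15,1),(0,0),
  (0,0)]⟩,⟨0,[(0,0)]⟩⟩]⟩))) (.I [0,0,-2,-2,1,0,0,1] (.Q [0,-1,0,2,0,0,-1,-1,0,0,1] (.p true [0,0,1]
  [] (⟨0,[(28,0)]⟩,⟨0,[(27,0)]⟩) .k 0 (⟨0,[]⟩,⟨0,[]⟩) .k .k) (.R ⟨1,false,false,false,[1,-1],[1,0,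
  -1],[0,1,1],(⟨0,[(31,0)]⟩,⟨0,[(32,0)]⟩),(⟨0,[(28,0)]⟩,⟨0,[(29,0)]⟩),⟨0,[(17,0),(0,0)]⟩,.k,.k,(.r
  (-1) ⟨14,[(1,7),(8,4),(1,1),(1,4),(1,3),(8,2),(4,1)]⟩ ⟨0,[(0,0),(23,0),(1,0),(0,0)]⟩),.k,(.r (-1)
  ⟨0,[(1,0)]⟩ ⟨1,[(0,1),(25,2),(0,0),(12,1)]⟩),.k,⟨true,0,⟨0,[(24,0),(2,0)]⟩,⟨0,[(8,0),(29,0)]⟩⟩,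
  ⟨false,1,⟨2,[(0,1),(0,1),(25,0),(5,0),(3,0)]⟩,⟨0,[(26,0)]⟩⟩,⟨false,0,⟨1,[(0,0),(23,0),(1,1),(0,
  1)]⟩,⟨0,[(14,0)]⟩⟩,⟨true,0,⟨1,[(0,0),(24,0)]⟩,⟨0,[(6,0)]⟩⟩,⟨false,0,⟨0,[(0,0),(23,0),(1,0),(0,
  0)]⟩,⟨0,[(12,0),(25,0)]⟩⟩,⟨false,0,⟨0,[(0,0)]⟩,⟨0,[(6,0),(28,0),(2,0)]⟩⟩,[.e ⟨false,0,⟨0,[(40,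
  0)]⟩,⟨1,[(37,0),(0,0)]⟩⟩ ⟨false,0,⟨0,[(0,0),(11,0)]⟩,⟨1,[(9,1),(9,0),(0,0),(5,0),(0,0),(2,0)]⟩⟩,
  .o ⟨false,1,⟨3,[(0,0),(9,1),(14,0),(4,1),(7,1)]⟩,⟨0,[(24,0)]⟩⟩,.a ⟨true,0,⟨1,[(26,0),(0,0)]⟩,⟨7,
  [(0,0),(8,3),(0,1),(4,3),(9,0)]⟩⟩ ⟨false,0,⟨1,[(26,0),(0,0)]⟩,⟨1,[(37,0),(0,0)]⟩⟩ ⟨true,0,⟨1,[(0,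
  0),(9,0),(2,0)]⟩,⟨1,[(24,1),(1,0),(0,0)]⟩⟩,.e ⟨true,0,⟨0,[(40,0)]⟩,⟨0,[]⟩⟩ ⟨true,0,⟨0,[(0,0),(11,
  0)]⟩,⟨0,[(24,0),(1,0),(0,0)]⟩⟩]⟩) (.Q [0,-2,0,0,2,0,0,0,-1,-1,0,1] (.p true [0,0,0,0,1] [1] (⟨0,
  [(22,0)]⟩,⟨0,[(21,0)]⟩) .k 1 (⟨0,[]⟩,⟨0,[]⟩) .k .k) (.Q [0,0,0,0,0,1,0,0,0,0,0,-1] (.ed true [1,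
  -1,0,0,1] .k) (.Q [0,-1,0,1,1,0,-1,-1,-1,-1,1,1] (.p true [0,0,1] [1,0,0,0,-1] (⟨0,[(31,0)]⟩,⟨0,
  [(30,0)]⟩) .k 2 (⟨0,[(23,0)]⟩,⟨0,[(24,0)]⟩) .k (.r (-1) ⟨1,[(21,0),(0,0),(3,1),(2,1),(9,0)]⟩ ⟨0,
  [(10,0),(29,0)]⟩)) (.Q [0,-1,0,0,1,0,0,0,-1,0,0,1] (.p true [0,0,0,0,1] [] (⟨0,[(25,0)]⟩,⟨0,[(24,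
  0)]⟩) .k 0 (⟨0,[]⟩,⟨0,[]⟩) .k .k) (.S ⟨1,0,[],[1,0,0,0,-1],[0,-1],(⟨0,[(25,0)]⟩,⟨0,[(26,0)]⟩),⟨0,
  [(2,0),(18,0),(0,0)]⟩,.k,(.r (-1) ⟨7,[(3,0),(1,1),(8,1),(3,1),(1,0),(3,0),(17,1)]⟩ ⟨1,[(30,0),(0,
  0),(8,1),(3,1)]⟩),⟨false,1,⟨1,[(23,0),(0,0),(17,0)]⟩,⟨0,[]⟩⟩,⟨true,0,⟨0,[(44,0)]⟩,⟨0,[]⟩⟩,⟨true,0,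
  ⟨0,[(40,0)]⟩,⟨1,[(4,0),(24,0)]⟩⟩,⟨false,0,⟨0,[(40,0)]⟩,⟨1,[(4,0),(24,0),(12,1)]⟩⟩,[.o ⟨false,1,⟨1,
  [(1,1),(2,0),(23,0)]⟩,⟨0,[(24,0)]⟩⟩,.a ⟨true,1,⟨0,[(0,0)]⟩,⟨0,[(9,0),(3,0)]⟩⟩ ⟨true,1,⟨0,[(42,
  0)]⟩,⟨0,[(12,0),(15,0),(2,0)]⟩⟩ ⟨false,1,⟨1,[(41,0),(0,0)]⟩,⟨0,[(44,0)]⟩⟩,.o ⟨false,1,⟨1,[(1,1),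
  (2,0),(23,0)]⟩,⟨0,[(24,0)]⟩⟩,.o ⟨false,1,⟨1,[(1,1),(2,0),(23,0),(1,0),(0,0)]⟩,⟨0,[(6,0)]⟩⟩]⟩) (.R
  ⟨2,false,false,false,[0,1],[0,0,0,0,1],[0,1,1],(⟨0,[]⟩,⟨0,[]⟩),(⟨0,[(26,0)]⟩,⟨0,[(25,0)]⟩),⟨0,[]⟩,
  .k,.k,.k,(.r (-1) ⟨1,[(23,0),(0,0),(5,0),(0,0),(8,1),(1,0)]⟩ ⟨0,[(38,0)]⟩),.k,.k,⟨true,0,⟨1,[(30,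
  0),(0,0)]⟩,⟨0,[]⟩⟩,⟨false,0,⟨0,[(24,0)]⟩,⟨3,[(1,1),(2,0),(14,1),(3,1),(4,0)]⟩⟩,⟨true,0,⟨0,[(39,
  0)]⟩,⟨0,[(40,0)]⟩⟩,⟨false,0,⟨1,[(4,0),(4,0),(14,0),(17,0)]⟩,⟨0,[(1,0),(11,0)]⟩⟩,⟨true,0,⟨0,[(44,
  0)]⟩,⟨0,[]⟩⟩,⟨true,(-1),⟨0,[(0,0)]⟩,⟨0,[(23,0)]⟩⟩,[.o ⟨false,(-1),⟨0,[(0,0)]⟩,⟨3,[(3,1),(19,2),(0,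
  0),(9,0)]⟩⟩,.o ⟨false,0,⟨0,[(24,0)]⟩,⟨1,[(1,1),(2,0),(23,0)]⟩⟩,.a ⟨true,0,⟨1,[(19,0),(12,0),(0,
  0)]⟩,⟨1,[(30,0),(0,0)]⟩⟩ ⟨false,0,⟨1,[(30,0),(0,0)]⟩,⟨1,[(41,0),(0,0)]⟩⟩ ⟨true,(-1),⟨1,[(0,1),(29,
  0),(0,0)]⟩,⟨3,[(1,1),(2,0),(14,1),(3,1),(4,0)]⟩⟩,.e ⟨true,0,⟨0,[(44,0)]⟩,⟨0,[]⟩⟩ ⟨true,(-1),⟨0,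
  [(0,0)]⟩,⟨0,[(23,0)]⟩⟩]⟩)) (.Q [0,1,0,0,-1,0,0,0,1,0,0,-1] (.p false [0,0,0,0,1] [] (⟨0,[(25,0)]⟩,
  ⟨0,[(24,0)]⟩) .k 0 (⟨0,[]⟩,⟨0,[]⟩) .k .k) (.R ⟨1,false,false,false,[1,0,-1],[1,0,0,0,-1],[1,0,0,
  -1,0,0,0,-1],(⟨0,[(32,0)]⟩,⟨0,[(33,0)]⟩),(⟨0,[(25,0)]⟩,⟨0,[(26,0)]⟩),⟨0,[(21,0)]⟩,.k,.k,.k,.k,(.r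
  0 ⟨19,[(11,7),(4,1),(0,2),(0,4),(1,5),(8,11),(4,2)]⟩ ⟨1,[(13,1),(17,1),(2,0),(5,1),(1,0)]⟩),.k,
  ⟨true,(-1),⟨0,[(11,0)]⟩,⟨1,[(13,1),(17,1),(2,0),(5,1),(1,0)]⟩⟩,⟨false,1,⟨1,[(3,0),(8,0),(2,0),(3,
  0),(3,0),(4,0)]⟩,⟨0,[(6,0),(24,0)]⟩⟩,⟨false,1,⟨1,[(4,0),(24,0),(12,1)]⟩,⟨0,[(40,0)]⟩⟩,⟨false,2,⟨0,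
  [(3,0),(9,0)]⟩,⟨0,[(9,0)]⟩⟩,⟨true,0,⟨0,[]⟩,⟨0,[(44,0)]⟩⟩,⟨false,2,⟨0,[(3,0),(9,0),(26,0)]⟩,⟨0,[(0,
  0),(13,0)]⟩⟩,[.o ⟨false,2,⟨3,[(3,1),(19,2),(0,0),(9,0)]⟩,⟨0,[(0,0)]⟩⟩,.o ⟨false,2,⟨0,[(3,0)]⟩,⟨0,
  [(0,0),(43,0)]⟩⟩,.o ⟨false,1,⟨1,[(31,1),(2,0),(6,0)]⟩,⟨0,[(15,0)]⟩⟩,.a ⟨true,0,⟨0,[(31,0)]⟩,⟨0,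
  [(27,0)]⟩⟩ ⟨true,0,⟨11,[(11,1),(0,5),(1,3),(3,5),(1,1),(13,0),(7,0)]⟩,⟨0,[(28,0),(2,0),(8,0)]⟩⟩
  ⟨false,2,⟨1,[(3,1),(15,0),(0,0)]⟩,⟨0,[(0,0),(30,0)]⟩⟩]⟩) (.S ⟨1,0,[],[1,0,0,0,-1],[0,-1],(⟨0,[(25,
  0)]⟩,⟨0,[(26,0)]⟩),⟨0,[(2,0),(18,0),(0,0)]⟩,.k,(.r (-1) ⟨7,[(3,0),(1,1),(8,1),(3,1),(1,0),(3,0),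
  (17,1)]⟩ ⟨1,[(30,0),(0,0),(8,1),(3,1)]⟩),⟨false,1,⟨1,[(23,0),(0,0),(17,0)]⟩,⟨0,[]⟩⟩,⟨true,0,⟨0,
  [(44,0)]⟩,⟨0,[]⟩⟩,⟨true,0,⟨0,[(40,0)]⟩,⟨1,[(4,0),(24,0)]⟩⟩,⟨false,0,⟨0,[(40,0)]⟩,⟨1,[(4,0),(24,0),
  (12,1)]⟩⟩,[.e ⟨false,1,⟨1,[(41,0),(0,0)]⟩,⟨0,[(44,0)]⟩⟩ ⟨false,1,⟨1,[(23,0),(0,0),(16,0)]⟩,⟨0,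
  []⟩⟩,.a ⟨true,1,⟨0,[(0,0)]⟩,⟨0,[(9,0),(3,0)]⟩⟩ ⟨true,1,⟨0,[(42,0)]⟩,⟨0,[(12,0),(15,0),(2,0)]⟩⟩
  ⟨false,1,⟨1,[(41,0),(0,0)]⟩,⟨0,[(44,0)]⟩⟩,.e ⟨false,1,⟨0,[(42,0)]⟩,⟨0,[(44,0)]⟩⟩ ⟨false,1,⟨1,[(23,
  0),(0,0),(17,0)]⟩,⟨0,[]⟩⟩,.o ⟨false,1,⟨3,[(0,3),(11,1),(15,1),(1,0),(0,2),(2,1)]⟩,⟨0,[(6,
  0)]⟩⟩]⟩))) (.Q [0,-1,0,0,1,0,0,0,-1,0,0,1] (.p true [0,0,0,0,1] [] (⟨0,[(24,0)]⟩,⟨0,[(23,0)]⟩) .k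
  0 (⟨0,[]⟩,⟨0,[]⟩) .k .k) (.Q [0,0,0,0,0,-1,0,0,0,1,0,-1] (.ed true [0,1,0,0,1] .k) (.Q [0,0,0,0,1,
  0,0,0,-1,-1,0,1] (.p true [0,0,0,0,1] [1] (⟨0,[(26,0)]⟩,⟨0,[(25,0)]⟩) .k 1 (⟨0,[]⟩,⟨0,[]⟩) .k .k)
  (.S ⟨1,0,[],[1,0,0,0,-1],[0,-1],(⟨0,[(26,0)]⟩,⟨0,[(27,0)]⟩),⟨0,[(1,0)]⟩,.k,(.r (-1) ⟨7,[(4,0),(1,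
  1),(8,1),(3,1),(1,0),(3,0),(17,1)]⟩ ⟨1,[(31,0),(0,0),(8,1),(3,1)]⟩),⟨false,1,⟨1,[(24,0),(0,0),(17,
  0)]⟩,⟨0,[]⟩⟩,⟨true,0,⟨0,[(45,0)]⟩,⟨0,[]⟩⟩,⟨true,0,⟨0,[(41,0)]⟩,⟨1,[(5,0),(24,0)]⟩⟩,⟨false,0,⟨0,
  [(41,0)]⟩,⟨1,[(5,0),(24,0),(12,1)]⟩⟩,[.o ⟨false,1,⟨0,[(0,0)]⟩,⟨0,[(25,0)]⟩⟩,.a ⟨true,1,⟨0,[(2,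
  0)]⟩,⟨0,[(10,0),(3,0)]⟩⟩ ⟨true,1,⟨0,[(43,0)]⟩,⟨0,[(13,0),(15,0),(2,0)]⟩⟩ ⟨false,1,⟨1,[(42,0),(0,
  0)]⟩,⟨0,[(45,0)]⟩⟩,.o ⟨false,1,⟨0,[(0,0)]⟩,⟨0,[(25,0)]⟩⟩,.o ⟨false,1,⟨1,[(0,1),(30,0),(0,0)]⟩,⟨0,
  [(7,0)]⟩⟩]⟩) (.S ⟨1,0,[],[1,0,0,0,-1],[0,-1],(⟨0,[(26,0)]⟩,⟨0,[(27,0)]⟩),⟨0,[(1,0)]⟩,.k,(.r (-1)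
  ⟨7,[(4,0),(1,1),(8,1),(3,1),(1,0),(3,0),(17,1)]⟩ ⟨1,[(31,0),(0,0),(8,1),(3,1)]⟩),⟨false,1,⟨1,[(24,
  0),(0,0),(17,0)]⟩,⟨0,[]⟩⟩,⟨true,0,⟨0,[(45,0)]⟩,⟨0,[]⟩⟩,⟨true,0,⟨0,[(41,0)]⟩,⟨1,[(5,0),(24,0)]⟩⟩,
  ⟨false,0,⟨0,[(41,0)]⟩,⟨1,[(5,0),(24,0),(12,1)]⟩⟩,[.e ⟨false,1,⟨1,[(42,0),(0,0)]⟩,⟨0,[(45,0)]⟩⟩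
  ⟨false,1,⟨1,[(24,0),(0,0),(16,0)]⟩,⟨0,[]⟩⟩,.a ⟨true,1,⟨0,[(2,0)]⟩,⟨0,[(0,0),(44,0)]⟩⟩ ⟨true,1,⟨0,
  [(43,0)]⟩,⟨0,[(13,0),(15,0),(2,0)]⟩⟩ ⟨false,1,⟨1,[(42,0),(0,0)]⟩,⟨0,[(45,0)]⟩⟩,.e ⟨false,1,⟨0,
  [(43,0)]⟩,⟨0,[(45,0)]⟩⟩ ⟨false,1,⟨1,[(24,0),(0,0),(17,0)]⟩,⟨0,[]⟩⟩,.o ⟨false,1,⟨3,[(2,3),(10,1),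
  (15,1),(1,0),(0,2),(2,1)]⟩,⟨0,[(7,0)]⟩⟩]⟩)) (.Q [0,0,1,0,0,0,1,0,-1,0,-1,1] (.p false [0,0,1] [0,
  0,0,0,1] (⟨0,[(33,0)]⟩,⟨0,[(32,0)]⟩) .k 2 (⟨0,[(26,0)]⟩,⟨0,[(25,0)]⟩) .k (.r (-2) ⟨5,[(3,3),(9,3),
  (9,0),(0,4),(3,1),(2,5),(9,2)]⟩ ⟨0,[(11,0),(28,0)]⟩)) (.R ⟨0,false,false,false,[1,0,0,0,-1],[1,0,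
  -1],[1],(⟨0,[(26,0)]⟩,⟨0,[(27,0)]⟩),(⟨0,[(33,0)]⟩,⟨0,[(34,0)]⟩),⟨0,[(1,0)]⟩,.k,.k,(.r (-1) ⟨7,[(4,
  0),(1,1),(8,1),(3,1),(1,0),(3,0),(17,1)]⟩ ⟨1,[(31,0),(0,0),(8,1),(3,1)]⟩),.k,.k,.k,⟨false,1,⟨6,
  [(4,0),(1,3),(7,0),(10,0),(3,1),(2,2),(8,7),(0,0)]⟩,⟨3,[(4,0),(5,0),(2,1),(7,0),(8,0),(12,0)]⟩⟩,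
  ⟨true,0,⟨0,[(7,0),(24,0)]⟩,⟨0,[(0,0)]⟩⟩,⟨false,0,⟨0,[]⟩,⟨1,[(24,0),(0,0),(17,0)]⟩⟩,⟨true,(-1),⟨0,
  [(10,0)]⟩,⟨0,[(2,0),(26,0)]⟩⟩,⟨false,0,⟨0,[]⟩,⟨0,[]⟩⟩,⟨false,0,⟨0,[]⟩,⟨0,[]⟩⟩,[.a ⟨true,0,⟨0,[(15,
  0),(25,0)]⟩,⟨0,[(14,0)]⟩⟩ ⟨true,0,⟨0,[]⟩,⟨1,[(31,0),(0,0)]⟩⟩ ⟨false,0,⟨1,[(10,1),(31,0),(0,0)]⟩,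
  ⟨0,[(2,0),(26,0)]⟩⟩,.o ⟨false,1,⟨0,[(4,0),(5,0)]⟩,⟨0,[(29,0)]⟩⟩,.o ⟨false,1,⟨1,[(0,0),(1,0),(15,
  0),(13,0),(2,0),(5,0)]⟩,⟨0,[(25,0)]⟩⟩,.o ⟨false,1,⟨1,[(0,0),(23,0),(7,0),(2,0)]⟩,⟨0,[(7,0)]⟩⟩]⟩)
  (.Q [0,0,0,0,1,0,0,0,-1,-1,0,1] (.p true [0,0,0,0,1] [1] (⟨0,[(27,0)]⟩,⟨0,[(26,0)]⟩) .k 1 (⟨0,[]⟩,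
  ⟨0,[]⟩) .k .k) (.R ⟨0,false,false,true,[1,0,0,0,-1],[1,0,1,0,-1],[1],(⟨0,[(27,0)]⟩,⟨0,[(28,0)]⟩),
  (⟨0,[(27,0),(7,0)]⟩,⟨0,[(2,0),(20,0)]⟩),⟨0,[(2,0)]⟩,.k,.k,(.r (-1) ⟨7,[(5,0),(1,1),(8,1),(3,1),(1,
  0),(3,0),(17,1)]⟩ ⟨1,[(32,0),(0,0),(8,1),(3,1)]⟩),.k,.k,.k,⟨false,0,⟨1,[(14,1),(28,0),(0,0)]⟩,⟨5,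
  [(1,2),(3,1),(9,1),(9,1),(0,0),(3,3),(2,2)]⟩⟩,⟨true,0,⟨0,[(17,0)]⟩,⟨0,[(33,0)]⟩⟩,⟨false,0,⟨0,[]⟩,
  ⟨1,[(25,0),(0,0),(17,0)]⟩⟩,⟨true,0,⟨0,[(30,0)]⟩,⟨0,[(16,0),(25,0)]⟩⟩,⟨false,0,⟨0,[]⟩,⟨0,[]⟩⟩,
  ⟨false,0,⟨0,[]⟩,⟨0,[]⟩⟩,[.a ⟨true,1,⟨0,[(0,0),(14,0)]⟩,⟨0,[(1,0),(12,1),(0,0),(17,0),(10,0)]⟩⟩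
  ⟨true,0,⟨0,[]⟩,⟨1,[(32,0),(0,0)]⟩⟩ ⟨false,1,⟨1,[(15,1),(20,0),(6,0)]⟩,⟨0,[(16,0),(25,0)]⟩⟩,.o
  ⟨false,2,⟨0,[(5,0),(24,0)]⟩,⟨0,[(11,0)]⟩⟩,.o ⟨false,1,⟨0,[(0,0)]⟩,⟨0,[(26,0)]⟩⟩,.o ⟨false,1,⟨1,
  [(0,1),(31,0),(0,0)]⟩,⟨0,[(8,0)]⟩⟩]⟩) (.R ⟨0,false,false,true,[1,0,0,0,-1],[1,-1],[0,1,0,-1],(⟨0,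
  [(27,0)]⟩,⟨0,[(28,0)]⟩),(⟨0,[(37,0)]⟩,⟨0,[(38,0)]⟩),⟨0,[(2,0)]⟩,.k,.k,(.r (-1) ⟨7,[(5,0),(1,1),(8,
  1),(3,1),(1,0),(3,0),(17,1)]⟩ ⟨1,[(32,0),(0,0),(8,1),(3,1)]⟩),(.r (-1) ⟨1,[(25,0),(0,0),(5,0),(0,
  0),(8,1),(1,0)]⟩ ⟨0,[(40,0)]⟩),.k,.k,⟨true,0,⟨1,[(32,0),(0,0)]⟩,⟨0,[]⟩⟩,⟨false,0,⟨0,[(26,0)]⟩,⟨1,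
  [(3,0),(15,0),(5,0),(16,0)]⟩⟩,⟨false,0,⟨0,[(41,0)]⟩,⟨0,[(42,0),(1,0)]⟩⟩,⟨true,(-1),⟨1,[(6,0),(4,
  1),(18,0)]⟩,⟨0,[(3,0),(38,0)]⟩⟩,⟨false,0,⟨0,[]⟩,⟨0,[]⟩⟩,⟨false,0,⟨0,[]⟩,⟨0,[]⟩⟩,[.e ⟨false,0,⟨0,
  [(40,0)]⟩,⟨1,[(25,0),(0,0),(15,1),(1,0)]⟩⟩ ⟨false,0,⟨9,[(6,0),(11,3),(7,9),(4,0),(7,1)]⟩,⟨0,[(3,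
  0),(38,0)]⟩⟩,.o ⟨false,1,⟨11,[(5,3),(0,4),(9,1),(9,3),(4,2),(4,3)]⟩,⟨0,[(42,0)]⟩⟩,.a ⟨true,1,⟨0,
  [(25,0)]⟩,⟨0,[(0,0)]⟩⟩ ⟨true,0,⟨0,[(41,0)]⟩,⟨0,[(42,0)]⟩⟩ ⟨false,0,⟨1,[(6,0),(4,0),(14,0),(17,
  0)]⟩,⟨0,[(3,0),(38,0)]⟩⟩,.o ⟨false,1,⟨3,[(3,3),(10,1),(15,1),(1,0),(0,2),(2,1)]⟩,⟨0,[(8,
  0)]⟩⟩]⟩)))) (.R ⟨1,false,false,false,[1,0,-1],[1,0,0,0,-1],[1,0,0,-1,0,0,0,-1],(⟨0,[(31,0)]⟩,⟨0,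
  [(32,0)]⟩),(⟨0,[(24,0)]⟩,⟨0,[(25,0)]⟩),⟨0,[(20,0)]⟩,.k,.k,.k,.k,(.r 0 ⟨19,[(10,7),(4,1),(0,2),(0,
  4),(1,5),(8,11),(4,2)]⟩ ⟨1,[(12,1),(17,1),(2,0),(5,1),(1,0)]⟩),.k,⟨true,(-1),⟨0,[(10,0)]⟩,⟨1,[(12,
  1),(17,1),(2,0),(5,1),(1,0)]⟩⟩,⟨false,1,⟨1,[(2,0),(8,0),(2,0),(3,0),(3,0),(4,0)]⟩,⟨0,[(5,0),(24,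
  0)]⟩⟩,⟨false,1,⟨1,[(3,0),(24,0),(12,1)]⟩,⟨0,[(39,0)]⟩⟩,⟨false,2,⟨0,[(2,0),(9,0)]⟩,⟨0,[(8,0)]⟩⟩,
  ⟨true,0,⟨0,[]⟩,⟨0,[(43,0)]⟩⟩,⟨false,2,⟨0,[(2,0),(9,0),(26,0)]⟩,⟨0,[(0,0),(12,0)]⟩⟩,[.o ⟨false,2,
  ⟨3,[(2,1),(19,2),(0,0),(9,0)]⟩,⟨0,[(0,0)]⟩⟩,.o ⟨false,2,⟨0,[(2,0)]⟩,⟨0,[(8,0),(18,0)]⟩⟩,.o ⟨false,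
  1,⟨1,[(30,1),(2,0),(6,0)]⟩,⟨0,[(14,0)]⟩⟩,.a ⟨true,0,⟨0,[(30,0)]⟩,⟨0,[(26,0)]⟩⟩ ⟨true,0,⟨11,[(10,
  1),(0,5),(1,3),(3,5),(1,1),(13,0),(7,0)]⟩,⟨0,[(27,0),(2,0),(8,0)]⟩⟩ ⟨false,2,⟨1,[(2,1),(15,0),(0,
  0)]⟩,⟨0,[(0,0),(29,0)]⟩⟩]⟩))) (.Q [0,0,1,0,1,0,0,0,-1,-1,0,1] (.p true [0,0,0,0,1] [1] (⟨0,[(23,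
  0)]⟩,⟨0,[(22,0)]⟩) .k 1 (⟨0,[]⟩,⟨0,[]⟩) .k .k) (.Q [0,0,0,0,0,-1,0,0,0,1,0,-1] (.ed true [0,1,0,0,
  1] .k) (.S ⟨1,0,[0,-1],[1,0,0,0,-1],[],(⟨0,[(24,0)]⟩,⟨0,[(25,0)]⟩),⟨0,[(0,0)]⟩,.k,(.r (-1) ⟨13,
  [(4,3),(8,2),(3,2),(1,1),(8,0),(4,0),(7,5)]⟩ ⟨1,[(29,0),(0,0),(8,1),(3,1)]⟩),⟨true,0,⟨0,[(43,0)]⟩,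
  ⟨0,[]⟩⟩,⟨false,1,⟨1,[(22,0),(0,0),(17,0)]⟩,⟨0,[]⟩⟩,⟨false,0,⟨0,[(39,0)]⟩,⟨1,[(3,0),(24,0),(12,
  1)]⟩⟩,⟨true,0,⟨0,[(39,0)]⟩,⟨1,[(3,0),(24,0)]⟩⟩,[.o ⟨false,2,⟨1,[(22,1),(10,0),(7,0)]⟩,⟨1,[(2,1),
  (30,0),(7,0)]⟩⟩,.a ⟨true,2,⟨0,[(22,0),(18,0)]⟩,⟨0,[(2,0)]⟩⟩ ⟨false,1,⟨1,[(40,0),(0,0)]⟩,⟨0,[(43,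
  0)]⟩⟩ ⟨true,1,⟨0,[(41,0)]⟩,⟨0,[(1,0),(0,0)]⟩⟩,.e ⟨false,1,⟨1,[(22,0),(0,0),(17,0)]⟩,⟨0,[]⟩⟩
  ⟨false,1,⟨0,[(41,0)]⟩,⟨0,[(43,0)]⟩⟩,.o ⟨false,1,⟨0,[(1,0)]⟩,⟨0,[(5,0)]⟩⟩]⟩) (.R ⟨0,false,false,
  true,[1,0,0,0,-1],[0,-1,1],[1,1,-1,-1,0,0,0,1],(⟨0,[(24,0)]⟩,⟨0,[(25,0)]⟩),(⟨0,[(21,0)]⟩,⟨0,[(31,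
  0),(3,0)]⟩),⟨0,[(0,0)]⟩,.k,.k,(.r (-1) ⟨13,[(4,3),(8,2),(3,2),(1,1),(8,0),(4,0),(7,5)]⟩ ⟨1,[(29,
  0),(0,0),(8,1),(3,1)]⟩),(.r 0 ⟨1,[(11,1),(17,0),(0,0),(8,1),(1,1)]⟩ ⟨7,[(4,3),(17,2),(0,2),(3,3),
  (2,3),(5,1),(3,0)]⟩),.k,.k,⟨true,0,⟨0,[]⟩,⟨1,[(29,0),(0,0)]⟩⟩,⟨false,(-1),⟨0,[(2,0),(11,0),(26,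
  0)]⟩,⟨0,[(18,0),(3,0),(7,0),(2,0)]⟩⟩,⟨true,0,⟨0,[(16,0),(10,0),(2,0)]⟩,⟨1,[(11,1),(17,0),(0,0),(8,
  1),(1,1)]⟩⟩,⟨false,(-1),⟨3,[(2,3),(0,1),(8,1),(20,0),(7,2)]⟩,⟨1,[(1,1),(9,1),(6,1),(11,1),(2,0),
  (5,1),(1,2)]⟩⟩,⟨false,0,⟨0,[]⟩,⟨0,[]⟩⟩,⟨false,0,⟨0,[]⟩,⟨0,[]⟩⟩,[.o ⟨false,0,⟨0,[(9,0)]⟩,⟨1,[(13,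
  1),(19,0),(5,3),(1,0)]⟩⟩,.e ⟨false,1,⟨0,[(4,0),(34,0)]⟩,⟨3,[(11,1),(16,1),(0,2),(0,0),(8,3),(1,
  1)]⟩⟩ ⟨false,0,⟨7,[(2,2),(0,1),(0,1),(0,3),(6,3),(6,0),(3,0),(17,3)]⟩,⟨1,[(1,1),(9,1),(6,1),(11,
  1),(2,0),(5,1),(1,0)]⟩⟩,.a ⟨true,1,⟨0,[(22,0)]⟩,⟨0,[(2,0),(38,0)]⟩⟩ ⟨false,1,⟨3,[(4,1),(7,1),(17,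
  1),(2,0),(6,0)]⟩,⟨1,[(11,1),(17,0),(0,0),(8,1),(1,1)]⟩⟩ ⟨true,(-1),⟨3,[(2,3),(0,1),(8,1),(20,0),
  (7,2)]⟩,⟨1,[(1,1),(9,1),(6,1),(11,1),(2,0),(5,1),(1,0)]⟩⟩,.o ⟨false,1,⟨0,[(1,0)]⟩,⟨0,[(5,
  0)]⟩⟩]⟩)) (.Q [0,0,0,0,0,-1,0,0,0,1,0,-1] (.ed true [0,1,0,0,1] .k) (.S ⟨1,0,[],[1,0,0,0,-1],[0,
  -1],(⟨0,[(24,0)]⟩,⟨0,[(25,0)]⟩),⟨0,[(0,0)]⟩,.k,(.r (-1) ⟨13,[(4,3),(8,2),(3,2),(1,1),(8,0),(4,0),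
  (7,5)]⟩ ⟨1,[(29,0),(0,0),(8,1),(3,1)]⟩),⟨false,1,⟨1,[(22,0),(0,0),(17,0)]⟩,⟨0,[]⟩⟩,⟨true,0,⟨0,
  [(43,0)]⟩,⟨0,[]⟩⟩,⟨true,0,⟨0,[(39,0)]⟩,⟨1,[(3,0),(24,0)]⟩⟩,⟨false,0,⟨0,[(39,0)]⟩,⟨1,[(3,0),(24,0),
  (12,1)]⟩⟩,[.e ⟨false,1,⟨1,[(40,0),(0,0)]⟩,⟨0,[(43,0)]⟩⟩ ⟨false,1,⟨1,[(22,0),(0,0),(16,0)]⟩,⟨0,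
  []⟩⟩,.o ⟨false,2,⟨1,[(22,1),(10,0),(7,0)]⟩,⟨3,[(1,1),(0,1),(26,0),(0,0),(2,1)]⟩⟩,.e ⟨false,1,⟨0,
  [(41,0)]⟩,⟨0,[(43,0)]⟩⟩ ⟨false,1,⟨1,[(22,0),(0,0),(17,0)]⟩,⟨0,[]⟩⟩,.a ⟨true,1,⟨1,[(22,1),(6,0),(0,
  0)]⟩,⟨0,[(1,0)]⟩⟩ ⟨true,1,⟨1,[(40,0),(0,0)]⟩,⟨0,[(11,0),(15,0),(2,0)]⟩⟩ ⟨false,1,⟨1,[(40,0),(0,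
  0)]⟩,⟨1,[(29,0),(0,0)]⟩⟩]⟩) (.Q [0,0,1,0,-1,0,0,0,1,0,0,-1] (.p false [0,0,0,0,1] [] (⟨0,[(25,
  0)]⟩,⟨0,[(24,0)]⟩) .k 0 (⟨0,[]⟩,⟨0,[]⟩) .k .k) (.S ⟨1,0,[0,2],[0,0,0,0,1],[1,1,0,-1],(⟨0,[(26,
  0)]⟩,⟨0,[(25,0)]⟩),⟨0,[(1,0),(19,0),(0,0)]⟩,.k,(.r 0 ⟨0,[(38,0)]⟩ ⟨1,[(23,0),(0,0),(5,0),(0,0),(8,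
  1),(1,0)]⟩),⟨false,1,⟨1,[(4,0),(24,0),(12,1)]⟩,⟨0,[(40,0)]⟩⟩,⟨true,0,⟨0,[(44,0)]⟩,⟨0,[]⟩⟩,⟨true,0,
  ⟨0,[]⟩,⟨0,[(44,0)]⟩⟩,⟨false,0,⟨0,[(40,0)]⟩,⟨1,[(4,0),(24,0),(12,1)]⟩⟩,[.e ⟨false,0,⟨9,[(4,0),(11,
  3),(12,0),(7,1)]⟩,⟨1,[(23,0),(0,0),(15,1),(1,0)]⟩⟩ ⟨false,0,⟨0,[(37,0)]⟩,⟨0,[(42,0)]⟩⟩,.o ⟨false,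
  (-1),⟨3,[(0,0),(2,1),(2,0),(27,0)]⟩,⟨1,[(23,1),(10,0),(7,0)]⟩⟩,.a ⟨true,(-1),⟨3,[(0,0),(1,2),(17,
  0),(10,1)]⟩,⟨0,[(23,0)]⟩⟩ ⟨true,0,⟨1,[(4,0),(24,0)]⟩,⟨0,[(40,0)]⟩⟩ ⟨false,0,⟨0,[(44,0)]⟩,⟨0,[(42,
  0)]⟩⟩,.o ⟨false,(-1),⟨0,[(0,0)]⟩,⟨1,[(23,1),(10,0),(6,0)]⟩⟩]⟩) (.R ⟨0,false,false,false,[1,0,0,0,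
  -1],[0,0,1],[1,1],(⟨0,[(25,0)]⟩,⟨0,[(26,0)]⟩),(⟨0,[(33,0)]⟩,⟨0,[(32,0)]⟩),⟨0,[(1,0)]⟩,.k,.k,(.r
  (-1) ⟨13,[(5,3),(8,2),(3,2),(1,1),(8,0),(4,0),(7,5)]⟩ ⟨1,[(30,0),(0,0),(8,1),(3,1)]⟩),.k,.k,.k,
  ⟨true,(-1),⟨0,[(12,0)]⟩,⟨1,[(13,1),(17,1),(2,0),(7,0)]⟩⟩,⟨false,(-1),⟨0,[(2,0),(12,0)]⟩,⟨1,[(23,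
  1),(7,1),(2,0),(6,0)]⟩⟩,⟨false,0,⟨0,[(44,0)]⟩,⟨0,[(42,0)]⟩⟩,⟨true,(-1),⟨3,[(2,1),(0,1),(9,3),(16,
  0),(0,0),(2,1)]⟩,⟨1,[(0,1),(11,1),(18,1),(2,0),(7,0)]⟩⟩,⟨false,0,⟨0,[]⟩,⟨0,[]⟩⟩,⟨false,0,⟨0,[]⟩,
  ⟨0,[]⟩⟩,[.e ⟨false,0,⟨2,[(17,0),(19,0),(2,0)]⟩,⟨1,[(23,0),(0,0),(17,0)]⟩⟩ ⟨false,0,⟨0,[(6,0),(6,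
  0)]⟩,⟨1,[(0,1),(11,1),(18,1),(2,0),(7,0)]⟩⟩,.o ⟨false,1,⟨1,[(13,1),(20,0),(7,0)]⟩,⟨1,[(0,0),(8,0),
  (2,0),(18,0),(2,0)]⟩⟩,.e ⟨false,0,⟨0,[]⟩,⟨1,[(23,0),(0,0),(17,0)]⟩⟩ ⟨false,0,⟨1,[(2,1),(10,1),(16,
  0),(0,0),(2,0),(7,0)]⟩,⟨1,[(0,1),(11,1),(18,1),(2,0),(7,0)]⟩⟩,.a ⟨true,1,⟨1,[(23,1),(6,0),(0,0)]⟩,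
  ⟨0,[(2,0)]⟩⟩ ⟨true,0,⟨2,[(17,0),(19,0),(2,0)]⟩,⟨1,[(30,0),(0,0)]⟩⟩ ⟨false,0,⟨1,[(2,1),(10,1),(20,
  0),(7,0)]⟩,⟨1,[(12,1),(10,1),(7,1),(2,0),(7,0)]⟩⟩]⟩)))))) (.I [0,0,-2,0,1,2,-1] (.N [0,-2,1] (-1)
  ⟨0,[(4,0)]⟩ ⟨0,[(1,0)]⟩ (.x 0 ⟨12,[(1,7),(1,2),(2,11),(0,3),(9,1),(0,20),(7,6),(3,0),(7,7)]⟩ ⟨0,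
  [(0,0)]⟩)) (.Q [0,0,-1,0,1,0,0,0,-1,0,0,1] (.p true [0,0,0,0,1] [] (⟨0,[(22,0)]⟩,⟨0,[(21,0)]⟩) .k
  0 (⟨0,[]⟩,⟨0,[]⟩) .k .k) (.I [0,0,2,0,-1,-2,1] (.N [0,-2,1] (-1) ⟨0,[(6,0)]⟩ ⟨0,[(3,0)]⟩ (.x 1 ⟨0,
  [(0,0)]⟩ ⟨3,[(5,1),(15,0),(0,0),(11,9),(4,4)]⟩)) (.Q [0,1,0,0,-1,0,0,0,1,0,0,-1] (.p false [0,0,0,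
  0,1] [] (⟨0,[(24,0)]⟩,⟨0,[(23,0)]⟩) .k 0 (⟨0,[]⟩,⟨0,[]⟩) .k .k) (.Q [0,2,0,0,-2,0,0,0,1,1,0,-1]
  (.p false [0,0,0,0,1] [1] (⟨0,[(25,0)]⟩,⟨0,[(24,0)]⟩) .k 1 (⟨0,[]⟩,⟨0,[]⟩) .k .k) (.Q [0,0,1,0,1,
  0,0,0,-1,-1,0,1] (.p true [0,0,0,0,1] [1] (⟨0,[(26,0)]⟩,⟨0,[(25,0)]⟩) .k 1 (⟨0,[]⟩,⟨0,[]⟩) .k .k)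
  (.Q [0,0,0,0,0,-1,0,0,0,1,0,-1] (.ed true [0,1,0,0,1] .k) (.S ⟨1,0,[0,-1],[1,0,0,0,-1],[],(⟨0,
  [(27,0)]⟩,⟨0,[(28,0)]⟩),⟨0,[(0,0)]⟩,.k,(.r (-1) ⟨13,[(10,3),(5,2),(3,2),(1,1),(8,0),(4,0),(7,5)]⟩
  ⟨7,[(1,2),(5,2),(7,2),(10,2),(6,2),(5,3),(2,1)]⟩),⟨true,0,⟨0,[(46,0)]⟩,⟨0,[]⟩⟩,⟨false,1,⟨1,[(25,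
  0),(0,0),(17,0)]⟩,⟨0,[]⟩⟩,⟨false,0,⟨0,[(42,0)]⟩,⟨0,[(41,0),(2,0)]⟩⟩,⟨true,0,⟨0,[(42,0)]⟩,⟨0,[(41,
  0)]⟩⟩,[.o ⟨false,2,⟨1,[(1,1),(41,0),(0,0)]⟩,⟨0,[(3,0)]⟩⟩,.a ⟨true,2,⟨0,[(25,0),(18,0)]⟩,⟨0,[(2,
  0)]⟩⟩ ⟨false,1,⟨1,[(43,0),(0,0)]⟩,⟨0,[(46,0)]⟩⟩ ⟨true,1,⟨0,[(44,0)]⟩,⟨0,[(1,0),(0,0)]⟩⟩,.e ⟨false,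
  1,⟨1,[(25,0),(0,0),(17,0)]⟩,⟨0,[]⟩⟩ ⟨false,1,⟨0,[(44,0)]⟩,⟨0,[(46,0)]⟩⟩,.o ⟨false,1,⟨0,[(1,0)]⟩,
  ⟨0,[(8,0)]⟩⟩]⟩) (.R ⟨0,false,false,true,[1,0,0,0,-1],[0,-1,1],[1,1,-1,-1,0,0,0,1],(⟨0,[(27,0)]⟩,
  ⟨0,[(28,0)]⟩),(⟨0,[(24,0)]⟩,⟨0,[(34,0),(3,0)]⟩),⟨0,[(0,0)]⟩,.k,.k,(.r (-1) ⟨13,[(10,3),(5,2),(3,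
  2),(1,1),(8,0),(4,0),(7,5)]⟩ ⟨7,[(1,2),(5,2),(7,2),(10,2),(6,2),(5,3),(2,1)]⟩),(.r 0 ⟨13,[(7,9),
  (8,2),(3,2),(1,1),(8,0),(4,0),(7,5)]⟩ ⟨25,[(1,6),(2,1),(4,3),(0,12),(4,6),(10,6),(3,5),(2,2),(1,
  9),(3,9)]⟩),.k,.k,⟨true,0,⟨0,[]⟩,⟨1,[(32,0),(0,0)]⟩⟩,⟨false,(-1),⟨0,[(2,0),(14,0),(26,0)]⟩,⟨5,[(1,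
  1),(2,2),(0,3),(3,0),(14,4),(8,0),(2,1)]⟩⟩,⟨true,0,⟨0,[(19,0),(10,0),(2,0)]⟩,⟨13,[(7,9),(8,2),(3,
  2),(1,1),(8,0),(4,0),(7,5)]⟩⟩,⟨false,(-1),⟨0,[(2,0),(9,0),(31,0)]⟩,⟨1,[(5,1),(1,1),(12,1),(12,1),
  (2,0),(7,0)]⟩⟩,⟨false,0,⟨0,[]⟩,⟨0,[]⟩⟩,⟨false,0,⟨0,[]⟩,⟨0,[]⟩⟩,[.o ⟨false,0,⟨0,[(12,0)]⟩,⟨17,[(4,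
  5),(2,11),(1,1),(6,5),(4,7),(2,9),(8,1),(2,12),(7,8)]⟩⟩,.e ⟨false,1,⟨0,[(10,0),(31,0)]⟩,⟨15,[(1,
  1),(5,7),(14,3),(3,1),(4,7),(4,0),(6,0),(0,3)]⟩⟩ ⟨false,0,⟨3,[(2,0),(0,1),(6,1),(4,1),(6,0),(3,0),
  (17,1)]⟩,⟨2,[(5,2),(1,1),(6,0),(5,0),(0,0),(11,2),(2,1)]⟩⟩,.a ⟨true,1,⟨0,[(25,0)]⟩,⟨0,[(2,0),(41,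
  0)]⟩⟩ ⟨false,1,⟨7,[(4,0),(4,0),(0,3),(4,3),(8,0),(8,0),(1,1),(0,1)]⟩,⟨13,[(7,9),(8,2),(3,2),(1,1),
  (8,0),(4,0),(7,5)]⟩⟩ ⟨true,(-1),⟨0,[(2,0),(9,0),(31,0)]⟩,⟨2,[(5,2),(1,1),(6,0),(5,0),(0,0),(11,2),
  (2,1)]⟩⟩,.o ⟨false,1,⟨0,[(1,0)]⟩,⟨0,[(8,0)]⟩⟩]⟩)) (.Q [0,0,0,0,0,-1,0,0,0,1,0,-1] (.ed true [0,1,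
  0,0,1] .k) (.S ⟨1,0,[],[1,0,0,0,-1],[0,-1],(⟨0,[(27,0)]⟩,⟨0,[(28,0)]⟩),⟨0,[(0,0)]⟩,.k,(.r (-1)
  ⟨13,[(10,3),(5,2),(3,2),(1,1),(8,0),(4,0),(7,5)]⟩ ⟨6,[(7,2),(17,2),(0,2),(3,2),(2,2),(5,1),(2,
  0)]⟩),⟨false,1,⟨1,[(25,0),(0,0),(17,0)]⟩,⟨0,[]⟩⟩,⟨true,0,⟨0,[(46,0)]⟩,⟨0,[]⟩⟩,⟨true,0,⟨0,[(42,
  0)]⟩,⟨0,[(41,0)]⟩⟩,⟨false,0,⟨0,[(42,0)]⟩,⟨0,[(41,0),(2,0)]⟩⟩,[.e ⟨false,1,⟨1,[(43,0),(0,0)]⟩,⟨0,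
  [(46,0)]⟩⟩ ⟨false,1,⟨1,[(25,0),(0,0),(16,0)]⟩,⟨0,[]⟩⟩,.o ⟨false,2,⟨1,[(25,1),(10,0),(7,0)]⟩,⟨0,
  [(3,0)]⟩⟩,.e ⟨false,1,⟨0,[(44,0)]⟩,⟨0,[(46,0)]⟩⟩ ⟨false,1,⟨1,[(25,0),(0,0),(17,0)]⟩,⟨0,[]⟩⟩,.a
  ⟨true,1,⟨1,[(25,1),(6,0),(0,0)]⟩,⟨0,[(1,0)]⟩⟩ ⟨true,1,⟨1,[(43,0),(0,0)]⟩,⟨0,[(14,0),(15,0),(2,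
  0)]⟩⟩ ⟨false,1,⟨1,[(43,0),(0,0)]⟩,⟨1,[(32,0),(0,0)]⟩⟩]⟩) (.R ⟨0,false,false,true,[1,0,0,0,-1],[0,
  1],[1,1],(⟨0,[(27,0)]⟩,⟨0,[(28,0)]⟩),(⟨0,[(38,0)]⟩,⟨0,[(37,0)]⟩),⟨0,[(0,0)]⟩,.k,.k,(.r (-1) ⟨13,
  [(10,3),(5,2),(3,2),(1,1),(8,0),(4,0),(7,5)]⟩ ⟨6,[(7,2),(17,2),(0,2),(3,2),(2,2),(5,1),(2,0)]⟩),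
  (.r (-1) ⟨13,[(10,3),(5,2),(3,2),(1,1),(8,0),(4,0),(7,5)]⟩ ⟨6,[(7,2),(17,2),(0,2),(3,2),(2,2),(5,
  1),(2,0)]⟩),.k,.k,⟨false,1,⟨14,[(10,3),(7,0),(1,4),(1,1),(8,3),(4,0),(6,4)]⟩,⟨5,[(7,1),(7,1),(9,
  0),(0,0),(6,1),(2,0),(5,1)]⟩⟩,⟨true,(-1),⟨0,[(1,0)]⟩,⟨1,[(5,0),(0,1),(2,0),(15,0),(10,0),(1,4)]⟩⟩,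
  ⟨false,0,⟨0,[(46,0)]⟩,⟨0,[(44,0)]⟩⟩,⟨true,(-2),⟨0,[(2,0),(39,0)]⟩,⟨1,[(5,0),(6,0),(0,0),(11,0),(7,
  0),(2,0),(7,1)]⟩⟩,⟨false,0,⟨0,[]⟩,⟨0,[]⟩⟩,⟨false,0,⟨0,[]⟩,⟨0,[]⟩⟩,[.e ⟨false,0,⟨2,[(19,0),(19,0),
  (2,0)]⟩,⟨1,[(25,0),(0,0),(17,0)]⟩⟩ ⟨false,(-1),⟨1,[(2,0),(18,0),(4,0),(15,1)]⟩,⟨1,[(5,0),(6,0),(0,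
  0),(11,0),(7,0),(2,0),(7,1)]⟩⟩,.o ⟨false,0,⟨0,[(42,0)]⟩,⟨1,[(36,0),(4,1),(2,0)]⟩⟩,.e ⟨false,0,⟨0,
  []⟩,⟨1,[(25,0),(0,0),(17,0)]⟩⟩ ⟨false,(-1),⟨3,[(1,2),(5,0),(7,0),(10,0),(6,0),(8,1)]⟩,⟨1,[(5,0),
  (6,0),(0,0),(11,0),(7,0),(2,0),(7,1)]⟩⟩,.a ⟨true,1,⟨1,[(25,1),(6,0),(0,0)]⟩,⟨0,[(1,0)]⟩⟩ ⟨true,0,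
  ⟨2,[(19,0),(19,0),(2,0)]⟩,⟨1,[(32,0),(0,0)]⟩⟩ ⟨false,(-1),⟨0,[(1,0),(40,0)]⟩,⟨3,[(12,1),(0,1),(11,
  3),(6,0),(0,2),(2,1),(7,3)]⟩⟩]⟩))) (.R ⟨1,false,false,false,[1,0,-1],[1,0,0,0,-1],[1,0,0,-1,0,0,0,
  -1],(⟨0,[(32,0)]⟩,⟨0,[(33,0)]⟩),(⟨0,[(25,0)]⟩,⟨0,[(26,0)]⟩),⟨0,[(21,0)]⟩,.k,.k,.k,.k,(.r 0 ⟨19,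
  [(11,4),(0,2),(3,4),(1,4),(1,5),(8,11),(4,2)]⟩ ⟨1,[(13,1),(17,1),(2,0),(5,1),(1,0)]⟩),.k,⟨true,
  (-1),⟨0,[(11,0)]⟩,⟨1,[(13,1),(17,1),(2,0),(5,1),(1,0)]⟩⟩,⟨false,1,⟨0,[(3,0),(11,0)]⟩,⟨0,[(6,0),
  (24,0)]⟩⟩,⟨false,1,⟨0,[(39,0),(2,0)]⟩,⟨0,[(40,0)]⟩⟩,⟨false,2,⟨0,[(0,0),(12,0)]⟩,⟨0,[(9,0)]⟩⟩,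
  ⟨true,0,⟨0,[]⟩,⟨0,[(44,0)]⟩⟩,⟨false,2,⟨0,[(0,0),(12,0),(26,0)]⟩,⟨0,[(1,0),(12,0)]⟩⟩,[.o ⟨false,2,
  ⟨3,[(0,1),(22,2),(0,0),(9,0)]⟩,⟨0,[(1,0)]⟩⟩,.o ⟨false,2,⟨0,[(0,0)]⟩,⟨0,[(9,0),(18,0)]⟩⟩,.o ⟨false,
  1,⟨3,[(2,0),(4,0),(14,0),(8,0),(1,1),(0,1)]⟩,⟨0,[(15,0)]⟩⟩,.a ⟨true,0,⟨0,[(31,0)]⟩,⟨0,[(27,0)]⟩⟩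
  ⟨true,0,⟨11,[(11,1),(0,5),(1,3),(3,5),(1,1),(13,0),(7,0)]⟩,⟨0,[(28,0),(2,0),(8,0)]⟩⟩ ⟨false,2,⟨1,
  [(0,1),(18,0),(0,0)]⟩,⟨0,[(1,0),(29,0)]⟩⟩]⟩)) (.Q [0,0,0,0,0,-1,0,0,0,1,0,-1] (.ed true [0,1,0,0,
  1] .k) (.S ⟨1,0,[],[1,0,0,0,-1],[0,-1],(⟨0,[(25,0)]⟩,⟨0,[(26,0)]⟩),⟨0,[(0,0)]⟩,.k,(.r (-1) ⟨13,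
  [(8,3),(5,2),(3,2),(1,1),(8,0),(4,0),(7,5)]⟩ ⟨6,[(5,2),(17,2),(0,2),(3,2),(2,2),(5,1),(2,0)]⟩),
  ⟨false,1,⟨1,[(23,0),(0,0),(17,0)]⟩,⟨0,[]⟩⟩,⟨true,0,⟨0,[(44,0)]⟩,⟨0,[]⟩⟩,⟨true,0,⟨0,[(40,0)]⟩,⟨0,
  [(39,0)]⟩⟩,⟨false,0,⟨0,[(40,0)]⟩,⟨0,[(39,0),(2,0)]⟩⟩,[.e ⟨false,1,⟨1,[(41,0),(0,0)]⟩,⟨0,[(44,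
  0)]⟩⟩ ⟨false,1,⟨1,[(23,0),(0,0),(16,0)]⟩,⟨0,[]⟩⟩,.a ⟨true,1,⟨0,[(1,0)]⟩,⟨0,[(9,0),(3,0)]⟩⟩ ⟨true,
  1,⟨0,[(42,0)]⟩,⟨0,[(12,0),(15,0),(2,0)]⟩⟩ ⟨false,1,⟨1,[(41,0),(0,0)]⟩,⟨0,[(44,0)]⟩⟩,.e ⟨false,1,
  ⟨0,[(42,0)]⟩,⟨0,[(44,0)]⟩⟩ ⟨false,1,⟨1,[(23,0),(0,0),(17,0)]⟩,⟨0,[]⟩⟩,.o ⟨false,1,⟨3,[(1,2),(3,0),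
  (4,1),(1,0),(10,0),(7,1),(2,1)]⟩,⟨0,[(6,0)]⟩⟩]⟩) (.Q [0,0,1,0,0,0,1,0,-1,0,-1,1] (.p false [0,0,
  1] [0,0,0,0,1] (⟨0,[(33,0)]⟩,⟨0,[(32,0)]⟩) .k 2 (⟨0,[(26,0)]⟩,⟨0,[(25,0)]⟩) .k (.r (-2) ⟨9,[(2,1),
  (4,3),(5,9),(9,3),(0,3),(8,9),(0,4),(7,4)]⟩ ⟨0,[(11,0),(28,0)]⟩)) (.R ⟨0,false,false,false,[1,0,0,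
  0,-1],[1,0,-1],[1],(⟨0,[(26,0)]⟩,⟨0,[(27,0)]⟩),(⟨0,[(33,0)]⟩,⟨0,[(34,0)]⟩),⟨0,[(1,0)]⟩,.k,.k,(.r
  (-1) ⟨13,[(9,3),(5,2),(3,2),(1,1),(8,0),(4,0),(7,5)]⟩ ⟨6,[(6,2),(17,2),(0,2),(3,2),(2,2),(5,1),(2,
  0)]⟩),.k,.k,.k,⟨false,1,⟨13,[(3,2),(4,0),(0,5),(4,7),(8,4),(8,2),(2,3),(5,11)]⟩,⟨14,[(6,4),(6,1),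
  (1,4),(3,4),(1,3),(8,2),(4,1)]⟩⟩,⟨true,0,⟨0,[(7,0),(24,0)]⟩,⟨0,[(0,0)]⟩⟩,⟨false,0,⟨0,[]⟩,⟨1,[(24,
  0),(0,0),(17,0)]⟩⟩,⟨true,(-1),⟨0,[(10,0)]⟩,⟨0,[(2,0),(26,0)]⟩⟩,⟨false,0,⟨0,[]⟩,⟨0,[]⟩⟩,⟨false,0,
  ⟨0,[]⟩,⟨0,[]⟩⟩,[.a ⟨true,0,⟨17,[(3,2),(2,5),(1,0),(6,11),(4,3),(2,4),(8,0),(2,1)]⟩,⟨0,[(14,0)]⟩⟩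
  ⟨true,0,⟨0,[]⟩,⟨1,[(31,0),(0,0)]⟩⟩ ⟨false,0,⟨1,[(10,1),(31,0),(0,0)]⟩,⟨0,[(2,0),(26,0)]⟩⟩,.o
  ⟨false,1,⟨17,[(3,2),(2,5),(1,0),(6,11),(4,3),(2,4),(8,0),(2,10),(7,8)]⟩,⟨0,[(29,0)]⟩⟩,.o ⟨false,1,
  ⟨1,[(0,0),(1,0),(15,0),(13,0),(2,0),(5,0)]⟩,⟨0,[(25,0)]⟩⟩,.o ⟨false,1,⟨1,[(0,0),(23,0),(7,0),(2,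
  0)]⟩,⟨0,[(7,0)]⟩⟩]⟩) (.Q [0,0,0,0,1,0,0,0,-1,-1,0,1] (.p true [0,0,0,0,1] [1] (⟨0,[(27,0)]⟩,⟨0,
  [(26,0)]⟩) .k 1 (⟨0,[]⟩,⟨0,[]⟩) .k .k) (.S ⟨1,0,[0,1],[0,0,0,0,1],[0,2],(⟨0,[(28,0)]⟩,⟨0,[(27,
  0)]⟩),⟨8,[(2,0),(3,3),(2,1),(11,4),(6,7),(7,1)]⟩,.k,(.r 0 ⟨0,[(40,0)]⟩ ⟨5,[(7,1),(7,1),(9,3),(0,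
  3),(6,1),(2,0),(5,1),(1,2)]⟩),⟨true,0,⟨0,[(46,0)]⟩,⟨0,[]⟩⟩,⟨false,1,⟨1,[(25,0),(0,0),(17,0)]⟩,⟨0,
  []⟩⟩,⟨false,0,⟨0,[(42,0)]⟩,⟨0,[(41,0),(2,0)]⟩⟩,⟨true,0,⟨0,[(42,0)]⟩,⟨0,[(41,0)]⟩⟩,[.e ⟨false,0,⟨0,
  [(39,0)]⟩,⟨0,[(44,0)]⟩⟩ ⟨false,0,⟨2,[(19,0),(19,0),(2,0)]⟩,⟨1,[(25,0),(0,0),(17,0)]⟩⟩,.o ⟨false,0,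
  ⟨0,[(26,0)]⟩,⟨0,[(0,0)]⟩⟩,.o ⟨false,0,⟨0,[(26,0)]⟩,⟨0,[(0,0)]⟩⟩,.a ⟨true,(-1),⟨0,[(1,0),(4,0),(27,
  0),(3,1)]⟩,⟨0,[(5,0)]⟩⟩ ⟨false,0,⟨2,[(19,0),(19,0),(2,0)]⟩,⟨1,[(32,0),(0,0),(10,1)]⟩⟩ ⟨true,0,⟨2,
  [(19,0),(19,0),(2,0)]⟩,⟨1,[(32,0),(0,0)]⟩⟩]⟩) (.R ⟨0,false,false,true,[1,0,0,0,-1],[1,-1],[0,1,0,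
  -1],(⟨0,[(27,0)]⟩,⟨0,[(28,0)]⟩),(⟨0,[(37,0)]⟩,⟨0,[(38,0)]⟩),⟨0,[(2,0)]⟩,.k,.k,(.r (-1) ⟨13,[(10,
  3),(5,2),(3,2),(1,1),(8,0),(4,0),(7,5)]⟩ ⟨6,[(7,2),(17,2),(0,2),(3,2),(2,2),(5,1),(2,0)]⟩),(.r
  (-1) ⟨5,[(7,1),(7,1),(9,3),(0,3),(6,1),(2,0),(5,1),(1,2)]⟩ ⟨0,[(40,0)]⟩),.k,.k,⟨true,0,⟨1,[(32,0),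
  (0,0)]⟩,⟨0,[]⟩⟩,⟨false,0,⟨0,[(26,0)]⟩,⟨0,[(5,0)]⟩⟩,⟨false,0,⟨0,[(41,0)]⟩,⟨0,[(42,0),(1,0)]⟩⟩,
  ⟨true,(-1),⟨0,[(11,0),(0,0)]⟩,⟨0,[(3,0),(38,0)]⟩⟩,⟨false,0,⟨0,[]⟩,⟨0,[]⟩⟩,⟨false,0,⟨0,[]⟩,⟨0,[]⟩⟩,
  [.e ⟨false,0,⟨0,[(40,0)]⟩,⟨1,[(25,0),(0,0),(15,1),(1,0)]⟩⟩ ⟨false,0,⟨4,[(18,1),(7,4),(12,0),(1,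
  0)]⟩,⟨0,[(3,0),(38,0)]⟩⟩,.o ⟨false,1,⟨1,[(36,0),(4,1),(2,0)]⟩,⟨0,[(42,0)]⟩⟩,.a ⟨true,1,⟨0,[(25,
  0)]⟩,⟨0,[(0,0)]⟩⟩ ⟨true,0,⟨0,[(41,0)]⟩,⟨0,[(42,0)]⟩⟩ ⟨false,0,⟨3,[(0,1),(11,1),(3,1),(9,1),(9,0),
  (7,0)]⟩,⟨0,[(3,0),(38,0)]⟩⟩,.o ⟨false,1,⟨3,[(3,2),(3,0),(4,1),(1,0),(10,0),(7,1),(2,1)]⟩,⟨0,[(8,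
  0)]⟩⟩]⟩)))))) (.Q [0,0,0,0,0,-1,0,0,0,0,0,1] (.ed false [1,-1,0,0,1] .k) (.S ⟨1,0,[0,2],[0,0,0,0,
  1],[1,1,0,-1],(⟨0,[(24,0)]⟩,⟨0,[(23,0)]⟩),⟨0,[(0,0)]⟩,.k,(.r 0 ⟨0,[(36,0)]⟩ ⟨5,[(3,1),(7,1),(9,3),
  (0,3),(6,1),(2,0),(5,1),(1,2)]⟩),⟨false,1,⟨0,[(37,0),(2,0)]⟩,⟨0,[(38,0)]⟩⟩,⟨true,0,⟨0,[(42,0)]⟩,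
  ⟨0,[]⟩⟩,⟨true,0,⟨0,[]⟩,⟨0,[(42,0)]⟩⟩,⟨false,0,⟨0,[(38,0)]⟩,⟨0,[(37,0),(2,0)]⟩⟩,[.e ⟨false,0,⟨4,
  [(14,1),(20,0),(1,0)]⟩,⟨1,[(21,0),(0,0),(15,1),(1,0)]⟩⟩ ⟨false,0,⟨0,[(35,0)]⟩,⟨0,[(40,0)]⟩⟩,.o
  ⟨false,(-1),⟨2,[(1,1),(5,0),(7,0),(10,0),(11,0)]⟩,⟨1,[(21,1),(10,0),(7,0)]⟩⟩,.a ⟨true,(-1),⟨10,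
  [(1,8),(1,0),(3,1),(3,4),(0,1),(4,5),(11,0),(10,0)]⟩,⟨0,[(21,0)]⟩⟩ ⟨true,0,⟨0,[(37,0)]⟩,⟨0,[(38,
  0)]⟩⟩ ⟨false,0,⟨0,[(42,0)]⟩,⟨0,[(40,0)]⟩⟩,.o ⟨false,(-1),⟨0,[(1,0)]⟩,⟨1,[(21,1),(10,0),(6,
  0)]⟩⟩]⟩) (.S ⟨1,0,[],[1,0,0,0,-1],[0,-1],(⟨0,[(23,0)]⟩,⟨0,[(24,0)]⟩),⟨8,[(0,0),(1,3),(2,1),(11,4),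
  (5,7),(8,1)]⟩,.k,(.r (-1) ⟨13,[(6,3),(5,2),(3,2),(1,1),(8,0),(4,0),(7,5)]⟩ ⟨6,[(3,2),(17,2),(0,2),
  (3,2),(2,2),(5,1),(2,0)]⟩),⟨false,1,⟨1,[(21,0),(0,0),(17,0)]⟩,⟨0,[]⟩⟩,⟨true,0,⟨0,[(42,0)]⟩,⟨0,
  []⟩⟩,⟨true,0,⟨0,[(38,0)]⟩,⟨0,[(37,0)]⟩⟩,⟨false,0,⟨0,[(38,0)]⟩,⟨0,[(37,0),(2,0)]⟩⟩,[.e ⟨false,1,⟨1,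
  [(39,0),(0,0)]⟩,⟨0,[(42,0)]⟩⟩ ⟨false,1,⟨1,[(21,0),(0,0),(16,0)]⟩,⟨0,[]⟩⟩,.o ⟨false,2,⟨1,[(21,1),
  (10,0),(7,0)]⟩,⟨2,[(1,1),(5,0),(7,0),(10,0),(11,0)]⟩⟩,.e ⟨false,1,⟨0,[(40,0)]⟩,⟨0,[(42,0)]⟩⟩
  ⟨false,1,⟨1,[(21,0),(0,0),(17,0)]⟩,⟨0,[]⟩⟩,.a ⟨true,1,⟨1,[(21,1),(6,0),(0,0)]⟩,⟨0,[(1,0),(15,
  0)]⟩⟩ ⟨true,1,⟨1,[(39,0),(0,0)]⟩,⟨0,[(10,0),(15,0),(2,0)]⟩⟩ ⟨false,1,⟨1,[(39,0),(0,0)]⟩,⟨1,[(28,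
  0),(0,0)]⟩⟩]⟩))))))

theorem ok167 : chk K t167 r90 = true := by decide +kernel

noncomputable def t170 : Tre :=
  (.Q [0,0,0,0,0,-1,0,0,0,1,0,-1] (.ed true [0,1,0,0,1] .k) (.R ⟨1,false,false,false,[1,0,0,0,-1],
  [1,-1,-1],[],(⟨0,[(17,0)]⟩,⟨0,[(18,0)]⟩),(⟨0,[(13,0)]⟩,⟨0,[(25,0),(2,0)]⟩),⟨0,[(0,0)]⟩,.k,.k,(.r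
  (-1) ⟨1,[(10,0),(20,0),(2,0)]⟩ ⟨1,[(22,0),(0,0),(8,1),(3,1)]⟩),(.r (-1) ⟨0,[(1,0),(14,0),(6,0),(8,
  0)]⟩ ⟨19,[(3,4),(0,2),(3,4),(1,4),(1,5),(8,11),(4,2)]⟩),.k,.k,⟨false,1,⟨1,[(1,0),(14,0),(3,0),(2,
  1),(8,1),(0,0)]⟩,⟨11,[(3,1),(0,5),(1,3),(3,5),(1,1),(13,0),(7,0)]⟩⟩,⟨true,0,⟨0,[(16,0),(6,0)]⟩,⟨0,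
  [(1,0),(2,0)]⟩⟩,⟨true,0,⟨0,[(36,0)]⟩,⟨0,[]⟩⟩,⟨false,0,⟨0,[(6,0),(9,0)]⟩,⟨0,[(1,0),(30,0)]⟩⟩,
  ⟨false,0,⟨0,[(32,0)]⟩,⟨0,[(31,0),(2,0)]⟩⟩,⟨false,0,⟨0,[(6,0),(9,0),(15,0)]⟩,⟨0,[(1,0)]⟩⟩,[.e
  ⟨false,1,⟨1,[(15,0),(0,0),(16,0)]⟩,⟨0,[]⟩⟩ ⟨false,0,⟨0,[(4,0),(5,0),(5,0),(6,0)]⟩,⟨1,[(1,0),(13,
  0),(4,0),(11,1)]⟩⟩,.o ⟨false,1,⟨1,[(6,1),(19,0),(7,0)]⟩,⟨0,[(20,0),(11,0)]⟩⟩,.o ⟨false,1,⟨2,[(1,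
  1),(2,1),(6,0),(3,0),(7,1),(2,1)]⟩,⟨0,[(16,0)]⟩⟩,.a ⟨true,0,⟨0,[(1,0),(2,0),(18,0)]⟩,⟨1,[(11,0),
  (4,1),(7,0),(0,0)]⟩⟩ ⟨false,1,⟨1,[(33,0),(0,0)]⟩,⟨1,[(22,0),(0,0)]⟩⟩ ⟨true,0,⟨0,[(4,0),(5,0),(5,
  0),(6,0)]⟩,⟨0,[(1,0),(2,0),(15,0),(2,0),(8,0)]⟩⟩]⟩) (.R ⟨0,false,false,false,[1,0,0,0,-1],[1,0,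
  -1],[1,1,1],(⟨0,[(17,0)]⟩,⟨0,[(18,0)]⟩),(⟨0,[(24,0)]⟩,⟨0,[(25,0)]⟩),⟨0,[(0,0)]⟩,.k,.k,(.r (-1) ⟨1,
  [(10,0),(20,0),(2,0)]⟩ ⟨1,[(22,0),(0,0),(8,1),(3,1)]⟩),.k,.k,.k,⟨true,0,⟨0,[(20,0),(2,0)]⟩,⟨0,[(4,
  0),(29,0)]⟩⟩,⟨false,1,⟨0,[(16,0),(6,0),(9,0)]⟩,⟨0,[(1,0),(2,0)]⟩⟩,⟨true,(-1),⟨0,[(4,0),(15,0),(2,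
  0)]⟩,⟨1,[(33,0),(0,0)]⟩⟩,⟨false,0,⟨0,[(6,0),(9,0),(15,0)]⟩,⟨0,[(1,0)]⟩⟩,⟨false,0,⟨0,[]⟩,⟨0,[]⟩⟩,
  ⟨false,0,⟨0,[]⟩,⟨0,[]⟩⟩,[.e ⟨false,0,⟨0,[(36,0)]⟩,⟨1,[(33,0),(0,0)]⟩⟩ ⟨false,0,⟨1,[(4,1),(6,1),(4,
  1),(6,1),(2,0),(7,0)]⟩,⟨1,[(1,0),(13,0),(4,0)]⟩⟩,.o ⟨false,1,⟨1,[(6,1),(19,0),(5,1),(1,0)]⟩,⟨0,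
  [(20,0)]⟩⟩,.o ⟨false,1,⟨2,[(1,1),(2,1),(6,0),(3,0),(7,1),(2,1)]⟩,⟨0,[(16,0)]⟩⟩,.a ⟨true,0,⟨0,[(1,
  0),(2,0),(18,0)]⟩,⟨1,[(11,0),(4,1),(7,0),(0,0)]⟩⟩ ⟨false,0,⟨0,[]⟩,⟨1,[(15,0),(0,0),(17,0)]⟩⟩
  ⟨true,0,⟨1,[(4,1),(6,1),(4,1),(6,1),(2,0),(7,0)]⟩,⟨0,[(1,0),(2,0),(15,0),(2,0)]⟩⟩]⟩))

theorem ok170 : chk K t170 r88 = true := by decide +kernel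

noncomputable def t175 : Tre :=
  (.S ⟨1,0,[0,0,0,0,0,0,0,-1],[1,0,-1],[0,1,0,0,0,0,0,-1],(⟨0,[(19,0)]⟩,⟨0,[(20,0)]⟩),⟨0,[(8,0)]⟩,
  .k,.k,⟨true,0,⟨0,[(31,0)]⟩,⟨0,[]⟩⟩,⟨false,1,⟨1,[(10,0),(0,0),(17,0)]⟩,⟨0,[]⟩⟩,⟨false,0,⟨0,[(27,
  0)]⟩,⟨0,[(26,0),(2,0)]⟩⟩,⟨true,0,⟨0,[(27,0)]⟩,⟨0,[(26,0)]⟩⟩,[.o ⟨false,0,⟨0,[(0,0)]⟩,⟨1,[(10,0),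
  (0,0),(3,1),(13,0)]⟩⟩,.o ⟨false,1,⟨3,[(0,1),(15,1),(4,0),(7,2)]⟩,⟨0,[(15,0)]⟩⟩,.o ⟨false,1,⟨1,
  [(18,1),(2,0),(6,0)]⟩,⟨0,[(2,0)]⟩⟩,.a ⟨true,0,⟨0,[(18,0)]⟩,⟨0,[(14,0)]⟩⟩ ⟨false,0,⟨1,[(0,1),(5,0),
  (0,0)]⟩,⟨0,[(15,0),(2,0),(10,0)]⟩⟩ ⟨true,0,⟨1,[(0,1),(5,0),(0,0)]⟩,⟨0,[(15,0),(2,0)]⟩⟩]⟩)

theorem ok175 : chk K t175 r76 = true := by decide +kernel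

noncomputable def t178 : Tre :=
  (.Q [0,1,0,-1,0,0,1,1,0,0,-1] (.p false [0,0,1] [] (⟨0,[(18,0)]⟩,⟨0,[(17,0)]⟩) .k 0 (⟨0,[]⟩,⟨0,
  []⟩) .k .k) (.I [0,0,2,2,0,0,0,-1] (.K ⟨0,[0,-1,1],0,0,(⟨0,[(9,0)]⟩,⟨0,[(19,0),(3,0)]⟩),.k,(.r
  (-1) ⟨0,[(1,0),(0,0),(2,0)]⟩ ⟨0,[(0,0)]⟩),.k,.k,.k,[⟨1,[(17,0),(0,0)]⟩,⟨0,[(2,0)]⟩,⟨0,[(16,0),(10,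
  0)]⟩,⟨0,[(1,0)]⟩]⟩) (.I [0,0,-2,-2,0,0,0,1] (.K ⟨0,[0,-1,1],0,0,(⟨0,[(10,0)]⟩,⟨0,[(20,0),(3,0)]⟩),
  .k,(.r 0 ⟨0,[(0,0)]⟩ ⟨1,[(11,0),(0,0),(4,1),(0,2),(0,0),(8,3),(1,0)]⟩),.k,.k,.k,[⟨1,[(18,0),(0,
  0)]⟩,⟨0,[(3,0)]⟩,⟨0,[(17,0),(10,0)]⟩,⟨0,[(2,0)]⟩]⟩) (.S ⟨1,0,[0,0,0,0,0,0,0,1],[0,0,1],[1,1,0,-1,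
  0,0,0,1],(⟨0,[(21,0)]⟩,⟨0,[(20,0)]⟩),⟨0,[(10,0)]⟩,.k,.k,⟨true,0,⟨0,[(27,0)]⟩,⟨0,[(28,0)]⟩⟩,⟨false,
  1,⟨1,[(11,0),(0,0),(17,0)]⟩,⟨0,[]⟩⟩,⟨false,0,⟨0,[]⟩,⟨1,[(11,0),(0,0),(17,0)]⟩⟩,⟨true,0,⟨0,[(28,
  0)]⟩,⟨0,[(27,0)]⟩⟩,[.o ⟨false,0,⟨1,[(1,1),(16,2),(0,0),(8,3)]⟩,⟨1,[(17,1),(4,0),(7,0)]⟩⟩,.e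
  ⟨false,0,⟨1,[(1,1),(16,0),(0,0),(8,1)]⟩,⟨7,[(0,3),(7,1),(2,0),(0,0),(4,3),(4,0),(6,3),(0,1)]⟩⟩
  ⟨false,1,⟨5,[(1,1),(1,3),(12,3),(11,3),(0,0),(0,4)]⟩,⟨0,[(0,0),(3,0)]⟩⟩,.a ⟨true,0,⟨1,[(8,0),(11,
  0),(0,0)]⟩,⟨0,[(3,0)]⟩⟩ ⟨false,0,⟨0,[(1,0),(16,0),(0,0),(8,0)]⟩,⟨0,[(0,0),(5,0)]⟩⟩ ⟨true,0,⟨0,[(1,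
  0),(16,0),(0,0),(8,1)]⟩,⟨0,[(0,0),(3,0)]⟩⟩,.o ⟨false,0,⟨0,[(18,0)]⟩,⟨1,[(3,1),(18,0),(6,
  0)]⟩⟩]⟩))) (.R ⟨2,true,false,true,[0,1],[0,0,1],[1,1,1],(⟨0,[]⟩,⟨0,[]⟩),(⟨0,[(19,0)]⟩,⟨0,[(18,
  0)]⟩),⟨0,[]⟩,.k,.k,.k,.k,.k,.k,⟨false,0,⟨3,[(0,2),(1,0),(0,0),(11,0),(0,3)]⟩,⟨1,[(1,1),(12,1),(12,
  0),(0,0)]⟩⟩,⟨true,0,⟨0,[(16,0)]⟩,⟨0,[(1,0)]⟩⟩,⟨true,0,⟨0,[(25,0)]⟩,⟨0,[(26,0)]⟩⟩,⟨false,1,⟨0,[(14,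
  0),(10,0),(2,0)]⟩,⟨0,[(0,0)]⟩⟩,⟨false,0,⟨0,[]⟩,⟨1,[(9,0),(0,0),(17,0)]⟩⟩,⟨true,0,⟨0,[(14,0)]⟩,⟨0,
  [(0,0),(24,0)]⟩⟩,[]⟩))

theorem ok178 : chk K t178 r59 = true := by decide +kernel

noncomputable def t182 : Tre :=
  (.S ⟨1,0,[0,1,-1,-1],[1,-1],[0,0,-1,-1],(⟨0,[(17,0)]⟩,⟨0,[(18,0)]⟩),⟨0,[(3,0),(0,0)]⟩,.k,(.r (-1)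
  ⟨0,[(20,1),(3,0)]⟩ ⟨1,[(0,1),(4,0),(0,0),(15,1),(1,0)]⟩),⟨false,1,⟨1,[(5,0),(0,0),(17,0)]⟩,⟨0,
  []⟩⟩,⟨true,0,⟨0,[(26,0)]⟩,⟨0,[]⟩⟩,⟨true,0,⟨0,[(22,0)]⟩,⟨0,[(21,0)]⟩⟩,⟨false,0,⟨0,[(22,0)]⟩,⟨0,
  [(21,0),(2,0)]⟩⟩,[.a ⟨true,0,⟨0,[(21,0)]⟩,⟨0,[(0,0),(0,0),(22,0)]⟩⟩ ⟨false,1,⟨1,[(20,1),(2,0),(0,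
  0)]⟩,⟨3,[(0,1),(4,0),(0,0),(15,1),(1,0)]⟩⟩ ⟨true,0,⟨0,[(20,0)]⟩,⟨0,[(0,0),(23,0)]⟩⟩,.o ⟨false,1,
  ⟨1,[(16,0),(4,1),(2,0)]⟩,⟨0,[(22,0)]⟩⟩,.a ⟨true,0,⟨1,[(12,0),(0,0)]⟩,⟨1,[(1,0),(12,0),(0,0)]⟩⟩
  ⟨false,1,⟨0,[(20,0),(3,0)]⟩,⟨3,[(0,1),(4,0),(0,0),(15,1),(1,0)]⟩⟩ ⟨true,0,⟨0,[(20,0)]⟩,⟨3,[(0,1),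
  (4,0),(0,0),(15,1),(1,0)]⟩⟩,.a ⟨true,0,⟨0,[(12,0),(0,0)]⟩,⟨0,[(1,0)]⟩⟩ ⟨true,1,⟨1,[(20,1),(2,0),
  (0,0)]⟩,⟨0,[(0,0)]⟩⟩ ⟨false,1,⟨1,[(20,1),(2,0),(0,0)]⟩,⟨0,[(0,0),(23,0)]⟩⟩]⟩)

theorem ok182 : chk K t182 r56 = true := by decide +kernel


end Helper25.S1T.Ypm_1c
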