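import Pool.Agent.Helper25.S1T.Ypm_1c_p0
import Pool.Agent.Helper25.S1T.Ypm_1c_p1
import Pool.Agent.Helper25.S1T.Ypm_1c_p2
import Pool.Agent.Helper25.S1T.Ypm_1c_p3
import Pool.Agent.Helper25.S1T.Ypm_1c_p4

set_option autoImplicit false
set_option linter.all false

namespace Helper25.S1T.Ypm_1c

open Helper25.KG Helper25.KW Helper55.KE Helper11.CT

noncomputable def t6 : Tre :=
  .Q [0,0,-2,0,1,0,-1,0,0,0,1] (.p true [0,0,1] [] (⟨0,[(22,0)]⟩,⟨0,[(21,0)]⟩) .k 0 (⟨0,[]⟩,⟨0,[]⟩)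
  .k .k) t4 t5

theorem ok6 : chk K t6 l8 = true :=
  chk_Q (e' := [0,0,2,0,-1,0,1,0,0,0,-1]) (by decide +kernel) (by decide +kernel) ok4 ok5

noncomputable def t8 : Tre :=
  .Q [0,0,1,0,-1,0,2,0,0,1,-2] (.p false [0,0,1] [1,0,-1] (⟨0,[(21,0)]⟩,⟨0,[(20,0)]⟩) .k 2 (⟨0,[(20,
  0)]⟩,⟨0,[(21,0)]⟩) .k (.r (-2) ⟨0,[(16,1),(2,1),(9,0),(0,0)]⟩ ⟨0,[(1,1),(4,1),(0,1),(22,0)]⟩)) t6
  t7

theorem ok8 : chk K t8 r7 = true :=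
  chk_Q (e' := [0,0,-1,0,1,0,-2,0,0,-1,2]) (by decide +kernel) (by decide +kernel) ok6 ok7

noncomputable def t9 : Tre :=
  .Q [0,-1,0,1,0,0,-1,-1,0,0,1] (.p true [0,0,1] [] (⟨0,[(20,0)]⟩,⟨0,[(19,0)]⟩) .k 0 (⟨0,[]⟩,⟨0,
  []⟩) .k .k) t3 t8

theorem ok9 : chk K t9 l6 = true :=
  chk_Q (e' := [0,1,0,-1,0,0,1,1,0,0,-1]) (by decide +kernel) (by decide +kernel) ok3 ok8

noncomputable def t13 : Tre :=
  .I [1,0,-1,-1,1,0,0,1] t11 t12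

theorem ok13 : chk K t13 l13 = true :=
  chk_I (e' := [0,0,1,1,-1,0,0,-1]) (by decide +kernel) (by decide +kernel) ok11 ok12

noncomputable def t15 : Tre :=
  .Q [0,1,0,-1,0,0,1,1,0,0,-1] (.p false [0,0,1] [] (⟨0,[(23,0)]⟩,⟨0,[(22,0)]⟩) .k 0 (⟨0,[]⟩,⟨0,
  []⟩) .k .k) t13 t14

theorem ok15 : chk K t15 l12 = true :=
  chk_Q (e' := [0,-1,0,1,0,0,-1,-1,0,0,1]) (by decide +kernel) (by decide +kernel) ok13 ok14

noncomputable def t17 : Tre :=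
  .Q [0,0,0,0,0,0,1,0,0,0,-1] (.p false [0,0,1] [] (⟨0,[(22,0)]⟩,⟨0,[(21,0)]⟩) .k 0 (⟨0,[]⟩,⟨0,[]⟩)
  .k .k) t15 t16

theorem ok17 : chk K t17 r11 = true :=
  chk_Q (e' := [0,0,0,0,0,0,-1,0,0,0,1]) (by decide +kernel) (by decide +kernel) ok15 ok16

noncomputable def t18 : Tre :=
  .Q [0,-1,-2,-1,1,0,1,0,0,0,-1] (.p false [0,0,1] [] (⟨0,[(21,0)]⟩,⟨0,[(20,0)]⟩) .k 0 (⟨0,[]⟩,⟨0,
  []⟩) .k .k) t10 t17

theorem ok18 : chk K t18 l10 = true :=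
  chk_Q (e' := [0,1,2,1,-1,0,-1,0,0,0,1]) (by decide +kernel) (by decide +kernel) ok10 ok17

noncomputable def t34 : Tre :=
  .I [0,0,4,0,0,-4,0,0,-1] t32 t33

theorem ok34 : chk K t34 r34 = true :=
  chk_I (e' := [1,0,-4,0,0,4,0,0,1]) (by decide +kernel) (by decide +kernel) ok32 ok33

noncomputable def t35 : Tre :=
  .Q [0,-1,0,1,1,0,-1,-1,0,-1,1] (.p true [0,0,1] [1] (⟨0,[(40,0)]⟩,⟨0,[(39,0)]⟩) .k 1 (⟨0,[]⟩,⟨0,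
  []⟩) .k .k) t31 t34

theorem ok35 : chk K t35 r33 = true :=
  chk_Q (e' := [0,1,0,-1,-1,0,1,1,0,1,-1]) (by decide +kernel) (by decide +kernel) ok31 ok34

noncomputable def t36 : Tre :=
  .Q [0,-1,0,1,1,0,1,1,-1,0,-1,1] (.p false [0,0,1] [0,0,0,0,1] (⟨0,[(39,0)]⟩,⟨0,[(38,0)]⟩) .k 2
  (⟨0,[(32,0)]⟩,⟨0,[(31,0)]⟩) .k (.r (-1) ⟨1,[(13,1),(33,0),(0,0)]⟩ ⟨4,[(0,0),(21,1),(2,0),(0,0),(8,
  1)]⟩)) t30 t35

theorem ok36 : chk K t36 r32 = true :=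
  chk_Q (e' := [0,1,0,-1,-1,0,-1,-1,1,0,1,-1]) (by decide +kernel) (by decide +kernel) ok30 ok35

noncomputable def t37 : Tre :=
  .I [0,-1,2,2,0,0,0,1] t29 t36

theorem ok37 : chk K t37 r31 = true :=
  chk_I (e' := [1,1,-2,-2,0,0,0,-1]) (by decide +kernel) (by decide +kernel) ok29 ok36

noncomputable def t38 : Tre :=
  .Q [0,-1,0,0,1,0,-1,-1,0,-1,1] (.p true [0,0,1] [1] (⟨0,[(37,0)]⟩,⟨0,[(36,0)]⟩) .k 1 (⟨0,[]⟩,⟨0,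
  []⟩) .k .k) t28 t37

theorem ok38 : chk K t38 r30 = true :=
  chk_Q (e' := [0,1,0,0,-1,0,1,1,0,1,-1]) (by decide +kernel) (by decide +kernel) ok28 ok37

noncomputable def t39 : Tre :=
  .Q [0,0,-1,0,-1,0,1,0,1,1,-1,-1] (.p false [0,0,1] [1,0,0,0,-1] (⟨0,[(36,0)]⟩,⟨0,[(35,0)]⟩) .k 2
  (⟨0,[(28,0)]⟩,⟨0,[(29,0)]⟩) .k (.r 0 ⟨0,[(11,0),(29,0)]⟩ ⟨3,[(9,0),(9,0),(2,0),(0,0),(8,1),(12,
  2)]⟩)) t27 t38

theorem ok39 : chk K t39 l29 = true :=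
  chk_Q (e' := [0,0,1,0,1,0,-1,0,-1,-1,1,1]) (by decide +kernel) (by decide +kernel) ok27 ok38

noncomputable def t41 : Tre :=
  .Q [0,1,0,1,-1,0,1,1,0,1,-1] (.p false [0,0,1] [1] (⟨0,[(35,0)]⟩,⟨0,[(34,0)]⟩) .k 1 (⟨0,[]⟩,⟨0,
  []⟩) .k .k) t39 t40

theorem ok41 : chk K t41 r28 = true :=
  chk_Q (e' := [0,-1,0,-1,1,0,-1,-1,0,-1,1]) (by decide +kernel) (by decide +kernel) ok39 ok40

noncomputable def t42 : Tre :=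
  .Q [0,-2,0,1,2,0,-1,-1,-1,-1,1,1] (.p true [0,0,1] [1,0,0,0,-1] (⟨0,[(34,0)]⟩,⟨0,[(33,0)]⟩) .k 2
  (⟨0,[(26,0)]⟩,⟨0,[(27,0)]⟩) .k (.r 0 ⟨0,[(9,0),(29,0)]⟩ ⟨3,[(7,0),(9,0),(2,0),(0,0),(8,1),(12,
  2)]⟩)) t26 t41

theorem ok42 : chk K t42 r27 = true :=
  chk_Q (e' := [0,2,0,-1,-2,0,1,1,1,1,-1,-1]) (by decide +kernel) (by decide +kernel) ok26 ok41

noncomputable def t43 : Tre :=
  .Q [0,0,0,1,1,0,-1,-1,-1,-1,1,1] (.p true [0,0,1] [1,0,0,0,-1] (⟨0,[(33,0)]⟩,⟨0,[(32,0)]⟩) .k 2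
  (⟨0,[(25,0)]⟩,⟨0,[(26,0)]⟩) .k (.r 0 ⟨0,[(8,0),(29,0)]⟩ ⟨3,[(6,0),(9,0),(2,0),(0,0),(8,1),(12,
  2)]⟩)) t25 t42

theorem ok43 : chk K t43 r26 = true :=
  chk_Q (e' := [0,0,0,-1,-1,0,1,1,1,1,-1,-1]) (by decide +kernel) (by decide +kernel) ok25 ok42

noncomputable def t44 : Tre :=
  .Q [0,0,0,0,0,-1,0,0,0,1,0,-1] (.ed true [0,1,0,0,1] .k) t24 t43

theorem ok44 : chk K t44 l25 = true :=
  chk_Q (e' := [0,0,0,0,0,1,0,0,0,-1,0,1]) (by decide +kernel) (by decide +kernel) ok24 ok43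

noncomputable def t46 : Tre :=
  .Q [0,2,0,0,-2,0,0,0,1,1,0,-1] (.p false [0,0,0,0,1] [1] (⟨0,[(24,0)]⟩,⟨0,[(23,0)]⟩) .k 1 (⟨0,[]⟩,
  ⟨0,[]⟩) .k .k) t44 t45

theorem ok46 : chk K t46 l24 = true :=
  chk_Q (e' := [0,-2,0,0,2,0,0,0,-1,-1,0,1]) (by decide +kernel) (by decide +kernel) ok44 ok45

noncomputable def t48 : Tre :=
  .Q [0,1,0,0,-1,0,0,0,1,0,0,-1] (.p false [0,0,0,0,1] [] (⟨0,[(23,0)]⟩,⟨0,[(22,0)]⟩) .k 0 (⟨0,[]⟩,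
  ⟨0,[]⟩) .k .k) t46 t47

theorem ok48 : chk K t48 r23 = true :=
  chk_Q (e' := [0,-1,0,0,1,0,0,0,-1,0,0,1]) (by decide +kernel) (by decide +kernel) ok46 ok47

noncomputable def t49 : Tre :=
  .Q [0,0,0,0,1,0,0,0,-1,-1,0,1] (.p true [0,0,0,0,1] [1] (⟨0,[(22,0)]⟩,⟨0,[(21,0)]⟩) .k 1 (⟨0,[]⟩,
  ⟨0,[]⟩) .k .k) t23 t48

theorem ok49 : chk K t49 l22 = true :=
  chk_Q (e' := [0,0,0,0,-1,0,0,0,1,1,0,-1]) (by decide +kernel) (by decide +kernel) ok23 ok48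

noncomputable def t51 : Tre :=
  .Q [0,2,0,0,-1,0,0,0,1,0,0,-1] (.p false [0,0,0,0,1] [] (⟨0,[(21,0)]⟩,⟨0,[(20,0)]⟩) .k 0 (⟨0,[]⟩,
  ⟨0,[]⟩) .k .k) t49 t50

theorem ok51 : chk K t51 l21 = true :=
  chk_Q (e' := [0,-2,0,0,1,0,0,0,-1,0,0,1]) (by decide +kernel) (by decide +kernel) ok49 ok50

noncomputable def t53 : Tre :=
  .Q [0,0,1,0,-1,0,1,0,0,1,-1] (.p false [0,0,1] [1] (⟨0,[(27,0)]⟩,⟨0,[(26,0)]⟩) .k 1 (⟨0,[]⟩,⟨0,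
  []⟩) .k .k) t51 t52

theorem ok53 : chk K t53 r20 = true :=
  chk_Q (e' := [0,0,-1,0,1,0,-1,0,0,-1,1]) (by decide +kernel) (by decide +kernel) ok51 ok52

noncomputable def t54 : Tre :=
  .I [1,1,2,1,-1,0,0,1] t22 t53

theorem ok54 : chk K t54 r19 = true :=
  chk_I (e' := [0,-1,-2,-1,1,0,0,-1]) (by decide +kernel) (by decide +kernel) ok22 ok53

noncomputable def t55 : Tre :=
  .I [0,0,-1,0,0,0,0,-1] t21 t54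

theorem ok55 : chk K t55 r18 = true :=
  chk_I (e' := [1,0,1,0,0,0,0,1]) (by decide +kernel) (by decide +kernel) ok21 ok54

noncomputable def t56 : Tre :=
  .I [0,0,-1,-1,0,0,0,-1] t20 t55

theorem ok56 : chk K t56 l17 = true :=
  chk_I (e' := [1,0,1,1,0,0,0,1]) (by decide +kernel) (by decide +kernel) ok20 ok55

noncomputable def t58 : Tre :=
  .Q [0,0,-2,0,0,0,1,0,0,1,-1] (.p false [0,0,1] [1] (⟨0,[(23,0)]⟩,⟨0,[(22,0)]⟩) .k 1 (⟨0,[]⟩,⟨0,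
  []⟩) .k .k) t56 t57

theorem ok58 : chk K t58 l16 = true :=
  chk_Q (e' := [0,0,2,0,0,0,-1,0,0,-1,1]) (by decide +kernel) (by decide +kernel) ok56 ok57

noncomputable def t60 : Tre :=
  .Q [0,0,-1,0,1,0,0,0,-1,0,0,1] (.p true [0,0,0,0,1] [] (⟨0,[(15,0)]⟩,⟨0,[(14,0)]⟩) .k 0 (⟨0,[]⟩,
  ⟨0,[]⟩) .k .k) t58 t59

theorem ok60 : chk K t60 r15 = true :=
  chk_Q (e' := [0,0,1,0,-1,0,0,0,1,0,0,-1]) (by decide +kernel) (by decide +kernel) ok58 ok59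

noncomputable def t61 : Tre :=
  .Q [0,-1,0,0,1,0,0,0,-1,-1,0,1] (.p true [0,0,0,0,1] [1] (⟨0,[(14,0)]⟩,⟨0,[(13,0)]⟩) .k 1 (⟨0,[]⟩,
  ⟨0,[]⟩) .k .k) t19 t60

theorem ok61 : chk K t61 r10 = true :=
  chk_Q (e' := [0,1,0,0,-1,0,0,0,1,1,0,-1]) (by decide +kernel) (by decide +kernel) ok19 ok60

noncomputable def t62 : Tre :=
  .Q [0,0,0,0,0,2,0,0,0,-1,1] (.p true [0,0,1] [1] (⟨0,[(20,0)]⟩,⟨0,[(19,0)]⟩) .k 1 (⟨0,[]⟩,⟨0,[]⟩)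
  .k .k) t18 t61

theorem ok62 : chk K t62 r6 = true :=
  chk_Q (e' := [0,0,0,0,0,-2,0,0,0,1,-1]) (by decide +kernel) (by decide +kernel) ok18 ok61

noncomputable def t63 : Tre :=
  .I [1,0,-2,-1,0,0,0,-1] t9 t62

theorem ok63 : chk K t63 l5 = true :=
  chk_I (e' := [0,0,2,1,0,0,0,1]) (by decide +kernel) (by decide +kernel) ok9 ok62

noncomputable def t65 : Tre :=
  .Q [0,1,-1,-1,0,0,1,0,0,0,-1] (.p false [0,0,1] [] (⟨0,[(18,0)]⟩,⟨0,[(17,0)]⟩) .k 0 (⟨0,[]⟩,⟨0,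
  []⟩) .k .k) t63 t64

theorem ok65 : chk K t65 l4 = true :=
  chk_Q (e' := [0,-1,1,1,0,0,-1,0,0,0,1]) (by decide +kernel) (by decide +kernel) ok63 ok64

noncomputable def t71 : Tre :=
  .I [0,-1,1,1,0,0,0,-1] t69 t70

theorem ok71 : chk K t71 r43 = true :=
  chk_I (e' := [1,1,-1,-1,0,0,0,1]) (by decide +kernel) (by decide +kernel) ok69 ok70

noncomputable def t72 : Tre :=
  .Q [0,-1,0,-1,1,0,-1,-1,-1,-1,1,1] (.p true [0,0,1] [1,0,0,0,-1] (⟨0,[(25,0)]⟩,⟨0,[(24,0)]⟩) .k 2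
  (⟨0,[(17,0)]⟩,⟨0,[(18,0)]⟩) .k (.r 0 ⟨3,[(4,2),(2,0),(2,1),(15,0),(2,0)]⟩ ⟨5,[(1,3),(5,1),(7,2),
  (0,2),(17,0)]⟩)) t68 t71

theorem ok72 : chk K t72 l42 = true :=
  chk_Q (e' := [0,1,0,1,-1,0,1,1,1,1,-1,-1]) (by decide +kernel) (by decide +kernel) ok68 ok71

noncomputable def t74 : Tre :=
  .Q [0,0,-1,0,0,0,1,1,0,1,-1] (.p false [0,0,1] [1] (⟨0,[(24,0)]⟩,⟨0,[(23,0)]⟩) .k 1 (⟨0,[]⟩,⟨0,
  []⟩) .k .k) t72 t73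

theorem ok74 : chk K t74 l41 = true :=
  chk_Q (e' := [0,0,1,0,0,0,-1,-1,0,-1,1]) (by decide +kernel) (by decide +kernel) ok72 ok73

noncomputable def t76 : Tre :=
  .I [1,-1,1,1,0,0,0,-2] t74 t75

theorem ok76 : chk K t76 l40 = true :=
  chk_I (e' := [0,1,-1,-1,0,0,0,2]) (by decide +kernel) (by decide +kernel) ok74 ok75

noncomputable def t78 : Tre :=
  .Q [0,0,0,-1,0,0,-1,-1,0,0,1] (.p true [0,0,1] [] (⟨0,[(22,0)]⟩,⟨0,[(21,0)]⟩) .k 0 (⟨0,[]⟩,⟨0,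
  []⟩) .k .k) t76 t77

theorem ok78 : chk K t78 r39 = true :=
  chk_Q (e' := [0,0,0,1,0,0,1,1,0,0,-1]) (by decide +kernel) (by decide +kernel) ok76 ok77

noncomputable def t79 : Tre :=
  .Q [0,-1,0,0,1,0,0,0,-1,-1,0,1] (.p true [0,0,0,0,1] [1] (⟨0,[(14,0)]⟩,⟨0,[(13,0)]⟩) .k 1 (⟨0,[]⟩,
  ⟨0,[]⟩) .k .k) t67 t78

theorem ok79 : chk K t79 l38 = true :=
  chk_Q (e' := [0,1,0,0,-1,0,0,0,1,1,0,-1]) (by decide +kernel) (by decide +kernel) ok67 ok78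

noncomputable def t81 : Tre :=
  .I [1,0,1,0,0,0,0,1] t79 t80

theorem ok81 : chk K t81 l37 = true :=
  chk_I (e' := [0,0,-1,0,0,0,0,-1]) (by decide +kernel) (by decide +kernel) ok79 ok80

noncomputable def t91 : Tre :=
  .Q [0,0,0,1,0,0,1,1,0,0,-1] (.p false [0,0,1] [] (⟨0,[(30,0)]⟩,⟨0,[(29,0)]⟩) .k 0 (⟨0,[]⟩,⟨0,[]⟩)
  .k .k) t89 t90

theorem ok91 : chk K t91 r54 = true :=
  chk_Q (e' := [0,0,0,-1,0,0,-1,-1,0,0,1]) (by decide +kernel) (by decide +kernel) ok89 ok90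

noncomputable def t92 : Tre :=
  .Q [0,-1,0,2,1,0,0,0,-1,0,0,1] (.p true [0,0,0,0,1] [] (⟨0,[(22,0)]⟩,⟨0,[(21,0)]⟩) .k 0 (⟨0,[]⟩,
  ⟨0,[]⟩) .k .k) t88 t91

theorem ok92 : chk K t92 l53 = true :=
  chk_Q (e' := [0,1,0,-2,-1,0,0,0,1,0,0,-1]) (by decide +kernel) (by decide +kernel) ok88 ok91

noncomputable def t94 : Tre :=
  .Q [0,1,0,-1,-1,0,0,0,1,0,0,-1] (.p false [0,0,0,0,1] [] (⟨0,[(21,0)]⟩,⟨0,[(20,0)]⟩) .k 0 (⟨0,[]⟩,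
  ⟨0,[]⟩) .k .k) t92 t93

theorem ok94 : chk K t94 r52 = true :=
  chk_Q (e' := [0,-1,0,1,1,0,0,0,-1,0,0,1]) (by decide +kernel) (by decide +kernel) ok92 ok93

noncomputable def t95 : Tre :=
  .Q [0,0,0,0,0,-1,0,0,0,1,0,-1] (.ed true [0,1,0,0,1] .k) t87 t94

theorem ok95 : chk K t95 r51 = true :=
  chk_Q (e' := [0,0,0,0,0,1,0,0,0,-1,0,1]) (by decide +kernel) (by decide +kernel) ok87 ok94

noncomputable def t96 : Tre :=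
  .Q [0,-2,0,0,2,0,0,0,-1,-1,0,1] (.p true [0,0,0,0,1] [1] (⟨0,[(19,0)]⟩,⟨0,[(18,0)]⟩) .k 1 (⟨0,[]⟩,
  ⟨0,[]⟩) .k .k) t86 t95

theorem ok96 : chk K t96 r50 = true :=
  chk_Q (e' := [0,2,0,0,-2,0,0,0,1,1,0,-1]) (by decide +kernel) (by decide +kernel) ok86 ok95

noncomputable def t97 : Tre :=
  .Q [0,-1,0,0,1,0,0,0,-1,0,0,1] (.p true [0,0,0,0,1] [] (⟨0,[(18,0)]⟩,⟨0,[(17,0)]⟩) .k 0 (⟨0,[]⟩,
  ⟨0,[]⟩) .k .k) t85 t96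

theorem ok97 : chk K t97 r49 = true :=
  chk_Q (e' := [0,1,0,0,-1,0,0,0,1,0,0,-1]) (by decide +kernel) (by decide +kernel) ok85 ok96

noncomputable def t98 : Tre :=
  .Q [0,0,1,0,0,0,0,0,-1,0,0,1] (.p true [0,0,0,0,1] [] (⟨0,[(17,0)]⟩,⟨0,[(16,0)]⟩) .k 0 (⟨0,[]⟩,⟨0,
  []⟩) .k .k) t84 t97

theorem ok98 : chk K t98 l48 = true :=
  chk_Q (e' := [0,0,-1,0,0,0,0,0,1,0,0,-1]) (by decide +kernel) (by decide +kernel) ok84 ok97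

noncomputable def t100 : Tre :=
  .Q [0,2,0,0,-1,0,0,0,1,0,0,-1] (.p false [0,0,0,0,1] [] (⟨0,[(16,0)]⟩,⟨0,[(15,0)]⟩) .k 0 (⟨0,[]⟩,
  ⟨0,[]⟩) .k .k) t98 t99

theorem ok100 : chk K t100 r47 = true :=
  chk_Q (e' := [0,-2,0,0,1,0,0,0,-1,0,0,1]) (by decide +kernel) (by decide +kernel) ok98 ok99

noncomputable def t101 : Tre :=
  .Q [0,-1,0,0,1,0,0,0,-1,-1,0,1] (.p true [0,0,0,0,1] [1] (⟨0,[(15,0)]⟩,⟨0,[(14,0)]⟩) .k 1 (⟨0,[]⟩,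
  ⟨0,[]⟩) .k .k) t83 t100

theorem ok101 : chk K t101 l46 = true :=
  chk_Q (e' := [0,1,0,0,-1,0,0,0,1,1,0,-1]) (by decide +kernel) (by decide +kernel) ok83 ok100

noncomputable def t103 : Tre :=
  .Q [0,-1,-1,-1,2,0,0,0,-1,-1,0,1] (.p true [0,0,0,0,1] [1] (⟨0,[(14,0)]⟩,⟨0,[(13,0)]⟩) .k 1 (⟨0,
  []⟩,⟨0,[]⟩) .k .k) t101 t102

theorem ok103 : chk K t103 r45 = true :=
  chk_Q (e' := [0,1,1,1,-2,0,0,0,1,1,0,-1]) (by decide +kernel) (by decide +kernel) ok101 ok102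

noncomputable def t104 : Tre :=
  .Q [0,-1,0,1,0,0,1,1,0,0,-1] (.p false [0,0,1] [] (⟨0,[(20,0)]⟩,⟨0,[(19,0)]⟩) .k 0 (⟨0,[]⟩,⟨0,
  []⟩) .k .k) t82 t103

theorem ok104 : chk K t104 r37 = true :=
  chk_Q (e' := [0,1,0,-1,0,0,-1,-1,0,0,1]) (by decide +kernel) (by decide +kernel) ok82 ok103

noncomputable def t105 : Tre :=
  .Q [0,1,0,-1,0,0,-1,-1,0,-1,1] (.p true [0,0,1] [1] (⟨0,[(19,0)]⟩,⟨0,[(18,0)]⟩) .k 1 (⟨0,[]⟩,⟨0,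
  []⟩) .k .k) t81 t104

theorem ok105 : chk K t105 r36 = true :=
  chk_Q (e' := [0,-1,0,1,0,0,1,1,0,1,-1]) (by decide +kernel) (by decide +kernel) ok81 ok104

noncomputable def t106 : Tre :=
  .Q [0,0,0,0,0,0,-1,0,0,0,1] (.p true [0,0,1] [] (⟨0,[(18,0)]⟩,⟨0,[(17,0)]⟩) .k 0 (⟨0,[]⟩,⟨0,[]⟩)
  .k .k) t66 t105

theorem ok106 : chk K t106 r4 = true :=
  chk_Q (e' := [0,0,0,0,0,0,1,0,0,0,-1]) (by decide +kernel) (by decide +kernel) ok66 ok105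

noncomputable def t107 : Tre :=
  .I [0,0,2,2,-1,0,0,-1] t65 t106

theorem ok107 : chk K t107 r3 = true :=
  chk_I (e' := [1,0,-2,-2,1,0,0,1]) (by decide +kernel) (by decide +kernel) ok65 ok106

noncomputable def t108 : Tre :=
  .I [1,-1,0,-1,0,0,0,1] t2 t107

theorem ok108 : chk K t108 r2 = true :=
  chk_I (e' := [0,1,0,1,0,0,0,-1]) (by decide +kernel) (by decide +kernel) ok2 ok107

noncomputable def t109 : Tre :=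
  .I [0,-1,1,2] t1 t108

theorem ok109 : chk K t109 r1 = true :=
  chk_I (e' := [1,1,-1,-2]) (by decide +kernel) (by decide +kernel) ok1 ok108

noncomputable def t110 : Tre :=
  .Q [0,-1,0,-1,1,0,0,0,0,-1] (.pp true [-1,1]) t0 t109

theorem ok110 : chk K t110 l0 = true :=
  chk_Q (e' := [0,1,0,1,-1,0,0,0,0,1]) (by decide +kernel) (by decide +kernel) ok0 ok109

noncomputable def t119 : Tre :=
  .I [0,0,1,1,0,0,0,2] t117 t118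

theorem ok119 : chk K t119 r68 = true :=
  chk_I (e' := [1,0,-1,-1,0,0,0,-2]) (by decide +kernel) (by decide +kernel) ok117 ok118

noncomputable def t120 : Tre :=
  .Q [0,-2,0,0,1,0,0,0,-1,0,0,1] (.p true [0,0,0,0,1] [] (⟨0,[(19,0)]⟩,⟨0,[(18,0)]⟩) .k 0 (⟨0,[]⟩,
  ⟨0,[]⟩) .k .k) t116 t119

theorem ok120 : chk K t120 r67 = true :=
  chk_Q (e' := [0,2,0,0,-1,0,0,0,1,0,0,-1]) (by decide +kernel) (by decide +kernel) ok116 ok119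

noncomputable def t121 : Tre :=
  .Q [0,-1,0,0,1,0,-1,-1,0,-1,1] (.p true [0,0,1] [1] (⟨0,[(25,0)]⟩,⟨0,[(24,0)]⟩) .k 1 (⟨0,[]⟩,⟨0,
  []⟩) .k .k) t115 t120

theorem ok121 : chk K t121 r66 = true :=
  chk_Q (e' := [0,1,0,0,-1,0,1,1,0,1,-1]) (by decide +kernel) (by decide +kernel) ok115 ok120

noncomputable def t122 : Tre :=
  .I [0,0,0,1,0,0,0,1] t114 t121

theorem ok122 : chk K t122 l65 = true :=
  chk_I (e' := [1,0,0,-1,0,0,0,-1]) (by decide +kernel) (by decide +kernel) ok114 ok121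

noncomputable def t124 : Tre :=
  .I [1,1,-1,-1,0,0,0,-1] t122 t123

theorem ok124 : chk K t124 l64 = true :=
  chk_I (e' := [0,-1,1,1,0,0,0,1]) (by decide +kernel) (by decide +kernel) ok122 ok123

noncomputable def t126 : Tre :=
  .Q [0,1,0,1,-1,0,1,1,0,1,-1] (.p false [0,0,1] [1] (⟨0,[(22,0)]⟩,⟨0,[(21,0)]⟩) .k 1 (⟨0,[]⟩,⟨0,
  []⟩) .k .k) t124 t125

theorem ok126 : chk K t126 l63 = true :=
  chk_Q (e' := [0,-1,0,-1,1,0,-1,-1,0,-1,1]) (by decide +kernel) (by decide +kernel) ok124 ok125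

noncomputable def t133 : Tre :=
  .Q [0,0,0,1,-1,0,1,1,1,1,-1,-1] (.p false [0,0,1] [1,0,0,0,-1] (⟨0,[(27,0)]⟩,⟨0,[(26,0)]⟩) .k 2
  (⟨0,[(19,0)]⟩,⟨0,[(20,0)]⟩) .k (.r 0 ⟨1,[(4,0),(17,0),(2,0),(9,0)]⟩ ⟨0,[(9,0),(13,0),(12,0)]⟩))
  t131 t132

theorem ok133 : chk K t133 l74 = true :=
  chk_Q (e' := [0,0,0,-1,1,0,-1,-1,-1,-1,1,1]) (by decide +kernel) (by decide +kernel) ok131 ok132

noncomputable def t135 : Tre :=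
  .Q [0,0,0,0,0,-2,0,0,0,0,1] (.p true [0,0,1] [] (⟨0,[(26,0)]⟩,⟨0,[(25,0)]⟩) .k 0 (⟨0,[]⟩,⟨0,[]⟩)
  .k .k) t133 t134

theorem ok135 : chk K t135 r73 = true :=
  chk_Q (e' := [0,0,0,0,0,2,0,0,0,0,-1]) (by decide +kernel) (by decide +kernel) ok133 ok134

noncomputable def t136 : Tre :=
  .Q [0,-1,0,0,1,0,0,0,-1,-1,0,1] (.p true [0,0,0,0,1] [1] (⟨0,[(18,0)]⟩,⟨0,[(17,0)]⟩) .k 1 (⟨0,[]⟩,
  ⟨0,[]⟩) .k .k) t130 t135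

theorem ok136 : chk K t136 r72 = true :=
  chk_Q (e' := [0,1,0,0,-1,0,0,0,1,1,0,-1]) (by decide +kernel) (by decide +kernel) ok130 ok135

noncomputable def t137 : Tre :=
  .Q [0,0,0,2,-1,0,1,1,0,1,-1] (.p false [0,0,1] [1] (⟨0,[(24,0)]⟩,⟨0,[(23,0)]⟩) .k 1 (⟨0,[]⟩,⟨0,
  []⟩) .k .k) t129 t136

theorem ok137 : chk K t137 r71 = true :=
  chk_Q (e' := [0,0,0,-2,1,0,-1,-1,0,-1,1]) (by decide +kernel) (by decide +kernel) ok129 ok136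

noncomputable def t138 : Tre :=
  .Q [0,0,0,0,0,2,0,0,0,-1,1] (.p true [0,0,1] [1] (⟨0,[(23,0)]⟩,⟨0,[(22,0)]⟩) .k 1 (⟨0,[]⟩,⟨0,[]⟩)
  .k .k) t128 t137

theorem ok138 : chk K t138 r70 = true :=
  chk_Q (e' := [0,0,0,0,0,-2,0,0,0,1,-1]) (by decide +kernel) (by decide +kernel) ok128 ok137

noncomputable def t139 : Tre :=
  .I [0,-1,-1,0,1,0,0,-1] t127 t138

theorem ok139 : chk K t139 r63 = true :=
  chk_I (e' := [1,1,1,0,-1,0,0,1]) (by decide +kernel) (by decide +kernel) ok127 ok138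

noncomputable def t140 : Tre :=
  .I [0,-1,-1,-1,1,0,0,-1] t126 t139

theorem ok140 : chk K t140 r62 = true :=
  chk_I (e' := [1,1,1,1,-1,0,0,1]) (by decide +kernel) (by decide +kernel) ok126 ok139

noncomputable def t141 : Tre :=
  .Q [0,0,0,0,0,0,-1,-1,0,0,1] (.p true [0,0,1] [] (⟨0,[(20,0)]⟩,⟨0,[(19,0)]⟩) .k 0 (⟨0,[]⟩,⟨0,[]⟩)
  .k .k) t113 t140

theorem ok141 : chk K t141 l61 = true :=
  chk_Q (e' := [0,0,0,0,0,0,1,1,0,0,-1]) (by decide +kernel) (by decide +kernel) ok113 ok140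

noncomputable def t143 : Tre :=
  .Q [0,1,0,-1,0,0,-1,-1,0,0,1] (.p true [0,0,1] [] (⟨0,[(19,0)]⟩,⟨0,[(18,0)]⟩) .k 0 (⟨0,[]⟩,⟨0,
  []⟩) .k .k) t141 t142

theorem ok143 : chk K t143 l60 = true :=
  chk_Q (e' := [0,-1,0,1,0,0,1,1,0,0,-1]) (by decide +kernel) (by decide +kernel) ok141 ok142

noncomputable def t152 : Tre :=
  .Q [0,0,-2,0,1,0,-1,0,0,-1,1] (.p true [0,0,1] [1] (⟨0,[(28,0)]⟩,⟨0,[(27,0)]⟩) .k 1 (⟨0,[]⟩,⟨0,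
  []⟩) .k .k) t150 t151

theorem ok152 : chk K t152 r84 = true :=
  chk_Q (e' := [0,0,2,0,-1,0,1,0,0,1,-1]) (by decide +kernel) (by decide +kernel) ok150 ok151

noncomputable def t153 : Tre :=
  .Q [0,0,1,0,-1,0,0,0,1,0,0,-1] (.p false [0,0,0,0,1] [] (⟨0,[(20,0)]⟩,⟨0,[(19,0)]⟩) .k 0 (⟨0,[]⟩,
  ⟨0,[]⟩) .k .k) t149 t152

theorem ok153 : chk K t153 r83 = true :=
  chk_Q (e' := [0,0,-1,0,1,0,0,0,-1,0,0,1]) (by decide +kernel) (by decide +kernel) ok149 ok152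

noncomputable def t154 : Tre :=
  .Q [0,-1,0,0,1,0,0,0,-1,-1,0,1] (.p true [0,0,0,0,1] [1] (⟨0,[(19,0)]⟩,⟨0,[(18,0)]⟩) .k 1 (⟨0,[]⟩,
  ⟨0,[]⟩) .k .k) t148 t153

theorem ok154 : chk K t154 r82 = true :=
  chk_Q (e' := [0,1,0,0,-1,0,0,0,1,1,0,-1]) (by decide +kernel) (by decide +kernel) ok148 ok153

noncomputable def t155 : Tre :=
  .Q [0,-1,0,2,0,0,1,1,0,1,-1] (.p false [0,0,1] [1] (⟨0,[(25,0)]⟩,⟨0,[(24,0)]⟩) .k 1 (⟨0,[]⟩,⟨0,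
  []⟩) .k .k) t147 t154

theorem ok155 : chk K t155 l81 = true :=
  chk_Q (e' := [0,1,0,-2,0,0,-1,-1,0,-1,1]) (by decide +kernel) (by decide +kernel) ok147 ok154

noncomputable def t157 : Tre :=
  .Q [0,0,0,0,0,-2,0,0,0,0,1] (.p true [0,0,1] [] (⟨0,[(24,0)]⟩,⟨0,[(23,0)]⟩) .k 0 (⟨0,[]⟩,⟨0,[]⟩)
  .k .k) t155 t156

theorem ok157 : chk K t157 r80 = true :=
  chk_Q (e' := [0,0,0,0,0,2,0,0,0,0,-1]) (by decide +kernel) (by decide +kernel) ok155 ok156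

noncomputable def t158 : Tre :=
  .Q [0,-1,0,1,0,0,1,1,0,1,-1] (.p false [0,0,1] [1] (⟨0,[(23,0)]⟩,⟨0,[(22,0)]⟩) .k 1 (⟨0,[]⟩,⟨0,
  []⟩) .k .k) t146 t157

theorem ok158 : chk K t158 r79 = true :=
  chk_Q (e' := [0,1,0,-1,0,0,-1,-1,0,-1,1]) (by decide +kernel) (by decide +kernel) ok146 ok157

noncomputable def t159 : Tre :=
  .Q [0,0,0,0,0,2,0,0,0,-1,1] (.p true [0,0,1] [1] (⟨0,[(22,0)]⟩,⟨0,[(21,0)]⟩) .k 1 (⟨0,[]⟩,⟨0,[]⟩)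
  .k .k) t145 t158

theorem ok159 : chk K t159 r78 = true :=
  chk_Q (e' := [0,0,0,0,0,-2,0,0,0,1,-1]) (by decide +kernel) (by decide +kernel) ok145 ok158

noncomputable def t160 : Tre :=
  .I [0,0,-1,0,0,0,0,-1] t144 t159

theorem ok160 : chk K t160 l77 = true :=
  chk_I (e' := [1,0,1,0,0,0,0,1]) (by decide +kernel) (by decide +kernel) ok144 ok159

noncomputable def t166 : Tre :=
  .Q [0,-1,0,2,0,0,-1,-1,0,0,1] (.p true [0,0,1] [] (⟨0,[(26,0)]⟩,⟨0,[(25,0)]⟩) .k 0 (⟨0,[]⟩,⟨0,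
  []⟩) .k .k) t164 t165

theorem ok166 : chk K t166 l90 = true :=
  chk_Q (e' := [0,1,0,-2,0,0,1,1,0,0,-1]) (by decide +kernel) (by decide +kernel) ok164 ok165

noncomputable def t168 : Tre :=
  .I [0,0,-1,0,-1,1,2] t166 t167

theorem ok168 : chk K t168 r89 = true :=
  chk_I (e' := [1,0,1,0,1,-1,-2]) (by decide +kernel) (by decide +kernel) ok166 ok167

noncomputable def t169 : Tre :=
  .I [0,0,2,2,-1,0,0,-1] t163 t168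

theorem ok169 : chk K t169 l88 = true :=
  chk_I (e' := [1,0,-2,-2,1,0,0,1]) (by decide +kernel) (by decide +kernel) ok163 ok168

noncomputable def t171 : Tre :=
  .Q [0,1,0,0,-1,0,-1,-1,1,0,1,-1] (.p true [0,0,1] [0,0,0,0,1] (⟨0,[(23,0)]⟩,⟨0,[(22,0)]⟩) .k 2
  (⟨0,[(16,0)]⟩,⟨0,[(15,0)]⟩) .k (.r (-2) ⟨1,[(3,1),(9,0),(0,0),(6,1),(2,0),(6,0),(0,0)]⟩ ⟨0,[(1,0),
  (28,0)]⟩)) t169 t170

theorem ok171 : chk K t171 r87 = true :=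
  chk_Q (e' := [0,-1,0,0,1,0,1,1,-1,0,-1,1]) (by decide +kernel) (by decide +kernel) ok169 ok170

noncomputable def t172 : Tre :=
  .Q [0,-1,0,1,0,0,-1,-1,0,0,1] (.p true [0,0,1] [] (⟨0,[(22,0)]⟩,⟨0,[(21,0)]⟩) .k 0 (⟨0,[]⟩,⟨0,
  []⟩) .k .k) t162 t171

theorem ok172 : chk K t172 r86 = true :=
  chk_Q (e' := [0,1,0,-1,0,0,1,1,0,0,-1]) (by decide +kernel) (by decide +kernel) ok162 ok171

noncomputable def t173 : Tre :=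
  .I [0,-1,0,1,1,0,0,1] t161 t172

theorem ok173 : chk K t173 r77 = true :=
  chk_I (e' := [1,1,0,-1,-1,0,0,-1]) (by decide +kernel) (by decide +kernel) ok161 ok172

noncomputable def t174 : Tre :=
  .I [0,-1,0,0,1,0,0,1] t160 t173

theorem ok174 : chk K t174 l76 = true :=
  chk_I (e' := [1,1,0,0,-1,0,0,-1]) (by decide +kernel) (by decide +kernel) ok160 ok173

noncomputable def t176 : Tre :=
  .Q [0,0,0,0,0,0,1,1,0,1,-1] (.p false [0,0,1] [1] (⟨0,[(19,0)]⟩,⟨0,[(18,0)]⟩) .k 1 (⟨0,[]⟩,⟨0,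
  []⟩) .k .k) t174 t175

theorem ok176 : chk K t176 r60 = true :=
  chk_Q (e' := [0,0,0,0,0,0,-1,-1,0,-1,1]) (by decide +kernel) (by decide +kernel) ok174 ok175

noncomputable def t177 : Tre :=
  .Q [0,0,0,1,0,0,1,1,0,0,-1] (.p false [0,0,1] [] (⟨0,[(18,0)]⟩,⟨0,[(17,0)]⟩) .k 0 (⟨0,[]⟩,⟨0,[]⟩)
  .k .k) t143 t176

theorem ok177 : chk K t177 l59 = true :=
  chk_Q (e' := [0,0,0,-1,0,0,-1,-1,0,0,1]) (by decide +kernel) (by decide +kernel) ok143 ok176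

noncomputable def t179 : Tre :=
  .Q [0,0,0,0,0,0,1,0,0,0,-1] (.p false [0,0,1] [] (⟨0,[(17,0)]⟩,⟨0,[(16,0)]⟩) .k 0 (⟨0,[]⟩,⟨0,[]⟩)
  .k .k) t177 t178

theorem ok179 : chk K t179 r58 = true :=
  chk_Q (e' := [0,0,0,0,0,0,-1,0,0,0,1]) (by decide +kernel) (by decide +kernel) ok177 ok178

noncomputable def t180 : Tre :=
  .I [0,-1,2,2] t112 t179

theorem ok180 : chk K t180 r57 = true :=
  chk_I (e' := [1,1,-2,-2]) (by decide +kernel) (by decide +kernel) ok112 ok179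

noncomputable def t181 : Tre :=
  .I [1,-1,2,1] t111 t180

theorem ok181 : chk K t181 l56 = true :=
  chk_I (e' := [0,1,-2,-1]) (by decide +kernel) (by decide +kernel) ok111 ok180

noncomputable def t183 : Tre :=
  .I [0,-1,-2,-1,1] t181 t182

theorem ok183 : chk K t183 r0 = true :=
  chk_I (e' := [1,1,2,1,-1]) (by decide +kernel) (by decide +kernel) ok181 ok182

noncomputable def t184 : Tre :=
  .Q [0,0,2,0,0,0,0,0,0,-1] (.pp true [-1,1]) t110 t183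

theorem ok184 : chk K t184 base = true :=
  chk_Q (e' := [0,0,-2,0,0,0,0,0,0,1]) (by decide +kernel) (by decide +kernel) ok110 ok183

theorem closed {p a b c J l q : ℤ} {D dl : ℝ} {Cl : ℤ → ℤ → ℤ → ℤ → ℝ → Prop}
    (W : World p a b c J (-1) l q D dl Cl) (g : G0 p a b c J D)
    {N X R : ℤ} {I : ℝ} (hk : KCl p l Cl N X R I) (kz : KF a b D (X + (-1 : ℤ) * I) (X + (-1 : ℤ) * I + R) I)
    {Ne Xe : ℤ} {Ie : ℝ} (he : EFac p (-1) D Cl (a) Ne Xe Ie)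
    (hkf : ∀ kf ∈ (kfY (-1) [0,0,0,0,0,0,1,0,0,0,-1]), KOk p l Cl (-1)
      (xv [1, a, b, c, p, J, X, R, Xe] [D, I, Ie]) N kf)
    (h0 : 1 ≤ (c : ℝ))
    (h1 : 1 ≤ (a : ℝ) - (b : ℝ) - (c : ℝ))
    (h2 : 1 ≤ 2 * (a : ℝ) - (b : ℝ))
    (h3 : 0 < -(b : ℝ) + (X : ℝ) + D - I)
    (h4 : 0 < -(J : ℝ) + I)
    (h5 : 0 < -(J : ℝ) + D - I)
    (h6 : 0 < 2 * (X : ℝ) + D - 2 * I) : False := by
  have g1 := g.a2
  have g2 := g.b2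
  have g3 := g.pa
  have g4 := g.pb
  have g5 := g.J1
  have g6 := g.JD
  have g7 := g.D2
  have g8 := g.ca
  have g9 := g.ca'
  have k1 := kz.I0
  have k2 := kz.ID
  have k3 := kz.z1
  have k4 := kz.z2
  have k5 := kz.s1
  have k6 := kz.s2
  have e1 := he.I0
  have e2 := he.ID
  have e3 := he.x0
  have e4 := he.xp
  push_cast at *
  refine (val_E W.toBase hk he (row := [0,1]) (by simp) (by simp) (kfY (-1) [0,0,0,0,0,0,1,0,0,0,-1])).sound W rfl (Nk := N)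
    (fun kf _ _ => ⟨_, rfl⟩) hkf ?_ ok184
  · simp only [base, List.forall_mem_cons, List.not_mem_nil, false_imp_iff, implies_true,
      and_true, hld, xv, evg_cons, evg_nil, List.map_cons, List.map_nil, List.cons_append,
      List.nil_append, if_true, if_false, Bool.false_eq_true]
    push_cast
    refine ⟨?_, ?_, ?_, ?_, ?_, ?_, ?_, ?_, ?_, ?_, ?_, ?_, ?_, ?_, ?_, ?_, ?_, ?_, ?_, ?_, ?_, ?_, ?_, ?_, ?_⟩ <;> linarith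

end Helper25.S1T.Ypm_1c
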