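import Pool.Agent.Helper25.S1T.Ypm_1c_q

set_option autoImplicit false
set_option linter.all false

namespace Helper25.S1T.Ypm_1c

open Helper25.KG Helper25.KW Helper55.KE Helper11.CT

noncomputable def t0 : Tre :=
  (.Q [0,0,-1,0,0,0,0,0,0,1] (.pp false [-1,1]) (.S ⟨1,0,[0,0,-1,-1],[1,-1],[0,1,-1,-1],(⟨0,[(18,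
  0)]⟩,⟨0,[(19,0)]⟩),⟨0,[(4,0),(0,0)]⟩,.k,(.r (-1) ⟨0,[(0,0),(0,0),(19,0)]⟩ ⟨1,[(2,0),(0,0),(10,1),
  (8,3)]⟩),⟨true,0,⟨0,[(27,0)]⟩,⟨0,[]⟩⟩,⟨false,1,⟨1,[(6,0),(0,0),(17,0)]⟩,⟨0,[]⟩⟩,⟨false,0,⟨0,[(23,
  0)]⟩,⟨0,[(22,0),(2,0)]⟩⟩,⟨true,0,⟨0,[(23,0)]⟩,⟨0,[(22,0)]⟩⟩,[.o ⟨false,1,⟨3,[(1,1),(4,0),(0,0),(9,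
  0),(4,1)]⟩,⟨0,[(23,0)]⟩⟩,.o ⟨false,1,⟨0,[(1,0)]⟩,⟨0,[(23,0),(3,0)]⟩⟩,.a ⟨true,0,⟨3,[(2,0),(0,0),
  (10,1)]⟩,⟨0,[(0,0)]⟩⟩ ⟨true,0,⟨0,[(21,0)]⟩,⟨3,[(2,0),(0,0),(10,1),(8,3)]⟩⟩ ⟨false,1,⟨0,[(0,0),(0,
  0)]⟩,⟨3,[(2,0),(0,0),(10,1),(8,3)]⟩⟩,.o ⟨false,0,⟨0,[(2,0)]⟩,⟨0,[(24,0)]⟩⟩]⟩) (.Q [0,0,0,0,0,0,-1,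
  -1,0,-1,1] (.p true [0,0,1] [1] (⟨0,[(16,0)]⟩,⟨0,[(15,0)]⟩) .k 1 (⟨0,[]⟩,⟨0,[]⟩) .k .k) (.S ⟨1,0,
  [0,0,0,0,0,0,0,-1],[1,0,-1],[0,1,0,0,0,0,0,-1],(⟨0,[(16,0)]⟩,⟨0,[(17,0)]⟩),⟨0,[(5,0)]⟩,.k,.k,
  ⟨true,0,⟨0,[(28,0)]⟩,⟨0,[]⟩⟩,⟨false,1,⟨1,[(7,0),(0,0),(17,0)]⟩,⟨0,[]⟩⟩,⟨false,0,⟨0,[(24,0)]⟩,⟨0,
  [(23,0),(2,0)]⟩⟩,⟨true,0,⟨0,[(24,0)]⟩,⟨0,[(23,0)]⟩⟩,[.o ⟨false,0,⟨0,[(0,0)]⟩,⟨1,[(7,0),(0,0),(3,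
  1),(13,0)]⟩⟩,.o ⟨false,1,⟨3,[(0,1),(12,1),(4,0),(7,2)]⟩,⟨0,[(12,0)]⟩⟩,.o ⟨false,1,⟨1,[(15,1),(2,
  0),(6,0)]⟩,⟨0,[(1,0),(9,0)]⟩⟩,.a ⟨true,0,⟨0,[(15,0)]⟩,⟨0,[(11,0)]⟩⟩ ⟨false,0,⟨0,[(0,0),(10,0)]⟩,
  ⟨0,[(12,0),(2,0),(10,0)]⟩⟩ ⟨true,0,⟨0,[(0,0),(10,0)]⟩,⟨0,[(12,0),(2,0)]⟩⟩]⟩) (.I [0,0,1,1,0,0,0,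
  1] (.Q [0,-1,0,2,0,0,1,1,0,1,-1] (.p false [0,0,1] [1] (⟨0,[(18,0)]⟩,⟨0,[(17,0)]⟩) .k 1 (⟨0,[]⟩,
  ⟨0,[]⟩) .k .k) (.Q [0,1,0,-1,0,0,-1,-1,0,0,1] (.p true [0,0,1] [] (⟨0,[(19,0)]⟩,⟨0,[(18,0)]⟩) .k
  0 (⟨0,[]⟩,⟨0,[]⟩) .k .k) (.Q [0,-1,0,1,0,0,1,1,0,1,-1] (.p false [0,0,1] [1] (⟨0,[(20,0)]⟩,⟨0,
  [(19,0)]⟩) .k 1 (⟨0,[]⟩,⟨0,[]⟩) .k .k) (.I [0,0,0,0,0,0,0,-1] (.R ⟨1,false,false,false,[1,0,-1],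
  [0,1],[1,0,0,-1,0,0,0,-1],(⟨0,[(21,0)]⟩,⟨0,[(22,0)]⟩),(⟨0,[(25,0)]⟩,⟨0,[(24,0)]⟩),⟨0,[(10,0)]⟩,.k,
  .k,.k,.k,(.r (-1) ⟨0,[(0,0),(26,1),(3,0)]⟩ ⟨1,[(3,0),(0,1),(3,0),(9,0)]⟩),.k,⟨false,1,⟨0,[(0,0),
  (26,1),(3,0)]⟩,⟨0,[(4,0),(24,0)]⟩⟩,⟨true,0,⟨0,[(16,0)]⟩,⟨0,[(6,0),(13,0)]⟩⟩,⟨false,1,⟨0,[(28,0),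
  (2,0)]⟩,⟨0,[(29,0)]⟩⟩,⟨false,0,⟨0,[(1,0)]⟩,⟨0,[(7,0),(10,0)]⟩⟩,⟨true,0,⟨0,[]⟩,⟨0,[(33,0)]⟩⟩,
  ⟨false,0,⟨0,[(3,0)]⟩,⟨0,[(2,0),(4,0)]⟩⟩,[.o ⟨false,0,⟨0,[(29,0)]⟩,⟨3,[(7,1),(4,0),(0,0),(9,0),(4,
  1)]⟩⟩,.o ⟨false,1,⟨3,[(3,1),(8,0),(0,0),(4,1),(4,0),(7,1)]⟩,⟨0,[(6,0),(20,0)]⟩⟩,.o ⟨false,1,⟨1,
  [(20,1),(2,0),(6,0)]⟩,⟨0,[(6,0),(9,0)]⟩⟩,.a ⟨true,0,⟨0,[(20,0)]⟩,⟨0,[(16,0)]⟩⟩ ⟨false,1,⟨0,[(0,0),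
  (26,0),(3,0)]⟩,⟨0,[(4,0)]⟩⟩ ⟨true,0,⟨0,[(16,0),(12,0)]⟩,⟨0,[(6,0),(13,0),(6,0)]⟩⟩]⟩) (.R ⟨2,false,
  false,false,[0,1],[0,1,1],[0,0,1,1],(⟨0,[]⟩,⟨0,[]⟩),(⟨0,[(22,0),(2,0)]⟩,⟨0,[(10,0)]⟩),⟨0,[]⟩,.k,
  .k,.k,.k,.k,.k,⟨false,1,⟨1,[(16,1),(1,1),(4,0),(7,0)]⟩,⟨0,[(0,0)]⟩⟩,⟨true,0,⟨0,[(6,0),(9,0)]⟩,⟨0,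
  [(20,0)]⟩⟩,⟨false,1,⟨1,[(12,0),(0,0),(17,0)]⟩,⟨0,[]⟩⟩,⟨true,0,⟨0,[(1,0),(4,0),(20,0)]⟩,⟨0,[(18,
  0)]⟩⟩,⟨true,0,⟨0,[(29,0)]⟩,⟨0,[(28,0)]⟩⟩,⟨true,0,⟨0,[(3,0),(2,0),(20,0)]⟩,⟨0,[(2,0)]⟩⟩,[.o ⟨false,
  0,⟨0,[(3,0),(2,0),(20,0)]⟩,⟨0,[(7,0),(10,0)]⟩⟩,.a ⟨true,0,⟨0,[(1,0)]⟩,⟨0,[(2,0)]⟩⟩ ⟨false,1,⟨3,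
  [(3,1),(8,0),(0,0),(4,1),(4,0),(7,1)]⟩,⟨0,[(27,0)]⟩⟩ ⟨true,0,⟨0,[(1,0),(4,0)]⟩,⟨0,[(2,0)]⟩⟩,.o
  ⟨false,1,⟨1,[(12,0),(0,0),(16,0)]⟩,⟨0,[(6,0)]⟩⟩,.e ⟨true,0,⟨0,[(29,0)]⟩,⟨0,[(28,0)]⟩⟩ ⟨true,0,⟨0,
  [(3,0),(2,0),(20,0)]⟩,⟨0,[(2,0)]⟩⟩]⟩)) (.R ⟨1,true,false,false,[1,0,-1],[0,1],[0,0,0,0,0,0,0,-1],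
  (⟨0,[(20,0)]⟩,⟨0,[(21,0)]⟩),(⟨0,[(24,0)]⟩,⟨0,[(23,0)]⟩),⟨0,[(9,0)]⟩,.k,.k,.k,.k,(.r (-1) ⟨0,[(0,
  0),(14,0),(10,0),(3,0)]⟩ ⟨1,[(2,0),(0,1),(3,0),(9,0)]⟩),.k,⟨false,1,⟨1,[(0,1),(14,1),(13,0),(0,
  0)]⟩,⟨0,[(3,0)]⟩⟩,⟨true,0,⟨0,[(15,0)]⟩,⟨0,[(5,0),(13,0)]⟩⟩,⟨false,1,⟨1,[(11,0),(0,0),(17,0)]⟩,⟨0,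
  []⟩⟩,⟨true,0,⟨11,[(2,4),(0,1),(0,5),(3,0),(8,0),(7,1)]⟩,⟨0,[(0,0)]⟩⟩,⟨true,0,⟨0,[(28,0)]⟩,⟨0,[(27,
  0)]⟩⟩,⟨false,0,⟨0,[(2,0)]⟩,⟨0,[(1,0),(4,0)]⟩⟩,[]⟩)) (.R ⟨2,true,false,false,[0,1],[0,1,1],[1,0,1],
  (⟨0,[]⟩,⟨0,[]⟩),(⟨0,[(20,0),(2,0)]⟩,⟨0,[(8,0)]⟩),⟨0,[]⟩,.k,.k,.k,.k,.k,.k,⟨false,1,⟨0,[(5,0),(8,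
  0),(1,0)]⟩,⟨0,[(0,0),(17,0),(6,0),(1,0)]⟩⟩,⟨true,0,⟨0,[(4,0),(9,0)]⟩,⟨0,[(18,0)]⟩⟩,⟨false,1,⟨0,
  [(26,0),(2,0)]⟩,⟨0,[(27,0)]⟩⟩,⟨true,0,⟨0,[(0,0),(25,0)]⟩,⟨0,[(16,0)]⟩⟩,⟨true,0,⟨0,[]⟩,⟨0,[(31,
  0)]⟩⟩,⟨false,0,⟨0,[(0,0)]⟩,⟨0,[(16,0),(9,0),(2,0)]⟩⟩,[]⟩)) (.R ⟨1,false,false,false,[1,0,-1],[0,
  1],[1,0,0,-1,0,0,0,-1],(⟨0,[(18,0)]⟩,⟨0,[(19,0)]⟩),(⟨0,[(22,0)]⟩,⟨0,[(21,0)]⟩),⟨0,[(7,0)]⟩,.k,.k,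
  .k,.k,(.r (-1) ⟨1,[(0,1),(12,1),(13,0),(0,0)]⟩ ⟨3,[(1,3),(3,0),(0,0),(10,1),(8,3)]⟩),.k,⟨false,1,
  ⟨1,[(0,1),(12,1),(13,0),(0,0)]⟩,⟨0,[(1,0),(24,0)]⟩⟩,⟨true,0,⟨0,[(13,0)]⟩,⟨0,[(3,0),(13,0)]⟩⟩,
  ⟨false,1,⟨0,[(25,0),(2,0)]⟩,⟨0,[(26,0)]⟩⟩,⟨true,0,⟨0,[(1,0),(11,0)]⟩,⟨0,[(0,0),(25,0)]⟩⟩,⟨true,0,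
  ⟨0,[]⟩,⟨0,[(30,0)]⟩⟩,⟨true,0,⟨0,[(1,0),(11,0),(12,0)]⟩,⟨0,[(0,0)]⟩⟩,[.o ⟨false,0,⟨0,[(26,0)]⟩,⟨3,
  [(4,1),(4,0),(0,0),(9,0),(4,1)]⟩⟩,.o ⟨false,1,⟨1,[(9,0),(0,0),(15,1),(1,0)]⟩,⟨0,[(3,0),(20,0)]⟩⟩,
  .o ⟨false,1,⟨1,[(17,1),(2,0),(6,0)]⟩,⟨0,[(3,0),(9,0)]⟩⟩,.a ⟨true,0,⟨0,[(17,0)]⟩,⟨0,[(13,0)]⟩⟩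
  ⟨false,1,⟨0,[(0,0),(12,0),(12,0),(1,0)]⟩,⟨0,[(1,0)]⟩⟩ ⟨true,0,⟨0,[(13,0),(12,0)]⟩,⟨0,[(0,0),(0,
  0)]⟩⟩]⟩)) (.R ⟨1,false,false,true,[1,0,-1],[0,1],[1,0,0,-1,0,0,0,-1],(⟨0,[(17,0)]⟩,⟨0,[(18,0)]⟩),
  (⟨0,[(21,0)]⟩,⟨0,[(20,0)]⟩),⟨0,[(6,0)]⟩,.k,.k,.k,.k,(.r (-1) ⟨1,[(0,1),(23,1),(1,0),(0,0)]⟩ ⟨0,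
  [(1,0),(0,0),(13,0),(8,1)]⟩),.k,⟨false,1,⟨0,[(0,0),(22,0),(3,0)]⟩,⟨0,[(13,0),(2,0),(8,1)]⟩⟩,⟨true,
  0,⟨0,[(12,0)]⟩,⟨0,[(2,0),(13,0)]⟩⟩,⟨false,1,⟨0,[(24,0),(2,0)]⟩,⟨0,[(25,0)]⟩⟩,⟨false,0,⟨0,[(1,0),
  (23,0)]⟩,⟨1,[(0,1),(15,1),(2,0),(7,0)]⟩⟩,⟨true,0,⟨0,[]⟩,⟨0,[(29,0)]⟩⟩,⟨false,0,⟨0,[(1,0),(23,1)]⟩,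
  ⟨0,[(0,0),(2,0),(12,0)]⟩⟩,[.o ⟨false,0,⟨0,[(25,0),(3,0)]⟩,⟨0,[(3,0)]⟩⟩,.o ⟨false,0,⟨0,[(25,0)]⟩,
  ⟨3,[(3,1),(4,0),(0,0),(9,0),(4,1)]⟩⟩,.o ⟨false,1,⟨1,[(16,1),(2,0),(6,0)]⟩,⟨0,[(2,0),(9,0)]⟩⟩,.a
  ⟨true,0,⟨0,[(16,0)]⟩,⟨0,[(12,0)]⟩⟩ ⟨true,0,⟨0,[(0,0)]⟩,⟨0,[(13,0),(2,0),(8,0)]⟩⟩ ⟨false,0,⟨0,[(12,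
  0),(12,0)]⟩,⟨0,[(3,0),(12,0)]⟩⟩]⟩))))

theorem ok0 : chk K t0 l1 = true := by decide +kernel

noncomputable def t1 : Tre :=
  (.S ⟨1,0,[0,0,-1,-1],[1,-1],[1,1,-1,-2],(⟨0,[(18,0)]⟩,⟨0,[(19,0)]⟩),⟨0,[(4,0),(0,0)]⟩,.k,(.r (-1)
  ⟨0,[(21,1),(3,0)]⟩ ⟨3,[(0,3),(1,0),(0,0),(10,1),(12,3)]⟩),⟨true,0,⟨0,[(22,0)]⟩,⟨0,[(23,0)]⟩⟩,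
  ⟨false,1,⟨1,[(6,0),(0,0),(17,0)]⟩,⟨0,[]⟩⟩,⟨false,0,⟨0,[]⟩,⟨1,[(6,0),(0,0),(17,0)]⟩⟩,⟨true,0,⟨0,
  [(23,0)]⟩,⟨0,[(22,0)]⟩⟩,[.o ⟨false,1,⟨1,[(17,0),(4,1),(2,0)]⟩,⟨0,[(23,0)]⟩⟩,.a ⟨true,1,⟨0,[(22,0),
  (2,0)]⟩,⟨0,[(1,0)]⟩⟩ ⟨false,1,⟨0,[(21,1),(3,0)]⟩,⟨0,[(0,0),(26,0)]⟩⟩ ⟨true,1,⟨0,[(21,0),(3,0)]⟩,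
  ⟨0,[(1,0),(0,0)]⟩⟩,.e ⟨false,1,⟨0,[(21,0),(0,0),(2,0)]⟩,⟨0,[(0,0)]⟩⟩ ⟨false,1,⟨0,[(21,0),(3,0)]⟩,
  ⟨7,[(0,3),(1,0),(0,0),(10,1),(12,3)]⟩⟩,.o ⟨false,0,⟨0,[(2,0)]⟩,⟨0,[(24,0)]⟩⟩]⟩)

theorem ok1 : chk K t1 l2 = true := by decide +kernel

noncomputable def t2 : Tre :=
  (.I [0,0,2,2,0,0,0,-1] (.K ⟨0,[0,-1,1],0,0,(⟨0,[(7,0)]⟩,⟨0,[(17,0),(3,0)]⟩),.k,(.r (-1) ⟨0,[(1,0),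
  (22,0),(1,0)]⟩ ⟨0,[(0,0)]⟩),.k,.k,.k,[⟨3,[(4,0),(0,0),(10,1)]⟩,⟨0,[(1,0),(12,0),(10,0)]⟩,⟨0,[(14,
  0),(10,0)]⟩,⟨7,[(1,1),(0,1),(1,0),(0,0),(7,5),(10,1)]⟩]⟩) (.K ⟨0,[0,-1,1],0,0,(⟨0,[(7,0)]⟩,⟨0,
  [(17,0),(3,0)]⟩),.k,(.x 0 ⟨1,[(4,1),(0,0),(0,0),(0,2)]⟩ ⟨1,[(0,1),(13,1),(2,1),(1,0),(1,3),(3,3),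
  (1,0)]⟩),.k,.k,.k,[⟨3,[(4,0),(0,0),(10,1)]⟩,⟨0,[(1,0),(12,0),(10,0)]⟩,⟨0,[(14,0),(10,0)]⟩,⟨7,[(1,
  1),(0,1),(1,0),(0,0),(7,5),(10,1)]⟩]⟩))

theorem ok2 : chk K t2 l3 = true := by decide +kernel

noncomputable def t3 : Tre :=
  (.R ⟨1,false,false,false,[1,-1],[1,-1,-1],[1,0,-1,-1,0,0,0,-1],(⟨0,[(23,0)]⟩,⟨0,[(24,0)]⟩),(⟨0,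
  [(9,0)]⟩,⟨0,[(21,0),(2,0)]⟩),⟨0,[(9,0),(0,0)]⟩,.k,.k,(.r (-1) ⟨1,[(5,1),(23,0),(0,0)]⟩ ⟨2,[(3,1),
  (7,0),(0,0),(3,1),(2,1),(8,1),(1,0)]⟩),.k,.k,.k,⟨true,0,⟨0,[]⟩,⟨3,[(7,0),(0,0),(10,1)]⟩⟩,⟨false,1,
  ⟨0,[(19,0),(9,0)]⟩,⟨0,[(1,0),(4,0),(0,0),(8,0),(13,0)]⟩⟩,⟨false,0,⟨0,[(1,0),(4,0),(0,0),(22,0)]⟩,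
  ⟨1,[(16,1),(2,1),(9,0),(0,0)]⟩⟩,⟨true,0,⟨7,[(0,3),(2,0),(1,2),(11,2),(1,0),(10,0)]⟩,⟨0,[(16,0)]⟩⟩,
  ⟨false,0,⟨1,[(1,0),(1,0),(24,0),(1,0)]⟩,⟨3,[(5,1),(10,3),(2,3),(9,0),(0,2)]⟩⟩,⟨false,0,⟨0,[(0,
  0)]⟩,⟨0,[(16,0),(10,0),(2,0)]⟩⟩,[.a ⟨true,0,⟨7,[(0,3),(2,2),(1,8),(11,0),(1,2),(10,2)]⟩,⟨0,[(6,0),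
  (9,0),(13,0)]⟩⟩ ⟨false,0,⟨0,[(1,0)]⟩,⟨1,[(11,0),(0,0),(3,1),(2,1),(8,1),(1,0)]⟩⟩ ⟨true,0,⟨0,[(0,
  0),(4,0)]⟩,⟨0,[(6,0),(0,0),(8,0),(13,0)]⟩⟩,.o ⟨false,1,⟨6,[(0,4),(4,5),(1,2),(9,1),(4,1),(7,4)]⟩,
  ⟨0,[(16,0),(11,0)]⟩⟩,.e ⟨true,0,⟨19,[(1,11),(1,5),(1,9),(1,0),(0,0),(8,1),(12,5)]⟩,⟨0,[(16,0),(2,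
  0),(8,0)]⟩⟩ ⟨true,0,⟨0,[(0,0),(4,0)]⟩,⟨5,[(3,1),(7,0),(0,0),(3,7),(2,1),(8,1),(1,0)]⟩⟩,.o ⟨false,
  0,⟨0,[(7,0)]⟩,⟨0,[(29,0)]⟩⟩]⟩)

theorem ok3 : chk K t3 l7 = true := by decide +kernel

noncomputable def t4 : Tre :=
  (.Q [0,0,-1,0,1,0,-1,0,0,-1,1] (.p true [0,0,1] [1] (⟨0,[(23,0)]⟩,⟨0,[(22,0)]⟩) .k 1 (⟨0,[]⟩,⟨0,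
  []⟩) .k .k) (.Q [0,-1,0,2,0,0,-1,-1,0,0,1] (.p true [0,0,1] [] (⟨0,[(24,0)]⟩,⟨0,[(23,0)]⟩) .k 0
  (⟨0,[]⟩,⟨0,[]⟩) .k .k) (.R ⟨1,false,false,false,[0,0,1],[0,1],[0,0,2,1],(⟨0,[(25,0)]⟩,⟨0,[(24,
  0)]⟩),(⟨0,[(28,0)]⟩,⟨0,[(27,0)]⟩),⟨0,[(14,0)]⟩,.k,.k,.k,.k,(.r (-2) ⟨0,[(2,0),(1,0),(26,0),(2,
  0)]⟩ ⟨0,[(7,0)]⟩),.k,⟨true,0,⟨3,[(11,0),(0,0),(10,1)]⟩,⟨0,[]⟩⟩,⟨false,1,⟨0,[(2,0)]⟩,⟨0,[(22,0)]⟩⟩,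
  ⟨true,(-1),⟨1,[(0,0),(2,0),(1,0),(4,0),(0,1),(11,0)]⟩,⟨0,[(2,0),(1,0)]⟩⟩,⟨true,0,⟨1,[(0,0),(20,
  0)]⟩,⟨0,[(4,0)]⟩⟩,⟨true,(-1),⟨0,[(7,0)]⟩,⟨0,[(1,0),(2,0),(4,0),(0,0),(23,0)]⟩⟩,⟨false,0,⟨0,[(0,
  0)]⟩,⟨0,[(4,0),(26,0),(2,0)]⟩⟩,[.o ⟨false,0,⟨0,[(32,0)]⟩,⟨1,[(26,0),(4,1),(2,0)]⟩⟩,.a ⟨true,0,⟨0,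
  [(10,0),(23,0)]⟩,⟨0,[(31,0)]⟩⟩ ⟨true,0,⟨0,[(10,0),(0,0),(22,0)]⟩,⟨0,[(30,0)]⟩⟩ ⟨false,1,⟨0,[(1,0),
  (8,0),(23,0)]⟩,⟨3,[(6,1),(4,0),(0,0),(18,1)]⟩⟩,.o ⟨false,0,⟨2,[(3,0),(15,0),(6,0)]⟩,⟨3,[(1,2),(9,
  0),(3,0),(0,0),(6,0)]⟩⟩,.o ⟨false,0,⟨0,[(22,0)]⟩,⟨0,[(1,0)]⟩⟩]⟩) (.Q [0,0,0,0,0,2,0,0,0,0,-1] (.p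
  false [0,0,1] [] (⟨0,[(25,0)]⟩,⟨0,[(24,0)]⟩) .k 0 (⟨0,[]⟩,⟨0,[]⟩) .k .k) (.R ⟨0,false,false,false,
  [0,-1,1],[1,0,-1],[1,1,1],(⟨0,[(15,0)]⟩,⟨0,[(0,0),(27,0)]⟩),(⟨0,[(25,0)]⟩,⟨0,[(26,0)]⟩),⟨0,[(0,
  0)]⟩,.k,.k,(.r (-2) ⟨1,[(1,1),(1,1),(12,0),(0,0),(17,0)]⟩ ⟨0,[(8,0)]⟩),(.r (-2) ⟨0,[(3,0),(1,0),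
  (15,0),(2,0),(10,0)]⟩ ⟨22,[(4,4),(1,18),(1,20),(3,4),(9,5),(1,3),(10,2)]⟩),.k,.k,⟨true,0,⟨0,[(21,
  0),(2,0)]⟩,⟨0,[(6,0),(4,0),(0,0),(22,0)]⟩⟩,⟨false,2,⟨2,[(2,2),(0,1),(12,0),(0,0),(6,0)]⟩,⟨0,[(4,
  0)]⟩⟩,⟨false,(-1),⟨0,[(6,0),(4,1),(0,1),(22,0)]⟩,⟨0,[(3,0),(1,0),(29,0)]⟩⟩,⟨true,0,⟨0,[(2,0),(3,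
  0),(1,0),(15,0)]⟩,⟨0,[(5,1),(5,0),(23,0)]⟩⟩,⟨false,0,⟨0,[]⟩,⟨0,[]⟩⟩,⟨false,0,⟨0,[]⟩,⟨0,[]⟩⟩,[.e
  ⟨false,0,⟨0,[(37,0)]⟩,⟨1,[(34,0),(0,0)]⟩⟩ ⟨false,1,⟨4,[(2,6),(3,3),(1,0),(2,1),(12,2),(10,0)]⟩,⟨4,
  [(4,1),(0,0),(5,0),(1,1),(7,3),(2,2),(10,2)]⟩⟩,.o ⟨false,1,⟨8,[(2,4),(3,3),(1,1),(3,3),(9,2),(1,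
  0),(10,5)]⟩,⟨0,[(21,0)]⟩⟩,.o ⟨false,0,⟨0,[(23,0)]⟩,⟨0,[(2,0)]⟩⟩,.a ⟨true,(-1),⟨0,[(4,0),(19,0)]⟩,
  ⟨0,[(3,0)]⟩⟩ ⟨false,0,⟨0,[]⟩,⟨1,[(16,0),(0,0),(17,0)]⟩⟩ ⟨true,1,⟨4,[(2,6),(3,3),(1,0),(2,1),(12,
  2),(10,0)]⟩,⟨0,[(4,0),(16,0),(2,0)]⟩⟩]⟩) (.Q [0,-1,0,-2,1,0,1,1,-1,0,-1,1] (.p false [0,0,1] [0,0,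
  0,0,1] (⟨0,[(26,0)]⟩,⟨0,[(25,0)]⟩) .k 2 (⟨0,[(19,0)]⟩,⟨0,[(18,0)]⟩) .k (.r (-2) ⟨2,[(3,0),(12,1),
  (0,1),(3,2),(2,1),(10,2)]⟩ ⟨0,[(6,0),(4,0),(0,0)]⟩)) (.Q [0,0,0,0,0,-1,0,0,0,1,0,-1] (.ed true [0,
  1,0,0,1] .k) (.R ⟨1,false,false,false,[1,0,0,0,-1],[1,1,-1],[],(⟨0,[(20,0)]⟩,⟨0,[(21,0)]⟩),(⟨0,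
  [(27,0),(3,0)]⟩,⟨0,[(17,0)]⟩),⟨0,[(0,0)]⟩,.k,.k,(.r (-1) ⟨3,[(12,1),(23,0),(0,2)]⟩ ⟨4,[(10,0),(0,
  1),(6,0),(0,0),(3,2),(2,2),(8,0)]⟩),(.r (-2) ⟨2,[(5,1),(1,2),(10,0),(0,0),(6,0),(10,2)]⟩ ⟨10,[(8,
  0),(1,9),(1,4),(0,1),(15,0),(2,1)]⟩),(.r (-2) ⟨0,[(1,0),(3,0),(13,0)]⟩ ⟨0,[(10,0),(28,0)]⟩),.k,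
  ⟨true,1,⟨0,[(1,0),(2,0),(8,0),(5,0)]⟩,⟨0,[(8,0),(4,1),(0,1),(22,0)]⟩⟩,⟨false,1,⟨0,[(5,0),(13,0)]⟩,
  ⟨7,[(1,6),(6,0),(0,0),(0,5),(2,3),(4,0),(10,1),(2,0)]⟩⟩,⟨true,0,⟨0,[(39,0)]⟩,⟨0,[]⟩⟩,⟨false,0,⟨12,
  [(5,6),(2,2),(1,7),(8,12),(4,1),(1,3),(10,0)]⟩,⟨0,[(1,0),(33,0)]⟩⟩,⟨false,0,⟨0,[(35,0)]⟩,⟨0,[(34,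
  0),(2,0)]⟩⟩,⟨false,0,⟨0,[(5,0),(4,0),(8,0)]⟩,⟨0,[(1,0)]⟩⟩,[.e ⟨false,1,⟨1,[(18,0),(0,0),(16,0)]⟩,
  ⟨0,[]⟩⟩ ⟨false,0,⟨4,[(4,3),(3,2),(1,1),(2,3),(5,4),(6,0),(10,1)]⟩,⟨1,[(1,0),(16,0),(4,0)]⟩⟩,.o
  ⟨false,1,⟨25,[(4,19),(3,3),(1,13),(0,1),(12,5),(4,2),(7,16)]⟩,⟨0,[(7,0)]⟩⟩,.o ⟨false,1,⟨12,[(1,8),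
  (2,8),(3,1),(1,6),(1,0),(0,7),(4,3),(10,5)]⟩,⟨0,[(19,0)]⟩⟩,.a ⟨true,0,⟨2,[(1,2),(2,1),(3,0),(1,1),
  (2,2),(0,0),(11,0)]⟩,⟨4,[(5,0),(6,1),(0,3),(5,4),(2,0),(14,2)]⟩⟩ ⟨false,1,⟨1,[(36,0),(0,0)]⟩,⟨3,
  [(14,0),(0,0),(10,1)]⟩⟩ ⟨true,0,⟨4,[(4,3),(3,2),(1,1),(2,3),(5,4),(6,0),(10,1)]⟩,⟨6,[(1,6),(10,0),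
  (0,8),(0,4),(14,1),(2,1)]⟩⟩]⟩) (.R ⟨0,false,false,false,[1,0,0,0,-1],[1,0,-1],[1,1,1],(⟨0,[(20,
  0)]⟩,⟨0,[(21,0)]⟩),(⟨0,[(27,0)]⟩,⟨0,[(28,0)]⟩),⟨0,[(0,0)]⟩,.k,.k,(.r (-1) ⟨3,[(12,1),(23,0),(0,
  2)]⟩ ⟨4,[(10,0),(0,1),(6,0),(0,0),(3,2),(2,2),(8,0)]⟩),.k,.k,.k,⟨true,0,⟨0,[(23,0),(2,0)]⟩,⟨0,[(8,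
  0),(4,0),(0,0),(22,0)]⟩⟩,⟨false,1,⟨2,[(5,1),(12,0),(0,3),(6,0)]⟩,⟨1,[(1,1),(6,0),(1,0),(2,1),(15,
  0),(5,0)]⟩⟩,⟨true,(-1),⟨6,[(12,3),(0,7),(0,5),(14,0),(2,0)]⟩,⟨1,[(36,0),(0,0)]⟩⟩,⟨false,0,⟨12,[(5,
  0),(2,5),(1,2),(8,12),(4,3),(1,7),(10,1)]⟩,⟨0,[(1,0),(33,1)]⟩⟩,⟨false,0,⟨0,[]⟩,⟨0,[]⟩⟩,⟨false,0,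
  ⟨0,[]⟩,⟨0,[]⟩⟩,[.e ⟨false,0,⟨0,[(39,0)]⟩,⟨1,[(36,0),(0,0)]⟩⟩ ⟨false,0,⟨4,[(4,1),(3,3),(1,0),(2,1),
  (5,4),(6,2),(10,0)]⟩,⟨1,[(1,0),(16,0),(4,0),(11,1)]⟩⟩,.o ⟨false,1,⟨8,[(4,4),(3,3),(1,1),(3,3),(9,
  2),(1,0),(10,5)]⟩,⟨0,[(23,0)]⟩⟩,.o ⟨false,1,⟨12,[(1,8),(2,8),(3,1),(1,6),(1,0),(0,7),(4,3),(10,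
  5)]⟩,⟨0,[(19,0)]⟩⟩,.a ⟨true,0,⟨2,[(1,2),(2,1),(3,0),(1,1),(2,2),(0,0),(11,0)]⟩,⟨4,[(5,0),(6,1),(0,
  3),(5,4),(2,0),(14,2)]⟩⟩ ⟨false,0,⟨0,[]⟩,⟨1,[(18,0),(0,0),(17,0)]⟩⟩ ⟨true,0,⟨4,[(4,1),(3,3),(1,0),
  (2,1),(5,4),(6,2),(10,0)]⟩,⟨3,[(1,2),(11,5),(0,1),(3,0),(4,0),(5,1)]⟩⟩]⟩)) (.Q [0,0,1,1,0,0,-1,-1,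
  -1,-1,1,1] (.p true [0,0,1] [1,0,0,0,-1] (⟨0,[(27,0)]⟩,⟨0,[(26,0)]⟩) .k 2 (⟨0,[(19,0)]⟩,⟨0,[(20,
  0)]⟩) .k (.r (-1) ⟨2,[(4,0),(12,1),(0,1),(3,2),(2,1)]⟩ ⟨0,[(7,0),(4,0),(0,0),(22,0)]⟩)) (.Q [0,0,
  0,0,0,-1,0,0,0,1,0,-1] (.ed true [0,1,0,0,1] .k) (.S ⟨1,0,[0,-1],[1,0,0,0,-1],[1,0,0,-1],(⟨0,[(21,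
  0)]⟩,⟨0,[(22,0)]⟩),⟨0,[(0,0)]⟩,.k,(.r (-1) ⟨3,[(13,1),(23,0),(0,2)]⟩ ⟨7,[(2,0),(8,1),(0,1),(6,2),
  (0,1),(3,4),(2,3)]⟩),⟨true,0,⟨0,[(35,0)]⟩,⟨0,[(36,0)]⟩⟩,⟨false,1,⟨1,[(19,0),(0,0),(17,0)]⟩,⟨0,
  []⟩⟩,⟨false,0,⟨0,[]⟩,⟨1,[(19,0),(0,0),(17,0)]⟩⟩,⟨true,0,⟨0,[(36,0)]⟩,⟨0,[(35,0)]⟩⟩,[.e ⟨false,1,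
  ⟨1,[(35,1),(1,0),(0,0)]⟩,⟨0,[(36,0)]⟩⟩ ⟨false,1,⟨1,[(37,0),(0,0)]⟩,⟨0,[(40,0)]⟩⟩,.o ⟨false,2,⟨9,
  [(1,7),(4,1),(1,5),(0,1),(9,1),(4,3),(5,0),(7,14)]⟩,⟨0,[(2,0),(1,0)]⟩⟩,.o ⟨false,1,⟨9,[(1,7),(4,
  1),(1,5),(0,1),(9,1),(4,3),(5,0),(7,4)]⟩,⟨0,[(20,0)]⟩⟩,.a ⟨true,0,⟨0,[(1,0),(2,0),(9,0),(23,0)]⟩,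
  ⟨4,[(6,0),(6,1),(0,3),(5,4),(2,0),(14,2)]⟩⟩ ⟨false,1,⟨3,[(13,1),(23,0),(0,2)]⟩,⟨5,[(11,1),(7,0),
  (0,0),(3,1),(2,1),(8,1),(1,0)]⟩⟩ ⟨true,1,⟨1,[(37,0),(0,0)]⟩,⟨5,[(1,0),(0,0),(1,1),(8,1),(0,4),(0,
  3),(17,0)]⟩⟩]⟩) (.Q [0,0,-2,0,0,0,0,0,1,1,0,-1] (.p false [0,0,0,0,1] [1] (⟨0,[(22,0)]⟩,⟨0,[(21,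
  0)]⟩) .k 1 (⟨0,[]⟩,⟨0,[]⟩) .k .k) (.R ⟨0,false,false,true,[1,0,0,0,-1],[0,1],[1,1,1,1],(⟨0,[(22,
  0)]⟩,⟨0,[(23,0)]⟩),(⟨0,[(33,0)]⟩,⟨0,[(32,0)]⟩),⟨0,[(1,0)]⟩,.k,.k,(.r (-1) ⟨3,[(14,1),(23,0),(0,
  2)]⟩ ⟨7,[(3,0),(8,1),(0,1),(6,2),(0,1),(3,4),(2,3)]⟩),(.r (-1) ⟨3,[(14,1),(23,0),(0,2)]⟩ ⟨7,[(3,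
  0),(8,1),(0,1),(6,2),(0,1),(3,4),(2,3)]⟩),.k,.k,⟨true,0,⟨0,[]⟩,⟨3,[(16,0),(0,0),(10,1)]⟩⟩,⟨false,
  0,⟨0,[(0,0)]⟩,⟨5,[(2,1),(6,1),(6,1),(3,3),(10,0),(7,0)]⟩⟩,⟨true,(-1),⟨3,[(2,0),(0,0),(5,1),(5,2),
  (0,1),(17,0)]⟩,⟨3,[(14,1),(23,0),(0,2)]⟩⟩,⟨false,(-1),⟨0,[(15,0),(5,0)]⟩,⟨3,[(2,2),(2,1),(0,0),(2,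
  1),(0,0),(9,0),(18,5)]⟩⟩,⟨false,0,⟨0,[]⟩,⟨0,[]⟩⟩,⟨false,0,⟨0,[]⟩,⟨0,[]⟩⟩,[.a ⟨true,(-1),⟨0,[(15,
  0)]⟩,⟨0,[(36,0),(2,0)]⟩⟩ ⟨false,0,⟨1,[(3,0),(16,0),(4,0)]⟩,⟨3,[(14,1),(23,0),(0,2)]⟩⟩ ⟨true,(-1),
  ⟨0,[(15,0),(5,0)]⟩,⟨0,[(2,0),(2,0),(33,0)]⟩⟩,.o ⟨false,0,⟨0,[(37,0)]⟩,⟨1,[(31,0),(4,1),(2,0)]⟩⟩,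
  .o ⟨false,1,⟨9,[(2,7),(4,1),(1,5),(0,1),(9,1),(4,3),(5,0),(7,4)]⟩,⟨0,[(21,0)]⟩⟩,.e ⟨false,0,⟨0,
  [(37,0)]⟩,⟨0,[(36,0),(2,0)]⟩⟩ ⟨false,0,⟨3,[(0,1),(14,1),(4,0),(0,2),(15,1),(1,0)]⟩,⟨0,[(2,0),(2,
  0),(33,0)]⟩⟩]⟩) (.R ⟨0,false,false,true,[1,0,0,0,-1],[0,1],[1,1,1],(⟨0,[(22,0)]⟩,⟨0,[(23,0)]⟩),
  (⟨0,[(33,0)]⟩,⟨0,[(32,0)]⟩),⟨0,[(1,0)]⟩,.k,.k,(.r (-1) ⟨3,[(14,1),(23,0),(0,2)]⟩ ⟨7,[(3,0),(8,1),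
  (0,1),(6,2),(0,1),(3,4),(2,3)]⟩),(.r (-1) ⟨3,[(14,1),(23,0),(0,2)]⟩ ⟨7,[(3,0),(8,1),(0,1),(6,2),
  (0,1),(3,4),(2,3)]⟩),.k,.k,⟨false,1,⟨1,[(36,1),(1,0),(0,0)]⟩,⟨0,[(37,0)]⟩⟩,⟨true,0,⟨4,[(7,0),(6,
  1),(0,3),(5,4),(2,0),(14,2)]⟩,⟨0,[(0,0)]⟩⟩,⟨true,(-1),⟨1,[(0,0),(2,0),(1,0),(9,0),(20,0)]⟩,⟨1,
  [(38,0),(0,0)]⟩⟩,⟨false,(-1),⟨0,[(15,0),(5,0)]⟩,⟨5,[(0,3),(4,1),(1,1),(2,1),(9,1),(10,0),(7,6)]⟩⟩,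
  ⟨false,0,⟨0,[]⟩,⟨0,[]⟩⟩,⟨false,0,⟨0,[]⟩,⟨0,[]⟩⟩,[.a ⟨true,(-1),⟨0,[(15,0)]⟩,⟨0,[(36,0),(2,0)]⟩⟩
  ⟨false,0,⟨0,[(41,0)]⟩,⟨1,[(38,0),(0,0)]⟩⟩ ⟨true,(-1),⟨0,[(15,0),(5,0)]⟩,⟨6,[(0,5),(4,0),(0,0),(3,
  0),(3,1),(5,0),(18,4)]⟩⟩,.o ⟨false,0,⟨0,[(37,0)]⟩,⟨1,[(31,0),(4,1),(2,0)]⟩⟩,.o ⟨false,1,⟨0,[(0,0),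
  (37,0)]⟩,⟨0,[(21,0)]⟩⟩,.e ⟨false,0,⟨0,[]⟩,⟨1,[(20,0),(0,0),(17,0)]⟩⟩ ⟨false,0,⟨2,[(7,0),(7,1),(5,
  2),(2,0),(12,0),(1,0)]⟩,⟨6,[(0,5),(4,0),(0,0),(3,0),(3,1),(5,0),(18,4)]⟩⟩]⟩))) (.I [0,-1,0,1,1,0,
  0,1] (.S ⟨1,0,[0,0,0,0,0,0,0,-1],[1,0,-1],[1,1,0,-1,0,0,0,-1],(⟨0,[(28,0)]⟩,⟨0,[(29,0)]⟩),⟨0,[(17,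
  0)]⟩,.k,.k,⟨true,0,⟨0,[(35,0)]⟩,⟨0,[(36,0)]⟩⟩,⟨false,1,⟨1,[(19,0),(0,0),(17,0)]⟩,⟨0,[]⟩⟩,⟨false,0,
  ⟨0,[]⟩,⟨1,[(19,0),(0,0),(17,0)]⟩⟩,⟨true,0,⟨0,[(36,0)]⟩,⟨0,[(35,0)]⟩⟩,[.e ⟨false,0,⟨6,[(9,2),(0,1),
  (2,0),(1,0),(0,0),(8,3)]⟩,⟨0,[(0,0)]⟩⟩ ⟨false,0,⟨9,[(9,5),(1,1),(0,1),(24,0),(0,0)]⟩,⟨0,[(0,0),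
  (34,0)]⟩⟩,.o ⟨false,1,⟨8,[(5,4),(3,3),(1,1),(3,3),(9,2),(1,0),(10,5)]⟩,⟨0,[(24,0)]⟩⟩,.o ⟨false,1,
  ⟨9,[(0,1),(4,6),(9,2),(9,1),(1,0),(7,1),(2,0)]⟩,⟨2,[(7,0),(15,0),(6,0)]⟩⟩,.a ⟨true,0,⟨0,[(27,0)]⟩,
  ⟨0,[(23,0)]⟩⟩ ⟨false,0,⟨16,[(7,2),(1,12),(3,1),(1,2),(9,3),(1,1),(10,2)]⟩,⟨3,[(0,3),(14,0),(0,0),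
  (10,1)]⟩⟩ ⟨true,0,⟨9,[(9,5),(1,1),(0,1),(24,0),(0,0)]⟩,⟨0,[(24,0),(2,0)]⟩⟩]⟩) (.Q [0,0,0,0,-1,0,0,
  0,1,1,0,-1] (.p false [0,0,0,0,1] [1] (⟨0,[(22,0)]⟩,⟨0,[(21,0)]⟩) .k 1 (⟨0,[]⟩,⟨0,[]⟩) .k .k) (.Q
  [0,0,1,0,-1,0,0,0,1,0,0,-1] (.p false [0,0,0,0,1] [] (⟨0,[(23,0)]⟩,⟨0,[(22,0)]⟩) .k 0 (⟨0,[]⟩,⟨0,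
  []⟩) .k .k) (.Q [0,0,0,0,0,-1,0,0,0,0,0,1] (.ed false [1,-1,0,0,1] .k) (.S ⟨1,0,[0,2],[0,0,0,0,1],
  [1,1,0,-1],(⟨0,[(25,0)]⟩,⟨0,[(24,0)]⟩),⟨0,[(0,0)]⟩,.k,(.r 0 ⟨0,[(37,0)]⟩ ⟨2,[(14,0),(7,1),(0,1),
  (3,0),(2,0),(8,0),(1,1)]⟩),⟨false,1,⟨0,[(38,0),(2,0)]⟩,⟨0,[(39,0)]⟩⟩,⟨true,0,⟨0,[(43,0)]⟩,⟨0,[]⟩⟩,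
  ⟨true,0,⟨0,[]⟩,⟨0,[(43,0)]⟩⟩,⟨false,0,⟨0,[(39,0)]⟩,⟨0,[(38,0),(2,0)]⟩⟩,[.e ⟨false,0,⟨0,[(37,0)]⟩,
  ⟨1,[(22,0),(0,0),(15,1),(1,0)]⟩⟩ ⟨false,0,⟨0,[(36,0)]⟩,⟨0,[(41,0)]⟩⟩,.o ⟨false,(-1),⟨5,[(1,4),(3,
  0),(2,0),(3,0),(4,0),(9,1),(9,1)]⟩,⟨1,[(22,1),(10,0),(7,0)]⟩⟩,.a ⟨true,(-1),⟨0,[(2,0)]⟩,⟨0,[(22,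
  0)]⟩⟩ ⟨true,0,⟨0,[(38,0)]⟩,⟨0,[(39,0)]⟩⟩ ⟨false,0,⟨0,[(43,0)]⟩,⟨0,[(41,0)]⟩⟩,.o ⟨false,(-1),⟨0,
  [(1,0)]⟩,⟨1,[(22,1),(10,0),(6,0)]⟩⟩]⟩) (.R ⟨0,false,false,true,[0,0,0,0,1],[0,-1,1],[1,1,1],(⟨0,
  [(25,0)]⟩,⟨0,[(24,0)]⟩),(⟨0,[(21,0)]⟩,⟨0,[(31,0),(3,0)]⟩),⟨0,[(0,0)]⟩,.k,.k,(.r 0 ⟨0,[(37,0)]⟩ ⟨2,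
  [(14,0),(7,1),(0,1),(3,0),(2,0),(8,0),(1,1)]⟩),(.r 1 ⟨2,[(3,0),(10,1),(21,0)]⟩ ⟨2,[(4,1),(3,1),(2,
  0),(10,1),(7,0),(10,1)]⟩),.k,.k,⟨true,(-1),⟨1,[(3,0),(10,0),(2,0),(0,0),(22,0)]⟩,⟨0,[(7,0),(0,0),
  (8,0),(23,0)]⟩⟩,⟨false,1,⟨2,[(10,0),(11,2),(3,0),(6,0)]⟩,⟨0,[(1,0),(7,0)]⟩⟩,⟨true,0,⟨3,[(18,0),(0,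
  0),(10,1)]⟩,⟨3,[(8,0),(3,0),(4,0),(9,0),(8,0)]⟩⟩,⟨false,2,⟨0,[(11,0),(10,0),(18,0)]⟩,⟨4,[(1,4),(6,
  3),(3,2),(1,1),(2,3),(12,0),(10,1)]⟩⟩,⟨false,0,⟨0,[]⟩,⟨0,[]⟩⟩,⟨false,0,⟨0,[]⟩,⟨0,[]⟩⟩,[.o ⟨false,
  0,⟨0,[(11,0)]⟩,⟨25,[(8,19),(3,3),(1,13),(0,1),(12,5),(4,2),(7,16)]⟩⟩,.e ⟨false,0,⟨0,[]⟩,⟨1,[(22,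
  0),(0,0),(16,0)]⟩⟩ ⟨false,2,⟨1,[(11,1),(10,1),(17,0),(0,0)]⟩,⟨4,[(1,4),(6,3),(3,2),(1,1),(2,3),
  (12,0),(10,1)]⟩⟩,.a ⟨true,(-1),⟨0,[(2,0)]⟩,⟨0,[(22,0)]⟩⟩ ⟨false,0,⟨3,[(18,0),(0,0),(10,1)]⟩,⟨1,
  [(40,0),(0,0)]⟩⟩ ⟨true,1,⟨0,[(11,0),(10,0)]⟩,⟨4,[(1,4),(6,3),(3,2),(1,1),(2,3),(12,0),(10,1)]⟩⟩,
  .o ⟨false,(-1),⟨0,[(1,0)]⟩,⟨1,[(22,1),(10,0),(6,0)]⟩⟩]⟩)) (.Q [0,2,0,0,-2,0,0,0,1,1,0,-1] (.p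
  false [0,0,0,0,1] [1] (⟨0,[(24,0)]⟩,⟨0,[(23,0)]⟩) .k 1 (⟨0,[]⟩,⟨0,[]⟩) .k .k) (.Q [0,0,0,0,0,-1,0,
  0,0,1,0,-1] (.ed true [0,1,0,0,1] .k) (.S ⟨1,0,[0,-1],[1,0,0,0,-1],[],(⟨0,[(25,0)]⟩,⟨0,[(26,0)]⟩),
  ⟨0,[(0,0)]⟩,.k,(.r (-1) ⟨3,[(17,1),(23,0),(0,2)]⟩ ⟨7,[(6,0),(8,1),(0,1),(6,2),(0,1),(3,4),(2,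
  3)]⟩),⟨true,0,⟨0,[(44,0)]⟩,⟨0,[]⟩⟩,⟨false,1,⟨1,[(23,0),(0,0),(17,0)]⟩,⟨0,[]⟩⟩,⟨false,0,⟨0,[(40,
  0)]⟩,⟨0,[(39,0),(2,0)]⟩⟩,⟨true,0,⟨0,[(40,0)]⟩,⟨0,[(39,0)]⟩⟩,[.o ⟨false,2,⟨1,[(23,1),(10,0),(7,
  0)]⟩,⟨1,[(1,0),(1,0),(30,0)]⟩⟩,.a ⟨true,2,⟨0,[(23,0),(18,0)]⟩,⟨0,[(1,0)]⟩⟩ ⟨false,1,⟨1,[(41,0),(0,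
  0)]⟩,⟨0,[(44,0)]⟩⟩ ⟨true,1,⟨0,[(42,0)]⟩,⟨12,[(4,3),(3,3),(0,2),(8,11),(0,8),(11,0),(5,2)]⟩⟩,.e
  ⟨false,1,⟨1,[(23,0),(0,0),(17,0)]⟩,⟨0,[]⟩⟩ ⟨false,1,⟨0,[(42,0)]⟩,⟨0,[(44,0)]⟩⟩,.o ⟨false,1,⟨0,[(2,
  0),(16,0)]⟩,⟨9,[(3,3),(1,3),(0,1),(2,1),(3,1),(20,2),(5,1),(1,0)]⟩⟩]⟩) (.R ⟨0,false,false,true,[1,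
  0,0,0,-1],[0,-1,1],[1,1,1],(⟨0,[(25,0)]⟩,⟨0,[(26,0)]⟩),(⟨0,[(22,0)]⟩,⟨0,[(32,0),(3,0)]⟩),⟨0,[(0,
  0)]⟩,.k,.k,(.r (-1) ⟨3,[(17,1),(23,0),(0,2)]⟩ ⟨7,[(6,0),(8,1),(0,1),(6,2),(0,1),(3,4),(2,3)]⟩),
  (.r 0 ⟨3,[(4,0),(10,1),(0,0),(25,2)]⟩ ⟨4,[(5,1),(3,1),(0,0),(1,2),(10,1),(7,1),(5,0)]⟩),.k,.k,
  ⟨true,(-1),⟨1,[(4,0),(10,0),(2,0),(0,0),(22,0)]⟩,⟨0,[(8,0),(0,0),(8,0),(23,0)]⟩⟩,⟨false,(-1),⟨17,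
  [(3,11),(1,3),(0,1),(4,7),(1,1),(20,2),(5,1),(1,0)]⟩,⟨0,[(9,0),(13,0)]⟩⟩,⟨true,(-1),⟨12,[(4,3),(3,
  3),(0,2),(8,11),(0,8),(11,0),(5,2)]⟩,⟨1,[(41,0),(0,0)]⟩⟩,⟨false,(-1),⟨0,[(3,0),(8,0)]⟩,⟨5,[(2,5),
  (1,1),(4,4),(5,3),(3,0),(11,0),(10,6)]⟩⟩,⟨false,0,⟨0,[]⟩,⟨0,[]⟩⟩,⟨false,0,⟨0,[]⟩,⟨0,[]⟩⟩,[.o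
  ⟨false,0,⟨0,[(12,0)]⟩,⟨25,[(9,19),(3,3),(1,13),(0,1),(12,5),(4,2),(7,16)]⟩⟩,.e ⟨false,0,⟨0,[]⟩,⟨1,
  [(23,0),(0,0),(16,0)]⟩⟩ ⟨false,0,⟨0,[(5,0)]⟩,⟨5,[(2,5),(1,1),(4,4),(5,3),(3,0),(11,0),(10,0)]⟩⟩,
  .a ⟨true,1,⟨0,[(23,0)]⟩,⟨0,[(3,0)]⟩⟩ ⟨false,0,⟨3,[(19,0),(0,0),(10,1)]⟩,⟨1,[(41,0),(0,0)]⟩⟩ ⟨true,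
  (-1),⟨0,[(3,0),(8,0)]⟩,⟨5,[(2,5),(1,1),(4,4),(5,3),(3,0),(11,0),(10,0)]⟩⟩,.o ⟨false,1,⟨0,[(2,0),
  (16,0)]⟩,⟨9,[(3,3),(1,3),(0,1),(2,1),(3,1),(20,2),(5,1),(1,0)]⟩⟩]⟩)) (.Q [0,2,0,1,-2,0,0,0,1,1,0,
  -1] (.p false [0,0,0,0,1] [1] (⟨0,[(25,0)]⟩,⟨0,[(24,0)]⟩) .k 1 (⟨0,[]⟩,⟨0,[]⟩) .k .k) (.R ⟨2,true,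
  false,false,[0,1],[1,0,0,0,-1],[1,0,1],(⟨0,[]⟩,⟨0,[]⟩),(⟨0,[(25,0)]⟩,⟨0,[(26,0)]⟩),⟨0,[]⟩,.k,.k,
  .k,(.r 0 ⟨7,[(6,0),(8,1),(0,1),(6,2),(0,1),(3,4),(2,3)]⟩ ⟨3,[(17,1),(23,0),(0,2)]⟩),.k,.k,⟨false,
  0,⟨0,[(44,0)]⟩,⟨1,[(41,0),(0,0)]⟩⟩,⟨true,1,⟨0,[(2,0),(16,0)]⟩,⟨0,[(3,0)]⟩⟩,⟨false,1,⟨0,[(39,0),(2,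
  0)]⟩,⟨0,[(40,0)]⟩⟩,⟨true,2,⟨0,[(1,0),(37,0)]⟩,⟨0,[(0,0)]⟩⟩,⟨true,0,⟨0,[]⟩,⟨0,[(44,0)]⟩⟩,⟨false,2,
  ⟨0,[(1,0)]⟩,⟨11,[(0,3),(2,3),(1,3),(13,0),(0,0),(8,3),(1,1)]⟩⟩,[]⟩) (.R ⟨1,true,false,true,[1,-1],
  [0,0,0,0,1],[0,1,-1,-1],(⟨0,[(35,0)]⟩,⟨0,[(36,0)]⟩),(⟨0,[(26,0)]⟩,⟨0,[(25,0)]⟩),⟨1,[(7,0),(13,0),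
  (13,0)]⟩,.k,.k,(.r (-1) ⟨8,[(0,2),(4,2),(4,1),(2,1),(3,4),(11,0),(11,0)]⟩ ⟨2,[(15,1),(7,0),(0,0),
  (3,1),(2,1),(8,1),(1,0)]⟩),(.r (-1) ⟨13,[(0,2),(4,2),(4,1),(2,1),(3,2),(11,0),(12,5)]⟩ ⟨7,[(6,0),
  (8,1),(0,1),(6,2),(0,1),(3,4),(2,3)]⟩),(.r (-2) ⟨17,[(0,14),(4,14),(4,3),(2,3),(3,0),(11,10),(11,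
  1)]⟩ ⟨0,[(18,0),(0,0),(20,0)]⟩),.k,⟨true,1,⟨13,[(0,2),(4,2),(4,1),(2,1),(3,2),(11,0),(12,5)]⟩,⟨0,
  [(18,0),(0,0)]⟩⟩,⟨false,0,⟨0,[(3,0),(37,0)]⟩,⟨0,[(2,0),(16,0)]⟩⟩,⟨true,0,⟨0,[(44,0)]⟩,⟨0,[]⟩⟩,
  ⟨false,(-1),⟨0,[(18,0),(5,0)]⟩,⟨0,[(0,0)]⟩⟩,⟨false,0,⟨0,[(40,0)]⟩,⟨0,[(39,0),(2,0)]⟩⟩,⟨true,(-2),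
  ⟨0,[(3,0),(14,1),(15,0)]⟩,⟨0,[(0,0),(38,0)]⟩⟩,[]⟩)))) (.Q [0,-1,1,-1,1,0,0,0,-1,-1,0,1] (.p true
  [0,0,0,0,1] [1] (⟨0,[(23,0)]⟩,⟨0,[(22,0)]⟩) .k 1 (⟨0,[]⟩,⟨0,[]⟩) .k .k) (.Q [0,0,0,0,0,-1,0,0,0,1,
  0,-1] (.ed true [0,1,0,0,1] .k) (.S ⟨1,0,[0,-1],[1,0,0,0,-1],[1,0,0,-1],(⟨0,[(24,0)]⟩,⟨0,[(25,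
  0)]⟩),⟨0,[(0,0)]⟩,.k,(.r (-1) ⟨3,[(16,1),(23,0),(0,2)]⟩ ⟨7,[(5,0),(8,1),(0,1),(6,2),(0,1),(3,4),
  (2,3)]⟩),⟨true,0,⟨0,[(38,0)]⟩,⟨0,[(39,0)]⟩⟩,⟨false,1,⟨1,[(22,0),(0,0),(17,0)]⟩,⟨0,[]⟩⟩,⟨false,0,
  ⟨0,[]⟩,⟨1,[(22,0),(0,0),(17,0)]⟩⟩,⟨true,0,⟨0,[(39,0)]⟩,⟨0,[(38,0)]⟩⟩,[.e ⟨false,1,⟨1,[(38,1),(1,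
  0),(0,0)]⟩,⟨0,[(39,0)]⟩⟩ ⟨false,1,⟨1,[(40,0),(0,0)]⟩,⟨0,[(43,0)]⟩⟩,.o ⟨false,2,⟨0,[(2,0),(38,0)]⟩,
  ⟨0,[(5,0),(1,0)]⟩⟩,.o ⟨false,1,⟨0,[(2,0)]⟩,⟨0,[(23,0)]⟩⟩,.a ⟨true,0,⟨0,[(1,0),(15,0)]⟩,⟨14,[(4,
  10),(0,3),(3,0),(2,0),(4,3),(10,5),(12,6)]⟩⟩ ⟨false,1,⟨3,[(16,1),(23,0),(0,2)]⟩,⟨5,[(14,1),(7,0),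
  (0,0),(3,1),(2,1),(8,1),(1,0)]⟩⟩ ⟨true,1,⟨1,[(40,0),(0,0)]⟩,⟨12,[(3,3),(3,3),(0,2),(8,11),(0,8),
  (11,0),(5,2)]⟩⟩]⟩) (.R ⟨0,false,false,true,[1,0,0,0,-1],[0,1],[1,1,1,1],(⟨0,[(24,0)]⟩,⟨0,[(25,
  0)]⟩),(⟨0,[(35,0)]⟩,⟨0,[(34,0)]⟩),⟨0,[(0,0)]⟩,.k,.k,(.r (-1) ⟨3,[(16,1),(23,0),(0,2)]⟩ ⟨7,[(5,0),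
  (8,1),(0,1),(6,2),(0,1),(3,4),(2,3)]⟩),(.r (-1) ⟨3,[(16,1),(23,0),(0,2)]⟩ ⟨7,[(5,0),(8,1),(0,1),
  (6,2),(0,1),(3,4),(2,3)]⟩),.k,.k,⟨true,0,⟨0,[]⟩,⟨3,[(18,0),(0,0),(10,1)]⟩⟩,⟨false,0,⟨2,[(4,1),(0,
  0),(3,0),(2,0),(4,0),(23,0)]⟩,⟨1,[(2,0),(15,0),(3,0)]⟩⟩,⟨true,(-1),⟨9,[(3,0),(4,0),(2,0),(5,11),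
  (0,6),(14,1),(2,2)]⟩,⟨3,[(16,1),(23,0),(0,2)]⟩⟩,⟨false,(-1),⟨0,[(17,0),(5,0)]⟩,⟨1,[(1,1),(38,0),
  (0,0)]⟩⟩,⟨false,0,⟨0,[]⟩,⟨0,[]⟩⟩,⟨false,0,⟨0,[]⟩,⟨0,[]⟩⟩,[.a ⟨true,(-1),⟨0,[(17,0)]⟩,⟨0,[(38,0),
  (2,0)]⟩⟩ ⟨false,0,⟨1,[(5,0),(16,0),(4,0)]⟩,⟨3,[(16,1),(23,0),(0,2)]⟩⟩ ⟨true,(-1),⟨0,[(17,0),(5,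
  0)]⟩,⟨0,[(1,0)]⟩⟩,.o ⟨false,0,⟨0,[(39,0)]⟩,⟨1,[(33,0),(4,1),(2,0)]⟩⟩,.o ⟨false,1,⟨0,[(2,0)]⟩,⟨0,
  [(23,0)]⟩⟩,.e ⟨false,0,⟨0,[(39,0)]⟩,⟨0,[(38,0),(2,0)]⟩⟩ ⟨false,0,⟨10,[(4,6),(0,6),(3,1),(7,2),(1,
  0),(2,2),(16,0),(1,4)]⟩,⟨0,[(1,0)]⟩⟩]⟩)) (.Q [0,0,0,0,0,-1,0,0,0,0,0,1] (.ed false [1,-1,0,0,1]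
  .k) (.Q [0,0,1,0,-1,0,0,0,1,1,0,-1] (.p false [0,0,0,0,1] [1] (⟨0,[(25,0)]⟩,⟨0,[(24,0)]⟩) .k 1
  (⟨0,[]⟩,⟨0,[]⟩) .k .k) (.S ⟨1,0,[0,1],[0,0,0,0,1],[0,2],(⟨0,[(26,0)]⟩,⟨0,[(25,0)]⟩),⟨0,[(1,0)]⟩,
  .k,(.r 0 ⟨0,[(38,0)]⟩ ⟨2,[(15,0),(7,1),(0,1),(3,0),(2,0),(8,0),(1,1)]⟩),⟨true,0,⟨0,[(44,0)]⟩,⟨0,
  []⟩⟩,⟨false,1,⟨1,[(23,0),(0,0),(17,0)]⟩,⟨0,[]⟩⟩,⟨false,0,⟨0,[(40,0)]⟩,⟨0,[(39,0),(2,0)]⟩⟩,⟨true,0,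
  ⟨0,[(40,0)]⟩,⟨0,[(39,0)]⟩⟩,[.e ⟨false,0,⟨0,[(37,0)]⟩,⟨0,[(42,0)]⟩⟩ ⟨false,0,⟨3,[(9,0),(3,0),(4,0),
  (9,0),(8,0)]⟩,⟨1,[(23,0),(0,0),(17,0)]⟩⟩,.o ⟨false,0,⟨0,[(24,0)]⟩,⟨0,[(3,0)]⟩⟩,.o ⟨false,0,⟨0,
  [(24,0)]⟩,⟨0,[(3,0)]⟩⟩,.a ⟨true,(-1),⟨0,[(0,0)]⟩,⟨3,[(3,2),(4,0),(1,0),(2,0),(4,2),(4,0),(18,
  1)]⟩⟩ ⟨false,0,⟨3,[(9,0),(3,0),(4,0),(9,0),(8,0)]⟩,⟨2,[(0,0),(18,0),(3,0),(18,2)]⟩⟩ ⟨true,0,⟨3,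
  [(9,0),(3,0),(4,0),(9,0),(8,0)]⟩,⟨2,[(0,0),(18,0),(3,0)]⟩⟩]⟩) (.Q [0,0,0,0,0,-2,0,0,0,1,-1] (.p
  false [0,0,1] [1] (⟨0,[(33,0)]⟩,⟨0,[(32,0)]⟩) .k 1 (⟨0,[]⟩,⟨0,[]⟩) .k .k) (.I [0,0,2,2,0,0,0,1]
  (.R ⟨1,false,false,true,[1,-1,-1],[1,-1],[0,1,1],(⟨0,[(23,0)]⟩,⟨0,[(35,0),(2,0)]⟩),(⟨0,[(37,0)]⟩,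
  ⟨0,[(38,0)]⟩),⟨0,[(1,0)]⟩,.k,.k,(.r (-1) ⟨27,[(15,11),(3,21),(2,7),(8,15),(4,3),(6,4),(0,18)]⟩ ⟨0,
  [(0,0)]⟩),.k,.k,.k,⟨false,0,⟨17,[(0,5),(16,1),(0,1),(2,0),(0,0),(8,1),(12,1)]⟩,⟨3,[(19,1),(23,2),
  (0,0)]⟩⟩,⟨true,0,⟨2,[(13,0),(15,0),(6,0)]⟩,⟨0,[(33,0)]⟩⟩,⟨true,0,⟨0,[(0,0),(40,0)]⟩,⟨0,[(15,0)]⟩⟩,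
  ⟨true,0,⟨0,[(30,0)]⟩,⟨12,[(12,0),(2,5),(1,2),(13,3),(1,7),(10,1)]⟩⟩,⟨false,0,⟨0,[(0,0)]⟩,⟨43,[(6,
  1),(8,29),(3,27),(2,5),(8,11),(4,2),(7,42)]⟩⟩,⟨true,0,⟨8,[(0,2),(1,2),(1,2),(8,0),(15,0),(0,5),(5,
  0)]⟩,⟨6,[(6,2),(8,1),(3,0),(11,1),(1,4),(10,2)]⟩⟩,[.e ⟨false,0,⟨17,[(0,1),(20,0),(0,0),(8,1),(7,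
  5),(1,3)]⟩,⟨1,[(43,0),(0,0)]⟩⟩ ⟨false,0,⟨0,[(15,0),(14,0)]⟩,⟨11,[(0,5),(11,1),(12,0),(0,0),(4,5),
  (1,3),(10,8)]⟩⟩,.o ⟨false,1,⟨1,[(36,0),(4,1),(2,0)]⟩,⟨0,[(42,0)]⟩⟩,.a ⟨true,0,⟨0,[(33,0)]⟩,⟨0,
  [(29,0)]⟩⟩ ⟨false,0,⟨3,[(21,0),(0,0),(10,1)]⟩,⟨1,[(43,0),(0,0)]⟩⟩ ⟨true,0,⟨0,[(16,0)]⟩,⟨5,[(0,0),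
  (10,1),(5,0),(2,1),(12,3),(10,0)]⟩⟩,.e ⟨true,0,⟨17,[(0,1),(20,0),(0,0),(8,1),(7,5),(1,3)]⟩,⟨0,
  []⟩⟩ ⟨true,0,⟨0,[(15,0),(14,0)]⟩,⟨15,[(0,5),(16,1),(3,0),(0,0),(8,3),(1,13),(10,1)]⟩⟩]⟩) (.Q [0,0,
  0,2,0,0,-1,-1,0,-1,1] (.p true [0,0,1] [1] (⟨0,[(35,0)]⟩,⟨0,[(34,0)]⟩) .k 1 (⟨0,[]⟩,⟨0,[]⟩) .k
  .k) (.S ⟨1,1,[],[0,-1,1],[0,1,-1,-1,0,0,0,1],(⟨0,[(25,0)]⟩,⟨0,[(35,0),(3,0)]⟩),⟨0,[(10,0)]⟩,.k,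
  (.r (-2) ⟨1,[(8,0),(2,0),(0,0),(0,0),(12,0),(15,0),(2,0)]⟩ ⟨0,[(18,0)]⟩),⟨true,0,⟨0,[(47,0)]⟩,⟨0,
  []⟩⟩,⟨false,1,⟨3,[(0,1),(31,1),(4,0),(7,2)]⟩,⟨0,[(11,0),(9,0),(23,0)]⟩⟩,⟨false,0,⟨0,[(43,0)]⟩,⟨0,
  [(42,0),(2,0)]⟩⟩,⟨true,0,⟨0,[(0,0)]⟩,⟨0,[(11,0),(23,0),(0,0)]⟩⟩,[.fo,.o ⟨false,1,⟨1,[(37,0),(7,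
  0)]⟩,⟨0,[(47,0)]⟩⟩,.o ⟨false,0,⟨0,[(33,0)]⟩,⟨0,[(12,0)]⟩⟩,.a ⟨true,(-1),⟨0,[(14,0),(19,0)]⟩,⟨0,
  [(13,0)]⟩⟩ ⟨true,1,⟨0,[(13,0),(1,0)]⟩,⟨1,[(7,0),(10,0),(2,0),(0,0),(22,0)]⟩⟩ ⟨false,2,⟨1,[(13,1),
  (23,0),(7,0)]⟩,⟨0,[(14,0),(19,0)]⟩⟩]⟩) (.Q [0,0,1,0,0,0,0,0,-1,0,0,1] (.p true [0,0,0,0,1] [] (⟨0,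
  [(29,0)]⟩,⟨0,[(28,0)]⟩) .k 0 (⟨0,[]⟩,⟨0,[]⟩) .k .k) (.Q [0,0,0,0,0,-1,0,0,0,1,0,-1] (.ed true [0,
  1,0,0,1] .k) (.S ⟨1,0,[0,-1],[1,0,0,0,-1],[1,0,0,-1],(⟨0,[(30,0)]⟩,⟨0,[(31,0)]⟩),⟨0,[(0,0)]⟩,.k,
  (.r (-1) ⟨3,[(22,1),(23,0),(0,2)]⟩ ⟨7,[(11,0),(8,1),(0,1),(6,2),(0,1),(3,4),(2,3)]⟩),⟨true,0,⟨0,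
  [(44,0)]⟩,⟨0,[(45,0)]⟩⟩,⟨false,1,⟨1,[(28,0),(0,0),(17,0)]⟩,⟨0,[]⟩⟩,⟨false,0,⟨0,[]⟩,⟨1,[(28,0),(0,
  0),(17,0)]⟩⟩,⟨true,0,⟨0,[(45,0)]⟩,⟨0,[(44,0)]⟩⟩,[.e ⟨false,1,⟨3,[(2,1),(31,1),(4,0),(6,1),(0,0)]⟩,
  ⟨0,[(45,0)]⟩⟩ ⟨false,1,⟨1,[(46,0),(0,0)]⟩,⟨0,[(49,0)]⟩⟩,.o ⟨false,2,⟨0,[(8,0),(38,0)]⟩,⟨0,[(11,0),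
  (1,0)]⟩⟩,.o ⟨false,1,⟨0,[(8,0)]⟩,⟨0,[(29,0)]⟩⟩,.a ⟨true,0,⟨0,[(1,0)]⟩,⟨1,[(7,0),(2,0),(23,0),(12,
  0)]⟩⟩ ⟨false,1,⟨3,[(22,1),(23,0),(0,2)]⟩,⟨5,[(20,1),(7,0),(0,0),(3,1),(2,1),(8,1),(1,0)]⟩⟩ ⟨true,
  1,⟨1,[(46,0),(0,0)]⟩,⟨12,[(9,3),(3,3),(0,2),(8,11),(0,8),(11,0),(5,2)]⟩⟩]⟩) (.R ⟨0,false,false,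
  false,[1,0,0,0,-1],[0,1],[1,0,1,1],(⟨0,[(30,0)]⟩,⟨0,[(31,0)]⟩),(⟨0,[(41,0)]⟩,⟨0,[(40,0)]⟩),⟨0,[(0,
  0)]⟩,.k,.k,(.r (-1) ⟨3,[(22,1),(23,0),(0,2)]⟩ ⟨7,[(11,0),(8,1),(0,1),(6,2),(0,1),(3,4),(2,3)]⟩),
  (.r (-1) ⟨3,[(22,1),(23,0),(0,2)]⟩ ⟨7,[(11,0),(8,1),(0,1),(6,2),(0,1),(3,4),(2,3)]⟩),.k,.k,⟨true,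
  0,⟨0,[]⟩,⟨3,[(24,0),(0,0),(10,1)]⟩⟩,⟨false,0,⟨19,[(3,3),(3,12),(2,4),(4,5),(13,1),(2,1),(1,0),(12,
  6)]⟩,⟨1,[(8,0),(15,0),(3,0)]⟩⟩,⟨false,0,⟨5,[(20,1),(7,0),(0,0),(3,1),(2,1),(8,1),(1,0)]⟩,⟨3,[(22,
  1),(23,0),(0,2)]⟩⟩,⟨true,(-1),⟨0,[(23,0),(5,0)]⟩,⟨3,[(1,0),(3,0),(2,1),(13,1),(1,0),(22,0)]⟩⟩,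
  ⟨false,0,⟨0,[]⟩,⟨0,[]⟩⟩,⟨false,0,⟨0,[]⟩,⟨0,[]⟩⟩,[.o ⟨false,0,⟨0,[(45,0)]⟩,⟨3,[(2,1),(31,1),(4,2),
  (7,0)]⟩⟩,.e ⟨false,1,⟨1,[(28,0),(0,0),(15,1),(1,0)]⟩,⟨0,[(43,0)]⟩⟩ ⟨false,0,⟨0,[(7,0),(39,0)]⟩,⟨0,
  [(8,0),(35,0)]⟩⟩,.o ⟨false,1,⟨0,[(8,0)]⟩,⟨0,[(29,0)]⟩⟩,.a ⟨true,0,⟨0,[(1,0)]⟩,⟨1,[(7,0),(2,0),(23,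
  0),(12,0)]⟩⟩ ⟨true,0,⟨0,[(45,0)]⟩,⟨0,[(44,0)]⟩⟩ ⟨false,0,⟨0,[(7,0),(39,0)]⟩,⟨7,[(1,1),(6,2),(13,
  3),(1,4),(3,2),(18,1)]⟩⟩]⟩)) (.Q [0,0,0,0,0,-1,0,0,0,1,0,-1] (.ed true [0,1,0,0,1] .k) (.S ⟨1,0,
  [],[1,0,0,0,-1],[0,-1],(⟨0,[(30,0)]⟩,⟨0,[(31,0)]⟩),⟨0,[(0,0)]⟩,.k,(.r (-1) ⟨3,[(22,1),(23,0),(0,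
  2)]⟩ ⟨7,[(11,0),(8,1),(0,1),(6,2),(0,1),(3,4),(2,3)]⟩),⟨false,1,⟨1,[(28,0),(0,0),(17,0)]⟩,⟨0,[]⟩⟩,
  ⟨true,0,⟨0,[(49,0)]⟩,⟨0,[]⟩⟩,⟨true,0,⟨0,[(45,0)]⟩,⟨0,[(44,0)]⟩⟩,⟨false,0,⟨0,[(45,0)]⟩,⟨3,[(2,1),
  (31,1),(4,0),(7,2)]⟩⟩,[.o ⟨false,1,⟨0,[(8,0)]⟩,⟨0,[(29,0)]⟩⟩,.a ⟨true,1,⟨13,[(2,4),(2,10),(3,1),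
  (10,2),(2,5),(4,2),(7,4),(10,10)]⟩,⟨0,[(2,0),(8,0)]⟩⟩ ⟨true,1,⟨0,[(47,0)]⟩,⟨12,[(9,3),(3,3),(0,2),
  (8,11),(0,8),(11,0),(5,2)]⟩⟩ ⟨false,1,⟨1,[(46,0),(0,0)]⟩,⟨0,[(49,0)]⟩⟩,.o ⟨false,1,⟨0,[(8,0)]⟩,⟨0,
  [(29,0)]⟩⟩,.o ⟨false,1,⟨1,[(8,0),(15,0),(3,0)]⟩,⟨0,[(1,0)]⟩⟩]⟩) (.R ⟨0,false,false,false,[1,0,0,0,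
  -1],[0,1],[0,-1],(⟨0,[(30,0)]⟩,⟨0,[(31,0)]⟩),(⟨0,[(41,0)]⟩,⟨0,[(40,0)]⟩),⟨0,[(0,0)]⟩,.k,.k,(.r
  (-1) ⟨3,[(22,1),(23,0),(0,2)]⟩ ⟨7,[(11,0),(8,1),(0,1),(6,2),(0,1),(3,4),(2,3)]⟩),(.r (-1) ⟨3,[(22,
  1),(23,0),(0,2)]⟩ ⟨7,[(11,0),(8,1),(0,1),(6,2),(0,1),(3,4),(2,3)]⟩),.k,.k,⟨true,1,⟨3,[(22,1),(23,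
  0),(0,2)]⟩,⟨0,[(23,0),(0,0)]⟩⟩,⟨false,0,⟨19,[(3,3),(3,12),(2,4),(4,5),(13,1),(2,1),(1,0),(12,6)]⟩,
  ⟨1,[(8,0),(15,0),(3,0)]⟩⟩,⟨false,1,⟨1,[(28,0),(0,0),(17,0)]⟩,⟨0,[]⟩⟩,⟨true,(-1),⟨0,[(23,0),(5,
  0)]⟩,⟨3,[(2,0),(0,0),(1,0),(2,2),(15,0),(11,0)]⟩⟩,⟨false,0,⟨0,[]⟩,⟨0,[]⟩⟩,⟨false,0,⟨0,[]⟩,⟨0,[]⟩⟩,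
  [.o ⟨false,0,⟨0,[(45,0)]⟩,⟨3,[(2,1),(31,1),(4,2),(7,0)]⟩⟩,.a ⟨true,0,⟨0,[(23,0),(23,0)]⟩,⟨0,[(44,
  0)]⟩⟩ ⟨true,1,⟨0,[(47,0)]⟩,⟨12,[(9,3),(3,3),(0,2),(8,11),(0,8),(11,0),(5,2)]⟩⟩ ⟨false,0,⟨0,[(7,0),
  (39,0)]⟩,⟨0,[(8,0),(35,0)]⟩⟩,.o ⟨false,1,⟨0,[(8,0)]⟩,⟨0,[(29,0)]⟩⟩,.o ⟨false,1,⟨1,[(8,0),(15,0),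
  (3,0)]⟩,⟨0,[(1,0)]⟩⟩]⟩))))) (.Q [0,0,0,2,0,0,-1,-1,0,-1,1] (.p true [0,0,1] [1] (⟨0,[(34,0)]⟩,⟨0,
  [(33,0)]⟩) .k 1 (⟨0,[]⟩,⟨0,[]⟩) .k .k) (.S ⟨1,1,[],[0,-1,1],[0,1,-1,-1,0,0,0,1],(⟨0,[(24,0)]⟩,⟨1,
  [(1,0),(32,2)]⟩),⟨0,[(9,0)]⟩,.k,(.r (-2) ⟨1,[(7,0),(2,0),(0,0),(0,0),(12,0),(15,0),(2,0)]⟩ ⟨0,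
  [(17,0)]⟩),⟨true,0,⟨0,[(46,0)]⟩,⟨0,[]⟩⟩,⟨false,1,⟨3,[(0,1),(30,1),(4,0),(7,2)]⟩,⟨0,[(10,0),(9,0),
  (23,0)]⟩⟩,⟨false,0,⟨0,[(42,0)]⟩,⟨0,[(41,0),(2,0)]⟩⟩,⟨true,0,⟨0,[(0,0)]⟩,⟨1,[(1,0),(8,1),(23,0),(2,
  1)]⟩⟩,[.fo,.o ⟨false,1,⟨1,[(36,0),(7,0)]⟩,⟨0,[(46,0)]⟩⟩,.o ⟨false,0,⟨0,[(32,0)]⟩,⟨0,[(11,0)]⟩⟩,.a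
  ⟨true,(-1),⟨0,[(13,0),(19,0)]⟩,⟨0,[(12,0)]⟩⟩ ⟨true,1,⟨0,[(12,0),(1,0)]⟩,⟨1,[(6,0),(10,0),(2,0),(0,
  0),(22,0)]⟩⟩ ⟨false,2,⟨1,[(12,1),(23,0),(7,0)]⟩,⟨0,[(13,0),(19,0)]⟩⟩]⟩) (.Q [0,-1,2,0,1,0,-1,0,-1,
  -1,1,1] (.p true [0,0,1] [1,0,0,0,-1] (⟨0,[(35,0)]⟩,⟨0,[(34,0)]⟩) .k 2 (⟨0,[(27,0)]⟩,⟨0,[(28,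
  0)]⟩) .k (.r (-1) ⟨2,[(12,0),(12,1),(0,1),(3,2),(2,1)]⟩ ⟨2,[(6,0),(8,0),(1,0),(26,1)]⟩)) (.R ⟨0,
  false,false,false,[1,-1,-1],[0,0,0,0,1],[0,1,1],(⟨0,[(24,0)]⟩,⟨0,[(2,0),(35,0)]⟩),(⟨0,[(29,0)]⟩,
  ⟨0,[(28,0)]⟩),⟨0,[(2,0)]⟩,.k,.k,(.x (-1) ⟨14,[(0,13),(9,4),(1,0),(9,4),(1,19),(2,13),(12,6)]⟩ ⟨4,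
  [(2,4),(0,2),(1,0),(2,1),(5,0),(1,1),(4,2),(8,0),(14,1)]⟩),(.r (-1) ⟨21,[(7,1),(8,7),(3,5),(2,5),
  (8,11),(4,2),(7,20)]⟩ ⟨0,[(0,0),(4,0),(25,0)]⟩),.k,.k,⟨true,0,⟨3,[(22,0),(0,0),(10,1)]⟩,⟨0,[]⟩⟩,
  ⟨false,0,⟨5,[(5,3),(2,1),(7,1),(6,1),(13,0),(6,0),(0,1)]⟩,⟨12,[(0,10),(2,1),(8,1),(7,0),(0,1),(18,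
  3)]⟩⟩,⟨true,0,⟨5,[(0,4),(4,3),(12,0),(4,0),(3,0),(3,6),(2,3)]⟩,⟨0,[(16,0)]⟩⟩,⟨false,0,⟨5,[(0,2),
  (4,5),(2,1),(9,0),(4,0),(3,0),(3,4),(13,3)]⟩,⟨0,[(0,0),(15,0)]⟩⟩,⟨false,0,⟨0,[]⟩,⟨0,[]⟩⟩,⟨false,0,
  ⟨0,[]⟩,⟨0,[]⟩⟩,[.a ⟨true,(-1),⟨17,[(1,6),(3,12),(1,2),(10,1),(3,1),(4,4),(4,1),(1,4)]⟩,⟨11,[(0,3),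
  (0,1),(1,4),(10,0),(1,1),(4,5),(4,2),(18,6)]⟩⟩ ⟨false,0,⟨0,[(47,0)]⟩,⟨1,[(44,0),(0,0)]⟩⟩ ⟨true,
  (-1),⟨20,[(5,13),(1,2),(0,4),(5,5),(1,1),(0,3),(9,1),(9,1)]⟩,⟨0,[(0,0)]⟩⟩,.o ⟨false,0,⟨0,[(27,
  0)]⟩,⟨0,[(6,0)]⟩⟩,.a ⟨true,0,⟨0,[(34,0)]⟩,⟨0,[(30,0)]⟩⟩ ⟨false,0,⟨3,[(22,0),(0,0),(10,1)]⟩,⟨1,
  [(44,0),(0,0)]⟩⟩ ⟨true,(-1),⟨20,[(5,13),(1,2),(0,4),(5,5),(1,1),(0,3),(9,1),(9,1)]⟩,⟨12,[(0,10),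
  (2,1),(8,1),(7,0),(0,1),(18,3)]⟩⟩,.a ⟨true,0,⟨3,[(22,0),(0,0),(10,5)]⟩,⟨4,[(3,2),(1,0),(2,1),(5,
  0),(1,1),(4,2),(8,0),(14,1)]⟩⟩ ⟨true,0,⟨0,[(47,0)]⟩,⟨0,[]⟩⟩ ⟨false,0,⟨5,[(5,3),(2,1),(7,1),(6,1),
  (13,0),(6,0),(0,1)]⟩,⟨0,[(0,0)]⟩⟩]⟩) (.R ⟨0,false,false,false,[1,-1,-1],[0,0,0,0,1],[0,1,1],(⟨0,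
  [(24,0)]⟩,⟨0,[(2,0),(35,0)]⟩),(⟨0,[(29,0)]⟩,⟨0,[(28,0)]⟩),⟨0,[(2,0)]⟩,.k,.k,(.x (-1) ⟨3,[(12,2),
  (9,4),(1,3),(1,0),(0,0),(6,0),(3,3)]⟩ ⟨6,[(0,2),(0,0),(0,6),(0,2),(12,0),(4,2),(8,2),(14,2)]⟩),
  (.r (-1) ⟨21,[(7,1),(8,7),(3,5),(2,5),(8,11),(4,2),(7,20)]⟩ ⟨0,[(31,0),(2,0),(8,0)]⟩),.k,.k,⟨true,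
  0,⟨3,[(22,0),(0,0),(10,1)]⟩,⟨0,[]⟩⟩,⟨false,0,⟨3,[(0,1),(26,1),(2,1),(13,0),(0,0)]⟩,⟨0,[(6,0),(27,
  0)]⟩⟩,⟨true,0,⟨5,[(18,1),(7,0),(0,0),(3,7),(2,7),(8,1),(1,0)]⟩,⟨0,[(16,0)]⟩⟩,⟨false,0,⟨5,[(5,3),
  (2,1),(9,1),(7,0),(0,0),(3,5),(2,1),(10,4)]⟩,⟨0,[(3,0),(3,0),(26,0),(10,0)]⟩⟩,⟨false,0,⟨0,[]⟩,⟨0,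
  []⟩⟩,⟨false,0,⟨0,[]⟩,⟨0,[]⟩⟩,[.e ⟨false,0,⟨0,[(47,0)]⟩,⟨1,[(44,0),(0,0)]⟩⟩ ⟨false,(-1),⟨0,[(0,
  0)]⟩,⟨1,[(12,0),(9,0),(3,1),(7,0),(10,0)]⟩⟩,.o ⟨false,0,⟨0,[(27,0)]⟩,⟨0,[(6,0)]⟩⟩,.a ⟨true,0,⟨0,
  [(34,0)]⟩,⟨0,[(30,0)]⟩⟩ ⟨false,0,⟨3,[(22,0),(0,0),(10,1)]⟩,⟨1,[(44,0),(0,0)]⟩⟩ ⟨true,(-1),⟨3,[(0,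
  1),(4,0),(8,0),(12,0),(14,0)]⟩,⟨0,[(6,0),(27,0)]⟩⟩,.e ⟨true,0,⟨0,[(47,0)]⟩,⟨0,[]⟩⟩ ⟨true,(-1),⟨0,
  [(0,0)]⟩,⟨1,[(6,0),(15,0),(3,0),(7,1)]⟩⟩]⟩))))) (.Q [0,0,-1,0,0,0,0,0,1,0,0,-1] (.p false [0,0,0,
  0,1] [] (⟨0,[(25,0)]⟩,⟨0,[(24,0)]⟩) .k 0 (⟨0,[]⟩,⟨0,[]⟩) .k .k) (.Q [0,0,-1,1,1,0,1,1,-1,0,-1,1]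
  (.p false [0,0,1] [0,0,0,0,1] (⟨0,[(33,0)]⟩,⟨0,[(32,0)]⟩) .k 2 (⟨0,[(26,0)]⟩,⟨0,[(25,0)]⟩) .k (.r
  (-2) ⟨2,[(10,0),(12,1),(0,1),(3,2),(2,1),(10,2)]⟩ ⟨4,[(4,2),(8,0),(1,0),(2,1),(15,0)]⟩)) (.S ⟨1,0,
  [],[1,0,0,0,-1],[0,-1],(⟨0,[(26,0)]⟩,⟨0,[(27,0)]⟩),⟨1,[(2,0),(5,0),(13,0),(3,0)]⟩,.k,(.r (-1) ⟨3,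
  [(18,1),(23,0),(0,2)]⟩ ⟨8,[(0,0),(15,1),(0,3),(6,0),(0,1),(3,4),(2,5)]⟩),⟨false,1,⟨1,[(24,0),(0,
  0),(17,0)]⟩,⟨0,[]⟩⟩,⟨true,0,⟨0,[(45,0)]⟩,⟨0,[]⟩⟩,⟨true,0,⟨0,[(41,0)]⟩,⟨0,[(40,0)]⟩⟩,⟨false,0,⟨0,
  [(41,0)]⟩,⟨0,[(40,0),(2,0)]⟩⟩,[.o ⟨false,1,⟨0,[(4,0)]⟩,⟨0,[(25,0)]⟩⟩,.a ⟨true,1,⟨0,[(0,0),(4,0),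
  (26,0),(10,0)]⟩,⟨4,[(3,2),(1,0),(0,0),(5,0),(12,0),(6,2),(7,0)]⟩⟩ ⟨true,1,⟨0,[(43,0)]⟩,⟨12,[(5,3),
  (3,3),(0,2),(8,11),(0,8),(11,0),(5,2)]⟩⟩ ⟨false,1,⟨1,[(42,0),(0,0)]⟩,⟨0,[(45,0)]⟩⟩,.o ⟨false,1,⟨0,
  [(4,0)]⟩,⟨0,[(25,0)]⟩⟩,.o ⟨false,1,⟨1,[(4,0),(15,0),(3,0)]⟩,⟨0,[(1,0)]⟩⟩]⟩) (.R ⟨0,false,false,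
  true,[0,0,0,0,1],[0,1,1],[0,1,2,1,0,0,0,1],(⟨0,[(27,0)]⟩,⟨0,[(26,0)]⟩),(⟨0,[(34,0),(2,0)]⟩,⟨0,
  [(22,0)]⟩),⟨0,[(2,0)]⟩,.k,.k,(.r 0 ⟨0,[(39,0)]⟩ ⟨2,[(16,0),(7,1),(0,1),(3,0),(2,0),(8,0),(1,1)]⟩),
  (.r 0 ⟨8,[(5,0),(8,2),(0,0),(2,1),(2,1),(8,4),(4,0)]⟩ ⟨0,[(29,0),(2,0),(8,0),(1,0)]⟩),.k,.k,⟨true,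
  0,⟨3,[(20,0),(0,0),(10,1)]⟩,⟨0,[]⟩⟩,⟨false,1,⟨0,[(4,0),(9,0),(4,0),(9,0),(13,0)]⟩,⟨0,[(25,0),(6,
  0)]⟩⟩,⟨false,1,⟨5,[(16,1),(7,0),(0,0),(3,7),(2,7),(8,1),(1,6)]⟩,⟨0,[(14,0)]⟩⟩,⟨true,1,⟨0,[(4,0),
  (14,0),(9,0),(13,0)]⟩,⟨4,[(0,2),(6,1),(10,2)]⟩⟩,⟨false,0,⟨0,[]⟩,⟨0,[]⟩⟩,⟨false,0,⟨0,[]⟩,⟨0,[]⟩⟩,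
  [.o ⟨false,0,⟨0,[(29,0),(11,0)]⟩,⟨6,[(0,3),(3,3),(5,0),(3,0),(3,0),(11,1),(4,0),(7,4)]⟩⟩,.a ⟨true,
  0,⟨0,[(19,0),(9,0),(13,0)]⟩,⟨1,[(0,0),(13,0),(9,0),(7,0)]⟩⟩ ⟨false,1,⟨1,[(24,0),(0,0),(3,1),(2,1),
  (8,1),(1,0)]⟩,⟨0,[(14,0)]⟩⟩ ⟨true,1,⟨0,[(4,0),(14,0),(9,0),(13,0)]⟩,⟨0,[(0,0)]⟩⟩,.o ⟨false,0,⟨0,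
  [(25,0)]⟩,⟨0,[(4,0)]⟩⟩,.e ⟨true,0,⟨0,[(29,0),(2,0),(8,0)]⟩,⟨21,[(5,7),(8,9),(3,1),(2,1),(8,3),(4,
  0),(7,6)]⟩⟩ ⟨true,1,⟨2,[(4,2),(6,0),(7,1),(8,0),(0,2),(11,0),(1,0)]⟩,⟨0,[(0,0)]⟩⟩]⟩)) (.S ⟨1,0,[0,
  -1],[1,0,0,0,-1],[1,0,0,-1],(⟨0,[(25,0)]⟩,⟨0,[(26,0)]⟩),⟨1,[(1,0),(5,0),(13,0),(3,0)]⟩,.k,(.r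
  (-1) ⟨3,[(17,1),(23,0),(0,2)]⟩ ⟨7,[(6,0),(8,1),(0,1),(6,2),(0,1),(3,4),(2,3)]⟩),⟨true,0,⟨0,[(39,
  0)]⟩,⟨0,[(40,0)]⟩⟩,⟨false,1,⟨1,[(23,0),(0,0),(17,0)]⟩,⟨0,[]⟩⟩,⟨false,0,⟨0,[]⟩,⟨1,[(23,0),(0,0),
  (17,0)]⟩⟩,⟨true,0,⟨0,[(40,0)]⟩,⟨0,[(39,0)]⟩⟩,[.e ⟨false,1,⟨1,[(39,1),(1,0),(0,0)]⟩,⟨0,[(40,0)]⟩⟩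
  ⟨false,1,⟨1,[(41,0),(0,0)]⟩,⟨0,[(44,0)]⟩⟩,.o ⟨false,2,⟨0,[(3,0),(38,0)]⟩,⟨0,[(6,0),(1,0)]⟩⟩,.o
  ⟨false,1,⟨0,[(3,0)]⟩,⟨0,[(24,0)]⟩⟩,.a ⟨true,0,⟨0,[(0,0)]⟩,⟨1,[(2,0),(2,0),(23,0),(12,0)]⟩⟩ ⟨false,
  1,⟨3,[(17,1),(23,0),(0,2)]⟩,⟨5,[(15,1),(7,0),(0,0),(3,1),(2,1),(8,1),(1,0)]⟩⟩ ⟨true,1,⟨1,[(41,0),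
  (0,0)]⟩,⟨12,[(4,3),(3,3),(0,2),(8,11),(0,8),(11,0),(5,2)]⟩⟩]⟩)))))))))) (.I [0,0,-1,0,1,0,0,1]
  (.S ⟨1,0,[0,1,0,0,0,0,0,1],[0,0,1],[0,0,0,0,0,0,0,1],(⟨0,[(25,0)]⟩,⟨0,[(24,0)]⟩),⟨0,[(14,0)]⟩,.k,
  .k,⟨false,1,⟨1,[(15,0),(0,0),(17,0)]⟩,⟨0,[]⟩⟩,⟨true,0,⟨0,[(36,0)]⟩,⟨0,[]⟩⟩,⟨true,0,⟨0,[(32,0)]⟩,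
  ⟨0,[(31,0)]⟩⟩,⟨false,0,⟨0,[(32,0)]⟩,⟨0,[(31,0),(2,0)]⟩⟩,[.o ⟨false,0,⟨0,[(20,0)]⟩,⟨25,[(2,1),(2,
  11),(1,5),(13,7),(1,15),(2,12),(7,16)]⟩⟩,.e ⟨false,2,⟨1,[(0,1),(14,0),(0,0),(17,0)]⟩,⟨0,[(5,0),(4,
  0),(0,0)]⟩⟩ ⟨false,1,⟨0,[(0,0)]⟩,⟨4,[(5,1),(1,0),(3,0),(0,0),(8,1),(12,0)]⟩⟩,.o ⟨false,0,⟨2,[(3,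
  0),(15,0),(6,0)]⟩,⟨9,[(0,1),(1,1),(18,1),(1,5),(2,4),(7,0)]⟩⟩,.a ⟨true,(-1),⟨0,[(1,0)]⟩,⟨4,[(0,1),
  (1,1),(18,1),(1,0),(10,0)]⟩⟩ ⟨true,1,⟨0,[(0,0)]⟩,⟨0,[(7,0),(1,0)]⟩⟩ ⟨false,1,⟨0,[(0,0)]⟩,⟨8,[(1,
  3),(3,3),(1,1),(3,3),(9,2),(1,0),(10,5)]⟩⟩]⟩) (.Q [0,-1,0,2,0,0,-1,-1,0,0,1] (.p true [0,0,1] []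
  (⟨0,[(25,0)]⟩,⟨0,[(24,0)]⟩) .k 0 (⟨0,[]⟩,⟨0,[]⟩) .k .k) (.R ⟨1,false,false,false,[0,0,1],[0,1],[1,
  0,1,1],(⟨0,[(26,0)]⟩,⟨0,[(25,0)]⟩),(⟨0,[(29,0)]⟩,⟨0,[(28,0)]⟩),⟨0,[(15,0)]⟩,.k,.k,.k,.k,(.r (-2)
  ⟨0,[(3,0),(1,0),(26,0),(2,0)]⟩ ⟨0,[(8,0)]⟩),.k,⟨true,0,⟨0,[]⟩,⟨3,[(12,0),(0,0),(10,1)]⟩⟩,⟨false,1,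
  ⟨0,[(3,0)]⟩,⟨0,[(23,0)]⟩⟩,⟨true,(-1),⟨2,[(0,0),(0,1),(0,0),(8,0),(15,0)]⟩,⟨2,[(3,1),(1,2),(10,0),
  (0,0),(6,0)]⟩⟩,⟨true,0,⟨1,[(0,0),(21,0)]⟩,⟨0,[(5,0)]⟩⟩,⟨true,(-1),⟨2,[(0,1),(0,0),(0,1),(8,1),(15,
  1)]⟩,⟨4,[(3,2),(1,4),(4,0),(13,1),(7,2),(2,1)]⟩⟩,⟨false,0,⟨0,[(0,0)]⟩,⟨0,[(5,0),(26,0),(2,0)]⟩⟩,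
  [.o ⟨false,0,⟨0,[(33,0)]⟩,⟨1,[(27,0),(4,1),(2,0)]⟩⟩,.a ⟨true,0,⟨0,[(11,0),(23,0)]⟩,⟨0,[(32,0)]⟩⟩
  ⟨false,1,⟨1,[(0,0),(15,0),(0,0),(3,0),(13,0)]⟩,⟨0,[(31,0)]⟩⟩ ⟨true,1,⟨5,[(0,2),(2,1),(12,0),(0,0),
  (3,2),(2,3),(10,2)]⟩,⟨0,[(1,0),(3,0)]⟩⟩,.o ⟨false,0,⟨2,[(4,0),(15,0),(6,0)]⟩,⟨5,[(3,1),(12,0),(0,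
  0),(6,3),(2,2)]⟩⟩,.e ⟨true,0,⟨1,[(0,0),(20,0)]⟩,⟨0,[(32,0)]⟩⟩ ⟨true,1,⟨5,[(0,2),(2,3),(12,1),(0,
  1),(3,2),(2,1)]⟩,⟨0,[(1,0),(3,0)]⟩⟩]⟩) (.Q [0,-1,0,-1,1,0,1,1,-1,0,-1,1] (.p false [0,0,1] [0,0,0,
  0,1] (⟨0,[(26,0)]⟩,⟨0,[(25,0)]⟩) .k 2 (⟨0,[(19,0)]⟩,⟨0,[(18,0)]⟩) .k (.r (-2) ⟨2,[(3,0),(12,1),(0,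
  1),(3,2),(2,1),(10,2)]⟩ ⟨8,[(1,6),(4,1),(3,0),(0,3),(15,1),(2,1)]⟩)) (.Q [0,0,0,0,0,-1,0,0,0,1,0,
  -1] (.ed true [0,1,0,0,1] .k) (.R ⟨1,false,false,false,[1,0,0,0,-1],[1,0,-1],[],(⟨0,[(20,0)]⟩,⟨0,
  [(21,0)]⟩),(⟨0,[(27,0)]⟩,⟨0,[(28,0)]⟩),⟨0,[(0,0)]⟩,.k,.k,(.r (-1) ⟨3,[(12,1),(23,0),(0,2)]⟩ ⟨4,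
  [(10,0),(0,1),(6,0),(0,0),(3,2),(2,2),(8,0)]⟩),.k,(.r (-2) ⟨2,[(5,1),(1,2),(10,0),(0,0),(6,0),(10,
  2)]⟩ ⟨1,[(3,0),(6,0),(21,0)]⟩),.k,⟨true,1,⟨5,[(5,1),(12,0),(0,0),(3,5),(2,3),(10,2)]⟩,⟨0,[(3,
  0)]⟩⟩,⟨false,1,⟨2,[(5,1),(12,0),(0,3),(6,0)]⟩,⟨9,[(1,9),(1,2),(4,3),(1,2),(2,7),(15,3),(2,0)]⟩⟩,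
  ⟨true,0,⟨0,[(39,0)]⟩,⟨0,[]⟩⟩,⟨false,0,⟨4,[(3,2),(1,1),(13,4),(4,1),(1,0),(10,0)]⟩,⟨0,[(1,0),(33,
  0)]⟩⟩,⟨false,0,⟨0,[(35,0)]⟩,⟨0,[(34,0),(2,0)]⟩⟩,⟨false,0,⟨9,[(3,2),(1,6),(4,4),(8,9),(4,1),(1,0),
  (10,0)]⟩,⟨0,[(1,0)]⟩⟩,[.e ⟨false,1,⟨1,[(18,0),(0,0),(16,0)]⟩,⟨0,[]⟩⟩ ⟨false,0,⟨0,[(3,0),(1,0),(13,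
  0)]⟩,⟨1,[(1,0),(16,0),(4,0),(11,0)]⟩⟩,.o ⟨false,1,⟨9,[(3,5),(1,3),(18,3),(1,1),(2,4),(7,6)]⟩,⟨0,
  [(23,0)]⟩⟩,.o ⟨false,1,⟨4,[(1,2),(1,2),(1,1),(7,2),(4,1),(7,0),(2,3)]⟩,⟨0,[(19,0)]⟩⟩,.a ⟨true,0,
  ⟨4,[(1,3),(1,3),(1,0),(7,3),(4,0),(7,2),(2,1)]⟩,⟨0,[(4,0),(0,0),(13,0)]⟩⟩ ⟨false,1,⟨1,[(36,0),(0,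
  0)]⟩,⟨3,[(14,0),(0,0),(10,1)]⟩⟩ ⟨true,0,⟨0,[(3,0),(1,0),(13,0)]⟩,⟨6,[(1,6),(10,0),(0,8),(0,4),(14,
  1),(2,1)]⟩⟩]⟩) (.R ⟨0,false,false,true,[1,0,0,0,-1],[0,1],[1,1,1],(⟨0,[(20,0)]⟩,⟨0,[(21,0)]⟩),(⟨0,
  [(31,0)]⟩,⟨0,[(30,0)]⟩),⟨0,[(0,0)]⟩,.k,.k,(.r (-1) ⟨3,[(12,1),(23,0),(0,2)]⟩ ⟨4,[(10,0),(0,1),(6,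
  0),(0,0),(3,2),(2,2),(8,0)]⟩),(.r (-1) ⟨3,[(12,1),(23,0),(0,2)]⟩ ⟨4,[(10,0),(0,1),(6,0),(0,0),(3,
  2),(2,2),(8,0)]⟩),.k,.k,⟨false,1,⟨1,[(34,1),(1,0),(0,0)]⟩,⟨0,[(35,0)]⟩⟩,⟨true,0,⟨0,[(4,0),(0,0),
  (13,0)]⟩,⟨0,[(1,0),(1,0),(9,0),(12,0),(2,0)]⟩⟩,⟨true,(-1),⟨6,[(12,3),(0,7),(0,5),(14,0),(2,0)]⟩,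
  ⟨1,[(36,0),(0,0)]⟩⟩,⟨false,(-1),⟨0,[(13,0),(5,0)]⟩,⟨9,[(1,5),(1,1),(4,3),(9,3),(7,5),(2,4),(7,
  6)]⟩⟩,⟨false,0,⟨0,[]⟩,⟨0,[]⟩⟩,⟨false,0,⟨0,[]⟩,⟨0,[]⟩⟩,[.a ⟨true,(-1),⟨0,[(13,0)]⟩,⟨0,[(34,0),(2,
  0)]⟩⟩ ⟨false,0,⟨0,[(39,0)]⟩,⟨1,[(36,0),(0,0)]⟩⟩ ⟨true,(-1),⟨0,[(13,0),(5,0)]⟩,⟨9,[(1,7),(1,5),(4,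
  1),(9,1),(7,7),(2,4),(7,0)]⟩⟩,.o ⟨false,0,⟨0,[(35,0)]⟩,⟨1,[(29,0),(4,1),(2,0)]⟩⟩,.o ⟨false,1,⟨4,
  [(1,2),(1,2),(1,1),(7,2),(4,1),(7,0),(2,3)]⟩,⟨0,[(19,0)]⟩⟩,.e ⟨false,0,⟨0,[]⟩,⟨1,[(18,0),(0,0),
  (17,0)]⟩⟩ ⟨false,0,⟨2,[(5,0),(7,1),(5,2),(2,0),(12,0),(1,0)]⟩,⟨9,[(1,7),(1,5),(4,1),(9,1),(7,7),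
  (2,4),(7,0)]⟩⟩]⟩)) (.Q [0,2,0,0,-2,0,0,0,1,1,0,-1] (.p false [0,0,0,0,1] [1] (⟨0,[(20,0)]⟩,⟨0,
  [(19,0)]⟩) .k 1 (⟨0,[]⟩,⟨0,[]⟩) .k .k) (.Q [0,0,-1,0,-1,0,0,0,1,1,0,-1] (.p false [0,0,0,0,1] [1]
  (⟨0,[(21,0)]⟩,⟨0,[(20,0)]⟩) .k 1 (⟨0,[]⟩,⟨0,[]⟩) .k .k) (.Q [0,0,0,0,0,-1,0,0,0,0,0,1] (.ed false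
  [1,-1,0,0,1] .k) (.S ⟨1,0,[0,2],[0,0,0,0,1],[1,1,0,-1],(⟨0,[(23,0)]⟩,⟨0,[(22,0)]⟩),⟨0,[(0,0)]⟩,.k,
  (.r 0 ⟨0,[(35,0)]⟩ ⟨2,[(12,0),(7,1),(0,1),(3,0),(2,0),(8,0),(1,1)]⟩),⟨false,1,⟨0,[(36,0),(2,0)]⟩,
  ⟨0,[(37,0)]⟩⟩,⟨true,0,⟨0,[(41,0)]⟩,⟨0,[]⟩⟩,⟨true,0,⟨0,[]⟩,⟨0,[(41,0)]⟩⟩,⟨false,0,⟨0,[(37,0)]⟩,⟨0,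
  [(36,0),(2,0)]⟩⟩,[.e ⟨false,0,⟨0,[(35,0)]⟩,⟨1,[(20,0),(0,0),(15,1),(1,0)]⟩⟩ ⟨false,0,⟨0,[(34,0)]⟩,
  ⟨0,[(39,0)]⟩⟩,.o ⟨false,(-1),⟨5,[(1,1),(0,2),(13,0),(4,0),(9,1)]⟩,⟨1,[(20,1),(10,0),(7,0)]⟩⟩,.a
  ⟨true,(-1),⟨2,[(1,1),(4,0),(14,0),(6,0)]⟩,⟨0,[(20,0)]⟩⟩ ⟨true,0,⟨0,[(36,0)]⟩,⟨0,[(37,0)]⟩⟩ ⟨false,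
  0,⟨0,[(41,0)]⟩,⟨0,[(39,0)]⟩⟩,.o ⟨false,(-1),⟨0,[(1,0),(14,0)]⟩,⟨1,[(20,1),(10,0),(6,0)]⟩⟩]⟩) (.S
  ⟨1,0,[],[1,0,0,0,-1],[0,-1],(⟨0,[(22,0)]⟩,⟨0,[(23,0)]⟩),⟨0,[(0,0),(17,0),(0,0)]⟩,.k,(.r (-1) ⟨3,
  [(14,1),(23,0),(0,2)]⟩ ⟨4,[(12,0),(0,1),(6,0),(0,0),(3,2),(2,2),(8,0)]⟩),⟨false,1,⟨1,[(20,0),(0,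
  0),(17,0)]⟩,⟨0,[]⟩⟩,⟨true,0,⟨0,[(41,0)]⟩,⟨0,[]⟩⟩,⟨true,0,⟨0,[(37,0)]⟩,⟨0,[(36,0)]⟩⟩,⟨false,0,⟨0,
  [(37,0)]⟩,⟨0,[(36,0),(2,0)]⟩⟩,[.e ⟨false,1,⟨1,[(38,0),(0,0)]⟩,⟨0,[(41,0)]⟩⟩ ⟨false,1,⟨1,[(20,0),
  (0,0),(16,0)]⟩,⟨0,[]⟩⟩,.o ⟨false,2,⟨1,[(20,1),(10,0),(7,0)]⟩,⟨5,[(1,1),(0,2),(13,0),(4,0),(9,
  1)]⟩⟩,.e ⟨false,1,⟨0,[(39,0)]⟩,⟨0,[(41,0)]⟩⟩ ⟨false,1,⟨1,[(20,0),(0,0),(17,0)]⟩,⟨0,[]⟩⟩,.a ⟨true,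
  1,⟨3,[(16,0),(0,0),(2,3),(7,1)]⟩,⟨0,[(1,0)]⟩⟩ ⟨true,1,⟨1,[(38,0),(0,0)]⟩,⟨6,[(14,3),(0,7),(0,5),
  (14,0),(2,0)]⟩⟩ ⟨false,1,⟨1,[(38,0),(0,0)]⟩,⟨3,[(16,0),(0,0),(10,1)]⟩⟩]⟩)) (.Q [0,0,0,0,0,-1,0,0,
  0,1,0,-1] (.ed true [0,1,0,0,1] .k) (.S ⟨1,0,[0,-1],[1,0,0,0,-1],[],(⟨0,[(22,0)]⟩,⟨0,[(23,0)]⟩),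
  ⟨0,[(0,0)]⟩,.k,(.r (-1) ⟨3,[(14,1),(23,0),(0,2)]⟩ ⟨4,[(12,0),(0,1),(6,0),(0,0),(3,2),(2,2),(8,
  0)]⟩),⟨true,0,⟨0,[(41,0)]⟩,⟨0,[]⟩⟩,⟨false,1,⟨1,[(20,0),(0,0),(17,0)]⟩,⟨0,[]⟩⟩,⟨false,0,⟨0,[(37,
  0)]⟩,⟨0,[(36,0),(2,0)]⟩⟩,⟨true,0,⟨0,[(37,0)]⟩,⟨0,[(36,0)]⟩⟩,[.o ⟨false,2,⟨1,[(1,1),(36,0),(0,0)]⟩,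
  ⟨1,[(2,1),(28,0),(7,0)]⟩⟩,.a ⟨true,2,⟨0,[(20,0),(18,0)]⟩,⟨0,[(2,0)]⟩⟩ ⟨false,1,⟨1,[(38,0),(0,0)]⟩,
  ⟨0,[(41,0)]⟩⟩ ⟨true,1,⟨0,[(39,0)]⟩,⟨0,[(1,0),(0,0)]⟩⟩,.e ⟨false,1,⟨1,[(20,0),(0,0),(17,0)]⟩,⟨0,
  []⟩⟩ ⟨false,1,⟨0,[(39,0)]⟩,⟨0,[(41,0)]⟩⟩,.o ⟨false,1,⟨0,[(1,0)]⟩,⟨1,[(2,1),(28,0),(6,0),(0,
  1)]⟩⟩]⟩) (.Q [0,0,-1,0,-1,0,1,0,1,1,-1,-1] (.p false [0,0,1] [1,0,0,0,-1] (⟨0,[(30,0)]⟩,⟨0,[(29,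
  0)]⟩) .k 2 (⟨0,[(22,0)]⟩,⟨0,[(23,0)]⟩) .k (.r (-1) ⟨2,[(7,0),(12,1),(0,1),(3,2),(2,1)]⟩ ⟨8,[(5,3),
  (4,2),(1,0),(0,0),(25,4)]⟩)) (.R ⟨0,false,false,true,[1,0,0,0,-1],[0,0,1],[1,1,1],(⟨0,[(23,0)]⟩,
  ⟨0,[(24,0)]⟩),(⟨0,[(31,0)]⟩,⟨0,[(30,0)]⟩),⟨0,[(1,0)]⟩,.k,.k,(.r (-1) ⟨3,[(15,1),(23,0),(0,2)]⟩ ⟨4,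
  [(13,0),(0,1),(6,0),(0,0),(3,2),(2,2),(8,0)]⟩),.k,.k,.k,⟨true,(-1),⟨0,[(6,0)]⟩,⟨5,[(8,1),(12,0),
  (0,0),(3,5),(2,3),(10,2)]⟩⟩,⟨false,(-1),⟨0,[(0,0)]⟩,⟨2,[(2,2),(5,1),(12,0),(0,0),(6,0)]⟩⟩,⟨true,
  (-1),⟨0,[(2,0),(0,0)]⟩,⟨1,[(39,0),(0,0)]⟩⟩,⟨false,(-1),⟨0,[(3,0),(22,0),(13,0)]⟩,⟨0,[(2,0),(3,0),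
  (1,0),(31,0)]⟩⟩,⟨false,0,⟨0,[]⟩,⟨0,[]⟩⟩,⟨false,0,⟨0,[]⟩,⟨0,[]⟩⟩,[.o ⟨false,0,⟨0,[(26,0)]⟩,⟨9,[(6,
  5),(1,3),(18,3),(1,1),(2,4),(7,6)]⟩⟩,.e ⟨false,0,⟨0,[]⟩,⟨1,[(21,0),(0,0),(16,0)]⟩⟩ ⟨false,0,⟨2,
  [(0,0),(2,0),(4,0),(1,0),(5,0),(5,0),(3,1),(13,2)]⟩,⟨0,[(2,0),(3,0),(1,0)]⟩⟩,.a ⟨true,1,⟨0,[(21,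
  0)]⟩,⟨0,[(3,0),(36,0)]⟩⟩ ⟨false,0,⟨3,[(17,0),(0,0),(10,1)]⟩,⟨1,[(39,0),(0,0)]⟩⟩ ⟨true,(-1),⟨0,[(3,
  0),(22,0),(13,0)]⟩,⟨0,[(2,0),(3,0),(1,0)]⟩⟩,.o ⟨false,1,⟨0,[(2,0)]⟩,⟨2,[(0,0),(2,0),(4,0),(13,0),
  (9,0),(7,0)]⟩⟩]⟩) (.Q [0,0,0,0,1,0,1,1,-1,0,-1,1] (.p false [0,0,1] [0,0,0,0,1] (⟨0,[(31,0)]⟩,⟨0,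
  [(30,0)]⟩) .k 2 (⟨0,[(24,0)]⟩,⟨0,[(23,0)]⟩) .k (.r (-2) ⟨2,[(8,0),(12,1),(0,1),(3,2),(2,1),(10,
  2)]⟩ ⟨5,[(2,0),(0,0),(2,3),(4,1),(4,1),(15,0),(2,0)]⟩)) (.R ⟨0,false,false,false,[1,0,0,0,-1],[1,
  0,-1],[0,1],(⟨0,[(24,0)]⟩,⟨0,[(25,0)]⟩),(⟨0,[(31,0)]⟩,⟨0,[(32,0)]⟩),⟨0,[(2,0)]⟩,.k,.k,(.r (-1) ⟨3,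
  [(16,1),(23,0),(0,2)]⟩ ⟨4,[(0,0),(0,0),(12,0),(0,1),(1,0),(5,1),(3,1),(2,1)]⟩),.k,.k,.k,⟨false,1,
  ⟨4,[(0,1),(8,2),(13,1),(3,2),(2,1),(5,0)]⟩,⟨8,[(7,3),(4,2),(1,0),(0,0),(25,4)]⟩⟩,⟨true,0,⟨2,[(4,
  1),(4,0),(13,0),(6,1),(2,0),(7,1)]⟩,⟨0,[(0,0),(6,0)]⟩⟩,⟨false,0,⟨0,[(43,0)]⟩,⟨0,[(41,0)]⟩⟩,⟨true,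
  (-1),⟨9,[(4,1),(0,7),(1,1),(8,3),(13,1),(2,0),(7,2)]⟩,⟨0,[(0,0)]⟩⟩,⟨false,0,⟨0,[]⟩,⟨0,[]⟩⟩,⟨false,
  0,⟨0,[]⟩,⟨0,[]⟩⟩,[.e ⟨false,0,⟨5,[(9,0),(2,0),(4,1),(9,0),(5,0),(2,0),(0,0)]⟩,⟨1,[(22,0),(0,0),
  (17,0)]⟩⟩ ⟨false,0,⟨10,[(5,7),(3,1),(2,1),(3,2),(6,2),(4,0),(12,5)]⟩,⟨0,[(0,0)]⟩⟩,.o ⟨false,1,⟨13,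
  [(1,3),(3,3),(1,1),(4,3),(15,3),(1,1),(2,4),(7,10)]⟩,⟨0,[(27,0)]⟩⟩,.a ⟨true,1,⟨0,[(22,0)]⟩,⟨0,[(4,
  0),(36,0)]⟩⟩ ⟨true,0,⟨0,[(43,0)]⟩,⟨0,[]⟩⟩ ⟨false,0,⟨9,[(4,1),(0,7),(1,1),(8,3),(13,1),(2,0),(7,
  12)]⟩,⟨0,[(0,0)]⟩⟩,.o ⟨false,1,⟨0,[(3,0)]⟩,⟨1,[(4,1),(28,0),(6,0),(0,1)]⟩⟩]⟩) (.Q [0,0,0,0,0,2,0,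
  0,0,0,-1] (.p false [0,0,1] [] (⟨0,[(32,0)]⟩,⟨0,[(31,0)]⟩) .k 0 (⟨0,[]⟩,⟨0,[]⟩) .k .k) (.Q [0,-1,
  -2,-1,2,0,-1,0,0,-1,1] (.p true [0,0,1] [1] (⟨0,[(33,0)]⟩,⟨0,[(32,0)]⟩) .k 1 (⟨0,[]⟩,⟨0,[]⟩) .k
  .k) (.R ⟨0,false,false,false,[0,-1,1],[1,-1],[1],(⟨0,[(23,0)]⟩,⟨1,[(1,0),(31,1),(0,0)]⟩),(⟨0,[(36,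
  0)]⟩,⟨0,[(37,0)]⟩),⟨0,[(1,0)]⟩,.k,.k,(.r (-2) ⟨1,[(8,1),(2,1),(12,0),(0,0),(17,0)]⟩ ⟨0,[(16,0)]⟩),
  .k,.k,.k,⟨false,0,⟨0,[(41,0)]⟩,⟨3,[(0,0),(10,0),(9,0),(18,2),(2,0)]⟩⟩,⟨true,1,⟨2,[(3,0),(7,0),(13,
  0),(6,0),(2,0)]⟩,⟨0,[(10,0)]⟩⟩,⟨true,(-1),⟨0,[(9,0),(31,0)]⟩,⟨2,[(11,1),(1,2),(10,0),(0,0),(6,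
  0)]⟩⟩,⟨false,1,⟨4,[(0,3),(8,1),(6,1),(3,0),(9,0),(12,0)]⟩,⟨0,[(13,0),(5,0),(23,0)]⟩⟩,⟨false,0,⟨0,
  []⟩,⟨0,[]⟩⟩,⟨false,0,⟨0,[]⟩,⟨0,[]⟩⟩,[.o ⟨false,1,⟨13,[(0,5),(17,1),(1,6),(0,2),(13,1),(4,3)]⟩,⟨0,
  [(41,0)]⟩⟩,.e ⟨false,1,⟨1,[(42,0),(0,0)]⟩,⟨0,[(45,0)]⟩⟩ ⟨false,2,⟨0,[(0,0)]⟩,⟨1,[(19,1),(0,0),(0,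
  0)]⟩⟩,.a ⟨true,(-1),⟨0,[(10,0)]⟩,⟨2,[(11,1),(12,0),(0,0),(6,0)]⟩⟩ ⟨true,0,⟨0,[]⟩,⟨0,[(45,0)]⟩⟩
  ⟨false,2,⟨2,[(0,1),(2,0),(21,0),(14,0),(2,0)]⟩,⟨0,[(10,0),(30,0)]⟩⟩,.e ⟨false,1,⟨1,[(42,0),(0,
  0)]⟩,⟨3,[(20,0),(0,0),(10,1)]⟩⟩ ⟨false,2,⟨0,[(0,0)]⟩,⟨6,[(10,4),(5,2),(2,0),(1,0),(7,2),(2,2),(10,
  1)]⟩⟩]⟩) (.R ⟨0,false,false,false,[0,-1,1],[1,-1],[1],(⟨0,[(23,0)]⟩,⟨1,[(1,0),(31,1),(0,0)]⟩),(⟨0,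
  [(36,0)]⟩,⟨0,[(37,0)]⟩),⟨0,[(1,0)]⟩,.k,.k,(.r (-2) ⟨1,[(8,1),(2,1),(12,0),(0,0),(17,0)]⟩ ⟨0,[(16,
  0)]⟩),.k,.k,.k,⟨false,0,⟨0,[(41,0)]⟩,⟨1,[(40,1),(1,0),(0,0)]⟩⟩,⟨true,1,⟨2,[(3,0),(7,0),(13,0),(6,
  0),(2,0)]⟩,⟨0,[(10,0)]⟩⟩,⟨true,(-1),⟨0,[(9,0),(31,0)]⟩,⟨2,[(11,1),(1,2),(10,0),(0,0),(6,0)]⟩⟩,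
  ⟨false,1,⟨57,[(2,15),(0,15),(7,1),(2,11),(1,5),(13,23),(4,20),(7,40)]⟩,⟨0,[(13,0),(5,0),(23,0)]⟩⟩,
  ⟨false,0,⟨0,[]⟩,⟨0,[]⟩⟩,⟨false,0,⟨0,[]⟩,⟨0,[]⟩⟩,[.o ⟨false,1,⟨3,[(5,1),(12,1),(6,1),(9,0),(7,0)]⟩,
  ⟨0,[(41,0)]⟩⟩,.a ⟨true,1,⟨0,[(40,0),(2,0)]⟩,⟨0,[(19,0)]⟩⟩ ⟨false,1,⟨1,[(42,0),(0,0)]⟩,⟨0,[(45,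
  0)]⟩⟩ ⟨true,2,⟨3,[(3,1),(7,1),(6,1),(6,1),(9,0),(7,2)]⟩,⟨0,[(0,0)]⟩⟩,.a ⟨true,(-1),⟨0,[(10,0)]⟩,
  ⟨2,[(11,1),(12,0),(0,0),(6,0)]⟩⟩ ⟨true,0,⟨0,[]⟩,⟨0,[(45,0)]⟩⟩ ⟨false,2,⟨3,[(3,1),(7,1),(6,1),(6,
  1),(9,0),(7,2)]⟩,⟨2,[(0,1),(27,0),(12,0),(1,0)]⟩⟩,.a ⟨true,(-1),⟨3,[(10,3),(9,0),(0,0),(10,1)]⟩,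
  ⟨0,[(11,0)]⟩⟩ ⟨false,1,⟨1,[(42,0),(0,0)]⟩,⟨3,[(20,0),(0,0),(10,1)]⟩⟩ ⟨true,2,⟨3,[(5,1),(5,3),(6,
  1),(6,1),(9,0),(7,0)]⟩,⟨0,[(0,0)]⟩⟩]⟩)) (.Q [0,-2,0,0,2,0,1,1,-1,0,-1,1] (.p false [0,0,1] [0,0,0,
  0,1] (⟨0,[(33,0)]⟩,⟨0,[(32,0)]⟩) .k 2 (⟨0,[(26,0)]⟩,⟨0,[(25,0)]⟩) .k (.r (-2) ⟨2,[(10,0),(12,1),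
  (0,1),(3,2),(2,1),(10,2)]⟩ ⟨5,[(4,0),(0,0),(2,3),(4,1),(4,1),(15,0),(2,0)]⟩)) (.Q [0,0,0,1,1,0,1,
  1,-1,0,-1,1] (.p false [0,0,1] [0,0,0,0,1] (⟨0,[(34,0)]⟩,⟨0,[(33,0)]⟩) .k 2 (⟨0,[(27,0)]⟩,⟨0,[(26,
  0)]⟩) .k (.r (-2) ⟨8,[(0,7),(10,1),(13,7),(3,0),(2,6),(5,2)]⟩ ⟨5,[(5,0),(0,0),(2,3),(4,1),(4,1),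
  (15,0),(2,0)]⟩)) (.R ⟨1,true,false,true,[1,0,-1],[1,0,0,0,-1],[1,1,0,-1,0,0,0,-1],(⟨0,[(34,0)]⟩,
  ⟨0,[(35,0)]⟩),(⟨0,[(27,0)]⟩,⟨0,[(28,0)]⟩),⟨0,[(23,0)]⟩,.k,.k,.k,.k,(.r 0 ⟨6,[(15,2),(0,1),(2,0),
  (1,0),(0,0),(8,3)]⟩ ⟨0,[(30,0),(2,0),(8,0),(1,0)]⟩),.k,⟨true,(-1),⟨3,[(4,0),(2,0),(2,2),(4,0),(0,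
  0),(2,0)]⟩,⟨0,[(30,0),(2,0),(8,0),(1,0)]⟩⟩,⟨false,1,⟨4,[(0,2),(5,0),(8,2),(6,0),(2,0)]⟩,⟨2,[(7,1),
  (4,0),(13,0),(6,1),(2,0),(7,1)]⟩⟩,⟨true,0,⟨0,[(41,0)]⟩,⟨0,[(42,0)]⟩⟩,⟨false,2,⟨0,[(1,0),(44,0)]⟩,
  ⟨0,[(3,0)]⟩⟩,⟨false,0,⟨0,[]⟩,⟨2,[(1,0),(24,0),(4,0),(12,0)]⟩⟩,⟨true,1,⟨0,[(0,0)]⟩,⟨0,[(3,0),(37,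
  0)]⟩⟩,[]⟩) (.R ⟨0,false,false,true,[1,0,0,0,-1],[1,-1,-1],[],(⟨0,[(27,0)]⟩,⟨0,[(28,0)]⟩),(⟨0,[(23,
  0)]⟩,⟨0,[(35,0),(2,0)]⟩),⟨0,[(5,0)]⟩,.k,.k,(.r (-1) ⟨3,[(19,1),(23,0),(0,2)]⟩ ⟨4,[(1,0),(15,1),(0,
  0),(7,0),(3,1),(2,2),(5,1)]⟩),(.r (-1) ⟨0,[(30,0),(2,0),(8,0),(1,0)]⟩ ⟨6,[(15,2),(0,1),(2,0),(1,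
  0),(0,0),(8,3)]⟩),.k,.k,⟨true,1,⟨0,[(30,0),(2,0),(8,0),(1,0)]⟩,⟨3,[(4,0),(2,0),(2,2),(4,0),(0,0),
  (2,0)]⟩⟩,⟨false,0,⟨2,[(7,1),(4,0),(13,0),(6,1),(2,0),(7,1)]⟩,⟨3,[(1,1),(4,1),(8,1),(0,0),(3,2),(8,
  0),(6,0)]⟩⟩,⟨true,0,⟨0,[(46,0)]⟩,⟨0,[]⟩⟩,⟨false,(-1),⟨9,[(0,6),(6,1),(18,0),(4,2),(4,0),(4,2)]⟩,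
  ⟨0,[(1,0),(40,0)]⟩⟩,⟨false,0,⟨0,[]⟩,⟨0,[]⟩⟩,⟨false,0,⟨0,[]⟩,⟨0,[]⟩⟩,[.o ⟨false,0,⟨12,[(0,2),(3,4),
  (2,1),(2,2),(4,1),(3,3),(11,4),(4,4)]⟩,⟨0,[(30,0),(11,0),(1,0)]⟩⟩,.a ⟨true,0,⟨0,[(0,0),(24,0)]⟩,
  ⟨0,[(1,0),(5,0),(34,0)]⟩⟩ ⟨false,1,⟨1,[(43,0),(0,0)]⟩,⟨0,[(46,0)]⟩⟩ ⟨true,(-1),⟨0,[(0,0)]⟩,⟨2,[(1,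
  1),(2,0),(12,0),(2,0),(9,1),(15,0)]⟩⟩,.e ⟨false,1,⟨2,[(1,0),(24,0),(4,0),(12,0)]⟩,⟨0,[]⟩⟩ ⟨false,
  (-1),⟨0,[(0,0)]⟩,⟨12,[(1,13),(2,1),(12,1),(2,1),(5,2),(3,0),(8,5),(2,6)]⟩⟩,.o ⟨false,1,⟨0,[(6,
  0)]⟩,⟨1,[(7,1),(28,0),(6,0),(0,1)]⟩⟩]⟩)) (.Q [0,-2,0,1,2,0,1,1,-1,0,-1,1] (.p false [0,0,1] [0,0,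
  0,0,1] (⟨0,[(34,0)]⟩,⟨0,[(33,0)]⟩) .k 2 (⟨0,[(27,0)]⟩,⟨0,[(26,0)]⟩) .k (.r (-2) ⟨2,[(11,0),(12,1),
  (0,1),(3,2),(2,1),(10,2)]⟩ ⟨13,[(0,2),(4,2),(3,5),(4,3),(0,2),(0,0),(2,4),(15,0)]⟩)) (.R ⟨1,true,
  false,false,[1,0,-1],[1,0,0,0,-1],[1,0,0,-1,0,0,0,-1],(⟨0,[(34,0)]⟩,⟨0,[(35,0)]⟩),(⟨0,[(27,0)]⟩,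
  ⟨0,[(28,0)]⟩),⟨0,[(23,0)]⟩,.k,.k,.k,.k,(.r 0 ⟨6,[(15,2),(0,1),(2,0),(1,0),(0,0),(8,3)]⟩ ⟨1,[(0,1),
  (6,1),(25,1),(2,0),(7,0)]⟩),.k,⟨true,(-1),⟨6,[(1,0),(4,0),(3,4),(4,0),(0,0),(2,2),(0,0)]⟩,⟨1,[(0,
  1),(6,1),(25,1),(2,0),(7,0)]⟩⟩,⟨false,1,⟨1,[(0,0),(5,0),(8,0),(0,0),(3,0)]⟩,⟨2,[(7,1),(4,0),(13,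
  0),(6,1),(2,0),(7,1)]⟩⟩,⟨false,1,⟨0,[(41,0),(2,0)]⟩,⟨0,[(42,0)]⟩⟩,⟨true,2,⟨0,[(0,0),(40,0)]⟩,⟨0,
  [(1,0)]⟩⟩,⟨true,0,⟨0,[]⟩,⟨0,[(46,0)]⟩⟩,⟨false,2,⟨0,[(0,0)]⟩,⟨0,[(3,0),(37,0)]⟩⟩,[]⟩) (.I [1,-2,-1,
  -1,2,0,0,1] (.I [1,2,1,1,-2,0,0,-1] (.N [0,-1,1,0,-2] (-2) ⟨0,[(1,0)]⟩ ⟨0,[(0,0)]⟩ (.x (-2) ⟨1,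
  [(6,1),(1,1),(4,1),(3,1),(8,1),(2,3),(2,1),(5,0),(5,1),(1,0)]⟩ ⟨0,[(1,0),(3,0),(1,1),(1,0),(15,0),
  (18,0)]⟩)) (.Q [0,-2,0,2,2,0,1,1,-1,0,-1,1] (.p false [0,0,1] [0,0,0,0,1] (⟨0,[(37,0)]⟩,⟨0,[(36,
  0)]⟩) .k 2 (⟨0,[(30,0)]⟩,⟨0,[(29,0)]⟩) .k (.r (-2) ⟨7,[(1,8),(4,0),(12,1),(0,3),(1,0),(5,0),(3,4),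
  (2,3)]⟩ ⟨13,[(3,2),(4,2),(3,5),(4,3),(0,2),(0,0),(2,4),(15,0)]⟩)) (.Q [0,0,2,0,-1,0,-1,0,1,0,1,
  -1] (.p true [0,0,1] [0,0,0,0,1] (⟨0,[(38,0)]⟩,⟨0,[(37,0)]⟩) .k 2 (⟨0,[(31,0)]⟩,⟨0,[(30,0)]⟩) .k
  (.r (-2) ⟨1,[(0,0),(1,0),(26,0),(6,0),(7,0),(4,0)]⟩ ⟨13,[(4,2),(4,2),(3,5),(4,3),(0,2),(0,0),(2,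
  4),(15,0)]⟩)) (.R ⟨1,true,false,false,[0,0,0,0,1],[0,1,1],[0,1],(⟨0,[(32,0)]⟩,⟨0,[(31,0)]⟩),(⟨0,
  [(39,0),(2,0)]⟩,⟨0,[(27,0)]⟩),⟨1,[(6,0),(2,0),(17,0),(4,0)]⟩,.k,.k,(.r 0 ⟨0,[(44,0)]⟩ ⟨26,[(0,8),
  (0,13),(1,0),(21,4),(0,4),(3,4),(4,14),(12,5)]⟩),(.r 0 ⟨6,[(19,2),(0,1),(2,0),(1,0),(0,0),(8,3)]⟩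
  ⟨4,[(0,2),(0,2),(1,0),(30,0),(2,0),(5,0)]⟩),(.r 0 ⟨13,[(19,9),(0,1),(2,7),(1,0),(0,0),(8,3)]⟩ ⟨0,
  [(0,0),(0,0),(48,0)]⟩),.k,⟨false,0,⟨3,[(19,2),(0,0),(14,0),(7,0)]⟩,⟨4,[(0,2),(0,2),(1,0),(30,0),
  (2,0),(5,0)]⟩⟩,⟨true,1,⟨18,[(1,7),(8,7),(2,2),(3,0),(1,10),(0,5),(3,6),(4,2)]⟩,⟨0,[(0,0)]⟩⟩,
  ⟨false,1,⟨8,[(1,0),(1,1),(21,0),(0,0),(3,0),(4,2),(12,2)]⟩,⟨0,[]⟩⟩,⟨true,2,⟨0,[(1,0),(43,0)]⟩,⟨0,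
  [(4,0)]⟩⟩,⟨true,0,⟨0,[(46,0)]⟩,⟨0,[(45,0)]⟩⟩,⟨false,2,⟨0,[(1,0)]⟩,⟨8,[(0,2),(6,3),(6,2),(8,8),(6,
  1),(4,1),(12,0)]⟩⟩,[]⟩) (.R ⟨1,false,false,false,[0,0,0,0,1],[0,1,1],[0,1,1],(⟨0,[(32,0)]⟩,⟨0,
  [(31,0)]⟩),(⟨0,[(39,0),(2,0)]⟩,⟨0,[(27,0)]⟩),⟨1,[(6,0),(2,0),(17,0),(4,0)]⟩,.k,.k,(.r 0 ⟨0,[(44,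
  0)]⟩ ⟨5,[(1,1),(1,1),(17,1),(3,0),(0,0),(3,1),(4,1),(1,1)]⟩),(.r 0 ⟨6,[(19,2),(0,1),(2,0),(1,0),
  (0,0),(8,3)]⟩ ⟨9,[(1,6),(1,3),(3,0),(3,5),(13,3),(11,5),(2,0)]⟩),(.r 0 ⟨13,[(19,9),(0,1),(2,7),(1,
  0),(0,0),(8,3)]⟩ ⟨1,[(1,1),(9,0),(13,0),(4,0),(6,1)]⟩),.k,⟨true,(-1),⟨13,[(0,2),(3,3),(5,0),(3,8),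
  (2,0),(5,4),(11,0)]⟩,⟨9,[(1,6),(1,3),(3,0),(3,5),(13,3),(11,5),(2,0)]⟩⟩,⟨false,1,⟨0,[(0,0)]⟩,⟨0,
  [(30,0),(6,0)]⟩⟩,⟨true,0,⟨3,[(25,0),(0,0),(10,1)]⟩,⟨4,[(0,0),(4,0),(10,0),(17,0),(8,0)]⟩⟩,⟨true,2,
  ⟨0,[(1,0),(43,0)]⟩,⟨0,[(4,0)]⟩⟩,⟨true,0,⟨5,[(1,0),(19,1),(8,0),(3,0),(2,1),(12,0)]⟩,⟨7,[(0,0),(4,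
  0),(7,0),(2,0),(6,2),(19,0)]⟩⟩,⟨false,2,⟨0,[(1,0)]⟩,⟨8,[(3,1),(0,7),(10,1),(7,3),(1,1),(4,0),(4,
  2),(12,4)]⟩⟩,[.e ⟨false,0,⟨0,[(50,0)]⟩,⟨1,[(47,0),(0,0)]⟩⟩ ⟨false,2,⟨69,[(0,3),(0,49),(1,9),(6,2),
  (2,9),(12,2),(2,12),(13,54)]⟩,⟨0,[(4,0),(43,0)]⟩⟩,.o ⟨false,1,⟨3,[(1,1),(9,1),(22,1),(5,0),(7,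
  2)]⟩,⟨24,[(4,4),(2,2),(0,7),(10,7),(3,5),(1,6),(9,8),(4,4)]⟩⟩,.e ⟨false,0,⟨3,[(25,0),(0,0),(10,
  1)]⟩,⟨1,[(47,0),(0,0)]⟩⟩ ⟨false,2,⟨0,[(1,0),(43,0)]⟩,⟨0,[(4,0),(43,0)]⟩⟩,.a ⟨true,(-1),⟨1,[(11,0),
  (3,0),(14,0),(6,0),(10,0)]⟩,⟨4,[(0,1),(2,0),(4,1),(10,0),(4,1),(4,0)]⟩⟩ ⟨true,0,⟨0,[(50,0)]⟩,⟨0,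
  []⟩⟩ ⟨false,2,⟨22,[(0,4),(0,16),(1,0),(9,4),(2,3),(12,0),(13,3)]⟩,⟨9,[(3,0),(0,8),(10,2),(9,2),(4,
  0),(4,1),(1,1),(10,8)]⟩⟩]⟩)) (.K ⟨0,[-1,0,1,0,1],(-1),(-1),(⟨0,[(8,0),(18,0)]⟩,⟨0,[(30,0),(6,
  0)]⟩),.k,(.r (-1) ⟨4,[(2,1),(12,0),(1,2),(18,1),(5,2)]⟩ ⟨2,[(13,0),(6,0),(0,0),(25,1)]⟩),(.r 0 ⟨0,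
  [(33,0),(2,0),(8,0)]⟩ ⟨10,[(18,4),(3,2),(1,0),(0,2),(8,5),(4,0),(7,9)]⟩),.k,.k,[⟨0,[(10,0),(36,
  0)]⟩,⟨0,[(7,0)]⟩,⟨9,[(7,8),(1,0),(5,0),(2,5),(1,1),(0,1),(25,0)]⟩,⟨21,[(2,3),(7,12),(12,3),(1,4),
  (3,8),(3,17),(2,5),(5,1)]⟩]⟩))) (.Q [0,0,-2,0,1,0,1,0,-1,0,-1,1] (.p false [0,0,1] [0,0,0,0,1]
  (⟨0,[(36,0)]⟩,⟨0,[(35,0)]⟩) .k 2 (⟨0,[(29,0)]⟩,⟨0,[(28,0)]⟩) .k (.r (-2) ⟨2,[(13,0),(12,1),(0,1),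
  (3,2),(2,1),(10,2)]⟩ ⟨7,[(0,2),(10,1),(4,1),(0,0),(14,0)]⟩)) (.K ⟨0,[-1,0,1,0,1],(-1),(-1),(⟨0,
  [(7,0),(18,0)]⟩,⟨0,[(29,0),(6,0)]⟩),.k,(.r (-1) ⟨2,[(14,1),(1,2),(10,0),(0,0),(6,0)]⟩ ⟨2,[(12,0),
  (6,0),(0,0),(25,1)]⟩),(.r 0 ⟨0,[(32,0),(2,0),(8,0)]⟩ ⟨10,[(17,4),(3,2),(1,0),(0,2),(8,5),(4,0),(7,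
  9)]⟩),.k,.k,[⟨0,[(9,0),(36,0)]⟩,⟨0,[(6,0)]⟩,⟨77,[(0,1),(5,75),(7,3),(2,45),(1,13),(0,17),(17,0),
  (7,8)]⟩,⟨0,[(16,0),(5,0),(5,0)]⟩]⟩) (.Q [0,-2,0,2,2,0,1,1,-1,0,-1,1] (.p false [0,0,1] [0,0,0,0,
  1] (⟨0,[(37,0)]⟩,⟨0,[(36,0)]⟩) .k 2 (⟨0,[(30,0)]⟩,⟨0,[(29,0)]⟩) .k (.r (-2) ⟨2,[(14,0),(12,1),(0,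
  1),(3,2),(2,1),(10,2)]⟩ ⟨7,[(1,2),(10,1),(4,1),(0,0),(14,0)]⟩)) (.R ⟨1,true,false,false,[0,0,0,0,
  1],[0,1,1],[0,1],(⟨0,[(31,0)]⟩,⟨0,[(30,0)]⟩),(⟨0,[(38,0),(2,0)]⟩,⟨0,[(26,0)]⟩),⟨1,[(5,0),(2,0),
  (17,0),(4,0)]⟩,.k,.k,(.r 0 ⟨0,[(43,0)]⟩ ⟨23,[(0,11),(0,7),(5,1),(16,2),(0,4),(3,5),(4,11),(12,
  5)]⟩),(.r 0 ⟨6,[(18,2),(0,1),(2,0),(1,0),(0,0),(8,3)]⟩ ⟨5,[(0,3),(0,2),(13,0),(1,1),(11,0),(6,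
  1)]⟩),(.r 0 ⟨13,[(18,9),(0,1),(2,7),(1,0),(0,0),(8,3)]⟩ ⟨0,[(0,0),(0,0),(47,0)]⟩),.k,⟨false,0,⟨3,
  [(18,2),(0,0),(14,0),(7,0)]⟩,⟨5,[(0,3),(0,2),(13,0),(1,1),(11,0),(6,1)]⟩⟩,⟨true,1,⟨3,[(0,1),(1,0),
  (9,0),(5,1),(0,0),(8,1)]⟩,⟨0,[(1,0)]⟩⟩,⟨false,1,⟨1,[(28,0),(0,0),(17,0)]⟩,⟨0,[]⟩⟩,⟨true,2,⟨0,[(0,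
  0),(43,0)]⟩,⟨0,[(3,0)]⟩⟩,⟨true,0,⟨0,[(45,0)]⟩,⟨0,[(44,0)]⟩⟩,⟨false,2,⟨0,[(0,0)]⟩,⟨8,[(1,2),(4,3),
  (6,2),(8,8),(6,1),(4,1),(12,0)]⟩⟩,[]⟩) (.K ⟨0,[-1,0,1,0,1],(-1),(-1),(⟨0,[(8,0),(18,0)]⟩,⟨0,[(30,
  0),(6,0)]⟩),.k,(.r (-1) ⟨2,[(15,1),(1,2),(10,0),(0,0),(6,0)]⟩ ⟨2,[(13,0),(6,0),(0,0),(25,1)]⟩),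
  (.r 0 ⟨0,[(33,0),(2,0),(8,0)]⟩ ⟨10,[(18,4),(3,2),(1,0),(0,2),(8,5),(4,0),(7,9)]⟩),.k,.k,[⟨0,[(10,
  0),(36,0)]⟩,⟨0,[(7,0)]⟩,⟨9,[(7,8),(1,0),(5,0),(2,5),(1,1),(0,1),(25,0)]⟩,⟨0,[(17,0),(5,0),(5,
  0)]⟩]⟩))))))))))) (.Q [0,0,0,0,0,0,1,0,-1,0,-1,1] (.p false [0,0,1] [0,0,0,0,1] (⟨0,[(28,0)]⟩,⟨0,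
  [(27,0)]⟩) .k 2 (⟨0,[(21,0)]⟩,⟨0,[(20,0)]⟩) .k (.r (-2) ⟨2,[(5,0),(12,1),(0,1),(3,2),(2,1),(10,
  2)]⟩ ⟨8,[(3,6),(4,1),(3,0),(0,3),(15,1),(2,1)]⟩)) (.Q [0,0,0,0,0,-1,0,0,0,1,0,-1] (.ed true [0,1,
  0,0,1] .k) (.S ⟨1,0,[0,-1],[1,0,0,0,-1],[1,0,0,-1],(⟨0,[(22,0)]⟩,⟨0,[(23,0)]⟩),⟨0,[(0,0)]⟩,.k,(.r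
  (-1) ⟨3,[(14,1),(23,0),(0,2)]⟩ ⟨4,[(12,0),(0,1),(6,0),(0,0),(3,2),(2,2),(8,0)]⟩),⟨true,0,⟨0,[(36,
  0)]⟩,⟨0,[(37,0)]⟩⟩,⟨false,1,⟨1,[(20,0),(0,0),(17,0)]⟩,⟨0,[]⟩⟩,⟨false,0,⟨0,[]⟩,⟨1,[(20,0),(0,0),
  (17,0)]⟩⟩,⟨true,0,⟨0,[(37,0)]⟩,⟨0,[(36,0)]⟩⟩,[.e ⟨false,1,⟨4,[(2,0),(4,1),(6,0),(2,0),(3,0),(14,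
  2),(2,0)]⟩,⟨0,[(37,0)]⟩⟩ ⟨false,1,⟨1,[(38,0),(0,0)]⟩,⟨0,[(41,0)]⟩⟩,.o ⟨false,2,⟨0,[(2,0)]⟩,⟨0,[(3,
  0),(5,0)]⟩⟩,.o ⟨false,1,⟨3,[(1,2),(5,0),(12,0),(7,1),(2,1)]⟩,⟨0,[(21,0)]⟩⟩,.a ⟨true,0,⟨0,[(1,0),
  (26,0)]⟩,⟨0,[(6,0),(0,0),(13,0)]⟩⟩ ⟨false,1,⟨3,[(14,1),(23,0),(0,2)]⟩,⟨5,[(12,1),(7,0),(0,0),(3,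
  1),(2,1),(8,1),(1,0)]⟩⟩ ⟨true,1,⟨1,[(38,0),(0,0)]⟩,⟨6,[(14,3),(0,7),(0,5),(14,0),(2,0)]⟩⟩]⟩) (.Q
  [0,-1,1,-1,0,0,0,0,1,0,0,-1] (.p false [0,0,0,0,1] [] (⟨0,[(23,0)]⟩,⟨0,[(22,0)]⟩) .k 0 (⟨0,[]⟩,⟨0,
  []⟩) .k .k) (.S ⟨1,0,[0,1],[0,0,0,0,1],[0,2],(⟨0,[(24,0)]⟩,⟨0,[(23,0)]⟩),⟨0,[(1,0),(17,0),(0,0)]⟩,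
  .k,(.r 0 ⟨0,[(36,0)]⟩ ⟨2,[(13,0),(7,1),(0,1),(3,0),(2,0),(8,0),(1,1)]⟩),⟨true,0,⟨0,[(42,0)]⟩,⟨0,
  []⟩⟩,⟨false,1,⟨1,[(21,0),(0,0),(17,0)]⟩,⟨0,[]⟩⟩,⟨false,0,⟨0,[(38,0)]⟩,⟨15,[(0,7),(2,0),(4,1),(6,
  3),(2,0),(2,6),(18,4)]⟩⟩,⟨true,0,⟨0,[(38,0)]⟩,⟨0,[(37,0)]⟩⟩,[.e ⟨false,0,⟨0,[(35,0)]⟩,⟨0,[(40,
  0)]⟩⟩ ⟨false,0,⟨5,[(8,0),(2,0),(4,1),(9,0),(5,0),(2,0),(0,0)]⟩,⟨1,[(21,0),(0,0),(17,0)]⟩⟩,.o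
  ⟨false,0,⟨0,[(22,0)]⟩,⟨3,[(2,2),(5,0),(12,0),(7,1),(2,1)]⟩⟩,.o ⟨false,0,⟨0,[(22,0)]⟩,⟨3,[(2,2),(5,
  0),(12,0),(7,1),(2,1)]⟩⟩,.a ⟨true,(-1),⟨0,[(0,0),(15,0)]⟩,⟨1,[(2,0),(5,0),(12,0)]⟩⟩ ⟨false,0,⟨5,
  [(8,0),(2,0),(4,1),(9,0),(5,0),(2,0),(0,0)]⟩,⟨3,[(17,0),(0,0),(10,1),(10,3)]⟩⟩ ⟨true,0,⟨5,[(8,0),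
  (2,0),(4,1),(9,0),(5,0),(2,0),(0,0)]⟩,⟨3,[(17,0),(0,0),(10,1)]⟩⟩]⟩) (.Q [0,0,-1,0,1,0,0,0,-1,-1,0,
  1] (.p true [0,0,0,0,1] [1] (⟨0,[(24,0)]⟩,⟨0,[(23,0)]⟩) .k 1 (⟨0,[]⟩,⟨0,[]⟩) .k .k) (.R ⟨0,false,
  false,false,[1,0,0,0,-1],[0,-1,1],[0,0,-1,-1,0,0,0,1],(⟨0,[(24,0)]⟩,⟨0,[(25,0)]⟩),(⟨0,[(21,0)]⟩,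
  ⟨0,[(31,0),(3,0)]⟩),⟨0,[(2,0)]⟩,.k,.k,(.r (-1) ⟨3,[(16,1),(23,0),(0,2)]⟩ ⟨4,[(14,0),(0,1),(6,0),
  (0,0),(3,2),(2,2),(8,0)]⟩),(.r 0 ⟨2,[(7,0),(6,0),(0,0),(25,1)]⟩ ⟨2,[(9,1),(1,2),(10,0),(0,0),(6,
  0)]⟩),.k,.k,⟨false,1,⟨1,[(22,0),(0,0),(16,0)]⟩,⟨0,[]⟩⟩,⟨true,(-1),⟨0,[(8,0),(14,0)]⟩,⟨0,[(0,0),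
  (29,0)]⟩⟩,⟨true,1,⟨2,[(9,1),(1,2),(10,0),(0,0),(6,0)]⟩,⟨0,[(7,0),(31,0)]⟩⟩,⟨false,0,⟨0,[(6,0),(10,
  0),(5,0),(17,0)]⟩,⟨1,[(0,0),(0,0),(2,0),(0,0),(1,0),(22,0),(10,0)]⟩⟩,⟨false,0,⟨0,[]⟩,⟨0,[]⟩⟩,
  ⟨false,0,⟨0,[]⟩,⟨0,[]⟩⟩,[.a ⟨true,0,⟨0,[(6,0),(10,0),(23,0)]⟩,⟨9,[(7,2),(1,6),(4,4),(13,1),(1,0),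
  (10,0)]⟩⟩ ⟨false,2,⟨1,[(9,1),(1,1),(10,0),(0,0),(17,0)]⟩,⟨0,[(7,0),(31,0)]⟩⟩ ⟨true,0,⟨0,[(6,0),
  (10,0),(5,0),(17,0)]⟩,⟨1,[(1,1),(5,1),(22,1),(2,0),(7,0)]⟩⟩,.o ⟨false,1,⟨0,[(11,0),(29,0)]⟩,⟨5,
  [(0,1),(0,0),(3,2),(8,0),(13,1),(1,0),(2,1)]⟩⟩,.o ⟨false,1,⟨2,[(0,1),(17,0),(3,0)]⟩,⟨0,[(23,0)]⟩⟩,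
  .e ⟨false,2,⟨0,[(9,0),(1,0),(29,0)]⟩,⟨15,[(7,5),(0,2),(5,7),(3,2),(9,1),(1,0),(10,0)]⟩⟩ ⟨false,1,
  ⟨2,[(6,1),(2,0),(1,0),(5,1),(5,2),(2,0),(14,3)]⟩,⟨1,[(1,1),(5,1),(22,1),(2,0),(7,0)]⟩⟩]⟩) (.S ⟨1,
  0,[0,1],[0,0,0,0,1],[0,2],(⟨0,[(25,0)]⟩,⟨0,[(24,0)]⟩),⟨0,[(2,0),(17,0),(0,0)]⟩,.k,(.r 0 ⟨0,[(37,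
  0)]⟩ ⟨2,[(14,0),(7,1),(0,1),(3,0),(2,0),(8,0),(1,1)]⟩),⟨true,0,⟨0,[(43,0)]⟩,⟨0,[]⟩⟩,⟨false,1,⟨1,
  [(22,0),(0,0),(17,0)]⟩,⟨0,[]⟩⟩,⟨false,0,⟨0,[(39,0)]⟩,⟨0,[(38,0),(2,0)]⟩⟩,⟨true,0,⟨0,[(39,0)]⟩,⟨0,
  [(38,0)]⟩⟩,[.e ⟨false,0,⟨0,[(36,0)]⟩,⟨0,[(41,0)]⟩⟩ ⟨false,0,⟨12,[(1,1),(3,1),(3,1),(2,1),(3,0),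
  (10,3),(8,1)]⟩,⟨1,[(22,0),(0,0),(17,0)]⟩⟩,.o ⟨false,0,⟨0,[(23,0)]⟩,⟨7,[(1,3),(2,2),(11,1),(1,2),
  (3,0),(10,0)]⟩⟩,.o ⟨false,0,⟨0,[(23,0)]⟩,⟨7,[(1,3),(2,2),(11,1),(1,2),(3,0),(10,0)]⟩⟩,.a ⟨true,
  (-1),⟨0,[(0,0)]⟩,⟨1,[(3,0),(5,0),(12,0)]⟩⟩ ⟨false,0,⟨12,[(1,1),(3,1),(3,1),(2,1),(3,0),(10,3),(8,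
  1)]⟩,⟨2,[(0,0),(17,0),(3,0),(18,2)]⟩⟩ ⟨true,0,⟨12,[(1,1),(3,1),(3,1),(2,1),(3,0),(10,3),(8,1)]⟩,
  ⟨2,[(0,0),(17,0),(3,0)]⟩⟩]⟩)))) (.Q [0,0,0,0,1,0,0,0,-1,-1,0,1] (.p true [0,0,0,0,1] [1] (⟨0,[(22,
  0)]⟩,⟨0,[(21,0)]⟩) .k 1 (⟨0,[]⟩,⟨0,[]⟩) .k .k) (.Q [0,0,0,0,0,-1,0,0,0,0,0,1] (.ed false [1,-1,0,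
  0,1] .k) (.S ⟨1,0,[0,1],[0,0,0,0,1],[0,2],(⟨0,[(24,0)]⟩,⟨0,[(23,0)]⟩),⟨0,[(0,0)]⟩,.k,(.r 0 ⟨0,
  [(36,0)]⟩ ⟨7,[(2,5),(0,0),(9,3),(4,0),(2,4),(4,3),(13,4)]⟩),⟨true,0,⟨0,[(42,0)]⟩,⟨0,[]⟩⟩,⟨false,1,
  ⟨3,[(2,1),(0,0),(14,0),(2,0),(18,0)]⟩,⟨0,[]⟩⟩,⟨false,0,⟨0,[(38,0)]⟩,⟨0,[(37,0),(2,0)]⟩⟩,⟨true,0,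
  ⟨0,[(38,0)]⟩,⟨0,[(37,0)]⟩⟩,[.e ⟨false,0,⟨0,[(35,0)]⟩,⟨0,[(40,0)]⟩⟩ ⟨false,0,⟨5,[(8,0),(2,0),(4,1),
  (9,0),(5,0),(2,0),(0,0)]⟩,⟨3,[(2,1),(0,0),(14,0),(2,0),(18,0)]⟩⟩,.o ⟨false,0,⟨0,[(22,0)]⟩,⟨0,[(1,
  0)]⟩⟩,.o ⟨false,0,⟨0,[(22,0)]⟩,⟨0,[(1,0)]⟩⟩,.a ⟨true,(-1),⟨0,[(2,0),(4,0)]⟩,⟨3,[(1,0),(1,1),(1,0),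
  (2,0),(2,0),(4,2),(4,0)]⟩⟩ ⟨false,0,⟨5,[(8,0),(2,0),(4,1),(9,0),(5,0),(2,0),(0,0)]⟩,⟨3,[(17,0),(0,
  0),(10,1),(10,3)]⟩⟩ ⟨true,0,⟨5,[(8,0),(2,0),(4,1),(9,0),(5,0),(2,0),(0,0)]⟩,⟨3,[(17,0),(0,0),(10,
  1)]⟩⟩]⟩) (.R ⟨0,false,false,true,[0,0,0,0,1],[0,-1,1],[0,1,-1,-1,0,0,0,1],(⟨0,[(24,0)]⟩,⟨0,[(23,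
  0)]⟩),(⟨0,[(20,0)]⟩,⟨0,[(30,0),(3,0)]⟩),⟨0,[(0,0)]⟩,.k,.k,(.r 0 ⟨0,[(36,0)]⟩ ⟨7,[(2,5),(0,0),(9,
  3),(4,0),(2,4),(4,3),(13,4)]⟩),(.r 1 ⟨1,[(6,0),(6,0),(21,0)]⟩ ⟨1,[(2,0),(5,0),(1,1),(10,0),(18,
  1)]⟩),.k,.k,⟨false,1,⟨1,[(21,0),(0,0),(16,0)]⟩,⟨0,[]⟩⟩,⟨true,0,⟨0,[(1,0),(5,0)]⟩,⟨0,[(2,0)]⟩⟩,
  ⟨false,2,⟨1,[(2,0),(5,0),(1,1),(10,0),(18,1)]⟩,⟨0,[(6,0),(31,0)]⟩⟩,⟨true,1,⟨0,[(3,0),(1,0),(10,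
  0)]⟩,⟨0,[(4,0)]⟩⟩,⟨false,0,⟨0,[]⟩,⟨0,[]⟩⟩,⟨false,0,⟨0,[]⟩,⟨0,[]⟩⟩,[.o ⟨false,0,⟨0,[(10,0)]⟩,⟨0,
  [(3,0),(0,0)]⟩⟩,.a ⟨true,0,⟨0,[(5,0),(10,0),(23,0)]⟩,⟨9,[(6,2),(1,6),(4,4),(13,1),(1,0),(10,0)]⟩⟩
  ⟨false,2,⟨3,[(2,1),(0,0),(4,3),(1,3),(7,0),(2,0),(18,0)]⟩,⟨0,[(6,0),(31,0)]⟩⟩ ⟨true,1,⟨0,[(3,0),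
  (1,0),(10,0)]⟩,⟨0,[(2,0),(3,0),(31,0)]⟩⟩,.o ⟨false,0,⟨0,[(22,0)]⟩,⟨0,[(1,0)]⟩⟩,.e ⟨true,1,⟨0,[(8,
  0),(1,0)]⟩,⟨15,[(6,5),(0,2),(5,7),(3,2),(9,1),(1,0),(10,0)]⟩⟩ ⟨true,1,⟨2,[(1,1),(1,0),(1,1),(2,0),
  (1,0),(5,1),(8,0)]⟩,⟨0,[(2,0),(3,0),(31,0)]⟩⟩]⟩)) (.Q [0,0,0,0,0,-1,0,0,0,1,0,-1] (.ed true [0,1,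
  0,0,1] .k) (.R ⟨1,false,false,true,[1,0,0,0,-1],[1,0,-1],[],(⟨0,[(23,0)]⟩,⟨0,[(24,0)]⟩),(⟨0,[(30,
  0)]⟩,⟨0,[(31,0)]⟩),⟨0,[(0,0)]⟩,.k,.k,(.r (-1) ⟨3,[(15,1),(23,0),(0,2)]⟩ ⟨2,[(2,0),(10,0),(0,0),(6,
  0),(4,1),(2,0)]⟩),.k,(.r (-2) ⟨1,[(2,0),(5,0),(1,1),(10,0),(18,1)]⟩ ⟨1,[(6,0),(6,0),(21,0)]⟩),.k,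
  ⟨false,2,⟨1,[(2,0),(5,0),(12,0),(4,1),(13,1)]⟩,⟨8,[(6,6),(4,1),(3,0),(0,3),(15,1),(2,1)]⟩⟩,⟨true,
  0,⟨0,[(2,0)]⟩,⟨0,[(3,0),(2,0),(3,0),(5,0)]⟩⟩,⟨true,0,⟨0,[(42,0)]⟩,⟨0,[]⟩⟩,⟨false,(-1),⟨2,[(2,0),
  (1,1),(1,0),(8,0)]⟩,⟨0,[(3,0),(6,0),(5,0),(23,0)]⟩⟩,⟨false,0,⟨0,[(38,0)]⟩,⟨0,[(37,0),(2,0)]⟩⟩,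
  ⟨false,(-1),⟨0,[(4,0)]⟩,⟨0,[(3,0),(1,0),(10,0),(23,0)]⟩⟩,[.o ⟨false,0,⟨13,[(6,8),(1,4),(6,2),(0,
  5),(10,4),(1,3),(2,9)]⟩,⟨0,[(26,0),(13,0)]⟩⟩,.e ⟨false,1,⟨1,[(39,0),(0,0)]⟩,⟨0,[(42,0)]⟩⟩ ⟨false,
  0,⟨9,[(2,2),(1,3),(3,0),(2,3),(10,2),(4,1),(12,2)]⟩,⟨0,[(3,0),(6,0),(5,0)]⟩⟩,.a ⟨true,1,⟨0,[(21,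
  0)]⟩,⟨0,[(1,0)]⟩⟩ ⟨false,1,⟨3,[(2,1),(0,0),(14,0),(2,0),(18,0)]⟩,⟨0,[]⟩⟩ ⟨true,(-1),⟨2,[(2,0),(1,
  1),(1,0),(8,0)]⟩,⟨0,[(3,0),(6,0),(5,0)]⟩⟩,.o ⟨false,1,⟨5,[(3,2),(1,1),(0,1),(9,3),(0,0),(3,2),(7,
  1),(2,2)]⟩,⟨1,[(1,1),(30,0),(6,0)]⟩⟩]⟩) (.R ⟨0,false,false,true,[1,0,0,0,-1],[1,-1],[0,1,0,-1],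
  (⟨0,[(23,0)]⟩,⟨0,[(24,0)]⟩),(⟨0,[(33,0)]⟩,⟨0,[(34,0)]⟩),⟨0,[(0,0)]⟩,.k,.k,(.r (-1) ⟨3,[(15,1),(23,
  0),(0,2)]⟩ ⟨2,[(2,0),(10,0),(0,0),(6,0),(4,1),(2,0)]⟩),(.r (-1) ⟨7,[(2,5),(0,0),(9,3),(4,0),(2,4),
  (4,3),(13,4)]⟩ ⟨0,[(36,0)]⟩),.k,.k,⟨true,0,⟨3,[(17,0),(0,0),(10,1)]⟩,⟨0,[]⟩⟩,⟨false,0,⟨0,[(22,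
  0)]⟩,⟨0,[(3,0),(12,0),(19,0)]⟩⟩,⟨false,0,⟨0,[(37,0)]⟩,⟨0,[(38,0),(1,0)]⟩⟩,⟨true,(-1),⟨0,[(4,0),(0,
  0)]⟩,⟨0,[(3,0),(12,0)]⟩⟩,⟨false,0,⟨0,[]⟩,⟨0,[]⟩⟩,⟨false,0,⟨0,[]⟩,⟨0,[]⟩⟩,[.e ⟨false,0,⟨0,[(36,
  0)]⟩,⟨3,[(2,1),(0,0),(14,0),(2,0),(16,3),(1,0)]⟩⟩ ⟨false,0,⟨0,[(2,0),(9,0)]⟩,⟨0,[(3,0),(12,0)]⟩⟩,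
  .o ⟨false,1,⟨7,[(3,2),(11,1),(1,0),(4,2),(9,1),(4,3)]⟩,⟨0,[(38,0)]⟩⟩,.a ⟨true,1,⟨0,[(21,0)]⟩,⟨0,
  [(1,0)]⟩⟩ ⟨true,0,⟨0,[(37,0)]⟩,⟨0,[(38,0)]⟩⟩ ⟨false,0,⟨3,[(1,0),(13,1),(1,0),(4,2),(17,0)]⟩,⟨0,
  [(3,0),(12,0)]⟩⟩,.o ⟨false,1,⟨5,[(3,2),(1,1),(0,1),(9,3),(0,0),(3,2),(7,1),(2,2)]⟩,⟨1,[(1,1),(30,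
  0),(6,0)]⟩⟩]⟩)))))))))

theorem ok4 : chk K t4 l9 = true := by decide +kernel

noncomputable def t5 : Tre :=
  (.Q [0,-1,0,2,0,0,-1,-1,0,0,1] (.p true [0,0,1] [] (⟨0,[(23,0)]⟩,⟨0,[(22,0)]⟩) .k 0 (⟨0,[]⟩,⟨0,
  []⟩) .k .k) (.R ⟨1,true,false,false,[0,0,1],[0,1],[0,0,0,0,0,0,0,1],(⟨0,[(24,0)]⟩,⟨0,[(23,0)]⟩),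
  (⟨0,[(27,0)]⟩,⟨0,[(26,0)]⟩),⟨0,[(13,0)]⟩,.k,.k,.k,.k,(.r (-2) ⟨3,[(3,3),(4,1),(13,3),(9,4),(0,
  2)]⟩ ⟨0,[(6,0)]⟩),.k,⟨false,2,⟨1,[(3,1),(18,1),(9,2),(0,0)]⟩,⟨1,[(0,0),(0,0),(2,0),(4,0),(0,0)]⟩⟩,
  ⟨true,1,⟨0,[(22,0),(9,0)]⟩,⟨0,[(1,0)]⟩⟩,⟨false,1,⟨1,[(14,0),(0,0),(17,0)]⟩,⟨0,[]⟩⟩,⟨true,0,⟨1,[(0,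
  0),(19,0)]⟩,⟨0,[(3,0)]⟩⟩,⟨true,0,⟨0,[(31,0)]⟩,⟨0,[(30,0)]⟩⟩,⟨false,0,⟨0,[(0,0)]⟩,⟨0,[(3,0),(26,0),
  (2,0)]⟩⟩,[]⟩) (.Q [0,0,0,0,0,2,0,0,0,0,-1] (.p false [0,0,1] [] (⟨0,[(24,0)]⟩,⟨0,[(23,0)]⟩) .k 0
  (⟨0,[]⟩,⟨0,[]⟩) .k .k) (.R ⟨0,false,false,false,[0,-1,1],[1,-1],[],(⟨0,[(14,0)]⟩,⟨1,[(0,0),(23,1),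
  (0,0)]⟩),(⟨0,[(27,0)]⟩,⟨0,[(28,0)]⟩),⟨0,[(0,0)]⟩,.k,.k,(.r (-2) ⟨1,[(1,1),(21,1),(9,2),(0,0)]⟩ ⟨0,
  [(7,0)]⟩),.k,.k,.k,⟨false,0,⟨0,[(32,0)]⟩,⟨1,[(1,0),(19,0),(11,0),(0,0)]⟩⟩,⟨true,1,⟨1,[(23,1),(2,
  0),(6,0)]⟩,⟨4,[(2,2),(0,0),(5,1),(0,3),(23,2)]⟩⟩,⟨true,(-1),⟨0,[(2,0),(2,0),(17,0),(8,1)]⟩,⟨0,[(4,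
  0),(18,0),(9,0)]⟩⟩,⟨false,1,⟨5,[(5,2),(1,0),(13,1),(1,3),(2,2),(5,0),(1,3)]⟩,⟨0,[(4,0),(5,0),(23,
  0)]⟩⟩,⟨false,0,⟨0,[]⟩,⟨0,[]⟩⟩,⟨false,0,⟨0,[]⟩,⟨0,[]⟩⟩,[.o ⟨false,1,⟨1,[(1,0),(19,0),(4,0),(7,0)]⟩,
  ⟨0,[(32,0)]⟩⟩,.a ⟨true,1,⟨1,[(1,0),(19,0),(12,1)]⟩,⟨0,[(10,0)]⟩⟩ ⟨false,1,⟨1,[(33,0),(0,0)]⟩,⟨0,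
  [(36,0)]⟩⟩ ⟨true,2,⟨3,[(9,1),(13,3),(2,1),(6,2),(0,2)]⟩,⟨0,[(2,0),(7,0)]⟩⟩,.e ⟨false,1,⟨1,[(15,0),
  (0,0),(17,0)]⟩,⟨0,[]⟩⟩ ⟨false,2,⟨3,[(9,1),(13,3),(2,1),(6,2),(0,2)]⟩,⟨2,[(2,0),(0,0),(6,1),(21,0),
  (1,0)]⟩⟩,.o ⟨false,(-1),⟨0,[(2,0)]⟩,⟨1,[(23,1),(2,0),(6,2)]⟩⟩]⟩) (.I [0,-1,-2,-1,2,0,0,1] (.S ⟨1,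
  0,[0,1,-1,-1,0,0,0,1],[0,-1,1],[0,0,-1,-1,0,0,0,1],(⟨0,[(15,0)]⟩,⟨0,[(25,0),(3,0)]⟩),⟨0,[(1,0)]⟩,
  .k,(.r (-2) ⟨1,[(0,1),(1,0),(19,0)]⟩ ⟨0,[(8,0)]⟩),⟨false,1,⟨1,[(16,0),(0,0),(17,0)]⟩,⟨0,[]⟩⟩,
  ⟨true,0,⟨0,[(37,0)]⟩,⟨0,[]⟩⟩,⟨true,0,⟨0,[(33,0)]⟩,⟨1,[(2,0),(19,0)]⟩⟩,⟨false,0,⟨0,[(33,0)]⟩,⟨1,
  [(2,0),(19,0),(12,1)]⟩⟩,[.o ⟨false,0,⟨0,[(5,0)]⟩,⟨5,[(6,2),(1,0),(13,1),(1,3),(2,2),(5,6),(1,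
  3)]⟩⟩,.e ⟨false,2,⟨0,[(0,0)]⟩,⟨10,[(6,0),(1,9),(1,4),(0,1),(15,0),(2,1)]⟩⟩ ⟨false,2,⟨0,[(0,0),(36,
  0)]⟩,⟨0,[(3,0),(2,0),(17,0),(8,1)]⟩⟩,.a ⟨true,(-1),⟨4,[(3,2),(0,0),(5,1),(0,3),(23,2)]⟩,⟨0,[(24,
  0),(9,0)]⟩⟩ ⟨false,2,⟨3,[(0,3),(11,0),(0,0),(10,1)]⟩,⟨0,[(3,0),(2,0),(17,0),(8,1)]⟩⟩ ⟨true,1,⟨1,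
  [(0,0),(4,0),(18,0),(5,0)]⟩,⟨0,[(3,0),(2,0),(17,0),(8,1)]⟩⟩,.o ⟨false,(-1),⟨0,[(3,0)]⟩,⟨1,[(24,1),
  (2,0),(6,2)]⟩⟩]⟩) (.Q [0,0,0,0,0,-2,0,0,0,1,-1] (.p false [0,0,1] [1] (⟨0,[(26,0)]⟩,⟨0,[(25,0)]⟩)
  .k 1 (⟨0,[]⟩,⟨0,[]⟩) .k .k) (.I [0,0,2,2,0,0,0,1] (.R ⟨1,false,false,true,[1,-1,-1],[1,-1],[0,1,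
  1],(⟨0,[(16,0)]⟩,⟨0,[(28,0),(2,0)]⟩),(⟨0,[(30,0)]⟩,⟨0,[(31,0)]⟩),⟨0,[(1,0)]⟩,.k,.k,(.r (-1) ⟨27,
  [(8,11),(3,21),(2,7),(8,15),(4,3),(6,4),(0,18)]⟩ ⟨0,[(0,0)]⟩),.k,.k,.k,⟨false,0,⟨17,[(0,5),(9,1),
  (0,1),(2,0),(0,0),(8,1),(12,1)]⟩,⟨3,[(12,1),(23,2),(0,0)]⟩⟩,⟨true,0,⟨2,[(6,0),(15,0),(6,0)]⟩,⟨0,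
  [(26,0)]⟩⟩,⟨true,0,⟨1,[(0,1),(3,0),(19,0)]⟩,⟨0,[(8,0)]⟩⟩,⟨true,0,⟨0,[(23,0)]⟩,⟨5,[(8,2),(1,0),(13,
  1),(1,3),(8,0),(1,0)]⟩⟩,⟨false,0,⟨0,[(0,0)]⟩,⟨21,[(8,15),(3,13),(1,0),(0,2),(8,5),(4,0),(7,20)]⟩⟩,
  ⟨true,0,⟨0,[(23,0),(11,0)]⟩,⟨10,[(2,2),(5,3),(3,4),(11,3),(1,6),(10,5)]⟩⟩,[.e ⟨false,0,⟨17,[(0,1),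
  (3,1),(9,0),(0,0),(8,3),(7,5)]⟩,⟨1,[(36,0),(0,0)]⟩⟩ ⟨false,0,⟨0,[(8,0),(14,0)]⟩,⟨3,[(0,1),(23,1),
  (1,1),(9,0),(0,2)]⟩⟩,.o ⟨false,1,⟨1,[(4,0),(19,0),(4,0),(7,0)]⟩,⟨0,[(35,0)]⟩⟩,.a ⟨true,0,⟨0,[(26,
  0)]⟩,⟨0,[(22,0)]⟩⟩ ⟨false,0,⟨3,[(14,0),(0,0),(10,1)]⟩,⟨1,[(36,0),(0,0)]⟩⟩ ⟨true,0,⟨0,[(9,0)]⟩,⟨0,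
  [(26,0),(8,0)]⟩⟩,.e ⟨true,0,⟨17,[(0,1),(3,1),(9,0),(0,0),(8,3),(7,5)]⟩,⟨0,[]⟩⟩ ⟨true,0,⟨0,[(8,0),
  (14,0)]⟩,⟨15,[(0,5),(9,1),(3,0),(0,0),(8,3),(1,13),(10,1)]⟩⟩]⟩) (.Q [0,-1,0,0,1,0,1,1,-1,0,-1,1]
  (.p false [0,0,1] [0,0,0,0,1] (⟨0,[(28,0)]⟩,⟨0,[(27,0)]⟩) .k 2 (⟨0,[(21,0)]⟩,⟨0,[(20,0)]⟩) .k (.r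
  (-2) ⟨1,[(18,0),(0,0),(3,1),(2,1),(9,0),(0,1)]⟩ ⟨9,[(0,1),(1,4),(5,1),(2,0),(20,1)]⟩)) (.Q [0,0,0,
  0,0,-1,0,0,0,1,0,-1] (.ed true [0,1,0,0,1] .k) (.R ⟨1,false,false,false,[1,0,0,0,-1],[1,-1,-1],[],
  (⟨0,[(22,0)]⟩,⟨0,[(23,0)]⟩),(⟨0,[(18,0)]⟩,⟨0,[(30,0),(2,0)]⟩),⟨0,[(0,0)]⟩,.k,.k,(.r (-1) ⟨3,[(14,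
  1),(23,0),(0,2)]⟩ ⟨4,[(12,0),(0,1),(6,0),(0,0),(3,2),(2,2),(8,0)]⟩),(.r (-1) ⟨0,[(1,0),(19,0),(6,
  0),(8,0)]⟩ ⟨15,[(2,5),(8,5),(1,1),(2,0),(0,0),(8,7)]⟩),.k,.k,⟨false,1,⟨1,[(1,0),(19,0),(3,0),(2,
  1),(8,1),(0,0)]⟩,⟨17,[(2,11),(9,1),(0,1),(2,0),(0,0),(8,1),(12,1)]⟩⟩,⟨true,0,⟨0,[(21,0),(6,0)]⟩,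
  ⟨7,[(1,6),(2,3),(5,2),(0,0),(8,0),(13,0)]⟩⟩,⟨true,0,⟨0,[(41,0)]⟩,⟨0,[]⟩⟩,⟨false,0,⟨16,[(2,8),(1,
  0),(2,1),(13,16),(4,6),(1,11),(10,3)]⟩,⟨0,[(1,0),(35,0)]⟩⟩,⟨false,0,⟨0,[(37,0)]⟩,⟨1,[(6,0),(19,0),
  (12,1)]⟩⟩,⟨false,0,⟨5,[(10,2),(1,0),(8,5),(4,1),(1,3),(8,0),(1,0)]⟩,⟨0,[(1,0)]⟩⟩,[.e ⟨false,1,⟨1,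
  [(20,0),(0,0),(16,0)]⟩,⟨0,[]⟩⟩ ⟨false,0,⟨0,[(10,0),(10,0),(6,0)]⟩,⟨1,[(1,0),(18,0),(4,0),(11,
  1)]⟩⟩,.o ⟨false,1,⟨25,[(2,13),(1,1),(11,3),(9,9),(1,15),(2,10),(7,18)]⟩,⟨0,[(25,0),(11,0)]⟩⟩,.o
  ⟨false,1,⟨11,[(1,6),(2,1),(5,4),(4,3),(4,4),(7,6),(2,7),(3,0)]⟩,⟨0,[(21,0)]⟩⟩,.a ⟨true,0,⟨3,[(1,
  2),(2,1),(5,0),(9,0),(7,2),(6,0)]⟩,⟨3,[(14,1),(0,3),(5,3),(16,0),(0,2)]⟩⟩ ⟨false,1,⟨1,[(38,0),(0,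
  0)]⟩,⟨3,[(16,0),(0,0),(10,1)]⟩⟩ ⟨true,0,⟨0,[(10,0),(10,0),(6,0)]⟩,⟨4,[(1,4),(2,0),(10,3),(0,1),(8,
  0),(2,0),(2,0),(2,1)]⟩⟩]⟩) (.R ⟨0,false,false,true,[1,0,0,0,-1],[0,1],[1,1,1],(⟨0,[(22,0)]⟩,⟨0,
  [(23,0)]⟩),(⟨0,[(33,0)]⟩,⟨0,[(32,0)]⟩),⟨0,[(0,0)]⟩,.k,.k,(.r (-1) ⟨3,[(14,1),(23,0),(0,2)]⟩ ⟨4,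
  [(12,0),(0,1),(6,0),(0,0),(3,2),(2,2),(8,0)]⟩),(.r (-1) ⟨3,[(14,1),(23,0),(0,2)]⟩ ⟨4,[(12,0),(0,
  1),(6,0),(0,0),(3,2),(2,2),(8,0)]⟩),.k,.k,⟨false,1,⟨1,[(6,0),(19,0),(11,0),(0,0)]⟩,⟨0,[(37,0)]⟩⟩,
  ⟨true,0,⟨3,[(14,1),(0,3),(5,3),(16,0),(0,2)]⟩,⟨10,[(1,9),(0,1),(1,7),(9,1),(1,0),(3,0),(7,9),(2,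
  4)]⟩⟩,⟨true,(-1),⟨1,[(4,0),(4,0),(18,0),(5,0)]⟩,⟨1,[(38,0),(0,0)]⟩⟩,⟨false,(-1),⟨0,[(15,0),(5,
  0)]⟩,⟨25,[(1,15),(0,13),(1,1),(11,3),(3,9),(7,15),(2,10),(7,18)]⟩⟩,⟨false,0,⟨0,[]⟩,⟨0,[]⟩⟩,⟨false,
  0,⟨0,[]⟩,⟨0,[]⟩⟩,[.a ⟨true,(-1),⟨0,[(15,0)]⟩,⟨1,[(6,0),(19,0),(12,1)]⟩⟩ ⟨false,0,⟨0,[(41,0)]⟩,⟨1,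
  [(38,0),(0,0)]⟩⟩ ⟨true,(-1),⟨0,[(15,0),(5,0)]⟩,⟨25,[(1,21),(0,15),(1,5),(11,11),(3,3),(7,21),(2,
  6),(7,4)]⟩⟩,.o ⟨false,0,⟨0,[(37,0)]⟩,⟨1,[(6,0),(19,0),(4,0),(7,0)]⟩⟩,.o ⟨false,1,⟨11,[(1,6),(2,1),
  (5,4),(4,3),(4,4),(7,6),(2,7),(3,0)]⟩,⟨0,[(21,0)]⟩⟩,.e ⟨false,0,⟨0,[]⟩,⟨1,[(20,0),(0,0),(17,0)]⟩⟩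
  ⟨false,0,⟨1,[(15,1),(5,1),(16,0),(0,0)]⟩,⟨25,[(1,21),(0,15),(1,5),(11,11),(3,3),(7,21),(2,6),(7,
  4)]⟩⟩]⟩)) (.Q [0,-1,1,1,-1,0,0,0,1,1,0,-1] (.p false [0,0,0,0,1] [1] (⟨0,[(22,0)]⟩,⟨0,[(21,0)]⟩)
  .k 1 (⟨0,[]⟩,⟨0,[]⟩) .k .k) (.Q [0,-2,0,0,3,0,0,0,-2,-1,0,2] (.p true [0,0,0,0,1] [1,0,0,0,-1]
  (⟨0,[(23,0)]⟩,⟨0,[(22,0)]⟩) .k 2 (⟨0,[(22,0)]⟩,⟨0,[(23,0)]⟩) .k (.r 0 ⟨0,[(41,1)]⟩ ⟨0,[(39,0)]⟩))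
  (.Q [0,0,0,0,0,-1,0,0,0,1,0,-1] (.ed true [0,1,0,0,1] .k) (.S ⟨1,0,[0,-1],[1,0,0,0,-1],[],(⟨0,
  [(24,0)]⟩,⟨0,[(25,0)]⟩),⟨0,[(0,0)]⟩,.k,(.r (-1) ⟨3,[(16,1),(23,0),(0,2)]⟩ ⟨14,[(1,0),(0,0),(11,1),
  (0,7),(7,0),(3,9),(2,9),(8,1)]⟩),⟨true,0,⟨0,[(43,0)]⟩,⟨0,[]⟩⟩,⟨false,1,⟨3,[(1,0),(21,1),(7,0),(0,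
  0),(8,0)]⟩,⟨0,[]⟩⟩,⟨false,0,⟨0,[(39,0)]⟩,⟨1,[(8,0),(19,0),(12,1)]⟩⟩,⟨true,0,⟨0,[(39,0)]⟩,⟨1,[(8,
  0),(19,0)]⟩⟩,[.o ⟨false,2,⟨17,[(1,10),(16,0),(4,3),(9,2),(2,1)]⟩,⟨0,[(2,0),(13,0),(0,0),(15,0)]⟩⟩,
  .a ⟨true,2,⟨1,[(1,0),(29,0),(0,0),(8,0)]⟩,⟨1,[(2,1),(1,0),(3,0),(7,0),(0,3),(12,0),(2,1)]⟩⟩
  ⟨false,1,⟨1,[(40,0),(0,0)]⟩,⟨0,[(43,0)]⟩⟩ ⟨true,1,⟨0,[(41,0)]⟩,⟨1,[(6,0),(4,0),(18,0),(5,0)]⟩⟩,.e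
  ⟨false,1,⟨3,[(1,0),(21,1),(7,0),(0,0),(8,0)]⟩,⟨0,[]⟩⟩ ⟨false,1,⟨0,[(41,0)]⟩,⟨0,[(43,0)]⟩⟩,.o
  ⟨false,1,⟨7,[(1,3),(4,2),(4,2),(18,2),(2,1),(2,0)]⟩,⟨1,[(2,1),(30,0),(3,1),(2,0)]⟩⟩]⟩) (.R ⟨0,
  false,false,true,[1,0,0,0,-1],[0,0,1],[0,0,0,-1],(⟨0,[(24,0)]⟩,⟨0,[(25,0)]⟩),(⟨0,[(32,0)]⟩,⟨0,
  [(31,0)]⟩),⟨0,[(0,0)]⟩,.k,.k,(.r (-1) ⟨3,[(16,1),(23,0),(0,2)]⟩ ⟨14,[(1,0),(0,0),(11,1),(0,7),(7,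
  0),(3,9),(2,9),(8,1)]⟩),.k,.k,.k,⟨true,0,⟨16,[(4,9),(1,2),(2,5),(18,3),(1,1),(10,11)]⟩,⟨0,[(27,0),
  (2,0),(8,0)]⟩⟩,⟨false,(-1),⟨0,[(2,0),(9,0),(14,0)]⟩,⟨3,[(1,1),(28,3),(2,0),(2,1),(3,0)]⟩⟩,⟨true,0,
  ⟨0,[(38,0)]⟩,⟨0,[(39,0)]⟩⟩,⟨false,(-1),⟨0,[(2,0),(24,0),(9,0)]⟩,⟨3,[(1,1),(10,2),(1,0),(15,3),(2,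
  0),(5,0),(1,1)]⟩⟩,⟨false,0,⟨0,[]⟩,⟨0,[]⟩⟩,⟨false,0,⟨0,[]⟩,⟨0,[]⟩⟩,[.o ⟨false,0,⟨0,[(27,0)]⟩,⟨7,
  [(1,1),(1,3),(8,2),(1,0),(15,3),(2,2),(5,0),(1,3)]⟩⟩,.e ⟨false,1,⟨3,[(16,1),(23,0),(0,2)]⟩,⟨3,
  [(15,0),(11,0),(2,0),(5,0),(2,2)]⟩⟩ ⟨false,0,⟨0,[(2,0),(8,0),(28,0)]⟩,⟨21,[(1,10),(4,5),(5,14),(4,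
  8),(10,0),(1,20),(2,9),(2,2)]⟩⟩,.a ⟨true,1,⟨0,[(22,0)]⟩,⟨0,[(2,0),(34,0)]⟩⟩ ⟨false,1,⟨1,[(8,0),
  (19,0),(12,1)]⟩,⟨0,[(39,0)]⟩⟩ ⟨true,(-1),⟨0,[(2,0),(24,0),(9,0)]⟩,⟨21,[(1,10),(4,5),(5,14),(4,8),
  (10,0),(1,20),(2,9),(2,2)]⟩⟩,.o ⟨false,1,⟨7,[(1,3),(4,2),(4,2),(18,2),(2,1),(2,0)]⟩,⟨1,[(2,1),(30,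
  0),(3,1),(2,0)]⟩⟩]⟩)) (.Q [0,0,0,0,0,-1,0,0,0,0,0,1] (.ed false [1,-1,0,0,1] .k) (.S ⟨1,0,[0,2],
  [0,0,0,0,1],[1,1,0,-1],(⟨0,[(25,0)]⟩,⟨0,[(24,0)]⟩),⟨0,[(0,0)]⟩,.k,(.r 0 ⟨0,[(37,0)]⟩ ⟨2,[(2,0),
  (15,0),(3,2),(0,1),(15,1),(1,0)]⟩),⟨false,1,⟨1,[(8,0),(19,0),(12,1)]⟩,⟨0,[(39,0)]⟩⟩,⟨true,0,⟨0,
  [(43,0)]⟩,⟨0,[]⟩⟩,⟨true,0,⟨0,[]⟩,⟨0,[(43,0)]⟩⟩,⟨false,0,⟨0,[(39,0)]⟩,⟨1,[(8,0),(19,0),(12,1)]⟩⟩,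
  [.e ⟨false,0,⟨0,[(37,0)]⟩,⟨1,[(22,0),(0,0),(15,1),(1,0)]⟩⟩ ⟨false,0,⟨0,[(36,0)]⟩,⟨0,[(41,0)]⟩⟩,.o
  ⟨false,(-1),⟨17,[(1,6),(16,0),(4,3),(9,2),(2,1)]⟩,⟨1,[(22,1),(10,0),(7,0)]⟩⟩,.a ⟨true,(-1),⟨5,[(1,
  0),(0,3),(13,1),(14,0),(0,0),(7,0)]⟩,⟨0,[(22,0)]⟩⟩ ⟨true,0,⟨1,[(8,0),(19,0)]⟩,⟨0,[(39,0)]⟩⟩
  ⟨false,0,⟨0,[(43,0)]⟩,⟨0,[(41,0)]⟩⟩,.o ⟨false,(-1),⟨1,[(1,0),(16,0),(22,0)]⟩,⟨1,[(22,1),(10,0),(6,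
  0)]⟩⟩]⟩) (.R ⟨0,false,false,false,[0,0,0,0,1],[1,0,0,0,-1],[1,1,1],(⟨0,[(25,0)]⟩,⟨0,[(24,0)]⟩),
  (⟨0,[(24,0)]⟩,⟨0,[(25,0)]⟩),⟨0,[(0,0)]⟩,.k,.k,(.r 0 ⟨0,[(37,0)]⟩ ⟨2,[(2,0),(15,0),(3,2),(0,1),(15,
  1),(1,0)]⟩),.k,.k,.k,⟨true,(-1),⟨1,[(6,0),(4,0),(18,0),(5,0)]⟩,⟨0,[(41,0)]⟩⟩,⟨false,3,⟨1,[(22,3),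
  (10,0),(6,0)]⟩,⟨0,[(1,0),(39,0)]⟩⟩,⟨true,0,⟨3,[(18,0),(0,0),(10,1)]⟩,⟨3,[(17,1),(15,0),(3,1),(2,
  0)]⟩⟩,⟨false,4,⟨1,[(22,3),(10,0),(7,2)]⟩,⟨0,[(1,0)]⟩⟩,⟨false,0,⟨0,[]⟩,⟨0,[]⟩⟩,⟨false,0,⟨0,[]⟩,⟨0,
  []⟩⟩,[.o ⟨false,2,⟨1,[(22,1),(10,0),(7,0)]⟩,⟨17,[(1,6),(16,0),(4,3),(9,2),(2,1)]⟩⟩,.e ⟨false,0,⟨0,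
  []⟩,⟨1,[(22,0),(0,0),(16,0)]⟩⟩ ⟨false,4,⟨1,[(22,3),(10,0),(6,0),(0,1)]⟩,⟨0,[(1,0)]⟩⟩,.a ⟨true,
  (-1),⟨5,[(1,0),(0,3),(13,1),(14,0),(0,0),(7,0)]⟩,⟨0,[(22,0)]⟩⟩ ⟨false,0,⟨3,[(18,0),(0,0),(10,1)]⟩,
  ⟨1,[(40,0),(0,0)]⟩⟩ ⟨true,3,⟨1,[(22,3),(10,0),(7,0)]⟩,⟨0,[(1,0)]⟩⟩,.o ⟨false,(-1),⟨1,[(1,0),(16,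
  0),(22,0)]⟩,⟨1,[(22,1),(10,0),(6,0)]⟩⟩]⟩))) (.Q [0,1,0,-1,-1,0,-1,-1,1,0,1,-1] (.p true [0,0,1]
  [0,0,0,0,1] (⟨0,[(30,0)]⟩,⟨0,[(29,0)]⟩) .k 2 (⟨0,[(23,0)]⟩,⟨0,[(22,0)]⟩) .k (.r (-2) ⟨1,[(20,0),
  (0,0),(3,1),(2,1),(9,0),(0,1)]⟩ ⟨9,[(2,1),(1,4),(5,1),(2,0),(20,1)]⟩)) (.Q [0,0,1,0,-1,0,-1,-1,1,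
  0,1,-1] (.p true [0,0,1] [0,0,0,0,1] (⟨0,[(31,0)]⟩,⟨0,[(30,0)]⟩) .k 2 (⟨0,[(24,0)]⟩,⟨0,[(23,0)]⟩)
  .k (.r (-2) ⟨1,[(21,0),(0,0),(3,1),(2,1),(9,0),(0,1)]⟩ ⟨9,[(3,1),(1,4),(5,1),(2,0),(20,1)]⟩)) (.Q
  [0,0,0,0,1,0,0,0,-1,-1,0,1] (.p true [0,0,0,0,1] [1] (⟨0,[(25,0)]⟩,⟨0,[(24,0)]⟩) .k 1 (⟨0,[]⟩,⟨0,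
  []⟩) .k .k) (.Q [0,0,0,0,0,-1,0,0,0,0,0,1] (.ed false [1,-1,0,0,1] .k) (.S ⟨1,0,[0,1],[0,0,0,0,1],
  [0,2],(⟨0,[(27,0)]⟩,⟨0,[(26,0)]⟩),⟨0,[(0,0)]⟩,.k,(.r 0 ⟨0,[(39,0)]⟩ ⟨2,[(16,0),(7,1),(0,1),(3,0),
  (2,0),(8,0),(1,1)]⟩),⟨true,0,⟨0,[(45,0)]⟩,⟨0,[]⟩⟩,⟨false,1,⟨1,[(24,0),(0,0),(17,0)]⟩,⟨0,[]⟩⟩,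
  ⟨false,0,⟨0,[(41,0)]⟩,⟨1,[(10,0),(19,0),(12,1)]⟩⟩,⟨true,0,⟨0,[(41,0)]⟩,⟨1,[(10,0),(19,0)]⟩⟩,[.e
  ⟨false,0,⟨0,[(38,0)]⟩,⟨0,[(43,0)]⟩⟩ ⟨false,0,⟨3,[(19,1),(15,0),(3,1),(2,0)]⟩,⟨1,[(24,0),(0,0),(17,
  0)]⟩⟩,.o ⟨false,0,⟨0,[(25,0)]⟩,⟨0,[(1,0)]⟩⟩,.o ⟨false,0,⟨0,[(25,0)]⟩,⟨0,[(1,0)]⟩⟩,.a ⟨true,(-1),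
  ⟨0,[(2,0),(10,0),(5,0),(23,0)]⟩,⟨0,[(4,0),(14,0),(23,0)]⟩⟩ ⟨false,0,⟨3,[(19,1),(15,0),(3,1),(2,
  0)]⟩,⟨3,[(20,0),(0,0),(10,1),(10,3)]⟩⟩ ⟨true,0,⟨3,[(19,1),(15,0),(3,1),(2,0)]⟩,⟨3,[(20,0),(0,0),
  (10,1)]⟩⟩]⟩) (.Q [0,0,1,0,0,0,0,0,-1,0,0,1] (.p true [0,0,0,0,1] [] (⟨0,[(27,0)]⟩,⟨0,[(26,0)]⟩)
  .k 0 (⟨0,[]⟩,⟨0,[]⟩) .k .k) (.S ⟨1,0,[0,-1],[1,0,0,0,-1],[1,0,0,-1],(⟨0,[(27,0)]⟩,⟨0,[(28,0)]⟩),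
  ⟨2,[(1,0),(6,0),(1,0),(16,1)]⟩,.k,(.r (-1) ⟨3,[(19,1),(23,0),(0,2)]⟩ ⟨4,[(17,0),(0,1),(6,0),(0,0),
  (3,2),(2,2),(8,0)]⟩),⟨true,0,⟨1,[(11,0),(19,0)]⟩,⟨0,[(42,0)]⟩⟩,⟨false,1,⟨1,[(25,0),(0,0),(17,0)]⟩,
  ⟨0,[]⟩⟩,⟨false,0,⟨0,[]⟩,⟨1,[(25,0),(0,0),(17,0)]⟩⟩,⟨true,0,⟨0,[(42,0)]⟩,⟨1,[(11,0),(19,0)]⟩⟩,[.e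
  ⟨false,1,⟨1,[(11,0),(19,0),(11,0),(0,0)]⟩,⟨0,[(42,0)]⟩⟩ ⟨false,1,⟨1,[(43,0),(0,0)]⟩,⟨0,[(46,0)]⟩⟩,
  .o ⟨false,2,⟨0,[(2,0),(41,0)]⟩,⟨0,[(6,0),(23,0)]⟩⟩,.o ⟨false,1,⟨0,[(2,0)]⟩,⟨0,[(26,0)]⟩⟩,.a ⟨true,
  0,⟨0,[(0,0)]⟩,⟨3,[(19,1),(0,3),(5,3),(16,0),(0,2)]⟩⟩ ⟨false,1,⟨3,[(19,1),(23,0),(0,2)]⟩,⟨5,[(17,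
  1),(7,0),(0,0),(3,1),(2,1),(8,1),(1,0)]⟩⟩ ⟨true,1,⟨1,[(43,0),(0,0)]⟩,⟨1,[(9,0),(4,0),(18,0),(5,
  0)]⟩⟩]⟩) (.R ⟨0,false,false,false,[0,0,0,0,1],[0,1],[1,0,1],(⟨0,[(28,0)]⟩,⟨0,[(27,0)]⟩),(⟨0,[(38,
  0)]⟩,⟨0,[(37,0)]⟩),⟨0,[(1,0)]⟩,.k,.k,(.r 0 ⟨0,[(40,0)]⟩ ⟨2,[(17,0),(7,1),(0,1),(3,0),(2,0),(8,0),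
  (1,1)]⟩),(.r 0 ⟨0,[(40,0)]⟩ ⟨2,[(17,0),(7,1),(0,1),(3,0),(2,0),(8,0),(1,1)]⟩),.k,.k,⟨false,1,⟨1,
  [(11,0),(19,0),(11,0),(0,0)]⟩,⟨0,[(42,0)]⟩⟩,⟨true,1,⟨0,[(5,0),(14,0),(23,0)]⟩,⟨0,[(0,0),(11,0),
  (20,0)]⟩⟩,⟨false,1,⟨3,[(21,0),(0,0),(10,1),(10,3)]⟩,⟨3,[(20,1),(15,0),(3,1),(2,0)]⟩⟩,⟨true,1,⟨0,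
  [(2,0),(17,0),(23,0)]⟩,⟨0,[(6,0),(7,0)]⟩⟩,⟨false,0,⟨0,[]⟩,⟨0,[]⟩⟩,⟨false,0,⟨0,[]⟩,⟨0,[]⟩⟩,[.o
  ⟨false,0,⟨0,[(42,0)]⟩,⟨1,[(11,0),(19,0),(4,0),(7,0)]⟩⟩,.a ⟨true,0,⟨0,[(20,0),(23,0)]⟩,⟨0,[(41,
  0)]⟩⟩ ⟨false,1,⟨1,[(25,0),(0,0),(17,0)]⟩,⟨3,[(20,1),(15,0),(3,1),(2,0)]⟩⟩ ⟨true,1,⟨0,[(2,0),(17,
  0),(23,0)]⟩,⟨0,[(3,0),(10,0)]⟩⟩,.o ⟨false,0,⟨0,[(26,0)]⟩,⟨0,[(2,0)]⟩⟩,.e ⟨true,0,⟨0,[]⟩,⟨0,[(46,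
  0)]⟩⟩ ⟨true,1,⟨1,[(2,1),(17,1),(22,0),(0,0)]⟩,⟨0,[(3,0),(10,0)]⟩⟩]⟩))) (.Q [0,0,0,0,-1,0,-1,-1,1,
  0,1,-1] (.p true [0,0,1] [0,0,0,0,1] (⟨0,[(33,0)]⟩,⟨0,[(32,0)]⟩) .k 2 (⟨0,[(26,0)]⟩,⟨0,[(25,0)]⟩)
  .k (.r (-2) ⟨1,[(23,0),(0,0),(3,1),(2,1),(9,0),(0,1)]⟩ ⟨9,[(5,1),(1,4),(5,1),(2,0),(20,1)]⟩)) (.Q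
  [0,0,0,0,0,-1,0,0,0,1,0,-1] (.ed true [0,1,0,0,1] .k) (.S ⟨1,0,[0,-1],[1,0,0,0,-1],[],(⟨0,[(27,
  0)]⟩,⟨0,[(28,0)]⟩),⟨0,[(0,0)]⟩,.k,(.r (-1) ⟨3,[(19,1),(23,0),(0,2)]⟩ ⟨4,[(17,0),(0,1),(6,0),(0,0),
  (3,2),(2,2),(8,0)]⟩),⟨true,0,⟨0,[(46,0)]⟩,⟨0,[]⟩⟩,⟨false,1,⟨1,[(25,0),(0,0),(17,0)]⟩,⟨0,[]⟩⟩,
  ⟨false,0,⟨0,[(42,0)]⟩,⟨1,[(11,0),(19,0),(12,1)]⟩⟩,⟨true,0,⟨0,[(42,0)]⟩,⟨1,[(11,0),(19,0)]⟩⟩,[.o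
  ⟨false,2,⟨1,[(25,1),(10,0),(7,0)]⟩,⟨0,[(1,0),(28,0)]⟩⟩,.a ⟨true,2,⟨0,[(25,0),(18,0)]⟩,⟨0,[(1,0),
  (12,0),(5,0)]⟩⟩ ⟨false,1,⟨1,[(43,0),(0,0)]⟩,⟨0,[(46,0)]⟩⟩ ⟨true,1,⟨0,[(44,0)]⟩,⟨1,[(9,0),(4,0),
  (18,0),(5,0)]⟩⟩,.e ⟨false,1,⟨1,[(25,0),(0,0),(17,0)]⟩,⟨0,[]⟩⟩ ⟨false,1,⟨0,[(44,0)]⟩,⟨0,[(46,0)]⟩⟩,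
  .o ⟨false,1,⟨2,[(5,1),(6,0),(8,0),(3,0),(7,0),(8,1),(1,0)]⟩,⟨1,[(2,1),(33,0),(6,0)]⟩⟩]⟩) (.Q [0,0,
  -1,0,-1,0,1,0,1,1,-1,-1] (.p false [0,0,1] [1,0,0,0,-1] (⟨0,[(35,0)]⟩,⟨0,[(34,0)]⟩) .k 2 (⟨0,[(27,
  0)]⟩,⟨0,[(28,0)]⟩) .k (.r (-1) ⟨1,[(25,0),(0,0),(3,1),(2,1),(9,0)]⟩ ⟨1,[(7,0),(9,0),(26,0)]⟩))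
  (.R ⟨0,false,false,true,[1,0,0,0,-1],[0,0,1],[0,0,0,-1],(⟨0,[(28,0)]⟩,⟨0,[(29,0)]⟩),(⟨0,[(36,0)]⟩,
  ⟨0,[(35,0)]⟩),⟨0,[(1,0)]⟩,.k,.k,(.r (-1) ⟨3,[(20,1),(23,0),(0,2)]⟩ ⟨4,[(18,0),(0,1),(6,0),(0,0),
  (3,2),(2,2),(8,0)]⟩),.k,.k,.k,⟨true,0,⟨16,[(8,9),(1,2),(2,5),(18,3),(1,1),(10,11)]⟩,⟨0,[(31,0),(2,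
  0),(8,0)]⟩⟩,⟨false,(-1),⟨0,[(0,0)]⟩,⟨1,[(26,1),(7,1),(2,0),(6,0)]⟩⟩,⟨true,0,⟨0,[(42,0)]⟩,⟨0,[(43,
  0)]⟩⟩,⟨false,(-1),⟨0,[(3,0),(27,0)]⟩,⟨1,[(6,1),(9,0),(1,0),(15,1),(8,0),(1,2)]⟩⟩,⟨false,0,⟨0,[]⟩,
  ⟨0,[]⟩⟩,⟨false,0,⟨0,[]⟩,⟨0,[]⟩⟩,[.o ⟨false,0,⟨0,[(31,0)]⟩,⟨1,[(2,1),(23,1),(10,0),(7,0)]⟩⟩,.e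
  ⟨false,1,⟨3,[(20,1),(23,0),(0,2)]⟩,⟨3,[(19,0),(11,0),(2,0),(5,0),(2,2)]⟩⟩ ⟨false,0,⟨1,[(3,1),(27,
  1),(12,0),(0,0)]⟩,⟨1,[(6,1),(9,0),(1,0),(15,1),(8,0),(1,0)]⟩⟩,.a ⟨true,1,⟨0,[(26,0)]⟩,⟨0,[(3,
  0)]⟩⟩ ⟨false,1,⟨1,[(12,0),(19,0),(12,1)]⟩,⟨0,[(43,0)]⟩⟩ ⟨true,(-1),⟨0,[(3,0),(27,0)]⟩,⟨1,[(6,1),
  (9,0),(1,0),(15,1),(8,0),(1,0)]⟩⟩,.o ⟨false,1,⟨2,[(6,1),(6,0),(8,0),(3,0),(7,0),(8,1),(1,0)]⟩,⟨1,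
  [(3,1),(33,0),(6,0)]⟩⟩]⟩) (.Q [0,-2,0,0,2,0,1,1,-1,0,-1,1] (.p false [0,0,1] [0,0,0,0,1] (⟨0,[(36,
  0)]⟩,⟨0,[(35,0)]⟩) .k 2 (⟨0,[(29,0)]⟩,⟨0,[(28,0)]⟩) .k (.r (-2) ⟨1,[(26,0),(0,0),(3,1),(2,1),(9,
  0),(0,1)]⟩ ⟨9,[(8,1),(1,4),(5,1),(2,0),(20,1)]⟩)) (.R ⟨0,false,false,true,[1,0,0,0,-1],[1,0,-1],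
  [0,0,0,-1],(⟨0,[(29,0)]⟩,⟨0,[(30,0)]⟩),(⟨0,[(36,0)]⟩,⟨0,[(37,0)]⟩),⟨0,[(2,0)]⟩,.k,.k,(.r (-1) ⟨3,
  [(21,1),(23,0),(0,2)]⟩ ⟨10,[(0,0),(0,1),(17,1),(0,4),(1,1),(5,2),(3,5),(2,4)]⟩),.k,.k,.k,⟨false,2,
  ⟨0,[(16,0),(18,0),(9,0),(0,0)]⟩,⟨6,[(11,2),(5,2),(1,0),(21,1),(2,4)]⟩⟩,⟨true,0,⟨1,[(4,1),(30,1),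
  (2,0),(6,0)]⟩,⟨32,[(0,20),(6,7),(1,3),(1,22),(1,5),(1,2),(6,4),(4,3)]⟩⟩,⟨true,0,⟨0,[(43,0)]⟩,⟨0,
  [(44,0)]⟩⟩,⟨false,(-1),⟨0,[(8,0)]⟩,⟨0,[(0,0)]⟩⟩,⟨false,0,⟨0,[]⟩,⟨0,[]⟩⟩,⟨false,0,⟨0,[]⟩,⟨0,[]⟩⟩,
  [.o ⟨false,0,⟨19,[(1,6),(1,6),(7,2),(5,3),(4,0),(10,5),(4,6),(2,4)]⟩,⟨0,[(32,0),(13,0)]⟩⟩,.a
  ⟨true,0,⟨13,[(1,3),(1,3),(5,2),(9,0),(2,3),(10,5),(12,4)]⟩,⟨1,[(0,0),(3,0),(11,0),(5,0)]⟩⟩ ⟨false,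
  1,⟨3,[(21,1),(23,0),(0,2)]⟩,⟨4,[(1,0),(18,0),(1,0),(5,0),(3,0),(8,0),(2,2)]⟩⟩ ⟨true,(-1),⟨0,[(3,
  0)]⟩,⟨6,[(0,2),(0,3),(12,0),(1,1),(5,1),(1,1),(7,1),(2,0)]⟩⟩,.e ⟨false,1,⟨1,[(13,0),(19,0),(12,
  1)]⟩,⟨0,[(44,0)]⟩⟩ ⟨false,(-1),⟨0,[(3,0)]⟩,⟨0,[(0,0),(47,0)]⟩⟩,.o ⟨false,1,⟨9,[(0,1),(0,3),(5,3),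
  (11,1),(3,2),(0,0)]⟩,⟨1,[(4,1),(33,0),(6,0)]⟩⟩]⟩) (.K ⟨0,[-1,0,1,0,1],(-1),(-1),(⟨0,[(2,0),(23,
  0)]⟩,⟨0,[(29,0),(6,0)]⟩),.k,(.r (-1) ⟨0,[(16,0),(18,0),(9,0)]⟩ ⟨17,[(9,2),(9,10),(0,1),(2,0),(0,
  0),(8,1),(12,10)]⟩),(.r 0 ⟨0,[(32,0),(2,0),(8,0)]⟩ ⟨27,[(9,11),(11,1),(2,7),(8,15),(4,3),(6,0),(0,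
  22)]⟩),.k,.k,[⟨0,[(4,0)]⟩,⟨0,[(1,0)]⟩,⟨9,[(1,9),(15,5),(1,1),(0,1),(24,0),(0,0)]⟩,⟨0,[(16,0),(5,
  0),(5,0)]⟩]⟩)))) (.Q [0,0,0,0,0,-1,0,0,0,1,0,-1] (.ed true [0,1,0,0,1] .k) (.R ⟨1,false,false,
  true,[1,0,0,0,-1],[1,-1,-1],[],(⟨0,[(27,0)]⟩,⟨0,[(28,0)]⟩),(⟨0,[(23,0)]⟩,⟨0,[(35,0),(2,0)]⟩),⟨0,
  [(0,0)]⟩,.k,.k,(.r (-1) ⟨3,[(19,1),(23,0),(0,2)]⟩ ⟨1,[(1,0),(15,0),(8,0),(6,0),(5,0)]⟩),(.r (-1)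
  ⟨0,[(30,0),(2,0),(8,0),(1,0)]⟩ ⟨15,[(7,5),(8,5),(1,1),(2,0),(0,0),(8,7)]⟩),.k,.k,⟨true,1,⟨0,[(30,
  0),(2,0),(8,0),(1,0)]⟩,⟨3,[(7,1),(1,1),(1,0),(19,0)]⟩⟩,⟨false,0,⟨1,[(2,1),(30,1),(2,0),(6,0)]⟩,
  ⟨21,[(1,17),(13,11),(1,5),(4,1),(2,3),(10,0),(6,4)]⟩⟩,⟨true,0,⟨0,[(46,0)]⟩,⟨0,[]⟩⟩,⟨false,(-1),⟨0,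
  [(4,0)]⟩,⟨0,[(1,0),(40,0),(1,0)]⟩⟩,⟨false,0,⟨0,[(42,0)]⟩,⟨1,[(11,0),(19,0),(12,1)]⟩⟩,⟨false,(-1),
  ⟨0,[(6,0)]⟩,⟨0,[(1,0),(42,0)]⟩⟩,[.o ⟨false,0,⟨23,[(4,6),(0,6),(1,6),(1,3),(11,0),(9,5),(1,10),(2,
  7)]⟩,⟨0,[(30,0),(11,0),(1,0)]⟩⟩,.e ⟨false,1,⟨1,[(43,0),(0,0)]⟩,⟨0,[(46,0)]⟩⟩ ⟨false,0,⟨1,[(4,1),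
  (38,0),(0,0)]⟩,⟨0,[(1,0),(40,0)]⟩⟩,.a ⟨true,1,⟨0,[(25,0)]⟩,⟨0,[(2,0)]⟩⟩ ⟨false,1,⟨1,[(25,0),(0,0),
  (17,0)]⟩,⟨0,[]⟩⟩ ⟨true,(-1),⟨0,[(4,0)]⟩,⟨0,[(1,0),(40,0)]⟩⟩,.o ⟨false,1,⟨3,[(1,0),(3,0),(3,0),(11,
  0),(3,1),(7,0),(2,0),(7,0)]⟩,⟨1,[(2,1),(33,0),(6,0)]⟩⟩]⟩) (.R ⟨0,false,false,false,[1,0,0,0,-1],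
  [1,0,-1],[0,1],(⟨0,[(27,0)]⟩,⟨0,[(28,0)]⟩),(⟨0,[(34,0)]⟩,⟨0,[(35,0)]⟩),⟨0,[(0,0)]⟩,.k,.k,(.r (-1)
  ⟨3,[(19,1),(23,0),(0,2)]⟩ ⟨1,[(1,0),(15,0),(8,0),(6,0),(5,0)]⟩),.k,.k,.k,⟨false,1,⟨0,[(30,0),(2,
  0),(9,0)]⟩,⟨1,[(7,0),(9,0),(26,0)]⟩⟩,⟨true,0,⟨1,[(2,1),(30,1),(2,0),(6,0)]⟩,⟨3,[(1,2),(5,0),(1,1),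
  (2,0),(12,0),(18,0)]⟩⟩,⟨false,0,⟨0,[(46,0)]⟩,⟨0,[(44,0)]⟩⟩,⟨true,(-1),⟨0,[(6,0)]⟩,⟨0,[(1,0)]⟩⟩,
  ⟨false,0,⟨0,[]⟩,⟨0,[]⟩⟩,⟨false,0,⟨0,[]⟩,⟨0,[]⟩⟩,[.e ⟨false,0,⟨3,[(20,1),(15,0),(3,1),(2,0)]⟩,⟨1,
  [(25,0),(0,0),(17,0)]⟩⟩ ⟨false,0,⟨1,[(6,1),(36,0),(0,0)]⟩,⟨0,[(1,0)]⟩⟩,.o ⟨false,1,⟨5,[(15,2),(1,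
  0),(13,1),(1,3),(2,2),(5,0),(1,3)]⟩,⟨0,[(30,0)]⟩⟩,.a ⟨true,1,⟨0,[(25,0)]⟩,⟨0,[(2,0)]⟩⟩ ⟨true,0,⟨0,
  [(46,0)]⟩,⟨0,[]⟩⟩ ⟨false,0,⟨0,[(6,0),(37,0)]⟩,⟨0,[(1,0)]⟩⟩,.o ⟨false,1,⟨3,[(1,0),(3,0),(3,0),(11,
  0),(3,1),(7,0),(2,0),(7,0)]⟩,⟨1,[(2,1),(33,0),(6,0)]⟩⟩]⟩)))) (.Q [0,0,0,0,0,-1,0,0,0,1,0,-1] (.ed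
  true [0,1,0,0,1] .k) (.S ⟨1,0,[0,-1],[1,0,0,0,-1],[1,0,0,-1],(⟨0,[(25,0)]⟩,⟨0,[(26,0)]⟩),⟨0,[(0,
  0)]⟩,.k,(.r (-1) ⟨3,[(17,1),(23,0),(0,2)]⟩ ⟨4,[(15,0),(0,1),(6,0),(0,0),(3,2),(2,2),(8,0)]⟩),
  ⟨true,0,⟨1,[(9,0),(19,0)]⟩,⟨0,[(40,0)]⟩⟩,⟨false,1,⟨1,[(23,0),(0,0),(17,0)]⟩,⟨0,[]⟩⟩,⟨false,0,⟨0,
  []⟩,⟨1,[(23,0),(0,0),(17,0)]⟩⟩,⟨true,0,⟨0,[(40,0)]⟩,⟨1,[(9,0),(19,0)]⟩⟩,[.e ⟨false,1,⟨1,[(9,0),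
  (19,0),(11,0),(0,0)]⟩,⟨0,[(40,0)]⟩⟩ ⟨false,1,⟨1,[(41,0),(0,0)]⟩,⟨0,[(44,0)]⟩⟩,.o ⟨false,2,⟨5,[(1,
  1),(1,3),(3,1),(23,1),(2,0),(5,1),(1,8)]⟩,⟨0,[(4,0),(23,0)]⟩⟩,.o ⟨false,1,⟨5,[(1,1),(1,3),(3,1),
  (23,1),(2,0),(5,1),(1,2)]⟩,⟨0,[(24,0)]⟩⟩,.a ⟨true,0,⟨6,[(1,5),(3,1),(1,3),(2,0),(12,0),(7,6),(10,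
  1)]⟩,⟨3,[(17,1),(0,3),(5,3),(16,0),(0,2)]⟩⟩ ⟨false,1,⟨3,[(17,1),(23,0),(0,2)]⟩,⟨5,[(15,1),(7,0),
  (0,0),(3,1),(2,1),(8,1),(1,0)]⟩⟩ ⟨true,1,⟨1,[(41,0),(0,0)]⟩,⟨1,[(7,0),(4,0),(18,0),(5,0)]⟩⟩]⟩)
  (.R ⟨0,false,false,false,[1,0,0,0,-1],[0,1,1],[0,0,2,1,0,0,0,1],(⟨0,[(25,0)]⟩,⟨0,[(26,0)]⟩),(⟨0,
  [(33,0),(2,0)]⟩,⟨0,[(21,0)]⟩),⟨0,[(0,0)]⟩,.k,.k,(.r (-1) ⟨3,[(17,1),(23,0),(0,2)]⟩ ⟨4,[(15,0),(0,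
  1),(6,0),(0,0),(3,2),(2,2),(8,0)]⟩),(.r (-1) ⟨27,[(5,11),(11,1),(2,7),(8,15),(4,3),(6,0),(0,22)]⟩
  ⟨0,[(28,0),(2,0),(8,0)]⟩),.k,.k,⟨true,0,⟨3,[(19,0),(0,0),(10,1)]⟩,⟨0,[]⟩⟩,⟨false,0,⟨0,[(13,0),(4,
  0),(5,0),(3,0),(13,0)]⟩,⟨5,[(1,1),(1,3),(3,1),(23,7),(2,0),(5,1),(1,2)]⟩⟩,⟨true,0,⟨5,[(15,1),(7,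
  0),(0,0),(3,7),(2,7),(8,1),(1,0)]⟩,⟨0,[(13,0)]⟩⟩,⟨false,0,⟨0,[(18,0),(5,0),(3,0),(13,0)]⟩,⟨2,[(1,
  1),(1,0),(1,0),(1,1),(5,1),(17,4),(2,0),(7,2)]⟩⟩,⟨false,0,⟨0,[]⟩,⟨0,[]⟩⟩,⟨false,0,⟨0,[]⟩,⟨0,[]⟩⟩,
  [.a ⟨true,0,⟨0,[(18,0),(9,0),(13,0)]⟩,⟨16,[(5,8),(1,0),(2,1),(18,6),(1,11),(10,3)]⟩⟩ ⟨false,1,⟨1,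
  [(23,0),(0,0),(3,1),(2,1),(8,1),(1,0)]⟩,⟨0,[(13,0)]⟩⟩ ⟨true,0,⟨0,[(18,0),(5,0),(3,0),(13,0)]⟩,⟨1,
  [(1,1),(3,1),(1,1),(23,3),(2,0),(7,0)]⟩⟩,.o ⟨false,1,⟨0,[(28,0),(11,0),(1,0)]⟩,⟨23,[(2,6),(0,6),
  (1,6),(1,3),(11,0),(9,5),(1,10),(2,7)]⟩⟩,.o ⟨false,1,⟨5,[(1,1),(1,3),(3,1),(23,1),(2,0),(5,1),(1,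
  2)]⟩,⟨0,[(24,0)]⟩⟩,.e ⟨false,1,⟨0,[(28,0),(2,0),(8,0),(1,0)]⟩,⟨17,[(5,11),(9,1),(0,1),(2,0),(0,0),
  (8,1),(12,1)]⟩⟩ ⟨false,1,⟨0,[(1,0),(16,0),(5,1),(17,0)]⟩,⟨1,[(1,1),(3,1),(1,1),(23,3),(2,0),(7,
  0)]⟩⟩]⟩))) (.R ⟨1,true,false,false,[1,0,-1],[1,0,0,0,-1],[0,1,0,0,0,0,0,-1],(⟨0,[(30,0)]⟩,⟨0,[(31,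
  0)]⟩),(⟨0,[(23,0)]⟩,⟨0,[(24,0)]⟩),⟨0,[(19,0)]⟩,.k,.k,.k,.k,(.r 0 ⟨15,[(3,5),(8,5),(1,1),(2,0),(0,
  0),(8,7)]⟩ ⟨0,[(0,0),(21,0),(6,0)]⟩),.k,⟨false,(-1),⟨6,[(5,2),(5,3),(4,1),(15,0),(2,3),(0,0)]⟩,⟨5,
  [(0,3),(6,1),(14,3),(6,5),(9,2),(0,4)]⟩⟩,⟨true,0,⟨44,[(0,32),(0,4),(1,18),(1,19),(1,5),(1,2),(6,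
  1),(4,6)]⟩,⟨0,[(22,0),(6,0)]⟩⟩,⟨true,0,⟨0,[(42,0)]⟩,⟨0,[]⟩⟩,⟨false,2,⟨5,[(0,3),(6,1),(13,2),(0,0),
  (17,4)]⟩,⟨0,[(2,0)]⟩⟩,⟨false,0,⟨0,[(38,0)]⟩,⟨1,[(7,0),(19,0),(12,1)]⟩⟩,⟨true,1,⟨0,[(0,0)]⟩,⟨1,[(2,
  1),(4,0),(19,0)]⟩⟩,[]⟩))))) (.Q [0,0,-1,0,0,0,2,1,0,1,-2] (.p false [0,0,1] [1,0,-1] (⟨0,[(27,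
  0)]⟩,⟨0,[(26,0)]⟩) .k 2 (⟨0,[(26,0)]⟩,⟨0,[(27,0)]⟩) .k (.r (-2) ⟨0,[(22,1),(2,1),(9,0),(0,0)]⟩ ⟨2,
  [(1,0),(2,0),(2,2),(1,0),(13,0),(12,0)]⟩)) (.R ⟨0,false,false,true,[1,-1,-1],[0,0,1],[1],(⟨0,[(16,
  0)]⟩,⟨1,[(1,0),(25,0),(0,1)]⟩),(⟨0,[(28,0)]⟩,⟨0,[(27,0)]⟩),⟨0,[(1,0)]⟩,.k,.k,(.x (-1) ⟨3,[(14,1),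
  (1,3),(1,0),(0,0),(6,3),(2,2),(0,3)]⟩ ⟨3,[(0,1),(0,3),(6,1),(4,1),(22,0),(0,0)]⟩),(.r 1 ⟨10,[(2,
  7),(2,0),(2,12),(3,2),(11,0),(12,5)]⟩ ⟨1,[(18,0),(0,0),(3,3),(2,3),(8,1),(0,0),(0,1)]⟩),.k,.k,
  ⟨true,0,⟨5,[(2,0),(2,0),(2,2),(1,0),(13,0),(12,3)]⟩,⟨0,[(23,0),(2,0)]⟩⟩,⟨false,0,⟨6,[(0,5),(7,3),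
  (1,1),(4,0),(20,1)]⟩,⟨1,[(26,3),(2,0),(6,0)]⟩⟩,⟨false,1,⟨0,[(23,0),(2,0),(8,0),(1,0)]⟩,⟨25,[(5,5),
  (2,17),(3,3),(1,0),(0,0),(8,7),(12,5)]⟩⟩,⟨true,0,⟨0,[(13,0),(9,1),(13,0)]⟩,⟨15,[(2,5),(5,21),(5,
  1),(9,3),(1,27),(2,6),(7,4)]⟩⟩,⟨false,0,⟨0,[]⟩,⟨0,[]⟩⟩,⟨false,0,⟨0,[]⟩,⟨0,[]⟩⟩,[.o ⟨false,0,⟨0,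
  [(23,0)]⟩,⟨5,[(8,2),(1,0),(13,1),(1,3),(2,2),(5,0),(1,3)]⟩⟩,.a ⟨true,0,⟨0,[(0,0),(25,0)]⟩,⟨5,[(8,
  2),(1,0),(13,1),(1,3),(8,0),(1,0)]⟩⟩ ⟨false,1,⟨1,[(36,0),(0,0)]⟩,⟨0,[(39,0)]⟩⟩ ⟨true,0,⟨0,[(0,
  0)]⟩,⟨15,[(2,5),(5,5),(5,1),(9,3),(1,27),(2,6),(7,4)]⟩⟩,.a ⟨true,0,⟨0,[(26,0)]⟩,⟨0,[(22,0)]⟩⟩
  ⟨true,0,⟨0,[]⟩,⟨0,[(39,0)]⟩⟩ ⟨false,0,⟨0,[(0,0)]⟩,⟨5,[(8,2),(1,0),(13,1),(1,9),(2,2),(5,0),(1,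
  3)]⟩⟩,.a ⟨true,0,⟨3,[(14,0),(0,0),(10,5)]⟩,⟨3,[(0,1),(7,1),(4,1),(22,0),(0,0)]⟩⟩ ⟨false,1,⟨1,[(36,
  0),(0,0)]⟩,⟨3,[(14,0),(0,0),(10,1)]⟩⟩ ⟨true,0,⟨2,[(0,1),(7,0),(4,0),(9,1),(12,0)]⟩,⟨15,[(2,5),(5,
  5),(5,1),(9,3),(1,27),(2,6),(7,4)]⟩⟩]⟩) (.R ⟨0,false,false,true,[1,-1,-1],[0,0,1],[1],(⟨0,[(16,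
  0)]⟩,⟨1,[(1,0),(25,0),(0,1)]⟩),(⟨0,[(28,0)]⟩,⟨0,[(27,0)]⟩),⟨0,[(1,0)]⟩,.k,.k,(.x (-1) ⟨3,[(14,1),
  (1,3),(1,0),(0,0),(6,3),(2,2),(0,3)]⟩ ⟨0,[(1,0),(6,0),(4,0),(9,0),(13,0)]⟩),(.r 1 ⟨4,[(0,0),(1,2),
  (3,0),(1,5),(3,0),(24,1)]⟩ ⟨1,[(18,0),(0,0),(3,3),(2,3),(8,1),(0,0),(0,1)]⟩),.k,.k,⟨true,0,⟨3,[(0,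
  0),(5,0),(1,1),(1,0),(26,1)]⟩,⟨0,[(23,0),(2,0)]⟩⟩,⟨false,0,⟨2,[(6,0),(1,2),(4,0),(8,0),(0,2),(11,
  1),(1,1)]⟩,⟨1,[(26,3),(2,0),(6,0)]⟩⟩,⟨false,1,⟨0,[(23,0),(2,0),(8,0),(1,0)]⟩,⟨10,[(0,3),(5,0),(1,
  6),(3,1),(2,2),(21,0)]⟩⟩,⟨true,0,⟨0,[(13,0),(9,1),(13,0)]⟩,⟨10,[(0,14),(5,0),(1,6),(3,1),(2,2),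
  (21,0)]⟩⟩,⟨false,0,⟨0,[]⟩,⟨0,[]⟩⟩,⟨false,0,⟨0,[]⟩,⟨0,[]⟩⟩,[.o ⟨false,0,⟨0,[(23,0)]⟩,⟨9,[(0,3),(7,
  1),(2,1),(12,1),(4,2),(7,6)]⟩⟩,.e ⟨false,1,⟨1,[(36,0),(0,0)]⟩,⟨0,[(39,0)]⟩⟩ ⟨false,1,⟨1,[(22,1),
  (0,1),(12,0),(0,0)]⟩,⟨0,[(0,0)]⟩⟩,.e ⟨true,0,⟨0,[]⟩,⟨0,[(39,0)]⟩⟩ ⟨true,0,⟨0,[(22,0),(0,0)]⟩,⟨0,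
  [(0,0)]⟩⟩,.a ⟨true,0,⟨3,[(14,0),(0,0),(10,5)]⟩,⟨0,[(8,0),(4,0),(9,0),(13,0)]⟩⟩ ⟨false,1,⟨1,[(36,
  0),(0,0)]⟩,⟨3,[(14,0),(0,0),(10,1)]⟩⟩ ⟨true,0,⟨0,[(8,0),(4,0),(9,1),(13,0)]⟩,⟨6,[(0,4),(4,0),(8,
  1),(9,1),(1,2),(10,0)]⟩⟩]⟩))))))

theorem ok5 : chk K t5 r9 = true := by decide +kernel

noncomputable def t7 : Tre :=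
  (.I [0,1,2,2,0,0,0,2] (.S ⟨1,0,[0,0,0,0,0,0,0,-1],[1,0,-1],[1,1,0,-1,0,0,0,-1],(⟨0,[(22,0)]⟩,⟨0,
  [(23,0)]⟩),⟨0,[(11,0)]⟩,.k,.k,⟨true,0,⟨0,[(29,0)]⟩,⟨0,[(30,0)]⟩⟩,⟨false,1,⟨1,[(13,0),(0,0),(17,
  0)]⟩,⟨0,[]⟩⟩,⟨false,0,⟨0,[]⟩,⟨1,[(13,0),(0,0),(17,0)]⟩⟩,⟨true,0,⟨0,[(30,0)]⟩,⟨0,[(29,0)]⟩⟩,[.e
  ⟨false,0,⟨6,[(3,2),(0,1),(2,0),(1,0),(0,0),(8,3)]⟩,⟨0,[(0,0),(2,0),(28,0)]⟩⟩ ⟨false,0,⟨9,[(3,5),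
  (1,1),(0,1),(24,0),(0,0)]⟩,⟨7,[(0,3),(6,1),(21,3),(1,2),(0,4)]⟩⟩,.o ⟨false,1,⟨20,[(1,5),(1,7),(1,
  3),(3,6),(9,8),(4,3),(7,14)]⟩,⟨0,[(18,0)]⟩⟩,.o ⟨false,1,⟨7,[(1,3),(7,1),(3,2),(0,2),(9,0)]⟩,⟨1,
  [(2,0),(0,0),(1,0),(12,0),(13,0)]⟩⟩,.a ⟨true,0,⟨0,[(21,0)]⟩,⟨0,[(17,0)]⟩⟩ ⟨false,0,⟨19,[(3,11),(1,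
  5),(1,9),(1,0),(0,0),(8,1),(12,5)]⟩,⟨3,[(0,1),(12,0),(0,0),(17,2)]⟩⟩ ⟨true,0,⟨9,[(3,5),(1,1),(0,
  1),(24,0),(0,0)]⟩,⟨2,[(0,0),(1,0),(18,0),(7,0)]⟩⟩]⟩) (.Q [0,0,2,0,-1,0,1,0,0,1,-1] (.p false [0,0,
  1] [1] (⟨0,[(23,0)]⟩,⟨0,[(22,0)]⟩) .k 1 (⟨0,[]⟩,⟨0,[]⟩) .k .k) (.K ⟨0,[1,1,-1],1,0,(⟨0,[(23,0),(3,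
  0)]⟩,⟨0,[(13,0)]⟩),.k,.k,(.r 1 ⟨0,[(6,0)]⟩ ⟨3,[(3,3),(4,1),(13,3),(9,4),(0,2)]⟩),(.r 1 ⟨4,[(1,1),
  (3,0),(0,4),(13,0)]⟩ ⟨0,[(2,0),(0,0),(15,0),(3,0),(0,0),(8,0)]⟩),.k,[⟨0,[(2,0)]⟩,⟨0,[(0,0)]⟩,⟨0,
  [(3,0),(19,0),(0,0)]⟩,⟨30,[(2,14),(1,6),(1,22),(1,3),(11,0),(4,7),(2,12)]⟩]⟩) (.R ⟨1,true,false,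
  false,[0,0,1],[0,1],[0,0,0,0,0,0,0,1],(⟨0,[(24,0)]⟩,⟨0,[(23,0)]⟩),(⟨0,[(27,0)]⟩,⟨0,[(26,0)]⟩),⟨0,
  [(13,0)]⟩,.k,.k,.k,.k,(.r (-2) ⟨3,[(3,3),(4,1),(13,3),(9,4),(0,2)]⟩ ⟨0,[(6,0)]⟩),.k,⟨true,1,⟨4,
  [(2,2),(0,4),(4,0),(0,1),(8,0),(14,3)]⟩,⟨2,[(1,0),(4,0),(2,2),(0,2),(22,0)]⟩⟩,⟨false,1,⟨0,[(2,0),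
  (15,0)]⟩,⟨0,[(21,0)]⟩⟩,⟨false,1,⟨1,[(14,0),(0,0),(17,0)]⟩,⟨0,[]⟩⟩,⟨true,0,⟨12,[(0,2),(0,0),(0,1),
  (3,4),(2,4),(10,5),(12,4)]⟩,⟨0,[(3,0)]⟩⟩,⟨true,0,⟨0,[(31,0)]⟩,⟨0,[(30,0)]⟩⟩,⟨false,0,⟨2,[(0,2),(0,
  0),(4,0),(2,5),(0,2),(22,3)]⟩,⟨0,[(3,0),(26,0),(2,0)]⟩⟩,[]⟩)))

theorem ok7 : chk K t7 r8 = true := by decide +kernel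

noncomputable def t10 : Tre :=
  (.Q [0,1,0,0,0,0,-1,-1,0,-1,1] (.p true [0,0,1] [1] (⟨0,[(22,0)]⟩,⟨0,[(21,0)]⟩) .k 1 (⟨0,[]⟩,⟨0,
  []⟩) .k .k) (.Q [0,0,0,0,0,0,-1,-1,0,0,1] (.p true [0,0,1] [] (⟨0,[(23,0)]⟩,⟨0,[(22,0)]⟩) .k 0
  (⟨0,[]⟩,⟨0,[]⟩) .k .k) (.I [1,1,-2,-1,0,0,0,-1] (.R ⟨0,false,false,false,[1,-1,-1],[1,-1],[0,0,1],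
  (⟨0,[(13,0)]⟩,⟨0,[(4,0),(22,0)]⟩),(⟨0,[(27,0)]⟩,⟨0,[(28,0)]⟩),⟨0,[(4,0)]⟩,.k,.k,(.r (-1) ⟨9,[(1,
  3),(1,7),(5,5),(1,0),(0,0),(8,5),(12,1)]⟩ ⟨0,[(5,0),(26,0)]⟩),.k,.k,.k,⟨false,0,⟨7,[(5,2),(1,0),
  (0,1),(23,0),(1,0)]⟩,⟨3,[(9,1),(23,2),(0,0)]⟩⟩,⟨true,0,⟨0,[(3,0),(6,0),(0,0)]⟩,⟨0,[(23,0)]⟩⟩,
  ⟨true,0,⟨0,[(5,0)]⟩,⟨0,[(0,0)]⟩⟩,⟨false,1,⟨0,[(20,0),(13,0)]⟩,⟨0,[(1,0)]⟩⟩,⟨false,0,⟨0,[]⟩,⟨0,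
  []⟩⟩,⟨false,0,⟨0,[]⟩,⟨0,[]⟩⟩,[.o ⟨false,1,⟨1,[(26,0),(4,1),(2,0)]⟩,⟨0,[(32,0)]⟩⟩,.e ⟨false,1,⟨1,
  [(15,0),(0,0),(17,0)]⟩,⟨3,[(10,1),(15,0),(3,1),(2,0)]⟩⟩ ⟨false,1,⟨0,[(3,0)]⟩,⟨2,[(5,0),(15,0),(1,
  1),(5,0),(2,1)]⟩⟩,.a ⟨true,0,⟨0,[(23,0)]⟩,⟨0,[(19,0)]⟩⟩ ⟨true,0,⟨3,[(11,0),(0,0),(10,1)]⟩,⟨3,[(10,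
  1),(15,0),(3,1),(2,0)]⟩⟩ ⟨false,1,⟨5,[(3,1),(5,1),(2,1),(13,0),(7,2)]⟩,⟨0,[(23,0),(8,0)]⟩⟩,.e
  ⟨false,1,⟨1,[(15,0),(0,0),(17,0)]⟩,⟨0,[]⟩⟩ ⟨false,1,⟨0,[(3,0)]⟩,⟨0,[(1,0),(3,0)]⟩⟩]⟩) (.R ⟨0,
  false,false,false,[1,-1,-1],[1,-1],[1],(⟨0,[(13,0)]⟩,⟨0,[(4,0),(22,0)]⟩),(⟨0,[(27,0)]⟩,⟨0,[(28,
  0)]⟩),⟨0,[(4,0)]⟩,.k,.k,(.r (-1) ⟨9,[(1,3),(1,7),(5,5),(1,0),(0,0),(8,5),(12,1)]⟩ ⟨0,[(5,0),(26,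
  0)]⟩),.k,.k,.k,⟨false,0,⟨0,[(32,0)]⟩,⟨1,[(31,1),(1,0),(0,0)]⟩⟩,⟨true,0,⟨2,[(0,0),(2,0),(2,1),(0,
  0)]⟩,⟨0,[(23,0)]⟩⟩,⟨true,0,⟨3,[(0,3),(9,1),(15,0),(3,1),(2,0)]⟩,⟨0,[(1,0),(4,0)]⟩⟩,⟨false,1,⟨0,
  [(20,0),(13,0)]⟩,⟨0,[(1,0)]⟩⟩,⟨false,0,⟨0,[]⟩,⟨0,[]⟩⟩,⟨false,0,⟨0,[]⟩,⟨0,[]⟩⟩,[.o ⟨false,1,⟨1,
  [(26,0),(4,1),(2,0)]⟩,⟨0,[(32,0)]⟩⟩,.e ⟨false,1,⟨1,[(33,0),(0,0)]⟩,⟨15,[(5,1),(5,0),(0,0),(8,1),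
  (7,5),(1,1)]⟩⟩ ⟨false,1,⟨0,[(3,0)]⟩,⟨2,[(5,0),(15,0),(1,1),(5,0),(2,1)]⟩⟩,.a ⟨true,0,⟨0,[(23,0)]⟩,
  ⟨0,[(19,0)]⟩⟩ ⟨true,0,⟨0,[]⟩,⟨15,[(5,1),(5,0),(0,0),(8,1),(7,5),(1,1)]⟩⟩ ⟨false,1,⟨5,[(3,1),(5,1),
  (2,1),(13,0),(7,2)]⟩,⟨0,[(23,0),(8,0)]⟩⟩,.e ⟨false,1,⟨1,[(33,0),(0,0)]⟩,⟨3,[(11,0),(0,0),(10,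
  1)]⟩⟩ ⟨false,1,⟨0,[(3,0)]⟩,⟨0,[(1,0),(3,0)]⟩⟩]⟩)) (.R ⟨2,true,false,false,[0,1],[0,0,1],[1,1,1],
  (⟨0,[]⟩,⟨0,[]⟩),(⟨0,[(24,0)]⟩,⟨0,[(23,0)]⟩),⟨0,[]⟩,.k,.k,.k,.k,.k,.k,⟨true,(-1),⟨0,[(6,0),(1,0)]⟩,
  ⟨1,[(0,1),(21,1),(9,0),(0,0)]⟩⟩,⟨false,0,⟨7,[(0,1),(1,1),(2,1),(0,1),(3,0),(0,0)]⟩,⟨0,[(22,0),(9,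
  0)]⟩⟩,⟨true,0,⟨0,[(30,0)]⟩,⟨0,[(31,0)]⟩⟩,⟨false,1,⟨9,[(0,3),(3,1),(3,5),(1,0),(0,0),(7,3),(13,
  9)]⟩,⟨0,[(1,0),(7,0),(23,0)]⟩⟩,⟨false,0,⟨0,[]⟩,⟨1,[(14,0),(0,0),(17,0)]⟩⟩,⟨true,0,⟨0,[(0,0)]⟩,⟨0,
  [(20,0)]⟩⟩,[]⟩)) (.Q [0,1,0,1,0,0,-1,-1,0,-1,1] (.p true [0,0,1] [1] (⟨0,[(23,0)]⟩,⟨0,[(22,0)]⟩)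
  .k 1 (⟨0,[]⟩,⟨0,[]⟩) .k .k) (.R ⟨2,true,false,true,[0,1],[1,1,-1],[1,1,1],(⟨0,[]⟩,⟨0,[]⟩),(⟨1,[(3,
  0),(19,2)]⟩,⟨0,[(13,0)]⟩),⟨0,[]⟩,.k,.k,.k,.k,.k,.k,⟨false,1,⟨1,[(1,1),(20,1),(2,0),(3,1),(2,0)]⟩,
  ⟨2,[(2,0),(3,1),(13,0),(11,0)]⟩⟩,⟨true,1,⟨1,[(22,1),(2,0),(6,0)]⟩,⟨0,[(1,0),(4,0),(1,0)]⟩⟩,⟨true,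
  0,⟨0,[(30,0)]⟩,⟨0,[(31,0)]⟩⟩,⟨false,1,⟨1,[(20,1),(4,0),(7,0)]⟩,⟨0,[(1,0)]⟩⟩,⟨false,0,⟨0,[]⟩,⟨1,
  [(14,0),(0,0),(17,0)]⟩⟩,⟨true,0,⟨0,[(0,0)]⟩,⟨0,[(1,0),(28,0)]⟩⟩,[]⟩) (.I [1,1,-2,-1,0,0,0,-1] (.Q
  [0,0,0,1,0,0,-1,-1,0,0,1] (.p true [0,0,1] [] (⟨0,[(25,0)]⟩,⟨0,[(24,0)]⟩) .k 0 (⟨0,[]⟩,⟨0,[]⟩) .k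
  .k) (.R ⟨2,true,false,false,[0,1],[0,0,1],[0,1,1,1],(⟨0,[]⟩,⟨0,[]⟩),(⟨0,[(26,0)]⟩,⟨0,[(25,0)]⟩),
  ⟨0,[]⟩,.k,.k,.k,.k,.k,.k,⟨true,(-1),⟨8,[(1,0),(6,7),(1,3),(0,1),(15,0),(2,0)]⟩,⟨1,[(2,1),(21,1),
  (2,0),(6,0)]⟩⟩,⟨false,0,⟨9,[(2,0),(0,1),(0,0),(2,3),(0,2),(4,0),(13,1)]⟩,⟨0,[(24,0),(9,0)]⟩⟩,
  ⟨true,0,⟨15,[(6,1),(5,0),(0,0),(8,1),(7,5),(1,1)]⟩,⟨0,[]⟩⟩,⟨false,1,⟨1,[(2,1),(13,0),(0,0),(9,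
  0)]⟩,⟨0,[(0,0)]⟩⟩,⟨false,0,⟨0,[(33,0)]⟩,⟨0,[(32,0),(2,0)]⟩⟩,⟨true,0,⟨0,[(2,0),(8,0),(15,0)]⟩,⟨0,
  [(22,0)]⟩⟩,[]⟩) (.Q [0,-1,-1,0,0,0,2,1,0,1,-2] (.p false [0,0,1] [1,0,-1] (⟨0,[(26,0)]⟩,⟨0,[(25,
  0)]⟩) .k 2 (⟨0,[(25,0)]⟩,⟨0,[(26,0)]⟩) .k (.r (-1) ⟨0,[(0,0),(2,0),(7,0),(12,1),(2,0),(6,0)]⟩ ⟨4,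
  [(1,3),(6,3),(1,1),(1,0),(0,0),(8,1),(12,3)]⟩)) (.R ⟨0,false,false,false,[1,-1,-1],[0,0,1],[1],
  (⟨0,[(15,0)]⟩,⟨1,[(4,0),(1,0),(16,0),(3,0)]⟩),(⟨0,[(27,0)]⟩,⟨0,[(26,0)]⟩),⟨0,[(6,0)]⟩,.k,.k,(.r
  (-1) ⟨9,[(2,3),(2,3),(5,5),(1,0),(0,0),(8,5),(12,5)]⟩ ⟨0,[(7,0),(26,0)]⟩),(.r 0 ⟨0,[(2,0),(6,0),
  (1,0),(24,0)]⟩ ⟨1,[(1,0),(2,0),(2,1),(4,0),(12,1),(2,0),(6,1)]⟩),.k,.k,⟨true,0,⟨9,[(2,3),(6,3),(1,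
  1),(1,0),(0,0),(8,1),(12,3)]⟩,⟨1,[(1,0),(2,0),(7,0),(12,1),(2,0)]⟩⟩,⟨false,0,⟨1,[(0,1),(1,0),(7,
  0)]⟩,⟨1,[(25,3),(2,0),(6,0)]⟩⟩,⟨true,0,⟨0,[(4,0),(7,0),(12,0),(2,0)]⟩,⟨19,[(2,11),(6,1),(1,5),(1,
  2),(0,2),(8,5),(12,1)]⟩⟩,⟨false,0,⟨0,[(4,1),(7,0),(15,0)]⟩,⟨9,[(2,13),(6,1),(3,3),(9,3),(1,15),(2,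
  2),(7,8)]⟩⟩,⟨false,0,⟨0,[]⟩,⟨0,[]⟩⟩,⟨false,0,⟨0,[]⟩,⟨0,[]⟩⟩,[.o ⟨false,0,⟨1,[(1,0),(2,0),(7,0),
  (15,0)]⟩,⟨1,[(23,1),(4,0),(7,0)]⟩⟩,.a ⟨true,0,⟨0,[(4,0)]⟩,⟨0,[(23,0)]⟩⟩ ⟨false,1,⟨1,[(35,0),(0,
  0)]⟩,⟨15,[(7,1),(5,0),(0,0),(8,1),(7,5),(1,1)]⟩⟩ ⟨true,0,⟨0,[(0,0)]⟩,⟨1,[(9,0),(1,0),(11,0),(1,2),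
  (2,0)]⟩⟩,.a ⟨true,0,⟨0,[(25,0)]⟩,⟨0,[(21,0)]⟩⟩ ⟨true,0,⟨0,[]⟩,⟨15,[(7,1),(5,0),(0,0),(8,1),(7,5),
  (1,1)]⟩⟩ ⟨false,0,⟨0,[(0,0)]⟩,⟨1,[(23,1),(1,1),(2,0),(7,0)]⟩⟩,.a ⟨true,0,⟨3,[(13,0),(0,0),(10,
  5)]⟩,⟨3,[(0,1),(1,1),(9,1),(22,0),(0,0)]⟩⟩ ⟨false,1,⟨1,[(35,0),(0,0)]⟩,⟨3,[(13,0),(0,0),(10,1)]⟩⟩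
  ⟨true,0,⟨3,[(0,3),(11,1),(15,0),(3,1),(2,0)]⟩,⟨1,[(9,0),(1,0),(11,0),(1,2),(2,0)]⟩⟩]⟩) (.R ⟨0,
  false,false,false,[1,-1,-1],[0,-1,1],[1],(⟨0,[(15,0)]⟩,⟨1,[(4,0),(1,0),(16,0),(3,0)]⟩),(⟨0,[(16,
  0)]⟩,⟨1,[(6,0),(19,2)]⟩),⟨0,[(6,0)]⟩,.k,.k,(.r (-1) ⟨9,[(2,3),(2,3),(5,5),(1,0),(0,0),(8,5),(12,
  5)]⟩ ⟨0,[(7,0),(26,0)]⟩),.k,.k,.k,⟨false,0,⟨3,[(2,0),(6,1),(0,0),(24,0),(0,0)]⟩,⟨0,[(1,0),(23,0),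
  (9,0)]⟩⟩,⟨true,(-1),⟨1,[(1,1),(0,0),(0,0),(1,0),(3,1),(2,0)]⟩,⟨1,[(25,3),(2,0),(6,0)]⟩⟩,⟨true,0,
  ⟨0,[(4,0),(7,0),(12,0),(2,0)]⟩,⟨19,[(2,11),(6,1),(1,5),(1,2),(0,2),(8,5),(12,1)]⟩⟩,⟨false,0,⟨1,
  [(1,0),(2,2),(7,0),(15,0)]⟩,⟨9,[(0,5),(1,3),(6,1),(13,7),(4,1),(6,0),(0,8)]⟩⟩,⟨false,0,⟨0,[]⟩,⟨0,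
  []⟩⟩,⟨false,0,⟨0,[]⟩,⟨0,[]⟩⟩,[.o ⟨false,0,⟨0,[(1,0)]⟩,⟨3,[(0,1),(9,1),(17,0),(5,1),(0,0),(0,1)]⟩⟩,
  .e ⟨false,1,⟨1,[(35,0),(0,0)]⟩,⟨15,[(7,1),(5,0),(0,0),(8,1),(7,5),(1,1)]⟩⟩ ⟨false,1,⟨3,[(3,1),(0,
  0),(0,1),(8,0),(7,0),(12,1)]⟩,⟨0,[(0,0),(33,0)]⟩⟩,.e ⟨true,0,⟨0,[]⟩,⟨15,[(7,1),(5,0),(0,0),(8,1),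
  (7,5),(1,1)]⟩⟩ ⟨true,0,⟨0,[(1,0),(19,0)]⟩,⟨0,[(0,0),(33,0)]⟩⟩,.a ⟨true,0,⟨3,[(13,0),(0,0),(10,
  5)]⟩,⟨0,[(5,0),(6,0)]⟩⟩ ⟨false,1,⟨1,[(35,0),(0,0)]⟩,⟨3,[(13,0),(0,0),(10,1)]⟩⟩ ⟨true,0,⟨0,[(1,0),
  (3,0),(6,0)]⟩,⟨7,[(0,7),(6,2),(1,0),(0,1),(23,0),(1,0)]⟩⟩]⟩))) (.R ⟨0,false,false,false,[1,-1,-1],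
  [1,-1],[0,0,1],(⟨0,[(13,0)]⟩,⟨1,[(2,0),(1,0),(16,0),(3,0)]⟩),(⟨0,[(27,0)]⟩,⟨0,[(28,0)]⟩),⟨0,[(4,
  0)]⟩,.k,.k,(.r (-1) ⟨4,[(3,3),(3,0),(1,3),(11,3),(12,1)]⟩ ⟨0,[(5,0),(26,0)]⟩),.k,.k,.k,⟨false,0,
  ⟨7,[(5,2),(1,0),(0,1),(23,0),(1,0)]⟩,⟨3,[(9,1),(23,2),(0,0)]⟩⟩,⟨true,0,⟨9,[(1,0),(0,1),(0,0),(2,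
  3),(0,2),(4,0),(13,1)]⟩,⟨0,[(23,0)]⟩⟩,⟨false,0,⟨0,[(0,0)]⟩,⟨0,[(3,0),(17,0)]⟩⟩,⟨true,0,⟨0,[(1,0),
  (8,0),(15,0)]⟩,⟨0,[(21,0)]⟩⟩,⟨false,0,⟨0,[]⟩,⟨0,[]⟩⟩,⟨false,0,⟨0,[]⟩,⟨0,[]⟩⟩,[.o ⟨false,1,⟨1,[(26,
  0),(4,1),(2,0)]⟩,⟨0,[(32,0)]⟩⟩,.e ⟨false,1,⟨1,[(15,0),(0,0),(17,0)]⟩,⟨3,[(10,1),(15,0),(3,1),(2,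
  0)]⟩⟩ ⟨false,1,⟨0,[(3,0)]⟩,⟨2,[(5,0),(15,0),(1,1),(5,0),(2,1)]⟩⟩,.a ⟨true,0,⟨0,[(23,0)]⟩,⟨0,[(19,
  0)]⟩⟩ ⟨true,0,⟨3,[(11,0),(0,0),(10,1)]⟩,⟨3,[(10,1),(15,0),(3,1),(2,0)]⟩⟩ ⟨false,1,⟨5,[(3,1),(5,1),
  (2,1),(13,0),(7,2)]⟩,⟨0,[(23,0),(8,0)]⟩⟩,.e ⟨false,1,⟨1,[(15,0),(0,0),(17,0)]⟩,⟨0,[]⟩⟩ ⟨false,1,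
  ⟨0,[(3,0)]⟩,⟨0,[(0,0),(20,0)]⟩⟩]⟩))))

theorem ok10 : chk K t10 l11 = true := by decide +kernel

noncomputable def t11 : Tre :=
  (.I [0,1,0,1,0,0,0,1] (.I [0,0,1,1,0,0,0,1] (.Q [0,0,-1,0,1,0,-1,0,0,-1,1] (.p true [0,0,1] [1]
  (⟨0,[(27,0)]⟩,⟨0,[(26,0)]⟩) .k 1 (⟨0,[]⟩,⟨0,[]⟩) .k .k) (.Q [0,0,0,0,0,0,-1,-1,0,0,1] (.p true [0,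
  0,1] [] (⟨0,[(28,0)]⟩,⟨0,[(27,0)]⟩) .k 0 (⟨0,[]⟩,⟨0,[]⟩) .k .k) (.S ⟨1,0,[0,1,0,0,0,0,0,1],[0,0,
  1],[1,0,0,-1,0,0,0,1],(⟨0,[(29,0)]⟩,⟨0,[(28,0)]⟩),⟨0,[(18,0)]⟩,.k,.k,⟨false,1,⟨0,[(35,0),(2,0)]⟩,
  ⟨0,[(36,0)]⟩⟩,⟨true,0,⟨15,[(9,1),(5,0),(0,0),(8,1),(7,5),(1,1)]⟩,⟨0,[]⟩⟩,⟨true,0,⟨0,[]⟩,⟨15,[(9,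
  1),(5,0),(0,0),(8,1),(7,5),(1,1)]⟩⟩,⟨false,0,⟨0,[(36,0)]⟩,⟨0,[(35,0),(2,0)]⟩⟩,[.o ⟨false,0,⟨0,
  [(24,0)]⟩,⟨1,[(0,1),(29,0),(7,0)]⟩⟩,.a ⟨true,0,⟨0,[(5,0),(8,0),(23,0)]⟩,⟨0,[(0,0)]⟩⟩ ⟨true,1,⟨0,
  [(2,0),(10,0),(24,0)]⟩,⟨0,[(11,0),(22,0)]⟩⟩ ⟨false,1,⟨3,[(3,1),(0,1),(32,0),(0,0)]⟩,⟨2,[(0,1),(9,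
  1),(0,0),(26,0)]⟩⟩,.o ⟨false,0,⟨0,[(6,0)]⟩,⟨6,[(1,4),(2,0),(4,0),(5,1),(9,1),(12,0)]⟩⟩,.o ⟨false,
  0,⟨0,[(26,0)]⟩,⟨0,[(1,0)]⟩⟩]⟩) (.R ⟨2,true,false,false,[0,1],[0,0,1],[0,1,1,1],(⟨0,[]⟩,⟨0,[]⟩),
  (⟨0,[(29,0)]⟩,⟨0,[(28,0)]⟩),⟨0,[]⟩,.k,.k,.k,.k,.k,.k,⟨true,(-1),⟨0,[(11,0),(22,0)]⟩,⟨2,[(0,1),(3,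
  0),(8,0),(13,1),(10,1)]⟩⟩,⟨false,0,⟨0,[(6,0)]⟩,⟨0,[(27,0),(9,0)]⟩⟩,⟨true,0,⟨15,[(9,1),(5,0),(0,0),
  (8,1),(7,5),(1,1)]⟩,⟨0,[]⟩⟩,⟨false,1,⟨0,[(5,0),(32,0)]⟩,⟨0,[(1,0),(9,0),(1,0),(0,0),(23,0)]⟩⟩,
  ⟨false,0,⟨0,[(36,0)]⟩,⟨0,[(35,0),(2,0)]⟩⟩,⟨true,0,⟨0,[(0,0)]⟩,⟨0,[(25,0)]⟩⟩,[]⟩)) (.Q [0,0,2,0,0,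
  0,-1,0,0,-1,1] (.p true [0,0,1] [1] (⟨0,[(28,0)]⟩,⟨0,[(27,0)]⟩) .k 1 (⟨0,[]⟩,⟨0,[]⟩) .k .k) (.Q
  [0,0,0,0,0,0,1,1,0,0,-1] (.p false [0,0,1] [] (⟨0,[(29,0)]⟩,⟨0,[(28,0)]⟩) .k 0 (⟨0,[]⟩,⟨0,[]⟩) .k
  .k) (.Q [0,0,0,1,0,0,-1,-1,0,0,1] (.p true [0,0,1] [] (⟨0,[(30,0)]⟩,⟨0,[(29,0)]⟩) .k 0 (⟨0,[]⟩,⟨0,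
  []⟩) .k .k) (.R ⟨2,true,false,false,[0,1],[0,0,1],[0,1,1,1],(⟨0,[]⟩,⟨0,[]⟩),(⟨0,[(31,0)]⟩,⟨0,[(30,
  0)]⟩),⟨0,[]⟩,.k,.k,.k,.k,.k,.k,⟨true,(-1),⟨0,[(13,0),(22,0)]⟩,⟨2,[(1,1),(4,0),(8,0),(13,1),(10,
  1)]⟩⟩,⟨false,0,⟨0,[(8,0)]⟩,⟨0,[(0,0),(5,0)]⟩⟩,⟨true,0,⟨15,[(11,1),(5,0),(0,0),(8,1),(7,5),(1,1)]⟩,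
  ⟨0,[]⟩⟩,⟨false,1,⟨0,[(7,0),(32,0)]⟩,⟨0,[(0,0)]⟩⟩,⟨false,0,⟨0,[(38,0)]⟩,⟨0,[(37,0),(2,0)]⟩⟩,⟨true,
  0,⟨0,[(1,0)]⟩,⟨0,[(27,0)]⟩⟩,[]⟩) (.Q [0,-1,0,1,1,0,-1,-1,0,-1,1] (.p true [0,0,1] [1] (⟨0,[(31,
  0)]⟩,⟨0,[(30,0)]⟩) .k 1 (⟨0,[]⟩,⟨0,[]⟩) .k .k) (.R ⟨2,true,false,false,[0,1],[1,1,-1],[1,0,1],(⟨0,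
  []⟩,⟨0,[]⟩),(⟨1,[(11,0),(19,2)]⟩,⟨0,[(21,0)]⟩),⟨0,[]⟩,.k,.k,.k,.k,.k,.k,⟨false,1,⟨0,[(7,0)]⟩,⟨4,
  [(0,2),(12,0),(0,1),(1,0),(0,0),(8,1)]⟩⟩,⟨true,1,⟨0,[(3,0),(36,0)]⟩,⟨0,[(4,0)]⟩⟩,⟨false,1,⟨0,[(38,
  0),(2,0)]⟩,⟨0,[(39,0)]⟩⟩,⟨true,1,⟨1,[(28,1),(4,0),(7,0)]⟩,⟨0,[(1,0),(15,0)]⟩⟩,⟨true,0,⟨0,[]⟩,⟨15,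
  [(12,1),(5,0),(0,0),(8,1),(7,5),(1,1)]⟩⟩,⟨false,1,⟨0,[(0,0)]⟩,⟨0,[(4,0),(2,0)]⟩⟩,[]⟩) (.Q [0,0,0,
  0,0,2,0,0,0,0,-1] (.p false [0,0,1] [] (⟨0,[(32,0)]⟩,⟨0,[(31,0)]⟩) .k 0 (⟨0,[]⟩,⟨0,[]⟩) .k .k)
  (.Q [0,0,2,0,-1,0,1,0,0,0,-1] (.p false [0,0,1] [] (⟨0,[(33,0)]⟩,⟨0,[(32,0)]⟩) .k 0 (⟨0,[]⟩,⟨0,
  []⟩) .k .k) (.R ⟨0,false,false,false,[0,-1,1],[1,-1],[],(⟨0,[(23,0)]⟩,⟨1,[(13,0),(19,2)]⟩),(⟨0,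
  [(36,0)]⟩,⟨0,[(37,0)]⟩),⟨0,[(1,0)]⟩,.k,.k,(.r (-2) ⟨19,[(9,27),(8,5),(2,3),(8,7),(4,1),(6,2),(0,
  6)]⟩ ⟨0,[(16,0)]⟩),.k,.k,.k,⟨false,0,⟨0,[(41,0)]⟩,⟨19,[(9,7),(8,5),(2,3),(8,7),(4,1),(6,2),(0,
  6)]⟩⟩,⟨true,1,⟨0,[(5,0),(36,0)]⟩,⟨0,[(6,0)]⟩⟩,⟨false,0,⟨3,[(16,3),(1,1),(23,0),(0,2)]⟩,⟨0,[(9,
  0)]⟩⟩,⟨true,1,⟨1,[(30,1),(4,0),(7,0)]⟩,⟨1,[(2,0),(1,0),(14,0)]⟩⟩,⟨false,0,⟨0,[]⟩,⟨0,[]⟩⟩,⟨false,0,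
  ⟨0,[]⟩,⟨0,[]⟩⟩,[.o ⟨false,1,⟨1,[(35,0),(4,1),(2,0)]⟩,⟨0,[(41,0)]⟩⟩,.a ⟨true,1,⟨0,[(40,0),(2,0)]⟩,
  ⟨0,[(19,0)]⟩⟩ ⟨false,1,⟨1,[(42,0),(0,0)]⟩,⟨15,[(14,1),(5,0),(0,0),(8,1),(7,5),(1,1)]⟩⟩ ⟨true,2,⟨3,
  [(5,3),(12,1),(23,4),(0,2)]⟩,⟨0,[(0,0),(18,0)]⟩⟩,.e ⟨false,1,⟨1,[(24,0),(0,0),(17,0)]⟩,⟨0,[]⟩⟩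
  ⟨false,2,⟨3,[(5,3),(12,1),(23,4),(0,2)]⟩,⟨5,[(4,1),(1,2),(9,1),(2,1),(8,0),(14,0)]⟩⟩,.o ⟨false,
  (-1),⟨0,[(0,0)]⟩,⟨0,[(5,0),(36,1)]⟩⟩]⟩) (.R ⟨1,false,false,false,[0,0,1],[0,1],[1,0,1,1],(⟨0,[(34,
  0)]⟩,⟨0,[(33,0)]⟩),(⟨0,[(37,0)]⟩,⟨0,[(36,0)]⟩),⟨0,[(23,0)]⟩,.k,.k,.k,.k,(.r (-2) ⟨19,[(9,27),(8,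
  5),(2,3),(8,7),(4,1),(6,2),(0,6)]⟩ ⟨0,[(16,0)]⟩),.k,⟨true,0,⟨0,[]⟩,⟨2,[(5,0),(15,0),(10,0)]⟩⟩,
  ⟨false,1,⟨0,[(0,0)]⟩,⟨0,[(31,0)]⟩⟩,⟨false,0,⟨3,[(16,3),(1,1),(23,0),(0,2)]⟩,⟨0,[(0,5),(1,6),(2,0),
  (10,5),(1,2),(16,2),(7,4)]⟩⟩,⟨false,1,⟨8,[(0,3),(13,0),(1,2),(0,1),(12,4),(12,7)]⟩,⟨0,[(3,0)]⟩⟩,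
  ⟨false,0,⟨1,[(16,1),(25,0),(0,0)]⟩,⟨5,[(2,0),(2,0),(3,4),(8,2),(24,1)]⟩⟩,⟨true,0,⟨0,[(0,0),(15,
  0)]⟩,⟨0,[(3,0),(36,0)]⟩⟩,[.o ⟨false,0,⟨0,[(41,0)]⟩,⟨1,[(35,0),(4,1),(2,0)]⟩⟩,.a ⟨true,0,⟨0,[(19,
  0),(23,0)]⟩,⟨0,[(40,0)]⟩⟩ ⟨false,1,⟨1,[(8,0),(8,0),(25,1)]⟩,⟨0,[(39,0)]⟩⟩ ⟨true,1,⟨12,[(0,9),(13,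
  4),(1,3),(13,0),(1,1),(10,6)]⟩,⟨0,[(3,0),(12,0),(1,0)]⟩⟩,.o ⟨false,0,⟨0,[(11,0)]⟩,⟨3,[(0,1),(4,1),
  (18,0),(0,0),(9,0)]⟩⟩,.e ⟨true,0,⟨0,[(41,0)]⟩,⟨0,[(40,0)]⟩⟩ ⟨true,1,⟨11,[(0,11),(7,0),(5,3),(1,1),
  (0,2),(25,1)]⟩,⟨0,[(3,0),(12,0),(1,0)]⟩⟩]⟩)) (.Q [0,0,0,0,-1,0,2,0,0,1,-2] (.p false [0,0,1] [1,0,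
  -1] (⟨0,[(33,0)]⟩,⟨0,[(32,0)]⟩) .k 2 (⟨0,[(32,0)]⟩,⟨0,[(33,0)]⟩) .k (.r (-1) ⟨0,[(6,0),(1,0)]⟩ ⟨0,
  [(15,1),(1,1),(23,0),(0,0)]⟩)) (.Q [0,1,-1,-1,-1,0,2,1,0,1,-2] (.p false [0,0,1] [1,0,-1] (⟨0,
  [(34,0)]⟩,⟨0,[(33,0)]⟩) .k 2 (⟨0,[(33,0)]⟩,⟨0,[(34,0)]⟩) .k (.r (-1) ⟨0,[(7,0),(1,0)]⟩ ⟨0,[(16,1),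
  (1,1),(23,0),(0,0)]⟩)) (.Q [0,0,0,0,1,0,-2,-2,0,-1,2] (.p true [0,0,1] [1,0,-1] (⟨0,[(35,0)]⟩,⟨0,
  [(34,0)]⟩) .k 2 (⟨0,[(34,0)]⟩,⟨0,[(35,0)]⟩) .k (.r (-1) ⟨0,[(8,0),(1,0)]⟩ ⟨0,[(17,1),(1,1),(23,0),
  (0,0)]⟩)) (.R ⟨0,false,false,true,[1,-1,-1],[0,-1,1],[0,1],(⟨0,[(24,0)]⟩,⟨0,[(15,0),(22,0)]⟩),(⟨0,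
  [(25,0)]⟩,⟨1,[(15,0),(19,2)]⟩),⟨0,[(15,0)]⟩,.k,.k,(.r (-1) ⟨1,[(0,0),(1,0),(17,1),(23,0),(0,0)]⟩
  ⟨2,[(10,1),(5,1),(1,0),(26,0)]⟩),.k,.k,.k,⟨false,0,⟨3,[(0,0),(1,0),(15,1),(25,1)]⟩,⟨0,[(11,0)]⟩⟩,
  ⟨true,(-1),⟨0,[(2,0)]⟩,⟨0,[(7,0),(26,0),(9,0)]⟩⟩,⟨false,0,⟨0,[(9,0)]⟩,⟨3,[(0,1),(1,1),(17,1),(23,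
  0),(0,2)]⟩⟩,⟨true,(-1),⟨0,[(1,0),(7,0)]⟩,⟨0,[(0,0)]⟩⟩,⟨false,0,⟨0,[]⟩,⟨0,[]⟩⟩,⟨false,0,⟨0,[]⟩,⟨0,
  []⟩⟩,[.a ⟨true,(-1),⟨0,[(4,0)]⟩,⟨3,[(0,1),(9,0),(8,0),(1,1),(23,3)]⟩⟩ ⟨false,0,⟨3,[(21,1),(15,0),
  (3,1),(2,0)]⟩,⟨9,[(0,1),(10,1),(4,1),(6,1),(20,0),(0,4)]⟩⟩ ⟨true,(-1),⟨0,[(1,0)]⟩,⟨10,[(0,7),(6,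
  2),(1,3),(4,2),(1,1),(1,0),(26,6)]⟩⟩,.o ⟨false,0,⟨0,[(5,0)]⟩,⟨3,[(0,1),(9,0),(8,0),(17,0),(5,1),
  (1,0)]⟩⟩,.e ⟨true,0,⟨15,[(16,1),(5,0),(0,0),(8,1),(7,5),(1,1)]⟩,⟨0,[]⟩⟩ ⟨true,(-1),⟨0,[(1,0)]⟩,⟨0,
  [(0,0),(8,0)]⟩⟩,.o ⟨false,0,⟨0,[(7,0)]⟩,⟨3,[(2,0),(20,0),(13,0),(6,3)]⟩⟩]⟩) (.Q [0,0,0,1,1,0,-2,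
  -2,0,-1,2] (.p true [0,0,1] [1,0,-1] (⟨0,[(36,0)]⟩,⟨0,[(35,0)]⟩) .k 2 (⟨0,[(35,0)]⟩,⟨0,[(36,0)]⟩)
  .k (.r (-1) ⟨0,[(9,0),(1,0)]⟩ ⟨0,[(18,1),(1,1),(23,0),(0,0)]⟩)) (.R ⟨1,true,false,false,[0,0,1],
  [1,0,-1],[0,1,0,0,0,0,0,1],(⟨0,[(37,0)]⟩,⟨0,[(36,0)]⟩),(⟨0,[(36,0)]⟩,⟨0,[(37,0)]⟩),⟨0,[(26,0)]⟩,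
  .k,.k,.k,.k,(.r (-1) ⟨3,[(1,3),(6,3),(12,1),(13,3),(9,6),(0,0)]⟩ ⟨3,[(0,3),(2,1),(5,1),(13,0),(0,
  0)]⟩),.k,⟨true,0,⟨2,[(1,2),(6,2),(6,1),(5,0),(13,0),(9,4)]⟩,⟨4,[(0,1),(2,1),(15,5),(1,6),(24,
  5)]⟩⟩,⟨false,2,⟨0,[(8,0),(26,0),(9,1)]⟩,⟨0,[(3,0)]⟩⟩,⟨true,0,⟨15,[(17,1),(5,0),(0,0),(8,1),(7,5),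
  (1,1)]⟩,⟨0,[]⟩⟩,⟨false,2,⟨0,[(0,0),(42,0),(2,0)]⟩,⟨0,[(1,0)]⟩⟩,⟨false,0,⟨0,[(44,0)]⟩,⟨0,[(43,0),
  (2,0)]⟩⟩,⟨true,1,⟨0,[(0,0)]⟩,⟨1,[(1,0),(3,0),(7,0)]⟩⟩,[]⟩) (.Q [0,0,0,2,1,0,-2,-2,0,-1,2] (.p
  true [0,0,1] [1,0,-1] (⟨0,[(37,0)]⟩,⟨0,[(36,0)]⟩) .k 2 (⟨0,[(36,0)]⟩,⟨0,[(37,0)]⟩) .k (.r (-1) ⟨0,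
  [(10,0),(1,0)]⟩ ⟨0,[(19,1),(1,1),(23,0),(0,0)]⟩)) (.R ⟨1,true,false,false,[0,0,1],[1,1,-1],[0,1,0,
  0,0,0,0,1],(⟨0,[(38,0)]⟩,⟨0,[(37,0)]⟩),(⟨1,[(17,0),(19,2)]⟩,⟨0,[(27,0)]⟩),⟨0,[(27,0)]⟩,.k,.k,.k,
  (.r (-1) ⟨0,[(1,0),(7,0),(26,0),(9,1)]⟩ ⟨1,[(0,0),(3,1),(19,0),(9,1),(12,0)]⟩),(.r (-2) ⟨0,[(1,1),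
  (7,3),(10,1),(2,1),(19,13),(1,7),(1,7)]⟩ ⟨2,[(0,0),(3,0),(15,3),(1,1),(24,0)]⟩),.k,⟨false,1,⟨2,
  [(2,2),(6,2),(6,0),(5,1),(13,1),(9,6)]⟩,⟨1,[(0,0),(3,0),(15,1),(1,1),(24,1)]⟩⟩,⟨true,2,⟨0,[(9,0),
  (26,0),(9,1)]⟩,⟨4,[(1,3),(2,0),(15,7),(1,5),(24,2)]⟩⟩,⟨true,0,⟨15,[(18,1),(5,0),(0,0),(8,1),(7,5),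
  (1,1)]⟩,⟨0,[]⟩⟩,⟨false,2,⟨0,[(0,0),(43,0),(2,0)]⟩,⟨0,[(1,0)]⟩⟩,⟨false,0,⟨0,[(45,0)]⟩,⟨0,[(44,0),
  (2,0)]⟩⟩,⟨true,1,⟨0,[(0,0)]⟩,⟨0,[(1,0),(42,0)]⟩⟩,[]⟩) (.Q [0,0,0,0,-1,0,0,0,1,1,0,-1] (.p false
  [0,0,0,0,1] [1] (⟨0,[(31,0)]⟩,⟨0,[(30,0)]⟩) .k 1 (⟨0,[]⟩,⟨0,[]⟩) .k .k) (.I [0,0,3,0,-3,-3,1,0,1]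
  (.Q [0,0,-1,0,-1,0,1,0,1,1,-1,-1] (.p false [0,0,1] [1,0,0,0,-1] (⟨0,[(40,0)]⟩,⟨0,[(39,0)]⟩) .k 2
  (⟨0,[(32,0)]⟩,⟨0,[(33,0)]⟩) .k (.r 0 ⟨15,[(2,0),(8,0),(2,9),(0,2),(0,0),(1,1),(5,2)]⟩ ⟨3,[(6,0),
  (20,0),(8,3),(4,0),(7,3)]⟩)) (.Q [0,0,0,0,0,-1,0,0,0,0,0,1] (.ed false [1,-1,0,0,1] .k) (.S ⟨1,0,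
  [0,2],[0,0,0,0,1],[1,1,0,-1],(⟨0,[(35,0)]⟩,⟨0,[(34,0)]⟩),⟨0,[(0,0)]⟩,.k,(.r 0 ⟨0,[(47,0)]⟩ ⟨3,
  [(22,1),(2,1),(6,0),(0,0),(17,2)]⟩),⟨false,1,⟨0,[(48,0),(2,0)]⟩,⟨0,[(49,0)]⟩⟩,⟨true,0,⟨15,[(22,1),
  (5,0),(0,0),(8,1),(7,5),(1,1)]⟩,⟨0,[]⟩⟩,⟨true,0,⟨0,[]⟩,⟨15,[(22,1),(5,0),(0,0),(8,1),(7,5),(1,
  1)]⟩⟩,⟨false,0,⟨0,[(49,0)]⟩,⟨0,[(48,0),(2,0)]⟩⟩,[.e ⟨false,0,⟨0,[(47,0)]⟩,⟨1,[(16,0),(8,0),(25,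
  1)]⟩⟩ ⟨false,0,⟨0,[(46,0)]⟩,⟨0,[(51,0)]⟩⟩,.o ⟨false,(-1),⟨1,[(1,0),(1,0),(16,0),(22,0),(3,0)]⟩,⟨1,
  [(32,1),(10,0),(7,0)]⟩⟩,.a ⟨true,(-1),⟨0,[(3,0)]⟩,⟨0,[(32,0)]⟩⟩ ⟨true,0,⟨0,[(48,0)]⟩,⟨0,[(49,
  0)]⟩⟩ ⟨false,0,⟨15,[(22,1),(5,0),(0,0),(8,1),(7,5),(1,1)]⟩,⟨0,[(51,0)]⟩⟩,.o ⟨false,(-1),⟨0,[(1,0),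
  (11,0)]⟩,⟨1,[(32,1),(10,0),(6,0)]⟩⟩]⟩) (.Q [0,1,0,0,-1,0,-1,-1,1,0,1,-1] (.p true [0,0,1] [0,0,0,
  0,1] (⟨0,[(42,0)]⟩,⟨0,[(41,0)]⟩) .k 2 (⟨0,[(35,0)]⟩,⟨0,[(34,0)]⟩) .k (.r (-1) ⟨1,[(15,0),(1,0),
  (33,0)]⟩ ⟨3,[(8,0),(20,0),(8,3),(4,0)]⟩)) (.R ⟨0,false,false,false,[0,0,0,0,1],[1,0,-1],[0,2,0,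
  -1],(⟨0,[(36,0)]⟩,⟨0,[(35,0)]⟩),(⟨0,[(42,0)]⟩,⟨0,[(43,0)]⟩),⟨0,[(1,0)]⟩,.k,.k,(.r 0 ⟨0,[(48,0)]⟩
  ⟨3,[(23,1),(2,1),(6,0),(0,0),(17,2)]⟩),.k,.k,.k,⟨false,0,⟨0,[(17,0),(9,0)]⟩,⟨3,[(25,3),(1,1),(23,
  2),(0,4)]⟩⟩,⟨true,2,⟨0,[(14,0),(18,0),(17,0)]⟩,⟨2,[(0,1),(1,0),(2,1),(19,1),(26,0)]⟩⟩,⟨true,0,⟨0,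
  [(49,0)]⟩,⟨0,[(50,0)]⟩⟩,⟨false,3,⟨1,[(33,1),(5,1),(4,0),(7,2)]⟩,⟨0,[(0,0),(6,0)]⟩⟩,⟨false,0,⟨0,
  []⟩,⟨0,[]⟩⟩,⟨false,0,⟨0,[]⟩,⟨0,[]⟩⟩,[.o ⟨false,1,⟨1,[(39,1),(4,0),(7,0)]⟩,⟨0,[(13,0)]⟩⟩,.e ⟨false,
  0,⟨0,[(48,0)]⟩,⟨1,[(17,0),(8,0),(25,1)]⟩⟩ ⟨false,3,⟨1,[(33,1),(5,1),(4,0),(6,0),(0,1)]⟩,⟨0,[(0,0),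
  (6,0)]⟩⟩,.a ⟨true,(-1),⟨0,[(4,0)]⟩,⟨0,[(33,0)]⟩⟩ ⟨false,0,⟨0,[(49,0)]⟩,⟨0,[(50,0),(1,0)]⟩⟩ ⟨true,
  2,⟨1,[(33,1),(5,1),(4,0),(7,0)]⟩,⟨0,[(0,0),(6,0)]⟩⟩,.o ⟨false,(-1),⟨0,[(2,0),(11,0)]⟩,⟨1,[(33,1),
  (10,0),(6,0)]⟩⟩]⟩) (.R ⟨0,false,false,false,[0,0,0,0,1],[0,0,1],[],(⟨0,[(36,0)]⟩,⟨0,[(35,0)]⟩),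
  (⟨0,[(43,0)]⟩,⟨0,[(42,0)]⟩),⟨0,[(1,0)]⟩,.k,.k,(.r 0 ⟨0,[(48,0)]⟩ ⟨3,[(23,1),(2,1),(6,0),(0,0),(17,
  2)]⟩),.k,.k,.k,⟨true,0,⟨1,[(25,1),(1,1),(23,0),(0,0)]⟩,⟨5,[(5,0),(8,0),(1,1),(1,0),(4,0),(17,
  0)]⟩⟩,⟨false,1,⟨0,[(0,0),(24,0),(1,0),(23,0)]⟩,⟨0,[(4,0),(9,0),(36,0)]⟩⟩,⟨false,1,⟨0,[(52,0)]⟩,
  ⟨15,[(23,1),(5,0),(0,0),(8,1),(7,5),(1,1)]⟩⟩,⟨true,1,⟨0,[(0,0)]⟩,⟨1,[(2,0),(1,0),(16,0),(17,1),(4,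
  0),(3,0)]⟩⟩,⟨false,0,⟨0,[]⟩,⟨0,[]⟩⟩,⟨false,0,⟨0,[]⟩,⟨0,[]⟩⟩,[.o ⟨false,0,⟨0,[(13,0)]⟩,⟨1,[(39,1),
  (4,0),(7,0)]⟩⟩,.a ⟨true,0,⟨0,[(0,0),(3,0)]⟩,⟨0,[(39,0)]⟩⟩ ⟨false,1,⟨1,[(51,0),(0,0)]⟩,⟨15,[(23,1),
  (5,0),(0,0),(8,1),(7,5),(1,1)]⟩⟩ ⟨true,1,⟨0,[(0,0)]⟩,⟨0,[(2,0),(11,0),(24,0)]⟩⟩,.e ⟨false,1,⟨1,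
  [(33,0),(0,0),(17,0)]⟩,⟨0,[]⟩⟩ ⟨false,1,⟨0,[(0,0)]⟩,⟨1,[(4,1),(34,1),(4,0),(7,0)]⟩⟩,.o ⟨false,
  (-1),⟨0,[(2,0),(11,0)]⟩,⟨1,[(33,1),(10,0),(6,0)]⟩⟩]⟩))) (.Q [0,0,0,0,0,-1,0,0,0,1,0,-1] (.ed true
  [0,1,0,0,1] .k) (.R ⟨1,false,false,false,[1,0,0,0,-1],[1,0,-1],[1,0,0,-1],(⟨0,[(34,0)]⟩,⟨0,[(35,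
  0)]⟩),(⟨0,[(41,0)]⟩,⟨0,[(42,0)]⟩),⟨0,[(0,0)]⟩,.k,.k,(.r (-1) ⟨3,[(26,1),(23,0),(0,2)]⟩ ⟨17,[(22,
  9),(2,7),(2,0),(0,0),(8,1),(7,3)]⟩),.k,(.r (-2) ⟨1,[(17,1),(14,0),(0,0),(17,0)]⟩ ⟨0,[(24,0),(22,
  0)]⟩),.k,⟨false,1,⟨0,[(17,0)]⟩,⟨3,[(24,3),(1,1),(23,2),(0,0)]⟩⟩,⟨true,0,⟨0,[(3,0),(9,0),(36,0)]⟩,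
  ⟨0,[(1,0),(6,0)]⟩⟩,⟨true,0,⟨0,[(48,0)]⟩,⟨0,[(49,0)]⟩⟩,⟨false,0,⟨1,[(3,1),(34,1),(4,0),(7,0)]⟩,⟨1,
  [(1,1),(4,0),(1,0),(41,0),(0,0)]⟩⟩,⟨false,0,⟨0,[]⟩,⟨1,[(32,0),(0,0),(17,0)]⟩⟩,⟨false,0,⟨1,[(3,1),
  (34,1),(4,0),(5,1),(1,0)]⟩,⟨1,[(1,1),(2,0),(3,0),(41,0),(0,0)]⟩⟩,[.o ⟨false,1,⟨1,[(38,1),(4,0),(7,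
  0)]⟩,⟨0,[(12,0)]⟩⟩,.e ⟨false,1,⟨3,[(26,1),(23,0),(0,2)]⟩,⟨1,[(16,0),(8,0)]⟩⟩ ⟨false,1,⟨1,[(3,1),
  (34,1),(4,0),(6,0),(0,1)]⟩,⟨3,[(1,3),(4,0),(0,1),(0,0),(18,1),(15,0),(6,0)]⟩⟩,.a ⟨true,1,⟨0,[(32,
  0)]⟩,⟨0,[(3,0)]⟩⟩ ⟨false,1,⟨0,[(48,0),(2,0)]⟩,⟨0,[(49,0)]⟩⟩ ⟨true,0,⟨1,[(3,1),(34,1),(4,0),(7,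
  0)]⟩,⟨3,[(1,3),(4,0),(0,1),(0,0),(18,1),(15,0),(6,0)]⟩⟩,.o ⟨false,1,⟨3,[(1,3),(6,0),(20,0),(13,
  0)]⟩,⟨1,[(3,1),(39,0),(6,0)]⟩⟩]⟩) (.R ⟨0,false,false,false,[1,0,0,0,-1],[1,0,-1],[0,0,0,-1],(⟨0,
  [(34,0)]⟩,⟨0,[(35,0)]⟩),(⟨0,[(41,0)]⟩,⟨0,[(42,0)]⟩),⟨0,[(0,0)]⟩,.k,.k,(.r (-1) ⟨3,[(26,1),(23,0),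
  (0,2)]⟩ ⟨17,[(22,9),(2,7),(2,0),(0,0),(8,1),(7,3)]⟩),.k,.k,.k,⟨false,1,⟨0,[(4,0),(8,1),(10,0),(2,
  0),(19,6),(1,4),(1,3)]⟩,⟨3,[(24,3),(1,1),(23,2),(0,0)]⟩⟩,⟨true,0,⟨0,[(3,0),(9,0),(36,0)]⟩,⟨0,[(1,
  0),(6,0)]⟩⟩,⟨true,0,⟨0,[(48,0)]⟩,⟨0,[(49,0)]⟩⟩,⟨false,0,⟨1,[(3,1),(34,1),(4,0),(7,0)]⟩,⟨1,[(1,1),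
  (4,0),(1,0),(41,0),(0,0)]⟩⟩,⟨false,0,⟨0,[]⟩,⟨0,[]⟩⟩,⟨false,0,⟨0,[]⟩,⟨0,[]⟩⟩,[.o ⟨false,1,⟨1,[(38,
  1),(4,0),(7,0)]⟩,⟨0,[(12,0)]⟩⟩,.e ⟨false,1,⟨3,[(26,1),(23,0),(0,2)]⟩,⟨1,[(16,0),(8,0)]⟩⟩ ⟨false,1,
  ⟨1,[(3,1),(34,1),(4,0),(6,0),(0,1)]⟩,⟨3,[(1,3),(4,0),(0,1),(0,0),(18,1),(15,0),(6,0)]⟩⟩,.a ⟨true,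
  1,⟨0,[(32,0)]⟩,⟨0,[(3,0)]⟩⟩ ⟨false,1,⟨0,[(48,0),(2,0)]⟩,⟨0,[(49,0)]⟩⟩ ⟨true,0,⟨1,[(3,1),(34,1),(4,
  0),(7,0)]⟩,⟨3,[(1,3),(4,0),(0,1),(0,0),(18,1),(15,0),(6,0)]⟩⟩,.o ⟨false,1,⟨3,[(1,3),(6,0),(20,0),
  (13,0)]⟩,⟨1,[(3,1),(39,0),(6,0)]⟩⟩]⟩))) (.Q [0,0,1,0,1,0,-1,0,-1,-1,1,1] (.p true [0,0,1] [1,0,0,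
  0,-1] (⟨0,[(40,0)]⟩,⟨0,[(39,0)]⟩) .k 2 (⟨0,[(32,0)]⟩,⟨0,[(33,0)]⟩) .k (.r 0 ⟨15,[(2,0),(8,0),(2,
  9),(0,2),(0,0),(1,1),(5,2)]⟩ ⟨3,[(6,0),(20,0),(8,3),(4,0),(7,3)]⟩)) (.Q [0,0,0,0,0,-1,0,0,0,1,0,
  -1] (.ed true [0,1,0,0,1] .k) (.R ⟨1,false,false,false,[1,0,0,0,-1],[1,0,-1],[1,0,0,-1],(⟨0,[(34,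
  0)]⟩,⟨0,[(35,0)]⟩),(⟨0,[(41,0)]⟩,⟨0,[(42,0)]⟩),⟨0,[(0,0)]⟩,.k,.k,(.r (-1) ⟨3,[(26,1),(23,0),(0,
  2)]⟩ ⟨17,[(22,9),(2,7),(2,0),(0,0),(8,1),(7,3)]⟩),.k,(.r (-2) ⟨1,[(17,1),(14,0),(0,0),(17,0)]⟩ ⟨0,
  [(24,0),(22,0)]⟩),.k,⟨false,1,⟨0,[(17,0)]⟩,⟨3,[(24,3),(1,1),(23,2),(0,0)]⟩⟩,⟨true,0,⟨0,[(3,0),(9,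
  0),(36,0)]⟩,⟨0,[(1,0),(6,0)]⟩⟩,⟨true,0,⟨0,[(48,0)]⟩,⟨0,[(49,0)]⟩⟩,⟨false,0,⟨1,[(3,1),(34,1),(4,0),
  (7,0)]⟩,⟨1,[(1,1),(4,0),(1,0),(41,0),(0,0)]⟩⟩,⟨false,0,⟨0,[]⟩,⟨1,[(32,0),(0,0),(17,0)]⟩⟩,⟨false,0,
  ⟨1,[(3,1),(34,1),(4,0),(5,1),(1,0)]⟩,⟨1,[(1,1),(2,0),(3,0),(41,0),(0,0)]⟩⟩,[.o ⟨false,1,⟨1,[(38,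
  1),(4,0),(7,0)]⟩,⟨0,[(12,0)]⟩⟩,.e ⟨false,1,⟨3,[(26,1),(23,0),(0,2)]⟩,⟨1,[(16,0),(8,0)]⟩⟩ ⟨false,1,
  ⟨1,[(3,1),(34,1),(4,0),(6,0),(0,1)]⟩,⟨3,[(1,3),(4,0),(0,1),(0,0),(18,1),(15,0),(6,0)]⟩⟩,.a ⟨true,
  1,⟨0,[(32,0)]⟩,⟨0,[(3,0)]⟩⟩ ⟨false,1,⟨0,[(48,0),(2,0)]⟩,⟨0,[(49,0)]⟩⟩ ⟨true,0,⟨1,[(3,1),(34,1),(4,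
  0),(7,0)]⟩,⟨3,[(1,3),(4,0),(0,1),(0,0),(18,1),(15,0),(6,0)]⟩⟩,.o ⟨false,1,⟨3,[(1,3),(6,0),(20,0),
  (13,0)]⟩,⟨1,[(3,1),(39,0),(6,0)]⟩⟩]⟩) (.R ⟨0,false,false,false,[1,0,0,0,-1],[1,0,-1],[0,0,0,-1],
  (⟨0,[(34,0)]⟩,⟨0,[(35,0)]⟩),(⟨0,[(41,0)]⟩,⟨0,[(42,0)]⟩),⟨0,[(0,0)]⟩,.k,.k,(.r (-1) ⟨3,[(26,1),(23,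
  0),(0,2)]⟩ ⟨17,[(22,9),(2,7),(2,0),(0,0),(8,1),(7,3)]⟩),.k,.k,.k,⟨false,1,⟨0,[(4,0),(8,1),(10,0),
  (2,0),(19,6),(1,4),(1,3)]⟩,⟨3,[(24,3),(1,1),(23,2),(0,0)]⟩⟩,⟨true,0,⟨0,[(3,0),(9,0),(36,0)]⟩,⟨0,
  [(1,0),(6,0)]⟩⟩,⟨true,0,⟨0,[(48,0)]⟩,⟨0,[(49,0)]⟩⟩,⟨false,0,⟨1,[(3,1),(34,1),(4,0),(7,0)]⟩,⟨1,[(1,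
  1),(4,0),(1,0),(41,0),(0,0)]⟩⟩,⟨false,0,⟨0,[]⟩,⟨0,[]⟩⟩,⟨false,0,⟨0,[]⟩,⟨0,[]⟩⟩,[.o ⟨false,1,⟨1,
  [(38,1),(4,0),(7,0)]⟩,⟨0,[(12,0)]⟩⟩,.e ⟨false,1,⟨3,[(26,1),(23,0),(0,2)]⟩,⟨1,[(16,0),(8,0)]⟩⟩
  ⟨false,1,⟨1,[(3,1),(34,1),(4,0),(6,0),(0,1)]⟩,⟨3,[(1,3),(4,0),(0,1),(0,0),(18,1),(15,0),(6,0)]⟩⟩,
  .a ⟨true,1,⟨0,[(32,0)]⟩,⟨0,[(3,0)]⟩⟩ ⟨false,1,⟨0,[(48,0),(2,0)]⟩,⟨0,[(49,0)]⟩⟩ ⟨true,0,⟨1,[(3,1),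
  (34,1),(4,0),(7,0)]⟩,⟨3,[(1,3),(4,0),(0,1),(0,0),(18,1),(15,0),(6,0)]⟩⟩,.o ⟨false,1,⟨3,[(1,3),(6,
  0),(20,0),(13,0)]⟩,⟨1,[(3,1),(39,0),(6,0)]⟩⟩]⟩)) (.Q [0,0,0,0,0,1,0,0,0,0,0,-1] (.ed true [1,-1,0,
  0,1] .k) (.Q [0,0,1,0,1,0,0,0,-1,-1,0,1] (.p true [0,0,0,0,1] [1] (⟨0,[(35,0)]⟩,⟨0,[(34,0)]⟩) .k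
  1 (⟨0,[]⟩,⟨0,[]⟩) .k .k) (.R ⟨0,false,false,false,[0,0,0,0,1],[1,-1],[],(⟨0,[(36,0)]⟩,⟨0,[(35,
  0)]⟩),(⟨0,[(45,0)]⟩,⟨0,[(46,0)]⟩),⟨0,[(1,0)]⟩,.k,.k,(.r 0 ⟨0,[(48,0)]⟩ ⟨3,[(23,1),(2,1),(6,0),(0,
  0),(17,2)]⟩),(.r 0 ⟨17,[(23,9),(2,7),(2,0),(0,0),(8,1),(7,3)]⟩ ⟨3,[(27,1),(23,0),(0,2)]⟩),.k,.k,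
  ⟨false,0,⟨0,[(50,0)]⟩,⟨19,[(18,7),(8,5),(2,3),(8,7),(4,1),(6,2),(0,6)]⟩⟩,⟨true,1,⟨0,[(0,0)]⟩,⟨0,
  [(4,0)]⟩⟩,⟨false,1,⟨0,[(52,0)]⟩,⟨15,[(23,1),(5,0),(0,0),(8,1),(7,5),(1,1)]⟩⟩,⟨true,2,⟨3,[(0,1),
  (26,1),(5,1),(10,0),(7,2)]⟩,⟨1,[(2,0),(1,0),(16,0),(6,1),(15,0),(3,0)]⟩⟩,⟨false,0,⟨0,[]⟩,⟨0,[]⟩⟩,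
  ⟨false,0,⟨0,[]⟩,⟨0,[]⟩⟩,[.o ⟨false,1,⟨1,[(44,0),(4,1),(2,0)]⟩,⟨0,[(50,0)]⟩⟩,.a ⟨true,1,⟨0,[(49,0),
  (2,0)]⟩,⟨0,[(28,0)]⟩⟩ ⟨false,1,⟨1,[(51,0),(0,0)]⟩,⟨15,[(23,1),(5,0),(0,0),(8,1),(7,5),(1,1)]⟩⟩
  ⟨true,2,⟨3,[(0,1),(26,1),(5,1),(10,0),(7,2)]⟩,⟨0,[(2,0),(18,0)]⟩⟩,.e ⟨false,1,⟨1,[(33,0),(0,0),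
  (17,0)]⟩,⟨0,[]⟩⟩ ⟨false,2,⟨3,[(0,1),(26,1),(5,1),(10,0),(7,2)]⟩,⟨0,[(4,0),(45,0)]⟩⟩,.o ⟨false,
  (-1),⟨0,[(2,0),(11,0)]⟩,⟨1,[(33,1),(10,0),(6,0)]⟩⟩]⟩) (.S ⟨1,0,[],[1,0,0,0,-1],[0,-1],(⟨0,[(35,
  0)]⟩,⟨0,[(36,0)]⟩),⟨1,[(1,0),(8,0),(20,0),(3,0)]⟩,.k,(.r (-1) ⟨3,[(27,1),(23,0),(0,2)]⟩ ⟨17,[(23,
  9),(2,7),(2,0),(0,0),(8,1),(7,3)]⟩),⟨false,1,⟨1,[(33,0),(0,0),(17,0)]⟩,⟨0,[]⟩⟩,⟨true,0,⟨15,[(23,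
  1),(5,0),(0,0),(8,1),(7,5),(1,1)]⟩,⟨0,[]⟩⟩,⟨true,0,⟨0,[(50,0)]⟩,⟨0,[(49,0)]⟩⟩,⟨false,0,⟨0,[(50,
  0)]⟩,⟨0,[(49,0),(2,0)]⟩⟩,[.e ⟨false,1,⟨1,[(51,0),(0,0)]⟩,⟨15,[(23,1),(5,0),(0,0),(8,1),(7,5),(1,
  1)]⟩⟩ ⟨false,1,⟨1,[(33,0),(0,0),(16,0)]⟩,⟨0,[]⟩⟩,.o ⟨false,2,⟨1,[(33,1),(10,0),(7,0)]⟩,⟨7,[(0,0),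
  (1,3),(1,2),(16,3),(5,1),(16,3),(2,0)]⟩⟩,.e ⟨false,1,⟨0,[(52,0)]⟩,⟨15,[(23,1),(5,0),(0,0),(8,1),
  (7,5),(1,1)]⟩⟩ ⟨false,1,⟨1,[(33,0),(0,0),(17,0)]⟩,⟨0,[]⟩⟩,.a ⟨true,1,⟨2,[(14,0),(15,0),(2,2),(7,
  0)]⟩,⟨0,[(0,0)]⟩⟩ ⟨true,1,⟨1,[(51,0),(0,0)]⟩,⟨0,[(21,0),(2,0)]⟩⟩ ⟨false,1,⟨1,[(51,0),(0,0)]⟩,⟨2,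
  [(14,0),(15,0),(10,0)]⟩⟩]⟩)) (.S ⟨1,0,[0,2],[0,0,0,0,1],[1,1,0,-1],(⟨0,[(35,0)]⟩,⟨0,[(34,0)]⟩),⟨0,
  [(0,0)]⟩,.k,(.r 0 ⟨0,[(47,0)]⟩ ⟨3,[(22,1),(2,1),(6,0),(0,0),(17,2)]⟩),⟨false,1,⟨0,[(48,0),(2,0)]⟩,
  ⟨0,[(49,0)]⟩⟩,⟨true,0,⟨15,[(22,1),(5,0),(0,0),(8,1),(7,5),(1,1)]⟩,⟨0,[]⟩⟩,⟨true,0,⟨0,[]⟩,⟨15,[(22,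
  1),(5,0),(0,0),(8,1),(7,5),(1,1)]⟩⟩,⟨false,0,⟨0,[(49,0)]⟩,⟨0,[(48,0),(2,0)]⟩⟩,[.e ⟨false,0,⟨0,
  [(47,0)]⟩,⟨1,[(16,0),(8,0),(25,1)]⟩⟩ ⟨false,0,⟨0,[(46,0)]⟩,⟨0,[(51,0)]⟩⟩,.o ⟨false,(-1),⟨1,[(1,0),
  (1,0),(16,0),(22,0),(3,0)]⟩,⟨1,[(32,1),(10,0),(7,0)]⟩⟩,.a ⟨true,(-1),⟨0,[(3,0)]⟩,⟨0,[(32,0)]⟩⟩
  ⟨true,0,⟨0,[(48,0)]⟩,⟨0,[(49,0)]⟩⟩ ⟨false,0,⟨15,[(22,1),(5,0),(0,0),(8,1),(7,5),(1,1)]⟩,⟨0,[(51,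
  0)]⟩⟩,.o ⟨false,(-1),⟨0,[(1,0),(11,0)]⟩,⟨1,[(32,1),(10,0),(6,0)]⟩⟩]⟩)))) (.Q [0,-2,0,1,1,0,1,1,-1,
  0,-1,1] (.p false [0,0,1] [0,0,0,0,1] (⟨0,[(39,0)]⟩,⟨0,[(38,0)]⟩) .k 2 (⟨0,[(32,0)]⟩,⟨0,[(31,
  0)]⟩) .k (.r (-1) ⟨1,[(12,0),(1,0),(33,0)]⟩ ⟨3,[(5,0),(20,0),(8,3),(4,0)]⟩)) (.Q [0,0,-2,0,0,0,1,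
  0,1,1,-1,-1] (.p false [0,0,1] [1,0,0,0,-1] (⟨0,[(40,0)]⟩,⟨0,[(39,0)]⟩) .k 2 (⟨0,[(32,0)]⟩,⟨0,
  [(33,0)]⟩) .k (.r 0 ⟨15,[(2,0),(8,0),(2,9),(0,2),(0,0),(1,1),(5,2)]⟩ ⟨3,[(6,0),(20,0),(8,3),(4,0),
  (7,3)]⟩)) (.Q [0,0,0,0,0,-1,0,0,0,1,0,-1] (.ed true [0,1,0,0,1] .k) (.Q [0,0,1,0,-1,0,0,0,1,1,0,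
  -1] (.p false [0,0,0,0,1] [1] (⟨0,[(35,0)]⟩,⟨0,[(34,0)]⟩) .k 1 (⟨0,[]⟩,⟨0,[]⟩) .k .k) (.S ⟨1,0,[0,
  -1],[1,0,0,0,-1],[1,0,0,-1],(⟨0,[(35,0)]⟩,⟨0,[(36,0)]⟩),⟨0,[(1,0)]⟩,.k,(.r (-1) ⟨3,[(27,1),(23,0),
  (0,2)]⟩ ⟨17,[(23,9),(2,7),(2,0),(0,0),(8,1),(7,3)]⟩),⟨true,0,⟨0,[(49,0)]⟩,⟨0,[(50,0)]⟩⟩,⟨false,1,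
  ⟨1,[(33,0),(0,0),(17,0)]⟩,⟨0,[]⟩⟩,⟨false,0,⟨0,[]⟩,⟨1,[(33,0),(0,0),(17,0)]⟩⟩,⟨true,0,⟨0,[(50,0)]⟩,
  ⟨0,[(49,0)]⟩⟩,[.e ⟨false,1,⟨19,[(18,7),(8,5),(2,3),(8,7),(4,1),(6,2),(0,6)]⟩,⟨0,[(50,0)]⟩⟩ ⟨false,
  1,⟨1,[(51,0),(0,0)]⟩,⟨15,[(23,1),(5,0),(0,0),(8,1),(7,5),(1,1)]⟩⟩,.o ⟨false,2,⟨0,[(4,0),(47,0)]⟩,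
  ⟨2,[(0,1),(26,1),(0,3),(5,0),(9,2)]⟩⟩,.o ⟨false,1,⟨0,[(4,0)]⟩,⟨0,[(34,0)]⟩⟩,.a ⟨true,0,⟨2,[(3,2),
  (17,0),(3,1),(1,3),(11,0),(1,0)]⟩,⟨0,[(2,0),(38,0)]⟩⟩ ⟨false,1,⟨3,[(27,1),(23,0),(0,2)]⟩,⟨11,[(17,
  0),(5,3),(1,1),(0,2),(25,1)]⟩⟩ ⟨true,1,⟨1,[(51,0),(0,0)]⟩,⟨0,[(21,0),(2,0)]⟩⟩]⟩) (.R ⟨1,false,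
  false,true,[1,0,0,0,-1],[1,0,-1],[1,0,0,-1],(⟨0,[(35,0)]⟩,⟨0,[(36,0)]⟩),(⟨0,[(42,0)]⟩,⟨0,[(43,
  0)]⟩),⟨0,[(1,0)]⟩,.k,.k,(.r (-1) ⟨3,[(27,1),(23,0),(0,2)]⟩ ⟨17,[(23,9),(2,7),(2,0),(0,0),(8,1),(7,
  3)]⟩),.k,(.r (-2) ⟨1,[(18,1),(14,0),(0,0),(17,0)]⟩ ⟨0,[(25,0),(22,0)]⟩),.k,⟨true,1,⟨17,[(5,2),(8,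
  2),(3,10),(4,0),(17,2),(7,1),(2,9)]⟩,⟨0,[(25,0),(22,0)]⟩⟩,⟨false,1,⟨0,[(34,0),(6,0),(9,0)]⟩,⟨0,
  [(0,0),(14,0)]⟩⟩,⟨true,0,⟨0,[(49,0)]⟩,⟨0,[(50,0)]⟩⟩,⟨false,0,⟨0,[(34,0),(4,0)]⟩,⟨3,[(0,1),(2,1),
  (1,0),(9,0),(25,0),(10,1)]⟩⟩,⟨false,0,⟨0,[]⟩,⟨1,[(33,0),(0,0),(17,0)]⟩⟩,⟨false,0,⟨0,[(34,0),(4,0),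
  (10,0)]⟩,⟨1,[(0,1),(4,0),(9,0),(25,0),(10,1)]⟩⟩,[.a ⟨true,0,⟨0,[(39,0)]⟩,⟨12,[(5,2),(1,1),(10,0),
  (4,1),(4,4),(8,2),(14,8)]⟩⟩ ⟨false,1,⟨19,[(18,7),(8,5),(2,3),(8,7),(4,1),(6,2),(0,6)]⟩,⟨0,[(50,
  0)]⟩⟩ ⟨true,0,⟨0,[(34,0),(4,0)]⟩,⟨7,[(0,5),(2,1),(1,4),(9,0),(9,3),(15,4),(10,1)]⟩⟩,.o ⟨false,1,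
  ⟨1,[(39,1),(4,0),(7,0)]⟩,⟨0,[(13,0)]⟩⟩,.o ⟨false,1,⟨0,[(4,0)]⟩,⟨0,[(34,0)]⟩⟩,.e ⟨false,1,⟨3,[(27,
  1),(23,0),(0,2)]⟩,⟨11,[(17,0),(5,3),(1,1),(0,2),(25,1)]⟩⟩ ⟨false,1,⟨1,[(34,1),(4,1),(11,0),(0,
  0)]⟩,⟨7,[(0,5),(2,1),(1,4),(9,0),(9,3),(15,4),(10,1)]⟩⟩]⟩)) (.R ⟨0,false,false,true,[1,0,0,0,-1],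
  [0,1],[1,1,1],(⟨0,[(34,0)]⟩,⟨0,[(35,0)]⟩),(⟨0,[(45,0)]⟩,⟨0,[(44,0)]⟩),⟨0,[(0,0)]⟩,.k,.k,(.r (-1)
  ⟨3,[(26,1),(23,0),(0,2)]⟩ ⟨17,[(22,9),(2,7),(2,0),(0,0),(8,1),(7,3)]⟩),(.r (-1) ⟨3,[(26,1),(23,0),
  (0,2)]⟩ ⟨17,[(22,9),(2,7),(2,0),(0,0),(8,1),(7,3)]⟩),.k,.k,⟨false,1,⟨19,[(17,7),(8,5),(2,3),(8,7),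
  (4,1),(6,2),(0,6)]⟩,⟨0,[(49,0)]⟩⟩,⟨true,0,⟨0,[(1,0),(38,0)]⟩,⟨6,[(2,5),(0,0),(9,3),(6,1),(3,5),(1,
  9),(16,0)]⟩⟩,⟨true,(-1),⟨0,[(20,0),(2,0)]⟩,⟨1,[(50,0),(0,0)]⟩⟩,⟨false,(-1),⟨0,[(27,0),(5,0)]⟩,⟨4,
  [(2,0),(0,3),(9,0),(10,0),(1,3),(24,5)]⟩⟩,⟨false,0,⟨0,[]⟩,⟨0,[]⟩⟩,⟨false,0,⟨0,[]⟩,⟨0,[]⟩⟩,[.a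
  ⟨true,(-1),⟨0,[(27,0)]⟩,⟨0,[(48,0),(2,0)]⟩⟩ ⟨false,0,⟨15,[(22,1),(5,0),(0,0),(8,1),(7,5),(1,1)]⟩,
  ⟨1,[(50,0),(0,0)]⟩⟩ ⟨true,(-1),⟨0,[(27,0),(5,0)]⟩,⟨4,[(2,2),(0,1),(9,2),(10,2),(1,6),(24,2)]⟩⟩,.o
  ⟨false,0,⟨0,[(49,0)]⟩,⟨1,[(43,0),(4,1),(2,0)]⟩⟩,.o ⟨false,1,⟨0,[(3,0)]⟩,⟨0,[(33,0)]⟩⟩,.e ⟨false,0,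
  ⟨0,[]⟩,⟨1,[(32,0),(0,0),(17,0)]⟩⟩ ⟨false,0,⟨1,[(27,1),(5,1),(16,0),(0,0)]⟩,⟨4,[(2,2),(0,1),(9,2),
  (10,2),(1,6),(24,2)]⟩⟩]⟩)) (.R ⟨0,false,false,false,[1,-1,-1],[0,0,0,0,1],[0,1],(⟨0,[(29,0)]⟩,⟨0,
  [(20,0),(22,0)]⟩),(⟨0,[(34,0)]⟩,⟨0,[(33,0)]⟩),⟨0,[(20,0)]⟩,.k,.k,(.r (-1) ⟨0,[(23,0),(1,1),(23,0),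
  (0,0)]⟩ ⟨2,[(15,1),(5,1),(1,0),(26,0)]⟩),(.r (-1) ⟨3,[(23,3),(1,5),(23,2),(0,4)]⟩ ⟨2,[(15,0),(5,
  1),(23,0)]⟩),.k,.k,⟨false,1,⟨1,[(31,0),(0,0),(16,0)]⟩,⟨0,[]⟩⟩,⟨true,0,⟨0,[(32,0),(2,0)]⟩,⟨0,[(0,
  0)]⟩⟩,⟨false,0,⟨0,[(14,0)]⟩,⟨3,[(23,3),(1,5),(23,2),(0,4)]⟩⟩,⟨true,(-1),⟨3,[(5,0),(1,0),(7,1),(10,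
  1),(5,3)]⟩,⟨3,[(0,3),(22,3),(1,5),(23,4),(0,2)]⟩⟩,⟨false,0,⟨0,[]⟩,⟨0,[]⟩⟩,⟨false,0,⟨0,[]⟩,⟨0,[]⟩⟩,
  [.e ⟨false,0,⟨3,[(26,1),(15,0),(3,1),(2,0)]⟩,⟨1,[(31,0),(0,0),(17,0)]⟩⟩ ⟨false,0,⟨1,[(22,0),(3,0),
  (5,1),(2,0),(13,0)]⟩,⟨1,[(0,1),(48,0),(0,0)]⟩⟩,.o ⟨false,0,⟨0,[(32,0)]⟩,⟨0,[(2,0)]⟩⟩,.a ⟨true,0,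
  ⟨0,[(39,0)]⟩,⟨0,[(35,0)]⟩⟩ ⟨true,0,⟨15,[(21,1),(5,0),(0,0),(8,1),(7,5),(1,1)]⟩,⟨0,[]⟩⟩ ⟨false,0,
  ⟨0,[(32,0),(2,0)]⟩,⟨1,[(0,1),(48,0),(0,0)]⟩⟩,.o ⟨false,0,⟨0,[(12,0)]⟩,⟨3,[(7,0),(20,0),(13,0),(6,
  3)]⟩⟩]⟩)) (.Q [0,0,0,0,0,-1,0,0,0,0,0,1] (.ed false [1,-1,0,0,1] .k) (.S ⟨1,0,[0,1],[0,0,0,0,1],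
  [0,2],(⟨0,[(34,0)]⟩,⟨0,[(33,0)]⟩),⟨0,[(0,0)]⟩,.k,(.r 0 ⟨0,[(46,0)]⟩ ⟨3,[(21,1),(2,1),(6,0),(0,0),
  (17,2)]⟩),⟨true,0,⟨15,[(21,1),(5,0),(0,0),(8,1),(7,5),(1,1)]⟩,⟨0,[]⟩⟩,⟨false,1,⟨1,[(31,0),(0,0),
  (17,0)]⟩,⟨0,[]⟩⟩,⟨false,0,⟨0,[(48,0)]⟩,⟨0,[(47,0),(2,0)]⟩⟩,⟨true,0,⟨0,[(48,0)]⟩,⟨0,[(47,0)]⟩⟩,[.e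
  ⟨false,0,⟨0,[(45,0)]⟩,⟨0,[(50,0)]⟩⟩ ⟨false,0,⟨3,[(26,1),(15,0),(3,1),(2,0)]⟩,⟨1,[(31,0),(0,0),(17,
  0)]⟩⟩,.o ⟨false,0,⟨0,[(32,0)]⟩,⟨0,[(2,0)]⟩⟩,.o ⟨false,0,⟨0,[(32,0)]⟩,⟨0,[(2,0)]⟩⟩,.a ⟨true,(-1),
  ⟨16,[(1,7),(1,4),(9,2),(5,4),(3,1),(2,8),(5,8),(17,14)]⟩,⟨3,[(2,3),(22,1),(0,3),(22,0),(0,2)]⟩⟩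
  ⟨false,0,⟨3,[(26,1),(15,0),(3,1),(2,0)]⟩,⟨2,[(12,0),(15,0),(10,0),(10,2)]⟩⟩ ⟨true,0,⟨3,[(26,1),
  (15,0),(3,1),(2,0)]⟩,⟨2,[(12,0),(15,0),(10,0)]⟩⟩]⟩) (.R ⟨0,false,false,false,[0,0,0,0,1],[0,1],[1,
  0,1],(⟨0,[(34,0)]⟩,⟨0,[(33,0)]⟩),(⟨0,[(44,0)]⟩,⟨0,[(43,0)]⟩),⟨0,[(0,0)]⟩,.k,.k,(.r 0 ⟨0,[(46,0)]⟩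
  ⟨3,[(21,1),(2,1),(6,0),(0,0),(17,2)]⟩),(.r 0 ⟨0,[(46,0)]⟩ ⟨3,[(21,1),(2,1),(6,0),(0,0),(17,2)]⟩),
  .k,.k,⟨false,1,⟨19,[(16,7),(8,5),(2,3),(8,7),(4,1),(6,2),(0,6)]⟩,⟨0,[(48,0)]⟩⟩,⟨true,1,⟨3,[(2,3),
  (22,1),(0,3),(22,0),(0,2)]⟩,⟨3,[(1,1),(1,0),(1,0),(6,1),(10,1),(8,1),(17,1)]⟩⟩,⟨false,1,⟨2,[(12,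
  0),(15,0),(10,0),(10,2)]⟩,⟨3,[(26,1),(15,0),(3,1),(2,0)]⟩⟩,⟨true,1,⟨0,[(2,0),(23,0),(23,0)]⟩,⟨6,
  [(1,5),(3,1),(11,0),(14,0),(3,0),(5,0)]⟩⟩,⟨false,0,⟨0,[]⟩,⟨0,[]⟩⟩,⟨false,0,⟨0,[]⟩,⟨0,[]⟩⟩,[.o
  ⟨false,0,⟨0,[(48,0)]⟩,⟨1,[(42,0),(4,1),(2,0)]⟩⟩,.a ⟨true,0,⟨0,[(26,0),(23,0)]⟩,⟨0,[(47,0)]⟩⟩
  ⟨false,1,⟨1,[(31,0),(0,0),(17,0)]⟩,⟨3,[(26,1),(15,0),(3,1),(2,0)]⟩⟩ ⟨true,1,⟨0,[(2,0),(23,0),(23,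
  0)]⟩,⟨13,[(1,7),(1,4),(8,1),(10,1),(3,2),(4,5),(17,0)]⟩⟩,.o ⟨false,0,⟨0,[(32,0)]⟩,⟨0,[(2,0)]⟩⟩,.e
  ⟨true,0,⟨0,[]⟩,⟨15,[(21,1),(5,0),(0,0),(8,1),(7,5),(1,1)]⟩⟩ ⟨true,1,⟨1,[(2,1),(23,1),(22,0),(0,
  0)]⟩,⟨13,[(1,7),(1,4),(8,1),(10,1),(3,2),(4,5),(17,0)]⟩⟩]⟩))))))) (.R ⟨0,false,false,true,[1,-1,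
  -1],[0,-1,1],[0,1],(⟨0,[(23,0)]⟩,⟨0,[(14,0),(22,0)]⟩),(⟨0,[(24,0)]⟩,⟨1,[(14,0),(19,2)]⟩),⟨0,[(14,
  0)]⟩,.k,.k,(.r (-1) ⟨3,[(0,3),(0,3),(17,5),(23,2),(0,0)]⟩ ⟨2,[(9,1),(5,1),(1,0),(26,0)]⟩),.k,.k,
  .k,⟨false,0,⟨2,[(0,0),(0,0),(15,1),(1,0),(23,1)]⟩,⟨0,[(10,0)]⟩⟩,⟨true,(-1),⟨0,[(1,0)]⟩,⟨6,[(0,4),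
  (5,1),(2,0),(0,3),(2,1),(5,1)]⟩⟩,⟨false,0,⟨0,[(8,0)]⟩,⟨1,[(0,1),(0,1),(17,1),(23,0),(0,0)]⟩⟩,
  ⟨true,(-1),⟨1,[(3,0),(1,2),(14,0)]⟩,⟨2,[(0,3),(0,0),(15,1),(1,3),(23,1)]⟩⟩,⟨false,0,⟨0,[]⟩,⟨0,
  []⟩⟩,⟨false,0,⟨0,[]⟩,⟨0,[]⟩⟩,[.e ⟨false,0,⟨3,[(20,1),(15,0),(3,1),(2,0)]⟩,⟨2,[(0,0),(9,0),(11,0),
  (21,0)]⟩⟩ ⟨false,0,⟨1,[(3,0),(1,0),(10,0),(12,0),(13,0)]⟩,⟨0,[(0,0)]⟩⟩,.o ⟨false,0,⟨0,[(4,0)]⟩,⟨3,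
  [(0,1),(17,1),(17,0),(6,0)]⟩⟩,.a ⟨true,0,⟨0,[(33,0)]⟩,⟨0,[(29,0)]⟩⟩ ⟨true,0,⟨15,[(15,1),(5,0),(0,
  0),(8,1),(7,5),(1,1)]⟩,⟨0,[]⟩⟩ ⟨false,0,⟨0,[(4,0),(24,0)]⟩,⟨0,[(0,0)]⟩⟩,.o ⟨false,0,⟨0,[(6,0)]⟩,
  ⟨3,[(1,0),(20,0),(13,0),(6,3)]⟩⟩]⟩)) (.Q [0,-1,-2,0,2,0,-1,0,0,-1,1] (.p true [0,0,1] [1] (⟨0,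
  [(34,0)]⟩,⟨0,[(33,0)]⟩) .k 1 (⟨0,[]⟩,⟨0,[]⟩) .k .k) (.S ⟨1,1,[],[0,-1,1],[1,0,-1,-2,0,0,0,1],(⟨0,
  [(24,0)]⟩,⟨1,[(14,0),(19,2)]⟩),⟨0,[(2,0)]⟩,.k,(.r (-2) ⟨3,[(0,0),(9,4),(8,0),(2,0),(8,0),(9,0),(2,
  0)]⟩ ⟨0,[(17,0)]⟩),⟨false,1,⟨0,[(41,0),(2,0)]⟩,⟨0,[(42,0)]⟩⟩,⟨true,1,⟨3,[(0,0),(0,0),(15,0),(0,1),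
  (12,0),(4,0),(7,0)]⟩,⟨0,[(3,0)]⟩⟩,⟨true,0,⟨0,[]⟩,⟨15,[(15,1),(5,0),(0,0),(8,1),(7,5),(1,1)]⟩⟩,
  ⟨false,1,⟨0,[(0,0),(16,0)]⟩,⟨0,[(3,0),(37,0),(2,0)]⟩⟩,[.fo,.o ⟨false,1,⟨1,[(36,0),(7,0)]⟩,⟨15,
  [(15,1),(5,0),(0,0),(8,1),(7,5),(1,1)]⟩⟩,.a ⟨true,(-1),⟨0,[(7,0)]⟩,⟨0,[(1,0),(27,0)]⟩⟩ ⟨true,1,⟨5,
  [(3,0),(2,0),(3,4),(8,2),(24,1)]⟩,⟨3,[(17,3),(2,1),(15,0),(3,1),(2,0)]⟩⟩ ⟨false,2,⟨5,[(0,3),(0,2),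
  (19,0),(0,1),(21,0)]⟩,⟨0,[(7,0)]⟩⟩,.e ⟨false,2,⟨5,[(0,0),(9,5),(8,2),(9,0),(14,3)]⟩,⟨0,[(17,0)]⟩⟩
  ⟨false,2,⟨0,[(0,0)]⟩,⟨2,[(6,0),(0,2),(14,0),(10,0)]⟩⟩]⟩) (.Q [0,-1,0,2,1,0,-1,-1,0,-1,1] (.p true
  [0,0,1] [1] (⟨0,[(35,0)]⟩,⟨0,[(34,0)]⟩) .k 1 (⟨0,[]⟩,⟨0,[]⟩) .k .k) (.S ⟨1,1,[],[0,-1,1],[1,0,-1,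
  -2,0,0,0,1],(⟨0,[(25,0)]⟩,⟨1,[(15,0),(19,2)]⟩),⟨0,[(3,0)]⟩,.k,(.r (-2) ⟨19,[(11,27),(8,5),(2,3),
  (8,7),(4,1),(6,2),(0,6)]⟩ ⟨0,[(18,0)]⟩),⟨false,1,⟨0,[(42,0),(2,0)]⟩,⟨0,[(43,0)]⟩⟩,⟨true,1,⟨3,[(0,
  1),(1,0),(20,0),(8,1),(4,0)]⟩,⟨0,[(4,0)]⟩⟩,⟨true,0,⟨0,[]⟩,⟨15,[(16,1),(5,0),(0,0),(8,1),(7,5),(1,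
  1)]⟩⟩,⟨false,1,⟨0,[(0,0)]⟩,⟨0,[(4,0),(37,0),(2,0)]⟩⟩,[.fo,.o ⟨false,1,⟨1,[(37,0),(7,0)]⟩,⟨15,[(16,
  1),(5,0),(0,0),(8,1),(7,5),(1,1)]⟩⟩,.a ⟨true,(-1),⟨0,[(8,0)]⟩,⟨0,[(2,0),(27,0)]⟩⟩ ⟨true,1,⟨5,[(4,
  0),(2,0),(3,4),(8,2),(24,1)]⟩,⟨4,[(0,0),(16,0),(0,3),(2,2),(15,0),(3,1)]⟩⟩ ⟨false,2,⟨3,[(2,2),(20,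
  0),(13,0),(6,1),(0,1)]⟩,⟨0,[(8,0)]⟩⟩,.o ⟨false,(-1),⟨1,[(1,1),(35,0),(7,0)]⟩,⟨3,[(2,2),(20,0),(13,
  0),(6,3)]⟩⟩]⟩) (.Q [0,0,2,0,0,0,-1,0,-1,-1,1,1] (.p true [0,0,1] [1,0,0,0,-1] (⟨0,[(36,0)]⟩,⟨0,
  [(35,0)]⟩) .k 2 (⟨0,[(28,0)]⟩,⟨0,[(29,0)]⟩) .k (.r 0 ⟨4,[(0,0),(1,0),(7,2),(1,0)]⟩ ⟨9,[(17,3),(0,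
  1),(4,1),(8,7),(4,0),(7,10)]⟩)) (.R ⟨0,false,false,false,[1,-1,-1],[0,0,0,0,1],[0,1],(⟨0,[(25,
  0)]⟩,⟨0,[(16,0),(22,0)]⟩),(⟨0,[(30,0)]⟩,⟨0,[(29,0)]⟩),⟨0,[(16,0)]⟩,.k,.k,(.r (-1) ⟨0,[(19,0),(1,
  1),(23,0),(0,0)]⟩ ⟨2,[(11,1),(5,1),(1,0),(26,0)]⟩),(.r (-1) ⟨3,[(19,3),(1,5),(23,2),(0,4)]⟩ ⟨2,
  [(11,0),(5,1),(23,0)]⟩),.k,.k,⟨false,1,⟨1,[(3,0),(20,0),(20,0)]⟩,⟨0,[]⟩⟩,⟨true,0,⟨0,[(28,0),(2,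
  0)]⟩,⟨0,[(0,0)]⟩⟩,⟨false,0,⟨0,[(10,0)]⟩,⟨3,[(19,3),(1,5),(23,2),(0,4)]⟩⟩,⟨true,(-1),⟨0,[(7,0),(14,
  0),(5,0)]⟩,⟨3,[(0,3),(18,3),(1,5),(23,4),(0,2)]⟩⟩,⟨false,0,⟨0,[]⟩,⟨0,[]⟩⟩,⟨false,0,⟨0,[]⟩,⟨0,[]⟩⟩,
  [.e ⟨false,0,⟨3,[(22,1),(15,0),(3,1),(2,0)]⟩,⟨1,[(3,0),(20,0),(21,0)]⟩⟩ ⟨false,0,⟨1,[(18,0),(3,0),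
  (5,1),(2,0),(13,0)]⟩,⟨1,[(0,1),(44,0),(0,0)]⟩⟩,.o ⟨false,0,⟨0,[(28,0)]⟩,⟨1,[(0,1),(30,1),(6,0),(6,
  0)]⟩⟩,.a ⟨true,0,⟨0,[(35,0)]⟩,⟨0,[(31,0)]⟩⟩ ⟨true,0,⟨15,[(17,1),(5,0),(0,0),(8,1),(7,5),(1,1)]⟩,
  ⟨0,[]⟩⟩ ⟨false,0,⟨0,[(28,0),(2,0)]⟩,⟨1,[(0,1),(44,0),(0,0)]⟩⟩,.o ⟨false,0,⟨0,[(8,0)]⟩,⟨1,[(31,1),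
  (6,0),(6,0)]⟩⟩]⟩) (.Q [0,2,1,0,-2,0,-1,0,1,0,1,-1] (.p true [0,0,1] [0,0,0,0,1] (⟨0,[(37,0)]⟩,⟨0,
  [(36,0)]⟩) .k 2 (⟨0,[(30,0)]⟩,⟨0,[(29,0)]⟩) .k (.r (-1) ⟨1,[(10,0),(1,0),(33,0)]⟩ ⟨9,[(18,3),(0,
  1),(4,1),(8,7),(4,0),(7,0)]⟩)) (.R ⟨0,false,false,false,[1,-1,-1],[1,0,0,0,-1],[1,1,1],(⟨0,[(26,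
  0)]⟩,⟨0,[(17,0),(22,0)]⟩),(⟨0,[(30,0)]⟩,⟨0,[(31,0)]⟩),⟨0,[(17,0)]⟩,.k,.k,(.r (-1) ⟨0,[(20,0),(1,
  1),(23,0),(0,0)]⟩ ⟨2,[(12,1),(5,1),(1,0),(26,0)]⟩),(.r 0 ⟨3,[(20,3),(1,5),(23,2),(0,0)]⟩ ⟨1,[(18,
  1),(27,0),(0,0)]⟩),.k,.k,⟨true,(-1),⟨6,[(3,2),(5,0),(6,1),(5,0),(16,0),(2,3)]⟩,⟨0,[(47,0)]⟩⟩,
  ⟨false,2,⟨1,[(28,1),(3,1),(6,0),(6,0)]⟩,⟨0,[(0,0),(46,0)]⟩⟩,⟨true,(-1),⟨0,[(8,0),(7,0)]⟩,⟨3,[(20,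
  3),(1,5),(23,4),(0,2)]⟩⟩,⟨false,2,⟨0,[(8,0),(19,0),(16,0),(1,0)]⟩,⟨3,[(0,3),(19,3),(1,5),(23,2),
  (0,4)]⟩⟩,⟨false,0,⟨0,[]⟩,⟨0,[]⟩⟩,⟨false,0,⟨0,[]⟩,⟨0,[]⟩⟩,[.o ⟨false,2,⟨1,[(28,1),(10,0),(7,0)]⟩,
  ⟨6,[(0,3),(0,2),(1,0),(35,1),(7,0)]⟩⟩,.e ⟨false,0,⟨0,[]⟩,⟨1,[(4,0),(20,0),(20,0)]⟩⟩ ⟨false,3,⟨1,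
  [(28,1),(3,1),(6,0),(6,0),(0,1)]⟩,⟨0,[(0,0)]⟩⟩,.a ⟨true,0,⟨0,[(36,0)]⟩,⟨0,[(32,0)]⟩⟩ ⟨false,0,⟨2,
  [(9,0),(15,0),(10,0)]⟩,⟨1,[(46,0),(0,0)]⟩⟩ ⟨true,2,⟨1,[(28,1),(3,1),(6,0),(7,0)]⟩,⟨0,[(0,0)]⟩⟩,.o
  ⟨false,0,⟨0,[(9,0)]⟩,⟨1,[(32,1),(6,0),(6,0)]⟩⟩]⟩) (.Q [0,1,-1,0,-1,0,1,0,1,1,-1,-1] (.p false [0,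
  0,1] [1,0,0,0,-1] (⟨0,[(38,0)]⟩,⟨0,[(37,0)]⟩) .k 2 (⟨0,[(30,0)]⟩,⟨0,[(31,0)]⟩) .k (.r 0 ⟨4,[(2,0),
  (1,0),(7,2),(1,0)]⟩ ⟨9,[(19,3),(0,1),(4,1),(8,7),(4,0),(7,10)]⟩)) (.Q [0,-2,0,-1,2,0,-1,-1,-1,-1,
  1,1] (.p true [0,0,1] [1,0,0,0,-1] (⟨0,[(39,0)]⟩,⟨0,[(38,0)]⟩) .k 2 (⟨0,[(31,0)]⟩,⟨0,[(32,0)]⟩)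
  .k (.r 0 ⟨4,[(3,0),(1,0),(7,2),(1,0)]⟩ ⟨9,[(20,3),(0,1),(4,1),(8,7),(4,0),(7,10)]⟩)) (.R ⟨0,false,
  false,true,[1,-1,-1],[0,0,0,0,1],[],(⟨0,[(28,0)]⟩,⟨0,[(19,0),(22,0)]⟩),(⟨0,[(33,0)]⟩,⟨0,[(32,
  0)]⟩),⟨0,[(19,0)]⟩,.k,.k,(.r (-1) ⟨4,[(0,3),(0,3),(20,0),(1,3),(23,1)]⟩ ⟨2,[(14,1),(5,1),(1,0),
  (26,0)]⟩),(.r (-1) ⟨0,[(0,0),(0,0)]⟩ ⟨2,[(14,0),(5,1),(23,0)]⟩),.k,.k,⟨true,1,⟨0,[(49,0)]⟩,⟨6,[(5,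
  2),(5,0),(6,1),(5,0),(16,0),(2,3)]⟩⟩,⟨false,0,⟨0,[(3,0)]⟩,⟨1,[(0,1),(7,0),(5,0),(3,0),(6,0),(15,
  0)]⟩⟩,⟨true,0,⟨0,[(13,0)]⟩,⟨4,[(0,0),(0,0),(20,3),(1,5),(23,2)]⟩⟩,⟨false,(-1),⟨0,[(1,0),(11,0)]⟩,
  ⟨0,[(0,0)]⟩⟩,⟨false,0,⟨0,[]⟩,⟨0,[]⟩⟩,⟨false,0,⟨0,[]⟩,⟨0,[]⟩⟩,[.o ⟨false,(-1),⟨12,[(1,12),(4,1),(4,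
  2),(6,5),(5,2),(16,3),(2,1)]⟩,⟨0,[(0,0),(9,0),(36,0)]⟩⟩,.a ⟨true,(-1),⟨0,[(1,0),(36,0)]⟩,⟨0,[(0,
  0),(9,0),(14,0)]⟩⟩ ⟨false,1,⟨1,[(48,0),(0,0)]⟩,⟨15,[(20,1),(5,0),(0,0),(8,1),(7,5),(1,1)]⟩⟩ ⟨true,
  (-1),⟨0,[(1,0)]⟩,⟨0,[(0,0),(9,0),(7,0)]⟩⟩,.e ⟨false,1,⟨23,[(0,0),(1,4),(12,2),(4,3),(6,0),(3,5),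
  (4,5),(12,8)]⟩,⟨0,[]⟩⟩ ⟨false,(-1),⟨0,[(1,0)]⟩,⟨0,[(0,0),(12,0)]⟩⟩,.o ⟨false,0,⟨0,[(11,0)]⟩,⟨1,
  [(34,1),(6,0),(6,0)]⟩⟩]⟩) (.Q [0,2,0,0,-2,0,1,1,1,1,-1,-1] (.p false [0,0,1] [1,0,0,0,-1] (⟨0,
  [(40,0)]⟩,⟨0,[(39,0)]⟩) .k 2 (⟨0,[(32,0)]⟩,⟨0,[(33,0)]⟩) .k (.r 0 ⟨4,[(4,0),(1,0),(7,2),(1,0)]⟩
  ⟨9,[(21,3),(0,1),(4,1),(8,7),(4,0),(7,10)]⟩)) (.Q [0,0,-1,0,1,0,1,0,-1,0,-1,1] (.p false [0,0,1]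
  [0,0,0,0,1] (⟨0,[(41,0)]⟩,⟨0,[(40,0)]⟩) .k 2 (⟨0,[(34,0)]⟩,⟨0,[(33,0)]⟩) .k (.r (-1) ⟨1,[(14,0),
  (1,0),(33,0)]⟩ ⟨9,[(22,3),(0,1),(4,1),(8,7),(4,0),(7,0)]⟩)) (.Q [0,-1,0,1,1,0,1,1,-1,0,-1,1] (.p
  false [0,0,1] [0,0,0,0,1] (⟨0,[(42,0)]⟩,⟨0,[(41,0)]⟩) .k 2 (⟨0,[(35,0)]⟩,⟨0,[(34,0)]⟩) .k (.r
  (-1) ⟨1,[(15,0),(1,0),(33,0)]⟩ ⟨9,[(23,3),(0,1),(4,1),(8,7),(4,0),(7,0)]⟩)) (.Q [0,-2,0,1,2,0,-1,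
  -1,-1,-1,1,1] (.p true [0,0,1] [1,0,0,0,-1] (⟨0,[(43,0)]⟩,⟨0,[(42,0)]⟩) .k 2 (⟨0,[(35,0)]⟩,⟨0,
  [(36,0)]⟩) .k (.r 0 ⟨4,[(7,0),(1,0),(7,2),(1,0)]⟩ ⟨9,[(24,3),(0,1),(4,1),(8,7),(4,0),(7,10)]⟩))
  (.R ⟨1,true,false,false,[0,0,1],[1,0,0,0,-1],[1,0,0,-1,0,0,0,1],(⟨0,[(44,0)]⟩,⟨0,[(43,0)]⟩),(⟨0,
  [(36,0)]⟩,⟨0,[(37,0)]⟩),⟨0,[(33,0)]⟩,.k,.k,.k,.k,(.r (-1) ⟨7,[(10,0),(8,6),(4,0),(6,0),(16,2),(1,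
  1)]⟩ ⟨6,[(0,0),(6,0),(18,5),(1,2),(24,3)]⟩),.k,⟨true,0,⟨4,[(8,1),(1,1),(7,0),(1,1)]⟩,⟨6,[(0,0),(6,
  0),(18,5),(1,2),(24,3)]⟩⟩,⟨false,2,⟨0,[(2,0),(7,0)]⟩,⟨1,[(3,0),(1,0),(20,0),(1,0),(24,1)]⟩⟩,
  ⟨false,1,⟨0,[(50,0),(2,0)]⟩,⟨0,[(51,0)]⟩⟩,⟨true,2,⟨0,[(0,0),(49,0)]⟩,⟨0,[(3,0)]⟩⟩,⟨true,0,⟨0,[]⟩,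
  ⟨15,[(24,1),(5,0),(0,0),(8,1),(7,5),(1,1)]⟩⟩,⟨false,2,⟨0,[(0,0)]⟩,⟨4,[(3,0),(3,0),(0,2),(15,0),
  (10,2)]⟩⟩,[]⟩) (.Q [0,2,0,0,-2,0,0,0,1,1,0,-1] (.p false [0,0,0,0,1] [1] (⟨0,[(37,0)]⟩,⟨0,[(36,
  0)]⟩) .k 1 (⟨0,[]⟩,⟨0,[]⟩) .k .k) (.Q [0,0,0,0,0,-1,0,0,0,1,0,-1] (.ed true [0,1,0,0,1] .k) (.S
  ⟨1,0,[0,-1],[1,0,0,0,-1],[],(⟨0,[(38,0)]⟩,⟨0,[(39,0)]⟩),⟨0,[(0,0)]⟩,.k,(.r (-1) ⟨3,[(30,1),(23,0),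
  (0,2)]⟩ ⟨17,[(26,9),(2,7),(2,0),(0,0),(8,1),(7,3)]⟩),⟨true,0,⟨15,[(26,1),(5,0),(0,0),(8,1),(7,5),
  (1,1)]⟩,⟨0,[]⟩⟩,⟨false,1,⟨1,[(12,0),(20,0),(21,0)]⟩,⟨0,[]⟩⟩,⟨false,0,⟨0,[(53,0)]⟩,⟨0,[(52,0),(2,
  0)]⟩⟩,⟨true,0,⟨0,[(53,0)]⟩,⟨0,[(52,0)]⟩⟩,[.o ⟨false,2,⟨3,[(8,1),(3,0),(19,0),(3,1),(10,0)]⟩,⟨1,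
  [(1,1),(45,0),(7,0)]⟩⟩,.a ⟨true,2,⟨0,[(36,0),(18,0)]⟩,⟨0,[(1,0)]⟩⟩ ⟨false,1,⟨1,[(54,0),(0,0)]⟩,
  ⟨15,[(26,1),(5,0),(0,0),(8,1),(7,5),(1,1)]⟩⟩ ⟨true,1,⟨0,[(55,0)]⟩,⟨6,[(11,2),(5,0),(6,1),(5,0),
  (16,0),(2,3)]⟩⟩,.e ⟨false,1,⟨1,[(12,0),(20,0),(21,0)]⟩,⟨0,[]⟩⟩ ⟨false,1,⟨0,[(55,0)]⟩,⟨15,[(26,1),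
  (5,0),(0,0),(8,1),(7,5),(1,1)]⟩⟩,.o ⟨false,1,⟨0,[(4,0),(12,0)]⟩,⟨1,[(1,1),(45,0),(6,0),(0,
  1)]⟩⟩]⟩) (.R ⟨0,false,false,true,[1,0,0,0,-1],[1,-1,-1],[0,1],(⟨0,[(38,0)]⟩,⟨0,[(39,0)]⟩),(⟨0,
  [(34,0)]⟩,⟨0,[(25,0),(22,0)]⟩),⟨0,[(0,0)]⟩,.k,.k,(.r (-1) ⟨3,[(30,1),(23,0),(0,2)]⟩ ⟨17,[(26,9),
  (2,7),(2,0),(0,0),(8,1),(7,3)]⟩),(.r (-1) ⟨4,[(8,0),(0,0),(2,0),(7,0),(5,3),(28,1)]⟩ ⟨3,[(28,3),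
  (1,5),(23,2),(0,0)]⟩),.k,.k,⟨true,0,⟨0,[(19,0)]⟩,⟨3,[(28,3),(1,5),(23,0),(0,2)]⟩⟩,⟨false,0,⟨1,[(1,
  0),(10,0),(24,0),(17,0)]⟩,⟨0,[(4,0)]⟩⟩,⟨false,0,⟨15,[(26,1),(5,0),(0,0),(8,1),(7,5),(1,1)]⟩,⟨0,
  [(55,0)]⟩⟩,⟨true,(-1),⟨11,[(1,11),(15,1),(10,1),(1,7),(11,9),(4,4),(7,8)]⟩,⟨0,[(3,0)]⟩⟩,⟨false,0,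
  ⟨0,[]⟩,⟨0,[]⟩⟩,⟨false,0,⟨0,[]⟩,⟨0,[]⟩⟩,[.e ⟨false,0,⟨3,[(31,1),(15,0),(3,1),(2,0)]⟩,⟨1,[(12,0),
  (20,0),(21,0)]⟩⟩ ⟨false,0,⟨3,[(1,3),(28,1),(11,3),(4,1),(6,0),(0,4)]⟩,⟨0,[(3,0)]⟩⟩,.o ⟨false,1,
  ⟨11,[(17,1),(10,1),(1,7),(11,9),(4,4),(7,8)]⟩,⟨3,[(3,1),(2,1),(40,0),(7,0)]⟩⟩,.a ⟨true,1,⟨0,[(36,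
  0)]⟩,⟨0,[(1,0),(53,0)]⟩⟩ ⟨true,0,⟨15,[(26,1),(5,0),(0,0),(8,1),(7,5),(1,1)]⟩,⟨0,[]⟩⟩ ⟨false,0,⟨11,
  [(1,11),(15,1),(10,1),(1,7),(11,9),(4,4),(7,20)]⟩,⟨0,[(3,0)]⟩⟩,.o ⟨false,1,⟨0,[(4,0),(12,0)]⟩,⟨1,
  [(1,1),(45,0),(6,0),(0,1)]⟩⟩]⟩)) (.Q [0,0,2,0,-2,0,1,0,1,1,-1,-1] (.p false [0,0,1] [1,0,0,0,-1]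
  (⟨0,[(45,0)]⟩,⟨0,[(44,0)]⟩) .k 2 (⟨0,[(37,0)]⟩,⟨0,[(38,0)]⟩) .k (.r 0 ⟨4,[(9,0),(1,0),(7,2),(1,
  0)]⟩ ⟨9,[(26,3),(0,1),(4,1),(8,7),(4,0),(7,10)]⟩)) (.R ⟨0,false,false,false,[1,-1,-1],[1,0,0,0,
  -1],[0,1],(⟨0,[(34,0)]⟩,⟨0,[(25,0),(22,0)]⟩),(⟨0,[(38,0)]⟩,⟨0,[(39,0)]⟩),⟨0,[(25,0)]⟩,.k,.k,(.r
  (-1) ⟨0,[(28,0),(1,1),(23,0),(0,0)]⟩ ⟨2,[(20,1),(5,1),(1,0),(26,0)]⟩),(.r 0 ⟨3,[(28,3),(1,5),(23,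
  2),(0,0)]⟩ ⟨4,[(8,0),(0,0),(2,0),(7,0),(5,3),(28,1)]⟩),.k,.k,⟨false,0,⟨0,[(50,0)]⟩,⟨0,[(55,0)]⟩⟩,
  ⟨true,1,⟨0,[(4,0)]⟩,⟨0,[(0,0),(11,0)]⟩⟩,⟨false,0,⟨0,[(19,0)]⟩,⟨3,[(28,3),(1,5),(23,2),(0,4)]⟩⟩,
  ⟨true,1,⟨0,[(3,0)]⟩,⟨3,[(0,0),(6,1),(1,0),(2,3),(15,3),(1,5)]⟩⟩,⟨false,0,⟨0,[]⟩,⟨0,[]⟩⟩,⟨false,0,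
  ⟨0,[]⟩,⟨0,[]⟩⟩,[.e ⟨false,0,⟨3,[(31,1),(15,0),(3,1),(2,0)]⟩,⟨1,[(12,0),(20,0),(21,0)]⟩⟩ ⟨false,2,
  ⟨1,[(4,0),(3,0),(45,0)]⟩,⟨6,[(0,2),(1,1),(4,1),(4,6),(15,1),(1,0)]⟩⟩,.o ⟨false,2,⟨0,[(1,0)]⟩,⟨2,
  [(5,1),(31,0),(4,1),(4,0)]⟩⟩,.a ⟨true,0,⟨0,[(44,0)]⟩,⟨0,[(40,0)]⟩⟩ ⟨true,0,⟨15,[(26,1),(5,0),(0,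
  0),(8,1),(7,5),(1,1)]⟩,⟨0,[]⟩⟩ ⟨false,2,⟨0,[(8,0)]⟩,⟨6,[(0,2),(1,1),(4,1),(4,6),(15,1),(1,0)]⟩⟩,
  .o ⟨false,0,⟨0,[(17,0)]⟩,⟨3,[(4,1),(4,1),(37,0),(6,0)]⟩⟩]⟩) (.S ⟨1,0,[0,0,-1,-1,0,0,0,1],[0,-1,1],
  [0,1,-1,-1,0,0,0,1],(⟨0,[(35,0)]⟩,⟨1,[(25,0),(19,2)]⟩),⟨0,[(13,0)]⟩,.k,(.r (-2) ⟨2,[(8,0),(12,3),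
  (8,0),(6,0),(4,0)]⟩ ⟨0,[(28,0)]⟩),⟨true,0,⟨15,[(26,1),(5,0),(0,0),(8,1),(7,5),(1,1)]⟩,⟨0,[]⟩⟩,
  ⟨false,1,⟨1,[(12,0),(20,0),(21,0)]⟩,⟨0,[]⟩⟩,⟨false,0,⟨0,[(53,0)]⟩,⟨0,[(52,0),(2,0)]⟩⟩,⟨true,0,⟨0,
  [(53,0)]⟩,⟨0,[(52,0)]⟩⟩,[.o ⟨false,0,⟨0,[(15,0)]⟩,⟨5,[(0,0),(8,0),(2,1),(15,1),(0,1),(12,1),(4,1),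
  (7,1)]⟩⟩,.e ⟨false,1,⟨0,[(0,0),(1,0),(52,0)]⟩,⟨5,[(28,1),(0,1),(2,0),(0,0),(8,1),(12,1)]⟩⟩ ⟨false,
  2,⟨3,[(0,0),(8,0),(11,3),(33,1)]⟩,⟨0,[(28,0),(22,0)]⟩⟩,.a ⟨true,(-1),⟨0,[(18,0)]⟩,⟨0,[(12,0),(27,
  0)]⟩⟩ ⟨false,1,⟨1,[(0,13),(1,13),(7,3),(1,1),(15,15),(1,5),(16,0),(7,18)]⟩,⟨7,[(0,0),(8,0),(18,7),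
  (1,3),(24,5)]⟩⟩ ⟨true,1,⟨1,[(0,13),(1,13),(7,3),(1,1),(15,15),(1,5),(16,0),(7,18)]⟩,⟨0,[(28,0),
  (22,0)]⟩⟩,.o ⟨false,(-1),⟨1,[(11,1),(35,0),(7,0)]⟩,⟨0,[(0,0),(36,0)]⟩⟩]⟩)))) (.R ⟨0,false,false,
  true,[1,-1,-1],[1,0,0,0,-1],[0,1],(⟨0,[(31,0)]⟩,⟨0,[(22,0),(22,0)]⟩),(⟨0,[(35,0)]⟩,⟨0,[(36,0)]⟩),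
  ⟨0,[(22,0)]⟩,.k,.k,(.r (-1) ⟨3,[(0,3),(0,0),(3,2),(21,1),(23,0)]⟩ ⟨2,[(17,1),(5,1),(1,0),(26,
  0)]⟩),(.r 0 ⟨0,[(0,0),(0,0)]⟩ ⟨4,[(5,0),(0,0),(2,0),(7,0),(5,3),(28,1)]⟩),.k,.k,⟨false,0,⟨3,[(28,
  1),(15,0),(3,1),(2,0)]⟩,⟨1,[(9,0),(20,0),(21,0)]⟩⟩,⟨true,1,⟨0,[(1,0)]⟩,⟨1,[(0,0),(1,0),(11,0),(6,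
  0),(30,1)]⟩⟩,⟨false,0,⟨0,[(16,0)]⟩,⟨0,[(0,0),(4,0)]⟩⟩,⟨true,1,⟨0,[(1,0),(14,0)]⟩,⟨0,[(0,0)]⟩⟩,
  ⟨false,0,⟨0,[]⟩,⟨0,[]⟩⟩,⟨false,0,⟨0,[]⟩,⟨0,[]⟩⟩,[.a ⟨true,1,⟨0,[(33,0)]⟩,⟨1,[(0,0),(1,0),(25,0),
  (23,1)]⟩⟩ ⟨false,0,⟨3,[(28,1),(15,0),(3,1),(2,0)]⟩,⟨1,[(9,0),(20,0),(21,0)]⟩⟩ ⟨true,1,⟨0,[(1,0)]⟩,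
  ⟨1,[(0,0),(1,0),(11,0),(6,0),(30,1)]⟩⟩,.o ⟨false,2,⟨3,[(5,1),(3,0),(19,0),(3,1),(10,0)]⟩,⟨3,[(0,
  1),(2,1),(40,0),(7,0)]⟩⟩,.e ⟨true,0,⟨15,[(23,1),(5,0),(0,0),(8,1),(7,5),(1,1)]⟩,⟨0,[]⟩⟩ ⟨true,1,
  ⟨0,[(1,0)]⟩,⟨7,[(0,2),(1,2),(6,1),(4,0),(6,2),(12,1),(17,1)]⟩⟩,.o ⟨false,0,⟨0,[(14,0)]⟩,⟨3,[(1,1),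
  (4,1),(37,0),(6,0)]⟩⟩]⟩)) (.R ⟨0,false,false,false,[1,-1,-1],[1,0,0,0,-1],[1,1,1],(⟨0,[(30,0)]⟩,
  ⟨0,[(21,0),(22,0)]⟩),(⟨0,[(34,0)]⟩,⟨0,[(35,0)]⟩),⟨0,[(21,0)]⟩,.k,.k,(.r (-1) ⟨0,[(24,0),(1,1),(23,
  0),(0,0)]⟩ ⟨2,[(16,1),(5,1),(1,0),(26,0)]⟩),(.r 0 ⟨3,[(24,3),(1,5),(23,2),(0,0)]⟩ ⟨4,[(4,0),(0,0),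
  (2,0),(7,0),(5,3),(28,1)]⟩),.k,.k,⟨true,(-1),⟨6,[(7,2),(5,0),(6,1),(5,0),(16,0),(2,3)]⟩,⟨0,[(51,
  0)]⟩⟩,⟨false,2,⟨0,[(4,0),(41,0)]⟩,⟨0,[(0,0)]⟩⟩,⟨true,(-1),⟨0,[(12,0),(7,0)]⟩,⟨3,[(24,3),(1,5),(23,
  4),(0,2)]⟩⟩,⟨false,2,⟨0,[(4,0),(10,0)]⟩,⟨3,[(0,3),(23,3),(1,5),(23,2),(0,0)]⟩⟩,⟨false,0,⟨0,[]⟩,⟨0,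
  []⟩⟩,⟨false,0,⟨0,[]⟩,⟨0,[]⟩⟩,[.o ⟨false,2,⟨3,[(4,1),(3,0),(19,0),(3,1),(10,0)]⟩,⟨7,[(0,3),(1,0),
  (0,2),(20,0),(18,1),(3,2)]⟩⟩,.a ⟨true,2,⟨0,[(32,0),(18,0)]⟩,⟨3,[(0,1),(1,0),(0,0),(20,0),(1,1),(0,
  1),(19,0)]⟩⟩ ⟨false,0,⟨0,[]⟩,⟨3,[(4,0),(0,0),(2,1),(20,0),(16,0)]⟩⟩ ⟨true,2,⟨0,[(4,0)]⟩,⟨4,[(0,2),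
  (0,1),(5,0),(5,0),(6,1),(5,0),(11,1),(4,0)]⟩⟩,.e ⟨false,0,⟨2,[(13,0),(15,0),(10,0)]⟩,⟨1,[(50,0),
  (0,0)]⟩⟩ ⟨false,2,⟨0,[(4,0)]⟩,⟨7,[(0,3),(0,1),(6,0),(4,0),(6,0),(12,1),(4,1),(9,0)]⟩⟩,.o ⟨false,0,
  ⟨0,[(13,0)]⟩,⟨10,[(2,0),(0,2),(0,3),(18,2),(0,0),(18,1),(6,6)]⟩⟩]⟩)) (.R ⟨1,true,false,true,[1,0,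
  -1],[0,0,0,0,1],[1,1,0,-1,0,0,0,-1],(⟨0,[(40,0)]⟩,⟨0,[(41,0)]⟩),(⟨0,[(34,0)]⟩,⟨0,[(33,0)]⟩),⟨0,
  [(29,0)]⟩,.k,.k,.k,.k,(.r (-1) ⟨3,[(0,2),(1,2),(20,0),(1,2),(24,1)]⟩ ⟨2,[(15,0),(5,1),(23,0)]⟩),
  .k,⟨false,1,⟨3,[(0,2),(1,2),(20,0),(1,2),(24,1)]⟩,⟨0,[(15,0)]⟩⟩,⟨true,(-1),⟨2,[(1,1),(0,0),(20,1),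
  (1,2),(24,3)]⟩,⟨3,[(0,2),(6,0),(1,2),(9,1),(6,0),(4,0),(10,1)]⟩⟩,⟨true,0,⟨0,[(47,0)]⟩,⟨0,[(48,
  0)]⟩⟩,⟨false,(-1),⟨2,[(1,0),(2,0),(0,0),(15,0),(10,0)]⟩,⟨0,[(0,0)]⟩⟩,⟨false,0,⟨0,[]⟩,⟨12,[(0,0),
  (2,1),(12,1),(4,1),(6,0),(3,2),(4,2),(12,4)]⟩⟩,⟨true,(-2),⟨0,[(1,0)]⟩,⟨0,[(0,0),(46,0)]⟩⟩,[]⟩)))
  (.Q [0,2,0,0,-1,0,0,0,1,0,0,-1] (.p false [0,0,0,0,1] [] (⟨0,[(32,0)]⟩,⟨0,[(31,0)]⟩) .k 0 (⟨0,[]⟩,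
  ⟨0,[]⟩) .k .k) (.R ⟨0,false,false,true,[1,-1,-1],[0,0,0,0,1],[],(⟨0,[(28,0)]⟩,⟨0,[(19,0),(22,
  0)]⟩),(⟨0,[(33,0)]⟩,⟨0,[(32,0)]⟩),⟨0,[(19,0)]⟩,.k,.k,(.r (-1) ⟨0,[(22,0),(1,1),(23,0),(0,0)]⟩ ⟨2,
  [(14,1),(5,1),(1,0),(26,0)]⟩),(.r (-1) ⟨3,[(22,3),(1,5),(23,2),(0,4)]⟩ ⟨2,[(14,0),(5,1),(23,0)]⟩),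
  .k,.k,⟨true,1,⟨0,[(49,0)]⟩,⟨6,[(5,2),(5,0),(6,1),(5,0),(16,0),(2,3)]⟩⟩,⟨false,0,⟨0,[(3,0)]⟩,⟨2,
  [(1,1),(9,0),(18,0),(13,0)]⟩⟩,⟨true,0,⟨0,[(13,0)]⟩,⟨3,[(22,3),(1,5),(23,2),(0,0)]⟩⟩,⟨false,(-1),
  ⟨0,[(10,0),(14,0),(5,0)]⟩,⟨3,[(1,3),(20,3),(1,5),(23,2),(0,4)]⟩⟩,⟨false,0,⟨0,[]⟩,⟨0,[]⟩⟩,⟨false,0,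
  ⟨0,[]⟩,⟨0,[]⟩⟩,[.o ⟨false,(-1),⟨0,[(0,0)]⟩,⟨3,[(1,1),(0,1),(38,0),(7,0)]⟩⟩,.e ⟨false,1,⟨1,[(48,0),
  (0,0)]⟩,⟨15,[(20,1),(5,0),(0,0),(8,1),(7,5),(1,1)]⟩⟩ ⟨false,0,⟨39,[(3,33),(0,0),(10,0),(4,2),(6,
  4),(3,5),(4,4),(7,16)]⟩,⟨0,[(1,0)]⟩⟩,.a ⟨true,0,⟨0,[(38,0)]⟩,⟨0,[(34,0)]⟩⟩ ⟨false,1,⟨1,[(6,0),(20,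
  0),(21,0)]⟩,⟨0,[]⟩⟩ ⟨true,(-1),⟨20,[(0,9),(2,10),(0,0),(0,3),(19,1),(1,2),(8,0),(7,6)]⟩,⟨0,[(1,
  0)]⟩⟩,.o ⟨false,0,⟨0,[(11,0)]⟩,⟨1,[(34,1),(6,0),(6,0)]⟩⟩]⟩) (.S ⟨1,0,[0,0,-1,-1,0,0,0,1],[0,-1,1],
  [0,1,-1,-1,0,0,0,1],(⟨0,[(29,0)]⟩,⟨1,[(19,0),(19,2)]⟩),⟨0,[(7,0)]⟩,.k,(.r (-2) ⟨2,[(2,0),(12,3),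
  (8,0),(6,0),(4,0)]⟩ ⟨0,[(22,0)]⟩),⟨true,0,⟨15,[(20,1),(5,0),(0,0),(8,1),(7,5),(1,1)]⟩,⟨0,[]⟩⟩,
  ⟨false,1,⟨1,[(6,0),(20,0),(21,0)]⟩,⟨0,[]⟩⟩,⟨false,0,⟨0,[(47,0)]⟩,⟨0,[(46,0),(2,0)]⟩⟩,⟨true,0,⟨0,
  [(47,0)]⟩,⟨0,[(46,0)]⟩⟩,[.o ⟨false,0,⟨0,[(9,0)]⟩,⟨2,[(6,0),(15,0),(0,0),(12,0),(4,0),(6,0),(0,
  0)]⟩⟩,.e ⟨false,1,⟨0,[(0,0),(2,0),(0,0),(1,0),(18,0),(15,0)]⟩,⟨5,[(22,1),(0,1),(2,0),(0,0),(8,1),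
  (12,1)]⟩⟩ ⟨false,2,⟨1,[(15,1),(32,0),(0,0)]⟩,⟨0,[(22,0),(22,0)]⟩⟩,.a ⟨true,(-1),⟨0,[(12,0)]⟩,⟨0,
  [(6,0),(27,0)]⟩⟩ ⟨false,1,⟨0,[(0,11),(2,11),(0,13),(1,12),(15,12),(1,2),(0,6),(15,9)]⟩,⟨11,[(0,1),
  (2,1),(18,9),(1,3),(11,1),(4,0),(7,6)]⟩⟩ ⟨true,1,⟨0,[(0,11),(2,11),(0,13),(1,12),(15,12),(1,2),(0,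
  6),(15,9)]⟩,⟨0,[(22,0),(22,0)]⟩⟩,.o ⟨false,(-1),⟨1,[(5,1),(35,0),(7,0)]⟩,⟨4,[(2,0),(3,2),(24,0),
  (9,0),(2,0),(3,3)]⟩⟩]⟩))))))))))) (.R ⟨0,false,false,true,[1,-1,-1],[1,-1],[0,1],(⟨0,[(18,0)]⟩,⟨0,
  [(9,0),(22,0)]⟩),(⟨0,[(32,0)]⟩,⟨0,[(33,0)]⟩),⟨0,[(9,0)]⟩,.k,.k,(.r (-1) ⟨3,[(0,3),(10,3),(2,1),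
  (23,0),(0,2)]⟩ ⟨2,[(4,1),(5,1),(1,0),(26,0)]⟩),.k,.k,.k,⟨false,0,⟨0,[(37,0)]⟩,⟨19,[(5,7),(8,5),(2,
  3),(8,7),(4,1),(6,2),(0,6)]⟩⟩,⟨true,0,⟨0,[(7,0)]⟩,⟨0,[(28,0)]⟩⟩,⟨false,0,⟨0,[(3,0)]⟩,⟨0,[(0,0),
  (10,0),(27,0)]⟩⟩,⟨true,0,⟨0,[(25,0)]⟩,⟨0,[(0,0)]⟩⟩,⟨false,0,⟨0,[]⟩,⟨0,[]⟩⟩,⟨false,0,⟨0,[]⟩,⟨0,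
  []⟩⟩,[.a ⟨true,0,⟨0,[(36,0)]⟩,⟨0,[(15,0),(23,0)]⟩⟩ ⟨false,0,⟨3,[(15,1),(15,0),(3,1),(2,0)]⟩,⟨1,
  [(20,0),(0,0),(17,0)]⟩⟩ ⟨true,0,⟨0,[(11,0)]⟩,⟨0,[(8,0),(30,0)]⟩⟩,.o ⟨false,1,⟨1,[(31,0),(4,1),(2,
  0)]⟩,⟨0,[(37,0)]⟩⟩,.e ⟨true,0,⟨15,[(10,1),(5,0),(0,0),(8,1),(7,5),(1,1)]⟩,⟨0,[]⟩⟩ ⟨true,0,⟨0,[(11,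
  0)]⟩,⟨1,[(0,0),(3,0),(3,0),(30,0)]⟩⟩,.o ⟨false,0,⟨0,[(1,0)]⟩,⟨1,[(24,1),(6,0),(6,0)]⟩⟩]⟩)) (.Q [0,
  0,0,0,0,0,1,1,0,0,-1] (.p false [0,0,1] [] (⟨0,[(29,0)]⟩,⟨0,[(28,0)]⟩) .k 0 (⟨0,[]⟩,⟨0,[]⟩) .k
  .k) (.R ⟨0,false,false,false,[1,-1,-1],[1,-1],[1,1,-1,-1,0,0,0,-1],(⟨0,[(18,0)]⟩,⟨0,[(9,0),(22,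
  0)]⟩),(⟨0,[(32,0)]⟩,⟨0,[(33,0)]⟩),⟨0,[(9,0)]⟩,.k,.k,(.r (-1) ⟨2,[(1,1),(10,0),(1,3),(11,1),(4,0),
  (7,2)]⟩ ⟨2,[(4,1),(5,1),(1,0),(26,0)]⟩),.k,.k,.k,⟨false,0,⟨2,[(1,1),(10,0),(1,0),(11,1),(4,0)]⟩,
  ⟨1,[(3,0),(1,0),(33,0)]⟩⟩,⟨true,0,⟨0,[(7,0)]⟩,⟨0,[(28,0)]⟩⟩,⟨false,0,⟨0,[]⟩,⟨1,[(20,0),(0,0),(17,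
  0)]⟩⟩,⟨true,0,⟨0,[(0,0)]⟩,⟨0,[(26,0)]⟩⟩,⟨false,0,⟨0,[]⟩,⟨0,[]⟩⟩,⟨false,0,⟨0,[]⟩,⟨0,[]⟩⟩,[.o
  ⟨false,1,⟨1,[(31,0),(4,1),(2,0)]⟩,⟨0,[(37,0)]⟩⟩,.a ⟨true,1,⟨0,[(36,0),(2,0)]⟩,⟨0,[(15,0)]⟩⟩
  ⟨false,1,⟨11,[(1,9),(10,1),(1,7),(11,9),(4,4),(7,8)]⟩,⟨0,[(3,0)]⟩⟩ ⟨true,1,⟨0,[(11,0),(27,0)]⟩,⟨0,
  [(8,0)]⟩⟩,.a ⟨true,0,⟨0,[(28,0)]⟩,⟨0,[(24,0)]⟩⟩ ⟨true,0,⟨3,[(1,1),(10,1),(1,3),(11,1),(4,0),(7,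
  0)]⟩,⟨0,[(3,0)]⟩⟩ ⟨false,1,⟨0,[(11,0),(27,0)]⟩,⟨0,[(28,0),(8,0)]⟩⟩,.a ⟨true,0,⟨3,[(16,0),(0,0),
  (10,5)]⟩,⟨0,[(1,0)]⟩⟩ ⟨false,1,⟨11,[(1,9),(10,1),(1,7),(11,9),(4,4),(7,8)]⟩,⟨0,[(0,0),(7,0),(30,
  0)]⟩⟩ ⟨true,1,⟨1,[(11,1),(26,0),(0,0)]⟩,⟨0,[(8,0)]⟩⟩]⟩) (.R ⟨0,false,false,true,[1,-1,-1],[1,-1],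
  [1,1],(⟨0,[(18,0)]⟩,⟨0,[(9,0),(22,0)]⟩),(⟨0,[(32,0)]⟩,⟨0,[(33,0)]⟩),⟨0,[(9,0)]⟩,.k,.k,(.r (-1) ⟨3,
  [(0,3),(10,3),(2,1),(23,0),(0,2)]⟩ ⟨2,[(4,1),(5,1),(1,0),(26,0)]⟩),.k,.k,.k,⟨false,0,⟨0,[(37,0)]⟩,
  ⟨19,[(5,7),(8,5),(2,3),(8,7),(4,1),(6,2),(0,6)]⟩⟩,⟨true,0,⟨0,[(7,0)]⟩,⟨0,[(28,0)]⟩⟩,⟨false,0,⟨0,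
  [(3,0)]⟩,⟨0,[(0,0),(10,0),(27,0)]⟩⟩,⟨true,0,⟨0,[(25,0)]⟩,⟨0,[(0,0)]⟩⟩,⟨false,0,⟨0,[]⟩,⟨0,[]⟩⟩,
  ⟨false,0,⟨0,[]⟩,⟨0,[]⟩⟩,[.a ⟨true,0,⟨0,[(36,0)]⟩,⟨0,[(15,0),(23,0)]⟩⟩ ⟨false,0,⟨3,[(15,1),(15,0),
  (3,1),(2,0)]⟩,⟨1,[(20,0),(0,0),(17,0)]⟩⟩ ⟨true,0,⟨0,[(11,0)]⟩,⟨0,[(8,0),(30,0)]⟩⟩,.o ⟨false,1,⟨1,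
  [(31,0),(4,1),(2,0)]⟩,⟨0,[(37,0)]⟩⟩,.a ⟨true,0,⟨0,[(28,0)]⟩,⟨0,[(24,0)]⟩⟩ ⟨false,0,⟨0,[]⟩,⟨1,[(20,
  0),(0,0),(17,0)]⟩⟩ ⟨true,0,⟨0,[(11,0)]⟩,⟨1,[(0,0),(3,0),(3,0),(30,0)]⟩⟩,.a ⟨true,0,⟨3,[(16,0),(0,
  0),(10,5)]⟩,⟨0,[(1,0)]⟩⟩ ⟨true,0,⟨3,[(15,1),(15,0),(3,1),(2,0)]⟩,⟨3,[(16,0),(0,0),(10,1)]⟩⟩
  ⟨false,1,⟨1,[(11,1),(26,0),(0,0)]⟩,⟨0,[(8,0),(30,0)]⟩⟩]⟩)))) (.S ⟨1,0,[0,0,0,0,0,0,0,-1],[1,0,-1],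
  [1,1,0,-1,0,0,0,-1],(⟨0,[(26,0)]⟩,⟨0,[(27,0)]⟩),⟨0,[(15,0)]⟩,.k,.k,⟨true,0,⟨0,[(33,0)]⟩,⟨0,[(34,
  0)]⟩⟩,⟨false,1,⟨1,[(17,0),(0,0),(17,0)]⟩,⟨0,[]⟩⟩,⟨false,0,⟨0,[]⟩,⟨1,[(17,0),(0,0),(17,0)]⟩⟩,⟨true,
  0,⟨0,[(34,0)]⟩,⟨0,[(33,0)]⟩⟩,[.e ⟨false,0,⟨1,[(0,0),(7,0),(14,0)]⟩,⟨0,[(1,0),(34,0)]⟩⟩ ⟨false,0,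
  ⟨0,[(0,0),(33,0)]⟩,⟨3,[(2,1),(4,1),(9,0),(0,0),(16,0)]⟩⟩,.o ⟨false,1,⟨1,[(0,1),(24,1),(2,0),(5,1),
  (1,0)]⟩,⟨0,[(22,0)]⟩⟩,.o ⟨false,1,⟨1,[(25,1),(2,0),(6,0)]⟩,⟨0,[(4,0)]⟩⟩,.a ⟨true,0,⟨0,[(25,0)]⟩,
  ⟨0,[(21,0)]⟩⟩ ⟨false,0,⟨0,[(0,0)]⟩,⟨1,[(7,1),(27,0),(0,0)]⟩⟩ ⟨true,0,⟨0,[(0,0),(33,0)]⟩,⟨4,[(1,0),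
  (0,0),(0,0),(1,0),(1,1),(25,1)]⟩⟩]⟩)) (.Q [0,0,1,0,-1,0,1,0,0,1,-1] (.p false [0,0,1] [1] (⟨0,
  [(26,0)]⟩,⟨0,[(25,0)]⟩) .k 1 (⟨0,[]⟩,⟨0,[]⟩) .k .k) (.S ⟨1,0,[0,1,0,0,0,0,0,1],[0,0,1],[1,0,0,-1,
  0,0,0,1],(⟨0,[(27,0)]⟩,⟨0,[(26,0)]⟩),⟨0,[(16,0)]⟩,.k,.k,⟨false,1,⟨0,[(33,0),(2,0)]⟩,⟨0,[(34,0)]⟩⟩,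
  ⟨true,0,⟨15,[(7,1),(5,0),(0,0),(8,1),(7,5),(1,1)]⟩,⟨0,[]⟩⟩,⟨true,0,⟨0,[]⟩,⟨15,[(7,1),(5,0),(0,0),
  (8,1),(7,5),(1,1)]⟩⟩,⟨false,0,⟨0,[(34,0)]⟩,⟨0,[(33,0),(2,0)]⟩⟩,[.o ⟨false,0,⟨0,[(22,0)]⟩,⟨1,[(1,
  1),(23,1),(2,0),(5,1),(0,0)]⟩⟩,.e ⟨false,2,⟨1,[(2,1),(14,0),(0,0),(17,0)]⟩,⟨0,[(1,0),(10,1),(15,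
  0)]⟩⟩ ⟨false,1,⟨0,[(2,0),(31,0)]⟩,⟨1,[(1,0),(8,0)]⟩⟩,.o ⟨false,0,⟨0,[(4,0)]⟩,⟨1,[(25,1),(2,0),(6,
  0)]⟩⟩,.a ⟨true,(-1),⟨0,[(0,0)]⟩,⟨0,[(25,0),(9,0)]⟩⟩ ⟨true,1,⟨0,[(2,0)]⟩,⟨0,[(9,0),(22,0)]⟩⟩
  ⟨false,1,⟨0,[(2,0),(31,0)]⟩,⟨6,[(1,3),(7,1),(3,0),(0,0),(8,0),(1,0),(10,1)]⟩⟩]⟩) (.Q [0,-1,0,2,0,
  0,-1,-1,0,0,1] (.p true [0,0,1] [] (⟨0,[(27,0)]⟩,⟨0,[(26,0)]⟩) .k 0 (⟨0,[]⟩,⟨0,[]⟩) .k .k) (.R ⟨1,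
  false,false,false,[0,0,1],[0,1],[0,0,2,1],(⟨0,[(28,0)]⟩,⟨0,[(27,0)]⟩),(⟨0,[(31,0)]⟩,⟨0,[(30,0)]⟩),
  ⟨0,[(17,0)]⟩,.k,.k,.k,.k,(.r (-2) ⟨19,[(3,27),(8,5),(2,3),(8,7),(4,1),(6,2),(0,6)]⟩ ⟨0,[(10,0)]⟩),
  .k,⟨true,0,⟨3,[(14,0),(0,0),(10,1)]⟩,⟨0,[]⟩⟩,⟨false,1,⟨3,[(0,2),(0,0),(1,2),(8,1),(0,0),(22,0)]⟩,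
  ⟨0,[(25,0)]⟩⟩,⟨true,(-1),⟨3,[(2,1),(1,0),(1,0),(3,2)]⟩,⟨3,[(1,0),(1,2),(9,0),(9,0),(9,1),(2,0)]⟩⟩,
  ⟨true,0,⟨1,[(0,0),(23,0)]⟩,⟨0,[(4,0)]⟩⟩,⟨true,(-1),⟨0,[(10,0)]⟩,⟨0,[(3,0),(29,0)]⟩⟩,⟨false,0,⟨0,
  [(0,0)]⟩,⟨0,[(4,0),(29,0),(2,0)]⟩⟩,[.o ⟨false,0,⟨0,[(35,0)]⟩,⟨1,[(29,0),(4,1),(2,0)]⟩⟩,.a ⟨true,0,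
  ⟨0,[(13,0),(23,0)]⟩,⟨0,[(34,0)]⟩⟩ ⟨true,0,⟨2,[(2,0),(5,1),(1,0),(26,0)]⟩,⟨0,[(33,0)]⟩⟩ ⟨false,1,
  ⟨0,[(0,0),(2,0)]⟩,⟨3,[(9,1),(4,0),(0,0),(18,1)]⟩⟩,.o ⟨false,0,⟨0,[(5,0)]⟩,⟨6,[(1,2),(1,0),(4,0),
  (15,1),(1,1),(2,1),(7,0)]⟩⟩,.o ⟨false,0,⟨0,[(25,0)]⟩,⟨0,[(1,0)]⟩⟩]⟩) (.Q [0,0,2,0,0,0,-1,0,0,-1,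
  1] (.p true [0,0,1] [1] (⟨0,[(28,0)]⟩,⟨0,[(27,0)]⟩) .k 1 (⟨0,[]⟩,⟨0,[]⟩) .k .k) (.R ⟨0,false,
  false,true,[1,-1,-1],[0,-1,1],[1,1,1],(⟨0,[(17,0)]⟩,⟨0,[(8,0),(22,0)]⟩),(⟨0,[(18,0)]⟩,⟨1,[(8,0),
  (19,2)]⟩),⟨0,[(8,0)]⟩,.k,.k,(.r (-1) ⟨19,[(3,11),(9,13),(2,3),(8,7),(4,1),(6,12),(0,4)]⟩ ⟨0,[(9,
  0),(26,0)]⟩),.k,.k,.k,⟨true,(-1),⟨4,[(1,0),(1,1),(3,0),(3,3)]⟩,⟨0,[(1,0),(0,0),(11,0),(23,0)]⟩⟩,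
  ⟨false,0,⟨0,[(6,0),(16,0)]⟩,⟨0,[(2,0),(24,0)]⟩⟩,⟨false,0,⟨0,[(9,0)]⟩,⟨0,[(3,0),(33,0)]⟩⟩,⟨true,0,
  ⟨0,[(5,0),(8,0),(9,0),(13,0)]⟩,⟨4,[(2,7),(0,6),(3,1),(3,2),(1,1),(0,2)]⟩⟩,⟨false,0,⟨0,[]⟩,⟨0,[]⟩⟩,
  ⟨false,0,⟨0,[]⟩,⟨0,[]⟩⟩,[.o ⟨false,0,⟨0,[(5,0)]⟩,⟨3,[(2,3),(0,0),(7,1),(0,0),(25,1)]⟩⟩,.e ⟨false,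
  0,⟨0,[]⟩,⟨1,[(19,0),(0,0),(16,0)]⟩⟩ ⟨false,1,⟨3,[(4,1),(0,1),(17,5),(6,0),(7,0)]⟩,⟨0,[(2,0),(0,0),
  (3,0),(28,0)]⟩⟩,.a ⟨true,0,⟨0,[(27,0)]⟩,⟨0,[(23,0)]⟩⟩ ⟨false,0,⟨2,[(0,0),(15,0),(10,0)]⟩,⟨1,[(37,
  0),(0,0)]⟩⟩ ⟨true,0,⟨0,[(5,0),(17,0)]⟩,⟨0,[(2,0),(0,0),(3,0),(28,0)]⟩⟩,.o ⟨false,0,⟨0,[(0,0)]⟩,⟨1,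
  [(23,1),(6,0),(6,0)]⟩⟩]⟩) (.R ⟨0,false,false,true,[1,-1,-1],[1,-1],[0,1,1],(⟨0,[(17,0)]⟩,⟨0,[(8,
  0),(22,0)]⟩),(⟨0,[(31,0)]⟩,⟨0,[(32,0)]⟩),⟨0,[(8,0)]⟩,.k,.k,(.r (-1) ⟨19,[(3,11),(9,13),(2,3),(8,
  7),(4,1),(6,12),(0,4)]⟩ ⟨0,[(9,0),(26,0)]⟩),.k,.k,.k,⟨false,0,⟨7,[(9,2),(1,0),(0,1),(23,0),(1,
  0)]⟩,⟨3,[(13,1),(23,2),(0,0)]⟩⟩,⟨true,0,⟨0,[(6,0)]⟩,⟨0,[(27,0)]⟩⟩,⟨false,0,⟨0,[(9,0)]⟩,⟨0,[(3,0),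
  (33,0)]⟩⟩,⟨true,0,⟨0,[(24,0)]⟩,⟨11,[(2,4),(0,6),(7,0),(2,4),(10,3),(1,2),(10,0)]⟩⟩,⟨false,0,⟨0,
  []⟩,⟨0,[]⟩⟩,⟨false,0,⟨0,[]⟩,⟨0,[]⟩⟩,[.a ⟨true,0,⟨0,[(35,0)]⟩,⟨0,[(14,0),(23,0)]⟩⟩ ⟨false,0,⟨15,
  [(9,1),(5,0),(0,0),(8,1),(7,5),(1,1)]⟩,⟨1,[(37,0),(0,0)]⟩⟩ ⟨true,0,⟨0,[(10,0)]⟩,⟨0,[(7,0),(30,
  0)]⟩⟩,.o ⟨false,1,⟨1,[(30,0),(4,1),(2,0)]⟩,⟨0,[(36,0)]⟩⟩,.a ⟨true,0,⟨0,[(27,0)]⟩,⟨0,[(23,0)]⟩⟩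
  ⟨false,0,⟨3,[(15,0),(0,0),(10,1)]⟩,⟨1,[(37,0),(0,0)]⟩⟩ ⟨true,0,⟨0,[(10,0)]⟩,⟨5,[(2,1),(4,2),(1,0),
  (4,1),(10,0),(12,2)]⟩⟩,.a ⟨true,0,⟨3,[(15,0),(0,0),(10,5)]⟩,⟨0,[(0,0)]⟩⟩ ⟨true,0,⟨15,[(9,1),(5,0),
  (0,0),(8,1),(7,5),(1,1)]⟩,⟨0,[]⟩⟩ ⟨false,1,⟨1,[(10,1),(26,0),(0,0)]⟩,⟨0,[(7,0),(30,0)]⟩⟩]⟩)))))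

theorem ok11 : chk K t11 l14 = true := by decide +kernel

noncomputable def t12 : Tre :=
  (.Q [0,0,2,0,0,0,-1,0,0,-1,1] (.p true [0,0,1] [1] (⟨0,[(25,0)]⟩,⟨0,[(24,0)]⟩) .k 1 (⟨0,[]⟩,⟨0,
  []⟩) .k .k) (.Q [0,0,2,0,0,0,-1,0,-1,-1,1,1] (.p true [0,0,1] [1,0,0,0,-1] (⟨0,[(26,0)]⟩,⟨0,[(25,
  0)]⟩) .k 2 (⟨0,[(18,0)]⟩,⟨0,[(19,0)]⟩) .k (.r (-1) ⟨0,[(6,0),(25,0),(1,0)]⟩ ⟨3,[(1,3),(8,1),(23,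
  0),(0,2)]⟩)) (.R ⟨0,false,false,false,[1,-1,-1],[0,0,0,0,1],[0,1],(⟨0,[(15,0)]⟩,⟨0,[(6,0),(22,
  0)]⟩),(⟨0,[(20,0)]⟩,⟨0,[(19,0)]⟩),⟨0,[(6,0)]⟩,.k,.k,(.r (-1) ⟨1,[(2,0),(5,0),(2,1),(11,0),(11,0),
  (0,1)]⟩ ⟨0,[(7,0),(26,0)]⟩),(.r (-1) ⟨3,[(2,1),(5,1),(2,1),(11,1),(11,0),(0,4)]⟩ ⟨1,[(5,0),(1,0),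
  (14,0),(12,0)]⟩),.k,.k,⟨false,1,⟨1,[(17,0),(0,0),(16,0)]⟩,⟨0,[]⟩⟩,⟨true,0,⟨0,[(18,0),(2,0)]⟩,⟨0,
  [(0,0)]⟩⟩,⟨true,0,⟨1,[(5,0),(1,0),(14,0),(12,0)]⟩,⟨1,[(2,1),(8,1),(23,0),(0,0)]⟩⟩,⟨false,0,⟨0,
  [(12,0),(5,0),(3,0),(13,0)]⟩,⟨0,[(0,0),(1,0),(8,0),(23,0),(0,0)]⟩⟩,⟨false,0,⟨0,[]⟩,⟨0,[]⟩⟩,⟨false,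
  0,⟨0,[]⟩,⟨0,[]⟩⟩,[.e ⟨false,0,⟨3,[(12,1),(15,0),(3,1),(2,0)]⟩,⟨1,[(17,0),(0,0),(17,0)]⟩⟩ ⟨false,0,
  ⟨1,[(8,0),(3,0),(5,1),(2,0),(13,0)]⟩,⟨1,[(0,1),(34,0),(0,0)]⟩⟩,.o ⟨false,0,⟨0,[(18,0)]⟩,⟨1,[(0,1),
  (20,1),(6,0),(6,0)]⟩⟩,.a ⟨true,0,⟨0,[(25,0)]⟩,⟨0,[(21,0)]⟩⟩ ⟨true,0,⟨15,[(7,1),(5,0),(0,0),(8,1),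
  (7,5),(1,1)]⟩,⟨0,[]⟩⟩ ⟨false,0,⟨0,[(18,0),(2,0)]⟩,⟨1,[(0,1),(34,0),(0,0)]⟩⟩,.o ⟨false,0,⟨0,[(1,
  0)]⟩,⟨1,[(21,1),(6,0),(6,0)]⟩⟩]⟩) (.Q [0,0,0,0,-1,0,2,0,0,1,-2] (.p false [0,0,1] [1,0,-1] (⟨0,
  [(27,0)]⟩,⟨0,[(26,0)]⟩) .k 2 (⟨0,[(26,0)]⟩,⟨0,[(27,0)]⟩) .k (.r (-2) ⟨1,[(3,1),(3,1),(17,1),(9,2),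
  (0,0)]⟩ ⟨1,[(2,3),(8,1),(23,0),(0,0)]⟩)) (.Q [0,0,1,1,0,0,-2,-1,0,-1,2] (.p true [0,0,1] [1,0,-1]
  (⟨0,[(28,0)]⟩,⟨0,[(27,0)]⟩) .k 2 (⟨0,[(27,0)]⟩,⟨0,[(28,0)]⟩) .k (.r (-2) ⟨1,[(4,1),(3,1),(17,1),
  (9,2),(0,0)]⟩ ⟨1,[(3,3),(8,1),(23,0),(0,0)]⟩)) (.R ⟨0,false,false,true,[1,-1,-1],[0,-1,1],[],(⟨0,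
  [(17,0)]⟩,⟨0,[(8,0),(22,0)]⟩),(⟨0,[(18,0)]⟩,⟨1,[(8,0),(19,2)]⟩),⟨0,[(8,0)]⟩,.k,.k,(.r (-1) ⟨1,[(4,
  0),(5,0),(2,1),(11,0),(11,0),(0,1)]⟩ ⟨0,[(9,0),(26,0)]⟩),.k,.k,.k,⟨false,0,⟨1,[(4,1),(32,0),(0,
  0)]⟩,⟨0,[(5,0),(21,0),(9,0)]⟩⟩,⟨true,(-1),⟨0,[(1,0)]⟩,⟨0,[(3,0),(23,0),(9,0)]⟩⟩,⟨false,1,⟨1,[(9,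
  1),(27,0),(0,0)]⟩,⟨1,[(4,1),(8,1),(23,0),(0,0)]⟩⟩,⟨true,0,⟨0,[(5,0),(8,0),(9,0),(13,0)]⟩,⟨1,[(0,
  1),(3,1),(8,1),(23,0),(0,0)]⟩⟩,⟨false,0,⟨0,[]⟩,⟨0,[]⟩⟩,⟨false,0,⟨0,[]⟩,⟨0,[]⟩⟩,[.o ⟨false,0,⟨0,
  [(5,0)]⟩,⟨7,[(0,3),(3,1),(7,1),(17,1),(6,2),(0,4)]⟩⟩,.e ⟨false,1,⟨1,[(37,0),(0,0)]⟩,⟨15,[(9,1),(5,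
  0),(0,0),(8,1),(7,5),(1,1)]⟩⟩ ⟨false,1,⟨1,[(5,1),(17,1),(13,0),(0,0)]⟩,⟨0,[(0,0)]⟩⟩,.a ⟨true,0,⟨0,
  [(27,0)]⟩,⟨0,[(23,0)]⟩⟩ ⟨false,1,⟨1,[(19,0),(0,0),(17,0)]⟩,⟨0,[]⟩⟩ ⟨true,0,⟨0,[(5,0),(17,0)]⟩,⟨0,
  [(0,0)]⟩⟩,.o ⟨false,0,⟨0,[(3,0)]⟩,⟨3,[(1,0),(14,0),(13,0),(6,3)]⟩⟩]⟩) (.Q [0,0,0,0,0,0,-2,-2,0,-1,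
  2] (.p true [0,0,1] [1,0,-1] (⟨0,[(29,0)]⟩,⟨0,[(28,0)]⟩) .k 2 (⟨0,[(28,0)]⟩,⟨0,[(29,0)]⟩) .k (.r
  (-2) ⟨1,[(5,1),(3,1),(17,1),(9,2),(0,0)]⟩ ⟨1,[(4,3),(8,1),(23,0),(0,0)]⟩)) (.R ⟨0,false,false,
  true,[1,-1,-1],[0,-1,1],[],(⟨0,[(18,0)]⟩,⟨0,[(9,0),(22,0)]⟩),(⟨0,[(19,0)]⟩,⟨1,[(9,0),(19,2)]⟩),⟨0,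
  [(9,0)]⟩,.k,.k,(.r (-1) ⟨1,[(0,0),(13,1),(2,0),(20,0),(0,0)]⟩ ⟨0,[(10,0),(26,0)]⟩),.k,.k,.k,
  ⟨false,0,⟨1,[(5,1),(32,0),(0,0)]⟩,⟨0,[(6,0),(21,0),(9,0)]⟩⟩,⟨true,(-1),⟨0,[(2,0)]⟩,⟨0,[(4,0),(23,
  0),(9,0)]⟩⟩,⟨false,1,⟨1,[(10,1),(27,0),(0,0)]⟩,⟨0,[(0,0),(0,0)]⟩⟩,⟨true,0,⟨2,[(1,1),(4,0),(3,1),
  (4,0),(9,0),(12,0)]⟩,⟨0,[(0,0)]⟩⟩,⟨false,0,⟨0,[]⟩,⟨0,[]⟩⟩,⟨false,0,⟨0,[]⟩,⟨0,[]⟩⟩,[.o ⟨false,0,⟨0,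
  [(6,0)]⟩,⟨11,[(0,5),(9,1),(2,1),(17,2),(5,7),(0,1),(0,6)]⟩⟩,.a ⟨true,0,⟨0,[(1,0),(26,0)]⟩,⟨2,[(0,
  0),(14,0),(10,0),(10,1),(1,0)]⟩⟩ ⟨false,1,⟨1,[(38,0),(0,0)]⟩,⟨15,[(10,1),(5,0),(0,0),(8,1),(7,5),
  (1,1)]⟩⟩ ⟨true,0,⟨0,[(1,0)]⟩,⟨0,[(0,0),(9,0)]⟩⟩,.e ⟨false,1,⟨1,[(20,0),(0,0),(17,0)]⟩,⟨0,[]⟩⟩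
  ⟨false,0,⟨0,[(1,0)]⟩,⟨1,[(0,1),(9,1),(27,0),(0,0)]⟩⟩,.o ⟨false,0,⟨0,[(4,0)]⟩,⟨3,[(2,0),(14,0),(13,
  0),(6,3)]⟩⟩]⟩) (.Q [0,0,0,0,0,2,0,0,0,0,-1] (.p false [0,0,1] [] (⟨0,[(30,0)]⟩,⟨0,[(29,0)]⟩) .k 0
  (⟨0,[]⟩,⟨0,[]⟩) .k .k) (.R ⟨0,false,false,false,[0,-1,1],[1,-1],[],(⟨0,[(20,0)]⟩,⟨1,[(10,0),(19,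
  2)]⟩),(⟨0,[(33,0)]⟩,⟨0,[(34,0)]⟩),⟨0,[(0,0)]⟩,.k,.k,(.r (-2) ⟨3,[(7,3),(7,1),(13,3),(9,4),(0,2)]⟩
  ⟨0,[(13,0)]⟩),.k,.k,.k,⟨false,0,⟨0,[(38,0)]⟩,⟨1,[(37,1),(1,0),(0,0)]⟩⟩,⟨true,1,⟨0,[(5,0),(33,0)]⟩,
  ⟨0,[(3,0),(25,0)]⟩⟩,⟨true,(-1),⟨0,[(6,0)]⟩,⟨0,[(7,0),(21,0),(9,0)]⟩⟩,⟨false,1,⟨3,[(5,3),(0,3),(8,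
  1),(23,4),(0,2)]⟩,⟨3,[(1,1),(8,0),(19,0),(2,1)]⟩⟩,⟨false,0,⟨0,[]⟩,⟨0,[]⟩⟩,⟨false,0,⟨0,[]⟩,⟨0,[]⟩⟩,
  [.o ⟨false,1,⟨1,[(32,0),(4,1),(2,0)]⟩,⟨0,[(38,0)]⟩⟩,.a ⟨true,1,⟨0,[(37,0),(2,0)]⟩,⟨0,[(16,0)]⟩⟩
  ⟨false,1,⟨1,[(39,0),(0,0)]⟩,⟨15,[(11,1),(5,0),(0,0),(8,1),(7,5),(1,1)]⟩⟩ ⟨true,2,⟨3,[(5,3),(9,1),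
  (23,4),(0,2)]⟩,⟨0,[(3,0),(5,0)]⟩⟩,.e ⟨false,1,⟨1,[(21,0),(0,0),(17,0)]⟩,⟨0,[]⟩⟩ ⟨false,2,⟨3,[(5,
  3),(9,1),(23,4),(0,2)]⟩,⟨4,[(3,2),(7,0),(1,0),(2,1),(12,0),(10,0)]⟩⟩,.o ⟨false,(-1),⟨0,[(3,0),(1,
  0)]⟩,⟨0,[(5,0),(33,1)]⟩⟩]⟩) (.I [0,-1,-2,-1,2,0,0,1] (.S ⟨1,0,[0,1,-1,-1,0,0,0,1],[0,-1,1],[0,0,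
  -1,-1,0,0,0,1],(⟨0,[(21,0)]⟩,⟨1,[(11,0),(19,2)]⟩),⟨0,[(1,0)]⟩,.k,(.r (-2) ⟨0,[(0,0),(37,0)]⟩ ⟨0,
  [(14,0)]⟩),⟨false,1,⟨8,[(0,1),(11,0),(2,0),(2,0),(0,0),(8,1),(12,4)]⟩,⟨0,[]⟩⟩,⟨true,0,⟨15,[(12,1),
  (5,0),(0,0),(8,1),(7,5),(1,1)]⟩,⟨0,[]⟩⟩,⟨true,0,⟨0,[(39,0)]⟩,⟨0,[(38,0)]⟩⟩,⟨false,0,⟨0,[(39,0)]⟩,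
  ⟨0,[(38,0),(2,0)]⟩⟩,[.o ⟨false,0,⟨0,[(8,0)]⟩,⟨1,[(6,1),(0,1),(32,2),(0,0)]⟩⟩,.e ⟨false,2,⟨0,[(0,
  0)]⟩,⟨5,[(7,2),(2,0),(2,1),(0,1),(13,0),(7,0)]⟩⟩ ⟨false,2,⟨15,[(0,15),(11,1),(5,0),(0,0),(8,1),(7,
  5),(1,1)]⟩,⟨0,[(7,0)]⟩⟩,.a ⟨true,(-1),⟨0,[(4,0),(25,0)]⟩,⟨0,[(30,0),(9,0)]⟩⟩ ⟨false,2,⟨11,[(0,9),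
  (5,0),(5,2),(6,0),(8,0),(9,4),(2,3)]⟩,⟨0,[(7,0)]⟩⟩ ⟨true,1,⟨2,[(0,1),(7,0),(1,0),(25,0),(1,0)]⟩,
  ⟨0,[(7,0)]⟩⟩,.o ⟨false,(-1),⟨0,[(4,0),(1,0)]⟩,⟨0,[(6,0),(33,1)]⟩⟩]⟩) (.Q [0,0,0,1,0,0,-2,-2,0,-1,
  2] (.p true [0,0,1] [1,0,-1] (⟨0,[(32,0)]⟩,⟨0,[(31,0)]⟩) .k 2 (⟨0,[(31,0)]⟩,⟨0,[(32,0)]⟩) .k (.r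
  (-2) ⟨1,[(8,1),(3,1),(17,1),(9,2),(0,0)]⟩ ⟨1,[(7,3),(8,1),(23,0),(0,0)]⟩)) (.R ⟨1,true,false,
  false,[0,0,1],[1,0,-1],[0,1,0,0,0,0,0,1],(⟨0,[(33,0)]⟩,⟨0,[(32,0)]⟩),(⟨0,[(32,0)]⟩,⟨0,[(33,0)]⟩),
  ⟨0,[(22,0)]⟩,.k,.k,.k,.k,(.r (-2) ⟨3,[(3,3),(3,3),(9,1),(13,3),(9,6),(0,0)]⟩ ⟨13,[(0,9),(0,7),(3,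
  2),(11,1),(2,6),(21,4)]⟩),.k,⟨true,1,⟨2,[(3,2),(3,2),(3,1),(5,0),(13,0),(9,4)]⟩,⟨6,[(0,3),(0,5),
  (3,3),(11,4),(24,8)]⟩⟩,⟨false,2,⟨0,[(7,0),(23,0),(9,1)]⟩,⟨0,[(5,0)]⟩⟩,⟨true,0,⟨15,[(13,1),(5,0),
  (0,0),(8,1),(7,5),(1,1)]⟩,⟨0,[]⟩⟩,⟨false,1,⟨21,[(0,15),(16,7),(1,3),(9,11),(4,0),(7,20)]⟩,⟨0,[(3,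
  0)]⟩⟩,⟨false,0,⟨0,[(40,0)]⟩,⟨0,[(39,0),(2,0)]⟩⟩,⟨true,0,⟨0,[(0,0)]⟩,⟨0,[(3,0),(35,0)]⟩⟩,[]⟩) (.Q
  [0,0,0,2,0,0,-2,-2,0,-1,2] (.p true [0,0,1] [1,0,-1] (⟨0,[(33,0)]⟩,⟨0,[(32,0)]⟩) .k 2 (⟨0,[(32,
  0)]⟩,⟨0,[(33,0)]⟩) .k (.r (-2) ⟨1,[(9,1),(3,1),(17,1),(9,2),(0,0)]⟩ ⟨1,[(8,3),(8,1),(23,0),(0,
  0)]⟩)) (.R ⟨1,true,false,false,[0,0,1],[1,1,-1],[0,1,0,0,0,0,0,1],(⟨0,[(34,0)]⟩,⟨0,[(33,0)]⟩),(⟨1,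
  [(13,0),(19,2)]⟩,⟨0,[(23,0)]⟩),⟨0,[(23,0)]⟩,.k,.k,.k,(.r (-2) ⟨0,[(1,0),(6,0),(23,0),(9,1)]⟩ ⟨13,
  [(0,3),(8,17),(8,5),(1,0),(0,4),(8,1),(12,3)]⟩),(.r (-3) ⟨0,[(10,1),(21,1),(9,1),(0,0)]⟩ ⟨0,[(9,
  1)]⟩),.k,⟨false,2,⟨2,[(4,2),(3,2),(3,0),(5,1),(13,1),(9,6)]⟩,⟨3,[(0,0),(5,0),(2,5),(8,1),(24,
  2)]⟩⟩,⟨true,2,⟨0,[(8,0),(23,0),(9,1)]⟩,⟨6,[(1,3),(0,7),(3,2),(11,1),(24,4)]⟩⟩,⟨true,0,⟨15,[(14,1),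
  (5,0),(0,0),(8,1),(7,5),(1,1)]⟩,⟨0,[]⟩⟩,⟨false,1,⟨9,[(0,6),(17,1),(1,0),(9,5),(4,0),(7,8)]⟩,⟨0,
  [(1,0)]⟩⟩,⟨false,0,⟨0,[(41,0)]⟩,⟨0,[(40,0),(2,0)]⟩⟩,⟨true,0,⟨0,[(0,0)]⟩,⟨0,[(1,0),(38,0)]⟩⟩,[]⟩)
  (.Q [0,-2,0,-1,2,0,0,0,-1,-1,0,1] (.p true [0,0,0,0,1] [1] (⟨0,[(27,0)]⟩,⟨0,[(26,0)]⟩) .k 1 (⟨0,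
  []⟩,⟨0,[]⟩) .k .k) (.Q [0,1,-1,0,-1,0,1,0,1,1,-1,-1] (.p false [0,0,1] [1,0,0,0,-1] (⟨0,[(35,0)]⟩,
  ⟨0,[(34,0)]⟩) .k 2 (⟨0,[(27,0)]⟩,⟨0,[(28,0)]⟩) .k (.r (-1) ⟨0,[(15,0),(25,0),(1,0)]⟩ ⟨3,[(10,3),
  (8,1),(23,0),(0,2)]⟩)) (.Q [0,0,0,0,0,-1,0,0,0,0,0,1] (.ed false [1,-1,0,0,1] .k) (.Q [0,0,0,0,1,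
  0,0,0,-1,-1,0,1] (.p true [0,0,0,0,1] [1] (⟨0,[(30,0)]⟩,⟨0,[(29,0)]⟩) .k 1 (⟨0,[]⟩,⟨0,[]⟩) .k .k)
  (.Q [0,0,1,0,-1,0,0,0,1,1,0,-1] (.p false [0,0,0,0,1] [1] (⟨0,[(31,0)]⟩,⟨0,[(30,0)]⟩) .k 1 (⟨0,
  []⟩,⟨0,[]⟩) .k .k) (.S ⟨1,0,[0,1],[0,0,0,0,1],[0,2],(⟨0,[(32,0)]⟩,⟨0,[(31,0)]⟩),⟨0,[(2,0)]⟩,.k,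
  (.r 0 ⟨0,[(44,0)]⟩ ⟨3,[(19,1),(2,1),(6,0),(0,0),(17,2)]⟩),⟨true,0,⟨15,[(19,1),(5,0),(0,0),(8,1),
  (7,5),(1,1)]⟩,⟨0,[]⟩⟩,⟨false,1,⟨1,[(29,0),(0,0),(17,0)]⟩,⟨0,[]⟩⟩,⟨false,0,⟨0,[(46,0)]⟩,⟨8,[(0,0),
  (3,2),(0,1),(17,0),(6,1),(4,3),(12,3)]⟩⟩,⟨true,0,⟨0,[(46,0)]⟩,⟨0,[(45,0)]⟩⟩,[.e ⟨false,0,⟨0,[(43,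
  0)]⟩,⟨0,[(48,0)]⟩⟩ ⟨false,0,⟨3,[(24,1),(15,0),(3,1),(2,0)]⟩,⟨1,[(29,0),(0,0),(17,0)]⟩⟩,.o ⟨false,
  0,⟨0,[(30,0)]⟩,⟨0,[(1,0)]⟩⟩,.o ⟨false,0,⟨0,[(30,0)]⟩,⟨0,[(1,0)]⟩⟩,.a ⟨true,(-1),⟨0,[(0,0)]⟩,⟨4,
  [(1,1),(2,2),(18,0),(0,4),(22,1)]⟩⟩ ⟨false,0,⟨3,[(24,1),(15,0),(3,1),(2,0)]⟩,⟨14,[(0,4),(3,4),(14,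
  2),(1,0),(3,0),(0,0),(8,1),(12,10)]⟩⟩ ⟨true,0,⟨3,[(24,1),(15,0),(3,1),(2,0)]⟩,⟨2,[(0,0),(24,0),(3,
  0)]⟩⟩]⟩) (.R ⟨0,false,false,true,[1,-1,-1],[0,0,0,0,1],[],(⟨0,[(27,0)]⟩,⟨0,[(18,0),(22,0)]⟩),(⟨0,
  [(32,0)]⟩,⟨0,[(31,0)]⟩),⟨0,[(18,0)]⟩,.k,.k,(.r (-1) ⟨3,[(4,1),(7,1),(1,1),(8,3),(11,1),(11,0),(0,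
  0)]⟩ ⟨0,[(19,0),(26,0)]⟩),(.r (-1) ⟨1,[(4,0),(7,0),(1,0),(8,0),(11,0),(12,0)]⟩ ⟨7,[(9,1),(7,3),(1,
  3),(20,0),(2,1),(3,2)]⟩),.k,.k,⟨true,1,⟨0,[(48,0)]⟩,⟨2,[(7,0),(7,0),(1,0),(25,0),(1,0)]⟩⟩,⟨false,
  0,⟨0,[(12,0)]⟩,⟨1,[(0,0),(12,0),(15,0),(7,0)]⟩⟩,⟨false,1,⟨1,[(19,1),(27,0),(0,0)]⟩,⟨1,[(14,1),(8,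
  1),(23,0),(0,0)]⟩⟩,⟨true,(-1),⟨4,[(3,1),(5,1),(7,0),(1,0),(4,2),(5,2),(9,0),(2,1)]⟩,⟨0,[(0,0),(13,
  0),(8,0),(13,0),(10,0)]⟩⟩,⟨false,0,⟨0,[]⟩,⟨0,[]⟩⟩,⟨false,0,⟨0,[]⟩,⟨0,[]⟩⟩,[.o ⟨false,(-1),⟨2,[(3,
  1),(13,1),(12,0),(9,0),(3,1)]⟩,⟨8,[(0,3),(3,2),(14,0),(1,0),(7,1),(10,0),(7,5)]⟩⟩,.a ⟨true,(-1),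
  ⟨0,[(3,0),(33,0)]⟩,⟨0,[(4,0),(19,0)]⟩⟩ ⟨false,1,⟨1,[(47,0),(0,0)]⟩,⟨15,[(19,1),(5,0),(0,0),(8,1),
  (7,5),(1,1)]⟩⟩ ⟨true,(-1),⟨0,[(3,0)]⟩,⟨0,[(4,0),(12,0)]⟩⟩,.e ⟨false,1,⟨1,[(29,0),(0,0),(17,0)]⟩,
  ⟨0,[]⟩⟩ ⟨false,(-1),⟨0,[(3,0)]⟩,⟨1,[(0,0),(12,0),(15,0),(7,0),(10,1)]⟩⟩,.o ⟨false,0,⟨0,[(13,0)]⟩,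
  ⟨5,[(0,1),(11,1),(13,1),(13,0),(6,2)]⟩⟩]⟩)) (.R ⟨1,true,false,true,[1,-1],[0,0,0,0,1],[0,1,-1,-1],
  (⟨0,[(40,0)]⟩,⟨0,[(41,0)]⟩),(⟨0,[(31,0)]⟩,⟨0,[(30,0)]⟩),⟨1,[(7,0),(18,0),(13,0)]⟩,.k,.k,(.r (-1)
  ⟨1,[(22,1),(23,0),(0,0)]⟩ ⟨3,[(18,2),(1,0),(0,1),(23,0),(1,0)]⟩),(.r (-1) ⟨3,[(22,1),(23,0),(0,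
  2)]⟩ ⟨17,[(18,9),(2,7),(2,0),(0,0),(8,1),(7,3)]⟩),(.r (-2) ⟨15,[(3,3),(0,3),(17,9),(6,3),(4,7),
  (11,10),(0,12)]⟩ ⟨3,[(16,0),(1,0),(1,1),(2,1),(9,0),(5,0)]⟩),.k,⟨true,1,⟨3,[(22,1),(23,0),(0,2)]⟩,
  ⟨9,[(6,3),(9,1),(1,3),(5,0),(0,0),(16,1)]⟩⟩,⟨false,0,⟨0,[(0,0),(45,0)]⟩,⟨15,[(3,1),(0,0),(1,3),(1,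
  0),(3,3),(15,13),(10,5)]⟩⟩,⟨true,0,⟨15,[(18,1),(5,0),(0,0),(8,1),(7,5),(1,1)]⟩,⟨0,[]⟩⟩,⟨false,
  (-1),⟨0,[(23,0),(5,0)]⟩,⟨0,[(3,0)]⟩⟩,⟨false,0,⟨0,[(45,0)]⟩,⟨11,[(3,1),(0,2),(17,1),(1,0),(4,1),(4,
  5),(12,7)]⟩⟩,⟨true,(-2),⟨0,[(0,0),(22,1),(15,0)]⟩,⟨0,[(3,0),(40,0)]⟩⟩,[]⟩)) (.Q [0,0,-1,0,1,0,1,1,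
  -1,0,-1,1] (.p false [0,0,1] [0,0,0,0,1] (⟨0,[(37,0)]⟩,⟨0,[(36,0)]⟩) .k 2 (⟨0,[(30,0)]⟩,⟨0,[(29,
  0)]⟩) .k (.r (-2) ⟨9,[(2,1),(0,1),(13,5),(9,4),(0,6),(6,3),(9,7),(0,2)]⟩ ⟨1,[(5,0),(6,0),(8,0),
  (23,0)]⟩)) (.S ⟨1,0,[0,-1],[1,0,0,0,-1],[1,0,0,-1],(⟨0,[(30,0)]⟩,⟨0,[(31,0)]⟩),⟨1,[(1,0),(5,0),
  (18,0),(3,0)]⟩,.k,(.r (-1) ⟨3,[(22,1),(23,0),(0,2)]⟩ ⟨17,[(18,9),(2,7),(2,0),(0,0),(8,1),(7,3)]⟩),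
  ⟨true,0,⟨0,[(44,0)]⟩,⟨0,[(45,0)]⟩⟩,⟨false,1,⟨1,[(28,0),(0,0),(17,0)]⟩,⟨0,[]⟩⟩,⟨false,0,⟨0,[]⟩,⟨1,
  [(28,0),(0,0),(17,0)]⟩⟩,⟨true,0,⟨0,[(45,0)]⟩,⟨0,[(44,0)]⟩⟩,[.e ⟨false,1,⟨15,[(3,3),(0,3),(17,1),
  (6,3),(4,7),(11,6),(0,0)]⟩,⟨0,[(45,0)]⟩⟩ ⟨false,1,⟨1,[(46,0),(0,0)]⟩,⟨15,[(18,1),(5,0),(0,0),(8,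
  1),(7,5),(1,1)]⟩⟩,.o ⟨false,2,⟨0,[(3,0),(41,0)]⟩,⟨2,[(2,1),(13,1),(12,0),(9,0),(3,1)]⟩⟩,.o ⟨false,
  1,⟨13,[(0,5),(2,7),(2,5),(9,5),(22,2),(3,3),(2,6)]⟩,⟨0,[(29,0)]⟩⟩,.a ⟨true,0,⟨2,[(0,1),(2,0),(2,
  1),(15,0),(0,0),(12,1),(10,0)]⟩,⟨0,[(11,0),(24,0)]⟩⟩ ⟨false,1,⟨3,[(22,1),(23,0),(0,2)]⟩,⟨7,[(18,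
  2),(1,0),(0,1),(23,0),(1,0)]⟩⟩ ⟨true,1,⟨1,[(46,0),(0,0)]⟩,⟨2,[(6,0),(7,0),(1,0),(25,0),(1,
  0)]⟩⟩]⟩) (.Q [0,0,0,0,1,0,0,0,-1,-1,0,1] (.p true [0,0,0,0,1] [1] (⟨0,[(31,0)]⟩,⟨0,[(30,0)]⟩) .k
  1 (⟨0,[]⟩,⟨0,[]⟩) .k .k) (.R ⟨0,false,false,false,[0,0,0,0,1],[0,1],[0,0,1,1],(⟨0,[(32,0)]⟩,⟨0,
  [(31,0)]⟩),(⟨0,[(42,0)]⟩,⟨0,[(41,0)]⟩),⟨0,[(2,0)]⟩,.k,.k,(.r 0 ⟨0,[(44,0)]⟩ ⟨3,[(19,1),(2,1),(6,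
  0),(0,0),(17,2)]⟩),(.r 0 ⟨0,[(44,0)]⟩ ⟨3,[(19,1),(2,1),(6,0),(0,0),(17,2)]⟩),.k,.k,⟨false,1,⟨1,
  [(29,0),(0,0),(16,0)]⟩,⟨0,[]⟩⟩,⟨true,1,⟨4,[(0,1),(3,2),(18,0),(0,4),(22,1)]⟩,⟨1,[(1,1),(7,0),(15,
  0)]⟩⟩,⟨false,1,⟨7,[(19,2),(1,0),(0,1),(23,0),(1,8)]⟩,⟨0,[(44,0)]⟩⟩,⟨true,1,⟨0,[(0,0),(23,0),(23,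
  0)]⟩,⟨6,[(1,0),(1,3),(11,0),(1,3),(5,4),(6,1),(9,1)]⟩⟩,⟨false,0,⟨0,[]⟩,⟨0,[]⟩⟩,⟨false,0,⟨0,[]⟩,⟨0,
  []⟩⟩,[.o ⟨false,0,⟨0,[(46,0)]⟩,⟨2,[(4,0),(25,0),(9,0),(4,1)]⟩⟩,.a ⟨true,0,⟨0,[(24,0),(23,0)]⟩,⟨0,
  [(45,0)]⟩⟩ ⟨false,1,⟨2,[(19,0),(2,0),(23,0),(0,0),(0,1)]⟩,⟨0,[(44,0)]⟩⟩ ⟨true,1,⟨0,[(0,0),(23,0),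
  (23,0)]⟩,⟨0,[(1,0),(13,0)]⟩⟩,.o ⟨false,0,⟨0,[(30,0)]⟩,⟨0,[(0,0)]⟩⟩,.e ⟨true,0,⟨0,[(46,0)]⟩,⟨0,
  [(45,0)]⟩⟩ ⟨true,1,⟨1,[(0,1),(23,1),(22,0),(0,0)]⟩,⟨0,[(1,0),(13,0)]⟩⟩]⟩) (.R ⟨0,false,false,
  false,[0,0,0,0,1],[0,1],[0,0,1],(⟨0,[(32,0)]⟩,⟨0,[(31,0)]⟩),(⟨0,[(42,0)]⟩,⟨0,[(41,0)]⟩),⟨0,[(2,
  0)]⟩,.k,.k,(.r 0 ⟨0,[(44,0)]⟩ ⟨3,[(19,1),(2,1),(6,0),(0,0),(17,2)]⟩),(.r 0 ⟨0,[(44,0)]⟩ ⟨3,[(19,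
  1),(2,1),(6,0),(0,0),(17,2)]⟩),.k,.k,⟨false,1,⟨15,[(4,3),(0,3),(17,1),(6,3),(4,7),(11,6),(0,0)]⟩,
  ⟨0,[(46,0)]⟩⟩,⟨true,1,⟨3,[(4,3),(19,5),(15,0),(3,1),(2,0)]⟩,⟨0,[(0,0),(24,0)]⟩⟩,⟨false,1,⟨2,[(13,
  0),(12,0),(10,0),(10,2)]⟩,⟨3,[(24,1),(15,0),(3,1),(2,0)]⟩⟩,⟨true,1,⟨0,[(4,0),(19,0),(21,0)]⟩,⟨6,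
  [(0,1),(0,2),(1,1),(11,2),(1,1),(5,2),(16,1),(2,1)]⟩⟩,⟨false,0,⟨0,[]⟩,⟨0,[]⟩⟩,⟨false,0,⟨0,[]⟩,⟨0,
  []⟩⟩,[.o ⟨false,0,⟨0,[(46,0)]⟩,⟨2,[(4,0),(25,0),(9,0),(4,1)]⟩⟩,.a ⟨true,0,⟨0,[(24,0),(23,0)]⟩,⟨0,
  [(45,0)]⟩⟩ ⟨false,1,⟨1,[(29,0),(0,0),(17,0)]⟩,⟨3,[(24,1),(15,0),(3,1),(2,0)]⟩⟩ ⟨true,1,⟨0,[(4,0),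
  (19,0),(21,0)]⟩,⟨0,[(1,0),(13,0)]⟩⟩,.a ⟨true,(-1),⟨0,[(0,0)]⟩,⟨0,[(29,0)]⟩⟩ ⟨true,0,⟨2,[(13,0),
  (12,0),(10,0)]⟩,⟨3,[(24,1),(15,0),(3,1),(2,0)]⟩⟩ ⟨false,1,⟨0,[(4,0),(19,0),(21,0)]⟩,⟨6,[(1,1),(2,
  0),(0,0),(17,1),(6,5)]⟩⟩,.a ⟨true,(-1),⟨11,[(0,7),(0,3),(3,0),(13,1),(6,2),(10,3)]⟩,⟨3,[(4,3),(19,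
  5),(15,0),(3,1),(2,0)]⟩⟩ ⟨false,1,⟨1,[(29,0),(0,0),(17,0)]⟩,⟨0,[]⟩⟩ ⟨true,1,⟨1,[(4,1),(19,3),(15,
  0),(6,0)]⟩,⟨0,[(1,0),(13,0)]⟩⟩]⟩)))) (.Q [0,0,0,0,0,-1,0,0,0,1,0,-1] (.ed true [0,1,0,0,1] .k)
  (.R ⟨1,false,false,false,[1,0,0,0,-1],[1,0,-1],[1,0,0,-1],(⟨0,[(29,0)]⟩,⟨0,[(30,0)]⟩),(⟨0,[(36,
  0)]⟩,⟨0,[(37,0)]⟩),⟨0,[(0,0)]⟩,.k,.k,(.r (-1) ⟨3,[(21,1),(23,0),(0,2)]⟩ ⟨17,[(17,9),(2,7),(2,0),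
  (0,0),(8,1),(7,3)]⟩),.k,(.r (-2) ⟨9,[(2,3),(0,3),(13,1),(10,3),(6,7),(9,10),(0,0)]⟩ ⟨1,[(5,0),(14,
  0)]⟩),.k,⟨true,1,⟨8,[(2,1),(0,3),(7,1),(5,0),(10,1),(6,5),(5,1),(3,4)]⟩,⟨0,[(12,0)]⟩⟩,⟨false,1,⟨0,
  [(28,0),(6,0),(9,0)]⟩,⟨3,[(1,3),(7,3),(12,1),(15,0),(3,1),(2,0)]⟩⟩,⟨true,0,⟨0,[(43,0)]⟩,⟨0,[(44,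
  0)]⟩⟩,⟨false,0,⟨3,[(12,3),(8,1),(6,3),(6,3),(9,2),(0,0)]⟩,⟨1,[(1,1),(5,0),(1,0),(35,0)]⟩⟩,⟨false,
  0,⟨0,[]⟩,⟨1,[(27,0),(0,0),(17,0)]⟩⟩,⟨false,0,⟨0,[(12,0),(15,0),(6,0),(9,0)]⟩,⟨0,[(1,0),(6,0)]⟩⟩,
  [.a ⟨true,0,⟨3,[(12,3),(8,1),(13,3),(9,2),(0,0)]⟩,⟨3,[(7,1),(8,0),(19,0),(2,1)]⟩⟩ ⟨false,1,⟨15,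
  [(2,3),(0,3),(17,1),(6,3),(4,7),(11,6),(0,0)]⟩,⟨0,[(44,0)]⟩⟩ ⟨true,0,⟨3,[(12,3),(8,1),(6,3),(6,3),
  (9,2),(0,0)]⟩,⟨4,[(1,4),(3,1),(1,1),(0,2),(13,1),(15,0),(3,0)]⟩⟩,.o ⟨false,1,⟨3,[(1,3),(10,3),(8,
  1),(6,3),(16,2),(0,0)]⟩,⟨0,[(32,0)]⟩⟩,.o ⟨false,1,⟨3,[(1,3),(7,1),(28,0),(2,1),(3,0)]⟩,⟨0,[(28,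
  0)]⟩⟩,.e ⟨false,1,⟨3,[(21,1),(23,0),(0,2)]⟩,⟨7,[(17,2),(1,0),(0,1),(23,0),(1,0)]⟩⟩ ⟨false,1,⟨3,
  [(12,3),(8,1),(6,3),(6,3),(9,4),(0,2)]⟩,⟨4,[(1,4),(3,1),(1,1),(0,2),(13,1),(15,0),(3,0)]⟩⟩]⟩) (.R
  ⟨0,false,false,true,[1,0,0,0,-1],[0,1],[1,1,1],(⟨0,[(29,0)]⟩,⟨0,[(30,0)]⟩),(⟨0,[(40,0)]⟩,⟨0,[(39,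
  0)]⟩),⟨0,[(0,0)]⟩,.k,.k,(.r (-1) ⟨3,[(21,1),(23,0),(0,2)]⟩ ⟨17,[(17,9),(2,7),(2,0),(0,0),(8,1),(7,
  3)]⟩),(.r (-1) ⟨3,[(21,1),(23,0),(0,2)]⟩ ⟨17,[(17,9),(2,7),(2,0),(0,0),(8,1),(7,3)]⟩),.k,.k,
  ⟨false,1,⟨15,[(2,3),(0,3),(17,1),(6,3),(4,7),(11,6),(0,0)]⟩,⟨0,[(44,0)]⟩⟩,⟨true,0,⟨0,[(10,0),(24,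
  0)]⟩,⟨8,[(1,7),(3,3),(3,1),(3,3),(9,0),(3,0),(10,0)]⟩⟩,⟨true,(-1),⟨2,[(5,0),(7,0),(1,0),(25,0),(1,
  0)]⟩,⟨1,[(45,0),(0,0)]⟩⟩,⟨false,(-1),⟨0,[(22,0),(5,0)]⟩,⟨0,[(2,0)]⟩⟩,⟨false,0,⟨0,[]⟩,⟨0,[]⟩⟩,
  ⟨false,0,⟨0,[]⟩,⟨0,[]⟩⟩,[.a ⟨true,(-1),⟨0,[(22,0)]⟩,⟨11,[(2,1),(0,2),(17,1),(1,0),(4,1),(4,5),(12,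
  7)]⟩⟩ ⟨false,0,⟨15,[(17,1),(5,0),(0,0),(8,1),(7,5),(1,1)]⟩,⟨1,[(45,0),(0,0)]⟩⟩ ⟨true,(-1),⟨0,[(22,
  0),(5,0)]⟩,⟨6,[(1,2),(0,3),(0,0),(1,1),(12,0),(2,0),(1,0)]⟩⟩,.o ⟨false,0,⟨0,[(44,0)]⟩,⟨2,[(2,0),
  (25,0),(9,0),(4,1)]⟩⟩,.o ⟨false,1,⟨3,[(1,3),(7,1),(28,0),(2,1),(3,0)]⟩,⟨0,[(28,0)]⟩⟩,.e ⟨false,0,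
  ⟨0,[]⟩,⟨1,[(27,0),(0,0),(17,0)]⟩⟩ ⟨false,0,⟨1,[(22,1),(5,1),(16,0),(0,0)]⟩,⟨6,[(1,2),(0,3),(0,0),
  (1,1),(12,0),(2,0),(1,0)]⟩⟩]⟩))) (.Q [0,0,1,0,-2,0,1,0,1,1,-1,-1] (.p false [0,0,1] [1,0,0,0,-1]
  (⟨0,[(35,0)]⟩,⟨0,[(34,0)]⟩) .k 2 (⟨0,[(27,0)]⟩,⟨0,[(28,0)]⟩) .k (.r (-1) ⟨0,[(15,0),(25,0),(1,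
  0)]⟩ ⟨3,[(10,3),(8,1),(23,0),(0,2)]⟩)) (.Q [0,0,0,0,0,-1,0,0,0,0,0,1] (.ed false [1,-1,0,0,1] .k)
  (.S ⟨1,0,[0,2],[0,0,0,0,1],[1,1,0,-1],(⟨0,[(30,0)]⟩,⟨0,[(29,0)]⟩),⟨0,[(0,0)]⟩,.k,(.r 0 ⟨0,[(42,
  0)]⟩ ⟨3,[(17,1),(2,1),(6,0),(0,0),(17,2)]⟩),⟨false,1,⟨0,[(43,0),(2,0)]⟩,⟨0,[(44,0)]⟩⟩,⟨true,0,⟨15,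
  [(17,1),(5,0),(0,0),(8,1),(7,5),(1,1)]⟩,⟨0,[]⟩⟩,⟨true,0,⟨0,[]⟩,⟨15,[(17,1),(5,0),(0,0),(8,1),(7,
  5),(1,1)]⟩⟩,⟨false,0,⟨0,[(44,0)]⟩,⟨0,[(43,0),(2,0)]⟩⟩,[.e ⟨false,0,⟨0,[(42,0)]⟩,⟨2,[(17,0),(2,0),
  (23,0),(0,0),(0,1)]⟩⟩ ⟨false,0,⟨0,[(41,0)]⟩,⟨0,[(46,0)]⟩⟩,.o ⟨false,(-1),⟨6,[(1,0),(0,5),(8,0),(9,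
  2),(16,2),(7,3)]⟩,⟨1,[(27,1),(10,0),(7,0)]⟩⟩,.a ⟨true,(-1),⟨4,[(1,0),(0,3),(18,1),(13,0),(10,4)]⟩,
  ⟨0,[(27,0)]⟩⟩ ⟨true,0,⟨0,[(43,0)]⟩,⟨0,[(44,0)]⟩⟩ ⟨false,0,⟨15,[(17,1),(5,0),(0,0),(8,1),(7,5),(1,
  1)]⟩,⟨0,[(46,0)]⟩⟩,.o ⟨false,(-1),⟨6,[(1,2),(0,3),(8,2),(9,1),(16,1),(7,4)]⟩,⟨1,[(27,1),(10,0),(6,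
  0)]⟩⟩]⟩) (.Q [0,0,1,0,1,0,0,0,-1,-1,0,1] (.p true [0,0,0,0,1] [1] (⟨0,[(30,0)]⟩,⟨0,[(29,0)]⟩) .k
  1 (⟨0,[]⟩,⟨0,[]⟩) .k .k) (.R ⟨0,false,false,false,[0,0,0,0,1],[1,-1],[],(⟨0,[(31,0)]⟩,⟨0,[(30,
  0)]⟩),(⟨0,[(40,0)]⟩,⟨0,[(41,0)]⟩),⟨0,[(1,0)]⟩,.k,.k,(.r 0 ⟨0,[(43,0)]⟩ ⟨3,[(18,1),(2,1),(6,0),(0,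
  0),(17,2)]⟩),(.r 0 ⟨17,[(18,9),(2,7),(2,0),(0,0),(8,1),(7,3)]⟩ ⟨3,[(22,1),(23,0),(0,2)]⟩),.k,.k,
  ⟨false,0,⟨0,[(45,0)]⟩,⟨1,[(44,1),(1,0),(0,0)]⟩⟩,⟨true,1,⟨0,[(0,0)]⟩,⟨4,[(2,0),(0,3),(18,1),(13,0),
  (10,4)]⟩⟩,⟨false,1,⟨0,[(47,0)]⟩,⟨15,[(18,1),(5,0),(0,0),(8,1),(7,5),(1,1)]⟩⟩,⟨true,2,⟨3,[(0,1),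
  (21,1),(5,1),(10,0),(7,2)]⟩,⟨0,[(3,0)]⟩⟩,⟨false,0,⟨0,[]⟩,⟨0,[]⟩⟩,⟨false,0,⟨0,[]⟩,⟨0,[]⟩⟩,[.o
  ⟨false,1,⟨1,[(39,0),(4,1),(2,0)]⟩,⟨0,[(45,0)]⟩⟩,.a ⟨true,1,⟨0,[(44,0),(2,0)]⟩,⟨0,[(23,0)]⟩⟩
  ⟨false,1,⟨1,[(46,0),(0,0)]⟩,⟨15,[(18,1),(5,0),(0,0),(8,1),(7,5),(1,1)]⟩⟩ ⟨true,2,⟨3,[(0,1),(21,1),
  (5,1),(10,0),(7,2)]⟩,⟨2,[(2,0),(0,1),(12,0),(30,0)]⟩⟩,.e ⟨false,1,⟨1,[(28,0),(0,0),(17,0)]⟩,⟨0,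
  []⟩⟩ ⟨false,2,⟨3,[(0,1),(21,1),(5,1),(10,0),(7,2)]⟩,⟨0,[(3,0),(43,0)]⟩⟩,.o ⟨false,(-1),⟨6,[(2,2),
  (0,3),(8,2),(9,1),(16,1),(7,4)]⟩,⟨1,[(28,1),(10,0),(6,0)]⟩⟩]⟩) (.S ⟨1,0,[],[1,0,0,0,-1],[0,-1],
  (⟨0,[(30,0)]⟩,⟨0,[(31,0)]⟩),⟨1,[(1,0),(5,0),(18,0),(3,0)]⟩,.k,(.r (-1) ⟨3,[(22,1),(23,0),(0,2)]⟩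
  ⟨17,[(18,9),(2,7),(2,0),(0,0),(8,1),(7,3)]⟩),⟨false,1,⟨1,[(28,0),(0,0),(17,0)]⟩,⟨0,[]⟩⟩,⟨true,0,
  ⟨15,[(18,1),(5,0),(0,0),(8,1),(7,5),(1,1)]⟩,⟨0,[]⟩⟩,⟨true,0,⟨0,[(45,0)]⟩,⟨0,[(44,0)]⟩⟩,⟨false,0,
  ⟨0,[(45,0)]⟩,⟨0,[(44,0),(2,0)]⟩⟩,[.e ⟨false,1,⟨1,[(46,0),(0,0)]⟩,⟨15,[(18,1),(5,0),(0,0),(8,1),(7,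
  5),(1,1)]⟩⟩ ⟨false,1,⟨1,[(28,0),(0,0),(16,0)]⟩,⟨0,[]⟩⟩,.o ⟨false,2,⟨1,[(28,1),(10,0),(7,0)]⟩,⟨34,
  [(0,7),(1,4),(0,13),(8,4),(9,6),(6,7),(9,10)]⟩⟩,.e ⟨false,1,⟨0,[(47,0)]⟩,⟨15,[(18,1),(5,0),(0,0),
  (8,1),(7,5),(1,1)]⟩⟩ ⟨false,1,⟨1,[(28,0),(0,0),(17,0)]⟩,⟨0,[]⟩⟩,.a ⟨true,1,⟨2,[(12,0),(12,0),(2,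
  2),(7,0)]⟩,⟨0,[(0,0)]⟩⟩ ⟨true,1,⟨1,[(46,0),(0,0)]⟩,⟨2,[(6,0),(7,0),(1,0),(25,0),(1,0)]⟩⟩ ⟨false,1,
  ⟨1,[(46,0),(0,0)]⟩,⟨2,[(12,0),(12,0),(10,0)]⟩⟩]⟩))) (.Q [0,0,0,0,0,-1,0,0,0,1,0,-1] (.ed true [0,
  1,0,0,1] .k) (.Q [0,0,0,0,-1,0,0,0,1,1,0,-1] (.p false [0,0,0,0,1] [1] (⟨0,[(30,0)]⟩,⟨0,[(29,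
  0)]⟩) .k 1 (⟨0,[]⟩,⟨0,[]⟩) .k .k) (.R ⟨1,false,false,true,[1,0,0,0,-1],[1,0,-1],[],(⟨0,[(30,0)]⟩,
  ⟨0,[(31,0)]⟩),(⟨0,[(37,0)]⟩,⟨0,[(38,0)]⟩),⟨0,[(1,0)]⟩,.k,.k,(.r (-1) ⟨3,[(22,1),(23,0),(0,2)]⟩
  ⟨17,[(18,9),(2,7),(2,0),(0,0),(8,1),(7,3)]⟩),.k,(.r (-2) ⟨1,[(0,0),(1,1),(1,0),(24,0),(17,0)]⟩ ⟨1,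
  [(6,0),(14,0)]⟩),.k,⟨false,2,⟨1,[(0,0),(1,1),(5,0),(20,0),(17,0)]⟩,⟨1,[(6,0),(6,0),(8,0),(23,
  0)]⟩⟩,⟨true,0,⟨2,[(0,4),(1,1),(9,0),(26,0)]⟩,⟨1,[(2,1),(1,0),(1,1),(3,0),(36,0)]⟩⟩,⟨true,0,⟨15,
  [(18,1),(5,0),(0,0),(8,1),(7,5),(1,1)]⟩,⟨0,[]⟩⟩,⟨false,(-1),⟨4,[(0,7),(1,3),(0,0),(8,0),(0,4),(8,
  2),(16,1)]⟩,⟨3,[(2,3),(1,0),(1,1),(1,1),(1,0),(36,4)]⟩⟩,⟨false,0,⟨0,[(45,0)]⟩,⟨0,[(44,0),(2,0)]⟩⟩,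
  ⟨false,(-1),⟨14,[(0,22),(1,13),(0,5),(8,0),(0,14),(8,2),(16,6)]⟩,⟨3,[(2,3),(1,2),(1,1),(3,0),(36,
  4)]⟩⟩,[.o ⟨false,0,⟨4,[(0,2),(1,3),(0,0),(8,0),(0,4),(8,2),(16,1)]⟩,⟨27,[(2,3),(1,0),(3,11),(9,1),
  (6,2),(3,3),(9,5),(7,13)]⟩⟩,.e ⟨false,1,⟨1,[(46,0),(0,0)]⟩,⟨15,[(18,1),(5,0),(0,0),(8,1),(7,5),(1,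
  1)]⟩⟩ ⟨false,0,⟨3,[(0,7),(1,3),(10,3),(8,1),(16,1),(6,0),(0,0)]⟩,⟨3,[(2,3),(1,0),(1,1),(1,1),(1,
  0),(36,0)]⟩⟩,.a ⟨true,1,⟨0,[(28,0)]⟩,⟨0,[(0,0)]⟩⟩ ⟨false,1,⟨19,[(2,3),(1,0),(13,1),(6,2),(3,3),(4,
  3),(12,11)]⟩,⟨0,[]⟩⟩ ⟨true,(-1),⟨4,[(0,7),(1,3),(0,0),(8,0),(0,4),(8,2),(16,1)]⟩,⟨3,[(2,3),(1,0),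
  (1,1),(1,1),(1,0),(36,0)]⟩⟩,.o ⟨false,1,⟨4,[(2,0),(1,0),(1,1),(5,0),(15,3),(10,1),(7,0)]⟩,⟨1,[(0,
  1),(38,0),(6,0)]⟩⟩]⟩) (.R ⟨1,false,false,false,[1,0,0,0,-1],[0,1],[0,-1],(⟨0,[(30,0)]⟩,⟨0,[(31,
  0)]⟩),(⟨0,[(41,0)]⟩,⟨0,[(40,0)]⟩),⟨0,[(1,0)]⟩,.k,.k,(.r (-1) ⟨3,[(22,1),(23,0),(0,2)]⟩ ⟨17,[(18,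
  9),(2,7),(2,0),(0,0),(8,1),(7,3)]⟩),(.r (-1) ⟨3,[(22,1),(23,0),(0,2)]⟩ ⟨17,[(18,9),(2,7),(2,0),(0,
  0),(8,1),(7,3)]⟩),(.r (-2) ⟨22,[(2,10),(1,1),(6,6),(10,20),(2,1),(3,3),(4,3),(12,23)]⟩ ⟨3,[(16,0),
  (1,0),(1,1),(2,1),(9,0),(5,0)]⟩),.k,⟨true,1,⟨3,[(22,1),(23,0),(0,2)]⟩,⟨9,[(6,3),(9,1),(1,3),(5,0),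
  (0,0),(16,1)]⟩⟩,⟨false,0,⟨3,[(3,3),(18,1),(23,2),(0,4)]⟩,⟨1,[(0,0),(23,0),(3,0)]⟩⟩,⟨false,1,⟨19,
  [(2,3),(1,0),(13,1),(6,2),(3,3),(4,3),(12,11)]⟩,⟨0,[]⟩⟩,⟨false,(-1),⟨0,[(3,0),(43,0)]⟩,⟨7,[(0,3),
  (1,1),(19,3),(1,2),(0,0),(2,1),(18,5)]⟩⟩,⟨true,0,⟨0,[(45,0)]⟩,⟨0,[(44,0)]⟩⟩,⟨false,(-1),⟨0,[(3,0),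
  (41,0),(1,0)]⟩,⟨1,[(0,0),(21,1),(1,0),(3,0),(18,1)]⟩⟩,[.o ⟨false,0,⟨0,[(45,0)]⟩,⟨1,[(39,0),(4,1),
  (2,0)]⟩⟩,.a ⟨true,0,⟨0,[(23,0),(23,0)]⟩,⟨0,[(44,0)]⟩⟩ ⟨true,1,⟨0,[(47,0)]⟩,⟨2,[(6,0),(7,0),(1,0),
  (25,0),(1,0)]⟩⟩ ⟨false,0,⟨1,[(3,1),(42,0),(0,2)]⟩,⟨0,[(0,0),(43,0)]⟩⟩,.o ⟨false,1,⟨0,[(0,0)]⟩,⟨0,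
  [(29,0)]⟩⟩,.o ⟨false,1,⟨1,[(0,0),(23,0),(3,0)]⟩,⟨3,[(3,3),(18,1),(16,1),(6,0),(0,4)]⟩⟩]⟩)) (.Q [0,
  0,0,0,-1,0,0,0,1,1,0,-1] (.p false [0,0,0,0,1] [1] (⟨0,[(30,0)]⟩,⟨0,[(29,0)]⟩) .k 1 (⟨0,[]⟩,⟨0,
  []⟩) .k .k) (.R ⟨0,false,false,false,[1,0,0,0,-1],[1,0,-1],[1,0,1],(⟨0,[(30,0)]⟩,⟨0,[(31,0)]⟩),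
  (⟨0,[(37,0)]⟩,⟨0,[(38,0)]⟩),⟨0,[(1,0)]⟩,.k,.k,(.r (-1) ⟨3,[(22,1),(23,0),(0,2)]⟩ ⟨17,[(18,9),(2,
  7),(2,0),(0,0),(8,1),(7,3)]⟩),.k,.k,.k,⟨false,1,⟨5,[(0,1),(1,3),(1,0),(3,0),(9,1),(10,1)]⟩,⟨3,
  [(13,3),(8,1),(23,2),(0,0)]⟩⟩,⟨true,0,⟨2,[(0,4),(1,1),(9,0),(26,0)]⟩,⟨1,[(2,1),(1,0),(1,1),(3,0),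
  (36,0)]⟩⟩,⟨false,0,⟨2,[(12,0),(12,0),(10,0)]⟩,⟨1,[(46,0),(0,0)]⟩⟩,⟨true,(-1),⟨4,[(0,7),(1,3),(0,
  0),(8,0),(0,4),(8,2),(16,1)]⟩,⟨3,[(2,3),(1,0),(1,1),(1,1),(1,0),(36,0)]⟩⟩,⟨false,0,⟨0,[]⟩,⟨0,[]⟩⟩,
  ⟨false,0,⟨0,[]⟩,⟨0,[]⟩⟩,[.e ⟨false,0,⟨0,[]⟩,⟨29,[(2,13),(1,0),(6,9),(6,1),(6,2),(3,3),(4,3),(12,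
  1)]⟩⟩ ⟨false,0,⟨3,[(0,7),(1,3),(10,3),(8,1),(16,1),(6,0),(0,0)]⟩,⟨3,[(2,3),(1,0),(1,1),(1,1),(1,
  0),(36,0)]⟩⟩,.o ⟨false,1,⟨11,[(0,9),(1,9),(9,1),(0,11),(8,5),(16,4),(7,8)]⟩,⟨0,[(33,0)]⟩⟩,.a
  ⟨true,1,⟨0,[(28,0)]⟩,⟨0,[(0,0)]⟩⟩ ⟨true,0,⟨2,[(12,0),(12,0),(10,0)]⟩,⟨3,[(23,1),(15,0),(3,1),(2,
  0)]⟩⟩ ⟨false,0,⟨11,[(0,21),(1,9),(9,1),(0,11),(8,5),(16,4),(7,8)]⟩,⟨3,[(2,3),(1,0),(1,1),(1,1),(1,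
  0),(36,0)]⟩⟩,.o ⟨false,1,⟨4,[(2,0),(1,0),(1,1),(5,0),(15,3),(10,1),(7,0)]⟩,⟨1,[(0,1),(38,0),(6,
  0)]⟩⟩]⟩) (.S ⟨1,0,[0,1],[0,0,0,0,1],[1,2,0,-1],(⟨0,[(31,0)]⟩,⟨0,[(30,0)]⟩),⟨1,[(1,0),(5,0),(18,0),
  (4,0)]⟩,.k,(.r 0 ⟨0,[(43,0)]⟩ ⟨8,[(2,0),(15,4),(2,3),(3,0),(3,0),(4,0),(12,6)]⟩),⟨true,0,⟨0,[(44,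
  0)]⟩,⟨0,[(45,0)]⟩⟩,⟨false,1,⟨19,[(2,3),(1,0),(13,1),(6,2),(3,3),(4,3),(12,11)]⟩,⟨0,[]⟩⟩,⟨false,0,
  ⟨0,[]⟩,⟨19,[(2,3),(1,0),(13,1),(6,2),(3,3),(4,3),(12,11)]⟩⟩,⟨true,0,⟨0,[(45,0)]⟩,⟨0,[(44,0)]⟩⟩,
  [.e ⟨false,0,⟨2,[(22,0),(19,1),(1,0)]⟩,⟨0,[(45,0),(1,0)]⟩⟩ ⟨false,0,⟨2,[(0,0),(2,0),(39,0),(2,
  0)]⟩,⟨19,[(2,3),(1,0),(13,1),(6,2),(3,3),(4,3),(12,11)]⟩⟩,.o ⟨false,0,⟨0,[(29,0)]⟩,⟨0,[(0,0)]⟩⟩,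
  .o ⟨false,0,⟨0,[(29,0)]⟩,⟨0,[(0,0)]⟩⟩,.a ⟨true,(-1),⟨15,[(3,7),(0,0),(1,1),(3,6),(11,3),(6,7),(6,
  15),(10,10)]⟩,⟨3,[(0,3),(21,1),(0,3),(22,0),(0,2)]⟩⟩ ⟨false,0,⟨0,[(43,0)]⟩,⟨12,[(2,0),(8,0),(6,4),
  (1,2),(0,1),(25,13)]⟩⟩ ⟨true,0,⟨2,[(0,0),(2,0),(39,0),(2,0)]⟩,⟨2,[(12,0),(12,0),(10,
  0)]⟩⟩]⟩))))))))))) (.Q [0,2,1,0,-2,0,-1,0,1,0,1,-1] (.p true [0,0,1] [0,0,0,0,1] (⟨0,[(28,0)]⟩,⟨0,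
  [(27,0)]⟩) .k 2 (⟨0,[(21,0)]⟩,⟨0,[(20,0)]⟩) .k (.r (-2) ⟨3,[(0,1),(0,1),(2,1),(3,1),(9,2),(0,0),
  (17,2)]⟩ ⟨0,[(3,0),(29,0)]⟩)) (.R ⟨0,false,false,false,[1,-1,-1],[1,0,0,0,-1],[1,1,1],(⟨0,[(17,
  0)]⟩,⟨0,[(8,0),(22,0)]⟩),(⟨0,[(21,0)]⟩,⟨0,[(22,0)]⟩),⟨0,[(8,0)]⟩,.k,.k,(.r (-1) ⟨1,[(4,0),(5,0),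
  (2,1),(11,0),(11,0),(0,1)]⟩ ⟨0,[(9,0),(26,0)]⟩),(.r 0 ⟨3,[(4,1),(5,1),(2,1),(11,1),(11,0),(0,0)]⟩
  ⟨1,[(9,1),(27,0),(0,0)]⟩),.k,.k,⟨true,(-1),⟨0,[(7,0),(2,0)]⟩,⟨0,[(38,0)]⟩⟩,⟨false,2,⟨1,[(19,1),(3,
  1),(6,0),(6,0)]⟩,⟨0,[(0,0),(37,0)]⟩⟩,⟨false,0,⟨0,[(9,0)]⟩,⟨0,[(4,0),(8,0),(23,0),(0,0)]⟩⟩,⟨true,2,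
  ⟨0,[(19,0),(4,0),(11,0),(1,0)]⟩,⟨1,[(0,1),(3,1),(8,1),(23,0),(0,0)]⟩⟩,⟨false,0,⟨0,[]⟩,⟨0,[]⟩⟩,
  ⟨false,0,⟨0,[]⟩,⟨0,[]⟩⟩,[.o ⟨false,2,⟨1,[(19,1),(10,0),(7,0)]⟩,⟨5,[(0,3),(1,1),(3,1),(23,0),(7,
  0)]⟩⟩,.e ⟨false,0,⟨0,[]⟩,⟨1,[(19,0),(0,0),(16,0)]⟩⟩ ⟨false,3,⟨1,[(19,1),(3,1),(6,0),(6,0),(0,1)]⟩,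
  ⟨0,[(0,0)]⟩⟩,.a ⟨true,0,⟨0,[(27,0)]⟩,⟨0,[(23,0)]⟩⟩ ⟨false,0,⟨2,[(3,0),(12,0),(10,0)]⟩,⟨1,[(37,0),
  (0,0)]⟩⟩ ⟨true,2,⟨1,[(19,1),(3,1),(6,0),(7,0)]⟩,⟨0,[(0,0)]⟩⟩,.o ⟨false,0,⟨0,[(3,0)]⟩,⟨1,[(23,1),
  (6,0),(6,0)]⟩⟩]⟩) (.Q [0,-1,0,1,1,0,1,1,-1,0,-1,1] (.p false [0,0,1] [0,0,0,0,1] (⟨0,[(29,0)]⟩,⟨0,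
  [(28,0)]⟩) .k 2 (⟨0,[(22,0)]⟩,⟨0,[(21,0)]⟩) .k (.r (-2) ⟨15,[(0,7),(0,9),(0,7),(2,3),(2,0),(0,11),
  (18,0),(2,1),(3,7),(2,5)]⟩ ⟨0,[(4,0),(29,0)]⟩)) (.Q [0,-1,0,0,1,0,1,1,-1,0,-1,1] (.p false [0,0,
  1] [0,0,0,0,1] (⟨0,[(30,0)]⟩,⟨0,[(29,0)]⟩) .k 2 (⟨0,[(23,0)]⟩,⟨0,[(22,0)]⟩) .k (.r (-2) ⟨15,[(1,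
  7),(0,9),(0,7),(2,3),(2,0),(0,11),(18,0),(2,1),(3,7),(2,5)]⟩ ⟨0,[(5,0),(29,0)]⟩)) (.Q [0,0,0,0,0,
  -1,0,0,0,1,0,-1] (.ed true [0,1,0,0,1] .k) (.Q [0,0,1,-1,0,0,-1,-1,-1,-1,1,1] (.p true [0,0,1] [1,
  0,0,0,-1] (⟨0,[(32,0)]⟩,⟨0,[(31,0)]⟩) .k 2 (⟨0,[(24,0)]⟩,⟨0,[(25,0)]⟩) .k (.r (-1) ⟨8,[(4,3),(0,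
  3),(2,3),(3,4),(9,4),(0,0),(12,1),(1,0)]⟩ ⟨3,[(7,3),(8,1),(23,0),(0,2)]⟩)) (.R ⟨1,false,false,
  false,[1,0,0,0,-1],[0,1,1],[],(⟨0,[(25,0)]⟩,⟨0,[(26,0)]⟩),(⟨0,[(12,0),(22,0)]⟩,⟨0,[(21,0)]⟩),⟨0,
  [(1,0)]⟩,.k,.k,(.r (-1) ⟨3,[(17,1),(23,0),(0,2)]⟩ ⟨17,[(13,9),(2,7),(2,0),(0,0),(8,1),(7,3)]⟩),
  (.r (-1) ⟨18,[(0,12),(3,4),(1,11),(10,2),(2,0),(3,5),(4,5),(12,8)]⟩ ⟨4,[(5,0),(7,2),(4,0),(9,1),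
  (8,0),(2,0)]⟩),(.r (-1) ⟨3,[(0,3),(5,3),(10,1),(23,0),(0,2)]⟩ ⟨4,[(13,5),(2,0),(20,1),(2,2)]⟩),.k,
  ⟨true,0,⟨0,[(0,0),(5,0)]⟩,⟨0,[(13,0)]⟩⟩,⟨false,0,⟨0,[(6,0)]⟩,⟨12,[(0,2),(1,2),(2,3),(1,1),(3,2),
  (11,6),(10,1)]⟩⟩,⟨true,0,⟨15,[(13,1),(5,0),(0,0),(8,1),(7,5),(1,1)]⟩,⟨0,[]⟩⟩,⟨false,0,⟨0,[(6,0),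
  (6,0)]⟩,⟨1,[(0,1),(40,0),(0,0)]⟩⟩,⟨false,0,⟨0,[(40,0)]⟩,⟨0,[(39,0),(2,0)]⟩⟩,⟨false,0,⟨0,[(6,0),(6,
  0),(26,0)]⟩,⟨3,[(0,3),(16,1),(23,0),(0,2)]⟩⟩,[.a ⟨true,0,⟨1,[(2,0),(3,0),(6,0),(4,0)]⟩,⟨0,[(0,0),
  (5,0),(24,0)]⟩⟩ ⟨false,1,⟨3,[(4,0),(0,0),(0,0),(16,0),(0,0),(12,0)]⟩,⟨0,[]⟩⟩ ⟨true,0,⟨0,[(6,0),(6,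
  0)]⟩,⟨0,[(0,0)]⟩⟩,.o ⟨false,1,⟨0,[(3,0),(20,0)]⟩,⟨6,[(0,0),(4,1),(2,3),(8,4),(6,0),(4,1),(4,1)]⟩⟩,
  .o ⟨false,1,⟨9,[(0,3),(2,3),(19,1),(10,2),(2,1),(3,0)]⟩,⟨0,[(24,0)]⟩⟩,.e ⟨false,1,⟨1,[(41,0),(0,
  0)]⟩,⟨2,[(7,0),(12,0),(10,0)]⟩⟩ ⟨false,1,⟨6,[(3,0),(0,0),(0,1),(0,8),(6,5),(28,1)]⟩,⟨0,[(0,
  0)]⟩⟩]⟩) (.R ⟨1,false,false,false,[1,0,0,0,-1],[0,1,1],[],(⟨0,[(25,0)]⟩,⟨0,[(26,0)]⟩),(⟨0,[(12,0),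
  (22,0)]⟩,⟨0,[(21,0)]⟩),⟨0,[(1,0)]⟩,.k,.k,(.r (-1) ⟨3,[(17,1),(23,0),(0,2)]⟩ ⟨17,[(13,9),(2,7),(2,
  0),(0,0),(8,1),(7,3)]⟩),(.r (-1) ⟨7,[(4,1),(1,1),(1,3),(8,5),(11,3),(4,0),(7,6)]⟩ ⟨6,[(0,0),(2,0),
  (1,0),(5,1),(1,2),(14,1),(8,1)]⟩),(.r (-1) ⟨3,[(8,3),(8,5),(23,2),(0,4)]⟩ ⟨19,[(0,2),(2,2),(1,2),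
  (7,20),(1,5),(0,0),(20,10)]⟩),.k,⟨true,0,⟨1,[(8,1),(8,1),(23,0),(0,0)]⟩,⟨0,[(13,0)]⟩⟩,⟨false,0,⟨0,
  [(6,0)]⟩,⟨18,[(2,8),(2,9),(1,4),(0,8),(2,2),(5,5),(5,9),(10,1)]⟩⟩,⟨true,0,⟨15,[(13,1),(5,0),(0,0),
  (8,1),(7,5),(1,1)]⟩,⟨0,[]⟩⟩,⟨false,0,⟨3,[(0,2),(12,0),(6,0),(3,0),(6,0)]⟩,⟨3,[(2,3),(2,3),(2,7),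
  (8,5),(23,0),(0,2)]⟩⟩,⟨false,0,⟨0,[(40,0)]⟩,⟨0,[(39,0),(2,0)]⟩⟩,⟨false,0,⟨19,[(0,20),(3,0),(0,0),
  (7,6),(1,3),(0,3),(25,0)]⟩,⟨0,[(2,0),(2,0),(2,1),(8,1),(24,0)]⟩⟩,[.e ⟨false,1,⟨7,[(0,0),(3,2),(0,
  1),(0,0),(17,0),(4,0),(7,1),(1,0)]⟩,⟨0,[]⟩⟩ ⟨false,0,⟨0,[(0,0)]⟩,⟨24,[(2,5),(1,10),(0,18),(1,3),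
  (0,30),(8,27),(5,7),(10,0)]⟩⟩,.o ⟨false,1,⟨5,[(0,2),(2,1),(0,0),(8,0),(5,0),(14,0),(7,0)]⟩,⟨12,
  [(5,3),(1,0),(0,8),(8,10),(11,3),(4,3),(7,0)]⟩⟩,.o ⟨false,1,⟨2,[(3,1),(1,0),(2,1),(8,1),(5,0),(10,
  0)]⟩,⟨0,[(24,0)]⟩⟩,.a ⟨true,0,⟨6,[(2,5),(2,0),(2,5),(2,0),(5,3),(0,0),(4,0),(7,2)]⟩,⟨0,[(6,0),(24,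
  0)]⟩⟩ ⟨false,1,⟨1,[(41,0),(0,0)]⟩,⟨2,[(7,0),(12,0),(10,0)]⟩⟩ ⟨true,0,⟨0,[(0,0)]⟩,⟨18,[(2,8),(2,9),
  (1,4),(0,27),(2,2),(5,24),(5,9),(10,1)]⟩⟩]⟩)) (.R ⟨0,false,false,true,[1,0,0,0,-1],[0,1],[1,1,1],
  (⟨0,[(24,0)]⟩,⟨0,[(25,0)]⟩),(⟨0,[(35,0)]⟩,⟨0,[(34,0)]⟩),⟨0,[(0,0)]⟩,.k,.k,(.r (-1) ⟨3,[(16,1),(23,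
  0),(0,2)]⟩ ⟨17,[(12,9),(2,7),(2,0),(0,0),(8,1),(7,3)]⟩),(.r (-1) ⟨3,[(16,1),(23,0),(0,2)]⟩ ⟨17,
  [(12,9),(2,7),(2,0),(0,0),(8,1),(7,3)]⟩),.k,.k,⟨false,1,⟨6,[(3,1),(0,1),(0,1),(10,0),(21,4),(2,
  0)]⟩,⟨0,[(39,0)]⟩⟩,⟨true,0,⟨0,[(5,0),(24,0)]⟩,⟨18,[(1,17),(2,0),(1,9),(0,17),(2,5),(5,11),(5,0),
  (10,3)]⟩⟩,⟨true,(-1),⟨0,[(10,0),(2,0)]⟩,⟨1,[(40,0),(0,0)]⟩⟩,⟨false,(-1),⟨0,[(17,0),(5,0)]⟩,⟨10,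
  [(1,6),(1,3),(0,3),(1,2),(0,6),(8,8),(16,1),(7,7)]⟩⟩,⟨false,0,⟨0,[]⟩,⟨0,[]⟩⟩,⟨false,0,⟨0,[]⟩,⟨0,
  []⟩⟩,[.a ⟨true,(-1),⟨0,[(17,0)]⟩,⟨0,[(38,0),(2,0)]⟩⟩ ⟨false,0,⟨15,[(12,1),(5,0),(0,0),(8,1),(7,5),
  (1,1)]⟩,⟨1,[(40,0),(0,0)]⟩⟩ ⟨true,(-1),⟨0,[(17,0),(5,0)]⟩,⟨10,[(1,8),(1,1),(0,1),(1,6),(0,8),(8,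
  9),(16,0),(7,3)]⟩⟩,.o ⟨false,0,⟨0,[(39,0)]⟩,⟨19,[(3,5),(0,2),(11,7),(1,6),(4,5),(9,4),(4,3)]⟩⟩,.o
  ⟨false,1,⟨2,[(2,1),(1,0),(2,1),(8,1),(5,0),(10,0)]⟩,⟨0,[(23,0)]⟩⟩,.e ⟨false,0,⟨0,[]⟩,⟨1,[(3,0),
  (19,0),(6,0)]⟩⟩ ⟨false,0,⟨15,[(4,5),(0,12),(6,2),(1,1),(2,8),(5,2),(4,0),(12,4)]⟩,⟨10,[(1,8),(1,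
  1),(0,1),(1,6),(0,8),(8,9),(16,0),(7,3)]⟩⟩]⟩)) (.R ⟨1,true,false,false,[1,0,-1],[1,0,0,0,-1],[0,1,
  0,0,0,0,0,-1],(⟨0,[(30,0)]⟩,⟨0,[(31,0)]⟩),(⟨0,[(23,0)]⟩,⟨0,[(24,0)]⟩),⟨0,[(19,0)]⟩,.k,.k,.k,.k,
  (.r 0 ⟨7,[(0,1),(1,1),(3,2),(5,2),(2,3),(11,2),(11,0)]⟩ ⟨6,[(1,0),(0,0),(0,1),(0,1),(6,5),(28,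
  1)]⟩),.k,⟨false,(-1),⟨3,[(6,3),(9,1),(15,0),(3,5),(2,0)]⟩,⟨13,[(1,0),(0,0),(0,8),(0,1),(2,6),(3,
  5),(13,6),(14,15)]⟩⟩,⟨true,0,⟨0,[(1,0),(4,0),(8,0)]⟩,⟨0,[(22,0),(6,0)]⟩⟩,⟨true,0,⟨15,[(11,1),(5,
  0),(0,0),(8,1),(7,5),(1,1)]⟩,⟨0,[]⟩⟩,⟨false,2,⟨1,[(1,0),(0,0),(4,0),(21,0),(10,0)]⟩,⟨0,[(0,0)]⟩⟩,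
  ⟨false,0,⟨0,[(38,0)]⟩,⟨0,[(37,0),(2,0)]⟩⟩,⟨true,1,⟨0,[(1,0)]⟩,⟨0,[(0,0),(36,0)]⟩⟩,[]⟩)) (.Q [0,-1,
  1,0,1,0,-1,0,-1,-1,1,1] (.p true [0,0,1] [1,0,0,0,-1] (⟨0,[(30,0)]⟩,⟨0,[(29,0)]⟩) .k 2 (⟨0,[(22,
  0)]⟩,⟨0,[(23,0)]⟩) .k (.r (-1) ⟨8,[(2,3),(0,3),(2,3),(3,4),(9,4),(0,0),(12,1),(1,0)]⟩ ⟨3,[(5,3),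
  (8,1),(23,0),(0,2)]⟩)) (.R ⟨0,false,false,true,[1,-1,-1],[0,0,0,0,1],[],(⟨0,[(19,0)]⟩,⟨0,[(10,0),
  (22,0)]⟩),(⟨0,[(24,0)]⟩,⟨0,[(23,0)]⟩),⟨0,[(10,0)]⟩,.k,.k,(.r (-1) ⟨9,[(1,7),(0,7),(3,0),(5,0),(2,
  5),(11,0),(11,2)]⟩ ⟨0,[(11,0),(26,0)]⟩),(.r (-1) ⟨0,[(1,0),(0,0)]⟩ ⟨4,[(3,0),(7,2),(4,0),(9,1),(8,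
  0),(2,0)]⟩),.k,.k,⟨true,1,⟨0,[(40,0)]⟩,⟨0,[(9,0),(2,0)]⟩⟩,⟨false,0,⟨0,[(4,0)]⟩,⟨2,[(0,1),(4,0),
  (15,0),(13,0)]⟩⟩,⟨false,1,⟨1,[(11,1),(27,0),(0,0)]⟩,⟨1,[(6,1),(8,1),(23,0),(0,0)]⟩⟩,⟨true,(-1),⟨0,
  [(16,0),(5,0),(3,0)]⟩,⟨1,[(0,1),(5,1),(8,1),(23,0),(0,0)]⟩⟩,⟨false,0,⟨0,[]⟩,⟨0,[]⟩⟩,⟨false,0,⟨0,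
  []⟩,⟨0,[]⟩⟩,[.o ⟨false,(-1),⟨2,[(1,1),(14,1),(5,0),(3,1),(5,0)]⟩,⟨3,[(0,1),(1,1),(29,0),(7,0)]⟩⟩,
  .e ⟨false,1,⟨1,[(39,0),(0,0)]⟩,⟨15,[(11,1),(5,0),(0,0),(8,1),(7,5),(1,1)]⟩⟩ ⟨false,0,⟨9,[(4,8),(6,
  0),(6,0),(3,0),(4,0),(7,3),(1,0)]⟩,⟨0,[(0,0)]⟩⟩,.a ⟨true,0,⟨0,[(29,0)]⟩,⟨0,[(25,0)]⟩⟩ ⟨false,1,⟨1,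
  [(2,0),(19,0),(6,0)]⟩,⟨0,[]⟩⟩ ⟨true,(-1),⟨24,[(1,12),(2,11),(7,1),(0,2),(2,8),(1,3),(7,15),(8,
  4)]⟩,⟨0,[(0,0)]⟩⟩,.o ⟨false,0,⟨0,[(5,0)]⟩,⟨1,[(25,1),(6,0),(6,0)]⟩⟩]⟩) (.Q [0,1,0,1,-1,0,1,1,1,1,
  -1,-1] (.p false [0,0,1] [1,0,0,0,-1] (⟨0,[(31,0)]⟩,⟨0,[(30,0)]⟩) .k 2 (⟨0,[(23,0)]⟩,⟨0,[(24,
  0)]⟩) .k (.r (-1) ⟨8,[(3,3),(0,3),(2,3),(3,4),(9,4),(0,0),(12,1),(1,0)]⟩ ⟨3,[(6,3),(8,1),(23,0),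
  (0,2)]⟩)) (.Q [0,0,-1,0,1,0,1,0,-1,0,-1,1] (.p false [0,0,1] [0,0,0,0,1] (⟨0,[(32,0)]⟩,⟨0,[(31,
  0)]⟩) .k 2 (⟨0,[(25,0)]⟩,⟨0,[(24,0)]⟩) .k (.r (-2) ⟨15,[(3,7),(0,9),(0,7),(2,3),(2,0),(0,11),(18,
  0),(2,1),(3,7),(2,5)]⟩ ⟨0,[(7,0),(29,0)]⟩)) (.Q [0,0,0,-1,-1,0,-1,-1,1,0,1,-1] (.p true [0,0,1]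
  [0,0,0,0,1] (⟨0,[(33,0)]⟩,⟨0,[(32,0)]⟩) .k 2 (⟨0,[(26,0)]⟩,⟨0,[(25,0)]⟩) .k (.r (-2) ⟨15,[(4,7),
  (0,9),(0,7),(2,3),(2,0),(0,11),(18,0),(2,1),(3,7),(2,5)]⟩ ⟨0,[(8,0),(29,0)]⟩)) (.R ⟨0,false,false,
  true,[1,-1,-1],[1,0,0,0,-1],[0,1],(⟨0,[(22,0)]⟩,⟨0,[(13,0),(22,0)]⟩),(⟨0,[(26,0)]⟩,⟨0,[(27,0)]⟩),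
  ⟨0,[(13,0)]⟩,.k,.k,(.r (-1) ⟨3,[(0,0),(3,1),(0,2),(9,0),(2,1),(11,0),(11,0)]⟩ ⟨0,[(14,0),(26,
  0)]⟩),(.r 0 ⟨1,[(0,0),(0,0),(13,0),(14,0)]⟩ ⟨2,[(2,0),(2,0),(0,0),(7,1),(28,0)]⟩),.k,.k,⟨false,0,
  ⟨3,[(19,1),(15,0),(3,1),(2,0)]⟩,⟨1,[(5,0),(19,0),(6,0)]⟩⟩,⟨true,1,⟨0,[(1,0)]⟩,⟨0,[(0,0),(13,0)]⟩⟩,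
  ⟨true,0,⟨4,[(6,0),(7,2),(4,0),(9,1),(8,0),(2,0)]⟩,⟨0,[(0,0),(0,0)]⟩⟩,⟨false,2,⟨1,[(1,0),(3,0),(8,
  1),(27,0)]⟩,⟨0,[(0,0)]⟩⟩,⟨false,0,⟨0,[]⟩,⟨0,[]⟩⟩,⟨false,0,⟨0,[]⟩,⟨0,[]⟩⟩,[.a ⟨true,1,⟨0,[(24,0)]⟩,
  ⟨2,[(0,1),(1,0),(7,0),(8,1),(23,1)]⟩⟩ ⟨false,0,⟨3,[(19,1),(15,0),(3,1),(2,0)]⟩,⟨1,[(5,0),(19,0),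
  (6,0)]⟩⟩ ⟨true,1,⟨0,[(1,0)]⟩,⟨0,[(0,0),(13,0)]⟩⟩,.o ⟨false,2,⟨3,[(5,1),(0,0),(13,0),(3,1),(10,
  0)]⟩,⟨4,[(0,2),(1,1),(7,0),(8,1),(15,1)]⟩⟩,.e ⟨true,0,⟨15,[(14,1),(5,0),(0,0),(8,1),(7,5),(1,1)]⟩,
  ⟨0,[]⟩⟩ ⟨true,1,⟨0,[(1,0)]⟩,⟨7,[(0,2),(1,2),(1,1),(1,1),(1,0),(1,0),(1,1),(1,0)]⟩⟩,.o ⟨false,0,⟨0,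
  [(8,0)]⟩,⟨3,[(1,1),(5,1),(27,0),(6,0)]⟩⟩]⟩) (.Q [0,-1,0,0,1,0,-1,-1,-1,-1,1,1] (.p true [0,0,1]
  [1,0,0,0,-1] (⟨0,[(34,0)]⟩,⟨0,[(33,0)]⟩) .k 2 (⟨0,[(26,0)]⟩,⟨0,[(27,0)]⟩) .k (.r (-1) ⟨8,[(6,3),
  (0,3),(2,3),(3,4),(9,4),(0,0),(12,1),(1,0)]⟩ ⟨3,[(9,3),(8,1),(23,0),(0,2)]⟩)) (.R ⟨1,true,false,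
  false,[1,0,-1],[0,0,0,0,1],[0,1,0,0,0,0,0,-1],(⟨0,[(34,0)]⟩,⟨0,[(35,0)]⟩),(⟨0,[(28,0)]⟩,⟨0,[(27,
  0)]⟩),⟨0,[(23,0)]⟩,.k,.k,.k,.k,(.r (-1) ⟨0,[(5,0),(0,0)]⟩ ⟨4,[(1,0),(1,0),(3,0),(5,0),(1,1),(14,
  0),(8,0)]⟩),.k,⟨false,0,⟨0,[(0,0),(3,0)]⟩,⟨7,[(1,0),(5,4),(0,0),(2,3),(3,2),(13,3),(14,1)]⟩⟩,
  ⟨true,(-1),⟨0,[(3,0),(6,0),(8,0),(24,0)]⟩,⟨6,[(0,2),(0,2),(5,0),(1,2),(3,0),(5,1),(5,0),(7,0)]⟩⟩,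
  ⟨true,0,⟨15,[(15,1),(5,0),(0,0),(8,1),(7,5),(1,1)]⟩,⟨0,[]⟩⟩,⟨false,0,⟨3,[(3,1),(7,1),(2,0),(11,1),
  (7,0),(2,1),(6,1)]⟩,⟨0,[(0,0)]⟩⟩,⟨false,0,⟨0,[(42,0)]⟩,⟨0,[(41,0),(2,0)]⟩⟩,⟨true,(-1),⟨0,[(3,0)]⟩,
  ⟨0,[(0,0),(40,0)]⟩⟩,[]⟩) (.Q [0,0,0,0,1,0,1,1,-1,0,-1,1] (.p false [0,0,1] [0,0,0,0,1] (⟨0,[(35,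
  0)]⟩,⟨0,[(34,0)]⟩) .k 2 (⟨0,[(28,0)]⟩,⟨0,[(27,0)]⟩) .k (.r (-2) ⟨2,[(0,1),(5,2),(0,1),(7,0),(10,
  0),(6,0),(7,0)]⟩ ⟨0,[(10,0),(29,0)]⟩)) (.Q [0,-1,0,1,1,0,-1,-1,-1,-1,1,1] (.p true [0,0,1] [1,0,0,
  0,-1] (⟨0,[(36,0)]⟩,⟨0,[(35,0)]⟩) .k 2 (⟨0,[(28,0)]⟩,⟨0,[(29,0)]⟩) .k (.r (-1) ⟨8,[(0,3),(0,3),(6,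
  3),(7,0),(9,4),(0,4),(12,1),(1,0)]⟩ ⟨3,[(11,3),(8,1),(23,0),(0,2)]⟩)) (.R ⟨1,true,false,true,[0,0,
  1],[1,0,0,0,-1],[1,0,0,-1,0,0,0,1],(⟨0,[(37,0)]⟩,⟨0,[(36,0)]⟩),(⟨0,[(29,0)]⟩,⟨0,[(30,0)]⟩),⟨0,
  [(26,0)]⟩,.k,.k,.k,.k,(.r (-1) ⟨2,[(1,1),(0,0),(6,1),(0,0),(10,0),(21,0)]⟩ ⟨2,[(7,0),(0,0),(10,1),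
  (26,0)]⟩),.k,⟨true,1,⟨4,[(1,1),(0,1),(6,1),(3,0),(7,0),(13,0),(7,1),(2,2)]⟩,⟨0,[(12,0)]⟩⟩,⟨false,
  2,⟨0,[(4,0),(4,0)]⟩,⟨2,[(2,1),(3,0),(5,1),(8,0),(24,1)]⟩⟩,⟨false,1,⟨0,[(43,0),(2,0)]⟩,⟨0,[(44,
  0)]⟩⟩,⟨true,1,⟨12,[(0,9),(20,4),(1,2),(3,2),(5,2),(7,0)]⟩,⟨0,[(2,0)]⟩⟩,⟨true,0,⟨0,[]⟩,⟨15,[(17,1),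
  (5,0),(0,0),(8,1),(7,5),(1,1)]⟩⟩,⟨false,1,⟨0,[(0,0)]⟩,⟨0,[(2,0),(40,0),(2,0)]⟩⟩,[]⟩) (.Q [0,0,1,0,
  0,0,-2,-1,0,-1,2] (.p true [0,0,1] [1,0,-1] (⟨0,[(37,0)]⟩,⟨0,[(36,0)]⟩) .k 2 (⟨0,[(36,0)]⟩,⟨0,
  [(37,0)]⟩) .k (.r (-2) ⟨12,[(0,7),(0,9),(6,3),(0,13),(0,5),(6,7),(9,1),(0,1)]⟩ ⟨1,[(12,3),(8,1),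
  (23,0),(0,0)]⟩)) (.Q [0,0,-2,0,0,0,2,0,0,1,-2] (.p false [0,0,1] [1,0,-1] (⟨0,[(38,0)]⟩,⟨0,[(37,
  0)]⟩) .k 2 (⟨0,[(37,0)]⟩,⟨0,[(38,0)]⟩) .k (.r (-2) ⟨12,[(1,7),(0,9),(6,3),(0,13),(0,5),(6,7),(9,
  1),(0,1)]⟩ ⟨1,[(13,3),(8,1),(23,0),(0,0)]⟩)) (.I [0,0,1,1,1,0,0,2] (.R ⟨0,false,false,true,[1,-1,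
  -1],[0,0,1],[],(⟨0,[(28,0)]⟩,⟨0,[(19,0),(22,0)]⟩),(⟨0,[(40,0)]⟩,⟨0,[(39,0)]⟩),⟨0,[(19,0)]⟩,.k,.k,
  (.r (-1) ⟨25,[(1,3),(0,1),(7,19),(0,19),(12,15),(11,3),(4,0),(6,4)]⟩ ⟨0,[(20,0),(26,0)]⟩),(.r 0
  ⟨6,[(1,2),(0,2),(7,4),(0,4),(3,4),(5,0),(2,2),(11,0)]⟩ ⟨0,[(0,0)]⟩),.k,.k,⟨true,0,⟨2,[(1,0),(0,0),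
  (12,1),(8,0),(24,1)]⟩,⟨2,[(0,0),(15,0),(1,0),(27,0)]⟩⟩,⟨false,0,⟨0,[(1,0)]⟩,⟨12,[(0,1),(11,7),(1,
  4),(21,3),(1,0),(7,1),(2,2)]⟩⟩,⟨false,1,⟨63,[(0,39),(10,1),(10,11),(3,0),(0,0),(3,1),(4,3),(12,
  31)]⟩,⟨2,[(1,1),(0,1),(12,0),(8,1),(24,0)]⟩⟩,⟨true,0,⟨0,[(5,0),(0,0)]⟩,⟨2,[(1,1),(0,4),(12,0),(8,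
  1),(24,0)]⟩⟩,⟨false,0,⟨0,[]⟩,⟨0,[]⟩⟩,⟨false,0,⟨0,[]⟩,⟨0,[]⟩⟩,[.o ⟨false,0,⟨0,[(35,0)]⟩,⟨27,[(2,
  19),(7,3),(0,9),(1,5),(1,1),(7,1),(17,6),(7,6)]⟩⟩,.e ⟨false,1,⟨1,[(48,0),(0,0)]⟩,⟨15,[(20,1),(5,
  0),(0,0),(8,1),(7,5),(1,1)]⟩⟩ ⟨false,1,⟨0,[(4,0),(8,0)]⟩,⟨0,[(2,0)]⟩⟩,.a ⟨true,0,⟨0,[(38,0)]⟩,⟨0,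
  [(34,0)]⟩⟩ ⟨false,1,⟨31,[(0,3),(10,5),(14,0),(0,0),(3,5),(4,7),(9,3),(2,15)]⟩,⟨0,[]⟩⟩ ⟨true,0,⟨7,
  [(1,2),(1,3),(2,3),(20,0),(16,1)]⟩,⟨0,[(2,0)]⟩⟩,.o ⟨false,0,⟨0,[(14,0)]⟩,⟨3,[(1,0),(9,0),(1,0),
  (27,0),(2,0),(3,0)]⟩⟩]⟩) (.Q [0,0,0,1,-1,0,-1,-1,1,0,1,-1] (.p true [0,0,1] [0,0,0,0,1] (⟨0,[(40,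
  0)]⟩,⟨0,[(39,0)]⟩) .k 2 (⟨0,[(33,0)]⟩,⟨0,[(32,0)]⟩) .k (.r (-2) ⟨6,[(3,3),(7,5),(0,4),(0,0),(6,3),
  (9,0),(0,1),(4,0)]⟩ ⟨3,[(0,1),(14,0),(2,0),(16,0),(8,0)]⟩)) (.R ⟨1,true,false,false,[0,0,1],[0,0,
  0,0,1],[0,0,0,0,0,0,0,1],(⟨0,[(41,0)]⟩,⟨0,[(40,0)]⟩),(⟨0,[(34,0)]⟩,⟨0,[(33,0)]⟩),⟨0,[(30,0)]⟩,.k,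
  .k,.k,.k,(.r (-2) ⟨0,[(4,0),(7,0),(0,0)]⟩ ⟨10,[(1,1),(17,1),(2,1),(0,6),(21,2),(1,0)]⟩),.k,⟨false,
  2,⟨0,[(6,0),(5,0),(0,0)]⟩,⟨3,[(1,1),(14,0),(2,0),(16,0),(8,0)]⟩⟩,⟨true,0,⟨6,[(0,1),(3,1),(8,2),(0,
  0),(17,1),(6,1),(10,0)]⟩,⟨0,[(1,0),(3,0),(15,0)]⟩⟩,⟨false,1,⟨1,[(12,0),(19,0),(6,0)]⟩,⟨0,[]⟩⟩,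
  ⟨true,(-1),⟨12,[(0,4),(10,6),(7,0),(4,0),(7,0),(12,1)]⟩,⟨0,[(5,0)]⟩⟩,⟨true,0,⟨0,[(48,0)]⟩,⟨0,[(47,
  0)]⟩⟩,⟨false,(-1),⟨0,[(0,0)]⟩,⟨0,[(5,0),(41,0),(2,0)]⟩⟩,[]⟩) (.I [0,0,1,0,1,-1,-2] (.R ⟨0,false,
  false,true,[1,-1,-1],[0,0,1],[],(⟨0,[(30,0)]⟩,⟨0,[(21,0),(22,0)]⟩),(⟨0,[(42,0)]⟩,⟨0,[(41,0)]⟩),⟨0,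
  [(21,0)]⟩,.k,.k,(.r (-1) ⟨55,[(2,3),(9,35),(0,41),(1,5),(10,35),(11,11),(4,2),(6,8)]⟩ ⟨0,[(22,0),
  (26,0)]⟩),(.x (-1) ⟨0,[(0,0)]⟩ ⟨1,[(3,0),(17,1),(7,0),(1,1)]⟩),.k,.k,⟨true,0,⟨63,[(2,23),(10,1),
  (10,11),(3,0),(0,0),(3,1),(4,3),(12,31)]⟩,⟨4,[(1,0),(3,0),(8,0),(3,0),(1,0),(1,1),(23,0)]⟩⟩,
  ⟨false,0,⟨0,[(3,0)]⟩,⟨3,[(14,2),(1,0),(5,0),(15,0),(9,0),(2,0)]⟩⟩,⟨false,1,⟨3,[(8,0),(5,0),(0,0),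
  (6,2),(28,1)]⟩,⟨55,[(2,19),(9,11),(0,13),(1,1),(10,11),(11,3),(4,0),(6,2)]⟩⟩,⟨true,0,⟨0,[(7,0),(0,
  0)]⟩,⟨41,[(2,16),(1,34),(7,10),(0,10),(0,4),(11,6),(11,3),(4,0)]⟩⟩,⟨false,0,⟨0,[]⟩,⟨0,[]⟩⟩,⟨false,
  0,⟨0,[]⟩,⟨0,[]⟩⟩,[.o ⟨false,0,⟨0,[(37,0)]⟩,⟨23,[(2,1),(1,13),(8,3),(1,3),(9,1),(12,3),(4,6),(7,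
  10)]⟩⟩,.e ⟨false,1,⟨1,[(50,0),(0,0)]⟩,⟨15,[(22,1),(5,0),(0,0),(8,1),(7,5),(1,1)]⟩⟩ ⟨false,1,⟨1,
  [(1,0),(6,0),(6,1)]⟩,⟨0,[(4,0)]⟩⟩,.a ⟨true,0,⟨0,[(40,0)]⟩,⟨0,[(36,0)]⟩⟩ ⟨false,1,⟨14,[(1,0),(3,0),
  (7,3),(0,0),(7,1),(10,3),(4,3),(12,5)]⟩,⟨0,[]⟩⟩ ⟨true,0,⟨7,[(1,1),(1,2),(3,3),(0,1),(20,0),(16,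
  1)]⟩,⟨0,[(4,0)]⟩⟩,.o ⟨false,0,⟨0,[(16,0)]⟩,⟨3,[(3,0),(9,0),(1,0),(27,0),(2,0),(3,0)]⟩⟩]⟩) (.I [0,
  0,-1,0,-1,1,2] (.R ⟨0,false,false,true,[1,-1,-1],[0,0,1],[],(⟨0,[(31,0)]⟩,⟨0,[(22,0),(22,0)]⟩),
  (⟨0,[(43,0)]⟩,⟨0,[(42,0)]⟩),⟨0,[(22,0)]⟩,.k,.k,(.r (-1) ⟨55,[(3,3),(9,35),(0,41),(1,5),(10,35),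
  (11,11),(4,2),(6,8)]⟩ ⟨0,[(23,0),(26,0)]⟩),(.x (-2) ⟨31,[(2,5),(6,5),(4,5),(0,34),(13,18),(1,31),
  (2,17),(4,11),(2,31),(1,4)]⟩ ⟨0,[(0,0)]⟩),.k,.k,⟨true,0,⟨63,[(3,23),(10,1),(10,11),(3,0),(0,0),(3,
  1),(4,3),(12,31)]⟩,⟨4,[(2,0),(3,0),(8,0),(3,0),(1,0),(1,1),(23,0)]⟩⟩,⟨false,0,⟨0,[(4,0)]⟩,⟨3,[(15,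
  2),(1,0),(5,0),(15,0),(9,0),(2,0)]⟩⟩,⟨false,1,⟨3,[(9,0),(5,0),(0,0),(6,2),(28,1)]⟩,⟨55,[(3,19),(9,
  11),(0,13),(1,1),(10,11),(11,3),(4,0),(6,2)]⟩⟩,⟨true,0,⟨0,[(8,0),(0,0)]⟩,⟨41,[(3,16),(1,34),(7,
  10),(0,10),(0,4),(11,6),(11,3),(4,0)]⟩⟩,⟨false,0,⟨0,[]⟩,⟨0,[]⟩⟩,⟨false,0,⟨0,[]⟩,⟨0,[]⟩⟩,[.o
  ⟨false,0,⟨0,[(38,0)]⟩,⟨23,[(3,1),(1,13),(8,3),(1,3),(9,1),(12,3),(4,6),(7,10)]⟩⟩,.e ⟨false,1,⟨1,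
  [(51,0),(0,0)]⟩,⟨15,[(23,1),(5,0),(0,0),(8,1),(7,5),(1,1)]⟩⟩ ⟨false,1,⟨1,[(2,0),(6,0),(6,1)]⟩,⟨0,
  [(5,0)]⟩⟩,.a ⟨true,0,⟨0,[(41,0)]⟩,⟨0,[(37,0)]⟩⟩ ⟨false,1,⟨14,[(2,0),(3,0),(7,3),(0,0),(7,1),(10,
  3),(4,3),(12,5)]⟩,⟨0,[]⟩⟩ ⟨true,0,⟨7,[(2,1),(1,2),(3,3),(0,1),(20,0),(16,1)]⟩,⟨0,[(5,0)]⟩⟩,.o
  ⟨false,0,⟨0,[(17,0)]⟩,⟨3,[(4,0),(9,0),(1,0),(27,0),(2,0),(3,0)]⟩⟩]⟩) (.I [0,0,-1,-1,-1,0,0,-2]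
  (.R ⟨0,false,false,true,[1,-1,-1],[0,0,1],[],(⟨0,[(32,0)]⟩,⟨0,[(23,0),(22,0)]⟩),(⟨0,[(44,0)]⟩,⟨0,
  [(43,0)]⟩),⟨0,[(23,0)]⟩,.k,.k,(.r (-1) ⟨55,[(0,3),(13,35),(0,41),(1,5),(10,35),(11,11),(4,2),(6,
  8)]⟩ ⟨0,[(24,0),(26,0)]⟩),(.r 1 ⟨0,[(0,0)]⟩ ⟨3,[(3,1),(6,0),(5,2),(0,2),(6,4),(9,1),(0,1)]⟩),.k,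
  .k,⟨true,0,⟨63,[(0,23),(14,1),(10,11),(3,0),(0,0),(3,1),(4,3),(12,31)]⟩,⟨4,[(3,0),(3,0),(8,0),(3,
  0),(1,0),(1,1),(23,0)]⟩⟩,⟨false,0,⟨0,[(5,0)]⟩,⟨3,[(16,2),(1,0),(5,0),(15,0),(9,0),(2,0)]⟩⟩,⟨false,
  1,⟨3,[(10,0),(5,0),(0,0),(6,2),(28,1)]⟩,⟨55,[(0,19),(13,11),(0,13),(1,1),(10,11),(11,3),(4,0),(6,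
  2)]⟩⟩,⟨true,0,⟨0,[(9,0),(0,0)]⟩,⟨41,[(0,16),(5,34),(7,10),(0,10),(0,4),(11,6),(11,3),(4,0)]⟩⟩,
  ⟨false,0,⟨0,[]⟩,⟨0,[]⟩⟩,⟨false,0,⟨0,[]⟩,⟨0,[]⟩⟩,[.o ⟨false,0,⟨0,[(39,0)]⟩,⟨9,[(0,1),(5,1),(9,1),
  (10,1),(12,1),(4,2),(7,6)]⟩⟩,.e ⟨false,1,⟨1,[(52,0),(0,0)]⟩,⟨15,[(24,1),(5,0),(0,0),(8,1),(7,5),
  (1,1)]⟩⟩ ⟨false,1,⟨1,[(3,0),(6,0),(6,1)]⟩,⟨0,[(6,0)]⟩⟩,.a ⟨true,0,⟨0,[(42,0)]⟩,⟨0,[(38,0)]⟩⟩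
  ⟨false,1,⟨14,[(3,0),(3,0),(7,3),(0,0),(7,1),(10,3),(4,3),(12,5)]⟩,⟨0,[]⟩⟩ ⟨true,0,⟨7,[(3,1),(1,2),
  (3,3),(0,1),(20,0),(16,1)]⟩,⟨0,[(6,0)]⟩⟩,.o ⟨false,0,⟨0,[(18,0)]⟩,⟨3,[(5,0),(9,0),(1,0),(27,0),(2,
  0),(3,0)]⟩⟩]⟩) (.I [1,-1,2,1,-1,0,0,-1] (.Q [0,-2,0,0,2,0,0,0,-1,-1,0,1] (.p true [0,0,0,0,1] [1]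
  (⟨0,[(38,0)]⟩,⟨0,[(37,0)]⟩) .k 1 (⟨0,[]⟩,⟨0,[]⟩) .k .k) (.R ⟨0,false,false,false,[1,-1,-1],[1,0,0,
  0,-1],[0,1],(⟨0,[(34,0)]⟩,⟨0,[(25,0),(22,0)]⟩),(⟨0,[(38,0)]⟩,⟨0,[(39,0)]⟩),⟨0,[(25,0)]⟩,.k,.k,(.r
  (-1) ⟨55,[(6,3),(9,35),(0,41),(1,5),(10,35),(11,11),(4,2),(6,8)]⟩ ⟨18,[(1,5),(0,11),(9,1),(1,1),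
  (9,3),(3,2),(18,0),(5,5)]⟩),(.r 0 ⟨42,[(6,7),(9,2),(0,4),(1,1),(7,19),(2,5),(11,23),(4,0)]⟩ ⟨63,
  [(2,39),(14,1),(10,11),(3,0),(0,0),(3,1),(4,3),(12,31)]⟩),.k,.k,⟨false,0,⟨0,[(50,0)]⟩,⟨0,[(55,
  0)]⟩⟩,⟨true,1,⟨0,[(13,0)]⟩,⟨0,[(1,0),(7,0),(8,0)]⟩⟩,⟨true,0,⟨33,[(2,12),(9,1),(1,1),(9,10),(3,2),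
  (12,6),(5,0),(2,6)]⟩,⟨55,[(6,19),(9,11),(0,13),(1,1),(10,11),(11,3),(4,0),(6,2)]⟩⟩,⟨false,2,⟨0,
  [(12,0),(42,0)]⟩,⟨0,[(16,0)]⟩⟩,⟨false,0,⟨0,[]⟩,⟨0,[]⟩⟩,⟨false,0,⟨0,[]⟩,⟨0,[]⟩⟩,[.e ⟨false,0,⟨3,
  [(31,1),(15,0),(3,1),(2,0)]⟩,⟨31,[(2,3),(14,5),(14,0),(0,0),(3,5),(4,7),(9,3),(2,15)]⟩⟩ ⟨false,2,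
  ⟨1,[(13,0),(3,0),(36,0)]⟩,⟨0,[(8,0),(2,0)]⟩⟩,.o ⟨false,2,⟨0,[(0,0)]⟩,⟨2,[(11,0),(3,0),(0,0),(7,0),
  (22,0),(2,0)]⟩⟩,.a ⟨true,0,⟨0,[(44,0)]⟩,⟨0,[(40,0)]⟩⟩ ⟨true,0,⟨33,[(2,1),(21,1),(7,2),(0,2),(8,3),
  (7,11),(1,3)]⟩,⟨0,[]⟩⟩ ⟨false,2,⟨0,[(17,0)]⟩,⟨0,[(8,0),(2,0)]⟩⟩,.o ⟨false,0,⟨0,[(20,0)]⟩,⟨3,[(7,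
  0),(9,0),(1,0),(27,0),(2,0),(3,0)]⟩⟩]⟩) (.Q [0,0,0,0,0,-1,0,0,0,1,0,-1] (.ed true [0,1,0,0,1] .k)
  (.S ⟨1,0,[0,-1],[1,0,0,0,-1],[],(⟨0,[(39,0)]⟩,⟨0,[(40,0)]⟩),⟨0,[(0,0)]⟩,.k,(.r (-1) ⟨3,[(31,1),
  (23,0),(0,2)]⟩ ⟨18,[(3,4),(21,4),(4,8),(2,2),(0,2),(8,0),(7,1)]⟩),⟨true,0,⟨33,[(3,1),(21,1),(7,2),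
  (0,2),(8,3),(7,11),(1,3)]⟩,⟨0,[]⟩⟩,⟨false,1,⟨31,[(3,3),(14,5),(14,0),(0,0),(3,5),(4,7),(9,3),(2,
  15)]⟩,⟨0,[]⟩⟩,⟨false,0,⟨0,[(54,0)]⟩,⟨0,[(53,0),(2,0)]⟩⟩,⟨true,0,⟨0,[(54,0)]⟩,⟨0,[(53,0)]⟩⟩,[.o
  ⟨false,2,⟨3,[(18,1),(0,0),(13,0),(3,1),(10,0)]⟩,⟨1,[(1,1),(46,0),(7,0)]⟩⟩,.a ⟨true,2,⟨0,[(18,0),
  (26,0)]⟩,⟨0,[(1,0)]⟩⟩ ⟨false,1,⟨1,[(55,0),(0,0)]⟩,⟨33,[(3,1),(21,1),(7,2),(0,2),(8,3),(7,11),(1,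
  3)]⟩⟩ ⟨true,1,⟨0,[(56,0)]⟩,⟨0,[(25,0),(2,0)]⟩⟩,.e ⟨false,1,⟨31,[(3,3),(14,5),(14,0),(0,0),(3,5),
  (4,7),(9,3),(2,15)]⟩,⟨0,[]⟩⟩ ⟨false,1,⟨0,[(56,0)]⟩,⟨33,[(3,1),(21,1),(7,2),(0,2),(8,3),(7,11),(1,
  3)]⟩⟩,.o ⟨false,1,⟨3,[(6,0),(2,1),(3,0),(0,1),(18,1)]⟩,⟨1,[(1,1),(46,0),(6,0),(0,1)]⟩⟩]⟩) (.R ⟨0,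
  false,false,false,[1,0,0,0,-1],[1,0,-1],[1,0,1],(⟨0,[(39,0)]⟩,⟨0,[(40,0)]⟩),(⟨0,[(46,0)]⟩,⟨0,[(47,
  0)]⟩),⟨0,[(0,0)]⟩,.k,.k,(.r (-1) ⟨3,[(31,1),(23,0),(0,2)]⟩ ⟨18,[(3,4),(21,4),(4,8),(2,2),(0,2),(8,
  0),(7,1)]⟩),.k,.k,.k,⟨false,1,⟨38,[(3,21),(14,6),(0,1),(0,1),(10,10),(6,4),(4,4),(12,0)]⟩,⟨15,[(7,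
  5),(21,1),(0,1),(24,6),(0,0)]⟩⟩,⟨true,0,⟨1,[(1,0),(17,0),(18,0),(17,0)]⟩,⟨0,[(6,0),(15,0)]⟩⟩,
  ⟨false,0,⟨2,[(21,0),(12,0),(10,0)]⟩,⟨1,[(55,0),(0,0)]⟩⟩,⟨true,(-1),⟨78,[(1,27),(5,0),(1,44),(7,
  19),(2,30),(8,8),(0,2),(17,6)]⟩,⟨0,[(11,0)]⟩⟩,⟨false,0,⟨0,[]⟩,⟨0,[]⟩⟩,⟨false,0,⟨0,[]⟩,⟨0,[]⟩⟩,[.e
  ⟨false,0,⟨0,[]⟩,⟨30,[(3,3),(14,7),(12,1),(6,7),(4,7),(7,2),(3,10)]⟩⟩ ⟨false,0,⟨0,[(9,0),(10,0)]⟩,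
  ⟨0,[(11,0)]⟩⟩,.o ⟨false,1,⟨23,[(7,1),(1,13),(8,3),(1,3),(9,1),(12,3),(4,6),(7,10)]⟩,⟨0,[(42,0)]⟩⟩,
  .a ⟨true,1,⟨0,[(37,0)]⟩,⟨0,[(1,0),(54,0)]⟩⟩ ⟨true,0,⟨2,[(21,0),(12,0),(10,0)]⟩,⟨3,[(32,1),(15,0),
  (3,1),(2,0)]⟩⟩ ⟨false,0,⟨5,[(1,0),(0,0),(6,3),(7,0),(2,2),(17,0),(17,3)]⟩,⟨0,[(11,0)]⟩⟩,.o ⟨false,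
  1,⟨3,[(6,0),(2,1),(3,0),(0,1),(18,1)]⟩,⟨1,[(1,1),(46,0),(6,0),(0,1)]⟩⟩]⟩))) (.Q [0,0,-2,0,1,0,-1,
  0,0,0,1] (.p true [0,0,1] [] (⟨0,[(45,0)]⟩,⟨0,[(44,0)]⟩) .k 0 (⟨0,[]⟩,⟨0,[]⟩) .k .k) (.Q [0,-1,0,
  2,0,0,-1,-1,0,0,1] (.p true [0,0,1] [] (⟨0,[(46,0)]⟩,⟨0,[(45,0)]⟩) .k 0 (⟨0,[]⟩,⟨0,[]⟩) .k .k)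
  (.R ⟨1,false,false,false,[0,0,1],[0,1],[1,0,1,1],(⟨0,[(47,0)]⟩,⟨0,[(46,0)]⟩),(⟨0,[(50,0)]⟩,⟨0,
  [(49,0)]⟩),⟨0,[(36,0)]⟩,.k,.k,.k,.k,(.r (-2) ⟨0,[(2,0),(50,0),(2,0)]⟩ ⟨0,[(29,0)]⟩),.k,⟨true,0,⟨0,
  []⟩,⟨2,[(21,0),(12,0),(10,0)]⟩⟩,⟨false,1,⟨0,[(1,0)]⟩,⟨0,[(44,0)]⟩⟩,⟨true,(-1),⟨0,[(22,0)]⟩,⟨21,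
  [(2,12),(0,4),(14,0),(19,0),(4,0),(9,13),(2,1)]⟩⟩,⟨true,0,⟨1,[(0,0),(42,0)]⟩,⟨0,[(23,0)]⟩⟩,⟨true,
  (-1),⟨6,[(0,1),(12,0),(1,0),(6,6),(9,0),(15,0)]⟩,⟨2,[(2,0),(0,0),(27,1),(21,1),(2,0)]⟩⟩,⟨false,0,
  ⟨0,[(0,0)]⟩,⟨4,[(6,3),(3,0),(20,1),(1,0),(4,2),(14,0),(2,1)]⟩⟩,[.o ⟨false,0,⟨0,[(54,0)]⟩,⟨19,[(18,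
  5),(0,2),(11,7),(1,6),(4,5),(9,4),(4,3)]⟩⟩,.a ⟨true,0,⟨0,[(32,0),(23,0)]⟩,⟨0,[(53,0)]⟩⟩ ⟨false,1,
  ⟨3,[(0,0),(2,0),(14,0),(11,0),(7,0),(17,0)]⟩,⟨0,[(52,0)]⟩⟩ ⟨true,1,⟨25,[(0,8),(0,5),(1,7),(39,6),
  (1,3),(10,11)]⟩,⟨2,[(6,0),(0,0),(2,0),(10,0),(0,1),(0,1)]⟩⟩,.o ⟨false,0,⟨0,[(24,0)]⟩,⟨59,[(3,3),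
  (14,5),(0,28),(13,0),(4,5),(4,7),(4,14),(4,3)]⟩⟩,.e ⟨true,0,⟨6,[(0,1),(12,0),(1,0),(16,0),(15,
  0)]⟩,⟨0,[(53,0)]⟩⟩ ⟨true,1,⟨26,[(0,6),(0,16),(1,7),(14,0),(11,4),(7,0),(4,3)]⟩,⟨2,[(6,0),(0,0),(2,
  0),(10,0),(0,1),(0,1)]⟩⟩]⟩) (.Q [0,0,0,0,1,0,0,0,-1,-1,0,1] (.p true [0,0,0,0,1] [1] (⟨0,[(40,
  0)]⟩,⟨0,[(39,0)]⟩) .k 1 (⟨0,[]⟩,⟨0,[]⟩) .k .k) (.Q [0,0,0,0,0,1,0,0,0,0,0,-1] (.ed true [1,-1,0,0,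
  1] .k) (.R ⟨0,false,false,false,[0,0,0,0,1],[0,1],[0,0,1,1],(⟨0,[(42,0)]⟩,⟨0,[(41,0)]⟩),(⟨0,[(52,
  0)]⟩,⟨0,[(51,0)]⟩),⟨0,[(0,0)]⟩,.k,.k,(.r 0 ⟨0,[(54,0)]⟩ ⟨63,[(5,23),(14,13),(10,19),(3,6),(0,6),
  (3,13),(4,27),(12,31)]⟩),(.r 0 ⟨0,[(54,0)]⟩ ⟨63,[(5,23),(14,13),(10,19),(3,6),(0,6),(3,13),(4,27),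
  (12,31)]⟩),.k,.k,⟨false,1,⟨20,[(3,2),(0,4),(0,0),(14,5),(11,3),(7,5),(4,2)]⟩,⟨0,[]⟩⟩,⟨true,1,⟨7,
  [(1,2),(1,2),(4,2),(0,0),(1,0),(8,1),(13,3)]⟩,⟨2,[(12,1),(10,1),(0,1),(15,0),(17,0)]⟩⟩,⟨false,1,
  ⟨31,[(5,7),(14,1),(10,11),(3,0),(0,0),(3,1),(4,3),(12,31)]⟩,⟨0,[(54,0)]⟩⟩,⟨true,1,⟨0,[(1,0),(32,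
  0),(23,0)]⟩,⟨5,[(14,0),(3,0),(0,3),(5,2),(1,0),(22,0),(2,0)]⟩⟩,⟨false,0,⟨0,[]⟩,⟨0,[]⟩⟩,⟨false,0,
  ⟨0,[]⟩,⟨0,[]⟩⟩,[.o ⟨false,0,⟨0,[(56,0)]⟩,⟨19,[(20,5),(0,2),(11,7),(1,6),(4,5),(9,4),(4,3)]⟩⟩,.a
  ⟨true,0,⟨0,[(34,0),(23,0)]⟩,⟨0,[(55,0)]⟩⟩ ⟨false,1,⟨18,[(3,5),(1,3),(14,5),(10,6),(0,0),(7,5),(17,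
  3)]⟩,⟨0,[(54,0)]⟩⟩ ⟨true,1,⟨0,[(1,0),(32,0),(23,0)]⟩,⟨1,[(12,0),(6,0),(15,0)]⟩⟩,.o ⟨false,0,⟨0,
  [(40,0)]⟩,⟨0,[(1,0)]⟩⟩,.e ⟨true,0,⟨0,[(56,0)]⟩,⟨0,[(55,0)]⟩⟩ ⟨true,1,⟨3,[(1,1),(1,1),(11,0),(4,0),
  (3,0),(9,1)]⟩,⟨1,[(12,0),(6,0),(15,0)]⟩⟩]⟩) (.S ⟨1,0,[0,1],[0,0,0,0,1],[0,2],(⟨0,[(42,0)]⟩,⟨0,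
  [(41,0)]⟩),⟨0,[(0,0)]⟩,.k,(.r 0 ⟨0,[(54,0)]⟩ ⟨63,[(5,23),(14,13),(10,19),(3,6),(0,6),(3,13),(4,
  27),(12,31)]⟩),⟨true,0,⟨33,[(5,1),(21,1),(7,2),(0,2),(8,3),(7,11),(1,3)]⟩,⟨0,[]⟩⟩,⟨false,1,⟨31,
  [(5,3),(14,5),(14,0),(0,0),(3,5),(4,7),(9,3),(2,15)]⟩,⟨0,[]⟩⟩,⟨false,0,⟨0,[(56,0)]⟩,⟨0,[(55,0),(2,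
  0)]⟩⟩,⟨true,0,⟨0,[(56,0)]⟩,⟨0,[(55,0)]⟩⟩,[.e ⟨false,0,⟨0,[(53,0)]⟩,⟨0,[(58,0)]⟩⟩ ⟨false,0,⟨36,[(3,
  1),(0,9),(4,4),(0,0),(23,14),(15,7),(2,5)]⟩,⟨31,[(5,3),(14,5),(14,0),(0,0),(3,5),(4,7),(9,3),(2,
  15)]⟩⟩,.o ⟨false,0,⟨0,[(40,0)]⟩,⟨0,[(1,0)]⟩⟩,.o ⟨false,0,⟨0,[(40,0)]⟩,⟨0,[(1,0)]⟩⟩,.a ⟨true,(-1),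
  ⟨2,[(12,1),(6,0),(11,0),(2,0),(12,0),(10,1)]⟩,⟨7,[(1,2),(1,2),(4,2),(0,0),(1,0),(8,1),(13,3)]⟩⟩
  ⟨false,0,⟨36,[(3,1),(0,9),(4,4),(0,0),(23,14),(15,7),(2,5)]⟩,⟨2,[(23,0),(12,0),(10,0),(10,2)]⟩⟩
  ⟨true,0,⟨36,[(3,1),(0,9),(4,4),(0,0),(23,14),(15,7),(2,5)]⟩,⟨2,[(23,0),(12,0),(10,0)]⟩⟩]⟩)) (.Q
  [0,0,0,0,0,-1,0,0,0,1,0,-1] (.ed true [0,1,0,0,1] .k) (.R ⟨1,false,false,true,[1,0,0,0,-1],[1,-1,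
  -1],[],(⟨0,[(41,0)]⟩,⟨0,[(42,0)]⟩),(⟨0,[(37,0)]⟩,⟨0,[(28,0),(22,0)]⟩),⟨0,[(0,0)]⟩,.k,.k,(.r (-1)
  ⟨27,[(3,3),(16,1),(1,1),(10,13),(16,0),(7,18)]⟩ ⟨18,[(5,4),(21,4),(4,8),(2,2),(0,2),(8,0),(7,
  1)]⟩),(.r (-1) ⟨63,[(5,39),(14,1),(10,11),(3,0),(0,0),(3,1),(4,3),(12,31)]⟩ ⟨42,[(9,7),(9,2),(0,
  4),(1,1),(7,19),(2,5),(11,23),(4,0)]⟩),.k,.k,⟨true,1,⟨63,[(5,39),(14,1),(10,11),(3,0),(0,0),(3,1),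
  (4,3),(12,31)]⟩,⟨4,[(2,0),(6,2),(17,1),(2,0),(24,0)]⟩⟩,⟨false,0,⟨1,[(1,0),(19,0),(18,0)]⟩,⟨0,[(16,
  0)]⟩⟩,⟨true,0,⟨33,[(5,1),(21,1),(7,2),(0,2),(8,3),(7,11),(1,3)]⟩,⟨0,[]⟩⟩,⟨false,(-1),⟨0,[(19,0)]⟩,
  ⟨0,[(15,0),(42,0)]⟩⟩,⟨false,0,⟨0,[(56,0)]⟩,⟨0,[(55,0),(2,0)]⟩⟩,⟨false,(-1),⟨12,[(3,3),(7,0),(5,2),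
  (1,9),(4,2),(6,1),(18,0)]⟩,⟨1,[(8,0),(6,0),(42,1)]⟩⟩,[.o ⟨false,0,⟨4,[(9,0),(1,1),(21,1),(1,0),(9,
  0),(4,0),(2,0)]⟩,⟨3,[(15,1),(1,1),(32,0),(7,2)]⟩⟩,.e ⟨false,1,⟨13,[(3,3),(16,1),(1,1),(27,0),(7,
  4)]⟩,⟨33,[(5,1),(21,1),(7,2),(0,2),(8,3),(7,11),(1,3)]⟩⟩ ⟨false,0,⟨13,[(3,3),(15,13),(0,1),(1,1),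
  (27,0),(7,4)]⟩,⟨0,[(15,0)]⟩⟩,.a ⟨true,1,⟨0,[(39,0)]⟩,⟨0,[(1,0)]⟩⟩ ⟨false,1,⟨31,[(5,3),(14,5),(14,
  0),(0,0),(3,5),(4,7),(9,3),(2,15)]⟩,⟨0,[]⟩⟩ ⟨true,(-1),⟨0,[(19,0)]⟩,⟨0,[(15,0)]⟩⟩,.o ⟨false,1,⟨3,
  [(8,0),(2,1),(3,0),(0,1),(18,1)]⟩,⟨3,[(1,2),(1,0),(18,0),(27,1)]⟩⟩]⟩) (.R ⟨0,false,false,false,[1,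
  0,0,0,-1],[1,0,-1],[1,0,1],(⟨0,[(41,0)]⟩,⟨0,[(42,0)]⟩),(⟨0,[(48,0)]⟩,⟨0,[(49,0)]⟩),⟨0,[(0,0)]⟩,.k,
  .k,(.r (-1) ⟨27,[(3,3),(16,1),(1,1),(10,13),(16,0),(7,18)]⟩ ⟨18,[(5,4),(21,4),(4,8),(2,2),(0,2),
  (8,0),(7,1)]⟩),.k,.k,.k,⟨false,1,⟨10,[(4,1),(0,4),(14,0),(19,0),(4,0),(9,2),(2,1)]⟩,⟨140,[(3,35),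
  (5,51),(0,6),(9,10),(1,10),(8,14),(0,21),(17,8)]⟩⟩,⟨true,0,⟨1,[(1,0),(19,0),(18,0)]⟩,⟨0,[(8,0),
  (15,0)]⟩⟩,⟨false,0,⟨2,[(23,0),(12,0),(10,0)]⟩,⟨13,[(3,3),(16,1),(1,1),(27,0),(7,4)]⟩⟩,⟨true,(-1),
  ⟨12,[(3,3),(7,0),(5,2),(1,9),(4,2),(6,1),(18,0)]⟩,⟨0,[(13,0)]⟩⟩,⟨false,0,⟨0,[]⟩,⟨0,[]⟩⟩,⟨false,0,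
  ⟨0,[]⟩,⟨0,[]⟩⟩,[.e ⟨false,0,⟨0,[]⟩,⟨20,[(3,2),(0,4),(0,0),(14,5),(11,3),(7,5),(4,2)]⟩⟩ ⟨false,0,
  ⟨0,[(11,0),(10,0)]⟩,⟨0,[(13,0)]⟩⟩,.o ⟨false,1,⟨43,[(3,3),(5,5),(1,13),(20,5),(12,11),(4,14),(7,
  30)]⟩,⟨0,[(44,0)]⟩⟩,.a ⟨true,1,⟨0,[(39,0)]⟩,⟨0,[(1,0)]⟩⟩ ⟨true,0,⟨2,[(23,0),(12,0),(10,0)]⟩,⟨36,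
  [(3,1),(0,9),(4,4),(0,0),(23,14),(15,7),(2,5)]⟩⟩ ⟨false,0,⟨10,[(1,2),(7,0),(1,6),(7,0),(2,3),(8,
  0),(8,2),(17,5)]⟩,⟨0,[(13,0)]⟩⟩,.o ⟨false,1,⟨3,[(8,0),(2,1),(3,0),(0,1),(18,1)]⟩,⟨3,[(1,2),(1,0),
  (18,0),(27,1)]⟩⟩]⟩)))) (.S ⟨1,0,[0,0,-1,-1,0,0,0,1],[0,-1,1],[0,1,-1,-1,0,0,0,1],(⟨0,[(35,0)]⟩,⟨1,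
  [(25,0),(19,2)]⟩),⟨1,[(4,3),(13,2),(1,1),(13,6),(0,0),(11,0)]⟩,.k,(.r (-2) ⟨0,[(1,0),(50,0),(2,
  0)]⟩ ⟨0,[(28,0)]⟩),⟨true,0,⟨33,[(2,1),(21,1),(7,2),(0,2),(8,3),(7,11),(1,3)]⟩,⟨0,[]⟩⟩,⟨false,1,
  ⟨31,[(2,3),(14,5),(14,0),(0,0),(3,5),(4,7),(9,3),(2,15)]⟩,⟨0,[]⟩⟩,⟨false,0,⟨0,[(53,0)]⟩,⟨0,[(52,
  0),(2,0)]⟩⟩,⟨true,0,⟨0,[(53,0)]⟩,⟨0,[(52,0)]⟩⟩,[.e ⟨false,1,⟨0,[(1,0)]⟩,⟨63,[(6,7),(10,5),(10,35),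
  (3,2),(0,2),(3,5),(4,11),(12,31)]⟩⟩ ⟨false,2,⟨21,[(1,20),(0,2),(14,4),(19,4),(4,4),(9,3),(2,9)]⟩,
  ⟨0,[(21,0)]⟩⟩,.o ⟨false,1,⟨0,[(22,0),(32,0)]⟩,⟨3,[(6,0),(1,0),(9,0),(9,0),(18,0),(2,1),(2,2)]⟩⟩,
  .a ⟨true,(-1),⟨6,[(0,3),(3,0),(0,0),(0,0),(2,0),(21,2),(12,0),(0,1),(2,0),(6,1)]⟩,⟨0,[(18,0),(21,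
  0)]⟩⟩ ⟨true,1,⟨21,[(1,12),(0,4),(14,0),(19,0),(4,0),(9,13),(2,1)]⟩,⟨0,[(21,0)]⟩⟩ ⟨false,2,⟨21,[(1,
  12),(0,4),(14,0),(19,0),(4,0),(9,13),(2,23)]⟩,⟨0,[(21,0)]⟩⟩,.o ⟨false,(-1),⟨0,[(0,0)]⟩,⟨13,[(1,1),
  (15,1),(0,7),(10,1),(7,1),(9,2),(6,10)]⟩⟩]⟩)))))))) (.Q [0,-2,0,0,2,0,0,0,-1,-1,0,1] (.p true [0,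
  0,0,0,1] [1] (⟨0,[(32,0)]⟩,⟨0,[(31,0)]⟩) .k 1 (⟨0,[]⟩,⟨0,[]⟩) .k .k) (.R ⟨0,false,false,false,[1,
  -1,-1],[1,0,0,0,-1],[0,1],(⟨0,[(28,0)]⟩,⟨0,[(19,0),(22,0)]⟩),(⟨0,[(32,0)]⟩,⟨0,[(33,0)]⟩),⟨0,[(19,
  0)]⟩,.k,.k,(.r (-1) ⟨3,[(7,0),(2,3),(0,2),(12,1),(23,0)]⟩ ⟨0,[(20,0),(26,0)]⟩),(.r 0 ⟨0,[(7,0),(2,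
  0)]⟩ ⟨3,[(6,0),(5,0),(0,0),(6,2),(28,1)]⟩),.k,.k,⟨false,0,⟨0,[(44,0)]⟩,⟨0,[(49,0)]⟩⟩,⟨true,1,⟨0,
  [(7,0)]⟩,⟨3,[(1,2),(1,0),(1,1),(4,0),(4,1),(33,1)]⟩⟩,⟨true,0,⟨2,[(1,0),(4,0),(1,0),(11,0),(23,
  0)]⟩,⟨1,[(15,1),(8,1),(23,0),(0,0)]⟩⟩,⟨false,2,⟨0,[(6,0),(42,0)]⟩,⟨0,[(10,0)]⟩⟩,⟨false,0,⟨0,[]⟩,
  ⟨0,[]⟩⟩,⟨false,0,⟨0,[]⟩,⟨0,[]⟩⟩,[.e ⟨false,0,⟨3,[(25,1),(15,0),(3,1),(2,0)]⟩,⟨1,[(11,0),(19,0),(6,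
  0)]⟩⟩ ⟨false,2,⟨1,[(7,0),(3,0),(36,0)]⟩,⟨1,[(1,0),(6,0),(1,0)]⟩⟩,.o ⟨false,2,⟨0,[(0,0)]⟩,⟨2,[(5,
  0),(3,0),(0,0),(7,0),(22,0),(2,0)]⟩⟩,.a ⟨true,0,⟨0,[(38,0)]⟩,⟨0,[(34,0)]⟩⟩ ⟨true,0,⟨15,[(20,1),(5,
  0),(0,0),(8,1),(7,5),(1,1)]⟩,⟨0,[]⟩⟩ ⟨false,2,⟨0,[(11,0)]⟩,⟨1,[(1,0),(6,0),(1,0)]⟩⟩,.o ⟨false,0,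
  ⟨0,[(14,0)]⟩,⟨3,[(7,1),(5,1),(27,0),(6,0)]⟩⟩]⟩) (.Q [0,0,0,0,0,-1,0,0,0,1,0,-1] (.ed true [0,1,0,
  0,1] .k) (.S ⟨1,0,[0,-1],[1,0,0,0,-1],[],(⟨0,[(33,0)]⟩,⟨0,[(34,0)]⟩),⟨0,[(0,0)]⟩,.k,(.r (-1) ⟨3,
  [(25,1),(23,0),(0,2)]⟩ ⟨17,[(21,9),(2,7),(2,0),(0,0),(8,1),(7,3)]⟩),⟨true,0,⟨15,[(21,1),(5,0),(0,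
  0),(8,1),(7,5),(1,1)]⟩,⟨0,[]⟩⟩,⟨false,1,⟨1,[(12,0),(19,0),(6,0)]⟩,⟨0,[]⟩⟩,⟨false,0,⟨0,[(48,0)]⟩,
  ⟨0,[(47,0),(2,0)]⟩⟩,⟨true,0,⟨0,[(48,0)]⟩,⟨0,[(47,0)]⟩⟩,[.o ⟨false,2,⟨3,[(12,1),(0,0),(13,0),(3,1),
  (10,0)]⟩,⟨1,[(1,1),(40,0),(7,0)]⟩⟩,.a ⟨true,2,⟨0,[(12,0),(26,0)]⟩,⟨0,[(1,0)]⟩⟩ ⟨false,1,⟨1,[(49,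
  0),(0,0)]⟩,⟨15,[(21,1),(5,0),(0,0),(8,1),(7,5),(1,1)]⟩⟩ ⟨true,1,⟨0,[(50,0)]⟩,⟨0,[(19,0),(2,0)]⟩⟩,
  .e ⟨false,1,⟨1,[(12,0),(19,0),(6,0)]⟩,⟨0,[]⟩⟩ ⟨false,1,⟨0,[(50,0)]⟩,⟨15,[(21,1),(5,0),(0,0),(8,1),
  (7,5),(1,1)]⟩⟩,.o ⟨false,1,⟨1,[(2,0),(5,1),(18,0)]⟩,⟨1,[(1,1),(40,0),(6,0),(0,1)]⟩⟩]⟩) (.R ⟨0,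
  false,false,true,[1,0,0,0,-1],[1,-1,-1],[],(⟨0,[(33,0)]⟩,⟨0,[(34,0)]⟩),(⟨0,[(29,0)]⟩,⟨0,[(20,0),
  (22,0)]⟩),⟨0,[(0,0)]⟩,.k,.k,(.r (-1) ⟨3,[(25,1),(23,0),(0,2)]⟩ ⟨17,[(21,9),(2,7),(2,0),(0,0),(8,
  1),(7,3)]⟩),(.r (-1) ⟨3,[(7,0),(5,0),(0,0),(6,2),(28,1)]⟩ ⟨0,[(8,0),(2,0)]⟩),.k,.k,⟨true,1,⟨3,[(7,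
  0),(5,0),(0,0),(6,2),(28,1)]⟩,⟨0,[(16,0),(8,0)]⟩⟩,⟨false,0,⟨1,[(1,0),(11,0),(18,0),(17,0)]⟩,⟨0,
  [(8,0)]⟩⟩,⟨true,0,⟨15,[(21,1),(5,0),(0,0),(8,1),(7,5),(1,1)]⟩,⟨0,[]⟩⟩,⟨false,(-1),⟨0,[(11,0)]⟩,⟨0,
  [(7,0),(42,0)]⟩⟩,⟨false,0,⟨0,[]⟩,⟨0,[]⟩⟩,⟨false,0,⟨0,[]⟩,⟨0,[]⟩⟩,[.o ⟨false,0,⟨0,[(3,0),(18,0)]⟩,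
  ⟨3,[(7,1),(1,1),(32,0),(7,2)]⟩⟩,.e ⟨false,1,⟨1,[(49,0),(0,0)]⟩,⟨15,[(21,1),(5,0),(0,0),(8,1),(7,
  5),(1,1)]⟩⟩ ⟨false,0,⟨1,[(11,1),(37,0),(0,0)]⟩,⟨0,[(7,0)]⟩⟩,.a ⟨true,1,⟨0,[(31,0)]⟩,⟨0,[(1,0),(48,
  0)]⟩⟩ ⟨false,1,⟨1,[(12,0),(19,0),(6,0)]⟩,⟨0,[]⟩⟩ ⟨true,(-1),⟨0,[(11,0)]⟩,⟨0,[(7,0)]⟩⟩,.o ⟨false,1,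
  ⟨1,[(2,0),(5,1),(18,0)]⟩,⟨1,[(1,1),(40,0),(6,0),(0,1)]⟩⟩]⟩)))) (.S ⟨1,0,[0,1,0,0,0,0,0,1],[0,0,1],
  [1,0,1],(⟨0,[(38,0)]⟩,⟨0,[(37,0)]⟩),⟨0,[(27,0)]⟩,.k,.k,⟨false,0,⟨3,[(8,0),(0,0),(2,0),(0,2),(8,0),
  (2,0),(10,0),(10,1)]⟩,⟨0,[(0,0),(9,0)]⟩⟩,⟨true,0,⟨15,[(18,1),(5,0),(0,0),(8,1),(7,5),(1,1)]⟩,⟨0,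
  []⟩⟩,⟨true,(-1),⟨0,[(13,0)]⟩,⟨1,[(1,0),(0,0),(7,0),(33,0),(1,0)]⟩⟩,⟨false,0,⟨0,[(45,0)]⟩,⟨0,[(44,
  0),(2,0)]⟩⟩,[.o ⟨false,0,⟨0,[(33,0)]⟩,⟨3,[(8,1),(0,1),(0,1),(2,1),(25,0),(7,0)]⟩⟩,.e ⟨false,1,⟨1,
  [(9,0),(19,0),(6,0)]⟩,⟨3,[(23,1),(15,0),(3,1),(2,0)]⟩⟩ ⟨false,1,⟨0,[(0,0),(9,0)]⟩,⟨17,[(8,5),(0,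
  5),(3,6),(5,0),(5,1),(8,4),(4,0)]⟩⟩,.o ⟨false,0,⟨0,[(15,0)]⟩,⟨31,[(2,3),(6,1),(0,16),(13,0),(4,5),
  (4,3),(4,6)]⟩⟩,.a ⟨true,(-1),⟨0,[(0,0),(12,0),(2,0),(5,0),(24,0)]⟩,⟨0,[(10,0),(21,0)]⟩⟩ ⟨true,0,
  ⟨0,[]⟩,⟨15,[(18,1),(5,0),(0,0),(8,1),(7,5),(1,1)]⟩⟩ ⟨false,1,⟨0,[(0,0),(9,0)]⟩,⟨3,[(8,0),(0,0),(2,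
  0),(0,2),(8,0),(2,0),(10,0),(10,1)]⟩⟩]⟩))) (.R ⟨1,true,false,true,[1,0,-1],[1,0,0,0,-1],[1,1,0,-1,
  0,0,0,-1],(⟨0,[(35,0)]⟩,⟨0,[(36,0)]⟩),(⟨0,[(28,0)]⟩,⟨0,[(29,0)]⟩),⟨0,[(24,0)]⟩,.k,.k,.k,.k,(.r 0
  ⟨5,[(0,1),(2,0),(3,0),(3,0),(5,2),(2,1),(11,2)]⟩ ⟨3,[(2,0),(5,0),(0,0),(6,2),(28,1)]⟩),.k,⟨true,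
  (-1),⟨0,[(11,0),(8,0)]⟩,⟨3,[(2,0),(5,0),(0,0),(6,2),(28,1)]⟩⟩,⟨false,1,⟨0,[(3,0)]⟩,⟨6,[(0,1),(0,
  1),(6,2),(0,0),(17,1),(6,1),(10,0)]⟩⟩,⟨true,0,⟨0,[(42,0)]⟩,⟨0,[(43,0)]⟩⟩,⟨false,2,⟨4,[(1,0),(5,3),
  (0,0),(3,1),(3,1),(9,1)]⟩,⟨0,[(0,0)]⟩⟩,⟨false,0,⟨0,[]⟩,⟨1,[(7,0),(19,0),(6,0)]⟩⟩,⟨true,1,⟨0,[(2,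
  0)]⟩,⟨0,[(6,0)]⟩⟩,[]⟩)))) (.R ⟨0,false,false,false,[1,-1,-1],[1,0,0,0,-1],[1,1,1],(⟨0,[(21,0)]⟩,
  ⟨0,[(12,0),(22,0)]⟩),(⟨0,[(25,0)]⟩,⟨0,[(26,0)]⟩),⟨0,[(12,0)]⟩,.k,.k,(.r (-1) ⟨9,[(3,7),(0,7),(3,
  0),(5,0),(2,5),(11,0),(11,2)]⟩ ⟨0,[(13,0),(26,0)]⟩),(.r 0 ⟨4,[(3,0),(0,0),(3,1),(5,1),(2,1),(11,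
  1),(11,0)]⟩ ⟨2,[(1,0),(2,0),(0,0),(7,1),(28,0)]⟩),.k,.k,⟨true,(-1),⟨0,[(11,0),(2,0)]⟩,⟨0,[(42,
  0)]⟩⟩,⟨false,2,⟨0,[(4,0),(32,0)]⟩,⟨0,[(0,0)]⟩⟩,⟨false,0,⟨0,[(13,0)]⟩,⟨0,[(8,0),(8,0),(23,0),(0,
  0)]⟩⟩,⟨true,2,⟨2,[(4,1),(8,1),(9,0),(4,0),(11,0),(0,0)]⟩,⟨0,[(0,0),(7,0),(29,1)]⟩⟩,⟨false,0,⟨0,
  []⟩,⟨0,[]⟩⟩,⟨false,0,⟨0,[]⟩,⟨0,[]⟩⟩,[.o ⟨false,2,⟨3,[(4,1),(0,0),(13,0),(3,1),(10,0)]⟩,⟨2,[(0,1),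
  (1,0),(11,0),(3,0),(15,0)]⟩⟩,.a ⟨true,2,⟨0,[(4,0),(26,0)]⟩,⟨0,[(0,0),(13,0),(3,0)]⟩⟩ ⟨false,0,⟨0,
  []⟩,⟨3,[(4,0),(0,0),(0,0),(16,0),(0,0),(12,0)]⟩⟩ ⟨true,2,⟨0,[(4,0)]⟩,⟨0,[(0,0),(10,0),(2,0)]⟩⟩,.e
  ⟨false,0,⟨2,[(7,0),(12,0),(10,0)]⟩,⟨1,[(41,0),(0,0)]⟩⟩ ⟨false,2,⟨0,[(4,0)]⟩,⟨2,[(0,1),(2,0),(9,0),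
  (23,0)]⟩⟩,.o ⟨false,0,⟨0,[(7,0)]⟩,⟨9,[(2,3),(1,3),(9,1),(3,1),(15,2),(6,4)]⟩⟩]⟩)) (.R ⟨0,false,
  false,true,[1,-1,-1],[0,0,0,0,1],[],(⟨0,[(20,0)]⟩,⟨0,[(11,0),(22,0)]⟩),(⟨0,[(25,0)]⟩,⟨0,[(24,
  0)]⟩),⟨0,[(11,0)]⟩,.k,.k,(.r (-1) ⟨5,[(0,0),(1,3),(0,3),(1,0),(7,0),(2,2),(11,0),(11,0)]⟩ ⟨0,[(12,
  0),(26,0)]⟩),(.r (-1) ⟨0,[(2,0),(0,0)]⟩ ⟨4,[(4,0),(7,2),(4,0),(9,1),(8,0),(2,0)]⟩),.k,.k,⟨true,1,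
  ⟨0,[(41,0)]⟩,⟨0,[(10,0),(2,0)]⟩⟩,⟨false,0,⟨0,[(5,0)]⟩,⟨7,[(0,5),(3,1),(5,0),(1,2),(4,1),(4,1),(4,
  2),(5,0)]⟩⟩,⟨false,1,⟨1,[(12,1),(27,0),(0,0)]⟩,⟨0,[(0,0),(0,0)]⟩⟩,⟨true,(-1),⟨4,[(1,4),(2,0),(7,
  2),(4,0),(9,1),(8,0),(2,0)]⟩,⟨0,[(0,0)]⟩⟩,⟨false,0,⟨0,[]⟩,⟨0,[]⟩⟩,⟨false,0,⟨0,[]⟩,⟨0,[]⟩⟩,[.o
  ⟨false,(-1),⟨12,[(1,9),(0,2),(1,1),(3,2),(1,5),(22,3),(2,1)]⟩,⟨0,[(0,0),(26,0),(11,0),(1,0)]⟩⟩,.a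
  ⟨true,(-1),⟨0,[(1,0),(28,0)]⟩,⟨0,[(0,0),(16,0),(9,0),(13,0)]⟩⟩ ⟨false,1,⟨1,[(40,0),(0,0)]⟩,⟨15,
  [(12,1),(5,0),(0,0),(8,1),(7,5),(1,1)]⟩⟩ ⟨true,(-1),⟨0,[(1,0)]⟩,⟨0,[(0,0),(11,0)]⟩⟩,.e ⟨false,1,
  ⟨1,[(3,0),(19,0),(6,0)]⟩,⟨0,[]⟩⟩ ⟨false,(-1),⟨0,[(1,0)]⟩,⟨2,[(0,1),(2,0),(0,0),(7,1),(28,0)]⟩⟩,.o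
  ⟨false,0,⟨0,[(6,0)]⟩,⟨9,[(1,3),(1,3),(9,1),(3,1),(15,2),(6,4)]⟩⟩]⟩))))))) (.R ⟨0,false,false,true,
  [1,-1,-1],[1,-1],[0,1,1],(⟨0,[(14,0)]⟩,⟨0,[(5,0),(22,0)]⟩),(⟨0,[(28,0)]⟩,⟨0,[(29,0)]⟩),⟨0,[(5,
  0)]⟩,.k,.k,(.r (-1) ⟨3,[(0,1),(0,0),(5,0),(2,3),(11,2),(4,0),(7,3)]⟩ ⟨0,[(6,0),(26,0)]⟩),.k,.k,.k,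
  ⟨false,0,⟨7,[(6,2),(1,0),(0,1),(23,0),(1,0)]⟩,⟨3,[(10,1),(23,2),(0,0)]⟩⟩,⟨true,0,⟨0,[(3,0)]⟩,⟨0,
  [(24,0)]⟩⟩,⟨false,0,⟨0,[(6,0)]⟩,⟨0,[(1,0),(8,0),(23,0),(0,0)]⟩⟩,⟨true,0,⟨0,[(21,0)]⟩,⟨3,[(1,3),(8,
  1),(13,3),(9,2),(0,0)]⟩⟩,⟨false,0,⟨0,[]⟩,⟨0,[]⟩⟩,⟨false,0,⟨0,[]⟩,⟨0,[]⟩⟩,[.a ⟨true,0,⟨0,[(32,0)]⟩,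
  ⟨0,[(11,0),(23,0)]⟩⟩ ⟨false,0,⟨15,[(6,1),(5,0),(0,0),(8,1),(7,5),(1,1)]⟩,⟨1,[(34,0),(0,0)]⟩⟩
  ⟨true,0,⟨0,[(7,0)]⟩,⟨0,[(4,0),(30,0)]⟩⟩,.o ⟨false,1,⟨1,[(27,0),(4,1),(2,0)]⟩,⟨0,[(33,0)]⟩⟩,.a
  ⟨true,0,⟨0,[(24,0)]⟩,⟨0,[(20,0)]⟩⟩ ⟨false,0,⟨3,[(12,0),(0,0),(10,1)]⟩,⟨1,[(34,0),(0,0)]⟩⟩ ⟨true,0,
  ⟨0,[(7,0)]⟩,⟨0,[(24,0),(8,0)]⟩⟩,.a ⟨true,0,⟨3,[(12,0),(0,0),(10,5)]⟩,⟨0,[(0,0)]⟩⟩ ⟨true,0,⟨15,[(6,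
  1),(5,0),(0,0),(8,1),(7,5),(1,1)]⟩,⟨0,[]⟩⟩ ⟨false,1,⟨1,[(7,1),(26,0),(0,0)]⟩,⟨0,[(4,0),(30,
  0)]⟩⟩]⟩))

theorem ok12 : chk K t12 r14 = true := by decide +kernel


end Helper25.S1T.Ypm_1c
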