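import Pool.Agent.Helper25.KG.S1b
import Pool.Agent.Helper11.CT.Cut

set_option autoImplicit false
set_option linter.all false

namespace Helper25.S1T.Ypm_1c

open Helper25.KG Helper25.KW Helper55.KE Helper11.CT

noncomputable def K : Cls :=
  cE (-1) [0,1] (kfY (-1) [0,0,0,0,0,0,1,0,0,0,-1])

noncomputable def base : List Con :=
  [(false,[0,0,0,0,0,0,2,0,0,1,-2]),
  (false,[0,0,0,0,0,-1,0,0,0,1,-1]),
  (false,[0,0,0,0,0,-1,0,0,0,0,1]),
  (false,[0,0,0,0,1,0,0,0,-1,0,0,1]),
  (false,[0,0,0,0,0,0,0,0,1,0,0,-1]),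
  (false,[0,0,0,0,0,0,0,0,0,1,0,-1]),
  (false,[0,0,0,0,0,0,0,0,0,0,0,1]),
  (false,[0,0,-1,0,0,0,1,0,0,1,-1]),
  (false,[0,1,0,0,0,0,1,1,0,0,-1]),
  (false,[0,1,0,0,0,0,-1,-1,0,0,1]),
  (false,[0,0,1,0,0,0,1,0,0,0,-1]),
  (false,[0,0,1,0,0,0,-1,0,0,0,1]),
  (false,[0,0,0,0,0,0,0,0,0,1,-1]),
  (false,[0,0,0,0,0,0,0,0,0,0,1]),
  (false,[0,0,0,0,1,0,0,0,0,-2]),
  (false,[0,0,0,0,0,-1,0,0,0,1]),
  (true,[0,0,0,0,0,1]),
  (true,[0,2,-1]),
  (true,[0,1,-1,-1]),
  (true,[0,1,0,-1]),
  (true,[0,0,0,1]),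
  (true,[0,0,-2,0,1]),
  (true,[0,-2,0,0,1]),
  (true,[-1,0,1]),
  (true,[-1,1])]

noncomputable def l0 : List Con := (false, [0,0,2,0,0,0,0,0,0,-1]) :: base

noncomputable def r0 : List Con := (false, [0,0,-2,0,0,0,0,0,0,1]) :: base

noncomputable def l1 : List Con := (false, [0,-1,0,-1,1,0,0,0,0,-1]) :: l0

noncomputable def r1 : List Con := (false, [0,1,0,1,-1,0,0,0,0,1]) :: l0

noncomputable def l2 : List Con := (true, [0,-1,1,2]) :: r1

noncomputable def r2 : List Con := (true, [1,1,-1,-2]) :: r1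

noncomputable def l3 : List Con := (true, [1,-1,0,-1,0,0,0,1]) :: r2

noncomputable def r3 : List Con := (true, [0,1,0,1,0,0,0,-1]) :: r2

noncomputable def l4 : List Con := (true, [0,0,2,2,-1,0,0,-1]) :: r3

noncomputable def r4 : List Con := (true, [1,0,-2,-2,1,0,0,1]) :: r3

noncomputable def l5 : List Con := (false, [0,1,-1,-1,0,0,1,0,0,0,-1]) :: l4

noncomputable def r5 : List Con := (false, [0,-1,1,1,0,0,-1,0,0,0,1]) :: l4

noncomputable def l6 : List Con := (true, [1,0,-2,-1,0,0,0,-1]) :: l5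

noncomputable def r6 : List Con := (true, [0,0,2,1,0,0,0,1]) :: l5

noncomputable def l7 : List Con := (false, [0,-1,0,1,0,0,-1,-1,0,0,1]) :: l6

noncomputable def r7 : List Con := (false, [0,1,0,-1,0,0,1,1,0,0,-1]) :: l6

noncomputable def l8 : List Con := (false, [0,0,1,0,-1,0,2,0,0,1,-2]) :: r7

noncomputable def r8 : List Con := (false, [0,0,-1,0,1,0,-2,0,0,-1,2]) :: r7

noncomputable def l9 : List Con := (false, [0,0,-2,0,1,0,-1,0,0,0,1]) :: l8

noncomputable def r9 : List Con := (false, [0,0,2,0,-1,0,1,0,0,0,-1]) :: l8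

noncomputable def l10 : List Con := (false, [0,0,0,0,0,2,0,0,0,-1,1]) :: r6

noncomputable def r10 : List Con := (false, [0,0,0,0,0,-2,0,0,0,1,-1]) :: r6

noncomputable def l11 : List Con := (false, [0,-1,-2,-1,1,0,1,0,0,0,-1]) :: l10

noncomputable def r11 : List Con := (false, [0,1,2,1,-1,0,-1,0,0,0,1]) :: l10

noncomputable def l12 : List Con := (false, [0,0,0,0,0,0,1,0,0,0,-1]) :: r11

noncomputable def r12 : List Con := (false, [0,0,0,0,0,0,-1,0,0,0,1]) :: r11

noncomputable def l13 : List Con := (false, [0,1,0,-1,0,0,1,1,0,0,-1]) :: l12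

noncomputable def r13 : List Con := (false, [0,-1,0,1,0,0,-1,-1,0,0,1]) :: l12

noncomputable def l14 : List Con := (true, [1,0,-1,-1,1,0,0,1]) :: l13

noncomputable def r14 : List Con := (true, [0,0,1,1,-1,0,0,-1]) :: l13

noncomputable def l15 : List Con := (false, [0,-1,0,0,1,0,0,0,-1,-1,0,1]) :: r10

noncomputable def r15 : List Con := (false, [0,1,0,0,-1,0,0,0,1,1,0,-1]) :: r10

noncomputable def l16 : List Con := (false, [0,0,-1,0,1,0,0,0,-1,0,0,1]) :: r15

noncomputable def r16 : List Con := (false, [0,0,1,0,-1,0,0,0,1,0,0,-1]) :: r15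

noncomputable def l17 : List Con := (false, [0,0,-2,0,0,0,1,0,0,1,-1]) :: l16

noncomputable def r17 : List Con := (false, [0,0,2,0,0,0,-1,0,0,-1,1]) :: l16

noncomputable def l18 : List Con := (true, [0,0,-1,-1,0,0,0,-1]) :: l17

noncomputable def r18 : List Con := (true, [1,0,1,1,0,0,0,1]) :: l17

noncomputable def l19 : List Con := (true, [0,0,-1,0,0,0,0,-1]) :: r18

noncomputable def r19 : List Con := (true, [1,0,1,0,0,0,0,1]) :: r18

noncomputable def l20 : List Con := (true, [1,1,2,1,-1,0,0,1]) :: r19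

noncomputable def r20 : List Con := (true, [0,-1,-2,-1,1,0,0,-1]) :: r19

noncomputable def l21 : List Con := (false, [0,0,1,0,-1,0,1,0,0,1,-1]) :: r20

noncomputable def r21 : List Con := (false, [0,0,-1,0,1,0,-1,0,0,-1,1]) :: r20

noncomputable def l22 : List Con := (false, [0,2,0,0,-1,0,0,0,1,0,0,-1]) :: l21

noncomputable def r22 : List Con := (false, [0,-2,0,0,1,0,0,0,-1,0,0,1]) :: l21

noncomputable def l23 : List Con := (false, [0,0,0,0,1,0,0,0,-1,-1,0,1]) :: l22

noncomputable def r23 : List Con := (false, [0,0,0,0,-1,0,0,0,1,1,0,-1]) :: l22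

noncomputable def l24 : List Con := (false, [0,1,0,0,-1,0,0,0,1,0,0,-1]) :: r23

noncomputable def r24 : List Con := (false, [0,-1,0,0,1,0,0,0,-1,0,0,1]) :: r23

noncomputable def l25 : List Con := (false, [0,2,0,0,-2,0,0,0,1,1,0,-1]) :: l24

noncomputable def r25 : List Con := (false, [0,-2,0,0,2,0,0,0,-1,-1,0,1]) :: l24

noncomputable def l26 : List Con := (false, [0,0,0,0,0,-1,0,0,0,1,0,-1]) :: l25

noncomputable def r26 : List Con := (false, [0,0,0,0,0,1,0,0,0,-1,0,1]) :: l25

noncomputable def l27 : List Con := (false, [0,0,0,1,1,0,-1,-1,-1,-1,1,1]) :: r26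

noncomputable def r27 : List Con := (false, [0,0,0,-1,-1,0,1,1,1,1,-1,-1]) :: r26

noncomputable def l28 : List Con := (false, [0,-2,0,1,2,0,-1,-1,-1,-1,1,1]) :: r27

noncomputable def r28 : List Con := (false, [0,2,0,-1,-2,0,1,1,1,1,-1,-1]) :: r27

noncomputable def l29 : List Con := (false, [0,1,0,1,-1,0,1,1,0,1,-1]) :: r28

noncomputable def r29 : List Con := (false, [0,-1,0,-1,1,0,-1,-1,0,-1,1]) :: r28

noncomputable def l30 : List Con := (false, [0,0,-1,0,-1,0,1,0,1,1,-1,-1]) :: l29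

noncomputable def r30 : List Con := (false, [0,0,1,0,1,0,-1,0,-1,-1,1,1]) :: l29

noncomputable def l31 : List Con := (false, [0,-1,0,0,1,0,-1,-1,0,-1,1]) :: r30

noncomputable def r31 : List Con := (false, [0,1,0,0,-1,0,1,1,0,1,-1]) :: r30

noncomputable def l32 : List Con := (true, [0,-1,2,2,0,0,0,1]) :: r31

noncomputable def r32 : List Con := (true, [1,1,-2,-2,0,0,0,-1]) :: r31

noncomputable def l33 : List Con := (false, [0,-1,0,1,1,0,1,1,-1,0,-1,1]) :: r32

noncomputable def r33 : List Con := (false, [0,1,0,-1,-1,0,-1,-1,1,0,1,-1]) :: r32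

noncomputable def l34 : List Con := (false, [0,-1,0,1,1,0,-1,-1,0,-1,1]) :: r33

noncomputable def r34 : List Con := (false, [0,1,0,-1,-1,0,1,1,0,1,-1]) :: r33

noncomputable def l35 : List Con := (true, [0,0,4,0,0,-4,0,0,-1]) :: r34

noncomputable def r35 : List Con := (true, [1,0,-4,0,0,4,0,0,1]) :: r34

noncomputable def l36 : List Con := (false, [0,0,0,0,0,0,-1,0,0,0,1]) :: r4

noncomputable def r36 : List Con := (false, [0,0,0,0,0,0,1,0,0,0,-1]) :: r4

noncomputable def l37 : List Con := (false, [0,1,0,-1,0,0,-1,-1,0,-1,1]) :: r36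

noncomputable def r37 : List Con := (false, [0,-1,0,1,0,0,1,1,0,1,-1]) :: r36

noncomputable def l38 : List Con := (true, [1,0,1,0,0,0,0,1]) :: l37

noncomputable def r38 : List Con := (true, [0,0,-1,0,0,0,0,-1]) :: l37

noncomputable def l39 : List Con := (false, [0,-1,0,0,1,0,0,0,-1,-1,0,1]) :: l38

noncomputable def r39 : List Con := (false, [0,1,0,0,-1,0,0,0,1,1,0,-1]) :: l38

noncomputable def l40 : List Con := (false, [0,0,0,-1,0,0,-1,-1,0,0,1]) :: r39

noncomputable def r40 : List Con := (false, [0,0,0,1,0,0,1,1,0,0,-1]) :: r39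

noncomputable def l41 : List Con := (true, [1,-1,1,1,0,0,0,-2]) :: l40

noncomputable def r41 : List Con := (true, [0,1,-1,-1,0,0,0,2]) :: l40

noncomputable def l42 : List Con := (false, [0,0,-1,0,0,0,1,1,0,1,-1]) :: l41

noncomputable def r42 : List Con := (false, [0,0,1,0,0,0,-1,-1,0,-1,1]) :: l41

noncomputable def l43 : List Con := (false, [0,-1,0,-1,1,0,-1,-1,-1,-1,1,1]) :: l42

noncomputable def r43 : List Con := (false, [0,1,0,1,-1,0,1,1,1,1,-1,-1]) :: l42

noncomputable def l44 : List Con := (true, [0,-1,1,1,0,0,0,-1]) :: r43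

noncomputable def r44 : List Con := (true, [1,1,-1,-1,0,0,0,1]) :: r43

noncomputable def l45 : List Con := (false, [0,-1,0,1,0,0,1,1,0,0,-1]) :: r37

noncomputable def r45 : List Con := (false, [0,1,0,-1,0,0,-1,-1,0,0,1]) :: r37

noncomputable def l46 : List Con := (false, [0,-1,-1,-1,2,0,0,0,-1,-1,0,1]) :: r45

noncomputable def r46 : List Con := (false, [0,1,1,1,-2,0,0,0,1,1,0,-1]) :: r45

noncomputable def l47 : List Con := (false, [0,-1,0,0,1,0,0,0,-1,-1,0,1]) :: l46

noncomputable def r47 : List Con := (false, [0,1,0,0,-1,0,0,0,1,1,0,-1]) :: l46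

noncomputable def l48 : List Con := (false, [0,2,0,0,-1,0,0,0,1,0,0,-1]) :: r47

noncomputable def r48 : List Con := (false, [0,-2,0,0,1,0,0,0,-1,0,0,1]) :: r47

noncomputable def l49 : List Con := (false, [0,0,1,0,0,0,0,0,-1,0,0,1]) :: l48

noncomputable def r49 : List Con := (false, [0,0,-1,0,0,0,0,0,1,0,0,-1]) :: l48

noncomputable def l50 : List Con := (false, [0,-1,0,0,1,0,0,0,-1,0,0,1]) :: r49

noncomputable def r50 : List Con := (false, [0,1,0,0,-1,0,0,0,1,0,0,-1]) :: r49

noncomputable def l51 : List Con := (false, [0,-2,0,0,2,0,0,0,-1,-1,0,1]) :: r50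

noncomputable def r51 : List Con := (false, [0,2,0,0,-2,0,0,0,1,1,0,-1]) :: r50

noncomputable def l52 : List Con := (false, [0,0,0,0,0,-1,0,0,0,1,0,-1]) :: r51

noncomputable def r52 : List Con := (false, [0,0,0,0,0,1,0,0,0,-1,0,1]) :: r51

noncomputable def l53 : List Con := (false, [0,1,0,-1,-1,0,0,0,1,0,0,-1]) :: r52

noncomputable def r53 : List Con := (false, [0,-1,0,1,1,0,0,0,-1,0,0,1]) :: r52

noncomputable def l54 : List Con := (false, [0,-1,0,2,1,0,0,0,-1,0,0,1]) :: l53

noncomputable def r54 : List Con := (false, [0,1,0,-2,-1,0,0,0,1,0,0,-1]) :: l53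

noncomputable def l55 : List Con := (false, [0,0,0,1,0,0,1,1,0,0,-1]) :: r54

noncomputable def r55 : List Con := (false, [0,0,0,-1,0,0,-1,-1,0,0,1]) :: r54

noncomputable def l56 : List Con := (true, [0,-1,-2,-1,1]) :: r0

noncomputable def r56 : List Con := (true, [1,1,2,1,-1]) :: r0

noncomputable def l57 : List Con := (true, [1,-1,2,1]) :: l56

noncomputable def r57 : List Con := (true, [0,1,-2,-1]) :: l56

noncomputable def l58 : List Con := (true, [0,-1,2,2]) :: r57

noncomputable def r58 : List Con := (true, [1,1,-2,-2]) :: r57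

noncomputable def l59 : List Con := (false, [0,0,0,0,0,0,1,0,0,0,-1]) :: r58

noncomputable def r59 : List Con := (false, [0,0,0,0,0,0,-1,0,0,0,1]) :: r58

noncomputable def l60 : List Con := (false, [0,0,0,1,0,0,1,1,0,0,-1]) :: l59

noncomputable def r60 : List Con := (false, [0,0,0,-1,0,0,-1,-1,0,0,1]) :: l59

noncomputable def l61 : List Con := (false, [0,1,0,-1,0,0,-1,-1,0,0,1]) :: l60

noncomputable def r61 : List Con := (false, [0,-1,0,1,0,0,1,1,0,0,-1]) :: l60

noncomputable def l62 : List Con := (false, [0,0,0,0,0,0,-1,-1,0,0,1]) :: l61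

noncomputable def r62 : List Con := (false, [0,0,0,0,0,0,1,1,0,0,-1]) :: l61

noncomputable def l63 : List Con := (true, [0,-1,-1,-1,1,0,0,-1]) :: r62

noncomputable def r63 : List Con := (true, [1,1,1,1,-1,0,0,1]) :: r62

noncomputable def l64 : List Con := (false, [0,1,0,1,-1,0,1,1,0,1,-1]) :: l63

noncomputable def r64 : List Con := (false, [0,-1,0,-1,1,0,-1,-1,0,-1,1]) :: l63

noncomputable def l65 : List Con := (true, [1,1,-1,-1,0,0,0,-1]) :: l64

noncomputable def r65 : List Con := (true, [0,-1,1,1,0,0,0,1]) :: l64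

noncomputable def l66 : List Con := (true, [0,0,0,1,0,0,0,1]) :: l65

noncomputable def r66 : List Con := (true, [1,0,0,-1,0,0,0,-1]) :: l65

noncomputable def l67 : List Con := (false, [0,-1,0,0,1,0,-1,-1,0,-1,1]) :: r66

noncomputable def r67 : List Con := (false, [0,1,0,0,-1,0,1,1,0,1,-1]) :: r66

noncomputable def l68 : List Con := (false, [0,-2,0,0,1,0,0,0,-1,0,0,1]) :: r67

noncomputable def r68 : List Con := (false, [0,2,0,0,-1,0,0,0,1,0,0,-1]) :: r67

noncomputable def l69 : List Con := (true, [0,0,1,1,0,0,0,2]) :: r68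

noncomputable def r69 : List Con := (true, [1,0,-1,-1,0,0,0,-2]) :: r68

noncomputable def l70 : List Con := (true, [0,-1,-1,0,1,0,0,-1]) :: r63

noncomputable def r70 : List Con := (true, [1,1,1,0,-1,0,0,1]) :: r63

noncomputable def l71 : List Con := (false, [0,0,0,0,0,2,0,0,0,-1,1]) :: r70

noncomputable def r71 : List Con := (false, [0,0,0,0,0,-2,0,0,0,1,-1]) :: r70

noncomputable def l72 : List Con := (false, [0,0,0,2,-1,0,1,1,0,1,-1]) :: r71

noncomputable def r72 : List Con := (false, [0,0,0,-2,1,0,-1,-1,0,-1,1]) :: r71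

noncomputable def l73 : List Con := (false, [0,-1,0,0,1,0,0,0,-1,-1,0,1]) :: r72

noncomputable def r73 : List Con := (false, [0,1,0,0,-1,0,0,0,1,1,0,-1]) :: r72

noncomputable def l74 : List Con := (false, [0,0,0,0,0,-2,0,0,0,0,1]) :: r73

noncomputable def r74 : List Con := (false, [0,0,0,0,0,2,0,0,0,0,-1]) :: r73

noncomputable def l75 : List Con := (false, [0,0,0,1,-1,0,1,1,1,1,-1,-1]) :: l74

noncomputable def r75 : List Con := (false, [0,0,0,-1,1,0,-1,-1,-1,-1,1,1]) :: l74

noncomputable def l76 : List Con := (false, [0,0,0,0,0,0,1,1,0,1,-1]) :: r60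

noncomputable def r76 : List Con := (false, [0,0,0,0,0,0,-1,-1,0,-1,1]) :: r60

noncomputable def l77 : List Con := (true, [0,-1,0,0,1,0,0,1]) :: l76

noncomputable def r77 : List Con := (true, [1,1,0,0,-1,0,0,-1]) :: l76

noncomputable def l78 : List Con := (true, [0,0,-1,0,0,0,0,-1]) :: l77

noncomputable def r78 : List Con := (true, [1,0,1,0,0,0,0,1]) :: l77

noncomputable def l79 : List Con := (false, [0,0,0,0,0,2,0,0,0,-1,1]) :: r78

noncomputable def r79 : List Con := (false, [0,0,0,0,0,-2,0,0,0,1,-1]) :: r78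

noncomputable def l80 : List Con := (false, [0,-1,0,1,0,0,1,1,0,1,-1]) :: r79

noncomputable def r80 : List Con := (false, [0,1,0,-1,0,0,-1,-1,0,-1,1]) :: r79

noncomputable def l81 : List Con := (false, [0,0,0,0,0,-2,0,0,0,0,1]) :: r80

noncomputable def r81 : List Con := (false, [0,0,0,0,0,2,0,0,0,0,-1]) :: r80

noncomputable def l82 : List Con := (false, [0,-1,0,2,0,0,1,1,0,1,-1]) :: l81

noncomputable def r82 : List Con := (false, [0,1,0,-2,0,0,-1,-1,0,-1,1]) :: l81

noncomputable def l83 : List Con := (false, [0,-1,0,0,1,0,0,0,-1,-1,0,1]) :: r82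

noncomputable def r83 : List Con := (false, [0,1,0,0,-1,0,0,0,1,1,0,-1]) :: r82

noncomputable def l84 : List Con := (false, [0,0,1,0,-1,0,0,0,1,0,0,-1]) :: r83

noncomputable def r84 : List Con := (false, [0,0,-1,0,1,0,0,0,-1,0,0,1]) :: r83

noncomputable def l85 : List Con := (false, [0,0,-2,0,1,0,-1,0,0,-1,1]) :: r84

noncomputable def r85 : List Con := (false, [0,0,2,0,-1,0,1,0,0,1,-1]) :: r84

noncomputable def l86 : List Con := (true, [0,-1,0,1,1,0,0,1]) :: r77

noncomputable def r86 : List Con := (true, [1,1,0,-1,-1,0,0,-1]) :: r77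

noncomputable def l87 : List Con := (false, [0,-1,0,1,0,0,-1,-1,0,0,1]) :: r86

noncomputable def r87 : List Con := (false, [0,1,0,-1,0,0,1,1,0,0,-1]) :: r86

noncomputable def l88 : List Con := (false, [0,1,0,0,-1,0,-1,-1,1,0,1,-1]) :: r87

noncomputable def r88 : List Con := (false, [0,-1,0,0,1,0,1,1,-1,0,-1,1]) :: r87

noncomputable def l89 : List Con := (true, [0,0,2,2,-1,0,0,-1]) :: l88

noncomputable def r89 : List Con := (true, [1,0,-2,-2,1,0,0,1]) :: l88

noncomputable def l90 : List Con := (true, [0,0,-1,0,-1,1,2]) :: r89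

noncomputable def r90 : List Con := (true, [1,0,1,0,1,-1,-2]) :: r89

noncomputable def l91 : List Con := (false, [0,-1,0,2,0,0,-1,-1,0,0,1]) :: l90

noncomputable def r91 : List Con := (false, [0,1,0,-2,0,0,1,1,0,0,-1]) :: l90


end Helper25.S1T.Ypm_1c
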