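import Pool.Agent.Helper25.S1T.Ypm_2_p0
import Pool.Agent.Helper25.S1T.Ypm_2_p1
import Pool.Agent.Helper25.S1T.Ypm_2_p2
import Pool.Agent.Helper25.S1T.Ypm_2_p3

set_option autoImplicit false
set_option linter.all false

namespace Helper25.S1T.Ypm_2

open Helper25.KG Helper25.KW Helper55.KE Helper11.CT

noncomputable def t8 : Tre :=
  .Q [0,-1,0,0,0,0,2,2,0,1,-2] (.p false [0,0,1] [1,0,-1] (⟨0,[(21,0)]⟩,⟨0,[(20,0)]⟩) .k 2 (⟨0,[(20,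
  0)]⟩,⟨0,[(21,0)]⟩) .k (.r 0 ⟨0,[(4,1),(13,0),(0,0)]⟩ ⟨0,[(3,0),(6,0),(6,0),(13,0)]⟩)) t6 t7

theorem ok8 : chk K t8 r9 = true :=
  chk_Q (e' := [0,1,0,0,0,0,-2,-2,0,-1,2]) (by decide +kernel) (by decide +kernel) ok6 ok7

noncomputable def t9 : Tre :=
  .Q [0,1,1,-1,0,0,-1,0,0,-1,1] (.p true [0,0,1] [1] (⟨0,[(20,0)]⟩,⟨0,[(19,0)]⟩) .k 1 (⟨0,[]⟩,⟨0,
  []⟩) .k .k) t5 t8

theorem ok9 : chk K t9 l8 = true :=
  chk_Q (e' := [0,-1,-1,1,0,0,1,0,0,1,-1]) (by decide +kernel) (by decide +kernel) ok5 ok8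

noncomputable def t11 : Tre :=
  .Q [0,-1,0,1,0,0,0,0,0,1] (.pp false [-1,1]) t9 t10

theorem ok11 : chk K t11 r7 = true :=
  chk_Q (e' := [0,1,0,-1,0,0,0,0,0,-1]) (by decide +kernel) (by decide +kernel) ok9 ok10

noncomputable def t12 : Tre :=
  .Q [0,0,0,0,0,-1,0,0,0,1,-1] (.ed true [0,1,1] .k) t4 t11

theorem ok12 : chk K t12 r6 = true :=
  chk_Q (e' := [0,0,0,0,0,1,0,0,0,-1,1]) (by decide +kernel) (by decide +kernel) ok4 ok11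

noncomputable def t13 : Tre :=
  .Q [0,-1,0,0,0,0,1,1,0,1,-1] (.p false [0,0,1] [1] (⟨0,[(17,0)]⟩,⟨0,[(16,0)]⟩) .k 1 (⟨0,[]⟩,⟨0,
  []⟩) .k .k) t3 t12

theorem ok13 : chk K t13 l5 = true :=
  chk_Q (e' := [0,1,0,0,0,0,-1,-1,0,-1,1]) (by decide +kernel) (by decide +kernel) ok3 ok12

noncomputable def t18 : Tre :=
  .I [1,-1,0,0,0,0,0,-1] t16 t17

theorem ok18 : chk K t18 r12 = true :=
  chk_I (e' := [0,1,0,0,0,0,0,1]) (by decide +kernel) (by decide +kernel) ok16 ok17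

noncomputable def t19 : Tre :=
  .I [1,1,0,-1,0,0,0,1] t15 t18

theorem ok19 : chk K t19 r11 = true :=
  chk_I (e' := [0,-1,0,1,0,0,0,-1]) (by decide +kernel) (by decide +kernel) ok15 ok18

noncomputable def t20 : Tre :=
  .I [1,0,0,0,0,0,0,1] t14 t19

theorem ok20 : chk K t20 r5 = true :=
  chk_I (e' := [0,0,0,0,0,0,0,-1]) (by decide +kernel) (by decide +kernel) ok14 ok19

noncomputable def t21 : Tre :=
  .I [1,0,-1,0,0,0,0,1] t13 t20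

theorem ok21 : chk K t21 r4 = true :=
  chk_I (e' := [0,0,1,0,0,0,0,-1]) (by decide +kernel) (by decide +kernel) ok13 ok20

noncomputable def t22 : Tre :=
  .Q [0,0,0,0,0,0,-1,0,0,0,1] (.p true [0,0,1] [] (⟨0,[(15,0)]⟩,⟨0,[(14,0)]⟩) .k 0 (⟨0,[]⟩,⟨0,[]⟩)
  .k .k) t2 t21

theorem ok22 : chk K t22 l3 = true :=
  chk_Q (e' := [0,0,0,0,0,0,1,0,0,0,-1]) (by decide +kernel) (by decide +kernel) ok2 ok21

noncomputable def t27 : Tre :=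
  .Q [0,0,0,0,0,0,1,0,0,0,-1] (.p false [0,0,1] [] (⟨0,[(17,0)]⟩,⟨0,[(16,0)]⟩) .k 0 (⟨0,[]⟩,⟨0,[]⟩)
  .k .k) t25 t26

theorem ok27 : chk K t27 r15 = true :=
  chk_Q (e' := [0,0,0,0,0,0,-1,0,0,0,1]) (by decide +kernel) (by decide +kernel) ok25 ok26

noncomputable def t28 : Tre :=
  .I [0,0,-1,-1,0,0,0,2] t24 t27

theorem ok28 : chk K t28 r14 = true :=
  chk_I (e' := [1,0,1,1,0,0,0,-2]) (by decide +kernel) (by decide +kernel) ok24 ok27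

noncomputable def t29 : Tre :=
  .Q [0,-1,0,1,0,0,-1,-1,0,0,1] (.p true [0,0,1] [] (⟨0,[(15,0)]⟩,⟨0,[(14,0)]⟩) .k 0 (⟨0,[]⟩,⟨0,
  []⟩) .k .k) t23 t28

theorem ok29 : chk K t29 r3 = true :=
  chk_Q (e' := [0,1,0,-1,0,0,1,1,0,0,-1]) (by decide +kernel) (by decide +kernel) ok23 ok28

noncomputable def t30 : Tre :=
  .Q [0,0,0,0,0,-1,0,0,0,0,1] (.ed false [1,-1,1] .k) t22 t29

theorem ok30 : chk K t30 l2 = true :=
  chk_Q (e' := [0,0,0,0,0,1,0,0,0,0,-1]) (by decide +kernel) (by decide +kernel) ok22 ok29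

noncomputable def t38 : Tre :=
  .Q [0,1,0,1,-1,0,1,1,0,1,-1] (.p false [0,0,1] [1] (⟨0,[(25,0)]⟩,⟨0,[(24,0)]⟩) .k 1 (⟨0,[]⟩,⟨0,
  []⟩) .k .k) t36 t37

theorem ok38 : chk K t38 l27 = true :=
  chk_Q (e' := [0,-1,0,-1,1,0,-1,-1,0,-1,1]) (by decide +kernel) (by decide +kernel) ok36 ok37

noncomputable def t40 : Tre :=
  .Q [0,0,0,0,0,0,1,0,0,0,-1] (.p false [0,0,1] [] (⟨0,[(24,0)]⟩,⟨0,[(23,0)]⟩) .k 0 (⟨0,[]⟩,⟨0,[]⟩)
  .k .k) t38 t39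

theorem ok40 : chk K t40 l26 = true :=
  chk_Q (e' := [0,0,0,0,0,0,-1,0,0,0,1]) (by decide +kernel) (by decide +kernel) ok38 ok39

noncomputable def t42 : Tre :=
  .Q [0,0,0,-1,1,0,-1,-1,0,-1,1] (.p true [0,0,1] [1] (⟨0,[(23,0)]⟩,⟨0,[(22,0)]⟩) .k 1 (⟨0,[]⟩,⟨0,
  []⟩) .k .k) t40 t41

theorem ok42 : chk K t42 r25 = true :=
  chk_Q (e' := [0,0,0,1,-1,0,1,1,0,1,-1]) (by decide +kernel) (by decide +kernel) ok40 ok41

noncomputable def t43 : Tre :=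
  .Q [0,0,0,3,-1,0,0,0,0,1] (.pp false [-1,1]) t35 t42

theorem ok43 : chk K t43 l24 = true :=
  chk_Q (e' := [0,0,0,-3,1,0,0,0,0,-1]) (by decide +kernel) (by decide +kernel) ok35 ok42

noncomputable def t45 : Tre :=
  .I [1,0,-3,-3,2] t43 t44

theorem ok45 : chk K t45 r23 = true :=
  chk_I (e' := [0,0,3,3,-2]) (by decide +kernel) (by decide +kernel) ok43 ok44

noncomputable def t46 : Tre :=
  .I [0,-1,0,2] t34 t45

theorem ok46 : chk K t46 r22 = true :=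
  chk_I (e' := [1,1,0,-2]) (by decide +kernel) (by decide +kernel) ok34 ok45

noncomputable def t47 : Tre :=
  .I [0,0,-2,-1,1] t33 t46

theorem ok47 : chk K t47 r21 = true :=
  chk_I (e' := [1,0,2,1,-1]) (by decide +kernel) (by decide +kernel) ok33 ok46

noncomputable def t48 : Tre :=
  .Q [0,0,0,0,0,2,0,0,0,-1] (.pp true [-1,1]) t32 t47

theorem ok48 : chk K t48 l20 = true :=
  chk_Q (e' := [0,0,0,0,0,-2,0,0,0,1]) (by decide +kernel) (by decide +kernel) ok32 ok47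

noncomputable def t50 : Tre :=
  .Q [0,0,-1,0,0,0,0,0,0,1] (.pp false [-1,1]) t48 t49

theorem ok50 : chk K t50 r19 = true :=
  chk_Q (e' := [0,0,1,0,0,0,0,0,0,-1]) (by decide +kernel) (by decide +kernel) ok48 ok49

noncomputable def t51 : Tre :=
  .Q [0,0,0,2,-1,0,0,0,0,1] (.pp false [-1,1]) t31 t50

theorem ok51 : chk K t51 l18 = true :=
  chk_Q (e' := [0,0,0,-2,1,0,0,0,0,-1]) (by decide +kernel) (by decide +kernel) ok31 ok50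

noncomputable def t56 : Tre :=
  .Q [0,-1,0,-1,1,0,0,0,0,-1] (.pp true [-1,1]) t54 t55

theorem ok56 : chk K t56 l36 = true :=
  chk_Q (e' := [0,1,0,1,-1,0,0,0,0,1]) (by decide +kernel) (by decide +kernel) ok54 ok55

noncomputable def t58 : Tre :=
  .Q [0,0,0,0,0,1,0,0,0,-1,1] (.ed false [0,1,1] .k) t56 t57

theorem ok58 : chk K t58 r35 = true :=
  chk_Q (e' := [0,0,0,0,0,-1,0,0,0,1,-1]) (by decide +kernel) (by decide +kernel) ok56 ok57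

noncomputable def t59 : Tre :=
  .Q [0,0,0,0,0,0,1,1,0,1,-1] (.p false [0,0,1] [1] (⟨0,[(22,0)]⟩,⟨0,[(21,0)]⟩) .k 1 (⟨0,[]⟩,⟨0,
  []⟩) .k .k) t53 t58

theorem ok59 : chk K t59 r34 = true :=
  chk_Q (e' := [0,0,0,0,0,0,-1,-1,0,-1,1]) (by decide +kernel) (by decide +kernel) ok53 ok58

noncomputable def t60 : Tre :=
  .Q [0,-1,0,1,0,0,1,1,0,1,-1] (.p false [0,0,1] [1] (⟨0,[(21,0)]⟩,⟨0,[(20,0)]⟩) .k 1 (⟨0,[]⟩,⟨0,
  []⟩) .k .k) t52 t59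

theorem ok60 : chk K t60 l33 = true :=
  chk_Q (e' := [0,1,0,-1,0,0,-1,-1,0,-1,1]) (by decide +kernel) (by decide +kernel) ok52 ok59

noncomputable def t62 : Tre :=
  .I [1,-1,0,1,0,0,0,-1] t60 t61

theorem ok62 : chk K t62 l32 = true :=
  chk_I (e' := [0,1,0,-1,0,0,0,1]) (by decide +kernel) (by decide +kernel) ok60 ok61

noncomputable def t64 : Tre :=
  .Q [0,1,0,0,0,0,-1,-1,0,-1,1] (.p true [0,0,1] [1] (⟨0,[(19,0)]⟩,⟨0,[(18,0)]⟩) .k 1 (⟨0,[]⟩,⟨0,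
  []⟩) .k .k) t62 t63

theorem ok64 : chk K t64 l31 = true :=
  chk_Q (e' := [0,-1,0,0,0,0,1,1,0,1,-1]) (by decide +kernel) (by decide +kernel) ok62 ok63

noncomputable def t67 : Tre :=
  .Q [0,0,0,0,0,0,-1,-1,0,0,1] (.p true [0,0,1] [] (⟨0,[(19,0)]⟩,⟨0,[(18,0)]⟩) .k 0 (⟨0,[]⟩,⟨0,[]⟩)
  .k .k) t65 t66

theorem ok67 : chk K t67 r31 = true :=
  chk_Q (e' := [0,0,0,0,0,0,1,1,0,0,-1]) (by decide +kernel) (by decide +kernel) ok65 ok66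

noncomputable def t68 : Tre :=
  .Q [0,0,0,0,0,-1,0,0,0,0,1] (.ed false [1,-1,1] .k) t64 t67

theorem ok68 : chk K t68 l30 = true :=
  chk_Q (e' := [0,0,0,0,0,1,0,0,0,0,-1]) (by decide +kernel) (by decide +kernel) ok64 ok67

noncomputable def t70 : Tre :=
  .Q [0,0,0,-1,1,0,-1,-1,0,-1,1] (.p true [0,0,1] [1] (⟨0,[(17,0)]⟩,⟨0,[(16,0)]⟩) .k 1 (⟨0,[]⟩,⟨0,
  []⟩) .k .k) t68 t69

theorem ok70 : chk K t70 l29 = true :=
  chk_Q (e' := [0,0,0,1,-1,0,1,1,0,1,-1]) (by decide +kernel) (by decide +kernel) ok68 ok69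

noncomputable def t72 : Tre :=
  .Q [0,0,0,0,0,0,1,0,0,0,-1] (.p false [0,0,1] [] (⟨0,[(16,0)]⟩,⟨0,[(15,0)]⟩) .k 0 (⟨0,[]⟩,⟨0,[]⟩)
  .k .k) t70 t71

theorem ok72 : chk K t72 r18 = true :=
  chk_Q (e' := [0,0,0,0,0,0,-1,0,0,0,1]) (by decide +kernel) (by decide +kernel) ok70 ok71

noncomputable def t73 : Tre :=
  .I [0,-1,3,2,-1] t51 t72

theorem ok73 : chk K t73 l17 = true :=
  chk_I (e' := [1,1,-3,-2,1]) (by decide +kernel) (by decide +kernel) ok51 ok72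

noncomputable def t75 : Tre :=
  .I [0,1,0,0,0,0,0,1] t73 t74

theorem ok75 : chk K t75 r2 = true :=
  chk_I (e' := [1,-1,0,0,0,0,0,-1]) (by decide +kernel) (by decide +kernel) ok73 ok74

noncomputable def t76 : Tre :=
  .I [0,0,-2,-2,1,0,0,1] t30 t75

theorem ok76 : chk K t76 r1 = true :=
  chk_I (e' := [1,0,2,2,-1,0,0,-1]) (by decide +kernel) (by decide +kernel) ok30 ok75

noncomputable def t77 : Tre :=
  .I [1,0,0,1,-1,0,0,-1] t1 t76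

theorem ok77 : chk K t77 r0 = true :=
  chk_I (e' := [0,0,0,-1,1,0,0,1]) (by decide +kernel) (by decide +kernel) ok1 ok76

noncomputable def t78 : Tre :=
  .I [1,0,-1,-1,0,0,0,-1] t0 t77

theorem ok78 : chk K t78 base = true :=
  chk_I (e' := [0,0,1,1,0,0,0,1]) (by decide +kernel) (by decide +kernel) ok0 ok77

theorem closed {p a b c J l q : ℤ} {D dl : ℝ} {Cl : ℤ → ℤ → ℤ → ℤ → ℝ → Prop}
    (W : World p a b c J (-1) l q D dl Cl) (g : G0 p a b c J D)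
    {N X R : ℤ} {I : ℝ} (hk : KCl p l Cl N X R I) (kz : KF a b D (X + (-1 : ℤ) * I) (X + (-1 : ℤ) * I + R) I)
    {Ne Xe : ℤ} {Ie : ℝ} (he : EFac p (-1) D Cl 1 Ne Xe Ie)
    (hkf : ∀ kf ∈ (kfY (-1) [0,0,0,0,0,0,1,0,0,0,-1]), KOk p l Cl (-1)
      (xv [1, a, b, c, p, J, X, R, Xe] [D, I, Ie]) N kf)
    (h0 : 1 ≤ (c : ℝ))
    (h1 : 1 ≤ (a : ℝ) - (b : ℝ))
    (h2 : 1 ≤ 1 - (a : ℝ) + (b : ℝ) + (c : ℝ))
    (h3 : 1 ≤ 2 * (a : ℝ) - (b : ℝ))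
    (h4 : 0 < -(b : ℝ) + (X : ℝ) + D - I)
    (h5 : 0 < 2 * (X : ℝ) + D - 2 * I) : False := by
  have g1 := g.a2
  have g2 := g.b2
  have g3 := g.pa
  have g4 := g.pb
  have g5 := g.J1
  have g6 := g.JD
  have g7 := g.D2
  have g8 := g.ca
  have g9 := g.ca'
  have k1 := kz.I0
  have k2 := kz.ID
  have k3 := kz.z1
  have k4 := kz.z2
  have k5 := kz.s1
  have k6 := kz.s2
  have e1 := he.I0
  have e2 := he.ID
  have e3 := he.x0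
  have e4 := he.xp
  push_cast at *
  refine (val_E W.toBase hk he (row := [1]) (by simp) (by simp) (kfY (-1) [0,0,0,0,0,0,1,0,0,0,-1])).sound W rfl (Nk := N)
    (fun kf _ _ => ⟨_, rfl⟩) hkf ?_ ok78
  · simp only [base, List.forall_mem_cons, List.not_mem_nil, false_imp_iff, implies_true,
      and_true, hld, xv, evg_cons, evg_nil, List.map_cons, List.map_nil, List.cons_append,
      List.nil_append, if_true, if_false, Bool.false_eq_true]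
    push_cast
    refine ⟨?_, ?_, ?_, ?_, ?_, ?_, ?_, ?_, ?_, ?_, ?_, ?_, ?_, ?_, ?_, ?_, ?_, ?_, ?_, ?_, ?_, ?_, ?_, ?_⟩ <;> linarith

end Helper25.S1T.Ypm_2
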