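import Pool.Agent.Helper25.KG.S1b
import Pool.Agent.Helper11.CT.Cut

set_option autoImplicit false
set_option linter.all false

namespace Helper25.S1T.Ypp_1aP1

open Helper25.KG Helper25.KW Helper55.KE Helper11.CT

noncomputable def K : Cls :=
  cE 1 [0,1] (kfY 1 [0,0,0,0,0,0,1,0,0,0,1])

noncomputable def base : List Con :=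
  [(false,[0,0,0,0,0,0,-2,0,0,1,-2]),
  (false,[0,0,0,0,0,1,0,0,0,-1,1]),
  (false,[0,0,0,0,0,1,0,0,0,0,-1]),
  (false,[0,0,0,0,1,0,0,0,-1,0,0,-1]),
  (false,[0,0,0,0,0,0,0,0,1,0,0,1]),
  (false,[0,0,0,0,0,0,0,0,0,1,0,-1]),
  (false,[0,0,0,0,0,0,0,0,0,0,0,1]),
  (false,[0,0,-1,0,0,0,-1,0,0,1,-1]),
  (false,[0,1,0,0,0,0,1,1,0,0,1]),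
  (false,[0,1,0,0,0,0,-1,-1,0,0,-1]),
  (false,[0,0,1,0,0,0,1,0,0,0,1]),
  (false,[0,0,1,0,0,0,-1,0,0,0,-1]),
  (false,[0,0,0,0,0,0,0,0,0,1,-1]),
  (false,[0,0,0,0,0,0,0,0,0,0,1]),
  (true,[2,0,0,0,0,-1]),
  (false,[0,0,0,0,1,0,0,0,0,-2]),
  (false,[0,0,0,0,0,-1,0,0,0,1]),
  (true,[0,0,0,0,0,1]),
  (true,[0,2,-1]),
  (false,[1,0,0,0,1,0,0,0,0,-3]),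
  (true,[0,1,-1,-1]),
  (true,[0,1,0,-1]),
  (true,[0,0,0,1]),
  (true,[0,0,-2,0,1]),
  (true,[0,-2,0,0,1]),
  (true,[-1,0,1]),
  (true,[-1,1])]

noncomputable def t0 : Tre :=
  (.Q [0,1,0,-1,0,0,1,1,0,0,1] (.p true [0,0,1] [] (⟨0,[(13,0)]⟩,⟨0,[(12,0)]⟩) .k 0 (⟨0,[]⟩,⟨0,[]⟩)
  .k .k) (.Q [0,-1,0,1,0,0,-2,-2,0,0,-2] (.p false [0,0,1] [0,1,-1] (⟨0,[(14,0)]⟩,⟨0,[(13,0)]⟩) .k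
  2 (⟨0,[(3,0)]⟩,⟨0,[(14,0),(2,0)]⟩) .k (.x (-1) ⟨3,[(3,7),(7,7),(3,7),(5,1),(1,1),(0,2),(0,0)]⟩ ⟨2,
  [(1,1),(0,3),(5,1),(5,1),(0,3),(10,1)]⟩)) (.I [1,0,-2,-1,1,0,0,2] (.Q [0,0,-1,0,0,0,-2,0,0,0,-2]
  (.p false [0,0,1] [0,1,-1] (⟨0,[(16,0)]⟩,⟨0,[(15,0)]⟩) .k 2 (⟨0,[(5,0)]⟩,⟨0,[(16,0),(2,0)]⟩) .k
  (.x (-1) ⟨3,[(5,7),(7,7),(3,7),(5,1),(1,1),(0,2),(0,0)]⟩ ⟨2,[(3,1),(0,3),(5,1),(5,1),(0,3),(10,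
  1)]⟩)) (.R ⟨0,false,false,false,[0,0,1],[0,1,-1],[1,0,0,0,0,0,0,1],(⟨0,[(17,0)]⟩,⟨0,[(16,0)]⟩),
  (⟨0,[(6,0)]⟩,⟨0,[(17,0),(2,0)]⟩),⟨0,[(6,0)]⟩,.k,.k,.k,(.r (-1) ⟨3,[(1,2),(1,0),(8,0),(2,1),(12,
  0)]⟩ ⟨0,[(2,0),(11,1),(9,0),(1,0)]⟩),.k,.k,⟨false,1,⟨0,[(1,0)]⟩,⟨0,[(2,0),(11,1),(9,0),(1,0)]⟩⟩,
  ⟨true,0,⟨0,[(0,0)]⟩,⟨0,[(14,1)]⟩⟩,⟨true,0,⟨0,[]⟩,⟨0,[(30,0)]⟩⟩,⟨false,0,⟨0,[(2,0)]⟩,⟨0,[(3,0),(8,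
  0),(15,0)]⟩⟩,⟨false,0,⟨0,[]⟩,⟨0,[]⟩⟩,⟨false,0,⟨0,[]⟩,⟨0,[]⟩⟩,[.o ⟨false,0,⟨3,[(2,1),(2,3),(0,3),
  (11,7),(5,0),(1,2),(2,0),(0,0)]⟩,⟨1,[(3,1),(3,0),(0,0),(19,0)]⟩⟩,.o ⟨false,1,⟨3,[(2,1),(4,0),(0,
  0),(10,1),(6,1),(1,0)]⟩,⟨0,[(3,0)]⟩⟩,.o ⟨false,1,⟨1,[(14,1),(4,0),(7,0)]⟩,⟨2,[(0,0),(14,0)]⟩⟩,.a
  ⟨true,0,⟨0,[(14,0)]⟩,⟨0,[(11,0)]⟩⟩ ⟨false,1,⟨1,[(1,0),(24,0),(1,0)]⟩,⟨1,[(2,0),(11,1),(10,0)]⟩⟩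
  ⟨true,0,⟨1,[(0,0),(1,0),(21,0),(1,1)]⟩,⟨0,[(3,0),(10,0)]⟩⟩]⟩) (.I [0,0,0,0,1,0,0,0,-1] (.I [0,0,
  -1,0,0,1,-1] (.C [(0,1),(1,0),(5,1),(11,3),(10,0)]) (.C [(0,0),(6,0),(5,0)])) (.C [(0,0),(7,0),(2,
  0)]))) (.I [0,0,0,0,1,0,0,0,-1] (.I [0,0,-1,0,0,1,-1] (.C [(0,0),(1,0),(1,1),(1,0),(0,1),(4,0),(6,
  3),(7,0),(1,0)]) (.C [(0,0),(5,0),(5,0)])) (.C [(0,0),(6,0),(2,0)]))) (.I [0,0,-1,-1,0,0,0,2] (.I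
  [1,0,-1,0,-1,0,0,2] (.R ⟨0,false,false,true,[0,0,1],[1,0,-1],[0,1,1,0,0,0,0,-1],(⟨0,[(17,0)]⟩,⟨0,
  [(16,0)]⟩),(⟨0,[(16,0)]⟩,⟨0,[(17,0)]⟩),⟨0,[(6,0)]⟩,.k,.k,.k,.k,.k,.k,⟨true,0,⟨1,[(14,0),(0,0)]⟩,
  ⟨0,[]⟩⟩,⟨false,0,⟨2,[(0,0),(3,0),(6,1),(1,1),(14,0)]⟩,⟨3,[(5,3),(0,3),(7,7),(3,7),(5,1),(1,1),(0,
  2),(0,0)]⟩⟩,⟨true,1,⟨1,[(13,3),(0,3),(12,0),(0,0)]⟩,⟨0,[(0,0)]⟩⟩,⟨false,1,⟨0,[(13,1),(6,0),(0,0),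
  (6,0)]⟩,⟨3,[(0,3),(4,3),(0,3),(7,7),(3,7),(5,1),(1,1),(0,0),(0,2)]⟩⟩,⟨false,0,⟨0,[]⟩,⟨0,[]⟩⟩,
  ⟨false,0,⟨0,[]⟩,⟨0,[]⟩⟩,[.o ⟨false,0,⟨0,[(13,0)]⟩,⟨23,[(0,1),(1,9),(11,3),(8,7),(2,9),(0,0),(0,
  16)]⟩⟩,.o ⟨false,1,⟨1,[(7,0),(0,0),(4,1),(14,0)]⟩,⟨7,[(0,3),(4,1),(0,1),(7,7),(3,3),(4,1),(0,1),
  (1,1),(0,0),(0,0)]⟩⟩,.o ⟨false,1,⟨1,[(14,1),(4,0),(7,0)]⟩,⟨2,[(0,0),(12,1),(1,0),(12,0)]⟩⟩,.a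
  ⟨true,0,⟨0,[(14,0)]⟩,⟨0,[(11,0)]⟩⟩ ⟨false,1,⟨1,[(13,1),(0,1),(12,0),(0,0)]⟩,⟨3,[(0,1),(13,0),(0,
  0),(12,1)]⟩⟩ ⟨true,0,⟨0,[(11,0),(1,0)]⟩,⟨7,[(0,3),(4,1),(0,1),(7,15),(3,3),(4,1),(0,1),(1,1),(0,
  0),(0,0)]⟩⟩]⟩) (.Q [0,1,0,1,0,0,-2,-2,0,0,-2] (.p false [0,0,1] [0,1,-1] (⟨0,[(17,0)]⟩,⟨0,[(16,
  0)]⟩) .k 2 (⟨0,[(6,0)]⟩,⟨0,[(17,0),(2,0)]⟩) .k (.x (-1) ⟨3,[(6,7),(7,7),(3,7),(5,1),(1,1),(0,2),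
  (0,0)]⟩ ⟨2,[(4,1),(0,3),(5,1),(5,1),(0,3),(10,1)]⟩)) (.Q [0,0,0,1,0,0,-1,-1,0,0,-1] (.p false [0,
  0,1] [] (⟨0,[(18,0)]⟩,⟨0,[(17,0)]⟩) .k 0 (⟨0,[]⟩,⟨0,[]⟩) .k .k) (.Q [0,0,0,0,0,0,1,1,0,0,1] (.p
  true [0,0,1] [] (⟨0,[(19,0)]⟩,⟨0,[(18,0)]⟩) .k 0 (⟨0,[]⟩,⟨0,[]⟩) .k .k) (.R ⟨2,true,false,false,
  [0,1],[0,0,1],[1,1,1],(⟨0,[]⟩,⟨0,[]⟩),(⟨0,[(20,0)]⟩,⟨0,[(19,0)]⟩),⟨0,[]⟩,.k,.k,.k,.k,.k,.k,⟨false,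
  0,⟨0,[(1,0),(15,0),(9,0)]⟩,⟨15,[(4,5),(2,1),(7,3),(6,0),(6,5),(0,4),(0,9)]⟩⟩,⟨true,0,⟨0,[(17,0)]⟩,
  ⟨0,[(8,0),(0,0),(4,0),(6,1),(10,0)]⟩⟩,⟨true,0,⟨0,[(28,0)]⟩,⟨0,[(29,0)]⟩⟩,⟨false,1,⟨0,[(6,0),(24,
  0)]⟩,⟨0,[(1,0)]⟩⟩,⟨false,0,⟨0,[]⟩,⟨1,[(10,0),(0,0),(19,0)]⟩⟩,⟨true,0,⟨0,[(0,0)]⟩,⟨0,[(16,0)]⟩⟩,
  []⟩) (.R ⟨0,false,false,true,[0,0,1],[1,0,-1],[0,1,1,0,0,0,0,-1],(⟨0,[(20,0)]⟩,⟨0,[(19,0)]⟩),(⟨0,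
  [(19,0)]⟩,⟨0,[(20,0)]⟩),⟨0,[(9,0)]⟩,.k,.k,.k,.k,.k,.k,⟨true,0,⟨1,[(17,0),(0,0)]⟩,⟨0,[]⟩⟩,⟨false,0,
  ⟨2,[(0,0),(0,0),(2,0),(2,0),(6,1)]⟩,⟨3,[(8,3),(0,3),(7,7),(3,7),(5,1),(1,1),(0,2),(0,0)]⟩⟩,⟨true,
  0,⟨0,[(0,0),(0,0),(15,1),(9,0)]⟩,⟨0,[(4,0),(24,0)]⟩⟩,⟨false,0,⟨0,[(0,1),(22,0),(0,0)]⟩,⟨0,[(5,0),
  (2,0),(0,0),(11,1),(7,0),(1,0)]⟩⟩,⟨false,0,⟨0,[]⟩,⟨0,[]⟩⟩,⟨false,0,⟨0,[]⟩,⟨0,[]⟩⟩,[.o ⟨false,0,⟨0,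
  [(16,0)]⟩,⟨3,[(5,1),(2,0),(0,0),(11,1),(4,0),(2,1),(1,2)]⟩⟩,.o ⟨false,0,⟨0,[(0,0)]⟩,⟨1,[(15,1),(6,
  0),(8,0)]⟩⟩,.o ⟨false,1,⟨11,[(3,1),(1,1),(11,7),(8,3),(2,1),(0,4),(0,0)]⟩,⟨2,[(0,0),(0,0),(2,0),
  (13,0)]⟩⟩,.a ⟨true,0,⟨0,[(17,0)]⟩,⟨0,[(14,0)]⟩⟩ ⟨true,0,⟨0,[(1,0),(15,0),(9,0)]⟩,⟨3,[(4,1),(12,0),
  (0,0),(10,1)]⟩⟩ ⟨false,0,⟨0,[(0,0),(13,0)]⟩,⟨3,[(5,1),(2,0),(0,0),(7,3),(3,1),(4,0),(2,1),(1,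
  2)]⟩⟩]⟩)) (.I [1,0,-2,-1,0,0,0,2] (.Q [0,0,-1,0,0,0,-2,0,0,0,-2] (.p false [0,0,1] [0,1,-1] (⟨0,
  [(20,0)]⟩,⟨0,[(19,0)]⟩) .k 2 (⟨0,[(9,0)]⟩,⟨0,[(20,0),(2,0)]⟩) .k (.x (-1) ⟨3,[(9,7),(7,7),(3,7),
  (5,1),(1,1),(0,2),(0,0)]⟩ ⟨2,[(7,1),(0,3),(5,1),(5,1),(0,3),(10,1)]⟩)) (.R ⟨0,false,false,false,
  [0,0,1],[0,1,-1],[1,0,0,0,0,0,0,1],(⟨0,[(21,0)]⟩,⟨0,[(20,0)]⟩),(⟨0,[(10,0)]⟩,⟨0,[(21,0),(2,0)]⟩),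
  ⟨0,[(10,0)]⟩,.k,.k,.k,(.r 0 ⟨0,[(5,0)]⟩ ⟨0,[(4,0),(25,0)]⟩),.k,.k,⟨false,0,⟨0,[(1,0)]⟩,⟨0,[(4,0),
  (25,0)]⟩⟩,⟨true,0,⟨0,[(0,0)]⟩,⟨0,[(18,1)]⟩⟩,⟨true,0,⟨0,[]⟩,⟨0,[(34,0)]⟩⟩,⟨false,1,⟨0,[(3,0),(28,
  0)]⟩,⟨0,[(2,1),(27,0)]⟩⟩,⟨false,0,⟨0,[]⟩,⟨0,[]⟩⟩,⟨false,0,⟨0,[]⟩,⟨0,[]⟩⟩,[.o ⟨false,1,⟨11,[(3,3),
  (0,1),(3,1),(14,6),(6,7),(0,0),(0,1)]⟩,⟨0,[(2,0)]⟩⟩,.o ⟨false,1,⟨3,[(3,1),(5,0),(0,0),(11,1),(4,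
  0),(2,1),(1,2)]⟩,⟨0,[(7,0)]⟩⟩,.o ⟨false,1,⟨11,[(4,1),(1,1),(11,7),(8,3),(2,1),(0,4),(0,0)]⟩,⟨2,
  [(0,0),(18,0)]⟩⟩,.a ⟨true,0,⟨0,[(18,0)]⟩,⟨0,[(15,0)]⟩⟩ ⟨true,0,⟨1,[(1,0),(28,0)]⟩,⟨0,[(17,0),(0,
  0)]⟩⟩ ⟨false,1,⟨3,[(0,1),(2,1),(26,1),(0,0),(0,2)]⟩,⟨0,[(2,0),(15,0)]⟩⟩]⟩) (.I [0,0,0,0,1,0,0,0,
  -1] (.I [0,0,-1,0,0,1,-1] (.C [(0,1),(1,0),(9,1),(11,3),(10,0)]) (.C [(0,0),(10,0),(5,0)])) (.C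
  [(0,0),(11,0),(2,0)]))) (.I [0,0,0,0,1,0,0,0,-1] (.I [0,0,-1,0,0,1,-1] (.C [(0,1),(1,0),(0,1),(7,
  1),(11,3),(7,0)]) (.C [(0,0),(9,0),(5,0)])) (.C [(0,0),(10,0),(2,0)])))) (.Q [0,0,-1,0,0,0,-2,0,0,
  0,-2] (.p false [0,0,1] [0,1,-1] (⟨0,[(18,0)]⟩,⟨0,[(17,0)]⟩) .k 2 (⟨0,[(7,0)]⟩,⟨0,[(18,0),(2,
  0)]⟩) .k (.x (-1) ⟨2,[(0,0),(0,0),(5,5),(7,3),(3,5),(5,0),(1,1),(0,1)]⟩ ⟨2,[(5,1),(0,3),(5,1),(5,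
  1),(0,3),(10,1)]⟩)) (.Q [0,1,-1,1,0,0,-2,-1,0,0,-2] (.p false [0,0,1] [0,1,-1] (⟨0,[(19,0)]⟩,⟨0,
  [(18,0)]⟩) .k 2 (⟨0,[(8,0)]⟩,⟨0,[(19,0),(2,0)]⟩) .k (.x (-1) ⟨2,[(1,0),(0,0),(5,5),(7,3),(3,5),(5,
  0),(1,1),(0,1)]⟩ ⟨2,[(0,1),(16,1),(1,5)]⟩)) (.R ⟨0,false,false,true,[0,0,1],[0,1,-1],[1,1,1],(⟨0,
  [(20,0)]⟩,⟨0,[(19,0)]⟩),(⟨0,[(9,0)]⟩,⟨0,[(20,0),(2,0)]⟩),⟨0,[(9,0)]⟩,.k,.k,.k,(.r 0 ⟨0,[(4,0)]⟩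
  ⟨0,[(3,0),(25,0)]⟩),.k,.k,⟨false,0,⟨1,[(1,0),(0,0),(24,0)]⟩,⟨3,[(3,1),(6,0),(0,0),(17,3),(0,0)]⟩⟩,
  ⟨true,0,⟨0,[(1,0)]⟩,⟨0,[(17,1)]⟩⟩,⟨true,0,⟨0,[(16,0),(0,0)]⟩,⟨0,[(0,0),(1,0)]⟩⟩,⟨false,1,⟨6,[(0,
  5),(2,3),(14,1),(10,0),(1,2)]⟩,⟨0,[(2,0)]⟩⟩,⟨false,0,⟨0,[]⟩,⟨0,[]⟩⟩,⟨false,0,⟨0,[]⟩,⟨0,[]⟩⟩,[.e
  ⟨false,0,⟨0,[(33,0)]⟩,⟨1,[(30,0),(0,0)]⟩⟩ ⟨false,0,⟨0,[(0,0)]⟩,⟨3,[(2,2),(0,1),(1,0),(24,0),(0,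
  0)]⟩⟩,.o ⟨false,1,⟨13,[(0,5),(2,3),(14,1),(3,6),(6,7),(1,2)]⟩,⟨1,[(2,0),(25,0)]⟩⟩,.o ⟨false,1,⟨5,
  [(2,0),(0,1),(1,0),(11,1),(8,1),(2,1),(0,1)]⟩,⟨2,[(1,0),(16,0)]⟩⟩,.a ⟨true,0,⟨0,[(17,0)]⟩,⟨0,[(14,
  0)]⟩⟩ ⟨false,0,⟨0,[]⟩,⟨1,[(10,0),(0,0),(19,0)]⟩⟩ ⟨true,0,⟨0,[(0,0)]⟩,⟨1,[(2,0),(14,1),(10,
  0)]⟩⟩]⟩) (.I [0,0,0,0,1,0,0,0,-1] (.I [0,-1,0,-1,0,0,0,1] (.I [0,0,-1,0,0,1,-1] (.C [(0,0),(2,0),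
  (8,0),(6,0),(4,1),(7,0)]) (.C [(0,0),(10,0),(5,0)])) (.C [(0,0),(1,0),(0,0)])) (.C [(0,0),(10,0),
  (2,0)]))) (.I [0,0,0,0,1,0,0,0,-1] (.I [0,1,0,0,0,0,-1,-1] (.I [0,0,-1,0,0,1,-1] (.C [(0,1),(2,0),
  (7,1),(11,3),(10,0)]) (.C [(0,0),(9,0),(5,0)])) (.C [(0,0),(8,0),(7,0),(6,0)])) (.C [(0,0),(9,0),
  (2,0)]))))) (.Q [0,0,0,1,0,0,-1,-1,0,-1,-1] (.p false [1,-1,1] [] (⟨0,[(16,0),(2,0)]⟩,⟨0,[(5,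
  0)]⟩) .k 0 (⟨0,[]⟩,⟨0,[]⟩) .k .k) (.I [0,0,-1,0,0,-1,-2] (.R ⟨0,false,false,false,[0,0,1],[0,1,
  -1],[1,0,0,-1,0,0,0,1],(⟨0,[(18,0)]⟩,⟨0,[(17,0)]⟩),(⟨0,[(7,0)]⟩,⟨0,[(18,0),(2,0)]⟩),⟨0,[(7,0)]⟩,
  .k,.k,.k,(.x (-1) ⟨1,[(2,1),(0,1),(3,1),(9,1),(2,0),(8,0)]⟩ ⟨0,[(0,0)]⟩),.k,.k,⟨false,1,⟨0,[(0,0),
  (2,0),(3,1),(11,0),(5,0),(3,0)]⟩,⟨0,[(2,0),(24,0)]⟩⟩,⟨true,0,⟨0,[(0,0),(6,1),(11,0)]⟩,⟨0,[(15,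
  1)]⟩⟩,⟨false,1,⟨0,[(26,0),(2,0)]⟩,⟨0,[(27,0)]⟩⟩,⟨true,0,⟨0,[(0,0),(1,0),(4,1),(11,0)]⟩,⟨0,[(3,
  0)]⟩⟩,⟨false,0,⟨0,[]⟩,⟨0,[]⟩⟩,⟨false,0,⟨0,[]⟩,⟨0,[]⟩⟩,[.o ⟨false,0,⟨0,[(1,0)]⟩,⟨1,[(4,1),(3,0),(0,
  0),(19,0)]⟩⟩,.o ⟨false,1,⟨7,[(1,3),(0,1),(2,1),(14,2),(6,1),(0,0),(0,3)]⟩,⟨0,[(4,0)]⟩⟩,.o ⟨false,
  1,⟨3,[(2,1),(0,1),(16,1),(7,0),(0,0)]⟩,⟨2,[(0,0),(6,1),(8,0),(2,0)]⟩⟩,.a ⟨true,0,⟨0,[(15,0)]⟩,⟨0,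
  [(12,0)]⟩⟩ ⟨false,1,⟨1,[(0,0),(2,0),(3,1),(11,0),(5,0),(3,1)]⟩,⟨3,[(2,1),(12,0),(0,0),(10,1)]⟩⟩
  ⟨true,0,⟨0,[(1,0),(10,0)]⟩,⟨0,[(4,0),(10,0)]⟩⟩]⟩) (.I [0,0,0,0,1,0,0,0,-1] (.I [0,1,-1,0,0,0,0,1]
  (.I [0,0,-1,0,0,1,-1] (.C [(0,1),(2,0),(5,0),(0,0),(11,3),(1,0),(8,0)]) (.C [(0,0),(8,0),(5,0)]))
  (.C [(0,0),(2,0),(1,0),(8,0)])) (.C [(0,0),(8,0),(2,0)]))) (.I [0,0,-1,0,0,-1,-2] (.Q [0,0,-1,1,0,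
  0,-2,-1,0,0,-2] (.p false [0,0,1] [0,1,-1] (⟨0,[(18,0)]⟩,⟨0,[(17,0)]⟩) .k 2 (⟨0,[(7,0)]⟩,⟨0,[(18,
  0),(2,0)]⟩) .k (.r 0 ⟨0,[(0,0),(0,1),(4,1),(0,3),(11,4),(7,1),(2,0)]⟩ ⟨1,[(2,1),(23,1),(1,0),(0,
  0)]⟩)) (.R ⟨0,false,false,false,[0,0,1],[0,1,-1],[],(⟨0,[(19,0)]⟩,⟨0,[(18,0)]⟩),(⟨0,[(8,0)]⟩,⟨0,
  [(19,0),(2,0)]⟩),⟨0,[(8,0)]⟩,.k,.k,.k,(.x (-1) ⟨1,[(3,1),(0,1),(3,1),(9,1),(2,0),(8,0)]⟩ ⟨0,[(1,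
  0)]⟩),.k,.k,⟨false,1,⟨3,[(4,1),(2,0),(0,0),(4,3),(6,1),(4,0),(0,1),(2,0),(0,1)]⟩,⟨3,[(3,1),(12,0),
  (0,0),(10,1)]⟩⟩,⟨true,0,⟨0,[(1,0),(6,1),(11,0)]⟩,⟨0,[(16,1)]⟩⟩,⟨false,1,⟨3,[(3,1),(23,1),(1,0),(0,
  2)]⟩,⟨2,[(1,0),(0,2),(4,2),(0,4),(8,0),(2,6),(7,2)]⟩⟩,⟨true,0,⟨0,[(1,0),(1,0),(4,1),(11,0)]⟩,⟨0,
  [(4,0)]⟩⟩,⟨false,0,⟨0,[]⟩,⟨0,[]⟩⟩,⟨false,0,⟨0,[]⟩,⟨0,[]⟩⟩,[.e ⟨false,1,⟨1,[(9,0),(0,0),(18,0)]⟩,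
  ⟨0,[]⟩⟩ ⟨false,0,⟨0,[(0,0)]⟩,⟨3,[(2,3),(0,1),(0,1),(16,1),(7,0),(0,0)]⟩⟩,.o ⟨false,1,⟨13,[(0,5),
  (2,3),(13,1),(3,6),(6,3),(1,6)]⟩,⟨0,[(5,0)]⟩⟩,.o ⟨false,1,⟨3,[(3,1),(0,1),(16,1),(7,0),(0,0)]⟩,⟨2,
  [(1,0),(6,1),(8,0),(2,0)]⟩⟩,.a ⟨true,0,⟨0,[(16,0)]⟩,⟨0,[(13,0)]⟩⟩ ⟨false,1,⟨1,[(29,0),(0,0)]⟩,⟨1,
  [(16,0),(0,0)]⟩⟩ ⟨true,0,⟨0,[(0,0)]⟩,⟨0,[(5,0),(10,0)]⟩⟩]⟩) (.I [0,0,0,0,1,0,0,0,-1] (.I [0,0,-1,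
  0,0,1,-1] (.I [0,0,1,0,0,1,1] (.I [0,0,1,-1,0,2,2,1] (.C [(0,0),(1,1),(1,0),(0,0),(1,0),(4,1),(11,
  4),(7,0)]) (.C [(0,0),(3,0),(7,1)])) (.C [(0,3),(2,1),(2,0),(4,3),(19,0),(2,0)])) (.C [(0,0),(8,
  0),(5,0)])) (.C [(0,0),(9,0),(2,0)]))) (.I [0,0,0,0,1,0,0,0,-1] (.I [0,0,-1,0,0,1,-1] (.C [(0,1),
  (1,0),(5,0),(0,0),(11,3),(1,0),(8,0)]) (.C [(0,0),(7,0),(5,0)])) (.C [(0,0),(8,0),(2,0)]))))))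
  (.R ⟨2,true,false,true,[0,1],[0,0,1],[1,1,1],(⟨0,[]⟩,⟨0,[]⟩),(⟨0,[(14,0)]⟩,⟨0,[(13,0)]⟩),⟨0,[]⟩,
  .k,.k,.k,.k,.k,.k,⟨false,0,⟨0,[(0,0),(10,0),(9,0)]⟩,⟨3,[(1,0),(6,1),(0,3),(10,0),(3,0),(0,1)]⟩⟩,
  ⟨true,0,⟨0,[(11,0)]⟩,⟨0,[(2,0),(0,0),(4,0),(6,1),(10,0)]⟩⟩,⟨true,0,⟨0,[(22,0)]⟩,⟨0,[(23,0)]⟩⟩,
  ⟨false,1,⟨0,[(9,0),(12,0),(2,0)]⟩,⟨0,[(0,0)]⟩⟩,⟨false,0,⟨0,[]⟩,⟨1,[(4,0),(0,0),(19,0)]⟩⟩,⟨true,0,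
  ⟨0,[(9,0)]⟩,⟨0,[(0,0),(21,0)]⟩⟩,[]⟩))

theorem ok0 : chk K t0 base = true := by decide +kernel

theorem closed {p a b c J l q : ℤ} {D dl : ℝ} {Cl : ℤ → ℤ → ℤ → ℤ → ℝ → Prop}
    (W : World p a b c J 1 l q D dl Cl) (g : G0 p a b c J D)
    {N X R : ℤ} {I : ℝ} (hk : KCl p l Cl N X R I) (kz : KF a b D (X + (1 : ℤ) * I) (X + (1 : ℤ) * I + R) I)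
    {Ne Xe : ℤ} {Ie : ℝ} (he : EFac p 1 D Cl (a) Ne Xe Ie)
    (hkf : ∀ kf ∈ (kfY 1 [0,0,0,0,0,0,1,0,0,0,1]), KOk p l Cl 1
      (xv [1, a, b, c, p, J, X, R, Xe] [D, I, Ie]) N kf)
    (h0 : 1 ≤ (c : ℝ))
    (h1 : 1 ≤ (a : ℝ) - (b : ℝ) - (c : ℝ))
    (h2 : 0 < 1 + (p : ℝ) - 3 * D)
    (h3 : 1 ≤ 2 * (a : ℝ) - (b : ℝ))
    (h4 : 1 ≤ 2 - (J : ℝ))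
    (h5 : 0 < -(b : ℝ) - (X : ℝ) + D - I)
    (h6 : 0 < (J : ℝ) - I)
    (h7 : 0 < (J : ℝ) - D + I)
    (h8 : 0 < -2 * (X : ℝ) + D - 2 * I) : False := by
  have g1 := g.a2
  have g2 := g.b2
  have g3 := g.pa
  have g4 := g.pb
  have g5 := g.J1
  have g6 := g.JD
  have g7 := g.D2
  have g8 := g.ca
  have g9 := g.ca'
  have k1 := kz.I0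
  have k2 := kz.ID
  have k3 := kz.z1
  have k4 := kz.z2
  have k5 := kz.s1
  have k6 := kz.s2
  have e1 := he.I0
  have e2 := he.ID
  have e3 := he.x0
  have e4 := he.xp
  push_cast at *
  refine (val_E W.toBase hk he (row := [0,1]) (by simp) (by simp) (kfY 1 [0,0,0,0,0,0,1,0,0,0,1])).sound W rfl (Nk := N)
    (fun kf _ _ => ⟨_, rfl⟩) hkf ?_ ok0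
  · simp only [base, List.forall_mem_cons, List.not_mem_nil, false_imp_iff, implies_true,
      and_true, hld, xv, evg_cons, evg_nil, List.map_cons, List.map_nil, List.cons_append,
      List.nil_append, if_true, if_false, Bool.false_eq_true]
    push_cast
    refine ⟨?_, ?_, ?_, ?_, ?_, ?_, ?_, ?_, ?_, ?_, ?_, ?_, ?_, ?_, ?_, ?_, ?_, ?_, ?_, ?_, ?_, ?_, ?_, ?_, ?_, ?_, ?_⟩ <;> linarith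

end Helper25.S1T.Ypp_1aP1
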