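import Pool.Agent.Helper25.S1T.Ypp_1aP2_q

set_option autoImplicit false
set_option linter.all false

namespace Helper25.S1T.Ypp_1aP2

open Helper25.KG Helper25.KW Helper55.KE Helper11.CT

noncomputable def t27 : Tre :=
  (.Q [0,-1,0,0,0,0,2,2,0,-1,2] (.p true [0,0,1] [1,0,-1] (⟨0,[(18,0)]⟩,⟨0,[(17,0)]⟩) .k 2 (⟨0,[(17,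
  0)]⟩,⟨0,[(18,0)]⟩) .k (.r 1 ⟨1,[(0,1),(14,0),(0,0)]⟩ ⟨0,[(14,1),(0,1),(13,0),(0,0)]⟩)) (.R ⟨0,
  false,false,true,[0,0,1],[1,0,-1],[0,1,1,0,0,0,0,-1],(⟨0,[(19,0)]⟩,⟨0,[(18,0)]⟩),(⟨0,[(18,0)]⟩,⟨0,
  [(19,0)]⟩),⟨0,[(8,0)]⟩,.k,.k,.k,.k,.k,.k,⟨true,0,⟨1,[(16,0),(0,0)]⟩,⟨0,[]⟩⟩,⟨false,0,⟨2,[(1,0),(4,
  0),(6,1),(1,1),(15,0)]⟩,⟨3,[(7,3),(0,3),(7,7),(3,7),(6,5),(1,5),(0,0),(0,2)]⟩⟩,⟨true,1,⟨1,[(15,3),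
  (0,3),(13,0),(0,0)]⟩,⟨0,[(1,0)]⟩⟩,⟨false,1,⟨0,[(13,0),(1,1),(0,0),(14,0)]⟩,⟨0,[(0,0)]⟩⟩,⟨false,0,
  ⟨0,[]⟩,⟨0,[]⟩⟩,⟨false,0,⟨0,[]⟩,⟨0,[]⟩⟩,[.o ⟨false,0,⟨0,[(15,0)]⟩,⟨18,[(0,3),(13,10),(11,2),(4,
  12)]⟩⟩,.o ⟨false,1,⟨1,[(9,0),(0,0),(4,1),(15,0)]⟩,⟨0,[(0,0),(14,0)]⟩⟩,.o ⟨false,1,⟨15,[(3,0),(5,
  1),(6,15),(9,2),(3,7)]⟩,⟨2,[(1,0),(13,1),(1,0),(13,0)]⟩⟩,.a ⟨true,0,⟨0,[(16,0)]⟩,⟨0,[(13,0)]⟩⟩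
  ⟨false,1,⟨1,[(15,1),(0,1),(13,0),(0,0)]⟩,⟨3,[(1,1),(14,0),(0,0),(13,1)]⟩⟩ ⟨true,0,⟨0,[(13,0),(1,
  0)]⟩,⟨0,[(0,0),(14,0),(0,0)]⟩⟩]⟩) (.I [-1,0,0,0,1,0,0,0,-1] (.I [0,0,1,0,0,1,1] (.C [(0,0),(1,0),
  (0,0),(5,0),(8,0),(3,1),(6,0),(1,0),(1,0)]) (.C [(0,0),(9,0),(7,0)])) (.C [(0,0),(5,0),(6,0)])))

theorem ok27 : chk K t27 l16 = true := by decide +kernel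

noncomputable def t28 : Tre :=
  (.R ⟨2,true,false,false,[0,1],[0,0,1],[1,1,1],(⟨0,[]⟩,⟨0,[]⟩),(⟨0,[(21,0)]⟩,⟨0,[(20,0)]⟩),⟨0,[]⟩,
  .k,.k,.k,.k,.k,.k,⟨false,0,⟨0,[(2,0),(15,0),(10,0)]⟩,⟨5,[(1,5),(6,0),(6,3),(12,0),(3,0),(0,2)]⟩⟩,
  ⟨true,0,⟨0,[(18,0)]⟩,⟨0,[(0,0)]⟩⟩,⟨true,0,⟨0,[(30,0)]⟩,⟨0,[(31,0)]⟩⟩,⟨false,1,⟨15,[(4,15),(0,0),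
  (5,1),(16,2),(4,7)]⟩,⟨0,[(2,0)]⟩⟩,⟨false,0,⟨0,[]⟩,⟨17,[(3,1),(1,1),(2,1),(2,3),(4,3),(15,0),(0,
  10)]⟩⟩,⟨true,0,⟨0,[(1,0)]⟩,⟨0,[(17,0)]⟩⟩,[]⟩)

theorem ok28 : chk K t28 l19 = true := by decide +kernel

noncomputable def t29 : Tre :=
  (.K ⟨0,[0,0,0,0,1],(-1),(-1),(⟨0,[(15,0)]⟩,⟨0,[(14,0)]⟩),.k,(.r (-1) ⟨1,[(31,1),(1,0),(0,0)]⟩ ⟨1,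
  [(19,0),(0,0),(11,1)]⟩),(.r 0 ⟨1,[(19,0),(0,0),(11,1)]⟩ ⟨1,[(31,1),(1,0),(0,0)]⟩),.k,.k,[⟨0,[(1,
  0),(10,0)]⟩,⟨0,[(0,0)]⟩,⟨0,[(12,0),(23,0)]⟩,⟨0,[(0,0),(29,0),(1,0)]⟩]⟩)

theorem ok29 : chk K t29 l20 = true := by decide +kernel

noncomputable def t30 : Tre :=
  (.R ⟨0,false,false,false,[1,-1],[1,-1,1],[0,0,1],(⟨0,[(27,0)]⟩,⟨0,[(28,0)]⟩),(⟨0,[(23,0),(3,0)]⟩,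
  ⟨0,[(12,0)]⟩),⟨0,[(11,0),(0,0)]⟩,.k,.k,(.r (-1) ⟨0,[(31,1),(3,0)]⟩ ⟨2,[(0,3),(28,1),(3,1)]⟩),.k,
  .k,.k,⟨false,0,⟨0,[(4,0),(15,0)]⟩,⟨1,[(8,1),(25,0),(0,0)]⟩⟩,⟨true,0,⟨0,[(2,0)]⟩,⟨0,[(21,0)]⟩⟩,
  ⟨false,0,⟨0,[(0,0)]⟩,⟨1,[(31,1),(2,0),(0,0)]⟩⟩,⟨true,0,⟨0,[(3,0)]⟩,⟨0,[(19,0)]⟩⟩,⟨false,0,⟨0,[]⟩,
  ⟨0,[]⟩⟩,⟨false,0,⟨0,[]⟩,⟨0,[]⟩⟩,[.a ⟨true,0,⟨0,[(6,0)]⟩,⟨0,[(4,0)]⟩⟩ ⟨true,0,⟨1,[(0,0),(31,0)]⟩,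
  ⟨0,[]⟩⟩ ⟨false,1,⟨1,[(2,1),(5,1),(25,0),(0,0)]⟩,⟨1,[(0,0),(3,0),(14,0)]⟩⟩,.o ⟨false,1,⟨15,[(6,15),
  (0,0),(5,1),(16,2),(4,7)]⟩,⟨0,[(4,0),(6,0),(0,0),(11,1),(6,0),(1,0),(2,0)]⟩⟩,.o ⟨false,0,⟨1,[(0,
  0),(31,0)]⟩,⟨15,[(7,0),(5,1),(16,2),(3,7)]⟩⟩,.o ⟨false,0,⟨0,[(0,0),(31,0)]⟩,⟨3,[(11,3),(0,3),(11,
  7),(6,5),(1,5),(0,0),(0,2)]⟩⟩]⟩)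

theorem ok30 : chk K t30 l21 = true := by decide +kernel

noncomputable def t31 : Tre :=
  (.Q [0,0,0,0,0,-1,0,0,0,0,0,1] (.ed false [1,-1,0,0,1] .k) (.S ⟨1,0,[1],[0,0,0,0,1],[1,1],(⟨0,
  [(18,0)]⟩,⟨0,[(17,0)]⟩),⟨0,[(0,0)]⟩,.k,(.r (-1) ⟨1,[(34,1),(1,0),(0,0)]⟩ ⟨1,[(22,0),(0,0),(11,
  1)]⟩),⟨true,0,⟨0,[(39,0)]⟩,⟨0,[]⟩⟩,⟨false,1,⟨17,[(7,1),(1,1),(2,1),(2,3),(4,3),(15,0),(0,10)]⟩,⟨0,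
  []⟩⟩,⟨false,0,⟨0,[(35,0)]⟩,⟨0,[(34,0),(2,0)]⟩⟩,⟨true,0,⟨0,[(35,0)]⟩,⟨0,[(34,0)]⟩⟩,[.a ⟨true,0,⟨0,
  [(16,0)]⟩,⟨3,[(1,3),(20,0),(0,0),(14,1)]⟩⟩ ⟨false,0,⟨2,[(2,0),(28,0),(3,0)]⟩,⟨17,[(7,1),(1,1),(2,
  1),(2,3),(4,3),(15,0),(0,10)]⟩⟩ ⟨true,0,⟨0,[]⟩,⟨1,[(22,0),(0,0)]⟩⟩,.o ⟨false,1,⟨15,[(9,10),(5,5),
  (16,0),(4,7)]⟩,⟨2,[(1,2),(0,0),(10,2),(0,2),(11,5),(8,0),(2,4),(0,1)]⟩⟩,.a ⟨true,0,⟨0,[(16,0)]⟩,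
  ⟨1,[(1,1),(20,0),(0,0)]⟩⟩ ⟨false,0,⟨0,[]⟩,⟨17,[(7,1),(1,1),(2,1),(2,3),(4,3),(15,0),(0,10)]⟩⟩
  ⟨true,0,⟨0,[]⟩,⟨0,[(39,0)]⟩⟩,.a ⟨true,0,⟨2,[(9,0),(2,0),(3,0),(5,1),(15,0)]⟩,⟨0,[(1,0)]⟩⟩ ⟨true,0,
  ⟨2,[(2,0),(28,0),(3,0)]⟩,⟨1,[(22,0),(0,0)]⟩⟩ ⟨false,1,⟨1,[(36,0),(0,0)]⟩,⟨1,[(22,0),(0,0)]⟩⟩]⟩)
  (.Q [0,0,0,0,0,-1,0,0,0,1,0,-1] (.ed true [0,1,0,0,1] .k) (.K ⟨0,[0,0,1,0,-1],0,0,(⟨0,[(0,0),(13,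
  0)]⟩,⟨0,[(19,0),(5,0)]⟩),.k,(.r (-1) ⟨32,[(9,19),(1,12),(1,9),(19,5),(3,9),(0,10),(1,8)]⟩ ⟨0,[(7,
  0),(15,0)]⟩),(.r 0 ⟨0,[(6,0),(17,0),(11,0)]⟩ ⟨3,[(3,2),(4,1),(26,0),(2,1)]⟩),.k,.k,[⟨0,[(17,0)]⟩,
  ⟨0,[(2,0),(2,0),(8,0),(0,0),(11,1),(11,1)]⟩,⟨0,[(17,0),(4,0)]⟩,⟨2,[(2,2),(0,0),(2,2),(7,2),(0,2),
  (11,5),(8,0),(2,4),(0,1)]⟩]⟩) (.Q [-1,0,0,0,0,0,0,0,-2,1,0,-2] (.p false [0,0,0,0,1] [1,0,0,0,-1]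
  (⟨0,[(19,0)]⟩,⟨0,[(18,0)]⟩) .k 2 (⟨0,[(18,0)]⟩,⟨0,[(19,0)]⟩) .k (.r 0 ⟨0,[]⟩ ⟨121,[(8,29),(4,29),
  (7,59),(11,5),(3,14),(0,64),(1,69)]⟩)) (.R ⟨0,false,false,true,[0,0,0,0,1],[1,0,0,0,-1],[1],(⟨0,
  [(20,0)]⟩,⟨0,[(19,0)]⟩),(⟨0,[(19,0)]⟩,⟨0,[(20,0)]⟩),⟨0,[(2,0)]⟩,.k,.k,(.r (-1) ⟨1,[(36,1),(1,0),
  (0,0)]⟩ ⟨1,[(24,0),(0,0),(11,1)]⟩),.k,.k,.k,⟨false,1,⟨1,[(38,0),(0,0)]⟩,⟨0,[(41,0)]⟩⟩,⟨true,0,⟨0,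
  [(0,0)]⟩,⟨0,[(11,0),(28,0)]⟩⟩,⟨false,1,⟨17,[(9,1),(1,1),(2,1),(2,3),(4,3),(15,0),(0,10)]⟩,⟨0,[]⟩⟩,
  ⟨true,0,⟨0,[(0,0),(40,0)]⟩,⟨0,[(11,0)]⟩⟩,⟨false,0,⟨0,[]⟩,⟨0,[]⟩⟩,⟨false,0,⟨0,[]⟩,⟨0,[]⟩⟩,[.o
  ⟨false,0,⟨5,[(0,2),(0,2),(0,2),(1,0),(23,5),(8,0),(2,1),(0,4)]⟩,⟨15,[(11,10),(5,5),(16,0),(4,
  7)]⟩⟩,.a ⟨true,0,⟨3,[(0,1),(20,0),(2,0),(4,0),(1,0)]⟩,⟨0,[(18,0)]⟩⟩ ⟨false,1,⟨1,[(38,0),(0,0)]⟩,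
  ⟨0,[(41,0)]⟩⟩ ⟨true,0,⟨0,[(0,0)]⟩,⟨3,[(11,3),(12,0),(0,0),(14,1)]⟩⟩,.a ⟨true,0,⟨0,[(18,0)]⟩,⟨1,
  [(0,0),(20,0),(2,0)]⟩⟩ ⟨true,0,⟨0,[]⟩,⟨0,[(41,0)]⟩⟩ ⟨false,0,⟨0,[(0,0)]⟩,⟨60,[(9,9),(1,60),(2,9),
  (7,19),(11,1),(3,4),(0,41),(1,2)]⟩⟩,.a ⟨true,0,⟨2,[(11,0),(2,0),(3,0),(5,1),(15,0)]⟩,⟨0,[(3,0)]⟩⟩
  ⟨false,1,⟨1,[(38,0),(0,0)]⟩,⟨1,[(24,0),(0,0)]⟩⟩ ⟨true,0,⟨2,[(0,2),(3,0),(28,0),(3,0)]⟩,⟨3,[(11,3),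
  (12,0),(0,0),(14,1)]⟩⟩]⟩) (.I [0,0,0,1,0,0,0,-1] (.I [0,0,0,0,0,1,1] (.I [0,0,1,0,0,0,0,1] (.I [1,
  0,-1,0,0,1,0,0,1] (.C [(0,0),(4,0),(1,0),(24,1),(11,1)]) (.C [(0,0),(3,0),(1,0),(0,0)])) (.C [(0,
  0),(9,0),(17,0)])) (.C [(0,0),(7,0),(9,0)])) (.C [(0,0),(6,0),(1,0)])))))

theorem ok31 : chk K t31 l22 = true := by decide +kernel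

noncomputable def t32 : Tre :=
  (.Q [0,-1,0,1,1,0,2,2,0,-2,2] (.p true [0,0,1] [2,-1,-1] (⟨0,[(26,0)]⟩,⟨0,[(25,0)]⟩) .k 2 (⟨0,
  [(25,0),(4,0)]⟩,⟨0,[(14,0)]⟩) .k (.x (-1) ⟨99,[(5,187),(2,5),(12,11),(3,199),(7,39),(3,2),(0,10),
  (1,9)]⟩ ⟨0,[(14,1),(5,1),(6,1),(11,1)]⟩)) (.I [1,0,0,0,0,0,0,1] (.I [0,0,1,0,0,0,0,-1] (.R ⟨0,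
  false,false,true,[-1,1,1],[1,0,-1],[1,1],(⟨0,[(17,0)]⟩,⟨0,[(28,0),(4,0)]⟩),(⟨0,[(28,0)]⟩,⟨0,[(29,
  0)]⟩),⟨0,[(28,0)]⟩,.k,.k,.k,(.r 0 ⟨1,[(1,3),(24,0),(0,0),(11,1)]⟩ ⟨4,[(0,4),(5,5),(1,0),(1,0),(0,
  1),(29,2)]⟩),.k,.k,⟨true,0,⟨0,[(1,0)]⟩,⟨0,[(0,0)]⟩⟩,⟨false,0,⟨3,[(3,0),(8,1),(3,3),(22,2)]⟩,⟨5,
  [(0,3),(1,2),(3,4),(1,7),(1,1),(6,0),(0,0),(11,1),(5,0),(4,0)]⟩⟩,⟨true,0,⟨0,[(0,0),(5,0)]⟩,⟨1,[(1,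
  1),(24,0),(0,0),(11,1)]⟩⟩,⟨false,0,⟨0,[(3,0)]⟩,⟨0,[(2,0)]⟩⟩,⟨false,0,⟨0,[]⟩,⟨0,[]⟩⟩,⟨false,0,⟨0,
  []⟩,⟨0,[]⟩⟩,[.o ⟨false,0,⟨0,[(25,0)]⟩,⟨23,[(2,7),(9,7),(0,0),(5,1),(16,2),(4,7)]⟩⟩,.a ⟨true,0,⟨1,
  [(3,0),(35,0)]⟩,⟨0,[(9,0)]⟩⟩ ⟨true,0,⟨0,[]⟩,⟨1,[(26,0),(0,0)]⟩⟩ ⟨false,0,⟨7,[(3,4),(8,1),(3,3),
  (22,6)]⟩,⟨11,[(2,6),(3,5),(1,9),(2,0),(24,1),(0,0)]⟩⟩,.o ⟨false,1,⟨5,[(0,3),(1,2),(3,4),(1,1),(1,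
  1),(6,0),(0,0),(11,1),(5,0),(4,0)]⟩,⟨0,[(16,0),(9,0)]⟩⟩,.o ⟨false,1,⟨5,[(2,0),(5,3),(2,0),(24,1),
  (0,0)]⟩,⟨7,[(3,0),(8,1),(3,3),(22,2)]⟩⟩]⟩) (.I [0,0,0,1,0,0,0,-1] (.I [0,0,0,0,0,1,1] (.C [(0,0),
  (0,0),(0,2),(2,0),(4,0),(8,1),(0,0),(11,3),(11,2)]) (.C [(0,0),(9,0),(9,0)])) (.C [(0,0),(8,0),(1,
  0)]))) (.I [0,0,1,0,0,0,0,0,1] (.I [0,0,1,0,0,0,0,1] (.I [0,0,-1,0,0,1,-1] (.C [(0,0),(2,0),(7,0),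
  (8,0),(11,1),(11,0)]) (.C [(0,0),(18,0),(5,0)])) (.C [(0,0),(9,0),(17,0)])) (.C [(0,0),(4,0),(15,
  0)]))) (.I [0,0,1,0,0,0,0,0,1] (.I [0,0,0,1,0,0,0,-1] (.I [0,0,0,0,0,1,1] (.I [0,0,1,0,0,0,0,1]
  (.I [0,0,-1,0,0,1,-1] (.I [-1,-1,0,0,1,0,0,0,-1] (.I [0,0,0,0,0,1,1,1] (.C [(0,0),(6,0),(3,0),(2,
  0),(7,1),(0,0),(11,3),(8,1),(1,0),(0,1)]) (.C [(0,0),(13,0),(8,0)])) (.C [(0,0),(7,0),(17,0)]))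
  (.C [(0,0),(19,0),(5,0)])) (.C [(0,0),(10,0),(17,0)])) (.C [(0,0),(8,0),(9,0)])) (.C [(0,0),(7,0),
  (1,0)])) (.C [(0,0),(3,0),(15,0)])))

theorem ok32 : chk K t32 l24 = true := by decide +kernel

noncomputable def t33 : Tre :=
  (.Q [1,0,0,-1,0,0,0,0,1,0,0,1] (.p true [0,0,0,0,1] [] (⟨0,[(20,0)]⟩,⟨0,[(19,0)]⟩) .k 0 (⟨0,[]⟩,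
  ⟨0,[]⟩) .k .k) (.Q [1,0,0,0,0,0,0,0,1,-1,0,1] (.p true [0,0,0,0,1] [1] (⟨0,[(21,0)]⟩,⟨0,[(20,
  0)]⟩) .k 1 (⟨0,[]⟩,⟨0,[]⟩) .k .k) (.R ⟨0,false,false,false,[1,0,-1],[1,0,0,0,-1],[1],(⟨0,[(28,
  0)]⟩,⟨0,[(29,0)]⟩),(⟨0,[(21,0)]⟩,⟨0,[(22,0)]⟩),⟨0,[(17,0)]⟩,.k,.k,.k,.k,.k,.k,⟨true,0,⟨0,[]⟩,⟨0,
  [(42,0)]⟩⟩,⟨false,1,⟨0,[(7,0),(0,0)]⟩,⟨3,[(0,1),(12,0),(2,0),(6,1),(18,1)]⟩⟩,⟨true,0,⟨5,[(3,1),(8,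
  1),(3,2),(0,0),(0,0),(11,1)]⟩,⟨0,[(8,0),(16,0)]⟩⟩,⟨false,1,⟨0,[(4,0),(4,0)]⟩,⟨0,[(1,0),(8,0)]⟩⟩,
  ⟨false,0,⟨0,[]⟩,⟨0,[]⟩⟩,⟨false,0,⟨0,[]⟩,⟨0,[]⟩⟩,[.o ⟨false,1,⟨0,[(15,0)]⟩,⟨0,[(0,0)]⟩⟩,.o ⟨false,
  1,⟨0,[(4,0)]⟩,⟨4,[(3,0),(1,0),(7,1),(11,1),(9,0),(2,0)]⟩⟩,.a ⟨true,0,⟨1,[(16,0),(6,0),(2,0)]⟩,⟨0,
  [(8,0)]⟩⟩ ⟨true,0,⟨0,[]⟩,⟨0,[(43,0)]⟩⟩ ⟨false,1,⟨0,[(4,0),(3,0)]⟩,⟨1,[(13,0),(2,0)]⟩⟩,.o ⟨false,0,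
  ⟨0,[(27,0)]⟩,⟨36,[(3,1),(4,30),(2,2),(0,1),(23,6),(3,19)]⟩⟩]⟩) (.R ⟨0,false,false,false,[0,1,-1],
  [0,1],[0,0,1],(⟨0,[(18,0)]⟩,⟨0,[(29,0),(3,0)]⟩),(⟨0,[(34,0)]⟩,⟨0,[(33,0)]⟩),⟨0,[(29,0)]⟩,.k,.k,.k,
  .k,.k,.k,⟨false,1,⟨1,[(38,1),(1,0),(0,0)]⟩,⟨0,[(39,0)]⟩⟩,⟨true,0,⟨0,[(8,0)]⟩,⟨0,[(27,0)]⟩⟩,⟨false,
  1,⟨5,[(12,3),(1,1),(1,0),(10,1),(8,0),(4,3)]⟩,⟨0,[(8,0),(1,0)]⟩⟩,⟨true,0,⟨0,[(9,0)]⟩,⟨0,[(25,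
  0)]⟩⟩,⟨false,0,⟨0,[]⟩,⟨0,[]⟩⟩,⟨false,0,⟨0,[]⟩,⟨0,[]⟩⟩,[.a ⟨true,0,⟨0,[(39,0)]⟩,⟨0,[(0,0),(0,0)]⟩⟩
  ⟨true,0,⟨1,[(26,0),(0,0)]⟩,⟨0,[]⟩⟩ ⟨false,0,⟨0,[(8,0),(30,0)]⟩,⟨9,[(6,1),(9,4),(19,0),(1,7),(1,2),
  (0,4)]⟩⟩,.o ⟨false,1,⟨15,[(13,0),(5,1),(16,2),(2,15),(1,7)]⟩,⟨0,[(38,0)]⟩⟩,.o ⟨false,1,⟨2,[(16,0),
  (6,0),(12,0),(3,0)]⟩,⟨0,[(26,0)]⟩⟩,.o ⟨false,1,⟨61,[(11,7),(1,0),(1,1),(0,38),(7,15),(11,19),(3,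
  3),(0,7)]⟩,⟨0,[(8,0)]⟩⟩]⟩)) (.Q [1,-1,0,0,0,0,1,1,1,-1,1,1] (.p true [0,0,1] [1,0,0,0,-1] (⟨0,
  [(28,0)]⟩,⟨0,[(27,0)]⟩) .k 2 (⟨0,[(20,0)]⟩,⟨0,[(21,0)]⟩) .k (.r 0 ⟨5,[(2,1),(8,1),(3,2),(0,0),(0,
  0),(11,1)]⟩ ⟨3,[(10,1),(3,0),(4,0),(19,0)]⟩)) (.R ⟨0,false,false,true,[0,0,1],[1,0,0,0,-1],[-1,1,
  1],(⟨0,[(29,0)]⟩,⟨0,[(28,0)]⟩),(⟨0,[(21,0)]⟩,⟨0,[(22,0)]⟩),⟨0,[(18,0)]⟩,.k,.k,.k,.k,.k,.k,⟨true,0,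
  ⟨1,[(26,0),(0,0)]⟩,⟨0,[]⟩⟩,⟨false,1,⟨0,[(19,0),(3,0)]⟩,⟨4,[(0,1),(4,2),(0,1),(1,4),(1,1),(31,
  0)]⟩⟩,⟨true,0,⟨1,[(8,0),(16,1),(0,0),(15,0)]⟩,⟨1,[(0,0),(0,0),(12,0),(8,0)]⟩⟩,⟨false,1,⟨6,[(1,3),
  (2,2),(6,3),(0,0),(3,1),(6,3),(14,2)]⟩,⟨0,[(0,0)]⟩⟩,⟨false,0,⟨0,[]⟩,⟨0,[]⟩⟩,⟨false,0,⟨0,[]⟩,⟨0,
  []⟩⟩,[.o ⟨false,0,⟨0,[(1,0),(36,0)]⟩,⟨15,[(13,10),(5,5),(16,0),(4,7)]⟩⟩,.o ⟨false,1,⟨0,[(15,0)]⟩,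
  ⟨2,[(0,0),(4,1),(0,0),(3,0)]⟩⟩,.a ⟨true,0,⟨0,[(8,0)]⟩,⟨1,[(16,0),(6,0),(2,0)]⟩⟩ ⟨false,0,⟨0,[(42,
  0)]⟩,⟨1,[(40,0),(0,0)]⟩⟩ ⟨true,0,⟨1,[(1,1),(10,0),(3,0),(8,0),(12,0)]⟩,⟨2,[(0,0),(4,1),(0,0),(1,
  2),(1,0)]⟩⟩,.e ⟨true,0,⟨0,[(43,0)]⟩,⟨0,[]⟩⟩ ⟨true,0,⟨0,[(1,0),(21,0),(14,0)]⟩,⟨0,[(5,0),(2,
  0)]⟩⟩]⟩) (.I [0,-1,2,2,0,0,0,-1] (.Q [0,0,0,0,0,-2,0,0,0,1,1] (.p true [1,-1,1] [] (⟨0,[(30,0),(3,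
  0)]⟩,⟨0,[(19,0)]⟩) .k 0 (⟨0,[]⟩,⟨0,[]⟩) .k .k) (.S ⟨1,0,[0,0,-1,-1,0,0,0,1],[1,-1,1],[0,0,1],(⟨29,
  [(0,14),(0,3),(0,1),(1,1),(5,0),(3,5),(10,6),(5,14),(5,0)]⟩,⟨0,[(20,0)]⟩),⟨0,[(0,0)]⟩,.k,(.r (-1)
  ⟨1,[(8,0),(7,1),(23,0),(2,1)]⟩ ⟨0,[(1,0),(43,0)]⟩),⟨true,0,⟨0,[(1,0),(38,0)]⟩,⟨5,[(5,1),(2,5),(5,
  1),(3,2),(0,0),(0,0),(11,1)]⟩⟩,⟨false,1,⟨17,[(13,1),(1,1),(2,1),(2,3),(4,3),(15,0),(0,10)]⟩,⟨0,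
  []⟩⟩,⟨false,0,⟨0,[(1,0)]⟩,⟨1,[(8,0),(7,1),(23,0),(2,1)]⟩⟩,⟨true,0,⟨0,[(41,0)]⟩,⟨0,[(40,0)]⟩⟩,[.a
  ⟨true,0,⟨0,[(14,0)]⟩,⟨0,[(12,0)]⟩⟩ ⟨true,0,⟨1,[(28,0),(0,0)]⟩,⟨0,[]⟩⟩ ⟨false,1,⟨1,[(16,1),(25,0),
  (0,0)]⟩,⟨1,[(1,0),(8,0),(16,0)]⟩⟩,.o ⟨false,1,⟨15,[(14,15),(0,0),(5,1),(16,2),(4,7)]⟩,⟨6,[(3,3),
  (1,0),(1,3),(0,1),(3,3),(6,0),(0,0),(6,4),(4,1)]⟩⟩,.o ⟨false,0,⟨0,[(28,0)]⟩,⟨2,[(18,0),(6,0),(12,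
  0),(3,0)]⟩⟩,.o ⟨false,0,⟨1,[(28,2),(0,0)]⟩,⟨33,[(5,3),(2,13),(3,7),(12,33),(12,11),(2,1),(0,2),(0,
  6)]⟩⟩]⟩) (.Q [1,0,0,0,0,0,0,0,1,-1,0,1] (.p true [0,0,0,0,1] [1] (⟨0,[(24,0)]⟩,⟨0,[(23,0)]⟩) .k 1
  (⟨0,[]⟩,⟨0,[]⟩) .k .k) (.I [-1,0,0,0,0,0,0,1] (.Q [1,0,0,0,0,0,-1,-1,1,0,-1,1] (.p false [0,0,1]
  [0,0,0,0,1] (⟨0,[(33,0)]⟩,⟨0,[(32,0)]⟩) .k 2 (⟨0,[(26,0)]⟩,⟨0,[(25,0)]⟩) .k (.r 0 ⟨0,[(0,0)]⟩ ⟨17,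
  [(15,9),(1,0),(2,0),(2,1),(4,1),(15,4),(0,0)]⟩)) (.R ⟨0,false,false,false,[1,0,-1],[1,0,0,0,-1],
  [1],(⟨0,[(33,0)]⟩,⟨0,[(34,0)]⟩),(⟨0,[(26,0)]⟩,⟨0,[(27,0)]⟩),⟨0,[(22,0)]⟩,.k,.k,.k,.k,.k,.k,⟨true,
  0,⟨0,[]⟩,⟨0,[(47,0)]⟩⟩,⟨false,1,⟨0,[(12,0),(0,0)]⟩,⟨3,[(0,1),(0,1),(16,0),(2,0)]⟩⟩,⟨true,0,⟨0,[(1,
  0)]⟩,⟨0,[(13,0),(16,0)]⟩⟩,⟨false,1,⟨3,[(6,0),(1,0),(0,1),(7,1),(6,0),(21,0)]⟩,⟨0,[(0,0)]⟩⟩,⟨false,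
  0,⟨0,[]⟩,⟨0,[]⟩⟩,⟨false,0,⟨0,[]⟩,⟨0,[]⟩⟩,[.o ⟨false,1,⟨0,[(20,0)]⟩,⟨0,[(2,0)]⟩⟩,.o ⟨false,1,⟨0,
  [(9,0)]⟩,⟨4,[(8,0),(1,0),(7,1),(11,1),(9,0),(2,0)]⟩⟩,.a ⟨true,0,⟨30,[(0,1),(3,3),(0,1),(11,7),(3,
  13),(6,6),(11,0)]⟩,⟨0,[(13,0)]⟩⟩ ⟨true,0,⟨0,[]⟩,⟨0,[(48,0)]⟩⟩ ⟨false,1,⟨0,[(9,0),(3,0)]⟩,⟨1,[(18,
  0),(2,0)]⟩⟩,.o ⟨false,0,⟨0,[(32,0)]⟩,⟨36,[(8,1),(4,30),(2,2),(0,1),(23,6),(3,19)]⟩⟩]⟩) (.I [1,0,0,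
  0,0,0,0,0,1] (.I [0,0,-1,0,0,0,0,1] (.I [-1,0,0,1,0,0,0,0,-1] (.I [0,0,-1,0,0,1,-1] (.C [(0,0),(3,
  0),(2,0),(0,0),(2,0),(3,0),(16,0),(6,2),(11,1)]) (.C [(0,0),(25,0),(5,0)])) (.C [(0,0),(2,0),(14,
  0),(11,0)])) (.C [(0,0),(1,0),(1,0),(25,0)])) (.C [(0,0),(2,0),(23,0)]))) (.R ⟨0,false,false,
  false,[1,0,-1],[1,0,0,0,-1],[1],(⟨0,[(32,0)]⟩,⟨0,[(33,0)]⟩),(⟨0,[(25,0)]⟩,⟨0,[(26,0)]⟩),⟨0,[(21,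
  0)]⟩,.k,.k,.k,.k,.k,.k,⟨true,0,⟨0,[]⟩,⟨0,[(46,0)]⟩⟩,⟨false,1,⟨0,[(11,0),(0,0)]⟩,⟨3,[(1,1),(15,0),
  (2,0),(6,1),(18,1)]⟩⟩,⟨true,0,⟨11,[(2,0),(4,3),(8,3),(3,5),(0,0),(12,2)]⟩,⟨3,[(0,2),(28,0),(0,0),
  (8,0),(7,0)]⟩⟩,⟨false,1,⟨3,[(5,0),(1,0),(0,1),(7,1),(6,0),(21,0)]⟩,⟨3,[(0,3),(0,1),(15,0),(2,0),
  (6,1),(18,1)]⟩⟩,⟨false,0,⟨0,[]⟩,⟨0,[]⟩⟩,⟨false,0,⟨0,[]⟩,⟨0,[]⟩⟩,[.o ⟨false,1,⟨0,[(19,0)]⟩,⟨0,[(1,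
  0)]⟩⟩,.o ⟨false,1,⟨0,[(8,0)]⟩,⟨4,[(7,0),(1,0),(7,1),(11,1),(9,0),(2,0)]⟩⟩,.a ⟨true,0,⟨8,[(3,0),(0,
  0),(11,1),(3,3),(3,0),(2,1)]⟩,⟨0,[(12,0)]⟩⟩ ⟨true,0,⟨0,[]⟩,⟨0,[(47,0)]⟩⟩ ⟨false,1,⟨0,[(8,0),(3,
  0)]⟩,⟨1,[(17,0),(2,0)]⟩⟩,.o ⟨false,0,⟨0,[(31,0)]⟩,⟨36,[(7,1),(4,30),(2,2),(0,1),(23,6),(3,
  19)]⟩⟩]⟩)) (.I [1,0,0,1,0,0,0,0,1] (.I [0,0,0,0,0,1,1] (.I [0,0,1,0,0,0,0,0,1] (.I [-1,0,0,1,0,0,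
  0,0,-1] (.I [0,0,-1,0,0,1,-1] (.I [0,0,0,-1,0,2,1] (.C [(0,2),(0,2),(6,1),(3,0),(2,1),(16,1),(6,
  8),(11,4)]) (.C [(0,0),(5,0),(0,0),(3,0)])) (.C [(0,0),(24,0),(5,0)])) (.C [(0,0),(7,0),(20,0)]))
  (.C [(0,0),(10,0),(15,0)])) (.C [(0,0),(2,0),(2,0),(0,0),(30,0)])) (.C [(0,1),(5,0),(0,0),(1,0),
  (4,1),(10,1),(1,0)])))) (.Q [0,0,-1,0,0,0,0,1,-1,1,0,-1] (.p false [0,0,0,0,1] [1] (⟨0,[(23,0)]⟩,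
  ⟨0,[(22,0)]⟩) .k 1 (⟨0,[]⟩,⟨0,[]⟩) .k .k) (.Q [1,0,0,0,0,0,0,0,1,-1,0,1] (.p true [0,0,0,0,1] [1]
  (⟨0,[(24,0)]⟩,⟨0,[(23,0)]⟩) .k 1 (⟨0,[]⟩,⟨0,[]⟩) .k .k) (.Q [1,0,0,0,0,0,-1,-1,1,0,-1,1] (.p
  false [0,0,1] [0,0,0,0,1] (⟨0,[(32,0)]⟩,⟨0,[(31,0)]⟩) .k 2 (⟨0,[(25,0)]⟩,⟨0,[(24,0)]⟩) .k (.r 0
  ⟨0,[(0,0),(0,0),(43,0)]⟩ ⟨17,[(14,9),(1,0),(2,0),(2,1),(4,1),(15,4),(0,0)]⟩)) (.R ⟨0,false,false,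
  false,[1,0,-1],[1,0,0,0,-1],[1],(⟨0,[(32,0)]⟩,⟨0,[(33,0)]⟩),(⟨0,[(25,0)]⟩,⟨0,[(26,0)]⟩),⟨0,[(21,
  0)]⟩,.k,.k,.k,.k,.k,.k,⟨true,0,⟨0,[]⟩,⟨0,[(46,0)]⟩⟩,⟨false,1,⟨0,[(11,0),(0,0)]⟩,⟨3,[(1,1),(15,0),
  (2,0),(6,1),(18,1)]⟩⟩,⟨true,0,⟨3,[(1,0),(0,0),(4,0),(8,0),(3,0),(10,0)]⟩,⟨0,[(12,0),(16,0)]⟩⟩,
  ⟨false,1,⟨4,[(2,0),(4,0),(0,3),(7,0),(11,0),(1,0),(14,0)]⟩,⟨0,[(0,0)]⟩⟩,⟨false,0,⟨0,[]⟩,⟨0,[]⟩⟩,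
  ⟨false,0,⟨0,[]⟩,⟨0,[]⟩⟩,[.o ⟨false,1,⟨0,[(19,0)]⟩,⟨0,[(1,0)]⟩⟩,.o ⟨false,1,⟨0,[(8,0)]⟩,⟨4,[(7,0),
  (1,0),(7,1),(11,1),(9,0),(2,0)]⟩⟩,.a ⟨true,0,⟨1,[(20,0),(6,0),(2,0)]⟩,⟨0,[(12,0)]⟩⟩ ⟨true,0,⟨0,
  []⟩,⟨0,[(47,0)]⟩⟩ ⟨false,1,⟨0,[(8,0),(3,0)]⟩,⟨1,[(17,0),(2,0)]⟩⟩,.o ⟨false,0,⟨0,[(31,0)]⟩,⟨36,[(7,
  1),(4,30),(2,2),(0,1),(23,6),(3,19)]⟩⟩]⟩) (.Q [0,0,1,0,0,0,2,0,0,-1,2] (.p true [0,0,1] [1,0,-1]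
  (⟨0,[(33,0)]⟩,⟨0,[(32,0)]⟩) .k 2 (⟨0,[(32,0)]⟩,⟨0,[(33,0)]⟩) .k (.r 0 ⟨1,[(0,0),(0,0),(5,0),(8,0),
  (3,1)]⟩ ⟨4,[(10,1),(1,1),(1,1),(0,3),(29,0)]⟩)) (.Q [0,-1,0,0,1,0,-2,-2,0,1,-2] (.p false [0,0,1]
  [1,0,-1] (⟨0,[(34,0)]⟩,⟨0,[(33,0)]⟩) .k 2 (⟨0,[(33,0)]⟩,⟨0,[(34,0)]⟩) .k (.r 0 ⟨1,[(1,0),(0,0),(5,
  0),(8,0),(3,1)]⟩ ⟨4,[(11,1),(1,1),(1,1),(0,3),(29,0)]⟩)) (.R ⟨0,false,false,false,[0,0,1],[1,0,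
  -1],[1,1],(⟨0,[(35,0)]⟩,⟨0,[(34,0)]⟩),(⟨0,[(34,0)]⟩,⟨0,[(35,0)]⟩),⟨0,[(24,0)]⟩,.k,.k,.k,.k,.k,.k,
  ⟨false,0,⟨6,[(9,1),(10,1),(1,0),(6,2),(0,0),(10,1)]⟩,⟨4,[(12,0),(1,0),(1,0),(0,1),(29,2)]⟩⟩,⟨true,
  0,⟨0,[(22,0)]⟩,⟨0,[(1,0)]⟩⟩,⟨true,0,⟨0,[(14,0),(16,0)]⟩,⟨3,[(2,0),(0,0),(5,0),(8,0),(3,1)]⟩⟩,
  ⟨false,1,⟨0,[(0,0)]⟩,⟨1,[(2,0),(0,0),(5,0),(8,0)]⟩⟩,⟨false,0,⟨0,[]⟩,⟨0,[]⟩⟩,⟨false,0,⟨0,[]⟩,⟨0,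
  []⟩⟩,[.o ⟨false,1,⟨31,[(17,15),(1,0),(2,15),(2,1),(16,2),(3,7)]⟩,⟨0,[(2,0),(0,0)]⟩⟩,.o ⟨false,1,
  ⟨31,[(0,15),(18,0),(5,1),(16,2),(4,7)]⟩,⟨1,[(9,0),(34,0),(4,0)]⟩⟩,.e ⟨false,0,⟨0,[]⟩,⟨6,[(0,0),
  (18,0),(5,1),(4,1),(16,3)]⟩⟩ ⟨false,1,⟨13,[(0,7),(18,0),(2,6),(2,1),(4,1),(16,3)]⟩,⟨0,[(2,0),(0,
  0),(10,0)]⟩⟩,.a ⟨true,0,⟨0,[(32,0)]⟩,⟨0,[(29,0)]⟩⟩ ⟨true,0,⟨2,[(12,0),(28,0),(3,0)]⟩,⟨1,[(32,0),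
  (0,0)]⟩⟩ ⟨false,1,⟨11,[(0,5),(21,0),(6,9),(12,0),(3,0),(0,2)]⟩,⟨2,[(1,1),(7,0),(8,0),(14,0)]⟩⟩]⟩)
  (.I [0,0,-1,0,0,1,-1] (.C [(0,0),(0,0),(5,0),(1,0),(7,0),(7,0),(11,1),(10,0),(0,0)]) (.C [(0,0),
  (23,0),(5,0)]))) (.Q [0,0,0,0,0,-1,0,0,0,0,2] (.ed false [1,-1,2] .k) (.Q [0,0,1,0,0,0,3,0,0,-1,
  3] (.p true [0,0,1] [1,1,-2] (⟨0,[(35,0)]⟩,⟨0,[(34,0)]⟩) .k 2 (⟨0,[(24,0),(9,0)]⟩,⟨0,[(0,0)]⟩)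
  (.x (-1) ⟨15,[(0,15),(18,0),(2,15),(2,1),(16,2),(3,7)]⟩ ⟨0,[(14,1),(9,1),(11,0),(11,0)]⟩) (.r 0
  ⟨0,[(1,0),(7,0),(8,0),(14,0)]⟩ ⟨9,[(6,9),(1,9),(3,7),(1,17),(1,17),(0,0),(5,9),(0,9),(11,19),(10,
  8),(0,14)]⟩)) (.K ⟨0,[1,1,-2],0,0,(⟨0,[(25,0),(9,0)]⟩,⟨0,[(1,0)]⟩),(.x (-1) ⟨15,[(1,15),(18,0),(2,
  15),(2,1),(16,2),(3,7)]⟩ ⟨2,[(0,1),(24,3),(9,1),(1,0),(11,0)]⟩),(.r (-1) ⟨4,[(0,0),(12,1),(3,1),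
  (0,3),(11,0),(17,0)]⟩ ⟨2,[(2,1),(7,1),(8,1),(14,1)]⟩),(.r 0 ⟨0,[(17,1),(15,1)]⟩ ⟨0,[(21,1),(26,
  0)]⟩),(.r (-1) ⟨1,[(0,0),(16,1),(0,1),(11,0)]⟩ ⟨1,[(2,2),(0,4),(0,3),(4,0),(9,0),(14,0)]⟩),.k,[⟨0,
  [(0,0)]⟩,⟨0,[(23,0)]⟩,⟨20,[(0,2),(5,3),(3,13),(8,9),(14,4),(10,16)]⟩,⟨0,[(7,0),(9,0),(9,0)]⟩]⟩)
  (.I [1,0,0,0,0,0,0,0,1] (.I [0,0,0,0,0,1,1] (.I [0,0,0,1,0,0,0,-1] (.C [(0,0),(0,0),(1,0),(2,0),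
  (5,0),(14,0),(12,1),(11,0)]) (.C [(0,0),(5,0),(5,0),(7,1)])) (.C [(0,0),(4,0),(5,0),(7,0),(7,
  0)])) (.C [(0,0),(4,0),(23,0)]))) (.I [1,0,0,0,0,0,0,0,1] (.I [0,0,0,1,0,0,0,-1] (.C [(0,1),(1,0),
  (0,1),(0,1),(5,1),(14,1),(12,2),(11,1)]) (.C [(0,0),(3,0),(5,0),(7,1)])) (.C [(0,0),(3,0),(23,
  0)]))))) (.R ⟨0,false,false,true,[0,1,-1],[0,0,0,0,1],[2,1],(⟨0,[(21,0)]⟩,⟨0,[(32,0),(3,0)]⟩),(⟨0,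
  [(25,0)]⟩,⟨0,[(24,0)]⟩),⟨0,[(32,0)]⟩,.k,.k,.k,(.r 0 ⟨1,[(11,0),(1,1),(15,0),(15,0)]⟩ ⟨11,[(15,9),
  (1,1),(1,4),(19,2),(3,4),(0,0)]⟩),.k,.k,⟨true,0,⟨0,[]⟩,⟨1,[(29,0),(0,0)]⟩⟩,⟨false,0,⟨0,[(11,0),
  (11,0)]⟩,⟨4,[(1,0),(1,0),(3,0),(2,1),(8,0),(6,1),(12,0)]⟩⟩,⟨true,0,⟨0,[(17,0)]⟩,⟨1,[(11,0),(1,1),
  (15,0),(15,0)]⟩⟩,⟨false,0,⟨0,[(1,0),(3,0),(2,0)]⟩,⟨0,[(7,0),(5,0)]⟩⟩,⟨false,0,⟨0,[]⟩,⟨0,[]⟩⟩,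
  ⟨false,0,⟨0,[]⟩,⟨0,[]⟩⟩,[.o ⟨false,0,⟨4,[(6,0),(1,0),(7,1),(11,1),(9,0),(2,0)]⟩,⟨0,[(7,0)]⟩⟩,.a
  ⟨true,0,⟨0,[(23,0)]⟩,⟨0,[(0,0)]⟩⟩ ⟨true,0,⟨0,[]⟩,⟨0,[(45,0)]⟩⟩ ⟨false,0,⟨0,[(11,0),(11,0)]⟩,⟨18,
  [(1,2),(0,1),(0,4),(0,3),(2,6),(11,6),(19,2),(3,5)]⟩⟩,.o ⟨false,1,⟨2,[(19,0),(6,0),(12,0),(3,0)]⟩,
  ⟨0,[(29,0)]⟩⟩,.o ⟨false,1,⟨61,[(14,7),(1,0),(1,1),(0,38),(7,15),(11,19),(3,3),(0,7)]⟩,⟨0,[(11,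
  0)]⟩⟩]⟩)) (.Q [1,0,0,0,0,0,0,0,1,-1,0,1] (.p true [0,0,0,0,1] [1] (⟨0,[(24,0)]⟩,⟨0,[(23,0)]⟩) .k
  1 (⟨0,[]⟩,⟨0,[]⟩) .k .k) (.R ⟨0,false,false,false,[1,0,-1],[1,0,0,0,-1],[1],(⟨0,[(31,0)]⟩,⟨0,[(32,
  0)]⟩),(⟨0,[(24,0)]⟩,⟨0,[(25,0)]⟩),⟨0,[(20,0)]⟩,.k,.k,.k,.k,.k,.k,⟨true,0,⟨0,[]⟩,⟨0,[(45,0)]⟩⟩,
  ⟨false,1,⟨0,[(10,0),(0,0)]⟩,⟨3,[(0,1),(15,0),(2,0),(6,1),(18,1)]⟩⟩,⟨true,0,⟨5,[(6,1),(8,1),(3,2),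
  (0,0),(0,0),(11,1)]⟩,⟨8,[(1,3),(1,3),(5,0),(1,4),(1,0),(24,1)]⟩⟩,⟨false,1,⟨3,[(4,0),(1,0),(0,1),
  (7,1),(6,0),(21,0)]⟩,⟨0,[(1,0),(24,0)]⟩⟩,⟨false,0,⟨0,[]⟩,⟨0,[]⟩⟩,⟨false,0,⟨0,[]⟩,⟨0,[]⟩⟩,[.o
  ⟨false,1,⟨0,[(18,0)]⟩,⟨0,[(0,0)]⟩⟩,.o ⟨false,1,⟨0,[(7,0)]⟩,⟨14,[(1,0),(0,0),(3,1),(1,5),(7,3),(11,
  3),(9,4)]⟩⟩,.a ⟨true,0,⟨1,[(19,0),(6,0),(2,0)]⟩,⟨0,[(11,0)]⟩⟩ ⟨true,0,⟨0,[]⟩,⟨0,[(46,0)]⟩⟩ ⟨false,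
  1,⟨0,[(7,0),(3,0)]⟩,⟨1,[(16,0),(2,0)]⟩⟩,.o ⟨false,0,⟨0,[(30,0)]⟩,⟨36,[(6,1),(4,30),(2,2),(0,1),
  (23,6),(3,19)]⟩⟩]⟩) (.I [0,0,1,0,0,0,0,0,1] (.I [-1,0,0,1,0,0,0,0,-1] (.I [0,0,0,0,0,1,1] (.I [-1,
  0,1,0,0,0,0,-1] (.I [0,0,-1,0,0,1,-1] (.C [(0,1),(0,1),(3,0),(4,0),(0,0),(14,1),(4,0),(6,3),(11,
  0)]) (.C [(0,0),(24,0),(5,0)])) (.C [(0,0),(3,0),(0,0)])) (.C [(0,0),(6,0),(0,0),(15,0)])) (.C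
  [(0,0),(5,0),(20,0)])) (.C [(0,0),(8,0),(15,0)])))))))

theorem ok33 : chk K t33 l25 = true := by decide +kernel

noncomputable def t34 : Tre :=
  (.Q [1,-1,0,0,0,0,1,1,1,-1,1,1] (.p true [0,0,1] [1,0,0,0,-1] (⟨0,[(27,0)]⟩,⟨0,[(26,0)]⟩) .k 2
  (⟨0,[(19,0)]⟩,⟨0,[(20,0)]⟩) .k (.r 0 ⟨5,[(1,1),(8,1),(3,2),(0,0),(0,0),(11,1)]⟩ ⟨3,[(9,1),(3,0),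
  (4,0),(19,0)]⟩)) (.R ⟨0,false,false,true,[0,0,1],[1,0,0,0,-1],[-1,1,1],(⟨0,[(28,0)]⟩,⟨0,[(27,
  0)]⟩),(⟨0,[(20,0)]⟩,⟨0,[(21,0)]⟩),⟨0,[(17,0)]⟩,.k,.k,.k,.k,.k,.k,⟨true,0,⟨1,[(25,0),(0,0)]⟩,⟨0,
  []⟩⟩,⟨false,1,⟨0,[(18,0),(3,0)]⟩,⟨4,[(0,1),(3,2),(0,1),(1,4),(1,1),(31,0)]⟩⟩,⟨true,0,⟨1,[(7,0),
  (16,1),(0,0),(15,0)]⟩,⟨5,[(0,1),(0,1),(0,0),(2,0),(5,0),(1,0),(8,2)]⟩⟩,⟨false,1,⟨2,[(1,1),(1,0),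
  (6,1),(0,0),(10,1),(14,0)]⟩,⟨0,[(0,0)]⟩⟩,⟨false,0,⟨0,[]⟩,⟨0,[]⟩⟩,⟨false,0,⟨0,[]⟩,⟨0,[]⟩⟩,[.o
  ⟨false,0,⟨0,[(1,0),(5,0),(29,0)]⟩,⟨15,[(12,10),(5,5),(16,0),(4,7)]⟩⟩,.o ⟨false,1,⟨0,[(14,0)]⟩,⟨2,
  [(0,0),(3,1),(0,0),(3,0)]⟩⟩,.a ⟨true,0,⟨0,[(7,0)]⟩,⟨1,[(15,0),(6,0),(2,0)]⟩⟩ ⟨false,0,⟨0,[(41,
  0)]⟩,⟨1,[(39,0),(0,0)]⟩⟩ ⟨true,0,⟨0,[(1,0),(9,0),(12,0)]⟩,⟨2,[(0,0),(3,1),(0,0),(1,2),(1,0)]⟩⟩,.e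
  ⟨true,0,⟨0,[(42,0)]⟩,⟨0,[]⟩⟩ ⟨true,0,⟨2,[(1,2),(3,0),(1,0),(3,1),(10,0),(1,1)]⟩,⟨0,[(4,0),(2,
  0)]⟩⟩]⟩) (.I [0,0,-1,-1,0,0,0,3] (.Q [0,0,0,0,0,0,0,0,0,1,-2] (.ed true [0,0,2] (.r 0 ⟨3,[(0,0),
  (2,1),(8,0),(3,2),(9,0)]⟩ ⟨4,[(6,1),(1,1),(1,1),(0,3),(29,0)]⟩)) (.Q [0,-1,-1,0,0,0,1,2,0,0,1]
  (.p true [0,0,1] [] (⟨0,[(30,0)]⟩,⟨0,[(29,0)]⟩) .k 0 (⟨0,[]⟩,⟨0,[]⟩) .k .k) (.R ⟨0,false,false,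
  false,[0,0,1],[0,0,2],[1],(⟨0,[(31,0)]⟩,⟨0,[(30,0)]⟩),(⟨0,[(31,1)]⟩,⟨0,[(1,0)]⟩),⟨0,[(20,0)]⟩,.k,
  .k,.k,.k,.k,.k,⟨false,1,⟨4,[(8,3),(1,3),(1,3),(0,2),(29,1)]⟩,⟨8,[(0,0),(1,2),(2,2),(12,5),(7,0),
  (1,3)]⟩⟩,⟨true,0,⟨0,[(10,0)]⟩,⟨0,[(29,0)]⟩⟩,⟨false,1,⟨4,[(8,0),(1,0),(1,0),(0,1),(29,2)]⟩,⟨17,[(0,
  0),(1,2),(2,2),(12,5),(7,0),(1,3)]⟩⟩,⟨true,0,⟨0,[(11,0)]⟩,⟨0,[(27,0)]⟩⟩,⟨false,0,⟨0,[]⟩,⟨0,[]⟩⟩,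
  ⟨false,0,⟨0,[]⟩,⟨0,[]⟩⟩,[.o ⟨false,0,⟨1,[(0,0),(4,0),(22,0),(11,0)]⟩,⟨0,[(27,1),(15,0)]⟩⟩,.e
  ⟨false,1,⟨1,[(42,0),(0,0)]⟩,⟨0,[(45,0)]⟩⟩ ⟨false,0,⟨0,[(0,0)]⟩,⟨27,[(13,18),(4,4),(8,17),(9,4),(0,
  0),(3,6)]⟩⟩,.a ⟨true,0,⟨0,[(10,0)]⟩,⟨1,[(18,0),(6,0),(2,0)]⟩⟩ ⟨true,0,⟨0,[]⟩,⟨0,[(45,0)]⟩⟩ ⟨false,
  0,⟨1,[(0,1),(27,0),(0,0)]⟩,⟨3,[(8,0),(3,0),(0,1),(13,2),(15,1)]⟩⟩,.e ⟨false,1,⟨1,[(42,0),(0,0)]⟩,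
  ⟨1,[(28,0),(0,0)]⟩⟩ ⟨false,0,⟨0,[(0,0)]⟩,⟨2,[(13,1),(13,1),(1,0),(13,0)]⟩⟩]⟩) (.I [1,-1,0,0,1,0,0,
  -2] (.Q [0,0,1,0,0,0,-2,0,0,0,-2] (.p false [0,0,1] [0,1,-1] (⟨0,[(32,0)]⟩,⟨0,[(31,0)]⟩) .k 2 (⟨0,
  [(21,0)]⟩,⟨0,[(32,0),(3,0)]⟩) .k (.r 0 ⟨3,[(3,0),(2,1),(8,0),(3,2),(9,0)]⟩ ⟨2,[(0,1),(13,0),(23,
  0)]⟩)) (.R ⟨0,false,false,false,[1,0,-2],[1,0,-1],[0,1],(⟨0,[(3,0)]⟩,⟨0,[(33,1)]⟩),(⟨0,[(32,0)]⟩,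
  ⟨0,[(33,0)]⟩),⟨0,[(21,0),(11,0)]⟩,.k,.k,(.r (-1) ⟨1,[(1,1),(8,0),(31,0)]⟩ ⟨3,[(7,2),(5,1),(6,5),
  (9,3),(12,0)]⟩),.k,.k,.k,⟨false,0,⟨7,[(4,1),(2,0),(19,1),(11,3),(3,0)]⟩,⟨7,[(1,1),(13,1),(28,0),
  (0,2)]⟩⟩,⟨true,0,⟨0,[(12,0)]⟩,⟨0,[(31,0)]⟩⟩,⟨false,0,⟨16,[(0,1),(3,1),(2,9),(8,7),(3,11)]⟩,⟨0,[(1,
  0)]⟩⟩,⟨true,0,⟨0,[(13,0)]⟩,⟨0,[(29,0)]⟩⟩,⟨false,0,⟨0,[]⟩,⟨0,[]⟩⟩,⟨false,0,⟨0,[]⟩,⟨0,[]⟩⟩,[.e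
  ⟨false,0,⟨2,[(10,0),(28,0),(3,0)]⟩,⟨17,[(15,1),(1,1),(2,1),(2,3),(4,3),(15,0),(0,10)]⟩⟩ ⟨false,1,
  ⟨5,[(1,1),(10,5),(2,0),(23,0),(4,2)]⟩,⟨15,[(0,3),(3,3),(1,1),(0,1),(9,0),(2,4)]⟩⟩,.o ⟨false,1,⟨39,
  [(1,17),(13,1),(4,19),(19,3),(3,0),(0,10)]⟩,⟨23,[(0,0),(1,1),(4,11),(20,3),(10,2),(2,11)]⟩⟩,.a
  ⟨true,0,⟨0,[(20,0)]⟩,⟨0,[(12,1)]⟩⟩ ⟨true,0,⟨11,[(0,0),(1,1),(25,3),(10,2)]⟩,⟨0,[]⟩⟩ ⟨false,1,⟨7,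
  [(1,1),(10,7),(2,1),(28,0),(0,2)]⟩,⟨15,[(0,3),(3,3),(1,1),(0,1),(9,0),(2,4)]⟩⟩,.o ⟨false,0,⟨0,[(0,
  0)]⟩,⟨36,[(7,1),(4,67),(2,2),(0,1),(23,6),(3,19)]⟩⟩]⟩) (.I [0,0,1,0,0,0,0,0,1] (.I [0,0,-1,0,0,1,
  -1] (.C [(0,1),(1,0),(2,1),(17,1),(12,3),(11,2)]) (.C [(0,0),(22,0),(5,0)])) (.C [(0,0),(9,0),(15,
  0)]))) (.I [0,0,1,0,0,0,0,0,1] (.I [0,0,0,0,0,1,1] (.I [-1,0,0,1,0,0,0,0,-1] (.I [0,0,0,1,0,0,0,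
  -1] (.I [0,0,-1,0,0,1,-1] (.C [(0,0),(2,0),(1,0),(0,0),(9,0),(21,1),(10,0)]) (.C [(0,0),(24,0),(5,
  0)])) (.C [(0,0),(14,0),(1,0)])) (.C [(0,0),(7,0),(5,0),(13,0)])) (.C [(0,0),(3,0),(8,0),(8,0)]))
  (.C [(0,0),(8,0),(15,0)])))) (.Q [0,0,1,0,0,0,3,0,0,-1,3] (.p true [0,0,1] [1,1,-2] (⟨0,[(30,0)]⟩,
  ⟨0,[(29,0)]⟩) .k 2 (⟨0,[(19,0),(9,0)]⟩,⟨0,[(0,0),(33,0)]⟩) (.x (-1) ⟨15,[(0,15),(13,0),(2,15),(2,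
  1),(13,15),(2,2),(3,7)]⟩ ⟨0,[(9,1),(9,1),(11,0),(11,0)]⟩) (.x (-1) ⟨42,[(4,5),(2,17),(1,128),(1,
  11),(7,31),(9,96),(1,31),(5,16),(4,8),(0,35)]⟩ ⟨1,[(0,2),(16,2)]⟩)) (.K ⟨0,[1,1,-2],0,0,(⟨0,[(20,
  0),(9,0)]⟩,⟨0,[(1,0),(33,0)]⟩),(.x (-1) ⟨15,[(1,15),(13,0),(2,15),(2,1),(13,15),(2,2),(3,7)]⟩ ⟨2,
  [(0,1),(19,3),(9,1),(1,0),(11,0)]⟩),(.r (-1) ⟨4,[(0,0),(7,1),(3,1),(0,3),(11,0),(17,0)]⟩ ⟨3,[(2,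
  0),(2,1),(8,0),(3,2),(9,0)]⟩),(.r 0 ⟨0,[(12,1),(15,1)]⟩ ⟨2,[(2,1),(5,0),(31,2),(1,0),(0,1)]⟩),(.r
  (-1) ⟨1,[(0,0),(11,1),(0,1),(11,0)]⟩ ⟨0,[(2,0)]⟩),.k,[⟨0,[(0,0)]⟩,⟨0,[(18,0)]⟩,⟨6,[(0,2),(1,2),(2,
  1),(20,0),(13,5)]⟩,⟨0,[(3,0),(8,0),(9,0)]⟩]⟩) (.I [-1,0,0,1] (.I [0,0,1,0,0,0,0,0,1] (.I [0,0,0,1,
  0,0,0,-1] (.I [0,0,0,0,0,1,1] (.C [(0,1),(3,0),(0,0),(8,0),(21,1),(11,0)]) (.C [(0,0),(13,0),(9,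
  0)])) (.C [(0,0),(12,0),(1,0)])) (.C [(0,0),(8,0),(15,0)])) (.C [(0,0),(0,0),(3,0),(2,0),(2,
  3)])))) (.Q [0,0,0,0,0,0,0,0,0,-1,2] (.ed false [0,0,2] (.x (-1) ⟨145,[(3,21),(4,235),(2,27),(0,
  11),(15,291),(7,51),(0,9),(2,8),(0,4)]⟩ ⟨0,[(17,1),(5,1),(6,1),(11,1)]⟩)) (.Q [0,0,1,0,0,0,2,0,0,
  -1,2] (.p true [0,0,1] [1,0,-1] (⟨0,[(30,0)]⟩,⟨0,[(29,0)]⟩) .k 2 (⟨0,[(29,0)]⟩,⟨0,[(30,0)]⟩) .k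
  (.x (-1) ⟨145,[(4,21),(4,235),(2,27),(0,11),(15,291),(7,51),(0,9),(2,8),(0,4)]⟩ ⟨0,[(0,0),(16,
  0)]⟩)) (.K ⟨0,[-1,0,2],0,0,(⟨0,[(1,0)]⟩,⟨0,[(30,1)]⟩),.k,(.r (-1) ⟨37,[(5,3),(8,3),(1,37),(1,18),
  (7,25),(11,2),(4,31)]⟩ ⟨5,[(2,3),(25,0),(0,0),(11,1)]⟩),(.r 0 ⟨3,[(5,2),(5,1),(6,5),(9,3),(12,
  0)]⟩ ⟨7,[(2,3),(5,6),(4,1),(26,4),(2,5)]⟩),.k,.k,[⟨9,[(2,0),(11,2),(3,5),(6,0),(15,1)]⟩,⟨0,[(0,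
  0)]⟩,⟨3,[(2,1),(0,1),(4,0),(6,0),(2,2),(21,0)]⟩,⟨4,[(5,2),(8,0),(11,2),(13,1)]⟩]⟩) (.I [-1,0,0,1]
  (.I [0,0,1,0,0,0,0,0,1] (.I [0,0,0,0,0,1,1] (.C [(0,1),(2,0),(0,0),(30,1),(11,0)]) (.C [(0,0),(12,
  0),(9,0)])) (.C [(0,0),(8,0),(15,0)])) (.C [(0,0),(0,0),(3,0),(2,0),(2,2)]))) (.Q [0,0,0,0,0,0,-1,
  1,0,0,-1] (.p false [0,0,1] [] (⟨0,[(30,0)]⟩,⟨0,[(29,0)]⟩) .k 0 (⟨0,[]⟩,⟨0,[]⟩) .k .k) (.Q [0,0,1,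
  0,0,0,-2,0,0,0,-2] (.p false [0,0,1] [0,1,-1] (⟨0,[(31,0)]⟩,⟨0,[(30,0)]⟩) .k 2 (⟨0,[(20,0)]⟩,⟨0,
  [(31,0),(3,0)]⟩) .k (.r 0 ⟨1,[(0,0),(4,0),(8,0),(3,0)]⟩ ⟨8,[(2,1),(5,1),(4,5),(28,1),(0,0)]⟩))
  (.R ⟨0,false,false,false,[1,0,-2],[1,0,-1],[0,1],(⟨0,[(2,0)]⟩,⟨0,[(32,1)]⟩),(⟨0,[(31,0)]⟩,⟨0,[(32,
  0)]⟩),⟨0,[(20,0),(11,0)]⟩,.k,.k,(.r (-1) ⟨7,[(3,3),(5,6),(4,1),(26,4),(2,5)]⟩ ⟨3,[(6,2),(5,1),(6,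
  5),(9,3),(12,0)]⟩),.k,.k,.k,⟨false,0,⟨12,[(1,1),(4,2),(10,2),(8,5),(0,1),(10,3)]⟩,⟨8,[(3,0),(5,0),
  (4,2),(28,0),(0,4)]⟩⟩,⟨true,0,⟨0,[(11,0)]⟩,⟨0,[(30,0)]⟩⟩,⟨false,0,⟨1,[(1,0),(4,0),(8,0),(3,0)]⟩,
  ⟨7,[(3,3),(5,2),(4,1),(26,0),(2,5)]⟩⟩,⟨true,0,⟨0,[(12,0)]⟩,⟨0,[(28,0)]⟩⟩,⟨false,0,⟨0,[]⟩,⟨0,[]⟩⟩,
  ⟨false,0,⟨0,[]⟩,⟨0,[]⟩⟩,[.e ⟨false,0,⟨2,[(9,0),(28,0),(3,0)]⟩,⟨17,[(14,1),(1,1),(2,1),(2,3),(4,3),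
  (15,0),(0,10)]⟩⟩ ⟨false,1,⟨17,[(3,1),(5,1),(1,17),(2,5),(28,10),(0,0)]⟩,⟨0,[(1,0)]⟩⟩,.o ⟨false,1,
  ⟨9,[(3,1),(5,1),(4,1),(4,4),(19,0),(4,5)]⟩,⟨1,[(6,0),(34,0),(4,0)]⟩⟩,.a ⟨true,0,⟨0,[(19,0)]⟩,⟨0,
  [(11,1)]⟩⟩ ⟨true,0,⟨0,[(46,0)]⟩,⟨0,[]⟩⟩ ⟨false,1,⟨8,[(3,0),(5,0),(1,8),(2,2),(28,0),(0,4)]⟩,⟨0,
  [(1,0)]⟩⟩,.o ⟨false,0,⟨0,[(0,0)]⟩,⟨36,[(6,1),(4,67),(2,2),(0,1),(23,6),(3,19)]⟩⟩]⟩) (.I [0,0,1,0,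
  0,0,0,0,1] (.I [0,0,-1,0,0,1,-1] (.C [(0,1),(1,0),(1,1),(17,1),(12,3),(11,2)]) (.C [(0,0),(21,0),
  (5,0)])) (.C [(0,0),(8,0),(15,0)]))) (.I [0,0,0,0,0,1,1] (.I [0,0,1,0,0,0,0,0,1] (.I [-1,0,0,1,0,
  0,0,-1] (.I [-1,0,0,1,0,0,0,0,-1] (.I [0,0,1,0,0,0,0,-1] (.I [-1,0,1,0,0,0,0,1] (.I [-1,0,0,1,0,0,
  0,-1,-1] (.I [0,0,-1,0,0,1,-1] (.I [0,0,0,0,0,1,1,-1] (.C [(0,1),(0,5),(7,0),(0,2),(3,0),(8,0),(4,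
  1),(12,9),(11,5)]) (.C [(0,0),(8,0),(0,0),(17,0)])) (.C [(0,0),(26,0),(5,0)])) (.C [(0,0),(6,0),
  (3,0),(19,0)])) (.C [(0,0),(9,0),(2,0),(6,0)])) (.C [(0,0),(4,0),(28,0)])) (.C [(0,4),(3,2),(3,4),
  (0,0),(8,0),(9,4),(0,0),(18,0)])) (.C [(0,3),(2,5),(3,2),(0,0),(1,2),(17,4),(18,1)])) (.C [(0,0),
  (8,0),(15,0)])) (.C [(0,5),(0,2),(0,4),(3,0),(8,0),(4,3),(13,1)]))))))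

theorem ok34 : chk K t34 r25 = true := by decide +kernel

noncomputable def t37 : Tre :=
  (.Q [-1,-1,0,1,1,0,0,0,-1,0,0,-1] (.p false [0,0,0,0,1] [] (⟨0,[(18,0)]⟩,⟨0,[(17,0)]⟩) .k 0 (⟨0,
  []⟩,⟨0,[]⟩) .k .k) (.R ⟨2,true,false,true,[0,1],[0,0,0,0,1],[1,1,1],(⟨0,[]⟩,⟨0,[]⟩),(⟨0,[(19,0)]⟩,
  ⟨0,[(18,0)]⟩),⟨0,[]⟩,.k,.k,.k,(.r 0 ⟨1,[(23,0),(0,0),(11,1)]⟩ ⟨1,[(35,1),(1,0),(0,0)]⟩),.k,.k,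
  ⟨true,0,⟨1,[(23,0),(0,0)]⟩,⟨0,[]⟩⟩,⟨false,0,⟨0,[(17,0)]⟩,⟨0,[(4,0)]⟩⟩,⟨true,0,⟨0,[(35,0)]⟩,⟨0,
  [(36,0)]⟩⟩,⟨false,0,⟨0,[(1,0),(33,0),(2,0)]⟩,⟨0,[(0,0)]⟩⟩,⟨false,0,⟨0,[]⟩,⟨17,[(8,1),(1,1),(2,1),
  (2,3),(4,3),(15,0),(0,10)]⟩⟩,⟨true,(-1),⟨0,[(1,0)]⟩,⟨0,[(12,0)]⟩⟩,[]⟩) (.Q [0,0,0,-1,0,0,0,0,0,1]
  (.pp false [-1,1]) (.R ⟨0,false,false,false,[0,1,-1],[0,1],[1],(⟨0,[(16,0)]⟩,⟨0,[(27,0),(3,0)]⟩),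
  (⟨0,[(32,0)]⟩,⟨0,[(31,0)]⟩),⟨0,[(27,0)]⟩,.k,.k,.k,.k,.k,.k,⟨false,1,⟨8,[(0,4),(3,3),(29,0),(3,4),
  (0,1)]⟩,⟨1,[(24,0),(0,0),(11,1)]⟩⟩,⟨true,0,⟨0,[(6,0)]⟩,⟨0,[(25,0)]⟩⟩,⟨false,1,⟨0,[(12,0),(26,0)]⟩,
  ⟨0,[(8,0),(15,0)]⟩⟩,⟨true,0,⟨0,[(7,0)]⟩,⟨0,[(23,0)]⟩⟩,⟨false,0,⟨0,[]⟩,⟨0,[]⟩⟩,⟨false,0,⟨0,[]⟩,⟨0,
  []⟩⟩,[.a ⟨true,0,⟨0,[(37,0)]⟩,⟨0,[(0,0)]⟩⟩ ⟨true,0,⟨0,[]⟩,⟨1,[(24,0),(0,0)]⟩⟩ ⟨false,0,⟨0,[(6,0),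
  (30,0)]⟩,⟨17,[(0,15),(3,1),(9,8),(19,4),(3,6),(0,0)]⟩⟩,.o ⟨false,1,⟨15,[(11,0),(5,1),(16,2),(2,
  15),(1,7)]⟩,⟨0,[(36,0)]⟩⟩,.o ⟨false,1,⟨2,[(14,0),(6,0),(12,0),(3,0)]⟩,⟨0,[(24,0)]⟩⟩,.o ⟨false,1,
  ⟨61,[(9,7),(1,0),(1,1),(0,38),(7,15),(11,19),(3,3),(0,7)]⟩,⟨0,[(6,0)]⟩⟩]⟩) (.Q [-1,0,0,0,1,0,-1,
  -1,-1,1,-1,-1] (.p false [0,0,1] [1,0,0,0,-1] (⟨0,[(27,0)]⟩,⟨0,[(26,0)]⟩) .k 2 (⟨0,[(19,0)]⟩,⟨0,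
  [(20,0)]⟩) .k (.x 0 ⟨20,[(0,21),(0,20),(2,0),(1,20),(12,20),(6,20),(7,3),(4,12),(0,1),(0,3)]⟩ ⟨0,
  [(5,0),(14,0),(4,0),(1,0)]⟩)) (.R ⟨0,false,false,false,[1,0,-1],[0,0,0,0,1],[2],(⟨0,[(27,0)]⟩,⟨0,
  [(28,0)]⟩),(⟨0,[(21,0)]⟩,⟨0,[(20,0)]⟩),⟨0,[(16,0)]⟩,.k,.k,.k,.k,.k,.k,⟨true,0,⟨0,[]⟩,⟨1,[(25,0),
  (0,0)]⟩⟩,⟨false,0,⟨13,[(1,10),(0,7),(2,6),(1,13),(4,2),(25,3),(1,7),(1,0)]⟩,⟨1,[(0,0),(7,0),(6,0),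
  (2,0)]⟩⟩,⟨true,0,⟨1,[(8,1),(6,0),(0,0),(0,0),(11,1)]⟩,⟨2,[(7,2),(1,0),(14,1),(11,0),(4,0)]⟩⟩,
  ⟨false,0,⟨0,[(1,0),(0,0),(5,0),(31,0)]⟩,⟨0,[(0,0)]⟩⟩,⟨false,0,⟨0,[]⟩,⟨0,[]⟩⟩,⟨false,0,⟨0,[]⟩,⟨0,
  []⟩⟩,[.o ⟨false,0,⟨13,[(1,3),(0,3),(9,4),(22,0),(4,1)]⟩,⟨0,[(14,0)]⟩⟩,.o ⟨false,0,⟨0,[(1,0),(0,0),
  (37,0)]⟩,⟨0,[(18,0),(23,0)]⟩⟩,.a ⟨true,0,⟨1,[(15,0),(6,0),(2,0)]⟩,⟨0,[(7,0)]⟩⟩ ⟨true,0,⟨0,[]⟩,⟨0,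
  [(42,0)]⟩⟩ ⟨false,0,⟨0,[(1,0),(0,0),(4,0),(32,0)]⟩,⟨1,[(0,0),(7,0),(5,0),(0,0)]⟩⟩,.o ⟨false,0,⟨0,
  [(26,0)]⟩,⟨24,[(7,22),(2,0),(12,1),(11,4),(3,12),(0,0)]⟩⟩]⟩) (.Q [0,0,0,0,0,0,0,0,0,0,1,-1] (.ed
  true [1,0,-1,0,1] (.r (-1) ⟨17,[(10,9),(1,0),(2,0),(2,1),(4,1),(15,4),(0,0)]⟩ ⟨3,[(0,2),(7,0),(5,
  2),(0,0),(6,1),(18,1)]⟩)) (.Q [0,0,-1,0,1,0,-1,0,-1,0,-1,-1] (.p false [0,0,1] [0,1,0,0,-1] (⟨0,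
  [(29,0)]⟩,⟨0,[(28,0)]⟩) .k 2 (⟨0,[(0,0),(17,0)]⟩,⟨0,[(22,0),(10,0)]⟩) (.r 0 ⟨1,[(26,0),(0,0),(11,
  1)]⟩ ⟨1,[(38,1),(1,0),(0,0)]⟩) (.r 0 ⟨1,[(1,0),(7,0),(6,0),(2,0)]⟩ ⟨3,[(11,1),(3,0),(4,0),(19,
  0)]⟩)) (.Q [0,0,2,0,-1,0,1,0,1,0,1,1] (.p true [0,0,1] [0,1,0,0,-1] (⟨0,[(30,0)]⟩,⟨0,[(29,0)]⟩)
  .k 2 (⟨0,[(1,0),(17,0)]⟩,⟨0,[(23,0),(10,0)]⟩) (.r 0 ⟨1,[(27,0),(0,0),(11,1)]⟩ ⟨1,[(39,1),(1,0),(0,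
  0)]⟩) (.r 0 ⟨3,[(0,0),(1,0),(7,2),(6,0),(10,0)]⟩ ⟨3,[(12,1),(3,0),(4,0),(19,0)]⟩)) (.R ⟨0,false,
  false,false,[0,0,0,0,1],[0,1,-1],[1],(⟨0,[(24,0)]⟩,⟨0,[(23,0)]⟩),(⟨0,[(20,0)]⟩,⟨0,[(31,0),(3,
  0)]⟩),⟨0,[(2,0),(17,0)]⟩,.k,.k,(.r (-1) ⟨1,[(40,1),(1,0),(0,0)]⟩ ⟨2,[(0,0),(20,0),(7,0),(11,2)]⟩),
  (.r (-1) ⟨11,[(14,9),(1,1),(1,4),(19,2),(3,4),(0,0)]⟩ ⟨1,[(10,0),(1,1),(15,0),(15,0)]⟩),.k,.k,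
  ⟨false,1,⟨1,[(16,1),(25,0),(0,0)]⟩,⟨0,[(12,0),(15,0)]⟩⟩,⟨true,1,⟨0,[(1,0)]⟩,⟨0,[(0,0)]⟩⟩,⟨false,1,
  ⟨17,[(13,1),(1,1),(2,1),(2,3),(4,3),(15,0),(0,10)]⟩,⟨0,[]⟩⟩,⟨true,1,⟨0,[(12,0),(4,0)]⟩,⟨2,[(3,0),
  (1,1),(8,0),(11,0)]⟩⟩,⟨false,0,⟨0,[]⟩,⟨0,[]⟩⟩,⟨false,0,⟨0,[]⟩,⟨0,[]⟩⟩,[.a ⟨true,0,⟨0,[(12,0)]⟩,⟨0,
  [(14,0)]⟩⟩ ⟨true,0,⟨0,[]⟩,⟨2,[(0,0),(20,0),(7,0)]⟩⟩ ⟨false,1,⟨0,[(9,0),(2,0)]⟩,⟨72,[(3,20),(10,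
  51),(0,25),(22,0),(1,20),(2,18),(1,16)]⟩⟩,.o ⟨false,1,⟨37,[(12,33),(0,1),(4,1),(19,7),(2,3),(0,0),
  (0,18)]⟩,⟨0,[(11,0),(28,0)]⟩⟩,.o ⟨false,0,⟨79,[(3,20),(1,20),(6,20),(2,18),(22,7),(4,25),(1,30)]⟩,
  ⟨0,[(21,0)]⟩⟩,.o ⟨false,0,⟨0,[(7,0)]⟩,⟨0,[(9,0)]⟩⟩]⟩) (.Q [0,0,0,0,0,-2,0,0,0,1,1] (.p true [1,-1,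
  1] [] (⟨0,[(31,0),(3,0)]⟩,⟨0,[(20,0)]⟩) .k 0 (⟨0,[]⟩,⟨0,[]⟩) .k .k) (.Q [0,0,-1,0,1,0,1,0,-1,-1,1,
  -1] (.p false [1,0,-1,0,1] [] (⟨0,[(25,0),(5,0)]⟩,⟨0,[(3,0)]⟩) .k 0 (⟨0,[]⟩,⟨0,[]⟩) .k (.r (-1)
  ⟨17,[(14,9),(1,0),(2,0),(2,1),(4,1),(15,4),(0,0)]⟩ ⟨2,[(1,0),(2,0),(7,1),(6,0),(25,1)]⟩)) (.I [0,
  0,-1,-1,0,0,0,2] (.Q [0,0,1,0,0,0,3,0,0,-1,3] (.p true [0,0,1] [1,1,-2] (⟨0,[(34,0)]⟩,⟨0,[(33,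
  0)]⟩) .k 2 (⟨0,[(23,0),(9,0)]⟩,⟨0,[(2,0),(19,0)]⟩) (.r (-1) ⟨0,[(16,0),(27,0)]⟩ ⟨0,[(0,0)]⟩) (.x
  (-1) ⟨2,[(1,1),(4,1),(6,4),(2,0),(16,8),(7,0),(5,0)]⟩ ⟨0,[(22,2),(5,2),(6,2),(11,2)]⟩)) (.K ⟨0,[1,
  1,-2],0,0,(⟨0,[(24,0),(9,0)]⟩,⟨0,[(3,0),(19,0)]⟩),(.r (-1) ⟨0,[(17,0),(27,0)]⟩ ⟨0,[(1,0)]⟩),(.r
  (-1) ⟨4,[(12,1),(1,1),(1,1),(0,3),(29,0)]⟩ ⟨2,[(1,1),(13,1),(17,1),(11,1)]⟩),(.r 0 ⟨0,[(16,1),(15,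
  1)]⟩ ⟨0,[(20,1),(26,0)]⟩),(.r (-1) ⟨0,[(14,0),(1,0),(0,0)]⟩ ⟨2,[(1,3),(13,0),(17,0),(11,0)]⟩),.k,
  [⟨0,[(0,0)]⟩,⟨0,[(22,0)]⟩,⟨6,[(0,2),(0,3),(0,1),(4,1),(22,3),(2,2),(10,2)]⟩,⟨0,[(16,0),(12,0),(1,
  0),(0,0)]⟩]⟩) (.Q [0,-1,0,0,1,0,-2,-2,0,0,-2] (.p false [0,0,1] [0,1,-1] (⟨0,[(35,0)]⟩,⟨0,[(34,
  0)]⟩) .k 2 (⟨0,[(24,0)]⟩,⟨0,[(35,0),(3,0)]⟩) .k (.r 0 ⟨2,[(1,1),(13,1),(17,1),(11,1)]⟩ ⟨4,[(12,1),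
  (1,1),(1,1),(0,3),(29,0)]⟩)) (.R ⟨0,false,false,false,[0,0,1],[1,1,-2],[1,1],(⟨0,[(36,0)]⟩,⟨0,
  [(35,0)]⟩),(⟨0,[(25,0),(9,0)]⟩,⟨0,[(4,0),(19,0)]⟩),⟨0,[(25,0)]⟩,.k,(.r (-1) ⟨0,[(18,0),(27,0)]⟩
  ⟨0,[(2,0)]⟩),.k,(.r 0 ⟨2,[(2,3),(13,0),(17,0),(11,0)]⟩ ⟨0,[(15,0),(1,0),(0,0)]⟩),.k,.k,⟨false,0,
  ⟨5,[(2,4),(2,0),(2,0),(4,0),(16,0),(0,0),(10,1)]⟩,⟨1,[(15,0),(1,1),(0,0),(14,0),(14,0)]⟩⟩,⟨true,0,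
  ⟨0,[(1,0)]⟩,⟨0,[(15,2),(8,0),(0,0),(11,1),(11,1)]⟩⟩,⟨true,0,⟨0,[(15,0),(16,0)]⟩,⟨2,[(2,0),(13,0),
  (17,0),(11,0)]⟩⟩,⟨false,1,⟨0,[(0,0),(16,0),(12,0),(2,0)]⟩,⟨1,[(2,1),(0,0),(4,0),(7,0),(16,2)]⟩⟩,
  ⟨false,0,⟨0,[]⟩,⟨0,[]⟩⟩,⟨false,0,⟨0,[]⟩,⟨0,[]⟩⟩,[.o ⟨false,1,⟨42,[(1,19),(15,25),(0,29),(24,3),(2,
  16),(0,4)]⟩,⟨3,[(2,0),(0,2),(4,2),(10,2),(4,0),(0,0),(8,0),(2,1),(11,2)]⟩⟩,.o ⟨false,1,⟨0,[(0,0),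
  (45,0)]⟩,⟨3,[(2,1),(0,1),(4,1),(22,1),(1,2),(0,0),(10,1)]⟩⟩,.e ⟨false,0,⟨0,[]⟩,⟨17,[(18,1),(1,1),
  (2,1),(2,3),(4,3),(15,0),(0,10)]⟩⟩ ⟨false,1,⟨2,[(0,0),(16,1),(0,0),(4,1),(6,0),(15,0),(1,0)]⟩,⟨3,
  [(3,3),(4,3),(10,3),(13,0),(0,0),(14,1)]⟩⟩,.a ⟨true,0,⟨0,[(33,0)]⟩,⟨0,[(30,0)]⟩⟩ ⟨true,0,⟨2,[(13,
  0),(28,0),(3,0)]⟩,⟨1,[(33,0),(0,0)]⟩⟩ ⟨false,1,⟨0,[(0,0),(29,0),(15,0)]⟩,⟨3,[(3,3),(4,3),(10,3),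
  (13,2),(0,2),(14,1)]⟩⟩]⟩) (.Q [0,0,0,0,0,0,0,0,0,1,-2] (.ed true [0,0,2] (.r 0 ⟨14,[(0,13),(22,
  14),(7,1),(11,2),(4,7)]⟩ ⟨4,[(13,1),(1,1),(1,1),(0,3),(29,0)]⟩)) (.R ⟨0,false,false,false,[1,0,
  -2],[1,0,-1],[1],(⟨0,[(0,0)]⟩,⟨0,[(37,1)]⟩),(⟨0,[(36,0)]⟩,⟨0,[(37,0)]⟩),⟨0,[(25,0),(11,0)]⟩,.k,.k,
  (.x 0 ⟨1,[(24,1),(0,1),(8,0),(0,0),(1,1)]⟩ ⟨99,[(0,124),(3,37),(0,49),(3,35),(6,125),(2,17),(1,0),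
  (22,19),(3,39)]⟩),.k,.k,.k,⟨false,0,⟨19,[(1,5),(0,3),(0,1),(2,3),(2,3),(37,1),(0,2),(0,2)]⟩,⟨17,
  [(19,9),(1,0),(2,0),(2,1),(4,1),(15,4),(0,0)]⟩⟩,⟨true,0,⟨0,[(16,0)]⟩,⟨0,[(35,0)]⟩⟩,⟨false,0,⟨1,
  [(1,1),(0,0),(22,0),(0,0),(8,0),(2,1),(10,1)]⟩,⟨4,[(14,1),(1,1),(1,1),(0,3),(29,0)]⟩⟩,⟨true,0,⟨0,
  [(17,0)]⟩,⟨0,[(33,0)]⟩⟩,⟨false,0,⟨0,[]⟩,⟨0,[]⟩⟩,⟨false,0,⟨0,[]⟩,⟨0,[]⟩⟩,[.o ⟨false,1,⟨31,[(19,15),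
  (1,0),(2,15),(2,1),(16,2),(3,7)]⟩,⟨35,[(1,11),(1,0),(0,9),(4,9),(0,0),(24,7),(8,2),(4,5),(0,2)]⟩⟩,
  .o ⟨false,1,⟨0,[(33,0),(15,0)]⟩,⟨4,[(1,1),(30,0),(11,0),(6,1)]⟩⟩,.a ⟨true,0,⟨0,[(24,0)]⟩,⟨0,[(16,
  1)]⟩⟩ ⟨true,0,⟨0,[]⟩,⟨0,[(51,0)]⟩⟩ ⟨false,1,⟨4,[(14,0),(1,5),(1,0),(0,1),(29,2)]⟩,⟨7,[(1,3),(0,2),
  (21,1),(10,2),(8,0),(4,1)]⟩⟩,.o ⟨false,0,⟨1,[(2,0),(22,0),(0,0),(8,0),(2,1),(11,1)]⟩,⟨39,[(1,5),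
  (2,19),(11,47),(2,5),(1,9),(22,1),(3,12),(0,2)]⟩⟩]⟩) (.I [0,0,0,0,0,1,1] (.C [(0,1),(0,0),(1,0),
  (13,0),(21,1),(11,0)]) (.C [(0,0),(16,0),(9,0)]))))) (.I [0,0,-1,0,0,1,-1] (.C [(0,0),(0,0),(2,0),
  (2,0),(10,0),(5,0),(11,1),(11,1)]) (.C [(0,0),(22,0),(5,0)]))) (.K ⟨0,[1,0,-1,0,1],(-1),(-1),(⟨0,
  [(26,0),(5,0)]⟩,⟨0,[(4,0)]⟩),.k,(.r (-1) ⟨3,[(10,2),(4,1),(26,0),(2,1)]⟩ ⟨0,[(13,0),(17,0),(11,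
  0)]⟩),(.r 0 ⟨0,[(14,0),(15,0)]⟩ ⟨32,[(16,19),(1,12),(1,9),(19,5),(3,9),(0,10),(1,8)]⟩),.k,.k,[⟨0,
  [(2,0),(9,2),(8,0),(0,0),(11,1),(11,1)]⟩,⟨0,[(0,0)]⟩,⟨1,[(5,0),(0,0),(12,1),(3,0),(4,0),(13,0)]⟩,
  ⟨1,[(0,0),(6,0),(4,1),(1,0),(12,0),(1,0)]⟩]⟩)) (.Q [0,0,0,0,0,0,0,0,0,-1,2] (.ed false [0,0,2]
  (.r 0 ⟨6,[(2,3),(1,3),(7,9),(6,3),(10,1),(14,1)]⟩ ⟨4,[(9,1),(1,1),(1,1),(0,3),(29,0)]⟩)) (.Q [0,0,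
  1,0,0,0,3,0,0,-1,3] (.p true [0,0,1] [1,1,-2] (⟨0,[(33,0)]⟩,⟨0,[(32,0)]⟩) .k 2 (⟨0,[(22,0),(9,
  0)]⟩,⟨0,[(0,0),(36,0)]⟩) (.r (-1) ⟨0,[(15,0),(27,0)]⟩ ⟨3,[(0,0),(0,1),(0,3),(2,3),(10,3),(3,0),(6,
  1),(6,3),(11,5)]⟩) (.x (-1) ⟨16,[(6,5),(3,5),(1,50),(9,9),(9,40),(1,9),(5,6),(4,2),(0,11)]⟩ ⟨1,
  [(0,2),(19,2)]⟩)) (.K ⟨0,[1,1,-2],0,0,(⟨0,[(23,0),(9,0)]⟩,⟨0,[(1,0),(36,0)]⟩),(.r (-1) ⟨0,[(16,0),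
  (27,0)]⟩ ⟨3,[(1,0),(0,1),(0,3),(2,3),(10,3),(3,0),(6,1),(6,3),(11,5)]⟩),(.r (-1) ⟨4,[(11,1),(1,1),
  (1,1),(0,3),(29,0)]⟩ ⟨6,[(4,3),(1,3),(7,9),(6,3),(10,1),(14,1)]⟩),(.r 0 ⟨0,[(15,1),(15,1)]⟩ ⟨0,
  [(19,1),(26,0)]⟩),(.r (-1) ⟨0,[(13,0),(1,0),(0,0)]⟩ ⟨5,[(3,0),(0,8),(1,9),(7,1),(2,5),(3,3),(25,
  4)]⟩),.k,[⟨0,[(0,0)]⟩,⟨0,[(21,0)]⟩,⟨1,[(0,0),(5,0),(7,0),(4,1),(0,0),(11,0)]⟩,⟨0,[(15,0),(12,0),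
  (1,0),(0,0)]⟩]⟩) (.I [0,0,0,0,0,1,1] (.C [(0,1),(0,0),(0,0),(11,0),(21,1),(11,0)]) (.C [(0,0),(2,
  0),(10,0),(24,0)]))) (.Q [0,-1,-1,0,0,0,1,2,0,0,1] (.p true [0,0,1] [] (⟨0,[(33,0)]⟩,⟨0,[(32,
  0)]⟩) .k 0 (⟨0,[]⟩,⟨0,[]⟩) .k .k) (.R ⟨0,false,false,false,[0,0,1],[0,0,2],[1],(⟨0,[(34,0)]⟩,⟨0,
  [(33,0)]⟩),(⟨0,[(34,1)]⟩,⟨0,[(1,0)]⟩),⟨0,[(23,0)]⟩,.k,.k,.k,.k,.k,.k,⟨false,1,⟨4,[(11,3),(1,3),(1,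
  3),(0,2),(29,1)]⟩,⟨5,[(0,3),(6,0),(11,0),(1,0),(7,2),(2,4)]⟩⟩,⟨true,0,⟨0,[(13,0)]⟩,⟨0,[(32,0)]⟩⟩,
  ⟨false,1,⟨4,[(11,0),(1,0),(1,0),(0,1),(29,2)]⟩,⟨11,[(0,3),(6,0),(11,0),(1,0),(7,2),(2,4)]⟩⟩,⟨true,
  0,⟨0,[(14,0)]⟩,⟨0,[(30,0)]⟩⟩,⟨false,0,⟨0,[]⟩,⟨0,[]⟩⟩,⟨false,0,⟨0,[]⟩,⟨0,[]⟩⟩,[.o ⟨false,0,⟨0,[(6,
  0),(7,0),(5,0)]⟩,⟨0,[(30,1),(15,0)]⟩⟩,.e ⟨false,1,⟨1,[(45,0),(0,0)]⟩,⟨0,[(48,0)]⟩⟩ ⟨false,0,⟨0,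
  [(0,0)]⟩,⟨7,[(3,1),(12,5),(1,0),(2,0),(8,3),(9,1)]⟩⟩,.a ⟨true,0,⟨0,[(13,0)]⟩,⟨1,[(21,0),(6,0),(2,
  0)]⟩⟩ ⟨true,0,⟨0,[]⟩,⟨0,[(48,0)]⟩⟩ ⟨false,0,⟨1,[(0,1),(30,0),(0,0)]⟩,⟨2,[(3,0),(4,0),(6,0),(0,1),
  (13,0),(15,0)]⟩⟩,.e ⟨false,1,⟨1,[(45,0),(0,0)]⟩,⟨1,[(31,0),(0,0)]⟩⟩ ⟨false,0,⟨0,[(0,0)]⟩,⟨2,[(16,
  1),(13,1),(1,0),(13,0)]⟩⟩]⟩) (.I [1,-1,0,0,1,0,0,-2] (.R ⟨0,false,false,false,[1,0,-2],[1,0,-1],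
  [0,1],(⟨0,[(2,0)]⟩,⟨0,[(35,1)]⟩),(⟨0,[(34,0)]⟩,⟨0,[(35,0)]⟩),⟨0,[(23,0),(11,0)]⟩,.k,.k,(.r (-1)
  ⟨1,[(0,1),(11,0),(31,0)]⟩ ⟨1,[(8,0),(6,3),(6,0),(10,1),(11,0)]⟩),.k,.k,.k,⟨false,0,⟨12,[(4,3),(2,
  3),(12,1),(1,2),(6,0),(0,6),(10,1),(3,1)]⟩,⟨7,[(0,1),(16,1),(28,0),(0,2)]⟩⟩,⟨true,0,⟨0,[(14,0)]⟩,
  ⟨0,[(33,0)]⟩⟩,⟨false,0,⟨6,[(5,3),(1,3),(7,9),(6,3),(10,1),(14,1)]⟩,⟨0,[(0,0)]⟩⟩,⟨true,0,⟨0,[(15,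
  0)]⟩,⟨0,[(31,0)]⟩⟩,⟨false,0,⟨0,[]⟩,⟨0,[]⟩⟩,⟨false,0,⟨0,[]⟩,⟨0,[]⟩⟩,[.o ⟨false,1,⟨31,[(17,15),(1,
  0),(2,15),(2,1),(16,2),(3,7)]⟩,⟨0,[(7,0),(13,0)]⟩⟩,.o ⟨false,1,⟨63,[(0,27),(3,1),(12,3),(1,0),(2,
  30),(19,5),(4,17)]⟩,⟨1,[(7,0),(0,0),(16,0),(4,0),(13,0)]⟩⟩,.a ⟨true,0,⟨0,[(22,0)]⟩,⟨0,[(14,1)]⟩⟩
  ⟨true,0,⟨0,[(49,0)]⟩,⟨0,[]⟩⟩ ⟨false,1,⟨7,[(0,1),(13,7),(2,1),(28,0),(0,2)]⟩,⟨6,[(5,3),(1,3),(7,2),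
  (6,3),(10,1),(14,1)]⟩⟩,.o ⟨false,0,⟨0,[(3,0),(19,0),(5,1),(6,2),(11,2)]⟩,⟨24,[(14,47),(2,0),(12,
  1),(11,4),(3,12),(0,0)]⟩⟩]⟩) (.I [0,0,0,0,0,1,1] (.I [0,0,0,1,0,0,0,-1] (.I [0,0,-1,0,0,1,-1] (.C
  [(0,0),(1,0),(0,0),(0,0),(12,0),(21,1),(10,0)]) (.C [(0,0),(25,0),(5,0)])) (.C [(0,0),(15,0),(1,
  0)])) (.C [(0,3),(2,0),(0,1),(10,4),(14,0),(18,0)]))))))) (.K ⟨0,[0,1,0,0,-1],1,1,(⟨0,[(1,0),(17,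
  0)]⟩,⟨0,[(23,0),(10,0)]⟩),(.r 0 ⟨1,[(27,0),(0,0),(11,1)]⟩ ⟨1,[(39,1),(1,0),(0,0)]⟩),.k,(.r 0 ⟨0,
  [(27,0),(0,0),(11,1)]⟩ ⟨0,[(7,0),(31,0),(2,0)]⟩),(.r 0 ⟨1,[(9,0),(1,1),(15,0),(15,0)]⟩ ⟨11,[(13,
  9),(1,1),(1,4),(19,2),(3,4),(0,0)]⟩),.k,[⟨0,[(0,0)]⟩,⟨0,[(20,0)]⟩,⟨0,[(4,0)]⟩,⟨0,[(20,0),(19,0),
  (3,0)]⟩]⟩)) (.Q [0,0,0,0,0,0,0,0,0,-1,2] (.ed false [0,0,2] (.r 0 ⟨0,[(1,0),(7,0),(5,0),(0,0)]⟩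
  ⟨4,[(6,1),(1,1),(1,1),(0,3),(29,0)]⟩)) (.I [0,0,-1,-1,0,0,0,3] (.Q [0,0,1,0,0,0,3,0,0,-1,3] (.p
  true [0,0,1] [1,1,-2] (⟨0,[(31,0)]⟩,⟨0,[(30,0)]⟩) .k 2 (⟨0,[(20,0),(9,0)]⟩,⟨0,[(1,0),(33,0)]⟩)
  (.x (-1) ⟨15,[(1,15),(13,0),(2,15),(2,1),(13,15),(2,2),(3,7)]⟩ ⟨0,[(10,1),(9,1),(11,0),(11,0)]⟩)
  (.x (-1) ⟨16,[(4,5),(3,5),(1,50),(9,9),(9,40),(1,9),(5,6),(4,2),(0,11)]⟩ ⟨1,[(1,2),(16,2)]⟩)) (.K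
  ⟨0,[1,1,-2],0,0,(⟨0,[(21,0),(9,0)]⟩,⟨0,[(2,0),(33,0)]⟩),(.x (-1) ⟨15,[(2,15),(13,0),(2,15),(2,1),
  (13,15),(2,2),(3,7)]⟩ ⟨2,[(0,1),(20,3),(9,1),(1,0),(11,0)]⟩),(.r (-1) ⟨4,[(9,1),(1,1),(1,1),(0,3),
  (29,0)]⟩ ⟨2,[(1,1),(27,0),(0,0),(11,1)]⟩),(.r 0 ⟨0,[(13,1),(15,1)]⟩ ⟨3,[(1,3),(7,2),(4,1),(26,0),
  (2,1)]⟩),(.r (-1) ⟨0,[(11,0),(1,0),(0,0)]⟩ ⟨0,[(1,0)]⟩),.k,[⟨0,[(0,0)]⟩,⟨0,[(19,0)]⟩,⟨4,[(0,2),(0,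
  2),(3,1),(21,0),(13,3)]⟩,⟨0,[(13,0),(12,0),(1,0),(0,0)]⟩]⟩) (.I [0,0,0,0,0,1,1] (.C [(0,1),(0,0),
  (1,0),(8,0),(21,1),(11,0)]) (.C [(0,0),(11,0),(9,0)]))) (.I [0,0,0,0,0,0,-1] (.C [(0,1),(0,0),(2,
  1),(5,1),(4,0),(5,1),(4,0),(6,1),(11,1)]) (.C [(0,1),(1,0),(23,0),(3,0)]))) (.Q [0,-1,-1,0,0,0,1,
  2,0,0,1] (.p true [0,0,1] [] (⟨0,[(30,0)]⟩,⟨0,[(29,0)]⟩) .k 0 (⟨0,[]⟩,⟨0,[]⟩) .k .k) (.R ⟨0,false,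
  false,false,[0,0,1],[0,0,2],[1],(⟨0,[(31,0)]⟩,⟨0,[(30,0)]⟩),(⟨0,[(31,1)]⟩,⟨0,[(1,0)]⟩),⟨0,[(20,
  0)]⟩,.k,.k,.k,.k,.k,.k,⟨false,1,⟨4,[(8,3),(1,3),(1,3),(0,2),(29,1)]⟩,⟨5,[(0,3),(3,0),(11,0),(1,0),
  (7,2),(2,4)]⟩⟩,⟨true,0,⟨0,[(10,0)]⟩,⟨0,[(29,0)]⟩⟩,⟨false,1,⟨4,[(8,0),(1,0),(1,0),(0,1),(29,2)]⟩,
  ⟨11,[(0,3),(3,0),(11,0),(1,0),(7,2),(2,4)]⟩⟩,⟨true,0,⟨0,[(11,0)]⟩,⟨0,[(27,0)]⟩⟩,⟨false,0,⟨0,[]⟩,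
  ⟨0,[]⟩⟩,⟨false,0,⟨0,[]⟩,⟨0,[]⟩⟩,[.o ⟨false,0,⟨2,[(0,0),(2,2),(13,2),(8,0),(1,0)]⟩,⟨0,[(27,1),(15,
  0)]⟩⟩,.e ⟨false,1,⟨1,[(42,0),(0,0)]⟩,⟨0,[(45,0)]⟩⟩ ⟨false,0,⟨0,[(0,0)]⟩,⟨27,[(13,18),(4,4),(8,17),
  (9,4),(0,0),(3,6)]⟩⟩,.a ⟨true,0,⟨0,[(10,0)]⟩,⟨1,[(18,0),(6,0),(2,0)]⟩⟩ ⟨true,0,⟨0,[]⟩,⟨0,[(45,
  0)]⟩⟩ ⟨false,0,⟨1,[(0,1),(27,0),(0,0)]⟩,⟨3,[(8,0),(3,0),(0,1),(13,2),(15,1)]⟩⟩,.e ⟨false,1,⟨1,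
  [(42,0),(0,0)]⟩,⟨1,[(28,0),(0,0)]⟩⟩ ⟨false,0,⟨0,[(0,0)]⟩,⟨2,[(13,1),(13,1),(1,0),(13,0)]⟩⟩]⟩) (.I
  [1,-1,0,0,1,0,0,-2] (.Q [0,0,1,0,0,0,-2,0,0,0,-2] (.p false [0,0,1] [0,1,-1] (⟨0,[(32,0)]⟩,⟨0,
  [(31,0)]⟩) .k 2 (⟨0,[(21,0)]⟩,⟨0,[(32,0),(3,0)]⟩) .k (.r 0 ⟨0,[(4,0),(7,0),(5,0),(0,0)]⟩ ⟨2,[(0,
  1),(13,0),(23,0)]⟩)) (.R ⟨0,false,false,false,[1,0,-2],[1,0,-1],[0,1],(⟨0,[(3,0)]⟩,⟨0,[(33,1)]⟩),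
  (⟨0,[(32,0)]⟩,⟨0,[(33,0)]⟩),⟨0,[(21,0),(11,0)]⟩,.k,.k,(.r (-1) ⟨1,[(1,1),(8,0),(31,0)]⟩ ⟨0,[(0,0),
  (12,1),(29,0)]⟩),.k,.k,.k,⟨false,0,⟨1,[(6,0),(11,0),(8,0),(0,0)]⟩,⟨7,[(1,1),(13,1),(28,0),(0,
  2)]⟩⟩,⟨true,0,⟨0,[(12,0)]⟩,⟨0,[(31,0)]⟩⟩,⟨false,0,⟨3,[(0,2),(4,1),(5,1),(1,5),(13,1),(18,0)]⟩,⟨0,
  [(1,0)]⟩⟩,⟨true,0,⟨0,[(13,0)]⟩,⟨0,[(29,0)]⟩⟩,⟨false,0,⟨0,[]⟩,⟨0,[]⟩⟩,⟨false,0,⟨0,[]⟩,⟨0,[]⟩⟩,[.o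
  ⟨false,1,⟨31,[(15,15),(1,0),(2,15),(2,1),(16,2),(3,7)]⟩,⟨0,[(5,0),(13,0)]⟩⟩,.o ⟨false,1,⟨39,[(1,
  17),(13,1),(4,19),(19,3),(3,0),(0,10)]⟩,⟨1,[(5,0),(0,0),(16,0),(4,0),(13,0)]⟩⟩,.a ⟨true,0,⟨0,[(20,
  0)]⟩,⟨0,[(12,1)]⟩⟩ ⟨true,0,⟨11,[(0,0),(1,1),(25,3),(10,2)]⟩,⟨0,[]⟩⟩ ⟨false,1,⟨7,[(1,1),(10,7),(2,
  1),(28,0),(0,2)]⟩,⟨3,[(0,2),(4,1),(5,1),(1,1),(13,1),(18,0)]⟩⟩,.o ⟨false,0,⟨0,[(0,0)]⟩,⟨24,[(12,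
  47),(2,0),(12,1),(11,4),(3,12),(0,0)]⟩⟩]⟩) (.I [1,0,0,1,-1,0,0,0,1] (.I [1,0,-2,0,0,0,0,1] (.I [0,
  0,-1,0,0,1,-1] (.C [(0,1),(2,0),(2,1),(17,1),(12,3),(11,2)]) (.C [(0,0),(23,0),(5,0)])) (.C [(0,
  0),(6,0),(5,0),(15,0)])) (.C [(0,0),(5,0),(8,0),(10,0)]))) (.I [0,0,0,0,0,1,1] (.I [0,0,0,1,0,0,0,
  -1] (.I [1,0,0,1,-1,0,0,0,1] (.I [0,0,-1,0,0,1,-1] (.C [(0,0),(2,0),(0,0),(0,0),(9,0),(21,1),(10,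
  0)]) (.C [(0,0),(23,0),(5,0)])) (.C [(0,0),(6,0),(8,0),(10,0)])) (.C [(0,0),(12,0),(1,0)])) (.C
  [(0,0),(2,0),(8,0),(8,0)])))))))))

theorem ok37 : chk K t37 r23 = true := by decide +kernel

noncomputable def t43 : Tre :=
  (.I [1,0,0,0,0,0,0,1] (.R ⟨0,false,false,true,[1,0,-1],[1,-1],[1,1],(⟨0,[(20,0)]⟩,⟨0,[(21,0)]⟩),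
  (⟨0,[(25,0)]⟩,⟨0,[(26,0)]⟩),⟨0,[(9,0)]⟩,.k,.k,.k,.k,.k,.k,⟨false,0,⟨0,[(31,0)]⟩,⟨1,[(30,1),(1,0),
  (0,0)]⟩⟩,⟨true,0,⟨0,[(18,0)]⟩,⟨0,[(0,0),(0,0)]⟩⟩,⟨false,0,⟨0,[(0,0)]⟩,⟨1,[(1,1),(16,1),(13,0),(0,
  0)]⟩⟩,⟨true,0,⟨0,[(6,0),(11,0)]⟩,⟨0,[(2,0)]⟩⟩,⟨false,0,⟨0,[]⟩,⟨0,[]⟩⟩,⟨false,0,⟨0,[]⟩,⟨0,[]⟩⟩,[.o
  ⟨false,0,⟨0,[(30,0)]⟩,⟨15,[(5,0),(5,1),(16,2),(2,15),(1,7)]⟩⟩,.a ⟨true,0,⟨0,[(1,0),(2,0)]⟩,⟨0,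
  [(31,0)]⟩⟩ ⟨true,0,⟨0,[]⟩,⟨1,[(18,0),(0,0)]⟩⟩ ⟨false,1,⟨1,[(18,1),(10,1),(2,0),(0,0)]⟩,⟨0,[(0,0),
  (1,0)]⟩⟩,.o ⟨false,0,⟨0,[(0,0),(0,0)]⟩,⟨14,[(3,0),(12,1),(1,12),(9,2),(3,6),(0,0)]⟩⟩,.o ⟨false,0,
  ⟨0,[(19,0)]⟩,⟨3,[(9,3),(0,3),(7,3),(3,7),(6,5),(1,5),(0,0),(0,2)]⟩⟩]⟩) (.Q [0,0,0,0,0,0,1,0,0,0,
  1] (.p true [0,0,1] [] (⟨0,[(21,0)]⟩,⟨0,[(20,0)]⟩) .k 0 (⟨0,[]⟩,⟨0,[]⟩) .k .k) (.R ⟨0,false,false,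
  false,[1,-1],[1,-1,1],[1],(⟨0,[(26,0)]⟩,⟨0,[(27,0)]⟩),(⟨0,[(22,0),(3,0)]⟩,⟨0,[(11,0)]⟩),⟨0,[(10,
  0),(0,0)]⟩,.k,.k,(.r (-1) ⟨0,[(30,1),(3,0)]⟩ ⟨0,[(19,0),(0,0),(11,1)]⟩),.k,.k,.k,⟨false,0,⟨0,[(1,
  0),(30,0)]⟩,⟨11,[(5,9),(1,1),(1,4),(19,2),(3,4),(0,0)]⟩⟩,⟨true,0,⟨0,[(0,0)]⟩,⟨0,[(20,0)]⟩⟩,⟨true,
  0,⟨1,[(19,0),(0,0),(11,1)]⟩,⟨0,[(30,0)]⟩⟩,⟨false,1,⟨0,[(17,0),(16,0)]⟩,⟨0,[(2,0)]⟩⟩,⟨false,0,⟨0,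
  []⟩,⟨0,[]⟩⟩,⟨false,0,⟨0,[]⟩,⟨0,[]⟩⟩,[.a ⟨true,0,⟨0,[(5,0)]⟩,⟨0,[(3,0)]⟩⟩ ⟨true,0,⟨0,[]⟩,⟨1,[(19,
  0),(0,0)]⟩⟩ ⟨false,1,⟨1,[(0,1),(6,1),(25,0),(0,0)]⟩,⟨1,[(3,1),(15,0),(0,0)]⟩⟩,.o ⟨false,1,⟨15,[(5,
  15),(0,0),(5,1),(16,2),(4,7)]⟩,⟨1,[(2,1),(7,1),(0,1),(11,3),(6,0),(1,2),(2,0),(0,0)]⟩⟩,.o ⟨false,
  0,⟨1,[(19,0),(0,0)]⟩,⟨15,[(6,0),(5,1),(16,2),(3,7)]⟩⟩,.o ⟨false,0,⟨0,[(19,0),(0,0)]⟩,⟨3,[(10,3),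
  (0,3),(11,7),(6,5),(1,5),(0,0),(0,2)]⟩⟩]⟩) (.R ⟨0,false,false,false,[0,0,1],[1,-1,1],[0,0,0,-1,0,
  0,0,1],(⟨0,[(22,0)]⟩,⟨0,[(21,0)]⟩),(⟨0,[(22,0),(3,0)]⟩,⟨0,[(11,0)]⟩),⟨0,[(11,0)]⟩,.k,.k,.k,.k,.k,
  .k,⟨true,0,⟨1,[(19,0),(0,0)]⟩,⟨0,[]⟩⟩,⟨false,0,⟨0,[(16,0),(2,0)]⟩,⟨15,[(6,0),(5,1),(16,2),(3,
  7)]⟩⟩,⟨false,1,⟨0,[(31,0),(2,0)]⟩,⟨0,[(32,0)]⟩⟩,⟨true,0,⟨0,[(2,0),(2,0)]⟩,⟨1,[(10,1),(0,1),(11,3),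
  (6,0),(1,2),(2,0),(0,0)]⟩⟩,⟨false,0,⟨0,[]⟩,⟨0,[]⟩⟩,⟨false,0,⟨0,[]⟩,⟨0,[]⟩⟩,[.a ⟨true,0,⟨0,[(5,
  0)]⟩,⟨0,[(3,0)]⟩⟩ ⟨false,1,⟨11,[(5,9),(1,1),(1,4),(19,2),(3,4),(0,0)]⟩,⟨0,[(1,0),(30,0)]⟩⟩ ⟨true,
  0,⟨0,[(0,0),(4,0)]⟩,⟨0,[(1,0),(8,0),(0,0),(11,1),(8,0),(2,0)]⟩⟩,.o ⟨false,1,⟨15,[(5,15),(0,0),(5,
  1),(16,2),(4,7)]⟩,⟨0,[(0,0),(0,0),(8,0),(0,0),(11,1),(8,0),(3,0)]⟩⟩,.o ⟨false,1,⟨14,[(4,0),(12,1),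
  (1,12),(9,2),(3,6),(0,0)]⟩,⟨0,[(0,0)]⟩⟩,.e ⟨false,1,⟨0,[(7,0),(26,0)]⟩,⟨0,[(3,0),(15,0)]⟩⟩ ⟨false,
  1,⟨2,[(5,1),(1,0),(1,0),(23,0),(0,1)]⟩,⟨0,[(1,0),(8,0),(0,0),(11,1),(8,0),(2,0)]⟩⟩]⟩)))

theorem ok43 : chk K t43 r18 = true := by decide +kernel

noncomputable def t45 : Tre :=
  (.Q [0,0,0,0,0,0,1,1,0,-1,1] (.p true [0,0,1] [1] (⟨0,[(22,0)]⟩,⟨0,[(21,0)]⟩) .k 1 (⟨0,[]⟩,⟨0,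
  []⟩) .k .k) (.R ⟨0,false,false,false,[0,0,1],[0,1,-1],[0,1,1],(⟨0,[(23,0)]⟩,⟨0,[(22,0)]⟩),(⟨0,
  [(12,0)]⟩,⟨0,[(23,0),(3,0)]⟩),⟨0,[(12,0)]⟩,.k,.k,.k,(.r 0 ⟨0,[(0,0),(0,0),(4,0)]⟩ ⟨0,[(5,0),(27,
  0)]⟩),.k,.k,⟨false,0,⟨1,[(0,1),(0,0),(23,1),(1,1),(3,1),(4,0)]⟩,⟨0,[(2,0),(32,0)]⟩⟩,⟨true,0,⟨0,
  [(1,0)]⟩,⟨0,[(20,1)]⟩⟩,⟨true,0,⟨0,[(19,0),(0,0)]⟩,⟨0,[(0,0),(16,0)]⟩⟩,⟨false,1,⟨0,[(3,0)]⟩,⟨0,[(0,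
  0),(5,0)]⟩⟩,⟨false,0,⟨0,[]⟩,⟨0,[]⟩⟩,⟨false,0,⟨0,[]⟩,⟨0,[]⟩⟩,[.o ⟨false,1,⟨8,[(2,1),(0,4),(6,0),(7,
  2),(11,1),(2,1)]⟩,⟨0,[(4,0)]⟩⟩,.o ⟨false,1,⟨0,[(0,0),(2,0)]⟩,⟨1,[(4,0),(13,0),(13,0)]⟩⟩,.o ⟨false,
  1,⟨14,[(5,0),(12,1),(1,12),(9,2),(3,6),(0,0)]⟩,⟨2,[(1,0),(19,0)]⟩⟩,.a ⟨true,0,⟨0,[(20,0)]⟩,⟨0,
  [(17,0)]⟩⟩ ⟨true,0,⟨0,[(37,0)]⟩,⟨0,[]⟩⟩ ⟨false,1,⟨3,[(1,1),(1,1),(29,1),(0,0),(0,0)]⟩,⟨0,[(4,0),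
  (15,0)]⟩⟩]⟩) (.I [1,-1,-1,0,1,0,0,-1] (.Q [0,1,0,1,0,0,-2,-2,0,0,-2] (.p false [0,0,1] [0,1,-1]
  (⟨0,[(24,0)]⟩,⟨0,[(23,0)]⟩) .k 2 (⟨0,[(13,0)]⟩,⟨0,[(24,0),(3,0)]⟩) .k (.r 0 ⟨2,[(2,1),(2,5),(16,
  1),(11,5)]⟩ ⟨0,[(0,0),(19,0),(0,0)]⟩)) (.R ⟨0,false,false,true,[0,0,1],[0,1,-1],[],(⟨0,[(25,0)]⟩,
  ⟨0,[(24,0)]⟩),(⟨0,[(14,0)]⟩,⟨0,[(25,0),(3,0)]⟩),⟨0,[(14,0)]⟩,.k,.k,.k,(.r 0 ⟨0,[(3,0),(2,1),(28,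
  0)]⟩ ⟨0,[(7,0),(27,0)]⟩),.k,.k,⟨false,1,⟨0,[(1,0),(1,0),(2,1),(28,0)]⟩,⟨1,[(4,1),(17,0),(0,0)]⟩⟩,
  ⟨true,0,⟨0,[(3,0)]⟩,⟨0,[(22,1)]⟩⟩,⟨false,1,⟨2,[(1,0),(5,0),(29,0)]⟩,⟨2,[(3,0),(2,2),(16,0),(11,
  2)]⟩⟩,⟨true,0,⟨0,[(0,0)]⟩,⟨0,[(6,1),(28,0)]⟩⟩,⟨false,0,⟨0,[]⟩,⟨0,[]⟩⟩,⟨false,0,⟨0,[]⟩,⟨0,[]⟩⟩,[.e
  ⟨false,1,⟨8,[(7,0),(1,0),(2,0),(2,1),(4,1),(15,4),(0,0)]⟩,⟨0,[]⟩⟩ ⟨false,0,⟨0,[(3,0),(0,0)]⟩,⟨1,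
  [(6,1),(15,1),(13,0),(0,0)]⟩⟩,.o ⟨false,1,⟨8,[(4,1),(0,4),(6,0),(7,2),(11,1),(2,1)]⟩,⟨0,[(6,0)]⟩⟩,
  .o ⟨false,1,⟨14,[(7,0),(12,1),(1,12),(9,2),(3,6),(0,0)]⟩,⟨2,[(3,0),(19,0)]⟩⟩,.a ⟨true,0,⟨0,[(22,
  0)]⟩,⟨0,[(19,0)]⟩⟩ ⟨false,1,⟨1,[(36,0),(0,0)]⟩,⟨1,[(22,0),(0,0)]⟩⟩ ⟨true,0,⟨0,[(3,0),(0,0)]⟩,⟨0,
  [(6,0),(15,0)]⟩⟩]⟩) (.R ⟨0,false,false,false,[0,0,1],[0,1,-1],[1,0,0,0,0,0,0,1],(⟨0,[(25,0)]⟩,⟨0,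
  [(24,0)]⟩),(⟨0,[(14,0)]⟩,⟨0,[(25,0),(3,0)]⟩),⟨0,[(14,0)]⟩,.k,.k,.k,(.r 0 ⟨8,[(0,5),(2,6),(6,2),(9,
  2),(2,0)]⟩ ⟨0,[(7,0),(27,0)]⟩),.k,.k,⟨false,0,⟨0,[(0,0),(2,0),(29,0),(1,0)]⟩,⟨0,[(7,0),(27,0)]⟩⟩,
  ⟨true,0,⟨0,[(3,0)]⟩,⟨0,[(22,1)]⟩⟩,⟨true,0,⟨0,[]⟩,⟨0,[(39,0)]⟩⟩,⟨false,1,⟨0,[(5,0)]⟩,⟨3,[(0,2),(19,
  1),(13,0)]⟩⟩,⟨false,0,⟨0,[]⟩,⟨0,[]⟩⟩,⟨false,0,⟨0,[]⟩,⟨0,[]⟩⟩,[.o ⟨false,1,⟨8,[(4,1),(0,4),(6,0),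
  (7,2),(11,1),(2,1)]⟩,⟨0,[(6,0)]⟩⟩,.o ⟨false,1,⟨1,[(1,1),(1,0),(9,1),(0,1),(11,3),(8,1),(2,2)]⟩,⟨3,
  [(0,0),(19,1),(13,2)]⟩⟩,.o ⟨false,1,⟨69,[(0,25),(3,25),(2,21),(12,17),(11,13),(3,10),(0,8)]⟩,⟨2,
  [(3,0),(19,0)]⟩⟩,.a ⟨true,0,⟨0,[(22,0)]⟩,⟨0,[(19,0)]⟩⟩ ⟨true,0,⟨1,[(0,0),(2,0),(29,0),(1,1)]⟩,⟨0,
  [(21,0),(0,0)]⟩⟩ ⟨false,1,⟨3,[(3,1),(1,1),(29,1),(0,0),(0,0)]⟩,⟨1,[(0,0),(21,1),(11,0)]⟩⟩]⟩)) (.R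
  ⟨0,false,false,true,[1,0,-1],[1,-1],[0,1,1],(⟨0,[(23,0)]⟩,⟨0,[(24,0)]⟩),(⟨0,[(28,0)]⟩,⟨0,[(29,
  0)]⟩),⟨0,[(12,0)]⟩,.k,.k,.k,.k,.k,.k,⟨false,0,⟨1,[(21,0),(0,0),(11,1)]⟩,⟨1,[(32,1),(2,0),(0,0)]⟩⟩,
  ⟨true,0,⟨0,[(21,0)]⟩,⟨2,[(2,0),(19,0)]⟩⟩,⟨true,(-1),⟨0,[(0,0)]⟩,⟨0,[(3,0),(28,0),(3,0)]⟩⟩,⟨false,
  0,⟨0,[(5,0)]⟩,⟨2,[(4,1),(14,0),(14,0),(1,0)]⟩⟩,⟨false,0,⟨0,[]⟩,⟨0,[]⟩⟩,⟨false,0,⟨0,[]⟩,⟨0,[]⟩⟩,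
  [.o ⟨false,0,⟨0,[(33,0)]⟩,⟨14,[(4,0),(14,1),(11,2),(2,13),(1,7)]⟩⟩,.a ⟨true,0,⟨0,[(1,0),(3,0)]⟩,
  ⟨0,[(34,0)]⟩⟩ ⟨true,0,⟨1,[(21,0),(0,0)]⟩,⟨0,[]⟩⟩ ⟨false,1,⟨1,[(21,1),(10,1),(2,0),(0,0)]⟩,⟨2,[(2,
  0),(19,0),(11,2)]⟩⟩,.o ⟨false,0,⟨2,[(2,0),(19,0)]⟩,⟨14,[(6,0),(12,1),(1,12),(9,2),(3,6),(0,0)]⟩⟩,
  .o ⟨false,0,⟨0,[(22,0)]⟩,⟨3,[(12,3),(0,3),(7,3),(3,7),(6,5),(1,5),(0,0),(0,2)]⟩⟩]⟩)))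

theorem ok45 : chk K t45 l28 = true := by decide +kernel

noncomputable def t46 : Tre :=
  (.I [0,0,2,2,0,0,0,-1] (.I [0,0,-1,-1,0,0,0,2] (.K ⟨0,[0,1,-1],0,0,(⟨0,[(14,0)]⟩,⟨0,[(25,0),(3,
  0)]⟩),.k,.k,(.r 0 ⟨0,[(1,0)]⟩ ⟨3,[(0,1),(32,3),(0,1),(1,0),(0,2)]⟩),(.r (-1) ⟨5,[(1,1),(2,1),(2,
  3),(28,0),(0,0)]⟩ ⟨0,[(0,0)]⟩),.k,[⟨0,[(3,0)]⟩,⟨0,[(2,0)]⟩,⟨1,[(6,0),(13,0),(13,0)]⟩,⟨0,[(2,0),(1,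
  0)]⟩]⟩) (.R ⟨0,false,false,true,[0,0,1],[1,-1,1],[0,1,0,-1,0,0,0,1],(⟨0,[(25,0)]⟩,⟨0,[(24,0)]⟩),
  (⟨0,[(25,0),(3,0)]⟩,⟨0,[(14,0)]⟩),⟨0,[(14,0)]⟩,.k,.k,.k,.k,.k,.k,⟨true,0,⟨1,[(22,0),(0,0)]⟩,⟨0,
  []⟩⟩,⟨false,0,⟨5,[(0,0),(0,0),(6,2),(10,2)]⟩,⟨15,[(9,0),(5,1),(16,2),(3,7)]⟩⟩,⟨true,0,⟨0,[(34,
  0)]⟩,⟨0,[(35,0)]⟩⟩,⟨false,0,⟨0,[(0,0),(1,0),(3,1),(12,0)]⟩,⟨33,[(1,1),(10,0),(7,1),(11,6),(2,29),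
  (0,1),(0,17)]⟩⟩,⟨false,0,⟨0,[]⟩,⟨0,[]⟩⟩,⟨false,0,⟨0,[]⟩,⟨0,[]⟩⟩,[.o ⟨false,0,⟨1,[(6,0),(13,0),(13,
  0)]⟩,⟨13,[(0,6),(1,8),(10,3),(0,3),(4,4),(6,7),(5,2),(0,1),(1,8),(1,7)]⟩⟩,.o ⟨false,0,⟨0,[(6,0)]⟩,
  ⟨3,[(1,0),(2,0),(0,0),(6,0),(19,0),(3,0)]⟩⟩,.o ⟨false,1,⟨39,[(3,12),(3,6),(12,13),(11,7),(3,9),(0,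
  6)]⟩,⟨0,[(2,0)]⟩⟩,.a ⟨true,0,⟨0,[(22,0)]⟩,⟨0,[(19,0)]⟩⟩ ⟨true,0,⟨0,[(2,0),(3,0),(26,0),(1,0)]⟩,⟨2,
  [(0,0),(0,0)]⟩⟩ ⟨false,0,⟨0,[(6,0),(12,0)]⟩,⟨89,[(0,21),(0,33),(5,5),(24,17),(3,2),(0,44)]⟩⟩]⟩))
  (.K ⟨0,[0,1,-1],0,0,(⟨0,[(13,0)]⟩,⟨0,[(24,0),(3,0)]⟩),.k,.k,(.x (-1) ⟨31,[(0,27),(0,2),(2,13),(13,
  0),(5,31),(0,19),(2,43),(1,6),(0,8),(2,41)]⟩ ⟨1,[(13,1),(7,2),(0,0),(3,1)]⟩),(.r (-1) ⟨0,[(6,0),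
  (27,0)]⟩ ⟨1,[(0,0),(0,2),(3,2),(28,2)]⟩),.k,[⟨0,[(2,0)]⟩,⟨0,[(1,0)]⟩,⟨1,[(5,0),(13,0),(13,0)]⟩,⟨0,
  [(1,0),(1,0)]⟩]⟩))

theorem ok46 : chk K t46 l29 = true := by decide +kernel

noncomputable def t47 : Tre :=
  (.Q [1,0,0,-1,0,0,0,0,1,0,0,1] (.p true [0,0,0,0,1] [] (⟨0,[(17,0)]⟩,⟨0,[(16,0)]⟩) .k 0 (⟨0,[]⟩,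
  ⟨0,[]⟩) .k .k) (.R ⟨0,false,false,false,[1,-1],[1,0,0,0,-1],[1],(⟨0,[(29,0)]⟩,⟨0,[(30,0)]⟩),(⟨0,
  [(17,0)]⟩,⟨0,[(18,0)]⟩),⟨0,[(13,0),(0,0)]⟩,.k,.k,(.r (-1) ⟨0,[(33,1),(3,0)]⟩ ⟨0,[(22,0),(0,0),(11,
  1)]⟩),(.r (-1) ⟨1,[(34,1),(1,0),(0,0)]⟩ ⟨1,[(22,0),(0,0),(11,1)]⟩),.k,.k,⟨true,0,⟨0,[]⟩,⟨0,[(38,
  0)]⟩⟩,⟨false,1,⟨10,[(1,9),(13,0),(16,1),(3,5)]⟩,⟨2,[(9,0),(2,0),(3,0),(5,1),(15,0)]⟩⟩,⟨true,0,⟨1,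
  [(22,0),(0,0),(11,1)]⟩,⟨0,[(33,0)]⟩⟩,⟨false,1,⟨11,[(1,9),(13,1),(6,4),(0,4),(8,1),(2,11),(1,5)]⟩,
  ⟨0,[(0,0)]⟩⟩,⟨false,0,⟨0,[]⟩,⟨0,[]⟩⟩,⟨false,0,⟨0,[]⟩,⟨0,[]⟩⟩,[.a ⟨true,0,⟨3,[(1,3),(20,0),(0,0),
  (14,1)]⟩,⟨0,[(16,0)]⟩⟩ ⟨true,0,⟨0,[]⟩,⟨1,[(22,0),(0,0)]⟩⟩ ⟨false,1,⟨19,[(1,19),(30,3),(0,1),(1,1),
  (0,8),(0,2),(1,3)]⟩,⟨1,[(9,0),(2,0),(9,1)]⟩⟩,.o ⟨false,1,⟨11,[(1,9),(13,1),(6,2),(0,2),(8,1),(4,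
  5),(0,3)]⟩,⟨1,[(9,0),(3,0),(0,0),(11,1),(12,1)]⟩⟩,.o ⟨false,0,⟨1,[(22,0),(0,0)]⟩,⟨15,[(9,0),(5,1),
  (16,2),(3,7)]⟩⟩,.o ⟨false,0,⟨0,[(22,0),(0,0)]⟩,⟨2,[(1,3),(7,1),(22,0),(0,1),(1,1),(1,0)]⟩⟩]⟩) (.Q
  [0,0,1,0,0,0,1,0,1,-1,1,1] (.p true [0,0,1] [1,0,0,0,-1] (⟨0,[(25,0)]⟩,⟨0,[(24,0)]⟩) .k 2 (⟨0,
  [(17,0)]⟩,⟨0,[(18,0)]⟩) .k (.r 0 ⟨1,[(0,1),(5,1),(2,0),(2,0)]⟩ ⟨3,[(7,1),(3,0),(4,0),(19,0)]⟩))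
  (.Q [-1,0,0,0,0,0,-1,0,-1,1,-1,-1] (.p false [0,0,1] [1,0,0,0,-1] (⟨0,[(26,0)]⟩,⟨0,[(25,0)]⟩) .k
  2 (⟨0,[(18,0)]⟩,⟨0,[(19,0)]⟩) .k (.r 0 ⟨1,[(1,1),(5,1),(2,0),(2,0)]⟩ ⟨3,[(8,1),(3,0),(4,0),(19,
  0)]⟩)) (.R ⟨0,false,false,true,[0,0,1],[1,0,0,0,-1],[1],(⟨0,[(27,0)]⟩,⟨0,[(26,0)]⟩),(⟨0,[(19,0)]⟩,
  ⟨0,[(20,0)]⟩),⟨0,[(16,0)]⟩,.k,.k,.k,.k,.k,.k,⟨false,1,⟨1,[(38,0),(0,0)]⟩,⟨0,[(41,0)]⟩⟩,⟨true,0,⟨0,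
  [(0,0)]⟩,⟨0,[(1,0)]⟩⟩,⟨false,1,⟨3,[(4,1),(2,0),(1,0),(25,0),(3,1)]⟩,⟨1,[(2,1),(5,1),(2,0),(2,
  0)]⟩⟩,⟨true,0,⟨3,[(0,1),(2,1),(1,0),(17,3),(16,0)]⟩,⟨0,[(2,0),(5,0),(2,0)]⟩⟩,⟨false,0,⟨0,[]⟩,⟨0,
  []⟩⟩,⟨false,0,⟨0,[]⟩,⟨0,[]⟩⟩,[.o ⟨false,0,⟨0,[(2,0),(33,0)]⟩,⟨15,[(11,10),(5,5),(16,0),(4,7)]⟩⟩,
  .a ⟨true,0,⟨3,[(0,1),(2,1),(1,0),(34,0)]⟩,⟨0,[(18,0)]⟩⟩ ⟨false,1,⟨1,[(38,0),(0,0)]⟩,⟨0,[(41,0)]⟩⟩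
  ⟨true,0,⟨0,[(0,0)]⟩,⟨0,[(1,0)]⟩⟩,.a ⟨true,0,⟨0,[(4,0)]⟩,⟨2,[(5,0),(8,1),(6,0)]⟩⟩ ⟨true,0,⟨0,[]⟩,
  ⟨0,[(41,0)]⟩⟩ ⟨false,0,⟨0,[(0,0)]⟩,⟨39,[(5,18),(3,0),(1,19),(10,1),(11,3),(3,9),(0,20)]⟩⟩,.a
  ⟨true,0,⟨0,[(24,0)]⟩,⟨0,[(21,0)]⟩⟩ ⟨false,1,⟨1,[(38,0),(0,0)]⟩,⟨1,[(24,0),(0,0)]⟩⟩ ⟨true,0,⟨2,[(0,
  1),(1,0),(18,0),(11,0),(1,0)]⟩,⟨0,[(1,0)]⟩⟩]⟩) (.I [1,0,1,0,0,0,0,0,1] (.I [0,0,-1,1] (.I [-1,0,0,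
  1,0,0,0,0,-1] (.I [1,0,0,0,0,1,1,0,1] (.I [1,1,-1,0,0,0,0,-1] (.I [1,0,-1,0,0,1,1] (.C [(0,0),(20,
  0),(5,0),(6,1),(11,1)]) (.C [(0,0),(5,0),(2,0),(12,0)])) (.C [(0,0),(4,0),(2,0),(19,0)])) (.C [(0,
  0),(3,0),(15,0),(2,0)])) (.C [(0,0),(4,0),(17,0)])) (.C [(0,0),(1,0),(1,0),(18,0)])) (.C [(0,0),
  (0,0),(18,0),(5,0)]))) (.Q [-1,0,1,0,0,0,1,0,-1,0,1,-1] (.p true [0,0,1] [0,0,0,0,1] (⟨0,[(26,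
  0)]⟩,⟨0,[(25,0)]⟩) .k 2 (⟨0,[(19,0)]⟩,⟨0,[(18,0)]⟩) .k (.r 0 ⟨0,[(0,0),(0,0),(5,0),(2,0),(28,0)]⟩
  ⟨17,[(8,9),(1,0),(2,0),(2,1),(4,1),(15,4),(0,0)]⟩)) (.R ⟨0,false,false,false,[0,0,1],[0,0,0,0,1],
  [0,1,1],(⟨0,[(27,0)]⟩,⟨0,[(26,0)]⟩),(⟨0,[(20,0)]⟩,⟨0,[(19,0)]⟩),⟨0,[(16,0)]⟩,.k,.k,.k,.k,.k,.k,
  ⟨false,0,⟨0,[(41,0)]⟩,⟨1,[(38,0),(0,0)]⟩⟩,⟨true,0,⟨0,[(1,0),(9,0),(28,0)]⟩,⟨0,[(0,0)]⟩⟩,⟨true,0,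
  ⟨0,[(23,0),(0,0)]⟩,⟨0,[(1,0),(0,0),(5,0),(2,0)]⟩⟩,⟨false,1,⟨7,[(7,0),(1,2),(1,3),(2,1),(6,1),(13,
  0),(3,3)]⟩,⟨0,[(2,0),(5,0)]⟩⟩,⟨false,0,⟨0,[]⟩,⟨0,[]⟩⟩,⟨false,0,⟨0,[]⟩,⟨0,[]⟩⟩,[.a ⟨true,0,⟨0,[(18,
  0)]⟩,⟨3,[(0,1),(2,1),(10,0),(14,0),(1,0)]⟩⟩ ⟨false,0,⟨0,[(41,0)]⟩,⟨1,[(38,0),(0,0)]⟩⟩ ⟨true,0,⟨1,
  [(11,0),(2,0)]⟩,⟨0,[(0,0)]⟩⟩,.o ⟨false,1,⟨15,[(11,10),(5,5),(16,0),(4,7)]⟩,⟨0,[(2,0),(33,0)]⟩⟩,.a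
  ⟨true,0,⟨0,[(4,0)]⟩,⟨2,[(5,0),(8,1),(6,0)]⟩⟩ ⟨false,0,⟨1,[(24,0),(0,0)]⟩,⟨1,[(38,0),(0,0)]⟩⟩
  ⟨true,0,⟨1,[(11,0),(2,0)]⟩,⟨2,[(0,1),(1,0),(1,0),(28,0),(1,0)]⟩⟩,.a ⟨true,0,⟨0,[(24,0)]⟩,⟨0,[(21,
  0)]⟩⟩ ⟨true,0,⟨0,[(41,0)]⟩,⟨0,[]⟩⟩ ⟨false,1,⟨1,[(11,0),(2,0),(23,0),(0,0)]⟩,⟨0,[(0,0)]⟩⟩]⟩) (.I
  [1,0,0,1,0,0,0,0,1] (.I [0,0,0,0,0,1,1] (.C [(0,0),(1,0),(0,0),(2,0),(10,0),(12,1),(11,1)]) (.C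
  [(0,0),(5,0),(11,0)])) (.C [(0,0),(2,0),(8,0),(7,0)])))))

theorem ok47 : chk K t47 l30 = true := by decide +kernel

noncomputable def t48 : Tre :=
  (.K ⟨0,[0,0,0,0,1],(-1),(-1),(⟨0,[(18,0)]⟩,⟨0,[(17,0)]⟩),.k,(.r (-1) ⟨1,[(34,1),(1,0),(0,0)]⟩ ⟨1,
  [(22,0),(0,0),(11,1)]⟩),(.r 0 ⟨1,[(22,0),(0,0),(11,1)]⟩ ⟨1,[(34,1),(1,0),(0,0)]⟩),.k,.k,[⟨0,[(2,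
  0),(12,0)]⟩,⟨0,[(0,0)]⟩,⟨0,[(15,0),(23,0)]⟩,⟨0,[(0,0),(32,0),(1,0)]⟩]⟩)

theorem ok48 : chk K t48 l31 = true := by decide +kernel

noncomputable def t49 : Tre :=
  (.Q [-1,-1,0,0,1,0,0,0,-1,0,0,-1] (.p false [0,0,0,0,1] [] (⟨0,[(19,0)]⟩,⟨0,[(18,0)]⟩) .k 0 (⟨0,
  []⟩,⟨0,[]⟩) .k .k) (.Q [1,0,0,0,0,0,-1,-1,1,0,-1,1] (.p false [0,0,1] [0,0,0,0,1] (⟨0,[(27,0)]⟩,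
  ⟨0,[(26,0)]⟩) .k 2 (⟨0,[(20,0)]⟩,⟨0,[(19,0)]⟩) .k (.r 0 ⟨6,[(1,5),(8,0),(3,1),(6,2),(15,0),(2,
  2)]⟩ ⟨17,[(9,9),(1,0),(2,0),(2,1),(4,1),(15,4),(0,0)]⟩)) (.R ⟨0,false,false,false,[1,0,-1],[1,0,0,
  0,-1],[1],(⟨0,[(27,0)]⟩,⟨0,[(28,0)]⟩),(⟨0,[(20,0)]⟩,⟨0,[(21,0)]⟩),⟨0,[(16,0)]⟩,.k,.k,.k,.k,.k,.k,
  ⟨true,0,⟨0,[]⟩,⟨0,[(41,0)]⟩⟩,⟨false,1,⟨0,[(3,0),(1,0)]⟩,⟨0,[(4,0),(17,0)]⟩⟩,⟨true,0,⟨3,[(2,2),(8,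
  0),(3,1),(22,0)]⟩,⟨0,[(5,0),(18,0)]⟩⟩,⟨false,1,⟨1,[(1,1),(0,0),(8,0),(26,0)]⟩,⟨0,[(0,0)]⟩⟩,⟨false,
  0,⟨0,[]⟩,⟨0,[]⟩⟩,⟨false,0,⟨0,[]⟩,⟨0,[]⟩⟩,[.o ⟨false,1,⟨0,[(14,0)]⟩,⟨0,[(0,0),(1,0)]⟩⟩,.o ⟨false,1,
  ⟨0,[(1,0)]⟩,⟨2,[(2,0),(1,0),(7,0),(11,0),(9,0)]⟩⟩,.a ⟨true,0,⟨2,[(6,0),(8,1),(6,0)]⟩,⟨0,[(5,0)]⟩⟩
  ⟨true,0,⟨0,[]⟩,⟨0,[(42,0)]⟩⟩ ⟨false,1,⟨0,[(1,0),(3,0)]⟩,⟨1,[(12,0),(2,0)]⟩⟩,.o ⟨false,0,⟨0,[(26,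
  0)]⟩,⟨4,[(5,2),(0,0),(28,0),(3,2)]⟩⟩]⟩) (.Q [-1,1,0,0,0,0,-1,-1,-1,1,-1,-1] (.p false [0,0,1] [1,
  0,0,0,-1] (⟨0,[(28,0)]⟩,⟨0,[(27,0)]⟩) .k 2 (⟨0,[(20,0)]⟩,⟨0,[(21,0)]⟩) .k (.r 0 ⟨3,[(2,2),(8,0),
  (3,1),(22,0)]⟩ ⟨3,[(10,1),(3,0),(4,0),(19,0)]⟩)) (.Q [1,0,-1,0,0,0,-1,0,1,0,-1,1] (.p false [0,0,
  1] [0,0,0,0,1] (⟨0,[(29,0)]⟩,⟨0,[(28,0)]⟩) .k 2 (⟨0,[(22,0)]⟩,⟨0,[(21,0)]⟩) .k (.r 0 ⟨6,[(3,5),(8,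
  0),(3,1),(6,2),(15,0),(2,2)]⟩ ⟨17,[(11,9),(1,0),(2,0),(2,1),(4,1),(15,4),(0,0)]⟩)) (.Q [0,0,1,0,0,
  0,1,0,-1,0,1,-1] (.p true [0,0,1] [0,0,0,0,1] (⟨0,[(30,0)]⟩,⟨0,[(29,0)]⟩) .k 2 (⟨0,[(23,0)]⟩,⟨0,
  [(22,0)]⟩) .k (.r 0 ⟨6,[(4,5),(8,0),(3,1),(6,2),(15,0),(2,2)]⟩ ⟨17,[(12,9),(1,0),(2,0),(2,1),(4,
  1),(15,4),(0,0)]⟩)) (.R ⟨0,false,false,false,[0,0,1],[0,0,0,0,1],[0,1,1],(⟨0,[(31,0)]⟩,⟨0,[(30,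
  0)]⟩),(⟨0,[(24,0)]⟩,⟨0,[(23,0)]⟩),⟨0,[(20,0)]⟩,.k,.k,.k,.k,.k,.k,⟨false,0,⟨0,[(45,0)]⟩,⟨1,[(42,0),
  (0,0)]⟩⟩,⟨true,0,⟨3,[(1,1),(13,0),(2,0),(25,1)]⟩,⟨0,[(0,0)]⟩⟩,⟨true,0,⟨0,[(27,0),(0,0)]⟩,⟨0,[(5,
  0),(19,0)]⟩⟩,⟨false,1,⟨3,[(1,1),(11,1),(1,0),(2,0),(24,1)]⟩,⟨0,[(3,0)]⟩⟩,⟨false,0,⟨0,[]⟩,⟨0,[]⟩⟩,
  ⟨false,0,⟨0,[]⟩,⟨0,[]⟩⟩,[.e ⟨false,0,⟨0,[(45,0)]⟩,⟨1,[(42,0),(0,0)]⟩⟩ ⟨false,0,⟨0,[(1,0)]⟩,⟨7,[(3,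
  1),(2,1),(2,2),(3,0),(3,3),(24,0)]⟩⟩,.o ⟨false,1,⟨15,[(15,10),(5,5),(16,0),(4,7)]⟩,⟨0,[(2,0),(2,
  0)]⟩⟩,.a ⟨true,0,⟨0,[(8,0)]⟩,⟨2,[(9,0),(8,1),(6,0)]⟩⟩ ⟨false,0,⟨1,[(28,0),(0,0)]⟩,⟨1,[(42,0),(0,
  0)]⟩⟩ ⟨true,0,⟨1,[(15,0),(2,0)]⟩,⟨1,[(0,0),(2,0),(6,0),(28,0)]⟩⟩,.e ⟨true,0,⟨0,[(45,0)]⟩,⟨0,[]⟩⟩
  ⟨true,0,⟨0,[(1,0)]⟩,⟨0,[(0,0),(44,0)]⟩⟩]⟩) (.Q [0,0,0,0,0,0,0,0,0,1,-2] (.ed true [0,0,2] (.r 0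
  ⟨1,[(5,2),(8,0),(3,1),(22,0)]⟩ ⟨1,[(8,1),(2,0),(1,0),(25,0)]⟩)) (.Q [0,-1,-1,0,0,0,1,2,0,0,1] (.p
  true [0,0,1] [] (⟨0,[(32,0)]⟩,⟨0,[(31,0)]⟩) .k 0 (⟨0,[]⟩,⟨0,[]⟩) .k .k) (.R ⟨0,false,false,false,
  [0,0,1],[0,0,2],[1],(⟨0,[(33,0)]⟩,⟨0,[(32,0)]⟩),(⟨0,[(33,1)]⟩,⟨0,[(1,0)]⟩),⟨0,[(22,0)]⟩,.k,.k,.k,
  .k,.k,.k,⟨false,1,⟨0,[(10,1),(2,0),(27,0)]⟩,⟨1,[(0,0),(6,0),(12,0),(7,0),(2,0)]⟩⟩,⟨true,0,⟨0,[(10,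
  0)]⟩,⟨0,[(31,0)]⟩⟩,⟨false,1,⟨3,[(10,1),(2,0),(1,0),(25,0),(3,1)]⟩,⟨3,[(0,0),(6,0),(12,0),(7,0),(2,
  0)]⟩⟩,⟨true,0,⟨2,[(0,0),(27,0),(1,0)]⟩,⟨0,[(29,0)]⟩⟩,⟨false,0,⟨0,[]⟩,⟨0,[]⟩⟩,⟨false,0,⟨0,[]⟩,⟨0,
  []⟩⟩,[.o ⟨false,0,⟨2,[(0,0),(6,2),(20,0),(1,0)]⟩,⟨0,[(13,0),(28,0)]⟩⟩,.e ⟨false,1,⟨1,[(44,0),(0,
  0)]⟩,⟨0,[(47,0)]⟩⟩ ⟨false,0,⟨0,[(0,0)]⟩,⟨1,[(13,0),(1,0),(23,0),(2,0)]⟩⟩,.a ⟨true,0,⟨0,[(10,0)]⟩,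
  ⟨2,[(11,0),(8,1),(6,0)]⟩⟩ ⟨true,0,⟨0,[]⟩,⟨0,[(47,0)]⟩⟩ ⟨false,0,⟨1,[(0,1),(29,0),(0,0)]⟩,⟨1,[(13,
  0),(1,0),(25,0)]⟩⟩,.e ⟨false,1,⟨1,[(44,0),(0,0)]⟩,⟨1,[(30,0),(0,0)]⟩⟩ ⟨false,0,⟨0,[(0,0)]⟩,⟨2,
  [(13,0),(1,1),(15,0),(10,0)]⟩⟩]⟩) (.I [1,-1,0,0,1,0,0,-2] (.Q [0,0,1,0,0,0,-2,0,0,0,-2] (.p false
  [0,0,1] [0,1,-1] (⟨0,[(34,0)]⟩,⟨0,[(33,0)]⟩) .k 2 (⟨0,[(23,0)]⟩,⟨0,[(34,0),(3,0)]⟩) .k (.r 0 ⟨1,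
  [(8,2),(8,0),(3,1),(22,0)]⟩ ⟨2,[(0,1),(15,0),(23,0)]⟩)) (.R ⟨0,false,false,false,[1,0,-2],[1,0,
  -1],[0,1],(⟨0,[(3,0)]⟩,⟨0,[(35,1)]⟩),(⟨0,[(34,0)]⟩,⟨0,[(35,0)]⟩),⟨0,[(23,0),(11,0)]⟩,.k,.k,(.r
  (-1) ⟨0,[(1,0),(41,0)]⟩ ⟨0,[(0,0),(8,0),(8,0),(26,1)]⟩),.k,.k,.k,⟨false,0,⟨0,[(20,0),(24,0)]⟩,⟨7,
  [(1,1),(15,1),(28,0),(0,2)]⟩⟩,⟨true,0,⟨0,[(12,0)]⟩,⟨0,[(33,0)]⟩⟩,⟨false,0,⟨1,[(9,2),(8,0),(3,1),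
  (22,0)]⟩,⟨0,[(1,0)]⟩⟩,⟨true,0,⟨1,[(9,0),(8,0),(26,0)]⟩,⟨0,[(31,0)]⟩⟩,⟨false,0,⟨0,[]⟩,⟨0,[]⟩⟩,
  ⟨false,0,⟨0,[]⟩,⟨0,[]⟩⟩,[.o ⟨false,1,⟨31,[(17,15),(1,0),(2,15),(2,1),(16,2),(3,7)]⟩,⟨0,[(9,0)]⟩⟩,
  .o ⟨false,1,⟨39,[(1,17),(15,1),(4,19),(19,3),(3,0),(0,10)]⟩,⟨11,[(0,0),(1,1),(6,11),(20,3),(10,
  2)]⟩⟩,.a ⟨true,0,⟨0,[(22,0)]⟩,⟨0,[(12,1)]⟩⟩ ⟨true,0,⟨11,[(0,0),(1,1),(27,3),(10,2)]⟩,⟨0,[]⟩⟩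
  ⟨false,1,⟨3,[(1,1),(11,1),(32,0),(0,0)]⟩,⟨0,[(9,0),(12,0)]⟩⟩,.o ⟨false,0,⟨0,[(0,0)]⟩,⟨4,[(12,7),
  (0,0),(28,0),(3,2)]⟩⟩]⟩) (.I [-1,0,-1,0,0,0,0,1] (.I [-1,0,1,0,0,0,0,1,-1] (.I [0,0,-1,0,0,1,-1]
  (.C [(0,1),(2,0),(2,1),(19,1),(12,3),(11,2)]) (.C [(0,0),(25,0),(5,0)])) (.C [(0,0),(8,0),(20,0),
  (4,0)])) (.C [(0,0),(4,0),(2,0)]))) (.I [0,0,1,0,0,0,0,0,1] (.I [0,0,0,0,0,1,1] (.I [-1,0,-1,0,0,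
  0,0,1] (.I [0,0,-1,0,0,1,-1] (.C [(0,0),(1,0),(1,0),(0,0),(9,0),(23,1),(10,0)]) (.C [(0,0),(25,0),
  (5,0)])) (.C [(0,0),(5,0),(2,0)])) (.C [(0,0),(3,0),(8,0),(10,0)])) (.C [(0,0),(10,0),(15,0)]))))
  (.Q [0,1,0,-1,-1,0,3,3,0,-1,3] (.p true [0,0,1] [1,1,-2] (⟨0,[(32,0)]⟩,⟨0,[(31,0)]⟩) .k 2 (⟨0,
  [(21,0),(9,0)]⟩,⟨0,[(0,0),(35,0)]⟩) (.x (-1) ⟨15,[(0,15),(15,0),(2,15),(2,1),(13,15),(2,2),(3,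
  7)]⟩ ⟨0,[(9,1),(11,1),(11,0),(11,0)]⟩) (.x (-1) ⟨4,[(6,5),(2,14),(2,2),(8,3),(9,10),(1,3),(5,0),
  (0,2),(4,2)]⟩ ⟨1,[(0,2),(18,2)]⟩)) (.Q [0,0,0,0,0,0,-3,0,0,1,-3] (.p false [0,0,1] [1,1,-2] (⟨0,
  [(33,0)]⟩,⟨0,[(32,0)]⟩) .k 2 (⟨0,[(22,0),(9,0)]⟩,⟨0,[(1,0),(35,0)]⟩) (.r (-1) ⟨0,[(15,0),(27,0)]⟩
  ⟨35,[(0,21),(1,5),(2,5),(14,24),(0,8),(0,8),(4,15),(6,17),(5,1),(0,13),(3,17)]⟩) (.x (-1) ⟨4,[(7,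
  5),(2,14),(2,2),(8,3),(9,10),(1,3),(5,0),(0,2),(4,2)]⟩ ⟨1,[(1,2),(18,2)]⟩)) (.Q [0,0,1,0,0,0,3,0,
  0,-1,3] (.p true [0,0,1] [1,1,-2] (⟨0,[(34,0)]⟩,⟨0,[(33,0)]⟩) .k 2 (⟨0,[(23,0),(9,0)]⟩,⟨0,[(2,0),
  (35,0)]⟩) (.r (-1) ⟨0,[(16,0),(27,0)]⟩ ⟨35,[(0,15),(0,23),(20,0),(0,0),(4,23),(6,1),(5,2),(0,11),
  (3,17)]⟩) (.x (-1) ⟨4,[(8,5),(2,14),(2,2),(8,3),(9,10),(1,3),(5,0),(0,2),(4,2)]⟩ ⟨1,[(2,2),(18,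
  2)]⟩)) (.R ⟨0,false,false,true,[1,0,-1],[0,-1,2],[1,1,0,0,0,0,0,-1],(⟨0,[(34,0)]⟩,⟨0,[(35,0)]⟩),
  (⟨0,[(3,0),(35,0)]⟩,⟨0,[(24,0),(9,0)]⟩),⟨0,[(23,0)]⟩,.k,(.r 0 ⟨35,[(1,15),(0,23),(20,0),(0,0),(4,
  23),(6,1),(5,2),(0,11),(3,17)]⟩ ⟨0,[(17,0),(27,0)]⟩),.k,(.r (-1) ⟨3,[(0,2),(5,3),(6,1),(1,3),(3,
  1),(9,0)]⟩ ⟨1,[(1,1),(0,1),(43,0),(0,0)]⟩),.k,.k,⟨false,1,⟨1,[(0,2),(14,1),(13,2),(1,1)]⟩,⟨1,[(1,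
  1),(0,1),(43,0),(0,0)]⟩⟩,⟨true,0,⟨0,[(0,0)]⟩,⟨0,[(1,0)]⟩⟩,⟨false,0,⟨0,[]⟩,⟨17,[(17,1),(1,1),(2,1),
  (2,3),(4,3),(15,0),(0,10)]⟩⟩,⟨true,(-1),⟨0,[(2,0)]⟩,⟨0,[(6,0),(8,0),(10,0)]⟩⟩,⟨false,0,⟨0,[]⟩,⟨0,
  []⟩⟩,⟨false,0,⟨0,[]⟩,⟨0,[]⟩⟩,[.o ⟨false,0,⟨4,[(2,1),(15,1),(11,1),(11,0),(1,0)]⟩,⟨0,[(15,0)]⟩⟩,.o
  ⟨false,0,⟨7,[(2,3),(13,2),(1,0),(23,0),(4,1)]⟩,⟨70,[(1,14),(12,18),(0,51),(1,12),(12,6),(10,12),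
  (0,2)]⟩⟩,.a ⟨true,0,⟨2,[(13,0),(8,1),(6,0)]⟩,⟨0,[(12,0)]⟩⟩ ⟨true,0,⟨1,[(0,0),(28,0),(1,1)]⟩,⟨71,
  [(1,23),(0,18),(27,14),(11,0),(2,18),(1,16)]⟩⟩ ⟨false,0,⟨23,[(0,7),(1,11),(13,10),(1,0),(23,0),(3,
  3),(0,5)]⟩,⟨2,[(13,0),(1,2),(6,1),(6,0)]⟩⟩,.o ⟨false,0,⟨0,[(33,0)]⟩,⟨72,[(0,22),(16,1),(12,3),(11,
  9),(3,48),(0,1)]⟩⟩]⟩) (.I [0,0,0,0,0,1,1] (.C [(0,1),(0,0),(2,0),(8,0),(23,1),(11,0)]) (.C [(0,0),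
  (12,0),(11,0)]))) (.I [0,0,0,0,0,0,-1] (.C [(0,1),(0,0),(22,1),(4,0),(6,1),(11,0)]) (.C [(0,1),(2,
  0),(25,0),(3,0)]))) (.Q [0,0,1,0,0,0,2,0,0,-1,2] (.p true [0,0,1] [1,0,-1] (⟨0,[(33,0)]⟩,⟨0,[(32,
  0)]⟩) .k 2 (⟨0,[(32,0)]⟩,⟨0,[(33,0)]⟩) .k (.r 0 ⟨1,[(7,2),(8,0),(3,1),(22,0)]⟩ ⟨26,[(0,9),(9,29),
  (4,11),(24,1),(0,9),(2,0)]⟩)) (.R ⟨0,false,false,false,[0,0,1],[1,0,-1],[1,1],(⟨0,[(34,0)]⟩,⟨0,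
  [(33,0)]⟩),(⟨0,[(33,0)]⟩,⟨0,[(34,0)]⟩),⟨0,[(23,0)]⟩,.k,.k,.k,.k,.k,.k,⟨false,0,⟨0,[(19,0),(24,
  0)]⟩,⟨9,[(0,1),(0,1),(9,1),(4,1),(25,1),(2,0),(0,4)]⟩⟩,⟨true,0,⟨0,[(21,0)]⟩,⟨0,[(0,0)]⟩⟩,⟨true,0,
  ⟨0,[(11,0),(18,0)]⟩,⟨3,[(8,2),(8,0),(3,1),(22,0)]⟩⟩,⟨false,1,⟨0,[(1,0),(13,0)]⟩,⟨1,[(8,2),(8,0),
  (26,0)]⟩⟩,⟨false,0,⟨0,[]⟩,⟨0,[]⟩⟩,⟨false,0,⟨0,[]⟩,⟨0,[]⟩⟩,[.o ⟨false,1,⟨31,[(16,15),(1,0),(2,15),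
  (2,1),(16,2),(3,7)]⟩,⟨0,[(8,0)]⟩⟩,.o ⟨false,1,⟨43,[(1,13),(14,1),(2,1),(1,0),(19,2),(1,11),(2,
  21)]⟩,⟨0,[(8,0),(39,0)]⟩⟩,.e ⟨false,0,⟨0,[]⟩,⟨17,[(16,1),(1,1),(2,1),(2,3),(4,3),(15,0),(0,10)]⟩⟩
  ⟨false,1,⟨23,[(1,5),(14,5),(0,1),(1,3),(1,15),(23,0),(0,10)]⟩,⟨0,[(8,0),(2,0)]⟩⟩,.a ⟨true,0,⟨0,
  [(31,0)]⟩,⟨0,[(28,0)]⟩⟩ ⟨true,0,⟨1,[(8,0),(4,0),(14,0),(13,0)]⟩,⟨1,[(31,0),(0,0)]⟩⟩ ⟨false,1,⟨1,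
  [(1,0),(17,0),(8,0),(17,0)]⟩,⟨0,[(8,0),(22,0)]⟩⟩]⟩) (.I [-1,0,-1,0,0,0,0,1] (.I [0,0,1,0,0,0,0,0,
  1] (.I [0,0,0,0,0,1,1] (.C [(0,1),(2,0),(1,0),(32,1),(11,0)]) (.C [(0,0),(13,0),(11,0)])) (.C [(0,
  0),(11,0),(15,0)])) (.C [(0,0),(3,0),(2,0)])))))) (.R ⟨0,false,false,false,[0,0,1],[0,0,0,0,1],[0,
  1,1],(⟨0,[(30,0)]⟩,⟨0,[(29,0)]⟩),(⟨0,[(23,0)]⟩,⟨0,[(22,0)]⟩),⟨0,[(19,0)]⟩,.k,.k,.k,.k,.k,.k,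
  ⟨false,0,⟨0,[(44,0)]⟩,⟨1,[(41,0),(0,0)]⟩⟩,⟨true,0,⟨0,[(6,0),(17,0)]⟩,⟨0,[(0,0)]⟩⟩,⟨true,0,⟨0,[(26,
  0),(0,0)]⟩,⟨0,[(4,0),(19,0)]⟩⟩,⟨false,1,⟨7,[(10,0),(1,2),(1,3),(2,1),(6,1),(13,0),(3,3)]⟩,⟨0,[(2,
  0)]⟩⟩,⟨false,0,⟨0,[]⟩,⟨0,[]⟩⟩,⟨false,0,⟨0,[]⟩,⟨0,[]⟩⟩,[.a ⟨true,0,⟨0,[(21,0)]⟩,⟨0,[(0,0),(23,
  0)]⟩⟩ ⟨false,0,⟨0,[(44,0)]⟩,⟨1,[(41,0),(0,0)]⟩⟩ ⟨true,0,⟨1,[(14,0),(2,0)]⟩,⟨0,[(0,0)]⟩⟩,.o ⟨false,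
  1,⟨15,[(14,10),(5,5),(16,0),(4,7)]⟩,⟨0,[(1,0),(2,0)]⟩⟩,.a ⟨true,0,⟨0,[(7,0)]⟩,⟨2,[(8,0),(8,1),(6,
  0)]⟩⟩ ⟨false,0,⟨1,[(27,0),(0,0)]⟩,⟨1,[(41,0),(0,0)]⟩⟩ ⟨true,0,⟨1,[(14,0),(2,0)]⟩,⟨1,[(0,0),(1,0),
  (6,0),(28,0)]⟩⟩,.a ⟨true,0,⟨0,[(27,0)]⟩,⟨0,[(24,0)]⟩⟩ ⟨true,0,⟨0,[(44,0)]⟩,⟨0,[]⟩⟩ ⟨false,1,⟨1,
  [(14,0),(2,0),(23,0),(0,0)]⟩,⟨0,[(0,0)]⟩⟩]⟩)) (.Q [0,0,0,0,0,0,1,0,1,-1,1,1] (.p true [0,0,1] [1,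
  0,0,0,-1] (⟨0,[(29,0)]⟩,⟨0,[(28,0)]⟩) .k 2 (⟨0,[(21,0)]⟩,⟨0,[(22,0)]⟩) .k (.r 0 ⟨3,[(0,0),(0,0),
  (1,0),(12,1),(7,0)]⟩ ⟨3,[(11,1),(3,0),(4,0),(19,0)]⟩)) (.R ⟨0,false,false,true,[0,0,1],[1,0,0,0,
  -1],[-1,1,1],(⟨0,[(30,0)]⟩,⟨0,[(29,0)]⟩),(⟨0,[(22,0)]⟩,⟨0,[(23,0)]⟩),⟨0,[(19,0)]⟩,.k,.k,.k,.k,.k,
  .k,⟨true,0,⟨1,[(27,0),(0,0)]⟩,⟨0,[]⟩⟩,⟨false,1,⟨0,[(20,0),(3,0)]⟩,⟨0,[(0,0)]⟩⟩,⟨true,0,⟨1,[(8,0),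
  (17,1),(16,0)]⟩,⟨0,[(4,0),(19,0)]⟩⟩,⟨false,1,⟨2,[(2,1),(0,0),(8,1),(4,0),(6,1),(1,0)]⟩,⟨0,[(1,
  0)]⟩⟩,⟨false,0,⟨0,[]⟩,⟨0,[]⟩⟩,⟨false,0,⟨0,[]⟩,⟨0,[]⟩⟩,[.o ⟨false,0,⟨0,[(2,0),(23,0)]⟩,⟨15,[(14,
  10),(5,5),(16,0),(4,7)]⟩⟩,.o ⟨false,1,⟨0,[(16,0)]⟩,⟨0,[(1,0),(24,0)]⟩⟩,.a ⟨true,0,⟨0,[(7,0)]⟩,⟨2,
  [(8,0),(8,1),(6,0)]⟩⟩ ⟨false,0,⟨0,[(43,0)]⟩,⟨1,[(41,0),(0,0)]⟩⟩ ⟨true,0,⟨2,[(2,2),(5,0),(8,1),(6,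
  0),(1,2)]⟩,⟨0,[(0,0)]⟩⟩,.e ⟨true,0,⟨0,[(44,0)]⟩,⟨0,[]⟩⟩ ⟨true,0,⟨0,[(2,0),(21,0),(1,0)]⟩,⟨2,[(0,
  0),(5,1),(1,0)]⟩⟩]⟩) (.I [1,0,0,0,0,0,0,0,1] (.I [0,0,0,0,0,0,0,1,-1] (.I [0,0,0,0,0,1,1] (.I [1,
  -1,0,0,0,0,0,1] (.C [(0,0),(10,0),(18,0)]) (.C [(0,0),(3,0),(0,0)])) (.C [(0,0),(9,0),(11,0)]))
  (.C [(0,0),(1,0),(0,0),(0,0),(20,0),(2,0)])) (.C [(0,0),(1,0),(20,0),(3,0)]))))) (.Q [-1,-1,0,1,1,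
  0,0,0,-1,0,0,-1] (.p false [0,0,0,0,1] [] (⟨0,[(20,0)]⟩,⟨0,[(19,0)]⟩) .k 0 (⟨0,[]⟩,⟨0,[]⟩) .k .k)
  (.R ⟨2,true,false,true,[0,1],[0,0,0,0,1],[1,1,1],(⟨0,[]⟩,⟨0,[]⟩),(⟨0,[(21,0)]⟩,⟨0,[(20,0)]⟩),⟨0,
  []⟩,.k,.k,.k,(.r 0 ⟨1,[(25,0),(0,0),(11,1)]⟩ ⟨1,[(37,1),(1,0),(0,0)]⟩),.k,.k,⟨true,0,⟨1,[(25,0),
  (0,0)]⟩,⟨0,[]⟩⟩,⟨false,0,⟨0,[(19,0)]⟩,⟨0,[(3,0)]⟩⟩,⟨true,0,⟨0,[(37,0)]⟩,⟨0,[(38,0)]⟩⟩,⟨false,0,⟨0,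
  [(1,0),(35,0),(2,0)]⟩,⟨0,[(0,0)]⟩⟩,⟨false,0,⟨0,[]⟩,⟨17,[(10,1),(1,1),(2,1),(2,3),(4,3),(15,0),(0,
  10)]⟩⟩,⟨true,(-1),⟨0,[(1,0)]⟩,⟨0,[(14,0)]⟩⟩,[]⟩) (.Q [-1,-1,0,0,1,0,1,1,-1,0,1,-1] (.p true [0,0,
  1] [0,0,0,0,1] (⟨0,[(28,0)]⟩,⟨0,[(27,0)]⟩) .k 2 (⟨0,[(21,0)]⟩,⟨0,[(20,0)]⟩) .k (.r 0 ⟨6,[(2,5),(8,
  0),(3,1),(6,2),(15,0),(2,2)]⟩ ⟨17,[(10,9),(1,0),(2,0),(2,1),(4,1),(15,4),(0,0)]⟩)) (.Q [1,1,0,0,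
  -1,0,-1,0,1,0,-1,1] (.p false [0,0,1] [0,0,0,0,1] (⟨0,[(29,0)]⟩,⟨0,[(28,0)]⟩) .k 2 (⟨0,[(22,0)]⟩,
  ⟨0,[(21,0)]⟩) .k (.r 0 ⟨6,[(3,5),(8,0),(3,1),(6,2),(15,0),(2,2)]⟩ ⟨13,[(0,0),(10,7),(1,0),(2,0),
  (2,0),(4,0),(15,3)]⟩)) (.R ⟨0,false,false,false,[1,0,-1],[1,0,0,0,-1],[],(⟨0,[(29,0)]⟩,⟨0,[(30,
  0)]⟩),(⟨0,[(22,0)]⟩,⟨0,[(23,0)]⟩),⟨0,[(18,0)]⟩,.k,.k,.k,.k,.k,.k,⟨true,0,⟨0,[]⟩,⟨1,[(27,0),(0,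
  0)]⟩⟩,⟨false,1,⟨0,[(5,0),(1,0)]⟩,⟨2,[(0,0),(13,0),(2,0),(24,0),(1,0)]⟩⟩,⟨true,0,⟨3,[(4,2),(8,0),
  (3,1),(22,0)]⟩,⟨0,[(7,0),(18,0)]⟩⟩,⟨false,1,⟨0,[(1,0)]⟩,⟨1,[(2,0),(7,0),(10,0)]⟩⟩,⟨false,0,⟨0,[]⟩,
  ⟨0,[]⟩⟩,⟨false,0,⟨0,[]⟩,⟨0,[]⟩⟩,[.o ⟨false,1,⟨0,[(16,0)]⟩,⟨5,[(3,3),(10,0),(22,0),(4,1)]⟩⟩,.e
  ⟨false,1,⟨1,[(41,0),(0,0)]⟩,⟨0,[(44,0)]⟩⟩ ⟨false,2,⟨3,[(1,1),(3,1),(2,0),(3,0),(28,1),(0,0)]⟩,⟨0,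
  [(0,0)]⟩⟩,.a ⟨true,0,⟨2,[(8,0),(8,1),(6,0)]⟩,⟨0,[(7,0)]⟩⟩ ⟨false,1,⟨9,[(1,3),(10,1),(1,1),(2,1),
  (23,0),(0,2)]⟩,⟨0,[]⟩⟩ ⟨true,1,⟨0,[(7,0),(8,0)]⟩,⟨0,[(0,0)]⟩⟩,.o ⟨false,0,⟨0,[(28,0)]⟩,⟨4,[(7,2),
  (0,0),(28,0),(3,2)]⟩⟩]⟩) (.I [0,0,-1,0,0,0,0,1] (.I [0,0,1,-1] (.I [-1,0,0,0,1,0,0,-1,-1] (.I [0,
  0,0,-1,0,1,1] (.C [(0,0),(21,0),(5,0),(6,1),(8,0),(2,0)]) (.C [(0,0),(3,0),(1,0),(16,0)])) (.C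
  [(0,0),(2,0),(22,0),(2,0)])) (.C [(0,0),(1,0),(1,0),(25,0)])) (.C [(0,0),(4,0),(19,0)]))) (.Q [-1,
  0,0,0,1,0,-1,-1,-1,1,-1,-1] (.p false [0,0,1] [1,0,0,0,-1] (⟨0,[(29,0)]⟩,⟨0,[(28,0)]⟩) .k 2 (⟨0,
  [(21,0)]⟩,⟨0,[(22,0)]⟩) .k (.r 0 ⟨3,[(3,2),(8,0),(3,1),(22,0)]⟩ ⟨3,[(11,1),(3,0),(4,0),(19,0)]⟩))
  (.R ⟨0,false,false,false,[1,0,-1],[0,0,0,0,1],[2],(⟨0,[(29,0)]⟩,⟨0,[(30,0)]⟩),(⟨0,[(23,0)]⟩,⟨0,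
  [(22,0)]⟩),⟨0,[(18,0)]⟩,.k,.k,.k,.k,.k,.k,⟨true,0,⟨0,[]⟩,⟨1,[(27,0),(0,0)]⟩⟩,⟨false,0,⟨1,[(1,1),
  (2,1),(2,1),(33,0),(0,0)]⟩,⟨3,[(0,0),(12,0),(3,1),(2,2),(19,0)]⟩⟩,⟨true,0,⟨3,[(4,2),(8,0),(3,1),
  (22,0)]⟩,⟨0,[(1,0),(3,0),(1,0),(35,0)]⟩⟩,⟨false,0,⟨0,[(3,0),(0,0),(37,0)]⟩,⟨0,[(0,0)]⟩⟩,⟨false,0,
  ⟨0,[]⟩,⟨0,[]⟩⟩,⟨false,0,⟨0,[]⟩,⟨0,[]⟩⟩,[.o ⟨false,0,⟨13,[(1,3),(2,3),(9,4),(22,0),(4,1)]⟩,⟨0,[(16,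
  0)]⟩⟩,.o ⟨false,0,⟨0,[(1,0),(2,0),(37,0)]⟩,⟨0,[(20,0),(23,0)]⟩⟩,.a ⟨true,0,⟨2,[(8,0),(8,1),(6,
  0)]⟩,⟨0,[(7,0)]⟩⟩ ⟨true,0,⟨0,[]⟩,⟨0,[(44,0)]⟩⟩ ⟨false,0,⟨0,[(1,0),(2,0),(2,0),(34,0)]⟩,⟨3,[(0,0),
  (12,0),(2,1),(0,1),(2,0),(19,0)]⟩⟩,.o ⟨false,0,⟨0,[(28,0)]⟩,⟨4,[(7,2),(0,0),(28,0),(3,2)]⟩⟩]⟩)
  (.Q [0,1,0,1,0,0,-2,-2,0,1,-2] (.p false [0,0,1] [1,0,-1] (⟨0,[(30,0)]⟩,⟨0,[(29,0)]⟩) .k 2 (⟨0,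
  [(29,0)]⟩,⟨0,[(30,0)]⟩) .k (.r 0 ⟨1,[(4,2),(8,0),(3,1),(22,0)]⟩ ⟨1,[(7,1),(2,0),(1,0),(25,0)]⟩))
  (.Q [0,0,0,0,0,0,0,0,0,1,-2] (.ed true [0,0,2] (.r 0 ⟨1,[(5,2),(8,0),(3,1),(22,0)]⟩ ⟨1,[(8,1),(2,
  0),(1,0),(25,0)]⟩)) (.Q [0,-1,-1,0,0,0,1,2,0,0,1] (.p true [0,0,1] [] (⟨0,[(32,0)]⟩,⟨0,[(31,0)]⟩)
  .k 0 (⟨0,[]⟩,⟨0,[]⟩) .k .k) (.R ⟨0,false,false,false,[0,0,1],[0,0,2],[1],(⟨0,[(33,0)]⟩,⟨0,[(32,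
  0)]⟩),(⟨0,[(33,1)]⟩,⟨0,[(1,0)]⟩),⟨0,[(22,0)]⟩,.k,.k,.k,.k,.k,.k,⟨false,1,⟨0,[(10,1),(2,0),(27,
  0)]⟩,⟨1,[(0,0),(6,0),(12,0),(7,0),(2,0)]⟩⟩,⟨true,0,⟨0,[(10,0)]⟩,⟨0,[(31,0)]⟩⟩,⟨false,1,⟨3,[(10,1),
  (2,0),(1,0),(25,0),(3,1)]⟩,⟨3,[(0,0),(6,0),(12,0),(7,0),(2,0)]⟩⟩,⟨true,0,⟨2,[(0,0),(27,0),(1,0)]⟩,
  ⟨0,[(29,0)]⟩⟩,⟨false,0,⟨0,[]⟩,⟨0,[]⟩⟩,⟨false,0,⟨0,[]⟩,⟨0,[]⟩⟩,[.o ⟨false,0,⟨2,[(0,0),(6,2),(20,0),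
  (1,0)]⟩,⟨0,[(13,0),(28,0)]⟩⟩,.e ⟨false,1,⟨1,[(44,0),(0,0)]⟩,⟨0,[(47,0)]⟩⟩ ⟨false,0,⟨0,[(0,0)]⟩,
  ⟨19,[(2,8),(12,10),(4,0),(18,0),(0,1),(1,8),(1,4)]⟩⟩,.a ⟨true,0,⟨0,[(10,0)]⟩,⟨2,[(11,0),(8,1),(6,
  0)]⟩⟩ ⟨true,0,⟨0,[]⟩,⟨0,[(47,0)]⟩⟩ ⟨false,0,⟨1,[(0,1),(29,0),(0,0)]⟩,⟨1,[(13,0),(1,0),(25,0)]⟩⟩,
  .e ⟨false,1,⟨1,[(44,0),(0,0)]⟩,⟨1,[(30,0),(0,0)]⟩⟩ ⟨false,0,⟨0,[(0,0)]⟩,⟨2,[(13,0),(1,1),(15,0),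
  (10,0)]⟩⟩]⟩) (.I [1,-1,0,0,1,0,0,-2] (.Q [0,0,1,0,0,0,-2,0,0,0,-2] (.p false [0,0,1] [0,1,-1] (⟨0,
  [(34,0)]⟩,⟨0,[(33,0)]⟩) .k 2 (⟨0,[(23,0)]⟩,⟨0,[(34,0),(3,0)]⟩) .k (.r 0 ⟨1,[(8,2),(8,0),(3,1),(22,
  0)]⟩ ⟨2,[(0,1),(15,0),(23,0)]⟩)) (.R ⟨0,false,false,false,[1,0,-2],[1,0,-1],[0,1],(⟨0,[(3,0)]⟩,⟨0,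
  [(35,1)]⟩),(⟨0,[(34,0)]⟩,⟨0,[(35,0)]⟩),⟨0,[(23,0),(11,0)]⟩,.k,.k,(.r (-1) ⟨0,[(1,0),(41,0)]⟩ ⟨0,
  [(0,0),(8,0),(8,0),(26,1)]⟩),.k,.k,.k,⟨false,0,⟨0,[(20,0),(24,0)]⟩,⟨7,[(1,1),(15,1),(28,0),(0,
  2)]⟩⟩,⟨true,0,⟨0,[(12,0)]⟩,⟨0,[(33,0)]⟩⟩,⟨false,0,⟨1,[(9,2),(8,0),(3,1),(22,0)]⟩,⟨0,[(1,0)]⟩⟩,
  ⟨true,0,⟨1,[(9,0),(8,0),(26,0)]⟩,⟨0,[(31,0)]⟩⟩,⟨false,0,⟨0,[]⟩,⟨0,[]⟩⟩,⟨false,0,⟨0,[]⟩,⟨0,[]⟩⟩,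
  [.o ⟨false,1,⟨31,[(17,15),(1,0),(2,15),(2,1),(16,2),(3,7)]⟩,⟨0,[(9,0)]⟩⟩,.o ⟨false,1,⟨39,[(1,17),
  (15,1),(4,19),(19,3),(3,0),(0,10)]⟩,⟨11,[(0,0),(1,1),(6,11),(20,3),(10,2)]⟩⟩,.a ⟨true,0,⟨0,[(22,
  0)]⟩,⟨0,[(12,1)]⟩⟩ ⟨true,0,⟨11,[(0,0),(1,1),(27,3),(10,2)]⟩,⟨0,[]⟩⟩ ⟨false,1,⟨3,[(1,1),(11,1),(32,
  0),(0,0)]⟩,⟨0,[(9,0),(12,0)]⟩⟩,.o ⟨false,0,⟨0,[(0,0)]⟩,⟨4,[(12,7),(0,0),(28,0),(3,2)]⟩⟩]⟩) (.I [1,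
  0,-2,0,0,0,0,1] (.I [0,0,-1,0,1,0,0,0,-1] (.I [0,0,1,-1,0,0,0,1] (.I [0,0,-1,0,0,1,-1] (.C [(0,1),
  (3,0),(2,1),(19,1),(12,3),(11,2)]) (.C [(0,0),(26,0),(5,0)])) (.C [(0,0),(18,0),(16,0)])) (.C [(0,
  0),(11,0),(17,0)])) (.C [(0,0),(5,0),(4,0),(18,0)]))) (.I [0,0,0,0,0,1,1] (.I [1,0,-2,0,0,0,0,1]
  (.I [0,0,-1,0,0,1,-1] (.C [(0,0),(1,0),(0,0),(0,0),(9,0),(23,1),(10,0)]) (.C [(0,0),(24,0),(5,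
  0)])) (.C [(0,0),(5,0),(4,0),(18,0)])) (.C [(0,0),(2,0),(8,0),(10,0)])))) (.I [0,0,-1,-1,0,0,0,2]
  (.Q [0,0,1,0,0,0,3,0,0,-1,3] (.p true [0,0,1] [1,1,-2] (⟨0,[(33,0)]⟩,⟨0,[(32,0)]⟩) .k 2 (⟨0,[(22,
  0),(9,0)]⟩,⟨0,[(1,0),(35,0)]⟩) (.r (-1) ⟨0,[(15,0),(27,0)]⟩ ⟨0,[(0,0)]⟩) (.x (-1) ⟨4,[(7,5),(2,
  14),(2,2),(8,3),(9,10),(1,3),(5,0),(0,2),(4,2)]⟩ ⟨1,[(1,2),(18,2)]⟩)) (.K ⟨0,[1,1,-2],0,0,(⟨0,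
  [(23,0),(9,0)]⟩,⟨0,[(2,0),(35,0)]⟩),(.r (-1) ⟨0,[(16,0),(27,0)]⟩ ⟨0,[(1,0)]⟩),(.r (-1) ⟨1,[(11,1),
  (2,0),(1,0),(25,0)]⟩ ⟨1,[(1,1),(29,0),(0,0),(11,1)]⟩),(.x (-1) ⟨4,[(1,2),(0,4),(11,2),(13,3),(6,
  3),(2,5),(2,0),(0,2),(1,2)]⟩ ⟨0,[(23,1),(7,1)]⟩),(.r (-1) ⟨1,[(0,0),(2,0),(7,0),(2,0),(1,0)]⟩ ⟨3,
  [(1,5),(29,0),(0,0),(11,1)]⟩),.k,[⟨0,[(0,0)]⟩,⟨0,[(21,0)]⟩,⟨1,[(8,1),(6,0),(13,0),(13,0)]⟩,⟨0,[(3,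
  0)]⟩]⟩) (.I [0,0,0,0,0,1,1] (.C [(0,1),(0,0),(1,0),(8,0),(23,1),(11,0)]) (.C [(0,0),(11,0),(11,
  0)]))) (.I [0,0,0,0,0,0,-1] (.C [(0,0),(0,0),(2,0),(4,0),(5,0),(7,0),(4,0),(6,0),(11,0)]) (.C [(0,
  1),(1,0),(25,0),(3,0)])))) (.Q [0,0,0,0,0,0,0,0,0,1,-2] (.ed true [0,0,2] (.r 0 ⟨1,[(0,0),(4,0),
  (12,1),(7,0),(14,0)]⟩ ⟨1,[(8,1),(2,0),(1,0),(25,0)]⟩)) (.R ⟨0,false,false,false,[0,0,1],[0,0,2],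
  [1],(⟨0,[(32,0)]⟩,⟨0,[(31,0)]⟩),(⟨0,[(32,1)]⟩,⟨0,[(0,0)]⟩),⟨0,[(21,0)]⟩,.k,.k,.k,.k,.k,.k,⟨false,
  1,⟨0,[(9,1),(2,0),(27,0)]⟩,⟨1,[(1,0),(4,0),(12,1),(7,0),(14,0)]⟩⟩,⟨true,0,⟨0,[(9,0)]⟩,⟨0,[(30,
  0)]⟩⟩,⟨false,1,⟨3,[(9,1),(2,0),(1,0),(25,0),(3,1)]⟩,⟨3,[(1,0),(4,0),(12,1),(7,0),(14,0)]⟩⟩,⟨true,
  0,⟨3,[(1,0),(13,0),(11,0),(14,1)]⟩,⟨0,[(28,0)]⟩⟩,⟨false,0,⟨0,[]⟩,⟨0,[]⟩⟩,⟨false,0,⟨0,[]⟩,⟨0,[]⟩⟩,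
  [.o ⟨false,0,⟨1,[(1,0),(4,0),(20,0),(14,0)]⟩,⟨0,[(12,0),(28,0)]⟩⟩,.o ⟨false,0,⟨0,[(1,0),(40,0)]⟩,
  ⟨13,[(12,6),(1,4),(4,4),(8,3),(9,4),(0,0),(1,6)]⟩⟩,.a ⟨true,0,⟨0,[(9,0)]⟩,⟨2,[(10,0),(8,1),(6,
  0)]⟩⟩ ⟨true,0,⟨0,[]⟩,⟨0,[(46,0)]⟩⟩ ⟨false,0,⟨2,[(1,2),(8,0),(8,1),(6,0),(15,2)]⟩,⟨1,[(12,0),(1,0),
  (25,0)]⟩⟩,.e ⟨false,1,⟨1,[(43,0),(0,0)]⟩,⟨1,[(29,0),(0,0)]⟩⟩ ⟨false,0,⟨0,[(1,0),(24,0),(15,0)]⟩,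
  ⟨2,[(12,0),(1,1),(15,0),(10,0)]⟩⟩]⟩) (.Q [0,0,1,0,0,0,2,0,0,-1,2] (.p true [0,0,1] [1,0,-1] (⟨0,
  [(32,0)]⟩,⟨0,[(31,0)]⟩) .k 2 (⟨0,[(31,0)]⟩,⟨0,[(32,0)]⟩) .k (.r 0 ⟨1,[(1,0),(4,0),(12,1),(7,0),
  (14,0)]⟩ ⟨1,[(9,1),(2,0),(1,0),(25,0)]⟩)) (.R ⟨0,false,false,true,[0,0,1],[1,0,-1],[1,1],(⟨0,[(33,
  0)]⟩,⟨0,[(32,0)]⟩),(⟨0,[(32,0)]⟩,⟨0,[(33,0)]⟩),⟨0,[(22,0)]⟩,.k,.k,.k,.k,.k,.k,⟨false,0,⟨0,[(7,0),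
  (19,0)]⟩,⟨17,[(15,9),(1,0),(2,0),(2,1),(4,1),(15,4),(0,0)]⟩⟩,⟨true,0,⟨0,[(20,0)]⟩,⟨0,[(0,0)]⟩⟩,
  ⟨true,0,⟨0,[(10,0),(18,0)]⟩,⟨3,[(2,0),(4,0),(12,1),(7,0),(14,0)]⟩⟩,⟨false,1,⟨3,[(13,0),(1,2),(4,
  1),(6,1),(13,0)]⟩,⟨0,[(2,0),(40,0)]⟩⟩,⟨false,0,⟨0,[]⟩,⟨0,[]⟩⟩,⟨false,0,⟨0,[]⟩,⟨0,[]⟩⟩,[.o ⟨false,
  0,⟨0,[(29,0)]⟩,⟨18,[(2,3),(25,10),(11,2),(2,3),(1,12)]⟩⟩,.o ⟨false,1,⟨31,[(15,15),(1,0),(2,15),(2,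
  1),(16,2),(3,7)]⟩,⟨0,[(7,0)]⟩⟩,.a ⟨true,0,⟨0,[(10,0)]⟩,⟨2,[(11,0),(8,1),(6,0)]⟩⟩ ⟨false,0,⟨0,[]⟩,
  ⟨17,[(15,1),(1,1),(2,1),(2,3),(4,3),(15,0),(0,10)]⟩⟩ ⟨true,0,⟨2,[(11,0),(8,1),(6,0),(1,2)]⟩,⟨0,
  [(2,0),(9,0)]⟩⟩,.e ⟨true,0,⟨3,[(3,0),(4,0),(3,0),(14,0),(11,0),(1,0)]⟩,⟨1,[(30,0),(0,0)]⟩⟩ ⟨true,
  0,⟨0,[(27,0),(1,0)]⟩,⟨0,[(7,0),(22,0)]⟩⟩]⟩) (.I [0,0,0,0,0,1,1] (.C [(0,1),(0,0),(0,0),(32,1),(11,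
  0)]) (.C [(0,0),(10,0),(11,0)])))))))))

theorem ok49 : chk K t49 l32 = true := by decide +kernel


end Helper25.S1T.Ypp_1aP2
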