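import Pool.Agent.Helper25.S1T.Ypp_1aP2_q

set_option autoImplicit false
set_option linter.all false

namespace Helper25.S1T.Ypp_1aP2

open Helper25.KG Helper25.KW Helper55.KE Helper11.CT

noncomputable def t50 : Tre :=
  (.I [0,0,1,1,0,0,0,-1] (.R ⟨0,false,false,false,[0,1,-1],[0,1],[1],(⟨0,[(16,0)]⟩,⟨0,[(27,0),(3,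
  0)]⟩),(⟨0,[(32,0)]⟩,⟨0,[(31,0)]⟩),⟨0,[(27,0)]⟩,.k,.k,.k,.k,.k,.k,⟨false,1,⟨1,[(35,1),(2,0),(0,
  0)]⟩,⟨1,[(24,0),(0,0),(11,1)]⟩⟩,⟨true,0,⟨0,[(4,0)]⟩,⟨0,[(25,0)]⟩⟩,⟨false,1,⟨0,[(12,0),(26,0)]⟩,⟨0,
  [(0,0)]⟩⟩,⟨true,0,⟨0,[(8,0),(28,0)]⟩,⟨0,[(23,0)]⟩⟩,⟨false,0,⟨0,[]⟩,⟨0,[]⟩⟩,⟨false,0,⟨0,[]⟩,⟨0,
  []⟩⟩,[.a ⟨true,0,⟨0,[(37,0)]⟩,⟨0,[(1,0),(6,0)]⟩⟩ ⟨true,0,⟨0,[]⟩,⟨1,[(24,0),(0,0)]⟩⟩ ⟨false,0,⟨0,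
  [(4,0),(32,0)]⟩,⟨9,[(14,4),(19,0),(0,3),(0,5),(1,2),(0,4)]⟩⟩,.o ⟨false,1,⟨14,[(7,0),(14,1),(11,2),
  (2,13),(1,7)]⟩,⟨0,[(36,0)]⟩⟩,.o ⟨false,1,⟨2,[(14,0),(6,0),(12,0),(3,0)]⟩,⟨0,[(24,0)]⟩⟩,.o ⟨false,
  1,⟨61,[(9,7),(1,0),(1,1),(0,38),(7,15),(11,19),(3,3),(0,7)]⟩,⟨0,[(4,0)]⟩⟩]⟩) (.I [0,0,0,0,0,1,1]
  (.C [(0,0),(0,0),(0,0),(13,0),(12,1),(8,0),(2,0)]) (.C [(0,0),(4,0),(11,0)])))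

theorem ok50 : chk K t50 r32 = true := by decide +kernel

noncomputable def t56 : Tre :=
  (.Q [0,0,-1,0,0,0,-2,0,0,0,-2] (.p false [0,0,1] [0,1,-1] (⟨0,[(21,0)]⟩,⟨0,[(20,0)]⟩) .k 2 (⟨0,
  [(10,0)]⟩,⟨0,[(21,0),(3,0)]⟩) .k (.x (-1) ⟨3,[(10,7),(7,7),(3,7),(6,5),(1,5),(0,0),(0,2)]⟩ ⟨2,[(0,
  1),(7,1),(0,1),(7,1),(3,3),(0,1),(8,1)]⟩)) (.R ⟨0,false,false,false,[0,0,1],[0,1,-1],[1,0,0,0,0,0,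
  0,1],(⟨0,[(22,0)]⟩,⟨0,[(21,0)]⟩),(⟨0,[(11,0)]⟩,⟨0,[(22,0),(3,0)]⟩),⟨0,[(11,0)]⟩,.k,.k,.k,(.r 0 ⟨0,
  [(1,0),(5,0),(24,0)]⟩ ⟨0,[(4,0),(27,0)]⟩),.k,.k,⟨false,0,⟨0,[(1,1),(28,1),(1,2)]⟩,⟨0,[(4,0),(27,
  0)]⟩⟩,⟨true,0,⟨0,[(0,0)]⟩,⟨0,[(19,1)]⟩⟩,⟨true,0,⟨0,[]⟩,⟨0,[(36,0)]⟩⟩,⟨false,1,⟨0,[(2,0)]⟩,⟨0,[(3,
  1),(28,0)]⟩⟩,⟨false,0,⟨0,[]⟩,⟨0,[]⟩⟩,⟨false,0,⟨0,[]⟩,⟨0,[]⟩⟩,[.o ⟨false,1,⟨4,[(2,2),(14,0),(11,0),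
  (2,1),(3,1)]⟩,⟨0,[(3,0)]⟩⟩,.o ⟨false,1,⟨1,[(1,1),(0,0),(1,0),(5,1),(0,1),(11,3),(6,0),(1,3)]⟩,⟨1,
  [(3,0),(13,0),(13,0)]⟩⟩,.o ⟨false,1,⟨14,[(4,0),(12,1),(1,12),(9,2),(3,6),(0,0)]⟩,⟨2,[(0,0),(19,
  0)]⟩⟩,.a ⟨true,0,⟨0,[(19,0)]⟩,⟨0,[(16,0)]⟩⟩ ⟨true,0,⟨0,[(1,0),(28,0),(1,1)]⟩,⟨0,[(18,0),(0,0)]⟩⟩
  ⟨false,1,⟨3,[(0,1),(1,1),(29,1),(0,0),(0,0)]⟩,⟨0,[(3,0),(15,0)]⟩⟩]⟩) (.R ⟨0,false,false,false,[1,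
  0,-1],[1,-1],[1],(⟨0,[(21,0)]⟩,⟨0,[(22,0)]⟩),(⟨0,[(26,0)]⟩,⟨0,[(27,0)]⟩),⟨0,[(10,0)]⟩,.k,.k,.k,.k,
  .k,.k,⟨false,0,⟨0,[(32,0)]⟩,⟨1,[(31,1),(1,0),(0,0)]⟩⟩,⟨true,0,⟨0,[(19,0)]⟩,⟨3,[(1,1),(7,0),(0,0),
  (0,0),(6,1),(4,1),(8,1)]⟩⟩,⟨false,0,⟨0,[(1,0),(30,0)]⟩,⟨17,[(4,9),(1,0),(2,0),(2,1),(4,1),(15,4),
  (0,0)]⟩⟩,⟨true,0,⟨0,[(3,0)]⟩,⟨0,[(18,0),(13,0)]⟩⟩,⟨false,0,⟨0,[]⟩,⟨0,[]⟩⟩,⟨false,0,⟨0,[]⟩,⟨0,[]⟩⟩,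
  [.a ⟨true,0,⟨0,[(0,0),(0,0),(14,0),(1,0)]⟩,⟨0,[(32,0)]⟩⟩ ⟨true,0,⟨0,[]⟩,⟨1,[(19,0),(0,0)]⟩⟩
  ⟨false,1,⟨3,[(0,0),(2,1),(0,0),(25,1),(2,1),(0,0)]⟩,⟨7,[(1,1),(7,2),(0,2),(0,2),(6,1),(4,5),(8,
  9)]⟩⟩,.o ⟨false,1,⟨0,[(31,0),(2,0)]⟩,⟨1,[(10,1),(0,1),(11,3),(6,0),(1,2),(2,0),(0,0)]⟩⟩,.o ⟨false,
  0,⟨3,[(1,1),(7,0),(0,0),(0,0),(6,1),(4,1),(8,1)]⟩,⟨39,[(0,12),(3,6),(12,13),(11,7),(3,9),(0,6)]⟩⟩,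
  .o ⟨false,0,⟨0,[(20,0)]⟩,⟨31,[(0,15),(9,11),(0,11),(11,23),(5,3),(0,13),(1,13),(0,16),(0,6)]⟩⟩]⟩))

theorem ok56 : chk K t56 r27 = true := by decide +kernel

noncomputable def t58 : Tre :=
  (.Q [0,0,0,0,0,0,-1,0,0,-1,-1] (.p false [1,-1,1] [] (⟨0,[(20,0),(3,0)]⟩,⟨0,[(9,0)]⟩) .k 0 (⟨0,
  []⟩,⟨0,[]⟩) .k .k) (.Q [0,1,-1,1,0,0,-2,-1,0,0,-2] (.p false [0,0,1] [0,1,-1] (⟨0,[(21,0)]⟩,⟨0,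
  [(20,0)]⟩) .k 2 (⟨0,[(10,0)]⟩,⟨0,[(21,0),(3,0)]⟩) .k (.x (-1) ⟨3,[(1,3),(1,3),(6,7),(11,7),(6,1),
  (1,5),(0,0),(0,2)]⟩ ⟨2,[(0,1),(7,1),(12,5)]⟩)) (.R ⟨0,false,false,true,[0,0,1],[0,1,-1],[1,1,1],
  (⟨0,[(22,0)]⟩,⟨0,[(21,0)]⟩),(⟨0,[(11,0)]⟩,⟨0,[(22,0),(3,0)]⟩),⟨0,[(11,0)]⟩,.k,.k,.k,(.r 0 ⟨11,[(1,
  1),(0,11),(6,4),(6,11),(12,2),(4,5)]⟩ ⟨0,[(4,0),(27,0)]⟩),.k,.k,⟨false,0,⟨1,[(1,0),(0,0),(13,0),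
  (13,0),(3,0)]⟩,⟨17,[(4,9),(1,0),(2,0),(2,1),(4,1),(14,17),(0,4),(0,0)]⟩⟩,⟨true,0,⟨0,[(1,0),(14,
  0)]⟩,⟨0,[(19,1)]⟩⟩,⟨true,0,⟨0,[(18,0),(0,0)]⟩,⟨3,[(1,1),(0,1),(13,1),(15,1),(0,0),(0,0)]⟩⟩,⟨false,
  1,⟨6,[(0,5),(3,3),(15,1),(11,0),(1,2)]⟩,⟨0,[(2,0),(31,0)]⟩⟩,⟨false,0,⟨0,[]⟩,⟨0,[]⟩⟩,⟨false,0,⟨0,
  []⟩,⟨0,[]⟩⟩,[.e ⟨false,0,⟨0,[(36,0)]⟩,⟨1,[(33,0),(0,0)]⟩⟩ ⟨false,0,⟨0,[(0,0)]⟩,⟨25,[(2,15),(1,7),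
  (0,9),(13,9),(9,1),(3,8),(0,20)]⟩⟩,.o ⟨false,1,⟨47,[(0,15),(3,15),(1,0),(2,7),(2,1),(16,10),(2,
  31),(1,7)]⟩,⟨0,[(3,0)]⟩⟩,.o ⟨false,1,⟨14,[(4,0),(12,1),(1,12),(9,2),(3,6),(0,0)]⟩,⟨2,[(1,0),(7,
  0)]⟩⟩,.a ⟨true,0,⟨0,[(19,0)]⟩,⟨0,[(16,0)]⟩⟩ ⟨false,0,⟨0,[]⟩,⟨17,[(4,1),(1,1),(2,1),(2,3),(4,3),
  (15,0),(0,10)]⟩⟩ ⟨true,0,⟨0,[(0,0)]⟩,⟨0,[(3,0),(15,0)]⟩⟩]⟩) (.R ⟨0,false,false,true,[0,0,1],[0,1,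
  -1],[1,1,1],(⟨0,[(22,0)]⟩,⟨0,[(21,0)]⟩),(⟨0,[(11,0)]⟩,⟨0,[(22,0),(3,0)]⟩),⟨0,[(11,0)]⟩,.k,.k,.k,
  (.r 0 ⟨11,[(1,1),(0,11),(6,4),(6,11),(12,2),(4,5)]⟩ ⟨0,[(4,0),(27,0)]⟩),.k,.k,⟨false,0,⟨1,[(1,0),
  (0,0),(13,0),(13,0),(3,0)]⟩,⟨17,[(4,9),(1,0),(2,0),(2,1),(4,1),(14,17),(0,4),(0,0)]⟩⟩,⟨true,0,⟨0,
  [(1,0),(14,0)]⟩,⟨0,[(19,1)]⟩⟩,⟨true,0,⟨0,[(18,0),(0,0)]⟩,⟨3,[(1,1),(0,1),(13,1),(15,1),(0,0),(0,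
  0)]⟩⟩,⟨false,1,⟨0,[(1,0),(2,0),(11,0),(15,0)]⟩,⟨0,[(2,0),(31,0)]⟩⟩,⟨false,0,⟨0,[]⟩,⟨0,[]⟩⟩,⟨false,
  0,⟨0,[]⟩,⟨0,[]⟩⟩,[.a ⟨true,0,⟨0,[(18,0),(13,0)]⟩,⟨0,[(0,0),(15,0)]⟩⟩ ⟨false,0,⟨0,[(36,0)]⟩,⟨1,
  [(33,0),(0,0)]⟩⟩ ⟨true,0,⟨2,[(1,0),(7,0),(8,2),(13,2)]⟩,⟨0,[(0,0)]⟩⟩,.o ⟨false,1,⟨11,[(1,3),(2,5),
  (4,0),(6,5),(12,2),(2,11)]⟩,⟨0,[(3,0)]⟩⟩,.o ⟨false,1,⟨14,[(4,0),(12,1),(1,12),(9,2),(3,6),(0,0)]⟩,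
  ⟨2,[(1,0),(7,0)]⟩⟩,.e ⟨false,0,⟨0,[]⟩,⟨17,[(4,1),(1,1),(2,1),(2,3),(4,3),(15,0),(0,10)]⟩⟩ ⟨false,
  1,⟨11,[(1,3),(2,5),(4,0),(6,17),(12,2),(2,11)]⟩,⟨0,[(0,0)]⟩⟩]⟩)) (.Q [0,0,1,0,0,0,2,0,0,0,2] (.p
  true [0,0,1] [0,1,-1] (⟨0,[(21,0)]⟩,⟨0,[(20,0)]⟩) .k 2 (⟨0,[(10,0)]⟩,⟨0,[(21,0),(3,0)]⟩) .k (.x
  (-1) ⟨3,[(1,3),(1,3),(6,7),(11,7),(6,1),(1,5),(0,0),(0,2)]⟩ ⟨0,[(9,1),(5,1),(6,1),(11,1)]⟩)) (.Q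
  [0,0,0,0,0,0,-1,0,0,0,-1] (.p false [0,0,1] [] (⟨0,[(22,0)]⟩,⟨0,[(21,0)]⟩) .k 0 (⟨0,[]⟩,⟨0,[]⟩)
  .k .k) (.Q [0,0,0,0,0,0,1,1,0,-1,1] (.p true [0,0,1] [1] (⟨0,[(23,0)]⟩,⟨0,[(22,0)]⟩) .k 1 (⟨0,[]⟩,
  ⟨0,[]⟩) .k .k) (.R ⟨0,false,false,false,[0,1,-1],[0,0,1],[1],(⟨0,[(13,0)]⟩,⟨0,[(24,0),(3,0)]⟩),
  (⟨0,[(24,0)]⟩,⟨0,[(23,0)]⟩),⟨0,[(24,0)]⟩,.k,.k,.k,(.r (-1) ⟨0,[(6,0),(27,0)]⟩ ⟨3,[(1,1),(2,3),(6,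
  0),(6,3),(12,0),(4,1)]⟩),.k,.k,⟨false,1,⟨1,[(3,0),(2,0),(5,1),(0,1),(4,0),(6,3),(6,1),(1,1),(1,
  0)]⟩,⟨5,[(0,2),(3,0),(6,2),(7,0),(14,0),(1,0)]⟩⟩,⟨true,0,⟨0,[(2,0)]⟩,⟨0,[(1,1)]⟩⟩,⟨true,0,⟨1,[(1,
  0),(2,0),(7,0),(0,0),(4,0),(6,1),(6,0),(3,0)]⟩,⟨0,[(20,0),(0,0),(12,0)]⟩⟩,⟨false,0,⟨0,[(4,0),(31,
  0)]⟩,⟨0,[(20,1),(13,0),(1,0)]⟩⟩,⟨false,0,⟨0,[]⟩,⟨0,[]⟩⟩,⟨false,0,⟨0,[]⟩,⟨0,[]⟩⟩,[.o ⟨false,0,⟨0,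
  [(0,0)]⟩,⟨31,[(6,15),(1,0),(2,15),(2,1),(16,2),(3,7)]⟩⟩,.o ⟨false,1,⟨8,[(0,3),(18,4),(11,0),(4,
  6)]⟩,⟨0,[(20,0)]⟩⟩,.o ⟨false,1,⟨2,[(11,0),(6,0),(12,0),(3,0)]⟩,⟨0,[(21,0)]⟩⟩,.a ⟨true,0,⟨0,[(1,
  0)]⟩,⟨0,[(3,0)]⟩⟩ ⟨false,1,⟨1,[(35,0),(0,0)]⟩,⟨1,[(21,0),(0,0)]⟩⟩ ⟨true,0,⟨0,[(0,0),(2,0)]⟩,⟨0,
  [(1,0),(18,0)]⟩⟩]⟩) (.I [-1,0,0,0,1,0,0,0,-1] (.I [0,0,0,0,0,1,-1,-1] (.C [(0,1),(5,0),(8,1),(11,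
  3),(6,0),(1,1),(1,0),(0,0)]) (.C [(0,0),(1,0),(11,0)])) (.C [(0,0),(10,0),(6,0)]))) (.Q [0,-1,0,
  -1,0,0,1,1,0,1,1] (.p true [1,-1,1] [] (⟨0,[(23,0),(3,0)]⟩,⟨0,[(12,0)]⟩) .k 0 (⟨0,[]⟩,⟨0,[]⟩) .k
  .k) (.R ⟨0,false,false,false,[1,-1],[1,-1,1],[1,1],(⟨0,[(28,0)]⟩,⟨0,[(29,0)]⟩),(⟨0,[(24,0),(3,
  0)]⟩,⟨0,[(13,0)]⟩),⟨0,[(12,0),(0,0)]⟩,.k,.k,(.r (-1) ⟨0,[(32,1),(3,0)]⟩ ⟨0,[(21,0),(0,0),(11,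
  1)]⟩),.k,.k,.k,⟨false,0,⟨0,[(1,0),(18,0),(13,0)]⟩,⟨0,[(9,0),(26,0)]⟩⟩,⟨true,0,⟨0,[(1,0)]⟩,⟨0,[(22,
  0)]⟩⟩,⟨false,0,⟨1,[(21,0),(0,0),(11,1)]⟩,⟨0,[(32,0),(3,0)]⟩⟩,⟨true,0,⟨2,[(4,0),(14,0),(14,0),(1,
  0)]⟩,⟨0,[(20,0)]⟩⟩,⟨false,0,⟨0,[]⟩,⟨0,[]⟩⟩,⟨false,0,⟨0,[]⟩,⟨0,[]⟩⟩,[.o ⟨false,0,⟨0,[(5,0)]⟩,⟨11,
  [(6,1),(4,0),(6,1),(1,7),(10,2),(2,11),(1,3)]⟩⟩,.a ⟨true,0,⟨0,[(0,0)]⟩,⟨0,[(20,0),(13,0)]⟩⟩ ⟨true,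
  0,⟨0,[]⟩,⟨1,[(21,0),(0,0)]⟩⟩ ⟨false,1,⟨1,[(1,0),(2,0),(7,0),(0,0),(4,0),(6,1),(6,0),(2,0),(0,1)]⟩,
  ⟨1,[(20,1),(0,0),(0,0),(11,1)]⟩⟩,.o ⟨false,0,⟨1,[(21,0),(0,0)]⟩,⟨15,[(8,0),(5,1),(16,2),(3,7)]⟩⟩,
  .o ⟨false,0,⟨0,[(21,0),(0,0)]⟩,⟨3,[(12,3),(0,3),(11,7),(6,5),(1,5),(0,0),(0,2)]⟩⟩]⟩) (.Q [0,0,0,0,
  0,0,0,0,0,-1,2] (.ed false [0,0,2] (.r 0 ⟨14,[(4,13),(6,14),(7,1),(11,2),(2,13),(1,7)]⟩ ⟨0,[(1,1),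
  (18,1),(15,0)]⟩)) (.I [0,0,1,1,1,0,0,-3] (.I [1,-1,0,0,0,0,0,2] (.Q [0,0,0,0,0,0,-3,0,0,1,-3] (.p
  false [0,0,1] [1,1,-2] (⟨0,[(27,0)]⟩,⟨0,[(26,0)]⟩) .k 2 (⟨0,[(16,0),(9,0)]⟩,⟨0,[(2,0),(28,0)]⟩)
  (.r (-1) ⟨41,[(0,11),(0,39),(12,4),(7,11),(2,1),(8,0),(2,1)]⟩ ⟨0,[(0,0),(34,0)]⟩) (.x (-1) ⟨2,[(3,
  1),(0,8),(2,0),(8,1),(9,6),(1,1),(5,0),(0,0),(3,1),(0,0)]⟩ ⟨1,[(2,2),(11,2)]⟩)) (.Q [0,0,0,1,1,0,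
  -3,-3,0,1,-3] (.p false [0,0,1] [1,1,-2] (⟨0,[(28,0)]⟩,⟨0,[(27,0)]⟩) .k 2 (⟨0,[(17,0),(9,0)]⟩,⟨0,
  [(3,0),(28,0)]⟩) (.r (-1) ⟨56,[(0,4),(0,16),(0,54),(20,16),(2,1),(8,0),(2,1)]⟩ ⟨0,[(1,0),(34,
  0)]⟩) (.x (-1) ⟨2,[(4,1),(0,8),(2,0),(8,1),(9,6),(1,1),(5,0),(0,0),(3,1),(0,0)]⟩ ⟨7,[(0,8),(2,11),
  (3,2)]⟩)) (.Q [0,0,1,0,0,0,2,0,0,-1,2] (.p true [0,0,1] [1,0,-1] (⟨0,[(29,0)]⟩,⟨0,[(28,0)]⟩) .k 2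
  (⟨0,[(28,0)]⟩,⟨0,[(29,0)]⟩) .k (.r 0 ⟨67,[(1,13),(0,46),(2,3),(3,3),(14,37),(11,1),(6,0)]⟩ ⟨2,[(3,
  1),(33,1),(3,0)]⟩)) (.R ⟨0,false,false,false,[1,1,-2],[0,0,1],[0,1,1,0,0,0,0,-2],(⟨0,[(19,0),(9,
  0)]⟩,⟨0,[(5,0),(28,0)]⟩),(⟨0,[(30,0)]⟩,⟨0,[(29,0)]⟩),⟨0,[(5,0)]⟩,(.r (-1) ⟨56,[(2,4),(0,16),(0,
  54),(20,16),(2,1),(8,0),(2,1)]⟩ ⟨0,[(3,0),(34,0)]⟩),.k,.k,(.r (-1) ⟨0,[(4,0)]⟩ ⟨1,[(2,0),(3,3),(3,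
  4),(13,2),(13,0),(3,4),(0,1)]⟩),.k,.k,⟨false,1,⟨0,[(4,0),(33,0)]⟩,⟨4,[(3,5),(2,0),(3,1),(7,1),(0,
  1),(4,2),(6,3),(8,0),(0,0),(0,0)]⟩⟩,⟨true,0,⟨0,[(0,0),(6,0)]⟩,⟨0,[(2,0)]⟩⟩,⟨true,0,⟨0,[(39,0)]⟩,
  ⟨0,[(40,0)]⟩⟩,⟨false,0,⟨15,[(3,0),(3,1),(2,22),(7,5),(0,5),(11,11),(5,1),(2,6),(1,18)]⟩,⟨0,[(1,
  0)]⟩⟩,⟨false,0,⟨0,[]⟩,⟨0,[]⟩⟩,⟨false,0,⟨0,[]⟩,⟨0,[]⟩⟩,[.o ⟨false,0,⟨14,[(6,6),(3,10),(7,2),(0,2),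
  (11,5),(5,0),(2,3),(1,8)]⟩,⟨95,[(2,31),(9,47),(1,6),(5,13),(16,4),(3,23)]⟩⟩,.o ⟨false,1,⟨4,[(3,1),
  (4,1),(16,0),(11,0),(3,0),(0,1)]⟩,⟨0,[(26,0)]⟩⟩,.o ⟨false,1,⟨47,[(2,31),(11,6),(5,13),(16,4),(3,
  23)]⟩,⟨0,[(0,0)]⟩⟩,.a ⟨true,0,⟨0,[(17,0)]⟩,⟨0,[(7,1)]⟩⟩ ⟨false,1,⟨2,[(4,1),(33,1),(3,0)]⟩,⟨0,[(3,
  0)]⟩⟩ ⟨true,0,⟨14,[(6,6),(0,29),(2,10),(7,2),(0,2),(11,5),(5,0),(2,3),(1,8)]⟩,⟨3,[(2,2),(6,0),(16,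
  3)]⟩⟩]⟩) (.I [0,0,0,0,0,1,1] (.C [(0,1),(0,0),(4,0),(25,1),(11,0)]) (.C [(0,0),(7,0),(11,0)])))
  (.K ⟨0,[1,1,-2],0,1,(⟨0,[(18,0),(9,0)]⟩,⟨0,[(4,0),(28,0)]⟩),(.r (-1) ⟨56,[(1,4),(0,16),(0,54),(20,
  16),(2,1),(8,0),(2,1)]⟩ ⟨43,[(0,14),(0,9),(0,6),(11,28),(8,14),(12,1),(4,10)]⟩),(.r (-1) ⟨2,[(3,
  1),(33,1),(3,0)]⟩ ⟨77,[(0,3),(0,17),(0,50),(2,3),(18,45),(11,1),(6,0)]⟩),(.r (-1) ⟨2,[(2,0),(0,2),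
  (20,0),(1,0),(0,1),(11,2)]⟩ ⟨8,[(0,5),(0,3),(15,3),(0,3),(4,5),(6,7),(6,11),(3,5)]⟩),(.r (-1) ⟨0,
  [(3,0)]⟩ ⟨0,[(0,3),(2,0),(1,1),(17,5),(1,3),(15,2),(0,3)]⟩),.k,[⟨0,[(0,0),(2,0)]⟩,⟨0,[(16,0)]⟩,⟨0,
  [(0,0),(24,0)]⟩,⟨11,[(1,8),(1,9),(19,2),(0,5),(10,2),(3,1),(0,1)]⟩]⟩)) (.I [0,0,0,0,0,0,-1] (.C
  [(0,1),(0,0),(16,1),(4,0),(6,1),(11,0)]) (.C [(0,1),(3,0),(18,0),(3,0)]))) (.I [0,0,0,0,0,0,-1]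
  (.C [(0,1),(0,1),(1,0),(4,1),(8,3),(4,0),(3,0),(2,3),(8,1),(1,1)]) (.C [(0,1),(2,0),(18,0),(3,
  0)]))) (.Q [0,0,1,0,0,0,2,0,0,-1,2] (.p true [0,0,1] [1,0,-1] (⟨0,[(26,0)]⟩,⟨0,[(25,0)]⟩) .k 2
  (⟨0,[(25,0)]⟩,⟨0,[(26,0)]⟩) .k (.r 0 ⟨32,[(0,13),(12,4),(7,23),(2,13),(8,0),(2,13),(1,11)]⟩ ⟨0,
  [(3,1),(18,1),(15,0)]⟩)) (.K ⟨0,[-1,0,2],0,(-1),(⟨0,[(2,0)]⟩,⟨0,[(26,1)]⟩),.k,(.r 0 ⟨23,[(1,11),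
  (8,9),(1,1),(1,4),(19,2),(3,4),(0,0)]⟩ ⟨0,[(9,0),(27,0)]⟩),(.x (-1) ⟨5,[(0,5),(0,1),(1,5),(0,5),
  (21,11),(1,5),(6,3),(2,2),(0,4)]⟩ ⟨1,[(2,1),(11,1),(9,0),(0,0),(3,1)]⟩),.k,.k,[⟨2,[(6,0),(7,1)]⟩,
  ⟨0,[(0,0)]⟩,⟨7,[(9,6),(4,5),(6,1),(1,1),(9,2),(4,0)]⟩,⟨1,[(0,0),(0,0),(1,0),(0,0),(2,0),(29,
  0)]⟩]⟩) (.I [0,1,0,0,0,0,0,-1] (.I [0,0,0,0,0,1,1] (.C [(0,1),(1,0),(1,0),(25,1),(11,0)]) (.C [(0,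
  0),(5,0),(11,0)])) (.C [(0,0),(4,0),(18,0)])))) (.I [1,1,0,-1,-1,0,0,2] (.Q [0,-1,-1,0,0,0,1,2,0,
  0,1] (.p true [0,0,1] [] (⟨0,[(26,0)]⟩,⟨0,[(25,0)]⟩) .k 0 (⟨0,[]⟩,⟨0,[]⟩) .k .k) (.R ⟨0,false,
  false,false,[0,0,1],[0,0,2],[0,0,1],(⟨0,[(27,0)]⟩,⟨0,[(26,0)]⟩),(⟨0,[(27,1)]⟩,⟨0,[(2,0)]⟩),⟨0,
  [(16,0)]⟩,.k,.k,.k,.k,.k,.k,⟨false,1,⟨0,[(4,1),(18,1),(15,0)]⟩,⟨33,[(0,25),(0,5),(12,14),(7,3),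
  (10,7),(0,2),(2,5)]⟩⟩,⟨true,0,⟨0,[(4,0)]⟩,⟨0,[(25,0)]⟩⟩,⟨false,1,⟨3,[(9,1),(14,0),(0,0),(13,1)]⟩,
  ⟨4,[(0,1),(0,0),(1,0),(17,0),(16,0)]⟩⟩,⟨true,0,⟨2,[(0,0),(21,0),(1,0)]⟩,⟨0,[(23,0)]⟩⟩,⟨false,0,⟨0,
  []⟩,⟨0,[]⟩⟩,⟨false,0,⟨0,[]⟩,⟨0,[]⟩⟩,[.o ⟨false,0,⟨14,[(0,7),(6,5),(14,1),(1,7),(9,2),(2,5)]⟩,⟨0,
  [(23,1),(15,0)]⟩⟩,.e ⟨false,1,⟨17,[(9,1),(1,1),(2,1),(2,3),(4,3),(15,0),(0,10)]⟩,⟨5,[(3,1),(0,1),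
  (2,0),(13,1),(11,0),(1,0),(2,0)]⟩⟩ ⟨false,0,⟨0,[(0,0)]⟩,⟨27,[(9,18),(4,4),(8,17),(9,4),(0,0),(3,
  6)]⟩⟩,.a ⟨true,0,⟨0,[(4,0)]⟩,⟨2,[(6,0),(7,1)]⟩⟩ ⟨true,0,⟨1,[(24,0),(0,0)]⟩,⟨5,[(3,1),(0,1),(2,0),
  (13,1),(11,0),(1,0),(2,0)]⟩⟩ ⟨false,0,⟨1,[(0,1),(23,0),(0,0)]⟩,⟨0,[(4,0),(18,1),(15,0)]⟩⟩,.e
  ⟨false,1,⟨17,[(9,1),(1,1),(2,1),(2,3),(4,3),(15,0),(0,10)]⟩,⟨0,[]⟩⟩ ⟨false,0,⟨0,[(0,0)]⟩,⟨2,[(9,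
  1),(13,1),(1,0),(13,0)]⟩⟩]⟩) (.I [0,0,0,0,0,1,1] (.I [-1,0,0,0,1,0,0,0,-1] (.I [0,0,-1,0,0,1,-1]
  (.C [(0,0),(1,0),(0,0),(0,0),(2,0),(23,1),(8,0),(1,0)]) (.C [(0,0),(17,0),(5,0)])) (.C [(0,0),(14,
  0),(6,0)])) (.C [(0,0),(2,0),(1,0),(10,0)]))) (.Q [0,-1,0,1,1,0,-3,-2,0,1,-3] (.p false [0,0,1]
  [1,0,-2] (⟨0,[(26,0)]⟩,⟨0,[(25,0)]⟩) .k 2 (⟨0,[(1,0)]⟩,⟨0,[(26,1)]⟩) .k (.x (-1) ⟨9,[(1,14),(1,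
  13),(0,7),(28,2),(3,3)]⟩ ⟨0,[(14,2),(5,2),(6,2),(11,2)]⟩)) (.Q [0,0,0,0,0,-1,0,0,0,0,2] (.ed
  false [1,-1,2] .k) (.Q [0,0,0,0,0,0,-3,0,0,1,-3] (.p false [0,0,1] [1,0,-2] (⟨0,[(28,0)]⟩,⟨0,[(27,
  0)]⟩) .k 2 (⟨0,[(3,0)]⟩,⟨0,[(0,0),(29,0)]⟩) .k (.x (-1) ⟨9,[(3,14),(1,13),(0,7),(28,2),(3,3)]⟩ ⟨0,
  [(16,2),(5,2),(6,2),(11,2)]⟩)) (.Q [0,0,1,0,0,0,3,0,0,-1,3] (.p true [0,0,1] [1,0,-2] (⟨0,[(29,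
  0)]⟩,⟨0,[(28,0)]⟩) .k 2 (⟨0,[(4,0)]⟩,⟨0,[(1,0),(29,0)]⟩) .k (.x (-1) ⟨9,[(4,14),(1,13),(0,7),(28,
  2),(3,3)]⟩ ⟨0,[(0,0),(0,0),(15,0)]⟩)) (.R ⟨0,false,false,true,[1,0,-1],[0,-1,2],[0,1],(⟨0,[(29,
  0)]⟩,⟨0,[(30,0)]⟩),(⟨0,[(2,0)]⟩,⟨0,[(19,0),(9,0)]⟩),⟨0,[(18,0)]⟩,.k,(.r 0 ⟨49,[(1,16),(4,1),(3,
  50),(7,3),(0,3),(4,48),(6,7),(5,11),(0,0),(3,26)]⟩ ⟨0,[(12,0),(27,0)]⟩),.k,(.r (-1) ⟨0,[(4,0),(21,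
  0),(0,0)]⟩ ⟨27,[(1,21),(8,41),(13,17),(12,7),(2,13),(0,4),(0,20)]⟩),.k,.k,⟨false,1,⟨2,[(4,1),(7,
  0),(23,0),(3,0)]⟩,⟨11,[(1,3),(8,11),(7,0),(0,0),(4,11),(6,1),(5,2),(4,5)]⟩⟩,⟨true,0,⟨0,[(0,0)]⟩,
  ⟨0,[(1,0)]⟩⟩,⟨false,0,⟨44,[(1,14),(8,18),(14,6),(11,2),(2,18),(1,12)]⟩,⟨3,[(4,0),(7,0),(25,0),(3,
  1)]⟩⟩,⟨true,(-1),⟨14,[(6,6),(3,25),(7,2),(0,2),(11,5),(5,0),(2,3),(1,8)]⟩,⟨3,[(3,2),(0,0),(4,0),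
  (16,3)]⟩⟩,⟨false,0,⟨0,[]⟩,⟨0,[]⟩⟩,⟨false,0,⟨0,[]⟩,⟨0,[]⟩⟩,[.e ⟨false,0,⟨5,[(0,0),(5,1),(3,0),(13,
  2),(11,0),(1,0),(2,0)]⟩,⟨49,[(3,3),(8,1),(0,3),(0,7),(5,15),(4,7),(15,0),(0,26)]⟩⟩ ⟨false,0,⟨20,
  [(0,6),(9,19),(2,0),(11,0),(11,2),(3,13)]⟩,⟨0,[(3,0)]⟩⟩,.o ⟨false,0,⟨13,[(10,12),(2,0),(11,0),(11,
  2),(4,6)]⟩,⟨16,[(3,9),(0,1),(1,4),(5,2),(12,0),(10,2),(0,0)]⟩⟩,.a ⟨true,0,⟨2,[(9,0),(7,1)]⟩,⟨0,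
  [(7,0)]⟩⟩ ⟨true,0,⟨0,[(44,0)]⟩,⟨0,[]⟩⟩ ⟨false,0,⟨41,[(0,13),(9,39),(2,1),(11,1),(11,5),(3,6),(0,
  20)]⟩,⟨0,[(3,0)]⟩⟩,.o ⟨false,0,⟨0,[(28,0)]⟩,⟨72,[(0,22),(11,1),(12,3),(11,9),(3,48),(0,1)]⟩⟩]⟩)
  (.I [0,0,0,0,0,1,1] (.C [(0,0),(0,0),(3,0),(5,0),(7,0),(12,1),(11,0)]) (.C [(0,1),(4,0),(0,1),(4,
  0),(7,1)]))) (.I [-1,0,0,0,1,0,0,0,-1] (.I [0,0,1,0,0,0,2] (.I [0,0,-1,0,0,1,-1] (.C [(0,1),(2,0),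
  (3,1),(12,1),(5,0),(6,3),(11,2)]) (.C [(0,0),(19,0),(5,0)])) (.C [(0,0),(1,0),(3,0),(22,0)])) (.C
  [(0,0),(15,0),(6,0)]))) (.I [-1,0,0,0,1,0,0,0,-1] (.I [0,1,0,0,0,0,0,-1] (.I [0,0,-1,0,0,1,-1]
  (.C [(0,0),(2,0),(1,0),(5,0),(7,0),(5,0),(6,2),(11,1)]) (.C [(0,0),(18,0),(5,0)])) (.C [(0,1),(3,
  0),(5,0),(15,1)])) (.C [(0,0),(14,0),(6,0)]))) (.I [-1,0,0,0,1,0,0,0,-1] (.I [0,0,-1,0,0,1,-1]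
  (.C [(0,1),(1,1),(0,1),(0,0),(18,0),(3,2),(2,1)]) (.C [(0,0),(16,0),(5,0)])) (.C [(0,0),(13,0),(6,
  0)]))))))) (.Q [0,-1,-1,1,1,0,-2,-1,0,0,-2] (.p false [0,0,1] [0,1,-1] (⟨0,[(22,0)]⟩,⟨0,[(21,
  0)]⟩) .k 2 (⟨0,[(11,0)]⟩,⟨0,[(22,0),(3,0)]⟩) .k (.x (-1) ⟨3,[(2,3),(1,3),(6,7),(11,7),(6,1),(1,5),
  (0,0),(0,2)]⟩ ⟨2,[(0,1),(19,1),(1,5)]⟩)) (.R ⟨0,false,false,false,[0,0,1],[0,1,-1],[1,0,1],(⟨0,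
  [(23,0)]⟩,⟨0,[(22,0)]⟩),(⟨0,[(12,0)]⟩,⟨0,[(23,0),(3,0)]⟩),⟨0,[(12,0)]⟩,.k,.k,.k,(.r 0 ⟨33,[(1,23),
  (1,23),(4,9),(1,4),(7,9),(11,0),(4,21)]⟩ ⟨0,[(5,0),(27,0)]⟩),.k,.k,⟨false,0,⟨1,[(1,0),(1,0),(27,
  0),(3,0)]⟩,⟨13,[(0,1),(4,7),(12,3),(14,11),(0,2),(0,0)]⟩⟩,⟨true,0,⟨0,[(1,0)]⟩,⟨0,[(20,1)]⟩⟩,
  ⟨false,1,⟨3,[(5,1),(14,0),(0,0),(13,1)]⟩,⟨0,[(0,0),(2,0)]⟩⟩,⟨true,1,⟨4,[(0,2),(4,1),(13,2),(1,0),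
  (11,1)]⟩,⟨0,[(3,0)]⟩⟩,⟨false,0,⟨0,[]⟩,⟨0,[]⟩⟩,⟨false,0,⟨0,[]⟩,⟨0,[]⟩⟩,[.o ⟨false,1,⟨55,[(0,13),(4,
  15),(4,8),(8,9),(9,1),(0,12),(2,41)]⟩,⟨0,[(4,0)]⟩⟩,.e ⟨false,1,⟨17,[(5,1),(1,1),(2,1),(2,3),(4,3),
  (15,0),(0,10)]⟩,⟨0,[(31,0),(1,0)]⟩⟩ ⟨false,1,⟨0,[(0,0)]⟩,⟨27,[(3,22),(1,13),(0,4),(11,4),(11,0),
  (3,6)]⟩⟩,.o ⟨false,1,⟨55,[(2,43),(2,5),(12,11),(11,19),(3,2),(0,6),(1,1)]⟩,⟨2,[(1,0),(19,0)]⟩⟩,.a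
  ⟨true,0,⟨0,[(20,0)]⟩,⟨0,[(17,0)]⟩⟩ ⟨true,0,⟨0,[]⟩,⟨0,[(37,0)]⟩⟩ ⟨false,1,⟨0,[(0,0)]⟩,⟨0,[(4,0),
  (15,0)]⟩⟩]⟩) (.R ⟨0,false,false,false,[0,0,1],[0,1,-1],[1,0,1],(⟨0,[(23,0)]⟩,⟨0,[(22,0)]⟩),(⟨0,
  [(12,0)]⟩,⟨0,[(23,0),(3,0)]⟩),⟨0,[(12,0)]⟩,.k,.k,.k,(.r 0 ⟨33,[(1,23),(1,23),(4,9),(1,4),(7,9),
  (11,0),(4,21)]⟩ ⟨0,[(5,0),(27,0)]⟩),.k,.k,⟨false,0,⟨1,[(1,0),(1,0),(27,0),(3,0)]⟩,⟨17,[(5,9),(1,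
  0),(2,0),(2,1),(4,1),(14,17),(0,4),(0,0)]⟩⟩,⟨true,0,⟨0,[(1,0)]⟩,⟨0,[(20,1)]⟩⟩,⟨false,1,⟨3,[(5,1),
  (14,0),(0,0),(13,1)]⟩,⟨3,[(1,1),(1,1),(29,1),(0,0),(0,0)]⟩⟩,⟨true,1,⟨0,[(1,0),(3,0),(27,0)]⟩,⟨0,
  [(3,0)]⟩⟩,⟨false,0,⟨0,[]⟩,⟨0,[]⟩⟩,⟨false,0,⟨0,[]⟩,⟨0,[]⟩⟩,[.o ⟨false,1,⟨17,[(1,6),(3,8),(4,1),(19,
  3),(2,17),(0,0)]⟩,⟨0,[(4,0)]⟩⟩,.a ⟨true,1,⟨1,[(1,0),(3,0),(27,1),(1,0)]⟩,⟨0,[(0,0),(16,0)]⟩⟩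
  ⟨false,1,⟨17,[(5,1),(1,1),(2,1),(2,3),(4,3),(15,0),(0,10)]⟩,⟨0,[(31,0),(1,0)]⟩⟩ ⟨true,1,⟨5,[(1,4),
  (3,2),(15,1),(11,5),(1,2)]⟩,⟨0,[(0,0)]⟩⟩,.o ⟨false,1,⟨55,[(2,43),(2,5),(12,11),(11,19),(3,2),(0,
  6),(1,1)]⟩,⟨2,[(1,0),(19,0)]⟩⟩,.e ⟨true,0,⟨0,[]⟩,⟨0,[(37,0)]⟩⟩ ⟨true,1,⟨17,[(1,12),(3,8),(4,4),
  (19,0),(2,17),(0,6)]⟩,⟨0,[(0,0)]⟩⟩]⟩))))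

theorem ok58 : chk K t58 r26 = true := by decide +kernel

noncomputable def t64 : Tre :=
  (.Q [0,0,-1,0,0,0,-2,0,0,0,-2] (.p false [0,0,1] [0,1,-1] (⟨0,[(16,0)]⟩,⟨0,[(15,0)]⟩) .k 2 (⟨0,
  [(5,0)]⟩,⟨0,[(16,0),(3,0)]⟩) .k (.x (-1) ⟨3,[(5,7),(7,7),(3,7),(6,5),(1,5),(0,0),(0,2)]⟩ ⟨1,[(0,
  1),(2,0),(0,2),(11,0),(0,2),(8,1),(2,1)]⟩)) (.R ⟨0,false,false,true,[0,0,1],[1,-1,1],[1,1,-1,-1,0,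
  0,0,1],(⟨0,[(17,0)]⟩,⟨0,[(16,0)]⟩),(⟨0,[(17,0),(3,0)]⟩,⟨0,[(6,0)]⟩),⟨0,[(6,0)]⟩,.k,.k,.k,.k,.k,.k,
  ⟨true,0,⟨0,[]⟩,⟨1,[(14,0),(0,0)]⟩⟩,⟨false,0,⟨0,[(11,0),(2,0)]⟩,⟨9,[(7,0),(0,0),(15,1),(3,4)]⟩⟩,
  ⟨true,0,⟨0,[(25,0)]⟩,⟨1,[(14,0),(0,0),(11,1)]⟩⟩,⟨false,0,⟨0,[(1,0),(12,0)]⟩,⟨9,[(7,0),(0,0),(15,
  1),(2,9),(1,4)]⟩⟩,⟨false,0,⟨0,[]⟩,⟨0,[]⟩⟩,⟨false,0,⟨0,[]⟩,⟨0,[]⟩⟩,[.e ⟨false,1,⟨15,[(1,13),(2,0),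
  (7,15),(11,2),(1,1),(1,8),(0,0)]⟩,⟨0,[(2,0)]⟩⟩ ⟨false,0,⟨0,[(1,0),(10,0)]⟩,⟨9,[(2,9),(4,0),(0,0),
  (15,1),(3,4)]⟩⟩,.o ⟨false,1,⟨0,[(12,0),(13,0),(2,0)]⟩,⟨1,[(0,0),(1,1),(2,1),(0,1),(11,3),(6,1),(1,
  1),(2,0)]⟩⟩,.o ⟨false,1,⟨9,[(7,0),(0,0),(5,9),(9,1),(3,4)]⟩,⟨2,[(0,0),(14,0)]⟩⟩,.a ⟨true,0,⟨0,
  [(14,0)]⟩,⟨0,[(11,0)]⟩⟩ ⟨false,1,⟨0,[(1,0),(3,0),(0,0),(5,0),(5,1),(6,0),(1,0),(1,0)]⟩,⟨1,[(2,1),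
  (11,0),(0,0)]⟩⟩ ⟨true,0,⟨0,[(1,0),(10,0)]⟩,⟨1,[(2,1),(2,1),(0,1),(11,3),(6,0),(1,0),(2,0),(0,
  0)]⟩⟩]⟩) (.Q [0,-1,0,-1,0,0,-1,-1,0,1,-1] (.p false [0,0,1] [1] (⟨0,[(17,0)]⟩,⟨0,[(16,0)]⟩) .k 1
  (⟨0,[]⟩,⟨0,[]⟩) .k .k) (.Q [0,0,0,0,0,0,-1,0,0,0,-1] (.p false [0,0,1] [] (⟨0,[(18,0)]⟩,⟨0,[(17,
  0)]⟩) .k 0 (⟨0,[]⟩,⟨0,[]⟩) .k .k) (.R ⟨0,false,false,false,[0,0,1],[1,-1],[0,0,0,-1],(⟨0,[(19,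
  0)]⟩,⟨0,[(18,0)]⟩),(⟨0,[(23,0)]⟩,⟨0,[(24,0)]⟩),⟨0,[(8,0)]⟩,.k,.k,.k,.k,.k,.k,⟨true,0,⟨1,[(16,0),
  (0,0)]⟩,⟨0,[]⟩⟩,⟨false,0,⟨2,[(2,0),(3,1),(6,0)]⟩,⟨31,[(2,15),(4,11),(0,11),(11,23),(5,3),(0,13),
  (1,13),(0,16),(0,6)]⟩⟩,⟨true,0,⟨3,[(1,1),(0,0),(1,1),(2,1),(0,1),(11,3),(6,3),(4,0)]⟩,⟨0,[(0,0),
  (13,0),(14,0)]⟩⟩,⟨false,0,⟨0,[(1,0)]⟩,⟨9,[(9,0),(0,0),(3,9),(11,1),(2,9),(1,4)]⟩⟩,⟨false,0,⟨0,[]⟩,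
  ⟨0,[]⟩⟩,⟨false,0,⟨0,[]⟩,⟨0,[]⟩⟩,[.e ⟨false,1,⟨1,[(28,1),(1,0),(0,0)]⟩,⟨0,[(29,0)]⟩⟩ ⟨false,0,⟨0,
  [(3,0)]⟩,⟨19,[(2,9),(6,6),(0,6),(15,3),(2,19),(0,4)]⟩⟩,.o ⟨false,1,⟨0,[(28,0),(2,0)]⟩,⟨1,[(7,1),
  (0,1),(11,3),(6,0),(1,2),(2,0),(0,0)]⟩⟩,.o ⟨false,1,⟨19,[(2,9),(6,6),(0,6),(15,3),(3,4)]⟩,⟨0,[(0,
  0)]⟩⟩,.a ⟨true,0,⟨0,[(16,0)]⟩,⟨0,[(13,0)]⟩⟩ ⟨false,1,⟨0,[(27,0),(3,0)]⟩,⟨1,[(16,0),(0,0),(11,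
  1)]⟩⟩ ⟨true,0,⟨0,[(3,0)]⟩,⟨1,[(2,0),(4,1),(0,1),(11,3),(8,1),(2,0),(0,1)]⟩⟩]⟩) (.I [0,0,0,0,0,1,
  1] (.C [(0,0),(3,0),(3,0),(12,1),(8,0),(2,0)]) (.C [(0,0),(0,0),(7,0)]))) (.I [-1,0,0,0,1,0,0,0,
  -1] (.I [0,1,-1,0,0,0,0,1] (.I [0,0,-1,-1,0,1,-1] (.C [(0,1),(0,1),(2,0),(1,1),(3,1),(11,3),(11,
  0)]) (.C [(0,0),(4,0),(3,0)])) (.C [(0,0),(1,0),(1,0)])) (.C [(0,0),(4,0),(6,0)]))))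

theorem ok64 : chk K t64 l33 = true := by decide +kernel

noncomputable def t65 : Tre :=
  (.R ⟨2,true,false,true,[0,1],[0,0,1],[1,1,1],(⟨0,[]⟩,⟨0,[]⟩),(⟨0,[(19,0)]⟩,⟨0,[(18,0)]⟩),⟨0,[]⟩,
  .k,.k,.k,.k,.k,.k,⟨false,0,⟨0,[(4,0),(22,0)]⟩,⟨5,[(6,0),(6,3),(0,5),(11,0),(3,0),(0,2)]⟩⟩,⟨true,0,
  ⟨0,[(16,0)]⟩,⟨0,[(0,0)]⟩⟩,⟨true,0,⟨0,[(28,0)]⟩,⟨0,[(29,0)]⟩⟩,⟨false,1,⟨0,[(14,0),(13,0),(2,0)]⟩,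
  ⟨0,[(1,0)]⟩⟩,⟨false,0,⟨0,[]⟩,⟨1,[(9,0),(0,0),(20,0)]⟩⟩,⟨true,0,⟨0,[(14,0)]⟩,⟨0,[(1,0),(26,0)]⟩⟩,
  []⟩)

theorem ok65 : chk K t65 l36 = true := by decide +kernel

noncomputable def t66 : Tre :=
  (.R ⟨0,false,false,true,[0,1,-1],[0,1],[1,1],(⟨0,[(9,0)]⟩,⟨0,[(20,0),(3,0)]⟩),(⟨0,[(25,0)]⟩,⟨0,
  [(24,0)]⟩),⟨0,[(20,0)]⟩,.k,.k,.k,.k,.k,.k,⟨false,1,⟨1,[(28,1),(2,0),(0,0)]⟩,⟨1,[(4,0),(2,0),(9,0),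
  (12,0)]⟩⟩,⟨true,0,⟨0,[(1,0)]⟩,⟨0,[(18,0)]⟩⟩,⟨false,1,⟨1,[(7,0),(0,0),(0,0),(5,1),(5,1),(6,1),(3,
  1)]⟩,⟨0,[(5,0)]⟩⟩,⟨true,0,⟨0,[(15,0)]⟩,⟨0,[(2,0),(26,0)]⟩⟩,⟨false,0,⟨0,[]⟩,⟨0,[]⟩⟩,⟨false,0,⟨0,
  []⟩,⟨0,[]⟩⟩,[.o ⟨false,0,⟨3,[(2,1),(0,2),(0,0),(11,0),(1,0),(9,1)]⟩,⟨0,[(29,0),(2,0)]⟩⟩,.a ⟨true,
  0,⟨0,[(30,0)]⟩,⟨0,[(0,0)]⟩⟩ ⟨true,0,⟨0,[]⟩,⟨1,[(17,0),(0,0)]⟩⟩ ⟨false,0,⟨0,[(1,0),(28,0)]⟩,⟨7,[(0,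
  5),(6,3),(19,1),(0,1),(2,2),(0,0)]⟩⟩,.o ⟨false,1,⟨2,[(7,0),(6,0),(12,0),(3,0)]⟩,⟨0,[(17,0)]⟩⟩,.o
  ⟨false,1,⟨9,[(6,2),(0,4),(2,0),(0,3),(15,2)]⟩,⟨0,[(1,0)]⟩⟩]⟩)

theorem ok66 : chk K t66 l37 = true := by decide +kernel

noncomputable def t67 : Tre :=
  (.Q [0,0,0,0,0,1,0,0,0,-1,0,1] (.ed false [0,1,0,0,1] .k) (.R ⟨0,false,false,false,[1,0,0,0,-1],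
  [0,0,0,0,1],[1,0,1],(⟨0,[(15,0)]⟩,⟨0,[(16,0)]⟩),(⟨0,[(16,0)]⟩,⟨0,[(15,0)]⟩),⟨0,[(0,0)]⟩,.k,.k,(.r
  (-1) ⟨1,[(32,1),(1,0),(0,0)]⟩ ⟨1,[(7,0),(2,0),(9,0),(12,0)]⟩),.k,.k,.k,⟨true,0,⟨1,[(20,0),(0,0)]⟩,
  ⟨0,[]⟩⟩,⟨false,1,⟨9,[(13,0),(0,20),(15,1),(3,4)]⟩,⟨1,[(1,1),(18,0),(0,0)]⟩⟩,⟨true,0,⟨1,[(20,0),(0,
  0)]⟩,⟨3,[(3,0),(0,0),(12,0),(11,0),(1,1),(1,0)]⟩⟩,⟨false,1,⟨9,[(13,0),(0,20),(15,1),(4,4)]⟩,⟨0,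
  [(1,0),(34,0)]⟩⟩,⟨false,0,⟨0,[]⟩,⟨0,[]⟩⟩,⟨false,0,⟨0,[]⟩,⟨0,[]⟩⟩,[.e ⟨false,0,⟨0,[]⟩,⟨1,[(13,0),
  (0,0),(19,0)]⟩⟩ ⟨false,1,⟨9,[(13,0),(0,20),(15,1),(3,4)]⟩,⟨3,[(1,3),(18,0),(0,0),(14,1)]⟩⟩,.o
  ⟨false,1,⟨9,[(13,0),(0,10),(15,1),(4,4)]⟩,⟨7,[(1,3),(1,0),(2,0),(0,1),(11,0),(1,1),(10,3),(4,
  1)]⟩⟩,.a ⟨true,0,⟨3,[(1,1),(8,0),(6,0),(2,2)]⟩,⟨0,[(14,0)]⟩⟩ ⟨true,0,⟨1,[(20,0),(0,0)]⟩,⟨2,[(3,0),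
  (0,0),(12,0),(11,0),(1,0)]⟩⟩ ⟨false,1,⟨9,[(13,0),(0,20),(15,1),(4,4)]⟩,⟨3,[(1,3),(18,0),(0,0),(14,
  1)]⟩⟩,.o ⟨false,0,⟨3,[(1,1),(9,1),(0,1),(7,0),(0,0),(2,3),(11,3)]⟩,⟨9,[(13,0),(0,10),(15,1),(3,
  4)]⟩⟩]⟩) (.S ⟨1,0,[-1],[1,0,0,0,-1],[0,1,0,-1],(⟨0,[(15,0)]⟩,⟨0,[(16,0)]⟩),⟨0,[(0,0)]⟩,.k,(.r
  (-1) ⟨1,[(32,1),(1,0),(0,0)]⟩ ⟨1,[(7,0),(2,0),(9,0),(12,0)]⟩),⟨true,0,⟨0,[(32,0)]⟩,⟨0,[(33,0)]⟩⟩,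
  ⟨false,1,⟨1,[(13,0),(0,0),(20,0)]⟩,⟨0,[]⟩⟩,⟨false,0,⟨0,[]⟩,⟨1,[(13,0),(0,0),(20,0)]⟩⟩,⟨true,0,⟨0,
  [(33,0)]⟩,⟨0,[(32,0)]⟩⟩,[.e ⟨false,0,⟨0,[(31,0)]⟩,⟨1,[(13,0),(0,0),(18,1),(1,0)]⟩⟩ ⟨false,1,⟨1,
  [(9,0),(4,0),(19,0)]⟩,⟨0,[]⟩⟩,.o ⟨false,1,⟨63,[(1,19),(11,23),(6,0),(0,0),(8,3),(4,31),(0,17)]⟩,
  ⟨0,[(3,0),(10,0),(17,0)]⟩⟩,.a ⟨true,0,⟨3,[(1,1),(8,0),(6,0),(2,2)]⟩,⟨0,[(14,0)]⟩⟩ ⟨true,0,⟨0,[(32,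
  0)]⟩,⟨0,[(33,0)]⟩⟩ ⟨false,1,⟨1,[(9,0),(4,0),(20,0)]⟩,⟨0,[]⟩⟩,.o ⟨false,0,⟨3,[(1,1),(9,1),(0,1),(7,
  0),(0,0),(2,3),(11,3)]⟩,⟨9,[(13,0),(0,10),(15,1),(3,4)]⟩⟩]⟩))

theorem ok67 : chk K t67 l39 = true := by decide +kernel

noncomputable def t68 : Tre :=
  (.Q [0,0,0,0,0,0,-1,0,1,0,-1,1] (.p false [0,0,1] [0,0,0,0,1] (⟨0,[(24,0)]⟩,⟨0,[(23,0)]⟩) .k 2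
  (⟨0,[(17,0)]⟩,⟨0,[(16,0)]⟩) .k (.r (-1) ⟨51,[(2,5),(7,11),(0,25),(7,51),(11,3),(3,2),(0,28),(1,
  5)]⟩ ⟨0,[(9,0),(22,0)]⟩)) (.Q [1,0,0,0,0,0,0,0,1,-1,0,1] (.p true [0,0,0,0,1] [1] (⟨0,[(18,0)]⟩,
  ⟨0,[(17,0)]⟩) .k 1 (⟨0,[]⟩,⟨0,[]⟩) .k .k) (.I [1,1,0,0,0,0,0,1] (.R ⟨0,false,false,true,[1,0,-1],
  [1,0,0,0,-1],[1,1],(⟨0,[(26,0)]⟩,⟨0,[(27,0)]⟩),(⟨0,[(19,0)]⟩,⟨0,[(20,0)]⟩),⟨0,[(15,0)]⟩,.k,.k,.k,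
  .k,.k,.k,⟨true,0,⟨0,[]⟩,⟨0,[(40,0)]⟩⟩,⟨false,1,⟨1,[(4,1),(3,1),(29,0),(0,0)]⟩,⟨0,[(2,0)]⟩⟩,⟨true,
  0,⟨0,[(0,0)]⟩,⟨0,[(12,0),(22,0)]⟩⟩,⟨false,1,⟨0,[(4,0),(17,0),(16,0)]⟩,⟨1,[(3,1),(10,0),(6,0),(2,
  0)]⟩⟩,⟨false,0,⟨0,[]⟩,⟨0,[]⟩⟩,⟨false,0,⟨0,[]⟩,⟨0,[]⟩⟩,[.o ⟨false,0,⟨0,[(4,0)]⟩,⟨41,[(5,21),(11,1),
  (16,3),(3,10),(0,20)]⟩⟩,.o ⟨false,1,⟨0,[(13,0)]⟩,⟨0,[(1,0)]⟩⟩,.a ⟨true,0,⟨1,[(14,0),(6,0),(2,0)]⟩,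
  ⟨0,[(8,0)]⟩⟩ ⟨false,0,⟨0,[]⟩,⟨1,[(17,0),(0,0),(20,0)]⟩⟩ ⟨true,0,⟨0,[(4,0),(3,0)]⟩,⟨0,[(2,0)]⟩⟩,.o
  ⟨false,0,⟨0,[(25,0)]⟩,⟨4,[(8,3),(15,0),(9,0),(3,2)]⟩⟩]⟩) (.I [1,0,0,0,0,0,0,0,1] (.I [-1,1,0,0,0,
  0,0,0,-1] (.I [0,0,-1,0,0,1,-1] (.C [(0,0),(2,0),(15,0),(5,0),(5,1),(11,0)]) (.C [(0,0),(17,0),(5,
  0)])) (.C [(0,0),(5,0),(15,0)])) (.C [(0,0),(1,0),(17,0)]))) (.I [0,0,0,1,0,0,1] (.I [0,0,-1,1]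
  (.I [-1,0,0,1,0,0,0,0,-1] (.I [0,-1,0,0,0,0,0,-1] (.I [0,0,-1,0,0,1,-1] (.C [(0,0),(0,0),(18,0),
  (5,0),(5,1),(11,0)]) (.C [(0,0),(18,0),(5,0)])) (.C [(0,0),(3,0),(1,0)])) (.C [(0,0),(2,0),(5,0),
  (12,0)])) (.C [(0,0),(1,0),(1,0),(3,0),(13,0),(0,0)])) (.C [(0,0),(0,0),(1,0),(3,0),(8,0),(5,0),
  (8,0)]))) (.I [0,0,1,0,0,0,0,0,-1] (.I [1,-1,-1,0,0,0,0,-1] (.C [(0,0),(21,0),(2,0)]) (.C [(0,0),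
  (1,0),(0,0),(17,0)])) (.C [(0,0),(0,0),(17,0),(4,0)])))

theorem ok68 : chk K t68 l41 = true := by decide +kernel

noncomputable def t69 : Tre :=
  (.R ⟨0,false,false,true,[0,0,1],[1,0,0,0,-1],[-1,1,1],(⟨0,[(25,0)]⟩,⟨0,[(24,0)]⟩),(⟨0,[(17,0)]⟩,
  ⟨0,[(18,0)]⟩),⟨0,[(14,0)]⟩,.k,.k,.k,.k,.k,.k,⟨true,0,⟨1,[(22,0),(0,0)]⟩,⟨0,[]⟩⟩,⟨false,1,⟨0,[(15,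
  0),(3,0)]⟩,⟨0,[(0,0),(9,0),(22,0)]⟩⟩,⟨false,0,⟨0,[(10,0),(23,0)]⟩,⟨1,[(0,0),(0,0),(3,0),(13,0),
  (13,0),(3,1)]⟩⟩,⟨true,0,⟨0,[(2,0),(7,0),(8,0),(14,0)]⟩,⟨0,[(0,0)]⟩⟩,⟨false,0,⟨0,[]⟩,⟨0,[]⟩⟩,
  ⟨false,0,⟨0,[]⟩,⟨0,[]⟩⟩,[.o ⟨false,0,⟨0,[(2,0)]⟩,⟨41,[(3,21),(11,1),(16,3),(3,10),(0,20)]⟩⟩,.o
  ⟨false,1,⟨0,[(11,0)]⟩,⟨3,[(0,1),(2,0),(3,1),(5,0),(0,0),(11,1),(6,0),(0,0)]⟩⟩,.a ⟨true,0,⟨0,[(6,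
  0)]⟩,⟨1,[(12,0),(6,0),(2,0)]⟩⟩ ⟨false,0,⟨0,[(38,0)]⟩,⟨1,[(36,0),(0,0)]⟩⟩ ⟨true,0,⟨2,[(1,0),(0,1),
  (7,0),(1,0),(6,0),(14,0)]⟩,⟨0,[(0,0),(9,0),(22,0)]⟩⟩,.e ⟨true,0,⟨0,[(39,0)]⟩,⟨0,[]⟩⟩ ⟨true,0,⟨0,
  [(2,0),(16,0)]⟩,⟨0,[(0,0),(9,0),(23,0)]⟩⟩]⟩)

theorem ok69 : chk K t69 l42 = true := by decide +kernel

noncomputable def t70 : Tre :=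
  (.Q [0,-1,0,0,1,0,1,1,0,-1,1] (.p true [0,0,1] [1] (⟨0,[(29,0)]⟩,⟨0,[(28,0)]⟩) .k 1 (⟨0,[]⟩,⟨0,
  []⟩) .k .k) (.Q [-1,-1,-1,0,1,0,1,1,0,0,1] (.p true [0,0,1] [] (⟨0,[(30,0)]⟩,⟨0,[(29,0)]⟩) .k 0
  (⟨0,[]⟩,⟨0,[]⟩) .k .k) (.R ⟨0,false,false,false,[1,0,0,0,-1],[1,0,1,0,-1],[1],(⟨0,[(23,0)]⟩,⟨0,
  [(24,0)]⟩),(⟨0,[(23,0),(7,0)]⟩,⟨0,[(4,0)]⟩),⟨0,[(4,0),(14,0)]⟩,.k,.k,(.r (-1) ⟨1,[(40,1),(1,0),(0,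
  0)]⟩ ⟨4,[(7,1),(1,0),(5,1),(0,1),(1,0),(22,0)]⟩),.k,.k,.k,⟨false,0,⟨0,[(12,0),(0,0),(25,0)]⟩,⟨19,
  [(0,8),(0,0),(5,9),(1,8),(7,1),(0,4),(2,5),(16,0)]⟩⟩,⟨true,0,⟨0,[(12,0)]⟩,⟨0,[(29,0)]⟩⟩,⟨true,0,
  ⟨0,[]⟩,⟨0,[(45,0)]⟩⟩,⟨false,1,⟨5,[(0,2),(0,0),(5,1),(1,0),(18,1),(14,1)]⟩,⟨0,[(13,0),(26,0)]⟩⟩,
  ⟨false,0,⟨0,[]⟩,⟨0,[]⟩⟩,⟨false,0,⟨0,[]⟩,⟨0,[]⟩⟩,[.o ⟨false,1,⟨4,[(0,0),(0,1),(3,0),(1,0),(13,1),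
  (4,0),(1,0),(11,0)]⟩,⟨1,[(9,0),(3,1),(5,0),(0,0),(11,1),(6,0),(0,0)]⟩⟩,.o ⟨false,1,⟨0,[(1,0),(0,
  0)]⟩,⟨1,[(9,0),(1,0),(1,0),(13,0),(11,0),(0,0)]⟩⟩,.a ⟨true,0,⟨0,[(2,0)]⟩,⟨0,[(22,0)]⟩⟩ ⟨true,0,⟨0,
  []⟩,⟨0,[(45,0)]⟩⟩ ⟨false,1,⟨5,[(0,2),(0,0),(5,1),(1,0),(18,1),(14,1)]⟩,⟨0,[(13,0),(26,0)]⟩⟩,.e
  ⟨false,1,⟨1,[(42,0),(0,0)]⟩,⟨1,[(28,0),(0,0)]⟩⟩ ⟨false,1,⟨0,[(0,0)]⟩,⟨1,[(13,0),(2,0),(12,0),(10,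
  1)]⟩⟩]⟩) (.I [0,0,0,0,0,1,1] (.I [0,0,-1,1] (.I [-1,0,0,0,0,1,0,0,-1] (.I [0,0,0,1,0,0,0,0,1] (.I
  [0,0,-1,0,0,1,-1] (.I [0,1,0,0,0,1,1,1] (.I [1,1,1,0,-1,0,0,-1] (.C [(0,0),(7,0),(23,0)]) (.C [(0,
  0),(6,0),(11,0)])) (.C [(0,0),(7,0),(0,0),(16,0)])) (.C [(0,0),(23,0),(5,0)])) (.C [(0,1),(12,0),
  (1,1),(0,0),(10,1),(1,0)])) (.C [(0,0),(4,0),(1,0),(14,0)])) (.C [(0,0),(12,0),(0,0),(12,0)]))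
  (.C [(0,0),(12,0),(7,0)]))) (.Q [0,0,0,0,0,0,0,0,0,-1,1,1] (.ed false [0,0,1,0,1] (.r (-1) ⟨1,[(2,
  0),(14,0),(2,0),(4,0),(16,0)]⟩ ⟨0,[(15,0),(22,0)]⟩)) (.Q [0,0,1,0,0,0,1,0,1,-1,1,1] (.p true [-1,
  0,1,0,1] [] (⟨0,[(0,0)]⟩,⟨0,[(23,0),(6,0)]⟩) .k 0 (⟨0,[]⟩,⟨0,[]⟩) .k (.r (-1) ⟨1,[(3,0),(14,0),(2,
  0),(4,0),(16,0)]⟩ ⟨0,[(16,0),(22,0)]⟩)) (.K ⟨0,[-1,0,1,0,1],0,0,(⟨0,[(1,0)]⟩,⟨0,[(24,0),(6,0)]⟩),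
  .k,(.r (-1) ⟨3,[(4,1),(3,1),(10,0),(0,0),(0,0),(11,1),(6,3),(3,3)]⟩ ⟨0,[(17,0),(28,0)]⟩),(.x (-1)
  ⟨1,[(0,1),(11,1),(11,1),(6,1),(1,1),(6,1),(2,0),(0,0)]⟩ ⟨0,[(1,0),(1,0),(26,0),(3,0)]⟩),.k,.k,[⟨0,
  [(3,0)]⟩,⟨0,[(0,0)]⟩,⟨4,[(7,3),(0,0),(19,1),(0,0),(8,0)]⟩,⟨0,[(4,0)]⟩]⟩) (.I [0,0,0,0,0,1,1] (.I
  [0,0,0,1,0,-1] (.I [0,0,0,1,0,0,0,0,1] (.I [0,0,-1,1] (.I [0,0,-1,0,0,1,-1] (.I [0,0,-1,0,0,0,-1,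
  0,-1] (.I [1,1,-1,0,0,0,0,1] (.C [(0,0),(5,0),(2,0),(17,0),(12,1),(10,0),(0,0)]) (.C [(0,0),(6,0),
  (3,0)])) (.C [(0,0),(5,0),(0,0)])) (.C [(0,0),(4,1),(9,0),(2,0),(6,0)])) (.C [(0,0),(3,1),(9,0),
  (1,0),(0,1)])) (.C [(0,0),(2,0),(9,0),(1,0),(0,0),(10,0)])) (.C [(0,0),(13,0),(23,0)])) (.C [(0,
  0),(13,0),(7,0)]))) (.Q [0,0,1,0,0,0,0,0,1,-1,0,1] (.p true [0,0,0,0,1] [1] (⟨0,[(24,0)]⟩,⟨0,[(23,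
  0)]⟩) .k 1 (⟨0,[]⟩,⟨0,[]⟩) .k .k) (.R ⟨0,false,false,true,[0,0,0,0,1],[0,0,1,0,1],[],(⟨0,[(25,
  0)]⟩,⟨0,[(24,0)]⟩),(⟨0,[(25,0),(6,0)]⟩,⟨0,[(1,0)]⟩),⟨0,[(1,0),(18,0)]⟩,.k,.k,(.r (-1) ⟨1,[(41,1),
  (1,0),(0,0)]⟩ ⟨4,[(8,1),(1,0),(5,1),(0,1),(1,0),(22,0)]⟩),.k,.k,.k,⟨false,1,⟨1,[(17,1),(22,1),(2,
  0),(0,0)]⟩,⟨3,[(4,1),(3,1),(10,0),(0,0),(0,0),(11,1)]⟩⟩,⟨true,0,⟨0,[(13,0)]⟩,⟨0,[(30,0)]⟩⟩,⟨false,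
  1,⟨9,[(10,1),(11,3),(11,1),(1,1),(6,0),(0,4)]⟩,⟨0,[]⟩⟩,⟨true,0,⟨0,[(27,0)]⟩,⟨5,[(2,4),(25,0),(10,
  0),(4,2)]⟩⟩,⟨false,0,⟨0,[]⟩,⟨0,[]⟩⟩,⟨false,0,⟨0,[]⟩,⟨0,[]⟩⟩,[.o ⟨false,0,⟨0,[(4,0)]⟩,⟨10,[(7,9),
  (14,0),(5,0),(10,1),(4,5)]⟩⟩,.o ⟨false,1,⟨5,[(4,3),(5,1),(11,1),(4,1),(15,0),(0,2)]⟩,⟨1,[(2,1),(3,
  0),(5,0),(7,1),(0,1),(11,3),(6,1),(3,1),(0,1)]⟩⟩,.a ⟨true,0,⟨0,[(23,0)]⟩,⟨0,[(3,0)]⟩⟩ ⟨false,1,⟨1,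
  [(22,0),(0,0),(20,0)]⟩,⟨0,[]⟩⟩ ⟨true,0,⟨0,[(27,0)]⟩,⟨0,[(14,0),(26,0)]⟩⟩,.o ⟨false,0,⟨0,[(0,0)]⟩,
  ⟨31,[(6,9),(15,11),(16,1),(0,9),(2,10),(0,4)]⟩⟩]⟩) (.I [0,0,0,1,0,-1] (.I [0,0,0,0,0,1,0,0,1] (.I
  [1,1,0,0,0,0,0,1] (.I [0,0,-1,1] (.I [0,0,0,0,0,1,1] (.I [0,0,-1,0,0,1,0,0,-1] (.I [0,0,-1,0,0,1,
  -1] (.I [0,1,0,1,-1,0,0,-1] (.I [1,1,0,0,0,0,1,1,1] (.C [(0,0),(2,0),(7,0),(17,0),(12,1),(10,0),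
  (0,0)]) (.C [(0,0),(9,0),(2,0)])) (.C [(0,0),(9,0),(9,0),(0,0)])) (.C [(0,0),(26,0),(5,0)])) (.C
  [(0,0),(5,0),(4,0),(14,0)])) (.C [(0,0),(5,0),(3,0),(7,0),(6,0)])) (.C [(0,0),(3,1),(9,0),(1,
  0)])) (.C [(0,0),(2,0),(3,0),(25,0)])) (.C [(0,0),(1,0),(0,0),(8,0),(9,0)])) (.C [(0,0),(12,0),
  (23,0)])))))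

theorem ok70 : chk K t70 l46 = true := by decide +kernel

noncomputable def t71 : Tre :=
  (.R ⟨0,false,false,true,[1,0,-1],[1,0,0,0,-1],[1,1],(⟨0,[(29,0)]⟩,⟨0,[(30,0)]⟩),(⟨0,[(22,0)]⟩,⟨0,
  [(23,0)]⟩),⟨0,[(18,0)]⟩,.k,.k,.k,.k,.k,.k,⟨true,0,⟨0,[]⟩,⟨0,[(43,0)]⟩⟩,⟨false,1,⟨31,[(4,9),(6,31),
  (8,11),(16,1),(0,9),(2,10),(0,4)]⟩,⟨3,[(1,1),(6,0),(8,0),(6,1),(18,0)]⟩⟩,⟨true,0,⟨0,[(1,0),(4,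
  0)]⟩,⟨0,[(15,0),(22,0)]⟩⟩,⟨false,1,⟨10,[(4,4),(15,0),(4,10),(11,0),(1,4),(2,7)]⟩,⟨0,[(0,0)]⟩⟩,
  ⟨false,0,⟨0,[]⟩,⟨0,[]⟩⟩,⟨false,0,⟨0,[]⟩,⟨0,[]⟩⟩,[.o ⟨false,0,⟨0,[(7,0)]⟩,⟨41,[(8,21),(11,1),(16,
  3),(3,10),(0,20)]⟩⟩,.o ⟨false,1,⟨0,[(16,0)]⟩,⟨0,[(1,0)]⟩⟩,.a ⟨true,0,⟨1,[(17,0),(6,0),(2,0)]⟩,⟨0,
  [(11,0)]⟩⟩ ⟨false,0,⟨0,[]⟩,⟨1,[(20,0),(0,0),(20,0)]⟩⟩ ⟨true,0,⟨0,[(7,0),(3,0)]⟩,⟨2,[(1,0),(6,0),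
  (8,0),(6,0)]⟩⟩,.o ⟨false,0,⟨0,[(28,0)]⟩,⟨4,[(11,3),(15,0),(9,0),(3,2)]⟩⟩]⟩)

theorem ok71 : chk K t71 l47 = true := by decide +kernel

noncomputable def t72 : Tre :=
  (.Q [0,0,1,0,0,0,-1,0,1,-1,-1,1] (.p true [0,0,-1,0,1] [1] (⟨0,[(4,0)]⟩,⟨0,[(23,0),(7,0)]⟩) .k 1
  (⟨0,[]⟩,⟨0,[]⟩) .k (.r 0 ⟨0,[(16,0),(22,0)]⟩ ⟨13,[(3,3),(3,9),(1,5),(0,3),(10,1),(20,0),(0,6)]⟩))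
  (.R ⟨0,false,false,false,[0,0,-1,0,1],[0,0,0,0,1],[1,1],(⟨0,[(5,0)]⟩,⟨0,[(24,0),(7,0)]⟩),(⟨0,[(25,
  0)]⟩,⟨0,[(24,0)]⟩),⟨0,[(20,0),(3,0)]⟩,.k,.k,(.x 0 ⟨3,[(10,1),(8,1),(0,3),(3,3),(4,0),(0,0)]⟩ ⟨7,
  [(1,3),(3,7),(0,1),(6,3),(19,3),(2,3),(2,1),(0,1),(2,2),(0,0)]⟩),.k,.k,.k,⟨false,0,⟨2,[(12,0),(0,
  0),(12,0),(11,0),(1,0)]⟩,⟨21,[(1,3),(8,5),(8,1),(2,7),(20,2),(0,10)]⟩⟩,⟨true,0,⟨0,[(13,0)]⟩,⟨0,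
  [(30,0)]⟩⟩,⟨true,0,⟨1,[(2,0),(1,0),(14,0)]⟩,⟨0,[(17,0),(22,0)]⟩⟩,⟨false,1,⟨0,[(27,0),(16,0)]⟩,⟨0,
  [(14,0),(26,0)]⟩⟩,⟨false,0,⟨0,[]⟩,⟨0,[]⟩⟩,⟨false,0,⟨0,[]⟩,⟨0,[]⟩⟩,[.o ⟨false,0,⟨0,[(3,0)]⟩,⟨0,
  [(18,0)]⟩⟩,.o ⟨false,1,⟨41,[(10,21),(11,1),(16,3),(3,10),(0,20)]⟩,⟨0,[(9,0)]⟩⟩,.a ⟨true,0,⟨2,[(0,
  0),(9,0),(15,1)]⟩,⟨0,[(1,0)]⟩⟩ ⟨false,0,⟨0,[]⟩,⟨21,[(1,3),(8,5),(8,1),(2,7),(20,2),(0,10)]⟩⟩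
  ⟨true,0,⟨0,[(13,0)]⟩,⟨13,[(0,3),(8,3),(2,0),(6,4),(18,2),(1,0),(5,2)]⟩⟩,.o ⟨false,0,⟨0,[(0,0)]⟩,
  ⟨10,[(1,9),(20,0),(6,0),(9,1),(3,5)]⟩⟩]⟩) (.I [1,0,0,0,0,0,0,0,1] (.I [0,1,-1,0,0,0,0,1] (.I [1,0,
  -1,0,0,1,1] (.C [(0,0),(22,0),(5,0),(6,1),(11,1)]) (.C [(0,0),(2,0),(2,0),(17,0)])) (.C [(0,0),(3,
  0),(0,0),(22,0)])) (.C [(0,0),(3,0),(20,0)])))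

theorem ok72 : chk K t72 l48 = true := by decide +kernel

noncomputable def t73 : Tre :=
  (.K ⟨0,[1,0,1,0,-1],0,0,(⟨0,[(24,0),(7,0)]⟩,⟨0,[(5,0)]⟩),.k,(.r (-1) ⟨2,[(1,0),(2,0),(3,1),(31,2),
  (3,2)]⟩ ⟨0,[(17,0),(28,0)]⟩),(.x (-1) ⟨16,[(0,4),(4,16),(0,5),(6,11),(19,12),(2,3),(2,2),(0,5),(2,
  7),(0,2)]⟩ ⟨6,[(0,0),(9,3),(8,2),(0,6),(3,6),(5,1)]⟩),.k,.k,[⟨0,[(1,0),(11,0)]⟩,⟨0,[(0,0)]⟩,⟨0,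
  [(3,0),(24,0)]⟩,⟨4,[(0,1),(1,2),(23,1),(0,1),(6,0),(1,0)]⟩]⟩)

theorem ok73 : chk K t73 l49 = true := by decide +kernel

noncomputable def t74 : Tre :=
  (.Q [1,-1,0,1,0,0,0,0,1,-1,0,1] (.p true [0,0,0,0,1] [1] (⟨0,[(27,0)]⟩,⟨0,[(26,0)]⟩) .k 1 (⟨0,[]⟩,
  ⟨0,[]⟩) .k .k) (.Q [0,0,1,0,0,0,0,0,-1,2,0,-1] (.p false [-1,1,0,0,1] [1] (⟨0,[(2,0),(21,0)]⟩,⟨0,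
  [(27,0),(11,0)]⟩) (.r 0 ⟨4,[(0,0),(0,0),(9,0),(1,0),(5,2),(2,0),(22,0)]⟩ ⟨1,[(44,1),(1,0),(0,
  0)]⟩) 1 (⟨0,[]⟩,⟨0,[]⟩) .k .k) (.R ⟨0,false,false,true,[-1,1,0,0,1],[1,0,0,0,-1],[1,1],(⟨0,[(3,0),
  (21,0)]⟩,⟨0,[(28,0),(11,0)]⟩),(⟨0,[(28,0)]⟩,⟨0,[(29,0)]⟩),⟨0,[(28,0)]⟩,(.r 0 ⟨8,[(0,1),(13,0),(5,
  5),(2,2),(22,2)]⟩ ⟨1,[(45,1),(1,0),(0,0)]⟩),.k,.k,(.r 0 ⟨8,[(0,1),(13,0),(5,5),(2,2),(22,2)]⟩ ⟨0,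
  [(4,1),(5,0),(6,2),(12,0),(13,1),(3,0),(0,3)]⟩),.k,.k,⟨true,0,⟨0,[]⟩,⟨0,[(49,0)]⟩⟩,⟨false,1,⟨4,
  [(0,1),(1,1),(3,1),(19,1),(20,1),(0,0)]⟩,⟨2,[(1,3),(5,1),(36,3),(4,0)]⟩⟩,⟨true,0,⟨0,[(44,0)]⟩,⟨8,
  [(0,1),(13,0),(5,5),(2,2),(22,2)]⟩⟩,⟨false,1,⟨3,[(0,0),(1,1),(3,1),(19,0),(17,2),(0,0),(2,2)]⟩,⟨0,
  [(1,0),(5,0)]⟩⟩,⟨false,0,⟨0,[]⟩,⟨0,[]⟩⟩,⟨false,0,⟨0,[]⟩,⟨0,[]⟩⟩,[.o ⟨false,0,⟨0,[(13,0)]⟩,⟨41,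
  [(14,21),(11,1),(16,3),(3,10),(0,20)]⟩⟩,.o ⟨false,1,⟨0,[(22,0)]⟩,⟨0,[(7,0)]⟩⟩,.a ⟨true,0,⟨0,[(1,
  0),(42,0)]⟩,⟨0,[(0,0)]⟩⟩ ⟨false,0,⟨0,[]⟩,⟨17,[(0,1),(13,3),(11,5),(20,2),(0,8)]⟩⟩ ⟨true,0,⟨0,[(0,
  0),(12,0)]⟩,⟨0,[(1,0),(5,0),(36,0)]⟩⟩,.e ⟨true,0,⟨6,[(1,1),(8,0),(6,0),(12,0),(11,2),(1,2)]⟩,⟨1,
  [(33,0),(0,0)]⟩⟩ ⟨true,0,⟨5,[(0,2),(1,0),(3,0),(3,2),(31,0),(1,2)]⟩,⟨2,[(1,0),(5,4),(36,0),(4,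
  0)]⟩⟩]⟩) (.Q [0,0,2,0,0,0,-1,0,-1,2,-1,-1] (.p false [-1,0,1,0,1] [1] (⟨0,[(3,0)]⟩,⟨0,[(28,0),(6,
  0)]⟩) .k 1 (⟨0,[]⟩,⟨0,[]⟩) .k (.r (-1) ⟨1,[(8,0),(14,0),(2,0),(4,0),(16,0)]⟩ ⟨0,[(21,0),(22,
  0)]⟩)) (.Q [1,-1,0,1,0,0,0,0,1,-2,0,1] (.p true [-1,1,0,0,1] [1] (⟨0,[(4,0),(21,0)]⟩,⟨0,[(29,0),
  (11,0)]⟩) (.r 0 ⟨8,[(0,1),(14,0),(5,3),(2,0),(22,4)]⟩ ⟨1,[(46,1),(1,0),(0,0)]⟩) 1 (⟨0,[]⟩,⟨0,[]⟩)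
  .k .k) (.R ⟨0,false,false,false,[1,0,-1],[-1,1,0,0,1],[1],(⟨0,[(37,0)]⟩,⟨0,[(38,0)]⟩),(⟨0,[(5,0),
  (21,0)]⟩,⟨0,[(30,0),(11,0)]⟩),⟨0,[(26,0)]⟩,.k,(.r 0 ⟨8,[(1,1),(14,0),(5,3),(2,0),(22,4)]⟩ ⟨1,[(47,
  1),(1,0),(0,0)]⟩),.k,(.r (-1) ⟨1,[(23,1),(22,1),(0,1),(1,0),(0,0)]⟩ ⟨1,[(0,0),(0,0),(1,0),(10,0),
  (18,0)]⟩),.k,.k,⟨false,1,⟨1,[(46,1),(2,0),(0,0)]⟩,⟨8,[(1,1),(14,0),(5,3),(2,0),(22,4)]⟩⟩,⟨true,0,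
  ⟨0,[(2,0),(16,0)]⟩,⟨0,[(1,0)]⟩⟩,⟨false,1,⟨2,[(7,0),(2,0),(3,1),(35,2)]⟩,⟨0,[(23,0),(22,0)]⟩⟩,
  ⟨true,0,⟨0,[(0,0),(32,0)]⟩,⟨2,[(4,1),(8,0),(2,0),(29,2)]⟩⟩,⟨false,0,⟨0,[]⟩,⟨0,[]⟩⟩,⟨false,0,⟨0,
  []⟩,⟨0,[]⟩⟩,[.o ⟨false,0,⟨8,[(0,5),(1,0),(13,0),(4,2),(12,2)]⟩,⟨5,[(4,1),(3,0),(19,0),(4,0),(13,
  5),(1,0),(0,3)]⟩⟩,.o ⟨false,0,⟨0,[(0,0)]⟩,⟨13,[(1,3),(2,1),(23,5),(4,1),(1,3),(11,13),(1,6),(0,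
  0)]⟩⟩,.a ⟨true,0,⟨8,[(1,1),(14,0),(8,0),(6,4)]⟩,⟨0,[(19,0)]⟩⟩ ⟨true,0,⟨0,[]⟩,⟨0,[(52,0)]⟩⟩ ⟨false,
  0,⟨0,[(0,0),(18,0)]⟩,⟨11,[(1,5),(2,1),(9,1),(17,3),(14,11),(1,4),(0,6)]⟩⟩,.o ⟨false,0,⟨0,[(36,
  0)]⟩,⟨4,[(19,3),(15,0),(9,0),(3,2)]⟩⟩]⟩) (.K ⟨0,[2,-1,0,0,-1],0,0,(⟨0,[(30,0),(11,0)]⟩,⟨0,[(5,0),
  (21,0)]⟩),(.r (-1) ⟨1,[(47,1),(1,0),(0,0)]⟩ ⟨8,[(1,1),(14,0),(5,3),(2,0),(22,4)]⟩),(.r (-1) ⟨0,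
  [(46,1),(3,0)]⟩ ⟨8,[(1,3),(14,1),(5,7),(2,1),(22,9)]⟩),.k,(.r (-1) ⟨1,[(23,1),(22,1),(0,1),(1,0),
  (0,0)]⟩ ⟨4,[(1,1),(1,4),(4,1),(1,0),(3,1),(21,0)]⟩),.k,[⟨0,[(2,0),(16,0)]⟩,⟨0,[(1,0),(17,0)]⟩,⟨5,
  [(2,1),(13,1),(1,2),(2,2),(12,2)]⟩,⟨0,[(0,0)]⟩]⟩)) (.Q [0,0,1,0,0,0,2,0,0,-1,2] (.p true [0,0,1]
  [1,0,-1] (⟨0,[(37,0)]⟩,⟨0,[(36,0)]⟩) .k 2 (⟨0,[(36,0)]⟩,⟨0,[(37,0)]⟩) .k (.r (-1) ⟨2,[(6,1),(2,1),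
  (3,3),(35,2)]⟩ ⟨0,[(22,1),(22,1)]⟩)) (.I [0,0,-1,-1,0,0,0,-2] (.Q [0,-1,0,0,0,0,-2,-2,0,1,-2] (.p
  false [0,0,1] [1,0,-1] (⟨0,[(39,0)]⟩,⟨0,[(38,0)]⟩) .k 2 (⟨0,[(38,0)]⟩,⟨0,[(39,0)]⟩) .k (.r (-1)
  ⟨2,[(8,1),(2,1),(3,3),(35,2)]⟩ ⟨36,[(0,21),(0,3),(3,1),(11,1),(6,21),(10,5),(9,7)]⟩)) (.R ⟨0,
  false,false,false,[0,0,1],[1,0,-1],[1],(⟨0,[(40,0)]⟩,⟨0,[(39,0)]⟩),(⟨0,[(39,0)]⟩,⟨0,[(40,0)]⟩),⟨0,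
  [(29,0)]⟩,.k,.k,.k,.k,.k,.k,⟨false,1,⟨5,[(12,3),(3,1),(2,1),(14,1),(16,0),(0,2)]⟩,⟨36,[(1,10),(0,
  1),(3,0),(11,0),(6,10),(10,2),(9,3)]⟩⟩,⟨true,0,⟨0,[(27,0)]⟩,⟨0,[(2,0)]⟩⟩,⟨true,0,⟨36,[(1,10),(0,
  1),(3,0),(11,0),(6,10),(10,2),(9,3)]⟩,⟨2,[(9,0),(2,0),(3,1)]⟩⟩,⟨false,0,⟨0,[(0,0)]⟩,⟨0,[(10,0),(1,
  0),(39,0)]⟩⟩,⟨false,0,⟨0,[]⟩,⟨0,[]⟩⟩,⟨false,0,⟨0,[]⟩,⟨0,[]⟩⟩,[.o ⟨false,0,⟨19,[(0,6),(0,0),(2,2),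
  (12,2),(6,0),(11,3),(1,2)]⟩,⟨5,[(12,0),(17,0),(4,4),(11,0),(4,2)]⟩⟩,.o ⟨false,1,⟨83,[(0,41),(17,
  21),(11,43),(16,3),(3,10),(0,20)]⟩,⟨10,[(2,0),(1,2),(5,6),(1,3),(25,1)]⟩⟩,.e ⟨true,0,⟨0,[]⟩,⟨0,
  [(54,0)]⟩⟩ ⟨true,0,⟨17,[(0,6),(5,0),(11,0),(8,8),(8,2),(9,1)]⟩,⟨4,[(2,1),(0,0),(6,1),(1,0),(22,
  1)]⟩⟩,.a ⟨true,0,⟨0,[(37,0)]⟩,⟨0,[(34,0)]⟩⟩ ⟨false,1,⟨1,[(51,0),(0,0)]⟩,⟨1,[(37,0),(0,0)]⟩⟩ ⟨true,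
  0,⟨10,[(0,3),(7,2),(6,2),(11,0),(6,5),(11,1)]⟩,⟨3,[(2,1),(7,1),(1,1),(24,0),(0,0)]⟩⟩]⟩) (.R ⟨0,
  false,false,false,[0,0,1],[1,0,-1],[1,1],(⟨0,[(40,0)]⟩,⟨0,[(39,0)]⟩),(⟨0,[(39,0)]⟩,⟨0,[(40,0)]⟩),
  ⟨0,[(29,0)]⟩,.k,.k,.k,.k,.k,.k,⟨false,0,⟨12,[(0,3),(2,0),(4,3),(7,4),(17,4),(11,1)]⟩,⟨19,[(1,5),
  (4,1),(11,5),(6,5),(4,7),(6,1),(13,4),(0,6)]⟩⟩,⟨true,0,⟨0,[(27,0)]⟩,⟨0,[(2,0)]⟩⟩,⟨false,0,⟨36,[(1,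
  10),(0,1),(3,0),(11,0),(6,10),(10,2),(9,3)]⟩,⟨6,[(0,1),(11,1),(3,0),(10,2),(2,0),(21,5)]⟩⟩,⟨true,
  0,⟨22,[(1,9),(4,5),(11,5),(3,9),(4,8),(6,1),(1,9)]⟩,⟨0,[(0,0)]⟩⟩,⟨false,0,⟨0,[]⟩,⟨0,[]⟩⟩,⟨false,0,
  ⟨0,[]⟩,⟨0,[]⟩⟩,[.o ⟨false,0,⟨4,[(1,0),(7,0),(5,0),(6,0),(13,0),(1,0)]⟩,⟨20,[(0,4),(11,10),(13,3),
  (3,6),(16,0),(4,7)]⟩⟩,.o ⟨false,1,⟨0,[(36,0),(15,0)]⟩,⟨8,[(0,3),(3,0),(4,0),(2,0),(4,2),(6,0),(24,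
  0)]⟩⟩,.a ⟨true,0,⟨0,[(21,0)]⟩,⟨1,[(27,0),(6,0),(2,0)]⟩⟩ ⟨false,0,⟨0,[]⟩,⟨12,[(6,0),(11,2),(11,3),
  (4,0),(15,1),(0,6)]⟩⟩ ⟨true,0,⟨22,[(1,4),(4,2),(11,2),(3,4),(4,15),(6,0),(1,4)]⟩,⟨33,[(0,17),(0,
  0),(0,12),(0,1),(10,0),(6,3),(24,7)]⟩⟩,.e ⟨true,0,⟨21,[(1,0),(1,2),(6,0),(3,0),(19,4),(0,0),(10,
  9)]⟩,⟨1,[(37,0),(0,0)]⟩⟩ ⟨true,0,⟨8,[(1,1),(6,0),(6,0),(6,1),(4,2),(6,5),(1,1)]⟩,⟨1,[(0,0),(23,0),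
  (12,0),(11,0)]⟩⟩]⟩)) (.Q [0,-1,0,0,1,0,2,2,0,-1,2] (.p true [0,0,1] [1,0,-1] (⟨0,[(39,0)]⟩,⟨0,
  [(38,0)]⟩) .k 2 (⟨0,[(38,0)]⟩,⟨0,[(39,0)]⟩) .k (.r (-1) ⟨1,[(0,1),(47,1),(1,0),(0,0)]⟩ ⟨0,[(24,1),
  (22,1)]⟩)) (.R ⟨0,false,false,true,[0,0,1],[1,0,-1],[1],(⟨0,[(40,0)]⟩,⟨0,[(39,0)]⟩),(⟨0,[(39,0)]⟩,
  ⟨0,[(40,0)]⟩),⟨0,[(29,0)]⟩,.k,.k,.k,.k,.k,.k,⟨false,1,⟨7,[(0,3),(7,0),(10,0),(7,0),(6,3),(16,0),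
  (0,1)]⟩,⟨0,[(21,0),(14,0)]⟩⟩,⟨true,0,⟨0,[(27,0)]⟩,⟨0,[(2,0)]⟩⟩,⟨true,0,⟨0,[(25,0),(22,0)]⟩,⟨3,[(1,
  1),(44,0),(1,0),(0,0)]⟩⟩,⟨false,0,⟨3,[(3,0),(11,7),(2,2),(12,0),(2,0)]⟩,⟨0,[(0,0)]⟩⟩,⟨false,0,⟨0,
  []⟩,⟨0,[]⟩⟩,⟨false,0,⟨0,[]⟩,⟨0,[]⟩⟩,[.o ⟨false,0,⟨0,[(36,0)]⟩,⟨83,[(0,41),(17,1),(11,3),(16,7),(3,
  0),(0,20)]⟩⟩,.o ⟨false,0,⟨2,[(4,0),(10,2),(2,0)]⟩,⟨20,[(0,6),(11,6),(5,1),(7,6),(3,3),(16,0),(3,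
  0)]⟩⟩,.a ⟨true,0,⟨0,[(21,0)]⟩,⟨1,[(27,0),(6,0),(2,0)]⟩⟩ ⟨true,0,⟨0,[]⟩,⟨0,[(54,0)]⟩⟩ ⟨false,0,⟨6,
  [(8,0),(6,6),(2,2),(8,1),(6,1)]⟩,⟨3,[(0,1),(1,1),(48,0),(0,0)]⟩⟩,.e ⟨false,1,⟨1,[(51,0),(0,0)]⟩,
  ⟨1,[(37,0),(0,0)]⟩⟩ ⟨false,0,⟨3,[(8,0),(6,2),(2,0),(3,0),(11,2),(13,0)]⟩,⟨23,[(0,11),(1,0),(15,0),
  (11,1),(6,21),(9,1),(4,5)]⟩⟩]⟩) (.I [0,0,0,0,0,1,1] (.I [0,0,-1,0,0,1,-1] (.C [(0,0),(0,0),(0,0),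
  (0,0),(0,0),(38,1),(6,0),(3,0)]) (.C [(0,0),(29,0),(5,0)])) (.C [(0,0),(2,0),(26,0),(4,0)]))))
  (.Q [0,-1,-1,0,1,0,1,2,0,0,1] (.p true [0,0,1] [] (⟨0,[(38,0)]⟩,⟨0,[(37,0)]⟩) .k 0 (⟨0,[]⟩,⟨0,
  []⟩) .k .k) (.Q [0,0,0,0,0,0,0,0,0,1,-2] (.ed true [0,0,2] (.r (-1) ⟨53,[(0,35),(14,35),(1,21),(8,
  10),(2,7),(7,13),(8,4)]⟩ ⟨0,[(24,1),(22,1)]⟩)) (.R ⟨0,false,false,true,[1,0,-2],[1,0,-1],[1],(⟨0,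
  [(0,0)]⟩,⟨0,[(40,1)]⟩),(⟨0,[(39,0)]⟩,⟨0,[(40,0)]⟩),⟨0,[(28,0),(11,0)]⟩,.k,.k,(.x 0 ⟨1,[(27,1),(0,
  1),(8,0),(0,0),(1,1)]⟩ ⟨7,[(0,7),(2,2),(17,12),(4,0),(3,1),(13,7),(2,1),(3,0)]⟩),.k,.k,.k,⟨false,
  1,⟨19,[(1,9),(0,3),(24,0),(19,0),(3,2),(0,4)]⟩,⟨0,[(21,0),(14,0)]⟩⟩,⟨true,0,⟨0,[(21,0)]⟩,⟨0,[(38,
  0)]⟩⟩,⟨false,1,⟨0,[(1,0),(36,0)]⟩,⟨0,[(25,1),(22,1)]⟩⟩,⟨true,0,⟨0,[(35,0)]⟩,⟨2,[(4,0),(10,2),(2,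
  0)]⟩⟩,⟨false,0,⟨0,[]⟩,⟨0,[]⟩⟩,⟨false,0,⟨0,[]⟩,⟨0,[]⟩⟩,[.o ⟨false,0,⟨0,[(36,0)]⟩,⟨21,[(1,7),(2,5),
  (5,5),(26,10),(0,2),(8,1),(4,9)]⟩⟩,.o ⟨false,0,⟨2,[(4,0),(10,2),(2,0)]⟩,⟨122,[(1,41),(10,38),(5,
  3),(7,46),(10,41),(9,15),(3,1),(2,2)]⟩⟩,.a ⟨true,0,⟨0,[(27,0)]⟩,⟨0,[(21,1)]⟩⟩ ⟨true,0,⟨0,[]⟩,⟨0,
  [(54,0)]⟩⟩ ⟨false,0,⟨0,[(21,0),(3,0),(22,0)]⟩,⟨71,[(1,35),(16,1),(8,36),(2,3),(7,33),(8,6),(4,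
  17)]⟩⟩,.o ⟨false,0,⟨0,[(2,0),(25,0),(0,0),(11,1),(11,1)]⟩,⟨4,[(21,8),(15,0),(9,0),(3,2)]⟩⟩]⟩) (.I
  [0,0,0,0,0,1,1] (.C [(0,1),(0,0),(1,0),(38,1),(11,0)]) (.C [(0,0),(21,0),(7,0)]))) (.I [0,0,-1,-1,
  0,0,0,-2] (.Q [0,0,0,0,0,0,0,0,0,1,-2] (.ed true [0,0,2] (.r (-1) ⟨2,[(9,1),(2,1),(3,3),(35,2)]⟩
  ⟨4,[(0,2),(24,2),(10,0),(0,0),(8,0)]⟩)) (.R ⟨0,false,false,true,[1,0,-2],[1,0,-1],[1,0,0,-1,0,0,0,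
  -2],(⟨0,[(0,0)]⟩,⟨0,[(41,1)]⟩),(⟨0,[(40,0)]⟩,⟨0,[(41,0)]⟩),⟨0,[(29,0),(11,0)]⟩,.k,.k,(.r 0 ⟨0,[(1,
  0)]⟩ ⟨4,[(17,5),(1,2),(4,3),(0,0),(2,1),(10,0),(13,4)]⟩),.k,.k,.k,⟨false,1,⟨3,[(1,1),(48,1),(1,0),
  (0,2)]⟩,⟨1,[(24,0),(3,0),(7,0),(14,0)]⟩⟩,⟨true,0,⟨0,[(22,0)]⟩,⟨0,[(39,0)]⟩⟩,⟨false,1,⟨0,[(50,0),
  (2,0)]⟩,⟨0,[(51,0)]⟩⟩,⟨true,0,⟨0,[(36,0)]⟩,⟨28,[(1,5),(0,3),(4,0),(11,0),(3,5),(4,7),(8,1),(10,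
  1)]⟩⟩,⟨false,0,⟨0,[]⟩,⟨0,[]⟩⟩,⟨false,0,⟨0,[]⟩,⟨0,[]⟩⟩,[.o ⟨false,0,⟨0,[(37,0)]⟩,⟨5,[(5,1),(5,3),
  (1,1),(24,0),(0,0),(13,5)]⟩⟩,.o ⟨false,0,⟨28,[(1,5),(0,3),(4,0),(11,0),(3,5),(4,7),(8,1),(10,1)]⟩,
  ⟨5,[(13,0),(17,0),(4,4),(11,0),(4,2)]⟩⟩,.a ⟨true,0,⟨0,[(28,0)]⟩,⟨0,[(22,1)]⟩⟩ ⟨true,0,⟨2,[(1,1),
  (0,0),(35,0),(11,0),(2,0)]⟩,⟨2,[(6,2),(3,0),(2,0),(3,4)]⟩⟩ ⟨false,0,⟨5,[(1,1),(20,4),(3,1),(11,0),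
  (8,0)]⟩,⟨0,[(10,0),(6,0),(35,0)]⟩⟩,.o ⟨false,0,⟨0,[(3,0),(25,0),(0,0),(11,1),(11,1)]⟩,⟨4,[(22,8),
  (15,0),(9,0),(3,2)]⟩⟩]⟩) (.I [0,0,0,0,0,1,1] (.C [(0,1),(0,0),(2,0),(38,1),(11,0)]) (.C [(0,0),
  (22,0),(7,0)]))) (.I [0,0,0,0,0,1,1] (.I [0,0,-1,0,0,1,-1] (.C [(0,0),(0,0),(0,0),(0,0),(19,0),
  (19,1),(6,0),(3,0)]) (.C [(0,0),(3,0),(18,0),(6,0)])) (.C [(0,0),(21,0),(7,0)]))))))) (.Q [0,0,1,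
  0,0,0,-1,0,-1,2,-1,-1] (.p false [-1,0,1,0,1] [1] (⟨0,[(2,0)]⟩,⟨0,[(27,0),(6,0)]⟩) .k 1 (⟨0,[]⟩,
  ⟨0,[]⟩) .k (.r (-1) ⟨1,[(7,0),(14,0),(2,0),(4,0),(16,0)]⟩ ⟨0,[(20,0),(22,0)]⟩)) (.Q [0,0,2,0,0,0,
  1,0,-1,1,1,-1] (.p false [0,0,-1,0,1] [1] (⟨0,[(9,0)]⟩,⟨0,[(28,0),(7,0)]⟩) .k 1 (⟨0,[]⟩,⟨0,[]⟩)
  .k (.r 0 ⟨0,[(21,0),(22,0)]⟩ ⟨13,[(8,3),(3,9),(1,5),(0,3),(10,1),(20,0),(0,6)]⟩)) (.R ⟨0,false,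
  false,false,[0,0,1],[-1,1,0,0,1],[1],(⟨0,[(37,0)]⟩,⟨0,[(36,0)]⟩),(⟨0,[(4,0),(21,0)]⟩,⟨0,[(29,0),
  (11,0)]⟩),⟨0,[(26,0)]⟩,.k,(.r 0 ⟨6,[(1,1),(13,0),(5,3),(2,0),(22,2)]⟩ ⟨1,[(46,1),(1,0),(0,0)]⟩),
  .k,(.r (-1) ⟨2,[(5,0),(3,0),(3,1),(31,1),(0,0),(2,2)]⟩ ⟨6,[(3,0),(11,0),(5,1),(0,4),(10,0),(9,
  1)]⟩),.k,.k,⟨false,1,⟨1,[(45,1),(2,0),(0,0)]⟩,⟨6,[(1,1),(13,0),(5,3),(2,0),(22,2)]⟩⟩,⟨true,0,⟨0,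
  [(5,0)]⟩,⟨0,[(0,0)]⟩⟩,⟨true,0,⟨0,[(22,0),(22,0)]⟩,⟨2,[(6,0),(2,0),(3,1)]⟩⟩,⟨false,0,⟨0,[(8,0),(10,
  0)]⟩,⟨0,[(2,0),(29,0),(16,0)]⟩⟩,⟨false,0,⟨0,[]⟩,⟨0,[]⟩⟩,⟨false,0,⟨0,[]⟩,⟨0,[]⟩⟩,[.o ⟨false,0,⟨0,
  [(5,0),(15,0)]⟩,⟨9,[(0,1),(0,1),(0,3),(24,1),(18,5),(1,2),(0,4)]⟩⟩,.o ⟨false,1,⟨7,[(15,3),(1,5),
  (1,0),(0,0),(23,0),(3,1),(0,3)]⟩,⟨0,[(2,0)]⟩⟩,.e ⟨true,0,⟨0,[]⟩,⟨0,[(51,0)]⟩⟩ ⟨true,0,⟨0,[(6,0),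
  (40,0)]⟩,⟨0,[(2,0),(15,0)]⟩⟩,.a ⟨true,0,⟨0,[(34,0)]⟩,⟨0,[(31,0)]⟩⟩ ⟨false,1,⟨1,[(48,0),(0,0)]⟩,⟨1,
  [(0,0),(5,0)]⟩⟩ ⟨true,0,⟨0,[(5,0),(41,0)]⟩,⟨0,[(2,0),(31,0)]⟩⟩]⟩) (.Q [0,-1,-1,0,1,0,1,2,0,0,1]
  (.p true [0,0,1] [] (⟨0,[(37,0)]⟩,⟨0,[(36,0)]⟩) .k 0 (⟨0,[]⟩,⟨0,[]⟩) .k .k) (.Q [0,0,0,0,0,0,0,0,
  0,1,-2] (.ed true [0,0,2] (.r (-1) ⟨11,[(0,7),(1,3),(7,2),(3,4),(1,2),(8,2),(10,0),(8,1)]⟩ ⟨0,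
  [(23,1),(22,1)]⟩)) (.R ⟨0,false,false,false,[0,0,1],[0,0,2],[1],(⟨0,[(39,0)]⟩,⟨0,[(38,0)]⟩),(⟨0,
  [(39,1)]⟩,⟨0,[(0,0)]⟩),⟨0,[(28,0)]⟩,.k,.k,.k,.k,.k,.k,⟨false,0,⟨0,[(20,0),(0,0),(2,0),(22,1)]⟩,
  ⟨11,[(1,7),(1,3),(7,2),(3,4),(1,2),(8,2),(10,0),(8,1)]⟩⟩,⟨true,0,⟨0,[(20,0)]⟩,⟨0,[(37,0)]⟩⟩,⟨true,
  0,⟨0,[(24,0),(22,0)]⟩,⟨2,[(8,0),(2,0),(3,1)]⟩⟩,⟨false,1,⟨24,[(1,12),(3,0),(11,2),(11,3),(6,12),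
  (13,1),(0,5)]⟩,⟨0,[(21,0),(26,0)]⟩⟩,⟨false,0,⟨0,[]⟩,⟨0,[]⟩⟩,⟨false,0,⟨0,[]⟩,⟨0,[]⟩⟩,[.o ⟨false,1,
  ⟨12,[(1,8),(7,2),(1,2),(22,1),(1,8),(9,1),(6,0)]⟩,⟨0,[(21,1),(26,1)]⟩⟩,.e ⟨false,1,⟨1,[(50,0),(0,
  0)]⟩,⟨0,[(53,0)]⟩⟩ ⟨false,1,⟨0,[(1,0)]⟩,⟨0,[(24,0),(10,0),(11,0)]⟩⟩,.a ⟨true,0,⟨0,[(20,0)]⟩,⟨6,
  [(3,1),(13,0),(8,0),(6,2)]⟩⟩ ⟨true,0,⟨0,[]⟩,⟨0,[(53,0)]⟩⟩ ⟨false,1,⟨1,[(1,1),(34,0),(0,0)]⟩,⟨0,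
  [(21,0),(2,0),(22,0),(0,0)]⟩⟩,.e ⟨false,1,⟨1,[(50,0),(0,0)]⟩,⟨1,[(36,0),(0,0)]⟩⟩ ⟨false,1,⟨0,[(1,
  0)]⟩,⟨0,[(21,0),(2,0),(23,1)]⟩⟩]⟩) (.I [0,0,0,0,0,1,1] (.C [(0,1),(0,0),(1,0),(0,0),(36,1),(11,
  0)]) (.C [(0,0),(20,0),(7,0)]))) (.I [1,-1,0,0,0,0,0,-2] (.Q [0,0,0,0,0,0,0,0,0,1,-2] (.ed true
  [0,0,2] (.r (-1) ⟨2,[(8,1),(2,1),(3,3),(35,2)]⟩ ⟨6,[(0,5),(34,1),(0,1),(8,1)]⟩)) (.R ⟨0,false,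
  false,true,[1,0,-2],[1,0,-1],[0,1],(⟨0,[(0,0)]⟩,⟨0,[(40,1)]⟩),(⟨0,[(39,0)]⟩,⟨0,[(40,0)]⟩),⟨0,[(28,
  0),(11,0)]⟩,.k,.k,(.r 0 ⟨0,[(1,0),(46,0)]⟩ ⟨4,[(4,2),(7,3),(3,0),(6,4),(3,1),(10,1),(13,4)]⟩),.k,
  .k,.k,⟨false,1,⟨25,[(3,1),(8,13),(3,11),(2,3),(7,3),(23,8),(0,12)]⟩,⟨6,[(1,2),(34,0),(0,0),(8,
  0)]⟩⟩,⟨true,0,⟨0,[(21,0)]⟩,⟨0,[(38,0)]⟩⟩,⟨false,1,⟨2,[(9,1),(2,1),(3,3),(35,2)]⟩,⟨0,[(1,0)]⟩⟩,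
  ⟨true,0,⟨0,[(35,0)]⟩,⟨64,[(1,16),(0,13),(0,1),(15,1),(7,21),(8,2),(10,3),(3,3)]⟩⟩,⟨false,0,⟨0,[]⟩,
  ⟨0,[]⟩⟩,⟨false,0,⟨0,[]⟩,⟨0,[]⟩⟩,[.o ⟨false,0,⟨0,[(36,0)]⟩,⟨0,[(10,0),(0,0),(40,0)]⟩⟩,.o ⟨false,0,
  ⟨64,[(1,16),(0,13),(0,1),(15,1),(7,21),(8,2),(10,3),(3,3)]⟩,⟨5,[(12,0),(17,0),(4,4),(11,0),(4,
  2)]⟩⟩,.a ⟨true,0,⟨0,[(27,0)]⟩,⟨0,[(21,1)]⟩⟩ ⟨true,0,⟨0,[(54,0)]⟩,⟨0,[]⟩⟩ ⟨false,0,⟨3,[(1,1),(19,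
  2),(15,0),(8,0)]⟩,⟨0,[(9,0),(6,0),(35,0)]⟩⟩,.o ⟨false,0,⟨0,[(3,0),(0,0),(23,0),(0,0),(11,1),(11,
  1)]⟩,⟨4,[(21,8),(15,0),(9,0),(3,2)]⟩⟩]⟩) (.I [0,0,0,0,0,1,1] (.C [(0,1),(0,0),(2,0),(0,0),(36,1),
  (11,0)]) (.C [(0,0),(21,0),(7,0)]))) (.I [0,0,0,0,0,1,1] (.I [0,-1,0,1,0,0,0,-1] (.I [0,0,-1,0,0,
  1,-1] (.C [(0,0),(1,0),(0,0),(0,0),(18,0),(19,1),(10,0)]) (.C [(0,0),(4,0),(0,0),(16,0),(6,0)]))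
  (.C [(0,0),(21,0),(0,0)])) (.C [(0,0),(20,0),(7,0)]))))) (.I [0,0,-1,-1,1,0,0,2] (.I [0,0,1,1,-1,
  0,0,-3] (.Q [0,0,0,0,0,0,0,0,0,-1,2] (.ed false [0,0,2] (.r (-1) ⟨6,[(1,3),(12,3),(1,1),(4,1),(0,
  1),(2,1),(24,2)]⟩ ⟨2,[(0,1),(46,1),(1,0),(0,0)]⟩)) (.Q [0,0,1,0,0,0,3,0,0,-1,3] (.p true [0,0,1]
  [1,1,-2] (⟨0,[(39,0)]⟩,⟨0,[(38,0)]⟩) .k 2 (⟨0,[(28,0),(9,0)]⟩,⟨0,[(0,0),(42,0)]⟩) (.r 0 ⟨5,[(1,2),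
  (3,0),(11,1),(5,0),(0,1),(4,1),(15,0),(4,0)]⟩ ⟨0,[(2,0)]⟩) (.x (-1) ⟨10,[(3,5),(0,1),(8,1),(6,20),
  (15,5),(1,32),(7,4),(4,0)]⟩ ⟨1,[(0,2),(25,2)]⟩)) (.K ⟨0,[1,1,-2],0,(-1),(⟨0,[(29,0),(9,0)]⟩,⟨0,
  [(1,0),(42,0)]⟩),(.r 0 ⟨5,[(2,2),(3,0),(11,1),(5,0),(0,1),(4,1),(15,0),(4,0)]⟩ ⟨0,[(3,0)]⟩),(.r 0
  ⟨2,[(2,1),(46,1),(1,0),(0,0)]⟩ ⟨6,[(3,3),(12,3),(1,1),(4,1),(0,1),(2,1),(24,2)]⟩),(.x (-1) ⟨0,[(1,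
  0),(6,0),(10,0),(24,1)]⟩ ⟨0,[(29,1),(7,1)]⟩),(.r 1 ⟨0,[(2,0)]⟩ ⟨13,[(3,20),(2,1),(11,4),(4,0),(6,
  5),(4,0),(14,5),(1,0)]⟩),.k,[⟨0,[(0,0)]⟩,⟨0,[(27,0)]⟩,⟨8,[(0,2),(2,5),(8,0),(17,0),(4,4),(1,2),(9,
  0),(1,2)]⟩,⟨4,[(2,4),(5,2),(3,0),(3,3),(10,2),(6,1)]⟩]⟩) (.I [0,0,0,0,0,1,1] (.C [(0,1),(0,0),(0,
  0),(19,0),(19,1),(11,0)]) (.C [(0,0),(21,0),(7,0)]))) (.Q [0,0,1,0,0,0,3,0,0,-1,3] (.p true [0,0,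
  1] [1,0,-2] (⟨0,[(39,0)]⟩,⟨0,[(38,0)]⟩) .k 2 (⟨0,[(0,0)]⟩,⟨0,[(39,1)]⟩) .k (.x (-1) ⟨9,[(0,14),
  (19,21),(15,7),(9,2),(3,3)]⟩ ⟨0,[(27,2),(5,2),(6,2),(11,2)]⟩)) (.Q [0,0,0,0,0,-1,0,0,0,0,2] (.ed
  false [1,-1,2] .k) (.Q [0,0,0,0,0,0,-3,0,0,1,-3] (.p false [0,0,1] [1,0,-2] (⟨0,[(41,0)]⟩,⟨0,[(40,
  0)]⟩) .k 2 (⟨0,[(2,0)]⟩,⟨0,[(0,0),(42,0)]⟩) .k (.x (-1) ⟨13,[(1,13),(0,20),(16,1),(11,3),(16,0),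
  (3,7)]⟩ ⟨0,[(29,2),(5,2),(6,2),(11,2)]⟩)) (.Q [0,0,0,1,-1,0,-3,-3,0,1,-3] (.p false [0,0,1] [1,0,
  -2] (⟨0,[(42,0)]⟩,⟨0,[(41,0)]⟩) .k 2 (⟨0,[(3,0)]⟩,⟨0,[(1,0),(42,0)]⟩) .k (.x (-1) ⟨13,[(2,13),(0,
  20),(16,1),(11,3),(16,0),(3,7)]⟩ ⟨0,[(0,0),(0,0),(28,0)]⟩)) (.R ⟨0,false,false,false,[1,0,-1],[0,
  -1,2],[1,1],(⟨0,[(42,0)]⟩,⟨0,[(43,0)]⟩),(⟨0,[(2,0)]⟩,⟨0,[(32,0),(9,0)]⟩),⟨0,[(31,0)]⟩,.k,(.r (-1)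
  ⟨0,[(6,0)]⟩ ⟨5,[(5,2),(3,0),(11,1),(5,0),(0,1),(4,1),(15,0),(4,0)]⟩),.k,(.r 1 ⟨0,[(5,0)]⟩ ⟨13,[(6,
  20),(2,1),(11,4),(4,0),(6,5),(4,0),(14,5),(1,0)]⟩),.k,.k,⟨false,(-1),⟨2,[(0,0),(4,1),(1,0),(5,0),
  (23,0),(0,1)]⟩,⟨12,[(6,12),(2,0),(11,2),(11,3),(4,0),(15,1),(0,6)]⟩⟩,⟨true,0,⟨0,[(3,0)]⟩,⟨0,[(1,
  0)]⟩⟩,⟨true,0,⟨3,[(1,0),(11,0),(1,1),(3,0)]⟩,⟨5,[(5,1),(46,1),(1,0),(0,0)]⟩⟩,⟨false,2,⟨2,[(3,1),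
  (2,3),(20,0),(10,0),(1,0),(14,1)]⟩,⟨0,[(0,0)]⟩⟩,⟨false,0,⟨0,[]⟩,⟨0,[]⟩⟩,⟨false,0,⟨0,[]⟩,⟨0,[]⟩⟩,
  [.o ⟨false,1,⟨3,[(3,2),(2,3),(24,0),(0,0),(8,0),(2,1)]⟩,⟨20,[(0,13),(20,3),(11,7),(16,1),(2,6),(0,
  1)]⟩⟩,.o ⟨false,2,⟨27,[(3,16),(2,27),(14,5),(11,11),(6,4),(9,0),(4,13)]⟩,⟨8,[(0,7),(4,0),(1,0),(4,
  3),(0,6),(1,1)]⟩⟩,.a ⟨true,0,⟨3,[(2,0),(27,1),(11,1),(2,0)]⟩,⟨0,[(24,0)]⟩⟩ ⟨false,0,⟨0,[]⟩,⟨12,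
  [(9,0),(11,2),(11,3),(4,0),(15,1),(0,6)]⟩⟩ ⟨true,1,⟨0,[(3,0),(2,0)]⟩,⟨3,[(0,3),(0,0),(11,0),(1,1),
  (3,0)]⟩⟩,.o ⟨false,0,⟨0,[(41,0)]⟩,⟨62,[(3,20),(17,1),(11,3),(16,7),(3,42)]⟩⟩]⟩) (.I [0,0,0,0,0,1,
  1] (.I [0,0,-1,0,0,1,-1] (.C [(0,2),(1,0),(3,1),(0,0),(25,0),(12,3),(11,1)]) (.C [(0,0),(32,0),(5,
  0)])) (.C [(0,1),(0,0),(3,1),(0,0),(25,1),(5,0)]))) (.I [0,0,-1,0,0,1,-1] (.C [(0,1),(0,0),(2,1),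
  (26,1),(5,0),(6,3),(11,2)]) (.C [(0,0),(30,0),(5,0)]))) (.I [0,0,0,0,0,1,2] (.I [0,-1,0,1,0,0,0,
  -1] (.I [0,0,-1,0,0,1,-1] (.C [(0,1),(2,0),(0,0),(33,0),(6,2),(11,1)]) (.C [(0,0),(31,0),(5,0)]))
  (.C [(0,1),(2,0),(21,1),(11,0)])) (.C [(0,0),(0,0),(0,0),(33,0)]))) (.Q [0,0,0,0,0,-1,0,0,0,0,2]
  (.ed false [1,-1,2] .k) (.R ⟨0,false,false,true,[0,-1,2],[1,0,-1],[0,1],(⟨0,[(0,0)]⟩,⟨0,[(30,0),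
  (9,0)]⟩),(⟨0,[(40,0)]⟩,⟨0,[(41,0)]⟩),⟨0,[(30,1)]⟩,(.r (-1) ⟨0,[(4,0)]⟩ ⟨5,[(3,2),(3,0),(11,1),(5,
  0),(0,1),(4,1),(15,0),(4,0)]⟩),.k,(.x 0 ⟨0,[(30,1),(7,1)]⟩ ⟨17,[(0,17),(0,11),(3,6),(14,6),(21,0),
  (2,16),(2,2),(3,4)]⟩),(.r (-2) ⟨13,[(4,20),(2,1),(11,4),(4,0),(6,5),(4,0),(14,5),(1,0)]⟩ ⟨0,[(3,
  0)]⟩),.k,.k,⟨false,1,⟨51,[(4,25),(2,1),(11,5),(11,7),(4,1),(14,25),(0,16),(0,0)]⟩,⟨5,[(3,1),(46,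
  1),(1,0),(0,0)]⟩⟩,⟨true,0,⟨0,[(1,0)]⟩,⟨0,[(22,2),(6,0),(0,0),(11,1),(11,1)]⟩⟩,⟨true,(-1),⟨5,[(1,
  0),(1,5),(7,0),(1,2),(3,1),(21,0)]⟩,⟨0,[(4,0)]⟩⟩,⟨false,(-1),⟨0,[(1,0),(1,0)]⟩,⟨1,[(4,1),(0,0),(5,
  0),(24,0),(1,2),(14,1)]⟩⟩,⟨false,0,⟨0,[]⟩,⟨0,[]⟩⟩,⟨false,0,⟨0,[]⟩,⟨0,[]⟩⟩,[.o ⟨false,0,⟨0,[(37,
  0)]⟩,⟨5,[(4,1),(0,1),(5,1),(13,1),(12,0),(0,0),(13,3)]⟩⟩,.o ⟨false,0,⟨15,[(1,4),(1,4),(33,0),(10,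
  0),(1,4),(2,2)]⟩,⟨5,[(13,0),(17,0),(4,4),(11,0),(4,2)]⟩⟩,.a ⟨true,0,⟨0,[(22,0),(15,0)]⟩,⟨1,[(1,0),
  (33,0)]⟩⟩ ⟨true,0,⟨0,[(55,0)]⟩,⟨0,[]⟩⟩ ⟨false,0,⟨5,[(1,5),(1,1),(46,1),(1,0),(0,0)]⟩,⟨1,[(5,0),(5,
  0),(24,0),(1,2),(14,1)]⟩⟩,.o ⟨false,0,⟨0,[(22,1),(6,0),(0,0),(11,1),(11,1)]⟩,⟨34,[(1,21),(17,1),
  (0,3),(27,3),(3,22)]⟩⟩]⟩) (.I [0,0,-1,0,0,1,-1] (.C [(0,1),(0,0),(21,1),(19,2),(11,1)]) (.C [(0,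
  0),(1,0),(20,1),(6,0)]))))) (.Q [0,0,0,0,0,0,0,0,0,-1,2] (.ed false [0,0,2] (.r (-1) ⟨28,[(0,20),
  (3,4),(11,8),(5,6),(2,0),(2,7),(19,13)]⟩ ⟨0,[(23,1),(22,1)]⟩)) (.Q [0,-1,0,0,1,0,2,2,0,-1,2] (.p
  true [0,0,1] [1,0,-1] (⟨0,[(39,0)]⟩,⟨0,[(38,0)]⟩) .k 2 (⟨0,[(38,0)]⟩,⟨0,[(39,0)]⟩) .k (.r (-1)
  ⟨28,[(1,20),(3,4),(11,8),(5,6),(2,0),(2,7),(19,13)]⟩ ⟨0,[(24,1),(22,1)]⟩)) (.Q [0,0,1,0,0,0,2,0,0,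
  -1,2] (.p true [0,0,1] [1,0,-1] (⟨0,[(40,0)]⟩,⟨0,[(39,0)]⟩) .k 2 (⟨0,[(39,0)]⟩,⟨0,[(40,0)]⟩) .k
  (.r (-1) ⟨28,[(2,20),(3,4),(11,8),(5,6),(2,0),(2,7),(19,13)]⟩ ⟨0,[(25,1),(22,1)]⟩)) (.R ⟨0,false,
  false,true,[0,0,1],[1,0,-1],[1],(⟨0,[(41,0)]⟩,⟨0,[(40,0)]⟩),(⟨0,[(40,0)]⟩,⟨0,[(41,0)]⟩),⟨0,[(30,
  0)]⟩,.k,.k,.k,.k,.k,.k,⟨false,1,⟨3,[(1,0),(1,0),(19,0),(11,0),(16,0),(0,0)]⟩,⟨0,[(22,0),(14,0)]⟩⟩,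
  ⟨true,0,⟨0,[(28,0)]⟩,⟨0,[(0,0)]⟩⟩,⟨true,0,⟨0,[(26,0),(22,0)]⟩,⟨2,[(10,0),(2,0),(3,1)]⟩⟩,⟨false,0,
  ⟨1,[(16,2),(2,0),(3,0),(8,0),(16,0)]⟩,⟨0,[(1,0)]⟩⟩,⟨false,0,⟨0,[]⟩,⟨0,[]⟩⟩,⟨false,0,⟨0,[]⟩,⟨0,
  []⟩⟩,[.o ⟨false,0,⟨0,[(37,0)]⟩,⟨83,[(1,41),(17,1),(11,3),(16,7),(3,0),(0,20)]⟩⟩,.o ⟨false,0,⟨3,
  [(5,0),(4,0),(5,3),(2,0)]⟩,⟨20,[(1,6),(11,6),(5,1),(7,6),(3,3),(16,0),(3,0)]⟩⟩,.a ⟨true,0,⟨0,[(22,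
  0)]⟩,⟨1,[(28,0),(6,0),(2,0)]⟩⟩ ⟨true,0,⟨0,[]⟩,⟨0,[(55,0)]⟩⟩ ⟨false,0,⟨6,[(9,0),(6,6),(2,2),(8,1),
  (6,1)]⟩,⟨3,[(0,1),(0,1),(50,0),(0,0)]⟩⟩,.e ⟨false,1,⟨1,[(52,0),(0,0)]⟩,⟨1,[(38,0),(0,0)]⟩⟩ ⟨false,
  0,⟨3,[(9,0),(6,2),(2,0),(3,0),(11,2),(13,0)]⟩,⟨23,[(0,0),(0,11),(17,0),(11,1),(6,21),(9,1),(4,
  5)]⟩⟩]⟩) (.I [0,0,0,0,0,1,1] (.C [(0,1),(0,0),(1,0),(39,1),(11,0)]) (.C [(0,0),(22,0),(7,0)])))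
  (.I [0,0,0,0,0,1,1] (.C [(0,1),(0,0),(0,0),(0,0),(18,0),(0,0),(18,1),(11,0)]) (.C [(0,0),(21,0),
  (7,0)]))) (.Q [0,0,1,0,0,0,-2,0,0,0,-2] (.p false [0,0,1] [0,1,-1] (⟨0,[(39,0)]⟩,⟨0,[(38,0)]⟩) .k
  2 (⟨0,[(28,0)]⟩,⟨0,[(39,0),(3,0)]⟩) .k (.r (-1) ⟨28,[(1,20),(3,4),(11,8),(5,6),(2,0),(2,7),(19,
  13)]⟩ ⟨0,[(24,1),(22,1)]⟩)) (.R ⟨0,false,false,true,[1,0,-2],[1,0,-1],[1],(⟨0,[(1,0)]⟩,⟨0,[(40,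
  1)]⟩),(⟨0,[(39,0)]⟩,⟨0,[(40,0)]⟩),⟨0,[(28,0),(11,0)]⟩,.k,.k,(.x 0 ⟨2,[(0,0),(26,2),(0,2),(8,1),(2,
  2)]⟩ ⟨0,[(1,0),(2,0),(16,0),(8,0),(13,0)]⟩),.k,.k,.k,⟨false,1,⟨29,[(2,9),(1,3),(9,1),(6,1),(12,5),
  (15,7),(0,4),(0,14)]⟩,⟨0,[(21,0),(14,0)]⟩⟩,⟨true,0,⟨0,[(21,0)]⟩,⟨0,[(38,0)]⟩⟩,⟨false,1,⟨0,[(2,0),
  (22,0)]⟩,⟨0,[(25,1),(22,1)]⟩⟩,⟨true,0,⟨0,[(35,0)]⟩,⟨3,[(4,0),(4,0),(5,3),(2,0)]⟩⟩,⟨false,0,⟨0,[]⟩,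
  ⟨0,[]⟩⟩,⟨false,0,⟨0,[]⟩,⟨0,[]⟩⟩,[.o ⟨false,0,⟨0,[(36,0)]⟩,⟨16,[(2,3),(1,3),(5,3),(13,3),(10,0),(1,
  3),(9,0),(4,10)]⟩⟩,.o ⟨false,0,⟨3,[(4,0),(4,0),(5,3),(2,0)]⟩,⟨5,[(12,0),(17,0),(4,4),(11,0),(4,
  2)]⟩⟩,.a ⟨true,0,⟨0,[(27,0)]⟩,⟨0,[(21,1)]⟩⟩ ⟨true,0,⟨0,[]⟩,⟨0,[(54,0)]⟩⟩ ⟨false,0,⟨0,[(21,0),(3,
  0),(22,0)]⟩,⟨59,[(0,16),(1,19),(15,2),(8,12),(2,5),(16,1),(2,19),(1,29)]⟩⟩,.o ⟨false,0,⟨0,[(0,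
  0)]⟩,⟨4,[(21,8),(15,0),(9,0),(3,2)]⟩⟩]⟩) (.I [0,0,-1,0,0,1,-1] (.C [(0,1),(0,0),(0,1),(26,1),(12,
  3),(11,2)]) (.C [(0,0),(28,0),(5,0)]))))) (.Q [0,0,0,0,0,0,0,0,0,-1,2] (.ed false [0,0,2] (.r
  (-1) ⟨2,[(6,1),(2,1),(3,3),(35,2)]⟩ ⟨1,[(0,1),(45,1),(1,0),(0,0)]⟩)) (.Q [0,0,1,0,0,0,2,0,0,-1,2]
  (.p true [0,0,1] [1,0,-1] (⟨0,[(38,0)]⟩,⟨0,[(37,0)]⟩) .k 2 (⟨0,[(37,0)]⟩,⟨0,[(38,0)]⟩) .k (.r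
  (-1) ⟨2,[(7,1),(2,1),(3,3),(35,2)]⟩ ⟨1,[(1,1),(45,1),(1,0),(0,0)]⟩)) (.K ⟨0,[-1,0,2],0,1,(⟨0,[(1,
  0)]⟩,⟨0,[(38,1)]⟩),.k,(.x 0 ⟨0,[(0,0),(27,0),(9,0)]⟩ ⟨6,[(1,6),(15,0),(0,1),(7,5),(16,6),(2,0),(3,
  2)]⟩),(.r (-1) ⟨4,[(15,5),(1,2),(4,3),(0,0),(2,1),(10,0),(13,4)]⟩ ⟨0,[(2,0),(44,1),(3,0)]⟩),.k,.k,
  [⟨1,[(26,0),(6,0),(2,0)]⟩,⟨0,[(0,0)]⟩,⟨0,[(2,0),(23,0),(20,0)]⟩,⟨5,[(11,0),(17,0),(4,10),(11,0),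
  (4,2)]⟩]⟩) (.I [0,0,0,0,0,1,1] (.C [(0,1),(0,0),(0,0),(38,1),(11,0)]) (.C [(0,0),(20,0),(7,0)])))
  (.R ⟨0,false,false,true,[0,0,1],[0,0,2],[1,1],(⟨0,[(38,0)]⟩,⟨0,[(37,0)]⟩),(⟨0,[(38,1)]⟩,⟨0,[(0,
  0)]⟩),⟨0,[(27,0)]⟩,.k,.k,.k,.k,.k,.k,⟨false,0,⟨1,[(1,1),(44,1),(2,0),(0,0)]⟩,⟨2,[(7,1),(2,1),(3,
  3),(35,2)]⟩⟩,⟨true,0,⟨0,[(19,0)]⟩,⟨0,[(36,0)]⟩⟩,⟨false,0,⟨3,[(1,1),(45,1),(1,0),(0,0)]⟩,⟨2,[(7,0),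
  (2,0),(3,1),(35,2)]⟩⟩,⟨true,0,⟨0,[(33,0)]⟩,⟨4,[(1,0),(4,0),(0,0),(5,1),(20,0),(12,0),(2,0)]⟩⟩,
  ⟨false,0,⟨0,[]⟩,⟨0,[]⟩⟩,⟨false,0,⟨0,[]⟩,⟨0,[]⟩⟩,[.o ⟨false,1,⟨5,[(10,0),(17,0),(4,10),(11,0),(4,
  2)]⟩,⟨1,[(1,1),(1,1),(2,1),(18,0),(0,0),(0,0),(11,1),(10,1)]⟩⟩,.o ⟨false,1,⟨0,[(8,0),(1,0),(39,
  0)]⟩,⟨4,[(1,1),(4,1),(0,1),(5,3),(20,1),(12,1),(2,1)]⟩⟩,.e ⟨false,0,⟨0,[]⟩,⟨12,[(4,0),(11,2),(11,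
  3),(4,0),(15,1),(0,6)]⟩⟩ ⟨false,1,⟨0,[(10,0),(3,0),(35,0)]⟩,⟨0,[(1,0),(1,0),(2,0),(43,0)]⟩⟩,.a
  ⟨true,0,⟨0,[(35,0)]⟩,⟨0,[(32,0)]⟩⟩ ⟨true,0,⟨10,[(2,1),(9,0),(6,0),(12,2),(11,4),(1,0)]⟩,⟨1,[(35,
  0),(0,0)]⟩⟩ ⟨false,1,⟨0,[(8,0),(1,0),(21,0),(17,0)]⟩,⟨0,[(1,0),(1,0),(3,0),(42,0)]⟩⟩]⟩)))))

theorem ok74 : chk K t74 l51 = true := by decide +kernel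

noncomputable def t75 : Tre :=
  (.Q [0,0,0,0,0,-1,0,0,0,0,0,1] (.ed false [1,-1,0,0,1] .k) (.R ⟨1,true,false,false,[0,0,0,0,1],[2,
  0,-1,0,-1],[-1,0,1,0,0,0,0,-1],(⟨0,[(28,0)]⟩,⟨0,[(27,0)]⟩),(⟨0,[(27,0),(6,0)]⟩,⟨0,[(2,0)]⟩),⟨0,
  [(0,0)]⟩,.k,.k,(.r (-1) ⟨1,[(44,1),(1,0),(0,0)]⟩ ⟨4,[(11,1),(1,0),(5,1),(0,1),(1,0),(22,0)]⟩),.k,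
  (.r (-1) ⟨14,[(1,1),(5,4),(3,7),(2,0),(7,2),(20,11),(0,2),(2,13)]⟩ ⟨0,[(20,0),(28,0)]⟩),.k,⟨true,
  0,⟨1,[(32,0),(0,0)]⟩,⟨0,[]⟩⟩,⟨false,1,⟨1,[(10,1),(0,1),(34,0),(0,0)]⟩,⟨1,[(1,0),(11,0),(2,0),(3,
  0),(22,0)]⟩⟩,⟨true,0,⟨0,[(1,0),(8,1),(5,1),(12,0),(18,2)]⟩,⟨5,[(1,1),(3,0),(5,2),(17,2),(11,0)]⟩⟩,
  ⟨false,1,⟨3,[(10,5),(0,1),(20,1),(13,0),(0,2)]⟩,⟨1,[(1,1),(20,0),(6,0),(2,2)]⟩⟩,⟨false,0,⟨0,[(16,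
  0),(0,0),(30,0)]⟩,⟨14,[(1,1),(5,4),(3,7),(2,0),(7,2),(20,11),(0,2),(2,13)]⟩⟩,⟨true,0,⟨6,[(9,3),(0,
  4),(0,0),(8,2),(8,3),(2,1),(8,0)]⟩,⟨1,[(1,1),(20,0),(6,0),(2,2),(11,1)]⟩⟩,[]⟩) (.Q [0,0,0,0,0,-1,
  0,0,0,2,-1,-1] (.p false [-1,0,1,0,1] [1] (⟨0,[(2,0)]⟩,⟨0,[(27,0),(6,0)]⟩) .k 1 (⟨0,[]⟩,⟨0,[]⟩)
  .k (.r (-1) ⟨1,[(7,0),(14,0),(2,0),(4,0),(16,0)]⟩ ⟨0,[(20,0),(22,0)]⟩)) (.R ⟨1,true,false,true,[2,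
  0,-1,0,-1],[1,-1,0,0,1],[2,1,-1,-1],(⟨0,[(28,0),(6,0)]⟩,⟨0,[(3,0)]⟩),(⟨0,[(29,0),(10,0)]⟩,⟨0,[(1,
  0)]⟩),⟨0,[(0,0)]⟩,.k,(.r (-1) ⟨1,[(45,1),(1,0),(0,0)]⟩ ⟨4,[(12,1),(1,0),(5,1),(0,1),(1,0),(22,
  0)]⟩),(.r (-1) ⟨1,[(21,1),(22,1),(0,1),(1,0),(0,0)]⟩ ⟨1,[(2,1),(7,1),(12,2),(6,0),(2,4)]⟩),(.r 0
  ⟨0,[(21,0),(28,0)]⟩ ⟨14,[(2,1),(5,4),(3,7),(2,0),(7,2),(20,11),(0,2),(2,13)]⟩),.k,.k,⟨true,0,⟨0,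
  []⟩,⟨1,[(33,0),(0,0)]⟩⟩,⟨false,0,⟨3,[(2,0),(11,0),(2,2),(3,0),(5,3),(16,0)]⟩,⟨2,[(10,0),(0,0),(0,
  0),(2,1),(28,0),(3,0)]⟩⟩,⟨false,1,⟨14,[(2,1),(5,4),(3,7),(2,0),(7,2),(20,11),(0,2),(2,13)]⟩,⟨0,
  [(17,0),(0,0),(30,0)]⟩⟩,⟨true,0,⟨1,[(2,1),(20,0),(6,2),(2,4),(11,1)]⟩,⟨1,[(10,0),(0,0),(1,0),(4,
  0)]⟩⟩,⟨true,0,⟨5,[(2,1),(3,0),(5,2),(17,2),(11,0)]⟩,⟨0,[(2,0),(8,1),(5,1),(12,0),(18,2)]⟩⟩,⟨false,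
  0,⟨1,[(2,1),(20,0),(6,2),(2,4)]⟩,⟨10,[(10,4),(0,10),(14,0),(16,0),(1,4),(2,7)]⟩⟩,[]⟩) (.Q [0,0,2,
  0,0,0,-1,0,-1,2,-1,-1] (.p false [-1,0,1,0,1] [1] (⟨0,[(3,0)]⟩,⟨0,[(28,0),(6,0)]⟩) .k 1 (⟨0,[]⟩,
  ⟨0,[]⟩) .k (.r (-1) ⟨1,[(8,0),(14,0),(2,0),(4,0),(16,0)]⟩ ⟨0,[(21,0),(22,0)]⟩)) (.R ⟨0,false,
  false,false,[2,-1,0,0,-1],[0,0,1],[0,1],(⟨0,[(29,0),(11,0)]⟩,⟨1,[(1,0),(24,0),(3,0)]⟩),(⟨0,[(37,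
  0)]⟩,⟨0,[(36,0)]⟩),⟨0,[(1,0),(24,0)]⟩,(.r (-1) ⟨1,[(46,1),(1,0),(0,0)]⟩ ⟨8,[(0,1),(14,0),(5,3),(2,
  0),(22,4)]⟩),.k,(.r (-1) ⟨0,[(45,1),(3,0)]⟩ ⟨8,[(0,3),(14,1),(5,7),(2,1),(22,9)]⟩),(.r (-1) ⟨1,
  [(22,1),(22,1),(0,1),(1,0),(0,0)]⟩ ⟨6,[(0,7),(2,6),(7,2),(6,2),(12,1),(15,3)]⟩),.k,.k,⟨false,0,⟨1,
  [(18,0),(0,0),(2,0),(20,0),(1,1)]⟩,⟨33,[(0,1),(2,3),(5,11),(3,17),(10,6),(19,0),(4,31)]⟩⟩,⟨true,0,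
  ⟨0,[(3,0),(8,0),(5,0)]⟩,⟨0,[(0,0)]⟩⟩,⟨false,0,⟨8,[(0,1),(14,0),(5,3),(2,0),(22,4)]⟩,⟨0,[(45,0),(3,
  0)]⟩⟩,⟨true,0,⟨2,[(0,0),(2,2),(7,0),(22,0),(12,1)]⟩,⟨1,[(0,0),(11,1),(5,0),(9,0),(16,1)]⟩⟩,⟨false,
  0,⟨0,[]⟩,⟨0,[]⟩⟩,⟨false,0,⟨0,[]⟩,⟨0,[]⟩⟩,[.o ⟨false,1,⟨5,[(9,0),(17,0),(4,4),(11,0),(4,2)]⟩,⟨0,
  [(19,0),(26,0)]⟩⟩,.o ⟨false,1,⟨53,[(0,3),(2,11),(3,30),(1,10),(24,3),(9,2),(4,47)]⟩,⟨0,[(33,0)]⟩⟩,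
  .o ⟨false,1,⟨10,[(0,5),(14,0),(11,6),(6,5),(13,3)]⟩,⟨0,[(3,0),(8,0)]⟩⟩,.a ⟨true,0,⟨0,[(0,0),(17,
  0)]⟩,⟨0,[(3,0),(8,0),(5,0),(12,0)]⟩⟩ ⟨true,0,⟨8,[(3,0),(7,0),(6,1),(0,0),(11,1),(11,3),(1,1)]⟩,⟨1,
  [(34,0),(0,0)]⟩⟩ ⟨false,1,⟨6,[(3,5),(3,0),(3,1),(6,1),(12,1),(13,1),(2,1),(0,4)]⟩,⟨4,[(0,2),(11,
  4),(2,0),(12,0),(5,2)]⟩⟩]⟩) (.I [0,0,-1,-1,1,0,0,3] (.Q [0,0,1,0,0,0,2,0,0,-1,2] (.p true [0,0,1]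
  [1,0,-1] (⟨0,[(38,0)]⟩,⟨0,[(37,0)]⟩) .k 2 (⟨0,[(37,0)]⟩,⟨0,[(38,0)]⟩) .k (.r (-1) ⟨2,[(0,1),(13,
  0),(1,0),(6,0),(4,0),(19,0)]⟩ ⟨0,[(23,1),(22,1)]⟩)) (.R ⟨0,false,false,true,[0,0,1],[1,0,-1],[1],
  (⟨0,[(39,0)]⟩,⟨0,[(38,0)]⟩),(⟨0,[(38,0)]⟩,⟨0,[(39,0)]⟩),⟨0,[(28,0)]⟩,.k,.k,.k,.k,.k,.k,⟨false,1,
  ⟨41,[(1,13),(0,3),(10,1),(6,1),(12,5),(15,11),(0,6),(0,20)]⟩,⟨0,[(20,0),(14,0)]⟩⟩,⟨true,0,⟨0,[(26,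
  0)]⟩,⟨0,[(0,0)]⟩⟩,⟨true,0,⟨0,[(24,0),(22,0)]⟩,⟨2,[(8,0),(2,0),(3,1)]⟩⟩,⟨false,0,⟨3,[(2,0),(11,7),
  (2,2),(12,0),(2,0)]⟩,⟨3,[(0,1),(0,2),(3,0),(7,0),(6,2),(3,1),(26,0)]⟩⟩,⟨false,0,⟨0,[]⟩,⟨0,[]⟩⟩,
  ⟨false,0,⟨0,[]⟩,⟨0,[]⟩⟩,[.o ⟨false,0,⟨0,[(35,0)]⟩,⟨106,[(0,37),(0,27),(0,5),(10,2),(8,22),(0,1),
  (22,6),(4,64)]⟩⟩,.o ⟨false,0,⟨5,[(2,0),(5,1),(5,4),(2,0),(6,0),(23,0)]⟩,⟨51,[(0,9),(0,9),(9,21),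
  (11,9),(5,21),(16,1),(3,4),(0,10)]⟩⟩,.a ⟨true,0,⟨0,[(20,0)]⟩,⟨1,[(26,0),(6,0),(2,0)]⟩⟩ ⟨true,0,⟨0,
  []⟩,⟨0,[(53,0)]⟩⟩ ⟨false,0,⟨6,[(7,0),(6,6),(2,2),(8,1),(6,1)]⟩,⟨11,[(0,7),(0,1),(0,1),(10,0),(8,
  0),(11,4),(15,0),(0,8)]⟩⟩,.e ⟨false,1,⟨1,[(50,0),(0,0)]⟩,⟨1,[(36,0),(0,0)]⟩⟩ ⟨false,0,⟨3,[(7,0),
  (6,2),(2,0),(3,0),(11,2),(13,0)]⟩,⟨6,[(0,3),(0,1),(9,0),(11,1),(5,0),(6,2),(14,3)]⟩⟩]⟩) (.Q [0,0,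
  0,0,0,0,0,0,0,1,-2] (.ed true [0,0,2] (.r (-1) ⟨2,[(1,1),(13,0),(1,0),(6,0),(4,0),(19,0)]⟩ ⟨0,
  [(24,1),(22,1)]⟩)) (.R ⟨0,false,false,true,[1,0,-2],[1,0,-1],[1],(⟨0,[(0,0)]⟩,⟨0,[(40,1)]⟩),(⟨0,
  [(39,0)]⟩,⟨0,[(40,0)]⟩),⟨0,[(28,0),(11,0)]⟩,.k,.k,(.x 0 ⟨1,[(27,1),(0,1),(8,0),(0,0),(1,1)]⟩ ⟨7,
  [(0,7),(2,2),(17,12),(4,0),(3,1),(13,7),(2,1),(3,0)]⟩),.k,.k,.k,⟨false,1,⟨41,[(2,13),(0,3),(10,1),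
  (6,1),(12,5),(15,11),(0,6),(0,20)]⟩,⟨0,[(21,0),(14,0)]⟩⟩,⟨true,0,⟨0,[(21,0)]⟩,⟨0,[(38,0)]⟩⟩,
  ⟨false,1,⟨0,[(2,0),(22,0)]⟩,⟨0,[(25,1),(22,1)]⟩⟩,⟨true,0,⟨0,[(35,0)]⟩,⟨5,[(3,0),(5,1),(5,4),(2,0),
  (6,0),(23,0)]⟩⟩,⟨false,0,⟨0,[]⟩,⟨0,[]⟩⟩,⟨false,0,⟨0,[]⟩,⟨0,[]⟩⟩,[.o ⟨false,0,⟨0,[(36,0)]⟩,⟨42,[(2,
  10),(0,6),(2,0),(3,8),(13,10),(12,14),(9,2),(4,25)]⟩⟩,.o ⟨false,0,⟨5,[(3,0),(5,1),(5,4),(2,0),(6,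
  0),(23,0)]⟩,⟨5,[(12,0),(17,0),(4,4),(11,0),(4,2)]⟩⟩,.a ⟨true,0,⟨0,[(27,0)]⟩,⟨0,[(21,1)]⟩⟩ ⟨true,0,
  ⟨0,[]⟩,⟨0,[(54,0)]⟩⟩ ⟨false,0,⟨0,[(21,0),(3,0),(22,0)]⟩,⟨107,[(2,35),(15,1),(5,33),(2,70),(2,3),
  (16,6),(2,1),(1,53)]⟩⟩,.o ⟨false,0,⟨4,[(0,0),(0,2),(2,1),(0,1),(32,3),(2,3),(11,3)]⟩,⟨4,[(21,8),
  (15,0),(9,0),(3,2)]⟩⟩]⟩) (.I [0,0,0,0,0,1,1] (.C [(0,1),(0,0),(0,0),(39,1),(11,0)]) (.C [(0,0),(5,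
  0),(7,0),(7,0)])))) (.Q [0,0,0,0,0,0,0,0,0,-1,2] (.ed false [0,0,2] (.r (-1) ⟨23,[(4,3),(5,17),(3,
  25),(10,8),(10,3),(8,0),(4,21)]⟩ ⟨2,[(0,1),(46,1),(1,0),(0,0)]⟩)) (.I [0,0,1,1,-1,0,0,-3] (.Q [0,
  0,1,0,0,0,3,0,0,-1,3] (.p true [0,0,1] [1,1,-2] (⟨0,[(40,0)]⟩,⟨0,[(39,0)]⟩) .k 2 (⟨0,[(29,0),(9,
  0)]⟩,⟨0,[(1,0),(42,0)]⟩) (.x (-1) ⟨6,[(1,6),(16,0),(0,1),(7,5),(16,6),(2,0),(3,2)]⟩ ⟨0,[(21,1),(7,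
  1),(11,0),(11,0)]⟩) (.r (-1) ⟨0,[(6,0),(9,1),(10,0),(9,0),(14,0)]⟩ ⟨1,[(2,1),(46,1),(1,0),(0,
  0)]⟩)) (.K ⟨0,[1,1,-2],0,(-1),(⟨0,[(30,0),(9,0)]⟩,⟨0,[(2,0),(42,0)]⟩),(.x (-1) ⟨6,[(2,6),(16,0),
  (0,1),(7,5),(16,6),(2,0),(3,2)]⟩ ⟨2,[(0,1),(29,3),(9,1),(1,0),(11,0)]⟩),(.r 0 ⟨2,[(3,1),(46,1),(1,
  0),(0,0)]⟩ ⟨23,[(7,3),(5,17),(3,25),(10,8),(10,3),(8,0),(4,21)]⟩),(.r 1 ⟨1,[(3,1),(3,1),(7,1),(12,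
  2),(6,0),(2,4)]⟩ ⟨14,[(7,3),(5,9),(3,15),(2,1),(7,5),(20,23),(0,5),(2,27)]⟩),(.r 1 ⟨0,[(1,0)]⟩ ⟨4,
  [(7,1),(5,4),(3,7),(2,0),(7,2),(20,1),(0,2),(2,8)]⟩),.k,[⟨0,[(0,0)]⟩,⟨0,[(28,0)]⟩,⟨0,[(11,0),(1,
  0),(36,0),(2,0)]⟩,⟨6,[(3,6),(3,1),(1,0),(7,4),(10,5),(6,2),(11,0)]⟩]⟩) (.I [0,0,0,0,0,1,1] (.C
  [(0,1),(0,0),(1,0),(19,0),(19,1),(11,0)]) (.C [(0,0),(6,0),(7,0),(7,0)]))) (.Q [0,0,1,0,0,0,2,0,0,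
  -1,2] (.p true [0,0,1] [1,0,-1] (⟨0,[(40,0)]⟩,⟨0,[(39,0)]⟩) .k 2 (⟨0,[(39,0)]⟩,⟨0,[(40,0)]⟩) .k
  (.r (-1) ⟨2,[(0,1),(15,0),(1,0),(6,0),(4,0),(19,0)]⟩ ⟨2,[(2,1),(46,1),(1,0),(0,0)]⟩)) (.R ⟨2,true,
  false,false,[0,1],[-1,0,2],[1,0,1],(⟨0,[]⟩,⟨0,[]⟩),(⟨0,[(2,0)]⟩,⟨0,[(40,1)]⟩),⟨0,[]⟩,.k,.k,.k,(.r
  0 ⟨11,[(3,5),(15,0),(6,5),(1,0),(2,5),(0,3),(5,1),(8,2)]⟩ ⟨5,[(1,3),(48,1),(1,0),(0,0)]⟩),.k,.k,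
  ⟨false,0,⟨2,[(3,1),(46,1),(1,0),(0,0)]⟩,⟨21,[(1,13),(15,1),(1,1),(11,1),(19,13),(0,4),(0,0)]⟩⟩,
  ⟨true,0,⟨0,[(0,0)]⟩,⟨0,[(28,0)]⟩⟩,⟨false,1,⟨0,[(50,0),(2,0)]⟩,⟨0,[(51,0)]⟩⟩,⟨true,1,⟨5,[(0,5),(0,
  3),(48,1),(1,0),(0,0)]⟩,⟨6,[(3,6),(3,1),(1,0),(7,4),(10,5),(6,2),(11,0)]⟩⟩,⟨true,0,⟨0,[]⟩,⟨0,[(55,
  0)]⟩⟩,⟨false,1,⟨3,[(0,1),(0,2),(5,0),(7,0),(6,2),(3,1),(26,0)]⟩,⟨2,[(3,1),(24,2),(21,1),(1,0),(0,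
  0)]⟩⟩,[]⟩) (.I [0,0,0,0,0,1,1] (.C [(0,1),(0,0),(1,0),(39,1),(11,0)]) (.C [(0,0),(6,0),(7,0),(7,
  0)])))) (.Q [0,-1,0,0,1,0,2,2,0,-1,2] (.p true [0,0,1] [1,0,-1] (⟨0,[(39,0)]⟩,⟨0,[(38,0)]⟩) .k 2
  (⟨0,[(38,0)]⟩,⟨0,[(39,0)]⟩) .k (.r (-1) ⟨23,[(5,3),(5,17),(3,25),(10,8),(10,3),(8,0),(4,21)]⟩ ⟨2,
  [(1,1),(46,1),(1,0),(0,0)]⟩)) (.R ⟨0,false,false,true,[1,0,-2],[1,0,-1],[1],(⟨0,[(1,0)]⟩,⟨0,[(40,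
  1)]⟩),(⟨0,[(39,0)]⟩,⟨0,[(40,0)]⟩),⟨0,[(28,0),(11,0)]⟩,.k,.k,(.x 0 ⟨1,[(27,1),(0,1),(8,0),(0,0),(1,
  1)]⟩ ⟨47,[(0,3),(0,47),(0,2),(0,15),(6,0),(10,70),(8,14),(13,47),(2,11),(0,2),(2,7)]⟩),.k,.k,.k,
  ⟨false,1,⟨7,[(0,3),(7,0),(10,0),(7,0),(6,3),(16,0),(0,1)]⟩,⟨4,[(2,0),(33,1),(0,1),(8,0),(2,0),(1,
  0)]⟩⟩,⟨true,0,⟨0,[(21,0)]⟩,⟨0,[(38,0)]⟩⟩,⟨false,1,⟨0,[(0,0),(26,0)]⟩,⟨2,[(2,1),(46,1),(1,0),(0,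
  0)]⟩⟩,⟨true,0,⟨0,[(35,0)]⟩,⟨13,[(2,3),(6,1),(5,1),(11,4),(19,0),(0,3),(3,1)]⟩⟩,⟨false,0,⟨0,[]⟩,⟨0,
  []⟩⟩,⟨false,0,⟨0,[]⟩,⟨0,[]⟩⟩,[.o ⟨false,0,⟨0,[(36,0)]⟩,⟨83,[(0,41),(17,1),(11,3),(16,7),(3,0),(0,
  20)]⟩⟩,.o ⟨false,0,⟨13,[(2,3),(6,1),(5,1),(11,4),(19,0),(0,3),(3,1)]⟩,⟨20,[(0,6),(11,6),(5,1),(7,
  6),(3,3),(16,0),(3,0)]⟩⟩,.a ⟨true,0,⟨0,[(27,0)]⟩,⟨0,[(21,1)]⟩⟩ ⟨true,0,⟨0,[]⟩,⟨0,[(54,0)]⟩⟩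
  ⟨false,0,⟨5,[(2,1),(18,5),(27,1),(1,0),(0,0)]⟩,⟨55,[(0,27),(17,1),(0,1),(7,54),(2,1),(16,4),(4,
  13)]⟩⟩,.o ⟨false,0,⟨1,[(1,0),(2,1),(0,1),(21,0),(6,1),(6,3),(11,3)]⟩,⟨4,[(21,8),(15,0),(9,0),(3,
  2)]⟩⟩]⟩) (.R ⟨0,false,false,true,[1,0,-2],[1,0,-1],[1,0,0,-1,0,0,0,-2],(⟨0,[(1,0)]⟩,⟨0,[(40,1)]⟩),
  (⟨0,[(39,0)]⟩,⟨0,[(40,0)]⟩),⟨0,[(28,0),(11,0)]⟩,.k,.k,(.x 0 ⟨1,[(27,1),(0,1),(8,0),(0,0),(1,1)]⟩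
  ⟨7,[(1,7),(1,2),(17,12),(4,0),(3,1),(13,7),(2,1),(3,0)]⟩),.k,.k,.k,⟨false,1,⟨5,[(2,1),(45,5),(0,
  1),(1,0),(0,6)]⟩,⟨1,[(23,0),(3,0),(7,0),(14,0)]⟩⟩,⟨true,0,⟨0,[(21,0)]⟩,⟨0,[(38,0)]⟩⟩,⟨false,1,⟨0,
  [(49,0),(2,0)]⟩,⟨0,[(50,0)]⟩⟩,⟨true,0,⟨0,[(35,0)]⟩,⟨10,[(0,4),(35,0),(10,0),(4,2)]⟩⟩,⟨false,0,⟨0,
  []⟩,⟨0,[]⟩⟩,⟨false,0,⟨0,[]⟩,⟨0,[]⟩⟩,[.o ⟨false,0,⟨0,[(36,0)]⟩,⟨21,[(6,3),(3,12),(1,4),(24,1),(0,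
  1),(8,0),(4,19)]⟩⟩,.o ⟨false,0,⟨10,[(0,4),(35,0),(10,0),(4,2)]⟩,⟨5,[(12,0),(17,0),(4,4),(11,0),(4,
  2)]⟩⟩,.a ⟨true,0,⟨0,[(27,0)]⟩,⟨0,[(21,1)]⟩⟩ ⟨true,0,⟨1,[(0,1),(3,0),(0,0),(15,1),(7,0),(7,1),(3,
  2),(6,1),(3,1)]⟩,⟨1,[(6,1),(9,3),(8,1),(1,0),(6,0),(2,0)]⟩⟩ ⟨false,0,⟨5,[(2,1),(18,3),(15,1),(10,
  1),(2,0),(0,0)]⟩,⟨15,[(6,3),(5,1),(3,9),(10,8),(10,3),(8,0),(4,13)]⟩⟩,.o ⟨false,0,⟨1,[(1,0),(2,1),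
  (0,1),(21,0),(6,1),(6,3),(11,3)]⟩,⟨4,[(21,8),(15,0),(9,0),(3,2)]⟩⟩]⟩)))))))

theorem ok75 : chk K t75 r51 = true := by decide +kernel

noncomputable def t77 : Tre :=
  (.Q [2,0,0,0,0,0,1,1,2,-1,1,2] (.p true [0,0,0,0,1] [1,0,-1,0,-1] (⟨0,[(26,0)]⟩,⟨0,[(25,0)]⟩) .k
  2 (⟨0,[(0,0)]⟩,⟨0,[(26,0),(6,0)]⟩) .k (.r (-1) ⟨1,[(5,0),(14,0),(2,0),(4,0),(16,0)]⟩ ⟨0,[(1,0),(6,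
  0),(5,1),(31,0)]⟩)) (.Q [0,0,0,0,0,-1,0,0,0,0,1,1] (.p true [0,0,1,0,1] [] (⟨0,[(27,0),(6,0)]⟩,⟨0,
  [(1,0)]⟩) .k 0 (⟨0,[]⟩,⟨0,[]⟩) .k (.r (-1) ⟨37,[(0,21),(9,15),(10,10),(2,27),(16,0),(4,7)]⟩ ⟨0,
  [(19,0),(22,0)]⟩)) (.R ⟨1,true,false,false,[0,0,1,0,1],[1,0,0,0,-1],[1],(⟨0,[(0,0),(36,0)]⟩,⟨0,
  [(2,0)]⟩),(⟨0,[(27,0)]⟩,⟨0,[(28,0)]⟩),⟨0,[(0,0)]⟩,.k,.k,(.r (-1) ⟨13,[(1,3),(1,1),(7,9),(10,0),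
  (19,0),(0,11),(0,1),(2,11)]⟩ ⟨0,[(20,0),(28,0)]⟩),.k,(.r (-1) ⟨13,[(1,3),(1,1),(7,9),(10,0),(19,
  0),(0,11),(0,1),(2,11)]⟩ ⟨0,[(20,0),(28,0)]⟩),.k,⟨true,0,⟨0,[]⟩,⟨0,[(48,0)]⟩⟩,⟨false,1,⟨2,[(9,0),
  (0,0),(0,0),(2,1),(28,0),(3,0)]⟩,⟨0,[(1,0),(18,0),(22,0)]⟩⟩,⟨true,0,⟨0,[(20,0),(22,0)]⟩,⟨2,[(4,0),
  (2,0),(3,1)]⟩⟩,⟨false,1,⟨10,[(9,4),(0,10),(14,0),(16,0),(1,4),(2,7)]⟩,⟨0,[(1,0)]⟩⟩,⟨false,0,⟨0,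
  [(16,0),(0,0)]⟩,⟨13,[(1,3),(2,1),(6,9),(10,0),(19,0),(1,13),(2,11)]⟩⟩,⟨true,0,⟨1,[(9,0),(0,0),(1,
  0),(4,0)]⟩,⟨0,[(1,0),(42,0)]⟩⟩,[]⟩) (.I [0,0,-1,0,0,0,0,0,1] (.I [-1,0,-1,0,0,0,0,-1] (.I [0,0,-1,
  0,0,1,-1] (.C [(0,1),(2,0),(7,0),(7,1),(19,2),(11,1)]) (.C [(0,0),(25,0),(5,0)])) (.C [(0,0),(4,
  0),(6,0),(5,1)])) (.C [(0,0),(0,0),(2,0),(12,0),(6,0),(15,1)]))) (.Q [1,-1,0,1,0,0,0,0,2,-2,0,2]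
  (.p true [0,0,0,0,1] [2,-1,0,0,-1] (⟨0,[(27,0)]⟩,⟨0,[(26,0)]⟩) .k 2 (⟨0,[(26,0),(11,0)]⟩,⟨0,[(7,
  0),(14,0)]⟩) (.r (-1) ⟨1,[(43,1),(1,0),(0,0)]⟩ ⟨4,[(10,1),(1,0),(5,1),(0,1),(1,0),(22,0)]⟩) (.r 0
  ⟨0,[]⟩ ⟨15,[(12,5),(7,11),(15,5),(1,5),(6,2),(0,0),(1,1)]⟩)) (.Q [0,0,1,0,0,0,0,0,-1,2,0,-1] (.p
  false [-1,1,0,0,1] [1] (⟨0,[(8,0),(14,0)]⟩,⟨0,[(27,0),(11,0)]⟩) (.r 0 ⟨4,[(11,1),(1,0),(5,1),(0,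
  1),(1,0),(22,0)]⟩ ⟨1,[(44,1),(1,0),(0,0)]⟩) 1 (⟨0,[]⟩,⟨0,[]⟩) .k .k) (.R ⟨0,false,false,true,[-1,
  1,0,0,1],[1,0,0,0,-1],[1,1],(⟨0,[(9,0),(14,0)]⟩,⟨0,[(28,0),(11,0)]⟩),(⟨0,[(28,0)]⟩,⟨0,[(29,0)]⟩),
  ⟨0,[(28,0)]⟩,(.r 0 ⟨8,[(0,1),(13,0),(5,5),(2,2),(22,2)]⟩ ⟨1,[(45,1),(1,0),(0,0)]⟩),.k,.k,(.r 0 ⟨8,
  [(0,1),(13,0),(5,5),(2,2),(22,2)]⟩ ⟨0,[(2,0),(1,2),(1,0),(10,4),(12,1),(13,0),(3,0),(0,4)]⟩),.k,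
  .k,⟨true,0,⟨0,[]⟩,⟨0,[(49,0)]⟩⟩,⟨false,1,⟨8,[(0,7),(1,1),(3,1),(19,3),(20,3),(0,0)]⟩,⟨0,[(1,0),
  (42,0)]⟩⟩,⟨true,0,⟨0,[(44,0)]⟩,⟨8,[(0,1),(13,0),(5,5),(2,2),(22,2)]⟩⟩,⟨false,1,⟨7,[(0,6),(1,1),(3,
  1),(19,2),(17,6),(0,0),(2,4)]⟩,⟨0,[(1,0)]⟩⟩,⟨false,0,⟨0,[]⟩,⟨0,[]⟩⟩,⟨false,0,⟨0,[]⟩,⟨0,[]⟩⟩,[.o
  ⟨false,0,⟨0,[(13,0)]⟩,⟨41,[(14,21),(11,1),(16,3),(3,10),(0,20)]⟩⟩,.o ⟨false,1,⟨0,[(22,0)]⟩,⟨0,[(7,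
  0)]⟩⟩,.a ⟨true,0,⟨0,[(4,0),(12,0)]⟩,⟨0,[(0,0)]⟩⟩ ⟨false,0,⟨0,[]⟩,⟨17,[(0,1),(13,3),(11,5),(20,2),
  (0,8)]⟩⟩ ⟨true,0,⟨0,[(0,0),(12,0)]⟩,⟨0,[(1,0),(42,0)]⟩⟩,.e ⟨true,0,⟨4,[(1,0),(8,0),(6,0),(12,0),
  (11,1),(1,1)]⟩,⟨1,[(33,0),(0,0)]⟩⟩ ⟨true,0,⟨9,[(0,6),(1,0),(3,0),(3,4),(31,1),(1,4)]⟩,⟨0,[(1,0),
  (43,0)]⟩⟩]⟩) (.Q [0,0,2,0,0,0,-2,0,-1,2,-2,-1] (.p false [-1,1,1] [1,0,-1,0,-1] (⟨0,[(24,0)]⟩,⟨0,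
  [(35,0),(4,0)]⟩) .k 2 (⟨0,[(3,0)]⟩,⟨0,[(29,0),(6,0)]⟩) .k (.r (-1) ⟨2,[(5,1),(2,1),(3,3),(35,2)]⟩
  ⟨0,[(21,1),(22,1)]⟩)) (.Q [1,-1,0,1,0,0,0,0,1,-2,0,1] (.p true [-1,1,0,0,1] [1] (⟨0,[(10,0),(14,
  0)]⟩,⟨0,[(29,0),(11,0)]⟩) (.r 0 ⟨8,[(0,1),(14,0),(5,2),(12,0),(12,5)]⟩ ⟨1,[(46,1),(1,0),(0,0)]⟩)
  1 (⟨0,[]⟩,⟨0,[]⟩) .k .k) (.R ⟨0,false,false,false,[1,0,-1],[-1,1,0,0,1],[1],(⟨0,[(37,0)]⟩,⟨0,[(38,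
  0)]⟩),(⟨0,[(11,0),(14,0)]⟩,⟨0,[(30,0),(11,0)]⟩),⟨0,[(26,0)]⟩,.k,(.r 0 ⟨8,[(1,1),(14,0),(5,2),(12,
  0),(12,5)]⟩ ⟨1,[(47,1),(1,0),(0,0)]⟩),.k,(.r (-1) ⟨1,[(23,1),(22,1),(0,1),(1,0),(0,0)]⟩ ⟨1,[(0,0),
  (0,0),(1,0),(10,1),(4,1)]⟩),.k,.k,⟨false,1,⟨1,[(46,1),(2,0),(0,0)]⟩,⟨8,[(1,1),(14,0),(5,2),(12,0),
  (12,5)]⟩⟩,⟨true,0,⟨0,[(2,0),(16,0)]⟩,⟨0,[(1,0),(17,0)]⟩⟩,⟨false,1,⟨2,[(7,0),(2,0),(3,1),(35,2)]⟩,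
  ⟨0,[(23,0),(22,0)]⟩⟩,⟨true,0,⟨0,[(0,0),(32,0)]⟩,⟨0,[(13,0),(18,0),(2,0),(11,0)]⟩⟩,⟨false,0,⟨0,[]⟩,
  ⟨0,[]⟩⟩,⟨false,0,⟨0,[]⟩,⟨0,[]⟩⟩,[.o ⟨false,0,⟨6,[(0,2),(1,0),(0,0),(3,0),(13,1),(0,0),(11,1)]⟩,⟨3,
  [(13,1),(0,1),(20,1),(11,3),(1,0),(0,2)]⟩⟩,.o ⟨false,0,⟨0,[(0,0)]⟩,⟨7,[(1,1),(11,1),(0,1),(13,1),
  (6,5),(11,7),(1,4),(0,0)]⟩⟩,.a ⟨true,0,⟨3,[(1,0),(27,0),(2,1)]⟩,⟨0,[(19,0)]⟩⟩ ⟨true,0,⟨0,[]⟩,⟨0,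
  [(52,0)]⟩⟩ ⟨false,0,⟨0,[(0,0),(18,0)]⟩,⟨2,[(1,0),(11,0),(0,0),(17,1),(2,1),(11,2),(1,0),(0,1)]⟩⟩,
  .o ⟨false,0,⟨0,[(36,0)]⟩,⟨4,[(19,3),(15,0),(9,0),(3,2)]⟩⟩]⟩) (.Q [0,0,0,0,0,-1,0,0,0,1,1,-1] (.p
  false [0,0,-1,0,1] [1] (⟨0,[(11,0)]⟩,⟨0,[(30,0),(7,0)]⟩) .k 1 (⟨0,[]⟩,⟨0,[]⟩) .k (.r 0 ⟨0,[(23,0),
  (22,0)]⟩ ⟨25,[(1,4),(8,9),(3,15),(1,5),(7,0),(20,1),(3,7),(0,12)]⟩)) (.R ⟨1,true,false,false,[1,0,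
  1,0,-1],[-1,1,1],[-1,0,0,0,0,0,0,1],(⟨0,[(31,0),(7,0)]⟩,⟨0,[(12,0)]⟩),(⟨0,[(27,0)]⟩,⟨0,[(38,0),(4,
  0)]⟩),⟨0,[(0,0)]⟩,.k,.k,(.r (-1) ⟨2,[(8,0),(2,0),(3,1),(31,2),(3,2)]⟩ ⟨35,[(1,3),(0,1),(14,2),(5,
  8),(0,30),(10,4),(9,10)]⟩),(.r (-1) ⟨1,[(48,1),(1,0),(0,0)]⟩ ⟨8,[(2,1),(14,0),(5,2),(12,0),(12,
  5)]⟩),(.r (-1) ⟨0,[(47,1),(3,0)]⟩ ⟨8,[(2,3),(14,1),(5,5),(12,1),(12,11)]⟩),.k,⟨false,1,⟨1,[(47,1),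
  (2,0),(0,0)]⟩,⟨8,[(2,1),(14,0),(5,2),(12,0),(12,5)]⟩⟩,⟨true,0,⟨0,[(3,0)]⟩,⟨0,[(2,0),(17,1)]⟩⟩,
  ⟨false,1,⟨11,[(2,0),(14,1),(11,2),(6,1),(13,2),(0,5)]⟩,⟨0,[]⟩⟩,⟨true,0,⟨7,[(3,1),(0,1),(3,1),(10,
  2),(2,0),(0,1),(11,0)]⟩,⟨0,[(1,0)]⟩⟩,⟨true,0,⟨0,[(49,0)]⟩,⟨0,[(48,0)]⟩⟩,⟨false,0,⟨1,[(4,1),(8,0),
  (5,0)]⟩,⟨0,[(1,0),(46,0),(2,0)]⟩⟩,[]⟩) (.I [-1,1,-1,-1] (.I [0,0,-1,0,0,1,-1] (.C [(0,1),(1,0),(5,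
  0),(13,1),(19,2),(11,1)]) (.C [(0,0),(28,0),(5,0)])) (.C [(0,0),(1,0),(1,0)])))) (.Q [0,-1,-1,0,1,
  0,1,2,0,0,1] (.p true [0,0,1] [] (⟨0,[(37,0)]⟩,⟨0,[(36,0)]⟩) .k 0 (⟨0,[]⟩,⟨0,[]⟩) .k .k) (.R ⟨0,
  false,false,false,[0,0,1],[0,0,2],[1],(⟨0,[(38,0)]⟩,⟨0,[(37,0)]⟩),(⟨0,[(38,1)]⟩,⟨0,[(5,0),(5,
  0)]⟩),⟨0,[(27,0)]⟩,.k,.k,.k,.k,.k,.k,⟨false,0,⟨3,[(1,2),(11,5),(9,1),(5,2),(17,1)]⟩,⟨53,[(0,35),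
  (13,35),(1,21),(8,10),(2,7),(7,13),(8,4)]⟩⟩,⟨true,0,⟨0,[(19,0)]⟩,⟨0,[(36,0)]⟩⟩,⟨true,0,⟨3,[(1,0),
  (11,1),(9,1),(5,0),(17,1)]⟩,⟨2,[(7,0),(2,0),(3,1)]⟩⟩,⟨false,1,⟨3,[(0,1),(27,0),(0,0),(5,1),(14,
  0)]⟩,⟨2,[(2,0),(10,2),(2,0)]⟩⟩,⟨false,0,⟨0,[]⟩,⟨0,[]⟩⟩,⟨false,0,⟨0,[]⟩,⟨0,[]⟩⟩,[.o ⟨false,1,⟨12,
  [(0,8),(7,2),(1,2),(22,1),(1,8),(9,1),(6,0)]⟩,⟨2,[(2,1),(10,5),(2,1)]⟩⟩,.e ⟨false,1,⟨1,[(49,0),(0,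
  0)]⟩,⟨0,[(52,0)]⟩⟩ ⟨false,1,⟨0,[(0,0)]⟩,⟨3,[(1,0),(11,1),(9,1),(5,0),(4,3),(12,1)]⟩⟩,.a ⟨true,0,
  ⟨0,[(19,0)]⟩,⟨1,[(25,0),(6,0),(2,0)]⟩⟩ ⟨true,0,⟨0,[]⟩,⟨0,[(52,0)]⟩⟩ ⟨false,1,⟨1,[(0,1),(34,0),(0,
  0)]⟩,⟨8,[(1,2),(0,1),(10,14),(2,4),(6,2),(23,2)]⟩⟩,.e ⟨false,1,⟨1,[(49,0),(0,0)]⟩,⟨1,[(35,0),(0,
  0)]⟩⟩ ⟨false,1,⟨0,[(0,0)]⟩,⟨2,[(2,0),(10,2),(2,0),(6,2),(23,2)]⟩⟩]⟩) (.Q [0,-1,0,0,0,0,-2,-2,0,0,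
  -2] (.p false [0,0,1] [0,1,-1] (⟨0,[(38,0)]⟩,⟨0,[(37,0)]⟩) .k 2 (⟨0,[(27,0)]⟩,⟨0,[(38,0),(3,0)]⟩)
  .k (.r (-1) ⟨2,[(7,1),(2,1),(3,3),(35,2)]⟩ ⟨1,[(0,1),(18,1),(29,0),(0,0)]⟩)) (.R ⟨0,false,false,
  true,[0,0,1],[0,0,2],[1,1],(⟨0,[(39,0)]⟩,⟨0,[(38,0)]⟩),(⟨0,[(39,1)]⟩,⟨0,[(6,0),(5,0)]⟩),⟨0,[(28,
  0)]⟩,.k,.k,.k,.k,.k,.k,⟨false,0,⟨10,[(0,4),(0,4),(0,1),(11,1),(5,14),(12,1),(16,4)]⟩,⟨2,[(8,1),(2,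
  1),(3,3),(35,2)]⟩⟩,⟨true,0,⟨0,[(20,0)]⟩,⟨0,[(37,0)]⟩⟩,⟨false,0,⟨3,[(1,1),(18,1),(29,0),(0,0)]⟩,⟨2,
  [(8,0),(2,0),(3,1),(35,2)]⟩⟩,⟨true,0,⟨0,[(34,0)]⟩,⟨2,[(0,0),(34,0)]⟩⟩,⟨false,0,⟨0,[]⟩,⟨0,[]⟩⟩,
  ⟨false,0,⟨0,[]⟩,⟨0,[]⟩⟩,[.o ⟨false,1,⟨5,[(11,0),(17,0),(4,10),(11,0),(4,2)]⟩,⟨0,[(0,0)]⟩⟩,.o
  ⟨false,1,⟨0,[(9,0),(1,0),(39,0)]⟩,⟨2,[(0,1),(34,1)]⟩⟩,.e ⟨false,0,⟨0,[]⟩,⟨1,[(29,0),(0,0),(20,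
  0)]⟩⟩ ⟨false,1,⟨0,[(11,0),(3,0),(35,0)]⟩,⟨0,[(0,0),(19,0)]⟩⟩,.a ⟨true,0,⟨0,[(36,0)]⟩,⟨0,[(33,
  0)]⟩⟩ ⟨true,0,⟨27,[(2,2),(0,0),(9,1),(19,5),(11,12),(1,1)]⟩,⟨1,[(36,0),(0,0)]⟩⟩ ⟨false,1,⟨9,[(2,
  2),(4,0),(3,7),(3,11),(17,2),(17,9)]⟩,⟨0,[(1,0),(49,0)]⟩⟩]⟩) (.Q [0,-1,0,0,1,0,1,2,0,0,1] (.p
  true [0,0,1] [] (⟨0,[(39,0)]⟩,⟨0,[(38,0)]⟩) .k 0 (⟨0,[]⟩,⟨0,[]⟩) .k .k) (.R ⟨0,false,false,false,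
  [0,0,1],[0,0,2],[1],(⟨0,[(40,0)]⟩,⟨0,[(39,0)]⟩),(⟨0,[(40,1)]⟩,⟨0,[(7,0),(5,0)]⟩),⟨0,[(29,0)]⟩,.k,
  .k,.k,.k,.k,.k,⟨false,0,⟨11,[(2,9),(0,3),(11,3),(5,9),(12,3),(16,4),(0,4)]⟩,⟨165,[(0,117),(11,45),
  (3,49),(1,10),(8,81),(2,17),(15,10),(0,14)]⟩⟩,⟨true,0,⟨0,[(21,0)]⟩,⟨0,[(38,0)]⟩⟩,⟨true,0,⟨3,[(2,
  1),(18,1),(29,0),(0,0)]⟩,⟨2,[(9,0),(2,0),(3,1)]⟩⟩,⟨false,1,⟨3,[(0,1),(36,1),(13,0),(0,0)]⟩,⟨7,[(2,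
  3),(5,0),(10,0),(7,0),(23,0),(0,1)]⟩⟩,⟨false,0,⟨0,[]⟩,⟨0,[]⟩⟩,⟨false,0,⟨0,[]⟩,⟨0,[]⟩⟩,[.o ⟨false,
  1,⟨11,[(0,5),(0,5),(1,0),(22,0),(10,3),(9,1),(3,0)]⟩,⟨3,[(2,3),(5,0),(10,0),(7,0),(23,0),(0,1)]⟩⟩,
  .a ⟨true,1,⟨0,[(1,0),(50,0)]⟩,⟨0,[(2,0),(31,0)]⟩⟩ ⟨false,1,⟨1,[(51,0),(0,0)]⟩,⟨0,[(54,0)]⟩⟩ ⟨true,
  1,⟨0,[(0,0)]⟩,⟨0,[(2,0)]⟩⟩,.a ⟨true,0,⟨0,[(21,0)]⟩,⟨1,[(27,0),(6,0),(2,0)]⟩⟩ ⟨true,0,⟨0,[]⟩,⟨0,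
  [(54,0)]⟩⟩ ⟨false,1,⟨0,[(0,0)]⟩,⟨1,[(2,1),(48,0),(0,0)]⟩⟩,.a ⟨true,0,⟨0,[(37,0)]⟩,⟨0,[(34,0)]⟩⟩
  ⟨false,1,⟨1,[(51,0),(0,0)]⟩,⟨1,[(37,0),(0,0)]⟩⟩ ⟨true,1,⟨7,[(0,4),(0,2),(6,0),(10,0),(14,0),(11,
  0),(4,1)]⟩,⟨0,[(2,0)]⟩⟩]⟩) (.I [0,0,-1,0,0,1,-1] (.C [(0,0),(0,0),(0,0),(5,0),(5,0),(14,0),(12,1),
  (10,0),(0,0)]) (.C [(0,0),(28,0),(5,0)]))))))) (.Q [0,0,2,0,0,0,1,0,-1,1,1,-1] (.p false [0,0,-1,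
  0,1] [1] (⟨0,[(8,0)]⟩,⟨0,[(27,0),(7,0)]⟩) .k 1 (⟨0,[]⟩,⟨0,[]⟩) .k (.r 0 ⟨0,[(20,0),(22,0)]⟩ ⟨13,
  [(7,3),(3,9),(1,5),(0,3),(10,1),(20,0),(0,6)]⟩)) (.R ⟨0,false,false,false,[0,0,1],[-1,1,0,0,1],
  [1],(⟨0,[(36,0)]⟩,⟨0,[(35,0)]⟩),(⟨0,[(9,0),(14,0)]⟩,⟨0,[(28,0),(11,0)]⟩),⟨0,[(25,0)]⟩,.k,(.r 0 ⟨8,
  [(0,1),(13,0),(5,3),(2,2),(22,4)]⟩ ⟨1,[(45,1),(1,0),(0,0)]⟩),.k,(.r (-1) ⟨2,[(4,0),(3,0),(3,1),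
  (31,1),(0,0),(2,2)]⟩ ⟨11,[(0,1),(13,0),(5,0),(0,8),(10,2),(9,2),(3,1)]⟩),.k,.k,⟨false,1,⟨1,[(44,
  1),(2,0),(0,0)]⟩,⟨8,[(0,1),(13,0),(5,3),(2,2),(22,4)]⟩⟩,⟨true,0,⟨0,[(4,0)]⟩,⟨0,[(0,0)]⟩⟩,⟨true,0,
  ⟨0,[(21,0),(22,0)]⟩,⟨2,[(5,0),(2,0),(3,1)]⟩⟩,⟨false,0,⟨0,[(7,0),(10,0)]⟩,⟨0,[(1,0),(6,0),(39,
  0)]⟩⟩,⟨false,0,⟨0,[]⟩,⟨0,[]⟩⟩,⟨false,0,⟨0,[]⟩,⟨0,[]⟩⟩,[.o ⟨false,0,⟨0,[(4,0),(15,0)]⟩,⟨5,[(1,3),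
  (12,1),(11,1),(18,1),(1,0),(0,2)]⟩⟩,.o ⟨false,1,⟨7,[(14,3),(1,5),(1,0),(0,0),(23,0),(3,1),(0,3)]⟩,
  ⟨1,[(1,0),(43,0)]⟩⟩,.e ⟨true,0,⟨0,[]⟩,⟨0,[(50,0)]⟩⟩ ⟨true,0,⟨0,[(5,0),(40,0)]⟩,⟨1,[(1,0),(15,0),
  (15,0),(10,0)]⟩⟩,.a ⟨true,0,⟨0,[(33,0)]⟩,⟨0,[(30,0)]⟩⟩ ⟨false,1,⟨1,[(47,0),(0,0)]⟩,⟨1,[(0,0),(4,
  0)]⟩⟩ ⟨true,0,⟨0,[(4,0),(41,0)]⟩,⟨1,[(1,0),(31,1),(11,0)]⟩⟩]⟩) (.Q [0,-1,-1,0,1,0,1,2,0,0,1] (.p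
  true [0,0,1] [] (⟨0,[(36,0)]⟩,⟨0,[(35,0)]⟩) .k 0 (⟨0,[]⟩,⟨0,[]⟩) .k .k) (.R ⟨0,false,false,false,
  [0,0,1],[0,0,2],[1],(⟨0,[(37,0)]⟩,⟨0,[(36,0)]⟩),(⟨0,[(37,1)]⟩,⟨0,[(4,0),(5,0)]⟩),⟨0,[(26,0)]⟩,.k,
  .k,.k,.k,.k,.k,⟨false,0,⟨1,[(1,0),(10,0),(5,1),(3,2),(22,2)]⟩,⟨53,[(0,35),(12,35),(1,21),(8,10),
  (2,7),(7,13),(8,4)]⟩⟩,⟨true,0,⟨0,[(18,0)]⟩,⟨0,[(35,0)]⟩⟩,⟨true,0,⟨0,[(22,0),(22,0)]⟩,⟨2,[(6,0),(2,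
  0),(3,1)]⟩⟩,⟨false,1,⟨3,[(0,1),(26,0),(0,0),(5,1),(14,0)]⟩,⟨0,[(19,0),(26,0)]⟩⟩,⟨false,0,⟨0,[]⟩,
  ⟨0,[]⟩⟩,⟨false,0,⟨0,[]⟩,⟨0,[]⟩⟩,[.o ⟨false,1,⟨12,[(0,8),(6,2),(1,2),(22,1),(1,8),(9,1),(6,0)]⟩,⟨0,
  [(19,1),(26,1)]⟩⟩,.e ⟨false,1,⟨1,[(48,0),(0,0)]⟩,⟨0,[(51,0)]⟩⟩ ⟨false,1,⟨0,[(0,0)]⟩,⟨0,[(22,0),
  (10,0),(11,0)]⟩⟩,.a ⟨true,0,⟨0,[(18,0)]⟩,⟨1,[(24,0),(6,0),(2,0)]⟩⟩ ⟨true,0,⟨0,[]⟩,⟨0,[(51,0)]⟩⟩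
  ⟨false,1,⟨1,[(0,1),(33,0),(0,0)]⟩,⟨1,[(1,0),(10,0),(9,2),(22,0),(0,1)]⟩⟩,.e ⟨false,1,⟨1,[(48,0),
  (0,0)]⟩,⟨1,[(34,0),(0,0)]⟩⟩ ⟨false,1,⟨0,[(0,0)]⟩,⟨0,[(19,0),(2,0),(23,1)]⟩⟩]⟩) (.I [1,-1,0,0,0,0,
  0,-2] (.Q [0,0,1,0,0,0,-2,0,0,0,-2] (.p false [0,0,1] [0,1,-1] (⟨0,[(38,0)]⟩,⟨0,[(37,0)]⟩) .k 2
  (⟨0,[(27,0)]⟩,⟨0,[(38,0),(3,0)]⟩) .k (.r (-1) ⟨2,[(7,1),(2,1),(3,3),(35,2)]⟩ ⟨6,[(0,5),(33,1),(0,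
  1),(8,1)]⟩)) (.R ⟨0,false,false,true,[1,0,-2],[1,0,-1],[0,1],(⟨0,[(6,0),(5,0)]⟩,⟨0,[(39,1)]⟩),(⟨0,
  [(38,0)]⟩,⟨0,[(39,0)]⟩),⟨0,[(27,0),(11,0)]⟩,.k,.k,(.r 0 ⟨0,[(1,0),(45,0)]⟩ ⟨7,[(0,0),(14,9),(1,4),
  (4,5),(0,1),(2,2),(24,7)]⟩),.k,.k,.k,⟨false,1,⟨25,[(3,1),(7,13),(3,11),(2,3),(7,3),(23,8),(0,
  12)]⟩,⟨6,[(1,2),(33,0),(0,0),(8,0)]⟩⟩,⟨true,0,⟨0,[(20,0)]⟩,⟨0,[(37,0)]⟩⟩,⟨false,1,⟨10,[(0,3),(2,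
  1),(7,9),(3,11),(35,10)]⟩,⟨0,[(1,0)]⟩⟩,⟨true,0,⟨0,[(34,0)]⟩,⟨32,[(1,8),(0,3),(0,1),(10,1),(11,9),
  (8,4),(10,1)]⟩⟩,⟨false,0,⟨0,[]⟩,⟨0,[]⟩⟩,⟨false,0,⟨0,[]⟩,⟨0,[]⟩⟩,[.o ⟨false,0,⟨0,[(35,0)]⟩,⟨0,[(9,
  0),(0,0),(40,0)]⟩⟩,.o ⟨false,0,⟨32,[(1,8),(0,3),(0,1),(10,1),(11,9),(8,4),(10,1)]⟩,⟨5,[(11,0),(17,
  0),(4,4),(11,0),(4,2)]⟩⟩,.a ⟨true,0,⟨0,[(26,0)]⟩,⟨0,[(20,1)]⟩⟩ ⟨true,0,⟨0,[(53,0)]⟩,⟨0,[]⟩⟩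
  ⟨false,0,⟨3,[(1,1),(18,2),(15,0),(8,0)]⟩,⟨10,[(0,5),(2,2),(7,3),(3,6),(35,10)]⟩⟩,.o ⟨false,0,⟨0,
  [(0,0)]⟩,⟨4,[(20,8),(15,0),(9,0),(3,2)]⟩⟩]⟩) (.I [0,0,-1,0,0,1,-1] (.C [(0,1),(0,0),(5,1),(5,1),
  (14,1),(12,3),(11,2)]) (.C [(0,0),(27,0),(5,0)]))) (.I [0,0,0,0,0,1,1] (.I [0,0,-1,0,0,1,-1] (.C
  [(0,0),(0,0),(0,0),(0,0),(17,0),(19,1),(10,0)]) (.C [(0,0),(27,0),(5,0)])) (.C [(0,0),(5,0),(5,0),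
  (7,0),(6,0)])))))))

theorem ok77 : chk K t77 r50 = true := by decide +kernel


end Helper25.S1T.Ypp_1aP2
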