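import Pool.Agent.Helper25.S1T.Ypp_1aP2_q

set_option autoImplicit false
set_option linter.all false

namespace Helper25.S1T.Ypp_1aP2

open Helper25.KG Helper25.KW Helper55.KE Helper11.CT

noncomputable def t83 : Tre :=
  (.Q [-1,0,0,0,0,0,-1,0,-1,1,-1,-1] (.p false [0,0,1] [1,0,0,0,-1] (⟨0,[(28,0)]⟩,⟨0,[(27,0)]⟩) .k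
  2 (⟨0,[(20,0)]⟩,⟨0,[(21,0)]⟩) .k (.r (-1) ⟨1,[(4,0),(1,0),(0,0),(15,0),(16,0)]⟩ ⟨0,[(13,0),(22,
  0)]⟩)) (.R ⟨0,false,false,true,[1,0,-1],[0,0,0,0,1],[1,1,1],(⟨0,[(28,0)]⟩,⟨0,[(29,0)]⟩),(⟨0,[(22,
  0)]⟩,⟨0,[(21,0)]⟩),⟨0,[(17,0)]⟩,.k,.k,.k,.k,.k,.k,⟨true,0,⟨1,[(26,0),(0,0)]⟩,⟨0,[]⟩⟩,⟨false,1,⟨9,
  [(7,4),(2,8),(15,0),(9,0),(3,7)]⟩,⟨0,[(0,0)]⟩⟩,⟨true,0,⟨0,[(24,0),(2,0)]⟩,⟨0,[(10,0),(0,0),(25,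
  0)]⟩⟩,⟨false,1,⟨41,[(7,21),(11,1),(4,41),(11,3),(3,10),(0,20)]⟩,⟨0,[(1,0)]⟩⟩,⟨false,0,⟨0,[]⟩,⟨0,
  []⟩⟩,⟨false,0,⟨0,[]⟩,⟨0,[]⟩⟩,[.o ⟨false,0,⟨3,[(7,1),(1,1),(25,0),(1,0),(0,0)]⟩,⟨10,[(3,4),(15,0),
  (16,0),(1,4),(2,7)]⟩⟩,.e ⟨false,0,⟨0,[]⟩,⟨1,[(19,0),(0,0),(19,0)]⟩⟩ ⟨false,1,⟨9,[(7,4),(2,8),(15,
  0),(9,0),(3,7)]⟩,⟨0,[(0,0)]⟩⟩,.a ⟨true,0,⟨1,[(16,0),(6,0),(2,0)]⟩,⟨0,[(10,0)]⟩⟩ ⟨false,0,⟨1,[(26,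
  0),(0,0)]⟩,⟨1,[(40,0),(0,0)]⟩⟩ ⟨true,0,⟨3,[(7,1),(1,0),(0,2),(2,0),(21,0),(1,1)]⟩,⟨0,[(0,0)]⟩⟩,.o
  ⟨false,0,⟨0,[(27,0)]⟩,⟨4,[(10,3),(15,0),(9,0),(3,2)]⟩⟩]⟩) (.I [0,0,-1,1] (.I [0,-1,0,0,0,0,0,-1]
  (.I [1,0,1,0,0,0,0,0,1] (.I [1,0,0,0,0,1,1,0,1] (.I [0,0,-1,0,0,1,-1] (.C [(0,0),(2,0),(1,0),(4,
  0),(12,0),(11,1),(11,0)]) (.C [(0,0),(21,0),(5,0)])) (.C [(0,0),(3,0),(17,0),(2,0)])) (.C [(0,0),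
  (2,0),(20,0),(5,0)])) (.C [(0,0),(1,0),(0,0)])) (.C [(0,0),(0,0),(0,0),(7,0),(13,0),(0,0)])))

theorem ok83 : chk K t83 r45 = true := by decide +kernel

noncomputable def t85 : Tre :=
  (.Q [0,0,0,0,0,0,-1,0,-1,1,-1,-1] (.p false [0,0,1] [1,0,0,0,-1] (⟨0,[(28,0)]⟩,⟨0,[(27,0)]⟩) .k 2
  (⟨0,[(20,0)]⟩,⟨0,[(21,0)]⟩) .k (.r (-1) ⟨1,[(4,0),(1,0),(0,0),(15,0),(16,0)]⟩ ⟨0,[(13,0),(22,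
  0)]⟩)) (.Q [-2,-1,0,0,1,0,1,1,-2,0,1,-2] (.p false [0,0,0,0,1] [0,0,1,0,-1] (⟨0,[(22,0)]⟩,⟨0,[(21,
  0)]⟩) .k 2 (⟨0,[(2,0)]⟩,⟨0,[(22,0),(5,0)]⟩) .k (.r 0 ⟨0,[(14,0),(22,0)]⟩ ⟨127,[(5,123),(1,61),(4,
  3),(3,1),(19,11),(0,3),(2,28),(0,74),(1,17)]⟩)) (.Q [0,-1,0,0,1,0,1,1,0,-1,1] (.p true [0,0,1]
  [1] (⟨0,[(30,0)]⟩,⟨0,[(29,0)]⟩) .k 1 (⟨0,[]⟩,⟨0,[]⟩) .k .k) (.Q [0,0,1,0,0,0,1,0,1,-1,1,1] (.p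
  true [0,0,1] [1,0,0,0,-1] (⟨0,[(31,0)]⟩,⟨0,[(30,0)]⟩) .k 2 (⟨0,[(23,0)]⟩,⟨0,[(24,0)]⟩) .k (.r
  (-1) ⟨21,[(0,7),(6,13),(1,9),(8,3),(2,5),(20,4),(0,2)]⟩ ⟨0,[(16,0),(22,0)]⟩)) (.R ⟨0,false,false,
  true,[0,0,0,0,1],[1,0,-1],[2],(⟨0,[(25,0)]⟩,⟨0,[(24,0)]⟩),(⟨0,[(31,0)]⟩,⟨0,[(32,0)]⟩),⟨0,[(5,0),
  (15,0)]⟩,.k,.k,(.r (-1) ⟨1,[(41,1),(1,0),(0,0)]⟩ ⟨3,[(4,0),(3,0),(1,0),(5,0),(0,0),(24,1)]⟩),.k,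
  .k,.k,⟨false,1,⟨0,[(1,0),(24,0)]⟩,⟨4,[(13,1),(3,1),(10,2),(0,0),(8,0),(1,1)]⟩⟩,⟨true,0,⟨0,[(3,
  0)]⟩,⟨0,[(0,0)]⟩⟩,⟨true,0,⟨0,[]⟩,⟨0,[(46,0)]⟩⟩,⟨false,0,⟨0,[(7,0)]⟩,⟨0,[(1,0),(21,0)]⟩⟩,⟨false,0,
  ⟨0,[]⟩,⟨0,[]⟩⟩,⟨false,0,⟨0,[]⟩,⟨0,[]⟩⟩,[.o ⟨false,0,⟨0,[(28,0)]⟩,⟨0,[(1,0)]⟩⟩,.o ⟨false,0,⟨0,[(14,
  0),(26,0)]⟩,⟨13,[(1,6),(8,1),(11,3),(4,6),(11,0),(3,0)]⟩⟩,.a ⟨true,0,⟨0,[(23,0)]⟩,⟨0,[(3,0),(9,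
  0)]⟩⟩ ⟨true,0,⟨0,[]⟩,⟨0,[(46,0)]⟩⟩ ⟨false,0,⟨0,[(7,0)]⟩,⟨0,[(1,0),(21,0)]⟩⟩,.e ⟨false,1,⟨1,[(43,
  0),(0,0)]⟩,⟨0,[(45,0)]⟩⟩ ⟨false,0,⟨0,[(3,0),(9,0),(0,0),(25,0)]⟩,⟨2,[(1,1),(6,0),(1,1),(18,0),(14,
  0)]⟩⟩]⟩) (.Q [0,0,0,0,0,-1,0,0,0,1,0,-1] (.ed true [0,1,0,0,1] .k) (.K ⟨0,[0,1,0,0,1],0,0,(⟨0,
  [(26,0),(8,0)]⟩,⟨0,[(0,0)]⟩),(.r 0 ⟨3,[(5,0),(3,0),(1,0),(5,0),(0,0),(24,1)]⟩ ⟨1,[(42,1),(1,0),(0,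
  0)]⟩),.k,(.r 0 ⟨1,[(5,0),(3,0),(1,0),(5,0),(0,0),(24,1)]⟩ ⟨0,[(41,1),(3,0)]⟩),(.r 0 ⟨0,[(18,0),
  (28,0)]⟩ ⟨0,[(2,0),(24,0),(14,0)]⟩),.k,[⟨0,[(1,0),(12,1),(6,0),(0,0),(11,1),(11,1)]⟩,⟨0,[(24,0)]⟩,
  ⟨0,[(1,0),(12,0),(6,0),(0,0),(11,1),(6,0),(4,1)]⟩,⟨3,[(9,0),(1,0),(6,0),(5,2),(14,1),(3,2)]⟩]⟩)
  (.I [0,0,0,1,0,0,0,0,1] (.I [0,0,0,0,0,1,1] (.I [0,0,-1,1] (.I [0,0,0,0,0,0,-1,0,1] (.C [(0,0),(1,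
  0),(1,0),(0,0),(12,0),(19,1),(11,0)]) (.C [(0,0),(4,0),(4,0),(4,0)])) (.C [(0,0),(3,1),(9,0),(1,
  0),(0,1)])) (.C [(0,0),(15,0),(7,0)])) (.C [(0,0),(1,0),(4,0),(4,0),(1,0),(0,0),(7,0),(14,0)]))))
  (.I [-2,0,1] (.I [0,0,0,0,0,1,1] (.C [(0,0),(0,0),(19,0),(5,0),(6,1)]) (.C [(0,0),(13,0),(7,0)]))
  (.C [(0,0),(0,0),(0,0),(7,0)]))) (.Q [0,0,1,0,0,0,0,0,1,-1,0,1] (.p true [0,0,0,0,1] [1] (⟨0,[(23,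
  0)]⟩,⟨0,[(22,0)]⟩) .k 1 (⟨0,[]⟩,⟨0,[]⟩) .k .k) (.I [1,-1,0,0,0,0,0,-1] (.R ⟨0,false,false,true,[0,
  0,1],[0,0,1,0,-1],[1],(⟨0,[(32,0)]⟩,⟨0,[(31,0)]⟩),(⟨0,[(5,0)]⟩,⟨0,[(25,0),(5,0)]⟩),⟨0,[(21,0)]⟩,
  .k,.k,.k,.k,.k,.k,⟨true,0,⟨0,[(0,0)]⟩,⟨0,[(1,0),(6,0)]⟩⟩,⟨false,1,⟨31,[(6,9),(15,11),(16,1),(0,9),
  (2,10),(0,4)]⟩,⟨0,[(23,0)]⟩⟩,⟨false,0,⟨0,[(0,0)]⟩,⟨1,[(8,0),(1,0),(0,0),(15,0),(16,0)]⟩⟩,⟨true,0,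
  ⟨0,[(9,0)]⟩,⟨0,[(23,0)]⟩⟩,⟨false,0,⟨0,[]⟩,⟨0,[]⟩⟩,⟨false,0,⟨0,[]⟩,⟨0,[]⟩⟩,[.o ⟨false,1,⟨10,[(6,3),
  (15,2),(4,10),(11,2),(1,3),(2,1)]⟩,⟨5,[(0,3),(0,1),(0,1),(16,0),(0,0),(0,0),(4,1),(6,1),(10,1)]⟩⟩,
  .o ⟨false,1,⟨1,[(6,0),(8,0),(4,1),(0,1),(5,0),(5,3),(6,1),(3,1),(0,1)]⟩,⟨1,[(2,0),(25,0),(15,
  0)]⟩⟩,.a ⟨true,0,⟨0,[(13,0)]⟩,⟨1,[(19,0),(6,0),(2,0)]⟩⟩ ⟨true,0,⟨0,[]⟩,⟨0,[(46,0)]⟩⟩ ⟨false,1,⟨21,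
  [(8,20),(1,0),(0,0),(10,1),(4,0),(11,3),(4,10)]⟩,⟨1,[(0,0),(1,0),(10,0),(30,0)]⟩⟩,.e ⟨false,1,⟨1,
  [(43,0),(0,0)]⟩,⟨2,[(1,0),(2,0),(24,0)]⟩⟩ ⟨false,1,⟨0,[(8,0),(3,0),(27,0),(3,0)]⟩,⟨4,[(0,2),(1,1),
  (1,0),(5,0),(18,2),(14,1)]⟩⟩]⟩) (.Q [0,-1,0,0,1,0,1,1,1,-1,1,1] (.p true [0,0,1] [1,0,0,0,-1] (⟨0,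
  [(32,0)]⟩,⟨0,[(31,0)]⟩) .k 2 (⟨0,[(24,0)]⟩,⟨0,[(25,0)]⟩) .k (.r (-1) ⟨9,[(0,5),(9,1),(8,1),(2,3),
  (4,3),(15,0),(0,4)]⟩ ⟨0,[(17,0),(22,0)]⟩)) (.R ⟨0,false,false,true,[0,0,0,0,1],[1,0,-1],[0,1],(⟨0,
  [(26,0)]⟩,⟨0,[(25,0)]⟩),(⟨0,[(32,0)]⟩,⟨0,[(33,0)]⟩),⟨0,[(6,0),(15,0)]⟩,.k,.k,(.r (-1) ⟨1,[(42,1),
  (1,0),(0,0)]⟩ ⟨3,[(5,0),(3,0),(1,0),(5,0),(0,0),(24,1)]⟩),.k,.k,.k,⟨false,1,⟨3,[(0,1),(0,0),(7,0),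
  (2,0),(14,0),(16,0)]⟩,⟨0,[(18,0),(22,0)]⟩⟩,⟨true,0,⟨0,[(4,0)]⟩,⟨0,[(2,0),(11,0)]⟩⟩,⟨true,0,⟨0,
  [(47,0)]⟩,⟨0,[]⟩⟩,⟨false,0,⟨0,[(8,0)]⟩,⟨0,[(0,0)]⟩⟩,⟨false,0,⟨0,[]⟩,⟨0,[]⟩⟩,⟨false,0,⟨0,[]⟩,⟨0,
  []⟩⟩,[.e ⟨false,0,⟨3,[(3,0),(3,0),(8,0),(24,1),(2,0)]⟩,⟨1,[(23,0),(0,0),(20,0)]⟩⟩ ⟨false,0,⟨6,[(3,
  0),(3,1),(0,4),(6,0),(23,1),(1,2),(2,0)]⟩,⟨0,[(0,0)]⟩⟩,.o ⟨false,0,⟨0,[(15,0),(26,0)]⟩,⟨5,[(0,0),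
  (22,0),(4,4),(11,0),(4,1)]⟩⟩,.a ⟨true,0,⟨0,[(24,0)]⟩,⟨0,[(4,0),(9,0)]⟩⟩ ⟨true,0,⟨0,[(47,0)]⟩,⟨0,
  []⟩⟩ ⟨false,0,⟨0,[(8,0)]⟩,⟨0,[(0,0)]⟩⟩,.o ⟨false,0,⟨0,[(2,0)]⟩,⟨31,[(7,9),(15,11),(16,1),(0,9),(2,
  10),(0,4)]⟩⟩]⟩) (.I [0,0,1,0,0,0,0,0,1] (.I [0,0,0,0,0,1,0,0,1] (.I [0,0,0,0,0,1,1] (.I [0,0,0,0,
  0,0,-1,0,1] (.I [0,0,-1,1] (.I [0,0,-1,0,0,1,-1] (.C [(0,0),(2,0),(2,0),(0,0),(0,0),(11,0),(19,1),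
  (10,0)]) (.C [(0,0),(26,0),(5,0)])) (.C [(0,0),(17,0),(0,0),(12,0)])) (.C [(0,0),(5,0),(3,0),(20,
  0)])) (.C [(0,0),(16,0),(7,0)])) (.C [(0,0),(3,0),(3,0),(7,0),(7,0),(4,0)])) (.C [(0,0),(2,0),(3,
  0),(15,0),(14,0)])))) (.Q [-1,0,1,0,0,0,1,0,-2,0,1,-2] (.p false [0,0,0,0,1] [0,0,1,0,-1] (⟨0,
  [(24,0)]⟩,⟨0,[(23,0)]⟩) .k 2 (⟨0,[(4,0)]⟩,⟨0,[(24,0),(5,0)]⟩) .k (.r 0 ⟨0,[(16,0),(22,0)]⟩ ⟨127,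
  [(7,123),(1,61),(4,3),(3,1),(19,11),(0,3),(2,28),(0,74),(1,17)]⟩)) (.Q [2,0,0,0,0,0,0,0,2,-1,0,2]
  (.p true [0,0,0,0,1] [1,0,0,0,-1] (⟨0,[(25,0)]⟩,⟨0,[(24,0)]⟩) .k 2 (⟨0,[(24,0)]⟩,⟨0,[(25,0)]⟩) .k
  (.r 0 ⟨0,[]⟩ ⟨15,[(10,5),(7,11),(15,5),(1,5),(6,2),(0,0),(1,1)]⟩)) (.R ⟨0,false,false,true,[0,0,0,
  0,1],[1,0,0,0,-1],[1],(⟨0,[(26,0)]⟩,⟨0,[(25,0)]⟩),(⟨0,[(25,0)]⟩,⟨0,[(26,0)]⟩),⟨0,[(6,0),(15,0)]⟩,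
  .k,.k,(.r (-1) ⟨1,[(42,1),(1,0),(0,0)]⟩ ⟨3,[(5,0),(3,0),(1,0),(5,0),(0,0),(24,1)]⟩),.k,.k,.k,
  ⟨false,1,⟨1,[(44,0),(0,0)]⟩,⟨0,[(47,0)]⟩⟩,⟨true,0,⟨1,[(1,0),(0,0),(1,0)]⟩,⟨0,[(11,0)]⟩⟩,⟨false,1,
  ⟨1,[(23,0),(0,0),(20,0)]⟩,⟨0,[]⟩⟩,⟨true,0,⟨0,[(7,0),(34,0)]⟩,⟨0,[(0,0)]⟩⟩,⟨false,0,⟨0,[]⟩,⟨0,[]⟩⟩,
  ⟨false,0,⟨0,[]⟩,⟨0,[]⟩⟩,[.o ⟨false,0,⟨0,[(10,0)]⟩,⟨41,[(11,21),(11,1),(16,3),(3,10),(0,20)]⟩⟩,.a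
  ⟨true,0,⟨4,[(1,0),(0,1),(2,0),(29,1),(1,1)]⟩,⟨0,[(24,0)]⟩⟩ ⟨false,1,⟨1,[(44,0),(0,0)]⟩,⟨0,[(47,
  0)]⟩⟩ ⟨true,0,⟨0,[(1,0),(25,0)]⟩,⟨0,[(11,0)]⟩⟩,.a ⟨true,0,⟨0,[(24,0)]⟩,⟨2,[(2,1),(2,0),(24,0)]⟩⟩
  ⟨true,0,⟨0,[]⟩,⟨0,[(47,0)]⟩⟩ ⟨false,0,⟨0,[(1,0),(25,0)]⟩,⟨1,[(11,1),(32,0),(0,0)]⟩⟩,.a ⟨true,0,⟨2,
  [(11,0),(8,0),(3,0),(5,1)]⟩,⟨0,[(2,0)]⟩⟩ ⟨false,1,⟨1,[(44,0),(0,0)]⟩,⟨5,[(1,0),(3,1),(5,1),(18,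
  0)]⟩⟩ ⟨true,0,⟨0,[(2,0),(7,0)]⟩,⟨0,[(11,0)]⟩⟩]⟩) (.I [-2,0,1] (.I [0,0,0,0,0,1,1] (.C [(0,0),(0,
  0),(21,0),(5,0),(6,1)]) (.C [(0,0),(15,0),(7,0)])) (.C [(0,0),(0,0),(10,0)]))) (.Q [0,0,0,0,0,-1,
  0,0,0,1,0,-1] (.ed true [0,1,0,0,1] .k) (.S ⟨1,1,[],[1,0,0,0,-1],[-1,1],(⟨0,[(25,0)]⟩,⟨0,[(26,
  0)]⟩),⟨0,[(0,0)]⟩,.k,(.r (-1) ⟨1,[(42,1),(1,0),(0,0)]⟩ ⟨3,[(5,0),(3,0),(1,0),(5,0),(0,0),(24,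
  1)]⟩),⟨true,0,⟨0,[(47,0)]⟩,⟨0,[]⟩⟩,⟨false,1,⟨41,[(11,21),(11,1),(16,3),(3,10),(0,20)]⟩,⟨5,[(2,4),
  (2,0),(24,0),(15,2)]⟩⟩,⟨false,0,⟨0,[(43,0)]⟩,⟨0,[(42,0),(2,0)]⟩⟩,⟨true,0,⟨1,[(1,0),(11,0),(3,0)]⟩,
  ⟨2,[(2,1),(2,0),(24,0),(11,2)]⟩⟩,[.fo,.o ⟨false,1,⟨41,[(11,1),(11,3),(16,7),(3,0),(0,20)]⟩,⟨0,
  [(47,0)]⟩⟩,.a ⟨true,0,⟨2,[(2,1),(2,0),(24,0)]⟩,⟨0,[(24,0)]⟩⟩ ⟨true,0,⟨0,[(47,0)]⟩,⟨0,[]⟩⟩ ⟨false,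
  1,⟨41,[(11,21),(11,1),(16,3),(3,10),(0,20)]⟩,⟨2,[(2,1),(2,0),(24,0)]⟩⟩,.o ⟨false,0,⟨0,[(2,0),(18,
  0),(0,0),(11,1),(11,1)]⟩,⟨20,[(11,10),(11,0),(16,1),(3,15)]⟩⟩]⟩) (.I [0,0,0,1,0,0,1] (.I [0,0,0,0,
  0,1,0,0,1] (.I [0,0,-1,1] (.I [0,0,0,0,0,1,1] (.I [1,0,0,0,0,0,-1,0,1] (.I [0,1,1,0,0,0,0,1] (.I
  [0,0,-1,0,0,1,-1] (.I [0,-1,0,1,0,0,0,-1] (.I [0,0,-1,0,0,1,0,0,-1] (.C [(0,1),(4,0),(4,0),(4,1),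
  (15,0),(11,3),(11,2)]) (.C [(0,0),(8,0),(1,0)])) (.C [(0,0),(21,0),(0,0)])) (.C [(0,0),(6,0),(5,
  0),(20,0)])) (.C [(0,0),(33,0),(2,0)])) (.C [(0,1),(5,0),(4,1),(24,0)])) (.C [(0,0),(17,0),(7,
  0)])) (.C [(0,0),(4,1),(8,0),(1,0)])) (.C [(0,0),(3,0),(3,0),(4,0),(10,0)])) (.C [(0,0),(13,0),(0,
  0),(7,0),(14,0)])))))) (.K ⟨0,[1,0,0,0,-1],0,0,(⟨0,[(21,0)]⟩,⟨0,[(22,0)]⟩),.k,(.r (-1) ⟨1,[(38,1),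
  (1,0),(0,0)]⟩ ⟨3,[(1,0),(3,0),(1,0),(5,0),(0,0),(24,1)]⟩),(.r 0 ⟨3,[(1,0),(3,0),(1,0),(5,0),(0,0),
  (24,1)]⟩ ⟨1,[(38,1),(1,0),(0,0)]⟩),.k,.k,[⟨0,[(0,0)]⟩,⟨0,[(1,0),(8,0)]⟩,⟨3,[(7,1),(1,1),(25,0),(1,
  0),(0,0)]⟩,⟨3,[(4,1),(0,1),(4,0),(15,0),(8,0)]⟩]⟩))

theorem ok85 : chk K t85 l52 = true := by decide +kernel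

noncomputable def t86 : Tre :=
  (.Q [1,-1,0,0,0,0,-1,-1,1,0,-1,1] (.p true [1,0,-1,0,1] [1] (⟨0,[(21,0),(5,0)]⟩,⟨0,[(1,0)]⟩) .k 1
  (⟨0,[]⟩,⟨0,[]⟩) .k (.r 0 ⟨1,[(0,0),(2,0),(9,0),(23,0)]⟩ ⟨1,[(4,0),(1,0),(0,0),(15,0),(16,0)]⟩))
  (.R ⟨0,false,false,true,[1,0,-1],[1,0,0,0,-1],[1,1],(⟨0,[(28,0)]⟩,⟨0,[(29,0)]⟩),(⟨0,[(21,0)]⟩,⟨0,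
  [(22,0)]⟩),⟨0,[(17,0)]⟩,.k,.k,.k,.k,.k,.k,⟨true,0,⟨0,[]⟩,⟨0,[(42,0)]⟩⟩,⟨false,1,⟨31,[(3,9),(6,31),
  (8,11),(16,1),(0,9),(2,10),(0,4)]⟩,⟨2,[(1,0),(5,0),(8,1)]⟩⟩,⟨true,0,⟨0,[(1,0),(3,0),(21,0)]⟩,⟨1,
  [(1,0),(2,0),(9,0),(23,0)]⟩⟩,⟨false,1,⟨10,[(3,4),(15,0),(4,10),(11,0),(1,4),(2,7)]⟩,⟨0,[(0,0)]⟩⟩,
  ⟨false,0,⟨0,[]⟩,⟨0,[]⟩⟩,⟨false,0,⟨0,[]⟩,⟨0,[]⟩⟩,[.o ⟨false,0,⟨0,[(6,0)]⟩,⟨41,[(7,21),(11,1),(16,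
  3),(3,10),(0,20)]⟩⟩,.o ⟨false,1,⟨0,[(15,0)]⟩,⟨0,[(1,0),(25,0)]⟩⟩,.a ⟨true,0,⟨1,[(16,0),(6,0),(2,
  0)]⟩,⟨0,[(10,0)]⟩⟩ ⟨false,0,⟨0,[]⟩,⟨1,[(19,0),(0,0),(20,0)]⟩⟩ ⟨true,0,⟨0,[(6,0),(3,0)]⟩,⟨2,[(1,0),
  (5,0),(8,1)]⟩⟩,.o ⟨false,0,⟨0,[(27,0)]⟩,⟨4,[(10,3),(15,0),(9,0),(3,2)]⟩⟩]⟩) (.Q [0,0,1,0,0,0,0,0,
  -1,1,0,-1] (.p false [0,0,0,0,1] [1] (⟨0,[(22,0)]⟩,⟨0,[(21,0)]⟩) .k 1 (⟨0,[]⟩,⟨0,[]⟩) .k .k) (.K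
  ⟨0,[1,0,0,0,-1],0,0,(⟨0,[(22,0)]⟩,⟨0,[(23,0)]⟩),.k,(.r (-1) ⟨1,[(39,1),(1,0),(0,0)]⟩ ⟨4,[(0,1),(7,
  0),(5,1),(2,0),(22,2)]⟩),(.r 0 ⟨4,[(6,1),(1,0),(5,1),(0,1),(1,0),(22,0)]⟩ ⟨1,[(39,1),(1,0),(0,
  0)]⟩),.k,.k,[⟨1,[(2,1),(24,0),(0,0)]⟩,⟨0,[(0,0)]⟩,⟨3,[(8,1),(1,1),(25,0),(1,0),(0,0)]⟩,⟨18,[(0,
  12),(3,2),(6,1),(12,1),(7,0),(1,0),(1,7),(1,2)]⟩]⟩) (.Q [1,0,0,0,0,0,1,1,1,0,1,1] (.p true [0,0,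
  1] [0,1,0,0,-1] (⟨0,[(30,0)]⟩,⟨0,[(29,0)]⟩) .k 2 (⟨0,[(3,0),(15,0)]⟩,⟨0,[(23,0),(10,0)]⟩) (.r 0
  ⟨4,[(6,1),(1,0),(5,1),(0,1),(1,0),(22,0)]⟩ ⟨1,[(39,1),(1,0),(0,0)]⟩) (.r (-1) ⟨1,[(6,0),(1,0),(0,
  0),(15,0),(16,0)]⟩ ⟨1,[(2,0),(2,0),(9,0),(23,0)]⟩)) (.Q [0,0,0,0,0,0,0,0,0,1,-1,-1] (.ed true [0,
  0,1,0,1] (.r (-1) ⟨25,[(0,21),(6,3),(10,10),(2,17),(16,2),(4,1)]⟩ ⟨1,[(3,0),(2,0),(9,0),(23,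
  0)]⟩)) (.R ⟨2,true,false,true,[0,1],[0,0,1,0,1],[2,1,0,0,0,0,0,1],(⟨0,[]⟩,⟨0,[]⟩),(⟨0,[(25,0),(6,
  0)]⟩,⟨0,[(0,0)]⟩),⟨0,[]⟩,.k,.k,.k,(.r 0 ⟨0,[(17,0),(28,0)]⟩ ⟨7,[(1,3),(1,1),(4,1),(10,2),(19,0),
  (0,7),(3,5)]⟩),.k,.k,⟨true,0,⟨0,[]⟩,⟨1,[(29,0),(0,0)]⟩⟩,⟨false,0,⟨0,[(13,0),(9,0)]⟩,⟨0,[(11,0)]⟩⟩,
  ⟨false,1,⟨7,[(1,3),(1,1),(4,1),(10,2),(19,0),(0,7),(3,5)]⟩,⟨0,[(13,0),(0,0),(30,0)]⟩⟩,⟨true,0,⟨0,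
  [(1,0),(39,0)]⟩,⟨0,[(9,0),(4,0)]⟩⟩,⟨true,0,⟨0,[(2,0),(5,0)]⟩,⟨0,[(17,0),(23,0)]⟩⟩,⟨false,0,⟨0,[(1,
  0)]⟩,⟨10,[(7,9),(14,0),(5,0),(10,1),(4,5)]⟩⟩,[]⟩) (.Q [0,0,0,0,0,-1,0,0,0,2,-1,-1] (.p false [-1,
  0,1,0,1] [1] (⟨0,[(0,0)]⟩,⟨0,[(24,0),(6,0)]⟩) .k 1 (⟨0,[]⟩,⟨0,[]⟩) .k (.r (-1) ⟨25,[(1,21),(6,3),
  (10,10),(2,17),(16,2),(4,1)]⟩ ⟨1,[(4,0),(2,0),(9,0),(23,0)]⟩)) (.R ⟨1,true,false,true,[2,0,-1,0,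
  -1],[1,-1,0,0,1],[2,1,-1,-1],(⟨0,[(25,0),(6,0)]⟩,⟨0,[(1,0)]⟩),(⟨0,[(26,0),(10,0)]⟩,⟨0,[(6,0),(15,
  0)]⟩),⟨0,[(0,0)]⟩,.k,(.r (-1) ⟨1,[(42,1),(1,0),(0,0)]⟩ ⟨4,[(9,1),(1,0),(5,1),(0,1),(1,0),(22,
  0)]⟩),(.r (-1) ⟨1,[(5,0),(2,0),(9,0),(23,2),(1,0),(0,0)]⟩ ⟨1,[(2,1),(4,0),(5,0),(17,1)]⟩),(.r 0
  ⟨0,[(18,0),(28,0)]⟩ ⟨7,[(2,3),(1,1),(4,1),(10,2),(19,0),(0,7),(3,5)]⟩),.k,.k,⟨true,0,⟨0,[]⟩,⟨1,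
  [(30,0),(0,0)]⟩⟩,⟨false,0,⟨2,[(5,1),(5,0),(12,1),(5,0)]⟩,⟨2,[(7,0),(0,0),(0,0),(2,1),(28,0),(3,
  0)]⟩⟩,⟨false,1,⟨7,[(2,3),(1,1),(4,1),(10,2),(19,0),(0,7),(3,5)]⟩,⟨0,[(14,0),(0,0),(30,0)]⟩⟩,⟨true,
  0,⟨0,[(2,0),(2,0),(25,0),(10,0)]⟩,⟨1,[(7,0),(0,0),(1,0),(4,0)]⟩⟩,⟨true,0,⟨0,[(3,0),(5,0)]⟩,⟨0,[(3,
  0),(4,0),(5,0),(31,1)]⟩⟩,⟨false,0,⟨0,[(2,0),(2,0),(25,0)]⟩,⟨10,[(7,4),(0,10),(14,0),(16,0),(1,4),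
  (2,7)]⟩⟩,[]⟩) (.I [-1,0,-1,0,0,0,0,-1] (.I [0,0,-1,0,0,0,0,0,1] (.I [0,0,0,0,0,1,1] (.C [(0,1),(2,
  0),(5,0),(20,1),(6,2),(11,1)]) (.C [(0,0),(16,0),(7,0)])) (.C [(0,0),(4,0),(2,0),(15,0),(14,0)]))
  (.C [(0,0),(3,0),(4,0),(5,0)])))) (.Q [0,0,0,0,0,0,0,0,0,1,-2] (.ed true [0,0,2] (.r (-1) ⟨2,[(1,
  1),(0,1),(15,1),(7,3),(2,1),(13,2)]⟩ ⟨0,[(3,0),(2,0),(9,0),(23,0)]⟩)) (.Q [0,-1,-1,0,1,0,1,2,0,0,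
  1] (.p true [0,0,1] [] (⟨0,[(32,0)]⟩,⟨0,[(31,0)]⟩) .k 0 (⟨0,[]⟩,⟨0,[]⟩) .k .k) (.R ⟨0,false,false,
  false,[0,0,1],[0,0,2],[1],(⟨0,[(33,0)]⟩,⟨0,[(32,0)]⟩),(⟨0,[(33,1)]⟩,⟨0,[(1,0)]⟩),⟨0,[(22,0)]⟩,.k,
  .k,.k,.k,.k,.k,⟨false,0,⟨1,[(5,2),(2,2),(9,0),(23,0)]⟩,⟨53,[(0,35),(8,35),(1,21),(8,10),(2,7),(7,
  13),(8,4)]⟩⟩,⟨true,0,⟨0,[(14,0)]⟩,⟨0,[(31,0)]⟩⟩,⟨true,0,⟨1,[(5,0),(2,0),(9,0),(23,0)]⟩,⟨2,[(3,0),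
  (0,0),(15,0),(7,1),(2,0)]⟩⟩,⟨false,1,⟨3,[(0,1),(22,0),(0,0),(5,1),(14,0)]⟩,⟨2,[(2,0),(0,0),(4,1),
  (2,0)]⟩⟩,⟨false,0,⟨0,[]⟩,⟨0,[]⟩⟩,⟨false,0,⟨0,[]⟩,⟨0,[]⟩⟩,[.o ⟨false,1,⟨17,[(0,11),(3,4),(0,0),(5,
  1),(16,6),(1,10),(9,2)]⟩,⟨2,[(2,1),(0,1),(4,3),(2,1)]⟩⟩,.e ⟨false,1,⟨1,[(44,0),(0,0)]⟩,⟨0,[(47,
  0)]⟩⟩ ⟨false,1,⟨0,[(0,0)]⟩,⟨1,[(5,0),(2,0),(9,0),(10,1),(12,0)]⟩⟩,.a ⟨true,0,⟨0,[(14,0)]⟩,⟨1,[(20,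
  0),(6,0),(2,0)]⟩⟩ ⟨true,0,⟨0,[]⟩,⟨0,[(47,0)]⟩⟩ ⟨false,1,⟨1,[(0,1),(29,0),(0,0)]⟩,⟨3,[(2,1),(2,2),
  (2,4),(2,1),(6,0),(23,0)]⟩⟩,.e ⟨false,1,⟨1,[(44,0),(0,0)]⟩,⟨1,[(30,0),(0,0)]⟩⟩ ⟨false,1,⟨0,[(0,
  0)]⟩,⟨3,[(2,1),(2,0),(2,2),(2,1),(6,2),(23,2)]⟩⟩]⟩) (.I [1,-1,0,0,0,0,0,-2] (.Q [0,0,1,0,0,0,-2,0,
  0,0,-2] (.p false [0,0,1] [0,1,-1] (⟨0,[(34,0)]⟩,⟨0,[(33,0)]⟩) .k 2 (⟨0,[(23,0)]⟩,⟨0,[(34,0),(3,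
  0)]⟩) .k (.r (-1) ⟨2,[(4,1),(0,1),(15,1),(7,3),(2,1),(13,2)]⟩ ⟨6,[(0,5),(29,1),(0,1),(8,1)]⟩))
  (.R ⟨0,false,false,true,[1,0,-2],[1,0,-1],[0,1],(⟨0,[(3,0)]⟩,⟨0,[(35,1)]⟩),(⟨0,[(34,0)]⟩,⟨0,[(35,
  0)]⟩),⟨0,[(23,0),(11,0)]⟩,.k,.k,(.r 0 ⟨0,[(1,0),(41,0)]⟩ ⟨7,[(0,0),(10,9),(1,4),(4,5),(0,1),(2,2),
  (24,7)]⟩),.k,.k,.k,⟨false,1,⟨5,[(22,0),(6,3),(0,5),(11,0),(3,0),(0,2)]⟩,⟨6,[(1,2),(29,0),(0,0),(8,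
  0)]⟩⟩,⟨true,0,⟨0,[(16,0)]⟩,⟨0,[(33,0)]⟩⟩,⟨false,1,⟨2,[(0,1),(4,1),(5,1),(18,3),(16,2)]⟩,⟨0,[(1,
  0)]⟩⟩,⟨true,0,⟨0,[(30,0)]⟩,⟨11,[(1,2),(0,2),(19,3),(6,0),(12,0),(3,0)]⟩⟩,⟨false,0,⟨0,[]⟩,⟨0,[]⟩⟩,
  ⟨false,0,⟨0,[]⟩,⟨0,[]⟩⟩,[.o ⟨false,0,⟨0,[(31,0)]⟩,⟨2,[(0,1),(5,2),(0,2),(24,0),(14,2)]⟩⟩,.o
  ⟨false,0,⟨11,[(1,2),(0,2),(19,3),(6,0),(12,0),(3,0)]⟩,⟨41,[(13,1),(11,3),(4,41),(11,7),(3,0),(0,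
  20)]⟩⟩,.a ⟨true,0,⟨0,[(22,0)]⟩,⟨0,[(16,1)]⟩⟩ ⟨true,0,⟨0,[(49,0)]⟩,⟨0,[]⟩⟩ ⟨false,0,⟨3,[(1,1),(14,
  2),(15,0),(8,0)]⟩,⟨2,[(0,1),(4,1),(5,1),(18,0),(16,2)]⟩⟩,.o ⟨false,0,⟨0,[(0,0)]⟩,⟨4,[(16,8),(15,
  0),(9,0),(3,2)]⟩⟩]⟩) (.I [-2,0,-1,1,0,0,0,0,-1] (.I [-2,1,0,0,0,0,0,0,-2] (.I [0,0,-1,0,0,1,-1]
  (.C [(0,1),(2,0),(2,1),(19,1),(12,3),(11,2)]) (.C [(0,0),(25,0),(5,0)])) (.C [(0,0),(5,0),(1,0),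
  (21,1)])) (.C [(0,0),(5,0),(3,0),(18,0)]))) (.I [-1,0,0,0,0,0,0,-1,-1] (.I [0,0,0,0,0,1,1] (.I [0,
  0,-1,0,0,0,1,0,1] (.I [0,0,-1,0,0,1,-1] (.C [(0,0),(1,0),(1,0),(0,0),(13,0),(19,1),(10,0)]) (.C
  [(0,0),(25,0),(5,0)])) (.C [(0,0),(4,0),(1,0),(2,0),(7,0)])) (.C [(0,0),(3,0),(12,0),(6,0)])) (.C
  [(0,0),(3,0),(11,0),(11,0)])))) (.Q [0,-1,0,0,1,0,2,2,0,-1,2] (.p true [0,0,1] [1,0,-1] (⟨0,[(32,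
  0)]⟩,⟨0,[(31,0)]⟩) .k 2 (⟨0,[(31,0)]⟩,⟨0,[(32,0)]⟩) .k (.r (-1) ⟨2,[(2,1),(0,1),(15,1),(7,3),(2,
  1),(13,2)]⟩ ⟨0,[(4,0),(2,0),(9,0),(23,0)]⟩)) (.Q [0,0,1,0,0,0,2,0,0,-1,2] (.p true [0,0,1] [1,0,
  -1] (⟨0,[(33,0)]⟩,⟨0,[(32,0)]⟩) .k 2 (⟨0,[(32,0)]⟩,⟨0,[(33,0)]⟩) .k (.r (-1) ⟨2,[(0,1),(8,0),(1,
  0),(0,0),(7,1),(7,0)]⟩ ⟨0,[(5,0),(2,0),(9,0),(23,0)]⟩)) (.R ⟨0,false,false,true,[0,0,1],[1,0,-1],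
  [1],(⟨0,[(34,0)]⟩,⟨0,[(33,0)]⟩),(⟨0,[(33,0)]⟩,⟨0,[(34,0)]⟩),⟨0,[(23,0)]⟩,.k,.k,.k,.k,.k,.k,⟨false,
  1,⟨11,[(1,5),(19,0),(6,9),(12,0),(3,0),(0,2)]⟩,⟨0,[(15,0),(14,0)]⟩⟩,⟨true,0,⟨0,[(21,0)]⟩,⟨0,[(0,
  0)]⟩⟩,⟨true,0,⟨1,[(6,0),(2,0),(9,0),(23,0)]⟩,⟨2,[(4,0),(0,0),(15,0),(7,1),(2,0)]⟩⟩,⟨false,0,⟨3,
  [(4,0),(1,0),(2,7),(2,2),(15,0)]⟩,⟨0,[(1,0)]⟩⟩,⟨false,0,⟨0,[]⟩,⟨0,[]⟩⟩,⟨false,0,⟨0,[]⟩,⟨0,[]⟩⟩,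
  [.o ⟨false,0,⟨0,[(30,0)]⟩,⟨83,[(1,41),(10,1),(11,3),(16,7),(3,0),(0,20)]⟩⟩,.o ⟨false,0,⟨2,[(3,0),
  (0,0),(4,1),(2,0)]⟩,⟨14,[(1,6),(10,2),(11,5),(4,0),(10,2),(0,0)]⟩⟩,.a ⟨true,0,⟨0,[(15,0)]⟩,⟨1,
  [(21,0),(6,0),(2,0)]⟩⟩ ⟨true,0,⟨0,[]⟩,⟨0,[(48,0)]⟩⟩ ⟨false,0,⟨4,[(4,0),(4,4),(2,1),(8,1),(6,0)]⟩,
  ⟨3,[(0,1),(0,1),(43,0),(0,0)]⟩⟩,.e ⟨false,1,⟨1,[(45,0),(0,0)]⟩,⟨1,[(31,0),(0,0)]⟩⟩ ⟨false,0,⟨4,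
  [(4,2),(4,4),(2,0),(8,0),(6,2)]⟩,⟨23,[(0,0),(0,11),(10,0),(11,1),(6,21),(9,1),(4,5)]⟩⟩]⟩) (.I [-1,
  0,0,0,0,0,0,-1,-1] (.I [0,0,0,0,0,1,1] (.C [(0,1),(1,0),(1,0),(32,1),(11,0)]) (.C [(0,0),(16,0),
  (7,0)])) (.C [(0,0),(3,0),(11,0),(11,0)]))) (.Q [0,0,1,0,0,0,2,0,0,-1,2] (.p true [0,0,1] [1,0,
  -1] (⟨0,[(33,0)]⟩,⟨0,[(32,0)]⟩) .k 2 (⟨0,[(32,0)]⟩,⟨0,[(33,0)]⟩) .k (.r (-1) ⟨2,[(3,1),(0,1),(15,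
  1),(7,3),(2,1),(13,2)]⟩ ⟨18,[(0,9),(4,17),(2,17),(21,19),(9,1),(3,0),(0,4)]⟩)) (.R ⟨0,false,false,
  true,[0,0,1],[1,0,-1],[1,1],(⟨0,[(34,0)]⟩,⟨0,[(33,0)]⟩),(⟨0,[(33,0)]⟩,⟨0,[(34,0)]⟩),⟨0,[(23,0)]⟩,
  .k,.k,.k,.k,.k,.k,⟨false,1,⟨5,[(21,0),(6,3),(0,5),(11,0),(3,0),(0,2)]⟩,⟨3,[(0,1),(0,1),(43,0),(0,
  0)]⟩⟩,⟨true,0,⟨0,[(21,0)]⟩,⟨0,[(0,0)]⟩⟩,⟨false,0,⟨3,[(0,1),(0,1),(43,0),(0,0)]⟩,⟨2,[(4,0),(0,0),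
  (15,0),(7,1),(2,0),(13,2)]⟩⟩,⟨true,(-1),⟨0,[(1,0)]⟩,⟨1,[(4,0),(0,2),(6,0),(16,0),(16,1)]⟩⟩,⟨false,
  0,⟨0,[]⟩,⟨0,[]⟩⟩,⟨false,0,⟨0,[]⟩,⟨0,[]⟩⟩,[.o ⟨false,0,⟨0,[(30,0)]⟩,⟨5,[(0,0),(3,3),(0,5),(6,0),
  (19,1),(13,5)]⟩⟩,.o ⟨false,0,⟨10,[(1,4),(28,0),(10,0),(4,2)]⟩,⟨41,[(12,1),(11,3),(4,41),(11,7),(3,
  0),(0,20)]⟩⟩,.e ⟨false,0,⟨0,[]⟩,⟨1,[(24,0),(0,0),(20,0)]⟩⟩ ⟨false,0,⟨3,[(1,1),(19,1),(2,0),(0,0),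
  (20,0)]⟩,⟨1,[(0,0),(3,0),(0,0),(23,0),(16,1)]⟩⟩,.a ⟨true,0,⟨0,[(31,0)]⟩,⟨0,[(28,0)]⟩⟩ ⟨true,0,⟨6,
  [(4,0),(1,0),(1,0),(19,0),(11,2),(1,0)]⟩,⟨1,[(31,0),(0,0)]⟩⟩ ⟨false,0,⟨11,[(1,5),(19,0),(6,9),(12,
  0),(3,0),(0,2)]⟩,⟨1,[(0,0),(4,1),(6,0),(33,1)]⟩⟩]⟩) (.I [-1,0,0,0,0,0,0,-1,-1] (.I [0,0,0,0,0,1,
  1] (.C [(0,1),(1,0),(1,0),(32,1),(11,0)]) (.C [(0,0),(16,0),(7,0)])) (.C [(0,0),(3,0),(11,0),(11,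
  0)]))))))))

theorem ok86 : chk K t86 r52 = true := by decide +kernel

noncomputable def t89 : Tre :=
  (.Q [1,-1,0,0,0,0,-1,-1,1,0,-1,1] (.p false [0,0,1] [0,0,0,0,1] (⟨0,[(26,0)]⟩,⟨0,[(25,0)]⟩) .k 2
  (⟨0,[(19,0)]⟩,⟨0,[(18,0)]⟩) .k (.r (-1) ⟨1,[(2,0),(1,0),(0,0),(15,0),(16,0)]⟩ ⟨0,[(11,0),(22,
  0)]⟩)) (.R ⟨0,false,false,true,[1,0,-1],[1,0,0,0,-1],[1,1],(⟨0,[(26,0)]⟩,⟨0,[(27,0)]⟩),(⟨0,[(19,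
  0)]⟩,⟨0,[(20,0)]⟩),⟨0,[(15,0)]⟩,.k,.k,.k,.k,.k,.k,⟨true,0,⟨0,[]⟩,⟨0,[(40,0)]⟩⟩,⟨false,1,⟨1,[(4,1),
  (3,1),(29,0),(0,0)]⟩,⟨3,[(1,0),(3,0),(1,0),(6,0),(6,1),(18,0)]⟩⟩,⟨true,0,⟨1,[(1,0),(1,1),(3,0)]⟩,
  ⟨0,[(12,0),(22,0)]⟩⟩,⟨false,1,⟨5,[(3,4),(4,4),(8,0),(4,0),(11,0),(4,2)]⟩,⟨0,[(0,0)]⟩⟩,⟨false,0,⟨0,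
  []⟩,⟨0,[]⟩⟩,⟨false,0,⟨0,[]⟩,⟨0,[]⟩⟩,[.o ⟨false,0,⟨0,[(4,0)]⟩,⟨41,[(5,21),(11,1),(16,3),(3,10),(0,
  20)]⟩⟩,.o ⟨false,1,⟨0,[(13,0)]⟩,⟨1,[(1,0),(5,0)]⟩⟩,.a ⟨true,0,⟨1,[(14,0),(6,0),(2,0)]⟩,⟨0,[(8,
  0)]⟩⟩ ⟨false,0,⟨0,[]⟩,⟨1,[(17,0),(0,0),(20,0)]⟩⟩ ⟨true,0,⟨0,[(4,0),(3,0)]⟩,⟨5,[(1,0),(3,1),(1,0),
  (6,1),(6,1)]⟩⟩,.o ⟨false,0,⟨0,[(25,0)]⟩,⟨4,[(8,3),(15,0),(9,0),(3,2)]⟩⟩]⟩) (.Q [0,0,1,0,0,0,0,0,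
  -1,1,0,-1] (.p false [0,0,0,0,1] [1] (⟨0,[(20,0)]⟩,⟨0,[(19,0)]⟩) .k 1 (⟨0,[]⟩,⟨0,[]⟩) .k .k) (.Q
  [0,0,0,0,0,0,1,0,1,-1,1,1] (.p true [0,0,1] [1,0,0,0,-1] (⟨0,[(28,0)]⟩,⟨0,[(27,0)]⟩) .k 2 (⟨0,
  [(20,0)]⟩,⟨0,[(21,0)]⟩) .k (.r (-1) ⟨1,[(4,0),(1,0),(0,0),(15,0),(16,0)]⟩ ⟨0,[(13,0),(22,0)]⟩))
  (.K ⟨0,[1,0,0,0,-1],0,0,(⟨0,[(21,0)]⟩,⟨0,[(22,0)]⟩),.k,(.r (-1) ⟨1,[(38,1),(1,0),(0,0)]⟩ ⟨4,[(1,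
  1),(5,0),(5,1),(2,0),(22,2)]⟩),(.r 0 ⟨5,[(1,1),(5,0),(5,1),(2,0),(22,3),(2,0)]⟩ ⟨1,[(38,1),(1,0),
  (0,0)]⟩),.k,.k,[⟨0,[(0,0)]⟩,⟨0,[(1,0)]⟩,⟨1,[(3,0),(8,0),(12,0)]⟩,⟨2,[(1,0),(2,0),(0,0),(4,0),(24,
  0)]⟩]⟩) (.I [1,0,0,0,0,0,0,0,1] (.I [0,0,0,0,0,1,1] (.I [0,0,0,1,0,-1] (.I [-1,0,0,1,0,0,0,0,-1]
  (.I [0,0,-1,1] (.I [0,0,0,0,0,1,-1,0,-1] (.I [1,1,0,-1,0,0,0,1] (.C [(0,0),(16,0),(0,0)]) (.C [(0,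
  0),(6,0),(1,0),(0,0)])) (.C [(0,0),(5,0),(16,0),(4,0)])) (.C [(0,0),(6,1),(0,0),(6,0),(0,1),(11,
  0)])) (.C [(0,0),(5,0),(8,0),(10,0)])) (.C [(0,0),(4,1),(0,0),(7,1),(21,0)])) (.C [(0,0),(11,0),
  (7,0)])) (.C [(0,0),(2,0),(0,0),(7,0),(9,0)]))) (.I [0,0,1,1,-1,0,0,-3] (.Q [0,0,0,0,0,0,0,0,0,-1,
  2] (.ed false [0,0,2] (.r (-1) ⟨2,[(2,1),(0,1),(1,1),(6,1),(3,1),(24,2)]⟩ ⟨2,[(0,1),(37,1),(1,0),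
  (0,0)]⟩)) (.Q [0,1,0,-1,1,0,4,4,0,-2,4] (.p true [-1,0,2] [1,1,-2] (⟨0,[(0,0)]⟩,⟨0,[(29,1)]⟩) .k
  2 (⟨0,[(19,0),(9,0)]⟩,⟨0,[(0,0),(33,0)]⟩) (.x (-1) ⟨6,[(0,6),(7,0),(0,1),(7,5),(16,6),(2,0),(3,
  2)]⟩ ⟨0,[(11,1),(7,1),(11,0),(11,0)]⟩) (.x (-1) ⟨2,[(1,1),(0,1),(0,5),(0,1),(6,5),(7,2),(9,8),(1,
  2),(5,0),(4,2)]⟩ ⟨0,[(0,1),(16,1)]⟩)) (.Q [0,0,-1,0,0,0,-4,0,0,2,-4] (.p false [-1,0,2] [1,1,-2]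
  (⟨0,[(1,0)]⟩,⟨0,[(30,1)]⟩) .k 2 (⟨0,[(20,0),(9,0)]⟩,⟨0,[(1,0),(33,0)]⟩) (.r 0 ⟨4,[(2,1),(13,2),(4,
  1),(0,1),(4,0),(0,0),(8,0)]⟩ ⟨3,[(0,1),(17,2),(0,0),(0,0),(4,1),(6,1),(6,1),(3,1)]⟩) (.x (-1)
  ⟨182,[(0,177),(1,243),(0,19),(0,19),(15,260),(9,470),(1,260),(5,18),(0,65),(2,78),(0,131)]⟩ ⟨0,
  [(1,1),(16,1)]⟩)) (.Q [0,0,1,0,0,0,2,0,0,-1,2] (.p true [0,0,1] [1,0,-1] (⟨0,[(32,0)]⟩,⟨0,[(31,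
  0)]⟩) .k 2 (⟨0,[(31,0)]⟩,⟨0,[(32,0)]⟩) .k (.r (-1) ⟨3,[(0,1),(0,1),(6,0),(1,0),(6,0),(4,0),(19,0),
  (1,0)]⟩ ⟨2,[(3,1),(37,1),(1,0),(0,0)]⟩)) (.R ⟨0,false,false,false,[-1,0,2],[1,1,-2],[0,0,0,-1,0,0,
  0,2],(⟨0,[(3,0)]⟩,⟨0,[(32,1)]⟩),(⟨0,[(22,0),(9,0)]⟩,⟨0,[(3,0),(33,0)]⟩),⟨0,[(22,0),(9,0)]⟩,.k,(.r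
  0 ⟨19,[(1,0),(2,9),(6,1),(6,9),(4,9),(0,5),(5,3),(8,4)]⟩ ⟨1,[(1,0),(0,0),(38,0),(3,0)]⟩),(.r (-1)
  ⟨1,[(1,0),(0,0),(38,0),(3,0)]⟩ ⟨19,[(1,0),(2,9),(6,1),(6,9),(4,9),(0,5),(5,3),(8,4)]⟩),(.r (-2)
  ⟨1,[(1,1),(0,1),(20,0),(0,0),(20,0)]⟩ ⟨5,[(4,7),(37,1),(1,0),(0,0)]⟩),.k,.k,⟨false,2,⟨0,[(1,0),(0,
  0),(38,0),(3,0)]⟩,⟨4,[(4,5),(13,1),(20,0),(3,1),(0,0)]⟩⟩,⟨true,0,⟨0,[(1,0)]⟩,⟨0,[(0,1)]⟩⟩,⟨false,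
  1,⟨0,[(42,0),(2,0)]⟩,⟨0,[(43,0)]⟩⟩,⟨true,(-1),⟨16,[(1,14),(2,19),(2,2),(0,7),(2,0),(32,2)]⟩,⟨0,
  [(2,0)]⟩⟩,⟨false,0,⟨0,[]⟩,⟨0,[]⟩⟩,⟨false,0,⟨0,[]⟩,⟨0,[]⟩⟩,[.o ⟨false,0,⟨0,[(15,0),(13,0)]⟩,⟨1,[(2,
  0),(39,0),(2,0)]⟩⟩,.o ⟨false,0,⟨20,[(1,2),(2,3),(0,0),(1,3),(0,8),(6,20),(24,1)]⟩,⟨1,[(2,0),(20,
  0),(0,0),(17,0)]⟩⟩,.o ⟨false,1,⟨20,[(0,20),(10,0),(11,1),(16,3),(3,10)]⟩,⟨0,[(20,0)]⟩⟩,.a ⟨true,0,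
  ⟨0,[(0,0)]⟩,⟨2,[(1,0),(25,3),(2,1)]⟩⟩ ⟨true,1,⟨1,[(1,0),(0,0),(38,0),(3,0)]⟩,⟨8,[(1,0),(2,8),(1,
  1),(0,2),(1,3),(6,2),(14,0)]⟩⟩ ⟨false,0,⟨11,[(1,9),(2,5),(10,3),(2,1),(8,3),(16,2),(0,2)]⟩,⟨1,[(0,
  1),(1,0),(39,0),(2,0)]⟩⟩]⟩) (.I [-1,0,0,1,0,0,0,0,-1] (.I [0,0,-1,0,0,0,0,0,1] (.I [0,0,0,0,0,1,
  1] (.C [(0,1),(2,0),(2,0),(30,1),(11,0)]) (.C [(0,0),(16,0),(7,0)])) (.C [(0,0),(6,0),(19,0)]))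
  (.C [(0,0),(6,0),(8,0),(10,0)]))) (.I [0,0,0,0,0,0,-1] (.C [(0,1),(0,0),(20,1),(4,1),(6,1),(11,
  0)]) (.C [(0,1),(2,0),(23,0),(3,0)]))) (.Q [0,0,1,0,0,0,2,0,0,-1,2] (.p true [0,0,1] [1,0,-1] (⟨0,
  [(31,0)]⟩,⟨0,[(30,0)]⟩) .k 2 (⟨0,[(30,0)]⟩,⟨0,[(31,0)]⟩) .k (.r (-1) ⟨2,[(4,1),(0,1),(1,1),(6,1),
  (3,1),(24,2)]⟩ ⟨2,[(2,1),(37,1),(1,0),(0,0)]⟩)) (.R ⟨0,false,false,true,[0,0,1],[1,0,-1],[1,1],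
  (⟨0,[(32,0)]⟩,⟨0,[(31,0)]⟩),(⟨0,[(31,0)]⟩,⟨0,[(32,0)]⟩),⟨0,[(21,0)]⟩,.k,.k,.k,.k,.k,.k,⟨false,1,
  ⟨5,[(19,0),(6,3),(0,5),(11,0),(3,0),(0,2)]⟩,⟨5,[(3,1),(37,1),(1,0),(0,0)]⟩⟩,⟨true,0,⟨0,[(19,0)]⟩,
  ⟨0,[(0,0)]⟩⟩,⟨false,0,⟨5,[(3,1),(37,1),(1,0),(0,0)]⟩,⟨2,[(5,0),(0,0),(1,0),(6,0),(3,0),(24,2)]⟩⟩,
  ⟨true,(-1),⟨0,[(1,0),(3,1),(0,0)]⟩,⟨1,[(5,1),(0,0),(8,0),(11,0),(16,1)]⟩⟩,⟨false,0,⟨0,[]⟩,⟨0,[]⟩⟩,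
  ⟨false,0,⟨0,[]⟩,⟨0,[]⟩⟩,[.o ⟨false,0,⟨0,[(28,0)]⟩,⟨1,[(5,1),(0,0),(5,0),(31,1)]⟩⟩,.o ⟨false,0,⟨32,
  [(1,7),(4,0),(15,1),(5,0),(10,2),(1,6)]⟩,⟨41,[(10,1),(11,3),(4,41),(11,7),(3,0),(0,20)]⟩⟩,.e
  ⟨false,0,⟨0,[]⟩,⟨1,[(22,0),(0,0),(20,0)]⟩⟩ ⟨false,0,⟨3,[(1,0),(17,1),(2,0),(0,0),(17,0)]⟩,⟨1,[(0,
  0),(3,0),(0,0),(21,0),(16,1)]⟩⟩,.a ⟨true,0,⟨0,[(29,0)]⟩,⟨0,[(26,0)]⟩⟩ ⟨true,0,⟨11,[(3,0),(0,2),(0,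
  2),(20,2),(11,3),(1,0),(2,0)]⟩,⟨1,[(29,0),(0,0)]⟩⟩ ⟨false,0,⟨59,[(1,14),(4,5),(4,11),(7,6),(6,33),
  (11,2),(0,0),(0,8),(2,0)]⟩,⟨1,[(0,0),(4,1),(4,0),(33,1)]⟩⟩]⟩) (.I [-1,0,0,1,0,0,0,0,-1] (.I [0,0,
  0,0,0,1,1] (.C [(0,1),(1,0),(1,0),(30,1),(11,0)]) (.C [(0,0),(14,0),(7,0)])) (.C [(0,0),(5,0),(8,
  0),(10,0)])))) (.Q [0,-1,-1,0,1,0,1,2,0,0,1] (.p true [0,0,1] [] (⟨0,[(30,0)]⟩,⟨0,[(29,0)]⟩) .k 0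
  (⟨0,[]⟩,⟨0,[]⟩) .k .k) (.R ⟨0,false,false,false,[0,0,1],[0,0,2],[1],(⟨0,[(31,0)]⟩,⟨0,[(30,0)]⟩),
  (⟨0,[(31,1)]⟩,⟨0,[(1,0)]⟩),⟨0,[(20,0)]⟩,.k,.k,.k,.k,.k,.k,⟨false,0,⟨3,[(0,0),(1,2),(0,0),(2,0),
  (32,2),(2,0),(0,0)]⟩,⟨53,[(0,35),(6,35),(1,21),(8,10),(2,7),(7,13),(8,4)]⟩⟩,⟨true,0,⟨0,[(12,0)]⟩,
  ⟨0,[(29,0)]⟩⟩,⟨true,0,⟨5,[(2,1),(37,1),(1,0),(0,0)]⟩,⟨2,[(4,0),(0,0),(1,0),(6,0),(3,0)]⟩⟩,⟨false,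
  1,⟨3,[(0,1),(20,0),(0,0),(5,1),(14,0)]⟩,⟨11,[(2,1),(0,1),(1,1),(0,5),(11,2),(19,0)]⟩⟩,⟨false,0,⟨0,
  []⟩,⟨0,[]⟩⟩,⟨false,0,⟨0,[]⟩,⟨0,[]⟩⟩,[.o ⟨false,1,⟨35,[(0,23),(2,1),(0,7),(0,0),(3,1),(5,0),(10,
  15),(1,22),(9,5)]⟩,⟨5,[(2,1),(0,1),(1,1),(0,5),(11,2),(19,0)]⟩⟩,.e ⟨false,1,⟨1,[(42,0),(0,0)]⟩,⟨0,
  [(45,0)]⟩⟩ ⟨false,1,⟨0,[(0,0)]⟩,⟨5,[(2,1),(2,0),(0,0),(14,0),(5,4),(12,0),(1,0)]⟩⟩,.a ⟨true,0,⟨0,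
  [(12,0)]⟩,⟨1,[(18,0),(6,0),(2,0)]⟩⟩ ⟨true,0,⟨0,[]⟩,⟨0,[(45,0)]⟩⟩ ⟨false,1,⟨1,[(0,1),(27,0),(0,
  0)]⟩,⟨1,[(2,0),(2,0),(0,0),(3,0)]⟩⟩,.e ⟨false,1,⟨1,[(42,0),(0,0)]⟩,⟨1,[(28,0),(0,0)]⟩⟩ ⟨false,1,
  ⟨0,[(0,0)]⟩,⟨1,[(2,0),(2,0),(0,0),(14,0),(7,0)]⟩⟩]⟩) (.I [1,-1,0,0,0,0,0,-2] (.Q [0,0,1,0,0,0,-2,
  0,0,0,-2] (.p false [0,0,1] [0,1,-1] (⟨0,[(32,0)]⟩,⟨0,[(31,0)]⟩) .k 2 (⟨0,[(21,0)]⟩,⟨0,[(32,0),(3,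
  0)]⟩) .k (.r (-1) ⟨2,[(5,1),(0,1),(1,1),(6,1),(3,1),(24,2)]⟩ ⟨6,[(0,5),(27,1),(0,1),(8,1)]⟩)) (.R
  ⟨0,false,false,true,[1,0,-2],[1,0,-1],[0,1],(⟨0,[(3,0)]⟩,⟨0,[(33,1)]⟩),(⟨0,[(32,0)]⟩,⟨0,[(33,
  0)]⟩),⟨0,[(21,0),(11,0)]⟩,.k,.k,(.r 0 ⟨0,[(1,0),(39,0)]⟩ ⟨7,[(0,0),(8,9),(1,4),(4,5),(0,1),(2,2),
  (24,7)]⟩),.k,.k,.k,⟨false,1,⟨5,[(20,0),(6,3),(0,5),(11,0),(3,0),(0,2)]⟩,⟨6,[(1,2),(27,0),(0,0),(8,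
  0)]⟩⟩,⟨true,0,⟨0,[(14,0)]⟩,⟨0,[(31,0)]⟩⟩,⟨false,1,⟨6,[(0,1),(4,1),(1,3),(1,9),(6,3),(28,6)]⟩,⟨0,
  [(1,0)]⟩⟩,⟨true,0,⟨0,[(28,0)]⟩,⟨11,[(1,2),(0,2),(17,3),(6,0),(12,0),(3,0)]⟩⟩,⟨false,0,⟨0,[]⟩,⟨0,
  []⟩⟩,⟨false,0,⟨0,[]⟩,⟨0,[]⟩⟩,[.o ⟨false,0,⟨0,[(29,0)]⟩,⟨1,[(6,1),(0,0),(5,0),(31,1)]⟩⟩,.o ⟨false,
  0,⟨11,[(1,2),(0,2),(17,3),(6,0),(12,0),(3,0)]⟩,⟨41,[(11,1),(11,3),(4,41),(11,7),(3,0),(0,20)]⟩⟩,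
  .a ⟨true,0,⟨0,[(20,0)]⟩,⟨0,[(14,1)]⟩⟩ ⟨true,0,⟨0,[(47,0)]⟩,⟨0,[]⟩⟩ ⟨false,0,⟨3,[(1,1),(12,2),(15,
  0),(8,0)]⟩,⟨6,[(0,3),(4,3),(1,0),(1,5),(6,0),(28,6)]⟩⟩,.o ⟨false,0,⟨0,[(0,0)]⟩,⟨4,[(14,8),(15,0),
  (9,0),(3,2)]⟩⟩]⟩) (.I [0,0,-1,0,0,0,0,0,1] (.I [-1,0,0,1,0,0,0,0,-1] (.I [0,0,-1,0,0,1,-1] (.C
  [(0,1),(2,0),(2,1),(17,1),(12,3),(11,2)]) (.C [(0,0),(23,0),(5,0)])) (.C [(0,0),(7,0),(8,0),(10,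
  0)])) (.C [(0,0),(5,0),(19,0)]))) (.I [0,0,-1,0,0,0,0,0,1] (.I [0,0,0,0,0,1,1] (.I [-1,0,0,1,0,0,
  0,0,-1] (.I [0,0,-1,0,0,1,-1] (.C [(0,0),(1,0),(1,0),(0,0),(11,0),(19,1),(10,0)]) (.C [(0,0),(23,
  0),(5,0)])) (.C [(0,0),(7,0),(8,0),(10,0)])) (.C [(0,0),(3,0),(10,0),(6,0)])) (.C [(0,0),(4,0),
  (19,0)]))))) (.Q [0,0,0,0,0,0,0,0,0,-1,2] (.ed false [0,0,2] (.r (-1) ⟨2,[(0,1),(4,0),(1,0),(6,0),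
  (4,0),(19,0)]⟩ ⟨0,[(14,1),(22,1)]⟩)) (.Q [0,-1,0,0,1,0,2,2,0,-1,2] (.p true [0,0,1] [1,0,-1] (⟨0,
  [(30,0)]⟩,⟨0,[(29,0)]⟩) .k 2 (⟨0,[(29,0)]⟩,⟨0,[(30,0)]⟩) .k (.r (-1) ⟨2,[(1,1),(4,0),(1,0),(6,0),
  (4,0),(19,0)]⟩ ⟨0,[(15,1),(22,1)]⟩)) (.Q [0,0,1,0,0,0,2,0,0,-1,2] (.p true [0,0,1] [1,0,-1] (⟨0,
  [(31,0)]⟩,⟨0,[(30,0)]⟩) .k 2 (⟨0,[(30,0)]⟩,⟨0,[(31,0)]⟩) .k (.r (-1) ⟨2,[(0,0),(1,0),(4,0),(1,0),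
  (8,0),(2,0),(19,0)]⟩ ⟨0,[(16,1),(22,1)]⟩)) (.R ⟨0,false,false,true,[0,0,1],[1,0,-1],[1],(⟨0,[(32,
  0)]⟩,⟨0,[(31,0)]⟩),(⟨0,[(31,0)]⟩,⟨0,[(32,0)]⟩),⟨0,[(21,0)]⟩,.k,.k,.k,.k,.k,.k,⟨false,1,⟨3,[(1,0),
  (1,0),(10,0),(11,0),(16,0),(0,0)]⟩,⟨0,[(13,0),(14,0)]⟩⟩,⟨true,0,⟨0,[(19,0)]⟩,⟨0,[(0,0)]⟩⟩,⟨true,0,
  ⟨0,[(17,0),(22,0)]⟩,⟨2,[(5,0),(0,0),(1,0),(6,0),(3,0)]⟩⟩,⟨false,0,⟨1,[(6,0),(0,1),(9,0),(8,0),(1,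
  0)]⟩,⟨0,[(1,0)]⟩⟩,⟨false,0,⟨0,[]⟩,⟨0,[]⟩⟩,⟨false,0,⟨0,[]⟩,⟨0,[]⟩⟩,[.o ⟨false,0,⟨0,[(28,0)]⟩,⟨83,
  [(1,41),(8,1),(11,3),(16,7),(3,0),(0,20)]⟩⟩,.o ⟨false,0,⟨0,[(14,0),(26,0)]⟩,⟨14,[(1,6),(8,2),(11,
  5),(4,0),(10,2),(0,0)]⟩⟩,.a ⟨true,0,⟨0,[(13,0)]⟩,⟨1,[(19,0),(6,0),(2,0)]⟩⟩ ⟨true,0,⟨0,[]⟩,⟨0,[(46,
  0)]⟩⟩ ⟨false,0,⟨3,[(6,0),(0,1),(9,0),(1,1),(6,0),(1,0)]⟩,⟨3,[(0,1),(0,1),(41,0),(0,0)]⟩⟩,.e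
  ⟨false,1,⟨1,[(43,0),(0,0)]⟩,⟨1,[(29,0),(0,0)]⟩⟩ ⟨false,0,⟨5,[(4,1),(1,0),(0,3),(6,0),(4,0),(6,3),
  (1,0)]⟩,⟨23,[(0,0),(0,11),(8,0),(11,1),(6,21),(9,1),(4,5)]⟩⟩]⟩) (.I [0,0,0,0,0,1,1] (.C [(0,1),(0,
  0),(1,0),(30,1),(11,0)]) (.C [(0,0),(13,0),(7,0)]))) (.I [-1,0,0,1,0,0,0,0,-1] (.I [0,0,0,0,0,1,
  1] (.C [(0,1),(1,0),(0,0),(0,0),(9,0),(0,0),(18,1),(11,0)]) (.C [(0,0),(13,0),(7,0)])) (.C [(0,0),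
  (4,0),(8,0),(10,0)]))) (.Q [0,0,1,0,0,0,-2,0,0,0,-2] (.p false [0,0,1] [0,1,-1] (⟨0,[(30,0)]⟩,⟨0,
  [(29,0)]⟩) .k 2 (⟨0,[(19,0)]⟩,⟨0,[(30,0),(3,0)]⟩) .k (.r (-1) ⟨2,[(1,1),(4,0),(1,0),(6,0),(4,0),
  (19,0)]⟩ ⟨0,[(15,1),(22,1)]⟩)) (.R ⟨0,false,false,true,[1,0,-2],[1,0,-1],[1],(⟨0,[(1,0)]⟩,⟨0,[(31,
  1)]⟩),(⟨0,[(30,0)]⟩,⟨0,[(31,0)]⟩),⟨0,[(19,0),(11,0)]⟩,.k,.k,(.x 0 ⟨0,[(0,0),(30,1),(1,0)]⟩ ⟨45,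
  [(1,45),(1,19),(0,9),(1,9),(5,91),(19,11),(2,33),(2,13),(3,12),(0,4)]⟩),.k,.k,.k,⟨false,1,⟨9,[(2,
  1),(0,1),(0,1),(9,1),(10,3),(16,0),(0,6)]⟩,⟨0,[(12,0),(14,0)]⟩⟩,⟨true,0,⟨0,[(12,0)]⟩,⟨0,[(29,
  0)]⟩⟩,⟨false,1,⟨0,[(2,0),(13,0)]⟩,⟨0,[(16,1),(22,1)]⟩⟩,⟨true,0,⟨0,[(26,0)]⟩,⟨0,[(13,0),(26,0)]⟩⟩,
  ⟨false,0,⟨0,[]⟩,⟨0,[]⟩⟩,⟨false,0,⟨0,[]⟩,⟨0,[]⟩⟩,[.o ⟨false,0,⟨0,[(27,0)]⟩,⟨35,[(2,3),(0,7),(0,23),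
  (0,7),(9,11),(3,2),(0,2),(11,5),(5,0),(4,29)]⟩⟩,.o ⟨false,0,⟨0,[(13,0),(26,0)]⟩,⟨41,[(9,1),(11,3),
  (4,41),(11,7),(3,0),(0,20)]⟩⟩,.a ⟨true,0,⟨0,[(18,0)]⟩,⟨0,[(12,1)]⟩⟩ ⟨true,0,⟨0,[]⟩,⟨0,[(45,0)]⟩⟩
  ⟨false,0,⟨0,[(12,0),(3,0),(22,0)]⟩,⟨59,[(0,16),(1,19),(6,2),(8,12),(2,5),(16,1),(2,19),(1,29)]⟩⟩,
  .o ⟨false,0,⟨0,[(0,0)]⟩,⟨4,[(12,8),(15,0),(9,0),(3,2)]⟩⟩]⟩) (.I [-1,0,0,1,0,0,0,0,-1] (.I [0,0,-1,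
  0,0,0,0,0,1] (.I [0,0,-1,0,0,1,-1] (.C [(0,1),(2,0),(0,1),(17,1),(12,3),(11,2)]) (.C [(0,0),(21,
  0),(5,0)])) (.C [(0,0),(4,0),(19,0)])) (.C [(0,0),(4,0),(8,0),(10,0)])))))))

theorem ok89 : chk K t89 r43 = true := by decide +kernel

noncomputable def t93 : Tre :=
  (.Q [-1,1,0,1,0,0,0,0,-1,0,0,-1] (.p false [0,0,0,0,1] [] (⟨0,[(16,0)]⟩,⟨0,[(15,0)]⟩) .k 0 (⟨0,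
  []⟩,⟨0,[]⟩) .k .k) (.R ⟨2,true,false,false,[0,1],[0,0,0,0,1],[1,0,1],(⟨0,[]⟩,⟨0,[]⟩),(⟨0,[(17,
  0)]⟩,⟨0,[(16,0)]⟩),⟨0,[]⟩,.k,.k,.k,(.r 0 ⟨4,[(8,1),(2,1),(9,1),(12,2),(2,0)]⟩ ⟨1,[(33,1),(1,0),(0,
  0)]⟩),.k,.k,⟨true,0,⟨1,[(21,0),(0,0)]⟩,⟨0,[]⟩⟩,⟨false,0,⟨0,[(15,0)]⟩,⟨0,[(3,0),(1,0)]⟩⟩,⟨false,1,
  ⟨0,[(33,0),(2,0)]⟩,⟨0,[(34,0)]⟩⟩,⟨true,0,⟨0,[(1,0),(31,0)]⟩,⟨0,[(0,0)]⟩⟩,⟨true,0,⟨0,[]⟩,⟨0,[(38,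
  0)]⟩⟩,⟨false,0,⟨0,[(1,0)]⟩,⟨0,[(10,0)]⟩⟩,[]⟩) (.Q [-1,1,0,0,0,0,-1,-1,-1,1,-1,-1] (.p false [0,0,
  1] [1,0,0,0,-1] (⟨0,[(24,0)]⟩,⟨0,[(23,0)]⟩) .k 2 (⟨0,[(16,0)]⟩,⟨0,[(17,0)]⟩) .k (.r (-1) ⟨27,[(2,
  5),(0,5),(7,10),(2,5),(4,27),(11,0),(4,13)]⟩ ⟨0,[(9,0),(22,0)]⟩)) (.R ⟨0,false,false,false,[1,0,
  -1],[0,0,0,0,1],[2],(⟨0,[(24,0)]⟩,⟨0,[(25,0)]⟩),(⟨0,[(18,0)]⟩,⟨0,[(17,0)]⟩),⟨0,[(13,0)]⟩,.k,.k,.k,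
  .k,.k,.k,⟨true,0,⟨0,[]⟩,⟨1,[(22,0),(0,0)]⟩⟩,⟨false,0,⟨0,[(2,0),(2,0),(0,0),(26,0)]⟩,⟨1,[(12,0),(2,
  1),(3,0),(2,0)]⟩⟩,⟨false,1,⟨1,[(12,0),(0,0),(0,0),(5,1),(5,1),(10,1)]⟩,⟨0,[(10,0),(22,0)]⟩⟩,⟨true,
  0,⟨0,[(1,0),(6,0)]⟩,⟨0,[(0,0)]⟩⟩,⟨false,0,⟨0,[]⟩,⟨0,[]⟩⟩,⟨false,0,⟨0,[]⟩,⟨0,[]⟩⟩,[.o ⟨false,0,⟨2,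
  [(1,0),(1,0),(1,1),(27,0)]⟩,⟨0,[(11,0)]⟩⟩,.o ⟨false,0,⟨0,[(1,0),(3,0)]⟩,⟨0,[(15,0),(23,0)]⟩⟩,.a
  ⟨true,0,⟨1,[(12,0),(6,0),(2,0)]⟩,⟨0,[(6,0)]⟩⟩ ⟨true,0,⟨0,[]⟩,⟨0,[(39,0)]⟩⟩ ⟨false,0,⟨0,[(1,0),(3,
  0),(0,0)]⟩,⟨1,[(12,0),(2,1),(11,0),(1,0)]⟩⟩,.o ⟨false,0,⟨0,[(23,0)]⟩,⟨4,[(6,3),(15,0),(9,0),(3,
  2)]⟩⟩]⟩) (.Q [1,0,0,0,-1,0,-1,-1,1,0,-1,1] (.p false [0,0,1] [0,0,0,0,1] (⟨0,[(25,0)]⟩,⟨0,[(24,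
  0)]⟩) .k 2 (⟨0,[(18,0)]⟩,⟨0,[(17,0)]⟩) .k (.r (-1) ⟨51,[(3,5),(7,11),(0,25),(7,51),(11,3),(3,2),
  (0,28),(1,5)]⟩ ⟨0,[(10,0),(22,0)]⟩)) (.Q [-1,-1,0,0,1,0,-1,-1,-1,1,-1,-1] (.p false [0,0,1] [1,0,
  0,0,-1] (⟨0,[(26,0)]⟩,⟨0,[(25,0)]⟩) .k 2 (⟨0,[(18,0)]⟩,⟨0,[(19,0)]⟩) .k (.r (-1) ⟨27,[(4,5),(0,5),
  (7,10),(2,5),(4,27),(11,0),(4,13)]⟩ ⟨0,[(11,0),(22,0)]⟩)) (.Q [1,1,0,0,-1,0,0,0,1,-1,0,1] (.p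
  true [0,0,0,0,1] [1] (⟨0,[(20,0)]⟩,⟨0,[(19,0)]⟩) .k 1 (⟨0,[]⟩,⟨0,[]⟩) .k .k) (.R ⟨0,false,false,
  true,[1,0,-1],[0,0,0,0,1],[0,1,1],(⟨0,[(27,0)]⟩,⟨0,[(28,0)]⟩),(⟨0,[(21,0)]⟩,⟨0,[(20,0)]⟩),⟨0,[(16,
  0)]⟩,.k,.k,.k,.k,.k,.k,⟨true,0,⟨0,[(41,0)]⟩,⟨0,[]⟩⟩,⟨false,0,⟨120,[(0,49),(1,18),(0,49),(2,0),(2,
  89),(3,30),(21,3),(0,30),(2,60)]⟩,⟨1,[(1,0),(13,0),(2,0),(4,0)]⟩⟩,⟨true,0,⟨0,[(23,0),(2,0)]⟩,⟨0,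
  [(9,0),(0,0),(25,0)]⟩⟩,⟨false,0,⟨35,[(0,1),(2,23),(2,4),(16,11),(10,4),(0,0)]⟩,⟨0,[(1,0)]⟩⟩,
  ⟨false,0,⟨0,[]⟩,⟨0,[]⟩⟩,⟨false,0,⟨0,[]⟩,⟨0,[]⟩⟩,[.o ⟨false,(-1),⟨0,[(0,0)]⟩,⟨9,[(1,1),(4,1),(7,1),
  (3,9),(4,1),(15,0),(0,4)]⟩⟩,.o ⟨false,0,⟨58,[(0,8),(1,8),(0,8),(2,15),(28,4),(3,7)]⟩,⟨0,[(14,
  0)]⟩⟩,.a ⟨true,0,⟨1,[(15,0),(6,0),(2,0)]⟩,⟨0,[(9,0)]⟩⟩ ⟨false,0,⟨1,[(25,0),(0,0)]⟩,⟨1,[(39,0),(0,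
  0)]⟩⟩ ⟨true,(-1),⟨0,[(0,0),(8,0)]⟩,⟨1,[(1,0),(12,0),(0,0),(7,0)]⟩⟩,.o ⟨false,0,⟨0,[(26,0)]⟩,⟨4,
  [(9,3),(15,0),(9,0),(3,2)]⟩⟩]⟩) (.R ⟨2,true,false,true,[0,1],[0,0,0,0,1],[1,1,1],(⟨0,[]⟩,⟨0,[]⟩),
  (⟨0,[(21,0)]⟩,⟨0,[(20,0)]⟩),⟨0,[]⟩,.k,.k,.k,(.r 0 ⟨4,[(12,1),(2,1),(9,1),(12,2),(2,0)]⟩ ⟨1,[(37,
  1),(1,0),(0,0)]⟩),.k,.k,⟨true,0,⟨1,[(25,0),(0,0)]⟩,⟨0,[]⟩⟩,⟨false,0,⟨0,[(19,0)]⟩,⟨0,[(7,0),(1,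
  0)]⟩⟩,⟨true,0,⟨0,[(37,0)]⟩,⟨0,[(38,0)]⟩⟩,⟨false,0,⟨1,[(4,0),(14,0),(17,0)]⟩,⟨0,[(0,0),(7,0)]⟩⟩,
  ⟨false,0,⟨0,[]⟩,⟨37,[(0,19),(5,9),(28,1),(3,4),(0,8)]⟩⟩,⟨true,(-1),⟨0,[(2,0),(20,0)]⟩,⟨0,[(14,
  0)]⟩⟩,[]⟩)) (.Q [1,1,0,-1,-1,0,0,0,1,0,0,1] (.p true [0,0,0,0,1] [] (⟨0,[(20,0)]⟩,⟨0,[(19,0)]⟩)
  .k 0 (⟨0,[]⟩,⟨0,[]⟩) .k .k) (.Q [0,0,0,0,0,1,0,0,0,0,0,-1] (.ed true [1,-1,0,0,1] .k) (.Q [0,0,2,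
  0,-1,0,1,0,1,0,1,1] (.p true [0,0,1] [0,1,0,0,-1] (⟨0,[(29,0)]⟩,⟨0,[(28,0)]⟩) .k 2 (⟨0,[(0,0)]⟩,
  ⟨0,[(22,0),(10,0)]⟩) (.r 0 ⟨4,[(13,1),(2,1),(9,1),(12,2),(2,0)]⟩ ⟨1,[(38,1),(1,0),(0,0)]⟩) (.r
  (-1) ⟨27,[(7,5),(0,5),(7,10),(2,5),(4,27),(11,0),(4,13)]⟩ ⟨0,[(14,0),(22,0)]⟩)) (.R ⟨0,false,
  false,false,[0,0,1],[0,1,0,0,-1],[0,0,1],(⟨0,[(30,0)]⟩,⟨0,[(29,0)]⟩),(⟨0,[(1,0)]⟩,⟨0,[(23,0),(10,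
  0)]⟩),⟨0,[(19,0)]⟩,.k,(.r 0 ⟨4,[(14,1),(2,1),(9,1),(12,2),(2,0)]⟩ ⟨1,[(39,1),(1,0),(0,0)]⟩),.k,
  (.r (-1) ⟨0,[(6,0),(2,0),(15,0)]⟩ ⟨0,[(15,0),(28,0)]⟩),.k,.k,⟨false,1,⟨1,[(39,1),(1,0),(0,0)]⟩,⟨0,
  [(40,0)]⟩⟩,⟨true,1,⟨0,[(9,0)]⟩,⟨0,[(0,0)]⟩⟩,⟨true,0,⟨0,[(15,0),(23,0)]⟩,⟨1,[(3,0),(5,0),(14,0),(0,
  0)]⟩⟩,⟨false,1,⟨0,[(9,0),(5,0)]⟩,⟨0,[(6,0),(18,0)]⟩⟩,⟨false,0,⟨0,[]⟩,⟨0,[]⟩⟩,⟨false,0,⟨0,[]⟩,⟨0,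
  []⟩⟩,[.o ⟨false,1,⟨0,[(10,0),(5,0)]⟩,⟨1,[(6,0),(14,0),(17,0)]⟩⟩,.o ⟨false,2,⟨41,[(8,1),(11,45),
  (16,7),(2,41),(0,0),(0,20)]⟩,⟨0,[(2,0)]⟩⟩,.e ⟨true,0,⟨1,[(27,0),(0,0)]⟩,⟨2,[(10,0),(0,0),(12,0),
  (11,0),(1,0)]⟩⟩ ⟨true,1,⟨1,[(9,0),(4,0),(1,0),(0,0),(22,0)]⟩,⟨0,[(2,0),(8,0)]⟩⟩,.a ⟨true,0,⟨0,
  [(27,0)]⟩,⟨0,[(24,0)]⟩⟩ ⟨false,1,⟨1,[(20,0),(0,0),(20,0)]⟩,⟨0,[]⟩⟩ ⟨true,1,⟨0,[(9,0),(30,0)]⟩,⟨0,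
  [(2,0),(24,0)]⟩⟩]⟩) (.Q [0,0,-1,0,1,0,0,0,-1,-1,0,-1] (.p false [1,-1,0,0,1] [] (⟨0,[(23,0),(10,
  0)]⟩,⟨0,[(1,0)]⟩) (.r (-1) ⟨1,[(39,1),(1,0),(0,0)]⟩ ⟨4,[(14,1),(2,1),(9,1),(12,2),(2,0)]⟩) 0 (⟨0,
  []⟩,⟨0,[]⟩) .k .k) (.Q [0,0,1,0,0,0,2,0,0,-1,2] (.p true [0,0,1] [1,0,-1] (⟨0,[(31,0)]⟩,⟨0,[(30,
  0)]⟩) .k 2 (⟨0,[(30,0)]⟩,⟨0,[(31,0)]⟩) .k (.r (-1) ⟨1,[(6,0),(3,0),(7,0),(7,2),(2,0),(13,0)]⟩ ⟨0,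
  [(16,1),(22,1)]⟩)) (.Q [0,-1,0,0,1,0,2,2,0,-1,2] (.p true [0,0,1] [1,0,-1] (⟨0,[(32,0)]⟩,⟨0,[(31,
  0)]⟩) .k 2 (⟨0,[(31,0)]⟩,⟨0,[(32,0)]⟩) .k (.r (-1) ⟨1,[(7,0),(3,0),(7,0),(7,2),(2,0),(13,0)]⟩ ⟨0,
  [(17,1),(22,1)]⟩)) (.R ⟨0,false,false,true,[0,0,1],[1,0,-1],[1],(⟨0,[(33,0)]⟩,⟨0,[(32,0)]⟩),(⟨0,
  [(32,0)]⟩,⟨0,[(33,0)]⟩),⟨0,[(22,0)]⟩,.k,.k,.k,.k,.k,.k,⟨false,1,⟨13,[(0,5),(2,1),(4,1),(11,3),(6,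
  3),(16,2),(0,2)]⟩,⟨0,[(14,0),(14,0)]⟩⟩,⟨true,0,⟨0,[(20,0)]⟩,⟨0,[(1,0)]⟩⟩,⟨true,0,⟨0,[(18,0),(22,
  0)]⟩,⟨6,[(6,1),(5,1),(7,1),(7,4),(2,0),(14,0)]⟩⟩,⟨false,0,⟨1,[(7,0),(4,0),(5,2),(8,1),(14,2)]⟩,⟨0,
  [(0,0)]⟩⟩,⟨false,0,⟨0,[]⟩,⟨0,[]⟩⟩,⟨false,0,⟨0,[]⟩,⟨0,[]⟩⟩,[.o ⟨false,0,⟨0,[(29,0)]⟩,⟨83,[(0,41),
  (10,1),(11,3),(16,7),(3,0),(0,20)]⟩⟩,.o ⟨false,0,⟨1,[(7,0),(4,0),(5,0),(23,0)]⟩,⟨14,[(0,6),(10,2),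
  (11,5),(4,0),(10,2),(0,0)]⟩⟩,.a ⟨true,0,⟨0,[(14,0)]⟩,⟨1,[(20,0),(6,0),(2,0)]⟩⟩ ⟨true,0,⟨0,[]⟩,⟨0,
  [(47,0)]⟩⟩ ⟨false,0,⟨3,[(7,0),(4,0),(5,2),(1,1),(6,1),(14,2)]⟩,⟨3,[(0,1),(0,1),(42,0),(0,0)]⟩⟩,.e
  ⟨false,1,⟨1,[(44,0),(0,0)]⟩,⟨1,[(30,0),(0,0)]⟩⟩ ⟨false,0,⟨1,[(7,0),(4,0),(5,0),(8,1),(14,0)]⟩,⟨23,
  [(0,11),(0,0),(9,0),(11,1),(6,21),(9,1),(4,5)]⟩⟩]⟩) (.R ⟨0,false,false,true,[0,0,1],[1,0,-1],[1,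
  1],(⟨0,[(33,0)]⟩,⟨0,[(32,0)]⟩),(⟨0,[(32,0)]⟩,⟨0,[(33,0)]⟩),⟨0,[(22,0)]⟩,.k,.k,.k,.k,.k,.k,⟨false,
  1,⟨21,[(8,3),(3,3),(7,8),(7,17),(11,0),(3,8),(0,6)]⟩,⟨3,[(0,1),(0,1),(42,0),(0,0)]⟩⟩,⟨true,0,⟨0,
  [(20,0)]⟩,⟨0,[(1,0)]⟩⟩,⟨false,0,⟨3,[(0,1),(0,1),(42,0),(0,0)]⟩,⟨3,[(8,0),(3,0),(7,0),(7,2),(2,0),
  (13,2)]⟩⟩,⟨true,(-1),⟨0,[(0,0)]⟩,⟨0,[(8,0),(10,0),(8,0)]⟩⟩,⟨false,0,⟨0,[]⟩,⟨0,[]⟩⟩,⟨false,0,⟨0,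
  []⟩,⟨0,[]⟩⟩,[.o ⟨false,0,⟨0,[(29,0)]⟩,⟨0,[(8,0),(10,0)]⟩⟩,.o ⟨false,0,⟨10,[(0,4),(28,0),(10,0),(4,
  2)]⟩,⟨41,[(11,1),(11,3),(4,41),(11,7),(3,0),(0,20)]⟩⟩,.e ⟨false,0,⟨0,[]⟩,⟨1,[(23,0),(0,0),(20,
  0)]⟩⟩ ⟨false,0,⟨3,[(0,1),(19,1),(2,0),(0,0),(20,0)]⟩,⟨2,[(1,0),(0,0),(5,0),(5,0),(13,1),(16,1)]⟩⟩,
  .a ⟨true,0,⟨0,[(30,0)]⟩,⟨0,[(27,0)]⟩⟩ ⟨true,0,⟨10,[(0,0),(2,1),(2,1),(7,2),(12,0),(11,3),(4,0)]⟩,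
  ⟨1,[(30,0),(0,0)]⟩⟩ ⟨false,0,⟨13,[(0,5),(2,1),(3,1),(12,3),(6,3),(16,2),(0,2)]⟩,⟨3,[(1,0),(6,2),
  (14,2),(4,0),(1,1),(14,0),(0,0)]⟩⟩]⟩)) (.Q [1,0,0,-1,-1,0,-1,-1,1,1,-1,1] (.p false [0,0,1] [1,-1,
  0,0,1] (⟨0,[(32,0)]⟩,⟨0,[(31,0)]⟩) .k 2 (⟨0,[(25,0),(10,0)]⟩,⟨0,[(3,0)]⟩) (.r (-1) ⟨1,[(41,1),(1,
  0),(0,0)]⟩ ⟨4,[(16,1),(2,1),(9,1),(12,2),(2,0)]⟩) (.r (-1) ⟨51,[(10,5),(7,11),(0,25),(7,51),(11,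
  3),(3,2),(0,28),(1,5)]⟩ ⟨0,[(17,0),(22,0)]⟩)) (.Q [0,0,2,0,-1,0,0,0,1,1,0,1] (.p true [1,-1,0,0,
  1] [] (⟨0,[(26,0),(10,0)]⟩,⟨0,[(4,0)]⟩) (.r (-1) ⟨1,[(42,1),(1,0),(0,0)]⟩ ⟨4,[(17,1),(2,1),(9,1),
  (12,2),(2,0)]⟩) 0 (⟨0,[]⟩,⟨0,[]⟩) .k .k) (.K ⟨0,[1,-1,0,0,1],(-1),(-1),(⟨0,[(27,0),(10,0)]⟩,⟨0,
  [(5,0)]⟩),(.r (-1) ⟨1,[(43,1),(1,0),(0,0)]⟩ ⟨8,[(0,1),(17,3),(1,1),(0,1),(22,4),(2,0)]⟩),(.r (-1)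
  ⟨0,[(42,1),(3,0)]⟩ ⟨1,[(0,0),(17,1),(2,0),(2,0),(19,1)]⟩),.k,(.r 0 ⟨0,[(1,0),(1,0),(11,0)]⟩ ⟨7,
  [(0,2),(11,1),(4,4),(2,0),(0,3),(2,5),(4,2),(14,2),(1,3)]⟩),.k,[⟨0,[(3,0),(11,0)]⟩,⟨0,[(0,0)]⟩,⟨3,
  [(13,2),(3,0),(0,2),(5,0),(5,0),(17,1)]⟩,⟨0,[(1,0),(27,0)]⟩]⟩) (.Q [0,0,0,0,0,0,0,0,0,1,-2] (.ed
  true [0,0,2] (.r (-1) ⟨1,[(9,0),(3,0),(7,0),(7,2),(2,0),(13,0)]⟩ ⟨2,[(1,1),(1,1),(11,3),(3,1),(10,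
  1)]⟩)) (.R ⟨0,false,false,true,[0,0,1],[0,0,2],[1,1],(⟨0,[(35,0)]⟩,⟨0,[(34,0)]⟩),(⟨0,[(35,1)]⟩,⟨0,
  [(0,0)]⟩),⟨0,[(24,0)]⟩,.k,.k,.k,.k,.k,.k,⟨false,0,⟨4,[(1,3),(0,3),(13,5),(3,3),(10,1),(9,0)]⟩,⟨1,
  [(10,0),(3,0),(7,0),(7,2),(2,0),(13,0)]⟩⟩,⟨true,0,⟨0,[(16,0)]⟩,⟨0,[(33,0)]⟩⟩,⟨false,0,⟨2,[(2,0),
  (1,0),(11,1),(3,0),(10,0)]⟩,⟨3,[(10,0),(3,0),(7,0),(7,2),(2,0),(13,2)]⟩⟩,⟨true,0,⟨0,[(30,0)]⟩,⟨6,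
  [(2,1),(1,1),(12,1),(2,0),(10,1),(1,0),(10,0)]⟩⟩,⟨false,0,⟨0,[]⟩,⟨0,[]⟩⟩,⟨false,0,⟨0,[]⟩,⟨0,[]⟩⟩,
  [.o ⟨false,1,⟨41,[(13,1),(11,3),(4,83),(11,7),(3,0),(0,20)]⟩,⟨2,[(2,2),(1,2),(12,1),(2,0),(12,0),
  (14,0)]⟩⟩,.o ⟨false,1,⟨0,[(10,0),(10,0),(8,0)]⟩,⟨6,[(2,3),(1,3),(12,3),(2,1),(10,3),(1,1),(10,
  1)]⟩⟩,.e ⟨false,0,⟨0,[]⟩,⟨1,[(25,0),(0,0),(20,0)]⟩⟩ ⟨false,1,⟨3,[(10,0),(3,0),(7,0),(7,6),(2,0),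
  (13,2)]⟩,⟨0,[(2,0),(1,0),(15,0)]⟩⟩,.a ⟨true,0,⟨0,[(32,0)]⟩,⟨0,[(29,0)]⟩⟩ ⟨true,0,⟨12,[(1,1),(6,0),
  (0,0),(6,2),(12,2),(11,5)]⟩,⟨1,[(32,0),(0,0)]⟩⟩ ⟨false,1,⟨2,[(3,0),(1,0),(4,0),(19,4),(16,1)]⟩,⟨1,
  [(2,1),(1,1),(15,1),(11,0),(0,0)]⟩⟩]⟩) (.I [0,0,0,0,0,1,1] (.C [(0,1),(0,0),(2,0),(32,1),(11,0)])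
  (.C [(0,0),(16,0),(7,0)])))) (.I [0,0,-1,-1,0,0,0,-2] (.Q [0,0,0,0,0,0,0,0,0,1,-2] (.ed true [0,0,
  2] (.r (-1) ⟨1,[(1,0),(7,0),(11,1),(7,1),(13,0),(2,0)]⟩ ⟨4,[(0,2),(18,2),(10,0),(0,0),(8,0)]⟩))
  (.R ⟨0,false,false,true,[1,0,-2],[1,0,-1],[1,0,0,-1,0,0,0,-2],(⟨0,[(0,0)]⟩,⟨0,[(35,1)]⟩),(⟨0,[(34,
  0)]⟩,⟨0,[(35,0)]⟩),⟨0,[(23,0),(11,0)]⟩,.k,.k,(.r 0 ⟨0,[(1,0)]⟩ ⟨4,[(2,3),(7,1),(2,0),(8,6),(7,3),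
  (1,3),(12,0),(1,0)]⟩),.k,.k,.k,⟨false,1,⟨3,[(1,1),(42,1),(1,0),(0,2)]⟩,⟨1,[(18,0),(3,0),(7,0),(14,
  0)]⟩⟩,⟨true,0,⟨0,[(16,0)]⟩,⟨0,[(33,0)]⟩⟩,⟨false,1,⟨0,[(44,0),(2,0)]⟩,⟨0,[(45,0)]⟩⟩,⟨true,0,⟨0,
  [(30,0)]⟩,⟨8,[(1,1),(7,0),(4,0),(2,1),(13,1),(1,2)]⟩⟩,⟨false,0,⟨0,[]⟩,⟨0,[]⟩⟩,⟨false,0,⟨0,[]⟩,⟨0,
  []⟩⟩,[.o ⟨false,0,⟨0,[(31,0)]⟩,⟨1,[(2,0),(7,0),(33,0),(2,0)]⟩⟩,.o ⟨false,0,⟨8,[(1,1),(7,0),(4,0),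
  (2,1),(13,1),(1,2)]⟩,⟨41,[(13,1),(11,3),(4,41),(11,7),(3,0),(0,20)]⟩⟩,.a ⟨true,0,⟨0,[(22,0)]⟩,⟨0,
  [(16,1)]⟩⟩ ⟨true,0,⟨1,[(1,1),(30,0),(0,0)]⟩,⟨0,[(2,0),(5,0),(13,0),(6,0),(2,0)]⟩⟩ ⟨false,0,⟨5,[(1,
  1),(14,4),(3,1),(11,0),(8,0)]⟩,⟨1,[(2,0),(7,0),(11,1),(21,0),(2,0)]⟩⟩,.o ⟨false,0,⟨0,[(3,0),(19,
  0),(0,0),(11,1),(11,1)]⟩,⟨4,[(16,8),(15,0),(9,0),(3,2)]⟩⟩]⟩) (.I [0,0,0,0,0,1,1] (.C [(0,1),(0,0),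
  (2,0),(32,1),(11,0)]) (.C [(0,0),(16,0),(7,0)]))) (.Q [0,0,0,0,0,0,0,0,0,1,-2] (.ed true [0,0,2]
  (.r (-1) ⟨1,[(0,1),(42,1),(1,0),(0,0)]⟩ ⟨0,[(19,1),(22,1)]⟩)) (.R ⟨0,false,false,true,[1,0,-2],[1,
  0,-1],[1],(⟨0,[(0,0)]⟩,⟨0,[(35,1)]⟩),(⟨0,[(34,0)]⟩,⟨0,[(35,0)]⟩),⟨0,[(23,0),(11,0)]⟩,.k,.k,(.x 0
  ⟨1,[(22,1),(0,1),(8,0),(0,0),(1,1)]⟩ ⟨68,[(0,68),(3,24),(3,8),(0,6),(0,8),(5,126),(3,10),(18,68),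
  (2,18),(0,10),(2,21)]⟩),.k,.k,.k,⟨false,1,⟨9,[(1,1),(3,3),(4,1),(0,1),(17,1),(0,3),(15,0),(0,4)]⟩,
  ⟨0,[(16,0),(14,0)]⟩⟩,⟨true,0,⟨0,[(16,0)]⟩,⟨0,[(33,0)]⟩⟩,⟨false,1,⟨0,[(1,0),(41,0),(3,0)]⟩,⟨0,[(20,
  1),(22,1)]⟩⟩,⟨true,0,⟨0,[(30,0)]⟩,⟨1,[(9,0),(4,0),(5,0),(23,0)]⟩⟩,⟨false,0,⟨0,[]⟩,⟨0,[]⟩⟩,⟨false,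
  0,⟨0,[]⟩,⟨0,[]⟩⟩,[.o ⟨false,0,⟨0,[(31,0)]⟩,⟨1,[(2,0),(7,0),(33,0),(2,0)]⟩⟩,.o ⟨false,0,⟨1,[(9,0),
  (4,0),(5,0),(23,0)]⟩,⟨41,[(13,1),(11,3),(4,41),(11,7),(3,0),(0,20)]⟩⟩,.a ⟨true,0,⟨0,[(22,0)]⟩,⟨0,
  [(16,1)]⟩⟩ ⟨true,0,⟨0,[]⟩,⟨0,[(49,0)]⟩⟩ ⟨false,0,⟨0,[(16,0),(3,0),(22,0)]⟩,⟨55,[(1,27),(9,21),(1,
  5),(0,33),(7,10),(19,0),(1,5),(2,19)]⟩⟩,.o ⟨false,0,⟨0,[(3,0),(19,0),(0,0),(11,1),(11,1)]⟩,⟨4,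
  [(16,8),(15,0),(9,0),(3,2)]⟩⟩]⟩) (.I [0,0,0,0,0,1,1] (.C [(0,1),(0,0),(2,0),(32,1),(11,0)]) (.C
  [(0,0),(16,0),(7,0)])))))) (.Q [-2,-1,0,1,2,0,0,0,-2,0,0,-2] (.p false [0,0,0,0,1] [0,1,0,0,-1]
  (⟨0,[(24,0)]⟩,⟨0,[(23,0)]⟩) .k 2 (⟨0,[(2,0)]⟩,⟨0,[(24,0),(10,0)]⟩) (.r 0 ⟨3,[(0,0),(14,1),(2,0),
  (2,0),(19,1),(2,0)]⟩ ⟨1,[(40,1),(1,0),(0,0)]⟩) (.r 0 ⟨0,[]⟩ ⟨10,[(0,2),(8,2),(7,8),(24,2),(0,1),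
  (1,3)]⟩)) (.R ⟨0,false,false,true,[0,1,0,0,-1],[0,0,0,0,1],[0,1,1],(⟨0,[(3,0)]⟩,⟨0,[(25,0),(10,
  0)]⟩),(⟨0,[(25,0)]⟩,⟨0,[(24,0)]⟩),⟨0,[(25,0)]⟩,(.r 0 ⟨12,[(0,1),(0,3),(14,7),(2,3),(22,2),(2,0),
  (0,1)]⟩ ⟨1,[(41,1),(1,0),(0,0)]⟩),.k,.k,(.r 0 ⟨12,[(0,0),(0,1),(14,3),(2,1),(22,7),(2,6),(0,0)]⟩
  ⟨1,[(41,1),(1,0),(0,0)]⟩),.k,.k,⟨true,0,⟨0,[(45,0)]⟩,⟨0,[]⟩⟩,⟨false,(-1),⟨32,[(1,21),(3,2),(0,19),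
  (0,16),(2,1),(32,11),(2,13)]⟩,⟨0,[(0,0),(39,0)]⟩⟩,⟨true,0,⟨0,[(41,0)]⟩,⟨0,[(42,0)]⟩⟩,⟨false,(-1),
  ⟨0,[(4,0),(4,0)]⟩,⟨0,[(0,0)]⟩⟩,⟨false,0,⟨0,[]⟩,⟨0,[]⟩⟩,⟨false,0,⟨0,[]⟩,⟨0,[]⟩⟩,[.o ⟨false,(-1),⟨1,
  [(5,0),(0,0),(5,0),(28,0)]⟩,⟨11,[(0,8),(0,1),(8,1),(30,8),(1,1),(0,5)]⟩⟩,.o ⟨false,0,⟨79,[(5,8),
  (0,17),(0,8),(2,21),(28,7),(3,10)]⟩,⟨0,[(18,0)]⟩⟩,.a ⟨true,1,⟨2,[(0,0),(1,0),(10,0),(26,0)]⟩,⟨0,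
  [(1,0)]⟩⟩ ⟨false,0,⟨1,[(29,0),(0,0)]⟩,⟨1,[(43,0),(0,0)]⟩⟩ ⟨true,(-2),⟨7,[(1,5),(2,0),(0,4),(0,3),
  (9,0),(11,0),(1,0),(15,0)]⟩,⟨0,[(0,0),(39,0)]⟩⟩,.o ⟨false,1,⟨0,[(2,0),(10,0),(6,0),(0,0),(11,1),
  (11,1)]⟩,⟨0,[(23,0)]⟩⟩]⟩) (.Q [0,0,1,0,0,0,2,0,0,-1,2] (.p true [0,0,1] [1,0,-1] (⟨0,[(32,0)]⟩,⟨0,
  [(31,0)]⟩) .k 2 (⟨0,[(31,0)]⟩,⟨0,[(32,0)]⟩) .k (.r (-1) ⟨1,[(7,0),(3,0),(7,0),(7,2),(2,0),(13,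
  0)]⟩ ⟨0,[(17,1),(22,1)]⟩)) (.I [0,0,1,1,-1,0,0,-3] (.I [0,0,1,1,-1,0,0,-2] (.Q [0,0,0,0,0,0,0,0,0,
  -1,2] (.ed false [0,0,2] (.r (-1) ⟨1,[(10,0),(3,0),(7,0),(7,2),(2,0),(13,0)]⟩ ⟨2,[(1,1),(42,1),(1,
  0),(0,0)]⟩)) (.K ⟨0,[-1,0,2],0,1,(⟨0,[(0,0)]⟩,⟨0,[(35,1)]⟩),.k,(.r (-2) ⟨27,[(12,21),(1,5),(0,33),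
  (7,10),(7,55),(11,0),(1,5),(2,19)]⟩ ⟨0,[(1,0)]⟩),(.r (-1) ⟨1,[(19,0),(0,0),(2,1),(7,2),(2,0),(13,
  1)]⟩ ⟨0,[(1,0),(42,1),(3,0)]⟩),.k,.k,[⟨2,[(5,0),(17,0),(2,0),(3,0)]⟩,⟨0,[(3,0)]⟩,⟨0,[(1,0),(21,0),
  (20,0)]⟩,⟨41,[(14,1),(11,3),(4,83),(11,7),(3,0),(0,20)]⟩]⟩) (.I [0,0,0,0,0,1,1] (.I [0,0,-1,0,0,1,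
  -1] (.C [(0,1),(1,0),(2,0),(33,1),(11,0)]) (.C [(0,0),(6,0),(0,0),(17,0)])) (.C [(0,0),(0,0),(2,
  0),(1,0),(0,0),(17,0)]))) (.I [1,0,0,-1,0,0,0,-1] (.R ⟨0,false,false,false,[0,0,1],[1,0,-1],[1],
  (⟨0,[(36,0)]⟩,⟨0,[(35,0)]⟩),(⟨0,[(35,0)]⟩,⟨0,[(36,0)]⟩),⟨0,[(25,0)]⟩,.k,.k,.k,.k,.k,.k,⟨false,1,
  ⟨11,[(1,4),(12,0),(8,0),(2,1),(4,1),(14,4),(0,3),(0,0)]⟩,⟨23,[(0,5),(1,5),(2,0),(8,0),(11,2),(20,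
  3)]⟩⟩,⟨true,0,⟨0,[(23,0)]⟩,⟨0,[(3,0)]⟩⟩,⟨true,0,⟨23,[(0,5),(1,5),(2,0),(8,0),(11,2),(20,3)]⟩,⟨6,
  [(9,1),(5,1),(7,1),(7,4),(2,0),(14,0)]⟩⟩,⟨false,0,⟨2,[(0,1),(1,0),(15,0),(4,1),(6,0),(17,0)]⟩,⟨1,
  [(1,0),(1,0),(15,0),(11,0),(16,0)]⟩⟩,⟨false,0,⟨0,[]⟩,⟨0,[]⟩⟩,⟨false,0,⟨0,[]⟩,⟨0,[]⟩⟩,[.o ⟨false,0,
  ⟨17,[(0,4),(1,1),(3,0),(3,0),(7,2),(4,4),(8,2),(10,0)]⟩,⟨83,[(1,41),(1,20),(10,10),(5,41),(5,21),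
  (16,1),(3,15)]⟩⟩,.o ⟨false,1,⟨0,[(32,0),(15,0)]⟩,⟨0,[(9,0),(12,0)]⟩⟩,.e ⟨true,0,⟨0,[]⟩,⟨0,[(50,
  0)]⟩⟩ ⟨true,0,⟨13,[(0,2),(1,2),(2,0),(17,12),(2,0),(5,1),(14,1),(0,0)]⟩,⟨9,[(3,6),(2,3),(2,3),(21,
  5),(6,0),(1,0),(8,0)]⟩⟩,.a ⟨true,0,⟨0,[(33,0)]⟩,⟨0,[(30,0)]⟩⟩ ⟨false,1,⟨1,[(47,0),(0,0)]⟩,⟨1,[(33,
  0),(0,0)]⟩⟩ ⟨true,0,⟨4,[(0,0),(1,0),(3,0),(3,0),(12,2),(6,1),(16,0)]⟩,⟨2,[(3,1),(5,0),(12,0),(8,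
  1),(2,0)]⟩⟩]⟩) (.K ⟨0,[1,-1,0,0,1],(-1),(-1),(⟨0,[(29,0),(10,0)]⟩,⟨0,[(7,0)]⟩),(.r (-1) ⟨1,[(45,
  1),(1,0),(0,0)]⟩ ⟨3,[(0,0),(4,0),(14,1),(0,0),(1,0),(2,0),(23,0)]⟩),(.r (-1) ⟨0,[(44,1),(3,0)]⟩
  ⟨1,[(0,0),(4,0),(14,1),(0,0),(1,0),(2,0),(23,0)]⟩),.k,(.r (-1) ⟨2,[(2,0),(42,3),(1,1),(0,1)]⟩ ⟨1,
  [(0,1),(32,0),(0,0)]⟩),.k,[⟨0,[(3,0),(2,0)]⟩,⟨1,[(5,1),(27,0),(0,0)]⟩,⟨3,[(15,2),(3,0),(0,2),(5,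
  0),(5,0),(17,1)]⟩,⟨0,[(5,0),(38,0)]⟩]⟩))) (.R ⟨0,false,false,true,[0,0,1],[1,0,-1],[1],(⟨0,[(34,
  0)]⟩,⟨0,[(33,0)]⟩),(⟨0,[(33,0)]⟩,⟨0,[(34,0)]⟩),⟨0,[(23,0)]⟩,.k,.k,.k,.k,.k,.k,⟨false,1,⟨6,[(0,1),
  (3,0),(4,0),(5,0),(12,0),(15,1),(0,0),(0,2)]⟩,⟨0,[(15,0),(14,0)]⟩⟩,⟨true,0,⟨0,[(21,0)]⟩,⟨0,[(1,
  0)]⟩⟩,⟨true,0,⟨0,[(19,0),(22,0)]⟩,⟨6,[(7,1),(5,1),(7,1),(7,4),(2,0),(14,0)]⟩⟩,⟨false,0,⟨1,[(8,0),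
  (4,0),(5,2),(8,1),(14,2)]⟩,⟨0,[(0,0),(0,0),(13,0),(0,0)]⟩⟩,⟨false,0,⟨0,[]⟩,⟨0,[]⟩⟩,⟨false,0,⟨0,
  []⟩,⟨0,[]⟩⟩,[.o ⟨false,0,⟨0,[(30,0)]⟩,⟨33,[(0,7),(0,12),(2,2),(4,2),(7,6),(0,0),(22,1),(4,18)]⟩⟩,
  .o ⟨false,0,⟨1,[(8,0),(4,0),(5,0),(23,0)]⟩,⟨41,[(12,1),(11,3),(4,41),(11,7),(3,0),(0,20)]⟩⟩,.a
  ⟨true,0,⟨0,[(15,0)]⟩,⟨2,[(3,0),(17,0),(2,0),(3,0)]⟩⟩ ⟨true,0,⟨0,[]⟩,⟨0,[(48,0)]⟩⟩ ⟨false,0,⟨3,[(8,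
  0),(4,0),(5,2),(1,1),(6,1),(14,2)]⟩,⟨8,[(0,1),(0,5),(2,0),(4,0),(5,3),(1,1),(27,0),(0,4)]⟩⟩,.e
  ⟨false,1,⟨1,[(45,0),(0,0)]⟩,⟨1,[(31,0),(0,0)]⟩⟩ ⟨false,0,⟨1,[(8,0),(4,0),(5,0),(8,1),(14,0)]⟩,⟨13,
  [(0,3),(0,8),(10,0),(5,3),(5,1),(4,1),(1,3),(14,7)]⟩⟩]⟩)) (.Q [0,1,0,0,-1,0,-2,-2,0,0,-2] (.p
  false [0,0,1] [0,1,-1] (⟨0,[(33,0)]⟩,⟨0,[(32,0)]⟩) .k 2 (⟨0,[(22,0)]⟩,⟨0,[(33,0),(3,0)]⟩) .k (.r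
  (-1) ⟨1,[(8,0),(3,0),(7,0),(7,2),(2,0),(13,0)]⟩ ⟨0,[(18,1),(22,1)]⟩)) (.Q [0,0,0,0,0,0,0,0,0,1,
  -2] (.ed true [0,0,2] (.r (-1) ⟨1,[(9,0),(3,0),(7,0),(7,2),(2,0),(13,0)]⟩ ⟨0,[(19,1),(22,1)]⟩))
  (.R ⟨0,false,false,false,[0,0,1],[0,0,2],[1],(⟨0,[(35,0)]⟩,⟨0,[(34,0)]⟩),(⟨0,[(35,1)]⟩,⟨0,[(0,
  0)]⟩),⟨0,[(24,0)]⟩,.k,.k,.k,.k,.k,.k,⟨false,0,⟨1,[(1,1),(14,3),(29,0),(0,0)]⟩,⟨1,[(10,0),(3,0),(7,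
  0),(7,2),(2,0),(13,0)]⟩⟩,⟨true,0,⟨0,[(16,0)]⟩,⟨0,[(33,0)]⟩⟩,⟨true,0,⟨0,[(20,0),(22,0)]⟩,⟨6,[(8,1),
  (5,1),(7,1),(7,4),(2,0),(14,0)]⟩⟩,⟨false,1,⟨0,[(30,0),(16,0)]⟩,⟨2,[(1,0),(29,0),(15,0)]⟩⟩,⟨false,
  0,⟨0,[]⟩,⟨0,[]⟩⟩,⟨false,0,⟨0,[]⟩,⟨0,[]⟩⟩,[.o ⟨false,1,⟨0,[(10,0),(10,0),(8,0)]⟩,⟨2,[(1,1),(29,1),
  (15,1)]⟩⟩,.o ⟨false,2,⟨41,[(13,1),(11,3),(4,83),(11,7),(3,0),(0,62)]⟩,⟨0,[(1,0)]⟩⟩,.e ⟨true,0,⟨0,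
  []⟩,⟨0,[(49,0)]⟩⟩ ⟨true,1,⟨3,[(10,0),(3,0),(7,0),(7,6),(2,0),(13,2)]⟩,⟨0,[(1,0),(14,0)]⟩⟩,.a
  ⟨true,0,⟨0,[(32,0)]⟩,⟨0,[(29,0)]⟩⟩ ⟨false,1,⟨1,[(46,0),(0,0)]⟩,⟨1,[(32,0),(0,0)]⟩⟩ ⟨true,1,⟨2,[(2,
  0),(2,0),(4,0),(19,4),(16,1)]⟩,⟨0,[(1,0),(30,0)]⟩⟩]⟩) (.I [0,0,0,0,0,1,1] (.C [(0,1),(0,0),(1,0),
  (33,1),(11,0)]) (.C [(0,0),(16,0),(7,0)]))) (.Q [0,0,0,0,0,0,0,0,0,1,-2] (.ed true [0,0,2] (.r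
  (-1) ⟨14,[(0,10),(6,0),(5,0),(3,2),(3,13),(7,3),(2,0),(8,1),(1,2)]⟩ ⟨0,[(19,1),(22,1)]⟩)) (.R ⟨0,
  false,false,true,[1,0,-2],[1,0,-1],[0,0,1],(⟨0,[(0,0)]⟩,⟨0,[(35,1)]⟩),(⟨0,[(34,0)]⟩,⟨0,[(35,0)]⟩),
  ⟨0,[(23,0),(11,0)]⟩,.k,.k,(.x 0 ⟨1,[(22,1),(0,1),(8,0),(0,0),(1,1)]⟩ ⟨5,[(0,5),(4,0),(4,0),(4,0),
  (0,12),(0,0),(21,5),(2,1),(0,1),(2,0)]⟩),.k,.k,.k,⟨false,1,⟨55,[(1,27),(11,1),(0,1),(7,26),(2,1),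
  (16,4),(4,13)]⟩,⟨3,[(5,0),(3,0),(6,1),(3,2),(20,1),(1,2)]⟩⟩,⟨true,0,⟨0,[(16,0)]⟩,⟨0,[(33,0)]⟩⟩,
  ⟨false,1,⟨0,[(1,0),(0,0),(20,0),(0,0),(11,1),(11,1)]⟩,⟨1,[(5,0),(3,0),(6,1),(3,2),(22,2)]⟩⟩,⟨true,
  0,⟨0,[(30,0)]⟩,⟨1,[(9,0),(4,0),(5,0),(23,0)]⟩⟩,⟨false,0,⟨0,[]⟩,⟨0,[]⟩⟩,⟨false,0,⟨0,[]⟩,⟨0,[]⟩⟩,
  [.o ⟨false,0,⟨0,[(31,0)]⟩,⟨0,[(10,0),(10,0)]⟩⟩,.o ⟨false,0,⟨1,[(9,0),(4,0),(5,0),(23,0)]⟩,⟨61,[(1,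
  25),(11,6),(11,13),(4,9),(10,6),(0,10),(6,1)]⟩⟩,.a ⟨true,0,⟨0,[(22,0)]⟩,⟨0,[(16,1)]⟩⟩ ⟨true,0,⟨1,
  [(32,0),(0,0)]⟩,⟨6,[(3,0),(1,1),(10,1),(24,2),(3,0)]⟩⟩ ⟨false,0,⟨0,[(16,0),(3,0),(22,0)]⟩,⟨8,[(1,
  3),(0,3),(7,0),(3,0),(7,1),(10,4),(8,0),(4,1)]⟩⟩,.o ⟨false,0,⟨0,[(2,0),(20,0),(0,0),(11,1),(11,
  1)]⟩,⟨4,[(16,8),(15,0),(9,0),(3,2)]⟩⟩]⟩) (.I [0,0,0,0,0,1,1] (.C [(0,1),(0,0),(1,0),(33,1),(11,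
  0)]) (.C [(0,0),(16,0),(7,0)])))))))) (.Q [-2,-1,0,1,2,0,0,0,-2,1,0,-2] (.p false [0,0,0,0,1] [1,
  0,0,0,-1] (⟨0,[(22,0)]⟩,⟨0,[(21,0)]⟩) .k 2 (⟨0,[(21,0)]⟩,⟨0,[(22,0)]⟩) .k (.r 0 ⟨0,[]⟩ ⟨15,[(7,5),
  (7,11),(15,5),(1,5),(6,2),(0,0),(1,1)]⟩)) (.R ⟨1,true,false,false,[0,0,0,0,1],[1,0,0,0,-1],[1],
  (⟨0,[(23,0)]⟩,⟨0,[(22,0)]⟩),(⟨0,[(22,0)]⟩,⟨0,[(23,0)]⟩),⟨0,[(1,0)]⟩,.k,.k,(.r (-1) ⟨1,[(39,1),(1,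
  0),(0,0)]⟩ ⟨4,[(14,1),(2,1),(9,1),(12,2),(2,0)]⟩),.k,(.r (-1) ⟨1,[(39,1),(1,0),(0,0)]⟩ ⟨4,[(14,0),
  (2,0),(9,0),(12,3),(2,2)]⟩),.k,⟨true,0,⟨0,[]⟩,⟨0,[(43,0)]⟩⟩,⟨false,2,⟨0,[(0,0),(37,0)]⟩,⟨0,[(4,0),
  (0,0),(38,0)]⟩⟩,⟨false,1,⟨9,[(0,1),(7,1),(30,1),(1,0),(0,4)]⟩,⟨0,[]⟩⟩,⟨true,2,⟨0,[(0,0),(38,0)]⟩,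
  ⟨0,[(3,0),(0,0)]⟩⟩,⟨true,0,⟨0,[(40,0)]⟩,⟨0,[(39,0)]⟩⟩,⟨false,2,⟨0,[(0,0)]⟩,⟨30,[(2,21),(1,14),(0,
  14),(0,7),(1,0),(28,2),(0,0)]⟩⟩,[]⟩) (.Q [0,0,1,0,0,0,2,0,0,-1,2] (.p true [0,0,1] [1,0,-1] (⟨0,
  [(30,0)]⟩,⟨0,[(29,0)]⟩) .k 2 (⟨0,[(29,0)]⟩,⟨0,[(30,0)]⟩) .k (.r (-1) ⟨1,[(5,0),(3,0),(7,0),(7,2),
  (2,0),(13,0)]⟩ ⟨0,[(15,1),(22,1)]⟩)) (.Q [0,1,0,0,-1,0,-2,-2,0,1,-2] (.p false [0,0,1] [1,0,-1]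
  (⟨0,[(31,0)]⟩,⟨0,[(30,0)]⟩) .k 2 (⟨0,[(30,0)]⟩,⟨0,[(31,0)]⟩) .k (.r (-1) ⟨1,[(6,0),(3,0),(7,0),(7,
  2),(2,0),(13,0)]⟩ ⟨0,[(16,1),(22,1)]⟩)) (.R ⟨0,false,false,true,[0,0,1],[1,0,-1],[1,1],(⟨0,[(32,
  0)]⟩,⟨0,[(31,0)]⟩),(⟨0,[(31,0)]⟩,⟨0,[(32,0)]⟩),⟨0,[(21,0)]⟩,.k,.k,.k,.k,.k,.k,⟨false,1,⟨21,[(7,3),
  (3,3),(7,8),(7,17),(11,0),(3,8),(0,6)]⟩,⟨3,[(0,1),(0,1),(41,0),(0,0)]⟩⟩,⟨true,0,⟨0,[(19,0)]⟩,⟨0,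
  [(1,0)]⟩⟩,⟨false,0,⟨3,[(0,1),(0,1),(41,0),(0,0)]⟩,⟨3,[(7,0),(3,0),(7,0),(7,2),(2,0),(13,2)]⟩⟩,
  ⟨true,(-1),⟨0,[(0,0)]⟩,⟨0,[(7,0),(10,0),(8,0)]⟩⟩,⟨false,0,⟨0,[]⟩,⟨0,[]⟩⟩,⟨false,0,⟨0,[]⟩,⟨0,[]⟩⟩,
  [.o ⟨false,0,⟨0,[(28,0)]⟩,⟨0,[(7,0),(10,0)]⟩⟩,.o ⟨false,0,⟨10,[(0,4),(27,0),(10,0),(4,2)]⟩,⟨41,
  [(10,1),(11,3),(4,41),(11,7),(3,0),(0,20)]⟩⟩,.e ⟨false,0,⟨0,[]⟩,⟨1,[(22,0),(0,0),(20,0)]⟩⟩ ⟨false,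
  0,⟨3,[(0,1),(18,1),(2,0),(0,0),(20,0)]⟩,⟨1,[(1,0),(5,0),(3,0),(1,0),(13,0),(16,0)]⟩⟩,.a ⟨true,0,
  ⟨0,[(29,0)]⟩,⟨0,[(26,0)]⟩⟩ ⟨true,0,⟨4,[(0,0),(12,0),(1,1),(10,0),(13,1),(2,0)]⟩,⟨1,[(29,0),(0,
  0)]⟩⟩ ⟨false,0,⟨4,[(0,1),(5,0),(4,0),(7,0),(6,1),(16,0),(0,0)]⟩,⟨2,[(1,1),(5,0),(14,0),(4,1),(2,
  0),(13,1)]⟩⟩]⟩) (.R ⟨0,false,false,true,[0,0,1],[1,0,-1],[1],(⟨0,[(32,0)]⟩,⟨0,[(31,0)]⟩),(⟨0,[(31,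
  0)]⟩,⟨0,[(32,0)]⟩),⟨0,[(21,0)]⟩,.k,.k,.k,.k,.k,.k,⟨false,1,⟨11,[(0,5),(18,0),(6,9),(12,0),(3,0),
  (0,2)]⟩,⟨0,[(13,0),(14,0)]⟩⟩,⟨true,0,⟨0,[(19,0)]⟩,⟨0,[(1,0)]⟩⟩,⟨true,0,⟨0,[(17,0),(22,0)]⟩,⟨6,[(5,
  1),(5,1),(7,1),(7,4),(2,0),(14,0)]⟩⟩,⟨false,0,⟨1,[(6,0),(4,0),(5,2),(8,1),(14,2)]⟩,⟨0,[(0,0)]⟩⟩,
  ⟨false,0,⟨0,[]⟩,⟨0,[]⟩⟩,⟨false,0,⟨0,[]⟩,⟨0,[]⟩⟩,[.o ⟨false,0,⟨0,[(28,0)]⟩,⟨83,[(0,41),(9,1),(11,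
  3),(16,7),(3,0),(0,20)]⟩⟩,.o ⟨false,0,⟨1,[(6,0),(4,0),(5,0),(23,0)]⟩,⟨14,[(0,6),(9,2),(11,5),(4,
  0),(10,2),(0,0)]⟩⟩,.a ⟨true,0,⟨0,[(13,0)]⟩,⟨1,[(19,0),(6,0),(2,0)]⟩⟩ ⟨true,0,⟨0,[]⟩,⟨0,[(46,0)]⟩⟩
  ⟨false,0,⟨3,[(6,0),(4,0),(5,2),(1,1),(6,1),(14,2)]⟩,⟨3,[(0,1),(0,1),(41,0),(0,0)]⟩⟩,.e ⟨false,1,
  ⟨1,[(43,0),(0,0)]⟩,⟨1,[(29,0),(0,0)]⟩⟩ ⟨false,0,⟨0,[(14,0),(11,0),(14,0)]⟩,⟨23,[(0,11),(0,0),(8,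
  0),(11,1),(6,21),(9,1),(4,5)]⟩⟩]⟩)) (.Q [0,-1,-1,0,1,0,1,2,0,0,1] (.p true [0,0,1] [] (⟨0,[(31,
  0)]⟩,⟨0,[(30,0)]⟩) .k 0 (⟨0,[]⟩,⟨0,[]⟩) .k .k) (.Q [0,0,0,0,0,0,0,0,0,1,-2] (.ed true [0,0,2] (.r
  (-1) ⟨17,[(0,11),(9,1),(7,0),(0,6),(2,2),(4,11),(2,9),(8,0)]⟩ ⟨0,[(17,1),(22,1)]⟩)) (.R ⟨0,false,
  false,true,[1,0,-2],[1,0,-1],[1],(⟨0,[(0,0)]⟩,⟨0,[(33,1)]⟩),(⟨0,[(32,0)]⟩,⟨0,[(33,0)]⟩),⟨0,[(21,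
  0),(11,0)]⟩,.k,.k,(.x 0 ⟨1,[(20,1),(0,1),(8,0),(0,0),(1,1)]⟩ ⟨23,[(0,23),(12,9),(0,47),(19,7),(2,
  15),(2,5),(0,9),(2,6),(0,4)]⟩),.k,.k,.k,⟨false,1,⟨19,[(1,9),(0,3),(17,0),(19,0),(3,2),(0,4)]⟩,⟨0,
  [(14,0),(14,0)]⟩⟩,⟨true,0,⟨0,[(14,0)]⟩,⟨0,[(31,0)]⟩⟩,⟨false,1,⟨0,[(1,0),(29,0)]⟩,⟨0,[(18,1),(22,
  1)]⟩⟩,⟨true,0,⟨0,[(28,0)]⟩,⟨1,[(7,0),(4,0),(5,0),(23,0)]⟩⟩,⟨false,0,⟨0,[]⟩,⟨0,[]⟩⟩,⟨false,0,⟨0,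
  []⟩,⟨0,[]⟩⟩,[.o ⟨false,0,⟨0,[(29,0)]⟩,⟨0,[(8,0),(10,0)]⟩⟩,.o ⟨false,0,⟨1,[(7,0),(4,0),(5,0),(23,
  0)]⟩,⟨62,[(1,20),(9,7),(7,6),(3,8),(4,20),(1,20),(9,10),(3,3)]⟩⟩,.a ⟨true,0,⟨0,[(20,0)]⟩,⟨0,[(14,
  1)]⟩⟩ ⟨true,0,⟨0,[]⟩,⟨0,[(47,0)]⟩⟩ ⟨false,0,⟨0,[(14,0),(3,0),(22,0)]⟩,⟨71,[(1,35),(9,1),(8,36),(2,
  3),(7,33),(8,6),(4,17)]⟩⟩,.o ⟨false,0,⟨0,[(2,0),(18,0),(0,0),(11,1),(11,1)]⟩,⟨4,[(14,8),(15,0),(9,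
  0),(3,2)]⟩⟩]⟩) (.I [0,0,0,0,0,1,1] (.C [(0,1),(0,0),(1,0),(31,1),(11,0)]) (.C [(0,0),(14,0),(7,
  0)]))) (.I [1,-1,0,0,0,0,0,-2] (.Q [0,0,0,0,0,0,0,0,0,1,-2] (.ed true [0,0,2] (.r (-1) ⟨1,[(8,0),
  (3,0),(7,0),(7,2),(2,0),(13,0)]⟩ ⟨6,[(0,5),(28,1),(0,1),(8,1)]⟩)) (.R ⟨0,false,false,true,[1,0,
  -2],[1,0,-1],[0,1],(⟨0,[(0,0)]⟩,⟨0,[(34,1)]⟩),(⟨0,[(33,0)]⟩,⟨0,[(34,0)]⟩),⟨0,[(22,0),(11,0)]⟩,.k,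
  .k,(.r 0 ⟨0,[(1,0),(40,0)]⟩ ⟨1,[(17,0),(0,0),(2,1),(7,2),(2,0),(13,1)]⟩),.k,.k,.k,⟨false,1,⟨21,
  [(9,3),(3,3),(7,8),(7,17),(11,0),(3,8),(0,6)]⟩,⟨6,[(1,2),(28,0),(0,0),(8,0)]⟩⟩,⟨true,0,⟨0,[(15,
  0)]⟩,⟨0,[(32,0)]⟩⟩,⟨false,1,⟨1,[(9,0),(3,0),(7,0),(7,2),(2,0),(13,0)]⟩,⟨0,[(1,0)]⟩⟩,⟨true,0,⟨0,
  [(29,0)]⟩,⟨26,[(1,7),(0,3),(0,3),(17,5),(8,2),(10,1),(6,0)]⟩⟩,⟨false,0,⟨0,[]⟩,⟨0,[]⟩⟩,⟨false,0,⟨0,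
  []⟩,⟨0,[]⟩⟩,[.o ⟨false,0,⟨0,[(30,0)]⟩,⟨0,[(9,0),(10,0)]⟩⟩,.o ⟨false,0,⟨26,[(1,7),(0,3),(0,3),(17,
  5),(8,2),(10,1),(6,0)]⟩,⟨41,[(12,1),(11,3),(4,41),(11,7),(3,0),(0,20)]⟩⟩,.a ⟨true,0,⟨0,[(21,0)]⟩,
  ⟨0,[(15,1)]⟩⟩ ⟨true,0,⟨0,[(48,0)]⟩,⟨0,[]⟩⟩ ⟨false,0,⟨3,[(1,1),(13,2),(15,0),(8,0)]⟩,⟨1,[(9,0),(3,
  0),(7,0),(7,0),(2,0),(13,0)]⟩⟩,.o ⟨false,0,⟨0,[(3,0),(18,0),(0,0),(11,1),(11,1)]⟩,⟨4,[(15,8),(15,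
  0),(9,0),(3,2)]⟩⟩]⟩) (.I [0,0,0,0,0,1,1] (.C [(0,1),(0,0),(2,0),(31,1),(11,0)]) (.C [(0,0),(15,0),
  (7,0)]))) (.I [0,0,0,0,0,1,1] (.I [0,0,-1,0,0,1,-1] (.C [(0,0),(0,0),(0,0),(0,0),(12,0),(19,1),
  (10,0)]) (.C [(0,0),(3,0),(11,0),(6,0)])) (.C [(0,0),(14,0),(7,0)]))))))) (.R ⟨2,true,false,true,
  [0,1],[0,0,0,0,1],[1,1,1],(⟨0,[]⟩,⟨0,[]⟩),(⟨0,[(21,0)]⟩,⟨0,[(20,0)]⟩),⟨0,[]⟩,.k,.k,.k,(.r 0 ⟨4,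
  [(12,1),(2,1),(9,1),(12,2),(2,0)]⟩ ⟨1,[(37,1),(1,0),(0,0)]⟩),.k,.k,⟨true,0,⟨1,[(25,0),(0,0)]⟩,⟨0,
  []⟩⟩,⟨false,0,⟨0,[(19,0)]⟩,⟨0,[(7,0),(1,0)]⟩⟩,⟨true,0,⟨0,[(37,0)]⟩,⟨0,[(38,0)]⟩⟩,⟨false,0,⟨1,[(4,
  0),(14,0),(17,0)]⟩,⟨0,[(0,0)]⟩⟩,⟨false,0,⟨0,[]⟩,⟨1,[(18,0),(0,0),(20,0)]⟩⟩,⟨true,(-1),⟨0,[(2,0),
  (20,0)]⟩,⟨0,[(14,0)]⟩⟩,[]⟩))) (.I [0,1,0,0,0,0,0,1] (.R ⟨0,false,false,true,[1,0,-1],[1,0,0,0,-1],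
  [0,1],(⟨0,[(26,0)]⟩,⟨0,[(27,0)]⟩),(⟨0,[(19,0)]⟩,⟨0,[(20,0)]⟩),⟨0,[(15,0)]⟩,.k,.k,.k,.k,.k,.k,
  ⟨true,0,⟨0,[]⟩,⟨1,[(24,0),(0,0)]⟩⟩,⟨false,1,⟨0,[(6,0),(1,1)]⟩,⟨10,[(2,0),(2,4),(1,0),(1,0),(4,3),
  (6,2),(13,1)]⟩⟩,⟨true,0,⟨0,[(0,0)]⟩,⟨0,[(12,0),(22,0)]⟩⟩,⟨false,1,⟨0,[(1,0)]⟩,⟨1,[(3,0),(0,0),(4,
  0),(13,0)]⟩⟩,⟨false,0,⟨0,[]⟩,⟨0,[]⟩⟩,⟨false,0,⟨0,[]⟩,⟨0,[]⟩⟩,[.o ⟨false,1,⟨0,[(17,0),(23,0)]⟩,⟨0,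
  [(3,0),(3,0)]⟩⟩,.o ⟨false,1,⟨0,[(13,0)]⟩,⟨2,[(3,0),(1,0),(1,1),(27,0)]⟩⟩,.a ⟨true,0,⟨1,[(14,0),(6,
  0),(2,0)]⟩,⟨0,[(8,0)]⟩⟩ ⟨true,0,⟨0,[(41,0)]⟩,⟨0,[]⟩⟩ ⟨false,1,⟨0,[(8,0),(4,0)]⟩,⟨12,[(2,4),(0,3),
  (1,1),(3,4),(4,5),(6,0),(13,0)]⟩⟩,.o ⟨false,0,⟨0,[(25,0)]⟩,⟨4,[(8,3),(15,0),(9,0),(3,2)]⟩⟩]⟩) (.Q
  [0,0,0,0,0,-1,0,0,0,0,0,1] (.ed false [1,-1,0,0,1] .k) (.R ⟨0,false,false,true,[1,0,0,0,-1],[0,0,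
  1],[1],(⟨0,[(20,0)]⟩,⟨0,[(21,0)]⟩),(⟨0,[(28,0)]⟩,⟨0,[(27,0)]⟩),⟨0,[(0,0),(15,0),(0,0)]⟩,.k,.k,(.r
  (-1) ⟨1,[(37,1),(1,0),(0,0)]⟩ ⟨1,[(12,0),(2,0),(9,0),(12,0)]⟩),.k,.k,.k,⟨true,0,⟨0,[(1,0)]⟩,⟨0,
  [(23,0),(2,0)]⟩⟩,⟨false,0,⟨0,[(1,0),(1,0),(30,0)]⟩,⟨1,[(15,0),(2,1),(3,0),(2,0)]⟩⟩,⟨true,0,⟨0,[]⟩,
  ⟨0,[(42,0)]⟩⟩,⟨false,0,⟨4,[(3,2),(2,0),(4,0),(11,0),(12,0)]⟩,⟨1,[(1,1),(13,0),(2,1),(11,0),(1,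
  0)]⟩⟩,⟨false,0,⟨0,[]⟩,⟨0,[]⟩⟩,⟨false,0,⟨0,[]⟩,⟨0,[]⟩⟩,[.a ⟨true,0,⟨0,[(23,0)]⟩,⟨1,[(1,1),(13,0),
  (6,0),(2,0)]⟩⟩ ⟨true,0,⟨0,[]⟩,⟨1,[(25,0),(0,0)]⟩⟩ ⟨false,0,⟨0,[(3,0),(30,0)]⟩,⟨1,[(1,1),(13,0),(2,
  1),(3,0),(2,0)]⟩⟩,.o ⟨false,1,⟨16,[(2,10),(0,2),(2,3),(16,2),(11,1),(3,1)]⟩,⟨2,[(1,0),(8,0),(13,
  0),(1,0),(9,0)]⟩⟩,.o ⟨false,1,⟨0,[(18,0)]⟩,⟨2,[(4,0),(1,0),(1,1),(27,0)]⟩⟩,.o ⟨false,1,⟨1,[(18,1),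
  (6,0),(0,0)]⟩,⟨6,[(3,4),(2,0),(1,0),(1,4),(23,1),(1,5)]⟩⟩]⟩) (.R ⟨0,false,false,false,[0,1,0,0,
  -1],[1,0,-1],[0,1,1],(⟨0,[(0,0)]⟩,⟨0,[(21,0),(10,0)]⟩),(⟨0,[(27,0)]⟩,⟨0,[(28,0)]⟩),⟨0,[(21,0)]⟩,
  (.r 0 ⟨4,[(12,1),(2,1),(9,1),(12,2),(2,0)]⟩ ⟨1,[(37,1),(1,0),(0,0)]⟩),.k,.k,(.r (-1) ⟨3,[(2,3),(3,
  1),(5,0),(2,2),(9,0),(12,2)]⟩ ⟨0,[(1,0),(34,0)]⟩),.k,.k,⟨true,0,⟨0,[(23,0),(2,0)]⟩,⟨0,[(1,0)]⟩⟩,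
  ⟨false,0,⟨1,[(15,0),(3,1),(2,0),(2,0)]⟩,⟨0,[(1,0),(0,0),(5,0),(27,0)]⟩⟩,⟨true,0,⟨0,[(37,0)]⟩,⟨0,
  [(38,0)]⟩⟩,⟨false,0,⟨3,[(1,1),(2,3),(10,0),(6,2),(1,1),(0,2)]⟩,⟨0,[(2,0),(5,0)]⟩⟩,⟨false,0,⟨0,[]⟩,
  ⟨0,[]⟩⟩,⟨false,0,⟨0,[]⟩,⟨0,[]⟩⟩,[.o ⟨false,0,⟨2,[(1,0),(8,0),(13,0),(1,0),(9,0)]⟩,⟨16,[(2,10),(0,
  2),(2,3),(16,2),(11,1),(3,1)]⟩⟩,.a ⟨true,0,⟨1,[(1,1),(13,0),(6,0),(2,0)]⟩,⟨0,[(23,0)]⟩⟩ ⟨true,0,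
  ⟨1,[(25,0),(0,0)]⟩,⟨0,[]⟩⟩ ⟨false,0,⟨2,[(4,1),(8,1),(5,0),(2,2),(1,0),(0,0)]⟩,⟨0,[(2,0),(5,0),(27,
  0)]⟩⟩,.o ⟨false,1,⟨1,[(1,1),(0,1),(5,1),(6,0),(0,0),(0,0),(11,1),(6,1)]⟩,⟨2,[(6,0),(8,0),(3,0),(5,
  1)]⟩⟩,.o ⟨false,1,⟨2,[(1,1),(0,1),(4,0),(0,1),(7,0),(0,0),(8,0),(2,1),(7,1)]⟩,⟨0,[(19,
  0)]⟩⟩]⟩))))))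

theorem ok93 : chk K t93 r40 = true := by decide +kernel

noncomputable def t96 : Tre :=
  (.Q [-1,-1,0,0,1,0,-1,-1,-1,1,-1,-1] (.p false [0,0,1] [1,0,0,0,-1] (⟨0,[(21,0)]⟩,⟨0,[(20,0)]⟩)
  .k 2 (⟨0,[(13,0)]⟩,⟨0,[(14,0)]⟩) .k (.r (-1) ⟨9,[(8,4),(2,2),(0,2),(3,9),(11,0),(4,4)]⟩ ⟨0,[(6,0),
  (22,0)]⟩)) (.R ⟨0,false,false,true,[1,0,-1],[0,0,0,0,1],[0,1,1],(⟨0,[(21,0)]⟩,⟨0,[(22,0)]⟩),(⟨0,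
  [(15,0)]⟩,⟨0,[(14,0)]⟩),⟨0,[(10,0)]⟩,.k,.k,.k,.k,.k,.k,⟨true,0,⟨0,[(35,0)]⟩,⟨0,[]⟩⟩,⟨false,0,⟨1,
  [(1,1),(0,1),(27,1),(2,0),(0,0)]⟩,⟨1,[(0,0),(8,0),(2,0),(4,0)]⟩⟩,⟨true,0,⟨0,[(17,0),(2,0)]⟩,⟨0,
  [(3,0),(0,0),(25,0)]⟩⟩,⟨false,0,⟨1,[(1,1),(3,1),(3,0),(0,0),(0,0),(11,1),(6,1),(3,1)]⟩,⟨0,[(0,
  0)]⟩⟩,⟨false,0,⟨0,[]⟩,⟨0,[]⟩⟩,⟨false,0,⟨0,[]⟩,⟨0,[]⟩⟩,[.o ⟨false,(-1),⟨1,[(1,1),(0,1),(6,0),(0,0),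
  (0,0),(11,1),(6,1)]⟩,⟨1,[(8,0),(3,1),(0,0),(20,0)]⟩⟩,.o ⟨false,0,⟨2,[(1,1),(11,0),(2,1),(12,0)]⟩,
  ⟨0,[(8,0)]⟩⟩,.a ⟨true,0,⟨1,[(9,0),(6,0),(2,0)]⟩,⟨0,[(3,0)]⟩⟩ ⟨false,0,⟨1,[(19,0),(0,0)]⟩,⟨1,[(33,
  0),(0,0)]⟩⟩ ⟨true,(-1),⟨0,[(1,0),(0,0),(27,0)]⟩,⟨1,[(0,0),(7,0),(0,0),(7,0)]⟩⟩,.o ⟨false,0,⟨0,
  [(20,0)]⟩,⟨4,[(3,3),(15,0),(9,0),(3,2)]⟩⟩]⟩) (.Q [0,0,1,0,-1,0,0,0,1,0,0,1] (.p true [0,0,0,0,1]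
  [] (⟨0,[(15,0)]⟩,⟨0,[(14,0)]⟩) .k 0 (⟨0,[]⟩,⟨0,[]⟩) .k .k) (.K ⟨0,[0,0,0,0,1],(-1),(-1),(⟨0,[(16,
  0)]⟩,⟨0,[(15,0)]⟩),.k,(.r (-1) ⟨1,[(32,1),(1,0),(0,0)]⟩ ⟨4,[(7,1),(2,1),(9,1),(12,2),(2,0)]⟩),(.r
  0 ⟨1,[(7,0),(2,0),(9,0),(12,0)]⟩ ⟨1,[(32,1),(1,0),(0,0)]⟩),.k,.k,[⟨0,[(4,0),(8,0)]⟩,⟨0,[(0,0)]⟩,
  ⟨0,[(13,0),(23,0)]⟩,⟨1,[(1,0),(0,0),(14,0),(1,0)]⟩]⟩) (.Q [0,0,0,0,0,-1,0,0,0,0,0,1] (.ed false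
  [1,-1,0,0,1] .k) (.Q [-1,0,0,1,1,0,1,1,-1,0,1,-1] (.p false [0,0,-1,0,1] [] (⟨0,[(0,0),(12,0)]⟩,
  ⟨0,[(16,0),(7,0)]⟩) .k 0 (⟨0,[]⟩,⟨0,[]⟩) .k (.r 0 ⟨0,[(9,0),(22,0)]⟩ ⟨39,[(10,8),(0,19),(3,8),(3,
  39),(11,3),(4,22),(1,5)]⟩)) (.R ⟨1,true,false,false,[0,0,0,0,1],[0,1],[1],(⟨0,[(18,0)]⟩,⟨0,[(17,
  0)]⟩),(⟨0,[(30,0)]⟩,⟨0,[(29,0)]⟩),⟨0,[(1,0)]⟩,.k,.k,(.r (-1) ⟨1,[(34,1),(1,0),(0,0)]⟩ ⟨3,[(0,0),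
  (3,0),(4,1),(0,0),(1,1),(26,0)]⟩),(.r (-1) ⟨1,[(34,1),(1,0),(0,0)]⟩ ⟨3,[(0,0),(3,0),(4,1),(0,0),
  (1,1),(26,0)]⟩),(.r (-1) ⟨0,[(33,1),(3,0)]⟩ ⟨1,[(0,0),(3,0),(4,1),(0,0),(1,1),(26,0)]⟩),.k,⟨false,
  1,⟨1,[(33,1),(2,0),(0,0)]⟩,⟨3,[(0,0),(3,0),(4,1),(0,0),(1,1),(26,0)]⟩⟩,⟨true,1,⟨0,[(2,0)]⟩,⟨0,[(4,
  0),(18,0)]⟩⟩,⟨false,1,⟨1,[(15,0),(0,0),(20,0)]⟩,⟨0,[]⟩⟩,⟨true,1,⟨2,[(0,1),(6,0),(3,0),(9,0)]⟩,⟨1,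
  [(4,1),(7,0),(0,0),(0,0),(11,1),(6,1)]⟩⟩,⟨true,0,⟨0,[(35,0)]⟩,⟨0,[(34,0)]⟩⟩,⟨false,1,⟨0,[(0,0),(6,
  0)]⟩,⟨0,[(4,0),(18,0),(9,1),(3,0)]⟩⟩,[]⟩) (.K ⟨0,[0,-1,0,0,1],(-1),(-1),(⟨0,[(1,0)]⟩,⟨0,[(17,0),
  (9,0)]⟩),(.r (-1) ⟨1,[(34,1),(1,0),(0,0)]⟩ ⟨4,[(9,1),(2,1),(9,1),(12,2),(2,0)]⟩),(.r (-1) ⟨0,[(33,
  1),(3,0)]⟩ ⟨0,[(9,0),(2,0),(9,0),(12,0)]⟩),.k,(.r 0 ⟨0,[(0,0),(1,0),(3,0)]⟩ ⟨9,[(8,0),(0,7),(2,8),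
  (2,4),(0,4),(3,8),(14,0),(1,4),(0,1)]⟩),.k,[⟨0,[(2,0),(3,0)]⟩,⟨0,[(4,0),(18,0)]⟩,⟨0,[(15,0),(19,
  0),(3,0)]⟩,⟨2,[(0,0),(2,0),(0,0),(14,0),(14,1)]⟩]⟩)) (.K ⟨0,[0,1,0,0,-1],1,1,(⟨0,[(0,0)]⟩,⟨0,[(17,
  0),(10,0)]⟩),(.r 0 ⟨4,[(8,1),(2,1),(9,1),(12,2),(2,0)]⟩ ⟨1,[(33,1),(1,0),(0,0)]⟩),.k,(.r 0 ⟨0,[(8,
  0),(2,0),(9,0),(12,0)]⟩ ⟨0,[(32,1),(3,0)]⟩),(.r 0 ⟨0,[(9,0),(28,0)]⟩ ⟨1,[(1,0),(0,0),(8,0),(7,0),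
  (12,0),(0,0),(2,1)]⟩),.k,[⟨0,[(3,0)]⟩,⟨0,[(14,0)]⟩,⟨1,[(3,1),(7,0),(0,0),(0,0),(11,1),(6,1)]⟩,⟨0,
  [(14,0),(19,0),(3,0)]⟩]⟩))))

theorem ok96 : chk K t96 r38 = true := by decide +kernel

noncomputable def t100 : Tre :=
  (.Q [0,0,0,1,0,0,0,0,0,-1] (.pp true [-1,1]) (.I [0,-1,2,1] (.R ⟨0,false,false,false,[0,0,1],[0,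
  1],[1,1],(⟨0,[(22,0)]⟩,⟨0,[(21,0)]⟩),(⟨0,[(27,0)]⟩,⟨0,[(26,0)]⟩),⟨0,[(11,0)]⟩,.k,.k,.k,.k,.k,.k,
  ⟨true,0,⟨0,[(30,0)]⟩,⟨0,[(0,0)]⟩⟩,⟨false,1,⟨5,[(9,0),(6,3),(12,0),(3,3)]⟩,⟨0,[(19,0)]⟩⟩,⟨false,0,
  ⟨0,[(7,0),(22,0)]⟩,⟨1,[(4,0),(0,0),(3,0),(24,1)]⟩⟩,⟨true,0,⟨1,[(1,0),(5,0),(8,0),(1,0)]⟩,⟨0,[(4,
  0)]⟩⟩,⟨false,0,⟨0,[]⟩,⟨0,[]⟩⟩,⟨false,0,⟨0,[]⟩,⟨0,[]⟩⟩,[.o ⟨false,0,⟨0,[(1,0)]⟩,⟨1,[(12,0),(0,0),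
  (17,1),(2,0)]⟩⟩,.o ⟨false,1,⟨4,[(0,0),(28,0),(2,3),(0,0),(0,1)]⟩,⟨0,[(31,0)]⟩⟩,.a ⟨true,0,⟨0,[(2,
  0)]⟩,⟨2,[(3,0),(5,1),(6,0)]⟩⟩ ⟨false,0,⟨0,[]⟩,⟨1,[(12,0),(0,0),(20,0)]⟩⟩ ⟨true,0,⟨1,[(1,0),(7,0),
  (22,0)]⟩,⟨1,[(3,0),(26,0),(0,0)]⟩⟩,.e ⟨true,0,⟨2,[(1,0),(0,0),(13,0),(11,0),(1,0)]⟩,⟨1,[(0,0),(30,
  0)]⟩⟩ ⟨true,0,⟨0,[(1,0),(14,0)]⟩,⟨0,[(19,0),(11,0)]⟩⟩]⟩) (.Q [1,0,0,0,0,0,0,0,1,-1,0,1] (.p true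
  [0,0,0,0,1] [1] (⟨0,[(15,0)]⟩,⟨0,[(14,0)]⟩) .k 1 (⟨0,[]⟩,⟨0,[]⟩) .k .k) (.Q [0,0,1,0,-1,0,0,0,1,0,
  0,1] (.p true [0,0,0,0,1] [] (⟨0,[(16,0)]⟩,⟨0,[(15,0)]⟩) .k 0 (⟨0,[]⟩,⟨0,[]⟩) .k .k) (.K ⟨0,[0,0,
  0,0,1],(-1),(-1),(⟨0,[(17,0)]⟩,⟨0,[(16,0)]⟩),.k,(.r (-1) ⟨1,[(33,1),(1,0),(0,0)]⟩ ⟨4,[(8,1),(2,1),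
  (9,1),(12,2),(2,0)]⟩),(.r 0 ⟨1,[(8,0),(2,0),(9,0),(12,0)]⟩ ⟨1,[(33,1),(1,0),(0,0)]⟩),.k,.k,[⟨0,
  [(4,0),(9,0)]⟩,⟨0,[(0,0)]⟩,⟨0,[(14,0),(23,0)]⟩,⟨2,[(0,2),(1,0),(27,0),(3,0)]⟩]⟩) (.Q [-1,1,0,0,0,
  0,0,0,-1,0,0,-1] (.p false [0,0,0,0,1] [] (⟨0,[(17,0)]⟩,⟨0,[(16,0)]⟩) .k 0 (⟨0,[]⟩,⟨0,[]⟩) .k .k)
  (.Q [1,-1,0,0,0,0,-1,-1,1,0,-1,1] (.p false [0,0,1] [0,0,0,0,1] (⟨0,[(25,0)]⟩,⟨0,[(24,0)]⟩) .k 2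
  (⟨0,[(18,0)]⟩,⟨0,[(17,0)]⟩) .k (.r (-1) ⟨39,[(11,8),(0,19),(3,8),(3,39),(11,3),(4,22),(1,5)]⟩ ⟨1,
  [(3,0),(6,1),(23,0)]⟩)) (.R ⟨0,false,false,true,[1,0,-1],[1,0,0,0,-1],[1,1],(⟨0,[(25,0)]⟩,⟨0,[(26,
  0)]⟩),(⟨0,[(18,0)]⟩,⟨0,[(19,0)]⟩),⟨0,[(14,0)]⟩,.k,.k,.k,.k,.k,.k,⟨true,0,⟨0,[]⟩,⟨0,[(39,0)]⟩⟩,
  ⟨false,1,⟨0,[(2,0),(3,0)]⟩,⟨2,[(3,1),(9,0),(3,0),(2,0),(18,0)]⟩⟩,⟨true,0,⟨1,[(8,0),(0,0),(3,0)]⟩,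
  ⟨1,[(4,0),(6,1),(23,0)]⟩⟩,⟨false,1,⟨0,[(1,0),(19,0),(16,0)]⟩,⟨0,[(0,0)]⟩⟩,⟨false,0,⟨0,[]⟩,⟨0,[]⟩⟩,
  ⟨false,0,⟨0,[]⟩,⟨0,[]⟩⟩,[.o ⟨false,0,⟨0,[(1,0)]⟩,⟨9,[(16,0),(0,10),(15,1),(4,4)]⟩⟩,.o ⟨false,1,⟨0,
  [(12,0)]⟩,⟨0,[(3,0)]⟩⟩,.a ⟨true,0,⟨2,[(7,0),(5,1),(6,0)]⟩,⟨0,[(6,0)]⟩⟩ ⟨false,0,⟨0,[]⟩,⟨1,[(16,0),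
  (0,0),(20,0)]⟩⟩ ⟨true,0,⟨0,[(1,0),(4,0)]⟩,⟨1,[(3,0),(9,0),(3,0)]⟩⟩,.o ⟨false,0,⟨0,[(24,0)]⟩,⟨4,
  [(6,2),(0,0),(25,0),(3,2)]⟩⟩]⟩) (.Q [1,0,0,0,0,0,1,1,1,-1,1,1] (.p true [0,0,1] [1,0,0,0,-1] (⟨0,
  [(26,0)]⟩,⟨0,[(25,0)]⟩) .k 2 (⟨0,[(18,0)]⟩,⟨0,[(19,0)]⟩) .k (.r (-1) ⟨9,[(13,4),(2,2),(0,2),(3,9),
  (11,0),(4,4)]⟩ ⟨1,[(4,0),(6,1),(23,0)]⟩)) (.R ⟨0,false,false,true,[0,0,1],[1,0,0,0,-1],[-1,1,1],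
  (⟨0,[(27,0)]⟩,⟨0,[(26,0)]⟩),(⟨0,[(19,0)]⟩,⟨0,[(20,0)]⟩),⟨0,[(16,0)]⟩,.k,.k,.k,.k,.k,.k,⟨true,0,⟨1,
  [(24,0),(0,0)]⟩,⟨0,[]⟩⟩,⟨false,1,⟨0,[(17,0),(3,0)]⟩,⟨4,[(0,2),(3,1),(0,0),(2,0),(3,2),(22,1)]⟩⟩,
  ⟨false,0,⟨0,[(12,0),(23,0)]⟩,⟨11,[(0,5),(0,5),(12,0),(6,9),(12,0),(3,0),(0,8)]⟩⟩,⟨true,0,⟨0,[(2,
  0),(9,0),(8,0),(14,0)]⟩,⟨0,[(0,0)]⟩⟩,⟨false,0,⟨0,[]⟩,⟨0,[]⟩⟩,⟨false,0,⟨0,[]⟩,⟨0,[]⟩⟩,[.o ⟨false,0,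
  ⟨0,[(2,0)]⟩,⟨9,[(17,0),(0,10),(15,1),(4,4)]⟩⟩,.o ⟨false,1,⟨0,[(13,0)]⟩,⟨0,[(4,0)]⟩⟩,.a ⟨true,0,⟨0,
  [(7,0)]⟩,⟨2,[(8,0),(5,1),(6,0)]⟩⟩ ⟨false,0,⟨0,[(40,0)]⟩,⟨1,[(38,0),(0,0)]⟩⟩ ⟨true,0,⟨2,[(2,2),(5,
  0),(5,1),(6,0)]⟩,⟨0,[(4,0),(2,0)]⟩⟩,.e ⟨true,0,⟨0,[(41,0)]⟩,⟨0,[]⟩⟩ ⟨true,0,⟨0,[(2,0),(18,0)]⟩,⟨0,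
  [(4,0),(19,0)]⟩⟩]⟩) (.Q [0,0,0,0,0,0,1,0,1,-1,1,1] (.p true [0,0,1] [1,0,0,0,-1] (⟨0,[(27,0)]⟩,⟨0,
  [(26,0)]⟩) .k 2 (⟨0,[(19,0)]⟩,⟨0,[(20,0)]⟩) .k (.r (-1) ⟨9,[(14,4),(2,2),(0,2),(3,9),(11,0),(4,
  4)]⟩ ⟨1,[(5,0),(6,1),(23,0)]⟩)) (.Q [0,0,1,0,0,0,0,0,-1,1,0,-1] (.p false [0,0,0,0,1] [1] (⟨0,
  [(21,0)]⟩,⟨0,[(20,0)]⟩) .k 1 (⟨0,[]⟩,⟨0,[]⟩) .k .k) (.K ⟨0,[1,0,0,0,-1],0,0,(⟨0,[(21,0)]⟩,⟨0,[(22,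
  0)]⟩),.k,(.r (-1) ⟨1,[(38,1),(1,0),(0,0)]⟩ ⟨1,[(13,0),(2,0),(9,0),(12,0)]⟩),(.r 0 ⟨4,[(13,1),(2,
  1),(9,1),(12,2),(2,0)]⟩ ⟨1,[(38,1),(1,0),(0,0)]⟩),.k,.k,[⟨0,[(1,0)]⟩,⟨0,[(0,0)]⟩,⟨0,[(6,0),(36,
  0)]⟩,⟨18,[(0,8),(1,4),(0,4),(6,1),(12,3),(7,0),(1,0),(1,6)]⟩]⟩) (.Q [0,-1,0,0,0,0,-2,-2,0,1,-2]
  (.p false [0,0,1] [1,0,-1] (⟨0,[(29,0)]⟩,⟨0,[(28,0)]⟩) .k 2 (⟨0,[(28,0)]⟩,⟨0,[(29,0)]⟩) .k (.r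
  (-1) ⟨0,[(11,0),(0,0),(3,0),(24,0)]⟩ ⟨0,[(1,1),(0,1)]⟩)) (.I [0,0,1,1,-1,0,0,-3] (.Q [0,0,0,0,0,0,
  0,0,0,-1,2] (.ed false [0,0,2] (.r (-1) ⟨0,[(13,0),(0,0),(3,0),(24,0)]⟩ ⟨2,[(0,1),(39,1),(1,0),(0,
  0)]⟩)) (.Q [0,0,1,0,0,0,3,0,0,-1,3] (.p true [0,0,1] [1,1,-2] (⟨0,[(32,0)]⟩,⟨0,[(31,0)]⟩) .k 2
  (⟨0,[(21,0),(9,0)]⟩,⟨0,[(0,0),(35,0)]⟩) (.r 0 ⟨5,[(1,1),(11,0),(3,3),(4,1),(0,1),(4,1),(9,0)]⟩ ⟨0,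
  [(3,0),(2,0),(7,0),(4,0),(24,0)]⟩) (.x (-1) ⟨4,[(1,0),(2,2),(1,2),(3,0),(1,6),(0,0),(7,1),(9,12),
  (1,1),(5,1),(4,1)]⟩ ⟨1,[(0,2),(18,2)]⟩)) (.K ⟨0,[1,1,-2],0,(-1),(⟨0,[(22,0),(9,0)]⟩,⟨0,[(1,0),(35,
  0)]⟩),(.r 0 ⟨5,[(2,1),(11,0),(3,3),(4,1),(0,1),(4,1),(9,0)]⟩ ⟨0,[(4,0),(2,0),(7,0),(4,0),(24,
  0)]⟩),(.r 0 ⟨38,[(0,10),(1,14),(0,15),(25,0),(10,0),(1,14),(1,12)]⟩ ⟨0,[(15,0),(0,0),(3,0),(24,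
  0)]⟩),(.x (-1) ⟨2,[(1,2),(9,1),(0,1),(7,1),(6,1),(9,5),(2,0),(4,0)]⟩ ⟨0,[(22,1),(7,1)]⟩),(.r 1 ⟨0,
  [(2,0)]⟩ ⟨5,[(15,11),(0,5),(3,6),(6,3),(12,0),(3,0),(0,8)]⟩),.k,[⟨0,[(0,0)]⟩,⟨0,[(20,0)]⟩,⟨9,[(15,
  9),(7,0),(0,0),(3,9),(11,1),(4,4)]⟩,⟨3,[(2,3),(1,1),(2,1),(7,0),(0,0),(3,4),(6,1)]⟩]⟩) (.I [0,0,
  -1,0,0,0,0,0,1] (.I [0,0,0,0,0,1,1] (.C [(0,1),(1,0),(0,0),(11,0),(20,1),(11,0)]) (.C [(0,0),(14,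
  0),(8,0)])) (.C [(0,0),(4,0),(20,0)]))) (.I [1,-1,0,0,0,0,0,-2] (.Q [0,0,1,0,0,0,-2,0,0,0,-2] (.p
  false [0,0,1] [0,1,-1] (⟨0,[(33,0)]⟩,⟨0,[(32,0)]⟩) .k 2 (⟨0,[(22,0)]⟩,⟨0,[(33,0),(3,0)]⟩) .k (.r
  (-1) ⟨0,[(15,0),(0,0),(3,0),(24,0)]⟩ ⟨4,[(0,3),(13,0),(14,1),(9,0)]⟩)) (.R ⟨0,false,false,true,[1,
  0,-2],[1,0,-1],[0,1],(⟨0,[(2,0)]⟩,⟨0,[(34,1)]⟩),(⟨0,[(33,0)]⟩,⟨0,[(34,0)]⟩),⟨0,[(22,0),(11,0)]⟩,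
  .k,.k,(.r 0 ⟨1,[(1,1),(10,0),(30,0)]⟩ ⟨2,[(0,0),(16,0),(0,1),(2,2),(7,4),(16,2)]⟩),.k,.k,.k,
  ⟨false,1,⟨1,[(16,0),(0,0),(3,0),(23,0),(0,0)]⟩,⟨9,[(1,3),(13,0),(14,1),(9,0)]⟩⟩,⟨true,0,⟨0,[(14,
  0)]⟩,⟨0,[(32,0)]⟩⟩,⟨false,1,⟨0,[(16,0),(0,0),(3,0),(24,0)]⟩,⟨0,[(1,0)]⟩⟩,⟨true,0,⟨0,[(29,0)]⟩,⟨15,
  [(0,1),(2,1),(0,3),(7,1),(8,0),(8,1),(10,0)]⟩⟩,⟨false,0,⟨0,[]⟩,⟨0,[]⟩⟩,⟨false,0,⟨0,[]⟩,⟨0,[]⟩⟩,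
  [.o ⟨false,0,⟨0,[(30,0)]⟩,⟨0,[(13,0),(2,0),(29,0)]⟩⟩,.o ⟨false,0,⟨15,[(0,1),(2,1),(0,3),(7,1),(8,
  0),(8,1),(10,0)]⟩,⟨9,[(24,0),(0,0),(3,9),(11,1),(4,4)]⟩⟩,.a ⟨true,0,⟨0,[(21,0)]⟩,⟨0,[(14,1)]⟩⟩
  ⟨true,0,⟨0,[(48,0)]⟩,⟨0,[]⟩⟩ ⟨false,0,⟨13,[(1,3),(1,1),(8,1),(2,6),(24,0),(4,1)]⟩,⟨2,[(0,0),(4,0),
  (2,0),(7,0),(0,0),(3,1),(24,2)]⟩⟩,.o ⟨false,0,⟨0,[(0,0)]⟩,⟨4,[(14,7),(0,0),(25,0),(3,2)]⟩⟩]⟩) (.I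
  [0,0,-1,0,0,0,0,0,1] (.I [0,0,-1,0,0,1,-1] (.C [(0,1),(1,0),(1,1),(19,1),(12,3),(11,2)]) (.C [(0,
  0),(23,0),(5,0)])) (.C [(0,0),(5,0),(20,0)]))) (.I [0,0,-1,0,0,0,0,0,1] (.I [0,0,0,0,0,1,1] (.I
  [0,0,-1,0,0,1,-1] (.C [(0,0),(2,0),(0,0),(0,0),(12,0),(5,0),(12,1),(10,0)]) (.C [(0,0),(23,0),(5,
  0)])) (.C [(0,0),(2,0),(11,0),(7,0)])) (.C [(0,0),(4,0),(20,0)])))) (.Q [0,0,0,0,0,0,0,0,0,1,-2]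
  (.ed true [0,0,2] (.r (-1) ⟨2,[(0,1),(14,0),(2,0),(2,0),(0,0),(5,0),(12,0)]⟩ ⟨3,[(1,3),(7,2),(2,
  1),(2,3),(24,0)]⟩)) (.Q [0,0,1,0,0,0,-2,0,0,0,-2] (.p false [0,0,1] [0,1,-1] (⟨0,[(32,0)]⟩,⟨0,
  [(31,0)]⟩) .k 2 (⟨0,[(21,0)]⟩,⟨0,[(32,0),(3,0)]⟩) .k (.r (-1) ⟨2,[(1,1),(14,0),(2,0),(2,0),(0,0),
  (5,0),(12,0)]⟩ ⟨3,[(2,3),(7,2),(2,1),(2,3),(24,0)]⟩)) (.R ⟨0,false,false,true,[1,0,-2],[1,0,-1],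
  [1],(⟨0,[(1,0)]⟩,⟨0,[(33,1)]⟩),(⟨0,[(32,0)]⟩,⟨0,[(33,0)]⟩),⟨0,[(21,0),(11,0)]⟩,.k,.k,(.x 0 ⟨0,[(0,
  0),(32,1),(1,0)]⟩ ⟨5,[(1,5),(9,1),(0,1),(0,11),(23,5),(2,1),(3,0),(0,0)]⟩),.k,.k,.k,⟨false,1,⟨5,
  [(2,1),(9,1),(0,1),(13,1),(16,0),(0,2)]⟩,⟨7,[(11,1),(2,2),(3,1),(10,5),(9,0)]⟩⟩,⟨true,0,⟨0,[(13,
  0)]⟩,⟨0,[(31,0)]⟩⟩,⟨false,1,⟨0,[(2,0),(15,0)]⟩,⟨3,[(3,3),(7,2),(2,1),(2,3),(24,0)]⟩⟩,⟨true,0,⟨0,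
  [(28,0)]⟩,⟨1,[(3,0),(8,0),(29,0)]⟩⟩,⟨false,0,⟨0,[]⟩,⟨0,[]⟩⟩,⟨false,0,⟨0,[]⟩,⟨0,[]⟩⟩,[.o ⟨false,0,
  ⟨0,[(29,0)]⟩,⟨19,[(2,3),(2,7),(1,7),(9,3),(3,2),(0,2),(11,5),(5,0),(4,13)]⟩⟩,.o ⟨false,0,⟨1,[(3,
  0),(8,0),(29,0)]⟩,⟨29,[(2,9),(11,9),(2,9),(5,6),(0,6),(15,3),(3,4)]⟩⟩,.a ⟨true,0,⟨0,[(20,0)]⟩,⟨0,
  [(13,1)]⟩⟩ ⟨true,0,⟨0,[]⟩,⟨0,[(47,0)]⟩⟩ ⟨false,0,⟨2,[(3,0),(7,1),(2,1),(2,0),(0,0)]⟩,⟨29,[(0,9),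
  (1,9),(17,4),(2,2),(0,2),(15,0),(2,9),(1,14)]⟩⟩,.o ⟨false,0,⟨0,[(0,0)]⟩,⟨4,[(13,7),(0,0),(25,0),
  (3,2)]⟩⟩]⟩) (.I [0,0,-1,0,0,0,0,0,1] (.I [0,0,-1,0,0,1,-1] (.C [(0,1),(1,0),(0,1),(19,1),(12,3),
  (11,2)]) (.C [(0,0),(22,0),(5,0)])) (.C [(0,0),(4,0),(20,0)]))) (.Q [0,0,1,0,0,0,2,0,0,-1,2] (.p
  true [0,0,1] [1,0,-1] (⟨0,[(32,0)]⟩,⟨0,[(31,0)]⟩) .k 2 (⟨0,[(31,0)]⟩,⟨0,[(32,0)]⟩) .k (.r (-1) ⟨2,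
  [(1,1),(14,0),(2,0),(2,0),(0,0),(5,0),(12,0)]⟩ ⟨3,[(2,3),(7,2),(2,1),(2,3),(24,0)]⟩)) (.R ⟨0,
  false,false,false,[0,0,1],[1,0,-1],[1],(⟨0,[(33,0)]⟩,⟨0,[(32,0)]⟩),(⟨0,[(32,0)]⟩,⟨0,[(33,0)]⟩),⟨0,
  [(22,0)]⟩,.k,.k,.k,.k,.k,.k,⟨false,1,⟨2,[(2,0),(20,0),(0,0),(18,0),(0,0)]⟩,⟨4,[(0,1),(2,1),(7,0),
  (6,0),(20,0)]⟩⟩,⟨true,0,⟨0,[(20,0)]⟩,⟨0,[(0,0)]⟩⟩,⟨true,0,⟨4,[(0,1),(2,1),(7,0),(6,0),(20,0)]⟩,⟨1,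
  [(15,0),(0,0),(3,0)]⟩⟩,⟨false,0,⟨0,[(3,0)]⟩,⟨15,[(0,2),(1,7),(11,8),(1,7),(23,0),(3,1),(0,3)]⟩⟩,
  ⟨false,0,⟨0,[]⟩,⟨0,[]⟩⟩,⟨false,0,⟨0,[]⟩,⟨0,[]⟩⟩,[.o ⟨false,0,⟨1,[(3,0),(8,0),(29,0)]⟩,⟨29,[(2,9),
  (11,9),(2,9),(5,6),(0,6),(15,3),(3,4)]⟩⟩,.o ⟨false,1,⟨19,[(3,9),(19,10),(0,10),(15,1),(4,4)]⟩,⟨0,
  [(12,0),(2,0)]⟩⟩,.e ⟨true,0,⟨0,[]⟩,⟨0,[(47,0)]⟩⟩ ⟨true,0,⟨9,[(3,3),(10,0),(5,5),(8,1),(9,0)]⟩,⟨0,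
  [(5,0),(1,0)]⟩⟩,.a ⟨true,0,⟨0,[(30,0)]⟩,⟨0,[(27,0)]⟩⟩ ⟨false,1,⟨1,[(44,0),(0,0)]⟩,⟨1,[(30,0),(0,
  0)]⟩⟩ ⟨true,0,⟨13,[(3,6),(7,2),(0,2),(7,3),(6,5),(11,1)]⟩,⟨0,[(15,0),(1,0)]⟩⟩]⟩) (.I [-1,0,-1,0,0,
  0,0,-1] (.I [0,0,0,0,0,1,1] (.C [(0,1),(1,0),(0,0),(32,1),(11,0)]) (.C [(0,0),(14,0),(8,0)])) (.C
  [(0,0),(3,0),(0,0),(2,0),(5,0)]))))) (.Q [0,0,1,0,0,0,2,0,0,-1,2] (.p true [0,0,1] [1,0,-1] (⟨0,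
  [(30,0)]⟩,⟨0,[(29,0)]⟩) .k 2 (⟨0,[(29,0)]⟩,⟨0,[(30,0)]⟩) .k (.r (-1) ⟨8,[(0,3),(16,8),(7,9),(11,
  0),(4,6)]⟩ ⟨0,[(2,1),(0,1)]⟩)) (.R ⟨0,false,false,false,[0,0,1],[1,0,-1],[1,1],(⟨0,[(31,0)]⟩,⟨0,
  [(30,0)]⟩),(⟨0,[(30,0)]⟩,⟨0,[(31,0)]⟩),⟨0,[(20,0)]⟩,.k,.k,.k,.k,.k,.k,⟨false,0,⟨2,[(1,0),(7,0),(4,
  0),(3,0),(6,0)]⟩,⟨9,[(9,1),(2,3),(3,1),(10,7),(14,0),(0,8)]⟩⟩,⟨true,0,⟨0,[(18,0)]⟩,⟨0,[(0,0)]⟩⟩,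
  ⟨false,0,⟨0,[(3,0),(0,0)]⟩,⟨17,[(1,3),(16,8),(7,9),(11,0),(4,15)]⟩⟩,⟨true,0,⟨0,[(4,1),(3,0),(13,
  0)]⟩,⟨0,[(1,0)]⟩⟩,⟨false,0,⟨0,[]⟩,⟨0,[]⟩⟩,⟨false,0,⟨0,[]⟩,⟨0,[]⟩⟩,[.o ⟨false,0,⟨0,[(4,0),(3,0)]⟩,
  ⟨9,[(21,0),(0,0),(3,9),(11,1),(4,4)]⟩⟩,.o ⟨false,1,⟨0,[(27,0),(15,0)]⟩,⟨1,[(1,0),(8,0),(29,0)]⟩⟩,
  .a ⟨true,0,⟨0,[(11,0)]⟩,⟨2,[(12,0),(5,1),(6,0)]⟩⟩ ⟨false,0,⟨0,[]⟩,⟨1,[(21,0),(0,0),(20,0)]⟩⟩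
  ⟨true,0,⟨1,[(4,1),(3,0),(9,0),(3,0)]⟩,⟨9,[(0,3),(0,3),(7,1),(2,0),(1,1),(22,0)]⟩⟩,.e ⟨true,0,⟨2,
  [(9,0),(27,0),(3,0)]⟩,⟨1,[(28,0),(0,0)]⟩⟩ ⟨true,0,⟨2,[(2,1),(1,2),(13,0),(3,0),(2,0)]⟩,⟨0,[(13,0),
  (1,0)]⟩⟩]⟩) (.Q [0,0,0,0,0,0,0,0,0,1,-1,-1] (.ed true [0,0,1,0,1] (.r (-1) ⟨9,[(18,4),(2,2),(0,2),
  (3,9),(11,0),(4,4)]⟩ ⟨0,[(3,0),(0,0)]⟩)) (.Q [0,0,0,0,0,0,0,0,0,1,-2] (.ed true [0,0,2] (.r (-1)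
  ⟨8,[(2,3),(16,8),(7,9),(11,0),(4,6)]⟩ ⟨0,[(4,1),(0,1)]⟩)) (.R ⟨0,false,false,true,[0,0,1],[0,0,2],
  [1,1],(⟨0,[(33,0)]⟩,⟨0,[(32,0)]⟩),(⟨0,[(33,1)]⟩,⟨0,[(0,0)]⟩),⟨0,[(22,0)]⟩,.k,.k,.k,.k,.k,.k,
  ⟨false,0,⟨0,[(5,0),(0,0),(4,0),(6,0)]⟩,⟨8,[(3,3),(16,8),(7,9),(11,0),(4,6)]⟩⟩,⟨true,0,⟨0,[(13,
  0)]⟩,⟨0,[(31,0)]⟩⟩,⟨false,0,⟨0,[(5,0),(0,0)]⟩,⟨17,[(3,3),(16,8),(7,9),(11,0),(4,15)]⟩⟩,⟨true,0,⟨0,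
  [(28,0)]⟩,⟨0,[(6,0),(3,0)]⟩⟩,⟨false,0,⟨0,[]⟩,⟨0,[]⟩⟩,⟨false,0,⟨0,[]⟩,⟨0,[]⟩⟩,[.o ⟨false,0,⟨0,[(3,
  0)]⟩,⟨0,[(6,0),(3,0),(18,0),(15,0)]⟩⟩,.o ⟨false,1,⟨8,[(3,3),(24,9),(11,0),(4,6)]⟩,⟨0,[(6,1),(3,
  1)]⟩⟩,.a ⟨true,0,⟨0,[(13,0)]⟩,⟨2,[(14,0),(5,1),(6,0)]⟩⟩ ⟨false,0,⟨0,[]⟩,⟨1,[(23,0),(0,0),(20,
  0)]⟩⟩ ⟨true,0,⟨2,[(3,2),(10,0),(5,1),(6,0)]⟩,⟨0,[(5,0),(0,1),(3,0)]⟩⟩,.e ⟨true,0,⟨2,[(11,0),(27,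
  0),(3,0)]⟩,⟨1,[(30,0),(0,0)]⟩⟩ ⟨true,0,⟨0,[(3,0),(23,0)]⟩,⟨0,[(6,0),(3,0),(7,0),(23,0)]⟩⟩]⟩) (.I
  [0,0,0,0,0,1,1] (.C [(0,1),(0,0),(1,0),(31,1),(11,0)]) (.C [(0,0),(13,0),(8,0)]))) (.Q [0,0,0,0,0,
  0,0,0,0,1,-2] (.ed true [0,0,2] (.r (-1) ⟨8,[(2,3),(16,8),(7,9),(11,0),(4,6)]⟩ ⟨0,[(4,1),(0,
  1)]⟩)) (.R ⟨0,false,false,true,[0,0,1],[0,0,2],[1,1],(⟨0,[(33,0)]⟩,⟨0,[(32,0)]⟩),(⟨0,[(33,1)]⟩,⟨0,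
  [(0,0)]⟩),⟨0,[(22,0)]⟩,.k,.k,.k,.k,.k,.k,⟨false,0,⟨0,[(5,0),(0,0),(4,0),(6,0)]⟩,⟨8,[(3,3),(16,8),
  (7,9),(11,0),(4,6)]⟩⟩,⟨true,0,⟨0,[(13,0)]⟩,⟨0,[(31,0)]⟩⟩,⟨false,0,⟨0,[(5,0),(0,0)]⟩,⟨17,[(3,3),
  (16,8),(7,9),(11,0),(4,15)]⟩⟩,⟨true,0,⟨0,[(28,0)]⟩,⟨0,[(6,0),(3,0)]⟩⟩,⟨false,0,⟨0,[]⟩,⟨0,[]⟩⟩,
  ⟨false,0,⟨0,[]⟩,⟨0,[]⟩⟩,[.o ⟨false,0,⟨0,[(3,0)]⟩,⟨0,[(6,0),(3,0),(18,0),(15,0)]⟩⟩,.o ⟨false,1,⟨8,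
  [(3,3),(24,9),(11,0),(4,6)]⟩,⟨0,[(6,1),(3,1)]⟩⟩,.a ⟨true,0,⟨0,[(13,0)]⟩,⟨2,[(14,0),(5,1),(6,0)]⟩⟩
  ⟨false,0,⟨0,[]⟩,⟨1,[(23,0),(0,0),(20,0)]⟩⟩ ⟨true,0,⟨2,[(3,2),(10,0),(5,1),(6,0)]⟩,⟨0,[(5,0),(0,1),
  (3,0)]⟩⟩,.e ⟨true,0,⟨2,[(11,0),(27,0),(3,0)]⟩,⟨1,[(30,0),(0,0)]⟩⟩ ⟨true,0,⟨0,[(3,0),(23,0)]⟩,⟨0,
  [(6,0),(3,0),(7,0),(23,0)]⟩⟩]⟩) (.I [-1,0,-1,0,0,0,0,-1] (.I [0,0,0,0,0,1,1] (.C [(0,1),(1,0),(1,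
  0),(31,1),(11,0)]) (.C [(0,0),(14,0),(8,0)])) (.C [(0,0),(4,0),(1,0),(6,0)]))))))) (.R ⟨0,false,
  false,true,[0,0,1],[1,0,0,0,-1],[1],(⟨0,[(28,0)]⟩,⟨0,[(27,0)]⟩),(⟨0,[(20,0)]⟩,⟨0,[(21,0)]⟩),⟨0,
  [(17,0)]⟩,.k,.k,.k,.k,.k,.k,⟨false,1,⟨1,[(39,0),(0,0)]⟩,⟨0,[(42,0)]⟩⟩,⟨true,0,⟨0,[(0,0)]⟩,⟨1,[(5,
  1),(3,0),(31,0)]⟩⟩,⟨true,0,⟨1,[(6,0),(6,1),(23,0)]⟩,⟨1,[(10,0),(0,0),(3,0)]⟩⟩,⟨false,0,⟨0,[(1,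
  0)]⟩,⟨0,[(5,0),(17,0),(16,0)]⟩⟩,⟨false,0,⟨0,[]⟩,⟨0,[]⟩⟩,⟨false,0,⟨0,[]⟩,⟨0,[]⟩⟩,[.o ⟨false,0,⟨0,
  [(3,0)]⟩,⟨9,[(18,0),(0,10),(15,1),(4,4)]⟩⟩,.o ⟨false,1,⟨0,[(14,0)]⟩,⟨0,[(5,0)]⟩⟩,.e ⟨true,0,⟨0,
  []⟩,⟨0,[(42,0)]⟩⟩ ⟨true,0,⟨0,[(0,0),(41,0)]⟩,⟨0,[(5,0),(2,0)]⟩⟩,.a ⟨true,0,⟨0,[(25,0)]⟩,⟨0,[(22,
  0)]⟩⟩ ⟨false,1,⟨1,[(39,0),(0,0)]⟩,⟨1,[(25,0),(0,0)]⟩⟩ ⟨true,0,⟨0,[(3,0),(18,0)]⟩,⟨0,[(5,0),(19,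
  0)]⟩⟩]⟩)))) (.Q [1,1,1,0,-1,0,1,0,1,-1,1,1] (.p true [0,0,1] [1,0,0,0,-1] (⟨0,[(25,0)]⟩,⟨0,[(24,
  0)]⟩) .k 2 (⟨0,[(17,0)]⟩,⟨0,[(18,0)]⟩) .k (.r (-1) ⟨9,[(12,4),(2,2),(0,2),(3,9),(11,0),(4,4)]⟩ ⟨1,
  [(3,0),(6,1),(23,0)]⟩)) (.I [1,0,0,-1,0,0,0,-1] (.Q [0,0,0,0,0,0,0,0,0,-1,2] (.ed false [0,0,2]
  (.r (-1) ⟨0,[(9,0),(0,0),(3,0),(24,0)]⟩ ⟨4,[(0,3),(4,1),(6,5),(20,1)]⟩)) (.Q [0,-1,0,0,0,0,-2,-2,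
  0,1,-2] (.p false [0,0,1] [1,0,-1] (⟨0,[(28,0)]⟩,⟨0,[(27,0)]⟩) .k 2 (⟨0,[(27,0)]⟩,⟨0,[(28,0)]⟩)
  .k (.r (-1) ⟨0,[(10,0),(0,0),(3,0),(24,0)]⟩ ⟨4,[(1,3),(4,1),(6,5),(20,1)]⟩)) (.Q [0,0,1,0,0,0,2,0,
  0,-1,2] (.p true [0,0,1] [1,0,-1] (⟨0,[(29,0)]⟩,⟨0,[(28,0)]⟩) .k 2 (⟨0,[(28,0)]⟩,⟨0,[(29,0)]⟩) .k
  (.r (-1) ⟨0,[(11,0),(0,0),(3,0),(24,0)]⟩ ⟨4,[(2,3),(4,1),(6,5),(20,1)]⟩)) (.R ⟨0,false,false,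
  false,[0,0,1],[1,0,-1],[1],(⟨0,[(30,0)]⟩,⟨0,[(29,0)]⟩),(⟨0,[(29,0)]⟩,⟨0,[(30,0)]⟩),⟨0,[(19,0)]⟩,
  .k,.k,.k,.k,.k,.k,⟨false,1,⟨1,[(12,0),(0,0),(3,0),(23,0),(0,0)]⟩,⟨4,[(3,1),(4,0),(6,2),(20,0)]⟩⟩,
  ⟨true,0,⟨0,[(17,0)]⟩,⟨0,[(0,0)]⟩⟩,⟨true,0,⟨4,[(3,1),(4,0),(6,2),(20,0)]⟩,⟨1,[(12,0),(0,0),(3,
  0)]⟩⟩,⟨false,0,⟨0,[(1,0)]⟩,⟨0,[(12,0),(0,0),(28,0)]⟩⟩,⟨false,0,⟨0,[]⟩,⟨0,[]⟩⟩,⟨false,0,⟨0,[]⟩,⟨0,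
  []⟩⟩,[.o ⟨false,0,⟨9,[(1,2),(1,1),(4,0),(0,2),(16,1),(1,1)]⟩,⟨9,[(20,0),(0,0),(3,9),(11,1),(4,
  4)]⟩⟩,.o ⟨false,1,⟨19,[(1,9),(18,10),(0,10),(15,1),(4,4)]⟩,⟨0,[(9,0),(2,0)]⟩⟩,.e ⟨true,0,⟨0,[]⟩,
  ⟨0,[(44,0)]⟩⟩ ⟨true,0,⟨9,[(1,3),(9,0),(5,5),(8,1),(9,0)]⟩,⟨0,[(9,0),(0,0),(1,0)]⟩⟩,.a ⟨true,0,⟨0,
  [(27,0)]⟩,⟨0,[(24,0)]⟩⟩ ⟨false,1,⟨1,[(41,0),(0,0)]⟩,⟨1,[(27,0),(0,0)]⟩⟩ ⟨true,0,⟨4,[(1,1),(6,0),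
  (0,0),(7,0),(6,2),(1,0)]⟩,⟨0,[(12,0),(1,0)]⟩⟩]⟩) (.I [0,0,0,0,0,1,1] (.C [(0,1),(0,0),(1,0),(28,
  1),(11,0)]) (.C [(0,0),(10,0),(8,0)]))) (.I [0,0,0,0,0,0,-1] (.C [(0,0),(0,0),(1,0),(11,0),(3,0),
  (4,0),(6,0)]) (.C [(0,1),(1,0),(21,0),(3,0)]))) (.Q [0,-1,0,0,0,0,-1,-2,0,0,-1] (.p false [0,0,1]
  [] (⟨0,[(28,0)]⟩,⟨0,[(27,0)]⟩) .k 0 (⟨0,[]⟩,⟨0,[]⟩) .k .k) (.R ⟨0,false,false,true,[0,0,1],[0,0,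
  2],[1,1],(⟨0,[(29,0)]⟩,⟨0,[(28,0)]⟩),(⟨0,[(29,1)]⟩,⟨0,[(1,0)]⟩),⟨0,[(18,0)]⟩,.k,.k,.k,.k,.k,.k,
  ⟨false,0,⟨2,[(0,1),(6,1),(1,1),(4,1),(20,0)]⟩,⟨0,[(11,0),(0,0),(3,0),(24,0)]⟩⟩,⟨true,0,⟨0,[(9,
  0)]⟩,⟨0,[(27,0)]⟩⟩,⟨false,0,⟨3,[(0,1),(9,0),(24,0)]⟩,⟨1,[(11,0),(0,0),(3,0),(24,1)]⟩⟩,⟨true,0,⟨0,
  [(24,0)]⟩,⟨10,[(0,3),(6,0),(0,0),(7,0),(8,2),(1,1)]⟩⟩,⟨false,0,⟨0,[]⟩,⟨0,[]⟩⟩,⟨false,0,⟨0,[]⟩,⟨0,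
  []⟩⟩,[.e ⟨false,0,⟨2,[(7,0),(27,0),(3,0)]⟩,⟨1,[(19,0),(0,0),(20,0)]⟩⟩ ⟨false,1,⟨1,[(11,0),(0,0),
  (3,0),(7,1),(15,0),(0,0)]⟩,⟨0,[(0,0)]⟩⟩,.o ⟨false,1,⟨0,[(11,0),(0,0),(28,0)]⟩,⟨10,[(0,7),(6,1),(0,
  1),(7,1),(8,5),(1,3)]⟩⟩,.e ⟨false,0,⟨0,[]⟩,⟨1,[(19,0),(0,0),(20,0)]⟩⟩ ⟨false,1,⟨1,[(11,0),(0,0),
  (3,0),(7,1),(16,1)]⟩,⟨0,[(0,0)]⟩⟩,.a ⟨true,0,⟨0,[(26,0)]⟩,⟨0,[(23,0)]⟩⟩ ⟨true,0,⟨2,[(7,0),(27,0),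
  (3,0)]⟩,⟨1,[(26,0),(0,0)]⟩⟩ ⟨false,1,⟨0,[(11,0),(0,0),(10,0),(17,0)]⟩,⟨1,[(0,1),(25,0),(0,
  0)]⟩⟩]⟩) (.Q [0,0,1,0,0,0,-2,0,0,0,-2] (.p false [0,0,1] [0,1,-1] (⟨0,[(29,0)]⟩,⟨0,[(28,0)]⟩) .k
  2 (⟨0,[(18,0)]⟩,⟨0,[(29,0),(3,0)]⟩) .k (.r (-1) ⟨9,[(0,9),(15,4),(2,2),(0,2),(15,0),(4,4)]⟩ ⟨4,
  [(2,3),(4,1),(6,5),(20,1)]⟩)) (.R ⟨0,false,false,true,[1,0,-2],[1,0,-1],[1,0,0,-1,0,0,0,-2],(⟨0,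
  [(2,0)]⟩,⟨0,[(30,1)]⟩),(⟨0,[(29,0)]⟩,⟨0,[(30,0)]⟩),⟨0,[(18,0),(11,0)]⟩,.k,.k,(.r 0 ⟨0,[(3,0),(4,
  0),(6,0)]⟩ ⟨1,[(1,1),(12,1),(2,1),(2,0),(0,0),(20,0)]⟩),.k,.k,.k,⟨false,1,⟨1,[(3,1),(37,0),(0,
  0)]⟩,⟨1,[(13,0),(3,0),(7,0),(14,0)]⟩⟩,⟨true,0,⟨0,[(10,0)]⟩,⟨0,[(28,0)]⟩⟩,⟨false,1,⟨0,[(39,0),(2,
  0)]⟩,⟨0,[(40,0)]⟩⟩,⟨true,0,⟨0,[(25,0)]⟩,⟨5,[(3,3),(5,2),(5,0),(1,1),(6,0),(1,0)]⟩⟩,⟨false,0,⟨0,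
  []⟩,⟨0,[]⟩⟩,⟨false,0,⟨0,[]⟩,⟨0,[]⟩⟩,[.o ⟨false,0,⟨0,[(26,0)]⟩,⟨0,[(9,0),(2,0),(29,0)]⟩⟩,.o ⟨false,
  0,⟨5,[(3,3),(5,2),(5,0),(1,1),(6,0),(1,0)]⟩,⟨39,[(1,19),(9,9),(8,8),(0,8),(15,7),(3,4),(0,9)]⟩⟩,
  .a ⟨true,0,⟨0,[(17,0)]⟩,⟨0,[(10,1)]⟩⟩ ⟨true,0,⟨4,[(3,6),(4,0),(6,2),(20,0)]⟩,⟨1,[(1,1),(7,0),(7,
  0),(22,0)]⟩⟩ ⟨false,0,⟨9,[(3,1),(4,5),(2,4),(3,7),(20,0)]⟩,⟨7,[(0,1),(0,3),(15,2),(6,1),(12,0),(4,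
  5)]⟩⟩,.o ⟨false,0,⟨0,[(0,0)]⟩,⟨4,[(10,7),(0,0),(25,0),(3,2)]⟩⟩]⟩) (.I [0,0,-1,0,0,1,-1] (.C [(0,
  1),(0,0),(1,1),(15,1),(12,3),(11,2)]) (.C [(0,0),(18,0),(5,0)]))))) (.Q [0,0,0,0,0,0,0,0,0,1,-2]
  (.ed true [0,0,2] (.r (-1) ⟨6,[(0,3),(8,3),(4,4),(7,5),(11,0),(4,4)]⟩ ⟨0,[(5,0),(6,1),(23,0)]⟩))
  (.Q [0,0,1,0,0,0,-2,0,0,0,-2] (.p false [0,0,1] [0,1,-1] (⟨0,[(28,0)]⟩,⟨0,[(27,0)]⟩) .k 2 (⟨0,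
  [(17,0)]⟩,⟨0,[(28,0),(3,0)]⟩) .k (.r (-1) ⟨6,[(1,3),(8,3),(4,4),(7,5),(11,0),(4,4)]⟩ ⟨0,[(6,0),(6,
  1),(23,0)]⟩)) (.R ⟨0,false,false,true,[1,0,-2],[1,0,-1],[1],(⟨0,[(1,0)]⟩,⟨0,[(29,1)]⟩),(⟨0,[(28,
  0)]⟩,⟨0,[(29,0)]⟩),⟨0,[(17,0),(11,0)]⟩,.k,.k,(.x 0 ⟨2,[(0,0),(15,2),(0,2),(8,1),(2,2)]⟩ ⟨5,[(1,5),
  (5,1),(0,1),(0,11),(23,5),(2,1),(3,0),(0,0)]⟩),.k,.k,.k,⟨false,1,⟨27,[(2,17),(4,7),(3,9),(11,9),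
  (12,1),(3,0),(0,22)]⟩,⟨7,[(7,1),(2,2),(3,1),(10,5),(9,0)]⟩⟩,⟨true,0,⟨0,[(9,0)]⟩,⟨0,[(27,0)]⟩⟩,
  ⟨false,1,⟨2,[(0,0),(1,2),(8,2),(5,0),(0,0),(4,0),(6,1),(10,2)]⟩,⟨0,[(7,0),(6,1),(23,0)]⟩⟩,⟨true,0,
  ⟨0,[(24,0)]⟩,⟨3,[(0,1),(6,2),(6,3),(23,0)]⟩⟩,⟨false,0,⟨0,[]⟩,⟨0,[]⟩⟩,⟨false,0,⟨0,[]⟩,⟨0,[]⟩⟩,[.o
  ⟨false,0,⟨0,[(25,0)]⟩,⟨0,[(8,0),(2,0),(29,0)]⟩⟩,.o ⟨false,0,⟨3,[(0,1),(6,2),(6,3),(23,0)]⟩,⟨9,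
  [(19,0),(0,0),(3,9),(11,1),(4,4)]⟩⟩,.a ⟨true,0,⟨0,[(16,0)]⟩,⟨0,[(9,1)]⟩⟩ ⟨true,0,⟨0,[]⟩,⟨0,[(43,
  0)]⟩⟩ ⟨false,0,⟨3,[(7,2),(2,1),(3,3),(23,0)]⟩,⟨25,[(0,3),(1,13),(4,1),(3,11),(4,14),(19,2),(4,
  19)]⟩⟩,.o ⟨false,0,⟨0,[(0,0)]⟩,⟨4,[(9,7),(0,0),(25,0),(3,2)]⟩⟩]⟩) (.I [0,0,-1,0,1,0,0,0,-1] (.I
  [0,0,-1,0,0,1,-1] (.C [(0,1),(1,0),(0,1),(15,1),(12,3),(11,2)]) (.C [(0,0),(18,0),(5,0)])) (.C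
  [(0,0),(5,0),(16,0)]))) (.Q [0,-1,0,0,1,0,2,2,0,-1,2] (.p true [0,0,1] [1,0,-1] (⟨0,[(28,0)]⟩,⟨0,
  [(27,0)]⟩) .k 2 (⟨0,[(27,0)]⟩,⟨0,[(28,0)]⟩) .k (.r (-1) ⟨6,[(1,3),(8,3),(4,4),(7,5),(11,0),(4,
  4)]⟩ ⟨0,[(6,0),(6,1),(23,0)]⟩)) (.Q [0,0,1,0,0,0,2,0,0,-1,2] (.p true [0,0,1] [1,0,-1] (⟨0,[(29,
  0)]⟩,⟨0,[(28,0)]⟩) .k 2 (⟨0,[(28,0)]⟩,⟨0,[(29,0)]⟩) .k (.r (-1) ⟨30,[(0,20),(15,30),(2,5),(0,5),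
  (3,19),(11,1),(6,0)]⟩ ⟨0,[(7,0),(6,1),(23,0)]⟩)) (.R ⟨0,false,false,true,[0,0,1],[1,0,-1],[1],(⟨0,
  [(30,0)]⟩,⟨0,[(29,0)]⟩),(⟨0,[(29,0)]⟩,⟨0,[(30,0)]⟩),⟨0,[(19,0)]⟩,.k,.k,.k,.k,.k,.k,⟨false,1,⟨11,
  [(1,5),(15,0),(6,9),(12,0),(3,0),(0,2)]⟩,⟨7,[(8,1),(2,2),(3,1),(10,5),(9,0)]⟩⟩,⟨true,0,⟨0,[(17,
  0)]⟩,⟨0,[(0,0)]⟩⟩,⟨true,0,⟨1,[(8,0),(6,1),(23,0)]⟩,⟨1,[(12,0),(0,0),(3,0)]⟩⟩,⟨false,0,⟨0,[(8,0),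
  (6,1),(1,0),(21,0)]⟩,⟨0,[(1,0)]⟩⟩,⟨false,0,⟨0,[]⟩,⟨0,[]⟩⟩,⟨false,0,⟨0,[]⟩,⟨0,[]⟩⟩,[.o ⟨false,0,⟨0,
  [(26,0)]⟩,⟨19,[(1,9),(18,0),(0,0),(15,1),(4,4)]⟩⟩,.o ⟨false,0,⟨0,[(8,0),(6,0),(12,0)]⟩,⟨30,[(1,
  10),(18,11),(0,11),(3,8),(11,3),(6,1)]⟩⟩,.a ⟨true,0,⟨0,[(10,0)]⟩,⟨2,[(11,0),(5,1),(6,0)]⟩⟩ ⟨true,
  0,⟨0,[]⟩,⟨0,[(44,0)]⟩⟩ ⟨false,0,⟨1,[(8,0),(6,1),(1,1),(21,0)]⟩,⟨3,[(0,1),(0,1),(39,0),(0,0)]⟩⟩,.e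
  ⟨false,1,⟨1,[(41,0),(0,0)]⟩,⟨1,[(27,0),(0,0)]⟩⟩ ⟨false,0,⟨0,[(8,0),(6,0),(1,0)]⟩,⟨19,[(1,9),(18,
  0),(0,0),(5,19),(9,1),(4,4)]⟩⟩]⟩) (.I [0,0,0,0,0,1,1] (.C [(0,1),(0,0),(1,0),(28,1),(11,0)]) (.C
  [(0,0),(10,0),(8,0)]))) (.I [0,0,0,0,0,0,-1] (.I [0,0,0,0,0,1,1] (.I [0,0,-1,0,1,0,0,0,-1] (.I [0,
  0,-1,0,0,1,-1] (.I [0,1,0,-1,0,1,1,1] (.C [(0,0),(2,0),(1,0),(0,0),(0,0),(27,1),(10,0)]) (.C [(0,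
  0),(15,0),(6,0)])) (.C [(0,0),(4,0),(16,0),(4,0)])) (.C [(0,0),(7,0),(16,0)])) (.C [(0,0),(10,0),
  (8,0)])) (.C [(0,1),(1,0),(21,0),(3,0)]))))) (.Q [1,-1,-1,0,0,0,-1,0,1,0,-1,1] (.p false [0,0,1]
  [0,0,0,0,1] (⟨0,[(26,0)]⟩,⟨0,[(25,0)]⟩) .k 2 (⟨0,[(19,0)]⟩,⟨0,[(18,0)]⟩) .k (.r (-1) ⟨39,[(12,8),
  (0,19),(3,8),(3,39),(11,3),(4,22),(1,5)]⟩ ⟨1,[(4,0),(6,1),(23,0)]⟩)) (.R ⟨0,false,false,false,[0,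
  0,1],[1,0,0,0,-1],[1],(⟨0,[(27,0)]⟩,⟨0,[(26,0)]⟩),(⟨0,[(19,0)]⟩,⟨0,[(20,0)]⟩),⟨0,[(16,0)]⟩,.k,.k,
  .k,.k,.k,.k,⟨true,0,⟨0,[]⟩,⟨0,[(40,0)]⟩⟩,⟨false,1,⟨7,[(1,5),(6,0),(5,1),(2,1),(15,2)]⟩,⟨0,[(2,0),
  (8,0),(23,0)]⟩⟩,⟨true,0,⟨1,[(5,0),(6,1),(23,0)]⟩,⟨1,[(9,0),(0,0),(3,0)]⟩⟩,⟨false,1,⟨0,[(1,0),(10,
  0),(23,0)]⟩,⟨0,[(2,0),(3,0),(2,0)]⟩⟩,⟨false,0,⟨0,[]⟩,⟨0,[]⟩⟩,⟨false,0,⟨0,[]⟩,⟨0,[]⟩⟩,[.o ⟨false,1,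
  ⟨0,[(13,0)]⟩,⟨0,[(4,0)]⟩⟩,.e ⟨false,1,⟨1,[(38,0),(0,0)]⟩,⟨0,[(41,0)]⟩⟩ ⟨false,1,⟨0,[(1,0)]⟩,⟨1,
  [(4,1),(3,0),(24,0)]⟩⟩,.a ⟨true,0,⟨0,[(7,0)]⟩,⟨2,[(8,0),(5,1),(6,0)]⟩⟩ ⟨true,0,⟨0,[]⟩,⟨0,[(41,
  0)]⟩⟩ ⟨false,1,⟨1,[(1,1),(22,0),(0,0)]⟩,⟨0,[(4,0),(2,0)]⟩⟩,.e ⟨false,1,⟨1,[(38,0),(0,0)]⟩,⟨1,[(24,
  0),(0,0)]⟩⟩ ⟨false,1,⟨0,[(1,0)]⟩,⟨0,[(4,0),(19,0)]⟩⟩]⟩) (.R ⟨2,true,false,false,[0,1],[0,0,0,0,1],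
  [1,0,1],(⟨0,[]⟩,⟨0,[]⟩),(⟨0,[(20,0)]⟩,⟨0,[(19,0)]⟩),⟨0,[]⟩,.k,.k,.k,(.r 0 ⟨4,[(11,1),(2,1),(9,1),
  (12,2),(2,0)]⟩ ⟨1,[(36,1),(1,0),(0,0)]⟩),.k,.k,⟨true,0,⟨1,[(24,0),(0,0)]⟩,⟨0,[]⟩⟩,⟨false,0,⟨0,
  [(18,0)]⟩,⟨0,[(3,0)]⟩⟩,⟨false,1,⟨0,[(36,0),(2,0)]⟩,⟨0,[(37,0)]⟩⟩,⟨true,0,⟨0,[(2,0),(33,0)]⟩,⟨0,
  [(0,0),(5,0),(14,0)]⟩⟩,⟨true,0,⟨0,[]⟩,⟨0,[(41,0)]⟩⟩,⟨false,0,⟨0,[(2,0)]⟩,⟨0,[(13,0)]⟩⟩,[]⟩)))))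
  (.R ⟨0,false,false,true,[0,1,-1],[1,0,0,0,-1],[1,1],(⟨0,[(12,0)]⟩,⟨0,[(23,0),(3,0)]⟩),(⟨0,[(15,
  0)]⟩,⟨0,[(16,0)]⟩),⟨0,[(23,0)]⟩,.k,.k,.k,(.r 0 ⟨0,[(8,0),(28,0)]⟩ ⟨33,[(1,7),(3,26),(0,6),(3,16),
  (19,1),(0,5),(2,5),(0,23)]⟩),.k,.k,⟨true,0,⟨0,[]⟩,⟨0,[(36,0)]⟩⟩,⟨false,0,⟨0,[(0,0),(2,0)]⟩,⟨2,
  [(10,0),(3,2),(2,0),(12,0),(3,0)]⟩⟩,⟨false,1,⟨5,[(5,5),(4,0),(6,3),(12,0),(3,0),(0,2)]⟩,⟨0,[(8,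
  0)]⟩⟩,⟨true,0,⟨0,[(0,0),(4,0)]⟩,⟨0,[(1,0),(0,0),(5,0),(5,0),(6,0)]⟩⟩,⟨false,0,⟨0,[]⟩,⟨0,[]⟩⟩,
  ⟨false,0,⟨0,[]⟩,⟨0,[]⟩⟩,[.o ⟨false,0,⟨0,[(0,0),(1,0),(29,0)]⟩,⟨9,[(13,0),(0,10),(15,1),(4,4)]⟩⟩,
  .a ⟨true,0,⟨0,[(0,0)]⟩,⟨0,[(14,0)]⟩⟩ ⟨true,0,⟨0,[]⟩,⟨1,[(20,0),(0,0)]⟩⟩ ⟨false,0,⟨0,[(0,0),(2,
  0)]⟩,⟨2,[(10,0),(3,2),(2,0),(12,0),(3,0)]⟩⟩,.o ⟨false,1,⟨2,[(10,0),(6,0),(12,0),(3,0)]⟩,⟨0,[(20,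
  0)]⟩⟩,.o ⟨false,1,⟨9,[(9,2),(0,4),(2,0),(0,3),(15,2)]⟩,⟨0,[(3,0)]⟩⟩]⟩))) (.R ⟨0,false,false,true,
  [0,1,-1],[0,1],[1,1],(⟨0,[(10,0)]⟩,⟨0,[(21,0),(3,0)]⟩),(⟨0,[(26,0)]⟩,⟨0,[(25,0)]⟩),⟨0,[(21,0)]⟩,
  .k,.k,.k,.k,.k,.k,⟨false,1,⟨1,[(29,1),(2,0),(0,0)]⟩,⟨1,[(5,0),(2,0),(9,0),(12,0)]⟩⟩,⟨true,0,⟨0,
  [(1,0)]⟩,⟨0,[(19,0)]⟩⟩,⟨false,1,⟨5,[(3,5),(4,0),(6,3),(12,0),(3,0),(0,2)]⟩,⟨0,[(6,0)]⟩⟩,⟨true,0,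
  ⟨0,[(16,0)]⟩,⟨1,[(6,1),(1,0),(0,0),(0,0),(11,1),(6,1)]⟩⟩,⟨false,0,⟨0,[]⟩,⟨0,[]⟩⟩,⟨false,0,⟨0,[]⟩,
  ⟨0,[]⟩⟩,[.o ⟨false,0,⟨7,[(4,0),(0,2),(3,3),(0,3),(6,0),(1,2),(2,7),(6,5),(1,9)]⟩,⟨9,[(0,9),(10,0),
  (0,0),(15,1),(4,4)]⟩⟩,.a ⟨true,0,⟨0,[(31,0)]⟩,⟨0,[(0,0)]⟩⟩ ⟨true,0,⟨0,[]⟩,⟨1,[(18,0),(0,0)]⟩⟩
  ⟨false,0,⟨0,[(1,0),(29,0)]⟩,⟨7,[(0,5),(7,3),(19,1),(0,1),(2,2),(0,0)]⟩⟩,.o ⟨false,1,⟨2,[(8,0),(6,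
  0),(12,0),(3,0)]⟩,⟨0,[(18,0)]⟩⟩,.o ⟨false,1,⟨9,[(7,2),(0,4),(2,0),(0,3),(15,2)]⟩,⟨0,[(1,0)]⟩⟩]⟩))

theorem ok100 : chk K t100 l54 = true := by decide +kernel


end Helper25.S1T.Ypp_1aP2
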