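import Pool.Agent.Helper25.S1T.Ypp_1aP2_q

set_option autoImplicit false
set_option linter.all false

namespace Helper25.S1T.Ypp_1aP2

open Helper25.KG Helper25.KW Helper55.KE Helper11.CT

noncomputable def t101 : Tre :=
  (.I [0,0,-1,-1,1,0,0,2] (.K ⟨0,[0,1,-1],0,0,(⟨0,[(10,0)]⟩,⟨0,[(21,0),(3,0)]⟩),.k,.k,(.x (-1) ⟨8,
  [(1,4),(13,3),(5,8),(0,16),(2,0),(2,0),(0,13),(1,13),(1,6)]⟩ ⟨1,[(10,1),(7,2),(0,0),(3,1)]⟩),(.r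
  0 ⟨3,[(2,0),(3,5),(10,1),(9,0),(1,1)]⟩ ⟨0,[(0,0)]⟩),.k,[⟨0,[(2,0)]⟩,⟨0,[(1,0)]⟩,⟨0,[(3,0)]⟩,⟨0,
  [(17,0),(13,0)]⟩]⟩) (.I [0,0,0,0,0,0,-1] (.I [-1,0,0,0,1,0,0,0,-1] (.I [0,1,0,-1,0,0,0,1] (.C [(0,
  1),(2,1),(2,0),(0,0),(4,0),(0,0),(4,1),(6,1),(10,1)]) (.C [(0,0),(3,0),(1,0)])) (.C [(0,0),(8,0),
  (6,0)])) (.C [(0,0),(1,0),(7,0),(15,0)])))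

theorem ok101 : chk K t101 r54 = true := by decide +kernel

noncomputable def t103 : Tre :=
  (.R ⟨0,false,false,false,[0,0,1],[0,1,-1],[1,1,0,-1,0,0,0,1],(⟨0,[(19,0)]⟩,⟨0,[(18,0)]⟩),(⟨0,[(8,
  0)]⟩,⟨0,[(19,0),(3,0)]⟩),⟨0,[(8,0)]⟩,.k,.k,.k,(.r (-1) ⟨0,[(0,0),(0,0),(12,0),(16,0)]⟩ ⟨2,[(4,4),
  (10,0),(0,0),(8,0),(1,1)]⟩),.k,.k,⟨false,1,⟨1,[(0,1),(0,3),(28,0),(0,0)]⟩,⟨0,[(4,1),(22,0),(1,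
  0)]⟩⟩,⟨true,0,⟨0,[(0,0)]⟩,⟨0,[(16,1)]⟩⟩,⟨true,0,⟨0,[(28,0)]⟩,⟨0,[(29,0)]⟩⟩,⟨false,0,⟨0,[(0,0),(3,
  1),(22,0)]⟩,⟨0,[(1,0),(12,0),(16,0)]⟩⟩,⟨false,0,⟨0,[]⟩,⟨0,[]⟩⟩,⟨false,0,⟨0,[]⟩,⟨0,[]⟩⟩,[.o ⟨false,
  0,⟨0,[(0,0),(2,0),(0,0),(22,0)]⟩,⟨1,[(1,1),(7,0),(0,0),(20,0)]⟩⟩,.o ⟨false,1,⟨17,[(0,1),(3,17),(1,
  6),(19,4),(3,7)]⟩,⟨0,[(1,0)]⟩⟩,.o ⟨false,1,⟨9,[(9,0),(0,0),(5,9),(9,1),(3,4)]⟩,⟨2,[(0,0),(16,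
  0)]⟩⟩,.a ⟨true,0,⟨0,[(16,0)]⟩,⟨0,[(13,0)]⟩⟩ ⟨false,1,⟨17,[(0,3),(0,17),(4,4),(19,0),(3,6),(0,8)]⟩,
  ⟨0,[(4,0)]⟩⟩ ⟨true,0,⟨0,[(0,0),(3,0),(22,0),(1,0)]⟩,⟨0,[(1,0),(14,0)]⟩⟩]⟩)

theorem ok103 : chk K t103 r53 = true := by decide +kernel

noncomputable def t106 : Tre :=
  (.I [1,1,0,0,0,0,0,1] (.R ⟨0,false,false,true,[-1,1,1],[0,0,1],[0,0,1],(⟨0,[(6,0)]⟩,⟨0,[(17,0),(4,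
  0)]⟩),(⟨0,[(18,0)]⟩,⟨0,[(17,0)]⟩),⟨0,[(17,0)]⟩,.k,.k,.k,.k,.k,.k,⟨true,0,⟨0,[(1,0),(0,0)]⟩,⟨0,[(0,
  0)]⟩⟩,⟨false,0,⟨0,[(12,0),(2,0)]⟩,⟨9,[(8,0),(0,0),(15,1),(3,4)]⟩⟩,⟨true,0,⟨0,[(1,0),(0,0),(23,
  0)]⟩,⟨0,[(0,0),(27,0)]⟩⟩,⟨false,0,⟨0,[(1,0),(11,0)]⟩,⟨9,[(8,0),(0,0),(15,1),(2,9),(1,4)]⟩⟩,⟨false,
  0,⟨0,[]⟩,⟨0,[]⟩⟩,⟨false,0,⟨0,[]⟩,⟨0,[]⟩⟩,[.a ⟨true,0,⟨0,[(13,0)]⟩,⟨1,[(1,0),(1,0),(8,0)]⟩⟩ ⟨true,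
  0,⟨1,[(15,0),(0,0)]⟩,⟨0,[]⟩⟩ ⟨false,0,⟨1,[(5,0),(6,0),(0,1),(1,0)]⟩,⟨3,[(3,3),(2,3),(0,3),(11,7),
  (6,5),(1,1),(0,0),(0,2)]⟩⟩,.o ⟨false,1,⟨9,[(8,0),(0,0),(3,9),(11,1),(4,4)]⟩,⟨1,[(3,1),(1,0),(0,0),
  (0,0),(11,1),(6,1)]⟩⟩,.o ⟨false,1,⟨0,[(2,0),(3,0),(0,0),(11,1),(6,1),(1,0),(1,0)]⟩,⟨0,[(5,0),(9,
  0)]⟩⟩,.o ⟨false,1,⟨7,[(2,5),(12,1),(9,1),(0,5),(2,0),(0,2)]⟩,⟨1,[(5,0),(6,0),(2,0)]⟩⟩]⟩) (.I [-1,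
  0,0,0,1,0,0,0,-1] (.I [0,0,-1,0,0,1,-1] (.C [(0,0),(1,0),(6,0),(5,0),(5,1),(11,0)]) (.C [(0,0),(7,
  0),(5,0)])) (.C [(0,0),(4,0),(6,0)])))

theorem ok106 : chk K t106 r34 = true := by decide +kernel


end Helper25.S1T.Ypp_1aP2
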