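import Pool.Agent.Helper25.S1T.Ypp_1aP2_p0
import Pool.Agent.Helper25.S1T.Ypp_1aP2_p1
import Pool.Agent.Helper25.S1T.Ypp_1aP2_p2
import Pool.Agent.Helper25.S1T.Ypp_1aP2_p3
import Pool.Agent.Helper25.S1T.Ypp_1aP2_p4

set_option autoImplicit false
set_option linter.all false

namespace Helper25.S1T.Ypp_1aP2

open Helper25.KG Helper25.KW Helper55.KE Helper11.CT

noncomputable def t9 : Tre :=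
  .Q [-1,-1,0,0,1,0,1,0,-1,0,1,-1] (.p true [0,0,1] [0,0,0,0,1] (⟨0,[(25,0)]⟩,⟨0,[(24,0)]⟩) .k 2
  (⟨0,[(18,0)]⟩,⟨0,[(17,0)]⟩) .k (.r (-1) ⟨25,[(9,2),(1,5),(0,12),(7,25),(11,1),(4,15),(1,5)]⟩ ⟨1,
  [(3,0),(0,0),(28,0)]⟩)) t7 t8

theorem ok9 : chk K t9 l11 = true :=
  chk_Q (e' := [1,1,0,0,-1,0,-1,0,1,0,-1,1]) (by decide +kernel) (by decide +kernel) ok7 ok8

noncomputable def t11 : Tre :=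
  .Q [0,0,-1,0,0,0,-1,0,1,0,-1,1] (.p false [0,0,1] [0,0,0,0,1] (⟨0,[(24,0)]⟩,⟨0,[(23,0)]⟩) .k 2
  (⟨0,[(17,0)]⟩,⟨0,[(16,0)]⟩) .k (.r (-1) ⟨25,[(8,2),(1,5),(0,12),(7,25),(11,1),(4,15),(1,5)]⟩ ⟨1,
  [(2,0),(0,0),(28,0)]⟩)) t9 t10

theorem ok11 : chk K t11 r10 = true :=
  chk_Q (e' := [0,0,1,0,0,0,1,0,-1,0,1,-1]) (by decide +kernel) (by decide +kernel) ok9 ok10

noncomputable def t12 : Tre :=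
  .Q [0,0,1,0,-1,0,0,0,1,0,0,1] (.p true [0,0,0,0,1] [] (⟨0,[(16,0)]⟩,⟨0,[(15,0)]⟩) .k 0 (⟨0,[]⟩,⟨0,
  []⟩) .k .k) t6 t11

theorem ok12 : chk K t12 r9 = true :=
  chk_Q (e' := [0,0,-1,0,1,0,0,0,-1,0,0,-1]) (by decide +kernel) (by decide +kernel) ok6 ok11

noncomputable def t13 : Tre :=
  .Q [0,0,0,0,0,0,-1,0,0,0,-1] (.p false [0,0,1] [] (⟨0,[(22,0)]⟩,⟨0,[(21,0)]⟩) .k 0 (⟨0,[]⟩,⟨0,
  []⟩) .k .k) t5 t12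

theorem ok13 : chk K t13 r8 = true :=
  chk_Q (e' := [0,0,0,0,0,0,1,0,0,0,1]) (by decide +kernel) (by decide +kernel) ok5 ok12

noncomputable def t14 : Tre :=
  .Q [0,0,-1,0,0,0,-2,0,0,0,-2] (.p false [0,0,1] [0,1,-1] (⟨0,[(21,0)]⟩,⟨0,[(20,0)]⟩) .k 2 (⟨0,
  [(10,0)]⟩,⟨0,[(21,0),(3,0)]⟩) .k (.x (-1) ⟨1,[(2,1),(7,1),(7,1),(1,1),(1,1),(6,1),(2,0),(0,0)]⟩
  ⟨0,[(9,1),(5,1),(6,1),(11,1)]⟩)) t4 t13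

theorem ok14 : chk K t14 l7 = true :=
  chk_Q (e' := [0,0,1,0,0,0,2,0,0,0,2]) (by decide +kernel) (by decide +kernel) ok4 ok13

noncomputable def t16 : Tre :=
  .Q [0,-1,0,1,0,0,-2,-2,0,0,-2] (.p false [0,0,1] [0,1,-1] (⟨0,[(20,0)]⟩,⟨0,[(19,0)]⟩) .k 2 (⟨0,
  [(9,0)]⟩,⟨0,[(20,0),(3,0)]⟩) .k (.x (-1) ⟨1,[(1,1),(7,1),(7,1),(1,1),(1,1),(6,1),(2,0),(0,0)]⟩ ⟨0,
  [(8,1),(5,1),(6,1),(11,1)]⟩)) t14 t15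

theorem ok16 : chk K t16 r6 = true :=
  chk_Q (e' := [0,1,0,-1,0,0,2,2,0,0,2]) (by decide +kernel) (by decide +kernel) ok14 ok15

noncomputable def t17 : Tre :=
  .Q [0,0,0,-1,0,0,0,0,0,1] (.pp false [-1,1]) t3 t16

theorem ok17 : chk K t17 r5 = true :=
  chk_Q (e' := [0,0,0,1,0,0,0,0,0,-1]) (by decide +kernel) (by decide +kernel) ok3 ok16

noncomputable def t18 : Tre :=
  .Q [0,0,-1,-1,0,0,-1,0,0,1,-1] (.p false [0,0,1] [1] (⟨0,[(18,0)]⟩,⟨0,[(17,0)]⟩) .k 1 (⟨0,[]⟩,⟨0,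
  []⟩) .k .k) t2 t17

theorem ok18 : chk K t18 l4 = true :=
  chk_Q (e' := [0,0,1,1,0,0,1,0,0,-1,1]) (by decide +kernel) (by decide +kernel) ok2 ok17

noncomputable def t22 : Tre :=
  .I [0,0,0,0,0,0,0,1] t20 t21

theorem ok22 : chk K t22 r14 = true :=
  chk_I (e' := [1,0,0,0,0,0,0,-1]) (by decide +kernel) (by decide +kernel) ok20 ok21

noncomputable def t23 : Tre :=
  .Q [0,0,0,0,0,0,-1,0,0,0,-1] (.p false [0,0,1] [] (⟨0,[(19,0)]⟩,⟨0,[(18,0)]⟩) .k 0 (⟨0,[]⟩,⟨0,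
  []⟩) .k .k) t19 t22

theorem ok23 : chk K t23 l13 = true :=
  chk_Q (e' := [0,0,0,0,0,0,1,0,0,0,1]) (by decide +kernel) (by decide +kernel) ok19 ok22

noncomputable def t25 : Tre :=
  .Q [0,0,0,0,0,0,1,1,0,0,1] (.p true [0,0,1] [] (⟨0,[(18,0)]⟩,⟨0,[(17,0)]⟩) .k 0 (⟨0,[]⟩,⟨0,[]⟩)
  .k .k) t23 t24

theorem ok25 : chk K t25 r4 = true :=
  chk_Q (e' := [0,0,0,0,0,0,-1,-1,0,0,-1]) (by decide +kernel) (by decide +kernel) ok23 ok24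

noncomputable def t26 : Tre :=
  .I [0,-1,2,1,0,0,0,-1] t18 t25

theorem ok26 : chk K t26 l3 = true :=
  chk_I (e' := [1,1,-2,-1,0,0,0,1]) (by decide +kernel) (by decide +kernel) ok18 ok25

noncomputable def t35 : Tre :=
  .Q [1,0,0,-1,0,0,1,0,1,0,1,1] (.p true [1,-1,1] [1,0,0,0,-1] (⟨0,[(26,0),(3,0)]⟩,⟨0,[(15,0)]⟩) .k
  2 (⟨0,[(18,0)]⟩,⟨0,[(19,0)]⟩) .k (.r 0 ⟨5,[(0,1),(8,1),(3,2),(0,0),(0,0),(11,1)]⟩ ⟨3,[(8,1),(3,0),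
  (4,0),(19,0)]⟩)) t33 t34

theorem ok35 : chk K t35 r24 = true :=
  chk_Q (e' := [-1,0,0,1,0,0,-1,0,-1,0,-1,-1]) (by decide +kernel) (by decide +kernel) ok33 ok34

noncomputable def t36 : Tre :=
  .Q [0,0,0,-1,0,0,-2,-2,0,2,-2] (.p false [0,0,1] [2,-1,-1] (⟨0,[(25,0)]⟩,⟨0,[(24,0)]⟩) .k 2 (⟨0,
  [(24,0),(4,0)]⟩,⟨0,[(13,0)]⟩) .k (.x (-1) ⟨99,[(4,187),(2,5),(12,11),(3,199),(7,39),(3,2),(0,10),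
  (1,9)]⟩ ⟨0,[(13,1),(5,1),(6,1),(11,1)]⟩)) t32 t35

theorem ok36 : chk K t36 l23 = true :=
  chk_Q (e' := [0,0,0,1,0,0,2,2,0,-2,2]) (by decide +kernel) (by decide +kernel) ok32 ok35

noncomputable def t38 : Tre :=
  .Q [-1,-1,0,0,1,0,0,0,-1,0,0,-1] (.p false [0,0,0,0,1] [] (⟨0,[(17,0)]⟩,⟨0,[(16,0)]⟩) .k 0 (⟨0,
  []⟩,⟨0,[]⟩) .k .k) t36 t37

theorem ok38 : chk K t38 r22 = true :=
  chk_Q (e' := [1,1,0,0,-1,0,0,0,1,0,0,1]) (by decide +kernel) (by decide +kernel) ok36 ok37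

noncomputable def t39 : Tre :=
  .Q [0,0,-1,0,0,0,0,0,-1,1,0,-1] (.p false [0,0,0,0,1] [1] (⟨0,[(16,0)]⟩,⟨0,[(15,0)]⟩) .k 1 (⟨0,
  []⟩,⟨0,[]⟩) .k .k) t31 t38

theorem ok39 : chk K t39 r21 = true :=
  chk_Q (e' := [0,0,1,0,0,0,0,0,1,-1,0,1]) (by decide +kernel) (by decide +kernel) ok31 ok38

noncomputable def t40 : Tre :=
  .I [0,-1,2,1] t30 t39

theorem ok40 : chk K t40 r20 = true :=
  chk_I (e' := [1,1,-2,-1]) (by decide +kernel) (by decide +kernel) ok30 ok39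

noncomputable def t41 : Tre :=
  .Q [0,0,1,0,-1,0,0,0,1,0,0,1] (.p true [0,0,0,0,1] [] (⟨0,[(14,0)]⟩,⟨0,[(13,0)]⟩) .k 0 (⟨0,[]⟩,⟨0,
  []⟩) .k .k) t29 t40

theorem ok41 : chk K t41 r19 = true :=
  chk_Q (e' := [0,0,-1,0,1,0,0,0,-1,0,0,-1]) (by decide +kernel) (by decide +kernel) ok29 ok40

noncomputable def t42 : Tre :=
  .Q [0,0,0,0,0,0,-1,0,0,0,-1] (.p false [0,0,1] [] (⟨0,[(20,0)]⟩,⟨0,[(19,0)]⟩) .k 0 (⟨0,[]⟩,⟨0,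
  []⟩) .k .k) t28 t41

theorem ok42 : chk K t42 l18 = true :=
  chk_Q (e' := [0,0,0,0,0,0,1,0,0,0,1]) (by decide +kernel) (by decide +kernel) ok28 ok41

noncomputable def t44 : Tre :=
  .Q [0,0,0,0,0,0,1,1,0,0,1] (.p true [0,0,1] [] (⟨0,[(19,0)]⟩,⟨0,[(18,0)]⟩) .k 0 (⟨0,[]⟩,⟨0,[]⟩)
  .k .k) t42 t43

theorem ok44 : chk K t44 l17 = true :=
  chk_Q (e' := [0,0,0,0,0,0,-1,-1,0,0,-1]) (by decide +kernel) (by decide +kernel) ok42 ok43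

noncomputable def t51 : Tre :=
  .Q [0,0,0,0,0,0,1,1,0,-1,1] (.p true [0,0,1] [1] (⟨0,[(25,0)]⟩,⟨0,[(24,0)]⟩) .k 1 (⟨0,[]⟩,⟨0,[]⟩)
  .k .k) t49 t50

theorem ok51 : chk K t51 r31 = true :=
  chk_Q (e' := [0,0,0,0,0,0,-1,-1,0,1,-1]) (by decide +kernel) (by decide +kernel) ok49 ok50

noncomputable def t52 : Tre :=
  .Q [0,0,1,0,-1,0,0,0,1,0,0,1] (.p true [0,0,0,0,1] [] (⟨0,[(17,0)]⟩,⟨0,[(16,0)]⟩) .k 0 (⟨0,[]⟩,⟨0,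
  []⟩) .k .k) t48 t51

theorem ok52 : chk K t52 r30 = true :=
  chk_Q (e' := [0,0,-1,0,1,0,0,0,-1,0,0,-1]) (by decide +kernel) (by decide +kernel) ok48 ok51

noncomputable def t53 : Tre :=
  .Q [0,0,-1,0,0,0,0,0,-1,1,0,-1] (.p false [0,0,0,0,1] [1] (⟨0,[(16,0)]⟩,⟨0,[(15,0)]⟩) .k 1 (⟨0,
  []⟩,⟨0,[]⟩) .k .k) t47 t52

theorem ok53 : chk K t53 r29 = true :=
  chk_Q (e' := [0,0,1,0,0,0,0,0,1,-1,0,1]) (by decide +kernel) (by decide +kernel) ok47 ok52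

noncomputable def t54 : Tre :=
  .Q [0,0,0,0,0,0,-1,0,0,0,-1] (.p false [0,0,1] [] (⟨0,[(22,0)]⟩,⟨0,[(21,0)]⟩) .k 0 (⟨0,[]⟩,⟨0,
  []⟩) .k .k) t46 t53

theorem ok54 : chk K t54 r28 = true :=
  chk_Q (e' := [0,0,0,0,0,0,1,0,0,0,1]) (by decide +kernel) (by decide +kernel) ok46 ok53

noncomputable def t55 : Tre :=
  .Q [0,0,-1,0,0,0,-2,0,0,0,-2] (.p false [0,0,1] [0,1,-1] (⟨0,[(21,0)]⟩,⟨0,[(20,0)]⟩) .k 2 (⟨0,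
  [(10,0)]⟩,⟨0,[(21,0),(3,0)]⟩) .k (.x (-1) ⟨3,[(10,7),(7,7),(3,7),(6,5),(1,5),(0,0),(0,2)]⟩ ⟨0,[(9,
  1),(5,1),(6,1),(11,1)]⟩)) t45 t54

theorem ok55 : chk K t55 l27 = true :=
  chk_Q (e' := [0,0,1,0,0,0,2,0,0,0,2]) (by decide +kernel) (by decide +kernel) ok45 ok54

noncomputable def t57 : Tre :=
  .I [1,1,0,1,0,0,0,-1] t55 t56

theorem ok57 : chk K t57 l26 = true :=
  chk_I (e' := [0,-1,0,-1,0,0,0,1]) (by decide +kernel) (by decide +kernel) ok55 ok56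

noncomputable def t59 : Tre :=
  .Q [0,-1,0,1,1,0,-2,-2,0,0,-2] (.p false [0,0,1] [0,1,-1] (⟨0,[(19,0)]⟩,⟨0,[(18,0)]⟩) .k 2 (⟨0,
  [(8,0)]⟩,⟨0,[(19,0),(3,0)]⟩) .k (.x (-1) ⟨3,[(8,7),(7,7),(3,7),(6,5),(1,5),(0,0),(0,2)]⟩ ⟨0,[(7,
  1),(5,1),(6,1),(11,1)]⟩)) t57 t58

theorem ok59 : chk K t59 r17 = true :=
  chk_Q (e' := [0,1,0,-1,-1,0,2,2,0,0,2]) (by decide +kernel) (by decide +kernel) ok57 ok58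

noncomputable def t60 : Tre :=
  .Q [0,0,0,1,0,0,-1,-1,0,0,-1] (.p false [0,0,1] [] (⟨0,[(18,0)]⟩,⟨0,[(17,0)]⟩) .k 0 (⟨0,[]⟩,⟨0,
  []⟩) .k .k) t44 t59

theorem ok60 : chk K t60 r16 = true :=
  chk_Q (e' := [0,0,0,-1,0,0,1,1,0,0,1]) (by decide +kernel) (by decide +kernel) ok44 ok59

noncomputable def t61 : Tre :=
  .I [1,0,-1,0,-1,0,0,2] t27 t60

theorem ok61 : chk K t61 r3 = true :=
  chk_I (e' := [0,0,1,0,1,0,0,-2]) (by decide +kernel) (by decide +kernel) ok27 ok60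

noncomputable def t62 : Tre :=
  .Q [0,0,0,1,0,0,-1,-1,0,-1,-1] (.p false [1,-1,1] [] (⟨0,[(16,0),(3,0)]⟩,⟨0,[(5,0)]⟩) .k 0 (⟨0,
  []⟩,⟨0,[]⟩) .k .k) t26 t61

theorem ok62 : chk K t62 r2 = true :=
  chk_Q (e' := [0,0,0,-1,0,0,1,1,0,1,1]) (by decide +kernel) (by decide +kernel) ok26 ok61

noncomputable def t63 : Tre :=
  .Q [-2,0,0,0,0,0,0,0,-2,1,0,-2] (.p false [0,0,0,0,1] [1,0,0,0,-1] (⟨0,[(8,0)]⟩,⟨0,[(7,0)]⟩) .k 2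
  (⟨0,[(7,0)]⟩,⟨0,[(8,0)]⟩) .k (.r 0 ⟨0,[]⟩ ⟨3,[(1,2),(4,2),(20,0),(1,1)]⟩)) t1 t62

theorem ok63 : chk K t63 l1 = true :=
  chk_Q (e' := [2,0,0,0,0,0,0,0,2,-1,0,2]) (by decide +kernel) (by decide +kernel) ok1 ok62

noncomputable def t76 : Tre :=
  .Q [-1,0,1,0,0,0,-1,-1,-2,3,-1,-2] (.p false [-1,1,0,0,1] [2,0,-1,0,-1] (⟨0,[(0,0),(21,0)]⟩,⟨0,
  [(25,0),(11,0)]⟩) (.r 0 ⟨4,[(9,1),(1,0),(5,1),(0,1),(1,0),(22,0)]⟩ ⟨1,[(42,1),(1,0),(0,0)]⟩) 2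
  (⟨0,[(25,0),(6,0)]⟩,⟨0,[(0,0)]⟩) .k (.r (-1) ⟨1,[(5,0),(14,0),(2,0),(4,0),(16,0)]⟩ ⟨0,[(1,0),(6,
  0),(5,1),(31,0)]⟩)) t74 t75

theorem ok76 : chk K t76 l50 = true :=
  chk_Q (e' := [1,0,-1,0,0,0,1,1,2,-3,1,2]) (by decide +kernel) (by decide +kernel) ok74 ok75

noncomputable def t78 : Tre :=
  .Q [0,0,0,0,0,0,0,0,0,-1,1,1] (.ed false [0,0,1,0,1] (.r (-1) ⟨1,[(4,0),(14,0),(2,0),(4,0),(16,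
  0)]⟩ ⟨0,[(17,0),(22,0)]⟩)) t76 t77

theorem ok78 : chk K t78 r49 = true :=
  chk_Q (e' := [0,0,0,0,0,0,0,0,0,1,-1,-1]) (by decide +kernel) (by decide +kernel) ok76 ok77

noncomputable def t79 : Tre :=
  .Q [0,0,1,0,0,0,1,0,-1,1,1,-1] (.p false [0,0,-1,0,1] [1] (⟨0,[(4,0)]⟩,⟨0,[(23,0),(7,0)]⟩) .k 1
  (⟨0,[]⟩,⟨0,[]⟩) .k (.r 0 ⟨0,[(16,0),(22,0)]⟩ ⟨13,[(3,3),(3,9),(1,5),(0,3),(10,1),(20,0),(0,6)]⟩))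
  t73 t78

theorem ok79 : chk K t79 r48 = true :=
  chk_Q (e' := [0,0,-1,0,0,0,-1,0,1,-1,-1,1]) (by decide +kernel) (by decide +kernel) ok73 ok78

noncomputable def t80 : Tre :=
  .Q [0,0,0,0,0,0,1,0,-1,1,1,-1] (.p false [0,0,-1,0,1] [1] (⟨0,[(3,0)]⟩,⟨0,[(22,0),(7,0)]⟩) .k 1
  (⟨0,[]⟩,⟨0,[]⟩) .k (.r 0 ⟨0,[(15,0),(22,0)]⟩ ⟨13,[(2,3),(3,9),(1,5),(0,3),(10,1),(20,0),(0,6)]⟩))
  t72 t79

theorem ok80 : chk K t80 r47 = true :=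
  chk_Q (e' := [0,0,0,0,0,0,-1,0,1,-1,-1,1]) (by decide +kernel) (by decide +kernel) ok72 ok79

noncomputable def t81 : Tre :=
  .Q [1,-1,0,0,0,0,-1,-1,1,0,-1,1] (.p true [0,0,-1,0,1] [] (⟨0,[(2,0)]⟩,⟨0,[(21,0),(7,0)]⟩) .k 0
  (⟨0,[]⟩,⟨0,[]⟩) .k (.r 0 ⟨0,[(14,0),(22,0)]⟩ ⟨13,[(1,3),(3,9),(1,5),(0,3),(10,1),(20,0),(0,6)]⟩))
  t71 t80

theorem ok81 : chk K t81 r46 = true :=
  chk_Q (e' := [-1,1,0,0,0,0,1,1,-1,0,1,-1]) (by decide +kernel) (by decide +kernel) ok71 ok80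

noncomputable def t82 : Tre :=
  .Q [-1,0,0,0,0,0,0,0,-1,1,0,-1] (.p false [0,0,0,0,1] [1] (⟨0,[(21,0)]⟩,⟨0,[(20,0)]⟩) .k 1 (⟨0,
  []⟩,⟨0,[]⟩) .k .k) t70 t81

theorem ok82 : chk K t82 l45 = true :=
  chk_Q (e' := [1,0,0,0,0,0,0,0,1,-1,0,1]) (by decide +kernel) (by decide +kernel) ok70 ok81

noncomputable def t84 : Tre :=
  .Q [1,1,0,0,0,0,1,1,1,-1,1,1] (.p true [0,0,1] [1,0,0,0,-1] (⟨0,[(27,0)]⟩,⟨0,[(26,0)]⟩) .k 2 (⟨0,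
  [(19,0)]⟩,⟨0,[(20,0)]⟩) .k (.r (-1) ⟨1,[(3,0),(1,0),(0,0),(15,0),(16,0)]⟩ ⟨0,[(12,0),(22,0)]⟩))
  t82 t83

theorem ok84 : chk K t84 l44 = true :=
  chk_Q (e' := [-1,-1,0,0,0,0,-1,-1,-1,1,-1,-1]) (by decide +kernel) (by decide +kernel) ok82 ok83

noncomputable def t87 : Tre :=
  .Q [0,0,1,0,0,0,-1,0,-1,1,-1,-1] (.p false [0,0,1] [1,0,0,0,-1] (⟨0,[(27,0)]⟩,⟨0,[(26,0)]⟩) .k 2
  (⟨0,[(19,0)]⟩,⟨0,[(20,0)]⟩) .k (.r (-1) ⟨1,[(3,0),(1,0),(0,0),(15,0),(16,0)]⟩ ⟨0,[(12,0),(22,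
  0)]⟩)) t85 t86

theorem ok87 : chk K t87 r44 = true :=
  chk_Q (e' := [0,0,-1,0,0,0,1,0,1,-1,1,1]) (by decide +kernel) (by decide +kernel) ok85 ok86

noncomputable def t88 : Tre :=
  .Q [0,0,0,0,0,0,0,0,0,0,-1,1] (.ed false [1,0,-1,0,1] (.r 0 ⟨0,[(11,0),(22,0)]⟩ ⟨1,[(2,0),(1,0),
  (0,0),(15,0),(16,0)]⟩)) t84 t87

theorem ok88 : chk K t88 l43 = true :=
  chk_Q (e' := [0,0,0,0,0,0,0,0,0,0,1,-1]) (by decide +kernel) (by decide +kernel) ok84 ok87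

noncomputable def t90 : Tre :=
  .Q [-2,0,0,1,0,0,0,0,-2,1,0,-2] (.p false [0,0,0,0,1] [1,0,0,0,-1] (⟨0,[(18,0)]⟩,⟨0,[(17,0)]⟩) .k
  2 (⟨0,[(17,0)]⟩,⟨0,[(18,0)]⟩) .k (.r 0 ⟨0,[]⟩ ⟨15,[(3,5),(7,11),(15,5),(1,5),(6,2),(0,0),(1,
  1)]⟩)) t88 t89

theorem ok90 : chk K t90 r42 = true :=
  chk_Q (e' := [2,0,0,-1,0,0,0,0,2,-1,0,2]) (by decide +kernel) (by decide +kernel) ok88 ok89

noncomputable def t91 : Tre :=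
  .Q [1,0,0,0,0,0,1,1,1,-1,1,1] (.p true [0,0,1] [1,0,0,0,-1] (⟨0,[(24,0)]⟩,⟨0,[(23,0)]⟩) .k 2 (⟨0,
  [(16,0)]⟩,⟨0,[(17,0)]⟩) .k (.r (-1) ⟨1,[(0,0),(1,0),(0,0),(15,0),(16,0)]⟩ ⟨0,[(9,0),(22,0)]⟩))
  t69 t90

theorem ok91 : chk K t91 r41 = true :=
  chk_Q (e' := [-1,0,0,0,0,0,-1,-1,-1,1,-1,-1]) (by decide +kernel) (by decide +kernel) ok69 ok90

noncomputable def t92 : Tre :=
  .Q [1,-1,0,0,0,0,0,-1,1,-1,0,1] (.p true [0,0,0,0,1] [1] (⟨0,[(16,0)]⟩,⟨0,[(15,0)]⟩) .k 1 (⟨0,[]⟩,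
  ⟨0,[]⟩) .k .k) t68 t91

theorem ok92 : chk K t92 l40 = true :=
  chk_Q (e' := [-1,1,0,0,0,0,0,1,-1,1,0,-1]) (by decide +kernel) (by decide +kernel) ok68 ok91

noncomputable def t94 : Tre :=
  .Q [-1,1,0,0,0,0,0,0,-1,0,0,-1] (.p false [0,0,0,0,1] [] (⟨0,[(15,0)]⟩,⟨0,[(14,0)]⟩) .k 0 (⟨0,[]⟩,
  ⟨0,[]⟩) .k .k) t92 t93

theorem ok94 : chk K t94 r39 = true :=
  chk_Q (e' := [1,-1,0,0,0,0,0,0,1,0,0,1]) (by decide +kernel) (by decide +kernel) ok92 ok93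

noncomputable def t95 : Tre :=
  .Q [0,0,-1,0,0,0,0,0,-2,1,0,-2] (.p false [0,0,0,0,1] [1,0,0,0,-1] (⟨0,[(14,0)]⟩,⟨0,[(13,0)]⟩) .k
  2 (⟨0,[(13,0)]⟩,⟨0,[(14,0)]⟩) .k (.r 0 ⟨0,[]⟩ ⟨3,[(7,2),(4,2),(20,0),(1,1)]⟩)) t67 t94

theorem ok95 : chk K t95 l38 = true :=
  chk_Q (e' := [0,0,1,0,0,0,0,0,2,-1,0,2]) (by decide +kernel) (by decide +kernel) ok67 ok94

noncomputable def t97 : Tre :=
  .Q [0,0,-1,0,1,0,-1,0,-1,0,-1,-1] (.p false [1,-1,1] [1,0,0,0,-1] (⟨0,[(20,0),(3,0)]⟩,⟨0,[(9,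
  0)]⟩) .k 2 (⟨0,[(12,0)]⟩,⟨0,[(13,0)]⟩) .k (.r (-1) ⟨9,[(7,4),(2,2),(0,2),(3,9),(11,0),(4,4)]⟩ ⟨0,
  [(5,0),(22,0)]⟩)) t95 t96

theorem ok97 : chk K t97 r37 = true :=
  chk_Q (e' := [0,0,1,0,-1,0,1,0,1,0,1,1]) (by decide +kernel) (by decide +kernel) ok95 ok96

noncomputable def t98 : Tre :=
  .Q [0,0,0,-1,0,0,0,0,0,1] (.pp false [-1,1]) t66 t97

theorem ok98 : chk K t98 r36 = true :=
  chk_Q (e' := [0,0,0,1,0,0,0,0,0,-1]) (by decide +kernel) (by decide +kernel) ok66 ok97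

noncomputable def t99 : Tre :=
  .Q [0,0,0,0,0,0,-1,0,0,0,-1] (.p false [0,0,1] [] (⟨0,[(18,0)]⟩,⟨0,[(17,0)]⟩) .k 0 (⟨0,[]⟩,⟨0,
  []⟩) .k .k) t65 t98

theorem ok99 : chk K t99 l35 = true :=
  chk_Q (e' := [0,0,0,0,0,0,1,0,0,0,1]) (by decide +kernel) (by decide +kernel) ok65 ok98

noncomputable def t102 : Tre :=
  .Q [0,0,0,0,0,0,1,0,0,0,1] (.p true [0,0,1] [] (⟨0,[(19,0)]⟩,⟨0,[(18,0)]⟩) .k 0 (⟨0,[]⟩,⟨0,[]⟩)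
  .k .k) t100 t101

theorem ok102 : chk K t102 l53 = true :=
  chk_Q (e' := [0,0,0,0,0,0,-1,0,0,0,-1]) (by decide +kernel) (by decide +kernel) ok100 ok101

noncomputable def t104 : Tre :=
  .Q [0,0,1,0,0,0,2,0,0,0,2] (.p true [0,0,1] [0,1,-1] (⟨0,[(18,0)]⟩,⟨0,[(17,0)]⟩) .k 2 (⟨0,[(7,
  0)]⟩,⟨0,[(18,0),(3,0)]⟩) .k (.r (-1) ⟨0,[(0,0),(0,0),(3,0),(24,0)]⟩ ⟨0,[(3,1),(22,1)]⟩)) t102 t103

theorem ok104 : chk K t104 r35 = true :=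
  chk_Q (e' := [0,0,-1,0,0,0,-2,0,0,0,-2]) (by decide +kernel) (by decide +kernel) ok102 ok103

noncomputable def t105 : Tre :=
  .Q [0,-1,0,1,0,0,-1,-1,0,0,-1] (.p false [0,0,1] [] (⟨0,[(17,0)]⟩,⟨0,[(16,0)]⟩) .k 0 (⟨0,[]⟩,⟨0,
  []⟩) .k .k) t99 t104

theorem ok105 : chk K t105 l34 = true :=
  chk_Q (e' := [0,1,0,-1,0,0,1,1,0,0,1]) (by decide +kernel) (by decide +kernel) ok99 ok104

noncomputable def t107 : Tre :=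
  .Q [0,1,0,1,0,0,1,1,0,-1,1] (.p true [0,0,1] [1] (⟨0,[(16,0)]⟩,⟨0,[(15,0)]⟩) .k 1 (⟨0,[]⟩,⟨0,[]⟩)
  .k .k) t105 t106

theorem ok107 : chk K t107 r33 = true :=
  chk_Q (e' := [0,-1,0,-1,0,0,-1,-1,0,1,-1]) (by decide +kernel) (by decide +kernel) ok105 ok106

noncomputable def t108 : Tre :=
  .Q [0,0,-1,-1,0,0,-1,0,0,1,-1] (.p false [0,0,1] [1] (⟨0,[(15,0)]⟩,⟨0,[(14,0)]⟩) .k 1 (⟨0,[]⟩,⟨0,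
  []⟩) .k .k) t64 t107

theorem ok108 : chk K t108 r1 = true :=
  chk_Q (e' := [0,0,1,1,0,0,1,0,0,-1,1]) (by decide +kernel) (by decide +kernel) ok64 ok107

noncomputable def t109 : Tre :=
  .I [1,1,-1,-1,0,0,0,1] t63 t108

theorem ok109 : chk K t109 r0 = true :=
  chk_I (e' := [0,-1,1,1,0,0,0,-1]) (by decide +kernel) (by decide +kernel) ok63 ok108

noncomputable def t110 : Tre :=
  .Q [1,0,0,0,-1,0,0,0,1,0,0,1] (.p true [0,0,0,0,1] [] (⟨0,[(6,0)]⟩,⟨0,[(5,0)]⟩) .k 0 (⟨0,[]⟩,⟨0,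
  []⟩) .k .k) t0 t109

theorem ok110 : chk K t110 base = true :=
  chk_Q (e' := [-1,0,0,0,1,0,0,0,-1,0,0,-1]) (by decide +kernel) (by decide +kernel) ok0 ok109

theorem closed {p a b c J l q : ℤ} {D dl : ℝ} {Cl : ℤ → ℤ → ℤ → ℤ → ℝ → Prop}
    (W : World p a b c J 1 l q D dl Cl) (g : G0 p a b c J D)
    {N X R : ℤ} {I : ℝ} (hk : KCl p l Cl N X R I) (kz : KF a b D (X + (1 : ℤ) * I) (X + (1 : ℤ) * I + R) I)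
    {Ne Xe : ℤ} {Ie : ℝ} (he : EFac p 1 D Cl 1 Ne Xe Ie)
    (hkf : ∀ kf ∈ (kfY 1 [0,0,0,0,0,0,1,0,0,0,1]), KOk p l Cl 1
      (xv [1, a, b, c, p, J, X, R, Xe] [D, I, Ie]) N kf)
    (h0 : 1 ≤ (c : ℝ))
    (h1 : 1 ≤ (a : ℝ) - (b : ℝ) - (c : ℝ))
    (h2 : 0 < 1 + 2 * (p : ℝ) - 5 * D)
    (h3 : 1 ≤ 2 * (a : ℝ) - (b : ℝ))
    (h4 : 1 ≤ -1 + (J : ℝ))
    (h5 : 1 ≤ 3 - (J : ℝ))
    (h6 : 0 < -(b : ℝ) - (X : ℝ) + D - I)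
    (h7 : 0 < (J : ℝ) - I)
    (h8 : 0 < (J : ℝ) - D + I)
    (h9 : 0 < -2 * (X : ℝ) + D - 2 * I) : False := by
  have g1 := g.a2
  have g2 := g.b2
  have g3 := g.pa
  have g4 := g.pb
  have g5 := g.J1
  have g6 := g.JD
  have g7 := g.D2
  have g8 := g.ca
  have g9 := g.ca'
  have k1 := kz.I0
  have k2 := kz.ID
  have k3 := kz.z1
  have k4 := kz.z2
  have k5 := kz.s1
  have k6 := kz.s2
  have e1 := he.I0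
  have e2 := he.ID
  have e3 := he.x0
  have e4 := he.xp
  push_cast at *
  refine (val_E W.toBase hk he (row := [1]) (by simp) (by simp) (kfY 1 [0,0,0,0,0,0,1,0,0,0,1])).sound W rfl (Nk := N)
    (fun kf _ _ => ⟨_, rfl⟩) hkf ?_ ok110
  · simp only [base, List.forall_mem_cons, List.not_mem_nil, false_imp_iff, implies_true,
      and_true, hld, xv, evg_cons, evg_nil, List.map_cons, List.map_nil, List.cons_append,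
      List.nil_append, if_true, if_false, Bool.false_eq_true]
    push_cast
    refine ⟨?_, ?_, ?_, ?_, ?_, ?_, ?_, ?_, ?_, ?_, ?_, ?_, ?_, ?_, ?_, ?_, ?_, ?_, ?_, ?_, ?_, ?_, ?_, ?_, ?_, ?_, ?_, ?_⟩ <;> linarith

end Helper25.S1T.Ypp_1aP2
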