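import Pool.Agent.Helper25.S1T.Ypp_1aP2_q

set_option autoImplicit false
set_option linter.all false

namespace Helper25.S1T.Ypp_1aP2

open Helper25.KG Helper25.KW Helper55.KE Helper11.CT

noncomputable def t0 : Tre :=
  (.R ⟨2,true,false,false,[0,1],[0,0,0,0,1],[1,1,1],(⟨0,[]⟩,⟨0,[]⟩),(⟨0,[(7,0)]⟩,⟨0,[(6,0)]⟩),⟨0,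
  []⟩,.k,.k,.k,(.r 0 ⟨1,[(11,0),(0,0),(11,1)]⟩ ⟨1,[(23,1),(1,0),(0,0)]⟩),.k,.k,⟨false,0,⟨0,[(28,
  0)]⟩,⟨1,[(25,0),(0,0)]⟩⟩,⟨true,(-1),⟨3,[(0,3),(10,0),(0,0),(14,1)]⟩,⟨0,[(4,0)]⟩⟩,⟨true,0,⟨0,[(23,
  0)]⟩,⟨0,[(24,0)]⟩⟩,⟨false,0,⟨0,[(0,0),(22,0),(2,0)]⟩,⟨0,[(4,0),(19,0)]⟩⟩,⟨false,0,⟨0,[]⟩,⟨1,[(4,
  0),(0,0),(20,0)]⟩⟩,⟨true,(-1),⟨0,[(0,0)]⟩,⟨0,[(4,0),(23,0)]⟩⟩,[]⟩)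

theorem ok0 : chk K t0 l0 = true := by decide +kernel

noncomputable def t1 : Tre :=
  (.Q [0,0,0,0,0,1,0,0,0,-1,0,1] (.ed false [0,1,0,0,1] .k) (.R ⟨0,false,false,false,[1,0,0,0,-1],
  [0,0,0,0,1],[1,0,1],(⟨0,[(9,0)]⟩,⟨0,[(10,0)]⟩),(⟨0,[(10,0)]⟩,⟨0,[(9,0)]⟩),⟨0,[(0,0)]⟩,.k,.k,(.r
  (-1) ⟨1,[(26,1),(1,0),(0,0)]⟩ ⟨1,[(14,0),(0,0),(11,1)]⟩),.k,.k,.k,⟨true,0,⟨1,[(14,0),(0,0)]⟩,⟨0,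
  []⟩⟩,⟨false,1,⟨9,[(7,0),(0,20),(15,1),(3,4)]⟩,⟨0,[(1,0)]⟩⟩,⟨true,0,⟨1,[(14,0),(0,0)]⟩,⟨0,[(25,0),
  (1,0)]⟩⟩,⟨false,1,⟨9,[(7,0),(0,20),(15,1),(4,4)]⟩,⟨0,[(1,0)]⟩⟩,⟨false,0,⟨0,[]⟩,⟨0,[]⟩⟩,⟨false,0,
  ⟨0,[]⟩,⟨0,[]⟩⟩,[.e ⟨false,0,⟨0,[]⟩,⟨1,[(7,0),(0,0),(19,0)]⟩⟩ ⟨false,1,⟨9,[(7,0),(0,20),(15,1),(3,
  4)]⟩,⟨0,[(1,0)]⟩⟩,.o ⟨false,1,⟨9,[(7,0),(0,10),(15,1),(4,4)]⟩,⟨1,[(1,0),(3,0),(0,0),(11,1),(12,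
  1)]⟩⟩,.a ⟨true,0,⟨1,[(1,0),(9,0),(2,0)]⟩,⟨0,[(8,0)]⟩⟩ ⟨true,0,⟨1,[(14,0),(0,0)]⟩,⟨0,[(25,0),(1,
  0)]⟩⟩ ⟨false,1,⟨9,[(7,0),(0,20),(15,1),(4,4)]⟩,⟨0,[(1,0)]⟩⟩,.o ⟨false,0,⟨3,[(1,1),(3,1),(0,1),(7,
  0),(0,0),(2,3),(11,1)]⟩,⟨9,[(7,0),(0,10),(15,1),(3,4)]⟩⟩]⟩) (.S ⟨1,0,[-1],[1,0,0,0,-1],[0,1,0,-1],
  (⟨0,[(9,0)]⟩,⟨0,[(10,0)]⟩),⟨0,[(0,0)]⟩,.k,(.r (-1) ⟨1,[(26,1),(1,0),(0,0)]⟩ ⟨1,[(14,0),(0,0),(11,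
  1)]⟩),⟨true,0,⟨0,[(26,0)]⟩,⟨0,[(27,0)]⟩⟩,⟨false,1,⟨1,[(7,0),(0,0),(20,0)]⟩,⟨0,[]⟩⟩,⟨false,0,⟨0,
  []⟩,⟨1,[(7,0),(0,0),(20,0)]⟩⟩,⟨true,0,⟨0,[(27,0)]⟩,⟨0,[(26,0)]⟩⟩,[.e ⟨false,0,⟨0,[(25,0)]⟩,⟨1,[(7,
  0),(0,0),(18,1),(1,0)]⟩⟩ ⟨false,1,⟨1,[(3,0),(4,0),(19,0)]⟩,⟨0,[]⟩⟩,.o ⟨false,1,⟨15,[(1,4),(5,5),
  (16,0),(4,7)]⟩,⟨1,[(5,1),(0,1),(1,1),(9,3),(6,0),(1,0),(2,0),(0,0)]⟩⟩,.a ⟨true,0,⟨1,[(1,0),(9,0),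
  (2,0)]⟩,⟨0,[(8,0)]⟩⟩ ⟨true,0,⟨0,[(26,0)]⟩,⟨0,[(27,0)]⟩⟩ ⟨false,1,⟨1,[(3,0),(4,0),(20,0)]⟩,⟨0,[]⟩⟩,
  .o ⟨false,0,⟨3,[(1,1),(3,1),(0,1),(7,0),(0,0),(2,3),(11,1)]⟩,⟨9,[(7,0),(0,10),(15,1),(3,4)]⟩⟩]⟩))

theorem ok1 : chk K t1 l2 = true := by decide +kernel

noncomputable def t2 : Tre :=
  (.Q [0,0,0,0,0,0,-1,0,0,0,-1] (.p false [0,0,1] [] (⟨0,[(19,0)]⟩,⟨0,[(18,0)]⟩) .k 0 (⟨0,[]⟩,⟨0,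
  []⟩) .k .k) (.R ⟨0,false,false,true,[0,0,1],[1,-1,1],[0,0,1],(⟨0,[(20,0)]⟩,⟨0,[(19,0)]⟩),(⟨0,[(20,
  0),(3,0)]⟩,⟨0,[(9,0)]⟩),⟨0,[(9,0)]⟩,.k,.k,.k,.k,.k,.k,⟨true,0,⟨0,[(2,0)]⟩,⟨0,[(5,0)]⟩⟩,⟨false,0,
  ⟨0,[(14,0),(2,0)]⟩,⟨15,[(4,0),(5,1),(16,2),(3,7)]⟩⟩,⟨true,0,⟨0,[(2,0),(25,0)]⟩,⟨0,[(5,0),(24,
  0)]⟩⟩,⟨false,0,⟨0,[(1,0),(15,0)]⟩,⟨15,[(4,0),(5,1),(16,2),(2,15),(1,7)]⟩⟩,⟨false,0,⟨0,[]⟩,⟨0,[]⟩⟩,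
  ⟨false,0,⟨0,[]⟩,⟨0,[]⟩⟩,[.o ⟨false,0,⟨0,[(5,0),(11,0)]⟩,⟨21,[(2,9),(0,11),(3,4),(19,2),(3,9),(0,
  5)]⟩⟩,.o ⟨false,1,⟨0,[(15,0),(13,0),(2,0)]⟩,⟨0,[(3,0)]⟩⟩,.o ⟨false,1,⟨15,[(4,0),(5,1),(6,15),(9,
  2),(3,7)]⟩,⟨0,[(0,0)]⟩⟩,.a ⟨true,0,⟨0,[(17,0)]⟩,⟨0,[(14,0)]⟩⟩ ⟨false,1,⟨1,[(10,0),(0,0),(20,0)]⟩,
  ⟨0,[]⟩⟩ ⟨true,0,⟨0,[(1,0),(13,0)]⟩,⟨0,[(3,0),(13,0)]⟩⟩]⟩) (.I [0,0,-1,0,0,0,0,-1] (.I [0,0,0,0,0,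
  1,1] (.C [(0,0),(2,0),(6,0),(12,1),(8,0),(2,0)]) (.C [(0,0),(1,0),(8,0)])) (.C [(0,0),(0,1),(0,0),
  (1,0)])))

theorem ok2 : chk K t2 l5 = true := by decide +kernel

noncomputable def t3 : Tre :=
  (.Q [0,0,0,1,0,0,0,-1,0,-1] (.pp true [-1,1]) (.R ⟨0,false,false,true,[0,0,1],[1,-1,1],[0,0,1],
  (⟨0,[(21,0)]⟩,⟨0,[(20,0)]⟩),(⟨0,[(21,0),(3,0)]⟩,⟨0,[(10,0)]⟩),⟨0,[(10,0)]⟩,.k,.k,.k,.k,.k,.k,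
  ⟨true,0,⟨0,[(3,0)]⟩,⟨0,[(6,0)]⟩⟩,⟨false,0,⟨0,[(15,0),(2,0)]⟩,⟨15,[(5,0),(5,1),(16,2),(3,7)]⟩⟩,
  ⟨true,0,⟨1,[(0,0),(0,0),(1,0),(26,0)]⟩,⟨0,[(6,0),(24,0)]⟩⟩,⟨false,0,⟨0,[(1,0)]⟩,⟨15,[(5,0),(5,1),
  (16,2),(2,15),(1,7)]⟩⟩,⟨false,0,⟨0,[]⟩,⟨0,[]⟩⟩,⟨false,0,⟨0,[]⟩,⟨0,[]⟩⟩,[.o ⟨false,0,⟨0,[(6,0),(11,
  0)]⟩,⟨21,[(3,9),(0,11),(3,4),(19,2),(3,9),(0,5)]⟩⟩,.o ⟨false,1,⟨15,[(1,15),(3,0),(5,1),(4,15),(11,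
  2),(4,7)]⟩,⟨0,[(4,0)]⟩⟩,.e ⟨true,0,⟨1,[(18,0),(0,0)]⟩,⟨1,[(0,0),(14,0),(0,0),(12,0)]⟩⟩ ⟨true,0,⟨3,
  [(1,2),(4,0),(1,0),(7,2),(2,0)]⟩,⟨0,[(0,0)]⟩⟩,.a ⟨true,0,⟨0,[(18,0)]⟩,⟨0,[(15,0)]⟩⟩ ⟨false,1,⟨1,
  [(11,0),(0,0),(20,0)]⟩,⟨0,[]⟩⟩ ⟨true,0,⟨1,[(1,0),(4,0),(8,0),(0,0)]⟩,⟨2,[(0,0),(1,0),(0,0),(0,0),
  (25,0)]⟩⟩]⟩) (.R ⟨0,false,false,true,[0,0,1],[1,-1,1],[0,0,1],(⟨0,[(21,0)]⟩,⟨0,[(20,0)]⟩),(⟨0,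
  [(21,0),(3,0)]⟩,⟨0,[(10,0)]⟩),⟨0,[(10,0)]⟩,.k,.k,.k,.k,.k,.k,⟨true,0,⟨0,[(3,0)]⟩,⟨0,[(6,0)]⟩⟩,
  ⟨false,0,⟨0,[(15,0),(2,0)]⟩,⟨15,[(5,0),(5,1),(16,2),(3,7)]⟩⟩,⟨true,0,⟨0,[(3,0),(25,0)]⟩,⟨0,[(6,0),
  (24,0)]⟩⟩,⟨false,0,⟨0,[(1,0)]⟩,⟨15,[(5,0),(5,1),(16,2),(2,15),(1,7)]⟩⟩,⟨false,0,⟨0,[]⟩,⟨0,[]⟩⟩,
  ⟨false,0,⟨0,[]⟩,⟨0,[]⟩⟩,[.o ⟨false,0,⟨0,[(6,0),(11,0)]⟩,⟨21,[(3,9),(0,11),(3,4),(19,2),(3,9),(0,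
  5)]⟩⟩,.o ⟨false,1,⟨15,[(0,15),(4,0),(5,1),(6,15),(9,2),(3,7)]⟩,⟨0,[(4,0)]⟩⟩,.o ⟨false,1,⟨15,[(5,
  0),(5,1),(6,15),(9,2),(3,7)]⟩,⟨0,[(0,0),(3,0)]⟩⟩,.a ⟨true,0,⟨0,[(18,0)]⟩,⟨0,[(15,0)]⟩⟩ ⟨false,1,
  ⟨1,[(11,0),(0,0),(20,0)]⟩,⟨0,[]⟩⟩ ⟨true,0,⟨1,[(0,0),(14,0),(0,0),(12,0)]⟩,⟨0,[(4,0),(13,0)]⟩⟩]⟩))

theorem ok3 : chk K t3 l6 = true := by decide +kernel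

noncomputable def t4 : Tre :=
  (.R ⟨0,false,false,false,[0,0,1],[0,1,-1],[1,0,0,0,0,0,0,1],(⟨0,[(22,0)]⟩,⟨0,[(21,0)]⟩),(⟨0,[(11,
  0)]⟩,⟨0,[(22,0),(3,0)]⟩),⟨0,[(11,0)]⟩,.k,.k,.k,(.r (-1) ⟨2,[(0,0),(6,2),(9,2),(2,0),(13,2)]⟩ ⟨0,
  [(1,0),(17,1),(10,0),(1,0)]⟩),.k,.k,⟨false,1,⟨1,[(2,0),(4,2),(8,0),(0,0),(16,1)]⟩,⟨0,[(1,0),(17,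
  1),(10,0),(1,0)]⟩⟩,⟨true,0,⟨0,[(0,0)]⟩,⟨0,[(19,1)]⟩⟩,⟨true,0,⟨0,[]⟩,⟨0,[(36,0)]⟩⟩,⟨false,0,⟨0,[(1,
  0)]⟩,⟨0,[(7,0),(9,0),(1,0),(14,0)]⟩⟩,⟨false,0,⟨0,[]⟩,⟨0,[]⟩⟩,⟨false,0,⟨0,[]⟩,⟨0,[]⟩⟩,[.o ⟨false,0,
  ⟨0,[(5,0)]⟩,⟨0,[(17,0),(13,0),(2,0)]⟩⟩,.o ⟨false,1,⟨37,[(1,11),(2,13),(4,6),(19,8),(2,11),(0,13),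
  (0,5)]⟩,⟨0,[(7,0),(11,0)]⟩⟩,.o ⟨false,1,⟨15,[(6,0),(5,1),(6,15),(9,2),(3,7)]⟩,⟨2,[(0,0),(19,0)]⟩⟩,
  .a ⟨true,0,⟨0,[(19,0)]⟩,⟨0,[(16,0)]⟩⟩ ⟨false,1,⟨1,[(2,0),(4,0),(8,0),(0,0),(16,1)]⟩,⟨1,[(1,0),(17,
  1),(11,0)]⟩⟩ ⟨true,0,⟨3,[(0,0),(0,1),(0,1),(13,1),(11,0)]⟩,⟨0,[(7,0),(11,1)]⟩⟩]⟩)

theorem ok4 : chk K t4 l8 = true := by decide +kernel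

noncomputable def t5 : Tre :=
  (.K ⟨0,[0,1,-1],0,0,(⟨0,[(12,0)]⟩,⟨0,[(23,0),(3,0)]⟩),.k,.k,(.r 0 ⟨5,[(4,0),(0,6),(4,0),(7,0),(10,
  2),(3,3)]⟩ ⟨0,[(8,0),(22,0),(3,0)]⟩),(.r 0 ⟨7,[(1,6),(0,5),(2,1),(13,1),(9,2)]⟩ ⟨3,[(3,0),(4,4),
  (1,0),(7,2),(2,0),(13,3)]⟩),.k,[⟨0,[(1,0)]⟩,⟨0,[(0,0)]⟩,⟨0,[(8,0),(11,0)]⟩,⟨4,[(2,0),(2,1),(0,0),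
  (3,0),(18,3),(3,0)]⟩]⟩)

theorem ok5 : chk K t5 l9 = true := by decide +kernel

noncomputable def t6 : Tre :=
  (.K ⟨0,[0,0,0,0,1],(-1),(-1),(⟨0,[(17,0)]⟩,⟨0,[(16,0)]⟩),.k,(.r (-1) ⟨1,[(33,1),(1,0),(0,0)]⟩ ⟨2,
  [(6,0),(12,0),(2,0),(11,1)]⟩),(.r 0 ⟨2,[(5,0),(0,0),(4,0),(7,0),(14,0)]⟩ ⟨1,[(33,1),(1,0),(0,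
  0)]⟩),.k,.k,[⟨0,[(1,0),(12,0)]⟩,⟨0,[(0,0)]⟩,⟨0,[(14,0),(23,0)]⟩,⟨2,[(0,2),(0,0),(2,0),(13,0),(11,
  0),(1,0)]⟩]⟩)

theorem ok6 : chk K t6 l10 = true := by decide +kernel

noncomputable def t7 : Tre :=
  (.Q [1,1,0,0,-1,0,-1,-1,1,0,-1,1] (.p false [0,0,1] [0,0,0,0,1] (⟨0,[(26,0)]⟩,⟨0,[(25,0)]⟩) .k 2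
  (⟨0,[(19,0)]⟩,⟨0,[(18,0)]⟩) .k (.r (-1) ⟨25,[(10,2),(1,5),(0,12),(7,25),(11,1),(4,15),(1,5)]⟩ ⟨1,
  [(4,0),(0,0),(28,0)]⟩)) (.R ⟨0,false,false,true,[0,0,1],[0,0,0,0,1],[0,1,1],(⟨0,[(27,0)]⟩,⟨0,[(26,
  0)]⟩),(⟨0,[(20,0)]⟩,⟨0,[(19,0)]⟩),⟨0,[(16,0)]⟩,.k,.k,.k,.k,.k,.k,⟨true,0,⟨0,[(40,0)]⟩,⟨0,[]⟩⟩,
  ⟨false,0,⟨0,[(2,0)]⟩,⟨3,[(1,1),(3,0),(11,1),(15,0)]⟩⟩,⟨false,0,⟨2,[(5,0),(0,0),(2,0),(26,1)]⟩,⟨1,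
  [(7,0),(4,0),(8,0),(0,0),(16,1)]⟩⟩,⟨true,(-1),⟨0,[(0,0)]⟩,⟨3,[(1,3),(5,0),(4,0),(1,0),(7,2),(2,
  0)]⟩⟩,⟨false,0,⟨0,[]⟩,⟨0,[]⟩⟩,⟨false,0,⟨0,[]⟩,⟨0,[]⟩⟩,[.e ⟨false,0,⟨0,[(41,0)]⟩,⟨1,[(38,0),(0,
  0)]⟩⟩ ⟨false,0,⟨3,[(2,1),(8,0),(2,0),(18,1)]⟩,⟨0,[(1,0)]⟩⟩,.o ⟨false,0,⟨5,[(0,3),(7,3),(2,0),(0,
  3),(2,0),(0,0),(11,1),(10,3)]⟩,⟨0,[(13,0)]⟩⟩,.e ⟨false,0,⟨1,[(24,0),(0,0)]⟩,⟨1,[(38,0),(0,0)]⟩⟩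
  ⟨false,0,⟨1,[(11,0),(2,0)]⟩,⟨0,[(1,0)]⟩⟩,.a ⟨true,0,⟨0,[(24,0)]⟩,⟨0,[(21,0)]⟩⟩ ⟨true,0,⟨0,[(41,
  0)]⟩,⟨0,[]⟩⟩ ⟨false,0,⟨0,[(2,0)]⟩,⟨1,[(1,1),(22,0),(0,0)]⟩⟩]⟩) (.Q [1,0,0,0,0,0,1,1,1,-1,1,1] (.p
  true [0,0,1] [1,0,0,0,-1] (⟨0,[(27,0)]⟩,⟨0,[(26,0)]⟩) .k 2 (⟨0,[(19,0)]⟩,⟨0,[(20,0)]⟩) .k (.r
  (-1) ⟨1,[(0,0),(10,0),(2,0),(2,0),(4,0)]⟩ ⟨2,[(4,1),(1,0),(2,0),(25,1)]⟩)) (.R ⟨0,false,false,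
  false,[0,0,1],[1,0,0,0,-1],[1],(⟨0,[(28,0)]⟩,⟨0,[(27,0)]⟩),(⟨0,[(20,0)]⟩,⟨0,[(21,0)]⟩),⟨0,[(17,
  0)]⟩,.k,.k,.k,.k,.k,.k,⟨true,0,⟨0,[]⟩,⟨0,[(41,0)]⟩⟩,⟨false,1,⟨0,[(18,0),(3,0)]⟩,⟨2,[(0,2),(4,1),
  (1,0),(2,0),(25,1)]⟩⟩,⟨true,0,⟨1,[(6,0),(0,0),(28,0)]⟩,⟨3,[(8,0),(4,0),(1,0),(7,2),(2,0)]⟩⟩,
  ⟨false,1,⟨2,[(2,2),(4,0),(2,0),(4,0),(6,1),(14,1)]⟩,⟨0,[(0,0)]⟩⟩,⟨false,0,⟨0,[]⟩,⟨0,[]⟩⟩,⟨false,0,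
  ⟨0,[]⟩,⟨0,[]⟩⟩,[.o ⟨false,1,⟨0,[(14,0)]⟩,⟨1,[(0,1),(6,0),(29,0)]⟩⟩,.o ⟨false,1,⟨2,[(1,0),(0,1),(4,
  0),(5,0),(12,0)]⟩,⟨7,[(8,2),(0,0),(2,3),(13,0),(7,1),(2,3)]⟩⟩,.a ⟨true,0,⟨0,[(5,0)]⟩,⟨2,[(6,0),(8,
  1),(6,0)]⟩⟩ ⟨true,0,⟨0,[]⟩,⟨0,[(42,0)]⟩⟩ ⟨false,1,⟨0,[(2,0),(12,0)]⟩,⟨1,[(0,1),(5,0),(0,0),(28,
  0)]⟩⟩,.e ⟨false,1,⟨1,[(39,0),(0,0)]⟩,⟨1,[(25,0),(0,0)]⟩⟩ ⟨false,1,⟨2,[(1,0),(0,1),(4,0),(5,0),(1,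
  0),(6,1)]⟩,⟨2,[(0,2),(5,0),(0,0),(2,0),(26,1)]⟩⟩]⟩) (.Q [1,-1,0,0,0,0,-1,-1,1,0,-1,1] (.p false
  [0,0,1] [0,0,0,0,1] (⟨0,[(28,0)]⟩,⟨0,[(27,0)]⟩) .k 2 (⟨0,[(21,0)]⟩,⟨0,[(20,0)]⟩) .k (.r (-1) ⟨3,
  [(1,2),(10,1),(1,0),(0,1),(7,0),(18,1)]⟩ ⟨1,[(6,0),(0,0),(28,0)]⟩)) (.R ⟨0,false,false,false,[0,0,
  1],[0,0,0,0,1],[2],(⟨0,[(29,0)]⟩,⟨0,[(28,0)]⟩),(⟨0,[(22,0)]⟩,⟨0,[(21,0)]⟩),⟨0,[(18,0)]⟩,.k,.k,.k,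
  .k,.k,.k,⟨true,0,⟨0,[]⟩,⟨1,[(26,0),(0,0)]⟩⟩,⟨false,0,⟨0,[(4,0)]⟩,⟨3,[(3,1),(3,0),(11,1),(15,0)]⟩⟩,
  ⟨true,0,⟨1,[(7,0),(0,0),(28,0)]⟩,⟨6,[(9,1),(4,2),(1,1),(7,3),(14,0),(2,2)]⟩⟩,⟨false,0,⟨0,[(0,0)]⟩,
  ⟨1,[(2,0),(12,0),(8,0)]⟩⟩,⟨false,0,⟨0,[]⟩,⟨0,[]⟩⟩,⟨false,0,⟨0,[]⟩,⟨0,[]⟩⟩,[.o ⟨false,0,⟨0,[(0,0),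
  (9,0),(3,0)]⟩,⟨0,[(15,0)]⟩⟩,.o ⟨false,1,⟨15,[(13,10),(5,5),(16,0),(4,7)]⟩,⟨0,[(1,0),(8,0),(3,
  0)]⟩⟩,.e ⟨true,0,⟨0,[]⟩,⟨0,[(43,0)]⟩⟩ ⟨true,0,⟨1,[(13,0),(2,0)]⟩,⟨0,[(1,0),(5,0),(1,0),(4,0)]⟩⟩,
  .a ⟨true,0,⟨0,[(26,0)]⟩,⟨0,[(23,0)]⟩⟩ ⟨false,1,⟨1,[(40,0),(0,0)]⟩,⟨0,[(42,0)]⟩⟩ ⟨true,0,⟨0,[(4,
  0)]⟩,⟨0,[(1,0),(8,0),(3,0),(11,0)]⟩⟩]⟩) (.Q [0,0,0,0,0,0,0,0,-1,1,0,-1] (.p false [0,0,0,0,1] [1]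
  (⟨0,[(22,0)]⟩,⟨0,[(21,0)]⟩) .k 1 (⟨0,[]⟩,⟨0,[]⟩) .k .k) (.Q [0,0,0,0,0,0,1,0,1,-1,1,1] (.p true
  [0,0,1] [1,0,0,0,-1] (⟨0,[(30,0)]⟩,⟨0,[(29,0)]⟩) .k 2 (⟨0,[(22,0)]⟩,⟨0,[(23,0)]⟩) .k (.r (-1) ⟨1,
  [(3,0),(10,0),(2,0),(2,0),(4,0)]⟩ ⟨2,[(7,1),(1,0),(2,0),(25,1)]⟩)) (.K ⟨0,[1,0,0,0,-1],0,0,(⟨0,
  [(23,0)]⟩,⟨0,[(24,0)]⟩),.k,(.r (-1) ⟨1,[(40,1),(1,0),(0,0)]⟩ ⟨2,[(12,0),(0,0),(4,0),(7,0),(14,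
  0)]⟩),(.r 0 ⟨2,[(13,0),(12,0),(2,0),(11,1)]⟩ ⟨1,[(40,1),(1,0),(0,0)]⟩),.k,.k,[⟨0,[(0,0)]⟩,⟨1,[(1,
  1),(26,0),(0,0)]⟩,⟨7,[(11,2),(0,0),(2,3),(13,0),(7,1),(2,3)]⟩,⟨0,[(1,0),(43,0)]⟩]⟩) (.Q [1,0,0,0,
  0,0,0,0,1,-1,0,1] (.p true [0,0,0,0,1] [1] (⟨0,[(24,0)]⟩,⟨0,[(23,0)]⟩) .k 1 (⟨0,[]⟩,⟨0,[]⟩) .k
  .k) (.R ⟨0,false,false,true,[0,0,1],[1,0,0,0,-1],[1],(⟨0,[(32,0)]⟩,⟨0,[(31,0)]⟩),(⟨0,[(24,0)]⟩,⟨0,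
  [(25,0)]⟩),⟨0,[(21,0)]⟩,.k,.k,.k,.k,.k,.k,⟨false,1,⟨1,[(43,0),(0,0)]⟩,⟨0,[(46,0)]⟩⟩,⟨true,0,⟨0,
  [(1,0)]⟩,⟨1,[(0,1),(9,0),(34,0)]⟩⟩,⟨true,0,⟨1,[(10,0),(0,0),(28,0)]⟩,⟨3,[(12,0),(4,0),(1,0),(7,2),
  (2,0)]⟩⟩,⟨false,0,⟨0,[(4,0)]⟩,⟨0,[(5,0),(10,0)]⟩⟩,⟨false,0,⟨0,[]⟩,⟨0,[]⟩⟩,⟨false,0,⟨0,[]⟩,⟨0,[]⟩⟩,
  [.o ⟨false,0,⟨2,[(3,1),(0,0),(10,0),(25,0)]⟩,⟨15,[(16,10),(5,5),(16,0),(4,7)]⟩⟩,.o ⟨false,1,⟨0,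
  [(18,0)]⟩,⟨0,[(0,0)]⟩⟩,.e ⟨true,0,⟨0,[]⟩,⟨0,[(46,0)]⟩⟩ ⟨true,0,⟨0,[(1,0),(44,0)]⟩,⟨0,[(0,0),(8,
  0)]⟩⟩,.a ⟨true,0,⟨0,[(29,0)]⟩,⟨0,[(26,0)]⟩⟩ ⟨false,1,⟨1,[(43,0),(0,0)]⟩,⟨1,[(29,0),(0,0)]⟩⟩ ⟨true,
  0,⟨4,[(1,0),(1,1),(0,1),(10,0),(1,0),(8,2),(11,0)]⟩,⟨0,[(0,0),(28,0)]⟩⟩]⟩) (.I [0,0,0,0,0,1,1]
  (.C [(0,0),(0,0),(6,0),(12,0),(12,1),(11,0)]) (.C [(0,0),(9,0),(11,0)])))) (.Q [0,0,1,0,0,0,0,0,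
  -1,1,0,-1] (.p false [0,0,0,0,1] [1] (⟨0,[(23,0)]⟩,⟨0,[(22,0)]⟩) .k 1 (⟨0,[]⟩,⟨0,[]⟩) .k .k) (.K
  ⟨0,[1,0,0,0,-1],0,0,(⟨0,[(23,0)]⟩,⟨0,[(24,0)]⟩),.k,(.r (-1) ⟨1,[(40,1),(1,0),(0,0)]⟩ ⟨2,[(12,0),
  (0,0),(4,0),(7,0),(14,0)]⟩),(.r 0 ⟨2,[(13,0),(12,0),(2,0),(11,1)]⟩ ⟨1,[(40,1),(1,0),(0,0)]⟩),.k,
  .k,[⟨0,[(1,0),(6,0)]⟩,⟨0,[(0,0)]⟩,⟨7,[(11,2),(0,0),(2,3),(13,0),(7,1),(2,3)]⟩,⟨18,[(0,8),(1,4),(0,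
  4),(5,1),(15,3),(7,0),(1,0),(1,6)]⟩]⟩) (.I [0,0,-1,-1,1,0,0,3] (.Q [0,0,0,0,0,0,0,0,0,1,-2] (.ed
  true [0,0,2] (.r (-1) ⟨5,[(0,3),(13,1),(1,0),(2,0),(2,1),(4,1),(14,1)]⟩ ⟨0,[(10,0),(0,0),(28,
  0)]⟩)) (.Q [0,0,1,0,0,0,-2,0,0,0,-2] (.p false [0,0,1] [0,1,-1] (⟨0,[(33,0)]⟩,⟨0,[(32,0)]⟩) .k 2
  (⟨0,[(22,0)]⟩,⟨0,[(33,0),(3,0)]⟩) .k (.r (-1) ⟨5,[(1,3),(13,1),(1,0),(2,0),(2,1),(4,1),(14,1)]⟩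
  ⟨0,[(11,0),(0,0),(28,0)]⟩)) (.R ⟨0,false,false,true,[1,0,-2],[1,0,-1],[0,0,1],(⟨0,[(1,0)]⟩,⟨0,
  [(34,1)]⟩),(⟨0,[(33,0)]⟩,⟨0,[(34,0)]⟩),⟨0,[(22,0),(11,0)]⟩,.k,.k,(.x 0 ⟨2,[(0,0),(20,2),(0,2),(8,
  1),(2,2)]⟩ ⟨33,[(1,33),(1,22),(1,0),(2,21),(2,45),(5,0),(17,13),(2,19),(1,9),(0,5),(0,0)]⟩),.k,.k,
  .k,⟨false,1,⟨3,[(2,1),(13,1),(28,0),(0,0)]⟩,⟨1,[(11,1),(1,0),(26,0),(1,0)]⟩⟩,⟨true,0,⟨0,[(11,0)]⟩,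
  ⟨0,[(32,0)]⟩⟩,⟨false,1,⟨0,[(2,0),(13,0)]⟩,⟨0,[(11,1),(1,0),(28,0)]⟩⟩,⟨true,0,⟨0,[(29,0)]⟩,⟨1,[(13,
  0),(29,0)]⟩⟩,⟨false,0,⟨0,[]⟩,⟨0,[]⟩⟩,⟨false,0,⟨0,[]⟩,⟨0,[]⟩⟩,[.o ⟨false,0,⟨0,[(30,0)]⟩,⟨0,[(4,0),
  (2,0)]⟩⟩,.o ⟨false,0,⟨1,[(13,0),(29,0)]⟩,⟨117,[(2,11),(4,28),(0,23),(7,11),(1,32),(5,12),(4,64),
  (11,16),(3,5)]⟩⟩,.a ⟨true,0,⟨0,[(21,0)]⟩,⟨0,[(11,1)]⟩⟩ ⟨true,0,⟨2,[(0,0),(30,1)]⟩,⟨4,[(3,1),(1,0),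
  (0,0),(4,0),(16,0),(11,1)]⟩⟩ ⟨false,0,⟨1,[(11,1),(0,0),(0,0),(28,0)]⟩,⟨9,[(2,3),(13,1),(4,4),(19,
  0),(2,1),(1,3)]⟩⟩,.o ⟨false,0,⟨0,[(0,0)]⟩,⟨4,[(11,7),(0,0),(28,0),(3,2)]⟩⟩]⟩) (.I [0,0,-1,0,0,0,0,
  0,1] (.I [0,0,-1,0,0,1,-1] (.C [(0,1),(1,0),(0,1),(20,1),(12,3),(11,2)]) (.C [(0,0),(23,0),(5,
  0)])) (.C [(0,0),(3,0),(22,0)]))) (.Q [0,0,0,-1,1,0,3,3,0,-1,3] (.p true [0,0,1] [1,1,-2] (⟨0,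
  [(33,0)]⟩,⟨0,[(32,0)]⟩) .k 2 (⟨0,[(22,0),(9,0)]⟩,⟨0,[(0,0),(36,0)]⟩) (.r 0 ⟨7,[(11,6),(0,5),(2,1),
  (13,1),(9,2)]⟩ ⟨5,[(1,3),(40,1),(1,0),(0,0)]⟩) (.r (-1) ⟨2,[(1,2),(12,0),(0,0),(4,0),(7,0),(14,
  0)]⟩ ⟨1,[(11,2),(0,2),(28,2)]⟩)) (.Q [0,0,0,0,0,0,-3,0,0,1,-3] (.p false [0,0,1] [1,1,-2] (⟨0,
  [(34,0)]⟩,⟨0,[(33,0)]⟩) .k 2 (⟨0,[(23,0),(9,0)]⟩,⟨0,[(1,0),(36,0)]⟩) (.r 0 ⟨7,[(12,6),(0,5),(2,1),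
  (13,1),(9,2)]⟩ ⟨5,[(2,3),(40,1),(1,0),(0,0)]⟩) (.r (-1) ⟨2,[(2,2),(12,0),(0,0),(4,0),(7,0),(14,
  0)]⟩ ⟨1,[(12,2),(0,2),(28,2)]⟩)) (.Q [0,0,1,0,0,0,3,0,0,-1,3] (.p true [0,0,1] [1,1,-2] (⟨0,[(35,
  0)]⟩,⟨0,[(34,0)]⟩) .k 2 (⟨0,[(24,0),(9,0)]⟩,⟨0,[(2,0),(36,0)]⟩) (.r 0 ⟨7,[(13,6),(0,5),(2,1),(13,
  1),(9,2)]⟩ ⟨5,[(3,3),(40,1),(1,0),(0,0)]⟩) (.r (-1) ⟨4,[(0,0),(2,4),(12,0),(0,1),(12,1),(14,1)]⟩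
  ⟨1,[(13,2),(0,2),(28,2)]⟩)) (.R ⟨0,false,false,true,[1,0,-1],[0,-1,2],[0,1],(⟨0,[(35,0)]⟩,⟨0,[(36,
  0)]⟩),(⟨0,[(3,0),(36,0)]⟩,⟨0,[(25,0),(9,0)]⟩),⟨0,[(24,0)]⟩,.k,(.r (-1) ⟨5,[(4,3),(40,1),(1,0),(0,
  0)]⟩ ⟨7,[(14,6),(0,5),(2,1),(13,1),(9,2)]⟩),.k,(.r 0 ⟨3,[(14,5),(0,4),(16,1),(9,0),(1,0)]⟩ ⟨0,[(4,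
  0)]⟩),.k,.k,⟨false,0,⟨1,[(0,0),(13,0),(0,1),(14,0),(11,0)]⟩,⟨5,[(4,3),(40,1),(1,0),(0,0)]⟩⟩,⟨true,
  0,⟨0,[(0,0)]⟩,⟨0,[(1,0)]⟩⟩,⟨true,0,⟨4,[(1,0),(14,0),(4,0),(9,3),(2,0)]⟩,⟨1,[(14,0),(0,0),(28,
  0)]⟩⟩,⟨false,1,⟨0,[(2,0)]⟩,⟨0,[(8,0),(6,0),(11,0)]⟩⟩,⟨false,0,⟨0,[]⟩,⟨0,[]⟩⟩,⟨false,0,⟨0,[]⟩,⟨0,
  []⟩⟩,[.o ⟨false,1,⟨23,[(2,15),(17,2),(5,5),(16,0),(1,7),(4,15)]⟩,⟨0,[(15,0)]⟩⟩,.o ⟨false,1,⟨47,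
  [(2,31),(17,0),(5,1),(16,2),(1,15),(2,7)]⟩,⟨16,[(1,0),(13,12),(2,2),(0,0),(12,3),(9,5)]⟩⟩,.a
  ⟨true,0,⟨2,[(14,0),(8,1),(6,0)]⟩,⟨0,[(13,0)]⟩⟩ ⟨true,0,⟨0,[(50,0)]⟩,⟨0,[]⟩⟩ ⟨false,1,⟨5,[(0,1),(1,
  3),(42,1),(1,0),(0,0)]⟩,⟨4,[(8,0),(6,3),(2,0),(4,1),(3,0),(2,1)]⟩⟩,.o ⟨false,0,⟨0,[(34,0)]⟩,⟨23,
  [(0,7),(19,0),(5,1),(16,2),(3,15)]⟩⟩]⟩) (.I [0,0,0,0,0,1,1] (.C [(0,1),(0,0),(2,0),(9,0),(23,1),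
  (11,0)]) (.C [(0,0),(13,0),(11,0)]))) (.I [0,0,0,0,0,0,-1] (.C [(0,1),(0,0),(23,1),(4,0),(6,1),
  (11,0)]) (.C [(0,1),(2,0),(26,0),(3,0)]))) (.I [0,0,0,0,0,1,1] (.C [(0,0),(0,0),(0,0),(0,0),(8,1),
  (11,0),(11,1),(11,0)]) (.C [(0,0),(11,0),(11,0)])))) (.Q [0,0,0,0,0,0,0,0,0,-1,2] (.ed false [0,0,
  2] (.r (-1) ⟨3,[(5,3),(6,0),(3,1),(0,0),(1,2),(7,2),(2,0)]⟩ ⟨2,[(0,1),(40,1),(1,0),(0,0)]⟩)) (.Q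
  [0,0,1,0,0,0,2,0,0,-1,2] (.p true [0,0,1] [1,0,-1] (⟨0,[(33,0)]⟩,⟨0,[(32,0)]⟩) .k 2 (⟨0,[(32,0)]⟩,
  ⟨0,[(33,0)]⟩) .k (.r (-1) ⟨3,[(6,3),(6,0),(3,1),(0,0),(1,2),(7,2),(2,0)]⟩ ⟨2,[(1,1),(40,1),(1,0),
  (0,0)]⟩)) (.K ⟨0,[-1,0,2],0,1,(⟨0,[(1,0)]⟩,⟨0,[(33,1)]⟩),.k,(.r (-1) ⟨1,[(7,1),(10,0),(0,1),(1,
  0)]⟩ ⟨5,[(2,1),(9,0),(3,3),(13,1),(9,0),(4,1)]⟩),(.r (-1) ⟨1,[(7,1),(7,1),(2,0),(2,2),(7,1)]⟩ ⟨0,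
  [(2,0),(16,0),(22,0),(3,0)]⟩),.k,.k,[⟨2,[(12,0),(8,1),(6,0)]⟩,⟨0,[(0,0)]⟩,⟨0,[(2,0),(16,0),(1,
  0)]⟩,⟨31,[(7,16),(10,11),(1,6),(8,46),(11,3),(6,1)]⟩]⟩) (.I [0,0,-1,1] (.I [0,0,0,0,0,1,1] (.C
  [(0,1),(1,0),(0,0),(33,1),(11,0)]) (.C [(0,0),(12,0),(11,0)])) (.C [(0,0),(0,0),(10,1),(2,0)])))
  (.Q [0,-1,0,0,0,0,-1,-2,0,0,-1] (.p false [0,0,1] [] (⟨0,[(33,0)]⟩,⟨0,[(32,0)]⟩) .k 0 (⟨0,[]⟩,⟨0,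
  []⟩) .k .k) (.R ⟨0,false,false,true,[0,0,1],[0,0,2],[1,1],(⟨0,[(34,0)]⟩,⟨0,[(33,0)]⟩),(⟨0,[(34,
  1)]⟩,⟨0,[(1,0)]⟩),⟨0,[(23,0)]⟩,.k,.k,.k,.k,.k,.k,⟨false,0,⟨3,[(0,0),(1,1),(0,0),(4,0),(2,0),(16,
  0),(13,1),(2,0)]⟩,⟨3,[(7,3),(6,0),(3,1),(0,0),(1,2),(7,2),(2,0)]⟩⟩,⟨true,0,⟨0,[(11,0)]⟩,⟨0,[(32,
  0)]⟩⟩,⟨false,0,⟨12,[(0,2),(1,1),(9,1),(17,0),(12,1),(1,1)]⟩,⟨1,[(7,1),(10,0),(2,0)]⟩⟩,⟨true,0,⟨0,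
  [(29,0)]⟩,⟨1,[(13,0),(29,0)]⟩⟩,⟨false,0,⟨0,[]⟩,⟨0,[]⟩⟩,⟨false,0,⟨0,[]⟩,⟨0,[]⟩⟩,[.e ⟨false,0,⟨11,
  [(2,0),(0,2),(1,2),(22,2),(11,3),(1,0),(2,0)]⟩,⟨1,[(24,0),(0,0),(20,0)]⟩⟩ ⟨false,1,⟨19,[(7,9),(1,
  3),(8,2),(2,7),(7,29),(11,0),(3,7)]⟩,⟨0,[(0,0)]⟩⟩,.o ⟨false,1,⟨0,[(5,0),(1,0),(10,0)]⟩,⟨0,[(13,0),
  (29,0)]⟩⟩,.e ⟨false,0,⟨0,[]⟩,⟨1,[(24,0),(0,0),(20,0)]⟩⟩ ⟨false,1,⟨1,[(7,1),(10,0),(2,0),(7,1)]⟩,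
  ⟨0,[(0,0)]⟩⟩,.a ⟨true,0,⟨0,[(31,0)]⟩,⟨0,[(28,0)]⟩⟩ ⟨true,0,⟨11,[(2,0),(0,2),(1,2),(22,2),(11,3),
  (1,0),(2,0)]⟩,⟨1,[(31,0),(0,0)]⟩⟩ ⟨false,1,⟨0,[(7,0),(1,0),(19,0)]⟩,⟨1,[(0,1),(30,0),(0,0)]⟩⟩]⟩)
  (.I [0,0,-1,0,0,0,0,0,1] (.I [0,0,-1,0,0,1,-1] (.C [(0,0),(1,0),(0,0),(0,0),(16,0),(2,0),(12,1),
  (10,0),(0,0)]) (.C [(0,0),(23,0),(5,0)])) (.C [(0,0),(3,0),(22,0)]))))))))))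

theorem ok7 : chk K t7 l12 = true := by decide +kernel

noncomputable def t8 : Tre :=
  (.Q [-1,0,0,0,1,0,1,1,-1,0,1,-1] (.p true [0,0,1] [0,0,0,0,1] (⟨0,[(26,0)]⟩,⟨0,[(25,0)]⟩) .k 2
  (⟨0,[(19,0)]⟩,⟨0,[(18,0)]⟩) .k (.r (-1) ⟨25,[(10,2),(1,5),(0,12),(7,25),(11,1),(4,15),(1,5)]⟩ ⟨1,
  [(4,0),(0,0),(28,0)]⟩)) (.R ⟨0,false,false,false,[1,0,-1],[1,0,0,0,-1],[],(⟨0,[(26,0)]⟩,⟨0,[(27,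
  0)]⟩),(⟨0,[(19,0)]⟩,⟨0,[(20,0)]⟩),⟨0,[(15,0)]⟩,.k,.k,.k,.k,.k,.k,⟨true,0,⟨0,[]⟩,⟨1,[(24,0),(0,
  0)]⟩⟩,⟨false,1,⟨0,[(3,0),(0,0)]⟩,⟨2,[(2,0),(8,0),(2,0),(25,0)]⟩⟩,⟨false,1,⟨3,[(7,0),(4,0),(1,0),
  (7,2),(2,0),(13,3)]⟩,⟨1,[(5,0),(0,0),(28,0)]⟩⟩,⟨true,1,⟨0,[(0,0)]⟩,⟨1,[(1,1),(3,0),(0,0),(28,
  0)]⟩⟩,⟨false,0,⟨0,[]⟩,⟨0,[]⟩⟩,⟨false,0,⟨0,[]⟩,⟨0,[]⟩⟩,[.o ⟨false,1,⟨0,[(13,0)]⟩,⟨5,[(1,3),(2,3),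
  (6,0),(22,0),(4,1)]⟩⟩,.e ⟨false,1,⟨1,[(38,0),(0,0)]⟩,⟨0,[(41,0)]⟩⟩ ⟨false,2,⟨1,[(3,0),(1,0),(11,
  0),(20,0),(0,0)]⟩,⟨0,[(1,0)]⟩⟩,.a ⟨true,0,⟨2,[(5,0),(8,1),(6,0)]⟩,⟨0,[(4,0)]⟩⟩ ⟨false,1,⟨1,[(17,
  0),(0,0),(20,0)]⟩,⟨0,[]⟩⟩ ⟨true,1,⟨0,[(4,0),(8,0)]⟩,⟨0,[(1,0)]⟩⟩,.o ⟨false,0,⟨0,[(25,0)]⟩,⟨4,[(4,
  2),(0,0),(28,0),(3,2)]⟩⟩]⟩) (.Q [-1,-1,0,0,1,0,-1,-1,-1,1,-1,-1] (.p false [0,0,1] [1,0,0,0,-1]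
  (⟨0,[(27,0)]⟩,⟨0,[(26,0)]⟩) .k 2 (⟨0,[(19,0)]⟩,⟨0,[(20,0)]⟩) .k (.r (-1) ⟨15,[(11,2),(2,7),(2,5),
  (4,15),(11,0),(4,7)]⟩ ⟨2,[(4,1),(1,0),(2,0),(25,1)]⟩)) (.R ⟨0,false,false,true,[1,0,-1],[0,0,0,0,
  1],[0,1,1],(⟨0,[(27,0)]⟩,⟨0,[(28,0)]⟩),(⟨0,[(21,0)]⟩,⟨0,[(20,0)]⟩),⟨0,[(16,0)]⟩,.k,.k,.k,.k,.k,.k,
  ⟨true,0,⟨0,[(41,0)]⟩,⟨0,[]⟩⟩,⟨false,0,⟨4,[(1,1),(1,0),(1,7),(2,3),(3,0),(0,1),(22,1),(3,1)]⟩,⟨1,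
  [(0,0),(14,0),(2,0),(4,0)]⟩⟩,⟨true,0,⟨0,[(23,0),(2,0)]⟩,⟨0,[(1,0),(2,0),(0,0)]⟩⟩,⟨false,0,⟨0,[(2,
  0),(3,0),(1,0),(4,0),(26,0)]⟩,⟨0,[(0,0)]⟩⟩,⟨false,0,⟨0,[]⟩,⟨0,[]⟩⟩,⟨false,0,⟨0,[]⟩,⟨0,[]⟩⟩,[.o
  ⟨false,(-1),⟨0,[(1,0),(7,0),(3,0)]⟩,⟨3,[(0,0),(11,0),(1,2),(3,1),(4,0),(16,1)]⟩⟩,.o ⟨false,0,⟨13,
  [(1,3),(7,3),(2,4),(0,3),(21,0),(4,1)]⟩,⟨0,[(14,0)]⟩⟩,.a ⟨true,0,⟨2,[(6,0),(8,1),(6,0)]⟩,⟨0,[(5,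
  0)]⟩⟩ ⟨false,0,⟨1,[(25,0),(0,0)]⟩,⟨1,[(39,0),(0,0)]⟩⟩ ⟨true,(-1),⟨0,[(1,0),(4,0),(1,0),(4,0)]⟩,⟨1,
  [(0,0),(13,0),(0,0),(7,0)]⟩⟩,.o ⟨false,0,⟨0,[(26,0)]⟩,⟨4,[(5,2),(0,0),(28,0),(3,2)]⟩⟩]⟩) (.Q [0,0,
  -1,0,1,0,-1,0,-1,0,-1,-1] (.p false [1,-1,1] [1,0,0,0,-1] (⟨0,[(28,0),(3,0)]⟩,⟨0,[(17,0)]⟩) .k 2
  (⟨0,[(20,0)]⟩,⟨0,[(21,0)]⟩) .k (.r (-1) ⟨15,[(12,2),(2,7),(2,5),(4,15),(11,0),(4,7)]⟩ ⟨2,[(5,1),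
  (1,0),(2,0),(25,1)]⟩)) (.I [0,0,1,0,-1,1,-1,0,1] (.Q [1,-1,0,-1,0,0,1,1,1,0,1,1] (.p true [1,-1,
  1] [1,0,0,0,-1] (⟨0,[(30,0),(3,0)]⟩,⟨0,[(19,0)]⟩) .k 2 (⟨0,[(22,0)]⟩,⟨0,[(23,0)]⟩) .k (.r (-1)
  ⟨15,[(14,2),(2,7),(2,5),(4,15),(11,0),(4,7)]⟩ ⟨2,[(7,1),(1,0),(2,0),(25,1)]⟩)) (.Q [0,0,0,0,0,1,0,
  0,0,0,0,-1] (.ed true [1,-1,0,0,1] .k) (.Q [0,0,2,0,-1,0,1,0,1,0,1,1] (.p true [0,0,1] [0,1,0,0,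
  -1] (⟨0,[(32,0)]⟩,⟨0,[(31,0)]⟩) .k 2 (⟨0,[(0,0)]⟩,⟨0,[(25,0),(10,0)]⟩) (.r 0 ⟨2,[(14,0),(12,0),(2,
  0),(11,1)]⟩ ⟨1,[(41,1),(1,0),(0,0)]⟩) (.r (-1) ⟨15,[(16,2),(2,7),(2,5),(4,15),(11,0),(4,7)]⟩ ⟨2,
  [(9,1),(1,0),(2,0),(25,1)]⟩)) (.R ⟨0,false,false,true,[0,0,1],[0,1,0,0,-1],[1],(⟨0,[(33,0)]⟩,⟨0,
  [(32,0)]⟩),(⟨0,[(1,0)]⟩,⟨0,[(26,0),(10,0)]⟩),⟨0,[(22,0)]⟩,.k,(.r 0 ⟨2,[(15,0),(12,0),(2,0),(11,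
  1)]⟩ ⟨1,[(42,1),(1,0),(0,0)]⟩),.k,(.r (-1) ⟨31,[(2,15),(14,2),(0,15),(1,7),(2,21),(16,0),(3,7)]⟩
  ⟨4,[(11,0),(0,0),(2,2),(23,1),(3,0)]⟩),.k,.k,⟨false,1,⟨0,[(2,0),(3,0),(2,1)]⟩,⟨1,[(14,0),(0,0),(4,
  0),(7,0),(10,0)]⟩⟩,⟨true,1,⟨0,[(4,0)]⟩,⟨0,[(0,0)]⟩⟩,⟨true,0,⟨1,[(11,0),(0,0),(28,0)]⟩,⟨3,[(13,0),
  (4,0),(1,0),(7,2),(2,0)]⟩⟩,⟨false,1,⟨14,[(12,5),(2,1),(0,0),(2,2),(0,0),(2,11),(15,3),(3,5)]⟩,⟨0,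
  [(2,0)]⟩⟩,⟨false,0,⟨0,[]⟩,⟨0,[]⟩⟩,⟨false,0,⟨0,[]⟩,⟨0,[]⟩⟩,[.o ⟨false,1,⟨5,[(13,4),(0,0),(8,5),(7,
  0),(7,1),(7,1)]⟩,⟨1,[(2,1),(9,0),(29,0)]⟩⟩,.o ⟨false,1,⟨0,[(13,0),(5,0)]⟩,⟨3,[(2,1),(9,0),(11,1),
  (17,2)]⟩⟩,.a ⟨true,0,⟨0,[(10,0)]⟩,⟨2,[(11,0),(8,1),(6,0)]⟩⟩ ⟨true,0,⟨0,[]⟩,⟨0,[(47,0)]⟩⟩ ⟨false,1,
  ⟨1,[(13,0),(5,0),(0,0),(2,0),(19,0)]⟩,⟨1,[(2,1),(8,0),(0,0),(28,0)]⟩⟩,.e ⟨false,1,⟨1,[(44,0),(0,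
  0)]⟩,⟨2,[(0,0),(22,0),(7,0)]⟩⟩ ⟨false,1,⟨0,[(4,0),(38,0)]⟩,⟨2,[(2,2),(8,0),(0,0),(2,0),(26,
  1)]⟩⟩]⟩) (.I [0,0,0,1,0,-1] (.I [0,0,-1,1] (.I [0,0,0,0,0,1,1] (.C [(0,0),(2,0),(2,0),(6,0),(15,
  0),(7,1),(11,0)]) (.C [(0,0),(12,0),(11,0)])) (.C [(0,0),(11,0),(2,0),(13,0)])) (.C [(0,0),(13,0),
  (23,0)]))) (.I [0,0,0,1,0,0,1] (.I [0,0,0,0,0,1,1] (.C [(0,0),(1,0),(1,0),(0,0),(5,0),(23,0)])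
  (.C [(0,0),(10,0),(11,0)])) (.C [(0,0),(0,0),(8,0),(2,0),(8,0),(2,0)]))) (.I [0,0,0,0,0,1,1] (.C
  [(0,0),(0,0),(0,0),(6,0),(7,0),(7,0),(7,1),(10,0)]) (.C [(0,0),(8,0),(11,0)]))) (.Q [0,0,0,0,0,0,
  0,0,0,1,-2] (.ed true [0,0,2] (.r (-1) ⟨1,[(10,0),(4,0),(1,0),(7,2),(2,0),(13,1)]⟩ ⟨0,[(8,0),(0,
  0),(28,0)]⟩)) (.Q [0,0,0,-1,1,0,3,3,0,-1,3] (.p true [0,0,1] [1,0,-2] (⟨0,[(31,0)]⟩,⟨0,[(30,0)]⟩)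
  .k 2 (⟨0,[(0,0)]⟩,⟨0,[(31,1)]⟩) .k (.x (-1) ⟨9,[(0,14),(7,13),(0,7),(28,2),(3,3)]⟩ ⟨0,[(19,2),(5,
  2),(6,2),(11,2)]⟩)) (.I [1,-1,0,0,1,0,0,2] (.Q [0,0,1,0,0,0,-2,0,0,0,-2] (.p false [0,0,1] [0,1,
  -1] (⟨0,[(33,0)]⟩,⟨0,[(32,0)]⟩) .k 2 (⟨0,[(22,0)]⟩,⟨0,[(33,0),(3,0)]⟩) .k (.r (-1) ⟨0,[(0,0),(46,
  0)]⟩ ⟨0,[(11,0),(0,0),(28,0)]⟩)) (.R ⟨0,false,false,true,[1,0,-2],[1,0,-1],[1],(⟨0,[(3,0)]⟩,⟨0,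
  [(34,1)]⟩),(⟨0,[(33,0)]⟩,⟨0,[(34,0)]⟩),⟨0,[(22,0),(11,0)]⟩,.k,.k,(.x 0 ⟨2,[(0,0),(20,2),(0,2),(8,
  1),(2,2)]⟩ ⟨75,[(3,61),(0,27),(1,27),(4,123),(1,13),(12,27),(11,47),(2,21),(0,13),(2,16),(0,14),
  (1,1)]⟩),.k,.k,.k,⟨false,1,⟨5,[(1,0),(0,0),(11,1),(4,0),(8,2),(16,0),(0,2)]⟩,⟨3,[(12,1),(0,0),(16,
  1),(9,0),(1,0)]⟩⟩,⟨true,0,⟨0,[(11,0)]⟩,⟨0,[(32,0)]⟩⟩,⟨false,1,⟨0,[(1,0)]⟩,⟨0,[(12,0),(0,0),(28,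
  0)]⟩⟩,⟨true,0,⟨0,[(29,0)]⟩,⟨1,[(13,0),(29,0)]⟩⟩,⟨false,0,⟨0,[]⟩,⟨0,[]⟩⟩,⟨false,0,⟨0,[]⟩,⟨0,[]⟩⟩,
  [.o ⟨false,0,⟨0,[(30,0)]⟩,⟨11,[(2,3),(11,2),(26,0),(2,0),(1,5)]⟩⟩,.o ⟨false,0,⟨1,[(13,0),(29,0)]⟩,
  ⟨191,[(1,31),(0,63),(13,63),(1,2),(5,5),(15,47),(0,24),(3,39)]⟩⟩,.a ⟨true,0,⟨0,[(21,0)]⟩,⟨0,[(11,
  1)]⟩⟩ ⟨true,0,⟨0,[]⟩,⟨0,[(48,0)]⟩⟩ ⟨false,0,⟨1,[(11,1),(0,0),(0,0),(28,0)]⟩,⟨31,[(1,15),(16,0),(2,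
  15),(2,1),(16,2),(4,7)]⟩⟩,.o ⟨false,0,⟨0,[(0,0)]⟩,⟨4,[(11,7),(0,0),(28,0),(3,2)]⟩⟩]⟩) (.I [0,0,-1,
  0,0,1,-1] (.C [(0,1),(0,0),(2,1),(18,1),(12,3),(11,2)]) (.C [(0,0),(22,0),(5,0)]))) (.Q [0,0,1,0,
  0,0,-2,0,0,0,-2] (.p false [0,0,1] [0,1,-1] (⟨0,[(33,0)]⟩,⟨0,[(32,0)]⟩) .k 2 (⟨0,[(22,0)]⟩,⟨0,
  [(33,0),(3,0)]⟩) .k (.r (-1) ⟨23,[(1,15),(15,2),(2,23),(2,5),(16,0),(2,15)]⟩ ⟨7,[(0,5),(10,1),(17,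
  3),(14,0),(0,4)]⟩)) (.R ⟨0,false,false,true,[1,0,-2],[1,0,-1],[0,1],(⟨0,[(3,0)]⟩,⟨0,[(34,1)]⟩),
  (⟨0,[(33,0)]⟩,⟨0,[(34,0)]⟩),⟨0,[(22,0),(11,0)]⟩,.k,.k,(.x 0 ⟨2,[(0,0),(20,2),(0,2),(8,1),(2,2)]⟩
  ⟨161,[(1,45),(1,97),(0,127),(1,91),(5,51),(5,17),(7,127),(11,33),(2,29),(3,42),(0,68)]⟩),.k,.k,.k,
  ⟨false,1,⟨47,[(2,15),(15,2),(2,23),(2,5),(16,0),(2,15),(0,23)]⟩,⟨15,[(1,5),(10,1),(17,3),(14,0),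
  (0,4)]⟩⟩,⟨true,0,⟨0,[(11,0)]⟩,⟨0,[(32,0)]⟩⟩,⟨false,1,⟨23,[(2,15),(15,2),(2,23),(2,5),(16,0),(2,
  15)]⟩,⟨0,[(1,0),(44,0)]⟩⟩,⟨true,0,⟨0,[(29,0)]⟩,⟨1,[(13,0),(29,0)]⟩⟩,⟨false,0,⟨0,[]⟩,⟨0,[]⟩⟩,
  ⟨false,0,⟨0,[]⟩,⟨0,[]⟩⟩,[.o ⟨false,0,⟨0,[(30,0)]⟩,⟨11,[(2,3),(11,2),(26,0),(2,0),(1,5)]⟩⟩,.o
  ⟨false,0,⟨1,[(13,0),(29,0)]⟩,⟨11,[(2,3),(15,2),(1,2),(3,2),(16,0),(2,3)]⟩⟩,.a ⟨true,0,⟨0,[(21,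
  0)]⟩,⟨0,[(11,1)]⟩⟩ ⟨true,0,⟨0,[(48,0)]⟩,⟨0,[]⟩⟩ ⟨false,0,⟨3,[(1,1),(10,1),(32,0),(0,0)]⟩,⟨11,[(2,
  3),(11,2),(6,11),(19,0),(2,0),(1,5)]⟩⟩,.o ⟨false,0,⟨0,[(0,0)]⟩,⟨4,[(11,7),(0,0),(28,0),(3,
  2)]⟩⟩]⟩) (.I [0,0,-1,0,0,1,-1] (.C [(0,1),(0,0),(2,1),(18,1),(12,3),(11,2)]) (.C [(0,0),(22,0),(5,
  0)])))) (.Q [0,0,1,0,0,0,-2,0,0,0,-2] (.p false [0,0,1] [0,1,-1] (⟨0,[(32,0)]⟩,⟨0,[(31,0)]⟩) .k 2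
  (⟨0,[(21,0)]⟩,⟨0,[(32,0),(3,0)]⟩) .k (.r (-1) ⟨1,[(12,0),(4,0),(1,0),(7,2),(2,0),(13,1)]⟩ ⟨0,[(10,
  0),(0,0),(28,0)]⟩)) (.R ⟨0,false,false,true,[1,0,-2],[1,0,-1],[0,1],(⟨0,[(2,0)]⟩,⟨0,[(33,1)]⟩),
  (⟨0,[(32,0)]⟩,⟨0,[(33,0)]⟩),⟨0,[(21,0),(11,0)]⟩,.k,.k,(.r 0 ⟨0,[(1,0),(8,2),(7,0),(2,0),(0,0),(11,
  1),(6,0),(3,0),(0,0)]⟩ ⟨0,[(0,0),(27,1),(14,0),(1,0)]⟩),.k,.k,.k,⟨false,1,⟨1,[(4,0),(3,0),(19,1),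
  (16,0)]⟩,⟨1,[(11,0),(0,0),(28,0)]⟩⟩,⟨true,0,⟨0,[(10,0)]⟩,⟨0,[(31,0)]⟩⟩,⟨false,1,⟨4,[(0,1),(12,1),
  (4,1),(1,1),(7,7),(16,4)]⟩,⟨0,[(1,0),(8,2),(7,0),(2,0),(0,0),(11,1),(10,0),(0,0)]⟩⟩,⟨true,0,⟨0,
  [(28,0)]⟩,⟨1,[(12,0),(29,0)]⟩⟩,⟨false,0,⟨0,[]⟩,⟨0,[]⟩⟩,⟨false,0,⟨0,[]⟩,⟨0,[]⟩⟩,[.o ⟨false,0,⟨0,
  [(29,0)]⟩,⟨0,[(5,0),(17,0),(21,0)]⟩⟩,.o ⟨false,0,⟨1,[(12,0),(29,0)]⟩,⟨15,[(17,0),(5,1),(4,15),(11,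
  2),(4,7)]⟩⟩,.a ⟨true,0,⟨0,[(20,0)]⟩,⟨0,[(10,1)]⟩⟩ ⟨true,0,⟨0,[(47,0)]⟩,⟨0,[]⟩⟩ ⟨false,0,⟨1,[(10,
  1),(0,0),(0,0),(28,0)]⟩,⟨4,[(0,1),(12,1),(4,1),(1,1),(7,2),(16,4)]⟩⟩,.o ⟨false,0,⟨0,[(0,0)]⟩,⟨4,
  [(10,7),(0,0),(28,0),(3,2)]⟩⟩]⟩) (.I [0,0,-1,0,0,1,-1] (.C [(0,1),(0,0),(1,1),(18,1),(12,3),(11,
  2)]) (.C [(0,0),(21,0),(5,0)])))) (.Q [0,1,0,0,-1,0,-2,-2,0,1,-2] (.p false [0,0,1] [1,0,-1] (⟨0,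
  [(31,0)]⟩,⟨0,[(30,0)]⟩) .k 2 (⟨0,[(30,0)]⟩,⟨0,[(31,0)]⟩) .k (.r (-1) ⟨1,[(11,0),(4,0),(1,0),(7,2),
  (2,0),(13,1)]⟩ ⟨0,[(9,0),(0,0),(28,0)]⟩)) (.Q [0,0,1,0,0,0,2,0,0,-1,2] (.p true [0,0,1] [1,0,-1]
  (⟨0,[(32,0)]⟩,⟨0,[(31,0)]⟩) .k 2 (⟨0,[(31,0)]⟩,⟨0,[(32,0)]⟩) .k (.r (-1) ⟨1,[(12,0),(4,0),(1,0),
  (7,2),(2,0),(13,1)]⟩ ⟨0,[(10,0),(0,0),(28,0)]⟩)) (.K ⟨0,[-1,0,2],0,1,(⟨0,[(2,0)]⟩,⟨0,[(32,1)]⟩),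
  .k,(.r (-1) ⟨3,[(13,0),(4,4),(1,0),(7,2),(2,0),(13,3)]⟩ ⟨7,[(11,6),(0,5),(2,1),(13,1),(9,2)]⟩),
  (.r (-1) ⟨1,[(13,0),(0,0),(5,1),(7,3),(2,0),(13,1)]⟩ ⟨0,[(0,0),(0,0),(4,0),(2,0),(0,0),(7,0),(26,
  0)]⟩),.k,.k,[⟨2,[(11,0),(8,1),(6,0)]⟩,⟨0,[(0,0)]⟩,⟨0,[(1,0)]⟩,⟨15,[(17,0),(5,1),(4,31),(11,2),(4,
  7)]⟩]⟩) (.I [0,0,0,0,0,1,1] (.C [(0,1),(0,0),(1,0),(31,1),(11,0)]) (.C [(0,0),(10,0),(11,0)])))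
  (.Q [0,0,1,0,0,0,2,0,0,-1,2] (.p true [0,0,1] [1,0,-1] (⟨0,[(32,0)]⟩,⟨0,[(31,0)]⟩) .k 2 (⟨0,[(31,
  0)]⟩,⟨0,[(32,0)]⟩) .k (.r (-1) ⟨54,[(0,38),(15,5),(2,54),(2,11),(4,31),(11,1),(6,6)]⟩ ⟨0,[(10,0),
  (0,0),(28,0)]⟩)) (.R ⟨0,false,false,true,[0,0,1],[1,0,-1],[1],(⟨0,[(33,0)]⟩,⟨0,[(32,0)]⟩),(⟨0,
  [(32,0)]⟩,⟨0,[(33,0)]⟩),⟨0,[(22,0)]⟩,.k,.k,.k,.k,.k,.k,⟨false,1,⟨3,[(1,1),(2,0),(3,0),(18,1),(17,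
  0)]⟩,⟨3,[(11,1),(0,0),(16,1),(9,0),(1,0)]⟩⟩,⟨true,0,⟨0,[(20,0)]⟩,⟨0,[(0,0)]⟩⟩,⟨true,0,⟨1,[(11,0),
  (0,0),(28,0)]⟩,⟨3,[(13,0),(4,0),(1,0),(7,2),(2,0)]⟩⟩,⟨false,0,⟨5,[(11,1),(0,4),(2,1),(11,5),(14,
  6)]⟩,⟨0,[(1,0)]⟩⟩,⟨false,0,⟨0,[]⟩,⟨0,[]⟩⟩,⟨false,0,⟨0,[]⟩,⟨0,[]⟩⟩,[.o ⟨false,0,⟨0,[(29,0)]⟩,⟨31,
  [(1,15),(15,0),(5,1),(16,2),(4,7)]⟩⟩,.o ⟨false,0,⟨1,[(12,0),(29,0)]⟩,⟨54,[(1,22),(15,11),(5,23),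
  (4,8),(11,3),(6,13)]⟩⟩,.a ⟨true,0,⟨0,[(10,0)]⟩,⟨2,[(11,0),(8,1),(6,0)]⟩⟩ ⟨true,0,⟨0,[]⟩,⟨0,[(47,
  0)]⟩⟩ ⟨false,0,⟨2,[(12,0),(2,0),(4,0),(6,1),(14,1)]⟩,⟨3,[(0,1),(0,1),(42,0),(0,0)]⟩⟩,.e ⟨false,1,
  ⟨1,[(44,0),(0,0)]⟩,⟨1,[(30,0),(0,0)]⟩⟩ ⟨false,0,⟨1,[(12,0),(14,1),(14,0)]⟩,⟨31,[(1,15),(15,0),(5,
  1),(6,31),(9,2),(4,7)]⟩⟩]⟩) (.I [0,0,0,1,0,0,1] (.I [0,0,0,1,0,-1] (.I [0,0,-1,1] (.I [0,0,0,0,0,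
  1,1] (.C [(0,1),(3,0),(1,0),(31,1),(11,0)]) (.C [(0,0),(13,0),(11,0)])) (.C [(0,0),(2,0),(9,1),(2,
  0)])) (.C [(0,0),(14,0),(23,0)])) (.C [(0,0),(10,0),(2,0),(8,0),(14,0)])))))) (.Q [0,0,0,0,0,1,0,
  0,0,0,0,-1] (.ed true [1,-1,0,0,1] .k) (.K ⟨0,[0,1,0,0,-1],1,1,(⟨0,[(0,0)]⟩,⟨0,[(23,0),(10,0)]⟩),
  (.r 0 ⟨2,[(12,0),(12,0),(2,0),(11,1)]⟩ ⟨1,[(39,1),(1,0),(0,0)]⟩),.k,(.r 0 ⟨2,[(11,1),(0,1),(4,1),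
  (7,1),(14,1)]⟩ ⟨0,[(38,1),(3,0)]⟩),(.r 0 ⟨4,[(8,0),(0,0),(2,2),(23,1),(3,0)]⟩ ⟨7,[(14,0),(0,5),(1,
  0),(2,1),(4,1),(13,1),(1,0),(0,4)]⟩),.k,[⟨0,[(1,0)]⟩,⟨0,[(20,0)]⟩,⟨1,[(1,0),(1,0),(11,0),(23,0)]⟩,
  ⟨5,[(11,0),(0,0),(4,0),(2,5),(4,0),(10,2),(3,3)]⟩]⟩) (.I [0,-1,2,2] (.I [-1,0,1,1,0,0,0,1] (.K ⟨0,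
  [0,-1,0,0,1],(-1),(-1),(⟨0,[(2,0)]⟩,⟨0,[(24,0),(9,0)]⟩),(.r (-1) ⟨1,[(41,1),(1,0),(0,0)]⟩ ⟨1,[(1,
  0),(44,0)]⟩),(.r (-1) ⟨0,[(40,1),(3,0)]⟩ ⟨0,[(1,0),(44,0)]⟩),.k,(.r (-1) ⟨1,[(10,0),(0,0),(28,0),
  (0,1),(1,0),(0,0)]⟩ ⟨0,[(0,0)]⟩),.k,[⟨0,[(8,0),(0,0)]⟩,⟨0,[(3,0),(26,0)]⟩,⟨3,[(1,1),(6,0),(13,2),
  (15,2)]⟩,⟨1,[(3,0),(1,0),(11,0),(23,0)]⟩]⟩) (.Q [0,0,0,0,0,0,0,0,0,-1,2] (.ed false [0,0,2] (.r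
  (-1) ⟨8,[(1,3),(15,7),(1,4),(7,9),(11,0),(4,6)]⟩ ⟨22,[(0,13),(9,15),(0,13),(16,3),(9,1),(7,5)]⟩))
  (.Q [0,0,1,0,0,0,2,0,0,-1,2] (.p true [0,0,1] [1,0,-1] (⟨0,[(33,0)]⟩,⟨0,[(32,0)]⟩) .k 2 (⟨0,[(32,
  0)]⟩,⟨0,[(33,0)]⟩) .k (.r (-1) ⟨8,[(2,3),(15,7),(1,4),(7,9),(11,0),(4,6)]⟩ ⟨22,[(1,13),(9,15),(0,
  13),(16,3),(9,1),(7,5)]⟩)) (.R ⟨0,false,false,false,[-1,0,2],[1,0,0,0,-1],[1],(⟨0,[(1,0)]⟩,⟨0,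
  [(33,1)]⟩),(⟨0,[(26,0)]⟩,⟨0,[(27,0)]⟩),⟨0,[(23,0),(9,0)]⟩,.k,.k,(.r (-1) ⟨17,[(3,3),(15,25),(1,4),
  (7,9),(11,0),(4,15)]⟩ ⟨7,[(12,6),(0,5),(2,1),(13,1),(9,2)]⟩),.k,.k,.k,⟨true,0,⟨0,[]⟩,⟨0,[(47,
  0)]⟩⟩,⟨false,1,⟨2,[(12,0),(8,1),(2,2),(3,3)]⟩,⟨71,[(0,50),(1,7),(2,33),(0,37),(6,14),(27,10),(0,
  6),(2,34),(0,14)]⟩⟩,⟨true,0,⟨6,[(2,3),(9,4),(0,3),(16,1),(9,0)]⟩,⟨0,[(3,0),(15,1)]⟩⟩,⟨false,1,⟨2,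
  [(2,2),(9,0),(3,2),(3,2),(0,1),(6,3)]⟩,⟨12,[(0,3),(2,3),(2,16),(3,3),(8,7),(9,0),(11,0),(4,10)]⟩⟩,
  ⟨false,0,⟨0,[]⟩,⟨0,[]⟩⟩,⟨false,0,⟨0,[]⟩,⟨0,[]⟩⟩,[.o ⟨false,1,⟨0,[(20,0)]⟩,⟨47,[(5,0),(0,5),(0,5),
  (1,0),(8,16),(22,4),(4,2)]⟩⟩,.o ⟨false,2,⟨1,[(20,0),(3,1),(0,0),(20,0)]⟩,⟨2,[(6,1),(0,0),(9,0),
  (25,0)]⟩⟩,.o ⟨false,1,⟨3,[(0,2),(11,0),(28,0),(3,1)]⟩,⟨0,[(21,0)]⟩⟩,.a ⟨true,0,⟨0,[(0,0)]⟩,⟨2,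
  [(12,0),(8,1),(6,3)]⟩⟩ ⟨false,1,⟨1,[(45,0),(0,0)]⟩,⟨1,[(31,0),(0,0)]⟩⟩ ⟨true,1,⟨2,[(12,0),(7,2),
  (0,1),(6,3)]⟩,⟨2,[(0,2),(5,1),(0,0),(9,0),(25,0)]⟩⟩]⟩) (.I [0,0,0,1,0,0,1] (.I [0,0,0,1,0,-1] (.I
  [0,0,-1,1] (.I [0,0,0,0,0,1,1] (.C [(0,1),(3,0),(0,0),(33,1),(11,0)]) (.C [(0,0),(8,0),(4,0),(12,
  0)])) (.C [(0,0),(2,0),(10,1),(2,0)])) (.C [(0,0),(5,0),(9,0),(11,0)])) (.C [(0,0),(4,0),(6,0),(2,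
  0),(8,0),(2,0)]))) (.Q [0,0,1,0,0,0,-2,0,0,0,-2] (.p false [0,0,1] [0,1,-1] (⟨0,[(33,0)]⟩,⟨0,[(32,
  0)]⟩) .k 2 (⟨0,[(22,0)]⟩,⟨0,[(33,0),(3,0)]⟩) .k (.r (-1) ⟨8,[(2,3),(15,7),(1,4),(7,9),(11,0),(4,
  6)]⟩ ⟨22,[(1,13),(9,15),(0,13),(16,3),(9,1),(7,5)]⟩)) (.R ⟨0,false,false,true,[1,0,-2],[1,0,-1],
  [1,0,0,-1,0,0,0,-2],(⟨0,[(1,0)]⟩,⟨0,[(34,1)]⟩),(⟨0,[(33,0)]⟩,⟨0,[(34,0)]⟩),⟨0,[(22,0),(11,0)]⟩,.k,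
  .k,(.r 0 ⟨2,[(2,3),(8,1),(1,0),(33,0),(0,0)]⟩ ⟨5,[(3,3),(15,1),(1,4),(7,9),(11,0),(4,3)]⟩),.k,.k,
  .k,⟨false,1,⟨13,[(2,9),(9,1),(17,3),(12,3),(1,2),(0,10)]⟩,⟨1,[(14,0),(6,0),(7,1),(14,0)]⟩⟩,⟨true,
  0,⟨0,[(11,0)]⟩,⟨0,[(32,0)]⟩⟩,⟨false,1,⟨0,[(43,0),(2,0)]⟩,⟨0,[(44,0)]⟩⟩,⟨true,0,⟨0,[(29,0)]⟩,⟨1,
  [(13,0),(29,0)]⟩⟩,⟨false,0,⟨0,[]⟩,⟨0,[]⟩⟩,⟨false,0,⟨0,[]⟩,⟨0,[]⟩⟩,[.o ⟨false,0,⟨0,[(30,0)]⟩,⟨0,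
  [(6,0),(17,0),(21,0)]⟩⟩,.o ⟨false,0,⟨1,[(13,0),(29,0)]⟩,⟨15,[(18,0),(5,1),(4,15),(11,2),(4,7)]⟩⟩,
  .a ⟨true,0,⟨0,[(21,0)]⟩,⟨0,[(11,1)]⟩⟩ ⟨true,0,⟨8,[(2,10),(9,0),(3,4),(13,1),(12,2)]⟩,⟨1,[(3,1),
  (10,0),(4,2),(8,0),(0,0)]⟩⟩ ⟨false,0,⟨8,[(2,2),(8,6),(0,3),(0,2),(26,0),(7,0)]⟩,⟨8,[(3,3),(15,7),
  (1,4),(7,0),(11,0),(4,6)]⟩⟩,.o ⟨false,0,⟨0,[(0,0)]⟩,⟨4,[(11,7),(0,0),(28,0),(3,2)]⟩⟩]⟩) (.I [0,0,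
  -1,0,0,1,-1] (.C [(0,1),(0,0),(0,1),(20,1),(12,3),(11,2)]) (.C [(0,0),(22,0),(5,0)]))))) (.I [1,0,
  -1,-1,0,0,0,-1] (.K ⟨0,[0,-1,0,0,1],(-1),(-1),(⟨0,[(2,0)]⟩,⟨0,[(24,0),(9,0)]⟩),(.r (-1) ⟨1,[(41,
  1),(1,0),(0,0)]⟩ ⟨2,[(14,0),(12,0),(2,0),(11,1)]⟩),(.r (-1) ⟨2,[(1,1),(39,1),(1,0),(0,1)]⟩ ⟨2,
  [(13,1),(0,1),(4,1),(7,1),(14,1)]⟩),.k,(.r 0 ⟨0,[(0,0)]⟩ ⟨7,[(14,3),(1,0),(2,5),(2,1),(4,11),(11,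
  0),(2,3),(1,3)]⟩),.k,[⟨0,[(8,0),(0,0)]⟩,⟨0,[(3,0),(26,0)]⟩,⟨5,[(13,0),(0,0),(4,0),(2,5),(4,0),(10,
  2),(3,3)]⟩,⟨4,[(1,1),(1,2),(2,1),(23,0),(10,0)]⟩]⟩) (.Q [0,0,0,0,1,0,2,0,-1,-1,2,-1] (.p true [-1,
  1,1] [0,0,-1,0,1] (⟨0,[(20,0)]⟩,⟨0,[(31,0),(4,0)]⟩) .k 2 (⟨0,[(2,0),(18,0)]⟩,⟨0,[(24,0),(7,0)]⟩)
  .k (.r (-1) ⟨4,[(0,3),(15,0),(0,3),(1,0),(2,1),(4,1),(16,2)]⟩ ⟨8,[(1,3),(8,8),(0,7),(16,1),(9,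
  0)]⟩)) (.Q [0,0,0,0,0,-1,0,0,0,0,2] (.ed false [1,-1,2] .k) (.Q [0,0,0,0,0,0,-3,0,0,1,-3] (.p
  false [0,0,1] [1,1,-2] (⟨0,[(34,0)]⟩,⟨0,[(33,0)]⟩) .k 2 (⟨0,[(23,0),(9,0)]⟩,⟨0,[(0,0)]⟩) (.r 0 ⟨7,
  [(12,6),(0,5),(2,1),(13,1),(9,2)]⟩ ⟨9,[(2,3),(15,0),(0,13),(1,0),(2,1),(4,1),(16,7)]⟩) (.r (-1)
  ⟨9,[(2,13),(15,0),(0,13),(1,0),(2,1),(4,1),(16,7)]⟩ ⟨5,[(3,3),(8,8),(0,7),(16,1),(9,0)]⟩)) (.R ⟨0,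
  false,false,true,[1,0,-1],[0,-1,2],[0,1],(⟨0,[(34,0)]⟩,⟨0,[(35,0)]⟩),(⟨0,[(1,0)]⟩,⟨0,[(24,0),(9,
  0)]⟩),⟨0,[(23,0)]⟩,.k,(.r (-1) ⟨22,[(0,4),(2,3),(16,26),(9,14),(11,0),(4,20)]⟩ ⟨7,[(13,6),(0,5),
  (2,1),(13,1),(9,2)]⟩),.k,(.r 0 ⟨17,[(4,1),(8,26),(0,21),(16,9),(9,4)]⟩ ⟨0,[(3,0),(16,1),(26,0)]⟩),
  .k,.k,⟨false,0,⟨1,[(12,1),(0,0),(0,1),(26,0)]⟩,⟨22,[(0,4),(2,3),(16,26),(9,14),(11,0),(4,20)]⟩⟩,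
  ⟨true,0,⟨0,[(2,0),(3,0)]⟩,⟨0,[(0,0)]⟩⟩,⟨true,0,⟨4,[(3,2),(16,1),(20,0),(2,0)]⟩,⟨17,[(4,3),(8,8),
  (0,7),(16,1),(9,0)]⟩⟩,⟨false,1,⟨0,[(2,0),(0,0),(2,0),(13,1),(26,0)]⟩,⟨10,[(4,3),(8,0),(0,9),(2,8),
  (11,10),(1,3)]⟩⟩,⟨false,0,⟨0,[]⟩,⟨0,[]⟩⟩,⟨false,0,⟨0,[]⟩,⟨0,[]⟩⟩,[.o ⟨false,1,⟨4,[(20,3),(9,5),(1,
  3),(9,0),(1,0),(2,2)]⟩,⟨0,[(14,0)]⟩⟩,.o ⟨false,1,⟨10,[(2,2),(0,3),(3,2),(5,1),(6,14),(11,8),(9,0),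
  (4,8)]⟩,⟨10,[(3,0),(10,8),(2,0),(13,3),(9,2)]⟩⟩,.a ⟨true,0,⟨2,[(13,0),(8,1),(6,0)]⟩,⟨0,[(12,0)]⟩⟩
  ⟨true,0,⟨0,[(49,0)]⟩,⟨0,[]⟩⟩ ⟨false,1,⟨12,[(2,3),(0,3),(3,3),(5,12),(6,16),(9,0),(11,0),(4,10)]⟩,
  ⟨12,[(4,0),(9,9),(2,4),(4,4),(6,7),(1,0)]⟩⟩,.o ⟨false,0,⟨0,[(33,0)]⟩,⟨94,[(2,46),(3,0),(0,5),(0,
  5),(10,16),(22,4),(3,47),(0,2)]⟩⟩]⟩) (.I [0,0,-1,0,0,1,-1] (.C [(0,1),(0,0),(23,1),(4,0),(6,3),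
  (11,2)]) (.C [(0,0),(23,0),(5,0)]))) (.I [0,0,0,1,0,-1] (.I [0,0,-1,1] (.I [0,0,0,0,0,1,2] (.I [0,
  0,-1,0,0,1,-1] (.C [(0,1),(3,0),(4,1),(4,1),(24,2),(11,1)]) (.C [(0,0),(25,0),(5,0)])) (.C [(0,0),
  (2,0),(0,0),(3,0),(22,0)])) (.C [(0,1),(2,0),(3,0),(8,1),(13,2)])) (.C [(0,0),(4,0),(9,0),(11,
  0)]))) (.Q [0,0,0,0,0,0,0,0,0,1,-2] (.ed true [0,0,2] (.r (-1) ⟨4,[(1,3),(15,0),(0,3),(1,0),(2,1),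
  (4,1),(16,2)]⟩ ⟨8,[(2,3),(8,8),(0,7),(16,1),(9,0)]⟩)) (.R ⟨0,false,false,true,[1,0,-2],[1,0,-1],
  [1],(⟨0,[(0,0)]⟩,⟨0,[(34,1)]⟩),(⟨0,[(33,0)]⟩,⟨0,[(34,0)]⟩),⟨0,[(22,0),(11,0)]⟩,.k,.k,(.r 0 ⟨0,[(3,
  0),(8,0),(0,0)]⟩ ⟨9,[(2,11),(15,2),(0,1),(1,2),(2,5),(4,5),(16,3)]⟩),.k,.k,.k,⟨false,1,⟨5,[(2,1),
  (3,1),(3,1),(8,1),(8,1),(16,0),(0,4)]⟩,⟨17,[(3,1),(8,8),(0,3),(16,9),(9,4)]⟩⟩,⟨true,0,⟨0,[(11,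
  0)]⟩,⟨0,[(32,0)]⟩⟩,⟨false,1,⟨0,[(2,0),(16,0),(26,0)]⟩,⟨8,[(3,3),(8,8),(0,7),(16,1),(9,0)]⟩⟩,⟨true,
  0,⟨0,[(29,0)]⟩,⟨1,[(13,0),(29,0)]⟩⟩,⟨false,0,⟨0,[]⟩,⟨0,[]⟩⟩,⟨false,0,⟨0,[]⟩,⟨0,[]⟩⟩,[.o ⟨false,0,
  ⟨0,[(30,0)]⟩,⟨0,[(6,0),(17,0),(21,0)]⟩⟩,.o ⟨false,0,⟨1,[(13,0),(29,0)]⟩,⟨15,[(18,0),(5,1),(4,15),
  (11,2),(4,7)]⟩⟩,.a ⟨true,0,⟨0,[(21,0)]⟩,⟨0,[(11,1)]⟩⟩ ⟨true,0,⟨0,[]⟩,⟨0,[(48,0)]⟩⟩ ⟨false,0,⟨7,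
  [(3,1),(7,5),(0,4),(0,3),(26,0)]⟩,⟨31,[(2,15),(15,0),(0,15),(1,15),(2,1),(16,2),(4,23)]⟩⟩,.o
  ⟨false,0,⟨0,[(1,0),(8,0),(11,0),(0,0),(11,1),(11,1)]⟩,⟨4,[(11,7),(0,0),(28,0),(3,2)]⟩⟩]⟩) (.I [0,
  0,0,0,0,1,1] (.C [(0,1),(0,0),(0,0),(8,0),(24,1),(11,0)]) (.C [(0,0),(5,0),(4,0),(12,0)]))))))))))

theorem ok8 : chk K t8 r12 = true := by decide +kernel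

noncomputable def t10 : Tre :=
  (.Q [0,0,0,0,0,1,0,0,0,-1,0,1] (.ed false [0,1,0,0,1] .k) (.R ⟨0,false,false,false,[1,0,0,0,-1],
  [0,1,-1],[1,1],(⟨0,[(18,0)]⟩,⟨0,[(19,0)]⟩),(⟨0,[(15,0)]⟩,⟨0,[(26,0),(3,0)]⟩),⟨0,[(0,0)]⟩,.k,.k,
  (.r (-1) ⟨1,[(35,1),(1,0),(0,0)]⟩ ⟨2,[(7,0),(0,0),(4,0),(7,0),(14,0)]⟩),(.r (-1) ⟨7,[(10,0),(0,5),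
  (0,1),(0,0),(7,1),(13,1),(1,0),(0,4)]⟩ ⟨4,[(4,0),(0,0),(2,2),(23,1),(3,0)]⟩),.k,.k,⟨true,0,⟨0,
  [(11,0)]⟩,⟨0,[(8,0)]⟩⟩,⟨false,1,⟨45,[(5,12),(0,12),(3,22),(0,25),(8,19),(12,5),(3,22),(0,10),(1,
  8)]⟩,⟨2,[(1,2),(2,1),(8,0),(6,1)]⟩⟩,⟨false,0,⟨0,[]⟩,⟨1,[(12,0),(4,0),(20,0)]⟩⟩,⟨true,0,⟨29,[(5,5),
  (2,1),(0,15),(0,14),(2,0),(18,3),(3,5)]⟩,⟨5,[(1,5),(2,1),(6,5),(1,0),(6,1),(7,2),(1,2)]⟩⟩,⟨false,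
  0,⟨0,[]⟩,⟨0,[]⟩⟩,⟨false,0,⟨0,[]⟩,⟨0,[]⟩⟩,[.o ⟨false,0,⟨0,[(9,0)]⟩,⟨0,[(21,0),(13,0),(2,0)]⟩⟩,.o
  ⟨false,1,⟨37,[(5,11),(2,13),(4,6),(19,8),(2,11),(0,13),(0,5)]⟩,⟨0,[(11,0),(11,0)]⟩⟩,.a ⟨true,0,⟨0,
  [(1,0),(18,0)]⟩,⟨0,[(17,0)]⟩⟩ ⟨false,0,⟨0,[]⟩,⟨1,[(16,0),(0,0),(20,0)]⟩⟩ ⟨true,0,⟨1,[(5,0),(0,0),
  (3,0),(29,0)]⟩,⟨2,[(1,2),(2,1),(6,2),(1,0),(6,1)]⟩⟩,.e ⟨true,0,⟨2,[(3,0),(2,0),(13,0),(11,0),(1,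
  0)]⟩,⟨1,[(23,0),(0,0)]⟩⟩ ⟨true,0,⟨0,[(3,0),(1,0),(0,0),(4,0),(5,0)]⟩,⟨0,[(1,0),(2,0),(6,0),(1,
  0)]⟩⟩]⟩) (.K ⟨0,[0,0,1,0,-1],0,0,(⟨0,[(0,0),(13,0)]⟩,⟨0,[(19,0),(5,0)]⟩),.k,(.r (-1) ⟨7,[(10,0),
  (0,5),(0,1),(0,0),(7,1),(13,1),(1,0),(0,4)]⟩ ⟨4,[(4,0),(0,0),(2,2),(23,1),(3,0)]⟩),(.x (-1) ⟨1,
  [(1,1),(4,1),(12,1),(5,1),(1,1),(6,1),(2,0),(0,0)]⟩ ⟨3,[(10,1),(2,1),(0,3),(3,3),(4,0),(0,0),(14,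
  1)]⟩),.k,.k,[⟨0,[(17,0)]⟩,⟨0,[(1,0)]⟩,⟨0,[(17,0),(4,0)]⟩,⟨0,[(1,0),(9,0),(24,0)]⟩]⟩))

theorem ok10 : chk K t10 r11 = true := by decide +kernel

noncomputable def t15 : Tre :=
  (.I [1,0,1,1,0,0,0,-2] (.Q [0,0,0,0,0,0,-1,0,0,0,-1] (.p false [0,0,1] [] (⟨0,[(22,0)]⟩,⟨0,[(21,
  0)]⟩) .k 0 (⟨0,[]⟩,⟨0,[]⟩) .k .k) (.Q [0,0,-1,0,0,0,-2,0,0,0,-2] (.p false [0,0,1] [0,1,-1] (⟨0,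
  [(23,0)]⟩,⟨0,[(22,0)]⟩) .k 2 (⟨0,[(12,0)]⟩,⟨0,[(23,0),(3,0)]⟩) .k (.x (-1) ⟨3,[(1,1),(0,1),(1,3),
  (7,3),(9,3),(1,3),(6,3),(2,0),(0,2)]⟩ ⟨0,[(0,1),(22,1)]⟩)) (.I [0,0,1,1,0,0,0,-2] (.R ⟨0,false,
  false,false,[0,0,1],[0,1,-1],[1,1,1],(⟨0,[(25,0)]⟩,⟨0,[(24,0)]⟩),(⟨0,[(14,0)]⟩,⟨0,[(25,0),(3,
  0)]⟩),⟨0,[(14,0)]⟩,.k,.k,.k,(.r (-1) ⟨17,[(1,7),(2,17),(7,9),(19,1),(3,4),(0,8)]⟩ ⟨0,[(0,0)]⟩),.k,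
  .k,⟨false,0,⟨0,[(10,0)]⟩,⟨0,[(7,0),(28,0)]⟩⟩,⟨true,0,⟨0,[(1,0)]⟩,⟨0,[(22,1)]⟩⟩,⟨false,0,⟨0,[(7,0),
  (25,0)]⟩,⟨3,[(1,1),(2,1),(30,1),(0,0),(0,2)]⟩⟩,⟨true,0,⟨0,[(0,0),(0,0)]⟩,⟨0,[(4,0)]⟩⟩,⟨false,0,⟨0,
  []⟩,⟨0,[]⟩⟩,⟨false,0,⟨0,[]⟩,⟨0,[]⟩⟩,[.o ⟨false,0,⟨0,[(8,0)]⟩,⟨1,[(4,0),(10,0),(0,0),(17,0),(2,
  0)]⟩⟩,.o ⟨false,1,⟨33,[(0,9),(7,13),(3,9),(19,5),(2,9),(0,4),(0,16)]⟩,⟨1,[(4,0),(29,0)]⟩⟩,.o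
  ⟨false,1,⟨15,[(0,7),(3,7),(4,0),(5,1),(16,2),(3,3),(0,3)]⟩,⟨0,[(2,0)]⟩⟩,.a ⟨true,0,⟨0,[(22,0)]⟩,
  ⟨0,[(19,0)]⟩⟩ ⟨false,0,⟨0,[]⟩,⟨1,[(15,0),(0,0),(20,0)]⟩⟩ ⟨true,0,⟨0,[(8,0),(10,0)]⟩,⟨1,[(4,0),(17,
  1),(11,0)]⟩⟩]⟩) (.N [0,-1,2] 0 ⟨0,[(0,0)]⟩ ⟨0,[(3,0)]⟩ (.x (-1) ⟨15,[(3,15),(0,15),(4,0),(4,15),
  (0,1),(8,15),(7,2),(4,7)]⟩ ⟨0,[(0,0),(6,0),(0,0),(10,0),(5,1),(0,0),(6,0)]⟩))) (.K ⟨0,[0,1,-1],0,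
  0,(⟨0,[(13,0)]⟩,⟨0,[(24,0),(3,0)]⟩),.k,.k,(.r 0 ⟨5,[(5,0),(0,6),(4,0),(7,0),(10,2),(3,3)]⟩ ⟨0,[(9,
  0),(22,0),(3,0)]⟩),(.r 0 ⟨0,[(0,0),(5,0),(0,0),(10,0),(13,0)]⟩ ⟨13,[(3,11),(0,1),(4,3),(1,6),(6,
  9),(12,2),(4,7)]⟩),.k,[⟨0,[(0,0)]⟩,⟨0,[(1,0)]⟩,⟨1,[(3,0),(29,0)]⟩,⟨11,[(2,2),(3,1),(0,3),(3,3),
  (18,6),(3,2)]⟩]⟩)) (.I [1,0,0,0,0,0,0,-1] (.R ⟨0,false,false,false,[0,0,1],[0,1,-1],[1,1],(⟨0,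
  [(24,0)]⟩,⟨0,[(23,0)]⟩),(⟨0,[(13,0)]⟩,⟨0,[(24,0),(3,0)]⟩),⟨0,[(13,0)]⟩,.k,.k,.k,(.r (-1) ⟨13,[(3,
  11),(0,1),(4,3),(1,6),(6,9),(12,2),(4,7)]⟩ ⟨0,[(0,0),(0,1),(5,0),(10,0),(18,1)]⟩),.k,.k,⟨true,0,
  ⟨0,[(9,0)]⟩,⟨0,[(6,0)]⟩⟩,⟨false,1,⟨2,[(11,0),(6,3),(12,0),(3,0)]⟩,⟨0,[(1,0),(19,0)]⟩⟩,⟨false,0,⟨0,
  [(0,0)]⟩,⟨9,[(3,3),(7,4),(7,1),(11,0),(2,3),(1,7)]⟩⟩,⟨true,0,⟨3,[(0,2),(1,0),(4,2),(3,1),(6,0)]⟩,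
  ⟨0,[(3,0)]⟩⟩,⟨false,0,⟨0,[]⟩,⟨0,[]⟩⟩,⟨false,0,⟨0,[]⟩,⟨0,[]⟩⟩,[.o ⟨false,0,⟨0,[(7,0)]⟩,⟨1,[(3,0),
  (10,0),(0,0),(17,0),(2,0)]⟩⟩,.o ⟨false,1,⟨21,[(6,9),(0,11),(3,4),(19,2),(3,9),(0,5)]⟩,⟨1,[(3,0),
  (29,0)]⟩⟩,.a ⟨true,0,⟨0,[(1,0)]⟩,⟨1,[(11,0),(6,0),(2,0)]⟩⟩ ⟨false,0,⟨0,[]⟩,⟨1,[(14,0),(0,0),(20,
  0)]⟩⟩ ⟨true,0,⟨6,[(2,0),(4,4),(3,3),(6,0),(15,0)]⟩,⟨1,[(1,1),(1,0),(29,0)]⟩⟩,.e ⟨true,0,⟨2,[(1,0),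
  (2,0),(13,0),(11,0),(1,0)]⟩,⟨5,[(3,0),(2,1),(15,1),(10,0)]⟩⟩ ⟨true,0,⟨0,[(7,0),(10,0)]⟩,⟨1,[(3,0),
  (17,1),(11,0)]⟩⟩]⟩) (.I [0,0,0,0,0,1,1] (.C [(0,0),(0,0),(5,0),(5,0),(5,0),(6,1),(6,0)]) (.C [(0,
  0),(1,0),(11,0)])))) (.R ⟨0,false,false,false,[0,0,1],[0,1,-1],[1,1,1],(⟨0,[(22,0)]⟩,⟨0,[(21,
  0)]⟩),(⟨0,[(11,0)]⟩,⟨0,[(22,0),(3,0)]⟩),⟨0,[(11,0)]⟩,.k,.k,.k,(.r 0 ⟨0,[(0,0)]⟩ ⟨0,[(4,0),(13,0),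
  (0,0),(13,0)]⟩),.k,.k,⟨false,0,⟨0,[(7,0)]⟩,⟨0,[(4,0),(28,0)]⟩⟩,⟨true,0,⟨0,[(0,0),(3,0),(0,0),(10,
  0),(13,0)]⟩,⟨0,[(19,1)]⟩⟩,⟨false,0,⟨0,[(4,0),(25,0)]⟩,⟨37,[(0,13),(8,4),(7,9),(11,0),(2,13),(0,
  11),(0,23)]⟩⟩,⟨true,0,⟨0,[(4,0),(0,0),(10,0),(13,0)]⟩,⟨0,[(1,0)]⟩⟩,⟨false,0,⟨0,[]⟩,⟨0,[]⟩⟩,⟨false,
  0,⟨0,[]⟩,⟨0,[]⟩⟩,[.o ⟨false,0,⟨0,[(5,0)]⟩,⟨1,[(1,0),(10,0),(0,0),(17,0),(2,0)]⟩⟩,.o ⟨false,1,⟨21,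
  [(4,9),(0,11),(3,4),(19,2),(3,9),(0,5)]⟩,⟨1,[(1,0),(29,0)]⟩⟩,.o ⟨false,1,⟨15,[(6,0),(5,1),(6,15),
  (9,2),(3,7)]⟩,⟨2,[(0,0),(3,0),(0,0),(3,0),(20,0)]⟩⟩,.a ⟨true,0,⟨0,[(19,0)]⟩,⟨0,[(16,0)]⟩⟩ ⟨false,
  0,⟨0,[]⟩,⟨1,[(12,0),(0,0),(20,0)]⟩⟩ ⟨true,0,⟨0,[(5,0),(10,0)]⟩,⟨1,[(1,0),(17,1),(11,0)]⟩⟩]⟩))

theorem ok15 : chk K t15 r7 = true := by decide +kernel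

noncomputable def t19 : Tre :=
  (.R ⟨2,true,false,false,[0,1],[0,0,1],[1,1,1],(⟨0,[]⟩,⟨0,[]⟩),(⟨0,[(20,0)]⟩,⟨0,[(19,0)]⟩),⟨0,[]⟩,
  .k,.k,.k,.k,.k,.k,⟨false,0,⟨0,[(3,0),(10,0),(2,1),(10,0)]⟩,⟨13,[(1,9),(0,3),(4,4),(19,0),(2,3),(0,
  2),(0,8)]⟩⟩,⟨true,0,⟨0,[(17,0)]⟩,⟨0,[(0,0)]⟩⟩,⟨true,0,⟨0,[(29,0)]⟩,⟨0,[(30,0)]⟩⟩,⟨false,1,⟨0,[(5,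
  0),(11,0),(14,0)]⟩,⟨0,[(3,0),(10,0),(2,0)]⟩⟩,⟨false,0,⟨0,[]⟩,⟨1,[(10,0),(0,0),(20,0)]⟩⟩,⟨true,0,
  ⟨0,[(1,0)]⟩,⟨0,[(16,0)]⟩⟩,[]⟩)

theorem ok19 : chk K t19 l14 = true := by decide +kernel

noncomputable def t20 : Tre :=
  (.Q [0,0,-1,0,1,0,-1,0,-1,0,-1,-1] (.p false [1,-1,1] [1,0,0,0,-1] (⟨0,[(21,0),(3,0)]⟩,⟨0,[(10,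
  0)]⟩) .k 2 (⟨0,[(13,0)]⟩,⟨0,[(14,0)]⟩) .k (.r 0 ⟨0,[(0,0)]⟩ ⟨1,[(17,1),(0,1),(13,0),(0,0)]⟩)) (.Q
  [0,0,0,0,0,0,-2,-2,0,1,-2] (.p false [0,0,1] [1,0,-1] (⟨0,[(22,0)]⟩,⟨0,[(21,0)]⟩) .k 2 (⟨0,[(21,
  0)]⟩,⟨0,[(22,0)]⟩) .k (.r 0 ⟨0,[(1,1)]⟩ ⟨0,[(2,1),(15,1),(15,0)]⟩)) (.R ⟨0,false,false,false,[1,0,
  -1],[0,0,1],[1,0,1],(⟨0,[(22,0)]⟩,⟨0,[(23,0)]⟩),(⟨0,[(23,0)]⟩,⟨0,[(22,0)]⟩),⟨0,[(11,0)]⟩,.k,.k,.k,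
  .k,.k,.k,⟨true,0,⟨1,[(0,0),(2,0),(7,0),(0,0),(7,0),(3,1),(11,0)]⟩,⟨0,[(2,0)]⟩⟩,⟨false,1,⟨4,[(3,8),
  (16,0),(9,0),(3,2)]⟩,⟨0,[(10,0)]⟩⟩,⟨true,0,⟨1,[(2,1),(17,0),(0,0)]⟩,⟨6,[(0,2),(2,8),(1,1),(0,2),
  (22,1),(1,0)]⟩⟩,⟨false,1,⟨4,[(4,8),(13,0),(11,0),(4,2)]⟩,⟨0,[(0,0)]⟩⟩,⟨false,0,⟨0,[]⟩,⟨0,[]⟩⟩,
  ⟨false,0,⟨0,[]⟩,⟨0,[]⟩⟩,[.e ⟨false,0,⟨0,[]⟩,⟨1,[(13,0),(0,0),(19,0)]⟩⟩ ⟨false,1,⟨9,[(3,9),(0,7),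
  (13,1),(11,1),(3,4),(0,0)]⟩,⟨1,[(0,0),(9,0)]⟩⟩,.o ⟨false,1,⟨4,[(4,3),(13,0),(11,0),(4,2)]⟩,⟨0,
  [(19,0)]⟩⟩,.a ⟨true,0,⟨1,[(10,0),(6,0),(2,0)]⟩,⟨0,[(3,0)]⟩⟩ ⟨true,0,⟨1,[(20,0),(0,0)]⟩,⟨4,[(3,1),
  (1,0),(0,0),(10,0),(11,1)]⟩⟩ ⟨false,1,⟨4,[(3,4),(0,3),(13,0),(11,0),(4,2)]⟩,⟨1,[(0,0),(9,0)]⟩⟩,.o
  ⟨false,0,⟨0,[(21,0)]⟩,⟨4,[(3,3),(16,0),(9,0),(3,2)]⟩⟩]⟩) (.Q [-1,-1,0,0,1,0,0,0,-1,0,0,-1] (.p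
  false [0,0,0,0,1] [] (⟨0,[(16,0)]⟩,⟨0,[(15,0)]⟩) .k 0 (⟨0,[]⟩,⟨0,[]⟩) .k .k) (.Q [1,0,0,-1,0,0,0,
  0,1,0,0,1] (.p true [0,0,0,0,1] [] (⟨0,[(17,0)]⟩,⟨0,[(16,0)]⟩) .k 0 (⟨0,[]⟩,⟨0,[]⟩) .k .k) (.R ⟨0,
  false,false,false,[1,0,-1],[1,0,0,0,-1],[1],(⟨0,[(24,0)]⟩,⟨0,[(25,0)]⟩),(⟨0,[(17,0)]⟩,⟨0,[(18,
  0)]⟩),⟨0,[(13,0)]⟩,.k,.k,.k,.k,.k,.k,⟨true,0,⟨0,[]⟩,⟨0,[(38,0)]⟩⟩,⟨false,1,⟨0,[(3,0),(1,1)]⟩,⟨4,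
  [(0,0),(3,0),(3,0),(0,1),(2,0),(6,1),(18,1)]⟩⟩,⟨true,0,⟨0,[(4,0)]⟩,⟨0,[(5,0),(15,0)]⟩⟩,⟨false,1,
  ⟨0,[(1,0),(4,0)]⟩,⟨0,[(0,0),(7,0),(10,0),(2,0)]⟩⟩,⟨false,0,⟨0,[]⟩,⟨0,[]⟩⟩,⟨false,0,⟨0,[]⟩,⟨0,[]⟩⟩,
  [.o ⟨false,1,⟨0,[(11,0)]⟩,⟨3,[(0,1),(1,0),(5,1),(0,0)]⟩⟩,.o ⟨false,1,⟨0,[(1,0)]⟩,⟨5,[(2,0),(5,1),
  (0,2),(24,1),(4,3)]⟩⟩,.a ⟨true,0,⟨1,[(12,0),(6,0),(2,0)]⟩,⟨0,[(5,0)]⟩⟩ ⟨true,0,⟨0,[]⟩,⟨0,[(39,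
  0)]⟩⟩ ⟨false,1,⟨0,[(1,0),(3,0)]⟩,⟨1,[(9,0),(2,0)]⟩⟩,.o ⟨false,0,⟨0,[(23,0)]⟩,⟨4,[(5,3),(16,0),(9,
  0),(3,2)]⟩⟩]⟩) (.Q [0,0,0,0,0,0,0,0,0,1,-2] (.ed true [0,0,2] (.r 0 ⟨0,[(4,1)]⟩ ⟨0,[(5,1),(15,1),
  (15,0)]⟩)) (.Q [0,1,0,0,0,0,-2,-2,0,0,-2] (.p false [0,0,1] [0,1,-1] (⟨0,[(26,0)]⟩,⟨0,[(25,0)]⟩)
  .k 2 (⟨0,[(15,0)]⟩,⟨0,[(26,0),(3,0)]⟩) .k (.r 0 ⟨0,[(5,1)]⟩ ⟨0,[(6,1),(15,1),(15,0)]⟩)) (.R ⟨0,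
  false,false,false,[0,0,1],[0,0,2],[1],(⟨0,[(27,0)]⟩,⟨0,[(26,0)]⟩),(⟨0,[(27,1)]⟩,⟨0,[(1,0)]⟩),⟨0,
  [(16,0)]⟩,.k,.k,.k,.k,.k,.k,⟨false,1,⟨1,[(0,1),(6,3),(30,0),(0,0)]⟩,⟨0,[(6,1)]⟩⟩,⟨true,0,⟨0,[(7,
  0)]⟩,⟨0,[(25,0)]⟩⟩,⟨false,1,⟨3,[(0,1),(6,1),(16,1),(13,0),(0,2)]⟩,⟨0,[(6,0)]⟩⟩,⟨true,0,⟨0,[(8,
  0)]⟩,⟨0,[(23,0)]⟩⟩,⟨false,0,⟨0,[]⟩,⟨0,[]⟩⟩,⟨false,0,⟨0,[]⟩,⟨0,[]⟩⟩,[.o ⟨false,0,⟨0,[(4,0)]⟩,⟨1,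
  [(0,1),(16,0),(0,0),(20,0)]⟩⟩,.o ⟨false,1,⟨13,[(4,8),(17,9),(11,0),(4,11)]⟩,⟨0,[(0,0)]⟩⟩,.e ⟨true,
  0,⟨0,[]⟩,⟨0,[(41,0)]⟩⟩ ⟨true,0,⟨0,[(6,0),(1,0)]⟩,⟨0,[(0,0),(6,0)]⟩⟩,.a ⟨true,0,⟨0,[(24,0)]⟩,⟨0,
  [(21,0)]⟩⟩ ⟨false,1,⟨1,[(38,0),(0,0)]⟩,⟨1,[(24,0),(0,0)]⟩⟩ ⟨true,0,⟨0,[(4,0),(16,0)]⟩,⟨0,[(0,0),
  (23,0)]⟩⟩]⟩) (.I [0,-1,1,0,0,0,0,2] (.Q [0,0,1,0,0,0,-2,0,0,0,-2] (.p false [0,0,1] [0,1,-1] (⟨0,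
  [(28,0)]⟩,⟨0,[(27,0)]⟩) .k 2 (⟨0,[(17,0)]⟩,⟨0,[(28,0),(3,0)]⟩) .k (.r 0 ⟨6,[(0,5),(9,1),(23,1),(3,
  1)]⟩ ⟨0,[(8,1),(15,1),(15,0)]⟩)) (.R ⟨0,false,false,false,[1,0,-2],[1,0,-1],[0,0,1],(⟨0,[(3,0)]⟩,
  ⟨0,[(29,1)]⟩),(⟨0,[(28,0)]⟩,⟨0,[(29,0)]⟩),⟨0,[(17,0),(11,0)]⟩,.k,.k,(.x 0 ⟨2,[(0,0),(15,2),(0,2),
  (8,1),(2,2)]⟩ ⟨61,[(2,9),(0,61),(5,123),(2,19),(17,13),(2,47),(2,17),(0,19),(2,20),(0,4)]⟩),.k,.k,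
  .k,⟨false,0,⟨0,[(8,0)]⟩,⟨1,[(9,1),(15,1),(14,0),(0,0)]⟩⟩,⟨true,0,⟨0,[(9,0)]⟩,⟨0,[(27,0)]⟩⟩,⟨false,
  0,⟨0,[(1,0)]⟩,⟨1,[(9,4),(2,0),(10,0),(1,2),(11,0),(3,1)]⟩⟩,⟨true,0,⟨0,[(10,0)]⟩,⟨0,[(25,0)]⟩⟩,
  ⟨false,0,⟨0,[]⟩,⟨0,[]⟩⟩,⟨false,0,⟨0,[]⟩,⟨0,[]⟩⟩,[.o ⟨false,1,⟨1,[(19,0),(0,0),(4,1),(15,0)]⟩,⟨5,
  [(2,3),(3,0),(5,3),(4,0),(0,0),(11,1),(7,3)]⟩⟩,.o ⟨false,1,⟨0,[(25,0),(15,0)]⟩,⟨2,[(6,1),(5,0),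
  (25,0),(4,1)]⟩⟩,.a ⟨true,0,⟨0,[(16,0)]⟩,⟨0,[(9,1)]⟩⟩ ⟨true,0,⟨2,[(0,0),(25,1)]⟩,⟨4,[(9,1),(1,0),
  (0,0),(10,0),(11,1)]⟩⟩ ⟨false,1,⟨0,[(9,1),(15,0),(15,0)]⟩,⟨7,[(0,0),(0,3),(9,1),(0,1),(3,1),(18,
  0)]⟩⟩,.o ⟨false,0,⟨0,[(0,0)]⟩,⟨4,[(9,8),(16,0),(9,0),(3,2)]⟩⟩]⟩) (.I [-1,0,0,1,0,0,0,0,-1] (.I [0,
  0,-1,0,0,1,-1] (.C [(0,1),(1,0),(2,1),(13,1),(12,3),(11,2)]) (.C [(0,0),(18,0),(5,0)])) (.C [(0,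
  0),(4,0),(17,0)]))) (.I [-1,0,0,1,0,0,0,0,-1] (.I [0,0,-1,0,0,1,-1] (.C [(0,1),(1,0),(0,0),(0,1),
  (13,1),(12,3),(11,2)]) (.C [(0,0),(17,0),(5,0)])) (.C [(0,0),(3,0),(17,0)])))) (.I [0,0,1,1,0,0,0,
  -2] (.Q [0,0,1,0,0,0,2,0,0,-1,2] (.p true [0,0,1] [1,0,-1] (⟨0,[(27,0)]⟩,⟨0,[(26,0)]⟩) .k 2 (⟨0,
  [(26,0)]⟩,⟨0,[(27,0)]⟩) .k (.r 0 ⟨0,[(6,1)]⟩ ⟨1,[(0,1),(35,1),(1,0),(0,0)]⟩)) (.K ⟨0,[-1,0,2],0,0,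
  (⟨0,[(2,0)]⟩,⟨0,[(27,1)]⟩),.k,(.r (-1) ⟨13,[(7,3),(5,13),(1,4),(7,9),(11,0),(4,11)]⟩ ⟨0,[(1,0)]⟩),
  (.r 0 ⟨1,[(7,3),(17,0),(0,0),(11,1)]⟩ ⟨0,[(1,0),(34,1),(3,0)]⟩),.k,.k,[⟨1,[(15,0),(6,0),(2,0)]⟩,
  ⟨0,[(0,0)]⟩,⟨0,[(1,0),(13,0),(20,0)]⟩,⟨0,[(5,0),(36,0)]⟩]⟩) (.I [0,0,0,0,0,1,1] (.C [(0,1),(0,0),
  (1,0),(26,1),(11,0)]) (.C [(0,0),(8,0),(8,0)]))) (.I [0,0,-1,-1,0,0,0,2] (.Q [0,0,1,0,0,0,3,0,0,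
  -1,3] (.p true [0,0,1] [1,1,-2] (⟨0,[(28,0)]⟩,⟨0,[(27,0)]⟩) .k 2 (⟨0,[(17,0),(9,0)]⟩,⟨0,[(2,0),
  (29,0)]⟩) (.r (-1) ⟨0,[(8,0),(15,1),(0,0),(12,0),(1,0)]⟩ ⟨0,[(0,0)]⟩) (.x (-1) ⟨16,[(5,2),(2,50),
  (2,5),(5,6),(9,43),(1,6),(5,6),(0,5),(3,2),(0,5)]⟩ ⟨1,[(2,2),(12,2)]⟩)) (.K ⟨0,[1,1,-2],0,0,(⟨0,
  [(18,0),(9,0)]⟩,⟨0,[(3,0),(29,0)]⟩),(.r (-1) ⟨1,[(0,0),(22,0),(1,3),(0,1),(12,1),(1,1)]⟩ ⟨0,[(1,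
  0)]⟩),(.r (-1) ⟨0,[(0,0),(22,0),(1,1),(15,0)]⟩ ⟨0,[(8,1)]⟩),(.r 0 ⟨0,[(12,1),(10,1),(2,3)]⟩ ⟨1,
  [(1,1),(36,1),(1,0),(0,0)]⟩),(.r (-1) ⟨0,[(0,0),(11,0),(10,1),(1,1),(0,1),(14,0)]⟩ ⟨0,[(1,0),(6,
  0)]⟩),.k,[⟨0,[(0,0)]⟩,⟨0,[(16,0)]⟩,⟨0,[(6,0),(31,0)]⟩,⟨0,[(12,0),(10,1),(1,0),(0,1)]⟩]⟩) (.I [0,0,
  0,0,0,1,1] (.C [(0,1),(0,0),(2,0),(5,0),(20,1),(11,0)]) (.C [(0,0),(9,0),(8,0)]))) (.N [0,-1,2] 0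
  ⟨0,[(1,0)]⟩ ⟨0,[(0,0)]⟩ (.x 0 ⟨0,[(8,1),(8,1),(11,0),(11,0)]⟩ ⟨15,[(2,15),(9,0),(2,15),(2,1),(13,
  15),(2,2),(3,7)]⟩)))))) (.Q [-1,-1,0,1,1,0,0,0,-1,0,0,-1] (.p false [0,0,0,0,1] [] (⟨0,[(17,0)]⟩,
  ⟨0,[(16,0)]⟩) .k 0 (⟨0,[]⟩,⟨0,[]⟩) .k .k) (.R ⟨2,true,false,true,[0,1],[0,0,0,0,1],[1,1,1],(⟨0,
  []⟩,⟨0,[]⟩),(⟨0,[(18,0)]⟩,⟨0,[(17,0)]⟩),⟨0,[]⟩,.k,.k,.k,(.r 0 ⟨1,[(22,0),(0,0),(11,1)]⟩ ⟨1,[(34,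
  1),(1,0),(0,0)]⟩),.k,.k,⟨true,0,⟨1,[(22,0),(0,0)]⟩,⟨0,[]⟩⟩,⟨false,0,⟨0,[(16,0)]⟩,⟨0,[(3,0),(1,
  0)]⟩⟩,⟨true,0,⟨0,[(34,0)]⟩,⟨0,[(35,0)]⟩⟩,⟨false,0,⟨0,[(1,0),(32,0),(2,0)]⟩,⟨0,[(0,0)]⟩⟩,⟨false,0,
  ⟨0,[]⟩,⟨1,[(15,0),(0,0),(20,0)]⟩⟩,⟨true,(-1),⟨0,[(1,0)]⟩,⟨0,[(11,0)]⟩⟩,[]⟩) (.Q [-1,0,0,0,1,0,-1,
  -1,-1,1,-1,-1] (.p false [0,0,1] [1,0,0,0,-1] (⟨0,[(25,0)]⟩,⟨0,[(24,0)]⟩) .k 2 (⟨0,[(17,0)]⟩,⟨0,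
  [(18,0)]⟩) .k (.r 0 ⟨0,[(4,0)]⟩ ⟨1,[(21,1),(0,1),(13,0),(0,0)]⟩)) (.R ⟨0,false,false,false,[1,0,
  -1],[0,0,0,0,1],[2],(⟨0,[(25,0)]⟩,⟨0,[(26,0)]⟩),(⟨0,[(19,0)]⟩,⟨0,[(18,0)]⟩),⟨0,[(14,0)]⟩,.k,.k,.k,
  .k,.k,.k,⟨true,0,⟨0,[]⟩,⟨1,[(23,0),(0,0)]⟩⟩,⟨false,0,⟨5,[(1,3),(0,1),(0,1),(2,5),(2,3),(27,2),(0,
  2)]⟩,⟨0,[(0,0),(4,0)]⟩⟩,⟨true,0,⟨0,[(5,0)]⟩,⟨4,[(6,4),(2,0),(12,3),(5,0),(1,0),(3,0),(4,0)]⟩⟩,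
  ⟨false,0,⟨2,[(1,0),(0,1),(0,1),(5,0),(28,2)]⟩,⟨0,[(0,0)]⟩⟩,⟨false,0,⟨0,[]⟩,⟨0,[]⟩⟩,⟨false,0,⟨0,
  []⟩,⟨0,[]⟩⟩,[.o ⟨false,0,⟨17,[(1,3),(1,1),(5,3),(0,6),(22,0),(4,1)]⟩,⟨0,[(12,0)]⟩⟩,.o ⟨false,0,⟨2,
  [(1,1),(0,0),(0,0),(5,1),(28,2)]⟩,⟨0,[(16,0),(23,0)]⟩⟩,.a ⟨true,0,⟨1,[(13,0),(6,0),(2,0)]⟩,⟨0,[(6,
  0)]⟩⟩ ⟨true,0,⟨0,[]⟩,⟨0,[(40,0)]⟩⟩ ⟨false,0,⟨2,[(1,1),(0,0),(0,0),(2,2),(2,1),(28,2)]⟩,⟨0,[(0,0),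
  (4,0)]⟩⟩,.o ⟨false,0,⟨0,[(24,0)]⟩,⟨4,[(6,3),(16,0),(9,0),(3,2)]⟩⟩]⟩) (.Q [0,0,0,0,0,-1,0,0,0,0,0,
  1] (.ed false [1,-1,0,0,1] .k) (.Q [-2,-1,0,1,2,0,0,0,-2,1,0,-2] (.p false [0,0,0,0,1] [1,0,0,0,
  -1] (⟨0,[(20,0)]⟩,⟨0,[(19,0)]⟩) .k 2 (⟨0,[(19,0)]⟩,⟨0,[(20,0)]⟩) .k (.r 0 ⟨0,[]⟩ ⟨3,[(13,2),(4,2),
  (20,0),(1,1)]⟩)) (.R ⟨1,true,false,false,[0,0,0,0,1],[1,0,0,0,-1],[1],(⟨0,[(21,0)]⟩,⟨0,[(20,0)]⟩),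
  (⟨0,[(20,0)]⟩,⟨0,[(21,0)]⟩),⟨0,[(1,0)]⟩,.k,.k,(.r (-1) ⟨1,[(37,1),(1,0),(0,0)]⟩ ⟨1,[(25,0),(0,0),
  (11,1)]⟩),.k,(.r (-1) ⟨1,[(37,1),(1,0),(0,0)]⟩ ⟨3,[(25,0),(0,0),(11,3),(2,1)]⟩),.k,⟨true,0,⟨0,[]⟩,
  ⟨0,[(41,0)]⟩⟩,⟨false,2,⟨0,[(0,0),(35,0)]⟩,⟨9,[(2,6),(0,6),(7,6),(7,5),(10,3),(1,3),(7,3),(1,0)]⟩⟩,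
  ⟨false,1,⟨3,[(0,0),(11,0),(24,0),(2,1)]⟩,⟨0,[]⟩⟩,⟨true,2,⟨0,[(0,0),(36,0)]⟩,⟨0,[(2,0),(0,0),(7,0),
  (10,0),(2,0)]⟩⟩,⟨true,0,⟨0,[(38,0)]⟩,⟨0,[(37,0)]⟩⟩,⟨false,2,⟨0,[(0,0)]⟩,⟨37,[(2,13),(0,51),(7,13),
  (0,4),(22,0),(4,25)]⟩⟩,[]⟩) (.Q [0,0,2,0,-1,0,0,0,1,0,0,1] (.p true [0,0,0,0,1] [] (⟨0,[(21,0)]⟩,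
  ⟨0,[(20,0)]⟩) .k 0 (⟨0,[]⟩,⟨0,[]⟩) .k .k) (.K ⟨0,[0,-1,0,0,1],(-1),(-1),(⟨0,[(2,0)]⟩,⟨0,[(21,0),
  (9,0)]⟩),(.r (-1) ⟨1,[(38,1),(1,0),(0,0)]⟩ ⟨1,[(26,0),(0,0),(11,1)]⟩),(.r (-1) ⟨0,[(37,1),(3,0)]⟩
  ⟨0,[(26,0),(0,0),(11,1)]⟩),.k,(.r (-1) ⟨0,[(9,0),(15,0),(11,0),(3,0)]⟩ ⟨1,[(8,1),(17,0),(0,0),(11,
  1)]⟩),.k,[⟨0,[(7,0),(1,1)]⟩,⟨0,[(0,0)]⟩,⟨0,[(19,0),(19,0),(3,0)]⟩,⟨0,[(4,0)]⟩]⟩) (.Q [0,0,0,0,0,0,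
  0,0,0,-1,2] (.ed false [0,0,2] (.r 0 ⟨0,[(8,1)]⟩ ⟨0,[(9,1),(15,1),(15,0)]⟩)) (.I [0,0,-1,-1,0,0,0,
  2] (.Q [0,0,1,0,0,0,3,0,0,-1,3] (.p true [0,0,1] [1,1,-2] (⟨0,[(31,0)]⟩,⟨0,[(30,0)]⟩) .k 2 (⟨0,
  [(20,0),(9,0)]⟩,⟨0,[(1,0),(33,0)]⟩) (.r (-1) ⟨0,[(11,0),(15,1),(0,0),(12,0),(1,0)]⟩ ⟨0,[(0,0)]⟩)
  (.x (-1) ⟨10,[(2,1),(2,1),(5,32),(2,1),(5,3),(9,28),(1,3),(5,4),(0,1),(3,0),(0,5)]⟩ ⟨1,[(1,2),(16,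
  2)]⟩)) (.K ⟨0,[1,1,-2],0,0,(⟨0,[(21,0),(9,0)]⟩,⟨0,[(2,0),(33,0)]⟩),(.r (-1) ⟨1,[(0,0),(25,0),(1,
  3),(0,1),(12,1),(1,1)]⟩ ⟨0,[(1,0)]⟩),(.r (-1) ⟨0,[(0,0),(25,0),(1,1),(15,0)]⟩ ⟨0,[(11,1)]⟩),(.r 0
  ⟨0,[(15,1),(10,1),(2,3)]⟩ ⟨1,[(1,1),(39,1),(1,0),(0,0)]⟩),(.r (-1) ⟨0,[(0,0),(14,0),(10,1),(1,1),
  (0,1),(14,0)]⟩ ⟨0,[(1,0),(9,0)]⟩),.k,[⟨0,[(0,0)]⟩,⟨0,[(19,0)]⟩,⟨0,[(9,0),(31,0)]⟩,⟨0,[(15,0),(10,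
  1),(1,0),(0,1)]⟩]⟩) (.I [0,0,0,0,0,1,1] (.C [(0,1),(0,0),(1,0),(9,0),(20,1),(11,0)]) (.C [(0,0),
  (12,0),(8,0)]))) (.Q [0,0,1,0,0,0,2,0,0,-1,2] (.p true [0,0,1] [1,0,-1] (⟨0,[(31,0)]⟩,⟨0,[(30,
  0)]⟩) .k 2 (⟨0,[(30,0)]⟩,⟨0,[(31,0)]⟩) .k (.r 0 ⟨0,[(10,1)]⟩ ⟨1,[(0,1),(39,1),(1,0),(0,0)]⟩)) (.K
  ⟨0,[-1,0,2],0,0,(⟨0,[(2,0)]⟩,⟨0,[(31,1)]⟩),.k,(.x 0 ⟨0,[(0,0),(20,0),(9,0)]⟩ ⟨15,[(2,15),(13,0),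
  (2,15),(2,1),(13,15),(2,2),(3,7)]⟩),(.r 0 ⟨1,[(11,3),(17,0),(0,0),(11,1)]⟩ ⟨0,[(1,0),(38,1),(3,
  0)]⟩),.k,.k,[⟨1,[(19,0),(6,0),(2,0)]⟩,⟨0,[(0,0)]⟩,⟨0,[(1,0),(17,0),(20,0)]⟩,⟨0,[(9,0),(36,0)]⟩]⟩)
  (.I [0,0,0,0,0,1,1] (.C [(0,1),(0,0),(1,0),(30,1),(11,0)]) (.C [(0,0),(12,0),(8,0)])))) (.Q [0,1,
  0,0,0,0,-2,-2,0,0,-2] (.p false [0,0,1] [0,1,-1] (⟨0,[(30,0)]⟩,⟨0,[(29,0)]⟩) .k 2 (⟨0,[(19,0)]⟩,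
  ⟨0,[(30,0),(3,0)]⟩) .k (.r 0 ⟨0,[(9,1)]⟩ ⟨0,[(10,1),(15,1),(15,0)]⟩)) (.R ⟨0,false,false,false,[0,
  0,1],[0,0,2],[1],(⟨0,[(31,0)]⟩,⟨0,[(30,0)]⟩),(⟨0,[(31,1)]⟩,⟨0,[(1,0)]⟩),⟨0,[(20,0)]⟩,.k,.k,.k,.k,
  .k,.k,⟨false,1,⟨1,[(0,1),(10,3),(30,0),(0,0)]⟩,⟨0,[(10,1)]⟩⟩,⟨true,0,⟨0,[(11,0)]⟩,⟨0,[(29,0)]⟩⟩,
  ⟨false,1,⟨3,[(0,1),(10,1),(16,1),(13,0),(0,2)]⟩,⟨0,[(10,0)]⟩⟩,⟨true,0,⟨0,[(12,0)]⟩,⟨0,[(27,0)]⟩⟩,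
  ⟨false,0,⟨0,[]⟩,⟨0,[]⟩⟩,⟨false,0,⟨0,[]⟩,⟨0,[]⟩⟩,[.o ⟨false,0,⟨0,[(8,0)]⟩,⟨1,[(0,1),(20,0),(0,0),
  (20,0)]⟩⟩,.o ⟨false,1,⟨13,[(8,8),(17,9),(11,0),(4,11)]⟩,⟨0,[(0,0)]⟩⟩,.e ⟨true,0,⟨0,[]⟩,⟨0,[(45,
  0)]⟩⟩ ⟨true,0,⟨0,[(10,0),(1,0)]⟩,⟨0,[(0,0),(10,0)]⟩⟩,.a ⟨true,0,⟨0,[(28,0)]⟩,⟨0,[(25,0)]⟩⟩ ⟨false,
  1,⟨1,[(42,0),(0,0)]⟩,⟨1,[(28,0),(0,0)]⟩⟩ ⟨true,0,⟨0,[(8,0),(16,0)]⟩,⟨0,[(0,0),(27,0)]⟩⟩]⟩) (.Q [0,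
  -1,-1,0,0,0,1,2,0,0,1] (.p true [0,0,1] [] (⟨0,[(31,0)]⟩,⟨0,[(30,0)]⟩) .k 0 (⟨0,[]⟩,⟨0,[]⟩) .k
  .k) (.R ⟨0,false,false,false,[0,0,1],[0,0,2],[1],(⟨0,[(32,0)]⟩,⟨0,[(31,0)]⟩),(⟨0,[(32,1)]⟩,⟨0,[(2,
  0)]⟩),⟨0,[(21,0)]⟩,.k,.k,.k,.k,.k,.k,⟨false,1,⟨5,[(3,1),(0,0),(7,13),(2,0),(10,1),(1,10),(15,5)]⟩,
  ⟨0,[(11,1)]⟩⟩,⟨true,0,⟨0,[(12,0)]⟩,⟨0,[(30,0)]⟩⟩,⟨false,1,⟨0,[(12,0),(15,0),(15,0)]⟩,⟨0,[(11,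
  0)]⟩⟩,⟨true,0,⟨0,[(13,0)]⟩,⟨0,[(28,0)]⟩⟩,⟨false,0,⟨0,[]⟩,⟨0,[]⟩⟩,⟨false,0,⟨0,[]⟩,⟨0,[]⟩⟩,[.o
  ⟨false,0,⟨0,[(9,0)]⟩,⟨0,[(28,1),(15,0)]⟩⟩,.e ⟨false,1,⟨1,[(43,0),(0,0)]⟩,⟨0,[(46,0)]⟩⟩ ⟨false,0,
  ⟨0,[(0,0)]⟩,⟨1,[(28,3),(0,1),(13,0),(0,0)]⟩⟩,.a ⟨true,0,⟨0,[(12,0)]⟩,⟨1,[(19,0),(6,0),(2,0)]⟩⟩
  ⟨true,0,⟨0,[]⟩,⟨0,[(46,0)]⟩⟩ ⟨false,0,⟨1,[(0,0),(0,0),(28,0)]⟩,⟨0,[(12,0),(15,1),(15,0)]⟩⟩,.e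
  ⟨false,1,⟨1,[(43,0),(0,0)]⟩,⟨1,[(29,0),(0,0)]⟩⟩ ⟨false,0,⟨0,[(0,0)]⟩,⟨0,[(28,1),(0,0),(14,
  0)]⟩⟩]⟩) (.Q [0,0,1,0,0,0,-2,0,0,0,-2] (.p false [0,0,1] [0,1,-1] (⟨0,[(32,0)]⟩,⟨0,[(31,0)]⟩) .k
  2 (⟨0,[(21,0)]⟩,⟨0,[(32,0),(3,0)]⟩) .k (.r 0 ⟨0,[(11,1)]⟩ ⟨1,[(0,1),(11,1),(30,0),(0,0)]⟩)) (.R
  ⟨0,false,false,true,[1,0,-2],[1,0,-1],[0,1,0,-1,0,0,0,-2],(⟨0,[(3,0)]⟩,⟨0,[(33,1)]⟩),(⟨0,[(32,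
  0)]⟩,⟨0,[(33,0)]⟩),⟨0,[(21,0),(11,0)]⟩,.k,.k,(.r (-1) ⟨3,[(1,3),(2,1),(0,0),(7,4),(13,0),(13,2),
  (3,3)]⟩ ⟨2,[(0,2),(1,1),(25,1),(14,2)]⟩),.k,.k,.k,⟨false,1,⟨3,[(1,1),(11,1),(27,3),(2,0),(0,2)]⟩,
  ⟨0,[(12,0),(30,0)]⟩⟩,⟨true,0,⟨0,[(13,0)]⟩,⟨0,[(31,0)]⟩⟩,⟨true,0,⟨0,[(42,0)]⟩,⟨0,[(43,0)]⟩⟩,⟨false,
  0,⟨0,[(14,0)]⟩,⟨11,[(1,5),(18,0),(6,3),(12,0),(3,0),(0,8)]⟩⟩,⟨false,0,⟨0,[]⟩,⟨0,[]⟩⟩,⟨false,0,⟨0,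
  []⟩,⟨0,[]⟩⟩,[.o ⟨false,0,⟨0,[(29,0)]⟩,⟨50,[(2,19),(14,5),(5,11),(4,10),(11,8),(4,20)]⟩⟩,.o ⟨false,
  1,⟨3,[(1,1),(15,0),(2,0),(2,1),(20,0),(0,0)]⟩,⟨0,[(7,0),(11,0)]⟩⟩,.a ⟨true,0,⟨0,[(20,0)]⟩,⟨0,[(13,
  1)]⟩⟩ ⟨false,1,⟨0,[(1,0),(11,0),(27,0),(3,0)]⟩,⟨2,[(2,2),(9,1),(3,1),(3,1),(22,0)]⟩⟩ ⟨true,0,⟨5,
  [(1,2),(2,0),(4,0),(3,8),(25,0)]⟩,⟨3,[(0,0),(6,0),(3,0),(0,2),(7,0)]⟩⟩,.o ⟨false,0,⟨0,[(0,0)]⟩,⟨4,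
  [(13,8),(16,0),(9,0),(3,2)]⟩⟩]⟩) (.I [0,0,-1,0,0,1,-1] (.C [(0,1),(0,0),(2,1),(17,1),(12,3),(11,
  2)]) (.C [(0,0),(21,0),(5,0)])))))))) (.Q [0,0,1,0,-1,0,-1,0,1,1,-1,1] (.p false [0,0,1] [1,-1,0,
  0,1] (⟨0,[(27,0)]⟩,⟨0,[(26,0)]⟩) .k 2 (⟨0,[(20,0),(10,0)]⟩,⟨0,[(0,0)]⟩) (.r (-1) ⟨1,[(36,1),(1,0),
  (0,0)]⟩ ⟨1,[(24,0),(0,0),(11,1)]⟩) (.r 0 ⟨0,[(1,0),(3,0),(1,0),(13,0),(18,1)]⟩ ⟨1,[(23,1),(0,1),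
  (13,0),(0,0)]⟩)) (.Q [0,0,2,0,-1,0,1,0,1,0,1,1] (.p true [0,0,1] [0,1,0,0,-1] (⟨0,[(28,0)]⟩,⟨0,
  [(27,0)]⟩) .k 2 (⟨0,[(1,0)]⟩,⟨0,[(21,0),(10,0)]⟩) (.r 0 ⟨1,[(25,0),(0,0),(11,1)]⟩ ⟨1,[(37,1),(1,
  0),(0,0)]⟩) (.r 0 ⟨0,[(7,0)]⟩ ⟨1,[(24,1),(0,1),(13,0),(0,0)]⟩)) (.R ⟨0,false,false,false,[0,0,1],
  [0,1,0,0,-1],[1],(⟨0,[(29,0)]⟩,⟨0,[(28,0)]⟩),(⟨0,[(2,0)]⟩,⟨0,[(22,0),(10,0)]⟩),⟨0,[(18,0)]⟩,.k,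
  (.r 0 ⟨1,[(26,0),(0,0),(11,1)]⟩ ⟨1,[(38,1),(1,0),(0,0)]⟩),.k,(.r (-1) ⟨7,[(13,0),(0,5),(1,0),(2,
  1),(4,1),(13,1),(1,0),(0,4)]⟩ ⟨1,[(12,1),(10,0),(2,2),(4,0),(1,0)]⟩),.k,.k,⟨false,1,⟨1,[(37,1),(2,
  0),(0,0)]⟩,⟨1,[(26,0),(0,0),(11,1)]⟩⟩,⟨true,1,⟨0,[(7,0)]⟩,⟨0,[(0,0)]⟩⟩,⟨false,1,⟨0,[(9,0),(15,0),
  (15,0)]⟩,⟨0,[(8,0)]⟩⟩,⟨true,1,⟨1,[(12,1),(6,1),(3,0),(2,0),(4,0),(1,0)]⟩,⟨0,[(0,0),(10,0)]⟩⟩,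
  ⟨false,0,⟨0,[]⟩,⟨0,[]⟩⟩,⟨false,0,⟨0,[]⟩,⟨0,[]⟩⟩,[.o ⟨false,1,⟨2,[(6,0),(5,1),(2,1),(3,0),(19,0)]⟩,
  ⟨1,[(4,0),(15,0),(17,0),(2,0)]⟩⟩,.o ⟨false,2,⟨15,[(13,0),(5,17),(16,2),(2,15),(1,7)]⟩,⟨0,[(4,
  0)]⟩⟩,.e ⟨true,0,⟨0,[]⟩,⟨0,[(43,0)]⟩⟩ ⟨true,1,⟨1,[(7,0),(11,0),(7,0),(11,1)]⟩,⟨0,[(4,0),(4,0)]⟩⟩,
  .a ⟨true,0,⟨0,[(26,0)]⟩,⟨0,[(23,0)]⟩⟩ ⟨false,1,⟨1,[(40,0),(0,0)]⟩,⟨1,[(26,0),(0,0)]⟩⟩ ⟨true,1,⟨0,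
  [(7,0),(31,0)]⟩,⟨0,[(4,0),(21,0)]⟩⟩]⟩) (.Q [1,-1,0,-1,0,0,-1,-1,1,1,-1,1] (.p false [0,0,1] [1,-1,
  0,0,1] (⟨0,[(29,0)]⟩,⟨0,[(28,0)]⟩) .k 2 (⟨0,[(22,0),(10,0)]⟩,⟨0,[(2,0)]⟩) (.r (-1) ⟨1,[(38,1),(1,
  0),(0,0)]⟩ ⟨1,[(26,0),(0,0),(11,1)]⟩) (.r 0 ⟨0,[(0,1),(0,0),(1,0),(5,1),(32,2)]⟩ ⟨1,[(25,1),(0,1),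
  (13,0),(0,0)]⟩)) (.R ⟨0,false,false,false,[0,1,0,0,-1],[1,0,-1],[0,0,1,1],(⟨0,[(3,0)]⟩,⟨0,[(23,0),
  (10,0)]⟩),(⟨0,[(29,0)]⟩,⟨0,[(30,0)]⟩),⟨0,[(23,0)]⟩,(.r 0 ⟨1,[(27,0),(0,0),(11,1)]⟩ ⟨1,[(39,1),(1,
  0),(0,0)]⟩),.k,.k,(.r 0 ⟨1,[(9,1),(17,0),(0,0),(11,1)]⟩ ⟨14,[(0,9),(0,3),(8,18),(9,5),(5,4),(10,
  1),(0,4),(2,0)]⟩),.k,.k,⟨false,0,⟨0,[(9,0),(30,0)]⟩,⟨14,[(0,9),(0,3),(8,18),(9,5),(5,4),(10,1),(0,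
  4),(2,0)]⟩⟩,⟨true,(-1),⟨0,[(2,0)]⟩,⟨0,[(1,0),(8,1),(7,0),(0,0),(11,1),(11,1)]⟩⟩,⟨true,0,⟨0,[]⟩,⟨0,
  [(44,0)]⟩⟩,⟨false,0,⟨0,[(0,0)]⟩,⟨2,[(7,1),(5,0),(2,0),(3,1),(19,1)]⟩⟩,⟨false,0,⟨0,[]⟩,⟨0,[]⟩⟩,
  ⟨false,0,⟨0,[]⟩,⟨0,[]⟩⟩,[.o ⟨false,1,⟨3,[(0,0),(13,0),(1,0),(3,1),(5,2),(13,0),(1,0)]⟩,⟨0,[(4,0),
  (11,0)]⟩⟩,.o ⟨false,1,⟨0,[(26,0),(15,0)]⟩,⟨2,[(7,1),(5,0),(25,0),(4,1)]⟩⟩,.a ⟨true,1,⟨1,[(1,0),(8,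
  0),(9,0)]⟩,⟨0,[(2,0),(7,0)]⟩⟩ ⟨true,0,⟨1,[(27,0),(0,0),(11,1)]⟩,⟨0,[(38,0)]⟩⟩ ⟨false,0,⟨1,[(0,0),
  (1,0),(23,0),(0,0),(12,0),(1,0)]⟩,⟨1,[(1,0),(2,1),(5,0),(5,1),(3,0)]⟩⟩,.o ⟨false,1,⟨0,[(1,0),(8,
  0),(7,0),(0,0),(11,1),(11,1)]⟩,⟨0,[(21,0)]⟩⟩]⟩) (.R ⟨0,false,false,false,[0,0,1],[1,-1,0,0,1],[1],
  (⟨0,[(30,0)]⟩,⟨0,[(29,0)]⟩),(⟨0,[(23,0),(10,0)]⟩,⟨0,[(3,0)]⟩),⟨0,[(19,0)]⟩,.k,(.r (-1) ⟨1,[(39,1),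
  (1,0),(0,0)]⟩ ⟨1,[(27,0),(0,0),(11,1)]⟩),.k,(.r 0 ⟨1,[(9,1),(17,0),(0,0),(11,1)]⟩ ⟨0,[(10,0),(15,
  0),(11,0),(3,0)]⟩),.k,.k,⟨false,0,⟨0,[(40,0)]⟩,⟨1,[(39,1),(1,0),(0,0)]⟩⟩,⟨true,(-1),⟨0,[(2,0)]⟩,
  ⟨0,[(1,0),(8,1),(7,0),(0,0),(11,1),(11,1)]⟩⟩,⟨false,1,⟨0,[(10,0),(15,0),(15,0)]⟩,⟨0,[(9,0)]⟩⟩,
  ⟨true,0,⟨0,[(5,0),(18,0),(1,0),(0,0),(14,0)]⟩,⟨0,[(0,0)]⟩⟩,⟨false,0,⟨0,[]⟩,⟨0,[]⟩⟩,⟨false,0,⟨0,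
  []⟩,⟨0,[]⟩⟩,[.o ⟨false,0,⟨1,[(5,0),(15,0),(17,0),(2,0)]⟩,⟨12,[(0,3),(12,3),(2,2),(3,5),(16,0),(2,
  4),(1,1)]⟩⟩,.o ⟨false,0,⟨0,[(5,0),(36,0)]⟩,⟨6,[(0,1),(19,4),(5,1),(10,0),(2,4),(3,2)]⟩⟩,.a ⟨true,
  0,⟨0,[(10,0)]⟩,⟨1,[(17,0),(6,0),(2,0)]⟩⟩ ⟨true,0,⟨0,[]⟩,⟨0,[(44,0)]⟩⟩ ⟨false,0,⟨1,[(2,0),(2,0),
  (18,0),(14,0),(2,1)]⟩,⟨12,[(0,3),(9,12),(2,3),(2,2),(3,5),(16,0),(2,4),(1,1)]⟩⟩,.e ⟨false,1,⟨1,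
  [(41,0),(0,0)]⟩,⟨1,[(27,0),(0,0)]⟩⟩ ⟨false,0,⟨0,[(5,0),(18,0),(17,0)]⟩,⟨12,[(0,3),(12,3),(2,2),(3,
  5),(6,12),(9,0),(2,4),(1,1)]⟩⟩]⟩))) (.Q [0,0,2,0,-1,0,0,0,1,1,0,1] (.p true [1,-1,0,0,1] [] (⟨0,
  [(21,0),(10,0)]⟩,⟨0,[(1,0)]⟩) (.r (-1) ⟨1,[(37,1),(1,0),(0,0)]⟩ ⟨1,[(25,0),(0,0),(11,1)]⟩) 0 (⟨0,
  []⟩,⟨0,[]⟩) .k .k) (.K ⟨0,[1,-1,0,0,1],(-1),(-1),(⟨0,[(22,0),(10,0)]⟩,⟨0,[(2,0)]⟩),(.r (-1) ⟨1,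
  [(38,1),(1,0),(0,0)]⟩ ⟨1,[(26,0),(0,0),(11,1)]⟩),(.r (-1) ⟨0,[(37,1),(3,0)]⟩ ⟨0,[(26,0),(0,0),(11,
  1)]⟩),.k,(.r (-1) ⟨0,[(9,0),(15,0),(11,0),(3,0)]⟩ ⟨3,[(0,0),(5,0),(1,1),(10,0),(7,1),(11,3)]⟩),.k,
  [⟨0,[(1,0)]⟩,⟨0,[(0,0)]⟩,⟨6,[(6,0),(5,5),(6,6),(4,3),(14,0),(3,2)]⟩,⟨1,[(0,0),(3,0),(4,0),(13,0),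
  (13,0)]⟩]⟩) (.I [0,0,-1,-1,0,0,0,4] (.Q [0,0,0,0,0,0,0,0,0,1,-2] (.ed true [0,0,2] (.r 0 ⟨3,[(0,
  1),(26,0),(0,0),(11,1)]⟩ ⟨0,[(10,1),(15,1),(15,0)]⟩)) (.I [0,-1,0,0,0,0,0,2] (.Q [0,0,1,0,0,0,-2,
  0,0,0,-2] (.p false [0,0,1] [0,1,-1] (⟨0,[(32,0)]⟩,⟨0,[(31,0)]⟩) .k 2 (⟨0,[(21,0)]⟩,⟨0,[(32,0),(3,
  0)]⟩) .k (.r 0 ⟨6,[(0,1),(1,1),(24,1),(2,1),(11,1)]⟩ ⟨0,[(12,1),(15,1),(15,0)]⟩)) (.R ⟨0,false,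
  false,false,[1,0,-2],[1,0,-1],[1],(⟨0,[(2,0)]⟩,⟨0,[(33,1)]⟩),(⟨0,[(32,0)]⟩,⟨0,[(33,0)]⟩),⟨0,[(21,
  0),(11,0)]⟩,.k,.k,(.x 0 ⟨0,[(0,0),(32,1),(1,0)]⟩ ⟨81,[(2,81),(2,21),(1,13),(5,141),(2,13),(0,3),
  (19,81),(2,21),(0,13),(2,22),(0,6)]⟩),.k,.k,.k,⟨false,0,⟨16,[(3,1),(0,2),(2,2),(2,2),(16,8),(15,
  1)]⟩,⟨1,[(29,1),(0,1),(13,0),(0,0)]⟩⟩,⟨true,0,⟨0,[(13,0)]⟩,⟨0,[(31,0)]⟩⟩,⟨false,0,⟨0,[(1,0)]⟩,⟨0,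
  [(13,1),(15,1),(15,0)]⟩⟩,⟨true,0,⟨0,[(14,0)]⟩,⟨0,[(29,0)]⟩⟩,⟨false,0,⟨0,[]⟩,⟨0,[]⟩⟩,⟨false,0,⟨0,
  []⟩,⟨0,[]⟩⟩,[.o ⟨false,1,⟨1,[(23,0),(0,0),(4,1),(15,0)]⟩,⟨5,[(0,0),(4,1),(1,1),(2,1),(35,0)]⟩⟩,.o
  ⟨false,1,⟨0,[(29,0),(15,0)]⟩,⟨2,[(10,1),(5,0),(25,0),(4,1)]⟩⟩,.a ⟨true,0,⟨0,[(20,0)]⟩,⟨0,[(13,
  1)]⟩⟩ ⟨true,0,⟨0,[]⟩,⟨0,[(47,0)]⟩⟩ ⟨false,1,⟨0,[(13,1),(15,0),(15,0)]⟩,⟨6,[(0,1),(2,1),(12,0),(3,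
  0),(22,0)]⟩⟩,.o ⟨false,0,⟨0,[(0,0)]⟩,⟨10,[(5,3),(7,14),(3,1),(12,2),(9,0),(3,4)]⟩⟩]⟩) (.I [0,0,-1,
  0,0,1,-1] (.C [(0,1),(0,0),(1,1),(18,1),(12,3),(11,2)]) (.C [(0,0),(21,0),(5,0)]))) (.Q [0,-1,0,0,
  1,0,-1,-2,0,0,-1] (.p false [0,0,1] [] (⟨0,[(32,0)]⟩,⟨0,[(31,0)]⟩) .k 0 (⟨0,[]⟩,⟨0,[]⟩) .k .k)
  (.R ⟨0,false,false,true,[0,0,1],[0,0,2],[1,1],(⟨0,[(33,0)]⟩,⟨0,[(32,0)]⟩),(⟨0,[(33,1)]⟩,⟨0,[(2,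
  0)]⟩),⟨0,[(22,0)]⟩,.k,.k,.k,.k,.k,.k,⟨false,1,⟨1,[(0,0),(0,0),(11,0),(30,0)]⟩,⟨3,[(3,1),(26,0),(0,
  0),(11,1)]⟩⟩,⟨true,0,⟨0,[(13,0)]⟩,⟨0,[(31,0)]⟩⟩,⟨true,0,⟨1,[(1,0),(45,0)]⟩,⟨0,[(12,0)]⟩⟩,⟨false,0,
  ⟨0,[(14,0)]⟩,⟨31,[(0,15),(16,2),(2,7),(2,5),(16,0),(4,7)]⟩⟩,⟨false,0,⟨0,[]⟩,⟨0,[]⟩⟩,⟨false,0,⟨0,
  []⟩,⟨0,[]⟩⟩,[.e ⟨false,0,⟨4,[(1,0),(13,1),(23,0),(3,1)]⟩,⟨1,[(23,0),(0,0),(20,0)]⟩⟩ ⟨false,0,⟨9,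
  [(3,0),(6,5),(16,5),(0,3),(10,2),(3,0)]⟩,⟨0,[(0,0)]⟩⟩,.o ⟨false,0,⟨0,[(10,0)]⟩,⟨11,[(0,9),(19,4),
  (8,3),(10,0),(6,5)]⟩⟩,.e ⟨false,0,⟨0,[]⟩,⟨1,[(23,0),(0,0),(20,0)]⟩⟩ ⟨false,0,⟨2,[(3,0),(10,1),(15,
  0),(12,0)]⟩,⟨0,[(0,0)]⟩⟩,.a ⟨true,0,⟨0,[(30,0)]⟩,⟨0,[(27,0)]⟩⟩ ⟨true,0,⟨4,[(1,0),(13,1),(23,0),(3,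
  1)]⟩,⟨1,[(30,0),(0,0)]⟩⟩ ⟨false,0,⟨0,[(10,0),(16,0)]⟩,⟨1,[(0,1),(29,0),(0,0)]⟩⟩]⟩) (.I [0,0,-1,0,
  0,1,-1] (.C [(0,0),(0,0),(0,0),(0,0),(18,0),(12,1),(10,0),(0,0)]) (.C [(0,0),(21,0),(5,0)]))))
  (.I [0,0,-1,-1,0,0,0,2] (.Q [0,0,1,0,0,0,3,0,0,-1,3] (.p true [0,0,1] [1,1,-2] (⟨0,[(32,0)]⟩,⟨0,
  [(31,0)]⟩) .k 2 (⟨0,[(21,0),(9,0)]⟩,⟨0,[(1,0),(34,0)]⟩) (.r (-1) ⟨0,[(12,0),(15,1),(0,0),(12,0),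
  (1,0)]⟩ ⟨0,[(0,0)]⟩) (.x (-1) ⟨10,[(4,3),(1,1),(0,1),(4,28),(2,1),(15,32),(7,4),(4,0),(0,3)]⟩ ⟨1,
  [(1,2),(17,2)]⟩)) (.K ⟨0,[1,1,-2],0,0,(⟨0,[(22,0),(9,0)]⟩,⟨0,[(2,0),(34,0)]⟩),(.r (-1) ⟨1,[(0,0),
  (26,0),(1,3),(0,1),(12,1),(1,1)]⟩ ⟨0,[(1,0)]⟩),(.r (-1) ⟨0,[(0,0),(26,0),(1,1),(15,0)]⟩ ⟨3,[(3,1),
  (26,0),(0,0),(11,1)]⟩),(.r 0 ⟨0,[(16,1),(10,1),(2,3)]⟩ ⟨5,[(3,1),(11,3),(26,5),(1,0),(0,4)]⟩),(.r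
  (-1) ⟨0,[(0,0),(15,0),(10,1),(1,1),(0,1),(14,0)]⟩ ⟨1,[(1,0),(1,0)]⟩),.k,[⟨0,[(0,0)]⟩,⟨0,[(20,0)]⟩,
  ⟨0,[(10,0),(31,0)]⟩,⟨0,[(16,0),(10,1),(1,0),(0,1)]⟩]⟩) (.I [0,0,0,0,0,1,1] (.C [(0,1),(0,0),(1,0),
  (10,0),(20,1),(11,0)]) (.C [(0,0),(13,0),(8,0)]))) (.Q [0,0,1,0,0,0,2,0,0,-1,2] (.p true [0,0,1]
  [1,0,-1] (⟨0,[(32,0)]⟩,⟨0,[(31,0)]⟩) .k 2 (⟨0,[(31,0)]⟩,⟨0,[(32,0)]⟩) .k (.r 0 ⟨3,[(2,1),(26,0),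
  (0,0),(11,1)]⟩ ⟨1,[(0,1),(40,1),(1,0),(0,0)]⟩)) (.K ⟨0,[-1,0,2],0,0,(⟨0,[(2,0)]⟩,⟨0,[(32,1)]⟩),.k,
  (.x 0 ⟨0,[(0,0),(21,0),(9,0)]⟩ ⟨15,[(2,15),(14,0),(2,15),(2,1),(13,15),(2,2),(3,7)]⟩),(.r 0 ⟨3,
  [(3,1),(26,2),(0,2),(11,5)]⟩ ⟨0,[(1,0),(39,1),(3,0)]⟩),.k,.k,[⟨1,[(20,0),(6,0),(2,0)]⟩,⟨0,[(0,
  0)]⟩,⟨0,[(1,0),(18,0),(20,0)]⟩,⟨0,[(10,0),(36,0)]⟩]⟩) (.I [0,0,0,0,0,1,1] (.C [(0,1),(0,0),(1,0),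
  (31,1),(11,0)]) (.C [(0,0),(13,0),(8,0)]))))) (.Q [0,0,0,0,0,0,0,0,0,-1,2] (.ed false [0,0,2] (.r
  0 ⟨0,[(9,1)]⟩ ⟨3,[(0,1),(19,1),(0,1),(17,1),(1,0),(0,0)]⟩)) (.Q [0,0,1,0,0,0,2,0,0,-1,2] (.p true
  [0,0,1] [1,0,-1] (⟨0,[(31,0)]⟩,⟨0,[(30,0)]⟩) .k 2 (⟨0,[(30,0)]⟩,⟨0,[(31,0)]⟩) .k (.r 0 ⟨0,[(10,
  1)]⟩ ⟨3,[(1,1),(19,1),(0,1),(17,1),(1,0),(0,0)]⟩)) (.K ⟨0,[-1,0,2],0,0,(⟨0,[(1,0)]⟩,⟨0,[(31,1)]⟩),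
  .k,(.r (-1) ⟨13,[(11,3),(5,13),(1,4),(7,9),(11,0),(4,11)]⟩ ⟨3,[(2,1),(26,0),(0,0),(11,1)]⟩),(.r 0
  ⟨1,[(11,3),(17,0),(0,0),(11,1)]⟩ ⟨3,[(2,1),(37,3),(0,1),(1,0),(0,2)]⟩),.k,.k,[⟨1,[(19,0),(6,0),(2,
  0)]⟩,⟨0,[(0,0)]⟩,⟨3,[(2,1),(16,3),(18,0),(1,0),(0,0)]⟩,⟨0,[(9,0),(36,0)]⟩]⟩) (.I [0,0,0,0,0,1,1]
  (.C [(0,1),(0,0),(0,0),(31,1),(11,0)]) (.C [(0,0),(12,0),(8,0)]))) (.R ⟨0,false,false,false,[0,0,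
  1],[0,0,2],[1],(⟨0,[(31,0)]⟩,⟨0,[(30,0)]⟩),(⟨0,[(31,1)]⟩,⟨0,[(0,0)]⟩),⟨0,[(20,0)]⟩,.k,.k,.k,.k,.k,
  .k,⟨false,1,⟨3,[(1,1),(38,1),(1,2),(0,0)]⟩,⟨0,[(10,1)]⟩⟩,⟨true,0,⟨0,[(11,0)]⟩,⟨0,[(29,0)]⟩⟩,
  ⟨false,1,⟨7,[(1,1),(19,1),(0,1),(17,1),(1,0),(0,4)]⟩,⟨0,[(10,0)]⟩⟩,⟨true,0,⟨0,[(12,0)]⟩,⟨0,[(27,
  0)]⟩⟩,⟨false,0,⟨0,[]⟩,⟨0,[]⟩⟩,⟨false,0,⟨0,[]⟩,⟨0,[]⟩⟩,[.o ⟨false,0,⟨0,[(8,0)]⟩,⟨15,[(1,7),(13,0),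
  (2,15),(2,1),(16,2),(1,7),(1,3),(0,3)]⟩⟩,.o ⟨false,1,⟨13,[(8,8),(17,9),(11,0),(4,11)]⟩,⟨2,[(1,0),
  (12,1),(3,1),(20,0),(0,1)]⟩⟩,.e ⟨true,0,⟨0,[]⟩,⟨0,[(45,0)]⟩⟩ ⟨true,0,⟨0,[(10,0),(1,0)]⟩,⟨5,[(1,1),
  (12,0),(3,0),(8,2),(11,1),(0,0)]⟩⟩,.a ⟨true,0,⟨0,[(28,0)]⟩,⟨0,[(25,0)]⟩⟩ ⟨false,1,⟨1,[(42,0),(0,
  0)]⟩,⟨1,[(28,0),(0,0)]⟩⟩ ⟨true,0,⟨0,[(8,0),(16,0)]⟩,⟨4,[(1,1),(25,1),(1,2),(10,1),(4,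
  0)]⟩⟩]⟩)))))))))) (.Q [0,0,1,0,-1,0,0,0,1,0,0,1] (.p true [0,0,0,0,1] [] (⟨0,[(15,0)]⟩,⟨0,[(14,
  0)]⟩) .k 0 (⟨0,[]⟩,⟨0,[]⟩) .k .k) (.K ⟨0,[0,0,0,0,1],(-1),(-1),(⟨0,[(16,0)]⟩,⟨0,[(15,0)]⟩),.k,(.r
  (-1) ⟨1,[(32,1),(1,0),(0,0)]⟩ ⟨1,[(20,0),(0,0),(11,1)]⟩),(.r 0 ⟨1,[(20,0),(0,0),(11,1)]⟩ ⟨1,[(32,
  1),(1,0),(0,0)]⟩),.k,.k,[⟨0,[(3,0),(9,0)]⟩,⟨0,[(0,0)]⟩,⟨0,[(13,0),(23,0)]⟩,⟨4,[(0,2),(0,1),(3,0),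
  (0,0),(10,0),(11,1)]⟩]⟩) (.Q [0,0,0,0,0,-1,0,0,0,0,0,1] (.ed false [1,-1,0,0,1] .k) (.K ⟨0,[0,-1,
  0,0,1],(-1),(-1),(⟨0,[(0,0)]⟩,⟨0,[(16,0),(9,0)]⟩),(.r (-1) ⟨1,[(33,1),(1,0),(0,0)]⟩ ⟨1,[(21,0),(0,
  0),(11,1)]⟩),(.r (-1) ⟨0,[(32,1),(3,0)]⟩ ⟨0,[(21,0),(0,0),(11,1)]⟩),.k,(.r (-1) ⟨0,[(4,0),(15,0),
  (11,0),(3,0)]⟩ ⟨1,[(3,1),(17,0),(0,0),(11,1)]⟩),.k,[⟨0,[(1,0),(2,0)]⟩,⟨0,[(2,0),(19,0)]⟩,⟨0,[(14,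
  0),(19,0),(3,0)]⟩,⟨1,[(2,1),(8,0),(0,0),(0,0),(11,1),(6,1)]⟩]⟩) (.K ⟨0,[0,1,0,0,-1],1,1,(⟨0,[(0,
  0)]⟩,⟨0,[(17,0),(10,0)]⟩),(.r 0 ⟨1,[(21,0),(0,0),(11,1)]⟩ ⟨1,[(33,1),(1,0),(0,0)]⟩),.k,(.r 0 ⟨0,
  [(21,0),(0,0),(11,1)]⟩ ⟨0,[(32,1),(3,0)]⟩),(.r 0 ⟨1,[(7,1),(10,0),(2,2),(4,0),(1,0)]⟩ ⟨7,[(8,0),
  (0,5),(1,0),(2,1),(4,1),(13,1),(1,0),(0,4)]⟩),.k,[⟨0,[(2,0)]⟩,⟨0,[(14,0)]⟩,⟨1,[(2,1),(8,0),(0,0),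
  (0,0),(11,1),(6,1)]⟩,⟨0,[(14,0),(19,0),(3,0)]⟩]⟩))))

theorem ok20 : chk K t20 l15 = true := by decide +kernel

noncomputable def t21 : Tre :=
  (.I [1,0,0,0,0,0,0,1] (.N [0,0,1] 0 ⟨0,[(0,0)]⟩ ⟨0,[(1,0)]⟩ .k) (.I [-1,0,0,0,1,0,0,0,-1] (.I [0,
  0,1,0,0,0,0,1] (.I [0,0,-1,1,0,0,0,1] (.I [0,0,-1,0,0,1,-1] (.C [(0,0),(3,0),(2,0),(7,0),(11,1),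
  (11,0)]) (.C [(0,0),(13,0),(5,0)])) (.C [(0,0),(5,1),(1,0),(10,0)])) (.C [(0,0),(4,0),(16,0)]))
  (.C [(0,0),(8,0),(6,0)])))

theorem ok21 : chk K t21 r15 = true := by decide +kernel

noncomputable def t24 : Tre :=
  (.I [1,0,0,0,0,0,0,-1] (.I [0,0,0,0,0,0,0,-1] (.Q [0,1,0,-1,0,0,2,2,0,0,2] (.p true [0,0,1] [0,1,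
  -1] (⟨0,[(21,0)]⟩,⟨0,[(20,0)]⟩) .k 2 (⟨0,[(10,0)]⟩,⟨0,[(21,0),(3,0)]⟩) .k (.r (-1) ⟨2,[(3,1),(12,
  3),(2,3),(11,1),(1,2)]⟩ ⟨0,[(0,1)]⟩)) (.Q [0,0,-1,0,0,0,-2,0,0,0,-2] (.p false [0,0,1] [0,1,-1]
  (⟨0,[(22,0)]⟩,⟨0,[(21,0)]⟩) .k 2 (⟨0,[(11,0)]⟩,⟨0,[(22,0),(3,0)]⟩) .k (.r (-1) ⟨4,[(0,3),(8,4),(7,
  1),(11,0),(2,3),(1,2)]⟩ ⟨0,[(1,1)]⟩)) (.R ⟨0,false,false,false,[0,0,1],[0,1,-1],[1,1,1],(⟨0,[(23,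
  0)]⟩,⟨0,[(22,0)]⟩),(⟨0,[(12,0)]⟩,⟨0,[(23,0),(3,0)]⟩),⟨0,[(12,0)]⟩,.k,.k,.k,(.r (-1) ⟨17,[(0,7),(0,
  17),(8,9),(19,1),(3,4),(0,8)]⟩ ⟨2,[(2,4),(3,0),(3,0),(9,2),(12,1)]⟩),.k,.k,⟨false,0,⟨0,[(8,0)]⟩,
  ⟨1,[(2,1),(10,0),(0,0),(18,1),(1,0)]⟩⟩,⟨true,0,⟨0,[(0,0)]⟩,⟨0,[(20,1)]⟩⟩,⟨false,0,⟨1,[(2,1),(17,
  0),(0,0)]⟩,⟨3,[(0,1),(0,1),(31,1),(0,0),(0,2)]⟩⟩,⟨true,0,⟨2,[(2,3),(3,1),(3,1),(22,0)]⟩,⟨0,[(1,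
  0)]⟩⟩,⟨false,0,⟨0,[]⟩,⟨0,[]⟩⟩,⟨false,0,⟨0,[]⟩,⟨0,[]⟩⟩,[.o ⟨false,0,⟨0,[(6,0)]⟩,⟨1,[(1,0),(11,0),
  (0,0),(17,0),(2,0)]⟩⟩,.o ⟨false,1,⟨4,[(6,3),(0,0),(5,1),(5,0),(13,0),(1,2)]⟩,⟨1,[(1,0),(30,0)]⟩⟩,
  .o ⟨false,1,⟨15,[(7,0),(5,1),(6,15),(9,2),(3,7)]⟩,⟨2,[(0,0),(20,0)]⟩⟩,.a ⟨true,0,⟨0,[(20,0)]⟩,⟨0,
  [(17,0)]⟩⟩ ⟨false,0,⟨0,[]⟩,⟨1,[(13,0),(0,0),(20,0)]⟩⟩ ⟨true,0,⟨0,[(6,0),(10,0)]⟩,⟨1,[(1,0),(18,1),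
  (11,0)]⟩⟩]⟩) (.Q [0,0,0,0,0,0,-1,0,0,0,-1] (.p false [0,0,1] [] (⟨0,[(23,0)]⟩,⟨0,[(22,0)]⟩) .k 0
  (⟨0,[]⟩,⟨0,[]⟩) .k .k) (.K ⟨0,[0,1,-1],0,0,(⟨0,[(13,0)]⟩,⟨0,[(24,0),(3,0)]⟩),.k,.k,(.r 0 ⟨2,[(3,
  0),(3,1),(3,1),(9,5),(12,3)]⟩ ⟨0,[(6,0),(26,0),(2,0)]⟩),(.r 0 ⟨2,[(3,4),(3,0),(3,0),(9,2),(12,
  1)]⟩ ⟨37,[(2,29),(3,15),(4,29),(19,5),(2,7),(0,2),(0,22)]⟩),.k,[⟨0,[(1,0)]⟩,⟨0,[(0,0)]⟩,⟨1,[(2,0),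
  (30,0)]⟩,⟨0,[(20,0),(13,0)]⟩]⟩) (.Q [0,0,0,0,0,0,0,0,0,1,-2] (.ed true [0,0,2] (.r (-1) ⟨4,[(2,3),
  (8,4),(7,1),(11,0),(2,3),(1,2)]⟩ ⟨0,[(3,1)]⟩)) (.I [1,-1,0,0,1,0,0,2] (.Q [0,0,1,0,0,0,-2,0,0,0,
  -2] (.p false [0,0,1] [0,1,-1] (⟨0,[(26,0)]⟩,⟨0,[(25,0)]⟩) .k 2 (⟨0,[(15,0)]⟩,⟨0,[(26,0),(3,0)]⟩)
  .k (.r (-1) ⟨0,[(0,0),(39,0)]⟩ ⟨0,[(5,1)]⟩)) (.R ⟨0,false,false,true,[1,0,-2],[1,0,-1],[1],(⟨0,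
  [(2,0)]⟩,⟨0,[(27,1)]⟩),(⟨0,[(26,0)]⟩,⟨0,[(27,0)]⟩),⟨0,[(15,0),(11,0)]⟩,.k,.k,(.x 0 ⟨2,[(0,0),(13,
  2),(0,2),(8,1),(2,2)]⟩ ⟨5,[(2,5),(0,11),(2,1),(2,1),(18,1),(2,3),(2,1),(2,1),(0,0),(0,0)]⟩),.k,.k,
  .k,⟨false,1,⟨5,[(1,1),(7,1),(27,1),(0,0),(0,2)]⟩,⟨3,[(4,0),(1,1),(16,1),(9,0)]⟩⟩,⟨true,0,⟨0,[(3,
  0)]⟩,⟨0,[(25,0)]⟩⟩,⟨false,1,⟨0,[(1,0)]⟩,⟨0,[(6,1)]⟩⟩,⟨true,0,⟨0,[(22,0)]⟩,⟨0,[(8,0)]⟩⟩,⟨false,0,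
  ⟨0,[]⟩,⟨0,[]⟩⟩,⟨false,0,⟨0,[]⟩,⟨0,[]⟩⟩,[.o ⟨false,0,⟨0,[(23,0)]⟩,⟨0,[(5,0),(4,0),(28,0)]⟩⟩,.o
  ⟨false,0,⟨0,[(8,0)]⟩,⟨14,[(1,6),(2,6),(17,0),(10,2),(0,2),(3,1)]⟩⟩,.a ⟨true,0,⟨0,[(14,0)]⟩,⟨0,[(3,
  1)]⟩⟩ ⟨true,0,⟨0,[]⟩,⟨0,[(41,0)]⟩⟩ ⟨false,0,⟨0,[(3,0),(2,0)]⟩,⟨31,[(1,15),(9,0),(2,15),(2,1),(16,
  2),(4,7)]⟩⟩,.o ⟨false,0,⟨0,[(0,0)]⟩,⟨4,[(3,7),(0,0),(29,0),(3,2)]⟩⟩]⟩) (.I [-1,0,0,0,1,0,0,0,-1]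
  (.I [0,0,-1,0,0,0,0,-2] (.I [0,0,-1,0,0,1,-1] (.C [(0,1),(2,0),(1,1),(12,1),(12,3),(11,2)]) (.C
  [(0,0),(17,0),(5,0)])) (.C [(0,0),(1,0),(7,1)])) (.C [(0,0),(13,0),(6,0)]))) (.I [-1,0,0,0,1,0,0,
  0,-1] (.I [0,0,-1,0,0,1,-1] (.C [(0,0),(1,0),(0,1),(2,0),(9,2),(5,0),(6,3),(8,0),(1,0),(0,1)])
  (.C [(0,0),(15,0),(5,0)])) (.C [(0,0),(12,0),(6,0)]))) (.Q [0,-1,0,0,1,0,2,2,0,-1,2] (.p true [0,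
  0,1] [1,0,-1] (⟨0,[(25,0)]⟩,⟨0,[(24,0)]⟩) .k 2 (⟨0,[(24,0)]⟩,⟨0,[(25,0)]⟩) .k (.r (-1) ⟨4,[(3,3),
  (8,4),(7,1),(11,0),(2,3),(1,2)]⟩ ⟨0,[(4,1)]⟩)) (.Q [0,0,1,0,0,0,2,0,0,-1,2] (.p true [0,0,1] [1,0,
  -1] (⟨0,[(26,0)]⟩,⟨0,[(25,0)]⟩) .k 2 (⟨0,[(25,0)]⟩,⟨0,[(26,0)]⟩) .k (.r (-1) ⟨54,[(0,38),(9,5),(2,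
  54),(2,11),(4,31),(11,1),(6,6)]⟩ ⟨0,[(5,1)]⟩)) (.R ⟨0,false,false,true,[0,0,1],[1,0,-1],[1],(⟨0,
  [(27,0)]⟩,⟨0,[(26,0)]⟩),(⟨0,[(26,0)]⟩,⟨0,[(27,0)]⟩),⟨0,[(16,0)]⟩,.k,.k,.k,.k,.k,.k,⟨false,1,⟨11,
  [(1,5),(12,0),(6,9),(12,0),(3,0),(0,2)]⟩,⟨3,[(4,0),(1,1),(16,1),(9,0)]⟩⟩,⟨true,0,⟨0,[(14,0)]⟩,⟨0,
  [(0,0)]⟩⟩,⟨true,0,⟨0,[(7,0)]⟩,⟨1,[(5,0),(4,0),(3,0),(7,0)]⟩⟩,⟨false,0,⟨0,[(6,1),(7,0)]⟩,⟨0,[(1,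
  0)]⟩⟩,⟨false,0,⟨0,[]⟩,⟨0,[]⟩⟩,⟨false,0,⟨0,[]⟩,⟨0,[]⟩⟩,[.o ⟨false,0,⟨0,[(23,0)]⟩,⟨31,[(1,15),(9,0),
  (5,1),(16,2),(4,7)]⟩⟩,.o ⟨false,0,⟨0,[(8,0)]⟩,⟨54,[(1,22),(9,11),(5,23),(4,8),(11,3),(6,13)]⟩⟩,.a
  ⟨true,0,⟨0,[(3,0)]⟩,⟨2,[(4,0),(9,1),(6,0)]⟩⟩ ⟨true,0,⟨0,[]⟩,⟨0,[(41,0)]⟩⟩ ⟨false,0,⟨0,[(6,0),(7,
  0)]⟩,⟨3,[(0,1),(0,1),(36,0),(0,0)]⟩⟩,.e ⟨false,1,⟨1,[(38,0),(0,0)]⟩,⟨1,[(24,0),(0,0)]⟩⟩ ⟨false,0,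
  ⟨0,[(8,0),(12,0)]⟩,⟨31,[(1,15),(9,0),(5,1),(6,31),(9,2),(4,7)]⟩⟩]⟩) (.I [0,0,0,0,0,1,1] (.C [(0,
  1),(0,0),(1,0),(25,1),(11,0)]) (.C [(0,0),(3,0),(12,0)]))) (.Q [0,0,1,0,0,0,2,0,0,-1,2] (.p true
  [0,0,1] [1,0,-1] (⟨0,[(26,0)]⟩,⟨0,[(25,0)]⟩) .k 2 (⟨0,[(25,0)]⟩,⟨0,[(26,0)]⟩) .k (.r (-1) ⟨4,[(4,
  3),(8,4),(7,1),(11,0),(2,3),(1,2)]⟩ ⟨0,[(5,1)]⟩)) (.R ⟨0,false,false,true,[0,0,1],[1,0,-1],[1,1],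
  (⟨0,[(27,0)]⟩,⟨0,[(26,0)]⟩),(⟨0,[(26,0)]⟩,⟨0,[(27,0)]⟩),⟨0,[(16,0)]⟩,.k,.k,.k,.k,.k,.k,⟨false,1,
  ⟨9,[(5,3),(8,4),(7,1),(11,0),(2,3),(0,4),(0,2)]⟩,⟨0,[(6,0)]⟩⟩,⟨true,0,⟨0,[(14,0)]⟩,⟨0,[(0,0)]⟩⟩,
  ⟨false,0,⟨0,[(7,0)]⟩,⟨9,[(5,3),(8,4),(7,1),(11,0),(2,3),(1,7)]⟩⟩,⟨true,(-1),⟨0,[(1,0)]⟩,⟨4,[(5,3),
  (16,1),(11,0),(2,3),(1,2)]⟩⟩,⟨false,0,⟨0,[]⟩,⟨0,[]⟩⟩,⟨false,0,⟨0,[]⟩,⟨0,[]⟩⟩,[.o ⟨false,0,⟨0,[(23,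
  0)]⟩,⟨0,[(5,0),(4,0),(28,0)]⟩⟩,.o ⟨false,0,⟨0,[(8,0)]⟩,⟨15,[(11,0),(5,1),(4,15),(11,2),(4,7)]⟩⟩,
  .e ⟨false,0,⟨0,[]⟩,⟨1,[(17,0),(0,0),(20,0)]⟩⟩ ⟨false,0,⟨3,[(1,1),(12,1),(2,0),(0,0),(20,0)]⟩,⟨27,
  [(0,17),(4,9),(3,7),(24,1),(2,17),(0,0),(0,22)]⟩⟩,.a ⟨true,0,⟨0,[(24,0)]⟩,⟨0,[(21,0)]⟩⟩ ⟨true,0,
  ⟨11,[(1,0),(1,2),(5,2),(0,0),(22,3),(3,1),(0,0)]⟩,⟨1,[(24,0),(0,0)]⟩⟩ ⟨false,0,⟨11,[(1,5),(12,0),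
  (6,9),(12,0),(3,0),(0,2)]⟩,⟨15,[(0,5),(4,7),(18,6),(0,2),(8,1),(2,7),(1,11)]⟩⟩]⟩) (.I [0,0,0,0,0,
  1,1] (.C [(0,1),(0,0),(1,0),(25,1),(11,0)]) (.C [(0,0),(3,0),(12,0)]))))))) (.Q [0,0,-1,0,0,0,-2,
  0,0,0,-2] (.p false [0,0,1] [0,1,-1] (⟨0,[(22,0)]⟩,⟨0,[(21,0)]⟩) .k 2 (⟨0,[(11,0)]⟩,⟨0,[(22,0),(3,
  0)]⟩) .k (.r (-1) ⟨2,[(4,1),(12,3),(2,3),(11,1),(1,2)]⟩ ⟨0,[(1,1)]⟩)) (.R ⟨0,false,false,false,[0,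
  0,1],[0,1,-1],[1,0,0,0,0,0,0,1],(⟨0,[(23,0)]⟩,⟨0,[(22,0)]⟩),(⟨0,[(12,0)]⟩,⟨0,[(23,0),(3,0)]⟩),⟨0,
  [(12,0)]⟩,.k,.k,.k,(.r (-1) ⟨2,[(0,0),(7,2),(9,2),(2,0),(13,2)]⟩ ⟨2,[(1,0),(0,2),(16,0),(0,2),(12,
  1)]⟩),.k,.k,⟨false,1,⟨1,[(0,0),(4,0),(2,0),(9,1),(16,1)]⟩,⟨2,[(1,0),(0,2),(16,0),(0,2),(12,1)]⟩⟩,
  ⟨true,0,⟨0,[(0,0)]⟩,⟨0,[(20,1)]⟩⟩,⟨true,0,⟨0,[]⟩,⟨0,[(37,0)]⟩⟩,⟨false,0,⟨0,[(1,0)]⟩,⟨0,[(8,0),(9,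
  0),(1,0),(14,0)]⟩⟩,⟨false,0,⟨0,[]⟩,⟨0,[]⟩⟩,⟨false,0,⟨0,[]⟩,⟨0,[]⟩⟩,[.o ⟨false,0,⟨0,[(6,0)]⟩,⟨0,
  [(18,0),(13,0),(2,0)]⟩⟩,.o ⟨false,1,⟨31,[(1,15),(5,6),(5,13),(16,4),(2,15),(1,7)]⟩,⟨0,[(8,0),(11,
  0)]⟩⟩,.o ⟨false,1,⟨15,[(7,0),(5,1),(6,15),(9,2),(3,7)]⟩,⟨2,[(0,0),(20,0)]⟩⟩,.a ⟨true,0,⟨0,[(20,
  0)]⟩,⟨0,[(17,0)]⟩⟩ ⟨false,1,⟨2,[(0,0),(4,0),(12,1),(14,0),(1,2)]⟩,⟨1,[(2,1),(17,0),(0,0)]⟩⟩ ⟨true,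
  0,⟨0,[(6,0),(10,0)]⟩,⟨0,[(8,0),(11,1)]⟩⟩]⟩) (.Q [0,0,0,0,0,0,-1,0,0,0,-1] (.p false [0,0,1] []
  (⟨0,[(23,0)]⟩,⟨0,[(22,0)]⟩) .k 0 (⟨0,[]⟩,⟨0,[]⟩) .k .k) (.K ⟨0,[0,1,-1],0,0,(⟨0,[(13,0)]⟩,⟨0,[(24,
  0),(3,0)]⟩),.k,.k,(.r 0 ⟨5,[(2,1),(17,1),(0,8),(0,2),(11,9)]⟩ ⟨0,[(6,0),(26,0),(2,0)]⟩),(.r 0 ⟨2,
  [(1,2),(0,1),(17,1),(13,0)]⟩ ⟨0,[(6,0),(12,0),(2,0),(13,0)]⟩),.k,[⟨0,[(1,0)]⟩,⟨0,[(0,0)]⟩,⟨0,[(9,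
  0),(11,0)]⟩,⟨0,[(20,0),(13,0)]⟩]⟩) (.I [0,0,1,1,-1,0,0,-3] (.Q [0,0,0,0,0,0,0,0,0,1,-2] (.ed true
  [0,0,2] (.r (-1) ⟨2,[(7,1),(12,3),(2,3),(11,1),(1,2)]⟩ ⟨0,[(4,1)]⟩)) (.R ⟨0,false,false,true,[0,0,
  1],[0,0,2],[1,1],(⟨0,[(26,0)]⟩,⟨0,[(25,0)]⟩),(⟨0,[(26,1)]⟩,⟨0,[(0,0)]⟩),⟨0,[(15,0)]⟩,.k,.k,.k,.k,
  .k,.k,⟨false,0,⟨7,[(1,5),(6,1),(25,3),(2,2),(0,2)]⟩,⟨2,[(8,1),(12,3),(2,3),(11,1),(1,2)]⟩⟩,⟨true,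
  0,⟨0,[(2,0)]⟩,⟨0,[(24,0)]⟩⟩,⟨false,0,⟨0,[(6,0)]⟩,⟨2,[(8,0),(12,1),(2,1),(11,0),(1,2)]⟩⟩,⟨true,0,
  ⟨0,[(21,0)]⟩,⟨0,[(7,0)]⟩⟩,⟨false,0,⟨0,[]⟩,⟨0,[]⟩⟩,⟨false,0,⟨0,[]⟩,⟨0,[]⟩⟩,[.o ⟨false,1,⟨15,[(10,
  0),(5,1),(4,31),(11,2),(4,7)]⟩,⟨1,[(1,1),(6,1),(4,0),(0,0),(0,0),(8,1),(2,1),(10,1)]⟩⟩,.o ⟨false,
  1,⟨7,[(3,2),(4,5),(5,7),(0,7),(5,9),(5,15),(8,5),(1,7),(0,8)]⟩,⟨0,[(4,0),(30,0)]⟩⟩,.e ⟨false,0,⟨0,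
  []⟩,⟨1,[(16,0),(0,0),(20,0)]⟩⟩ ⟨false,1,⟨2,[(8,0),(12,4),(2,1),(11,0),(1,2)]⟩,⟨0,[(1,0),(6,0),(15,
  0),(13,0)]⟩⟩,.a ⟨true,0,⟨0,[(23,0)]⟩,⟨0,[(20,0)]⟩⟩ ⟨true,0,⟨10,[(1,0),(6,2),(23,3),(3,1),(0,0)]⟩,
  ⟨1,[(23,0),(0,0)]⟩⟩ ⟨false,1,⟨2,[(8,1),(12,3),(2,0),(11,1),(1,2)]⟩,⟨0,[(1,0),(9,0),(12,0),(13,
  0)]⟩⟩]⟩) (.Q [0,0,1,0,0,0,2,0,0,-1,2] (.p true [0,0,1] [1,0,-1] (⟨0,[(26,0)]⟩,⟨0,[(25,0)]⟩) .k 2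
  (⟨0,[(25,0)]⟩,⟨0,[(26,0)]⟩) .k (.r (-1) ⟨2,[(8,1),(12,3),(2,3),(11,1),(1,2)]⟩ ⟨0,[(5,1)]⟩)) (.K
  ⟨0,[-1,0,2],0,1,(⟨0,[(1,0)]⟩,⟨0,[(26,1)]⟩),.k,(.r (-1) ⟨0,[(9,0),(12,0),(2,0),(13,0)]⟩ ⟨2,[(2,1),
  (1,0),(6,0),(2,0),(2,1),(19,0)]⟩),(.r (-1) ⟨2,[(9,0),(12,4),(2,4),(11,3),(1,2)]⟩ ⟨0,[(2,0),(6,0),
  (26,0),(2,0)]⟩),.k,.k,[⟨2,[(4,0),(9,1),(6,0)]⟩,⟨0,[(0,0)]⟩,⟨0,[(2,0),(9,0),(1,0)]⟩,⟨15,[(11,0),(5,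
  1),(4,31),(11,2),(4,7)]⟩]⟩) (.I [0,0,0,0,0,1,1] (.C [(0,1),(0,0),(0,0),(26,1),(11,0)]) (.C [(0,0),
  (3,0),(12,0)])))) (.Q [0,0,0,0,0,0,0,0,0,1,-2] (.ed true [0,0,2] (.r (-1) ⟨5,[(0,3),(8,0),(2,0),
  (2,1),(6,2),(0,0),(11,3)]⟩ ⟨0,[(4,1)]⟩)) (.Q [0,0,-1,0,0,0,-3,0,0,1,-3] (.p false [0,0,1] [1,0,
  -2] (⟨0,[(26,0)]⟩,⟨0,[(25,0)]⟩) .k 2 (⟨0,[(0,0)]⟩,⟨0,[(26,1)]⟩) .k (.r (-1) ⟨1,[(1,1),(21,0),(0,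
  0),(11,1)]⟩ ⟨0,[(5,2)]⟩)) (.Q [0,-1,0,0,1,0,2,2,0,-1,2] (.p true [0,0,1] [1,0,-1] (⟨0,[(27,0)]⟩,
  ⟨0,[(26,0)]⟩) .k 2 (⟨0,[(26,0)]⟩,⟨0,[(27,0)]⟩) .k (.r (-1) ⟨5,[(2,3),(8,0),(2,0),(2,1),(6,2),(0,
  0),(11,3)]⟩ ⟨0,[(6,1)]⟩)) (.R ⟨0,false,false,false,[0,0,1],[0,0,2],[1],(⟨0,[(28,0)]⟩,⟨0,[(27,
  0)]⟩),(⟨0,[(28,1)]⟩,⟨0,[(2,0)]⟩),⟨0,[(17,0)]⟩,.k,.k,.k,.k,.k,.k,⟨false,0,⟨1,[(4,1),(1,0),(0,2),(2,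
  0)]⟩,⟨29,[(0,13),(2,5),(8,4),(2,18),(2,9),(4,13),(2,3),(11,5),(2,1)]⟩⟩,⟨true,0,⟨0,[(4,0)]⟩,⟨0,
  [(26,0)]⟩⟩,⟨true,0,⟨0,[(8,0)]⟩,⟨2,[(10,0),(12,1),(2,1),(11,0)]⟩⟩,⟨false,1,⟨11,[(3,3),(1,5),(12,0),
  (0,0),(18,3),(0,0),(0,5)]⟩,⟨0,[(9,0)]⟩⟩,⟨false,0,⟨0,[]⟩,⟨0,[]⟩⟩,⟨false,0,⟨0,[]⟩,⟨0,[]⟩⟩,[.o
  ⟨false,1,⟨54,[(0,38),(11,5),(5,11),(4,31),(11,1),(6,6)]⟩,⟨0,[(6,0),(30,0)]⟩⟩,.o ⟨false,1,⟨0,[(0,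
  0)]⟩,⟨1,[(6,0),(17,1),(12,0)]⟩⟩,.a ⟨true,0,⟨0,[(4,0)]⟩,⟨2,[(5,0),(9,1),(6,0)]⟩⟩ ⟨true,0,⟨0,[]⟩,⟨0,
  [(42,0)]⟩⟩ ⟨false,1,⟨2,[(0,2),(4,0),(9,1),(6,0)]⟩,⟨1,[(6,0),(0,1),(29,0)]⟩⟩,.e ⟨false,1,⟨1,[(39,
  0),(0,0)]⟩,⟨1,[(25,0),(0,0)]⟩⟩ ⟨false,1,⟨0,[(0,0),(21,0)]⟩,⟨0,[(7,1),(18,0)]⟩⟩]⟩) (.I [1,1,0,0,-1,
  0,0,-2] (.R ⟨0,false,false,true,[1,0,-2],[1,0,-1],[0,1],(⟨0,[(3,0)]⟩,⟨0,[(29,1)]⟩),(⟨0,[(28,0)]⟩,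
  ⟨0,[(29,0)]⟩),⟨0,[(17,0),(11,0)]⟩,.k,.k,(.r 0 ⟨0,[(0,0),(36,0),(3,0)]⟩ ⟨5,[(4,3),(8,0),(2,0),(2,
  1),(6,5),(0,3),(11,9)]⟩),.k,.k,.k,⟨false,1,⟨2,[(4,0),(14,0),(0,0),(18,0),(0,0)]⟩,⟨0,[(9,0)]⟩⟩,
  ⟨true,0,⟨0,[(5,0)]⟩,⟨0,[(27,0)]⟩⟩,⟨false,1,⟨5,[(4,3),(8,0),(2,0),(2,1),(6,2),(0,0),(11,3)]⟩,⟨0,
  [(0,0),(40,0)]⟩⟩,⟨true,0,⟨0,[(24,0)]⟩,⟨0,[(10,0)]⟩⟩,⟨false,0,⟨0,[]⟩,⟨0,[]⟩⟩,⟨false,0,⟨0,[]⟩,⟨0,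
  []⟩⟩,[.o ⟨false,0,⟨0,[(25,0)]⟩,⟨4,[(4,1),(0,6),(5,0),(0,1),(4,2),(0,2),(11,5),(8,0),(1,2),(0,
  3)]⟩⟩,.o ⟨false,0,⟨0,[(10,0)]⟩,⟨95,[(4,31),(1,47),(6,10),(5,21),(16,16),(2,31),(0,7)]⟩⟩,.a ⟨true,
  0,⟨0,[(16,0)]⟩,⟨0,[(5,1)]⟩⟩ ⟨true,0,⟨0,[(43,0)]⟩,⟨0,[]⟩⟩ ⟨false,0,⟨3,[(0,1),(5,1),(33,0),(0,0)]⟩,
  ⟨47,[(4,15),(8,0),(2,15),(2,1),(7,15),(8,2),(2,15),(1,23)]⟩⟩,.o ⟨false,0,⟨1,[(2,0),(14,0),(0,0),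
  (8,0),(2,1),(11,1)]⟩,⟨4,[(5,7),(0,0),(29,0),(3,2)]⟩⟩]⟩) (.R ⟨0,false,false,true,[1,0,-2],[1,0,-1],
  [1],(⟨0,[(3,0)]⟩,⟨0,[(29,1)]⟩),(⟨0,[(28,0)]⟩,⟨0,[(29,0)]⟩),⟨0,[(17,0),(11,0)]⟩,.k,.k,(.r 0 ⟨0,[(1,
  0),(3,1),(2,0),(2,0),(5,0),(0,0),(11,1),(10,0),(0,0)]⟩ ⟨1,[(0,1),(25,0),(0,0),(11,1),(3,1)]⟩),.k,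
  .k,.k,⟨false,1,⟨5,[(0,1),(10,1),(27,1),(0,0),(0,2)]⟩,⟨3,[(6,0),(1,1),(16,1),(9,0)]⟩⟩,⟨true,0,⟨0,
  [(5,0)]⟩,⟨0,[(27,0)]⟩⟩,⟨false,1,⟨0,[(0,0)]⟩,⟨0,[(8,1)]⟩⟩,⟨true,0,⟨0,[(24,0)]⟩,⟨0,[(10,0)]⟩⟩,
  ⟨false,0,⟨0,[]⟩,⟨0,[]⟩⟩,⟨false,0,⟨0,[]⟩,⟨0,[]⟩⟩,[.o ⟨false,0,⟨0,[(25,0)]⟩,⟨29,[(0,14),(4,36),(5,
  6),(0,6),(4,12),(0,12),(11,25),(5,1),(4,10),(0,13)]⟩⟩,.o ⟨false,0,⟨0,[(10,0)]⟩,⟨47,[(0,15),(5,15),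
  (6,2),(5,5),(4,15),(11,8),(3,7)]⟩⟩,.a ⟨true,0,⟨0,[(16,0)]⟩,⟨0,[(5,1)]⟩⟩ ⟨true,0,⟨0,[]⟩,⟨0,[(43,
  0)]⟩⟩ ⟨false,0,⟨0,[(5,0),(2,0)]⟩,⟨31,[(0,15),(12,0),(2,15),(2,1),(16,2),(4,7)]⟩⟩,.o ⟨false,0,⟨1,
  [(2,0),(14,0),(0,0),(8,0),(2,1),(11,1)]⟩,⟨4,[(5,7),(0,0),(29,0),(3,2)]⟩⟩]⟩))) (.Q [0,0,0,0,0,-1,0,
  0,0,0,2] (.ed false [1,-1,2] .k) (.Q [0,0,0,0,0,0,-3,0,0,1,-3] (.p false [0,0,1] [1,0,-2] (⟨0,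
  [(28,0)]⟩,⟨0,[(27,0)]⟩) .k 2 (⟨0,[(2,0)]⟩,⟨0,[(0,0),(29,0)]⟩) .k (.r (-1) ⟨1,[(3,1),(21,0),(0,0),
  (11,1)]⟩ ⟨0,[(7,2)]⟩)) (.R ⟨0,false,false,true,[1,0,-1],[0,-1,2],[0,1],(⟨0,[(28,0)]⟩,⟨0,[(29,
  0)]⟩),(⟨0,[(1,0)]⟩,⟨0,[(18,0),(9,0)]⟩),⟨0,[(17,0)]⟩,.k,(.r (-1) ⟨5,[(4,3),(33,1),(1,0),(0,0)]⟩ ⟨2,
  [(6,2),(0,1),(17,1),(13,0)]⟩),.k,(.x (-1) ⟨47,[(0,47),(0,63),(11,6),(3,15),(1,13),(16,4),(3,23)]⟩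
  ⟨0,[(2,0),(0,0),(14,0)]⟩),.k,.k,⟨false,0,⟨0,[(8,1),(30,0)]⟩,⟨5,[(4,3),(33,1),(1,0),(0,0)]⟩⟩,⟨true,
  0,⟨0,[(2,0)]⟩,⟨0,[(0,0)]⟩⟩,⟨true,0,⟨2,[(11,0),(12,1),(2,1),(11,0)]⟩,⟨0,[(9,0)]⟩⟩,⟨false,1,⟨0,[(2,
  0),(1,0)]⟩,⟨2,[(6,0),(0,2),(0,2),(7,1),(6,0)]⟩⟩,⟨false,0,⟨0,[]⟩,⟨0,[]⟩⟩,⟨false,0,⟨0,[]⟩,⟨0,[]⟩⟩,
  [.o ⟨false,1,⟨10,[(2,0),(1,6),(1,8),(17,0),(10,2),(0,1),(1,3)]⟩,⟨0,[(7,0)]⟩⟩,.o ⟨false,1,⟨77,[(2,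
  47),(1,51),(1,5),(29,5),(1,25),(1,0),(0,12)]⟩,⟨2,[(7,1),(17,1),(13,0)]⟩⟩,.a ⟨true,0,⟨2,[(6,0),(9,
  1),(6,0)]⟩,⟨0,[(5,0)]⟩⟩ ⟨true,0,⟨0,[(43,0)]⟩,⟨0,[]⟩⟩ ⟨false,1,⟨5,[(2,5),(1,3),(33,1),(1,0),(0,
  0)]⟩,⟨2,[(6,0),(0,2),(8,1),(6,0)]⟩⟩,.o ⟨false,0,⟨0,[(27,0)]⟩,⟨12,[(2,2),(3,1),(29,1),(3,8)]⟩⟩]⟩)
  (.I [-1,0,0,0,1,0,0,0,-1] (.I [0,0,1,0,0,0,2] (.I [0,0,-1,0,0,1,-1] (.C [(0,1),(2,0),(2,1),(13,1),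
  (5,0),(6,3),(11,2)]) (.C [(0,0),(19,0),(5,0)])) (.C [(0,0),(1,0),(2,0),(23,0)])) (.C [(0,0),(15,
  0),(6,0)]))) (.I [-1,0,0,0,1,0,0,0,-1] (.I [0,0,-1,0,0,1,-1] (.C [(0,1),(1,0),(0,0),(20,0),(6,2),
  (11,1)]) (.C [(0,0),(17,0),(5,0)])) (.C [(0,0),(14,0),(6,0)])))) (.I [1,-1,0,0,0,0,0,-2] (.Q [0,0,
  1,0,0,0,2,0,0,-1,2] (.p true [0,0,1] [1,0,-1] (⟨0,[(27,0)]⟩,⟨0,[(26,0)]⟩) .k 2 (⟨0,[(26,0)]⟩,⟨0,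
  [(27,0)]⟩) .k (.r (-1) ⟨5,[(2,3),(8,0),(2,0),(2,1),(6,2),(0,0),(11,3)]⟩ ⟨4,[(0,3),(3,0),(18,1),(9,
  0)]⟩)) (.R ⟨0,false,false,false,[0,0,1],[1,0,-1],[1],(⟨0,[(28,0)]⟩,⟨0,[(27,0)]⟩),(⟨0,[(27,0)]⟩,⟨0,
  [(28,0)]⟩),⟨0,[(17,0)]⟩,.k,.k,.k,.k,.k,.k,⟨false,1,⟨2,[(3,0),(14,0),(0,0),(18,0),(0,0)]⟩,⟨0,[(7,
  0)]⟩⟩,⟨true,0,⟨0,[(15,0)]⟩,⟨0,[(0,0)]⟩⟩,⟨true,0,⟨0,[(8,0)]⟩,⟨2,[(10,0),(12,1),(2,1),(11,0)]⟩⟩,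
  ⟨false,0,⟨0,[(1,0),(13,0)]⟩,⟨11,[(0,6),(2,7),(1,4),(29,0),(2,7),(0,1)]⟩⟩,⟨false,0,⟨0,[]⟩,⟨0,[]⟩⟩,
  ⟨false,0,⟨0,[]⟩,⟨0,[]⟩⟩,[.o ⟨false,0,⟨0,[(9,0)]⟩,⟨95,[(3,31),(1,47),(6,10),(5,21),(16,16),(2,31),
  (0,7)]⟩⟩,.o ⟨false,1,⟨0,[(24,0),(15,0)]⟩,⟨0,[(0,0),(9,0),(15,0),(11,0)]⟩⟩,.e ⟨true,0,⟨0,[]⟩,⟨0,
  [(42,0)]⟩⟩ ⟨true,0,⟨8,[(1,2),(3,0),(9,7),(6,0),(1,2)]⟩,⟨2,[(0,2),(9,1),(12,0),(2,0),(11,1)]⟩⟩,.a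
  ⟨true,0,⟨0,[(25,0)]⟩,⟨0,[(22,0)]⟩⟩ ⟨false,1,⟨1,[(39,0),(0,0)]⟩,⟨1,[(25,0),(0,0)]⟩⟩ ⟨true,0,⟨6,[(1,
  0),(4,1),(8,1),(6,4),(1,0),(11,1)]⟩,⟨2,[(0,2),(9,0),(12,1),(2,1),(11,0)]⟩⟩]⟩) (.I [0,0,0,0,0,1,1]
  (.C [(0,1),(0,0),(1,0),(26,1),(11,0)]) (.C [(0,0),(4,0),(12,0)]))) (.Q [0,-1,0,0,1,0,2,2,0,-1,2]
  (.p true [0,0,1] [1,0,-1] (⟨0,[(27,0)]⟩,⟨0,[(26,0)]⟩) .k 2 (⟨0,[(26,0)]⟩,⟨0,[(27,0)]⟩) .k (.r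
  (-1) ⟨8,[(0,5),(1,1),(1,1),(6,1),(2,1),(2,3),(19,1),(1,2)]⟩ ⟨0,[(6,1)]⟩)) (.Q [0,0,1,0,0,0,2,0,0,
  -1,2] (.p true [0,0,1] [1,0,-1] (⟨0,[(28,0)]⟩,⟨0,[(27,0)]⟩) .k 2 (⟨0,[(27,0)]⟩,⟨0,[(28,0)]⟩) .k
  (.r (-1) ⟨8,[(0,2),(0,2),(1,1),(1,1),(6,1),(2,4),(2,3),(19,1)]⟩ ⟨0,[(7,1)]⟩)) (.R ⟨0,false,false,
  true,[0,0,1],[1,0,-1],[1],(⟨0,[(29,0)]⟩,⟨0,[(28,0)]⟩),(⟨0,[(28,0)]⟩,⟨0,[(29,0)]⟩),⟨0,[(18,0)]⟩,.k,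
  .k,.k,.k,.k,.k,⟨false,1,⟨4,[(1,1),(2,0),(2,0),(15,1),(16,0),(0,0)]⟩,⟨3,[(6,0),(1,1),(16,1),(9,
  0)]⟩⟩,⟨true,0,⟨0,[(16,0)]⟩,⟨0,[(0,0)]⟩⟩,⟨true,0,⟨0,[(9,0)]⟩,⟨1,[(2,0),(40,0)]⟩⟩,⟨false,0,⟨0,[(8,
  1),(7,0)]⟩,⟨0,[(1,0)]⟩⟩,⟨false,0,⟨0,[]⟩,⟨0,[]⟩⟩,⟨false,0,⟨0,[]⟩,⟨0,[]⟩⟩,[.o ⟨false,0,⟨0,[(25,0)]⟩,
  ⟨31,[(1,15),(11,0),(5,1),(16,2),(4,7)]⟩⟩,.o ⟨false,0,⟨0,[(10,0)]⟩,⟨54,[(1,22),(11,11),(5,23),(4,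
  8),(11,3),(6,13)]⟩⟩,.a ⟨true,0,⟨0,[(5,0)]⟩,⟨2,[(6,0),(9,1),(6,0)]⟩⟩ ⟨true,0,⟨0,[]⟩,⟨0,[(43,0)]⟩⟩
  ⟨false,0,⟨0,[(8,0),(7,0)]⟩,⟨3,[(0,1),(0,1),(38,0),(0,0)]⟩⟩,.e ⟨false,1,⟨1,[(40,0),(0,0)]⟩,⟨1,[(26,
  0),(0,0)]⟩⟩ ⟨false,0,⟨1,[(7,0),(15,1),(14,0)]⟩,⟨31,[(1,15),(11,0),(5,1),(6,31),(9,2),(4,7)]⟩⟩]⟩)
  (.I [0,0,0,0,0,1,1] (.C [(0,1),(0,0),(2,0),(26,1),(11,0)]) (.C [(0,0),(5,0),(12,0)]))) (.I [0,0,0,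
  0,0,1,1] (.C [(0,1),(0,0),(0,0),(0,0),(26,1),(10,0)]) (.C [(0,0),(4,0),(12,0)]))))))))) (.N [0,0,
  1] 0 ⟨0,[(0,0)]⟩ ⟨0,[(1,0)]⟩ .k)) (.Q [0,-1,0,0,1,0,2,2,0,-1,2] (.p true [0,0,1] [1,0,-1] (⟨0,
  [(20,0)]⟩,⟨0,[(19,0)]⟩) .k 2 (⟨0,[(19,0)]⟩,⟨0,[(20,0)]⟩) .k (.r 0 ⟨0,[(0,1)]⟩ ⟨0,[(1,1),(15,1),
  (13,0)]⟩)) (.R ⟨0,false,false,true,[0,0,1],[1,0,-1],[0,1],(⟨0,[(21,0)]⟩,⟨0,[(20,0)]⟩),(⟨0,[(20,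
  0)]⟩,⟨0,[(21,0)]⟩),⟨0,[(10,0)]⟩,.k,.k,.k,.k,.k,.k,⟨true,0,⟨0,[(1,0)]⟩,⟨0,[(2,0),(15,0)]⟩⟩,⟨false,
  0,⟨0,[(1,0),(0,0),(12,0)]⟩,⟨1,[(3,1),(0,1),(13,5),(13,0),(0,0)]⟩⟩,⟨true,0,⟨0,[(2,0),(15,0),(10,0),
  (1,0)]⟩,⟨0,[(1,0)]⟩⟩,⟨false,0,⟨0,[(2,1),(12,0),(2,0)]⟩,⟨0,[(0,0)]⟩⟩,⟨false,0,⟨0,[]⟩,⟨0,[]⟩⟩,
  ⟨false,0,⟨0,[]⟩,⟨0,[]⟩⟩,[.o ⟨false,0,⟨0,[(17,0)]⟩,⟨31,[(0,15),(4,0),(5,1),(16,2),(4,7)]⟩⟩,.o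
  ⟨false,0,⟨0,[(2,0)]⟩,⟨54,[(0,22),(4,11),(5,23),(4,8),(11,3),(6,13)]⟩⟩,.o ⟨false,1,⟨15,[(5,0),(5,
  1),(6,15),(9,2),(3,7)]⟩,⟨0,[(1,0),(0,0)]⟩⟩,.a ⟨true,0,⟨0,[(18,0)]⟩,⟨0,[(15,0)]⟩⟩ ⟨true,0,⟨0,[(29,
  0),(1,0)]⟩,⟨1,[(18,0),(0,0)]⟩⟩ ⟨false,0,⟨0,[(2,0),(12,0)]⟩,⟨31,[(0,15),(4,0),(5,1),(6,31),(9,2),
  (4,7)]⟩⟩]⟩) (.I [-1,0,0,0,1,0,0,0,-1] (.I [0,0,1,0,0,1,1] (.C [(0,0),(1,0),(0,0),(1,0),(5,0),(8,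
  0),(3,1),(8,0),(1,0)]) (.C [(0,0),(11,0),(7,0)])) (.C [(0,0),(7,0),(6,0)]))))

theorem ok24 : chk K t24 r13 = true := by decide +kernel


end Helper25.S1T.Ypp_1aP2
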