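import Pool.Agent.Helper25.KG.S1b
import Pool.Agent.Helper11.CT.Cut

set_option autoImplicit false
set_option linter.all false

namespace Helper25.S1T.Ypp_1aP3

open Helper25.KG Helper25.KW Helper55.KE Helper11.CT

noncomputable def K : Cls :=
  cE 1 [0,1] (kfY 1 [0,0,0,0,0,0,1,0,0,0,1])

noncomputable def base : List Con :=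
  [(false,[0,0,0,0,0,0,-2,0,0,1,-2]),
  (false,[0,0,0,0,0,1,0,0,0,-1,1]),
  (false,[0,0,0,0,0,1,0,0,0,0,-1]),
  (false,[0,0,0,0,1,0,0,0,-1,0,0,-1]),
  (false,[0,0,0,0,0,0,0,0,1,0,0,1]),
  (false,[0,0,0,0,0,0,0,0,0,1,0,-1]),
  (false,[0,0,0,0,0,0,0,0,0,0,0,1]),
  (false,[0,0,-1,0,0,0,-1,0,0,1,-1]),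
  (false,[0,1,0,0,0,0,1,1,0,0,1]),
  (false,[0,1,0,0,0,0,-1,-1,0,0,-1]),
  (false,[0,0,1,0,0,0,1,0,0,0,1]),
  (false,[0,0,1,0,0,0,-1,0,0,0,-1]),
  (false,[0,0,0,0,0,0,0,0,0,1,-1]),
  (false,[0,0,0,0,0,0,0,0,0,0,1]),
  (true,[-2,0,0,0,0,1]),
  (false,[0,0,0,0,1,0,0,0,0,-2]),
  (false,[0,0,0,0,0,-1,0,0,0,1]),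
  (true,[0,0,0,0,0,1]),
  (true,[0,2,-1]),
  (false,[1,0,0,0,0,3,0,0,0,-1]),
  (false,[3,0,0,0,-1,0,0,0,0,2]),
  (false,[-1,0,0,0,1,0,0,0,0,-2]),
  (true,[0,1,-1,-1]),
  (true,[0,1,0,-1]),
  (true,[0,0,0,1]),
  (true,[0,0,-2,0,1]),
  (true,[0,-2,0,0,1]),
  (true,[-1,0,1]),
  (true,[-1,1])]

noncomputable def t0 : Tre :=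
  (.I [1,0,0,1,-1,0,0,-2] (.Q [0,0,0,0,0,0,1,0,0,0,1] (.p true [0,0,1] [] (⟨0,[(14,0)]⟩,⟨0,[(13,
  0)]⟩) .k 0 (⟨0,[]⟩,⟨0,[]⟩) .k .k) (.Q [0,-1,-1,-1,1,0,-1,0,0,0,-1] (.p false [0,0,1] [] (⟨0,[(15,
  0)]⟩,⟨0,[(14,0)]⟩) .k 0 (⟨0,[]⟩,⟨0,[]⟩) .k .k) (.R ⟨0,false,false,false,[0,1,-1],[0,1],[1],(⟨0,
  [(5,0)]⟩,⟨0,[(16,0),(2,0)]⟩),(⟨0,[(20,0)]⟩,⟨0,[(19,0)]⟩),⟨0,[(16,0)]⟩,.k,.k,.k,.k,.k,.k,⟨false,1,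
  ⟨1,[(0,0),(0,0),(23,0),(2,0)]⟩,⟨1,[(13,0),(0,0),(12,1)]⟩⟩,⟨true,0,⟨0,[(1,0)]⟩,⟨0,[(14,0)]⟩⟩,⟨true,
  1,⟨0,[(0,0),(10,0)]⟩,⟨0,[(2,0),(8,0),(2,0)]⟩⟩,⟨false,1,⟨0,[(11,0),(17,0)]⟩,⟨2,[(0,0),(1,0),(9,0),
  (1,0)]⟩⟩,⟨false,0,⟨0,[]⟩,⟨0,[]⟩⟩,⟨false,0,⟨0,[]⟩,⟨0,[]⟩⟩,[.a ⟨true,0,⟨0,[(27,0)]⟩,⟨1,[(23,0),(2,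
  1),(2,0)]⟩⟩ ⟨true,0,⟨0,[]⟩,⟨1,[(13,0),(0,0)]⟩⟩ ⟨false,0,⟨0,[(1,0),(25,0)]⟩,⟨15,[(0,11),(2,1),(2,
  2),(0,2),(13,3),(2,0),(1,3)]⟩⟩,.o ⟨false,1,⟨1,[(24,0),(2,1),(1,0)]⟩,⟨0,[(26,0)]⟩⟩,.o ⟨false,1,⟨0,
  [(10,0),(13,0)]⟩,⟨0,[(13,0)]⟩⟩,.o ⟨false,1,⟨3,[(3,1),(2,0),(0,0),(16,2)]⟩,⟨0,[(1,0)]⟩⟩]⟩) (.R ⟨0,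
  false,false,true,[0,1,-1],[0,1],[0,1,1],(⟨0,[(5,0)]⟩,⟨0,[(16,0),(2,0)]⟩),(⟨0,[(20,0)]⟩,⟨0,[(19,
  0)]⟩),⟨0,[(16,0)]⟩,.k,.k,.k,.k,.k,.k,⟨false,1,⟨1,[(26,1),(1,0),(0,0)]⟩,⟨0,[(27,0)]⟩⟩,⟨true,0,⟨0,
  [(1,0)]⟩,⟨0,[(14,0)]⟩⟩,⟨false,1,⟨0,[(11,0),(2,0),(10,0),(3,0)]⟩,⟨1,[(2,0),(24,0),(1,0)]⟩⟩,⟨true,0,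
  ⟨0,[(11,0)]⟩,⟨3,[(2,1),(0,1),(20,0),(1,1),(2,0)]⟩⟩,⟨false,0,⟨0,[]⟩,⟨0,[]⟩⟩,⟨false,0,⟨0,[]⟩,⟨0,
  []⟩⟩,[.o ⟨false,0,⟨0,[(0,0),(9,0),(13,0)]⟩,⟨0,[(26,0),(2,0)]⟩⟩,.a ⟨true,0,⟨0,[(27,0)]⟩,⟨1,[(23,0),
  (2,1),(2,0)]⟩⟩ ⟨true,0,⟨1,[(13,0),(0,0)]⟩,⟨0,[]⟩⟩ ⟨false,0,⟨0,[(1,0),(25,0)]⟩,⟨3,[(3,1),(20,0),(0,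
  1),(0,1),(1,0),(0,1)]⟩⟩,.o ⟨false,1,⟨0,[(10,0),(13,0)]⟩,⟨0,[(13,0)]⟩⟩,.o ⟨false,1,⟨3,[(3,1),(2,0),
  (0,0),(16,2)]⟩,⟨0,[(1,0)]⟩⟩]⟩)) (.R ⟨2,true,false,true,[0,1],[0,0,1],[1,1,1],(⟨0,[]⟩,⟨0,[]⟩),(⟨0,
  [(15,0)]⟩,⟨0,[(14,0)]⟩),⟨0,[]⟩,.k,.k,.k,.k,.k,.k,⟨false,0,⟨9,[(1,3),(9,1),(0,1),(12,3),(1,0),(0,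
  2)]⟩,⟨1,[(0,1),(9,1),(16,0),(0,0)]⟩⟩,⟨true,0,⟨0,[(12,0)]⟩,⟨0,[(0,0)]⟩⟩,⟨true,0,⟨0,[(25,0)]⟩,⟨0,
  [(26,0)]⟩⟩,⟨false,1,⟨0,[(10,0),(14,0),(2,0)]⟩,⟨1,[(0,1),(0,0),(24,0),(1,0)]⟩⟩,⟨false,0,⟨0,[]⟩,⟨1,
  [(5,0),(0,0),(21,0)]⟩⟩,⟨true,0,⟨0,[(10,0)]⟩,⟨2,[(0,1),(0,0),(9,0),(13,0),(2,0)]⟩⟩,[]⟩)) (.Q [0,0,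
  0,-2,0,0,0,0,0,1] (.pp false [-1,1]) (.I [1,-1,0,1,0,0,0,-1] (.Q [0,0,0,0,0,0,1,0,0,0,1] (.p true
  [0,0,1] [] (⟨0,[(16,0)]⟩,⟨0,[(15,0)]⟩) .k 0 (⟨0,[]⟩,⟨0,[]⟩) .k .k) (.I [1,-1,-2,-1,1] (.R ⟨0,
  false,false,true,[0,1,-1],[0,1],[0,1,1],(⟨0,[(7,0)]⟩,⟨0,[(18,0),(2,0)]⟩),(⟨0,[(22,0)]⟩,⟨0,[(21,
  0)]⟩),⟨0,[(18,0)]⟩,.k,.k,.k,.k,.k,.k,⟨false,1,⟨3,[(3,1),(4,0),(0,0),(16,0),(3,1)]⟩,⟨0,[(29,0)]⟩⟩,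
  ⟨true,0,⟨0,[(1,0)]⟩,⟨0,[(16,0)]⟩⟩,⟨false,1,⟨7,[(3,1),(0,3),(3,2),(0,2),(16,0)]⟩,⟨0,[(2,0)]⟩⟩,
  ⟨true,0,⟨0,[(13,0)]⟩,⟨0,[(2,0),(13,0),(10,0)]⟩⟩,⟨false,0,⟨0,[]⟩,⟨0,[]⟩⟩,⟨false,0,⟨0,[]⟩,⟨0,[]⟩⟩,
  [.e ⟨false,0,⟨0,[(33,0)]⟩,⟨1,[(30,0),(0,0)]⟩⟩ ⟨false,0,⟨1,[(1,0),(13,0),(7,0),(5,1)]⟩,⟨0,[(0,0),
  (15,0)]⟩⟩,.a ⟨true,0,⟨0,[(29,0)]⟩,⟨5,[(3,2),(4,0),(0,0),(9,0),(1,0),(3,0)]⟩⟩ ⟨true,0,⟨1,[(15,0),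
  (0,0)]⟩,⟨0,[]⟩⟩ ⟨false,0,⟨0,[(2,0),(10,0)]⟩,⟨19,[(0,9),(2,1),(0,5),(0,3),(8,11),(11,2),(4,0)]⟩⟩,
  .o ⟨false,1,⟨0,[(12,0),(13,0)]⟩,⟨0,[(15,0)]⟩⟩,.o ⟨false,1,⟨3,[(5,1),(2,0),(0,0),(16,2)]⟩,⟨0,[(1,
  0)]⟩⟩]⟩) (.R ⟨0,false,false,false,[0,1,-1],[0,1],[1],(⟨0,[(7,0)]⟩,⟨0,[(18,0),(2,0)]⟩),(⟨0,[(22,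
  0)]⟩,⟨0,[(21,0)]⟩),⟨0,[(18,0)]⟩,.k,.k,.k,.k,.k,.k,⟨false,1,⟨1,[(27,1),(2,0),(0,0)]⟩,⟨3,[(0,1),(7,
  0),(0,0),(19,1),(1,0)]⟩⟩,⟨true,0,⟨0,[(1,0)]⟩,⟨0,[(16,0)]⟩⟩,⟨true,1,⟨3,[(4,1),(22,1),(2,0),(0,0)]⟩,
  ⟨0,[(0,0),(1,0),(24,0)]⟩⟩,⟨false,1,⟨0,[(13,0),(17,0)]⟩,⟨0,[(2,0),(13,0),(10,0)]⟩⟩,⟨false,0,⟨0,[]⟩,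
  ⟨0,[]⟩⟩,⟨false,0,⟨0,[]⟩,⟨0,[]⟩⟩,[.a ⟨true,0,⟨0,[(29,0)]⟩,⟨5,[(3,2),(4,0),(0,0),(9,0),(1,0),(3,
  0)]⟩⟩ ⟨true,0,⟨0,[]⟩,⟨1,[(15,0),(0,0)]⟩⟩ ⟨false,0,⟨0,[(2,0),(10,0)]⟩,⟨1,[(3,0),(1,0),(20,0),(3,
  0)]⟩⟩,.o ⟨false,1,⟨1,[(26,0),(2,1),(1,0)]⟩,⟨0,[(28,0)]⟩⟩,.o ⟨false,1,⟨0,[(12,0),(13,0)]⟩,⟨0,[(15,
  0)]⟩⟩,.o ⟨false,1,⟨3,[(5,1),(2,0),(0,0),(16,2)]⟩,⟨0,[(1,0)]⟩⟩]⟩)) (.R ⟨2,true,false,true,[0,1],[0,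
  0,1],[1,1,1],(⟨0,[]⟩,⟨0,[]⟩),(⟨0,[(17,0)]⟩,⟨0,[(16,0)]⟩),⟨0,[]⟩,.k,.k,.k,.k,.k,.k,⟨false,0,⟨0,[(1,
  0),(25,0)]⟩,⟨1,[(3,0),(24,0),(0,0)]⟩⟩,⟨true,0,⟨0,[(14,0)]⟩,⟨0,[(0,0)]⟩⟩,⟨true,0,⟨0,[(27,0)]⟩,⟨0,
  [(28,0)]⟩⟩,⟨false,1,⟨5,[(2,1),(0,1),(8,1),(1,3),(10,0),(3,1),(0,0)]⟩,⟨0,[(0,0),(0,0)]⟩⟩,⟨false,0,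
  ⟨0,[]⟩,⟨1,[(7,0),(0,0),(21,0)]⟩⟩,⟨true,0,⟨0,[(12,0)]⟩,⟨0,[(0,0),(0,0),(25,0)]⟩⟩,[]⟩)) (.Q [0,0,0,
  -1,0,0,1,1,0,0,1] (.p true [0,0,1] [] (⟨0,[(16,0)]⟩,⟨0,[(15,0)]⟩) .k 0 (⟨0,[]⟩,⟨0,[]⟩) .k .k) (.I
  [1,0,0,1,0,0,0,-1] (.R ⟨0,false,false,false,[0,1,-1],[0,1],[0,0,1],(⟨0,[(7,0)]⟩,⟨0,[(18,0),(2,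
  0)]⟩),(⟨0,[(22,0)]⟩,⟨0,[(21,0)]⟩),⟨0,[(18,0)]⟩,.k,.k,.k,.k,.k,.k,⟨false,1,⟨3,[(3,1),(4,0),(0,0),
  (16,0),(3,1)]⟩,⟨0,[(29,0)]⟩⟩,⟨true,0,⟨0,[(0,0),(0,0)]⟩,⟨0,[(16,0)]⟩⟩,⟨false,1,⟨5,[(1,1),(1,0),(0,
  1),(0,0),(20,0),(4,2)]⟩,⟨0,[(0,0)]⟩⟩,⟨true,0,⟨0,[(1,0),(27,0)]⟩,⟨0,[(14,0)]⟩⟩,⟨false,0,⟨0,[]⟩,⟨0,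
  []⟩⟩,⟨false,0,⟨0,[]⟩,⟨0,[]⟩⟩,[.a ⟨true,0,⟨0,[(29,0)]⟩,⟨5,[(3,2),(4,0),(0,0),(9,0),(1,0),(3,0)]⟩⟩
  ⟨true,0,⟨1,[(15,0),(0,0)]⟩,⟨0,[]⟩⟩ ⟨false,0,⟨0,[(0,0),(0,0),(27,0)]⟩,⟨1,[(3,0),(1,0),(20,0),(3,
  0)]⟩⟩,.o ⟨false,1,⟨1,[(26,0),(2,1),(1,0)]⟩,⟨0,[(28,0)]⟩⟩,.o ⟨false,1,⟨0,[(12,0),(13,0)]⟩,⟨0,[(15,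
  0)]⟩⟩,.o ⟨false,1,⟨3,[(5,1),(2,0),(0,0),(16,2)]⟩,⟨0,[(0,0),(0,0)]⟩⟩]⟩) (.I [0,-1,0,1,1,0,0,-1]
  (.Q [0,0,0,0,0,0,-1,0,0,0,-1] (.p false [0,0,1] [] (⟨0,[(19,0)]⟩,⟨0,[(18,0)]⟩) .k 0 (⟨0,[]⟩,⟨0,
  []⟩) .k .k) (.I [0,-1,1,0,0,0,0,1] (.Q [0,-1,-1,-1,1,0,1,0,0,0,1] (.p true [0,0,1] [] (⟨0,[(21,
  0)]⟩,⟨0,[(20,0)]⟩) .k 0 (⟨0,[]⟩,⟨0,[]⟩) .k .k) (.R ⟨0,false,false,false,[1,0,-1],[1,-1],[0,0,1],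
  (⟨0,[(21,0)]⟩,⟨0,[(22,0)]⟩),(⟨0,[(25,0)]⟩,⟨0,[(26,0)]⟩),⟨0,[(10,0)]⟩,.k,.k,.k,.k,.k,.k,⟨false,0,
  ⟨1,[(19,0),(0,0),(12,1)]⟩,⟨1,[(0,0),(1,0),(28,0),(2,0)]⟩⟩,⟨true,0,⟨0,[(19,0)]⟩,⟨0,[(2,0)]⟩⟩,
  ⟨false,0,⟨0,[(1,0)]⟩,⟨0,[(3,0),(27,0)]⟩⟩,⟨true,0,⟨0,[(5,0)]⟩,⟨0,[(18,0),(14,0)]⟩⟩,⟨false,0,⟨0,[]⟩,
  ⟨0,[]⟩⟩,⟨false,0,⟨0,[]⟩,⟨0,[]⟩⟩,[.a ⟨true,0,⟨42,[(3,5),(3,22),(0,2),(14,1),(1,1),(3,8),(7,5)]⟩,⟨0,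
  [(33,0)]⟩⟩ ⟨true,0,⟨1,[(19,0),(0,0)]⟩,⟨0,[]⟩⟩ ⟨false,1,⟨4,[(0,3),(2,0),(13,0),(9,0),(4,1)]⟩,⟨0,
  [(2,0),(30,0)]⟩⟩,.e ⟨false,1,⟨17,[(3,7),(3,1),(0,3),(21,0),(4,4)]⟩,⟨0,[(31,0),(1,0)]⟩⟩ ⟨false,1,
  ⟨0,[(0,0)]⟩,⟨1,[(2,0),(17,0),(6,0),(5,1)]⟩⟩,.o ⟨false,0,⟨0,[(2,0)]⟩,⟨5,[(0,1),(2,0),(13,0),(1,2),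
  (7,0),(2,2),(2,0)]⟩⟩,.e ⟨false,1,⟨17,[(3,7),(3,1),(0,3),(21,0),(4,4)]⟩,⟨0,[]⟩⟩ ⟨false,1,⟨0,[(0,
  0)]⟩,⟨0,[(20,0),(12,0)]⟩⟩]⟩) (.I [0,1,0,0,0,0,0,-1] (.R ⟨0,false,false,true,[0,1,-1],[1,0,-1],[1,
  0,1],(⟨0,[(12,0)]⟩,⟨0,[(23,0),(2,0)]⟩),(⟨0,[(22,0)]⟩,⟨0,[(23,0)]⟩),⟨0,[(23,0)]⟩,.k,.k,.k,.k,.k,.k,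
  ⟨true,0,⟨0,[(2,0)]⟩,⟨0,[(0,0)]⟩⟩,⟨false,0,⟨42,[(4,11),(3,2),(0,5),(14,3),(1,3),(3,17),(7,11)]⟩,⟨1,
  [(31,0),(3,0)]⟩⟩,⟨true,0,⟨0,[(5,0)]⟩,⟨0,[(0,0),(33,0)]⟩⟩,⟨false,0,⟨42,[(4,5),(3,22),(0,2),(14,1),
  (1,1),(3,8),(7,5)]⟩,⟨1,[(31,0),(2,1),(1,0)]⟩⟩,⟨false,0,⟨0,[]⟩,⟨0,[]⟩⟩,⟨false,0,⟨0,[]⟩,⟨0,[]⟩⟩,[.o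
  ⟨false,0,⟨0,[(19,0)]⟩,⟨1,[(6,1),(24,0),(2,1),(1,0)]⟩⟩,.e ⟨false,1,⟨17,[(4,7),(3,1),(0,3),(21,0),
  (4,4)]⟩,⟨0,[(32,0),(1,0)]⟩⟩ ⟨false,0,⟨1,[(0,1),(29,0),(5,0)]⟩,⟨1,[(1,0),(0,0),(3,0),(24,0),(3,
  1)]⟩⟩,.o ⟨false,1,⟨1,[(3,1),(27,0),(3,0)]⟩,⟨0,[(20,0)]⟩⟩,.a ⟨true,0,⟨0,[(3,0)]⟩,⟨1,[(0,0),(3,0),
  (1,1),(23,0),(3,0)]⟩⟩ ⟨true,0,⟨0,[]⟩,⟨0,[(38,0)]⟩⟩ ⟨false,0,⟨1,[(0,1),(29,0),(5,0)]⟩,⟨1,[(2,1),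
  (28,0),(3,0)]⟩⟩]⟩) (.Q [0,1,-1,-1,-1,0,0,1,0,1] (.pp false [-1,1]) (.R ⟨0,false,false,true,[0,0,
  1],[1,-1,1],[0,1,0,-1,0,0,0,1],(⟨0,[(24,0)]⟩,⟨0,[(23,0)]⟩),(⟨0,[(24,0),(2,0)]⟩,⟨0,[(13,0)]⟩),⟨0,
  [(13,0)]⟩,.k,.k,.k,.k,.k,.k,⟨true,0,⟨1,[(21,0),(0,0)]⟩,⟨0,[]⟩⟩,⟨false,0,⟨42,[(5,11),(3,2),(0,5),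
  (14,3),(1,3),(3,17),(7,11)]⟩,⟨1,[(32,0),(3,0)]⟩⟩,⟨true,0,⟨0,[(34,0)]⟩,⟨0,[(35,0)]⟩⟩,⟨false,0,⟨42,
  [(5,5),(3,22),(0,2),(14,1),(1,1),(3,8),(7,5)]⟩,⟨1,[(32,0),(2,1),(1,0)]⟩⟩,⟨false,0,⟨0,[]⟩,⟨0,[]⟩⟩,
  ⟨false,0,⟨0,[]⟩,⟨0,[]⟩⟩,[.e ⟨false,0,⟨17,[(0,9),(9,3),(18,1),(2,4),(0,3),(2,0)]⟩,⟨0,[(5,0)]⟩⟩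
  ⟨false,(-1),⟨0,[(0,0)]⟩,⟨15,[(5,20),(4,2),(9,0),(0,0),(7,0),(2,7),(1,1)]⟩⟩,.o ⟨false,0,⟨0,[(7,
  0)]⟩,⟨5,[(2,1),(1,1),(0,3),(14,1),(11,2),(3,0)]⟩⟩,.o ⟨false,1,⟨1,[(21,1),(10,0),(3,0)]⟩,⟨0,[(4,
  0)]⟩⟩,.a ⟨true,0,⟨0,[(21,0)]⟩,⟨0,[(18,0)]⟩⟩ ⟨false,0,⟨1,[(0,1),(31,0),(4,0)]⟩,⟨1,[(5,1),(15,0),(0,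
  0)]⟩⟩ ⟨true,(-1),⟨0,[(0,0)]⟩,⟨7,[(2,1),(2,5),(14,1),(0,4),(0,0),(9,3),(6,1)]⟩⟩]⟩) (.Q [0,-1,0,-1,
  0,0,0,0,0,1] (.pp false [-1,1]) (.R ⟨0,false,false,false,[1,0,-1],[1,-1],[0,1],(⟨0,[(24,0)]⟩,⟨0,
  [(25,0)]⟩),(⟨0,[(28,0)]⟩,⟨0,[(29,0)]⟩),⟨0,[(13,0)]⟩,.k,.k,.k,.k,.k,.k,⟨false,0,⟨2,[(3,0),(2,0),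
  (13,0),(9,0),(5,0)]⟩,⟨1,[(0,1),(32,0),(3,0)]⟩⟩,⟨true,0,⟨0,[(22,0)]⟩,⟨0,[(5,0)]⟩⟩,⟨false,0,⟨6,[(2,
  3),(0,0),(7,0),(8,0),(9,0)]⟩,⟨1,[(0,0),(0,0),(4,0),(27,0)]⟩⟩,⟨true,0,⟨0,[(8,0)]⟩,⟨0,[(21,0),(14,
  0)]⟩⟩,⟨false,0,⟨0,[]⟩,⟨0,[]⟩⟩,⟨false,0,⟨0,[]⟩,⟨0,[]⟩⟩,[.e ⟨false,0,⟨0,[(34,0),(1,0)]⟩,⟨17,[(6,7),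
  (3,1),(0,3),(21,0),(4,4)]⟩⟩ ⟨false,1,⟨0,[(6,0),(1,0),(25,0)]⟩,⟨0,[(5,0),(30,0)]⟩⟩,.a ⟨true,0,⟨0,
  [(0,0)]⟩,⟨2,[(3,0),(2,0),(13,0),(9,0),(5,0)]⟩⟩ ⟨false,1,⟨21,[(6,7),(3,1),(0,3),(18,3),(2,0),(3,
  8)]⟩,⟨0,[]⟩⟩ ⟨true,1,⟨1,[(0,0),(0,0),(4,0),(1,1),(25,0)]⟩,⟨0,[(3,0)]⟩⟩,.o ⟨false,0,⟨0,[(5,0)]⟩,⟨1,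
  [(22,1),(10,0),(3,0)]⟩⟩,.e ⟨true,0,⟨0,[(34,0),(1,0)]⟩,⟨1,[(22,0),(0,0)]⟩⟩ ⟨true,1,⟨0,[(6,0),(1,0),
  (25,0)]⟩,⟨0,[(3,0)]⟩⟩]⟩) (.R ⟨0,false,false,false,[0,0,1],[1,-1,1],[1,0,1],(⟨0,[(25,0)]⟩,⟨0,[(24,
  0)]⟩),(⟨0,[(25,0),(2,0)]⟩,⟨0,[(14,0)]⟩),⟨0,[(14,0)]⟩,.k,.k,.k,.k,.k,.k,⟨true,0,⟨5,[(1,3),(1,1),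
  (17,1),(0,4),(0,0),(8,1)]⟩,⟨0,[(2,0),(31,0)]⟩⟩,⟨false,0,⟨42,[(6,11),(3,2),(0,5),(14,3),(1,3),(3,
  17),(7,11)]⟩,⟨1,[(33,0),(3,0)]⟩⟩,⟨false,1,⟨3,[(1,1),(4,1),(3,1),(11,0),(0,0)]⟩,⟨3,[(0,1),(1,3),
  (29,0),(1,1),(2,0)]⟩⟩,⟨true,0,⟨42,[(6,5),(3,22),(0,2),(14,1),(1,1),(3,8),(7,5)]⟩,⟨0,[(0,0)]⟩⟩,
  ⟨false,0,⟨0,[]⟩,⟨0,[]⟩⟩,⟨false,0,⟨0,[]⟩,⟨0,[]⟩⟩,[.o ⟨false,0,⟨0,[(8,0)]⟩,⟨2,[(0,0),(4,1),(0,1),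
  (14,0),(11,0)]⟩⟩,.e ⟨false,1,⟨17,[(6,7),(3,1),(0,3),(21,0),(4,4)]⟩,⟨3,[(0,1),(31,0),(1,1),(2,
  0)]⟩⟩ ⟨false,0,⟨1,[(2,1),(29,0),(1,1),(3,0)]⟩,⟨0,[(1,0),(28,0)]⟩⟩,.o ⟨false,1,⟨1,[(22,1),(10,0),
  (3,0)]⟩,⟨0,[(5,0)]⟩⟩,.a ⟨true,0,⟨0,[(22,0)]⟩,⟨0,[(19,0)]⟩⟩ ⟨true,0,⟨0,[]⟩,⟨0,[(40,0)]⟩⟩ ⟨false,0,
  ⟨1,[(2,1),(29,0),(1,1),(3,0)]⟩,⟨0,[(1,0),(38,0)]⟩⟩]⟩))))) (.R ⟨0,false,false,true,[0,1,-1],[1,0,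
  -1],[1,1,0,0,0,0,0,-1],(⟨0,[(10,0)]⟩,⟨0,[(21,0),(2,0)]⟩),(⟨0,[(20,0)]⟩,⟨0,[(21,0)]⟩),⟨0,[(21,0)]⟩,
  .k,.k,.k,.k,.k,.k,⟨true,0,⟨0,[]⟩,⟨1,[(18,0),(0,0)]⟩⟩,⟨false,0,⟨42,[(2,11),(3,2),(0,5),(14,3),(1,
  3),(3,17),(7,11)]⟩,⟨1,[(29,0),(3,0)]⟩⟩,⟨true,0,⟨0,[(30,0)]⟩,⟨1,[(18,0),(0,0),(12,1)]⟩⟩,⟨false,0,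
  ⟨42,[(2,5),(3,22),(0,2),(14,1),(1,1),(3,8),(7,5)]⟩,⟨1,[(29,0),(2,1),(1,0)]⟩⟩,⟨false,0,⟨0,[]⟩,⟨0,
  []⟩⟩,⟨false,0,⟨0,[]⟩,⟨0,[]⟩⟩,[.o ⟨false,0,⟨0,[(17,0)]⟩,⟨1,[(4,1),(24,0),(2,1),(1,0)]⟩⟩,.e ⟨false,
  1,⟨19,[(0,7),(1,11),(3,5),(19,1),(2,2),(3,4)]⟩,⟨0,[(3,0),(28,0)]⟩⟩ ⟨false,0,⟨3,[(0,2),(16,0),(0,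
  0),(9,1),(5,1),(0,1)]⟩,⟨1,[(3,1),(25,0),(2,1),(0,0)]⟩⟩,.o ⟨false,1,⟨1,[(1,1),(27,0),(3,0)]⟩,⟨0,
  [(18,0)]⟩⟩,.a ⟨true,0,⟨0,[(1,0)]⟩,⟨4,[(0,0),(1,0),(1,1),(13,2),(3,0),(1,0),(3,1),(3,0),(0,0)]⟩⟩
  ⟨true,0,⟨0,[(0,0)]⟩,⟨0,[(4,0),(14,0),(12,0)]⟩⟩ ⟨false,0,⟨3,[(0,2),(16,0),(0,0),(9,1),(5,1),(0,
  1)]⟩,⟨1,[(3,1),(25,0),(2,1),(1,0)]⟩⟩]⟩)) (.Q [0,0,-2,0,1,0,0,0,0,-1] (.pp true [-1,1]) (.R ⟨0,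
  false,false,false,[1,-1],[1,-1,1],[1,1],(⟨0,[(24,0)]⟩,⟨0,[(25,0)]⟩),(⟨0,[(21,0),(2,0)]⟩,⟨0,[(10,
  0)]⟩),⟨0,[(9,0),(0,0)]⟩,.k,.k,(.r (-1) ⟨0,[(0,0),(5,0)]⟩ ⟨0,[(18,0),(0,0),(12,1)]⟩),.k,.k,.k,
  ⟨false,0,⟨0,[(1,0),(15,0),(14,0)]⟩,⟨13,[(0,4),(2,5),(0,3),(1,0),(0,1),(7,3),(18,6)]⟩⟩,⟨true,0,⟨0,
  [(1,0)]⟩,⟨0,[(19,0)]⟩⟩,⟨false,0,⟨1,[(18,0),(0,0),(12,1)]⟩,⟨1,[(0,0),(5,0),(27,0)]⟩⟩,⟨true,0,⟨0,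
  [(4,0),(27,0)]⟩,⟨0,[(17,0)]⟩⟩,⟨false,0,⟨0,[]⟩,⟨0,[]⟩⟩,⟨false,0,⟨0,[]⟩,⟨0,[]⟩⟩,[.o ⟨false,0,⟨0,[(4,
  0)]⟩,⟨1,[(17,1),(11,0),(2,1),(1,0)]⟩⟩,.a ⟨true,0,⟨1,[(1,1),(1,1),(24,0),(5,0)]⟩,⟨0,[(17,0),(14,
  0)]⟩⟩ ⟨true,0,⟨0,[]⟩,⟨1,[(18,0),(0,0)]⟩⟩ ⟨false,1,⟨1,[(0,1),(0,1),(1,1),(24,0),(5,0)]⟩,⟨1,[(17,1),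
  (0,0),(0,0),(12,1)]⟩⟩,.o ⟨false,0,⟨1,[(18,0),(0,0)]⟩,⟨1,[(29,0),(3,0)]⟩⟩,.o ⟨false,0,⟨0,[(18,0),
  (0,0)]⟩,⟨0,[(0,0)]⟩⟩]⟩) (.Q [0,1,0,-1,-1,0,1,1,0,1,1] (.p true [1,-1,1] [] (⟨0,[(21,0),(2,0)]⟩,⟨0,
  [(10,0)]⟩) .k 0 (⟨0,[]⟩,⟨0,[]⟩) .k .k) (.K ⟨0,[1,-1,1],(-1),(-1),(⟨0,[(22,0),(2,0)]⟩,⟨0,[(11,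
  0)]⟩),.k,(.r (-1) ⟨1,[(4,1),(26,1),(2,0),(0,0)]⟩ ⟨1,[(1,1),(0,0),(0,0),(14,0),(11,0),(2,2)]⟩),.k,
  .k,.k,[⟨1,[(30,0),(3,0)]⟩,⟨0,[(1,0),(0,0)]⟩,⟨1,[(3,0),(14,0),(1,0),(6,0),(2,0),(2,0)]⟩,⟨0,[(0,
  0)]⟩]⟩) (.R ⟨0,false,false,false,[0,1,-1],[0,1],[1],(⟨0,[(11,0)]⟩,⟨0,[(22,0),(2,0)]⟩),(⟨0,[(26,
  0)]⟩,⟨0,[(25,0)]⟩),⟨0,[(22,0)]⟩,.k,.k,.k,.k,.k,.k,⟨false,1,⟨1,[(31,1),(2,0),(0,0)]⟩,⟨1,[(0,0),(0,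
  0),(15,0),(15,0)]⟩⟩,⟨true,0,⟨0,[(2,0)]⟩,⟨0,[(20,0)]⟩⟩,⟨false,1,⟨1,[(4,1),(29,0),(0,0)]⟩,⟨1,[(0,0),
  (0,0),(0,1),(15,0),(14,0)]⟩⟩,⟨true,0,⟨0,[(5,0),(27,0)]⟩,⟨0,[(18,0)]⟩⟩,⟨false,0,⟨0,[]⟩,⟨0,[]⟩⟩,
  ⟨false,0,⟨0,[]⟩,⟨0,[]⟩⟩,[.a ⟨true,0,⟨0,[(33,0)]⟩,⟨42,[(3,5),(3,22),(0,2),(14,1),(1,1),(3,8),(7,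
  5)]⟩⟩ ⟨true,0,⟨0,[]⟩,⟨1,[(19,0),(0,0)]⟩⟩ ⟨false,0,⟨0,[(2,0),(30,0)]⟩,⟨1,[(7,0),(1,0),(20,0),(3,
  0)]⟩⟩,.o ⟨false,1,⟨1,[(30,0),(2,1),(1,0)]⟩,⟨0,[(32,0)]⟩⟩,.o ⟨false,1,⟨0,[(16,0),(13,0)]⟩,⟨0,[(19,
  0)]⟩⟩,.o ⟨false,1,⟨3,[(0,0),(7,0),(0,0),(8,0),(11,1)]⟩,⟨0,[(2,0)]⟩⟩]⟩)))) (.R ⟨0,false,false,true,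
  [0,0,1],[1,-1,1],[],(⟨0,[(19,0)]⟩,⟨0,[(18,0)]⟩),(⟨0,[(19,0),(2,0)]⟩,⟨0,[(8,0)]⟩),⟨0,[(8,0)]⟩,.k,
  .k,.k,.k,.k,.k,⟨true,1,⟨0,[(15,0),(0,0),(13,0),(1,0)]⟩,⟨0,[(0,0)]⟩⟩,⟨false,0,⟨2,[(9,0),(0,0),(9,
  0),(1,0),(3,0)]⟩,⟨1,[(27,0),(3,0)]⟩⟩,⟨true,1,⟨1,[(15,1),(0,1),(14,0),(0,0)]⟩,⟨0,[(0,0),(29,0)]⟩⟩,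
  ⟨false,0,⟨5,[(4,2),(4,0),(0,0),(9,0),(1,0),(3,0)]⟩,⟨1,[(27,0),(2,1),(1,0)]⟩⟩,⟨false,0,⟨0,[]⟩,⟨0,
  []⟩⟩,⟨false,0,⟨0,[]⟩,⟨0,[]⟩⟩,[.e ⟨false,1,⟨1,[(9,0),(0,0),(20,0)]⟩,⟨0,[]⟩⟩ ⟨false,(-1),⟨3,[(0,3),
  (25,1),(1,1),(1,1),(0,0),(0,0)]⟩,⟨1,[(15,1),(0,1),(10,0),(2,1),(0,0),(0,1)]⟩⟩,.o ⟨false,0,⟨0,[(2,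
  0)]⟩,⟨1,[(15,1),(11,0),(2,1),(1,0)]⟩⟩,.o ⟨false,1,⟨1,[(16,1),(10,0),(3,0)]⟩,⟨0,[(0,0),(14,0),(14,
  0),(1,0)]⟩⟩,.a ⟨true,0,⟨0,[(16,0)]⟩,⟨0,[(13,0)]⟩⟩ ⟨false,1,⟨1,[(31,0),(0,0)]⟩,⟨1,[(16,0),(0,0)]⟩⟩
  ⟨true,(-1),⟨3,[(0,3),(25,1),(1,1),(1,1),(0,0),(0,0)]⟩,⟨1,[(15,1),(0,1),(10,0),(2,1),(1,0)]⟩⟩]⟩)))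
  (.I [1,0,0,-1,0,0,0,1] (.R ⟨0,false,false,true,[0,0,1],[1,-1,1],[0,1],(⟨0,[(18,0)]⟩,⟨0,[(17,0)]⟩),
  (⟨0,[(18,0),(2,0)]⟩,⟨0,[(7,0)]⟩),⟨0,[(7,0)]⟩,.k,.k,.k,.k,.k,.k,⟨true,0,⟨0,[(1,0),(13,0)]⟩,⟨0,[(0,
  0)]⟩⟩,⟨false,0,⟨2,[(8,0),(0,0),(9,0),(1,0),(3,0)]⟩,⟨1,[(26,0),(3,0)]⟩⟩,⟨true,0,⟨0,[(1,0),(13,0),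
  (11,0)]⟩,⟨0,[(0,0),(28,0)]⟩⟩,⟨false,0,⟨5,[(3,2),(4,0),(0,0),(9,0),(1,0),(3,0)]⟩,⟨1,[(26,0),(2,1),
  (1,0)]⟩⟩,⟨false,0,⟨0,[]⟩,⟨0,[]⟩⟩,⟨false,0,⟨0,[]⟩,⟨0,[]⟩⟩,[.o ⟨false,0,⟨1,[(0,0),(12,0),(1,0),(11,
  0)]⟩,⟨1,[(1,1),(24,0),(4,0)]⟩⟩,.e ⟨false,1,⟨1,[(8,0),(0,0),(20,0)]⟩,⟨0,[]⟩⟩ ⟨false,0,⟨3,[(0,3),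
  (24,1),(1,1),(1,1),(0,0),(0,0)]⟩,⟨1,[(1,1),(13,1),(10,0),(3,0)]⟩⟩,.o ⟨false,1,⟨1,[(15,1),(10,0),
  (3,0)]⟩,⟨0,[(0,0),(0,0)]⟩⟩,.a ⟨true,0,⟨0,[(15,0)]⟩,⟨0,[(12,0)]⟩⟩ ⟨true,0,⟨0,[(27,0),(1,0)]⟩,⟨1,
  [(15,0),(0,0)]⟩⟩ ⟨false,0,⟨3,[(0,3),(24,1),(1,1),(1,1),(0,0),(0,0)]⟩,⟨1,[(1,1),(13,1),(10,0),(4,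
  0)]⟩⟩]⟩) (.Q [0,1,0,-1,0,0,1,1,0,0,1] (.p true [0,0,1] [] (⟨0,[(18,0)]⟩,⟨0,[(17,0)]⟩) .k 0 (⟨0,
  []⟩,⟨0,[]⟩) .k .k) (.Q [0,0,1,0,-1,0,-1,0,0,2,-1] (.p false [-1,1,1] [1] (⟨0,[(7,0)]⟩,⟨0,[(18,0),
  (3,0)]⟩) .k 1 (⟨0,[]⟩,⟨0,[]⟩) .k .k) (.I [1,-1,1,1,0,0,0,-1] (.Q [0,0,0,0,1,0,1,0,0,-2,1] (.p
  true [-1,1,1] [1] (⟨0,[(9,0)]⟩,⟨0,[(20,0),(3,0)]⟩) .k 1 (⟨0,[]⟩,⟨0,[]⟩) .k .k) (.Q [0,0,0,0,0,0,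
  -1,-1,0,0,-1] (.p false [0,0,1] [] (⟨0,[(22,0)]⟩,⟨0,[(21,0)]⟩) .k 0 (⟨0,[]⟩,⟨0,[]⟩) .k .k) (.Q [0,
  -1,0,0,0,0,-1,-1,0,1,-1] (.p false [0,0,1] [1] (⟨0,[(23,0)]⟩,⟨0,[(22,0)]⟩) .k 1 (⟨0,[]⟩,⟨0,[]⟩)
  .k .k) (.R ⟨0,false,false,false,[-1,1,1],[0,1],[1,0,1,1],(⟨0,[(12,0)]⟩,⟨0,[(23,0),(3,0)]⟩),(⟨0,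
  [(28,0)]⟩,⟨0,[(27,0)]⟩),⟨0,[(23,0)]⟩,.k,.k,.k,.k,.k,.k,⟨true,0,⟨0,[]⟩,⟨1,[(21,0),(0,0)]⟩⟩,⟨false,
  0,⟨0,[(18,0)]⟩,⟨3,[(2,1),(11,0),(0,0),(5,1),(14,0)]⟩⟩,⟨true,0,⟨0,[(3,0),(29,0)]⟩,⟨0,[(8,0),(26,
  0)]⟩⟩,⟨false,0,⟨0,[(0,0)]⟩,⟨3,[(2,1),(7,0),(8,1),(15,0),(1,0)]⟩⟩,⟨false,0,⟨0,[]⟩,⟨0,[]⟩⟩,⟨false,0,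
  ⟨0,[]⟩,⟨0,[]⟩⟩,[.e ⟨false,0,⟨0,[(35,0)]⟩,⟨17,[(2,3),(6,7),(0,1),(3,0),(0,0),(4,3),(15,8),(0,1)]⟩⟩
  ⟨false,0,⟨5,[(4,1),(6,1),(2,0),(0,0),(19,5),(0,0)]⟩,⟨1,[(2,1),(28,0),(1,1),(3,0)]⟩⟩,.o ⟨false,1,
  ⟨1,[(32,0),(2,1),(1,0)]⟩,⟨0,[(34,0)]⟩⟩,.a ⟨true,1,⟨3,[(2,3),(28,1),(1,1),(1,1),(0,0),(0,0)]⟩,⟨0,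
  [(4,0)]⟩⟩ ⟨true,0,⟨1,[(3,0),(15,0),(2,0),(12,0)]⟩,⟨0,[(33,0)]⟩⟩ ⟨false,0,⟨1,[(4,0),(17,0),(12,1),
  (1,0)]⟩,⟨1,[(2,1),(28,0),(1,1),(3,0)]⟩⟩,.o ⟨false,1,⟨0,[(2,0)]⟩,⟨5,[(4,1),(6,1),(2,0),(0,0),(20,
  0)]⟩⟩]⟩) (.R ⟨0,false,false,true,[-1,1,1],[0,0,1],[0,1,1,0,0,0,0,1],(⟨0,[(12,0)]⟩,⟨0,[(23,0),(3,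
  0)]⟩),(⟨0,[(24,0)]⟩,⟨0,[(23,0)]⟩),⟨0,[(23,0)]⟩,.k,.k,.k,.k,.k,.k,⟨true,0,⟨1,[(21,0),(0,0)]⟩,⟨0,
  []⟩⟩,⟨false,0,⟨7,[(4,2),(9,0),(0,0),(5,2),(9,0),(4,2)]⟩,⟨1,[(32,0),(3,0)]⟩⟩,⟨true,0,⟨0,[(34,0)]⟩,
  ⟨0,[(35,0)]⟩⟩,⟨false,0,⟨15,[(4,2),(4,7),(4,0),(0,0),(5,2),(9,0),(4,2)]⟩,⟨1,[(32,0),(2,1),(1,0)]⟩⟩,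
  ⟨false,0,⟨0,[]⟩,⟨0,[]⟩⟩,⟨false,0,⟨0,[]⟩,⟨0,[]⟩⟩,[.o ⟨false,0,⟨0,[(0,0)]⟩,⟨0,[(20,0),(16,0)]⟩⟩,.o
  ⟨false,1,⟨3,[(2,1),(7,0),(8,1),(15,0),(1,0)]⟩,⟨0,[(1,0)]⟩⟩,.a ⟨true,1,⟨7,[(0,1),(1,5),(3,1),(24,
  2),(1,1),(2,2),(0,1)]⟩,⟨0,[(4,0)]⟩⟩ ⟨false,0,⟨1,[(0,1),(3,0),(17,0),(14,0)]⟩,⟨0,[(6,0),(26,0),(3,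
  0)]⟩⟩ ⟨true,(-1),⟨0,[(0,0),(3,0)]⟩,⟨3,[(1,1),(0,1),(3,1),(26,1),(2,0),(0,0)]⟩⟩,.o ⟨false,1,⟨0,[(2,
  0)]⟩,⟨5,[(4,1),(6,1),(2,0),(0,0),(20,0)]⟩⟩]⟩)) (.R ⟨0,false,false,false,[0,1,-1],[0,1],[0,0,1],
  (⟨0,[(12,0)]⟩,⟨0,[(23,0),(2,0)]⟩),(⟨0,[(27,0)]⟩,⟨0,[(26,0)]⟩),⟨0,[(23,0)]⟩,.k,.k,.k,.k,.k,.k,
  ⟨false,1,⟨17,[(1,3),(6,7),(0,1),(3,0),(0,0),(4,3),(15,8),(0,1)]⟩,⟨0,[(34,0)]⟩⟩,⟨true,0,⟨3,[(0,2),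
  (0,0),(0,2),(27,0),(1,2)]⟩,⟨0,[(21,0)]⟩⟩,⟨false,1,⟨0,[(7,0),(28,0)]⟩,⟨0,[(5,0)]⟩⟩,⟨true,0,⟨0,[(0,
  0)]⟩,⟨0,[(19,0)]⟩⟩,⟨false,0,⟨0,[]⟩,⟨0,[]⟩⟩,⟨false,0,⟨0,[]⟩,⟨0,[]⟩⟩,[.a ⟨true,0,⟨0,[(34,0)]⟩,⟨15,
  [(3,2),(4,7),(4,0),(0,0),(5,2),(9,0),(4,2)]⟩⟩ ⟨true,0,⟨1,[(20,0),(0,0)]⟩,⟨0,[]⟩⟩ ⟨false,0,⟨0,[(0,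
  0),(4,0)]⟩,⟨1,[(8,0),(1,0),(20,0),(3,0)]⟩⟩,.o ⟨false,1,⟨1,[(31,0),(2,1),(1,0)]⟩,⟨0,[(33,0)]⟩⟩,.o
  ⟨false,1,⟨0,[(17,0),(13,0)]⟩,⟨0,[(20,0)]⟩⟩,.o ⟨false,1,⟨7,[(6,1),(2,1),(0,1),(8,1),(11,4),(4,0)]⟩,
  ⟨3,[(0,2),(0,0),(0,2),(27,0),(1,2)]⟩⟩]⟩)) (.I [1,1,1,0,-1,0,0,-1] (.R ⟨0,false,false,true,[0,1,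
  -1],[1,0,-1],[],(⟨0,[(12,0)]⟩,⟨0,[(23,0),(2,0)]⟩),(⟨0,[(22,0)]⟩,⟨0,[(23,0)]⟩),⟨0,[(23,0)]⟩,.k,.k,
  .k,.k,.k,.k,⟨true,1,⟨1,[(9,0),(24,0),(1,0)]⟩,⟨0,[(0,0)]⟩⟩,⟨false,0,⟨7,[(3,2),(9,0),(0,0),(5,2),(9,
  0),(4,2)]⟩,⟨1,[(31,0),(3,0)]⟩⟩,⟨true,1,⟨3,[(9,1),(22,1),(2,0),(0,0)]⟩,⟨0,[(0,0),(33,0)]⟩⟩,⟨false,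
  0,⟨15,[(3,2),(4,7),(4,0),(0,0),(5,2),(9,0),(4,2)]⟩,⟨1,[(31,0),(2,1),(1,0)]⟩⟩,⟨false,0,⟨0,[]⟩,⟨0,
  []⟩⟩,⟨false,0,⟨0,[]⟩,⟨0,[]⟩⟩,[.e ⟨false,1,⟨1,[(13,0),(0,0),(20,0)]⟩,⟨0,[]⟩⟩ ⟨false,(-1),⟨5,[(0,3),
  (4,1),(24,2),(1,3),(1,1),(1,0)]⟩,⟨1,[(9,0),(21,0),(2,0),(0,0),(0,0)]⟩⟩,.o ⟨false,0,⟨1,[(0,0),(0,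
  0),(4,0),(24,0),(0,0),(3,0)]⟩,⟨1,[(18,1),(12,0),(4,0)]⟩⟩,.o ⟨false,1,⟨0,[(17,0),(13,0)]⟩,⟨0,[(20,
  0)]⟩⟩,.a ⟨true,0,⟨0,[(1,0),(29,0)]⟩,⟨1,[(5,0),(12,0),(1,0),(9,0),(1,0),(3,0)]⟩⟩ ⟨false,1,⟨1,[(35,
  0),(0,0)]⟩,⟨1,[(20,0),(0,0)]⟩⟩ ⟨true,(-1),⟨5,[(0,3),(4,1),(24,2),(1,3),(1,1),(1,0)]⟩,⟨1,[(9,0),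
  (21,0),(2,0)]⟩⟩]⟩) (.Q [0,0,-1,0,0,0,-2,0,0,0,-2] (.p false [0,0,1] [0,1,-1] (⟨0,[(23,0)]⟩,⟨0,
  [(22,0)]⟩) .k 2 (⟨0,[(12,0)]⟩,⟨0,[(23,0),(2,0)]⟩) .k (.r (-1) ⟨0,[(9,0),(24,0)]⟩ ⟨0,[(2,1),(29,
  1)]⟩)) (.R ⟨0,false,false,false,[0,0,1],[0,1,-1],[],(⟨0,[(24,0)]⟩,⟨0,[(23,0)]⟩),(⟨0,[(13,0)]⟩,⟨0,
  [(24,0),(2,0)]⟩),⟨0,[(13,0)]⟩,.k,.k,.k,(.r (-1) ⟨2,[(0,0),(0,1),(3,1),(4,0)]⟩ ⟨0,[(3,0),(2,0),(27,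
  0)]⟩),.k,.k,⟨false,1,⟨0,[(1,0),(31,0)]⟩,⟨0,[(3,0),(35,0)]⟩⟩,⟨true,0,⟨0,[(0,0)]⟩,⟨0,[(21,1)]⟩⟩,
  ⟨true,0,⟨0,[(3,0),(29,0)]⟩,⟨2,[(0,0),(18,2),(2,0)]⟩⟩,⟨false,0,⟨0,[(0,0),(2,1),(29,0)]⟩,⟨0,[(5,0),
  (13,0),(17,0)]⟩⟩,⟨false,0,⟨0,[]⟩,⟨0,[]⟩⟩,⟨false,0,⟨0,[]⟩,⟨0,[]⟩⟩,[.e ⟨false,1,⟨1,[(14,0),(0,0),
  (20,0)]⟩,⟨0,[]⟩⟩ ⟨false,0,⟨0,[(0,0),(5,0)]⟩,⟨1,[(5,1),(15,1),(14,0),(0,0)]⟩⟩,.o ⟨false,1,⟨1,[(7,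
  1),(24,0),(4,0)]⟩,⟨0,[(5,0)]⟩⟩,.o ⟨false,1,⟨1,[(21,1),(10,0),(3,0)]⟩,⟨2,[(0,0),(21,0)]⟩⟩,.a ⟨true,
  0,⟨0,[(21,0)]⟩,⟨0,[(18,0)]⟩⟩ ⟨false,1,⟨1,[(36,0),(0,0)]⟩,⟨1,[(21,0),(0,0)]⟩⟩ ⟨true,0,⟨0,[(0,0),(5,
  0)]⟩,⟨0,[(5,0),(15,0)]⟩⟩]⟩) (.I [0,0,-2,-2,1,0,0,1] (.K ⟨0,[0,1,-1],0,0,(⟨0,[(14,0)]⟩,⟨0,[(25,0),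
  (2,0)]⟩),.k,.k,(.r 0 ⟨2,[(1,0),(2,2),(3,2),(11,2),(2,1)]⟩ ⟨0,[(0,0)]⟩),(.r 0 ⟨2,[(1,0),(2,2),(2,
  0),(13,1),(12,0)]⟩ ⟨0,[(2,0),(6,0)]⟩),.k,[⟨0,[(1,0)]⟩,⟨0,[(3,0),(29,0)]⟩,⟨0,[(6,0)]⟩,⟨0,[(8,0),
  (31,0)]⟩]⟩) (.R ⟨0,false,false,true,[0,1,-1],[1,0,-1],[0,1,1,0,0,0,0,-1],(⟨0,[(14,0)]⟩,⟨0,[(25,0),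
  (2,0)]⟩),(⟨0,[(24,0)]⟩,⟨0,[(25,0)]⟩),⟨0,[(25,0)]⟩,.k,.k,.k,.k,.k,.k,⟨true,0,⟨2,[(1,0),(21,1)]⟩,⟨0,
  []⟩⟩,⟨false,0,⟨7,[(1,1),(3,3),(9,0),(0,0),(20,2)]⟩,⟨1,[(33,0),(3,0)]⟩⟩,⟨true,0,⟨0,[(35,0)]⟩,⟨0,
  [(36,0)]⟩⟩,⟨false,0,⟨15,[(1,1),(3,3),(4,7),(4,0),(0,0),(20,2)]⟩,⟨1,[(33,0),(2,1),(1,0)]⟩⟩,⟨false,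
  0,⟨0,[]⟩,⟨0,[]⟩⟩,⟨false,0,⟨0,[]⟩,⟨0,[]⟩⟩,[.e ⟨false,0,⟨2,[(1,0),(5,0),(13,1),(12,0)]⟩,⟨0,[(2,
  0)]⟩⟩ ⟨false,(-1),⟨1,[(0,0),(3,0),(27,0),(1,2)]⟩,⟨1,[(11,0),(21,0),(2,0),(0,0),(0,0)]⟩⟩,.o ⟨false,
  0,⟨0,[(3,0),(0,0),(28,0),(0,0)]⟩,⟨5,[(1,1),(0,1),(8,0),(8,1),(12,2),(2,0)]⟩⟩,.o ⟨false,1,⟨0,[(19,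
  0),(13,0)]⟩,⟨0,[(22,0)]⟩⟩,.a ⟨true,0,⟨0,[(3,0),(29,0)]⟩,⟨5,[(1,3),(3,1),(26,0),(4,2)]⟩⟩ ⟨false,0,
  ⟨0,[(4,0),(29,0)]⟩,⟨1,[(11,0),(24,0),(1,0)]⟩⟩ ⟨true,(-1),⟨1,[(0,0),(3,0),(27,0),(1,2)]⟩,⟨1,[(11,
  0),(21,0),(2,0)]⟩⟩]⟩))))) (.Q [0,0,0,0,0,0,1,0,0,0,1] (.p true [0,0,1] [] (⟨0,[(21,0)]⟩,⟨0,[(20,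
  0)]⟩) .k 0 (⟨0,[]⟩,⟨0,[]⟩) .k .k) (.I [1,-1,-2,-1,1,0,0,1] (.I [0,0,0,0,0,0,0,-1] (.I [1,1,-2,-1,
  0,0,0,-1] (.R ⟨0,false,false,false,[1,0,-1],[0,1,-1],[1,0,1,1,0,0,0,-1],(⟨0,[(24,0)]⟩,⟨0,[(25,
  0)]⟩),(⟨0,[(14,0)]⟩,⟨0,[(25,0),(2,0)]⟩),⟨0,[(13,0)]⟩,.k,.k,.k,.k,.k,.k,⟨true,0,⟨0,[]⟩,⟨1,[(22,0),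
  (0,0)]⟩⟩,⟨false,1,⟨1,[(0,0),(1,0),(30,0),(2,1)]⟩,⟨1,[(5,0),(9,0),(0,0),(5,0)]⟩⟩,⟨true,0,⟨1,[(22,
  0),(0,0),(12,1)]⟩,⟨0,[(34,0)]⟩⟩,⟨false,1,⟨1,[(33,0),(2,1),(1,0)]⟩,⟨15,[(5,2),(4,7),(4,0),(0,0),(5,
  2),(9,0),(4,2)]⟩⟩,⟨false,0,⟨0,[]⟩,⟨0,[]⟩⟩,⟨false,0,⟨0,[]⟩,⟨0,[]⟩⟩,[.e ⟨false,0,⟨0,[(7,0)]⟩,⟨11,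
  [(0,0),(1,0),(7,1),(0,5),(21,0),(3,3)]⟩⟩ ⟨false,1,⟨1,[(7,1),(25,0),(3,0)]⟩,⟨3,[(2,0),(2,1),(0,1),
  (2,0),(28,0)]⟩⟩,.o ⟨false,1,⟨1,[(8,1),(24,0),(4,0)]⟩,⟨0,[(6,0)]⟩⟩,.a ⟨true,0,⟨5,[(5,1),(6,1),(2,
  0),(0,0),(20,0)]⟩,⟨0,[(3,0)]⟩⟩ ⟨true,0,⟨0,[(8,0),(13,0)]⟩,⟨0,[(4,0)]⟩⟩ ⟨false,1,⟨1,[(7,1),(25,0),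
  (4,0)]⟩,⟨3,[(2,0),(2,1),(0,1),(2,0),(28,0)]⟩⟩,.o ⟨false,0,⟨0,[(23,0)]⟩,⟨1,[(3,1),(29,0),(3,
  0)]⟩⟩]⟩) (.R ⟨0,false,false,true,[0,0,1],[1,-1,1],[0,0,1],(⟨0,[(25,0)]⟩,⟨0,[(24,0)]⟩),(⟨0,[(25,0),
  (2,0)]⟩,⟨0,[(14,0)]⟩),⟨0,[(14,0)]⟩,.k,.k,.k,.k,.k,.k,⟨true,0,⟨0,[(0,0),(0,1)]⟩,⟨0,[(4,0)]⟩⟩,
  ⟨false,0,⟨7,[(5,2),(9,0),(0,0),(5,2),(9,0),(4,2)]⟩,⟨1,[(33,0),(3,0)]⟩⟩,⟨true,0,⟨1,[(1,1),(20,0),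
  (0,0)]⟩,⟨0,[(4,0),(31,0)]⟩⟩,⟨false,0,⟨15,[(5,2),(4,7),(4,0),(0,0),(5,2),(9,0),(4,2)]⟩,⟨1,[(33,0),
  (2,1),(1,0)]⟩⟩,⟨false,0,⟨0,[]⟩,⟨0,[]⟩⟩,⟨false,0,⟨0,[]⟩,⟨0,[]⟩⟩,[.o ⟨false,0,⟨0,[(6,0)]⟩,⟨1,[(8,1),
  (24,0),(4,0)]⟩⟩,.e ⟨false,1,⟨1,[(15,0),(0,0),(21,0)]⟩,⟨0,[(34,0),(1,0)]⟩⟩ ⟨false,0,⟨7,[(2,3),(0,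
  1),(0,2),(0,2),(0,0),(25,0)]⟩,⟨1,[(7,1),(7,0),(0,0),(16,0)]⟩⟩,.a ⟨true,0,⟨0,[(3,0)]⟩,⟨5,[(5,1),(6,
  1),(2,0),(0,0),(20,0)]⟩⟩ ⟨true,0,⟨1,[(22,0),(0,0)]⟩,⟨0,[(34,0),(1,0)]⟩⟩ ⟨false,0,⟨11,[(0,0),(1,2),
  (2,3),(0,3),(3,1),(0,1),(20,0)]⟩,⟨1,[(7,1),(25,0),(4,0)]⟩⟩,.e ⟨false,1,⟨1,[(15,0),(0,0),(21,0)]⟩,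
  ⟨0,[]⟩⟩ ⟨false,0,⟨7,[(2,3),(0,1),(0,2),(0,2),(0,0),(25,0)]⟩,⟨1,[(8,1),(13,1),(10,0),(4,0)]⟩⟩]⟩))
  (.R ⟨0,false,false,false,[0,1,-1],[0,1],[1],(⟨0,[(13,0)]⟩,⟨0,[(24,0),(2,0)]⟩),(⟨0,[(28,0)]⟩,⟨0,
  [(27,0)]⟩),⟨0,[(24,0)]⟩,.k,.k,.k,.k,.k,.k,⟨false,1,⟨1,[(33,1),(2,0),(0,0)]⟩,⟨1,[(21,0),(0,0),(12,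
  1)]⟩⟩,⟨true,0,⟨0,[(2,0)]⟩,⟨0,[(22,0)]⟩⟩,⟨false,1,⟨11,[(0,1),(0,5),(7,1),(0,1),(21,0),(4,2)]⟩,⟨0,
  [(7,0),(13,0)]⟩⟩,⟨true,0,⟨0,[(0,0),(1,0)]⟩,⟨0,[(20,0)]⟩⟩,⟨false,0,⟨0,[]⟩,⟨0,[]⟩⟩,⟨false,0,⟨0,[]⟩,
  ⟨0,[]⟩⟩,[.a ⟨true,0,⟨0,[(35,0)]⟩,⟨15,[(4,2),(4,7),(4,0),(0,0),(5,2),(9,0),(4,2)]⟩⟩ ⟨true,0,⟨0,[]⟩,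
  ⟨1,[(21,0),(0,0)]⟩⟩ ⟨false,0,⟨0,[(2,0),(32,0)]⟩,⟨1,[(9,0),(1,0),(20,0),(3,0)]⟩⟩,.o ⟨false,1,⟨1,
  [(32,0),(2,1),(1,0)]⟩,⟨0,[(34,0)]⟩⟩,.o ⟨false,1,⟨0,[(18,0),(13,0)]⟩,⟨0,[(21,0)]⟩⟩,.o ⟨false,1,⟨7,
  [(7,1),(2,1),(0,1),(8,1),(11,4),(4,0)]⟩,⟨0,[(2,0)]⟩⟩]⟩)) (.R ⟨0,false,false,true,[0,0,1],[1,-1,1],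
  [0,0,1],(⟨0,[(23,0)]⟩,⟨0,[(22,0)]⟩),(⟨0,[(23,0),(2,0)]⟩,⟨0,[(12,0)]⟩),⟨0,[(12,0)]⟩,.k,.k,.k,.k,.k,
  .k,⟨true,0,⟨0,[(0,0),(35,0)]⟩,⟨0,[(2,0)]⟩⟩,⟨false,0,⟨7,[(3,2),(9,0),(0,0),(5,2),(9,0),(4,2)]⟩,⟨1,
  [(31,0),(3,0)]⟩⟩,⟨true,0,⟨3,[(0,1),(4,1),(2,1),(22,0),(4,0)]⟩,⟨0,[(2,0),(31,0)]⟩⟩,⟨false,0,⟨15,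
  [(3,2),(4,7),(4,0),(0,0),(5,2),(9,0),(4,2)]⟩,⟨1,[(31,0),(2,1),(1,0)]⟩⟩,⟨false,0,⟨0,[]⟩,⟨0,[]⟩⟩,
  ⟨false,0,⟨0,[]⟩,⟨0,[]⟩⟩,[.o ⟨false,0,⟨0,[(4,0)]⟩,⟨1,[(6,1),(24,0),(4,0)]⟩⟩,.e ⟨false,1,⟨1,[(13,0),
  (0,0),(21,0)]⟩,⟨0,[(32,0),(1,0)]⟩⟩ ⟨false,0,⟨1,[(2,1),(27,0),(5,0)]⟩,⟨1,[(5,1),(7,0),(0,0),(16,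
  0)]⟩⟩,.a ⟨true,0,⟨0,[(1,0)]⟩,⟨5,[(3,1),(6,1),(2,0),(0,0),(20,0)]⟩⟩ ⟨true,0,⟨1,[(20,0),(0,0)]⟩,⟨0,
  [(32,0),(1,0)]⟩⟩ ⟨false,0,⟨1,[(2,0),(0,0),(0,0),(31,0)]⟩,⟨1,[(5,1),(25,0),(4,0)]⟩⟩,.e ⟨false,1,⟨1,
  [(13,0),(0,0),(21,0)]⟩,⟨0,[]⟩⟩ ⟨false,0,⟨1,[(2,1),(27,0),(5,0)]⟩,⟨3,[(0,1),(4,1),(7,0),(0,0),(16,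
  1),(4,2)]⟩⟩]⟩)) (.R ⟨0,false,false,true,[0,0,1],[1,-1,1],[0,1,0,-1,0,0,0,1],(⟨0,[(22,0)]⟩,⟨0,[(21,
  0)]⟩),(⟨0,[(22,0),(2,0)]⟩,⟨0,[(11,0)]⟩),⟨0,[(11,0)]⟩,.k,.k,.k,.k,.k,.k,⟨true,0,⟨1,[(19,0),(0,0)]⟩,
  ⟨0,[]⟩⟩,⟨false,0,⟨7,[(2,2),(9,0),(0,0),(5,2),(9,0),(4,2)]⟩,⟨1,[(30,0),(3,0)]⟩⟩,⟨true,0,⟨0,[(32,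
  0)]⟩,⟨0,[(33,0)]⟩⟩,⟨false,0,⟨15,[(2,2),(4,7),(4,0),(0,0),(5,2),(9,0),(4,2)]⟩,⟨1,[(30,0),(2,1),(1,
  0)]⟩⟩,⟨false,0,⟨0,[]⟩,⟨0,[]⟩⟩,⟨false,0,⟨0,[]⟩,⟨0,[]⟩⟩,[.o ⟨false,0,⟨0,[(3,0)]⟩,⟨1,[(5,1),(24,0),
  (4,0)]⟩⟩,.e ⟨false,1,⟨9,[(1,1),(5,1),(0,3),(21,0),(3,3),(0,0)]⟩,⟨0,[(4,0)]⟩⟩ ⟨false,0,⟨1,[(1,1),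
  (27,0),(5,0)]⟩,⟨1,[(4,1),(7,0),(0,0),(16,0)]⟩⟩,.o ⟨false,1,⟨1,[(19,1),(10,0),(3,0)]⟩,⟨0,[(0,0)]⟩⟩,
  .a ⟨true,0,⟨0,[(19,0)]⟩,⟨0,[(16,0)]⟩⟩ ⟨true,0,⟨0,[(1,0)]⟩,⟨0,[(5,0),(13,0)]⟩⟩ ⟨false,0,⟨1,[(1,1),
  (27,0),(5,0)]⟩,⟨1,[(5,1),(13,1),(10,0),(4,0)]⟩⟩]⟩))) (.I [1,0,-1,0,0,0,0,-1] (.Q [0,0,0,0,0,0,1,0,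
  0,0,1] (.p true [0,0,1] [] (⟨0,[(21,0)]⟩,⟨0,[(20,0)]⟩) .k 0 (⟨0,[]⟩,⟨0,[]⟩) .k .k) (.R ⟨0,false,
  false,true,[1,-1],[1,-1,1],[1,1],(⟨0,[(25,0)]⟩,⟨0,[(26,0)]⟩),(⟨0,[(22,0),(2,0)]⟩,⟨0,[(11,0)]⟩),⟨0,
  [(10,0),(0,0)]⟩,.k,.k,(.r (-1) ⟨0,[(2,0),(4,0),(8,0)]⟩ ⟨0,[(19,0),(0,0),(12,1)]⟩),.k,.k,.k,⟨false,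
  0,⟨0,[(4,0)]⟩,⟨3,[(2,0),(4,0),(0,1),(7,0),(17,0)]⟩⟩,⟨true,0,⟨0,[(0,0)]⟩,⟨0,[(20,0)]⟩⟩,⟨false,0,⟨1,
  [(19,0),(0,0),(12,1)]⟩,⟨1,[(2,0),(4,0),(8,0),(18,0)]⟩⟩,⟨true,0,⟨0,[(17,0)]⟩,⟨0,[(1,0),(18,0)]⟩⟩,
  ⟨false,0,⟨0,[]⟩,⟨0,[]⟩⟩,⟨false,0,⟨0,[]⟩,⟨0,[]⟩⟩,[.o ⟨false,0,⟨0,[(3,0)]⟩,⟨1,[(5,1),(24,0),(4,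
  0)]⟩⟩,.a ⟨true,0,⟨1,[(0,1),(5,1),(22,0),(5,0)]⟩,⟨0,[(5,0)]⟩⟩ ⟨true,0,⟨0,[]⟩,⟨1,[(19,0),(0,0)]⟩⟩
  ⟨false,1,⟨1,[(0,1),(1,1),(3,1),(9,1),(12,0),(5,0)]⟩,⟨1,[(5,1),(13,0),(0,0)]⟩⟩,.o ⟨false,0,⟨1,[(19,
  0),(0,0)]⟩,⟨1,[(30,0),(3,0)]⟩⟩,.o ⟨false,0,⟨0,[(19,0),(0,0)]⟩,⟨0,[(2,0),(13,0)]⟩⟩]⟩) (.K ⟨0,[0,1,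
  -1],0,0,(⟨0,[(11,0)]⟩,⟨0,[(22,0),(2,0)]⟩),.k,.k,(.r 0 ⟨1,[(5,1),(13,2),(0,0),(12,1)]⟩ ⟨0,[(0,0),
  (1,0),(3,0),(22,0),(1,0),(3,0)]⟩),(.r 0 ⟨1,[(1,1),(3,1),(13,2),(0,0)]⟩ ⟨2,[(0,2),(1,2),(3,3),(1,
  0),(20,2),(3,1),(1,1)]⟩),.k,[⟨0,[(2,1),(26,1),(6,2)]⟩,⟨0,[(0,0)]⟩,⟨0,[(3,0)]⟩,⟨0,[(5,0),(31,
  0)]⟩]⟩)) (.I [1,0,0,-1,0,0,0,-1] (.Q [0,0,0,0,0,0,1,0,0,0,1] (.p true [0,0,1] [] (⟨0,[(22,0)]⟩,⟨0,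
  [(21,0)]⟩) .k 0 (⟨0,[]⟩,⟨0,[]⟩) .k .k) (.R ⟨0,false,false,false,[1,0,-1],[0,1],[1,0,1,1],(⟨0,[(22,
  0)]⟩,⟨0,[(23,0)]⟩),(⟨0,[(27,0)]⟩,⟨0,[(26,0)]⟩),⟨0,[(11,0)]⟩,.k,.k,.k,.k,.k,.k,⟨true,0,⟨0,[]⟩,⟨1,
  [(20,0),(0,0)]⟩⟩,⟨false,1,⟨3,[(3,3),(26,1),(1,1),(1,1),(0,0),(0,0)]⟩,⟨0,[(10,0),(9,0)]⟩⟩,⟨true,0,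
  ⟨0,[(2,0),(31,0)]⟩,⟨1,[(1,0),(3,0),(26,1)]⟩⟩,⟨false,1,⟨1,[(2,1),(0,1),(26,0),(3,1),(1,0)]⟩,⟨0,[(6,
  0),(1,0)]⟩⟩,⟨false,0,⟨0,[]⟩,⟨0,[]⟩⟩,⟨false,0,⟨0,[]⟩,⟨0,[]⟩⟩,[.e ⟨false,0,⟨0,[(34,0)]⟩,⟨3,[(8,1),
  (4,0),(0,0),(16,0),(3,1)]⟩⟩ ⟨false,1,⟨3,[(3,1),(1,1),(12,1),(15,1),(0,0),(0,0)]⟩,⟨1,[(8,0),(1,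
  0)]⟩⟩,.o ⟨false,1,⟨1,[(31,0),(2,1),(1,0)]⟩,⟨0,[(33,0)]⟩⟩,.a ⟨true,0,⟨5,[(10,2),(2,0),(0,0),(9,0),
  (1,0),(3,0)]⟩,⟨0,[(0,0)]⟩⟩ ⟨true,0,⟨1,[(20,0),(0,0),(12,1)]⟩,⟨0,[(32,0)]⟩⟩ ⟨false,1,⟨1,[(3,0),(16,
  0),(13,1),(1,0)]⟩,⟨1,[(8,0),(1,0)]⟩⟩,.o ⟨false,0,⟨0,[(21,0)]⟩,⟨1,[(3,0),(16,0),(14,0)]⟩⟩]⟩) (.K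
  ⟨0,[0,1,-1],0,0,(⟨0,[(12,0)]⟩,⟨0,[(23,0),(2,0)]⟩),.k,.k,(.r 0 ⟨1,[(6,1),(13,2),(0,0),(12,1)]⟩ ⟨0,
  [(0,0),(2,0),(3,0),(22,0),(1,0),(3,0)]⟩),(.r 0 ⟨1,[(1,0),(3,0),(0,1),(13,1)]⟩ ⟨2,[(0,0),(1,1),(0,
  2),(3,1),(1,0),(7,1),(12,1),(5,0)]⟩),.k,[⟨0,[(3,1),(26,1),(6,2)]⟩,⟨0,[(0,0)]⟩,⟨0,[(4,0)]⟩,⟨0,[(6,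
  0),(31,0)]⟩]⟩)) (.Q [0,0,0,0,0,0,1,0,0,0,1] (.p true [0,0,1] [] (⟨0,[(22,0)]⟩,⟨0,[(21,0)]⟩) .k 0
  (⟨0,[]⟩,⟨0,[]⟩) .k .k) (.Q [0,0,0,0,0,0,1,1,0,0,1] (.p true [0,0,1] [] (⟨0,[(23,0)]⟩,⟨0,[(22,
  0)]⟩) .k 0 (⟨0,[]⟩,⟨0,[]⟩) .k .k) (.R ⟨0,false,false,false,[0,1,-1],[0,1],[0,0,1],(⟨0,[(13,0)]⟩,
  ⟨0,[(24,0),(2,0)]⟩),(⟨0,[(28,0)]⟩,⟨0,[(27,0)]⟩),⟨0,[(24,0)]⟩,.k,.k,.k,.k,.k,.k,⟨false,1,⟨3,[(9,1),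
  (4,0),(0,0),(16,0),(3,1)]⟩,⟨0,[(35,0)]⟩⟩,⟨true,0,⟨0,[(1,0)]⟩,⟨0,[(22,0)]⟩⟩,⟨false,1,⟨0,[(8,0),(28,
  0)]⟩,⟨0,[(6,0)]⟩⟩,⟨true,0,⟨0,[(0,0)]⟩,⟨0,[(20,0)]⟩⟩,⟨false,0,⟨0,[]⟩,⟨0,[]⟩⟩,⟨false,0,⟨0,[]⟩,⟨0,
  []⟩⟩,[.a ⟨true,0,⟨0,[(35,0)]⟩,⟨5,[(9,2),(4,0),(0,0),(9,0),(1,0),(3,0)]⟩⟩ ⟨true,0,⟨1,[(21,0),(0,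
  0)]⟩,⟨0,[]⟩⟩ ⟨false,0,⟨0,[(1,0),(33,0)]⟩,⟨1,[(9,0),(1,0),(20,0),(3,0)]⟩⟩,.o ⟨false,1,⟨1,[(32,0),
  (2,1),(1,0)]⟩,⟨0,[(34,0)]⟩⟩,.o ⟨false,1,⟨0,[(18,0),(13,0)]⟩,⟨0,[(21,0)]⟩⟩,.o ⟨false,1,⟨7,[(7,1),
  (2,1),(0,1),(8,1),(11,4),(4,0)]⟩,⟨0,[(1,0)]⟩⟩]⟩) (.K ⟨0,[2,-1,-1],(-1),(-1),(⟨0,[(23,0),(3,0)]⟩,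
  ⟨0,[(12,0)]⟩),.k,(.r (-1) ⟨11,[(0,9),(3,9),(1,1),(2,9),(21,4),(1,5),(2,3),(0,2)]⟩ ⟨3,[(2,5),(4,1),
  (13,4),(0,2)]⟩),.k,(.r (-1) ⟨4,[(0,0),(3,2),(1,6),(2,5),(10,1),(15,0),(0,0)]⟩ ⟨0,[(2,0),(0,0)]⟩),
  .k,[⟨0,[(1,0),(2,0)]⟩,⟨0,[(0,0),(2,0),(27,0),(6,0)]⟩,⟨0,[(19,0),(12,0),(2,0)]⟩,⟨0,[(0,0),(30,0),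
  (1,0),(4,0)]⟩]⟩)) (.R ⟨0,false,false,true,[1,0,-1],[1,-1],[0,1,1],(⟨0,[(22,0)]⟩,⟨0,[(23,0)]⟩),(⟨0,
  [(26,0)]⟩,⟨0,[(27,0)]⟩),⟨0,[(11,0)]⟩,.k,.k,.k,.k,.k,.k,⟨false,0,⟨3,[(1,1),(4,1),(13,2),(0,0)]⟩,⟨1,
  [(3,0),(4,0),(8,0),(17,0)]⟩⟩,⟨true,0,⟨0,[(20,0)]⟩,⟨0,[(0,0)]⟩⟩,⟨false,0,⟨0,[(2,0)]⟩,⟨3,[(3,1),(1,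
  1),(0,1),(1,1),(21,0),(4,0),(0,1)]⟩⟩,⟨true,0,⟨0,[(4,0)]⟩,⟨0,[(6,0)]⟩⟩,⟨false,0,⟨0,[]⟩,⟨0,[]⟩⟩,
  ⟨false,0,⟨0,[]⟩,⟨0,[]⟩⟩,[.o ⟨false,0,⟨0,[(33,0)]⟩,⟨1,[(31,0),(2,1),(1,0)]⟩⟩,.a ⟨true,0,⟨5,[(8,2),
  (4,0),(0,0),(9,0),(1,0),(3,0)]⟩,⟨0,[(34,0)]⟩⟩ ⟨true,0,⟨1,[(20,0),(0,0)]⟩,⟨0,[]⟩⟩ ⟨false,1,⟨3,[(3,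
  0),(4,1),(11,2),(14,2)]⟩,⟨1,[(0,0),(0,0),(4,0)]⟩⟩,.o ⟨false,0,⟨0,[(0,0)]⟩,⟨1,[(3,0),(9,0),(0,0),
  (5,0)]⟩⟩,.o ⟨false,0,⟨0,[(21,0)]⟩,⟨1,[(3,0),(16,0),(14,0)]⟩⟩]⟩))))) (.R ⟨2,true,false,true,[0,1],
  [0,0,1],[0,1,1,1],(⟨0,[]⟩,⟨0,[]⟩),(⟨0,[(19,0)]⟩,⟨0,[(18,0)]⟩),⟨0,[]⟩,.k,.k,.k,.k,.k,.k,⟨false,0,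
  ⟨0,[(1,0)]⟩,⟨3,[(5,1),(22,1),(2,0),(0,0)]⟩⟩,⟨true,0,⟨0,[(16,0)]⟩,⟨0,[(0,0),(2,0)]⟩⟩,⟨true,0,⟨0,
  [(34,0)]⟩,⟨0,[]⟩⟩,⟨false,1,⟨5,[(4,1),(0,1),(8,1),(1,3),(10,0),(3,1),(0,0)]⟩,⟨0,[(0,0)]⟩⟩,⟨false,0,
  ⟨0,[(30,0)]⟩,⟨3,[(4,1),(4,0),(0,0),(16,0),(4,1)]⟩⟩,⟨true,0,⟨0,[(14,0)]⟩,⟨0,[(0,0),(28,0)]⟩⟩,
  []⟩))))) (.R ⟨2,true,false,true,[0,1],[1,-1],[0,1,0,-1],(⟨0,[]⟩,⟨0,[]⟩),(⟨0,[(18,0)]⟩,⟨0,[(19,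
  0)]⟩),⟨0,[]⟩,.k,.k,.k,(.r 0 ⟨0,[(12,0),(0,0),(12,1)]⟩ ⟨0,[(24,1),(3,0)]⟩),.k,.k,⟨true,0,⟨1,[(12,
  0),(0,0)]⟩,⟨0,[]⟩⟩,⟨false,0,⟨5,[(2,2),(2,0),(0,0),(5,5),(3,0),(1,0),(3,0)]⟩,⟨0,[(0,0),(23,1),(3,
  0)]⟩⟩,⟨false,1,⟨0,[(24,0),(0,0),(2,0)]⟩,⟨1,[(0,1),(11,0),(0,0),(8,0),(5,0)]⟩⟩,⟨true,0,⟨1,[(22,0),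
  (2,3),(2,0)]⟩,⟨0,[(0,0)]⟩⟩,⟨true,0,⟨0,[(24,0)]⟩,⟨1,[(12,0),(0,0),(12,1)]⟩⟩,⟨false,0,⟨1,[(22,0),(2,
  1),(2,0)]⟩,⟨3,[(0,1),(4,0),(0,0),(16,0),(4,1)]⟩⟩,[]⟩)))

theorem ok0 : chk K t0 base = true := by decide +kernel

theorem closed {p a b c J l q : ℤ} {D dl : ℝ} {Cl : ℤ → ℤ → ℤ → ℤ → ℝ → Prop}
    (W : World p a b c J 1 l q D dl Cl) (g : G0 p a b c J D)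
    {N X R : ℤ} {I : ℝ} (hk : KCl p l Cl N X R I) (kz : KF a b D (X + (1 : ℤ) * I) (X + (1 : ℤ) * I + R) I)
    {Ne Xe : ℤ} {Ie : ℝ} (he : EFac p 1 D Cl (a) Ne Xe Ie)
    (hkf : ∀ kf ∈ (kfY 1 [0,0,0,0,0,0,1,0,0,0,1]), KOk p l Cl 1
      (xv [1, a, b, c, p, J, X, R, Xe] [D, I, Ie]) N kf)
    (h0 : 1 ≤ (c : ℝ))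
    (h1 : 1 ≤ (a : ℝ) - (b : ℝ) - (c : ℝ))
    (h2 : 0 < -1 + (p : ℝ) - 2 * D)
    (h3 : 0 < 3 - (p : ℝ) + 2 * D)
    (h4 : 0 < 1 + 3 * (J : ℝ) - D)
    (h5 : 1 ≤ 2 * (a : ℝ) - (b : ℝ))
    (h6 : 1 ≤ -2 + (J : ℝ))
    (h7 : 0 < -(b : ℝ) - (X : ℝ) + D - I)
    (h8 : 0 < (J : ℝ) - I)
    (h9 : 0 < (J : ℝ) - D + I)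
    (h10 : 0 < -2 * (X : ℝ) + D - 2 * I) : False := by
  have g1 := g.a2
  have g2 := g.b2
  have g3 := g.pa
  have g4 := g.pb
  have g5 := g.J1
  have g6 := g.JD
  have g7 := g.D2
  have g8 := g.ca
  have g9 := g.ca'
  have k1 := kz.I0
  have k2 := kz.ID
  have k3 := kz.z1
  have k4 := kz.z2
  have k5 := kz.s1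
  have k6 := kz.s2
  have e1 := he.I0
  have e2 := he.ID
  have e3 := he.x0
  have e4 := he.xp
  push_cast at *
  refine (val_E W.toBase hk he (row := [0,1]) (by simp) (by simp) (kfY 1 [0,0,0,0,0,0,1,0,0,0,1])).sound W rfl (Nk := N)
    (fun kf _ _ => ⟨_, rfl⟩) hkf ?_ ok0
  · simp only [base, List.forall_mem_cons, List.not_mem_nil, false_imp_iff, implies_true,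
      and_true, hld, xv, evg_cons, evg_nil, List.map_cons, List.map_nil, List.cons_append,
      List.nil_append, if_true, if_false, Bool.false_eq_true]
    push_cast
    refine ⟨?_, ?_, ?_, ?_, ?_, ?_, ?_, ?_, ?_, ?_, ?_, ?_, ?_, ?_, ?_, ?_, ?_, ?_, ?_, ?_, ?_, ?_, ?_, ?_, ?_, ?_, ?_, ?_, ?_⟩ <;> linarith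

end Helper25.S1T.Ypp_1aP3
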