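import Pool.Agent.Helper25.KG.S1b
import Pool.Agent.Helper11.CT.Cut

set_option autoImplicit false
set_option linter.all false

namespace Helper25.S1T.Ypp_1bG

open Helper25.KG Helper25.KW Helper55.KE Helper11.CT

noncomputable def K : Cls :=
  cE 1 [1] (kfY 1 [0,0,0,0,0,0,1,0,0,0,1])

noncomputable def base : List Con :=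
  [(false,[0,0,0,0,0,0,-2,0,0,1,-2]),
  (false,[0,0,0,0,0,-1,0,0,0,1,-1]),
  (false,[0,0,0,0,0,1,0,0,0,0,-1]),
  (false,[0,0,0,0,1,0,0,0,-1,0,0,-1]),
  (false,[0,0,0,0,0,0,0,0,1,0,0,1]),
  (false,[0,0,0,0,0,0,0,0,0,1,0,-1]),
  (false,[0,0,0,0,0,0,0,0,0,0,0,1]),
  (false,[0,0,-1,0,0,0,-1,0,0,1,-1]),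
  (false,[0,1,0,0,0,0,1,1,0,0,1]),
  (false,[0,1,0,0,0,0,-1,-1,0,0,-1]),
  (false,[0,0,1,0,0,0,1,0,0,0,1]),
  (false,[0,0,1,0,0,0,-1,0,0,0,-1]),
  (false,[0,0,0,0,0,0,0,0,0,1,-1]),
  (false,[0,0,0,0,0,0,0,0,0,0,1]),
  (false,[0,0,0,0,1,0,0,0,0,-2]),
  (false,[0,0,0,0,0,-1,0,0,0,1]),
  (true,[0,0,0,0,0,1]),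
  (true,[0,2,-1]),
  (false,[0,0,-2,0,0,0,0,0,0,1]),
  (true,[0,1,-1,-1]),
  (true,[0,1,0,-1]),
  (true,[0,0,0,1]),
  (true,[0,0,-2,0,1]),
  (true,[0,-2,0,0,1]),
  (true,[-1,0,1]),
  (true,[-1,1])]

noncomputable def l0 : List Con := (false, [0,0,0,0,0,0,1,0,0,0,1]) :: base

noncomputable def r0 : List Con := (false, [0,0,0,0,0,0,-1,0,0,0,-1]) :: base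

noncomputable def l1 : List Con := (false, [0,1,0,-1,0,0,1,1,0,0,1]) :: r0

noncomputable def r1 : List Con := (false, [0,-1,0,1,0,0,-1,-1,0,0,-1]) :: r0

noncomputable def l2 : List Con := (false, [0,0,0,0,0,2,0,0,0,-1]) :: l1

noncomputable def r2 : List Con := (false, [0,0,0,0,0,-2,0,0,0,1]) :: l1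

noncomputable def l3 : List Con := (true, [0,-1,-2,-1,1]) :: r2

noncomputable def r3 : List Con := (true, [1,1,2,1,-1]) :: r2

noncomputable def t0 : Tre :=
  (.Q [0,1,0,-1,0,0,-1,-1,0,0,-1] (.p false [0,0,1] [] (⟨0,[(14,0)]⟩,⟨0,[(13,0)]⟩) .k 0 (⟨0,[]⟩,⟨0,
  []⟩) .k .k) (.I [0,0,2,2,0,0,0,1] (.I [0,0,-2,-2,1,0,0,-1] (.K ⟨0,[0,1,1],0,0,(⟨0,[(17,0),(2,0)]⟩,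
  ⟨0,[(5,0)]⟩),.k,.k,(.r 0 ⟨0,[(1,0)]⟩ ⟨0,[(0,0)]⟩),.k,.k,[⟨1,[(14,0),(0,0)]⟩,⟨0,[(3,0)]⟩,⟨0,[(2,
  0)]⟩,⟨0,[(12,0),(12,0)]⟩]⟩) (.I [1,1,1,2,-1] (.I [1,0,0,1,0,0,0,-1] (.S ⟨1,0,[0,0,1,1,0,0,0,1],[0,
  1,1],[1,1,1,0,0,0,0,1],(⟨0,[(19,0),(2,0)]⟩,⟨0,[(7,0)]⟩),⟨0,[(19,0)]⟩,.k,.k,⟨true,0,⟨0,[(26,0)]⟩,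
  ⟨0,[(27,0)]⟩⟩,⟨false,1,⟨1,[(9,0),(0,0),(18,0)]⟩,⟨0,[]⟩⟩,⟨false,0,⟨0,[]⟩,⟨1,[(9,0),(0,0),(18,0)]⟩⟩,
  ⟨true,0,⟨0,[(27,0)]⟩,⟨0,[(26,0)]⟩⟩,[.e ⟨false,0,⟨5,[(2,1),(3,1),(7,3),(5,0),(4,3),(3,0)]⟩,⟨3,[(0,
  1),(3,1),(0,1),(14,0),(3,1),(4,2)]⟩⟩ ⟨false,0,⟨5,[(2,3),(3,0),(7,1),(5,1),(3,2),(0,1),(3,1)]⟩,⟨1,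
  [(4,1),(0,1),(22,0),(0,0)]⟩⟩,.o ⟨false,1,⟨3,[(2,1),(2,1),(8,1),(5,2),(3,1),(4,2)]⟩,⟨0,[(4,0)]⟩⟩,
  .o ⟨false,1,⟨1,[(5,1),(14,0),(7,0)]⟩,⟨0,[(17,0)]⟩⟩,.a ⟨true,0,⟨0,[(5,0)]⟩,⟨3,[(6,2),(9,1),(7,
  0)]⟩⟩ ⟨false,0,⟨0,[(2,0),(22,1),(3,0)]⟩,⟨3,[(0,1),(3,1),(11,1),(11,0),(0,2)]⟩⟩ ⟨true,0,⟨5,[(2,3),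
  (3,0),(7,1),(5,1),(3,2),(0,1),(3,1)]⟩,⟨0,[(4,0),(0,0)]⟩⟩]⟩) (.R ⟨0,false,false,false,[0,1,-1],[0,
  1],[1],(⟨0,[(8,0)]⟩,⟨0,[(19,0),(1,0)]⟩),(⟨0,[(22,0)]⟩,⟨0,[(21,0)]⟩),⟨0,[(19,0)]⟩,.k,.k,.k,.k,.k,
  .k,⟨false,1,⟨1,[(25,1),(2,0),(0,0)]⟩,⟨3,[(1,0),(1,0),(11,0),(0,0),(12,0)]⟩⟩,⟨true,0,⟨0,[(5,0)]⟩,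
  ⟨0,[(17,0)]⟩⟩,⟨false,1,⟨1,[(0,1),(27,0),(0,0)]⟩,⟨0,[(1,0),(2,0),(0,0),(23,0)]⟩⟩,⟨true,0,⟨7,[(0,3),
  (1,1),(2,5),(8,1),(5,0),(3,1),(4,0)]⟩,⟨0,[(15,0)]⟩⟩,⟨false,0,⟨0,[]⟩,⟨0,[]⟩⟩,⟨false,0,⟨0,[]⟩,⟨0,
  []⟩⟩,[.a ⟨true,0,⟨0,[(27,0)]⟩,⟨0,[(0,0),(1,0),(1,1),(0,1),(18,0),(4,0)]⟩⟩ ⟨true,0,⟨0,[]⟩,⟨1,[(16,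
  0),(0,0)]⟩⟩ ⟨false,0,⟨3,[(1,1),(3,3),(22,0),(0,0)]⟩,⟨5,[(0,1),(3,1),(1,1),(13,0),(5,1),(1,2),(0,
  1)]⟩⟩,.o ⟨false,1,⟨3,[(1,1),(18,1),(7,0),(0,2)]⟩,⟨0,[(26,0)]⟩⟩,.o ⟨false,1,⟨1,[(6,0),(13,1),(3,
  0)]⟩,⟨0,[(16,0)]⟩⟩,.o ⟨false,1,⟨3,[(6,1),(2,0),(0,0),(9,2)]⟩,⟨0,[(5,0)]⟩⟩]⟩)) (.R ⟨0,false,false,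
  false,[0,0,1],[0,1],[1,1],(⟨0,[(18,0)]⟩,⟨0,[(17,0)]⟩),(⟨0,[(21,0)]⟩,⟨0,[(20,0)]⟩),⟨0,[(7,0)]⟩,.k,
  .k,.k,.k,.k,.k,⟨true,0,⟨0,[(24,0)]⟩,⟨0,[(1,0),(1,0),(0,0),(23,0)]⟩⟩,⟨false,1,⟨1,[(5,0),(13,0),(3,
  0),(3,0)]⟩,⟨0,[(15,0)]⟩⟩,⟨true,0,⟨0,[(4,0),(9,0)]⟩,⟨9,[(0,5),(0,7),(3,0),(7,1),(5,1),(3,2),(0,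
  3)]⟩⟩,⟨false,1,⟨0,[(14,0),(11,0),(1,0)]⟩,⟨0,[(0,0),(0,0),(2,0),(19,0)]⟩⟩,⟨false,0,⟨0,[]⟩,⟨0,[]⟩⟩,
  ⟨false,0,⟨0,[]⟩,⟨0,[]⟩⟩,[.a ⟨true,0,⟨0,[(26,0)]⟩,⟨0,[(0,0),(0,0),(1,0),(11,0),(7,0)]⟩⟩ ⟨false,0,
  ⟨4,[(1,0),(2,0),(9,0),(4,0),(2,0),(0,1),(0,1)]⟩,⟨1,[(8,0),(0,0),(18,0)]⟩⟩ ⟨true,0,⟨1,[(1,1),(1,1),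
  (15,0),(3,1),(4,0)]⟩,⟨0,[(0,0),(0,0),(1,0),(0,1)]⟩⟩,.o ⟨false,1,⟨1,[(19,0),(6,1),(1,0)]⟩,⟨0,[(25,
  0)]⟩⟩,.a ⟨true,0,⟨0,[(4,0)]⟩,⟨3,[(5,2),(9,1),(7,0)]⟩⟩ ⟨false,0,⟨0,[]⟩,⟨1,[(8,0),(0,0),(18,0)]⟩⟩
  ⟨true,0,⟨1,[(1,1),(1,1),(15,0),(3,1),(4,0)]⟩,⟨0,[(15,0),(8,0)]⟩⟩,.a ⟨true,0,⟨0,[(15,0)]⟩,⟨0,[(12,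
  0)]⟩⟩ ⟨true,0,⟨4,[(1,0),(2,0),(9,0),(4,0),(2,0),(0,1),(0,1)]⟩,⟨1,[(15,0),(0,0)]⟩⟩ ⟨false,1,⟨1,[(5,
  0),(13,0),(3,0),(2,1),(1,0)]⟩,⟨0,[(0,0),(0,0),(1,0),(0,1)]⟩⟩]⟩))) (.I [0,0,-2,0,1,-2,1] (.K ⟨0,[0,
  1,1],0,0,(⟨0,[(17,0),(2,0)]⟩,⟨0,[(5,0)]⟩),.k,.k,(.x (-1) ⟨0,[(0,0)]⟩ ⟨1,[(14,0),(0,2),(1,1),(2,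
  3)]⟩),.k,.k,[⟨1,[(14,0),(0,0)]⟩,⟨0,[(3,0)]⟩,⟨0,[(2,0)]⟩,⟨0,[(12,0),(12,0)]⟩]⟩) (.I [1,-1,0,-1,0,0,
  0,-1] (.Q [0,0,0,0,0,2,0,0,0,-1] (.pp true [-1,1]) (.R ⟨0,false,false,true,[1,-1],[0,0,1],[1],(⟨0,
  [(21,0)]⟩,⟨0,[(22,0)]⟩),(⟨0,[(19,0)]⟩,⟨0,[(18,0)]⟩),⟨0,[(0,0)]⟩,.k,.k,(.r (-1) ⟨0,[(25,1),(3,0)]⟩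
  ⟨0,[(16,0),(0,0),(9,1)]⟩),.k,.k,.k,⟨true,0,⟨0,[(1,0),(25,0)]⟩,⟨0,[(14,0),(2,0)]⟩⟩,⟨false,1,⟨0,[(5,
  0),(14,0),(3,0)]⟩,⟨0,[(6,0),(9,0)]⟩⟩,⟨true,0,⟨1,[(16,0),(0,0),(9,1)]⟩,⟨0,[(25,0)]⟩⟩,⟨false,1,⟨1,
  [(14,1),(5,0),(6,1),(1,0)]⟩,⟨5,[(1,4),(0,0),(1,0),(1,1),(11,0),(2,1),(2,0),(4,0)]⟩⟩,⟨false,0,⟨0,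
  []⟩,⟨0,[]⟩⟩,⟨false,0,⟨0,[]⟩,⟨0,[]⟩⟩,[.a ⟨true,0,⟨0,[(14,0)]⟩,⟨5,[(1,4),(0,0),(3,1),(8,0),(2,0),(2,
  1),(2,0),(2,4),(1,0)]⟩⟩ ⟨true,0,⟨0,[]⟩,⟨1,[(16,0),(0,0)]⟩⟩ ⟨false,1,⟨0,[(14,0),(5,0),(3,0)]⟩,⟨1,
  [(1,0),(0,0),(4,0),(7,0),(5,0),(5,0),(1,0)]⟩⟩,.o ⟨false,1,⟨1,[(14,1),(5,0),(8,0)]⟩,⟨2,[(1,0),(1,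
  0),(11,0),(1,1),(9,2)]⟩⟩,.o ⟨false,0,⟨1,[(16,0),(0,0)]⟩,⟨1,[(20,0),(7,0)]⟩⟩,.o ⟨false,0,⟨0,[(16,
  0),(0,0)]⟩,⟨0,[(20,0),(3,0)]⟩⟩]⟩) (.I [0,1,2,2,-1] (.S ⟨1,0,[0,1,-1,-1],[1,-1],[1,0,-1,-2],(⟨0,
  [(22,0)]⟩,⟨0,[(23,0)]⟩),⟨0,[(1,0)]⟩,.k,(.r (-1) ⟨0,[(26,1),(3,0)]⟩ ⟨1,[(0,1),(9,0),(0,0),(18,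
  0)]⟩),⟨false,1,⟨0,[(27,0),(2,0)]⟩,⟨0,[(28,0)]⟩⟩,⟨true,0,⟨0,[(32,0)]⟩,⟨0,[]⟩⟩,⟨true,0,⟨0,[]⟩,⟨0,
  [(32,0)]⟩⟩,⟨false,0,⟨0,[(28,0)]⟩,⟨0,[(27,0),(2,0)]⟩⟩,[.o ⟨false,0,⟨0,[(27,0)]⟩,⟨1,[(21,0),(6,1),
  (1,0)]⟩⟩,.a ⟨true,0,⟨2,[(3,0),(0,0),(10,0),(3,0),(2,1),(4,0),(2,0)]⟩,⟨0,[(28,0)]⟩⟩ ⟨true,1,⟨0,[(4,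
  0),(10,0),(2,0),(11,0)]⟩,⟨0,[(0,0)]⟩⟩ ⟨false,1,⟨1,[(26,1),(2,0),(0,0)]⟩,⟨3,[(0,1),(9,0),(0,0),(18,
  0)]⟩⟩,.o ⟨false,0,⟨1,[(17,0),(0,0)]⟩,⟨1,[(21,0),(7,0)]⟩⟩,.o ⟨false,0,⟨0,[(17,0),(0,0)]⟩,⟨0,[(21,
  0),(3,0)]⟩⟩]⟩) (.R ⟨0,false,false,true,[0,1,-1],[0,1],[1,1],(⟨0,[(9,0)]⟩,⟨0,[(20,0),(1,0)]⟩),(⟨0,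
  [(23,0)]⟩,⟨0,[(22,0)]⟩),⟨0,[(20,0)]⟩,.k,.k,.k,.k,.k,.k,⟨false,1,⟨2,[(0,0),(26,0),(1,1)]⟩,⟨1,[(17,
  0),(0,0),(9,1)]⟩⟩,⟨true,0,⟨0,[(6,0)]⟩,⟨0,[(18,0)]⟩⟩,⟨false,1,⟨3,[(0,1),(6,1),(7,3),(5,0),(8,0)]⟩,
  ⟨1,[(2,1),(14,0),(0,0),(9,3)]⟩⟩,⟨true,0,⟨0,[(15,0)]⟩,⟨2,[(2,0),(1,0),(11,0),(1,1),(9,2)]⟩⟩,⟨false,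
  0,⟨0,[]⟩,⟨0,[]⟩⟩,⟨false,0,⟨0,[]⟩,⟨0,[]⟩⟩,[.e ⟨false,0,⟨0,[(26,0),(1,0)]⟩,⟨1,[(10,0),(0,0),(18,
  0)]⟩⟩ ⟨false,0,⟨1,[(6,0),(10,0),(6,0),(3,1)]⟩,⟨3,[(0,1),(6,1),(13,0),(8,0)]⟩⟩,.a ⟨true,0,⟨0,[(28,
  0)]⟩,⟨15,[(0,4),(2,4),(0,0),(10,0),(1,3),(1,4),(2,9),(2,0),(1,3)]⟩⟩ ⟨true,0,⟨0,[]⟩,⟨1,[(17,0),(0,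
  0)]⟩⟩ ⟨false,0,⟨0,[(6,0),(21,0)]⟩,⟨11,[(0,3),(6,5),(2,2),(0,2),(9,2),(5,3),(1,1)]⟩⟩,.o ⟨false,1,
  ⟨1,[(7,0),(13,1),(3,0)]⟩,⟨0,[(17,0)]⟩⟩,.o ⟨false,1,⟨3,[(7,1),(2,0),(0,0),(9,2)]⟩,⟨0,[(6,
  0)]⟩⟩]⟩))) (.S ⟨1,0,[0,0,1,1,0,0,0,1],[0,1,1],[0,1,1,1,0,0,0,1],(⟨0,[(18,0),(2,0)]⟩,⟨0,[(6,0)]⟩),
  ⟨0,[(18,0)]⟩,.k,.k,⟨true,0,⟨0,[(30,0)]⟩,⟨0,[]⟩⟩,⟨false,1,⟨1,[(8,0),(0,0),(18,0)]⟩,⟨0,[]⟩⟩,⟨false,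
  0,⟨0,[(26,0)]⟩,⟨0,[(25,0),(2,0)]⟩⟩,⟨true,0,⟨0,[(26,0)]⟩,⟨0,[(25,0)]⟩⟩,[.o ⟨false,1,⟨1,[(13,1),(5,
  0),(6,1),(1,0)]⟩,⟨1,[(2,1),(12,0),(0,2),(9,1)]⟩⟩,.e ⟨false,1,⟨1,[(0,1),(7,0),(0,0),(18,0)]⟩,⟨1,
  [(2,1),(12,0),(0,0),(9,1)]⟩⟩ ⟨false,1,⟨0,[(0,0),(27,0)]⟩,⟨3,[(2,1),(1,0),(9,1),(0,0),(6,0)]⟩⟩,.o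
  ⟨false,1,⟨1,[(4,1),(14,0),(7,0)]⟩,⟨0,[(16,0)]⟩⟩,.a ⟨true,0,⟨0,[(4,0)]⟩,⟨3,[(5,2),(9,1),(7,0)]⟩⟩
  ⟨true,0,⟨0,[(0,0)]⟩,⟨0,[(2,0),(12,0),(0,0),(9,0)]⟩⟩ ⟨false,1,⟨0,[(0,0),(27,0)]⟩,⟨0,[(2,0),(12,0),
  (0,0),(9,0)]⟩⟩]⟩)))) (.R ⟨2,true,false,false,[0,1],[0,1,1],[1,0,1],(⟨0,[]⟩,⟨0,[]⟩),(⟨0,[(15,0),(2,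
  0)]⟩,⟨0,[(3,0)]⟩),⟨0,[]⟩,.k,.k,.k,.k,.k,.k,⟨false,1,⟨0,[(1,0),(9,0),(9,0),(3,0)]⟩,⟨0,[(0,0),(12,
  0),(7,0),(1,0)]⟩⟩,⟨true,0,⟨0,[(1,0)]⟩,⟨0,[(13,0)]⟩⟩,⟨false,1,⟨0,[(22,0),(2,0)]⟩,⟨0,[(23,0)]⟩⟩,
  ⟨true,0,⟨0,[(0,0),(21,0)]⟩,⟨0,[(11,0)]⟩⟩,⟨true,0,⟨0,[]⟩,⟨0,[(27,0)]⟩⟩,⟨false,0,⟨0,[(0,0)]⟩,⟨0,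
  [(11,0),(10,0),(2,0)]⟩⟩,[]⟩))

theorem ok0 : chk K t0 l0 = true := by decide +kernel

noncomputable def t1 : Tre :=
  (.Q [0,0,0,-1,0,0,-1,-1,0,0,-1] (.p false [0,0,1] [] (⟨0,[(16,0)]⟩,⟨0,[(15,0)]⟩) .k 0 (⟨0,[]⟩,⟨0,
  []⟩) .k .k) (.Q [0,-1,0,-1,0,0,-1,-1,0,1,-1] (.p false [0,0,1] [1] (⟨0,[(17,0)]⟩,⟨0,[(16,0)]⟩) .k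
  1 (⟨0,[]⟩,⟨0,[]⟩) .k .k) (.R ⟨0,false,false,false,[1,-1],[1,-1,-1],[1,1],(⟨0,[(20,0)]⟩,⟨0,[(21,
  0)]⟩),(⟨0,[(6,0)]⟩,⟨0,[(18,0),(2,0)]⟩),⟨0,[(2,0)]⟩,.k,.k,(.r (-1) ⟨0,[(24,1),(3,0)]⟩ ⟨0,[(15,0),
  (0,0),(9,1)]⟩),.k,.k,.k,⟨false,0,⟨0,[(4,0),(8,0),(12,0)]⟩,⟨0,[(0,0),(14,0),(3,0),(3,0)]⟩⟩,⟨true,0,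
  ⟨0,[(4,0)]⟩,⟨0,[(15,0)]⟩⟩,⟨false,0,⟨1,[(15,0),(0,0),(9,1)]⟩,⟨0,[(24,0),(3,0)]⟩⟩,⟨true,0,⟨0,[(1,0),
  (24,0)]⟩,⟨0,[(13,0)]⟩⟩,⟨false,0,⟨0,[]⟩,⟨0,[]⟩⟩,⟨false,0,⟨0,[]⟩,⟨0,[]⟩⟩,[.o ⟨false,0,⟨0,[(1,0)]⟩,
  ⟨1,[(13,1),(5,0),(6,1),(1,0)]⟩⟩,.a ⟨true,0,⟨0,[(0,0)]⟩,⟨0,[(13,0),(12,0)]⟩⟩ ⟨true,0,⟨0,[]⟩,⟨1,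
  [(15,0),(0,0)]⟩⟩ ⟨false,1,⟨0,[(0,0),(18,0),(3,0)]⟩,⟨1,[(13,1),(1,0),(0,0),(9,1)]⟩⟩,.o ⟨false,0,⟨1,
  [(15,0),(0,0)]⟩,⟨1,[(19,0),(7,0)]⟩⟩,.o ⟨false,0,⟨0,[(15,0),(0,0)]⟩,⟨0,[(19,0),(3,0)]⟩⟩]⟩) (.I [1,
  0,1,1,0,0,0,2] (.I [1,-1,-2,-1,1] (.Q [0,0,-1,-1,0,0,-1,0,0,1,-1] (.p false [0,0,1] [1] (⟨0,[(20,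
  0)]⟩,⟨0,[(19,0)]⟩) .k 1 (⟨0,[]⟩,⟨0,[]⟩) .k .k) (.R ⟨0,false,false,false,[0,0,1],[1,-1],[1,0,-1,
  -1],(⟨0,[(21,0)]⟩,⟨0,[(20,0)]⟩),(⟨0,[(23,0)]⟩,⟨0,[(24,0)]⟩),⟨0,[(10,0)]⟩,.k,.k,.k,.k,.k,.k,⟨true,
  0,⟨0,[]⟩,⟨1,[(18,0),(0,0)]⟩⟩,⟨false,0,⟨3,[(8,2),(9,1),(7,0)]⟩,⟨0,[(18,0),(3,0),(3,0)]⟩⟩,⟨false,1,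
  ⟨1,[(4,1),(13,1),(3,0),(3,1),(4,0)]⟩,⟨3,[(2,1),(15,0),(0,0),(9,1)]⟩⟩,⟨true,0,⟨1,[(4,1),(3,0),(9,
  1),(7,0)]⟩,⟨0,[(3,0)]⟩⟩,⟨false,0,⟨0,[]⟩,⟨0,[]⟩⟩,⟨false,0,⟨0,[]⟩,⟨0,[]⟩⟩,[.e ⟨false,1,⟨1,[(1,0),
  (26,0),(1,0)]⟩,⟨1,[(18,0),(0,0),(9,1)]⟩⟩ ⟨false,0,⟨0,[(0,0)]⟩,⟨1,[(18,1),(3,0),(6,1),(0,0)]⟩⟩,.o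
  ⟨false,1,⟨0,[(28,0),(2,0)]⟩,⟨0,[(3,0),(0,0),(24,0)]⟩⟩,.o ⟨false,1,⟨1,[(18,1),(3,0),(7,0)]⟩,⟨0,[(7,
  0)]⟩⟩,.a ⟨true,0,⟨0,[(18,0)]⟩,⟨0,[(15,0)]⟩⟩ ⟨false,1,⟨0,[(1,0)]⟩,⟨0,[(18,0),(0,0),(9,0)]⟩⟩ ⟨true,
  0,⟨0,[(0,0)]⟩,⟨0,[(3,0),(0,0),(13,0),(10,0)]⟩⟩]⟩) (.Q [0,0,0,-1,0,0,0,0,0,1] (.pp false [-1,1])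
  (.R ⟨0,false,false,false,[0,0,1],[1,-1],[1,0,-1,-1],(⟨0,[(22,0)]⟩,⟨0,[(21,0)]⟩),(⟨0,[(24,0)]⟩,⟨0,
  [(25,0)]⟩),⟨0,[(11,0)]⟩,.k,.k,.k,.k,.k,.k,⟨true,0,⟨0,[]⟩,⟨1,[(19,0),(0,0)]⟩⟩,⟨false,0,⟨3,[(9,2),
  (9,1),(7,0)]⟩,⟨5,[(1,3),(0,3),(16,1),(3,0),(2,1),(4,0)]⟩⟩,⟨false,1,⟨2,[(1,0),(0,1),(2,1),(12,0),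
  (0,1),(7,0),(4,0)]⟩,⟨3,[(1,0),(1,1),(5,0),(9,0),(10,0)]⟩⟩,⟨true,0,⟨1,[(5,1),(3,0),(9,1),(7,0)]⟩,
  ⟨0,[(4,0)]⟩⟩,⟨false,0,⟨0,[]⟩,⟨0,[]⟩⟩,⟨false,0,⟨0,[]⟩,⟨0,[]⟩⟩,[.a ⟨true,0,⟨0,[(0,0)]⟩,⟨0,[(30,
  0)]⟩⟩ ⟨false,1,⟨1,[(2,0),(26,0),(1,0)]⟩,⟨1,[(1,0),(7,0),(9,0),(10,0)]⟩⟩ ⟨true,0,⟨5,[(0,3),(2,1),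
  (1,3),(3,0),(17,0)]⟩,⟨0,[(1,0)]⟩⟩,.o ⟨false,1,⟨0,[(29,0),(2,0)]⟩,⟨0,[(4,0),(0,0),(24,0)]⟩⟩,.o
  ⟨false,1,⟨1,[(19,1),(3,0),(7,0)]⟩,⟨0,[(8,0)]⟩⟩,.e ⟨false,1,⟨0,[(2,0)]⟩,⟨0,[(1,0),(7,0),(9,0)]⟩⟩
  ⟨false,1,⟨3,[(0,1),(1,1),(6,1),(2,0),(0,0),(18,0)]⟩,⟨0,[(1,0)]⟩⟩]⟩) (.Q [0,-1,0,1,0,0,-2,-2,0,0,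
  -2] (.p false [0,0,1] [0,1,-1] (⟨0,[(22,0)]⟩,⟨0,[(21,0)]⟩) .k 2 (⟨0,[(11,0)]⟩,⟨0,[(22,0),(1,0)]⟩)
  .k (.r (-1) ⟨5,[(3,3),(3,3),(1,1),(2,0),(0,0),(9,0),(7,1),(0,1)]⟩ ⟨0,[(1,0),(3,1),(13,0),(7,0),(2,
  0)]⟩)) (.R ⟨0,false,false,false,[0,0,1],[0,1,-1],[1,0,0,0,0,0,0,1],(⟨0,[(23,0)]⟩,⟨0,[(22,0)]⟩),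
  (⟨0,[(12,0)]⟩,⟨0,[(23,0),(1,0)]⟩),⟨0,[(12,0)]⟩,.k,.k,.k,(.r (-1) ⟨4,[(3,3),(0,2),(3,3),(1,1),(13,
  0)]⟩ ⟨4,[(0,4),(1,0),(17,8),(6,1),(0,0),(0,0)]⟩),.k,.k,⟨false,1,⟨0,[(3,0),(0,0),(24,0)]⟩,⟨4,[(0,
  4),(1,0),(17,8),(6,1),(0,0),(0,0)]⟩⟩,⟨true,0,⟨0,[(1,0),(2,0),(1,1),(21,0)]⟩,⟨0,[(20,1)]⟩⟩,⟨true,0,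
  ⟨0,[]⟩,⟨0,[(35,0)]⟩⟩,⟨false,0,⟨0,[(0,0)]⟩,⟨0,[(8,0),(9,0),(14,0)]⟩⟩,⟨false,0,⟨0,[]⟩,⟨0,[]⟩⟩,
  ⟨false,0,⟨0,[]⟩,⟨0,[]⟩⟩,[.o ⟨false,0,⟨3,[(0,0),(0,3),(4,0),(12,0)]⟩,⟨1,[(8,1),(4,0),(0,0),(18,
  0)]⟩⟩,.o ⟨false,1,⟨3,[(0,1),(12,0),(0,0),(9,1),(6,1),(1,0)]⟩,⟨0,[(8,0)]⟩⟩,.o ⟨false,1,⟨1,[(20,1),
  (3,0),(7,0)]⟩,⟨0,[(9,0)]⟩⟩,.a ⟨true,0,⟨0,[(20,0)]⟩,⟨0,[(17,0)]⟩⟩ ⟨false,1,⟨3,[(3,1),(0,1),(27,0),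
  (0,0)]⟩,⟨3,[(0,0),(5,0),(12,0),(0,3)]⟩⟩ ⟨true,0,⟨9,[(0,4),(0,7),(8,4),(16,0),(0,2),(0,2)]⟩,⟨0,[(8,
  0),(11,0)]⟩⟩]⟩) (.R ⟨0,false,false,false,[0,0,1],[0,1,-1],[1,1,1],(⟨0,[(23,0)]⟩,⟨0,[(22,0)]⟩),(⟨0,
  [(12,0)]⟩,⟨0,[(23,0),(1,0)]⟩),⟨0,[(12,0)]⟩,.k,.k,.k,(.r (-1) ⟨2,[(0,1),(2,1),(0,0),(5,1),(13,0)]⟩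
  ⟨1,[(2,0),(3,3),(13,2),(7,0),(2,4)]⟩),.k,.k,⟨false,0,⟨2,[(0,1),(0,0),(4,0),(2,2),(18,0),(0,0)]⟩,
  ⟨1,[(2,0),(16,1),(0,0),(7,0),(2,0),(1,1)]⟩⟩,⟨true,0,⟨0,[(1,0),(2,0),(1,1),(21,0)]⟩,⟨0,[(20,1)]⟩⟩,
  ⟨false,0,⟨0,[(6,0),(13,0),(10,0)]⟩,⟨3,[(3,1),(0,1),(27,0),(0,0)]⟩⟩,⟨true,0,⟨0,[(6,1),(24,2)]⟩,⟨0,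
  [(0,0)]⟩⟩,⟨false,0,⟨0,[]⟩,⟨0,[]⟩⟩,⟨false,0,⟨0,[]⟩,⟨0,[]⟩⟩,[.o ⟨false,0,⟨0,[(1,0),(4,0),(24,0)]⟩,
  ⟨1,[(0,0),(12,0),(0,0),(15,0),(2,0)]⟩⟩,.o ⟨false,1,⟨0,[(1,0),(17,0),(13,0)]⟩,⟨0,[(8,0)]⟩⟩,.o
  ⟨false,1,⟨1,[(20,1),(3,0),(7,0)]⟩,⟨0,[(9,0)]⟩⟩,.a ⟨true,0,⟨0,[(20,0)]⟩,⟨0,[(17,0)]⟩⟩ ⟨false,0,⟨0,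
  []⟩,⟨1,[(13,0),(0,0),(18,0)]⟩⟩ ⟨true,0,⟨1,[(1,1),(4,1),(3,0),(17,0),(2,1)]⟩,⟨1,[(0,0),(19,1),(9,
  0)]⟩⟩]⟩)))) (.I [1,0,1,0,0,0,0,1] (.R ⟨0,false,false,true,[0,0,1],[1,-1],[1,0,1],(⟨0,[(21,0)]⟩,⟨0,
  [(20,0)]⟩),(⟨0,[(23,0)]⟩,⟨0,[(24,0)]⟩),⟨0,[(10,0)]⟩,.k,.k,.k,.k,.k,.k,⟨true,0,⟨0,[(1,0),(29,0)]⟩,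
  ⟨0,[(27,0)]⟩⟩,⟨false,0,⟨3,[(8,2),(9,1),(7,0)]⟩,⟨0,[(18,0),(3,0),(3,0)]⟩⟩,⟨true,0,⟨0,[(4,0),(13,0),
  (10,0)]⟩,⟨2,[(2,0),(0,0),(3,0),(18,0),(0,1)]⟩⟩,⟨false,0,⟨1,[(4,1),(3,0),(9,1),(7,0)]⟩,⟨0,[(3,0),
  (27,0)]⟩⟩,⟨false,0,⟨0,[]⟩,⟨0,[]⟩⟩,⟨false,0,⟨0,[]⟩,⟨0,[]⟩⟩,[.o ⟨false,0,⟨0,[(28,0)]⟩,⟨1,[(22,0),(6,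
  1),(1,0)]⟩⟩,.e ⟨false,1,⟨1,[(11,0),(0,0),(18,0)]⟩,⟨2,[(3,0),(13,0),(8,0),(0,0)]⟩⟩ ⟨false,0,⟨0,[(0,
  0),(3,0),(21,0)]⟩,⟨1,[(18,1),(3,0),(6,1),(0,0)]⟩⟩,.o ⟨false,1,⟨1,[(18,1),(3,0),(7,0)]⟩,⟨0,[(7,
  0)]⟩⟩,.a ⟨true,0,⟨0,[(18,0)]⟩,⟨0,[(15,0)]⟩⟩ ⟨true,0,⟨0,[]⟩,⟨0,[(33,0)]⟩⟩ ⟨false,0,⟨0,[(0,0),(3,0),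
  (21,0)]⟩,⟨1,[(18,1),(3,0),(6,1),(1,0)]⟩⟩]⟩) (.R ⟨2,true,false,false,[0,1],[1,0,-1],[0,0,1,0,0,0,0,
  -1],(⟨0,[]⟩,⟨0,[]⟩),(⟨0,[(20,0)]⟩,⟨0,[(21,0)]⟩),⟨0,[]⟩,.k,.k,.k,.k,.k,.k,⟨true,0,⟨1,[(18,0),(0,
  0)]⟩,⟨0,[]⟩⟩,⟨false,0,⟨3,[(8,2),(9,1),(7,0)]⟩,⟨2,[(0,1),(2,0),(2,0),(11,0),(3,0),(7,0),(0,0)]⟩⟩,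
  ⟨false,1,⟨1,[(4,1),(13,1),(11,0),(0,0)]⟩,⟨0,[(0,0),(1,0)]⟩⟩,⟨true,0,⟨1,[(4,1),(3,0),(9,1),(7,0)]⟩,
  ⟨0,[(3,0)]⟩⟩,⟨true,0,⟨5,[(0,3),(0,0),(2,0),(12,0),(0,1),(12,0)]⟩,⟨3,[(2,1),(22,0),(1,0),(0,0)]⟩⟩,
  ⟨false,0,⟨0,[(1,0),(2,0),(21,0),(4,0)]⟩,⟨1,[(16,1),(5,0),(8,0)]⟩⟩,[]⟩))) (.Q [0,-1,0,0,0,0,0,-1,0,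
  1] (.pp false [-1,1]) (.R ⟨0,false,false,false,[0,1,-1],[1,0,-1],[0,0,1,0,0,0,0,-1],(⟨0,[(9,0)]⟩,
  ⟨0,[(20,0),(1,0)]⟩),(⟨0,[(19,0)]⟩,⟨0,[(20,0)]⟩),⟨0,[(20,0)]⟩,.k,.k,.k,.k,.k,.k,⟨true,0,⟨1,[(17,0),
  (0,0)]⟩,⟨0,[]⟩⟩,⟨false,0,⟨2,[(0,1),(6,0),(7,1)]⟩,⟨1,[(21,0),(7,0)]⟩⟩,⟨false,1,⟨0,[(27,0),(2,0)]⟩,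
  ⟨0,[(28,0)]⟩⟩,⟨true,0,⟨0,[(0,0),(4,0),(0,0)]⟩,⟨0,[(2,0),(0,0),(24,0)]⟩⟩,⟨false,0,⟨0,[]⟩,⟨0,[]⟩⟩,
  ⟨false,0,⟨0,[]⟩,⟨0,[]⟩⟩,[.o ⟨false,0,⟨0,[(3,0),(24,0)]⟩,⟨1,[(15,1),(5,0),(8,0)]⟩⟩,.e ⟨false,1,⟨3,
  [(0,1),(15,1),(0,1),(3,0),(7,0),(0,1)]⟩,⟨1,[(2,0),(2,0),(0,1),(18,0)]⟩⟩ ⟨false,0,⟨0,[(0,0)]⟩,⟨1,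
  [(2,0),(2,0),(1,0),(13,0),(7,0)]⟩⟩,.o ⟨false,1,⟨1,[(7,0),(13,1),(3,0)]⟩,⟨0,[(17,0)]⟩⟩,.a ⟨true,0,
  ⟨0,[(6,0)]⟩,⟨0,[(0,0),(14,0)]⟩⟩ ⟨true,0,⟨3,[(1,1),(15,0),(0,0),(9,1)]⟩,⟨1,[(2,0),(2,0),(1,0)]⟩⟩
  ⟨false,0,⟨0,[(0,0)]⟩,⟨1,[(2,0),(2,0),(1,0),(13,0),(8,0)]⟩⟩]⟩) (.Q [0,0,1,0,0,0,2,0,0,0,2] (.p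
  true [0,0,1] [0,1,-1] (⟨0,[(20,0)]⟩,⟨0,[(19,0)]⟩) .k 2 (⟨0,[(9,0)]⟩,⟨0,[(20,0),(1,0)]⟩) .k (.r
  (-1) ⟨2,[(0,1),(6,1),(7,3),(14,2)]⟩ ⟨1,[(1,1),(15,0),(0,0),(9,1)]⟩)) (.K ⟨0,[0,1,-1],0,0,(⟨0,[(10,
  0)]⟩,⟨0,[(21,0),(1,0)]⟩),.k,.k,(.r 0 ⟨3,[(2,1),(15,4),(0,4),(9,9)]⟩ ⟨0,[(1,0),(2,0),(1,0),(19,0),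
  (4,0)]⟩),(.r 0 ⟨0,[(2,0),(15,0),(0,0),(9,1)]⟩ ⟨1,[(1,1),(4,1),(1,0),(17,0),(4,1)]⟩),.k,[⟨0,[(0,
  0)]⟩,⟨0,[(7,0)]⟩,⟨0,[(6,0)]⟩,⟨0,[(17,0),(11,0)]⟩]⟩) (.Q [0,-1,0,1,0,0,-2,-2,0,0,-2] (.p false [0,
  0,1] [0,1,-1] (⟨0,[(21,0)]⟩,⟨0,[(20,0)]⟩) .k 2 (⟨0,[(10,0)]⟩,⟨0,[(21,0),(1,0)]⟩) .k (.r (-1) ⟨2,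
  [(1,1),(6,1),(7,3),(14,2)]⟩ ⟨1,[(2,1),(15,0),(0,0),(9,1)]⟩)) (.R ⟨0,false,false,false,[0,0,1],[0,
  1,-1],[1,0,0,0,0,0,0,1],(⟨0,[(22,0)]⟩,⟨0,[(21,0)]⟩),(⟨0,[(11,0)]⟩,⟨0,[(22,0),(1,0)]⟩),⟨0,[(11,
  0)]⟩,.k,.k,.k,(.r (-1) ⟨1,[(2,1),(4,1),(1,0),(17,0),(4,1)]⟩ ⟨4,[(0,3),(2,0),(15,7),(6,1),(3,1)]⟩),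
  .k,.k,⟨false,1,⟨5,[(1,1),(0,5),(4,5),(1,0),(17,4),(4,5)]⟩,⟨4,[(0,3),(2,0),(15,7),(6,1),(3,1)]⟩⟩,
  ⟨true,0,⟨0,[(1,0)]⟩,⟨0,[(19,1)]⟩⟩,⟨true,0,⟨0,[]⟩,⟨0,[(34,0)]⟩⟩,⟨false,0,⟨0,[(0,0)]⟩,⟨0,[(7,0),(9,
  0),(14,0)]⟩⟩,⟨false,0,⟨0,[]⟩,⟨0,[]⟩⟩,⟨false,0,⟨0,[]⟩,⟨0,[]⟩⟩,[.e ⟨false,1,⟨5,[(2,1),(6,1),(7,3),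
  (13,2),(0,2)]⟩,⟨9,[(0,1),(2,2),(15,3),(6,0),(3,0)]⟩⟩ ⟨false,0,⟨17,[(0,11),(0,6),(2,5),(4,1),(16,
  2),(0,3)]⟩,⟨1,[(7,1),(11,1),(11,0),(0,0)]⟩⟩,.o ⟨false,1,⟨3,[(0,1),(11,0),(0,0),(9,1),(6,1),(1,
  0)]⟩,⟨0,[(7,0)]⟩⟩,.o ⟨false,1,⟨1,[(19,1),(3,0),(7,0)]⟩,⟨0,[(8,0)]⟩⟩,.a ⟨true,0,⟨0,[(19,0)]⟩,⟨0,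
  [(16,0)]⟩⟩ ⟨false,1,⟨5,[(2,3),(6,0),(7,1),(9,2),(4,5)]⟩,⟨3,[(0,0),(4,0),(12,0),(0,3)]⟩⟩ ⟨true,0,
  ⟨17,[(0,11),(0,6),(2,5),(4,1),(16,2),(0,3)]⟩,⟨0,[(7,0),(11,0)]⟩⟩]⟩) (.R ⟨0,false,false,false,[0,0,
  1],[0,1,-1],[1,1,1],(⟨0,[(22,0)]⟩,⟨0,[(21,0)]⟩),(⟨0,[(11,0)]⟩,⟨0,[(22,0),(1,0)]⟩),⟨0,[(11,0)]⟩,.k,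
  .k,.k,(.r (-1) ⟨3,[(0,3),(0,1),(7,1),(13,0),(7,0),(0,1)]⟩ ⟨0,[(3,0),(15,0),(0,0),(9,1)]⟩),.k,.k,
  ⟨false,0,⟨1,[(0,0),(0,0),(26,0)]⟩,⟨4,[(3,0),(14,2),(0,2),(10,5),(0,0),(0,3)]⟩⟩,⟨true,0,⟨0,[(1,
  0)]⟩,⟨0,[(19,1)]⟩⟩,⟨false,0,⟨3,[(3,1),(15,2),(0,2),(9,1)]⟩,⟨5,[(0,1),(0,1),(2,1),(4,0),(17,0),(3,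
  0),(0,4)]⟩⟩,⟨true,0,⟨2,[(1,0),(1,2),(16,3),(9,5)]⟩,⟨0,[(0,0)]⟩⟩,⟨false,0,⟨0,[]⟩,⟨0,[]⟩⟩,⟨false,0,
  ⟨0,[]⟩,⟨0,[]⟩⟩,[.e ⟨false,0,⟨0,[(34,0)]⟩,⟨1,[(31,0),(0,0)]⟩⟩ ⟨false,0,⟨5,[(1,4),(1,2),(16,1),(9,
  8)]⟩,⟨1,[(7,1),(11,1),(11,0),(0,0)]⟩⟩,.o ⟨false,1,⟨5,[(1,0),(1,2),(16,3),(2,2),(6,8),(1,2)]⟩,⟨0,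
  [(7,0)]⟩⟩,.o ⟨false,1,⟨1,[(19,1),(3,0),(7,0)]⟩,⟨0,[(8,0)]⟩⟩,.a ⟨true,0,⟨0,[(19,0)]⟩,⟨0,[(16,0)]⟩⟩
  ⟨false,0,⟨0,[]⟩,⟨1,[(12,0),(0,0),(18,0)]⟩⟩ ⟨true,0,⟨5,[(1,4),(1,2),(16,1),(9,8)]⟩,⟨0,[(7,0),(11,
  0)]⟩⟩]⟩)))))) (.I [1,-1,0,1,0,0,0,1] (.Q [0,0,0,-1,0,0,-1,-1,0,1,-1] (.p false [0,0,1] [1] (⟨0,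
  [(18,0)]⟩,⟨0,[(17,0)]⟩) .k 1 (⟨0,[]⟩,⟨0,[]⟩) .k .k) (.R ⟨0,false,false,true,[1,-1],[1,-1,-1],[1,
  1],(⟨0,[(21,0)]⟩,⟨0,[(22,0)]⟩),(⟨0,[(7,0)]⟩,⟨0,[(19,0),(2,0)]⟩),⟨0,[(3,0)]⟩,.k,.k,(.r (-1) ⟨0,
  [(25,1),(3,0)]⟩ ⟨0,[(16,0),(0,0),(9,1)]⟩),.k,.k,.k,⟨false,0,⟨2,[(1,1),(0,0),(14,0),(5,0)]⟩,⟨0,[(0,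
  0),(15,0),(3,0),(3,0)]⟩⟩,⟨true,0,⟨0,[(5,0)]⟩,⟨0,[(16,0)]⟩⟩,⟨false,0,⟨1,[(16,0),(0,0),(9,1)]⟩,⟨0,
  [(25,0),(3,0)]⟩⟩,⟨true,0,⟨0,[(15,0)]⟩,⟨0,[(1,0),(14,0),(8,0)]⟩⟩,⟨false,0,⟨0,[]⟩,⟨0,[]⟩⟩,⟨false,0,
  ⟨0,[]⟩,⟨0,[]⟩⟩,[.e ⟨false,0,⟨0,[(25,0),(1,0)]⟩,⟨1,[(9,0),(0,0),(18,0)]⟩⟩ ⟨false,1,⟨3,[(0,1),(14,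
  1),(4,0),(4,1),(2,2)]⟩,⟨0,[(1,0),(14,0)]⟩⟩,.a ⟨true,0,⟨0,[(0,0)]⟩,⟨0,[(2,0)]⟩⟩ ⟨true,0,⟨0,[]⟩,⟨1,
  [(16,0),(0,0)]⟩⟩ ⟨false,1,⟨0,[(0,0),(19,0),(3,0)]⟩,⟨1,[(2,1),(13,0),(0,0)]⟩⟩,.o ⟨false,0,⟨1,[(16,
  0),(0,0)]⟩,⟨1,[(20,0),(7,0)]⟩⟩,.o ⟨false,0,⟨0,[(16,0),(0,0)]⟩,⟨0,[(20,0),(3,0)]⟩⟩]⟩) (.Q [0,0,-1,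
  -1,0,0,-1,0,0,1,-1] (.p false [0,0,1] [1] (⟨0,[(19,0)]⟩,⟨0,[(18,0)]⟩) .k 1 (⟨0,[]⟩,⟨0,[]⟩) .k .k)
  (.R ⟨0,false,false,true,[0,0,1],[1,-1],[0,1,0,-1],(⟨0,[(20,0)]⟩,⟨0,[(19,0)]⟩),(⟨0,[(22,0)]⟩,⟨0,
  [(23,0)]⟩),⟨0,[(9,0)]⟩,.k,.k,.k,.k,.k,.k,⟨true,0,⟨1,[(17,0),(0,0)]⟩,⟨0,[]⟩⟩,⟨false,0,⟨3,[(7,2),(9,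
  1),(7,0)]⟩,⟨0,[(17,0),(3,0),(3,0)]⟩⟩,⟨false,1,⟨0,[(16,0),(0,0),(8,0),(3,0)]⟩,⟨0,[(2,0)]⟩⟩,⟨true,0,
  ⟨0,[(0,0),(15,0),(0,0)]⟩,⟨0,[(1,0)]⟩⟩,⟨false,0,⟨0,[]⟩,⟨0,[]⟩⟩,⟨false,0,⟨0,[]⟩,⟨0,[]⟩⟩,[.o ⟨false,
  0,⟨0,[(27,0)]⟩,⟨1,[(21,0),(6,1),(1,0)]⟩⟩,.e ⟨false,1,⟨1,[(27,1),(1,0),(0,0)]⟩,⟨0,[(28,0)]⟩⟩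
  ⟨false,0,⟨0,[(0,0)]⟩,⟨1,[(17,1),(3,0),(6,1),(0,0)]⟩⟩,.o ⟨false,1,⟨1,[(17,1),(3,0),(7,0)]⟩,⟨0,[(6,
  0)]⟩⟩,.a ⟨true,0,⟨0,[(17,0)]⟩,⟨0,[(14,0)]⟩⟩ ⟨true,0,⟨0,[(26,0)]⟩,⟨1,[(17,0),(0,0),(9,1)]⟩⟩ ⟨false,
  0,⟨0,[(0,0)]⟩,⟨1,[(17,1),(3,0),(6,1),(1,0)]⟩⟩]⟩) (.Q [0,0,0,1,0,0,-1,-1,0,0,-1] (.p false [0,0,1]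
  [] (⟨0,[(20,0)]⟩,⟨0,[(19,0)]⟩) .k 0 (⟨0,[]⟩,⟨0,[]⟩) .k .k) (.R ⟨2,true,false,false,[0,1],[0,0,1],
  [1,1,1],(⟨0,[]⟩,⟨0,[]⟩),(⟨0,[(21,0)]⟩,⟨0,[(20,0)]⟩),⟨0,[]⟩,.k,.k,.k,.k,.k,.k,⟨false,0,⟨0,[(0,0),
  (17,0),(8,0)]⟩,⟨9,[(3,5),(2,3),(1,1),(13,0),(4,1),(2,3),(0,4)]⟩⟩,⟨true,0,⟨0,[(18,0)]⟩,⟨0,[(7,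
  0)]⟩⟩,⟨true,0,⟨0,[(28,0)]⟩,⟨0,[(29,0)]⟩⟩,⟨false,1,⟨0,[(6,0),(24,0)]⟩,⟨0,[(0,0)]⟩⟩,⟨false,0,⟨0,[]⟩,
  ⟨1,[(11,0),(0,0),(18,0)]⟩⟩,⟨true,0,⟨0,[(3,0),(14,0),(8,0)]⟩,⟨0,[(17,0)]⟩⟩,[]⟩) (.Q [0,0,0,-1,0,0,
  0,0,0,1] (.pp false [-1,1]) (.R ⟨0,false,false,true,[0,0,1],[1,-1],[0,1,0,-1],(⟨0,[(22,0)]⟩,⟨0,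
  [(21,0)]⟩),(⟨0,[(24,0)]⟩,⟨0,[(25,0)]⟩),⟨0,[(11,0)]⟩,.k,.k,.k,.k,.k,.k,⟨true,0,⟨1,[(19,0),(0,0)]⟩,
  ⟨0,[]⟩⟩,⟨false,0,⟨3,[(9,2),(9,1),(7,0)]⟩,⟨0,[(19,0),(3,0),(3,0)]⟩⟩,⟨false,1,⟨0,[(18,0),(0,0),(8,
  0),(3,0)]⟩,⟨0,[(4,0)]⟩⟩,⟨true,0,⟨0,[(0,0),(17,0)]⟩,⟨0,[(3,0)]⟩⟩,⟨false,0,⟨0,[]⟩,⟨0,[]⟩⟩,⟨false,0,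
  ⟨0,[]⟩,⟨0,[]⟩⟩,[.o ⟨false,0,⟨0,[(29,0)]⟩,⟨1,[(23,0),(6,1),(1,0)]⟩⟩,.a ⟨true,0,⟨0,[(0,0)]⟩,⟨0,[(30,
  0)]⟩⟩ ⟨false,1,⟨1,[(29,1),(1,0),(0,0)]⟩,⟨0,[(30,0)]⟩⟩ ⟨true,0,⟨0,[(0,0),(7,0)]⟩,⟨0,[(2,0)]⟩⟩,.o
  ⟨false,1,⟨1,[(19,1),(3,0),(7,0)]⟩,⟨0,[(8,0)]⟩⟩,.e ⟨true,0,⟨0,[(28,0)]⟩,⟨1,[(2,0),(6,0),(9,0),(10,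
  0)]⟩⟩ ⟨true,0,⟨9,[(0,3),(8,4),(16,1),(0,0),(0,5)]⟩,⟨0,[(2,0)]⟩⟩]⟩) (.Q [0,0,-1,0,0,0,-2,0,0,0,-2]
  (.p false [0,0,1] [0,1,-1] (⟨0,[(22,0)]⟩,⟨0,[(21,0)]⟩) .k 2 (⟨0,[(11,0)]⟩,⟨0,[(22,0),(1,0)]⟩) .k
  (.x (-1) ⟨0,[(10,0),(0,0),(7,1),(3,0),(3,0)]⟩ ⟨0,[(8,1),(13,1)]⟩)) (.Q [0,1,0,-1,-1,0,2,2,0,0,2]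
  (.p true [0,0,1] [0,1,-1] (⟨0,[(23,0)]⟩,⟨0,[(22,0)]⟩) .k 2 (⟨0,[(12,0)]⟩,⟨0,[(23,0),(1,0)]⟩) .k
  (.x (-1) ⟨0,[(11,0),(0,0),(7,1),(3,0),(3,0)]⟩ ⟨2,[(0,1),(20,1),(1,5)]⟩)) (.R ⟨0,false,false,false,
  [0,0,1],[0,1,-1],[1,0,1],(⟨0,[(24,0)]⟩,⟨0,[(23,0)]⟩),(⟨0,[(13,0)]⟩,⟨0,[(24,0),(1,0)]⟩),⟨0,[(13,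
  0)]⟩,.k,.k,.k,(.r 0 ⟨17,[(0,9),(0,15),(4,3),(2,11),(23,0),(0,8)]⟩ ⟨1,[(4,0),(15,3),(0,2),(7,0),(2,
  0),(1,1)]⟩),.k,.k,⟨false,0,⟨1,[(0,0),(0,0),(28,0),(3,0)]⟩,⟨1,[(20,1),(0,1),(10,1),(0,0),(0,0)]⟩⟩,
  ⟨true,0,⟨0,[(1,0)]⟩,⟨0,[(21,1)]⟩⟩,⟨false,1,⟨0,[(20,0),(0,0),(12,0)]⟩,⟨2,[(0,0),(0,0),(4,0),(26,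
  0)]⟩⟩,⟨true,1,⟨0,[(20,1),(11,0),(1,0)]⟩,⟨0,[(0,0)]⟩⟩,⟨false,0,⟨0,[]⟩,⟨0,[]⟩⟩,⟨false,0,⟨0,[]⟩,⟨0,
  []⟩⟩,[.o ⟨false,1,⟨1,[(20,1),(4,0),(6,1),(1,0)]⟩,⟨0,[(3,0)]⟩⟩,.o ⟨false,1,⟨0,[(2,0),(17,0),(13,
  0)]⟩,⟨0,[(9,0)]⟩⟩,.o ⟨false,1,⟨1,[(21,1),(3,0),(7,0)]⟩,⟨0,[(10,0)]⟩⟩,.a ⟨true,0,⟨0,[(21,0)]⟩,⟨0,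
  [(18,0)]⟩⟩ ⟨true,0,⟨0,[]⟩,⟨0,[(36,0)]⟩⟩ ⟨false,1,⟨3,[(1,1),(0,0),(17,3),(8,0),(2,2),(1,3)]⟩,⟨0,
  [(3,0),(17,0)]⟩⟩]⟩) (.R ⟨0,false,false,false,[0,0,1],[0,1,-1],[1,0,0,0,0,0,0,1],(⟨0,[(24,0)]⟩,⟨0,
  [(23,0)]⟩),(⟨0,[(13,0)]⟩,⟨0,[(24,0),(1,0)]⟩),⟨0,[(13,0)]⟩,.k,.k,.k,(.r 0 ⟨9,[(1,7),(1,10),(1,0),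
  (0,3),(2,3),(19,0)]⟩ ⟨4,[(0,3),(3,0),(15,1),(0,8),(6,0),(0,0),(3,0)]⟩),.k,.k,⟨false,0,⟨1,[(1,1),
  (1,2),(1,0),(23,0)]⟩,⟨4,[(0,3),(3,0),(15,1),(0,8),(6,0),(0,0),(3,0)]⟩⟩,⟨true,0,⟨0,[(1,0)]⟩,⟨0,
  [(21,1)]⟩⟩,⟨true,0,⟨0,[]⟩,⟨0,[(36,0)]⟩⟩,⟨false,1,⟨0,[(0,0)]⟩,⟨1,[(3,2),(3,0)]⟩⟩,⟨false,0,⟨0,[]⟩,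
  ⟨0,[]⟩⟩,⟨false,0,⟨0,[]⟩,⟨0,[]⟩⟩,[.o ⟨false,1,⟨6,[(0,3),(3,1),(2,0),(3,0),(13,2),(2,1)]⟩,⟨0,[(3,
  0)]⟩⟩,.o ⟨false,1,⟨3,[(0,1),(1,1),(22,0),(8,0)]⟩,⟨0,[(9,0)]⟩⟩,.o ⟨false,1,⟨1,[(21,1),(3,0),(7,
  0)]⟩,⟨0,[(10,0)]⟩⟩,.a ⟨true,0,⟨0,[(21,0)]⟩,⟨0,[(18,0)]⟩⟩ ⟨true,0,⟨9,[(1,3),(1,2),(1,2),(0,1),(2,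
  1),(19,2)]⟩,⟨0,[(20,0),(0,0)]⟩⟩ ⟨false,1,⟨2,[(0,1),(0,0),(4,0),(26,0)]⟩,⟨0,[(3,0),(17,0)]⟩⟩]⟩))
  (.Q [0,-1,0,-1,0,0,2,2,0,0,2] (.p true [0,0,1] [0,1,-1] (⟨0,[(23,0)]⟩,⟨0,[(22,0)]⟩) .k 2 (⟨0,[(12,
  0)]⟩,⟨0,[(23,0),(1,0)]⟩) .k (.x (-1) ⟨1,[(0,1),(10,1),(0,1),(11,0),(7,0)]⟩ ⟨0,[(9,1),(13,1)]⟩))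
  (.R ⟨0,false,false,false,[0,1,-1],[0,0,1],[1,0,1,1,0,0,0,-1],(⟨0,[(13,0)]⟩,⟨0,[(24,0),(1,0)]⟩),
  (⟨0,[(24,0)]⟩,⟨0,[(23,0)]⟩),⟨0,[(24,0)]⟩,.k,.k,.k,(.r (-1) ⟨0,[(1,0),(18,1),(11,0),(1,0)]⟩ ⟨2,[(0,
  1),(4,0),(0,0),(3,2),(0,0),(18,2)]⟩),.k,.k,⟨false,1,⟨2,[(1,1),(2,1),(15,5),(8,1),(2,0),(1,2)]⟩,⟨2,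
  [(0,1),(4,0),(0,0),(3,2),(0,0),(18,2)]⟩⟩,⟨true,0,⟨0,[(1,0)]⟩,⟨0,[(10,1)]⟩⟩,⟨true,0,⟨0,[]⟩,⟨0,[(36,
  0)]⟩⟩,⟨false,0,⟨0,[(0,0)]⟩,⟨0,[(20,1),(11,0),(1,0)]⟩⟩,⟨false,0,⟨0,[]⟩,⟨0,[]⟩⟩,⟨false,0,⟨0,[]⟩,⟨0,
  []⟩⟩,[.o ⟨false,0,⟨1,[(0,0),(1,1),(28,0)]⟩,⟨1,[(14,0),(0,0),(4,1),(13,0)]⟩⟩,.o ⟨false,1,⟨3,[(0,0),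
  (6,0),(11,0),(5,1),(8,1)]⟩,⟨0,[(20,0)]⟩⟩,.o ⟨false,1,⟨1,[(11,0),(13,1),(3,0)]⟩,⟨0,[(21,0)]⟩⟩,.a
  ⟨true,0,⟨0,[(10,0)]⟩,⟨1,[(1,1),(9,0),(17,0)]⟩⟩ ⟨false,1,⟨2,[(1,0),(2,0),(15,2),(8,0),(2,1),(1,
  2)]⟩,⟨1,[(0,0),(9,1),(20,0)]⟩⟩ ⟨true,0,⟨3,[(0,0),(0,1),(3,0),(13,0),(9,0)]⟩,⟨0,[(10,0),(9,
  0)]⟩⟩]⟩) (.K ⟨0,[0,1,-1],0,0,(⟨0,[(13,0)]⟩,⟨0,[(24,0),(1,0)]⟩),.k,.k,(.r 0 ⟨0,[(0,0),(5,0),(14,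
  1)]⟩ ⟨1,[(3,1),(7,0),(13,0),(3,0),(0,1),(3,0)]⟩),(.r (-1) ⟨1,[(0,1),(0,1),(12,0),(0,0),(18,0)]⟩
  ⟨0,[(3,0),(2,0),(3,0),(19,0)]⟩),.k,[⟨0,[(1,0)]⟩,⟨0,[(10,0)]⟩,⟨0,[(9,0)]⟩,⟨3,[(0,2),(6,0),(11,
  0)]⟩]⟩))))))) (.Q [0,-1,0,0,0,0,0,0,0,1] (.pp false [-1,1]) (.R ⟨0,false,false,true,[0,0,1],[1,
  -1],[0,1,0,-1],(⟨0,[(19,0)]⟩,⟨0,[(18,0)]⟩),(⟨0,[(21,0)]⟩,⟨0,[(22,0)]⟩),⟨0,[(8,0)]⟩,.k,.k,.k,.k,.k,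
  .k,⟨true,0,⟨1,[(16,0),(0,0)]⟩,⟨0,[]⟩⟩,⟨false,0,⟨3,[(6,2),(9,1),(7,0)]⟩,⟨0,[(16,0),(3,0),(3,0)]⟩⟩,
  ⟨true,0,⟨0,[(1,0)]⟩,⟨0,[(2,0),(2,0)]⟩⟩,⟨false,0,⟨0,[(0,0),(0,0),(3,0)]⟩,⟨1,[(2,1),(17,0),(8,0)]⟩⟩,
  ⟨false,0,⟨0,[]⟩,⟨0,[]⟩⟩,⟨false,0,⟨0,[]⟩,⟨0,[]⟩⟩,[.o ⟨false,0,⟨0,[(26,0)]⟩,⟨1,[(20,0),(6,1),(1,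
  0)]⟩⟩,.e ⟨false,1,⟨1,[(26,1),(1,0),(0,0)]⟩,⟨0,[(27,0)]⟩⟩ ⟨false,0,⟨0,[(0,0),(4,0),(19,0)]⟩,⟨1,
  [(16,1),(3,0),(6,1),(0,0)]⟩⟩,.o ⟨false,1,⟨1,[(16,1),(3,0),(7,0)]⟩,⟨0,[(5,0)]⟩⟩,.a ⟨true,0,⟨0,[(16,
  0)]⟩,⟨0,[(13,0)]⟩⟩ ⟨true,0,⟨0,[(25,0)]⟩,⟨1,[(16,0),(0,0),(9,1)]⟩⟩ ⟨false,0,⟨0,[(0,0),(4,0),(19,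
  0)]⟩,⟨1,[(16,1),(3,0),(6,1),(1,0)]⟩⟩]⟩) (.Q [0,0,-1,-1,0,0,-1,0,0,1,-1] (.p false [0,0,1] [1] (⟨0,
  [(19,0)]⟩,⟨0,[(18,0)]⟩) .k 1 (⟨0,[]⟩,⟨0,[]⟩) .k .k) (.Q [0,0,0,-1,0,0,-1,-1,0,1,-1] (.p false [0,
  0,1] [1] (⟨0,[(20,0)]⟩,⟨0,[(19,0)]⟩) .k 1 (⟨0,[]⟩,⟨0,[]⟩) .k .k) (.R ⟨0,false,false,true,[0,0,1],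
  [1,-1],[0,1,0,-1],(⟨0,[(21,0)]⟩,⟨0,[(20,0)]⟩),(⟨0,[(23,0)]⟩,⟨0,[(24,0)]⟩),⟨0,[(10,0)]⟩,.k,.k,.k,
  .k,.k,.k,⟨true,0,⟨1,[(18,0),(0,0)]⟩,⟨0,[]⟩⟩,⟨false,0,⟨3,[(8,2),(9,1),(7,0)]⟩,⟨0,[(18,0),(3,0),(3,
  0)]⟩⟩,⟨true,0,⟨0,[(3,0)]⟩,⟨0,[(4,0),(2,0)]⟩⟩,⟨false,0,⟨0,[(0,0)]⟩,⟨1,[(4,1),(17,0),(8,0)]⟩⟩,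
  ⟨false,0,⟨0,[]⟩,⟨0,[]⟩⟩,⟨false,0,⟨0,[]⟩,⟨0,[]⟩⟩,[.o ⟨false,0,⟨0,[(28,0)]⟩,⟨1,[(22,0),(6,1),(1,
  0)]⟩⟩,.e ⟨false,1,⟨1,[(28,1),(1,0),(0,0)]⟩,⟨0,[(29,0)]⟩⟩ ⟨false,0,⟨0,[(1,0)]⟩,⟨1,[(18,1),(3,0),(6,
  1),(0,0)]⟩⟩,.o ⟨false,1,⟨1,[(18,1),(3,0),(7,0)]⟩,⟨0,[(7,0)]⟩⟩,.a ⟨true,0,⟨0,[(18,0)]⟩,⟨0,[(15,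
  0)]⟩⟩ ⟨true,0,⟨0,[(27,0)]⟩,⟨1,[(18,0),(0,0),(9,1)]⟩⟩ ⟨false,0,⟨0,[(1,0)]⟩,⟨1,[(18,1),(3,0),(6,1),
  (1,0)]⟩⟩]⟩) (.I [0,-1,1,1,0,0,0,1] (.R ⟨0,false,false,true,[0,0,1],[1,-1],[0,0,0,0,0,0,0,1],(⟨0,
  [(22,0)]⟩,⟨0,[(21,0)]⟩),(⟨0,[(24,0)]⟩,⟨0,[(25,0)]⟩),⟨0,[(11,0)]⟩,.k,.k,.k,.k,.k,.k,⟨true,0,⟨0,[(0,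
  0)]⟩,⟨0,[(4,0)]⟩⟩,⟨false,0,⟨3,[(9,2),(9,1),(7,0)]⟩,⟨0,[(19,0),(3,0),(3,0)]⟩⟩,⟨false,1,⟨1,[(12,0),
  (0,0),(18,0)]⟩,⟨0,[]⟩⟩,⟨true,0,⟨3,[(4,3),(4,2),(9,1),(7,0)]⟩,⟨0,[(1,0)]⟩⟩,⟨false,0,⟨0,[]⟩,⟨0,[]⟩⟩,
  ⟨false,0,⟨0,[]⟩,⟨0,[]⟩⟩,[.o ⟨false,0,⟨0,[(29,0)]⟩,⟨1,[(23,0),(6,1),(1,0)]⟩⟩,.e ⟨false,1,⟨7,[(0,3),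
  (0,1),(0,3),(4,1),(15,0),(7,3),(0,2)]⟩,⟨0,[(4,0),(25,0)]⟩⟩ ⟨false,0,⟨0,[(2,0)]⟩,⟨1,[(19,1),(3,0),
  (6,1),(0,0)]⟩⟩,.o ⟨false,1,⟨1,[(19,1),(3,0),(7,0)]⟩,⟨0,[(8,0)]⟩⟩,.a ⟨true,0,⟨0,[(19,0)]⟩,⟨0,[(16,
  0)]⟩⟩ ⟨true,0,⟨0,[(1,0),(0,0)]⟩,⟨0,[(18,0),(0,0)]⟩⟩ ⟨false,0,⟨0,[(2,0)]⟩,⟨1,[(19,1),(3,0),(6,1),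
  (1,0)]⟩⟩]⟩) (.Q [0,0,0,0,0,0,0,-1,0,1] (.pp false [-1,1]) (.R ⟨0,false,false,true,[0,1,-1],[1,0,
  -1],[0,1,1,0,0,0,0,-1],(⟨0,[(12,0)]⟩,⟨0,[(23,0),(1,0)]⟩),(⟨0,[(22,0)]⟩,⟨0,[(23,0)]⟩),⟨0,[(23,0)]⟩,
  .k,.k,.k,.k,.k,.k,⟨true,0,⟨1,[(20,0),(0,0)]⟩,⟨0,[]⟩⟩,⟨false,0,⟨4,[(0,1),(2,1),(2,1),(3,0),(9,1)]⟩,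
  ⟨1,[(24,0),(7,0)]⟩⟩,⟨true,0,⟨0,[(30,0)]⟩,⟨0,[(31,0)]⟩⟩,⟨false,0,⟨0,[(3,0),(16,0)]⟩,⟨1,[(24,0),(6,
  1),(1,0)]⟩⟩,⟨false,0,⟨0,[]⟩,⟨0,[]⟩⟩,⟨false,0,⟨0,[]⟩,⟨0,[]⟩⟩,[.o ⟨false,0,⟨0,[(19,0)]⟩,⟨3,[(2,1),
  (5,1),(15,0),(8,2)]⟩⟩,.e ⟨false,1,⟨1,[(0,1),(12,0),(0,0),(9,0)]⟩,⟨0,[(2,0),(0,0)]⟩⟩ ⟨false,0,⟨0,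
  [(0,0)]⟩,⟨5,[(2,3),(0,1),(4,1),(1,1),(13,2),(7,1),(0,0)]⟩⟩,.o ⟨false,1,⟨1,[(10,0),(13,1),(3,0)]⟩,
  ⟨0,[(20,0)]⟩⟩,.a ⟨true,0,⟨0,[(9,0)]⟩,⟨2,[(0,0),(2,0),(2,0),(13,2),(7,0)]⟩⟩ ⟨true,0,⟨0,[(5,0),(25,
  0)]⟩,⟨1,[(2,1),(0,1),(16,0),(0,0)]⟩⟩ ⟨false,0,⟨0,[(0,0)]⟩,⟨7,[(2,5),(0,3),(4,1),(12,3),(2,2),(8,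
  4)]⟩⟩]⟩) (.Q [0,0,0,0,0,0,1,1,0,-1,1] (.p true [0,0,1] [1] (⟨0,[(23,0)]⟩,⟨0,[(22,0)]⟩) .k 1 (⟨0,
  []⟩,⟨0,[]⟩) .k .k) (.Q [0,0,1,0,0,0,2,0,0,0,2] (.p true [0,0,1] [0,1,-1] (⟨0,[(24,0)]⟩,⟨0,[(23,
  0)]⟩) .k 2 (⟨0,[(13,0)]⟩,⟨0,[(24,0),(1,0)]⟩) .k (.r 0 ⟨4,[(1,5),(2,3),(2,3),(3,1),(9,3)]⟩ ⟨0,[(6,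
  1),(25,1),(1,0)]⟩)) (.K ⟨0,[0,1,-1],0,0,(⟨0,[(14,0)]⟩,⟨0,[(25,0),(1,0)]⟩),.k,.k,(.x (-1) ⟨0,[(2,
  1),(0,1),(7,0),(13,0),(1,1),(5,1),(1,0)]⟩ ⟨1,[(9,0),(2,0),(1,1),(7,3)]⟩),(.r (-1) ⟨0,[(0,0),(20,
  1),(11,0),(1,0)]⟩ ⟨1,[(0,0),(1,2),(2,2),(2,0)]⟩),.k,[⟨0,[(0,0)]⟩,⟨0,[(11,0)]⟩,⟨0,[(10,0)]⟩,⟨0,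
  [(21,0),(11,0)]⟩]⟩) (.Q [0,-1,0,1,1,0,-2,-2,0,0,-2] (.p false [0,0,1] [0,1,-1] (⟨0,[(25,0)]⟩,⟨0,
  [(24,0)]⟩) .k 2 (⟨0,[(14,0)]⟩,⟨0,[(25,0),(1,0)]⟩) .k (.r 0 ⟨4,[(2,5),(2,3),(2,3),(3,1),(9,3)]⟩ ⟨0,
  [(7,1),(25,1),(1,0)]⟩)) (.R ⟨0,false,false,false,[0,0,1],[0,1,-1],[1,0,0,0,0,0,0,1],(⟨0,[(26,0)]⟩,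
  ⟨0,[(25,0)]⟩),(⟨0,[(15,0)]⟩,⟨0,[(26,0),(1,0)]⟩),⟨0,[(15,0)]⟩,.k,.k,.k,(.r 0 ⟨1,[(2,0),(0,1),(2,2),
  (2,0),(13,0)]⟩ ⟨8,[(0,7),(3,1),(18,15),(6,2),(3,2),(0,0)]⟩),.k,.k,⟨false,0,⟨2,[(2,2),(0,1),(2,3),
  (2,0),(21,0)]⟩,⟨8,[(0,7),(3,1),(18,15),(6,2),(3,2),(0,0)]⟩⟩,⟨true,0,⟨0,[(1,0)]⟩,⟨0,[(23,1)]⟩⟩,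
  ⟨true,0,⟨0,[]⟩,⟨0,[(38,0)]⟩⟩,⟨false,1,⟨0,[(0,0)]⟩,⟨1,[(2,2),(3,2),(2,0),(13,2)]⟩⟩,⟨false,0,⟨0,[]⟩,
  ⟨0,[]⟩⟩,⟨false,0,⟨0,[]⟩,⟨0,[]⟩⟩,[.o ⟨false,1,⟨1,[(0,0),(26,0),(6,0),(3,0)]⟩,⟨0,[(2,0),(3,0),(16,
  0)]⟩⟩,.o ⟨false,1,⟨0,[(0,0),(1,0)]⟩,⟨0,[(11,0)]⟩⟩,.o ⟨false,1,⟨1,[(23,1),(3,0),(7,0)]⟩,⟨0,[(12,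
  0)]⟩⟩,.a ⟨true,0,⟨0,[(23,0)]⟩,⟨0,[(20,0)]⟩⟩ ⟨true,0,⟨2,[(3,1),(2,0),(2,0),(21,0)]⟩,⟨0,[(22,0),(0,
  0)]⟩⟩ ⟨false,1,⟨11,[(0,7),(0,5),(3,0),(3,2),(21,0),(3,1),(0,1)]⟩,⟨0,[(2,0),(3,0),(16,1)]⟩⟩]⟩) (.R
  ⟨0,false,false,false,[0,0,1],[0,1,-1],[1,0,1],(⟨0,[(26,0)]⟩,⟨0,[(25,0)]⟩),(⟨0,[(15,0)]⟩,⟨0,[(26,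
  0),(1,0)]⟩),⟨0,[(15,0)]⟩,.k,.k,.k,(.r 0 ⟨9,[(0,5),(2,7),(2,3),(6,3),(21,2),(0,2)]⟩ ⟨0,[(8,0),(13,
  0),(0,0),(10,1),(1,0)]⟩),.k,.k,⟨false,0,⟨21,[(0,5),(2,13),(0,3),(1,11),(24,1),(3,0),(0,4)]⟩,⟨1,
  [(22,1),(0,1),(10,1),(0,0),(0,0)]⟩⟩,⟨true,0,⟨0,[(1,0)]⟩,⟨0,[(23,1)]⟩⟩,⟨false,1,⟨0,[(22,0),(0,0),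
  (12,0)]⟩,⟨15,[(0,1),(2,9),(5,1),(3,2),(17,6),(3,0),(0,0)]⟩⟩,⟨true,1,⟨0,[(22,1),(11,0),(1,0)]⟩,⟨0,
  [(0,0)]⟩⟩,⟨false,0,⟨0,[]⟩,⟨0,[]⟩⟩,⟨false,0,⟨0,[]⟩,⟨0,[]⟩⟩,[.o ⟨false,1,⟨1,[(22,1),(4,0),(6,1),(1,
  0)]⟩,⟨1,[(0,0),(32,0),(2,0)]⟩⟩,.e ⟨false,1,⟨1,[(16,0),(0,0),(18,0)]⟩,⟨2,[(7,0),(22,0),(0,0)]⟩⟩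
  ⟨false,1,⟨2,[(1,1),(2,0),(17,1),(11,3),(1,2)]⟩,⟨5,[(0,1),(3,0),(6,2),(11,4),(11,1)]⟩⟩,.o ⟨false,1,
  ⟨1,[(23,1),(3,0),(7,0)]⟩,⟨0,[(12,0)]⟩⟩,.a ⟨true,0,⟨0,[(23,0)]⟩,⟨0,[(20,0)]⟩⟩ ⟨true,0,⟨0,[]⟩,⟨0,
  [(38,0)]⟩⟩ ⟨false,1,⟨2,[(1,1),(2,0),(17,1),(11,3),(1,2)]⟩,⟨1,[(0,0),(22,1),(9,0),(2,0)]⟩⟩]⟩)))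
  (.R ⟨0,false,false,true,[0,1,-1],[1,0,-1],[0,1,1,0,0,0,0,-1],(⟨0,[(13,0)]⟩,⟨0,[(24,0),(1,0)]⟩),
  (⟨0,[(23,0)]⟩,⟨0,[(24,0)]⟩),⟨0,[(24,0)]⟩,.k,.k,.k,.k,.k,.k,⟨true,0,⟨1,[(21,0),(0,0)]⟩,⟨0,[]⟩⟩,
  ⟨false,0,⟨1,[(11,0),(9,1),(7,0)]⟩,⟨1,[(25,0),(7,0)]⟩⟩,⟨true,0,⟨0,[(31,0)]⟩,⟨0,[(32,0)]⟩⟩,⟨false,0,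
  ⟨0,[(4,0),(16,0)]⟩,⟨1,[(25,0),(6,1),(1,0)]⟩⟩,⟨false,0,⟨0,[]⟩,⟨0,[]⟩⟩,⟨false,0,⟨0,[]⟩,⟨0,[]⟩⟩,[.o
  ⟨false,0,⟨0,[(20,0)]⟩,⟨3,[(3,1),(5,1),(15,0),(8,2)]⟩⟩,.a ⟨true,0,⟨0,[(0,0)]⟩,⟨2,[(1,1),(2,0),(2,
  0),(13,2),(7,0)]⟩⟩ ⟨false,1,⟨1,[(20,1),(0,1),(11,0),(0,0)]⟩,⟨2,[(1,1),(2,0),(2,0),(21,0)]⟩⟩ ⟨true,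
  0,⟨0,[(0,0),(20,0)]⟩,⟨0,[(1,0)]⟩⟩,.o ⟨false,1,⟨1,[(11,0),(13,1),(3,0)]⟩,⟨0,[(21,0)]⟩⟩,.e ⟨true,0,
  ⟨0,[(6,0),(25,0)]⟩,⟨4,[(1,2),(2,1),(2,1),(3,0),(9,1)]⟩⟩ ⟨true,0,⟨6,[(0,5),(1,0),(18,5),(6,2),(0,
  0),(2,0)]⟩,⟨0,[(1,0)]⟩⟩]⟩))))) (.Q [0,1,0,0,0,0,1,1,0,-1,1] (.p true [0,0,1] [1] (⟨0,[(20,0)]⟩,⟨0,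
  [(19,0)]⟩) .k 1 (⟨0,[]⟩,⟨0,[]⟩) .k .k) (.I [0,0,1,1,0,0,0,-2] (.Q [0,0,0,0,0,0,-2,-2,0,0,-2] (.p
  false [0,0,1] [0,1,-1] (⟨0,[(22,0)]⟩,⟨0,[(21,0)]⟩) .k 2 (⟨0,[(11,0)]⟩,⟨0,[(22,0),(1,0)]⟩) .k (.x
  (-1) ⟨0,[(10,0),(0,0),(7,1),(3,0),(3,0)]⟩ ⟨0,[(8,1),(13,1)]⟩)) (.Q [0,0,0,-1,0,0,0,0,0,1] (.pp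
  false [-1,1]) (.R ⟨0,false,false,true,[0,0,1],[1,-1],[0,1,0,-1],(⟨0,[(24,0)]⟩,⟨0,[(23,0)]⟩),(⟨0,
  [(26,0)]⟩,⟨0,[(27,0)]⟩),⟨0,[(13,0)]⟩,.k,.k,.k,.k,.k,.k,⟨true,0,⟨1,[(21,0),(0,0)]⟩,⟨0,[]⟩⟩,⟨false,
  0,⟨17,[(0,5),(1,1),(4,3),(3,10),(17,0)]⟩,⟨0,[(21,0),(3,0),(3,0)]⟩⟩,⟨true,0,⟨0,[(6,0)]⟩,⟨0,[(7,0),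
  (2,0)]⟩⟩,⟨false,0,⟨1,[(0,1),(0,0)]⟩,⟨1,[(7,1),(17,0),(8,0)]⟩⟩,⟨false,0,⟨0,[]⟩,⟨0,[]⟩⟩,⟨false,0,⟨0,
  []⟩,⟨0,[]⟩⟩,[.o ⟨false,0,⟨0,[(31,0)]⟩,⟨1,[(25,0),(6,1),(1,0)]⟩⟩,.a ⟨true,0,⟨0,[(0,0)]⟩,⟨0,[(32,
  0)]⟩⟩ ⟨false,1,⟨1,[(31,1),(1,0),(0,0)]⟩,⟨0,[(32,0)]⟩⟩ ⟨true,0,⟨0,[(0,0),(9,0)]⟩,⟨0,[(4,0)]⟩⟩,.o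
  ⟨false,1,⟨1,[(21,1),(3,0),(7,0)]⟩,⟨0,[(10,0)]⟩⟩,.e ⟨true,0,⟨0,[(30,0)]⟩,⟨2,[(2,0),(4,1),(14,1)]⟩⟩
  ⟨true,0,⟨1,[(11,0),(17,0),(1,1)]⟩,⟨0,[(4,0)]⟩⟩]⟩) (.Q [0,0,1,0,0,0,2,0,0,0,2] (.p true [0,0,1] [0,
  1,-1] (⟨0,[(24,0)]⟩,⟨0,[(23,0)]⟩) .k 2 (⟨0,[(13,0)]⟩,⟨0,[(24,0),(1,0)]⟩) .k (.x (-1) ⟨0,[(12,0),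
  (0,0),(7,1),(3,0),(3,0)]⟩ ⟨0,[(10,1),(13,1)]⟩)) (.I [1,-1,-1,-1,1,0,0,1] (.K ⟨0,[0,1,-1],0,0,(⟨0,
  [(15,0)]⟩,⟨0,[(26,0),(1,0)]⟩),.k,.k,(.r 0 ⟨0,[(4,0),(4,0),(14,0)]⟩ ⟨0,[(0,0),(31,0)]⟩),(.r 0 ⟨0,
  [(4,0)]⟩ ⟨1,[(0,1),(4,0),(7,0),(7,0)]⟩),.k,[⟨0,[(1,0)]⟩,⟨0,[(12,0)]⟩,⟨0,[(11,0)]⟩,⟨1,[(2,0),(1,0),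
  (8,0),(16,0)]⟩]⟩) (.K ⟨0,[0,1,-1],0,0,(⟨0,[(15,0)]⟩,⟨0,[(26,0),(1,0)]⟩),.k,.k,(.x (-1) ⟨0,[(2,1),
  (9,0),(13,0),(1,1),(3,1),(3,0)]⟩ ⟨1,[(10,0),(2,0),(1,1),(7,3)]⟩),(.r 0 ⟨0,[(4,0)]⟩ ⟨1,[(5,1),(5,
  1),(0,1),(0,0),(17,0),(4,1)]⟩),.k,[⟨0,[(1,0)]⟩,⟨0,[(12,0)]⟩,⟨0,[(11,0)]⟩,⟨1,[(2,0),(1,0),(8,0),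
  (16,0)]⟩]⟩)) (.Q [0,-1,0,1,0,0,-2,-2,0,0,-2] (.p false [0,0,1] [0,1,-1] (⟨0,[(25,0)]⟩,⟨0,[(24,
  0)]⟩) .k 2 (⟨0,[(14,0)]⟩,⟨0,[(25,0),(1,0)]⟩) .k (.x (-1) ⟨0,[(13,0),(0,0),(7,1),(3,0),(3,0)]⟩ ⟨2,
  [(0,1),(22,1),(1,5)]⟩)) (.R ⟨0,false,false,false,[0,0,1],[0,1,-1],[1,0,0,0,0,0,0,1],(⟨0,[(26,0)]⟩,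
  ⟨0,[(25,0)]⟩),(⟨0,[(15,0)]⟩,⟨0,[(26,0),(1,0)]⟩),⟨0,[(15,0)]⟩,.k,.k,.k,(.r (-1) ⟨0,[(1,0),(9,0),(9,
  0),(14,0)]⟩ ⟨0,[(4,0)]⟩),.k,.k,⟨false,1,⟨5,[(1,5),(3,1),(3,1),(1,7),(19,1),(3,0),(0,4)]⟩,⟨0,[(4,
  0)]⟩⟩,⟨true,0,⟨0,[(1,0)]⟩,⟨0,[(23,1)]⟩⟩,⟨true,0,⟨0,[]⟩,⟨0,[(38,0)]⟩⟩,⟨false,0,⟨0,[(0,0)]⟩,⟨0,[(11,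
  0),(9,0),(14,0)]⟩⟩,⟨false,0,⟨0,[]⟩,⟨0,[]⟩⟩,⟨false,0,⟨0,[]⟩,⟨0,[]⟩⟩,[.o ⟨false,0,⟨1,[(2,1),(0,0)]⟩,
  ⟨1,[(11,1),(4,0),(0,0),(18,0)]⟩⟩,.o ⟨false,1,⟨11,[(0,3),(3,1),(8,1),(13,6),(6,5),(0,0),(0,3)]⟩,⟨0,
  [(11,0)]⟩⟩,.o ⟨false,1,⟨1,[(23,1),(3,0),(7,0)]⟩,⟨0,[(12,0)]⟩⟩,.a ⟨true,0,⟨0,[(23,0)]⟩,⟨0,[(20,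
  0)]⟩⟩ ⟨false,1,⟨3,[(1,1),(7,1),(1,1),(23,0),(0,2)]⟩,⟨1,[(3,0),(19,1)]⟩⟩ ⟨true,0,⟨7,[(0,3),(0,3),
  (0,0),(27,1),(0,0),(2,2)]⟩,⟨0,[(11,0),(11,0)]⟩⟩]⟩) (.R ⟨0,false,false,false,[0,0,1],[0,1,-1],[1,1,
  1],(⟨0,[(26,0)]⟩,⟨0,[(25,0)]⟩),(⟨0,[(15,0)]⟩,⟨0,[(26,0),(1,0)]⟩),⟨0,[(15,0)]⟩,.k,.k,.k,(.r (-1)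
  ⟨3,[(0,3),(0,1),(11,1),(13,0),(7,0),(0,1)]⟩ ⟨0,[(4,0)]⟩),.k,.k,⟨false,0,⟨1,[(0,0),(0,0),(30,0)]⟩,
  ⟨11,[(4,7),(4,3),(3,1),(2,0),(0,0),(9,0),(7,3),(0,5)]⟩⟩,⟨true,0,⟨0,[(1,0)]⟩,⟨0,[(23,1)]⟩⟩,⟨false,
  0,⟨1,[(3,0),(19,1)]⟩,⟨23,[(0,7),(0,9),(7,7),(3,1),(13,0),(7,6),(0,15)]⟩⟩,⟨true,0,⟨0,[(3,0),(30,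
  0)]⟩,⟨0,[(0,0)]⟩⟩,⟨false,0,⟨0,[]⟩,⟨0,[]⟩⟩,⟨false,0,⟨0,[]⟩,⟨0,[]⟩⟩,[.o ⟨false,0,⟨1,[(2,1),(0,0)]⟩,
  ⟨1,[(11,1),(4,0),(0,0),(18,0)]⟩⟩,.o ⟨false,1,⟨1,[(3,0),(23,0),(6,1),(1,0)]⟩,⟨0,[(11,0)]⟩⟩,.o
  ⟨false,1,⟨1,[(23,1),(3,0),(7,0)]⟩,⟨0,[(12,0)]⟩⟩,.a ⟨true,0,⟨0,[(23,0)]⟩,⟨0,[(20,0)]⟩⟩ ⟨false,0,⟨0,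
  []⟩,⟨1,[(16,0),(0,0),(18,0)]⟩⟩ ⟨true,0,⟨3,[(1,1),(0,0),(0,1),(27,0),(2,2)]⟩,⟨0,[(11,0),(11,
  0)]⟩⟩]⟩)))) (.R ⟨2,true,false,false,[0,1],[0,0,1],[1,1,1],(⟨0,[]⟩,⟨0,[]⟩),(⟨0,[(23,0)]⟩,⟨0,[(22,
  0)]⟩),⟨0,[]⟩,.k,.k,.k,.k,.k,.k,⟨false,0,⟨2,[(1,0),(3,0),(21,0)]⟩,⟨1,[(0,0),(9,0),(13,0),(3,0),(4,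
  0)]⟩⟩,⟨true,0,⟨0,[(20,0)]⟩,⟨0,[(9,0)]⟩⟩,⟨true,0,⟨0,[(30,0)]⟩,⟨0,[(31,0)]⟩⟩,⟨false,1,⟨0,[(8,0),(24,
  0)]⟩,⟨1,[(1,0),(1,0),(5,2),(18,0)]⟩⟩,⟨false,0,⟨0,[]⟩,⟨1,[(13,0),(0,0),(18,0)]⟩⟩,⟨true,0,⟨1,[(0,
  0)]⟩,⟨0,[(19,0)]⟩⟩,[]⟩)) (.Q [0,0,0,-1,0,0,1,1,0,0,1] (.p true [0,0,1] [] (⟨0,[(22,0)]⟩,⟨0,[(21,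
  0)]⟩) .k 0 (⟨0,[]⟩,⟨0,[]⟩) .k .k) (.I [1,0,-1,-1,0,0,0,1] (.Q [0,0,1,0,0,0,2,0,0,0,2] (.p true [0,
  0,1] [0,1,-1] (⟨0,[(24,0)]⟩,⟨0,[(23,0)]⟩) .k 2 (⟨0,[(13,0)]⟩,⟨0,[(24,0),(1,0)]⟩) .k (.r 0 ⟨2,[(2,
  1),(4,1),(14,1)]⟩ ⟨0,[(6,1),(25,1),(1,0)]⟩)) (.K ⟨0,[0,1,-1],0,0,(⟨0,[(14,0)]⟩,⟨0,[(25,0),(1,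
  0)]⟩),.k,.k,(.x (-1) ⟨0,[(1,1),(3,3),(1,1),(3,4),(13,0),(1,1),(2,1),(4,0)]⟩ ⟨1,[(9,0),(2,0),(1,1),
  (7,3)]⟩),(.r (-1) ⟨0,[(0,0),(20,1),(11,0),(1,0)]⟩ ⟨0,[(1,1),(3,0),(5,0),(18,0),(5,1)]⟩),.k,[⟨0,
  [(0,0)]⟩,⟨0,[(11,0)]⟩,⟨0,[(10,0)]⟩,⟨0,[(21,0),(11,0)]⟩]⟩) (.Q [0,-1,0,1,1,0,-2,-2,0,0,-2] (.p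
  false [0,0,1] [0,1,-1] (⟨0,[(25,0)]⟩,⟨0,[(24,0)]⟩) .k 2 (⟨0,[(14,0)]⟩,⟨0,[(25,0),(1,0)]⟩) .k (.r
  0 ⟨2,[(3,1),(4,1),(14,1)]⟩ ⟨0,[(7,1),(25,1),(1,0)]⟩)) (.R ⟨0,false,false,false,[0,0,1],[0,1,-1],
  [1,0,0,0,0,0,0,1],(⟨0,[(26,0)]⟩,⟨0,[(25,0)]⟩),(⟨0,[(15,0)]⟩,⟨0,[(26,0),(1,0)]⟩),⟨0,[(15,0)]⟩,.k,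
  .k,.k,(.r 0 ⟨1,[(1,0),(0,3),(3,1),(24,1),(5,4)]⟩ ⟨16,[(0,15),(5,2),(1,1),(14,28),(6,6),(0,2),(3,
  0)]⟩),.k,.k,⟨false,0,⟨4,[(1,0),(0,3),(1,2),(1,1),(24,1)]⟩,⟨16,[(0,15),(5,2),(1,1),(14,28),(6,6),
  (0,2),(3,0)]⟩⟩,⟨true,0,⟨0,[(1,0)]⟩,⟨0,[(23,1)]⟩⟩,⟨true,0,⟨0,[]⟩,⟨0,[(38,0)]⟩⟩,⟨false,1,⟨0,[(0,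
  0)]⟩,⟨1,[(3,2),(5,0)]⟩⟩,⟨false,0,⟨0,[]⟩,⟨0,[]⟩⟩,⟨false,0,⟨0,[]⟩,⟨0,[]⟩⟩,[.o ⟨false,1,⟨6,[(0,3),(5,
  1),(2,0),(3,0),(13,2),(2,1)]⟩,⟨0,[(3,0)]⟩⟩,.o ⟨false,1,⟨13,[(0,5),(0,5),(4,9),(1,1),(18,2),(3,1),
  (4,4)]⟩,⟨0,[(11,0)]⟩⟩,.o ⟨false,1,⟨1,[(23,1),(3,0),(7,0)]⟩,⟨0,[(12,0)]⟩⟩,.a ⟨true,0,⟨0,[(23,0)]⟩,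
  ⟨0,[(20,0)]⟩⟩ ⟨true,0,⟨8,[(1,1),(2,3),(1,2),(2,0),(21,2)]⟩,⟨0,[(22,0),(0,0)]⟩⟩ ⟨false,1,⟨11,[(0,
  7),(0,5),(7,3),(17,0),(3,1),(3,0),(0,1)]⟩,⟨0,[(3,0),(19,0)]⟩⟩]⟩) (.R ⟨0,false,false,false,[0,0,1],
  [0,1,-1],[1,0,1],(⟨0,[(26,0)]⟩,⟨0,[(25,0)]⟩),(⟨0,[(15,0)]⟩,⟨0,[(26,0),(1,0)]⟩),⟨0,[(15,0)]⟩,.k,.k,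
  .k,(.r 0 ⟨1,[(0,3),(0,6),(4,5),(1,3),(22,5),(4,3),(0,10)]⟩ ⟨0,[(8,0),(13,0),(0,0),(10,1),(1,0)]⟩),
  .k,.k,⟨false,0,⟨0,[(2,0)]⟩,⟨1,[(22,1),(0,1),(10,1),(0,0),(0,0)]⟩⟩,⟨true,0,⟨0,[(1,0)]⟩,⟨0,[(23,
  1)]⟩⟩,⟨false,1,⟨0,[(22,0),(0,0),(12,0)]⟩,⟨8,[(1,1),(2,3),(1,2),(2,0),(21,2)]⟩⟩,⟨true,1,⟨0,[(22,1),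
  (11,0),(1,0)]⟩,⟨0,[(0,0)]⟩⟩,⟨false,0,⟨0,[]⟩,⟨0,[]⟩⟩,⟨false,0,⟨0,[]⟩,⟨0,[]⟩⟩,[.o ⟨false,1,⟨1,[(22,
  1),(4,0),(6,1),(1,0)]⟩,⟨0,[(3,0)]⟩⟩,.o ⟨false,1,⟨3,[(1,2),(4,4),(1,0),(13,2),(8,0),(4,3)]⟩,⟨0,
  [(11,0)]⟩⟩,.o ⟨false,1,⟨1,[(23,1),(3,0),(7,0)]⟩,⟨0,[(12,0)]⟩⟩,.a ⟨true,0,⟨0,[(23,0)]⟩,⟨0,[(20,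
  0)]⟩⟩ ⟨true,0,⟨0,[]⟩,⟨0,[(38,0)]⟩⟩ ⟨false,1,⟨2,[(1,1),(4,0),(15,2),(8,0),(2,1),(1,2)]⟩,⟨0,[(3,0),
  (19,0)]⟩⟩]⟩))) (.Q [0,0,1,0,0,0,2,0,0,0,2] (.p true [0,0,1] [0,1,-1] (⟨0,[(24,0)]⟩,⟨0,[(23,0)]⟩)
  .k 2 (⟨0,[(13,0)]⟩,⟨0,[(24,0),(1,0)]⟩) .k (.r 0 ⟨2,[(2,1),(4,1),(14,1)]⟩ ⟨1,[(0,1),(5,1),(26,0),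
  (0,0)]⟩)) (.K ⟨0,[0,1,-1],0,0,(⟨0,[(14,0)]⟩,⟨0,[(25,0),(1,0)]⟩),.k,.k,(.r 0 ⟨1,[(1,2),(6,0),(14,
  0)]⟩ ⟨1,[(3,1),(3,1),(26,0),(0,0)]⟩),(.r (-1) ⟨3,[(1,5),(5,1),(7,1),(0,1),(17,0),(0,0)]⟩ ⟨0,[(2,
  1),(2,0),(5,2),(18,0)]⟩),.k,[⟨0,[(0,0)]⟩,⟨0,[(11,0)]⟩,⟨0,[(10,0)]⟩,⟨0,[(21,0),(11,0)]⟩]⟩) (.R ⟨0,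
  false,false,false,[0,0,1],[0,1,-1],[1,0,0,0,0,0,0,1],(⟨0,[(25,0)]⟩,⟨0,[(24,0)]⟩),(⟨0,[(14,0)]⟩,⟨0,
  [(25,0),(1,0)]⟩),⟨0,[(14,0)]⟩,.k,.k,.k,(.r 0 ⟨0,[(0,2),(0,2),(0,4),(2,0),(24,0)]⟩ ⟨3,[(1,5),(5,1),
  (7,1),(0,1),(17,0),(0,0)]⟩),.k,.k,⟨false,0,⟨2,[(0,2),(1,3),(0,0),(1,1),(24,1)]⟩,⟨3,[(1,5),(5,1),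
  (7,1),(0,1),(17,0),(0,0)]⟩⟩,⟨true,0,⟨0,[(0,0)]⟩,⟨0,[(22,1)]⟩⟩,⟨true,0,⟨0,[]⟩,⟨0,[(37,0)]⟩⟩,⟨false,
  1,⟨3,[(0,3),(0,5),(5,1),(26,0),(0,2)]⟩,⟨1,[(2,2),(5,0)]⟩⟩,⟨false,0,⟨0,[]⟩,⟨0,[]⟩⟩,⟨false,0,⟨0,[]⟩,
  ⟨0,[]⟩⟩,[.o ⟨false,1,⟨7,[(0,1),(0,7),(10,1),(13,4),(7,2)]⟩,⟨0,[(2,0)]⟩⟩,.o ⟨false,1,⟨7,[(0,5),(0,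
  5),(3,3),(1,1),(18,2),(3,1),(4,4)]⟩,⟨0,[(10,0)]⟩⟩,.o ⟨false,1,⟨1,[(22,1),(3,0),(7,0)]⟩,⟨0,[(11,
  0)]⟩⟩,.a ⟨true,0,⟨0,[(22,0)]⟩,⟨0,[(19,0)]⟩⟩ ⟨true,0,⟨8,[(0,1),(2,3),(1,2),(2,0),(21,2)]⟩,⟨3,[(1,
  1),(5,1),(14,0),(0,0),(13,1)]⟩⟩ ⟨false,1,⟨1,[(0,1),(0,1),(32,0),(0,0)]⟩,⟨0,[(2,0),(19,0)]⟩⟩]⟩)))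
  (.R ⟨2,true,false,false,[0,1],[0,0,1],[1,1,1],(⟨0,[]⟩,⟨0,[]⟩),(⟨0,[(23,0)]⟩,⟨0,[(22,0)]⟩),⟨0,[]⟩,
  .k,.k,.k,.k,.k,.k,⟨false,0,⟨8,[(0,3),(2,0),(1,4),(14,2),(6,1),(0,0)]⟩,⟨19,[(1,5),(4,5),(3,3),(7,
  1),(5,1),(7,6),(0,10)]⟩⟩,⟨true,0,⟨0,[(20,0)]⟩,⟨0,[(9,0)]⟩⟩,⟨true,0,⟨0,[(30,0)]⟩,⟨0,[(31,0)]⟩⟩,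
  ⟨false,1,⟨0,[(8,0),(24,0)]⟩,⟨0,[(0,0)]⟩⟩,⟨false,0,⟨0,[]⟩,⟨1,[(13,0),(0,0),(18,0)]⟩⟩,⟨true,0,⟨4,
  [(1,1),(1,0),(2,0),(13,2),(7,0)]⟩,⟨0,[(19,0)]⟩⟩,[]⟩))) (.R ⟨2,true,false,false,[0,1],[1,0,-1],[0,
  0,1,0,0,0,0,-1],(⟨0,[]⟩,⟨0,[]⟩),(⟨0,[(20,0)]⟩,⟨0,[(21,0)]⟩),⟨0,[]⟩,.k,.k,.k,.k,.k,.k,⟨true,0,⟨1,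
  [(18,0),(0,0)]⟩,⟨0,[]⟩⟩,⟨false,0,⟨3,[(8,2),(9,1),(7,0)]⟩,⟨0,[(18,0),(3,0),(3,0)]⟩⟩,⟨false,1,⟨0,
  [(3,0),(27,0)]⟩,⟨0,[(4,0),(2,0)]⟩⟩,⟨true,0,⟨0,[(0,0),(27,0)]⟩,⟨0,[(2,0),(1,0)]⟩⟩,⟨true,0,⟨0,[(0,
  0),(0,0),(25,0)]⟩,⟨1,[(2,0),(1,0),(1,0),(1,0)]⟩⟩,⟨false,0,⟨0,[(0,0)]⟩,⟨1,[(16,1),(5,0),(8,0)]⟩⟩,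
  []⟩))))))

theorem ok1 : chk K t1 l2 = true := by decide +kernel

noncomputable def t2 : Tre :=
  (.Q [0,-1,0,1,1,0,1,1,0,-1,1] (.p true [0,0,1] [1] (⟨0,[(17,0)]⟩,⟨0,[(16,0)]⟩) .k 1 (⟨0,[]⟩,⟨0,
  []⟩) .k .k) (.Q [0,-1,1,1,1,0,0,-1,0,-1] (.pp true [-1,1]) (.I [1,-1,2,1] (.Q [0,0,0,-1,0,0,0,0,0,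
  1] (.pp false [-1,1]) (.S ⟨1,0,[0,0,-1,-1],[1,-1],[0,1,-1,-1],(⟨0,[(23,0)]⟩,⟨0,[(24,0)]⟩),⟨0,[(5,
  0)]⟩,.k,(.r (-1) ⟨0,[(4,0),(23,0)]⟩ ⟨2,[(1,3),(23,1),(3,1)]⟩),⟨true,0,⟨0,[(33,0)]⟩,⟨0,[]⟩⟩,⟨false,
  1,⟨1,[(11,0),(0,0),(18,0)]⟩,⟨0,[]⟩⟩,⟨false,0,⟨0,[(29,0)]⟩,⟨0,[(28,0),(2,0)]⟩⟩,⟨true,0,⟨0,[(29,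
  0)]⟩,⟨0,[(28,0)]⟩⟩,[.a ⟨true,0,⟨0,[(0,0)]⟩,⟨0,[(29,0)]⟩⟩ ⟨true,0,⟨0,[(27,0)]⟩,⟨0,[(1,0)]⟩⟩ ⟨false,
  1,⟨1,[(4,0),(23,0),(1,0)]⟩,⟨2,[(1,1),(23,0),(3,0)]⟩⟩,.e ⟨false,1,⟨1,[(4,0),(23,0),(1,0)]⟩,⟨2,[(1,
  1),(23,0),(3,0)]⟩⟩ ⟨false,1,⟨0,[(4,0)]⟩,⟨0,[(1,0),(23,0)]⟩⟩,.o ⟨false,0,⟨1,[(1,0),(26,0)]⟩,⟨1,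
  [(22,0),(7,0)]⟩⟩,.o ⟨false,0,⟨0,[(1,0),(26,0)]⟩,⟨0,[(22,0),(3,0)]⟩⟩]⟩) (.Q [0,0,0,1,0,0,1,1,0,-1,
  1] (.p true [0,0,1] [1] (⟨0,[(21,0)]⟩,⟨0,[(20,0)]⟩) .k 1 (⟨0,[]⟩,⟨0,[]⟩) .k .k) (.Q [0,0,0,1,0,0,
  -1,-1,0,0,-1] (.p false [0,0,1] [] (⟨0,[(22,0)]⟩,⟨0,[(21,0)]⟩) .k 0 (⟨0,[]⟩,⟨0,[]⟩) .k .k) (.Q [0,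
  0,0,0,0,0,1,1,0,0,1] (.p true [0,0,1] [] (⟨0,[(23,0)]⟩,⟨0,[(22,0)]⟩) .k 0 (⟨0,[]⟩,⟨0,[]⟩) .k .k)
  (.R ⟨2,true,false,false,[0,1],[0,0,1],[0,1,1,1],(⟨0,[]⟩,⟨0,[]⟩),(⟨0,[(24,0)]⟩,⟨0,[(23,0)]⟩),⟨0,
  []⟩,.k,.k,.k,.k,.k,.k,⟨false,0,⟨4,[(1,4),(1,0),(17,4),(6,1),(0,0),(0,0)]⟩,⟨1,[(0,0),(6,0),(1,0),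
  (0,1),(23,0)]⟩⟩,⟨true,0,⟨0,[(21,0)]⟩,⟨0,[(10,0)]⟩⟩,⟨true,0,⟨0,[(36,0)]⟩,⟨0,[]⟩⟩,⟨false,1,⟨0,[(9,
  0),(24,0)]⟩,⟨0,[(1,0)]⟩⟩,⟨false,0,⟨0,[(32,0)]⟩,⟨0,[(31,0),(2,0)]⟩⟩,⟨true,0,⟨0,[(0,0)]⟩,⟨0,[(20,
  0)]⟩⟩,[]⟩) (.Q [0,0,1,0,0,0,2,0,0,0,2] (.p true [0,0,1] [0,1,-1] (⟨0,[(24,0)]⟩,⟨0,[(23,0)]⟩) .k 2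
  (⟨0,[(13,0)]⟩,⟨0,[(24,0),(1,0)]⟩) .k (.x (-1) ⟨0,[(12,0),(0,0),(7,1),(3,0),(3,0)]⟩ ⟨0,[(10,1),(13,
  1)]⟩)) (.K ⟨0,[0,1,-1],0,0,(⟨0,[(14,0)]⟩,⟨0,[(25,0),(1,0)]⟩),.k,.k,(.r 0 ⟨1,[(0,0),(1,1),(2,1),
  (23,0)]⟩ ⟨0,[(8,0),(1,0),(0,0)]⟩),(.r 0 ⟨0,[(0,0),(0,0),(0,0)]⟩ ⟨7,[(3,5),(4,3),(1,9),(1,7),(13,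
  0),(8,2)]⟩),.k,[⟨0,[(0,0)]⟩,⟨0,[(11,0)]⟩,⟨0,[(10,0)]⟩,⟨3,[(2,2),(2,0),(15,0),(7,1)]⟩]⟩) (.Q [0,-1,
  0,1,0,0,-2,-2,0,0,-2] (.p false [0,0,1] [0,1,-1] (⟨0,[(25,0)]⟩,⟨0,[(24,0)]⟩) .k 2 (⟨0,[(14,0)]⟩,
  ⟨0,[(25,0),(1,0)]⟩) .k (.x (-1) ⟨0,[(13,0),(0,0),(7,1),(3,0),(3,0)]⟩ ⟨2,[(0,1),(22,1),(1,5)]⟩))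
  (.R ⟨0,false,false,false,[0,0,1],[0,1,-1],[1,0,0,0,0,0,0,1],(⟨0,[(26,0)]⟩,⟨0,[(25,0)]⟩),(⟨0,[(15,
  0)]⟩,⟨0,[(26,0),(1,0)]⟩),⟨0,[(15,0)]⟩,.k,.k,.k,(.r (-1) ⟨5,[(1,3),(6,2),(2,8),(1,1),(17,0),(4,
  2)]⟩ ⟨4,[(0,4),(4,0),(17,9),(6,1),(0,0),(0,0)]⟩),.k,.k,⟨false,1,⟨1,[(1,1),(6,0),(2,2),(19,0),(4,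
  0)]⟩,⟨4,[(0,4),(4,0),(17,9),(6,1),(0,0),(0,0)]⟩⟩,⟨true,0,⟨0,[(1,0)]⟩,⟨0,[(23,1)]⟩⟩,⟨true,0,⟨0,[]⟩,
  ⟨0,[(38,0)]⟩⟩,⟨false,0,⟨0,[(0,0)]⟩,⟨0,[(11,0),(9,0),(14,0)]⟩⟩,⟨false,0,⟨0,[]⟩,⟨0,[]⟩⟩,⟨false,0,⟨0,
  []⟩,⟨0,[]⟩⟩,[.o ⟨false,0,⟨1,[(0,0),(4,1),(27,0)]⟩,⟨1,[(11,1),(4,0),(0,0),(18,0)]⟩⟩,.o ⟨false,1,⟨6,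
  [(0,1),(0,1),(5,3),(0,0),(18,0),(7,0)]⟩,⟨0,[(11,0)]⟩⟩,.o ⟨false,1,⟨1,[(23,1),(3,0),(7,0)]⟩,⟨0,
  [(12,0)]⟩⟩,.a ⟨true,0,⟨0,[(23,0)]⟩,⟨0,[(20,0)]⟩⟩ ⟨false,1,⟨5,[(1,1),(6,2),(2,2),(1,0),(17,1),(4,
  2)]⟩,⟨1,[(0,0),(22,1),(9,0)]⟩⟩ ⟨true,0,⟨9,[(0,1),(0,4),(1,5),(1,1),(24,0),(0,1)]⟩,⟨0,[(11,0),(11,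
  0)]⟩⟩]⟩) (.R ⟨0,false,false,false,[0,0,1],[0,1,-1],[1,1,1],(⟨0,[(26,0)]⟩,⟨0,[(25,0)]⟩),(⟨0,[(15,
  0)]⟩,⟨0,[(26,0),(1,0)]⟩),⟨0,[(15,0)]⟩,.k,.k,.k,(.r (-1) ⟨7,[(0,6),(0,1),(6,1),(0,2),(3,5),(13,1),
  (8,0)]⟩ ⟨1,[(2,2),(0,0),(1,0),(17,3),(7,0)]⟩),.k,.k,⟨false,0,⟨1,[(0,0),(0,0),(30,0)]⟩,⟨3,[(7,3),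
  (5,0),(9,1),(7,2)]⟩⟩,⟨true,0,⟨0,[(1,0)]⟩,⟨0,[(23,1)]⟩⟩,⟨false,0,⟨0,[(2,0),(20,0)]⟩,⟨11,[(0,2),(0,
  1),(6,5),(0,2),(3,3),(17,1),(4,2)]⟩⟩,⟨true,0,⟨0,[(2,0),(0,0)]⟩,⟨0,[(0,0)]⟩⟩,⟨false,0,⟨0,[]⟩,⟨0,
  []⟩⟩,⟨false,0,⟨0,[]⟩,⟨0,[]⟩⟩,[.o ⟨false,0,⟨0,[(2,0),(2,0)]⟩,⟨1,[(11,1),(4,0),(0,0),(18,0)]⟩⟩,.o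
  ⟨false,1,⟨4,[(1,1),(1,0),(1,0),(1,3),(1,0)]⟩,⟨0,[(11,0)]⟩⟩,.o ⟨false,1,⟨1,[(23,1),(3,0),(7,0)]⟩,
  ⟨0,[(12,0)]⟩⟩,.a ⟨true,0,⟨0,[(23,0)]⟩,⟨0,[(20,0)]⟩⟩ ⟨false,0,⟨0,[]⟩,⟨1,[(16,0),(0,0),(18,0)]⟩⟩
  ⟨true,0,⟨3,[(1,1),(0,0),(0,2),(1,0),(25,0)]⟩,⟨0,[(11,0),(11,0)]⟩⟩]⟩)))) (.Q [0,1,0,-1,0,0,-1,-1,0,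
  1,-1] (.p false [0,0,1] [1] (⟨0,[(23,0)]⟩,⟨0,[(22,0)]⟩) .k 1 (⟨0,[]⟩,⟨0,[]⟩) .k .k) (.R ⟨1,false,
  false,true,[1,-1],[1,-1,-1],[0,1,-1,-1],(⟨0,[(26,0)]⟩,⟨0,[(27,0)]⟩),(⟨0,[(12,0)]⟩,⟨0,[(24,0),(2,
  0)]⟩),⟨0,[(8,0)]⟩,.k,.k,(.r (-1) ⟨0,[(7,0),(23,0)]⟩ ⟨2,[(4,3),(23,1),(3,1)]⟩),.k,.k,.k,⟨false,0,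
  ⟨1,[(1,0),(0,0),(7,1),(18,0)]⟩,⟨1,[(0,0),(4,0),(15,0),(11,0)]⟩⟩,⟨true,0,⟨0,[(10,0)]⟩,⟨0,[(21,
  0)]⟩⟩,⟨true,0,⟨0,[(36,0)]⟩,⟨0,[]⟩⟩,⟨true,0,⟨0,[(20,0)]⟩,⟨3,[(1,1),(0,0),(1,0),(14,0),(9,0)]⟩⟩,
  ⟨false,0,⟨0,[(32,0)]⟩,⟨0,[(31,0),(2,0)]⟩⟩,⟨true,0,⟨0,[(20,0),(11,0)]⟩,⟨0,[(1,0)]⟩⟩,[.a ⟨true,0,⟨0,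
  [(0,0)]⟩,⟨0,[(1,0),(1,0),(0,0),(24,0)]⟩⟩ ⟨true,0,⟨0,[(30,0)]⟩,⟨0,[(4,0)]⟩⟩ ⟨false,1,⟨5,[(0,1),(6,
  3),(12,3),(4,0),(2,1),(4,0)]⟩,⟨1,[(1,0),(0,0),(1,1),(24,0)]⟩⟩,.o ⟨false,1,⟨1,[(0,1),(24,0),(8,
  0)]⟩,⟨0,[(2,0)]⟩⟩,.o ⟨false,0,⟨1,[(4,0),(26,0)]⟩,⟨1,[(25,0),(7,0)]⟩⟩,.o ⟨false,0,⟨0,[(4,0),(26,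
  0)]⟩,⟨0,[(25,0),(3,0)]⟩⟩]⟩) (.Q [0,0,-1,0,0,0,-2,0,0,0,-2] (.p false [0,0,1] [0,1,-1] (⟨0,[(24,
  0)]⟩,⟨0,[(23,0)]⟩) .k 2 (⟨0,[(13,0)]⟩,⟨0,[(24,0),(1,0)]⟩) .k (.x (-1) ⟨0,[(12,0),(0,0),(7,1),(3,
  0),(3,0)]⟩ ⟨0,[(10,1),(13,1)]⟩)) (.Q [0,-1,0,1,1,0,-2,-2,0,0,-2] (.p false [0,0,1] [0,1,-1] (⟨0,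
  [(25,0)]⟩,⟨0,[(24,0)]⟩) .k 2 (⟨0,[(14,0)]⟩,⟨0,[(25,0),(1,0)]⟩) .k (.x (-1) ⟨0,[(13,0),(0,0),(7,1),
  (3,0),(3,0)]⟩ ⟨2,[(0,1),(22,1),(1,5)]⟩)) (.R ⟨0,false,false,false,[0,0,1],[0,1,-1],[1,0,0,0,0,0,0,
  1],(⟨0,[(26,0)]⟩,⟨0,[(25,0)]⟩),(⟨0,[(15,0)]⟩,⟨0,[(26,0),(1,0)]⟩),⟨0,[(15,0)]⟩,.k,.k,.k,(.r 0 ⟨8,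
  [(1,6),(0,2),(0,11),(9,1),(7,2),(9,0)]⟩ ⟨2,[(0,1),(6,0),(14,0),(0,4),(6,0),(0,0)]⟩),.k,.k,⟨false,
  0,⟨1,[(1,1),(1,2),(0,0),(26,0)]⟩,⟨2,[(0,1),(6,0),(14,0),(0,4),(6,0),(0,0)]⟩⟩,⟨true,0,⟨0,[(1,0)]⟩,
  ⟨0,[(23,1)]⟩⟩,⟨true,0,⟨0,[]⟩,⟨0,[(38,0)]⟩⟩,⟨false,1,⟨0,[(0,0)]⟩,⟨4,[(2,0),(0,6),(2,0),(14,1),(9,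
  0)]⟩⟩,⟨false,0,⟨0,[]⟩,⟨0,[]⟩⟩,⟨false,0,⟨0,[]⟩,⟨0,[]⟩⟩,[.o ⟨false,1,⟨23,[(0,12),(4,3),(0,4),(1,1),
  (18,8),(2,9)]⟩,⟨0,[(3,0)]⟩⟩,.o ⟨false,1,⟨2,[(0,1),(1,0),(24,0)]⟩,⟨0,[(11,0)]⟩⟩,.o ⟨false,1,⟨1,
  [(23,1),(3,0),(7,0)]⟩,⟨0,[(12,0)]⟩⟩,.a ⟨true,0,⟨0,[(23,0)]⟩,⟨0,[(20,0)]⟩⟩ ⟨true,0,⟨17,[(1,7),(0,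
  5),(0,5),(9,0),(7,5),(9,4)]⟩,⟨0,[(22,0),(0,0)]⟩⟩ ⟨false,1,⟨17,[(0,11),(0,7),(6,5),(4,0),(17,4)]⟩,
  ⟨0,[(3,0),(19,0)]⟩⟩]⟩) (.R ⟨0,false,false,false,[0,0,1],[0,1,-1],[1,0,1],(⟨0,[(26,0)]⟩,⟨0,[(25,
  0)]⟩),(⟨0,[(15,0)]⟩,⟨0,[(26,0),(1,0)]⟩),⟨0,[(15,0)]⟩,.k,.k,.k,(.r 0 ⟨5,[(0,2),(0,3),(1,3),(4,1),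
  (0,0),(3,1)]⟩ ⟨3,[(7,3),(5,0),(8,3),(0,5),(7,2)]⟩),.k,.k,⟨false,0,⟨3,[(0,0),(0,1),(1,1),(5,0)]⟩,
  ⟨7,[(7,7),(5,2),(9,5),(6,3),(0,4)]⟩⟩,⟨true,0,⟨0,[(1,0)]⟩,⟨0,[(23,1)]⟩⟩,⟨false,1,⟨0,[(22,0),(0,0),
  (12,0)]⟩,⟨17,[(0,5),(0,7),(6,5),(4,0),(17,4)]⟩⟩,⟨true,1,⟨1,[(7,1),(5,0),(8,1),(8,0)]⟩,⟨0,[(0,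
  0)]⟩⟩,⟨false,0,⟨0,[]⟩,⟨0,[]⟩⟩,⟨false,0,⟨0,[]⟩,⟨0,[]⟩⟩,[.o ⟨false,1,⟨1,[(1,0),(5,1),(22,0)]⟩,⟨0,
  [(3,0)]⟩⟩,.o ⟨false,1,⟨0,[(5,0),(16,0),(13,0)]⟩,⟨0,[(11,0)]⟩⟩,.o ⟨false,1,⟨1,[(23,1),(3,0),(7,
  0)]⟩,⟨0,[(12,0)]⟩⟩,.a ⟨true,0,⟨0,[(23,0)]⟩,⟨0,[(20,0)]⟩⟩ ⟨true,0,⟨0,[]⟩,⟨0,[(38,0)]⟩⟩ ⟨false,1,⟨2,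
  [(1,1),(5,2),(5,0),(17,1)]⟩,⟨0,[(3,0),(19,0)]⟩⟩]⟩)) (.K ⟨0,[0,1,-1],0,0,(⟨0,[(14,0)]⟩,⟨0,[(25,0),
  (1,0)]⟩),.k,.k,(.r 0 ⟨3,[(0,1),(3,0),(0,3),(15,3),(8,0),(2,2)]⟩ ⟨9,[(2,4),(0,0),(4,7),(1,3),(1,4),
  (13,1),(4,3)]⟩),(.r (-1) ⟨1,[(0,1),(5,1),(5,0),(8,1),(8,0)]⟩ ⟨0,[(1,0),(0,0),(9,0),(18,0)]⟩),.k,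
  [⟨0,[(0,0)]⟩,⟨0,[(11,0)]⟩,⟨0,[(10,0)]⟩,⟨0,[(21,0),(11,0)]⟩]⟩)))) (.R ⟨1,false,false,false,[1,-1],
  [1,-1,-1],[0,1,-1,-1],(⟨0,[(24,0)]⟩,⟨0,[(25,0)]⟩),(⟨0,[(10,0)]⟩,⟨0,[(22,0),(2,0)]⟩),⟨0,[(6,0)]⟩,
  .k,.k,(.r (-1) ⟨0,[(5,0),(23,0)]⟩ ⟨2,[(2,3),(23,1),(3,1)]⟩),.k,.k,.k,⟨false,0,⟨1,[(1,1),(5,1),(1,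
  0),(17,0)]⟩,⟨9,[(0,3),(2,5),(1,1),(13,3),(7,1),(3,0),(0,0)]⟩⟩,⟨true,0,⟨0,[(8,0)]⟩,⟨0,[(19,0)]⟩⟩,
  ⟨true,0,⟨0,[(34,0)]⟩,⟨0,[]⟩⟩,⟨true,0,⟨0,[(0,0),(0,0)]⟩,⟨0,[(17,0)]⟩⟩,⟨false,0,⟨0,[(30,0)]⟩,⟨0,
  [(29,0),(2,0)]⟩⟩,⟨true,0,⟨1,[(0,0),(0,1),(0,0),(15,0),(8,0)]⟩,⟨0,[(7,0)]⟩⟩,[.a ⟨true,0,⟨0,[(0,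
  0)]⟩,⟨0,[(1,0),(0,0),(4,0),(19,0)]⟩⟩ ⟨true,0,⟨0,[(28,0)]⟩,⟨0,[(2,0)]⟩⟩ ⟨false,1,⟨0,[(5,0),(12,
  0)]⟩,⟨1,[(1,0),(0,1),(4,0),(9,0),(9,0)]⟩⟩,.o ⟨false,1,⟨1,[(0,1),(22,0),(8,0)]⟩,⟨0,[(1,0),(15,
  0)]⟩⟩,.o ⟨false,0,⟨1,[(2,0),(26,0)]⟩,⟨1,[(23,0),(7,0)]⟩⟩,.o ⟨false,0,⟨0,[(2,0),(26,0)]⟩,⟨0,[(23,
  0),(3,0)]⟩⟩]⟩))) (.I [1,0,0,1,0,0,0,1] (.I [1,1,0,0,0,0,0,-1] (.Q [0,0,0,-1,0,0,-1,-1,0,1,-1] (.p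
  false [0,0,1] [1] (⟨0,[(22,0)]⟩,⟨0,[(21,0)]⟩) .k 1 (⟨0,[]⟩,⟨0,[]⟩) .k .k) (.Q [0,-1,0,0,1,0,2,2,0,
  -1,2] (.p true [0,0,1] [1,0,-1] (⟨0,[(23,0)]⟩,⟨0,[(22,0)]⟩) .k 2 (⟨0,[(22,0)]⟩,⟨0,[(23,0)]⟩) .k
  (.x (-1) ⟨1,[(3,1),(0,0),(0,0),(5,1),(0,1),(7,2)]⟩ ⟨0,[(9,1),(13,1)]⟩)) (.I [0,1,0,-1,0,0,0,-1]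
  (.Q [0,0,-1,-1,0,0,-1,0,0,1,-1] (.p false [0,0,1] [1] (⟨0,[(25,0)]⟩,⟨0,[(24,0)]⟩) .k 1 (⟨0,[]⟩,⟨0,
  []⟩) .k .k) (.R ⟨0,false,false,true,[0,0,1],[1,-1],[0,1,0,-1],(⟨0,[(26,0)]⟩,⟨0,[(25,0)]⟩),(⟨0,
  [(28,0)]⟩,⟨0,[(29,0)]⟩),⟨0,[(15,0)]⟩,.k,.k,.k,.k,.k,.k,⟨true,0,⟨1,[(23,0),(0,0)]⟩,⟨0,[]⟩⟩,⟨false,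
  0,⟨3,[(13,2),(9,1),(7,0)]⟩,⟨1,[(6,1),(0,0),(0,0),(14,0)]⟩⟩,⟨true,0,⟨0,[(1,0)]⟩,⟨0,[(5,0)]⟩⟩,
  ⟨false,0,⟨0,[(3,0)]⟩,⟨0,[(8,0)]⟩⟩,⟨false,0,⟨0,[]⟩,⟨0,[]⟩⟩,⟨false,0,⟨0,[]⟩,⟨0,[]⟩⟩,[.o ⟨false,0,⟨0,
  [(33,0)]⟩,⟨1,[(27,0),(6,1),(1,0)]⟩⟩,.e ⟨false,1,⟨1,[(33,1),(1,0),(0,0)]⟩,⟨0,[(34,0)]⟩⟩ ⟨false,0,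
  ⟨0,[(0,0)]⟩,⟨0,[(4,0),(3,0)]⟩⟩,.o ⟨false,1,⟨7,[(1,1),(0,3),(1,3),(2,1),(19,0),(7,0)]⟩,⟨0,[(12,
  0)]⟩⟩,.a ⟨true,0,⟨0,[(23,0)]⟩,⟨0,[(20,0)]⟩⟩ ⟨true,0,⟨0,[(32,0)]⟩,⟨1,[(23,0),(0,0),(9,1)]⟩⟩ ⟨false,
  0,⟨0,[(0,0)]⟩,⟨1,[(7,0),(0,0),(14,0)]⟩⟩]⟩) (.Q [0,0,1,0,0,0,2,0,0,0,2] (.p true [0,0,1] [0,1,-1]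
  (⟨0,[(26,0)]⟩,⟨0,[(25,0)]⟩) .k 2 (⟨0,[(15,0)]⟩,⟨0,[(26,0),(1,0)]⟩) .k (.x (-1) ⟨1,[(0,0),(1,0),(1,
  1),(4,0),(4,1),(0,1),(7,0)]⟩ ⟨0,[(12,1),(13,1)]⟩)) (.K ⟨0,[0,1,-1],0,0,(⟨0,[(16,0)]⟩,⟨0,[(27,0),
  (1,0)]⟩),.k,.k,(.r 0 ⟨1,[(1,2),(2,1),(9,0),(9,0),(10,2)]⟩ ⟨0,[(10,0),(1,0),(0,0)]⟩),(.r 0 ⟨0,[(1,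
  2),(2,1),(8,0),(18,0)]⟩ ⟨7,[(3,5),(3,2),(2,0),(1,3),(1,7),(13,0)]⟩),.k,[⟨0,[(0,0)]⟩,⟨0,[(13,0)]⟩,
  ⟨0,[(12,0)]⟩,⟨0,[(23,0),(11,0)]⟩]⟩) (.Q [0,-1,0,1,0,0,-2,-2,0,0,-2] (.p false [0,0,1] [0,1,-1]
  (⟨0,[(27,0)]⟩,⟨0,[(26,0)]⟩) .k 2 (⟨0,[(16,0)]⟩,⟨0,[(27,0),(1,0)]⟩) .k (.x (-1) ⟨1,[(1,0),(1,0),(1,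
  1),(4,0),(4,1),(0,1),(7,0)]⟩ ⟨2,[(0,1),(24,1),(1,5)]⟩)) (.R ⟨0,false,false,false,[0,0,1],[0,1,-1],
  [1,0,0,0,0,0,0,1],(⟨0,[(28,0)]⟩,⟨0,[(27,0)]⟩),(⟨0,[(17,0)]⟩,⟨0,[(28,0),(1,0)]⟩),⟨0,[(17,0)]⟩,.k,
  .k,.k,(.r (-1) ⟨19,[(1,5),(2,11),(6,3),(1,15),(1,13),(13,0),(7,2)]⟩ ⟨5,[(0,3),(1,0),(3,3),(18,6),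
  (7,0),(2,0)]⟩),.k,.k,⟨false,1,⟨0,[(4,0),(3,0),(6,0)]⟩,⟨5,[(0,3),(1,0),(3,3),(18,6),(7,0),(2,0)]⟩⟩,
  ⟨true,0,⟨0,[(1,0)]⟩,⟨0,[(25,1)]⟩⟩,⟨true,0,⟨0,[]⟩,⟨0,[(40,0)]⟩⟩,⟨false,0,⟨0,[(0,0)]⟩,⟨0,[(13,0),(9,
  0),(14,0)]⟩⟩,⟨false,0,⟨0,[]⟩,⟨0,[]⟩⟩,⟨false,0,⟨0,[]⟩,⟨0,[]⟩⟩,[.o ⟨false,0,⟨4,[(0,1),(0,2),(0,4),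
  (0,0),(4,0)]⟩,⟨1,[(13,1),(4,0),(0,0),(18,0)]⟩⟩,.o ⟨false,1,⟨12,[(0,5),(8,3),(0,2),(4,1),(13,3),(7,
  1)]⟩,⟨0,[(13,0)]⟩⟩,.o ⟨false,1,⟨7,[(3,1),(0,3),(1,3),(2,1),(19,0),(7,0)]⟩,⟨0,[(14,0)]⟩⟩,.a ⟨true,
  0,⟨0,[(25,0)]⟩,⟨0,[(22,0)]⟩⟩ ⟨false,1,⟨5,[(4,1),(5,1),(0,1),(3,2),(17,0)]⟩,⟨5,[(0,1),(2,1),(21,4),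
  (0,0)]⟩⟩ ⟨true,0,⟨5,[(0,2),(0,2),(6,0),(23,0),(3,3)]⟩,⟨0,[(13,0),(11,0)]⟩⟩]⟩) (.R ⟨0,false,false,
  false,[0,0,1],[0,1,-1],[1,1,1],(⟨0,[(28,0)]⟩,⟨0,[(27,0)]⟩),(⟨0,[(17,0)]⟩,⟨0,[(28,0),(1,0)]⟩),⟨0,
  [(17,0)]⟩,.k,.k,.k,(.r (-1) ⟨11,[(0,7),(0,1),(2,3),(6,3),(3,9),(13,2),(7,0)]⟩ ⟨2,[(1,0),(0,7),(2,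
  5),(27,1),(2,0)]⟩),.k,.k,⟨false,0,⟨3,[(0,1),(0,1),(6,0),(26,0)]⟩,⟨3,[(9,3),(5,0),(9,1),(7,2)]⟩⟩,
  ⟨true,0,⟨0,[(1,0)]⟩,⟨0,[(25,1)]⟩⟩,⟨false,0,⟨0,[(2,0),(2,0)]⟩,⟨5,[(4,1),(5,1),(0,1),(3,2),(17,
  0)]⟩⟩,⟨true,0,⟨2,[(1,3),(0,7),(2,5),(27,1),(2,0)]⟩,⟨0,[(0,0)]⟩⟩,⟨false,0,⟨0,[]⟩,⟨0,[]⟩⟩,⟨false,0,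
  ⟨0,[]⟩,⟨0,[]⟩⟩,[.e ⟨false,0,⟨0,[(40,0)]⟩,⟨1,[(37,0),(0,0)]⟩⟩ ⟨false,0,⟨2,[(1,3),(0,4),(2,2),(27,
  1),(2,0)]⟩,⟨4,[(0,3),(2,0),(1,0),(3,0),(15,2),(11,1),(0,1)]⟩⟩,.o ⟨false,1,⟨5,[(1,3),(0,2),(2,0),
  (3,4),(1,0),(21,0)]⟩,⟨0,[(13,0)]⟩⟩,.o ⟨false,1,⟨7,[(3,1),(0,3),(1,3),(2,1),(19,0),(7,0)]⟩,⟨0,[(14,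
  0)]⟩⟩,.a ⟨true,0,⟨0,[(25,0)]⟩,⟨0,[(22,0)]⟩⟩ ⟨false,0,⟨0,[]⟩,⟨1,[(18,0),(0,0),(18,0)]⟩⟩ ⟨true,0,⟨2,
  [(1,3),(0,4),(2,2),(27,1),(2,0)]⟩,⟨1,[(0,0),(24,1),(9,0)]⟩⟩]⟩)))) (.I [0,-1,2,2] (.S ⟨1,0,[0,0,-1,
  -1],[1,-1],[0,0,1],(⟨0,[(28,0)]⟩,⟨0,[(29,0)]⟩),⟨0,[(10,0)]⟩,.k,(.r (-1) ⟨0,[(9,0),(23,0)]⟩ ⟨0,[(0,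
  0),(37,0)]⟩),⟨true,0,⟨1,[(0,0),(22,0),(0,0),(13,0)]⟩,⟨0,[(6,0)]⟩⟩,⟨false,1,⟨1,[(16,0),(0,0),(18,
  0)]⟩,⟨0,[]⟩⟩,⟨false,0,⟨0,[(0,0)]⟩,⟨0,[(9,0),(23,0)]⟩⟩,⟨true,0,⟨0,[(34,0)]⟩,⟨0,[(33,0)]⟩⟩,[.a
  ⟨true,0,⟨2,[(1,1),(1,2),(2,0),(4,0),(11,1)]⟩,⟨0,[(34,0)]⟩⟩ ⟨true,0,⟨1,[(23,0),(0,0)]⟩,⟨0,[]⟩⟩
  ⟨false,1,⟨1,[(9,0),(23,0),(1,0)]⟩,⟨1,[(0,0),(37,0)]⟩⟩,.e ⟨false,1,⟨1,[(16,0),(0,0),(18,0)]⟩,⟨2,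
  [(6,0),(23,0),(3,0)]⟩⟩ ⟨false,1,⟨0,[(9,0)]⟩,⟨1,[(0,0),(37,2)]⟩⟩,.o ⟨false,0,⟨1,[(23,0),(0,0)]⟩,⟨1,
  [(27,0),(7,0)]⟩⟩,.o ⟨false,0,⟨0,[(23,0),(0,0)]⟩,⟨0,[(27,0),(3,0)]⟩⟩]⟩) (.I [0,1,0,0,0,0,0,-1] (.R
  ⟨1,false,false,false,[1,0,-1],[1,-1],[1],(⟨0,[(26,0)]⟩,⟨0,[(27,0)]⟩),(⟨0,[(29,0)]⟩,⟨0,[(30,0)]⟩),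
  ⟨0,[(15,0)]⟩,.k,.k,.k,.k,.k,.k,⟨false,0,⟨0,[(35,0)]⟩,⟨1,[(34,1),(1,0),(0,0)]⟩⟩,⟨true,0,⟨0,[(24,
  0)]⟩,⟨0,[(13,0)]⟩⟩,⟨true,0,⟨1,[(2,0),(9,0),(0,0)]⟩,⟨0,[(0,0)]⟩⟩,⟨true,0,⟨1,[(1,1),(0,1),(21,2),(0,
  0)]⟩,⟨0,[(23,0),(11,0)]⟩⟩,⟨false,0,⟨0,[(2,0)]⟩,⟨2,[(4,1),(0,0),(2,1),(1,0),(1,1)]⟩⟩,⟨true,0,⟨2,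
  [(2,1),(4,0),(4,0),(11,1)]⟩,⟨0,[(23,0)]⟩⟩,[.a ⟨true,0,⟨7,[(1,0),(0,3),(1,6),(7,2),(11,3),(7,0)]⟩,
  ⟨0,[(35,0)]⟩⟩ ⟨true,0,⟨0,[]⟩,⟨1,[(24,0),(0,0)]⟩⟩ ⟨false,1,⟨8,[(4,0),(0,1),(2,0),(1,4),(1,3),(11,
  5),(11,2)]⟩,⟨0,[(2,0),(20,0)]⟩⟩,.e ⟨false,1,⟨1,[(36,0),(0,0)]⟩,⟨0,[(39,0)]⟩⟩ ⟨false,1,⟨0,[(10,0),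
  (13,0)]⟩,⟨0,[(6,0),(16,0)]⟩⟩,.o ⟨false,0,⟨0,[(13,0)]⟩,⟨6,[(3,2),(1,4),(2,1),(1,0),(1,0),(15,0)]⟩⟩,
  .o ⟨false,0,⟨0,[(25,0)]⟩,⟨1,[(7,1),(0,0),(0,0),(14,0)]⟩⟩]⟩) (.Q [0,0,1,0,0,0,2,0,0,0,2] (.p true
  [0,0,1] [0,1,-1] (⟨0,[(27,0)]⟩,⟨0,[(26,0)]⟩) .k 2 (⟨0,[(16,0)]⟩,⟨0,[(27,0),(1,0)]⟩) .k (.r 0 ⟨2,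
  [(0,1),(5,1),(5,1),(0,1)]⟩ ⟨8,[(4,3),(0,7),(2,5),(1,1),(13,3),(7,1),(3,0)]⟩)) (.K ⟨0,[0,1,-1],0,0,
  (⟨0,[(17,0)]⟩,⟨0,[(28,0),(1,0)]⟩),.k,.k,(.x (-1) ⟨0,[(12,0),(1,0),(13,0),(0,0),(3,0)]⟩ ⟨1,[(17,1),
  (7,2),(0,0),(4,1)]⟩),(.r (-1) ⟨2,[(0,1),(5,2),(2,2),(5,1),(17,0)]⟩ ⟨1,[(1,1),(0,0),(4,0),(5,0),(0,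
  0)]⟩),.k,[⟨0,[(0,0)]⟩,⟨0,[(14,0)]⟩,⟨0,[(13,0)]⟩,⟨0,[(24,0),(11,0)]⟩]⟩) (.R ⟨0,false,false,true,[0,
  0,1],[0,1,-1],[1,1,1],(⟨0,[(28,0)]⟩,⟨0,[(27,0)]⟩),(⟨0,[(17,0)]⟩,⟨0,[(28,0),(1,0)]⟩),⟨0,[(17,0)]⟩,
  .k,.k,.k,(.r 0 ⟨6,[(0,2),(0,6),(1,0),(4,1),(4,5)]⟩ ⟨1,[(6,1),(2,1),(5,0),(9,1),(7,0)]⟩),.k,.k,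
  ⟨false,0,⟨6,[(0,0),(0,4),(0,1),(5,0),(4,1)]⟩,⟨7,[(6,3),(2,7),(5,2),(7,3),(1,1),(7,4)]⟩⟩,⟨true,0,
  ⟨0,[(0,0)]⟩,⟨0,[(25,1)]⟩⟩,⟨true,0,⟨0,[(24,0),(0,0)]⟩,⟨6,[(0,0),(2,4),(4,2),(4,1)]⟩⟩,⟨false,1,⟨1,
  [(9,1),(5,0),(8,1),(8,0)]⟩,⟨0,[(1,1),(6,0),(16,1)]⟩⟩,⟨false,0,⟨0,[]⟩,⟨0,[]⟩⟩,⟨false,0,⟨0,[]⟩,⟨0,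
  []⟩⟩,[.e ⟨false,0,⟨0,[(40,0)]⟩,⟨1,[(37,0),(0,0)]⟩⟩ ⟨false,0,⟨0,[(0,0),(5,0),(29,0)]⟩,⟨6,[(1,0),(2,
  0),(6,2),(1,3),(11,7),(7,0),(4,2)]⟩⟩,.o ⟨false,1,⟨1,[(0,0),(8,1),(22,0)]⟩,⟨2,[(1,1),(0,0),(10,0),
  (11,1)]⟩⟩,.o ⟨false,1,⟨6,[(4,2),(1,4),(2,1),(1,0),(1,0),(15,0)]⟩,⟨0,[(14,0)]⟩⟩,.a ⟨true,0,⟨0,[(25,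
  0)]⟩,⟨0,[(22,0)]⟩⟩ ⟨false,0,⟨0,[]⟩,⟨1,[(18,0),(0,0),(18,0)]⟩⟩ ⟨true,0,⟨0,[(0,0),(5,0),(29,0)]⟩,⟨2,
  [(1,1),(0,0),(10,0),(11,4)]⟩⟩]⟩))))) (.Q [0,0,-1,-1,0,0,-1,0,0,1,-1] (.p false [0,0,1] [1] (⟨0,
  [(24,0)]⟩,⟨0,[(23,0)]⟩) .k 1 (⟨0,[]⟩,⟨0,[]⟩) .k .k) (.R ⟨0,false,false,true,[0,0,1],[1,-1],[0,1,0,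
  -1],(⟨0,[(25,0)]⟩,⟨0,[(24,0)]⟩),(⟨0,[(27,0)]⟩,⟨0,[(28,0)]⟩),⟨0,[(14,0)]⟩,.k,.k,.k,.k,.k,.k,⟨true,
  0,⟨1,[(22,0),(0,0)]⟩,⟨0,[]⟩⟩,⟨false,0,⟨3,[(12,2),(9,1),(7,0)]⟩,⟨1,[(5,1),(0,0),(0,0),(14,0)]⟩⟩,
  ⟨true,0,⟨5,[(1,1),(0,1),(2,2),(16,5),(3,1),(5,0)]⟩,⟨0,[(4,0)]⟩⟩,⟨false,0,⟨0,[(2,0)]⟩,⟨0,[(7,0)]⟩⟩,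
  ⟨false,0,⟨0,[]⟩,⟨0,[]⟩⟩,⟨false,0,⟨0,[]⟩,⟨0,[]⟩⟩,[.o ⟨false,0,⟨0,[(32,0)]⟩,⟨3,[(1,1),(5,3),(18,0),
  (8,0)]⟩⟩,.e ⟨false,1,⟨1,[(32,1),(1,0),(0,0)]⟩,⟨0,[(33,0)]⟩⟩ ⟨false,0,⟨0,[(0,0)]⟩,⟨0,[(3,0),(3,
  0)]⟩⟩,.o ⟨false,1,⟨1,[(22,1),(3,0),(7,0)]⟩,⟨0,[(11,0)]⟩⟩,.a ⟨true,0,⟨0,[(22,0)]⟩,⟨0,[(19,0)]⟩⟩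
  ⟨true,0,⟨0,[(31,0)]⟩,⟨1,[(22,0),(0,0),(9,1)]⟩⟩ ⟨false,0,⟨0,[(0,0)]⟩,⟨1,[(6,0),(0,0),(14,0)]⟩⟩]⟩)
  (.Q [0,0,0,-1,0,0,0,0,0,1] (.pp false [-1,1]) (.R ⟨0,false,false,true,[0,0,1],[1,-1],[0,1,0,-1],
  (⟨0,[(26,0)]⟩,⟨0,[(25,0)]⟩),(⟨0,[(28,0)]⟩,⟨0,[(29,0)]⟩),⟨0,[(15,0)]⟩,.k,.k,.k,.k,.k,.k,⟨true,0,⟨1,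
  [(23,0),(0,0)]⟩,⟨0,[]⟩⟩,⟨false,0,⟨3,[(13,2),(9,1),(7,0)]⟩,⟨3,[(1,1),(4,0),(2,0),(13,1),(3,0),(7,
  1)]⟩⟩,⟨true,0,⟨5,[(2,1),(0,1),(2,2),(16,5),(3,1),(5,0)]⟩,⟨0,[(5,0)]⟩⟩,⟨false,0,⟨0,[(3,0)]⟩,⟨0,[(8,
  0)]⟩⟩,⟨false,0,⟨0,[]⟩,⟨0,[]⟩⟩,⟨false,0,⟨0,[]⟩,⟨0,[]⟩⟩,[.o ⟨false,0,⟨0,[(33,0)]⟩,⟨3,[(2,1),(5,3),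
  (18,0),(8,0)]⟩⟩,.a ⟨true,0,⟨0,[(0,0)]⟩,⟨0,[(34,0)]⟩⟩ ⟨false,1,⟨1,[(33,1),(1,0),(0,0)]⟩,⟨0,[(34,
  0)]⟩⟩ ⟨true,0,⟨0,[(0,0),(11,0)]⟩,⟨0,[(1,0)]⟩⟩,.o ⟨false,1,⟨1,[(23,1),(3,0),(7,0)]⟩,⟨0,[(12,0)]⟩⟩,
  .e ⟨true,0,⟨0,[(32,0)]⟩,⟨1,[(1,0),(11,0),(9,0),(10,0)]⟩⟩ ⟨true,0,⟨21,[(3,7),(2,5),(4,7),(1,10),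
  (16,3),(0,2)]⟩,⟨0,[(1,0)]⟩⟩]⟩) (.Q [0,0,-1,0,0,0,-2,0,0,0,-2] (.p false [0,0,1] [0,1,-1] (⟨0,[(26,
  0)]⟩,⟨0,[(25,0)]⟩) .k 2 (⟨0,[(15,0)]⟩,⟨0,[(26,0),(1,0)]⟩) .k (.r (-1) ⟨0,[(8,0),(2,0),(1,0)]⟩ ⟨0,
  [(1,0),(0,0),(6,0),(13,0)]⟩)) (.R ⟨0,false,false,false,[0,0,1],[0,1,-1],[1,0,0,0,0,0,0,1],(⟨0,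
  [(27,0)]⟩,⟨0,[(26,0)]⟩),(⟨0,[(16,0)]⟩,⟨0,[(27,0),(1,0)]⟩),⟨0,[(16,0)]⟩,.k,.k,.k,(.r (-1) ⟨7,[(0,
  3),(5,1),(2,2),(0,1),(1,10),(1,2),(22,2)]⟩ ⟨9,[(2,4),(0,6),(4,5),(1,0),(13,8),(7,3)]⟩),.k,.k,
  ⟨false,1,⟨7,[(0,3),(5,5),(2,0),(0,5),(1,8),(1,0),(22,0)]⟩,⟨9,[(2,4),(0,6),(4,5),(1,0),(13,8),(7,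
  3)]⟩⟩,⟨true,0,⟨0,[(0,0)]⟩,⟨0,[(24,1)]⟩⟩,⟨true,0,⟨0,[]⟩,⟨0,[(39,0)]⟩⟩,⟨false,0,⟨0,[(1,0),(1,0),(33,
  0)]⟩,⟨0,[(12,0),(9,0),(14,0)]⟩⟩,⟨false,0,⟨0,[]⟩,⟨0,[]⟩⟩,⟨false,0,⟨0,[]⟩,⟨0,[]⟩⟩,[.o ⟨false,0,⟨3,
  [(1,3),(1,1),(24,0),(8,0)]⟩,⟨1,[(12,1),(4,0),(0,0),(18,0)]⟩⟩,.o ⟨false,1,⟨21,[(0,9),(0,4),(1,0),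
  (4,19),(1,2),(21,1)]⟩,⟨0,[(12,0)]⟩⟩,.o ⟨false,1,⟨1,[(24,1),(3,0),(7,0)]⟩,⟨0,[(13,0)]⟩⟩,.a ⟨true,0,
  ⟨0,[(24,0)]⟩,⟨0,[(21,0)]⟩⟩ ⟨false,1,⟨3,[(6,1),(2,0),(0,1),(1,0),(1,0),(22,0)]⟩,⟨0,[(2,0),(1,0)]⟩⟩
  ⟨true,0,⟨2,[(0,1),(0,0),(1,0),(4,0),(23,0),(2,0)]⟩,⟨0,[(12,0),(11,0)]⟩⟩]⟩) (.K ⟨0,[0,1,-1],0,0,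
  (⟨0,[(16,0)]⟩,⟨0,[(27,0),(1,0)]⟩),.k,.k,(.r 0 ⟨5,[(2,2),(0,1),(4,1),(5,2),(9,6),(10,6)]⟩ ⟨0,[(10,
  0),(1,0),(0,0)]⟩),(.r 0 ⟨8,[(0,4),(1,1),(0,5),(4,5),(23,1),(2,0)]⟩ ⟨3,[(6,1),(2,0),(0,1),(1,4),(0,
  3),(0,0),(22,0)]⟩),.k,[⟨0,[(0,0)]⟩,⟨0,[(13,0)]⟩,⟨0,[(12,0)]⟩,⟨0,[(23,0),(11,0)]⟩]⟩))))) (.Q [0,0,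
  -1,-1,0,0,-1,0,0,1,-1] (.p false [0,0,1] [1] (⟨0,[(23,0)]⟩,⟨0,[(22,0)]⟩) .k 1 (⟨0,[]⟩,⟨0,[]⟩) .k
  .k) (.I [0,0,2,1,0,0,0,-1] (.I [1,0,1,1,0,0,0,-1] (.Q [0,0,0,0,0,0,0,-1,0,1] (.pp false [-1,1])
  (.R ⟨0,false,false,true,[0,1,-1],[1,0,-1],[0,1,1,0,0,0,0,-1],(⟨0,[(16,0)]⟩,⟨0,[(27,0),(1,0)]⟩),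
  (⟨0,[(26,0)]⟩,⟨0,[(27,0)]⟩),⟨0,[(27,0)]⟩,.k,.k,.k,.k,.k,.k,⟨true,0,⟨1,[(24,0),(0,0)]⟩,⟨0,[]⟩⟩,
  ⟨false,0,⟨1,[(14,0),(9,1),(7,0)]⟩,⟨1,[(28,0),(7,0)]⟩⟩,⟨true,0,⟨0,[(34,0)]⟩,⟨0,[(35,0)]⟩⟩,⟨false,0,
  ⟨0,[(3,0),(20,0)]⟩,⟨2,[(4,1),(3,1),(1,0),(3,0)]⟩⟩,⟨false,0,⟨0,[]⟩,⟨0,[]⟩⟩,⟨false,0,⟨0,[]⟩,⟨0,[]⟩⟩,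
  [.o ⟨false,0,⟨0,[(23,0)]⟩,⟨3,[(4,1),(7,1),(15,0),(8,2)]⟩⟩,.e ⟨false,1,⟨3,[(0,1),(7,1),(8,0),(0,0),
  (15,1),(1,0)]⟩,⟨0,[(3,0),(0,0)]⟩⟩ ⟨false,0,⟨0,[(0,0)]⟩,⟨7,[(4,1),(2,2),(1,3),(0,0),(1,1),(1,3),
  (13,2)]⟩⟩,.o ⟨false,1,⟨1,[(14,0),(13,1),(3,0)]⟩,⟨0,[(24,0)]⟩⟩,.a ⟨true,0,⟨0,[(13,0)]⟩,⟨3,[(14,0),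
  (9,5),(7,2)]⟩⟩ ⟨true,0,⟨0,[(1,0),(5,0),(30,0)]⟩,⟨1,[(3,1),(0,1),(19,0),(0,0)]⟩⟩ ⟨false,0,⟨0,[(0,
  0)]⟩,⟨7,[(4,5),(5,3),(1,1),(12,7),(2,0),(8,2)]⟩⟩]⟩) (.R ⟨0,false,false,true,[0,1,-1],[1,0,-1],[0,
  1,1,0,0,0,0,-1],(⟨0,[(16,0)]⟩,⟨0,[(27,0),(1,0)]⟩),(⟨0,[(26,0)]⟩,⟨0,[(27,0)]⟩),⟨0,[(27,0)]⟩,.k,.k,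
  .k,.k,.k,.k,⟨true,0,⟨1,[(24,0),(0,0)]⟩,⟨0,[]⟩⟩,⟨false,0,⟨1,[(14,0),(9,1),(7,0)]⟩,⟨1,[(28,0),(7,
  0)]⟩⟩,⟨true,0,⟨0,[(34,0)]⟩,⟨0,[(35,0)]⟩⟩,⟨false,0,⟨0,[(3,0),(20,0)]⟩,⟨2,[(4,1),(3,1),(1,0),(3,
  0)]⟩⟩,⟨false,0,⟨0,[]⟩,⟨0,[]⟩⟩,⟨false,0,⟨0,[]⟩,⟨0,[]⟩⟩,[.o ⟨false,0,⟨0,[(23,0)]⟩,⟨9,[(0,3),(8,3),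
  (0,1),(1,1),(11,3),(3,0),(8,2)]⟩⟩,.a ⟨true,0,⟨0,[(1,0),(1,0)]⟩,⟨0,[(3,0),(0,0),(19,0)]⟩⟩ ⟨false,1,
  ⟨1,[(2,0),(2,0),(28,0),(1,0),(0,0)]⟩,⟨0,[(3,0),(0,0)]⟩⟩ ⟨true,0,⟨0,[(1,0),(1,0),(20,0)]⟩,⟨0,[(0,
  0)]⟩⟩,.o ⟨false,1,⟨1,[(14,0),(13,1),(3,0)]⟩,⟨0,[(24,0)]⟩⟩,.e ⟨true,0,⟨0,[(1,0),(5,0),(30,0)]⟩,⟨1,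
  [(0,0),(2,0),(2,0),(17,0)]⟩⟩ ⟨true,0,⟨4,[(2,3),(0,1),(1,2),(6,1),(19,2)]⟩,⟨0,[(0,0)]⟩⟩]⟩)) (.R ⟨1,
  false,false,true,[1,-1,1],[1,-1],[0,1,-1,-1,0,0,0,1],(⟨0,[(26,0),(1,0)]⟩,⟨0,[(15,0)]⟩),(⟨0,[(28,
  0)]⟩,⟨0,[(29,0)]⟩),⟨0,[(10,0),(15,0)]⟩,.k,.k,(.r (-1) ⟨5,[(0,1),(8,4),(1,3),(1,1),(13,0),(5,0)]⟩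
  ⟨0,[(1,0),(32,0)]⟩),.k,.k,.k,⟨false,0,⟨3,[(0,1),(2,1),(9,0),(17,0)]⟩,⟨1,[(1,0),(2,0),(28,0),(1,0),
  (0,0)]⟩⟩,⟨true,0,⟨0,[(12,0)]⟩,⟨0,[(23,0)]⟩⟩,⟨true,0,⟨6,[(1,0),(9,0),(12,0),(5,2)]⟩,⟨0,[]⟩⟩,⟨true,
  0,⟨0,[(22,0)]⟩,⟨5,[(0,2),(2,0),(1,1),(17,4),(7,0)]⟩⟩,⟨false,0,⟨0,[(34,0)]⟩,⟨0,[(33,0),(2,0)]⟩⟩,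
  ⟨true,0,⟨0,[(22,0),(11,0)]⟩,⟨0,[(0,0),(22,0)]⟩⟩,[.o ⟨false,0,⟨0,[(33,0)]⟩,⟨2,[(3,1),(3,1),(1,0),
  (3,0)]⟩⟩,.a ⟨true,0,⟨0,[(2,0),(20,0)]⟩,⟨0,[(34,0)]⟩⟩ ⟨true,0,⟨0,[(0,0)]⟩,⟨0,[(1,0)]⟩⟩ ⟨false,1,⟨3,
  [(6,0),(2,1),(3,1),(13,0),(5,0),(1,0)]⟩,⟨5,[(1,2),(1,1),(1,0),(17,3),(7,1)]⟩⟩,.o ⟨false,0,⟨0,[(23,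
  0)]⟩,⟨1,[(13,0),(13,1),(3,0)]⟩⟩,.o ⟨false,0,⟨1,[(23,2),(0,0)]⟩,⟨0,[(12,0),(14,0),(3,0)]⟩⟩]⟩)) (.Q
  [0,-1,-1,-1,0,0,0,1,0,1] (.pp false [-1,1]) (.R ⟨0,false,false,false,[0,0,1],[1,-1,1],[1,0,-1,-1,
  0,0,0,1],(⟨0,[(26,0)]⟩,⟨0,[(25,0)]⟩),(⟨0,[(26,0),(1,0)]⟩,⟨0,[(15,0)]⟩),⟨0,[(15,0)]⟩,.k,.k,.k,.k,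
  .k,.k,⟨true,0,⟨0,[]⟩,⟨1,[(23,0),(0,0)]⟩⟩,⟨false,0,⟨1,[(13,0),(9,1),(7,0)]⟩,⟨1,[(27,0),(7,0)]⟩⟩,
  ⟨false,1,⟨1,[(9,0),(23,0),(2,0)]⟩,⟨1,[(23,0),(0,0),(9,1)]⟩⟩,⟨true,0,⟨0,[(2,0),(20,0)]⟩,⟨0,[(3,0),
  (18,0)]⟩⟩,⟨false,0,⟨0,[]⟩,⟨0,[]⟩⟩,⟨false,0,⟨0,[]⟩,⟨0,[]⟩⟩,[.o ⟨false,0,⟨1,[(1,1),(21,2),(0,0)]⟩,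
  ⟨3,[(7,1),(5,0),(8,1),(4,1),(3,0),(2,1)]⟩⟩,.e ⟨false,1,⟨29,[(0,7),(0,7),(6,8),(0,17),(1,4),(1,6),
  (13,2)]⟩,⟨0,[(22,0),(0,0),(10,0)]⟩⟩ ⟨false,0,⟨0,[(0,0)]⟩,⟨0,[(7,0),(22,0)]⟩⟩,.o ⟨false,1,⟨1,[(23,
  1),(3,0),(7,0)]⟩,⟨0,[(12,0)]⟩⟩,.a ⟨true,0,⟨0,[(23,0)]⟩,⟨0,[(20,0)]⟩⟩ ⟨true,0,⟨0,[(1,0)]⟩,⟨1,[(22,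
  1),(0,2),(0,0),(9,1)]⟩⟩ ⟨false,0,⟨0,[(0,0)]⟩,⟨0,[(7,0),(30,0)]⟩⟩]⟩) (.I [0,0,2,2,0,0,0,-1] (.R ⟨1,
  false,false,true,[1,-1,1],[1,-1],[0,1,1],(⟨0,[(27,0),(1,0)]⟩,⟨0,[(16,0)]⟩),(⟨0,[(29,0)]⟩,⟨0,[(30,
  0)]⟩),⟨0,[(11,0),(15,0)]⟩,.k,.k,(.r (-1) ⟨7,[(2,1),(7,6),(1,5),(1,1),(10,1),(2,0),(5,0)]⟩ ⟨0,[(0,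
  0)]⟩),.k,.k,.k,⟨false,0,⟨5,[(0,1),(5,1),(17,0),(0,0)]⟩,⟨1,[(10,0),(23,0),(1,0)]⟩⟩,⟨true,0,⟨0,[(13,
  0)]⟩,⟨0,[(24,0)]⟩⟩,⟨true,0,⟨0,[(0,0),(33,0)]⟩,⟨0,[(2,0)]⟩⟩,⟨true,0,⟨0,[(23,0)]⟩,⟨1,[(2,0),(3,0),
  (17,1)]⟩⟩,⟨false,0,⟨0,[(0,0)]⟩,⟨0,[(2,0),(31,0),(2,0)]⟩⟩,⟨true,0,⟨1,[(1,1),(12,0),(17,0)]⟩,⟨1,[(2,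
  1),(21,2),(0,0)]⟩⟩,[.o ⟨false,0,⟨0,[(34,0)]⟩,⟨2,[(4,1),(3,1),(1,0),(3,0)]⟩⟩,.a ⟨true,0,⟨0,[(3,0),
  (20,0)]⟩,⟨0,[(35,0)]⟩⟩ ⟨true,0,⟨1,[(24,0),(0,0)]⟩,⟨0,[]⟩⟩ ⟨false,1,⟨3,[(7,0),(2,1),(3,1),(13,0),
  (5,0),(1,0)]⟩,⟨8,[(0,2),(3,1),(1,0),(17,6),(7,1)]⟩⟩,.o ⟨false,0,⟨0,[(24,0)]⟩,⟨1,[(14,0),(13,1),(3,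
  0)]⟩⟩,.o ⟨false,0,⟨1,[(24,2),(0,0)]⟩,⟨0,[(13,0),(14,0),(3,0)]⟩⟩]⟩) (.Q [0,0,-1,0,0,0,-2,0,0,0,-2]
  (.p false [0,0,1] [0,1,-1] (⟨0,[(27,0)]⟩,⟨0,[(26,0)]⟩) .k 2 (⟨0,[(16,0)]⟩,⟨0,[(27,0),(1,0)]⟩) .k
  (.r 0 ⟨2,[(0,1),(5,3),(17,1),(0,1)]⟩ ⟨0,[(5,1),(31,0)]⟩)) (.Q [0,1,0,1,0,0,-2,-2,0,0,-2] (.p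
  false [0,0,1] [0,1,-1] (⟨0,[(28,0)]⟩,⟨0,[(27,0)]⟩) .k 2 (⟨0,[(17,0)]⟩,⟨0,[(28,0),(1,0)]⟩) .k (.r
  0 ⟨2,[(1,1),(5,3),(17,1),(0,1)]⟩ ⟨0,[(6,1),(31,0)]⟩)) (.R ⟨0,false,false,true,[0,0,1],[0,1,-1],[1,
  1,0,0,0,0,0,1],(⟨0,[(29,0)]⟩,⟨0,[(28,0)]⟩),(⟨0,[(18,0)]⟩,⟨0,[(29,0),(1,0)]⟩),⟨0,[(18,0)]⟩,.k,.k,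
  .k,(.r 0 ⟨1,[(2,1),(5,1),(17,0),(0,0)]⟩ ⟨1,[(0,1),(25,3),(11,0),(0,0)]⟩),.k,.k,⟨false,0,⟨0,[(2,0),
  (5,0)]⟩,⟨1,[(0,1),(25,3),(11,0),(0,0)]⟩⟩,⟨true,0,⟨0,[(1,0)]⟩,⟨0,[(26,1)]⟩⟩,⟨false,0,⟨0,[]⟩,⟨1,
  [(19,0),(0,0),(18,0)]⟩⟩,⟨true,0,⟨0,[(0,0)]⟩,⟨0,[(2,0),(5,0),(17,1)]⟩⟩,⟨false,0,⟨0,[]⟩,⟨0,[]⟩⟩,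
  ⟨false,0,⟨0,[]⟩,⟨0,[]⟩⟩,[.e ⟨false,0,⟨3,[(1,0),(2,0),(3,0),(15,1),(8,0)]⟩,⟨0,[(7,0),(31,0)]⟩⟩
  ⟨false,0,⟨29,[(0,19),(0,12),(4,5),(1,3),(24,4),(0,5)]⟩,⟨4,[(2,0),(8,0),(0,0),(1,2),(11,5),(7,0),
  (4,2)]⟩⟩,.o ⟨false,1,⟨35,[(0,15),(9,11),(0,7),(4,5),(13,10),(2,1),(4,4)]⟩,⟨5,[(2,3),(5,1),(17,6),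
  (0,0)]⟩⟩,.o ⟨false,1,⟨1,[(26,1),(3,0),(7,0)]⟩,⟨0,[(15,0)]⟩⟩,.a ⟨true,0,⟨0,[(26,0)]⟩,⟨0,[(23,0)]⟩⟩
  ⟨false,0,⟨1,[(4,0),(3,0)]⟩,⟨1,[(0,0),(25,1),(9,0),(2,1)]⟩⟩ ⟨true,0,⟨29,[(0,19),(0,12),(4,5),(1,3),
  (24,4),(0,5)]⟩,⟨5,[(2,3),(5,1),(17,12),(0,0)]⟩⟩]⟩) (.R ⟨0,false,false,true,[0,0,1],[0,1,-1],[1,1,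
  1],(⟨0,[(29,0)]⟩,⟨0,[(28,0)]⟩),(⟨0,[(18,0)]⟩,⟨0,[(29,0),(1,0)]⟩),⟨0,[(18,0)]⟩,.k,.k,.k,(.r 0 ⟨13,
  [(0,7),(0,11),(2,0),(3,2),(5,7)]⟩ ⟨1,[(7,1),(2,1),(5,0),(9,1),(7,0)]⟩),.k,.k,⟨false,0,⟨8,[(0,1),
  (0,2),(0,1),(1,0),(9,1)]⟩,⟨7,[(7,3),(2,7),(5,2),(7,3),(1,1),(7,4)]⟩⟩,⟨true,0,⟨0,[(1,0)]⟩,⟨0,[(26,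
  1)]⟩⟩,⟨true,0,⟨0,[(25,0),(0,0)]⟩,⟨0,[(2,0),(34,1),(2,0)]⟩⟩,⟨false,1,⟨1,[(10,1),(5,0),(8,1),(8,
  0)]⟩,⟨0,[(0,0)]⟩⟩,⟨false,0,⟨0,[]⟩,⟨0,[]⟩⟩,⟨false,0,⟨0,[]⟩,⟨0,[]⟩⟩,[.e ⟨false,0,⟨0,[(41,0)]⟩,⟨1,
  [(38,0),(0,0)]⟩⟩ ⟨false,0,⟨2,[(1,1),(1,2),(12,0),(17,1)]⟩,⟨3,[(0,0),(11,0),(1,1),(11,3),(11,0),(0,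
  1)]⟩⟩,.o ⟨false,1,⟨1,[(1,0),(8,1),(22,0)]⟩,⟨1,[(0,0),(35,0)]⟩⟩,.o ⟨false,1,⟨1,[(26,1),(3,0),(7,
  0)]⟩,⟨0,[(15,0)]⟩⟩,.a ⟨true,0,⟨0,[(26,0)]⟩,⟨0,[(23,0)]⟩⟩ ⟨false,0,⟨0,[]⟩,⟨1,[(19,0),(0,0),(18,
  0)]⟩⟩ ⟨true,0,⟨2,[(1,1),(1,2),(12,0),(17,1)]⟩,⟨1,[(0,0),(25,1),(9,0)]⟩⟩]⟩)) (.K ⟨0,[0,1,-1],0,0,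
  (⟨0,[(17,0)]⟩,⟨0,[(28,0),(1,0)]⟩),.k,.k,(.x (-1) ⟨0,[(12,0),(1,0),(13,0),(0,0),(3,0)]⟩ ⟨1,[(17,1),
  (7,2),(0,0),(4,1)]⟩),(.r (-1) ⟨2,[(0,1),(5,2),(2,2),(5,1),(17,0)]⟩ ⟨1,[(1,1),(5,1),(17,0),(0,
  0)]⟩),.k,[⟨0,[(0,0)]⟩,⟨0,[(14,0)]⟩,⟨0,[(13,0)]⟩,⟨1,[(2,1),(12,0),(17,0)]⟩]⟩))))) (.I [0,-1,1,1,0,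
  0,0,1] (.Q [0,0,0,-1,0,0,0,0,0,1] (.pp false [-1,1]) (.R ⟨0,false,false,true,[0,0,1],[1,-1],[1,1,
  -1,-1],(⟨0,[(26,0)]⟩,⟨0,[(25,0)]⟩),(⟨0,[(28,0)]⟩,⟨0,[(29,0)]⟩),⟨0,[(15,0)]⟩,.k,.k,.k,.k,.k,.k,
  ⟨true,0,⟨0,[]⟩,⟨1,[(23,0),(0,0)]⟩⟩,⟨false,0,⟨3,[(13,2),(9,1),(7,0)]⟩,⟨3,[(2,1),(3,0),(2,0),(13,1),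
  (3,0),(7,1)]⟩⟩,⟨false,1,⟨2,[(0,0),(3,1),(2,0),(1,1),(23,0)]⟩,⟨0,[(1,0)]⟩⟩,⟨true,0,⟨0,[(0,0),(21,
  0)]⟩,⟨0,[(3,0)]⟩⟩,⟨false,0,⟨0,[]⟩,⟨0,[]⟩⟩,⟨false,0,⟨0,[]⟩,⟨0,[]⟩⟩,[.o ⟨false,0,⟨0,[(33,0)]⟩,⟨2,
  [(3,1),(3,1),(1,0),(3,0)]⟩⟩,.a ⟨true,0,⟨0,[(0,0)]⟩,⟨0,[(34,0)]⟩⟩ ⟨false,1,⟨1,[(9,0),(23,0),(1,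
  0)]⟩,⟨1,[(2,0),(10,0),(9,0),(10,0)]⟩⟩ ⟨true,0,⟨0,[(0,0),(11,0)]⟩,⟨0,[(2,0)]⟩⟩,.o ⟨false,1,⟨1,[(23,
  1),(3,0),(7,0)]⟩,⟨0,[(12,0)]⟩⟩,.e ⟨true,0,⟨0,[(6,0)]⟩,⟨0,[(2,0),(10,0),(9,0)]⟩⟩ ⟨true,0,⟨7,[(0,3),
  (5,2),(6,3),(16,1),(2,0)]⟩,⟨0,[(2,0)]⟩⟩]⟩) (.Q [0,0,0,1,0,0,-1,-1,0,0,-1] (.p false [0,0,1] []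
  (⟨0,[(26,0)]⟩,⟨0,[(25,0)]⟩) .k 0 (⟨0,[]⟩,⟨0,[]⟩) .k .k) (.R ⟨2,true,false,false,[0,1],[0,0,1],[1,
  1,1],(⟨0,[]⟩,⟨0,[]⟩),(⟨0,[(27,0)]⟩,⟨0,[(26,0)]⟩),⟨0,[]⟩,.k,.k,.k,.k,.k,.k,⟨false,0,⟨0,[(5,0)]⟩,⟨7,
  [(2,1),(6,3),(0,3),(1,1),(1,2),(17,0)]⟩⟩,⟨true,0,⟨0,[(24,0)]⟩,⟨0,[(13,0)]⟩⟩,⟨true,0,⟨0,[(34,0)]⟩,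
  ⟨0,[(35,0)]⟩⟩,⟨false,1,⟨0,[(12,0),(24,0)]⟩,⟨0,[(0,0)]⟩⟩,⟨false,0,⟨0,[]⟩,⟨1,[(17,0),(0,0),(18,
  0)]⟩⟩,⟨true,0,⟨0,[(2,0),(4,0),(16,0)]⟩,⟨0,[(23,0)]⟩⟩,[]⟩) (.Q [0,0,-1,0,0,0,-2,0,0,0,-2] (.p
  false [0,0,1] [0,1,-1] (⟨0,[(27,0)]⟩,⟨0,[(26,0)]⟩) .k 2 (⟨0,[(16,0)]⟩,⟨0,[(27,0),(1,0)]⟩) .k (.r
  0 ⟨0,[(0,0),(3,0),(9,0)]⟩ ⟨0,[(5,1),(31,0)]⟩)) (.Q [0,1,0,-1,-1,0,2,2,0,0,2] (.p true [0,0,1] [0,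
  1,-1] (⟨0,[(28,0)]⟩,⟨0,[(27,0)]⟩) .k 2 (⟨0,[(17,0)]⟩,⟨0,[(28,0),(1,0)]⟩) .k (.r 0 ⟨1,[(0,0),(0,0),
  (1,0),(3,0),(5,0)]⟩ ⟨0,[(6,1),(31,0)]⟩)) (.R ⟨0,false,false,false,[0,0,1],[0,1,-1],[1,0,1],(⟨0,
  [(29,0)]⟩,⟨0,[(28,0)]⟩),(⟨0,[(18,0)]⟩,⟨0,[(29,0),(1,0)]⟩),⟨0,[(18,0)]⟩,.k,.k,.k,(.r 0 ⟨5,[(0,2),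
  (0,3),(0,3),(8,1),(0,0),(3,1)]⟩ ⟨1,[(7,1),(2,1),(5,0),(9,1),(7,0)]⟩),.k,.k,⟨false,0,⟨3,[(0,0),(0,
  1),(0,1),(9,0)]⟩,⟨7,[(7,3),(2,7),(5,2),(7,3),(1,1),(7,4)]⟩⟩,⟨true,0,⟨0,[(1,0)]⟩,⟨0,[(26,1)]⟩⟩,
  ⟨false,1,⟨0,[(25,0),(0,0),(12,0)]⟩,⟨17,[(0,5),(0,7),(9,5),(4,0),(17,4)]⟩⟩,⟨true,1,⟨1,[(10,1),(5,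
  0),(8,1),(8,0)]⟩,⟨0,[(0,0)]⟩⟩,⟨false,0,⟨0,[]⟩,⟨0,[]⟩⟩,⟨false,0,⟨0,[]⟩,⟨0,[]⟩⟩,[.o ⟨false,1,⟨1,[(1,
  0),(8,1),(22,0)]⟩,⟨0,[(2,0)]⟩⟩,.o ⟨false,1,⟨1,[(1,0),(1,0),(3,0),(2,0),(28,0)]⟩,⟨0,[(14,0)]⟩⟩,.o
  ⟨false,1,⟨1,[(26,1),(3,0),(7,0)]⟩,⟨0,[(15,0)]⟩⟩,.a ⟨true,0,⟨0,[(26,0)]⟩,⟨0,[(23,0)]⟩⟩ ⟨true,0,⟨0,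
  []⟩,⟨0,[(41,0)]⟩⟩ ⟨false,1,⟨2,[(1,1),(8,2),(5,0),(17,1)]⟩,⟨0,[(2,0),(23,0)]⟩⟩]⟩) (.R ⟨0,false,
  false,false,[0,0,1],[0,1,-1],[1,0,0,0,0,0,0,1],(⟨0,[(29,0)]⟩,⟨0,[(28,0)]⟩),(⟨0,[(18,0)]⟩,⟨0,[(29,
  0),(1,0)]⟩),⟨0,[(18,0)]⟩,.k,.k,.k,(.r 0 ⟨9,[(1,7),(0,14),(3,0),(1,3),(25,0)]⟩ ⟨4,[(0,3),(6,2),(2,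
  0),(13,1),(1,5),(7,0)]⟩),.k,.k,⟨false,0,⟨1,[(1,1),(0,2),(3,0),(27,0)]⟩,⟨4,[(0,3),(6,2),(2,0),(13,
  1),(1,5),(7,0)]⟩⟩,⟨true,0,⟨0,[(1,0)]⟩,⟨0,[(26,1)]⟩⟩,⟨true,0,⟨0,[]⟩,⟨0,[(41,0)]⟩⟩,⟨false,1,⟨0,[(0,
  0)]⟩,⟨4,[(2,6),(1,0),(1,0),(17,0),(1,0),(7,0)]⟩⟩,⟨false,0,⟨0,[]⟩,⟨0,[]⟩⟩,⟨false,0,⟨0,[]⟩,⟨0,[]⟩⟩,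
  [.o ⟨false,1,⟨15,[(0,8),(4,2),(2,2),(1,0),(16,0),(2,5),(2,4)]⟩,⟨0,[(2,0)]⟩⟩,.o ⟨false,1,⟨3,[(0,1),
  (2,1),(26,0),(8,0)]⟩,⟨0,[(14,0)]⟩⟩,.o ⟨false,1,⟨1,[(26,1),(3,0),(7,0)]⟩,⟨0,[(15,0)]⟩⟩,.a ⟨true,0,
  ⟨0,[(26,0)]⟩,⟨0,[(23,0)]⟩⟩ ⟨true,0,⟨9,[(1,3),(0,4),(3,2),(1,1),(25,2)]⟩,⟨0,[(25,0),(0,0)]⟩⟩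
  ⟨false,1,⟨17,[(0,11),(0,7),(9,5),(4,0),(17,4)]⟩,⟨0,[(2,0),(23,0)]⟩⟩]⟩)) (.I [0,0,2,2,0,0,0,-1]
  (.K ⟨0,[0,1,-1],0,0,(⟨0,[(18,0)]⟩,⟨0,[(29,0),(1,0)]⟩),.k,.k,(.r 0 ⟨0,[(0,0)]⟩ ⟨3,[(2,1),(6,0),(2,
  2),(1,1),(1,1),(13,0)]⟩),(.r (-1) ⟨3,[(0,1),(6,5),(11,0),(0,0),(18,2)]⟩ ⟨0,[(2,0),(1,0),(4,0),(5,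
  0)]⟩),.k,[⟨0,[(1,0)]⟩,⟨0,[(15,0)]⟩,⟨0,[(14,0)]⟩,⟨12,[(0,3),(2,4),(12,1),(8,8),(7,1),(0,2)]⟩]⟩)
  (.K ⟨0,[0,1,-1],0,0,(⟨0,[(18,0)]⟩,⟨0,[(29,0),(1,0)]⟩),.k,.k,(.x (-1) ⟨7,[(3,5),(5,2),(2,2),(0,7),
  (2,3),(12,7),(0,2),(7,1)]⟩ ⟨1,[(18,1),(7,2),(0,0),(4,1)]⟩),(.r (-1) ⟨2,[(1,1),(5,2),(2,2),(5,1),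
  (17,0)]⟩ ⟨6,[(0,4),(3,2),(1,2),(7,2),(1,2)]⟩),.k,[⟨0,[(1,0)]⟩,⟨0,[(15,0)]⟩,⟨0,[(14,0)]⟩,⟨0,[(25,
  0),(11,0)]⟩]⟩))))) (.I [0,0,1,1,0,0,0,-2] (.Q [0,0,1,0,0,0,2,0,0,0,2] (.p true [0,0,1] [0,1,-1]
  (⟨0,[(26,0)]⟩,⟨0,[(25,0)]⟩) .k 2 (⟨0,[(15,0)]⟩,⟨0,[(26,0),(1,0)]⟩) .k (.x (-1) ⟨0,[(1,0),(6,0),(5,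
  0),(0,0),(7,0)]⟩ ⟨0,[(12,1),(13,1)]⟩)) (.K ⟨0,[0,1,-1],0,0,(⟨0,[(16,0)]⟩,⟨0,[(27,0),(1,0)]⟩),.k,
  .k,(.r 0 ⟨1,[(1,1),(4,1),(17,0),(0,0)]⟩ ⟨0,[(10,0),(1,0),(0,0)]⟩),(.r 0 ⟨0,[(1,0)]⟩ ⟨7,[(4,5),(5,
  3),(1,9),(1,7),(13,0),(8,2)]⟩),.k,[⟨0,[(0,0)]⟩,⟨0,[(13,0)]⟩,⟨0,[(12,0)]⟩,⟨0,[(23,0),(11,0)]⟩]⟩)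
  (.Q [0,1,0,-1,0,0,2,2,0,0,2] (.p true [0,0,1] [0,1,-1] (⟨0,[(27,0)]⟩,⟨0,[(26,0)]⟩) .k 2 (⟨0,[(16,
  0)]⟩,⟨0,[(27,0),(1,0)]⟩) .k (.x (-1) ⟨0,[(2,0),(6,0),(5,0),(0,0),(7,0)]⟩ ⟨2,[(0,1),(24,1),(1,
  5)]⟩)) (.R ⟨0,false,false,false,[0,0,1],[0,1,-1],[1,0,0,-1,0,0,0,1],(⟨0,[(28,0)]⟩,⟨0,[(27,0)]⟩),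
  (⟨0,[(17,0)]⟩,⟨0,[(28,0),(1,0)]⟩),⟨0,[(17,0)]⟩,.k,.k,.k,(.r (-1) ⟨7,[(0,6),(0,1),(8,1),(0,2),(3,
  5),(13,1),(8,0)]⟩ ⟨0,[(2,0)]⟩),.k,.k,⟨false,1,⟨2,[(0,2),(0,1),(9,2),(14,1)]⟩,⟨0,[(2,0),(33,0)]⟩⟩,
  ⟨true,0,⟨0,[(1,0)]⟩,⟨0,[(25,1)]⟩⟩,⟨false,1,⟨0,[(35,0),(2,0)]⟩,⟨0,[(36,0)]⟩⟩,⟨true,0,⟨0,[(1,0),(0,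
  0)]⟩,⟨0,[(0,0)]⟩⟩,⟨false,0,⟨0,[]⟩,⟨0,[]⟩⟩,⟨false,0,⟨0,[]⟩,⟨0,[]⟩⟩,[.e ⟨false,1,⟨3,[(0,1),(10,0),
  (3,1),(13,0),(5,0),(1,0),(0,0)]⟩,⟨7,[(1,0),(0,4),(2,1),(27,1),(2,0)]⟩⟩ ⟨false,0,⟨7,[(1,8),(0,4),
  (2,1),(27,1),(2,0)]⟩,⟨1,[(0,0),(24,1),(9,0),(1,0),(0,0)]⟩⟩,.o ⟨false,1,⟨4,[(1,2),(0,0),(2,0),(3,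
  3),(1,0)]⟩,⟨0,[(13,0)]⟩⟩,.o ⟨false,1,⟨9,[(0,3),(2,3),(5,5),(0,1),(18,0),(7,0)]⟩,⟨0,[(14,0)]⟩⟩,.a
  ⟨true,0,⟨0,[(25,0)]⟩,⟨0,[(22,0)]⟩⟩ ⟨false,1,⟨5,[(0,2),(0,1),(9,2),(14,1),(11,2)]⟩,⟨5,[(2,3),(4,1),
  (17,0),(0,0)]⟩⟩ ⟨true,0,⟨7,[(1,8),(0,4),(2,1),(27,1),(2,0)]⟩,⟨1,[(0,0),(24,1),(9,0)]⟩⟩]⟩) (.R ⟨0,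
  false,false,false,[0,0,1],[0,1,-1],[1,0,0,0,0,0,0,1],(⟨0,[(28,0)]⟩,⟨0,[(27,0)]⟩),(⟨0,[(17,0)]⟩,⟨0,
  [(28,0),(1,0)]⟩),⟨0,[(17,0)]⟩,.k,.k,.k,(.r (-1) ⟨7,[(1,3),(5,1),(2,2),(0,1),(1,10),(1,2),(22,2)]⟩
  ⟨0,[(2,0)]⟩),.k,.k,⟨false,1,⟨7,[(1,3),(5,5),(2,0),(0,5),(1,8),(1,0),(22,0)]⟩,⟨0,[(2,0)]⟩⟩,⟨true,0,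
  ⟨0,[(1,0)]⟩,⟨0,[(25,1)]⟩⟩,⟨true,0,⟨0,[]⟩,⟨0,[(40,0)]⟩⟩,⟨false,0,⟨0,[(0,0)]⟩,⟨0,[(13,0),(9,0),(14,
  0)]⟩⟩,⟨false,0,⟨0,[]⟩,⟨0,[]⟩⟩,⟨false,0,⟨0,[]⟩,⟨0,[]⟩⟩,[.o ⟨false,0,⟨2,[(0,0),(0,1),(1,0),(0,2)]⟩,
  ⟨1,[(13,1),(4,0),(0,0),(18,0)]⟩⟩,.o ⟨false,1,⟨12,[(0,5),(8,3),(0,2),(4,1),(13,3),(7,1)]⟩,⟨0,[(13,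
  0)]⟩⟩,.o ⟨false,1,⟨1,[(3,0),(5,0),(0,0),(2,0)]⟩,⟨0,[(14,0)]⟩⟩,.a ⟨true,0,⟨0,[(25,0)]⟩,⟨0,[(22,
  0)]⟩⟩ ⟨false,1,⟨3,[(7,1),(2,0),(0,1),(1,0),(1,0),(22,0)]⟩,⟨1,[(0,0),(24,1),(9,0)]⟩⟩ ⟨true,0,⟨14,
  [(0,9),(0,5),(3,1),(1,2),(24,4),(0,1)]⟩,⟨0,[(13,0),(11,0)]⟩⟩]⟩))) (.Q [0,0,0,1,0,0,-1,-1,0,0,-1]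
  (.p false [0,0,1] [] (⟨0,[(26,0)]⟩,⟨0,[(25,0)]⟩) .k 0 (⟨0,[]⟩,⟨0,[]⟩) .k .k) (.R ⟨2,true,false,
  false,[0,1],[0,0,1],[1,1,1],(⟨0,[]⟩,⟨0,[]⟩),(⟨0,[(27,0)]⟩,⟨0,[(26,0)]⟩),⟨0,[]⟩,.k,.k,.k,.k,.k,.k,
  ⟨false,0,⟨0,[(5,0)]⟩,⟨13,[(1,3),(7,3),(4,2),(7,1),(9,0),(3,3),(0,5)]⟩⟩,⟨true,0,⟨0,[(24,0)]⟩,⟨0,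
  [(13,0)]⟩⟩,⟨true,0,⟨0,[(34,0)]⟩,⟨0,[(35,0)]⟩⟩,⟨false,1,⟨0,[(12,0),(24,0)]⟩,⟨0,[(0,0)]⟩⟩,⟨false,0,
  ⟨0,[]⟩,⟨1,[(17,0),(0,0),(18,0)]⟩⟩,⟨true,0,⟨8,[(1,2),(2,1),(1,0),(17,6),(7,1)]⟩,⟨0,[(23,0)]⟩⟩,[]⟩)
  (.Q [0,0,1,0,0,0,2,0,0,0,2] (.p true [0,0,1] [0,1,-1] (⟨0,[(27,0)]⟩,⟨0,[(26,0)]⟩) .k 2 (⟨0,[(16,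
  0)]⟩,⟨0,[(27,0),(1,0)]⟩) .k (.r 0 ⟨2,[(1,1),(4,1),(17,0),(0,0)]⟩ ⟨0,[(5,1),(31,0)]⟩)) (.K ⟨0,[0,1,
  -1],0,0,(⟨0,[(17,0)]⟩,⟨0,[(28,0),(1,0)]⟩),.k,.k,(.x (-1) ⟨0,[(12,0),(1,0),(13,0),(0,0),(3,0)]⟩ ⟨1,
  [(17,1),(7,2),(0,0),(4,1)]⟩),(.r (-1) ⟨2,[(0,1),(5,2),(2,2),(5,1),(17,0)]⟩ ⟨0,[(1,1),(2,0),(9,2),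
  (18,0)]⟩),.k,[⟨0,[(0,0)]⟩,⟨0,[(14,0)]⟩,⟨0,[(13,0)]⟩,⟨0,[(24,0),(11,0)]⟩]⟩) (.Q [0,-1,0,1,1,0,-2,
  -2,0,0,-2] (.p false [0,0,1] [0,1,-1] (⟨0,[(28,0)]⟩,⟨0,[(27,0)]⟩) .k 2 (⟨0,[(17,0)]⟩,⟨0,[(28,0),
  (1,0)]⟩) .k (.r 0 ⟨2,[(2,1),(4,1),(17,0),(0,0)]⟩ ⟨0,[(6,1),(31,0)]⟩)) (.R ⟨0,false,false,false,[0,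
  0,1],[0,1,-1],[1,0,0,0,0,0,0,1],(⟨0,[(29,0)]⟩,⟨0,[(28,0)]⟩),(⟨0,[(18,0)]⟩,⟨0,[(29,0),(1,0)]⟩),⟨0,
  [(18,0)]⟩,.k,.k,.k,(.r 0 ⟨1,[(1,2),(0,3),(2,1),(28,1),(5,2)]⟩ ⟨4,[(0,3),(6,2),(2,0),(13,1),(1,5),
  (7,0)]⟩),.k,.k,⟨false,0,⟨1,[(1,1),(0,2),(3,0),(27,0)]⟩,⟨4,[(0,3),(6,2),(2,0),(13,1),(1,5),(7,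
  0)]⟩⟩,⟨true,0,⟨0,[(1,0)]⟩,⟨0,[(26,1)]⟩⟩,⟨true,0,⟨0,[]⟩,⟨0,[(41,0)]⟩⟩,⟨false,1,⟨0,[(0,0)]⟩,⟨5,[(2,
  8),(3,0),(1,1),(17,1),(7,0)]⟩⟩,⟨false,0,⟨0,[]⟩,⟨0,[]⟩⟩,⟨false,0,⟨0,[]⟩,⟨0,[]⟩⟩,[.o ⟨false,1,⟨15,
  [(0,8),(4,2),(2,2),(1,0),(16,0),(2,5),(2,4)]⟩,⟨0,[(2,0)]⟩⟩,.o ⟨false,1,⟨3,[(0,0),(0,1),(3,1),(4,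
  1),(1,0)]⟩,⟨0,[(14,0)]⟩⟩,.o ⟨false,1,⟨1,[(4,0),(5,0),(0,0),(2,0)]⟩,⟨0,[(15,0)]⟩⟩,.a ⟨true,0,⟨0,
  [(26,0)]⟩,⟨0,[(23,0)]⟩⟩ ⟨true,0,⟨14,[(1,1),(1,4),(2,3),(1,0),(25,3)]⟩,⟨0,[(25,0),(0,0)]⟩⟩ ⟨false,
  1,⟨17,[(0,11),(0,7),(9,5),(4,0),(17,4)]⟩,⟨0,[(2,0),(23,0)]⟩⟩]⟩) (.R ⟨0,false,false,false,[0,0,1],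
  [0,1,-1],[1,0,1],(⟨0,[(29,0)]⟩,⟨0,[(28,0)]⟩),(⟨0,[(18,0)]⟩,⟨0,[(29,0),(1,0)]⟩),⟨0,[(18,0)]⟩,.k,.k,
  .k,(.r 0 ⟨1,[(0,3),(0,6),(2,3),(0,5),(28,5),(4,3),(0,14)]⟩ ⟨1,[(7,1),(2,1),(5,0),(9,1),(7,0)]⟩),
  .k,.k,⟨false,0,⟨3,[(0,0),(0,1),(0,1),(9,0)]⟩,⟨7,[(7,3),(2,7),(5,2),(7,3),(1,1),(7,4)]⟩⟩,⟨true,0,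
  ⟨0,[(1,0)]⟩,⟨0,[(26,1)]⟩⟩,⟨false,1,⟨1,[(4,0),(5,0),(5,0),(9,1),(12,0)]⟩,⟨14,[(1,1),(1,4),(2,3),(1,
  0),(25,3)]⟩⟩,⟨true,1,⟨1,[(10,1),(5,0),(8,1),(8,0)]⟩,⟨0,[(0,0)]⟩⟩,⟨false,0,⟨0,[]⟩,⟨0,[]⟩⟩,⟨false,0,
  ⟨0,[]⟩,⟨0,[]⟩⟩,[.o ⟨false,1,⟨1,[(1,0),(8,1),(22,0)]⟩,⟨0,[(2,0)]⟩⟩,.o ⟨false,1,⟨5,[(1,3),(2,0),(0,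
  1),(4,4),(23,0),(4,0)]⟩,⟨0,[(14,0)]⟩⟩,.o ⟨false,1,⟨1,[(4,0),(5,0),(0,0),(2,0)]⟩,⟨0,[(15,0)]⟩⟩,.a
  ⟨true,0,⟨0,[(26,0)]⟩,⟨0,[(23,0)]⟩⟩ ⟨true,0,⟨0,[]⟩,⟨0,[(41,0)]⟩⟩ ⟨false,1,⟨2,[(1,1),(8,2),(5,0),
  (17,1)]⟩,⟨0,[(2,0),(23,0)]⟩⟩]⟩)))))))) (.Q [0,0,-1,0,0,0,-2,0,0,0,-2] (.p false [0,0,1] [0,1,-1]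
  (⟨0,[(22,0)]⟩,⟨0,[(21,0)]⟩) .k 2 (⟨0,[(11,0)]⟩,⟨0,[(22,0),(1,0)]⟩) .k (.x (-1) ⟨1,[(2,1),(0,0),(0,
  0),(5,1),(0,1),(7,2)]⟩ ⟨0,[(8,1),(13,1)]⟩)) (.Q [0,1,-1,1,0,0,-2,-1,0,0,-2] (.p false [0,0,1] [0,
  1,-1] (⟨0,[(23,0)]⟩,⟨0,[(22,0)]⟩) .k 2 (⟨0,[(12,0)]⟩,⟨0,[(23,0),(1,0)]⟩) .k (.x (-1) ⟨1,[(3,1),(0,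
  0),(0,0),(5,1),(0,1),(7,2)]⟩ ⟨2,[(0,1),(20,1),(1,5)]⟩)) (.R ⟨0,false,false,true,[0,0,1],[0,1,-1],
  [1,1,1],(⟨0,[(24,0)]⟩,⟨0,[(23,0)]⟩),(⟨0,[(13,0)]⟩,⟨0,[(24,0),(1,0)]⟩),⟨0,[(13,0)]⟩,.k,.k,.k,(.r 0
  ⟨6,[(1,2),(0,7),(1,1),(4,4),(9,0)]⟩ ⟨3,[(5,3),(5,0),(8,3),(0,5),(7,2)]⟩),.k,.k,⟨false,0,⟨1,[(2,1),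
  (1,0),(26,0)]⟩,⟨7,[(5,7),(5,2),(9,5),(6,3),(0,4)]⟩⟩,⟨true,0,⟨0,[(1,0)]⟩,⟨0,[(21,1)]⟩⟩,⟨true,0,⟨0,
  [(20,0),(0,0)]⟩,⟨1,[(2,0),(0,0),(0,0)]⟩⟩,⟨false,1,⟨1,[(5,1),(5,0),(8,1),(8,0)]⟩,⟨0,[(2,1),(1,0),
  (16,1)]⟩⟩,⟨false,0,⟨0,[]⟩,⟨0,[]⟩⟩,⟨false,0,⟨0,[]⟩,⟨0,[]⟩⟩,[.e ⟨false,0,⟨0,[(36,0)]⟩,⟨1,[(33,0),(0,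
  0)]⟩⟩ ⟨false,0,⟨0,[(0,0)]⟩,⟨7,[(2,1),(3,0),(0,3),(1,4),(11,9),(7,0),(4,2)]⟩⟩,.o ⟨false,1,⟨11,[(0,
  3),(4,7),(5,1),(13,2),(2,1),(4,0)]⟩,⟨1,[(2,1),(1,0),(16,1),(9,0)]⟩⟩,.o ⟨false,1,⟨1,[(21,1),(3,0),
  (7,0)]⟩,⟨0,[(10,0)]⟩⟩,.a ⟨true,0,⟨0,[(21,0)]⟩,⟨0,[(18,0)]⟩⟩ ⟨false,0,⟨0,[]⟩,⟨1,[(14,0),(0,0),(18,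
  0)]⟩⟩ ⟨true,0,⟨0,[(0,0)]⟩,⟨1,[(2,1),(1,0),(16,3),(9,0)]⟩⟩]⟩) (.R ⟨0,false,false,true,[0,0,1],[0,1,
  -1],[1,1,1],(⟨0,[(24,0)]⟩,⟨0,[(23,0)]⟩),(⟨0,[(13,0)]⟩,⟨0,[(24,0),(1,0)]⟩),⟨0,[(13,0)]⟩,.k,.k,.k,
  (.r 0 ⟨6,[(1,2),(0,7),(1,1),(4,4),(9,0)]⟩ ⟨3,[(5,3),(5,0),(8,3),(0,5),(7,2)]⟩),.k,.k,⟨false,0,⟨6,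
  [(0,1),(0,2),(0,2),(1,2),(4,1)]⟩,⟨7,[(5,7),(5,2),(9,5),(6,3),(0,4)]⟩⟩,⟨true,0,⟨0,[(1,0)]⟩,⟨0,[(21,
  1)]⟩⟩,⟨true,0,⟨0,[(20,0),(0,0)]⟩,⟨1,[(2,0),(0,0),(0,0)]⟩⟩,⟨false,1,⟨1,[(5,1),(5,0),(8,1),(8,0)]⟩,
  ⟨1,[(0,1),(1,0),(0,0),(0,0)]⟩⟩,⟨false,0,⟨0,[]⟩,⟨0,[]⟩⟩,⟨false,0,⟨0,[]⟩,⟨0,[]⟩⟩,[.a ⟨true,0,⟨0,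
  [(20,0),(11,0)]⟩,⟨1,[(0,1),(10,0),(17,0)]⟩⟩ ⟨false,0,⟨0,[(36,0)]⟩,⟨1,[(33,0),(0,0)]⟩⟩ ⟨true,0,⟨2,
  [(1,0),(18,2),(1,0),(9,2)]⟩,⟨0,[(0,0)]⟩⟩,.o ⟨false,1,⟨1,[(1,0),(3,1),(22,0)]⟩,⟨6,[(0,2),(0,0),(0,
  0),(1,0),(4,2)]⟩⟩,.o ⟨false,1,⟨1,[(21,1),(3,0),(7,0)]⟩,⟨0,[(10,0)]⟩⟩,.e ⟨false,0,⟨0,[]⟩,⟨1,[(14,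
  0),(0,0),(18,0)]⟩⟩ ⟨false,1,⟨11,[(1,3),(3,5),(5,4),(8,5),(8,0),(2,5),(0,5)]⟩,⟨0,[(0,0)]⟩⟩]⟩)) (.R
  ⟨0,false,false,false,[0,1,-1],[0,0,1],[1,0,1,1,0,0,0,-1],(⟨0,[(12,0)]⟩,⟨0,[(23,0),(1,0)]⟩),(⟨0,
  [(23,0)]⟩,⟨0,[(22,0)]⟩),⟨0,[(23,0)]⟩,.k,.k,.k,(.r (-1) ⟨1,[(0,1),(3,1),(5,0),(8,1),(8,0)]⟩ ⟨5,[(1,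
  6),(0,0),(0,2),(4,3),(0,3)]⟩),.k,.k,⟨false,1,⟨5,[(0,3),(3,5),(5,0),(8,5),(8,4)]⟩,⟨5,[(1,6),(0,0),
  (0,2),(4,3),(0,3)]⟩⟩,⟨true,0,⟨0,[(0,0)]⟩,⟨0,[(9,1)]⟩⟩,⟨true,0,⟨0,[]⟩,⟨0,[(35,0)]⟩⟩,⟨false,0,⟨1,
  [(0,1),(0,3),(1,0),(26,0)]⟩,⟨1,[(4,1),(5,0),(8,1),(8,0)]⟩⟩,⟨false,0,⟨0,[]⟩,⟨0,[]⟩⟩,⟨false,0,⟨0,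
  []⟩,⟨0,[]⟩⟩,[.e ⟨false,1,⟨1,[(0,0),(3,1),(5,0),(16,0),(0,0)]⟩,⟨1,[(1,1),(1,0),(26,0)]⟩⟩ ⟨false,0,
  ⟨1,[(0,1),(0,0),(0,0),(0,0)]⟩,⟨2,[(4,0),(1,0),(3,1),(8,1),(4,0),(3,0)]⟩⟩,.o ⟨false,1,⟨21,[(0,3),
  (0,7),(3,7),(0,1),(1,5),(15,6),(8,4)]⟩,⟨0,[(19,0)]⟩⟩,.o ⟨false,1,⟨1,[(10,0),(13,1),(3,0)]⟩,⟨0,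
  [(20,0)]⟩⟩,.a ⟨true,0,⟨0,[(9,0)]⟩,⟨1,[(0,1),(9,0),(17,0)]⟩⟩ ⟨false,1,⟨2,[(0,0),(3,2),(5,0),(17,
  1)]⟩,⟨0,[(1,0),(28,0)]⟩⟩ ⟨true,0,⟨1,[(0,1),(0,0),(0,0),(0,0)]⟩,⟨0,[(9,0),(9,0)]⟩⟩]⟩))) (.Q [0,0,
  -1,0,0,0,-2,0,0,0,-2] (.p false [0,0,1] [0,1,-1] (⟨0,[(21,0)]⟩,⟨0,[(20,0)]⟩) .k 2 (⟨0,[(10,0)]⟩,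
  ⟨0,[(21,0),(1,0)]⟩) .k (.r (-1) ⟨0,[(3,0),(2,0),(1,0)]⟩ ⟨0,[(0,1),(28,1)]⟩)) (.Q [0,-1,0,1,0,0,-2,
  -2,0,0,-2] (.p false [0,0,1] [0,1,-1] (⟨0,[(22,0)]⟩,⟨0,[(21,0)]⟩) .k 2 (⟨0,[(11,0)]⟩,⟨0,[(22,0),
  (1,0)]⟩) .k (.r (-1) ⟨0,[(4,0),(2,0),(1,0)]⟩ ⟨0,[(1,1),(28,1)]⟩)) (.R ⟨0,false,false,false,[0,0,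
  1],[0,1,-1],[1,0,0,0,0,0,0,1],(⟨0,[(23,0)]⟩,⟨0,[(22,0)]⟩),(⟨0,[(12,0)]⟩,⟨0,[(23,0),(1,0)]⟩),⟨0,
  [(12,0)]⟩,.k,.k,.k,(.r (-1) ⟨5,[(1,3),(3,2),(2,8),(1,1),(17,0),(4,2)]⟩ ⟨2,[(0,2),(2,0),(16,5),(6,
  0),(3,0)]⟩),.k,.k,⟨false,1,⟨1,[(1,1),(3,0),(2,2),(19,0),(4,0)]⟩,⟨2,[(0,2),(2,0),(16,5),(6,0),(3,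
  0)]⟩⟩,⟨true,0,⟨0,[(1,0)]⟩,⟨0,[(20,1)]⟩⟩,⟨true,0,⟨0,[]⟩,⟨0,[(35,0)]⟩⟩,⟨false,0,⟨0,[(0,0)]⟩,⟨0,[(8,
  0),(9,0),(14,0)]⟩⟩,⟨false,0,⟨0,[]⟩,⟨0,[]⟩⟩,⟨false,0,⟨0,[]⟩,⟨0,[]⟩⟩,[.e ⟨false,1,⟨1,[(5,0),(2,0),
  (1,0),(21,0)]⟩,⟨1,[(0,0),(2,0),(16,1)]⟩⟩ ⟨false,0,⟨5,[(0,2),(0,2),(1,0),(23,0),(3,3)]⟩,⟨1,[(8,1),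
  (11,1),(11,0),(0,0)]⟩⟩,.o ⟨false,1,⟨12,[(0,5),(3,3),(0,2),(4,1),(13,3),(7,1)]⟩,⟨0,[(8,0)]⟩⟩,.o
  ⟨false,1,⟨1,[(20,1),(3,0),(7,0)]⟩,⟨0,[(9,0)]⟩⟩,.a ⟨true,0,⟨0,[(20,0)]⟩,⟨0,[(17,0)]⟩⟩ ⟨false,1,⟨5,
  [(1,1),(3,2),(2,2),(1,0),(17,1),(4,2)]⟩,⟨7,[(0,1),(1,1),(16,1),(0,6),(0,0)]⟩⟩ ⟨true,0,⟨5,[(0,2),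
  (0,2),(1,0),(23,0),(3,3)]⟩,⟨0,[(8,0),(11,0)]⟩⟩]⟩) (.R ⟨0,false,false,false,[0,0,1],[0,1,-1],[1,1,
  1],(⟨0,[(23,0)]⟩,⟨0,[(22,0)]⟩),(⟨0,[(12,0)]⟩,⟨0,[(23,0),(1,0)]⟩),⟨0,[(12,0)]⟩,.k,.k,.k,(.r (-1)
  ⟨7,[(0,6),(0,1),(3,1),(0,2),(3,5),(13,1),(8,0)]⟩ ⟨1,[(2,3),(17,0),(0,0),(9,5)]⟩),.k,.k,⟨false,0,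
  ⟨3,[(0,1),(0,1),(1,0),(26,0)]⟩,⟨3,[(4,3),(5,0),(9,1),(7,2)]⟩⟩,⟨true,0,⟨0,[(1,0)]⟩,⟨0,[(20,1)]⟩⟩,
  ⟨false,0,⟨1,[(2,1),(17,0),(0,0),(9,1)]⟩,⟨11,[(0,2),(0,1),(3,5),(0,2),(3,3),(17,1),(4,2)]⟩⟩,⟨true,
  0,⟨2,[(1,1),(0,5),(18,1),(9,8)]⟩,⟨0,[(0,0)]⟩⟩,⟨false,0,⟨0,[]⟩,⟨0,[]⟩⟩,⟨false,0,⟨0,[]⟩,⟨0,[]⟩⟩,[.e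
  ⟨false,0,⟨0,[(35,0)]⟩,⟨1,[(32,0),(0,0)]⟩⟩ ⟨false,0,⟨0,[(1,0),(0,0),(28,1)]⟩,⟨1,[(0,0),(19,1),(9,
  0),(1,0),(0,0)]⟩⟩,.o ⟨false,1,⟨2,[(1,1),(0,1),(1,1),(0,0),(25,1)]⟩,⟨0,[(8,0)]⟩⟩,.o ⟨false,1,⟨1,
  [(20,1),(3,0),(7,0)]⟩,⟨0,[(9,0)]⟩⟩,.a ⟨true,0,⟨0,[(20,0)]⟩,⟨0,[(17,0)]⟩⟩ ⟨false,0,⟨0,[]⟩,⟨1,[(13,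
  0),(0,0),(18,0)]⟩⟩ ⟨true,0,⟨0,[(1,0),(0,0),(28,1)]⟩,⟨1,[(0,0),(19,1),(9,0)]⟩⟩]⟩)) (.K ⟨0,[0,1,-1],
  0,0,(⟨0,[(11,0)]⟩,⟨0,[(22,0),(1,0)]⟩),.k,.k,(.r 0 ⟨0,[(1,0),(17,0),(0,0),(9,2)]⟩ ⟨0,[(5,0),(1,0),
  (0,0)]⟩),(.r 0 ⟨1,[(1,3),(17,0),(0,0),(9,5)]⟩ ⟨1,[(4,0),(2,2),(0,3),(18,0),(4,0)]⟩),.k,[⟨0,[(0,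
  0)]⟩,⟨0,[(8,0)]⟩,⟨0,[(7,0)]⟩,⟨0,[(18,0),(11,0)]⟩]⟩)))) (.I [0,-1,0,0,1,0,0,-1] (.R ⟨0,false,false,
  true,[0,0,1],[1,-1,1],[0,1,0,-1,0,0,0,1],(⟨0,[(20,0)]⟩,⟨0,[(19,0)]⟩),(⟨0,[(20,0),(1,0)]⟩,⟨0,[(9,
  0)]⟩),⟨0,[(9,0)]⟩,.k,.k,.k,.k,.k,.k,⟨true,0,⟨1,[(17,0),(0,0)]⟩,⟨0,[]⟩⟩,⟨false,0,⟨1,[(7,0),(9,1),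
  (7,0)]⟩,⟨1,[(21,0),(7,0)]⟩⟩,⟨true,0,⟨0,[(27,0)]⟩,⟨0,[(28,0)]⟩⟩,⟨false,0,⟨1,[(0,1),(0,1),(15,0),(0,
  0)]⟩,⟨1,[(21,0),(6,1),(1,0)]⟩⟩,⟨false,0,⟨0,[]⟩,⟨0,[]⟩⟩,⟨false,0,⟨0,[]⟩,⟨0,[]⟩⟩,[.e ⟨false,0,⟨4,
  [(1,2),(3,1),(1,0),(13,1),(7,0)]⟩,⟨0,[(0,0),(27,0)]⟩⟩ ⟨false,(-1),⟨0,[(1,0)]⟩,⟨0,[(0,0),(1,0),(13,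
  0)]⟩⟩,.o ⟨false,0,⟨1,[(1,1),(15,1),(3,0),(8,0)]⟩,⟨1,[(16,1),(4,0),(6,1),(1,0)]⟩⟩,.o ⟨false,1,⟨1,
  [(17,1),(3,0),(7,0)]⟩,⟨0,[(6,0)]⟩⟩,.a ⟨true,0,⟨0,[(17,0)]⟩,⟨0,[(14,0)]⟩⟩ ⟨false,0,⟨1,[(1,1),(19,
  0),(8,0)]⟩,⟨1,[(0,1),(16,0),(0,0),(9,1)]⟩⟩ ⟨true,(-1),⟨0,[(1,0)]⟩,⟨3,[(0,1),(15,1),(0,2),(0,0),(2,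
  1),(6,3)]⟩⟩]⟩) (.R ⟨0,false,false,true,[0,0,1],[1,-1,1],[1,1,-1,-1,0,0,0,1],(⟨0,[(20,0)]⟩,⟨0,[(19,
  0)]⟩),(⟨0,[(20,0),(1,0)]⟩,⟨0,[(9,0)]⟩),⟨0,[(9,0)]⟩,.k,.k,.k,.k,.k,.k,⟨true,0,⟨0,[]⟩,⟨1,[(17,0),(0,
  0)]⟩⟩,⟨false,0,⟨1,[(7,0),(9,1),(7,0)]⟩,⟨1,[(21,0),(7,0)]⟩⟩,⟨true,0,⟨0,[(26,0)]⟩,⟨1,[(17,0),(0,0),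
  (9,1)]⟩⟩,⟨false,0,⟨0,[(1,0),(14,0),(0,0),(12,0)]⟩,⟨1,[(21,0),(6,1),(1,0)]⟩⟩,⟨false,0,⟨0,[]⟩,⟨0,
  []⟩⟩,⟨false,0,⟨0,[]⟩,⟨0,[]⟩⟩,[.e ⟨false,0,⟨1,[(1,1),(19,0),(7,0)]⟩,⟨0,[(16,0),(0,0),(10,0),(1,
  0)]⟩⟩ ⟨false,(-1),⟨0,[(1,0)]⟩,⟨1,[(16,1),(0,1),(3,0),(6,1),(0,0),(0,1)]⟩⟩,.o ⟨false,0,⟨1,[(1,1),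
  (15,1),(3,0),(8,0)]⟩,⟨1,[(16,1),(4,0),(6,1),(1,0)]⟩⟩,.o ⟨false,1,⟨1,[(17,1),(3,0),(7,0)]⟩,⟨0,[(6,
  0)]⟩⟩,.a ⟨true,0,⟨0,[(17,0)]⟩,⟨0,[(14,0)]⟩⟩ ⟨false,0,⟨0,[(0,0),(2,0)]⟩,⟨1,[(16,1),(0,2),(0,0),(9,
  1),(1,1)]⟩⟩ ⟨true,(-1),⟨0,[(1,0)]⟩,⟨1,[(16,1),(0,1),(3,0),(6,1),(1,0)]⟩⟩]⟩))) (.I [0,0,0,-1,0,0,0,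
  -1] (.R ⟨0,false,false,true,[0,0,1],[1,-1],[0,1,0,-1],(⟨0,[(19,0)]⟩,⟨0,[(18,0)]⟩),(⟨0,[(21,0)]⟩,
  ⟨0,[(22,0)]⟩),⟨0,[(8,0)]⟩,.k,.k,.k,.k,.k,.k,⟨true,0,⟨1,[(16,0),(0,0)]⟩,⟨0,[]⟩⟩,⟨false,0,⟨3,[(6,2),
  (9,1),(7,0)]⟩,⟨0,[(16,0),(3,0),(3,0)]⟩⟩,⟨false,0,⟨0,[(0,0)]⟩,⟨0,[(5,0),(8,0),(12,0),(1,0)]⟩⟩,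
  ⟨true,(-1),⟨0,[(1,0)]⟩,⟨1,[(14,1),(5,0),(6,1),(1,0)]⟩⟩,⟨false,0,⟨0,[]⟩,⟨0,[]⟩⟩,⟨false,0,⟨0,[]⟩,⟨0,
  []⟩⟩,[.o ⟨false,0,⟨0,[(26,0)]⟩,⟨1,[(20,0),(6,1),(1,0)]⟩⟩,.e ⟨false,1,⟨1,[(26,1),(1,0),(0,0)]⟩,⟨0,
  [(27,0)]⟩⟩ ⟨false,0,⟨1,[(1,0),(2,0),(0,1),(18,0),(4,0)]⟩,⟨1,[(16,1),(3,0),(6,1),(0,0)]⟩⟩,.o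
  ⟨false,1,⟨1,[(16,1),(3,0),(7,0)]⟩,⟨0,[(5,0)]⟩⟩,.a ⟨true,0,⟨0,[(16,0)]⟩,⟨0,[(13,0)]⟩⟩ ⟨true,0,⟨0,
  [(25,0)]⟩,⟨1,[(16,0),(0,0),(9,1)]⟩⟩ ⟨false,0,⟨1,[(1,0),(2,0),(0,1),(18,0),(4,0)]⟩,⟨1,[(16,1),(3,
  0),(6,1),(1,0)]⟩⟩]⟩) (.I [0,0,0,0,0,0,0,-1] (.S ⟨1,0,[0,0,0,0,0,0,0,-1],[1,0,-1],[1,1],(⟨0,[(19,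
  0)]⟩,⟨0,[(20,0)]⟩),⟨0,[(8,0)]⟩,.k,.k,⟨true,0,⟨3,[(1,1),(3,1),(0,0),(11,0),(5,0)]⟩,⟨0,[(0,0)]⟩⟩,
  ⟨false,1,⟨1,[(10,0),(0,0),(18,0)]⟩,⟨0,[]⟩⟩,⟨false,0,⟨0,[(1,0)]⟩,⟨0,[(0,0),(26,0),(2,0)]⟩⟩,⟨true,0,
  ⟨0,[(28,0)]⟩,⟨0,[(27,0)]⟩⟩,[.o ⟨false,0,⟨0,[(0,0),(5,0)]⟩,⟨1,[(15,1),(5,0),(8,0)]⟩⟩,.a ⟨true,0,⟨0,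
  [(2,0),(25,0),(1,0)]⟩,⟨0,[(15,0)]⟩⟩ ⟨true,0,⟨0,[]⟩,⟨1,[(17,0),(0,0)]⟩⟩ ⟨false,1,⟨1,[(0,1),(28,0),
  (0,0)]⟩,⟨3,[(1,1),(3,1),(0,0),(11,0),(5,0)]⟩⟩,.o ⟨false,0,⟨0,[(6,0)]⟩,⟨1,[(17,1),(3,0),(7,0)]⟩⟩,
  .o ⟨false,0,⟨0,[(18,0)]⟩,⟨0,[(17,0),(3,0),(3,0)]⟩⟩]⟩) (.R ⟨0,false,false,false,[0,1,-1],[0,1,1],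
  [1,0,1,1,0,0,0,1],(⟨0,[(9,0)]⟩,⟨0,[(20,0),(1,0)]⟩),(⟨0,[(20,0),(2,0)]⟩,⟨0,[(8,0)]⟩),⟨0,[(20,0)]⟩,
  .k,.k,.k,.k,.k,.k,⟨true,0,⟨0,[]⟩,⟨1,[(17,0),(0,0)]⟩⟩,⟨false,1,⟨1,[(17,3),(3,0),(3,1),(3,0)]⟩,⟨0,
  [(6,1)]⟩⟩,⟨true,0,⟨0,[(0,1)]⟩,⟨1,[(2,3),(14,3),(3,2),(3,1),(2,3),(1,0)]⟩⟩,⟨false,1,⟨0,[(0,0),(0,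
  0),(1,0),(13,1)]⟩,⟨0,[(2,1),(18,0),(6,1),(1,0)]⟩⟩,⟨false,0,⟨0,[]⟩,⟨0,[]⟩⟩,⟨false,0,⟨0,[]⟩,⟨0,[]⟩⟩,
  [.o ⟨false,1,⟨1,[(15,1),(5,0),(6,1),(1,0)]⟩,⟨1,[(2,1),(18,0),(8,0)]⟩⟩,.e ⟨false,1,⟨1,[(1,1),(8,0),
  (0,0),(18,0)]⟩,⟨0,[(2,0),(14,0),(3,0),(3,0)]⟩⟩ ⟨false,1,⟨1,[(1,1),(15,3),(3,0),(3,1),(4,0)]⟩,⟨1,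
  [(2,1),(4,0),(13,1),(3,0)]⟩⟩,.o ⟨false,1,⟨1,[(7,0),(13,1),(3,0)]⟩,⟨0,[(17,0)]⟩⟩,.a ⟨true,0,⟨0,[(6,
  0)]⟩,⟨3,[(7,0),(9,5),(7,2)]⟩⟩ ⟨true,0,⟨0,[(1,0)]⟩,⟨6,[(2,4),(0,1),(12,1),(0,6),(3,2),(2,0),(0,
  0)]⟩⟩ ⟨false,1,⟨1,[(1,1),(15,3),(3,0),(3,1),(4,0)]⟩,⟨1,[(2,1),(3,1),(14,0),(8,0)]⟩⟩]⟩))))

theorem ok2 : chk K t2 l3 = true := by decide +kernel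

noncomputable def t3 : Tre :=
  (.Q [0,0,0,-1,0,0,0,0,0,1] (.pp false [-1,1]) (.S ⟨1,0,[0,1,-1,-1],[1,-1],[0,0,-1,-1],(⟨0,[(20,
  0)]⟩,⟨0,[(21,0)]⟩),⟨0,[(2,0)]⟩,.k,(.r (-1) ⟨0,[(24,1),(3,0)]⟩ ⟨1,[(1,1),(6,0),(0,0),(16,1),(1,
  0)]⟩),⟨false,1,⟨1,[(8,0),(0,0),(18,0)]⟩,⟨0,[]⟩⟩,⟨true,0,⟨0,[(30,0)]⟩,⟨0,[]⟩⟩,⟨true,0,⟨0,[(26,0)]⟩,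
  ⟨0,[(25,0)]⟩⟩,⟨false,0,⟨0,[(26,0)]⟩,⟨0,[(25,0),(2,0)]⟩⟩,[.o ⟨false,0,⟨0,[(25,0)]⟩,⟨1,[(19,0),(6,
  1),(1,0)]⟩⟩,.a ⟨true,0,⟨0,[(0,0)]⟩,⟨0,[(26,0)]⟩⟩ ⟨true,1,⟨0,[(24,0),(3,0)]⟩,⟨0,[(1,0)]⟩⟩ ⟨false,1,
  ⟨1,[(24,1),(2,0),(0,0)]⟩,⟨3,[(1,1),(6,0),(0,0),(16,1),(1,0)]⟩⟩,.o ⟨false,0,⟨1,[(15,0),(0,0)]⟩,⟨1,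
  [(19,0),(7,0)]⟩⟩,.o ⟨false,0,⟨0,[(15,0),(0,0)]⟩,⟨0,[(19,0),(3,0)]⟩⟩]⟩) (.Q [0,1,0,-2,0,0,0,0,0,1]
  (.pp false [-1,1]) (.R ⟨1,true,false,false,[1,-1],[0,1],[1,0,1,1],(⟨0,[(21,0)]⟩,⟨0,[(22,0)]⟩),(⟨0,
  [(22,0)]⟩,⟨0,[(21,0)]⟩),⟨0,[(3,0)]⟩,.k,.k,(.r (-1) ⟨0,[(25,1),(3,0)]⟩ ⟨1,[(2,1),(6,0),(0,0),(16,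
  1),(1,0)]⟩),(.r (-1) ⟨0,[(25,1),(3,0)]⟩ ⟨1,[(2,1),(6,0),(0,0),(16,1),(1,0)]⟩),(.r (-2) ⟨3,[(0,1),
  (19,0),(4,7),(2,1),(0,4)]⟩ ⟨1,[(1,0),(0,3),(21,0),(2,0),(1,1)]⟩),.k,⟨true,0,⟨0,[]⟩,⟨1,[(16,0),(0,
  0)]⟩⟩,⟨false,1,⟨1,[(1,1),(18,0),(3,1),(0,1),(3,0)]⟩,⟨0,[(6,0),(9,1)]⟩⟩,⟨false,0,⟨0,[(2,0),(24,0),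
  (1,0)]⟩,⟨0,[(25,1),(3,0)]⟩⟩,⟨true,0,⟨0,[(1,0),(25,0)]⟩,⟨0,[(0,0)]⟩⟩,⟨true,(-1),⟨0,[(1,0),(0,1),
  (21,0),(4,0)]⟩,⟨3,[(0,1),(19,0),(4,7),(3,2)]⟩⟩,⟨false,0,⟨0,[(1,1),(0,0),(21,0),(4,0)]⟩,⟨3,[(0,5),
  (19,0),(8,2)]⟩⟩,[]⟩) (.Q [0,-1,0,-2,1,0,0,0,0,1] (.pp false [-1,1]) (.R ⟨1,true,false,true,[1,-1],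
  [0,1],[1,1,1,1],(⟨0,[(22,0)]⟩,⟨0,[(23,0)]⟩),(⟨0,[(23,0)]⟩,⟨0,[(22,0)]⟩),⟨0,[(4,0)]⟩,.k,.k,(.r
  (-1) ⟨0,[(26,1),(3,0)]⟩ ⟨1,[(3,1),(6,0),(0,0),(16,1),(1,0)]⟩),(.r (-1) ⟨0,[(26,1),(3,0)]⟩ ⟨1,[(3,
  1),(6,0),(0,0),(16,1),(1,0)]⟩),(.r (-2) ⟨0,[(0,0),(20,0),(3,0),(0,0)]⟩ ⟨3,[(1,0),(1,6),(21,0),(2,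
  2),(1,2)]⟩),.k,⟨true,0,⟨0,[]⟩,⟨1,[(17,0),(0,0)]⟩⟩,⟨false,1,⟨3,[(1,1),(19,2),(3,3),(0,3),(3,0)]⟩,
  ⟨0,[(7,0),(9,1)]⟩⟩,⟨true,(-1),⟨0,[(3,0),(24,0)]⟩,⟨0,[(26,1),(3,0)]⟩⟩,⟨false,0,⟨6,[(1,4),(1,0),(17,
  0),(2,1),(3,2)]⟩,⟨0,[(0,0)]⟩⟩,⟨false,(-1),⟨1,[(1,0),(1,2),(21,0),(2,0),(1,0)]⟩,⟨3,[(0,1),(20,0),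
  (4,7),(3,4)]⟩⟩,⟨true,(-1),⟨0,[(2,1),(0,0),(21,0)]⟩,⟨0,[(0,0),(26,0)]⟩⟩,[]⟩) (.I [0,0,1,0,0,0,0,1]
  (.Q [0,0,0,0,0,0,1,1,0,0,1] (.p true [0,0,1] [] (⟨0,[(21,0)]⟩,⟨0,[(20,0)]⟩) .k 0 (⟨0,[]⟩,⟨0,[]⟩)
  .k .k) (.Q [0,0,0,1,0,0,-1,-1,0,0,-1] (.p false [0,0,1] [] (⟨0,[(22,0)]⟩,⟨0,[(21,0)]⟩) .k 0 (⟨0,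
  []⟩,⟨0,[]⟩) .k .k) (.R ⟨2,true,false,false,[0,1],[0,0,1],[0,1,1,1],(⟨0,[]⟩,⟨0,[]⟩),(⟨0,[(23,0)]⟩,
  ⟨0,[(22,0)]⟩),⟨0,[]⟩,.k,.k,.k,.k,.k,.k,⟨false,0,⟨4,[(0,2),(2,0),(15,1),(0,4),(6,0),(0,0),(3,0)]⟩,
  ⟨0,[(1,0),(7,0),(19,0),(3,0)]⟩⟩,⟨true,0,⟨0,[(20,0)]⟩,⟨0,[(9,0)]⟩⟩,⟨true,0,⟨0,[(35,0)]⟩,⟨0,[]⟩⟩,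
  ⟨false,1,⟨0,[(8,0),(24,0)]⟩,⟨0,[(0,0)]⟩⟩,⟨false,0,⟨0,[(31,0)]⟩,⟨0,[(30,0),(2,0)]⟩⟩,⟨true,0,⟨0,[(1,
  0)]⟩,⟨0,[(19,0)]⟩⟩,[]⟩) (.Q [0,0,-1,0,0,0,-2,0,0,0,-2] (.p false [0,0,1] [0,1,-1] (⟨0,[(23,0)]⟩,
  ⟨0,[(22,0)]⟩) .k 2 (⟨0,[(12,0)]⟩,⟨0,[(23,0),(1,0)]⟩) .k (.x (-1) ⟨0,[(11,0),(0,0),(7,1),(3,0),(3,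
  0)]⟩ ⟨0,[(9,1),(13,1)]⟩)) (.I [1,1,0,0,-1,0,0,1] (.R ⟨0,false,false,true,[0,0,1],[1,0,-1],[],(⟨0,
  [(25,0)]⟩,⟨0,[(24,0)]⟩),(⟨0,[(24,0)]⟩,⟨0,[(25,0)]⟩),⟨0,[(14,0)]⟩,.k,.k,.k,.k,.k,.k,⟨true,0,⟨0,[(0,
  0),(34,0)]⟩,⟨0,[(21,0),(0,0)]⟩⟩,⟨false,0,⟨2,[(1,0),(10,1),(17,0)]⟩,⟨0,[(22,1),(3,0),(3,0)]⟩⟩,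
  ⟨true,1,⟨1,[(21,1),(0,1),(11,0),(0,0)]⟩,⟨0,[(0,0)]⟩⟩,⟨false,1,⟨1,[(12,0),(8,3),(0,1),(7,0),(4,
  1)]⟩,⟨0,[(2,1),(3,0)]⟩⟩,⟨false,0,⟨0,[]⟩,⟨0,[]⟩⟩,⟨false,0,⟨0,[]⟩,⟨0,[]⟩⟩,[.o ⟨false,0,⟨0,[(21,0)]⟩,
  ⟨1,[(3,1),(22,0),(8,0)]⟩⟩,.o ⟨false,1,⟨1,[(15,0),(0,0),(4,1),(13,0)]⟩,⟨3,[(2,3),(2,0),(0,0),(19,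
  0)]⟩⟩,.o ⟨false,1,⟨1,[(22,1),(3,0),(7,0)]⟩,⟨0,[(11,0)]⟩⟩,.a ⟨true,0,⟨0,[(22,0)]⟩,⟨0,[(19,0)]⟩⟩
  ⟨false,1,⟨1,[(34,0),(0,0)]⟩,⟨1,[(22,0),(0,0)]⟩⟩ ⟨true,0,⟨1,[(12,0),(8,1),(8,0)]⟩,⟨3,[(2,3),(2,0),
  (0,0),(15,3),(3,0)]⟩⟩]⟩) (.Q [0,-1,0,1,1,0,-2,-2,0,0,-2] (.p false [0,0,1] [0,1,-1] (⟨0,[(25,0)]⟩,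
  ⟨0,[(24,0)]⟩) .k 2 (⟨0,[(14,0)]⟩,⟨0,[(25,0),(1,0)]⟩) .k (.x (-1) ⟨0,[(13,0),(0,0),(7,1),(3,0),(3,
  0)]⟩ ⟨2,[(1,1),(21,1),(1,5)]⟩)) (.R ⟨0,false,false,false,[0,0,1],[0,1,-1],[1,0,0,0,0,0,0,1],(⟨0,
  [(26,0)]⟩,⟨0,[(25,0)]⟩),(⟨0,[(15,0)]⟩,⟨0,[(26,0),(1,0)]⟩),⟨0,[(15,0)]⟩,.k,.k,.k,(.r 0 ⟨0,[(2,0),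
  (0,0),(0,0)]⟩ ⟨8,[(0,6),(0,2),(4,0),(15,0),(0,14),(6,3),(0,0)]⟩),.k,.k,⟨false,0,⟨5,[(2,5),(0,9),
  (0,1),(1,0),(0,0),(23,1),(3,0)]⟩,⟨8,[(0,6),(0,2),(4,0),(15,0),(0,14),(6,3),(0,0)]⟩⟩,⟨true,0,⟨0,
  [(2,0)]⟩,⟨0,[(23,1)]⟩⟩,⟨true,0,⟨0,[]⟩,⟨0,[(38,0)]⟩⟩,⟨false,1,⟨0,[(0,0)]⟩,⟨0,[(3,0),(0,0)]⟩⟩,
  ⟨false,0,⟨0,[]⟩,⟨0,[]⟩⟩,⟨false,0,⟨0,[]⟩,⟨0,[]⟩⟩,[.o ⟨false,1,⟨31,[(0,22),(5,3),(2,0),(11,13),(5,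
  13),(2,1)]⟩,⟨0,[(3,0)]⟩⟩,.o ⟨false,1,⟨7,[(0,3),(6,1),(19,2),(8,0)]⟩,⟨0,[(11,0)]⟩⟩,.o ⟨false,1,⟨1,
  [(23,1),(3,0),(7,0)]⟩,⟨0,[(12,0)]⟩⟩,.a ⟨true,0,⟨0,[(23,0)]⟩,⟨0,[(20,0)]⟩⟩ ⟨true,0,⟨11,[(2,5),(0,
  3),(0,7),(1,0),(0,0),(23,1),(3,0)]⟩,⟨0,[(22,0),(0,0)]⟩⟩ ⟨false,1,⟨7,[(0,3),(1,1),(4,1),(5,1),(21,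
  2),(0,0)]⟩,⟨0,[(3,0),(19,0)]⟩⟩]⟩) (.R ⟨0,false,false,false,[0,0,1],[0,1,-1],[1,0,1],(⟨0,[(26,0)]⟩,
  ⟨0,[(25,0)]⟩),(⟨0,[(15,0)]⟩,⟨0,[(26,0),(1,0)]⟩),⟨0,[(15,0)]⟩,.k,.k,.k,(.r 0 ⟨9,[(0,5),(1,7),(0,3),
  (1,3),(29,2),(0,2)]⟩ ⟨8,[(1,16),(4,0),(2,6),(12,0),(0,0),(6,3),(0,0)]⟩),.k,.k,⟨false,0,⟨1,[(0,0),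
  (1,0),(29,0),(3,0)]⟩,⟨4,[(1,4),(7,0),(6,0),(0,0),(12,1),(3,3)]⟩⟩,⟨true,0,⟨0,[(2,0)]⟩,⟨0,[(23,
  1)]⟩⟩,⟨false,1,⟨1,[(1,1),(21,0),(0,0)]⟩,⟨19,[(0,3),(1,9),(1,11),(2,1),(23,1),(3,2),(0,0)]⟩⟩,⟨true,
  1,⟨8,[(1,7),(5,1),(5,3),(8,9),(4,0),(6,4)]⟩,⟨0,[(0,0)]⟩⟩,⟨false,0,⟨0,[]⟩,⟨0,[]⟩⟩,⟨false,0,⟨0,[]⟩,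
  ⟨0,[]⟩⟩,[.o ⟨false,1,⟨8,[(1,3),(5,0),(5,1),(8,4),(4,4),(6,6)]⟩,⟨0,[(3,0)]⟩⟩,.o ⟨false,1,⟨3,[(1,2),
  (0,0),(4,1),(14,0),(1,0),(2,0)]⟩,⟨0,[(11,0)]⟩⟩,.o ⟨false,1,⟨1,[(23,1),(3,0),(7,0)]⟩,⟨0,[(12,0)]⟩⟩,
  .a ⟨true,0,⟨0,[(23,0)]⟩,⟨0,[(20,0)]⟩⟩ ⟨true,0,⟨0,[]⟩,⟨0,[(38,0)]⟩⟩ ⟨false,1,⟨23,[(1,17),(0,9),(4,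
  11),(5,10),(8,5),(8,0),(3,5)]⟩,⟨0,[(3,0),(19,0)]⟩⟩]⟩))) (.K ⟨0,[0,1,-1],0,0,(⟨0,[(13,0)]⟩,⟨0,[(24,
  0),(1,0)]⟩),.k,.k,(.r 0 ⟨7,[(0,3),(4,0),(1,6),(12,7),(8,0),(2,6),(1,6)]⟩ ⟨1,[(1,1),(9,0),(13,0),
  (3,0),(0,1),(3,0)]⟩),(.r (-1) ⟨0,[(0,0),(19,1),(11,0),(1,0)]⟩ ⟨3,[(1,7),(2,0),(0,0),(4,3),(0,1),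
  (13,0),(3,1)]⟩),.k,[⟨0,[(0,0)]⟩,⟨0,[(10,0)]⟩,⟨0,[(9,0)]⟩,⟨0,[(20,0),(11,0)]⟩]⟩))) (.I [0,0,0,0,0,
  0,0,1] (.R ⟨0,false,false,true,[0,0,1],[1,0,-1],[1,1,0,0,0,0,0,-1],(⟨0,[(23,0)]⟩,⟨0,[(22,0)]⟩),
  (⟨0,[(22,0)]⟩,⟨0,[(23,0)]⟩),⟨0,[(12,0)]⟩,.k,.k,.k,.k,.k,.k,⟨true,0,⟨0,[]⟩,⟨1,[(20,0),(0,0)]⟩⟩,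
  ⟨false,0,⟨1,[(9,1),(0,0),(17,0)]⟩,⟨0,[(20,1),(3,0),(3,0)]⟩⟩,⟨true,0,⟨2,[(1,5),(1,0),(16,5),(7,0),
  (0,1),(2,0)]⟩,⟨0,[(0,1)]⟩⟩,⟨false,0,⟨1,[(1,3),(8,0),(9,1),(7,0)]⟩,⟨0,[(4,0),(3,1),(24,0)]⟩⟩,
  ⟨false,0,⟨0,[]⟩,⟨0,[]⟩⟩,⟨false,0,⟨0,[]⟩,⟨0,[]⟩⟩,[.o ⟨false,0,⟨0,[(19,0)]⟩,⟨3,[(4,1),(3,3),(15,0),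
  (8,2)]⟩⟩,.o ⟨false,0,⟨0,[(1,0)]⟩,⟨1,[(18,1),(5,0),(8,0)]⟩⟩,.o ⟨false,1,⟨1,[(20,1),(3,0),(7,0)]⟩,
  ⟨0,[(9,0)]⟩⟩,.a ⟨true,0,⟨0,[(20,0)]⟩,⟨0,[(17,0)]⟩⟩ ⟨true,0,⟨2,[(1,2),(1,0),(16,2),(7,0),(0,1),(2,
  0)]⟩,⟨0,[(2,0)]⟩⟩ ⟨false,0,⟨1,[(1,1),(8,0),(17,0)]⟩,⟨3,[(4,1),(3,3),(11,3),(3,0),(8,2)]⟩⟩]⟩) (.Q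
  [0,0,0,-1,0,0,-2,-2,0,1,-2] (.p false [0,0,1] [1,0,-1] (⟨0,[(23,0)]⟩,⟨0,[(22,0)]⟩) .k 2 (⟨0,[(22,
  0)]⟩,⟨0,[(23,0)]⟩) .k (.x (-1) ⟨0,[(11,0),(0,0),(7,1),(3,0),(3,0)]⟩ ⟨0,[(9,1),(13,1)]⟩)) (.R ⟨1,
  true,false,false,[1,0,-1],[0,1,1],[1,0,1,1,0,0,0,1],(⟨0,[(23,0)]⟩,⟨0,[(24,0)]⟩),(⟨0,[(24,0),(2,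
  0)]⟩,⟨0,[(12,0)]⟩),⟨0,[(12,0)]⟩,.k,.k,.k,(.r (-1) ⟨1,[(1,3),(29,1),(1,0),(0,0)]⟩ ⟨3,[(3,5),(1,1),
  (5,0),(7,1),(9,0)]⟩),(.r (-1) ⟨0,[(1,1),(28,1),(3,0)]⟩ ⟨0,[(3,1),(28,1)]⟩),.k,⟨true,0,⟨0,[]⟩,⟨1,
  [(21,0),(0,0)]⟩⟩,⟨false,1,⟨1,[(1,3),(3,1),(3,3),(15,0),(3,1),(4,0)]⟩,⟨1,[(11,1),(9,0),(0,0)]⟩⟩,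
  ⟨true,0,⟨3,[(3,5),(1,1),(5,0),(7,1),(9,0)]⟩,⟨0,[(1,1),(28,0)]⟩⟩,⟨false,1,⟨0,[(5,0),(3,0),(9,0),
  (14,0)]⟩,⟨0,[(0,0)]⟩⟩,⟨false,0,⟨3,[(3,7),(1,2),(1,0),(21,2),(2,0),(1,0)]⟩,⟨0,[(1,1),(28,0),(0,0),
  (2,0)]⟩⟩,⟨true,0,⟨1,[(3,0),(1,2),(3,1),(9,0),(1,0),(7,0)]⟩,⟨0,[(0,0),(30,0)]⟩⟩,[]⟩) (.I [0,0,0,0,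
  0,0,0,-1] (.Q [0,0,-1,0,0,0,-2,0,0,0,-2] (.p false [0,0,1] [0,1,-1] (⟨0,[(25,0)]⟩,⟨0,[(24,0)]⟩)
  .k 2 (⟨0,[(14,0)]⟩,⟨0,[(25,0),(1,0)]⟩) .k (.r (-1) ⟨0,[(4,1),(29,0)]⟩ ⟨0,[(0,1)]⟩)) (.Q [0,-1,0,1,
  0,0,-2,-2,0,0,-2] (.p false [0,0,1] [0,1,-1] (⟨0,[(26,0)]⟩,⟨0,[(25,0)]⟩) .k 2 (⟨0,[(15,0)]⟩,⟨0,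
  [(26,0),(1,0)]⟩) .k (.r (-1) ⟨0,[(5,1),(29,0)]⟩ ⟨0,[(1,1)]⟩)) (.R ⟨0,false,false,false,[0,0,1],[0,
  1,-1],[1,0,0,0,0,0,0,1],(⟨0,[(27,0)]⟩,⟨0,[(26,0)]⟩),(⟨0,[(16,0)]⟩,⟨0,[(27,0),(1,0)]⟩),⟨0,[(16,
  0)]⟩,.k,.k,.k,(.r (-1) ⟨11,[(1,5),(1,3),(8,15),(1,5),(13,0),(7,2),(0,7)]⟩ ⟨2,[(0,0),(3,2),(18,0),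
  (0,2),(10,1)]⟩),.k,.k,⟨false,1,⟨8,[(1,7),(1,2),(8,11),(1,0),(17,1),(3,2),(0,5)]⟩,⟨2,[(0,0),(3,2),
  (18,0),(0,2),(10,1)]⟩⟩,⟨true,0,⟨0,[(1,0)]⟩,⟨0,[(24,1)]⟩⟩,⟨true,0,⟨0,[]⟩,⟨0,[(39,0)]⟩⟩,⟨false,0,⟨0,
  [(0,0)]⟩,⟨0,[(12,0),(9,0),(14,0)]⟩⟩,⟨false,0,⟨0,[]⟩,⟨0,[]⟩⟩,⟨false,0,⟨0,[]⟩,⟨0,[]⟩⟩,[.o ⟨false,0,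
  ⟨5,[(0,2),(6,1),(20,1),(5,0)]⟩,⟨1,[(12,1),(4,0),(0,0),(18,0)]⟩⟩,.o ⟨false,1,⟨3,[(0,1),(16,0),(0,
  0),(9,1),(6,1),(1,0)]⟩,⟨0,[(12,0)]⟩⟩,.o ⟨false,1,⟨1,[(24,1),(3,0),(7,0)]⟩,⟨0,[(13,0)]⟩⟩,.a ⟨true,
  0,⟨0,[(24,0)]⟩,⟨0,[(21,0)]⟩⟩ ⟨false,1,⟨17,[(1,3),(1,5),(8,5),(1,4),(17,0),(3,5),(0,11)]⟩,⟨1,[(0,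
  0),(23,1),(9,0)]⟩⟩ ⟨true,0,⟨23,[(0,11),(0,6),(5,5),(6,4),(16,2),(0,0),(3,5)]⟩,⟨0,[(12,0),(11,
  0)]⟩⟩]⟩) (.R ⟨0,false,false,false,[0,0,1],[0,1,-1],[1,1,1],(⟨0,[(27,0)]⟩,⟨0,[(26,0)]⟩),(⟨0,[(16,
  0)]⟩,⟨0,[(27,0),(1,0)]⟩),⟨0,[(16,0)]⟩,.k,.k,.k,(.r (-1) ⟨3,[(0,3),(0,1),(12,1),(13,0),(7,0),(0,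
  1)]⟩ ⟨2,[(4,4),(5,0),(12,0),(0,0),(10,1),(1,0)]⟩),.k,.k,⟨false,0,⟨1,[(0,0),(0,0),(31,0)]⟩,⟨1,[(4,
  1),(12,0),(0,0),(16,1),(1,0)]⟩⟩,⟨true,0,⟨0,[(1,0)]⟩,⟨0,[(24,1)]⟩⟩,⟨false,0,⟨1,[(4,1),(19,0),(0,
  0)]⟩,⟨7,[(0,1),(0,1),(1,1),(10,1),(21,2),(0,4)]⟩⟩,⟨true,0,⟨1,[(4,1),(0,0),(2,0),(5,0),(8,0)]⟩,⟨0,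
  [(0,0)]⟩⟩,⟨false,0,⟨0,[]⟩,⟨0,[]⟩⟩,⟨false,0,⟨0,[]⟩,⟨0,[]⟩⟩,[.o ⟨false,0,⟨3,[(5,3),(1,0),(0,0),(19,
  0)]⟩,⟨1,[(12,1),(4,0),(0,0),(18,0)]⟩⟩,.o ⟨false,1,⟨3,[(8,1),(14,3),(4,0),(8,2)]⟩,⟨0,[(12,0)]⟩⟩,.o
  ⟨false,1,⟨1,[(24,1),(3,0),(7,0)]⟩,⟨0,[(13,0)]⟩⟩,.a ⟨true,0,⟨0,[(24,0)]⟩,⟨0,[(21,0)]⟩⟩ ⟨false,0,⟨0,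
  []⟩,⟨1,[(17,0),(0,0),(18,0)]⟩⟩ ⟨true,0,⟨5,[(1,1),(3,2),(2,2),(5,0),(8,2),(8,1)]⟩,⟨0,[(12,0),(11,
  0)]⟩⟩]⟩)) (.K ⟨0,[0,1,-1],0,0,(⟨0,[(15,0)]⟩,⟨0,[(26,0),(1,0)]⟩),.k,.k,(.x (-1) ⟨0,[(10,0),(1,0),
  (13,0),(0,0),(3,0)]⟩ ⟨1,[(15,1),(7,2),(0,0),(4,1)]⟩),(.r 0 ⟨4,[(0,0),(2,7),(5,1),(12,1),(11,2),(1,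
  1)]⟩ ⟨5,[(2,3),(8,3),(1,5),(13,0),(4,5),(3,4)]⟩),.k,[⟨0,[(0,0)]⟩,⟨0,[(12,0)]⟩,⟨0,[(11,0)]⟩,⟨0,
  [(22,0),(11,0)]⟩]⟩)) (.N [0,0,1] 0 ⟨0,[(0,0)]⟩ ⟨0,[(2,0)]⟩ .k))))) (.Q [0,0,1,0,0,0,2,0,0,0,2]
  (.p true [0,0,1] [0,1,-1] (⟨0,[(21,0)]⟩,⟨0,[(20,0)]⟩) .k 2 (⟨0,[(10,0)]⟩,⟨0,[(21,0),(1,0)]⟩) .k
  (.r (-1) ⟨3,[(2,1),(3,3),(1,3),(7,3),(5,0),(8,2)]⟩ ⟨0,[(0,1),(17,0),(0,0)]⟩)) (.K ⟨0,[0,1,-1],0,0,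
  (⟨0,[(11,0)]⟩,⟨0,[(22,0),(1,0)]⟩),.k,.k,(.x (-1) ⟨0,[(6,0),(1,0),(13,0),(0,0),(3,0)]⟩ ⟨1,[(11,1),
  (7,2),(0,0),(4,1)]⟩),(.r 0 ⟨6,[(0,2),(0,7),(3,5),(12,5),(11,0),(1,5)]⟩ ⟨3,[(3,1),(3,7),(0,3),(0,
  1),(13,0),(3,1),(4,2)]⟩),.k,[⟨0,[(0,0)]⟩,⟨0,[(8,0)]⟩,⟨0,[(7,0)]⟩,⟨0,[(18,0),(11,0)]⟩]⟩) (.R ⟨0,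
  false,false,false,[0,0,1],[0,1,-1],[1,0,0,0,0,0,0,1],(⟨0,[(22,0)]⟩,⟨0,[(21,0)]⟩),(⟨0,[(11,0)]⟩,⟨0,
  [(22,0),(1,0)]⟩),⟨0,[(11,0)]⟩,.k,.k,.k,(.r (-1) ⟨0,[(0,0),(6,0),(9,0),(14,0)]⟩ ⟨3,[(1,4),(3,2),
  (12,2),(0,2),(10,0),(1,2)]⟩),.k,.k,⟨false,1,⟨5,[(0,5),(2,1),(3,9),(9,1),(9,1),(3,0),(0,4)]⟩,⟨3,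
  [(1,4),(3,2),(12,2),(0,2),(10,0),(1,2)]⟩⟩,⟨true,0,⟨0,[(0,0)]⟩,⟨0,[(19,1)]⟩⟩,⟨true,0,⟨0,[]⟩,⟨0,
  [(34,0)]⟩⟩,⟨false,0,⟨2,[(0,1),(0,5),(3,2),(14,1),(11,2)]⟩,⟨0,[(7,0),(9,0),(14,0)]⟩⟩,⟨false,0,⟨0,
  []⟩,⟨0,[]⟩⟩,⟨false,0,⟨0,[]⟩,⟨0,[]⟩⟩,[.o ⟨false,0,⟨3,[(1,3),(0,0),(0,0),(16,3),(2,0)]⟩,⟨1,[(7,1),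
  (4,0),(0,0),(18,0)]⟩⟩,.o ⟨false,1,⟨3,[(3,1),(14,3),(4,0),(8,2)]⟩,⟨0,[(7,0)]⟩⟩,.o ⟨false,1,⟨1,[(19,
  1),(3,0),(7,0)]⟩,⟨0,[(8,0)]⟩⟩,.a ⟨true,0,⟨0,[(19,0)]⟩,⟨0,[(16,0)]⟩⟩ ⟨false,1,⟨11,[(0,5),(2,1),(3,
  3),(9,7),(9,1),(3,0),(0,10)]⟩,⟨0,[(1,0),(17,0),(0,0)]⟩⟩ ⟨true,0,⟨11,[(0,3),(0,5),(1,5),(5,4),(8,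
  5),(8,0)]⟩,⟨0,[(7,0),(11,0)]⟩⟩]⟩))))))

theorem ok3 : chk K t3 r3 = true := by decide +kernel

noncomputable def t6 : Tre :=
  (.R ⟨2,true,false,true,[0,1],[0,0,1],[1,1,1],(⟨0,[]⟩,⟨0,[]⟩),(⟨0,[(15,0)]⟩,⟨0,[(14,0)]⟩),⟨0,[]⟩,
  .k,.k,.k,.k,.k,.k,⟨false,0,⟨0,[(0,0),(11,0),(8,0)]⟩,⟨1,[(2,0),(7,1),(5,0),(3,0),(4,0)]⟩⟩,⟨true,0,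
  ⟨0,[(12,0)]⟩,⟨0,[(1,0)]⟩⟩,⟨true,0,⟨0,[(22,0)]⟩,⟨0,[(23,0)]⟩⟩,⟨false,1,⟨0,[(10,0),(11,0),(2,0)]⟩,
  ⟨0,[(0,0)]⟩⟩,⟨false,0,⟨0,[]⟩,⟨1,[(5,0),(0,0),(18,0)]⟩⟩,⟨true,0,⟨0,[(10,0)]⟩,⟨0,[(0,0),(21,0)]⟩⟩,
  []⟩)

theorem ok6 : chk K t6 r1 = true := by decide +kernel

noncomputable def t4 : Tre :=
  .I [0,-1,-2,-1,1] t2 t3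

theorem ok4 : chk K t4 r2 = true :=
  chk_I (e' := [1,1,2,1,-1]) (by decide +kernel) (by decide +kernel) ok2 ok3

noncomputable def t5 : Tre :=
  .Q [0,0,0,0,0,2,0,0,0,-1] (.pp true [-1,1]) t1 t4

theorem ok5 : chk K t5 l1 = true :=
  chk_Q (e' := [0,0,0,0,0,-2,0,0,0,1]) (by decide +kernel) (by decide +kernel) ok1 ok4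

noncomputable def t7 : Tre :=
  .Q [0,1,0,-1,0,0,1,1,0,0,1] (.p true [0,0,1] [] (⟨0,[(14,0)]⟩,⟨0,[(13,0)]⟩) .k 0 (⟨0,[]⟩,⟨0,[]⟩)
  .k .k) t5 t6

theorem ok7 : chk K t7 r0 = true :=
  chk_Q (e' := [0,-1,0,1,0,0,-1,-1,0,0,-1]) (by decide +kernel) (by decide +kernel) ok5 ok6

noncomputable def t8 : Tre :=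
  .Q [0,0,0,0,0,0,1,0,0,0,1] (.p true [0,0,1] [] (⟨0,[(13,0)]⟩,⟨0,[(12,0)]⟩) .k 0 (⟨0,[]⟩,⟨0,[]⟩)
  .k .k) t0 t7

theorem ok8 : chk K t8 base = true :=
  chk_Q (e' := [0,0,0,0,0,0,-1,0,0,0,-1]) (by decide +kernel) (by decide +kernel) ok0 ok7

theorem closed {p a b c J l q : ℤ} {D dl : ℝ} {Cl : ℤ → ℤ → ℤ → ℤ → ℝ → Prop}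
    (W : World p a b c J 1 l q D dl Cl) (g : G0 p a b c J D)
    {N X R : ℤ} {I : ℝ} (hk : KCl p l Cl N X R I) (kz : KF a b D (X + (1 : ℤ) * I) (X + (1 : ℤ) * I + R) I)
    {Ne Xe : ℤ} {Ie : ℝ} (he : EFac p 1 D Cl 1 Ne Xe Ie)
    (hkf : ∀ kf ∈ (kfY 1 [0,0,0,0,0,0,1,0,0,0,1]), KOk p l Cl 1
      (xv [1, a, b, c, p, J, X, R, Xe] [D, I, Ie]) N kf)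
    (h0 : 1 ≤ (c : ℝ))
    (h1 : 1 ≤ (a : ℝ) - (b : ℝ) - (c : ℝ))
    (h2 : 0 < -2 * (b : ℝ) + D)
    (h3 : 1 ≤ 2 * (a : ℝ) - (b : ℝ))
    (h4 : 0 < -(b : ℝ) - (X : ℝ) + D - I)
    (h5 : 0 < (J : ℝ) - I)
    (h6 : 0 < -(J : ℝ) + D - I)
    (h7 : 0 < -2 * (X : ℝ) + D - 2 * I) : False := by
  have g1 := g.a2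
  have g2 := g.b2
  have g3 := g.pa
  have g4 := g.pb
  have g5 := g.J1
  have g6 := g.JD
  have g7 := g.D2
  have g8 := g.ca
  have g9 := g.ca'
  have k1 := kz.I0
  have k2 := kz.ID
  have k3 := kz.z1
  have k4 := kz.z2
  have k5 := kz.s1
  have k6 := kz.s2
  have e1 := he.I0
  have e2 := he.ID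
  have e3 := he.x0
  have e4 := he.xp
  push_cast at *
  refine (val_E W.toBase hk he (row := [1]) (by simp) (by simp) (kfY 1 [0,0,0,0,0,0,1,0,0,0,1])).sound W rfl (Nk := N)
    (fun kf _ _ => ⟨_, rfl⟩) hkf ?_ ok8
  · simp only [base, List.forall_mem_cons, List.not_mem_nil, false_imp_iff, implies_true,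
      and_true, hld, xv, evg_cons, evg_nil, List.map_cons, List.map_nil, List.cons_append,
      List.nil_append, if_true, if_false, Bool.false_eq_true]
    push_cast
    refine ⟨?_, ?_, ?_, ?_, ?_, ?_, ?_, ?_, ?_, ?_, ?_, ?_, ?_, ?_, ?_, ?_, ?_, ?_, ?_, ?_, ?_, ?_, ?_, ?_, ?_, ?_⟩ <;> linarith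

end Helper25.S1T.Ypp_1bG
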