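import Pool.Agent.Helper25.KG.S1b
import Pool.Agent.Helper11.CT.Cut

set_option autoImplicit false
set_option linter.all false

namespace Helper25.S1T.Ypp_1bL

open Helper25.KG Helper25.KW Helper55.KE Helper11.CT

noncomputable def K : Cls :=
  cE 1 [1] (kfY 1 [0,0,0,0,0,0,1,0,0,0,1])

noncomputable def base : List Con :=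
  [(false,[0,0,0,0,0,0,-2,0,0,1,-2]),
  (false,[0,0,0,0,0,-1,0,0,0,1,-1]),
  (false,[0,0,0,0,0,1,0,0,0,0,-1]),
  (false,[0,0,0,0,1,0,0,0,-1,0,0,-1]),
  (false,[0,0,0,0,0,0,0,0,1,0,0,1]),
  (false,[0,0,0,0,0,0,0,0,0,1,0,-1]),
  (false,[0,0,0,0,0,0,0,0,0,0,0,1]),
  (false,[0,0,-1,0,0,0,-1,0,0,1,-1]),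
  (false,[0,1,0,0,0,0,1,1,0,0,1]),
  (false,[0,1,0,0,0,0,-1,-1,0,0,-1]),
  (false,[0,0,1,0,0,0,1,0,0,0,1]),
  (false,[0,0,1,0,0,0,-1,0,0,0,-1]),
  (false,[0,0,0,0,0,0,0,0,0,1,-1]),
  (false,[0,0,0,0,0,0,0,0,0,0,1]),
  (false,[0,0,0,0,1,0,0,0,0,-2]),
  (false,[0,0,0,0,0,-1,0,0,0,1]),
  (true,[0,0,0,0,0,1]),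
  (true,[0,2,-1]),
  (false,[0,0,2,0,0,0,0,0,0,-1]),
  (true,[0,1,-1,-1]),
  (true,[0,1,0,-1]),
  (true,[0,0,0,1]),
  (true,[0,0,-2,0,1]),
  (true,[0,-2,0,0,1]),
  (true,[-1,0,1]),
  (true,[-1,1])]

noncomputable def l0 : List Con := (true, [0,-1,0,1,1,0,0,-1]) :: base

noncomputable def r0 : List Con := (true, [1,1,0,-1,-1,0,0,1]) :: base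

noncomputable def l1 : List Con := (false, [0,0,0,0,0,0,-1,0,0,0,-1]) :: l0

noncomputable def r1 : List Con := (false, [0,0,0,0,0,0,1,0,0,0,1]) :: l0

noncomputable def t0 : Tre :=
  (.Q [0,1,0,-1,0,0,1,1,0,0,1] (.p true [0,0,1] [] (⟨0,[(15,0)]⟩,⟨0,[(14,0)]⟩) .k 0 (⟨0,[]⟩,⟨0,[]⟩)
  .k .k) (.Q [0,0,0,0,0,0,-1,-1,0,0,-1] (.p false [0,0,1] [] (⟨0,[(16,0)]⟩,⟨0,[(15,0)]⟩) .k 0 (⟨0,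
  []⟩,⟨0,[]⟩) .k .k) (.I [1,0,0,0,0,0,0,1] (.I [1,0,0,0,0,0,0,-1] (.N [0,0,1] 0 ⟨0,[(1,0)]⟩ ⟨0,[(0,
  0)]⟩ .k) (.I [0,0,-1,-1,0,0,0,2] (.Q [0,0,-1,-1,0,0,0,1,0,1] (.pp false [-1,1]) (.R ⟨0,false,
  false,true,[0,0,1],[1,-1,1],[0,1],(⟨0,[(21,0)]⟩,⟨0,[(20,0)]⟩),(⟨0,[(21,0),(1,0)]⟩,⟨0,[(10,0)]⟩),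
  ⟨0,[(10,0)]⟩,.k,.k,.k,.k,.k,.k,⟨true,0,⟨0,[(4,0),(13,0),(10,0)]⟩,⟨0,[(1,0),(2,0),(13,0)]⟩⟩,⟨false,
  0,⟨0,[(13,0),(0,0)]⟩,⟨1,[(22,0),(7,0)]⟩⟩,⟨true,0,⟨0,[(4,0),(13,0),(8,0),(1,0)]⟩,⟨0,[(3,0)]⟩⟩,
  ⟨false,0,⟨0,[(0,0),(3,0),(13,0)]⟩,⟨1,[(22,0),(6,1),(1,0)]⟩⟩,⟨false,0,⟨0,[]⟩,⟨0,[]⟩⟩,⟨false,0,⟨0,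
  []⟩,⟨0,[]⟩⟩,[.o ⟨false,0,⟨0,[(5,0)]⟩,⟨1,[(4,1),(17,0),(6,1),(1,0)]⟩⟩,.e ⟨false,1,⟨1,[(11,0),(0,0),
  (17,0)]⟩,⟨0,[]⟩⟩ ⟨false,0,⟨0,[(0,0)]⟩,⟨1,[(4,0),(2,0),(10,0),(3,0),(4,0),(1,1)]⟩⟩,.o ⟨false,1,⟨1,
  [(18,1),(3,0),(7,0)]⟩,⟨0,[(6,0)]⟩⟩,.a ⟨true,0,⟨0,[(18,0)]⟩,⟨0,[(15,0)]⟩⟩ ⟨true,0,⟨0,[(27,0),(1,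
  0)]⟩,⟨3,[(8,0),(9,1),(7,0)]⟩⟩ ⟨false,0,⟨0,[(0,0)]⟩,⟨1,[(4,1),(13,1),(3,0),(6,1),(1,0)]⟩⟩]⟩) (.Q
  [0,0,-1,0,1,0,1,0,0,-1,1] (.p true [0,0,1] [1] (⟨0,[(21,0)]⟩,⟨0,[(20,0)]⟩) .k 1 (⟨0,[]⟩,⟨0,[]⟩)
  .k .k) (.Q [0,0,-1,-1,0,0,-1,0,0,1,-1] (.p false [0,0,1] [1] (⟨0,[(22,0)]⟩,⟨0,[(21,0)]⟩) .k 1 (⟨0,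
  []⟩,⟨0,[]⟩) .k .k) (.R ⟨0,false,false,true,[0,0,1],[1,-1],[0,1,0,-1],(⟨0,[(23,0)]⟩,⟨0,[(22,0)]⟩),
  (⟨0,[(25,0)]⟩,⟨0,[(26,0)]⟩),⟨0,[(12,0)]⟩,.k,.k,.k,.k,.k,.k,⟨true,0,⟨3,[(10,0),(9,1),(7,0)]⟩,⟨0,
  []⟩⟩,⟨false,0,⟨1,[(10,0),(4,0),(0,0)]⟩,⟨0,[(1,0)]⟩⟩,⟨true,0,⟨0,[(6,0),(13,0),(8,0)]⟩,⟨0,[(5,0),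
  (25,0)]⟩⟩,⟨false,0,⟨0,[(0,0),(5,0),(13,0)]⟩,⟨1,[(1,0),(0,0),(0,0),(1,0),(14,0),(10,1),(1,0)]⟩⟩,
  ⟨false,0,⟨0,[]⟩,⟨0,[]⟩⟩,⟨false,0,⟨0,[]⟩,⟨0,[]⟩⟩,[.o ⟨false,0,⟨0,[(30,0)]⟩,⟨1,[(24,0),(6,1),(1,
  0)]⟩⟩,.e ⟨false,1,⟨1,[(30,1),(1,0),(0,0)]⟩,⟨0,[(31,0)]⟩⟩ ⟨false,0,⟨0,[(0,0)]⟩,⟨2,[(1,0),(7,0),(8,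
  0),(1,0),(3,0),(6,1)]⟩⟩,.o ⟨false,1,⟨3,[(1,1),(11,0),(0,0),(5,1),(3,0)]⟩,⟨0,[(8,0)]⟩⟩,.a ⟨true,0,
  ⟨0,[(20,0)]⟩,⟨0,[(17,0)]⟩⟩ ⟨true,0,⟨0,[(29,0)]⟩,⟨3,[(10,0),(9,1),(7,0),(2,3)]⟩⟩ ⟨false,0,⟨0,[(0,
  0)]⟩,⟨1,[(20,1),(3,0),(6,1),(1,0)]⟩⟩]⟩) (.R ⟨0,false,false,true,[0,0,1],[1,0,-1],[0,1],(⟨0,[(23,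
  0)]⟩,⟨0,[(22,0)]⟩),(⟨0,[(22,0)]⟩,⟨0,[(23,0)]⟩),⟨0,[(12,0)]⟩,.k,.k,.k,.k,.k,.k,⟨true,0,⟨0,[(4,0)]⟩,
  ⟨0,[(6,0),(13,0)]⟩⟩,⟨false,0,⟨0,[(8,0),(8,0)]⟩,⟨0,[(1,0),(18,0)]⟩⟩,⟨true,0,⟨0,[(6,0),(13,0),(8,0),
  (1,0)]⟩,⟨0,[(5,0)]⟩⟩,⟨false,0,⟨0,[(6,1),(8,0),(0,0)]⟩,⟨1,[(0,0),(0,0),(1,1),(16,1),(10,0),(1,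
  0)]⟩⟩,⟨false,0,⟨0,[]⟩,⟨0,[]⟩⟩,⟨false,0,⟨0,[]⟩,⟨0,[]⟩⟩,[.o ⟨false,0,⟨0,[(19,0)]⟩,⟨5,[(0,2),(0,0),
  (1,1),(3,0),(10,0),(5,0),(8,3)]⟩⟩,.o ⟨false,0,⟨0,[(6,0)]⟩,⟨1,[(18,1),(5,0),(8,0)]⟩⟩,.o ⟨false,1,
  ⟨3,[(1,1),(11,0),(0,0),(5,1),(3,0)]⟩,⟨0,[(8,0)]⟩⟩,.a ⟨true,0,⟨0,[(20,0)]⟩,⟨0,[(17,0)]⟩⟩ ⟨true,0,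
  ⟨0,[(29,0),(1,0)]⟩,⟨3,[(10,0),(9,1),(7,0)]⟩⟩ ⟨false,0,⟨0,[(6,0),(10,0)]⟩,⟨0,[(0,0),(6,0),(25,
  0)]⟩⟩]⟩)) (.S ⟨1,0,[0,1,0,0,0,0,0,-1],[1,0,-1],[1,0,0,-1,0,0,0,-1],(⟨0,[(21,0)]⟩,⟨0,[(22,0)]⟩),⟨0,
  [(10,0)]⟩,.k,.k,⟨false,1,⟨0,[(29,0),(2,0)]⟩,⟨0,[(30,0)]⟩⟩,⟨true,0,⟨0,[(34,0)]⟩,⟨0,[]⟩⟩,⟨true,0,⟨0,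
  []⟩,⟨0,[(34,0)]⟩⟩,⟨false,0,⟨0,[(30,0)]⟩,⟨0,[(29,0),(2,0)]⟩⟩,[.o ⟨false,0,⟨0,[(18,0)]⟩,⟨1,[(1,1),
  (0,1),(16,1),(11,0),(0,0)]⟩⟩,.o ⟨false,0,⟨0,[(5,0)]⟩,⟨1,[(17,1),(5,0),(8,0)]⟩⟩,.o ⟨false,0,⟨0,[(7,
  0)]⟩,⟨1,[(19,1),(3,0),(7,0)]⟩⟩,.a ⟨true,(-1),⟨0,[(0,0)]⟩,⟨0,[(19,0),(11,0)]⟩⟩ ⟨true,1,⟨1,[(5,0),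
  (2,0),(10,0),(8,2),(3,0)]⟩,⟨0,[(0,0),(0,0),(0,0),(16,0),(8,0),(1,1)]⟩⟩ ⟨false,1,⟨0,[(8,0),(19,
  0)]⟩,⟨1,[(0,0),(0,0),(0,0),(1,0),(14,0),(12,0)]⟩⟩]⟩))) (.Q [0,-1,0,0,1,0,2,2,0,-1,2] (.p true [0,
  0,1] [1,0,-1] (⟨0,[(20,0)]⟩,⟨0,[(19,0)]⟩) .k 2 (⟨0,[(19,0)]⟩,⟨0,[(20,0)]⟩) .k (.r 0 ⟨0,[(1,1)]⟩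
  ⟨1,[(0,1),(26,1),(1,0),(0,0)]⟩)) (.R ⟨0,false,false,true,[0,0,1],[1,0,-1],[0,1],(⟨0,[(21,0)]⟩,⟨0,
  [(20,0)]⟩),(⟨0,[(20,0)]⟩,⟨0,[(21,0)]⟩),⟨0,[(10,0)]⟩,.k,.k,.k,.k,.k,.k,⟨true,0,⟨0,[(2,0)]⟩,⟨0,[(4,
  0),(13,0)]⟩⟩,⟨false,0,⟨0,[(6,0),(8,0)]⟩,⟨0,[(0,0),(0,0),(25,0)]⟩⟩,⟨true,0,⟨3,[(1,1),(23,0),(1,0),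
  (0,0)]⟩,⟨0,[(3,0)]⟩⟩,⟨false,0,⟨0,[(4,1),(8,0),(0,0)]⟩,⟨0,[(0,0)]⟩⟩,⟨false,0,⟨0,[]⟩,⟨0,[]⟩⟩,⟨false,
  0,⟨0,[]⟩,⟨0,[]⟩⟩,[.o ⟨false,0,⟨0,[(17,0)]⟩,⟨3,[(0,1),(21,0),(8,0)]⟩⟩,.o ⟨false,0,⟨0,[(4,0)]⟩,⟨2,
  [(0,0),(10,0),(0,0),(3,0),(5,0)]⟩⟩,.o ⟨false,1,⟨1,[(18,1),(3,0),(7,0)]⟩,⟨0,[(6,0)]⟩⟩,.a ⟨true,0,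
  ⟨0,[(18,0)]⟩,⟨0,[(15,0)]⟩⟩ ⟨true,0,⟨0,[(27,0),(1,0)]⟩,⟨3,[(8,0),(9,1),(7,0)]⟩⟩ ⟨false,0,⟨0,[(4,0),
  (10,0)]⟩,⟨3,[(0,1),(17,3),(3,0),(8,0)]⟩⟩]⟩) (.Q [0,0,0,0,0,0,1,0,0,1,1] (.p true [1,-1,1] [] (⟨0,
  [(21,0),(1,0)]⟩,⟨0,[(10,0)]⟩) .k 0 (⟨0,[]⟩,⟨0,[]⟩) .k .k) (.I [1,0,0,1,0,0,0,-1] (.Q [0,0,-1,-1,0,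
  0,0,1,0,1] (.pp false [-1,1]) (.R ⟨0,false,false,true,[0,0,1],[1,-1,1],[0,1,0,-1,0,0,0,1],(⟨0,
  [(24,0)]⟩,⟨0,[(23,0)]⟩),(⟨0,[(24,0),(1,0)]⟩,⟨0,[(13,0)]⟩),⟨0,[(13,0)]⟩,.k,.k,.k,.k,.k,.k,⟨true,0,
  ⟨3,[(11,0),(9,1),(7,0)]⟩,⟨0,[]⟩⟩,⟨false,0,⟨2,[(2,1),(8,0)]⟩,⟨1,[(25,0),(7,0)]⟩⟩,⟨true,0,⟨0,[(31,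
  0)]⟩,⟨0,[(32,0)]⟩⟩,⟨false,0,⟨2,[(0,1),(2,0),(17,1),(9,0),(2,0)]⟩,⟨1,[(25,0),(6,1),(1,0)]⟩⟩,⟨false,
  0,⟨0,[]⟩,⟨0,[]⟩⟩,⟨false,0,⟨0,[]⟩,⟨0,[]⟩⟩,[.o ⟨false,0,⟨0,[(8,0)]⟩,⟨1,[(1,1),(7,1),(15,0),(8,0)]⟩⟩,
  .e ⟨false,1,⟨2,[(0,0),(7,1),(2,0),(13,0),(7,0),(0,0)]⟩,⟨0,[(1,0)]⟩⟩ ⟨false,0,⟨0,[(0,0)]⟩,⟨3,[(4,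
  0),(5,1),(14,1),(2,0),(3,0)]⟩⟩,.o ⟨false,1,⟨1,[(21,1),(3,0),(7,0)]⟩,⟨0,[(9,0)]⟩⟩,.a ⟨true,0,⟨0,
  [(21,0)]⟩,⟨0,[(18,0)]⟩⟩ ⟨true,0,⟨0,[(6,0),(23,0)]⟩,⟨7,[(4,3),(6,0),(9,1),(7,0),(2,3)]⟩⟩ ⟨false,0,
  ⟨0,[(0,0)]⟩,⟨3,[(1,1),(8,1),(14,0),(3,1),(4,0)]⟩⟩]⟩) (.Q [0,0,0,1,0,0,-1,-1,0,-1,-1] (.p false [1,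
  -1,1] [] (⟨0,[(24,0),(1,0)]⟩,⟨0,[(13,0)]⟩) .k 0 (⟨0,[]⟩,⟨0,[]⟩) .k .k) (.Q [0,-1,0,1,0,0,-2,-2,0,
  0,-2] (.p false [0,0,1] [0,1,-1] (⟨0,[(25,0)]⟩,⟨0,[(24,0)]⟩) .k 2 (⟨0,[(14,0)]⟩,⟨0,[(25,0),(1,
  0)]⟩) .k (.r 0 ⟨0,[(6,1)]⟩ ⟨1,[(5,1),(26,1),(1,0),(0,0)]⟩)) (.R ⟨0,false,false,false,[0,0,1],[0,1,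
  -1],[0,0,1],(⟨0,[(26,0)]⟩,⟨0,[(25,0)]⟩),(⟨0,[(15,0)]⟩,⟨0,[(26,0),(1,0)]⟩),⟨0,[(15,0)]⟩,.k,.k,.k,
  (.r (-1) ⟨5,[(8,7),(1,3),(2,1),(13,0),(4,1),(2,1),(0,2)]⟩ ⟨0,[(0,0),(0,0),(2,0),(2,0),(15,1),(8,
  0)]⟩),.k,.k,⟨false,1,⟨5,[(8,1),(1,3),(2,1),(13,0),(4,1),(2,1),(0,2)]⟩,⟨0,[(3,0)]⟩⟩,⟨true,0,⟨0,[(0,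
  0),(7,1),(23,0)]⟩,⟨0,[(23,1)]⟩⟩,⟨true,0,⟨3,[(5,0),(0,0),(16,1),(7,0),(0,0),(3,0)]⟩,⟨0,[(8,0),(23,
  0),(1,0)]⟩⟩,⟨false,0,⟨0,[(0,0)]⟩,⟨0,[(10,0),(10,0),(14,0)]⟩⟩,⟨false,0,⟨0,[]⟩,⟨0,[]⟩⟩,⟨false,0,⟨0,
  []⟩,⟨0,[]⟩⟩,[.o ⟨false,0,⟨0,[(1,0)]⟩,⟨1,[(10,1),(5,0),(0,0),(18,0)]⟩⟩,.o ⟨false,1,⟨9,[(1,5),(10,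
  3),(0,1),(13,2),(8,2)]⟩,⟨0,[(10,0)]⟩⟩,.o ⟨false,1,⟨1,[(23,1),(3,0),(7,0)]⟩,⟨0,[(11,0)]⟩⟩,.a ⟨true,
  0,⟨0,[(23,0)]⟩,⟨0,[(20,0)]⟩⟩ ⟨false,1,⟨1,[(16,0),(0,0),(18,0)]⟩,⟨0,[]⟩⟩ ⟨true,0,⟨0,[(1,0),(18,
  0)]⟩,⟨0,[(10,0),(12,0)]⟩⟩]⟩) (.R ⟨0,false,false,true,[0,1,-1],[1,0,-1],[0,1,1,0,0,0,0,-1],(⟨0,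
  [(15,0)]⟩,⟨0,[(26,0),(1,0)]⟩),(⟨0,[(25,0)]⟩,⟨0,[(26,0)]⟩),⟨0,[(26,0)]⟩,.k,.k,.k,.k,.k,.k,⟨true,0,
  ⟨3,[(13,0),(9,1),(7,0)]⟩,⟨0,[]⟩⟩,⟨false,0,⟨2,[(4,1),(8,0)]⟩,⟨1,[(27,0),(7,0)]⟩⟩,⟨true,0,⟨0,[(33,
  0)]⟩,⟨0,[(34,0)]⟩⟩,⟨false,0,⟨0,[(0,0),(4,0),(30,0)]⟩,⟨1,[(27,0),(6,1),(1,0)]⟩⟩,⟨false,0,⟨0,[]⟩,⟨0,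
  []⟩⟩,⟨false,0,⟨0,[]⟩,⟨0,[]⟩⟩,[.o ⟨false,0,⟨0,[(22,0)]⟩,⟨0,[(0,0),(0,0),(34,0)]⟩⟩,.o ⟨false,0,⟨0,
  [(9,0)]⟩,⟨1,[(21,1),(5,0),(8,0)]⟩⟩,.o ⟨false,1,⟨1,[(11,1),(15,0),(7,0)]⟩,⟨0,[(23,0)]⟩⟩,.a ⟨true,0,
  ⟨0,[(11,0)]⟩,⟨0,[(4,0)]⟩⟩ ⟨true,0,⟨3,[(6,1),(23,0),(1,0),(0,0)]⟩,⟨0,[(8,0)]⟩⟩ ⟨false,0,⟨11,[(4,7),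
  (0,3),(0,1),(26,1),(1,0),(0,2)]⟩,⟨1,[(8,1),(18,0),(8,0)]⟩⟩]⟩)) (.R ⟨0,false,false,true,[0,0,1],[1,
  -1,1],[0,1,0,-1,0,0,0,1],(⟨0,[(25,0)]⟩,⟨0,[(24,0)]⟩),(⟨0,[(25,0),(1,0)]⟩,⟨0,[(14,0)]⟩),⟨0,[(14,
  0)]⟩,.k,.k,.k,.k,.k,.k,⟨true,0,⟨3,[(12,0),(9,1),(7,0)]⟩,⟨0,[]⟩⟩,⟨false,0,⟨2,[(3,1),(8,0)]⟩,⟨1,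
  [(26,0),(7,0)]⟩⟩,⟨true,0,⟨0,[(32,0)]⟩,⟨0,[(33,0)]⟩⟩,⟨false,0,⟨2,[(0,1),(3,0),(27,0),(2,0)]⟩,⟨1,
  [(26,0),(6,1),(1,0)]⟩⟩,⟨false,0,⟨0,[]⟩,⟨0,[]⟩⟩,⟨false,0,⟨0,[]⟩,⟨0,[]⟩⟩,[.o ⟨false,0,⟨0,[(9,0)]⟩,
  ⟨1,[(2,1),(7,1),(15,0),(8,0)]⟩⟩,.a ⟨true,0,⟨0,[(0,0)]⟩,⟨0,[(2,0),(7,0)]⟩⟩ ⟨false,1,⟨5,[(0,3),(6,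
  1),(4,1),(13,2),(4,1),(2,1),(0,0)]⟩,⟨0,[(2,0)]⟩⟩ ⟨true,0,⟨0,[(0,0),(9,0)]⟩,⟨0,[(1,0)]⟩⟩,.o ⟨false,
  1,⟨1,[(22,1),(3,0),(7,0)]⟩,⟨0,[(10,0)]⟩⟩,.e ⟨true,0,⟨0,[(7,0),(23,0)]⟩,⟨7,[(5,3),(6,0),(9,1),(7,
  0),(2,3)]⟩⟩ ⟨true,0,⟨6,[(0,3),(6,2),(4,0),(6,1),(9,1),(1,2)]⟩,⟨0,[(1,0)]⟩⟩]⟩))) (.Q [0,0,-1,-1,0,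
  0,0,1,0,1] (.pp false [-1,1]) (.R ⟨0,false,false,true,[0,0,1],[1,-1,1],[0,1],(⟨0,[(24,0)]⟩,⟨0,
  [(23,0)]⟩),(⟨0,[(24,0),(1,0)]⟩,⟨0,[(13,0)]⟩),⟨0,[(13,0)]⟩,.k,.k,.k,.k,.k,.k,⟨true,0,⟨7,[(4,3),(6,
  0),(9,1),(7,0),(2,3)]⟩,⟨0,[(1,0)]⟩⟩,⟨false,0,⟨2,[(2,1),(8,0)]⟩,⟨1,[(25,0),(7,0)]⟩⟩,⟨true,0,⟨3,[(4,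
  1),(23,0),(1,0),(0,0)]⟩,⟨0,[(6,0)]⟩⟩,⟨false,0,⟨2,[(1,1),(0,1),(0,0),(27,0),(2,0)]⟩,⟨1,[(25,0),(6,
  1),(1,0)]⟩⟩,⟨false,0,⟨0,[]⟩,⟨0,[]⟩⟩,⟨false,0,⟨0,[]⟩,⟨0,[]⟩⟩,[.o ⟨false,0,⟨0,[(8,0)]⟩,⟨1,[(7,1),
  (17,0),(6,1),(1,0)]⟩⟩,.e ⟨false,1,⟨1,[(14,0),(0,0),(17,0)]⟩,⟨0,[]⟩⟩ ⟨false,0,⟨0,[(0,0)]⟩,⟨3,[(4,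
  0),(5,1),(14,1),(2,0),(3,0)]⟩⟩,.o ⟨false,1,⟨1,[(21,1),(3,0),(7,0)]⟩,⟨0,[(9,0)]⟩⟩,.a ⟨true,0,⟨0,
  [(21,0)]⟩,⟨0,[(18,0)]⟩⟩ ⟨true,0,⟨0,[(30,0),(1,0)]⟩,⟨3,[(11,0),(9,1),(7,0)]⟩⟩ ⟨false,0,⟨0,[(0,0)]⟩,
  ⟨2,[(4,0),(5,0),(14,0),(3,0),(2,0),(1,0)]⟩⟩]⟩) (.R ⟨0,false,false,true,[0,0,1],[1,-1,1],[0,1],(⟨0,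
  [(24,0)]⟩,⟨0,[(23,0)]⟩),(⟨0,[(24,0),(1,0)]⟩,⟨0,[(13,0)]⟩),⟨0,[(13,0)]⟩,.k,.k,.k,.k,.k,.k,⟨true,0,
  ⟨7,[(4,3),(6,0),(9,1),(7,0),(2,3)]⟩,⟨0,[(1,0)]⟩⟩,⟨false,0,⟨2,[(2,1),(8,0)]⟩,⟨1,[(25,0),(7,0)]⟩⟩,
  ⟨true,0,⟨3,[(4,1),(23,0),(1,0),(0,0)]⟩,⟨0,[(6,0)]⟩⟩,⟨false,0,⟨2,[(1,1),(0,1),(0,0),(27,0),(2,0)]⟩,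
  ⟨1,[(25,0),(6,1),(1,0)]⟩⟩,⟨false,0,⟨0,[]⟩,⟨0,[]⟩⟩,⟨false,0,⟨0,[]⟩,⟨0,[]⟩⟩,[.o ⟨false,0,⟨0,[(8,
  0)]⟩,⟨1,[(7,1),(17,0),(6,1),(1,0)]⟩⟩,.a ⟨true,0,⟨0,[(1,0),(0,0)]⟩,⟨0,[(7,0),(24,0)]⟩⟩ ⟨false,1,⟨1,
  [(14,0),(0,0),(17,0)]⟩,⟨0,[]⟩⟩ ⟨true,0,⟨2,[(1,2),(0,1),(8,0)]⟩,⟨0,[(0,0)]⟩⟩,.o ⟨false,1,⟨1,[(21,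
  1),(3,0),(7,0)]⟩,⟨0,[(9,0)]⟩⟩,.e ⟨true,0,⟨0,[(30,0),(1,0)]⟩,⟨3,[(11,0),(9,1),(7,0)]⟩⟩ ⟨true,0,⟨0,
  [(8,0),(9,0)]⟩,⟨0,[(0,0)]⟩⟩]⟩))) (.I [1,1,-1,-2,0,0,0,1] (.Q [0,0,0,-1,0,0,0,0,0,1] (.pp false
  [-1,1]) (.R ⟨0,false,false,false,[0,1,-1],[0,1],[1,0,1,1],(⟨0,[(13,0)]⟩,⟨0,[(24,0),(1,0)]⟩),(⟨0,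
  [(27,0)]⟩,⟨0,[(26,0)]⟩),⟨0,[(24,0)]⟩,.k,.k,.k,.k,.k,.k,⟨true,0,⟨0,[]⟩,⟨3,[(11,0),(9,1),(7,0)]⟩⟩,
  ⟨false,1,⟨0,[(21,0),(11,0)]⟩,⟨0,[(9,0)]⟩⟩,⟨true,0,⟨0,[(6,0)]⟩,⟨3,[(4,1),(23,0),(1,0),(0,0)]⟩⟩,
  ⟨false,1,⟨0,[(19,0),(14,0)]⟩,⟨0,[(7,0)]⟩⟩,⟨false,0,⟨0,[]⟩,⟨0,[]⟩⟩,⟨false,0,⟨0,[]⟩,⟨0,[]⟩⟩,[.a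
  ⟨true,0,⟨0,[(32,0)]⟩,⟨0,[(0,0)]⟩⟩ ⟨false,0,⟨0,[(32,0)]⟩,⟨1,[(31,1),(1,0),(0,0)]⟩⟩ ⟨true,0,⟨0,[(21,
  0),(10,0)]⟩,⟨0,[(0,0),(1,0)]⟩⟩,.o ⟨false,1,⟨1,[(25,0),(6,1),(1,0)]⟩,⟨0,[(31,0)]⟩⟩,.o ⟨false,1,⟨5,
  [(2,1),(8,1),(13,2),(7,2)]⟩,⟨0,[(21,0)]⟩⟩,.o ⟨false,0,⟨0,[(2,0)]⟩,⟨0,[(8,0),(1,0)]⟩⟩]⟩) (.R ⟨0,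
  false,false,true,[0,0,1],[1,0,-1],[0,1,1,0,0,0,0,-1],(⟨0,[(24,0)]⟩,⟨0,[(23,0)]⟩),(⟨0,[(23,0)]⟩,⟨0,
  [(24,0)]⟩),⟨0,[(13,0)]⟩,.k,.k,.k,.k,.k,.k,⟨true,0,⟨3,[(11,0),(9,1),(7,0)]⟩,⟨0,[]⟩⟩,⟨false,0,⟨2,
  [(2,0),(8,0),(6,2)]⟩,⟨1,[(0,1),(20,3),(8,1),(2,0),(0,0)]⟩⟩,⟨false,0,⟨0,[(0,0),(2,0),(17,1),(8,0),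
  (3,0)]⟩,⟨1,[(6,3),(26,0),(0,0)]⟩⟩,⟨true,(-1),⟨0,[(3,0)]⟩,⟨0,[(0,0),(7,0),(10,0),(14,0)]⟩⟩,⟨false,
  0,⟨0,[]⟩,⟨0,[]⟩⟩,⟨false,0,⟨0,[]⟩,⟨0,[]⟩⟩,[.o ⟨false,0,⟨0,[(20,0)]⟩,⟨0,[(0,0),(7,0),(25,0)]⟩⟩,.o
  ⟨false,0,⟨0,[(7,0)]⟩,⟨1,[(19,1),(5,0),(8,0)]⟩⟩,.o ⟨false,1,⟨1,[(21,1),(3,0),(7,0)]⟩,⟨0,[(9,0)]⟩⟩,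
  .a ⟨true,0,⟨0,[(21,0)]⟩,⟨0,[(18,0)]⟩⟩ ⟨true,0,⟨3,[(4,1),(23,0),(1,0),(0,0)]⟩,⟨0,[(6,0)]⟩⟩ ⟨false,
  0,⟨11,[(2,1),(0,5),(7,1),(6,5),(14,2),(0,2)]⟩,⟨0,[(0,0),(7,0),(12,0),(12,0)]⟩⟩]⟩)) (.Q [0,1,0,1,
  -1,0,-2,-2,0,0,-2] (.p false [0,0,1] [0,1,-1] (⟨0,[(23,0)]⟩,⟨0,[(22,0)]⟩) .k 2 (⟨0,[(12,0)]⟩,⟨0,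
  [(23,0),(1,0)]⟩) .k (.r 0 ⟨0,[(4,1)]⟩ ⟨1,[(3,1),(26,1),(1,0),(0,0)]⟩)) (.R ⟨0,false,false,false,
  [0,0,1],[0,1,-1],[1,0,0,0,0,0,0,1],(⟨0,[(24,0)]⟩,⟨0,[(23,0)]⟩),(⟨0,[(13,0)]⟩,⟨0,[(24,0),(1,0)]⟩),
  ⟨0,[(13,0)]⟩,.k,.k,.k,(.r (-1) ⟨5,[(6,7),(1,3),(2,1),(13,0),(4,1),(2,1),(0,2)]⟩ ⟨0,[(0,0),(0,0),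
  (3,0),(15,1),(8,1),(3,0)]⟩),.k,.k,⟨false,1,⟨1,[(6,3),(23,1),(2,0),(0,0)]⟩,⟨0,[(0,0),(0,0),(3,0),
  (15,1),(8,1),(3,0)]⟩⟩,⟨true,0,⟨0,[(2,0),(15,0)]⟩,⟨0,[(21,1)]⟩⟩,⟨true,0,⟨0,[]⟩,⟨0,[(36,0)]⟩⟩,
  ⟨false,0,⟨0,[(0,0),(33,0)]⟩,⟨0,[(8,0),(10,0),(14,0)]⟩⟩,⟨false,0,⟨0,[]⟩,⟨0,[]⟩⟩,⟨false,0,⟨0,[]⟩,⟨0,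
  []⟩⟩,[.o ⟨false,0,⟨0,[(1,0),(0,0),(27,0)]⟩,⟨1,[(8,1),(5,0),(0,0),(18,0)]⟩⟩,.o ⟨false,1,⟨0,[(2,0),
  (7,0)]⟩,⟨0,[(8,0)]⟩⟩,.o ⟨false,1,⟨1,[(21,1),(3,0),(7,0)]⟩,⟨0,[(9,0)]⟩⟩,.a ⟨true,0,⟨0,[(21,0)]⟩,⟨0,
  [(18,0)]⟩⟩ ⟨false,1,⟨1,[(6,1),(26,0),(0,0)]⟩,⟨3,[(3,0),(0,0),(16,1),(7,0),(0,0),(3,0)]⟩⟩ ⟨true,0,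
  ⟨2,[(0,0),(0,0),(0,1),(15,1),(14,0)]⟩,⟨0,[(8,0),(12,0)]⟩⟩]⟩) (.R ⟨0,false,false,false,[0,1,-1],[0,
  1],[1,0,1,1],(⟨0,[(13,0)]⟩,⟨0,[(24,0),(1,0)]⟩),(⟨0,[(27,0)]⟩,⟨0,[(26,0)]⟩),⟨0,[(24,0)]⟩,.k,.k,.k,
  .k,.k,.k,⟨true,0,⟨0,[]⟩,⟨3,[(11,0),(9,1),(7,0)]⟩⟩,⟨false,1,⟨0,[(21,0),(11,0)]⟩,⟨0,[(9,0)]⟩⟩,⟨true,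
  0,⟨0,[(6,0)]⟩,⟨3,[(4,1),(23,0),(1,0),(0,0)]⟩⟩,⟨false,1,⟨1,[(0,0),(5,0),(3,0)]⟩,⟨0,[(7,0)]⟩⟩,
  ⟨false,0,⟨0,[]⟩,⟨0,[]⟩⟩,⟨false,0,⟨0,[]⟩,⟨0,[]⟩⟩,[.a ⟨true,0,⟨0,[(32,0)]⟩,⟨0,[(0,0),(2,0)]⟩⟩
  ⟨false,0,⟨0,[(32,0)]⟩,⟨1,[(31,1),(1,0),(0,0)]⟩⟩ ⟨true,0,⟨1,[(1,0),(17,0),(1,0)]⟩,⟨0,[(0,0),(1,0),
  (0,0)]⟩⟩,.o ⟨false,1,⟨3,[(1,1),(4,1),(18,1),(7,0),(0,0)]⟩,⟨0,[(31,0)]⟩⟩,.o ⟨false,1,⟨5,[(2,1),(8,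
  1),(13,2),(7,2)]⟩,⟨0,[(21,0)]⟩⟩,.o ⟨false,0,⟨0,[(2,0)]⟩,⟨4,[(0,1),(3,0),(5,2),(8,0),(8,0),(2,
  1)]⟩⟩]⟩))))))) (.Q [0,0,-1,0,0,0,-2,0,0,0,-2] (.p false [0,0,1] [0,1,-1] (⟨0,[(18,0)]⟩,⟨0,[(17,
  0)]⟩) .k 2 (⟨0,[(7,0)]⟩,⟨0,[(18,0),(1,0)]⟩) .k (.r (-1) ⟨0,[(3,1),(9,1),(14,0)]⟩ ⟨0,[(0,1)]⟩))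
  (.Q [0,0,-1,0,1,0,1,0,0,-1,1] (.p true [0,0,1] [1] (⟨0,[(19,0)]⟩,⟨0,[(18,0)]⟩) .k 1 (⟨0,[]⟩,⟨0,
  []⟩) .k .k) (.Q [0,0,0,1,0,0,-1,-1,0,-1,-1] (.p false [1,-1,1] [] (⟨0,[(20,0),(1,0)]⟩,⟨0,[(9,
  0)]⟩) .k 0 (⟨0,[]⟩,⟨0,[]⟩) .k .k) (.I [1,-1,1,1,0,0,0,-1] (.R ⟨0,false,false,false,[0,0,1],[0,1,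
  -1],[0,1,0,-1,0,0,0,1],(⟨0,[(22,0)]⟩,⟨0,[(21,0)]⟩),(⟨0,[(11,0)]⟩,⟨0,[(22,0),(1,0)]⟩),⟨0,[(11,0)]⟩,
  .k,.k,.k,(.r (-1) ⟨0,[(3,0),(2,0),(10,0),(14,0)]⟩ ⟨2,[(0,2),(3,1),(13,0),(0,0),(6,0)]⟩),.k,.k,
  ⟨false,1,⟨1,[(3,1),(2,3),(24,0),(0,0)]⟩,⟨0,[(0,0),(3,0),(25,0)]⟩⟩,⟨true,0,⟨0,[(3,0)]⟩,⟨0,[(19,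
  1)]⟩⟩,⟨true,0,⟨0,[(29,0)]⟩,⟨0,[(30,0)]⟩⟩,⟨false,0,⟨0,[(0,0),(2,0),(0,0)]⟩,⟨0,[(6,0),(10,0),(14,
  0)]⟩⟩,⟨false,0,⟨0,[]⟩,⟨0,[]⟩⟩,⟨false,0,⟨0,[]⟩,⟨0,[]⟩⟩,[.o ⟨false,0,⟨0,[(1,0)]⟩,⟨1,[(6,1),(5,0),(0,
  0),(18,0)]⟩⟩,.o ⟨false,1,⟨9,[(1,5),(6,3),(0,1),(13,2),(8,2)]⟩,⟨0,[(6,0)]⟩⟩,.o ⟨false,1,⟨3,[(2,2),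
  (9,0),(0,0),(5,0),(7,0)]⟩,⟨0,[(7,0)]⟩⟩,.a ⟨true,0,⟨0,[(19,0)]⟩,⟨0,[(16,0)]⟩⟩ ⟨false,1,⟨7,[(3,1),
  (2,7),(2,1),(13,0),(7,2),(0,3)]⟩,⟨0,[(0,0)]⟩⟩ ⟨true,0,⟨0,[(1,0),(14,0)]⟩,⟨0,[(6,0),(12,0)]⟩⟩]⟩)
  (.Q [0,1,0,1,-1,0,-2,-2,0,0,-2] (.p false [0,0,1] [0,1,-1] (⟨0,[(22,0)]⟩,⟨0,[(21,0)]⟩) .k 2 (⟨0,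
  [(11,0)]⟩,⟨0,[(22,0),(1,0)]⟩) .k (.r (-1) ⟨2,[(3,1),(5,0),(7,5),(9,0),(4,2)]⟩ ⟨0,[(4,1)]⟩)) (.R
  ⟨0,false,false,false,[0,0,1],[0,1,-1],[1,0,0,0,0,0,0,1],(⟨0,[(23,0)]⟩,⟨0,[(22,0)]⟩),(⟨0,[(12,0)]⟩,
  ⟨0,[(23,0),(1,0)]⟩),⟨0,[(12,0)]⟩,.k,.k,.k,(.r (-1) ⟨5,[(1,5),(2,1),(5,0),(7,5),(9,0),(4,5)]⟩ ⟨1,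
  [(0,0),(4,0),(3,0),(10,1)]⟩),.k,.k,⟨false,1,⟨0,[(1,1),(29,0),(1,0)]⟩,⟨1,[(0,0),(4,0),(3,0),(10,
  1)]⟩⟩,⟨true,0,⟨0,[(4,0)]⟩,⟨0,[(20,1)]⟩⟩,⟨true,0,⟨0,[]⟩,⟨0,[(35,0)]⟩⟩,⟨false,0,⟨0,[(0,0),(32,0)]⟩,
  ⟨0,[(7,0),(10,0),(14,0)]⟩⟩,⟨false,0,⟨0,[]⟩,⟨0,[]⟩⟩,⟨false,0,⟨0,[]⟩,⟨0,[]⟩⟩,[.o ⟨false,0,⟨0,[(2,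
  0)]⟩,⟨1,[(7,1),(5,0),(0,0),(18,0)]⟩⟩,.o ⟨false,1,⟨9,[(2,5),(6,3),(0,1),(13,2),(8,2)]⟩,⟨0,[(7,
  0)]⟩⟩,.o ⟨false,1,⟨3,[(3,2),(9,0),(0,0),(5,0),(7,0)]⟩,⟨0,[(8,0)]⟩⟩,.a ⟨true,0,⟨0,[(20,0)]⟩,⟨0,
  [(17,0)]⟩⟩ ⟨false,1,⟨0,[(1,0),(29,0),(1,0)]⟩,⟨3,[(5,3),(4,0),(9,1),(7,0)]⟩⟩ ⟨true,0,⟨3,[(0,1),(3,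
  1),(26,1),(0,0),(0,0)]⟩,⟨0,[(7,0),(12,0)]⟩⟩]⟩) (.R ⟨0,false,false,true,[0,0,1],[0,1,-1],[0,1,0,-1,
  0,0,0,1],(⟨0,[(23,0)]⟩,⟨0,[(22,0)]⟩),(⟨0,[(12,0)]⟩,⟨0,[(23,0),(1,0)]⟩),⟨0,[(12,0)]⟩,.k,.k,.k,(.r
  (-1) ⟨23,[(0,15),(0,7),(2,9),(5,9),(7,7),(5,4),(7,2)]⟩ ⟨3,[(5,7),(4,0),(9,1),(7,0),(2,3)]⟩),.k,.k,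
  ⟨false,1,⟨0,[(1,1),(31,0)]⟩,⟨3,[(5,7),(4,0),(9,1),(7,0),(2,7)]⟩⟩,⟨true,0,⟨0,[(4,0)]⟩,⟨0,[(20,
  1)]⟩⟩,⟨true,0,⟨0,[(30,0)]⟩,⟨0,[(31,0)]⟩⟩,⟨false,0,⟨2,[(2,1),(2,3),(4,1),(20,0)]⟩,⟨0,[(0,0)]⟩⟩,
  ⟨false,0,⟨0,[]⟩,⟨0,[]⟩⟩,⟨false,0,⟨0,[]⟩,⟨0,[]⟩⟩,[.o ⟨false,0,⟨4,[(2,3),(16,0),(7,1),(0,0),(2,0)]⟩,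
  ⟨1,[(0,0),(29,0),(2,0)]⟩⟩,.o ⟨false,0,⟨0,[(2,0)]⟩,⟨1,[(0,0),(12,0),(0,0),(15,0)]⟩⟩,.o ⟨false,1,⟨8,
  [(0,0),(2,5),(5,1),(10,0),(6,0),(0,2),(1,0)]⟩,⟨0,[(8,0)]⟩⟩,.a ⟨true,0,⟨0,[(20,0)]⟩,⟨0,[(17,0)]⟩⟩
  ⟨true,0,⟨0,[(1,0)]⟩,⟨3,[(5,3),(4,0),(9,1),(7,0),(2,3)]⟩⟩ ⟨false,0,⟨0,[(2,0),(14,0)]⟩,⟨1,[(0,0),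
  (19,1),(9,0),(2,0)]⟩⟩]⟩))) (.I [0,0,-2,-1,1,0,0,2] (.Q [0,-1,0,1,0,0,-2,-2,0,0,-2] (.p false [0,0,
  1] [0,1,-1] (⟨0,[(22,0)]⟩,⟨0,[(21,0)]⟩) .k 2 (⟨0,[(11,0)]⟩,⟨0,[(22,0),(1,0)]⟩) .k (.r (-1) ⟨1,[(0,
  0),(8,0),(7,1),(9,0),(2,0),(1,0)]⟩ ⟨0,[(4,1)]⟩)) (.R ⟨0,false,false,false,[0,0,1],[0,1,-1],[1,0,0,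
  0,0,0,0,1],(⟨0,[(23,0)]⟩,⟨0,[(22,0)]⟩),(⟨0,[(12,0)]⟩,⟨0,[(23,0),(1,0)]⟩),⟨0,[(12,0)]⟩,.k,.k,.k,
  (.r (-1) ⟨17,[(1,15),(0,3),(6,1),(0,2),(7,1),(9,6)]⟩ ⟨2,[(0,1),(4,1),(14,3),(6,0),(3,0)]⟩),.k,.k,
  ⟨false,1,⟨0,[(1,0)]⟩,⟨2,[(0,1),(4,1),(14,3),(6,0),(3,0)]⟩⟩,⟨true,0,⟨0,[(4,0)]⟩,⟨0,[(20,1)]⟩⟩,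
  ⟨true,0,⟨0,[]⟩,⟨0,[(35,0)]⟩⟩,⟨false,0,⟨0,[(0,0)]⟩,⟨0,[(1,0),(18,1)]⟩⟩,⟨false,0,⟨0,[]⟩,⟨0,[]⟩⟩,
  ⟨false,0,⟨0,[]⟩,⟨0,[]⟩⟩,[.e ⟨false,1,⟨9,[(1,4),(7,3),(0,1),(7,3),(5,0),(6,0)]⟩,⟨0,[(5,0)]⟩⟩
  ⟨false,0,⟨1,[(0,0),(3,0),(24,0),(1,1)]⟩,⟨3,[(2,1),(0,1),(3,1),(5,0),(0,0),(5,1),(12,0)]⟩⟩,.o
  ⟨false,1,⟨15,[(0,5),(8,3),(0,1),(13,8),(6,5),(1,2)]⟩,⟨0,[(7,0)]⟩⟩,.o ⟨false,1,⟨3,[(3,2),(9,0),(0,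
  0),(5,0),(7,0)]⟩,⟨0,[(8,0)]⟩⟩,.a ⟨true,0,⟨0,[(20,0)]⟩,⟨0,[(17,0)]⟩⟩ ⟨false,1,⟨1,[(1,0),(29,0),(1,
  0)]⟩,⟨1,[(0,0),(19,1),(9,0)]⟩⟩ ⟨true,0,⟨1,[(0,0),(3,0),(24,0),(1,1)]⟩,⟨0,[(7,0),(12,0)]⟩⟩]⟩) (.R
  ⟨0,false,false,false,[0,0,1],[0,1,-1],[1,1,1],(⟨0,[(23,0)]⟩,⟨0,[(22,0)]⟩),(⟨0,[(12,0)]⟩,⟨0,[(23,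
  0),(1,0)]⟩),⟨0,[(12,0)]⟩,.k,.k,.k,(.r (-1) ⟨7,[(0,1),(0,5),(8,1),(2,0),(0,0),(13,1),(4,0)]⟩ ⟨3,
  [(5,7),(4,0),(9,1),(7,0),(2,3)]⟩),.k,.k,⟨false,0,⟨1,[(0,0),(3,0),(24,0)]⟩,⟨0,[(9,0)]⟩⟩,⟨true,0,⟨0,
  [(4,0)]⟩,⟨0,[(20,1)]⟩⟩,⟨false,0,⟨3,[(5,3),(4,0),(9,1),(7,0)]⟩,⟨1,[(1,0),(29,0),(1,0)]⟩⟩,⟨true,0,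
  ⟨0,[(6,1),(24,0)]⟩,⟨0,[(0,0)]⟩⟩,⟨false,0,⟨0,[]⟩,⟨0,[]⟩⟩,⟨false,0,⟨0,[]⟩,⟨0,[]⟩⟩,[.e ⟨false,0,⟨0,
  [(35,0)]⟩,⟨1,[(32,0),(0,0)]⟩⟩ ⟨false,0,⟨0,[(4,0),(0,0),(25,0)]⟩,⟨5,[(0,2),(1,1),(0,1),(5,1),(10,
  1),(9,2),(2,1)]⟩⟩,.o ⟨false,1,⟨1,[(6,1),(17,0),(6,1),(1,0)]⟩,⟨0,[(7,0)]⟩⟩,.o ⟨false,1,⟨5,[(0,0),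
  (2,3),(5,1),(18,1),(1,0)]⟩,⟨0,[(8,0)]⟩⟩,.a ⟨true,0,⟨0,[(20,0)]⟩,⟨0,[(17,0)]⟩⟩ ⟨false,0,⟨0,[]⟩,⟨1,
  [(13,0),(0,0),(18,0)]⟩⟩ ⟨true,0,⟨0,[(4,0),(0,0),(25,0)]⟩,⟨1,[(0,0),(19,1),(9,0)]⟩⟩]⟩)) (.R ⟨0,
  false,false,false,[0,0,1],[0,1,-1],[],(⟨0,[(22,0)]⟩,⟨0,[(21,0)]⟩),(⟨0,[(11,0)]⟩,⟨0,[(22,0),(1,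
  0)]⟩),⟨0,[(11,0)]⟩,.k,.k,.k,(.r (-1) ⟨0,[(3,0),(2,0),(10,0),(14,0)]⟩ ⟨4,[(0,2),(3,0),(3,2),(17,0),
  (2,0)]⟩),.k,.k,⟨false,1,⟨0,[(1,0),(0,0),(0,0)]⟩,⟨9,[(0,3),(7,3),(0,0),(7,1),(9,0),(2,1),(3,1)]⟩⟩,
  ⟨true,0,⟨0,[(3,0)]⟩,⟨0,[(19,1)]⟩⟩,⟨true,0,⟨0,[(4,0)]⟩,⟨5,[(3,1),(5,0),(7,5),(9,0)]⟩⟩,⟨false,0,⟨1,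
  [(0,1),(2,1),(27,0),(0,0)]⟩,⟨0,[(6,0),(10,0),(14,0)]⟩⟩,⟨false,0,⟨0,[]⟩,⟨0,[]⟩⟩,⟨false,0,⟨0,[]⟩,⟨0,
  []⟩⟩,[.e ⟨false,1,⟨1,[(12,0),(0,0),(17,0)]⟩,⟨0,[]⟩⟩ ⟨false,0,⟨1,[(0,0),(2,1),(26,0),(0,0)]⟩,⟨3,
  [(1,1),(0,1),(3,1),(5,0),(0,0),(5,1),(12,0)]⟩⟩,.o ⟨false,1,⟨3,[(0,0),(2,1),(4,1),(14,1),(6,0),(1,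
  0)]⟩,⟨0,[(6,0)]⟩⟩,.o ⟨false,1,⟨3,[(2,2),(9,0),(0,0),(5,0),(7,0)]⟩,⟨0,[(7,0)]⟩⟩,.a ⟨true,0,⟨0,[(19,
  0)]⟩,⟨0,[(16,0)]⟩⟩ ⟨false,1,⟨1,[(31,0),(0,0)]⟩,⟨3,[(9,0),(9,1),(7,0)]⟩⟩ ⟨true,0,⟨1,[(0,0),(2,1),
  (26,0),(0,0)]⟩,⟨0,[(6,0),(12,0)]⟩⟩]⟩))) (.R ⟨0,false,false,true,[0,0,1],[1,-1],[0,1],(⟨0,[(20,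
  0)]⟩,⟨0,[(19,0)]⟩),(⟨0,[(22,0)]⟩,⟨0,[(23,0)]⟩),⟨0,[(9,0)]⟩,.k,.k,.k,.k,.k,.k,⟨false,0,⟨0,[(28,
  0)]⟩,⟨1,[(27,1),(1,0),(0,0)]⟩⟩,⟨true,(-1),⟨0,[(0,0)]⟩,⟨1,[(17,1),(3,0),(7,0)]⟩⟩,⟨false,0,⟨0,[(2,
  0)]⟩,⟨5,[(1,1),(5,0),(7,5),(9,0),(4,5)]⟩⟩,⟨true,(-1),⟨0,[(0,0),(1,0),(23,0)]⟩,⟨1,[(15,1),(5,0),(6,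
  1),(1,0)]⟩⟩,⟨false,0,⟨0,[]⟩,⟨0,[]⟩⟩,⟨false,0,⟨0,[]⟩,⟨0,[]⟩⟩,[.o ⟨false,0,⟨0,[(27,0)]⟩,⟨1,[(21,0),
  (6,1),(1,0)]⟩⟩,.e ⟨false,1,⟨1,[(10,0),(0,0),(17,0)]⟩,⟨0,[]⟩⟩ ⟨false,0,⟨1,[(0,0),(13,0),(11,1),(3,
  0)]⟩,⟨1,[(17,1),(3,0),(6,1),(0,0)]⟩⟩,.o ⟨false,1,⟨1,[(17,1),(3,0),(7,0)]⟩,⟨0,[(5,0)]⟩⟩,.a ⟨true,0,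
  ⟨0,[(17,0)]⟩,⟨0,[(14,0)]⟩⟩ ⟨true,0,⟨0,[(26,0),(1,0)]⟩,⟨3,[(7,0),(9,1),(7,0)]⟩⟩ ⟨false,0,⟨1,[(0,0),
  (13,0),(11,1),(3,0)]⟩,⟨1,[(17,1),(3,0),(6,1),(1,0)]⟩⟩]⟩)) (.I [1,-1,-1,-1,1,0,0,1] (.K ⟨0,[0,1,
  -1],0,0,(⟨0,[(9,0)]⟩,⟨0,[(20,0),(1,0)]⟩),.k,.k,(.r 0 ⟨1,[(2,1),(4,0),(9,1),(7,0),(2,3)]⟩ ⟨0,[(0,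
  0),(25,0)]⟩),(.r 0 ⟨3,[(2,7),(4,0),(9,1),(7,0),(2,3)]⟩ ⟨0,[(0,0),(4,0),(9,0)]⟩),.k,[⟨0,[(1,0)]⟩,
  ⟨0,[(5,0)]⟩,⟨0,[(4,0)]⟩,⟨0,[(16,0),(11,0)]⟩]⟩) (.I [1,-1,-1,0,1,0,0,1] (.Q [0,1,0,0,-1,0,0,-1,0,
  1] (.pp false [-1,1]) (.R ⟨0,false,false,true,[0,1,-1],[1,0,-1],[0,1,1,0,0,0,0,-1],(⟨0,[(11,0)]⟩,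
  ⟨0,[(22,0),(1,0)]⟩),(⟨0,[(21,0)]⟩,⟨0,[(22,0)]⟩),⟨0,[(22,0)]⟩,.k,.k,.k,.k,.k,.k,⟨true,0,⟨3,[(9,0),
  (9,1),(7,0)]⟩,⟨0,[]⟩⟩,⟨false,0,⟨2,[(3,1),(5,0),(6,1)]⟩,⟨1,[(23,0),(7,0)]⟩⟩,⟨true,0,⟨0,[(29,0)]⟩,
  ⟨0,[(30,0)]⟩⟩,⟨false,0,⟨0,[(0,0),(5,0),(0,0),(24,0)]⟩,⟨1,[(23,0),(6,1),(1,0)]⟩⟩,⟨false,0,⟨0,[]⟩,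
  ⟨0,[]⟩⟩,⟨false,0,⟨0,[]⟩,⟨0,[]⟩⟩,[.e ⟨false,0,⟨3,[(3,0),(0,1),(13,1),(7,0)]⟩,⟨0,[(1,0)]⟩⟩ ⟨false,
  (-1),⟨0,[(0,0)]⟩,⟨1,[(1,1),(10,0),(0,0),(9,0)]⟩⟩,.o ⟨false,0,⟨0,[(5,0)]⟩,⟨1,[(17,1),(5,0),(8,
  0)]⟩⟩,.o ⟨false,1,⟨1,[(7,1),(15,0),(7,0)]⟩,⟨0,[(19,0)]⟩⟩,.a ⟨true,0,⟨0,[(7,0)]⟩,⟨0,[(3,0),(12,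
  0)]⟩⟩ ⟨false,0,⟨0,[(4,0)]⟩,⟨3,[(1,1),(7,0),(7,1),(9,0),(4,1)]⟩⟩ ⟨true,(-1),⟨0,[(0,0)]⟩,⟨3,[(1,1),
  (7,0),(7,1),(5,1),(3,0)]⟩⟩]⟩) (.Q [0,-1,0,0,1,0,1,1,0,-1,1] (.p true [0,0,1] [1] (⟨0,[(22,0)]⟩,⟨0,
  [(21,0)]⟩) .k 1 (⟨0,[]⟩,⟨0,[]⟩) .k .k) (.Q [0,1,0,1,-1,0,-2,-2,0,0,-2] (.p false [0,0,1] [0,1,-1]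
  (⟨0,[(23,0)]⟩,⟨0,[(22,0)]⟩) .k 2 (⟨0,[(12,0)]⟩,⟨0,[(23,0),(1,0)]⟩) .k (.r (-1) ⟨0,[(0,0),(9,0),(7,
  0)]⟩ ⟨0,[(5,1)]⟩)) (.R ⟨0,false,false,false,[0,1,-1],[0,0,1],[1,0,1],(⟨0,[(13,0)]⟩,⟨0,[(24,0),(1,
  0)]⟩),(⟨0,[(24,0)]⟩,⟨0,[(23,0)]⟩),⟨0,[(24,0)]⟩,.k,.k,.k,(.r 0 ⟨7,[(4,3),(1,7),(3,3),(0,0),(9,1),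
  (7,0)]⟩ ⟨0,[(3,0),(4,0),(0,0)]⟩),.k,.k,⟨false,0,⟨0,[(6,0)]⟩,⟨7,[(2,1),(0,1),(7,1),(2,0),(0,0),(3,
  3),(13,2)]⟩⟩,⟨true,0,⟨0,[(5,0)]⟩,⟨0,[(9,1)]⟩⟩,⟨false,1,⟨0,[(8,0),(0,0),(24,0)]⟩,⟨0,[(6,0),(25,
  0)]⟩⟩,⟨true,1,⟨0,[(8,0),(10,0),(14,0)]⟩,⟨0,[(0,0)]⟩⟩,⟨false,0,⟨0,[]⟩,⟨0,[]⟩⟩,⟨false,0,⟨0,[]⟩,⟨0,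
  []⟩⟩,[.o ⟨false,1,⟨3,[(1,1),(12,0),(0,0),(3,1),(5,0)]⟩,⟨0,[(7,0)]⟩⟩,.o ⟨false,1,⟨0,[(1,0)]⟩,⟨0,
  [(20,0)]⟩⟩,.o ⟨false,1,⟨1,[(9,1),(15,0),(7,0)]⟩,⟨0,[(21,0)]⟩⟩,.a ⟨true,0,⟨0,[(9,0)]⟩,⟨0,[(5,0),
  (12,0)]⟩⟩ ⟨true,0,⟨0,[]⟩,⟨0,[(36,0)]⟩⟩ ⟨false,1,⟨0,[(3,0),(1,0)]⟩,⟨0,[(7,0),(1,0)]⟩⟩]⟩) (.R ⟨0,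
  false,false,false,[0,1,-1],[0,0,1],[0,1,1],(⟨0,[(13,0)]⟩,⟨0,[(24,0),(1,0)]⟩),(⟨0,[(24,0)]⟩,⟨0,
  [(23,0)]⟩),⟨0,[(24,0)]⟩,.k,.k,.k,(.r 0 ⟨7,[(4,3),(1,7),(3,3),(0,0),(9,1),(7,0)]⟩ ⟨0,[(3,0),(4,0),
  (0,0)]⟩),.k,.k,⟨false,0,⟨3,[(5,0),(0,1),(13,1),(7,0)]⟩,⟨0,[(3,0)]⟩⟩,⟨true,0,⟨0,[(5,0)]⟩,⟨0,[(9,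
  1)]⟩⟩,⟨true,0,⟨0,[(8,0),(0,0)]⟩,⟨0,[(6,0),(25,0)]⟩⟩,⟨false,1,⟨0,[(0,0)]⟩,⟨0,[(7,1),(24,0)]⟩⟩,
  ⟨false,0,⟨0,[]⟩,⟨0,[]⟩⟩,⟨false,0,⟨0,[]⟩,⟨0,[]⟩⟩,[.o ⟨false,1,⟨4,[(0,0),(1,0),(7,0),(8,2),(5,1)]⟩,
  ⟨0,[(7,0)]⟩⟩,.o ⟨false,1,⟨0,[(1,0)]⟩,⟨0,[(20,0)]⟩⟩,.o ⟨false,1,⟨1,[(9,1),(15,0),(7,0)]⟩,⟨0,[(21,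
  0)]⟩⟩,.a ⟨true,0,⟨0,[(9,0)]⟩,⟨0,[(5,0),(12,0)]⟩⟩ ⟨true,0,⟨0,[(36,0)]⟩,⟨0,[]⟩⟩ ⟨false,1,⟨3,[(0,1),
  (4,1),(26,1),(0,0),(0,0)]⟩,⟨0,[(7,0),(1,0)]⟩⟩]⟩)) (.R ⟨0,false,false,true,[0,1,-1],[1,0,-1],[0,1,
  1,0,0,0,0,-1],(⟨0,[(12,0)]⟩,⟨0,[(23,0),(1,0)]⟩),(⟨0,[(22,0)]⟩,⟨0,[(23,0)]⟩),⟨0,[(23,0)]⟩,.k,.k,.k,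
  .k,.k,.k,⟨true,0,⟨3,[(10,0),(9,1),(7,0)]⟩,⟨0,[]⟩⟩,⟨false,0,⟨2,[(4,1),(5,0),(6,1)]⟩,⟨1,[(24,0),(7,
  0)]⟩⟩,⟨true,0,⟨0,[(30,0)]⟩,⟨0,[(31,0)]⟩⟩,⟨false,0,⟨0,[(0,0),(6,0),(25,0)]⟩,⟨1,[(24,0),(6,1),(1,
  0)]⟩⟩,⟨false,0,⟨0,[]⟩,⟨0,[]⟩⟩,⟨false,0,⟨0,[]⟩,⟨0,[]⟩⟩,[.a ⟨true,(-1),⟨0,[(0,0)]⟩,⟨0,[(18,0),(14,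
  0)]⟩⟩ ⟨false,0,⟨3,[(4,0),(0,1),(13,1),(7,0)]⟩,⟨0,[(2,0)]⟩⟩ ⟨true,(-1),⟨0,[(0,0),(19,0)]⟩,⟨0,[(1,
  0)]⟩⟩,.o ⟨false,0,⟨0,[(6,0)]⟩,⟨11,[(1,5),(2,1),(2,1),(1,1),(8,5),(5,2),(7,0)]⟩⟩,.o ⟨false,1,⟨1,
  [(8,1),(15,0),(7,0)]⟩,⟨0,[(20,0)]⟩⟩,.e ⟨false,0,⟨0,[(5,0)]⟩,⟨2,[(1,0),(8,0),(7,1),(14,1)]⟩⟩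
  ⟨false,0,⟨7,[(0,5),(3,3),(4,1),(7,1),(12,1),(1,0),(0,2)]⟩,⟨0,[(1,0)]⟩⟩]⟩))) (.Q [0,-1,-2,-1,1,0,
  -1,-1,0,0,-1] (.p false [0,0,1] [] (⟨0,[(21,0)]⟩,⟨0,[(20,0)]⟩) .k 0 (⟨0,[]⟩,⟨0,[]⟩) .k .k) (.Q [0,
  1,0,0,-1,0,0,-1,0,1] (.pp false [-1,1]) (.R ⟨0,false,false,true,[0,1,-1],[1,0,-1],[],(⟨0,[(12,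
  0)]⟩,⟨0,[(23,0),(1,0)]⟩),(⟨0,[(22,0)]⟩,⟨0,[(23,0)]⟩),⟨0,[(23,0)]⟩,.k,.k,.k,.k,.k,.k,⟨true,1,⟨0,
  [(8,0),(9,0),(14,0)]⟩,⟨0,[(2,0)]⟩⟩,⟨false,0,⟨2,[(4,1),(5,0),(6,1)]⟩,⟨1,[(24,0),(7,0)]⟩⟩,⟨true,1,
  ⟨1,[(7,1),(0,1),(23,0),(0,0)]⟩,⟨0,[(3,0)]⟩⟩,⟨false,0,⟨0,[(0,0),(6,0),(0,0),(24,0)]⟩,⟨1,[(24,0),(6,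
  1),(1,0)]⟩⟩,⟨false,0,⟨0,[]⟩,⟨0,[]⟩⟩,⟨false,0,⟨0,[]⟩,⟨0,[]⟩⟩,[.e ⟨false,1,⟨1,[(13,0),(0,0),(17,
  0)]⟩,⟨0,[]⟩⟩ ⟨false,(-1),⟨0,[(0,0)]⟩,⟨1,[(8,1),(9,1),(5,0),(7,0),(0,1)]⟩⟩,.o ⟨false,0,⟨0,[(6,0)]⟩,
  ⟨1,[(18,1),(5,0),(8,0)]⟩⟩,.o ⟨false,1,⟨1,[(8,1),(15,0),(7,0)]⟩,⟨0,[(20,0)]⟩⟩,.a ⟨true,0,⟨0,[(8,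
  0)]⟩,⟨0,[(4,0),(12,0)]⟩⟩ ⟨false,1,⟨1,[(32,0),(0,0)]⟩,⟨3,[(10,0),(9,1),(7,0)]⟩⟩ ⟨true,(-1),⟨0,[(0,
  0)]⟩,⟨1,[(8,1),(9,1),(5,0),(8,0)]⟩⟩]⟩) (.R ⟨0,false,false,true,[0,1,-1],[1,0,-1],[],(⟨0,[(12,0)]⟩,
  ⟨0,[(23,0),(1,0)]⟩),(⟨0,[(22,0)]⟩,⟨0,[(23,0)]⟩),⟨0,[(23,0)]⟩,.k,.k,.k,.k,.k,.k,⟨true,1,⟨2,[(0,0),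
  (9,0),(7,1),(14,1)]⟩,⟨0,[(2,0)]⟩⟩,⟨false,0,⟨2,[(4,1),(5,0),(6,1)]⟩,⟨1,[(24,0),(7,0)]⟩⟩,⟨true,1,⟨5,
  [(0,1),(0,0),(5,4),(2,1),(21,1),(0,0)]⟩,⟨0,[(3,0)]⟩⟩,⟨false,0,⟨0,[(2,0),(4,0),(9,0),(15,0)]⟩,⟨1,
  [(24,0),(6,1),(1,0)]⟩⟩,⟨false,0,⟨0,[]⟩,⟨0,[]⟩⟩,⟨false,0,⟨0,[]⟩,⟨0,[]⟩⟩,[.a ⟨true,(-1),⟨0,[(2,0),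
  (14,0)]⟩,⟨0,[(18,0),(14,0)]⟩⟩ ⟨false,1,⟨1,[(13,0),(0,0),(17,0)]⟩,⟨0,[]⟩⟩ ⟨true,(-1),⟨2,[(2,2),(1,
  1),(5,0),(6,1)]⟩,⟨0,[(0,0)]⟩⟩,.o ⟨false,0,⟨0,[(6,0)]⟩,⟨11,[(0,5),(3,1),(2,1),(1,1),(8,5),(5,2),(7,
  0)]⟩⟩,.o ⟨false,1,⟨1,[(8,1),(15,0),(7,0)]⟩,⟨0,[(20,0)]⟩⟩,.e ⟨false,1,⟨1,[(32,0),(0,0)]⟩,⟨3,[(10,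
  0),(9,1),(7,0)]⟩⟩ ⟨false,0,⟨2,[(4,1),(0,2),(4,0),(6,1)]⟩,⟨0,[(0,0)]⟩⟩]⟩)) (.Q [0,0,-1,0,1,0,1,0,0,
  -1,1] (.p true [0,0,1] [1] (⟨0,[(22,0)]⟩,⟨0,[(21,0)]⟩) .k 1 (⟨0,[]⟩,⟨0,[]⟩) .k .k) (.S ⟨1,0,[0,0,
  0,0,0,0,0,-1],[1,0,-1],[1,1,0,-1,0,0,0,-1],(⟨0,[(22,0)]⟩,⟨0,[(23,0)]⟩),⟨0,[(11,0)]⟩,.k,.k,⟨true,0,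
  ⟨0,[(30,0)]⟩,⟨0,[(31,0)]⟩⟩,⟨false,1,⟨1,[(13,0),(0,0),(18,0)]⟩,⟨0,[]⟩⟩,⟨false,0,⟨0,[]⟩,⟨1,[(13,0),
  (0,0),(18,0)]⟩⟩,⟨true,0,⟨0,[(31,0)]⟩,⟨0,[(30,0)]⟩⟩,[.o ⟨false,0,⟨0,[(6,0)]⟩,⟨1,[(18,1),(5,0),(8,
  0)]⟩⟩,.a ⟨true,0,⟨0,[(2,0),(14,0),(15,0)]⟩,⟨0,[(18,0)]⟩⟩ ⟨true,0,⟨0,[(2,0),(26,0),(3,0)]⟩,⟨1,[(1,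
  0),(6,1),(9,0),(12,0),(1,0)]⟩⟩ ⟨false,1,⟨1,[(5,1),(26,0),(0,0)]⟩,⟨0,[(8,0),(9,0)]⟩⟩,.o ⟨false,0,
  ⟨0,[(8,0)]⟩,⟨3,[(0,2),(12,0),(0,0),(5,0),(7,0)]⟩⟩,.o ⟨false,0,⟨0,[(21,0)]⟩,⟨0,[(0,0)]⟩⟩]⟩) (.R ⟨0,
  false,false,true,[0,0,1],[1,-1],[0,1],(⟨0,[(23,0)]⟩,⟨0,[(22,0)]⟩),(⟨0,[(25,0)]⟩,⟨0,[(26,0)]⟩),⟨0,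
  [(12,0)]⟩,.k,.k,.k,.k,.k,.k,⟨false,0,⟨0,[(31,0)]⟩,⟨1,[(30,1),(1,0),(0,0)]⟩⟩,⟨true,(-1),⟨0,[(0,
  0)]⟩,⟨5,[(4,1),(2,1),(1,1),(14,2),(7,0)]⟩⟩,⟨false,0,⟨0,[(5,0)]⟩,⟨0,[(8,0),(9,0),(14,0)]⟩⟩,⟨true,
  (-1),⟨0,[(0,0),(4,0),(23,0)]⟩,⟨1,[(18,1),(5,0),(6,1),(1,0)]⟩⟩,⟨false,0,⟨0,[]⟩,⟨0,[]⟩⟩,⟨false,0,⟨0,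
  []⟩,⟨0,[]⟩⟩,[.o ⟨false,0,⟨0,[(30,0)]⟩,⟨1,[(24,0),(6,1),(1,0)]⟩⟩,.e ⟨false,1,⟨1,[(13,0),(0,0),(17,
  0)]⟩,⟨0,[]⟩⟩ ⟨false,0,⟨1,[(0,0),(16,0),(11,1),(3,0)]⟩,⟨5,[(4,1),(4,1),(8,1),(5,2),(6,3),(0,0)]⟩⟩,
  .o ⟨false,1,⟨5,[(4,1),(2,1),(1,1),(14,2),(7,0)]⟩,⟨0,[(8,0)]⟩⟩,.a ⟨true,0,⟨0,[(20,0)]⟩,⟨0,[(17,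
  0)]⟩⟩ ⟨true,0,⟨0,[(29,0),(1,0)]⟩,⟨3,[(10,0),(9,1),(7,0)]⟩⟩ ⟨false,0,⟨1,[(0,0),(16,0),(11,1),(3,
  0)]⟩,⟨5,[(1,1),(2,1),(4,1),(14,2),(6,1),(1,2)]⟩⟩]⟩))))))) (.Q [0,0,0,-1,0,0,1,1,0,0,1] (.p true
  [0,0,1] [] (⟨0,[(17,0)]⟩,⟨0,[(16,0)]⟩) .k 0 (⟨0,[]⟩,⟨0,[]⟩) .k .k) (.Q [0,-1,1,1,1,0,0,-1,0,-1]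
  (.pp true [-1,1]) (.I [0,0,-1,0,0,0,0,1] (.Q [0,0,1,0,0,0,2,0,0,0,2] (.p true [0,0,1] [0,1,-1]
  (⟨0,[(20,0)]⟩,⟨0,[(19,0)]⟩) .k 2 (⟨0,[(9,0)]⟩,⟨0,[(20,0),(1,0)]⟩) .k (.i 0 ⟨0,[(20,1)]⟩ ⟨0,[(8,0),
  (0,0)]⟩)) (.I [0,0,2,2,0,0,0,-1] (.K ⟨0,[0,1,-1],0,0,(⟨0,[(11,0)]⟩,⟨0,[(22,0),(1,0)]⟩),.k,.k,(.r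
  0 ⟨0,[(0,0)]⟩ ⟨5,[(2,1),(1,3),(4,1),(13,0),(4,7),(2,0),(0,3)]⟩),(.r (-1) ⟨0,[(8,0),(9,0),(0,0)]⟩
  ⟨0,[(2,0),(1,0),(2,0)]⟩),.k,[⟨0,[(1,0)]⟩,⟨0,[(7,0)]⟩,⟨0,[(6,0)]⟩,⟨0,[(18,0),(11,0)]⟩]⟩) (.I [0,0,
  -2,0,1,-2,-1] (.K ⟨0,[0,1,-1],0,0,(⟨0,[(12,0)]⟩,⟨0,[(23,0),(1,0)]⟩),.k,.k,(.x (-1) ⟨0,[(0,0)]⟩ ⟨3,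
  [(10,0),(1,3),(7,5),(5,3),(1,0)]⟩),(.r (-1) ⟨0,[(9,0),(9,0),(0,0)]⟩ ⟨9,[(1,1),(1,11),(1,5),(4,2),
  (17,2)]⟩),.k,[⟨0,[(2,0)]⟩,⟨0,[(8,0)]⟩,⟨0,[(7,0)]⟩,⟨0,[(19,0),(11,0)]⟩]⟩) (.R ⟨0,false,false,false,
  [0,1,-1],[0,0,1],[],(⟨0,[(12,0)]⟩,⟨0,[(23,0),(1,0)]⟩),(⟨0,[(23,0)]⟩,⟨0,[(22,0)]⟩),⟨0,[(23,0)]⟩,.k,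
  .k,.k,(.r (-1) ⟨0,[(9,0),(9,0),(0,0)]⟩ ⟨9,[(1,1),(1,11),(1,5),(4,2),(17,2)]⟩),.k,.k,⟨false,1,⟨0,
  [(9,0),(19,0)]⟩,⟨3,[(3,1),(2,1),(3,0),(17,0)]⟩⟩,⟨true,0,⟨0,[(2,0)]⟩,⟨0,[(8,1)]⟩⟩,⟨true,0,⟨9,[(1,
  3),(1,3),(1,1),(4,0),(17,0)]⟩,⟨0,[(19,0),(0,0),(10,0)]⟩⟩,⟨false,0,⟨3,[(0,1),(0,6),(0,2),(0,0),(19,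
  1),(1,3),(2,3),(2,9),(1,1)]⟩,⟨0,[(8,0),(0,0),(9,0)]⟩⟩,⟨false,0,⟨0,[]⟩,⟨0,[]⟩⟩,⟨false,0,⟨0,[]⟩,⟨0,
  []⟩⟩,[.e ⟨false,1,⟨1,[(13,0),(0,0),(17,0)]⟩,⟨0,[]⟩⟩ ⟨false,0,⟨0,[(2,0),(0,0)]⟩,⟨1,[(8,1),(10,1),
  (12,0),(0,0)]⟩⟩,.o ⟨false,1,⟨1,[(6,1),(17,0),(8,0)]⟩,⟨0,[(19,0)]⟩⟩,.o ⟨false,1,⟨1,[(8,1),(15,0),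
  (7,0)]⟩,⟨0,[(20,0)]⟩⟩,.a ⟨true,0,⟨0,[(8,0)]⟩,⟨0,[(2,0),(14,0)]⟩⟩ ⟨false,1,⟨1,[(32,0),(0,0)]⟩,⟨3,
  [(10,0),(9,1),(7,0)]⟩⟩ ⟨true,0,⟨0,[(2,0),(0,0)]⟩,⟨0,[(8,0),(10,0)]⟩⟩]⟩))) (.I [1,0,-2,-1,0,0,0,1]
  (.I [1,1,1,0,-1,0,0,1] (.Q [0,0,0,0,0,0,1,1,0,-1,1] (.p true [0,0,1] [1] (⟨0,[(23,0)]⟩,⟨0,[(22,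
  0)]⟩) .k 1 (⟨0,[]⟩,⟨0,[]⟩) .k .k) (.Q [0,1,0,-1,-1,0,2,2,0,0,2] (.p true [0,0,1] [0,1,-1] (⟨0,
  [(24,0)]⟩,⟨0,[(23,0)]⟩) .k 2 (⟨0,[(13,0)]⟩,⟨0,[(24,0),(1,0)]⟩) .k (.x (-1) ⟨0,[(0,0),(9,0),(1,0),
  (0,0),(7,0),(8,0)]⟩ ⟨2,[(3,1),(7,0),(12,5),(4,0)]⟩)) (.R ⟨0,false,false,false,[0,0,1],[0,1,-1],[1,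
  0,1],(⟨0,[(25,0)]⟩,⟨0,[(24,0)]⟩),(⟨0,[(14,0)]⟩,⟨0,[(25,0),(1,0)]⟩),⟨0,[(14,0)]⟩,.k,.k,.k,(.r 0 ⟨2,
  [(3,0),(1,2),(1,1),(4,0),(17,0)]⟩ ⟨0,[(11,0),(9,0),(0,0)]⟩),.k,.k,⟨false,0,⟨5,[(3,3),(3,1),(4,0),
  (17,0)]⟩,⟨0,[(11,0),(25,0)]⟩⟩,⟨true,0,⟨0,[(4,0)]⟩,⟨0,[(22,1)]⟩⟩,⟨false,1,⟨0,[(21,0),(0,0),(12,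
  0)]⟩,⟨0,[(5,0)]⟩⟩,⟨true,1,⟨3,[(4,0),(1,0),(4,2),(0,0),(8,3)]⟩,⟨0,[(0,0)]⟩⟩,⟨false,0,⟨0,[]⟩,⟨0,
  []⟩⟩,⟨false,0,⟨0,[]⟩,⟨0,[]⟩⟩,[.o ⟨false,1,⟨1,[(4,0),(1,1),(22,0)]⟩,⟨0,[(7,0)]⟩⟩,.e ⟨false,1,⟨1,
  [(15,0),(0,0),(18,0)]⟩,⟨0,[(31,0),(1,0)]⟩⟩ ⟨false,1,⟨0,[(4,0),(6,0)]⟩,⟨2,[(0,0),(8,0),(12,2),(8,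
  0),(2,0)]⟩⟩,.o ⟨false,1,⟨1,[(22,1),(3,0),(7,0)]⟩,⟨0,[(10,0)]⟩⟩,.a ⟨true,0,⟨0,[(22,0)]⟩,⟨0,[(19,
  0)]⟩⟩ ⟨true,0,⟨0,[]⟩,⟨0,[(37,0)]⟩⟩ ⟨false,1,⟨0,[(4,0),(6,0)]⟩,⟨0,[(7,0),(14,0)]⟩⟩]⟩) (.R ⟨0,false,
  false,false,[0,0,1],[0,1,-1],[1,0,0,0,0,0,0,1],(⟨0,[(25,0)]⟩,⟨0,[(24,0)]⟩),(⟨0,[(14,0)]⟩,⟨0,[(25,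
  0),(1,0)]⟩),⟨0,[(14,0)]⟩,.k,.k,.k,(.r 0 ⟨2,[(3,0),(1,2),(1,1),(4,0),(17,0)]⟩ ⟨0,[(11,0),(9,0),(0,
  0)]⟩),.k,.k,⟨false,0,⟨5,[(3,3),(1,5),(1,1),(4,0),(17,0)]⟩,⟨0,[(11,0),(9,0),(0,0)]⟩⟩,⟨true,0,⟨0,
  [(4,0)]⟩,⟨0,[(22,1)]⟩⟩,⟨true,0,⟨0,[]⟩,⟨0,[(37,0)]⟩⟩,⟨false,1,⟨0,[(0,0)]⟩,⟨0,[(7,0),(0,0)]⟩⟩,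
  ⟨false,0,⟨0,[]⟩,⟨0,[]⟩⟩,⟨false,0,⟨0,[]⟩,⟨0,[]⟩⟩,[.o ⟨false,1,⟨13,[(0,5),(5,1),(5,0),(13,5),(2,3),
  (0,0),(2,5)]⟩,⟨0,[(7,0)]⟩⟩,.o ⟨false,1,⟨0,[(0,0),(0,0)]⟩,⟨0,[(9,0)]⟩⟩,.o ⟨false,1,⟨1,[(22,1),(3,
  0),(7,0)]⟩,⟨0,[(10,0)]⟩⟩,.a ⟨true,0,⟨0,[(22,0)]⟩,⟨0,[(19,0)]⟩⟩ ⟨true,0,⟨0,[(5,0)]⟩,⟨0,[(21,0),(0,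
  0)]⟩⟩ ⟨false,1,⟨0,[(0,0),(4,0)]⟩,⟨0,[(7,0),(14,0)]⟩⟩]⟩)) (.S ⟨1,0,[0,1,0,0,0,0,0,-1],[1,0,-1],[0,
  0,0,0,0,0,0,-1],(⟨0,[(23,0)]⟩,⟨0,[(24,0)]⟩),⟨0,[(12,0)]⟩,.k,.k,⟨false,1,⟨1,[(14,0),(0,0),(18,0)]⟩,
  ⟨0,[]⟩⟩,⟨true,0,⟨0,[(36,0)]⟩,⟨0,[]⟩⟩,⟨true,0,⟨0,[(32,0)]⟩,⟨0,[(31,0)]⟩⟩,⟨false,0,⟨0,[(32,0)]⟩,⟨0,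
  [(31,0),(2,0)]⟩⟩,[.o ⟨false,0,⟨0,[(20,0)]⟩,⟨1,[(7,1),(17,0),(8,0)]⟩⟩,.a ⟨true,0,⟨0,[(0,0)]⟩,⟨0,
  [(7,0)]⟩⟩ ⟨true,1,⟨0,[(0,0),(1,0),(2,0),(15,0)]⟩,⟨0,[(1,0)]⟩⟩ ⟨false,1,⟨0,[(10,0),(19,0)]⟩,⟨7,[(1,
  1),(2,3),(6,0),(7,1),(9,0),(4,1)]⟩⟩,.o ⟨false,0,⟨0,[(9,0)]⟩,⟨1,[(21,1),(3,0),(7,0)]⟩⟩,.o ⟨false,0,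
  ⟨0,[(22,0)]⟩,⟨0,[(2,0),(2,0),(15,0),(8,0),(1,0)]⟩⟩]⟩)) (.Q [0,-1,0,1,1,0,-2,-2,0,0,-2] (.p false
  [0,0,1] [0,1,-1] (⟨0,[(23,0)]⟩,⟨0,[(22,0)]⟩) .k 2 (⟨0,[(12,0)]⟩,⟨0,[(23,0),(1,0)]⟩) .k (.r 0 ⟨1,
  [(3,1),(2,1),(3,0),(17,0)]⟩ ⟨0,[(0,0),(18,0),(0,0)]⟩)) (.Q [0,-1,0,1,1,0,-1,-1,0,-1,-1] (.p false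
  [1,-1,1] [] (⟨0,[(24,0),(1,0)]⟩,⟨0,[(13,0)]⟩) .k 0 (⟨0,[]⟩,⟨0,[]⟩) .k .k) (.R ⟨0,false,false,
  false,[0,0,1],[0,1,-1],[1,0,0,0,0,0,0,1],(⟨0,[(25,0)]⟩,⟨0,[(24,0)]⟩),(⟨0,[(14,0)]⟩,⟨0,[(25,0),(1,
  0)]⟩),⟨0,[(14,0)]⟩,.k,.k,.k,(.r 0 ⟨2,[(3,0),(1,2),(1,1),(4,0),(17,0)]⟩ ⟨0,[(11,0),(9,0),(0,0)]⟩),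
  .k,.k,⟨false,0,⟨5,[(3,3),(1,5),(1,1),(4,0),(17,0)]⟩,⟨0,[(11,0),(9,0),(0,0)]⟩⟩,⟨true,0,⟨0,[(4,0)]⟩,
  ⟨0,[(22,1)]⟩⟩,⟨true,0,⟨0,[]⟩,⟨0,[(37,0)]⟩⟩,⟨false,1,⟨0,[(1,0)]⟩,⟨0,[(7,0),(0,0)]⟩⟩,⟨false,0,⟨0,
  []⟩,⟨0,[]⟩⟩,⟨false,0,⟨0,[]⟩,⟨0,[]⟩⟩,[.o ⟨false,1,⟨7,[(0,5),(5,1),(5,0),(16,3),(0,0)]⟩,⟨0,[(7,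
  0)]⟩⟩,.o ⟨false,1,⟨0,[(0,0)]⟩,⟨0,[(9,0)]⟩⟩,.o ⟨false,1,⟨1,[(2,0),(17,0),(1,0),(3,0)]⟩,⟨0,[(10,
  0)]⟩⟩,.a ⟨true,0,⟨0,[(22,0)]⟩,⟨0,[(19,0)]⟩⟩ ⟨true,0,⟨0,[(5,0)]⟩,⟨0,[(21,0),(0,0)]⟩⟩ ⟨false,1,⟨0,
  [(1,0),(3,0)]⟩,⟨0,[(7,0),(14,0)]⟩⟩]⟩) (.R ⟨0,false,false,true,[0,0,1],[1,-1,1],[1,1,-1,-1,0,0,0,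
  1],(⟨0,[(25,0)]⟩,⟨0,[(24,0)]⟩),(⟨0,[(25,0),(1,0)]⟩,⟨0,[(14,0)]⟩),⟨0,[(14,0)]⟩,.k,.k,.k,.k,.k,.k,
  ⟨true,0,⟨0,[]⟩,⟨3,[(12,0),(9,1),(7,0)]⟩⟩,⟨false,0,⟨2,[(0,1),(10,1),(0,0)]⟩,⟨1,[(26,0),(7,0)]⟩⟩,
  ⟨true,0,⟨0,[(31,0)]⟩,⟨3,[(12,0),(9,1),(7,0),(2,3)]⟩⟩,⟨false,0,⟨1,[(0,1),(0,0),(30,0),(2,0)]⟩,⟨0,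
  [(5,0),(0,0)]⟩⟩,⟨false,0,⟨0,[]⟩,⟨0,[]⟩⟩,⟨false,0,⟨0,[]⟩,⟨0,[]⟩⟩,[.a ⟨true,(-1),⟨0,[(0,0)]⟩,⟨3,[(1,
  0),(3,0),(0,0),(4,1),(0,0)]⟩⟩ ⟨false,0,⟨7,[(3,5),(0,0),(4,1),(19,2)]⟩,⟨2,[(6,0),(4,1),(0,0),(9,
  1)]⟩⟩ ⟨true,(-1),⟨5,[(0,5),(3,1),(7,0),(17,0)]⟩,⟨0,[(6,0)]⟩⟩,.o ⟨false,0,⟨0,[(7,0)]⟩,⟨13,[(1,5),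
  (4,1),(5,0),(13,5),(2,3),(0,0),(2,5)]⟩⟩,.o ⟨false,1,⟨1,[(2,0),(17,0),(1,0),(3,0)]⟩,⟨0,[(10,0)]⟩⟩,
  .e ⟨false,0,⟨0,[(3,0)]⟩,⟨2,[(6,1),(4,0),(0,1),(9,3)]⟩⟩ ⟨false,0,⟨9,[(0,5),(2,1),(3,1),(4,3),(21,
  2),(0,2)]⟩,⟨0,[(6,0)]⟩⟩]⟩)) (.R ⟨0,false,false,false,[0,0,1],[0,1,-1],[1,0,1],(⟨0,[(24,0)]⟩,⟨0,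
  [(23,0)]⟩),(⟨0,[(13,0)]⟩,⟨0,[(24,0),(1,0)]⟩),⟨0,[(13,0)]⟩,.k,.k,.k,(.r 0 ⟨2,[(2,0),(1,2),(1,1),(4,
  0),(17,0)]⟩ ⟨0,[(10,0),(9,0),(0,0)]⟩),.k,.k,⟨false,0,⟨5,[(2,3),(3,1),(4,0),(17,0)]⟩,⟨0,[(10,0),
  (25,0)]⟩⟩,⟨true,0,⟨0,[(3,0)]⟩,⟨0,[(21,1)]⟩⟩,⟨false,1,⟨1,[(1,1),(9,0),(9,1),(7,0)]⟩,⟨0,[(4,0)]⟩⟩,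
  ⟨true,1,⟨3,[(3,0),(1,0),(4,2),(0,0),(8,3)]⟩,⟨0,[(0,0)]⟩⟩,⟨false,0,⟨0,[]⟩,⟨0,[]⟩⟩,⟨false,0,⟨0,[]⟩,
  ⟨0,[]⟩⟩,[.o ⟨false,1,⟨1,[(3,0),(1,1),(22,0)]⟩,⟨0,[(6,0)]⟩⟩,.e ⟨false,1,⟨1,[(14,0),(0,0),(18,0)]⟩,
  ⟨3,[(0,0),(0,0),(0,0),(17,1),(7,0),(3,1)]⟩⟩ ⟨false,1,⟨0,[(3,0),(6,0)]⟩,⟨4,[(0,1),(0,1),(6,2),(12,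
  2),(6,0)]⟩⟩,.o ⟨false,1,⟨1,[(1,0),(17,0),(1,0),(3,0)]⟩,⟨0,[(9,0)]⟩⟩,.a ⟨true,0,⟨0,[(21,0)]⟩,⟨0,
  [(18,0)]⟩⟩ ⟨true,0,⟨0,[]⟩,⟨0,[(36,0)]⟩⟩ ⟨false,1,⟨0,[(3,0),(6,0)]⟩,⟨0,[(6,0),(14,0)]⟩⟩]⟩))) (.I
  [0,1,0,0,0,0,0,-1] (.Q [0,-1,0,1,1,0,-2,-2,0,0,-2] (.p false [0,0,1] [0,1,-1] (⟨0,[(23,0)]⟩,⟨0,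
  [(22,0)]⟩) .k 2 (⟨0,[(12,0)]⟩,⟨0,[(23,0),(1,0)]⟩) .k (.r 0 ⟨1,[(3,1),(2,1),(3,0),(17,0)]⟩ ⟨0,[(0,
  1),(32,0)]⟩)) (.R ⟨0,false,false,false,[0,0,1],[0,1,-1],[0,1],(⟨0,[(24,0)]⟩,⟨0,[(23,0)]⟩),(⟨0,
  [(13,0)]⟩,⟨0,[(24,0),(1,0)]⟩),⟨0,[(13,0)]⟩,.k,.k,.k,(.r 0 ⟨5,[(3,1),(0,5),(1,5),(4,0),(17,0)]⟩ ⟨1,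
  [(1,0),(0,0),(7,1),(20,0)]⟩),.k,.k,⟨false,0,⟨0,[(4,0),(25,0)]⟩,⟨3,[(2,1),(7,1),(3,0),(0,0),(18,
  0)]⟩⟩,⟨true,0,⟨0,[(3,0)]⟩,⟨0,[(21,1)]⟩⟩,⟨true,0,⟨0,[(1,0)]⟩,⟨3,[(4,1),(2,1),(3,0),(17,0)]⟩⟩,
  ⟨false,1,⟨0,[(0,0)]⟩,⟨0,[(6,0),(0,0)]⟩⟩,⟨false,0,⟨0,[]⟩,⟨0,[]⟩⟩,⟨false,0,⟨0,[]⟩,⟨0,[]⟩⟩,[.o
  ⟨false,1,⟨11,[(0,4),(1,0),(2,0),(5,0),(13,5),(2,2),(3,4)]⟩,⟨0,[(6,0)]⟩⟩,.e ⟨false,1,⟨1,[(14,0),(0,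
  0),(17,0)]⟩,⟨0,[]⟩⟩ ⟨false,1,⟨0,[(0,0),(3,0)]⟩,⟨0,[(1,0),(4,0),(0,0)]⟩⟩,.o ⟨false,1,⟨1,[(21,1),(3,
  0),(7,0)]⟩,⟨0,[(9,0)]⟩⟩,.a ⟨true,0,⟨0,[(21,0)]⟩,⟨0,[(18,0)]⟩⟩ ⟨true,0,⟨0,[(1,0),(2,0)]⟩,⟨3,[(11,
  0),(9,1),(7,0)]⟩⟩ ⟨false,1,⟨0,[(0,0),(3,0)]⟩,⟨0,[(6,0),(14,0)]⟩⟩]⟩) (.R ⟨0,false,false,false,[0,0,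
  1],[0,1,-1],[1,0,1],(⟨0,[(24,0)]⟩,⟨0,[(23,0)]⟩),(⟨0,[(13,0)]⟩,⟨0,[(24,0),(1,0)]⟩),⟨0,[(13,0)]⟩,.k,
  .k,.k,(.r 0 ⟨5,[(3,1),(0,5),(1,5),(4,0),(17,0)]⟩ ⟨1,[(1,0),(0,0),(7,1),(20,0)]⟩),.k,.k,⟨false,0,
  ⟨1,[(0,0),(2,0),(26,0),(3,0)]⟩,⟨4,[(2,0),(7,3),(3,0),(0,0),(12,1)]⟩⟩,⟨true,0,⟨0,[(3,0)]⟩,⟨0,[(21,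
  1)]⟩⟩,⟨false,1,⟨1,[(1,0),(0,0),(28,0),(2,1)]⟩,⟨0,[(4,0)]⟩⟩,⟨true,1,⟨3,[(3,0),(1,0),(4,2),(0,0),(8,
  3)]⟩,⟨0,[(0,0)]⟩⟩,⟨false,0,⟨0,[]⟩,⟨0,[]⟩⟩,⟨false,0,⟨0,[]⟩,⟨0,[]⟩⟩,[.o ⟨false,1,⟨1,[(3,0),(1,1),
  (22,0)]⟩,⟨0,[(6,0)]⟩⟩,.e ⟨false,1,⟨1,[(14,0),(0,0),(18,0)]⟩,⟨0,[(1,0),(2,0)]⟩⟩ ⟨false,1,⟨0,[(3,0),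
  (6,0)]⟩,⟨2,[(0,0),(0,0),(4,0),(1,0),(12,1),(11,0)]⟩⟩,.o ⟨false,1,⟨1,[(21,1),(3,0),(7,0)]⟩,⟨0,[(9,
  0)]⟩⟩,.a ⟨true,0,⟨0,[(21,0)]⟩,⟨0,[(18,0)]⟩⟩ ⟨true,0,⟨0,[]⟩,⟨15,[(2,1),(8,0),(7,1),(8,5),(0,0),(1,
  1)]⟩⟩ ⟨false,1,⟨0,[(3,0),(6,0)]⟩,⟨0,[(6,0),(14,0)]⟩⟩]⟩)) (.Q [0,-1,0,1,1,0,-1,-1,0,-1,-1] (.p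
  false [1,-1,1] [] (⟨0,[(23,0),(1,0)]⟩,⟨0,[(12,0)]⟩) .k 0 (⟨0,[]⟩,⟨0,[]⟩) .k .k) (.Q [0,-1,0,-1,0,
  0,2,2,0,0,2] (.p true [0,0,1] [0,1,-1] (⟨0,[(24,0)]⟩,⟨0,[(23,0)]⟩) .k 2 (⟨0,[(13,0)]⟩,⟨0,[(24,0),
  (1,0)]⟩) .k (.i 0 ⟨0,[(24,1)]⟩ ⟨0,[(12,0),(0,0)]⟩)) (.Q [0,1,0,-1,-1,0,2,2,0,0,2] (.p true [0,0,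
  1] [0,1,-1] (⟨0,[(25,0)]⟩,⟨0,[(24,0)]⟩) .k 2 (⟨0,[(14,0)]⟩,⟨0,[(25,0),(1,0)]⟩) .k (.i 0 ⟨0,[(25,
  1)]⟩ ⟨0,[(13,0),(0,0)]⟩)) (.R ⟨0,false,false,false,[0,0,1],[0,1,-1],[1,0,1],(⟨0,[(26,0)]⟩,⟨0,[(25,
  0)]⟩),(⟨0,[(15,0)]⟩,⟨0,[(26,0),(1,0)]⟩),⟨0,[(15,0)]⟩,.k,.k,.k,(.r 0 ⟨9,[(0,0),(0,4),(3,5),(0,3),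
  (3,3),(2,1),(13,0)]⟩ ⟨0,[(12,0),(9,0),(0,0)]⟩),.k,.k,⟨false,0,⟨1,[(1,0),(3,0),(26,0)]⟩,⟨4,[(4,0),
  (7,3),(3,0),(0,0),(12,1)]⟩⟩,⟨true,0,⟨0,[(5,0)]⟩,⟨0,[(23,1)]⟩⟩,⟨false,1,⟨0,[(22,0),(0,0),(12,0)]⟩,
  ⟨0,[(6,0)]⟩⟩,⟨true,1,⟨2,[(2,0),(9,1),(0,0),(8,2)]⟩,⟨0,[(0,0)]⟩⟩,⟨false,0,⟨0,[]⟩,⟨0,[]⟩⟩,⟨false,0,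
  ⟨0,[]⟩,⟨0,[]⟩⟩,[.o ⟨false,1,⟨6,[(2,4),(1,0),(2,0),(5,0),(13,0),(2,2)]⟩,⟨0,[(8,0)]⟩⟩,.o ⟨false,1,
  ⟨0,[(2,0)]⟩,⟨0,[(10,0)]⟩⟩,.o ⟨false,1,⟨1,[(23,1),(3,0),(7,0)]⟩,⟨0,[(11,0)]⟩⟩,.a ⟨true,0,⟨0,[(23,
  0)]⟩,⟨0,[(20,0)]⟩⟩ ⟨true,0,⟨0,[]⟩,⟨15,[(4,1),(8,0),(7,1),(8,5),(0,0),(1,1)]⟩⟩ ⟨false,1,⟨0,[(2,0),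
  (17,0)]⟩,⟨0,[(8,0),(14,0)]⟩⟩]⟩) (.R ⟨0,false,false,false,[0,0,1],[0,1,-1],[1,0,0,0,0,0,0,1],(⟨0,
  [(26,0)]⟩,⟨0,[(25,0)]⟩),(⟨0,[(15,0)]⟩,⟨0,[(26,0),(1,0)]⟩),⟨0,[(15,0)]⟩,.k,.k,.k,(.r 0 ⟨11,[(1,5),
  (3,7),(0,5),(3,5),(2,0),(17,0)]⟩ ⟨0,[(12,0),(9,0),(0,0)]⟩),.k,.k,⟨false,0,⟨1,[(1,0),(3,0),(0,1),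
  (25,0)]⟩,⟨0,[(12,0),(9,0),(0,0)]⟩⟩,⟨true,0,⟨0,[(5,0)]⟩,⟨0,[(23,1)]⟩⟩,⟨true,0,⟨0,[]⟩,⟨15,[(4,1),(8,
  0),(7,1),(8,5),(0,0),(1,1)]⟩⟩,⟨false,1,⟨0,[(0,0)]⟩,⟨2,[(1,1),(8,0),(10,0)]⟩⟩,⟨false,0,⟨0,[]⟩,⟨0,
  []⟩⟩,⟨false,0,⟨0,[]⟩,⟨0,[]⟩⟩,[.o ⟨false,1,⟨6,[(2,4),(1,0),(2,0),(5,0),(13,0),(2,2)]⟩,⟨0,[(8,0)]⟩⟩,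
  .o ⟨false,1,⟨0,[(2,0)]⟩,⟨0,[(10,0)]⟩⟩,.o ⟨false,1,⟨1,[(23,1),(3,0),(7,0)]⟩,⟨0,[(11,0)]⟩⟩,.a ⟨true,
  0,⟨0,[(23,0)]⟩,⟨0,[(20,0)]⟩⟩ ⟨true,0,⟨0,[(6,0)]⟩,⟨0,[(22,0),(0,0)]⟩⟩ ⟨false,1,⟨0,[(0,0),(5,0)]⟩,
  ⟨0,[(8,0),(14,0)]⟩⟩]⟩)) (.R ⟨0,false,false,false,[0,0,1],[0,1,-1],[1,0,0,0,0,0,0,1],(⟨0,[(25,0)]⟩,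
  ⟨0,[(24,0)]⟩),(⟨0,[(14,0)]⟩,⟨0,[(25,0),(1,0)]⟩),⟨0,[(14,0)]⟩,.k,.k,.k,(.r 0 ⟨1,[(2,0),(1,0),(0,0),
  (1,0),(1,0)]⟩ ⟨1,[(0,0),(10,1),(10,1),(9,0)]⟩),.k,.k,⟨false,0,⟨0,[(2,0),(2,0),(25,0)]⟩,⟨1,[(0,0),
  (10,1),(10,1),(9,0)]⟩⟩,⟨true,0,⟨0,[(4,0)]⟩,⟨0,[(22,1)]⟩⟩,⟨true,0,⟨0,[]⟩,⟨15,[(3,1),(8,0),(7,1),(8,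
  5),(0,0),(1,1)]⟩⟩,⟨false,1,⟨0,[(0,0),(34,0)]⟩,⟨0,[(7,0),(0,0)]⟩⟩,⟨false,0,⟨0,[]⟩,⟨0,[]⟩⟩,⟨false,0,
  ⟨0,[]⟩,⟨0,[]⟩⟩,[.o ⟨false,1,⟨6,[(0,0),(0,3),(4,1),(5,0),(7,0),(5,0),(2,1)]⟩,⟨0,[(7,0)]⟩⟩,.o
  ⟨false,1,⟨0,[(1,0)]⟩,⟨0,[(9,0)]⟩⟩,.o ⟨false,1,⟨1,[(22,1),(3,0),(7,0)]⟩,⟨0,[(10,0)]⟩⟩,.a ⟨true,0,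
  ⟨0,[(22,0)]⟩,⟨0,[(19,0)]⟩⟩ ⟨true,0,⟨0,[(5,0)]⟩,⟨1,[(0,0),(21,1),(9,0)]⟩⟩ ⟨false,1,⟨0,[(1,0),(17,
  0)]⟩,⟨0,[(7,0),(14,0)]⟩⟩]⟩)) (.R ⟨0,false,false,true,[0,0,1],[1,-1,1],[1,1,1],(⟨0,[(24,0)]⟩,⟨0,
  [(23,0)]⟩),(⟨0,[(24,0),(1,0)]⟩,⟨0,[(13,0)]⟩),⟨0,[(13,0)]⟩,.k,.k,.k,.k,.k,.k,⟨true,0,⟨0,[(2,0)]⟩,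
  ⟨0,[(1,0),(28,0)]⟩⟩,⟨false,0,⟨2,[(0,1),(9,1),(0,0)]⟩,⟨1,[(25,0),(7,0)]⟩⟩,⟨true,0,⟨0,[(20,0),(0,
  0)]⟩,⟨0,[(4,0)]⟩⟩,⟨false,0,⟨0,[(0,0),(19,0),(13,0)]⟩,⟨0,[(4,0),(0,0)]⟩⟩,⟨false,0,⟨0,[]⟩,⟨0,[]⟩⟩,
  ⟨false,0,⟨0,[]⟩,⟨0,[]⟩⟩,[.a ⟨true,(-1),⟨0,[(0,0)]⟩,⟨3,[(3,0),(1,0),(4,2),(0,0)]⟩⟩ ⟨false,0,⟨15,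
  [(2,1),(8,0),(7,1),(8,5),(0,0),(1,1)]⟩,⟨1,[(33,0),(0,0)]⟩⟩ ⟨true,(-1),⟨5,[(0,5),(2,1),(7,0),(17,
  0)]⟩,⟨0,[(5,0)]⟩⟩,.o ⟨false,0,⟨0,[(6,0)]⟩,⟨1,[(3,0),(1,1),(22,0)]⟩⟩,.o ⟨false,1,⟨1,[(21,1),(3,0),
  (7,0)]⟩,⟨0,[(9,0)]⟩⟩,.e ⟨false,0,⟨0,[]⟩,⟨1,[(14,0),(0,0),(18,0)]⟩⟩ ⟨false,0,⟨0,[(6,0),(11,0)]⟩,⟨0,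
  [(5,0)]⟩⟩]⟩))))) (.Q [0,0,0,0,0,0,0,-1,0,1] (.pp false [-1,1]) (.R ⟨0,false,false,true,[0,1,-1],
  [1,0,-1],[0,1],(⟨0,[(10,0)]⟩,⟨0,[(21,0),(1,0)]⟩),(⟨0,[(20,0)]⟩,⟨0,[(21,0)]⟩),⟨0,[(21,0)]⟩,.k,.k,
  .k,.k,.k,.k,⟨true,0,⟨0,[(4,0),(1,0)]⟩,⟨0,[(1,0)]⟩⟩,⟨false,0,⟨2,[(0,1),(3,1),(3,0)]⟩,⟨1,[(22,0),(7,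
  0)]⟩⟩,⟨true,0,⟨0,[(4,0),(1,0),(20,0)]⟩,⟨0,[(1,0),(27,0)]⟩⟩,⟨false,0,⟨0,[(0,0),(2,0),(2,0)]⟩,⟨1,
  [(22,0),(6,1),(1,0)]⟩⟩,⟨false,0,⟨0,[]⟩,⟨0,[]⟩⟩,⟨false,0,⟨0,[]⟩,⟨0,[]⟩⟩,[.o ⟨false,0,⟨0,[(17,0)]⟩,
  ⟨1,[(4,1),(17,0),(8,0)]⟩⟩,.e ⟨false,1,⟨1,[(11,0),(0,0),(17,0)]⟩,⟨0,[]⟩⟩ ⟨false,0,⟨0,[(0,0)]⟩,⟨1,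
  [(4,1),(1,1),(15,0),(7,0)]⟩⟩,.o ⟨false,1,⟨1,[(6,1),(15,0),(7,0)]⟩,⟨0,[(18,0)]⟩⟩,.a ⟨true,0,⟨0,[(6,
  0)]⟩,⟨0,[(0,0),(3,0)]⟩⟩ ⟨true,0,⟨0,[(27,0),(1,0)]⟩,⟨3,[(8,0),(9,1),(7,0)]⟩⟩ ⟨false,0,⟨0,[(0,0)]⟩,
  ⟨1,[(4,1),(1,1),(15,0),(8,0)]⟩⟩]⟩) (.R ⟨0,false,false,true,[0,1,-1],[1,0,-1],[0,1],(⟨0,[(10,0)]⟩,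
  ⟨0,[(21,0),(1,0)]⟩),(⟨0,[(20,0)]⟩,⟨0,[(21,0)]⟩),⟨0,[(21,0)]⟩,.k,.k,.k,.k,.k,.k,⟨true,0,⟨2,[(0,0),
  (3,1),(3,0)]⟩,⟨0,[(1,0)]⟩⟩,⟨false,0,⟨0,[(13,0),(0,0)]⟩,⟨1,[(22,0),(7,0)]⟩⟩,⟨true,0,⟨1,[(0,0),(4,
  0),(9,0),(11,0)]⟩,⟨0,[(1,0),(27,0)]⟩⟩,⟨false,0,⟨0,[(1,0),(1,0),(11,0)]⟩,⟨1,[(22,0),(6,1),(1,0)]⟩⟩,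
  ⟨false,0,⟨0,[]⟩,⟨0,[]⟩⟩,⟨false,0,⟨0,[]⟩,⟨0,[]⟩⟩,[.o ⟨false,0,⟨0,[(17,0)]⟩,⟨1,[(4,1),(17,0),(8,
  0)]⟩⟩,.a ⟨true,0,⟨0,[(1,0),(13,0)]⟩,⟨0,[(4,0)]⟩⟩ ⟨false,1,⟨1,[(11,0),(0,0),(17,0)]⟩,⟨0,[]⟩⟩ ⟨true,
  0,⟨0,[(1,0),(11,0),(0,0)]⟩,⟨0,[(0,0)]⟩⟩,.o ⟨false,1,⟨1,[(6,1),(15,0),(7,0)]⟩,⟨0,[(18,0)]⟩⟩,.e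
  ⟨true,0,⟨0,[(27,0),(1,0)]⟩,⟨3,[(8,0),(9,1),(7,0)]⟩⟩ ⟨true,0,⟨0,[(1,0),(11,0),(0,0),(12,0),(1,0)]⟩,
  ⟨0,[(0,0)]⟩⟩]⟩))) (.R ⟨0,false,false,true,[0,0,1],[1,-1,1],[0,1,0,-1,0,0,0,1],(⟨0,[(19,0)]⟩,⟨0,
  [(18,0)]⟩),(⟨0,[(19,0),(1,0)]⟩,⟨0,[(8,0)]⟩),⟨0,[(8,0)]⟩,.k,.k,.k,.k,.k,.k,⟨true,0,⟨3,[(6,0),(9,1),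
  (7,0)]⟩,⟨0,[]⟩⟩,⟨false,0,⟨0,[(11,0),(0,0)]⟩,⟨1,[(20,0),(7,0)]⟩⟩,⟨true,0,⟨0,[(26,0)]⟩,⟨0,[(27,
  0)]⟩⟩,⟨false,0,⟨0,[(0,0),(14,0),(0,0),(12,0)]⟩,⟨1,[(20,0),(6,1),(1,0)]⟩⟩,⟨false,0,⟨0,[]⟩,⟨0,[]⟩⟩,
  ⟨false,0,⟨0,[]⟩,⟨0,[]⟩⟩,[.e ⟨false,0,⟨4,[(0,2),(2,1),(2,0),(13,1),(7,0)]⟩,⟨0,[(5,0)]⟩⟩ ⟨false,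
  (-1),⟨0,[(0,0)]⟩,⟨1,[(5,1),(3,0),(0,0),(9,0)]⟩⟩,.o ⟨false,0,⟨0,[(1,0)]⟩,⟨1,[(4,0),(0,0),(9,0),(4,
  0),(6,0)]⟩⟩,.o ⟨false,1,⟨1,[(16,1),(3,0),(7,0)]⟩,⟨0,[(4,0)]⟩⟩,.a ⟨true,0,⟨0,[(16,0)]⟩,⟨0,[(13,
  0)]⟩⟩ ⟨false,0,⟨1,[(0,1),(19,0),(8,0)]⟩,⟨3,[(5,3),(0,0),(9,1),(7,0)]⟩⟩ ⟨true,(-1),⟨0,[(0,0)]⟩,⟨3,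
  [(5,2),(9,0),(0,0),(3,0),(2,0),(0,1),(2,0)]⟩⟩]⟩)) (.R ⟨2,true,false,true,[0,1],[0,0,1],[0,0,1,1],
  (⟨0,[]⟩,⟨0,[]⟩),(⟨0,[(18,0)]⟩,⟨0,[(17,0)]⟩),⟨0,[]⟩,.k,.k,.k,.k,.k,.k,⟨false,1,⟨0,[(4,0)]⟩,⟨0,[(1,
  0),(1,0),(20,0)]⟩⟩,⟨true,0,⟨0,[(15,0)]⟩,⟨0,[(3,0)]⟩⟩,⟨false,1,⟨1,[(8,0),(0,0),(18,0)]⟩,⟨0,[]⟩⟩,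
  ⟨true,0,⟨0,[(2,0)]⟩,⟨0,[(0,0)]⟩⟩,⟨true,0,⟨0,[(26,0)]⟩,⟨0,[(25,0)]⟩⟩,⟨false,0,⟨0,[(1,0)]⟩,⟨0,[(14,
  0),(13,0)]⟩⟩,[]⟩))) (.R ⟨2,true,false,true,[0,1],[0,0,1],[1,1,1],(⟨0,[]⟩,⟨0,[]⟩),(⟨0,[(16,0)]⟩,⟨0,
  [(15,0)]⟩),⟨0,[]⟩,.k,.k,.k,.k,.k,.k,⟨false,0,⟨0,[(0,0),(12,0),(8,0)]⟩,⟨1,[(1,1),(9,1),(13,0),(0,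
  0)]⟩⟩,⟨true,0,⟨0,[(13,0)]⟩,⟨0,[(1,0)]⟩⟩,⟨true,0,⟨0,[(23,0)]⟩,⟨0,[(24,0)]⟩⟩,⟨false,1,⟨0,[(11,0),
  (11,0),(2,0)]⟩,⟨0,[(0,0)]⟩⟩,⟨false,0,⟨0,[]⟩,⟨1,[(6,0),(0,0),(18,0)]⟩⟩,⟨true,0,⟨0,[(11,0)]⟩,⟨0,[(0,
  0),(22,0)]⟩⟩,[]⟩))

theorem ok0 : chk K t0 l1 = true := by decide +kernel

noncomputable def t1 : Tre :=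
  (.Q [0,1,0,-1,0,0,-1,-1,0,0,-1] (.p false [0,0,1] [] (⟨0,[(15,0)]⟩,⟨0,[(14,0)]⟩) .k 0 (⟨0,[]⟩,⟨0,
  []⟩) .k .k) (.I [0,0,0,0,0,0,0,-1] (.I [0,0,2,2,0,0,0,1] (.K ⟨0,[0,1,1],0,0,(⟨0,[(18,0),(2,0)]⟩,
  ⟨0,[(6,0)]⟩),.k,.k,(.r 0 ⟨0,[(0,0)]⟩ ⟨0,[(1,0),(22,1),(3,0)]⟩),.k,.k,[⟨3,[(5,0),(9,1),(7,0)]⟩,⟨0,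
  [(3,0)]⟩,⟨0,[(2,0)]⟩,⟨0,[(13,0),(12,0)]⟩]⟩) (.I [0,0,-2,0,1,-2,1] (.K ⟨0,[0,1,1],0,0,(⟨0,[(19,0),
  (2,0)]⟩,⟨0,[(7,0)]⟩),.k,.k,(.x (-1) ⟨0,[(0,0)]⟩ ⟨3,[(6,2),(9,1),(2,3),(2,7),(1,2)]⟩),.k,.k,[⟨3,
  [(6,0),(9,1),(7,0)]⟩,⟨0,[(4,0)]⟩,⟨0,[(3,0)]⟩,⟨0,[(14,0),(12,0)]⟩]⟩) (.I [1,1,0,0,-1,0,0,-1] (.R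
  ⟨0,false,false,false,[0,1,-1],[0,1],[0,0,1],(⟨0,[(9,0)]⟩,⟨0,[(20,0),(1,0)]⟩),(⟨0,[(23,0)]⟩,⟨0,
  [(22,0)]⟩),⟨0,[(20,0)]⟩,.k,.k,.k,.k,.k,.k,⟨false,1,⟨1,[(27,1),(1,0),(0,0)]⟩,⟨0,[(28,0)]⟩⟩,⟨true,0,
  ⟨0,[(5,0)]⟩,⟨0,[(18,0)]⟩⟩,⟨true,1,⟨5,[(2,1),(4,3),(7,7),(5,0),(3,1),(1,1),(2,4)]⟩,⟨0,[(0,0),(27,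
  0)]⟩⟩,⟨false,1,⟨0,[(15,0),(14,0)]⟩,⟨15,[(0,9),(1,1),(3,3),(0,7),(13,2),(3,1),(4,2)]⟩⟩,⟨false,0,⟨0,
  []⟩,⟨0,[]⟩⟩,⟨false,0,⟨0,[]⟩,⟨0,[]⟩⟩,[.a ⟨true,0,⟨0,[(28,0)]⟩,⟨2,[(1,0),(0,0),(12,0),(3,0),(2,1),
  (4,0),(2,0)]⟩⟩ ⟨true,0,⟨3,[(7,0),(9,1),(7,0)]⟩,⟨0,[]⟩⟩ ⟨false,0,⟨0,[(5,0),(22,0)]⟩,⟨3,[(7,1),(13,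
  0),(4,1),(0,1),(1,0),(0,1)]⟩⟩,.o ⟨false,1,⟨1,[(21,0),(6,1),(1,0)]⟩,⟨0,[(27,0)]⟩⟩,.o ⟨false,1,⟨0,
  [(14,0),(6,0)]⟩,⟨0,[(17,0)]⟩⟩,.o ⟨false,1,⟨3,[(7,1),(2,0),(0,0),(9,2)]⟩,⟨0,[(5,0)]⟩⟩]⟩) (.R ⟨0,
  false,false,true,[0,1,-1],[0,1],[1,1],(⟨0,[(9,0)]⟩,⟨0,[(20,0),(1,0)]⟩),(⟨0,[(23,0)]⟩,⟨0,[(22,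
  0)]⟩),⟨0,[(20,0)]⟩,.k,.k,.k,.k,.k,.k,⟨false,1,⟨2,[(0,0),(1,0),(24,0),(1,1)]⟩,⟨3,[(7,0),(9,1),(7,
  0),(2,3)]⟩⟩,⟨true,0,⟨0,[(5,0)]⟩,⟨0,[(18,0)]⟩⟩,⟨false,1,⟨0,[(0,0),(25,0)]⟩,⟨1,[(1,0),(0,1),(2,0),
  (2,0),(13,0),(2,1),(2,5),(1,0)]⟩⟩,⟨true,0,⟨0,[(15,0)]⟩,⟨1,[(2,0),(0,0),(3,0),(17,0),(2,1)]⟩⟩,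
  ⟨false,0,⟨0,[]⟩,⟨0,[]⟩⟩,⟨false,0,⟨0,[]⟩,⟨0,[]⟩⟩,[.e ⟨false,0,⟨0,[(26,0),(1,0)]⟩,⟨2,[(0,0),(5,0),
  (20,0),(2,0)]⟩⟩ ⟨false,0,⟨1,[(5,0),(11,0),(6,0),(3,1)]⟩,⟨3,[(0,1),(1,1),(4,1),(13,0),(8,0)]⟩⟩,.a
  ⟨true,0,⟨0,[(28,0)]⟩,⟨9,[(0,2),(0,2),(0,3),(9,0),(0,0),(1,0),(1,1),(1,2),(2,5),(4,1)]⟩⟩ ⟨true,0,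
  ⟨0,[]⟩,⟨3,[(7,0),(9,1),(7,0)]⟩⟩ ⟨false,0,⟨0,[(5,0),(22,0)]⟩,⟨17,[(0,9),(1,3),(1,5),(2,5),(13,2),
  (5,3),(1,4)]⟩⟩,.o ⟨false,1,⟨0,[(14,0),(6,0)]⟩,⟨0,[(17,0)]⟩⟩,.o ⟨false,1,⟨2,[(0,0),(6,0),(8,0),(4,
  1)]⟩,⟨0,[(5,0)]⟩⟩]⟩)))) (.I [0,-1,-1,0,1,0,0,-1] (.S ⟨1,0,[0,1,0,0,0,0,0,-1],[1,0,-1],[0,0,0,0,0,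
  0,0,-1],(⟨0,[(17,0)]⟩,⟨0,[(18,0)]⟩),⟨0,[(6,0)]⟩,.k,.k,⟨false,1,⟨1,[(8,0),(0,0),(18,0)]⟩,⟨0,[]⟩⟩,
  ⟨true,0,⟨0,[(30,0)]⟩,⟨0,[]⟩⟩,⟨true,0,⟨0,[(26,0)]⟩,⟨0,[(25,0)]⟩⟩,⟨false,0,⟨0,[(26,0)]⟩,⟨0,[(25,0),
  (2,0)]⟩⟩,[.o ⟨false,0,⟨0,[(14,0)]⟩,⟨1,[(1,1),(1,1),(15,0),(8,0)]⟩⟩,.e ⟨false,1,⟨0,[(0,0)]⟩,⟨5,[(1,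
  3),(3,0),(7,1),(8,1),(0,0)]⟩⟩ ⟨false,1,⟨2,[(0,1),(3,0),(17,0),(2,0)]⟩,⟨0,[(1,0)]⟩⟩,.a ⟨true,0,⟨1,
  [(5,0),(4,0),(0,0)]⟩,⟨0,[(3,0)]⟩⟩ ⟨false,1,⟨2,[(0,0),(1,0),(1,0),(10,0),(12,0)]⟩,⟨0,[(1,0)]⟩⟩
  ⟨true,0,⟨0,[(3,0),(10,0)]⟩,⟨0,[(1,0)]⟩⟩,.o ⟨false,0,⟨0,[(16,0)]⟩,⟨1,[(3,1),(15,0),(7,0)]⟩⟩]⟩) (.I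
  [0,0,2,0,-1,2,-1] (.K ⟨0,[0,1,1],0,0,(⟨0,[(19,0),(2,0)]⟩,⟨0,[(7,0)]⟩),.k,.k,(.x (-2) ⟨0,[(4,0),(2,
  0),(12,0),(0,0),(6,0)]⟩ ⟨0,[(0,0)]⟩),.k,.k,[⟨3,[(6,0),(9,1),(7,0)]⟩,⟨0,[(4,0)]⟩,⟨0,[(3,0)]⟩,⟨0,
  [(14,0),(12,0)]⟩]⟩) (.I [0,0,1,1,0,0,0,-1] (.R ⟨0,false,false,false,[0,1,-1],[0,1],[0,0,1,1,0,0,0,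
  -1],(⟨0,[(9,0)]⟩,⟨0,[(20,0),(1,0)]⟩),(⟨0,[(23,0)]⟩,⟨0,[(22,0)]⟩),⟨0,[(20,0)]⟩,.k,.k,.k,.k,.k,.k,
  ⟨false,1,⟨1,[(4,0),(0,0),(0,0),(22,0)]⟩,⟨0,[(3,0)]⟩⟩,⟨true,0,⟨0,[(5,0)]⟩,⟨0,[(18,0)]⟩⟩,⟨false,1,
  ⟨1,[(10,0),(0,0),(18,0)]⟩,⟨0,[]⟩⟩,⟨true,0,⟨0,[(3,0),(1,0)]⟩,⟨0,[(16,0)]⟩⟩,⟨false,0,⟨0,[]⟩,⟨0,[]⟩⟩,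
  ⟨false,0,⟨0,[]⟩,⟨0,[]⟩⟩,[.a ⟨true,0,⟨0,[(28,0)]⟩,⟨0,[(2,0),(1,0),(0,1),(8,0),(15,0)]⟩⟩ ⟨true,0,⟨0,
  [(0,0)]⟩,⟨0,[(2,0),(23,0),(3,0)]⟩⟩ ⟨false,0,⟨0,[(5,0),(22,0)]⟩,⟨3,[(7,1),(13,0),(4,1),(0,1),(1,0),
  (0,1)]⟩⟩,.o ⟨false,1,⟨1,[(21,0),(6,1),(1,0)]⟩,⟨0,[(27,0)]⟩⟩,.o ⟨false,1,⟨0,[(14,0),(6,0)]⟩,⟨0,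
  [(17,0)]⟩⟩,.o ⟨false,1,⟨3,[(7,1),(2,0),(0,0),(9,2)]⟩,⟨0,[(5,0)]⟩⟩]⟩) (.I [0,0,-2,-2,1,0,0,-1] (.K
  ⟨0,[0,1,1],0,0,(⟨0,[(21,0),(2,0)]⟩,⟨0,[(9,0)]⟩),.k,.k,(.r 0 ⟨1,[(3,0),(4,0),(7,0),(1,0),(7,0),(2,
  3),(1,0)]⟩ ⟨0,[(0,0)]⟩),.k,.k,[⟨3,[(8,0),(9,1),(7,0)]⟩,⟨0,[(6,0)]⟩,⟨0,[(5,0)]⟩,⟨0,[(16,0),(12,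
  0)]⟩]⟩) (.Q [0,0,0,-1,0,0,-1,-1,0,1,-1] (.p false [0,0,1] [1] (⟨0,[(21,0)]⟩,⟨0,[(20,0)]⟩) .k 1
  (⟨0,[]⟩,⟨0,[]⟩) .k .k) (.R ⟨0,false,false,false,[0,1,-1],[0,1,1],[0,0,1],(⟨0,[(11,0)]⟩,⟨0,[(22,0),
  (1,0)]⟩),(⟨0,[(22,0),(2,0)]⟩,⟨0,[(10,0)]⟩),⟨0,[(22,0)]⟩,.k,.k,.k,.k,.k,.k,⟨false,1,⟨1,[(0,1),(6,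
  1),(15,0),(7,0)]⟩,⟨1,[(1,0),(3,0),(25,0)]⟩⟩,⟨true,0,⟨0,[(7,1)]⟩,⟨1,[(0,2),(0,1),(0,0),(13,0),(6,
  1)]⟩⟩,⟨true,0,⟨3,[(2,3),(6,0),(9,1),(7,0)]⟩,⟨0,[(7,0),(10,0),(11,0)]⟩⟩,⟨false,0,⟨4,[(1,2),(0,5),
  (4,8),(9,0),(14,2)]⟩,⟨0,[(18,1),(13,0)]⟩⟩,⟨false,0,⟨0,[]⟩,⟨0,[]⟩⟩,⟨false,0,⟨0,[]⟩,⟨0,[]⟩⟩,[.a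
  ⟨true,0,⟨9,[(1,5),(0,1),(4,7),(9,1),(13,4),(0,0)]⟩,⟨0,[(0,0)]⟩⟩ ⟨true,0,⟨3,[(9,0),(9,1),(7,0)]⟩,
  ⟨0,[]⟩⟩ ⟨false,0,⟨9,[(1,5),(0,1),(4,17),(9,1),(13,4),(0,0)]⟩,⟨0,[(0,0),(15,0),(6,0)]⟩⟩,.o ⟨false,
  1,⟨9,[(1,5),(0,1),(4,7),(9,1),(5,4),(7,4),(0,5)]⟩,⟨0,[(6,0)]⟩⟩,.o ⟨false,1,⟨0,[(16,0),(6,0)]⟩,⟨0,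
  [(19,0)]⟩⟩,.o ⟨false,1,⟨3,[(9,1),(2,0),(0,0),(9,2)]⟩,⟨0,[(7,0)]⟩⟩]⟩) (.S ⟨1,0,[0,0,1,1,0,0,0,1],
  [0,1,1],[1,1,1,0,0,0,0,1],(⟨0,[(22,0),(2,0)]⟩,⟨0,[(10,0)]⟩),⟨0,[(22,0)]⟩,.k,.k,⟨true,0,⟨0,[(29,
  0)]⟩,⟨0,[(30,0)]⟩⟩,⟨false,1,⟨1,[(12,0),(0,0),(18,0)]⟩,⟨0,[]⟩⟩,⟨false,0,⟨0,[]⟩,⟨1,[(12,0),(0,0),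
  (18,0)]⟩⟩,⟨true,0,⟨0,[(30,0)]⟩,⟨0,[(29,0)]⟩⟩,[.o ⟨false,0,⟨0,[(0,0)]⟩,⟨9,[(6,5),(1,3),(0,1),(13,
  0),(5,7),(2,4)]⟩⟩,.o ⟨false,1,⟨13,[(0,7),(0,1),(6,1),(8,5),(5,2),(7,1),(0,8)]⟩,⟨0,[(6,0)]⟩⟩,.o
  ⟨false,1,⟨1,[(7,1),(15,0),(7,0)]⟩,⟨0,[(20,0)]⟩⟩,.a ⟨true,0,⟨0,[(7,0)]⟩,⟨1,[(9,0),(4,0),(0,0)]⟩⟩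
  ⟨false,0,⟨0,[(5,0)]⟩,⟨1,[(6,0),(0,0),(0,0),(23,0)]⟩⟩ ⟨true,0,⟨1,[(1,0),(3,0),(25,0)]⟩,⟨0,[(6,0),
  (0,0)]⟩⟩]⟩))))))) (.R ⟨2,true,false,false,[0,1],[0,1,1],[1,0,1],(⟨0,[]⟩,⟨0,[]⟩),(⟨0,[(16,0),(2,
  0)]⟩,⟨0,[(4,0)]⟩),⟨0,[]⟩,.k,.k,.k,.k,.k,.k,⟨false,1,⟨0,[(1,0),(10,0),(9,0),(3,0)]⟩,⟨1,[(0,1),(2,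
  0),(17,0),(0,1),(1,1)]⟩⟩,⟨true,0,⟨0,[(1,0)]⟩,⟨0,[(14,0)]⟩⟩,⟨false,1,⟨0,[(23,0),(2,0)]⟩,⟨0,[(24,
  0)]⟩⟩,⟨true,0,⟨0,[(0,0),(22,0)]⟩,⟨0,[(12,0)]⟩⟩,⟨true,0,⟨0,[]⟩,⟨0,[(28,0)]⟩⟩,⟨false,0,⟨0,[(0,0)]⟩,
  ⟨0,[(12,0),(10,0),(2,0)]⟩⟩,[]⟩))

theorem ok1 : chk K t1 r1 = true := by decide +kernel

noncomputable def t3 : Tre :=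
  (.Q [0,-1,-1,-1,0,0,0,1,0,1] (.pp false [-1,1]) (.Q [0,1,-1,-1,-1,0,0,1,0,1] (.pp false [-1,1])
  (.R ⟨0,false,false,true,[0,0,1],[1,-1,1],[],(⟨0,[(16,0)]⟩,⟨0,[(15,0)]⟩),(⟨0,[(16,0),(1,0)]⟩,⟨0,
  [(5,0)]⟩),⟨0,[(5,0)]⟩,.k,.k,.k,.k,.k,.k,⟨true,1,⟨0,[(12,0),(0,0),(10,0),(1,0)]⟩,⟨0,[(2,0)]⟩⟩,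
  ⟨false,0,⟨0,[(8,0),(0,0)]⟩,⟨1,[(17,0),(7,0)]⟩⟩,⟨true,1,⟨1,[(12,1),(0,1),(11,0),(0,0)]⟩,⟨0,[(2,0),
  (21,0)]⟩⟩,⟨false,0,⟨0,[(1,0),(10,0),(0,0)]⟩,⟨1,[(17,0),(6,1),(1,0)]⟩⟩,⟨false,0,⟨0,[]⟩,⟨0,[]⟩⟩,
  ⟨false,0,⟨0,[]⟩,⟨0,[]⟩⟩,[.e ⟨false,1,⟨1,[(6,0),(0,0),(17,0)]⟩,⟨0,[]⟩⟩ ⟨false,(-1),⟨0,[(0,0)]⟩,⟨1,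
  [(12,1),(0,1),(3,0),(6,1),(0,0),(0,1)]⟩⟩,.o ⟨false,0,⟨3,[(1,1),(0,1),(10,3),(3,0),(7,0)]⟩,⟨1,[(12,
  1),(4,0),(6,1),(1,0)]⟩⟩,.o ⟨false,1,⟨1,[(13,1),(3,0),(7,0)]⟩,⟨0,[(2,0),(9,0),(11,0),(1,0)]⟩⟩,.a
  ⟨true,0,⟨0,[(13,0)]⟩,⟨0,[(10,0)]⟩⟩ ⟨false,1,⟨1,[(25,0),(0,0)]⟩,⟨3,[(3,0),(9,1),(7,0)]⟩⟩ ⟨true,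
  (-1),⟨0,[(0,0)]⟩,⟨1,[(12,1),(0,1),(3,0),(6,1),(1,0)]⟩⟩]⟩) (.R ⟨0,false,false,false,[0,0,1],[1,-1,
  1],[0,1],(⟨0,[(16,0)]⟩,⟨0,[(15,0)]⟩),(⟨0,[(16,0),(1,0)]⟩,⟨0,[(5,0)]⟩),⟨0,[(5,0)]⟩,.k,.k,.k,.k,.k,
  .k,⟨true,0,⟨0,[(12,0),(0,0),(10,0)]⟩,⟨0,[(2,0),(23,0)]⟩⟩,⟨false,0,⟨0,[(8,0),(0,0)]⟩,⟨1,[(17,0),(7,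
  0)]⟩⟩,⟨false,1,⟨1,[(12,1),(0,1),(11,0),(0,0)]⟩,⟨0,[(2,0),(21,0),(1,0)]⟩⟩,⟨true,0,⟨0,[(1,0),(10,0),
  (0,0)]⟩,⟨0,[(0,0),(1,0),(19,0),(1,1)]⟩⟩,⟨false,0,⟨0,[]⟩,⟨0,[]⟩⟩,⟨false,0,⟨0,[]⟩,⟨0,[]⟩⟩,[.o
  ⟨false,0,⟨3,[(1,1),(0,1),(10,3),(3,0),(7,0)]⟩,⟨1,[(0,0),(9,0),(1,0),(4,0),(6,0)]⟩⟩,.e ⟨false,1,⟨1,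
  [(6,0),(0,0),(17,0)]⟩,⟨0,[]⟩⟩ ⟨false,0,⟨0,[(1,0)]⟩,⟨0,[(0,0),(19,0)]⟩⟩,.o ⟨false,1,⟨1,[(13,1),(3,
  0),(7,0)]⟩,⟨0,[(0,0),(1,0),(7,0)]⟩⟩,.a ⟨true,0,⟨0,[(13,0)]⟩,⟨0,[(10,0)]⟩⟩ ⟨true,0,⟨0,[(22,0),(1,
  0)]⟩,⟨3,[(3,0),(9,1),(7,0)]⟩⟩ ⟨false,0,⟨0,[(1,0)]⟩,⟨0,[(0,0),(27,0)]⟩⟩]⟩)) (.Q [0,-1,0,-1,0,0,1,1,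
  0,1,1] (.p true [1,-1,1] [] (⟨0,[(15,0),(1,0)]⟩,⟨0,[(4,0)]⟩) .k 0 (⟨0,[]⟩,⟨0,[]⟩) .k .k) (.R ⟨0,
  false,false,false,[0,0,1],[1,-1,1],[0,1],(⟨0,[(16,0)]⟩,⟨0,[(15,0)]⟩),(⟨0,[(16,0),(1,0)]⟩,⟨0,[(5,
  0)]⟩),⟨0,[(5,0)]⟩,.k,.k,.k,.k,.k,.k,⟨true,0,⟨0,[(1,0),(6,0),(0,0)]⟩,⟨0,[(2,0),(23,0)]⟩⟩,⟨false,0,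
  ⟨0,[(8,0),(0,0)]⟩,⟨1,[(17,0),(7,0)]⟩⟩,⟨false,1,⟨1,[(12,1),(0,1),(11,0),(0,0)]⟩,⟨0,[(2,0),(21,0),
  (1,0)]⟩⟩,⟨true,0,⟨0,[(0,0),(11,0)]⟩,⟨3,[(1,1),(0,1),(14,0),(6,3),(0,0)]⟩⟩,⟨false,0,⟨0,[]⟩,⟨0,[]⟩⟩,
  ⟨false,0,⟨0,[]⟩,⟨0,[]⟩⟩,[.o ⟨false,0,⟨3,[(0,1),(1,1),(10,1),(3,0),(7,0)]⟩,⟨1,[(1,1),(8,1),(6,0),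
  (8,0)]⟩⟩,.a ⟨true,0,⟨0,[(0,0)]⟩,⟨0,[(1,0),(8,0)]⟩⟩ ⟨false,1,⟨1,[(6,0),(0,0),(17,0)]⟩,⟨0,[]⟩⟩
  ⟨true,0,⟨2,[(0,1),(1,0),(0,0),(22,0)]⟩,⟨0,[(1,0)]⟩⟩,.o ⟨false,1,⟨1,[(13,1),(3,0),(7,0)]⟩,⟨0,[(1,
  0),(0,0),(7,0),(15,0)]⟩⟩,.e ⟨true,0,⟨0,[(22,0),(1,0)]⟩,⟨3,[(3,0),(9,1),(7,0)]⟩⟩ ⟨true,0,⟨8,[(0,4),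
  (1,2),(0,1),(6,1),(0,0),(10,0),(2,2)]⟩,⟨0,[(1,0)]⟩⟩]⟩) (.Q [0,1,0,0,-1,0,2,2,0,-1,2] (.p true [0,
  0,1] [1,0,-1] (⟨0,[(16,0)]⟩,⟨0,[(15,0)]⟩) .k 2 (⟨0,[(15,0)]⟩,⟨0,[(16,0)]⟩) .k (.r 1 ⟨0,[(2,1),(21,
  1),(1,0)]⟩ ⟨0,[(12,1),(0,1),(11,0),(0,0)]⟩)) (.I [0,0,1,1,1,0,0,-2] (.R ⟨0,false,false,false,[0,0,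
  1],[1,0,-1],[1,0,0,-1,0,0,0,1],(⟨0,[(18,0)]⟩,⟨0,[(17,0)]⟩),(⟨0,[(17,0)]⟩,⟨0,[(18,0)]⟩),⟨0,[(7,
  0)]⟩,.k,.k,.k,.k,.k,.k,⟨true,(-1),⟨0,[(4,1),(21,0),(1,0)]⟩,⟨0,[(0,0)]⟩⟩,⟨false,0,⟨2,[(2,0),(1,0),
  (0,0),(6,2),(15,0)]⟩,⟨0,[(0,0),(0,0),(22,0),(3,0)]⟩⟩,⟨false,1,⟨0,[(25,0),(2,0)]⟩,⟨0,[(26,0)]⟩⟩,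
  ⟨true,1,⟨0,[(10,0),(0,0),(2,1),(13,0)]⟩,⟨0,[(1,0)]⟩⟩,⟨false,0,⟨0,[]⟩,⟨0,[]⟩⟩,⟨false,0,⟨0,[]⟩,⟨0,
  []⟩⟩,[.o ⟨false,1,⟨5,[(0,1),(4,1),(8,1),(4,0),(5,1),(1,0),(0,1)]⟩,⟨3,[(1,1),(17,0),(8,0)]⟩⟩,.o
  ⟨false,1,⟨0,[(14,0),(13,0)]⟩,⟨12,[(1,3),(11,4),(5,3),(2,1),(0,0)]⟩⟩,.o ⟨false,1,⟨1,[(15,1),(3,0),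
  (7,0)]⟩,⟨2,[(2,0),(1,0),(0,0),(22,0)]⟩⟩,.a ⟨true,0,⟨0,[(15,0)]⟩,⟨0,[(12,0)]⟩⟩ ⟨true,0,⟨1,[(4,1),
  (22,0),(0,0)]⟩,⟨0,[(3,0),(6,0),(0,0)]⟩⟩ ⟨false,1,⟨0,[(12,0),(1,0),(13,0)]⟩,⟨3,[(1,1),(13,3),(3,0),
  (8,0)]⟩⟩]⟩) (.R ⟨0,false,false,false,[0,0,1],[0,1,-1],[0,0,1,1,0,0,0,-1],(⟨0,[(18,0)]⟩,⟨0,[(17,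
  0)]⟩),(⟨0,[(7,0)]⟩,⟨0,[(18,0),(1,0)]⟩),⟨0,[(7,0)]⟩,.k,.k,.k,(.x (-1) ⟨1,[(7,1),(7,3),(1,1),(1,0),
  (7,0)]⟩ ⟨0,[(0,0),(1,0),(11,0),(3,1),(1,0),(7,0)]⟩),.k,.k,⟨false,1,⟨1,[(8,0),(0,0),(17,0)]⟩,⟨0,
  []⟩⟩,⟨true,0,⟨4,[(0,2),(1,2),(2,0),(6,1),(1,2),(13,2)]⟩,⟨0,[(15,1)]⟩⟩,⟨false,2,⟨1,[(3,1),(6,1),(0,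
  1),(2,1),(0,1),(11,0),(0,2)]⟩,⟨0,[(0,0)]⟩⟩,⟨true,1,⟨0,[(3,0),(8,0),(1,0),(13,0)]⟩,⟨1,[(0,0),(0,0),
  (8,0),(0,0),(3,1),(8,0)]⟩⟩,⟨false,0,⟨0,[]⟩,⟨0,[]⟩⟩,⟨false,0,⟨0,[]⟩,⟨0,[]⟩⟩,[.o ⟨false,1,⟨5,[(2,1),
  (0,3),(1,1),(13,0),(7,1),(0,2)]⟩,⟨4,[(0,1),(12,0),(1,3),(8,1),(0,0),(2,1)]⟩⟩,.o ⟨false,1,⟨0,[(2,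
  0),(25,0)]⟩,⟨4,[(0,0),(12,2),(1,1),(8,0),(0,2),(2,0)]⟩⟩,.o ⟨false,1,⟨1,[(15,1),(3,0),(7,0)]⟩,⟨9,
  [(0,1),(1,1),(2,2),(8,1),(8,0),(4,1)]⟩⟩,.a ⟨true,0,⟨0,[(15,0)]⟩,⟨0,[(12,0)]⟩⟩ ⟨true,1,⟨1,[(3,1),
  (6,1),(0,1),(15,0),(0,0)]⟩,⟨0,[(4,0)]⟩⟩ ⟨false,1,⟨0,[(2,0),(9,0),(15,0)]⟩,⟨4,[(0,1),(12,0),(1,8),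
  (8,1),(0,0),(2,1)]⟩⟩]⟩)) (.Q [0,0,0,-1,0,0,0,0,0,1] (.pp false [-1,1]) (.R ⟨0,false,false,false,
  [0,1,-1],[0,1],[1,0,1,1],(⟨0,[(7,0)]⟩,⟨0,[(18,0),(1,0)]⟩),(⟨0,[(21,0)]⟩,⟨0,[(20,0)]⟩),⟨0,[(18,
  0)]⟩,.k,.k,.k,.k,.k,.k,⟨true,0,⟨0,[]⟩,⟨3,[(5,0),(9,1),(7,0)]⟩⟩,⟨false,1,⟨0,[(15,0),(11,0)]⟩,⟨2,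
  [(2,0),(1,0),(0,0),(22,0)]⟩⟩,⟨false,0,⟨0,[(4,0),(21,0),(1,0)]⟩,⟨9,[(1,3),(1,1),(11,7),(3,0),(5,1),
  (1,4)]⟩⟩,⟨true,0,⟨1,[(4,1),(10,1),(10,1),(0,0),(0,0)]⟩,⟨0,[(14,0)]⟩⟩,⟨false,0,⟨0,[]⟩,⟨0,[]⟩⟩,
  ⟨false,0,⟨0,[]⟩,⟨0,[]⟩⟩,[.a ⟨true,0,⟨0,[(26,0)]⟩,⟨0,[(0,0)]⟩⟩ ⟨false,0,⟨0,[(26,0)]⟩,⟨1,[(25,1),(1,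
  0),(0,0)]⟩⟩ ⟨true,0,⟨0,[(15,0),(10,0)]⟩,⟨3,[(1,1),(2,3),(14,0),(8,0)]⟩⟩,.o ⟨false,1,⟨1,[(19,0),(6,
  1),(1,0)]⟩,⟨0,[(25,0)]⟩⟩,.o ⟨false,1,⟨0,[(12,0),(6,0)]⟩,⟨0,[(15,0)]⟩⟩,.o ⟨false,0,⟨0,[(2,0),(1,0),
  (23,0)]⟩,⟨7,[(1,1),(11,3),(1,7),(3,0),(7,3),(0,0)]⟩⟩]⟩) (.R ⟨0,false,false,false,[0,0,1],[1,0,-1],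
  [0,0,1,0,0,0,0,-1],(⟨0,[(18,0)]⟩,⟨0,[(17,0)]⟩),(⟨0,[(17,0)]⟩,⟨0,[(18,0)]⟩),⟨0,[(7,0)]⟩,.k,.k,.k,
  .k,.k,.k,⟨true,0,⟨3,[(5,0),(9,1),(7,0)]⟩,⟨0,[]⟩⟩,⟨false,0,⟨11,[(0,3),(0,1),(2,3),(0,3),(6,11),(6,
  0),(8,0)]⟩,⟨1,[(0,1),(14,3),(8,1),(2,0),(0,0)]⟩⟩,⟨true,1,⟨0,[(0,0),(0,0),(13,1),(8,0)]⟩,⟨1,[(4,3),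
  (21,3),(0,0),(0,0)]⟩⟩,⟨false,1,⟨0,[(1,0)]⟩,⟨0,[(0,0),(3,1),(10,1),(10,0),(0,0),(0,0)]⟩⟩,⟨false,0,
  ⟨0,[]⟩,⟨0,[]⟩⟩,⟨false,0,⟨0,[]⟩,⟨0,[]⟩⟩,[.o ⟨false,1,⟨12,[(1,8),(11,4),(5,3),(2,1),(0,0)]⟩,⟨1,[(0,
  1),(3,1),(10,1),(11,0),(0,0)]⟩⟩,.o ⟨false,1,⟨3,[(1,1),(17,0),(8,0)]⟩,⟨3,[(0,1),(3,1),(8,1),(1,1),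
  (3,0),(7,0)]⟩⟩,.o ⟨false,1,⟨1,[(15,1),(3,0),(7,0)]⟩,⟨11,[(0,3),(0,1),(2,3),(0,3),(13,0),(8,0)]⟩⟩,
  .a ⟨true,0,⟨0,[(15,0)]⟩,⟨0,[(12,0)]⟩⟩ ⟨true,1,⟨9,[(1,3),(1,1),(11,7),(3,0),(5,1),(1,4)]⟩,⟨0,[(4,
  0),(21,0)]⟩⟩ ⟨false,1,⟨3,[(1,1),(10,3),(6,0),(8,0)]⟩,⟨1,[(0,1),(3,1),(10,3),(11,0),(0,0)]⟩⟩]⟩)))))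

theorem ok3 : chk K t3 r0 = true := by decide +kernel

noncomputable def t2 : Tre :=
  .Q [0,0,0,0,0,0,-1,0,0,0,-1] (.p false [0,0,1] [] (⟨0,[(14,0)]⟩,⟨0,[(13,0)]⟩) .k 0 (⟨0,[]⟩,⟨0,
  []⟩) .k .k) t0 t1

theorem ok2 : chk K t2 l0 = true :=
  chk_Q (e' := [0,0,0,0,0,0,1,0,0,0,1]) (by decide +kernel) (by decide +kernel) ok0 ok1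

noncomputable def t4 : Tre :=
  .I [0,-1,0,1,1,0,0,-1] t2 t3

theorem ok4 : chk K t4 base = true :=
  chk_I (e' := [1,1,0,-1,-1,0,0,1]) (by decide +kernel) (by decide +kernel) ok2 ok3

theorem closed {p a b c J l q : ℤ} {D dl : ℝ} {Cl : ℤ → ℤ → ℤ → ℤ → ℝ → Prop}
    (W : World p a b c J 1 l q D dl Cl) (g : G0 p a b c J D)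
    {N X R : ℤ} {I : ℝ} (hk : KCl p l Cl N X R I) (kz : KF a b D (X + (1 : ℤ) * I) (X + (1 : ℤ) * I + R) I)
    {Ne Xe : ℤ} {Ie : ℝ} (he : EFac p 1 D Cl 1 Ne Xe Ie)
    (hkf : ∀ kf ∈ (kfY 1 [0,0,0,0,0,0,1,0,0,0,1]), KOk p l Cl 1
      (xv [1, a, b, c, p, J, X, R, Xe] [D, I, Ie]) N kf)
    (h0 : 1 ≤ (c : ℝ))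
    (h1 : 1 ≤ (a : ℝ) - (b : ℝ) - (c : ℝ))
    (h2 : 0 < 2 * (b : ℝ) - D)
    (h3 : 1 ≤ 2 * (a : ℝ) - (b : ℝ))
    (h4 : 0 < -(b : ℝ) - (X : ℝ) + D - I)
    (h5 : 0 < (J : ℝ) - I)
    (h6 : 0 < -(J : ℝ) + D - I)
    (h7 : 0 < -2 * (X : ℝ) + D - 2 * I) : False := by
  have g1 := g.a2
  have g2 := g.b2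
  have g3 := g.pa
  have g4 := g.pb
  have g5 := g.J1
  have g6 := g.JD
  have g7 := g.D2
  have g8 := g.ca
  have g9 := g.ca'
  have k1 := kz.I0
  have k2 := kz.ID
  have k3 := kz.z1
  have k4 := kz.z2
  have k5 := kz.s1
  have k6 := kz.s2
  have e1 := he.I0
  have e2 := he.ID
  have e3 := he.x0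
  have e4 := he.xp
  push_cast at *
  refine (val_E W.toBase hk he (row := [1]) (by simp) (by simp) (kfY 1 [0,0,0,0,0,0,1,0,0,0,1])).sound W rfl (Nk := N)
    (fun kf _ _ => ⟨_, rfl⟩) hkf ?_ ok4
  · simp only [base, List.forall_mem_cons, List.not_mem_nil, false_imp_iff, implies_true,
      and_true, hld, xv, evg_cons, evg_nil, List.map_cons, List.map_nil, List.cons_append,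
      List.nil_append, if_true, if_false, Bool.false_eq_true]
    push_cast
    refine ⟨?_, ?_, ?_, ?_, ?_, ?_, ?_, ?_, ?_, ?_, ?_, ?_, ?_, ?_, ?_, ?_, ?_, ?_, ?_, ?_, ?_, ?_, ?_, ?_, ?_, ?_⟩ <;> linarith

end Helper25.S1T.Ypp_1bL
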