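import Pool.Agent.Helper25.S1T.Ypp_1cL2_q

set_option autoImplicit false
set_option linter.all false

namespace Helper25.S1T.Ypp_1cL2

open Helper25.KG Helper25.KW Helper55.KE Helper11.CT

noncomputable def t43 : Tre :=
  (.I [0,-1,-1,0,1,0,0,1] (.S ⟨1,0,[0,1,0,0,0,0,0,1],[0,0,1],[0,0,0,0,0,0,0,1],(⟨0,[(23,0)]⟩,⟨0,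
  [(22,0)]⟩),⟨0,[(12,0)]⟩,.k,.k,⟨false,1,⟨1,[(13,0),(0,0),(19,0)]⟩,⟨0,[]⟩⟩,⟨true,0,⟨0,[(36,0)]⟩,⟨0,
  []⟩⟩,⟨true,0,⟨0,[(32,0)]⟩,⟨0,[(31,0)]⟩⟩,⟨false,0,⟨0,[(32,0)]⟩,⟨0,[(31,0),(2,0)]⟩⟩,[.a ⟨true,0,⟨0,
  [(18,0)]⟩,⟨0,[(1,0),(15,0)]⟩⟩ ⟨false,1,⟨5,[(0,4),(12,0),(0,0),(3,0),(2,0),(6,1)]⟩,⟨2,[(1,2),(5,0),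
  (20,0),(3,0)]⟩⟩ ⟨true,0,⟨0,[(4,0),(13,0)]⟩,⟨0,[(1,0)]⟩⟩,.o ⟨false,1,⟨1,[(18,1),(6,0),(8,0)]⟩,⟨0,
  [(5,0)]⟩⟩,.o ⟨false,1,⟨1,[(20,1),(4,0),(7,0)]⟩,⟨0,[(4,0)]⟩⟩,.e ⟨false,1,⟨0,[(0,0)]⟩,⟨1,[(1,0),(17,
  0),(0,0)]⟩⟩ ⟨false,1,⟨5,[(0,4),(12,0),(0,0),(3,0),(2,0),(6,1)]⟩,⟨0,[(1,0)]⟩⟩]⟩) (.Q [0,-1,0,2,0,0,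
  -1,-1,0,0,-1] (.p false [0,0,1] [] (⟨0,[(23,0)]⟩,⟨0,[(22,0)]⟩) .k 0 (⟨0,[]⟩,⟨0,[]⟩) .k .k) (.R ⟨1,
  false,false,false,[1,-1],[1,0,-1],[1,1],(⟨0,[(27,0)]⟩,⟨0,[(28,0)]⟩),(⟨0,[(23,0)]⟩,⟨0,[(24,0)]⟩),
  ⟨0,[(12,0),(0,0)]⟩,.k,.k,(.r (-1) ⟨0,[(9,0),(22,0)]⟩ ⟨0,[(21,0),(0,0),(10,1)]⟩),.k,(.r (-1) ⟨0,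
  [(4,0),(0,0),(3,0)]⟩ ⟨1,[(0,1),(20,2),(0,0),(14,1)]⟩),.k,⟨true,0,⟨0,[(5,0),(13,0)]⟩,⟨0,[(1,0),(8,
  1),(15,0),(6,1)]⟩⟩,⟨false,1,⟨0,[(5,0),(28,0)]⟩,⟨0,[(21,0)]⟩⟩,⟨false,0,⟨1,[(21,0),(0,0),(10,1)]⟩,
  ⟨1,[(9,0),(22,0),(2,0)]⟩⟩,⟨true,0,⟨1,[(0,0),(19,0)]⟩,⟨0,[(4,0)]⟩⟩,⟨false,0,⟨1,[(21,0),(0,0),(10,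
  3)]⟩,⟨3,[(7,1),(2,1),(15,0),(5,1),(2,2)]⟩⟩,⟨false,0,⟨0,[(0,0)]⟩,⟨0,[(4,0),(27,0),(2,0)]⟩⟩,[.o
  ⟨false,0,⟨0,[(6,0)]⟩,⟨1,[(19,1),(6,0),(8,0)]⟩⟩,.a ⟨true,0,⟨1,[(0,0),(9,1),(9,0)]⟩,⟨0,[(19,0)]⟩⟩
  ⟨true,0,⟨0,[]⟩,⟨1,[(21,0),(0,0)]⟩⟩ ⟨false,1,⟨1,[(0,0),(8,1),(10,0)]⟩,⟨1,[(19,1),(1,0),(0,0)]⟩⟩,.o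
  ⟨false,0,⟨1,[(21,0),(0,0)]⟩,⟨1,[(26,0),(7,0)]⟩⟩,.o ⟨false,0,⟨0,[(21,0),(0,0)]⟩,⟨1,[(8,0),(0,0),
  (16,0),(6,1)]⟩⟩]⟩) (.Q [0,1,0,0,0,0,0,0,1,-1,0,1] (.p true [0,0,0,0,1] [1] (⟨0,[(17,0)]⟩,⟨0,[(16,
  0)]⟩) .k 1 (⟨0,[]⟩,⟨0,[]⟩) .k .k) (.Q [0,0,-1,0,0,0,0,0,1,0,0,1] (.p true [0,0,0,0,1] [] (⟨0,[(18,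
  0)]⟩,⟨0,[(17,0)]⟩) .k 0 (⟨0,[]⟩,⟨0,[]⟩) .k .k) (.Q [0,0,0,0,-1,0,-1,-1,1,0,-1,1] (.p false [0,0,
  1] [0,0,0,0,1] (⟨0,[(26,0)]⟩,⟨0,[(25,0)]⟩) .k 2 (⟨0,[(19,0)]⟩,⟨0,[(18,0)]⟩) .k (.r (-1) ⟨0,[(7,0),
  (13,0),(15,0)]⟩ ⟨0,[(4,0),(26,0)]⟩)) (.Q [0,0,-1,0,0,0,0,0,1,-1,0,1] (.p true [0,0,0,0,1] [1] (⟨0,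
  [(20,0)]⟩,⟨0,[(19,0)]⟩) .k 1 (⟨0,[]⟩,⟨0,[]⟩) .k .k) (.Q [0,0,0,0,0,-1,0,0,0,1,0,-1] (.ed true [0,
  1,0,0,1] .k) (.S ⟨1,0,[],[1,0,0,0,-1],[1,-1,0,-1],(⟨0,[(21,0)]⟩,⟨0,[(22,0)]⟩),⟨0,[(0,0)]⟩,.k,(.r
  (-1) ⟨1,[(14,0),(22,0),(2,0)]⟩ ⟨1,[(26,0),(0,0),(10,1),(3,1)]⟩),⟨false,1,⟨0,[(37,0),(2,0)]⟩,⟨0,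
  [(38,0)]⟩⟩,⟨true,0,⟨0,[(42,0)]⟩,⟨0,[]⟩⟩,⟨true,0,⟨0,[]⟩,⟨0,[(42,0)]⟩⟩,⟨false,0,⟨0,[(38,0)]⟩,⟨0,
  [(37,0),(2,0)]⟩⟩,[.o ⟨false,1,⟨0,[(19,0)]⟩,⟨1,[(1,1),(24,0),(0,0)]⟩⟩,.a ⟨true,1,⟨1,[(19,1),(15,0),
  (4,0)]⟩,⟨0,[(2,0),(21,0)]⟩⟩ ⟨true,1,⟨1,[(15,1),(15,0),(8,0)]⟩,⟨0,[(6,0),(3,0),(13,0),(13,0)]⟩⟩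
  ⟨false,1,⟨1,[(39,0),(0,0)]⟩,⟨0,[(42,0)]⟩⟩,.o ⟨false,1,⟨0,[(19,0)]⟩,⟨1,[(1,1),(24,0),(0,0)]⟩⟩,.o
  ⟨false,1,⟨1,[(19,1),(6,0),(0,0)]⟩,⟨0,[(1,0)]⟩⟩]⟩) (.R ⟨0,false,false,false,[1,0,0,0,-1],[1,1,-1],
  [0,1,1],(⟨0,[(21,0)]⟩,⟨0,[(22,0)]⟩),(⟨0,[(28,0),(4,0)]⟩,⟨0,[(18,0)]⟩),⟨0,[(0,0)]⟩,.k,.k,(.r (-1)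
  ⟨1,[(14,0),(22,0),(2,0)]⟩ ⟨1,[(26,0),(0,0),(10,1),(3,1)]⟩),(.r (-2) ⟨3,[(5,1),(10,1),(2,0),(0,0),
  (3,1),(6,0),(7,1),(0,3)]⟩ ⟨0,[(6,0),(31,0)]⟩),.k,.k,⟨true,0,⟨1,[(5,0),(4,1),(13,0)]⟩,⟨0,[(7,0),
  (30,0)]⟩⟩,⟨false,0,⟨0,[(1,0),(21,0)]⟩,⟨0,[(19,0),(6,0)]⟩⟩,⟨true,(-1),⟨0,[(6,0),(3,0),(13,0)]⟩,⟨1,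
  [(39,0),(0,0)]⟩⟩,⟨false,(-1),⟨0,[(2,0),(35,0)]⟩,⟨1,[(5,0),(13,1),(4,0),(15,1)]⟩⟩,⟨false,0,⟨0,[]⟩,
  ⟨0,[]⟩⟩,⟨false,0,⟨0,[]⟩,⟨0,[]⟩⟩,[.o ⟨false,0,⟨0,[(11,0),(26,0)]⟩,⟨1,[(5,0),(18,0),(6,0),(8,0)]⟩⟩,
  .a ⟨true,0,⟨0,[(7,0),(15,0),(14,0)]⟩,⟨0,[(9,0)]⟩⟩ ⟨true,0,⟨1,[(26,0),(0,0)]⟩,⟨0,[]⟩⟩ ⟨false,0,⟨1,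
  [(2,1),(35,1),(0,0),(0,0)]⟩,⟨1,[(5,0),(13,1),(4,0)]⟩⟩,.o ⟨false,1,⟨0,[(19,0)]⟩,⟨1,[(1,1),(24,0),
  (0,0)]⟩⟩,.o ⟨false,1,⟨1,[(19,1),(6,0),(0,0)]⟩,⟨0,[(1,0)]⟩⟩]⟩)) (.Q [0,0,0,1,1,0,1,1,-1,0,1,-1]
  (.p true [0,0,1] [0,0,0,0,1] (⟨0,[(28,0)]⟩,⟨0,[(27,0)]⟩) .k 2 (⟨0,[(21,0)]⟩,⟨0,[(20,0)]⟩) .k (.r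
  (-1) ⟨0,[(9,0),(13,0),(15,0)]⟩ ⟨0,[(6,0),(26,0)]⟩)) (.Q [0,0,0,0,0,-1,0,0,0,0,0,1] (.ed false [1,
  -1,0,0,1] .k) (.R ⟨1,false,false,true,[0,0,0,0,1],[0,0,1],[0,0,1],(⟨0,[(23,0)]⟩,⟨0,[(22,0)]⟩),(⟨0,
  [(30,0)]⟩,⟨0,[(29,0)]⟩),⟨0,[(0,0)]⟩,.k,.k,(.r 0 ⟨0,[(37,0)]⟩ ⟨5,[(1,3),(6,2),(12,3),(4,0),(1,2),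
  (10,1),(1,1)]⟩),.k,(.r 0 ⟨3,[(7,0),(0,2),(4,1),(21,1),(4,0)]⟩ ⟨0,[(25,0),(2,0),(10,0),(1,0)]⟩),.k,
  ⟨true,0,⟨0,[(7,0),(8,1),(15,0),(6,1)]⟩,⟨0,[(11,0),(13,0)]⟩⟩,⟨false,1,⟨0,[(1,0),(6,0),(5,0)]⟩,⟨0,
  [(11,0),(9,0)]⟩⟩,⟨false,1,⟨1,[(27,0),(0,0),(12,1)]⟩,⟨2,[(14,0),(20,0),(3,0)]⟩⟩,⟨false,2,⟨2,[(1,1),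
  (4,0),(13,1),(0,0),(19,1)]⟩,⟨0,[(3,0)]⟩⟩,⟨false,1,⟨1,[(27,0),(0,0),(10,1),(1,1)]⟩,⟨4,[(13,1),(21,
  0),(2,0)]⟩⟩,⟨true,1,⟨0,[(1,0)]⟩,⟨0,[(3,0),(34,0)]⟩⟩,[.a ⟨true,0,⟨0,[(25,0)]⟩,⟨0,[(8,0),(15,0)]⟩⟩
  ⟨true,0,⟨1,[(27,0),(0,0)]⟩,⟨0,[]⟩⟩ ⟨false,1,⟨10,[(1,9),(4,0),(6,3),(6,0),(14,2)]⟩,⟨2,[(3,1),(17,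
  0),(4,0),(14,1)]⟩⟩,.o ⟨false,1,⟨1,[(25,1),(6,0),(8,0)]⟩,⟨0,[(12,0)]⟩⟩,.o ⟨false,0,⟨1,[(3,1),(21,
  1),(6,0),(8,0)]⟩,⟨0,[(20,0)]⟩⟩,.o ⟨false,0,⟨1,[(3,1),(21,1),(1,0),(0,0),(3,0),(8,0)]⟩,⟨1,[(2,1),
  (11,0),(0,0),(16,0),(6,1)]⟩⟩]⟩) (.R ⟨0,false,false,true,[0,0,0,0,1],[1,-1],[0,1,1],(⟨0,[(23,0)]⟩,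
  ⟨0,[(22,0)]⟩),(⟨0,[(33,0)]⟩,⟨0,[(34,0)]⟩),⟨0,[(0,0)]⟩,.k,.k,(.r 0 ⟨0,[(37,0)]⟩ ⟨5,[(1,3),(6,2),
  (12,3),(4,0),(1,2),(10,1),(1,1)]⟩),(.r 0 ⟨1,[(1,0),(5,0),(13,0),(6,0),(10,0),(3,0)]⟩ ⟨1,[(15,0),
  (22,0),(2,0)]⟩),.k,.k,⟨false,0,⟨1,[(27,0),(0,0),(10,1)]⟩,⟨1,[(15,0),(22,0),(1,0)]⟩⟩,⟨true,0,⟨0,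
  [(2,0)]⟩,⟨1,[(3,1),(21,1),(6,0),(8,0)]⟩⟩,⟨true,0,⟨1,[(27,0),(0,0)]⟩,⟨2,[(14,0),(20,0),(3,0)]⟩⟩,
  ⟨false,1,⟨0,[(16,0),(3,0)]⟩,⟨1,[(3,1),(21,1),(6,0),(6,1),(1,0)]⟩⟩,⟨false,0,⟨0,[]⟩,⟨0,[]⟩⟩,⟨false,
  0,⟨0,[]⟩,⟨0,[]⟩⟩,[.o ⟨false,0,⟨0,[(38,0)]⟩,⟨1,[(32,0),(6,1),(1,0)]⟩⟩,.a ⟨true,0,⟨3,[(16,1),(3,0),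
  (0,0),(14,0),(1,1)]⟩,⟨0,[(39,0)]⟩⟩ ⟨true,0,⟨1,[(27,0),(0,0)]⟩,⟨0,[]⟩⟩ ⟨false,1,⟨9,[(13,1),(2,3),
  (3,9),(15,2),(1,1),(1,2)]⟩,⟨1,[(3,1),(21,1),(6,0),(6,1),(1,0)]⟩⟩,.o ⟨false,0,⟨1,[(3,1),(21,1),(6,
  0),(8,0)]⟩,⟨0,[(20,0)]⟩⟩,.o ⟨false,0,⟨1,[(3,1),(21,1),(1,0),(0,0),(3,0),(8,0)]⟩,⟨1,[(2,1),(11,0),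
  (0,0),(16,0),(6,1)]⟩⟩]⟩)) (.Q [0,0,0,0,0,0,0,0,0,1,-1,-1] (.ed true [0,0,1,0,1] (.r 0 ⟨0,[(10,0),
  (13,0)]⟩ ⟨1,[(7,0),(17,0),(0,0),(12,0),(0,0)]⟩)) (.R ⟨1,false,false,true,[1,0,0,0,-1],[1,0,-1,0,
  -1],[],(⟨0,[(22,0)]⟩,⟨0,[(23,0)]⟩),(⟨0,[(0,0)]⟩,⟨0,[(23,0),(6,0)]⟩),⟨0,[(0,0),(18,0)]⟩,.k,.k,(.r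
  (-1) ⟨1,[(15,0),(22,0),(2,0)]⟩ ⟨1,[(27,0),(0,0),(10,1),(3,1)]⟩),.k,.k,.k,⟨false,1,⟨1,[(11,1),(13,
  1),(14,0),(0,0)]⟩,⟨1,[(7,0),(0,0),(31,0)]⟩⟩,⟨true,0,⟨0,[(11,0)]⟩,⟨0,[(27,0)]⟩⟩,⟨true,0,⟨0,[(43,
  0)]⟩,⟨0,[]⟩⟩,⟨false,0,⟨0,[(12,0)]⟩,⟨0,[(25,0),(15,0)]⟩⟩,⟨false,0,⟨0,[(39,0)]⟩,⟨0,[(38,0),(2,0)]⟩⟩,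
  ⟨false,0,⟨0,[(12,0),(26,0)]⟩,⟨1,[(6,0),(18,0),(15,1)]⟩⟩,[.e ⟨false,1,⟨1,[(20,0),(0,0),(18,0)]⟩,⟨0,
  []⟩⟩ ⟨false,0,⟨0,[(8,0),(2,0),(2,0),(24,0)]⟩,⟨1,[(20,0),(0,0),(3,1),(15,0)]⟩⟩,.o ⟨false,1,⟨1,[(2,
  1),(5,1),(2,1),(2,0),(0,0),(16,0),(6,1)]⟩,⟨1,[(3,1),(21,3),(6,0),(8,0)]⟩⟩,.o ⟨false,1,⟨0,[(20,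
  0)]⟩,⟨1,[(3,1),(21,1),(6,0),(8,0)]⟩⟩,.a ⟨true,0,⟨0,[(2,0)]⟩,⟨0,[(4,0)]⟩⟩ ⟨false,1,⟨1,[(40,0),(0,
  0)]⟩,⟨1,[(27,0),(0,0)]⟩⟩ ⟨true,0,⟨0,[(8,0),(2,0),(2,0),(24,0)]⟩,⟨1,[(25,1),(1,0),(0,0)]⟩⟩]⟩) (.Q
  [0,0,0,0,0,-1,0,0,0,1,0,-1] (.ed true [0,1,0,0,1] .k) (.R ⟨1,false,false,false,[1,0,0,0,-1],[2,0,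
  -1,0,-1],[],(⟨0,[(23,0)]⟩,⟨0,[(24,0)]⟩),(⟨0,[(23,0),(6,0)]⟩,⟨0,[(1,0)]⟩),⟨0,[(0,0)]⟩,.k,.k,(.r
  (-1) ⟨1,[(16,0),(22,0),(2,0)]⟩ ⟨1,[(28,0),(0,0),(10,1),(3,1)]⟩),.k,.k,.k,⟨true,0,⟨0,[(12,0),(13,
  0)]⟩,⟨0,[(9,0)]⟩⟩,⟨false,0,⟨0,[(25,0)]⟩,⟨1,[(28,1),(4,0),(7,0)]⟩⟩,⟨true,0,⟨0,[(44,0)]⟩,⟨0,[]⟩⟩,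
  ⟨false,0,⟨0,[(9,0),(15,0)]⟩,⟨1,[(26,1),(6,0),(8,0)]⟩⟩,⟨false,0,⟨0,[(40,0)]⟩,⟨0,[(39,0),(2,0)]⟩⟩,
  ⟨false,0,⟨0,[(9,0),(15,0),(14,0)]⟩,⟨1,[(7,0),(18,0),(6,0),(8,0)]⟩⟩,[.e ⟨false,1,⟨1,[(21,0),(0,0),
  (18,0)]⟩,⟨0,[]⟩⟩ ⟨false,0,⟨0,[(3,0),(0,0),(11,0),(23,0)]⟩,⟨1,[(21,0),(0,0),(3,1),(6,0)]⟩⟩,.o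
  ⟨false,1,⟨0,[(3,0),(5,0),(2,0),(3,0),(23,0)]⟩,⟨0,[(4,0),(21,1),(6,0)]⟩⟩,.o ⟨false,1,⟨0,[(21,0)]⟩,
  ⟨1,[(4,1),(21,1),(6,0),(8,0)]⟩⟩,.a ⟨true,0,⟨0,[(3,0)]⟩,⟨0,[(5,0)]⟩⟩ ⟨false,1,⟨1,[(41,0),(0,0)]⟩,
  ⟨1,[(28,0),(0,0)]⟩⟩ ⟨true,0,⟨0,[(3,0),(0,0),(11,0),(23,0)]⟩,⟨1,[(8,0),(17,2),(2,0),(3,0)]⟩⟩]⟩)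
  (.R ⟨0,false,false,true,[1,0,0,0,-1],[2,-1,0,0,-1],[0,0,0,-1],(⟨0,[(23,0)]⟩,⟨0,[(24,0)]⟩),(⟨0,
  [(23,0),(10,0)]⟩,⟨0,[(0,0)]⟩),⟨0,[(0,0)]⟩,.k,(.r (-1) ⟨1,[(16,0),(22,0),(2,0)]⟩ ⟨1,[(28,0),(0,0),
  (10,1),(3,1)]⟩),(.r (-1) ⟨1,[(16,0),(22,0),(2,0)]⟩ ⟨1,[(28,0),(0,0),(10,1),(3,1)]⟩),.k,.k,.k,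
  ⟨true,0,⟨1,[(28,0),(0,0)]⟩,⟨0,[]⟩⟩,⟨false,0,⟨3,[(3,1),(18,1),(14,0),(3,0)]⟩,⟨1,[(33,0),(7,0)]⟩⟩,
  ⟨true,0,⟨0,[(39,0)]⟩,⟨0,[(40,0)]⟩⟩,⟨false,0,⟨3,[(17,1),(3,0),(0,0),(14,0),(1,1)]⟩,⟨1,[(33,0),(6,
  1),(1,0)]⟩⟩,⟨false,0,⟨0,[]⟩,⟨0,[]⟩⟩,⟨false,0,⟨0,[]⟩,⟨0,[]⟩⟩,[.e ⟨false,1,⟨1,[(39,1),(1,0),(0,0)]⟩,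
  ⟨0,[(40,0)]⟩⟩ ⟨false,0,⟨9,[(14,1),(2,3),(19,2),(1,1),(1,2)]⟩,⟨1,[(21,0),(0,0),(10,0),(6,1)]⟩⟩,.o
  ⟨false,1,⟨0,[(17,0),(3,0)]⟩,⟨0,[(4,0),(21,0),(6,0),(6,0)]⟩⟩,.o ⟨false,1,⟨0,[(21,0)]⟩,⟨1,[(4,1),
  (21,1),(6,0),(8,0)]⟩⟩,.a ⟨true,0,⟨0,[(3,0)]⟩,⟨0,[(5,0)]⟩⟩ ⟨false,1,⟨1,[(16,0),(22,0),(2,0)]⟩,⟨1,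
  [(28,0),(0,0),(10,1)]⟩⟩ ⟨true,0,⟨9,[(14,1),(2,3),(19,2),(1,1),(1,2)]⟩,⟨1,[(8,0),(17,0),(2,0),(3,
  0),(6,1)]⟩⟩]⟩))))) (.Q [0,0,0,0,0,0,-1,0,-1,1,-1,-1] (.p false [0,0,1] [1,0,0,0,-1] (⟨0,[(27,0)]⟩,
  ⟨0,[(26,0)]⟩) .k 2 (⟨0,[(19,0)]⟩,⟨0,[(20,0)]⟩) .k (.r 0 ⟨0,[(8,0),(13,0)]⟩ ⟨1,[(5,0),(17,0),(0,0),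
  (12,0),(0,0)]⟩)) (.Q [0,0,0,0,0,-1,0,0,0,1,0,-1] (.ed true [0,1,0,0,1] .k) (.Q [0,-1,0,0,1,0,0,0,
  -1,0,0,-1] (.p false [0,0,0,0,1] [] (⟨0,[(22,0)]⟩,⟨0,[(21,0)]⟩) .k 0 (⟨0,[]⟩,⟨0,[]⟩) .k .k) (.S
  ⟨1,0,[],[1,0,0,0,-1],[0,-1],(⟨0,[(22,0)]⟩,⟨0,[(23,0)]⟩),⟨0,[(1,0)]⟩,.k,(.r (-1) ⟨1,[(15,0),(22,0),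
  (2,0)]⟩ ⟨1,[(27,0),(0,0),(10,1),(3,1)]⟩),⟨false,1,⟨1,[(20,0),(0,0),(19,0)]⟩,⟨0,[]⟩⟩,⟨true,0,⟨0,
  [(43,0)]⟩,⟨0,[]⟩⟩,⟨true,0,⟨0,[(39,0)]⟩,⟨0,[(38,0)]⟩⟩,⟨false,0,⟨0,[(39,0)]⟩,⟨0,[(38,0),(2,0)]⟩⟩,
  [.e ⟨false,1,⟨1,[(40,0),(0,0)]⟩,⟨0,[(43,0)]⟩⟩ ⟨false,1,⟨1,[(20,0),(0,0),(18,0)]⟩,⟨0,[]⟩⟩,.o
  ⟨false,1,⟨0,[(0,0)]⟩,⟨0,[(5,0)]⟩⟩,.e ⟨false,1,⟨0,[(41,0)]⟩,⟨0,[(43,0)]⟩⟩ ⟨false,1,⟨1,[(20,0),(0,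
  0),(19,0)]⟩,⟨0,[]⟩⟩,.a ⟨true,0,⟨0,[(2,0),(24,0)]⟩,⟨0,[(4,0)]⟩⟩ ⟨true,1,⟨1,[(40,0),(0,0)]⟩,⟨0,[(7,
  0),(3,0),(13,0)]⟩⟩ ⟨false,1,⟨1,[(40,0),(0,0)]⟩,⟨1,[(27,0),(0,0)]⟩⟩]⟩) (.R ⟨1,false,false,true,[1,
  0,0,0,-1],[1,0,-1],[],(⟨0,[(22,0)]⟩,⟨0,[(23,0)]⟩),(⟨0,[(29,0)]⟩,⟨0,[(30,0)]⟩),⟨0,[(1,0)]⟩,.k,.k,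
  (.r (-1) ⟨1,[(15,0),(22,0),(2,0)]⟩ ⟨1,[(27,0),(0,0),(10,1),(3,1)]⟩),.k,(.r (-2) ⟨3,[(3,1),(2,1),
  (10,1),(3,1),(10,0),(7,1),(0,2)]⟩ ⟨0,[(7,0),(31,0)]⟩),.k,⟨true,1,⟨0,[(11,0),(13,0),(15,0)]⟩,⟨0,
  [(7,0)]⟩⟩,⟨false,0,⟨0,[(4,0),(6,0)]⟩,⟨1,[(3,1),(3,0),(0,0),(31,0)]⟩⟩,⟨true,0,⟨0,[(43,0)]⟩,⟨0,[]⟩⟩,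
  ⟨false,(-1),⟨0,[(0,0),(11,0)]⟩,⟨0,[(3,0),(37,0)]⟩⟩,⟨false,0,⟨0,[(39,0)]⟩,⟨0,[(38,0),(2,0)]⟩⟩,
  ⟨false,(-1),⟨0,[(0,0),(11,0),(26,0)]⟩,⟨1,[(3,1),(12,1),(15,0),(8,0)]⟩⟩,[.e ⟨false,1,⟨1,[(20,0),(0,
  0),(18,0)]⟩,⟨0,[]⟩⟩ ⟨false,(-1),⟨0,[(0,0),(7,0),(2,0),(2,0),(24,0)]⟩,⟨1,[(3,1),(16,0),(0,0),(19,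
  0)]⟩⟩,.o ⟨false,0,⟨0,[(12,0)]⟩,⟨1,[(25,1),(6,0),(8,0)]⟩⟩,.o ⟨false,1,⟨0,[(20,0)]⟩,⟨1,[(0,1),(31,
  0),(8,0)]⟩⟩,.a ⟨true,0,⟨0,[(2,0),(24,0)]⟩,⟨0,[(4,0)]⟩⟩ ⟨false,1,⟨1,[(40,0),(0,0)]⟩,⟨1,[(27,0),(0,
  0)]⟩⟩ ⟨true,(-1),⟨0,[(0,0),(7,0),(2,0),(2,0),(24,0)]⟩,⟨1,[(3,1),(23,0),(0,0)]⟩⟩]⟩)) (.Q [0,-2,0,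
  -1,1,0,0,0,-1,1,0,-1] (.p false [0,0,0,0,1] [1] (⟨0,[(22,0)]⟩,⟨0,[(21,0)]⟩) .k 1 (⟨0,[]⟩,⟨0,[]⟩)
  .k .k) (.Q [0,0,0,0,0,0,0,0,-1,1,0,-1] (.p false [0,0,0,0,1] [1] (⟨0,[(23,0)]⟩,⟨0,[(22,0)]⟩) .k 1
  (⟨0,[]⟩,⟨0,[]⟩) .k .k) (.R ⟨0,false,false,true,[-1,1,0,0,1],[0,0,0,0,1],[0,2,1],(⟨0,[(2,0)]⟩,⟨0,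
  [(23,0),(10,0)]⟩),(⟨0,[(24,0)]⟩,⟨0,[(23,0)]⟩),⟨0,[(23,0)]⟩,(.r 0 ⟨1,[(28,0),(0,0),(10,1),(3,1)]⟩
  ⟨1,[(16,0),(22,0),(2,0)]⟩),.k,.k,.k,.k,.k,⟨true,0,⟨1,[(28,0),(0,0)]⟩,⟨0,[]⟩⟩,⟨false,0,⟨9,[(21,3),
  (0,3),(14,4),(4,0),(1,1)]⟩,⟨1,[(33,0),(7,0)]⟩⟩,⟨true,0,⟨0,[(39,0)]⟩,⟨0,[(40,0)]⟩⟩,⟨false,0,⟨2,[(1,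
  0),(20,0),(14,0),(1,1)]⟩,⟨1,[(33,0),(6,1),(1,0)]⟩⟩,⟨false,0,⟨0,[]⟩,⟨0,[]⟩⟩,⟨false,0,⟨0,[]⟩,⟨0,
  []⟩⟩,[.a ⟨true,(-1),⟨0,[(5,0),(2,0),(3,0),(13,0)]⟩,⟨0,[(0,0),(41,0)]⟩⟩ ⟨true,(-1),⟨0,[(8,0),(3,0),
  (13,0)]⟩,⟨0,[(42,0)]⟩⟩ ⟨false,(-1),⟨0,[(10,0),(15,0)]⟩,⟨1,[(33,0),(7,0),(0,1)]⟩⟩,.o ⟨false,0,⟨0,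
  [(6,0)]⟩,⟨1,[(0,1),(32,0),(8,0)]⟩⟩,.o ⟨false,1,⟨0,[(5,0),(27,0)]⟩,⟨1,[(0,1),(27,0),(0,0)]⟩⟩,.o
  ⟨false,1,⟨0,[(22,0),(10,0)]⟩,⟨0,[(0,0)]⟩⟩]⟩) (.K ⟨0,[1,0,1,0,-1],0,1,(⟨0,[(23,0),(7,0)]⟩,⟨0,[(2,
  0),(16,0)]⟩),.k,(.r (-2) ⟨3,[(4,1),(2,1),(10,1),(3,1),(10,0),(7,1),(0,2)]⟩ ⟨0,[(8,0),(31,0)]⟩),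
  (.r (-1) ⟨0,[(26,0),(2,0),(10,0),(1,0)]⟩ ⟨3,[(8,0),(0,2),(4,1),(21,1),(4,0)]⟩),.k,.k,[⟨0,[(0,0)]⟩,
  ⟨2,[(1,0),(2,1),(3,1),(19,0),(8,0),(2,0)]⟩,⟨2,[(0,2),(7,2),(3,2),(2,0),(20,0),(3,0)]⟩,⟨9,[(4,9),
  (16,3),(0,3),(14,4),(4,0),(1,1)]⟩]⟩)) (.K ⟨0,[1,0,1,0,-1],0,1,(⟨0,[(22,0),(7,0)]⟩,⟨0,[(1,0),(16,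
  0)]⟩),.k,(.r (-2) ⟨3,[(3,1),(2,1),(10,1),(3,1),(10,0),(7,1),(0,2)]⟩ ⟨0,[(7,0),(31,0)]⟩),(.r (-1)
  ⟨0,[(25,0),(2,0),(10,0),(1,0)]⟩ ⟨3,[(7,0),(0,2),(4,1),(21,1),(4,0)]⟩),.k,.k,[⟨1,[(0,1),(15,1),(15,
  0),(8,0)]⟩,⟨2,[(3,2),(3,1),(0,0),(7,0),(19,0),(2,0)]⟩,⟨1,[(0,1),(7,0),(3,0),(0,0),(14,0)]⟩,⟨9,[(3,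
  9),(16,3),(0,3),(14,4),(4,0),(1,1)]⟩]⟩))) (.Q [0,0,0,0,0,0,0,0,0,1,-1,-1] (.ed true [0,0,1,0,1]
  (.r 0 ⟨0,[(9,0),(13,0)]⟩ ⟨1,[(6,0),(17,0),(0,0),(12,0),(0,0)]⟩)) (.S ⟨1,0,[0,1,0,0,0,0,0,1],[0,0,
  1,0,1],[1,2,0,-1,0,0,0,1],(⟨0,[(22,0),(6,0)]⟩,⟨0,[(0,0)]⟩),⟨0,[(18,0),(3,0)]⟩,.k,(.r (-1) ⟨1,[(2,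
  0),(1,0),(0,0),(10,0),(22,0)]⟩ ⟨0,[(7,0),(30,0)]⟩),⟨true,0,⟨0,[(37,0)]⟩,⟨0,[(38,0)]⟩⟩,⟨false,1,⟨1,
  [(19,0),(0,0),(19,0)]⟩,⟨0,[]⟩⟩,⟨false,0,⟨0,[]⟩,⟨1,[(19,0),(0,0),(19,0)]⟩⟩,⟨true,0,⟨0,[(38,0)]⟩,⟨0,
  [(37,0)]⟩⟩,[.o ⟨false,0,⟨0,[(1,0),(8,0),(13,0)]⟩,⟨0,[(2,0),(4,1),(2,1),(2,0),(24,0)]⟩⟩,.a ⟨true,0,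
  ⟨1,[(1,1),(8,1),(13,1),(10,0),(4,0)]⟩,⟨1,[(2,1),(3,0),(0,2),(2,3),(2,1),(21,0),(2,1)]⟩⟩ ⟨true,0,
  ⟨1,[(5,0),(4,1),(13,0)]⟩,⟨0,[(7,0),(30,0)]⟩⟩ ⟨false,1,⟨0,[(2,0),(0,0),(6,0)]⟩,⟨1,[(6,0),(0,0),(31,
  0)]⟩⟩,.o ⟨false,0,⟨0,[(1,0)]⟩,⟨0,[(10,0),(8,0)]⟩⟩,.o ⟨false,0,⟨1,[(1,1),(24,0),(0,0)]⟩,⟨0,[(2,0),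
  (4,0),(2,1),(2,0),(24,0)]⟩⟩]⟩) (.S ⟨1,0,[0,0,0,0,0,0,0,-1],[2,0,-1,0,-1],[1,-1,0,-1,0,0,0,-1],(⟨0,
  [(21,0),(6,0)]⟩,⟨0,[(0,0)]⟩),⟨0,[(17,0),(3,0)]⟩,.k,(.r (-1) ⟨1,[(7,1),(6,0),(22,0),(1,0)]⟩ ⟨0,
  [(24,0),(2,0),(10,0)]⟩),⟨false,1,⟨0,[(37,0),(2,0)]⟩,⟨0,[(38,0)]⟩⟩,⟨true,0,⟨0,[(42,0)]⟩,⟨0,[]⟩⟩,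
  ⟨true,0,⟨0,[]⟩,⟨0,[(42,0)]⟩⟩,⟨false,0,⟨0,[(38,0)]⟩,⟨0,[(37,0),(2,0)]⟩⟩,[.o ⟨false,0,⟨1,[(2,1),(3,
  0),(0,2),(2,3),(2,1),(21,0),(2,1)]⟩,⟨1,[(1,1),(8,1),(13,1),(6,0),(8,0)]⟩⟩,.e ⟨false,1,⟨0,[(7,0),
  (6,0)]⟩,⟨1,[(10,0),(13,1),(2,0),(6,0),(3,1)]⟩⟩ ⟨false,1,⟨0,[(7,0),(31,0)]⟩,⟨0,[(10,0),(13,0)]⟩⟩,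
  .a ⟨true,0,⟨1,[(2,1),(5,1),(1,1),(24,0),(4,0)]⟩,⟨0,[(1,0)]⟩⟩ ⟨false,1,⟨1,[(7,1),(6,0),(22,0),(2,
  0)]⟩,⟨0,[(10,0),(13,0),(13,0)]⟩⟩ ⟨true,0,⟨1,[(6,0),(0,0),(31,0)]⟩,⟨0,[(10,0),(13,0)]⟩⟩,.o ⟨false,
  0,⟨2,[(2,2),(3,1),(0,0),(2,5),(4,0),(19,0),(2,0)]⟩,⟨1,[(1,1),(29,0),(7,0)]⟩⟩]⟩)))) (.Q [0,2,0,0,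
  -1,0,0,0,1,0,0,1] (.p true [0,0,0,0,1] [] (⟨0,[(19,0)]⟩,⟨0,[(18,0)]⟩) .k 0 (⟨0,[]⟩,⟨0,[]⟩) .k .k)
  (.Q [0,0,0,0,0,-1,0,0,0,1,0,-1] (.ed true [0,1,0,0,1] .k) (.S ⟨1,0,[0,-1],[1,0,0,0,-1],[],(⟨0,
  [(20,0)]⟩,⟨0,[(21,0)]⟩),⟨0,[(0,0)]⟩,.k,(.r (-1) ⟨1,[(13,0),(22,0),(2,0)]⟩ ⟨1,[(25,0),(0,0),(10,1),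
  (3,1)]⟩),⟨true,0,⟨0,[(41,0)]⟩,⟨0,[]⟩⟩,⟨false,1,⟨1,[(18,0),(0,0),(19,0)]⟩,⟨0,[]⟩⟩,⟨false,0,⟨0,[(37,
  0)]⟩,⟨0,[(36,0),(2,0)]⟩⟩,⟨true,0,⟨0,[(37,0)]⟩,⟨0,[(36,0)]⟩⟩,[.o ⟨false,1,⟨1,[(2,1),(35,0),(0,0)]⟩,
  ⟨0,[(3,0)]⟩⟩,.a ⟨true,1,⟨1,[(2,1),(31,0),(3,0),(0,1)]⟩,⟨0,[(1,0)]⟩⟩ ⟨false,1,⟨1,[(38,0),(0,0)]⟩,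
  ⟨0,[(41,0)]⟩⟩ ⟨true,1,⟨0,[(39,0)]⟩,⟨0,[(1,0),(0,0)]⟩⟩,.e ⟨false,1,⟨1,[(18,0),(0,0),(19,0)]⟩,⟨0,
  []⟩⟩ ⟨false,1,⟨0,[(39,0)]⟩,⟨0,[(41,0)]⟩⟩,.o ⟨false,0,⟨0,[(2,0)]⟩,⟨1,[(19,1),(10,0),(7,0)]⟩⟩]⟩)
  (.R ⟨0,false,false,false,[1,0,0,0,-1],[0,1],[1,0,1,1],(⟨0,[(20,0)]⟩,⟨0,[(21,0)]⟩),(⟨0,[(32,0)]⟩,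
  ⟨0,[(31,0)]⟩),⟨0,[(0,0)]⟩,.k,.k,(.r (-1) ⟨1,[(13,0),(22,0),(2,0)]⟩ ⟨1,[(25,0),(0,0),(10,1),(3,
  1)]⟩),(.r (-1) ⟨1,[(13,0),(22,0),(2,0)]⟩ ⟨1,[(25,0),(0,0),(10,1),(3,1)]⟩),.k,.k,⟨true,0,⟨0,[]⟩,⟨1,
  [(25,0),(0,0)]⟩⟩,⟨false,1,⟨0,[(3,0),(9,0),(23,0)]⟩,⟨7,[(2,3),(15,3),(6,0),(0,0),(7,3),(5,1)]⟩⟩,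
  ⟨false,0,⟨1,[(25,0),(0,0),(10,1)]⟩,⟨1,[(13,0),(22,0),(2,0)]⟩⟩,⟨true,0,⟨0,[(3,0),(33,0)]⟩,⟨13,[(2,
  9),(8,2),(0,1),(1,5),(3,3),(15,3),(6,0)]⟩⟩,⟨false,0,⟨0,[]⟩,⟨0,[]⟩⟩,⟨false,0,⟨0,[]⟩,⟨0,[]⟩⟩,[.e
  ⟨false,0,⟨0,[(37,0)]⟩,⟨1,[(36,1),(1,0),(0,0)]⟩⟩ ⟨false,1,⟨1,[(19,1),(10,0),(6,1),(0,0)]⟩,⟨13,[(2,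
  9),(8,2),(0,1),(1,5),(3,3),(15,3),(6,0)]⟩⟩,.o ⟨false,1,⟨1,[(30,0),(6,1),(1,0)]⟩,⟨0,[(36,0)]⟩⟩,.a
  ⟨true,0,⟨1,[(2,1),(31,0),(3,0)]⟩,⟨0,[(19,0)]⟩⟩ ⟨true,0,⟨1,[(25,0),(0,0),(10,1)]⟩,⟨0,[(35,0)]⟩⟩
  ⟨false,1,⟨1,[(19,1),(10,0),(6,1),(1,0)]⟩,⟨13,[(2,9),(8,2),(0,1),(1,5),(3,3),(15,3),(6,0)]⟩⟩,.o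
  ⟨false,0,⟨0,[(2,0)]⟩,⟨1,[(19,1),(10,0),(7,0)]⟩⟩]⟩)) (.R ⟨1,false,false,false,[0,0,1],[1,0,0,0,-1],
  [0,0,0,0,0,0,0,1],(⟨0,[(27,0)]⟩,⟨0,[(26,0)]⟩),(⟨0,[(19,0)]⟩,⟨0,[(20,0)]⟩),⟨0,[(16,0)]⟩,.k,.k,.k,
  .k,(.r (-1) ⟨3,[(3,1),(10,1),(2,0),(0,0),(3,1),(6,0),(7,1)]⟩ ⟨0,[(5,0),(30,0)]⟩),.k,⟨true,0,⟨0,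
  [(8,0),(13,0)]⟩,⟨0,[(5,0)]⟩⟩,⟨false,0,⟨2,[(0,0),(0,1),(6,1),(2,1),(9,0),(11,0),(2,1)]⟩,⟨1,[(18,1),
  (5,1),(4,0),(7,0)]⟩⟩,⟨false,1,⟨1,[(17,0),(0,0),(19,0)]⟩,⟨0,[]⟩⟩,⟨true,0,⟨0,[(0,0),(5,0)]⟩,⟨0,[(2,
  0),(19,0)]⟩⟩,⟨true,0,⟨0,[(36,0)]⟩,⟨0,[(35,0)]⟩⟩,⟨true,0,⟨0,[(0,0),(5,0),(29,0)]⟩,⟨1,[(2,1),(0,0),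
  (18,0)]⟩⟩,[.o ⟨false,1,⟨1,[(0,0),(16,0)]⟩,⟨0,[(2,0)]⟩⟩,.o ⟨false,1,⟨0,[(0,0)]⟩,⟨0,[(2,0),(37,
  0)]⟩⟩,.o ⟨false,1,⟨1,[(24,1),(4,0),(7,0)]⟩,⟨0,[(8,0)]⟩⟩,.a ⟨true,0,⟨0,[(24,0)]⟩,⟨0,[(21,0)]⟩⟩
  ⟨true,1,⟨1,[(8,1),(13,1),(14,0),(0,0)]⟩,⟨0,[(4,0)]⟩⟩ ⟨false,1,⟨0,[(0,0),(20,0)]⟩,⟨0,[(2,0),(21,
  0)]⟩⟩]⟩))) (.R ⟨1,false,false,false,[0,0,1],[0,0,0,0,1],[0,1,0,0,0,0,0,1],(⟨0,[(25,0)]⟩,⟨0,[(24,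
  0)]⟩),(⟨0,[(18,0)]⟩,⟨0,[(17,0)]⟩),⟨0,[(14,0)]⟩,.k,.k,.k,.k,(.r (-2) ⟨3,[(1,1),(10,1),(2,0),(0,0),
  (3,1),(6,0),(7,1),(0,3)]⟩ ⟨0,[(2,0),(31,0)]⟩),.k,⟨false,1,⟨1,[(6,1),(13,1),(14,0),(0,0)]⟩,⟨1,[(2,
  0),(0,0),(31,0)]⟩⟩,⟨true,0,⟨0,[(6,0),(9,0)]⟩,⟨1,[(0,1),(1,0),(17,0),(1,0),(4,0)]⟩⟩,⟨true,0,⟨0,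
  [(38,0)]⟩,⟨0,[]⟩⟩,⟨false,0,⟨0,[(7,0),(8,0)]⟩,⟨1,[(0,1),(19,1),(6,0),(8,0)]⟩⟩,⟨false,0,⟨0,[(34,
  0)]⟩,⟨0,[(33,0),(2,0)]⟩⟩,⟨false,0,⟨0,[(7,0),(8,0),(17,0)]⟩,⟨1,[(0,1),(0,0),(18,0),(6,0),(8,0)]⟩⟩,
  [.a ⟨true,0,⟨0,[(16,0),(21,0)]⟩,⟨0,[(0,0)]⟩⟩ ⟨true,0,⟨0,[(6,0),(13,0)]⟩,⟨0,[(3,0)]⟩⟩ ⟨false,0,⟨2,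
  [(6,2),(2,0),(6,2),(13,0),(3,0)]⟩,⟨1,[(0,1),(21,1),(4,0),(7,0)]⟩⟩,.a ⟨true,0,⟨0,[(16,0)]⟩,⟨2,[(0,
  1),(3,0),(10,0),(4,0)]⟩⟩ ⟨false,1,⟨1,[(6,1),(13,1),(14,0),(0,0)]⟩,⟨1,[(2,0),(0,0),(31,0)]⟩⟩ ⟨true,
  0,⟨0,[(6,0),(9,0)]⟩,⟨1,[(0,1),(1,0),(17,0),(1,0),(4,0)]⟩⟩,.o ⟨false,1,⟨1,[(22,1),(4,0),(7,0)]⟩,⟨0,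
  [(6,0)]⟩⟩,.a ⟨true,0,⟨0,[(22,0)]⟩,⟨0,[(19,0)]⟩⟩ ⟨false,1,⟨1,[(6,1),(13,1),(14,0),(0,0)]⟩,⟨0,[(3,
  0)]⟩⟩ ⟨true,0,⟨2,[(6,2),(2,0),(6,2),(13,0),(3,0)]⟩,⟨1,[(0,1),(1,0),(17,0),(1,0),(4,0)]⟩⟩]⟩))))

theorem ok43 : chk K t43 r27 = true := by decide +kernel

noncomputable def t46 : Tre :=
  (.R ⟨2,true,false,true,[0,1],[0,0,1],[1,1,1],(⟨0,[]⟩,⟨0,[]⟩),(⟨0,[(20,0)]⟩,⟨0,[(19,0)]⟩),⟨0,[]⟩,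
  .k,.k,.k,.k,.k,.k,⟨false,0,⟨3,[(0,2),(2,0),(0,0),(11,0),(0,3)]⟩,⟨1,[(1,1),(13,1),(14,0),(0,0)]⟩⟩,
  ⟨true,0,⟨0,[(17,0)]⟩,⟨0,[(1,0)]⟩⟩,⟨true,0,⟨0,[(28,0)]⟩,⟨0,[(29,0)]⟩⟩,⟨false,1,⟨0,[(15,0),(12,0),
  (2,0)]⟩,⟨0,[(0,0)]⟩⟩,⟨false,0,⟨0,[]⟩,⟨1,[(10,0),(0,0),(19,0)]⟩⟩,⟨true,0,⟨0,[(15,0)]⟩,⟨0,[(2,0)]⟩⟩,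
  []⟩)

theorem ok46 : chk K t46 r25 = true := by decide +kernel

noncomputable def t48 : Tre :=
  (.K ⟨0,[0,1,1],0,0,(⟨0,[(19,0),(3,0)]⟩,⟨0,[(7,0)]⟩),.k,.k,(.x (-1) ⟨1,[(0,1),(2,0),(0,0),(2,1),
  (12,1),(0,0),(6,1)]⟩ ⟨1,[(16,0),(0,2),(1,1),(3,3)]⟩),.k,.k,[⟨1,[(16,0),(0,0)]⟩,⟨0,[(0,0)]⟩,⟨0,[(1,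
  0),(25,0)]⟩,⟨0,[(14,0),(13,0)]⟩]⟩)

theorem ok48 : chk K t48 r24 = true := by decide +kernel

noncomputable def t50 : Tre :=
  (.S ⟨1,0,[0,0,0,0,0,0,0,1],[0,0,1],[0,1,0,0,0,0,0,1],(⟨0,[(23,0)]⟩,⟨0,[(22,0)]⟩),⟨0,[(12,0)]⟩,.k,
  .k,⟨true,0,⟨0,[(36,0)]⟩,⟨0,[]⟩⟩,⟨false,1,⟨1,[(13,0),(0,0),(19,0)]⟩,⟨0,[]⟩⟩,⟨false,0,⟨0,[(32,0)]⟩,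
  ⟨0,[(31,0),(2,0)]⟩⟩,⟨true,0,⟨0,[(32,0)]⟩,⟨0,[(31,0)]⟩⟩,[.e ⟨false,0,⟨4,[(0,3),(17,0),(2,0),(6,
  1)]⟩,⟨0,[(1,0)]⟩⟩ ⟨false,0,⟨0,[(0,0)]⟩,⟨0,[(1,0),(34,0)]⟩⟩,.o ⟨false,1,⟨1,[(5,1),(19,0),(8,0)]⟩,
  ⟨0,[(19,0)]⟩⟩,.o ⟨false,1,⟨1,[(20,1),(4,0),(7,0)]⟩,⟨0,[(4,0)]⟩⟩,.a ⟨true,0,⟨0,[(20,0)]⟩,⟨0,[(17,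
  0)]⟩⟩ ⟨false,0,⟨0,[(0,0)]⟩,⟨1,[(1,1),(18,0),(0,0)]⟩⟩ ⟨true,0,⟨0,[(0,0)]⟩,⟨0,[(19,0),(0,0)]⟩⟩]⟩)

theorem ok50 : chk K t50 l32 = true := by decide +kernel

noncomputable def t51 : Tre :=
  (.S ⟨1,0,[0,0,1,1,0,0,0,-1],[1,1,-1],[1,1,1,0,0,0,0,-1],(⟨0,[(23,0),(4,0)]⟩,⟨0,[(13,0)]⟩),⟨0,[(23,
  0)]⟩,.k,.k,⟨true,0,⟨0,[(32,0)]⟩,⟨0,[(33,0)]⟩⟩,⟨false,1,⟨1,[(14,0),(0,0),(19,0)]⟩,⟨0,[]⟩⟩,⟨false,0,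
  ⟨0,[]⟩,⟨1,[(14,0),(0,0),(19,0)]⟩⟩,⟨true,0,⟨0,[(33,0)]⟩,⟨0,[(32,0)]⟩⟩,[.a ⟨true,0,⟨0,[(0,0),(36,
  0)]⟩,⟨0,[(4,0)]⟩⟩ ⟨false,0,⟨2,[(1,2),(6,0),(20,0),(3,0)]⟩,⟨1,[(5,1),(0,1),(27,0),(0,0)]⟩⟩ ⟨true,0,
  ⟨0,[(1,0),(31,0)]⟩,⟨0,[(4,0),(0,0)]⟩⟩,.a ⟨true,0,⟨0,[(0,0)]⟩,⟨1,[(4,0),(14,0),(12,0)]⟩⟩ ⟨true,0,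
  ⟨0,[(1,0)]⟩,⟨0,[(5,0),(0,0)]⟩⟩ ⟨false,1,⟨0,[(2,0),(30,0)]⟩,⟨1,[(5,1),(0,0),(0,0),(11,0)]⟩⟩,.a
  ⟨true,0,⟨0,[(18,0)]⟩,⟨0,[(21,0)]⟩⟩ ⟨false,0,⟨0,[(1,0)]⟩,⟨1,[(5,1),(0,1),(27,0),(0,0)]⟩⟩ ⟨true,0,
  ⟨0,[(1,0),(31,0)]⟩,⟨1,[(5,1),(0,0),(0,0),(11,0)]⟩⟩,.o ⟨false,0,⟨0,[(5,0)]⟩,⟨1,[(21,1),(4,0),(7,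
  0)]⟩⟩]⟩)

theorem ok51 : chk K t51 l33 = true := by decide +kernel

noncomputable def t52 : Tre :=
  (.R ⟨1,false,false,false,[0,0,1],[0,0,0,0,1],[0,0,0,0,0,0,0,1],(⟨0,[(25,0)]⟩,⟨0,[(24,0)]⟩),(⟨0,
  [(18,0)]⟩,⟨0,[(17,0)]⟩),⟨0,[(14,0)]⟩,.k,.k,.k,.k,(.r (-1) ⟨1,[(1,0),(5,0),(2,0),(1,0),(23,0)]⟩ ⟨0,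
  [(2,0),(31,0),(3,0)]⟩),.k,⟨false,1,⟨1,[(6,1),(0,1),(27,0),(0,0)]⟩,⟨2,[(2,2),(6,0),(20,0),(3,0)]⟩⟩,
  ⟨true,0,⟨0,[(6,0),(9,0)]⟩,⟨0,[(0,0),(0,0),(0,0),(31,0)]⟩⟩,⟨false,1,⟨1,[(15,0),(0,0),(19,0)]⟩,⟨0,
  []⟩⟩,⟨true,0,⟨0,[(16,0),(4,0)]⟩,⟨0,[(0,0),(0,0),(32,0)]⟩⟩,⟨true,0,⟨0,[(34,0)]⟩,⟨0,[(33,0)]⟩⟩,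
  ⟨true,0,⟨0,[(16,0),(4,0),(12,0)]⟩,⟨0,[(0,0),(0,0)]⟩⟩,[.a ⟨true,0,⟨0,[(16,0),(21,0)]⟩,⟨0,[(0,0)]⟩⟩
  ⟨true,0,⟨0,[(6,0),(0,0)]⟩,⟨0,[(2,0)]⟩⟩ ⟨false,0,⟨2,[(6,2),(2,0),(6,2),(13,0),(3,0)]⟩,⟨1,[(0,1),
  (21,1),(4,0),(7,0)]⟩⟩,.a ⟨true,0,⟨0,[(16,0)]⟩,⟨0,[(0,0),(37,0)]⟩⟩ ⟨false,1,⟨1,[(6,1),(0,1),(27,0),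
  (0,0)]⟩,⟨2,[(2,2),(6,0),(20,0),(3,0)]⟩⟩ ⟨true,0,⟨0,[(6,0),(9,0)]⟩,⟨0,[(0,0),(0,0),(0,0),(31,0)]⟩⟩,
  .o ⟨false,1,⟨1,[(22,1),(4,0),(7,0)]⟩,⟨0,[(6,0)]⟩⟩,.a ⟨true,0,⟨0,[(22,0)]⟩,⟨0,[(19,0)]⟩⟩ ⟨false,1,
  ⟨1,[(6,1),(0,1),(27,0),(0,0)]⟩,⟨0,[(2,0)]⟩⟩ ⟨true,0,⟨2,[(6,2),(2,0),(6,2),(13,0),(3,0)]⟩,⟨0,[(0,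
  0),(0,0),(0,0),(31,0)]⟩⟩]⟩)

theorem ok52 : chk K t52 l34 = true := by decide +kernel

noncomputable def t53 : Tre :=
  (.Q [0,0,0,0,0,-2,0,0,0,1,-1] (.p false [0,0,1] [1] (⟨0,[(26,0)]⟩,⟨0,[(25,0)]⟩) .k 1 (⟨0,[]⟩,⟨0,
  []⟩) .k .k) (.Q [0,0,-2,0,1,0,1,0,0,-1,1] (.p true [0,0,1] [1] (⟨0,[(27,0)]⟩,⟨0,[(26,0)]⟩) .k 1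
  (⟨0,[]⟩,⟨0,[]⟩) .k .k) (.S ⟨1,0,[0,0,-1,-1,0,0,0,-1],[1,-1,-1],[1,1,-1,-2,0,0,0,-1],(⟨0,[(16,0)]⟩,
  ⟨0,[(28,0),(3,0)]⟩),⟨0,[(1,0)]⟩,.k,(.r (-1) ⟨0,[(6,0),(4,0)]⟩ ⟨4,[(2,5),(2,0),(27,2),(3,3)]⟩),
  ⟨true,0,⟨0,[(36,0)]⟩,⟨0,[(37,0)]⟩⟩,⟨false,1,⟨9,[(2,0),(3,2),(0,0),(7,0),(2,0),(4,1),(14,0),(0,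
  4)]⟩,⟨0,[]⟩⟩,⟨false,0,⟨0,[]⟩,⟨9,[(2,0),(3,2),(0,0),(7,0),(2,0),(4,1),(14,0),(0,4)]⟩⟩,⟨true,0,⟨0,
  [(37,0)]⟩,⟨0,[(36,0)]⟩⟩,[.a ⟨true,0,⟨0,[(14,0),(9,0)]⟩,⟨0,[(10,0),(26,0)]⟩⟩ ⟨true,0,⟨0,[(5,0),(5,
  0)]⟩,⟨0,[(2,0),(34,0)]⟩⟩ ⟨false,1,⟨0,[(6,0),(5,0)]⟩,⟨3,[(2,2),(1,0),(17,0),(10,0),(3,1)]⟩⟩,.o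
  ⟨false,1,⟨1,[(5,0),(0,0),(2,0),(1,0),(14,0),(12,0)]⟩,⟨0,[(4,0),(32,1)]⟩⟩,.o ⟨false,0,⟨0,[(26,0)]⟩,
  ⟨4,[(0,2),(5,0),(16,0),(1,0),(4,0)]⟩⟩,.o ⟨false,0,⟨1,[(25,0),(0,2)]⟩,⟨0,[(0,0)]⟩⟩]⟩) (.Q [0,0,-1,
  0,1,0,2,0,0,-1,2] (.p true [0,0,1] [1,0,-1] (⟨0,[(28,0)]⟩,⟨0,[(27,0)]⟩) .k 2 (⟨0,[(27,0)]⟩,⟨0,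
  [(28,0)]⟩) .k (.r 0 ⟨0,[(9,1),(0,1)]⟩ ⟨2,[(5,2),(0,2),(5,0),(20,0),(3,0)]⟩)) (.K ⟨0,[1,-1,-1],
  (-1),0,(⟨0,[(17,0)]⟩,⟨0,[(29,0),(3,0)]⟩),.k,(.r (-1) ⟨0,[(7,0),(4,0)]⟩ ⟨4,[(3,5),(2,0),(27,2),(3,
  3)]⟩),.k,(.r (-1) ⟨0,[(6,0),(0,0),(5,0)]⟩ ⟨0,[(3,0),(1,0),(17,0),(14,0)]⟩),.k,[⟨0,[(0,0)]⟩,⟨0,[(1,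
  0)]⟩,⟨0,[(5,0),(32,1)]⟩,⟨5,[(7,1),(7,0),(0,0),(8,3),(9,1),(1,4)]⟩]⟩) (.I [0,0,-2,0,1,-2,0,0,-1]
  (.I [1,-1,2,2] (.Q [0,2,0,1,-1,0,0,0,1,0,0,1] (.p true [0,0,0,0,1] [] (⟨0,[(24,0)]⟩,⟨0,[(23,0)]⟩)
  .k 0 (⟨0,[]⟩,⟨0,[]⟩) .k .k) (.I [0,0,2,0,0,2,0,0,1] (.N [0,-2,0,0,1] 0 ⟨0,[(16,0)]⟩ ⟨0,[(2,0)]⟩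
  (.x 0 ⟨0,[(0,0)]⟩ ⟨0,[(3,0)]⟩)) (.Q [0,-2,0,0,1,0,0,0,-1,0,0,-1] (.p false [0,0,0,0,1] [] (⟨0,
  [(26,0)]⟩,⟨0,[(25,0)]⟩) .k 0 (⟨0,[]⟩,⟨0,[]⟩) .k .k) (.R ⟨1,false,false,false,[0,0,1],[1,0,0,0,-1],
  [0,1,0,0,0,0,0,1],(⟨0,[(34,0)]⟩,⟨0,[(33,0)]⟩),(⟨0,[(26,0)]⟩,⟨0,[(27,0)]⟩),⟨0,[(23,0)]⟩,.k,.k,.k,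
  .k,(.r 0 ⟨0,[(10,0),(17,0)]⟩ ⟨1,[(3,0),(8,1),(34,0)]⟩),.k,⟨true,(-1),⟨7,[(1,2),(0,2),(2,2),(0,1),
  (3,7),(15,2),(11,5),(0,0),(3,4)]⟩,⟨0,[(11,0),(33,0)]⟩⟩,⟨false,0,⟨1,[(0,0),(0,0),(3,0),(20,0),(11,
  1),(0,0)]⟩,⟨0,[(9,0),(2,0),(3,0)]⟩⟩,⟨true,0,⟨0,[(47,0)]⟩,⟨0,[]⟩⟩,⟨false,1,⟨5,[(0,5),(4,0),(6,2),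
  (15,0),(1,2),(9,1)]⟩,⟨0,[(9,0),(6,0)]⟩⟩,⟨false,0,⟨0,[(43,0)]⟩,⟨0,[(42,0),(2,0)]⟩⟩,⟨false,1,⟨5,[(0,
  5),(4,0),(6,2),(15,0),(1,2),(9,1),(2,5)]⟩,⟨0,[(10,0),(14,0)]⟩⟩,[.o ⟨false,1,⟨1,[(0,0),(23,0)]⟩,⟨0,
  [(9,0)]⟩⟩,.o ⟨false,1,⟨0,[(0,0)]⟩,⟨19,[(2,5),(0,3),(9,13),(22,2),(2,1),(4,2)]⟩⟩,.o ⟨false,1,⟨1,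
  [(31,1),(4,0),(7,0)]⟩,⟨0,[(15,0)]⟩⟩,.a ⟨true,0,⟨0,[(31,0)]⟩,⟨0,[(28,0)]⟩⟩ ⟨true,0,⟨0,[(10,0),(17,
  0),(14,0)]⟩,⟨0,[(11,0)]⟩⟩ ⟨false,1,⟨0,[(0,0),(27,0)]⟩,⟨0,[(9,0),(21,0)]⟩⟩]⟩) (.Q [0,-3,0,2,1,0,0,
  0,-2,1,0,-2] (.p false [0,0,0,0,1] [1,0,0,0,-1] (⟨0,[(27,0)]⟩,⟨0,[(26,0)]⟩) .k 2 (⟨0,[(26,0)]⟩,⟨0,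
  [(27,0)]⟩) .k (.r 0 ⟨0,[(47,1)]⟩ ⟨0,[(45,0)]⟩)) (.R ⟨1,true,false,false,[0,0,0,0,1],[1,1,0,0,-1],
  [1,1,0,-1],(⟨0,[(28,0)]⟩,⟨0,[(27,0)]⟩),(⟨0,[(27,0),(11,0)]⟩,⟨11,[(2,2),(4,0),(0,1),(0,0),(1,0),(0,
  1),(11,1),(1,2),(1,8),(8,0)]⟩),⟨11,[(2,2),(4,0),(0,1),(0,0),(1,0),(0,1),(11,1),(1,2),(1,8),(8,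
  0)]⟩,.k,(.r (-1) ⟨29,[(4,9),(4,12),(3,18),(0,2),(7,2),(2,2),(4,5),(14,7)]⟩ ⟨0,[(42,0)]⟩),(.r 0 ⟨0,
  [(42,0)]⟩ ⟨29,[(4,9),(4,12),(3,18),(0,2),(7,2),(2,2),(4,5),(14,7)]⟩),(.r 0 ⟨4,[(18,0),(21,2),(2,
  2)]⟩ ⟨5,[(4,1),(4,1),(3,1),(31,0),(0,2)]⟩),(.r 0 ⟨4,[(18,3),(21,1),(2,1)]⟩ ⟨2,[(4,1),(4,1),(3,1),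
  (31,0)]⟩),.k,⟨false,0,⟨4,[(18,3),(21,1),(2,1)]⟩,⟨1,[(4,1),(40,0),(0,0)]⟩⟩,⟨true,0,⟨13,[(0,19),(2,
  11),(2,2),(0,4),(3,13),(0,10),(5,18),(12,2)]⟩,⟨0,[(1,0),(2,0),(5,0),(10,1),(15,0)]⟩⟩,⟨false,1,⟨0,
  [(43,0),(2,0)]⟩,⟨0,[(44,0)]⟩⟩,⟨true,1,⟨0,[(0,0),(42,0)]⟩,⟨0,[(1,1),(19,0),(15,0)]⟩⟩,⟨true,0,⟨0,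
  []⟩,⟨0,[(48,0)]⟩⟩,⟨false,1,⟨0,[(0,0)]⟩,⟨0,[(10,0),(3,0),(6,0)]⟩⟩,[]⟩) (.Q [0,0,0,0,0,1,0,0,0,-1,0,
  1] (.ed false [0,1,0,0,1] .k) (.R ⟨0,false,false,false,[1,0,0,0,-1],[0,0,1],[1,0,1],(⟨0,[(28,0)]⟩,
  ⟨0,[(29,0)]⟩),(⟨0,[(36,0)]⟩,⟨0,[(35,0)]⟩),⟨0,[(0,0)]⟩,.k,.k,(.r (-1) ⟨1,[(21,0),(22,0),(2,0)]⟩ ⟨1,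
  [(5,0),(43,2)]⟩),.k,.k,.k,⟨true,0,⟨0,[(13,0)]⟩,⟨0,[(17,0),(0,0)]⟩⟩,⟨false,1,⟨1,[(4,1),(16,1),(11,
  1),(4,0),(8,0)]⟩,⟨4,[(3,1),(3,1),(0,0),(17,2),(1,1),(11,3)]⟩⟩,⟨false,0,⟨1,[(33,0),(0,0)]⟩,⟨1,[(46,
  0),(0,0)]⟩⟩,⟨true,0,⟨0,[(11,0),(6,0)]⟩,⟨14,[(3,9),(3,6),(5,12),(0,0),(11,4),(1,9),(3,0),(5,0),(1,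
  19)]⟩⟩,⟨false,0,⟨0,[]⟩,⟨0,[]⟩⟩,⟨false,0,⟨0,[]⟩,⟨0,[]⟩⟩,[.e ⟨false,0,⟨0,[]⟩,⟨9,[(10,0),(3,2),(0,0),
  (7,0),(2,0),(4,1),(14,5)]⟩⟩ ⟨false,1,⟨1,[(18,1),(8,1),(10,0),(7,0)]⟩,⟨14,[(3,9),(3,6),(5,12),(0,
  0),(11,4),(1,9),(3,0),(5,0),(1,19)]⟩⟩,.o ⟨false,1,⟨1,[(18,1),(19,0),(8,0)]⟩,⟨0,[(32,0)]⟩⟩,.a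
  ⟨true,0,⟨4,[(3,2),(4,1),(17,1),(1,2),(4,1),(6,5)]⟩,⟨0,[(27,0)]⟩⟩ ⟨true,0,⟨1,[(33,0),(0,0)]⟩,⟨2,
  [(20,0),(20,0),(3,0)]⟩⟩ ⟨false,1,⟨1,[(18,1),(8,1),(10,0),(8,0)]⟩,⟨14,[(3,9),(3,6),(5,12),(0,0),
  (11,4),(1,9),(3,0),(5,0),(1,19)]⟩⟩,.o ⟨false,0,⟨22,[(3,20),(1,9),(2,14),(3,14),(0,14),(8,4),(3,1),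
  (1,20),(9,12),(1,41)]⟩,⟨1,[(27,1),(10,0),(7,0)]⟩⟩]⟩) (.S ⟨1,0,[0,-1],[1,0,0,0,-1],[],(⟨0,[(28,
  0)]⟩,⟨0,[(29,0)]⟩),⟨0,[(0,0)]⟩,.k,(.r (-1) ⟨1,[(21,0),(22,0),(2,0)]⟩ ⟨1,[(5,0),(43,2)]⟩),⟨true,0,
  ⟨0,[(49,0)]⟩,⟨0,[]⟩⟩,⟨false,1,⟨9,[(10,0),(3,2),(0,0),(7,0),(2,0),(4,1),(14,0),(0,4)]⟩,⟨0,[]⟩⟩,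
  ⟨false,0,⟨0,[(45,0)]⟩,⟨0,[(44,0),(2,0)]⟩⟩,⟨true,0,⟨0,[(45,0)]⟩,⟨0,[(44,0)]⟩⟩,[.o ⟨false,1,⟨22,[(3,
  11),(1,8),(2,1),(3,1),(0,1),(8,15),(3,10),(1,11),(9,13),(1,23)]⟩,⟨0,[(11,0)]⟩⟩,.a ⟨true,1,⟨3,[(3,
  1),(1,1),(16,3),(3,1),(1,1),(9,0),(1,3),(6,0)]⟩,⟨0,[(2,0)]⟩⟩ ⟨false,1,⟨1,[(46,0),(0,0)]⟩,⟨0,[(49,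
  0)]⟩⟩ ⟨true,1,⟨0,[(47,0)]⟩,⟨4,[(3,1),(0,1),(2,0),(0,1),(3,4),(0,3),(14,1),(3,0),(7,3),(4,2)]⟩⟩,.e
  ⟨false,1,⟨9,[(10,0),(3,2),(0,0),(7,0),(2,0),(4,1),(14,0),(0,4)]⟩,⟨0,[]⟩⟩ ⟨false,1,⟨0,[(47,0)]⟩,⟨0,
  [(49,0)]⟩⟩,.o ⟨false,0,⟨22,[(3,20),(1,9),(2,14),(3,14),(0,14),(8,4),(3,1),(1,20),(9,12),(1,41)]⟩,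
  ⟨1,[(27,1),(10,0),(7,0)]⟩⟩]⟩))))) (.R ⟨1,false,false,false,[0,0,1],[1,0,0,0,-1],[0,1,0,0,0,0,0,1],
  (⟨0,[(32,0)]⟩,⟨0,[(31,0)]⟩),(⟨0,[(24,0)]⟩,⟨0,[(25,0)]⟩),⟨0,[(21,0)]⟩,.k,.k,.k,.k,(.r 0 ⟨0,[(8,0),
  (17,0)]⟩ ⟨1,[(1,0),(8,1),(34,0)]⟩),.k,⟨true,(-1),⟨4,[(3,2),(4,6),(0,0),(6,1),(11,0),(9,1),(2,8)]⟩,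
  ⟨0,[(9,0),(33,0)]⟩⟩,⟨false,0,⟨2,[(0,1),(2,1),(4,0),(0,0),(6,2),(5,0),(15,0),(2,5)]⟩,⟨0,[(7,0),(2,
  0),(3,0)]⟩⟩,⟨true,0,⟨0,[(45,0)]⟩,⟨0,[]⟩⟩,⟨false,1,⟨5,[(0,5),(2,0),(6,2),(15,0),(1,2),(9,1),(2,
  5)]⟩,⟨0,[(7,0),(6,0)]⟩⟩,⟨false,0,⟨0,[(41,0)]⟩,⟨6,[(0,0),(10,2),(6,2),(3,1),(20,3)]⟩⟩,⟨false,1,⟨5,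
  [(0,5),(2,0),(6,2),(15,0),(1,2),(9,1),(2,11)]⟩,⟨0,[(8,0),(14,0)]⟩⟩,[.o ⟨false,1,⟨1,[(0,0),(21,0),
  (18,0)]⟩,⟨0,[(7,0)]⟩⟩,.o ⟨false,1,⟨0,[(0,0),(40,0)]⟩,⟨4,[(1,0),(5,2),(3,1),(25,1)]⟩⟩,.o ⟨false,1,
  ⟨1,[(29,1),(4,0),(7,0)]⟩,⟨0,[(13,0)]⟩⟩,.a ⟨true,0,⟨0,[(29,0)]⟩,⟨0,[(26,0)]⟩⟩ ⟨true,0,⟨0,[(8,0),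
  (17,0),(14,0)]⟩,⟨0,[(9,0)]⟩⟩ ⟨false,1,⟨0,[(0,0),(25,0),(14,0)]⟩,⟨0,[(7,0),(21,0)]⟩⟩]⟩)) (.Q [0,-2,
  0,0,1,0,0,0,-1,0,0,-1] (.p false [0,0,0,0,1] [] (⟨0,[(24,0)]⟩,⟨0,[(23,0)]⟩) .k 0 (⟨0,[]⟩,⟨0,[]⟩)
  .k .k) (.R ⟨1,false,false,false,[0,0,1],[1,0,0,0,-1],[0,1,0,0,0,0,0,1],(⟨0,[(32,0)]⟩,⟨0,[(31,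
  0)]⟩),(⟨0,[(24,0)]⟩,⟨0,[(25,0)]⟩),⟨0,[(21,0)]⟩,.k,.k,.k,.k,(.r 0 ⟨0,[(8,0),(17,0)]⟩ ⟨4,[(6,1),(2,
  1),(0,4),(26,0),(3,2)]⟩),.k,⟨true,(-1),⟨4,[(3,2),(4,6),(0,0),(6,1),(11,0),(9,1),(2,8)]⟩,⟨0,[(9,0),
  (33,0)]⟩⟩,⟨false,0,⟨5,[(0,5),(2,2),(4,2),(7,3),(11,2),(8,0),(0,2),(2,6)]⟩,⟨0,[(7,0),(2,0),(3,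
  0)]⟩⟩,⟨true,0,⟨0,[(45,0)]⟩,⟨0,[]⟩⟩,⟨false,1,⟨5,[(0,5),(2,0),(6,2),(15,0),(1,2),(9,1)]⟩,⟨0,[(7,0),
  (6,0)]⟩⟩,⟨false,0,⟨0,[(41,0)]⟩,⟨0,[(40,0),(2,0)]⟩⟩,⟨false,1,⟨5,[(0,5),(2,0),(6,2),(15,0),(1,2),(9,
  1),(2,5)]⟩,⟨0,[(8,0),(14,0)]⟩⟩,[.o ⟨false,1,⟨1,[(0,0),(21,0)]⟩,⟨0,[(7,0)]⟩⟩,.o ⟨false,1,⟨0,[(0,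
  0)]⟩,⟨5,[(6,0),(0,4),(1,0),(1,0),(25,2)]⟩⟩,.o ⟨false,1,⟨1,[(29,1),(4,0),(7,0)]⟩,⟨0,[(13,0)]⟩⟩,.a
  ⟨true,0,⟨0,[(29,0)]⟩,⟨0,[(26,0)]⟩⟩ ⟨true,0,⟨0,[(8,0),(17,0),(14,0)]⟩,⟨0,[(9,0)]⟩⟩ ⟨false,1,⟨0,[(0,
  0),(25,0)]⟩,⟨0,[(7,0),(21,0)]⟩⟩]⟩) (.Q [0,0,1,0,0,0,0,0,-1,0,0,-1] (.p false [0,0,0,0,1] [] (⟨0,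
  [(25,0)]⟩,⟨0,[(24,0)]⟩) .k 0 (⟨0,[]⟩,⟨0,[]⟩) .k .k) (.Q [0,0,0,0,0,-1,0,0,0,1,0,-1] (.ed true [0,
  1,0,0,1] .k) (.S ⟨1,0,[0,-1],[1,0,0,0,-1],[],(⟨0,[(26,0)]⟩,⟨0,[(27,0)]⟩),⟨0,[(0,0)]⟩,.k,(.r (-1)
  ⟨1,[(19,0),(22,0),(2,0)]⟩ ⟨4,[(8,2),(2,2),(27,3),(3,1)]⟩),⟨true,0,⟨0,[(47,0)]⟩,⟨0,[]⟩⟩,⟨false,1,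
  ⟨9,[(8,0),(3,2),(0,0),(7,0),(2,0),(4,1),(14,0),(0,4)]⟩,⟨0,[]⟩⟩,⟨false,0,⟨0,[(43,0)]⟩,⟨0,[(42,0),
  (2,0)]⟩⟩,⟨true,0,⟨0,[(43,0)]⟩,⟨0,[(42,0)]⟩⟩,[.o ⟨false,1,⟨1,[(1,1),(42,0),(0,0)]⟩,⟨0,[(9,0)]⟩⟩,.a
  ⟨true,1,⟨1,[(1,1),(38,0),(3,0),(0,1)]⟩,⟨0,[(2,0)]⟩⟩ ⟨false,1,⟨1,[(44,0),(0,0)]⟩,⟨0,[(47,0)]⟩⟩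
  ⟨true,1,⟨0,[(45,0)]⟩,⟨0,[(1,0),(0,0)]⟩⟩,.e ⟨false,1,⟨9,[(8,0),(3,2),(0,0),(7,0),(2,0),(4,1),(14,
  0),(0,4)]⟩,⟨0,[]⟩⟩ ⟨false,1,⟨0,[(45,0)]⟩,⟨0,[(47,0)]⟩⟩,.o ⟨false,0,⟨0,[(1,0)]⟩,⟨1,[(25,1),(10,0),
  (7,0)]⟩⟩]⟩) (.R ⟨0,false,false,false,[1,0,0,0,-1],[0,1],[1,0,1,1],(⟨0,[(26,0)]⟩,⟨0,[(27,0)]⟩),(⟨0,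
  [(38,0)]⟩,⟨0,[(37,0)]⟩),⟨0,[(0,0)]⟩,.k,.k,(.r (-1) ⟨1,[(19,0),(22,0),(2,0)]⟩ ⟨4,[(8,2),(2,2),(27,
  3),(3,1)]⟩),(.r (-1) ⟨1,[(19,0),(22,0),(2,0)]⟩ ⟨4,[(8,2),(2,2),(27,3),(3,1)]⟩),.k,.k,⟨true,0,⟨0,
  []⟩,⟨1,[(31,0),(0,0)]⟩⟩,⟨false,1,⟨0,[(9,0),(9,0),(23,0)]⟩,⟨8,[(1,3),(4,0),(17,4),(6,0),(8,3),(5,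
  1)]⟩⟩,⟨false,0,⟨4,[(8,1),(2,1),(27,0),(3,2)]⟩,⟨1,[(19,0),(22,0),(2,0)]⟩⟩,⟨true,0,⟨0,[(9,0),(33,
  0)]⟩,⟨2,[(1,1),(1,0),(16,0),(3,0),(15,0)]⟩⟩,⟨false,0,⟨0,[]⟩,⟨0,[]⟩⟩,⟨false,0,⟨0,[]⟩,⟨0,[]⟩⟩,[.e
  ⟨false,0,⟨0,[(43,0)]⟩,⟨9,[(13,3),(5,1),(0,3),(3,3),(19,2),(0,0)]⟩⟩ ⟨false,1,⟨1,[(25,1),(10,0),(6,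
  1),(0,0)]⟩,⟨2,[(1,1),(1,0),(16,0),(3,0),(15,0)]⟩⟩,.o ⟨false,1,⟨1,[(36,0),(6,1),(1,0)]⟩,⟨0,[(42,
  0)]⟩⟩,.a ⟨true,0,⟨1,[(1,1),(38,0),(3,0)]⟩,⟨0,[(25,0)]⟩⟩ ⟨true,0,⟨4,[(8,1),(2,1),(27,0),(3,2)]⟩,⟨0,
  [(41,0)]⟩⟩ ⟨false,1,⟨1,[(25,1),(10,0),(6,1),(1,0)]⟩,⟨2,[(1,1),(1,0),(16,0),(3,0),(15,0)]⟩⟩,.o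
  ⟨false,0,⟨0,[(1,0)]⟩,⟨1,[(25,1),(10,0),(7,0)]⟩⟩]⟩)) (.Q [0,0,1,0,0,0,0,0,-1,1,0,-1] (.p false [0,
  0,0,0,1] [1] (⟨0,[(26,0)]⟩,⟨0,[(25,0)]⟩) .k 1 (⟨0,[]⟩,⟨0,[]⟩) .k .k) (.Q [0,0,-2,0,1,0,0,0,-1,0,0,
  -1] (.p false [0,0,0,0,1] [] (⟨0,[(27,0)]⟩,⟨0,[(26,0)]⟩) .k 0 (⟨0,[]⟩,⟨0,[]⟩) .k .k) (.Q [0,0,0,0,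
  0,-1,0,0,0,1,0,-1] (.ed true [0,1,0,0,1] .k) (.Q [0,-1,0,0,1,0,0,0,-1,0,0,-1] (.p false [0,0,0,0,
  1] [] (⟨0,[(29,0)]⟩,⟨0,[(28,0)]⟩) .k 0 (⟨0,[]⟩,⟨0,[]⟩) .k .k) (.S ⟨1,0,[],[1,0,0,0,-1],[0,-1],(⟨0,
  [(29,0)]⟩,⟨0,[(30,0)]⟩),⟨0,[(1,0)]⟩,.k,(.r (-1) ⟨1,[(22,0),(22,0),(2,0)]⟩ ⟨4,[(11,2),(2,2),(27,3),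
  (3,1)]⟩),⟨false,1,⟨9,[(11,0),(3,2),(0,0),(7,0),(2,0),(4,1),(14,0),(0,4)]⟩,⟨0,[]⟩⟩,⟨true,0,⟨0,[(50,
  0)]⟩,⟨0,[]⟩⟩,⟨true,0,⟨0,[(46,0)]⟩,⟨0,[(45,0)]⟩⟩,⟨false,0,⟨0,[(46,0)]⟩,⟨0,[(45,0),(2,0)]⟩⟩,[.e
  ⟨false,1,⟨1,[(47,0),(0,0)]⟩,⟨0,[(50,0)]⟩⟩ ⟨false,1,⟨9,[(11,0),(3,2),(0,0),(7,0),(2,0),(4,1),(14,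
  5)]⟩,⟨0,[]⟩⟩,.o ⟨false,1,⟨0,[(0,0)]⟩,⟨0,[(12,0)]⟩⟩,.e ⟨false,1,⟨0,[(48,0)]⟩,⟨0,[(50,0)]⟩⟩ ⟨false,
  1,⟨9,[(11,0),(3,2),(0,0),(7,0),(2,0),(4,1),(14,0),(0,4)]⟩,⟨0,[]⟩⟩,.a ⟨true,0,⟨0,[(3,0)]⟩,⟨0,[(4,
  0)]⟩⟩ ⟨true,1,⟨1,[(47,0),(0,0)]⟩,⟨7,[(3,0),(1,0),(2,4),(4,9),(0,9),(6,3),(21,1),(2,13)]⟩⟩ ⟨false,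
  1,⟨1,[(47,0),(0,0)]⟩,⟨1,[(34,0),(0,0)]⟩⟩]⟩) (.Q [0,-2,0,0,1,0,0,0,-1,1,0,-1] (.p false [0,0,0,0,
  1] [1] (⟨0,[(30,0)]⟩,⟨0,[(29,0)]⟩) .k 1 (⟨0,[]⟩,⟨0,[]⟩) .k .k) (.R ⟨1,false,false,false,[0,0,1],
  [1,0,0,0,-1],[0,0,0,0,0,0,0,1],(⟨0,[(38,0)]⟩,⟨0,[(37,0)]⟩),(⟨0,[(30,0)]⟩,⟨0,[(31,0)]⟩),⟨0,[(27,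
  0)]⟩,.k,.k,.k,.k,(.r 0 ⟨0,[(14,0),(17,0)]⟩ ⟨4,[(12,1),(2,1),(0,4),(26,0),(3,2)]⟩),.k,⟨false,0,⟨0,
  [(14,0),(17,0),(14,0)]⟩,⟨0,[(16,0)]⟩⟩,⟨true,0,⟨1,[(3,0),(0,0),(4,0)]⟩,⟨1,[(1,1),(33,1),(4,0),(8,
  0)]⟩⟩,⟨false,1,⟨9,[(12,0),(3,2),(0,0),(7,0),(2,0),(4,1),(14,0),(0,4)]⟩,⟨0,[]⟩⟩,⟨true,1,⟨0,[(0,0),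
  (33,0)]⟩,⟨0,[(1,0),(12,0),(32,0)]⟩⟩,⟨true,0,⟨0,[(47,0)]⟩,⟨0,[(46,0)]⟩⟩,⟨true,1,⟨0,[(0,0),(33,0),
  (12,0)]⟩,⟨0,[(1,0),(12,0)]⟩⟩,[.a ⟨true,1,⟨9,[(0,4),(3,3),(11,1),(8,0),(2,0),(4,1),(14,1)]⟩,⟨0,[(1,
  0)]⟩⟩ ⟨true,0,⟨0,[(19,0),(0,0)]⟩,⟨0,[(15,0)]⟩⟩ ⟨false,1,⟨1,[(0,0),(2,0),(21,0)]⟩,⟨1,[(1,1),(33,1),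
  (4,0),(7,0)]⟩⟩,.a ⟨true,1,⟨0,[(0,0)]⟩,⟨0,[(6,0)]⟩⟩ ⟨false,1,⟨3,[(3,0),(1,0),(6,2),(1,0),(8,1),(8,
  0),(15,0)]⟩,⟨1,[(3,0),(2,0),(8,1)]⟩⟩ ⟨true,1,⟨5,[(0,4),(2,0),(5,1),(15,0),(14,0),(8,0)]⟩,⟨0,[(1,
  0),(12,0),(0,0),(31,0)]⟩⟩,.o ⟨false,1,⟨1,[(35,1),(4,0),(7,0)]⟩,⟨0,[(19,0)]⟩⟩,.a ⟨true,0,⟨0,[(35,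
  0)]⟩,⟨0,[(32,0)]⟩⟩ ⟨false,1,⟨3,[(3,0),(1,0),(6,2),(1,0),(8,1),(8,0),(15,0)]⟩,⟨0,[(15,0)]⟩⟩ ⟨true,
  1,⟨1,[(0,0),(2,0),(21,0)]⟩,⟨0,[(1,0),(12,0),(0,0),(31,0)]⟩⟩]⟩) (.S ⟨1,0,[0,-1],[1,0,0,0,-1],[1,0,
  0,-1],(⟨0,[(30,0)]⟩,⟨0,[(31,0)]⟩),⟨0,[(2,0)]⟩,.k,(.r (-1) ⟨1,[(23,0),(22,0),(2,0)]⟩ ⟨4,[(12,2),(2,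
  2),(27,3),(3,1)]⟩),⟨true,0,⟨0,[(46,0)]⟩,⟨0,[(47,0)]⟩⟩,⟨false,1,⟨9,[(12,0),(3,2),(0,0),(7,0),(2,0),
  (4,1),(14,0),(0,4)]⟩,⟨0,[]⟩⟩,⟨false,0,⟨0,[]⟩,⟨9,[(12,0),(3,2),(0,0),(7,0),(2,0),(4,1),(14,0),(0,
  4)]⟩⟩,⟨true,0,⟨0,[(47,0)]⟩,⟨0,[(46,0)]⟩⟩,[.e ⟨false,1,⟨9,[(17,3),(5,1),(0,3),(3,3),(19,2),(0,0)]⟩,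
  ⟨0,[(47,0)]⟩⟩ ⟨false,1,⟨1,[(48,0),(0,0)]⟩,⟨0,[(51,0)]⟩⟩,.o ⟨false,2,⟨0,[(28,0),(20,0)]⟩,⟨0,[(0,
  0)]⟩⟩,.o ⟨false,1,⟨0,[(28,0)]⟩,⟨1,[(1,1),(38,0),(8,0)]⟩⟩,.a ⟨true,0,⟨0,[(4,0)]⟩,⟨0,[(5,0)]⟩⟩
  ⟨false,1,⟨1,[(23,0),(22,0),(2,0)]⟩,⟨4,[(12,1),(2,1),(27,0),(3,2)]⟩⟩ ⟨true,1,⟨1,[(48,0),(0,0)]⟩,⟨0,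
  [(0,0),(3,0)]⟩⟩]⟩))) (.Q [0,0,0,0,0,0,0,0,-1,1,0,-1] (.p false [0,0,0,0,1] [1] (⟨0,[(29,0)]⟩,⟨0,
  [(28,0)]⟩) .k 1 (⟨0,[]⟩,⟨0,[]⟩) .k .k) (.R ⟨0,false,false,true,[-1,1,0,0,1],[0,0,0,0,1],[0,2,1],
  (⟨0,[(1,0)]⟩,⟨0,[(29,0),(10,0)]⟩),(⟨0,[(30,0)]⟩,⟨0,[(29,0)]⟩),⟨0,[(29,0)]⟩,(.r 0 ⟨4,[(11,2),(2,2),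
  (27,3),(3,1)]⟩ ⟨1,[(22,0),(22,0),(2,0)]⟩),.k,.k,.k,.k,.k,⟨true,0,⟨1,[(34,0),(0,0)]⟩,⟨0,[]⟩⟩,
  ⟨false,0,⟨4,[(15,1),(8,0),(7,1),(10,1)]⟩,⟨1,[(39,0),(7,0)]⟩⟩,⟨true,0,⟨0,[(45,0)]⟩,⟨0,[(46,0)]⟩⟩,
  ⟨false,0,⟨5,[(3,1),(12,1),(6,3),(19,0),(3,0)]⟩,⟨1,[(39,0),(6,1),(1,0)]⟩⟩,⟨false,0,⟨0,[]⟩,⟨0,[]⟩⟩,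
  ⟨false,0,⟨0,[]⟩,⟨0,[]⟩⟩,[.a ⟨true,(-1),⟨0,[(5,0)]⟩,⟨0,[(0,0),(47,0)]⟩⟩ ⟨true,(-1),⟨4,[(0,0),(4,0),
  (2,2),(4,5),(0,5),(6,1),(21,0),(2,7)]⟩,⟨0,[(48,0)]⟩⟩ ⟨false,(-1),⟨0,[(0,0),(4,0)]⟩,⟨1,[(39,0),(7,
  0),(0,1)]⟩⟩,.o ⟨false,0,⟨0,[(12,0)]⟩,⟨1,[(0,1),(38,0),(8,0)]⟩⟩,.o ⟨false,1,⟨0,[(4,0),(34,0)]⟩,⟨0,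
  [(3,0)]⟩⟩,.o ⟨false,1,⟨0,[(28,0),(10,0)]⟩,⟨0,[(0,0)]⟩⟩]⟩) (.R ⟨0,false,false,true,[1,0,0,0,-1],[2,
  0,-1,0,-1],[],(⟨0,[(29,0)]⟩,⟨0,[(30,0)]⟩),(⟨0,[(29,0),(6,0)]⟩,⟨0,[(1,0),(24,0)]⟩),⟨0,[(1,0)]⟩,.k,
  .k,(.r (-1) ⟨1,[(22,0),(22,0),(2,0)]⟩ ⟨4,[(11,2),(2,2),(27,3),(3,1)]⟩),.k,.k,.k,⟨true,0,⟨0,[(18,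
  0),(0,0)]⟩,⟨0,[(14,0)]⟩⟩,⟨false,0,⟨0,[(31,0)]⟩,⟨1,[(34,1),(4,0),(7,0)]⟩⟩,⟨true,0,⟨0,[(50,0)]⟩,⟨0,
  []⟩⟩,⟨false,0,⟨5,[(8,0),(6,2),(15,0),(1,2),(9,1)]⟩,⟨1,[(19,1),(19,0),(8,0)]⟩⟩,⟨false,0,⟨0,[]⟩,⟨0,
  []⟩⟩,⟨false,0,⟨0,[]⟩,⟨0,[]⟩⟩,[.e ⟨false,1,⟨9,[(11,0),(3,2),(0,0),(7,0),(2,0),(4,1),(14,5)]⟩,⟨0,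
  []⟩⟩ ⟨false,0,⟨3,[(8,1),(5,1),(0,1),(5,2),(0,0),(20,0),(2,3)]⟩,⟨1,[(32,1),(6,0),(8,0)]⟩⟩,.o
  ⟨false,1,⟨1,[(2,0),(0,0),(4,0),(6,1)]⟩,⟨0,[(0,0),(12,0),(32,0)]⟩⟩,.o ⟨false,1,⟨0,[(27,0)]⟩,⟨0,[(0,
  0)]⟩⟩,.a ⟨true,0,⟨0,[(3,0)]⟩,⟨0,[(4,0)]⟩⟩ ⟨false,1,⟨1,[(47,0),(0,0)]⟩,⟨1,[(34,0),(0,0)]⟩⟩ ⟨true,0,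
  ⟨3,[(8,1),(5,1),(0,1),(5,2),(0,0),(20,0),(2,3)]⟩,⟨3,[(3,0),(1,0),(5,0),(1,2),(20,0),(4,0),(6,
  1)]⟩⟩]⟩))) (.S ⟨1,0,[0,1,-1,-1],[0,-1,0,0,1],[1,2,-1,-2],(⟨1,[(0,0),(4,0),(22,0)]⟩,⟨0,[(27,0),(11,
  0)]⟩),⟨0,[(0,0),(4,0)]⟩,(.r 0 ⟨0,[(42,0)]⟩ ⟨5,[(9,4),(3,4),(26,1),(3,0),(0,0)]⟩),(.r 0 ⟨0,[(4,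
  0)]⟩ ⟨4,[(9,5),(2,0),(0,4),(26,2),(3,3)]⟩),⟨true,0,⟨0,[(43,0)]⟩,⟨0,[(44,0)]⟩⟩,⟨false,1,⟨9,[(9,0),
  (3,2),(0,0),(7,0),(2,0),(4,1),(14,0),(0,4)]⟩,⟨0,[]⟩⟩,⟨false,0,⟨0,[]⟩,⟨9,[(9,0),(3,2),(0,0),(7,0),
  (2,0),(4,1),(14,0),(0,4)]⟩⟩,⟨true,0,⟨0,[(44,0)]⟩,⟨0,[(43,0)]⟩⟩,[.e ⟨false,0,⟨4,[(18,3),(21,1),(2,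
  1)]⟩,⟨1,[(9,0),(3,0),(30,2),(1,0)]⟩⟩ ⟨false,0,⟨0,[(19,0)]⟩,⟨5,[(9,4),(3,4),(26,1),(3,0),(0,0)]⟩⟩,
  .o ⟨false,0,⟨1,[(0,1),(18,0),(0,0),(16,0)]⟩,⟨0,[(25,0),(18,0)]⟩⟩,.o ⟨false,0,⟨1,[(0,0),(25,0),(10,
  0)]⟩,⟨1,[(1,1),(17,0),(0,0),(16,0),(6,1)]⟩⟩,.a ⟨true,(-1),⟨0,[(0,0)]⟩,⟨1,[(1,1),(17,0),(0,0),(23,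
  1),(0,0)]⟩⟩ ⟨false,0,⟨0,[(18,0)]⟩,⟨0,[(9,0),(3,0),(30,0)]⟩⟩ ⟨true,0,⟨0,[(19,0)]⟩,⟨4,[(9,3),(2,3),
  (27,1),(3,0)]⟩⟩]⟩)) (.Q [0,0,-1,0,1,0,0,0,-1,0,0,-1] (.p false [0,0,0,0,1] [] (⟨0,[(27,0)]⟩,⟨0,
  [(26,0)]⟩) .k 0 (⟨0,[]⟩,⟨0,[]⟩) .k .k) (.S ⟨1,0,[0,1,-1,-1],[0,-1,0,0,1],[1,2,-1,-2],(⟨2,[(1,0),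
  (3,0),(1,0),(20,1),(3,0),(3,0)]⟩,⟨0,[(27,0),(11,0)]⟩),⟨2,[(1,1),(3,1),(1,1),(20,0),(3,1),(3,1)]⟩,
  (.r 0 ⟨0,[(42,0)]⟩ ⟨5,[(9,4),(3,4),(26,1),(3,0),(0,0)]⟩),(.r 0 ⟨0,[(4,0)]⟩ ⟨4,[(9,5),(2,0),(0,4),
  (26,2),(3,3)]⟩),⟨true,0,⟨0,[(43,0)]⟩,⟨0,[(44,0)]⟩⟩,⟨false,1,⟨9,[(9,0),(3,2),(0,0),(7,0),(2,0),(4,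
  1),(14,0),(0,4)]⟩,⟨0,[]⟩⟩,⟨false,0,⟨0,[]⟩,⟨9,[(9,0),(3,2),(0,0),(7,0),(2,0),(4,1),(14,0),(0,4)]⟩⟩,
  ⟨true,0,⟨0,[(44,0)]⟩,⟨0,[(43,0)]⟩⟩,[.e ⟨false,0,⟨4,[(18,3),(21,1),(2,1)]⟩,⟨1,[(9,0),(3,0),(30,2),
  (1,0)]⟩⟩ ⟨false,0,⟨0,[(19,0)]⟩,⟨5,[(9,4),(3,4),(26,1),(3,0),(0,0)]⟩⟩,.o ⟨false,0,⟨6,[(1,5),(5,1),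
  (3,1),(0,1),(1,0),(6,3),(15,1)]⟩,⟨0,[(25,0),(18,0)]⟩⟩,.o ⟨false,0,⟨6,[(1,4),(5,0),(1,2),(1,0),(0,
  3),(1,1),(31,0)]⟩,⟨0,[(0,0)]⟩⟩,.a ⟨true,(-1),⟨0,[(1,0),(5,0),(24,0)]⟩,⟨1,[(0,1),(40,0),(3,0)]⟩⟩
  ⟨false,0,⟨0,[(18,0)]⟩,⟨0,[(9,0),(3,0),(30,0)]⟩⟩ ⟨true,0,⟨0,[(19,0)]⟩,⟨4,[(9,3),(2,3),(27,1),(3,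
  0)]⟩⟩]⟩) (.S ⟨1,0,[0,1],[0,0,0,0,1],[0,2],(⟨0,[(28,0)]⟩,⟨0,[(27,0)]⟩),⟨23,[(0,5),(4,5),(1,0),(0,
  1),(0,0),(1,0),(0,1),(11,1),(3,17),(7,5),(0,0)]⟩,.k,(.r 0 ⟨0,[(42,0)]⟩ ⟨5,[(9,4),(3,4),(26,1),(3,
  0),(0,0)]⟩),⟨true,0,⟨0,[(48,0)]⟩,⟨0,[]⟩⟩,⟨false,1,⟨9,[(9,0),(3,2),(0,0),(7,0),(2,0),(4,1),(14,0),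
  (0,4)]⟩,⟨0,[]⟩⟩,⟨false,0,⟨0,[(44,0)]⟩,⟨0,[(43,0),(2,0)]⟩⟩,⟨true,0,⟨0,[(44,0)]⟩,⟨0,[(43,0)]⟩⟩,[.e
  ⟨false,0,⟨0,[(40,0)]⟩,⟨0,[(46,0)]⟩⟩ ⟨false,0,⟨2,[(19,0),(20,0),(3,0)]⟩,⟨9,[(9,0),(3,2),(0,0),(7,
  0),(2,0),(4,1),(14,0),(0,4)]⟩⟩,.o ⟨false,0,⟨2,[(0,0),(0,0),(24,0),(10,0)]⟩,⟨0,[(25,0)]⟩⟩,.o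
  ⟨false,0,⟨2,[(0,0),(0,0),(24,0),(10,0)]⟩,⟨0,[(25,0)]⟩⟩,.a ⟨true,(-1),⟨0,[(0,0)]⟩,⟨1,[(25,1),(15,
  0),(3,0)]⟩⟩ ⟨false,0,⟨2,[(19,0),(20,0),(3,0)]⟩,⟨5,[(9,1),(1,0),(0,0),(0,1),(7,0),(11,0),(12,3)]⟩⟩
  ⟨true,0,⟨2,[(19,0),(20,0),(3,0)]⟩,⟨1,[(32,0),(0,0)]⟩⟩]⟩)))))) (.Q [0,-1,1,0,0,0,1,1,1,-1,1,1] (.p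
  true [0,0,1] [1,0,0,0,-1] (⟨0,[(30,0)]⟩,⟨0,[(29,0)]⟩) .k 2 (⟨0,[(22,0)]⟩,⟨0,[(23,0)]⟩) .k (.r 0
  ⟨1,[(4,0),(1,0),(17,0),(10,0)]⟩ ⟨0,[(8,0)]⟩)) (.Q [0,0,-1,0,0,0,0,0,1,-1,0,1] (.p true [0,0,0,0,
  1] [1] (⟨0,[(24,0)]⟩,⟨0,[(23,0)]⟩) .k 1 (⟨0,[]⟩,⟨0,[]⟩) .k .k) (.S ⟨1,0,[],[1,0,0,0,-1],[1,-1,0,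
  -1],(⟨0,[(24,0)]⟩,⟨0,[(25,0)]⟩),⟨0,[(2,0),(13,0),(1,0),(3,0),(10,2),(7,1)]⟩,.k,(.r (-1) ⟨1,[(17,
  0),(22,0),(2,0)]⟩ ⟨4,[(6,2),(2,2),(27,3),(3,1)]⟩),⟨false,1,⟨0,[(40,0),(2,0)]⟩,⟨0,[(41,0)]⟩⟩,⟨true,
  0,⟨0,[(45,0)]⟩,⟨0,[]⟩⟩,⟨true,0,⟨0,[]⟩,⟨0,[(45,0)]⟩⟩,⟨false,0,⟨0,[(41,0)]⟩,⟨0,[(40,0),(2,0)]⟩⟩,[.o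
  ⟨false,1,⟨0,[(22,0)]⟩,⟨4,[(0,2),(0,0),(5,0),(1,0),(20,0)]⟩⟩,.a ⟨true,1,⟨1,[(22,1),(15,0),(4,0)]⟩,
  ⟨2,[(0,2),(3,0),(3,1),(0,0),(18,0),(9,1),(2,1)]⟩⟩ ⟨true,1,⟨1,[(18,1),(15,0),(8,0)]⟩,⟨4,[(3,2),(4,
  6),(0,5),(6,1),(11,0),(9,1),(2,13)]⟩⟩ ⟨false,1,⟨1,[(42,0),(0,0)]⟩,⟨0,[(45,0)]⟩⟩,.o ⟨false,1,⟨0,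
  [(22,0)]⟩,⟨4,[(0,2),(0,0),(5,0),(1,0),(20,0)]⟩⟩,.o ⟨false,1,⟨1,[(22,1),(6,0),(0,0)]⟩,⟨0,[(0,
  0)]⟩⟩]⟩) (.K ⟨0,[1,0,0,0,-1],0,1,(⟨0,[(24,0)]⟩,⟨0,[(25,0)]⟩),.k,(.r (-1) ⟨1,[(17,0),(22,0),(2,
  0)]⟩ ⟨4,[(6,2),(2,2),(27,3),(3,1)]⟩),(.r (-1) ⟨5,[(6,4),(3,4),(26,1),(3,0),(0,0)]⟩ ⟨0,[(39,0)]⟩),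
  .k,.k,[⟨0,[(1,0),(7,0),(6,0),(24,0)]⟩,⟨0,[(0,0)]⟩,⟨0,[(1,0),(1,0),(4,0),(0,1),(6,1),(24,2)]⟩,⟨4,
  [(0,3),(9,1),(8,0),(2,0),(4,1),(14,1)]⟩]⟩)) (.Q [0,0,1,0,0,0,0,0,-1,1,0,-1] (.p false [0,0,0,0,1]
  [1] (⟨0,[(24,0)]⟩,⟨0,[(23,0)]⟩) .k 1 (⟨0,[]⟩,⟨0,[]⟩) .k .k) (.Q [0,2,0,0,-1,0,0,0,1,-1,0,1] (.p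
  true [0,0,0,0,1] [1] (⟨0,[(25,0)]⟩,⟨0,[(24,0)]⟩) .k 1 (⟨0,[]⟩,⟨0,[]⟩) .k .k) (.S ⟨1,0,[0,-1],[1,0,
  0,0,-1],[1,0,0,-1],(⟨0,[(25,0)]⟩,⟨0,[(26,0)]⟩),⟨4,[(1,0),(1,0),(13,1),(7,3),(8,6),(7,1),(1,0),(0,
  0)]⟩,.k,(.r (-1) ⟨1,[(18,0),(22,0),(2,0)]⟩ ⟨4,[(7,2),(2,2),(27,3),(3,1)]⟩),⟨true,0,⟨0,[(41,0)]⟩,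
  ⟨0,[(42,0)]⟩⟩,⟨false,1,⟨9,[(7,0),(3,2),(0,0),(7,0),(2,0),(4,1),(14,0),(0,4)]⟩,⟨0,[]⟩⟩,⟨false,0,⟨0,
  []⟩,⟨9,[(7,0),(3,2),(0,0),(7,0),(2,0),(4,1),(14,0),(0,4)]⟩⟩,⟨true,0,⟨0,[(42,0)]⟩,⟨0,[(41,0)]⟩⟩,
  [.e ⟨false,1,⟨9,[(12,3),(5,1),(0,3),(3,3),(19,2),(0,0)]⟩,⟨0,[(42,0)]⟩⟩ ⟨false,1,⟨1,[(43,0),(0,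
  0)]⟩,⟨0,[(46,0)]⟩⟩,.o ⟨false,2,⟨0,[(23,0),(20,0)]⟩,⟨0,[(0,0)]⟩⟩,.o ⟨false,1,⟨0,[(23,0)]⟩,⟨0,[(0,
  0),(43,0)]⟩⟩,.a ⟨true,0,⟨0,[(1,0)]⟩,⟨3,[(0,1),(17,1),(5,1),(14,0),(2,1),(1,0)]⟩⟩ ⟨false,1,⟨1,[(18,
  0),(22,0),(2,0)]⟩,⟨4,[(7,1),(2,1),(27,0),(3,2)]⟩⟩ ⟨true,1,⟨1,[(43,0),(0,0)]⟩,⟨0,[(0,0),(0,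
  0)]⟩⟩]⟩) (.R ⟨1,false,false,false,[0,0,1],[1,0,0,0,-1],[0,0,0,0,0,0,0,1],(⟨0,[(33,0)]⟩,⟨0,[(32,
  0)]⟩),(⟨0,[(25,0)]⟩,⟨0,[(26,0)]⟩),⟨0,[(22,0)]⟩,.k,.k,.k,.k,(.r 0 ⟨0,[(9,0),(17,0)]⟩ ⟨4,[(7,1),(2,
  1),(0,4),(26,0),(3,2)]⟩),.k,⟨false,0,⟨0,[(9,0),(17,0),(14,0)]⟩,⟨0,[(11,0)]⟩⟩,⟨true,0,⟨1,[(0,0),(1,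
  0),(1,0),(4,0),(32,0)]⟩,⟨1,[(3,1),(13,0),(0,0),(7,1),(3,1),(3,3),(0,0),(6,1)]⟩⟩,⟨false,1,⟨9,[(7,
  0),(3,2),(0,0),(7,0),(2,0),(4,1),(14,0),(0,4)]⟩,⟨0,[]⟩⟩,⟨true,1,⟨1,[(0,0),(1,0),(8,0),(19,0)]⟩,⟨0,
  [(3,0),(5,0),(7,0),(8,0),(7,1),(7,1)]⟩⟩,⟨true,0,⟨0,[(42,0)]⟩,⟨0,[(41,0)]⟩⟩,⟨true,1,⟨10,[(0,3),(1,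
  6),(1,0),(2,2),(3,6),(8,0),(14,0),(6,7)]⟩,⟨0,[(3,0),(5,0),(7,0),(8,0),(7,1),(7,0)]⟩⟩,[.a ⟨true,1,
  ⟨9,[(0,4),(0,3),(9,1),(8,0),(2,0),(4,1),(14,1)]⟩,⟨0,[(3,0),(13,0),(8,0),(7,1),(7,0)]⟩⟩ ⟨true,0,⟨0,
  [(14,0),(0,0)]⟩,⟨0,[(10,0)]⟩⟩ ⟨false,1,⟨2,[(0,1),(1,0),(11,2),(0,0),(27,0)]⟩,⟨3,[(3,1),(4,1),(8,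
  2),(0,0),(7,1),(3,3),(3,3),(0,0),(6,3)]⟩⟩,.a ⟨true,1,⟨0,[(0,0)]⟩,⟨6,[(3,0),(0,1),(3,5),(0,3),(0,
  3),(6,3),(8,0),(7,1),(4,3),(2,7)]⟩⟩ ⟨false,1,⟨1,[(7,0),(6,0),(0,0),(2,0),(24,0)]⟩,⟨2,[(10,2),(6,
  0),(20,0),(3,0)]⟩⟩ ⟨true,1,⟨0,[(0,0),(13,0)]⟩,⟨0,[(3,0),(5,0),(0,0),(6,0),(8,0),(7,1),(7,1)]⟩⟩,.o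
  ⟨false,1,⟨1,[(30,1),(4,0),(7,0)]⟩,⟨0,[(14,0)]⟩⟩,.a ⟨true,0,⟨0,[(30,0)]⟩,⟨0,[(27,0)]⟩⟩ ⟨false,1,⟨1,
  [(7,0),(6,0),(0,0),(2,0),(24,0)]⟩,⟨0,[(10,0)]⟩⟩ ⟨true,1,⟨2,[(0,1),(1,0),(11,2),(0,0),(27,0)]⟩,⟨0,
  [(3,0),(5,0),(0,0),(6,0),(8,0),(7,1),(7,1)]⟩⟩]⟩)) (.S ⟨1,0,[],[1,0,0,0,-1],[1,-1,0,-1],(⟨0,[(24,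
  0)]⟩,⟨0,[(25,0)]⟩),⟨4,[(1,0),(0,0),(5,0),(7,0),(1,0),(5,3),(8,6),(7,2),(1,0),(0,0)]⟩,.k,(.r (-1)
  ⟨1,[(17,0),(22,0),(2,0)]⟩ ⟨4,[(6,2),(2,2),(27,3),(3,1)]⟩),⟨false,1,⟨0,[(40,0),(2,0)]⟩,⟨0,[(41,
  0)]⟩⟩,⟨true,0,⟨0,[(45,0)]⟩,⟨0,[]⟩⟩,⟨true,0,⟨0,[]⟩,⟨0,[(45,0)]⟩⟩,⟨false,0,⟨0,[(41,0)]⟩,⟨0,[(40,0),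
  (2,0)]⟩⟩,[.o ⟨false,1,⟨0,[(22,0)]⟩,⟨13,[(0,11),(3,0),(1,2),(1,0),(0,3),(1,1),(31,0)]⟩⟩,.a ⟨true,1,
  ⟨1,[(22,1),(15,0),(4,0)]⟩,⟨10,[(0,11),(0,0),(2,4),(3,5),(0,4),(27,1),(0,5),(2,5)]⟩⟩ ⟨true,1,⟨1,
  [(18,1),(15,0),(8,0)]⟩,⟨10,[(0,5),(0,5),(2,7),(3,13),(0,7),(27,0),(0,2),(2,24)]⟩⟩ ⟨false,1,⟨1,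
  [(42,0),(0,0)]⟩,⟨0,[(45,0)]⟩⟩,.o ⟨false,1,⟨0,[(22,0)]⟩,⟨13,[(0,11),(3,0),(1,2),(1,0),(0,3),(1,1),
  (31,0)]⟩⟩,.o ⟨false,1,⟨1,[(22,1),(6,0),(0,0)]⟩,⟨0,[(0,0)]⟩⟩]⟩)))))) (.Q [0,0,-2,0,1,0,1,0,0,-1,1]
  (.p true [0,0,1] [1] (⟨0,[(27,0)]⟩,⟨0,[(26,0)]⟩) .k 1 (⟨0,[]⟩,⟨0,[]⟩) .k .k) (.R ⟨0,false,false,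
  true,[1,-1,-1],[0,-1,1],[1,1],(⟨0,[(16,0)]⟩,⟨9,[(1,4),(4,1),(8,0),(7,1),(4,4),(5,1)]⟩),(⟨0,[(17,
  0)]⟩,⟨1,[(1,0),(25,2)]⟩),⟨0,[(1,0)]⟩,.k,.k,(.r (-1) ⟨0,[(6,0),(4,0)]⟩ ⟨4,[(2,5),(2,0),(27,2),(3,
  3)]⟩),.k,.k,.k,⟨true,0,⟨0,[(5,0),(31,0)]⟩,⟨0,[(8,0),(0,0)]⟩⟩,⟨false,1,⟨0,[(0,0),(24,0)]⟩,⟨0,[(15,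
  0)]⟩⟩,⟨false,0,⟨3,[(2,2),(1,0),(17,0),(10,0),(3,1)]⟩,⟨0,[(5,0),(7,0)]⟩⟩,⟨true,0,⟨0,[(4,0),(5,0),
  (26,0)]⟩,⟨1,[(5,3),(3,3),(2,0),(0,0),(20,0),(2,1)]⟩⟩,⟨false,0,⟨0,[]⟩,⟨0,[]⟩⟩,⟨false,0,⟨0,[]⟩,⟨0,
  []⟩⟩,[.o ⟨false,0,⟨0,[(4,0)]⟩,⟨0,[(6,0),(2,0),(27,0)]⟩⟩,.a ⟨true,0,⟨0,[(8,0)]⟩,⟨1,[(6,0),(2,0),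
  (14,0),(9,0),(2,1)]⟩⟩ ⟨true,0,⟨0,[]⟩,⟨1,[(25,0),(0,0)]⟩⟩ ⟨false,1,⟨0,[(0,0),(7,0)]⟩,⟨0,[(5,0),(9,
  0),(21,0)]⟩⟩,.o ⟨false,0,⟨0,[(26,0)]⟩,⟨4,[(0,2),(5,0),(16,0),(1,0),(4,0)]⟩⟩,.o ⟨false,0,⟨1,[(25,
  0),(0,2)]⟩,⟨0,[(0,0)]⟩⟩]⟩) (.Q [0,0,1,0,-1,0,-2,0,0,1,-2] (.p false [0,0,1] [1,0,-1] (⟨0,[(28,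
  0)]⟩,⟨0,[(27,0)]⟩) .k 2 (⟨0,[(27,0)]⟩,⟨0,[(28,0)]⟩) .k (.r 0 ⟨0,[(9,1),(0,1)]⟩ ⟨2,[(5,2),(0,2),(5,
  0),(20,0),(3,0)]⟩)) (.R ⟨0,false,false,true,[1,-1,-1],[0,-1,1],[1,0,1],(⟨0,[(17,0)]⟩,⟨9,[(2,4),(4,
  1),(8,0),(7,1),(4,4),(5,1)]⟩),(⟨0,[(18,0)]⟩,⟨1,[(2,0),(25,2)]⟩),⟨0,[(2,0)]⟩,.k,.k,(.r (-1) ⟨0,[(7,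
  0),(4,0)]⟩ ⟨4,[(3,5),(2,0),(27,2),(3,3)]⟩),.k,.k,.k,⟨false,1,⟨4,[(3,1),(2,1),(0,4),(26,0),(3,2)]⟩,
  ⟨0,[(10,0),(0,0),(1,0)]⟩⟩,⟨true,1,⟨1,[(13,0),(0,0),(11,3),(4,0),(6,1)]⟩,⟨0,[(0,0)]⟩⟩,⟨false,0,⟨0,
  [(3,0)]⟩,⟨0,[(7,0),(5,0)]⟩⟩,⟨true,0,⟨0,[(5,0),(5,0),(26,0)]⟩,⟨0,[(0,0),(5,0),(0,0),(5,0),(24,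
  0)]⟩⟩,⟨false,0,⟨0,[]⟩,⟨0,[]⟩⟩,⟨false,0,⟨0,[]⟩,⟨0,[]⟩⟩,[.o ⟨false,0,⟨0,[(5,0)]⟩,⟨0,[(7,0),(2,0),
  (27,0)]⟩⟩,.a ⟨true,0,⟨0,[(9,0)]⟩,⟨5,[(0,0),(6,2),(15,0),(1,2),(9,1),(2,5)]⟩⟩ ⟨false,1,⟨9,[(3,0),
  (3,2),(0,0),(7,0),(2,0),(4,1),(14,0),(0,4)]⟩,⟨2,[(13,0),(20,0),(3,0)]⟩⟩ ⟨true,1,⟨1,[(11,1),(1,0),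
  (0,0),(11,1),(4,0)]⟩,⟨0,[(0,0),(5,0),(31,0)]⟩⟩,.o ⟨false,0,⟨0,[(27,0)]⟩,⟨1,[(13,0),(0,0),(11,1),
  (4,0),(6,1)]⟩⟩,.e ⟨true,0,⟨0,[]⟩,⟨0,[(42,0)]⟩⟩ ⟨true,1,⟨1,[(11,1),(1,1),(12,1),(4,0),(7,0)]⟩,⟨0,
  [(0,0),(5,0),(31,0)]⟩⟩]⟩) (.K ⟨0,[1,-1,-1],(-1),0,(⟨0,[(17,0)]⟩,⟨9,[(2,4),(4,1),(8,0),(7,1),(4,4),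
  (5,1)]⟩),.k,(.r (-1) ⟨0,[(7,0),(4,0)]⟩ ⟨4,[(3,5),(2,0),(27,2),(3,3)]⟩),.k,(.r (-1) ⟨0,[(6,0),(0,
  0),(5,0)]⟩ ⟨0,[(3,0),(1,0),(17,0),(14,0)]⟩),.k,[⟨0,[(0,0)]⟩,⟨0,[(1,0)]⟩,⟨0,[(5,0),(32,1)]⟩,⟨5,[(7,
  1),(7,0),(0,0),(8,3),(9,1),(1,4)]⟩]⟩))))

theorem ok53 : chk K t53 l35 = true := by decide +kernel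

noncomputable def t54 : Tre :=
  (.Q [0,0,0,1,-1,0,0,0,1,0,0,1] (.p true [0,0,0,0,1] [] (⟨0,[(19,0)]⟩,⟨0,[(18,0)]⟩) .k 0 (⟨0,[]⟩,
  ⟨0,[]⟩) .k .k) (.Q [0,0,0,0,0,0,0,0,0,1,-1,-1] (.ed true [0,0,1,0,1] (.r 0 ⟨0,[(8,0),(13,0)]⟩ ⟨0,
  [(5,0)]⟩)) (.R ⟨1,false,false,true,[0,0,1,0,1],[0,-1,1],[0,1],(⟨0,[(21,0),(6,0)]⟩,⟨0,[(0,0)]⟩),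
  (⟨0,[(17,0)]⟩,⟨0,[(27,0),(4,0)]⟩),⟨0,[(17,0),(3,0)]⟩,.k,.k,(.r 0 ⟨0,[(4,0),(17,0)]⟩ ⟨1,[(6,1),(18,
  0),(0,0),(10,1)]⟩),(.r 0 ⟨1,[(25,0),(0,0),(10,1),(3,1)]⟩ ⟨1,[(13,0),(22,0),(2,0)]⟩),.k,.k,⟨true,0,
  ⟨0,[(5,0),(31,0)]⟩,⟨0,[(8,0),(0,0)]⟩⟩,⟨false,1,⟨0,[(18,0)]⟩,⟨7,[(1,2),(9,0),(1,0),(5,4),(18,1)]⟩⟩,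
  ⟨false,1,⟨0,[(6,0)]⟩,⟨0,[(9,0),(0,0)]⟩⟩,⟨false,2,⟨0,[(18,0),(17,0),(2,0)]⟩,⟨0,[(1,0)]⟩⟩,⟨false,1,
  ⟨0,[(6,0),(30,0)]⟩,⟨0,[(8,0),(0,0)]⟩⟩,⟨true,1,⟨0,[(18,0)]⟩,⟨0,[(1,0),(34,0)]⟩⟩,[.o ⟨false,0,⟨0,
  [(4,0)]⟩,⟨0,[(6,0),(2,0),(27,0)]⟩⟩,.a ⟨true,0,⟨0,[(8,0)]⟩,⟨1,[(6,0),(2,0),(14,0),(9,0),(2,1)]⟩⟩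
  ⟨false,1,⟨1,[(18,0),(0,0),(18,0)]⟩,⟨0,[]⟩⟩ ⟨true,1,⟨0,[(8,0),(0,0),(8,0)]⟩,⟨0,[(1,0),(3,0)]⟩⟩,.o
  ⟨false,0,⟨0,[(1,0),(2,0),(1,0)]⟩,⟨0,[(9,0),(8,0)]⟩⟩,.e ⟨true,0,⟨2,[(12,0),(20,0),(3,0)]⟩,⟨1,[(25,
  0),(0,0)]⟩⟩ ⟨true,1,⟨0,[(4,0),(13,0),(3,0)]⟩,⟨0,[(1,0),(3,0)]⟩⟩]⟩) (.S ⟨1,0,[0,1],[0,0,0,0,1],[0,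
  2],(⟨0,[(21,0)]⟩,⟨0,[(20,0)]⟩),⟨0,[(0,0),(15,0)]⟩,.k,(.r 0 ⟨0,[(35,0)]⟩ ⟨3,[(6,1),(16,1),(1,0),(0,
  2),(10,3),(1,1)]⟩),⟨true,0,⟨0,[(41,0)]⟩,⟨0,[]⟩⟩,⟨false,1,⟨1,[(18,0),(0,0),(19,0)]⟩,⟨0,[]⟩⟩,⟨false,
  0,⟨0,[(37,0)]⟩,⟨0,[(36,0),(2,0)]⟩⟩,⟨true,0,⟨0,[(37,0)]⟩,⟨0,[(36,0)]⟩⟩,[.e ⟨false,0,⟨0,[(33,0)]⟩,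
  ⟨0,[(39,0)]⟩⟩ ⟨false,0,⟨2,[(12,0),(20,0),(3,0)]⟩,⟨1,[(18,0),(0,0),(19,0)]⟩⟩,.o ⟨false,0,⟨5,[(1,3),
  (5,1),(6,1),(15,2),(8,0)]⟩,⟨0,[(18,0)]⟩⟩,.o ⟨false,0,⟨5,[(1,3),(5,1),(6,1),(15,2),(8,0)]⟩,⟨0,[(18,
  0)]⟩⟩,.a ⟨true,(-1),⟨1,[(1,1),(2,0),(0,0),(8,0),(11,0)]⟩,⟨1,[(18,1),(15,0),(3,0)]⟩⟩ ⟨false,0,⟨2,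
  [(12,0),(20,0),(3,0)]⟩,⟨1,[(25,0),(0,0),(12,1)]⟩⟩ ⟨true,0,⟨2,[(12,0),(20,0),(3,0)]⟩,⟨1,[(25,0),(0,
  0)]⟩⟩]⟩)) (.Q [0,0,0,0,0,2,0,0,0,-1,1] (.p true [0,0,1] [1] (⟨0,[(27,0)]⟩,⟨0,[(26,0)]⟩) .k 1 (⟨0,
  []⟩,⟨0,[]⟩) .k .k) (.R ⟨0,false,false,true,[1,-1,-1],[0,-1,1],[1,1],(⟨0,[(16,0)]⟩,⟨9,[(0,4),(5,1),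
  (8,0),(7,1),(4,4),(5,1)]⟩),(⟨0,[(17,0)]⟩,⟨0,[(27,0),(4,0)]⟩),⟨0,[(0,0)]⟩,.k,.k,(.r (-1) ⟨0,[(6,0),
  (4,0)]⟩ ⟨1,[(10,1),(14,0),(0,2),(10,3)]⟩),.k,.k,.k,⟨true,0,⟨0,[(5,0),(31,0)]⟩,⟨0,[(8,0),(0,0)]⟩⟩,
  ⟨false,1,⟨1,[(2,1),(7,1),(14,1),(4,0),(6,1),(1,0)]⟩,⟨0,[(15,0)]⟩⟩,⟨false,0,⟨0,[(10,0),(15,0),(10,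
  0)]⟩,⟨3,[(2,1),(3,1),(7,1),(15,0),(8,0)]⟩⟩,⟨true,0,⟨0,[(4,0),(5,0),(26,0)]⟩,⟨1,[(2,0),(2,1),(0,0),
  (2,3),(24,0),(2,0)]⟩⟩,⟨false,0,⟨0,[]⟩,⟨0,[]⟩⟩,⟨false,0,⟨0,[]⟩,⟨0,[]⟩⟩,[.o ⟨false,0,⟨0,[(4,0)]⟩,⟨0,
  [(6,0),(2,0),(27,0)]⟩⟩,.a ⟨true,0,⟨0,[(8,0)]⟩,⟨1,[(6,0),(2,0),(14,0),(9,0),(2,1)]⟩⟩ ⟨true,0,⟨0,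
  []⟩,⟨1,[(25,0),(0,0)]⟩⟩ ⟨false,1,⟨1,[(2,1),(7,3),(19,0),(8,0)]⟩,⟨0,[(5,0),(9,0),(21,0)]⟩⟩,.o
  ⟨false,0,⟨0,[(26,0)]⟩,⟨1,[(2,0),(3,0),(3,1),(19,0),(6,0)]⟩⟩,.o ⟨false,0,⟨1,[(25,0),(0,2)]⟩,⟨1,[(2,
  1),(7,1),(19,0),(6,1),(1,0)]⟩⟩]⟩) (.Q [0,0,-1,0,0,0,-1,0,-1,1,-1,-1] (.p false [0,0,1] [1,0,0,0,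
  -1] (⟨0,[(28,0)]⟩,⟨0,[(27,0)]⟩) .k 2 (⟨0,[(20,0)]⟩,⟨0,[(21,0)]⟩) .k (.r 0 ⟨0,[(9,0),(13,0)]⟩ ⟨0,
  [(6,0)]⟩)) (.Q [0,0,0,0,0,0,0,0,0,-1,1,1] (.ed false [0,0,1,0,1] (.r 0 ⟨0,[(10,0),(13,0)]⟩ ⟨0,[(7,
  0)]⟩)) (.Q [0,-1,0,1,0,0,0,0,-1,1,0,-1] (.p false [0,0,0,0,1] [1] (⟨0,[(23,0)]⟩,⟨0,[(22,0)]⟩) .k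
  1 (⟨0,[]⟩,⟨0,[]⟩) .k .k) (.R ⟨1,false,false,true,[0,0,1],[0,0,0,0,1],[0,1,0,0,0,0,0,1],(⟨0,[(31,
  0)]⟩,⟨0,[(30,0)]⟩),(⟨0,[(24,0)]⟩,⟨0,[(23,0)]⟩),⟨0,[(20,0)]⟩,.k,.k,.k,.k,(.r (-1) ⟨1,[(7,0),(5,0),
  (2,0),(1,0),(23,0)]⟩ ⟨0,[(8,0),(31,0),(3,0)]⟩),.k,⟨false,1,⟨1,[(12,1),(0,1),(27,0),(0,0)]⟩,⟨4,[(5,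
  0),(2,3),(27,1),(3,0)]⟩⟩,⟨true,0,⟨0,[(12,0),(9,0)]⟩,⟨0,[(0,0),(6,0),(0,0)]⟩⟩,⟨true,0,⟨0,[(44,0)]⟩,
  ⟨0,[]⟩⟩,⟨false,0,⟨0,[(22,0),(4,0)]⟩,⟨0,[(0,0),(6,0),(34,0)]⟩⟩,⟨false,0,⟨0,[(40,0)]⟩,⟨2,[(4,0),(5,
  0),(6,0),(24,1)]⟩⟩,⟨false,0,⟨0,[(22,0),(4,0),(12,0)]⟩,⟨1,[(0,1),(6,1),(9,1),(15,0),(8,0)]⟩⟩,[.o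
  ⟨false,0,⟨0,[(10,0),(29,0)]⟩,⟨0,[(0,0),(16,0),(15,0)]⟩⟩,.o ⟨false,0,⟨0,[(6,0)]⟩,⟨3,[(0,1),(3,1),
  (28,0),(8,0)]⟩⟩,.o ⟨false,1,⟨1,[(28,1),(4,0),(7,0)]⟩,⟨0,[(12,0)]⟩⟩,.a ⟨true,0,⟨0,[(28,0)]⟩,⟨0,
  [(25,0)]⟩⟩ ⟨true,0,⟨0,[(7,0),(17,0),(14,0)]⟩,⟨0,[(8,0)]⟩⟩ ⟨false,0,⟨0,[(6,0),(18,0)]⟩,⟨0,[(0,0),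
  (6,0),(0,0),(33,0)]⟩⟩]⟩) (.Q [0,0,0,0,0,-1,0,0,0,-1,1,1] (.p true [-1,0,1,0,1] [] (⟨0,[(1,0)]⟩,⟨0,
  [(23,0),(6,0)]⟩) .k 0 (⟨0,[]⟩,⟨0,[]⟩) .k (.r 0 ⟨0,[(12,0),(13,0)]⟩ ⟨0,[(9,0)]⟩)) (.Q [0,-1,0,-1,1,
  0,1,0,1,-1,1,1] (.p true [-1,0,1,0,1] [] (⟨0,[(2,0)]⟩,⟨0,[(24,0),(6,0)]⟩) .k 0 (⟨0,[]⟩,⟨0,[]⟩) .k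
  (.r 0 ⟨0,[(13,0),(13,0)]⟩ ⟨0,[(10,0)]⟩)) (.Q [0,0,0,0,1,0,1,0,1,-2,1,1] (.p true [-1,0,1,0,1] [1]
  (⟨0,[(3,0)]⟩,⟨0,[(25,0),(6,0)]⟩) .k 1 (⟨0,[]⟩,⟨0,[]⟩) .k (.r 0 ⟨0,[(14,0),(13,0)]⟩ ⟨0,[(11,0)]⟩))
  (.R ⟨1,false,false,false,[-1,0,1,0,1],[0,0,0,0,1],[0,1,0,0,0,0,0,1],(⟨0,[(4,0)]⟩,⟨0,[(26,0),(6,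
  0)]⟩),(⟨0,[(27,0)]⟩,⟨0,[(26,0)]⟩),⟨0,[(2,0)]⟩,.k,.k,(.r 0 ⟨0,[(10,0),(17,0)]⟩ ⟨1,[(12,1),(18,0),
  (0,0),(10,1)]⟩),.k,.k,.k,⟨true,0,⟨0,[(15,0),(0,0)]⟩,⟨0,[(11,0)]⟩⟩,⟨false,0,⟨0,[(28,0)]⟩,⟨5,[(0,1),
  (7,0),(3,0),(3,1),(7,1),(6,1),(4,0),(6,0)]⟩⟩,⟨false,1,⟨9,[(0,0),(11,2),(8,1),(2,0),(4,2),(15,4)]⟩,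
  ⟨0,[]⟩⟩,⟨true,0,⟨1,[(12,0),(2,0),(14,0),(9,0)]⟩,⟨0,[(10,0),(32,0)]⟩⟩,⟨true,0,⟨0,[(43,0)]⟩,⟨0,[(42,
  0)]⟩⟩,⟨true,0,⟨1,[(12,0),(2,0),(14,0),(9,0),(2,1)]⟩,⟨0,[(10,0)]⟩⟩,[.o ⟨false,0,⟨0,[(9,0)]⟩,⟨1,[(5,
  1),(25,1),(4,0),(8,0)]⟩⟩,.a ⟨true,0,⟨0,[(25,0)]⟩,⟨0,[(5,0),(25,0)]⟩⟩ ⟨true,0,⟨0,[(15,0),(0,0)]⟩,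
  ⟨0,[(11,0)]⟩⟩ ⟨false,0,⟨0,[(28,0)]⟩,⟨5,[(0,1),(7,0),(3,0),(3,1),(7,1),(6,1),(4,0),(6,0)]⟩⟩,.o
  ⟨false,1,⟨0,[(0,0)]⟩,⟨1,[(5,1),(25,0),(0,0)]⟩⟩,.o ⟨false,1,⟨1,[(0,1),(30,0),(0,0)]⟩,⟨0,[(5,
  0)]⟩⟩]⟩) (.Q [0,0,0,0,0,-1,0,0,0,1,0,-1] (.ed true [0,1,0,0,1] .k) (.R ⟨1,false,false,true,[1,0,0,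
  0,-1],[2,0,-1,0,-1],[],(⟨0,[(27,0)]⟩,⟨0,[(28,0)]⟩),(⟨0,[(27,0),(6,0)]⟩,⟨0,[(5,0)]⟩),⟨0,[(0,0)]⟩,
  .k,.k,(.r (-1) ⟨9,[(2,1),(5,1),(11,4),(0,0),(0,0),(23,0)]⟩ ⟨1,[(32,0),(0,0),(10,1),(3,1)]⟩),.k,.k,
  .k,⟨true,0,⟨0,[(16,0),(0,0)]⟩,⟨0,[(12,0)]⟩⟩,⟨false,0,⟨0,[(29,0)]⟩,⟨1,[(32,1),(4,0),(7,0)]⟩⟩,⟨true,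
  0,⟨0,[(48,0)]⟩,⟨0,[]⟩⟩,⟨false,0,⟨1,[(1,0),(11,0),(12,0),(4,0)]⟩,⟨1,[(17,1),(19,0),(8,0)]⟩⟩,⟨false,
  0,⟨0,[(44,0)]⟩,⟨4,[(2,1),(5,1),(12,0),(0,0),(23,0)]⟩⟩,⟨false,0,⟨1,[(1,0),(11,0),(12,0),(4,0),(12,
  1)]⟩,⟨0,[(11,0),(34,0)]⟩⟩,[.o ⟨false,0,⟨0,[(6,0),(5,0)]⟩,⟨0,[(17,0),(8,0),(10,0)]⟩⟩,.e ⟨false,1,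
  ⟨1,[(45,0),(0,0)]⟩,⟨0,[(48,0)]⟩⟩ ⟨false,1,⟨0,[(13,0),(15,0)]⟩,⟨0,[(11,0),(32,0)]⟩⟩,.a ⟨true,0,⟨0,
  [(6,0),(25,0)]⟩,⟨0,[(26,0)]⟩⟩ ⟨false,1,⟨1,[(25,0),(0,0),(19,0)]⟩,⟨0,[]⟩⟩ ⟨true,0,⟨1,[(1,0),(11,0),
  (12,0),(4,0)]⟩,⟨0,[(11,0),(32,0)]⟩⟩,.o ⟨false,0,⟨0,[(1,0),(30,0),(4,0)]⟩,⟨1,[(26,1),(10,0),(7,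
  0)]⟩⟩]⟩) (.R ⟨0,false,false,false,[1,0,0,0,-1],[2,0,-1,0,-1],[1,-1,0,0,0,0,0,-1],(⟨0,[(27,0)]⟩,⟨0,
  [(28,0)]⟩),(⟨0,[(27,0),(6,0)]⟩,⟨0,[(5,0)]⟩),⟨0,[(0,0)]⟩,.k,.k,(.r (-1) ⟨9,[(2,1),(5,1),(11,4),(0,
  0),(0,0),(23,0)]⟩ ⟨1,[(32,0),(0,0),(10,1),(3,1)]⟩),.k,.k,.k,⟨true,0,⟨0,[]⟩,⟨1,[(32,0),(0,0)]⟩⟩,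
  ⟨false,0,⟨0,[(29,0)]⟩,⟨1,[(32,1),(4,0),(7,0)]⟩⟩,⟨false,1,⟨0,[(13,0)]⟩,⟨0,[(16,0),(0,0)]⟩⟩,⟨true,0,
  ⟨1,[(1,0),(11,0),(12,0),(4,0)]⟩,⟨0,[(11,0),(32,0)]⟩⟩,⟨false,0,⟨0,[]⟩,⟨0,[]⟩⟩,⟨false,0,⟨0,[]⟩,⟨0,
  []⟩⟩,[.e ⟨false,1,⟨1,[(9,0),(3,0),(30,0),(1,0)]⟩,⟨0,[(16,0),(13,0)]⟩⟩ ⟨false,1,⟨0,[(13,0),(15,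
  0)]⟩,⟨0,[(11,0),(32,0)]⟩⟩,.o ⟨false,1,⟨1,[(1,1),(11,1),(23,0),(8,0)]⟩,⟨0,[(10,0),(0,0),(32,0)]⟩⟩,
  .a ⟨true,0,⟨0,[(6,0),(25,0)]⟩,⟨0,[(26,0)]⟩⟩ ⟨true,1,⟨0,[(13,0)]⟩,⟨0,[(1,0),(8,0),(0,0),(32,0)]⟩⟩
  ⟨false,1,⟨1,[(1,0),(11,1),(2,0),(9,0),(19,0)]⟩,⟨0,[(11,0),(32,0)]⟩⟩,.o ⟨false,0,⟨0,[(1,0),(30,0),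
  (4,0)]⟩,⟨1,[(26,1),(10,0),(7,0)]⟩⟩]⟩))) (.Q [0,0,0,0,0,-1,0,0,0,1,0,-1] (.ed true [0,1,0,0,1] .k)
  (.R ⟨1,false,false,true,[1,0,0,0,-1],[2,0,-1,0,-1],[],(⟨0,[(26,0)]⟩,⟨0,[(27,0)]⟩),(⟨0,[(26,0),(6,
  0)]⟩,⟨0,[(4,0)]⟩),⟨0,[(0,0)]⟩,.k,.k,(.r (-1) ⟨5,[(7,0),(5,0),(5,2),(0,0),(24,1)]⟩ ⟨1,[(31,0),(0,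
  0),(10,1),(3,1)]⟩),.k,.k,.k,⟨true,0,⟨0,[(15,0),(0,0)]⟩,⟨0,[(11,0)]⟩⟩,⟨false,0,⟨0,[(28,0)]⟩,⟨1,
  [(31,1),(4,0),(7,0)]⟩⟩,⟨true,0,⟨0,[(47,0)]⟩,⟨0,[]⟩⟩,⟨false,0,⟨1,[(12,0),(2,0),(14,0),(9,0)]⟩,⟨1,
  [(16,1),(19,0),(8,0)]⟩⟩,⟨false,0,⟨0,[(43,0)]⟩,⟨2,[(7,0),(5,0),(6,0),(24,1)]⟩⟩,⟨false,0,⟨1,[(12,0),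
  (2,0),(14,0),(9,0),(2,1)]⟩,⟨0,[(10,0),(34,0)]⟩⟩,[.o ⟨false,0,⟨0,[(5,0),(5,0)]⟩,⟨0,[(16,0),(8,0),
  (10,0)]⟩⟩,.e ⟨false,1,⟨1,[(44,0),(0,0)]⟩,⟨0,[(47,0)]⟩⟩ ⟨false,1,⟨0,[(12,0),(15,0)]⟩,⟨0,[(10,0),
  (32,0)]⟩⟩,.a ⟨true,0,⟨0,[(5,0),(25,0)]⟩,⟨0,[(25,0)]⟩⟩ ⟨false,1,⟨1,[(24,0),(0,0),(19,0)]⟩,⟨0,[]⟩⟩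
  ⟨true,0,⟨1,[(12,0),(2,0),(14,0),(9,0)]⟩,⟨0,[(10,0),(32,0)]⟩⟩,.o ⟨false,0,⟨0,[(1,0),(8,0),(0,0),
  (33,0)]⟩,⟨1,[(25,1),(10,0),(7,0)]⟩⟩]⟩) (.R ⟨0,false,false,false,[1,0,0,0,-1],[0,1],[1,0,1,1],(⟨0,
  [(26,0)]⟩,⟨0,[(27,0)]⟩),(⟨0,[(38,0)]⟩,⟨0,[(37,0)]⟩),⟨0,[(0,0)]⟩,.k,.k,(.r (-1) ⟨5,[(7,0),(5,0),(5,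
  2),(0,0),(24,1)]⟩ ⟨1,[(31,0),(0,0),(10,1),(3,1)]⟩),(.r (-1) ⟨5,[(7,0),(5,0),(5,2),(0,0),(24,1)]⟩
  ⟨1,[(31,0),(0,0),(10,1),(3,1)]⟩),.k,.k,⟨true,0,⟨0,[]⟩,⟨1,[(31,0),(0,0)]⟩⟩,⟨false,1,⟨0,[(9,0),(9,
  0),(23,0)]⟩,⟨3,[(1,1),(5,1),(23,2),(0,0),(7,0),(4,0)]⟩⟩,⟨false,0,⟨1,[(31,0),(0,0),(10,1)]⟩,⟨5,[(7,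
  0),(5,0),(5,2),(0,0),(24,1)]⟩⟩,⟨true,0,⟨0,[(9,0),(33,0)]⟩,⟨9,[(1,5),(5,3),(0,1),(1,2),(0,0),(8,6),
  (10,2),(13,1)]⟩⟩,⟨false,0,⟨0,[]⟩,⟨0,[]⟩⟩,⟨false,0,⟨0,[]⟩,⟨0,[]⟩⟩,[.e ⟨false,0,⟨0,[(43,0)]⟩,⟨5,[(7,
  2),(5,0),(5,0),(0,0),(4,1),(18,1)]⟩⟩ ⟨false,1,⟨1,[(25,1),(10,0),(6,1),(0,0)]⟩,⟨9,[(1,5),(5,3),(0,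
  1),(1,2),(0,0),(8,6),(10,2),(13,1)]⟩⟩,.o ⟨false,1,⟨1,[(36,0),(6,1),(1,0)]⟩,⟨0,[(42,0)]⟩⟩,.a ⟨true,
  0,⟨0,[(5,0),(25,0)]⟩,⟨0,[(25,0)]⟩⟩ ⟨true,0,⟨1,[(31,0),(0,0),(10,1)]⟩,⟨0,[(41,0)]⟩⟩ ⟨false,1,⟨1,
  [(25,1),(10,0),(6,1),(1,0)]⟩,⟨9,[(1,5),(5,3),(0,1),(1,2),(0,0),(8,6),(10,2),(13,1)]⟩⟩,.o ⟨false,0,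
  ⟨0,[(1,0),(8,0),(0,0),(33,0)]⟩,⟨1,[(25,1),(10,0),(7,0)]⟩⟩]⟩))) (.Q [0,0,0,0,1,0,2,0,1,-2,2,1] (.p
  true [0,0,1] [2,0,-1,0,-1] (⟨0,[(32,0)]⟩,⟨0,[(31,0)]⟩) .k 2 (⟨0,[(0,0),(34,0)]⟩,⟨0,[(2,0)]⟩) .k
  (.r 0 ⟨0,[(13,1),(0,0),(12,0)]⟩ ⟨1,[(6,0),(2,1),(0,0),(30,0),(1,0)]⟩)) (.R ⟨0,false,false,false,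
  [-1,0,1,0,1],[0,0,0,0,1],[0,1,0,0,0,0,0,1],(⟨0,[(3,0)]⟩,⟨0,[(1,0),(34,0)]⟩),(⟨0,[(26,0)]⟩,⟨0,[(25,
  0)]⟩),⟨0,[(1,0)]⟩,.k,.k,(.r 0 ⟨0,[(9,0),(17,0)]⟩ ⟨1,[(11,1),(18,0),(0,0),(10,1)]⟩),.k,.k,.k,⟨true,
  0,⟨0,[(14,0),(0,0)]⟩,⟨0,[(10,0)]⟩⟩,⟨false,0,⟨0,[(27,0)]⟩,⟨1,[(0,0),(22,0)]⟩⟩,⟨false,1,⟨1,[(23,0),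
  (0,0),(19,0)]⟩,⟨0,[]⟩⟩,⟨true,0,⟨1,[(11,0),(2,0),(14,0),(9,0)]⟩,⟨0,[(9,0),(32,0)]⟩⟩,⟨false,0,⟨0,
  []⟩,⟨0,[]⟩⟩,⟨false,0,⟨0,[]⟩,⟨0,[]⟩⟩,[.o ⟨false,0,⟨0,[(8,0)]⟩,⟨1,[(4,1),(25,1),(4,0),(8,0)]⟩⟩,.a
  ⟨true,0,⟨0,[(24,0)]⟩,⟨0,[(4,0),(25,0)]⟩⟩ ⟨true,0,⟨0,[(14,0),(0,0)]⟩,⟨0,[(10,0)]⟩⟩ ⟨false,0,⟨0,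
  [(27,0)]⟩,⟨1,[(0,0),(22,0)]⟩⟩,.o ⟨false,1,⟨1,[(0,0),(23,0),(10,0)]⟩,⟨1,[(4,1),(25,0),(0,0)]⟩⟩,.o
  ⟨false,1,⟨0,[(0,0),(30,0)]⟩,⟨0,[(4,0)]⟩⟩]⟩) (.Q [0,0,0,0,1,0,1,0,1,-2,1,1] (.p true [-1,0,1,0,1]
  [1] (⟨0,[(3,0)]⟩,⟨0,[(1,0),(34,0)]⟩) .k 1 (⟨0,[]⟩,⟨0,[]⟩) .k (.r 0 ⟨0,[(14,0),(13,0)]⟩ ⟨0,[(11,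
  0)]⟩)) (.R ⟨0,false,false,false,[-1,0,1,0,1],[0,0,0,0,1],[0,1,0,0,0,0,0,1],(⟨0,[(4,0)]⟩,⟨0,[(2,0),
  (34,0)]⟩),(⟨0,[(27,0)]⟩,⟨0,[(26,0)]⟩),⟨0,[(2,0)]⟩,.k,.k,(.r 0 ⟨0,[(10,0),(17,0)]⟩ ⟨1,[(12,1),(18,
  0),(0,0),(10,1)]⟩),.k,.k,.k,⟨true,0,⟨0,[(15,0),(0,0)]⟩,⟨0,[(11,0)]⟩⟩,⟨false,0,⟨0,[(28,0)]⟩,⟨5,[(0,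
  1),(7,0),(3,0),(3,1),(7,1),(6,1),(4,0),(6,0)]⟩⟩,⟨false,1,⟨9,[(0,0),(11,2),(8,1),(2,0),(4,2),(15,
  4)]⟩,⟨0,[]⟩⟩,⟨true,0,⟨3,[(1,0),(10,1),(12,0),(4,1),(9,0)]⟩,⟨0,[(10,0),(32,0)]⟩⟩,⟨false,0,⟨0,[]⟩,
  ⟨0,[]⟩⟩,⟨false,0,⟨0,[]⟩,⟨0,[]⟩⟩,[.o ⟨false,0,⟨0,[(9,0)]⟩,⟨1,[(5,1),(25,1),(4,0),(8,0)]⟩⟩,.a ⟨true,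
  0,⟨0,[(25,0)]⟩,⟨0,[(5,0),(25,0)]⟩⟩ ⟨true,0,⟨0,[(15,0),(0,0)]⟩,⟨0,[(11,0)]⟩⟩ ⟨false,0,⟨0,[(28,0)]⟩,
  ⟨5,[(0,1),(7,0),(3,0),(3,1),(7,1),(6,1),(4,0),(6,0)]⟩⟩,.o ⟨false,1,⟨0,[(0,0)]⟩,⟨1,[(1,0),(22,
  0)]⟩⟩,.o ⟨false,1,⟨1,[(0,1),(30,0),(0,0)]⟩,⟨0,[(5,0)]⟩⟩]⟩) (.Q [0,0,0,0,0,-1,0,0,0,1,0,-1] (.ed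
  true [0,1,0,0,1] .k) (.R ⟨1,false,false,true,[1,0,0,0,-1],[2,0,-1,0,-1],[],(⟨0,[(27,0)]⟩,⟨0,[(28,
  0)]⟩),(⟨0,[(3,0),(34,0)]⟩,⟨0,[(5,0)]⟩),⟨0,[(0,0)]⟩,.k,.k,(.r (-1) ⟨5,[(8,0),(5,0),(5,2),(0,0),(24,
  1)]⟩ ⟨1,[(32,0),(0,0),(10,1),(3,1)]⟩),.k,.k,.k,⟨true,0,⟨0,[(16,0),(0,0)]⟩,⟨0,[(12,0)]⟩⟩,⟨false,0,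
  ⟨0,[(29,0)]⟩,⟨1,[(32,1),(4,0),(7,0)]⟩⟩,⟨true,0,⟨0,[(48,0)]⟩,⟨0,[]⟩⟩,⟨false,0,⟨3,[(2,0),(10,1),(12,
  0),(4,1),(9,0)]⟩,⟨1,[(17,1),(19,0),(8,0)]⟩⟩,⟨false,0,⟨0,[(44,0)]⟩,⟨2,[(8,0),(5,0),(6,0),(24,1)]⟩⟩,
  ⟨false,0,⟨3,[(2,0),(10,1),(12,0),(4,1),(9,0),(2,3)]⟩,⟨0,[(11,0),(34,0)]⟩⟩,[.o ⟨false,0,⟨0,[(6,0),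
  (5,0)]⟩,⟨0,[(17,0),(8,0),(10,0)]⟩⟩,.e ⟨false,1,⟨1,[(45,0),(0,0)]⟩,⟨0,[(48,0)]⟩⟩ ⟨false,1,⟨0,[(13,
  0),(15,0)]⟩,⟨0,[(11,0),(32,0)]⟩⟩,.a ⟨true,0,⟨0,[(6,0),(25,0)]⟩,⟨0,[(26,0)]⟩⟩ ⟨false,1,⟨1,[(25,0),
  (0,0),(19,0)]⟩,⟨0,[]⟩⟩ ⟨true,0,⟨3,[(2,0),(10,1),(12,0),(4,1),(9,0)]⟩,⟨0,[(11,0),(32,0)]⟩⟩,.o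
  ⟨false,0,⟨0,[(1,0),(30,0),(4,0)]⟩,⟨1,[(26,1),(10,0),(7,0)]⟩⟩]⟩) (.R ⟨0,false,false,false,[1,0,0,0,
  -1],[0,1],[1,0,1,1],(⟨0,[(27,0)]⟩,⟨0,[(28,0)]⟩),(⟨0,[(39,0)]⟩,⟨0,[(38,0)]⟩),⟨0,[(0,0)]⟩,.k,.k,(.r
  (-1) ⟨5,[(8,0),(5,0),(5,2),(0,0),(24,1)]⟩ ⟨1,[(32,0),(0,0),(10,1),(3,1)]⟩),(.r (-1) ⟨5,[(8,0),(5,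
  0),(5,2),(0,0),(24,1)]⟩ ⟨1,[(32,0),(0,0),(10,1),(3,1)]⟩),.k,.k,⟨true,0,⟨0,[]⟩,⟨1,[(32,0),(0,0)]⟩⟩,
  ⟨false,1,⟨0,[(10,0),(9,0),(23,0)]⟩,⟨3,[(1,1),(23,1),(6,2),(0,0)]⟩⟩,⟨false,0,⟨1,[(32,0),(0,0),(10,
  1)]⟩,⟨5,[(8,0),(5,0),(5,2),(0,0),(24,1)]⟩⟩,⟨true,0,⟨0,[(10,0),(33,0)]⟩,⟨9,[(1,5),(6,3),(0,1),(1,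
  2),(0,0),(8,0),(10,2),(13,1)]⟩⟩,⟨false,0,⟨0,[]⟩,⟨0,[]⟩⟩,⟨false,0,⟨0,[]⟩,⟨0,[]⟩⟩,[.e ⟨false,0,⟨0,
  [(44,0)]⟩,⟨5,[(8,2),(5,0),(5,0),(0,0),(4,1),(18,1)]⟩⟩ ⟨false,1,⟨1,[(26,1),(10,0),(6,1),(0,0)]⟩,⟨9,
  [(1,5),(6,3),(0,1),(1,2),(0,0),(8,0),(10,2),(13,1)]⟩⟩,.o ⟨false,1,⟨1,[(37,0),(6,1),(1,0)]⟩,⟨0,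
  [(43,0)]⟩⟩,.a ⟨true,0,⟨0,[(6,0),(25,0)]⟩,⟨0,[(26,0)]⟩⟩ ⟨true,0,⟨1,[(32,0),(0,0),(10,1)]⟩,⟨0,[(42,
  0)]⟩⟩ ⟨false,1,⟨1,[(26,1),(10,0),(6,1),(1,0)]⟩,⟨9,[(1,5),(6,3),(0,1),(1,2),(0,0),(8,0),(10,2),(13,
  1)]⟩⟩,.o ⟨false,0,⟨0,[(1,0),(30,0),(4,0)]⟩,⟨1,[(26,1),(10,0),(7,0)]⟩⟩]⟩)))))) (.Q [0,-2,0,0,1,0,1,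
  0,0,0,1] (.p true [0,0,1] [] (⟨0,[(30,0)]⟩,⟨0,[(29,0)]⟩) .k 0 (⟨0,[]⟩,⟨0,[]⟩) .k .k) (.R ⟨1,false,
  false,true,[0,0,1,0,1],[0,0,0,0,1],[0,1,0,0,0,0,0,1],(⟨0,[(24,0),(6,0)]⟩,⟨0,[(1,0)]⟩),(⟨0,[(24,
  0)]⟩,⟨0,[(23,0)]⟩),⟨0,[(20,0),(3,0)]⟩,.k,.k,(.r 0 ⟨0,[(7,0),(17,0)]⟩ ⟨1,[(9,1),(18,0),(0,0),(10,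
  1)]⟩),.k,.k,.k,⟨false,1,⟨1,[(12,1),(0,1),(27,0),(0,0)]⟩,⟨4,[(5,0),(2,3),(27,1),(3,0)]⟩⟩,⟨true,0,
  ⟨0,[(12,0)]⟩,⟨0,[(28,0)]⟩⟩,⟨false,1,⟨1,[(21,0),(0,0),(19,0)]⟩,⟨0,[]⟩⟩,⟨true,0,⟨0,[(27,0)]⟩,⟨0,
  [(13,0)]⟩⟩,⟨true,0,⟨0,[(40,0)]⟩,⟨0,[(39,0)]⟩⟩,⟨true,0,⟨0,[(27,0),(12,0)]⟩,⟨0,[(11,0)]⟩⟩,[.e
  ⟨false,0,⟨0,[(7,0),(17,0),(14,0)]⟩,⟨0,[(9,0)]⟩⟩ ⟨false,0,⟨0,[(12,0),(23,0)]⟩,⟨0,[(0,0)]⟩⟩,.o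
  ⟨false,0,⟨0,[(6,0)]⟩,⟨3,[(0,1),(1,3),(25,2),(0,0),(3,1)]⟩⟩,.e ⟨false,0,⟨0,[(12,0),(0,0)]⟩,⟨0,[(9,
  0)]⟩⟩ ⟨false,0,⟨1,[(12,0),(16,0),(6,0)]⟩,⟨0,[(0,0)]⟩⟩,.a ⟨true,0,⟨0,[(22,0),(5,0)]⟩,⟨0,[(2,0)]⟩⟩
  ⟨true,0,⟨0,[(7,0),(17,0),(14,0)]⟩,⟨0,[(8,0)]⟩⟩ ⟨false,0,⟨2,[(12,2),(2,0),(20,0),(3,0)]⟩,⟨1,[(0,1),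
  (27,0),(0,0)]⟩⟩]⟩) (.Q [0,0,0,0,0,0,1,0,1,0,1,1] (.p true [0,0,1,0,1] [] (⟨0,[(24,0),(6,0)]⟩,⟨0,
  [(1,0)]⟩) .k 0 (⟨0,[]⟩,⟨0,[]⟩) .k (.r 0 ⟨4,[(0,0),(12,1),(4,1),(7,2),(6,0)]⟩ ⟨0,[(9,0)]⟩)) (.R ⟨1,
  false,false,false,[0,0,1,0,1],[0,0,0,0,1],[0,2,0,0,0,0,0,1],(⟨0,[(25,0),(6,0)]⟩,⟨0,[(2,0)]⟩),(⟨0,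
  [(25,0)]⟩,⟨0,[(24,0)]⟩),⟨0,[(21,0),(3,0)]⟩,.k,.k,(.r 0 ⟨0,[(8,0),(17,0)]⟩ ⟨1,[(10,1),(18,0),(0,0),
  (10,1)]⟩),.k,.k,.k,⟨false,0,⟨1,[(1,0),(11,0),(0,1),(27,0)]⟩,⟨0,[(10,0)]⟩⟩,⟨true,0,⟨0,[(13,0)]⟩,⟨0,
  [(29,0)]⟩⟩,⟨true,0,⟨0,[(45,0)]⟩,⟨0,[]⟩⟩,⟨false,1,⟨0,[(10,0),(2,0)]⟩,⟨0,[(14,0)]⟩⟩,⟨false,0,⟨0,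
  [(41,0)]⟩,⟨2,[(5,0),(5,0),(6,0),(24,1)]⟩⟩,⟨false,1,⟨0,[(10,0),(2,0),(27,0)]⟩,⟨0,[(12,0)]⟩⟩,[.o
  ⟨false,0,⟨0,[(7,0)]⟩,⟨1,[(3,1),(25,1),(4,0),(8,0)]⟩⟩,.a ⟨true,0,⟨0,[(23,0)]⟩,⟨0,[(3,0),(25,0)]⟩⟩
  ⟨false,0,⟨1,[(1,0),(11,0),(0,1),(27,0)]⟩,⟨0,[(10,0)]⟩⟩ ⟨true,0,⟨0,[(13,0)]⟩,⟨0,[(29,0)]⟩⟩,.a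
  ⟨true,0,⟨0,[(0,0)]⟩,⟨1,[(3,1),(25,0),(0,0)]⟩⟩ ⟨true,(-1),⟨0,[(1,0),(12,0)]⟩,⟨0,[(10,0)]⟩⟩ ⟨false,
  0,⟨0,[(13,0)]⟩,⟨0,[(10,0),(3,0)]⟩⟩,.a ⟨true,0,⟨1,[(0,1),(28,0),(0,0)]⟩,⟨0,[(3,0)]⟩⟩ ⟨false,0,⟨1,
  [(1,0),(11,0),(0,1),(27,0)]⟩,⟨0,[(9,0),(33,0)]⟩⟩ ⟨true,0,⟨1,[(1,0),(11,0),(28,0)]⟩,⟨0,[(29,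
  0)]⟩⟩]⟩) (.Q [0,-2,0,0,1,0,-1,-1,0,0,-1] (.p false [0,0,1] [] (⟨0,[(32,0)]⟩,⟨0,[(31,0)]⟩) .k 0
  (⟨0,[]⟩,⟨0,[]⟩) .k .k) (.R ⟨1,false,false,false,[1,0,0,0,-1],[1,0,-1,0,-1],[],(⟨0,[(25,0)]⟩,⟨0,
  [(26,0)]⟩),(⟨0,[(3,0)]⟩,⟨0,[(26,0),(6,0)]⟩),⟨0,[(3,0),(18,0)]⟩,.k,.k,(.r (-1) ⟨5,[(6,0),(5,0),(5,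
  2),(0,0),(24,1)]⟩ ⟨1,[(30,0),(0,0),(10,1),(3,1)]⟩),.k,.k,.k,⟨false,0,⟨1,[(2,0),(11,0),(0,1),(27,
  0)]⟩,⟨0,[(11,0)]⟩⟩,⟨true,0,⟨0,[(14,0)]⟩,⟨0,[(30,0)]⟩⟩,⟨true,0,⟨0,[(46,0)]⟩,⟨0,[]⟩⟩,⟨false,1,⟨6,
  [(0,1),(10,3),(8,1),(8,0),(5,0)]⟩,⟨0,[(15,0)]⟩⟩,⟨false,0,⟨0,[(42,0)]⟩,⟨2,[(6,0),(5,0),(6,0),(24,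
  1)]⟩⟩,⟨false,1,⟨6,[(0,1),(10,3),(8,1),(8,0),(5,0),(6,6)]⟩,⟨0,[(13,0)]⟩⟩,[.o ⟨false,1,⟨0,[(1,0),(9,
  0)]⟩,⟨0,[(8,0),(6,0)]⟩⟩,.a ⟨true,1,⟨1,[(1,1),(9,1),(27,0),(4,0)]⟩,⟨0,[(8,0),(0,0),(29,0),(2,0)]⟩⟩
  ⟨false,1,⟨1,[(43,0),(0,0)]⟩,⟨0,[(46,0)]⟩⟩ ⟨true,1,⟨0,[(0,0)]⟩,⟨0,[(2,0),(12,0),(14,0)]⟩⟩,.e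
  ⟨false,1,⟨1,[(23,0),(0,0),(19,0)]⟩,⟨0,[]⟩⟩ ⟨false,1,⟨0,[(0,0)]⟩,⟨0,[(28,0)]⟩⟩,.o ⟨false,0,⟨0,[(1,
  0),(28,0)]⟩,⟨1,[(24,1),(10,0),(7,0)]⟩⟩]⟩) (.R ⟨1,false,false,false,[1,0,0,0,-1],[1,0,-1,0,-1],[],
  (⟨0,[(25,0)]⟩,⟨0,[(26,0)]⟩),(⟨0,[(3,0)]⟩,⟨0,[(26,0),(6,0)]⟩),⟨0,[(3,0),(18,0)]⟩,.k,.k,(.r (-1) ⟨5,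
  [(6,0),(5,0),(5,2),(0,0),(24,1)]⟩ ⟨1,[(30,0),(0,0),(10,1),(3,1)]⟩),.k,.k,.k,⟨false,0,⟨1,[(0,0),
  (13,1),(0,0),(27,0)]⟩,⟨0,[(11,0)]⟩⟩,⟨true,0,⟨0,[(14,0)]⟩,⟨0,[(30,0)]⟩⟩,⟨true,0,⟨0,[(46,0)]⟩,⟨0,
  []⟩⟩,⟨false,1,⟨0,[(11,0),(2,0)]⟩,⟨0,[(15,0)]⟩⟩,⟨false,0,⟨0,[(42,0)]⟩,⟨2,[(6,0),(5,0),(6,0),(24,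
  1)]⟩⟩,⟨false,1,⟨0,[(11,0),(2,0),(27,0)]⟩,⟨0,[(13,0)]⟩⟩,[.o ⟨false,1,⟨0,[(1,0),(9,0)]⟩,⟨0,[(8,0),
  (6,0)]⟩⟩,.e ⟨false,1,⟨1,[(43,0),(0,0)]⟩,⟨0,[(46,0)]⟩⟩ ⟨false,2,⟨1,[(11,1),(2,1),(28,0),(0,0)]⟩,⟨0,
  [(0,0)]⟩⟩,.a ⟨true,0,⟨0,[(4,0),(25,0)]⟩,⟨0,[(24,0)]⟩⟩ ⟨false,1,⟨1,[(23,0),(0,0),(19,0)]⟩,⟨0,[]⟩⟩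
  ⟨true,1,⟨0,[(11,0),(2,0)]⟩,⟨0,[(0,0)]⟩⟩,.o ⟨false,0,⟨0,[(1,0),(28,0)]⟩,⟨1,[(24,1),(10,0),(7,
  0)]⟩⟩]⟩))))) (.Q [0,0,0,0,0,0,0,0,1,-1,0,1] (.p true [0,0,0,0,1] [1] (⟨0,[(22,0)]⟩,⟨0,[(21,0)]⟩)
  .k 1 (⟨0,[]⟩,⟨0,[]⟩) .k .k) (.Q [0,0,0,0,0,-1,0,0,0,-1,1,1] (.p true [0,0,1] [1,0,0,0,-1] (⟨0,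
  [(30,0)]⟩,⟨0,[(29,0)]⟩) .k 2 (⟨0,[(22,0)]⟩,⟨0,[(23,0)]⟩) .k (.r 0 ⟨0,[(11,0),(13,0)]⟩ ⟨0,[(8,
  0)]⟩)) (.Q [0,0,1,0,-1,0,0,0,1,0,0,1] (.p true [0,0,0,0,1] [] (⟨0,[(24,0)]⟩,⟨0,[(23,0)]⟩) .k 0
  (⟨0,[]⟩,⟨0,[]⟩) .k .k) (.S ⟨1,0,[0,1],[0,0,0,0,1],[0,2],(⟨0,[(25,0)]⟩,⟨0,[(24,0)]⟩),⟨2,[(1,0),(2,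
  0),(20,1)]⟩,.k,(.r 0 ⟨0,[(39,0)]⟩ ⟨3,[(10,1),(16,1),(1,0),(0,2),(10,3),(1,1)]⟩),⟨true,0,⟨0,[(45,
  0)]⟩,⟨0,[]⟩⟩,⟨false,1,⟨1,[(22,0),(0,0),(19,0)]⟩,⟨0,[]⟩⟩,⟨false,0,⟨0,[(41,0)]⟩,⟨2,[(5,0),(5,0),(6,
  0),(24,1)]⟩⟩,⟨true,0,⟨0,[(41,0)]⟩,⟨0,[(40,0)]⟩⟩,[.e ⟨false,0,⟨0,[(37,0)]⟩,⟨0,[(43,0)]⟩⟩ ⟨false,0,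
  ⟨2,[(16,0),(20,0),(3,0)]⟩,⟨1,[(22,0),(0,0),(19,0)]⟩⟩,.o ⟨false,0,⟨0,[(2,0)]⟩,⟨0,[(22,0)]⟩⟩,.o
  ⟨false,0,⟨0,[(2,0)]⟩,⟨0,[(22,0)]⟩⟩,.a ⟨true,(-1),⟨0,[(0,0)]⟩,⟨1,[(22,1),(15,0),(3,0)]⟩⟩ ⟨false,0,
  ⟨2,[(16,0),(20,0),(3,0)]⟩,⟨1,[(29,0),(0,0),(12,1)]⟩⟩ ⟨true,0,⟨2,[(16,0),(20,0),(3,0)]⟩,⟨1,[(29,0),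
  (0,0)]⟩⟩]⟩) (.Q [0,-1,0,0,1,0,0,0,-1,0,0,-1] (.p false [0,0,0,0,1] [] (⟨0,[(25,0)]⟩,⟨0,[(24,0)]⟩)
  .k 0 (⟨0,[]⟩,⟨0,[]⟩) .k .k) (.R ⟨1,false,false,false,[0,0,1],[0,0,0,0,1],[0,1,0,0,0,0,0,1],(⟨0,
  [(33,0)]⟩,⟨0,[(32,0)]⟩),(⟨0,[(26,0)]⟩,⟨0,[(25,0)]⟩),⟨0,[(22,0)]⟩,.k,.k,.k,.k,(.r (-1) ⟨1,[(9,0),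
  (5,0),(2,0),(1,0),(23,0)]⟩ ⟨0,[(10,0),(31,0),(3,0)]⟩),.k,⟨true,0,⟨0,[(14,0),(0,0)]⟩,⟨0,[(10,0)]⟩⟩,
  ⟨false,0,⟨0,[(3,0),(23,0)]⟩,⟨0,[(1,0),(28,0)]⟩⟩,⟨true,0,⟨0,[(46,0)]⟩,⟨0,[]⟩⟩,⟨false,0,⟨1,[(3,1),
  (7,0),(2,0),(14,0),(9,0)]⟩,⟨0,[(0,0),(14,0)]⟩⟩,⟨false,0,⟨0,[(42,0)]⟩,⟨2,[(6,0),(5,0),(6,0),(24,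
  1)]⟩⟩,⟨false,0,⟨1,[(3,1),(7,0),(2,0),(14,0),(9,0),(2,1)]⟩,⟨0,[(0,0),(12,0)]⟩⟩,[.o ⟨false,0,⟨0,[(8,
  0)]⟩,⟨0,[(0,0)]⟩⟩,.o ⟨false,0,⟨0,[(3,0)]⟩,⟨0,[(23,0)]⟩⟩,.o ⟨false,1,⟨0,[(1,0),(2,0)]⟩,⟨0,[(14,
  0)]⟩⟩,.a ⟨true,0,⟨0,[(30,0)]⟩,⟨0,[(27,0)]⟩⟩ ⟨true,0,⟨0,[(9,0),(17,0),(14,0)]⟩,⟨0,[(10,0)]⟩⟩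
  ⟨false,0,⟨0,[(3,0),(23,0)]⟩,⟨0,[(0,0),(29,0)]⟩⟩]⟩) (.Q [0,0,2,0,-1,0,0,0,1,0,0,1] (.p true [0,0,0,
  0,1] [] (⟨0,[(26,0)]⟩,⟨0,[(25,0)]⟩) .k 0 (⟨0,[]⟩,⟨0,[]⟩) .k .k) (.S ⟨1,0,[0,1,-1,-1],[0,-1,0,0,1],
  [1,2,-1,-2],(⟨2,[(3,0),(2,0),(20,1)]⟩,⟨0,[(26,0),(11,0)]⟩),⟨2,[(3,1),(2,1),(20,0)]⟩,(.r 0 ⟨0,[(41,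
  0)]⟩ ⟨3,[(12,1),(16,1),(1,0),(0,2),(10,3),(1,1)]⟩),(.r 0 ⟨0,[(8,0),(1,0),(4,0),(4,0),(22,0)]⟩ ⟨3,
  [(12,1),(16,1),(1,2),(0,4),(10,7),(1,1)]⟩),⟨true,0,⟨0,[(42,0)]⟩,⟨0,[(43,0)]⟩⟩,⟨false,1,⟨1,[(24,0),
  (0,0),(19,0)]⟩,⟨0,[]⟩⟩,⟨false,0,⟨0,[]⟩,⟨1,[(24,0),(0,0),(19,0)]⟩⟩,⟨true,0,⟨0,[(43,0)]⟩,⟨0,[(42,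
  0)]⟩⟩,[.e ⟨false,0,⟨4,[(17,3),(21,1),(2,1)]⟩,⟨1,[(31,0),(0,0),(10,3),(1,1)]⟩⟩ ⟨false,0,⟨0,[(18,
  0)]⟩,⟨3,[(12,1),(16,1),(1,0),(0,2),(10,3),(1,1)]⟩⟩,.o ⟨false,0,⟨3,[(0,1),(3,1),(12,1),(18,0),(8,
  0)]⟩,⟨0,[(24,0),(18,0)]⟩⟩,.o ⟨false,0,⟨1,[(0,0),(24,0),(10,0)]⟩,⟨0,[(2,0)]⟩⟩,.a ⟨true,(-1),⟨0,[(0,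
  0)]⟩,⟨1,[(2,1),(37,0),(3,0)]⟩⟩ ⟨false,0,⟨0,[(17,0)]⟩,⟨0,[(31,0),(0,0),(10,1),(1,0)]⟩⟩ ⟨true,0,⟨0,
  [(18,0)]⟩,⟨0,[(31,0),(0,0),(10,0)]⟩⟩]⟩) (.Q [0,-1,0,0,1,0,1,0,0,-1,1] (.p true [0,0,1] [1] (⟨0,
  [(34,0)]⟩,⟨0,[(33,0)]⟩) .k 1 (⟨0,[]⟩,⟨0,[]⟩) .k .k) (.R ⟨1,false,false,false,[-1,0,1,0,1],[0,0,0,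
  0,1],[0,1,0,0,0,0,0,1],(⟨0,[(4,0),(34,0)]⟩,⟨0,[(27,0),(6,0)]⟩),(⟨0,[(28,0)]⟩,⟨0,[(27,0)]⟩),⟨0,[(4,
  0)]⟩,.k,.k,(.r 0 ⟨0,[(11,0),(17,0)]⟩ ⟨1,[(13,1),(18,0),(0,0),(10,1)]⟩),.k,.k,.k,⟨true,0,⟨0,[(16,
  0),(0,0)]⟩,⟨0,[(12,0)]⟩⟩,⟨false,0,⟨0,[(29,0)]⟩,⟨2,[(0,1),(5,0),(18,0),(14,0)]⟩⟩,⟨false,1,⟨1,[(25,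
  0),(0,0),(19,0)]⟩,⟨0,[]⟩⟩,⟨true,0,⟨1,[(13,0),(2,0),(14,0),(9,0)]⟩,⟨0,[(11,0),(32,0)]⟩⟩,⟨true,0,⟨0,
  [(44,0)]⟩,⟨0,[(43,0)]⟩⟩,⟨true,0,⟨1,[(13,0),(2,0),(14,0),(9,0),(2,1)]⟩,⟨0,[(11,0)]⟩⟩,[.e ⟨false,0,
  ⟨0,[(11,0),(17,0),(14,0)]⟩,⟨0,[(13,0)]⟩⟩ ⟨false,0,⟨3,[(22,1),(17,1),(0,0),(3,0)]⟩,⟨0,[(0,0)]⟩⟩,.o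
  ⟨false,0,⟨0,[(5,0)]⟩,⟨0,[(25,0)]⟩⟩,.e ⟨false,0,⟨0,[(16,0),(0,0)]⟩,⟨0,[(13,0)]⟩⟩ ⟨false,0,⟨4,[(13,
  0),(8,2),(7,0),(10,0)]⟩,⟨0,[(0,0)]⟩⟩,.a ⟨true,0,⟨0,[(6,0)]⟩,⟨1,[(1,1),(14,0),(16,0),(7,1),(5,
  0)]⟩⟩ ⟨true,0,⟨0,[(11,0),(17,0),(14,0)]⟩,⟨0,[(12,0)]⟩⟩ ⟨false,0,⟨0,[(29,0)]⟩,⟨1,[(32,1),(4,0),(8,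
  0)]⟩⟩]⟩) (.Q [0,0,0,0,0,0,1,0,1,-1,1,1] (.p true [-1,0,1,0,1] [] (⟨0,[(4,0),(34,0)]⟩,⟨0,[(27,0),
  (6,0)]⟩) .k 0 (⟨0,[]⟩,⟨0,[]⟩) .k (.r 0 ⟨0,[(16,0),(13,0)]⟩ ⟨0,[(13,0)]⟩)) (.R ⟨1,false,false,
  false,[-1,0,1,0,1],[0,0,0,0,1],[0,1,0,0,0,0,0,1],(⟨0,[(5,0),(34,0)]⟩,⟨0,[(28,0),(6,0)]⟩),(⟨0,[(29,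
  0)]⟩,⟨0,[(28,0)]⟩),⟨0,[(5,0)]⟩,.k,.k,(.r 0 ⟨0,[(12,0),(17,0)]⟩ ⟨1,[(14,1),(18,0),(0,0),(10,1)]⟩),
  .k,.k,.k,⟨true,0,⟨0,[(17,0),(0,0)]⟩,⟨0,[(13,0)]⟩⟩,⟨false,0,⟨0,[(30,0)]⟩,⟨0,[(4,0),(2,0)]⟩⟩,⟨false,
  1,⟨1,[(26,0),(0,0),(19,0)]⟩,⟨0,[]⟩⟩,⟨true,0,⟨1,[(14,0),(2,0),(14,0),(9,0)]⟩,⟨0,[(12,0),(32,0)]⟩⟩,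
  ⟨true,0,⟨0,[(45,0)]⟩,⟨0,[(44,0)]⟩⟩,⟨true,0,⟨1,[(14,0),(2,0),(14,0),(9,0),(2,1)]⟩,⟨0,[(12,0)]⟩⟩,
  [.a ⟨true,(-1),⟨0,[(3,0)]⟩,⟨1,[(26,1),(15,0),(4,0)]⟩⟩ ⟨false,0,⟨0,[(12,0),(17,0),(14,0)]⟩,⟨0,[(14,
  0)]⟩⟩ ⟨true,(-1),⟨0,[(1,0)]⟩,⟨1,[(33,1),(4,0),(8,0)]⟩⟩,.o ⟨false,0,⟨0,[(6,0)]⟩,⟨0,[(26,0)]⟩⟩,.a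
  ⟨true,0,⟨0,[(0,0)]⟩,⟨5,[(1,1),(2,5),(29,3),(7,4),(4,0),(0,1)]⟩⟩ ⟨false,0,⟨0,[(17,0),(0,0)]⟩,⟨0,
  [(14,0)]⟩⟩ ⟨true,(-1),⟨0,[(1,0)]⟩,⟨0,[(4,0),(2,0)]⟩⟩,.a ⟨true,0,⟨0,[(7,0)]⟩,⟨1,[(1,1),(2,1),(37,
  0),(4,0)]⟩⟩ ⟨true,0,⟨0,[(12,0),(17,0),(14,0)]⟩,⟨0,[(13,0)]⟩⟩ ⟨false,0,⟨0,[(30,0)]⟩,⟨1,[(33,1),(4,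
  0),(8,0)]⟩⟩]⟩) (.Q [0,0,0,0,0,-1,0,0,0,1,0,-1] (.ed true [0,1,0,0,1] .k) (.R ⟨1,false,false,true,
  [1,0,0,0,-1],[2,0,-1,0,-1],[],(⟨0,[(29,0)]⟩,⟨0,[(30,0)]⟩),(⟨0,[(29,0),(6,0)]⟩,⟨0,[(6,0),(34,0)]⟩),
  ⟨0,[(0,0)]⟩,.k,.k,(.r (-1) ⟨5,[(10,0),(5,0),(5,2),(0,0),(24,1)]⟩ ⟨1,[(34,0),(0,0),(10,1),(3,1)]⟩),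
  .k,.k,.k,⟨true,0,⟨0,[(18,0),(0,0)]⟩,⟨0,[(14,0)]⟩⟩,⟨false,0,⟨0,[(31,0)]⟩,⟨0,[(5,0),(2,0)]⟩⟩,⟨true,
  0,⟨0,[(50,0)]⟩,⟨0,[]⟩⟩,⟨false,0,⟨1,[(15,0),(2,0),(14,0),(9,0)]⟩,⟨1,[(19,1),(19,0),(8,0)]⟩⟩,⟨false,
  0,⟨0,[(46,0)]⟩,⟨2,[(10,0),(5,0),(6,0),(24,1)]⟩⟩,⟨false,0,⟨1,[(15,0),(2,0),(14,0),(9,0),(2,1)]⟩,⟨0,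
  [(13,0),(34,0)]⟩⟩,[.e ⟨false,1,⟨1,[(27,0),(0,0),(18,0)]⟩,⟨0,[]⟩⟩ ⟨false,0,⟨1,[(11,0),(3,0),(2,1),
  (24,0),(2,0)]⟩,⟨1,[(32,1),(6,0),(8,0)]⟩⟩,.o ⟨false,1,⟨0,[(1,0),(13,0)]⟩,⟨0,[(7,0),(5,0),(32,0)]⟩⟩,
  .o ⟨false,1,⟨0,[(27,0)]⟩,⟨0,[(7,0)]⟩⟩,.a ⟨true,0,⟨0,[(1,0),(32,0)]⟩,⟨1,[(4,0),(17,0),(5,0),(17,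
  0)]⟩⟩ ⟨false,1,⟨1,[(47,0),(0,0)]⟩,⟨1,[(34,0),(0,0)]⟩⟩ ⟨true,0,⟨1,[(11,0),(3,0),(2,1),(24,0),(2,
  0)]⟩,⟨1,[(13,1),(20,0),(0,0),(10,1)]⟩⟩]⟩) (.R ⟨0,false,false,false,[1,0,0,0,-1],[0,-1,1],[0,0,-1,
  -1,0,0,0,1],(⟨0,[(29,0)]⟩,⟨0,[(30,0)]⟩),(⟨0,[(26,0)]⟩,⟨0,[(36,0),(4,0)]⟩),⟨0,[(0,0)]⟩,.k,.k,(.r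
  (-1) ⟨5,[(10,0),(5,0),(5,2),(0,0),(24,1)]⟩ ⟨1,[(34,0),(0,0),(10,1),(3,1)]⟩),(.r (-1) ⟨1,[(15,1),
  (18,0),(0,0),(10,1)]⟩ ⟨0,[(13,0),(17,0)]⟩),.k,.k,⟨false,1,⟨1,[(27,0),(0,0),(18,0)]⟩,⟨0,[]⟩⟩,⟨true,
  0,⟨0,[(8,0)]⟩,⟨0,[(1,0)]⟩⟩,⟨true,0,⟨0,[(13,0),(17,0)]⟩,⟨0,[(14,0),(31,0)]⟩⟩,⟨false,0,⟨0,[(7,0),(9,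
  0)]⟩,⟨0,[(1,0),(13,0),(30,0)]⟩⟩,⟨false,0,⟨0,[]⟩,⟨0,[]⟩⟩,⟨false,0,⟨0,[]⟩,⟨0,[]⟩⟩,[.a ⟨true,0,⟨0,
  [(17,0)]⟩,⟨1,[(15,0),(2,0),(14,0),(9,0),(2,1)]⟩⟩ ⟨false,1,⟨1,[(13,0),(5,0),(2,0),(1,0),(22,0)]⟩,
  ⟨0,[(14,0),(31,0)]⟩⟩ ⟨true,0,⟨0,[(7,0),(9,0)]⟩,⟨0,[(1,0),(12,0),(31,0)]⟩⟩,.o ⟨false,1,⟨0,[(13,0),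
  (34,0)]⟩,⟨0,[(33,0),(12,0)]⟩⟩,.o ⟨false,1,⟨0,[(27,0)]⟩,⟨0,[(7,0)]⟩⟩,.e ⟨false,1,⟨0,[(18,0),(0,0),
  (2,0)]⟩,⟨1,[(14,1),(19,0),(0,0),(10,1)]⟩⟩ ⟨false,1,⟨1,[(7,0),(5,0),(5,0),(2,0),(5,0),(19,0)]⟩,⟨0,
  [(1,0),(12,0),(31,0)]⟩⟩]⟩))))))) (.Q [0,0,0,2,-1,0,0,0,1,0,0,1] (.p true [0,0,0,0,1] [] (⟨0,[(24,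
  0)]⟩,⟨0,[(23,0)]⟩) .k 0 (⟨0,[]⟩,⟨0,[]⟩) .k .k) (.Q [0,0,0,0,1,0,1,0,-1,0,1,-1] (.p true [0,0,1]
  [0,0,0,0,1] (⟨0,[(32,0)]⟩,⟨0,[(31,0)]⟩) .k 2 (⟨0,[(25,0)]⟩,⟨0,[(24,0)]⟩) .k (.r (-1) ⟨3,[(14,1),
  (4,1),(7,1),(6,0),(8,2)]⟩ ⟨9,[(0,0),(5,1),(2,7),(12,0),(14,3)]⟩)) (.K ⟨0,[0,0,0,0,1],(-1),(-1),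
  (⟨0,[(26,0)]⟩,⟨0,[(25,0)]⟩),.k,(.r 0 ⟨0,[(40,0)]⟩ ⟨1,[(0,1),(0,0),(22,0),(6,1),(12,0)]⟩),(.r 0 ⟨3,
  [(0,1),(0,1),(28,0),(0,2),(14,3)]⟩ ⟨5,[(6,0),(5,0),(5,2),(0,0),(24,1)]⟩),.k,.k,[⟨0,[(0,0)]⟩,⟨0,
  [(1,0),(7,0),(0,0),(3,0),(4,0)]⟩,⟨0,[(23,0)]⟩,⟨4,[(1,2),(7,1),(2,1),(16,1),(9,1),(1,1)]⟩]⟩) (.Q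
  [0,0,0,0,0,-1,0,0,0,0,0,1] (.ed false [1,-1,0,0,1] .k) (.S ⟨1,0,[0,1],[0,0,0,0,1],[0,2],(⟨0,[(27,
  0)]⟩,⟨0,[(26,0)]⟩),⟨0,[(0,0)]⟩,.k,(.r 0 ⟨0,[(41,0)]⟩ ⟨3,[(2,1),(9,1),(11,1),(4,1),(1,0),(0,2),(12,
  1)]⟩),⟨true,0,⟨0,[(47,0)]⟩,⟨0,[]⟩⟩,⟨false,1,⟨1,[(24,0),(0,0),(19,0)]⟩,⟨0,[]⟩⟩,⟨false,0,⟨0,[(43,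
  0)]⟩,⟨2,[(7,0),(5,0),(6,0),(24,1)]⟩⟩,⟨true,0,⟨0,[(43,0)]⟩,⟨0,[(42,0)]⟩⟩,[.e ⟨false,0,⟨0,[(39,0)]⟩,
  ⟨0,[(45,0)]⟩⟩ ⟨false,0,⟨5,[(2,0),(15,1),(5,0),(14,1)]⟩,⟨1,[(24,0),(0,0),(19,0)]⟩⟩,.o ⟨false,0,⟨0,
  [(4,0)]⟩,⟨0,[(24,0)]⟩⟩,.o ⟨false,0,⟨0,[(4,0)]⟩,⟨0,[(24,0)]⟩⟩,.a ⟨true,(-1),⟨0,[(1,0),(29,0)]⟩,⟨1,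
  [(24,1),(15,0),(3,0)]⟩⟩ ⟨false,0,⟨5,[(2,0),(15,1),(5,0),(14,1)]⟩,⟨1,[(31,0),(0,0),(12,1)]⟩⟩ ⟨true,
  0,⟨5,[(2,0),(15,1),(5,0),(14,1)]⟩,⟨1,[(31,0),(0,0)]⟩⟩]⟩) (.K ⟨0,[0,1,0,0,-1],1,1,(⟨0,[(0,0)]⟩,⟨0,
  [(27,0),(9,0)]⟩),(.r (-1) ⟨3,[(2,1),(9,1),(11,1),(4,1),(1,0),(0,2),(12,1)]⟩ ⟨0,[(41,0)]⟩),.k,(.r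
  (-1) ⟨3,[(2,3),(9,1),(11,3),(4,1),(1,2),(0,4),(12,1)]⟩ ⟨0,[(1,0),(5,0),(0,0),(1,0),(9,0),(22,
  1)]⟩),(.r (-1) ⟨1,[(2,0),(9,1),(11,0),(6,0),(0,0)]⟩ ⟨0,[(10,0),(17,0)]⟩),.k,[⟨0,[(2,0),(7,0),(0,
  0),(8,0)]⟩,⟨0,[(24,0)]⟩,⟨44,[(1,14),(0,8),(5,4),(1,20),(0,9),(1,20),(16,5),(9,20),(1,15)]⟩,⟨1,[(2,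
  0),(21,2)]⟩]⟩))) (.Q [0,1,0,0,-1,0,0,0,1,0,0,1] (.p true [0,0,0,0,1] [] (⟨0,[(25,0)]⟩,⟨0,[(24,
  0)]⟩) .k 0 (⟨0,[]⟩,⟨0,[]⟩) .k .k) (.Q [0,0,1,0,-1,0,0,0,1,0,0,1] (.p true [0,0,0,0,1] [] (⟨0,[(26,
  0)]⟩,⟨0,[(25,0)]⟩) .k 0 (⟨0,[]⟩,⟨0,[]⟩) .k .k) (.Q [0,0,0,0,0,-1,0,0,0,0,0,1] (.ed false [1,-1,0,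
  0,1] .k) (.S ⟨1,0,[0,1],[0,0,0,0,1],[0,2],(⟨0,[(28,0)]⟩,⟨0,[(27,0)]⟩),⟨0,[(0,0)]⟩,.k,(.r 0 ⟨0,
  [(42,0)]⟩ ⟨3,[(13,1),(16,1),(1,0),(0,2),(10,3),(1,1)]⟩),⟨true,0,⟨0,[(48,0)]⟩,⟨0,[]⟩⟩,⟨false,1,⟨1,
  [(25,0),(0,0),(19,0)]⟩,⟨0,[]⟩⟩,⟨false,0,⟨0,[(44,0)]⟩,⟨1,[(3,0),(22,0),(19,0)]⟩⟩,⟨true,0,⟨0,[(44,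
  0)]⟩,⟨0,[(43,0)]⟩⟩,[.e ⟨false,0,⟨0,[(40,0)]⟩,⟨0,[(46,0)]⟩⟩ ⟨false,0,⟨2,[(19,0),(20,0),(3,0)]⟩,⟨1,
  [(25,0),(0,0),(19,0)]⟩⟩,.o ⟨false,0,⟨0,[(5,0)]⟩,⟨0,[(25,0)]⟩⟩,.o ⟨false,0,⟨0,[(5,0)]⟩,⟨0,[(25,
  0)]⟩⟩,.a ⟨true,(-1),⟨0,[(1,0)]⟩,⟨1,[(25,1),(15,0),(3,0)]⟩⟩ ⟨false,0,⟨2,[(19,0),(20,0),(3,0)]⟩,⟨1,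
  [(32,0),(0,0),(12,1)]⟩⟩ ⟨true,0,⟨2,[(19,0),(20,0),(3,0)]⟩,⟨1,[(32,0),(0,0)]⟩⟩]⟩) (.R ⟨0,false,
  false,true,[0,1,0,0,-1],[0,0,1,0,-1],[1,-1,1,1],(⟨0,[(0,0)]⟩,⟨0,[(28,0),(9,0)]⟩),(⟨0,[(0,0),(23,
  0)]⟩,⟨0,[(28,0),(5,0)]⟩),⟨0,[(28,0)]⟩,(.r (-1) ⟨3,[(13,1),(16,1),(1,0),(0,2),(10,3),(1,1)]⟩ ⟨0,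
  [(42,0)]⟩),.k,.k,.k,.k,.k,⟨false,1,⟨0,[(13,0),(30,0)]⟩,⟨0,[(11,0),(17,0)]⟩⟩,⟨true,0,⟨0,[(32,0)]⟩,
  ⟨0,[(16,0)]⟩⟩,⟨true,0,⟨0,[]⟩,⟨0,[(48,0)]⟩⟩,⟨false,0,⟨0,[(15,0)]⟩,⟨0,[(13,0),(2,0),(27,0)]⟩⟩,
  ⟨false,0,⟨0,[]⟩,⟨0,[]⟩⟩,⟨false,0,⟨0,[]⟩,⟨0,[]⟩⟩,[.e ⟨false,1,⟨1,[(25,0),(0,0),(17,1),(1,0)]⟩,⟨0,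
  [(42,0)]⟩⟩ ⟨false,0,⟨0,[(17,0)]⟩,⟨1,[(13,0),(2,0),(14,0),(13,0)]⟩⟩,.o ⟨false,2,⟨1,[(17,1),(7,1),
  (11,0),(8,0)]⟩,⟨1,[(1,1),(7,0),(6,0),(14,0),(12,0)]⟩⟩,.o ⟨false,2,⟨1,[(25,1),(11,0),(7,0)]⟩,⟨0,
  [(1,0)]⟩⟩,.a ⟨true,1,⟨0,[(25,0)]⟩,⟨3,[(1,1),(0,0),(17,0),(5,0),(14,1),(2,0)]⟩⟩ ⟨false,1,⟨0,[(44,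
  0),(1,0)]⟩,⟨0,[(43,0)]⟩⟩ ⟨true,0,⟨0,[(17,0)]⟩,⟨0,[(31,0)]⟩⟩]⟩)) (.Q [0,0,0,0,0,0,0,0,0,1,-1,-1]
  (.ed true [0,0,1,0,1] (.r 0 ⟨0,[(15,0),(13,0)]⟩ ⟨0,[(12,0)]⟩)) (.Q [0,0,-1,0,0,0,0,0,1,-1,0,1]
  (.p true [0,0,0,0,1] [1] (⟨0,[(28,0)]⟩,⟨0,[(27,0)]⟩) .k 1 (⟨0,[]⟩,⟨0,[]⟩) .k .k) (.S ⟨1,0,[0,2,0,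
  0,0,0,0,1],[0,0,1,0,1],[1,1,0,-1,0,0,0,1],(⟨0,[(29,0),(6,0)]⟩,⟨0,[(1,0)]⟩),⟨0,[(25,0),(3,0)]⟩,.k,
  (.r 0 ⟨0,[(12,0),(17,0)]⟩ ⟨1,[(14,1),(18,0),(0,0),(10,1)]⟩),⟨false,1,⟨1,[(4,0),(22,0),(19,0)]⟩,⟨0,
  [(45,0)]⟩⟩,⟨true,0,⟨0,[(49,0)]⟩,⟨0,[]⟩⟩,⟨true,0,⟨0,[]⟩,⟨0,[(49,0)]⟩⟩,⟨false,0,⟨0,[(45,0)]⟩,⟨1,[(4,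
  0),(22,0),(19,0)]⟩⟩,[.o ⟨false,(-1),⟨0,[(3,0),(8,0),(32,0)]⟩,⟨0,[(2,0),(10,0),(3,0),(29,0)]⟩⟩,.a
  ⟨true,(-1),⟨0,[(3,0),(14,0)]⟩,⟨1,[(2,1),(10,1),(3,1),(24,0),(4,0)]⟩⟩ ⟨true,0,⟨0,[(16,0),(0,0)]⟩,
  ⟨0,[(13,0),(31,0)]⟩⟩ ⟨false,0,⟨0,[(12,0),(17,0),(14,0)]⟩,⟨0,[(14,0)]⟩⟩,.o ⟨false,0,⟨0,[(0,0),(32,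
  0)]⟩,⟨0,[(2,0),(31,0)]⟩⟩,.o ⟨false,0,⟨0,[(7,0)]⟩,⟨0,[(2,0),(14,0)]⟩⟩]⟩) (.R ⟨1,false,false,false,
  [1,0,0,0,-1],[1,0,-1,0,-1],[],(⟨0,[(28,0)]⟩,⟨0,[(29,0)]⟩),(⟨0,[(1,0)]⟩,⟨0,[(29,0),(6,0)]⟩),⟨0,[(1,
  0),(23,0)]⟩,.k,.k,(.r (-1) ⟨3,[(4,0),(16,1),(5,0),(19,0)]⟩ ⟨2,[(0,0),(6,0),(26,0),(10,2),(3,2)]⟩),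
  .k,.k,.k,⟨false,0,⟨0,[(12,0),(17,0),(14,0)]⟩,⟨0,[(14,0)]⟩⟩,⟨true,0,⟨0,[(17,0)]⟩,⟨0,[(33,0)]⟩⟩,
  ⟨true,0,⟨0,[(49,0)]⟩,⟨0,[]⟩⟩,⟨false,1,⟨0,[(14,0),(2,0)]⟩,⟨0,[(18,0)]⟩⟩,⟨false,0,⟨0,[(45,0)]⟩,⟨1,
  [(4,0),(22,0),(19,0)]⟩⟩,⟨false,1,⟨0,[(14,0),(2,0),(27,0)]⟩,⟨0,[(16,0)]⟩⟩,[.e ⟨false,1,⟨1,[(26,0),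
  (0,0),(18,0)]⟩,⟨0,[]⟩⟩ ⟨false,1,⟨1,[(10,0),(3,0),(2,1),(27,0),(1,0)]⟩,⟨0,[(31,0)]⟩⟩,.o ⟨false,2,
  ⟨0,[(2,0),(10,0),(3,0),(29,0)]⟩,⟨0,[(3,0),(8,0),(32,0)]⟩⟩,.o ⟨false,1,⟨0,[(26,0)]⟩,⟨0,[(6,0)]⟩⟩,
  .a ⟨true,0,⟨0,[(0,0)]⟩,⟨1,[(3,0),(17,0),(5,0),(17,0)]⟩⟩ ⟨false,1,⟨1,[(46,0),(0,0)]⟩,⟨2,[(0,0),(6,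
  0),(26,0)]⟩⟩ ⟨true,1,⟨1,[(10,0),(3,0),(2,1),(27,0),(1,0)]⟩,⟨0,[(0,0),(2,0),(8,0),(32,0)]⟩⟩]⟩))
  (.Q [0,0,2,0,-1,0,0,0,1,0,0,1] (.p true [0,0,0,0,1] [] (⟨0,[(28,0)]⟩,⟨0,[(27,0)]⟩) .k 0 (⟨0,[]⟩,
  ⟨0,[]⟩) .k .k) (.S ⟨1,0,[0,1,-1,-1],[0,-1,0,0,1],[1,2,-1,-2],(⟨1,[(1,0),(6,0),(20,0)]⟩,⟨0,[(28,0),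
  (11,0)]⟩),⟨0,[(1,0),(6,0)]⟩,(.r 0 ⟨0,[(43,0)]⟩ ⟨3,[(14,1),(16,1),(1,0),(0,2),(10,3),(1,1)]⟩),(.r
  0 ⟨0,[(10,0),(1,0),(4,0),(4,0),(22,0)]⟩ ⟨3,[(14,1),(16,1),(1,2),(0,4),(10,7),(1,1)]⟩),⟨true,0,⟨0,
  [(44,0)]⟩,⟨0,[(45,0)]⟩⟩,⟨false,1,⟨1,[(26,0),(0,0),(19,0)]⟩,⟨0,[]⟩⟩,⟨false,0,⟨0,[]⟩,⟨1,[(26,0),(0,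
  0),(19,0)]⟩⟩,⟨true,0,⟨0,[(45,0)]⟩,⟨0,[(44,0)]⟩⟩,[.e ⟨false,0,⟨4,[(19,3),(21,1),(2,1)]⟩,⟨1,[(33,0),
  (0,0),(10,3),(1,1)]⟩⟩ ⟨false,0,⟨0,[(20,0)]⟩,⟨3,[(14,1),(16,1),(1,0),(0,2),(10,3),(1,1)]⟩⟩,.o
  ⟨false,0,⟨3,[(0,1),(5,1),(12,1),(18,0),(8,0)]⟩,⟨0,[(26,0),(18,0)]⟩⟩,.o ⟨false,0,⟨1,[(6,0),(0,0),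
  (26,0)]⟩,⟨0,[(2,0)]⟩⟩,.a ⟨true,(-1),⟨0,[(0,0)]⟩,⟨1,[(2,1),(39,0),(3,0)]⟩⟩ ⟨false,0,⟨0,[(19,0)]⟩,
  ⟨0,[(33,0),(0,0),(10,1),(1,0)]⟩⟩ ⟨true,0,⟨0,[(20,0)]⟩,⟨0,[(33,0),(0,0),(10,0)]⟩⟩]⟩) (.Q [0,-1,0,0,
  1,0,1,0,0,-1,1] (.p true [0,0,1] [1] (⟨0,[(36,0)]⟩,⟨0,[(35,0)]⟩) .k 1 (⟨0,[]⟩,⟨0,[]⟩) .k .k) (.R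
  ⟨0,false,false,false,[-1,0,1,0,1],[0,0,0,0,1],[0,1,0,0,0,0,0,1],(⟨0,[(2,0)]⟩,⟨0,[(6,0),(33,0)]⟩),
  (⟨0,[(30,0)]⟩,⟨0,[(29,0)]⟩),⟨0,[(6,0)]⟩,.k,.k,(.r 0 ⟨0,[(13,0),(17,0)]⟩ ⟨1,[(15,1),(18,0),(0,0),
  (10,1)]⟩),.k,.k,.k,⟨true,0,⟨0,[(18,0),(0,0)]⟩,⟨0,[(14,0)]⟩⟩,⟨false,0,⟨0,[(31,0)]⟩,⟨2,[(0,1),(7,0),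
  (18,0),(14,0)]⟩⟩,⟨false,1,⟨1,[(27,0),(0,0),(19,0)]⟩,⟨0,[]⟩⟩,⟨true,0,⟨1,[(15,0),(2,0),(14,0),(9,
  0)]⟩,⟨0,[(13,0),(32,0)]⟩⟩,⟨false,0,⟨0,[]⟩,⟨0,[]⟩⟩,⟨false,0,⟨0,[]⟩,⟨0,[]⟩⟩,[.e ⟨false,0,⟨0,[(13,0),
  (17,0),(14,0)]⟩,⟨0,[(15,0)]⟩⟩ ⟨false,0,⟨3,[(24,1),(17,1),(0,0),(3,0)]⟩,⟨0,[(0,0)]⟩⟩,.o ⟨false,0,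
  ⟨0,[(7,0)]⟩,⟨0,[(27,0)]⟩⟩,.e ⟨false,0,⟨0,[(18,0),(0,0)]⟩,⟨0,[(15,0)]⟩⟩ ⟨false,0,⟨4,[(15,0),(8,2),
  (7,0),(10,0)]⟩,⟨0,[(0,0)]⟩⟩,.a ⟨true,0,⟨0,[(8,0)]⟩,⟨1,[(1,1),(16,0),(16,0),(7,1),(5,0)]⟩⟩ ⟨true,0,
  ⟨0,[(13,0),(17,0),(14,0)]⟩,⟨0,[(14,0)]⟩⟩ ⟨false,0,⟨0,[(31,0)]⟩,⟨1,[(0,1),(33,0),(0,0)]⟩⟩]⟩) (.Q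
  [0,0,0,0,0,0,-1,0,-1,1,-1,-1] (.p false [-1,0,1,0,1] [] (⟨0,[(2,0)]⟩,⟨0,[(6,0),(33,0)]⟩) .k 0 (⟨0,
  []⟩,⟨0,[]⟩) .k (.r 0 ⟨0,[(18,0),(13,0)]⟩ ⟨0,[(15,0)]⟩)) (.R ⟨0,false,false,true,[-1,0,1,0,1],[1,0,
  -1],[0,1],(⟨0,[(3,0)]⟩,⟨0,[(7,0),(33,0)]⟩),(⟨0,[(37,0)]⟩,⟨0,[(38,0)]⟩),⟨0,[(7,0)]⟩,.k,.k,(.r 0 ⟨0,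
  [(14,0),(17,0)]⟩ ⟨1,[(16,1),(18,0),(0,0),(10,1)]⟩),.k,.k,.k,⟨true,0,⟨0,[(19,0),(0,0)]⟩,⟨0,[(15,
  0)]⟩⟩,⟨false,0,⟨0,[(0,0),(31,0)]⟩,⟨0,[(2,0),(6,1)]⟩⟩,⟨false,1,⟨0,[(16,0)]⟩,⟨0,[(19,0),(0,0)]⟩⟩,
  ⟨true,0,⟨1,[(0,1),(0,1),(10,0),(2,1),(0,0),(30,0),(1,0)]⟩,⟨0,[(8,0),(5,0),(5,0),(26,0)]⟩⟩,⟨false,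
  0,⟨0,[]⟩,⟨0,[]⟩⟩,⟨false,0,⟨0,[]⟩,⟨0,[]⟩⟩,[.o ⟨false,0,⟨0,[(34,0)]⟩,⟨1,[(20,1),(19,0),(8,0)]⟩⟩,.e
  ⟨false,1,⟨1,[(28,0),(0,0),(18,0)]⟩,⟨0,[]⟩⟩ ⟨false,0,⟨1,[(0,1),(0,1),(10,0),(3,0),(30,0),(1,0)]⟩,
  ⟨1,[(9,1),(10,1),(19,0),(7,0)]⟩⟩,.o ⟨false,1,⟨1,[(9,1),(30,0),(7,0)]⟩,⟨0,[(0,0)]⟩⟩,.a ⟨true,0,⟨0,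
  [(9,0)]⟩,⟨1,[(0,1),(43,0),(3,0)]⟩⟩ ⟨true,0,⟨2,[(22,0),(20,0),(3,0)]⟩,⟨1,[(35,0),(0,0)]⟩⟩ ⟨false,0,
  ⟨1,[(0,1),(0,1),(10,0),(3,0),(30,0),(1,0)]⟩,⟨1,[(9,1),(10,1),(19,0),(8,0)]⟩⟩]⟩) (.R ⟨0,false,
  false,false,[-1,0,1,0,1],[0,0,0,0,1],[0,1,0,0,0,0,0,1],(⟨0,[(3,0)]⟩,⟨0,[(7,0),(33,0)]⟩),(⟨0,[(31,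
  0)]⟩,⟨0,[(30,0)]⟩),⟨0,[(7,0)]⟩,.k,.k,(.r 0 ⟨0,[(14,0),(17,0)]⟩ ⟨1,[(16,1),(18,0),(0,0),(10,1)]⟩),
  .k,.k,.k,⟨true,0,⟨0,[(19,0),(0,0)]⟩,⟨0,[(15,0)]⟩⟩,⟨false,0,⟨0,[(32,0)]⟩,⟨0,[(4,0),(4,0)]⟩⟩,⟨false,
  1,⟨1,[(28,0),(0,0),(19,0)]⟩,⟨0,[]⟩⟩,⟨true,0,⟨0,[(1,0),(14,0)]⟩,⟨0,[(14,0),(32,0)]⟩⟩,⟨false,0,⟨0,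
  []⟩,⟨0,[]⟩⟩,⟨false,0,⟨0,[]⟩,⟨0,[]⟩⟩,[.a ⟨true,(-1),⟨0,[(5,0)]⟩,⟨1,[(28,1),(15,0),(4,0)]⟩⟩ ⟨false,
  0,⟨0,[(14,0),(17,0),(14,0)]⟩,⟨0,[(16,0)]⟩⟩ ⟨true,(-1),⟨0,[(1,0)]⟩,⟨1,[(35,1),(4,0),(8,0)]⟩⟩,.o
  ⟨false,0,⟨0,[(8,0)]⟩,⟨0,[(28,0)]⟩⟩,.a ⟨true,0,⟨0,[(0,0)]⟩,⟨1,[(1,1),(26,1),(15,0),(4,0)]⟩⟩ ⟨false,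
  0,⟨0,[(19,0),(0,0)]⟩,⟨0,[(16,0)]⟩⟩ ⟨true,(-1),⟨0,[(1,0)]⟩,⟨0,[(4,0),(4,0)]⟩⟩,.a ⟨true,0,⟨0,[(9,
  0)]⟩,⟨1,[(1,1),(2,1),(39,0),(4,0)]⟩⟩ ⟨true,0,⟨0,[(14,0),(17,0),(14,0)]⟩,⟨0,[(15,0)]⟩⟩ ⟨false,0,⟨0,
  [(32,0)]⟩,⟨1,[(35,1),(4,0),(8,0)]⟩⟩]⟩)))))) (.R ⟨1,false,false,false,[0,0,1],[0,0,0,0,1],[0,1,0,0,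
  0,0,0,1],(⟨0,[(33,0)]⟩,⟨0,[(32,0)]⟩),(⟨0,[(26,0)]⟩,⟨0,[(25,0)]⟩),⟨0,[(22,0)]⟩,.k,.k,.k,.k,(.r
  (-1) ⟨1,[(9,0),(5,0),(2,0),(1,0),(23,0)]⟩ ⟨0,[(10,0),(31,0),(3,0)]⟩),.k,⟨true,0,⟨0,[(14,0),(0,
  0)]⟩,⟨0,[(10,0)]⟩⟩,⟨false,0,⟨0,[(3,0),(23,0)]⟩,⟨2,[(0,1),(6,0),(15,0),(4,0),(1,1),(11,0)]⟩⟩,⟨true,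
  0,⟨0,[(46,0)]⟩,⟨0,[]⟩⟩,⟨false,0,⟨1,[(3,1),(7,0),(2,0),(14,0),(9,0)]⟩,⟨0,[(0,0),(14,0)]⟩⟩,⟨false,0,
  ⟨0,[(42,0)]⟩,⟨1,[(1,0),(22,0),(19,0)]⟩⟩,⟨false,0,⟨1,[(3,1),(7,0),(2,0),(14,0),(9,0),(2,1)]⟩,⟨0,
  [(0,0),(12,0)]⟩⟩,[.o ⟨false,0,⟨0,[(8,0)]⟩,⟨0,[(0,0)]⟩⟩,.o ⟨false,0,⟨0,[(3,0)]⟩,⟨0,[(23,0)]⟩⟩,.o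
  ⟨false,1,⟨1,[(30,1),(4,0),(7,0)]⟩,⟨0,[(14,0)]⟩⟩,.a ⟨true,0,⟨0,[(30,0)]⟩,⟨0,[(27,0)]⟩⟩ ⟨true,0,⟨0,
  [(9,0),(17,0),(14,0)]⟩,⟨0,[(10,0)]⟩⟩ ⟨false,0,⟨0,[(3,0),(23,0)]⟩,⟨0,[(0,0),(29,0)]⟩⟩]⟩)))) (.Q [0,
  0,0,0,0,-1,0,0,0,0,0,1] (.ed false [1,-1,0,0,1] .k) (.K ⟨0,[1,1,0,0,-1],0,0,(⟨0,[(23,0),(11,0)]⟩,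
  ⟨0,[(0,0)]⟩),(.r (-1) ⟨3,[(9,1),(16,1),(1,0),(0,2),(10,3),(1,1)]⟩ ⟨0,[(38,0)]⟩),.k,(.r (-1) ⟨3,
  [(9,1),(16,1),(1,2),(0,4),(10,7),(1,1)]⟩ ⟨0,[(5,0),(1,0),(4,0),(4,0),(22,0)]⟩),(.r (-1) ⟨1,[(9,1),
  (18,0),(0,0),(10,1)]⟩ ⟨0,[(7,0),(17,0)]⟩),.k,[⟨0,[(2,0)]⟩,⟨0,[(1,0)]⟩,⟨0,[(10,0)]⟩,⟨0,[(1,0),(38,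
  0)]⟩]⟩) (.R ⟨0,false,false,false,[0,0,0,0,1],[0,1],[1,0,1,1],(⟨0,[(24,0)]⟩,⟨0,[(23,0)]⟩),(⟨0,[(35,
  0)]⟩,⟨0,[(34,0)]⟩),⟨0,[(0,0)]⟩,.k,.k,(.r 0 ⟨0,[(38,0)]⟩ ⟨3,[(9,1),(16,1),(1,0),(0,2),(10,3),(1,
  1)]⟩),(.r 0 ⟨0,[(38,0)]⟩ ⟨3,[(9,1),(16,1),(1,0),(0,2),(10,3),(1,1)]⟩),.k,.k,⟨true,0,⟨0,[]⟩,⟨1,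
  [(28,0),(0,0)]⟩⟩,⟨false,1,⟨1,[(1,1),(13,0),(0,0),(16,0),(6,1)]⟩,⟨1,[(22,1),(5,0),(0,0)]⟩⟩,⟨false,
  1,⟨1,[(28,0),(0,0),(10,1),(1,1)]⟩,⟨0,[(38,0)]⟩⟩,⟨true,1,⟨1,[(1,1),(31,0),(6,1),(1,0)]⟩,⟨1,[(2,1),
  (2,0),(1,1),(4,2),(14,0),(9,1),(2,0)]⟩⟩,⟨false,0,⟨0,[]⟩,⟨0,[]⟩⟩,⟨false,0,⟨0,[]⟩,⟨0,[]⟩⟩,[.e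
  ⟨false,0,⟨0,[(40,0)]⟩,⟨5,[(4,2),(5,0),(5,0),(0,0),(4,1),(18,1)]⟩⟩ ⟨false,1,⟨1,[(1,1),(31,0),(6,1),
  (0,0)]⟩,⟨2,[(2,0),(11,0),(2,0),(4,1),(6,0)]⟩⟩,.o ⟨false,1,⟨1,[(33,0),(6,1),(1,0)]⟩,⟨0,[(39,0)]⟩⟩,
  .a ⟨true,0,⟨0,[(22,0)]⟩,⟨0,[(1,0)]⟩⟩ ⟨true,0,⟨1,[(28,0),(0,0),(10,1)]⟩,⟨0,[(38,0)]⟩⟩ ⟨false,1,⟨1,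
  [(1,1),(31,0),(6,1),(1,0)]⟩,⟨2,[(2,0),(11,0),(2,0),(4,1),(6,0)]⟩⟩,.o ⟨false,0,⟨0,[(2,0),(9,0)]⟩,
  ⟨1,[(1,1),(31,0),(7,0)]⟩⟩]⟩))))))

theorem ok54 : chk K t54 r35 = true := by decide +kernel

noncomputable def t59 : Tre :=
  (.I [0,-1,0,1,1,0,0,-1] (.S ⟨1,0,[0,0,0,0,0,0,0,1],[0,0,1],[1,1,0,-1,0,0,0,1],(⟨0,[(23,0)]⟩,⟨0,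
  [(22,0)]⟩),⟨0,[(12,0)]⟩,.k,.k,⟨true,0,⟨0,[(31,0)]⟩,⟨0,[(32,0)]⟩⟩,⟨false,1,⟨1,[(13,0),(0,0),(19,
  0)]⟩,⟨0,[]⟩⟩,⟨false,0,⟨0,[]⟩,⟨1,[(13,0),(0,0),(19,0)]⟩⟩,⟨true,0,⟨0,[(32,0)]⟩,⟨0,[(31,0)]⟩⟩,[.e
  ⟨false,0,⟨5,[(1,1),(1,0),(2,1),(1,0),(1,1),(7,2),(6,0)]⟩,⟨0,[(0,0)]⟩⟩ ⟨false,0,⟨1,[(1,1),(31,0),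
  (0,0)]⟩,⟨0,[(0,0),(30,0)]⟩⟩,.o ⟨false,1,⟨1,[(5,1),(19,0),(8,0)]⟩,⟨0,[(19,0)]⟩⟩,.o ⟨false,1,⟨1,
  [(20,1),(4,0),(7,0)]⟩,⟨0,[(4,0)]⟩⟩,.a ⟨true,0,⟨0,[(20,0)]⟩,⟨0,[(17,0)]⟩⟩ ⟨false,0,⟨11,[(1,7),(1,
  3),(2,1),(1,3),(1,1),(14,0),(8,2)]⟩,⟨1,[(0,1),(19,0),(0,0)]⟩⟩ ⟨true,0,⟨1,[(1,1),(31,0),(0,0)]⟩,⟨0,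
  [(19,0),(0,0)]⟩⟩]⟩) (.Q [0,-1,0,0,0,0,0,0,-1,1,0,-1] (.p false [0,0,0,0,1] [1] (⟨0,[(16,0)]⟩,⟨0,
  [(15,0)]⟩) .k 1 (⟨0,[]⟩,⟨0,[]⟩) .k .k) (.Q [0,0,0,0,0,1,0,0,0,-1,0,1] (.ed false [0,1,0,0,1] .k)
  (.R ⟨0,false,false,true,[1,0,0,0,-1],[1,0,1,0,-1],[1,1,1],(⟨0,[(17,0)]⟩,⟨0,[(18,0)]⟩),(⟨0,[(17,0),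
  (7,0)]⟩,⟨0,[(0,0),(12,0)]⟩),⟨0,[(0,0)]⟩,.k,.k,(.r (-1) ⟨1,[(10,0),(22,0),(2,0)]⟩ ⟨1,[(22,0),(0,0),
  (10,1),(3,1)]⟩),.k,.k,.k,⟨true,0,⟨0,[(21,0),(0,0)]⟩,⟨0,[(3,0),(32,0)]⟩⟩,⟨false,1,⟨0,[(22,0),(12,
  0)]⟩,⟨0,[(6,0)]⟩⟩,⟨true,(-1),⟨0,[(3,0),(17,0),(0,0)]⟩,⟨1,[(35,0),(0,0)]⟩⟩,⟨false,0,⟨0,[(7,0)]⟩,⟨0,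
  [(21,0),(14,0)]⟩⟩,⟨false,0,⟨0,[]⟩,⟨0,[]⟩⟩,⟨false,0,⟨0,[]⟩,⟨0,[]⟩⟩,[.o ⟨false,0,⟨3,[(1,3),(1,1),(3,
  0),(1,0),(10,0),(1,1),(4,1),(6,0)]⟩,⟨1,[(16,1),(4,1),(5,0),(8,0)]⟩⟩,.e ⟨false,0,⟨0,[]⟩,⟨1,[(15,0),
  (0,0),(18,0)]⟩⟩ ⟨false,1,⟨1,[(7,1),(27,0),(0,0)]⟩,⟨0,[(21,0)]⟩⟩,.a ⟨true,0,⟨5,[(1,3),(1,0),(11,1),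
  (5,0),(0,0),(7,0),(0,0)]⟩,⟨0,[(16,0)]⟩⟩ ⟨false,0,⟨1,[(22,0),(0,0)]⟩,⟨1,[(35,0),(0,0)]⟩⟩ ⟨true,0,
  ⟨0,[(7,0)]⟩,⟨0,[(21,0)]⟩⟩,.o ⟨false,0,⟨3,[(1,3),(1,1),(17,1),(0,2),(0,0),(3,1)]⟩,⟨1,[(16,1),(10,
  0),(7,0)]⟩⟩]⟩) (.S ⟨1,0,[],[1,0,0,0,-1],[0,-1],(⟨0,[(17,0)]⟩,⟨0,[(18,0)]⟩),⟨0,[(0,0)]⟩,.k,(.r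
  (-1) ⟨1,[(10,0),(22,0),(2,0)]⟩ ⟨1,[(22,0),(0,0),(10,1),(3,1)]⟩),⟨false,1,⟨1,[(15,0),(0,0),(19,
  0)]⟩,⟨0,[]⟩⟩,⟨true,0,⟨0,[(38,0)]⟩,⟨0,[]⟩⟩,⟨true,0,⟨0,[(34,0)]⟩,⟨0,[(33,0)]⟩⟩,⟨false,0,⟨0,[(34,
  0)]⟩,⟨0,[(33,0),(2,0)]⟩⟩,[.e ⟨false,1,⟨1,[(35,0),(0,0)]⟩,⟨0,[(38,0)]⟩⟩ ⟨false,1,⟨1,[(15,0),(0,0),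
  (18,0)]⟩,⟨0,[]⟩⟩,.a ⟨true,0,⟨0,[(1,0)]⟩,⟨0,[(16,0),(21,0)]⟩⟩ ⟨true,1,⟨0,[(36,0)]⟩,⟨0,[(3,0),(17,
  0),(0,0)]⟩⟩ ⟨false,1,⟨1,[(35,0),(0,0)]⟩,⟨0,[(38,0)]⟩⟩,.e ⟨false,1,⟨0,[(36,0)]⟩,⟨0,[(38,0)]⟩⟩
  ⟨false,1,⟨1,[(15,0),(0,0),(19,0)]⟩,⟨0,[]⟩⟩,.o ⟨false,0,⟨3,[(1,3),(1,1),(17,1),(0,2),(0,0),(3,1)]⟩,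
  ⟨1,[(16,1),(10,0),(7,0)]⟩⟩]⟩)) (.Q [0,-1,0,0,1,0,0,0,-1,0,0,-1] (.p false [0,0,0,0,1] [] (⟨0,[(17,
  0)]⟩,⟨0,[(16,0)]⟩) .k 0 (⟨0,[]⟩,⟨0,[]⟩) .k .k) (.Q [0,2,0,0,-1,0,0,0,1,0,0,1] (.p true [0,0,0,0,
  1] [] (⟨0,[(18,0)]⟩,⟨0,[(17,0)]⟩) .k 0 (⟨0,[]⟩,⟨0,[]⟩) .k .k) (.I [1,-1,2,2] (.I [0,0,2,0,0,2,0,0,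
  1] (.N [0,-2,0,0,1] 0 ⟨0,[(11,0)]⟩ ⟨0,[(1,0)]⟩ (.x 0 ⟨0,[(0,0)]⟩ ⟨0,[(3,0),(8,0),(8,0),(7,1),(7,
  0)]⟩)) (.Q [0,-3,0,2,1,0,0,0,-2,1,0,-2] (.p false [0,0,0,0,1] [1,0,0,0,-1] (⟨0,[(21,0)]⟩,⟨0,[(20,
  0)]⟩) .k 2 (⟨0,[(20,0)]⟩,⟨0,[(21,0)]⟩) .k (.r 0 ⟨0,[(41,1)]⟩ ⟨0,[(39,0)]⟩)) (.R ⟨1,true,false,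
  false,[0,0,0,0,1],[1,1,0,0,-1],[0,1],(⟨0,[(22,0)]⟩,⟨0,[(21,0)]⟩),(⟨0,[(21,0),(11,0)]⟩,⟨5,[(1,0),
  (18,0),(1,4),(7,3),(10,1)]⟩),⟨5,[(1,0),(18,0),(1,4),(7,3),(10,1)]⟩,.k,(.r (-1) ⟨3,[(2,1),(16,2),
  (0,2),(19,0)]⟩ ⟨0,[(36,0)]⟩),(.r 0 ⟨0,[(36,0)]⟩ ⟨3,[(2,1),(16,2),(0,2),(19,0)]⟩),(.r 0 ⟨4,[(12,0),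
  (21,2),(2,2)]⟩ ⟨3,[(2,1),(16,0),(0,0),(19,2)]⟩),(.r 0 ⟨4,[(12,3),(21,1),(2,1)]⟩ ⟨1,[(2,1),(16,0),
  (0,0),(19,0)]⟩),.k,⟨false,0,⟨2,[(12,0),(0,0),(20,1)]⟩,⟨3,[(2,1),(16,0),(0,0),(19,2)]⟩⟩,⟨true,0,⟨0,
  [(0,0),(6,0),(4,0),(12,0),(0,0)]⟩,⟨0,[(2,0),(0,0),(1,0),(9,1),(15,0)]⟩⟩,⟨false,1,⟨1,[(19,0),(0,0),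
  (19,0)]⟩,⟨0,[]⟩⟩,⟨true,1,⟨0,[(0,0),(36,0)]⟩,⟨0,[(3,1),(11,0),(15,0)]⟩⟩,⟨true,0,⟨0,[(38,0)]⟩,⟨0,
  [(37,0)]⟩⟩,⟨false,1,⟨0,[(0,0)]⟩,⟨0,[(5,0),(2,0),(6,0)]⟩⟩,[]⟩) (.Q [0,0,0,0,0,1,0,0,0,-1,0,1] (.ed
  false [0,1,0,0,1] .k) (.R ⟨0,false,false,false,[1,0,0,0,-1],[0,1],[1,0,1,1],(⟨0,[(22,0)]⟩,⟨0,[(23,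
  0)]⟩),(⟨0,[(34,0)]⟩,⟨0,[(33,0)]⟩),⟨0,[(0,0)]⟩,.k,.k,(.r (-1) ⟨1,[(15,0),(22,0),(2,0)]⟩ ⟨1,[(3,0),
  (39,2)]⟩),(.r (-1) ⟨1,[(15,0),(22,0),(2,0)]⟩ ⟨1,[(3,0),(39,2)]⟩),.k,.k,⟨true,0,⟨0,[]⟩,⟨1,[(27,0),
  (0,0)]⟩⟩,⟨false,1,⟨0,[(6,0),(8,0),(23,0)]⟩,⟨7,[(3,0),(1,6),(1,1),(0,1),(11,0),(5,3),(0,3),(8,3),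
  (5,1)]⟩⟩,⟨false,0,⟨1,[(3,0),(39,0)]⟩,⟨1,[(15,0),(22,0),(2,0)]⟩⟩,⟨true,0,⟨0,[(6,0),(32,0)]⟩,⟨6,[(2,
  1),(2,4),(1,3),(8,2),(5,1),(3,3),(0,3),(6,3),(1,0)]⟩⟩,⟨false,0,⟨0,[]⟩,⟨0,[]⟩⟩,⟨false,0,⟨0,[]⟩,⟨0,
  []⟩⟩,[.e ⟨false,0,⟨0,[(39,0)]⟩,⟨9,[(9,3),(5,1),(0,3),(3,3),(19,2),(0,0)]⟩⟩ ⟨false,1,⟨1,[(6,1),(32,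
  1),(0,0),(0,0)]⟩,⟨6,[(2,1),(2,4),(1,3),(8,2),(5,1),(3,3),(0,3),(6,3),(1,0)]⟩⟩,.o ⟨false,1,⟨1,[(32,
  0),(6,1),(1,0)]⟩,⟨0,[(38,0)]⟩⟩,.a ⟨true,0,⟨4,[(2,0),(2,3),(2,1),(13,0),(3,1),(0,1),(6,1),(1,1)]⟩,
  ⟨0,[(21,0)]⟩⟩ ⟨true,0,⟨1,[(3,0),(39,0)]⟩,⟨0,[(37,0)]⟩⟩ ⟨false,1,⟨0,[(6,0),(32,0),(1,0)]⟩,⟨6,[(2,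
  1),(2,4),(1,3),(8,2),(5,1),(3,3),(0,3),(6,3),(1,0)]⟩⟩,.o ⟨false,0,⟨0,[(2,0),(0,0),(3,0),(8,0),(5,
  0),(3,0),(0,0),(4,0),(1,1)]⟩,⟨1,[(6,1),(33,0),(0,0)]⟩⟩]⟩) (.S ⟨1,0,[0,-1],[1,0,0,0,-1],[],(⟨0,
  [(22,0)]⟩,⟨0,[(23,0)]⟩),⟨0,[(0,0)]⟩,.k,(.r (-1) ⟨1,[(15,0),(22,0),(2,0)]⟩ ⟨1,[(3,0),(39,2)]⟩),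
  ⟨true,0,⟨0,[(43,0)]⟩,⟨0,[]⟩⟩,⟨false,1,⟨1,[(20,0),(0,0),(19,0)]⟩,⟨0,[]⟩⟩,⟨false,0,⟨0,[(39,0)]⟩,⟨0,
  [(38,0),(2,0)]⟩⟩,⟨true,0,⟨0,[(39,0)]⟩,⟨0,[(38,0)]⟩⟩,[.o ⟨false,1,⟨0,[(5,0)]⟩,⟨0,[(6,0)]⟩⟩,.a
  ⟨true,1,⟨1,[(5,1),(30,0),(4,0)]⟩,⟨0,[(4,0)]⟩⟩ ⟨false,1,⟨1,[(40,0),(0,0)]⟩,⟨0,[(43,0)]⟩⟩ ⟨true,1,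
  ⟨0,[(41,0)]⟩,⟨0,[(8,0),(17,0),(0,0)]⟩⟩,.e ⟨false,1,⟨1,[(20,0),(0,0),(19,0)]⟩,⟨0,[]⟩⟩ ⟨false,1,⟨0,
  [(41,0)]⟩,⟨0,[(43,0)]⟩⟩,.o ⟨false,0,⟨0,[(2,0),(0,0),(3,0),(8,0),(5,0),(3,0),(0,0),(4,0),(1,1)]⟩,
  ⟨1,[(6,1),(33,0),(0,0)]⟩⟩]⟩)))) (.Q [0,0,0,0,0,0,0,0,0,0,1,-1] (.ed true [1,0,-1,0,1] (.r (-1) ⟨1,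
  [(17,0),(0,0),(4,1),(0,1),(12,0)]⟩ ⟨0,[(5,0),(32,0)]⟩)) (.Q [0,0,-1,0,0,0,0,0,1,0,0,1] (.p true
  [0,0,0,0,1] [] (⟨0,[(21,0)]⟩,⟨0,[(20,0)]⟩) .k 0 (⟨0,[]⟩,⟨0,[]⟩) .k .k) (.S ⟨1,0,[],[1,0,0,0,-1],
  [0,-1],(⟨0,[(21,0)]⟩,⟨0,[(22,0)]⟩),⟨0,[(1,0),(15,0)]⟩,.k,(.r (-1) ⟨1,[(14,0),(22,0),(2,0)]⟩ ⟨1,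
  [(26,0),(0,0),(10,1),(3,1)]⟩),⟨false,1,⟨1,[(19,0),(0,0),(19,0)]⟩,⟨0,[]⟩⟩,⟨true,0,⟨0,[(42,0)]⟩,⟨0,
  []⟩⟩,⟨true,0,⟨0,[(38,0)]⟩,⟨0,[(37,0)]⟩⟩,⟨false,0,⟨0,[(38,0)]⟩,⟨0,[(37,0),(2,0)]⟩⟩,[.e ⟨false,1,⟨1,
  [(39,0),(0,0)]⟩,⟨0,[(42,0)]⟩⟩ ⟨false,1,⟨1,[(19,0),(0,0),(18,0)]⟩,⟨0,[]⟩⟩,.o ⟨false,1,⟨0,[(4,0)]⟩,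
  ⟨0,[(5,0)]⟩⟩,.e ⟨false,1,⟨0,[(40,0)]⟩,⟨0,[(42,0)]⟩⟩ ⟨false,1,⟨1,[(19,0),(0,0),(19,0)]⟩,⟨0,[]⟩⟩,.a
  ⟨true,0,⟨7,[(4,7),(2,3),(17,3),(0,4),(0,0),(7,3),(5,1)]⟩,⟨0,[(0,0)]⟩⟩ ⟨true,1,⟨1,[(39,0),(0,0)]⟩,
  ⟨0,[(7,0),(17,0),(0,0)]⟩⟩ ⟨false,1,⟨1,[(39,0),(0,0)]⟩,⟨1,[(26,0),(0,0)]⟩⟩]⟩) (.S ⟨1,0,[0,-1],[1,0,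
  0,0,-1],[],(⟨0,[(21,0)]⟩,⟨0,[(22,0)]⟩),⟨0,[(1,0),(15,0)]⟩,.k,(.r (-1) ⟨1,[(14,0),(22,0),(2,0)]⟩
  ⟨1,[(26,0),(0,0),(10,1),(3,1)]⟩),⟨true,0,⟨0,[(42,0)]⟩,⟨0,[]⟩⟩,⟨false,1,⟨1,[(19,0),(0,0),(19,0)]⟩,
  ⟨0,[]⟩⟩,⟨false,0,⟨0,[(38,0)]⟩,⟨0,[(37,0),(2,0)]⟩⟩,⟨true,0,⟨0,[(38,0)]⟩,⟨0,[(37,0)]⟩⟩,[.o ⟨false,1,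
  ⟨0,[(4,0)]⟩,⟨0,[(5,0)]⟩⟩,.a ⟨true,1,⟨1,[(4,1),(30,0),(4,0)]⟩,⟨0,[(3,0)]⟩⟩ ⟨false,1,⟨1,[(39,0),(0,
  0)]⟩,⟨0,[(42,0)]⟩⟩ ⟨true,1,⟨0,[(40,0)]⟩,⟨0,[(0,0),(2,0)]⟩⟩,.e ⟨false,1,⟨1,[(19,0),(0,0),(19,0)]⟩,
  ⟨0,[]⟩⟩ ⟨false,1,⟨0,[(40,0)]⟩,⟨0,[(42,0)]⟩⟩,.o ⟨false,0,⟨0,[(0,0)]⟩,⟨1,[(5,1),(33,0),(0,0)]⟩⟩]⟩))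
  (.Q [0,0,0,0,0,0,1,0,-1,1,1,-1] (.p false [0,0,-1,0,1] [1] (⟨0,[(0,0)]⟩,⟨0,[(20,0),(7,0)]⟩) .k 1
  (⟨0,[]⟩,⟨0,[]⟩) .k (.r (-1) ⟨1,[(18,0),(0,0),(4,1),(0,1),(12,0)]⟩ ⟨0,[(6,0),(32,0)]⟩)) (.Q [0,0,
  -1,0,0,0,-1,0,1,0,-1,1] (.p true [0,0,-1,0,1] [] (⟨0,[(1,0)]⟩,⟨0,[(21,0),(7,0)]⟩) .k 0 (⟨0,[]⟩,⟨0,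
  []⟩) .k (.r (-1) ⟨1,[(19,0),(0,0),(4,1),(0,1),(12,0)]⟩ ⟨0,[(7,0),(32,0)]⟩)) (.R ⟨1,false,false,
  true,[1,0,1,0,-1],[1,0,0,0,-1],[1,0,0,-1,0,0,0,1],(⟨0,[(22,0),(7,0)]⟩,⟨0,[(2,0)]⟩),(⟨0,[(22,0)]⟩,
  ⟨0,[(23,0)]⟩),⟨0,[(19,0),(2,0)]⟩,.k,.k,(.r (-1) ⟨3,[(10,1),(1,1),(2,1),(1,1),(14,0),(8,0)]⟩ ⟨0,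
  [(26,0),(0,0),(11,0)]⟩),.k,.k,.k,⟨false,0,⟨11,[(7,1),(0,5),(1,3),(4,5),(1,1),(14,0),(8,0)]⟩,⟨1,
  [(26,1),(0,1),(11,1),(0,0),(0,0)]⟩⟩,⟨true,0,⟨0,[(11,0)]⟩,⟨0,[(27,0)]⟩⟩,⟨true,0,⟨0,[(38,0)]⟩,⟨0,
  [(39,0)]⟩⟩,⟨true,0,⟨0,[(26,0)]⟩,⟨0,[(12,0)]⟩⟩,⟨false,0,⟨0,[]⟩,⟨1,[(20,0),(0,0),(19,0)]⟩⟩,⟨true,0,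
  ⟨0,[(26,0),(12,0)]⟩,⟨0,[(10,0)]⟩⟩,[.a ⟨true,0,⟨0,[(1,0),(9,0)]⟩,⟨0,[(21,0)]⟩⟩ ⟨false,0,⟨11,[(7,1),
  (0,5),(1,3),(4,5),(1,1),(14,0),(8,0)]⟩,⟨1,[(26,1),(0,1),(11,1),(0,0),(0,0)]⟩⟩ ⟨true,0,⟨0,[(11,
  0)]⟩,⟨0,[(27,0)]⟩⟩,.o ⟨false,1,⟨0,[(5,0)]⟩,⟨0,[(6,0)]⟩⟩,.a ⟨true,0,⟨0,[(1,0)]⟩,⟨1,[(0,0),(20,0),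
  (6,0)]⟩⟩ ⟨false,0,⟨0,[(7,0),(33,0)]⟩,⟨1,[(26,1),(0,1),(11,1),(0,0),(0,0)]⟩⟩ ⟨true,0,⟨0,[(11,0)]⟩,
  ⟨0,[(1,0),(4,0)]⟩⟩,.a ⟨true,0,⟨1,[(1,1),(25,0),(0,0)]⟩,⟨0,[(0,0)]⟩⟩ ⟨true,0,⟨11,[(7,1),(0,5),(1,
  3),(4,5),(1,1),(14,0),(8,0)]⟩,⟨0,[(26,0),(0,0),(11,0)]⟩⟩ ⟨false,1,⟨1,[(11,1),(28,0),(0,0)]⟩,⟨0,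
  [(27,0)]⟩⟩]⟩) (.Q [0,0,0,0,0,1,0,0,0,-1,0,1] (.ed false [0,1,0,0,1] .k) (.R ⟨0,false,false,false,
  [1,0,0,0,-1],[0,1],[1,0,1,1],(⟨0,[(23,0)]⟩,⟨0,[(24,0)]⟩),(⟨0,[(35,0)]⟩,⟨0,[(34,0)]⟩),⟨0,[(0,0)]⟩,
  .k,.k,(.r (-1) ⟨1,[(16,0),(22,0),(2,0)]⟩ ⟨1,[(28,0),(0,0),(10,1),(3,1)]⟩),(.r (-1) ⟨1,[(16,0),(22,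
  0),(2,0)]⟩ ⟨1,[(28,0),(0,0),(10,1),(3,1)]⟩),.k,.k,⟨true,0,⟨0,[]⟩,⟨1,[(28,0),(0,0)]⟩⟩,⟨false,1,⟨0,
  [(7,0),(8,0),(23,0)]⟩,⟨0,[(2,0),(26,0)]⟩⟩,⟨false,0,⟨1,[(28,0),(0,0),(10,1)]⟩,⟨1,[(16,0),(22,0),(2,
  0)]⟩⟩,⟨true,0,⟨0,[(7,0),(32,0)]⟩,⟨4,[(1,3),(2,0),(1,0),(7,0),(2,0),(0,1),(18,0)]⟩⟩,⟨false,0,⟨0,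
  []⟩,⟨0,[]⟩⟩,⟨false,0,⟨0,[]⟩,⟨0,[]⟩⟩,[.e ⟨false,0,⟨0,[(40,0)]⟩,⟨9,[(10,3),(5,1),(0,3),(3,3),(19,2),
  (0,0)]⟩⟩ ⟨false,1,⟨1,[(7,1),(32,1),(0,0),(0,0)]⟩,⟨4,[(1,3),(2,0),(1,0),(7,0),(2,0),(0,1),(18,
  0)]⟩⟩,.o ⟨false,1,⟨1,[(33,0),(6,1),(1,0)]⟩,⟨0,[(39,0)]⟩⟩,.a ⟨true,0,⟨0,[(2,0),(9,0)]⟩,⟨0,[(22,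
  0)]⟩⟩ ⟨true,0,⟨1,[(28,0),(0,0),(10,1)]⟩,⟨0,[(38,0)]⟩⟩ ⟨false,1,⟨0,[(7,0),(32,0),(1,0)]⟩,⟨4,[(1,3),
  (2,0),(1,0),(7,0),(2,0),(0,1),(18,0)]⟩⟩,.o ⟨false,0,⟨0,[(1,0),(10,0)]⟩,⟨1,[(7,1),(33,0),(0,
  0)]⟩⟩]⟩) (.K ⟨0,[0,1,0,0,1],0,(-1),(⟨0,[(24,0),(10,0)]⟩,⟨0,[(0,0)]⟩),(.r 0 ⟨1,[(28,0),(0,0),(10,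
  1),(3,1)]⟩ ⟨1,[(16,0),(22,0),(2,0)]⟩),.k,(.r 0 ⟨0,[(28,0),(0,0),(10,1),(3,0)]⟩ ⟨0,[(14,0),(27,
  0)]⟩),(.r 0 ⟨0,[(27,0),(0,0),(11,0)]⟩ ⟨3,[(11,1),(1,1),(2,1),(1,1),(14,0),(8,0)]⟩),.k,[⟨0,[(1,
  0)]⟩,⟨0,[(22,0)]⟩,⟨0,[(6,0),(32,0)]⟩,⟨0,[(5,0),(34,0)]⟩]⟩))) (.Q [0,0,0,0,0,0,0,0,-1,1,0,-1] (.p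
  false [0,0,0,0,1] [1] (⟨0,[(22,0)]⟩,⟨0,[(21,0)]⟩) .k 1 (⟨0,[]⟩,⟨0,[]⟩) .k .k) (.S ⟨1,0,[0,2],[0,0,
  0,0,1],[1,1,0,-1],(⟨0,[(23,0)]⟩,⟨0,[(22,0)]⟩),⟨0,[(2,0),(16,0)]⟩,.k,(.r 0 ⟨0,[(37,0)]⟩ ⟨1,[(20,0),
  (0,0),(5,0),(0,0),(10,1),(1,0)]⟩),⟨false,1,⟨0,[(38,0),(2,0)]⟩,⟨0,[(39,0)]⟩⟩,⟨true,0,⟨0,[(43,0)]⟩,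
  ⟨0,[]⟩⟩,⟨true,0,⟨0,[]⟩,⟨0,[(43,0)]⟩⟩,⟨false,0,⟨0,[(39,0)]⟩,⟨0,[(38,0),(2,0)]⟩⟩,[.e ⟨false,0,⟨4,
  [(13,1),(21,0),(2,0)]⟩,⟨1,[(20,0),(0,0),(17,1),(1,0)]⟩⟩ ⟨false,0,⟨0,[(35,0)]⟩,⟨0,[(41,0)]⟩⟩,.o
  ⟨false,0,⟨0,[(6,0)]⟩,⟨0,[(5,0)]⟩⟩,.a ⟨true,0,⟨0,[(21,0)]⟩,⟨0,[(0,0)]⟩⟩ ⟨true,0,⟨0,[(38,0)]⟩,⟨0,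
  [(39,0)]⟩⟩ ⟨false,0,⟨0,[(43,0)]⟩,⟨0,[(41,0)]⟩⟩,.o ⟨false,0,⟨0,[(1,0),(25,0)]⟩,⟨1,[(5,0),(8,0),(5,
  0),(18,0)]⟩⟩]⟩) (.R ⟨1,false,false,false,[0,0,1],[0,0,0,0,1],[1,0,0,-1,0,0,0,1],(⟨0,[(30,0)]⟩,⟨0,
  [(29,0)]⟩),(⟨0,[(23,0)]⟩,⟨0,[(22,0)]⟩),⟨0,[(19,0)]⟩,.k,.k,.k,.k,(.r (-1) ⟨3,[(10,1),(1,1),(2,1),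
  (1,1),(14,0),(8,0)]⟩ ⟨0,[(26,0),(0,0),(11,0)]⟩),.k,⟨true,0,⟨0,[(7,0),(33,0)]⟩,⟨0,[(26,0),(0,0),
  (11,0)]⟩⟩,⟨false,0,⟨1,[(1,1),(34,0),(3,0)]⟩,⟨1,[(5,0),(8,0),(5,0),(6,1),(11,0)]⟩⟩,⟨false,1,⟨0,
  [(38,0),(2,0)]⟩,⟨0,[(39,0)]⟩⟩,⟨false,0,⟨1,[(0,1),(25,1),(9,0),(4,0)]⟩,⟨0,[(5,0),(6,0)]⟩⟩,⟨true,0,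
  ⟨0,[]⟩,⟨0,[(43,0)]⟩⟩,⟨false,0,⟨1,[(0,1),(25,1),(9,0),(2,1),(1,0)]⟩,⟨0,[(5,0),(4,0)]⟩⟩,[.o ⟨false,
  0,⟨0,[(6,0)]⟩,⟨0,[(5,0)]⟩⟩,.o ⟨false,0,⟨0,[(0,0)]⟩,⟨0,[(20,0)]⟩⟩,.o ⟨false,1,⟨1,[(27,1),(4,0),(7,
  0)]⟩,⟨0,[(11,0)]⟩⟩,.a ⟨true,0,⟨0,[(27,0)]⟩,⟨0,[(24,0)]⟩⟩ ⟨true,0,⟨11,[(7,1),(0,5),(1,3),(4,5),(1,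
  1),(14,0),(8,0)]⟩,⟨0,[(26,0),(0,0),(11,0)]⟩⟩ ⟨false,0,⟨1,[(1,1),(34,0),(3,0)]⟩,⟨0,[(5,0),(21,
  0)]⟩⟩]⟩))))) (.R ⟨1,false,false,false,[0,0,1],[1,0,0,0,-1],[1,0,0,-1,0,0,0,1],(⟨0,[(26,0)]⟩,⟨0,
  [(25,0)]⟩),(⟨0,[(18,0)]⟩,⟨0,[(19,0)]⟩),⟨0,[(15,0)]⟩,.k,.k,.k,.k,(.r 0 ⟨21,[(3,9),(5,3),(1,3),(1,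
  5),(7,11),(6,2),(7,2)]⟩ ⟨0,[(22,0),(0,0),(11,0),(1,0)]⟩),.k,⟨true,(-1),⟨0,[(3,0)]⟩,⟨0,[(22,0),(0,
  0),(11,0),(1,0)]⟩⟩,⟨false,0,⟨5,[(0,4),(3,3),(5,1),(5,0),(3,1),(1,3),(9,1),(2,1)]⟩,⟨1,[(2,1),(20,
  1),(12,0),(0,0)]⟩⟩,⟨false,1,⟨0,[(34,0),(2,0)]⟩,⟨0,[(35,0)]⟩⟩,⟨false,1,⟨1,[(0,1),(21,1),(9,0),(4,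
  0)]⟩,⟨0,[(2,0),(5,0)]⟩⟩,⟨true,0,⟨0,[]⟩,⟨0,[(39,0)]⟩⟩,⟨false,1,⟨1,[(0,1),(21,1),(9,0),(2,1),(1,
  0)]⟩,⟨0,[(2,0),(3,0)]⟩⟩,[.o ⟨false,1,⟨0,[(1,0)]⟩,⟨0,[(2,0)]⟩⟩,.o ⟨false,1,⟨0,[(0,0)]⟩,⟨0,[(2,0),
  (36,0)]⟩⟩,.o ⟨false,1,⟨1,[(23,1),(4,0),(7,0)]⟩,⟨0,[(7,0)]⟩⟩,.a ⟨true,0,⟨0,[(23,0)]⟩,⟨0,[(20,0)]⟩⟩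
  ⟨true,0,⟨11,[(3,1),(0,5),(1,3),(4,5),(1,1),(14,0),(8,0)]⟩,⟨0,[(22,0),(0,0),(11,0)]⟩⟩ ⟨false,1,⟨0,
  [(0,0),(19,0)]⟩,⟨0,[(2,0),(20,0)]⟩⟩]⟩)) (.Q [0,0,-1,0,0,0,0,0,1,-1,0,1] (.p true [0,0,0,0,1] [1]
  (⟨0,[(18,0)]⟩,⟨0,[(17,0)]⟩) .k 1 (⟨0,[]⟩,⟨0,[]⟩) .k .k) (.Q [0,0,0,0,0,-1,0,0,0,1,0,-1] (.ed true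
  [0,1,0,0,1] .k) (.S ⟨1,0,[],[1,0,0,0,-1],[1,-1,0,-1],(⟨0,[(19,0)]⟩,⟨0,[(20,0)]⟩),⟨0,[(0,0)]⟩,.k,
  (.r (-1) ⟨1,[(12,0),(22,0),(2,0)]⟩ ⟨1,[(24,0),(0,0),(10,1),(3,1)]⟩),⟨false,1,⟨0,[(35,0),(2,0)]⟩,
  ⟨0,[(36,0)]⟩⟩,⟨true,0,⟨0,[(40,0)]⟩,⟨0,[]⟩⟩,⟨true,0,⟨0,[]⟩,⟨0,[(40,0)]⟩⟩,⟨false,0,⟨0,[(36,0)]⟩,⟨0,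
  [(35,0),(2,0)]⟩⟩,[.o ⟨false,1,⟨0,[(17,0)]⟩,⟨1,[(1,1),(22,0),(0,0)]⟩⟩,.a ⟨true,1,⟨1,[(17,1),(15,0),
  (4,0)]⟩,⟨0,[(2,0)]⟩⟩ ⟨true,1,⟨1,[(13,1),(15,0),(8,0)]⟩,⟨0,[(5,0),(17,0),(0,0),(11,0)]⟩⟩ ⟨false,1,
  ⟨1,[(37,0),(0,0)]⟩,⟨0,[(40,0)]⟩⟩,.o ⟨false,1,⟨0,[(17,0)]⟩,⟨1,[(1,1),(22,0),(0,0)]⟩⟩,.o ⟨false,1,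
  ⟨1,[(17,1),(6,0),(0,0)]⟩,⟨0,[(1,0)]⟩⟩]⟩) (.R ⟨0,false,false,true,[1,0,0,0,-1],[2,0,-1,0,-1],[0,0,
  1,0,0,0,0,-1],(⟨0,[(19,0)]⟩,⟨0,[(20,0)]⟩),(⟨0,[(19,0),(6,0)]⟩,⟨0,[(0,0),(15,0)]⟩),⟨0,[(0,0)]⟩,.k,
  .k,(.r (-1) ⟨1,[(12,0),(22,0),(2,0)]⟩ ⟨1,[(24,0),(0,0),(10,1),(3,1)]⟩),.k,.k,.k,⟨true,0,⟨1,[(24,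
  0),(0,0)]⟩,⟨0,[]⟩⟩,⟨false,0,⟨0,[(21,0)]⟩,⟨1,[(24,1),(4,0),(7,0)]⟩⟩,⟨true,0,⟨0,[(23,0),(0,0)]⟩,⟨1,
  [(5,1),(31,0),(0,0)]⟩⟩,⟨false,0,⟨1,[(23,1),(9,0),(4,0)]⟩,⟨1,[(9,1),(19,0),(8,0)]⟩⟩,⟨false,0,⟨0,
  []⟩,⟨0,[]⟩⟩,⟨false,0,⟨0,[]⟩,⟨0,[]⟩⟩,[.o ⟨false,1,⟨1,[(17,1),(5,1),(9,0),(4,0)]⟩,⟨1,[(1,1),(3,1),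
  (18,1),(4,0),(8,0)]⟩⟩,.a ⟨true,1,⟨0,[(17,0),(5,0),(9,0),(4,0)]⟩,⟨0,[(1,0),(3,0),(18,0)]⟩⟩ ⟨true,1,
  ⟨0,[(23,0),(0,0),(13,0)]⟩,⟨0,[(5,0)]⟩⟩ ⟨false,1,⟨1,[(23,1),(9,0),(3,0),(0,1)]⟩,⟨3,[(5,1),(3,0),(1,
  0),(10,0),(1,1),(4,1),(6,0)]⟩⟩,.o ⟨false,1,⟨0,[(17,0)]⟩,⟨1,[(1,1),(22,0),(0,0)]⟩⟩,.o ⟨false,1,⟨1,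
  [(17,1),(6,0),(0,0)]⟩,⟨0,[(1,0)]⟩⟩]⟩)) (.Q [0,-1,0,1,1,0,0,0,-1,0,0,-1] (.p false [0,0,0,0,1] []
  (⟨0,[(19,0)]⟩,⟨0,[(18,0)]⟩) .k 0 (⟨0,[]⟩,⟨0,[]⟩) .k .k) (.R ⟨2,false,false,true,[0,1],[0,0,0,0,1],
  [0,2,1],(⟨0,[]⟩,⟨0,[]⟩),(⟨0,[(20,0)]⟩,⟨0,[(19,0)]⟩),⟨0,[]⟩,.k,.k,.k,(.r (-1) ⟨1,[(0,1),(17,1),(5,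
  0),(0,0)]⟩ ⟨0,[(34,0)]⟩),.k,.k,⟨true,0,⟨1,[(24,0),(0,0)]⟩,⟨0,[]⟩⟩,⟨false,0,⟨0,[(18,0)]⟩,⟨1,[(0,0),
  (10,0),(5,0)]⟩⟩,⟨false,0,⟨0,[(35,0)]⟩,⟨0,[(36,0),(1,0)]⟩⟩,⟨true,(-1),⟨0,[(2,0),(32,0)]⟩,⟨0,[(0,
  0)]⟩⟩,⟨false,0,⟨0,[(40,0)]⟩,⟨0,[(38,0)]⟩⟩,⟨false,(-1),⟨0,[(2,0)]⟩,⟨0,[(17,0),(20,0)]⟩⟩,[.a ⟨true,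
  (-1),⟨0,[(2,0),(37,0)]⟩,⟨0,[(0,0),(12,0)]⟩⟩ ⟨true,(-1),⟨0,[(5,0),(17,0),(0,0)]⟩,⟨0,[(38,0)]⟩⟩
  ⟨false,(-1),⟨0,[(2,0),(37,0)]⟩,⟨1,[(0,0),(11,0),(4,0),(20,0)]⟩⟩,.e ⟨false,0,⟨0,[(40,0)]⟩,⟨1,[(37,
  0),(0,0)]⟩⟩ ⟨false,(-1),⟨0,[(2,0)]⟩,⟨1,[(17,1),(19,0),(0,0)]⟩⟩,.o ⟨false,1,⟨1,[(29,0),(7,0)]⟩,⟨1,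
  [(24,0),(0,0)]⟩⟩,.fo]⟩) (.Q [0,0,0,0,0,-1,0,0,0,1,0,-1] (.ed true [0,1,0,0,1] .k) (.Q [0,1,0,0,-1,
  0,1,1,1,-1,1,1] (.p true [0,0,1] [1,0,0,0,-1] (⟨0,[(28,0)]⟩,⟨0,[(27,0)]⟩) .k 2 (⟨0,[(20,0)]⟩,⟨0,
  [(21,0)]⟩) .k (.r 1 ⟨0,[(5,0),(31,0)]⟩ ⟨1,[(18,0),(0,0),(4,1),(0,1),(12,0),(0,1)]⟩)) (.S ⟨1,0,[0,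
  -1],[1,0,0,0,-1],[1,0,0,-1],(⟨0,[(21,0)]⟩,⟨0,[(22,0)]⟩),⟨0,[(1,0)]⟩,.k,(.r (-1) ⟨1,[(14,0),(22,0),
  (2,0)]⟩ ⟨1,[(26,0),(0,0),(10,1),(3,1)]⟩),⟨true,0,⟨0,[(37,0)]⟩,⟨0,[(38,0)]⟩⟩,⟨false,1,⟨1,[(19,0),
  (0,0),(19,0)]⟩,⟨0,[]⟩⟩,⟨false,0,⟨0,[]⟩,⟨1,[(19,0),(0,0),(19,0)]⟩⟩,⟨true,0,⟨0,[(38,0)]⟩,⟨0,[(37,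
  0)]⟩⟩,[.e ⟨false,1,⟨9,[(8,3),(5,1),(0,3),(3,3),(19,2),(0,0)]⟩,⟨0,[(38,0)]⟩⟩ ⟨false,1,⟨1,[(39,0),
  (0,0)]⟩,⟨0,[(42,0)]⟩⟩,.o ⟨false,2,⟨0,[(19,0),(20,0)]⟩,⟨0,[(0,0),(24,0)]⟩⟩,.o ⟨false,1,⟨0,[(19,
  0)]⟩,⟨1,[(4,1),(26,0),(8,0)]⟩⟩,.a ⟨true,0,⟨0,[(3,0)]⟩,⟨1,[(4,0),(9,0),(5,0),(17,0)]⟩⟩ ⟨false,1,⟨1,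
  [(14,0),(22,0),(2,0)]⟩,⟨1,[(26,0),(0,0),(10,1)]⟩⟩ ⟨true,1,⟨1,[(39,0),(0,0)]⟩,⟨0,[(0,0),(2,0),(21,
  0)]⟩⟩]⟩) (.R ⟨1,false,false,false,[1,0,0,0,-1],[0,-1,1],[],(⟨0,[(21,0)]⟩,⟨0,[(22,0)]⟩),(⟨0,[(18,
  0)]⟩,⟨0,[(28,0),(4,0)]⟩),⟨0,[(1,0)]⟩,.k,.k,(.r (-1) ⟨1,[(14,0),(22,0),(2,0)]⟩ ⟨1,[(26,0),(0,0),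
  (10,1),(3,1)]⟩),(.r (-1) ⟨0,[(25,0),(0,0),(11,0),(1,0)]⟩ ⟨21,[(6,9),(5,3),(1,3),(1,5),(7,11),(6,
  2),(7,2)]⟩),.k,.k,⟨false,1,⟨1,[(25,1),(0,1),(11,1),(0,0),(0,0)]⟩,⟨11,[(6,1),(0,5),(1,3),(4,5),(1,
  1),(14,0),(8,0)]⟩⟩,⟨true,0,⟨1,[(4,1),(21,1),(4,0),(8,0)]⟩,⟨0,[(0,0),(6,0)]⟩⟩,⟨true,0,⟨0,[(42,0)]⟩,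
  ⟨0,[]⟩⟩,⟨false,0,⟨1,[(2,1),(8,1),(19,0),(8,0)]⟩,⟨0,[(0,0),(37,0)]⟩⟩,⟨false,0,⟨0,[(38,0)]⟩,⟨0,[(37,
  0),(2,0)]⟩⟩,⟨false,0,⟨1,[(4,1),(6,1),(19,0),(8,0)]⟩,⟨0,[(0,0)]⟩⟩,[.e ⟨false,1,⟨1,[(19,0),(0,0),
  (18,0)]⟩,⟨0,[]⟩⟩ ⟨false,0,⟨1,[(4,1),(2,1),(6,1),(11,1),(4,0),(8,0)]⟩,⟨0,[(0,0),(37,0),(3,0)]⟩⟩,.o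
  ⟨false,1,⟨1,[(9,1),(21,0),(8,0)]⟩,⟨0,[(25,0),(12,0)]⟩⟩,.o ⟨false,1,⟨0,[(19,0)]⟩,⟨1,[(4,1),(26,0),
  (8,0)]⟩⟩,.a ⟨true,0,⟨0,[(3,0)]⟩,⟨1,[(4,0),(9,0),(5,0),(17,0)]⟩⟩ ⟨false,1,⟨1,[(39,0),(0,0)]⟩,⟨1,
  [(26,0),(0,0)]⟩⟩ ⟨true,0,⟨1,[(4,1),(2,1),(6,1),(11,1),(4,0),(8,0)]⟩,⟨0,[(3,0),(21,0),(12,
  0)]⟩⟩]⟩)) (.R ⟨0,false,false,true,[1,0,0,0,-1],[2,-1,0,0,-1],[0,0,0,-1],(⟨0,[(20,0)]⟩,⟨0,[(21,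
  0)]⟩),(⟨0,[(20,0),(10,0)]⟩,⟨0,[(0,0)]⟩),⟨0,[(0,0)]⟩,.k,(.r (-1) ⟨1,[(13,0),(22,0),(2,0)]⟩ ⟨1,[(25,
  0),(0,0),(10,1),(3,1)]⟩),(.r (-1) ⟨1,[(13,0),(22,0),(2,0)]⟩ ⟨1,[(25,0),(0,0),(10,1),(3,1)]⟩),.k,
  .k,.k,⟨true,0,⟨1,[(25,0),(0,0)]⟩,⟨0,[]⟩⟩,⟨false,0,⟨3,[(2,1),(16,1),(14,0),(3,0)]⟩,⟨1,[(30,0),(7,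
  0)]⟩⟩,⟨true,0,⟨0,[(36,0)]⟩,⟨0,[(37,0)]⟩⟩,⟨false,0,⟨5,[(2,1),(4,1),(6,3),(19,0),(3,0)]⟩,⟨1,[(30,0),
  (6,1),(1,0)]⟩⟩,⟨false,0,⟨0,[]⟩,⟨0,[]⟩⟩,⟨false,0,⟨0,[]⟩,⟨0,[]⟩⟩,[.e ⟨false,1,⟨9,[(7,3),(5,1),(0,3),
  (3,3),(19,2),(0,0)]⟩,⟨0,[(37,0)]⟩⟩ ⟨false,0,⟨9,[(11,1),(2,3),(19,2),(1,1),(1,2)]⟩,⟨3,[(4,1),(13,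
  1),(11,0),(6,3),(1,0)]⟩⟩,.o ⟨false,1,⟨0,[(14,0),(3,0)]⟩,⟨0,[(3,0),(26,0),(6,0)]⟩⟩,.o ⟨false,1,⟨0,
  [(18,0)]⟩,⟨1,[(3,1),(26,0),(8,0)]⟩⟩,.a ⟨true,0,⟨0,[(2,0)]⟩,⟨1,[(3,0),(9,0),(5,0),(17,0)]⟩⟩ ⟨false,
  1,⟨1,[(13,0),(22,0),(2,0)]⟩,⟨1,[(25,0),(0,0),(10,1)]⟩⟩ ⟨true,0,⟨9,[(11,1),(2,3),(19,2),(1,1),(1,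
  2)]⟩,⟨3,[(6,1),(17,1),(0,2),(0,0),(3,1),(6,3)]⟩⟩]⟩)))))))

theorem ok59 : chk K t59 r31 = true := by decide +kernel

noncomputable def t61 : Tre :=
  (.I [1,0,-1,-1,0,0,0,1] (.S ⟨1,0,[0,0,0,0,0,0,0,1],[0,0,1],[1,1,0,-1,0,0,0,1],(⟨0,[(22,0)]⟩,⟨0,
  [(21,0)]⟩),⟨0,[(11,0)]⟩,.k,.k,⟨true,0,⟨0,[(30,0)]⟩,⟨0,[(31,0)]⟩⟩,⟨false,1,⟨1,[(12,0),(0,0),(19,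
  0)]⟩,⟨0,[]⟩⟩,⟨false,0,⟨0,[]⟩,⟨1,[(12,0),(0,0),(19,0)]⟩⟩,⟨true,0,⟨0,[(31,0)]⟩,⟨0,[(30,0)]⟩⟩,[.e
  ⟨false,0,⟨5,[(0,4),(16,0),(2,0),(6,1),(2,0)]⟩,⟨1,[(1,1),(11,1),(4,1),(0,1),(4,0),(7,0)]⟩⟩ ⟨false,
  0,⟨0,[(0,0),(30,0)]⟩,⟨1,[(18,1),(0,1),(12,0),(0,0)]⟩⟩,.o ⟨false,1,⟨1,[(4,1),(19,0),(8,0)]⟩,⟨0,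
  [(18,0)]⟩⟩,.o ⟨false,1,⟨1,[(19,1),(4,0),(7,0)]⟩,⟨0,[(3,0)]⟩⟩,.a ⟨true,0,⟨0,[(19,0)]⟩,⟨0,[(16,
  0)]⟩⟩ ⟨false,0,⟨0,[(0,0)]⟩,⟨0,[(18,0),(0,0),(11,0),(1,0)]⟩⟩ ⟨true,0,⟨0,[(0,0),(30,0)]⟩,⟨0,[(18,0),
  (0,0)]⟩⟩]⟩) (.S ⟨1,0,[0,0,1,1,0,0,0,-1],[1,1,-1],[0,1,1,1,0,0,0,-1],(⟨0,[(21,0),(4,0)]⟩,⟨0,[(11,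
  0)]⟩),⟨0,[(21,0)]⟩,.k,.k,⟨true,0,⟨0,[(35,0)]⟩,⟨0,[]⟩⟩,⟨false,1,⟨1,[(12,0),(0,0),(19,0)]⟩,⟨0,[]⟩⟩,
  ⟨false,0,⟨0,[(31,0)]⟩,⟨0,[(30,0),(2,0)]⟩⟩,⟨true,0,⟨0,[(31,0)]⟩,⟨0,[(30,0)]⟩⟩,[.a ⟨true,0,⟨0,[(0,
  0),(15,0)]⟩,⟨0,[(2,0)]⟩⟩ ⟨false,0,⟨2,[(0,2),(5,0),(20,0),(3,0)]⟩,⟨3,[(2,1),(1,1),(2,1),(1,1),(14,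
  0),(8,0)]⟩⟩ ⟨true,0,⟨0,[(0,0)]⟩,⟨0,[(2,0),(0,0)]⟩⟩,.a ⟨true,0,⟨0,[(1,0),(11,0),(4,0)]⟩,⟨1,[(2,0),
  (14,0),(12,0)]⟩⟩ ⟨true,0,⟨0,[(0,0)]⟩,⟨0,[(2,0),(0,0)]⟩⟩ ⟨false,1,⟨1,[(0,1),(31,0),(0,0)]⟩,⟨1,[(3,
  1),(0,0),(0,0),(11,0)]⟩⟩,.a ⟨true,0,⟨0,[(16,0)]⟩,⟨0,[(19,0)]⟩⟩ ⟨false,0,⟨0,[(0,0)]⟩,⟨3,[(2,1),(1,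
  1),(2,1),(1,1),(14,0),(8,0)]⟩⟩ ⟨true,0,⟨0,[(0,0)]⟩,⟨1,[(3,1),(0,0),(0,0),(11,0)]⟩⟩,.o ⟨false,0,⟨0,
  [(3,0)]⟩,⟨1,[(19,1),(4,0),(7,0)]⟩⟩]⟩))

theorem ok61 : chk K t61 r30 = true := by decide +kernel

noncomputable def t63 : Tre :=
  (.R ⟨2,true,false,false,[0,1],[0,0,1],[0,1,1,1],(⟨0,[]⟩,⟨0,[]⟩),(⟨0,[(20,0)]⟩,⟨0,[(19,0)]⟩),⟨0,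
  []⟩,.k,.k,.k,.k,.k,.k,⟨false,0,⟨2,[(0,2),(3,0),(12,2),(7,0),(3,0)]⟩,⟨3,[(2,3),(0,1),(3,1),(14,0),
  (8,2)]⟩⟩,⟨true,0,⟨0,[(17,0)]⟩,⟨0,[(1,0)]⟩⟩,⟨true,0,⟨0,[(33,0)]⟩,⟨0,[]⟩⟩,⟨false,1,⟨0,[(2,0),(25,0),
  (2,0)]⟩,⟨0,[(0,0)]⟩⟩,⟨false,0,⟨0,[(29,0)]⟩,⟨0,[(28,0),(2,0)]⟩⟩,⟨true,0,⟨0,[(2,0)]⟩,⟨0,[(16,0)]⟩⟩,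
  []⟩)

theorem ok63 : chk K t63 r29 = true := by decide +kernel

noncomputable def t65 : Tre :=
  (.Q [0,1,0,-1,0,0,-1,-1,0,0,-1] (.p false [0,0,1] [] (⟨0,[(19,0)]⟩,⟨0,[(18,0)]⟩) .k 0 (⟨0,[]⟩,⟨0,
  []⟩) .k .k) (.K ⟨0,[0,1,1],0,0,(⟨0,[(20,0),(3,0)]⟩,⟨0,[(8,0)]⟩),.k,.k,(.r 0 ⟨1,[(2,1),(14,0),(0,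
  2),(10,3)]⟩ ⟨0,[(0,0),(0,0),(3,0)]⟩),.k,.k,[⟨1,[(17,0),(0,0)]⟩,⟨0,[(1,0)]⟩,⟨0,[(0,0)]⟩,⟨0,[(15,0),
  (13,0)]⟩]⟩) (.R ⟨2,true,false,false,[0,1],[0,1,1],[1,0,1],(⟨0,[]⟩,⟨0,[]⟩),(⟨0,[(20,0),(3,0)]⟩,⟨0,
  [(8,0)]⟩),⟨0,[]⟩,.k,.k,.k,.k,.k,.k,⟨false,1,⟨0,[(5,0),(10,0),(0,0)]⟩,⟨2,[(0,2),(3,0),(13,2),(6,0),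
  (3,0)]⟩⟩,⟨true,0,⟨0,[(1,0)]⟩,⟨0,[(18,0)]⟩⟩,⟨false,1,⟨0,[(28,0),(2,0)]⟩,⟨0,[(29,0)]⟩⟩,⟨true,0,⟨0,
  [(2,0)]⟩,⟨0,[(16,0)]⟩⟩,⟨true,0,⟨0,[]⟩,⟨0,[(33,0)]⟩⟩,⟨false,0,⟨0,[(0,0)]⟩,⟨0,[(16,0),(11,0),(2,
  0)]⟩⟩,[]⟩))

theorem ok65 : chk K t65 r28 = true := by decide +kernel

noncomputable def t70 : Tre :=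
  (.S ⟨1,0,[0,0,-1,-1],[1,-1],[0,1,-1,-1],(⟨0,[(18,0)]⟩,⟨0,[(19,0)]⟩),⟨0,[(3,0),(0,0)]⟩,.k,(.r (-1)
  ⟨0,[(22,1),(3,0)]⟩ ⟨1,[(0,1),(4,0),(0,0),(17,1),(1,0)]⟩),⟨true,0,⟨0,[(28,0)]⟩,⟨0,[]⟩⟩,⟨false,1,⟨1,
  [(5,0),(0,0),(19,0)]⟩,⟨0,[]⟩⟩,⟨false,0,⟨0,[(24,0)]⟩,⟨0,[(23,0),(2,0)]⟩⟩,⟨true,0,⟨0,[(24,0)]⟩,⟨0,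
  [(23,0)]⟩⟩,[.a ⟨true,0,⟨3,[(1,1),(3,0),(0,0),(14,0),(1,1)]⟩,⟨0,[(24,0)]⟩⟩ ⟨true,0,⟨0,[(22,0)]⟩,⟨0,
  [(0,0),(25,0)]⟩⟩ ⟨false,1,⟨1,[(22,1),(2,0),(0,0)]⟩,⟨3,[(0,1),(4,0),(0,0),(17,1),(1,0)]⟩⟩,.a ⟨true,
  0,⟨0,[(1,0)]⟩,⟨4,[(0,0),(4,0),(0,0),(13,1),(3,3)]⟩⟩ ⟨false,1,⟨1,[(22,1),(2,0),(0,0)]⟩,⟨3,[(0,1),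
  (4,0),(0,0),(17,1),(1,0)]⟩⟩ ⟨true,1,⟨0,[(22,0),(3,0)]⟩,⟨0,[(0,0)]⟩⟩,.o ⟨false,0,⟨1,[(12,0),(0,
  0)]⟩,⟨1,[(17,0),(7,0)]⟩⟩,.a ⟨true,(-1),⟨0,[(0,0),(0,0)]⟩,⟨0,[(25,0)]⟩⟩ ⟨false,1,⟨1,[(22,1),(2,0),
  (0,0)]⟩,⟨0,[(0,0),(25,0)]⟩⟩ ⟨true,1,⟨1,[(22,1),(2,0),(0,0)]⟩,⟨0,[(0,0)]⟩⟩]⟩)

theorem ok70 : chk K t70 r20 = true := by decide +kernel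


end Helper25.S1T.Ypp_1cL2
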