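import Pool.Agent.Helper25.S1T.Ypp_1cL2_p0
import Pool.Agent.Helper25.S1T.Ypp_1cL2_p1

set_option autoImplicit false
set_option linter.all false

namespace Helper25.S1T.Ypp_1cL2

open Helper25.KG Helper25.KW Helper55.KE Helper11.CT

noncomputable def t3 : Tre :=
  .Q [0,2,0,1,-1,0,0,0,1,-1,0,1] (.p true [0,0,0,0,1] [1] (⟨0,[(10,0)]⟩,⟨0,[(9,0)]⟩) .k 1 (⟨0,[]⟩,
  ⟨0,[]⟩) .k .k) t1 t2

theorem ok3 : chk K t3 l3 = true :=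
  chk_Q (e' := [0,-2,0,-1,1,0,0,0,-1,1,0,-1]) (by decide +kernel) (by decide +kernel) ok1 ok2

noncomputable def t5 : Tre :=
  .Q [0,1,0,0,0,0,0,0,1,-1,0,1] (.p true [0,0,0,0,1] [1] (⟨0,[(9,0)]⟩,⟨0,[(8,0)]⟩) .k 1 (⟨0,[]⟩,⟨0,
  []⟩) .k .k) t3 t4

theorem ok5 : chk K t5 l2 = true :=
  chk_Q (e' := [0,-1,0,0,0,0,0,0,-1,1,0,-1]) (by decide +kernel) (by decide +kernel) ok3 ok4

noncomputable def t16 : Tre :=
  .Q [0,0,0,0,0,-2,0,0,0,0,0,1] (.p true [0,0,0,0,1] [] (⟨0,[(23,0)]⟩,⟨0,[(22,0)]⟩) .k 0 (⟨0,[]⟩,⟨0,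
  []⟩) .k .k) t14 t15

theorem ok16 : chk K t16 r18 = true :=
  chk_Q (e' := [0,0,0,0,0,2,0,0,0,0,0,-1]) (by decide +kernel) (by decide +kernel) ok14 ok15

noncomputable def t17 : Tre :=
  .Q [0,0,0,1,0,0,-1,-1,-1,1,-1,-1] (.p false [0,0,1] [1,0,0,0,-1] (⟨0,[(29,0)]⟩,⟨0,[(28,0)]⟩) .k 2
  (⟨0,[(21,0)]⟩,⟨0,[(22,0)]⟩) .k (.r 0 ⟨0,[(4,0)]⟩ ⟨0,[(3,0),(36,0)]⟩)) t13 t16

theorem ok17 : chk K t17 r17 = true :=
  chk_Q (e' := [0,0,0,-1,0,0,1,1,1,-1,1,1]) (by decide +kernel) (by decide +kernel) ok13 ok16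

noncomputable def t18 : Tre :=
  .Q [0,-1,0,-1,2,0,0,0,-2,1,0,-2] (.p false [0,0,0,0,1] [1,0,0,0,-1] (⟨0,[(21,0)]⟩,⟨0,[(20,0)]⟩)
  .k 2 (⟨0,[(20,0)]⟩,⟨0,[(21,0)]⟩) .k (.r 0 ⟨0,[(41,1)]⟩ ⟨0,[(39,0)]⟩)) t12 t17

theorem ok18 : chk K t18 r16 = true :=
  chk_Q (e' := [0,1,0,1,-2,0,0,0,2,-1,0,2]) (by decide +kernel) (by decide +kernel) ok12 ok17

noncomputable def t19 : Tre :=
  .Q [0,-1,0,-1,1,0,0,0,-1,1,0,-1] (.p false [0,0,0,0,1] [1] (⟨0,[(20,0)]⟩,⟨0,[(19,0)]⟩) .k 1 (⟨0,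
  []⟩,⟨0,[]⟩) .k .k) t11 t18

theorem ok19 : chk K t19 l15 = true :=
  chk_Q (e' := [0,1,0,1,-1,0,0,0,1,-1,0,1]) (by decide +kernel) (by decide +kernel) ok11 ok18

noncomputable def t21 : Tre :=
  .Q [0,0,0,0,0,-2,0,0,0,1,0,-1] (.p false [0,0,0,0,1] [1] (⟨0,[(19,0)]⟩,⟨0,[(18,0)]⟩) .k 1 (⟨0,[]⟩,
  ⟨0,[]⟩) .k .k) t19 t20

theorem ok21 : chk K t21 l14 = true :=
  chk_Q (e' := [0,0,0,0,0,2,0,0,0,-1,0,1]) (by decide +kernel) (by decide +kernel) ok19 ok20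

noncomputable def t23 : Tre :=
  .I [1,1,0,0,0,0,0,-1] t21 t22

theorem ok23 : chk K t23 r13 = true :=
  chk_I (e' := [0,-1,0,0,0,0,0,1]) (by decide +kernel) (by decide +kernel) ok21 ok22

noncomputable def t24 : Tre :=
  .I [1,-1,0,0,0,0,0,-1] t10 t23

theorem ok24 : chk K t24 l12 = true :=
  chk_I (e' := [0,1,0,0,0,0,0,1]) (by decide +kernel) (by decide +kernel) ok10 ok23

noncomputable def t26 : Tre :=
  .Q [0,0,-2,0,0,0,0,0,1,-1,0,1] (.p true [0,0,0,0,1] [1] (⟨0,[(16,0)]⟩,⟨0,[(15,0)]⟩) .k 1 (⟨0,[]⟩,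
  ⟨0,[]⟩) .k .k) t24 t25

theorem ok26 : chk K t26 l11 = true :=
  chk_Q (e' := [0,0,2,0,0,0,0,0,-1,1,0,-1]) (by decide +kernel) (by decide +kernel) ok24 ok25

noncomputable def t28 : Tre :=
  .I [0,-2,-1,-1,1] t26 t27

theorem ok28 : chk K t28 r10 = true :=
  chk_I (e' := [1,2,1,1,-1]) (by decide +kernel) (by decide +kernel) ok26 ok27

noncomputable def t29 : Tre :=
  .I [1,2,1,0,-1] t9 t28

theorem ok29 : chk K t29 l9 = true :=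
  chk_I (e' := [0,-2,-1,0,1]) (by decide +kernel) (by decide +kernel) ok9 ok28

noncomputable def t31 : Tre :=
  .Q [0,0,0,0,0,-1,0,0,0,1,0,-1] (.ed true [0,1,0,0,1] .k) t29 t30

theorem ok31 : chk K t31 r8 = true :=
  chk_Q (e' := [0,0,0,0,0,1,0,0,0,-1,0,1]) (by decide +kernel) (by decide +kernel) ok29 ok30

noncomputable def t32 : Tre :=
  .I [0,-1,2,2] t8 t31

theorem ok32 : chk K t32 r7 = true :=
  chk_I (e' := [1,1,-2,-2]) (by decide +kernel) (by decide +kernel) ok8 ok31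

noncomputable def t33 : Tre :=
  .I [1,-1,1,2] t7 t32

theorem ok33 : chk K t33 r6 = true :=
  chk_I (e' := [0,1,-1,-2]) (by decide +kernel) (by decide +kernel) ok7 ok32

noncomputable def t34 : Tre :=
  .Q [0,0,1,0,-1,0,0,0,1,0,0,1] (.p true [0,0,0,0,1] [] (⟨0,[(10,0)]⟩,⟨0,[(9,0)]⟩) .k 0 (⟨0,[]⟩,⟨0,
  []⟩) .k .k) t6 t33

theorem ok34 : chk K t34 l5 = true :=
  chk_Q (e' := [0,0,-1,0,1,0,0,0,-1,0,0,-1]) (by decide +kernel) (by decide +kernel) ok6 ok33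

noncomputable def t36 : Tre :=
  .Q [0,0,0,0,0,-1,0,0,0,0,0,1] (.ed false [1,-1,0,0,1] .k) t34 t35

theorem ok36 : chk K t36 r2 = true :=
  chk_Q (e' := [0,0,0,0,0,1,0,0,0,0,0,-1]) (by decide +kernel) (by decide +kernel) ok34 ok35

noncomputable def t37 : Tre :=
  .Q [0,0,1,0,0,0,0,0,-1,1,0,-1] (.p false [0,0,0,0,1] [1] (⟨0,[(8,0)]⟩,⟨0,[(7,0)]⟩) .k 1 (⟨0,[]⟩,
  ⟨0,[]⟩) .k .k) t5 t36

theorem ok37 : chk K t37 r1 = true :=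
  chk_Q (e' := [0,0,-1,0,0,0,0,0,1,-1,0,1]) (by decide +kernel) (by decide +kernel) ok5 ok36

noncomputable def t38 : Tre :=
  .I [0,-1,0,2] t0 t37

theorem ok38 : chk K t38 l0 = true :=
  chk_I (e' := [1,1,0,-2]) (by decide +kernel) (by decide +kernel) ok0 ok37

noncomputable def t44 : Tre :=
  .I [0,1,-1,0,0,0,0,1] t42 t43

theorem ok44 : chk K t44 r26 = true :=
  chk_I (e' := [1,-1,1,0,0,0,0,-1]) (by decide +kernel) (by decide +kernel) ok42 ok43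

noncomputable def t45 : Tre :=
  .Q [0,-1,0,0,1,0,1,1,0,-1,1] (.p true [0,0,1] [1] (⟨0,[(20,0)]⟩,⟨0,[(19,0)]⟩) .k 1 (⟨0,[]⟩,⟨0,
  []⟩) .k .k) t41 t44

theorem ok45 : chk K t45 l25 = true :=
  chk_Q (e' := [0,1,0,0,-1,0,-1,-1,0,1,-1]) (by decide +kernel) (by decide +kernel) ok41 ok44

noncomputable def t47 : Tre :=
  .Q [0,1,0,-1,0,0,1,1,0,0,1] (.p true [0,0,1] [] (⟨0,[(19,0)]⟩,⟨0,[(18,0)]⟩) .k 0 (⟨0,[]⟩,⟨0,[]⟩)
  .k .k) t45 t46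

theorem ok47 : chk K t47 l24 = true :=
  chk_Q (e' := [0,-1,0,1,0,0,-1,-1,0,0,-1]) (by decide +kernel) (by decide +kernel) ok45 ok46

noncomputable def t49 : Tre :=
  .Q [0,0,0,0,0,0,-1,0,0,0,-1] (.p false [0,0,1] [] (⟨0,[(18,0)]⟩,⟨0,[(17,0)]⟩) .k 0 (⟨0,[]⟩,⟨0,
  []⟩) .k .k) t47 t48

theorem ok49 : chk K t49 l23 = true :=
  chk_Q (e' := [0,0,0,0,0,0,1,0,0,0,1]) (by decide +kernel) (by decide +kernel) ok47 ok48

noncomputable def t55 : Tre :=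
  .I [1,-1,2,1,0,0,0,1] t53 t54

theorem ok55 : chk K t55 r34 = true :=
  chk_I (e' := [0,1,-2,-1,0,0,0,-1]) (by decide +kernel) (by decide +kernel) ok53 ok54

noncomputable def t56 : Tre :=
  .Q [0,-1,0,0,0,0,0,0,-1,1,0,-1] (.p false [0,0,0,0,1] [1] (⟨0,[(17,0)]⟩,⟨0,[(16,0)]⟩) .k 1 (⟨0,
  []⟩,⟨0,[]⟩) .k .k) t52 t55

theorem ok56 : chk K t56 r33 = true :=
  chk_Q (e' := [0,1,0,0,0,0,0,0,1,-1,0,1]) (by decide +kernel) (by decide +kernel) ok52 ok55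

noncomputable def t57 : Tre :=
  .Q [0,-1,0,1,0,0,-1,-1,0,1,-1] (.p false [0,0,1] [1] (⟨0,[(23,0)]⟩,⟨0,[(22,0)]⟩) .k 1 (⟨0,[]⟩,⟨0,
  []⟩) .k .k) t51 t56

theorem ok57 : chk K t57 r32 = true :=
  chk_Q (e' := [0,1,0,-1,0,0,1,1,0,-1,1]) (by decide +kernel) (by decide +kernel) ok51 ok56

noncomputable def t58 : Tre :=
  .I [0,0,-1,0,0,0,0,1] t50 t57

theorem ok58 : chk K t58 l31 = true :=
  chk_I (e' := [1,0,1,0,0,0,0,-1]) (by decide +kernel) (by decide +kernel) ok50 ok57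

noncomputable def t60 : Tre :=
  .I [0,-1,0,0,1,0,0,-1] t58 t59

theorem ok60 : chk K t60 l30 = true :=
  chk_I (e' := [1,1,0,0,-1,0,0,1]) (by decide +kernel) (by decide +kernel) ok58 ok59

noncomputable def t62 : Tre :=
  .Q [0,2,0,-1,0,0,0,0,1,-1,0,1] (.p true [0,0,0,0,1] [1] (⟨0,[(13,0)]⟩,⟨0,[(12,0)]⟩) .k 1 (⟨0,[]⟩,
  ⟨0,[]⟩) .k .k) t60 t61

theorem ok62 : chk K t62 l29 = true :=
  chk_Q (e' := [0,-2,0,1,0,0,0,0,-1,1,0,-1]) (by decide +kernel) (by decide +kernel) ok60 ok61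

noncomputable def t64 : Tre :=
  .Q [0,0,0,-1,0,0,1,1,0,0,1] (.p true [0,0,1] [] (⟨0,[(19,0)]⟩,⟨0,[(18,0)]⟩) .k 0 (⟨0,[]⟩,⟨0,[]⟩)
  .k .k) t62 t63

theorem ok64 : chk K t64 l28 = true :=
  chk_Q (e' := [0,0,0,1,0,0,-1,-1,0,0,-1]) (by decide +kernel) (by decide +kernel) ok62 ok63

noncomputable def t66 : Tre :=
  .Q [0,0,0,0,0,0,-1,0,0,0,-1] (.p false [0,0,1] [] (⟨0,[(18,0)]⟩,⟨0,[(17,0)]⟩) .k 0 (⟨0,[]⟩,⟨0,
  []⟩) .k .k) t64 t65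

theorem ok66 : chk K t66 r23 = true :=
  chk_Q (e' := [0,0,0,0,0,0,1,0,0,0,1]) (by decide +kernel) (by decide +kernel) ok64 ok65

noncomputable def t67 : Tre :=
  .Q [0,0,0,0,0,0,-1,-1,0,0,-1] (.p false [0,0,1] [] (⟨0,[(17,0)]⟩,⟨0,[(16,0)]⟩) .k 0 (⟨0,[]⟩,⟨0,
  []⟩) .k .k) t49 t66

theorem ok67 : chk K t67 r22 = true :=
  chk_Q (e' := [0,0,0,0,0,0,1,1,0,0,1]) (by decide +kernel) (by decide +kernel) ok49 ok66

noncomputable def t68 : Tre :=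
  .I [0,-1,2,2] t40 t67

theorem ok68 : chk K t68 r21 = true :=
  chk_I (e' := [1,1,-2,-2]) (by decide +kernel) (by decide +kernel) ok40 ok67

noncomputable def t69 : Tre :=
  .I [1,-1,2,1] t39 t68

theorem ok69 : chk K t69 l20 = true :=
  chk_I (e' := [0,1,-2,-1]) (by decide +kernel) (by decide +kernel) ok39 ok68

noncomputable def t71 : Tre :=
  .I [0,-1,-2,-1,1] t69 t70

theorem ok71 : chk K t71 r0 = true :=
  chk_I (e' := [1,1,2,1,-1]) (by decide +kernel) (by decide +kernel) ok69 ok70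

noncomputable def t72 : Tre :=
  .Q [0,1,0,1,0,0,0,0,0,-1] (.pp true [-1,1]) t38 t71

theorem ok72 : chk K t72 base = true :=
  chk_Q (e' := [0,-1,0,-1,0,0,0,0,0,1]) (by decide +kernel) (by decide +kernel) ok38 ok71

theorem closed {p a b c J l q : ℤ} {D dl : ℝ} {Cl : ℤ → ℤ → ℤ → ℤ → ℝ → Prop}
    (W : World p a b c J 1 l q D dl Cl) (g : G0 p a b c J D)
    {N X R : ℤ} {I : ℝ} (hk : KCl p l Cl N X R I) (kz : KF a b D (X + (1 : ℤ) * I) (X + (1 : ℤ) * I + R) I)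
    {Ne Xe : ℤ} {Ie : ℝ} (he : EFac p 1 D Cl (a) Ne Xe Ie)
    (hkf : ∀ kf ∈ (kfY 1 [0,0,0,0,0,0,1,0,0,0,1]), KOk p l Cl 1
      (xv [1, a, b, c, p, J, X, R, Xe] [D, I, Ie]) N kf)
    (h0 : 1 ≤ (c : ℝ))
    (h1 : 1 ≤ (a : ℝ) - (b : ℝ) - (c : ℝ))
    (h2 : 0 < 1 - (p : ℝ) + 2 * D)
    (h3 : 1 ≤ 2 * (a : ℝ) - (b : ℝ))
    (h4 : 1 ≤ 2 - (J : ℝ))
    (h5 : 0 < -(b : ℝ) - (X : ℝ) + D - I)
    (h6 : 0 < -(J : ℝ) + I)
    (h7 : 0 < -(J : ℝ) + D - I)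
    (h8 : 0 < -2 * (X : ℝ) + D - 2 * I) : False := by
  have g1 := g.a2
  have g2 := g.b2
  have g3 := g.pa
  have g4 := g.pb
  have g5 := g.J1
  have g6 := g.JD
  have g7 := g.D2
  have g8 := g.ca
  have g9 := g.ca'
  have k1 := kz.I0
  have k2 := kz.ID
  have k3 := kz.z1
  have k4 := kz.z2
  have k5 := kz.s1
  have k6 := kz.s2
  have e1 := he.I0
  have e2 := he.ID
  have e3 := he.x0
  have e4 := he.xp
  push_cast at *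
  refine (val_E W.toBase hk he (row := [0,1]) (by simp) (by simp) (kfY 1 [0,0,0,0,0,0,1,0,0,0,1])).sound W rfl (Nk := N)
    (fun kf _ _ => ⟨_, rfl⟩) hkf ?_ ok72
  · simp only [base, List.forall_mem_cons, List.not_mem_nil, false_imp_iff, implies_true,
      and_true, hld, xv, evg_cons, evg_nil, List.map_cons, List.map_nil, List.cons_append,
      List.nil_append, if_true, if_false, Bool.false_eq_true]
    push_cast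
    refine ⟨?_, ?_, ?_, ?_, ?_, ?_, ?_, ?_, ?_, ?_, ?_, ?_, ?_, ?_, ?_, ?_, ?_, ?_, ?_, ?_, ?_, ?_, ?_, ?_, ?_, ?_, ?_⟩ <;> linarith

end Helper25.S1T.Ypp_1cL2
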