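import Pool.Agent.Helper25.S1T.Ypp_1cL2_q

set_option autoImplicit false
set_option linter.all false

namespace Helper25.S1T.Ypp_1cL2

open Helper25.KG Helper25.KW Helper55.KE Helper11.CT

noncomputable def t0 : Tre :=
  (.S ⟨1,0,[0,0,-1,-1],[1,-1],[1],(⟨0,[(18,0)]⟩,⟨0,[(19,0)]⟩),⟨0,[(3,0),(0,0)]⟩,.k,(.r (-1) ⟨0,[(22,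
  1),(3,0)]⟩ ⟨0,[(0,0),(11,0),(0,0),(14,0)]⟩),⟨true,0,⟨1,[(0,0),(11,0),(0,0),(14,0)]⟩,⟨0,[(22,0)]⟩⟩,
  ⟨false,1,⟨1,[(5,0),(0,0),(19,0)]⟩,⟨0,[]⟩⟩,⟨false,0,⟨1,[(0,1),(11,0),(0,0)]⟩,⟨0,[(22,0),(0,0),(2,
  0)]⟩⟩,⟨true,0,⟨0,[(24,0)]⟩,⟨0,[(23,0)]⟩⟩,[.a ⟨true,0,⟨1,[(21,0),(1,1),(2,0)]⟩,⟨0,[(24,0)]⟩⟩ ⟨true,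
  0,⟨0,[]⟩,⟨1,[(12,0),(0,0)]⟩⟩ ⟨false,1,⟨1,[(22,1),(2,0),(0,0)]⟩,⟨1,[(0,0),(11,0),(0,0),(14,0)]⟩⟩,
  .o ⟨false,1,⟨0,[(23,0),(2,0)]⟩,⟨0,[(1,0)]⟩⟩,.o ⟨false,0,⟨1,[(12,0),(0,0)]⟩,⟨1,[(17,0),(7,0)]⟩⟩,.o
  ⟨false,0,⟨0,[(12,0),(0,0)]⟩,⟨1,[(0,1),(16,0),(4,3),(3,0)]⟩⟩]⟩)

theorem ok0 : chk K t0 l1 = true := by decide +kernel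

noncomputable def t1 : Tre :=
  (.Q [0,0,0,0,0,0,0,0,1,-1,0,1] (.p true [0,0,0,0,1] [1] (⟨0,[(11,0)]⟩,⟨0,[(10,0)]⟩) .k 1 (⟨0,[]⟩,
  ⟨0,[]⟩) .k .k) (.Q [0,0,0,0,0,-1,0,0,0,1,0,-1] (.ed true [0,1,0,0,1] .k) (.S ⟨1,0,[0,2,1,1],[0,1,
  0,0,1],[1,1,1],(⟨0,[(13,0),(10,0)]⟩,⟨0,[(0,0)]⟩),⟨0,[(13,0)]⟩,(.r 0 ⟨0,[(4,0),(1,0),(4,0)]⟩ ⟨0,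
  [(27,0),(3,0)]⟩),.k,⟨false,1,⟨3,[(5,1),(4,0),(0,0),(19,2)]⟩,⟨0,[(29,0)]⟩⟩,⟨true,0,⟨0,[(33,0)]⟩,⟨0,
  []⟩⟩,⟨true,0,⟨0,[]⟩,⟨0,[(33,0)]⟩⟩,⟨false,0,⟨0,[(29,0)]⟩,⟨3,[(5,1),(4,0),(0,0),(19,2)]⟩⟩,[.o
  ⟨false,(-1),⟨0,[(2,0)]⟩,⟨1,[(4,1),(17,0),(4,1),(3,2)]⟩⟩,.e ⟨false,0,⟨0,[]⟩,⟨1,[(10,0),(0,0),(18,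
  0)]⟩⟩ ⟨false,0,⟨0,[(29,0),(3,0)]⟩,⟨0,[(27,0),(3,0)]⟩⟩,.a ⟨true,0,⟨1,[(1,1),(24,0),(3,0)]⟩,⟨0,[(4,
  0)]⟩⟩ ⟨false,0,⟨1,[(17,0),(0,0)]⟩,⟨1,[(30,0),(0,0)]⟩⟩ ⟨true,(-1),⟨0,[(2,0),(1,0)]⟩,⟨0,[(27,0),(3,
  0)]⟩⟩,.o ⟨false,0,⟨0,[(1,0)]⟩,⟨0,[(10,0)]⟩⟩]⟩) (.R ⟨0,false,false,true,[1,0,0,0,-1],[2,-1,0,0,-1],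
  [0,0,0,-1],(⟨0,[(12,0)]⟩,⟨0,[(13,0)]⟩),(⟨0,[(12,0),(10,0)]⟩,⟨0,[(0,0)]⟩),⟨0,[(0,0)]⟩,.k,(.r (-1)
  ⟨0,[(27,0),(3,0)]⟩ ⟨0,[(4,0),(1,0),(4,0)]⟩),(.r (-1) ⟨0,[(27,0),(3,0)]⟩ ⟨0,[(4,0),(1,0),(4,0)]⟩),
  .k,.k,.k,⟨true,0,⟨1,[(17,0),(0,0)]⟩,⟨0,[]⟩⟩,⟨false,0,⟨3,[(4,1),(6,1),(14,0),(3,0)]⟩,⟨1,[(22,0),(7,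
  0)]⟩⟩,⟨true,0,⟨0,[(28,0)]⟩,⟨0,[(29,0)]⟩⟩,⟨false,0,⟨7,[(4,1),(0,3),(5,1),(14,2),(3,0),(0,1)]⟩,⟨0,
  [(6,0),(24,0)]⟩⟩,⟨false,0,⟨0,[]⟩,⟨0,[]⟩⟩,⟨false,0,⟨0,[]⟩,⟨0,[]⟩⟩,[.e ⟨false,1,⟨3,[(5,1),(4,0),(0,
  0),(18,1),(0,0)]⟩,⟨0,[(29,0)]⟩⟩ ⟨false,0,⟨1,[(26,0),(0,1),(3,0)]⟩,⟨1,[(6,1),(3,0),(0,0),(19,0)]⟩⟩,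
  .o ⟨false,1,⟨0,[(4,0),(22,0),(3,0)]⟩,⟨0,[(1,0),(4,0)]⟩⟩,.o ⟨false,1,⟨0,[(10,0)]⟩,⟨0,[(1,0)]⟩⟩,.a
  ⟨true,0,⟨0,[(4,0)]⟩,⟨1,[(1,1),(24,0),(3,0)]⟩⟩ ⟨false,1,⟨0,[(27,0),(3,0)]⟩,⟨1,[(17,0),(0,0),(10,
  1)]⟩⟩ ⟨true,0,⟨1,[(26,0),(0,1),(3,0)]⟩,⟨1,[(6,1),(10,0),(0,0)]⟩⟩]⟩)) (.Q [0,0,0,0,0,-1,0,0,0,1,0,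
  -1] (.ed true [0,1,0,0,1] .k) (.R ⟨2,true,false,true,[0,1],[0,1,0,0,1],[1,2,1,1],(⟨0,[]⟩,⟨0,[]⟩),
  (⟨0,[(13,0),(10,0)]⟩,⟨0,[(0,0)]⟩),⟨0,[]⟩,.k,(.r 0 ⟨0,[(4,0),(1,0),(4,0)]⟩ ⟨0,[(27,0),(3,0)]⟩),.k,
  .k,(.r (-1) ⟨0,[(27,0),(3,0)]⟩ ⟨0,[(4,0),(1,0),(4,0)]⟩),.k,⟨true,0,⟨0,[]⟩,⟨1,[(17,0),(0,0)]⟩⟩,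
  ⟨false,0,⟨1,[(2,1),(23,0),(0,1),(3,2)]⟩,⟨0,[(10,0)]⟩⟩,⟨false,0,⟨0,[(33,0)]⟩,⟨0,[(31,0)]⟩⟩,⟨true,
  (-1),⟨1,[(2,0),(0,0),(22,0),(1,0)]⟩,⟨1,[(1,1),(20,0),(8,0)]⟩⟩,⟨true,(-1),⟨0,[(1,0),(0,0)]⟩,⟨3,[(5,
  1),(4,0),(0,0),(19,2)]⟩⟩,⟨false,(-1),⟨1,[(2,1),(23,0),(4,0)]⟩,⟨3,[(1,1),(3,1),(4,1),(11,0),(8,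
  4)]⟩⟩,[]⟩) (.R ⟨0,false,false,false,[-1,1,0,0,1],[0,0,0,0,1],[1,1],(⟨0,[(0,0)]⟩,⟨0,[(12,0),(10,
  0)]⟩),(⟨0,[(13,0)]⟩,⟨0,[(12,0)]⟩),⟨0,[(12,0)]⟩,(.r 0 ⟨0,[(4,0),(1,0),(4,0)]⟩ ⟨0,[(27,0),(3,0)]⟩),
  .k,.k,.k,.k,.k,⟨true,0,⟨0,[]⟩,⟨1,[(17,0),(0,0)]⟩⟩,⟨false,0,⟨3,[(4,1),(6,1),(14,0),(3,0)]⟩,⟨1,[(22,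
  0),(7,0)]⟩⟩,⟨false,1,⟨0,[(27,0),(3,0)]⟩,⟨1,[(17,0),(0,0),(10,1)]⟩⟩,⟨true,0,⟨7,[(4,1),(0,3),(5,1),
  (14,2),(3,0),(0,1)]⟩,⟨0,[(6,0)]⟩⟩,⟨false,0,⟨0,[]⟩,⟨0,[]⟩⟩,⟨false,0,⟨0,[]⟩,⟨0,[]⟩⟩,[.o ⟨false,0,⟨0,
  [(3,0)]⟩,⟨1,[(1,1),(20,0),(8,0)]⟩⟩,.a ⟨true,0,⟨0,[(11,0)]⟩,⟨0,[(1,0)]⟩⟩ ⟨true,0,⟨0,[]⟩,⟨1,[(17,0),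
  (0,0)]⟩⟩ ⟨false,0,⟨3,[(4,1),(6,1),(14,0),(3,0)]⟩,⟨1,[(22,0),(7,0)]⟩⟩,.o ⟨false,1,⟨1,[(2,1),(19,0),
  (4,1),(3,2)]⟩,⟨0,[(4,0)]⟩⟩,.o ⟨false,1,⟨1,[(3,1),(18,0),(8,0)]⟩,⟨0,[(1,0)]⟩⟩]⟩)))

theorem ok1 : chk K t1 l4 = true := by decide +kernel

noncomputable def t2 : Tre :=
  (.Q [0,0,-2,0,1,0,0,0,0,-1] (.pp true [-1,1]) (.I [1,-1,2,1] (.S ⟨1,0,[0,0,-1,-1],[1,-1],[0,1,-1,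
  -1],(⟨0,[(23,0)]⟩,⟨0,[(24,0)]⟩),⟨0,[(8,0),(0,0)]⟩,.k,(.r (-1) ⟨1,[(1,1),(3,1),(20,0),(4,0)]⟩ ⟨2,
  [(0,3),(24,1),(3,1)]⟩),⟨true,0,⟨0,[(33,0)]⟩,⟨0,[]⟩⟩,⟨false,1,⟨1,[(10,0),(0,0),(19,0)]⟩,⟨0,[]⟩⟩,
  ⟨false,0,⟨0,[(29,0)]⟩,⟨3,[(5,1),(4,0),(0,0),(19,2)]⟩⟩,⟨true,0,⟨0,[(29,0)]⟩,⟨0,[(28,0)]⟩⟩,[.a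
  ⟨true,0,⟨2,[(2,0),(8,0),(14,0),(1,1)]⟩,⟨0,[(29,0)]⟩⟩ ⟨true,0,⟨0,[(27,0)]⟩,⟨0,[(0,0)]⟩⟩ ⟨false,1,
  ⟨4,[(1,2),(0,0),(2,1),(5,0),(14,0),(3,1)]⟩,⟨2,[(0,1),(24,0),(3,0)]⟩⟩,.o ⟨false,1,⟨3,[(5,1),(4,0),
  (0,0),(19,2)]⟩,⟨0,[(6,0)]⟩⟩,.o ⟨false,0,⟨1,[(17,0),(0,0)]⟩,⟨1,[(22,0),(7,0)]⟩⟩,.o ⟨false,0,⟨0,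
  [(17,0),(0,0)]⟩,⟨0,[(1,0)]⟩⟩]⟩) (.I [0,-1,2,2] (.S ⟨1,0,[0,0,-1,-1],[1,-1],[0,0,1],(⟨0,[(24,0)]⟩,
  ⟨0,[(25,0)]⟩),⟨0,[(9,0),(0,0)]⟩,.k,(.r (-1) ⟨2,[(1,1),(4,1),(24,0),(0,1)]⟩ ⟨0,[(0,0),(33,0)]⟩),
  ⟨true,0,⟨0,[(0,0),(28,0)]⟩,⟨0,[(1,0)]⟩⟩,⟨false,1,⟨1,[(11,0),(0,0),(19,0)]⟩,⟨0,[]⟩⟩,⟨false,0,⟨0,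
  [(0,0)]⟩,⟨2,[(1,1),(4,1),(24,0),(0,1)]⟩⟩,⟨true,0,⟨0,[(30,0)]⟩,⟨0,[(29,0)]⟩⟩,[.a ⟨true,0,⟨2,[(3,0),
  (8,0),(14,0),(1,1)]⟩,⟨0,[(30,0)]⟩⟩ ⟨true,0,⟨1,[(18,0),(0,0)]⟩,⟨0,[]⟩⟩ ⟨false,1,⟨2,[(1,0),(4,0),
  (24,1),(0,0)]⟩,⟨1,[(0,0),(33,0)]⟩⟩,.o ⟨false,1,⟨3,[(6,1),(4,0),(0,0),(19,2)]⟩,⟨0,[(7,0)]⟩⟩,.o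
  ⟨false,0,⟨1,[(18,0),(0,0)]⟩,⟨1,[(23,0),(7,0)]⟩⟩,.o ⟨false,0,⟨0,[(18,0),(0,0)]⟩,⟨0,[(2,0)]⟩⟩]⟩)
  (.I [1,1,0,0,0,0,0,1] (.Q [0,0,1,0,0,0,0,0,-1,0,0,-1] (.p false [0,0,0,0,1] [] (⟨0,[(15,0)]⟩,⟨0,
  [(14,0)]⟩) .k 0 (⟨0,[]⟩,⟨0,[]⟩) .k .k) (.Q [0,0,0,0,0,-1,0,0,0,1,0,-1] (.ed true [0,1,0,0,1] .k)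
  (.Q [0,-2,0,0,1,0,0,0,-1,0,0,-1] (.p false [0,0,0,0,1] [] (⟨0,[(17,0)]⟩,⟨0,[(16,0)]⟩) .k 0 (⟨0,
  []⟩,⟨0,[]⟩) .k .k) (.Q [0,2,0,1,-1,0,0,0,1,0,0,1] (.p true [0,0,0,0,1] [] (⟨0,[(18,0)]⟩,⟨0,[(17,
  0)]⟩) .k 0 (⟨0,[]⟩,⟨0,[]⟩) .k .k) (.R ⟨2,true,false,true,[0,1],[0,1,0,0,1],[1,1,1],(⟨0,[]⟩,⟨0,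
  []⟩),(⟨0,[(19,0),(10,0)]⟩,⟨0,[(2,0)]⟩),⟨0,[]⟩,.k,(.r 0 ⟨1,[(0,0),(15,0),(6,0),(0,0),(10,0)]⟩ ⟨3,
  [(5,0),(5,0),(24,0),(0,2)]⟩),.k,.k,(.r (-1) ⟨3,[(5,0),(5,0),(24,0),(0,2)]⟩ ⟨1,[(0,0),(15,0),(6,0),
  (0,0),(10,0)]⟩),.k,⟨false,1,⟨3,[(5,0),(5,0),(24,0),(0,2)]⟩,⟨1,[(0,0),(15,0),(18,0)]⟩⟩,⟨true,0,⟨0,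
  [(17,0)]⟩,⟨0,[(3,0)]⟩⟩,⟨true,0,⟨0,[(34,0)]⟩,⟨0,[(35,0)]⟩⟩,⟨false,0,⟨0,[(17,0),(21,0)]⟩,⟨0,[(1,
  0)]⟩⟩,⟨false,0,⟨0,[]⟩,⟨1,[(16,0),(0,0),(19,0)]⟩⟩,⟨true,(-1),⟨0,[(0,0)]⟩,⟨19,[(3,5),(1,2),(2,11),
  (2,0),(4,1),(11,5)]⟩⟩,[]⟩) (.Q [0,-1,0,1,0,0,0,0,-2,1,0,-2] (.p false [0,0,0,0,1] [1,0,0,0,-1]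
  (⟨0,[(19,0)]⟩,⟨0,[(18,0)]⟩) .k 2 (⟨0,[(18,0)]⟩,⟨0,[(19,0)]⟩) .k (.r 0 ⟨0,[(39,1)]⟩ ⟨0,[(37,0)]⟩))
  (.Q [0,0,0,0,0,-1,0,0,0,0,0,1] (.ed false [1,-1,0,0,1] .k) (.R ⟨1,false,false,false,[1,0,0,0,-1],
  [0,-1,0,0,1],[1,1,-1,-1],(⟨0,[(20,0)]⟩,⟨0,[(21,0)]⟩),(⟨0,[(0,0)]⟩,⟨0,[(20,0),(11,0)]⟩),⟨0,[(4,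
  0)]⟩,.k,(.r 0 ⟨0,[(35,0)]⟩ ⟨1,[(18,0),(0,0),(5,0),(0,0),(10,1),(1,0)]⟩),(.r (-1) ⟨3,[(7,0),(5,0),
  (24,0),(0,2)]⟩ ⟨0,[(12,0),(1,0),(4,0)]⟩),(.r (-1) ⟨1,[(25,0),(0,0),(10,1),(1,1)]⟩ ⟨7,[(7,0),(5,2),
  (19,5)]⟩),.k,.k,⟨true,0,⟨0,[]⟩,⟨1,[(25,0),(0,0)]⟩⟩,⟨false,1,⟨1,[(11,1),(6,0),(0,2),(19,0)]⟩,⟨7,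
  [(1,7),(5,2),(5,0),(19,1)]⟩⟩,⟨false,0,⟨7,[(7,2),(5,0),(19,1)]⟩,⟨1,[(25,0),(0,0),(10,1),(1,1)]⟩⟩,
  ⟨true,0,⟨0,[(11,0),(7,0),(16,0)]⟩,⟨0,[(1,0)]⟩⟩,⟨false,0,⟨5,[(8,0),(0,0),(4,0),(18,1),(0,0)]⟩,⟨1,
  [(25,0),(0,0),(12,1)]⟩⟩,⟨false,0,⟨0,[(11,0),(7,0)]⟩,⟨3,[(1,1),(1,0),(6,1),(7,0)]⟩⟩,[.e ⟨false,0,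
  ⟨0,[(8,0)]⟩,⟨1,[(18,0),(0,0),(5,0),(0,0),(10,1),(1,0)]⟩⟩ ⟨false,1,⟨3,[(11,3),(1,1),(4,0),(0,4),
  (18,1),(0,0)]⟩,⟨0,[(1,0)]⟩⟩,.o ⟨false,1,⟨3,[(11,3),(1,1),(4,0),(0,0),(19,2)]⟩,⟨1,[(1,0),(12,0)]⟩⟩,
  .a ⟨true,0,⟨30,[(1,7),(5,1),(2,3),(1,10),(20,6),(0,3)]⟩,⟨0,[(19,0)]⟩⟩ ⟨true,0,⟨7,[(7,2),(5,0),(19,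
  1)]⟩,⟨1,[(25,0),(0,0),(10,1)]⟩⟩ ⟨false,1,⟨3,[(11,3),(1,1),(4,0),(0,4),(19,2)]⟩,⟨0,[(1,0)]⟩⟩,.o
  ⟨false,0,⟨0,[(5,0)]⟩,⟨1,[(11,1),(26,0),(0,0)]⟩⟩]⟩) (.R ⟨0,false,false,false,[0,1,0,0,-1],[0,1],[0,
  0,1],(⟨0,[(0,0)]⟩,⟨0,[(21,0),(9,0)]⟩),(⟨0,[(32,0)]⟩,⟨0,[(31,0)]⟩),⟨0,[(21,0)]⟩,(.r (-1) ⟨1,[(18,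
  0),(0,0),(5,0),(0,0),(10,1),(1,0)]⟩ ⟨0,[(35,0)]⟩),.k,.k,.k,.k,.k,⟨false,1,⟨3,[(13,1),(4,0),(0,0),
  (18,1),(0,0)]⟩,⟨0,[(37,0)]⟩⟩,⟨true,0,⟨0,[(19,0)]⟩,⟨0,[(5,0)]⟩⟩,⟨true,0,⟨0,[(36,0)]⟩,⟨0,[(37,0)]⟩⟩,
  ⟨false,0,⟨0,[(19,0)]⟩,⟨1,[(3,0),(14,0)]⟩⟩,⟨false,0,⟨0,[]⟩,⟨0,[]⟩⟩,⟨false,0,⟨0,[]⟩,⟨0,[]⟩⟩,[.a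
  ⟨true,0,⟨0,[(37,0)]⟩,⟨2,[(10,0),(8,0),(14,0),(1,1)]⟩⟩ ⟨true,0,⟨1,[(25,0),(0,0)]⟩,⟨0,[]⟩⟩ ⟨false,0,
  ⟨0,[(19,0),(17,0)]⟩,⟨25,[(1,0),(0,3),(4,10),(1,1),(0,0),(7,18)]⟩⟩,.o ⟨false,1,⟨0,[(14,0),(24,0)]⟩,
  ⟨0,[(36,0)]⟩⟩,.o ⟨false,1,⟨28,[(1,11),(5,5),(1,6),(8,4),(11,16),(2,2)]⟩,⟨1,[(19,1),(5,0),(0,0)]⟩⟩,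
  .o ⟨false,1,⟨21,[(1,3),(3,4),(1,1),(10,8),(11,12),(2,0)]⟩,⟨0,[(19,0)]⟩⟩]⟩)) (.I [1,-2,-1,-1,1]
  (.Q [0,0,0,0,0,1,0,0,0,0,0,-1] (.ed true [1,-1,0,0,1] .k) (.R ⟨0,false,false,false,[0,1,0,0,-1],
  [0,1],[0,0,1],(⟨0,[(0,0)]⟩,⟨0,[(22,0),(9,0)]⟩),(⟨0,[(33,0)]⟩,⟨0,[(32,0)]⟩),⟨0,[(22,0)]⟩,(.r (-1)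
  ⟨1,[(19,0),(0,0),(5,0),(0,0),(10,1),(1,0)]⟩ ⟨0,[(36,0)]⟩),.k,.k,.k,.k,.k,⟨false,1,⟨3,[(2,0),(8,0),
  (2,0),(4,0),(19,1)]⟩,⟨0,[(38,0)]⟩⟩,⟨true,0,⟨0,[(20,0)]⟩,⟨0,[(6,0)]⟩⟩,⟨true,0,⟨0,[(37,0)]⟩,⟨0,[(38,
  0)]⟩⟩,⟨false,0,⟨0,[(20,0)]⟩,⟨1,[(4,0),(14,0)]⟩⟩,⟨false,0,⟨0,[]⟩,⟨0,[]⟩⟩,⟨false,0,⟨0,[]⟩,⟨0,[]⟩⟩,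
  [.a ⟨true,0,⟨0,[(38,0)]⟩,⟨12,[(2,2),(8,4),(1,0),(20,0),(0,4),(1,4)]⟩⟩ ⟨true,0,⟨1,[(26,0),(0,0)]⟩,
  ⟨0,[]⟩⟩ ⟨false,0,⟨0,[(20,0),(17,0)]⟩,⟨3,[(3,0),(4,0),(0,0),(9,2)]⟩⟩,.o ⟨false,1,⟨0,[(15,0),(24,
  0)]⟩,⟨0,[(37,0)]⟩⟩,.o ⟨false,1,⟨0,[(6,0),(3,0)]⟩,⟨1,[(20,1),(5,0),(0,0)]⟩⟩,.o ⟨false,1,⟨2,[(6,1),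
  (3,0),(8,0),(11,0)]⟩,⟨0,[(20,0)]⟩⟩]⟩) (.I [0,0,1,0,0,1,0,0,-2] (.N [0,1,0,0,2] 1 ⟨0,[(7,0),(5,0),
  (2,0),(19,0)]⟩ ⟨0,[(2,0)]⟩ (.x (-1) ⟨0,[(2,0),(3,0),(6,0),(2,0),(4,0),(0,0)]⟩ ⟨0,[(0,0)]⟩)) (.I
  [0,0,-1,0,0,-1,0,0,2] (.N [0,1,0,0,2] 1 ⟨0,[(8,0),(5,0),(2,0),(19,0)]⟩ ⟨0,[(3,0)]⟩ (.x 0 ⟨0,[(0,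
  0)]⟩ ⟨0,[(8,0),(12,0),(2,1),(10,0)]⟩)) (.Q [0,0,0,0,0,2,0,0,0,0,0,-1] (.p false [0,0,0,0,1] []
  (⟨0,[(24,0)]⟩,⟨0,[(23,0)]⟩) .k 0 (⟨0,[]⟩,⟨0,[]⟩) .k .k) (.R ⟨0,false,false,false,[0,-1,0,0,1],[1,
  -1,0,0,-1],[1,-1,-1,-1],(⟨0,[(3,0)]⟩,⟨7,[(0,3),(15,1),(6,1),(0,3),(13,0),(3,0)]⟩),(⟨0,[(8,0)]⟩,⟨1,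
  [(0,0),(24,2)]⟩),⟨0,[(0,0)]⟩,(.r 0 ⟨0,[(39,0)]⟩ ⟨1,[(22,0),(0,0),(5,0),(0,0),(10,1),(1,0)]⟩),(.r
  (-1) ⟨16,[(4,2),(0,3),(5,0),(1,3),(0,7),(27,1)]⟩ ⟨0,[(16,0),(1,0),(4,0)]⟩),(.x 0 ⟨0,[(0,0),(22,0),
  (5,0),(0,0)]⟩ ⟨28,[(1,11),(1,4),(3,4),(4,9),(0,24),(6,22),(0,22),(11,18),(4,0),(2,9)]⟩),.k,.k,.k,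
  ⟨true,0,⟨0,[]⟩,⟨1,[(29,0),(0,0)]⟩⟩,⟨false,0,⟨0,[(7,0),(1,0),(2,0),(5,0),(19,0)]⟩,⟨1,[(15,1),(6,0),
  (0,2),(19,0)]⟩⟩,⟨true,1,⟨0,[(43,0)]⟩,⟨3,[(11,0),(5,2),(0,7),(19,3),(5,1)]⟩⟩,⟨false,1,⟨0,[(6,1),
  (11,0),(19,0),(2,0)]⟩,⟨0,[(15,0),(7,0),(21,0)]⟩⟩,⟨false,0,⟨0,[]⟩,⟨0,[]⟩⟩,⟨false,0,⟨0,[]⟩,⟨0,[]⟩⟩,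
  [.o ⟨false,1,⟨4,[(6,2),(10,0),(4,1)]⟩,⟨0,[(18,0),(4,0)]⟩⟩,.o ⟨false,1,⟨0,[(6,0)]⟩,⟨0,[(18,0),(4,
  0),(21,0)]⟩⟩,.e ⟨false,1,⟨0,[(4,0)]⟩,⟨0,[(16,0),(1,0),(4,0)]⟩⟩ ⟨false,1,⟨4,[(6,0),(0,5),(1,1),(2,
  3),(3,0),(21,1)]⟩,⟨1,[(18,1),(4,3),(5,0),(0,0)]⟩⟩,.a ⟨true,0,⟨0,[(23,0),(5,0),(0,0)]⟩,⟨0,[(7,0),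
  (4,0),(5,0),(19,0)]⟩⟩ ⟨true,1,⟨2,[(4,1),(7,0),(29,0)]⟩,⟨3,[(9,3),(5,3),(2,3),(10,0),(0,0),(7,3),
  (5,1)]⟩⟩ ⟨false,1,⟨0,[(6,0),(0,0),(4,0),(5,0),(19,0)]⟩,⟨0,[(18,0),(4,1),(5,0),(0,0)]⟩⟩]⟩) (.Q [0,
  0,0,0,0,0,-1,0,0,0,-1] (.p false [0,0,1] [] (⟨0,[(32,0)]⟩,⟨0,[(31,0)]⟩) .k 0 (⟨0,[]⟩,⟨0,[]⟩) .k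
  .k) (.Q [0,-1,0,-1,0,0,-1,-1,0,1,-1] (.p false [0,0,1] [1] (⟨0,[(33,0)]⟩,⟨0,[(32,0)]⟩) .k 1 (⟨0,
  []⟩,⟨0,[]⟩) .k .k) (.I [0,1,-1,0,0,0,0,1] (.I [0,0,0,1,0,0,0,-1] (.S ⟨1,0,[0,1,0,0,0,0,0,1],[0,0,
  1],[1,0,0,-1,0,0,0,1],(⟨0,[(36,0)]⟩,⟨0,[(35,0)]⟩),⟨0,[(25,0)]⟩,.k,.k,⟨false,1,⟨9,[(9,3),(8,5),(7,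
  1),(11,0),(8,0)]⟩,⟨0,[(45,0)]⟩⟩,⟨true,0,⟨0,[(49,0)]⟩,⟨0,[]⟩⟩,⟨true,0,⟨0,[]⟩,⟨0,[(49,0)]⟩⟩,⟨false,
  0,⟨0,[(45,0)]⟩,⟨9,[(9,3),(8,5),(7,1),(11,0),(8,0)]⟩⟩,[.e ⟨false,1,⟨16,[(8,2),(0,3),(4,16),(0,0),
  (1,3),(0,7),(27,1)]⟩,⟨0,[(0,0)]⟩⟩ ⟨false,0,⟨0,[(1,0)]⟩,⟨9,[(0,9),(8,3),(8,5),(7,1),(11,0),(8,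
  0)]⟩⟩,.o ⟨false,1,⟨1,[(31,1),(6,0),(8,0)]⟩,⟨0,[(2,0),(19,0)]⟩⟩,.o ⟨false,1,⟨1,[(33,1),(4,0),(7,
  0)]⟩,⟨0,[(3,0)]⟩⟩,.a ⟨true,0,⟨0,[(33,0)]⟩,⟨0,[(30,0)]⟩⟩ ⟨false,1,⟨0,[(8,0),(5,0)]⟩,⟨1,[(0,1),(32,
  0),(0,0)]⟩⟩ ⟨true,0,⟨0,[(1,0)]⟩,⟨2,[(0,1),(1,0),(6,0),(3,1),(19,0)]⟩⟩]⟩) (.I [0,0,1,0,0,0,0,-1]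
  (.C [(0,0),(0,0),(7,0),(13,1),(19,0)]) (.C [(0,0),(2,0),(19,0),(10,0)]))) (.S ⟨1,0,[0,1,0,0,0,0,0,
  1],[0,0,1],[1,0,0,-1,0,0,0,1],(⟨0,[(35,0)]⟩,⟨0,[(34,0)]⟩),⟨0,[(24,0)]⟩,.k,.k,⟨false,1,⟨9,[(8,3),
  (8,5),(7,1),(11,0),(8,0)]⟩,⟨0,[(44,0)]⟩⟩,⟨true,0,⟨0,[(48,0)]⟩,⟨0,[]⟩⟩,⟨true,0,⟨0,[]⟩,⟨0,[(48,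
  0)]⟩⟩,⟨false,0,⟨0,[(44,0)]⟩,⟨9,[(8,3),(8,5),(7,1),(11,0),(8,0)]⟩⟩,[.a ⟨true,0,⟨0,[(30,0)]⟩,⟨0,[(1,
  0),(42,0)]⟩⟩ ⟨false,1,⟨16,[(7,2),(0,3),(4,16),(0,0),(1,3),(0,7),(27,1)]⟩,⟨1,[(0,1),(20,1),(19,0),
  (3,0)]⟩⟩ ⟨true,0,⟨0,[(2,0),(27,0)]⟩,⟨0,[(0,0)]⟩⟩,.o ⟨false,1,⟨1,[(30,1),(6,0),(8,0)]⟩,⟨0,[(1,0),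
  (19,0)]⟩⟩,.o ⟨false,1,⟨1,[(32,1),(4,0),(7,0)]⟩,⟨0,[(2,0)]⟩⟩,.e ⟨false,1,⟨0,[(7,0),(5,0)]⟩,⟨1,[(0,
  0),(30,0),(0,0),(11,1)]⟩⟩ ⟨false,1,⟨1,[(13,1),(31,0),(0,0)]⟩,⟨0,[(0,0)]⟩⟩]⟩)) (.I [1,0,0,-1,0,0,0,
  1] (.I [0,0,-1,0,0,0,0,1] (.S ⟨1,0,[0,0,0,0,0,0,0,1],[0,0,1],[0,1,0,0,0,0,0,1],(⟨0,[(36,0)]⟩,⟨0,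
  [(35,0)]⟩),⟨0,[(25,0)]⟩,.k,.k,⟨true,0,⟨0,[(49,0)]⟩,⟨0,[]⟩⟩,⟨false,1,⟨1,[(26,0),(0,0),(19,0)]⟩,⟨0,
  []⟩⟩,⟨false,0,⟨0,[(45,0)]⟩,⟨9,[(9,3),(8,5),(7,1),(11,0),(8,0)]⟩⟩,⟨true,0,⟨0,[(45,0)]⟩,⟨0,[(44,
  0)]⟩⟩,[.e ⟨false,0,⟨2,[(0,1),(13,0),(26,0)]⟩,⟨0,[(8,0),(23,0),(0,0),(11,0)]⟩⟩ ⟨false,0,⟨0,[(0,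
  0)]⟩,⟨1,[(32,1),(0,1),(12,0),(0,0)]⟩⟩,.o ⟨false,1,⟨5,[(1,0),(0,4),(5,0),(0,0),(0,1),(22,0),(13,
  2)]⟩,⟨0,[(32,0)]⟩⟩,.o ⟨false,1,⟨1,[(33,1),(4,0),(7,0)]⟩,⟨0,[(3,0)]⟩⟩,.a ⟨true,0,⟨0,[(33,0)]⟩,⟨0,
  [(30,0)]⟩⟩ ⟨false,0,⟨0,[(0,0)]⟩,⟨0,[(32,0),(0,0),(13,0)]⟩⟩ ⟨true,0,⟨0,[(0,0)]⟩,⟨0,[(32,0),(0,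
  0)]⟩⟩]⟩) (.Q [0,0,0,0,0,0,1,1,0,0,1] (.p true [0,0,1] [] (⟨0,[(36,0)]⟩,⟨0,[(35,0)]⟩) .k 0 (⟨0,[]⟩,
  ⟨0,[]⟩) .k .k) (.Q [0,0,0,1,0,0,-1,-1,0,0,-1] (.p false [0,0,1] [] (⟨0,[(37,0)]⟩,⟨0,[(36,0)]⟩) .k
  0 (⟨0,[]⟩,⟨0,[]⟩) .k .k) (.R ⟨2,true,false,false,[0,1],[0,0,1],[0,1,1,1],(⟨0,[]⟩,⟨0,[]⟩),(⟨0,[(38,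
  0)]⟩,⟨0,[(37,0)]⟩),⟨0,[]⟩,.k,.k,.k,.k,.k,.k,⟨false,0,⟨1,[(2,1),(21,1),(19,0),(3,0)]⟩,⟨0,[(10,0),
  (5,0)]⟩⟩,⟨true,0,⟨0,[(35,0)]⟩,⟨0,[(5,0)]⟩⟩,⟨true,0,⟨0,[(51,0)]⟩,⟨0,[]⟩⟩,⟨false,1,⟨5,[(1,3),(9,1),
  (8,3),(12,1),(6,0),(8,0)]⟩,⟨0,[(0,0)]⟩⟩,⟨false,0,⟨0,[(47,0)]⟩,⟨9,[(11,3),(8,5),(7,1),(11,0),(8,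
  0)]⟩⟩,⟨true,0,⟨0,[(1,0)]⟩,⟨0,[(34,0)]⟩⟩,[]⟩) (.I [0,0,0,-1,0,0,0,1] (.C [(0,0),(2,0),(7,0),(13,1),
  (19,0)]) (.C [(0,0),(0,0),(4,0)]))) (.I [0,0,1,0,0,0,0,-1] (.C [(0,0),(0,1),(1,0),(0,1),(5,0),(33,
  0)]) (.C [(0,0),(0,0),(33,0)])))) (.S ⟨1,0,[0,0,1,1,0,0,0,-1],[1,1,-1],[0,1,1,1,0,0,0,-1],(⟨0,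
  [(34,0),(4,0)]⟩,⟨0,[(24,0)]⟩),⟨0,[(34,0)]⟩,.k,.k,⟨true,0,⟨0,[(48,0)]⟩,⟨0,[]⟩⟩,⟨false,1,⟨1,[(25,0),
  (0,0),(19,0)]⟩,⟨0,[]⟩⟩,⟨false,0,⟨0,[(44,0)]⟩,⟨9,[(8,3),(8,5),(7,1),(11,0),(8,0)]⟩⟩,⟨true,0,⟨0,
  [(44,0)]⟩,⟨0,[(43,0)]⟩⟩,[.o ⟨false,0,⟨0,[(0,0),(1,0)]⟩,⟨2,[(8,0),(0,1),(20,2),(6,0)]⟩⟩,.e ⟨false,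
  0,⟨0,[(0,0)]⟩,⟨16,[(7,2),(0,3),(4,16),(0,0),(1,3),(0,7),(27,1)]⟩⟩ ⟨false,1,⟨1,[(0,1),(24,0),(0,0),
  (19,0)]⟩,⟨5,[(1,2),(0,2),(5,0),(0,1),(3,2),(0,2),(26,1)]⟩⟩,.a ⟨true,0,⟨0,[(29,0)]⟩,⟨0,[(32,0)]⟩⟩
  ⟨false,0,⟨1,[(0,1),(31,0),(0,0)]⟩,⟨0,[(7,0),(5,0)]⟩⟩ ⟨true,0,⟨1,[(0,1),(31,0),(0,0)]⟩,⟨5,[(1,2),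
  (0,2),(5,0),(0,1),(3,2),(0,2),(26,1)]⟩⟩,.o ⟨false,0,⟨0,[(2,0)]⟩,⟨1,[(32,1),(4,0),(7,0)]⟩⟩]⟩)))
  (.Q [0,1,0,-1,0,0,-1,-1,0,0,-1] (.p false [0,0,1] [] (⟨0,[(33,0)]⟩,⟨0,[(32,0)]⟩) .k 0 (⟨0,[]⟩,⟨0,
  []⟩) .k .k) (.K ⟨0,[0,1,1],0,0,(⟨0,[(34,0),(3,0)]⟩,⟨0,[(22,0)]⟩),.k,.k,(.x (-1) ⟨15,[(1,15),(0,4),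
  (1,1),(3,1),(0,1),(0,0),(3,2),(0,11),(4,4),(1,15),(12,2)]⟩ ⟨1,[(31,0),(0,2),(1,1),(3,3)]⟩),.k,.k,
  [⟨1,[(31,0),(0,0)]⟩,⟨0,[(1,0)]⟩,⟨0,[(0,0)]⟩,⟨0,[(29,0),(13,0)]⟩]⟩) (.R ⟨2,true,false,false,[0,1],
  [0,1,1],[1,0,1],(⟨0,[]⟩,⟨0,[]⟩),(⟨0,[(34,0),(3,0)]⟩,⟨0,[(22,0)]⟩),⟨0,[]⟩,.k,.k,.k,.k,.k,.k,⟨false,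
  1,⟨4,[(1,0),(4,2),(6,0),(16,4),(0,3),(12,1)]⟩,⟨2,[(0,1),(11,0),(7,0),(0,0)]⟩⟩,⟨true,0,⟨0,[(1,0)]⟩,
  ⟨0,[(32,0)]⟩⟩,⟨false,1,⟨9,[(7,3),(8,5),(7,1),(11,0),(8,0)]⟩,⟨0,[(43,0)]⟩⟩,⟨true,0,⟨2,[(0,1),(18,
  0),(9,0)]⟩,⟨0,[(30,0)]⟩⟩,⟨true,0,⟨0,[]⟩,⟨0,[(47,0)]⟩⟩,⟨false,0,⟨0,[(0,0)]⟩,⟨9,[(7,3),(8,5),(7,1),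
  (5,9),(5,0),(8,0)]⟩⟩,[]⟩))))))) (.Q [0,3,0,1,-1,0,0,0,2,-1,0,2] (.p true [0,0,0,0,1] [1,0,0,0,-1]
  (⟨0,[(21,0)]⟩,⟨0,[(20,0)]⟩) .k 2 (⟨0,[(20,0)]⟩,⟨0,[(21,0)]⟩) .k (.r 0 ⟨6,[(0,1),(0,1),(10,1),(5,
  1),(14,3)]⟩ ⟨0,[(39,0)]⟩)) (.R ⟨1,true,false,true,[1,0,0,0,-1],[0,0,0,0,1],[1,0,0,-1],(⟨0,[(21,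
  0)]⟩,⟨0,[(22,0)]⟩),(⟨0,[(22,0)]⟩,⟨0,[(21,0)]⟩),⟨0,[(5,0)]⟩,.k,.k,(.r (-1) ⟨9,[(2,1),(5,1),(1,1),
  (0,3),(27,0),(0,2)]⟩ ⟨2,[(0,0),(12,0),(5,0),(6,0),(0,0),(10,1)]⟩),.k,(.r (-2) ⟨9,[(2,3),(8,5),(7,
  1),(11,0),(7,4),(0,5)]⟩ ⟨0,[(1,0)]⟩),.k,⟨true,1,⟨5,[(2,1),(0,3),(31,0),(4,2)]⟩,⟨0,[(1,0)]⟩⟩,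
  ⟨false,1,⟨1,[(0,0),(1,0),(36,0),(0,1)]⟩,⟨10,[(4,1),(1,18),(2,3),(0,5),(2,0),(21,7),(2,3)]⟩⟩,⟨true,
  0,⟨0,[(37,0)]⟩,⟨0,[(38,0)]⟩⟩,⟨false,0,⟨1,[(0,0),(1,0),(16,0),(0,0)]⟩,⟨0,[(3,1),(11,0),(19,0),(2,
  0)]⟩⟩,⟨false,0,⟨0,[]⟩,⟨1,[(19,0),(0,0),(19,0)]⟩⟩,⟨true,(-1),⟨0,[(0,0)]⟩,⟨4,[(3,1),(0,3),(1,0),(1,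
  0),(0,0),(3,2),(21,0)]⟩⟩,[]⟩) (.I [0,1,0,0,0,-1,0,0,1] (.I [0,0,1,0,0,-1,-1] (.I [0,1,1,0,0,0,0,
  -1] (.I [0,1,0,0,0,-1,-1,-1] (.I [0,-2,0,0,1,0,0,0,-2] (.I [0,-2,0,-1,1,0,0,0,-1] (.I [0,-2,0,-2,
  1] (.C [(0,0),(21,1),(19,0)]) (.C [(0,0),(6,0),(1,0)])) (.C [(0,0),(5,0),(11,0),(9,0)])) (.C [(0,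
  0),(4,0),(14,0),(6,1)])) (.C [(0,0),(21,0),(6,0)])) (.C [(0,0),(27,0),(0,0)])) (.C [(0,0),(19,0),
  (8,0)])) (.C [(0,0),(5,0),(6,0)])))))) (.S ⟨1,0,[0,-1],[1,0,0,0,-1],[],(⟨0,[(17,0)]⟩,⟨0,[(18,
  0)]⟩),⟨0,[(1,0)]⟩,.k,(.r (-1) ⟨3,[(4,0),(5,0),(24,0),(0,2)]⟩ ⟨0,[(9,0),(1,0),(4,0)]⟩),⟨true,0,⟨0,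
  [(38,0)]⟩,⟨0,[]⟩⟩,⟨false,1,⟨1,[(15,0),(0,0),(19,0)]⟩,⟨0,[]⟩⟩,⟨false,0,⟨0,[(34,0)]⟩,⟨3,[(10,1),(4,
  0),(0,0),(19,2)]⟩⟩,⟨true,0,⟨0,[(34,0)]⟩,⟨0,[(33,0)]⟩⟩,[.o ⟨false,1,⟨3,[(2,1),(3,0),(0,0),(7,0),
  (18,0),(1,0)]⟩,⟨0,[(8,0)]⟩⟩,.a ⟨true,1,⟨0,[(7,0),(26,0)]⟩,⟨0,[(0,0)]⟩⟩ ⟨false,1,⟨1,[(35,0),(0,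
  0)]⟩,⟨0,[(38,0)]⟩⟩ ⟨true,1,⟨0,[(36,0)]⟩,⟨0,[(0,0),(1,0)]⟩⟩,.e ⟨false,1,⟨1,[(15,0),(0,0),(19,0)]⟩,
  ⟨0,[]⟩⟩ ⟨false,1,⟨0,[(36,0)]⟩,⟨0,[(38,0)]⟩⟩,.o ⟨false,0,⟨0,[(2,0)]⟩,⟨1,[(8,1),(26,0),(0,0)]⟩⟩]⟩))
  (.R ⟨0,false,false,false,[1,0,0,0,-1],[0,1],[1,0,1,1],(⟨0,[(16,0)]⟩,⟨0,[(17,0)]⟩),(⟨0,[(28,0)]⟩,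
  ⟨0,[(27,0)]⟩),⟨0,[(0,0)]⟩,.k,.k,(.r (-1) ⟨3,[(3,0),(5,0),(24,0),(0,2)]⟩ ⟨0,[(8,0),(1,0),(4,0)]⟩),
  (.r (-1) ⟨3,[(3,0),(5,0),(24,0),(0,2)]⟩ ⟨0,[(8,0),(1,0),(4,0)]⟩),.k,.k,⟨true,0,⟨0,[]⟩,⟨1,[(21,0),
  (0,0)]⟩⟩,⟨false,1,⟨0,[(5,0),(9,0)]⟩,⟨0,[(8,0)]⟩⟩,⟨false,0,⟨1,[(21,0),(0,0),(10,1)]⟩,⟨3,[(3,0),(5,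
  0),(24,0),(0,2)]⟩⟩,⟨true,0,⟨0,[(10,0),(4,0)]⟩,⟨13,[(1,5),(1,4),(0,0),(1,2),(1,4),(21,2),(5,0)]⟩⟩,
  ⟨false,0,⟨0,[]⟩,⟨0,[]⟩⟩,⟨false,0,⟨0,[]⟩,⟨0,[]⟩⟩,[.e ⟨false,0,⟨0,[(33,0)]⟩,⟨3,[(9,1),(4,0),(0,0),
  (18,1),(0,0)]⟩⟩ ⟨false,1,⟨1,[(10,1),(4,1),(18,0),(0,0)]⟩,⟨13,[(1,5),(1,4),(0,0),(1,2),(1,4),(21,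
  2),(5,0)]⟩⟩,.o ⟨false,1,⟨0,[(10,0),(24,0)]⟩,⟨0,[(32,0)]⟩⟩,.a ⟨true,0,⟨1,[(1,1),(28,0),(3,0)]⟩,⟨0,
  [(15,0)]⟩⟩ ⟨true,0,⟨1,[(21,0),(0,0),(10,1)]⟩,⟨0,[(31,0)]⟩⟩ ⟨false,1,⟨0,[(10,0),(4,0),(19,0)]⟩,⟨13,
  [(1,5),(1,4),(0,0),(1,2),(1,4),(21,2),(5,0)]⟩⟩,.o ⟨false,0,⟨0,[(1,0)]⟩,⟨1,[(7,1),(26,0),(0,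
  0)]⟩⟩]⟩)) (.Q [0,0,0,0,0,-1,0,0,0,1,0,-1] (.ed true [0,1,0,0,1] .k) (.I [1,2,1,0,-1] (.S ⟨1,0,[],
  [1,0,0,0,-1],[0,-1],(⟨0,[(17,0)]⟩,⟨0,[(18,0)]⟩),⟨0,[(1,0)]⟩,.k,(.r (-1) ⟨3,[(4,0),(5,0),(24,0),(0,
  2)]⟩ ⟨0,[(9,0),(1,0),(4,0)]⟩),⟨false,1,⟨1,[(15,0),(0,0),(19,0)]⟩,⟨0,[]⟩⟩,⟨true,0,⟨0,[(38,0)]⟩,⟨0,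
  []⟩⟩,⟨true,0,⟨0,[(34,0)]⟩,⟨0,[(33,0)]⟩⟩,⟨false,0,⟨0,[(34,0)]⟩,⟨3,[(10,1),(4,0),(0,0),(19,2)]⟩⟩,
  [.e ⟨false,1,⟨1,[(35,0),(0,0)]⟩,⟨0,[(38,0)]⟩⟩ ⟨false,1,⟨1,[(15,0),(0,0),(18,0)]⟩,⟨0,[]⟩⟩,.o
  ⟨false,1,⟨0,[(7,0),(3,0)]⟩,⟨0,[(8,0)]⟩⟩,.e ⟨false,1,⟨0,[(36,0)]⟩,⟨0,[(38,0)]⟩⟩ ⟨false,1,⟨1,[(15,
  0),(0,0),(19,0)]⟩,⟨0,[]⟩⟩,.a ⟨true,0,⟨0,[(9,0)]⟩,⟨0,[(2,0)]⟩⟩ ⟨true,1,⟨1,[(35,0),(0,0)]⟩,⟨0,[(0,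
  0)]⟩⟩ ⟨false,1,⟨1,[(35,0),(0,0)]⟩,⟨1,[(22,0),(0,0)]⟩⟩]⟩) (.I [0,2,1,1,-1] (.S ⟨1,0,[],[1,0,0,0,
  -1],[0,1,1],(⟨0,[(18,0)]⟩,⟨0,[(19,0)]⟩),⟨0,[(2,0)]⟩,.k,(.r (-1) ⟨3,[(5,0),(5,0),(24,0),(0,2)]⟩ ⟨1,
  [(0,1),(15,0),(0,0),(19,0)]⟩),⟨false,0,⟨1,[(23,0),(0,0),(14,1)]⟩,⟨0,[(1,0)]⟩⟩,⟨true,0,⟨0,[(39,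
  0)]⟩,⟨0,[]⟩⟩,⟨true,(-1),⟨0,[(0,0)]⟩,⟨3,[(5,0),(5,0),(24,0),(0,2)]⟩⟩,⟨false,0,⟨0,[(35,0)]⟩,⟨3,[(11,
  1),(4,0),(0,0),(19,2)]⟩⟩,[.e ⟨false,0,⟨0,[(39,0)]⟩,⟨1,[(36,0),(0,0)]⟩⟩ ⟨false,1,⟨1,[(16,0),(0,0),
  (18,0)]⟩,⟨0,[]⟩⟩,.o ⟨false,1,⟨0,[(8,0),(3,0)]⟩,⟨0,[(9,0)]⟩⟩,.e ⟨false,0,⟨1,[(23,0),(0,0)]⟩,⟨1,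
  [(36,0),(0,0)]⟩⟩ ⟨false,1,⟨1,[(16,0),(0,0),(19,0)]⟩,⟨0,[]⟩⟩,.a ⟨true,0,⟨0,[(10,0)]⟩,⟨0,[(3,0)]⟩⟩
  ⟨true,0,⟨0,[(39,0)]⟩,⟨0,[]⟩⟩ ⟨false,1,⟨1,[(36,0),(0,0)]⟩,⟨1,[(23,0),(0,0)]⟩⟩]⟩) (.Q [0,0,0,0,0,0,
  1,0,0,0,1] (.p true [0,0,1] [] (⟨0,[(26,0)]⟩,⟨0,[(25,0)]⟩) .k 0 (⟨0,[]⟩,⟨0,[]⟩) .k .k) (.I [0,0,1,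
  1,0,0,0,-1] (.K ⟨0,[0,1,1],0,0,(⟨0,[(28,0),(3,0)]⟩,⟨0,[(16,0)]⟩),.k,.k,(.x (-1) ⟨5,[(1,5),(1,1),
  (4,1),(0,2),(4,1),(1,6),(0,0),(11,3),(0,0)]⟩ ⟨1,[(25,0),(0,2),(1,1),(3,3)]⟩),.k,.k,[⟨1,[(25,0),(0,
  0)]⟩,⟨0,[(1,0)]⟩,⟨0,[(0,0),(6,0),(18,0)]⟩,⟨0,[(23,0),(13,0)]⟩]⟩) (.S ⟨1,0,[0,1,0,0,0,0,0,-1],[1,0,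
  -1],[0,0,0,0,0,0,0,-1],(⟨0,[(27,0)]⟩,⟨0,[(28,0)]⟩),⟨0,[(16,0)]⟩,.k,.k,⟨false,1,⟨1,[(18,0),(0,0),
  (19,0)]⟩,⟨0,[]⟩⟩,⟨true,0,⟨0,[(41,0)]⟩,⟨0,[]⟩⟩,⟨true,0,⟨0,[(37,0)]⟩,⟨0,[(36,0)]⟩⟩,⟨false,0,⟨0,[(37,
  0)]⟩,⟨3,[(13,1),(4,0),(0,0),(19,2)]⟩⟩,[.o ⟨false,0,⟨0,[(24,0)]⟩,⟨0,[(0,0),(13,0),(10,0),(13,0)]⟩⟩,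
  .e ⟨false,1,⟨0,[(1,0),(1,0),(20,0)]⟩,⟨0,[(6,0)]⟩⟩ ⟨false,1,⟨1,[(1,1),(22,1),(13,0),(0,0)]⟩,⟨1,[(0,
  1),(24,0),(0,0),(10,1)]⟩⟩,.a ⟨true,0,⟨7,[(12,1),(2,3),(3,1),(14,0),(3,0)]⟩,⟨0,[(1,0)]⟩⟩ ⟨false,1,
  ⟨0,[(1,0),(22,0),(14,0)]⟩,⟨1,[(0,1),(24,0),(0,0),(10,1)]⟩⟩ ⟨true,0,⟨0,[(1,0),(22,0)]⟩,⟨1,[(0,1),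
  (24,0),(0,0),(10,1)]⟩⟩,.o ⟨false,0,⟨0,[(26,0)]⟩,⟨1,[(1,1),(28,0),(7,0)]⟩⟩]⟩)) (.I [0,0,-1,0,0,0,0,
  1] (.S ⟨1,0,[0,0,0,0,0,0,0,1],[0,0,1],[0,1,0,0,0,0,0,1],(⟨0,[(28,0)]⟩,⟨0,[(27,0)]⟩),⟨0,[(17,0)]⟩,
  .k,.k,⟨true,0,⟨0,[(41,0)]⟩,⟨0,[]⟩⟩,⟨false,1,⟨1,[(18,0),(0,0),(19,0)]⟩,⟨0,[]⟩⟩,⟨false,0,⟨0,[(37,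
  0)]⟩,⟨3,[(13,1),(4,0),(0,0),(19,2)]⟩⟩,⟨true,0,⟨0,[(37,0)]⟩,⟨0,[(36,0)]⟩⟩,[.e ⟨false,0,⟨2,[(0,1),
  (5,0),(26,0)]⟩,⟨0,[(3,0),(20,0),(0,0)]⟩⟩ ⟨false,0,⟨0,[(0,0)]⟩,⟨1,[(24,1),(0,1),(12,0),(0,0)]⟩⟩,.o
  ⟨false,1,⟨1,[(0,1),(24,1),(4,0),(8,0)]⟩,⟨0,[(24,0)]⟩⟩,.o ⟨false,1,⟨1,[(25,1),(4,0),(7,0)]⟩,⟨0,[(1,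
  0)]⟩⟩,.a ⟨true,0,⟨0,[(25,0)]⟩,⟨0,[(22,0)]⟩⟩ ⟨false,0,⟨0,[(0,0)]⟩,⟨0,[(24,0),(0,0),(13,0)]⟩⟩ ⟨true,
  0,⟨0,[(0,0)]⟩,⟨0,[(24,0),(0,0)]⟩⟩]⟩) (.Q [0,-1,0,1,0,0,-1,-1,0,0,-1] (.p false [0,0,1] [] (⟨0,
  [(28,0)]⟩,⟨0,[(27,0)]⟩) .k 0 (⟨0,[]⟩,⟨0,[]⟩) .k .k) (.R ⟨2,true,false,true,[0,1],[0,0,1],[1,1,1],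
  (⟨0,[]⟩,⟨0,[]⟩),(⟨0,[(29,0)]⟩,⟨0,[(28,0)]⟩),⟨0,[]⟩,.k,.k,.k,.k,.k,.k,⟨false,0,⟨1,[(0,0),(0,0),(7,
  0),(16,0)]⟩,⟨1,[(7,1),(31,0),(0,0)]⟩⟩,⟨true,0,⟨0,[(26,0)]⟩,⟨0,[(2,0)]⟩⟩,⟨true,0,⟨0,[(37,0)]⟩,⟨0,
  [(38,0)]⟩⟩,⟨false,1,⟨3,[(14,1),(4,0),(0,0),(3,3),(15,2)]⟩,⟨0,[(0,0)]⟩⟩,⟨false,0,⟨0,[]⟩,⟨1,[(19,0),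
  (0,0),(19,0)]⟩⟩,⟨true,0,⟨0,[(24,0)]⟩,⟨2,[(0,1),(13,0),(10,0)]⟩⟩,[]⟩) (.Q [0,0,0,0,0,0,-1,-1,0,0,
  -1] (.p false [0,0,1] [] (⟨0,[(29,0)]⟩,⟨0,[(28,0)]⟩) .k 0 (⟨0,[]⟩,⟨0,[]⟩) .k .k) (.I [0,0,0,1,0,0,
  0,-1] (.I [0,1,-1,0,0,0,0,1] (.S ⟨1,0,[0,1,0,0,0,0,0,1],[0,0,1],[1,0,0,-1,0,0,0,1],(⟨0,[(32,0)]⟩,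
  ⟨0,[(31,0)]⟩),⟨0,[(21,0)]⟩,.k,.k,⟨false,1,⟨3,[(17,1),(4,0),(0,0),(19,2)]⟩,⟨0,[(41,0)]⟩⟩,⟨true,0,
  ⟨0,[(45,0)]⟩,⟨0,[]⟩⟩,⟨true,0,⟨0,[]⟩,⟨0,[(45,0)]⟩⟩,⟨false,0,⟨0,[(41,0)]⟩,⟨3,[(17,1),(4,0),(0,0),
  (19,2)]⟩⟩,[.e ⟨false,1,⟨2,[(6,0),(3,2),(6,0),(24,0),(0,0)]⟩,⟨0,[(1,0)]⟩⟩ ⟨false,0,⟨0,[(0,0)]⟩,⟨1,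
  [(4,1),(37,0),(0,0)]⟩⟩,.o ⟨false,1,⟨1,[(27,1),(6,0),(8,0)]⟩,⟨0,[(2,0)]⟩⟩,.o ⟨false,1,⟨1,[(29,1),
  (4,0),(7,0)]⟩,⟨0,[(5,0)]⟩⟩,.a ⟨true,0,⟨0,[(29,0)]⟩,⟨0,[(26,0)]⟩⟩ ⟨false,1,⟨0,[(6,0),(3,0)]⟩,⟨1,
  [(1,1),(27,0),(0,0)]⟩⟩ ⟨true,0,⟨0,[(0,0)]⟩,⟨0,[(4,0)]⟩⟩]⟩) (.I [0,0,0,0,0,-1,-1] (.I [0,-1,0,0,1,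
  0,0,0,-1] (.I [0,1,0,0,0,-1,0,0,1] (.I [0,1,0,-1,0,0,0,1] (.C [(0,0),(3,0),(5,0),(11,1),(19,0)])
  (.C [(0,0),(6,0),(1,0)])) (.C [(0,0),(2,0),(2,0),(1,0),(2,0),(0,0),(8,0)])) (.C [(0,0),(15,0),(3,
  0),(6,0)])) (.C [(0,0),(5,0),(15,0)]))) (.I [0,0,1,0,0,0,0,-1] (.C [(0,0),(0,0),(4,0),(11,1),(19,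
  0)]) (.C [(0,0),(1,0),(26,0)]))) (.Q [0,0,0,1,0,0,-1,-1,0,0,-1] (.p false [0,0,1] [] (⟨0,[(30,
  0)]⟩,⟨0,[(29,0)]⟩) .k 0 (⟨0,[]⟩,⟨0,[]⟩) .k .k) (.R ⟨2,true,false,false,[0,1],[0,0,1],[0,1,1,1],
  (⟨0,[]⟩,⟨0,[]⟩),(⟨0,[(31,0)]⟩,⟨0,[(30,0)]⟩),⟨0,[]⟩,.k,.k,.k,.k,.k,.k,⟨false,0,⟨2,[(0,1),(2,0),(8,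
  0),(4,0),(10,1),(7,0),(0,0)]⟩,⟨0,[(5,0),(3,0)]⟩⟩,⟨true,0,⟨0,[(28,0)]⟩,⟨0,[(4,0)]⟩⟩,⟨true,0,⟨0,
  [(44,0)]⟩,⟨0,[]⟩⟩,⟨false,1,⟨0,[(2,0),(39,0)]⟩,⟨0,[(0,0)]⟩⟩,⟨false,0,⟨0,[(40,0)]⟩,⟨3,[(16,1),(4,0),
  (0,0),(19,2)]⟩⟩,⟨true,0,⟨0,[(1,0)]⟩,⟨0,[(27,0)]⟩⟩,[]⟩) (.I [0,0,0,-1,0,0,0,1] (.C [(0,0),(3,0),(1,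
  0),(11,1),(19,0)]) (.C [(0,0),(0,0),(3,0)]))))))))) (.Q [0,0,0,0,0,0,0,0,-1,1,0,-1] (.p false [0,
  0,0,0,1] [1] (⟨0,[(17,0)]⟩,⟨0,[(16,0)]⟩) .k 1 (⟨0,[]⟩,⟨0,[]⟩) .k .k) (.R ⟨0,false,false,false,[-1,
  1,0,0,1],[0,0,0,0,1],[1,1],(⟨0,[(1,0)]⟩,⟨0,[(17,0),(10,0)]⟩),(⟨0,[(18,0)]⟩,⟨0,[(17,0)]⟩),⟨0,[(17,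
  0)]⟩,(.r 0 ⟨0,[(9,0),(1,0),(4,0)]⟩ ⟨3,[(4,0),(5,0),(24,0),(0,2)]⟩),.k,.k,.k,.k,.k,⟨true,0,⟨0,[]⟩,
  ⟨1,[(22,0),(0,0)]⟩⟩,⟨false,0,⟨3,[(9,1),(6,1),(14,0),(3,0)]⟩,⟨1,[(27,0),(7,0)]⟩⟩,⟨false,1,⟨3,[(4,
  0),(5,0),(24,0),(0,2)]⟩,⟨1,[(22,0),(0,0),(10,1)]⟩⟩,⟨true,0,⟨2,[(7,0),(8,0),(14,0),(1,1)]⟩,⟨0,[(11,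
  0)]⟩⟩,⟨false,0,⟨0,[]⟩,⟨0,[]⟩⟩,⟨false,0,⟨0,[]⟩,⟨0,[]⟩⟩,[.o ⟨false,0,⟨0,[(8,0)]⟩,⟨0,[(7,0),(3,0)]⟩⟩,
  .a ⟨true,0,⟨0,[(16,0)]⟩,⟨0,[(0,0)]⟩⟩ ⟨true,0,⟨0,[]⟩,⟨1,[(22,0),(0,0)]⟩⟩ ⟨false,0,⟨3,[(9,1),(6,1),
  (14,0),(3,0)]⟩,⟨1,[(27,0),(7,0)]⟩⟩,.o ⟨false,1,⟨0,[(2,0),(24,0)]⟩,⟨0,[(9,0)]⟩⟩,.o ⟨false,1,⟨1,[(8,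
  1),(18,0),(8,0)]⟩,⟨0,[(0,0)]⟩⟩]⟩) (.R ⟨0,false,false,false,[1,0,0,0,-1],[1,-1],[0,0,0,-1],(⟨0,
  [(17,0)]⟩,⟨0,[(18,0)]⟩),(⟨0,[(28,0)]⟩,⟨0,[(29,0)]⟩),⟨0,[(1,0)]⟩,.k,.k,(.r (-1) ⟨3,[(4,0),(5,0),
  (24,0),(0,2)]⟩ ⟨0,[(9,0),(1,0),(4,0)]⟩),(.r (-1) ⟨1,[(15,0),(0,0),(5,0),(0,0),(10,1),(1,0)]⟩ ⟨0,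
  [(32,0)]⟩),.k,.k,⟨true,0,⟨1,[(22,0),(0,0)]⟩,⟨0,[]⟩⟩,⟨false,0,⟨0,[(16,0)]⟩,⟨0,[(6,0),(2,0)]⟩⟩,
  ⟨true,0,⟨0,[(33,0)]⟩,⟨0,[(34,0)]⟩⟩,⟨false,0,⟨3,[(0,1),(9,1),(5,1),(14,0),(4,0)]⟩,⟨0,[(7,0),(3,0),
  (22,0)]⟩⟩,⟨false,0,⟨0,[]⟩,⟨0,[]⟩⟩,⟨false,0,⟨0,[]⟩,⟨0,[]⟩⟩,[.e ⟨false,1,⟨3,[(10,1),(4,0),(0,0),(18,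
  1),(0,0)]⟩,⟨0,[(34,0)]⟩⟩ ⟨false,0,⟨3,[(0,1),(3,1),(11,1),(14,0),(4,0)]⟩,⟨0,[(15,0),(18,0)]⟩⟩,.o
  ⟨false,1,⟨3,[(10,1),(4,0),(0,0),(19,2)]⟩,⟨0,[(11,0)]⟩⟩,.o ⟨false,1,⟨0,[(15,0)]⟩,⟨0,[(0,0)]⟩⟩,.a
  ⟨true,0,⟨0,[(9,0)]⟩,⟨0,[(2,0)]⟩⟩ ⟨false,1,⟨3,[(4,0),(5,0),(24,0),(0,2)]⟩,⟨1,[(22,0),(0,0),(10,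
  1)]⟩⟩ ⟨true,0,⟨3,[(0,1),(3,1),(11,1),(14,0),(4,0)]⟩,⟨0,[(9,0),(1,0)]⟩⟩]⟩)))) (.K ⟨0,[0,1,1],0,0,
  (⟨0,[(22,0),(3,0)]⟩,⟨0,[(10,0)]⟩),.k,.k,(.r (-1) ⟨1,[(12,0),(0,0),(3,1),(1,0),(0,2),(10,3),(1,
  0)]⟩ ⟨0,[(0,0),(0,0)]⟩),.k,.k,[⟨1,[(19,0),(0,0)]⟩,⟨0,[(0,0),(16,0)]⟩,⟨7,[(0,1),(0,0),(5,2),(10,5),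
  (1,1)]⟩,⟨0,[(17,0),(13,0)]⟩]⟩)))) (.I [0,-1,1,2] (.S ⟨1,0,[0,0,-1,-1],[1,-1],[1,1,-1,-2],(⟨0,[(23,
  0)]⟩,⟨0,[(24,0)]⟩),⟨0,[(8,0),(0,0)]⟩,.k,(.r (-1) ⟨0,[(27,1),(3,0)]⟩ ⟨1,[(0,1),(16,0),(0,0),(14,
  1)]⟩),⟨true,0,⟨0,[(28,0)]⟩,⟨0,[(29,0)]⟩⟩,⟨false,1,⟨1,[(10,0),(0,0),(19,0)]⟩,⟨0,[]⟩⟩,⟨false,0,⟨0,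
  []⟩,⟨1,[(10,0),(0,0),(19,0)]⟩⟩,⟨true,0,⟨0,[(29,0)]⟩,⟨0,[(28,0)]⟩⟩,[.e ⟨false,1,⟨0,[(5,0),(24,0)]⟩,
  ⟨0,[(0,0)]⟩⟩ ⟨false,1,⟨1,[(27,1),(2,0),(0,0)]⟩,⟨3,[(0,1),(16,0),(0,0),(14,1)]⟩⟩,.o ⟨false,1,⟨3,
  [(5,1),(4,0),(0,0),(19,2)]⟩,⟨0,[(6,0)]⟩⟩,.o ⟨false,0,⟨1,[(17,0),(0,0)]⟩,⟨1,[(22,0),(7,0)]⟩⟩,.a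
  ⟨true,(-1),⟨0,[(1,0)]⟩,⟨0,[(30,0)]⟩⟩ ⟨false,1,⟨0,[(27,1),(3,0)]⟩,⟨1,[(0,1),(16,0),(0,0)]⟩⟩ ⟨true,
  1,⟨1,[(27,1),(2,0),(0,0)]⟩,⟨0,[(1,0),(4,0)]⟩⟩]⟩) (.Q [0,2,0,0,-1,0,0,0,1,0,0,1] (.p true [0,0,0,0,
  1] [] (⟨0,[(13,0)]⟩,⟨0,[(12,0)]⟩) .k 0 (⟨0,[]⟩,⟨0,[]⟩) .k .k) (.Q [0,0,1,0,0,0,0,0,-1,0,0,-1] (.p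
  false [0,0,0,0,1] [] (⟨0,[(14,0)]⟩,⟨0,[(13,0)]⟩) .k 0 (⟨0,[]⟩,⟨0,[]⟩) .k .k) (.Q [0,0,0,0,0,-1,0,
  0,0,1,0,-1] (.ed true [0,1,0,0,1] .k) (.S ⟨1,0,[0,-1],[1,0,0,0,-1],[],(⟨0,[(15,0)]⟩,⟨0,[(16,0)]⟩),
  ⟨0,[(0,0)]⟩,.k,(.r (-1) ⟨3,[(3,1),(29,0),(0,2)]⟩ ⟨0,[(7,0),(1,0),(4,0)]⟩),⟨true,0,⟨0,[(36,0)]⟩,⟨0,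
  []⟩⟩,⟨false,1,⟨1,[(13,0),(0,0),(19,0)]⟩,⟨0,[]⟩⟩,⟨false,0,⟨0,[(32,0)]⟩,⟨3,[(8,1),(4,0),(0,0),(19,
  2)]⟩⟩,⟨true,0,⟨0,[(32,0)]⟩,⟨0,[(31,0)]⟩⟩,[.o ⟨false,1,⟨1,[(1,1),(31,0),(0,0)]⟩,⟨0,[(6,0)]⟩⟩,.a
  ⟨true,1,⟨0,[(5,0),(26,0)]⟩,⟨0,[(2,0)]⟩⟩ ⟨false,1,⟨1,[(33,0),(0,0)]⟩,⟨0,[(36,0)]⟩⟩ ⟨true,1,⟨0,[(34,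
  0)]⟩,⟨0,[(1,0),(0,0)]⟩⟩,.e ⟨false,1,⟨1,[(13,0),(0,0),(19,0)]⟩,⟨0,[]⟩⟩ ⟨false,1,⟨0,[(34,0)]⟩,⟨0,
  [(36,0)]⟩⟩,.o ⟨false,0,⟨0,[(1,0)]⟩,⟨1,[(6,1),(26,0),(0,0)]⟩⟩]⟩) (.R ⟨0,false,false,false,[1,0,0,0,
  -1],[2,-1,0,0,-1],[1,0,1],(⟨0,[(15,0)]⟩,⟨0,[(16,0)]⟩),(⟨0,[(15,0),(10,0)]⟩,⟨0,[(0,0)]⟩),⟨0,[(0,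
  0)]⟩,.k,(.r (-1) ⟨3,[(3,1),(29,0),(0,2)]⟩ ⟨0,[(7,0),(1,0),(4,0)]⟩),(.r (-1) ⟨3,[(3,1),(29,0),(0,
  2)]⟩ ⟨0,[(7,0),(1,0),(4,0)]⟩),.k,.k,.k,⟨true,(-1),⟨0,[(4,0),(4,0)]⟩,⟨3,[(3,1),(29,0),(0,2)]⟩⟩,
  ⟨false,0,⟨3,[(7,1),(6,1),(14,0),(3,0)]⟩,⟨1,[(25,0),(7,0)]⟩⟩,⟨false,0,⟨1,[(20,0),(0,0)]⟩,⟨1,[(33,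
  0),(0,0)]⟩⟩,⟨true,0,⟨2,[(5,0),(8,0),(14,0),(1,1)]⟩,⟨0,[(9,0)]⟩⟩,⟨false,0,⟨0,[]⟩,⟨0,[]⟩⟩,⟨false,0,
  ⟨0,[]⟩,⟨0,[]⟩⟩,[.e ⟨false,0,⟨0,[]⟩,⟨1,[(13,0),(0,0),(18,0)]⟩⟩ ⟨false,1,⟨5,[(5,3),(8,3),(14,0),(1,
  1),(1,2)]⟩,⟨0,[(9,0)]⟩⟩,.o ⟨false,1,⟨0,[(5,0)]⟩,⟨0,[(6,0),(2,0)]⟩⟩,.a ⟨true,0,⟨1,[(1,1),(27,0),(3,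
  0)]⟩,⟨0,[(14,0)]⟩⟩ ⟨true,0,⟨1,[(20,0),(0,0)]⟩,⟨3,[(9,1),(19,0),(0,1),(2,0)]⟩⟩ ⟨false,1,⟨0,[(5,0),
  (8,0)]⟩,⟨0,[(9,0)]⟩⟩,.o ⟨false,0,⟨0,[(1,0)]⟩,⟨1,[(6,1),(26,0),(0,0)]⟩⟩]⟩)) (.Q [0,0,0,0,0,-1,0,0,
  0,1,0,-1] (.ed true [0,1,0,0,1] .k) (.S ⟨1,0,[],[1,0,0,0,-1],[0,-1],(⟨0,[(15,0)]⟩,⟨0,[(16,0)]⟩),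
  ⟨0,[(0,0)]⟩,.k,(.r (-1) ⟨3,[(3,1),(29,0),(0,2)]⟩ ⟨0,[(7,0),(1,0),(4,0)]⟩),⟨false,1,⟨1,[(13,0),(0,
  0),(19,0)]⟩,⟨0,[]⟩⟩,⟨true,0,⟨0,[(36,0)]⟩,⟨0,[]⟩⟩,⟨true,0,⟨0,[(32,0)]⟩,⟨0,[(31,0)]⟩⟩,⟨false,0,⟨0,
  [(32,0)]⟩,⟨3,[(8,1),(4,0),(0,0),(19,2)]⟩⟩,[.e ⟨false,1,⟨1,[(33,0),(0,0)]⟩,⟨0,[(36,0)]⟩⟩ ⟨false,1,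
  ⟨1,[(13,0),(0,0),(18,0)]⟩,⟨0,[]⟩⟩,.o ⟨false,1,⟨0,[(5,0),(3,0)]⟩,⟨0,[(6,0)]⟩⟩,.e ⟨false,1,⟨0,[(34,
  0)]⟩,⟨0,[(36,0)]⟩⟩ ⟨false,1,⟨1,[(13,0),(0,0),(19,0)]⟩,⟨0,[]⟩⟩,.a ⟨true,0,⟨0,[(7,0)]⟩,⟨0,[(1,0)]⟩⟩
  ⟨true,1,⟨1,[(33,0),(0,0)]⟩,⟨6,[(2,0),(0,3),(0,4),(2,0),(1,7),(19,0)]⟩⟩ ⟨false,1,⟨1,[(33,0),(0,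
  0)]⟩,⟨1,[(20,0),(0,0)]⟩⟩]⟩) (.Q [0,0,0,0,0,0,0,0,-1,1,0,-1] (.p false [0,0,0,0,1] [1] (⟨0,[(16,
  0)]⟩,⟨0,[(15,0)]⟩) .k 1 (⟨0,[]⟩,⟨0,[]⟩) .k .k) (.S ⟨1,0,[0,2],[0,0,0,0,1],[1,1,0,-1],(⟨0,[(17,
  0)]⟩,⟨0,[(16,0)]⟩),⟨0,[(1,0),(10,0),(0,0)]⟩,.k,(.r 0 ⟨0,[(31,0)]⟩ ⟨1,[(14,0),(0,0),(5,0),(0,0),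
  (10,1),(1,0)]⟩),⟨false,1,⟨3,[(9,1),(4,0),(0,0),(19,2)]⟩,⟨0,[(33,0)]⟩⟩,⟨true,0,⟨0,[(37,0)]⟩,⟨0,
  []⟩⟩,⟨true,0,⟨0,[]⟩,⟨0,[(37,0)]⟩⟩,⟨false,0,⟨0,[(33,0)]⟩,⟨3,[(9,1),(4,0),(0,0),(19,2)]⟩⟩,[.e
  ⟨false,0,⟨0,[(31,0)]⟩,⟨1,[(14,0),(0,0),(17,1),(1,0)]⟩⟩ ⟨false,0,⟨0,[(29,0)]⟩,⟨0,[(35,0)]⟩⟩,.o
  ⟨false,0,⟨0,[(7,0)]⟩,⟨1,[(0,1),(25,0),(8,0)]⟩⟩,.a ⟨true,0,⟨0,[(15,0)]⟩,⟨0,[(0,0)]⟩⟩ ⟨true,0,⟨0,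
  [(32,0)]⟩,⟨0,[(33,0)]⟩⟩ ⟨false,0,⟨0,[(37,0)]⟩,⟨0,[(35,0)]⟩⟩,.o ⟨false,0,⟨0,[(2,0),(2,0),(20,0)]⟩,
  ⟨1,[(0,1),(25,0),(7,0)]⟩⟩]⟩) (.R ⟨0,false,false,false,[-1,1,0,0,1],[0,0,0,0,1],[0,1,1],(⟨0,[(1,
  0)]⟩,⟨0,[(16,0),(10,0)]⟩),(⟨0,[(17,0)]⟩,⟨0,[(16,0)]⟩),⟨0,[(16,0)]⟩,(.r 0 ⟨0,[(8,0),(1,0),(4,0)]⟩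
  ⟨3,[(4,1),(29,0),(0,2)]⟩),.k,.k,.k,.k,.k,⟨true,0,⟨1,[(21,0),(0,0)]⟩,⟨0,[]⟩⟩,⟨false,0,⟨3,[(8,1),(6,
  1),(14,0),(3,0)]⟩,⟨1,[(26,0),(7,0)]⟩⟩,⟨false,1,⟨3,[(9,1),(4,0),(0,0),(19,2)]⟩,⟨0,[(33,0)]⟩⟩,⟨true,
  0,⟨2,[(6,0),(8,0),(14,0),(1,1)]⟩,⟨0,[(10,0)]⟩⟩,⟨false,0,⟨0,[]⟩,⟨0,[]⟩⟩,⟨false,0,⟨0,[]⟩,⟨0,[]⟩⟩,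
  [.o ⟨false,0,⟨0,[(7,0)]⟩,⟨0,[(6,0),(3,0)]⟩⟩,.o ⟨false,0,⟨0,[(0,0)]⟩,⟨0,[(14,0)]⟩⟩,.o ⟨false,1,⟨0,
  [(2,0),(23,0)]⟩,⟨0,[(8,0)]⟩⟩,.a ⟨true,0,⟨0,[(0,0)]⟩,⟨1,[(8,1),(21,0),(3,0)]⟩⟩ ⟨true,0,⟨0,[(37,
  0)]⟩,⟨0,[]⟩⟩ ⟨false,0,⟨3,[(8,1),(6,1),(14,0),(3,0)]⟩,⟨1,[(26,0),(8,0)]⟩⟩]⟩)))) (.R ⟨1,false,false,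
  false,[1,-1],[1,0,0,0,-1],[1,0,-1,-2],(⟨0,[(24,0)]⟩,⟨0,[(25,0)]⟩),(⟨0,[(13,0)]⟩,⟨0,[(14,0)]⟩),⟨0,
  [(9,0),(0,0)]⟩,.k,.k,(.r (-1) ⟨1,[(1,1),(29,0),(0,0)]⟩ ⟨0,[(18,0),(0,0),(10,1)]⟩),(.r 0 ⟨0,[(28,
  0)]⟩ ⟨1,[(11,0),(0,0),(5,0),(0,0),(10,1),(1,0)]⟩),(.r (-1) ⟨0,[(6,0),(24,0)]⟩ ⟨0,[(2,0),(4,0),(22,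
  0),(1,0)]⟩),.k,⟨true,0,⟨0,[(1,0)]⟩,⟨0,[(2,0),(4,0),(22,0),(1,0)]⟩⟩,⟨false,1,⟨1,[(0,1),(6,1),(19,
  0),(0,1),(2,0)]⟩,⟨1,[(12,1),(5,0),(0,0)]⟩⟩,⟨false,1,⟨3,[(6,1),(4,0),(0,0),(19,2)]⟩,⟨0,[(30,0)]⟩⟩,
  ⟨false,1,⟨0,[(0,0),(29,0)]⟩,⟨0,[(12,0),(16,0)]⟩⟩,⟨true,0,⟨0,[]⟩,⟨0,[(34,0)]⟩⟩,⟨false,1,⟨0,[(0,0),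
  (29,1)]⟩,⟨0,[(6,0),(5,0)]⟩⟩,[.o ⟨false,1,⟨1,[(0,0),(10,0)]⟩,⟨0,[(4,0)]⟩⟩,.o ⟨false,1,⟨0,[(0,0)]⟩,
  ⟨0,[(4,0),(29,0)]⟩⟩,.o ⟨false,0,⟨1,[(18,0),(0,0)]⟩,⟨1,[(23,0),(7,0)]⟩⟩,.a ⟨true,(-1),⟨0,[(2,0)]⟩,
  ⟨0,[(31,0)]⟩⟩ ⟨true,1,⟨1,[(1,1),(29,0),(0,0)]⟩,⟨0,[(2,0),(4,0),(22,0)]⟩⟩ ⟨false,2,⟨0,[(0,0),(30,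
  0)]⟩,⟨0,[(2,0),(1,0)]⟩⟩]⟩))))

theorem ok2 : chk K t2 r4 = true := by decide +kernel

noncomputable def t4 : Tre :=
  (.R ⟨2,false,false,true,[0,1],[1,0,0,0,-1],[1],(⟨0,[]⟩,⟨0,[]⟩),(⟨0,[(9,0)]⟩,⟨0,[(10,0)]⟩),⟨0,[]⟩,
  .k,.k,.k,(.r 0 ⟨0,[(1,0),(1,0),(4,0)]⟩ ⟨0,[(24,0),(3,0)]⟩),.k,.k,⟨true,0,⟨0,[]⟩,⟨1,[(14,0),(0,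
  0)]⟩⟩,⟨false,0,⟨2,[(0,1),(0,0),(20,0)]⟩,⟨1,[(8,1),(10,0),(7,0)]⟩⟩,⟨false,1,⟨0,[(24,0),(3,0)]⟩,⟨1,
  [(14,0),(0,0),(10,1)]⟩⟩,⟨true,0,⟨5,[(0,4),(0,0),(0,2),(19,0)]⟩,⟨0,[(3,0),(4,0)]⟩⟩,⟨false,1,⟨1,
  [(27,0),(0,0)]⟩,⟨1,[(14,0),(0,0)]⟩⟩,⟨false,0,⟨0,[(0,0)]⟩,⟨1,[(7,0),(0,2),(10,0)]⟩⟩,[.a ⟨true,0,⟨2,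
  [(0,1),(0,0),(20,0)]⟩,⟨0,[(8,0)]⟩⟩ ⟨true,0,⟨0,[]⟩,⟨1,[(14,0),(0,0)]⟩⟩ ⟨false,0,⟨2,[(0,1),(0,0),
  (20,0)]⟩,⟨1,[(8,1),(10,0),(7,0)]⟩⟩,.e ⟨false,1,⟨1,[(27,0),(0,0)]⟩,⟨0,[(30,0)]⟩⟩ ⟨false,0,⟨0,[(0,
  0)]⟩,⟨3,[(7,0),(0,4),(10,1),(2,1),(4,0)]⟩⟩,.o ⟨false,1,⟨1,[(19,0),(7,0)]⟩,⟨1,[(14,0),(0,0)]⟩⟩,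
  .fo]⟩)

theorem ok4 : chk K t4 r3 = true := by decide +kernel

noncomputable def t6 : Tre :=
  (.S ⟨1,0,[0,1],[0,0,0,0,1],[0,2],(⟨0,[(11,0)]⟩,⟨0,[(10,0)]⟩),⟨0,[(1,0)]⟩,.k,(.r 0 ⟨0,[(25,0)]⟩ ⟨1,
  [(8,0),(0,0),(5,0),(0,0),(10,1),(1,0)]⟩),⟨true,0,⟨0,[(31,0)]⟩,⟨0,[]⟩⟩,⟨false,1,⟨1,[(8,0),(0,0),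
  (19,0)]⟩,⟨0,[]⟩⟩,⟨false,0,⟨0,[(27,0)]⟩,⟨3,[(3,1),(4,0),(0,0),(19,2)]⟩⟩,⟨true,0,⟨0,[(27,0)]⟩,⟨0,
  [(26,0)]⟩⟩,[.e ⟨false,0,⟨0,[(23,0)]⟩,⟨0,[(29,0)]⟩⟩ ⟨false,0,⟨3,[(4,1),(19,0),(0,1),(2,0)]⟩,⟨1,[(8,
  0),(0,0),(19,0)]⟩⟩,.o ⟨false,0,⟨2,[(0,0),(1,0),(6,0),(10,0)]⟩,⟨0,[(8,0)]⟩⟩,.o ⟨false,0,⟨2,[(0,0),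
  (1,0),(6,0),(10,0)]⟩,⟨0,[(8,0)]⟩⟩,.a ⟨true,(-1),⟨0,[(0,0)]⟩,⟨1,[(8,1),(15,0),(3,0)]⟩⟩ ⟨false,0,⟨3,
  [(4,1),(19,0),(0,1),(2,0)]⟩,⟨1,[(15,0),(0,0),(12,1)]⟩⟩ ⟨true,0,⟨3,[(4,1),(19,0),(0,1),(2,0)]⟩,⟨1,
  [(15,0),(0,0)]⟩⟩]⟩)

theorem ok6 : chk K t6 l6 = true := by decide +kernel

noncomputable def t7 : Tre :=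
  (.S ⟨1,0,[0,0,-1,-1],[1,-1],[1],(⟨0,[(22,0)]⟩,⟨0,[(23,0)]⟩),⟨0,[(7,0),(0,0)]⟩,.k,(.r (-1) ⟨0,[(26,
  1),(3,0)]⟩ ⟨1,[(0,1),(15,0),(0,0),(14,1)]⟩),⟨true,0,⟨3,[(0,1),(15,0),(0,0),(14,1)]⟩,⟨0,[(26,0)]⟩⟩,
  ⟨false,1,⟨1,[(9,0),(0,0),(19,0)]⟩,⟨0,[]⟩⟩,⟨false,0,⟨0,[(0,0)]⟩,⟨1,[(4,1),(24,0),(0,0)]⟩⟩,⟨true,0,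
  ⟨0,[(28,0)]⟩,⟨0,[(27,0)]⟩⟩,[.a ⟨true,0,⟨9,[(4,3),(4,1),(0,1),(14,4),(1,1),(2,2)]⟩,⟨0,[(28,0)]⟩⟩
  ⟨true,0,⟨0,[]⟩,⟨1,[(16,0),(0,0)]⟩⟩ ⟨false,1,⟨1,[(26,1),(2,0),(0,0)]⟩,⟨3,[(0,1),(15,0),(0,0),(14,
  1)]⟩⟩,.o ⟨false,1,⟨3,[(4,1),(4,0),(0,0),(19,2)]⟩,⟨0,[(5,0)]⟩⟩,.o ⟨false,0,⟨1,[(16,0),(0,0)]⟩,⟨1,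
  [(21,0),(7,0)]⟩⟩,.o ⟨false,0,⟨0,[(16,0),(0,0)]⟩,⟨0,[(1,0),(1,0)]⟩⟩]⟩)

theorem ok7 : chk K t7 l7 = true := by decide +kernel

noncomputable def t8 : Tre :=
  (.S ⟨1,0,[0,0,-1,-1],[1,-1],[1,1,-1,-2],(⟨0,[(23,0)]⟩,⟨0,[(24,0)]⟩),⟨0,[(8,0),(0,0)]⟩,.k,(.r (-1)
  ⟨1,[(1,1),(28,0),(0,0)]⟩ ⟨0,[(0,0),(32,0)]⟩),⟨true,0,⟨0,[(28,0)]⟩,⟨0,[(29,0)]⟩⟩,⟨false,1,⟨1,[(10,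
  0),(0,0),(19,0)]⟩,⟨0,[]⟩⟩,⟨false,0,⟨0,[]⟩,⟨1,[(10,0),(0,0),(19,0)]⟩⟩,⟨true,0,⟨0,[(29,0)]⟩,⟨0,[(28,
  0)]⟩⟩,[.a ⟨true,0,⟨9,[(5,3),(4,1),(0,1),(14,4),(1,1),(2,2)]⟩,⟨0,[(29,0)]⟩⟩ ⟨true,0,⟨0,[(1,0)]⟩,⟨0,
  [(0,0)]⟩⟩ ⟨false,1,⟨3,[(1,1),(28,2),(0,0)]⟩,⟨1,[(0,0),(32,0)]⟩⟩,.o ⟨false,1,⟨3,[(5,1),(4,0),(0,0),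
  (19,2)]⟩,⟨0,[(6,0)]⟩⟩,.o ⟨false,0,⟨1,[(17,0),(0,0)]⟩,⟨1,[(22,0),(7,0)]⟩⟩,.o ⟨false,0,⟨0,[(17,0),
  (0,0)]⟩,⟨0,[(2,0),(1,0)]⟩⟩]⟩)

theorem ok8 : chk K t8 l8 = true := by decide +kernel

noncomputable def t9 : Tre :=
  (.S ⟨1,0,[],[1,0,0,0,-1],[0,-1],(⟨0,[(14,0)]⟩,⟨0,[(15,0)]⟩),⟨0,[(1,0)]⟩,.k,(.r (-1) ⟨3,[(3,1),(28,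
  0),(0,2)]⟩ ⟨1,[(19,0),(0,0),(10,1),(3,1)]⟩),⟨false,1,⟨1,[(12,0),(0,0),(19,0)]⟩,⟨0,[]⟩⟩,⟨true,0,⟨0,
  [(35,0)]⟩,⟨0,[]⟩⟩,⟨true,0,⟨0,[(31,0)]⟩,⟨0,[(30,0)]⟩⟩,⟨false,0,⟨0,[(31,0)]⟩,⟨3,[(7,1),(4,0),(0,0),
  (19,2)]⟩⟩,[.o ⟨false,1,⟨0,[(12,0)]⟩,⟨1,[(6,1),(12,0),(0,0)]⟩⟩,.a ⟨true,1,⟨1,[(12,1),(15,0),(4,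
  0)]⟩,⟨7,[(0,3),(5,7),(12,0),(0,0),(7,3),(5,1)]⟩⟩ ⟨true,1,⟨0,[(33,0)]⟩,⟨0,[(0,0)]⟩⟩ ⟨false,1,⟨1,
  [(32,0),(0,0)]⟩,⟨0,[(35,0)]⟩⟩,.o ⟨false,1,⟨0,[(12,0)]⟩,⟨1,[(6,1),(12,0),(0,0)]⟩⟩,.o ⟨false,1,⟨1,
  [(12,1),(6,0),(0,0)]⟩,⟨0,[(6,0)]⟩⟩]⟩)

theorem ok9 : chk K t9 l10 = true := by decide +kernel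

noncomputable def t10 : Tre :=
  (.K ⟨0,[0,1,1],0,0,(⟨0,[(25,0),(3,0)]⟩,⟨0,[(13,0)]⟩),.k,.k,(.x (-1) ⟨1,[(1,0),(1,0),(1,0),(1,0),
  (3,0),(1,1),(8,1),(3,1),(7,0)]⟩ ⟨1,[(22,0),(0,2),(1,1),(3,3)]⟩),.k,.k,[⟨1,[(22,0),(0,0)]⟩,⟨0,[(0,
  0),(19,0)]⟩,⟨3,[(0,0),(5,0),(3,0),(10,2),(1,0)]⟩,⟨0,[(20,0),(13,0)]⟩]⟩)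

theorem ok10 : chk K t10 l13 = true := by decide +kernel

noncomputable def t11 : Tre :=
  (.S ⟨1,0,[0,0,-1,-1],[1,-1,0,0,-1],[1,1],(⟨0,[(7,0)]⟩,⟨0,[(21,0),(10,0)]⟩),⟨0,[(1,0)]⟩,(.r (-1)
  ⟨11,[(0,1),(4,5),(7,1),(5,1),(10,0),(7,2)]⟩ ⟨1,[(25,0),(0,0),(10,1),(3,1)]⟩),(.r (-1) ⟨4,[(5,3),
  (2,0),(0,1),(28,0)]⟩ ⟨0,[(25,0),(0,0),(10,1),(3,0)]⟩),⟨false,0,⟨1,[(25,0),(0,0),(10,1),(3,1)]⟩,⟨0,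
  [(5,0)]⟩⟩,⟨true,0,⟨0,[(41,0)]⟩,⟨0,[]⟩⟩,⟨true,(-1),⟨1,[(14,3),(10,0),(0,0),(7,1)]⟩,⟨23,[(0,1),(4,
  17),(7,13),(5,1),(10,0),(7,2)]⟩⟩,⟨false,0,⟨0,[(37,0)]⟩,⟨5,[(0,1),(12,1),(5,1),(10,0),(8,2)]⟩⟩,[.e
  ⟨false,0,⟨12,[(4,1),(3,0),(1,1),(3,1),(18,4),(0,1)]⟩,⟨1,[(18,0),(0,0),(19,0)]⟩⟩ ⟨false,1,⟨4,[(5,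
  0),(3,0),(3,0),(24,3)]⟩,⟨1,[(25,0),(0,0),(10,1)]⟩⟩,.a ⟨true,1,⟨0,[(0,0)]⟩,⟨3,[(12,3),(1,3),(10,0),
  (0,0),(7,3),(5,1)]⟩⟩ ⟨true,0,⟨0,[]⟩,⟨1,[(25,0),(0,0)]⟩⟩ ⟨false,1,⟨2,[(5,0),(0,0),(1,0),(29,0)]⟩,
  ⟨1,[(25,0),(0,0),(10,1),(3,1)]⟩⟩,.o ⟨false,1,⟨1,[(18,1),(6,0),(0,0)]⟩,⟨0,[(12,0)]⟩⟩,.o ⟨false,1,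
  ⟨0,[(18,0),(6,0),(0,0)]⟩,⟨0,[(4,0)]⟩⟩]⟩)

theorem ok11 : chk K t11 l16 = true := by decide +kernel

noncomputable def t12 : Tre :=
  (.R ⟨1,true,false,false,[1,0,0,0,-1],[0,1,0,0,1],[1,1,1,1],(⟨0,[(21,0)]⟩,⟨0,[(22,0)]⟩),(⟨0,[(22,
  0),(10,0)]⟩,⟨0,[(8,0)]⟩),⟨0,[(8,0)]⟩,.k,(.r 0 ⟨1,[(26,0),(0,0),(10,1),(3,1)]⟩ ⟨45,[(0,5),(5,23),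
  (3,7),(9,11),(10,2),(7,6)]⟩),(.r (-1) ⟨45,[(0,5),(5,23),(3,7),(9,11),(10,2),(7,6)]⟩ ⟨1,[(26,0),(0,
  0),(10,1),(3,1)]⟩),(.r (-1) ⟨0,[(6,0)]⟩ ⟨1,[(26,0),(0,0),(10,1),(3,3)]⟩),(.r (-2) ⟨22,[(0,5),(5,
  23),(3,7),(9,11),(10,2),(7,6)]⟩ ⟨3,[(15,7),(10,2),(0,2),(7,3),(5,1)]⟩),.k,⟨true,0,⟨0,[]⟩,⟨1,[(26,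
  0),(0,0)]⟩⟩,⟨false,(-1),⟨3,[(1,4),(3,0),(0,2),(3,0),(2,1),(21,1)]⟩,⟨1,[(0,1),(25,0),(0,0),(10,1),
  (3,1)]⟩⟩,⟨false,0,⟨1,[(26,0),(0,0),(10,1),(3,1)]⟩,⟨0,[(6,0)]⟩⟩,⟨true,(-2),⟨8,[(1,14),(8,0),(3,1),
  (5,2),(14,2),(5,0)]⟩,⟨0,[(0,0)]⟩⟩,⟨true,(-1),⟨1,[(15,3),(10,0),(0,0),(7,1)]⟩,⟨18,[(0,1),(5,13),(3,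
  4),(3,5),(5,3),(10,0)]⟩⟩,⟨false,(-2),⟨1,[(1,3),(33,0),(4,0)]⟩,⟨13,[(0,15),(13,5),(5,3),(10,0),(8,
  8)]⟩⟩,[]⟩)

theorem ok12 : chk K t12 l17 = true := by decide +kernel

noncomputable def t13 : Tre :=
  (.R ⟨1,true,false,true,[0,0,1],[1,0,0,0,-1],[1],(⟨0,[(30,0)]⟩,⟨0,[(29,0)]⟩),(⟨0,[(22,0)]⟩,⟨0,[(23,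
  0)]⟩),⟨0,[(19,0)]⟩,.k,.k,.k,.k,(.r (-1) ⟨3,[(5,3),(9,1),(4,0),(0,0),(18,1),(0,0)]⟩ ⟨3,[(0,3),(0,
  1),(5,1),(19,4),(0,0),(3,0),(8,0)]⟩),.k,⟨true,0,⟨0,[]⟩,⟨1,[(27,0),(0,0)]⟩⟩,⟨false,1,⟨0,[(20,0),(3,
  0)]⟩,⟨0,[(14,0),(12,0)]⟩⟩,⟨true,0,⟨12,[(0,7),(0,3),(2,4),(2,5),(3,1),(3,0),(11,7),(4,1)]⟩,⟨0,[(5,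
  0)]⟩⟩,⟨false,1,⟨15,[(0,11),(3,3),(10,5),(1,1),(2,3),(15,0),(4,12)]⟩,⟨3,[(1,1),(5,1),(17,3),(1,0),
  (0,0),(3,0),(8,0)]⟩⟩,⟨false,0,⟨4,[(0,4),(0,2),(5,2),(0,0),(3,0),(14,4),(4,0)]⟩,⟨3,[(5,3),(9,1),(4,
  0),(0,0),(19,2)]⟩⟩,⟨true,0,⟨0,[(0,0)]⟩,⟨6,[(1,2),(13,4),(5,0),(3,6),(6,1),(8,3)]⟩⟩,[]⟩)

theorem ok13 : chk K t13 l18 = true := by decide +kernel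

noncomputable def t14 : Tre :=
  (.I [0,3,-1,-1,-1] (.Q [0,0,2,0,-1,0,0,0,1,0,0,1] (.p true [0,0,0,0,1] [] (⟨0,[(25,0)]⟩,⟨0,[(24,
  0)]⟩) .k 0 (⟨0,[]⟩,⟨0,[]⟩) .k .k) (.S ⟨1,0,[0,1,-1,-1],[0,-1,0,0,1],[1,2,-1,-2],(⟨0,[(16,0)]⟩,⟨0,
  [(25,0),(11,0)]⟩),⟨0,[(2,0)]⟩,(.r 0 ⟨0,[(40,0)]⟩ ⟨1,[(23,0),(0,0),(5,0),(0,0),(10,1),(1,0)]⟩),(.r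
  0 ⟨0,[(1,0),(8,0)]⟩ ⟨1,[(23,0),(0,0),(5,1),(0,1),(10,3),(1,0)]⟩),⟨true,0,⟨0,[(41,0)]⟩,⟨0,[(42,
  0)]⟩⟩,⟨false,1,⟨1,[(23,0),(0,0),(19,0)]⟩,⟨0,[]⟩⟩,⟨false,0,⟨0,[]⟩,⟨1,[(23,0),(0,0),(19,0)]⟩⟩,⟨true,
  0,⟨0,[(42,0)]⟩,⟨0,[(41,0)]⟩⟩,[.e ⟨false,0,⟨4,[(1,1),(12,3),(28,1)]⟩,⟨1,[(30,0),(0,0),(10,3),(1,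
  1)]⟩⟩ ⟨false,0,⟨19,[(1,3),(7,5),(3,7),(1,5),(23,2),(3,0)]⟩,⟨1,[(23,0),(0,0),(5,0),(0,0),(10,1),(1,
  0)]⟩⟩,.o ⟨false,0,⟨4,[(0,1),(9,0),(6,2),(0,1),(16,0)]⟩,⟨0,[(23,0),(18,0)]⟩⟩,.o ⟨false,0,⟨1,[(0,0),
  (23,0),(10,0)]⟩,⟨0,[(15,0)]⟩⟩,.a ⟨true,(-1),⟨0,[(0,0)]⟩,⟨1,[(15,1),(23,0),(3,0)]⟩⟩ ⟨false,0,⟨0,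
  [(13,0)]⟩,⟨0,[(30,0),(0,0),(10,1),(1,0)]⟩⟩ ⟨true,0,⟨19,[(1,3),(7,5),(3,7),(1,5),(23,2),(3,0)]⟩,⟨0,
  [(30,0),(0,0),(10,0)]⟩⟩]⟩) (.I [1,-3,1,2,1] (.Q [0,-2,0,2,2,0,0,0,-2,1,0,-2] (.p false [0,0,0,0,
  1] [1,0,0,0,-1] (⟨0,[(27,0)]⟩,⟨0,[(26,0)]⟩) .k 2 (⟨0,[(26,0)]⟩,⟨0,[(27,0)]⟩) .k (.r 0 ⟨0,[(47,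
  1)]⟩ ⟨0,[(45,0)]⟩)) (.R ⟨1,true,false,false,[0,0,0,0,1],[1,1,0,0,-1],[1,-1,1,1],(⟨0,[(28,0)]⟩,⟨0,
  [(27,0)]⟩),(⟨0,[(27,0),(11,0)]⟩,⟨0,[(18,0)]⟩),⟨0,[(18,0)]⟩,.k,(.r (-1) ⟨37,[(0,13),(0,3),(19,1),
  (4,27),(5,16),(0,16),(3,5)]⟩ ⟨0,[(42,0)]⟩),(.r 0 ⟨0,[(42,0)]⟩ ⟨37,[(0,13),(0,3),(19,1),(4,27),(5,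
  16),(0,16),(3,5)]⟩),(.r 0 ⟨3,[(16,0),(3,0),(19,2)]⟩ ⟨15,[(0,1),(0,5),(24,3),(5,4),(0,4),(3,0),(8,
  4)]⟩),(.r 0 ⟨4,[(3,1),(12,3),(28,1)]⟩ ⟨1,[(1,1),(30,0),(0,0),(14,1)]⟩),.k,⟨true,0,⟨0,[]⟩,⟨1,[(32,
  0),(0,0)]⟩⟩,⟨false,2,⟨4,[(0,4),(2,1),(12,3),(28,1)]⟩,⟨13,[(6,11),(13,5),(5,3),(5,6),(0,6),(3,0),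
  (8,8)]⟩⟩,⟨true,1,⟨15,[(0,1),(0,5),(24,3),(5,4),(0,4),(3,0),(8,4)]⟩,⟨0,[(3,0)]⟩⟩,⟨false,3,⟨3,[(0,
  3),(19,1),(4,0),(0,0),(19,2)]⟩,⟨0,[(6,0),(13,0)]⟩⟩,⟨false,1,⟨0,[(1,0)]⟩,⟨1,[(16,0),(3,0),(19,
  0)]⟩⟩,⟨true,2,⟨0,[(0,0)]⟩,⟨0,[(6,0),(13,0),(22,0)]⟩⟩,[]⟩) (.Q [0,3,0,2,-3,0,0,0,2,-1,0,2] (.p
  true [0,0,0,0,1] [1,0,0,0,-1] (⟨0,[(28,0)]⟩,⟨0,[(27,0)]⟩) .k 2 (⟨0,[(27,0)]⟩,⟨0,[(28,0)]⟩) .k (.r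
  0 ⟨0,[(48,1)]⟩ ⟨0,[(46,0)]⟩)) (.R ⟨1,true,false,true,[1,0,0,0,-1],[0,1,0,0,1],[1,2,1,1],(⟨0,[(28,
  0)]⟩,⟨0,[(29,0)]⟩),(⟨0,[(29,0),(10,0)]⟩,⟨0,[(15,0)]⟩),⟨0,[(15,0)]⟩,.k,(.r 0 ⟨7,[(2,1),(19,3),(10,
  2),(0,2),(7,1),(6,9)]⟩ ⟨2,[(13,0),(7,0),(24,0),(0,0)]⟩),(.r (-1) ⟨2,[(13,0),(7,0),(24,0),(0,0)]⟩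
  ⟨7,[(2,1),(19,3),(10,2),(0,2),(7,1),(6,9)]⟩),(.r (-1) ⟨0,[(13,0)]⟩ ⟨7,[(2,1),(19,3),(10,2),(0,2),
  (7,1),(6,17)]⟩),(.r (-2) ⟨2,[(13,1),(7,1),(24,1),(0,1)]⟩ ⟨3,[(22,7),(10,2),(0,2),(7,3),(5,1)]⟩),
  .k,⟨true,0,⟨0,[]⟩,⟨1,[(33,0),(0,0)]⟩⟩,⟨false,(-1),⟨24,[(1,1),(5,11),(4,20),(0,7),(13,0),(14,4)]⟩,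
  ⟨6,[(23,2),(2,15),(0,1),(5,5),(8,1),(5,0)]⟩⟩,⟨true,(-1),⟨2,[(4,0),(17,3),(10,1),(0,1),(7,1),(6,
  1)]⟩,⟨0,[(13,0)]⟩⟩,⟨false,(-2),⟨8,[(0,4),(0,0),(5,0),(19,3),(10,0)]⟩,⟨1,[(13,1),(12,3),(6,0),(0,
  0),(7,0),(4,0)]⟩⟩,⟨false,(-1),⟨1,[(22,3),(10,0),(0,0),(7,1)]⟩,⟨5,[(13,3),(7,3),(24,0),(0,6)]⟩⟩,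
  ⟨true,(-3),⟨0,[(0,0)]⟩,⟨1,[(21,1),(4,3),(15,0),(4,2)]⟩⟩,[]⟩) (.I [1,1,-1,-1,0,0,0,1] (.Q [0,0,0,0,
  0,0,1,0,0,0,1] (.p true [0,0,1] [] (⟨0,[(37,0)]⟩,⟨0,[(36,0)]⟩) .k 0 (⟨0,[]⟩,⟨0,[]⟩) .k .k) (.Q [0,
  0,0,0,0,0,-1,-1,0,0,-1] (.p false [0,0,1] [] (⟨0,[(38,0)]⟩,⟨0,[(37,0)]⟩) .k 0 (⟨0,[]⟩,⟨0,[]⟩) .k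
  .k) (.Q [0,0,0,2,0,0,1,1,0,0,1] (.p true [0,0,1] [] (⟨0,[(39,0)]⟩,⟨0,[(38,0)]⟩) .k 0 (⟨0,[]⟩,⟨0,
  []⟩) .k .k) (.K ⟨0,[0,1,1],0,0,(⟨0,[(40,0),(3,0)]⟩,⟨0,[(28,0)]⟩),.k,.k,(.r 0 ⟨1,[(0,1),(36,0),(0,
  2)]⟩ ⟨6,[(4,0),(9,6),(1,0),(0,3),(2,3),(10,0)]⟩),.k,.k,[⟨1,[(37,0),(0,0)]⟩,⟨0,[(2,0)]⟩,⟨1,[(1,0),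
  (23,0),(10,0)]⟩,⟨1,[(0,0),(34,0),(17,0)]⟩]⟩) (.S ⟨1,0,[0,0,0,0,0,0,0,-1],[1,0,-1],[0,1,0,0,0,0,0,
  -1],(⟨0,[(39,0)]⟩,⟨0,[(40,0)]⟩),⟨0,[(28,0)]⟩,.k,.k,⟨true,0,⟨0,[(53,0)]⟩,⟨0,[]⟩⟩,⟨false,1,⟨27,[(4,
  5),(1,5),(24,11),(10,2),(2,3),(4,0)]⟩,⟨0,[]⟩⟩,⟨false,0,⟨0,[(49,0)]⟩,⟨27,[(4,9),(0,3),(25,11),(10,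
  2),(8,2)]⟩⟩,⟨true,0,⟨0,[(49,0)]⟩,⟨0,[(48,0)]⟩⟩,[.o ⟨false,0,⟨0,[(1,0)]⟩,⟨10,[(4,0),(1,1),(3,1),
  (24,8),(6,4),(7,0)]⟩⟩,.e ⟨false,0,⟨8,[(0,0),(0,7),(0,8),(4,3),(3,1),(6,0),(27,0)]⟩,⟨27,[(4,5),(1,
  5),(8,27),(15,11),(10,2),(2,3),(4,0)]⟩⟩ ⟨false,1,⟨0,[(14,0),(3,0)]⟩,⟨0,[(15,0)]⟩⟩,.a ⟨true,0,⟨17,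
  [(4,0),(1,0),(20,8),(3,1),(13,0),(0,3),(6,3)]⟩,⟨0,[(2,0)]⟩⟩ ⟨false,0,⟨0,[(1,0),(0,0)]⟩,⟨24,[(3,3),
  (0,3),(1,9),(3,7),(4,12),(11,3),(22,2)]⟩⟩ ⟨true,0,⟨0,[(1,0),(0,0)]⟩,⟨0,[(15,0)]⟩⟩,.o ⟨false,0,⟨0,
  [(38,0)]⟩,⟨1,[(2,1),(39,0),(7,0)]⟩⟩]⟩)) (.I [1,-1,1,2,0,0,0,1] (.S ⟨1,0,[0,1,0,0,0,0,0,-1],[1,0,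
  -1],[0,0,0,0,0,0,0,-1],(⟨0,[(39,0)]⟩,⟨0,[(40,0)]⟩),⟨0,[(28,0)]⟩,.k,.k,⟨false,1,⟨27,[(4,5),(1,5),
  (24,11),(10,2),(2,3),(4,0)]⟩,⟨0,[]⟩⟩,⟨true,0,⟨0,[(53,0)]⟩,⟨0,[]⟩⟩,⟨true,0,⟨0,[(49,0)]⟩,⟨0,[(48,
  0)]⟩⟩,⟨false,0,⟨0,[(49,0)]⟩,⟨27,[(4,9),(0,3),(25,11),(10,2),(8,2)]⟩⟩,[.o ⟨false,0,⟨0,[(36,0)]⟩,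
  ⟨12,[(1,10),(2,0),(1,1),(3,1),(7,1),(23,5)]⟩⟩,.e ⟨false,1,⟨0,[(14,0),(3,0)]⟩,⟨0,[(15,0)]⟩⟩ ⟨false,
  1,⟨27,[(4,1),(1,1),(7,27),(3,7),(12,3),(10,0),(7,10)]⟩,⟨4,[(0,3),(2,0),(0,0),(0,0),(2,0),(11,
  0)]⟩⟩,.a ⟨true,0,⟨17,[(4,0),(1,0),(20,8),(3,1),(13,0),(0,3),(6,3)]⟩,⟨0,[(2,0)]⟩⟩ ⟨false,1,⟨0,[(14,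
  0),(36,0)]⟩,⟨4,[(0,3),(2,0),(0,0),(0,0),(2,0),(11,0)]⟩⟩ ⟨true,0,⟨0,[(2,0),(33,0)]⟩,⟨4,[(0,3),(2,
  0),(0,0),(0,0),(2,0),(11,0)]⟩⟩,.o ⟨false,0,⟨0,[(38,0)]⟩,⟨1,[(2,1),(39,0),(7,0)]⟩⟩]⟩) (.K ⟨0,[0,1,
  1],0,0,(⟨0,[(40,0),(3,0)]⟩,⟨0,[(28,0)]⟩),.k,.k,(.r 0 ⟨7,[(1,3),(4,3),(19,7),(8,3),(1,0),(0,8),(7,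
  3),(5,1)]⟩ ⟨6,[(0,5),(3,0),(9,0),(1,0),(1,1),(12,0),(18,1)]⟩),.k,.k,[⟨1,[(37,0),(0,0)]⟩,⟨0,[(2,
  0)]⟩,⟨1,[(0,0),(35,0),(1,0)]⟩,⟨0,[(35,0),(13,0)]⟩]⟩))) (.I [1,0,-1,0,0,0,0,-1] (.S ⟨1,0,[0,0,0,0,
  0,0,0,1],[0,0,1],[1,1,0,-1,0,0,0,1],(⟨0,[(39,0)]⟩,⟨0,[(38,0)]⟩),⟨0,[(28,0)]⟩,.k,.k,⟨true,0,⟨0,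
  [(47,0)]⟩,⟨0,[(48,0)]⟩⟩,⟨false,1,⟨27,[(3,5),(1,5),(24,11),(10,2),(2,3),(4,0)]⟩,⟨0,[]⟩⟩,⟨false,0,
  ⟨0,[]⟩,⟨27,[(3,5),(1,5),(24,11),(10,2),(2,3),(4,0)]⟩⟩,⟨true,0,⟨0,[(48,0)]⟩,⟨0,[(47,0)]⟩⟩,[.o
  ⟨false,1,⟨10,[(3,0),(1,1),(3,1),(24,8),(6,4),(7,0)]⟩,⟨0,[(0,0),(36,0)]⟩⟩,.e ⟨false,1,⟨4,[(2,0),(0,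
  0),(5,1),(4,1),(11,0),(22,1)]⟩,⟨15,[(0,11),(4,3),(7,3),(11,7),(10,2),(0,2),(7,3),(5,1)]⟩⟩ ⟨false,
  1,⟨27,[(2,25),(0,0),(1,14),(3,1),(7,2),(8,0),(22,6)]⟩,⟨0,[(13,0)]⟩⟩,.o ⟨false,1,⟨1,[(36,1),(4,0),
  (7,0)]⟩,⟨0,[(1,0)]⟩⟩,.a ⟨true,0,⟨0,[(36,0)]⟩,⟨0,[(33,0)]⟩⟩ ⟨true,0,⟨0,[(2,0)]⟩,⟨15,[(0,11),(4,3),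
  (7,3),(11,7),(10,10),(0,10),(7,3),(5,1)]⟩⟩ ⟨false,1,⟨27,[(2,25),(0,0),(1,14),(3,1),(7,2),(8,0),
  (22,6)]⟩,⟨0,[(0,0),(35,0),(0,0)]⟩⟩]⟩) (.I [0,0,0,-1,0,0,0,1] (.S ⟨1,0,[0,0,0,0,0,0,0,1],[0,0,1],
  [0,1,0,0,0,0,0,1],(⟨0,[(40,0)]⟩,⟨0,[(39,0)]⟩),⟨0,[(29,0)]⟩,.k,.k,⟨true,0,⟨0,[(53,0)]⟩,⟨0,[]⟩⟩,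
  ⟨false,1,⟨27,[(4,5),(1,5),(24,11),(10,2),(2,3),(4,0)]⟩,⟨0,[]⟩⟩,⟨false,0,⟨0,[(49,0)]⟩,⟨27,[(4,9),
  (0,3),(25,11),(10,2),(8,2)]⟩⟩,⟨true,0,⟨0,[(49,0)]⟩,⟨0,[(48,0)]⟩⟩,[.e ⟨false,0,⟨16,[(3,4),(2,0),(0,
  5),(3,2),(3,10),(18,0),(0,0),(10,0)]⟩,⟨0,[(14,0),(36,0)]⟩⟩ ⟨false,0,⟨5,[(0,2),(0,1),(1,0),(2,0),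
  (0,3),(3,1),(34,0)]⟩,⟨27,[(4,5),(1,5),(7,27),(16,11),(10,2),(2,3),(4,0)]⟩⟩,.o ⟨false,1,⟨19,[(0,
  11),(5,7),(0,9),(2,7),(0,0),(14,2),(10,11),(4,3)]⟩,⟨0,[(36,0)]⟩⟩,.o ⟨false,1,⟨1,[(37,1),(4,0),(7,
  0)]⟩,⟨0,[(2,0)]⟩⟩,.a ⟨true,0,⟨0,[(37,0)]⟩,⟨0,[(34,0)]⟩⟩ ⟨false,0,⟨5,[(0,2),(0,1),(1,0),(2,0),(0,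
  3),(3,1),(34,0)]⟩,⟨53,[(4,15),(0,11),(0,27),(7,53),(16,7),(5,12),(0,12),(3,1)]⟩⟩ ⟨true,0,⟨5,[(0,
  2),(0,1),(1,0),(2,0),(0,3),(3,1),(34,0)]⟩,⟨1,[(14,1),(22,0),(0,0)]⟩⟩]⟩) (.I [1,0,-1,0,0,0,0,1]
  (.R ⟨2,true,false,false,[0,1],[0,0,1],[1,1,1],(⟨0,[]⟩,⟨0,[]⟩),(⟨0,[(41,0)]⟩,⟨0,[(40,0)]⟩),⟨0,[]⟩,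
  .k,.k,.k,.k,.k,.k,⟨false,0,⟨0,[(15,0)]⟩,⟨27,[(4,25),(0,0),(1,14),(3,1),(7,2),(8,0),(22,6)]⟩⟩,
  ⟨true,0,⟨0,[(38,0)]⟩,⟨0,[(3,0)]⟩⟩,⟨true,0,⟨0,[(49,0)]⟩,⟨0,[(50,0)]⟩⟩,⟨false,1,⟨22,[(5,6),(1,1),(3,
  12),(7,1),(12,0),(3,9),(10,2),(4,0)]⟩,⟨0,[(1,0),(1,0)]⟩⟩,⟨false,0,⟨0,[]⟩,⟨27,[(5,5),(1,5),(24,11),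
  (10,2),(2,3),(4,0)]⟩⟩,⟨true,0,⟨0,[(0,0),(37,0)]⟩,⟨0,[(37,0)]⟩⟩,[]⟩) (.S ⟨1,0,[0,0,1,1,0,0,0,-1],
  [1,1,-1],[0,1,1,1,0,0,0,-1],(⟨0,[(40,0),(4,0)]⟩,⟨0,[(30,0)]⟩),⟨0,[(40,0)]⟩,.k,.k,⟨true,0,⟨0,[(54,
  0)]⟩,⟨0,[]⟩⟩,⟨false,1,⟨27,[(5,5),(1,5),(24,11),(10,2),(2,3),(4,0)]⟩,⟨0,[]⟩⟩,⟨false,0,⟨0,[(50,0)]⟩,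
  ⟨27,[(5,9),(0,3),(25,11),(10,2),(8,2)]⟩⟩,⟨true,0,⟨0,[(50,0)]⟩,⟨0,[(49,0)]⟩⟩,[.o ⟨false,0,⟨0,[(1,
  0),(1,0)]⟩,⟨26,[(2,1),(2,5),(2,0),(0,1),(1,12),(24,11),(1,1),(4,9)]⟩⟩,.e ⟨false,0,⟨0,[(0,0),(7,3),
  (3,1),(5,0),(28,0),(5,7)]⟩,⟨4,[(4,0),(0,0),(5,1),(4,1),(11,0),(22,1)]⟩⟩ ⟨false,1,⟨55,[(5,1),(1,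
  29),(7,55),(3,7),(12,3),(10,0),(7,10)]⟩,⟨0,[(4,0)]⟩⟩,.a ⟨true,0,⟨0,[(35,0)]⟩,⟨0,[(38,0)]⟩⟩ ⟨false,
  0,⟨3,[(0,2),(6,0),(7,0),(11,1),(19,0)]⟩,⟨6,[(4,4),(0,0),(1,0),(3,1),(7,2),(8,0)]⟩⟩ ⟨true,0,⟨3,[(0,
  2),(6,0),(7,0),(11,1),(19,0)]⟩,⟨0,[(4,0)]⟩⟩,.o ⟨false,0,⟨0,[(3,0)]⟩,⟨1,[(38,1),(4,0),(7,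
  0)]⟩⟩]⟩))))) (.Q [0,0,0,0,0,0,1,0,0,0,1] (.p true [0,0,1] [] (⟨0,[(37,0)]⟩,⟨0,[(36,0)]⟩) .k 0 (⟨0,
  []⟩,⟨0,[]⟩) .k .k) (.S ⟨1,0,[0,0,0,0,0,0,0,1],[0,0,1],[0,0,1],(⟨0,[(38,0)]⟩,⟨0,[(37,0)]⟩),⟨0,[(27,
  0)]⟩,.k,.k,⟨true,0,⟨5,[(1,3),(10,1),(10,1),(11,0),(0,0)]⟩,⟨4,[(5,2),(2,0),(0,0),(3,3),(22,0),(7,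
  0)]⟩⟩,⟨false,1,⟨27,[(2,5),(1,5),(24,11),(10,2),(2,3),(4,0)]⟩,⟨0,[]⟩⟩,⟨false,0,⟨0,[(1,0)]⟩,⟨12,[(2,
  2),(5,4),(4,7),(0,0),(3,0),(6,1),(6,0),(15,3)]⟩⟩,⟨true,0,⟨0,[(47,0)]⟩,⟨0,[(46,0)]⟩⟩,[.o ⟨false,1,
  ⟨10,[(2,0),(1,1),(3,1),(24,8),(6,4),(7,0)]⟩,⟨4,[(1,3),(1,0),(1,1),(12,0),(6,0),(8,0),(1,1)]⟩⟩,.e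
  ⟨false,1,⟨27,[(2,5),(1,5),(24,11),(10,2),(2,3),(4,0)]⟩,⟨29,[(5,4),(0,0),(2,0),(4,2),(28,12),(0,
  1)]⟩⟩ ⟨false,1,⟨0,[(13,0),(2,0)]⟩,⟨0,[(12,0)]⟩⟩,.a ⟨true,0,⟨0,[(0,0)]⟩,⟨17,[(2,0),(1,0),(20,8),(3,
  1),(13,0),(0,3),(6,3)]⟩⟩ ⟨true,0,⟨1,[(35,0),(0,0)]⟩,⟨29,[(5,4),(0,0),(2,0),(4,2),(28,12),(0,1)]⟩⟩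
  ⟨false,1,⟨12,[(2,1),(1,3),(3,3),(4,8),(2,1),(8,1),(22,0)]⟩,⟨2,[(1,1),(10,0),(5,0)]⟩⟩,.e ⟨false,1,
  ⟨27,[(2,5),(1,5),(24,11),(10,2),(2,3),(4,0)]⟩,⟨0,[]⟩⟩ ⟨false,1,⟨0,[(13,0),(2,0)]⟩,⟨5,[(1,3),(10,
  1),(10,1),(11,0),(0,0)]⟩⟩]⟩) (.S ⟨1,0,[0,0,0,0,0,0,0,1],[0,0,1],[0,1,0,0,0,0,0,1],(⟨0,[(38,0)]⟩,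
  ⟨0,[(37,0)]⟩),⟨0,[(27,0)]⟩,.k,.k,⟨true,0,⟨0,[(51,0)]⟩,⟨0,[]⟩⟩,⟨false,1,⟨27,[(2,5),(1,5),(24,11),
  (10,2),(2,3),(4,0)]⟩,⟨0,[]⟩⟩,⟨false,0,⟨0,[(47,0)]⟩,⟨27,[(2,9),(0,3),(25,11),(10,2),(8,2)]⟩⟩,⟨true,
  0,⟨0,[(47,0)]⟩,⟨0,[(46,0)]⟩⟩,[.o ⟨false,1,⟨10,[(2,0),(1,1),(3,1),(24,8),(6,4),(7,0)]⟩,⟨2,[(0,1),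
  (0,1),(16,0),(15,0)]⟩⟩,.e ⟨false,1,⟨12,[(2,0),(1,1),(3,1),(4,10),(2,0),(8,0),(22,6)]⟩,⟨2,[(1,1),
  (10,0),(5,0)]⟩⟩ ⟨false,1,⟨0,[(13,0),(2,0)]⟩,⟨0,[(12,0)]⟩⟩,.o ⟨false,1,⟨1,[(35,1),(4,0),(7,0)]⟩,⟨0,
  [(0,0)]⟩⟩,.a ⟨true,0,⟨0,[(35,0)]⟩,⟨0,[(32,0)]⟩⟩ ⟨true,0,⟨5,[(0,0),(4,2),(2,0),(0,0),(3,4),(30,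
  0)]⟩,⟨5,[(1,3),(10,1),(10,1),(11,0),(0,0)]⟩⟩ ⟨false,1,⟨0,[(13,0),(2,0)]⟩,⟨5,[(1,3),(10,1),(10,1),
  (11,0),(0,0)]⟩⟩]⟩))))) (.Q [0,0,0,0,0,0,-1,0,0,0,-1] (.p false [0,0,1] [] (⟨0,[(34,0)]⟩,⟨0,[(33,
  0)]⟩) .k 0 (⟨0,[]⟩,⟨0,[]⟩) .k .k) (.I [1,0,0,0,0,0,0,1] (.Q [0,1,0,0,0,0,1,1,0,-1,1] (.p true [0,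
  0,1] [1] (⟨0,[(36,0)]⟩,⟨0,[(35,0)]⟩) .k 1 (⟨0,[]⟩,⟨0,[]⟩) .k .k) (.S ⟨1,0,[0,1,0,0,0,0,0,1],[0,0,
  1],[0,0,0,0,0,0,0,1],(⟨0,[(37,0)]⟩,⟨0,[(36,0)]⟩),⟨0,[(26,0)]⟩,.k,.k,⟨false,1,⟨1,[(27,0),(0,0),(19,
  0)]⟩,⟨0,[]⟩⟩,⟨true,0,⟨0,[(50,0)]⟩,⟨0,[]⟩⟩,⟨true,0,⟨0,[(46,0)]⟩,⟨0,[(45,0)]⟩⟩,⟨false,0,⟨0,[(46,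
  0)]⟩,⟨3,[(22,1),(4,0),(0,0),(19,2)]⟩⟩,[.o ⟨false,0,⟨0,[(0,0)]⟩,⟨0,[(33,0),(14,0)]⟩⟩,.e ⟨false,1,
  ⟨0,[(12,0),(2,0)]⟩,⟨0,[(11,0)]⟩⟩ ⟨false,0,⟨4,[(0,0),(0,3),(0,0),(1,1),(3,0),(5,0),(28,0)]⟩,⟨1,
  [(11,1),(15,0),(0,0),(19,0)]⟩⟩,.o ⟨false,1,⟨1,[(34,1),(4,0),(7,0)]⟩,⟨0,[(2,0)]⟩⟩,.a ⟨true,0,⟨0,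
  [(34,0)]⟩,⟨0,[(31,0)]⟩⟩ ⟨true,0,⟨4,[(0,0),(0,3),(0,0),(1,1),(3,0),(5,0),(28,0)]⟩,⟨1,[(11,1),(22,
  0),(0,0)]⟩⟩ ⟨false,0,⟨4,[(0,0),(0,3),(0,0),(1,1),(3,0),(5,0),(28,0)]⟩,⟨1,[(11,1),(22,0),(0,0),(12,
  1)]⟩⟩]⟩) (.S ⟨1,0,[0,0,1,1,0,0,0,-1],[1,1,-1],[0,1,1,1,0,0,0,-1],(⟨0,[(36,0),(4,0)]⟩,⟨0,[(26,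
  0)]⟩),⟨0,[(36,0)]⟩,.k,.k,⟨true,0,⟨0,[(50,0)]⟩,⟨0,[]⟩⟩,⟨false,1,⟨1,[(27,0),(0,0),(19,0)]⟩,⟨0,[]⟩⟩,
  ⟨false,0,⟨0,[(46,0)]⟩,⟨3,[(22,1),(4,0),(0,0),(19,2)]⟩⟩,⟨true,0,⟨0,[(46,0)]⟩,⟨0,[(45,0)]⟩⟩,[.o
  ⟨false,0,⟨0,[(0,0),(22,0)]⟩,⟨0,[(7,0),(19,0)]⟩⟩,.e ⟨false,0,⟨3,[(0,3),(3,1),(3,0),(14,2),(10,3)]⟩,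
  ⟨2,[(12,2),(1,0),(7,0),(24,0),(0,0)]⟩⟩ ⟨false,1,⟨0,[(11,0),(34,0),(1,0)]⟩,⟨1,[(1,0),(10,0),(4,
  0)]⟩⟩,.a ⟨true,0,⟨0,[(31,0)]⟩,⟨0,[(34,0)]⟩⟩ ⟨false,0,⟨0,[(0,0),(22,0),(10,0)]⟩,⟨0,[(12,0),(1,
  0)]⟩⟩ ⟨true,0,⟨0,[(0,0),(22,0),(10,0)]⟩,⟨1,[(1,0),(10,0),(4,0)]⟩⟩,.o ⟨false,0,⟨0,[(2,0)]⟩,⟨1,[(34,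
  1),(4,0),(7,0)]⟩⟩]⟩)) (.S ⟨1,0,[0,0,0,0,0,0,0,1],[0,0,1],[0,1,0,0,0,0,0,1],(⟨0,[(36,0)]⟩,⟨0,[(35,
  0)]⟩),⟨0,[(25,0)]⟩,.k,.k,⟨true,0,⟨0,[(49,0)]⟩,⟨0,[]⟩⟩,⟨false,1,⟨1,[(26,0),(0,0),(19,0)]⟩,⟨0,[]⟩⟩,
  ⟨false,0,⟨0,[(45,0)]⟩,⟨3,[(21,1),(4,0),(0,0),(19,2)]⟩⟩,⟨true,0,⟨0,[(45,0)]⟩,⟨0,[(44,0)]⟩⟩,[.o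
  ⟨false,1,⟨1,[(31,1),(6,0),(8,0)]⟩,⟨0,[(0,0),(0,0)]⟩⟩,.e ⟨false,1,⟨1,[(11,1),(34,0),(0,0)]⟩,⟨0,[(0,
  0)]⟩⟩ ⟨false,1,⟨0,[(11,0),(2,0)]⟩,⟨0,[(10,0)]⟩⟩,.o ⟨false,1,⟨1,[(33,1),(4,0),(7,0)]⟩,⟨0,[(1,0)]⟩⟩,
  .a ⟨true,0,⟨0,[(33,0)]⟩,⟨0,[(30,0)]⟩⟩ ⟨true,0,⟨5,[(1,0),(1,2),(2,0),(0,0),(3,4),(30,0)]⟩,⟨1,[(0,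
  1),(32,0),(0,0)]⟩⟩ ⟨false,1,⟨0,[(11,0),(2,0)]⟩,⟨1,[(0,1),(32,0),(0,0)]⟩⟩]⟩)) (.I [1,0,-1,0,0,0,0,
  1] (.S ⟨1,0,[0,1,0,0,0,0,0,-1],[1,0,-1],[0,0,0,0,0,0,0,-1],(⟨0,[(35,0)]⟩,⟨0,[(36,0)]⟩),⟨0,[(24,
  0)]⟩,.k,.k,⟨false,1,⟨1,[(26,0),(0,0),(19,0)]⟩,⟨0,[]⟩⟩,⟨true,0,⟨0,[(49,0)]⟩,⟨0,[]⟩⟩,⟨true,0,⟨0,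
  [(45,0)]⟩,⟨0,[(44,0)]⟩⟩,⟨false,0,⟨0,[(45,0)]⟩,⟨3,[(21,1),(4,0),(0,0),(19,2)]⟩⟩,[.o ⟨false,0,⟨0,
  [(32,0)]⟩,⟨1,[(0,1),(32,1),(4,0),(8,0)]⟩⟩,.e ⟨false,1,⟨0,[(10,0),(3,0)]⟩,⟨0,[(11,0)]⟩⟩ ⟨false,1,
  ⟨1,[(10,1),(35,0),(0,0)]⟩,⟨1,[(0,1),(32,0),(0,0)]⟩⟩,.a ⟨true,0,⟨19,[(23,9),(2,3),(0,3),(14,4),(4,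
  0),(1,1)]⟩,⟨0,[(1,0)]⟩⟩ ⟨false,1,⟨0,[(10,0),(36,0)]⟩,⟨1,[(0,1),(32,0),(0,0)]⟩⟩ ⟨true,0,⟨0,[(1,0),
  (30,0)]⟩,⟨1,[(0,1),(32,0),(0,0)]⟩⟩,.o ⟨false,0,⟨0,[(34,0)]⟩,⟨1,[(1,1),(36,0),(7,0)]⟩⟩]⟩) (.I [0,0,
  -2,-2,0,0,0,-1] (.K ⟨0,[0,1,1],0,0,(⟨0,[(37,0),(3,0)]⟩,⟨0,[(25,0)]⟩),.k,.k,(.r (-1) ⟨1,[(27,0),(0,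
  0),(3,1),(1,0),(0,2),(10,3),(1,0)]⟩ ⟨0,[(0,0)]⟩),.k,.k,[⟨1,[(34,0),(0,0)]⟩,⟨0,[(2,0)]⟩,⟨9,[(0,1),
  (0,0),(20,2),(10,6),(1,2)]⟩,⟨0,[(32,0),(13,0)]⟩]⟩) (.K ⟨0,[0,1,1],0,0,(⟨0,[(37,0),(3,0)]⟩,⟨0,[(25,
  0)]⟩),.k,.k,(.x (-1) ⟨11,[(2,11),(1,4),(1,2),(3,2),(2,4),(11,11),(13,4),(7,1)]⟩ ⟨1,[(34,0),(0,2),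
  (1,1),(3,3)]⟩),.k,.k,[⟨1,[(34,0),(0,0)]⟩,⟨0,[(2,0)]⟩,⟨2,[(1,0),(1,0),(10,0),(18,1),(1,0)]⟩,⟨0,
  [(32,0),(13,0)]⟩]⟩)))))) (.I [0,1,-2,-2] (.Q [0,0,2,0,-1,0,0,0,1,0,0,1] (.p true [0,0,0,0,1] []
  (⟨0,[(26,0)]⟩,⟨0,[(25,0)]⟩) .k 0 (⟨0,[]⟩,⟨0,[]⟩) .k .k) (.S ⟨1,0,[0,1,-1,-1],[0,-1,0,0,1],[1,2,-1,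
  -2],(⟨0,[(17,0)]⟩,⟨0,[(26,0),(11,0)]⟩),⟨0,[(3,0)]⟩,(.r 0 ⟨0,[(41,0)]⟩ ⟨0,[(2,0),(44,1)]⟩),(.r 0
  ⟨0,[(1,0)]⟩ ⟨1,[(2,1),(28,0),(0,0),(10,1),(3,3)]⟩),⟨true,0,⟨0,[(42,0)]⟩,⟨0,[(43,0)]⟩⟩,⟨false,1,⟨1,
  [(24,0),(0,0),(19,0)]⟩,⟨0,[]⟩⟩,⟨false,0,⟨0,[]⟩,⟨1,[(24,0),(0,0),(19,0)]⟩⟩,⟨true,0,⟨0,[(43,0)]⟩,⟨0,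
  [(42,0)]⟩⟩,[.e ⟨false,0,⟨1,[(1,0),(13,0),(23,0)]⟩,⟨0,[(2,0),(40,0),(3,0)]⟩⟩ ⟨false,0,⟨6,[(1,3),(3,
  0),(4,0),(5,2),(22,0),(0,0)]⟩,⟨0,[(2,0),(44,1)]⟩⟩,.o ⟨false,0,⟨4,[(0,1),(10,0),(6,2),(0,1),(16,
  0)]⟩,⟨0,[(24,0),(18,0)]⟩⟩,.o ⟨false,0,⟨1,[(0,0),(24,0),(10,0)]⟩,⟨0,[(16,0)]⟩⟩,.a ⟨true,(-1),⟨0,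
  [(0,0)]⟩,⟨1,[(16,1),(23,0),(3,0)]⟩⟩ ⟨false,0,⟨0,[(14,0)]⟩,⟨1,[(2,1),(28,0),(0,0),(10,1),(3,1)]⟩⟩
  ⟨true,0,⟨6,[(1,3),(3,0),(4,0),(5,2),(22,0),(0,0)]⟩,⟨0,[(31,0),(0,0),(10,0)]⟩⟩]⟩) (.Q [0,0,0,3,0,0,
  0,0,0,-1] (.pp true [-1,1]) (.R ⟨1,true,false,false,[1,-1],[0,1],[1,0,1,1],(⟨0,[(38,0)]⟩,⟨0,[(39,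
  0)]⟩),(⟨0,[(39,0)]⟩,⟨0,[(38,0)]⟩),⟨2,[(4,0),(3,0),(29,1)]⟩,.k,.k,(.r (-1) ⟨4,[(12,1),(3,1),(3,1),
  (24,2)]⟩ ⟨2,[(0,1),(21,1),(9,4),(0,0)]⟩),(.r (-1) ⟨4,[(12,1),(3,1),(3,1),(24,2)]⟩ ⟨2,[(0,1),(21,
  1),(9,4),(0,0)]⟩),(.r (-1) ⟨4,[(2,1),(9,2),(3,3),(28,1)]⟩ ⟨1,[(0,1),(21,1),(9,4),(0,0)]⟩),.k,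
  ⟨true,0,⟨0,[]⟩,⟨1,[(32,0),(0,0)]⟩⟩,⟨false,1,⟨5,[(1,3),(9,3),(25,0),(7,0)]⟩,⟨0,[(22,0),(9,1)]⟩⟩,
  ⟨true,0,⟨2,[(0,1),(21,1),(9,4),(0,0)]⟩,⟨0,[(2,0)]⟩⟩,⟨false,1,⟨17,[(0,9),(2,5),(21,4),(0,4),(10,3),
  (7,2)]⟩,⟨1,[(20,1),(20,0),(4,0)]⟩⟩,⟨false,0,⟨17,[(0,15),(2,5),(18,3),(9,18),(0,10),(7,5)]⟩,⟨4,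
  [(12,2),(3,2),(3,2),(24,1)]⟩⟩,⟨true,0,⟨0,[(0,0)]⟩,⟨9,[(20,13),(4,1),(0,1),(14,4),(1,1),(2,2)]⟩⟩,
  []⟩) (.Q [0,1,0,-1,0,0,-1,-1,0,0,-1] (.p false [0,0,1] [] (⟨0,[(35,0)]⟩,⟨0,[(34,0)]⟩) .k 0 (⟨0,
  []⟩,⟨0,[]⟩) .k .k) (.Q [0,0,0,0,0,0,1,0,0,0,1] (.p true [0,0,1] [] (⟨0,[(36,0)]⟩,⟨0,[(35,0)]⟩) .k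
  0 (⟨0,[]⟩,⟨0,[]⟩) .k .k) (.I [0,0,2,2,0,0,0,1] (.K ⟨0,[0,1,1],0,0,(⟨0,[(38,0),(3,0)]⟩,⟨0,[(26,
  0)]⟩),.k,.k,(.r 0 ⟨0,[(0,0)]⟩ ⟨4,[(5,0),(6,4),(2,3),(3,1),(28,0)]⟩),.k,.k,[⟨1,[(35,0),(0,0)]⟩,⟨0,
  [(1,0)]⟩,⟨0,[(2,0)]⟩,⟨0,[(33,0),(13,0)]⟩]⟩) (.K ⟨0,[0,1,1],0,0,(⟨0,[(38,0),(3,0)]⟩,⟨0,[(26,0)]⟩),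
  .k,.k,(.x (-1) ⟨11,[(1,11),(2,4),(2,2),(3,2),(2,4),(11,11),(13,4),(7,1)]⟩ ⟨1,[(35,0),(0,2),(1,1),
  (3,3)]⟩),.k,.k,[⟨1,[(35,0),(0,0)]⟩,⟨0,[(1,0)]⟩,⟨0,[(2,0)]⟩,⟨0,[(33,0),(13,0)]⟩]⟩)) (.I [0,0,0,0,0,
  0,0,-1] (.S ⟨1,0,[0,1,0,0,0,0,0,1],[0,0,1],[1,0,0,-1,0,0,0,1],(⟨0,[(38,0)]⟩,⟨0,[(37,0)]⟩),⟨0,[(27,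
  0)]⟩,.k,.k,⟨false,1,⟨5,[(3,1),(24,1),(0,1),(10,0),(8,2)]⟩,⟨0,[(47,0)]⟩⟩,⟨true,0,⟨0,[(51,0)]⟩,⟨0,
  []⟩⟩,⟨true,0,⟨0,[]⟩,⟨0,[(51,0)]⟩⟩,⟨false,0,⟨0,[(47,0)]⟩,⟨5,[(3,1),(24,1),(0,1),(10,0),(8,2)]⟩⟩,
  [.e ⟨false,1,⟨7,[(3,1),(9,7),(1,1),(24,0),(7,2),(0,1)]⟩,⟨0,[(0,0),(46,0)]⟩⟩ ⟨false,0,⟨5,[(1,0),(2,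
  2),(3,0),(0,0),(3,4),(30,0)]⟩,⟨0,[(12,0),(36,0)]⟩⟩,.o ⟨false,1,⟨1,[(33,1),(6,0),(8,0)]⟩,⟨0,[(0,0),
  (0,0)]⟩⟩,.o ⟨false,1,⟨1,[(35,1),(4,0),(7,0)]⟩,⟨0,[(1,0)]⟩⟩,.a ⟨true,0,⟨0,[(35,0)]⟩,⟨0,[(32,0)]⟩⟩
  ⟨false,1,⟨0,[(13,0),(1,0)]⟩,⟨2,[(0,1),(5,0),(5,0),(11,1),(10,0),(0,0),(7,0)]⟩⟩ ⟨true,0,⟨5,[(1,0),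
  (2,2),(3,0),(0,0),(3,4),(30,0)]⟩,⟨1,[(0,1),(34,0),(0,0)]⟩⟩]⟩) (.Q [0,-1,0,0,1,0,-1,-1,-1,1,-1,-1]
  (.p false [0,0,1] [1,0,0,0,-1] (⟨0,[(38,0)]⟩,⟨0,[(37,0)]⟩) .k 2 (⟨0,[(30,0)]⟩,⟨0,[(31,0)]⟩) .k
  (.r 0 ⟨0,[(13,0)]⟩ ⟨0,[(12,0),(36,0)]⟩)) (.S ⟨1,0,[0,0,1,1,0,0,0,-1],[1,1,-1],[0,1,1,1,0,0,0,-1],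
  (⟨0,[(38,0),(4,0)]⟩,⟨0,[(28,0)]⟩),⟨0,[(38,0)]⟩,.k,.k,⟨true,0,⟨0,[(52,0)]⟩,⟨0,[]⟩⟩,⟨false,1,⟨1,
  [(29,0),(0,0),(19,0)]⟩,⟨0,[]⟩⟩,⟨false,0,⟨0,[(48,0)]⟩,⟨5,[(4,1),(24,1),(0,1),(10,0),(8,2)]⟩⟩,⟨true,
  0,⟨0,[(48,0)]⟩,⟨0,[(47,0)]⟩⟩,[.o ⟨false,0,⟨1,[(0,1),(9,0),(14,0)]⟩,⟨0,[(9,0),(19,0)]⟩⟩,.e ⟨false,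
  0,⟨3,[(0,3),(4,1),(4,2),(14,0),(10,3)]⟩,⟨7,[(4,1),(9,7),(1,1),(24,0),(7,2),(0,1)]⟩⟩ ⟨false,1,⟨2,
  [(7,1),(5,2),(34,0),(0,0)]⟩,⟨1,[(1,0),(4,0),(7,0)]⟩⟩,.a ⟨true,0,⟨0,[(33,0)]⟩,⟨0,[(36,0)]⟩⟩ ⟨false,
  0,⟨1,[(0,1),(9,0),(14,0),(10,1)]⟩,⟨0,[(14,0),(1,0)]⟩⟩ ⟨true,0,⟨1,[(0,1),(9,0),(14,0),(10,1)]⟩,⟨1,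
  [(1,0),(4,0),(7,0)]⟩⟩,.o ⟨false,0,⟨0,[(2,0)]⟩,⟨1,[(36,1),(4,0),(7,0)]⟩⟩]⟩) (.S ⟨1,0,[0,0,0,0,0,0,
  0,1],[0,0,1],[0,1,0,0,0,0,0,1],(⟨0,[(39,0)]⟩,⟨0,[(38,0)]⟩),⟨0,[(28,0)]⟩,.k,.k,⟨true,0,⟨0,[(52,
  0)]⟩,⟨0,[]⟩⟩,⟨false,1,⟨1,[(29,0),(0,0),(19,0)]⟩,⟨0,[]⟩⟩,⟨false,0,⟨0,[(48,0)]⟩,⟨5,[(4,1),(24,1),(0,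
  1),(10,0),(8,2)]⟩⟩,⟨true,0,⟨0,[(48,0)]⟩,⟨0,[(47,0)]⟩⟩,[.e ⟨false,0,⟨2,[(0,0),(4,0),(8,1),(18,0)]⟩,
  ⟨0,[(13,0),(36,0)]⟩⟩ ⟨false,0,⟨6,[(0,0),(0,5),(0,0),(2,2),(4,0),(5,0),(28,0)]⟩,⟨1,[(13,1),(15,0),
  (0,0),(19,0)]⟩⟩,.o ⟨false,1,⟨3,[(0,1),(4,0),(1,1),(1,1),(19,2)]⟩,⟨0,[(35,0)]⟩⟩,.o ⟨false,1,⟨1,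
  [(36,1),(4,0),(7,0)]⟩,⟨0,[(2,0)]⟩⟩,.a ⟨true,0,⟨0,[(36,0)]⟩,⟨0,[(33,0)]⟩⟩ ⟨false,0,⟨6,[(0,0),(0,5),
  (0,0),(2,2),(4,0),(5,0),(28,0)]⟩,⟨17,[(3,5),(0,1),(2,11),(5,11),(15,4),(0,4),(5,5),(4,0)]⟩⟩ ⟨true,
  0,⟨6,[(0,0),(0,5),(0,0),(2,2),(4,0),(5,0),(28,0)]⟩,⟨1,[(13,1),(22,0),(0,0)]⟩⟩]⟩)))) (.Q [0,0,0,0,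
  0,0,-1,0,0,0,-1] (.p false [0,0,1] [] (⟨0,[(36,0)]⟩,⟨0,[(35,0)]⟩) .k 0 (⟨0,[]⟩,⟨0,[]⟩) .k .k) (.S
  ⟨1,0,[0,0,0,0,0,0,0,1],[0,0,1],[0,1,0,0,0,0,0,1],(⟨0,[(37,0)]⟩,⟨0,[(36,0)]⟩),⟨0,[(26,0)]⟩,.k,.k,
  ⟨true,0,⟨0,[(50,0)]⟩,⟨0,[]⟩⟩,⟨false,1,⟨1,[(27,0),(0,0),(19,0)]⟩,⟨0,[]⟩⟩,⟨false,0,⟨0,[(46,0)]⟩,⟨5,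
  [(2,1),(24,1),(0,1),(10,0),(8,2)]⟩⟩,⟨true,0,⟨0,[(46,0)]⟩,⟨0,[(45,0)]⟩⟩,[.e ⟨false,0,⟨6,[(1,0),(1,
  1),(0,0),(3,0),(3,5),(18,0)]⟩,⟨0,[(11,0),(36,0)]⟩⟩ ⟨false,0,⟨17,[(0,10),(0,12),(1,1),(0,6),(3,0),
  (3,4),(11,0)]⟩,⟨1,[(11,1),(15,0),(0,0),(19,0)]⟩⟩,.o ⟨false,1,⟨9,[(1,3),(1,0),(1,1),(1,5),(19,4),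
  (11,1)]⟩,⟨0,[(33,0)]⟩⟩,.o ⟨false,1,⟨1,[(34,1),(4,0),(7,0)]⟩,⟨0,[(0,0)]⟩⟩,.a ⟨true,0,⟨0,[(34,0)]⟩,
  ⟨0,[(31,0)]⟩⟩ ⟨false,0,⟨17,[(0,10),(0,12),(1,1),(0,6),(3,0),(3,4),(11,0)]⟩,⟨17,[(2,3),(2,11),(5,
  17),(15,3),(0,3),(5,2),(0,2),(3,1)]⟩⟩ ⟨true,0,⟨17,[(0,10),(0,12),(1,1),(0,6),(3,0),(3,4),(11,0)]⟩,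
  ⟨1,[(11,1),(22,0),(0,0)]⟩⟩]⟩) (.R ⟨2,true,false,false,[0,1],[0,1,1],[1,0,1],(⟨0,[]⟩,⟨0,[]⟩),(⟨0,
  [(37,0),(3,0)]⟩,⟨0,[(25,0)]⟩),⟨0,[]⟩,.k,.k,.k,.k,.k,.k,⟨false,1,⟨7,[(2,1),(8,7),(2,1),(24,0),(7,
  2),(0,1)]⟩,⟨2,[(1,1),(10,0),(10,0),(0,0)]⟩⟩,⟨true,0,⟨0,[(0,0)]⟩,⟨0,[(35,0)]⟩⟩,⟨false,1,⟨5,[(2,1),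
  (24,1),(0,1),(10,0),(8,2)]⟩,⟨0,[(46,0)]⟩⟩,⟨true,0,⟨2,[(1,1),(20,0),(9,0)]⟩,⟨0,[(33,0)]⟩⟩,⟨true,0,
  ⟨0,[]⟩,⟨0,[(50,0)]⟩⟩,⟨false,0,⟨0,[(1,0)]⟩,⟨5,[(2,1),(24,1),(0,1),(4,5),(5,0),(8,2)]⟩⟩,[]⟩)))))
  (.I [0,0,-2,0,1,-2,0,0,-1] (.N [0,-2,0,0,1] 0 ⟨0,[(14,0)]⟩ ⟨0,[(1,0)]⟩ (.x 0 ⟨37,[(2,5),(2,9),(13,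
  7),(5,17),(0,37),(4,34),(0,34),(3,13),(1,75)]⟩ ⟨0,[(0,0)]⟩)) (.I [0,0,2,0,-1,2,0,0,1] (.N [0,-2,0,
  0,1] 0 ⟨0,[(15,0)]⟩ ⟨0,[(2,0)]⟩ (.x 1 ⟨0,[(0,0)]⟩ ⟨0,[(4,0),(20,0),(19,0)]⟩)) (.Q [0,0,0,0,0,0,-1,
  0,0,0,-1] (.p false [0,0,1] [] (⟨0,[(35,0)]⟩,⟨0,[(34,0)]⟩) .k 0 (⟨0,[]⟩,⟨0,[]⟩) .k .k) (.I [1,0,0,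
  0,0,0,0,1] (.I [1,0,-1,0,0,0,0,1] (.I [0,0,-1,0,0,0,0,1] (.S ⟨1,0,[0,0,0,0,0,0,0,1],[0,0,1],[0,1,
  0,0,0,0,0,1],(⟨0,[(39,0)]⟩,⟨0,[(38,0)]⟩),⟨0,[(28,0)]⟩,.k,.k,⟨true,0,⟨0,[(52,0)]⟩,⟨0,[]⟩⟩,⟨false,1,
  ⟨1,[(29,0),(0,0),(19,0)]⟩,⟨0,[]⟩⟩,⟨false,0,⟨0,[(48,0)]⟩,⟨3,[(24,1),(4,0),(0,0),(19,2)]⟩⟩,⟨true,0,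
  ⟨0,[(48,0)]⟩,⟨0,[(47,0)]⟩⟩,[.e ⟨false,0,⟨2,[(0,1),(13,0),(29,0)]⟩,⟨0,[(13,0),(36,0)]⟩⟩ ⟨false,0,
  ⟨0,[(0,0)]⟩,⟨1,[(13,1),(15,0),(0,0),(19,0)]⟩⟩,.o ⟨false,1,⟨2,[(0,1),(6,0),(1,0),(11,0),(14,1),(4,
  0)]⟩,⟨0,[(35,0)]⟩⟩,.o ⟨false,1,⟨1,[(36,1),(4,0),(7,0)]⟩,⟨0,[(3,0)]⟩⟩,.a ⟨true,0,⟨0,[(36,0)]⟩,⟨0,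
  [(33,0)]⟩⟩ ⟨false,0,⟨0,[(0,0)]⟩,⟨9,[(7,7),(5,9),(10,3),(4,1),(0,1),(5,0),(0,0)]⟩⟩ ⟨true,0,⟨0,[(0,
  0)]⟩,⟨1,[(13,1),(22,0),(0,0)]⟩⟩]⟩) (.R ⟨2,true,false,false,[0,1],[0,0,1],[1,1,1],(⟨0,[]⟩,⟨0,[]⟩),
  (⟨0,[(39,0)]⟩,⟨0,[(38,0)]⟩),⟨0,[]⟩,.k,.k,.k,.k,.k,.k,⟨false,0,⟨0,[(13,0)]⟩,⟨1,[(2,1),(46,0),(0,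
  0)]⟩⟩,⟨true,0,⟨0,[(36,0)]⟩,⟨0,[(3,0)]⟩⟩,⟨true,0,⟨0,[(47,0)]⟩,⟨0,[(48,0)]⟩⟩,⟨false,1,⟨1,[(7,0),(8,
  0),(7,0),(9,1)]⟩,⟨3,[(0,2),(2,2),(3,0),(2,1),(10,3),(13,0),(9,0),(2,0)]⟩⟩,⟨false,0,⟨0,[]⟩,⟨1,[(29,
  0),(0,0),(19,0)]⟩⟩,⟨true,0,⟨0,[(1,0),(34,0)]⟩,⟨0,[(35,0)]⟩⟩,[]⟩)) (.S ⟨1,1,[],[1,1,-1],[1,0,1,0,0,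
  0,0,-1],(⟨0,[(37,0),(4,0)]⟩,⟨0,[(27,0)]⟩),⟨0,[(37,0)]⟩,.k,.k,⟨false,1,⟨3,[(23,1),(4,0),(0,0),(19,
  2)]⟩,⟨0,[(47,0)]⟩⟩,⟨true,1,⟨0,[(8,0),(19,0)]⟩,⟨1,[(0,1),(1,1),(6,0),(10,1),(3,0),(19,1)]⟩⟩,⟨true,
  0,⟨0,[]⟩,⟨0,[(51,0)]⟩⟩,⟨false,1,⟨3,[(1,2),(4,0),(1,0),(0,0),(5,0),(4,2),(14,2),(4,0)]⟩,⟨1,[(34,1),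
  (9,0),(4,0)]⟩⟩,[.fo,.o ⟨false,1,⟨1,[(40,0),(8,0)]⟩,⟨0,[(51,0)]⟩⟩,.a ⟨true,0,⟨0,[(32,0)]⟩,⟨0,[(35,
  0)]⟩⟩ ⟨true,0,⟨0,[(0,0)]⟩,⟨20,[(1,20),(7,1),(4,1),(3,0),(1,5),(22,8),(0,1)]⟩⟩ ⟨false,1,⟨1,[(35,1),
  (4,0),(8,0)]⟩,⟨0,[(32,0)]⟩⟩,.o ⟨false,0,⟨0,[(2,0)]⟩,⟨1,[(35,1),(4,0),(7,0)]⟩⟩]⟩)) (.S ⟨1,0,[0,0,0,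
  0,0,0,0,1],[0,0,1],[0,1,0,0,0,0,0,1],(⟨0,[(37,0)]⟩,⟨0,[(36,0)]⟩),⟨0,[(26,0)]⟩,.k,.k,⟨true,0,⟨0,
  [(50,0)]⟩,⟨0,[]⟩⟩,⟨false,1,⟨1,[(27,0),(0,0),(19,0)]⟩,⟨0,[]⟩⟩,⟨false,0,⟨0,[(46,0)]⟩,⟨3,[(22,1),(4,
  0),(0,0),(19,2)]⟩⟩,⟨true,0,⟨0,[(46,0)]⟩,⟨0,[(45,0)]⟩⟩,[.o ⟨false,1,⟨1,[(32,1),(6,0),(8,0)]⟩,⟨0,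
  [(0,0),(0,0)]⟩⟩,.e ⟨false,1,⟨1,[(12,1),(34,0),(0,0)]⟩,⟨0,[(0,0)]⟩⟩ ⟨false,1,⟨0,[(12,0),(2,0)]⟩,⟨0,
  [(11,0)]⟩⟩,.o ⟨false,1,⟨1,[(34,1),(4,0),(7,0)]⟩,⟨0,[(1,0)]⟩⟩,.a ⟨true,0,⟨0,[(34,0)]⟩,⟨0,[(31,
  0)]⟩⟩ ⟨true,0,⟨2,[(1,0),(5,0),(0,0),(3,1),(6,2),(23,0)]⟩,⟨1,[(0,1),(33,0),(0,0)]⟩⟩ ⟨false,1,⟨0,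
  [(12,0),(2,0)]⟩,⟨1,[(0,1),(33,0),(0,0)]⟩⟩]⟩)) (.Q [0,1,0,-1,0,0,-1,-1,0,0,-1] (.p false [0,0,1]
  [] (⟨0,[(36,0)]⟩,⟨0,[(35,0)]⟩) .k 0 (⟨0,[]⟩,⟨0,[]⟩) .k .k) (.K ⟨0,[0,1,1],0,0,(⟨0,[(37,0),(3,0)]⟩,
  ⟨0,[(25,0)]⟩),.k,.k,(.r 0 ⟨0,[(4,0),(7,0)]⟩ ⟨4,[(11,4),(2,3),(2,0),(0,1),(28,0)]⟩),.k,.k,[⟨1,[(34,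
  0),(0,0)]⟩,⟨0,[(1,0)]⟩,⟨0,[(0,0)]⟩,⟨0,[(32,0),(13,0)]⟩]⟩) (.R ⟨2,true,false,false,[0,1],[0,1,1],
  [1,0,1],(⟨0,[]⟩,⟨0,[]⟩),(⟨0,[(37,0),(3,0)]⟩,⟨0,[(25,0)]⟩),⟨0,[]⟩,.k,.k,.k,.k,.k,.k,⟨false,1,⟨2,
  [(11,2),(2,0),(7,0),(24,0),(0,0)]⟩,⟨2,[(0,1),(11,0),(10,0),(0,0)]⟩⟩,⟨true,0,⟨0,[(1,0)]⟩,⟨0,[(35,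
  0)]⟩⟩,⟨false,1,⟨3,[(22,1),(4,0),(0,0),(19,2)]⟩,⟨0,[(46,0)]⟩⟩,⟨true,0,⟨2,[(0,1),(21,0),(9,0)]⟩,⟨0,
  [(33,0)]⟩⟩,⟨true,0,⟨0,[]⟩,⟨0,[(50,0)]⟩⟩,⟨false,0,⟨0,[(0,0)]⟩,⟨3,[(22,1),(4,0),(0,0),(4,3),(14,
  2)]⟩⟩,[]⟩)))))))

theorem ok14 : chk K t14 l19 = true := by decide +kernel

noncomputable def t15 : Tre :=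
  (.Q [0,0,2,0,-1,0,0,0,1,0,0,1] (.p true [0,0,0,0,1] [] (⟨0,[(24,0)]⟩,⟨0,[(23,0)]⟩) .k 0 (⟨0,[]⟩,
  ⟨0,[]⟩) .k .k) (.R ⟨0,false,false,true,[0,-1,0,0,1],[1,-1],[0,1,0,-1],(⟨0,[(15,0)]⟩,⟨19,[(1,9),
  (20,3),(0,3),(0,9),(13,4),(4,0),(1,1)]⟩),(⟨0,[(35,0)]⟩,⟨0,[(36,0)]⟩),⟨0,[(1,0)]⟩,(.r 0 ⟨0,[(39,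
  0)]⟩ ⟨1,[(22,0),(0,0),(5,0),(0,0),(10,1),(1,0)]⟩),.k,(.x 1 ⟨0,[(0,0),(0,0)]⟩ ⟨5,[(5,1),(8,1),(0,
  7),(6,3),(11,0),(7,4)]⟩),.k,.k,.k,⟨true,0,⟨1,[(29,0),(0,0)]⟩,⟨0,[]⟩⟩,⟨false,1,⟨1,[(22,1),(15,0),
  (3,0)]⟩,⟨3,[(0,0),(15,1),(6,0),(10,0)]⟩⟩,⟨true,0,⟨1,[(29,0),(0,0)]⟩,⟨20,[(3,1),(4,1),(3,0),(1,5),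
  (22,8),(0,1)]⟩⟩,⟨false,1,⟨1,[(22,1),(15,0),(4,0)]⟩,⟨3,[(0,0),(15,1),(6,0),(10,0)]⟩⟩,⟨false,0,⟨0,
  []⟩,⟨0,[]⟩⟩,⟨false,0,⟨0,[]⟩,⟨0,[]⟩⟩,[.o ⟨false,0,⟨0,[(40,0)]⟩,⟨0,[(18,0),(24,0)]⟩⟩,.e ⟨false,1,⟨3,
  [(17,1),(4,0),(0,0),(18,1),(0,0)]⟩,⟨0,[(41,0)]⟩⟩ ⟨false,1,⟨9,[(9,1),(3,3),(0,7),(7,1),(15,4),(3,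
  2)]⟩,⟨1,[(0,0),(17,1),(4,0),(19,0)]⟩⟩,.o ⟨false,0,⟨1,[(0,0),(22,0),(10,0)]⟩,⟨0,[(14,0)]⟩⟩,.a
  ⟨true,(-1),⟨0,[(0,0)]⟩,⟨1,[(14,1),(23,0),(3,0)]⟩⟩ ⟨true,0,⟨0,[(39,0)]⟩,⟨1,[(29,0),(0,0),(10,1)]⟩⟩
  ⟨false,1,⟨9,[(9,1),(3,3),(0,7),(7,1),(15,4),(3,2)]⟩,⟨0,[(0,0),(17,0),(24,0)]⟩⟩]⟩) (.I [0,3,-1,-1,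
  -1] (.I [1,-3,1,2,1] (.Q [0,-2,0,2,2,0,0,0,-2,1,0,-2] (.p false [0,0,0,0,1] [1,0,0,0,-1] (⟨0,[(27,
  0)]⟩,⟨0,[(26,0)]⟩) .k 2 (⟨0,[(26,0)]⟩,⟨0,[(27,0)]⟩) .k (.r 0 ⟨0,[(47,1)]⟩ ⟨0,[(45,0)]⟩)) (.R ⟨1,
  true,false,false,[0,0,0,0,1],[1,1,0,0,-1],[1,-1,1,1],(⟨0,[(28,0)]⟩,⟨0,[(27,0)]⟩),(⟨9,[(0,0),(3,4),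
  (21,1),(0,4),(13,1),(1,1)]⟩,⟨0,[(18,0)]⟩),⟨0,[(18,0)]⟩,.k,(.r (-1) ⟨37,[(0,13),(0,3),(19,1),(4,
  27),(5,16),(0,16),(3,5)]⟩ ⟨0,[(42,0)]⟩),(.r 0 ⟨0,[(42,0)]⟩ ⟨37,[(0,13),(0,3),(19,1),(4,27),(5,16),
  (0,16),(3,5)]⟩),(.r 0 ⟨3,[(16,0),(3,0),(19,2)]⟩ ⟨15,[(0,1),(0,5),(24,3),(5,4),(0,4),(3,0),(8,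
  4)]⟩),(.r 0 ⟨1,[(15,0),(0,0),(23,0)]⟩ ⟨1,[(1,1),(30,0),(0,0),(14,1)]⟩),.k,⟨true,0,⟨0,[]⟩,⟨1,[(32,
  0),(0,0)]⟩⟩,⟨false,2,⟨13,[(0,11),(2,3),(12,11),(23,5),(0,0),(3,0)]⟩,⟨13,[(6,11),(13,5),(5,3),(5,
  6),(0,6),(3,0),(8,8)]⟩⟩,⟨true,1,⟨15,[(0,1),(0,5),(24,3),(5,4),(0,4),(3,0),(8,4)]⟩,⟨0,[(2,0)]⟩⟩,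
  ⟨false,3,⟨3,[(0,3),(19,1),(4,0),(0,0),(19,2)]⟩,⟨0,[(6,0),(13,0)]⟩⟩,⟨false,1,⟨0,[(1,0)]⟩,⟨1,[(16,
  0),(3,0),(19,0)]⟩⟩,⟨true,2,⟨0,[(0,0)]⟩,⟨0,[(6,0),(13,0),(22,0)]⟩⟩,[]⟩) (.Q [0,3,0,2,-3,0,0,0,2,-1,
  0,2] (.p true [0,0,0,0,1] [1,0,0,0,-1] (⟨0,[(28,0)]⟩,⟨0,[(27,0)]⟩) .k 2 (⟨0,[(27,0)]⟩,⟨0,[(28,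
  0)]⟩) .k (.r 0 ⟨0,[(48,1)]⟩ ⟨0,[(46,0)]⟩)) (.R ⟨1,true,false,true,[1,0,0,0,-1],[0,1,0,0,1],[1,2,1,
  1],(⟨0,[(28,0)]⟩,⟨0,[(29,0)]⟩),(⟨1,[(5,0),(23,2)]⟩,⟨0,[(15,0)]⟩),⟨0,[(15,0)]⟩,.k,(.r 0 ⟨7,[(2,1),
  (19,3),(10,2),(0,2),(7,1),(6,9)]⟩ ⟨2,[(13,0),(7,0),(24,0),(0,0)]⟩),(.r (-1) ⟨2,[(13,0),(7,0),(24,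
  0),(0,0)]⟩ ⟨7,[(2,1),(19,3),(10,2),(0,2),(7,1),(6,9)]⟩),(.r (-1) ⟨0,[(13,0)]⟩ ⟨7,[(2,1),(19,3),
  (10,2),(0,2),(7,1),(6,17)]⟩),(.r (-2) ⟨2,[(13,1),(7,1),(24,1),(0,1)]⟩ ⟨3,[(22,7),(10,2),(0,2),(7,
  3),(5,1)]⟩),.k,⟨true,0,⟨0,[]⟩,⟨1,[(33,0),(0,0)]⟩⟩,⟨false,(-1),⟨24,[(1,1),(5,11),(4,20),(0,7),(13,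
  0),(14,4)]⟩,⟨6,[(23,2),(2,15),(0,1),(5,5),(8,1),(5,0)]⟩⟩,⟨true,(-1),⟨2,[(3,0),(18,3),(10,1),(0,1),
  (7,1),(6,1)]⟩,⟨0,[(13,0)]⟩⟩,⟨false,(-2),⟨8,[(0,4),(0,0),(5,0),(19,3),(10,0)]⟩,⟨1,[(13,1),(12,3),
  (6,0),(0,0),(7,0),(4,0)]⟩⟩,⟨false,(-1),⟨1,[(22,3),(10,0),(0,0),(7,1)]⟩,⟨5,[(13,3),(7,3),(24,0),(0,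
  6)]⟩⟩,⟨true,(-3),⟨0,[(0,0)]⟩,⟨1,[(21,1),(4,3),(15,0),(4,2)]⟩⟩,[]⟩) (.Q [0,0,0,0,0,0,1,0,0,0,1]
  (.p true [0,0,1] [] (⟨0,[(36,0)]⟩,⟨0,[(35,0)]⟩) .k 0 (⟨0,[]⟩,⟨0,[]⟩) .k .k) (.Q [0,-1,0,-1,1,0,-1,
  -1,-1,1,-1,-1] (.p false [0,0,1] [1,0,0,0,-1] (⟨0,[(37,0)]⟩,⟨0,[(36,0)]⟩) .k 2 (⟨0,[(29,0)]⟩,⟨0,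
  [(30,0)]⟩) .k (.r 0 ⟨0,[(12,0)]⟩ ⟨0,[(11,0),(36,0)]⟩)) (.S ⟨1,0,[0,0,0,0,0,0,0,-1],[1,0,-1],[0,1,
  0,0,0,0,0,-1],(⟨0,[(37,0)]⟩,⟨0,[(38,0)]⟩),⟨0,[(26,0)]⟩,.k,.k,⟨true,0,⟨0,[(51,0)]⟩,⟨0,[]⟩⟩,⟨false,
  1,⟨27,[(2,5),(1,5),(24,11),(10,2),(2,3),(4,0)]⟩,⟨0,[]⟩⟩,⟨false,0,⟨0,[(47,0)]⟩,⟨27,[(2,9),(0,3),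
  (25,11),(10,2),(8,2)]⟩⟩,⟨true,0,⟨0,[(47,0)]⟩,⟨0,[(46,0)]⟩⟩,[.o ⟨false,0,⟨1,[(0,1),(8,0),(14,0)]⟩,
  ⟨10,[(2,0),(1,1),(3,1),(24,8),(6,4),(7,0)]⟩⟩,.e ⟨false,0,⟨3,[(0,3),(0,3),(4,1),(2,2),(14,0)]⟩,⟨27,
  [(2,5),(1,5),(8,27),(15,11),(10,2),(2,3),(4,0)]⟩⟩ ⟨false,1,⟨0,[(12,0),(3,0)]⟩,⟨0,[(13,0)]⟩⟩,.a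
  ⟨true,0,⟨17,[(2,0),(1,0),(20,8),(3,1),(13,0),(0,3),(6,3)]⟩,⟨0,[(1,0)]⟩⟩ ⟨false,0,⟨1,[(0,1),(0,1),
  (7,0),(14,0)]⟩,⟨12,[(2,1),(1,3),(3,3),(4,8),(2,1),(8,1),(22,0)]⟩⟩ ⟨true,0,⟨1,[(0,1),(0,1),(7,0),
  (14,0)]⟩,⟨0,[(13,0)]⟩⟩,.o ⟨false,0,⟨0,[(36,0)]⟩,⟨1,[(1,1),(38,0),(7,0)]⟩⟩]⟩) (.I [0,-1,1,1,0,0,0,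
  1] (.S ⟨1,0,[0,1,0,0,0,0,0,-1],[1,0,-1],[1,0,0,-1,0,0,0,-1],(⟨0,[(38,0)]⟩,⟨0,[(39,0)]⟩),⟨0,[(27,
  0)]⟩,.k,.k,⟨false,1,⟨27,[(3,9),(0,3),(25,11),(10,2),(8,2)]⟩,⟨0,[(48,0)]⟩⟩,⟨true,0,⟨0,[(52,0)]⟩,⟨0,
  []⟩⟩,⟨true,0,⟨0,[]⟩,⟨0,[(52,0)]⟩⟩,⟨false,0,⟨0,[(48,0)]⟩,⟨27,[(3,9),(0,3),(25,11),(10,2),(8,2)]⟩⟩,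
  [.o ⟨false,0,⟨0,[(35,0)]⟩,⟨11,[(1,10),(1,5),(1,0),(3,0),(7,0),(23,2)]⟩⟩,.e ⟨false,1,⟨0,[(13,0),(2,
  0)]⟩,⟨0,[(0,0),(43,0)]⟩⟩ ⟨false,1,⟨27,[(3,1),(1,1),(7,27),(3,7),(12,3),(10,0),(7,10)]⟩,⟨2,[(0,1),
  (13,0),(4,0)]⟩⟩,.a ⟨true,0,⟨17,[(3,0),(1,0),(20,8),(3,1),(13,0),(0,3),(6,3)]⟩,⟨0,[(2,0)]⟩⟩ ⟨false,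
  1,⟨2,[(3,0),(0,0),(0,0),(7,2),(2,0)]⟩,⟨5,[(0,4),(0,0),(5,0),(25,0),(10,1)]⟩⟩ ⟨true,0,⟨0,[(2,0),
  (32,0)]⟩,⟨2,[(0,1),(13,0),(4,0)]⟩⟩,.o ⟨false,0,⟨0,[(37,0)]⟩,⟨1,[(2,1),(38,0),(7,0)]⟩⟩]⟩) (.K ⟨0,
  [0,1,1],0,0,(⟨1,[(8,0),(23,0),(6,1)]⟩,⟨0,[(27,0)]⟩),.k,.k,(.r 0 ⟨7,[(1,3),(3,3),(19,3),(3,3),(4,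
  3),(1,0),(0,8),(7,3),(5,1)]⟩ ⟨6,[(0,6),(2,1),(11,1),(0,0),(2,0),(10,1)]⟩),.k,.k,[⟨1,[(36,0),(0,
  0)]⟩,⟨0,[(2,0)]⟩,⟨0,[(0,0),(36,0)]⟩,⟨0,[(34,0),(13,0)]⟩]⟩))) (.I [0,0,-1,0,0,0,0,1] (.S ⟨1,0,[0,0,
  0,0,0,0,0,1],[0,0,1],[0,1,0,0,0,0,0,1],(⟨0,[(38,0)]⟩,⟨0,[(37,0)]⟩),⟨0,[(27,0)]⟩,.k,.k,⟨true,0,⟨0,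
  [(51,0)]⟩,⟨0,[]⟩⟩,⟨false,1,⟨27,[(2,5),(1,5),(24,11),(10,2),(2,3),(4,0)]⟩,⟨0,[]⟩⟩,⟨false,0,⟨0,[(47,
  0)]⟩,⟨27,[(2,9),(0,3),(25,11),(10,2),(8,2)]⟩⟩,⟨true,0,⟨0,[(47,0)]⟩,⟨0,[(46,0)]⟩⟩,[.e ⟨false,0,⟨2,
  [(0,1),(12,0),(29,0)]⟩,⟨0,[(12,0),(36,0)]⟩⟩ ⟨false,0,⟨0,[(0,0)]⟩,⟨27,[(2,5),(1,5),(7,27),(16,11),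
  (10,2),(2,3),(4,0)]⟩⟩,.o ⟨false,1,⟨13,[(0,10),(1,0),(1,2),(1,0),(1,2),(6,0),(19,10),(4,5)]⟩,⟨0,
  [(34,0)]⟩⟩,.o ⟨false,1,⟨1,[(35,1),(4,0),(7,0)]⟩,⟨0,[(1,0)]⟩⟩,.a ⟨true,0,⟨0,[(35,0)]⟩,⟨0,[(32,
  0)]⟩⟩ ⟨false,0,⟨0,[(0,0)]⟩,⟨53,[(2,15),(0,11),(0,27),(7,53),(16,7),(5,12),(0,12),(3,1)]⟩⟩ ⟨true,0,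
  ⟨0,[(0,0)]⟩,⟨1,[(12,1),(22,0),(0,0)]⟩⟩]⟩) (.I [1,-1,1,2,0,0,0,-1] (.S ⟨1,0,[0,0,0,0,0,0,0,1],[0,0,
  1],[0,1,0,0,0,0,0,1],(⟨0,[(39,0)]⟩,⟨0,[(38,0)]⟩),⟨0,[(28,0)]⟩,.k,.k,⟨true,0,⟨0,[(52,0)]⟩,⟨0,[]⟩⟩,
  ⟨false,1,⟨27,[(3,5),(1,5),(24,11),(10,2),(2,3),(4,0)]⟩,⟨0,[]⟩⟩,⟨false,0,⟨0,[(48,0)]⟩,⟨27,[(3,9),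
  (0,3),(25,11),(10,2),(8,2)]⟩⟩,⟨true,0,⟨0,[(48,0)]⟩,⟨0,[(47,0)]⟩⟩,[.o ⟨false,1,⟨10,[(3,0),(1,1),(3,
  1),(24,8),(6,4),(7,0)]⟩,⟨1,[(0,0),(0,0),(0,1),(16,0)]⟩⟩,.e ⟨false,1,⟨12,[(3,0),(1,1),(3,1),(4,10),
  (2,0),(8,0),(22,6)]⟩,⟨1,[(0,0),(0,0),(17,0)]⟩⟩ ⟨false,1,⟨0,[(14,0),(2,0)]⟩,⟨0,[(13,0)]⟩⟩,.o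
  ⟨false,1,⟨1,[(36,1),(4,0),(7,0)]⟩,⟨0,[(2,0)]⟩⟩,.a ⟨true,0,⟨0,[(36,0)]⟩,⟨0,[(33,0)]⟩⟩ ⟨true,0,⟨5,
  [(2,0),(4,2),(1,0),(0,0),(3,4),(30,0)]⟩,⟨0,[(1,0)]⟩⟩ ⟨false,1,⟨0,[(14,0),(2,0)]⟩,⟨0,[(1,0)]⟩⟩]⟩)
  (.S ⟨1,0,[0,0,1,1,0,0,0,-1],[1,1,-1],[0,1,1,1,0,0,0,-1],(⟨1,[(8,0),(23,0),(5,1)]⟩,⟨0,[(28,0)]⟩),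
  ⟨0,[(38,0)]⟩,.k,.k,⟨true,0,⟨0,[(52,0)]⟩,⟨0,[]⟩⟩,⟨false,1,⟨27,[(3,5),(1,5),(24,11),(10,2),(2,3),(4,
  0)]⟩,⟨0,[]⟩⟩,⟨false,0,⟨0,[(48,0)]⟩,⟨27,[(3,9),(0,3),(25,11),(10,2),(8,2)]⟩⟩,⟨true,0,⟨0,[(48,0)]⟩,
  ⟨0,[(47,0)]⟩⟩,[.o ⟨false,0,⟨19,[(1,15),(0,15),(2,3),(1,9),(2,4),(14,2),(9,3),(9,3),(2,3)]⟩,⟨9,[(0,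
  0),(2,1),(5,3),(24,4),(1,0),(4,3)]⟩⟩,.e ⟨false,0,⟨19,[(1,15),(3,3),(1,9),(2,4),(2,3),(11,2),(19,
  3),(2,3)]⟩,⟨21,[(0,2),(2,3),(5,7),(4,10),(2,0),(8,3),(22,8)]⟩⟩ ⟨false,1,⟨55,[(3,1),(1,29),(7,55),
  (3,7),(12,3),(10,0),(7,10)]⟩,⟨34,[(0,19),(4,0),(1,6),(2,2),(3,14),(0,0),(29,1)]⟩⟩,.a ⟨true,0,⟨0,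
  [(33,0)]⟩,⟨0,[(36,0)]⟩⟩ ⟨false,0,⟨4,[(1,3),(3,0),(7,0),(11,1),(19,0),(2,0)]⟩,⟨11,[(0,4),(2,0),(1,
  0),(3,1),(4,4),(2,7),(8,0)]⟩⟩ ⟨true,0,⟨4,[(1,3),(3,0),(7,0),(11,1),(19,0),(2,0)]⟩,⟨34,[(0,19),(4,
  0),(1,6),(2,2),(3,14),(0,0),(29,1)]⟩⟩,.o ⟨false,0,⟨0,[(2,0)]⟩,⟨1,[(36,1),(4,0),(7,0)]⟩⟩]⟩))))))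
  (.Q [0,0,0,0,0,0,1,0,0,0,1] (.p true [0,0,1] [] (⟨0,[(34,0)]⟩,⟨0,[(33,0)]⟩) .k 0 (⟨0,[]⟩,⟨0,[]⟩)
  .k .k) (.Q [0,0,0,0,0,0,-1,-1,0,0,-1] (.p false [0,0,1] [] (⟨0,[(35,0)]⟩,⟨0,[(34,0)]⟩) .k 0 (⟨0,
  []⟩,⟨0,[]⟩) .k .k) (.Q [0,0,0,-1,0,0,-1,-1,0,0,-1] (.p false [0,0,1] [] (⟨0,[(36,0)]⟩,⟨0,[(35,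
  0)]⟩) .k 0 (⟨0,[]⟩,⟨0,[]⟩) .k .k) (.S ⟨1,0,[0,0,0,0,0,0,0,-1],[1,0,-1],[0,1,0,0,0,0,0,-1],(⟨0,
  [(36,0)]⟩,⟨0,[(37,0)]⟩),⟨0,[(25,0)]⟩,.k,.k,⟨true,0,⟨0,[(50,0)]⟩,⟨0,[]⟩⟩,⟨false,1,⟨1,[(27,0),(0,0),
  (19,0)]⟩,⟨0,[]⟩⟩,⟨false,0,⟨0,[(46,0)]⟩,⟨3,[(22,1),(4,0),(0,0),(19,2)]⟩⟩,⟨true,0,⟨0,[(46,0)]⟩,⟨0,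
  [(45,0)]⟩⟩,[.o ⟨false,0,⟨0,[(1,0)]⟩,⟨1,[(32,1),(6,0),(8,0)]⟩⟩,.e ⟨false,0,⟨8,[(0,1),(0,6),(0,8),
  (2,3),(2,1),(6,0),(27,0)]⟩,⟨1,[(12,1),(14,0),(0,0),(19,0)]⟩⟩ ⟨false,1,⟨0,[(11,0),(3,0)]⟩,⟨0,[(12,
  0)]⟩⟩,.a ⟨true,0,⟨19,[(24,9),(2,3),(0,3),(14,4),(4,0),(1,1)]⟩,⟨0,[(2,0)]⟩⟩ ⟨false,0,⟨0,[(1,0),(0,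
  0)]⟩,⟨0,[(12,0),(35,0)]⟩⟩ ⟨true,0,⟨0,[(1,0),(0,0)]⟩,⟨0,[(12,0)]⟩⟩,.o ⟨false,0,⟨0,[(35,0)]⟩,⟨1,[(2,
  1),(36,0),(7,0)]⟩⟩]⟩) (.K ⟨0,[0,1,1],0,0,(⟨1,[(6,0),(23,0),(6,1)]⟩,⟨0,[(25,0)]⟩),.k,.k,(.r 0 ⟨1,
  [(0,1),(33,0),(0,2),(10,1)]⟩ ⟨4,[(11,4),(2,3),(2,0),(0,1),(28,0)]⟩),.k,.k,[⟨1,[(34,0),(0,0)]⟩,⟨0,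
  [(2,0)]⟩,⟨1,[(1,0),(20,0),(10,0)]⟩,⟨0,[(0,0),(49,0)]⟩]⟩)) (.I [1,0,0,0,0,0,0,1] (.S ⟨1,0,[0,1,0,0,
  0,0,0,-1],[1,0,-1],[1,0,0,-1,0,0,0,-1],(⟨0,[(36,0)]⟩,⟨0,[(37,0)]⟩),⟨0,[(25,0)]⟩,.k,.k,⟨false,1,⟨3,
  [(22,1),(4,0),(0,0),(19,2)]⟩,⟨0,[(46,0)]⟩⟩,⟨true,0,⟨0,[(50,0)]⟩,⟨0,[]⟩⟩,⟨true,0,⟨0,[]⟩,⟨0,[(50,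
  0)]⟩⟩,⟨false,0,⟨0,[(46,0)]⟩,⟨3,[(22,1),(4,0),(0,0),(19,2)]⟩⟩,[.o ⟨false,0,⟨0,[(33,0)]⟩,⟨1,[(1,1),
  (37,0),(8,0)]⟩⟩,.e ⟨false,1,⟨0,[(11,0),(2,0)]⟩,⟨0,[(12,0),(33,0)]⟩⟩ ⟨false,1,⟨1,[(11,1),(35,0),(0,
  0)]⟩,⟨0,[(0,0)]⟩⟩,.a ⟨true,0,⟨19,[(24,9),(2,3),(0,3),(14,4),(4,0),(1,1)]⟩,⟨0,[(2,0)]⟩⟩ ⟨false,1,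
  ⟨1,[(11,1),(2,1),(19,0),(0,0)]⟩,⟨0,[(0,0),(45,0)]⟩⟩ ⟨true,0,⟨0,[(2,0),(30,0)]⟩,⟨0,[(0,0)]⟩⟩,.o
  ⟨false,0,⟨0,[(35,0)]⟩,⟨1,[(2,1),(36,0),(7,0)]⟩⟩]⟩) (.K ⟨0,[0,1,1],0,0,(⟨1,[(6,0),(23,0),(6,1)]⟩,
  ⟨0,[(25,0)]⟩),.k,.k,(.r 0 ⟨1,[(1,1),(32,0),(0,2),(10,3)]⟩ ⟨4,[(11,4),(2,3),(2,0),(0,1),(28,0)]⟩),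
  .k,.k,[⟨1,[(34,0),(0,0)]⟩,⟨0,[(2,0)]⟩,⟨1,[(0,0),(17,0),(14,0),(1,0)]⟩,⟨0,[(32,0),(13,0)]⟩]⟩)))
  (.Q [0,0,0,0,0,0,-1,-1,0,0,-1] (.p false [0,0,1] [] (⟨0,[(35,0)]⟩,⟨0,[(34,0)]⟩) .k 0 (⟨0,[]⟩,⟨0,
  []⟩) .k .k) (.S ⟨1,0,[0,1,0,0,0,0,0,1],[0,0,1],[1,0,0,-1,0,0,0,1],(⟨0,[(36,0)]⟩,⟨0,[(35,0)]⟩),⟨0,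
  [(25,0)]⟩,.k,.k,⟨false,1,⟨3,[(21,1),(4,0),(0,0),(19,2)]⟩,⟨0,[(45,0)]⟩⟩,⟨true,0,⟨0,[(49,0)]⟩,⟨0,
  []⟩⟩,⟨true,0,⟨0,[]⟩,⟨0,[(49,0)]⟩⟩,⟨false,0,⟨0,[(45,0)]⟩,⟨3,[(21,1),(4,0),(0,0),(19,2)]⟩⟩,[.e
  ⟨false,1,⟨2,[(11,2),(1,0),(7,0),(24,0),(0,0)]⟩,⟨8,[(0,8),(3,3),(2,1),(6,0),(18,8),(8,0),(2,6)]⟩⟩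
  ⟨false,0,⟨5,[(1,0),(2,2),(1,0),(0,0),(3,4),(30,0)]⟩,⟨0,[(10,0),(36,0)]⟩⟩,.o ⟨false,1,⟨1,[(31,1),
  (6,0),(8,0)]⟩,⟨0,[(0,0)]⟩⟩,.o ⟨false,1,⟨1,[(33,1),(4,0),(7,0)]⟩,⟨0,[(1,0)]⟩⟩,.a ⟨true,0,⟨0,[(33,
  0)]⟩,⟨0,[(30,0)]⟩⟩ ⟨false,1,⟨0,[(11,0),(1,0)]⟩,⟨0,[(0,0),(32,0),(11,0)]⟩⟩ ⟨true,0,⟨5,[(1,0),(2,2),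
  (1,0),(0,0),(3,4),(30,0)]⟩,⟨0,[(0,0),(32,0)]⟩⟩]⟩) (.Q [0,1,0,0,0,0,1,1,0,-1,1] (.p true [0,0,1]
  [1] (⟨0,[(36,0)]⟩,⟨0,[(35,0)]⟩) .k 1 (⟨0,[]⟩,⟨0,[]⟩) .k .k) (.S ⟨1,0,[0,1,0,0,0,0,0,1],[0,0,1],[0,
  0,0,0,0,0,0,1],(⟨0,[(37,0)]⟩,⟨0,[(36,0)]⟩),⟨0,[(26,0)]⟩,.k,.k,⟨false,1,⟨1,[(27,0),(0,0),(19,0)]⟩,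
  ⟨0,[]⟩⟩,⟨true,0,⟨0,[(50,0)]⟩,⟨0,[]⟩⟩,⟨true,0,⟨0,[(46,0)]⟩,⟨0,[(45,0)]⟩⟩,⟨false,0,⟨0,[(46,0)]⟩,⟨3,
  [(22,1),(4,0),(0,0),(19,2)]⟩⟩,[.o ⟨false,0,⟨0,[(0,0)]⟩,⟨0,[(33,0),(14,0)]⟩⟩,.e ⟨false,1,⟨0,[(12,
  0),(2,0)]⟩,⟨0,[(11,0)]⟩⟩ ⟨false,0,⟨4,[(0,0),(0,3),(0,4),(2,1),(2,0),(5,0),(28,0)]⟩,⟨1,[(11,1),(15,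
  0),(0,0),(19,0)]⟩⟩,.o ⟨false,1,⟨1,[(34,1),(4,0),(7,0)]⟩,⟨0,[(2,0)]⟩⟩,.a ⟨true,0,⟨0,[(34,0)]⟩,⟨0,
  [(31,0)]⟩⟩ ⟨true,0,⟨4,[(0,0),(0,3),(0,4),(2,1),(2,0),(5,0),(28,0)]⟩,⟨1,[(11,1),(22,0),(0,0)]⟩⟩
  ⟨false,0,⟨4,[(0,0),(0,3),(0,4),(2,1),(2,0),(5,0),(28,0)]⟩,⟨1,[(11,1),(22,0),(0,0),(12,1)]⟩⟩]⟩)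
  (.R ⟨2,true,false,false,[0,1],[0,0,1],[1,1,1],(⟨0,[]⟩,⟨0,[]⟩),(⟨0,[(37,0)]⟩,⟨0,[(36,0)]⟩),⟨0,[]⟩,
  .k,.k,.k,.k,.k,.k,⟨false,0,⟨0,[(11,0)]⟩,⟨0,[(12,0),(2,0)]⟩⟩,⟨true,0,⟨0,[(34,0)]⟩,⟨0,[(2,0)]⟩⟩,
  ⟨true,0,⟨0,[(45,0)]⟩,⟨0,[(46,0)]⟩⟩,⟨false,1,⟨1,[(1,0),(20,0),(9,0),(15,1)]⟩,⟨0,[(0,0),(22,0)]⟩⟩,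
  ⟨false,0,⟨0,[]⟩,⟨1,[(27,0),(0,0),(19,0)]⟩⟩,⟨true,0,⟨0,[(1,0)]⟩,⟨0,[(33,0)]⟩⟩,[]⟩))))) (.I [0,1,-2,
  -2] (.Q [0,0,0,3,0,0,0,0,0,-1] (.pp true [-1,1]) (.R ⟨1,true,false,false,[1,-1],[0,1],[1,0,1,1],
  (⟨0,[(38,0)]⟩,⟨0,[(39,0)]⟩),(⟨0,[(39,0)]⟩,⟨0,[(38,0)]⟩),⟨1,[(8,0),(9,0),(19,0)]⟩,.k,.k,(.r (-1)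
  ⟨4,[(12,1),(3,1),(3,1),(24,2)]⟩ ⟨2,[(0,1),(21,1),(9,4),(0,0)]⟩),(.r (-1) ⟨4,[(12,1),(3,1),(3,1),
  (24,2)]⟩ ⟨2,[(0,1),(21,1),(9,4),(0,0)]⟩),(.r (-1) ⟨4,[(1,1),(10,2),(3,3),(28,1)]⟩ ⟨1,[(0,1),(21,
  1),(9,4),(0,0)]⟩),.k,⟨true,0,⟨0,[]⟩,⟨1,[(32,0),(0,0)]⟩⟩,⟨false,1,⟨5,[(3,3),(7,3),(25,0),(7,0)]⟩,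
  ⟨0,[(22,0),(9,1)]⟩⟩,⟨true,0,⟨2,[(0,1),(21,1),(9,4),(0,0)]⟩,⟨0,[(1,0)]⟩⟩,⟨false,1,⟨17,[(0,9),(1,5),
  (22,4),(0,4),(10,3),(7,2)]⟩,⟨1,[(20,1),(20,0),(4,0)]⟩⟩,⟨false,0,⟨17,[(0,15),(1,5),(19,3),(9,18),
  (0,10),(7,5)]⟩,⟨4,[(12,2),(3,2),(3,2),(24,1)]⟩⟩,⟨true,0,⟨0,[(0,0)]⟩,⟨9,[(20,13),(4,1),(0,1),(14,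
  4),(1,1),(2,2)]⟩⟩,[]⟩) (.I [0,-1,1,1,0,0,0,-1] (.Q [0,0,0,0,0,0,1,0,0,0,1] (.p true [0,0,1] []
  (⟨0,[(36,0)]⟩,⟨0,[(35,0)]⟩) .k 0 (⟨0,[]⟩,⟨0,[]⟩) .k .k) (.S ⟨1,0,[0,1,0,0,0,0,0,-1],[1,0,-1],[1,0,
  0,-1,0,0,0,-1],(⟨0,[(36,0)]⟩,⟨0,[(37,0)]⟩),⟨0,[(25,0)]⟩,.k,.k,⟨false,1,⟨5,[(2,1),(24,1),(0,1),(10,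
  0),(8,2)]⟩,⟨0,[(46,0)]⟩⟩,⟨true,0,⟨0,[(50,0)]⟩,⟨0,[]⟩⟩,⟨true,0,⟨0,[]⟩,⟨0,[(50,0)]⟩⟩,⟨false,0,⟨0,
  [(46,0)]⟩,⟨5,[(2,1),(24,1),(0,1),(10,0),(8,2)]⟩⟩,[.e ⟨false,0,⟨0,[(1,0),(1,0)]⟩,⟨0,[(4,0),(7,0),
  (29,0)]⟩⟩ ⟨false,0,⟨8,[(1,0),(1,0),(1,2),(2,0),(2,7),(1,0),(29,0)]⟩,⟨0,[(12,0),(35,0)]⟩⟩,.o
  ⟨false,0,⟨8,[(1,6),(1,3),(1,1),(2,0),(15,0),(8,1),(1,4)]⟩,⟨1,[(32,1),(6,0),(8,0)]⟩⟩,.a ⟨true,0,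
  ⟨19,[(24,9),(2,3),(0,3),(14,4),(4,0),(1,1)]⟩,⟨0,[(0,0)]⟩⟩ ⟨true,0,⟨0,[(1,0),(16,0)]⟩,⟨0,[(12,0),
  (33,0)]⟩⟩ ⟨false,0,⟨2,[(1,1),(1,0),(7,0)]⟩,⟨0,[(12,0),(35,0)]⟩⟩,.o ⟨false,0,⟨0,[(35,0)]⟩,⟨1,[(0,
  1),(38,0),(7,0)]⟩⟩]⟩) (.S ⟨1,0,[0,0,0,0,0,0,0,1],[0,0,1],[0,1,0,0,0,0,0,1],(⟨0,[(37,0)]⟩,⟨0,[(36,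
  0)]⟩),⟨0,[(26,0)]⟩,.k,.k,⟨true,0,⟨0,[(50,0)]⟩,⟨0,[]⟩⟩,⟨false,1,⟨1,[(27,0),(0,0),(19,0)]⟩,⟨0,[]⟩⟩,
  ⟨false,0,⟨0,[(46,0)]⟩,⟨5,[(2,1),(24,1),(0,1),(10,0),(8,2)]⟩⟩,⟨true,0,⟨0,[(46,0)]⟩,⟨0,[(45,0)]⟩⟩,
  [.o ⟨false,1,⟨1,[(32,1),(6,0),(8,0)]⟩,⟨2,[(0,1),(0,1),(1,0),(29,0)]⟩⟩,.e ⟨false,1,⟨1,[(12,1),(34,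
  0),(0,0)]⟩,⟨2,[(1,1),(1,0),(7,0)]⟩⟩ ⟨false,1,⟨0,[(12,0),(2,0)]⟩,⟨0,[(11,0)]⟩⟩,.o ⟨false,1,⟨1,[(34,
  1),(4,0),(7,0)]⟩,⟨0,[(0,0)]⟩⟩,.a ⟨true,0,⟨0,[(34,0)]⟩,⟨0,[(31,0)]⟩⟩ ⟨true,0,⟨5,[(0,0),(4,2),(1,0),
  (0,0),(3,4),(30,0)]⟩,⟨5,[(1,3),(9,1),(10,1),(11,0),(0,0)]⟩⟩ ⟨false,1,⟨0,[(12,0),(2,0)]⟩,⟨5,[(1,3),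
  (9,1),(10,1),(11,0),(0,0)]⟩⟩]⟩)) (.I [0,0,1,1,0,0,0,1] (.Q [0,0,0,0,0,0,-1,0,0,0,-1] (.p false [0,
  0,1] [] (⟨0,[(37,0)]⟩,⟨0,[(36,0)]⟩) .k 0 (⟨0,[]⟩,⟨0,[]⟩) .k .k) (.I [1,0,-1,0,0,0,0,1] (.I [1,-1,
  0,1,0,0,0,2] (.S ⟨1,0,[0,0,0,0,0,0,0,1],[0,0,1],[0,1,0,0,0,0,0,1],(⟨0,[(40,0)]⟩,⟨0,[(39,0)]⟩),⟨0,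
  [(29,0)]⟩,.k,.k,⟨true,0,⟨0,[(53,0)]⟩,⟨0,[]⟩⟩,⟨false,1,⟨1,[(30,0),(0,0),(19,0)]⟩,⟨0,[]⟩⟩,⟨false,0,
  ⟨0,[(49,0)]⟩,⟨5,[(5,1),(24,1),(0,1),(10,0),(8,2)]⟩⟩,⟨true,0,⟨0,[(49,0)]⟩,⟨0,[(48,0)]⟩⟩,[.e ⟨false,
  0,⟨3,[(0,0),(0,0),(2,0),(40,1)]⟩,⟨0,[(14,0),(36,0)]⟩⟩ ⟨false,0,⟨1,[(0,0),(4,1),(1,0),(0,7),(2,3),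
  (34,0),(5,12)]⟩,⟨1,[(14,1),(15,0),(0,0),(19,0)]⟩⟩,.o ⟨false,1,⟨7,[(0,1),(6,1),(0,2),(1,3),(19,0),
  (6,3),(4,1)]⟩,⟨0,[(36,0)]⟩⟩,.o ⟨false,1,⟨1,[(37,1),(4,0),(7,0)]⟩,⟨0,[(2,0)]⟩⟩,.a ⟨true,0,⟨0,[(37,
  0)]⟩,⟨0,[(34,0)]⟩⟩ ⟨false,0,⟨1,[(0,0),(4,1),(1,0),(0,7),(2,3),(34,0),(5,12)]⟩,⟨17,[(5,3),(1,11),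
  (6,17),(15,3),(0,3),(5,2),(0,2),(3,1)]⟩⟩ ⟨true,0,⟨1,[(0,0),(4,1),(1,0),(0,7),(2,3),(34,0),(5,
  12)]⟩,⟨1,[(14,1),(22,0),(0,0)]⟩⟩]⟩) (.R ⟨2,true,false,false,[0,1],[0,0,1],[0,1,1,1],(⟨0,[]⟩,⟨0,
  []⟩),(⟨0,[(40,0)]⟩,⟨0,[(39,0)]⟩),⟨0,[]⟩,.k,.k,.k,.k,.k,.k,⟨false,0,⟨0,[(14,0),(34,0)]⟩,⟨0,[(4,0),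
  (46,0)]⟩⟩,⟨true,0,⟨0,[(37,0)]⟩,⟨0,[(2,0)]⟩⟩,⟨true,0,⟨0,[(53,0)]⟩,⟨0,[]⟩⟩,⟨false,1,⟨3,[(5,0),(1,0),
  (2,0),(6,0),(12,0),(4,2),(15,0)]⟩,⟨7,[(0,3),(1,7),(4,3),(0,1),(2,0),(14,6),(19,3)]⟩⟩,⟨false,0,⟨0,
  [(49,0)]⟩,⟨5,[(5,1),(24,1),(0,1),(10,0),(8,2)]⟩⟩,⟨true,0,⟨0,[(1,0),(35,0)]⟩,⟨0,[(36,0)]⟩⟩,[]⟩))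
  (.S ⟨1,0,[0,0,1,1,0,0,0,-1],[1,1,-1],[0,1,1,1,0,0,0,-1],(⟨1,[(8,0),(23,0),(5,1)]⟩,⟨0,[(28,0)]⟩),
  ⟨0,[(38,0)]⟩,.k,.k,⟨true,0,⟨0,[(52,0)]⟩,⟨0,[]⟩⟩,⟨false,1,⟨1,[(29,0),(0,0),(19,0)]⟩,⟨0,[]⟩⟩,⟨false,
  0,⟨0,[(48,0)]⟩,⟨5,[(4,1),(24,1),(0,1),(10,0),(8,2)]⟩⟩,⟨true,0,⟨0,[(48,0)]⟩,⟨0,[(47,0)]⟩⟩,[.o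
  ⟨false,0,⟨11,[(0,7),(0,7),(4,3),(0,5),(2,2),(14,4),(9,3),(9,3)]⟩,⟨0,[(9,0),(19,0)]⟩⟩,.e ⟨false,0,
  ⟨7,[(0,6),(5,0),(0,3),(2,1),(2,0),(31,0),(2,4)]⟩,⟨7,[(3,1),(0,1),(9,5),(26,0),(7,2),(0,3)]⟩⟩
  ⟨false,1,⟨2,[(6,1),(6,2),(34,0),(0,0)]⟩,⟨0,[(3,0)]⟩⟩,.a ⟨true,0,⟨0,[(33,0)]⟩,⟨0,[(36,0)]⟩⟩ ⟨false,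
  0,⟨0,[(0,0),(47,0)]⟩,⟨0,[(3,0),(46,0)]⟩⟩ ⟨true,0,⟨0,[(0,0),(47,0)]⟩,⟨0,[(3,0)]⟩⟩,.o ⟨false,0,⟨0,
  [(1,0)]⟩,⟨1,[(36,1),(4,0),(7,0)]⟩⟩]⟩)) (.Q [0,-1,0,1,0,0,1,1,0,0,1] (.p true [0,0,1] [] (⟨0,[(38,
  0)]⟩,⟨0,[(37,0)]⟩) .k 0 (⟨0,[]⟩,⟨0,[]⟩) .k .k) (.R ⟨2,true,false,false,[0,1],[0,1,1],[1,0,1],(⟨0,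
  []⟩,⟨0,[]⟩),(⟨1,[(8,0),(23,0),(6,1)]⟩,⟨0,[(27,0)]⟩),⟨0,[]⟩,.k,.k,.k,.k,.k,.k,⟨false,1,⟨7,[(4,1),
  (8,7),(2,1),(24,0),(7,2),(0,1)]⟩,⟨13,[(0,2),(1,9),(0,0),(3,3),(2,1),(15,0),(6,0)]⟩⟩,⟨true,0,⟨0,
  [(1,0)]⟩,⟨0,[(37,0)]⟩⟩,⟨false,1,⟨5,[(4,1),(24,1),(0,1),(10,0),(8,2)]⟩,⟨0,[(48,0)]⟩⟩,⟨true,0,⟨2,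
  [(0,1),(23,0),(9,0)]⟩,⟨0,[(35,0)]⟩⟩,⟨true,0,⟨0,[]⟩,⟨0,[(52,0)]⟩⟩,⟨false,0,⟨0,[(0,0)]⟩,⟨5,[(4,1),
  (24,1),(0,1),(4,5),(5,0),(8,2)]⟩⟩,[]⟩) (.K ⟨0,[0,1,1],0,0,(⟨1,[(8,0),(23,0),(6,1)]⟩,⟨0,[(27,0)]⟩),
  .k,.k,(.r 0 ⟨3,[(2,4),(3,0),(6,0),(11,1),(10,0),(0,0),(7,0)]⟩ ⟨13,[(4,1),(0,5),(7,13),(2,9),(24,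
  0),(7,2)]⟩),.k,.k,[⟨1,[(36,0),(0,0)]⟩,⟨0,[(1,0)]⟩,⟨0,[(0,0)]⟩,⟨0,[(34,0),(13,0)]⟩]⟩))) (.Q [0,0,0,
  0,0,0,1,0,0,0,1] (.p true [0,0,1] [] (⟨0,[(37,0)]⟩,⟨0,[(36,0)]⟩) .k 0 (⟨0,[]⟩,⟨0,[]⟩) .k .k) (.K
  ⟨0,[0,1,1],0,0,(⟨1,[(7,0),(23,0),(6,1)]⟩,⟨0,[(26,0)]⟩),.k,.k,(.r 0 ⟨3,[(2,3),(2,3),(18,7),(10,2),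
  (0,2),(7,3),(5,1)]⟩ ⟨4,[(1,2),(1,1),(8,1),(2,0),(24,0),(7,2)]⟩),.k,.k,[⟨1,[(35,0),(0,0)]⟩,⟨0,[(0,
  0)]⟩,⟨2,[(1,0),(21,0),(10,1),(1,0)]⟩,⟨0,[(33,0),(13,0)]⟩]⟩) (.S ⟨1,0,[0,0,0,0,0,0,0,1],[0,0,1],[0,
  1,0,0,0,0,0,1],(⟨0,[(38,0)]⟩,⟨0,[(37,0)]⟩),⟨0,[(27,0)]⟩,.k,.k,⟨true,0,⟨0,[(51,0)]⟩,⟨0,[]⟩⟩,⟨false,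
  1,⟨1,[(28,0),(0,0),(19,0)]⟩,⟨0,[]⟩⟩,⟨false,0,⟨0,[(47,0)]⟩,⟨5,[(3,1),(24,1),(0,1),(10,0),(8,2)]⟩⟩,
  ⟨true,0,⟨0,[(47,0)]⟩,⟨0,[(46,0)]⟩⟩,[.o ⟨false,1,⟨1,[(33,1),(6,0),(8,0)]⟩,⟨4,[(0,0),(0,3),(3,0),
  (18,1),(9,0),(1,2),(7,0),(2,0)]⟩⟩,.e ⟨false,1,⟨1,[(13,1),(34,0),(0,0)]⟩,⟨3,[(1,2),(3,0),(6,0),(11,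
  1),(10,0),(0,0),(7,0)]⟩⟩ ⟨false,1,⟨0,[(13,0),(2,0)]⟩,⟨0,[(12,0)]⟩⟩,.o ⟨false,1,⟨1,[(35,1),(4,0),
  (7,0)]⟩,⟨0,[(0,0)]⟩⟩,.a ⟨true,0,⟨0,[(35,0)]⟩,⟨0,[(32,0)]⟩⟩ ⟨true,0,⟨10,[(2,1),(3,3),(2,1),(3,8),
  (2,0),(27,0)]⟩,⟨3,[(1,2),(3,0),(6,0),(11,1),(10,2),(0,2),(7,0)]⟩⟩ ⟨false,1,⟨0,[(13,0),(2,0)]⟩,⟨3,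
  [(1,2),(3,0),(6,0),(11,1),(10,2),(0,2),(7,0)]⟩⟩]⟩))))) (.Q [0,0,0,0,0,0,-1,0,0,0,-1] (.p false [0,
  0,1] [] (⟨0,[(34,0)]⟩,⟨0,[(33,0)]⟩) .k 0 (⟨0,[]⟩,⟨0,[]⟩) .k .k) (.I [1,0,1,0,0,0,0,-1] (.I [1,0,
  -1,0,0,0,0,-1] (.S ⟨1,0,[0,0,0,0,0,0,0,1],[0,0,1],[0,1,0,0,0,0,0,1],(⟨0,[(37,0)]⟩,⟨0,[(36,0)]⟩),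
  ⟨0,[(26,0)]⟩,.k,.k,⟨true,0,⟨0,[(50,0)]⟩,⟨0,[]⟩⟩,⟨false,1,⟨1,[(27,0),(0,0),(19,0)]⟩,⟨0,[]⟩⟩,⟨false,
  0,⟨0,[(46,0)]⟩,⟨3,[(22,1),(4,0),(0,0),(19,2)]⟩⟩,⟨true,0,⟨0,[(46,0)]⟩,⟨0,[(45,0)]⟩⟩,[.o ⟨false,1,
  ⟨1,[(32,1),(6,0),(8,0)]⟩,⟨0,[(0,0),(34,0)]⟩⟩,.e ⟨false,1,⟨1,[(12,1),(34,0),(0,0)]⟩,⟨1,[(0,0),(0,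
  0)]⟩⟩ ⟨false,1,⟨0,[(12,0),(2,0)]⟩,⟨0,[(11,0)]⟩⟩,.o ⟨false,1,⟨1,[(34,1),(4,0),(7,0)]⟩,⟨0,[(2,0)]⟩⟩,
  .a ⟨true,0,⟨0,[(34,0)]⟩,⟨0,[(31,0)]⟩⟩ ⟨true,0,⟨5,[(2,0),(2,2),(1,0),(0,0),(3,4),(30,0)]⟩,⟨0,[(1,
  0)]⟩⟩ ⟨false,1,⟨0,[(12,0),(2,0)]⟩,⟨0,[(1,0)]⟩⟩]⟩) (.S ⟨1,1,[],[1,1,-1],[1,0,1,0,0,0,0,-1],(⟨1,[(6,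
  0),(23,0),(5,1)]⟩,⟨0,[(26,0)]⟩),⟨0,[(36,0)]⟩,.k,.k,⟨false,1,⟨3,[(22,1),(4,0),(0,0),(19,2)]⟩,⟨0,
  [(46,0)]⟩⟩,⟨true,1,⟨0,[(7,0),(19,0)]⟩,⟨7,[(1,7),(0,7),(2,5),(2,2),(14,4),(19,7),(5,3)]⟩⟩,⟨true,0,
  ⟨0,[]⟩,⟨0,[(50,0)]⟩⟩,⟨false,1,⟨3,[(0,2),(3,0),(0,2),(1,0),(0,0),(5,0),(19,2),(4,0)]⟩,⟨1,[(33,1),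
  (9,0),(4,0)]⟩⟩,[.fo,.o ⟨false,1,⟨1,[(39,0),(8,0)]⟩,⟨0,[(50,0)]⟩⟩,.a ⟨true,0,⟨0,[(31,0)]⟩,⟨0,[(34,
  0)]⟩⟩ ⟨true,0,⟨0,[(1,0)]⟩,⟨14,[(0,2),(4,5),(2,1),(3,11),(0,1),(3,0),(25,1)]⟩⟩ ⟨false,1,⟨1,[(34,1),
  (4,0),(8,0)]⟩,⟨0,[(31,0)]⟩⟩,.o ⟨false,0,⟨0,[(2,0)]⟩,⟨1,[(34,1),(4,0),(7,0)]⟩⟩]⟩)) (.S ⟨1,0,[0,0,0,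
  0,0,0,0,1],[0,0,1],[0,1,0,0,0,0,0,1],(⟨0,[(36,0)]⟩,⟨0,[(35,0)]⟩),⟨0,[(25,0)]⟩,.k,.k,⟨true,0,⟨0,
  [(49,0)]⟩,⟨0,[]⟩⟩,⟨false,1,⟨1,[(26,0),(0,0),(19,0)]⟩,⟨0,[]⟩⟩,⟨false,0,⟨0,[(45,0)]⟩,⟨3,[(21,1),(4,
  0),(0,0),(19,2)]⟩⟩,⟨true,0,⟨0,[(45,0)]⟩,⟨0,[(44,0)]⟩⟩,[.e ⟨false,0,⟨2,[(0,1),(10,0),(29,0)]⟩,⟨0,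
  [(10,0),(36,0)]⟩⟩ ⟨false,0,⟨0,[(0,0)]⟩,⟨1,[(10,1),(15,0),(0,0),(19,0)]⟩⟩,.o ⟨false,1,⟨5,[(0,3),(2,
  1),(0,0),(1,1),(19,0),(6,3),(4,1)]⟩,⟨0,[(32,0)]⟩⟩,.o ⟨false,1,⟨1,[(33,1),(4,0),(7,0)]⟩,⟨0,[(1,
  0)]⟩⟩,.a ⟨true,0,⟨0,[(33,0)]⟩,⟨0,[(30,0)]⟩⟩ ⟨false,0,⟨0,[(0,0)]⟩,⟨9,[(3,7),(6,9),(10,3),(4,1),(0,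
  1),(5,0),(0,0)]⟩⟩ ⟨true,0,⟨0,[(0,0)]⟩,⟨1,[(10,1),(22,0),(0,0)]⟩⟩]⟩)) (.Q [0,1,0,-1,0,0,-1,-1,0,0,
  -1] (.p false [0,0,1] [] (⟨0,[(35,0)]⟩,⟨0,[(34,0)]⟩) .k 0 (⟨0,[]⟩,⟨0,[]⟩) .k .k) (.K ⟨0,[0,1,1],0,
  0,(⟨1,[(5,0),(23,0),(6,1)]⟩,⟨0,[(24,0)]⟩),.k,.k,(.r 0 ⟨0,[(2,0),(8,0)]⟩ ⟨4,[(10,4),(2,3),(2,0),(0,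
  1),(28,0)]⟩),.k,.k,[⟨1,[(33,0),(0,0)]⟩,⟨0,[(1,0)]⟩,⟨0,[(0,0)]⟩,⟨0,[(31,0),(13,0)]⟩]⟩) (.R ⟨2,true,
  false,false,[0,1],[0,1,1],[1,0,1],(⟨0,[]⟩,⟨0,[]⟩),(⟨1,[(5,0),(23,0),(6,1)]⟩,⟨0,[(24,0)]⟩),⟨0,[]⟩,
  .k,.k,.k,.k,.k,.k,⟨false,1,⟨2,[(10,2),(2,0),(7,0),(24,0),(0,0)]⟩,⟨2,[(0,1),(10,0),(10,0),(0,0)]⟩⟩,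
  ⟨true,0,⟨0,[(1,0)]⟩,⟨0,[(34,0)]⟩⟩,⟨false,1,⟨3,[(21,1),(4,0),(0,0),(19,2)]⟩,⟨0,[(45,0)]⟩⟩,⟨true,0,
  ⟨2,[(0,1),(20,0),(9,0)]⟩,⟨0,[(32,0)]⟩⟩,⟨true,0,⟨0,[]⟩,⟨0,[(49,0)]⟩⟩,⟨false,0,⟨0,[(0,0)]⟩,⟨3,[(21,
  1),(4,0),(0,0),(4,3),(14,2)]⟩⟩,[]⟩))))))

theorem ok15 : chk K t15 r19 = true := by decide +kernel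

noncomputable def t20 : Tre :=
  (.Q [0,0,0,0,0,0,-1,0,0,0,-1] (.p false [0,0,1] [] (⟨0,[(27,0)]⟩,⟨0,[(26,0)]⟩) .k 0 (⟨0,[]⟩,⟨0,
  []⟩) .k .k) (.I [0,0,-1,0,0,0,0,1] (.S ⟨1,0,[0,0,0,0,0,0,0,1],[0,0,1],[0,1,0,0,0,0,0,1],(⟨0,[(29,
  0)]⟩,⟨0,[(28,0)]⟩),⟨0,[(18,0)]⟩,.k,.k,⟨true,0,⟨0,[(42,0)]⟩,⟨0,[]⟩⟩,⟨false,1,⟨1,[(19,0),(0,0),(19,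
  0)]⟩,⟨0,[]⟩⟩,⟨false,0,⟨0,[(38,0)]⟩,⟨3,[(14,1),(4,0),(0,0),(19,2)]⟩⟩,⟨true,0,⟨0,[(38,0)]⟩,⟨0,[(37,
  0)]⟩⟩,[.e ⟨false,0,⟨2,[(0,1),(3,0),(29,0)]⟩,⟨0,[(3,0),(36,0)]⟩⟩ ⟨false,0,⟨0,[(0,0)]⟩,⟨1,[(3,1),
  (15,0),(0,0),(19,0)]⟩⟩,.o ⟨false,1,⟨1,[(0,1),(25,1),(4,0),(8,0)]⟩,⟨0,[(25,0)]⟩⟩,.o ⟨false,1,⟨1,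
  [(26,1),(4,0),(7,0)]⟩,⟨0,[(1,0)]⟩⟩,.a ⟨true,0,⟨0,[(26,0)]⟩,⟨0,[(23,0)]⟩⟩ ⟨false,0,⟨0,[(0,0)]⟩,⟨1,
  [(3,1),(22,0),(0,0),(12,1)]⟩⟩ ⟨true,0,⟨0,[(0,0)]⟩,⟨1,[(3,1),(22,0),(0,0)]⟩⟩]⟩) (.Q [0,-1,0,1,0,0,
  -1,-1,0,0,-1] (.p false [0,0,1] [] (⟨0,[(29,0)]⟩,⟨0,[(28,0)]⟩) .k 0 (⟨0,[]⟩,⟨0,[]⟩) .k .k) (.R ⟨2,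
  true,false,true,[0,1],[0,0,1],[1,1,1],(⟨0,[]⟩,⟨0,[]⟩),(⟨0,[(30,0)]⟩,⟨0,[(29,0)]⟩),⟨0,[]⟩,.k,.k,.k,
  .k,.k,.k,⟨false,0,⟨2,[(0,1),(3,0),(5,0),(16,1)]⟩,⟨1,[(5,1),(34,0),(0,0)]⟩⟩,⟨true,0,⟨0,[(27,0)]⟩,
  ⟨0,[(2,0)]⟩⟩,⟨true,0,⟨0,[(38,0)]⟩,⟨0,[(39,0)]⟩⟩,⟨false,1,⟨3,[(15,1),(4,0),(0,0),(3,3),(15,2)]⟩,⟨0,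
  [(0,0)]⟩⟩,⟨false,0,⟨0,[]⟩,⟨1,[(20,0),(0,0),(19,0)]⟩⟩,⟨true,0,⟨0,[(25,0)]⟩,⟨2,[(0,1),(14,0),(10,
  0)]⟩⟩,[]⟩) (.Q [0,0,0,0,0,0,-1,-1,0,0,-1] (.p false [0,0,1] [] (⟨0,[(30,0)]⟩,⟨0,[(29,0)]⟩) .k 0
  (⟨0,[]⟩,⟨0,[]⟩) .k .k) (.S ⟨1,0,[0,1,0,0,0,0,0,1],[0,0,1],[1,0,0,-1,0,0,0,1],(⟨0,[(31,0)]⟩,⟨0,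
  [(30,0)]⟩),⟨0,[(20,0)]⟩,.k,.k,⟨false,1,⟨3,[(16,1),(4,0),(0,0),(19,2)]⟩,⟨0,[(40,0)]⟩⟩,⟨true,0,⟨0,
  [(44,0)]⟩,⟨0,[]⟩⟩,⟨true,0,⟨0,[]⟩,⟨0,[(44,0)]⟩⟩,⟨false,0,⟨0,[(40,0)]⟩,⟨3,[(16,1),(4,0),(0,0),(19,
  2)]⟩⟩,[.e ⟨false,1,⟨5,[(1,3),(4,1),(1,1),(9,1),(14,0),(7,1),(0,0)]⟩,⟨0,[(2,0),(5,0),(8,1),(19,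
  0)]⟩⟩ ⟨false,0,⟨0,[(1,0),(1,0),(4,0),(8,1),(19,0)]⟩,⟨0,[(5,0),(36,0)]⟩⟩,.o ⟨false,1,⟨1,[(26,1),(6,
  0),(8,0)]⟩,⟨0,[(0,0)]⟩⟩,.o ⟨false,1,⟨1,[(28,1),(4,0),(7,0)]⟩,⟨0,[(3,0)]⟩⟩,.a ⟨true,0,⟨0,[(28,0)]⟩,
  ⟨0,[(25,0)]⟩⟩ ⟨false,1,⟨0,[(6,0),(1,0)]⟩,⟨0,[(2,0),(37,0)]⟩⟩ ⟨true,0,⟨0,[(1,0),(1,0),(4,0),(8,1),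
  (19,0)]⟩,⟨0,[(2,0)]⟩⟩]⟩) (.R ⟨2,true,false,false,[0,1],[0,0,1],[1,1,1],(⟨0,[]⟩,⟨0,[]⟩),(⟨0,[(31,
  0)]⟩,⟨0,[(30,0)]⟩),⟨0,[]⟩,.k,.k,.k,.k,.k,.k,⟨false,0,⟨0,[(5,0)]⟩,⟨0,[(6,0),(2,0)]⟩⟩,⟨true,0,⟨0,
  [(28,0)]⟩,⟨0,[(3,0)]⟩⟩,⟨true,0,⟨0,[(39,0)]⟩,⟨0,[(40,0)]⟩⟩,⟨false,1,⟨0,[(1,0),(40,0)]⟩,⟨0,[(2,0),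
  (0,0),(4,0),(8,1),(19,0)]⟩⟩,⟨false,0,⟨0,[]⟩,⟨1,[(21,0),(0,0),(19,0)]⟩⟩,⟨true,0,⟨0,[(0,0)]⟩,⟨0,
  [(27,0)]⟩⟩,[]⟩)))) (.Q [0,0,0,1,0,0,-1,-1,0,0,-1] (.p false [0,0,1] [] (⟨0,[(28,0)]⟩,⟨0,[(27,
  0)]⟩) .k 0 (⟨0,[]⟩,⟨0,[]⟩) .k .k) (.K ⟨0,[0,1,1],0,0,(⟨1,[(2,0),(18,0),(7,1)]⟩,⟨0,[(17,0)]⟩),.k,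
  .k,(.x (-1) ⟨4,[(1,4),(3,2),(1,0),(3,2),(5,4),(12,4),(0,0),(10,1)]⟩ ⟨1,[(2,1),(18,1),(4,0),(0,2),
  (1,1)]⟩),.k,.k,[⟨1,[(26,0),(0,0)]⟩,⟨0,[(1,0)]⟩,⟨0,[(0,0),(13,0)]⟩,⟨0,[(24,0),(13,0)]⟩]⟩) (.S ⟨1,0,
  [0,1,0,0,0,0,0,-1],[1,0,-1],[1,0,0,-1,0,0,0,-1],(⟨0,[(28,0)]⟩,⟨0,[(29,0)]⟩),⟨0,[(17,0)]⟩,.k,.k,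
  ⟨false,1,⟨3,[(14,1),(4,0),(0,0),(19,2)]⟩,⟨0,[(38,0)]⟩⟩,⟨true,0,⟨0,[(42,0)]⟩,⟨0,[]⟩⟩,⟨true,0,⟨0,
  []⟩,⟨0,[(42,0)]⟩⟩,⟨false,0,⟨0,[(38,0)]⟩,⟨3,[(14,1),(4,0),(0,0),(19,2)]⟩⟩,[.o ⟨false,0,⟨0,[(25,
  0)]⟩,⟨0,[(0,0),(14,0),(24,0)]⟩⟩,.e ⟨false,1,⟨0,[(3,0),(2,0)]⟩,⟨0,[(4,0),(33,0)]⟩⟩ ⟨false,1,⟨1,[(3,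
  1),(35,0),(0,0)]⟩,⟨0,[(0,0),(5,0),(8,1),(11,0),(7,0)]⟩⟩,.a ⟨true,0,⟨19,[(16,9),(2,3),(0,3),(14,4),
  (4,0),(1,1)]⟩,⟨0,[(1,0)]⟩⟩ ⟨false,1,⟨1,[(3,1),(2,1),(19,0),(0,0)]⟩,⟨0,[(0,0),(6,0),(7,1),(11,0),
  (7,0)]⟩⟩ ⟨true,0,⟨0,[(1,0),(23,0)]⟩,⟨0,[(0,0),(5,0),(8,1),(11,0),(7,0)]⟩⟩,.o ⟨false,0,⟨0,[(27,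
  0)]⟩,⟨1,[(1,1),(29,0),(7,0)]⟩⟩]⟩)))

theorem ok20 : chk K t20 r15 = true := by decide +kernel

noncomputable def t22 : Tre :=
  (.S ⟨1,0,[0,0,0,0,0,0,0,1],[0,0,1],[1,1,0,-1,0,0,0,1],(⟨0,[(26,0)]⟩,⟨0,[(25,0)]⟩),⟨0,[(15,0)]⟩,.k,
  .k,⟨true,0,⟨0,[(34,0)]⟩,⟨0,[(35,0)]⟩⟩,⟨false,1,⟨1,[(16,0),(0,0),(19,0)]⟩,⟨0,[]⟩⟩,⟨false,0,⟨0,[]⟩,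
  ⟨1,[(16,0),(0,0),(19,0)]⟩⟩,⟨true,0,⟨0,[(35,0)]⟩,⟨0,[(34,0)]⟩⟩,[.e ⟨false,0,⟨3,[(0,0),(0,2),(4,
  1)]⟩,⟨0,[(4,0),(17,0),(0,0),(11,0)]⟩⟩ ⟨false,0,⟨12,[(0,12),(1,1),(3,0),(1,1),(3,1),(18,4),(0,1)]⟩,
  ⟨1,[(22,1),(0,1),(12,0),(0,0)]⟩⟩,.o ⟨false,1,⟨1,[(0,0),(3,0),(16,0),(1,0),(4,0)]⟩,⟨0,[(22,0)]⟩⟩,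
  .o ⟨false,1,⟨1,[(23,1),(4,0),(7,0)]⟩,⟨0,[(0,0),(21,0)]⟩⟩,.a ⟨true,0,⟨0,[(23,0)]⟩,⟨0,[(20,0)]⟩⟩
  ⟨false,0,⟨3,[(0,2),(0,0),(4,1)]⟩,⟨0,[(22,0),(0,0),(11,0),(1,0)]⟩⟩ ⟨true,0,⟨12,[(0,12),(1,1),(3,0),
  (1,1),(3,1),(18,4),(0,1)]⟩,⟨0,[(22,0),(0,0)]⟩⟩]⟩)

theorem ok22 : chk K t22 r14 = true := by decide +kernel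

noncomputable def t25 : Tre :=
  (.Q [0,0,0,0,0,-2,0,0,0,1,0,-1] (.p false [0,0,0,0,1] [1] (⟨0,[(17,0)]⟩,⟨0,[(16,0)]⟩) .k 1 (⟨0,
  []⟩,⟨0,[]⟩) .k .k) (.S ⟨1,0,[0,0,-1,-1],[1,-1,0,0,-1],[1,-1,-1,-2],(⟨0,[(4,0)]⟩,⟨0,[(18,0),(10,
  0)]⟩),⟨0,[(0,0)]⟩,(.r (-1) ⟨2,[(2,0),(7,0),(24,0),(0,0)]⟩ ⟨4,[(1,2),(9,2),(4,2),(13,0),(3,1)]⟩),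
  (.r (-1) ⟨4,[(2,3),(2,0),(0,1),(28,0)]⟩ ⟨0,[(1,0),(9,0),(4,0),(17,0)]⟩),⟨false,1,⟨3,[(10,1),(4,0),
  (0,0),(19,2)]⟩,⟨0,[(34,0)]⟩⟩,⟨true,0,⟨0,[(38,0)]⟩,⟨0,[]⟩⟩,⟨true,0,⟨0,[]⟩,⟨0,[(38,0)]⟩⟩,⟨false,0,
  ⟨0,[(34,0)]⟩,⟨3,[(10,1),(4,0),(0,0),(19,2)]⟩⟩,[.o ⟨false,1,⟨4,[(1,1),(0,0),(3,1),(0,0),(7,1),(11,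
  0)]⟩,⟨1,[(9,1),(12,0),(0,0),(10,1)]⟩⟩,.e ⟨false,2,⟨2,[(2,1),(7,1),(24,1),(0,1)]⟩,⟨3,[(11,7),(10,
  0),(0,0),(7,3),(5,1)]⟩⟩ ⟨false,1,⟨2,[(2,0),(0,0),(1,0),(29,0)]⟩,⟨4,[(1,2),(9,2),(4,2),(13,0),(3,
  1)]⟩⟩,.o ⟨false,1,⟨3,[(1,1),(13,2),(0,0),(10,0)]⟩,⟨0,[(9,0)]⟩⟩,.a ⟨true,0,⟨0,[(1,0)]⟩,⟨1,[(9,1),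
  (21,0),(3,0)]⟩⟩ ⟨true,1,⟨4,[(2,3),(2,0),(0,1),(28,0)]⟩,⟨3,[(11,7),(10,2),(0,2),(7,3),(5,1)]⟩⟩
  ⟨false,1,⟨2,[(2,0),(0,0),(1,0),(29,0)]⟩,⟨0,[(22,0),(0,0),(10,0)]⟩⟩]⟩) (.Q [0,-1,0,0,1,0,0,0,-1,0,
  0,-1] (.p false [0,0,0,0,1] [] (⟨0,[(18,0)]⟩,⟨0,[(17,0)]⟩) .k 0 (⟨0,[]⟩,⟨0,[]⟩) .k .k) (.R ⟨0,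
  false,false,true,[1,-1,0,0,-1],[1,-1],[1,1,-1,-1],(⟨0,[(5,0)]⟩,⟨5,[(1,2),(0,0),(14,0),(1,2),(12,
  0),(3,0)]⟩),(⟨0,[(29,0)]⟩,⟨0,[(30,0)]⟩),⟨0,[(1,0)]⟩,(.r (-1) ⟨2,[(3,0),(7,0),(24,0),(0,0)]⟩ ⟨4,
  [(2,2),(9,2),(4,2),(13,0),(3,1)]⟩),.k,(.r (-1) ⟨4,[(3,3),(2,0),(0,1),(28,0)]⟩ ⟨0,[(2,0),(9,0),(4,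
  0),(17,0)]⟩),.k,.k,.k,⟨true,0,⟨0,[]⟩,⟨1,[(23,0),(0,0)]⟩⟩,⟨false,0,⟨3,[(10,1),(6,1),(14,0),(3,0)]⟩,
  ⟨0,[(16,0)]⟩⟩,⟨false,0,⟨0,[(39,0)]⟩,⟨0,[(37,0)]⟩⟩,⟨true,(-1),⟨11,[(10,7),(0,7),(0,15),(4,3),(5,0),
  (0,0),(7,11),(5,5)]⟩,⟨0,[(0,0)]⟩⟩,⟨false,0,⟨0,[]⟩,⟨0,[]⟩⟩,⟨false,0,⟨0,[]⟩,⟨0,[]⟩⟩,[.o ⟨false,0,⟨0,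
  [(34,0)]⟩,⟨0,[(12,0),(24,0)]⟩⟩,.e ⟨false,1,⟨4,[(3,0),(3,0),(3,0),(24,3)]⟩,⟨1,[(23,0),(0,0),(10,
  1)]⟩⟩ ⟨false,0,⟨15,[(4,3),(1,7),(3,9),(6,5),(14,4),(3,0)]⟩,⟨3,[(2,1),(9,1),(3,2),(0,0),(17,1),(1,
  0)]⟩⟩,.o ⟨false,1,⟨3,[(2,1),(13,2),(0,0),(10,0)]⟩,⟨0,[(10,0)]⟩⟩,.a ⟨true,0,⟨0,[(2,0)]⟩,⟨1,[(10,1),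
  (21,0),(3,0)]⟩⟩ ⟨true,0,⟨9,[(4,1),(1,7),(5,5),(19,2),(3,0)]⟩,⟨0,[(23,0),(0,0),(10,0)]⟩⟩ ⟨false,0,
  ⟨15,[(4,3),(1,7),(3,9),(6,5),(14,4),(3,0)]⟩,⟨0,[(2,0),(9,0),(24,0)]⟩⟩]⟩) (.R ⟨0,false,false,false,
  [1,-1,0,0,-1],[1,-1],[0,0,0,-1],(⟨0,[(5,0)]⟩,⟨5,[(1,2),(0,0),(14,0),(1,2),(12,0),(3,0)]⟩),(⟨0,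
  [(29,0)]⟩,⟨0,[(30,0)]⟩),⟨0,[(1,0)]⟩,(.r (-1) ⟨2,[(3,0),(7,0),(24,0),(0,0)]⟩ ⟨4,[(2,2),(9,2),(4,2),
  (13,0),(3,1)]⟩),.k,(.r (-1) ⟨4,[(3,3),(2,0),(0,1),(28,0)]⟩ ⟨0,[(2,0),(9,0),(4,0),(17,0)]⟩),.k,.k,
  .k,⟨true,0,⟨1,[(23,0),(0,0)]⟩,⟨0,[]⟩⟩,⟨false,0,⟨3,[(10,1),(6,1),(14,0),(3,0)]⟩,⟨0,[(16,0)]⟩⟩,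
  ⟨false,0,⟨1,[(23,0),(0,0)]⟩,⟨1,[(36,0),(0,0)]⟩⟩,⟨true,(-1),⟨0,[(0,0)]⟩,⟨0,[(16,0)]⟩⟩,⟨false,0,⟨0,
  []⟩,⟨0,[]⟩⟩,⟨false,0,⟨0,[]⟩,⟨0,[]⟩⟩,[.e ⟨false,1,⟨3,[(11,1),(4,0),(0,0),(18,1),(0,0)]⟩,⟨0,[(35,
  0)]⟩⟩ ⟨false,0,⟨15,[(4,3),(1,7),(3,9),(6,5),(14,4),(3,0)]⟩,⟨3,[(2,1),(9,1),(3,2),(0,0),(17,1),(1,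
  0)]⟩⟩,.o ⟨false,1,⟨3,[(11,1),(4,0),(0,0),(19,2)]⟩,⟨0,[(12,0)]⟩⟩,.o ⟨false,1,⟨3,[(2,1),(13,2),(0,
  0),(10,0)]⟩,⟨0,[(10,0)]⟩⟩,.a ⟨true,0,⟨0,[(2,0)]⟩,⟨1,[(10,1),(21,0),(3,0)]⟩⟩ ⟨false,1,⟨2,[(3,0),(7,
  0),(24,0),(0,0)]⟩,⟨1,[(23,0),(0,0),(10,1)]⟩⟩ ⟨true,0,⟨15,[(4,3),(1,7),(3,9),(6,5),(14,4),(3,0)]⟩,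
  ⟨0,[(2,0),(9,0)]⟩⟩]⟩)))

theorem ok25 : chk K t25 r12 = true := by decide +kernel

noncomputable def t27 : Tre :=
  (.Q [0,0,0,3,0,0,0,0,0,-1] (.pp true [-1,1]) (.I [0,1,3,3,-1] (.R ⟨1,true,false,true,[1,-1],[0,1],
  [0,1,2,1],(⟨0,[(28,0)]⟩,⟨0,[(29,0)]⟩),(⟨0,[(29,0)]⟩,⟨0,[(28,0)]⟩),⟨0,[(13,0),(0,0)]⟩,.k,.k,(.r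
  (-1) ⟨1,[(6,1),(28,0),(0,0)]⟩ ⟨2,[(0,1),(14,0),(0,0),(19,0)]⟩),(.r (-1) ⟨1,[(6,1),(28,0),(0,0)]⟩
  ⟨2,[(0,1),(14,0),(0,0),(19,0)]⟩),(.r (-1) ⟨3,[(3,2),(1,0),(0,4),(28,0)]⟩ ⟨1,[(0,1),(14,0),(0,0),
  (19,0)]⟩),.k,⟨true,0,⟨1,[(22,0),(0,0)]⟩,⟨0,[]⟩⟩,⟨false,1,⟨25,[(1,15),(1,11),(1,23),(21,4),(7,8)]⟩,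
  ⟨0,[(12,0),(9,1)]⟩⟩,⟨false,0,⟨5,[(0,3),(14,1),(0,1),(5,2),(0,2),(12,1)]⟩,⟨0,[(3,0),(1,0)]⟩⟩,⟨true,
  0,⟨10,[(0,0),(0,4),(9,3),(15,0),(2,2)]⟩,⟨1,[(10,1),(20,0),(4,0)]⟩⟩,⟨true,(-1),⟨0,[(0,0)]⟩,⟨3,[(3,
  2),(1,0),(0,4),(28,0)]⟩⟩,⟨false,0,⟨0,[(1,0)]⟩,⟨3,[(10,5),(4,0),(0,0),(14,1),(4,4)]⟩⟩,[]⟩) (.I [1,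
  -1,2,2] (.Q [0,-1,2,1,0,0,0,0,1,-1,0,1] (.p true [0,0,0,0,1] [1] (⟨0,[(19,0)]⟩,⟨0,[(18,0)]⟩) .k 1
  (⟨0,[]⟩,⟨0,[]⟩) .k .k) (.N [0,3,0,0,1] 1 ⟨0,[(1,0),(2,0)]⟩ ⟨0,[(2,0)]⟩ (.x 0 ⟨6,[(0,5),(1,5),(0,
  11),(2,6),(0,11),(3,0),(16,13),(4,5),(5,9)]⟩ ⟨1,[(17,1),(2,1),(3,2),(0,2),(5,5)]⟩)) (.N [0,-2,0,0,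
  1] 0 ⟨0,[(7,0)]⟩ ⟨0,[(1,0)]⟩ (.x 0 ⟨1,[(11,1),(7,1),(4,2),(0,2),(5,3)]⟩ ⟨24,[(0,17),(2,5),(1,8),
  (3,6),(0,24),(4,5),(0,5),(11,12),(0,8),(9,1)]⟩))) (.R ⟨1,true,false,false,[1,-1],[0,1],[1,0,1,1],
  (⟨0,[(29,0)]⟩,⟨0,[(30,0)]⟩),(⟨0,[(30,0)]⟩,⟨0,[(29,0)]⟩),⟨0,[(14,0),(0,0)]⟩,.k,.k,(.r (-1) ⟨6,[(1,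
  1),(9,3),(24,3),(0,0)]⟩ ⟨2,[(2,1),(10,1),(9,4),(0,0)]⟩),(.r (-1) ⟨6,[(1,1),(9,3),(24,3),(0,0)]⟩
  ⟨2,[(2,1),(10,1),(9,4),(0,0)]⟩),(.r (-1) ⟨4,[(1,2),(5,1),(3,0),(24,1)]⟩ ⟨1,[(2,1),(10,1),(9,4),(0,
  0)]⟩),.k,⟨true,0,⟨0,[]⟩,⟨1,[(23,0),(0,0)]⟩⟩,⟨false,1,⟨6,[(0,2),(0,2),(0,4),(25,0),(7,2)]⟩,⟨0,[(13,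
  0),(9,1)]⟩⟩,⟨true,0,⟨2,[(2,1),(10,1),(9,4),(0,0)]⟩,⟨0,[(0,0)]⟩⟩,⟨false,1,⟨5,[(2,3),(13,1),(0,1),
  (10,0),(8,2)]⟩,⟨1,[(11,1),(20,0),(4,0)]⟩⟩,⟨false,0,⟨1,[(2,1),(20,1),(0,1),(7,0),(4,0)]⟩,⟨13,[(1,
  5),(9,11),(24,4),(0,2)]⟩⟩,⟨true,0,⟨0,[(2,0)]⟩,⟨9,[(11,13),(4,1),(0,1),(14,4),(1,1),(2,2)]⟩⟩,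
  []⟩))) (.I [1,-2,0,-1,1] (.I [0,2,1,1,-1] (.Q [0,1,0,0,-1,0,0,0,1,0,0,1] (.p true [0,0,0,0,1] []
  (⟨0,[(19,0)]⟩,⟨0,[(18,0)]⟩) .k 0 (⟨0,[]⟩,⟨0,[]⟩) .k .k) (.S ⟨1,0,[],[1,0,0,0,-1],[1,-1,0,-1],(⟨0,
  [(19,0)]⟩,⟨0,[(20,0)]⟩),⟨0,[(6,0)]⟩,.k,(.r (-1) ⟨7,[(2,1),(0,1),(1,1),(23,0),(7,2)]⟩ ⟨1,[(1,1),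
  (15,0),(0,0),(19,0)]⟩),⟨false,1,⟨5,[(3,1),(13,1),(0,1),(10,0),(8,2)]⟩,⟨0,[(36,0)]⟩⟩,⟨true,0,⟨0,
  [(40,0)]⟩,⟨0,[]⟩⟩,⟨true,0,⟨0,[]⟩,⟨0,[(40,0)]⟩⟩,⟨false,0,⟨0,[(36,0)]⟩,⟨5,[(3,1),(13,1),(0,1),(10,
  0),(8,2)]⟩⟩,[.o ⟨false,1,⟨0,[(17,0)]⟩,⟨1,[(0,1),(28,0),(8,0)]⟩⟩,.a ⟨true,1,⟨1,[(17,1),(15,0),(4,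
  0)]⟩,⟨0,[(0,0)]⟩⟩ ⟨true,1,⟨0,[(2,0)]⟩,⟨0,[(1,0)]⟩⟩ ⟨false,1,⟨1,[(37,0),(0,0)]⟩,⟨0,[(40,0)]⟩⟩,.o
  ⟨false,1,⟨0,[(17,0)]⟩,⟨1,[(0,1),(28,0),(8,0)]⟩⟩,.o ⟨false,1,⟨1,[(17,1),(6,0),(0,0)]⟩,⟨0,[(11,
  0)]⟩⟩]⟩) (.R ⟨2,true,false,true,[0,1],[0,1,0,0,1],[1,0,1],(⟨0,[]⟩,⟨0,[]⟩),(⟨0,[(20,0),(10,0)]⟩,⟨0,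
  [(6,0)]⟩),⟨0,[]⟩,.k,(.r 0 ⟨1,[(1,1),(15,0),(0,0),(19,0)]⟩ ⟨7,[(2,1),(0,1),(1,1),(23,0),(7,2)]⟩),
  .k,.k,(.r (-1) ⟨7,[(2,1),(0,1),(1,1),(23,0),(7,2)]⟩ ⟨1,[(1,1),(15,0),(0,0),(19,0)]⟩),.k,⟨true,1,
  ⟨0,[(2,0)]⟩,⟨0,[(1,0)]⟩⟩,⟨false,0,⟨3,[(11,1),(6,1),(14,0),(3,0)]⟩,⟨0,[(17,0)]⟩⟩,⟨false,1,⟨5,[(3,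
  1),(13,1),(0,1),(10,0),(8,2)]⟩,⟨0,[(36,0)]⟩⟩,⟨true,(-1),⟨4,[(1,3),(6,1),(2,1),(6,2),(14,0)]⟩,⟨0,
  [(0,0)]⟩⟩,⟨true,0,⟨0,[]⟩,⟨0,[(40,0)]⟩⟩,⟨false,(-1),⟨1,[(1,1),(9,1),(21,0),(4,0)]⟩,⟨0,[(2,0),(14,
  0)]⟩⟩,[]⟩)) (.I [0,0,1,0,1,1,0,0,-2] (.N [0,1,0,0,2] 1 ⟨0,[(4,0)]⟩ ⟨0,[(1,0)]⟩ (.x 0 ⟨1,[(6,1),(4,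
  3),(7,1),(4,0),(0,0)]⟩ ⟨0,[(0,0)]⟩)) (.I [0,0,-1,0,-1,-1,0,0,2] (.N [0,1,0,0,2] 1 ⟨0,[(5,0)]⟩ ⟨0,
  [(2,0)]⟩ (.x 1 ⟨0,[(0,0)]⟩ ⟨1,[(18,3),(2,3),(3,0),(0,0),(5,1)]⟩)) (.Q [0,0,0,0,0,0,1,0,0,0,1] (.p
  true [0,0,1] [] (⟨0,[(28,0)]⟩,⟨0,[(27,0)]⟩) .k 0 (⟨0,[]⟩,⟨0,[]⟩) .k .k) (.Q [0,-1,0,-1,0,0,-1,-1,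
  0,1,-1] (.p false [0,0,1] [1] (⟨0,[(29,0)]⟩,⟨0,[(28,0)]⟩) .k 1 (⟨0,[]⟩,⟨0,[]⟩) .k .k) (.I [0,0,2,
  2,0,0,0,1] (.K ⟨0,[0,1,1],0,0,(⟨0,[(31,0),(3,0)]⟩,⟨0,[(19,0)]⟩),.k,.k,(.r 0 ⟨0,[(0,0)]⟩ ⟨4,[(2,4),
  (2,3),(5,0),(0,1),(14,4),(13,0)]⟩),.k,.k,[⟨1,[(28,0),(0,0)]⟩,⟨0,[(2,0)]⟩,⟨4,[(1,1),(6,0),(3,0),(3,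
  0),(10,2),(5,0)]⟩,⟨0,[(26,0),(13,0)]⟩]⟩) (.K ⟨0,[0,1,1],0,0,(⟨0,[(31,0),(3,0)]⟩,⟨0,[(19,0)]⟩),.k,
  .k,(.x (-1) ⟨11,[(2,11),(1,2),(4,2),(1,1),(1,9),(0,5),(0,3),(1,3),(1,11),(12,2),(0,1)]⟩ ⟨1,[(28,
  0),(0,2),(1,1),(3,3)]⟩),.k,.k,[⟨1,[(28,0),(0,0)]⟩,⟨0,[(2,0)]⟩,⟨8,[(0,0),(0,1),(6,0),(7,2),(10,5),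
  (1,0),(3,0)]⟩,⟨0,[(26,0),(13,0)]⟩]⟩)) (.Q [0,1,0,-1,0,0,-1,-1,0,0,-1] (.p false [0,0,1] [] (⟨0,
  [(30,0)]⟩,⟨0,[(29,0)]⟩) .k 0 (⟨0,[]⟩,⟨0,[]⟩) .k .k) (.K ⟨0,[0,1,1],0,0,(⟨0,[(31,0),(3,0)]⟩,⟨0,
  [(19,0)]⟩),.k,.k,(.r 0 ⟨1,[(1,1),(26,0),(0,2),(7,0),(2,1),(1,0)]⟩ ⟨2,[(0,2),(1,2),(2,0),(3,0),(1,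
  0),(29,0)]⟩),.k,.k,[⟨1,[(28,0),(0,0)]⟩,⟨0,[(2,0)]⟩,⟨0,[(0,0)]⟩,⟨0,[(26,0),(13,0)]⟩]⟩) (.R ⟨2,true,
  false,false,[0,1],[0,1,1],[1,0,1],(⟨0,[]⟩,⟨0,[]⟩),(⟨0,[(31,0),(3,0)]⟩,⟨0,[(19,0)]⟩),⟨0,[]⟩,.k,.k,
  .k,.k,.k,.k,⟨false,1,⟨11,[(2,11),(2,1),(0,3),(0,1),(19,11),(5,0),(7,4)]⟩,⟨1,[(0,0),(0,0),(16,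
  0)]⟩⟩,⟨true,0,⟨0,[(2,0)]⟩,⟨0,[(29,0)]⟩⟩,⟨false,1,⟨5,[(7,1),(13,1),(0,1),(10,0),(8,2)]⟩,⟨0,[(40,
  0)]⟩⟩,⟨true,0,⟨3,[(0,1),(0,0),(5,0),(18,0)]⟩,⟨0,[(27,0)]⟩⟩,⟨true,0,⟨0,[]⟩,⟨0,[(44,0)]⟩⟩,⟨false,0,
  ⟨0,[(0,0)]⟩,⟨5,[(7,1),(13,1),(0,1),(4,5),(5,0),(8,2)]⟩⟩,[]⟩))) (.I [0,0,-1,0,0,0,0,1] (.S ⟨1,0,[0,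
  0,0,0,0,0,0,1],[0,0,1],[0,1,0,0,0,0,0,1],(⟨0,[(30,0)]⟩,⟨0,[(29,0)]⟩),⟨0,[(19,0)]⟩,.k,.k,⟨true,0,
  ⟨0,[(43,0)]⟩,⟨0,[]⟩⟩,⟨false,1,⟨1,[(20,0),(0,0),(19,0)]⟩,⟨0,[]⟩⟩,⟨false,0,⟨0,[(39,0)]⟩,⟨5,[(6,1),
  (13,1),(0,1),(10,0),(8,2)]⟩⟩,⟨true,0,⟨0,[(39,0)]⟩,⟨0,[(38,0)]⟩⟩,[.e ⟨false,0,⟨4,[(0,3),(24,0),(2,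
  0),(6,1)]⟩,⟨0,[(8,0),(17,0),(0,0)]⟩⟩ ⟨false,0,⟨0,[(0,0)]⟩,⟨1,[(26,1),(0,1),(12,0),(0,0)]⟩⟩,.o
  ⟨false,1,⟨1,[(0,1),(26,1),(4,0),(8,0)]⟩,⟨0,[(26,0)]⟩⟩,.o ⟨false,1,⟨1,[(27,1),(4,0),(7,0)]⟩,⟨0,[(1,
  0)]⟩⟩,.a ⟨true,0,⟨0,[(27,0)]⟩,⟨0,[(24,0)]⟩⟩ ⟨false,0,⟨0,[(0,0)]⟩,⟨0,[(26,0),(0,0),(13,0)]⟩⟩ ⟨true,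
  0,⟨0,[(0,0)]⟩,⟨0,[(26,0),(0,0)]⟩⟩]⟩) (.Q [0,-1,0,1,0,0,-1,-1,0,0,-1] (.p false [0,0,1] [] (⟨0,
  [(30,0)]⟩,⟨0,[(29,0)]⟩) .k 0 (⟨0,[]⟩,⟨0,[]⟩) .k .k) (.R ⟨2,true,false,true,[0,1],[0,0,1],[1,1,1],
  (⟨0,[]⟩,⟨0,[]⟩),(⟨0,[(31,0)]⟩,⟨0,[(30,0)]⟩),⟨0,[]⟩,.k,.k,.k,.k,.k,.k,⟨false,0,⟨9,[(0,5),(0,3),(9,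
  3),(5,1),(10,5),(8,0),(3,0)]⟩,⟨3,[(9,1),(8,1),(7,3),(6,0),(7,0)]⟩⟩,⟨true,0,⟨0,[(28,0)]⟩,⟨0,[(2,
  0)]⟩⟩,⟨true,0,⟨0,[(39,0)]⟩,⟨0,[(40,0)]⟩⟩,⟨false,1,⟨5,[(7,1),(13,1),(0,1),(3,5),(6,0),(8,2)]⟩,⟨0,
  [(0,0)]⟩⟩,⟨false,0,⟨0,[]⟩,⟨1,[(21,0),(0,0),(19,0)]⟩⟩,⟨true,0,⟨0,[(26,0)]⟩,⟨2,[(0,1),(15,0),(10,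
  0)]⟩⟩,[]⟩) (.I [1,0,0,0,0,0,0,-1] (.I [0,1,-1,0,0,0,0,1] (.S ⟨1,0,[0,0,0,0,0,0,0,1],[0,0,1],[0,1,
  0,0,0,0,0,1],(⟨0,[(33,0)]⟩,⟨0,[(32,0)]⟩),⟨0,[(22,0)]⟩,.k,.k,⟨true,0,⟨0,[(46,0)]⟩,⟨0,[]⟩⟩,⟨false,1,
  ⟨1,[(23,0),(0,0),(19,0)]⟩,⟨0,[]⟩⟩,⟨false,0,⟨0,[(42,0)]⟩,⟨5,[(9,1),(13,1),(0,1),(10,0),(8,2)]⟩⟩,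
  ⟨true,0,⟨0,[(42,0)]⟩,⟨0,[(41,0)]⟩⟩,[.o ⟨false,1,⟨1,[(28,1),(6,0),(8,0)]⟩,⟨0,[(1,0),(2,0)]⟩⟩,.e
  ⟨false,1,⟨5,[(0,1),(19,1),(7,3),(6,0),(7,1),(0,2)]⟩,⟨0,[(1,0)]⟩⟩ ⟨false,1,⟨0,[(0,0),(43,0)]⟩,⟨1,
  [(1,0),(1,0),(34,0)]⟩⟩,.o ⟨false,1,⟨1,[(30,1),(4,0),(7,0)]⟩,⟨0,[(4,0)]⟩⟩,.a ⟨true,0,⟨0,[(30,0)]⟩,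
  ⟨0,[(27,0)]⟩⟩ ⟨true,0,⟨0,[(0,0)]⟩,⟨0,[(3,0)]⟩⟩ ⟨false,1,⟨0,[(0,0),(43,0)]⟩,⟨0,[(3,0)]⟩⟩]⟩) (.I [0,
  0,0,0,0,-1,-1] (.I [0,1,0,-1,0,0,0,1] (.C [(0,0),(1,0),(6,0),(11,1),(19,0)]) (.C [(0,0),(3,0),(1,
  0)])) (.C [(0,0),(4,0),(17,0)]))) (.Q [0,0,0,0,0,0,1,1,0,0,1] (.p true [0,0,1] [] (⟨0,[(32,0)]⟩,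
  ⟨0,[(31,0)]⟩) .k 0 (⟨0,[]⟩,⟨0,[]⟩) .k .k) (.Q [0,0,0,1,0,0,-1,-1,0,0,-1] (.p false [0,0,1] [] (⟨0,
  [(33,0)]⟩,⟨0,[(32,0)]⟩) .k 0 (⟨0,[]⟩,⟨0,[]⟩) .k .k) (.R ⟨2,true,false,false,[0,1],[0,0,1],[0,1,1,
  1],(⟨0,[]⟩,⟨0,[]⟩),(⟨0,[(34,0)]⟩,⟨0,[(33,0)]⟩),⟨0,[]⟩,.k,.k,.k,.k,.k,.k,⟨false,0,⟨1,[(4,1),(15,1),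
  (19,0),(3,0)]⟩,⟨11,[(2,11),(5,1),(0,3),(0,1),(25,0),(7,4)]⟩⟩,⟨true,0,⟨0,[(31,0)]⟩,⟨0,[(5,0)]⟩⟩,
  ⟨true,0,⟨0,[(47,0)]⟩,⟨0,[]⟩⟩,⟨false,1,⟨0,[(3,0),(41,0)]⟩,⟨0,[(0,0)]⟩⟩,⟨false,0,⟨0,[(43,0)]⟩,⟨5,
  [(10,1),(13,1),(0,1),(10,0),(8,2)]⟩⟩,⟨true,0,⟨0,[(1,0)]⟩,⟨0,[(30,0)]⟩⟩,[]⟩) (.I [0,0,0,-1,0,0,0,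
  1] (.C [(0,0),(4,0),(3,0),(11,1),(19,0)]) (.C [(0,0),(0,0),(4,0)]))) (.S ⟨1,0,[0,0,0,0,0,0,0,1],
  [0,0,1],[1,1,0,-1,0,0,0,1],(⟨0,[(33,0)]⟩,⟨0,[(32,0)]⟩),⟨0,[(22,0)]⟩,.k,.k,⟨true,0,⟨0,[(41,0)]⟩,⟨0,
  [(42,0)]⟩⟩,⟨false,1,⟨1,[(23,0),(0,0),(19,0)]⟩,⟨0,[]⟩⟩,⟨false,0,⟨0,[]⟩,⟨1,[(23,0),(0,0),(19,0)]⟩⟩,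
  ⟨true,0,⟨0,[(42,0)]⟩,⟨0,[(41,0)]⟩⟩,[.o ⟨false,1,⟨1,[(28,1),(6,0),(8,0)]⟩,⟨0,[(0,0)]⟩⟩,.o ⟨false,1,
  ⟨0,[(1,0),(5,0),(11,0),(10,0)]⟩,⟨0,[(29,0)]⟩⟩,.o ⟨false,1,⟨1,[(30,1),(4,0),(7,0)]⟩,⟨0,[(4,0)]⟩⟩,
  .a ⟨true,0,⟨0,[(30,0)]⟩,⟨0,[(27,0)]⟩⟩ ⟨true,0,⟨3,[(1,3),(11,0),(0,0),(23,0)]⟩,⟨0,[(3,0),(38,0)]⟩⟩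
  ⟨false,1,⟨1,[(1,1),(41,0),(0,0)]⟩,⟨0,[(3,0)]⟩⟩]⟩))))))))) (.Q [0,2,0,0,-1,0,0,0,1,-1,0,1] (.p
  true [0,0,0,0,1] [1] (⟨0,[(18,0)]⟩,⟨0,[(17,0)]⟩) .k 1 (⟨0,[]⟩,⟨0,[]⟩) .k .k) (.S ⟨1,0,[],[1,0,0,0,
  -1],[1,1],(⟨0,[(18,0)]⟩,⟨0,[(19,0)]⟩),⟨0,[(5,0)]⟩,.k,(.r (-1) ⟨5,[(2,1),(1,1),(23,0),(7,1),(0,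
  0)]⟩ ⟨3,[(3,1),(12,1),(0,1),(5,0),(0,0),(10,1)]⟩),⟨false,0,⟨0,[(39,0)]⟩,⟨0,[(37,0)]⟩⟩,⟨true,0,⟨0,
  [(39,0)]⟩,⟨0,[]⟩⟩,⟨true,(-1),⟨0,[(1,0)]⟩,⟨5,[(2,1),(13,1),(0,1),(10,0),(8,2)]⟩⟩,⟨false,0,⟨0,[(35,
  0)]⟩,⟨5,[(2,1),(13,1),(0,1),(10,0),(8,2)]⟩⟩,[.o ⟨false,1,⟨0,[(16,0)]⟩,⟨0,[(0,0),(36,0)]⟩⟩,.a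
  ⟨true,1,⟨1,[(16,1),(15,0),(4,0)]⟩,⟨1,[(0,1),(31,0),(4,0)]⟩⟩ ⟨true,0,⟨0,[]⟩,⟨1,[(23,0),(0,0)]⟩⟩
  ⟨false,1,⟨1,[(36,0),(0,0)]⟩,⟨0,[(39,0)]⟩⟩,.o ⟨false,1,⟨0,[(16,0)]⟩,⟨0,[(0,0),(36,0)]⟩⟩,.o ⟨false,
  1,⟨1,[(16,1),(6,0),(0,0)]⟩,⟨0,[(10,0)]⟩⟩]⟩) (.S ⟨1,0,[0,1,1,1],[0,1,0,0,1],[1],(⟨0,[(19,0),(10,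
  0)]⟩,⟨0,[(5,0)]⟩),⟨0,[(19,0)]⟩,(.r 0 ⟨3,[(3,1),(12,1),(0,1),(5,0),(0,0),(10,1)]⟩ ⟨5,[(2,1),(1,1),
  (23,0),(7,1),(0,0)]⟩),.k,⟨true,1,⟨5,[(2,1),(1,1),(23,0),(7,1),(0,0)]⟩,⟨0,[(1,0),(36,0)]⟩⟩,⟨false,
  1,⟨1,[(16,0),(0,0),(19,0)]⟩,⟨0,[]⟩⟩,⟨false,1,⟨0,[(4,0)]⟩,⟨1,[(23,0),(0,0),(14,1)]⟩⟩,⟨true,0,⟨0,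
  [(35,0)]⟩,⟨0,[(34,0)]⟩⟩,[.a ⟨true,(-1),⟨3,[(3,1),(6,3),(12,0),(0,0),(7,1),(2,1)]⟩,⟨26,[(0,13),(1,
  8),(13,14),(0,1),(14,1),(6,0)]⟩⟩ ⟨true,0,⟨0,[]⟩,⟨1,[(23,0),(0,0)]⟩⟩ ⟨false,0,⟨3,[(3,0),(12,0),(0,
  0),(13,0),(3,2)]⟩,⟨5,[(2,1),(1,1),(23,0),(7,1),(0,0)]⟩⟩,.o ⟨false,0,⟨1,[(10,1),(12,0),(0,0),(10,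
  1)]⟩,⟨2,[(0,1),(2,0),(3,0),(3,0),(4,0),(11,0)]⟩⟩,.o ⟨false,0,⟨0,[(10,0)]⟩,⟨1,[(16,1),(6,0),(0,
  0)]⟩⟩,.o ⟨false,0,⟨1,[(10,1),(12,0),(0,0)]⟩,⟨0,[(16,0)]⟩⟩]⟩))))

theorem ok27 : chk K t27 r11 = true := by decide +kernel

noncomputable def t30 : Tre :=
  (.Q [0,1,1,0,-1,0,0,0,0,1] (.pp false [-1,1]) (.R ⟨0,false,false,false,[-1,1,0,0,1],[0,0,0,0,1],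
  [1,1],(⟨0,[(1,0)]⟩,⟨0,[(14,0),(10,0)]⟩),(⟨0,[(15,0)]⟩,⟨0,[(14,0)]⟩),⟨0,[(14,0)]⟩,(.r 0 ⟨1,[(19,0),
  (0,0),(10,1),(3,1)]⟩ ⟨3,[(3,1),(28,0),(0,2)]⟩),.k,.k,.k,.k,.k,⟨true,0,⟨0,[]⟩,⟨1,[(19,0),(0,0)]⟩⟩,
  ⟨false,0,⟨9,[(12,3),(0,3),(14,4),(4,0),(1,1)]⟩,⟨1,[(24,0),(7,0)]⟩⟩,⟨false,1,⟨3,[(3,1),(28,0),(0,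
  2)]⟩,⟨1,[(19,0),(0,0),(10,1)]⟩⟩,⟨true,0,⟨9,[(7,3),(4,1),(0,1),(14,4),(1,1),(2,2)]⟩,⟨0,[(8,0)]⟩⟩,
  ⟨false,0,⟨0,[]⟩,⟨0,[]⟩⟩,⟨false,0,⟨0,[]⟩,⟨0,[]⟩⟩,[.a ⟨true,(-1),⟨0,[(0,0),(5,0)]⟩,⟨1,[(12,1),(15,
  0),(4,0)]⟩⟩ ⟨false,0,⟨4,[(2,0),(5,1),(18,0),(0,0),(3,0)]⟩,⟨1,[(12,0),(0,0),(19,0)]⟩⟩ ⟨true,(-1),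
  ⟨0,[(0,0)]⟩,⟨1,[(24,0),(8,0)]⟩⟩,.o ⟨false,0,⟨1,[(6,1),(12,0),(0,0)]⟩,⟨0,[(12,0)]⟩⟩,.a ⟨true,0,⟨0,
  [(6,0)]⟩,⟨1,[(0,1),(11,1),(15,0),(4,0)]⟩⟩ ⟨false,0,⟨0,[]⟩,⟨1,[(12,0),(0,0),(19,0)]⟩⟩ ⟨true,(-1),
  ⟨0,[(0,0)]⟩,⟨1,[(24,0),(7,0)]⟩⟩,.a ⟨true,0,⟨1,[(6,1),(12,0),(0,0)]⟩,⟨1,[(4,0),(7,0),(15,1),(5,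
  0)]⟩⟩ ⟨true,0,⟨4,[(2,0),(5,1),(18,0),(0,0),(3,0)]⟩,⟨1,[(19,0),(0,0)]⟩⟩ ⟨false,0,⟨9,[(12,3),(0,3),
  (14,4),(4,0),(1,1)]⟩,⟨1,[(24,0),(8,0)]⟩⟩]⟩) (.R ⟨0,false,false,false,[-1,1,0,0,1],[0,0,0,0,1],[1,
  1],(⟨0,[(1,0)]⟩,⟨0,[(14,0),(10,0)]⟩),(⟨0,[(15,0)]⟩,⟨0,[(14,0)]⟩),⟨0,[(14,0)]⟩,(.r 0 ⟨1,[(19,0),(0,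
  0),(10,1),(3,1)]⟩ ⟨3,[(3,1),(28,0),(0,2)]⟩),.k,.k,.k,.k,.k,⟨true,0,⟨0,[]⟩,⟨1,[(19,0),(0,0)]⟩⟩,
  ⟨false,0,⟨9,[(12,3),(0,3),(14,4),(4,0),(1,1)]⟩,⟨1,[(24,0),(7,0)]⟩⟩,⟨false,1,⟨3,[(3,1),(28,0),(0,
  2)]⟩,⟨1,[(19,0),(0,0),(10,1)]⟩⟩,⟨true,0,⟨9,[(7,3),(4,1),(0,1),(14,4),(1,1),(2,2)]⟩,⟨0,[(8,0)]⟩⟩,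
  ⟨false,0,⟨0,[]⟩,⟨0,[]⟩⟩,⟨false,0,⟨0,[]⟩,⟨0,[]⟩⟩,[.e ⟨false,0,⟨4,[(2,0),(5,1),(18,0),(0,0),(3,0)]⟩,
  ⟨1,[(12,0),(0,0),(19,0)]⟩⟩ ⟨false,0,⟨1,[(12,0),(0,0),(14,0),(6,1)]⟩,⟨0,[(0,0)]⟩⟩,.o ⟨false,0,⟨1,
  [(6,1),(12,0),(0,0)]⟩,⟨0,[(12,0)]⟩⟩,.e ⟨false,0,⟨0,[]⟩,⟨1,[(12,0),(0,0),(19,0)]⟩⟩ ⟨false,0,⟨6,[(9,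
  2),(2,1),(0,1),(5,5),(8,1),(5,0)]⟩,⟨0,[(0,0)]⟩⟩,.a ⟨true,0,⟨1,[(6,1),(12,0),(0,0)]⟩,⟨1,[(4,0),(7,
  0),(15,1),(5,0)]⟩⟩ ⟨true,0,⟨4,[(2,0),(5,1),(18,0),(0,0),(3,0)]⟩,⟨1,[(19,0),(0,0)]⟩⟩ ⟨false,0,⟨9,
  [(12,3),(0,3),(14,4),(4,0),(1,1)]⟩,⟨1,[(24,0),(8,0)]⟩⟩]⟩))

theorem ok30 : chk K t30 r9 = true := by decide +kernel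

noncomputable def t35 : Tre :=
  (.I [1,2,1,0,-1] (.S ⟨1,0,[],[1,0,0,0,-1],[0,-1],(⟨0,[(10,0)]⟩,⟨0,[(11,0)]⟩),⟨0,[(1,0),(4,0),(0,
  0)]⟩,.k,(.r (-1) ⟨0,[(25,0),(3,0)]⟩ ⟨1,[(15,0),(0,0),(10,1),(3,1)]⟩),⟨false,1,⟨1,[(8,0),(0,0),(19,
  0)]⟩,⟨0,[]⟩⟩,⟨true,0,⟨0,[(31,0)]⟩,⟨0,[]⟩⟩,⟨true,0,⟨0,[(27,0)]⟩,⟨0,[(26,0)]⟩⟩,⟨false,0,⟨0,[(27,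
  0)]⟩,⟨3,[(3,1),(4,0),(0,0),(19,2)]⟩⟩,[.o ⟨false,1,⟨0,[(8,0)]⟩,⟨1,[(2,1),(12,0),(0,0)]⟩⟩,.a ⟨true,
  1,⟨1,[(8,1),(15,0),(4,0)]⟩,⟨7,[(0,3),(1,7),(12,0),(0,0),(7,3),(5,1)]⟩⟩ ⟨true,1,⟨0,[(29,0)]⟩,⟨0,
  [(0,0)]⟩⟩ ⟨false,1,⟨1,[(28,0),(0,0)]⟩,⟨0,[(31,0)]⟩⟩,.o ⟨false,1,⟨0,[(8,0)]⟩,⟨1,[(2,1),(12,0),(0,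
  0)]⟩⟩,.o ⟨false,1,⟨1,[(8,1),(6,0),(0,0)]⟩,⟨0,[(2,0)]⟩⟩]⟩) (.Q [0,0,1,0,-1,0,0,0,1,0,0,1] (.p true
  [0,0,0,0,1] [] (⟨0,[(11,0)]⟩,⟨0,[(10,0)]⟩) .k 0 (⟨0,[]⟩,⟨0,[]⟩) .k .k) (.R ⟨0,false,false,false,
  [0,0,0,0,1],[1,-1,0,0,1],[0,1,0,-1],(⟨0,[(12,0)]⟩,⟨0,[(11,0)]⟩),(⟨0,[(12,0),(9,0)]⟩,⟨0,[(2,0)]⟩),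
  ⟨0,[(2,0)]⟩,.k,(.r 0 ⟨0,[(26,0)]⟩ ⟨1,[(9,0),(0,0),(5,0),(0,0),(10,1),(1,0)]⟩),(.r 0 ⟨0,[(26,0)]⟩
  ⟨1,[(9,0),(0,0),(5,0),(0,0),(10,1),(1,0)]⟩),.k,.k,.k,⟨true,0,⟨1,[(16,0),(0,0)]⟩,⟨0,[]⟩⟩,⟨false,0,
  ⟨9,[(9,3),(0,3),(14,4),(4,0),(1,1)]⟩,⟨1,[(21,0),(7,0)]⟩⟩,⟨false,1,⟨3,[(4,1),(4,0),(0,0),(19,2)]⟩,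
  ⟨0,[(28,0)]⟩⟩,⟨true,0,⟨9,[(4,3),(4,1),(0,1),(14,4),(1,1),(2,2)]⟩,⟨0,[(5,0)]⟩⟩,⟨false,0,⟨0,[]⟩,⟨0,
  []⟩⟩,⟨false,0,⟨0,[]⟩,⟨0,[]⟩⟩,[.o ⟨false,(-1),⟨0,[(0,0),(25,0)]⟩,⟨0,[(5,0),(3,0),(20,0)]⟩⟩,.e
  ⟨false,1,⟨3,[(4,1),(4,0),(0,0),(18,1),(0,0)]⟩,⟨0,[(28,0)]⟩⟩ ⟨false,0,⟨5,[(1,1),(2,1),(20,2),(0,1),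
  (2,0)]⟩,⟨1,[(5,1),(3,0),(0,0),(19,0)]⟩⟩,.o ⟨false,0,⟨2,[(0,0),(2,0),(6,0),(10,0)]⟩,⟨0,[(9,0)]⟩⟩,
  .a ⟨true,(-1),⟨0,[(0,0)]⟩,⟨1,[(9,1),(15,0),(3,0)]⟩⟩ ⟨true,0,⟨0,[(26,0)]⟩,⟨1,[(16,0),(0,0),(10,
  1)]⟩⟩ ⟨false,0,⟨5,[(1,1),(2,1),(20,2),(0,1),(2,0)]⟩,⟨1,[(5,1),(10,0),(0,0),(12,1)]⟩⟩]⟩) (.R ⟨0,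
  false,false,true,[0,1,0,0,-1],[1,0,0,0,-1],[0,0,1],(⟨0,[(2,0)]⟩,⟨0,[(12,0),(9,0)]⟩),(⟨0,[(11,0)]⟩,
  ⟨0,[(12,0)]⟩),⟨0,[(12,0)]⟩,(.r (-1) ⟨1,[(9,0),(0,0),(5,0),(0,0),(10,1),(1,0)]⟩ ⟨0,[(26,0)]⟩),.k,
  .k,.k,.k,.k,⟨true,0,⟨1,[(16,0),(0,0)]⟩,⟨0,[]⟩⟩,⟨false,0,⟨9,[(9,3),(0,3),(14,4),(4,0),(1,1)]⟩,⟨1,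
  [(21,0),(7,0)]⟩⟩,⟨true,0,⟨0,[(27,0)]⟩,⟨0,[(28,0)]⟩⟩,⟨false,0,⟨9,[(4,3),(4,1),(0,1),(14,4),(1,1),
  (2,2)]⟩,⟨0,[(5,0),(24,0)]⟩⟩,⟨false,0,⟨0,[]⟩,⟨0,[]⟩⟩,⟨false,0,⟨0,[]⟩,⟨0,[]⟩⟩,[.o ⟨false,1,⟨0,[(9,
  0)]⟩,⟨1,[(3,1),(12,0),(0,0)]⟩⟩,.e ⟨false,1,⟨1,[(9,0),(0,0),(19,0)]⟩,⟨3,[(0,0),(2,0),(1,0),(18,0),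
  (0,0),(0,0)]⟩⟩ ⟨false,0,⟨1,[(25,0),(4,0)]⟩,⟨3,[(9,0),(0,0),(10,1),(2,1),(4,0)]⟩⟩,.a ⟨true,1,⟨0,
  [(0,0)]⟩,⟨3,[(3,3),(12,2),(0,2),(7,3),(5,1)]⟩⟩ ⟨true,0,⟨1,[(16,0),(0,0)]⟩,⟨3,[(0,0),(2,0),(1,0),
  (18,0),(0,0),(0,0)]⟩⟩ ⟨false,0,⟨1,[(16,0),(0,0),(7,0),(4,0)]⟩,⟨1,[(21,0),(7,0)]⟩⟩,.e ⟨false,1,⟨1,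
  [(9,0),(0,0),(19,0)]⟩,⟨0,[]⟩⟩ ⟨false,0,⟨1,[(25,0),(4,0)]⟩,⟨1,[(9,0),(0,0),(10,0)]⟩⟩]⟩)))

theorem ok35 : chk K t35 r5 = true := by decide +kernel

noncomputable def t39 : Tre :=
  (.S ⟨1,0,[0,0,-1,-1],[1,-1],[0,1,-1,-1],(⟨0,[(19,0)]⟩,⟨0,[(20,0)]⟩),⟨0,[(4,0),(0,0)]⟩,.k,(.r (-1)
  ⟨0,[(1,0),(22,0)]⟩ ⟨2,[(0,3),(20,1),(3,1)]⟩),⟨true,0,⟨0,[(29,0)]⟩,⟨0,[]⟩⟩,⟨false,1,⟨1,[(6,0),(0,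
  0),(19,0)]⟩,⟨0,[]⟩⟩,⟨false,0,⟨0,[(25,0)]⟩,⟨0,[(24,0),(2,0)]⟩⟩,⟨true,0,⟨0,[(25,0)]⟩,⟨0,[(24,0)]⟩⟩,
  [.a ⟨true,0,⟨3,[(2,1),(3,0),(0,0),(14,0),(1,1)]⟩,⟨0,[(25,0)]⟩⟩ ⟨true,0,⟨0,[(23,0)]⟩,⟨0,[(0,0)]⟩⟩
  ⟨false,1,⟨1,[(1,0),(22,0),(1,0)]⟩,⟨2,[(0,1),(20,0),(3,0)]⟩⟩,.e ⟨false,1,⟨1,[(1,0),(22,0),(1,0)]⟩,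
  ⟨2,[(0,1),(20,0),(3,0)]⟩⟩ ⟨false,1,⟨0,[(1,0)]⟩,⟨0,[(0,0),(20,0)]⟩⟩,.o ⟨false,0,⟨1,[(0,0),(23,0)]⟩,
  ⟨1,[(18,0),(7,0)]⟩⟩,.e ⟨false,1,⟨1,[(1,0),(22,0),(1,0)]⟩,⟨0,[(0,0)]⟩⟩ ⟨false,1,⟨0,[(1,0)]⟩,⟨0,[(0,
  0),(28,0)]⟩⟩]⟩)

theorem ok39 : chk K t39 l21 = true := by decide +kernel

noncomputable def t40 : Tre :=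
  (.S ⟨1,0,[0,0,-1,-1],[1,-1],[0,0,1],(⟨0,[(20,0)]⟩,⟨0,[(21,0)]⟩),⟨0,[(5,0),(0,0)]⟩,.k,(.r (-1) ⟨0,
  [(2,0),(22,0)]⟩ ⟨0,[(0,0),(29,0)]⟩),⟨true,0,⟨0,[(0,0),(24,0)]⟩,⟨0,[(1,0)]⟩⟩,⟨false,1,⟨1,[(7,0),(0,
  0),(19,0)]⟩,⟨0,[]⟩⟩,⟨false,0,⟨0,[(0,0)]⟩,⟨0,[(2,0),(22,0)]⟩⟩,⟨true,0,⟨0,[(26,0)]⟩,⟨0,[(25,0)]⟩⟩,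
  [.a ⟨true,0,⟨3,[(3,1),(3,0),(0,0),(14,0),(1,1)]⟩,⟨0,[(26,0)]⟩⟩ ⟨true,0,⟨1,[(14,0),(0,0)]⟩,⟨0,[]⟩⟩
  ⟨false,1,⟨1,[(2,0),(22,0),(1,0)]⟩,⟨1,[(0,0),(29,0)]⟩⟩,.e ⟨false,1,⟨1,[(7,0),(0,0),(19,0)]⟩,⟨2,[(1,
  0),(20,0),(3,0)]⟩⟩ ⟨false,1,⟨0,[(2,0)]⟩,⟨1,[(0,0),(29,2)]⟩⟩,.o ⟨false,0,⟨1,[(14,0),(0,0)]⟩,⟨1,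
  [(19,0),(7,0)]⟩⟩,.o ⟨false,0,⟨0,[(14,0),(0,0)]⟩,⟨1,[(1,0),(0,0),(16,0),(6,1)]⟩⟩]⟩)

theorem ok40 : chk K t40 l22 = true := by decide +kernel

noncomputable def t41 : Tre :=
  (.I [0,1,-1,0,0,0,0,1] (.S ⟨1,0,[0,0,0,0,0,0,0,1],[0,0,1],[0,1,0,0,0,0,0,1],(⟨0,[(22,0)]⟩,⟨0,[(21,
  0)]⟩),⟨0,[(11,0)]⟩,.k,.k,⟨true,0,⟨0,[(35,0)]⟩,⟨0,[]⟩⟩,⟨false,1,⟨1,[(12,0),(0,0),(19,0)]⟩,⟨0,[]⟩⟩,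
  ⟨false,0,⟨0,[(31,0)]⟩,⟨0,[(30,0),(2,0)]⟩⟩,⟨true,0,⟨0,[(31,0)]⟩,⟨0,[(30,0)]⟩⟩,[.o ⟨false,1,⟨3,[(1,
  1),(10,0),(0,0),(3,1),(6,0)]⟩,⟨0,[(4,0)]⟩⟩,.o ⟨false,1,⟨0,[(1,0)]⟩,⟨0,[(18,0)]⟩⟩,.o ⟨false,1,⟨1,
  [(19,1),(4,0),(7,0)]⟩,⟨0,[(3,0)]⟩⟩,.a ⟨true,0,⟨0,[(19,0)]⟩,⟨0,[(16,0)]⟩⟩ ⟨true,0,⟨0,[(0,0)]⟩,⟨0,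
  [(4,0),(14,0)]⟩⟩ ⟨false,1,⟨0,[(0,0),(32,0)]⟩,⟨0,[(4,0),(14,0)]⟩⟩]⟩) (.S ⟨1,0,[0,1,0,0,0,0,0,1],[0,
  0,1],[1,0,0,-1,0,0,0,1],(⟨0,[(22,0)]⟩,⟨0,[(21,0)]⟩),⟨0,[(11,0)]⟩,.k,.k,⟨false,1,⟨0,[(30,0),(2,
  0)]⟩,⟨0,[(31,0)]⟩⟩,⟨true,0,⟨0,[(35,0)]⟩,⟨0,[]⟩⟩,⟨true,0,⟨0,[]⟩,⟨0,[(35,0)]⟩⟩,⟨false,0,⟨0,[(31,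
  0)]⟩,⟨0,[(30,0),(2,0)]⟩⟩,[.a ⟨true,0,⟨0,[(17,0)]⟩,⟨0,[(0,0),(15,0)]⟩⟩ ⟨false,1,⟨3,[(1,1),(0,1),(4,
  0),(1,1),(20,0),(1,0)]⟩,⟨2,[(0,2),(5,0),(20,0),(3,3)]⟩⟩ ⟨true,0,⟨0,[(3,0),(13,0)]⟩,⟨0,[(0,0)]⟩⟩,
  .o ⟨false,1,⟨3,[(1,1),(10,0),(0,0),(3,1),(6,0)]⟩,⟨0,[(4,0)]⟩⟩,.o ⟨false,1,⟨1,[(19,1),(4,0),(7,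
  0)]⟩,⟨0,[(3,0)]⟩⟩,.e ⟨false,1,⟨2,[(1,2),(3,0),(2,0),(0,0),(6,0)]⟩,⟨1,[(0,0),(17,0),(0,0),(11,
  1)]⟩⟩ ⟨false,1,⟨1,[(1,0),(7,0),(7,0),(14,0)]⟩,⟨0,[(0,0)]⟩⟩]⟩))

theorem ok41 : chk K t41 l26 = true := by decide +kernel

noncomputable def t42 : Tre :=
  (.I [0,0,0,1,0,0,0,-1] (.S ⟨1,0,[0,1,0,0,0,0,0,1],[0,0,1],[1,0,0,-1,0,0,0,1],(⟨0,[(23,0)]⟩,⟨0,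
  [(22,0)]⟩),⟨0,[(12,0)]⟩,.k,.k,⟨false,1,⟨0,[(31,0),(2,0)]⟩,⟨0,[(32,0)]⟩⟩,⟨true,0,⟨0,[(36,0)]⟩,⟨0,
  []⟩⟩,⟨true,0,⟨0,[]⟩,⟨0,[(36,0)]⟩⟩,⟨false,0,⟨0,[(32,0)]⟩,⟨0,[(31,0),(2,0)]⟩⟩,[.e ⟨false,1,⟨4,[(1,
  0),(1,3),(4,0),(1,1),(14,0),(7,0),(0,1)]⟩,⟨0,[(0,0)]⟩⟩ ⟨false,0,⟨0,[(1,0)]⟩,⟨2,[(0,0),(7,0),(10,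
  1),(0,1),(13,1)]⟩⟩,.o ⟨false,1,⟨1,[(18,1),(6,0),(8,0)]⟩,⟨0,[(5,0)]⟩⟩,.o ⟨false,1,⟨1,[(20,1),(4,0),
  (7,0)]⟩,⟨0,[(4,0)]⟩⟩,.a ⟨true,0,⟨0,[(20,0)]⟩,⟨0,[(17,0)]⟩⟩ ⟨false,1,⟨1,[(1,1),(7,1),(15,0),(8,
  0)]⟩,⟨1,[(0,1),(19,0),(0,0)]⟩⟩ ⟨true,0,⟨0,[(1,0)]⟩,⟨0,[(5,0),(14,0)]⟩⟩]⟩) (.Q [0,-1,0,1,1,0,1,1,0,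
  -1,1] (.p true [0,0,1] [1] (⟨0,[(23,0)]⟩,⟨0,[(22,0)]⟩) .k 1 (⟨0,[]⟩,⟨0,[]⟩) .k .k) (.R ⟨1,false,
  false,true,[0,0,1],[1,-1],[0,1,0,-1],(⟨0,[(24,0)]⟩,⟨0,[(23,0)]⟩),(⟨0,[(27,0)]⟩,⟨0,[(28,0)]⟩),⟨0,
  [(13,0)]⟩,.k,.k,.k,.k,.k,.k,⟨true,0,⟨1,[(21,0),(0,0)]⟩,⟨0,[]⟩⟩,⟨false,0,⟨19,[(11,9),(2,3),(0,3),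
  (14,4),(4,0),(1,1)]⟩,⟨1,[(8,0),(0,0),(11,1),(4,0),(6,1)]⟩⟩,⟨true,0,⟨1,[(6,0),(0,0),(12,0),(0,1)]⟩,
  ⟨0,[(1,0),(31,1)]⟩⟩,⟨false,0,⟨0,[(10,0),(9,0)]⟩,⟨0,[(0,0)]⟩⟩,⟨true,0,⟨1,[(6,0),(1,0),(11,0),(0,1),
  (11,0)]⟩,⟨0,[(1,0),(31,0)]⟩⟩,⟨true,(-1),⟨0,[(3,0)]⟩,⟨3,[(0,1),(3,1),(9,0),(0,0),(10,0)]⟩⟩,[.o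
  ⟨false,0,⟨0,[(32,0)]⟩,⟨0,[(0,0),(5,0)]⟩⟩,.e ⟨false,1,⟨1,[(32,1),(1,0),(0,0)]⟩,⟨0,[(33,0)]⟩⟩
  ⟨false,0,⟨2,[(7,0),(2,0),(0,0),(6,0)]⟩,⟨1,[(21,1),(4,0),(6,1),(0,0)]⟩⟩,.o ⟨false,1,⟨1,[(21,1),(4,
  0),(7,0)]⟩,⟨0,[(5,0)]⟩⟩,.a ⟨true,0,⟨0,[(21,0)]⟩,⟨0,[(18,0)]⟩⟩ ⟨true,0,⟨0,[(31,0)]⟩,⟨1,[(21,0),(0,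
  0),(10,1)]⟩⟩ ⟨false,0,⟨2,[(7,0),(2,0),(0,0),(6,0)]⟩,⟨0,[(0,0),(5,0),(14,0)]⟩⟩]⟩) (.Q [0,-1,0,0,0,
  0,-1,-1,-1,1,-1,-1] (.p false [0,0,1] [1,0,0,0,-1] (⟨0,[(24,0)]⟩,⟨0,[(23,0)]⟩) .k 2 (⟨0,[(16,0)]⟩,
  ⟨0,[(17,0)]⟩) .k (.r 0 ⟨1,[(2,0),(16,0),(2,0)]⟩ ⟨1,[(6,1),(14,1),(12,0),(0,0)]⟩)) (.Q [0,0,0,0,0,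
  1,0,0,0,-1,0,1] (.ed false [0,1,0,0,1] .k) (.Q [0,0,0,0,-1,0,-1,0,-1,2,-1,-1] (.p false [-1,0,1,0,
  1] [1] (⟨0,[(0,0),(14,0)]⟩,⟨0,[(18,0),(6,0)]⟩) .k 1 (⟨0,[]⟩,⟨0,[]⟩) .k (.r 0 ⟨1,[(4,0),(16,0),(2,
  0)]⟩ ⟨1,[(8,1),(14,1),(12,0),(0,0)]⟩)) (.R ⟨0,false,false,true,[1,0,0,0,-1],[1,0,1,0,-1],[1,0,1],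
  (⟨0,[(19,0)]⟩,⟨0,[(20,0)]⟩),(⟨0,[(19,0),(7,0)]⟩,⟨0,[(1,0),(13,0)]⟩),⟨0,[(1,0)]⟩,.k,.k,(.r (-1) ⟨1,
  [(12,0),(22,0),(2,0)]⟩ ⟨1,[(24,0),(0,0),(10,1),(3,1)]⟩),.k,.k,.k,⟨true,0,⟨0,[(9,0),(14,0)]⟩,⟨0,
  [(4,0),(31,0)]⟩⟩,⟨false,1,⟨0,[(24,0),(12,0)]⟩,⟨0,[(8,0)]⟩⟩,⟨false,0,⟨1,[(24,0),(0,0)]⟩,⟨1,[(37,0),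
  (0,0)]⟩⟩,⟨true,0,⟨0,[(22,0)]⟩,⟨0,[(9,0)]⟩⟩,⟨false,0,⟨0,[]⟩,⟨0,[]⟩⟩,⟨false,0,⟨0,[]⟩,⟨0,[]⟩⟩,[.e
  ⟨false,0,⟨0,[]⟩,⟨1,[(17,0),(0,0),(18,0)]⟩⟩ ⟨false,1,⟨1,[(22,1),(14,0),(0,0)]⟩,⟨0,[(9,0)]⟩⟩,.o
  ⟨false,1,⟨0,[(0,0),(3,0),(7,0),(11,1),(4,0),(6,1)]⟩,⟨0,[(6,0),(11,0),(10,0)]⟩⟩,.a ⟨true,0,⟨0,[(2,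
  0),(19,0)]⟩,⟨0,[(18,0)]⟩⟩ ⟨true,0,⟨1,[(24,0),(0,0)]⟩,⟨2,[(11,0),(20,0),(3,0)]⟩⟩ ⟨false,1,⟨0,[(22,
  0),(15,0)]⟩,⟨0,[(9,0)]⟩⟩,.o ⟨false,0,⟨0,[(0,0),(23,0),(4,0)]⟩,⟨1,[(18,1),(10,0),(7,0)]⟩⟩]⟩) (.R
  ⟨1,false,false,true,[0,0,1],[2,0,-1,0,-1],[0,1,0,0,0,0,0,1],(⟨0,[(27,0)]⟩,⟨0,[(26,0)]⟩),(⟨0,[(19,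
  0),(6,0)]⟩,⟨0,[(1,0),(14,0)]⟩),⟨0,[(16,0)]⟩,.k,.k,.k,.k,(.r 0 ⟨0,[(4,0),(0,0)]⟩ ⟨1,[(0,1),(1,1),
  (20,1),(0,1),(8,0),(2,1),(1,0)]⟩),.k,⟨false,0,⟨0,[(4,0),(0,0),(30,0)]⟩,⟨3,[(0,5),(1,5),(20,1),(0,
  1),(8,2),(3,0)]⟩⟩,⟨true,(-1),⟨0,[(2,0),(1,1),(1,0),(29,1)]⟩,⟨0,[(0,0),(23,0)]⟩⟩,⟨true,0,⟨0,[(40,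
  0)]⟩,⟨0,[]⟩⟩,⟨true,(-1),⟨0,[(2,0),(3,0)]⟩,⟨0,[(0,0),(3,0),(17,0),(13,0)]⟩⟩,⟨false,0,⟨0,[(36,0)]⟩,
  ⟨0,[(35,0),(2,0)]⟩⟩,⟨true,(-1),⟨0,[(2,0),(3,0),(29,0)]⟩,⟨0,[(0,0),(3,0),(17,0)]⟩⟩,[.o ⟨false,0,⟨1,
  [(2,0),(3,0),(10,0)]⟩,⟨0,[(0,0),(3,0),(31,0)]⟩⟩,.o ⟨false,0,⟨0,[(2,0)]⟩,⟨1,[(0,1),(4,0),(16,0),(2,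
  0)]⟩⟩,.o ⟨false,1,⟨1,[(24,1),(4,0),(7,0)]⟩,⟨0,[(8,0)]⟩⟩,.a ⟨true,0,⟨0,[(24,0)]⟩,⟨0,[(21,0)]⟩⟩
  ⟨true,0,⟨0,[(5,0)]⟩,⟨0,[(9,0),(14,0)]⟩⟩ ⟨false,0,⟨0,[(2,0),(18,0)]⟩,⟨0,[(0,0),(3,0),(19,0),(11,
  0)]⟩⟩]⟩)) (.Q [0,1,0,1,-1,0,-1,-1,-1,1,-1,-1] (.p false [0,0,1] [1,0,0,0,-1] (⟨0,[(26,0)]⟩,⟨0,
  [(25,0)]⟩) .k 2 (⟨0,[(18,0)]⟩,⟨0,[(19,0)]⟩) .k (.r 0 ⟨1,[(4,0),(16,0),(2,0)]⟩ ⟨1,[(8,1),(14,1),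
  (12,0),(0,0)]⟩)) (.R ⟨1,false,false,false,[1,0,0,0,-1],[0,-1,1],[],(⟨0,[(19,0)]⟩,⟨0,[(20,0)]⟩),
  (⟨0,[(16,0)]⟩,⟨0,[(26,0),(4,0)]⟩),⟨0,[(1,0)]⟩,.k,.k,(.r (-1) ⟨1,[(12,0),(22,0),(2,0)]⟩ ⟨1,[(24,0),
  (0,0),(10,1),(3,1)]⟩),(.r (-1) ⟨0,[(23,0),(0,0),(11,0),(1,0)]⟩ ⟨4,[(4,1),(0,2),(4,0),(24,0)]⟩),.k,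
  .k,⟨true,0,⟨0,[(9,0),(14,0),(11,0)]⟩,⟨0,[(4,0)]⟩⟩,⟨false,1,⟨1,[(18,1),(5,1),(4,0),(7,0)]⟩,⟨0,[(2,
  0),(2,0)]⟩⟩,⟨true,0,⟨0,[(40,0)]⟩,⟨0,[]⟩⟩,⟨false,1,⟨1,[(7,1),(10,1),(10,0),(8,0)]⟩,⟨0,[(0,0),(37,
  0)]⟩⟩,⟨false,0,⟨0,[(36,0)]⟩,⟨0,[(35,0),(2,0)]⟩⟩,⟨false,1,⟨1,[(18,1),(3,1),(6,0),(8,0)]⟩,⟨0,[(2,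
  0)]⟩⟩,[.o ⟨false,1,⟨1,[(7,1),(21,0),(8,0)]⟩,⟨0,[(9,0),(26,0)]⟩⟩,.e ⟨false,1,⟨1,[(37,0),(0,0)]⟩,⟨0,
  [(40,0)]⟩⟩ ⟨false,2,⟨1,[(7,1),(10,1),(10,0),(7,0),(0,1)]⟩,⟨0,[(0,0)]⟩⟩,.a ⟨true,0,⟨0,[(2,0),(19,
  0)]⟩,⟨0,[(18,0)]⟩⟩ ⟨false,1,⟨1,[(17,0),(0,0),(19,0)]⟩,⟨0,[]⟩⟩ ⟨true,1,⟨1,[(7,1),(10,1),(10,0),(8,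
  0)]⟩,⟨0,[(0,0)]⟩⟩,.o ⟨false,0,⟨1,[(0,1),(3,1),(19,1),(4,0),(8,0)]⟩,⟨1,[(18,1),(10,0),(7,0)]⟩⟩]⟩)
  (.Q [0,0,1,0,0,0,0,0,-1,0,0,-1] (.p false [0,0,0,0,1] [] (⟨0,[(20,0)]⟩,⟨0,[(19,0)]⟩) .k 0 (⟨0,[]⟩,
  ⟨0,[]⟩) .k .k) (.R ⟨1,false,false,false,[1,0,0,0,-1],[0,-1,1],[],(⟨0,[(20,0)]⟩,⟨0,[(21,0)]⟩),(⟨0,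
  [(17,0)]⟩,⟨0,[(27,0),(4,0)]⟩),⟨0,[(2,0)]⟩,.k,.k,(.r (-1) ⟨5,[(1,0),(9,0),(1,1),(0,0),(3,0),(5,0),
  (14,1)]⟩ ⟨1,[(25,0),(0,0),(10,1),(3,1)]⟩),(.r (-1) ⟨0,[(24,0),(0,0),(11,0),(1,0)]⟩ ⟨4,[(5,1),(0,
  2),(4,0),(24,0)]⟩),.k,.k,⟨true,0,⟨0,[(10,0),(14,0),(11,0)]⟩,⟨0,[(5,0)]⟩⟩,⟨false,1,⟨1,[(19,1),(5,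
  1),(4,0),(7,0)]⟩,⟨0,[(3,0),(2,0)]⟩⟩,⟨true,0,⟨0,[(41,0)]⟩,⟨0,[]⟩⟩,⟨false,1,⟨0,[(1,0),(39,0)]⟩,⟨0,
  [(3,0),(33,0)]⟩⟩,⟨false,0,⟨0,[(37,0)]⟩,⟨0,[(36,0),(2,0)]⟩⟩,⟨false,1,⟨3,[(1,1),(16,0),(0,2),(3,1),
  (6,0),(6,1)]⟩,⟨0,[(3,0)]⟩⟩,[.o ⟨false,1,⟨6,[(0,1),(0,2),(6,2),(4,0),(4,0),(4,0),(6,1)]⟩,⟨0,[(10,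
  0),(26,0)]⟩⟩,.a ⟨true,1,⟨0,[(8,0),(30,0)]⟩,⟨0,[(7,0),(29,0)]⟩⟩ ⟨false,1,⟨1,[(38,0),(0,0)]⟩,⟨0,
  [(41,0)]⟩⟩ ⟨true,1,⟨0,[(1,0)]⟩,⟨0,[(0,0),(6,0),(29,0)]⟩⟩,.e ⟨false,1,⟨1,[(18,0),(0,0),(19,0)]⟩,⟨0,
  []⟩⟩ ⟨false,1,⟨0,[(1,0)]⟩,⟨1,[(3,0),(3,0),(10,0),(18,1)]⟩⟩,.o ⟨false,0,⟨0,[(0,0)]⟩,⟨1,[(19,1),(10,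
  0),(7,0)]⟩⟩]⟩) (.Q [0,0,0,0,0,-2,0,0,0,1,0,-1] (.p false [0,0,0,0,1] [1] (⟨0,[(21,0)]⟩,⟨0,[(20,
  0)]⟩) .k 1 (⟨0,[]⟩,⟨0,[]⟩) .k .k) (.R ⟨1,false,false,false,[1,-1,0,0,-1],[1,-1,-1],[0,0,-1,-1],
  (⟨0,[(3,0)]⟩,⟨0,[(22,0),(10,0)]⟩),(⟨0,[(17,0)]⟩,⟨0,[(29,0),(3,0)]⟩),⟨0,[(0,0)]⟩,(.r (-1) ⟨5,[(2,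
  0),(9,0),(1,1),(0,0),(3,0),(5,0),(14,1)]⟩ ⟨1,[(26,0),(0,0),(10,1),(3,1)]⟩),.k,(.r (-1) ⟨0,[(12,0),
  (27,0)]⟩ ⟨0,[(26,0),(0,0),(10,1),(3,0)]⟩),.k,(.r (-1) ⟨15,[(2,1),(3,7),(0,5),(6,4),(0,0),(0,0),(2,
  1),(20,6)]⟩ ⟨0,[(25,0),(0,0),(11,0)]⟩),.k,⟨true,0,⟨0,[(6,0),(31,0)]⟩,⟨0,[(11,0),(14,0)]⟩⟩,⟨false,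
  0,⟨0,[(1,0),(8,0)]⟩,⟨3,[(4,1),(8,0),(0,0),(4,1),(4,1),(1,3),(4,0),(6,1)]⟩⟩,⟨true,0,⟨0,[(42,0)]⟩,
  ⟨0,[]⟩⟩,⟨false,0,⟨0,[(11,0),(8,0)]⟩,⟨1,[(4,1),(1,3),(6,0),(0,0),(11,3),(4,0),(6,5)]⟩⟩,⟨false,0,⟨0,
  [(38,0)]⟩,⟨0,[(37,0),(2,0)]⟩⟩,⟨false,0,⟨0,[(11,0),(8,0),(17,0)]⟩,⟨1,[(4,1),(1,3),(6,0),(0,0),(11,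
  3),(4,0),(6,3)]⟩⟩,[.o ⟨false,0,⟨1,[(5,1),(25,0),(8,0)]⟩,⟨1,[(24,1),(6,0),(6,1),(1,0)]⟩⟩,.e ⟨false,
  1,⟨0,[(14,0)]⟩,⟨1,[(26,0),(0,0),(10,1),(3,1)]⟩⟩ ⟨false,1,⟨0,[(11,0),(2,0),(5,0)]⟩,⟨0,[(4,0),(1,2),
  (1,0),(4,0),(12,2),(4,0),(6,4)]⟩⟩,.a ⟨true,0,⟨1,[(4,1),(19,1),(1,0),(0,0)]⟩,⟨0,[(1,0)]⟩⟩ ⟨false,1,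
  ⟨5,[(2,0),(9,0),(1,1),(0,0),(3,0),(5,0),(14,1)]⟩,⟨1,[(26,0),(0,0),(10,1)]⟩⟩ ⟨true,0,⟨1,[(1,1),(3,
  1),(25,0),(8,0)]⟩,⟨0,[(4,0),(1,2),(1,0),(4,0),(12,2),(4,0),(6,4)]⟩⟩,.o ⟨false,0,⟨0,[(4,0),(1,1),
  (1,0),(17,1),(4,0),(6,1)]⟩,⟨1,[(1,1),(29,0),(7,0)]⟩⟩]⟩) (.R ⟨0,false,false,false,[1,-1,0,0,-1],[1,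
  -1,-1],[0,0,-1,-1],(⟨0,[(3,0)]⟩,⟨19,[(0,9),(18,3),(0,3),(1,9),(12,4),(4,0),(1,1)]⟩),(⟨0,[(17,0)]⟩,
  ⟨1,[(0,0),(20,0),(7,1)]⟩),⟨0,[(0,0)]⟩,(.r (-1) ⟨5,[(2,0),(9,0),(1,1),(0,0),(3,0),(5,0),(14,1)]⟩
  ⟨1,[(26,0),(0,0),(10,1),(3,1)]⟩),.k,(.r (-1) ⟨0,[(12,0),(27,0)]⟩ ⟨0,[(26,0),(0,0),(10,1),(3,0)]⟩),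
  .k,.k,.k,⟨true,0,⟨0,[(6,0),(31,0)]⟩,⟨0,[(11,0),(14,0)]⟩⟩,⟨false,0,⟨0,[(1,0),(8,0)]⟩,⟨3,[(4,1),(8,
  0),(0,0),(4,1),(4,1),(1,3),(4,0),(6,1)]⟩⟩,⟨true,0,⟨0,[(42,0)]⟩,⟨0,[]⟩⟩,⟨false,0,⟨0,[(11,0),(8,
  0)]⟩,⟨1,[(4,1),(1,3),(6,0),(0,0),(11,3),(4,0),(6,5)]⟩⟩,⟨false,0,⟨0,[]⟩,⟨0,[]⟩⟩,⟨false,0,⟨0,[]⟩,⟨0,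
  []⟩⟩,[.o ⟨false,0,⟨1,[(5,1),(25,0),(8,0)]⟩,⟨1,[(24,1),(6,0),(6,1),(1,0)]⟩⟩,.e ⟨false,1,⟨0,[(14,
  0)]⟩,⟨1,[(26,0),(0,0),(10,1),(3,1)]⟩⟩ ⟨false,1,⟨0,[(11,0),(2,0),(5,0)]⟩,⟨0,[(4,0),(1,2),(1,0),(4,
  0),(12,2),(4,0),(6,4)]⟩⟩,.a ⟨true,0,⟨1,[(4,1),(19,1),(1,0),(0,0)]⟩,⟨0,[(1,0)]⟩⟩ ⟨false,1,⟨5,[(2,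
  0),(9,0),(1,1),(0,0),(3,0),(5,0),(14,1)]⟩,⟨1,[(26,0),(0,0),(10,1)]⟩⟩ ⟨true,0,⟨1,[(1,1),(3,1),(25,
  0),(8,0)]⟩,⟨0,[(4,0),(1,2),(1,0),(4,0),(12,2),(4,0),(6,4)]⟩⟩,.o ⟨false,0,⟨0,[(4,0),(1,1),(1,0),
  (17,1),(4,0),(6,1)]⟩,⟨1,[(1,1),(29,0),(7,0)]⟩⟩]⟩))))) (.Q [0,0,-1,0,0,0,0,0,1,-1,0,1] (.p true [0,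
  0,0,0,1] [1] (⟨0,[(18,0)]⟩,⟨0,[(17,0)]⟩) .k 1 (⟨0,[]⟩,⟨0,[]⟩) .k .k) (.Q [0,0,0,0,0,-1,0,0,0,1,0,
  -1] (.ed true [0,1,0,0,1] .k) (.I [0,2,1,1,-1] (.S ⟨1,0,[],[1,0,0,0,-1],[1,-1,0,-1],(⟨0,[(20,0)]⟩,
  ⟨0,[(21,0)]⟩),⟨0,[(1,0)]⟩,.k,(.r (-1) ⟨1,[(13,0),(22,0),(2,0)]⟩ ⟨3,[(0,1),(17,1),(0,1),(5,0),(0,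
  0),(10,1)]⟩),⟨false,1,⟨0,[(36,0),(2,0)]⟩,⟨0,[(37,0)]⟩⟩,⟨true,0,⟨0,[(41,0)]⟩,⟨0,[]⟩⟩,⟨true,0,⟨0,
  []⟩,⟨0,[(41,0)]⟩⟩,⟨false,0,⟨0,[(37,0)]⟩,⟨0,[(36,0),(2,0)]⟩⟩,[.o ⟨false,1,⟨0,[(18,0)]⟩,⟨1,[(2,1),
  (22,0),(0,0)]⟩⟩,.a ⟨true,1,⟨1,[(18,1),(15,0),(4,0)]⟩,⟨4,[(0,1),(1,4),(1,0),(0,0),(19,1),(0,0),(7,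
  1)]⟩⟩ ⟨true,1,⟨1,[(14,1),(15,0),(8,0)]⟩,⟨0,[(0,0)]⟩⟩ ⟨false,1,⟨1,[(38,0),(0,0)]⟩,⟨0,[(41,0)]⟩⟩,.o
  ⟨false,1,⟨0,[(18,0)]⟩,⟨1,[(2,1),(22,0),(0,0)]⟩⟩,.o ⟨false,1,⟨1,[(18,1),(6,0),(0,0)]⟩,⟨0,[(2,
  0)]⟩⟩]⟩) (.Q [0,0,0,-1,1,0,0,0,-1,0,0,-1] (.p false [0,0,0,0,1] [] (⟨0,[(21,0)]⟩,⟨0,[(20,0)]⟩) .k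
  0 (⟨0,[]⟩,⟨0,[]⟩) .k .k) (.Q [0,0,0,0,0,-1,0,0,0,-1,1,1] (.p true [0,0,1] [1,0,0,0,-1] (⟨0,[(29,
  0)]⟩,⟨0,[(28,0)]⟩) .k 2 (⟨0,[(21,0)]⟩,⟨0,[(22,0)]⟩) .k (.r 0 ⟨1,[(7,0),(16,0),(2,0)]⟩ ⟨1,[(11,1),
  (14,1),(12,0),(0,0)]⟩)) (.Q [0,0,0,0,1,0,1,0,-1,0,1,-1] (.p true [0,0,1] [0,0,0,0,1] (⟨0,[(30,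
  0)]⟩,⟨0,[(29,0)]⟩) .k 2 (⟨0,[(23,0)]⟩,⟨0,[(22,0)]⟩) .k (.r (-1) ⟨1,[(8,0),(16,0),(2,0),(12,1)]⟩
  ⟨1,[(12,0),(1,0),(11,0),(0,1),(11,0)]⟩)) (.R ⟨1,false,false,false,[-1,0,1,0,1],[0,0,0,0,1],[0,1,0,
  0,0,0,0,1],(⟨0,[(1,0),(33,0)]⟩,⟨0,[(23,0),(6,0)]⟩),(⟨0,[(24,0)]⟩,⟨0,[(23,0)]⟩),⟨0,[(1,0)]⟩,.k,.k,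
  (.r 0 ⟨4,[(8,1),(0,2),(4,0),(24,0)]⟩ ⟨0,[(27,0),(0,0),(11,0),(1,0)]⟩),.k,.k,.k,⟨true,0,⟨0,[(8,0),
  (31,0)]⟩,⟨0,[(13,0),(14,0)]⟩⟩,⟨false,0,⟨0,[(25,0)]⟩,⟨2,[(0,1),(4,0),(16,0),(5,0),(4,0)]⟩⟩,⟨false,
  1,⟨1,[(21,0),(0,0),(19,0)]⟩,⟨0,[]⟩⟩,⟨false,0,⟨0,[(10,0),(31,0)]⟩,⟨1,[(26,1),(6,0),(8,0)]⟩⟩,⟨true,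
  0,⟨0,[(40,0)]⟩,⟨0,[(39,0)]⟩⟩,⟨false,0,⟨0,[(10,0),(29,0),(1,0)]⟩,⟨1,[(11,1),(21,0),(8,0)]⟩⟩,[.a
  ⟨true,(-1),⟨0,[(5,0),(2,0),(1,0),(17,0),(11,0)]⟩,⟨1,[(21,1),(15,0),(4,0)]⟩⟩ ⟨false,0,⟨0,[(9,0)]⟩,
  ⟨1,[(13,1),(14,1),(12,0),(0,0)]⟩⟩ ⟨true,(-1),⟨0,[(8,0),(1,0),(29,0)]⟩,⟨1,[(28,1),(4,0),(8,0)]⟩⟩,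
  .o ⟨false,0,⟨1,[(5,1),(22,0),(0,0)]⟩,⟨0,[(21,0)]⟩⟩,.a ⟨true,0,⟨0,[(5,0),(22,0)]⟩,⟨0,[(2,0),(9,0),
  (24,0),(2,0)]⟩⟩ ⟨false,0,⟨0,[(8,0),(31,0)]⟩,⟨1,[(13,1),(14,1),(12,0),(0,0)]⟩⟩ ⟨true,(-1),⟨0,[(8,
  0),(1,0),(29,0)]⟩,⟨2,[(0,1),(4,0),(16,0),(5,0),(4,0)]⟩⟩,.a ⟨true,0,⟨1,[(5,1),(22,2),(0,0)]⟩,⟨0,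
  [(0,0),(2,0),(4,1),(1,1),(29,2)]⟩⟩ ⟨true,0,⟨0,[(9,0)]⟩,⟨0,[(13,0),(14,0)]⟩⟩ ⟨false,0,⟨0,[(25,0)]⟩,
  ⟨1,[(28,1),(4,0),(8,0)]⟩⟩]⟩) (.S ⟨1,0,[0,1],[0,0,0,0,1],[0,2],(⟨0,[(24,0)]⟩,⟨0,[(23,0)]⟩),⟨1,[(1,
  0),(17,0),(4,0)]⟩,.k,(.r 0 ⟨0,[(38,0)]⟩ ⟨1,[(21,0),(0,0),(5,0),(0,0),(10,1),(1,0)]⟩),⟨true,0,⟨0,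
  [(44,0)]⟩,⟨0,[]⟩⟩,⟨false,1,⟨1,[(21,0),(0,0),(19,0)]⟩,⟨0,[]⟩⟩,⟨false,0,⟨0,[(40,0)]⟩,⟨0,[(39,0),(2,
  0)]⟩⟩,⟨true,0,⟨0,[(40,0)]⟩,⟨0,[(39,0)]⟩⟩,[.e ⟨false,0,⟨0,[(36,0)]⟩,⟨0,[(42,0)]⟩⟩ ⟨false,0,⟨2,[(15,
  0),(20,0),(3,0)]⟩,⟨1,[(21,0),(0,0),(19,0)]⟩⟩,.o ⟨false,0,⟨2,[(0,0),(4,0),(16,0),(5,0),(4,0)]⟩,⟨0,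
  [(21,0)]⟩⟩,.o ⟨false,0,⟨2,[(0,0),(4,0),(16,0),(5,0),(4,0)]⟩,⟨0,[(21,0)]⟩⟩,.a ⟨true,(-1),⟨0,[(0,0),
  (27,0)]⟩,⟨1,[(21,1),(15,0),(3,0)]⟩⟩ ⟨false,0,⟨2,[(15,0),(20,0),(3,0)]⟩,⟨1,[(28,0),(0,0),(12,1)]⟩⟩
  ⟨true,0,⟨2,[(15,0),(20,0),(3,0)]⟩,⟨1,[(28,0),(0,0)]⟩⟩]⟩)) (.Q [0,0,0,0,0,0,0,0,0,-1,1,1] (.ed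
  false [0,0,1,0,1] (.r 0 ⟨1,[(8,0),(16,0),(2,0)]⟩ ⟨1,[(12,1),(14,1),(12,0),(0,0)]⟩)) (.Q [0,0,0,0,
  1,0,1,0,-1,0,1,-1] (.p true [0,0,1] [0,0,0,0,1] (⟨0,[(31,0)]⟩,⟨0,[(30,0)]⟩) .k 2 (⟨0,[(24,0)]⟩,⟨0,
  [(23,0)]⟩) .k (.r (-1) ⟨1,[(9,0),(16,0),(2,0),(12,1)]⟩ ⟨1,[(13,0),(1,0),(11,0),(0,1),(11,0)]⟩))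
  (.R ⟨0,false,false,false,[-1,0,1,0,1],[0,0,0,0,1],[0,1,1],(⟨0,[(1,0)]⟩,⟨0,[(2,0),(32,0)]⟩),(⟨0,
  [(25,0)]⟩,⟨0,[(24,0)]⟩),⟨0,[(2,0)]⟩,.k,.k,(.r 0 ⟨4,[(9,1),(0,2),(4,0),(24,0)]⟩ ⟨0,[(28,0),(0,0),
  (11,0),(1,0)]⟩),.k,.k,.k,⟨true,0,⟨1,[(29,0),(0,0)]⟩,⟨0,[]⟩⟩,⟨false,0,⟨0,[(26,0)]⟩,⟨2,[(0,1),(5,0),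
  (16,0),(5,0),(4,0)]⟩⟩,⟨true,0,⟨0,[(14,0),(14,0)]⟩,⟨0,[(10,0)]⟩⟩,⟨false,0,⟨0,[(11,0),(31,0)]⟩,⟨1,
  [(27,1),(6,0),(8,0)]⟩⟩,⟨false,0,⟨0,[]⟩,⟨0,[]⟩⟩,⟨false,0,⟨0,[]⟩,⟨0,[]⟩⟩,[.a ⟨true,(-1),⟨0,[(6,0),
  (2,0),(1,0),(17,0),(11,0)]⟩,⟨1,[(22,1),(15,0),(4,0)]⟩⟩ ⟨false,0,⟨0,[(45,0)]⟩,⟨1,[(42,0),(0,0)]⟩⟩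
  ⟨true,(-1),⟨0,[(9,0),(1,0),(29,0)]⟩,⟨1,[(29,1),(4,0),(8,0)]⟩⟩,.o ⟨false,0,⟨1,[(6,1),(22,0),(0,
  0)]⟩,⟨0,[(22,0)]⟩⟩,.a ⟨true,0,⟨0,[(6,0),(22,0)]⟩,⟨0,[(3,0),(9,0),(24,0),(2,0)]⟩⟩ ⟨false,0,⟨1,[(29,
  0),(0,0)]⟩,⟨1,[(42,0),(0,0)]⟩⟩ ⟨true,(-1),⟨0,[(9,0),(1,0),(29,0)]⟩,⟨2,[(0,1),(5,0),(16,0),(5,0),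
  (4,0)]⟩⟩,.a ⟨true,0,⟨1,[(6,1),(22,2),(0,0)]⟩,⟨0,[(0,0),(3,0),(4,1),(1,1),(29,2)]⟩⟩ ⟨true,0,⟨0,
  [(45,0)]⟩,⟨0,[]⟩⟩ ⟨false,0,⟨0,[(26,0)]⟩,⟨1,[(29,1),(4,0),(8,0)]⟩⟩]⟩) (.S ⟨1,0,[0,1],[0,0,0,0,1],
  [0,2],(⟨0,[(25,0)]⟩,⟨0,[(24,0)]⟩),⟨0,[(1,0),(18,0)]⟩,.k,(.r 0 ⟨0,[(39,0)]⟩ ⟨1,[(22,0),(0,0),(5,0),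
  (0,0),(10,1),(1,0)]⟩),⟨true,0,⟨0,[(45,0)]⟩,⟨0,[]⟩⟩,⟨false,1,⟨1,[(22,0),(0,0),(19,0)]⟩,⟨0,[]⟩⟩,
  ⟨false,0,⟨0,[(41,0)]⟩,⟨0,[(40,0),(2,0)]⟩⟩,⟨true,0,⟨0,[(41,0)]⟩,⟨0,[(40,0)]⟩⟩,[.e ⟨false,0,⟨0,[(37,
  0)]⟩,⟨0,[(43,0)]⟩⟩ ⟨false,0,⟨2,[(16,0),(20,0),(3,0)]⟩,⟨1,[(22,0),(0,0),(19,0)]⟩⟩,.o ⟨false,0,⟨2,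
  [(0,0),(5,0),(16,0),(5,0),(4,0)]⟩,⟨0,[(22,0)]⟩⟩,.o ⟨false,0,⟨2,[(0,0),(5,0),(16,0),(5,0),(4,0)]⟩,
  ⟨0,[(22,0)]⟩⟩,.a ⟨true,(-1),⟨0,[(0,0),(28,0)]⟩,⟨1,[(22,1),(15,0),(3,0)]⟩⟩ ⟨false,0,⟨2,[(16,0),(20,
  0),(3,0)]⟩,⟨1,[(29,0),(0,0),(12,1)]⟩⟩ ⟨true,0,⟨2,[(16,0),(20,0),(3,0)]⟩,⟨1,[(29,0),(0,0)]⟩⟩]⟩))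
  (.Q [0,0,-1,0,1,0,-1,0,-1,0,-1,-1] (.p false [0,0,1,0,1] [] (⟨0,[(24,0),(6,0)]⟩,⟨0,[(0,0)]⟩) .k 0
  (⟨0,[]⟩,⟨0,[]⟩) .k (.r 0 ⟨1,[(9,0),(16,0),(2,0)]⟩ ⟨1,[(13,1),(14,1),(12,0),(0,0)]⟩)) (.R ⟨1,false,
  false,true,[0,0,1,0,1],[0,0,0,0,1],[0,1,0,0,0,0,0,1],(⟨0,[(25,0),(6,0)]⟩,⟨0,[(1,0)]⟩),(⟨0,[(25,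
  0)]⟩,⟨0,[(24,0)]⟩),⟨0,[(21,0),(3,0)]⟩,.k,.k,(.r 0 ⟨4,[(9,1),(0,2),(4,0),(24,0)]⟩ ⟨0,[(28,0),(0,0),
  (11,0),(1,0)]⟩),.k,.k,.k,⟨false,1,⟨0,[(10,0),(32,0)]⟩,⟨1,[(14,0),(1,0),(11,0),(0,1),(11,0)]⟩⟩,
  ⟨true,0,⟨0,[(13,0)]⟩,⟨0,[(29,0)]⟩⟩,⟨false,1,⟨1,[(22,0),(0,0),(19,0)]⟩,⟨0,[]⟩⟩,⟨false,0,⟨0,[(14,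
  0)]⟩,⟨0,[(27,0),(15,0)]⟩⟩,⟨true,0,⟨0,[(41,0)]⟩,⟨0,[(40,0)]⟩⟩,⟨false,0,⟨0,[(14,0),(26,0)]⟩,⟨0,[(12,
  0),(30,0)]⟩⟩,[.e ⟨false,0,⟨0,[(10,0)]⟩,⟨1,[(14,1),(14,1),(12,0),(0,0)]⟩⟩ ⟨false,0,⟨0,[(10,0),(17,
  0)]⟩,⟨0,[(4,0),(24,0),(11,0)]⟩⟩,.a ⟨true,(-1),⟨0,[(6,0),(2,0),(1,0),(17,0),(11,0)]⟩,⟨1,[(22,1),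
  (15,0),(4,0)]⟩⟩ ⟨true,0,⟨0,[(9,0),(31,0)]⟩,⟨0,[(14,0),(14,0)]⟩⟩ ⟨false,0,⟨3,[(0,0),(5,0),(3,1),(0,
  0),(1,0),(14,0)]⟩,⟨1,[(29,1),(12,0),(0,0)]⟩⟩,.o ⟨false,0,⟨0,[(6,0),(22,0)]⟩,⟨1,[(0,0),(21,0),(7,
  0)]⟩⟩,.o ⟨false,0,⟨1,[(6,1),(22,2),(0,0)]⟩,⟨0,[(0,0)]⟩⟩]⟩) (.K ⟨0,[0,0,1,0,1],(-1),(-1),(⟨0,[(25,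
  0),(6,0)]⟩,⟨0,[(1,0)]⟩),.k,(.r 0 ⟨4,[(9,1),(0,2),(4,0),(24,0)]⟩ ⟨0,[(28,0),(0,0),(11,0),(1,0)]⟩),
  (.r 0 ⟨0,[(27,0),(2,0),(10,0)]⟩ ⟨0,[(14,0),(2,0),(11,0)]⟩),.k,.k,[⟨0,[(22,0)]⟩,⟨0,[(0,0)]⟩,⟨0,
  [(14,0),(7,0)]⟩,⟨1,[(0,0),(6,0),(2,0),(0,0),(15,0)]⟩]⟩)))) (.Q [0,0,0,0,0,0,0,0,0,0,1,-1] (.ed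
  true [1,0,-1,0,1] (.r 0 ⟨1,[(11,0),(1,0),(11,0),(0,1),(11,0)]⟩ ⟨1,[(7,0),(16,0),(2,0),(12,1)]⟩))
  (.R ⟨1,false,false,false,[0,0,1],[0,0,1,0,-1],[1,0,0,-1,0,0,0,1],(⟨0,[(30,0)]⟩,⟨0,[(29,0)]⟩),(⟨0,
  [(0,0)]⟩,⟨0,[(23,0),(5,0)]⟩),⟨0,[(19,0)]⟩,.k,.k,.k,.k,(.r 0 ⟨0,[(37,0)]⟩ ⟨1,[(20,0),(0,0),(5,0),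
  (0,0),(10,1),(1,0)]⟩),.k,⟨false,0,⟨4,[(13,1),(21,0),(2,0)]⟩,⟨1,[(20,0),(0,0),(17,1),(1,0)]⟩⟩,
  ⟨true,1,⟨0,[(20,0)]⟩,⟨2,[(1,2),(4,0),(0,0),(8,0),(10,1),(0,0),(3,0)]⟩⟩,⟨false,1,⟨0,[(38,0),(2,
  0)]⟩,⟨0,[(39,0)]⟩⟩,⟨false,2,⟨0,[(20,0),(20,0)]⟩,⟨1,[(1,0),(3,0),(0,0)]⟩⟩,⟨true,0,⟨0,[]⟩,⟨0,[(43,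
  0)]⟩⟩,⟨false,2,⟨0,[(20,0),(18,0),(1,0)]⟩,⟨3,[(1,0),(2,1),(0,0),(0,2),(0,1),(19,1)]⟩⟩,[.a ⟨true,2,
  ⟨0,[(20,0),(4,0),(15,0)]⟩,⟨0,[(1,0),(4,0)]⟩⟩ ⟨true,0,⟨0,[(7,0)]⟩,⟨0,[(12,0),(14,0),(11,0)]⟩⟩
  ⟨false,2,⟨0,[(8,0),(11,0),(20,0)]⟩,⟨0,[(4,0),(4,0),(17,0)]⟩⟩,.e ⟨false,1,⟨1,[(7,1),(32,0),(0,0)]⟩,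
  ⟨1,[(12,0),(1,0),(11,0),(0,1),(11,2)]⟩⟩ ⟨false,2,⟨0,[(2,0),(4,0),(12,0),(18,1)]⟩,⟨1,[(1,0),(2,0),
  (1,0),(19,0),(0,1),(7,0)]⟩⟩,.o ⟨false,1,⟨1,[(27,1),(4,0),(7,0)]⟩,⟨0,[(11,0)]⟩⟩,.e ⟨false,1,⟨1,[(7,
  1),(32,0),(0,0)]⟩,⟨0,[(12,0),(14,0),(11,0)]⟩⟩ ⟨false,2,⟨0,[(2,0),(4,0),(12,0),(18,1)]⟩,⟨2,[(1,1),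
  (4,1),(14,0),(4,0),(0,2),(4,0)]⟩⟩]⟩) (.S ⟨1,0,[0,1],[0,0,0,0,1],[0,2],(⟨0,[(23,0)]⟩,⟨0,[(22,0)]⟩),
  ⟨0,[(0,0),(18,0)]⟩,.k,(.r 0 ⟨0,[(37,0)]⟩ ⟨1,[(20,0),(0,0),(5,0),(0,0),(10,1),(1,0)]⟩),⟨true,0,⟨0,
  [(43,0)]⟩,⟨0,[]⟩⟩,⟨false,1,⟨1,[(20,0),(0,0),(19,0)]⟩,⟨0,[]⟩⟩,⟨false,0,⟨0,[(39,0)]⟩,⟨0,[(38,0),(2,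
  0)]⟩⟩,⟨true,0,⟨0,[(39,0)]⟩,⟨0,[(38,0)]⟩⟩,[.e ⟨false,0,⟨0,[(35,0)]⟩,⟨0,[(41,0)]⟩⟩ ⟨false,0,⟨2,[(14,
  0),(20,0),(3,0)]⟩,⟨1,[(20,0),(0,0),(19,0)]⟩⟩,.o ⟨false,0,⟨1,[(4,1),(22,0),(0,0)]⟩,⟨0,[(20,0)]⟩⟩,
  .o ⟨false,0,⟨1,[(4,1),(22,0),(0,0)]⟩,⟨0,[(20,0)]⟩⟩,.a ⟨true,(-1),⟨2,[(1,2),(4,0),(0,0),(8,0),(10,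
  1),(0,0),(3,0)]⟩,⟨1,[(20,1),(15,0),(3,0)]⟩⟩ ⟨false,0,⟨2,[(14,0),(20,0),(3,0)]⟩,⟨1,[(27,0),(0,0),
  (12,1)]⟩⟩ ⟨true,0,⟨2,[(14,0),(20,0),(3,0)]⟩,⟨1,[(27,0),(0,0)]⟩⟩]⟩)))) (.Q [0,0,1,0,0,0,-1,0,-1,1,
  -1,-1] (.p false [-1,0,1,0,1] [] (⟨0,[(0,0),(15,0)]⟩,⟨0,[(19,0),(6,0)]⟩) .k 0 (⟨0,[]⟩,⟨0,[]⟩) .k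
  (.r 0 ⟨1,[(5,0),(16,0),(2,0)]⟩ ⟨1,[(9,1),(14,1),(12,0),(0,0)]⟩)) (.R ⟨1,false,false,false,[2,0,-1,
  0,-1],[1,1,-1],[0,0,0,0,0,0,0,-1],(⟨0,[(20,0),(6,0)]⟩,⟨0,[(1,0),(15,0)]⟩),(⟨0,[(27,0),(4,0)]⟩,⟨0,
  [(17,0)]⟩),⟨0,[(16,0),(3,0)]⟩,.k,.k,(.r (-1) ⟨0,[(10,0),(2,0),(11,0)]⟩ ⟨0,[(23,0),(2,0),(10,0)]⟩),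
  (.r (-1) ⟨1,[(13,0),(22,0),(2,0)]⟩ ⟨1,[(25,0),(0,0),(10,1),(3,1)]⟩),(.r (-1) ⟨0,[(11,0),(27,0)]⟩
  ⟨0,[(25,0),(0,0),(10,1),(3,0)]⟩),.k,⟨false,1,⟨1,[(13,0),(22,0),(1,0)]⟩,⟨1,[(25,0),(0,0),(10,1)]⟩⟩,
  ⟨true,0,⟨0,[(2,0)]⟩,⟨0,[(0,0),(24,0)]⟩⟩,⟨true,0,⟨0,[(41,0)]⟩,⟨0,[]⟩⟩,⟨false,0,⟨1,[(2,1),(22,0),(0,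
  0),(10,1)]⟩,⟨0,[(14,0),(3,0)]⟩⟩,⟨false,0,⟨0,[(37,0)]⟩,⟨0,[(36,0),(2,0)]⟩⟩,⟨false,0,⟨1,[(2,1),(22,
  0),(0,0),(10,3)]⟩,⟨2,[(0,0),(10,0),(2,3),(3,1),(6,0),(4,0)]⟩⟩,[.o ⟨false,0,⟨0,[(10,0),(26,0)]⟩,⟨1,
  [(8,1),(21,0),(8,0)]⟩⟩,.e ⟨false,1,⟨0,[(10,0),(2,0),(11,0),(11,0)]⟩,⟨1,[(6,0),(16,0),(2,0)]⟩⟩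
  ⟨false,1,⟨1,[(2,1),(7,1),(14,1),(11,1),(0,0),(0,0)]⟩,⟨0,[(0,0),(4,0),(6,0),(12,0),(11,0)]⟩⟩,.a
  ⟨true,0,⟨1,[(0,1),(33,0),(3,0)]⟩,⟨0,[(2,0),(22,0)]⟩⟩ ⟨false,1,⟨1,[(10,1),(14,1),(12,0),(0,0)]⟩,⟨0,
  [(5,0),(31,0)]⟩⟩ ⟨true,0,⟨0,[(2,0),(7,0),(14,0),(11,0)]⟩,⟨0,[(0,0),(4,0),(6,0),(12,0),(11,0)]⟩⟩,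
  .o ⟨false,0,⟨0,[(0,0)]⟩,⟨1,[(2,1),(22,1),(4,0),(7,0)]⟩⟩]⟩) (.R ⟨0,false,false,true,[1,0,0,0,-1],
  [2,0,-1,0,-1],[1],(⟨0,[(20,0)]⟩,⟨0,[(21,0)]⟩),(⟨0,[(20,0),(6,0)]⟩,⟨0,[(1,0),(15,0)]⟩),⟨0,[(1,0)]⟩,
  .k,.k,(.r (-1) ⟨1,[(13,0),(22,0),(2,0)]⟩ ⟨1,[(25,0),(0,0),(10,1),(3,1)]⟩),.k,.k,.k,⟨true,0,⟨0,[(5,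
  0),(31,0)]⟩,⟨0,[(10,0),(14,0)]⟩⟩,⟨false,0,⟨0,[(22,0)]⟩,⟨1,[(25,1),(4,0),(7,0)]⟩⟩,⟨false,0,⟨0,[]⟩,
  ⟨1,[(18,0),(0,0),(19,0)]⟩⟩,⟨true,(-1),⟨0,[(7,0)]⟩,⟨1,[(23,1),(6,0),(8,0)]⟩⟩,⟨false,0,⟨0,[]⟩,⟨0,
  []⟩⟩,⟨false,0,⟨0,[]⟩,⟨0,[]⟩⟩,[.a ⟨true,0,⟨1,[(7,1),(10,1),(15,0),(4,0)]⟩,⟨1,[(0,1),(4,1),(19,0),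
  (0,0),(10,1)]⟩⟩ ⟨true,0,⟨0,[]⟩,⟨1,[(25,0),(0,0)]⟩⟩ ⟨false,0,⟨1,[(7,1),(30,0),(0,0)]⟩,⟨1,[(23,1),
  (6,0),(8,0)]⟩⟩,.o ⟨false,1,⟨0,[(7,0),(10,0),(20,0)]⟩,⟨0,[(0,0),(4,1),(1,0),(17,0),(4,0),(6,1)]⟩⟩,
  .o ⟨false,1,⟨0,[(18,0)]⟩,⟨0,[(0,0),(25,0)]⟩⟩,.o ⟨false,1,⟨1,[(18,1),(6,0),(0,0)]⟩,⟨0,[(2,
  0)]⟩⟩]⟩))) (.Q [0,1,0,-1,0,0,1,1,1,-1,1,1] (.p true [0,0,1] [1,0,0,0,-1] (⟨0,[(26,0)]⟩,⟨0,[(25,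
  0)]⟩) .k 2 (⟨0,[(18,0)]⟩,⟨0,[(19,0)]⟩) .k (.r 0 ⟨1,[(4,0),(16,0),(2,0)]⟩ ⟨1,[(8,1),(14,1),(12,0),
  (0,0)]⟩)) (.I [1,-1,2,2] (.I [0,0,-2,0,1,-2,0,0,-1] (.N [0,-2,0,0,1] 0 ⟨0,[(12,0)]⟩ ⟨0,[(1,0)]⟩
  (.x 0 ⟨1,[(1,1),(0,1),(2,1),(15,1),(9,0),(1,3),(6,0)]⟩ ⟨0,[(0,0)]⟩)) (.Q [0,2,0,1,-1,0,0,0,1,-1,0,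
  1] (.p true [0,0,0,0,1] [1] (⟨0,[(22,0)]⟩,⟨0,[(21,0)]⟩) .k 1 (⟨0,[]⟩,⟨0,[]⟩) .k .k) (.S ⟨1,0,[0,2,
  1,1],[0,1,0,0,1],[1,1,1],(⟨0,[(23,0),(10,0)]⟩,⟨4,[(1,0),(2,0),(9,1),(7,3),(8,6),(7,1),(1,0),(0,
  0)]⟩),⟨0,[(23,0)]⟩,(.r 0 ⟨1,[(2,0),(40,2)]⟩ ⟨1,[(15,0),(22,0),(2,0)]⟩),.k,⟨false,1,⟨0,[(38,0),(2,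
  0)]⟩,⟨0,[(39,0)]⟩⟩,⟨true,0,⟨0,[(43,0)]⟩,⟨0,[]⟩⟩,⟨true,0,⟨0,[]⟩,⟨0,[(43,0)]⟩⟩,⟨false,0,⟨0,[(39,
  0)]⟩,⟨0,[(38,0),(2,0)]⟩⟩,[.o ⟨false,(-1),⟨0,[(0,0)]⟩,⟨1,[(16,1),(3,1),(11,0),(8,0)]⟩⟩,.e ⟨false,0,
  ⟨0,[]⟩,⟨1,[(20,0),(0,0),(18,0)]⟩⟩ ⟨false,0,⟨2,[(2,0),(32,1),(3,0)]⟩,⟨1,[(15,0),(22,0),(2,0)]⟩⟩,.a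
  ⟨true,0,⟨3,[(0,1),(14,1),(5,1),(14,0),(4,0)]⟩,⟨0,[(4,0)]⟩⟩ ⟨false,0,⟨1,[(27,0),(0,0)]⟩,⟨1,[(40,0),
  (0,0)]⟩⟩ ⟨true,(-1),⟨0,[(0,0),(3,0)]⟩,⟨1,[(15,0),(22,0),(2,0)]⟩⟩,.o ⟨false,0,⟨1,[(0,1),(15,1),(15,
  0),(8,0)]⟩,⟨0,[(20,0)]⟩⟩]⟩) (.Q [0,0,0,0,0,0,-1,0,-1,1,-1,-1] (.p false [0,0,1] [1,0,0,0,-1] (⟨0,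
  [(30,0)]⟩,⟨0,[(29,0)]⟩) .k 2 (⟨0,[(22,0)]⟩,⟨0,[(23,0)]⟩) .k (.r 0 ⟨1,[(8,0),(16,0),(2,0)]⟩ ⟨1,
  [(12,1),(14,1),(12,0),(0,0)]⟩)) (.R ⟨1,false,false,true,[1,0,0,0,-1],[0,-1,1],[1,0,0,-1],(⟨0,[(23,
  0)]⟩,⟨0,[(24,0)]⟩),(⟨0,[(20,0)]⟩,⟨0,[(30,0),(4,0)]⟩),⟨6,[(1,0),(0,0),(12,1),(7,5),(8,8),(7,2),(2,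
  1)]⟩,.k,.k,(.r (-1) ⟨1,[(16,0),(22,0),(2,0)]⟩ ⟨1,[(3,0),(40,2)]⟩),(.r (-1) ⟨1,[(3,0),(9,0),(13,0),
  (0,1),(12,0),(0,0)]⟩ ⟨4,[(8,1),(0,2),(4,0),(24,0)]⟩),.k,.k,⟨false,1,⟨1,[(13,1),(14,1),(12,0),(0,
  0)]⟩,⟨0,[(9,0)]⟩⟩,⟨true,0,⟨1,[(2,1),(12,0),(0,0),(7,1),(3,1),(3,3),(0,0),(6,1)]⟩,⟨0,[(0,0)]⟩⟩,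
  ⟨true,0,⟨0,[(39,0)]⟩,⟨0,[(40,0)]⟩⟩,⟨false,0,⟨0,[(4,0)]⟩,⟨0,[(1,0),(11,0),(26,1)]⟩⟩,⟨false,0,⟨0,
  []⟩,⟨1,[(21,0),(0,0),(19,0)]⟩⟩,⟨false,0,⟨0,[(6,0)]⟩,⟨0,[(1,0),(11,0),(26,0)]⟩⟩,[.e ⟨false,1,⟨1,
  [(39,1),(1,0),(0,0)]⟩,⟨0,[(40,0)]⟩⟩ ⟨false,0,⟨1,[(2,1),(5,1),(6,2),(0,0),(7,1),(3,1),(3,3),(0,0),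
  (6,3)]⟩,⟨1,[(1,0),(1,0),(6,0),(2,0),(7,0),(18,0),(0,0)]⟩⟩,.o ⟨false,1,⟨1,[(1,0),(2,0),(21,0),(6,
  0)]⟩,⟨0,[(13,0),(26,0)]⟩⟩,.o ⟨false,1,⟨0,[(21,0)]⟩,⟨1,[(2,1),(12,0),(0,0),(7,1),(7,3),(0,0),(6,
  1)]⟩⟩,.a ⟨true,0,⟨0,[(5,0)]⟩,⟨1,[(2,0),(12,0),(0,0),(5,0),(1,0),(7,1),(7,1)]⟩⟩ ⟨false,1,⟨1,[(16,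
  0),(22,0),(2,0)]⟩,⟨1,[(3,0),(40,0)]⟩⟩ ⟨true,0,⟨1,[(2,1),(5,1),(6,2),(0,0),(7,1),(3,1),(3,3),(0,0),
  (6,3)]⟩,⟨0,[(5,0),(7,0),(26,0)]⟩⟩]⟩) (.R ⟨1,false,false,true,[1,0,0,0,-1],[0,0,1],[],(⟨0,[(23,
  0)]⟩,⟨0,[(24,0)]⟩),(⟨0,[(31,0)]⟩,⟨0,[(30,0)]⟩),⟨6,[(1,0),(0,0),(12,1),(7,5),(8,8),(7,2),(2,1)]⟩,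
  .k,.k,(.r (-1) ⟨1,[(16,0),(22,0),(2,0)]⟩ ⟨1,[(3,0),(40,2)]⟩),.k,(.r (-1) ⟨0,[(13,0),(2,0),(11,
  0)]⟩ ⟨7,[(3,3),(5,2),(16,4),(2,4),(6,1)]⟩),.k,⟨false,1,⟨0,[(13,0),(2,0),(11,0),(11,0)]⟩,⟨1,[(9,0),
  (16,0),(2,0)]⟩⟩,⟨true,0,⟨0,[(0,0)]⟩,⟨0,[(5,0),(6,0)]⟩⟩,⟨true,0,⟨0,[(44,0)]⟩,⟨0,[]⟩⟩,⟨false,0,⟨0,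
  [(6,0)]⟩,⟨0,[(1,0),(11,0),(26,0)]⟩⟩,⟨false,0,⟨0,[(40,0)]⟩,⟨0,[(39,0),(2,0)]⟩⟩,⟨false,0,⟨0,[(6,0),
  (33,0)]⟩,⟨0,[(1,0),(11,0)]⟩⟩,[.e ⟨false,1,⟨1,[(21,0),(0,0),(18,0)]⟩,⟨0,[]⟩⟩ ⟨false,0,⟨0,[(0,0),(8,
  0)]⟩,⟨2,[(1,1),(1,0),(6,0),(2,0),(7,0),(5,0),(13,0)]⟩⟩,.o ⟨false,1,⟨1,[(26,1),(6,0),(8,0)]⟩,⟨0,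
  [(13,0)]⟩⟩,.o ⟨false,1,⟨0,[(21,0)]⟩,⟨0,[(0,0),(11,0)]⟩⟩,.a ⟨true,0,⟨0,[(5,0)]⟩,⟨0,[(0,0),(24,
  0)]⟩⟩ ⟨false,1,⟨1,[(41,0),(0,0)]⟩,⟨1,[(28,0),(0,0)]⟩⟩ ⟨true,0,⟨0,[(0,0),(8,0)]⟩,⟨0,[(5,0),(7,
  0)]⟩⟩]⟩)))) (.Q [0,0,0,0,0,0,-1,0,-1,1,-1,-1] (.p false [0,0,1] [1,0,0,0,-1] (⟨0,[(28,0)]⟩,⟨0,
  [(27,0)]⟩) .k 2 (⟨0,[(20,0)]⟩,⟨0,[(21,0)]⟩) .k (.r 0 ⟨1,[(6,0),(16,0),(2,0)]⟩ ⟨1,[(10,1),(14,1),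
  (12,0),(0,0)]⟩)) (.Q [0,0,0,0,0,0,0,0,0,1,-1,-1] (.ed true [0,0,1,0,1] (.r 0 ⟨1,[(7,0),(16,0),(2,
  0)]⟩ ⟨1,[(11,1),(14,1),(12,0),(0,0)]⟩)) (.Q [0,2,0,1,-1,0,0,0,1,-1,0,1] (.p true [0,0,0,0,1] [1]
  (⟨0,[(23,0)]⟩,⟨0,[(22,0)]⟩) .k 1 (⟨0,[]⟩,⟨0,[]⟩) .k .k) (.S ⟨1,0,[0,2,1,1],[0,1,0,0,1],[1,1,1],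
  (⟨0,[(24,0),(10,0)]⟩,⟨0,[(1,0),(18,0)]⟩),⟨0,[(24,0)]⟩,(.r 0 ⟨1,[(28,0),(0,0),(10,1),(3,1)]⟩ ⟨1,
  [(16,0),(22,0),(2,0)]⟩),.k,⟨false,1,⟨0,[(39,0),(2,0)]⟩,⟨0,[(40,0)]⟩⟩,⟨true,0,⟨0,[(44,0)]⟩,⟨0,[]⟩⟩,
  ⟨true,0,⟨0,[]⟩,⟨0,[(44,0)]⟩⟩,⟨false,0,⟨0,[(40,0)]⟩,⟨0,[(39,0),(2,0)]⟩⟩,[.o ⟨false,(-1),⟨0,[(0,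
  0)]⟩,⟨1,[(17,1),(3,1),(11,0),(8,0)]⟩⟩,.e ⟨false,0,⟨0,[]⟩,⟨1,[(21,0),(0,0),(18,0)]⟩⟩ ⟨false,0,⟨0,
  [(40,0),(3,0)]⟩,⟨1,[(16,0),(22,0),(2,0)]⟩⟩,.a ⟨true,0,⟨3,[(0,1),(15,1),(5,1),(14,0),(4,0)]⟩,⟨0,
  [(5,0)]⟩⟩ ⟨false,0,⟨1,[(28,0),(0,0)]⟩,⟨1,[(41,0),(0,0)]⟩⟩ ⟨true,(-1),⟨0,[(0,0),(4,0)]⟩,⟨1,[(16,0),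
  (22,0),(2,0)]⟩⟩,.o ⟨false,0,⟨1,[(0,1),(16,1),(15,0),(8,0)]⟩,⟨0,[(21,0)]⟩⟩]⟩) (.Q [0,0,0,0,0,0,0,0,
  -1,1,0,-1] (.p false [0,0,0,0,1] [1] (⟨0,[(24,0)]⟩,⟨0,[(23,0)]⟩) .k 1 (⟨0,[]⟩,⟨0,[]⟩) .k .k) (.Q
  [0,0,-1,0,0,0,0,0,1,0,0,1] (.p true [0,0,0,0,1] [] (⟨0,[(25,0)]⟩,⟨0,[(24,0)]⟩) .k 0 (⟨0,[]⟩,⟨0,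
  []⟩) .k .k) (.I [0,2,1,1,-1] (.S ⟨1,0,[],[1,0,0,0,-1],[1,-1,0,-1],(⟨0,[(26,0)]⟩,⟨0,[(27,0)]⟩),⟨0,
  [(4,0),(18,0)]⟩,.k,(.r (-1) ⟨1,[(19,0),(22,0),(2,0)]⟩ ⟨1,[(0,1),(23,0),(0,0),(19,0)]⟩),⟨false,1,
  ⟨0,[(42,0),(2,0)]⟩,⟨0,[(43,0)]⟩⟩,⟨true,0,⟨0,[(47,0)]⟩,⟨0,[]⟩⟩,⟨true,0,⟨0,[]⟩,⟨0,[(47,0)]⟩⟩,⟨false,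
  0,⟨0,[(43,0)]⟩,⟨0,[(42,0),(2,0)]⟩⟩,[.e ⟨false,1,⟨1,[(19,0),(22,0),(2,0)]⟩,⟨3,[(0,1),(23,0),(0,0),
  (17,1),(0,0)]⟩⟩ ⟨false,1,⟨1,[(24,0),(0,0),(18,0)]⟩,⟨0,[]⟩⟩,.o ⟨false,1,⟨1,[(2,1),(33,0),(8,0)]⟩,
  ⟨3,[(0,0),(0,0),(5,0),(5,0),(11,1),(10,1)]⟩⟩,.e ⟨false,1,⟨1,[(20,1),(15,0),(8,0)]⟩,⟨3,[(0,1),(23,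
  0),(0,0),(17,1),(0,0)]⟩⟩ ⟨false,1,⟨1,[(24,0),(0,0),(19,0)]⟩,⟨0,[]⟩⟩,.a ⟨true,0,⟨0,[(8,0)]⟩,⟨0,[(1,
  0)]⟩⟩ ⟨true,1,⟨1,[(19,0),(22,0),(2,0)]⟩,⟨0,[(0,0)]⟩⟩ ⟨false,1,⟨1,[(44,0),(0,0)]⟩,⟨1,[(31,0),(0,
  0)]⟩⟩]⟩) (.Q [0,0,-1,0,0,0,-1,0,-1,1,-1,-1] (.p false [0,0,1,0,1] [1] (⟨0,[(27,0),(6,0)]⟩,⟨0,[(4,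
  0)]⟩) .k 1 (⟨0,[]⟩,⟨0,[]⟩) .k (.r 0 ⟨1,[(12,0),(16,0),(2,0)]⟩ ⟨1,[(16,1),(14,1),(12,0),(0,0)]⟩))
  (.S ⟨1,0,[0,2,0,0,0,0,0,1],[0,0,1,0,1],[1,1,0,-1,0,0,0,1],(⟨0,[(28,0),(6,0)]⟩,⟨0,[(5,0)]⟩),⟨0,
  [(24,0),(3,0)]⟩,.k,(.r 0 ⟨4,[(12,1),(0,2),(4,0),(24,0)]⟩ ⟨0,[(31,0),(0,0),(11,0),(1,0)]⟩),⟨false,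
  1,⟨0,[(43,0),(2,0)]⟩,⟨0,[(44,0)]⟩⟩,⟨true,0,⟨0,[(48,0)]⟩,⟨0,[]⟩⟩,⟨true,0,⟨0,[]⟩,⟨0,[(48,0)]⟩⟩,
  ⟨false,0,⟨0,[(44,0)]⟩,⟨0,[(43,0),(2,0)]⟩⟩,[.e ⟨false,0,⟨4,[(12,1),(0,2),(4,0),(24,0)]⟩,⟨1,[(17,1),
  (14,1),(11,1),(0,0),(0,0)]⟩⟩ ⟨false,0,⟨3,[(13,2),(16,0),(2,0),(6,1)]⟩,⟨0,[(1,0),(15,0),(14,0),(11,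
  0)]⟩⟩,.o ⟨false,0,⟨0,[(10,0)]⟩,⟨1,[(3,1),(13,1),(19,0),(8,0)]⟩⟩,.e ⟨false,0,⟨0,[(12,0)]⟩,⟨1,[(17,
  1),(14,1),(11,1),(0,0),(0,0)]⟩⟩ ⟨false,0,⟨1,[(13,0),(16,0),(2,0)]⟩,⟨0,[(1,0),(15,0),(14,0),(11,
  0)]⟩⟩,.a ⟨true,0,⟨0,[(26,0),(5,0)]⟩,⟨0,[(0,0)]⟩⟩ ⟨true,0,⟨4,[(12,1),(0,2),(4,0),(24,0)]⟩,⟨0,[(17,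
  0),(14,0),(11,0)]⟩⟩ ⟨false,0,⟨0,[(13,0)]⟩,⟨0,[(17,0),(14,0),(13,0)]⟩⟩]⟩) (.R ⟨1,false,false,false,
  [0,0,1,0,1],[0,0,0,0,1],[0,2,0,0,0,0,0,1],(⟨0,[(28,0),(6,0)]⟩,⟨0,[(5,0)]⟩),(⟨0,[(28,0)]⟩,⟨0,[(27,
  0)]⟩),⟨0,[(24,0),(3,0)]⟩,.k,.k,(.r 0 ⟨4,[(12,1),(0,2),(4,0),(24,0)]⟩ ⟨0,[(31,0),(0,0),(11,0),(1,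
  0)]⟩),.k,.k,.k,⟨false,0,⟨0,[(13,0)]⟩,⟨1,[(17,1),(14,1),(12,0),(0,0)]⟩⟩,⟨true,0,⟨0,[(16,0)]⟩,⟨0,
  [(32,0)]⟩⟩,⟨true,0,⟨0,[(48,0)]⟩,⟨0,[]⟩⟩,⟨true,0,⟨0,[(17,0)]⟩,⟨0,[(30,0)]⟩⟩,⟨false,0,⟨0,[(44,0)]⟩,
  ⟨0,[(43,0),(2,0)]⟩⟩,⟨true,0,⟨0,[(17,0),(26,0)]⟩,⟨0,[(15,0)]⟩⟩,[.o ⟨false,0,⟨1,[(10,0),(3,0),(11,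
  0),(10,0)]⟩,⟨1,[(3,1),(33,0),(8,0)]⟩⟩,.a ⟨true,0,⟨0,[(26,0)]⟩,⟨0,[(3,0)]⟩⟩ ⟨false,0,⟨0,[(13,0)]⟩,
  ⟨1,[(17,1),(14,1),(12,0),(0,0)]⟩⟩ ⟨true,0,⟨0,[(16,0)]⟩,⟨0,[(32,0)]⟩⟩,.e ⟨false,0,⟨1,[(13,0),(16,
  0),(2,0)]⟩,⟨0,[(1,0),(15,0),(14,0),(11,0)]⟩⟩ ⟨false,0,⟨0,[(16,0)]⟩,⟨1,[(32,1),(12,0),(0,0)]⟩⟩,.o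
  ⟨false,0,⟨0,[(0,0)]⟩,⟨1,[(6,1),(30,0),(7,0)]⟩⟩]⟩))) (.S ⟨1,0,[0,-1],[1,0,0,0,-1],[],(⟨0,[(25,0)]⟩,
  ⟨0,[(26,0)]⟩),⟨0,[(3,0),(18,0)]⟩,.k,(.r (-1) ⟨1,[(18,0),(22,0),(2,0)]⟩ ⟨1,[(30,0),(0,0),(10,1),(3,
  1)]⟩),⟨true,0,⟨0,[(46,0)]⟩,⟨0,[]⟩⟩,⟨false,1,⟨1,[(23,0),(0,0),(19,0)]⟩,⟨0,[]⟩⟩,⟨false,0,⟨0,[(42,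
  0)]⟩,⟨0,[(41,0),(2,0)]⟩⟩,⟨true,0,⟨0,[(42,0)]⟩,⟨0,[(41,0)]⟩⟩,[.o ⟨false,1,⟨1,[(1,1),(33,0),(8,0)]⟩,
  ⟨1,[(8,0),(3,0),(11,0),(10,0)]⟩⟩,.a ⟨true,1,⟨0,[(1,0),(42,0)]⟩,⟨0,[(8,0),(3,0)]⟩⟩ ⟨false,1,⟨1,
  [(43,0),(0,0)]⟩,⟨0,[(46,0)]⟩⟩ ⟨true,1,⟨0,[(44,0)]⟩,⟨0,[(0,0),(7,0),(3,0)]⟩⟩,.e ⟨false,1,⟨1,[(23,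
  0),(0,0),(19,0)]⟩,⟨0,[]⟩⟩ ⟨false,1,⟨0,[(44,0)]⟩,⟨0,[(46,0)]⟩⟩,.o ⟨false,0,⟨0,[(0,0)]⟩,⟨1,[(24,1),
  (10,0),(7,0)]⟩⟩]⟩)) (.R ⟨1,false,false,true,[1,0,0,0,-1],[0,-1,1],[1,0,0,-1],(⟨0,[(24,0)]⟩,⟨0,
  [(25,0)]⟩),(⟨0,[(21,0)]⟩,⟨0,[(31,0),(4,0)]⟩),⟨0,[(2,0),(18,0)]⟩,.k,.k,(.r (-1) ⟨1,[(17,0),(22,0),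
  (2,0)]⟩ ⟨1,[(29,0),(0,0),(10,1),(3,1)]⟩),(.r (-1) ⟨0,[(28,0),(0,0),(11,0),(1,0)]⟩ ⟨4,[(9,1),(0,2),
  (4,0),(24,0)]⟩),.k,.k,⟨false,1,⟨1,[(14,1),(14,1),(12,0),(0,0)]⟩,⟨0,[(10,0)]⟩⟩,⟨true,0,⟨0,[(0,0),
  (28,0)]⟩,⟨0,[(3,0)]⟩⟩,⟨true,0,⟨0,[(40,0)]⟩,⟨0,[(41,0)]⟩⟩,⟨false,0,⟨0,[(5,0)]⟩,⟨0,[(1,0),(12,0),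
  (26,1)]⟩⟩,⟨false,0,⟨0,[]⟩,⟨1,[(22,0),(0,0),(19,0)]⟩⟩,⟨false,0,⟨0,[(7,0)]⟩,⟨0,[(1,0),(12,0),(26,
  0)]⟩⟩,[.e ⟨false,1,⟨1,[(40,1),(1,0),(0,0)]⟩,⟨0,[(41,0)]⟩⟩ ⟨false,0,⟨0,[(0,0),(8,0),(6,0),(12,0),
  (11,0)]⟩,⟨0,[(1,0),(26,0),(12,1)]⟩⟩,.o ⟨false,1,⟨1,[(1,0),(3,0),(21,0),(6,0)]⟩,⟨0,[(14,0),(26,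
  0)]⟩⟩,.o ⟨false,1,⟨0,[(22,0)]⟩,⟨0,[(0,0)]⟩⟩,.a ⟨true,0,⟨0,[(6,0)]⟩,⟨1,[(0,1),(37,0),(3,0)]⟩⟩
  ⟨false,1,⟨1,[(17,0),(22,0),(2,0)]⟩,⟨1,[(29,0),(0,0),(10,1)]⟩⟩ ⟨true,0,⟨0,[(0,0),(8,0),(6,0),(12,
  0),(11,0)]⟩,⟨0,[(6,0),(7,0),(26,0)]⟩⟩]⟩))) (.Q [0,0,-2,0,0,0,0,0,-1,1,0,-1] (.p false [0,0,0,0,1]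
  [1] (⟨0,[(23,0)]⟩,⟨0,[(22,0)]⟩) .k 1 (⟨0,[]⟩,⟨0,[]⟩) .k .k) (.Q [0,0,0,0,0,-1,0,0,0,0,1,-1] (.p
  true [0,0,1] [0,0,0,0,1] (⟨0,[(31,0)]⟩,⟨0,[(30,0)]⟩) .k 2 (⟨0,[(24,0)]⟩,⟨0,[(23,0)]⟩) .k (.r (-1)
  ⟨1,[(9,0),(16,0),(2,0),(12,1)]⟩ ⟨1,[(13,0),(1,0),(11,0),(0,1),(11,0)]⟩)) (.Q [0,0,-1,0,0,0,-1,0,1,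
  0,-1,1] (.p true [1,0,-1,0,1] [1] (⟨0,[(25,0),(5,0)]⟩,⟨0,[(0,0),(35,0)]⟩) .k 1 (⟨0,[]⟩,⟨0,[]⟩) .k
  (.r 0 ⟨1,[(14,0),(1,0),(11,0),(0,1),(11,0)]⟩ ⟨1,[(10,0),(16,0),(2,0),(12,1)]⟩)) (.S ⟨1,0,[0,-1,0,
  0,0,0,0,1],[0,0,1,0,-1],[1,0,0,-1,0,0,0,1],(⟨0,[(1,0),(35,0)]⟩,⟨0,[(26,0),(5,0)]⟩),⟨0,[(1,0)]⟩,.k,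
  (.r (-1) ⟨1,[(10,1),(32,0),(0,0)]⟩ ⟨0,[(29,0),(0,0),(11,0)]⟩),⟨true,0,⟨0,[(41,0)]⟩,⟨0,[(42,0)]⟩⟩,
  ⟨false,1,⟨1,[(23,0),(0,0),(19,0)]⟩,⟨0,[]⟩⟩,⟨false,0,⟨0,[]⟩,⟨1,[(23,0),(0,0),(19,0)]⟩⟩,⟨true,0,⟨0,
  [(42,0)]⟩,⟨0,[(41,0)]⟩⟩,[.a ⟨true,1,⟨5,[(2,3),(4,1),(2,5),(19,5),(4,2),(6,5),(1,2)]⟩,⟨0,[(12,0),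
  (11,0)]⟩⟩ ⟨true,0,⟨0,[(10,0)]⟩,⟨0,[(15,0),(14,0),(11,0)]⟩⟩ ⟨false,1,⟨0,[(11,0),(32,0)]⟩,⟨1,[(15,
  0),(1,0),(11,0),(0,1),(11,0)]⟩⟩,.o ⟨false,2,⟨2,[(2,1),(4,0),(2,2),(19,2),(4,2),(6,2),(1,2)]⟩,⟨1,
  [(8,0),(3,2),(11,0),(10,0)]⟩⟩,.o ⟨false,1,⟨2,[(2,1),(4,0),(22,2),(4,2)]⟩,⟨1,[(0,0),(23,0),(6,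
  0)]⟩⟩,.o ⟨false,1,⟨2,[(2,0),(4,1),(22,2),(4,2)]⟩,⟨0,[(0,0)]⟩⟩]⟩) (.K ⟨0,[0,0,1,0,-1],0,1,(⟨0,[(1,
  0),(35,0)]⟩,⟨0,[(26,0),(5,0)]⟩),.k,(.r (-1) ⟨1,[(10,1),(32,0),(0,0)]⟩ ⟨0,[(29,0),(0,0),(11,0)]⟩),
  (.r (-1) ⟨0,[(28,0),(2,0),(10,0),(1,0)]⟩ ⟨0,[(15,0),(1,0),(12,0)]⟩),.k,.k,[⟨0,[(24,0)]⟩,⟨0,[(0,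
  0)]⟩,⟨1,[(8,0),(3,2),(11,0),(10,0)]⟩,⟨1,[(0,0),(10,0),(11,0),(4,0),(15,0)]⟩]⟩)) (.Q [0,-1,0,2,0,0,
  -1,-1,-1,1,-1,-1] (.p false [-1,0,1,0,1] [] (⟨0,[(2,0)]⟩,⟨0,[(24,0),(6,0)]⟩) .k 0 (⟨0,[]⟩,⟨0,[]⟩)
  .k (.r 0 ⟨1,[(10,0),(16,0),(2,0)]⟩ ⟨1,[(14,1),(14,1),(12,0),(0,0)]⟩)) (.R ⟨1,false,false,false,[0,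
  -1,0,0,1],[1,0,-1],[1],(⟨0,[(3,0),(17,0)]⟩,⟨0,[(25,0),(11,0)]⟩),(⟨0,[(32,0)]⟩,⟨0,[(33,0)]⟩),⟨4,
  [(1,0),(1,3),(1,0),(13,0),(1,2),(12,7),(7,2),(2,1)]⟩,(.r 0 ⟨0,[(40,0)]⟩ ⟨1,[(23,0),(0,0),(5,0),(0,
  0),(10,1),(1,0)]⟩),.k,(.r 0 ⟨0,[(5,0)]⟩ ⟨1,[(23,0),(0,0),(5,1),(0,1),(10,3),(1,0)]⟩),(.r 0 ⟨4,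
  [(10,1),(0,2),(4,0),(24,0)]⟩ ⟨3,[(0,1),(22,0),(0,2),(4,1),(0,3),(4,0),(8,1)]⟩),(.r 0 ⟨0,[(10,0),
  (6,0)]⟩ ⟨1,[(0,1),(22,0),(0,2),(5,2),(0,0),(3,0)]⟩),.k,⟨true,0,⟨0,[(10,0),(31,0)]⟩,⟨0,[(15,0),(14,
  0)]⟩⟩,⟨false,0,⟨0,[(2,0),(11,0)]⟩,⟨1,[(23,0),(0,2),(5,1),(4,0)]⟩⟩,⟨false,1,⟨1,[(30,0),(0,0),(10,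
  1),(1,1)]⟩,⟨0,[(40,0)]⟩⟩,⟨false,1,⟨2,[(0,1),(18,0),(3,0),(5,0),(14,1)]⟩,⟨0,[(6,0)]⟩⟩,⟨false,1,⟨1,
  [(30,0),(0,0),(10,3),(1,1)]⟩,⟨6,[(9,0),(0,0),(5,3),(2,0),(10,0),(4,0),(5,2)]⟩⟩,⟨true,0,⟨0,[(0,
  0)]⟩,⟨0,[(6,0),(34,0)]⟩⟩,[.o ⟨false,0,⟨0,[(15,0)]⟩,⟨1,[(28,1),(6,0),(8,0)]⟩⟩,.e ⟨false,1,⟨1,[(43,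
  0),(0,0)]⟩,⟨0,[(46,0)]⟩⟩ ⟨false,1,⟨4,[(0,2),(8,1),(8,3),(4,1),(19,0)]⟩,⟨1,[(8,1),(21,0),(0,0)]⟩⟩,
  .e ⟨true,0,⟨0,[]⟩,⟨0,[(46,0)]⟩⟩ ⟨true,0,⟨13,[(0,9),(6,1),(1,3),(6,7),(6,1),(11,0),(8,0)]⟩,⟨1,[(8,
  1),(21,0),(0,0)]⟩⟩,.a ⟨true,0,⟨0,[(24,0),(5,0),(0,0)]⟩,⟨0,[(2,0)]⟩⟩ ⟨false,1,⟨1,[(43,0),(0,0)]⟩,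
  ⟨1,[(30,0),(0,0)]⟩⟩ ⟨true,0,⟨0,[(0,0),(15,0)]⟩,⟨0,[(8,0),(21,0),(0,0)]⟩⟩]⟩) (.Q [0,0,0,0,0,0,0,0,
  0,0,-1,1] (.ed false [1,0,-1,0,1] (.r 0 ⟨1,[(15,0),(1,0),(11,0),(0,1),(11,0)]⟩ ⟨1,[(11,0),(16,0),
  (2,0),(12,1)]⟩)) (.Q [0,-2,-1,0,1,0,-1,0,0,0,-1] (.p false [0,0,1] [] (⟨0,[(34,0)]⟩,⟨0,[(33,0)]⟩)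
  .k 0 (⟨0,[]⟩,⟨0,[]⟩) .k .k) (.R ⟨1,false,false,false,[1,0,1,0,-1],[1,0,0,0,-1],[0,0,0,0,0,0,0,1],
  (⟨0,[(27,0),(7,0)]⟩,⟨0,[(1,0)]⟩),(⟨0,[(27,0)]⟩,⟨0,[(28,0)]⟩),⟨0,[(24,0),(2,0)]⟩,.k,.k,(.r (-1)
  ⟨12,[(2,0),(9,5),(0,4),(1,0),(4,3),(1,0),(2,0),(20,7)]⟩ ⟨0,[(31,0),(0,0),(11,0)]⟩),.k,.k,.k,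
  ⟨false,0,⟨0,[(13,0)]⟩,⟨1,[(17,1),(14,1),(12,0),(0,0)]⟩⟩,⟨true,0,⟨0,[(16,0)]⟩,⟨0,[(32,0)]⟩⟩,⟨true,
  0,⟨0,[(48,0)]⟩,⟨0,[]⟩⟩,⟨true,0,⟨0,[(17,0)]⟩,⟨0,[(30,0)]⟩⟩,⟨false,0,⟨0,[(44,0)]⟩,⟨0,[(43,0),(2,
  0)]⟩⟩,⟨true,0,⟨0,[(17,0),(26,0)]⟩,⟨0,[(15,0)]⟩⟩,[.o ⟨false,1,⟨5,[(4,1),(4,3),(27,2),(8,2)]⟩,⟨1,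
  [(10,0),(3,0),(11,0),(10,0)]⟩⟩,.e ⟨false,1,⟨0,[(13,0),(32,0)]⟩,⟨1,[(17,0),(1,0),(11,0),(0,1),(11,
  0)]⟩⟩ ⟨false,1,⟨0,[(0,0)]⟩,⟨0,[(32,0),(7,0)]⟩⟩,.a ⟨true,0,⟨2,[(4,1),(4,0),(22,2)]⟩,⟨0,[(16,0),(9,
  0)]⟩⟩ ⟨true,0,⟨0,[(12,0),(31,0)]⟩,⟨1,[(17,0),(1,0),(11,0),(0,1),(11,0)]⟩⟩ ⟨false,1,⟨1,[(0,0),(32,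
  0),(12,0)]⟩,⟨2,[(19,0),(12,2),(7,0),(3,0)]⟩⟩,.e ⟨false,1,⟨0,[(13,0),(32,0)]⟩,⟨0,[(17,0),(14,0)]⟩⟩
  ⟨false,1,⟨0,[(0,0)]⟩,⟨0,[(32,0),(15,0)]⟩⟩]⟩) (.Q [0,0,-1,0,0,0,-1,0,1,0,-1,1] (.p true [0,0,-1,0,
  1] [] (⟨0,[(1,0)]⟩,⟨0,[(27,0),(7,0)]⟩) .k 0 (⟨0,[]⟩,⟨0,[]⟩) .k (.r 0 ⟨1,[(0,0),(16,1),(14,0),(12,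
  0)]⟩ ⟨1,[(13,0),(16,0),(2,0),(12,1)]⟩)) (.S ⟨1,0,[0,-1,0,0,0,0,0,1],[1,0,1,0,-1],[1,0,0,-1,0,0,0,
  1],(⟨0,[(28,0),(7,0)]⟩,⟨0,[(2,0)]⟩),⟨0,[(25,0),(2,0)]⟩,.k,(.r (-1) ⟨12,[(3,0),(9,5),(0,4),(1,0),
  (4,3),(1,0),(2,0),(20,7)]⟩ ⟨0,[(32,0),(0,0),(11,0)]⟩),⟨true,0,⟨0,[(44,0)]⟩,⟨0,[(45,0)]⟩⟩,⟨false,1,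
  ⟨1,[(26,0),(0,0),(19,0)]⟩,⟨0,[]⟩⟩,⟨false,0,⟨0,[]⟩,⟨1,[(26,0),(0,0),(19,0)]⟩⟩,⟨true,0,⟨0,[(45,0)]⟩,
  ⟨0,[(44,0)]⟩⟩,[.o ⟨false,1,⟨5,[(5,3),(4,1),(2,5),(19,5),(4,2),(6,5),(1,2)]⟩,⟨0,[(15,0),(11,0),(10,
  0)]⟩⟩,.a ⟨true,1,⟨2,[(5,1),(4,0),(2,2),(19,2),(11,2),(1,2)]⟩,⟨1,[(0,0),(0,0),(13,1),(11,0),(10,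
  0)]⟩⟩ ⟨false,1,⟨12,[(3,0),(9,5),(0,4),(1,0),(4,3),(1,0),(2,0),(20,7)]⟩,⟨1,[(1,0),(16,1),(14,0),
  (11,1),(0,0)]⟩⟩ ⟨true,1,⟨0,[(13,0),(31,0),(1,0)]⟩,⟨0,[(1,0),(16,0)]⟩⟩,.a ⟨true,0,⟨2,[(5,1),(4,0),
  (22,2)]⟩,⟨1,[(0,0),(26,0),(6,0)]⟩⟩ ⟨true,0,⟨0,[(13,0)]⟩,⟨1,[(1,0),(16,1),(14,0),(11,1),(0,0)]⟩⟩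
  ⟨false,1,⟨0,[(13,0),(31,0),(1,0)]⟩,⟨1,[(1,0),(16,1),(14,0),(12,0)]⟩⟩,.a ⟨true,0,⟨2,[(5,0),(4,1),
  (22,2)]⟩,⟨0,[(0,0)]⟩⟩ ⟨false,1,⟨12,[(3,0),(9,5),(0,4),(1,0),(4,3),(1,0),(2,0),(20,7)]⟩,⟨0,[(18,0),
  (14,0),(11,0)]⟩⟩ ⟨true,1,⟨0,[(14,0),(32,0)]⟩,⟨0,[(1,0),(16,0)]⟩⟩]⟩) (.Q [0,0,0,0,0,1,0,0,0,-1,0,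
  1] (.ed false [0,1,0,0,1] .k) (.R ⟨0,false,false,false,[1,0,0,0,-1],[0,1],[1,0,1,1],(⟨0,[(29,0)]⟩,
  ⟨0,[(30,0)]⟩),(⟨0,[(41,0)]⟩,⟨0,[(40,0)]⟩),⟨0,[(0,0)]⟩,.k,.k,(.r (-1) ⟨1,[(22,0),(22,0),(2,0)]⟩ ⟨1,
  [(34,0),(0,0),(10,1),(3,1)]⟩),(.r (-1) ⟨1,[(22,0),(22,0),(2,0)]⟩ ⟨1,[(34,0),(0,0),(10,1),(3,1)]⟩),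
  .k,.k,⟨true,0,⟨0,[]⟩,⟨1,[(34,0),(0,0)]⟩⟩,⟨false,1,⟨1,[(21,0),(0,0),(5,1),(10,0),(6,1)]⟩,⟨0,[(11,
  0)]⟩⟩,⟨false,0,⟨1,[(34,0),(0,0),(10,1)]⟩,⟨1,[(22,0),(22,0),(2,0)]⟩⟩,⟨true,0,⟨1,[(12,0),(3,0),(11,
  0),(10,0),(6,1)]⟩,⟨2,[(1,0),(6,0),(2,0),(8,0),(2,0)]⟩⟩,⟨false,0,⟨0,[]⟩,⟨0,[]⟩⟩,⟨false,0,⟨0,[]⟩,⟨0,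
  []⟩⟩,[.e ⟨false,0,⟨0,[(46,0)]⟩,⟨1,[(45,1),(1,0),(0,0)]⟩⟩ ⟨false,1,⟨1,[(28,1),(10,0),(6,1),(0,0)]⟩,
  ⟨2,[(1,0),(6,0),(2,0),(8,0),(2,0)]⟩⟩,.o ⟨false,1,⟨1,[(39,0),(6,1),(1,0)]⟩,⟨0,[(45,0)]⟩⟩,.a ⟨true,
  0,⟨2,[(6,0),(4,1)]⟩,⟨0,[(28,0)]⟩⟩ ⟨true,0,⟨1,[(34,0),(0,0),(10,1)]⟩,⟨0,[(44,0)]⟩⟩ ⟨false,1,⟨1,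
  [(28,1),(10,0),(6,1),(1,0)]⟩,⟨2,[(1,0),(6,0),(2,0),(8,0),(2,0)]⟩⟩,.o ⟨false,0,⟨0,[(1,0),(16,0)]⟩,
  ⟨1,[(28,1),(10,0),(7,0)]⟩⟩]⟩) (.K ⟨0,[0,1,0,0,1],0,(-1),(⟨0,[(30,0),(10,0)]⟩,⟨0,[(0,0)]⟩),(.r 0
  ⟨1,[(34,0),(0,0),(10,1),(3,1)]⟩ ⟨1,[(22,0),(22,0),(2,0)]⟩),.k,(.r 0 ⟨0,[(34,0),(0,0),(10,1),(3,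
  0)]⟩ ⟨0,[(20,0),(27,0)]⟩),(.r 0 ⟨0,[(33,0),(0,0),(11,0)]⟩ ⟨12,[(4,0),(9,5),(0,4),(1,0),(4,3),(1,
  0),(2,0),(20,7)]⟩),.k,[⟨0,[(1,0)]⟩,⟨0,[(28,0)]⟩,⟨4,[(1,0),(18,0),(2,1),(3,3),(7,0),(3,0),(5,0)]⟩,
  ⟨0,[(12,0),(3,0),(29,0)]⟩]⟩)))) (.Q [0,0,-1,0,0,0,-1,0,1,0,-1,1] (.p true [1,0,-1,0,1] [1] (⟨0,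
  [(2,0),(34,0)]⟩,⟨0,[(0,0)]⟩) .k 1 (⟨0,[]⟩,⟨0,[]⟩) .k (.r 0 ⟨1,[(16,0),(1,0),(11,0),(0,1),(11,0)]⟩
  ⟨1,[(12,0),(16,0),(2,0),(12,1)]⟩)) (.R ⟨0,false,false,true,[0,0,1,0,-1],[1,0,0,0,-1],[0,0,1],(⟨0,
  [(1,0)]⟩,⟨0,[(3,0),(34,0)]⟩),(⟨0,[(27,0)]⟩,⟨0,[(28,0)]⟩),⟨0,[(3,0)]⟩,.k,.k,(.r (-1) ⟨12,[(2,0),(9,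
  5),(0,4),(1,0),(4,3),(1,0),(2,0),(20,7)]⟩ ⟨0,[(31,0),(0,0),(11,0)]⟩),.k,.k,.k,⟨true,0,⟨1,[(32,0),
  (0,0)]⟩,⟨0,[]⟩⟩,⟨false,0,⟨0,[(29,0)]⟩,⟨1,[(32,1),(4,0),(7,0)]⟩⟩,⟨false,0,⟨0,[(17,0),(14,0)]⟩,⟨0,
  [(13,0),(32,0)]⟩⟩,⟨true,(-1),⟨0,[(14,0)]⟩,⟨1,[(30,1),(6,0),(8,0)]⟩⟩,⟨false,0,⟨0,[]⟩,⟨0,[]⟩⟩,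
  ⟨false,0,⟨0,[]⟩,⟨0,[]⟩⟩,[.a ⟨true,0,⟨2,[(4,0),(4,1)]⟩,⟨0,[(26,0)]⟩⟩ ⟨true,0,⟨1,[(32,0),(0,0)]⟩,⟨0,
  []⟩⟩ ⟨false,0,⟨0,[(29,0)]⟩,⟨1,[(32,1),(4,0),(7,0)]⟩⟩,.o ⟨false,1,⟨5,[(4,1),(4,3),(27,2),(8,2)]⟩,
  ⟨1,[(10,0),(3,0),(11,0),(10,0)]⟩⟩,.o ⟨false,1,⟨2,[(4,1),(4,0),(22,2),(4,2)]⟩,⟨1,[(0,0),(25,0),(6,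
  0)]⟩⟩,.o ⟨false,1,⟨2,[(4,0),(4,1),(22,2),(4,2)]⟩,⟨0,[(0,0)]⟩⟩]⟩) (.K ⟨0,[0,0,1,0,-1],0,1,(⟨0,[(1,
  0)]⟩,⟨0,[(3,0),(34,0)]⟩),.k,(.r (-1) ⟨12,[(2,0),(9,5),(0,4),(1,0),(4,3),(1,0),(2,0),(20,7)]⟩ ⟨0,
  [(31,0),(0,0),(11,0)]⟩),(.r (-1) ⟨0,[(30,0),(2,0),(10,0),(1,0)]⟩ ⟨0,[(17,0),(1,0),(12,0)]⟩),.k,.k,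
  [⟨0,[(26,0)]⟩,⟨0,[(0,0)]⟩,⟨1,[(10,0),(3,2),(11,0),(10,0)]⟩,⟨1,[(0,0),(12,0),(11,0),(4,0),(15,
  0)]⟩]⟩))))) (.Q [0,0,1,0,0,0,0,0,1,-1,0,1] (.p true [0,0,0,0,1] [1] (⟨0,[(24,0)]⟩,⟨0,[(23,0)]⟩)
  .k 1 (⟨0,[]⟩,⟨0,[]⟩) .k .k) (.Q [0,0,0,0,0,0,0,0,-1,1,0,-1] (.p false [0,0,0,0,1] [1] (⟨0,[(25,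
  0)]⟩,⟨0,[(24,0)]⟩) .k 1 (⟨0,[]⟩,⟨0,[]⟩) .k .k) (.S ⟨1,0,[0,2],[0,0,0,0,1],[1,1,0,-1],(⟨0,[(26,
  0)]⟩,⟨0,[(25,0)]⟩),⟨0,[(3,0),(17,0)]⟩,.k,(.r 0 ⟨0,[(40,0)]⟩ ⟨5,[(2,1),(4,1),(15,2),(0,2),(17,5),
  (1,2)]⟩),⟨false,1,⟨0,[(41,0),(2,0)]⟩,⟨0,[(42,0)]⟩⟩,⟨true,0,⟨5,[(2,0),(4,0),(30,2)]⟩,⟨0,[]⟩⟩,⟨true,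
  0,⟨0,[]⟩,⟨5,[(2,0),(4,0),(30,2)]⟩⟩,⟨false,0,⟨0,[(42,0)]⟩,⟨0,[(41,0),(2,0)]⟩⟩,[.e ⟨false,0,⟨4,[(16,
  1),(21,0),(2,0)]⟩,⟨1,[(23,0),(0,0),(17,1),(1,0)]⟩⟩ ⟨false,0,⟨0,[(38,0)]⟩,⟨0,[(44,0)]⟩⟩,.o ⟨false,
  0,⟨2,[(1,2),(15,0),(20,0),(3,0)]⟩,⟨1,[(0,1),(34,0),(8,0)]⟩⟩,.a ⟨true,0,⟨0,[(24,0)]⟩,⟨0,[(0,0)]⟩⟩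
  ⟨true,0,⟨0,[(41,0)]⟩,⟨0,[(42,0)]⟩⟩ ⟨false,0,⟨5,[(2,0),(4,0),(30,2)]⟩,⟨0,[(44,0)]⟩⟩,.o ⟨false,0,⟨0,
  [(1,0)]⟩,⟨1,[(0,1),(34,0),(7,0)]⟩⟩]⟩) (.Q [0,0,0,0,0,-1,0,0,0,1,0,-1] (.ed true [0,1,0,0,1] .k)
  (.Q [0,2,0,0,-1,0,0,0,1,-1,0,1] (.p true [0,0,0,0,1] [1] (⟨0,[(27,0)]⟩,⟨0,[(26,0)]⟩) .k 1 (⟨0,[]⟩,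
  ⟨0,[]⟩) .k .k) (.S ⟨1,0,[0,-1],[1,0,0,0,-1],[1,0,0,-1],(⟨0,[(27,0)]⟩,⟨0,[(28,0)]⟩),⟨0,[(1,0)]⟩,.k,
  (.r (-1) ⟨1,[(20,0),(22,0),(2,0)]⟩ ⟨1,[(4,0),(4,0),(30,0),(3,1)]⟩),⟨true,0,⟨0,[(43,0)]⟩,⟨0,[(44,
  0)]⟩⟩,⟨false,1,⟨1,[(25,0),(0,0),(19,0)]⟩,⟨0,[]⟩⟩,⟨false,0,⟨0,[]⟩,⟨1,[(25,0),(0,0),(19,0)]⟩⟩,⟨true,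
  0,⟨0,[(44,0)]⟩,⟨0,[(43,0)]⟩⟩,[.e ⟨false,1,⟨1,[(43,1),(1,0),(0,0)]⟩,⟨0,[(44,0)]⟩⟩ ⟨false,1,⟨1,[(45,
  0),(0,0)]⟩,⟨5,[(4,0),(4,0),(30,2)]⟩⟩,.o ⟨false,2,⟨0,[(25,0),(20,0)]⟩,⟨0,[(0,0)]⟩⟩,.o ⟨false,1,⟨0,
  [(25,0)]⟩,⟨0,[(2,0)]⟩⟩,.a ⟨true,0,⟨0,[(9,0)]⟩,⟨1,[(2,1),(38,0),(3,0)]⟩⟩ ⟨false,1,⟨1,[(20,0),(22,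
  0),(2,0)]⟩,⟨2,[(4,0),(4,0),(34,2)]⟩⟩ ⟨true,1,⟨1,[(45,0),(0,0)]⟩,⟨0,[(0,0),(8,0)]⟩⟩]⟩) (.R ⟨1,
  false,false,true,[1,0,0,0,-1],[0,-1,1],[1,0,0,-1],(⟨0,[(27,0)]⟩,⟨0,[(28,0)]⟩),(⟨0,[(24,0)]⟩,⟨0,
  [(34,0),(4,0)]⟩),⟨0,[(1,0)]⟩,.k,.k,(.r (-1) ⟨1,[(20,0),(22,0),(2,0)]⟩ ⟨1,[(4,0),(4,0),(30,0),(3,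
  1)]⟩),(.r (-1) ⟨0,[(31,0),(0,0),(11,0),(1,0)]⟩ ⟨4,[(12,1),(0,2),(4,0),(24,0)]⟩),.k,.k,⟨false,1,⟨1,
  [(17,1),(14,1),(12,0),(0,0)]⟩,⟨0,[(13,0)]⟩⟩,⟨true,0,⟨0,[(2,0),(29,0)]⟩,⟨0,[(6,0)]⟩⟩,⟨true,0,⟨0,
  [(43,0)]⟩,⟨0,[(44,0)]⟩⟩,⟨false,0,⟨0,[(8,0)]⟩,⟨0,[(0,0),(16,0),(26,0)]⟩⟩,⟨false,0,⟨0,[]⟩,⟨1,[(25,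
  0),(0,0),(19,0)]⟩⟩,⟨false,0,⟨0,[(10,0)]⟩,⟨0,[(0,0),(16,0)]⟩⟩,[.e ⟨false,1,⟨1,[(43,1),(1,0),(0,
  0)]⟩,⟨0,[(44,0)]⟩⟩ ⟨false,0,⟨0,[(2,0),(9,0),(6,0),(12,0),(11,0)]⟩,⟨0,[(0,0),(30,0),(12,0)]⟩⟩,.o
  ⟨false,1,⟨1,[(0,0),(7,0),(6,0),(21,0)]⟩,⟨0,[(17,0),(26,0)]⟩⟩,.o ⟨false,1,⟨0,[(25,0)]⟩,⟨0,[(2,
  0)]⟩⟩,.a ⟨true,0,⟨0,[(9,0)]⟩,⟨1,[(2,1),(38,0),(3,0)]⟩⟩ ⟨false,1,⟨1,[(20,0),(22,0),(2,0)]⟩,⟨2,[(4,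
  0),(4,0),(34,2)]⟩⟩ ⟨true,0,⟨0,[(2,0),(9,0),(6,0),(12,0),(11,0)]⟩,⟨0,[(9,0),(7,0),(26,0)]⟩⟩]⟩))
  (.R ⟨0,false,false,true,[1,0,0,0,-1],[1,0,1,0,-1],[1,0,1],(⟨0,[(26,0)]⟩,⟨0,[(27,0)]⟩),(⟨0,[(26,0),
  (7,0)]⟩,⟨0,[(0,0),(21,0)]⟩),⟨0,[(0,0)]⟩,.k,.k,(.r (-1) ⟨1,[(19,0),(22,0),(2,0)]⟩ ⟨1,[(3,0),(4,0),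
  (30,0),(3,1)]⟩),.k,.k,.k,⟨true,0,⟨0,[(16,0),(14,0)]⟩,⟨0,[(11,0),(31,0)]⟩⟩,⟨false,1,⟨0,[(31,0),(12,
  0)]⟩,⟨0,[(15,0)]⟩⟩,⟨false,0,⟨2,[(3,0),(4,0)]⟩,⟨1,[(44,0),(0,0)]⟩⟩,⟨true,0,⟨0,[(29,0)]⟩,⟨0,[(16,
  0)]⟩⟩,⟨false,0,⟨0,[]⟩,⟨0,[]⟩⟩,⟨false,0,⟨0,[]⟩,⟨0,[]⟩⟩,[.o ⟨false,1,⟨1,[(8,1),(2,1),(6,0),(0,0),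
  (11,1),(4,0),(6,3)]⟩,⟨0,[(1,0),(14,0)]⟩⟩,.e ⟨false,1,⟨1,[(24,0),(0,0),(19,0)]⟩,⟨2,[(18,0),(20,0),
  (3,0)]⟩⟩ ⟨false,1,⟨0,[(11,0),(7,0),(11,0),(11,1)]⟩,⟨0,[(30,0)]⟩⟩,.o ⟨false,1,⟨0,[(24,0)]⟩,⟨0,[(1,
  0)]⟩⟩,.a ⟨true,0,⟨0,[(8,0)]⟩,⟨1,[(1,1),(38,0),(3,0)]⟩⟩ ⟨true,0,⟨0,[]⟩,⟨5,[(3,0),(4,0),(30,2)]⟩⟩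
  ⟨false,1,⟨0,[(11,0),(7,0),(11,0),(11,1)]⟩,⟨2,[(3,0),(4,0),(7,2)]⟩⟩]⟩))) (.Q [0,0,0,0,0,-2,0,0,0,0,
  0,1] (.p true [0,0,0,0,1] [] (⟨0,[(25,0)]⟩,⟨0,[(24,0)]⟩) .k 0 (⟨0,[]⟩,⟨0,[]⟩) .k .k) (.S ⟨1,0,[0,
  1,-1,-1],[0,-1,0,0,1],[1,2,-1,-2],(⟨1,[(0,0),(25,0)]⟩,⟨0,[(25,0),(11,0)]⟩),⟨0,[(0,0)]⟩,(.r 0 ⟨0,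
  [(40,0)]⟩ ⟨5,[(2,1),(4,1),(15,2),(0,2),(17,5),(1,2)]⟩),(.r 0 ⟨0,[(5,0)]⟩ ⟨5,[(2,3),(4,3),(15,2),
  (0,2),(17,11),(1,2)]⟩),⟨true,0,⟨0,[(41,0)]⟩,⟨0,[(42,0)]⟩⟩,⟨false,1,⟨1,[(23,0),(0,0),(19,0)]⟩,⟨0,
  []⟩⟩,⟨false,0,⟨0,[]⟩,⟨1,[(23,0),(0,0),(19,0)]⟩⟩,⟨true,0,⟨0,[(42,0)]⟩,⟨0,[(41,0)]⟩⟩,[.o ⟨false,0,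
  ⟨1,[(6,0),(2,0),(14,0),(10,0)]⟩,⟨1,[(1,0),(5,0),(27,0),(6,1),(1,0)]⟩⟩,.e ⟨false,0,⟨0,[(16,0)]⟩,⟨5,
  [(2,1),(4,1),(15,2),(0,2),(17,11),(1,2)]⟩⟩ ⟨false,1,⟨1,[(18,0),(22,0),(1,0)]⟩,⟨2,[(2,0),(4,0),(34,
  2)]⟩⟩,.a ⟨true,0,⟨2,[(2,0),(4,0),(16,2)]⟩,⟨0,[(1,0)]⟩⟩ ⟨false,0,⟨2,[(2,0),(4,0),(8,2)]⟩,⟨2,[(2,0),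
  (4,0),(34,5),(1,2)]⟩⟩ ⟨true,0,⟨0,[(40,0)]⟩,⟨2,[(2,0),(4,0),(34,2)]⟩⟩,.o ⟨false,0,⟨0,[(2,0)]⟩,⟨1,
  [(1,1),(33,0),(7,0)]⟩⟩]⟩) (.R ⟨0,false,false,true,[0,-1,0,0,1],[1,-1,-1],[0,1,-1,-1],(⟨0,[(3,0),
  (17,0)]⟩,⟨7,[(0,3),(6,1),(16,1),(0,3),(13,0),(3,0)]⟩),(⟨0,[(21,0)]⟩,⟨1,[(0,0),(25,0),(6,1)]⟩),⟨0,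
  [(0,0)]⟩,(.r 0 ⟨0,[(40,0)]⟩ ⟨5,[(2,1),(4,1),(15,2),(0,2),(17,5),(1,2)]⟩),.k,(.r 0 ⟨0,[(5,0)]⟩ ⟨5,
  [(2,3),(4,3),(15,2),(0,2),(17,11),(1,2)]⟩),.k,.k,.k,⟨true,0,⟨0,[(10,0),(31,0)]⟩,⟨0,[(15,0),(14,
  0)]⟩⟩,⟨false,0,⟨0,[(1,0),(12,0)]⟩,⟨1,[(24,1),(5,1),(4,0),(7,0)]⟩⟩,⟨false,1,⟨1,[(23,0),(0,0),(19,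
  0)]⟩,⟨0,[]⟩⟩,⟨true,0,⟨1,[(1,0),(5,0),(7,1)]⟩,⟨0,[(8,0)]⟩⟩,⟨false,0,⟨0,[]⟩,⟨0,[]⟩⟩,⟨false,0,⟨0,[]⟩,
  ⟨0,[]⟩⟩,[.e ⟨false,0,⟨0,[(17,0)]⟩,⟨5,[(2,1),(4,1),(15,2),(0,2),(17,5),(1,2)]⟩⟩ ⟨false,0,⟨1,[(1,1),
  (13,0),(0,0),(12,0)]⟩,⟨1,[(2,0),(5,0),(19,0),(13,1),(1,1)]⟩⟩,.o ⟨false,0,⟨1,[(9,1),(25,0),(8,0)]⟩,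
  ⟨1,[(28,1),(6,0),(6,1),(1,0)]⟩⟩,.a ⟨true,0,⟨2,[(2,0),(4,0),(16,2)]⟩,⟨0,[(1,0)]⟩⟩ ⟨true,0,⟨0,[(40,
  0)]⟩,⟨2,[(2,0),(4,0),(34,2)]⟩⟩ ⟨false,0,⟨1,[(1,1),(7,1),(25,0),(8,0)]⟩,⟨1,[(2,0),(5,0),(19,0),(13,
  1),(1,1)]⟩⟩,.o ⟨false,0,⟨0,[(2,0)]⟩,⟨1,[(1,1),(33,0),(7,0)]⟩⟩]⟩))))) (.Q [0,0,0,0,0,0,0,0,0,1,-1,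
  -1] (.ed true [0,0,1,0,1] (.r 0 ⟨1,[(7,0),(16,0),(2,0)]⟩ ⟨1,[(11,1),(14,1),(12,0),(0,0)]⟩)) (.R
  ⟨1,false,false,true,[0,0,1,0,1],[1,-1],[1,1,0,-1,0,0,0,1],(⟨0,[(23,0),(6,0)]⟩,⟨0,[(0,0)]⟩),(⟨0,
  [(33,0)]⟩,⟨0,[(34,0)]⟩),⟨0,[(19,0),(3,0)]⟩,.k,.k,(.r 0 ⟨4,[(7,1),(0,2),(4,0),(24,0)]⟩ ⟨0,[(26,0),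
  (0,0),(11,0),(1,0)]⟩),(.r 0 ⟨0,[(25,0),(2,0),(10,0)]⟩ ⟨0,[(12,0),(2,0),(11,0)]⟩),.k,.k,⟨false,0,
  ⟨0,[(7,0),(31,0)]⟩,⟨0,[(12,0),(14,0),(12,0)]⟩⟩,⟨true,0,⟨0,[(4,0),(6,0)]⟩,⟨0,[(1,0)]⟩⟩,⟨false,1,⟨0,
  [(38,0),(2,0)]⟩,⟨0,[(39,0)]⟩⟩,⟨false,1,⟨0,[(6,0),(13,0),(20,0)]⟩,⟨0,[(1,0),(5,0),(31,1)]⟩⟩,⟨true,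
  0,⟨0,[]⟩,⟨0,[(43,0)]⟩⟩,⟨false,1,⟨0,[(9,0),(10,0),(20,0)]⟩,⟨0,[(1,0),(5,0),(31,0)]⟩⟩,[.o ⟨false,0,
  ⟨0,[(38,0)]⟩,⟨1,[(32,0),(6,1),(1,0)]⟩⟩,.a ⟨true,0,⟨7,[(4,1),(11,3),(4,1),(14,0),(1,3),(1,0)]⟩,⟨0,
  [(39,0)]⟩⟩ ⟨true,0,⟨0,[(7,0)]⟩,⟨0,[(12,0),(14,0),(11,0)]⟩⟩ ⟨false,1,⟨2,[(13,0),(2,0),(0,0),(2,2),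
  (3,0)]⟩,⟨0,[(1,0),(37,0)]⟩⟩,.o ⟨false,0,⟨0,[(1,0)]⟩,⟨0,[(11,0),(8,0)]⟩⟩,.o ⟨false,0,⟨1,[(1,1),(25,
  0),(0,0)]⟩,⟨1,[(4,1),(6,1),(2,0),(0,0),(16,0),(6,1)]⟩⟩]⟩) (.R ⟨1,false,false,false,[2,0,-1,0,-1],
  [1,0,-1],[0,0,0,0,0,0,0,-1],(⟨0,[(22,0),(6,0)]⟩,⟨0,[(0,0)]⟩),(⟨0,[(29,0)]⟩,⟨0,[(30,0)]⟩),⟨0,[(18,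
  0),(3,0)]⟩,.k,.k,(.r (-1) ⟨0,[(12,0),(2,0),(11,0)]⟩ ⟨0,[(25,0),(2,0),(10,0)]⟩),.k,(.r (-1) ⟨1,
  [(15,0),(22,0),(2,0)]⟩ ⟨1,[(27,0),(0,0),(10,1),(3,1)]⟩),.k,⟨false,1,⟨1,[(20,0),(0,0),(18,0)]⟩,⟨0,
  []⟩⟩,⟨true,0,⟨0,[(1,0),(9,0)]⟩,⟨0,[(4,0)]⟩⟩,⟨true,0,⟨0,[(43,0)]⟩,⟨0,[]⟩⟩,⟨false,0,⟨0,[(1,0),(9,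
  0)]⟩,⟨1,[(4,1),(35,0),(0,0)]⟩⟩,⟨false,0,⟨0,[(39,0)]⟩,⟨0,[(38,0),(2,0)]⟩⟩,⟨false,0,⟨0,[(1,0),(9,0),
  (27,0)]⟩,⟨0,[(16,0),(3,0)]⟩⟩,[.o ⟨false,0,⟨0,[(12,0)]⟩,⟨1,[(25,1),(6,0),(8,0)]⟩⟩,.e ⟨false,1,⟨0,
  [(12,0),(2,0),(11,0),(11,0)]⟩,⟨1,[(8,0),(16,0),(2,0)]⟩⟩ ⟨false,1,⟨1,[(1,1),(10,1),(27,0),(0,0)]⟩,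
  ⟨0,[(4,0),(3,0)]⟩⟩,.a ⟨true,0,⟨0,[(4,0),(19,0)]⟩,⟨0,[(1,0)]⟩⟩ ⟨false,1,⟨1,[(12,1),(14,1),(12,0),
  (0,0)]⟩,⟨0,[(7,0),(31,0)]⟩⟩ ⟨true,0,⟨0,[(1,0),(10,0)]⟩,⟨0,[(4,0),(3,0)]⟩⟩,.o ⟨false,0,⟨0,[(4,0),
  (6,0)]⟩,⟨1,[(1,1),(30,0),(7,0)]⟩⟩]⟩)))) (.R ⟨1,true,false,true,[0,0,1],[1,0,0,0,-1],[1,0,0,-1,0,0,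
  0,1],(⟨0,[(27,0)]⟩,⟨0,[(26,0)]⟩),(⟨0,[(19,0)]⟩,⟨0,[(20,0)]⟩),⟨0,[(16,0)]⟩,.k,.k,.k,.k,(.r 0 ⟨4,
  [(4,1),(0,2),(4,0),(24,0)]⟩ ⟨0,[(23,0),(0,0),(11,0),(1,0)]⟩),.k,⟨true,0,⟨0,[(4,0)]⟩,⟨0,[(9,0),(14,
  0),(11,0)]⟩⟩,⟨false,0,⟨6,[(0,5),(0,0),(2,1),(0,3),(2,0),(1,1)]⟩,⟨1,[(18,1),(5,1),(4,0),(7,0)]⟩⟩,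
  ⟨false,1,⟨0,[(35,0),(2,0)]⟩,⟨0,[(36,0)]⟩⟩,⟨true,0,⟨1,[(0,0),(2,0),(13,0)]⟩,⟨0,[(2,0)]⟩⟩,⟨true,0,
  ⟨0,[]⟩,⟨0,[(40,0)]⟩⟩,⟨false,0,⟨0,[(0,0)]⟩,⟨0,[(2,0),(32,0),(2,0)]⟩⟩,[]⟩))))))

theorem ok42 : chk K t42 l27 = true := by decide +kernel


end Helper25.S1T.Ypp_1cL2
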