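import Pool.Agent.Helper25.KG.S1b
import Pool.Agent.Helper11.CT.Cut

set_option autoImplicit false
set_option linter.all false

namespace Helper25.S1T.Ypp_1cL2

open Helper25.KG Helper25.KW Helper55.KE Helper11.CT

noncomputable def K : Cls :=
  cE 1 [0,1] (kfY 1 [0,0,0,0,0,0,1,0,0,0,1])

noncomputable def base : List Con :=
  [(false,[0,0,0,0,0,0,-2,0,0,1,-2]),
  (false,[0,0,0,0,0,-1,0,0,0,1,-1]),
  (false,[0,0,0,0,0,-1,0,0,0,0,1]),
  (false,[0,0,0,0,1,0,0,0,-1,0,0,-1]),
  (false,[0,0,0,0,0,0,0,0,1,0,0,1]),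
  (false,[0,0,0,0,0,0,0,0,0,1,0,-1]),
  (false,[0,0,0,0,0,0,0,0,0,0,0,1]),
  (false,[0,0,-1,0,0,0,-1,0,0,1,-1]),
  (false,[0,1,0,0,0,0,1,1,0,0,1]),
  (false,[0,1,0,0,0,0,-1,-1,0,0,-1]),
  (false,[0,0,1,0,0,0,1,0,0,0,1]),
  (false,[0,0,1,0,0,0,-1,0,0,0,-1]),
  (false,[0,0,0,0,0,0,0,0,0,1,-1]),
  (false,[0,0,0,0,0,0,0,0,0,0,1]),
  (true,[2,0,0,0,0,-1]),
  (false,[0,0,0,0,1,0,0,0,0,-2]),
  (false,[0,0,0,0,0,-1,0,0,0,1]),
  (true,[0,0,0,0,0,1]),
  (true,[0,2,-1]),
  (false,[1,0,0,0,-1,0,0,0,0,2]),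
  (true,[0,1,-1,-1]),
  (true,[0,1,0,-1]),
  (true,[0,0,0,1]),
  (true,[0,0,-2,0,1]),
  (true,[0,-2,0,0,1]),
  (true,[-1,0,1]),
  (true,[-1,1])]

noncomputable def l0 : List Con := (false, [0,1,0,1,0,0,0,0,0,-1]) :: base

noncomputable def r0 : List Con := (false, [0,-1,0,-1,0,0,0,0,0,1]) :: base

noncomputable def l1 : List Con := (true, [0,-1,0,2]) :: l0

noncomputable def r1 : List Con := (true, [1,1,0,-2]) :: l0

noncomputable def l2 : List Con := (false, [0,0,1,0,0,0,0,0,-1,1,0,-1]) :: r1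

noncomputable def r2 : List Con := (false, [0,0,-1,0,0,0,0,0,1,-1,0,1]) :: r1

noncomputable def l3 : List Con := (false, [0,1,0,0,0,0,0,0,1,-1,0,1]) :: l2

noncomputable def r3 : List Con := (false, [0,-1,0,0,0,0,0,0,-1,1,0,-1]) :: l2

noncomputable def l4 : List Con := (false, [0,2,0,1,-1,0,0,0,1,-1,0,1]) :: l3

noncomputable def r4 : List Con := (false, [0,-2,0,-1,1,0,0,0,-1,1,0,-1]) :: l3

noncomputable def l5 : List Con := (false, [0,0,0,0,0,-1,0,0,0,0,0,1]) :: r2

noncomputable def r5 : List Con := (false, [0,0,0,0,0,1,0,0,0,0,0,-1]) :: r2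

noncomputable def l6 : List Con := (false, [0,0,1,0,-1,0,0,0,1,0,0,1]) :: l5

noncomputable def r6 : List Con := (false, [0,0,-1,0,1,0,0,0,-1,0,0,-1]) :: l5

noncomputable def l7 : List Con := (true, [1,-1,1,2]) :: r6

noncomputable def r7 : List Con := (true, [0,1,-1,-2]) :: r6

noncomputable def l8 : List Con := (true, [0,-1,2,2]) :: r7

noncomputable def r8 : List Con := (true, [1,1,-2,-2]) :: r7

noncomputable def l9 : List Con := (false, [0,0,0,0,0,-1,0,0,0,1,0,-1]) :: r8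

noncomputable def r9 : List Con := (false, [0,0,0,0,0,1,0,0,0,-1,0,1]) :: r8

noncomputable def l10 : List Con := (true, [1,2,1,0,-1]) :: l9

noncomputable def r10 : List Con := (true, [0,-2,-1,0,1]) :: l9

noncomputable def l11 : List Con := (true, [0,-2,-1,-1,1]) :: r10

noncomputable def r11 : List Con := (true, [1,2,1,1,-1]) :: r10

noncomputable def l12 : List Con := (false, [0,0,-2,0,0,0,0,0,1,-1,0,1]) :: l11

noncomputable def r12 : List Con := (false, [0,0,2,0,0,0,0,0,-1,1,0,-1]) :: l11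

noncomputable def l13 : List Con := (true, [1,-1,0,0,0,0,0,-1]) :: l12

noncomputable def r13 : List Con := (true, [0,1,0,0,0,0,0,1]) :: l12

noncomputable def l14 : List Con := (true, [1,1,0,0,0,0,0,-1]) :: r13

noncomputable def r14 : List Con := (true, [0,-1,0,0,0,0,0,1]) :: r13

noncomputable def l15 : List Con := (false, [0,0,0,0,0,-2,0,0,0,1,0,-1]) :: l14

noncomputable def r15 : List Con := (false, [0,0,0,0,0,2,0,0,0,-1,0,1]) :: l14

noncomputable def l16 : List Con := (false, [0,-1,0,-1,1,0,0,0,-1,1,0,-1]) :: l15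

noncomputable def r16 : List Con := (false, [0,1,0,1,-1,0,0,0,1,-1,0,1]) :: l15

noncomputable def l17 : List Con := (false, [0,-1,0,-1,2,0,0,0,-2,1,0,-2]) :: r16

noncomputable def r17 : List Con := (false, [0,1,0,1,-2,0,0,0,2,-1,0,2]) :: r16

noncomputable def l18 : List Con := (false, [0,0,0,1,0,0,-1,-1,-1,1,-1,-1]) :: r17

noncomputable def r18 : List Con := (false, [0,0,0,-1,0,0,1,1,1,-1,1,1]) :: r17

noncomputable def l19 : List Con := (false, [0,0,0,0,0,-2,0,0,0,0,0,1]) :: r18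

noncomputable def r19 : List Con := (false, [0,0,0,0,0,2,0,0,0,0,0,-1]) :: r18

noncomputable def l20 : List Con := (true, [0,-1,-2,-1,1]) :: r0

noncomputable def r20 : List Con := (true, [1,1,2,1,-1]) :: r0

noncomputable def l21 : List Con := (true, [1,-1,2,1]) :: l20

noncomputable def r21 : List Con := (true, [0,1,-2,-1]) :: l20

noncomputable def l22 : List Con := (true, [0,-1,2,2]) :: r21

noncomputable def r22 : List Con := (true, [1,1,-2,-2]) :: r21

noncomputable def l23 : List Con := (false, [0,0,0,0,0,0,-1,-1,0,0,-1]) :: r22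

noncomputable def r23 : List Con := (false, [0,0,0,0,0,0,1,1,0,0,1]) :: r22

noncomputable def l24 : List Con := (false, [0,0,0,0,0,0,-1,0,0,0,-1]) :: l23

noncomputable def r24 : List Con := (false, [0,0,0,0,0,0,1,0,0,0,1]) :: l23

noncomputable def l25 : List Con := (false, [0,1,0,-1,0,0,1,1,0,0,1]) :: l24

noncomputable def r25 : List Con := (false, [0,-1,0,1,0,0,-1,-1,0,0,-1]) :: l24

noncomputable def l26 : List Con := (false, [0,-1,0,0,1,0,1,1,0,-1,1]) :: l25

noncomputable def r26 : List Con := (false, [0,1,0,0,-1,0,-1,-1,0,1,-1]) :: l25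

noncomputable def l27 : List Con := (true, [0,1,-1,0,0,0,0,1]) :: r26

noncomputable def r27 : List Con := (true, [1,-1,1,0,0,0,0,-1]) :: r26

noncomputable def l28 : List Con := (false, [0,0,0,0,0,0,-1,0,0,0,-1]) :: r23

noncomputable def r28 : List Con := (false, [0,0,0,0,0,0,1,0,0,0,1]) :: r23

noncomputable def l29 : List Con := (false, [0,0,0,-1,0,0,1,1,0,0,1]) :: l28

noncomputable def r29 : List Con := (false, [0,0,0,1,0,0,-1,-1,0,0,-1]) :: l28

noncomputable def l30 : List Con := (false, [0,2,0,-1,0,0,0,0,1,-1,0,1]) :: l29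

noncomputable def r30 : List Con := (false, [0,-2,0,1,0,0,0,0,-1,1,0,-1]) :: l29

noncomputable def l31 : List Con := (true, [0,-1,0,0,1,0,0,-1]) :: l30

noncomputable def r31 : List Con := (true, [1,1,0,0,-1,0,0,1]) :: l30

noncomputable def l32 : List Con := (true, [0,0,-1,0,0,0,0,1]) :: l31

noncomputable def r32 : List Con := (true, [1,0,1,0,0,0,0,-1]) :: l31

noncomputable def l33 : List Con := (false, [0,-1,0,1,0,0,-1,-1,0,1,-1]) :: r32

noncomputable def r33 : List Con := (false, [0,1,0,-1,0,0,1,1,0,-1,1]) :: r32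

noncomputable def l34 : List Con := (false, [0,-1,0,0,0,0,0,0,-1,1,0,-1]) :: r33

noncomputable def r34 : List Con := (false, [0,1,0,0,0,0,0,0,1,-1,0,1]) :: r33

noncomputable def l35 : List Con := (true, [1,-1,2,1,0,0,0,1]) :: r34

noncomputable def r35 : List Con := (true, [0,1,-2,-1,0,0,0,-1]) :: r34


end Helper25.S1T.Ypp_1cL2
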