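import Pool.Agent.Helper25.S1T.Ypp_1cP1_q

set_option autoImplicit false
set_option linter.all false

namespace Helper25.S1T.Ypp_1cP1

open Helper25.KG Helper25.KW Helper55.KE Helper11.CT

noncomputable def t13 : Tre :=
  (.I [0,0,-2,0,1,-2,0,0,-1] (.I [1,-1,2,2] (.Q [0,-2,0,0,1,0,1,1,-1,0,1,-1] (.p true [0,0,1] [0,0,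
  0,0,1] (⟨0,[(34,0)]⟩,⟨0,[(33,0)]⟩) .k 2 (⟨0,[(27,0)]⟩,⟨0,[(26,0)]⟩) .k (.r (-1) ⟨36,[(3,15),(0,1),
  (1,16),(8,17),(4,15),(0,8),(18,2),(4,1)]⟩ ⟨2,[(9,0),(3,0),(0,0),(24,0)]⟩)) (.Q [0,0,2,0,0,0,0,0,1,
  -1,0,1] (.p true [0,0,0,0,1] [1] (⟨0,[(28,0)]⟩,⟨0,[(27,0)]⟩) .k 1 (⟨0,[]⟩,⟨0,[]⟩) .k .k) (.N [0,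
  -2,0,0,1] 0 ⟨0,[(10,0)]⟩ ⟨0,[(2,0)]⟩ (.x 0 ⟨0,[(0,0),(27,0),(11,1)]⟩ ⟨0,[(3,0)]⟩)) (.S ⟨1,0,[0,0,
  -1,-1,0,0,0,-1],[1,-1,-1],[1,1,-1,-2,0,0,0,-1],(⟨0,[(24,0)]⟩,⟨0,[(36,0),(3,0)]⟩),⟨0,[(9,0)]⟩,.k,
  (.r (-1) ⟨3,[(5,0),(4,1),(0,2),(3,0),(6,0),(24,1)]⟩ ⟨0,[(8,0),(40,0)]⟩),⟨true,0,⟨0,[(44,0)]⟩,⟨0,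
  [(45,0)]⟩⟩,⟨false,1,⟨3,[(14,1),(12,1),(10,0),(8,0)]⟩,⟨0,[]⟩⟩,⟨false,0,⟨0,[]⟩,⟨3,[(14,1),(12,1),
  (10,0),(8,0)]⟩⟩,⟨true,0,⟨0,[(45,0)]⟩,⟨0,[(44,0)]⟩⟩,[.a ⟨true,0,⟨0,[(0,0),(14,1),(1,0),(3,1),(5,
  0)]⟩,⟨0,[(18,0),(26,0)]⟩⟩ ⟨true,0,⟨0,[(10,0),(4,0)]⟩,⟨0,[(8,0)]⟩⟩ ⟨false,1,⟨1,[(11,1),(34,0),(0,
  0)]⟩,⟨14,[(6,0),(0,0),(0,6),(11,0),(2,2),(7,4),(10,0)]⟩⟩,.o ⟨false,1,⟨4,[(10,1),(4,1),(3,2),(14,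
  1),(7,0),(1,0),(2,3)]⟩,⟨3,[(0,0),(3,0),(2,1),(4,1),(5,1),(23,0)]⟩⟩,.o ⟨false,0,⟨0,[(34,0)]⟩,⟨0,
  [(12,0)]⟩⟩,.o ⟨false,0,⟨1,[(33,0),(0,2)]⟩,⟨1,[(0,1),(3,0),(7,0),(14,0),(5,0),(8,0),(4,0)]⟩⟩]⟩))
  (.N [0,-2,0,0,1] 0 ⟨0,[(9,0)]⟩ ⟨0,[(1,0)]⟩ (.x 0 ⟨2,[(0,2),(0,1),(12,0),(1,3),(10,2),(5,0),(5,5),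
  (1,0),(4,1)]⟩ ⟨0,[(2,0)]⟩))) (.I [1,-1,3,3,0,0,0,-1] (.I [1,2,0,-1,-1,0,0,1] (.I [0,0,3,0,0,3,1,0,
  1] (.Q [0,0,-2,0,1,0,1,0,0,-1,1] (.p true [0,0,1] [1] (⟨0,[(37,0)]⟩,⟨0,[(36,0)]⟩) .k 1 (⟨0,[]⟩,⟨0,
  []⟩) .k .k) (.Q [0,0,0,-1,0,0,-1,-1,0,1,-1] (.p false [0,0,1] [1] (⟨0,[(38,0)]⟩,⟨0,[(37,0)]⟩) .k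
  1 (⟨0,[]⟩,⟨0,[]⟩) .k .k) (.S ⟨1,0,[0,0,-1,-1,0,0,0,-1],[1,-1,-1],[1,1,-1,-2,0,0,0,-1],(⟨0,[(27,
  0)]⟩,⟨0,[(39,0),(3,0)]⟩),⟨0,[(12,0)]⟩,.k,(.r (-1) ⟨1,[(0,0),(4,0),(8,0),(0,0),(34,0)]⟩ ⟨0,[(11,0),
  (40,0)]⟩),⟨true,0,⟨0,[(47,0)]⟩,⟨0,[(48,0)]⟩⟩,⟨false,1,⟨41,[(4,3),(3,19),(2,3),(13,9),(4,9),(10,4),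
  (8,6)]⟩,⟨0,[]⟩⟩,⟨false,0,⟨0,[]⟩,⟨41,[(4,3),(3,19),(2,3),(13,9),(4,9),(10,4),(8,6)]⟩⟩,⟨true,0,⟨0,
  [(48,0)]⟩,⟨0,[(47,0)]⟩⟩,[.a ⟨true,0,⟨0,[(0,0)]⟩,⟨0,[(21,0),(26,0)]⟩⟩ ⟨true,0,⟨0,[(5,0),(12,0)]⟩,
  ⟨0,[(11,0)]⟩⟩ ⟨false,1,⟨0,[(0,0),(0,0)]⟩,⟨14,[(9,0),(0,0),(0,6),(11,0),(2,2),(7,4),(10,0)]⟩⟩,.o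
  ⟨false,1,⟨1,[(0,1),(40,0),(8,0)]⟩,⟨2,[(1,1),(8,1),(5,0)]⟩⟩,.o ⟨false,0,⟨0,[(37,0)]⟩,⟨0,[(15,0)]⟩⟩,
  .o ⟨false,0,⟨1,[(36,0),(0,2)]⟩,⟨0,[(1,0)]⟩⟩]⟩) (.R ⟨1,false,false,true,[0,0,1],[1,-1],[1,1,-1,-1],
  (⟨0,[(39,0)]⟩,⟨0,[(38,0)]⟩),(⟨0,[(42,0)]⟩,⟨0,[(43,0)]⟩),⟨0,[(28,0)]⟩,.k,.k,.k,.k,.k,.k,⟨true,0,⟨0,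
  []⟩,⟨1,[(36,0),(0,0)]⟩⟩,⟨false,0,⟨16,[(2,0),(5,0),(1,0),(9,0),(1,1),(3,5),(5,0),(0,4),(5,0),(2,
  2)]⟩,⟨0,[(15,0)]⟩⟩,⟨true,0,⟨0,[(14,0)]⟩,⟨14,[(9,0),(0,0),(0,6),(11,0),(2,2),(7,4),(10,0)]⟩⟩,⟨true,
  0,⟨0,[(22,0),(24,0)]⟩,⟨0,[(0,0)]⟩⟩,⟨true,0,⟨0,[(14,0),(33,0)]⟩,⟨5,[(11,1),(4,0),(3,1),(2,0),(2,0),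
  (10,1)]⟩⟩,⟨false,0,⟨0,[(22,0)]⟩,⟨33,[(0,4),(10,7),(3,7),(1,3),(2,20),(4,3),(19,6),(4,10)]⟩⟩,[.o
  ⟨false,0,⟨0,[(47,0)]⟩,⟨41,[(0,7),(3,9),(6,1),(21,7),(11,13),(3,12),(0,14)]⟩⟩,.a ⟨true,0,⟨0,[(20,
  0),(1,0)]⟩,⟨0,[(48,0)]⟩⟩ ⟨false,1,⟨2,[(5,0),(2,0),(16,0),(23,0)]⟩,⟨4,[(4,0),(6,0),(40,1)]⟩⟩ ⟨true,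
  0,⟨0,[(3,0),(18,0),(27,0)]⟩,⟨0,[(0,0),(17,0)]⟩⟩,.o ⟨false,1,⟨7,[(4,0),(3,0),(6,4),(7,0),(6,0),(5,
  1),(4,1),(5,0)]⟩,⟨0,[(24,0)]⟩⟩,.e ⟨true,0,⟨0,[(5,0),(42,0)]⟩,⟨1,[(4,0),(18,0),(13,0)]⟩⟩ ⟨true,0,
  ⟨12,[(5,3),(16,4),(0,4),(2,4),(6,2),(10,1)]⟩,⟨0,[(0,0),(17,0)]⟩⟩]⟩)) (.I [0,0,-3,0,1,-3,-1,0,-1]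
  (.I [1,1,-3,-3,0,0,0,1] (.N [0,-3,1,0,1] 0 ⟨0,[(0,0)]⟩ ⟨0,[(5,0)]⟩ (.x 0 ⟨0,[(3,0)]⟩ ⟨0,[(1,
  0)]⟩)) (.Q [0,0,-1,0,1,0,2,0,0,-1,2] (.p true [0,0,1] [1,0,-1] (⟨0,[(40,0)]⟩,⟨0,[(39,0)]⟩) .k 2
  (⟨0,[(39,0)]⟩,⟨0,[(40,0)]⟩) .k (.r 0 ⟨4,[(10,3),(1,1),(4,1),(3,1),(5,1)]⟩ ⟨0,[(16,0),(2,0),(3,
  0)]⟩)) (.K ⟨0,[1,-1,-1],(-1),0,(⟨0,[(29,0)]⟩,⟨0,[(41,0),(3,0)]⟩),.k,(.r (-1) ⟨3,[(7,1),(2,0),(5,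
  2),(3,0),(6,0),(24,1)]⟩ ⟨1,[(2,0),(1,0),(7,0),(0,0)]⟩),.k,(.r (-1) ⟨17,[(0,5),(9,0),(5,16),(3,6),
  (3,11),(2,0),(19,1),(4,7)]⟩ ⟨9,[(11,5),(0,0),(0,6),(11,5),(2,2),(18,0)]⟩),.k,[⟨0,[(0,0)]⟩,⟨0,[(3,
  0)]⟩,⟨17,[(0,8),(6,3),(3,5),(0,11),(33,0),(0,2),(2,1)]⟩,⟨0,[(24,0),(24,0)]⟩]⟩) (.Q [0,-2,0,1,1,0,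
  -1,-1,-1,1,-1,-1] (.p false [0,0,1] [1,0,0,0,-1] (⟨0,[(41,0)]⟩,⟨0,[(40,0)]⟩) .k 2 (⟨0,[(33,0)]⟩,
  ⟨0,[(34,0)]⟩) .k (.r 0 ⟨23,[(5,1),(5,1),(0,1),(12,1),(2,8),(7,15),(10,2),(3,0)]⟩ ⟨1,[(17,0),(2,0),
  (3,0),(27,0)]⟩)) (.Q [0,0,-1,0,0,0,0,0,-1,1,0,-1] (.p false [0,0,0,0,1] [1] (⟨0,[(35,0)]⟩,⟨0,[(34,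
  0)]⟩) .k 1 (⟨0,[]⟩,⟨0,[]⟩) .k .k) (.Q [0,0,0,0,0,-1,0,0,0,0,0,1] (.ed false [1,-1,0,0,1] .k) (.Q
  [0,0,0,0,0,-1,0,0,0,1,0,-1] (.ed true [0,1,0,0,1] .k) (.S ⟨1,0,[0,-1],[1,0,0,0,-1],[],(⟨0,[(37,
  0)]⟩,⟨0,[(38,0)]⟩),⟨0,[(0,0)]⟩,.k,(.r (-1) ⟨5,[(11,1),(2,0),(16,0),(21,0),(2,3)]⟩ ⟨4,[(6,0),(1,0),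
  (1,0),(5,0),(41,4)]⟩),⟨true,0,⟨0,[(58,0)]⟩,⟨0,[]⟩⟩,⟨false,1,⟨1,[(6,0),(1,0),(47,0)]⟩,⟨0,[]⟩⟩,
  ⟨false,0,⟨0,[(54,0)]⟩,⟨0,[(53,0),(2,0)]⟩⟩,⟨true,0,⟨0,[(54,0)]⟩,⟨0,[(53,0)]⟩⟩,[.o ⟨false,1,⟨20,[(2,
  9),(2,1),(8,9),(2,1),(5,0),(27,6),(4,2)]⟩,⟨1,[(13,0),(22,0),(10,0)]⟩⟩,.a ⟨true,1,⟨0,[(3,0),(22,
  0)]⟩,⟨0,[(13,0)]⟩⟩ ⟨false,1,⟨1,[(55,0),(0,0)]⟩,⟨0,[(58,0)]⟩⟩ ⟨true,1,⟨0,[(56,0)]⟩,⟨1,[(9,0),(6,0),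
  (3,0),(3,0)]⟩⟩,.e ⟨false,1,⟨1,[(6,0),(1,0),(47,0)]⟩,⟨0,[]⟩⟩ ⟨false,1,⟨0,[(56,0)]⟩,⟨0,[(58,0)]⟩⟩,
  .o ⟨false,0,⟨14,[(2,13),(2,0),(1,7),(6,0),(7,1),(1,0),(17,5),(8,6),(5,2)]⟩,⟨3,[(6,0),(1,0),(22,1),
  (4,1),(10,0)]⟩⟩]⟩) (.R ⟨0,false,false,false,[1,0,0,0,-1],[0,1],[1,0,1,1],(⟨0,[(37,0)]⟩,⟨0,[(38,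
  0)]⟩),(⟨0,[(49,0)]⟩,⟨0,[(48,0)]⟩),⟨0,[(0,0)]⟩,.k,.k,(.r (-1) ⟨5,[(11,1),(2,0),(16,0),(21,0),(2,
  3)]⟩ ⟨4,[(6,0),(1,0),(1,0),(5,0),(41,4)]⟩),(.r (-1) ⟨5,[(11,1),(2,0),(16,0),(21,0),(2,3)]⟩ ⟨4,[(6,
  0),(1,0),(1,0),(5,0),(41,4)]⟩),.k,.k,⟨true,0,⟨0,[]⟩,⟨1,[(42,0),(0,0)]⟩⟩,⟨false,1,⟨0,[(31,0)]⟩,⟨1,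
  [(2,0),(4,0),(27,0),(6,0)]⟩⟩,⟨false,0,⟨4,[(6,0),(1,0),(1,0),(5,0)]⟩,⟨5,[(11,1),(2,0),(16,0),(21,
  0),(2,3)]⟩⟩,⟨true,0,⟨9,[(10,1),(2,4),(2,1),(14,4),(15,0),(3,0)]⟩,⟨10,[(2,7),(4,3),(3,1),(2,2),(7,
  0),(1,3),(1,2),(24,0)]⟩⟩,⟨false,0,⟨0,[]⟩,⟨0,[]⟩⟩,⟨false,0,⟨0,[]⟩,⟨0,[]⟩⟩,[.e ⟨false,0,⟨0,[(54,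
  0)]⟩,⟨1,[(14,0),(16,0),(21,0)]⟩⟩ ⟨false,1,⟨4,[(6,0),(1,0),(1,0),(5,0),(14,4)]⟩,⟨10,[(2,7),(4,3),
  (3,1),(2,2),(7,0),(1,3),(1,2),(24,0)]⟩⟩,.o ⟨false,1,⟨28,[(3,4),(6,0),(6,5),(3,4),(9,4),(19,7),(2,
  8),(1,5)]⟩,⟨0,[(53,0)]⟩⟩,.a ⟨true,0,⟨3,[(2,2),(4,0),(27,0),(6,0)]⟩,⟨0,[(36,0)]⟩⟩ ⟨true,0,⟨4,[(6,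
  0),(1,0),(1,0),(5,0)]⟩,⟨0,[(52,0)]⟩⟩ ⟨false,1,⟨9,[(10,1),(6,1),(13,4),(4,4),(10,0),(3,0),(4,2)]⟩,
  ⟨10,[(2,7),(4,3),(3,1),(2,2),(7,0),(1,3),(1,2),(24,0)]⟩⟩,.o ⟨false,0,⟨14,[(2,13),(2,0),(1,7),(6,
  0),(7,1),(1,0),(17,5),(8,6),(5,2)]⟩,⟨3,[(6,0),(1,0),(22,1),(4,1),(10,0)]⟩⟩]⟩)) (.R ⟨0,false,false,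
  false,[0,1,0,0,-1],[0,1],[0,0,1],(⟨0,[(0,0)]⟩,⟨0,[(37,0),(9,0)]⟩),(⟨0,[(48,0)]⟩,⟨0,[(47,0)]⟩),⟨0,
  [(37,0)]⟩,(.r (-1) ⟨9,[(5,6),(1,6),(1,1),(6,1),(38,2)]⟩ ⟨0,[(51,0)]⟩),.k,.k,.k,.k,.k,⟨false,1,⟨1,
  [(13,0),(16,0),(21,0)]⟩,⟨0,[(53,0)]⟩⟩,⟨true,0,⟨0,[(35,0)]⟩,⟨14,[(1,13),(2,0),(1,7),(6,0),(7,1),(1,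
  0),(17,5),(8,6),(5,2)]⟩⟩,⟨true,0,⟨0,[(52,0)]⟩,⟨0,[(53,0)]⟩⟩,⟨false,0,⟨0,[(35,0)]⟩,⟨20,[(1,9),(2,
  1),(8,9),(2,1),(5,0),(27,6),(4,2)]⟩⟩,⟨false,0,⟨0,[]⟩,⟨0,[]⟩⟩,⟨false,0,⟨0,[]⟩,⟨0,[]⟩⟩,[.a ⟨true,0,
  ⟨0,[(53,0)]⟩,⟨0,[(25,0),(1,0)]⟩⟩ ⟨true,0,⟨1,[(41,0),(0,0)]⟩,⟨0,[]⟩⟩ ⟨false,0,⟨0,[(35,0),(17,0)]⟩,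
  ⟨4,[(1,0),(8,1),(2,0),(8,0),(11,1),(15,0)]⟩⟩,.o ⟨false,1,⟨28,[(2,4),(6,0),(6,5),(3,4),(9,4),(19,
  7),(2,8),(1,5)]⟩,⟨0,[(52,0)]⟩⟩,.o ⟨false,1,⟨9,[(1,7),(32,1),(15,5),(3,0),(0,0),(1,1)]⟩,⟨1,[(35,1),
  (5,0),(0,0)]⟩⟩,.o ⟨false,1,⟨38,[(1,16),(2,0),(1,1),(6,0),(7,1),(1,0),(10,20),(15,18),(5,8)]⟩,⟨0,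
  [(35,0)]⟩⟩]⟩)) (.Q [0,0,1,0,0,0,0,0,-1,0,0,-1] (.p false [0,0,0,0,1] [] (⟨0,[(36,0)]⟩,⟨0,[(35,
  0)]⟩) .k 0 (⟨0,[]⟩,⟨0,[]⟩) .k .k) (.Q [0,0,0,0,0,-1,0,0,0,0,0,1] (.ed false [1,-1,0,0,1] .k) (.S
  ⟨1,0,[0,2],[0,0,0,0,1],[1,1,0,-1],(⟨0,[(38,0)]⟩,⟨0,[(37,0)]⟩),⟨0,[(0,0)]⟩,.k,(.r 0 ⟨0,[(52,0)]⟩
  ⟨4,[(2,1),(3,0),(1,0),(1,0),(6,0),(5,2),(7,0)]⟩),⟨false,1,⟨10,[(2,5),(8,1),(2,6),(16,0),(24,2)]⟩,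
  ⟨0,[(54,0)]⟩⟩,⟨true,0,⟨0,[(58,0)]⟩,⟨0,[]⟩⟩,⟨true,0,⟨0,[]⟩,⟨0,[(58,0)]⟩⟩,⟨false,0,⟨0,[(54,0)]⟩,⟨10,
  [(2,5),(8,1),(2,6),(16,0),(24,2)]⟩⟩,[.e ⟨false,0,⟨4,[(11,1),(38,0),(2,0)]⟩,⟨9,[(10,1),(6,1),(5,3),
  (7,3),(23,0),(0,0)]⟩⟩ ⟨false,0,⟨0,[(50,0)]⟩,⟨0,[(56,0)]⟩⟩,.o ⟨false,0,⟨5,[(2,2),(10,1),(17,0),(15,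
  0),(2,0)]⟩,⟨30,[(1,11),(1,7),(7,1),(3,3),(5,3),(1,10),(2,3),(24,4),(4,2)]⟩⟩,.a ⟨true,0,⟨0,[(36,
  0)]⟩,⟨1,[(1,0),(1,0),(3,0),(3,0),(8,0),(6,1),(26,1)]⟩⟩ ⟨true,0,⟨0,[(53,0)]⟩,⟨0,[(54,0)]⟩⟩ ⟨false,
  0,⟨0,[(58,0)]⟩,⟨0,[(56,0)]⟩⟩,.o ⟨false,0,⟨0,[(2,0)]⟩,⟨0,[(1,0),(53,0)]⟩⟩]⟩) (.R ⟨0,false,false,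
  false,[0,1,0,0,-1],[0,1],[0,0,1],(⟨0,[(0,0)]⟩,⟨0,[(38,0),(9,0)]⟩),(⟨0,[(49,0)]⟩,⟨0,[(48,0)]⟩),⟨0,
  [(38,0)]⟩,(.r (-1) ⟨4,[(2,1),(3,0),(1,0),(1,0),(6,0),(5,2),(7,0)]⟩ ⟨0,[(52,0)]⟩),.k,.k,.k,.k,.k,
  ⟨false,1,⟨1,[(14,0),(16,0),(21,0)]⟩,⟨0,[(54,0)]⟩⟩,⟨true,0,⟨0,[(36,0)]⟩,⟨0,[(1,0)]⟩⟩,⟨true,0,⟨0,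
  [(53,0)]⟩,⟨0,[(54,0)]⟩⟩,⟨false,0,⟨0,[(36,0)]⟩,⟨30,[(1,11),(1,7),(7,1),(3,3),(5,3),(1,10),(2,3),
  (24,4),(4,2)]⟩⟩,⟨false,0,⟨0,[]⟩,⟨0,[]⟩⟩,⟨false,0,⟨0,[]⟩,⟨0,[]⟩⟩,[.a ⟨true,0,⟨0,[(54,0)]⟩,⟨0,[(26,
  0),(1,0)]⟩⟩ ⟨true,0,⟨1,[(42,0),(0,0)]⟩,⟨0,[]⟩⟩ ⟨false,0,⟨0,[(36,0),(17,0)]⟩,⟨14,[(1,2),(1,0),(7,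
  7),(3,0),(5,0),(1,5),(11,4),(15,1)]⟩⟩,.o ⟨false,1,⟨28,[(3,4),(6,0),(6,5),(3,4),(9,4),(19,7),(2,8),
  (1,5)]⟩,⟨0,[(53,0)]⟩⟩,.o ⟨false,1,⟨2,[(0,1),(0,0),(10,1),(36,1),(1,0)]⟩,⟨5,[(2,1),(5,0),(25,0),(1,
  2),(1,0),(4,0),(4,1)]⟩⟩,.o ⟨false,1,⟨2,[(1,1),(33,0),(15,0),(3,0)]⟩,⟨0,[(36,0)]⟩⟩]⟩)) (.Q [0,0,0,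
  0,0,-1,0,0,0,1,0,-1] (.ed true [0,1,0,0,1] .k) (.S ⟨1,0,[],[1,0,0,0,-1],[0,-1],(⟨0,[(37,0)]⟩,⟨0,
  [(38,0)]⟩),⟨0,[(0,0)]⟩,.k,(.r (-1) ⟨10,[(2,0),(8,3),(2,2),(16,1),(24,5)]⟩ ⟨4,[(6,0),(1,0),(1,0),
  (5,0),(41,4)]⟩),⟨false,1,⟨4,[(2,1),(20,2),(7,0),(24,0)]⟩,⟨0,[]⟩⟩,⟨true,0,⟨0,[(58,0)]⟩,⟨0,[]⟩⟩,
  ⟨true,0,⟨0,[(54,0)]⟩,⟨0,[(53,0)]⟩⟩,⟨false,0,⟨0,[(54,0)]⟩,⟨10,[(2,5),(8,1),(2,6),(16,0),(24,2)]⟩⟩,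
  [.e ⟨false,1,⟨1,[(55,0),(0,0)]⟩,⟨0,[(58,0)]⟩⟩ ⟨false,1,⟨4,[(6,0),(1,0),(14,1),(7,1),(18,0)]⟩,⟨0,
  []⟩⟩,.o ⟨false,1,⟨0,[(3,0),(18,0)]⟩,⟨5,[(2,2),(10,1),(17,0),(15,0),(2,0)]⟩⟩,.e ⟨false,1,⟨0,[(56,
  0)]⟩,⟨0,[(58,0)]⟩⟩ ⟨false,1,⟨4,[(2,1),(20,2),(7,0),(24,0)]⟩,⟨0,[]⟩⟩,.a ⟨true,0,⟨0,[(3,0),(5,0),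
  (32,0)]⟩,⟨0,[(1,0)]⟩⟩ ⟨true,1,⟨1,[(55,0),(0,0)]⟩,⟨1,[(9,0),(6,0),(3,0),(3,0)]⟩⟩ ⟨false,1,⟨1,[(55,
  0),(0,0)]⟩,⟨1,[(42,0),(0,0)]⟩⟩]⟩) (.Q [0,0,0,0,0,0,0,0,-1,1,0,-1] (.p false [0,0,0,0,1] [1] (⟨0,
  [(38,0)]⟩,⟨0,[(37,0)]⟩) .k 1 (⟨0,[]⟩,⟨0,[]⟩) .k .k) (.S ⟨1,0,[0,2],[0,0,0,0,1],[1,1,0,-1],(⟨0,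
  [(39,0)]⟩,⟨0,[(38,0)]⟩),⟨1,[(1,0),(17,0),(15,0),(3,0)]⟩,.k,(.r 0 ⟨0,[(53,0)]⟩ ⟨4,[(3,1),(3,0),(1,
  0),(1,0),(6,0),(5,2),(7,0)]⟩),⟨false,1,⟨10,[(3,5),(8,1),(2,6),(16,0),(24,2)]⟩,⟨0,[(55,0)]⟩⟩,⟨true,
  0,⟨0,[(59,0)]⟩,⟨0,[]⟩⟩,⟨true,0,⟨0,[]⟩,⟨0,[(59,0)]⟩⟩,⟨false,0,⟨0,[(55,0)]⟩,⟨10,[(3,5),(8,1),(2,6),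
  (16,0),(24,2)]⟩⟩,[.e ⟨false,0,⟨4,[(12,1),(38,0),(2,0)]⟩,⟨9,[(11,1),(6,1),(5,3),(7,3),(23,0),(0,
  0)]⟩⟩ ⟨false,0,⟨0,[(51,0)]⟩,⟨0,[(57,0)]⟩⟩,.o ⟨false,0,⟨5,[(3,2),(10,1),(17,0),(15,0),(2,0)]⟩,⟨2,
  [(0,1),(23,0),(27,0),(4,0)]⟩⟩,.a ⟨true,0,⟨0,[(37,0)]⟩,⟨0,[(0,0)]⟩⟩ ⟨true,0,⟨0,[(54,0)]⟩,⟨0,[(55,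
  0)]⟩⟩ ⟨false,0,⟨0,[(59,0)]⟩,⟨0,[(57,0)]⟩⟩,.o ⟨false,0,⟨0,[(3,0)]⟩,⟨3,[(0,2),(35,0),(15,0),(3,
  1)]⟩⟩]⟩) (.R ⟨0,false,false,false,[1,0,0,0,-1],[0,0,0,0,1],[0,-1],(⟨0,[(38,0)]⟩,⟨0,[(39,0)]⟩),(⟨0,
  [(39,0)]⟩,⟨0,[(38,0)]⟩),⟨0,[(1,0)]⟩,.k,.k,(.r (-1) ⟨10,[(3,0),(8,3),(2,2),(16,1),(24,5)]⟩ ⟨4,[(7,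
  0),(1,0),(1,0),(5,0),(41,4)]⟩),.k,.k,.k,⟨true,1,⟨0,[(57,0)]⟩,⟨1,[(10,0),(6,0),(3,0),(3,0)]⟩⟩,
  ⟨false,0,⟨0,[(0,0),(1,0)]⟩,⟨3,[(4,5),(5,2),(6,0),(3,2),(1,1),(4,2),(7,1),(6,0)]⟩⟩,⟨false,1,⟨4,[(3,
  1),(20,2),(7,0),(24,0)]⟩,⟨0,[]⟩⟩,⟨true,(-1),⟨0,[(0,0),(13,0)]⟩,⟨0,[(4,1),(3,1),(3,0),(8,1),(6,3),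
  (23,0),(2,1)]⟩⟩,⟨false,0,⟨0,[]⟩,⟨0,[]⟩⟩,⟨false,0,⟨0,[]⟩,⟨0,[]⟩⟩,[.o ⟨false,0,⟨5,[(3,2),(10,1),(17,
  0),(15,0),(2,0)]⟩,⟨0,[(4,0),(18,0)]⟩⟩,.o ⟨false,0,⟨0,[(0,0)]⟩,⟨0,[(36,0)]⟩⟩,.o ⟨false,1,⟨0,[(36,
  0)]⟩,⟨0,[(0,0)]⟩⟩,.a ⟨true,0,⟨0,[(4,0),(5,0),(32,0)]⟩,⟨0,[(2,0)]⟩⟩ ⟨true,1,⟨1,[(56,0),(0,0)]⟩,⟨1,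
  [(10,0),(6,0),(3,0),(3,0)]⟩⟩ ⟨false,0,⟨0,[(0,0),(1,0)]⟩,⟨0,[(4,1),(5,0),(12,0),(19,0)]⟩⟩]⟩)))))
  (.Q [0,0,-1,0,0,0,0,0,1,-1,0,1] (.p true [0,0,0,0,1] [1] (⟨0,[(35,0)]⟩,⟨0,[(34,0)]⟩) .k 1 (⟨0,[]⟩,
  ⟨0,[]⟩) .k .k) (.Q [0,0,-1,-1,1,0,1,1,-1,0,1,-1] (.p true [0,0,1] [0,0,0,0,1] (⟨0,[(43,0)]⟩,⟨0,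
  [(42,0)]⟩) .k 2 (⟨0,[(36,0)]⟩,⟨0,[(35,0)]⟩) .k (.r (-1) ⟨36,[(12,15),(0,1),(1,16),(8,17),(4,15),
  (0,8),(18,2),(4,1)]⟩ ⟨5,[(8,0),(9,2),(3,1),(25,1)]⟩)) (.Q [0,0,-1,0,1,0,0,0,-1,0,0,-1] (.p false
  [0,0,0,0,1] [] (⟨0,[(37,0)]⟩,⟨0,[(36,0)]⟩) .k 0 (⟨0,[]⟩,⟨0,[]⟩) .k .k) (.S ⟨1,0,[0,1,-1,-1],[0,-1,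
  0,0,1],[1,2,-1,-2],(⟨2,[(2,0),(4,0),(4,0),(25,1),(3,0),(3,0)]⟩,⟨0,[(37,0),(11,0)]⟩),⟨2,[(2,1),(4,
  1),(4,1),(25,0),(3,1),(3,1)]⟩,(.r 0 ⟨0,[(52,0)]⟩ ⟨9,[(6,6),(1,6),(1,1),(6,1),(38,2)]⟩),(.r 0 ⟨0,
  [(11,0)]⟩ ⟨9,[(6,8),(1,8),(1,3),(6,3),(38,0)]⟩),⟨true,0,⟨0,[(53,0)]⟩,⟨0,[(54,0)]⟩⟩,⟨false,1,⟨1,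
  [(6,0),(1,0),(47,0)]⟩,⟨0,[]⟩⟩,⟨false,0,⟨0,[]⟩,⟨1,[(6,0),(1,0),(47,0)]⟩⟩,⟨true,0,⟨0,[(54,0)]⟩,⟨0,
  [(53,0)]⟩⟩,[.e ⟨false,0,⟨4,[(11,3),(38,1),(2,1)]⟩,⟨2,[(10,0),(6,0),(36,0),(0,0),(0,1)]⟩⟩ ⟨false,0,
  ⟨0,[(11,0),(42,0)]⟩,⟨9,[(6,6),(1,6),(1,1),(6,1),(38,2)]⟩⟩,.o ⟨false,0,⟨30,[(2,12),(0,10),(3,10),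
  (3,9),(12,10),(11,6),(14,5),(4,15)]⟩,⟨4,[(0,2),(9,0),(5,0),(18,1),(19,0)]⟩⟩,.o ⟨false,0,⟨42,[(2,
  0),(0,11),(1,3),(1,11),(16,7),(11,29),(14,13),(4,9)]⟩,⟨0,[(0,0)]⟩⟩,.a ⟨true,(-1),⟨0,[(2,0),(4,0),
  (34,0)]⟩,⟨0,[(11,0),(11,0),(30,1)]⟩⟩ ⟨false,0,⟨0,[(19,0)]⟩,⟨4,[(6,1),(1,1),(1,1),(6,1),(38,2)]⟩⟩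
  ⟨true,0,⟨0,[(11,0),(42,0)]⟩,⟨1,[(10,0),(18,0),(13,0)]⟩⟩]⟩) (.K ⟨0,[0,0,0,0,1],(-1),(-1),(⟨0,[(38,
  0)]⟩,⟨0,[(37,0)]⟩),.k,(.r 0 ⟨0,[(52,0)]⟩ ⟨9,[(6,6),(1,6),(1,1),(6,1),(38,2)]⟩),(.r 0 ⟨4,[(6,0),(1,
  0),(1,0),(5,0),(41,4)]⟩ ⟨5,[(11,1),(2,0),(16,0),(21,0),(2,3)]⟩),.k,.k,[⟨0,[(1,0),(23,0)]⟩,⟨0,[(0,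
  0)]⟩,⟨0,[(35,0)]⟩,⟨0,[(13,0)]⟩]⟩)) (.S ⟨1,0,[0,1],[0,0,0,0,1],[0,2],(⟨0,[(37,0)]⟩,⟨0,[(36,0)]⟩),
  ⟨13,[(0,2),(4,1),(0,0),(4,0),(5,1),(7,2),(11,10),(3,2),(3,1),(4,0)]⟩,.k,(.r 0 ⟨0,[(51,0)]⟩ ⟨9,[(5,
  6),(1,6),(1,1),(6,1),(38,2)]⟩),⟨true,0,⟨0,[(57,0)]⟩,⟨0,[]⟩⟩,⟨false,1,⟨1,[(5,0),(1,0),(47,0)]⟩,⟨0,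
  []⟩⟩,⟨false,0,⟨0,[(53,0)]⟩,⟨0,[(52,0),(2,0)]⟩⟩,⟨true,0,⟨0,[(53,0)]⟩,⟨0,[(52,0)]⟩⟩,[.e ⟨false,0,⟨0,
  [(49,0)]⟩,⟨0,[(55,0)]⟩⟩ ⟨false,0,⟨2,[(10,0),(38,0),(3,1)]⟩,⟨1,[(5,0),(1,0),(47,0)]⟩⟩,.o ⟨false,0,
  ⟨4,[(0,0),(0,0),(0,0),(32,1),(14,0),(4,0)]⟩,⟨0,[(34,0)]⟩⟩,.o ⟨false,0,⟨4,[(0,0),(0,0),(0,0),(32,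
  1),(14,0),(4,0)]⟩,⟨0,[(34,0)]⟩⟩,.a ⟨true,(-1),⟨0,[(0,0),(24,0)]⟩,⟨2,[(10,0),(11,2),(26,0),(3,
  1)]⟩⟩ ⟨false,0,⟨2,[(10,0),(38,0),(3,1)]⟩,⟨1,[(41,0),(0,0),(12,1)]⟩⟩ ⟨true,0,⟨2,[(10,0),(38,0),(3,
  1)]⟩,⟨1,[(41,0),(0,0)]⟩⟩]⟩)) (.Q [0,0,0,0,0,0,0,0,1,-1,0,1] (.p true [0,0,0,0,1] [1] (⟨0,[(36,
  0)]⟩,⟨0,[(35,0)]⟩) .k 1 (⟨0,[]⟩,⟨0,[]⟩) .k .k) (.Q [0,-1,0,0,1,0,0,0,-1,0,0,-1] (.p false [0,0,0,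
  0,1] [] (⟨0,[(37,0)]⟩,⟨0,[(36,0)]⟩) .k 0 (⟨0,[]⟩,⟨0,[]⟩) .k .k) (.R ⟨1,false,false,false,[0,0,1],
  [0,0,0,0,1],[0,1,1],(⟨0,[(45,0)]⟩,⟨0,[(44,0)]⟩),(⟨0,[(38,0)]⟩,⟨0,[(37,0)]⟩),⟨0,[(34,0)]⟩,.k,.k,.k,
  .k,(.r (-1) ⟨28,[(11,1),(2,6),(0,10),(10,17),(4,6),(0,8),(18,2),(4,11)]⟩ ⟨2,[(10,0),(13,1),(25,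
  1)]⟩),.k,⟨true,0,⟨1,[(42,0),(0,0)]⟩,⟨0,[]⟩⟩,⟨false,0,⟨0,[(1,0),(37,0)]⟩,⟨0,[(2,0),(18,0)]⟩⟩,⟨true,
  0,⟨5,[(10,0),(13,4),(25,1),(2,2)]⟩,⟨0,[(15,0)]⟩⟩,⟨false,0,⟨0,[(1,0),(26,0)]⟩,⟨0,[(0,0),(26,0)]⟩⟩,
  ⟨false,0,⟨0,[(25,0)]⟩,⟨28,[(11,1),(2,6),(0,10),(10,17),(4,6),(0,8),(18,2),(4,11)]⟩⟩,⟨false,0,⟨0,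
  [(1,0),(26,0),(25,0)]⟩,⟨0,[(0,0),(25,0)]⟩⟩,[.o ⟨false,0,⟨1,[(13,0),(22,0),(10,0)]⟩,⟨0,[(0,0)]⟩⟩,
  .o ⟨false,0,⟨0,[(1,0)]⟩,⟨0,[(35,0)]⟩⟩,.o ⟨false,1,⟨3,[(6,0),(1,0),(12,1),(20,1),(4,0)]⟩,⟨0,[(30,
  0)]⟩⟩,.a ⟨true,0,⟨0,[(42,0)]⟩,⟨0,[(39,0)]⟩⟩ ⟨true,0,⟨0,[(58,0)]⟩,⟨0,[]⟩⟩ ⟨false,0,⟨0,[(1,0),(37,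
  0)]⟩,⟨0,[(0,0),(41,0)]⟩⟩]⟩) (.Q [0,0,0,0,0,-1,0,0,0,1,0,-1] (.ed true [0,1,0,0,1] .k) (.S ⟨1,0,[0,
  -1],[1,0,0,0,-1],[1,0,0,-1],(⟨0,[(38,0)]⟩,⟨0,[(39,0)]⟩),⟨0,[(0,0)]⟩,.k,(.r (-1) ⟨5,[(12,1),(2,0),
  (16,0),(21,0),(2,3)]⟩ ⟨4,[(7,0),(1,0),(1,0),(5,0),(41,4)]⟩),⟨true,0,⟨0,[(54,0)]⟩,⟨0,[(55,0)]⟩⟩,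
  ⟨false,1,⟨1,[(7,0),(1,0),(47,0)]⟩,⟨0,[]⟩⟩,⟨false,0,⟨0,[]⟩,⟨1,[(7,0),(1,0),(47,0)]⟩⟩,⟨true,0,⟨0,
  [(55,0)]⟩,⟨0,[(54,0)]⟩⟩,[.e ⟨false,1,⟨1,[(15,0),(16,0),(21,0)]⟩,⟨0,[(55,0)]⟩⟩ ⟨false,1,⟨1,[(56,0),
  (0,0)]⟩,⟨0,[(59,0)]⟩⟩,.o ⟨false,2,⟨1,[(24,1),(23,0),(8,0)]⟩,⟨5,[(1,4),(10,0),(1,0),(2,1),(3,1),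
  (30,1)]⟩⟩,.o ⟨false,1,⟨0,[(36,0)]⟩,⟨0,[(2,0)]⟩⟩,.a ⟨true,0,⟨0,[(3,0)]⟩,⟨1,[(1,1),(54,0),(0,0)]⟩⟩
  ⟨false,1,⟨5,[(12,1),(2,0),(16,0),(21,0),(2,3)]⟩,⟨4,[(7,0),(1,0),(1,0),(5,0)]⟩⟩ ⟨true,1,⟨1,[(56,0),
  (0,0)]⟩,⟨1,[(10,0),(6,0),(3,0),(3,0)]⟩⟩]⟩) (.R ⟨0,false,false,true,[1,0,0,0,-1],[2,-1,0,0,-1],[0,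
  0,0,-1],(⟨0,[(38,0)]⟩,⟨0,[(39,0)]⟩),(⟨0,[(38,0),(10,0)]⟩,⟨0,[(0,0)]⟩),⟨0,[(0,0)]⟩,.k,(.r (-1) ⟨5,
  [(12,1),(2,0),(16,0),(21,0),(2,3)]⟩ ⟨4,[(7,0),(1,0),(1,0),(5,0),(41,4)]⟩),(.r (-1) ⟨5,[(12,1),(2,
  0),(16,0),(21,0),(2,3)]⟩ ⟨4,[(7,0),(1,0),(1,0),(5,0),(41,4)]⟩),.k,.k,.k,⟨true,0,⟨1,[(43,0),(0,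
  0)]⟩,⟨0,[]⟩⟩,⟨false,0,⟨0,[(49,0),(0,0)]⟩,⟨3,[(32,0),(3,0),(15,0),(3,0)]⟩⟩,⟨true,0,⟨0,[(54,0)]⟩,⟨0,
  [(55,0)]⟩⟩,⟨false,0,⟨0,[(27,0),(1,0)]⟩,⟨17,[(11,1),(6,1),(33,5),(2,7),(0,4),(0,6)]⟩⟩,⟨false,0,⟨0,
  []⟩,⟨0,[]⟩⟩,⟨false,0,⟨0,[]⟩,⟨0,[]⟩⟩,[.e ⟨false,1,⟨1,[(15,0),(16,0),(21,0)]⟩,⟨0,[(55,0)]⟩⟩ ⟨false,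
  0,⟨0,[(1,0),(1,0),(8,0),(42,0),(1,0)]⟩,⟨9,[(11,1),(5,1),(14,4),(3,4),(11,0),(3,0)]⟩⟩,.o ⟨false,1,
  ⟨0,[(15,0)]⟩,⟨18,[(1,8),(9,1),(2,4),(2,1),(14,4),(19,10),(2,8)]⟩⟩,.o ⟨false,1,⟨0,[(36,0)]⟩,⟨0,[(2,
  0)]⟩⟩,.a ⟨true,0,⟨0,[(3,0)]⟩,⟨1,[(1,1),(54,0),(0,0)]⟩⟩ ⟨false,1,⟨5,[(12,1),(2,0),(16,0),(21,0),(2,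
  3)]⟩,⟨4,[(7,0),(1,0),(1,0),(5,0)]⟩⟩ ⟨true,0,⟨0,[(1,0),(1,0),(8,0),(42,0),(1,0)]⟩,⟨5,[(11,0),(5,1),
  (7,0),(25,1),(0,1),(1,0)]⟩⟩]⟩))) (.Q [0,0,0,0,0,-1,0,0,0,1,0,-1] (.ed true [0,1,0,0,1] .k) (.S ⟨1,
  0,[],[1,0,0,0,-1],[0,-1],(⟨0,[(37,0)]⟩,⟨0,[(38,0)]⟩),⟨0,[(0,0)]⟩,.k,(.r (-1) ⟨5,[(11,1),(2,0),(16,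
  0),(21,0),(2,3)]⟩ ⟨4,[(6,0),(1,0),(1,0),(5,0),(41,4)]⟩),⟨false,1,⟨1,[(6,0),(1,0),(47,0)]⟩,⟨0,[]⟩⟩,
  ⟨true,0,⟨0,[(58,0)]⟩,⟨0,[]⟩⟩,⟨true,0,⟨0,[(54,0)]⟩,⟨0,[(53,0)]⟩⟩,⟨false,0,⟨0,[(54,0)]⟩,⟨0,[(53,0),
  (2,0)]⟩⟩,[.e ⟨false,1,⟨1,[(55,0),(0,0)]⟩,⟨0,[(58,0)]⟩⟩ ⟨false,1,⟨4,[(6,0),(1,0),(14,1),(7,1),(18,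
  0)]⟩,⟨0,[]⟩⟩,.o ⟨false,1,⟨2,[(1,1),(21,0),(27,0),(4,0)]⟩,⟨1,[(13,0),(22,0),(10,0)]⟩⟩,.e ⟨false,1,
  ⟨0,[(56,0)]⟩,⟨0,[(58,0)]⟩⟩ ⟨false,1,⟨1,[(6,0),(1,0),(47,0)]⟩,⟨0,[]⟩⟩,.a ⟨true,0,⟨0,[(2,0)]⟩,⟨0,
  [(3,0),(3,0),(3,0),(8,0),(33,3),(1,1)]⟩⟩ ⟨true,1,⟨1,[(55,0),(0,0)]⟩,⟨1,[(9,0),(6,0),(3,0),(3,
  0)]⟩⟩ ⟨false,1,⟨1,[(55,0),(0,0)]⟩,⟨1,[(42,0),(0,0)]⟩⟩]⟩) (.K ⟨0,[-1,0,1,0,1],0,(-1),(⟨0,[(0,0),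
  (33,0)]⟩,⟨0,[(37,0),(6,0)]⟩),.k,(.r 0 ⟨41,[(9,7),(1,7),(3,15),(13,17),(2,8),(18,2),(3,4)]⟩ ⟨1,
  [(10,0),(3,0),(9,0),(6,0)]⟩),(.r 0 ⟨2,[(17,1),(11,0),(13,0),(6,1)]⟩ ⟨0,[(20,0),(35,0)]⟩),.k,.k,
  [⟨0,[(1,0)]⟩,⟨1,[(3,1),(6,0),(9,0),(35,1)]⟩,⟨0,[(23,0),(17,0)]⟩,⟨0,[(3,0),(50,0)]⟩]⟩))))))) (.Q
  [0,0,-1,0,0,0,0,0,1,-1,0,1] (.p true [0,0,0,0,1] [1] (⟨0,[(32,0)]⟩,⟨0,[(31,0)]⟩) .k 1 (⟨0,[]⟩,⟨0,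
  []⟩) .k .k) (.Q [0,0,0,0,0,0,0,0,0,1,-1,-1] (.ed true [0,0,1,0,1] (.r 0 ⟨23,[(4,1),(5,1),(0,1),
  (12,1),(2,8),(7,15),(10,2),(3,0)]⟩ ⟨1,[(16,0),(2,0),(3,0),(27,0)]⟩)) (.S ⟨1,0,[],[1,0,0,0,-1],[0,
  -1],(⟨0,[(33,0)]⟩,⟨0,[(34,0)]⟩),⟨0,[(0,0),(29,0)]⟩,.k,(.r (-1) ⟨5,[(7,1),(2,0),(16,0),(21,0),(2,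
  3)]⟩ ⟨4,[(6,0),(6,0),(40,6)]⟩),⟨false,1,⟨41,[(6,3),(3,19),(2,3),(13,9),(4,9),(10,4),(8,6)]⟩,⟨0,
  []⟩⟩,⟨true,0,⟨0,[(54,0)]⟩,⟨0,[]⟩⟩,⟨true,0,⟨0,[(50,0)]⟩,⟨0,[(49,0)]⟩⟩,⟨false,0,⟨0,[(50,0)]⟩,⟨0,
  [(49,0),(2,0)]⟩⟩,[.o ⟨false,1,⟨0,[(31,0)]⟩,⟨10,[(1,6),(1,1),(28,3),(5,1),(8,1),(5,0)]⟩⟩,.a ⟨true,
  1,⟨0,[(19,0)]⟩,⟨0,[(1,0),(1,0),(12,0),(6,0),(26,0)]⟩⟩ ⟨true,1,⟨0,[(52,0)]⟩,⟨1,[(5,0),(6,0),(3,0),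
  (3,0)]⟩⟩ ⟨false,1,⟨1,[(51,0),(0,0)]⟩,⟨0,[(54,0)]⟩⟩,.o ⟨false,1,⟨0,[(31,0)]⟩,⟨10,[(1,6),(1,1),(28,
  3),(5,1),(8,1),(5,0)]⟩⟩,.o ⟨false,1,⟨3,[(6,0),(3,0),(7,0),(12,2),(7,0),(9,0)]⟩,⟨0,[(1,0)]⟩⟩]⟩)
  (.S ⟨1,0,[0,1],[0,0,0,0,1],[0,2],(⟨0,[(34,0)]⟩,⟨0,[(33,0)]⟩),⟨1,[(0,0),(13,0),(19,0)]⟩,.k,(.r 0
  ⟨0,[(48,0)]⟩ ⟨9,[(6,1),(6,1),(5,5),(11,0),(0,6),(10,2)]⟩),⟨true,0,⟨0,[(54,0)]⟩,⟨0,[]⟩⟩,⟨false,1,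
  ⟨41,[(6,3),(3,19),(2,3),(13,9),(4,9),(10,4),(8,6)]⟩,⟨0,[]⟩⟩,⟨false,0,⟨0,[(50,0)]⟩,⟨0,[(49,0),(2,
  0)]⟩⟩,⟨true,0,⟨0,[(50,0)]⟩,⟨0,[(49,0)]⟩⟩,[.e ⟨false,0,⟨0,[(46,0)]⟩,⟨0,[(52,0)]⟩⟩ ⟨false,0,⟨2,[(7,
  0),(38,0),(3,1)]⟩,⟨41,[(6,3),(3,19),(2,3),(13,9),(4,9),(10,4),(8,6)]⟩⟩,.o ⟨false,0,⟨10,[(0,0),(0,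
  5),(0,0),(0,0),(10,0),(15,0),(1,3),(14,1),(5,0)]⟩,⟨0,[(31,0)]⟩⟩,.o ⟨false,0,⟨10,[(0,0),(0,5),(0,
  0),(0,0),(10,0),(15,0),(1,3),(14,1),(5,0)]⟩,⟨0,[(31,0)]⟩⟩,.a ⟨true,(-1),⟨0,[(0,0),(1,0),(0,0),(3,
  1),(34,2),(7,3),(1,0)]⟩,⟨2,[(7,0),(11,2),(26,0),(3,1)]⟩⟩ ⟨false,0,⟨2,[(7,0),(38,0),(3,1)]⟩,⟨1,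
  [(38,0),(0,0),(12,1)]⟩⟩ ⟨true,0,⟨2,[(7,0),(38,0),(3,1)]⟩,⟨1,[(38,0),(0,0)]⟩⟩]⟩)) (.S ⟨1,0,[0,-1],
  [1,0,0,0,-1],[1,0,0,-1],(⟨0,[(32,0)]⟩,⟨0,[(33,0)]⟩),⟨18,[(0,1),(0,1),(0,1),(3,5),(6,0),(15,2),(2,
  16),(8,19),(4,0),(2,11),(1,2)]⟩,.k,(.r (-1) ⟨5,[(6,1),(2,0),(16,0),(21,0),(2,3)]⟩ ⟨4,[(5,0),(6,0),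
  (40,6)]⟩),⟨true,0,⟨0,[(48,0)]⟩,⟨0,[(49,0)]⟩⟩,⟨false,1,⟨41,[(5,3),(3,19),(2,3),(13,9),(4,9),(10,4),
  (8,6)]⟩,⟨0,[]⟩⟩,⟨false,0,⟨0,[]⟩,⟨41,[(5,3),(3,19),(2,3),(13,9),(4,9),(10,4),(8,6)]⟩⟩,⟨true,0,⟨0,
  [(49,0)]⟩,⟨0,[(48,0)]⟩⟩,[.e ⟨false,1,⟨1,[(9,0),(16,0),(21,0)]⟩,⟨0,[(49,0)]⟩⟩ ⟨false,1,⟨1,[(50,0),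
  (0,0)]⟩,⟨0,[(53,0)]⟩⟩,.o ⟨false,2,⟨1,[(18,1),(23,0),(8,0)]⟩,⟨4,[(1,3),(0,3),(3,9),(22,3),(1,0),(1,
  3),(7,7),(4,2),(2,19)]⟩⟩,.o ⟨false,1,⟨0,[(30,0)]⟩,⟨4,[(1,3),(0,3),(3,9),(22,3),(1,0),(1,3),(7,7),
  (4,2),(2,19),(1,4)]⟩⟩,.a ⟨true,0,⟨0,[(0,0)]⟩,⟨4,[(1,2),(0,2),(3,9),(22,2),(1,1),(1,2),(7,5),(4,0),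
  (2,19),(1,4)]⟩⟩ ⟨false,1,⟨5,[(6,1),(2,0),(16,0),(21,0),(2,3)]⟩,⟨4,[(5,0),(6,0),(40,1)]⟩⟩ ⟨true,1,
  ⟨1,[(50,0),(0,0)]⟩,⟨1,[(4,0),(6,0),(3,0),(3,0)]⟩⟩]⟩)))) (.I [1,-1,2,1,0,0,0,1] (.Q [0,0,-1,0,0,0,
  -1,0,-1,1,-1,-1] (.p false [-1,0,1,0,1] [] (⟨14,[(0,7),(0,13),(1,1),(2,4),(10,19),(1,13),(9,8),(1,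
  0),(6,0),(3,41),(1,4)]⟩,⟨0,[(30,0),(6,0)]⟩) .k 0 (⟨0,[]⟩,⟨0,[]⟩) .k (.r 0 ⟨23,[(2,1),(5,1),(0,1),
  (12,1),(2,8),(7,15),(10,2),(3,0)]⟩ ⟨1,[(14,0),(2,0),(3,0),(27,0)]⟩)) (.R ⟨1,false,false,false,[-1,
  0,1,0,1],[0,0,0,0,1],[0,1,1],(⟨14,[(1,7),(0,13),(1,1),(2,4),(10,19),(1,13),(9,8),(1,0),(6,0),(3,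
  41),(1,4)]⟩,⟨0,[(31,0),(6,0)]⟩),(⟨0,[(32,0)]⟩,⟨0,[(31,0)]⟩),⟨14,[(1,7),(0,13),(1,1),(2,4),(10,19),
  (1,13),(9,8),(1,0),(6,0),(3,26),(1,4)]⟩,.k,.k,(.r 0 ⟨41,[(3,7),(1,7),(3,15),(13,17),(2,8),(18,2),
  (3,4)]⟩ ⟨1,[(4,0),(3,0),(9,0),(6,0)]⟩),.k,.k,.k,⟨true,0,⟨1,[(36,0),(0,0)]⟩,⟨0,[]⟩⟩,⟨false,0,⟨0,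
  [(33,0)]⟩,⟨7,[(4,0),(3,0),(6,4),(7,0),(6,0),(5,1),(4,1),(5,0)]⟩⟩,⟨false,1,⟨5,[(4,0),(3,2),(9,4),
  (6,0),(4,1),(10,0),(8,0)]⟩,⟨0,[(9,0)]⟩⟩,⟨true,0,⟨0,[(22,0)]⟩,⟨4,[(5,0),(4,1),(3,0),(0,0),(0,0),(4,
  2),(23,0)]⟩⟩,⟨true,0,⟨0,[(19,0)]⟩,⟨41,[(3,7),(1,7),(3,15),(13,17),(2,8),(18,2),(3,4)]⟩⟩,⟨true,0,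
  ⟨0,[(22,0),(25,0)]⟩,⟨0,[(16,0)]⟩⟩,[.o ⟨false,0,⟨1,[(7,0),(22,0),(10,0)]⟩,⟨2,[(0,1),(16,0),(18,1),
  (8,0),(4,0)]⟩⟩,.a ⟨true,0,⟨0,[(30,0)]⟩,⟨0,[(0,0),(35,0)]⟩⟩ ⟨true,0,⟨1,[(36,0),(0,0)]⟩,⟨0,[]⟩⟩
  ⟨false,0,⟨0,[(33,0)]⟩,⟨7,[(4,0),(3,0),(6,4),(7,0),(6,0),(5,1),(4,1),(5,0)]⟩⟩,.o ⟨false,1,⟨1,[(7,
  0),(7,0),(14,0),(5,0),(8,0),(4,0)]⟩,⟨10,[(0,8),(0,0),(1,0),(4,1),(1,0),(7,2),(18,1)]⟩⟩,.o ⟨false,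
  1,⟨0,[(30,0),(5,0),(4,0)]⟩,⟨0,[(0,0)]⟩⟩]⟩) (.R ⟨2,true,false,false,[0,1],[-1,0,1,0,1],[0,0,1,1],
  (⟨0,[]⟩,⟨0,[]⟩),(⟨14,[(0,8),(0,3),(0,8),(0,1),(14,7),(1,1),(11,5),(4,1),(1,5),(3,26),(1,1)]⟩,⟨0,
  [(31,0),(6,0)]⟩),⟨0,[]⟩,.k,.k,.k,(.r (-1) ⟨1,[(4,0),(3,0),(9,0),(6,0)]⟩ ⟨41,[(3,7),(1,7),(3,15),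
  (13,17),(2,8),(18,2),(3,4)]⟩),.k,.k,⟨false,1,⟨1,[(4,0),(9,0),(34,0),(0,0)]⟩,⟨41,[(3,7),(1,7),(3,
  15),(13,17),(2,8),(18,2),(3,4)]⟩⟩,⟨true,0,⟨0,[(0,0)]⟩,⟨9,[(1,6),(0,8),(0,5),(4,0),(9,12),(5,0),(6,
  8),(6,8),(4,26),(1,2),(4,1)]⟩⟩,⟨false,1,⟨3,[(0,0),(16,1),(7,0),(11,0),(12,0)]⟩,⟨0,[]⟩⟩,⟨true,0,⟨0,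
  [(16,0),(13,0)]⟩,⟨2,[(1,0),(0,2),(7,0),(7,4),(12,2),(6,2),(4,8),(1,0)]⟩⟩,⟨true,0,⟨0,[(48,0)]⟩,⟨0,
  [(47,0)]⟩⟩,⟨false,0,⟨0,[(0,0),(8,0)]⟩,⟨21,[(2,6),(1,4),(3,14),(9,5),(3,10),(1,3),(6,6),(6,6),(4,
  20),(1,5),(4,0)]⟩⟩,[]⟩)) (.Q [0,0,0,-1,0,0,-1,-1,0,1,-1] (.p false [0,0,1] [1] (⟨0,[(38,0)]⟩,⟨0,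
  [(37,0)]⟩) .k 1 (⟨0,[]⟩,⟨0,[]⟩) .k .k) (.S ⟨1,0,[0,0,-1,-1,0,0,0,-1],[1,-1,-1],[1,1,-1,-2,0,0,0,
  -1],(⟨0,[(27,0)]⟩,⟨0,[(39,0),(3,0)]⟩),⟨0,[(12,0)]⟩,.k,(.r (-1) ⟨1,[(0,0),(4,0),(8,0),(0,0),(34,
  0)]⟩ ⟨0,[(11,0),(40,0)]⟩),⟨true,0,⟨0,[(47,0)]⟩,⟨0,[(48,0)]⟩⟩,⟨false,1,⟨41,[(4,3),(3,19),(2,3),(13,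
  9),(4,9),(10,4),(8,6)]⟩,⟨0,[]⟩⟩,⟨false,0,⟨0,[]⟩,⟨41,[(4,3),(3,19),(2,3),(13,9),(4,9),(10,4),(8,
  6)]⟩⟩,⟨true,0,⟨0,[(48,0)]⟩,⟨0,[(47,0)]⟩⟩,[.a ⟨true,0,⟨0,[(0,0)]⟩,⟨0,[(21,0),(26,0)]⟩⟩ ⟨true,0,⟨0,
  [(5,0),(12,0)]⟩,⟨0,[(11,0)]⟩⟩ ⟨false,1,⟨4,[(0,1),(0,2),(13,1),(1,0),(7,0),(24,0)]⟩,⟨14,[(9,0),(0,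
  0),(0,6),(11,0),(2,2),(7,4),(10,0)]⟩⟩,.o ⟨false,1,⟨1,[(0,1),(40,0),(8,0)]⟩,⟨5,[(1,1),(7,0),(0,3),
  (4,2),(5,2),(23,0)]⟩⟩,.o ⟨false,0,⟨0,[(37,0)]⟩,⟨0,[(15,0)]⟩⟩,.o ⟨false,0,⟨1,[(36,0),(0,2)]⟩,⟨5,
  [(1,3),(7,0),(5,2),(5,2),(23,0),(2,3),(1,1)]⟩⟩]⟩) (.R ⟨1,false,false,true,[1,-1,-1],[1,0,0,0,-1],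
  [1,1,-1,-2,0,0,0,-1],(⟨0,[(27,0)]⟩,⟨0,[(39,0),(3,0)]⟩),(⟨0,[(31,0)]⟩,⟨0,[(32,0)]⟩),⟨0,[(12,0)]⟩,
  .k,.k,(.r (-1) ⟨3,[(5,1),(2,0),(5,2),(3,0),(6,0),(24,1)]⟩ ⟨0,[(11,0),(40,0)]⟩),(.r 0 ⟨0,[(0,1),(0,
  0),(0,0),(0,1),(3,0),(4,0),(5,3),(5,0),(6,0),(11,4),(6,2)]⟩ ⟨10,[(8,1),(2,7),(5,3),(5,2),(1,3),(4,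
  1),(6,2),(3,0)]⟩),(.r (-1) ⟨1,[(8,0),(5,1),(10,0),(21,0)]⟩ ⟨0,[(11,0)]⟩),.k,⟨true,0,⟨0,[(5,0),(12,
  0)]⟩,⟨0,[(11,0)]⟩⟩,⟨false,1,⟨0,[(0,0),(0,0),(15,0)]⟩,⟨0,[(30,0),(6,0)]⟩⟩,⟨true,0,⟨0,[(47,0)]⟩,⟨0,
  [(48,0)]⟩⟩,⟨true,0,⟨4,[(0,8),(1,3),(0,4),(4,0),(2,0),(6,9),(12,3),(6,3),(4,11),(6,3)]⟩,⟨1,[(5,0),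
  (12,0),(11,1),(4,0),(1,0)]⟩⟩,⟨false,0,⟨0,[]⟩,⟨41,[(4,3),(3,19),(2,3),(13,9),(4,9),(10,4),(8,6)]⟩⟩,
  ⟨true,0,⟨4,[(0,7),(1,2),(5,1),(1,1),(7,4),(12,2),(6,2),(4,8)]⟩,⟨0,[(5,0),(12,0),(11,0),(6,0)]⟩⟩,
  [.a ⟨true,0,⟨4,[(0,3),(1,3),(0,4),(4,0),(2,0),(6,9),(12,3),(6,3),(4,11),(6,3)]⟩,⟨0,[(30,0)]⟩⟩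
  ⟨true,0,⟨0,[(5,0),(12,0)]⟩,⟨0,[(11,0)]⟩⟩ ⟨false,1,⟨0,[(0,0),(0,0),(15,0)]⟩,⟨0,[(30,0),(6,0)]⟩⟩,.o
  ⟨false,1,⟨5,[(0,4),(1,1),(0,0),(4,3),(9,5),(5,2),(6,1),(6,1),(4,5),(1,0),(4,1)]⟩,⟨1,[(7,0),(22,0),
  (10,0)]⟩⟩,.o ⟨false,0,⟨0,[(37,0)]⟩,⟨0,[(15,0)]⟩⟩,.o ⟨false,0,⟨1,[(36,0),(0,2)]⟩,⟨3,[(0,1),(0,1),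
  (13,1),(33,0),(0,0)]⟩⟩]⟩)))) (.Q [0,0,0,-1,0,0,-1,-1,0,1,-1] (.p false [0,0,1] [1] (⟨0,[(36,0)]⟩,
  ⟨0,[(35,0)]⟩) .k 1 (⟨0,[]⟩,⟨0,[]⟩) .k .k) (.S ⟨1,0,[0,0,-1,-1,0,0,0,-1],[1,-1,-1],[1,1,-1,-2,0,0,
  0,-1],(⟨0,[(25,0)]⟩,⟨0,[(37,0),(3,0)]⟩),⟨0,[(10,0)]⟩,.k,(.r (-1) ⟨1,[(0,0),(2,0),(8,0),(0,0),(34,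
  0)]⟩ ⟨0,[(9,0),(40,0)]⟩),⟨true,0,⟨0,[(45,0)]⟩,⟨0,[(46,0)]⟩⟩,⟨false,1,⟨41,[(2,3),(3,19),(2,3),(13,
  9),(4,9),(10,4),(8,6)]⟩,⟨0,[]⟩⟩,⟨false,0,⟨0,[]⟩,⟨41,[(2,3),(3,19),(2,3),(13,9),(4,9),(10,4),(8,
  6)]⟩⟩,⟨true,0,⟨0,[(46,0)]⟩,⟨0,[(45,0)]⟩⟩,[.a ⟨true,0,⟨0,[(0,0)]⟩,⟨0,[(19,0),(26,0)]⟩⟩ ⟨true,0,⟨0,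
  [(3,0),(12,0)]⟩,⟨0,[(9,0)]⟩⟩ ⟨false,1,⟨8,[(1,2),(1,1),(2,1),(5,5),(10,1),(23,1)]⟩,⟨14,[(7,0),(0,
  0),(0,6),(11,0),(2,2),(7,4),(10,0)]⟩⟩,.o ⟨false,1,⟨1,[(0,1),(38,0),(8,0)]⟩,⟨3,[(3,0),(4,1),(3,0),
  (0,0),(5,2),(23,0),(2,2)]⟩⟩,.o ⟨false,0,⟨0,[(35,0)]⟩,⟨0,[(13,0)]⟩⟩,.o ⟨false,0,⟨1,[(34,0),(0,2)]⟩,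
  ⟨3,[(1,1),(1,2),(8,0),(0,0),(5,2),(23,0),(2,4)]⟩⟩]⟩) (.R ⟨1,false,false,true,[0,0,1],[1,-1],[1,1,
  -1,-1],(⟨0,[(37,0)]⟩,⟨0,[(36,0)]⟩),(⟨0,[(40,0)]⟩,⟨0,[(41,0)]⟩),⟨0,[(26,0)]⟩,.k,.k,.k,.k,.k,.k,
  ⟨true,0,⟨0,[]⟩,⟨1,[(34,0),(0,0)]⟩⟩,⟨false,0,⟨8,[(8,0),(6,0),(2,1),(1,2),(3,2),(3,0),(2,1)]⟩,⟨0,
  [(13,0)]⟩⟩,⟨true,0,⟨0,[(12,0)]⟩,⟨14,[(7,0),(0,0),(0,6),(11,0),(2,2),(7,4),(10,0)]⟩⟩,⟨true,0,⟨0,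
  [(20,0),(24,0)]⟩,⟨0,[(0,0)]⟩⟩,⟨true,0,⟨0,[(12,0),(33,0)]⟩,⟨5,[(9,1),(4,0),(3,1),(2,0),(2,0),(10,
  1)]⟩⟩,⟨false,0,⟨0,[(20,0)]⟩,⟨33,[(0,4),(8,7),(3,7),(1,3),(2,20),(4,3),(19,6),(4,10)]⟩⟩,[.o ⟨false,
  0,⟨0,[(45,0)]⟩,⟨2,[(1,0),(7,0),(33,0),(3,0)]⟩⟩,.a ⟨true,0,⟨0,[(18,0),(1,0)]⟩,⟨0,[(46,0)]⟩⟩ ⟨false,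
  1,⟨2,[(3,0),(2,0),(16,0),(23,0)]⟩,⟨4,[(2,0),(6,0),(40,1)]⟩⟩ ⟨true,0,⟨0,[(18,0),(1,0),(1,0)]⟩,⟨0,
  [(0,0),(15,0)]⟩⟩,.o ⟨false,1,⟨7,[(2,0),(3,0),(6,4),(7,0),(6,0),(5,1),(4,1),(5,0)]⟩,⟨0,[(22,0)]⟩⟩,
  .e ⟨true,0,⟨0,[(3,0),(42,0)]⟩,⟨1,[(2,0),(18,0),(13,0)]⟩⟩ ⟨true,0,⟨12,[(3,3),(1,4),(0,4),(17,4),(6,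
  2),(10,1)]⟩,⟨0,[(0,0),(15,0)]⟩⟩]⟩))) (.I [1,-1,-2,-1,1,0,0,-1] (.Q [0,0,0,-1,0,0,-1,-1,0,1,-1]
  (.p false [0,0,1] [1] (⟨0,[(36,0)]⟩,⟨0,[(35,0)]⟩) .k 1 (⟨0,[]⟩,⟨0,[]⟩) .k .k) (.S ⟨1,0,[0,0,-1,-1,
  0,0,0,-1],[1,-1,-1],[1,1,-1,-2,0,0,0,-1],(⟨0,[(25,0)]⟩,⟨0,[(37,0),(3,0)]⟩),⟨0,[(10,0)]⟩,.k,(.r
  (-1) ⟨0,[(1,0),(43,0)]⟩ ⟨0,[(9,0),(40,0)]⟩),⟨true,0,⟨0,[(45,0)]⟩,⟨0,[(46,0)]⟩⟩,⟨false,1,⟨3,[(15,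
  1),(12,1),(10,0),(8,0)]⟩,⟨0,[]⟩⟩,⟨false,0,⟨0,[]⟩,⟨3,[(15,1),(12,1),(10,0),(8,0)]⟩⟩,⟨true,0,⟨0,
  [(46,0)]⟩,⟨0,[(45,0)]⟩⟩,[.a ⟨true,0,⟨0,[(0,0)]⟩,⟨0,[(19,0),(26,0)]⟩⟩ ⟨true,0,⟨0,[(3,0),(12,0)]⟩,
  ⟨0,[(9,0)]⟩⟩ ⟨false,1,⟨2,[(0,0),(0,1),(11,0),(28,0)]⟩,⟨45,[(2,1),(5,2),(0,22),(14,8),(7,17),(10,
  2)]⟩⟩,.o ⟨false,1,⟨1,[(0,1),(38,0),(8,0)]⟩,⟨3,[(3,0),(4,1),(3,0),(0,0),(5,2),(23,0),(2,2)]⟩⟩,.o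
  ⟨false,0,⟨0,[(35,0)]⟩,⟨0,[(13,0)]⟩⟩,.o ⟨false,0,⟨1,[(34,0),(0,2)]⟩,⟨3,[(1,1),(1,0),(8,0),(0,0),(5,
  2),(23,0),(2,4)]⟩⟩]⟩) (.R ⟨1,false,false,true,[0,0,1],[1,-1],[1,1,-1,-1],(⟨0,[(37,0)]⟩,⟨0,[(36,
  0)]⟩),(⟨0,[(40,0)]⟩,⟨0,[(41,0)]⟩),⟨0,[(26,0)]⟩,.k,.k,.k,.k,.k,.k,⟨true,0,⟨0,[]⟩,⟨1,[(34,0),(0,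
  0)]⟩⟩,⟨false,0,⟨8,[(8,0),(6,0),(2,1),(1,2),(3,2),(3,0),(2,1)]⟩,⟨0,[(13,0)]⟩⟩,⟨true,0,⟨0,[(12,0)]⟩,
  ⟨45,[(2,1),(5,2),(0,22),(14,8),(7,17),(10,2)]⟩⟩,⟨true,0,⟨0,[(20,0),(24,0)]⟩,⟨0,[(0,0)]⟩⟩,⟨true,0,
  ⟨0,[(12,0),(33,0)]⟩,⟨9,[(2,0),(6,3),(8,1),(2,2),(13,4)]⟩⟩,⟨false,0,⟨0,[(20,0)]⟩,⟨33,[(0,4),(8,7),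
  (3,7),(1,3),(2,20),(4,3),(19,6),(4,10)]⟩⟩,[.o ⟨false,0,⟨0,[(45,0)]⟩,⟨11,[(9,1),(7,1),(25,3),(2,5),
  (0,2),(0,4)]⟩⟩,.a ⟨true,0,⟨0,[(18,0),(1,0)]⟩,⟨0,[(46,0)]⟩⟩ ⟨false,1,⟨2,[(3,0),(2,0),(16,0),(23,
  0)]⟩,⟨2,[(9,0),(7,0),(32,0)]⟩⟩ ⟨true,0,⟨0,[(18,0),(1,0),(1,0)]⟩,⟨0,[(0,0),(15,0)]⟩⟩,.o ⟨false,1,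
  ⟨3,[(13,1),(13,0),(0,0),(5,1),(4,0)]⟩,⟨0,[(22,0)]⟩⟩,.e ⟨true,0,⟨0,[(3,0),(42,0)]⟩,⟨3,[(9,1),(6,1),
  (17,0),(0,0),(14,1)]⟩⟩ ⟨true,0,⟨8,[(2,1),(2,2),(0,2),(13,1),(3,2),(6,0),(10,1)]⟩,⟨0,[(0,0),(15,
  0)]⟩⟩]⟩)) (.Q [0,0,2,0,0,0,1,0,1,-1,1,1] (.p true [0,0,1] [1,0,0,0,-1] (⟨0,[(36,0)]⟩,⟨0,[(35,
  0)]⟩) .k 2 (⟨0,[(28,0)]⟩,⟨0,[(29,0)]⟩) .k (.r 0 ⟨22,[(1,1),(5,2),(15,8),(7,17),(10,2)]⟩ ⟨1,[(12,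
  0),(2,0),(3,0),(27,0)]⟩)) (.Q [0,0,0,0,0,0,2,2,0,-1,2] (.p true [0,0,1] [1,0,-1] (⟨0,[(37,0)]⟩,⟨0,
  [(36,0)]⟩) .k 2 (⟨0,[(36,0)]⟩,⟨0,[(37,0)]⟩) .k (.r 0 ⟨22,[(2,15),(5,0),(0,22),(14,2),(7,5),(10,
  0)]⟩ ⟨0,[(13,0),(2,0),(3,0)]⟩)) (.R ⟨1,false,false,true,[1,-1,-1],[0,-1,1],[1,0,-1,-2,0,0,0,-1],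
  (⟨0,[(26,0)]⟩,⟨0,[(38,0),(3,0)]⟩),(⟨0,[(27,0)]⟩,⟨0,[(37,0),(4,0)]⟩),⟨0,[(11,0)]⟩,.k,.k,(.r (-1)
  ⟨48,[(1,2),(2,19),(2,11),(5,45),(7,2),(2,8),(19,0),(4,26)]⟩ ⟨10,[(1,1),(7,1),(0,8),(5,0),(8,0),(2,
  0),(14,3)]⟩),.k,(.r (-1) ⟨1,[(13,1),(0,0),(2,0),(3,0),(27,0)]⟩ ⟨15,[(0,8),(8,0),(0,6),(14,11),(7,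
  5),(10,0)]⟩),.k,⟨true,1,⟨0,[(13,0),(3,0),(31,0)]⟩,⟨0,[(2,0),(5,0)]⟩⟩,⟨false,1,⟨1,[(0,0),(12,1),(0,
  0),(20,0),(11,1),(1,0)]⟩,⟨0,[(25,0)]⟩⟩,⟨false,1,⟨49,[(1,17),(2,13),(2,21),(16,3),(0,8),(18,2),(4,
  20)]⟩,⟨0,[(47,0)]⟩⟩,⟨false,0,⟨0,[(0,0)]⟩,⟨1,[(21,3),(18,0),(8,0)]⟩⟩,⟨true,0,⟨0,[]⟩,⟨0,[(51,0)]⟩⟩,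
  ⟨false,0,⟨0,[(0,0),(46,0)]⟩,⟨21,[(1,1),(2,9),(2,1),(9,6),(3,36),(14,8),(7,4),(4,14)]⟩⟩,[.o ⟨false,
  0,⟨0,[(15,0)]⟩,⟨11,[(10,1),(7,1),(2,11),(22,3),(2,5),(0,2),(0,4)]⟩⟩,.a ⟨true,0,⟨0,[(19,0)]⟩,⟨0,
  [(21,0),(25,0)]⟩⟩ ⟨true,1,⟨0,[(4,0),(12,0),(31,0)]⟩,⟨0,[(9,0)]⟩⟩ ⟨false,1,⟨1,[(0,1),(12,1),(34,0),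
  (0,0)]⟩,⟨0,[(18,0),(6,0)]⟩⟩,.o ⟨false,0,⟨0,[(36,0)]⟩,⟨0,[(14,0)]⟩⟩,.o ⟨false,0,⟨5,[(1,0),(0,0),(4,
  0),(9,0),(18,6)]⟩,⟨7,[(0,2),(3,3),(8,5),(0,1),(29,0),(2,13),(1,4)]⟩⟩]⟩) (.Q [0,0,-2,0,1,0,1,0,0,
  -1,1] (.p true [0,0,1] [1] (⟨0,[(38,0)]⟩,⟨0,[(37,0)]⟩) .k 1 (⟨0,[]⟩,⟨0,[]⟩) .k .k) (.S ⟨1,0,[0,0,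
  -1,-1,0,0,0,-1],[1,-1,-1],[1,1,-1,-2,0,0,0,-1],(⟨0,[(27,0)]⟩,⟨0,[(39,0),(3,0)]⟩),⟨0,[(12,0)]⟩,.k,
  (.r (-1) ⟨93,[(1,2),(0,5),(2,37),(2,23),(5,87),(10,17),(19,0),(4,50)]⟩ ⟨10,[(2,1),(7,1),(0,8),(5,
  0),(8,0),(2,0),(14,3)]⟩),⟨true,0,⟨0,[(47,0)]⟩,⟨0,[(48,0)]⟩⟩,⟨false,1,⟨17,[(2,3),(14,7),(7,3),(0,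
  1),(14,0),(8,4)]⟩,⟨0,[]⟩⟩,⟨false,0,⟨0,[]⟩,⟨17,[(2,3),(14,7),(7,3),(0,1),(14,0),(8,4)]⟩⟩,⟨true,0,
  ⟨0,[(48,0)]⟩,⟨0,[(47,0)]⟩⟩,[.a ⟨true,0,⟨0,[(1,0),(18,0)]⟩,⟨0,[(21,0),(26,0)]⟩⟩ ⟨true,0,⟨0,[(5,0),
  (12,0)]⟩,⟨0,[(11,0)]⟩⟩ ⟨false,1,⟨6,[(0,2),(4,0),(2,0),(5,3),(7,2),(2,0),(24,1)]⟩,⟨45,[(4,1),(5,2),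
  (0,22),(14,8),(7,17),(10,2)]⟩⟩,.o ⟨false,1,⟨17,[(1,10),(0,5),(1,3),(3,5),(17,0),(18,3),(4,7)]⟩,⟨2,
  [(0,1),(9,1),(5,0)]⟩⟩,.o ⟨false,0,⟨0,[(37,0)]⟩,⟨0,[(15,0)]⟩⟩,.o ⟨false,0,⟨5,[(2,0),(0,0),(4,0),(9,
  0),(18,6)]⟩,⟨0,[(0,0)]⟩⟩]⟩) (.Q [0,0,-1,0,1,0,2,0,0,-1,2] (.p true [0,0,1] [1,0,-1] (⟨0,[(39,0)]⟩,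
  ⟨0,[(38,0)]⟩) .k 2 (⟨0,[(38,0)]⟩,⟨0,[(39,0)]⟩) .k (.r 0 ⟨22,[(4,15),(5,0),(0,22),(14,2),(7,5),(10,
  0)]⟩ ⟨0,[(15,0),(2,0),(3,0)]⟩)) (.K ⟨0,[1,-1,-1],(-1),0,(⟨0,[(28,0)]⟩,⟨0,[(40,0),(3,0)]⟩),.k,(.r
  (-1) ⟨93,[(2,2),(0,5),(2,37),(2,23),(5,87),(10,17),(19,0),(4,50)]⟩ ⟨10,[(3,1),(7,1),(0,8),(5,0),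
  (8,0),(2,0),(14,3)]⟩),.k,(.r (-1) ⟨41,[(0,19),(1,22),(0,5),(5,5),(5,35),(3,1),(26,0),(4,14)]⟩ ⟨22,
  [(5,8),(5,1),(0,22),(14,5),(7,11),(10,1)]⟩),.k,[⟨0,[(0,0)]⟩,⟨0,[(1,0)]⟩,⟨17,[(0,8),(5,3),(3,5),(0,
  11),(33,0),(0,2),(2,1)]⟩,⟨0,[(23,0),(24,0)]⟩]⟩) (.Q [0,0,0,0,0,0,0,1,-1,1,0,-1] (.p false [0,0,0,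
  0,1] [1] (⟨0,[(33,0)]⟩,⟨0,[(32,0)]⟩) .k 1 (⟨0,[]⟩,⟨0,[]⟩) .k .k) (.Q [0,0,-1,0,0,0,-1,0,-1,1,-1,
  -1] (.p false [0,0,1] [1,0,0,0,-1] (⟨0,[(41,0)]⟩,⟨0,[(40,0)]⟩) .k 2 (⟨0,[(33,0)]⟩,⟨0,[(34,0)]⟩)
  .k (.r 0 ⟨22,[(6,1),(5,2),(15,8),(7,17),(10,2)]⟩ ⟨1,[(17,0),(2,0),(3,0),(27,0)]⟩)) (.Q [0,0,0,0,0,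
  -1,0,0,0,-1,1,1] (.p true [0,0,1] [1,0,0,0,-1] (⟨0,[(42,0)]⟩,⟨0,[(41,0)]⟩) .k 2 (⟨0,[(34,0)]⟩,⟨0,
  [(35,0)]⟩) .k (.r 0 ⟨22,[(7,1),(5,2),(15,8),(7,17),(10,2)]⟩ ⟨1,[(18,0),(2,0),(3,0),(27,0)]⟩)) (.R
  ⟨1,false,false,false,[-1,0,1,0,1],[0,0,0,0,1],[0,1,1],(⟨0,[(0,0),(46,0)]⟩,⟨0,[(35,0),(6,0)]⟩),(⟨0,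
  [(36,0)]⟩,⟨0,[(35,0)]⟩),⟨0,[(0,0)]⟩,.k,.k,(.r 0 ⟨22,[(8,8),(5,1),(15,5),(7,11),(10,1)]⟩ ⟨49,[(5,
  5),(0,11),(8,3),(5,23),(1,41),(5,11),(15,2),(8,10)]⟩),.k,.k,.k,⟨true,0,⟨3,[(4,0),(1,0),(26,0)]⟩,
  ⟨0,[]⟩⟩,⟨false,0,⟨0,[(37,0)]⟩,⟨2,[(6,0),(12,1),(13,0)]⟩⟩,⟨false,1,⟨25,[(5,8),(0,11),(12,5),(1,11),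
  (0,7),(26,0),(4,6)]⟩,⟨0,[(13,0)]⟩⟩,⟨true,0,⟨0,[(26,0)]⟩,⟨4,[(9,0),(4,1),(3,0),(0,0),(0,0),(4,2),
  (23,0)]⟩⟩,⟨true,0,⟨0,[(23,0)]⟩,⟨22,[(8,8),(5,1),(15,5),(7,11),(10,1)]⟩⟩,⟨true,0,⟨0,[(26,0),(25,
  0)]⟩,⟨0,[(20,0)]⟩⟩,[.o ⟨false,0,⟨49,[(3,0),(2,10),(4,22),(17,15),(11,8),(7,7),(6,3)]⟩,⟨2,[(1,1),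
  (19,0),(18,1),(8,0),(4,0)]⟩⟩,.a ⟨true,0,⟨0,[(34,0)]⟩,⟨0,[(1,0),(38,0)]⟩⟩ ⟨true,0,⟨3,[(4,0),(1,0),
  (26,0)]⟩,⟨0,[]⟩⟩ ⟨false,0,⟨0,[(37,0)]⟩,⟨2,[(6,0),(12,1),(13,0)]⟩⟩,.o ⟨false,1,⟨43,[(6,26),(2,1),
  (9,16),(9,16),(19,8),(2,3),(1,0),(0,0)]⟩,⟨2,[(1,1),(2,0),(28,0)]⟩⟩,.o ⟨false,1,⟨8,[(6,7),(12,0),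
  (9,2),(3,1),(11,2)]⟩,⟨0,[(1,0)]⟩⟩]⟩) (.Q [0,0,0,0,0,-1,0,0,0,0,1,-1] (.p true [0,0,1] [0,0,0,0,1]
  (⟨0,[(43,0)]⟩,⟨0,[(42,0)]⟩) .k 2 (⟨0,[(36,0)]⟩,⟨0,[(35,0)]⟩) .k (.r (-1) ⟨55,[(8,7),(3,17),(2,29),
  (11,17),(1,17),(0,8),(18,2),(4,16)]⟩ ⟨2,[(18,0),(3,0),(0,0),(24,0)]⟩)) (.R ⟨1,false,false,true,[0,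
  0,1,0,-1],[1,0,0,0,-1],[0,0,1],(⟨0,[(0,0),(47,0)]⟩,⟨0,[(37,0),(5,0)]⟩),(⟨0,[(36,0)]⟩,⟨0,[(37,
  0)]⟩),⟨0,[(0,0)]⟩,.k,.k,(.r (-1) ⟨27,[(9,11),(3,5),(2,9),(11,5),(1,5),(0,2),(18,0),(4,14)]⟩ ⟨8,
  [(7,0),(7,0),(6,0),(0,1),(0,6),(15,0),(8,3)]⟩),.k,.k,.k,⟨true,0,⟨3,[(5,0),(1,0),(26,0)]⟩,⟨0,[]⟩⟩,
  ⟨false,0,⟨0,[(38,0)]⟩,⟨2,[(7,0),(12,1),(13,0)]⟩⟩,⟨true,0,⟨0,[(23,0),(33,0)]⟩,⟨0,[(14,0)]⟩⟩,⟨false,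
  0,⟨0,[(27,0)]⟩,⟨30,[(3,0),(10,2),(1,8),(3,12),(4,17),(4,0),(19,5),(4,10)]⟩⟩,⟨false,0,⟨0,[(24,0)]⟩,
  ⟨27,[(9,11),(3,5),(2,9),(11,5),(1,5),(0,2),(18,0),(4,14)]⟩⟩,⟨false,0,⟨0,[(27,0),(25,0)]⟩,⟨2,[(25,
  1),(2,0),(21,0),(4,1)]⟩⟩,[.a ⟨true,0,⟨0,[(2,0),(38,0)]⟩,⟨0,[(35,0)]⟩⟩ ⟨true,0,⟨3,[(5,0),(1,0),(26,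
  0)]⟩,⟨0,[]⟩⟩ ⟨false,0,⟨0,[(38,0)]⟩,⟨2,[(7,0),(12,1),(13,0)]⟩⟩,.o ⟨false,1,⟨2,[(2,1),(19,0),(18,1),
  (8,0),(4,0)]⟩,⟨49,[(4,0),(2,10),(4,22),(17,15),(11,8),(7,7),(6,3)]⟩⟩,.o ⟨false,1,⟨1,[(2,1),(17,0),
  (3,0),(0,0),(15,1),(8,0)]⟩,⟨4,[(4,1),(2,0),(22,1),(0,0),(3,1)]⟩⟩,.o ⟨false,1,⟨7,[(2,4),(17,0),(13,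
  2),(6,11),(8,3),(5,1)]⟩,⟨0,[(4,0),(2,0),(2,1),(42,3),(1,0)]⟩⟩]⟩) (.Q [0,0,1,0,0,0,0,0,1,-1,0,1]
  (.p true [0,0,0,0,1] [1] (⟨0,[(37,0)]⟩,⟨0,[(36,0)]⟩) .k 1 (⟨0,[]⟩,⟨0,[]⟩) .k .k) (.Q [0,0,0,0,0,
  -1,0,0,0,0,0,1] (.ed false [1,-1,0,0,1] .k) (.S ⟨1,0,[0,2],[0,0,0,0,1],[1,1,0,-1],(⟨0,[(39,0)]⟩,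
  ⟨0,[(38,0)]⟩),⟨0,[(0,0)]⟩,.k,(.r 0 ⟨0,[(53,0)]⟩ ⟨24,[(8,3),(0,7),(8,10),(5,13),(1,2),(5,7),(3,1),
  (11,0)]⟩),⟨false,1,⟨80,[(8,6),(0,29),(1,13),(3,38),(16,8),(0,7),(18,4),(4,27)]⟩,⟨0,[(55,0)]⟩⟩,
  ⟨true,0,⟨0,[(59,0)]⟩,⟨0,[]⟩⟩,⟨true,0,⟨0,[]⟩,⟨0,[(59,0)]⟩⟩,⟨false,0,⟨0,[(55,0)]⟩,⟨80,[(8,6),(0,29),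
  (1,13),(3,38),(16,8),(0,7),(18,4),(4,27)]⟩⟩,[.e ⟨false,0,⟨4,[(12,1),(38,0),(2,0)]⟩,⟨5,[(18,1),(5,
  1),(1,1),(5,1),(23,0),(0,0)]⟩⟩ ⟨false,0,⟨0,[(51,0)]⟩,⟨0,[(57,0)]⟩⟩,.o ⟨false,0,⟨25,[(1,0),(7,4),
  (4,11),(17,7),(11,4),(7,3),(6,1)]⟩,⟨2,[(4,1),(19,0),(18,1),(8,0),(4,0)]⟩⟩,.a ⟨true,0,⟨0,[(37,0)]⟩,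
  ⟨0,[(4,0),(38,0)]⟩⟩ ⟨true,0,⟨0,[(54,0)]⟩,⟨0,[(55,0)]⟩⟩ ⟨false,0,⟨0,[(59,0)]⟩,⟨0,[(57,0)]⟩⟩,.o
  ⟨false,0,⟨0,[(1,0)]⟩,⟨1,[(4,0),(17,0),(13,0)]⟩⟩]⟩) (.R ⟨0,false,false,true,[0,1,0,0,-1],[1,0,0,0,
  -1],[0,0,1],(⟨0,[(0,0)]⟩,⟨0,[(39,0),(9,0)]⟩),(⟨0,[(38,0)]⟩,⟨0,[(39,0)]⟩),⟨0,[(39,0)]⟩,(.r (-1)
  ⟨24,[(8,3),(0,7),(8,10),(5,13),(1,2),(5,7),(3,1),(11,0)]⟩ ⟨0,[(53,0)]⟩),.k,.k,.k,.k,.k,⟨true,0,⟨3,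
  [(7,0),(1,0),(26,0)]⟩,⟨0,[]⟩⟩,⟨false,0,⟨0,[(49,0),(0,0)]⟩,⟨3,[(32,0),(3,0),(15,0),(3,0)]⟩⟩,⟨true,
  0,⟨0,[(54,0)]⟩,⟨0,[(55,0)]⟩⟩,⟨false,0,⟨0,[(27,0),(1,0)]⟩,⟨11,[(18,1),(7,1),(25,3),(2,5),(0,2),(0,
  4)]⟩⟩,⟨false,0,⟨0,[]⟩,⟨0,[]⟩⟩,⟨false,0,⟨0,[]⟩,⟨0,[]⟩⟩,[.a ⟨true,0,⟨0,[(4,0),(38,0)]⟩,⟨0,[(37,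
  0)]⟩⟩ ⟨true,0,⟨3,[(7,0),(1,0),(26,0)]⟩,⟨0,[]⟩⟩ ⟨false,0,⟨0,[(49,0),(0,0)]⟩,⟨3,[(32,0),(3,0),(15,
  0),(3,0)]⟩⟩,.o ⟨false,1,⟨2,[(4,1),(19,0),(18,1),(8,0),(4,0)]⟩,⟨25,[(1,0),(7,4),(4,11),(17,7),(11,
  4),(7,3),(6,1)]⟩⟩,.o ⟨false,1,⟨3,[(0,0),(3,2),(8,0),(8,0),(20,1),(6,0),(1,1)]⟩,⟨11,[(7,0),(1,4),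
  (4,0),(9,1),(8,1),(3,7)]⟩⟩,.o ⟨false,1,⟨11,[(0,0),(3,5),(8,0),(22,4),(6,5),(6,0),(1,5),(5,1)]⟩,⟨0,
  [(37,0)]⟩⟩]⟩)) (.Q [0,0,0,0,0,0,0,0,0,0,-1,1] (.ed false [1,0,-1,0,1] (.r 0 ⟨2,[(20,0),(3,0),(0,
  0),(24,0)]⟩ ⟨55,[(10,7),(3,17),(2,29),(11,17),(1,17),(0,8),(18,2),(4,16)]⟩)) (.S ⟨1,0,[0,-1,0,0,0,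
  0,0,1],[1,0,1,0,-1],[1,0,0,-1,0,0,0,1],(⟨0,[(38,0),(7,0)]⟩,⟨0,[(0,0)]⟩),⟨0,[(35,0),(2,0)]⟩,.k,(.r
  (-1) ⟨27,[(11,11),(3,5),(2,9),(11,5),(1,5),(0,2),(18,0),(4,14)]⟩ ⟨8,[(9,0),(7,0),(6,0),(0,1),(0,
  6),(15,0),(8,3)]⟩),⟨true,0,⟨0,[(54,0)]⟩,⟨0,[(55,0)]⟩⟩,⟨false,1,⟨17,[(9,3),(14,7),(7,3),(0,1),(14,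
  0),(8,4)]⟩,⟨0,[]⟩⟩,⟨false,0,⟨0,[]⟩,⟨17,[(9,3),(14,7),(7,3),(0,1),(14,0),(8,4)]⟩⟩,⟨true,0,⟨0,[(55,
  0)]⟩,⟨0,[(54,0)]⟩⟩,[.o ⟨false,1,⟨5,[(1,2),(16,0),(5,2),(2,1),(0,2),(14,0),(8,1),(4,0)]⟩,⟨29,[(6,
  5),(1,10),(0,3),(2,3),(1,12),(11,7),(5,6),(4,5),(14,11)]⟩⟩,.e ⟨false,1,⟨27,[(11,11),(3,5),(2,9),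
  (11,5),(1,5),(0,2),(18,0),(4,14)]⟩,⟨2,[(21,0),(4,1),(24,0),(3,1)]⟩⟩ ⟨false,1,⟨0,[(16,0),(40,0)]⟩,
  ⟨0,[(25,0),(25,0)]⟩⟩,.a ⟨true,0,⟨0,[(1,0),(41,0)]⟩,⟨4,[(6,1),(2,0),(22,1),(0,0),(3,1)]⟩⟩ ⟨true,0,
  ⟨42,[(6,2),(4,11),(6,7),(8,22),(16,16),(7,0),(4,1)]⟩,⟨2,[(21,0),(4,1),(24,0),(3,1)]⟩⟩ ⟨false,1,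
  ⟨111,[(11,39),(3,5),(2,65),(11,5),(1,5),(0,2),(18,0),(4,98)]⟩,⟨2,[(21,0),(3,0),(0,0),(24,0)]⟩⟩,.e
  ⟨false,1,⟨27,[(11,11),(3,5),(2,9),(11,5),(1,5),(0,2),(18,0),(4,14)]⟩,⟨0,[(26,0)]⟩⟩ ⟨false,1,⟨0,
  [(16,0),(40,0)]⟩,⟨0,[(25,0),(33,0)]⟩⟩]⟩) (.R ⟨0,false,false,true,[0,0,1,0,-1],[1,0,0,0,-1],[1,0,0,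
  -1,0,0,0,1],(⟨0,[(0,0)]⟩,⟨0,[(2,0),(46,0)]⟩),(⟨0,[(38,0)]⟩,⟨0,[(39,0)]⟩),⟨0,[(2,0)]⟩,.k,.k,(.r
  (-1) ⟨27,[(11,11),(3,5),(2,9),(11,5),(1,5),(0,2),(18,0),(4,14)]⟩ ⟨8,[(9,0),(7,0),(6,0),(0,1),(0,
  6),(15,0),(8,3)]⟩),.k,.k,.k,⟨true,0,⟨42,[(6,2),(4,11),(6,7),(8,22),(16,16),(7,0),(4,1)]⟩,⟨0,[(26,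
  0)]⟩⟩,⟨false,0,⟨0,[(40,0)]⟩,⟨2,[(9,0),(12,1),(13,0)]⟩⟩,⟨true,0,⟨0,[(54,0)]⟩,⟨0,[(55,0)]⟩⟩,⟨false,
  0,⟨0,[(29,0)]⟩,⟨30,[(5,0),(10,2),(1,8),(3,12),(4,17),(4,0),(19,5),(4,10)]⟩⟩,⟨false,0,⟨0,[]⟩,⟨0,
  []⟩⟩,⟨false,0,⟨0,[]⟩,⟨0,[]⟩⟩,[.a ⟨true,0,⟨1,[(1,0),(3,0),(19,0)]⟩,⟨0,[(37,0)]⟩⟩ ⟨true,0,⟨42,[(6,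
  2),(4,11),(6,7),(8,22),(16,16),(7,0),(4,1)]⟩,⟨0,[(26,0)]⟩⟩ ⟨false,0,⟨0,[(40,0)]⟩,⟨2,[(9,0),(12,1),
  (13,0)]⟩⟩,.o ⟨false,1,⟨5,[(1,2),(13,1),(2,0),(5,0),(0,0),(26,1),(4,0)]⟩,⟨49,[(6,0),(2,10),(4,22),
  (17,15),(11,8),(7,7),(6,3)]⟩⟩,.o ⟨false,1,⟨3,[(1,2),(20,0),(13,0),(6,2),(8,1),(5,0)]⟩,⟨4,[(6,1),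
  (2,0),(22,1),(0,0),(3,1)]⟩⟩,.o ⟨false,1,⟨13,[(1,5),(8,0),(4,0),(9,0),(10,6),(6,13),(8,6),(5,2)]⟩,
  ⟨0,[(6,0),(2,0),(2,1),(42,3),(1,0)]⟩⟩]⟩))))) (.Q [0,0,0,0,0,0,0,0,1,-1,0,1] (.p true [0,0,0,0,1]
  [1] (⟨0,[(35,0)]⟩,⟨0,[(34,0)]⟩) .k 1 (⟨0,[]⟩,⟨0,[]⟩) .k .k) (.Q [0,0,0,0,0,-1,0,0,0,1,0,-1] (.ed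
  true [0,1,0,0,1] .k) (.Q [0,2,0,1,-1,0,0,0,1,-1,0,1] (.p true [0,0,0,0,1] [1] (⟨0,[(37,0)]⟩,⟨0,
  [(36,0)]⟩) .k 1 (⟨0,[]⟩,⟨0,[]⟩) .k .k) (.S ⟨1,0,[0,2,1,1],[0,1,0,0,1],[1,1,1],(⟨0,[(38,0),(10,
  0)]⟩,⟨0,[(1,0)]⟩),⟨0,[(38,0)]⟩,(.r 0 ⟨16,[(8,3),(7,3),(0,2),(5,3),(1,2),(15,3),(8,7)]⟩ ⟨93,[(7,2),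
  (0,5),(1,5),(0,25),(2,23),(16,17),(19,0),(4,50)]⟩),.k,⟨false,1,⟨80,[(7,6),(0,29),(1,13),(3,38),
  (16,8),(0,7),(18,4),(4,27)]⟩,⟨0,[(54,0)]⟩⟩,⟨true,0,⟨0,[(58,0)]⟩,⟨0,[]⟩⟩,⟨true,0,⟨0,[]⟩,⟨0,[(58,
  0)]⟩⟩,⟨false,0,⟨0,[(54,0)]⟩,⟨80,[(7,6),(0,29),(1,13),(3,38),(16,8),(0,7),(18,4),(4,27)]⟩⟩,[.o
  ⟨false,(-1),⟨0,[(0,0)]⟩,⟨1,[(14,1),(32,0),(8,0)]⟩⟩,.e ⟨false,0,⟨0,[]⟩,⟨23,[(8,1),(14,11),(7,10),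
  (0,0),(2,0),(14,5)]⟩⟩ ⟨false,0,⟨2,[(16,0),(8,0),(24,0),(4,0)]⟩,⟨93,[(7,2),(0,5),(1,5),(0,25),(2,
  23),(16,17),(19,0),(4,50)]⟩⟩,.a ⟨true,0,⟨0,[(3,0),(2,0),(4,1),(42,3),(1,0)]⟩,⟨0,[(4,0),(19,0)]⟩⟩
  ⟨false,0,⟨3,[(6,0),(1,0),(26,0)]⟩,⟨1,[(55,0),(0,0)]⟩⟩ ⟨true,(-1),⟨0,[(16,0),(3,0)]⟩,⟨93,[(7,2),(0,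
  5),(1,5),(0,25),(2,23),(16,17),(19,0),(4,50)]⟩⟩,.o ⟨false,0,⟨0,[(2,0)]⟩,⟨0,[(35,0)]⟩⟩]⟩) (.S ⟨1,0,
  [],[1,0,0,0,-1],[1,-1,0,-1],(⟨0,[(37,0)]⟩,⟨0,[(38,0)]⟩),⟨0,[(1,0)]⟩,.k,(.r (-1) ⟨93,[(7,2),(0,5),
  (1,5),(0,25),(2,23),(16,17),(19,0),(4,50)]⟩ ⟨16,[(8,3),(7,3),(0,2),(5,3),(1,2),(15,3),(8,7)]⟩),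
  ⟨false,1,⟨80,[(7,6),(0,29),(1,13),(3,38),(16,8),(0,7),(18,4),(4,27)]⟩,⟨0,[(54,0)]⟩⟩,⟨true,0,⟨0,
  [(58,0)]⟩,⟨0,[]⟩⟩,⟨true,0,⟨0,[]⟩,⟨0,[(58,0)]⟩⟩,⟨false,0,⟨0,[(54,0)]⟩,⟨80,[(7,6),(0,29),(1,13),(3,
  38),(16,8),(0,7),(18,4),(4,27)]⟩⟩,[.o ⟨false,1,⟨0,[(35,0)]⟩,⟨0,[(2,0)]⟩⟩,.o ⟨false,1,⟨5,[(0,2),(3,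
  1),(15,0),(2,0),(1,0),(25,1),(2,2)]⟩,⟨38,[(2,0),(5,7),(4,17),(17,11),(11,7),(7,5),(6,2)]⟩⟩,.o
  ⟨false,1,⟨0,[(35,0)]⟩,⟨0,[(2,0)]⟩⟩,.a ⟨true,0,⟨0,[(4,0),(19,0)]⟩,⟨0,[(3,0),(2,0),(4,1),(42,3),(1,
  0)]⟩⟩ ⟨true,1,⟨93,[(7,2),(0,5),(1,5),(0,25),(2,23),(16,17),(19,0),(4,50)]⟩,⟨0,[(16,0),(3,0)]⟩⟩
  ⟨false,1,⟨1,[(55,0),(0,0)]⟩,⟨3,[(6,0),(1,0),(26,0)]⟩⟩]⟩)) (.R ⟨0,false,false,true,[1,0,0,0,-1],[2,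
  -1,0,0,-1],[0,0,0,-1],(⟨0,[(36,0)]⟩,⟨0,[(37,0)]⟩),(⟨0,[(36,0),(10,0)]⟩,⟨0,[(0,0)]⟩),⟨0,[(0,0)]⟩,
  .k,(.r (-1) ⟨93,[(6,2),(0,5),(1,5),(0,25),(2,23),(16,17),(19,0),(4,50)]⟩ ⟨16,[(7,3),(7,3),(0,2),
  (5,3),(1,2),(15,3),(8,7)]⟩),(.r (-1) ⟨93,[(6,2),(0,5),(1,5),(0,25),(2,23),(16,17),(19,0),(4,50)]⟩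
  ⟨16,[(7,3),(7,3),(0,2),(5,3),(1,2),(15,3),(8,7)]⟩),.k,.k,.k,⟨true,0,⟨3,[(5,0),(1,0),(26,0)]⟩,⟨0,
  []⟩⟩,⟨false,0,⟨0,[(47,0),(0,0)]⟩,⟨3,[(30,0),(3,0),(15,0),(3,0)]⟩⟩,⟨true,0,⟨0,[(52,0)]⟩,⟨0,[(53,
  0)]⟩⟩,⟨false,0,⟨0,[(25,0),(1,0)]⟩,⟨11,[(16,1),(7,1),(25,3),(2,5),(0,2),(0,4)]⟩⟩,⟨false,0,⟨0,[]⟩,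
  ⟨0,[]⟩⟩,⟨false,0,⟨0,[]⟩,⟨0,[]⟩⟩,[.e ⟨false,1,⟨1,[(13,0),(16,0),(21,0)]⟩,⟨0,[(53,0)]⟩⟩ ⟨false,0,⟨0,
  [(5,0),(4,0),(8,0),(6,0),(26,1),(1,0)]⟩,⟨5,[(15,0),(0,0),(7,1),(5,2),(3,2),(15,0)]⟩⟩,.o ⟨false,1,
  ⟨0,[(13,0)]⟩,⟨1,[(1,0),(10,0),(37,0),(2,1)]⟩⟩,.o ⟨false,1,⟨0,[(34,0)]⟩,⟨0,[(1,0)]⟩⟩,.a ⟨true,0,⟨0,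
  [(3,0),(19,0)]⟩,⟨0,[(2,0),(2,0),(4,1),(42,3),(1,0)]⟩⟩ ⟨false,1,⟨93,[(6,2),(0,5),(1,5),(0,25),(2,
  23),(16,17),(19,0),(4,50)]⟩,⟨16,[(7,0),(7,0),(0,4),(5,0),(1,4),(15,0),(8,1)]⟩⟩ ⟨true,0,⟨0,[(5,0),
  (4,0),(8,0),(6,0),(26,1),(1,0)]⟩,⟨22,[(7,1),(7,8),(7,1),(0,4),(9,1),(5,1),(8,5),(0,6)]⟩⟩]⟩)) (.Q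
  [0,0,0,0,0,-1,0,0,0,0,0,1] (.ed false [1,-1,0,0,1] .k) (.K ⟨0,[1,1,0,0,-1],0,0,(⟨0,[(36,0),(11,
  0)]⟩,⟨0,[(0,0)]⟩),(.r (-1) ⟨24,[(6,3),(0,7),(8,10),(5,13),(1,2),(5,7),(3,1),(11,0)]⟩ ⟨0,[(51,
  0)]⟩),.k,(.r (-1) ⟨36,[(7,12),(8,28),(5,24),(1,15),(5,11),(9,12),(8,1)]⟩ ⟨0,[(10,0)]⟩),(.r (-1)
  ⟨49,[(6,5),(0,11),(8,3),(5,23),(1,41),(5,11),(15,2),(8,10)]⟩ ⟨22,[(9,8),(5,1),(15,5),(7,11),(10,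
  1)]⟩),.k,[⟨0,[(2,0)]⟩,⟨0,[(1,0)]⟩,⟨9,[(7,1),(4,4),(17,2),(11,1),(3,0),(3,0),(1,9)]⟩,⟨0,[(1,0),(51,
  0)]⟩]⟩) (.R ⟨0,false,false,true,[0,1,0,0,-1],[1,0,0,0,-1],[0,0,1],(⟨0,[(0,0)]⟩,⟨0,[(37,0),(9,
  0)]⟩),(⟨0,[(36,0)]⟩,⟨0,[(37,0)]⟩),⟨0,[(37,0)]⟩,(.r (-1) ⟨24,[(6,3),(0,7),(8,10),(5,13),(1,2),(5,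
  7),(3,1),(11,0)]⟩ ⟨0,[(51,0)]⟩),.k,.k,.k,.k,.k,⟨true,0,⟨3,[(5,0),(1,0),(26,0)]⟩,⟨0,[]⟩⟩,⟨false,0,
  ⟨0,[(47,0),(0,0)]⟩,⟨3,[(30,0),(3,0),(15,0),(3,0)]⟩⟩,⟨true,0,⟨0,[(52,0)]⟩,⟨0,[(53,0)]⟩⟩,⟨false,0,
  ⟨0,[(25,0),(1,0)]⟩,⟨11,[(16,1),(7,1),(25,3),(2,5),(0,2),(0,4)]⟩⟩,⟨false,0,⟨0,[]⟩,⟨0,[]⟩⟩,⟨false,0,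
  ⟨0,[]⟩,⟨0,[]⟩⟩,[.a ⟨true,0,⟨0,[(1,0)]⟩,⟨0,[(35,0)]⟩⟩ ⟨true,0,⟨3,[(5,0),(1,0),(26,0)]⟩,⟨0,[]⟩⟩
  ⟨false,0,⟨0,[(47,0),(0,0)]⟩,⟨3,[(30,0),(3,0),(15,0),(3,0)]⟩⟩,.o ⟨false,1,⟨2,[(1,1),(20,0),(27,0),
  (4,0)]⟩,⟨49,[(4,0),(2,10),(4,22),(17,15),(11,8),(7,7),(6,3)]⟩⟩,.o ⟨false,1,⟨1,[(0,0),(0,0),(9,0),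
  (36,0),(1,0)]⟩,⟨11,[(5,0),(1,4),(4,0),(9,1),(8,1),(3,7)]⟩⟩,.o ⟨false,1,⟨11,[(0,0),(0,5),(9,0),(22,
  4),(13,0),(1,5),(5,1)]⟩,⟨0,[(35,0)]⟩⟩]⟩)))) (.Q [0,0,0,0,0,-1,0,0,0,1,0,-1] (.ed true [0,1,0,0,1]
  .k) (.S ⟨1,0,[],[1,0,0,0,-1],[0,-1],(⟨0,[(34,0)]⟩,⟨0,[(35,0)]⟩),⟨0,[(0,0)]⟩,.k,(.r (-1) ⟨93,[(4,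
  2),(0,5),(1,5),(0,25),(2,23),(16,17),(19,0),(4,50)]⟩ ⟨16,[(5,3),(7,3),(0,2),(5,3),(1,2),(15,3),(8,
  7)]⟩),⟨false,1,⟨17,[(5,3),(14,7),(7,3),(0,1),(14,0),(8,4)]⟩,⟨0,[]⟩⟩,⟨true,0,⟨0,[(55,0)]⟩,⟨0,[]⟩⟩,
  ⟨true,0,⟨0,[(51,0)]⟩,⟨0,[(50,0)]⟩⟩,⟨false,0,⟨0,[(51,0)]⟩,⟨80,[(4,6),(0,29),(1,13),(3,38),(16,8),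
  (0,7),(18,4),(4,27)]⟩⟩,[.o ⟨false,1,⟨0,[(32,0)]⟩,⟨74,[(1,43),(0,6),(2,13),(0,0),(0,2),(4,35),(1,
  3),(18,16),(14,7)]⟩⟩,.a ⟨true,1,⟨0,[(20,0)]⟩,⟨0,[(1,0),(1,0),(4,0),(15,0),(26,1)]⟩⟩ ⟨true,1,⟨0,
  [(53,0)]⟩,⟨0,[(6,0),(10,0)]⟩⟩ ⟨false,1,⟨1,[(52,0),(0,0)]⟩,⟨0,[(55,0)]⟩⟩,.o ⟨false,1,⟨0,[(32,0)]⟩,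
  ⟨74,[(1,43),(0,6),(2,13),(0,0),(0,2),(4,35),(1,3),(18,16),(14,7)]⟩⟩,.o ⟨false,1,⟨3,[(3,0),(1,0),
  (26,4)]⟩,⟨0,[(1,0),(10,0)]⟩⟩]⟩) (.R ⟨0,false,false,false,[1,0,0,0,-1],[1,1,-1],[1,0,1,1,0,0,0,-1],
  (⟨0,[(34,0)]⟩,⟨0,[(35,0)]⟩),(⟨0,[(41,0),(4,0)]⟩,⟨0,[(31,0)]⟩),⟨0,[(0,0)]⟩,.k,.k,(.r (-1) ⟨93,[(4,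
  2),(0,5),(1,5),(0,25),(2,23),(16,17),(19,0),(4,50)]⟩ ⟨16,[(5,3),(7,3),(0,2),(5,3),(1,2),(15,3),(8,
  7)]⟩),(.r (-1) ⟨27,[(7,11),(3,5),(2,9),(11,5),(1,5),(0,2),(18,0),(4,14)]⟩ ⟨8,[(5,0),(7,0),(6,0),
  (0,1),(0,6),(15,0),(8,3)]⟩),.k,.k,⟨true,0,⟨0,[]⟩,⟨3,[(3,0),(1,0),(26,0)]⟩⟩,⟨false,0,⟨0,[(1,0),(10,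
  0),(23,0)]⟩,⟨0,[(32,0),(6,0)]⟩⟩,⟨false,0,⟨0,[(22,0)]⟩,⟨27,[(7,11),(3,5),(2,9),(11,5),(1,5),(0,2),
  (18,0),(4,14)]⟩⟩,⟨true,(-1),⟨0,[(1,0),(1,0),(4,0),(42,2)]⟩,⟨0,[(19,0),(0,0)]⟩⟩,⟨false,0,⟨0,[]⟩,⟨0,
  []⟩⟩,⟨false,0,⟨0,[]⟩,⟨0,[]⟩⟩,[.a ⟨true,0,⟨0,[(25,0),(25,0)]⟩,⟨0,[(23,0)]⟩⟩ ⟨true,0,⟨0,[(22,0)]⟩,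
  ⟨42,[(2,2),(4,11),(6,7),(8,22),(16,16),(7,0),(4,1)]⟩⟩ ⟨false,0,⟨0,[(1,0),(34,0),(14,0)]⟩,⟨0,[(19,
  0),(0,0)]⟩⟩,.o ⟨false,1,⟨5,[(4,2),(9,1),(7,1),(25,0),(3,2),(0,1)]⟩,⟨0,[(19,0)]⟩⟩,.o ⟨false,1,⟨0,
  [(32,0)]⟩,⟨74,[(1,43),(0,6),(2,13),(0,0),(0,2),(4,35),(1,3),(18,16),(14,7)]⟩⟩,.o ⟨false,1,⟨3,[(3,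
  0),(1,0),(26,4)]⟩,⟨0,[(1,0),(10,0)]⟩⟩]⟩)))))) (.Q [0,0,0,0,0,-1,0,0,0,1,0,-1] (.ed true [0,1,0,0,
  1] .k) (.S ⟨1,0,[0,-1],[1,0,0,0,-1],[],(⟨0,[(30,0)]⟩,⟨0,[(31,0)]⟩),⟨0,[(0,0)]⟩,.k,(.r (-1) ⟨5,[(4,
  1),(2,0),(16,0),(21,0),(2,3)]⟩ ⟨2,[(10,0),(7,0),(32,3)]⟩),⟨true,0,⟨0,[(51,0)]⟩,⟨0,[]⟩⟩,⟨false,1,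
  ⟨3,[(16,1),(12,1),(10,0),(8,0)]⟩,⟨0,[]⟩⟩,⟨false,0,⟨0,[(47,0)]⟩,⟨0,[(46,0),(2,0)]⟩⟩,⟨true,0,⟨0,
  [(47,0)]⟩,⟨0,[(46,0)]⟩⟩,[.o ⟨false,1,⟨5,[(1,2),(5,1),(2,0),(5,0),(0,0),(17,2),(8,1),(4,0)]⟩,⟨1,
  [(6,0),(22,0),(10,0)]⟩⟩,.a ⟨true,1,⟨3,[(1,2),(5,0),(2,0),(6,1),(1,0),(15,1),(13,2)]⟩,⟨0,[(6,0)]⟩⟩
  ⟨false,1,⟨1,[(48,0),(0,0)]⟩,⟨0,[(51,0)]⟩⟩ ⟨true,1,⟨0,[(49,0)]⟩,⟨0,[(2,0),(10,0)]⟩⟩,.e ⟨false,1,⟨3,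
  [(16,1),(12,1),(10,0),(8,0)]⟩,⟨0,[]⟩⟩ ⟨false,1,⟨0,[(49,0)]⟩,⟨0,[(51,0)]⟩⟩,.o ⟨false,0,⟨2,[(1,2),
  (0,1),(14,3),(1,1),(15,0),(8,0),(4,0)]⟩,⟨3,[(24,1),(3,0),(0,2),(10,0)]⟩⟩]⟩) (.R ⟨0,false,false,
  false,[1,0,0,0,-1],[0,1],[1,0,1,1],(⟨0,[(30,0)]⟩,⟨0,[(31,0)]⟩),(⟨0,[(42,0)]⟩,⟨0,[(41,0)]⟩),⟨0,[(0,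
  0)]⟩,.k,.k,(.r (-1) ⟨5,[(4,1),(2,0),(16,0),(21,0),(2,3)]⟩ ⟨2,[(10,0),(7,0),(32,3)]⟩),(.r (-1) ⟨5,
  [(4,1),(2,0),(16,0),(21,0),(2,3)]⟩ ⟨2,[(10,0),(7,0),(32,3)]⟩),.k,.k,⟨true,0,⟨0,[]⟩,⟨1,[(35,0),(0,
  0)]⟩⟩,⟨false,1,⟨0,[(24,0)]⟩,⟨1,[(1,0),(0,0),(4,0),(9,0),(17,0)]⟩⟩,⟨false,0,⟨2,[(10,0),(7,0),(32,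
  0)]⟩,⟨5,[(4,1),(2,0),(16,0),(21,0),(2,3)]⟩⟩,⟨true,0,⟨5,[(6,1),(2,1),(8,1),(5,2),(4,0),(14,0)]⟩,⟨5,
  [(1,4),(0,0),(4,0),(9,6),(1,5),(16,0)]⟩⟩,⟨false,0,⟨0,[]⟩,⟨0,[]⟩⟩,⟨false,0,⟨0,[]⟩,⟨0,[]⟩⟩,[.e
  ⟨false,0,⟨0,[(47,0)]⟩,⟨1,[(7,0),(16,0),(21,0)]⟩⟩ ⟨false,1,⟨2,[(10,0),(7,0),(5,2),(26,0)]⟩,⟨5,[(1,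
  4),(0,0),(4,0),(9,6),(1,5),(16,0)]⟩⟩,.o ⟨false,1,⟨14,[(1,2),(8,4),(3,2),(3,4),(5,2),(19,3),(4,
  4)]⟩,⟨0,[(46,0)]⟩⟩,.a ⟨true,0,⟨3,[(1,2),(0,0),(4,0),(9,0),(17,2)]⟩,⟨0,[(29,0)]⟩⟩ ⟨true,0,⟨2,[(10,
  0),(7,0),(32,0)]⟩,⟨0,[(45,0)]⟩⟩ ⟨false,1,⟨5,[(10,1),(7,1),(5,2),(4,2),(14,0),(4,1)]⟩,⟨5,[(1,4),(0,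
  0),(4,0),(9,6),(1,5),(16,0)]⟩⟩,.o ⟨false,0,⟨2,[(1,2),(0,1),(14,3),(1,1),(15,0),(8,0),(4,0)]⟩,⟨3,
  [(24,1),(3,0),(0,2),(10,0)]⟩⟩]⟩)))))) (.Q [0,0,-1,0,0,0,0,0,1,-1,0,1] (.p true [0,0,0,0,1] [1]
  (⟨0,[(26,0)]⟩,⟨0,[(25,0)]⟩) .k 1 (⟨0,[]⟩,⟨0,[]⟩) .k .k) (.S ⟨1,0,[],[1,0,0,0,-1],[0,-1],(⟨0,[(26,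
  0)]⟩,⟨0,[(27,0)]⟩),⟨0,[(1,0),(1,0),(4,0),(26,2),(7,2)]⟩,.k,(.r (-1) ⟨5,[(3,0),(4,1),(11,0),(21,0),
  (2,3)]⟩ ⟨2,[(6,0),(7,0),(32,3)]⟩),⟨false,1,⟨3,[(12,1),(12,1),(10,0),(8,0)]⟩,⟨0,[]⟩⟩,⟨true,0,⟨0,
  [(47,0)]⟩,⟨0,[]⟩⟩,⟨true,0,⟨0,[(43,0)]⟩,⟨0,[(42,0)]⟩⟩,⟨false,0,⟨0,[(43,0)]⟩,⟨0,[(42,0),(2,0)]⟩⟩,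
  [.o ⟨false,1,⟨0,[(24,0)]⟩,⟨28,[(0,14),(0,5),(5,3),(15,3),(1,7),(1,5),(12,5),(5,2)]⟩⟩,.a ⟨true,1,
  ⟨0,[(12,0)]⟩,⟨0,[(1,0),(6,0),(18,0),(7,1),(7,1)]⟩⟩ ⟨true,1,⟨0,[(45,0)]⟩,⟨0,[(5,0),(2,0),(4,0)]⟩⟩
  ⟨false,1,⟨1,[(44,0),(0,0)]⟩,⟨0,[(47,0)]⟩⟩,.o ⟨false,1,⟨0,[(24,0)]⟩,⟨28,[(0,14),(0,5),(5,3),(15,3),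
  (1,7),(1,5),(12,5),(5,2)]⟩⟩,.o ⟨false,1,⟨1,[(24,1),(6,0),(0,0)]⟩,⟨0,[(0,0)]⟩⟩]⟩) (.S ⟨1,0,[0,-1],
  [1,0,0,0,-1],[1,0,0,-1],(⟨0,[(26,0)]⟩,⟨0,[(27,0)]⟩),⟨14,[(0,3),(0,3),(5,2),(0,5),(14,2),(2,10),(8,
  13),(4,0),(2,11),(1,2)]⟩,.k,(.r (-1) ⟨5,[(3,0),(4,1),(11,0),(21,0),(2,3)]⟩ ⟨2,[(6,0),(7,0),(32,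
  3)]⟩),⟨true,0,⟨0,[(42,0)]⟩,⟨0,[(43,0)]⟩⟩,⟨false,1,⟨3,[(12,1),(12,1),(10,0),(8,0)]⟩,⟨0,[]⟩⟩,⟨false,
  0,⟨0,[]⟩,⟨3,[(12,1),(12,1),(10,0),(8,0)]⟩⟩,⟨true,0,⟨0,[(43,0)]⟩,⟨0,[(42,0)]⟩⟩,[.e ⟨false,1,⟨1,[(3,
  0),(16,0),(21,0)]⟩,⟨0,[(43,0)]⟩⟩ ⟨false,1,⟨1,[(44,0),(0,0)]⟩,⟨0,[(47,0)]⟩⟩,.o ⟨false,2,⟨1,[(12,1),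
  (23,0),(8,0)]⟩,⟨5,[(1,4),(0,0),(2,1),(2,5),(0,1),(17,4),(7,9),(4,1),(2,9)]⟩⟩,.o ⟨false,1,⟨0,[(24,
  0)]⟩,⟨2,[(1,1),(6,1),(16,0),(1,1),(7,3),(4,0),(2,3),(1,0)]⟩⟩,.a ⟨true,0,⟨0,[(0,0)]⟩,⟨1,[(1,0),(6,
  1),(16,0),(1,0),(7,1),(7,3),(1,0)]⟩⟩ ⟨false,1,⟨5,[(3,0),(4,1),(11,0),(21,0),(2,3)]⟩,⟨2,[(6,0),(7,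
  0),(32,0)]⟩⟩ ⟨true,1,⟨1,[(44,0),(0,0)]⟩,⟨0,[(5,0),(2,0),(4,0)]⟩⟩]⟩)))

theorem ok13 : chk K t13 r19 = true := by decide +kernel

noncomputable def t17 : Tre :=
  (.Q [0,0,0,-1,0,0,-1,-1,0,1,-1] (.p false [0,0,1] [1] (⟨0,[(29,0)]⟩,⟨0,[(28,0)]⟩) .k 1 (⟨0,[]⟩,⟨0,
  []⟩) .k .k) (.S ⟨1,0,[0,0,-1,-1,0,0,0,-1],[1,-1,-1],[1,1,-1,-2,0,0,0,-1],(⟨0,[(18,0)]⟩,⟨0,[(30,0),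
  (3,0)]⟩),⟨0,[(3,0)]⟩,.k,(.r (-1) ⟨4,[(1,3),(4,0),(6,0),(21,0),(2,1)]⟩ ⟨0,[(2,0),(40,0)]⟩),⟨true,0,
  ⟨0,[(38,0)]⟩,⟨0,[(39,0)]⟩⟩,⟨false,1,⟨3,[(8,1),(12,1),(10,0),(8,0)]⟩,⟨0,[]⟩⟩,⟨false,0,⟨0,[]⟩,⟨3,
  [(8,1),(12,1),(10,0),(8,0)]⟩⟩,⟨true,0,⟨0,[(39,0)]⟩,⟨0,[(38,0)]⟩⟩,[.a ⟨true,0,⟨0,[(0,0)]⟩,⟨0,[(12,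
  0),(26,0)]⟩⟩ ⟨true,0,⟨0,[(4,0),(4,0)]⟩,⟨0,[(2,0)]⟩⟩ ⟨false,1,⟨2,[(1,0),(3,0),(0,0),(6,0),(26,0)]⟩,
  ⟨7,[(2,4),(4,1),(9,0),(6,0),(0,0),(9,0)]⟩⟩,.o ⟨false,1,⟨1,[(0,1),(31,0),(8,0)]⟩,⟨0,[(7,0),(31,
  1)]⟩⟩,.o ⟨false,0,⟨0,[(28,0)]⟩,⟨0,[(6,0)]⟩⟩,.o ⟨false,0,⟨1,[(27,0),(0,2)]⟩,⟨3,[(1,1),(2,0),(0,0),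
  (0,0),(5,2),(23,0),(2,6)]⟩⟩]⟩) (.R ⟨1,false,false,true,[0,0,1],[1,-1],[1,1,-1,-1],(⟨0,[(30,0)]⟩,
  ⟨0,[(29,0)]⟩),(⟨0,[(33,0)]⟩,⟨0,[(34,0)]⟩),⟨0,[(19,0)]⟩,.k,.k,.k,.k,.k,.k,⟨true,0,⟨0,[]⟩,⟨1,[(27,
  0),(0,0)]⟩⟩,⟨false,0,⟨6,[(2,0),(8,0),(1,2),(0,0),(2,1),(6,1)]⟩,⟨0,[(6,0)]⟩⟩,⟨true,0,⟨0,[(5,0)]⟩,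
  ⟨12,[(0,0),(1,6),(4,1),(9,2),(7,2),(9,0)]⟩⟩,⟨true,0,⟨0,[(13,0),(24,0)]⟩,⟨0,[(0,0)]⟩⟩,⟨true,0,⟨0,
  [(5,0),(33,0)]⟩,⟨5,[(2,1),(4,0),(3,1),(2,0),(2,0),(10,1)]⟩⟩,⟨false,0,⟨0,[(13,0)]⟩,⟨33,[(0,4),(1,
  7),(3,7),(1,3),(2,20),(4,3),(19,6),(4,10)]⟩⟩,[.o ⟨false,0,⟨0,[(38,0)]⟩,⟨11,[(2,1),(7,1),(25,3),(2,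
  5),(0,2),(0,4)]⟩⟩,.a ⟨true,0,⟨0,[(11,0),(1,0)]⟩,⟨0,[(39,0)]⟩⟩ ⟨false,1,⟨1,[(4,0),(3,0),(7,0)]⟩,⟨2,
  [(2,0),(7,0),(32,0)]⟩⟩ ⟨true,0,⟨0,[(11,0),(1,0),(1,0)]⟩,⟨0,[(0,0),(8,0)]⟩⟩,.o ⟨false,1,⟨3,[(6,1),
  (13,0),(0,0),(5,1),(4,0)]⟩,⟨0,[(15,0)]⟩⟩,.e ⟨true,0,⟨0,[(4,0),(34,0)]⟩,⟨3,[(2,1),(6,1),(17,0),(0,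
  0),(14,1)]⟩⟩ ⟨true,0,⟨12,[(4,3),(8,4),(0,4),(2,4),(6,2),(10,1)]⟩,⟨0,[(0,0),(8,0)]⟩⟩]⟩))

theorem ok17 : chk K t17 r16 = true := by decide +kernel

noncomputable def t19 : Tre :=
  (.Q [0,0,0,0,0,0,0,0,-1,1,0,-1] (.p false [0,0,0,0,1] [1] (⟨0,[(22,0)]⟩,⟨0,[(21,0)]⟩) .k 1 (⟨0,
  []⟩,⟨0,[]⟩) .k .k) (.Q [0,0,0,0,0,0,0,0,0,-1,1,1] (.ed false [0,0,1,0,1] (.r 0 ⟨1,[(7,0),(9,0),(7,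
  0),(13,0)]⟩ ⟨1,[(6,0),(2,0),(3,0),(27,0)]⟩)) (.Q [0,0,-1,0,0,0,-1,0,-1,1,-1,-1] (.p false [-1,0,1,
  0,1] [] (⟨0,[(0,0)]⟩,⟨0,[(23,0),(6,0)]⟩) .k 0 (⟨0,[]⟩,⟨0,[]⟩) .k (.r 0 ⟨1,[(8,0),(9,0),(7,0),(13,
  0)]⟩ ⟨1,[(7,0),(2,0),(3,0),(27,0)]⟩)) (.Q [0,0,0,0,0,-1,0,0,0,-1,1,1] (.p true [-1,0,1,0,1] []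
  (⟨0,[(1,0)]⟩,⟨0,[(24,0),(6,0)]⟩) .k 0 (⟨0,[]⟩,⟨0,[]⟩) .k (.r 0 ⟨1,[(9,0),(9,0),(7,0),(13,0)]⟩ ⟨1,
  [(8,0),(2,0),(3,0),(27,0)]⟩)) (.R ⟨1,false,false,false,[-1,0,1,0,1],[0,0,0,0,1],[0,1,0,0,0,0,0,1],
  (⟨0,[(2,0)]⟩,⟨0,[(25,0),(6,0)]⟩),(⟨0,[(26,0)]⟩,⟨0,[(25,0)]⟩),⟨0,[(0,0)]⟩,.k,.k,(.r 0 ⟨0,[(10,0),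
  (16,0)]⟩ ⟨3,[(11,1),(1,3),(10,1),(10,0),(8,0)]⟩),.k,.k,.k,⟨true,0,⟨0,[(15,0),(2,0)]⟩,⟨0,[(12,
  0)]⟩⟩,⟨false,0,⟨0,[(27,0)]⟩,⟨3,[(9,1),(13,0),(0,0),(5,1),(4,0)]⟩⟩,⟨false,1,⟨3,[(11,1),(12,1),(10,
  0),(8,0)]⟩,⟨0,[]⟩⟩,⟨true,0,⟨0,[(16,0)]⟩,⟨0,[(10,0),(31,0)]⟩⟩,⟨true,0,⟨0,[(42,0)]⟩,⟨0,[(41,0)]⟩⟩,
  ⟨true,0,⟨0,[(16,0),(25,0)]⟩,⟨0,[(10,0)]⟩⟩,[.e ⟨false,0,⟨0,[(10,0),(16,0),(14,0)]⟩,⟨1,[(9,0),(2,0),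
  (3,0),(27,0)]⟩⟩ ⟨false,0,⟨4,[(16,0),(3,0),(6,2),(0,0),(9,1)]⟩,⟨2,[(5,0),(9,0),(14,1),(8,0),(2,1),
  (1,1)]⟩⟩,.a ⟨true,0,⟨0,[(24,0)]⟩,⟨0,[(3,0)]⟩⟩ ⟨true,0,⟨0,[(15,0),(2,0)]⟩,⟨0,[(12,0)]⟩⟩ ⟨false,0,
  ⟨0,[(27,0)]⟩,⟨3,[(9,1),(13,0),(0,0),(5,1),(4,0)]⟩⟩,.o ⟨false,1,⟨1,[(9,0),(3,0),(0,0),(9,1),(14,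
  0)]⟩,⟨1,[(1,0),(1,0),(27,0)]⟩⟩,.o ⟨false,1,⟨0,[(24,0),(5,0),(4,0)]⟩,⟨0,[(1,0)]⟩⟩]⟩) (.R ⟨0,false,
  false,false,[-1,0,1,0,1],[0,0,0,0,1],[0,1,0,0,0,0,0,1],(⟨0,[(2,0)]⟩,⟨0,[(0,0),(35,0)]⟩),(⟨0,[(26,
  0)]⟩,⟨0,[(25,0)]⟩),⟨0,[(0,0)]⟩,.k,.k,(.r 0 ⟨0,[(10,0),(16,0)]⟩ ⟨3,[(11,1),(1,3),(10,1),(10,0),(8,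
  0)]⟩),.k,.k,.k,⟨true,0,⟨0,[(15,0),(2,0)]⟩,⟨0,[(12,0)]⟩⟩,⟨false,0,⟨0,[(27,0)]⟩,⟨3,[(9,1),(13,0),(0,
  0),(5,1),(4,0)]⟩⟩,⟨false,1,⟨3,[(11,1),(12,1),(10,0),(8,0)]⟩,⟨0,[]⟩⟩,⟨true,0,⟨0,[(16,0)]⟩,⟨0,[(10,
  0),(31,0)]⟩⟩,⟨false,0,⟨0,[]⟩,⟨0,[]⟩⟩,⟨false,0,⟨0,[]⟩,⟨0,[]⟩⟩,[.e ⟨false,0,⟨0,[(10,0),(16,0),(14,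
  0)]⟩,⟨1,[(9,0),(2,0),(3,0),(27,0)]⟩⟩ ⟨false,0,⟨4,[(16,0),(3,0),(6,2),(0,0),(9,1)]⟩,⟨2,[(5,0),(9,
  0),(14,1),(8,0),(2,1),(1,1)]⟩⟩,.a ⟨true,0,⟨0,[(24,0)]⟩,⟨0,[(3,0)]⟩⟩ ⟨true,0,⟨0,[(15,0),(2,0)]⟩,⟨0,
  [(12,0)]⟩⟩ ⟨false,0,⟨0,[(27,0)]⟩,⟨3,[(9,1),(13,0),(0,0),(5,1),(4,0)]⟩⟩,.o ⟨false,1,⟨1,[(9,0),(3,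
  0),(0,0),(9,1),(14,0)]⟩,⟨1,[(1,0),(1,0),(27,0)]⟩⟩,.o ⟨false,1,⟨0,[(24,0),(5,0),(4,0)]⟩,⟨0,[(1,
  0)]⟩⟩]⟩)) (.K ⟨0,[1,1,0,0,-1],0,0,(⟨0,[(24,0),(11,0)]⟩,⟨1,[(1,0),(3,0),(19,0)]⟩),(.r (-1) ⟨7,[(0,
  4),(9,5),(7,0),(11,4),(10,7),(1,0)]⟩ ⟨0,[(39,0)]⟩),.k,(.r (-1) ⟨0,[(0,0),(9,0),(19,0),(10,1)]⟩ ⟨0,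
  [(4,0),(8,0),(3,0),(23,0)]⟩),(.r (-1) ⟨3,[(0,0),(9,1),(1,3),(5,0),(11,0),(12,0)]⟩ ⟨0,[(9,0),(16,
  0)]⟩),.k,[⟨0,[(0,0)]⟩,⟨0,[(2,0)]⟩,⟨0,[(9,0),(13,0),(4,0)]⟩,⟨0,[(2,0),(38,0)]⟩]⟩)) (.Q [0,0,0,0,0,
  0,1,1,-1,0,1,-1] (.p true [0,0,1] [0,0,0,0,1] (⟨0,[(31,0)]⟩,⟨0,[(30,0)]⟩) .k 2 (⟨0,[(24,0)]⟩,⟨0,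
  [(23,0)]⟩) .k (.r (-1) ⟨5,[(13,1),(4,2),(7,3),(10,0),(4,4)]⟩ ⟨2,[(6,0),(3,0),(0,0),(24,0)]⟩)) (.Q
  [0,-2,0,-1,1,0,1,1,-1,0,1,-1] (.p true [0,0,1] [0,0,0,0,1] (⟨0,[(32,0)]⟩,⟨0,[(31,0)]⟩) .k 2 (⟨0,
  [(25,0)]⟩,⟨0,[(24,0)]⟩) .k (.r (-1) ⟨5,[(14,1),(4,2),(7,3),(10,0),(4,4)]⟩ ⟨2,[(7,0),(3,0),(0,0),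
  (24,0)]⟩)) (.R ⟨1,false,false,true,[1,0,0,0,-1],[1,0,-1],[],(⟨0,[(25,0)]⟩,⟨0,[(26,0)]⟩),(⟨0,[(32,
  0)]⟩,⟨0,[(33,0)]⟩),⟨0,[(2,0),(19,0)]⟩,.k,.k,(.r (-1) ⟨7,[(7,2),(3,0),(7,0),(21,1),(2,5)]⟩ ⟨4,[(13,
  2),(14,2),(2,2),(6,0),(3,1)]⟩),.k,(.r (-1) ⟨1,[(0,0),(13,0),(4,0),(0,0)]⟩ ⟨0,[(13,0),(32,0)]⟩),.k,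
  ⟨false,1,⟨1,[(1,0),(13,0),(3,0),(0,0),(23,0)]⟩,⟨2,[(8,0),(3,0),(0,0),(24,0)]⟩⟩,⟨true,0,⟨0,[(18,0),
  (5,0)]⟩,⟨0,[(1,0),(10,0)]⟩⟩,⟨true,0,⟨0,[(46,0)]⟩,⟨0,[]⟩⟩,⟨false,0,⟨0,[(24,0),(4,0)]⟩,⟨0,[(1,0),
  (42,0)]⟩⟩,⟨false,0,⟨0,[(42,0)]⟩,⟨0,[(41,0),(2,0)]⟩⟩,⟨false,0,⟨0,[(24,0),(4,0),(12,0)]⟩,⟨0,[(0,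
  0)]⟩⟩,[.o ⟨false,0,⟨0,[(29,0)]⟩,⟨2,[(15,1),(12,0),(10,0),(4,1)]⟩⟩,.e ⟨false,1,⟨1,[(43,0),(0,0)]⟩,
  ⟨0,[(46,0)]⟩⟩ ⟨false,1,⟨3,[(11,0),(0,0),(3,1),(2,2),(4,1),(4,0),(1,0)]⟩,⟨0,[(1,0)]⟩⟩,.a ⟨true,0,
  ⟨0,[(3,0)]⟩,⟨0,[(24,0)]⟩⟩ ⟨false,1,⟨3,[(11,1),(12,1),(10,0),(8,0)]⟩,⟨0,[]⟩⟩ ⟨true,0,⟨0,[(24,0),(4,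
  0)]⟩,⟨0,[(1,0)]⟩⟩,.o ⟨false,0,⟨0,[(1,0),(10,0),(5,0)]⟩,⟨3,[(19,1),(3,0),(0,2),(10,0)]⟩⟩]⟩) (.R ⟨1,
  true,false,true,[0,0,1],[0,0,0,0,1],[0,1,0,0,0,0,0,1],(⟨0,[(33,0)]⟩,⟨0,[(32,0)]⟩),(⟨0,[(26,0)]⟩,
  ⟨0,[(25,0)]⟩),⟨0,[(22,0)]⟩,.k,.k,.k,.k,(.r (-1) ⟨19,[(1,5),(2,0),(2,2),(6,13),(4,6),(0,9),(18,0),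
  (4,10)]⟩ ⟨0,[(13,0),(32,0)]⟩),.k,⟨false,1,⟨1,[(1,0),(13,0),(3,0),(0,0),(23,0)]⟩,⟨2,[(8,0),(3,0),
  (0,0),(24,0)]⟩⟩,⟨true,0,⟨0,[(18,0),(5,0)]⟩,⟨0,[(1,0),(10,0)]⟩⟩,⟨true,0,⟨0,[(46,0)]⟩,⟨0,[]⟩⟩,
  ⟨false,0,⟨0,[(24,0),(4,0)]⟩,⟨0,[(1,0),(42,0)]⟩⟩,⟨false,0,⟨0,[(42,0)]⟩,⟨0,[(41,0),(2,0)]⟩⟩,⟨true,
  (-1),⟨0,[(0,0)]⟩,⟨0,[(4,0),(9,0)]⟩⟩,[]⟩)) (.Q [0,0,0,-1,0,0,-1,-1,1,0,-1,1] (.p false [0,0,1] [0,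
  0,0,0,1] (⟨0,[(32,0)]⟩,⟨0,[(31,0)]⟩) .k 2 (⟨0,[(25,0)]⟩,⟨0,[(24,0)]⟩) .k (.r (-1) ⟨5,[(14,1),(4,
  2),(7,3),(10,0),(4,4)]⟩ ⟨2,[(7,0),(3,0),(0,0),(24,0)]⟩)) (.Q [0,0,0,0,0,0,2,1,1,-1,2,1] (.p true
  [0,0,1] [1,0,-1,0,-1] (⟨0,[(33,0)]⟩,⟨0,[(32,0)]⟩) .k 2 (⟨0,[(2,0)]⟩,⟨0,[(26,0),(6,0)]⟩) .k (.r 0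
  ⟨0,[(10,0),(4,0),(4,0),(21,0)]⟩ ⟨3,[(5,1),(3,0),(2,0),(0,3),(2,0),(27,2)]⟩)) (.R ⟨1,false,false,
  true,[0,0,1],[1,0,-1,0,-1],[0,1,0,0,0,0,0,1],(⟨0,[(34,0)]⟩,⟨0,[(33,0)]⟩),(⟨0,[(3,0)]⟩,⟨0,[(27,0),
  (6,0)]⟩),⟨0,[(23,0)]⟩,.k,.k,.k,.k,(.r 0 ⟨0,[(11,0),(4,0),(2,0),(8,0)]⟩ ⟨1,[(10,0),(2,0),(0,1),(2,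
  0),(27,0)]⟩),.k,⟨false,0,⟨0,[(11,0),(4,0),(2,0),(8,0),(14,0)]⟩,⟨3,[(6,1),(3,0),(2,0),(0,3),(2,0),
  (27,2)]⟩⟩,⟨true,0,⟨0,[(4,0),(14,1)]⟩,⟨0,[(0,0),(12,0)]⟩⟩,⟨true,0,⟨0,[(47,0)]⟩,⟨0,[]⟩⟩,⟨false,1,⟨2,
  [(4,2),(1,0),(7,1),(2,2),(1,2),(20,0),(4,1)]⟩,⟨0,[(0,0),(15,0),(2,0)]⟩⟩,⟨false,0,⟨0,[(43,0)]⟩,⟨0,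
  [(42,0),(2,0)]⟩⟩,⟨false,1,⟨2,[(4,2),(1,0),(7,1),(2,2),(1,2),(20,0),(2,2),(1,1)]⟩,⟨0,[(0,0),(14,0),
  (3,0)]⟩⟩,[.o ⟨false,1,⟨0,[(5,0),(24,0)]⟩,⟨0,[(0,0),(18,0)]⟩⟩,.o ⟨false,1,⟨2,[(4,2),(1,0),(7,1),(4,
  2),(20,0),(4,1)]⟩,⟨1,[(0,1),(18,0),(12,0),(6,0)]⟩⟩,.o ⟨false,1,⟨3,[(10,1),(13,0),(0,0),(5,1),(4,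
  0)]⟩,⟨0,[(19,0)]⟩⟩,.a ⟨true,0,⟨0,[(31,0)]⟩,⟨0,[(28,0)]⟩⟩ ⟨true,0,⟨0,[(11,0),(16,0),(14,0)]⟩,⟨0,
  [(13,0)]⟩⟩ ⟨false,1,⟨2,[(4,2),(1,0),(10,1),(1,2),(8,0),(11,0),(2,1),(1,1)]⟩,⟨1,[(0,1),(30,0),(0,
  0)]⟩⟩]⟩) (.Q [0,0,0,0,0,0,0,0,0,0,1,-1] (.ed true [1,0,-1,0,1] (.r 0 ⟨2,[(9,0),(3,0),(0,0),(24,
  0)]⟩ ⟨5,[(16,1),(4,2),(7,3),(10,0),(4,4)]⟩)) (.I [0,0,-1,-1,0,0,0,2] (.Q [0,0,0,0,0,1,0,0,0,0,0,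
  -1] (.ed true [1,-1,0,0,1] .k) (.R ⟨0,false,false,true,[0,1,0,0,-1],[1,0,0,0,-1],[0,0,1],(⟨0,[(0,
  0)]⟩,⟨0,[(30,0),(9,0)]⟩),(⟨0,[(29,0)]⟩,⟨0,[(30,0)]⟩),⟨0,[(30,0)]⟩,(.r (-1) ⟨7,[(15,1),(1,3),(10,
  1),(3,3),(2,3),(3,0),(6,3),(1,4)]⟩ ⟨0,[(44,0)]⟩),.k,.k,.k,.k,.k,⟨true,0,⟨1,[(34,0),(0,0)]⟩,⟨0,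
  []⟩⟩,⟨false,0,⟨0,[(40,0),(0,0)]⟩,⟨3,[(23,0),(3,0),(15,0),(3,0)]⟩⟩,⟨true,0,⟨0,[(45,0)]⟩,⟨0,[(46,
  0)]⟩⟩,⟨false,0,⟨0,[(18,0),(1,0)]⟩,⟨1,[(39,0),(6,1),(1,0)]⟩⟩,⟨false,0,⟨0,[]⟩,⟨0,[]⟩⟩,⟨false,0,⟨0,
  []⟩,⟨0,[]⟩⟩,[.a ⟨true,0,⟨0,[(7,0)]⟩,⟨0,[(28,0)]⟩⟩ ⟨true,0,⟨1,[(34,0),(0,0)]⟩,⟨0,[]⟩⟩ ⟨false,0,⟨0,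
  [(40,0),(0,0)]⟩,⟨3,[(23,0),(3,0),(15,0),(3,0)]⟩⟩,.o ⟨false,1,⟨0,[(8,0)]⟩,⟨0,[(5,0),(8,0),(31,
  0)]⟩⟩,.o ⟨false,1,⟨6,[(1,0),(5,4),(0,1),(0,1),(33,3),(2,4),(0,0)]⟩,⟨1,[(28,1),(5,0),(0,0)]⟩⟩,.o
  ⟨false,1,⟨3,[(7,1),(0,0),(18,0),(15,1),(6,0)]⟩,⟨0,[(28,0)]⟩⟩]⟩) (.Q [0,0,0,0,0,-1,0,0,0,0,1,-1]
  (.p false [1,0,-1,0,1] [1] (⟨0,[(30,0),(5,0)]⟩,⟨0,[(2,0)]⟩) .k 1 (⟨0,[]⟩,⟨0,[]⟩) .k (.r 0 ⟨2,[(12,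
  0),(3,0),(0,0),(24,0)]⟩ ⟨6,[(1,0),(22,1),(7,4),(2,0),(3,0),(6,0),(1,5)]⟩)) (.Q [0,0,0,2,0,0,1,1,
  -1,0,1,-1] (.p false [1,0,-1,0,1] [1] (⟨0,[(31,0),(5,0)]⟩,⟨0,[(3,0)]⟩) .k 1 (⟨0,[]⟩,⟨0,[]⟩) .k
  (.r 0 ⟨2,[(13,0),(3,0),(0,0),(24,0)]⟩ ⟨6,[(2,0),(22,1),(7,4),(2,0),(3,0),(6,0),(1,5)]⟩)) (.R ⟨1,
  false,false,true,[1,-1,-1],[1,0,0,0,-1],[0,0,1],(⟨0,[(27,0)]⟩,⟨0,[(39,0),(3,0)]⟩),(⟨0,[(31,0)]⟩,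
  ⟨0,[(32,0)]⟩),⟨0,[(12,0)]⟩,.k,.k,(.r (-1) ⟨4,[(6,1),(4,2),(1,0),(1,1),(1,1),(32,0)]⟩ ⟨1,[(0,1),
  (29,1),(5,0),(0,2)]⟩),(.r 0 ⟨0,[(11,0),(36,0),(2,0)]⟩ ⟨7,[(0,3),(16,1),(12,5),(3,3),(2,7),(3,0),
  (8,4)]⟩),(.x 0 ⟨1,[(4,1),(25,1),(5,0),(0,2),(5,3)]⟩ ⟨13,[(0,11),(9,1),(0,11),(0,13),(2,1),(16,13),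
  (12,3),(3,0),(0,4)]⟩),.k,⟨true,0,⟨1,[(36,0),(0,0)]⟩,⟨0,[]⟩⟩,⟨false,1,⟨5,[(0,3),(10,3),(3,1),(1,1),
  (31,0),(0,0)]⟩,⟨0,[(30,0),(6,0)]⟩⟩,⟨true,0,⟨1,[(0,0),(20,0),(8,0),(5,0),(0,2)]⟩,⟨1,[(0,0),(6,0),
  (3,1)]⟩⟩,⟨false,1,⟨7,[(0,4),(16,2),(5,1),(10,0),(10,0),(4,3)]⟩,⟨0,[(6,0)]⟩⟩,⟨true,0,⟨1,[(0,1),(29,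
  1),(5,0),(0,2)]⟩,⟨0,[(11,0)]⟩⟩,⟨true,0,⟨0,[(0,0)]⟩,⟨0,[(6,0),(40,0)]⟩⟩,[.a ⟨true,0,⟨0,[(9,0)]⟩,⟨0,
  [(30,0)]⟩⟩ ⟨true,0,⟨1,[(36,0),(0,0)]⟩,⟨0,[]⟩⟩ ⟨false,1,⟨5,[(0,3),(10,3),(3,1),(1,1),(31,0),(0,
  0)]⟩,⟨0,[(30,0),(6,0)]⟩⟩,.o ⟨false,1,⟨0,[(10,0)]⟩,⟨1,[(0,0),(6,2),(8,1)]⟩⟩,.o ⟨false,0,⟨0,[(37,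
  0)]⟩,⟨0,[(15,0)]⟩⟩,.o ⟨false,0,⟨1,[(36,0),(0,2)]⟩,⟨5,[(0,3),(10,3),(3,1),(9,0),(4,2),(14,0),(4,
  1)]⟩⟩]⟩) (.Q [0,0,-1,0,0,0,-1,0,-1,1,-1,-1] (.p false [0,0,1,0,1] [1] (⟨0,[(32,0),(6,0)]⟩,⟨0,[(8,
  0)]⟩) .k 1 (⟨0,[]⟩,⟨0,[]⟩) .k (.r 0 ⟨3,[(3,0),(30,1),(2,1),(6,0),(3,0)]⟩ ⟨1,[(15,0),(2,0),(3,0),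
  (27,0)]⟩)) (.Q [0,0,-1,0,0,0,-1,0,1,0,-1,1] (.p true [1,0,-1,0,1] [1] (⟨0,[(33,0),(5,0)]⟩,⟨0,[(5,
  0)]⟩) .k 1 (⟨0,[]⟩,⟨0,[]⟩) .k (.r 0 ⟨2,[(15,0),(3,0),(0,0),(24,0)]⟩ ⟨6,[(4,0),(22,1),(7,4),(2,0),
  (3,0),(6,0),(1,5)]⟩)) (.R ⟨1,false,false,true,[0,0,1,0,-1],[1,0,0,0,-1],[0,0,0,0,0,0,0,1],(⟨0,[(6,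
  0)]⟩,⟨0,[(34,0),(5,0)]⟩),(⟨0,[(33,0)]⟩,⟨0,[(34,0)]⟩),⟨0,[(3,0)]⟩,.k,.k,(.r (-1) ⟨52,[(2,9),(2,29),
  (11,6),(1,17),(5,2),(1,7),(19,0),(4,18)]⟩ ⟨0,[(21,0),(32,0)]⟩),.k,.k,.k,⟨true,0,⟨2,[(5,0),(17,0),
  (15,0),(10,0)]⟩,⟨0,[(20,0)]⟩⟩,⟨false,0,⟨0,[(35,0)]⟩,⟨3,[(17,1),(13,0),(0,0),(5,1),(4,0)]⟩⟩,⟨true,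
  0,⟨0,[(54,0)]⟩,⟨0,[]⟩⟩,⟨false,0,⟨0,[(24,0)]⟩,⟨2,[(23,1),(12,0),(10,0),(4,1)]⟩⟩,⟨false,0,⟨0,[(50,
  0)]⟩,⟨5,[(2,1),(16,1),(5,1),(17,0),(8,2)]⟩⟩,⟨false,0,⟨0,[(24,0),(25,0)]⟩,⟨2,[(22,1),(2,0),(21,0),
  (4,1)]⟩⟩,[.a ⟨true,0,⟨0,[(11,0)]⟩,⟨0,[(32,0)]⟩⟩ ⟨true,0,⟨2,[(5,0),(17,0),(15,0),(10,0)]⟩,⟨0,[(20,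
  0)]⟩⟩ ⟨false,0,⟨0,[(35,0)]⟩,⟨3,[(17,1),(13,0),(0,0),(5,1),(4,0)]⟩⟩,.o ⟨false,1,⟨0,[(12,0)]⟩,⟨0,
  [(9,0),(8,0),(31,0)]⟩⟩,.o ⟨false,1,⟨6,[(11,4),(0,1),(0,0),(3,1),(0,0),(19,3),(8,2),(2,2)]⟩,⟨1,[(0,
  0),(31,0),(6,0)]⟩⟩,.o ⟨false,1,⟨2,[(11,0),(0,0),(5,0),(2,0),(9,0),(6,1),(8,0)]⟩,⟨0,[(0,0)]⟩⟩]⟩)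
  (.Q [0,-2,0,-1,1,0,1,1,-1,0,1,-1] (.p false [1,0,-1,0,1] [1] (⟨0,[(34,0),(5,0)]⟩,⟨0,[(6,0)]⟩) .k
  1 (⟨0,[]⟩,⟨0,[]⟩) .k (.r 0 ⟨2,[(16,0),(3,0),(0,0),(24,0)]⟩ ⟨6,[(5,0),(22,1),(7,4),(2,0),(3,0),(6,
  0),(1,5)]⟩)) (.R ⟨1,false,false,true,[1,0,0,0,-1],[1,0,-1],[],(⟨0,[(34,0)]⟩,⟨0,[(35,0)]⟩),(⟨0,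
  [(41,0)]⟩,⟨0,[(42,0)]⟩),⟨2,[(4,0),(10,0),(18,1)]⟩,.k,.k,(.r (-1) ⟨5,[(0,1),(2,1),(48,2),(0,0)]⟩
  ⟨4,[(22,2),(14,2),(2,2),(6,0),(3,1)]⟩),.k,(.r (-1) ⟨23,[(0,1),(2,3),(2,11),(13,7),(5,1),(1,5),(15,
  0),(8,6)]⟩ ⟨0,[(22,0),(32,0)]⟩),.k,⟨false,1,⟨35,[(6,15),(13,9),(7,9),(0,1),(7,3),(6,0),(6,15),(1,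
  14)]⟩,⟨2,[(17,0),(3,0),(0,0),(24,0)]⟩⟩,⟨true,0,⟨2,[(6,0),(3,1),(22,0),(6,0),(10,0)]⟩,⟨0,[(1,0)]⟩⟩,
  ⟨true,0,⟨0,[(55,0)]⟩,⟨0,[]⟩⟩,⟨false,0,⟨0,[(10,0),(44,0)]⟩,⟨0,[(0,0),(50,0)]⟩⟩,⟨false,0,⟨0,[(51,
  0)]⟩,⟨5,[(3,1),(16,1),(5,1),(17,0),(8,2)]⟩⟩,⟨false,0,⟨3,[(10,2),(11,0),(10,0),(6,0),(6,1),(3,2)]⟩,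
  ⟨0,[(0,0)]⟩⟩,[.o ⟨false,0,⟨0,[(38,0)]⟩,⟨2,[(24,1),(12,0),(10,0),(4,1)]⟩⟩,.a ⟨true,0,⟨0,[(25,0)]⟩,
  ⟨0,[(24,0)]⟩⟩ ⟨false,1,⟨1,[(52,0),(0,0)]⟩,⟨0,[(55,0)]⟩⟩ ⟨true,0,⟨0,[(10,0)]⟩,⟨2,[(1,2),(4,0),(17,
  0),(15,0),(10,0)]⟩⟩,.e ⟨false,1,⟨3,[(20,1),(12,1),(10,0),(8,0)]⟩,⟨0,[]⟩⟩ ⟨false,0,⟨0,[(10,0)]⟩,⟨1,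
  [(0,0),(12,0),(23,0),(13,0)]⟩⟩,.o ⟨false,0,⟨0,[(1,0),(25,0)]⟩,⟨3,[(28,1),(3,0),(0,2),(10,0)]⟩⟩]⟩)
  (.K ⟨0,[0,1,0,0,1],0,(-1),(⟨0,[(35,0),(10,0)]⟩,⟨2,[(4,0),(10,0),(18,1)]⟩),(.r 0 ⟨5,[(0,0),(21,2),
  (9,0),(4,3),(2,2),(10,1)]⟩ ⟨12,[(3,1),(2,0),(9,3),(1,1),(1,2),(7,0),(24,6)]⟩),.k,(.r 0 ⟨0,[(22,0),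
  (14,0),(2,0),(10,0)]⟩ ⟨0,[(16,0),(36,0)]⟩),(.r 0 ⟨0,[(22,0),(32,0)]⟩ ⟨52,[(3,9),(2,29),(11,6),(1,
  17),(5,2),(1,7),(19,0),(4,18)]⟩),.k,[⟨0,[(1,0)]⟩,⟨0,[(33,0)]⟩,⟨0,[(13,0),(36,0)]⟩,⟨0,[(0,0),(23,
  0)]⟩]⟩))) (.K ⟨0,[1,1,0,0,-1],0,0,(⟨0,[(32,0),(11,0)]⟩,⟨0,[(3,0)]⟩),(.r (-1) ⟨7,[(0,3),(17,5),(12,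
  1),(6,3),(3,0),(6,7),(1,0)]⟩ ⟨0,[(47,0)]⟩),.k,(.r (-1) ⟨0,[(0,0),(17,0),(19,0),(10,1)]⟩ ⟨1,[(4,0),
  (7,1),(36,0),(2,0)]⟩),(.r (-1) ⟨3,[(18,1),(1,3),(10,1),(10,0),(8,0)]⟩ ⟨9,[(4,4),(9,0),(30,2),(2,
  2)]⟩),.k,[⟨0,[(0,0)]⟩,⟨0,[(10,0)]⟩,⟨5,[(0,1),(0,0),(6,2),(8,3),(20,1),(6,3)]⟩,⟨0,[(10,0),(38,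
  0)]⟩]⟩))) (.Q [0,0,-1,0,0,0,-1,0,1,0,-1,1] (.p true [1,0,-1,0,1] [1] (⟨0,[(31,0),(5,0)]⟩,⟨0,[(3,
  0)]⟩) .k 1 (⟨0,[]⟩,⟨0,[]⟩) .k (.r 0 ⟨2,[(13,0),(3,0),(0,0),(24,0)]⟩ ⟨6,[(2,0),(22,1),(7,4),(2,0),
  (3,0),(6,0),(1,5)]⟩)) (.R ⟨0,false,false,true,[0,0,1,0,-1],[1,0,0,0,-1],[0,0,0,0,0,0,0,1],(⟨0,[(4,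
  0)]⟩,⟨0,[(32,0),(5,0)]⟩),(⟨0,[(31,0)]⟩,⟨0,[(32,0)]⟩),⟨0,[(1,0)]⟩,.k,.k,(.r (-1) ⟨15,[(3,7),(9,0),
  (3,2),(7,2),(21,5),(2,9)]⟩ ⟨0,[(19,0),(32,0)]⟩),.k,.k,.k,⟨true,0,⟨2,[(3,0),(17,0),(15,0),(10,0)]⟩,
  ⟨0,[(18,0)]⟩⟩,⟨false,0,⟨0,[(33,0)]⟩,⟨3,[(15,1),(13,0),(0,0),(5,1),(4,0)]⟩⟩,⟨true,0,⟨0,[(52,0)]⟩,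
  ⟨0,[]⟩⟩,⟨false,0,⟨0,[(22,0)]⟩,⟨2,[(21,1),(12,0),(10,0),(4,1)]⟩⟩,⟨false,0,⟨0,[]⟩,⟨0,[]⟩⟩,⟨false,0,
  ⟨0,[]⟩,⟨0,[]⟩⟩,[.a ⟨true,0,⟨0,[(9,0)]⟩,⟨0,[(30,0)]⟩⟩ ⟨true,0,⟨2,[(3,0),(17,0),(15,0),(10,0)]⟩,⟨0,
  [(18,0)]⟩⟩ ⟨false,0,⟨0,[(33,0)]⟩,⟨3,[(15,1),(13,0),(0,0),(5,1),(4,0)]⟩⟩,.o ⟨false,1,⟨0,[(10,0)]⟩,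
  ⟨0,[(7,0),(8,0),(31,0)]⟩⟩,.o ⟨false,1,⟨6,[(9,4),(0,1),(0,0),(3,1),(0,0),(19,3),(8,2),(2,2)]⟩,⟨1,
  [(0,0),(29,0),(6,0)]⟩⟩,.o ⟨false,1,⟨2,[(9,0),(0,0),(5,0),(2,0),(9,0),(6,1),(8,0)]⟩,⟨0,[(0,
  0)]⟩⟩]⟩) (.R ⟨0,false,false,false,[0,0,1,0,-1],[1,0,-1],[],(⟨0,[(4,0)]⟩,⟨0,[(32,0),(5,0)]⟩),(⟨0,
  [(38,0)]⟩,⟨0,[(39,0)]⟩),⟨0,[(1,0)]⟩,.k,.k,(.r (-1) ⟨15,[(3,7),(9,0),(3,2),(7,2),(21,5),(2,9)]⟩ ⟨0,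
  [(19,0),(32,0)]⟩),.k,.k,.k,⟨true,0,⟨2,[(3,0),(17,0),(15,0),(10,0)]⟩,⟨0,[(18,0)]⟩⟩,⟨false,0,⟨2,[(3,
  0),(3,1),(18,0),(3,0),(2,1),(14,0)]⟩,⟨0,[(0,0),(14,0)]⟩⟩,⟨true,0,⟨2,[(14,0),(3,0),(0,0),(24,0)]⟩,
  ⟨2,[(3,0),(17,0),(15,0),(10,0)]⟩⟩,⟨false,0,⟨0,[(7,0),(14,0)]⟩,⟨10,[(0,10),(2,6),(7,0),(3,1),(5,8),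
  (23,2),(2,8),(1,5)]⟩⟩,⟨false,0,⟨0,[]⟩,⟨0,[]⟩⟩,⟨false,0,⟨0,[]⟩,⟨0,[]⟩⟩,[.e ⟨false,1,⟨4,[(17,1),(7,
  1),(3,0),(0,0),(13,0)]⟩,⟨0,[]⟩⟩ ⟨false,0,⟨0,[(7,0),(25,0)]⟩,⟨6,[(0,4),(2,0),(6,1),(4,3),(5,2),(12,
  1),(10,0),(2,0)]⟩⟩,.o ⟨false,1,⟨2,[(7,0),(9,0),(4,1),(22,0),(4,0)]⟩,⟨0,[(16,0),(31,0)]⟩⟩,.o
  ⟨false,1,⟨4,[(0,2),(9,1),(4,1),(28,0),(0,0)]⟩,⟨2,[(3,0),(3,1),(22,0),(6,0),(10,0)]⟩⟩,.a ⟨true,0,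
  ⟨0,[(0,0)]⟩,⟨0,[(30,0),(2,0)]⟩⟩ ⟨false,1,⟨1,[(49,0),(0,0)]⟩,⟨1,[(36,0),(0,0)]⟩⟩ ⟨true,0,⟨0,[(7,0),
  (25,0)]⟩,⟨0,[(0,0),(15,0),(31,0)]⟩⟩]⟩)))) (.Q [0,0,0,0,0,1,0,0,0,0,0,-1] (.ed true [1,-1,0,0,1]
  .k) (.R ⟨0,false,false,true,[0,1,0,0,-1],[1,0,0,0,-1],[0,0,1],(⟨0,[(0,0)]⟩,⟨0,[(30,0),(9,0)]⟩),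
  (⟨0,[(29,0)]⟩,⟨0,[(30,0)]⟩),⟨0,[(30,0)]⟩,(.r (-1) ⟨7,[(15,1),(1,3),(10,1),(3,3),(2,3),(3,0),(6,3),
  (1,4)]⟩ ⟨0,[(44,0)]⟩),.k,.k,.k,.k,.k,⟨true,0,⟨1,[(34,0),(0,0)]⟩,⟨0,[]⟩⟩,⟨false,0,⟨0,[(40,0),(0,
  0)]⟩,⟨3,[(23,0),(3,0),(15,0),(3,0)]⟩⟩,⟨true,0,⟨0,[(45,0)]⟩,⟨0,[(46,0)]⟩⟩,⟨false,0,⟨0,[(18,0),(1,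
  0)]⟩,⟨1,[(39,0),(6,1),(1,0)]⟩⟩,⟨false,0,⟨0,[]⟩,⟨0,[]⟩⟩,⟨false,0,⟨0,[]⟩,⟨0,[]⟩⟩,[.a ⟨true,0,⟨0,[(7,
  0)]⟩,⟨0,[(28,0)]⟩⟩ ⟨true,0,⟨1,[(34,0),(0,0)]⟩,⟨0,[]⟩⟩ ⟨false,0,⟨0,[(40,0),(0,0)]⟩,⟨3,[(23,0),(3,
  0),(15,0),(3,0)]⟩⟩,.o ⟨false,1,⟨0,[(8,0)]⟩,⟨0,[(5,0),(8,0),(31,0)]⟩⟩,.o ⟨false,1,⟨1,[(7,0),(0,0),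
  (2,0),(31,0),(2,1)]⟩,⟨1,[(28,1),(5,0),(0,0)]⟩⟩,.o ⟨false,1,⟨3,[(7,1),(0,0),(18,0),(15,1),(6,0)]⟩,
  ⟨0,[(28,0)]⟩⟩]⟩) (.Q [0,0,0,2,0,0,-1,-1,0,0,-1] (.p false [0,0,1] [] (⟨0,[(37,0)]⟩,⟨0,[(36,0)]⟩)
  .k 0 (⟨0,[]⟩,⟨0,[]⟩) .k .k) (.R ⟨1,false,false,true,[1,-1],[1,0,-1],[0,1,1,0,0,0,0,-1],(⟨0,[(41,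
  0)]⟩,⟨0,[(42,0)]⟩),(⟨0,[(37,0)]⟩,⟨0,[(38,0)]⟩),⟨1,[(11,0),(15,0),(13,0)]⟩,.k,.k,(.r (-1) ⟨3,[(12,
  2),(3,0),(7,0),(21,1),(2,1)]⟩ ⟨0,[(35,0),(0,0),(10,1)]⟩),.k,(.r (-1) ⟨1,[(9,0),(2,0),(6,1),(4,0),
  (0,0)]⟩ ⟨1,[(0,1),(34,2),(0,0)]⟩),.k,⟨true,0,⟨1,[(35,0),(0,0)]⟩,⟨0,[]⟩⟩,⟨false,1,⟨3,[(25,0),(6,1),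
  (11,0),(3,2)]⟩,⟨0,[(35,0)]⟩⟩,⟨false,0,⟨1,[(18,1),(16,0),(0,0)]⟩,⟨0,[(12,0),(7,0),(2,0),(23,0),(1,
  0)]⟩⟩,⟨true,0,⟨1,[(0,0),(33,0),(16,0)]⟩,⟨0,[(19,0)]⟩⟩,⟨false,0,⟨1,[(0,1),(34,2),(0,0)]⟩,⟨0,[(12,
  0),(7,0),(2,0),(25,0)]⟩⟩,⟨false,0,⟨0,[(0,0)]⟩,⟨0,[(19,0),(26,0),(2,0)]⟩⟩,[.o ⟨false,0,⟨0,[(34,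
  0)]⟩,⟨2,[(20,1),(12,0),(10,0),(4,1)]⟩⟩,.a ⟨true,0,⟨0,[(21,0)]⟩,⟨0,[(20,0)]⟩⟩ ⟨true,0,⟨0,[(2,0),
  (16,0),(3,0)]⟩,⟨0,[(20,0),(2,0)]⟩⟩ ⟨false,1,⟨12,[(0,0),(1,1),(1,5),(5,1),(13,5),(23,5),(0,0)]⟩,⟨1,
  [(20,1),(14,0),(0,0)]⟩⟩,.o ⟨false,0,⟨1,[(35,0),(0,0)]⟩,⟨3,[(24,0),(3,0),(15,0),(3,0)]⟩⟩,.o ⟨false,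
  0,⟨0,[(35,0),(0,0)]⟩,⟨2,[(12,1),(31,0),(2,3),(0,0),(0,0)]⟩⟩]⟩) (.Q [0,0,1,0,0,0,0,0,1,-1,0,1] (.p
  true [0,0,0,0,1] [1] (⟨0,[(31,0)]⟩,⟨0,[(30,0)]⟩) .k 1 (⟨0,[]⟩,⟨0,[]⟩) .k .k) (.S ⟨1,0,[0,2],[0,0,
  0,0,1],[1,1,0,-1],(⟨0,[(32,0)]⟩,⟨0,[(31,0)]⟩),⟨0,[(2,0)]⟩,.k,(.r 0 ⟨0,[(46,0)]⟩ ⟨0,[(0,0),(16,0),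
  (30,0)]⟩),⟨false,1,⟨29,[(0,3),(0,9),(4,9),(10,15),(7,1),(15,4),(8,6)]⟩,⟨0,[(48,0)]⟩⟩,⟨true,0,⟨0,
  [(52,0)]⟩,⟨0,[]⟩⟩,⟨true,0,⟨0,[]⟩,⟨0,[(52,0)]⟩⟩,⟨false,0,⟨0,[(48,0)]⟩,⟨29,[(0,3),(0,9),(4,9),(10,
  15),(7,1),(15,4),(8,6)]⟩⟩,[.e ⟨false,0,⟨4,[(13,1),(30,0),(2,0)]⟩,⟨4,[(0,1),(16,2),(7,0),(22,4),(1,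
  0)]⟩⟩ ⟨false,0,⟨0,[(44,0)]⟩,⟨0,[(50,0)]⟩⟩,.o ⟨false,0,⟨2,[(0,2),(12,0),(30,0),(3,1)]⟩,⟨0,[(10,
  0)]⟩⟩,.a ⟨true,0,⟨0,[(30,0)]⟩,⟨0,[(9,0)]⟩⟩ ⟨true,0,⟨0,[(47,0)]⟩,⟨0,[(48,0)]⟩⟩ ⟨false,0,⟨0,[(52,
  0)]⟩,⟨0,[(50,0)]⟩⟩,.o ⟨false,0,⟨0,[(0,0)]⟩,⟨3,[(9,2),(19,0),(15,0),(3,1)]⟩⟩]⟩) (.Q [0,-2,0,0,1,0,
  1,0,0,0,1] (.p true [0,0,1] [] (⟨0,[(39,0)]⟩,⟨0,[(38,0)]⟩) .k 0 (⟨0,[]⟩,⟨0,[]⟩) .k .k) (.R ⟨1,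
  false,false,true,[0,0,1,0,1],[0,0,0,0,1],[0,1,0,0,0,0,0,1],(⟨0,[(33,0),(6,0)]⟩,⟨0,[(9,0)]⟩),(⟨0,
  [(33,0)]⟩,⟨0,[(32,0)]⟩),⟨0,[(29,0),(3,0)]⟩,.k,.k,(.r 0 ⟨0,[(17,0),(16,0)]⟩ ⟨3,[(18,1),(1,3),(10,
  1),(10,0),(8,0)]⟩),.k,.k,.k,⟨false,1,⟨3,[(22,3),(4,0),(6,1),(11,0),(3,0),(0,1)]⟩,⟨12,[(4,5),(7,0),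
  (32,3),(2,3)]⟩⟩,⟨true,0,⟨0,[(25,0)]⟩,⟨0,[(37,0)]⟩⟩,⟨false,1,⟨3,[(18,1),(12,1),(10,0),(8,0)]⟩,⟨0,
  []⟩⟩,⟨true,0,⟨0,[(36,0)]⟩,⟨0,[(22,0)]⟩⟩,⟨true,0,⟨0,[(49,0)]⟩,⟨0,[(48,0)]⟩⟩,⟨true,0,⟨0,[(36,0),(12,
  0)]⟩,⟨0,[(21,0)]⟩⟩,[.e ⟨false,0,⟨0,[(17,0),(16,0),(14,0)]⟩,⟨2,[(4,0),(2,0),(8,0),(1,0),(32,0)]⟩⟩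
  ⟨false,0,⟨0,[(25,0),(19,0)]⟩,⟨0,[(0,0)]⟩⟩,.o ⟨false,0,⟨0,[(8,0),(8,0),(31,0)]⟩,⟨0,[(11,0)]⟩⟩,.e
  ⟨false,0,⟨0,[(22,0),(2,0)]⟩,⟨2,[(4,0),(2,0),(8,0),(1,0),(32,0)]⟩⟩ ⟨false,0,⟨1,[(25,0),(12,0),(6,
  0)]⟩,⟨0,[(0,0)]⟩⟩,.a ⟨true,0,⟨0,[(31,0),(5,0)]⟩,⟨0,[(1,0),(23,0)]⟩⟩ ⟨true,0,⟨0,[(17,0),(16,0),(14,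
  0)]⟩,⟨0,[(19,0)]⟩⟩ ⟨false,0,⟨2,[(14,0),(10,2),(19,0),(3,1)]⟩,⟨0,[(37,0),(13,0)]⟩⟩]⟩) (.Q [0,0,0,0,
  0,0,1,0,1,0,1,1] (.p true [0,0,1,0,1] [] (⟨0,[(33,0),(6,0)]⟩,⟨0,[(9,0)]⟩) .k 0 (⟨0,[]⟩,⟨0,[]⟩) .k
  (.r 0 ⟨13,[(0,1),(21,4),(4,5),(7,8),(10,1),(6,0)]⟩ ⟨2,[(4,0),(2,0),(8,0),(1,0),(32,0)]⟩)) (.R ⟨1,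
  false,false,false,[0,0,1,0,1],[0,0,0,0,1],[0,2,0,0,0,0,0,1],(⟨0,[(34,0),(6,0)]⟩,⟨0,[(10,0)]⟩),(⟨0,
  [(34,0)]⟩,⟨0,[(33,0)]⟩),⟨0,[(30,0),(3,0)]⟩,.k,.k,(.r 0 ⟨0,[(18,0),(16,0)]⟩ ⟨3,[(19,1),(1,3),(10,
  1),(10,0),(8,0)]⟩),.k,.k,.k,⟨false,0,⟨4,[(1,1),(21,3),(11,2),(0,0),(10,0),(3,0)]⟩,⟨2,[(5,0),(2,0),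
  (8,0),(1,0),(32,0)]⟩⟩,⟨true,0,⟨0,[(26,0)]⟩,⟨0,[(38,0)]⟩⟩,⟨true,0,⟨0,[(54,0)]⟩,⟨0,[]⟩⟩,⟨false,1,
  ⟨42,[(5,3),(1,7),(0,3),(0,22),(9,20),(7,1),(19,8),(4,10)]⟩,⟨0,[(23,0)]⟩⟩,⟨false,0,⟨0,[(50,0)]⟩,⟨4,
  [(3,0),(4,1),(10,1),(5,0),(17,0),(8,1)]⟩⟩,⟨false,1,⟨57,[(5,27),(1,1),(11,11),(7,13),(0,26),(18,8),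
  (2,29),(1,22)]⟩,⟨0,[(22,0)]⟩⟩,[.o ⟨false,0,⟨2,[(0,0),(0,0),(30,1),(14,0),(6,0)]⟩,⟨0,[(12,0)]⟩⟩,.a
  ⟨true,0,⟨0,[(32,0)]⟩,⟨0,[(11,0)]⟩⟩ ⟨false,0,⟨4,[(1,1),(21,3),(11,2),(0,0),(10,0),(3,0)]⟩,⟨2,[(5,
  0),(2,0),(8,0),(1,0),(32,0)]⟩⟩ ⟨true,0,⟨0,[(26,0)]⟩,⟨0,[(38,0)]⟩⟩,.a ⟨true,0,⟨0,[(0,0)]⟩,⟨0,[(2,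
  0),(36,0)]⟩⟩ ⟨true,(-1),⟨0,[(1,0),(21,0)]⟩,⟨2,[(5,0),(2,0),(8,0),(1,0),(32,0)]⟩⟩ ⟨false,0,⟨0,[(26,
  0)]⟩,⟨2,[(0,0),(16,0),(1,0),(18,0),(13,0)]⟩⟩,.a ⟨true,0,⟨1,[(0,1),(37,0),(0,0)]⟩,⟨0,[(2,0),(23,
  0)]⟩⟩ ⟨false,0,⟨4,[(1,1),(21,3),(11,2),(0,0),(10,0),(3,0)]⟩,⟨0,[(20,0),(31,0)]⟩⟩ ⟨true,0,⟨7,[(1,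
  3),(26,0),(6,1),(11,0),(3,2)]⟩,⟨0,[(38,0)]⟩⟩]⟩) (.Q [0,2,0,1,-1,0,0,0,1,0,0,1] (.p true [0,0,0,0,
  1] [] (⟨0,[(34,0)]⟩,⟨0,[(33,0)]⟩) .k 0 (⟨0,[]⟩,⟨0,[]⟩) .k .k) (.K ⟨0,[0,1,0,0,1],0,(-1),(⟨0,[(35,
  0),(10,0)]⟩,⟨1,[(7,0),(7,0),(18,0)]⟩),(.r 0 ⟨3,[(0,0),(21,1),(9,0),(4,1),(2,1),(10,0)]⟩ ⟨55,[(4,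
  5),(4,5),(6,18),(3,14),(7,8),(19,1),(4,29)]⟩),.k,(.r 0 ⟨0,[(22,0),(14,0),(2,0),(10,0)]⟩ ⟨0,[(16,
  0),(36,0)]⟩),(.r 0 ⟨3,[(0,1),(5,1),(25,1),(6,0),(0,0)]⟩ ⟨5,[(1,1),(21,5),(4,1),(0,1),(22,0),(0,
  2)]⟩),.k,[⟨0,[(1,0),(4,0),(16,0),(0,0)]⟩,⟨0,[(33,0)]⟩,⟨0,[(13,0),(36,0)]⟩,⟨0,[(0,0)]⟩]⟩) (.R ⟨1,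
  false,false,true,[0,0,1,0,1],[0,0,0,0,1],[0,1,0,0,0,0,0,1],(⟨0,[(35,0),(6,0)]⟩,⟨0,[(11,0)]⟩),(⟨0,
  [(35,0)]⟩,⟨0,[(34,0)]⟩),⟨0,[(31,0),(3,0)]⟩,.k,.k,(.r 0 ⟨0,[(19,0),(16,0)]⟩ ⟨3,[(20,1),(1,3),(10,
  1),(10,0),(8,0)]⟩),.k,.k,.k,⟨false,1,⟨5,[(1,1),(22,5),(3,1),(0,1),(22,0),(0,2)]⟩,⟨12,[(6,5),(7,0),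
  (32,3),(2,3)]⟩⟩,⟨true,0,⟨0,[(27,0)]⟩,⟨0,[(39,0)]⟩⟩,⟨false,1,⟨3,[(20,1),(12,1),(10,0),(8,0)]⟩,⟨0,
  []⟩⟩,⟨true,0,⟨0,[(38,0)]⟩,⟨0,[(24,0)]⟩⟩,⟨true,0,⟨0,[(51,0)]⟩,⟨0,[(50,0)]⟩⟩,⟨true,0,⟨0,[(38,0),(12,
  0)]⟩,⟨0,[(23,0)]⟩⟩,[.o ⟨false,0,⟨6,[(2,1),(3,0),(12,0),(13,6),(3,0),(9,0),(0,1),(6,5)]⟩,⟨0,[(0,0),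
  (50,0)]⟩⟩,.o ⟨false,0,⟨7,[(2,1),(3,0),(12,1),(13,7),(13,0),(0,1),(2,0)]⟩,⟨0,[(13,0)]⟩⟩,.o ⟨false,
  1,⟨3,[(18,1),(13,0),(0,4),(5,1),(4,0)]⟩,⟨0,[(1,0)]⟩⟩,.a ⟨true,0,⟨0,[(33,0),(5,0)]⟩,⟨1,[(1,0),(1,
  0),(32,0)]⟩⟩ ⟨true,0,⟨2,[(1,0),(0,0),(21,1),(3,0),(7,0),(0,0)]⟩,⟨0,[(21,0)]⟩⟩ ⟨false,0,⟨5,[(1,0),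
  (0,2),(25,0),(0,0),(22,1)]⟩,⟨0,[(39,0),(13,0)]⟩⟩]⟩)))))))) (.I [1,-1,2,2,0,0,0,1] (.I [0,0,2,0,0,
  2,-1,0,1] (.N [0,2,1,0,-1] 0 ⟨0,[(1,0)]⟩ ⟨0,[(9,0)]⟩ (.x (-1) ⟨0,[(2,0),(5,0),(0,0),(9,0),(18,1),
  (7,1)]⟩ ⟨0,[(0,0)]⟩)) (.R ⟨1,false,false,true,[0,0,1,0,1],[0,0,0,0,1],[0,1,0,0,0,0,0,1],(⟨0,[(30,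
  0),(6,0)]⟩,⟨0,[(6,0)]⟩),(⟨0,[(30,0)]⟩,⟨0,[(29,0)]⟩),⟨0,[(26,0),(3,0)]⟩,.k,.k,(.r 0 ⟨0,[(14,0),(16,
  0)]⟩ ⟨6,[(1,1),(3,2),(7,2),(1,2),(0,2),(0,2),(30,0)]⟩),.k,.k,.k,⟨false,1,⟨7,[(1,1),(16,3),(0,1),
  (11,5),(11,1),(3,2),(0,2)]⟩,⟨2,[(12,0),(3,0),(0,0),(24,0)]⟩⟩,⟨true,0,⟨0,[(22,0)]⟩,⟨0,[(34,0)]⟩⟩,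
  ⟨false,1,⟨3,[(15,1),(12,1),(10,0),(8,0)]⟩,⟨0,[]⟩⟩,⟨true,0,⟨0,[(33,0)]⟩,⟨0,[(19,0)]⟩⟩,⟨true,0,⟨0,
  [(46,0)]⟩,⟨0,[(45,0)]⟩⟩,⟨true,0,⟨0,[(33,0),(12,0)]⟩,⟨0,[(18,0)]⟩⟩,[.o ⟨false,0,⟨4,[(1,0),(3,4),(8,
  4),(2,0),(24,2),(3,1)]⟩,⟨0,[(0,2),(0,1),(2,1),(11,1),(1,1),(3,2),(6,2),(7,2),(3,5),(1,0)]⟩⟩,.o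
  ⟨false,0,⟨0,[(5,0),(8,0),(31,0)]⟩,⟨0,[(8,0)]⟩⟩,.e ⟨false,0,⟨0,[(19,0),(2,0)]⟩,⟨1,[(13,0),(2,0),(3,
  0),(27,0)]⟩⟩ ⟨false,0,⟨1,[(22,0),(12,0),(6,0)]⟩,⟨2,[(0,2),(0,1),(2,2),(13,0),(10,2),(4,1),(2,2),
  (3,5),(1,0),(4,1)]⟩⟩,.a ⟨true,0,⟨0,[(28,0),(5,0)]⟩,⟨1,[(0,0),(0,0),(1,0),(7,0),(10,0),(6,0),(7,0),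
  (3,1)]⟩⟩ ⟨true,0,⟨0,[(14,0),(16,0),(14,0)]⟩,⟨0,[(16,0)]⟩⟩ ⟨false,0,⟨2,[(11,0),(10,2),(19,0),(3,
  1)]⟩,⟨0,[(34,0),(13,0)]⟩⟩]⟩)) (.Q [0,0,1,0,0,0,0,0,1,-1,0,1] (.p true [0,0,0,0,1] [1] (⟨0,[(29,
  0)]⟩,⟨0,[(28,0)]⟩) .k 1 (⟨0,[]⟩,⟨0,[]⟩) .k .k) (.S ⟨1,0,[0,2],[0,0,0,0,1],[1,1,0,-1],(⟨0,[(30,
  0)]⟩,⟨0,[(29,0)]⟩),⟨0,[(2,0),(23,0)]⟩,.k,(.r 0 ⟨0,[(44,0)]⟩ ⟨0,[(0,0),(14,0),(30,0)]⟩),⟨false,1,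
  ⟨0,[(45,0),(2,0)]⟩,⟨0,[(46,0)]⟩⟩,⟨true,0,⟨0,[(50,0)]⟩,⟨0,[]⟩⟩,⟨true,0,⟨0,[]⟩,⟨0,[(50,0)]⟩⟩,⟨false,
  0,⟨0,[(46,0)]⟩,⟨0,[(45,0),(2,0)]⟩⟩,[.e ⟨false,0,⟨4,[(11,1),(30,0),(2,0)]⟩,⟨4,[(0,1),(14,2),(7,0),
  (22,4),(1,0)]⟩⟩ ⟨false,0,⟨0,[(42,0)]⟩,⟨0,[(48,0)]⟩⟩,.o ⟨false,0,⟨2,[(0,2),(10,0),(30,0),(3,1)]⟩,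
  ⟨0,[(8,0)]⟩⟩,.a ⟨true,0,⟨0,[(28,0)]⟩,⟨0,[(7,0)]⟩⟩ ⟨true,0,⟨0,[(45,0)]⟩,⟨0,[(46,0)]⟩⟩ ⟨false,0,⟨0,
  [(50,0)]⟩,⟨0,[(48,0)]⟩⟩,.o ⟨false,0,⟨0,[(0,0)]⟩,⟨3,[(7,2),(19,0),(15,0),(3,1)]⟩⟩]⟩) (.I [0,-2,-1,
  0,1,0,0,1] (.Q [0,1,0,0,0,0,-1,-1,1,-1,-1,1] (.p true [0,0,-1,0,1] [1] (⟨0,[(3,0)]⟩,⟨0,[(30,0),(7,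
  0)]⟩) .k 1 (⟨0,[]⟩,⟨0,[]⟩) .k (.r 0 ⟨2,[(13,0),(3,0),(0,0),(24,0)]⟩ ⟨7,[(0,2),(15,0),(7,0),(8,4),
  (2,4),(12,2)]⟩)) (.S ⟨1,0,[0,-1,0,0,0,0,0,1],[1,0,1,0,-1],[1,0,0,-1,0,0,0,1],(⟨0,[(31,0),(7,0)]⟩,
  ⟨0,[(4,0)]⟩),⟨0,[(28,0),(2,0)]⟩,.k,(.r (-1) ⟨0,[(1,0),(45,0)]⟩ ⟨0,[(19,0),(32,0)]⟩),⟨true,0,⟨0,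
  [(47,0)]⟩,⟨0,[(48,0)]⟩⟩,⟨false,1,⟨3,[(17,1),(12,1),(10,0),(8,0)]⟩,⟨0,[]⟩⟩,⟨false,0,⟨0,[]⟩,⟨3,[(17,
  1),(12,1),(10,0),(8,0)]⟩⟩,⟨true,0,⟨0,[(48,0)]⟩,⟨0,[(47,0)]⟩⟩,[.o ⟨false,1,⟨0,[(10,0),(10,0)]⟩,⟨0,
  [(0,0)]⟩⟩,.e ⟨false,1,⟨0,[(1,0),(45,0)]⟩,⟨4,[(3,0),(15,3),(24,1),(3,2)]⟩⟩ ⟨false,1,⟨0,[(1,0)]⟩,⟨0,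
  [(18,0),(25,0)]⟩⟩,.a ⟨true,0,⟨0,[(2,0),(33,0)]⟩,⟨0,[(24,0),(5,0)]⟩⟩ ⟨true,0,⟨0,[(20,0),(3,0)]⟩,⟨4,
  [(3,0),(15,3),(24,1),(3,2)]⟩⟩ ⟨false,1,⟨1,[(1,0),(19,0),(15,0),(12,0)]⟩,⟨2,[(14,0),(3,0),(0,0),
  (24,0)]⟩⟩,.e ⟨false,1,⟨0,[(1,0),(45,0)]⟩,⟨0,[(19,0)]⟩⟩ ⟨false,1,⟨0,[(1,0)]⟩,⟨0,[(18,0),(33,
  0)]⟩⟩]⟩) (.R ⟨1,false,false,false,[1,0,1,0,-1],[1,0,0,0,-1],[1,0,0,-1,0,0,0,1],(⟨0,[(31,0),(7,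
  0)]⟩,⟨0,[(4,0)]⟩),(⟨0,[(31,0)]⟩,⟨0,[(32,0)]⟩),⟨0,[(28,0),(2,0)]⟩,.k,.k,(.r (-1) ⟨0,[(1,0),(45,
  0)]⟩ ⟨0,[(19,0),(32,0)]⟩),.k,.k,.k,⟨false,0,⟨0,[(16,0),(16,0)]⟩,⟨1,[(19,1),(29,0),(0,0)]⟩⟩,⟨true,
  0,⟨0,[(24,0)]⟩,⟨0,[(36,0)]⟩⟩,⟨true,0,⟨0,[(47,0)]⟩,⟨0,[(48,0)]⟩⟩,⟨false,1,⟨2,[(7,0),(9,0),(4,1),
  (22,0),(4,0)]⟩,⟨0,[(21,0)]⟩⟩,⟨false,0,⟨0,[]⟩,⟨3,[(17,1),(12,1),(10,0),(8,0)]⟩⟩,⟨false,1,⟨37,[(5,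
  9),(11,3),(1,27),(5,13),(0,8),(18,2),(2,9),(1,16)]⟩,⟨0,[(20,0)]⟩⟩,[.o ⟨false,1,⟨0,[(10,0)]⟩,⟨0,
  [(7,0),(8,0),(31,0)]⟩⟩,.o ⟨false,1,⟨8,[(0,8),(2,0),(1,2),(1,2),(11,1),(25,3),(4,4)]⟩,⟨3,[(7,2),(8,
  3),(2,0),(10,0),(6,0),(6,1),(3,2)]⟩⟩,.a ⟨true,0,⟨0,[(2,0),(33,0)]⟩,⟨0,[(24,0),(5,0)]⟩⟩ ⟨true,0,⟨0,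
  [(20,0),(3,0)]⟩,⟨4,[(3,0),(15,3),(24,1),(3,2)]⟩⟩ ⟨false,1,⟨0,[(24,0),(25,0)]⟩,⟨3,[(3,0),(30,0),(1,
  2),(7,0),(3,1)]⟩⟩,.e ⟨false,1,⟨0,[(1,0),(45,0)]⟩,⟨0,[(19,0)]⟩⟩ ⟨false,1,⟨4,[(0,4),(0,2),(1,0),(1,
  0),(1,5),(16,1),(20,1),(2,1)]⟩,⟨0,[(36,0),(15,0)]⟩⟩]⟩)) (.Q [0,0,0,2,0,0,-1,-1,0,0,-1] (.p false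
  [0,0,1] [] (⟨0,[(38,0)]⟩,⟨0,[(37,0)]⟩) .k 0 (⟨0,[]⟩,⟨0,[]⟩) .k .k) (.R ⟨1,false,false,true,[1,-1],
  [1,0,-1],[0,1,1,0,0,0,0,-1],(⟨0,[(42,0)]⟩,⟨0,[(43,0)]⟩),(⟨0,[(38,0)]⟩,⟨0,[(39,0)]⟩),⟨1,[(12,0),
  (15,0),(13,0)]⟩,.k,.k,(.r (-1) ⟨3,[(13,2),(3,0),(7,0),(21,1),(2,1)]⟩ ⟨0,[(0,0),(20,0),(14,0),(0,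
  0)]⟩),.k,(.r (-1) ⟨1,[(10,0),(2,0),(6,1),(4,0),(0,0)]⟩ ⟨1,[(0,1),(35,2),(0,0)]⟩),.k,⟨true,0,⟨1,
  [(36,0),(0,0)]⟩,⟨0,[]⟩⟩,⟨false,1,⟨3,[(26,0),(6,1),(11,0),(3,2)]⟩,⟨0,[(36,0)]⟩⟩,⟨false,0,⟨1,[(19,
  1),(16,0),(0,0)]⟩,⟨1,[(0,0),(12,1),(7,2),(2,1),(25,1)]⟩⟩,⟨true,0,⟨1,[(0,0),(34,0),(16,0)]⟩,⟨0,
  [(20,0)]⟩⟩,⟨false,0,⟨1,[(0,1),(35,2),(0,0)]⟩,⟨0,[(13,0),(7,0),(2,0),(25,0)]⟩⟩,⟨false,0,⟨0,[(0,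
  0)]⟩,⟨0,[(20,0),(26,0),(2,0)]⟩⟩,[.o ⟨false,0,⟨0,[(35,0)]⟩,⟨2,[(21,1),(12,0),(10,0),(4,1)]⟩⟩,.a
  ⟨true,0,⟨0,[(22,0)]⟩,⟨0,[(21,0)]⟩⟩ ⟨true,0,⟨0,[(1,0),(48,0)]⟩,⟨0,[(21,0),(2,0)]⟩⟩ ⟨false,1,⟨2,[(0,
  0),(2,0),(1,0),(11,0),(7,1)]⟩,⟨1,[(21,1),(14,0),(0,0)]⟩⟩,.o ⟨false,0,⟨1,[(36,0),(0,0)]⟩,⟨3,[(25,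
  0),(3,0),(15,0),(3,0)]⟩⟩,.o ⟨false,0,⟨0,[(36,0),(0,0)]⟩,⟨17,[(2,9),(10,1),(11,9),(19,5),(2,3),(0,
  0),(0,0)]⟩⟩]⟩) (.Q [0,0,-1,0,0,0,-1,0,1,0,-1,1] (.p true [0,0,-1,0,1] [] (⟨0,[(4,0)]⟩,⟨0,[(31,0),
  (7,0)]⟩) .k 0 (⟨0,[]⟩,⟨0,[]⟩) .k (.r 0 ⟨1,[(1,0),(13,0),(6,0)]⟩ ⟨5,[(21,1),(4,2),(7,3),(10,0),(4,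
  4)]⟩)) (.R ⟨1,false,false,true,[1,0,1,0,-1],[1,0,0,0,-1],[0,-1,0,0,0,0,0,1],(⟨0,[(32,0),(7,0)]⟩,
  ⟨0,[(5,0)]⟩),(⟨0,[(32,0)]⟩,⟨0,[(33,0)]⟩),⟨0,[(29,0),(2,0)]⟩,.k,.k,(.r (-1) ⟨4,[(11,0),(9,4),(4,0),
  (0,0),(6,2),(11,0),(4,1)]⟩ ⟨0,[(20,0),(32,0)]⟩),.k,.k,.k,⟨false,1,⟨4,[(11,0),(10,4),(3,0),(0,0),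
  (6,2),(11,0),(4,1)]⟩,⟨1,[(2,0),(13,0),(6,0)]⟩⟩,⟨true,0,⟨0,[(25,0)]⟩,⟨0,[(37,0)]⟩⟩,⟨false,1,⟨3,
  [(18,1),(12,1),(10,0),(8,0)]⟩,⟨0,[]⟩⟩,⟨true,0,⟨0,[(36,0)]⟩,⟨0,[(22,0)]⟩⟩,⟨true,0,⟨0,[(49,0)]⟩,⟨0,
  [(48,0)]⟩⟩,⟨true,0,⟨0,[(36,0),(12,0)]⟩,⟨0,[(21,0)]⟩⟩,[.a ⟨true,0,⟨0,[(10,0)]⟩,⟨0,[(31,0)]⟩⟩
  ⟨false,1,⟨4,[(11,0),(10,4),(3,0),(0,0),(6,2),(11,0),(4,1)]⟩,⟨1,[(2,0),(13,0),(6,0)]⟩⟩ ⟨true,0,⟨0,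
  [(25,0)]⟩,⟨0,[(37,0)]⟩⟩,.o ⟨false,1,⟨0,[(11,0)]⟩,⟨9,[(0,2),(1,2),(14,0),(13,6),(3,1),(10,2),(2,0),
  (3,0)]⟩⟩,.a ⟨true,0,⟨0,[(3,0),(33,0)]⟩,⟨1,[(0,0),(30,0),(6,0)]⟩⟩ ⟨false,1,⟨0,[(22,0),(2,0),(25,
  0)]⟩,⟨1,[(2,0),(13,0),(6,0)]⟩⟩ ⟨true,0,⟨0,[(25,0)]⟩,⟨2,[(2,0),(0,0),(12,0),(14,0),(3,0),(1,0)]⟩⟩,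
  .a ⟨true,0,⟨0,[(10,0),(26,0)]⟩,⟨0,[(0,0)]⟩⟩ ⟨true,1,⟨4,[(11,0),(10,4),(3,0),(0,0),(6,2),(11,0),(4,
  1)]⟩,⟨0,[(2,0)]⟩⟩ ⟨false,1,⟨4,[(11,0),(14,0),(0,0),(6,2),(11,0),(4,1)]⟩,⟨0,[(37,0)]⟩⟩]⟩) (.Q [0,2,
  0,1,-1,0,0,0,1,0,0,1] (.p true [0,0,0,0,1] [] (⟨0,[(33,0)]⟩,⟨0,[(32,0)]⟩) .k 0 (⟨0,[]⟩,⟨0,[]⟩) .k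
  .k) (.K ⟨0,[0,1,0,0,1],0,(-1),(⟨0,[(34,0),(10,0)]⟩,⟨0,[(10,0),(19,0)]⟩),(.r 0 ⟨3,[(0,0),(20,1),(9,
  0),(4,1),(2,1),(10,0)]⟩ ⟨55,[(2,5),(5,5),(6,18),(3,14),(7,8),(19,1),(4,29)]⟩),.k,(.r 0 ⟨0,[(21,0),
  (14,0),(2,0),(10,0)]⟩ ⟨0,[(15,0),(36,0)]⟩),(.r 0 ⟨0,[(21,0),(32,0)]⟩ ⟨4,[(12,0),(9,4),(4,0),(0,0),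
  (6,2),(11,0),(4,1)]⟩),.k,[⟨0,[(1,0)]⟩,⟨0,[(32,0)]⟩,⟨0,[(12,0),(36,0)]⟩,⟨0,[(0,0)]⟩]⟩) (.S ⟨1,0,[0,
  -1,0,0,0,0,0,1],[1,0,1,0,-1],[1,0,0,-1,0,0,0,1],(⟨0,[(33,0),(7,0)]⟩,⟨0,[(6,0)]⟩),⟨0,[(30,0),(2,
  0)]⟩,.k,(.r (-1) ⟨1,[(0,0),(21,0),(0,0),(3,0),(0,0)]⟩ ⟨0,[(21,0),(32,0)]⟩),⟨true,0,⟨0,[(49,0)]⟩,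
  ⟨0,[(50,0)]⟩⟩,⟨false,1,⟨3,[(19,1),(12,1),(10,0),(8,0)]⟩,⟨0,[]⟩⟩,⟨false,0,⟨0,[]⟩,⟨3,[(19,1),(12,1),
  (10,0),(8,0)]⟩⟩,⟨true,0,⟨0,[(50,0)]⟩,⟨0,[(49,0)]⟩⟩,[.o ⟨false,1,⟨0,[(12,0),(10,0)]⟩,⟨4,[(3,1),(5,
  3),(8,0),(7,1),(0,0),(19,0),(2,0)]⟩⟩,.o ⟨false,1,⟨0,[(0,0),(22,0),(26,0)]⟩,⟨2,[(3,0),(5,1),(22,0),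
  (6,0),(6,1),(0,0)]⟩⟩,.a ⟨true,0,⟨0,[(4,0),(33,0)]⟩,⟨0,[(26,0),(5,0)]⟩⟩ ⟨true,0,⟨0,[(22,0),(3,0)]⟩,
  ⟨3,[(3,0),(0,0),(16,2),(5,0),(18,0),(3,0)]⟩⟩ ⟨false,1,⟨0,[(23,0),(2,0),(25,0)]⟩,⟨1,[(3,0),(13,0),
  (6,0)]⟩⟩,.o ⟨false,0,⟨0,[(1,0)]⟩,⟨0,[(27,0),(11,0)]⟩⟩]⟩))))))))) (.R ⟨1,false,false,true,[1,0,-1],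
  [1,0,0,0,-1],[0,0,1],(⟨0,[(32,0)]⟩,⟨0,[(33,0)]⟩),(⟨0,[(25,0)]⟩,⟨0,[(26,0)]⟩),⟨0,[(21,0)]⟩,.k,.k,
  .k,.k,(.r 0 ⟨0,[(5,0),(36,0),(2,0)]⟩ ⟨0,[(28,0),(2,0),(10,0),(1,0)]⟩),.k,⟨true,0,⟨1,[(30,0),(0,
  0)]⟩,⟨0,[]⟩⟩,⟨false,1,⟨1,[(0,0),(7,0),(0,0),(1,0)]⟩,⟨0,[(18,0),(5,0)]⟩⟩,⟨true,0,⟨0,[(15,0),(15,
  0)]⟩,⟨4,[(5,2),(7,1),(24,0),(3,3)]⟩⟩,⟨false,1,⟨4,[(0,1),(10,2),(2,1),(0,0),(23,0),(4,0)]⟩,⟨0,[(1,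
  0)]⟩⟩,⟨true,0,⟨0,[(0,0),(23,0),(6,0)]⟩,⟨0,[(8,0)]⟩⟩,⟨true,0,⟨0,[(0,0)]⟩,⟨0,[(1,0),(39,0)]⟩⟩,[.a
  ⟨true,0,⟨0,[(3,0)]⟩,⟨0,[(24,0)]⟩⟩ ⟨true,0,⟨1,[(30,0),(0,0)]⟩,⟨0,[]⟩⟩ ⟨false,1,⟨1,[(0,0),(7,0),(0,
  0),(1,0)]⟩,⟨0,[(18,0),(5,0)]⟩⟩,.o ⟨false,1,⟨0,[(4,0)]⟩,⟨0,[(1,0),(8,0),(31,0)]⟩⟩,.o ⟨false,0,⟨0,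
  [(18,0)]⟩,⟨3,[(9,1),(13,0),(0,0),(5,1),(4,0)]⟩⟩,.o ⟨false,0,⟨0,[(31,0)]⟩,⟨0,[(9,0)]⟩⟩]⟩)))) (.R
  ⟨1,false,false,false,[0,0,1],[0,0,0,0,1],[0,1,0,0,0,0,0,1],(⟨0,[(30,0)]⟩,⟨0,[(29,0)]⟩),(⟨0,[(23,
  0)]⟩,⟨0,[(22,0)]⟩),⟨0,[(19,0)]⟩,.k,.k,.k,.k,(.r (-1) ⟨3,[(11,3),(5,0),(6,1),(11,0),(3,0),(0,1)]⟩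
  ⟨0,[(10,0),(32,0)]⟩),.k,⟨true,0,⟨0,[(12,0),(2,0)]⟩,⟨0,[(9,0)]⟩⟩,⟨false,0,⟨0,[(0,0),(23,0)]⟩,⟨3,
  [(1,3),(0,0),(22,0),(1,2),(7,0),(3,1)]⟩⟩,⟨true,0,⟨0,[(43,0)]⟩,⟨0,[]⟩⟩,⟨false,0,⟨0,[(0,0),(12,0)]⟩,
  ⟨0,[(1,0),(10,0)]⟩⟩,⟨false,0,⟨0,[(39,0)]⟩,⟨0,[(38,0),(2,0)]⟩⟩,⟨false,0,⟨0,[(0,0),(12,0),(25,0)]⟩,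
  ⟨0,[(1,0),(9,0)]⟩⟩,[.o ⟨false,0,⟨0,[(0,0),(42,0)]⟩,⟨0,[(1,0)]⟩⟩,.o ⟨false,0,⟨0,[(0,0)]⟩,⟨0,[(20,
  0)]⟩⟩,.o ⟨false,1,⟨3,[(6,1),(13,0),(0,0),(5,1),(4,0)]⟩,⟨0,[(15,0)]⟩⟩,.a ⟨true,0,⟨0,[(27,0)]⟩,⟨0,
  [(24,0)]⟩⟩ ⟨true,0,⟨0,[(7,0),(16,0),(14,0)]⟩,⟨0,[(9,0)]⟩⟩ ⟨false,0,⟨0,[(0,0),(23,0)]⟩,⟨0,[(1,0),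
  (25,0)]⟩⟩]⟩))

theorem ok19 : chk K t19 l20 = true := by decide +kernel

noncomputable def t20 : Tre :=
  (.Q [0,0,0,0,0,0,0,0,0,0,-1,1] (.ed false [1,0,-1,0,1] (.r 0 ⟨2,[(4,0),(3,0),(0,0),(24,0)]⟩ ⟨5,
  [(11,1),(4,2),(7,3),(10,0),(4,4)]⟩)) (.Q [0,0,0,0,0,1,0,0,0,-1,0,1] (.ed false [0,1,0,0,1] .k)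
  (.Q [0,1,0,1,-1,0,-1,-1,1,0,-1,1] (.p true [0,0,-1,0,1] [] (⟨0,[(1,0)]⟩,⟨0,[(23,0),(7,0)]⟩) .k 0
  (⟨0,[]⟩,⟨0,[]⟩) .k (.r 0 ⟨2,[(6,0),(3,0),(0,0),(24,0)]⟩ ⟨5,[(13,1),(4,2),(7,3),(10,0),(4,4)]⟩))
  (.Q [0,0,-1,0,0,0,0,0,1,-1,0,1] (.p true [0,0,0,0,1] [1] (⟨0,[(25,0)]⟩,⟨0,[(24,0)]⟩) .k 1 (⟨0,[]⟩,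
  ⟨0,[]⟩) .k .k) (.R ⟨0,false,false,false,[1,0,0,0,-1],[1,1,-1],[0,0,1],(⟨0,[(25,0)]⟩,⟨0,[(26,0)]⟩),
  (⟨0,[(32,0),(4,0)]⟩,⟨0,[(22,0)]⟩),⟨0,[(2,0)]⟩,.k,.k,(.r (-1) ⟨7,[(7,2),(3,0),(7,0),(21,1),(2,5)]⟩
  ⟨4,[(13,2),(14,2),(2,2),(6,0),(3,1)]⟩),(.r (-1) ⟨3,[(14,3),(5,0),(6,1),(11,0),(3,0),(0,1)]⟩ ⟨0,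
  [(13,0),(32,0)]⟩),.k,.k,⟨true,0,⟨0,[(14,0),(3,0)]⟩,⟨0,[(13,0)]⟩⟩,⟨false,0,⟨0,[(0,0),(26,0)]⟩,⟨0,
  [(23,0),(6,0)]⟩⟩,⟨false,0,⟨1,[(30,0),(0,0)]⟩,⟨1,[(43,0),(0,0)]⟩⟩,⟨true,(-1),⟨0,[(1,0)]⟩,⟨0,[(10,
  0),(0,0)]⟩⟩,⟨false,0,⟨0,[]⟩,⟨0,[]⟩⟩,⟨false,0,⟨0,[]⟩,⟨0,[]⟩⟩,[.a ⟨true,0,⟨0,[(1,0),(9,0)]⟩,⟨0,[(14,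
  0)]⟩⟩ ⟨true,0,⟨1,[(30,0),(0,0)]⟩,⟨0,[]⟩⟩ ⟨false,0,⟨1,[(1,1),(41,0),(0,0)]⟩,⟨0,[(10,0),(0,0)]⟩⟩,.o
  ⟨false,1,⟨6,[(1,4),(9,5),(1,1),(5,0),(0,0),(18,1),(4,2)]⟩,⟨0,[(10,0)]⟩⟩,.o ⟨false,1,⟨0,[(23,0)]⟩,
  ⟨2,[(4,1),(19,0),(14,0),(4,0)]⟩⟩,.o ⟨false,1,⟨1,[(23,1),(6,0),(0,0)]⟩,⟨0,[(0,0)]⟩⟩]⟩) (.K ⟨0,[1,0,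
  0,0,-1],0,1,(⟨0,[(25,0)]⟩,⟨0,[(26,0)]⟩),.k,(.r (-1) ⟨7,[(7,2),(3,0),(7,0),(21,1),(2,5)]⟩ ⟨4,[(13,
  2),(14,2),(2,2),(6,0),(3,1)]⟩),(.r (-1) ⟨7,[(11,1),(1,3),(10,1),(3,3),(2,3),(3,0),(6,3),(1,4)]⟩
  ⟨0,[(40,0)]⟩),.k,.k,[⟨2,[(1,1),(2,0),(0,0),(9,2),(14,1),(8,0),(4,1)]⟩,⟨0,[(0,0)]⟩,⟨0,[(1,0),(8,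
  0)]⟩,⟨0,[(11,0),(34,0)]⟩]⟩)) (.I [0,0,-1,-1,0,0,0,2] (.Q [0,0,-1,0,0,0,-1,0,1,-1,-1,1] (.p true
  [0,0,-1,0,1] [1] (⟨0,[(3,0)]⟩,⟨0,[(25,0),(7,0)]⟩) .k 1 (⟨0,[]⟩,⟨0,[]⟩) .k (.r 0 ⟨2,[(8,0),(3,0),
  (0,0),(24,0)]⟩ ⟨6,[(0,0),(19,1),(7,4),(2,0),(3,0),(6,0),(1,5)]⟩)) (.R ⟨1,false,false,false,[1,0,1,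
  0,-1],[1,1,-1],[0,0,0,0,0,0,0,1],(⟨0,[(26,0),(7,0)]⟩,⟨0,[(4,0)]⟩),(⟨0,[(33,0),(4,0)]⟩,⟨0,[(23,
  0)]⟩),⟨0,[(23,0),(2,0)]⟩,.k,.k,(.r (-1) ⟨13,[(1,3),(0,5),(5,1),(11,2),(0,2),(3,2),(19,4)]⟩ ⟨0,
  [(14,0),(32,0)]⟩),(.r (-1) ⟨12,[(1,10),(0,1),(9,2),(7,2),(4,1),(3,1),(2,3),(12,4)]⟩ ⟨2,[(9,0),(3,
  0),(0,3),(24,0)]⟩),(.r (-1) ⟨6,[(1,5),(0,1),(5,2),(11,0),(0,0),(3,0),(19,3)]⟩ ⟨0,[(14,1),(32,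
  0)]⟩),.k,⟨true,0,⟨0,[(1,0)]⟩,⟨0,[(13,0),(0,0)]⟩⟩,⟨false,0,⟨0,[(0,0),(27,0)]⟩,⟨4,[(2,4),(3,0),(7,
  3),(16,4),(7,1),(3,2)]⟩⟩,⟨true,0,⟨0,[(47,0)]⟩,⟨0,[]⟩⟩,⟨false,0,⟨0,[(0,0),(13,0),(2,0)]⟩,⟨0,[(2,0),
  (13,0)]⟩⟩,⟨false,0,⟨0,[(43,0)]⟩,⟨0,[(42,0),(2,0)]⟩⟩,⟨false,0,⟨0,[(0,0),(13,0),(2,0),(25,0)]⟩,⟨0,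
  [(2,0),(12,0)]⟩⟩,[.a ⟨true,0,⟨0,[(17,0),(25,0)]⟩,⟨0,[(15,0)]⟩⟩ ⟨true,0,⟨2,[(1,0),(14,0),(15,0),
  (10,0)]⟩,⟨0,[(13,0)]⟩⟩ ⟨false,0,⟨0,[(0,0),(16,0),(25,0)]⟩,⟨3,[(2,3),(3,0),(22,0),(1,2),(7,0),(3,
  1)]⟩⟩,.o ⟨false,1,⟨3,[(14,1),(2,1),(3,0),(18,0),(2,1),(0,0),(0,1)]⟩,⟨0,[(11,0)]⟩⟩,.o ⟨false,1,⟨4,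
  [(2,4),(3,0),(7,3),(24,1),(3,2)]⟩,⟨5,[(0,2),(4,1),(19,0),(6,2),(7,0),(4,0)]⟩⟩,.o ⟨false,1,⟨0,[(24,
  0),(6,0)]⟩,⟨0,[(0,0)]⟩⟩]⟩) (.K ⟨0,[1,0,1,0,-1],0,1,(⟨0,[(26,0),(7,0)]⟩,⟨0,[(4,0)]⟩),.k,(.r (-1)
  ⟨13,[(1,3),(0,5),(5,1),(11,2),(0,2),(3,2),(19,4)]⟩ ⟨0,[(14,0),(32,0)]⟩),(.r (-1) ⟨0,[(29,0),(2,0),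
  (10,0),(1,0)]⟩ ⟨0,[(0,5),(0,0),(3,5),(0,2),(12,5),(20,1),(2,5),(1,3)]⟩),.k,.k,[⟨2,[(5,1),(19,0),
  (14,0),(4,0)]⟩,⟨0,[(0,0)]⟩,⟨1,[(0,0),(4,2),(0,0),(7,0),(4,2),(20,0),(2,0)]⟩,⟨0,[(12,0),(16,
  0)]⟩]⟩)) (.I [0,0,1,1,0,0,0,-2] (.R ⟨1,false,false,false,[0,0,1],[0,0,-1,0,1],[1,1,0,-1,0,0,0,1],
  (⟨0,[(34,0)]⟩,⟨0,[(33,0)]⟩),(⟨0,[(4,0)]⟩,⟨0,[(26,0),(7,0)]⟩),⟨0,[(23,0)]⟩,.k,.k,.k,.k,(.r (-1) ⟨1,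
  [(15,1),(0,1),(4,0),(6,1),(11,0),(4,0)]⟩ ⟨0,[(0,0),(46,0)]⟩),.k,⟨true,0,⟨0,[(15,0),(0,0),(2,1)]⟩,
  ⟨0,[(0,0)]⟩⟩,⟨false,0,⟨1,[(5,1),(15,0),(6,1),(11,0),(4,0)]⟩,⟨7,[(0,6),(1,7),(3,1),(9,7),(22,2),(3,
  4)]⟩⟩,⟨true,0,⟨0,[(42,0)]⟩,⟨0,[(43,0)]⟩⟩,⟨false,0,⟨6,[(0,1),(4,6),(0,0),(10,8),(1,4),(20,2),(4,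
  3)]⟩,⟨0,[(2,0),(13,0),(26,0)]⟩⟩,⟨false,0,⟨0,[]⟩,⟨3,[(12,1),(12,1),(10,0),(8,0)]⟩⟩,⟨false,0,⟨1,[(0,
  1),(4,1),(15,0),(6,1),(11,0),(4,0)]⟩,⟨0,[(2,0),(13,0)]⟩⟩,[.o ⟨false,0,⟨14,[(0,3),(4,7),(0,1),(13,
  3),(0,0),(3,2),(4,4),(1,7),(7,3)]⟩,⟨0,[(2,0),(40,0)]⟩⟩,.o ⟨false,0,⟨6,[(0,1),(4,6),(0,0),(10,1),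
  (1,4),(20,2),(4,3)]⟩,⟨1,[(2,0),(21,0),(4,0),(13,0)]⟩⟩,.o ⟨false,1,⟨3,[(10,1),(13,0),(0,0),(5,1),
  (4,0)]⟩,⟨0,[(19,0)]⟩⟩,.a ⟨true,0,⟨0,[(31,0)]⟩,⟨0,[(28,0)]⟩⟩ ⟨true,0,⟨0,[(11,0),(16,0)]⟩,⟨0,[(14,
  0)]⟩⟩ ⟨false,0,⟨6,[(0,1),(4,6),(0,0),(10,1),(1,4),(8,6),(11,2),(4,3)]⟩,⟨0,[(2,0),(28,0),(11,
  0)]⟩⟩]⟩) (.Q [0,0,-1,0,0,0,1,0,1,-1,1,1] (.p true [-1,0,1,0,1] [] (⟨0,[(3,0),(19,0)]⟩,⟨0,[(26,0),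
  (6,0)]⟩) .k 0 (⟨0,[]⟩,⟨0,[]⟩) .k (.r 0 ⟨3,[(0,0),(28,1),(2,1),(6,0),(3,0)]⟩ ⟨12,[(1,1),(4,0),(5,
  3),(0,7),(6,3),(24,4)]⟩)) (.R ⟨0,false,false,true,[1,0,0,0,-1],[1,0,-1],[1,1],(⟨0,[(27,0)]⟩,⟨0,
  [(28,0)]⟩),(⟨0,[(34,0)]⟩,⟨0,[(35,0)]⟩),⟨0,[(4,0)]⟩,.k,.k,(.r (-1) ⟨7,[(9,2),(3,0),(7,0),(21,1),(2,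
  5)]⟩ ⟨4,[(15,2),(14,2),(2,2),(6,0),(3,1)]⟩),.k,.k,.k,⟨true,0,⟨2,[(1,0),(15,0),(15,0),(10,0)]⟩,⟨0,
  [(2,0),(0,0),(2,0),(13,0)]⟩⟩,⟨false,0,⟨0,[(0,0),(21,0)]⟩,⟨1,[(2,0),(0,1),(36,0),(3,0)]⟩⟩,⟨false,0,
  ⟨0,[(48,0)]⟩,⟨0,[(46,0)]⟩⟩,⟨true,(-1),⟨0,[(6,0),(24,0)]⟩,⟨0,[(3,0),(40,0)]⟩⟩,⟨false,0,⟨0,[]⟩,⟨0,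
  []⟩⟩,⟨false,0,⟨0,[]⟩,⟨0,[]⟩⟩,[.o ⟨false,0,⟨0,[(31,0)]⟩,⟨2,[(17,1),(12,0),(10,0),(4,1)]⟩⟩,.a ⟨true,
  0,⟨0,[(18,0)]⟩,⟨0,[(17,0)]⟩⟩ ⟨true,0,⟨0,[]⟩,⟨1,[(32,0),(0,0)]⟩⟩ ⟨false,0,⟨0,[(0,0),(17,0),(1,0)]⟩,
  ⟨1,[(3,0),(21,0),(4,0),(13,0)]⟩⟩,.o ⟨false,1,⟨0,[(25,0)]⟩,⟨2,[(6,1),(19,0),(14,0),(4,0)]⟩⟩,.o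
  ⟨false,1,⟨1,[(25,1),(6,0),(0,0)]⟩,⟨0,[(0,0),(19,0)]⟩⟩]⟩) (.Q [0,-1,-1,0,1,0,1,1,0,-1,1] (.p true
  [0,0,1] [1] (⟨0,[(35,0)]⟩,⟨0,[(34,0)]⟩) .k 1 (⟨0,[]⟩,⟨0,[]⟩) .k .k) (.Q [0,0,0,0,0,0,0,0,-1,2,0,
  -1] (.p false [-1,1,0,0,1] [1] (⟨0,[(5,0)]⟩,⟨0,[(28,0),(10,0)]⟩) (.r 0 ⟨4,[(16,2),(14,2),(2,2),(6,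
  0),(3,1)]⟩ ⟨7,[(10,2),(3,0),(7,0),(21,1),(2,5)]⟩) 1 (⟨0,[]⟩,⟨0,[]⟩) .k .k) (.R ⟨0,false,false,
  false,[-1,1,0,0,1],[0,0,-1,0,1],[1,1],(⟨0,[(6,0)]⟩,⟨0,[(29,0),(10,0)]⟩),(⟨0,[(7,0)]⟩,⟨0,[(29,0),
  (7,0)]⟩),⟨0,[(29,0)]⟩,(.r 0 ⟨4,[(17,2),(14,2),(2,2),(6,0),(3,1)]⟩ ⟨7,[(11,2),(3,0),(7,0),(21,1),
  (2,5)]⟩),.k,.k,.k,.k,.k,⟨true,0,⟨2,[(3,0),(15,0),(15,0),(10,0)]⟩,⟨3,[(2,2),(1,2),(0,2),(2,5),(0,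
  0),(33,0),(2,1),(1,1)]⟩⟩,⟨false,0,⟨3,[(0,0),(23,1),(3,0)]⟩,⟨0,[(13,0)]⟩⟩,⟨false,1,⟨7,[(11,2),(3,
  0),(7,0),(21,1),(2,5)]⟩,⟨1,[(34,0),(0,0),(10,1)]⟩⟩,⟨true,0,⟨4,[(2,1),(5,1),(0,1),(6,0),(1,0),(1,
  2),(14,0),(12,1)]⟩,⟨0,[(14,0),(31,1)]⟩⟩,⟨false,0,⟨0,[]⟩,⟨0,[]⟩⟩,⟨false,0,⟨0,[]⟩,⟨0,[]⟩⟩,[.o
  ⟨false,0,⟨2,[(8,1),(19,0),(4,2),(9,0),(4,0)]⟩,⟨0,[(5,0),(40,0)]⟩⟩,.o ⟨false,0,⟨6,[(4,1),(3,6),(0,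
  0),(10,1),(1,4),(20,2),(4,3)]⟩,⟨1,[(5,0),(21,0),(4,0),(13,0)]⟩⟩,.e ⟨false,0,⟨0,[]⟩,⟨3,[(15,1),(12,
  1),(10,0),(8,0)]⟩⟩ ⟨false,0,⟨3,[(0,0),(15,1),(3,1),(7,0),(6,1)]⟩,⟨0,[(1,0)]⟩⟩,.a ⟨true,0,⟨2,[(8,
  1),(19,0),(14,0),(4,0)]⟩,⟨0,[(0,0)]⟩⟩ ⟨true,0,⟨2,[(11,0),(30,0),(3,1)]⟩,⟨1,[(34,0),(0,0)]⟩⟩
  ⟨false,0,⟨0,[(20,0)]⟩,⟨1,[(1,1),(32,0),(0,0)]⟩⟩]⟩) (.R ⟨0,false,false,false,[-1,1,0,0,1],[0,0,-1,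
  0,1],[0,1],(⟨0,[(6,0)]⟩,⟨0,[(29,0),(10,0)]⟩),(⟨0,[(7,0)]⟩,⟨0,[(29,0),(7,0)]⟩),⟨0,[(29,0)]⟩,(.r 0
  ⟨4,[(17,2),(14,2),(2,2),(6,0),(3,1)]⟩ ⟨7,[(11,2),(3,0),(7,0),(21,1),(2,5)]⟩),.k,.k,.k,.k,.k,⟨true,
  0,⟨2,[(3,0),(15,0),(15,0),(10,0)]⟩,⟨0,[(16,0)]⟩⟩,⟨false,0,⟨1,[(8,0),(6,0),(8,0)]⟩,⟨0,[(13,0)]⟩⟩,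
  ⟨false,1,⟨7,[(11,2),(3,0),(7,0),(21,1),(2,5)]⟩,⟨1,[(34,0),(0,0),(10,1)]⟩⟩,⟨true,0,⟨4,[(2,1),(5,1),
  (0,1),(6,0),(1,0),(1,2),(14,0),(12,1)]⟩,⟨0,[(14,0),(31,1)]⟩⟩,⟨false,0,⟨0,[]⟩,⟨0,[]⟩⟩,⟨false,0,⟨0,
  []⟩,⟨0,[]⟩⟩,[.o ⟨false,0,⟨1,[(0,0),(27,0),(4,1)]⟩,⟨0,[(5,0),(40,0)]⟩⟩,.o ⟨false,0,⟨0,[(0,0),(19,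
  0)]⟩,⟨1,[(5,0),(21,0),(4,0),(13,0)]⟩⟩,.a ⟨true,0,⟨3,[(0,1),(0,0),(6,1),(0,0),(21,0),(14,1),(1,
  0)]⟩,⟨0,[(2,0),(1,0),(13,0),(0,0),(11,0)]⟩⟩ ⟨true,0,⟨0,[(50,0)]⟩,⟨0,[]⟩⟩ ⟨false,0,⟨1,[(20,1),(13,
  0),(0,0)]⟩,⟨0,[(1,0)]⟩⟩,.o ⟨false,0,⟨0,[(0,0)]⟩,⟨0,[(15,0),(34,0)]⟩⟩]⟩)) (.R ⟨0,false,false,false,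
  [-1,1,0,0,1],[0,0,-1,0,1],[1,1],(⟨0,[(5,0)]⟩,⟨0,[(28,0),(10,0)]⟩),(⟨0,[(6,0)]⟩,⟨0,[(28,0),(7,
  0)]⟩),⟨0,[(28,0)]⟩,(.r 0 ⟨4,[(16,2),(14,2),(2,2),(6,0),(3,1)]⟩ ⟨7,[(10,2),(3,0),(7,0),(21,1),(2,
  5)]⟩),.k,.k,.k,.k,.k,⟨true,0,⟨2,[(2,0),(15,0),(15,0),(10,0)]⟩,⟨0,[(0,2),(3,2),(2,2),(0,0),(33,0),
  (2,4),(1,1)]⟩⟩,⟨false,0,⟨4,[(0,0),(13,0),(3,0),(4,1),(3,0),(2,0)]⟩,⟨0,[(12,0)]⟩⟩,⟨false,1,⟨7,[(10,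
  2),(3,0),(7,0),(21,1),(2,5)]⟩,⟨1,[(33,0),(0,0),(10,1)]⟩⟩,⟨true,0,⟨2,[(0,0),(7,0),(8,0),(1,1),(14,
  0),(12,0)]⟩,⟨0,[(13,0),(31,1)]⟩⟩,⟨false,0,⟨0,[]⟩,⟨0,[]⟩⟩,⟨false,0,⟨0,[]⟩,⟨0,[]⟩⟩,[.o ⟨false,0,⟨2,
  [(7,1),(19,0),(4,2),(9,0),(4,0)]⟩,⟨0,[(4,0),(40,0)]⟩⟩,.o ⟨false,0,⟨6,[(3,1),(3,6),(0,0),(10,1),(1,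
  4),(20,2),(4,3)]⟩,⟨1,[(4,0),(21,0),(4,0),(13,0)]⟩⟩,.o ⟨false,1,⟨14,[(7,1),(14,8),(4,3),(14,6),(4,
  0),(0,2)]⟩,⟨0,[(0,0),(3,0),(40,0)]⟩⟩,.a ⟨true,0,⟨2,[(7,1),(19,0),(14,0),(4,0)]⟩,⟨1,[(0,2),(3,1),
  (3,0),(9,1),(11,0),(14,3),(1,0)]⟩⟩ ⟨true,0,⟨2,[(10,0),(30,0),(3,1)]⟩,⟨1,[(33,0),(0,0)]⟩⟩ ⟨false,0,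
  ⟨0,[(19,0)]⟩,⟨2,[(18,1),(12,0),(10,0),(4,1)]⟩⟩]⟩)))))) (.Q [0,0,1,0,-1,0,0,0,1,0,0,1] (.p true [0,
  0,0,0,1] [] (⟨0,[(24,0)]⟩,⟨0,[(23,0)]⟩) .k 0 (⟨0,[]⟩,⟨0,[]⟩) .k .k) (.S ⟨1,0,[0,1],[0,0,0,0,1],[0,
  2],(⟨0,[(25,0)]⟩,⟨0,[(24,0)]⟩),⟨0,[(2,0),(18,0)]⟩,.k,(.r 0 ⟨0,[(39,0)]⟩ ⟨7,[(10,1),(1,3),(10,1),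
  (3,3),(2,3),(3,0),(6,3),(1,4)]⟩),⟨true,0,⟨0,[(45,0)]⟩,⟨0,[]⟩⟩,⟨false,1,⟨3,[(10,1),(12,1),(10,0),
  (8,0)]⟩,⟨0,[]⟩⟩,⟨false,0,⟨0,[(41,0)]⟩,⟨0,[(40,0),(2,0)]⟩⟩,⟨true,0,⟨0,[(41,0)]⟩,⟨0,[(40,0)]⟩⟩,[.e
  ⟨false,0,⟨0,[(37,0)]⟩,⟨0,[(43,0)]⟩⟩ ⟨false,0,⟨2,[(6,0),(30,0),(3,1)]⟩,⟨3,[(10,1),(12,1),(10,0),(8,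
  0)]⟩⟩,.o ⟨false,0,⟨8,[(0,4),(17,2),(4,0),(14,1),(5,0)]⟩,⟨0,[(22,0)]⟩⟩,.o ⟨false,0,⟨8,[(0,4),(17,
  2),(4,0),(14,1),(5,0)]⟩,⟨0,[(22,0)]⟩⟩,.a ⟨true,(-1),⟨0,[(0,0)]⟩,⟨2,[(6,0),(3,2),(26,0),(3,1)]⟩⟩
  ⟨false,0,⟨2,[(6,0),(30,0),(3,1)]⟩,⟨1,[(29,0),(0,0),(12,1)]⟩⟩ ⟨true,0,⟨2,[(6,0),(30,0),(3,1)]⟩,⟨1,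
  [(29,0),(0,0)]⟩⟩]⟩) (.Q [0,1,0,0,-1,0,-1,-1,1,0,-1,1] (.p true [0,0,-1,0,1] [] (⟨0,[(2,0)]⟩,⟨0,
  [(24,0),(7,0)]⟩) .k 0 (⟨0,[]⟩,⟨0,[]⟩) .k (.r 0 ⟨2,[(7,0),(3,0),(0,0),(24,0)]⟩ ⟨5,[(14,1),(4,2),(7,
  3),(10,0),(4,4)]⟩)) (.Q [0,0,-1,0,0,0,-1,0,1,-1,-1,1] (.p true [0,0,-1,0,1] [1] (⟨0,[(3,0)]⟩,⟨0,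
  [(25,0),(7,0)]⟩) .k 1 (⟨0,[]⟩,⟨0,[]⟩) .k (.r 0 ⟨2,[(8,0),(3,0),(0,0),(24,0)]⟩ ⟨5,[(15,1),(4,2),(7,
  3),(10,0),(4,4)]⟩)) (.R ⟨1,false,false,false,[1,0,1,0,-1],[1,0,0,0,-1],[0,0,0,0,0,0,0,1],(⟨0,[(26,
  0),(7,0)]⟩,⟨0,[(4,0)]⟩),(⟨0,[(26,0)]⟩,⟨0,[(27,0)]⟩),⟨0,[(23,0),(2,0)]⟩,.k,.k,(.r (-1) ⟨9,[(0,2),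
  (1,3),(12,9),(4,0),(0,2),(6,0),(16,4)]⟩ ⟨0,[(14,0),(32,0)]⟩),.k,.k,.k,⟨false,0,⟨0,[(11,0),(16,0),
  (14,0)]⟩,⟨1,[(10,0),(2,0),(3,0),(27,0)]⟩⟩,⟨true,0,⟨0,[(19,0)]⟩,⟨0,[(31,0)]⟩⟩,⟨true,0,⟨0,[(47,0)]⟩,
  ⟨0,[]⟩⟩,⟨false,1,⟨1,[(17,1),(18,0),(8,0)]⟩,⟨0,[(16,0)]⟩⟩,⟨false,0,⟨0,[(43,0)]⟩,⟨0,[(42,0),(2,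
  0)]⟩⟩,⟨false,1,⟨9,[(0,2),(1,3),(11,8),(2,0),(2,0),(0,2),(21,0),(1,4)]⟩,⟨0,[(15,0)]⟩⟩,[.a ⟨true,1,
  ⟨0,[(12,0)]⟩,⟨0,[(5,0)]⟩⟩ ⟨true,0,⟨0,[(16,0),(2,0)]⟩,⟨0,[(13,0)]⟩⟩ ⟨false,1,⟨9,[(0,2),(1,3),(17,
  0),(0,2),(6,0),(16,4)]⟩,⟨4,[(6,0),(9,0),(14,3),(7,1),(3,1)]⟩⟩,.o ⟨false,2,⟨1,[(12,1),(23,0),(8,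
  0)]⟩,⟨0,[(1,0),(9,0),(31,0)]⟩⟩,.o ⟨false,1,⟨0,[(2,0),(28,0)]⟩,⟨5,[(0,2),(4,1),(19,0),(6,2),(7,0),
  (4,0)]⟩⟩,.o ⟨false,1,⟨0,[(24,0),(6,0)]⟩,⟨0,[(0,0)]⟩⟩]⟩) (.K ⟨0,[1,0,1,0,-1],0,1,(⟨0,[(26,0),(7,
  0)]⟩,⟨0,[(4,0)]⟩),.k,(.r (-1) ⟨13,[(2,1),(12,13),(4,1),(0,2),(6,7),(11,2),(4,6)]⟩ ⟨0,[(14,0),(32,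
  0)]⟩),(.r (-1) ⟨0,[(29,0),(2,0),(10,0),(1,0)]⟩ ⟨0,[(0,2),(0,2),(4,1),(8,3),(3,3),(20,0),(2,6),(1,
  1)]⟩),.k,.k,[⟨2,[(5,1),(19,0),(14,0),(4,0)]⟩,⟨0,[(0,0)]⟩,⟨8,[(0,2),(0,11),(6,0),(2,2),(7,2),(19,
  0),(0,2),(2,4)]⟩,⟨0,[(12,0),(16,0)]⟩]⟩)) (.Q [0,-2,-1,0,1,0,-1,0,0,0,-1] (.p false [0,0,1] [] (⟨0,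
  [(33,0)]⟩,⟨0,[(32,0)]⟩) .k 0 (⟨0,[]⟩,⟨0,[]⟩) .k .k) (.R ⟨1,false,false,false,[1,0,1,0,-1],[1,0,0,
  0,-1],[0,0,0,0,0,0,0,1],(⟨0,[(26,0),(7,0)]⟩,⟨0,[(4,0)]⟩),(⟨0,[(26,0)]⟩,⟨0,[(27,0)]⟩),⟨0,[(23,0),
  (2,0)]⟩,.k,.k,(.r (-1) ⟨0,[(0,0),(17,0)]⟩ ⟨0,[(14,0),(32,0)]⟩),.k,.k,.k,⟨false,0,⟨0,[(11,0),(16,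
  0),(14,0)]⟩,⟨1,[(10,0),(2,0),(3,0),(27,0)]⟩⟩,⟨true,0,⟨0,[(19,0)]⟩,⟨0,[(31,0)]⟩⟩,⟨true,0,⟨0,[(47,
  0)]⟩,⟨0,[]⟩⟩,⟨false,1,⟨1,[(17,1),(18,0),(8,0)]⟩,⟨0,[(16,0)]⟩⟩,⟨false,0,⟨0,[(43,0)]⟩,⟨0,[(42,0),(2,
  0)]⟩⟩,⟨false,1,⟨26,[(0,10),(1,1),(9,4),(1,26),(5,6),(0,7),(18,1)]⟩,⟨0,[(15,0)]⟩⟩,[.a ⟨true,1,⟨0,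
  [(12,0)]⟩,⟨0,[(5,0)]⟩⟩ ⟨true,0,⟨0,[(16,0),(2,0)]⟩,⟨0,[(13,0)]⟩⟩ ⟨false,1,⟨20,[(0,8),(1,1),(9,2),
  (7,4),(0,5),(14,1)]⟩,⟨4,[(6,0),(9,0),(14,3),(7,1),(3,1)]⟩⟩,.e ⟨false,1,⟨2,[(0,0),(0,0),(14,1),(3,
  0),(0,0)]⟩,⟨2,[(9,0),(3,0),(0,0),(24,0)]⟩⟩ ⟨false,1,⟨0,[(0,0)]⟩,⟨0,[(31,0),(7,0)]⟩⟩,.o ⟨false,1,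
  ⟨0,[(2,0),(28,0)]⟩,⟨6,[(0,2),(4,5),(14,0),(11,3),(7,1),(5,0)]⟩⟩,.o ⟨false,1,⟨0,[(24,0),(6,0)]⟩,⟨9,
  [(0,5),(4,9),(2,0),(10,1),(8,1),(11,3),(2,1),(3,0)]⟩⟩]⟩) (.Q [0,0,-1,0,0,0,0,0,1,-1,0,1] (.p true
  [0,0,0,0,1] [1] (⟨0,[(27,0)]⟩,⟨0,[(26,0)]⟩) .k 1 (⟨0,[]⟩,⟨0,[]⟩) .k .k) (.S ⟨1,0,[],[1,0,0,0,-1],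
  [0,-1],(⟨0,[(27,0)]⟩,⟨0,[(28,0)]⟩),⟨0,[(4,0)]⟩,.k,(.r (-1) ⟨7,[(9,2),(3,0),(7,0),(21,1),(2,5)]⟩
  ⟨4,[(15,2),(14,2),(2,2),(6,0),(3,1)]⟩),⟨false,1,⟨3,[(13,1),(12,1),(10,0),(8,0)]⟩,⟨0,[]⟩⟩,⟨true,0,
  ⟨0,[(48,0)]⟩,⟨0,[]⟩⟩,⟨true,0,⟨0,[(44,0)]⟩,⟨0,[(43,0)]⟩⟩,⟨false,0,⟨0,[(44,0)]⟩,⟨0,[(43,0),(2,0)]⟩⟩,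
  [.o ⟨false,1,⟨0,[(25,0)]⟩,⟨2,[(6,1),(19,0),(14,0),(4,0)]⟩⟩,.a ⟨true,1,⟨0,[(13,0)]⟩,⟨0,[(6,0)]⟩⟩
  ⟨true,1,⟨0,[(46,0)]⟩,⟨0,[(1,0),(18,0)]⟩⟩ ⟨false,1,⟨1,[(45,0),(0,0)]⟩,⟨0,[(48,0)]⟩⟩,.o ⟨false,1,⟨0,
  [(25,0)]⟩,⟨2,[(6,1),(19,0),(14,0),(4,0)]⟩⟩,.o ⟨false,1,⟨1,[(25,1),(6,0),(0,0)]⟩,⟨0,[(0,0)]⟩⟩]⟩)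
  (.K ⟨0,[1,0,0,0,-1],0,1,(⟨0,[(27,0)]⟩,⟨0,[(28,0)]⟩),.k,(.r (-1) ⟨7,[(9,2),(3,0),(7,0),(21,1),(2,
  5)]⟩ ⟨4,[(15,2),(14,2),(2,2),(6,0),(3,1)]⟩),(.r (-1) ⟨7,[(2,3),(10,1),(1,3),(10,5),(6,3),(3,0),(6,
  3),(1,0)]⟩ ⟨0,[(42,0)]⟩),.k,.k,[⟨2,[(6,2),(0,0),(9,0),(14,1),(8,0),(2,1),(1,1)]⟩,⟨0,[(0,0)]⟩,⟨8,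
  [(1,2),(4,8),(2,0),(10,2),(19,0),(0,2),(2,1)]⟩,⟨0,[(13,0),(34,0)]⟩]⟩)))))) (.I [1,2,1,0,-1] (.Q
  [0,0,-1,0,0,0,0,0,1,-1,0,1] (.p true [0,0,0,0,1] [1] (⟨0,[(24,0)]⟩,⟨0,[(23,0)]⟩) .k 1 (⟨0,[]⟩,⟨0,
  []⟩) .k .k) (.S ⟨1,0,[],[1,0,0,0,-1],[0,-1],(⟨0,[(24,0)]⟩,⟨0,[(25,0)]⟩),⟨1,[(2,0),(2,0),(18,0)]⟩,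
  .k,(.r (-1) ⟨7,[(6,2),(3,0),(7,0),(21,1),(2,5)]⟩ ⟨4,[(12,2),(14,2),(2,2),(6,0),(3,1)]⟩),⟨false,1,
  ⟨3,[(10,1),(12,1),(10,0),(8,0)]⟩,⟨0,[]⟩⟩,⟨true,0,⟨0,[(45,0)]⟩,⟨0,[]⟩⟩,⟨true,0,⟨0,[(41,0)]⟩,⟨0,
  [(40,0)]⟩⟩,⟨false,0,⟨0,[(41,0)]⟩,⟨0,[(40,0),(2,0)]⟩⟩,[.o ⟨false,1,⟨0,[(22,0)]⟩,⟨2,[(3,1),(19,0),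
  (14,0),(4,0)]⟩⟩,.a ⟨true,1,⟨0,[(10,0)]⟩,⟨0,[(3,0)]⟩⟩ ⟨true,1,⟨0,[(43,0)]⟩,⟨0,[(1,0)]⟩⟩ ⟨false,1,
  ⟨1,[(42,0),(0,0)]⟩,⟨0,[(45,0)]⟩⟩,.o ⟨false,1,⟨0,[(22,0)]⟩,⟨2,[(3,1),(19,0),(14,0),(4,0)]⟩⟩,.o
  ⟨false,1,⟨1,[(22,1),(6,0),(0,0)]⟩,⟨0,[(0,0)]⟩⟩]⟩) (.K ⟨0,[1,0,0,0,-1],0,1,(⟨0,[(24,0)]⟩,⟨0,[(25,
  0)]⟩),.k,(.r (-1) ⟨7,[(6,2),(3,0),(7,0),(21,1),(2,5)]⟩ ⟨4,[(12,2),(14,2),(2,2),(6,0),(3,1)]⟩),(.r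
  (-1) ⟨7,[(10,1),(1,3),(10,1),(3,3),(2,3),(3,0),(6,3),(1,4)]⟩ ⟨0,[(39,0)]⟩),.k,.k,[⟨2,[(3,2),(0,0),
  (9,0),(14,1),(8,0),(2,1),(1,1)]⟩,⟨0,[(0,0)]⟩,⟨8,[(1,2),(1,8),(2,0),(30,0),(0,2),(2,1)]⟩,⟨0,[(10,
  0),(34,0)]⟩]⟩)) (.Q [0,0,1,1,-1,0,0,-1,1,0,0,1] (.p true [0,0,0,0,1] [] (⟨0,[(24,0)]⟩,⟨0,[(23,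
  0)]⟩) .k 0 (⟨0,[]⟩,⟨0,[]⟩) .k .k) (.Q [0,0,0,0,0,1,0,0,0,0,0,-1] (.ed true [1,-1,0,0,1] .k) (.K
  ⟨0,[0,1,0,0,-1],1,1,(⟨0,[(0,0)]⟩,⟨0,[(26,0),(9,0)]⟩),(.r (-1) ⟨7,[(11,1),(1,3),(10,1),(3,3),(2,3),
  (3,0),(6,3),(1,4)]⟩ ⟨0,[(40,0)]⟩),.k,(.r (-1) ⟨0,[(13,0),(14,0),(2,0),(10,0),(1,0)]⟩ ⟨0,[(5,0),(8,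
  0),(3,0),(23,0)]⟩),(.r (-1) ⟨3,[(11,1),(1,3),(10,1),(10,0),(8,0)]⟩ ⟨0,[(10,0),(16,0)]⟩),.k,[⟨0,
  [(1,0),(12,0)]⟩,⟨0,[(23,0)]⟩,⟨0,[(4,0),(36,0)]⟩,⟨0,[(23,0),(18,0)]⟩]⟩) (.S ⟨1,0,[0,1],[0,0,0,0,1],
  [0,2],(⟨0,[(26,0)]⟩,⟨0,[(25,0)]⟩),⟨0,[(0,0)]⟩,.k,(.r 0 ⟨0,[(40,0)]⟩ ⟨7,[(11,1),(1,3),(10,1),(3,3),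
  (2,3),(3,0),(6,3),(1,4)]⟩),⟨true,0,⟨0,[(46,0)]⟩,⟨0,[]⟩⟩,⟨false,1,⟨3,[(11,1),(12,1),(10,0),(8,0)]⟩,
  ⟨0,[]⟩⟩,⟨false,0,⟨0,[(42,0)]⟩,⟨0,[(41,0),(2,0)]⟩⟩,⟨true,0,⟨0,[(42,0)]⟩,⟨0,[(41,0)]⟩⟩,[.e ⟨false,0,
  ⟨0,[(38,0)]⟩,⟨0,[(44,0)]⟩⟩ ⟨false,0,⟨2,[(7,0),(30,0),(3,1)]⟩,⟨3,[(11,1),(12,1),(10,0),(8,0)]⟩⟩,.o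
  ⟨false,0,⟨2,[(4,1),(19,0),(14,0),(4,0)]⟩,⟨0,[(23,0)]⟩⟩,.o ⟨false,0,⟨2,[(4,1),(19,0),(14,0),(4,
  0)]⟩,⟨0,[(23,0)]⟩⟩,.a ⟨true,(-1),⟨0,[(1,0),(12,0),(3,0)]⟩,⟨2,[(7,0),(3,2),(26,0),(3,1)]⟩⟩ ⟨false,
  0,⟨2,[(7,0),(30,0),(3,1)]⟩,⟨1,[(30,0),(0,0),(12,1)]⟩⟩ ⟨true,0,⟨2,[(7,0),(30,0),(3,1)]⟩,⟨1,[(30,0),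
  (0,0)]⟩⟩]⟩)) (.Q [0,1,0,-1,-1,0,0,0,1,0,0,1] (.p true [0,0,0,0,1] [] (⟨0,[(25,0)]⟩,⟨0,[(24,0)]⟩)
  .k 0 (⟨0,[]⟩,⟨0,[]⟩) .k .k) (.Q [0,0,0,0,-1,0,-1,0,1,1,-1,1] (.p true [1,0,-1,0,1] [] (⟨0,[(26,0),
  (5,0)]⟩,⟨0,[(3,0)]⟩) .k 0 (⟨0,[]⟩,⟨0,[]⟩) .k (.r 0 ⟨2,[(8,0),(3,0),(0,0),(24,0)]⟩ ⟨5,[(15,1),(4,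
  2),(7,3),(10,0),(4,4)]⟩)) (.Q [0,0,0,0,1,0,1,0,-1,0,1,-1] (.p false [1,0,-1,0,1] [1] (⟨0,[(27,0),
  (5,0)]⟩,⟨0,[(4,0)]⟩) .k 1 (⟨0,[]⟩,⟨0,[]⟩) .k (.r 0 ⟨2,[(9,0),(3,0),(0,0),(24,0)]⟩ ⟨5,[(16,1),(4,
  2),(7,3),(10,0),(4,4)]⟩)) (.Q [0,0,1,0,-1,0,-1,0,1,0,-1,1] (.p true [1,0,-1,0,1] [1] (⟨0,[(28,0),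
  (5,0)]⟩,⟨0,[(5,0)]⟩) .k 1 (⟨0,[]⟩,⟨0,[]⟩) .k (.r 0 ⟨2,[(10,0),(3,0),(0,0),(24,0)]⟩ ⟨5,[(17,1),(4,
  2),(7,3),(10,0),(4,4)]⟩)) (.S ⟨1,0,[0,1,0,0,0,0,0,-1],[1,0,-1,0,1],[1,2,0,-1,0,0,0,-1],(⟨0,[(29,
  0),(5,0)]⟩,⟨0,[(6,0)]⟩),⟨0,[(24,0),(4,0)]⟩,.k,(.r 0 ⟨0,[(8,0),(36,0),(2,0)]⟩ ⟨0,[(31,0),(2,0),(10,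
  0),(1,0)]⟩),⟨true,0,⟨0,[(44,0)]⟩,⟨0,[(45,0)]⟩⟩,⟨false,1,⟨3,[(14,1),(12,1),(10,0),(8,0)]⟩,⟨0,[]⟩⟩,
  ⟨false,0,⟨0,[]⟩,⟨3,[(14,1),(12,1),(10,0),(8,0)]⟩⟩,⟨true,0,⟨0,[(45,0)]⟩,⟨0,[(44,0)]⟩⟩,[.o ⟨false,
  (-1),⟨3,[(0,2),(6,0),(0,1),(7,0),(15,0),(12,2)]⟩,⟨0,[(14,0),(3,0),(19,0)]⟩⟩,.e ⟨false,0,⟨0,[(11,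
  0)]⟩,⟨5,[(18,1),(4,2),(7,3),(10,0),(2,5),(1,4)]⟩⟩ ⟨false,1,⟨0,[(12,0),(6,0)]⟩,⟨1,[(0,0),(3,0),(13,
  0),(26,0)]⟩⟩,.a ⟨true,(-1),⟨0,[(2,0)]⟩,⟨0,[(1,0)]⟩⟩ ⟨false,0,⟨1,[(11,0),(3,0),(28,0)]⟩,⟨1,[(0,0),
  (3,0),(13,0),(26,2),(1,1)]⟩⟩ ⟨true,0,⟨2,[(11,0),(3,0),(0,0),(24,0)]⟩,⟨1,[(0,0),(3,0),(13,0),(26,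
  0)]⟩⟩,.o ⟨false,(-1),⟨0,[(0,0)]⟩,⟨0,[(12,0),(13,0)]⟩⟩]⟩) (.Q [0,0,0,0,0,0,0,0,0,1,-1,-1] (.ed
  true [0,0,1,0,1] (.r 0 ⟨1,[(13,0),(9,0),(7,0),(13,0)]⟩ ⟨1,[(12,0),(2,0),(3,0),(27,0)]⟩)) (.Q [0,2,
  0,0,-1,0,0,0,1,-1,0,1] (.p true [0,0,0,0,1] [1] (⟨0,[(30,0)]⟩,⟨0,[(29,0)]⟩) .k 1 (⟨0,[]⟩,⟨0,[]⟩)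
  .k .k) (.R ⟨1,false,false,true,[0,0,1,0,1],[0,0,0,0,1],[0,1,0,0,0,0,0,1],(⟨0,[(31,0),(6,0)]⟩,⟨0,
  [(1,0)]⟩),(⟨0,[(31,0)]⟩,⟨0,[(30,0)]⟩),⟨0,[(27,0),(3,0)]⟩,.k,.k,(.r 0 ⟨5,[(0,1),(3,1),(1,3),(5,0),
  (7,0),(12,0)]⟩ ⟨3,[(16,1),(1,3),(10,1),(10,0),(8,0)]⟩),.k,.k,.k,⟨false,1,⟨17,[(6,3),(0,5),(12,13),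
  (3,3),(0,6),(18,0),(2,3),(1,2)]⟩,⟨2,[(13,0),(3,0),(0,0),(24,0)]⟩⟩,⟨true,0,⟨0,[(23,0)]⟩,⟨0,[(35,
  0)]⟩⟩,⟨false,1,⟨3,[(16,1),(12,1),(10,0),(8,0)]⟩,⟨0,[]⟩⟩,⟨true,0,⟨0,[(34,0)]⟩,⟨0,[(20,0)]⟩⟩,⟨true,
  0,⟨0,[(47,0)]⟩,⟨0,[(46,0)]⟩⟩,⟨true,0,⟨0,[(34,0),(12,0)]⟩,⟨0,[(19,0)]⟩⟩,[.o ⟨false,(-1),⟨0,[(0,
  0)]⟩,⟨1,[(16,1),(23,0),(8,0)]⟩⟩,.a ⟨true,(-1),⟨0,[(9,0)]⟩,⟨0,[(16,0)]⟩⟩ ⟨true,0,⟨0,[(20,0),(2,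
  0)]⟩,⟨0,[(17,0)]⟩⟩ ⟨false,0,⟨2,[(12,0),(10,2),(19,0),(3,1)]⟩,⟨2,[(7,0),(6,0),(1,0),(12,0),(5,
  1)]⟩⟩,.o ⟨false,0,⟨3,[(7,1),(1,3),(4,0),(20,2),(8,0)]⟩,⟨0,[(23,0),(4,0)]⟩⟩,.o ⟨false,0,⟨2,[(9,1),
  (19,0),(5,2),(8,0),(4,0)]⟩,⟨0,[(2,0),(20,1)]⟩⟩]⟩) (.R ⟨1,false,false,true,[0,0,1,0,1],[0,0,0,0,1],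
  [0,1,0,0,0,0,0,1],(⟨0,[(31,0),(6,0)]⟩,⟨0,[(1,0)]⟩),(⟨0,[(31,0)]⟩,⟨0,[(30,0)]⟩),⟨0,[(27,0),(3,0)]⟩,
  .k,.k,(.r 0 ⟨0,[(6,0),(2,0)]⟩ ⟨3,[(16,1),(1,3),(10,1),(10,0),(8,0)]⟩),.k,.k,.k,⟨false,1,⟨17,[(6,
  3),(0,5),(12,13),(3,3),(0,6),(18,0),(2,3),(1,2)]⟩,⟨2,[(13,0),(3,0),(0,0),(24,0)]⟩⟩,⟨true,0,⟨0,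
  [(23,0)]⟩,⟨0,[(35,0)]⟩⟩,⟨false,1,⟨3,[(16,1),(12,1),(10,0),(8,0)]⟩,⟨0,[]⟩⟩,⟨true,0,⟨0,[(34,0)]⟩,⟨0,
  [(20,0)]⟩⟩,⟨true,0,⟨0,[(47,0)]⟩,⟨0,[(46,0)]⟩⟩,⟨true,0,⟨0,[(34,0),(12,0)]⟩,⟨0,[(19,0)]⟩⟩,[.e
  ⟨false,0,⟨0,[(6,0),(2,0),(37,0)]⟩,⟨1,[(14,0),(2,0),(3,0),(27,0)]⟩⟩ ⟨false,0,⟨0,[(23,0),(19,0)]⟩,
  ⟨0,[(7,0),(27,0)]⟩⟩,.a ⟨true,(-1),⟨0,[(9,0)]⟩,⟨0,[(16,0)]⟩⟩ ⟨true,0,⟨0,[(20,0),(2,0)]⟩,⟨0,[(17,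
  0)]⟩⟩ ⟨false,0,⟨2,[(12,0),(10,2),(19,0),(3,1)]⟩,⟨2,[(7,0),(6,0),(1,0),(12,0),(5,1)]⟩⟩,.o ⟨false,0,
  ⟨3,[(7,1),(1,3),(4,0),(20,2),(8,0)]⟩,⟨0,[(23,0),(4,0)]⟩⟩,.o ⟨false,0,⟨2,[(9,1),(19,0),(5,2),(8,0),
  (4,0)]⟩,⟨0,[(2,0),(20,1)]⟩⟩]⟩)) (.Q [0,0,0,0,0,-1,0,0,0,0,1,-1] (.p false [1,0,-1,0,1] [1] (⟨0,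
  [(30,0),(5,0)]⟩,⟨0,[(7,0)]⟩) .k 1 (⟨0,[]⟩,⟨0,[]⟩) .k (.r 0 ⟨2,[(12,0),(3,0),(0,0),(24,0)]⟩ ⟨5,
  [(19,1),(4,2),(7,3),(10,0),(4,4)]⟩)) (.Q [0,1,0,0,-1,0,-1,-1,1,0,-1,1] (.p true [1,0,-1,0,1] [1]
  (⟨0,[(31,0),(5,0)]⟩,⟨0,[(8,0)]⟩) .k 1 (⟨0,[]⟩,⟨0,[]⟩) .k (.r 0 ⟨2,[(13,0),(3,0),(0,0),(24,0)]⟩ ⟨5,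
  [(20,1),(4,2),(7,3),(10,0),(4,4)]⟩)) (.S ⟨1,0,[0,-1,0,0,0,0,0,1],[0,0,1,0,-1],[1,0,0,-1,0,0,0,1],
  (⟨0,[(9,0)]⟩,⟨0,[(32,0),(5,0)]⟩),⟨0,[(1,0)]⟩,.k,(.r (-1) ⟨17,[(5,5),(1,9),(12,7),(4,3),(0,0),(18,
  0),(4,8)]⟩ ⟨0,[(19,0),(32,0)]⟩),⟨true,0,⟨0,[(47,0)]⟩,⟨0,[(48,0)]⟩⟩,⟨false,1,⟨3,[(17,1),(12,1),(10,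
  0),(8,0)]⟩,⟨0,[]⟩⟩,⟨false,0,⟨0,[]⟩,⟨3,[(17,1),(12,1),(10,0),(8,0)]⟩⟩,⟨true,0,⟨0,[(48,0)]⟩,⟨0,[(47,
  0)]⟩⟩,[.o ⟨false,2,⟨0,[(17,0),(3,0),(19,0)]⟩,⟨0,[(0,0)]⟩⟩,.e ⟨false,1,⟨17,[(5,5),(1,9),(12,7),(4,
  3),(0,0),(18,0),(4,8)]⟩,⟨2,[(0,0),(2,0),(15,1),(24,0),(3,0)]⟩⟩ ⟨false,1,⟨0,[(8,0),(12,0),(2,0)]⟩,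
  ⟨0,[(18,0),(25,0)]⟩⟩,.a ⟨true,1,⟨0,[(4,0)]⟩,⟨0,[(5,0)]⟩⟩ ⟨true,0,⟨0,[(20,0),(3,0)]⟩,⟨2,[(0,0),(2,
  0),(15,1),(24,0),(3,0)]⟩⟩ ⟨false,1,⟨0,[(8,0),(12,0),(15,0)]⟩,⟨2,[(14,0),(3,0),(0,0),(24,0)]⟩⟩,.e
  ⟨false,1,⟨17,[(5,5),(1,9),(12,7),(4,3),(0,0),(18,0),(4,8)]⟩,⟨0,[(19,0)]⟩⟩ ⟨false,1,⟨0,[(8,0),(12,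
  0),(2,0)]⟩,⟨0,[(18,0),(33,0)]⟩⟩]⟩) (.Q [0,0,0,0,1,0,1,1,-1,-1,1,-1] (.p false [1,0,-1,0,1] [] (⟨0,
  [(32,0),(5,0)]⟩,⟨0,[(9,0)]⟩) .k 0 (⟨0,[]⟩,⟨0,[]⟩) .k (.r 0 ⟨2,[(14,0),(3,0),(0,0),(24,0)]⟩ ⟨3,[(0,
  1),(20,1),(3,0),(0,0),(3,0),(6,1),(12,0)]⟩)) (.S ⟨1,0,[0,0,0,0,0,0,0,1],[0,0,1,0,-1],[1,-1,0,-1,0,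
  0,0,1],(⟨0,[(10,0)]⟩,⟨0,[(33,0),(5,0)]⟩),⟨0,[(2,0)]⟩,.k,(.r (-1) ⟨17,[(6,5),(1,9),(12,7),(4,3),(0,
  0),(18,0),(4,8)]⟩ ⟨0,[(20,0),(32,0)]⟩),⟨false,1,⟨0,[(48,0),(2,0)]⟩,⟨0,[(49,0)]⟩⟩,⟨true,0,⟨0,[(53,
  0)]⟩,⟨0,[]⟩⟩,⟨true,0,⟨0,[]⟩,⟨0,[(53,0)]⟩⟩,⟨false,0,⟨0,[(49,0)]⟩,⟨0,[(48,0),(2,0)]⟩⟩,[.o ⟨false,1,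
  ⟨0,[(0,0)]⟩,⟨6,[(6,3),(12,3),(3,0),(2,1),(4,0),(4,1),(9,0),(4,0)]⟩⟩,.e ⟨false,1,⟨0,[(9,0),(11,0),
  (3,0)]⟩,⟨0,[(20,0),(24,0)]⟩⟩ ⟨false,1,⟨14,[(1,2),(6,0),(0,5),(12,10),(3,3),(0,6),(18,0),(2,0)]⟩,
  ⟨2,[(15,0),(3,0),(0,0),(24,0)]⟩⟩,.a ⟨true,1,⟨0,[(5,0)]⟩,⟨0,[(6,0)]⟩⟩ ⟨false,1,⟨0,[(9,0),(11,0),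
  (16,0)]⟩,⟨4,[(12,0),(7,3),(24,1),(3,2)]⟩⟩ ⟨true,0,⟨0,[(0,0),(5,0)]⟩,⟨2,[(15,0),(3,0),(0,0),(24,
  0)]⟩⟩,.o ⟨false,1,⟨0,[(0,0),(18,0)]⟩,⟨5,[(6,3),(19,1),(0,0),(18,0),(3,0)]⟩⟩]⟩) (.Q [0,1,0,1,-1,0,
  -1,-1,1,0,-1,1] (.p true [1,0,-1,0,1] [1] (⟨0,[(33,0),(5,0)]⟩,⟨0,[(10,0)]⟩) .k 1 (⟨0,[]⟩,⟨0,[]⟩)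
  .k (.r 0 ⟨2,[(15,0),(3,0),(0,0),(24,0)]⟩ ⟨3,[(1,1),(20,1),(3,0),(0,0),(3,0),(6,1),(12,0)]⟩)) (.R
  ⟨1,true,false,false,[0,0,1],[0,0,0,0,1],[0,1,0,0,0,0,0,1],(⟨0,[(41,0)]⟩,⟨0,[(40,0)]⟩),(⟨0,[(34,
  0)]⟩,⟨0,[(33,0)]⟩),⟨0,[(30,0)]⟩,.k,.k,.k,.k,(.r (-1) ⟨17,[(7,5),(1,9),(12,7),(4,3),(0,0),(18,0),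
  (4,8)]⟩ ⟨0,[(21,0),(32,0)]⟩),.k,⟨true,0,⟨0,[(23,0),(2,0)]⟩,⟨0,[(20,0)]⟩⟩,⟨false,0,⟨5,[(7,3),(19,
  1),(0,0),(18,0),(3,0)]⟩,⟨0,[(6,0)]⟩⟩,⟨true,0,⟨0,[(54,0)]⟩,⟨0,[]⟩⟩,⟨false,0,⟨4,[(1,1),(22,0),(7,2),
  (4,1),(9,0),(4,0)]⟩,⟨0,[(2,0)]⟩⟩,⟨false,0,⟨0,[(50,0)]⟩,⟨0,[(49,0),(2,0)]⟩⟩,⟨true,(-1),⟨0,[(0,0)]⟩,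
  ⟨0,[(2,0),(46,0)]⟩⟩,[]⟩) (.Q [0,1,0,2,-1,0,-1,-1,1,0,-1,1] (.p true [1,0,-1,0,1] [1] (⟨0,[(34,0),
  (5,0)]⟩,⟨0,[(11,0)]⟩) .k 1 (⟨0,[]⟩,⟨0,[]⟩) .k (.r 0 ⟨2,[(16,0),(3,0),(0,0),(24,0)]⟩ ⟨3,[(2,1),(20,
  1),(3,0),(0,0),(3,0),(6,1),(12,0)]⟩)) (.R ⟨1,false,false,false,[1,0,0,0,-1],[1,1,-1],[1,0,1,1,0,0,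
  0,-1],(⟨0,[(34,0)]⟩,⟨0,[(35,0)]⟩),(⟨0,[(41,0),(4,0)]⟩,⟨0,[(31,0)]⟩),⟨2,[(4,0),(10,0),(18,1)]⟩,.k,
  .k,(.r (-1) ⟨7,[(16,2),(3,0),(7,0),(21,1),(2,5)]⟩ ⟨3,[(0,0),(21,1),(9,0),(4,2),(2,1)]⟩),(.r (-1)
  ⟨17,[(8,5),(1,9),(12,7),(4,3),(0,0),(18,0),(4,8)]⟩ ⟨0,[(22,0),(32,0)]⟩),(.r (-1) ⟨35,[(8,16),(1,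
  18),(0,12),(4,17),(6,16),(4,1),(19,4),(4,13)]⟩ ⟨3,[(0,0),(21,5),(9,0),(4,2),(2,1)]⟩),.k,⟨true,0,
  ⟨0,[]⟩,⟨1,[(39,0),(0,0)]⟩⟩,⟨false,0,⟨20,[(0,11),(7,12),(1,7),(0,9),(4,7),(7,3),(3,3),(19,2)]⟩,⟨1,
  [(7,1),(31,0),(0,0)]⟩⟩,⟨false,0,⟨0,[(22,0)]⟩,⟨17,[(8,5),(1,9),(12,7),(4,3),(0,0),(18,0),(4,8)]⟩⟩,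
  ⟨false,0,⟨3,[(0,1),(20,0),(3,0),(2,0),(4,0),(6,0),(12,0)]⟩,⟨0,[(1,0)]⟩⟩,⟨false,0,⟨1,[(0,0),(2,0),
  (18,1)]⟩,⟨11,[(10,0),(5,5),(6,10),(4,0),(0,3),(10,2),(7,0),(4,8)]⟩⟩,⟨true,(-1),⟨0,[(0,0)]⟩,⟨0,[(1,
  0),(48,0)]⟩⟩,[.a ⟨true,0,⟨1,[(0,0),(19,0),(4,0)]⟩,⟨0,[(23,0)]⟩⟩ ⟨true,0,⟨0,[(22,0)]⟩,⟨1,[(1,0),(6,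
  0),(10,0),(7,0)]⟩⟩ ⟨false,0,⟨95,[(0,49),(1,12),(8,25),(2,1),(10,30),(2,32),(0,0),(18,3)]⟩,⟨1,[(1,
  0),(24,0),(5,0)]⟩⟩,.o ⟨false,1,⟨1,[(0,0),(19,0),(4,0),(18,0),(8,0)]⟩,⟨0,[(19,0)]⟩⟩,.o ⟨false,1,⟨0,
  [(32,0)]⟩,⟨2,[(13,1),(19,0),(14,0),(4,0)]⟩⟩,.o ⟨false,1,⟨0,[(7,0),(32,0)]⟩,⟨12,[(0,1),(10,6),(1,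
  9),(2,1),(7,1),(3,0),(19,3)]⟩⟩]⟩) (.I [0,0,1,0,0,0,0,-1] (.Q [0,0,1,0,1,0,2,0,-1,-1,2,-1] (.p
  true [0,0,1] [1,0,-1,0,1] (⟨0,[(43,0)]⟩,⟨0,[(42,0)]⟩) .k 2 (⟨0,[(36,0),(5,0)]⟩,⟨0,[(13,0)]⟩) .k
  (.r (-1) ⟨4,[(4,0),(20,8),(3,0),(0,3),(10,1),(7,0),(4,1)]⟩ ⟨0,[(18,0),(4,0)]⟩)) (.R ⟨1,false,
  false,false,[0,0,1],[1,0,-1,0,1],[0,0,0,0,0,0,0,1],(⟨0,[(44,0)]⟩,⟨0,[(43,0)]⟩),(⟨0,[(37,0),(5,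
  0)]⟩,⟨0,[(14,0)]⟩),⟨0,[(33,0)]⟩,.k,.k,.k,.k,(.r (-1) ⟨17,[(10,11),(1,13),(12,3),(0,17),(3,1),(0,
  4),(18,4),(4,8)]⟩ ⟨2,[(19,0),(3,0),(0,3),(24,0)]⟩),.k,⟨false,1,⟨17,[(10,2),(1,4),(0,8),(12,30),(3,
  1),(0,13),(18,4),(2,4)]⟩,⟨0,[(19,0),(4,0)]⟩⟩,⟨true,(-1),⟨0,[(10,0),(18,0)]⟩,⟨0,[(0,0)]⟩⟩,⟨false,1,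
  ⟨3,[(22,1),(12,1),(10,0),(8,0)]⟩,⟨0,[]⟩⟩,⟨true,(-1),⟨0,[(4,0),(35,0)]⟩,⟨0,[(5,0),(15,0),(31,0)]⟩⟩,
  ⟨true,0,⟨0,[(53,0)]⟩,⟨0,[(52,0)]⟩⟩,⟨true,(-1),⟨0,[(4,0),(35,0),(12,0)]⟩,⟨0,[(5,0),(15,0)]⟩⟩,[.a
  ⟨true,(-1),⟨0,[(15,0),(11,0)]⟩,⟨0,[(5,0)]⟩⟩ ⟨true,0,⟨0,[(26,0),(2,0)]⟩,⟨0,[(23,0)]⟩⟩ ⟨false,(-1),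
  ⟨3,[(4,1),(10,1),(0,0),(12,2),(8,1),(1,0),(12,1)]⟩,⟨4,[(0,2),(4,4),(24,1),(4,0),(6,0)]⟩⟩,.a ⟨true,
  (-1),⟨0,[(4,0)]⟩,⟨1,[(5,0),(28,0),(4,0)]⟩⟩ ⟨false,1,⟨14,[(5,2),(6,0),(0,5),(12,10),(3,3),(0,6),
  (18,0),(2,0)]⟩,⟨2,[(19,0),(3,0),(0,0),(24,0)]⟩⟩ ⟨true,(-1),⟨0,[(4,0),(24,0)]⟩,⟨2,[(0,1),(4,0),(15,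
  0),(4,0),(15,0),(10,0)]⟩⟩,.o ⟨false,1,⟨4,[(0,2),(29,1),(4,0),(6,0)]⟩,⟨0,[(29,0)]⟩⟩,.a ⟨true,0,⟨0,
  [(41,0)]⟩,⟨0,[(38,0)]⟩⟩ ⟨false,1,⟨14,[(5,2),(6,0),(0,5),(12,10),(3,3),(0,6),(18,0),(2,0)]⟩,⟨0,
  [(23,0)]⟩⟩ ⟨true,(-1),⟨3,[(4,1),(10,1),(0,0),(12,2),(8,1),(1,0),(12,1)]⟩,⟨2,[(0,1),(4,0),(15,0),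
  (4,0),(15,0),(10,0)]⟩⟩]⟩) (.Q [0,0,1,0,1,0,1,0,-1,-1,1,-1] (.p false [1,0,-1,0,1] [] (⟨0,[(37,0),
  (5,0)]⟩,⟨0,[(14,0)]⟩) .k 0 (⟨0,[]⟩,⟨0,[]⟩) .k (.r 0 ⟨2,[(19,0),(3,0),(0,0),(24,0)]⟩ ⟨3,[(5,1),(20,
  1),(3,0),(0,0),(3,0),(6,1),(12,0)]⟩)) (.R ⟨1,false,false,true,[0,0,1,0,-1],[1,1,-1],[0,-1,0,0,0,0,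
  0,1],(⟨0,[(15,0)]⟩,⟨0,[(38,0),(5,0)]⟩),(⟨0,[(44,0),(4,0)]⟩,⟨0,[(34,0)]⟩),⟨0,[(7,0)]⟩,.k,.k,(.r
  (-1) ⟨11,[(1,1),(11,4),(12,6),(4,2),(0,0),(10,0),(12,5)]⟩ ⟨0,[(25,0),(32,0)]⟩),(.r (-1) ⟨19,[(1,
  11),(4,17),(6,2),(12,16),(0,1),(3,8),(11,12),(7,0),(4,0)]⟩ ⟨2,[(20,0),(3,0),(0,3),(24,0)]⟩),(.r
  (-1) ⟨13,[(1,10),(1,4),(2,4),(6,5),(0,0),(11,11),(4,4),(19,1),(4,0)]⟩ ⟨0,[(25,1),(32,0)]⟩),.k,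
  ⟨false,1,⟨9,[(1,8),(4,6),(6,1),(0,6),(4,0),(6,5),(0,4),(23,2)]⟩,⟨0,[(24,0),(0,0),(24,0)]⟩⟩,⟨true,
  (-1),⟨0,[(1,0)]⟩,⟨0,[(0,0),(41,0)]⟩⟩,⟨false,1,⟨3,[(23,1),(12,1),(10,0),(8,0)]⟩,⟨0,[]⟩⟩,⟨false,
  (-1),⟨0,[(5,0),(35,0),(12,0)]⟩,⟨5,[(3,0),(2,6),(19,3),(9,1),(14,1),(4,1)]⟩⟩,⟨true,0,⟨0,[(54,0)]⟩,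
  ⟨0,[(53,0)]⟩⟩,⟨false,(-1),⟨0,[(5,0),(35,0),(12,1)]⟩,⟨2,[(3,1),(2,1),(19,1),(9,0),(14,0),(4,0)]⟩⟩,
  [.o ⟨false,0,⟨0,[(41,0),(12,0)]⟩,⟨5,[(3,0),(2,0),(19,3),(9,1),(14,1),(4,1)]⟩⟩,.a ⟨true,0,⟨0,[(28,
  0),(25,0)]⟩,⟨0,[(26,0)]⟩⟩ ⟨false,1,⟨13,[(1,6),(4,7),(7,4),(12,5),(3,0),(19,1),(4,4)]⟩,⟨0,[(24,0),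
  (25,0)]⟩⟩ ⟨true,(-1),⟨0,[(1,0),(23,0)]⟩,⟨0,[(0,0),(25,0)]⟩⟩,.e ⟨false,1,⟨22,[(1,6),(4,7),(20,14),
  (3,0),(11,8),(7,1),(4,18)]⟩,⟨2,[(20,0),(3,0),(0,0),(24,0)]⟩⟩ ⟨false,(-1),⟨0,[(1,0),(23,0)]⟩,⟨1,
  [(0,0),(2,0),(2,0),(14,0),(14,0)]⟩⟩,.o ⟨false,1,⟨0,[(0,0)]⟩,⟨4,[(1,1),(29,1),(4,0),(6,0)]⟩⟩]⟩)
  (.R ⟨1,false,false,true,[0,0,1,0,-1],[1,0,0,0,-1],[0,0,0,0,0,0,0,1],(⟨0,[(15,0)]⟩,⟨0,[(38,0),(5,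
  0)]⟩),(⟨0,[(37,0)]⟩,⟨0,[(38,0)]⟩),⟨0,[(7,0)]⟩,.k,.k,(.r (-1) ⟨11,[(1,1),(11,4),(12,6),(4,2),(0,0),
  (10,0),(12,5)]⟩ ⟨0,[(25,0),(32,0)]⟩),.k,.k,.k,⟨true,0,⟨2,[(1,0),(4,0),(15,0),(4,0),(15,0),(10,
  0)]⟩,⟨0,[(24,0)]⟩⟩,⟨false,0,⟨0,[(39,0)]⟩,⟨2,[(10,0),(10,0),(14,0),(5,0),(4,0)]⟩⟩,⟨true,0,⟨0,[(58,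
  0)]⟩,⟨0,[]⟩⟩,⟨false,0,⟨0,[(28,0)]⟩,⟨2,[(6,0),(20,1),(8,0),(14,0),(4,0)]⟩⟩,⟨false,0,⟨0,[(54,0)]⟩,
  ⟨3,[(3,1),(20,0),(3,0),(2,0),(4,0),(6,0),(12,0)]⟩⟩,⟨false,0,⟨0,[(28,0),(25,0)]⟩,⟨5,[(3,0),(2,0),
  (19,3),(9,1),(14,1),(4,1)]⟩⟩,[.o ⟨false,1,⟨0,[(35,0)]⟩,⟨2,[(16,1),(19,0),(14,0),(4,0)]⟩⟩,.a ⟨true,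
  1,⟨0,[(23,0)]⟩,⟨0,[(16,0)]⟩⟩ ⟨false,1,⟨6,[(1,1),(4,4),(20,1),(3,2),(0,0),(10,0),(12,0)]⟩,⟨2,[(20,
  0),(3,0),(0,0),(24,0)]⟩⟩ ⟨true,0,⟨0,[(1,0),(4,0),(17,0)]⟩,⟨0,[(22,0),(2,0)]⟩⟩,.a ⟨true,1,⟨0,[(10,
  0)]⟩,⟨0,[(11,0)]⟩⟩ ⟨true,0,⟨2,[(1,0),(4,0),(15,0),(4,0),(15,0),(10,0)]⟩,⟨2,[(20,0),(3,0),(0,0),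
  (24,0)]⟩⟩ ⟨false,0,⟨0,[(1,0),(4,0),(17,0)]⟩,⟨2,[(10,0),(10,0),(14,0),(5,0),(4,0)]⟩⟩,.a ⟨true,1,⟨1,
  [(10,1),(31,0),(0,0)]⟩,⟨0,[(0,0)]⟩⟩ ⟨false,1,⟨6,[(1,1),(4,4),(20,1),(3,2),(0,0),(10,0),(12,0)]⟩,
  ⟨0,[(24,0)]⟩⟩ ⟨true,0,⟨0,[(39,0)]⟩,⟨0,[(22,0),(2,0)]⟩⟩]⟩))) (.R ⟨1,false,false,true,[0,0,1,0,-1],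
  [1,0,0,0,-1],[0,0,1],(⟨0,[(13,0)]⟩,⟨0,[(36,0),(5,0)]⟩),(⟨0,[(35,0)]⟩,⟨0,[(36,0)]⟩),⟨0,[(5,0)]⟩,.k,
  .k,(.r (-1) ⟨2,[(0,0),(0,0),(22,0),(4,0),(0,0),(23,0)]⟩ ⟨0,[(23,0),(32,0)]⟩),.k,.k,.k,⟨true,0,⟨1,
  [(40,0),(0,0)]⟩,⟨0,[]⟩⟩,⟨false,0,⟨0,[(37,0)]⟩,⟨2,[(8,0),(10,0),(14,0),(5,0),(4,0)]⟩⟩,⟨true,0,⟨0,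
  [(22,0),(33,0)]⟩,⟨0,[(0,0)]⟩⟩,⟨false,0,⟨0,[(26,0)]⟩,⟨2,[(4,0),(20,1),(8,0),(14,0),(4,0)]⟩⟩,⟨false,
  0,⟨0,[(23,0)]⟩,⟨2,[(0,0),(0,0),(22,0),(4,0),(0,0),(23,0)]⟩⟩,⟨false,0,⟨0,[(26,0),(25,0)]⟩,⟨5,[(1,
  0),(2,0),(19,3),(9,1),(14,1),(4,1)]⟩⟩,[.o ⟨false,1,⟨0,[(33,0)]⟩,⟨2,[(14,1),(19,0),(14,0),(4,0)]⟩⟩,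
  .a ⟨true,1,⟨0,[(21,0)]⟩,⟨0,[(14,0)]⟩⟩ ⟨false,1,⟨3,[(21,1),(12,1),(10,0),(8,0)]⟩,⟨4,[(0,0),(14,0),
  (32,1),(3,1)]⟩⟩ ⟨true,0,⟨0,[(3,0),(0,0),(23,0)]⟩,⟨0,[(20,0),(2,0)]⟩⟩,.a ⟨true,1,⟨0,[(8,0)]⟩,⟨0,
  [(9,0)]⟩⟩ ⟨true,0,⟨1,[(40,0),(0,0)]⟩,⟨4,[(0,0),(14,0),(32,1),(3,1)]⟩⟩ ⟨false,0,⟨0,[(3,0),(0,0),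
  (23,0)]⟩,⟨2,[(8,0),(10,0),(14,0),(5,0),(4,0)]⟩⟩,.a ⟨true,1,⟨1,[(8,1),(31,0),(0,0)]⟩,⟨0,[(0,0),(2,
  0)]⟩⟩ ⟨false,1,⟨3,[(21,1),(12,1),(10,0),(8,0)]⟩,⟨0,[]⟩⟩ ⟨true,0,⟨0,[(37,0)]⟩,⟨0,[(20,0),(2,
  0)]⟩⟩]⟩)))))) (.Q [0,0,1,0,1,0,1,0,-1,-1,1,-1] (.p false [1,0,-1,0,1] [] (⟨0,[(31,0),(5,0)]⟩,⟨0,
  [(8,0)]⟩) .k 0 (⟨0,[]⟩,⟨0,[]⟩) .k (.r 0 ⟨2,[(13,0),(3,0),(0,0),(24,0)]⟩ ⟨5,[(20,1),(4,2),(7,3),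
  (10,0),(4,4)]⟩)) (.R ⟨0,false,false,false,[0,0,1,0,-1],[0,0,1],[1,0,1],(⟨0,[(9,0)]⟩,⟨0,[(32,0),(5,
  0)]⟩),(⟨0,[(39,0)]⟩,⟨0,[(38,0)]⟩),⟨0,[(1,0)]⟩,.k,.k,(.r (-1) ⟨17,[(5,5),(1,9),(12,7),(4,3),(0,0),
  (18,0),(4,8)]⟩ ⟨0,[(19,0),(32,0)]⟩),.k,.k,.k,⟨true,0,⟨0,[(18,0)]⟩,⟨0,[(21,0),(2,0)]⟩⟩,⟨false,0,⟨2,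
  [(8,0),(1,1),(19,0),(18,0)]⟩,⟨0,[(29,0)]⟩⟩,⟨false,0,⟨0,[(18,0)]⟩,⟨17,[(7,3),(0,5),(12,13),(3,3),
  (0,6),(18,0),(2,3),(1,2)]⟩⟩,⟨true,(-1),⟨0,[(10,0)]⟩,⟨0,[(29,0)]⟩⟩,⟨false,0,⟨0,[]⟩,⟨0,[]⟩⟩,⟨false,
  0,⟨0,[]⟩,⟨0,[]⟩⟩,[.e ⟨false,0,⟨0,[]⟩,⟨4,[(17,1),(7,1),(3,0),(0,0),(13,0)]⟩⟩ ⟨false,0,⟨8,[(5,5),(1,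
  0),(13,7),(3,3),(0,0),(18,0),(2,0)]⟩,⟨2,[(0,0),(2,0),(7,0),(5,0),(1,1),(4,1)]⟩⟩,.o ⟨false,1,⟨2,
  [(21,1),(12,0),(10,0),(4,1)]⟩,⟨0,[(35,0)]⟩⟩,.a ⟨true,1,⟨0,[(4,0)]⟩,⟨0,[(5,0)]⟩⟩ ⟨true,0,⟨1,[(36,
  0),(0,0)]⟩,⟨2,[(13,0),(30,0),(3,1)]⟩⟩ ⟨false,0,⟨11,[(5,9),(15,11),(3,0),(4,0),(6,1),(7,2),(4,5)]⟩,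
  ⟨2,[(0,0),(2,0),(7,0),(5,0),(1,1),(4,1)]⟩⟩,.o ⟨false,1,⟨0,[(0,0)]⟩,⟨5,[(5,3),(19,1),(0,0),(18,0),
  (3,0)]⟩⟩]⟩) (.Q [0,1,0,0,0,0,1,0,0,-1,1] (.p true [0,0,1] [1] (⟨0,[(39,0)]⟩,⟨0,[(38,0)]⟩) .k 1
  (⟨0,[]⟩,⟨0,[]⟩) .k .k) (.R ⟨0,false,false,true,[0,0,1,0,-1],[1,0,0,0,-1],[0,0,0,0,0,0,0,1],(⟨0,
  [(10,0)]⟩,⟨0,[(33,0),(5,0)]⟩),(⟨0,[(32,0)]⟩,⟨0,[(33,0)]⟩),⟨0,[(2,0)]⟩,.k,.k,(.r (-1) ⟨17,[(6,5),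
  (1,9),(12,7),(4,3),(0,0),(18,0),(4,8)]⟩ ⟨0,[(20,0),(32,0)]⟩),.k,.k,.k,⟨true,0,⟨0,[(22,0),(2,0)]⟩,
  ⟨0,[(19,0)]⟩⟩,⟨false,0,⟨0,[(34,0)]⟩,⟨2,[(5,0),(10,0),(14,0),(5,0),(4,0)]⟩⟩,⟨true,0,⟨0,[(53,0)]⟩,
  ⟨0,[]⟩⟩,⟨false,0,⟨0,[(23,0)]⟩,⟨2,[(22,1),(12,0),(10,0),(4,1)]⟩⟩,⟨false,0,⟨0,[]⟩,⟨0,[]⟩⟩,⟨false,0,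
  ⟨0,[]⟩,⟨0,[]⟩⟩,[.o ⟨false,1,⟨0,[(30,0)]⟩,⟨2,[(11,1),(19,0),(14,0),(4,0)]⟩⟩,.e ⟨false,1,⟨17,[(8,3),
  (0,5),(12,13),(3,3),(0,6),(18,0),(2,3),(1,2)]⟩,⟨2,[(15,0),(3,0),(0,0),(24,0)]⟩⟩ ⟨false,1,⟨8,[(1,
  0),(4,1),(11,6),(7,3),(0,2),(23,0)]⟩,⟨0,[(0,0)]⟩⟩,.e ⟨true,0,⟨0,[(22,0),(2,0)]⟩,⟨2,[(15,0),(3,0),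
  (0,0),(24,0)]⟩⟩ ⟨true,0,⟨4,[(6,0),(11,0),(4,0),(3,1),(7,0)]⟩,⟨0,[(0,0)]⟩⟩,.a ⟨true,1,⟨1,[(5,1),
  (31,0),(0,0)]⟩,⟨0,[(1,0)]⟩⟩ ⟨false,1,⟨17,[(8,3),(0,5),(12,13),(3,3),(0,6),(18,0),(2,3),(1,2)]⟩,⟨0,
  [(19,0)]⟩⟩ ⟨true,0,⟨0,[(34,0)]⟩,⟨1,[(0,1),(36,0),(0,0)]⟩⟩]⟩) (.R ⟨0,false,false,true,[0,0,1,0,-1],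
  [1,0,0,0,-1],[0,0,0,0,0,0,0,1],(⟨0,[(10,0)]⟩,⟨0,[(33,0),(5,0)]⟩),(⟨0,[(32,0)]⟩,⟨0,[(33,0)]⟩),⟨0,
  [(2,0)]⟩,.k,.k,(.r (-1) ⟨17,[(6,5),(1,9),(12,7),(4,3),(0,0),(18,0),(4,8)]⟩ ⟨0,[(20,0),(32,0)]⟩),
  .k,.k,.k,⟨true,0,⟨0,[(22,0),(2,0)]⟩,⟨0,[(19,0)]⟩⟩,⟨false,0,⟨0,[(34,0)]⟩,⟨2,[(5,0),(10,0),(14,0),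
  (5,0),(4,0)]⟩⟩,⟨true,0,⟨0,[(53,0)]⟩,⟨0,[]⟩⟩,⟨false,0,⟨0,[(23,0)]⟩,⟨2,[(22,1),(12,0),(10,0),(4,
  1)]⟩⟩,⟨false,0,⟨0,[]⟩,⟨0,[]⟩⟩,⟨false,0,⟨0,[]⟩,⟨0,[]⟩⟩,[.o ⟨false,1,⟨0,[(30,0)]⟩,⟨2,[(11,1),(19,0),
  (14,0),(4,0)]⟩⟩,.a ⟨true,1,⟨0,[(18,0)]⟩,⟨0,[(11,0)]⟩⟩ ⟨false,1,⟨17,[(8,3),(0,5),(12,13),(3,3),(0,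
  6),(18,0),(2,3),(1,2)]⟩,⟨2,[(15,0),(3,0),(0,0),(24,0)]⟩⟩ ⟨true,0,⟨0,[(0,0)]⟩,⟨0,[(17,0),(2,0)]⟩⟩,
  .a ⟨true,1,⟨0,[(5,0)]⟩,⟨0,[(6,0)]⟩⟩ ⟨true,0,⟨0,[(22,0),(2,0)]⟩,⟨2,[(15,0),(3,0),(0,0),(24,0)]⟩⟩
  ⟨false,0,⟨0,[(0,0)]⟩,⟨2,[(5,0),(10,0),(14,0),(5,0),(4,0)]⟩⟩,.a ⟨true,1,⟨1,[(5,1),(31,0),(0,0)]⟩,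
  ⟨0,[(1,0)]⟩⟩ ⟨false,1,⟨17,[(8,3),(0,5),(12,13),(3,3),(0,6),(18,0),(2,3),(1,2)]⟩,⟨0,[(19,0)]⟩⟩
  ⟨true,0,⟨0,[(34,0)]⟩,⟨0,[(17,0),(2,0)]⟩⟩]⟩)))))) (.Q [0,0,0,0,0,1,0,0,0,0,0,-1] (.ed true [1,-1,0,
  0,1] .k) (.R ⟨0,false,false,true,[0,1,0,0,-1],[0,0,1,0,-1],[1,-1,1,1],(⟨0,[(0,0)]⟩,⟨0,[(29,0),(9,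
  0)]⟩),(⟨0,[(6,0)]⟩,⟨0,[(29,0),(5,0)]⟩),⟨0,[(29,0)]⟩,(.r (-1) ⟨7,[(14,1),(1,3),(10,1),(3,3),(2,3),
  (3,0),(6,3),(1,4)]⟩ ⟨0,[(43,0)]⟩),.k,.k,.k,.k,.k,⟨false,1,⟨2,[(5,0),(8,0),(1,2),(5,0)]⟩,⟨0,[(4,0),
  (2,0)]⟩⟩,⟨true,0,⟨0,[(33,0)]⟩,⟨0,[(21,0)]⟩⟩,⟨true,0,⟨0,[]⟩,⟨0,[(49,0)]⟩⟩,⟨false,0,⟨0,[(17,0)]⟩,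
  ⟨17,[(5,7),(8,1),(1,17),(5,1),(0,8),(18,2),(3,2)]⟩⟩,⟨false,0,⟨0,[]⟩,⟨0,[]⟩⟩,⟨false,0,⟨0,[]⟩,⟨0,
  []⟩⟩,[.e ⟨false,1,⟨3,[(14,1),(12,1),(10,0),(6,3),(1,0)]⟩,⟨0,[(43,0)]⟩⟩ ⟨false,0,⟨0,[(18,0)]⟩,⟨3,
  [(14,0),(4,2),(2,0),(9,0),(9,0),(3,0)]⟩⟩,.o ⟨false,2,⟨0,[(14,0),(3,0),(19,0)]⟩,⟨4,[(1,2),(5,1),(0,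
  0),(7,1),(15,1)]⟩⟩,.o ⟨false,2,⟨3,[(22,0),(3,4),(15,0),(3,0)]⟩,⟨0,[(1,0),(31,0)]⟩⟩,.a ⟨true,1,⟨0,
  [(26,0)]⟩,⟨1,[(1,1),(0,0),(5,0),(5,0),(3,0),(14,1),(11,1)]⟩⟩ ⟨false,1,⟨0,[(45,0),(1,0)]⟩,⟨0,[(44,
  0)]⟩⟩ ⟨true,0,⟨0,[(18,0)]⟩,⟨0,[(32,0)]⟩⟩]⟩) (.S ⟨1,0,[0,1],[0,0,0,0,1],[0,2],(⟨0,[(29,0)]⟩,⟨0,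
  [(28,0)]⟩),⟨0,[(0,0)]⟩,.k,(.r 0 ⟨0,[(43,0)]⟩ ⟨7,[(14,1),(1,3),(10,1),(3,3),(2,3),(3,0),(6,3),(1,
  4)]⟩),⟨true,0,⟨0,[(49,0)]⟩,⟨0,[]⟩⟩,⟨false,1,⟨3,[(14,1),(12,1),(10,0),(8,0)]⟩,⟨0,[]⟩⟩,⟨false,0,⟨0,
  [(45,0)]⟩,⟨0,[(44,0),(2,0)]⟩⟩,⟨true,0,⟨0,[(45,0)]⟩,⟨0,[(44,0)]⟩⟩,[.e ⟨false,0,⟨0,[(41,0)]⟩,⟨0,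
  [(47,0)]⟩⟩ ⟨false,0,⟨2,[(10,0),(30,0),(3,1)]⟩,⟨3,[(14,1),(12,1),(10,0),(8,0)]⟩⟩,.o ⟨false,0,⟨2,
  [(7,1),(19,0),(14,0),(4,0)]⟩,⟨0,[(26,0)]⟩⟩,.o ⟨false,0,⟨2,[(7,1),(19,0),(14,0),(4,0)]⟩,⟨0,[(26,
  0)]⟩⟩,.a ⟨true,(-1),⟨0,[(1,0),(31,0)]⟩,⟨2,[(10,0),(3,2),(26,0),(3,1)]⟩⟩ ⟨false,0,⟨2,[(10,0),(30,
  0),(3,1)]⟩,⟨1,[(33,0),(0,0),(12,1)]⟩⟩ ⟨true,0,⟨2,[(10,0),(30,0),(3,1)]⟩,⟨1,[(33,0),(0,0)]⟩⟩]⟩)))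
  (.Q [0,0,1,0,-1,0,-1,0,1,1,-1,1] (.p true [1,0,-1,0,1] [] (⟨0,[(27,0),(5,0)]⟩,⟨0,[(4,0)]⟩) .k 0
  (⟨0,[]⟩,⟨0,[]⟩) .k (.r 0 ⟨2,[(9,0),(3,0),(0,0),(24,0)]⟩ ⟨5,[(16,1),(4,2),(7,3),(10,0),(4,4)]⟩))
  (.S ⟨1,0,[0,1,0,0,0,0,0,-1],[1,0,-1,0,1],[1,2,0,-1,0,0,0,-1],(⟨0,[(28,0),(5,0)]⟩,⟨0,[(5,0)]⟩),⟨0,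
  [(23,0),(4,0)]⟩,.k,(.r 0 ⟨0,[(7,0),(36,0),(2,0)]⟩ ⟨0,[(30,0),(2,0),(10,0),(1,0)]⟩),⟨true,0,⟨0,
  [(43,0)]⟩,⟨0,[(44,0)]⟩⟩,⟨false,1,⟨3,[(13,1),(12,1),(10,0),(8,0)]⟩,⟨0,[]⟩⟩,⟨false,0,⟨0,[]⟩,⟨3,[(13,
  1),(12,1),(10,0),(8,0)]⟩⟩,⟨true,0,⟨0,[(44,0)]⟩,⟨0,[(43,0)]⟩⟩,[.e ⟨false,0,⟨3,[(10,2),(3,0),(25,1),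
  (2,0)]⟩,⟨0,[(4,0),(12,0),(15,0),(10,0)]⟩⟩ ⟨false,0,⟨4,[(7,2),(7,1),(24,0),(3,3)]⟩,⟨5,[(17,1),(4,
  2),(7,3),(10,0),(4,4)]⟩⟩,.o ⟨false,0,⟨21,[(0,9),(3,2),(1,4),(0,0),(6,6),(0,1),(2,11),(2,6),(19,
  4)]⟩,⟨0,[(1,0),(15,0),(2,0)]⟩⟩,.o ⟨false,0,⟨1,[(0,0),(20,0),(11,0)]⟩,⟨0,[(1,0)]⟩⟩,.a ⟨true,(-1),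
  ⟨0,[(0,0)]⟩,⟨1,[(1,0),(5,0),(5,0),(3,0),(26,1)]⟩⟩ ⟨false,0,⟨0,[(10,0)]⟩,⟨0,[(17,0),(15,0),(10,0),
  (1,0)]⟩⟩ ⟨true,0,⟨4,[(7,2),(7,1),(24,0),(3,3)]⟩,⟨0,[(17,0),(15,0)]⟩⟩]⟩) (.Q [0,-1,0,2,1,0,0,0,-1,
  0,0,-1] (.p false [0,0,0,0,1] [] (⟨0,[(28,0)]⟩,⟨0,[(27,0)]⟩) .k 0 (⟨0,[]⟩,⟨0,[]⟩) .k .k) (.R ⟨1,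
  false,false,false,[1,0,-1,0,1],[1,1,-1],[0,0,1],(⟨0,[(29,0),(5,0)]⟩,⟨0,[(6,0)]⟩),(⟨0,[(35,0),(4,
  0)]⟩,⟨0,[(25,0)]⟩),⟨0,[(24,0),(4,0)]⟩,.k,.k,(.r 0 ⟨0,[(8,0),(36,0),(2,0)]⟩ ⟨1,[(0,0),(17,0),(8,0),
  (3,0),(2,1),(12,0)]⟩),(.r 0 ⟨0,[(43,0)]⟩ ⟨7,[(0,3),(13,1),(12,5),(5,3),(0,3),(3,0),(8,0)]⟩),(.r 0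
  ⟨0,[(8,0),(8,0),(3,0),(23,0)]⟩ ⟨0,[(0,0),(26,0),(5,0),(0,0)]⟩),.k,⟨true,0,⟨0,[(17,0),(3,0)]⟩,⟨0,
  [(16,0)]⟩⟩,⟨false,1,⟨0,[(0,0),(9,0)]⟩,⟨1,[(27,1),(5,0),(0,0)]⟩⟩,⟨false,1,⟨0,[(18,0),(15,0),(12,
  0)]⟩,⟨4,[(0,1),(6,1),(0,2),(7,1),(24,0)]⟩⟩,⟨false,2,⟨7,[(0,3),(13,5),(12,1),(10,2),(8,2)]⟩,⟨0,[(3,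
  0)]⟩⟩,⟨false,1,⟨1,[(0,0),(6,0),(10,1),(15,1),(12,1)]⟩,⟨0,[(11,0)]⟩⟩,⟨true,1,⟨0,[(0,0)]⟩,⟨0,[(3,0),
  (40,0)]⟩⟩,[.a ⟨true,0,⟨1,[(0,0),(6,0),(11,1)]⟩,⟨0,[(17,0)]⟩⟩ ⟨true,0,⟨1,[(33,0),(0,0)]⟩,⟨0,[]⟩⟩
  ⟨false,1,⟨0,[(0,0),(10,0)]⟩,⟨5,[(7,1),(9,5),(5,2),(3,3),(14,0),(4,0)]⟩⟩,.o ⟨false,1,⟨17,[(0,3),(4,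
  1),(10,9),(2,7),(2,3),(0,4),(18,2),(4,4)]⟩,⟨0,[(13,0)]⟩⟩,.o ⟨false,0,⟨5,[(7,1),(15,2),(3,3),(14,
  0),(4,0)]⟩,⟨0,[(2,0)]⟩⟩,.o ⟨false,0,⟨0,[(27,0),(6,0)]⟩,⟨0,[(1,0)]⟩⟩]⟩) (.Q [0,0,0,0,0,0,0,0,0,-1,
  1,1] (.ed false [0,0,1,0,1] (.r 0 ⟨1,[(13,0),(9,0),(7,0),(13,0)]⟩ ⟨1,[(12,0),(2,0),(3,0),(27,
  0)]⟩)) (.Q [0,0,2,0,0,0,1,0,0,-1,1] (.p true [0,0,1] [1] (⟨0,[(37,0)]⟩,⟨0,[(36,0)]⟩) .k 1 (⟨0,[]⟩,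
  ⟨0,[]⟩) .k .k) (.S ⟨1,0,[0,1,-1,-1,0,0,0,1],[0,-1,1],[1,0,-1,-2,0,0,0,1],(⟨0,[(27,0)]⟩,⟨0,[(37,0),
  (4,0)]⟩),⟨0,[(1,0),(6,0),(2,0)]⟩,.k,(.r (-1) ⟨11,[(2,5),(3,8),(0,1),(8,1),(2,2),(4,4),(7,2)]⟩ ⟨1,
  [(18,1),(16,0),(0,0),(10,1)]⟩),⟨false,1,⟨0,[(46,0),(2,0)]⟩,⟨0,[(47,0)]⟩⟩,⟨true,0,⟨0,[(51,0)]⟩,⟨0,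
  []⟩⟩,⟨true,0,⟨0,[]⟩,⟨0,[(51,0)]⟩⟩,⟨false,0,⟨0,[(47,0)]⟩,⟨0,[(46,0),(2,0)]⟩⟩,[.o ⟨false,0,⟨0,[(15,
  0)]⟩,⟨17,[(7,7),(8,1),(1,17),(5,1),(0,8),(18,2),(3,2)]⟩⟩,.e ⟨false,1,⟨1,[(2,0),(3,1),(0,1),(1,
  0)]⟩,⟨4,[(18,5),(14,0),(2,0),(6,1),(3,3)]⟩⟩ ⟨false,1,⟨1,[(6,0),(12,0),(4,0),(7,0)]⟩,⟨0,[(18,0)]⟩⟩,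
  .a ⟨true,0,⟨0,[(35,0)]⟩,⟨0,[(32,0)]⟩⟩ ⟨false,1,⟨35,[(2,17),(3,21),(0,5),(11,13),(4,3),(0,6),(18,
  0),(4,20)]⟩,⟨0,[(18,0),(28,0)]⟩⟩ ⟨true,0,⟨0,[(6,0),(2,0)]⟩,⟨0,[(18,0)]⟩⟩,.o ⟨false,0,⟨0,[(0,0)]⟩,
  ⟨3,[(25,0),(6,1),(11,0),(3,2)]⟩⟩]⟩) (.Q [0,0,1,0,0,0,1,0,1,-2,1,1] (.p true [-1,0,1,0,1] [1] (⟨0,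
  [(1,0)]⟩,⟨0,[(30,0),(6,0)]⟩) .k 1 (⟨0,[]⟩,⟨0,[]⟩) .k (.r 0 ⟨1,[(15,0),(9,0),(7,0),(13,0)]⟩ ⟨1,
  [(14,0),(2,0),(3,0),(27,0)]⟩)) (.Q [0,0,0,0,0,-1,0,0,0,-1,1,1] (.p true [-1,0,1,0,1] [] (⟨0,[(2,
  0)]⟩,⟨0,[(31,0),(6,0)]⟩) .k 0 (⟨0,[]⟩,⟨0,[]⟩) .k (.r 0 ⟨1,[(16,0),(9,0),(7,0),(13,0)]⟩ ⟨1,[(15,0),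
  (2,0),(3,0),(27,0)]⟩)) (.Q [0,0,0,0,0,0,-1,0,-1,2,-1,-1] (.p false [-1,0,1,0,1] [1] (⟨0,[(3,0)]⟩,
  ⟨0,[(32,0),(6,0)]⟩) .k 1 (⟨0,[]⟩,⟨0,[]⟩) .k (.r 0 ⟨1,[(17,0),(9,0),(7,0),(13,0)]⟩ ⟨1,[(16,0),(2,
  0),(3,0),(27,0)]⟩)) (.R ⟨1,false,false,true,[-1,0,1,0,1],[0,0,0,0,1],[0,2,0,0,0,0,0,1],(⟨0,[(4,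
  0)]⟩,⟨0,[(33,0),(6,0)]⟩),(⟨0,[(34,0)]⟩,⟨0,[(33,0)]⟩),⟨0,[(1,0)]⟩,.k,.k,(.r 0 ⟨3,[(3,1),(14,2),(6,
  0),(2,0)]⟩ ⟨3,[(19,1),(1,3),(10,1),(10,0),(8,0)]⟩),.k,.k,.k,⟨true,0,⟨0,[(23,0),(2,0)]⟩,⟨0,[(20,
  0)]⟩⟩,⟨false,0,⟨0,[(35,0)]⟩,⟨3,[(2,0),(14,1),(13,1),(0,0),(5,0)]⟩⟩,⟨true,0,⟨0,[(54,0)]⟩,⟨0,[]⟩⟩,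
  ⟨false,0,⟨0,[(24,0)]⟩,⟨2,[(23,1),(12,0),(10,0),(4,1)]⟩⟩,⟨false,0,⟨0,[(50,0)]⟩,⟨0,[(49,0),(2,0)]⟩⟩,
  ⟨false,0,⟨0,[(24,0),(25,0)]⟩,⟨1,[(2,0),(6,0),(12,0),(29,0)]⟩⟩,[.o ⟨false,(-1),⟨5,[(0,2),(5,1),(5,
  10),(5,0),(2,0),(25,2),(5,0)]⟩,⟨1,[(19,1),(23,0),(8,0)]⟩⟩,.e ⟨false,0,⟨3,[(3,1),(14,2),(9,0),(7,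
  0),(13,2)]⟩,⟨1,[(17,0),(2,0),(3,0),(27,0)]⟩⟩ ⟨false,0,⟨5,[(0,0),(27,0),(3,0),(2,2),(10,2)]⟩,⟨3,
  [(2,0),(4,0),(2,0),(6,0),(20,0),(13,0)]⟩⟩,.a ⟨true,0,⟨2,[(2,0),(7,0),(1,1),(4,0),(20,0)]⟩,⟨0,[(0,
  0)]⟩⟩ ⟨false,0,⟨1,[(18,0),(9,0),(7,0),(13,0)]⟩,⟨0,[(10,0),(9,0)]⟩⟩ ⟨true,(-1),⟨5,[(0,8),(5,1),(5,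
  10),(5,0),(2,0),(25,2),(5,0)]⟩,⟨3,[(2,0),(4,0),(2,0),(6,0),(20,0),(13,0)]⟩⟩,.o ⟨false,0,⟨0,[(2,
  0)]⟩,⟨3,[(0,0),(2,0),(24,0),(2,2),(19,0)]⟩⟩]⟩) (.I [0,0,-1,-1,0,0,0,2] (.R ⟨1,false,false,true,
  [-1,0,1,0,1],[1,1,-1],[0,1,0,0,0,0,0,1],(⟨0,[(5,0)]⟩,⟨0,[(34,0),(6,0)]⟩),(⟨0,[(41,0),(4,0)]⟩,⟨0,
  [(31,0)]⟩),⟨0,[(2,0)]⟩,.k,.k,(.r 0 ⟨9,[(0,4),(15,0),(30,2),(2,2)]⟩ ⟨3,[(20,1),(1,3),(10,1),(10,0),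
  (8,0)]⟩),(.r 0 ⟨7,[(0,6),(25,0),(10,0),(2,1),(6,2)]⟩ ⟨1,[(18,0),(2,0),(0,1),(2,0),(27,0)]⟩),(.r 0
  ⟨4,[(0,4),(15,1),(30,0),(2,0)]⟩ ⟨3,[(20,1),(1,7),(10,1),(10,0),(8,0)]⟩),.k,⟨true,0,⟨0,[(0,0)]⟩,⟨0,
  [(21,0),(0,0)]⟩⟩,⟨false,1,⟨6,[(4,5),(15,3),(8,3),(2,2),(14,1)]⟩,⟨0,[(1,0),(37,0)]⟩⟩,⟨false,1,⟨3,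
  [(20,1),(12,1),(10,0),(8,0)]⟩,⟨0,[]⟩⟩,⟨false,1,⟨0,[(4,0),(15,0),(0,0),(0,0),(4,0)]⟩,⟨1,[(0,0),(0,
  0),(1,0),(19,0),(0,0)]⟩⟩,⟨true,0,⟨0,[(51,0)]⟩,⟨0,[(50,0)]⟩⟩,⟨false,1,⟨0,[(4,0),(15,0),(1,1),(4,
  0)]⟩,⟨0,[(0,0),(0,0),(19,0),(1,0)]⟩⟩,[.o ⟨false,0,⟨0,[(38,0),(12,0)]⟩,⟨1,[(3,0),(6,0),(12,0),(29,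
  0)]⟩⟩,.a ⟨true,0,⟨0,[(25,0),(25,0)]⟩,⟨0,[(23,0)]⟩⟩ ⟨true,0,⟨2,[(0,0),(23,0),(15,0),(10,0)]⟩,⟨0,
  [(21,0)]⟩⟩ ⟨false,1,⟨6,[(4,2),(15,6),(4,1),(3,1),(8,4),(8,0),(3,6)]⟩,⟨0,[(1,0),(21,0)]⟩⟩,.o
  ⟨false,0,⟨0,[(1,0)]⟩,⟨1,[(20,0),(8,0),(2,0),(22,0)]⟩⟩,.o ⟨false,0,⟨0,[(3,0)]⟩,⟨6,[(4,2),(15,1),(8,
  1),(2,4),(14,0)]⟩⟩]⟩) (.Q [0,0,0,2,0,0,-1,-1,0,0,-1] (.p false [0,0,1] [] (⟨0,[(42,0)]⟩,⟨0,[(41,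
  0)]⟩) .k 0 (⟨0,[]⟩,⟨0,[]⟩) .k .k) (.R ⟨1,false,false,true,[1,-1],[1,0,-1],[0,1,1,0,0,0,0,-1],(⟨0,
  [(46,0)]⟩,⟨0,[(47,0)]⟩),(⟨0,[(42,0)]⟩,⟨0,[(43,0)]⟩),⟨1,[(16,0),(15,0),(13,0)]⟩,.k,.k,(.r (-1) ⟨4,
  [(7,1),(3,1),(3,1),(5,1),(7,1),(24,0)]⟩ ⟨0,[(40,0),(0,0),(10,1)]⟩),.k,(.r (-1) ⟨17,[(5,3),(1,8),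
  (3,13),(9,2),(2,3),(4,6),(4,0),(19,2)]⟩ ⟨1,[(0,1),(39,2),(0,0)]⟩),.k,⟨true,0,⟨1,[(40,0),(0,0)]⟩,
  ⟨0,[]⟩⟩,⟨false,1,⟨4,[(5,0),(24,1),(18,0),(3,3)]⟩,⟨0,[(40,0)]⟩⟩,⟨false,0,⟨1,[(23,1),(16,0),(0,0)]⟩,
  ⟨5,[(5,2),(5,0),(0,2),(11,4),(4,0),(0,0),(18,0)]⟩⟩,⟨true,0,⟨1,[(0,0),(38,0),(16,0)]⟩,⟨0,[(24,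
  0)]⟩⟩,⟨false,0,⟨1,[(0,1),(39,2),(0,0)]⟩,⟨11,[(5,2),(1,5),(3,6),(0,8),(11,4),(4,0),(0,0),(18,0)]⟩⟩,
  ⟨false,0,⟨0,[(0,0)]⟩,⟨0,[(24,0),(26,0),(2,0)]⟩⟩,[.o ⟨false,0,⟨0,[(39,0)]⟩,⟨2,[(25,1),(12,0),(10,
  0),(4,1)]⟩⟩,.a ⟨true,0,⟨0,[(26,0)]⟩,⟨0,[(25,0)]⟩⟩ ⟨true,0,⟨0,[(1,0),(22,0),(3,0)]⟩,⟨0,[(25,0),(2,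
  0)]⟩⟩ ⟨false,1,⟨24,[(0,3),(4,3),(6,1),(2,3),(10,16),(22,6),(3,15)]⟩,⟨1,[(25,1),(14,0),(0,0)]⟩⟩,.o
  ⟨false,0,⟨1,[(40,0),(0,0)]⟩,⟨3,[(29,0),(3,0),(15,0),(3,0)]⟩⟩,.o ⟨false,0,⟨0,[(40,0),(0,0)]⟩,⟨12,
  [(2,0),(2,4),(2,3),(20,2),(19,2),(3,2)]⟩⟩]⟩) (.I [0,0,1,1,0,0,0,-2] (.Q [0,0,0,0,0,-1,0,0,0,0,1,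
  -1] (.p false [1,0,-1,0,1] [1] (⟨0,[(37,0),(5,0)]⟩,⟨0,[(14,0)]⟩) .k 1 (⟨0,[]⟩,⟨0,[]⟩) .k (.r 0
  ⟨12,[(2,5),(13,0),(32,3),(2,3)]⟩ ⟨5,[(26,1),(4,2),(7,3),(10,0),(4,4)]⟩)) (.R ⟨1,false,false,false,
  [0,0,1,0,-1],[1,0,-1],[1,0,0,-1,0,0,0,1],(⟨0,[(15,0)]⟩,⟨0,[(38,0),(5,0)]⟩),(⟨0,[(44,0)]⟩,⟨0,[(45,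
  0)]⟩),⟨0,[(0,0)]⟩,.k,.k,(.r (-1) ⟨17,[(13,3),(0,5),(11,13),(4,3),(0,6),(18,0),(4,2)]⟩ ⟨0,[(25,0),
  (32,0)]⟩),.k,(.r (-1) ⟨9,[(7,0),(5,0),(0,4),(11,8),(0,9),(3,0),(0,8),(18,2)]⟩ ⟨0,[(3,0),(54,0)]⟩),
  .k,⟨true,0,⟨0,[(26,0),(0,0),(2,1)]⟩,⟨0,[(1,0)]⟩⟩,⟨false,0,⟨6,[(7,1),(6,0),(1,1),(14,0),(0,5),(3,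
  3)]⟩,⟨0,[(10,0),(31,0)]⟩⟩,⟨true,0,⟨0,[(53,0)]⟩,⟨0,[(54,0)]⟩⟩,⟨true,(-1),⟨1,[(3,1),(3,0),(1,0),(6,
  0),(13,0),(1,0)]⟩,⟨0,[(10,0),(16,1),(15,0)]⟩⟩,⟨false,0,⟨0,[]⟩,⟨3,[(23,1),(12,1),(10,0),(8,0)]⟩⟩,
  ⟨true,(-1),⟨1,[(3,1),(3,0),(8,1),(13,0),(1,0)]⟩,⟨0,[(10,0),(15,0),(0,0),(15,0)]⟩⟩,[.a ⟨true,0,⟨0,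
  [(28,0)]⟩,⟨0,[(27,0)]⟩⟩ ⟨true,0,⟨0,[(26,0),(3,0)]⟩,⟨0,[(25,0)]⟩⟩ ⟨false,0,⟨10,[(4,1),(2,0),(6,2),
  (1,5),(11,10),(2,2),(0,5)]⟩,⟨0,[(11,0),(15,0)]⟩⟩,.o ⟨false,1,⟨1,[(28,1),(18,0),(8,0)]⟩,⟨0,[(22,0),
  (31,0)]⟩⟩,.o ⟨false,1,⟨0,[(11,0)]⟩,⟨2,[(4,0),(27,1),(3,1)]⟩⟩,.o ⟨false,1,⟨1,[(11,1),(30,0),(0,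
  0)]⟩,⟨10,[(4,1),(2,0),(6,2),(1,5),(14,2),(0,5)]⟩⟩]⟩) (.R ⟨0,false,false,false,[0,0,1,0,-1],[0,0,
  1],[0,0,1],(⟨0,[(15,0)]⟩,⟨0,[(38,0),(5,0)]⟩),(⟨0,[(45,0)]⟩,⟨0,[(44,0)]⟩),⟨0,[(0,0)]⟩,.k,.k,(.r
  (-1) ⟨17,[(13,3),(0,5),(11,13),(4,3),(0,6),(18,0),(4,2)]⟩ ⟨0,[(25,0),(32,0)]⟩),.k,.k,.k,⟨true,0,
  ⟨0,[(1,0),(0,0),(27,0),(23,0)]⟩,⟨0,[(27,0),(2,0)]⟩⟩,⟨false,0,⟨2,[(14,0),(1,1),(19,0),(18,0)]⟩,⟨0,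
  [(35,0)]⟩⟩,⟨false,0,⟨0,[(1,0),(0,0),(27,0),(23,0)]⟩,⟨17,[(13,3),(0,5),(12,13),(3,3),(0,6),(18,0),
  (2,3),(1,2)]⟩⟩,⟨true,(-1),⟨0,[(16,0)]⟩,⟨0,[(35,0)]⟩⟩,⟨false,0,⟨0,[]⟩,⟨0,[]⟩⟩,⟨false,0,⟨0,[]⟩,⟨0,
  []⟩⟩,[.a ⟨true,0,⟨0,[(27,0)]⟩,⟨0,[(28,0)]⟩⟩ ⟨true,0,⟨1,[(42,0),(0,0)]⟩,⟨0,[]⟩⟩ ⟨false,0,⟨10,[(4,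
  1),(2,0),(6,2),(1,5),(10,10),(3,2),(0,5)]⟩,⟨6,[(3,1),(7,3),(5,0),(5,2),(8,0),(8,1)]⟩⟩,.o ⟨false,1,
  ⟨2,[(27,1),(12,0),(10,0),(4,1)]⟩,⟨0,[(41,0)]⟩⟩,.o ⟨false,1,⟨0,[(11,0)]⟩,⟨2,[(4,0),(27,1),(3,1)]⟩⟩,
  .o ⟨false,1,⟨1,[(11,1),(30,0),(0,0)]⟩,⟨10,[(4,1),(2,0),(6,2),(1,5),(14,2),(0,5)]⟩⟩]⟩)) (.N [0,-1,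
  2] 0 ⟨0,[(0,0)]⟩ ⟨0,[(2,0)]⟩ (.x (-1) ⟨2,[(5,1),(4,0),(9,0),(13,0),(6,1),(1,5),(4,2)]⟩ ⟨1,[(4,1),
  (1,0),(7,1),(14,0),(1,0)]⟩)))))) (.Q [0,2,0,-1,-1,0,2,2,1,-2,2,1] (.p true [0,0,1] [2,0,-1,0,-1]
  (⟨0,[(40,0)]⟩,⟨0,[(39,0)]⟩) .k 2 (⟨0,[(0,0),(42,0)]⟩,⟨0,[(3,0)]⟩) .k (.r 0 ⟨0,[(17,0),(4,0),(4,0),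
  (21,0)]⟩ ⟨4,[(9,2),(2,0),(3,1),(2,4),(0,1),(2,1)]⟩)) (.Q [0,0,0,0,0,0,1,0,1,-2,1,1] (.p true [-1,
  0,1,0,1] [1] (⟨0,[(4,0)]⟩,⟨0,[(1,0),(42,0)]⟩) .k 1 (⟨0,[]⟩,⟨0,[]⟩) .k (.r 0 ⟨12,[(0,1),(8,1),(18,
  3),(7,6),(2,2),(6,0),(3,3)]⟩ ⟨1,[(17,0),(2,0),(3,0),(27,0)]⟩)) (.R ⟨0,false,false,false,[-1,0,1,0,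
  1],[1,1,-1],[1,0,1,1,0,0,0,-1],(⟨0,[(5,0)]⟩,⟨0,[(2,0),(42,0)]⟩),(⟨0,[(2,0),(32,0)]⟩,⟨0,[(31,0)]⟩),
  ⟨0,[(2,0)]⟩,.k,.k,(.r 0 ⟨48,[(1,11),(2,10),(5,11),(5,5),(9,12),(2,12),(17,2)]⟩ ⟨3,[(20,1),(1,3),
  (10,1),(10,0),(8,0)]⟩),(.r 0 ⟨10,[(1,4),(2,2),(5,4),(13,5),(1,0),(2,6)]⟩ ⟨1,[(18,0),(2,0),(0,1),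
  (2,0),(27,0)]⟩),.k,.k,⟨true,0,⟨0,[]⟩,⟨1,[(39,0),(0,0)]⟩⟩,⟨false,1,⟨6,[(4,5),(15,3),(8,3),(2,2),
  (14,1)]⟩,⟨0,[(0,0),(38,0)]⟩⟩,⟨false,1,⟨0,[(11,0),(9,0),(0,0)]⟩,⟨10,[(1,4),(2,2),(5,4),(13,5),(1,
  0),(2,6)]⟩⟩,⟨true,1,⟨0,[(4,0),(15,0),(0,0),(0,0),(4,0)]⟩,⟨0,[(1,0)]⟩⟩,⟨false,0,⟨0,[]⟩,⟨0,[]⟩⟩,
  ⟨false,0,⟨0,[]⟩,⟨0,[]⟩⟩,[.a ⟨true,0,⟨0,[(25,0),(25,0)]⟩,⟨0,[(23,0)]⟩⟩ ⟨true,0,⟨0,[(22,0)]⟩,⟨0,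
  [(23,0),(3,0)]⟩⟩ ⟨false,1,⟨6,[(4,2),(15,6),(4,1),(3,1),(8,4),(8,0),(3,6)]⟩,⟨0,[(0,0),(22,0)]⟩⟩,.o
  ⟨false,1,⟨17,[(11,7),(8,1),(1,17),(5,1),(0,8),(18,2),(3,2)]⟩,⟨0,[(19,0)]⟩⟩,.o ⟨false,0,⟨0,[(0,
  0)]⟩,⟨1,[(20,0),(8,0),(2,0),(22,0)]⟩⟩,.o ⟨false,0,⟨0,[(3,0)]⟩,⟨6,[(4,2),(15,1),(8,1),(2,4),(14,
  0)]⟩⟩]⟩) (.R ⟨0,false,false,true,[-1,0,1,0,1],[0,0,1],[1,1,1],(⟨0,[(5,0)]⟩,⟨0,[(2,0),(42,0)]⟩),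
  (⟨0,[(42,0)]⟩,⟨0,[(41,0)]⟩),⟨0,[(2,0)]⟩,.k,.k,(.r 0 ⟨48,[(1,11),(2,10),(5,11),(5,5),(9,12),(2,12),
  (17,2)]⟩ ⟨3,[(20,1),(1,3),(10,1),(10,0),(8,0)]⟩),.k,.k,.k,⟨true,0,⟨0,[(21,0)]⟩,⟨0,[(24,0),(2,
  0)]⟩⟩,⟨false,1,⟨4,[(0,1),(6,0),(12,1),(18,0),(7,0),(4,1)]⟩,⟨20,[(3,9),(7,3),(1,7),(14,2),(0,4),
  (18,0)]⟩⟩,⟨true,0,⟨0,[(21,0)]⟩,⟨22,[(1,5),(2,6),(5,5),(18,4),(7,4),(9,2),(3,11)]⟩⟩,⟨false,1,⟨0,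
  [(20,0)]⟩,⟨20,[(3,9),(7,3),(1,7),(14,2),(0,4),(18,0)]⟩⟩,⟨false,0,⟨0,[]⟩,⟨0,[]⟩⟩,⟨false,0,⟨0,[]⟩,
  ⟨0,[]⟩⟩,[.o ⟨false,0,⟨5,[(0,0),(0,1),(6,0),(28,1),(10,0),(2,1)]⟩,⟨1,[(25,1),(18,0),(8,0)]⟩⟩,.e
  ⟨false,0,⟨0,[]⟩,⟨4,[(20,1),(7,1),(3,0),(0,0),(13,0)]⟩⟩ ⟨false,1,⟨3,[(0,1),(9,1),(9,0),(3,0),(3,0),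
  (8,0),(13,1)]⟩,⟨4,[(3,1),(7,1),(1,2),(0,0),(7,1),(2,1),(22,0)]⟩⟩,.a ⟨true,0,⟨2,[(3,0),(7,0),(1,1),
  (4,0),(20,0)]⟩,⟨0,[(0,0)]⟩⟩ ⟨false,0,⟨1,[(39,0),(0,0)]⟩,⟨2,[(11,0),(8,0),(7,0)]⟩⟩ ⟨true,0,⟨5,[(0,
  6),(0,1),(6,0),(28,1),(10,0),(2,1)]⟩,⟨4,[(3,1),(7,1),(1,2),(0,0),(7,1),(2,1),(22,0)]⟩⟩,.o ⟨false,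
  0,⟨0,[(3,0)]⟩,⟨5,[(0,3),(28,0),(2,1),(15,0),(3,2)]⟩⟩]⟩)) (.Q [0,0,0,0,0,0,1,0,1,-2,1,1] (.p true
  [-1,0,1,0,1] [1] (⟨0,[(4,0)]⟩,⟨0,[(1,0),(42,0)]⟩) .k 1 (⟨0,[]⟩,⟨0,[]⟩) .k (.r 0 ⟨1,[(18,0),(9,0),
  (7,0),(13,0)]⟩ ⟨14,[(0,1),(12,0),(3,3),(1,1),(0,9),(6,1),(4,1),(19,4)]⟩)) (.R ⟨0,false,false,
  false,[-1,0,1,0,1],[0,-1,1],[1],(⟨0,[(5,0)]⟩,⟨0,[(2,0),(42,0)]⟩),(⟨0,[(31,0)]⟩,⟨0,[(2,0),(32,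
  0)]⟩),⟨0,[(2,0)]⟩,.k,.k,(.r 0 ⟨3,[(4,1),(14,2),(6,0),(2,0)]⟩ ⟨3,[(20,1),(1,3),(10,1),(10,0),(8,
  0)]⟩),(.r 0 ⟨4,[(22,2),(14,2),(2,2),(6,0),(3,1)]⟩ ⟨4,[(6,0),(3,0),(3,0),(5,0),(7,0),(24,2)]⟩),.k,
  .k,⟨true,0,⟨0,[(22,0)]⟩,⟨0,[(23,0),(3,0)]⟩⟩,⟨false,1,⟨0,[(20,0),(34,0)]⟩,⟨10,[(0,7),(3,3),(6,0),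
  (1,1),(14,0),(0,1)]⟩⟩,⟨false,1,⟨0,[(11,0),(9,0)]⟩,⟨1,[(19,0),(9,0),(7,0),(13,0)]⟩⟩,⟨true,1,⟨6,[(1,
  2),(4,1),(1,1),(1,0),(9,2),(2,4),(16,0)]⟩,⟨0,[(7,0),(5,1),(26,0),(10,0)]⟩⟩,⟨false,0,⟨0,[]⟩,⟨0,
  []⟩⟩,⟨false,0,⟨0,[]⟩,⟨0,[]⟩⟩,[.a ⟨true,0,⟨0,[(23,0)]⟩,⟨10,[(1,4),(11,4),(8,1),(6,0),(7,0),(9,1),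
  (3,3)]⟩⟩ ⟨true,0,⟨0,[]⟩,⟨1,[(39,0),(0,0)]⟩⟩ ⟨false,1,⟨1,[(10,0),(9,0),(5,0),(9,0)]⟩,⟨6,[(0,4),(0,
  1),(11,2),(8,1),(5,0),(9,0),(12,2)]⟩⟩,.o ⟨false,1,⟨1,[(3,0),(6,0),(12,0),(29,0)]⟩,⟨0,[(38,0),(12,
  0)]⟩⟩,.o ⟨false,0,⟨0,[(0,0)]⟩,⟨1,[(20,0),(8,0),(2,0),(22,0)]⟩⟩,.o ⟨false,0,⟨0,[(3,0)]⟩,⟨18,[(1,4),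
  (2,0),(5,9),(9,3),(8,3),(17,6),(3,4)]⟩⟩]⟩) (.R ⟨0,false,false,true,[-1,0,1,0,1],[0,0,1],[1,1,1],
  (⟨0,[(5,0)]⟩,⟨0,[(2,0),(42,0)]⟩),(⟨0,[(42,0)]⟩,⟨0,[(41,0)]⟩),⟨0,[(2,0)]⟩,.k,.k,(.r 0 ⟨3,[(4,1),
  (14,2),(6,0),(2,0)]⟩ ⟨3,[(20,1),(1,3),(10,1),(10,0),(8,0)]⟩),.k,.k,.k,⟨true,0,⟨0,[(21,0)]⟩,⟨0,
  [(24,0),(2,0)]⟩⟩,⟨false,1,⟨4,[(0,1),(6,0),(12,1),(18,0),(7,0),(4,1)]⟩,⟨20,[(3,9),(7,3),(1,7),(14,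
  2),(0,4),(18,0)]⟩⟩,⟨true,0,⟨0,[(21,0)]⟩,⟨3,[(4,1),(14,2),(9,0),(7,0),(13,2)]⟩⟩,⟨false,1,⟨0,[(20,
  0)]⟩,⟨20,[(3,9),(7,3),(1,7),(14,2),(0,4),(18,0)]⟩⟩,⟨false,0,⟨0,[]⟩,⟨0,[]⟩⟩,⟨false,0,⟨0,[]⟩,⟨0,
  []⟩⟩,[.o ⟨false,0,⟨0,[(19,0),(31,0)]⟩,⟨5,[(1,2),(4,0),(26,1),(10,2),(5,0),(2,0)]⟩⟩,.e ⟨false,0,⟨0,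
  []⟩,⟨4,[(20,1),(7,1),(3,0),(0,0),(13,0)]⟩⟩ ⟨false,1,⟨3,[(0,1),(9,1),(9,0),(3,0),(3,0),(8,0),(13,
  1)]⟩,⟨30,[(1,9),(1,25),(0,5),(8,12),(0,6),(7,3),(5,1),(19,0)]⟩⟩,.a ⟨true,0,⟨2,[(3,0),(7,0),(1,1),
  (4,0),(20,0)]⟩,⟨0,[(0,0)]⟩⟩ ⟨false,0,⟨1,[(39,0),(0,0)]⟩,⟨2,[(11,0),(8,0),(7,0)]⟩⟩ ⟨true,0,⟨0,[(0,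
  0),(18,0),(31,0)]⟩,⟨30,[(1,9),(1,25),(0,5),(8,12),(0,6),(7,3),(5,1),(19,0)]⟩⟩,.o ⟨false,0,⟨0,[(3,
  0)]⟩,⟨4,[(0,0),(0,0),(8,1),(18,0),(2,0),(14,0),(3,0),(0,0)]⟩⟩]⟩)))) (.Q [0,0,0,0,0,-1,0,0,0,-1,1,
  1] (.p true [-1,0,1,0,1] [] (⟨0,[(2,0)]⟩,⟨0,[(31,0),(6,0)]⟩) .k 0 (⟨0,[]⟩,⟨0,[]⟩) .k (.r 0 ⟨1,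
  [(16,0),(9,0),(7,0),(13,0)]⟩ ⟨1,[(15,0),(2,0),(3,0),(27,0)]⟩)) (.S ⟨1,0,[0,2,0,0,0,0,0,1],[-1,0,1,
  0,1],[1,1,0,-1,0,0,0,1],(⟨0,[(3,0)]⟩,⟨0,[(32,0),(6,0)]⟩),⟨0,[(0,0)]⟩,.k,(.r 0 ⟨3,[(2,1),(14,2),(6,
  0),(2,0)]⟩ ⟨3,[(18,1),(1,3),(10,1),(10,0),(8,0)]⟩),⟨false,1,⟨0,[(48,0),(2,0)]⟩,⟨0,[(49,0)]⟩⟩,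
  ⟨true,0,⟨0,[(53,0)]⟩,⟨0,[]⟩⟩,⟨true,0,⟨0,[]⟩,⟨0,[(53,0)]⟩⟩,⟨false,0,⟨0,[(49,0)]⟩,⟨0,[(48,0),(2,
  0)]⟩⟩,[.e ⟨false,0,⟨3,[(2,1),(14,2),(6,0),(2,0)]⟩,⟨2,[(9,0),(8,0),(1,2),(5,0)]⟩⟩ ⟨false,0,⟨7,[(2,
  1),(14,4),(9,2),(7,2),(9,3),(3,4)]⟩,⟨0,[(9,0),(9,0)]⟩⟩,.o ⟨false,0,⟨12,[(11,9),(10,9),(3,1),(4,0),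
  (3,2),(10,7),(5,3)]⟩,⟨2,[(1,1),(16,0),(0,1),(3,0),(22,0),(4,0)]⟩⟩,.e ⟨false,0,⟨0,[(21,0),(3,0)]⟩,
  ⟨2,[(9,0),(8,0),(1,2),(5,0)]⟩⟩ ⟨false,0,⟨1,[(17,0),(9,0),(7,0),(13,0)]⟩,⟨0,[(9,0),(9,0)]⟩⟩,.a
  ⟨true,0,⟨2,[(11,1),(19,0),(5,2),(8,0),(4,0)]⟩,⟨0,[(1,0)]⟩⟩ ⟨true,0,⟨3,[(2,1),(14,2),(6,0),(2,0)]⟩,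
  ⟨0,[(20,0)]⟩⟩ ⟨false,0,⟨3,[(2,1),(14,2),(9,0),(7,0),(13,2)]⟩,⟨0,[(19,0),(31,0)]⟩⟩]⟩) (.R ⟨0,false,
  false,false,[-1,0,1,0,1],[0,0,0,0,1],[0,1,0,0,0,0,0,1],(⟨0,[(3,0)]⟩,⟨0,[(0,0),(42,0)]⟩),(⟨0,[(33,
  0)]⟩,⟨0,[(32,0)]⟩),⟨0,[(0,0)]⟩,.k,.k,(.r 0 ⟨3,[(2,1),(14,2),(6,0),(2,0)]⟩ ⟨3,[(18,1),(1,3),(10,1),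
  (10,0),(8,0)]⟩),.k,.k,.k,⟨true,0,⟨0,[(22,0),(2,0)]⟩,⟨0,[(19,0)]⟩⟩,⟨false,0,⟨0,[(34,0)]⟩,⟨3,[(16,
  1),(13,0),(0,0),(5,1),(4,0)]⟩⟩,⟨false,1,⟨3,[(18,1),(12,1),(10,0),(8,0)]⟩,⟨0,[]⟩⟩,⟨true,0,⟨0,[(23,
  0)]⟩,⟨0,[(17,0),(31,0)]⟩⟩,⟨false,0,⟨0,[]⟩,⟨0,[]⟩⟩,⟨false,0,⟨0,[]⟩,⟨0,[]⟩⟩,[.e ⟨false,0,⟨3,[(2,1),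
  (14,2),(9,0),(7,0),(13,2)]⟩,⟨1,[(16,0),(2,0),(3,0),(27,0)]⟩⟩ ⟨false,0,⟨3,[(1,0),(25,0),(3,0),(2,
  0),(10,1)]⟩,⟨3,[(9,1),(6,0),(20,2),(8,0)]⟩⟩,.o ⟨false,0,⟨2,[(11,1),(19,0),(14,0),(4,0)]⟩,⟨0,[(30,
  0)]⟩⟩,.e ⟨false,0,⟨0,[(22,0),(2,0)]⟩,⟨1,[(16,0),(2,0),(3,0),(27,0)]⟩⟩ ⟨false,0,⟨3,[(1,0),(25,1),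
  (3,0),(5,0)]⟩,⟨3,[(9,1),(6,0),(20,2),(8,0)]⟩⟩,.a ⟨true,0,⟨2,[(11,1),(19,0),(5,2),(8,0),(4,0)]⟩,⟨0,
  [(1,0)]⟩⟩ ⟨true,0,⟨3,[(2,1),(14,2),(9,0),(7,0),(13,2)]⟩,⟨0,[(19,0)]⟩⟩ ⟨false,0,⟨0,[(34,0)]⟩,⟨1,
  [(37,1),(4,0),(8,0)]⟩⟩]⟩)))) (.R ⟨1,false,false,true,[0,0,1,0,1],[0,0,0,0,1],[0,1,0,0,0,0,0,1],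
  (⟨0,[(30,0),(6,0)]⟩,⟨0,[(0,0)]⟩),(⟨0,[(30,0)]⟩,⟨0,[(29,0)]⟩),⟨0,[(26,0),(3,0)]⟩,.k,.k,(.r 0 ⟨0,
  [(5,0),(2,0)]⟩ ⟨3,[(15,1),(1,3),(10,1),(10,0),(8,0)]⟩),.k,.k,.k,⟨false,1,⟨17,[(5,3),(0,5),(12,13),
  (3,3),(0,6),(18,0),(2,3),(1,2)]⟩,⟨2,[(12,0),(3,0),(0,0),(24,0)]⟩⟩,⟨true,0,⟨0,[(22,0)]⟩,⟨0,[(34,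
  0)]⟩⟩,⟨false,1,⟨3,[(15,1),(12,1),(10,0),(8,0)]⟩,⟨0,[]⟩⟩,⟨true,0,⟨0,[(33,0)]⟩,⟨0,[(19,0)]⟩⟩,⟨true,
  0,⟨0,[(46,0)]⟩,⟨0,[(45,0)]⟩⟩,⟨true,0,⟨0,[(33,0),(12,0)]⟩,⟨0,[(18,0)]⟩⟩,[.o ⟨false,(-1),⟨0,[(2,0),
  (5,1),(26,0)]⟩,⟨1,[(15,1),(23,0),(8,0)]⟩⟩,.a ⟨true,(-1),⟨0,[(8,0)]⟩,⟨0,[(15,0)]⟩⟩ ⟨true,0,⟨0,[(19,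
  0),(2,0)]⟩,⟨0,[(16,0)]⟩⟩ ⟨false,0,⟨2,[(2,0),(5,0),(13,2),(8,0),(10,0)]⟩,⟨2,[(6,0),(6,0),(1,0),(12,
  0),(5,1)]⟩⟩,.o ⟨false,0,⟨3,[(6,1),(1,3),(4,0),(20,2),(8,0)]⟩,⟨0,[(3,0),(20,0)]⟩⟩,.o ⟨false,0,⟨2,
  [(8,1),(19,0),(5,2),(8,0),(4,0)]⟩,⟨0,[(2,0),(21,0)]⟩⟩]⟩))))) (.R ⟨1,false,false,true,[0,0,1],[0,0,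
  1,0,-1],[1,0,1],(⟨0,[(33,0)]⟩,⟨0,[(32,0)]⟩),(⟨0,[(3,0)]⟩,⟨0,[(26,0),(5,0)]⟩),⟨0,[(22,0)]⟩,.k,.k,
  .k,.k,(.r 0 ⟨0,[(40,0)]⟩ ⟨1,[(0,1),(23,1),(5,0),(0,0)]⟩),.k,⟨true,0,⟨0,[(12,0)]⟩,⟨0,[(15,0),(2,
  0)]⟩⟩,⟨false,1,⟨3,[(0,2),(0,0),(3,0),(32,0)]⟩,⟨0,[(24,0)]⟩⟩,⟨true,0,⟨0,[(12,0)]⟩,⟨0,[(1,0),(2,0),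
  (37,0)]⟩⟩,⟨true,1,⟨0,[(23,0)]⟩,⟨0,[(4,0)]⟩⟩,⟨true,0,⟨0,[(13,0)]⟩,⟨0,[(1,0),(2,0)]⟩⟩,⟨false,1,⟨0,
  [(0,0)]⟩,⟨6,[(4,1),(0,1),(6,0),(1,2),(9,4),(6,2),(12,1)]⟩⟩,[.o ⟨false,1,⟨0,[(0,0),(9,0)]⟩,⟨2,[(4,
  1),(11,2),(7,0),(14,0),(4,0)]⟩⟩,.a ⟨true,1,⟨0,[(0,0),(13,0)]⟩,⟨0,[(4,0),(11,0)]⟩⟩ ⟨false,1,⟨3,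
  [(11,1),(12,1),(10,0),(8,0)]⟩,⟨2,[(7,0),(30,0),(3,1)]⟩⟩ ⟨true,1,⟨0,[(0,0),(13,0),(3,0)]⟩,⟨0,[(4,
  0),(7,0)]⟩⟩,.o ⟨false,1,⟨3,[(9,1),(13,0),(0,0),(5,1),(4,0)]⟩,⟨0,[(18,0)]⟩⟩,.e ⟨true,0,⟨0,[]⟩,⟨0,
  [(46,0)]⟩⟩ ⟨true,1,⟨0,[(1,0),(40,0)]⟩,⟨0,[(4,0),(7,0)]⟩⟩]⟩)))))

theorem ok20 : chk K t20 r20 = true := by decide +kernel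

noncomputable def t26 : Tre :=
  (.Q [0,0,0,2,0,0,-1,-1,0,0,-1] (.p false [0,0,1] [] (⟨0,[(24,0)]⟩,⟨0,[(23,0)]⟩) .k 0 (⟨0,[]⟩,⟨0,
  []⟩) .k .k) (.R ⟨1,false,false,true,[1,-1],[1,0,-1],[1,0,1],(⟨0,[(28,0)]⟩,⟨0,[(29,0)]⟩),(⟨0,[(24,
  0)]⟩,⟨0,[(25,0)]⟩),⟨0,[(13,0),(0,0)]⟩,.k,.k,(.r (-1) ⟨0,[(32,1),(3,0)]⟩ ⟨0,[(22,0),(0,0),(10,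
  1)]⟩),.k,(.r (-1) ⟨3,[(6,3),(5,0),(6,1),(11,0),(0,3),(2,0),(0,1)]⟩ ⟨1,[(5,1),(16,0),(0,0),(10,
  1)]⟩),.k,⟨true,0,⟨3,[(1,2),(5,3),(15,0),(7,0),(4,1)]⟩,⟨0,[(5,0),(26,0)]⟩⟩,⟨false,1,⟨3,[(12,0),(6,
  1),(11,0),(3,2)]⟩,⟨0,[(22,0)]⟩⟩,⟨false,0,⟨3,[(1,2),(20,3),(0,0),(7,0),(2,3),(1,1)]⟩,⟨1,[(32,1),(2,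
  0),(0,0)]⟩⟩,⟨true,0,⟨1,[(0,0),(20,0),(16,0)]⟩,⟨0,[(6,0)]⟩⟩,⟨false,0,⟨3,[(1,2),(20,3),(0,0),(7,0),
  (2,7),(1,1)]⟩,⟨0,[(32,1),(3,0)]⟩⟩,⟨false,0,⟨0,[(0,0)]⟩,⟨0,[(6,0),(26,0),(2,0)]⟩⟩,[.o ⟨false,0,⟨0,
  [(21,0)]⟩,⟨2,[(7,1),(12,0),(10,0),(4,1)]⟩⟩,.e ⟨false,1,⟨3,[(3,1),(12,1),(10,0),(8,0)]⟩,⟨0,[(32,0),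
  (1,0)]⟩⟩ ⟨false,1,⟨0,[(0,0),(31,1),(3,0)]⟩,⟨1,[(7,1),(14,0),(0,0)]⟩⟩,.o ⟨false,0,⟨1,[(22,0),(0,
  0)]⟩,⟨3,[(11,0),(3,0),(15,0),(3,0)]⟩⟩,.a ⟨true,(-1),⟨0,[(1,0),(20,0)]⟩,⟨0,[(35,0)]⟩⟩ ⟨true,0,⟨0,
  []⟩,⟨0,[(38,0)]⟩⟩ ⟨false,1,⟨0,[(0,0),(31,1),(3,0)]⟩,⟨3,[(1,2),(5,3),(14,3),(0,0),(7,0),(4,
  1)]⟩⟩]⟩) (.Q [0,0,0,0,0,0,0,0,1,-1,0,1] (.p true [0,0,0,0,1] [1] (⟨0,[(18,0)]⟩,⟨0,[(17,0)]⟩) .k 1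
  (⟨0,[]⟩,⟨0,[]⟩) .k .k) (.Q [0,-1,0,0,1,0,0,0,-1,0,0,-1] (.p false [0,0,0,0,1] [] (⟨0,[(19,0)]⟩,⟨0,
  [(18,0)]⟩) .k 0 (⟨0,[]⟩,⟨0,[]⟩) .k .k) (.R ⟨1,false,false,false,[0,0,1],[0,0,0,0,1],[0,1,0,0,0,0,
  0,1],(⟨0,[(27,0)]⟩,⟨0,[(26,0)]⟩),(⟨0,[(20,0)]⟩,⟨0,[(19,0)]⟩),⟨0,[(16,0)]⟩,.k,.k,.k,.k,(.r (-1) ⟨4,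
  [(0,0),(7,4),(4,0),(0,0),(6,2),(11,0),(4,1)]⟩ ⟨0,[(7,0),(32,0)]⟩),.k,⟨true,0,⟨0,[(9,0),(2,0)]⟩,⟨0,
  [(6,0)]⟩⟩,⟨false,0,⟨0,[(3,0),(9,0)]⟩,⟨0,[(0,0),(23,0),(9,0),(1,0)]⟩⟩,⟨true,0,⟨0,[(40,0)]⟩,⟨0,[]⟩⟩,
  ⟨false,0,⟨0,[(1,0),(8,0)]⟩,⟨0,[(0,0),(8,0)]⟩⟩,⟨false,0,⟨0,[(36,0)]⟩,⟨0,[(35,0),(2,0)]⟩⟩,⟨false,0,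
  ⟨0,[(1,0),(8,0),(25,0)]⟩,⟨0,[(0,0),(7,0)]⟩⟩,[.o ⟨false,0,⟨0,[(1,0),(38,0)]⟩,⟨0,[(0,0)]⟩⟩,.o
  ⟨false,0,⟨0,[(1,0)]⟩,⟨0,[(17,0)]⟩⟩,.o ⟨false,1,⟨3,[(13,0),(3,0),(6,3),(8,0),(3,0)]⟩,⟨0,[(12,0)]⟩⟩,
  .a ⟨true,0,⟨0,[(24,0)]⟩,⟨0,[(21,0)]⟩⟩ ⟨true,0,⟨0,[(4,0),(16,0),(14,0)]⟩,⟨0,[(6,0)]⟩⟩ ⟨false,0,⟨0,
  [(3,0),(9,0)]⟩,⟨0,[(0,0),(23,0)]⟩⟩]⟩) (.Q [0,0,1,0,0,0,0,0,-1,1,0,-1] (.p false [0,0,0,0,1] [1]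
  (⟨0,[(20,0)]⟩,⟨0,[(19,0)]⟩) .k 1 (⟨0,[]⟩,⟨0,[]⟩) .k .k) (.Q [0,0,0,0,0,-1,0,0,0,1,0,-1] (.ed true
  [0,1,0,0,1] .k) (.S ⟨1,0,[0,-1],[1,0,0,0,-1],[1,0,0,-1],(⟨0,[(21,0)]⟩,⟨0,[(22,0)]⟩),⟨0,[(0,0)]⟩,
  .k,(.r (-1) ⟨0,[(36,0),(3,0)]⟩ ⟨4,[(9,2),(14,2),(2,2),(6,0),(3,1)]⟩),⟨true,0,⟨0,[(37,0)]⟩,⟨0,[(38,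
  0)]⟩⟩,⟨false,1,⟨3,[(7,1),(12,1),(10,0),(8,0)]⟩,⟨0,[]⟩⟩,⟨false,0,⟨0,[]⟩,⟨3,[(7,1),(12,1),(10,0),(8,
  0)]⟩⟩,⟨true,0,⟨0,[(38,0)]⟩,⟨0,[(37,0)]⟩⟩,[.e ⟨false,1,⟨10,[(4,2),(2,4),(4,2),(2,4),(19,0),(0,0),
  (0,3)]⟩,⟨0,[(38,0)]⟩⟩ ⟨false,1,⟨1,[(39,0),(0,0)]⟩,⟨0,[(42,0)]⟩⟩,.o ⟨false,2,⟨1,[(7,1),(23,0),(8,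
  0)]⟩,⟨1,[(1,0),(0,2),(32,0),(0,0),(1,0)]⟩⟩,.o ⟨false,1,⟨0,[(19,0)]⟩,⟨0,[(3,0)]⟩⟩,.a ⟨true,0,⟨0,
  [(1,0)]⟩,⟨1,[(2,1),(36,0),(0,0)]⟩⟩ ⟨false,1,⟨0,[(36,0),(3,0)]⟩,⟨1,[(26,0),(0,0),(10,1)]⟩⟩ ⟨true,1,
  ⟨1,[(39,0),(0,0)]⟩,⟨1,[(1,2),(0,2),(32,0),(0,0),(1,0)]⟩⟩]⟩) (.Q [0,-3,0,0,2,0,0,0,-2,2,0,-2] (.p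
  false [0,0,-1,0,1] [2,0,-1,0,-1] (⟨0,[(0,0),(16,0)]⟩,⟨0,[(21,0),(7,0)]⟩) .k 2 (⟨0,[(21,0),(6,0)]⟩,
  ⟨0,[(0,0),(17,0)]⟩) .k (.r 0 ⟨0,[(42,1)]⟩ ⟨0,[(40,0)]⟩)) (.Q [0,-1,0,-1,1,0,1,1,-2,2,1,-2] (.p
  false [-1,1,0,0,1] [1,0,1,0,-1] (⟨0,[(1,0)]⟩,⟨0,[(22,0),(10,0)]⟩) (.r 0 ⟨4,[(10,2),(14,2),(2,2),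
  (6,0),(3,1)]⟩ ⟨0,[(37,0),(3,0)]⟩) 2 (⟨0,[(22,0),(7,0)]⟩,⟨0,[(1,0),(16,0)]⟩) .k (.r 0 ⟨0,[(9,0),
  (25,0)]⟩ ⟨3,[(6,0),(5,3),(4,0),(6,0),(11,0),(4,3)]⟩)) (.Q [0,0,0,-1,0,0,0,0,-1,2,0,-1] (.p false
  [-1,1,0,0,1] [1] (⟨0,[(2,0)]⟩,⟨0,[(23,0),(10,0)]⟩) (.r 0 ⟨4,[(11,2),(14,2),(2,2),(6,0),(3,1)]⟩ ⟨0,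
  [(38,0),(3,0)]⟩) 1 (⟨0,[]⟩,⟨0,[]⟩) .k .k) (.R ⟨0,false,false,true,[1,0,0,0,-1],[2,-1,0,0,-1],[0,0,
  0,-1],(⟨0,[(24,0)]⟩,⟨0,[(25,0)]⟩),(⟨0,[(24,0),(10,0)]⟩,⟨0,[(3,0)]⟩),⟨0,[(3,0)]⟩,.k,(.r (-1) ⟨0,
  [(39,0),(3,0)]⟩ ⟨4,[(12,2),(14,2),(2,2),(6,0),(3,1)]⟩),(.r (-1) ⟨0,[(39,0),(3,0)]⟩ ⟨4,[(12,2),(14,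
  2),(2,2),(6,0),(3,1)]⟩),.k,.k,.k,⟨true,0,⟨1,[(29,0),(0,0)]⟩,⟨0,[]⟩⟩,⟨false,0,⟨1,[(0,0),(22,0),(17,
  0)]⟩,⟨3,[(18,0),(3,0),(15,0),(3,0)]⟩⟩,⟨true,0,⟨0,[(40,0)]⟩,⟨0,[(41,0)]⟩⟩,⟨false,0,⟨2,[(0,0),(6,0),
  (7,0),(7,0)]⟩,⟨1,[(34,0),(6,1),(1,0)]⟩⟩,⟨false,0,⟨0,[]⟩,⟨0,[]⟩⟩,⟨false,0,⟨0,[]⟩,⟨0,[]⟩⟩,[.a ⟨true,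
  0,⟨0,[(0,0)]⟩,⟨0,[(6,0),(34,0)]⟩⟩ ⟨false,1,⟨20,[(2,4),(4,2),(7,2),(2,9),(19,0),(0,0),(0,13)]⟩,⟨0,
  [(41,0)]⟩⟩ ⟨true,0,⟨2,[(0,0),(6,0),(7,0),(7,0)]⟩,⟨1,[(8,0),(20,0),(8,0),(2,1)]⟩⟩,.o ⟨false,1,⟨6,
  [(0,0),(1,2),(4,1),(7,1),(22,0),(1,1)]⟩,⟨14,[(5,9),(6,0),(10,4),(3,0),(2,0),(6,1),(0,9),(2,13)]⟩⟩,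
  .o ⟨false,1,⟨0,[(22,0)]⟩,⟨0,[(6,0)]⟩⟩,.e ⟨false,1,⟨0,[(39,0),(3,0)]⟩,⟨1,[(29,0),(0,0),(10,1)]⟩⟩
  ⟨false,1,⟨5,[(0,3),(6,0),(7,0),(2,2),(4,0),(19,2)]⟩,⟨1,[(8,0),(20,0),(8,0),(2,1)]⟩⟩]⟩) (.R ⟨0,
  false,false,true,[1,0,0,0,-1],[2,-1,0,0,-1],[1,0,-1,-1],(⟨0,[(24,0)]⟩,⟨0,[(25,0)]⟩),(⟨0,[(24,0),
  (10,0)]⟩,⟨0,[(3,0)]⟩),⟨0,[(3,0)]⟩,.k,(.r (-1) ⟨0,[(39,0),(3,0)]⟩ ⟨4,[(12,2),(14,2),(2,2),(6,0),(3,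
  1)]⟩),(.r (-1) ⟨0,[(39,0),(3,0)]⟩ ⟨4,[(12,2),(14,2),(2,2),(6,0),(3,1)]⟩),.k,.k,.k,⟨true,0,⟨0,[]⟩,
  ⟨1,[(29,0),(0,0)]⟩⟩,⟨false,0,⟨2,[(1,0),(3,0),(9,0),(7,0),(17,0)]⟩,⟨3,[(18,0),(3,0),(15,0),(3,
  0)]⟩⟩,⟨true,0,⟨0,[(39,0)]⟩,⟨1,[(29,0),(0,0),(10,1)]⟩⟩,⟨false,0,⟨4,[(1,0),(3,0),(1,1),(7,2),(7,
  0)]⟩,⟨0,[(0,0),(9,0)]⟩⟩,⟨false,0,⟨0,[]⟩,⟨0,[]⟩⟩,⟨false,0,⟨0,[]⟩,⟨0,[]⟩⟩,[.o ⟨false,1,⟨0,[(10,0),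
  (29,0)]⟩,⟨0,[(0,0)]⟩⟩,.o ⟨false,1,⟨1,[(2,0),(4,0),(20,0)]⟩,⟨0,[(0,0),(44,0)]⟩⟩,.o ⟨false,1,⟨0,
  [(22,0)]⟩,⟨0,[(6,0)]⟩⟩,.a ⟨true,0,⟨0,[(4,0)]⟩,⟨1,[(5,1),(36,0),(0,0)]⟩⟩ ⟨true,1,⟨1,[(39,1),(2,0),
  (0,0)]⟩,⟨0,[(0,0),(3,1),(0,0)]⟩⟩ ⟨false,1,⟨1,[(2,0),(2,0),(1,0),(7,0),(2,0)]⟩,⟨0,[(0,0),(3,
  0)]⟩⟩]⟩)) (.Q [0,0,1,0,-1,0,0,0,1,0,0,1] (.p true [0,0,0,0,1] [] (⟨0,[(24,0)]⟩,⟨0,[(23,0)]⟩) .k 0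
  (⟨0,[]⟩,⟨0,[]⟩) .k .k) (.S ⟨1,0,[0,1],[0,0,0,0,1],[1,2,0,-1],(⟨0,[(25,0)]⟩,⟨0,[(24,0)]⟩),⟨0,[(3,
  0),(16,0),(0,0)]⟩,.k,(.r 0 ⟨0,[(39,0)]⟩ ⟨5,[(2,0),(9,2),(10,1),(3,2),(2,2),(3,0),(6,2),(1,2)]⟩),
  ⟨true,0,⟨0,[(40,0)]⟩,⟨0,[(41,0)]⟩⟩,⟨false,1,⟨2,[(2,0),(20,1),(10,0)]⟩,⟨0,[]⟩⟩,⟨false,0,⟨0,[]⟩,⟨2,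
  [(2,0),(20,1),(10,0)]⟩⟩,⟨true,0,⟨0,[(41,0)]⟩,⟨0,[(40,0)]⟩⟩,[.e ⟨false,0,⟨1,[(37,0),(1,0),(0,0)]⟩,
  ⟨0,[(41,0),(1,0)]⟩⟩ ⟨false,0,⟨0,[(39,0),(1,0)]⟩,⟨2,[(2,0),(20,1),(10,0)]⟩⟩,.o ⟨false,0,⟨0,[(6,
  0)]⟩,⟨0,[(22,0)]⟩⟩,.o ⟨false,0,⟨0,[(6,0)]⟩,⟨0,[(22,0)]⟩⟩,.a ⟨true,(-1),⟨0,[(0,0)]⟩,⟨1,[(2,0),(34,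
  0),(1,0),(1,0)]⟩⟩ ⟨false,0,⟨0,[(39,0)]⟩,⟨1,[(29,0),(0,0),(10,1),(1,1)]⟩⟩ ⟨true,0,⟨0,[(39,0),(1,
  0)]⟩,⟨1,[(29,0),(0,0)]⟩⟩]⟩) (.R ⟨1,false,false,true,[2,0,-1,0,-1],[1,0,0,0,-1],[1,0,0,-1,0,0,0,
  -1],(⟨0,[(24,0),(6,0)]⟩,⟨0,[(3,0),(17,0)]⟩),(⟨0,[(24,0)]⟩,⟨0,[(25,0)]⟩),⟨0,[(20,0),(3,0)]⟩,.k,.k,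
  (.r (-2) ⟨20,[(2,9),(4,5),(3,20),(3,5),(2,19),(19,1),(0,1),(0,6)]⟩ ⟨0,[(8,0),(0,0),(31,1)]⟩),.k,
  .k,.k,⟨false,1,⟨1,[(11,1),(27,1),(2,0),(0,0)]⟩,⟨3,[(8,0),(5,3),(4,0),(6,0),(11,0),(2,3)]⟩⟩,⟨true,
  1,⟨2,[(0,0),(17,0),(10,2),(4,0)]⟩,⟨0,[(8,0)]⟩⟩,⟨true,0,⟨0,[(40,0)]⟩,⟨0,[(41,0)]⟩⟩,⟨true,0,⟨0,[(9,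
  0),(31,0)]⟩,⟨0,[(15,0)]⟩⟩,⟨false,0,⟨0,[]⟩,⟨2,[(2,0),(20,1),(10,0)]⟩⟩,⟨true,0,⟨0,[(9,0),(31,1)]⟩,
  ⟨1,[(8,0),(2,0),(3,0),(23,1),(3,0)]⟩⟩,[.o ⟨false,1,⟨0,[(22,0)]⟩,⟨0,[(6,0)]⟩⟩,.a ⟨true,1,⟨0,[(10,
  0)]⟩,⟨0,[(5,0)]⟩⟩ ⟨true,1,⟨0,[(11,0),(27,0),(3,0)]⟩,⟨0,[(8,0),(0,0),(31,1)]⟩⟩ ⟨false,2,⟨2,[(2,0),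
  (15,1),(10,2),(8,0),(3,0)]⟩,⟨0,[(0,0),(4,0),(2,0)]⟩⟩,.o ⟨false,0,⟨0,[(0,0),(7,0)]⟩,⟨1,[(6,0),(11,
  0),(10,1),(4,0)]⟩⟩,.o ⟨false,0,⟨1,[(0,0),(3,0),(3,0),(21,0)]⟩,⟨1,[(0,1),(0,1),(11,1),(15,1),(12,
  0),(0,0)]⟩⟩]⟩))) (.R ⟨0,false,false,false,[-1,1,0,0,1],[1,0,0,0,-1],[1,1,1],(⟨0,[(1,0)]⟩,⟨0,[(22,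
  0),(10,0)]⟩),(⟨0,[(22,0)]⟩,⟨0,[(23,0)]⟩),⟨0,[(22,0)]⟩,(.r 0 ⟨4,[(10,2),(14,2),(2,2),(6,0),(3,1)]⟩
  ⟨0,[(37,0),(3,0)]⟩),.k,.k,(.r 1 ⟨9,[(0,4),(1,9),(7,0),(14,0),(2,0),(6,1),(3,8)]⟩ ⟨7,[(5,2),(2,3),
  (4,2),(2,3),(19,0),(1,1),(2,6)]⟩),.k,.k,⟨true,(-1),⟨1,[(0,0),(1,1),(40,0)]⟩,⟨0,[(41,0)]⟩⟩,⟨false,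
  1,⟨0,[(2,1),(37,0)]⟩,⟨1,[(0,1),(39,0),(0,2)]⟩⟩,⟨false,1,⟨0,[(38,0),(2,0)]⟩,⟨0,[(39,0)]⟩⟩,⟨true,2,
  ⟨0,[(2,0),(5,0),(28,0),(3,0)]⟩,⟨0,[(0,0),(38,0)]⟩⟩,⟨false,0,⟨0,[]⟩,⟨0,[]⟩⟩,⟨false,0,⟨0,[]⟩,⟨0,
  []⟩⟩,[.a ⟨true,1,⟨0,[(8,0)]⟩,⟨0,[(3,0)]⟩⟩ ⟨false,0,⟨0,[(43,0)]⟩,⟨1,[(40,0),(0,0)]⟩⟩ ⟨true,1,⟨0,
  [(2,0),(5,0)]⟩,⟨0,[(0,0),(40,0)]⟩⟩,.o ⟨false,2,⟨1,[(8,1),(23,0),(8,0)]⟩,⟨1,[(0,0),(42,0)]⟩⟩,.o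
  ⟨false,1,⟨1,[(4,0),(11,0),(15,0)]⟩,⟨0,[(2,0)]⟩⟩,.e ⟨false,0,⟨0,[]⟩,⟨3,[(8,1),(12,1),(10,0),(8,
  0)]⟩⟩ ⟨false,2,⟨0,[(8,1)]⟩,⟨0,[(0,0),(40,0)]⟩⟩]⟩))) (.Q [0,0,0,0,0,0,0,0,0,0,1,-1] (.ed true [1,0,
  -1,0,1] (.r 0 ⟨0,[(8,0),(26,0)]⟩ ⟨5,[(10,1),(4,2),(7,3),(10,0),(4,4)]⟩)) (.S ⟨1,0,[],[1,0,0,0,-1],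
  [0,-1],(⟨0,[(21,0)]⟩,⟨0,[(22,0)]⟩),⟨0,[(0,0),(16,0)]⟩,.k,(.r (-1) ⟨0,[(36,0),(3,0)]⟩ ⟨4,[(9,2),
  (14,2),(2,2),(6,0),(3,1)]⟩),⟨false,1,⟨3,[(7,1),(12,1),(10,0),(8,0)]⟩,⟨0,[]⟩⟩,⟨true,0,⟨0,[(42,0)]⟩,
  ⟨0,[]⟩⟩,⟨true,0,⟨0,[(38,0)]⟩,⟨0,[(37,0)]⟩⟩,⟨false,0,⟨0,[(38,0)]⟩,⟨0,[(37,0),(2,0)]⟩⟩,[.o ⟨false,1,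
  ⟨0,[(19,0)]⟩,⟨0,[(3,0)]⟩⟩,.a ⟨true,1,⟨0,[(7,0)]⟩,⟨0,[(2,0)]⟩⟩ ⟨true,1,⟨0,[(40,0)]⟩,⟨0,[(5,0),(0,
  0),(2,0),(26,0),(1,0)]⟩⟩ ⟨false,1,⟨1,[(39,0),(0,0)]⟩,⟨0,[(42,0)]⟩⟩,.o ⟨false,1,⟨0,[(19,0)]⟩,⟨0,
  [(3,0)]⟩⟩,.o ⟨false,1,⟨1,[(19,1),(6,0),(0,0)]⟩,⟨0,[(1,0)]⟩⟩]⟩) (.S ⟨1,0,[0,1],[0,0,0,0,1],[0,2],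
  (⟨0,[(22,0)]⟩,⟨0,[(21,0)]⟩),⟨0,[(0,0),(17,0)]⟩,.k,(.r 0 ⟨0,[(36,0)]⟩ ⟨7,[(7,1),(1,3),(10,1),(3,3),
  (2,3),(3,0),(6,3),(1,4)]⟩),⟨true,0,⟨0,[(42,0)]⟩,⟨0,[]⟩⟩,⟨false,1,⟨3,[(7,1),(12,1),(10,0),(8,0)]⟩,
  ⟨0,[]⟩⟩,⟨false,0,⟨0,[(38,0)]⟩,⟨0,[(37,0),(2,0)]⟩⟩,⟨true,0,⟨0,[(38,0)]⟩,⟨0,[(37,0)]⟩⟩,[.e ⟨false,0,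
  ⟨0,[(34,0)]⟩,⟨0,[(40,0)]⟩⟩ ⟨false,0,⟨0,[(36,0),(1,0)]⟩,⟨3,[(7,1),(12,1),(10,0),(8,0)]⟩⟩,.o ⟨false,
  0,⟨0,[(3,0)]⟩,⟨0,[(19,0)]⟩⟩,.o ⟨false,0,⟨0,[(3,0)]⟩,⟨0,[(19,0)]⟩⟩,.a ⟨true,(-1),⟨0,[(1,0),(3,0),
  (20,0)]⟩,⟨0,[(7,0),(28,0),(1,0)]⟩⟩ ⟨false,0,⟨0,[(36,0),(1,0)]⟩,⟨1,[(26,0),(0,0),(12,1)]⟩⟩ ⟨true,0,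
  ⟨0,[(36,0),(1,0)]⟩,⟨1,[(26,0),(0,0)]⟩⟩]⟩)))) (.Q [0,0,0,0,0,-1,0,0,0,0,0,1] (.ed false [1,-1,0,0,
  1] .k) (.S ⟨1,0,[0,2],[0,0,0,0,1],[1,1,0,-1],(⟨0,[(20,0)]⟩,⟨0,[(19,0)]⟩),⟨0,[(0,0)]⟩,.k,(.r 0 ⟨0,
  [(34,0)]⟩ ⟨7,[(5,1),(1,3),(10,1),(3,3),(2,3),(3,0),(6,3),(1,4)]⟩),⟨false,1,⟨0,[(35,0),(2,0)]⟩,⟨0,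
  [(36,0)]⟩⟩,⟨true,0,⟨0,[(40,0)]⟩,⟨0,[]⟩⟩,⟨true,0,⟨0,[]⟩,⟨0,[(40,0)]⟩⟩,⟨false,0,⟨0,[(36,0)]⟩,⟨0,
  [(35,0),(2,0)]⟩⟩,[.e ⟨false,0,⟨0,[(34,0)]⟩,⟨3,[(5,1),(12,1),(10,0),(6,3),(1,0)]⟩⟩ ⟨false,0,⟨0,
  [(32,0)]⟩,⟨0,[(38,0)]⟩⟩,.o ⟨false,0,⟨2,[(3,0),(0,0),(2,0),(10,2),(14,0),(0,1),(1,1)]⟩,⟨2,[(1,1),
  (3,0),(27,0),(4,0)]⟩⟩,.a ⟨true,0,⟨0,[(18,0)]⟩,⟨0,[(1,0)]⟩⟩ ⟨true,0,⟨0,[(35,0)]⟩,⟨0,[(36,0)]⟩⟩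
  ⟨false,0,⟨0,[(40,0)]⟩,⟨0,[(38,0)]⟩⟩,.o ⟨false,0,⟨1,[(3,0),(3,0),(0,0),(9,1),(14,0)]⟩,⟨3,[(1,2),
  (15,0),(15,0),(3,1)]⟩⟩]⟩) (.R ⟨0,false,false,false,[0,0,0,0,1],[1,-1,0,0,1],[0,1,0,-1],(⟨0,[(20,
  0)]⟩,⟨0,[(19,0)]⟩),(⟨0,[(20,0),(9,0)]⟩,⟨0,[(0,0)]⟩),⟨0,[(0,0)]⟩,.k,(.r 0 ⟨0,[(34,0)]⟩ ⟨7,[(5,1),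
  (1,3),(10,1),(3,3),(2,3),(3,0),(6,3),(1,4)]⟩),(.r 0 ⟨0,[(34,0)]⟩ ⟨7,[(5,1),(1,3),(10,1),(3,3),(2,
  3),(3,0),(6,3),(1,4)]⟩),.k,.k,.k,⟨true,0,⟨1,[(24,0),(0,0)]⟩,⟨0,[]⟩⟩,⟨false,0,⟨0,[(30,0),(0,0)]⟩,
  ⟨3,[(13,0),(3,0),(15,0),(3,0)]⟩⟩,⟨false,1,⟨0,[(35,0),(2,0)]⟩,⟨0,[(36,0)]⟩⟩,⟨true,0,⟨0,[(8,0),(1,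
  0)]⟩,⟨2,[(3,0),(0,0),(2,0),(25,0),(0,1),(1,4)]⟩⟩,⟨false,0,⟨0,[]⟩,⟨0,[]⟩⟩,⟨false,0,⟨0,[]⟩,⟨0,[]⟩⟩,
  [.e ⟨false,0,⟨0,[(34,0)]⟩,⟨3,[(5,1),(12,1),(10,0),(6,3),(1,0)]⟩⟩ ⟨false,0,⟨0,[(30,0),(0,0),(2,
  0)]⟩,⟨1,[(29,0),(6,1),(1,0)]⟩⟩,.o ⟨false,0,⟨1,[(2,0),(0,0),(2,0),(6,0),(4,0)]⟩,⟨1,[(1,0),(15,0),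
  (15,0),(2,1)]⟩⟩,.a ⟨true,0,⟨0,[(18,0)]⟩,⟨0,[(1,0)]⟩⟩ ⟨true,0,⟨0,[(35,0)]⟩,⟨0,[(36,0)]⟩⟩ ⟨false,0,
  ⟨0,[(8,0),(1,0)]⟩,⟨1,[(29,0),(6,1),(1,0)]⟩⟩,.o ⟨false,0,⟨1,[(3,0),(3,0),(0,0),(9,1),(14,0)]⟩,⟨3,
  [(1,2),(15,0),(15,0),(3,1)]⟩⟩]⟩))))

theorem ok26 : chk K t26 r11 = true := by decide +kernel

noncomputable def t28 : Tre :=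
  (.S ⟨1,0,[0,0,1,1,0,0,0,-1],[1,1,-1],[1,1,1,0,0,0,0,-1],(⟨0,[(22,0),(4,0)]⟩,⟨0,[(12,0)]⟩),⟨0,[(22,
  0)]⟩,.k,.k,⟨true,0,⟨0,[(31,0)]⟩,⟨0,[(32,0)]⟩⟩,⟨false,1,⟨3,[(1,1),(12,1),(10,0),(8,0)]⟩,⟨0,[]⟩⟩,
  ⟨false,0,⟨0,[]⟩,⟨3,[(1,1),(12,1),(10,0),(8,0)]⟩⟩,⟨true,0,⟨0,[(32,0)]⟩,⟨0,[(31,0)]⟩⟩,[.a ⟨true,0,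
  ⟨6,[(0,4),(2,1),(2,0),(3,0),(7,0),(9,1)]⟩,⟨0,[(4,0)]⟩⟩ ⟨false,0,⟨0,[(3,0),(26,0)]⟩,⟨3,[(5,3),(4,
  0),(6,1),(11,0),(3,0),(0,1)]⟩⟩ ⟨true,0,⟨0,[(3,0)]⟩,⟨0,[(4,0),(3,0)]⟩⟩,.a ⟨true,0,⟨0,[(0,0)]⟩,⟨0,
  [(7,0)]⟩⟩ ⟨true,0,⟨0,[(2,0)]⟩,⟨0,[(5,0),(2,0)]⟩⟩ ⟨false,1,⟨1,[(3,1),(29,0),(0,0)]⟩,⟨0,[(5,0),(2,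
  0),(21,0)]⟩⟩,.a ⟨true,0,⟨0,[(17,0)]⟩,⟨0,[(20,0)]⟩⟩ ⟨false,0,⟨0,[(2,0)]⟩,⟨3,[(5,3),(4,0),(6,1),(11,
  0),(3,0),(0,1)]⟩⟩ ⟨true,0,⟨0,[(3,0)]⟩,⟨0,[(5,0),(2,0),(21,0)]⟩⟩,.o ⟨false,0,⟨0,[(8,0)]⟩,⟨3,[(9,0),
  (3,0),(6,3),(8,0),(3,0)]⟩⟩]⟩)

theorem ok28 : chk K t28 r10 = true := by decide +kernel

noncomputable def t31 : Tre :=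
  (.S ⟨1,0,[0,0,0,0,0,0,0,1],[0,0,1],[1,1,1],(⟨0,[(21,0)]⟩,⟨0,[(20,0)]⟩),⟨0,[(10,0)]⟩,.k,.k,⟨true,0,
  ⟨0,[(17,0),(0,0)]⟩,⟨0,[(0,0)]⟩⟩,⟨false,1,⟨1,[(11,0),(0,0),(19,0)]⟩,⟨0,[]⟩⟩,⟨false,0,⟨0,[(1,0)]⟩,
  ⟨7,[(0,1),(1,5),(5,2),(18,0),(0,1),(2,1),(0,4)]⟩⟩,⟨true,0,⟨0,[(30,0)]⟩,⟨0,[(29,0)]⟩⟩,[.e ⟨false,0,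
  ⟨0,[(34,0)]⟩,⟨1,[(31,0),(0,0)]⟩⟩ ⟨false,0,⟨0,[(0,0)]⟩,⟨3,[(4,3),(2,0),(3,0),(6,3),(8,0),(3,0)]⟩⟩,
  .o ⟨false,1,⟨2,[(3,1),(12,0),(10,0),(4,1)]⟩,⟨0,[(17,0)]⟩⟩,.o ⟨false,1,⟨3,[(7,0),(3,0),(6,3),(8,0),
  (3,0)]⟩,⟨0,[(6,0)]⟩⟩,.a ⟨true,0,⟨0,[(18,0)]⟩,⟨0,[(15,0)]⟩⟩ ⟨false,0,⟨0,[]⟩,⟨1,[(11,0),(0,0),(19,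
  0)]⟩⟩ ⟨true,0,⟨0,[(0,0)]⟩,⟨0,[(17,0),(0,0)]⟩⟩]⟩)

theorem ok31 : chk K t31 r8 = true := by decide +kernel

noncomputable def t34 : Tre :=
  (.R ⟨2,true,false,false,[0,1],[0,0,1],[1,1,1],(⟨0,[]⟩,⟨0,[]⟩),(⟨0,[(19,0)]⟩,⟨0,[(18,0)]⟩),⟨0,[]⟩,
  .k,.k,.k,.k,.k,.k,⟨false,0,⟨0,[(0,0),(15,0),(9,0)]⟩,⟨3,[(1,3),(4,0),(6,1),(11,0),(3,0),(0,1)]⟩⟩,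
  ⟨true,0,⟨0,[(16,0)]⟩,⟨0,[(4,0)]⟩⟩,⟨true,0,⟨0,[(27,0)]⟩,⟨0,[(28,0)]⟩⟩,⟨false,1,⟨0,[(3,0),(26,0)]⟩,
  ⟨0,[(0,0)]⟩⟩,⟨false,0,⟨0,[]⟩,⟨1,[(9,0),(0,0),(19,0)]⟩⟩,⟨true,0,⟨0,[(1,0)]⟩,⟨0,[(15,0)]⟩⟩,[]⟩)

theorem ok34 : chk K t34 r6 = true := by decide +kernel

noncomputable def t39 : Tre :=
  (.Q [0,1,0,-1,0,0,-1,-1,0,0,-1] (.p false [0,0,1] [] (⟨0,[(15,0)]⟩,⟨0,[(14,0)]⟩) .k 0 (⟨0,[]⟩,⟨0,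
  []⟩) .k .k) (.I [0,0,-2,0,1,-2,1] (.K ⟨0,[0,1,1],0,0,(⟨0,[(17,0),(3,0)]⟩,⟨0,[(5,0)]⟩),.k,.k,(.x
  (-1) ⟨0,[(0,0)]⟩ ⟨1,[(14,0),(0,2),(1,1),(3,3)]⟩),.k,.k,[⟨1,[(14,0),(0,0)]⟩,⟨0,[(2,0)]⟩,⟨0,[(1,
  0)]⟩,⟨0,[(12,0),(13,0)]⟩]⟩) (.I [0,0,-2,-2,1,0,0,-1] (.K ⟨0,[0,1,1],0,0,(⟨1,[(1,0),(1,0),(14,0),
  (9,0)]⟩,⟨0,[(6,0)]⟩),.k,.k,(.r 0 ⟨7,[(1,5),(4,5),(6,7),(1,0),(0,2),(2,5),(4,1),(2,15),(1,3)]⟩ ⟨0,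
  [(0,0)]⟩),.k,.k,[⟨1,[(15,0),(0,0)]⟩,⟨0,[(3,0)]⟩,⟨0,[(2,0)]⟩,⟨0,[(13,0),(13,0)]⟩]⟩) (.I [0,0,2,2,
  -1,0,0,1] (.K ⟨0,[0,1,1],0,0,(⟨1,[(2,0),(1,0),(14,0),(9,0)]⟩,⟨0,[(7,0)]⟩),.k,.k,(.r 1 ⟨0,[(0,0)]⟩
  ⟨0,[(3,0),(0,0),(22,0),(1,0),(0,0)]⟩),.k,.k,[⟨1,[(16,0),(0,0)]⟩,⟨0,[(4,0)]⟩,⟨0,[(3,0)]⟩,⟨0,[(14,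
  0),(13,0)]⟩]⟩) (.S ⟨1,0,[0,0,0,0,0,0,0,1],[0,0,1],[0,1,0,0,0,0,0,1],(⟨0,[(19,0)]⟩,⟨0,[(18,0)]⟩),
  ⟨0,[(8,0)]⟩,.k,.k,⟨true,0,⟨0,[(32,0)]⟩,⟨0,[]⟩⟩,⟨false,1,⟨1,[(9,0),(0,0),(19,0)]⟩,⟨0,[]⟩⟩,⟨false,0,
  ⟨0,[(28,0)]⟩,⟨0,[(27,0),(2,0)]⟩⟩,⟨true,0,⟨0,[(28,0)]⟩,⟨0,[(27,0)]⟩⟩,[.a ⟨true,0,⟨0,[(1,0),(2,0),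
  (21,1),(3,0)]⟩,⟨0,[(0,0),(1,0),(4,0),(12,0),(7,1)]⟩⟩ ⟨false,0,⟨1,[(1,1),(24,3),(2,0),(0,0)]⟩,⟨0,
  [(4,0),(10,0),(14,0)]⟩⟩ ⟨true,0,⟨0,[(1,0),(24,1),(3,0)]⟩,⟨1,[(0,1),(1,2),(1,2),(2,2),(12,2),(4,0),
  (2,3)]⟩⟩,.o ⟨false,1,⟨2,[(1,1),(2,1),(9,0),(10,0),(0,3),(3,3)]⟩,⟨0,[(15,0)]⟩⟩,.a ⟨true,0,⟨0,[(4,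
  0)]⟩,⟨4,[(2,0),(3,1),(11,0),(3,1),(6,0)]⟩⟩ ⟨false,0,⟨0,[(1,0),(24,1),(3,0)]⟩,⟨0,[(4,0),(10,0),(14,
  0)]⟩⟩ ⟨true,0,⟨0,[(1,0),(24,1),(3,0)]⟩,⟨0,[(4,0),(10,0)]⟩⟩,.a ⟨true,0,⟨0,[(16,0)]⟩,⟨0,[(13,0)]⟩⟩
  ⟨true,0,⟨1,[(1,1),(24,3),(2,0),(0,0)]⟩,⟨1,[(0,1),(1,2),(1,2),(2,2),(12,2),(4,0),(2,3)]⟩⟩ ⟨false,1,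
  ⟨1,[(1,1),(24,3),(2,0),(0,2)]⟩,⟨1,[(0,1),(1,2),(1,2),(2,2),(12,2),(4,0),(2,3)]⟩⟩]⟩)))) (.R ⟨2,
  true,false,false,[0,1],[0,1,1],[1,0,1],(⟨0,[]⟩,⟨0,[]⟩),(⟨0,[(16,0),(3,0)]⟩,⟨0,[(4,0)]⟩),⟨0,[]⟩,.k,
  .k,.k,.k,.k,.k,⟨false,1,⟨0,[(1,0),(10,0),(10,0),(3,0)]⟩,⟨0,[(0,0),(13,0),(8,0),(1,0)]⟩⟩,⟨true,0,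
  ⟨0,[(1,0)]⟩,⟨0,[(14,0)]⟩⟩,⟨false,1,⟨0,[(24,0),(2,0)]⟩,⟨0,[(25,0)]⟩⟩,⟨true,0,⟨0,[(0,0),(23,0)]⟩,⟨0,
  [(12,0)]⟩⟩,⟨true,0,⟨0,[]⟩,⟨0,[(29,0)]⟩⟩,⟨false,0,⟨0,[(0,0)]⟩,⟨0,[(12,0),(11,0),(2,0)]⟩⟩,[]⟩))

theorem ok39 : chk K t39 r1 = true := by decide +kernel

noncomputable def t41 : Tre :=
  (.Q [0,-2,0,0,1,0,0,0,-1,0,0,-1] (.p false [0,0,0,0,1] [] (⟨0,[(7,0)]⟩,⟨0,[(6,0)]⟩) .k 0 (⟨0,[]⟩,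
  ⟨0,[]⟩) .k .k) (.R ⟨1,false,false,true,[1,-1],[0,0,0,0,1],[1,0,-1,-2],(⟨0,[(18,0)]⟩,⟨0,[(19,0)]⟩),
  (⟨0,[(8,0)]⟩,⟨0,[(7,0)]⟩),⟨0,[(3,0),(0,0)]⟩,.k,.k,(.r (-1) ⟨0,[(22,1),(3,0)]⟩ ⟨0,[(12,0),(0,0),
  (10,1)]⟩),(.r (-1) ⟨0,[(22,0),(3,0)]⟩ ⟨1,[(12,0),(0,0),(10,1),(3,1)]⟩),(.r (-2) ⟨1,[(22,1),(0,1),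
  (1,0),(0,2)]⟩ ⟨1,[(1,2),(4,2),(14,0),(0,1),(1,5)]⟩),.k,⟨false,2,⟨0,[(22,1),(3,1)]⟩,⟨1,[(1,2),(4,
  2),(14,0),(0,3),(1,7)]⟩⟩,⟨true,1,⟨1,[(6,1),(10,0),(7,0)]⟩,⟨0,[(1,0)]⟩⟩,⟨false,1,⟨0,[(23,0),(2,
  0)]⟩,⟨0,[(24,0)]⟩⟩,⟨false,0,⟨1,[(1,0),(4,2),(14,0),(0,1),(1,3)]⟩,⟨1,[(0,0),(0,0),(16,0),(0,0),(2,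
  1),(3,1)]⟩⟩,⟨true,0,⟨0,[]⟩,⟨0,[(28,0)]⟩⟩,⟨false,0,⟨1,[(1,0),(4,2),(14,0),(0,1),(1,5)]⟩,⟨0,[(1,0),
  (20,1),(3,1)]⟩⟩,[.o ⟨false,0,⟨1,[(1,0),(4,2),(13,1),(0,0)]⟩,⟨0,[(0,0)]⟩⟩,.o ⟨false,0,⟨1,[(1,0),(4,
  2),(14,0),(0,1),(1,1)]⟩,⟨1,[(0,0),(4,0)]⟩⟩,.o ⟨false,0,⟨1,[(12,0),(0,0)]⟩,⟨1,[(17,0),(7,0)]⟩⟩,.a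
  ⟨true,(-1),⟨0,[(1,0),(4,0)]⟩,⟨0,[(25,0)]⟩⟩ ⟨true,1,⟨0,[(22,1),(3,0)]⟩,⟨1,[(1,2),(4,2),(14,0),(0,
  1),(1,5)]⟩⟩ ⟨false,1,⟨2,[(6,2),(13,0),(0,0),(0,0),(1,0),(0,1)]⟩,⟨0,[(1,0),(24,0)]⟩⟩]⟩) (.Q [0,0,0,
  0,0,-1,0,0,0,0,0,1] (.ed false [1,-1,0,0,1] .k) (.S ⟨1,0,[0,2],[0,0,0,0,1],[1,1,0,-1],(⟨0,[(9,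
  0)]⟩,⟨0,[(8,0)]⟩),⟨0,[(0,0)]⟩,.k,(.r 0 ⟨0,[(23,0)]⟩ ⟨1,[(6,0),(0,0),(5,0),(0,0),(10,1),(1,0)]⟩),
  ⟨false,1,⟨0,[(24,0),(2,0)]⟩,⟨0,[(25,0)]⟩⟩,⟨true,0,⟨0,[(29,0)]⟩,⟨0,[]⟩⟩,⟨true,0,⟨0,[]⟩,⟨0,[(29,
  0)]⟩⟩,⟨false,0,⟨0,[(25,0)]⟩,⟨0,[(24,0),(2,0)]⟩⟩,[.e ⟨false,0,⟨0,[(23,0)]⟩,⟨1,[(6,0),(0,0),(17,1),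
  (1,0)]⟩⟩ ⟨false,0,⟨0,[(21,0)]⟩,⟨0,[(27,0)]⟩⟩,.o ⟨false,0,⟨1,[(1,0),(5,0),(10,0)]⟩,⟨3,[(2,2),(3,0),
  (15,0),(3,2),(0,1)]⟩⟩,.a ⟨true,0,⟨0,[(7,0)]⟩,⟨0,[(2,0),(23,0)]⟩⟩ ⟨true,0,⟨0,[(24,0)]⟩,⟨0,[(25,
  0)]⟩⟩ ⟨false,0,⟨0,[(29,0)]⟩,⟨0,[(27,0)]⟩⟩,.o ⟨false,0,⟨1,[(1,0),(0,0),(4,1),(14,0),(4,0)]⟩,⟨3,[(2,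
  2),(3,0),(15,0),(3,4)]⟩⟩]⟩) (.S ⟨1,0,[0,-1],[1,0,0,0,-1],[],(⟨0,[(8,0)]⟩,⟨0,[(9,0)]⟩),⟨0,[(0,0),
  (3,0),(0,0)]⟩,.k,(.r (-1) ⟨0,[(23,0),(3,0)]⟩ ⟨1,[(13,0),(0,0),(10,1),(3,1)]⟩),⟨true,0,⟨0,[(29,
  0)]⟩,⟨0,[]⟩⟩,⟨false,1,⟨1,[(6,0),(0,0),(19,0)]⟩,⟨0,[]⟩⟩,⟨false,0,⟨0,[(25,0)]⟩,⟨0,[(24,0),(2,0)]⟩⟩,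
  ⟨true,0,⟨0,[(25,0)]⟩,⟨0,[(24,0)]⟩⟩,[.o ⟨false,1,⟨3,[(2,2),(3,0),(15,0),(3,2),(0,1)]⟩,⟨1,[(1,0),(5,
  0),(10,0)]⟩⟩,.a ⟨true,1,⟨0,[(2,0),(23,0),(0,0)]⟩,⟨0,[(1,0)]⟩⟩ ⟨false,1,⟨1,[(26,0),(0,0)]⟩,⟨0,[(29,
  0)]⟩⟩ ⟨true,1,⟨0,[(27,0)]⟩,⟨4,[(1,2),(0,2),(18,0),(0,0),(6,1)]⟩⟩,.e ⟨false,1,⟨1,[(6,0),(0,0),(19,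
  0)]⟩,⟨0,[]⟩⟩ ⟨false,1,⟨0,[(27,0)]⟩,⟨0,[(29,0)]⟩⟩,.o ⟨false,0,⟨3,[(2,2),(3,0),(15,0),(3,0)]⟩,⟨1,
  [(7,1),(10,0),(7,0)]⟩⟩]⟩)))

theorem ok41 : chk K t41 r0 = true := by decide +kernel


end Helper25.S1T.Ypp_1cP1
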