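import Pool.Agent.Helper25.S1T.Ypp_1cP1_q

set_option autoImplicit false
set_option linter.all false

namespace Helper25.S1T.Ypp_1cP1

open Helper25.KG Helper25.KW Helper55.KE Helper11.CT

noncomputable def t0 : Tre :=
  (.R ⟨2,true,false,true,[0,1],[0,0,1],[1,1,1],(⟨0,[]⟩,⟨0,[]⟩),(⟨0,[(16,0)]⟩,⟨0,[(15,0)]⟩),⟨0,[]⟩,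
  .k,.k,.k,.k,.k,.k,⟨false,0,⟨0,[(0,0),(12,0),(9,0)]⟩,⟨3,[(3,0),(6,1),(0,3),(10,0),(3,0),(0,1)]⟩⟩,
  ⟨true,0,⟨0,[(13,0)]⟩,⟨0,[(1,0)]⟩⟩,⟨true,0,⟨0,[(24,0)]⟩,⟨0,[(25,0)]⟩⟩,⟨false,1,⟨0,[(11,0),(12,0),
  (2,0)]⟩,⟨0,[(0,0)]⟩⟩,⟨false,0,⟨0,[]⟩,⟨1,[(6,0),(0,0),(19,0)]⟩⟩,⟨true,0,⟨0,[(11,0)]⟩,⟨0,[(0,0),(23,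
  0)]⟩⟩,[]⟩)

theorem ok0 : chk K t0 l2 = true := by decide +kernel

noncomputable def t1 : Tre :=
  (.S ⟨1,0,[0,0,0,0,0,0,0,1],[0,0,1],[0,1,0,0,0,0,0,1],(⟨0,[(17,0)]⟩,⟨0,[(16,0)]⟩),⟨0,[(6,0)]⟩,.k,
  .k,⟨true,0,⟨0,[(30,0)]⟩,⟨0,[]⟩⟩,⟨false,1,⟨1,[(7,0),(0,0),(19,0)]⟩,⟨0,[]⟩⟩,⟨false,0,⟨0,[(26,0)]⟩,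
  ⟨0,[(25,0),(2,0)]⟩⟩,⟨true,0,⟨0,[(26,0)]⟩,⟨0,[(25,0)]⟩⟩,[.o ⟨false,0,⟨0,[(0,0)]⟩,⟨1,[(7,0),(0,0),
  (4,1),(14,0)]⟩⟩,.o ⟨false,1,⟨4,[(0,1),(11,2),(10,0),(4,3)]⟩,⟨0,[(13,0)]⟩⟩,.o ⟨false,1,⟨3,[(3,0),
  (3,0),(6,3),(8,0),(3,0)]⟩,⟨0,[(2,0)]⟩⟩,.a ⟨true,0,⟨0,[(14,0)]⟩,⟨0,[(11,0)]⟩⟩ ⟨false,0,⟨0,[(0,0),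
  (10,0)]⟩,⟨0,[(13,0),(0,0),(13,0)]⟩⟩ ⟨true,0,⟨0,[(0,0),(10,0)]⟩,⟨0,[(13,0),(0,0)]⟩⟩]⟩)

theorem ok1 : chk K t1 l3 = true := by decide +kernel

noncomputable def t2 : Tre :=
  (.Q [0,-1,0,0,1,0,1,1,0,-1,1] (.p true [0,0,1] [1] (⟨0,[(19,0)]⟩,⟨0,[(18,0)]⟩) .k 1 (⟨0,[]⟩,⟨0,
  []⟩) .k .k) (.S ⟨1,0,[0,0,0,0,0,0,0,1],[0,0,1],[0,1,0,0,0,0,0,1],(⟨0,[(20,0)]⟩,⟨0,[(19,0)]⟩),⟨0,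
  [(9,0)]⟩,.k,.k,⟨true,0,⟨0,[(33,0)]⟩,⟨0,[]⟩⟩,⟨false,1,⟨1,[(10,0),(0,0),(19,0)]⟩,⟨0,[]⟩⟩,⟨false,0,
  ⟨0,[(29,0)]⟩,⟨0,[(28,0),(2,0)]⟩⟩,⟨true,0,⟨0,[(29,0)]⟩,⟨0,[(28,0)]⟩⟩,[.o ⟨false,1,⟨3,[(0,1),(9,0),
  (0,0),(3,1),(6,0)]⟩,⟨0,[(2,0)]⟩⟩,.o ⟨false,1,⟨0,[(0,0)]⟩,⟨0,[(16,0)]⟩⟩,.o ⟨false,1,⟨3,[(6,0),(3,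
  0),(6,3),(8,0),(3,0)]⟩,⟨0,[(5,0)]⟩⟩,.a ⟨true,0,⟨0,[(17,0)]⟩,⟨0,[(14,0)]⟩⟩ ⟨true,0,⟨0,[(1,0)]⟩,⟨0,
  [(2,0),(14,0)]⟩⟩ ⟨false,1,⟨0,[(1,0),(29,0)]⟩,⟨0,[(2,0),(14,0)]⟩⟩]⟩) (.I [1,0,0,0,0,0,0,-1] (.S ⟨1,
  0,[0,0,0,0,0,0,0,1],[0,0,1],[0,1,0,0,0,0,0,1],(⟨0,[(21,0)]⟩,⟨0,[(20,0)]⟩),⟨0,[(10,0)]⟩,.k,.k,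
  ⟨true,0,⟨0,[(34,0)]⟩,⟨0,[]⟩⟩,⟨false,1,⟨1,[(11,0),(0,0),(19,0)]⟩,⟨0,[]⟩⟩,⟨false,0,⟨0,[(30,0)]⟩,⟨0,
  [(29,0),(2,0)]⟩⟩,⟨true,0,⟨0,[(30,0)]⟩,⟨0,[(29,0)]⟩⟩,[.o ⟨false,1,⟨1,[(16,1),(6,0),(8,0)]⟩,⟨0,[(3,
  0)]⟩⟩,.e ⟨false,1,⟨3,[(2,1),(4,0),(0,0),(2,0),(4,1),(15,1)]⟩,⟨0,[(0,0)]⟩⟩ ⟨false,1,⟨0,[(2,0),(29,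
  0)]⟩,⟨2,[(0,1),(16,0),(0,0),(7,0)]⟩⟩,.o ⟨false,1,⟨3,[(7,0),(3,0),(6,3),(8,0),(3,0)]⟩,⟨0,[(6,0)]⟩⟩,
  .a ⟨true,0,⟨0,[(18,0)]⟩,⟨0,[(15,0)]⟩⟩ ⟨true,0,⟨0,[(2,0)]⟩,⟨1,[(0,1),(17,0),(0,0)]⟩⟩ ⟨false,1,⟨0,
  [(2,0),(29,0)]⟩,⟨1,[(0,1),(17,0),(0,0)]⟩⟩]⟩) (.Q [0,1,0,0,-1,0,0,0,1,-1,0,1] (.p true [0,0,0,0,1]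
  [1] (⟨0,[(14,0)]⟩,⟨0,[(13,0)]⟩) .k 1 (⟨0,[]⟩,⟨0,[]⟩) .k .k) (.R ⟨1,false,false,true,[0,0,1],[1,0,
  0,0,-1],[0,0,0,0,0,0,0,1],(⟨0,[(22,0)]⟩,⟨0,[(21,0)]⟩),(⟨0,[(14,0)]⟩,⟨0,[(15,0)]⟩),⟨0,[(11,0)]⟩,.k,
  .k,.k,.k,(.r 0 ⟨0,[(1,0),(27,0)]⟩ ⟨1,[(5,1),(13,1),(4,0),(6,1),(1,0)]⟩),.k,⟨true,0,⟨0,[(1,0)]⟩,⟨0,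
  [(4,0),(14,0)]⟩⟩,⟨false,1,⟨0,[(12,0),(3,0)]⟩,⟨1,[(0,1),(18,1),(12,0),(0,0)]⟩⟩,⟨false,1,⟨1,[(12,0),
  (0,0),(19,0)]⟩,⟨0,[]⟩⟩,⟨false,1,⟨0,[(2,0),(9,0),(20,0)]⟩,⟨0,[(0,0),(16,0),(15,0)]⟩⟩,⟨true,0,⟨0,
  [(31,0)]⟩,⟨0,[(30,0)]⟩⟩,⟨false,1,⟨0,[(2,0),(9,0),(18,0),(1,0)]⟩,⟨0,[(0,0),(5,0),(26,0)]⟩⟩,[.o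
  ⟨false,1,⟨0,[(12,0)]⟩,⟨4,[(0,1),(12,2),(14,0),(4,0)]⟩⟩,.o ⟨false,2,⟨1,[(12,2),(0,0),(19,0)]⟩,⟨0,
  [(0,0)]⟩⟩,.o ⟨false,1,⟨3,[(8,0),(3,0),(6,3),(8,0),(3,0)]⟩,⟨0,[(7,0)]⟩⟩,.a ⟨true,0,⟨0,[(19,0)]⟩,⟨0,
  [(16,0)]⟩⟩ ⟨false,1,⟨0,[(3,0),(29,0)]⟩,⟨0,[(4,0),(14,0)]⟩⟩ ⟨true,1,⟨0,[(12,0),(3,0)]⟩,⟨0,[(0,0),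
  (18,0)]⟩⟩]⟩) (.Q [0,0,0,0,0,0,0,0,1,-1,0,1] (.p true [0,0,0,0,1] [1] (⟨0,[(15,0)]⟩,⟨0,[(14,0)]⟩)
  .k 1 (⟨0,[]⟩,⟨0,[]⟩) .k .k) (.Q [0,-1,0,0,1,0,0,0,-1,0,0,-1] (.p false [0,0,0,0,1] [] (⟨0,[(16,
  0)]⟩,⟨0,[(15,0)]⟩) .k 0 (⟨0,[]⟩,⟨0,[]⟩) .k .k) (.R ⟨1,false,false,false,[0,0,1],[0,0,0,0,1],[0,1,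
  0,0,0,0,0,1],(⟨0,[(24,0)]⟩,⟨0,[(23,0)]⟩),(⟨0,[(17,0)]⟩,⟨0,[(16,0)]⟩),⟨0,[(13,0)]⟩,.k,.k,.k,.k,(.r
  (-1) ⟨0,[(3,0),(27,0),(3,0)]⟩ ⟨0,[(20,0),(0,0),(11,0)]⟩),.k,⟨true,0,⟨0,[(3,0)]⟩,⟨0,[(6,0),(14,
  0)]⟩⟩,⟨false,0,⟨0,[(1,0),(16,0)]⟩,⟨0,[(0,0),(20,0),(9,0),(1,0)]⟩⟩,⟨true,0,⟨0,[(37,0)]⟩,⟨0,[]⟩⟩,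
  ⟨true,(-1),⟨0,[(1,0),(2,0)]⟩,⟨0,[(0,0),(18,0)]⟩⟩,⟨false,0,⟨0,[(33,0)]⟩,⟨0,[(32,0),(2,0)]⟩⟩,⟨true,
  (-1),⟨0,[(1,0),(2,0),(28,0)]⟩,⟨0,[(0,0),(7,0)]⟩⟩,[.o ⟨false,0,⟨0,[(1,0),(35,0)]⟩,⟨0,[(0,0)]⟩⟩,.o
  ⟨false,0,⟨0,[(1,0)]⟩,⟨0,[(14,0)]⟩⟩,.o ⟨false,1,⟨3,[(10,0),(3,0),(6,3),(8,0),(3,0)]⟩,⟨0,[(9,0)]⟩⟩,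
  .a ⟨true,0,⟨0,[(21,0)]⟩,⟨0,[(18,0)]⟩⟩ ⟨true,0,⟨0,[(5,0)]⟩,⟨0,[(6,0),(14,0)]⟩⟩ ⟨false,0,⟨0,[(1,0),
  (16,0)]⟩,⟨0,[(0,0),(20,0)]⟩⟩]⟩) (.Q [0,1,0,1,-1,0,0,0,1,-1,0,1] (.p true [0,0,0,0,1] [1] (⟨0,[(17,
  0)]⟩,⟨0,[(16,0)]⟩) .k 1 (⟨0,[]⟩,⟨0,[]⟩) .k .k) (.R ⟨2,true,false,false,[0,1],[1,0,0,0,-1],[1,1,1],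
  (⟨0,[]⟩,⟨0,[]⟩),(⟨0,[(17,0)]⟩,⟨0,[(18,0)]⟩),⟨0,[]⟩,.k,.k,.k,(.r 0 ⟨1,[(22,0),(0,0),(10,1),(3,1)]⟩
  ⟨0,[(32,0),(3,0)]⟩),.k,.k,⟨true,(-1),⟨1,[(4,1),(0,2),(14,0),(1,1),(8,0)]⟩,⟨0,[(36,0)]⟩⟩,⟨false,1,
  ⟨0,[(3,0),(34,0)]⟩,⟨0,[(0,0),(31,0),(3,0)]⟩⟩,⟨true,0,⟨0,[(33,0)]⟩,⟨0,[(34,0)]⟩⟩,⟨false,2,⟨0,[(3,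
  0),(29,0),(2,0)]⟩,⟨0,[(0,0)]⟩⟩,⟨false,0,⟨0,[]⟩,⟨3,[(3,1),(12,1),(10,0),(8,0)]⟩⟩,⟨true,1,⟨0,[(3,
  0)]⟩,⟨0,[(0,0),(32,0)]⟩⟩,[]⟩) (.Q [0,0,2,0,-1,0,0,0,0,1] (.pp false [-1,1]) (.Q [0,-1,0,1,1,0,1,1,
  0,-1,1] (.p true [0,0,1] [1] (⟨0,[(26,0)]⟩,⟨0,[(25,0)]⟩) .k 1 (⟨0,[]⟩,⟨0,[]⟩) .k .k) (.R ⟨1,false,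
  false,true,[1,-1],[1,-1,-1],[0,0,-1,-1],(⟨0,[(30,0)]⟩,⟨0,[(31,0)]⟩),(⟨0,[(15,0)]⟩,⟨0,[(27,0),(3,
  0)]⟩),⟨0,[(15,0),(0,0)]⟩,.k,.k,(.r (-1) ⟨0,[(34,1),(3,0)]⟩ ⟨0,[(0,0),(0,0),(21,0),(12,0)]⟩),.k,.k,
  .k,⟨false,1,⟨0,[(8,0),(29,0)]⟩,⟨3,[(7,2),(15,0),(0,3),(8,0),(3,1)]⟩⟩,⟨true,0,⟨0,[(12,0)]⟩,⟨0,[(24,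
  0)]⟩⟩,⟨false,1,⟨3,[(5,1),(12,1),(10,0),(8,0)]⟩,⟨0,[]⟩⟩,⟨false,0,⟨0,[(9,0)]⟩,⟨0,[(22,0),(15,0)]⟩⟩,
  ⟨true,0,⟨0,[(36,0)]⟩,⟨0,[(35,0)]⟩⟩,⟨false,0,⟨0,[(9,0),(26,0)]⟩,⟨0,[(11,0),(26,0)]⟩⟩,[.o ⟨false,0,
  ⟨0,[(9,0),(25,0)]⟩,⟨0,[(0,0)]⟩⟩,.o ⟨false,0,⟨1,[(1,0),(5,1),(25,0),(0,1),(3,1)]⟩,⟨0,[(0,0),(39,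
  0)]⟩⟩,.o ⟨false,0,⟨1,[(24,0),(0,0)]⟩,⟨3,[(13,0),(3,0),(15,0),(3,0)]⟩⟩,.a ⟨true,(-1),⟨0,[(1,0)]⟩,
  ⟨0,[(37,0)]⟩⟩ ⟨true,1,⟨1,[(34,1),(2,0),(0,0)]⟩,⟨1,[(1,1),(5,0),(14,0),(10,0),(2,1)]⟩⟩ ⟨false,1,⟨1,
  [(9,1),(24,1),(2,0),(0,0)]⟩,⟨0,[(0,0),(0,0)]⟩⟩]⟩) (.Q [0,0,1,0,0,0,0,0,-1,1,0,-1] (.p false [0,0,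
  0,0,1] [1] (⟨0,[(20,0)]⟩,⟨0,[(19,0)]⟩) .k 1 (⟨0,[]⟩,⟨0,[]⟩) .k .k) (.Q [0,0,0,0,0,-1,0,0,0,1,0,
  -1] (.ed true [0,1,0,0,1] .k) (.S ⟨1,0,[0,-1],[1,0,0,0,-1],[1,0,0,-1],(⟨0,[(21,0)]⟩,⟨0,[(22,0)]⟩),
  ⟨0,[(0,0)]⟩,.k,(.r (-1) ⟨0,[(36,0),(3,0)]⟩ ⟨1,[(26,0),(0,0),(10,1),(3,1)]⟩),⟨true,0,⟨0,[(37,0)]⟩,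
  ⟨0,[(38,0)]⟩⟩,⟨false,1,⟨3,[(7,1),(12,1),(10,0),(8,0)]⟩,⟨0,[]⟩⟩,⟨false,0,⟨0,[]⟩,⟨3,[(7,1),(12,1),
  (10,0),(8,0)]⟩⟩,⟨true,0,⟨0,[(38,0)]⟩,⟨0,[(37,0)]⟩⟩,[.e ⟨false,1,⟨1,[(4,0),(10,0),(21,0)]⟩,⟨0,[(38,
  0)]⟩⟩ ⟨false,1,⟨1,[(39,0),(0,0)]⟩,⟨0,[(42,0)]⟩⟩,.o ⟨false,2,⟨1,[(7,1),(23,0),(8,0)]⟩,⟨7,[(3,0),(1,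
  7),(3,2),(14,2),(10,3),(0,1),(1,1)]⟩⟩,.o ⟨false,1,⟨0,[(19,0)]⟩,⟨0,[(6,0)]⟩⟩,.a ⟨true,0,⟨0,[(1,
  0)]⟩,⟨1,[(5,1),(33,0),(0,0)]⟩⟩ ⟨false,1,⟨0,[(36,0),(3,0)]⟩,⟨1,[(26,0),(0,0),(10,1)]⟩⟩ ⟨true,1,⟨1,
  [(39,0),(0,0)]⟩,⟨1,[(3,0),(5,1),(14,1),(10,0)]⟩⟩]⟩) (.Q [0,0,0,-1,0,0,0,0,-1,2,0,-1] (.p false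
  [-1,1,0,0,1] [1] (⟨0,[(0,0)]⟩,⟨0,[(21,0),(10,0)]⟩) (.r 0 ⟨1,[(26,0),(0,0),(10,1),(3,1)]⟩ ⟨0,[(36,
  0),(3,0)]⟩) 1 (⟨0,[]⟩,⟨0,[]⟩) .k .k) (.R ⟨0,false,false,true,[1,0,0,0,-1],[2,-1,0,0,-1],[0,0,0,
  -1],(⟨0,[(22,0)]⟩,⟨0,[(23,0)]⟩),(⟨0,[(22,0),(10,0)]⟩,⟨0,[(1,0)]⟩),⟨0,[(1,0)]⟩,.k,(.r (-1) ⟨0,[(37,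
  0),(3,0)]⟩ ⟨1,[(27,0),(0,0),(10,1),(3,1)]⟩),(.r (-1) ⟨0,[(37,0),(3,0)]⟩ ⟨1,[(27,0),(0,0),(10,1),
  (3,1)]⟩),.k,.k,.k,⟨true,0,⟨1,[(27,0),(0,0)]⟩,⟨0,[]⟩⟩,⟨false,0,⟨1,[(0,0),(20,0),(17,0)]⟩,⟨3,[(16,
  0),(3,0),(15,0),(3,0)]⟩⟩,⟨true,0,⟨0,[(38,0)]⟩,⟨0,[(39,0)]⟩⟩,⟨false,0,⟨2,[(0,0),(2,0),(10,0),(6,0),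
  (19,0)]⟩,⟨1,[(32,0),(6,1),(1,0)]⟩⟩,⟨false,0,⟨0,[]⟩,⟨0,[]⟩⟩,⟨false,0,⟨0,[]⟩,⟨0,[]⟩⟩,[.a ⟨true,0,⟨0,
  [(0,0)]⟩,⟨0,[(7,0),(31,0)]⟩⟩ ⟨false,1,⟨1,[(5,0),(10,0),(21,0)]⟩,⟨0,[(39,0)]⟩⟩ ⟨true,0,⟨2,[(0,0),
  (2,0),(10,0),(6,0),(19,0)]⟩,⟨1,[(4,0),(31,0),(2,1)]⟩⟩,.o ⟨false,1,⟨0,[(5,0)]⟩,⟨2,[(6,1),(14,0),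
  (14,1),(2,2),(3,0)]⟩⟩,.o ⟨false,1,⟨0,[(20,0)]⟩,⟨0,[(7,0)]⟩⟩,.e ⟨false,1,⟨0,[(37,0),(3,0)]⟩,⟨1,
  [(27,0),(0,0),(10,1)]⟩⟩ ⟨false,1,⟨5,[(0,3),(2,0),(10,0),(1,2),(4,0),(19,3)]⟩,⟨1,[(4,0),(31,0),(2,
  1)]⟩⟩]⟩) (.R ⟨0,false,false,true,[1,0,0,0,-1],[2,-1,0,0,-1],[0,1,1],(⟨0,[(22,0)]⟩,⟨0,[(23,0)]⟩),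
  (⟨0,[(22,0),(10,0)]⟩,⟨0,[(1,0)]⟩),⟨0,[(1,0)]⟩,.k,(.r (-1) ⟨0,[(37,0),(3,0)]⟩ ⟨1,[(27,0),(0,0),(10,
  1),(3,1)]⟩),(.r (-1) ⟨0,[(37,0),(3,0)]⟩ ⟨1,[(27,0),(0,0),(10,1),(3,1)]⟩),.k,.k,.k,⟨true,(-1),⟨1,
  [(4,1),(5,0),(14,0),(10,0),(2,1)]⟩,⟨0,[(37,0),(3,0)]⟩⟩,⟨false,0,⟨0,[(6,0),(1,0)]⟩,⟨3,[(16,0),(3,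
  0),(15,0),(3,0)]⟩⟩,⟨true,(-1),⟨7,[(4,4),(5,6),(14,6),(10,3),(0,1),(1,1)]⟩,⟨1,[(40,0),(0,0)]⟩⟩,
  ⟨false,0,⟨0,[(5,0),(0,0)]⟩,⟨0,[(0,0),(7,0)]⟩⟩,⟨false,0,⟨0,[]⟩,⟨0,[]⟩⟩,⟨false,0,⟨0,[]⟩,⟨0,[]⟩⟩,[.o
  ⟨false,1,⟨0,[(8,0),(29,0)]⟩,⟨0,[(0,0)]⟩⟩,.o ⟨false,1,⟨0,[(5,0)]⟩,⟨0,[(0,0),(42,0)]⟩⟩,.o ⟨false,1,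
  ⟨0,[(20,0)]⟩,⟨0,[(7,0)]⟩⟩,.a ⟨true,0,⟨0,[(2,0)]⟩,⟨1,[(6,1),(33,0),(0,0)]⟩⟩ ⟨true,0,⟨0,[(43,0)]⟩,
  ⟨0,[]⟩⟩ ⟨false,1,⟨1,[(5,1),(0,1),(33,0),(0,0)]⟩,⟨1,[(4,0),(31,0),(2,1)]⟩⟩]⟩))) (.Q [0,0,0,0,0,0,0,
  0,0,0,1,-1] (.ed true [1,0,-1,0,1] (.r 0 ⟨3,[(8,2),(15,0),(0,3),(8,0),(3,1)]⟩ ⟨4,[(6,0),(0,2),(6,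
  0),(8,1),(2,1),(12,2)]⟩)) (.S ⟨1,0,[],[1,0,0,0,-1],[0,-1],(⟨0,[(21,0)]⟩,⟨0,[(22,0)]⟩),⟨0,[(0,0),
  (16,0)]⟩,.k,(.r (-1) ⟨0,[(36,0),(3,0)]⟩ ⟨1,[(26,0),(0,0),(10,1),(3,1)]⟩),⟨false,1,⟨3,[(7,1),(12,
  1),(10,0),(8,0)]⟩,⟨0,[]⟩⟩,⟨true,0,⟨0,[(42,0)]⟩,⟨0,[]⟩⟩,⟨true,0,⟨0,[(38,0)]⟩,⟨0,[(37,0)]⟩⟩,⟨false,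
  0,⟨0,[(38,0)]⟩,⟨0,[(37,0),(2,0)]⟩⟩,[.o ⟨false,1,⟨0,[(19,0)]⟩,⟨0,[(6,0)]⟩⟩,.a ⟨true,1,⟨0,[(7,0)]⟩,
  ⟨0,[(5,0)]⟩⟩ ⟨true,1,⟨0,[(40,0)]⟩,⟨1,[(3,0),(5,1),(14,1),(10,0)]⟩⟩ ⟨false,1,⟨1,[(39,0),(0,0)]⟩,⟨0,
  [(42,0)]⟩⟩,.o ⟨false,1,⟨0,[(19,0)]⟩,⟨0,[(6,0)]⟩⟩,.o ⟨false,1,⟨1,[(19,1),(6,0),(0,0)]⟩,⟨0,[(1,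
  0)]⟩⟩]⟩) (.S ⟨1,0,[0,1],[0,0,0,0,1],[0,2],(⟨0,[(22,0)]⟩,⟨0,[(21,0)]⟩),⟨0,[(0,0),(17,0)]⟩,.k,(.r 0
  ⟨0,[(36,0)]⟩ ⟨3,[(7,1),(12,1),(5,1),(0,1),(3,0),(6,3),(1,0)]⟩),⟨true,0,⟨0,[(42,0)]⟩,⟨0,[]⟩⟩,
  ⟨false,1,⟨3,[(7,1),(12,1),(10,0),(8,0)]⟩,⟨0,[]⟩⟩,⟨false,0,⟨0,[(38,0)]⟩,⟨0,[(37,0),(2,0)]⟩⟩,⟨true,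
  0,⟨0,[(38,0)]⟩,⟨0,[(37,0)]⟩⟩,[.e ⟨false,0,⟨0,[(34,0)]⟩,⟨0,[(40,0)]⟩⟩ ⟨false,0,⟨0,[(36,0),(1,0)]⟩,
  ⟨3,[(7,1),(12,1),(10,0),(8,0)]⟩⟩,.o ⟨false,0,⟨0,[(6,0)]⟩,⟨0,[(19,0)]⟩⟩,.o ⟨false,0,⟨0,[(6,0)]⟩,⟨0,
  [(19,0)]⟩⟩,.a ⟨true,(-1),⟨0,[(1,0),(1,0)]⟩,⟨0,[(7,0),(28,0),(1,0)]⟩⟩ ⟨false,0,⟨0,[(36,0),(1,0)]⟩,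
  ⟨1,[(26,0),(0,0),(12,1)]⟩⟩ ⟨true,0,⟨0,[(36,0),(1,0)]⟩,⟨1,[(26,0),(0,0)]⟩⟩]⟩)))) (.I [1,-1,2,1]
  (.S ⟨1,0,[0,0,-1,-1],[1,-1],[0,1,-1,-1],(⟨0,[(30,0)]⟩,⟨0,[(31,0)]⟩),⟨0,[(15,0),(0,0)]⟩,.k,(.r
  (-1) ⟨0,[(34,1),(3,0)]⟩ ⟨2,[(0,3),(31,1),(3,1)]⟩),⟨true,0,⟨0,[(40,0)]⟩,⟨0,[]⟩⟩,⟨false,1,⟨3,[(5,1),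
  (12,1),(10,0),(8,0)]⟩,⟨0,[]⟩⟩,⟨false,0,⟨0,[(36,0)]⟩,⟨0,[(35,0),(2,0)]⟩⟩,⟨true,0,⟨0,[(36,0)]⟩,⟨0,
  [(35,0)]⟩⟩,[.a ⟨true,0,⟨0,[(2,0),(0,0)]⟩,⟨0,[(36,0)]⟩⟩ ⟨true,0,⟨0,[(34,0)]⟩,⟨0,[(0,0)]⟩⟩ ⟨false,1,
  ⟨1,[(34,1),(2,0),(0,0)]⟩,⟨2,[(0,1),(31,0),(3,0)]⟩⟩,.o ⟨false,1,⟨0,[(35,0),(2,0)]⟩,⟨1,[(7,0),(14,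
  0),(10,0),(2,1)]⟩⟩,.o ⟨false,0,⟨1,[(0,0),(34,0)]⟩,⟨3,[(1,0),(11,0),(3,0),(11,0)]⟩⟩,.o ⟨false,0,⟨0,
  [(0,0),(34,0)]⟩,⟨0,[(1,0)]⟩⟩]⟩) (.Q [0,-1,0,1,1,0,1,1,0,-1,1] (.p true [0,0,1] [1] (⟨0,[(27,0)]⟩,
  ⟨0,[(26,0)]⟩) .k 1 (⟨0,[]⟩,⟨0,[]⟩) .k .k) (.R ⟨1,false,false,true,[0,0,1],[1,-1],[0,1,0,-1],(⟨0,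
  [(28,0)]⟩,⟨0,[(27,0)]⟩),(⟨0,[(31,0)]⟩,⟨0,[(32,0)]⟩),⟨0,[(17,0)]⟩,.k,.k,.k,.k,.k,.k,⟨true,0,⟨1,
  [(25,0),(0,0)]⟩,⟨0,[]⟩⟩,⟨false,0,⟨1,[(4,0),(1,0),(8,0)]⟩,⟨0,[(2,0),(22,0)]⟩⟩,⟨true,0,⟨1,[(1,0),(8,
  1),(14,1),(10,0)]⟩,⟨0,[(7,0),(29,0)]⟩⟩,⟨false,0,⟨0,[(8,0),(27,0),(2,0)]⟩,⟨0,[(0,0)]⟩⟩,⟨true,0,⟨1,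
  [(2,0),(5,0),(15,0),(0,1)]⟩,⟨0,[(7,0)]⟩⟩,⟨true,(-1),⟨0,[(8,0)]⟩,⟨3,[(0,1),(11,1),(5,0),(0,0),(10,
  0)]⟩⟩,[.o ⟨false,0,⟨0,[(36,0)]⟩,⟨2,[(0,0),(10,0),(22,0),(2,1),(1,0)]⟩⟩,.e ⟨false,1,⟨1,[(3,0),(10,
  0),(21,0)]⟩,⟨0,[(37,0)]⟩⟩ ⟨false,0,⟨1,[(1,0),(1,0),(0,0),(2,0),(0,0),(4,0),(25,0)]⟩,⟨1,[(0,0),(1,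
  0),(21,0),(0,1),(11,0)]⟩⟩,.o ⟨false,1,⟨3,[(2,0),(11,0),(3,0),(6,3),(4,0)]⟩,⟨0,[(13,0)]⟩⟩,.a ⟨true,
  0,⟨0,[(25,0)]⟩,⟨0,[(22,0)]⟩⟩ ⟨true,0,⟨0,[(35,0)]⟩,⟨1,[(25,0),(0,0),(10,1)]⟩⟩ ⟨false,0,⟨1,[(1,0),
  (1,0),(0,0),(2,0),(0,0),(4,0),(25,0)]⟩,⟨2,[(0,0),(10,0),(13,2),(8,0),(2,1),(1,0)]⟩⟩]⟩) (.I [0,0,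
  -2,0,1,-2,0,0,-1] (.Q [0,0,2,0,-1,0,0,0,1,0,0,1] (.p true [0,0,0,0,1] [] (⟨0,[(22,0)]⟩,⟨0,[(21,
  0)]⟩) .k 0 (⟨0,[]⟩,⟨0,[]⟩) .k .k) (.Q [0,0,-1,0,1,0,0,0,-1,0,0,-1] (.p false [0,0,0,0,1] [] (⟨0,
  [(23,0)]⟩,⟨0,[(22,0)]⟩) .k 0 (⟨0,[]⟩,⟨0,[]⟩) .k .k) (.S ⟨1,0,[0,1,-1,-1],[0,-1,0,0,1],[0,2,-1,-1],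
  (⟨1,[(1,0),(0,0),(21,0)]⟩,⟨0,[(23,0),(11,0)]⟩),⟨0,[(1,0),(0,0)]⟩,(.r 0 ⟨0,[(38,0)]⟩ ⟨3,[(9,1),(12,
  1),(5,1),(0,1),(3,0),(6,3),(1,0)]⟩),(.x 0 ⟨1,[(1,0),(20,0),(0,1),(4,0),(0,0),(3,0),(1,3)]⟩ ⟨0,[(2,
  0)]⟩),⟨true,0,⟨0,[(44,0)]⟩,⟨0,[]⟩⟩,⟨false,1,⟨3,[(9,1),(12,1),(10,0),(8,0)]⟩,⟨0,[]⟩⟩,⟨false,0,⟨0,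
  [(40,0)]⟩,⟨0,[(39,0),(2,0)]⟩⟩,⟨true,0,⟨0,[(40,0)]⟩,⟨0,[(39,0)]⟩⟩,[.e ⟨false,0,⟨3,[(4,2),(31,1),(2,
  0)]⟩,⟨1,[(28,0),(0,0),(10,1),(1,1)]⟩⟩ ⟨false,0,⟨0,[(4,0)]⟩,⟨3,[(9,1),(12,1),(5,1),(0,1),(3,0),(6,
  3),(1,0)]⟩⟩,.o ⟨false,0,⟨3,[(1,2),(2,2),(3,0),(28,0),(1,0),(2,1)]⟩,⟨0,[(21,0),(18,0)]⟩⟩,.o ⟨false,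
  0,⟨1,[(1,0),(20,0),(10,0)]⟩,⟨0,[(0,0)]⟩⟩,.a ⟨true,(-1),⟨0,[(1,0)]⟩,⟨0,[(4,0),(4,0),(30,0)]⟩⟩
  ⟨false,0,⟨0,[(4,0)]⟩,⟨0,[(28,0),(0,0),(10,0),(1,0)]⟩⟩ ⟨true,0,⟨0,[(4,0)]⟩,⟨0,[(28,0),(0,0),(10,
  0)]⟩⟩]⟩) (.S ⟨1,0,[0,1],[0,0,0,0,1],[0,2],(⟨0,[(24,0)]⟩,⟨0,[(23,0)]⟩),⟨1,[(1,0),(0,0),(21,0)]⟩,.k,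
  (.r 0 ⟨0,[(38,0)]⟩ ⟨3,[(9,1),(12,1),(5,1),(0,1),(3,0),(6,3),(1,0)]⟩),⟨true,0,⟨0,[(44,0)]⟩,⟨0,[]⟩⟩,
  ⟨false,1,⟨3,[(9,1),(12,1),(10,0),(8,0)]⟩,⟨0,[]⟩⟩,⟨false,0,⟨0,[(40,0)]⟩,⟨0,[(39,0),(2,0)]⟩⟩,⟨true,
  0,⟨0,[(40,0)]⟩,⟨0,[(39,0)]⟩⟩,[.e ⟨false,0,⟨0,[(36,0)]⟩,⟨0,[(42,0)]⟩⟩ ⟨false,0,⟨2,[(4,0),(31,0),(3,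
  0)]⟩,⟨3,[(9,1),(12,1),(10,0),(8,0)]⟩⟩,.o ⟨false,0,⟨0,[(8,0)]⟩,⟨0,[(21,0)]⟩⟩,.o ⟨false,0,⟨0,[(8,
  0)]⟩,⟨0,[(21,0)]⟩⟩,.a ⟨true,(-1),⟨0,[(0,0)]⟩,⟨2,[(4,0),(4,2),(26,0),(3,0)]⟩⟩ ⟨false,0,⟨2,[(4,0),
  (31,0),(3,0)]⟩,⟨1,[(28,0),(0,0),(12,1)]⟩⟩ ⟨true,0,⟨2,[(4,0),(31,0),(3,0)]⟩,⟨1,[(28,0),(0,
  0)]⟩⟩]⟩)) (.Q [0,0,0,0,0,0,0,0,0,0,-1,1] (.ed false [1,0,-1,0,1] (.r 0 ⟨1,[(4,0),(5,0),(15,0),(0,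
  1)]⟩ ⟨4,[(8,0),(0,2),(6,0),(8,1),(2,1),(12,2)]⟩)) (.R ⟨1,false,false,false,[1,0,1,0,-1],[1,0,0,0,
  -1],[0,0,0,0,0,0,0,1],(⟨0,[(23,0),(7,0)]⟩,⟨0,[(0,0)]⟩),(⟨0,[(23,0)]⟩,⟨0,[(24,0)]⟩),⟨0,[(20,0),(2,
  0)]⟩,.k,.k,(.r (-1) ⟨11,[(3,0),(0,5),(5,7),(4,4),(2,1),(18,0),(4,11)]⟩ ⟨0,[(27,0),(0,0),(11,0)]⟩),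
  .k,.k,.k,⟨false,0,⟨0,[(12,0)]⟩,⟨1,[(5,0),(7,0),(0,0),(13,1),(13,0)]⟩⟩,⟨true,0,⟨0,[(16,0)]⟩,⟨0,
  [(28,0)]⟩⟩,⟨true,0,⟨0,[(44,0)]⟩,⟨0,[]⟩⟩,⟨true,0,⟨0,[(13,0)]⟩,⟨0,[(26,0)]⟩⟩,⟨false,0,⟨0,[(40,0)]⟩,
  ⟨0,[(39,0),(2,0)]⟩⟩,⟨true,0,⟨0,[(13,0),(26,0)]⟩,⟨0,[(15,0)]⟩⟩,[.a ⟨true,1,⟨0,[(9,0)]⟩,⟨0,[(7,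
  0)]⟩⟩ ⟨true,0,⟨0,[(10,0)]⟩,⟨0,[(13,0),(14,0)]⟩⟩ ⟨false,1,⟨1,[(5,0),(12,0),(23,0)]⟩,⟨2,[(4,0),(23,
  2),(7,0),(3,0)]⟩⟩,.o ⟨false,2,⟨1,[(9,1),(23,0),(8,0)]⟩,⟨9,[(4,0),(2,9),(2,0),(0,4),(14,3),(1,0),
  (8,4),(2,0),(2,0)]⟩⟩,.o ⟨false,1,⟨1,[(1,0),(19,0),(6,1)]⟩,⟨0,[(8,0),(7,0)]⟩⟩,.o ⟨false,1,⟨0,[(21,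
  0),(6,0)]⟩,⟨2,[(4,0),(2,2),(2,1),(0,1),(13,0),(11,1),(2,0),(1,2)]⟩⟩]⟩) (.Q [0,0,1,0,0,0,0,0,-1,1,
  0,-1] (.p false [0,0,0,0,1] [1] (⟨0,[(24,0)]⟩,⟨0,[(23,0)]⟩) .k 1 (⟨0,[]⟩,⟨0,[]⟩) .k .k) (.S ⟨1,0,
  [0,-1],[1,0,0,0,-1],[1,0,0,-1],(⟨0,[(24,0)]⟩,⟨0,[(25,0)]⟩),⟨0,[(1,0),(18,0)]⟩,.k,(.r (-1) ⟨1,[(5,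
  0),(34,0),(2,1)]⟩ ⟨1,[(29,0),(0,0),(10,1),(3,1)]⟩),⟨true,0,⟨0,[(40,0)]⟩,⟨0,[(41,0)]⟩⟩,⟨false,1,⟨3,
  [(10,1),(12,1),(10,0),(8,0)]⟩,⟨0,[]⟩⟩,⟨false,0,⟨0,[]⟩,⟨3,[(10,1),(12,1),(10,0),(8,0)]⟩⟩,⟨true,0,
  ⟨0,[(41,0)]⟩,⟨0,[(40,0)]⟩⟩,[.e ⟨false,1,⟨1,[(7,0),(10,0),(21,0)]⟩,⟨0,[(41,0)]⟩⟩ ⟨false,1,⟨1,[(42,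
  0),(0,0)]⟩,⟨0,[(45,0)]⟩⟩,.o ⟨false,2,⟨1,[(10,1),(23,0),(8,0)]⟩,⟨7,[(0,1),(4,0),(2,9),(3,1),(14,1),
  (10,3),(2,0),(3,0)]⟩⟩,.o ⟨false,1,⟨0,[(22,0)]⟩,⟨0,[(9,0)]⟩⟩,.a ⟨true,0,⟨0,[(0,0)]⟩,⟨1,[(8,1),(33,
  0),(0,0)]⟩⟩ ⟨false,1,⟨1,[(5,0),(34,0),(2,1)]⟩,⟨1,[(29,0),(0,0),(10,1)]⟩⟩ ⟨true,1,⟨1,[(42,0),(0,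
  0)]⟩,⟨1,[(0,1),(7,1),(3,0),(14,0),(10,0)]⟩⟩]⟩) (.S ⟨1,0,[],[1,0,0,0,-1],[0,-1],(⟨0,[(24,0)]⟩,⟨0,
  [(25,0)]⟩),⟨0,[(1,0),(18,0)]⟩,.k,(.r (-1) ⟨1,[(5,0),(34,0),(2,1)]⟩ ⟨1,[(29,0),(0,0),(10,1),(3,
  1)]⟩),⟨false,1,⟨3,[(10,1),(12,1),(10,0),(8,0)]⟩,⟨0,[]⟩⟩,⟨true,0,⟨0,[(45,0)]⟩,⟨0,[]⟩⟩,⟨true,0,⟨0,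
  [(41,0)]⟩,⟨0,[(40,0)]⟩⟩,⟨false,0,⟨0,[(41,0)]⟩,⟨0,[(40,0),(2,0)]⟩⟩,[.o ⟨false,1,⟨0,[(22,0)]⟩,⟨0,
  [(9,0)]⟩⟩,.a ⟨true,1,⟨0,[(10,0)]⟩,⟨0,[(8,0)]⟩⟩ ⟨true,1,⟨0,[(43,0)]⟩,⟨1,[(11,1),(0,2),(14,0),(1,1),
  (8,0)]⟩⟩ ⟨false,1,⟨1,[(42,0),(0,0)]⟩,⟨0,[(45,0)]⟩⟩,.o ⟨false,1,⟨0,[(22,0)]⟩,⟨0,[(9,0)]⟩⟩,.o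
  ⟨false,1,⟨1,[(22,1),(6,0),(0,0)]⟩,⟨0,[(0,0)]⟩⟩]⟩)))) (.Q [0,0,1,0,-1,0,-1,0,1,0,-1,1] (.p false
  [0,0,1] [0,0,0,0,1] (⟨0,[(29,0)]⟩,⟨0,[(28,0)]⟩) .k 2 (⟨0,[(22,0)]⟩,⟨0,[(21,0)]⟩) .k (.r (-1) ⟨4,
  [(7,0),(0,2),(6,0),(8,1),(2,1),(12,2)]⟩ ⟨1,[(3,0),(5,0),(15,0),(0,1)]⟩)) (.Q [0,0,-1,0,0,0,0,0,1,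
  -1,0,1] (.p true [0,0,0,0,1] [1] (⟨0,[(23,0)]⟩,⟨0,[(22,0)]⟩) .k 1 (⟨0,[]⟩,⟨0,[]⟩) .k .k) (.S ⟨1,0,
  [],[1,0,0,0,-1],[0,-1],(⟨0,[(23,0)]⟩,⟨0,[(24,0)]⟩),⟨0,[(2,0),(1,0),(1,0),(25,2),(7,1)]⟩,.k,(.r
  (-1) ⟨1,[(4,0),(34,0),(2,1)]⟩ ⟨1,[(28,0),(0,0),(10,1),(3,1)]⟩),⟨false,1,⟨3,[(9,1),(12,1),(10,0),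
  (8,0)]⟩,⟨0,[]⟩⟩,⟨true,0,⟨0,[(44,0)]⟩,⟨0,[]⟩⟩,⟨true,0,⟨0,[(40,0)]⟩,⟨0,[(39,0)]⟩⟩,⟨false,0,⟨0,[(40,
  0)]⟩,⟨0,[(39,0),(2,0)]⟩⟩,[.o ⟨false,1,⟨0,[(21,0)]⟩,⟨0,[(8,0)]⟩⟩,.a ⟨true,1,⟨0,[(9,0)]⟩,⟨0,[(7,
  0)]⟩⟩ ⟨true,1,⟨0,[(42,0)]⟩,⟨1,[(10,1),(0,2),(14,0),(1,1),(8,0)]⟩⟩ ⟨false,1,⟨1,[(41,0),(0,0)]⟩,⟨0,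
  [(44,0)]⟩⟩,.o ⟨false,1,⟨0,[(21,0)]⟩,⟨0,[(8,0)]⟩⟩,.o ⟨false,1,⟨1,[(21,1),(6,0),(0,0)]⟩,⟨0,[(0,
  0)]⟩⟩]⟩) (.S ⟨1,0,[0,-1],[1,0,0,0,-1],[],(⟨0,[(23,0)]⟩,⟨0,[(24,0)]⟩),⟨4,[(0,0),(1,0),(1,1),(18,3),
  (8,6),(7,1),(1,0),(0,0)]⟩,.k,(.r (-1) ⟨1,[(4,0),(34,0),(2,1)]⟩ ⟨1,[(28,0),(0,0),(10,1),(3,1)]⟩),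
  ⟨true,0,⟨0,[(44,0)]⟩,⟨0,[]⟩⟩,⟨false,1,⟨3,[(9,1),(12,1),(10,0),(8,0)]⟩,⟨0,[]⟩⟩,⟨false,0,⟨0,[(40,
  0)]⟩,⟨0,[(39,0),(2,0)]⟩⟩,⟨true,0,⟨0,[(40,0)]⟩,⟨0,[(39,0)]⟩⟩,[.e ⟨false,1,⟨4,[(9,1),(7,1),(3,0),(0,
  0),(13,0)]⟩,⟨0,[]⟩⟩ ⟨false,1,⟨1,[(41,0),(0,0)]⟩,⟨0,[(44,0)]⟩⟩,.o ⟨false,2,⟨1,[(9,1),(23,0),(8,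
  0)]⟩,⟨7,[(0,1),(3,0),(2,9),(3,1),(14,1),(10,3),(2,0),(3,0)]⟩⟩,.o ⟨false,1,⟨0,[(21,0)]⟩,⟨0,[(8,
  0)]⟩⟩,.a ⟨true,0,⟨0,[(0,0)]⟩,⟨1,[(7,1),(33,0),(0,0)]⟩⟩ ⟨false,1,⟨1,[(41,0),(0,0)]⟩,⟨1,[(28,0),(0,
  0)]⟩⟩ ⟨true,1,⟨1,[(41,0),(0,0)]⟩,⟨1,[(0,1),(6,1),(3,0),(14,0),(10,0)]⟩⟩]⟩)) (.Q [0,0,1,0,0,0,0,0,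
  -1,1,0,-1] (.p false [0,0,0,0,1] [1] (⟨0,[(23,0)]⟩,⟨0,[(22,0)]⟩) .k 1 (⟨0,[]⟩,⟨0,[]⟩) .k .k) (.S
  ⟨1,0,[0,-1],[1,0,0,0,-1],[1,0,0,-1],(⟨0,[(23,0)]⟩,⟨0,[(24,0)]⟩),⟨4,[(0,0),(1,0),(1,1),(18,3),(8,
  6),(7,1),(1,0),(0,0)]⟩,.k,(.r (-1) ⟨1,[(4,0),(34,0),(2,1)]⟩ ⟨1,[(28,0),(0,0),(10,1),(3,1)]⟩),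
  ⟨true,0,⟨0,[(39,0)]⟩,⟨0,[(40,0)]⟩⟩,⟨false,1,⟨3,[(9,1),(12,1),(10,0),(8,0)]⟩,⟨0,[]⟩⟩,⟨false,0,⟨0,
  []⟩,⟨3,[(9,1),(12,1),(10,0),(8,0)]⟩⟩,⟨true,0,⟨0,[(40,0)]⟩,⟨0,[(39,0)]⟩⟩,[.e ⟨false,1,⟨1,[(6,0),
  (10,0),(21,0)]⟩,⟨0,[(40,0)]⟩⟩ ⟨false,1,⟨1,[(41,0),(0,0)]⟩,⟨0,[(44,0)]⟩⟩,.o ⟨false,2,⟨1,[(9,1),(23,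
  0),(8,0)]⟩,⟨7,[(0,1),(3,0),(2,9),(3,1),(14,1),(10,3),(2,0),(3,0)]⟩⟩,.o ⟨false,1,⟨0,[(21,0)]⟩,⟨0,
  [(8,0)]⟩⟩,.a ⟨true,0,⟨0,[(0,0)]⟩,⟨1,[(7,1),(33,0),(0,0)]⟩⟩ ⟨false,1,⟨1,[(4,0),(34,0),(2,1)]⟩,⟨1,
  [(28,0),(0,0),(10,1)]⟩⟩ ⟨true,1,⟨1,[(41,0),(0,0)]⟩,⟨1,[(0,1),(6,1),(3,0),(14,0),(10,0)]⟩⟩]⟩) (.S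
  ⟨1,0,[],[1,0,0,0,-1],[0,-1],(⟨0,[(23,0)]⟩,⟨0,[(24,0)]⟩),⟨4,[(1,0),(0,0),(0,0),(0,0),(5,0),(12,3),
  (8,6),(7,1),(1,0),(0,0)]⟩,.k,(.r (-1) ⟨1,[(4,0),(34,0),(2,1)]⟩ ⟨1,[(28,0),(0,0),(10,1),(3,1)]⟩),
  ⟨false,1,⟨3,[(9,1),(12,1),(10,0),(8,0)]⟩,⟨0,[]⟩⟩,⟨true,0,⟨0,[(44,0)]⟩,⟨0,[]⟩⟩,⟨true,0,⟨0,[(40,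
  0)]⟩,⟨0,[(39,0)]⟩⟩,⟨false,0,⟨0,[(40,0)]⟩,⟨0,[(39,0),(2,0)]⟩⟩,[.o ⟨false,1,⟨0,[(21,0)]⟩,⟨0,[(8,
  0)]⟩⟩,.a ⟨true,1,⟨0,[(9,0)]⟩,⟨0,[(7,0)]⟩⟩ ⟨true,1,⟨0,[(42,0)]⟩,⟨1,[(10,1),(0,2),(14,0),(1,1),(8,
  0)]⟩⟩ ⟨false,1,⟨1,[(41,0),(0,0)]⟩,⟨0,[(44,0)]⟩⟩,.o ⟨false,1,⟨0,[(21,0)]⟩,⟨0,[(8,0)]⟩⟩,.o ⟨false,1,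
  ⟨1,[(21,1),(6,0),(0,0)]⟩,⟨0,[(0,0)]⟩⟩]⟩))))))))) (.Q [0,0,-1,0,1,0,1,0,0,-1,1] (.p true [0,0,1]
  [1] (⟨0,[(23,0)]⟩,⟨0,[(22,0)]⟩) .k 1 (⟨0,[]⟩,⟨0,[]⟩) .k .k) (.Q [0,-1,0,1,1,0,1,1,0,-1,1] (.p
  true [0,0,1] [1] (⟨0,[(24,0)]⟩,⟨0,[(23,0)]⟩) .k 1 (⟨0,[]⟩,⟨0,[]⟩) .k .k) (.R ⟨1,false,false,true,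
  [0,0,1],[1,-1],[0,1,0,-1],(⟨0,[(25,0)]⟩,⟨0,[(24,0)]⟩),(⟨0,[(28,0)]⟩,⟨0,[(29,0)]⟩),⟨0,[(14,0)]⟩,.k,
  .k,.k,.k,.k,.k,⟨true,0,⟨1,[(22,0),(0,0)]⟩,⟨0,[]⟩⟩,⟨false,0,⟨1,[(12,0),(15,0),(0,0)]⟩,⟨0,[(1,0)]⟩⟩,
  ⟨true,0,⟨0,[(7,0),(14,0),(9,0)]⟩,⟨0,[(4,0),(29,0)]⟩⟩,⟨false,0,⟨0,[(5,0),(27,0),(2,0)]⟩,⟨0,[(0,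
  0)]⟩⟩,⟨true,0,⟨1,[(1,0),(3,0),(15,0),(0,0)]⟩,⟨0,[(4,0)]⟩⟩,⟨true,(-1),⟨0,[(5,0)]⟩,⟨3,[(0,1),(8,1),
  (5,0),(0,0),(10,0)]⟩⟩,[.o ⟨false,0,⟨0,[(33,0)]⟩,⟨2,[(0,0),(7,0),(22,0),(2,1),(1,0)]⟩⟩,.e ⟨false,1,
  ⟨2,[(3,0),(7,0),(20,0),(0,1),(2,0)]⟩,⟨0,[(34,0)]⟩⟩ ⟨false,0,⟨0,[(4,0),(0,0),(26,0),(3,0)]⟩,⟨1,[(0,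
  0),(0,0),(19,0),(0,0),(11,0)]⟩⟩,.o ⟨false,1,⟨3,[(1,1),(13,0),(0,0),(5,1),(4,0)]⟩,⟨0,[(10,0)]⟩⟩,.a
  ⟨true,0,⟨0,[(22,0)]⟩,⟨0,[(19,0)]⟩⟩ ⟨true,0,⟨0,[(32,0)]⟩,⟨1,[(22,0),(0,0),(10,1)]⟩⟩ ⟨false,0,⟨0,
  [(4,0),(0,0),(26,0),(3,0)]⟩,⟨2,[(0,0),(7,0),(13,2),(8,0),(2,1),(1,0)]⟩⟩]⟩) (.I [1,0,0,-1,0,0,0,1]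
  (.Q [0,0,0,0,0,-1,0,0,0,0,1,-1] (.p true [0,0,1] [0,0,0,0,1] (⟨0,[(26,0)]⟩,⟨0,[(25,0)]⟩) .k 2 (⟨0,
  [(19,0)]⟩,⟨0,[(18,0)]⟩) .k (.r (-1) ⟨4,[(4,0),(0,2),(6,0),(8,1),(2,1),(12,2)]⟩ ⟨1,[(2,0),(3,0),
  (15,0),(0,0)]⟩)) (.Q [0,0,-1,0,0,0,-1,0,1,0,-1,1] (.p true [1,0,-1,0,1] [1] (⟨0,[(20,0),(5,0)]⟩,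
  ⟨0,[(0,0),(30,0)]⟩) .k 1 (⟨0,[]⟩,⟨0,[]⟩) .k (.r 0 ⟨1,[(3,0),(3,0),(15,0),(0,0)]⟩ ⟨4,[(5,0),(0,2),
  (6,0),(8,1),(2,1),(12,2)]⟩)) (.Q [0,0,0,0,1,0,1,0,-1,-1,1,-1] (.p false [1,0,-1,0,1] [] (⟨0,[(21,
  0),(5,0)]⟩,⟨0,[(1,0),(30,0)]⟩) .k 0 (⟨0,[]⟩,⟨0,[]⟩) .k (.r 0 ⟨1,[(4,0),(3,0),(15,0),(0,0)]⟩ ⟨4,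
  [(6,0),(0,2),(6,0),(8,1),(2,1),(12,2)]⟩)) (.R ⟨1,false,false,true,[0,0,1,0,-1],[1,0,0,0,-1],[0,0,
  0,0,0,0,0,1],(⟨0,[(2,0),(30,0)]⟩,⟨0,[(22,0),(5,0)]⟩),(⟨0,[(21,0)]⟩,⟨0,[(22,0)]⟩),⟨0,[(2,0)]⟩,.k,
  .k,(.r (-1) ⟨1,[(3,1),(35,0),(0,0)]⟩ ⟨0,[(25,0),(0,0),(11,0)]⟩),.k,.k,.k,⟨true,0,⟨0,[(8,0)]⟩,⟨0,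
  [(11,0),(14,0)]⟩⟩,⟨false,0,⟨0,[(23,0)]⟩,⟨3,[(5,1),(13,0),(0,0),(5,1),(4,0)]⟩⟩,⟨true,0,⟨0,[(42,
  0)]⟩,⟨0,[]⟩⟩,⟨true,(-1),⟨0,[(9,0)]⟩,⟨1,[(24,1),(6,0),(8,0)]⟩⟩,⟨false,0,⟨0,[(38,0)]⟩,⟨0,[(37,0),(2,
  0)]⟩⟩,⟨true,(-1),⟨0,[(9,0),(28,0)]⟩,⟨1,[(13,1),(17,0),(8,0)]⟩⟩,[.a ⟨true,0,⟨0,[(6,0)]⟩,⟨0,[(20,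
  0)]⟩⟩ ⟨true,0,⟨0,[(8,0)]⟩,⟨0,[(11,0),(14,0)]⟩⟩ ⟨false,0,⟨0,[(23,0)]⟩,⟨3,[(5,1),(13,0),(0,0),(5,1),
  (4,0)]⟩⟩,.o ⟨false,1,⟨2,[(6,1),(0,0),(27,0),(4,0)]⟩,⟨1,[(9,0),(3,0),(6,1),(14,0),(2,0)]⟩⟩,.o
  ⟨false,1,⟨0,[(0,0)]⟩,⟨1,[(1,0),(18,0),(6,0)]⟩⟩,.o ⟨false,1,⟨1,[(0,1),(25,0),(0,0)]⟩,⟨0,[(1,
  0)]⟩⟩]⟩) (.S ⟨1,0,[0,-1,0,0,0,0,0,1],[0,0,1,0,-1],[0,0,0,0,0,0,0,1],(⟨0,[(2,0),(30,0)]⟩,⟨0,[(22,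
  0),(5,0)]⟩),⟨0,[(2,0)]⟩,.k,(.r (-1) ⟨1,[(3,1),(35,0),(0,0)]⟩ ⟨0,[(25,0),(0,0),(11,0)]⟩),⟨true,0,
  ⟨0,[(42,0)]⟩,⟨0,[]⟩⟩,⟨false,1,⟨3,[(7,1),(12,1),(10,0),(8,0)]⟩,⟨0,[]⟩⟩,⟨false,0,⟨0,[(38,0)]⟩,⟨0,
  [(37,0),(2,0)]⟩⟩,⟨true,0,⟨0,[(38,0)]⟩,⟨0,[(37,0)]⟩⟩,[.o ⟨false,2,⟨2,[(6,0),(0,1),(16,2),(10,1),(4,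
  1)]⟩,⟨1,[(0,1),(3,0),(0,0),(3,0),(16,0),(8,0),(2,0)]⟩⟩,.o ⟨false,2,⟨1,[(5,0),(0,1),(1,1),(17,0),
  (8,0),(4,1)]⟩,⟨1,[(0,0),(8,1),(10,0),(5,0),(7,0),(0,0)]⟩⟩,.a ⟨true,1,⟨1,[(5,0),(0,0),(12,0),(6,
  0)]⟩,⟨0,[(0,0)]⟩⟩ ⟨true,0,⟨0,[(8,0)]⟩,⟨1,[(5,0),(3,0),(15,0),(0,0)]⟩⟩ ⟨false,1,⟨0,[(8,0),(31,0)]⟩,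
  ⟨1,[(5,0),(3,0),(15,0),(0,0)]⟩⟩,.o ⟨false,1,⟨7,[(5,0),(0,4),(12,2),(6,6),(8,3),(5,1)]⟩,⟨0,[(1,
  0)]⟩⟩]⟩)) (.K ⟨0,[0,0,1,0,-1],0,1,(⟨0,[(1,0),(30,0)]⟩,⟨0,[(21,0),(5,0)]⟩),.k,(.r (-1) ⟨1,[(2,1),
  (35,0),(0,0)]⟩ ⟨0,[(24,0),(0,0),(11,0)]⟩),(.r (-1) ⟨0,[(23,0),(2,0),(10,0),(1,0)]⟩ ⟨0,[(3,0),(0,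
  0)]⟩),.k,.k,[⟨0,[(19,0)]⟩,⟨0,[(0,0)]⟩,⟨1,[(8,2),(3,0),(6,1),(14,0),(2,0)]⟩,⟨5,[(0,1),(3,0),(1,3),
  (0,1),(1,0),(13,2),(10,0)]⟩]⟩)) (.Q [0,0,-2,0,1,0,0,0,0,-1] (.pp true [-1,1]) (.I [1,-1,2,1] (.S
  ⟨1,0,[0,0,-1,-1],[1,-1],[0,1,-1,-1],(⟨0,[(32,0)]⟩,⟨0,[(33,0)]⟩),⟨0,[(17,0),(0,0)]⟩,.k,(.r (-1) ⟨0,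
  [(36,1),(3,0)]⟩ ⟨2,[(0,3),(33,1),(3,1)]⟩),⟨true,0,⟨0,[(42,0)]⟩,⟨0,[]⟩⟩,⟨false,1,⟨3,[(7,1),(12,1),
  (10,0),(8,0)]⟩,⟨0,[]⟩⟩,⟨false,0,⟨0,[(38,0)]⟩,⟨0,[(37,0),(2,0)]⟩⟩,⟨true,0,⟨0,[(38,0)]⟩,⟨0,[(37,
  0)]⟩⟩,[.a ⟨true,0,⟨1,[(4,0),(8,0),(18,0),(0,0),(6,0)]⟩,⟨0,[(38,0)]⟩⟩ ⟨true,0,⟨0,[(36,0)]⟩,⟨0,[(0,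
  0)]⟩⟩ ⟨false,1,⟨1,[(36,1),(2,0),(0,0)]⟩,⟨2,[(0,1),(33,0),(3,0)]⟩⟩,.o ⟨false,1,⟨0,[(37,0),(2,0)]⟩,
  ⟨1,[(9,0),(14,0),(10,0),(2,1)]⟩⟩,.o ⟨false,0,⟨1,[(0,0),(36,0)]⟩,⟨3,[(15,0),(3,0),(15,0),(3,0)]⟩⟩,
  .o ⟨false,0,⟨0,[(0,0),(36,0)]⟩,⟨0,[(1,0)]⟩⟩]⟩) (.Q [0,0,-1,0,0,0,0,0,-1,1,0,-1] (.p false [0,0,0,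
  0,1] [1] (⟨0,[(22,0)]⟩,⟨0,[(21,0)]⟩) .k 1 (⟨0,[]⟩,⟨0,[]⟩) .k .k) (.Q [0,0,0,0,0,0,0,0,0,-1,1,1]
  (.ed false [0,0,1,0,1] (.r 0 ⟨1,[(11,0),(13,0),(2,0)]⟩ ⟨1,[(6,0),(5,0),(0,0),(13,0),(13,0)]⟩))
  (.S ⟨1,0,[0,1,-1,-1],[0,-1,0,0,1],[0,2,-1,-1],(⟨0,[(0,0),(18,0)]⟩,⟨0,[(23,0),(11,0)]⟩),⟨3,[(0,2),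
  (1,0),(1,0),(1,0),(3,0),(8,1),(8,0),(3,6),(7,1),(1,0),(0,0)]⟩,(.r 0 ⟨0,[(38,0)]⟩ ⟨3,[(9,1),(12,1),
  (5,1),(0,1),(3,0),(6,3),(1,0)]⟩),(.x 0 ⟨0,[(10,1),(0,1),(10,0),(0,0),(4,1),(6,1),(1,0),(4,0)]⟩
  ⟨17,[(0,17),(0,15),(1,9),(15,26),(0,8),(0,1),(15,4),(4,0),(1,1)]⟩),⟨true,0,⟨0,[(44,0)]⟩,⟨0,[]⟩⟩,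
  ⟨false,1,⟨3,[(9,1),(12,1),(10,0),(8,0)]⟩,⟨0,[]⟩⟩,⟨false,0,⟨0,[(40,0)]⟩,⟨0,[(39,0),(2,0)]⟩⟩,⟨true,
  0,⟨0,[(40,0)]⟩,⟨0,[(39,0)]⟩⟩,[.o ⟨false,0,⟨7,[(2,0),(3,3),(3,0),(4,2),(6,7),(5,0),(8,3),(5,0)]⟩,
  ⟨2,[(8,1),(0,0),(27,0),(2,2),(1,0)]⟩⟩,.e ⟨false,0,⟨0,[(2,0)]⟩,⟨3,[(9,1),(12,1),(5,1),(0,1),(3,0),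
  (6,3),(1,0)]⟩⟩ ⟨false,1,⟨2,[(2,1),(6,0),(7,0),(21,0),(2,0)]⟩,⟨1,[(28,0),(0,0),(10,1)]⟩⟩,.a ⟨true,
  0,⟨1,[(22,1),(5,0),(0,0)]⟩,⟨0,[(1,0)]⟩⟩ ⟨false,0,⟨0,[(38,0)]⟩,⟨1,[(28,0),(0,0),(10,1),(1,1)]⟩⟩
  ⟨true,0,⟨0,[(38,0)]⟩,⟨1,[(28,0),(0,0),(10,1)]⟩⟩,.o ⟨false,0,⟨0,[(10,1),(0,1),(10,0),(5,1),(8,0),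
  (4,0)]⟩,⟨2,[(1,1),(1,1),(17,0)]⟩⟩]⟩) (.Q [0,2,0,0,-1,0,0,0,1,0,0,1] (.p true [0,0,0,0,1] [] (⟨0,
  [(24,0)]⟩,⟨0,[(23,0)]⟩) .k 0 (⟨0,[]⟩,⟨0,[]⟩) .k .k) (.S ⟨1,0,[0,-1],[1,0,0,0,-1],[],(⟨0,[(24,0)]⟩,
  ⟨0,[(25,0)]⟩),⟨0,[(1,0),(19,0)]⟩,.k,(.r (-1) ⟨1,[(3,0),(36,0),(2,1)]⟩ ⟨1,[(29,0),(0,0),(10,1),(3,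
  1)]⟩),⟨true,0,⟨0,[(45,0)]⟩,⟨0,[]⟩⟩,⟨false,1,⟨3,[(10,1),(12,1),(10,0),(8,0)]⟩,⟨0,[]⟩⟩,⟨false,0,⟨0,
  [(41,0)]⟩,⟨0,[(40,0),(2,0)]⟩⟩,⟨true,0,⟨0,[(41,0)]⟩,⟨0,[(40,0)]⟩⟩,[.o ⟨false,1,⟨2,[(9,1),(0,0),(27,
  0),(4,0)]⟩,⟨1,[(0,0),(22,0),(10,0)]⟩⟩,.a ⟨true,1,⟨0,[(9,0),(33,0)]⟩,⟨0,[(0,0)]⟩⟩ ⟨false,1,⟨1,[(42,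
  0),(0,0)]⟩,⟨0,[(45,0)]⟩⟩ ⟨true,1,⟨0,[(43,0)]⟩,⟨1,[(0,0),(8,0),(1,1),(0,1),(16,1),(8,0)]⟩⟩,.e
  ⟨false,1,⟨3,[(10,1),(12,1),(10,0),(8,0)]⟩,⟨0,[]⟩⟩ ⟨false,1,⟨0,[(43,0)]⟩,⟨0,[(45,0)]⟩⟩,.o ⟨false,0,
  ⟨0,[(2,0),(8,1),(0,1),(16,1),(8,0),(4,0)]⟩,⟨3,[(18,1),(3,0),(0,2),(10,0)]⟩⟩]⟩) (.R ⟨1,false,false,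
  true,[0,0,1,0,1],[0,0,0,0,1],[0,1,0,0,0,0,0,1],(⟨0,[(25,0),(6,0)]⟩,⟨0,[(1,0)]⟩),(⟨0,[(25,0)]⟩,⟨0,
  [(24,0)]⟩),⟨0,[(21,0),(3,0)]⟩,.k,.k,(.r 0 ⟨3,[(3,0),(2,1),(6,1),(26,0)]⟩ ⟨1,[(15,1),(13,1),(4,0),
  (6,1),(1,0)]⟩),.k,.k,.k,⟨false,1,⟨0,[(13,0),(29,0)]⟩,⟨1,[(8,0),(3,0),(15,0),(0,0)]⟩⟩,⟨true,0,⟨0,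
  [(17,0)]⟩,⟨0,[(29,0)]⟩⟩,⟨false,1,⟨3,[(10,1),(12,1),(10,0),(8,0)]⟩,⟨0,[]⟩⟩,⟨false,0,⟨0,[(14,0)]⟩,
  ⟨0,[(27,0),(15,0)]⟩⟩,⟨true,0,⟨0,[(41,0)]⟩,⟨0,[(40,0)]⟩⟩,⟨false,0,⟨0,[(14,0),(26,0)]⟩,⟨0,[(16,0),
  (26,0)]⟩⟩,[.o ⟨false,0,⟨1,[(12,0),(10,1),(3,0),(10,0),(6,1)]⟩,⟨0,[(0,0)]⟩⟩,.o ⟨false,0,⟨11,[(3,0),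
  (7,1),(0,5),(10,11),(3,3),(1,1),(8,5),(2,0),(3,0)]⟩,⟨1,[(0,0),(21,0)]⟩⟩,.o ⟨false,1,⟨3,[(8,1),(13,
  0),(0,4),(5,1),(4,0)]⟩,⟨1,[(0,0),(8,0),(1,1),(0,1),(25,0)]⟩⟩,.a ⟨true,0,⟨0,[(23,0),(5,0)]⟩,⟨0,[(2,
  0),(14,0)]⟩⟩ ⟨true,0,⟨0,[(13,0)]⟩,⟨0,[(14,0),(14,0)]⟩⟩ ⟨false,0,⟨7,[(4,1),(7,2),(0,3),(5,1),(8,0),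
  (9,0)]⟩,⟨0,[(29,0),(13,0)]⟩⟩]⟩))) (.Q [0,0,0,0,0,0,0,0,0,0,1,-1] (.ed true [1,0,-1,0,1] (.r 0 ⟨1,
  [(6,0),(3,0),(15,0),(0,0)]⟩ ⟨4,[(8,0),(0,2),(6,0),(8,1),(2,1),(12,2)]⟩)) (.R ⟨0,false,false,true,
  [0,0,1,0,-1],[1,0,0,0,-1],[0,0,1],(⟨0,[(0,0)]⟩,⟨0,[(4,0),(29,0)]⟩),(⟨0,[(23,0)]⟩,⟨0,[(24,0)]⟩),⟨0,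
  [(4,0)]⟩,.k,.k,(.r (-1) ⟨1,[(5,1),(35,0),(0,0)]⟩ ⟨0,[(27,0),(0,0),(11,0)]⟩),.k,.k,.k,⟨true,0,⟨1,
  [(28,0),(0,0)]⟩,⟨0,[]⟩⟩,⟨false,0,⟨0,[(25,0)]⟩,⟨2,[(1,0),(5,1),(13,0),(6,0)]⟩⟩,⟨false,0,⟨0,[(13,0),
  (14,0)]⟩,⟨0,[(12,0),(29,0)]⟩⟩,⟨true,(-1),⟨0,[(11,0)]⟩,⟨1,[(26,1),(6,0),(8,0)]⟩⟩,⟨false,0,⟨0,[]⟩,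
  ⟨0,[]⟩⟩,⟨false,0,⟨0,[]⟩,⟨0,[]⟩⟩,[.a ⟨true,0,⟨0,[(8,0)]⟩,⟨0,[(22,0)]⟩⟩ ⟨true,0,⟨1,[(28,0),(0,0)]⟩,
  ⟨0,[]⟩⟩ ⟨false,0,⟨0,[(25,0)]⟩,⟨2,[(1,0),(5,1),(13,0),(6,0)]⟩⟩,.o ⟨false,1,⟨2,[(8,1),(0,0),(27,0),
  (4,0)]⟩,⟨2,[(1,2),(0,0),(33,0),(3,0)]⟩⟩,.o ⟨false,1,⟨12,[(2,1),(4,4),(0,12),(19,7),(8,6),(2,1),(1,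
  0),(0,0)]⟩,⟨0,[(16,0),(5,0)]⟩⟩,.o ⟨false,1,⟨7,[(7,0),(0,4),(12,2),(6,6),(8,3),(5,1)]⟩,⟨0,[(1,0),
  (0,0),(7,0),(0,0),(28,0),(1,0)]⟩⟩]⟩) (.S ⟨1,0,[0,2],[0,0,0,0,1],[1,1,0,-1],(⟨0,[(24,0)]⟩,⟨0,[(23,
  0)]⟩),⟨0,[(0,0),(19,0)]⟩,.k,(.r 0 ⟨0,[(38,0)]⟩ ⟨0,[(1,0),(7,0),(30,0)]⟩),⟨false,1,⟨0,[(39,0),(2,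
  0)]⟩,⟨0,[(40,0)]⟩⟩,⟨true,0,⟨0,[(44,0)]⟩,⟨0,[]⟩⟩,⟨true,0,⟨0,[]⟩,⟨0,[(44,0)]⟩⟩,⟨false,0,⟨0,[(40,
  0)]⟩,⟨0,[(39,0),(2,0)]⟩⟩,[.e ⟨false,0,⟨1,[(2,0),(36,0)]⟩,⟨4,[(1,1),(7,2),(7,0),(22,4),(1,0)]⟩⟩
  ⟨false,0,⟨0,[(36,0)]⟩,⟨0,[(42,0)]⟩⟩,.o ⟨false,0,⟨2,[(1,2),(0,0),(33,0),(3,0)]⟩,⟨2,[(8,1),(0,0),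
  (27,0),(4,0)]⟩⟩,.a ⟨true,0,⟨0,[(22,0)]⟩,⟨0,[(8,0)]⟩⟩ ⟨true,0,⟨0,[(39,0)]⟩,⟨0,[(40,0)]⟩⟩ ⟨false,0,
  ⟨0,[(44,0)]⟩,⟨0,[(42,0)]⟩⟩,.o ⟨false,0,⟨0,[(1,0)]⟩,⟨1,[(3,0),(4,0),(12,0)]⟩⟩]⟩)))) (.Q [0,0,0,0,0,
  -1,0,0,0,0,0,1] (.ed false [1,-1,0,0,1] .k) (.Q [0,0,1,0,0,0,0,0,1,-1,0,1] (.p true [0,0,0,0,1]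
  [1] (⟨0,[(22,0)]⟩,⟨0,[(21,0)]⟩) .k 1 (⟨0,[]⟩,⟨0,[]⟩) .k .k) (.S ⟨1,0,[0,1],[0,0,0,0,1],[1,2,0,-1],
  (⟨0,[(23,0)]⟩,⟨0,[(22,0)]⟩),⟨0,[(1,0)]⟩,.k,(.r 0 ⟨0,[(37,0)]⟩ ⟨0,[(0,0),(7,0),(30,0)]⟩),⟨true,0,
  ⟨0,[(38,0)]⟩,⟨0,[(39,0)]⟩⟩,⟨false,1,⟨4,[(0,1),(7,2),(7,0),(24,0)]⟩,⟨0,[]⟩⟩,⟨false,0,⟨0,[]⟩,⟨4,[(0,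
  1),(7,2),(7,0),(24,0)]⟩⟩,⟨true,0,⟨0,[(39,0)]⟩,⟨0,[(38,0)]⟩⟩,[.o ⟨false,0,⟨12,[(0,8),(9,5),(5,3),
  (8,5),(10,1),(0,0),(1,0)]⟩,⟨2,[(7,1),(0,0),(27,0),(4,0)]⟩⟩,.e ⟨false,0,⟨0,[(37,0)]⟩,⟨4,[(0,1),(7,
  2),(7,0),(22,4),(1,0)]⟩⟩ ⟨false,1,⟨4,[(8,1),(7,1),(3,0),(0,0),(13,0)]⟩,⟨0,[]⟩⟩,.a ⟨true,0,⟨0,[(21,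
  0)]⟩,⟨0,[(7,0)]⟩⟩ ⟨false,0,⟨0,[(38,0)]⟩,⟨0,[(39,0),(1,0)]⟩⟩ ⟨true,0,⟨0,[(43,0)]⟩,⟨0,[]⟩⟩,.o
  ⟨false,0,⟨0,[(0,0)]⟩,⟨3,[(7,2),(12,0),(15,0),(3,1)]⟩⟩]⟩) (.I [0,0,-1,0,1,-1,1] (.I [0,1,-1,-1,0,0,
  0,-1] (.I [0,0,-2,0,1,0,0,0,1] (.I [0,0,-3,0,1] (.C [(0,0),(3,0),(1,2),(13,0),(19,0)]) (.C [(0,0),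
  (3,0),(15,0)])) (.C [(0,0),(18,0),(5,0)])) (.C [(0,0),(6,0),(0,0)])) (.C [(0,0),(6,0),(11,0)])))
  (.Q [0,0,-1,0,0,0,-1,0,1,0,-1,1] (.p true [1,0,-1,0,1] [1] (⟨0,[(2,0),(29,0)]⟩,⟨0,[(0,0),(17,
  0)]⟩) .k 1 (⟨0,[]⟩,⟨0,[]⟩) .k (.r 0 ⟨1,[(5,0),(3,0),(15,0),(0,0)]⟩ ⟨4,[(7,0),(0,2),(6,0),(8,1),(2,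
  1),(12,2)]⟩)) (.Q [0,0,0,0,1,0,1,0,-1,-1,1,-1] (.p false [1,0,-1,0,1] [] (⟨0,[(3,0),(29,0)]⟩,⟨0,
  [(1,0),(17,0)]⟩) .k 0 (⟨0,[]⟩,⟨0,[]⟩) .k (.r 0 ⟨1,[(6,0),(3,0),(15,0),(0,0)]⟩ ⟨4,[(8,0),(0,2),(6,
  0),(8,1),(2,1),(12,2)]⟩)) (.R ⟨0,false,false,true,[0,0,1,0,-1],[1,0,0,0,-1],[0,0,1],(⟨0,[(2,0),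
  (17,0)]⟩,⟨0,[(4,0),(29,0)]⟩),(⟨0,[(23,0)]⟩,⟨0,[(24,0)]⟩),⟨0,[(4,0)]⟩,.k,.k,(.r (-1) ⟨1,[(5,1),(35,
  0),(0,0)]⟩ ⟨0,[(27,0),(0,0),(11,0)]⟩),.k,.k,.k,⟨true,0,⟨1,[(28,0),(0,0)]⟩,⟨0,[]⟩⟩,⟨false,0,⟨0,
  [(25,0)]⟩,⟨3,[(7,1),(13,0),(0,0),(5,1),(4,0)]⟩⟩,⟨false,0,⟨0,[(13,0),(14,0)]⟩,⟨0,[(12,0),(29,0)]⟩⟩,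
  ⟨true,(-1),⟨0,[(11,0)]⟩,⟨1,[(26,1),(6,0),(8,0)]⟩⟩,⟨false,0,⟨0,[]⟩,⟨0,[]⟩⟩,⟨false,0,⟨0,[]⟩,⟨0,[]⟩⟩,
  [.a ⟨true,0,⟨0,[(8,0)]⟩,⟨0,[(22,0)]⟩⟩ ⟨true,0,⟨1,[(28,0),(0,0)]⟩,⟨0,[]⟩⟩ ⟨false,0,⟨0,[(25,0)]⟩,⟨3,
  [(7,1),(13,0),(0,0),(5,1),(4,0)]⟩⟩,.o ⟨false,1,⟨2,[(8,1),(0,0),(27,0),(4,0)]⟩,⟨7,[(3,0),(7,2),(10,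
  7),(3,2),(10,3),(0,1),(1,1)]⟩⟩,.o ⟨false,1,⟨0,[(0,0)]⟩,⟨1,[(1,0),(20,0),(6,0)]⟩⟩,.o ⟨false,1,⟨1,
  [(0,1),(27,0),(0,0)]⟩,⟨0,[(1,0)]⟩⟩]⟩) (.I [0,0,-1,0,0,1,0,0,1] (.I [0,0,1,0,0,2,1] (.I [0,1,-1,-1,
  0,0,0,-1] (.I [0,0,-1,0,1,1,1,0,-1] (.C [(0,0),(2,0),(0,0),(2,0),(4,0),(11,0),(11,0),(4,0)]) (.C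
  [(0,0),(7,0),(2,0),(0,0)])) (.C [(0,0),(8,0),(0,0)])) (.C [(0,0),(0,0),(0,0),(2,1),(0,0),(2,1),(0,
  1),(28,0)])) (.C [(0,0),(0,0),(1,0),(4,0)]))) (.K ⟨0,[0,0,1,0,-1],0,1,(⟨0,[(1,0),(17,0)]⟩,⟨0,[(3,
  0),(29,0)]⟩),.k,(.r (-1) ⟨1,[(4,1),(35,0),(0,0)]⟩ ⟨0,[(26,0),(0,0),(11,0)]⟩),(.r (-1) ⟨0,[(25,0),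
  (2,0),(10,0),(1,0)]⟩ ⟨0,[(5,0),(0,0)]⟩),.k,.k,[⟨0,[(21,0)]⟩,⟨0,[(0,0)]⟩,⟨7,[(2,0),(7,10),(10,7),
  (3,2),(10,3),(0,1),(1,1)]⟩,⟨5,[(0,1),(5,0),(1,3),(0,1),(1,0),(13,2),(10,0)]⟩]⟩))))) (.S ⟨1,0,[0,1,
  0,0,0,0,0,1],[0,0,1],[1,0,0,-1,0,0,0,1],(⟨0,[(26,0)]⟩,⟨0,[(25,0)]⟩),⟨0,[(15,0)]⟩,.k,.k,⟨false,1,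
  ⟨0,[(34,0),(2,0)]⟩,⟨0,[(35,0)]⟩⟩,⟨true,0,⟨0,[(39,0)]⟩,⟨0,[]⟩⟩,⟨true,0,⟨0,[]⟩,⟨0,[(39,0)]⟩⟩,⟨false,
  0,⟨0,[(35,0)]⟩,⟨0,[(34,0),(2,0)]⟩⟩,[.e ⟨false,1,⟨7,[(7,1),(2,5),(2,2),(18,0),(0,1),(2,1),(0,4)]⟩,
  ⟨0,[(0,0)]⟩⟩ ⟨false,0,⟨0,[(7,0)]⟩,⟨1,[(2,0),(5,0),(0,0),(13,0),(13,0)]⟩⟩,.o ⟨false,1,⟨1,[(21,1),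
  (6,0),(8,0)]⟩,⟨0,[(8,0)]⟩⟩,.o ⟨false,1,⟨3,[(2,1),(13,0),(0,0),(5,1),(4,0)]⟩,⟨0,[(11,0)]⟩⟩,.a
  ⟨true,0,⟨0,[(23,0)]⟩,⟨0,[(20,0)]⟩⟩ ⟨false,1,⟨0,[(5,0),(27,0),(3,0)]⟩,⟨1,[(0,1),(22,0),(0,0)]⟩⟩
  ⟨true,0,⟨0,[(7,0)]⟩,⟨0,[(8,0),(14,0)]⟩⟩]⟩))) (.Q [0,0,0,0,0,-1,0,0,0,0,0,1] (.ed false [1,-1,0,0,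
  1] .k) (.Q [0,0,1,0,0,0,0,0,1,-1,0,1] (.p true [0,0,0,0,1] [1] (⟨0,[(18,0)]⟩,⟨0,[(17,0)]⟩) .k 1
  (⟨0,[]⟩,⟨0,[]⟩) .k .k) (.S ⟨1,0,[0,1],[0,0,0,0,1],[1,2,0,-1],(⟨0,[(19,0)]⟩,⟨0,[(18,0)]⟩),⟨0,[(1,
  0)]⟩,.k,(.r 0 ⟨0,[(33,0)]⟩ ⟨0,[(0,0),(3,0),(30,0)]⟩),⟨true,0,⟨0,[(34,0)]⟩,⟨0,[(35,0)]⟩⟩,⟨false,1,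
  ⟨4,[(0,1),(3,2),(7,0),(24,0)]⟩,⟨0,[]⟩⟩,⟨false,0,⟨0,[]⟩,⟨4,[(0,1),(3,2),(7,0),(24,0)]⟩⟩,⟨true,0,⟨0,
  [(35,0)]⟩,⟨0,[(34,0)]⟩⟩,[.o ⟨false,0,⟨12,[(0,8),(5,5),(5,3),(8,5),(10,1),(0,0),(1,0)]⟩,⟨2,[(3,1),
  (0,0),(27,0),(4,0)]⟩⟩,.e ⟨false,0,⟨0,[(33,0)]⟩,⟨4,[(0,1),(3,2),(7,0),(22,4),(1,0)]⟩⟩ ⟨false,1,⟨4,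
  [(4,1),(7,1),(3,0),(0,0),(13,0)]⟩,⟨0,[]⟩⟩,.a ⟨true,0,⟨0,[(17,0)]⟩,⟨0,[(3,0)]⟩⟩ ⟨false,0,⟨0,[(34,
  0)]⟩,⟨0,[(35,0),(1,0)]⟩⟩ ⟨true,0,⟨0,[(39,0)]⟩,⟨0,[]⟩⟩,.o ⟨false,0,⟨0,[(0,0)]⟩,⟨3,[(3,2),(12,0),
  (15,0),(3,1)]⟩⟩]⟩) (.I [0,0,-3,0,1] (.C [(0,0),(0,0),(1,2),(9,0),(10,2),(8,0)]) (.C [(0,0),(0,0),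
  (11,0)]))) (.Q [0,0,0,0,0,0,0,0,2,-1,0,2] (.p true [0,0,0,0,1] [1,0,0,0,-1] (⟨0,[(18,0)]⟩,⟨0,[(17,
  0)]⟩) .k 2 (⟨0,[(17,0)]⟩,⟨0,[(18,0)]⟩) .k (.r 0 ⟨0,[(38,1)]⟩ ⟨0,[(36,0)]⟩)) (.R ⟨0,false,false,
  false,[0,0,0,0,1],[1,-1,0,0,1],[0,1,0,-1],(⟨0,[(19,0)]⟩,⟨0,[(18,0)]⟩),(⟨0,[(19,0),(9,0)]⟩,⟨0,[(1,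
  0)]⟩),⟨0,[(1,0)]⟩,.k,(.r 0 ⟨0,[(33,0)]⟩ ⟨5,[(0,1),(3,3),(18,2),(0,2),(3,0),(6,5),(1,0)]⟩),(.r 0
  ⟨0,[(33,0)]⟩ ⟨5,[(0,1),(3,3),(18,2),(0,2),(3,0),(6,5),(1,0)]⟩),.k,.k,.k,⟨true,0,⟨1,[(23,0),(0,
  0)]⟩,⟨0,[]⟩⟩,⟨false,0,⟨0,[(29,0),(0,0)]⟩,⟨3,[(12,0),(3,0),(15,0),(3,0)]⟩⟩,⟨false,1,⟨0,[(34,0),(2,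
  0)]⟩,⟨0,[(35,0)]⟩⟩,⟨true,0,⟨0,[(6,0),(3,0),(26,0)]⟩,⟨1,[(6,0),(14,0),(10,0),(2,1)]⟩⟩,⟨false,0,⟨0,
  []⟩,⟨0,[]⟩⟩,⟨false,0,⟨0,[]⟩,⟨0,[]⟩⟩,[.e ⟨false,0,⟨0,[(33,0)]⟩,⟨5,[(0,1),(3,3),(23,0),(6,5),(1,
  0)]⟩⟩ ⟨false,0,⟨0,[(29,0),(0,0),(2,0)]⟩,⟨1,[(28,0),(6,1),(1,0)]⟩⟩,.o ⟨false,0,⟨1,[(0,0),(1,0),(20,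
  0),(9,1),(3,0)]⟩,⟨1,[(3,0),(12,0),(15,0),(2,1)]⟩⟩,.a ⟨true,0,⟨0,[(17,0)]⟩,⟨0,[(3,0)]⟩⟩ ⟨true,0,⟨0,
  [(34,0)]⟩,⟨0,[(35,0)]⟩⟩ ⟨false,0,⟨0,[(6,0),(3,0),(26,0)]⟩,⟨1,[(28,0),(6,1),(1,0)]⟩⟩,.o ⟨false,0,
  ⟨15,[(0,7),(1,3),(20,6),(0,2),(7,3),(5,1)]⟩,⟨3,[(3,2),(12,0),(15,0),(3,1)]⟩⟩]⟩) (.R ⟨0,false,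
  false,true,[0,1,0,0,-1],[1,0,0,0,-1],[0,0,1],(⟨0,[(1,0)]⟩,⟨0,[(19,0),(9,0)]⟩),(⟨0,[(18,0)]⟩,⟨0,
  [(19,0)]⟩),⟨0,[(19,0)]⟩,(.r (-1) ⟨3,[(4,1),(12,1),(5,1),(0,1),(3,0),(6,3),(1,0)]⟩ ⟨0,[(33,0)]⟩),
  .k,.k,.k,.k,.k,⟨true,0,⟨1,[(23,0),(0,0)]⟩,⟨0,[]⟩⟩,⟨false,0,⟨0,[(29,0),(0,0)]⟩,⟨3,[(12,0),(3,0),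
  (15,0),(3,0)]⟩⟩,⟨true,0,⟨0,[(34,0)]⟩,⟨0,[(35,0)]⟩⟩,⟨false,0,⟨0,[(6,0),(3,0),(26,0)]⟩,⟨1,[(28,0),
  (6,1),(1,0)]⟩⟩,⟨false,0,⟨0,[]⟩,⟨0,[]⟩⟩,⟨false,0,⟨0,[]⟩,⟨0,[]⟩⟩,[.a ⟨true,0,⟨0,[(3,0)]⟩,⟨0,[(17,
  0)]⟩⟩ ⟨true,0,⟨1,[(23,0),(0,0)]⟩,⟨0,[]⟩⟩ ⟨false,0,⟨0,[(29,0),(0,0)]⟩,⟨3,[(12,0),(3,0),(15,0),(3,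
  0)]⟩⟩,.o ⟨false,1,⟨3,[(0,0),(3,1),(27,0),(4,0)]⟩,⟨1,[(6,0),(3,0),(6,1),(14,0),(2,0)]⟩⟩,.o ⟨false,
  1,⟨1,[(0,0),(31,0),(3,0)]⟩,⟨1,[(17,1),(5,0),(0,0)]⟩⟩,.o ⟨false,1,⟨2,[(0,0),(15,0),(11,1)]⟩,⟨0,
  [(17,0)]⟩⟩]⟩))))))))

theorem ok2 : chk K t2 l5 = true := by decide +kernel

noncomputable def t3 : Tre :=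
  (.I [0,-1,-1,0,1,0,0,1] (.S ⟨1,0,[0,1,0,0,0,0,0,1],[0,0,1],[0,0,0,0,0,0,0,1],(⟨0,[(20,0)]⟩,⟨0,
  [(19,0)]⟩),⟨0,[(9,0)]⟩,.k,.k,⟨false,1,⟨1,[(10,0),(0,0),(19,0)]⟩,⟨0,[]⟩⟩,⟨true,0,⟨0,[(33,0)]⟩,⟨0,
  []⟩⟩,⟨true,0,⟨0,[(29,0)]⟩,⟨0,[(28,0)]⟩⟩,⟨false,0,⟨0,[(29,0)]⟩,⟨0,[(28,0),(2,0)]⟩⟩,[.a ⟨true,0,⟨0,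
  [(15,0)]⟩,⟨0,[(1,0),(12,0)]⟩⟩ ⟨false,1,⟨3,[(0,1),(5,0),(0,0),(2,0),(4,1)]⟩,⟨0,[(1,0),(25,0),(1,
  0)]⟩⟩ ⟨true,0,⟨0,[(5,0),(9,0)]⟩,⟨0,[(1,0)]⟩⟩,.o ⟨false,1,⟨1,[(15,1),(6,0),(8,0)]⟩,⟨0,[(2,0)]⟩⟩,.o
  ⟨false,1,⟨3,[(6,0),(3,0),(6,3),(8,0),(3,0)]⟩,⟨0,[(5,0)]⟩⟩,.e ⟨false,1,⟨0,[(0,0)]⟩,⟨1,[(1,0),(14,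
  0),(0,0)]⟩⟩ ⟨false,1,⟨3,[(0,1),(5,0),(0,0),(2,0),(4,1)]⟩,⟨0,[(1,0)]⟩⟩]⟩) (.Q [0,1,0,0,-1,0,0,0,1,
  -1,0,1] (.p true [0,0,0,0,1] [1] (⟨0,[(13,0)]⟩,⟨0,[(12,0)]⟩) .k 1 (⟨0,[]⟩,⟨0,[]⟩) .k .k) (.R ⟨1,
  false,false,true,[0,0,1],[1,0,0,0,-1],[0,1,0,0,0,0,0,1],(⟨0,[(21,0)]⟩,⟨0,[(20,0)]⟩),(⟨0,[(13,0)]⟩,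
  ⟨0,[(14,0)]⟩),⟨0,[(10,0)]⟩,.k,.k,.k,.k,(.r (-1) ⟨1,[(5,1),(1,0),(0,0),(2,0)]⟩ ⟨0,[(2,0),(27,0)]⟩),
  .k,⟨true,0,⟨0,[(6,0),(9,0)]⟩,⟨0,[(2,0)]⟩⟩,⟨false,1,⟨0,[(11,0),(3,0)]⟩,⟨1,[(0,1),(17,1),(12,0),(0,
  0)]⟩⟩,⟨true,0,⟨0,[(34,0)]⟩,⟨0,[]⟩⟩,⟨false,1,⟨0,[(2,0),(8,0),(3,0)]⟩,⟨0,[(0,0),(15,0),(15,0)]⟩⟩,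
  ⟨false,0,⟨0,[(30,0)]⟩,⟨0,[(29,0),(2,0)]⟩⟩,⟨false,1,⟨0,[(2,0),(8,0),(3,0),(14,0)]⟩,⟨0,[(0,0),(4,0),
  (26,0)]⟩⟩,[.o ⟨false,1,⟨0,[(11,0)]⟩,⟨4,[(0,1),(11,2),(14,0),(4,0)]⟩⟩,.o ⟨false,2,⟨1,[(11,2),(0,0),
  (19,0)]⟩,⟨0,[(0,0)]⟩⟩,.o ⟨false,1,⟨3,[(7,0),(3,0),(6,3),(8,0),(3,0)]⟩,⟨0,[(6,0)]⟩⟩,.a ⟨true,0,⟨0,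
  [(18,0)]⟩,⟨0,[(15,0)]⟩⟩ ⟨false,1,⟨3,[(8,0),(6,1),(0,3),(10,0),(3,0),(0,1)]⟩,⟨0,[(2,0)]⟩⟩ ⟨true,1,
  ⟨0,[(11,0),(3,0)]⟩,⟨0,[(0,0),(17,0)]⟩⟩]⟩) (.Q [0,0,-1,0,0,0,-1,0,-1,1,-1,-1] (.p false [0,0,1] [1,
  0,0,0,-1] (⟨0,[(21,0)]⟩,⟨0,[(20,0)]⟩) .k 2 (⟨0,[(13,0)]⟩,⟨0,[(14,0)]⟩) .k (.r 0 ⟨0,[(6,0),(9,0)]⟩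
  ⟨3,[(0,1),(1,2),(4,1),(9,0),(0,0)]⟩)) (.Q [0,0,0,0,0,-1,0,0,0,-1,1,1] (.p true [0,0,1] [1,0,0,0,
  -1] (⟨0,[(22,0)]⟩,⟨0,[(21,0)]⟩) .k 2 (⟨0,[(14,0)]⟩,⟨0,[(15,0)]⟩) .k (.r 0 ⟨0,[(7,0),(9,0)]⟩ ⟨3,
  [(1,1),(1,2),(4,1),(9,0),(0,0)]⟩)) (.R ⟨1,false,false,false,[-1,0,1,0,1],[0,0,0,0,1],[0,2,0,0,0,0,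
  0,1],(⟨0,[(0,0),(26,0)]⟩,⟨0,[(15,0),(6,0)]⟩),(⟨0,[(16,0)]⟩,⟨0,[(15,0)]⟩),⟨0,[(0,0)]⟩,.k,.k,(.r
  (-1) ⟨1,[(7,1),(1,0),(0,0),(2,0)]⟩ ⟨0,[(4,0),(27,0)]⟩),.k,.k,.k,⟨true,0,⟨0,[(8,0),(9,0)]⟩,⟨0,[(4,
  0)]⟩⟩,⟨false,0,⟨0,[(17,0)]⟩,⟨3,[(9,0),(3,0),(6,3),(8,0),(3,0)]⟩⟩,⟨true,0,⟨0,[(36,0)]⟩,⟨0,[]⟩⟩,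
  ⟨false,0,⟨0,[(4,0),(12,0)]⟩,⟨1,[(18,1),(6,0),(8,0)]⟩⟩,⟨false,0,⟨0,[(32,0)]⟩,⟨0,[(31,0),(2,0)]⟩⟩,
  ⟨false,0,⟨0,[(4,0),(12,0),(14,0)]⟩,⟨1,[(7,1),(17,0),(8,0)]⟩⟩,[.o ⟨false,0,⟨6,[(3,2),(4,2),(0,0),
  (4,5),(3,2),(10,1),(0,0),(1,0)]⟩,⟨2,[(1,1),(0,0),(17,1),(8,0),(4,0)]⟩⟩,.a ⟨true,0,⟨0,[(14,0)]⟩,⟨0,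
  [(1,0),(18,0)]⟩⟩ ⟨true,0,⟨0,[(8,0),(9,0)]⟩,⟨0,[(4,0)]⟩⟩ ⟨false,0,⟨0,[(17,0)]⟩,⟨3,[(9,0),(3,0),(6,
  3),(8,0),(3,0)]⟩⟩,.o ⟨false,1,⟨3,[(3,0),(3,0),(1,1),(4,1),(5,2),(8,1),(2,0),(1,0)]⟩,⟨1,[(1,1),(18,
  0),(0,0)]⟩⟩,.o ⟨false,1,⟨0,[(14,0),(5,0),(4,0)]⟩,⟨0,[(1,0)]⟩⟩]⟩) (.Q [0,-2,0,0,1,0,0,0,-1,0,0,-1]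
  (.p false [0,0,0,0,1] [] (⟨0,[(16,0)]⟩,⟨0,[(15,0)]⟩) .k 0 (⟨0,[]⟩,⟨0,[]⟩) .k .k) (.R ⟨1,false,
  false,false,[0,0,1],[1,0,0,0,-1],[0,0,0,0,0,0,0,1],(⟨0,[(24,0)]⟩,⟨0,[(23,0)]⟩),(⟨0,[(16,0)]⟩,⟨0,
  [(17,0)]⟩),⟨0,[(13,0)]⟩,.k,.k,.k,.k,(.r (-1) ⟨1,[(8,1),(1,0),(0,0),(2,0)]⟩ ⟨0,[(5,0),(27,0)]⟩),.k,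
  ⟨true,0,⟨0,[(9,0),(9,0)]⟩,⟨0,[(5,0)]⟩⟩,⟨false,0,⟨0,[(2,0)]⟩,⟨3,[(10,1),(3,0),(0,2),(5,3),(4,0)]⟩⟩,
  ⟨false,1,⟨3,[(3,1),(11,1),(10,0),(8,0)]⟩,⟨0,[]⟩⟩,⟨true,0,⟨0,[(2,0),(2,0)]⟩,⟨6,[(4,2),(4,2),(0,0),
  (4,5),(3,9),(10,1),(0,0),(1,0)]⟩⟩,⟨true,0,⟨0,[(33,0)]⟩,⟨0,[(32,0)]⟩⟩,⟨true,0,⟨0,[(2,0),(2,0),(27,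
  0)]⟩,⟨2,[(4,0),(3,1),(0,0),(5,2),(3,1),(10,0),(0,0)]⟩⟩,[.o ⟨false,1,⟨1,[(0,0),(13,0)]⟩,⟨6,[(4,2),
  (4,2),(0,0),(4,5),(3,2),(10,1),(0,0),(1,0)]⟩⟩,.o ⟨false,1,⟨0,[(0,0)]⟩,⟨2,[(4,0),(10,2),(3,0),(2,
  0),(6,1),(0,0)]⟩⟩,.o ⟨false,1,⟨3,[(10,0),(3,0),(6,3),(8,0),(3,0)]⟩,⟨0,[(9,0)]⟩⟩,.a ⟨true,0,⟨0,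
  [(21,0)]⟩,⟨0,[(18,0)]⟩⟩ ⟨true,1,⟨1,[(0,0),(9,0),(0,0),(7,1)]⟩,⟨0,[(4,0)]⟩⟩ ⟨false,1,⟨0,[(2,0),(32,
  0)]⟩,⟨2,[(4,0),(10,2),(3,0),(1,1),(8,0),(6,0)]⟩⟩]⟩) (.Q [0,0,1,0,0,0,0,0,-1,0,0,-1] (.p false [0,
  0,0,0,1] [] (⟨0,[(17,0)]⟩,⟨0,[(16,0)]⟩) .k 0 (⟨0,[]⟩,⟨0,[]⟩) .k .k) (.Q [0,0,0,0,0,-1,0,0,0,1,0,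
  -1] (.ed true [0,1,0,0,1] .k) (.S ⟨1,0,[0,-1],[1,0,0,0,-1],[],(⟨0,[(18,0)]⟩,⟨0,[(19,0)]⟩),⟨0,[(0,
  0)]⟩,.k,(.r (-1) ⟨0,[(33,0),(3,0)]⟩ ⟨1,[(23,0),(0,0),(10,1),(3,1)]⟩),⟨true,0,⟨0,[(39,0)]⟩,⟨0,[]⟩⟩,
  ⟨false,1,⟨3,[(5,1),(11,1),(10,0),(8,0)]⟩,⟨0,[]⟩⟩,⟨false,0,⟨0,[(35,0)]⟩,⟨0,[(34,0),(2,0)]⟩⟩,⟨true,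
  0,⟨0,[(35,0)]⟩,⟨0,[(34,0)]⟩⟩,[.o ⟨false,1,⟨1,[(1,1),(34,0),(0,0)]⟩,⟨1,[(2,0),(14,0),(10,0)]⟩⟩,.a
  ⟨true,1,⟨0,[(4,0),(18,0),(13,0)]⟩,⟨0,[(2,0)]⟩⟩ ⟨false,1,⟨1,[(36,0),(0,0)]⟩,⟨0,[(39,0)]⟩⟩ ⟨true,1,
  ⟨0,[(37,0)]⟩,⟨0,[(1,0),(0,0)]⟩⟩,.e ⟨false,1,⟨3,[(5,1),(11,1),(10,0),(8,0)]⟩,⟨0,[]⟩⟩ ⟨false,1,⟨0,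
  [(37,0)]⟩,⟨0,[(39,0)]⟩⟩,.o ⟨false,0,⟨0,[(1,0)]⟩,⟨3,[(12,1),(3,0),(0,2),(10,0)]⟩⟩]⟩) (.R ⟨0,false,
  false,false,[1,0,0,0,-1],[0,1],[1,0,1,1],(⟨0,[(18,0)]⟩,⟨0,[(19,0)]⟩),(⟨0,[(30,0)]⟩,⟨0,[(29,0)]⟩),
  ⟨0,[(0,0)]⟩,.k,.k,(.r (-1) ⟨0,[(33,0),(3,0)]⟩ ⟨1,[(23,0),(0,0),(10,1),(3,1)]⟩),(.r (-1) ⟨0,[(33,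
  0),(3,0)]⟩ ⟨1,[(23,0),(0,0),(10,1),(3,1)]⟩),.k,.k,⟨true,0,⟨0,[]⟩,⟨1,[(23,0),(0,0)]⟩⟩,⟨false,1,⟨0,
  [(12,0)]⟩,⟨2,[(1,0),(2,1),(8,0),(9,3)]⟩⟩,⟨false,0,⟨1,[(23,0),(0,0),(10,1)]⟩,⟨0,[(33,0),(3,0)]⟩⟩,
  ⟨true,0,⟨1,[(2,0),(14,0),(10,0),(6,1)]⟩,⟨0,[(4,0),(2,0),(2,0)]⟩⟩,⟨false,0,⟨0,[]⟩,⟨0,[]⟩⟩,⟨false,0,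
  ⟨0,[]⟩,⟨0,[]⟩⟩,[.e ⟨false,0,⟨0,[(35,0)]⟩,⟨2,[(5,0),(6,0),(20,0),(0,1),(2,0)]⟩⟩ ⟨false,1,⟨3,[(12,
  1),(3,0),(0,2),(10,0),(6,3)]⟩,⟨0,[(4,0),(2,0),(2,0)]⟩⟩,.o ⟨false,1,⟨1,[(28,0),(6,1),(1,0)]⟩,⟨0,
  [(34,0)]⟩⟩,.a ⟨true,0,⟨0,[(4,0),(18,0)]⟩,⟨0,[(17,0)]⟩⟩ ⟨true,0,⟨1,[(23,0),(0,0),(10,1)]⟩,⟨0,[(33,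
  0)]⟩⟩ ⟨false,1,⟨1,[(17,1),(10,0),(6,1),(1,0)]⟩,⟨0,[(4,0),(2,0),(2,0)]⟩⟩,.o ⟨false,0,⟨0,[(1,0)]⟩,
  ⟨3,[(12,1),(3,0),(0,2),(10,0)]⟩⟩]⟩)) (.Q [0,-1,0,2,0,0,-1,-1,0,0,-1] (.p false [0,0,1] [] (⟨0,
  [(25,0)]⟩,⟨0,[(24,0)]⟩) .k 0 (⟨0,[]⟩,⟨0,[]⟩) .k .k) (.R ⟨1,false,false,false,[1,-1],[1,0,-1],[1,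
  1],(⟨0,[(29,0)]⟩,⟨0,[(30,0)]⟩),(⟨0,[(25,0)]⟩,⟨0,[(26,0)]⟩),⟨0,[(14,0),(0,0)]⟩,.k,.k,(.r (-1) ⟨0,
  [(33,1),(3,0)]⟩ ⟨0,[(23,0),(0,0),(10,1)]⟩),.k,(.r (-1) ⟨1,[(1,2),(2,2),(2,1),(2,3),(0,0),(20,0),
  (4,0)]⟩ ⟨1,[(0,1),(22,2),(0,0),(14,1)]⟩),.k,⟨true,0,⟨0,[(11,0),(9,0)]⟩,⟨0,[(6,0),(30,0)]⟩⟩,⟨false,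
  1,⟨7,[(4,1),(7,1),(0,2),(18,0),(3,4)]⟩,⟨0,[(23,0)]⟩⟩,⟨false,0,⟨1,[(23,0),(0,0),(10,1)]⟩,⟨0,[(33,
  0),(3,0)]⟩⟩,⟨true,0,⟨1,[(0,0),(21,0)]⟩,⟨0,[(10,0)]⟩⟩,⟨false,0,⟨1,[(23,0),(0,0),(10,3)]⟩,⟨1,[(1,2),
  (2,2),(2,3),(2,3),(0,0),(20,0),(4,0)]⟩⟩,⟨false,0,⟨0,[(0,0)]⟩,⟨0,[(10,0),(23,0),(2,0)]⟩⟩,[.o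
  ⟨false,0,⟨0,[(8,0)]⟩,⟨1,[(21,1),(6,0),(8,0)]⟩⟩,.a ⟨true,0,⟨0,[(7,0),(12,0)]⟩,⟨0,[(21,0)]⟩⟩ ⟨true,
  0,⟨0,[]⟩,⟨1,[(23,0),(0,0)]⟩⟩ ⟨false,1,⟨0,[(4,0),(2,0),(4,0)]⟩,⟨1,[(21,1),(1,0),(0,0)]⟩⟩,.o ⟨false,
  0,⟨1,[(23,0),(0,0)]⟩,⟨3,[(12,0),(3,0),(15,0),(3,0)]⟩⟩,.o ⟨false,0,⟨0,[(23,0),(0,0)]⟩,⟨1,[(1,3),(2,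
  3),(1,0),(3,0),(12,2),(8,1),(2,0),(1,0)]⟩⟩]⟩) (.Q [0,0,0,0,0,0,0,0,0,1,-1,-1] (.ed true [0,0,1,0,
  1] (.r 0 ⟨0,[(11,0),(9,0)]⟩ ⟨3,[(5,1),(1,2),(4,1),(9,0),(0,0)]⟩)) (.S ⟨1,0,[],[1,0,0,0,-1],[0,-1],
  (⟨0,[(19,0)]⟩,⟨0,[(20,0)]⟩),⟨0,[(0,0),(15,0)]⟩,.k,(.r (-1) ⟨0,[(34,0),(3,0)]⟩ ⟨1,[(24,0),(0,0),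
  (10,1),(3,1)]⟩),⟨false,1,⟨3,[(6,1),(11,1),(10,0),(8,0)]⟩,⟨0,[]⟩⟩,⟨true,0,⟨0,[(40,0)]⟩,⟨0,[]⟩⟩,
  ⟨true,0,⟨0,[(36,0)]⟩,⟨0,[(35,0)]⟩⟩,⟨false,0,⟨0,[(36,0)]⟩,⟨0,[(35,0),(2,0)]⟩⟩,[.e ⟨false,1,⟨1,[(37,
  0),(0,0)]⟩,⟨0,[(40,0)]⟩⟩ ⟨false,1,⟨4,[(6,1),(6,1),(3,0),(0,0),(13,0)]⟩,⟨0,[]⟩⟩,.o ⟨false,1,⟨2,[(5,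
  1),(0,0),(17,1),(8,0),(4,0)]⟩,⟨1,[(3,0),(14,0),(10,0)]⟩⟩,.e ⟨false,1,⟨0,[(38,0)]⟩,⟨0,[(40,0)]⟩⟩
  ⟨false,1,⟨3,[(6,1),(11,1),(10,0),(8,0)]⟩,⟨0,[]⟩⟩,.a ⟨true,0,⟨1,[(5,1),(18,2),(0,0)]⟩,⟨0,[(2,0)]⟩⟩
  ⟨true,1,⟨1,[(37,0),(0,0)]⟩,⟨0,[(7,0),(4,0),(9,0)]⟩⟩ ⟨false,1,⟨1,[(37,0),(0,0)]⟩,⟨1,[(24,0),(0,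
  0)]⟩⟩]⟩) (.R ⟨0,false,false,false,[-1,0,1,0,1],[0,0,0,0,1],[0,2,0,0,0,0,0,1],(⟨0,[(0,0)]⟩,⟨0,[(4,
  0),(25,0)]⟩),(⟨0,[(20,0)]⟩,⟨0,[(19,0)]⟩),⟨0,[(4,0)]⟩,.k,.k,(.r (-1) ⟨1,[(11,1),(1,0),(0,0),(2,
  0)]⟩ ⟨0,[(8,0),(27,0)]⟩),.k,.k,.k,⟨true,0,⟨0,[(12,0),(9,0)]⟩,⟨0,[(8,0)]⟩⟩,⟨false,0,⟨0,[(21,0)]⟩,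
  ⟨3,[(13,0),(3,0),(6,3),(8,0),(3,0)]⟩⟩,⟨true,0,⟨0,[(40,0)]⟩,⟨0,[]⟩⟩,⟨false,0,⟨0,[(8,0),(12,0)]⟩,⟨1,
  [(22,1),(6,0),(8,0)]⟩⟩,⟨false,0,⟨0,[]⟩,⟨0,[]⟩⟩,⟨false,0,⟨0,[]⟩,⟨0,[]⟩⟩,[.o ⟨false,0,⟨1,[(3,0),(14,
  0),(10,0)]⟩,⟨2,[(5,1),(0,0),(17,1),(8,0),(4,0)]⟩⟩,.a ⟨true,0,⟨0,[(18,0)]⟩,⟨0,[(5,0),(18,0)]⟩⟩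
  ⟨true,0,⟨0,[(12,0),(9,0)]⟩,⟨0,[(8,0)]⟩⟩ ⟨false,0,⟨0,[(21,0)]⟩,⟨3,[(13,0),(3,0),(6,3),(8,0),(3,
  0)]⟩⟩,.o ⟨false,1,⟨3,[(2,0),(10,1),(4,0),(5,3),(8,1),(5,0)]⟩,⟨1,[(5,1),(18,0),(0,0)]⟩⟩,.o ⟨false,
  1,⟨0,[(18,0),(5,0),(4,0)]⟩,⟨0,[(5,0)]⟩⟩]⟩)))))) (.I [0,0,1,1,0,0,0,1] (.Q [0,0,-1,0,1,0,1,0,0,-1,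
  1] (.p true [0,0,1] [1] (⟨0,[(23,0)]⟩,⟨0,[(22,0)]⟩) .k 1 (⟨0,[]⟩,⟨0,[]⟩) .k .k) (.S ⟨1,0,[0,0,0,0,
  0,0,0,-1],[1,0,-1],[1,1,0,-1,0,0,0,-1],(⟨0,[(23,0)]⟩,⟨0,[(24,0)]⟩),⟨0,[(12,0)]⟩,.k,.k,⟨true,0,⟨0,
  [(32,0)]⟩,⟨0,[(33,0)]⟩⟩,⟨false,1,⟨3,[(2,0),(0,1),(6,0),(11,0),(12,0)]⟩,⟨0,[]⟩⟩,⟨false,0,⟨0,[]⟩,⟨3,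
  [(2,0),(0,1),(6,0),(11,0),(12,0)]⟩⟩,⟨true,0,⟨0,[(33,0)]⟩,⟨0,[(32,0)]⟩⟩,[.o ⟨false,0,⟨0,[(6,0)]⟩,
  ⟨3,[(0,1),(0,1),(6,1),(17,0),(8,0)]⟩⟩,.a ⟨true,0,⟨0,[(5,0),(12,0)]⟩,⟨0,[(19,0)]⟩⟩ ⟨true,0,⟨0,[(5,
  0),(25,0)]⟩,⟨0,[(1,0)]⟩⟩ ⟨false,1,⟨0,[(5,0),(28,0)]⟩,⟨0,[(1,0),(29,0)]⟩⟩,.o ⟨false,0,⟨0,[(9,0)]⟩,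
  ⟨1,[(0,0),(1,0),(11,0)]⟩⟩,.o ⟨false,0,⟨0,[(22,0)]⟩,⟨0,[(0,0)]⟩⟩]⟩) (.Q [0,-1,0,2,0,0,-1,-1,0,0,
  -1] (.p false [0,0,1] [] (⟨0,[(24,0)]⟩,⟨0,[(23,0)]⟩) .k 0 (⟨0,[]⟩,⟨0,[]⟩) .k .k) (.R ⟨1,false,
  false,false,[1,-1],[1,0,-1],[1,0,1],(⟨0,[(28,0)]⟩,⟨0,[(29,0)]⟩),(⟨0,[(24,0)]⟩,⟨0,[(25,0)]⟩),⟨0,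
  [(13,0),(0,0)]⟩,.k,.k,(.r (-1) ⟨0,[(32,1),(3,0)]⟩ ⟨1,[(0,0),(1,1),(18,0),(0,1)]⟩),.k,(.x 0 ⟨1,[(1,
  0),(20,2),(1,1),(4,3),(1,0)]⟩ ⟨1,[(13,0),(0,2),(4,1),(11,0),(3,0)]⟩),.k,⟨true,0,⟨7,[(1,2),(0,3),
  (6,3),(13,0),(7,0),(4,1)]⟩,⟨1,[(5,0),(0,0),(28,0)]⟩⟩,⟨false,1,⟨3,[(12,0),(6,1),(11,0),(3,2)]⟩,⟨0,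
  [(22,0)]⟩⟩,⟨false,0,⟨0,[(2,0),(3,0)]⟩,⟨1,[(32,1),(2,0),(0,0)]⟩⟩,⟨true,0,⟨1,[(0,0),(20,0)]⟩,⟨0,[(9,
  0)]⟩⟩,⟨false,0,⟨1,[(0,0),(1,1),(3,0),(15,0)]⟩,⟨0,[(32,1),(3,0)]⟩⟩,⟨false,0,⟨0,[(0,0)]⟩,⟨0,[(9,0),
  (23,0),(2,0)]⟩⟩,[.o ⟨false,0,⟨0,[(7,0)]⟩,⟨1,[(20,1),(6,0),(8,0)]⟩⟩,.e ⟨false,1,⟨3,[(3,0),(0,1),(6,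
  0),(11,0),(12,0)]⟩,⟨0,[(32,0),(1,0)]⟩⟩ ⟨false,1,⟨0,[(0,0),(31,1),(3,0)]⟩,⟨1,[(2,0),(6,0),(12,0),
  (15,0)]⟩⟩,.o ⟨false,0,⟨1,[(22,0),(0,0)]⟩,⟨3,[(11,0),(3,0),(15,0),(3,0)]⟩⟩,.a ⟨true,(-1),⟨0,[(1,0),
  (20,0)]⟩,⟨0,[(35,0)]⟩⟩ ⟨true,0,⟨0,[]⟩,⟨0,[(38,0)]⟩⟩ ⟨false,1,⟨0,[(0,0),(31,1),(3,0)]⟩,⟨7,[(1,2),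
  (0,3),(6,3),(12,7),(0,0),(7,0),(4,1)]⟩⟩]⟩) (.Q [0,0,-1,0,1,0,1,0,-1,0,1,-1] (.p true [0,0,1] [0,0,
  0,0,1] (⟨0,[(25,0)]⟩,⟨0,[(24,0)]⟩) .k 2 (⟨0,[(18,0)]⟩,⟨0,[(17,0)]⟩) .k (.r (-1) ⟨11,[(0,3),(1,7),
  (9,0),(6,1),(11,0),(3,2),(0,7)]⟩ ⟨0,[(6,0),(23,0)]⟩)) (.Q [0,0,0,0,0,-1,0,0,0,0,0,1] (.ed false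
  [1,-1,0,0,1] .k) (.K ⟨0,[0,-1,0,0,1],(-1),(-1),(⟨0,[(0,0)]⟩,⟨0,[(19,0),(11,0)]⟩),(.r 0 ⟨0,[(34,
  0)]⟩ ⟨3,[(4,1),(0,1),(0,1),(3,1),(18,0),(6,1),(1,0)]⟩),(.r (-1) ⟨2,[(6,0),(6,0),(20,3),(0,1),(2,
  0)]⟩ ⟨0,[(4,0),(3,0),(27,0)]⟩),.k,(.r 0 ⟨1,[(7,0),(0,0),(25,1),(2,0)]⟩ ⟨3,[(4,3),(0,0),(0,1),(6,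
  0),(11,0),(12,0)]⟩),.k,[⟨0,[(1,0)]⟩,⟨0,[(3,0),(1,0)]⟩,⟨0,[(17,0),(18,0)]⟩,⟨0,[(3,0),(3,0),(3,0),
  (1,0)]⟩]⟩) (.R ⟨0,false,false,false,[0,0,0,0,1],[0,1],[0,0,1,1],(⟨0,[(20,0)]⟩,⟨0,[(19,0)]⟩),(⟨0,
  [(31,0)]⟩,⟨0,[(30,0)]⟩),⟨0,[(0,0)]⟩,.k,.k,(.r 0 ⟨0,[(34,0)]⟩ ⟨3,[(4,1),(0,1),(0,1),(3,1),(18,0),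
  (6,1),(1,0)]⟩),(.r 0 ⟨0,[(34,0)]⟩ ⟨3,[(4,1),(0,1),(0,1),(3,1),(18,0),(6,1),(1,0)]⟩),.k,.k,⟨false,
  1,⟨4,[(6,1),(6,1),(3,0),(0,0),(13,0)]⟩,⟨0,[]⟩⟩,⟨true,1,⟨0,[(1,0),(10,0)]⟩,⟨0,[(3,0),(1,0)]⟩⟩,
  ⟨false,1,⟨11,[(4,5),(0,1),(0,1),(1,3),(1,1),(18,0),(6,5),(1,8)]⟩,⟨0,[(34,0)]⟩⟩,⟨true,1,⟨2,[(1,1),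
  (1,1),(2,0),(26,0),(2,2),(1,0)]⟩,⟨0,[(3,0),(3,0),(3,0),(1,0)]⟩⟩,⟨false,0,⟨0,[]⟩,⟨0,[]⟩⟩,⟨false,0,
  ⟨0,[]⟩,⟨0,[]⟩⟩,[.e ⟨false,0,⟨0,[(36,0)]⟩,⟨2,[(6,0),(6,0),(20,0),(0,1),(2,0)]⟩⟩ ⟨false,1,⟨3,[(1,3),
  (1,0),(10,0),(6,0),(11,0),(2,3)]⟩,⟨1,[(2,0),(0,0),(4,0),(4,0),(4,0)]⟩⟩,.o ⟨false,1,⟨1,[(29,0),(6,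
  1),(1,0)]⟩,⟨0,[(35,0)]⟩⟩,.a ⟨true,0,⟨0,[(18,0)]⟩,⟨0,[(1,0),(1,0)]⟩⟩ ⟨true,0,⟨3,[(4,1),(3,0),(14,
  0),(0,0),(11,1)]⟩,⟨0,[(34,0)]⟩⟩ ⟨false,1,⟨2,[(1,1),(1,1),(2,0),(26,0),(2,2),(1,0)]⟩,⟨1,[(2,0),(0,
  0),(4,0),(4,0),(4,0)]⟩⟩,.o ⟨false,0,⟨6,[(3,1),(1,2),(12,3),(6,0),(7,1),(5,0)]⟩,⟨0,[(1,0),(10,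
  0)]⟩⟩]⟩)) (.Q [0,1,0,1,-1,0,0,0,1,-1,0,1] (.p true [0,0,0,0,1] [1] (⟨0,[(19,0)]⟩,⟨0,[(18,0)]⟩) .k
  1 (⟨0,[]⟩,⟨0,[]⟩) .k .k) (.R ⟨2,true,false,false,[0,1],[1,0,0,0,-1],[1,1,1],(⟨0,[]⟩,⟨0,[]⟩),(⟨0,
  [(19,0)]⟩,⟨0,[(20,0)]⟩),⟨0,[]⟩,.k,.k,.k,(.r 0 ⟨4,[(4,2),(18,2),(0,2),(7,0),(3,1)]⟩ ⟨0,[(34,0),(3,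
  0)]⟩),.k,.k,⟨true,(-1),⟨6,[(3,2),(0,1),(2,4),(3,1),(10,0),(9,2),(0,0)]⟩,⟨0,[(38,0)]⟩⟩,⟨false,1,⟨0,
  [(6,0),(33,0)]⟩,⟨0,[(0,0),(33,0),(3,0)]⟩⟩,⟨true,0,⟨0,[(35,0)]⟩,⟨0,[(36,0)]⟩⟩,⟨false,2,⟨0,[(6,0),
  (28,0),(2,0)]⟩,⟨0,[(0,0)]⟩⟩,⟨false,0,⟨0,[]⟩,⟨3,[(5,0),(0,1),(6,0),(11,0),(12,0)]⟩⟩,⟨true,1,⟨0,[(6,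
  0)]⟩,⟨0,[(0,0),(34,0)]⟩⟩,[]⟩) (.I [0,0,-2,-1,1,0,0,1] (.Q [0,0,0,0,0,-2,0,0,0,0,1] (.p true [0,0,
  1] [] (⟨0,[(28,0)]⟩,⟨0,[(27,0)]⟩) .k 0 (⟨0,[]⟩,⟨0,[]⟩) .k .k) (.S ⟨1,0,[0,0,-1,-1,0,0,0,1],[0,-1,
  1],[0,1,-1,-1,0,0,0,1],(⟨0,[(18,0)]⟩,⟨0,[(28,0),(4,0)]⟩),⟨0,[(0,0)]⟩,.k,(.x 0 ⟨1,[(5,0),(20,2),(1,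
  1),(4,3),(1,0)]⟩ ⟨3,[(0,3),(15,0),(6,1),(11,0),(3,2)]⟩),⟨true,0,⟨0,[(42,0)]⟩,⟨0,[]⟩⟩,⟨false,1,⟨3,
  [(7,0),(0,1),(6,0),(11,0),(12,0)]⟩,⟨0,[]⟩⟩,⟨false,0,⟨0,[(38,0)]⟩,⟨9,[(2,7),(0,2),(0,0),(2,1),(2,
  0),(4,2),(19,0),(4,0)]⟩⟩,⟨true,0,⟨0,[(38,0)]⟩,⟨0,[(37,0)]⟩⟩,[.o ⟨false,1,⟨1,[(13,1),(17,0),(8,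
  0)]⟩,⟨0,[(11,0),(26,0)]⟩⟩,.e ⟨false,1,⟨0,[(1,0)]⟩,⟨1,[(10,0),(14,0),(0,0),(11,1)]⟩⟩ ⟨false,2,⟨13,
  [(1,9),(0,7),(3,3),(0,0),(7,6),(11,0),(12,2)]⟩,⟨0,[(9,0),(28,0)]⟩⟩,.a ⟨true,0,⟨0,[(26,0)]⟩,⟨0,
  [(23,0)]⟩⟩ ⟨false,1,⟨8,[(1,5),(0,1),(3,0),(0,0),(5,1),(1,0),(11,2)]⟩,⟨0,[(10,0),(27,0)]⟩⟩ ⟨true,1,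
  ⟨8,[(1,5),(0,1),(3,0),(0,0),(5,1),(1,0),(11,2)]⟩,⟨0,[(9,0),(28,0)]⟩⟩,.o ⟨false,0,⟨5,[(4,0),(0,2),
  (3,0),(16,7),(8,2),(2,1),(1,0)]⟩,⟨3,[(16,0),(6,1),(11,0),(3,2)]⟩⟩]⟩) (.Q [0,1,-1,0,-1,0,-1,0,1,0,
  -1,1] (.p false [0,0,1] [0,0,0,0,1] (⟨0,[(29,0)]⟩,⟨0,[(28,0)]⟩) .k 2 (⟨0,[(22,0)]⟩,⟨0,[(21,0)]⟩)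
  .k (.r (-1) ⟨6,[(1,2),(0,0),(3,3),(0,0),(19,0),(12,2)]⟩ ⟨0,[(10,0),(23,0)]⟩)) (.R ⟨0,false,false,
  true,[0,-1,1],[0,0,0,0,1],[],(⟨0,[(19,0)]⟩,⟨0,[(1,0),(31,0)]⟩),(⟨0,[(23,0)]⟩,⟨0,[(22,0)]⟩),⟨0,[(1,
  0)]⟩,.k,.k,(.x 0 ⟨1,[(1,1),(25,2),(0,0)]⟩ ⟨1,[(18,0),(0,2),(4,1),(11,0),(3,0)]⟩),(.r (-2) ⟨13,[(2,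
  7),(0,11),(3,5),(0,4),(7,6),(11,4),(12,0)]⟩ ⟨0,[(10,0),(28,0)]⟩),.k,.k,⟨true,1,⟨0,[(41,0)]⟩,⟨6,
  [(6,2),(0,1),(2,4),(3,1),(10,0),(9,2),(0,0)]⟩⟩,⟨false,0,⟨1,[(0,1),(39,0),(0,0)]⟩,⟨0,[(20,0),(6,
  0)]⟩⟩,⟨false,0,⟨0,[(11,0),(27,0)]⟩,⟨8,[(2,5),(0,1),(3,0),(0,0),(5,1),(1,0),(11,2)]⟩⟩,⟨true,(-2),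
  ⟨0,[(0,0),(9,0),(28,0)]⟩,⟨1,[(9,1),(4,1),(17,0),(8,0)]⟩⟩,⟨false,0,⟨0,[]⟩,⟨0,[]⟩⟩,⟨false,0,⟨0,[]⟩,
  ⟨0,[]⟩⟩,[.o ⟨false,(-1),⟨15,[(0,10),(3,0),(3,3),(1,7),(14,7),(9,1),(0,3),(6,0)]⟩,⟨1,[(9,1),(22,0),
  (8,0)]⟩⟩,.a ⟨true,(-1),⟨0,[(0,0),(26,0)]⟩,⟨0,[(9,0)]⟩⟩ ⟨false,1,⟨1,[(40,0),(0,0)]⟩,⟨0,[(43,0)]⟩⟩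
  ⟨true,(-1),⟨0,[(0,0)]⟩,⟨1,[(3,0),(2,0),(2,0),(17,2),(8,0),(2,0)]⟩⟩,.e ⟨false,1,⟨3,[(8,0),(0,1),(6,
  0),(11,0),(12,0)]⟩,⟨0,[]⟩⟩ ⟨false,(-1),⟨0,[(0,0)]⟩,⟨2,[(8,0),(0,3),(17,1),(8,0),(4,0)]⟩⟩,.o
  ⟨false,0,⟨5,[(5,0),(0,2),(3,0),(16,7),(8,2),(2,1),(1,0)]⟩,⟨3,[(17,0),(6,1),(11,0),(3,2)]⟩⟩]⟩) (.Q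
  [0,-2,0,0,1,0,0,0,-1,1,0,-1] (.p false [0,0,0,0,1] [1] (⟨0,[(23,0)]⟩,⟨0,[(22,0)]⟩) .k 1 (⟨0,[]⟩,
  ⟨0,[]⟩) .k .k) (.R ⟨0,false,false,true,[0,-1,1],[0,0,0,0,1],[0,1],(⟨0,[(20,0)]⟩,⟨0,[(2,0),(31,
  0)]⟩),(⟨0,[(24,0)]⟩,⟨0,[(23,0)]⟩),⟨0,[(2,0)]⟩,.k,.k,(.x 0 ⟨1,[(2,1),(25,2),(0,0)]⟩ ⟨1,[(19,0),(0,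
  2),(4,1),(11,0),(3,0)]⟩),(.r (-2) ⟨13,[(3,7),(0,11),(3,5),(0,4),(7,6),(11,4),(12,0)]⟩ ⟨0,[(11,0),
  (28,0)]⟩),.k,.k,⟨false,1,⟨1,[(0,0),(16,0)]⟩,⟨0,[(44,0)]⟩⟩,⟨true,0,⟨1,[(5,0),(11,0),(7,0)]⟩,⟨1,[(0,
  1),(6,0),(3,1),(3,0),(10,0),(1,0),(8,0),(2,0)]⟩⟩,⟨true,(-1),⟨0,[(11,0),(28,0)]⟩,⟨8,[(3,5),(0,1),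
  (3,0),(0,0),(5,1),(1,0),(11,2)]⟩⟩,⟨false,(-1),⟨1,[(5,0),(5,1),(5,0),(7,0),(14,1)]⟩,⟨5,[(0,2),(0,
  2),(1,1),(2,1),(1,0),(6,0),(21,0),(4,2)]⟩⟩,⟨false,0,⟨0,[]⟩,⟨0,[]⟩⟩,⟨false,0,⟨0,[]⟩,⟨0,[]⟩⟩,[.a
  ⟨true,(-1),⟨1,[(5,0),(5,1),(5,0),(7,0),(0,1)]⟩,⟨0,[(0,0)]⟩⟩ ⟨false,0,⟨0,[(38,0),(1,0)]⟩,⟨3,[(9,0),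
  (0,1),(6,0),(11,0),(12,0)]⟩⟩ ⟨true,(-1),⟨0,[(5,0),(32,1),(1,1)]⟩,⟨5,[(0,5),(5,0),(0,2),(3,0),(16,
  7),(8,2),(2,1),(1,0)]⟩⟩,.o ⟨false,0,⟨27,[(5,8),(3,12),(7,5),(11,3),(6,13),(0,2)]⟩,⟨5,[(0,4),(6,0),
  (3,0),(9,0),(4,0),(10,1),(0,1),(1,1)]⟩⟩,.e ⟨true,0,⟨0,[(44,0)]⟩,⟨0,[]⟩⟩ ⟨true,(-1),⟨0,[(5,0),(32,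
  1),(1,1)]⟩,⟨0,[(1,0)]⟩⟩,.o ⟨false,0,⟨5,[(6,0),(0,2),(3,0),(16,7),(8,2),(2,1),(1,0)]⟩,⟨3,[(18,0),
  (6,1),(11,0),(3,2)]⟩⟩]⟩) (.Q [0,0,2,0,0,0,1,0,-1,0,1,-1] (.p true [0,0,1] [0,0,0,0,1] (⟨0,[(31,
  0)]⟩,⟨0,[(30,0)]⟩) .k 2 (⟨0,[(24,0)]⟩,⟨0,[(23,0)]⟩) .k (.r (-1) ⟨6,[(3,2),(0,0),(3,3),(0,0),(19,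
  0),(12,2)]⟩ ⟨0,[(12,0),(23,0)]⟩)) (.R ⟨0,false,false,false,[0,-1,1],[0,0,0,0,1],[1,0,1],(⟨0,[(21,
  0)]⟩,⟨0,[(3,0),(31,0)]⟩),(⟨0,[(25,0)]⟩,⟨0,[(24,0)]⟩),⟨0,[(3,0)]⟩,.k,.k,(.x 0 ⟨0,[(0,0),(2,0),(19,
  0)]⟩ ⟨1,[(20,0),(0,2),(4,1),(11,0),(3,0)]⟩),(.r (-2) ⟨13,[(4,7),(0,11),(3,5),(0,4),(7,6),(11,4),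
  (12,0)]⟩ ⟨0,[(12,0),(28,0)]⟩),.k,.k,⟨false,1,⟨3,[(10,0),(0,1),(6,0),(11,0),(12,0)]⟩,⟨0,[(39,0),(1,
  0)]⟩⟩,⟨true,0,⟨1,[(6,0),(11,0),(7,0)]⟩,⟨0,[(0,0)]⟩⟩,⟨false,0,⟨6,[(0,0),(8,2),(0,0),(2,7),(1,0),
  (12,0),(12,3)]⟩,⟨0,[(4,0)]⟩⟩,⟨true,(-1),⟨1,[(6,0),(5,1),(5,0),(7,0),(14,1)]⟩,⟨0,[(0,0),(3,0)]⟩⟩,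
  ⟨false,0,⟨0,[]⟩,⟨0,[]⟩⟩,⟨false,0,⟨0,[]⟩,⟨0,[]⟩⟩,[.e ⟨false,0,⟨0,[]⟩,⟨4,[(11,1),(6,1),(3,0),(0,0),
  (13,0)]⟩⟩ ⟨false,0,⟨1,[(1,0),(16,0),(7,1)]⟩,⟨0,[(2,0)]⟩⟩,.o ⟨false,0,⟨0,[(1,0),(41,0)]⟩,⟨0,[(22,
  0)]⟩⟩,.a ⟨true,0,⟨0,[(29,0)]⟩,⟨0,[(26,0)]⟩⟩ ⟨true,0,⟨2,[(0,0),(22,0),(6,0)]⟩,⟨0,[(39,0),(1,0)]⟩⟩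
  ⟨false,0,⟨1,[(6,0),(11,0),(7,0)]⟩,⟨0,[(2,0)]⟩⟩,.o ⟨false,0,⟨6,[(0,4),(0,0),(4,0),(3,2),(27,0),(4,
  0)]⟩,⟨3,[(19,0),(6,1),(11,0),(3,2)]⟩⟩]⟩) (.Q [0,0,0,0,0,0,0,0,0,0,-1,1] (.ed false [1,0,-1,0,1]
  (.r 0 ⟨0,[(13,0),(23,0)]⟩ ⟨6,[(4,2),(0,0),(3,3),(0,0),(19,0),(12,2)]⟩)) (.R ⟨1,false,false,false,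
  [1,0,1,0,-1],[0,0,1],[0,0,0,0,0,0,0,1],(⟨0,[(25,0),(7,0)]⟩,⟨0,[(0,0)]⟩),(⟨0,[(33,0)]⟩,⟨0,[(32,
  0)]⟩),⟨0,[(22,0),(2,0)]⟩,.k,.k,(.r (-2) ⟨13,[(5,7),(0,11),(3,5),(0,4),(7,6),(11,4),(12,0)]⟩ ⟨0,
  [(13,0),(28,0)]⟩),.k,(.r (-1) ⟨0,[(40,0),(3,0)]⟩ ⟨4,[(10,2),(18,2),(0,2),(7,0),(3,1)]⟩),.k,⟨false,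
  1,⟨4,[(12,1),(6,1),(3,0),(0,0),(13,0)]⟩,⟨0,[]⟩⟩,⟨true,0,⟨6,[(1,1),(0,0),(4,0),(3,2),(27,0),(4,
  0)]⟩,⟨0,[(3,0),(5,0),(30,0),(1,0)]⟩⟩,⟨true,0,⟨0,[(46,0)]⟩,⟨0,[]⟩⟩,⟨false,0,⟨6,[(1,1),(0,0),(4,0),
  (3,2),(27,0),(4,0)]⟩,⟨0,[(12,0)]⟩⟩,⟨false,0,⟨0,[(42,0)]⟩,⟨9,[(6,7),(0,2),(0,0),(2,1),(2,0),(4,2),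
  (19,0),(4,0)]⟩⟩,⟨false,0,⟨5,[(1,1),(5,0),(3,2),(27,0),(2,5)]⟩,⟨0,[(6,0)]⟩⟩,[.o ⟨false,1,⟨16,[(3,
  4),(1,3),(4,3),(0,2),(7,1),(8,8),(10,3),(4,1)]⟩,⟨0,[(15,0)]⟩⟩,.a ⟨true,1,⟨0,[(28,0),(15,0)]⟩,⟨0,
  [(13,0),(13,0)]⟩⟩ ⟨true,1,⟨6,[(5,2),(0,0),(3,3),(0,0),(19,0),(12,2)]⟩,⟨0,[(13,0)]⟩⟩ ⟨false,1,⟨2,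
  [(1,1),(5,0),(20,2),(10,0),(4,2)]⟩,⟨0,[(12,0),(0,0),(26,0),(1,0)]⟩⟩,.o ⟨false,1,⟨0,[(3,0),(36,0),
  (1,0)]⟩,⟨8,[(1,0),(5,5),(11,1),(0,0),(14,3)]⟩⟩,.o ⟨false,1,⟨0,[(3,0),(42,0)]⟩,⟨2,[(1,1),(0,0),(6,
  0),(29,0),(4,0)]⟩⟩]⟩) (.S ⟨1,0,[0,-1],[1,0,0,0,-1],[1,0,0,-1],(⟨0,[(25,0)]⟩,⟨0,[(26,0)]⟩),⟨0,[(0,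
  0),(20,0)]⟩,.k,(.r (-1) ⟨0,[(40,0),(3,0)]⟩ ⟨4,[(10,2),(18,2),(0,2),(7,0),(3,1)]⟩),⟨true,0,⟨0,[(41,
  0)]⟩,⟨0,[(42,0)]⟩⟩,⟨false,1,⟨3,[(11,0),(0,1),(6,0),(11,0),(12,0)]⟩,⟨0,[]⟩⟩,⟨false,0,⟨0,[]⟩,⟨3,
  [(11,0),(0,1),(6,0),(11,0),(12,0)]⟩⟩,⟨true,0,⟨0,[(42,0)]⟩,⟨0,[(41,0)]⟩⟩,[.e ⟨false,1,⟨1,[(6,0),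
  (12,0),(21,0)]⟩,⟨0,[(42,0)]⟩⟩ ⟨false,1,⟨1,[(43,0),(0,0)]⟩,⟨0,[(46,0)]⟩⟩,.o ⟨false,2,⟨1,[(12,1),
  (22,0),(8,0)]⟩,⟨0,[(2,0)]⟩⟩,.o ⟨false,1,⟨0,[(23,0)]⟩,⟨6,[(1,1),(0,0),(4,0),(3,2),(27,0),(4,0)]⟩⟩,
  .a ⟨true,0,⟨0,[(3,0),(5,0),(30,0),(1,0)]⟩,⟨0,[(1,0),(28,0)]⟩⟩ ⟨false,1,⟨0,[(40,0),(3,0)]⟩,⟨7,[(3,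
  0),(6,3),(0,0),(1,0),(0,0),(1,0),(12,0),(12,3)]⟩⟩ ⟨true,1,⟨1,[(43,0),(0,0)]⟩,⟨6,[(9,2),(0,1),(2,
  4),(3,1),(10,0),(9,2),(0,0)]⟩⟩]⟩)))))) (.Q [0,0,1,0,0,0,0,0,-1,1,0,-1] (.p false [0,0,0,0,1] [1]
  (⟨0,[(21,0)]⟩,⟨0,[(20,0)]⟩) .k 1 (⟨0,[]⟩,⟨0,[]⟩) .k .k) (.Q [0,0,0,0,0,0,-1,0,-1,1,-1,-1] (.p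
  false [0,0,1] [1,0,0,0,-1] (⟨0,[(29,0)]⟩,⟨0,[(28,0)]⟩) .k 2 (⟨0,[(21,0)]⟩,⟨0,[(22,0)]⟩) .k (.r 0
  ⟨4,[(5,0),(0,1),(6,1),(9,1),(0,0),(9,0),(0,0)]⟩ ⟨3,[(8,1),(1,2),(4,1),(9,0),(0,0)]⟩)) (.Q [0,0,0,
  0,0,0,0,0,-1,1,0,-1] (.p false [0,0,0,0,1] [1] (⟨0,[(23,0)]⟩,⟨0,[(22,0)]⟩) .k 1 (⟨0,[]⟩,⟨0,[]⟩)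
  .k .k) (.Q [0,0,0,0,0,-1,0,0,0,1,0,-1] (.ed true [0,1,0,0,1] .k) (.S ⟨1,0,[0,-1],[1,0,0,0,-1],[],
  (⟨0,[(24,0)]⟩,⟨0,[(25,0)]⟩),⟨0,[(0,0)]⟩,.k,(.r (-1) ⟨0,[(39,0),(3,0)]⟩ ⟨4,[(9,2),(18,2),(0,2),(7,
  0),(3,1)]⟩),⟨true,0,⟨0,[(45,0)]⟩,⟨0,[]⟩⟩,⟨false,1,⟨3,[(10,0),(0,1),(6,0),(11,0),(12,0)]⟩,⟨0,[]⟩⟩,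
  ⟨false,0,⟨0,[(41,0)]⟩,⟨9,[(5,7),(0,2),(0,0),(2,1),(2,0),(4,2),(19,0),(4,0)]⟩⟩,⟨true,0,⟨0,[(41,
  0)]⟩,⟨0,[(40,0)]⟩⟩,[.o ⟨false,1,⟨2,[(1,1),(9,0),(26,0),(4,0)]⟩,⟨27,[(6,8),(3,12),(7,5),(11,3),(6,
  13),(0,2)]⟩⟩,.a ⟨true,1,⟨0,[(1,0),(41,0)]⟩,⟨1,[(6,0),(5,1),(5,0),(7,0),(0,1)]⟩⟩ ⟨false,1,⟨1,[(42,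
  0),(0,0)]⟩,⟨0,[(45,0)]⟩⟩ ⟨true,1,⟨0,[(43,0)]⟩,⟨6,[(8,2),(0,1),(2,4),(3,1),(10,0),(9,2),(0,0)]⟩⟩,
  .e ⟨false,1,⟨3,[(10,0),(0,1),(6,0),(11,0),(12,0)]⟩,⟨0,[]⟩⟩ ⟨false,1,⟨0,[(43,0)]⟩,⟨0,[(45,0)]⟩⟩,.o
  ⟨false,0,⟨9,[(1,9),(2,2),(2,1),(0,1),(0,0),(28,3),(4,0),(0,0)]⟩,⟨3,[(10,0),(7,2),(3,0),(0,0),(6,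
  0)]⟩⟩]⟩) (.K ⟨0,[-1,0,1,0,1],0,0,(⟨0,[(0,0),(20,0)]⟩,⟨0,[(24,0),(6,0)]⟩),.k,(.r (-1) ⟨1,[(16,1),
  (1,0),(0,0),(2,0)]⟩ ⟨0,[(13,0),(27,0)]⟩),(.r 0 ⟨0,[(9,0),(35,0)]⟩ ⟨1,[(13,1),(25,1),(2,0),(0,
  0)]⟩),.k,.k,[⟨0,[(1,0)]⟩,⟨0,[(10,0)]⟩,⟨0,[(1,0),(12,0)]⟩,⟨9,[(6,2),(2,1),(0,4),(5,1),(1,1),(8,5),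
  (9,5),(0,0)]⟩]⟩)) (.Q [0,-1,0,0,1,0,0,0,-1,0,0,-1] (.p false [0,0,0,0,1] [] (⟨0,[(24,0)]⟩,⟨0,[(23,
  0)]⟩) .k 0 (⟨0,[]⟩,⟨0,[]⟩) .k .k) (.R ⟨1,false,false,true,[0,0,1],[1,0,0,0,-1],[0,0,0,0,0,0,0,1],
  (⟨0,[(32,0)]⟩,⟨0,[(31,0)]⟩),(⟨0,[(24,0)]⟩,⟨0,[(25,0)]⟩),⟨0,[(21,0)]⟩,.k,.k,.k,.k,(.r (-1) ⟨1,[(16,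
  1),(1,0),(0,0),(2,0)]⟩ ⟨0,[(13,0),(27,0)]⟩),.k,⟨false,1,⟨2,[(0,0),(6,0),(1,1),(8,0),(7,0),(15,
  0)]⟩,⟨1,[(12,0),(0,0),(28,0)]⟩⟩,⟨true,0,⟨0,[(2,0)]⟩,⟨0,[(10,0)]⟩⟩,⟨false,1,⟨3,[(10,0),(0,1),(6,0),
  (11,0),(12,0)]⟩,⟨0,[]⟩⟩,⟨true,0,⟨1,[(2,1),(9,0),(0,0),(28,0)]⟩,⟨0,[(1,0),(25,0)]⟩⟩,⟨true,0,⟨0,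
  [(41,0)]⟩,⟨0,[(40,0)]⟩⟩,⟨true,0,⟨0,[(2,0),(1,0),(37,0)]⟩,⟨0,[(1,0),(14,0)]⟩⟩,[.o ⟨false,1,⟨0,[(22,
  0)]⟩,⟨0,[(1,0)]⟩⟩,.o ⟨false,1,⟨0,[(0,0)]⟩,⟨27,[(6,8),(3,12),(7,5),(11,3),(6,13),(0,2)]⟩⟩,.o
  ⟨false,1,⟨3,[(18,0),(3,0),(6,3),(8,0),(3,0)]⟩,⟨0,[(17,0)]⟩⟩,.a ⟨true,0,⟨0,[(29,0)]⟩,⟨0,[(26,0)]⟩⟩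
  ⟨true,1,⟨2,[(0,0),(6,0),(1,1),(8,0),(7,0),(15,0)]⟩,⟨0,[(12,0)]⟩⟩ ⟨false,1,⟨0,[(0,0),(25,0)]⟩,⟨0,
  [(10,0)]⟩⟩]⟩) (.Q [0,0,0,0,0,-1,0,0,0,1,0,-1] (.ed true [0,1,0,0,1] .k) (.S ⟨1,0,[0,-1],[1,0,0,0,
  -1],[1,0,0,-1],(⟨0,[(25,0)]⟩,⟨0,[(26,0)]⟩),⟨0,[(0,0)]⟩,.k,(.r (-1) ⟨0,[(40,0),(3,0)]⟩ ⟨4,[(10,2),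
  (18,2),(0,2),(7,0),(3,1)]⟩),⟨true,0,⟨0,[(41,0)]⟩,⟨0,[(42,0)]⟩⟩,⟨false,1,⟨3,[(11,0),(0,1),(6,0),
  (11,0),(12,0)]⟩,⟨0,[]⟩⟩,⟨false,0,⟨0,[]⟩,⟨3,[(11,0),(0,1),(6,0),(11,0),(12,0)]⟩⟩,⟨true,0,⟨0,[(42,
  0)]⟩,⟨0,[(41,0)]⟩⟩,[.e ⟨false,1,⟨1,[(6,0),(12,0),(21,0)]⟩,⟨0,[(42,0)]⟩⟩ ⟨false,1,⟨1,[(43,0),(0,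
  0)]⟩,⟨0,[(46,0)]⟩⟩,.o ⟨false,2,⟨1,[(12,1),(22,0),(8,0)]⟩,⟨9,[(1,10),(1,0),(5,0),(3,1),(14,1),(9,
  1),(0,3),(0,0),(1,0)]⟩⟩,.o ⟨false,1,⟨0,[(23,0)]⟩,⟨0,[(2,0)]⟩⟩,.a ⟨true,0,⟨0,[(4,0)]⟩,⟨1,[(1,1),
  (41,0),(0,0)]⟩⟩ ⟨false,1,⟨0,[(40,0),(3,0)]⟩,⟨4,[(5,0),(4,1),(0,0),(0,0),(16,0),(12,1)]⟩⟩ ⟨true,1,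
  ⟨1,[(43,0),(0,0)]⟩,⟨6,[(9,2),(0,1),(2,4),(3,1),(10,0),(9,2),(0,0)]⟩⟩]⟩) (.Q [0,-1,0,0,0,0,-1,-1,
  -1,2,-1,-1] (.p false [-1,0,1,0,1] [1] (⟨0,[(0,0),(21,0)]⟩,⟨0,[(25,0),(6,0)]⟩) .k 1 (⟨0,[]⟩,⟨0,
  []⟩) .k (.r 0 ⟨5,[(1,0),(1,0),(6,2),(6,2),(9,1),(10,0),(0,0)]⟩ ⟨3,[(12,1),(1,2),(4,1),(9,0),(0,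
  0)]⟩)) (.R ⟨0,false,false,true,[1,0,0,0,-1],[2,-1,0,0,-1],[0,0,0,-1],(⟨0,[(26,0)]⟩,⟨0,[(27,0)]⟩),
  (⟨0,[(26,0),(10,0)]⟩,⟨0,[(1,0)]⟩),⟨0,[(1,0)]⟩,.k,(.r (-1) ⟨0,[(41,0),(3,0)]⟩ ⟨4,[(11,2),(18,2),(0,
  2),(7,0),(3,1)]⟩),(.r (-1) ⟨0,[(41,0),(3,0)]⟩ ⟨4,[(11,2),(18,2),(0,2),(7,0),(3,1)]⟩),.k,.k,.k,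
  ⟨true,0,⟨2,[(5,0),(6,0),(19,0)]⟩,⟨0,[]⟩⟩,⟨false,0,⟨1,[(0,0),(24,0),(3,0)]⟩,⟨3,[(20,0),(3,0),(15,
  0),(3,0)]⟩⟩,⟨true,0,⟨0,[(42,0)]⟩,⟨0,[(43,0)]⟩⟩,⟨false,0,⟨1,[(0,0),(8,0),(15,0)]⟩,⟨1,[(36,0),(6,1),
  (1,0)]⟩⟩,⟨false,0,⟨0,[]⟩,⟨0,[]⟩⟩,⟨false,0,⟨0,[]⟩,⟨0,[]⟩⟩,[.a ⟨true,0,⟨0,[(0,0),(17,0)]⟩,⟨0,[(3,0),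
  (39,0)]⟩⟩ ⟨false,1,⟨1,[(7,0),(12,0),(21,0)]⟩,⟨0,[(43,0)]⟩⟩ ⟨true,0,⟨1,[(0,0),(8,0),(15,0)]⟩,⟨2,
  [(6,0),(4,0),(28,0),(2,0)]⟩⟩,.o ⟨false,1,⟨0,[(7,0)]⟩,⟨29,[(2,20),(8,4),(0,4),(7,3),(9,4),(8,1),(0,
  16),(2,24)]⟩⟩,.o ⟨false,1,⟨0,[(24,0)]⟩,⟨0,[(3,0)]⟩⟩,.e ⟨false,1,⟨0,[(41,0),(3,0)]⟩,⟨4,[(6,0),(4,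
  1),(0,0),(0,0),(16,0),(12,1)]⟩⟩ ⟨false,1,⟨1,[(0,0),(8,0),(15,0),(18,0),(0,0)]⟩,⟨2,[(6,0),(4,0),
  (28,0),(2,0)]⟩⟩]⟩) (.R ⟨1,false,false,false,[0,0,1],[-1,0,1,0,1],[0,1,0,0,0,0,0,1],(⟨0,[(34,0)]⟩,
  ⟨0,[(33,0)]⟩),(⟨0,[(1,0),(21,0)]⟩,⟨0,[(26,0),(6,0)]⟩),⟨0,[(23,0)]⟩,.k,.k,.k,.k,(.r (-1) ⟨0,[(41,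
  0),(3,0)]⟩ ⟨4,[(11,2),(18,2),(0,2),(7,0),(3,1)]⟩),.k,⟨false,1,⟨4,[(13,1),(6,1),(3,0),(0,0),(13,
  0)]⟩,⟨0,[]⟩⟩,⟨true,0,⟨0,[(3,0)]⟩,⟨0,[(5,0)]⟩⟩,⟨true,0,⟨0,[(47,0)]⟩,⟨0,[]⟩⟩,⟨false,0,⟨0,[(3,0)]⟩,
  ⟨0,[(13,0)]⟩⟩,⟨false,0,⟨0,[(43,0)]⟩,⟨9,[(7,7),(0,2),(0,0),(2,1),(2,0),(4,2),(19,0),(4,0)]⟩⟩,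
  ⟨false,0,⟨0,[(3,0),(39,0)]⟩,⟨0,[(7,0)]⟩⟩,[.o ⟨false,0,⟨0,[(0,0)]⟩,⟨0,[(13,0),(2,0)]⟩⟩,.o ⟨false,1,
  ⟨5,[(0,3),(6,1),(3,1),(0,1),(7,1),(15,0),(8,0)]⟩,⟨1,[(4,1),(9,0),(0,0),(28,0)]⟩⟩,.o ⟨false,1,⟨3,
  [(20,0),(3,0),(6,3),(8,0),(3,0)]⟩,⟨0,[(19,0)]⟩⟩,.a ⟨true,0,⟨0,[(31,0)]⟩,⟨0,[(28,0)]⟩⟩ ⟨false,1,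
  ⟨11,[(9,3),(1,7),(9,0),(6,1),(11,0),(3,8),(0,1)]⟩,⟨0,[(15,0)]⟩⟩ ⟨true,0,⟨0,[(0,0),(27,0)]⟩,⟨0,
  [(13,0),(0,0)]⟩⟩]⟩))))) (.K ⟨0,[1,0,0,0,-1],0,1,(⟨0,[(22,0)]⟩,⟨0,[(23,0)]⟩),.k,(.r (-1) ⟨0,[(37,
  0),(3,0)]⟩ ⟨4,[(7,2),(18,2),(0,2),(7,0),(3,1)]⟩),(.r (-1) ⟨3,[(7,1),(0,1),(0,1),(3,1),(18,0),(6,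
  1),(1,0)]⟩ ⟨0,[(37,0)]⟩),.k,.k,[⟨0,[(0,0)]⟩,⟨0,[(1,0)]⟩,⟨2,[(0,1),(3,0),(1,1),(3,0),(14,0),(10,0),
  (0,3),(1,3)]⟩,⟨0,[(9,0),(33,0)]⟩]⟩)) (.Q [0,0,0,0,0,-1,0,0,0,0,0,1] (.ed false [1,-1,0,0,1] .k)
  (.S ⟨1,0,[0,1],[0,0,0,0,1],[0,2],(⟨0,[(23,0)]⟩,⟨0,[(22,0)]⟩),⟨0,[(0,0)]⟩,.k,(.r 0 ⟨0,[(37,0)]⟩ ⟨3,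
  [(7,1),(0,1),(0,1),(3,1),(18,0),(6,1),(1,0)]⟩),⟨true,0,⟨0,[(43,0)]⟩,⟨0,[]⟩⟩,⟨false,1,⟨3,[(8,0),(0,
  1),(6,0),(11,0),(12,0)]⟩,⟨0,[]⟩⟩,⟨false,0,⟨0,[(39,0)]⟩,⟨9,[(3,7),(0,2),(0,0),(2,1),(2,0),(4,2),
  (19,0),(4,0)]⟩⟩,⟨true,0,⟨0,[(39,0)]⟩,⟨0,[(38,0)]⟩⟩,[.e ⟨false,0,⟨0,[(35,0)]⟩,⟨0,[(41,0)]⟩⟩ ⟨false,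
  0,⟨0,[(37,0),(1,0)]⟩,⟨3,[(8,0),(0,1),(6,0),(11,0),(12,0)]⟩⟩,.o ⟨false,0,⟨20,[(1,4),(2,5),(3,5),(7,
  3),(19,1),(5,0)]⟩,⟨0,[(20,0)]⟩⟩,.o ⟨false,0,⟨20,[(1,4),(2,5),(3,5),(7,3),(19,1),(5,0)]⟩,⟨0,[(20,
  0)]⟩⟩,.a ⟨true,(-1),⟨0,[(1,0),(4,0),(20,0)]⟩,⟨0,[(9,0),(27,0),(1,0)]⟩⟩ ⟨false,0,⟨0,[(37,0),(1,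
  0)]⟩,⟨6,[(2,0),(0,1),(3,0),(0,1),(19,1),(12,5)]⟩⟩ ⟨true,0,⟨0,[(37,0),(1,0)]⟩,⟨1,[(27,0),(0,
  0)]⟩⟩]⟩) (.S ⟨1,0,[],[1,0,0,0,-1],[0,-1],(⟨0,[(22,0)]⟩,⟨0,[(23,0)]⟩),⟨0,[(0,0),(17,0),(0,0)]⟩,.k,
  (.r (-1) ⟨0,[(1,0),(1,0)]⟩ ⟨4,[(7,2),(18,2),(0,2),(7,0),(3,1)]⟩),⟨false,1,⟨3,[(8,0),(0,1),(6,0),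
  (11,0),(12,0)]⟩,⟨0,[]⟩⟩,⟨true,0,⟨0,[(43,0)]⟩,⟨0,[]⟩⟩,⟨true,0,⟨0,[(39,0)]⟩,⟨0,[(38,0)]⟩⟩,⟨false,0,
  ⟨0,[(39,0)]⟩,⟨9,[(3,7),(0,2),(0,0),(2,1),(2,0),(4,2),(19,0),(4,0)]⟩⟩,[.o ⟨false,1,⟨0,[(20,0)]⟩,
  ⟨20,[(1,4),(2,5),(3,5),(7,3),(19,1),(5,0)]⟩⟩,.a ⟨true,1,⟨0,[(9,0)]⟩,⟨1,[(1,1),(4,0),(3,0),(14,0),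
  (7,0),(0,0)]⟩⟩ ⟨true,1,⟨0,[(41,0)]⟩,⟨6,[(6,2),(0,1),(2,4),(3,1),(10,0),(9,2),(0,0)]⟩⟩ ⟨false,1,⟨1,
  [(40,0),(0,0)]⟩,⟨0,[(43,0)]⟩⟩,.o ⟨false,1,⟨0,[(20,0)]⟩,⟨20,[(1,4),(2,5),(3,5),(7,3),(19,1),(5,
  0)]⟩⟩,.o ⟨false,1,⟨1,[(20,1),(6,0),(0,0)]⟩,⟨0,[(1,0)]⟩⟩]⟩)))))))) (.I [1,0,1,1,0,0,0,1] (.N [0,1,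
  1] 0 ⟨0,[(0,0)]⟩ ⟨0,[(1,0)]⟩ .k) (.Q [0,0,0,0,0,0,0,0,1,-1,0,1] (.p true [0,0,0,0,1] [1] (⟨0,[(17,
  0)]⟩,⟨0,[(16,0)]⟩) .k 1 (⟨0,[]⟩,⟨0,[]⟩) .k .k) (.Q [0,1,0,0,-1,0,0,0,1,0,0,1] (.p true [0,0,0,0,
  1] [] (⟨0,[(18,0)]⟩,⟨0,[(17,0)]⟩) .k 0 (⟨0,[]⟩,⟨0,[]⟩) .k .k) (.Q [0,0,1,0,-1,0,0,0,1,0,0,1] (.p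
  true [0,0,0,0,1] [] (⟨0,[(19,0)]⟩,⟨0,[(18,0)]⟩) .k 0 (⟨0,[]⟩,⟨0,[]⟩) .k .k) (.Q [0,0,0,0,1,0,1,0,
  -1,0,1,-1] (.p true [0,0,1] [0,0,0,0,1] (⟨0,[(27,0)]⟩,⟨0,[(26,0)]⟩) .k 2 (⟨0,[(20,0)]⟩,⟨0,[(19,
  0)]⟩) .k (.r (-1) ⟨0,[(12,0),(9,0),(15,0)]⟩ ⟨0,[(8,0),(23,0)]⟩)) (.K ⟨0,[0,0,0,0,1],(-1),(-1),(⟨0,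
  [(21,0)]⟩,⟨0,[(20,0)]⟩),.k,(.r 0 ⟨0,[(35,0)]⟩ ⟨7,[(6,4),(0,5),(6,0),(11,4),(10,7),(1,0)]⟩),(.r 0
  ⟨1,[(25,0),(0,0),(10,1),(3,1)]⟩ ⟨0,[(35,0),(3,0)]⟩),.k,.k,[⟨0,[(0,0)]⟩,⟨0,[(1,0)]⟩,⟨0,[(18,0)]⟩,
  ⟨0,[(2,0),(38,0)]⟩]⟩) (.Q [0,0,0,0,0,-1,0,0,0,1,0,-1] (.ed true [0,1,0,0,1] .k) (.S ⟨1,0,[],[1,0,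
  0,0,-1],[0,-1],(⟨0,[(21,0)]⟩,⟨0,[(22,0)]⟩),⟨0,[(0,0)]⟩,.k,(.r (-1) ⟨0,[(36,0),(3,0)]⟩ ⟨1,[(26,0),
  (0,0),(10,1),(3,1)]⟩),⟨false,1,⟨3,[(7,0),(0,1),(6,0),(11,0),(12,0)]⟩,⟨0,[]⟩⟩,⟨true,0,⟨0,[(42,0)]⟩,
  ⟨0,[]⟩⟩,⟨true,0,⟨0,[(38,0)]⟩,⟨0,[(37,0)]⟩⟩,⟨false,0,⟨0,[(38,0)]⟩,⟨0,[(37,0),(2,0)]⟩⟩,[.o ⟨false,1,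
  ⟨0,[(19,0)]⟩,⟨0,[(4,0)]⟩⟩,.a ⟨true,1,⟨0,[(8,0)]⟩,⟨0,[(3,0)]⟩⟩ ⟨true,1,⟨0,[(40,0)]⟩,⟨0,[(9,0),(4,
  0),(9,0)]⟩⟩ ⟨false,1,⟨1,[(39,0),(0,0)]⟩,⟨0,[(42,0)]⟩⟩,.o ⟨false,1,⟨0,[(19,0)]⟩,⟨0,[(4,0)]⟩⟩,.o
  ⟨false,1,⟨1,[(19,1),(6,0),(0,0)]⟩,⟨10,[(1,7),(0,0),(2,7),(9,1),(8,7),(10,2),(2,7),(1,3)]⟩⟩]⟩) (.S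
  ⟨1,0,[0,1],[0,0,0,0,1],[1,2,0,-1],(⟨0,[(22,0)]⟩,⟨0,[(21,0)]⟩),⟨0,[(0,0),(16,0),(0,0)]⟩,.k,(.r 0
  ⟨0,[(36,0)]⟩ ⟨7,[(7,4),(0,5),(6,0),(11,4),(10,7),(1,0)]⟩),⟨true,0,⟨0,[(37,0)]⟩,⟨0,[(38,0)]⟩⟩,
  ⟨false,1,⟨3,[(7,0),(0,1),(6,0),(11,0),(12,0)]⟩,⟨0,[]⟩⟩,⟨false,0,⟨0,[]⟩,⟨3,[(7,0),(0,1),(6,0),(11,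
  0),(12,0)]⟩⟩,⟨true,0,⟨0,[(38,0)]⟩,⟨0,[(37,0)]⟩⟩,[.e ⟨false,0,⟨1,[(34,0),(1,0),(0,0)]⟩,⟨0,[(38,0),
  (1,0)]⟩⟩ ⟨false,0,⟨0,[(36,0),(1,0)]⟩,⟨3,[(7,0),(0,1),(6,0),(11,0),(12,0)]⟩⟩,.o ⟨false,0,⟨0,[(4,
  0)]⟩,⟨0,[(19,0)]⟩⟩,.o ⟨false,0,⟨0,[(4,0)]⟩,⟨0,[(19,0)]⟩⟩,.a ⟨true,(-1),⟨0,[(2,0)]⟩,⟨0,[(8,0),(27,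
  0),(1,0)]⟩⟩ ⟨false,0,⟨0,[(36,0)]⟩,⟨1,[(26,0),(0,0),(10,1),(1,1)]⟩⟩ ⟨true,0,⟨0,[(36,0),(1,0)]⟩,⟨1,
  [(26,0),(0,0)]⟩⟩]⟩))) (.Q [0,0,-1,0,0,0,0,0,1,-1,0,1] (.p true [0,0,0,0,1] [1] (⟨0,[(20,0)]⟩,⟨0,
  [(19,0)]⟩) .k 1 (⟨0,[]⟩,⟨0,[]⟩) .k .k) (.Q [0,0,0,0,0,-1,0,0,0,1,0,-1] (.ed true [0,1,0,0,1] .k)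
  (.S ⟨1,0,[],[1,0,0,0,-1],[0,-1],(⟨0,[(21,0)]⟩,⟨0,[(22,0)]⟩),⟨0,[(0,0)]⟩,.k,(.r (-1) ⟨0,[(36,0),(3,
  0)]⟩ ⟨1,[(26,0),(0,0),(10,1),(3,1)]⟩),⟨false,1,⟨3,[(7,0),(0,1),(6,0),(11,0),(12,0)]⟩,⟨0,[]⟩⟩,
  ⟨true,0,⟨0,[(42,0)]⟩,⟨0,[]⟩⟩,⟨true,0,⟨0,[(38,0)]⟩,⟨0,[(37,0)]⟩⟩,⟨false,0,⟨0,[(38,0)]⟩,⟨0,[(37,0),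
  (2,0)]⟩⟩,[.o ⟨false,1,⟨0,[(19,0)]⟩,⟨0,[(4,0)]⟩⟩,.a ⟨true,1,⟨0,[(8,0)]⟩,⟨0,[(3,0)]⟩⟩ ⟨true,1,⟨0,
  [(40,0)]⟩,⟨0,[(9,0),(4,0),(9,0)]⟩⟩ ⟨false,1,⟨1,[(39,0),(0,0)]⟩,⟨0,[(42,0)]⟩⟩,.o ⟨false,1,⟨0,[(19,
  0)]⟩,⟨0,[(4,0)]⟩⟩,.o ⟨false,1,⟨1,[(19,1),(6,0),(0,0)]⟩,⟨0,[(1,0)]⟩⟩]⟩) (.R ⟨1,false,false,false,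
  [1,0,1,0,-1],[1,0,0,0,-1],[0,-1,0,0,0,0,0,1],(⟨0,[(21,0),(7,0)]⟩,⟨0,[(0,0),(16,0)]⟩),(⟨0,[(21,
  0)]⟩,⟨0,[(22,0)]⟩),⟨0,[(18,0),(2,0)]⟩,.k,.k,(.r (-2) ⟨3,[(8,1),(4,3),(1,1),(0,1),(14,0),(8,2)]⟩
  ⟨0,[(9,0),(28,0)]⟩),.k,.k,.k,⟨false,1,⟨13,[(2,1),(12,1),(0,2),(6,7),(0,13),(10,2),(4,6)]⟩,⟨1,[(9,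
  0),(0,0),(28,0)]⟩⟩,⟨true,0,⟨0,[(14,0)]⟩,⟨0,[(26,0)]⟩⟩,⟨false,1,⟨3,[(7,0),(0,1),(6,0),(11,0),(12,
  0)]⟩,⟨0,[]⟩⟩,⟨true,0,⟨0,[(11,0)]⟩,⟨0,[(24,0)]⟩⟩,⟨true,0,⟨0,[(38,0)]⟩,⟨0,[(37,0)]⟩⟩,⟨true,0,⟨0,
  [(11,0),(26,0)]⟩,⟨0,[(13,0)]⟩⟩,[.a ⟨true,1,⟨0,[(8,0)]⟩,⟨0,[(3,0)]⟩⟩ ⟨true,1,⟨0,[(14,0),(9,0),(15,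
  0)]⟩,⟨0,[(9,0)]⟩⟩ ⟨false,1,⟨13,[(2,1),(12,1),(0,2),(6,7),(11,2),(4,6)]⟩,⟨2,[(5,0),(18,0),(1,1),(7,
  0),(3,0)]⟩⟩,.o ⟨false,2,⟨1,[(8,1),(22,0),(8,0)]⟩,⟨5,[(2,0),(0,6),(5,1),(4,1),(9,1),(10,1),(0,0),
  (1,0)]⟩⟩,.o ⟨false,1,⟨0,[(2,0),(23,0)]⟩,⟨0,[(1,0),(25,0)]⟩⟩,.o ⟨false,1,⟨0,[(19,0),(6,0)]⟩,⟨0,[(1,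
  0),(12,0)]⟩⟩]⟩)) (.Q [0,0,0,0,0,0,1,0,1,-1,1,1] (.p true [0,0,1] [1,0,0,0,-1] (⟨0,[(28,0)]⟩,⟨0,
  [(27,0)]⟩) .k 2 (⟨0,[(20,0)]⟩,⟨0,[(21,0)]⟩) .k (.r 0 ⟨0,[(13,0),(9,0)]⟩ ⟨2,[(1,0),(4,0),(0,0),(1,
  1),(1,0),(2,0)]⟩)) (.K ⟨0,[1,0,0,0,-1],0,1,(⟨0,[(21,0)]⟩,⟨0,[(22,0)]⟩),.k,(.r (-1) ⟨0,[(36,0),(3,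
  0)]⟩ ⟨2,[(1,0),(5,0),(19,0),(10,2),(3,2)]⟩),(.r (-1) ⟨7,[(7,4),(0,5),(6,0),(11,4),(10,7),(1,0)]⟩
  ⟨0,[(36,0)]⟩),.k,.k,[⟨0,[(0,0)]⟩,⟨0,[(1,0)]⟩,⟨5,[(2,0),(0,6),(5,1),(4,1),(9,1),(10,1),(0,0),(1,
  0)]⟩,⟨0,[(8,0),(33,0)]⟩]⟩) (.I [1,-2,1,1,1,0,0,1] (.S ⟨1,0,[0,0,-1,-1],[1,-1],[1,1,-1,-2],(⟨0,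
  [(33,0)]⟩,⟨0,[(34,0)]⟩),⟨0,[(18,0),(0,0)]⟩,.k,(.r (-1) ⟨0,[(37,1),(3,0)]⟩ ⟨2,[(2,1),(5,1),(19,1),
  (10,5)]⟩),⟨true,0,⟨0,[(38,0)]⟩,⟨0,[(39,0)]⟩⟩,⟨false,1,⟨3,[(8,0),(0,1),(6,0),(11,0),(12,0)]⟩,⟨0,
  []⟩⟩,⟨false,0,⟨0,[]⟩,⟨3,[(8,0),(0,1),(6,0),(11,0),(12,0)]⟩⟩,⟨true,0,⟨0,[(39,0)]⟩,⟨0,[(38,0)]⟩⟩,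
  [.a ⟨true,0,⟨0,[(11,0),(2,0),(9,0)]⟩,⟨0,[(39,0)]⟩⟩ ⟨true,0,⟨0,[(6,0),(7,0),(0,0)]⟩,⟨0,[(0,0),(9,
  0),(28,0)]⟩⟩ ⟨false,1,⟨1,[(37,1),(2,0),(0,0)]⟩,⟨2,[(2,0),(5,0),(19,0),(10,2)]⟩⟩,.o ⟨false,1,⟨0,
  [(38,0),(2,0)]⟩,⟨4,[(1,0),(2,0),(5,0),(14,0),(9,0),(0,1),(2,4)]⟩⟩,.o ⟨false,0,⟨2,[(2,0),(5,0),(19,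
  0)]⟩,⟨2,[(3,0),(12,0),(15,0)]⟩⟩,.o ⟨false,0,⟨2,[(2,1),(5,1),(19,1)]⟩,⟨0,[(1,1),(2,1),(1,1),(18,1),
  (10,0),(2,1),(1,1)]⟩⟩]⟩) (.Q [0,0,0,0,0,-1,0,0,0,1,0,-1] (.ed true [0,1,0,0,1] .k) (.S ⟨1,0,[0,
  -1],[1,0,0,0,-1],[1,0,0,-1],(⟨0,[(23,0)]⟩,⟨0,[(24,0)]⟩),⟨0,[(0,0)]⟩,.k,(.r (-1) ⟨0,[(38,0),(3,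
  0)]⟩ ⟨2,[(3,0),(5,0),(19,0),(10,2),(3,2)]⟩),⟨true,0,⟨0,[(39,0)]⟩,⟨0,[(40,0)]⟩⟩,⟨false,1,⟨3,[(9,0),
  (0,1),(6,0),(11,0),(12,0)]⟩,⟨0,[]⟩⟩,⟨false,0,⟨0,[]⟩,⟨3,[(9,0),(0,1),(6,0),(11,0),(12,0)]⟩⟩,⟨true,
  0,⟨0,[(40,0)]⟩,⟨0,[(39,0)]⟩⟩,[.e ⟨false,1,⟨2,[(10,0),(6,0),(20,0),(0,1),(2,0)]⟩,⟨0,[(40,0)]⟩⟩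
  ⟨false,1,⟨1,[(41,0),(0,0)]⟩,⟨0,[(44,0)]⟩⟩,.o ⟨false,2,⟨1,[(10,1),(22,0),(8,0)]⟩,⟨29,[(1,0),(0,5),
  (2,35),(5,4),(14,5),(9,3),(0,11),(2,0),(3,2)]⟩⟩,.o ⟨false,1,⟨0,[(21,0)]⟩,⟨0,[(6,0)]⟩⟩,.a ⟨true,0,
  ⟨0,[(3,0)]⟩,⟨1,[(5,1),(35,0),(0,0)]⟩⟩ ⟨false,1,⟨0,[(38,0),(3,0)]⟩,⟨2,[(3,0),(5,0),(19,0),(10,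
  2)]⟩⟩ ⟨true,1,⟨1,[(41,0),(0,0)]⟩,⟨14,[(2,5),(2,5),(5,10),(14,10),(2,4),(6,0),(0,1)]⟩⟩]⟩) (.R ⟨0,
  false,false,true,[1,0,0,0,-1],[2,-1,0,0,-1],[0,0,0,-1],(⟨0,[(23,0)]⟩,⟨0,[(24,0)]⟩),(⟨0,[(23,0),
  (10,0)]⟩,⟨0,[(0,0)]⟩),⟨0,[(0,0)]⟩,.k,(.r (-1) ⟨0,[(38,0),(3,0)]⟩ ⟨2,[(3,0),(5,0),(19,0),(10,2),(3,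
  2)]⟩),(.r (-1) ⟨0,[(38,0),(3,0)]⟩ ⟨2,[(3,0),(5,0),(19,0),(10,2),(3,2)]⟩),.k,.k,.k,⟨true,0,⟨2,[(3,
  0),(5,0),(19,0)]⟩,⟨0,[]⟩⟩,⟨false,0,⟨0,[(34,0),(0,0)]⟩,⟨2,[(4,0),(12,0),(15,0)]⟩⟩,⟨true,0,⟨0,[(39,
  0)]⟩,⟨0,[(40,0)]⟩⟩,⟨false,0,⟨0,[(12,0),(2,0),(9,0)]⟩,⟨1,[(33,0),(6,1),(1,0)]⟩⟩,⟨false,0,⟨0,[]⟩,⟨0,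
  []⟩⟩,⟨false,0,⟨0,[]⟩,⟨0,[]⟩⟩,[.e ⟨false,1,⟨2,[(10,0),(6,0),(20,0),(0,1),(2,0)]⟩,⟨0,[(40,0)]⟩⟩
  ⟨false,0,⟨0,[(2,0),(2,0),(1,0),(18,0),(15,0)]⟩,⟨3,[(9,0),(7,0),(3,1),(7,0),(3,0),(6,3)]⟩⟩,.o
  ⟨false,1,⟨2,[(2,0),(0,0),(3,0),(2,0),(4,0),(23,0),(2,1)]⟩,⟨24,[(5,16),(3,4),(7,2),(11,4),(6,3),(0,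
  13),(2,24)]⟩⟩,.o ⟨false,1,⟨0,[(21,0)]⟩,⟨0,[(6,0)]⟩⟩,.a ⟨true,0,⟨0,[(3,0)]⟩,⟨1,[(5,1),(35,0),(0,
  0)]⟩⟩ ⟨false,1,⟨0,[(38,0),(3,0)]⟩,⟨2,[(3,0),(5,0),(19,0),(10,2)]⟩⟩ ⟨true,0,⟨0,[(2,0),(2,0),(1,0),
  (18,0),(15,0)]⟩,⟨8,[(3,0),(5,0),(1,2),(14,2),(2,3),(7,2),(2,8),(3,2)]⟩⟩]⟩)))))) (.R ⟨1,false,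
  false,false,[0,0,1],[0,0,0,0,1],[0,0,0,0,0,0,0,1],(⟨0,[(26,0)]⟩,⟨0,[(25,0)]⟩),(⟨0,[(19,0)]⟩,⟨0,
  [(18,0)]⟩),⟨0,[(15,0)]⟩,.k,.k,.k,.k,(.r (-2) ⟨3,[(5,1),(4,3),(1,1),(0,1),(14,0),(8,2)]⟩ ⟨0,[(6,0),
  (28,0)]⟩),.k,⟨true,1,⟨0,[(11,0),(9,0),(15,0)]⟩,⟨0,[(6,0)]⟩⟩,⟨false,0,⟨0,[(1,0),(18,0)]⟩,⟨2,[(0,2),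
  (1,0),(18,0),(1,1),(7,0),(3,0)]⟩⟩,⟨false,1,⟨3,[(4,0),(0,1),(6,0),(11,0),(12,0)]⟩,⟨0,[]⟩⟩,⟨true,
  (-1),⟨0,[(1,0),(4,0),(13,0)]⟩,⟨0,[(0,0),(20,0)]⟩⟩,⟨true,0,⟨0,[(35,0)]⟩,⟨0,[(34,0)]⟩⟩,⟨true,(-1),
  ⟨0,[(1,0),(4,0),(13,0),(14,0)]⟩,⟨0,[(0,0),(9,0)]⟩⟩,[.o ⟨false,0,⟨3,[(1,2),(2,0),(19,0),(6,1)]⟩,⟨0,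
  [(0,0)]⟩⟩,.o ⟨false,0,⟨0,[(1,0)]⟩,⟨0,[(16,0)]⟩⟩,.o ⟨false,1,⟨3,[(12,0),(3,0),(6,3),(8,0),(3,0)]⟩,
  ⟨0,[(11,0)]⟩⟩,.a ⟨true,0,⟨0,[(23,0)]⟩,⟨0,[(20,0)]⟩⟩ ⟨true,1,⟨3,[(13,0),(6,1),(0,3),(10,0),(3,0),
  (0,1)]⟩,⟨0,[(6,0)]⟩⟩ ⟨false,0,⟨0,[(1,0),(18,0)]⟩,⟨0,[(0,0),(22,0)]⟩⟩]⟩)) (.Q [0,0,0,0,0,-1,0,0,0,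
  0,0,1] (.ed false [1,-1,0,0,1] .k) (.S ⟨1,0,[0,2],[0,0,0,0,1],[1,1,0,-1],(⟨0,[(19,0)]⟩,⟨0,[(18,
  0)]⟩),⟨0,[(0,0)]⟩,.k,(.r 0 ⟨0,[(33,0)]⟩ ⟨7,[(4,4),(0,5),(6,0),(11,4),(10,7),(1,0)]⟩),⟨false,1,⟨0,
  [(34,0),(2,0)]⟩,⟨0,[(35,0)]⟩⟩,⟨true,0,⟨0,[(39,0)]⟩,⟨0,[]⟩⟩,⟨true,0,⟨0,[]⟩,⟨0,[(39,0)]⟩⟩,⟨false,0,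
  ⟨0,[(35,0)]⟩,⟨0,[(34,0),(2,0)]⟩⟩,[.e ⟨false,0,⟨0,[(33,0)]⟩,⟨3,[(4,0),(0,1),(6,0),(11,0),(10,3),(1,
  0)]⟩⟩ ⟨false,0,⟨0,[(31,0)]⟩,⟨0,[(37,0)]⟩⟩,.o ⟨false,0,⟨6,[(6,2),(4,2),(0,0),(4,5),(3,2),(10,1),(0,
  0),(1,0)]⟩,⟨2,[(1,1),(3,0),(26,0),(4,0)]⟩⟩,.a ⟨true,0,⟨0,[(17,0)]⟩,⟨0,[(1,0)]⟩⟩ ⟨true,0,⟨0,[(34,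
  0)]⟩,⟨0,[(35,0)]⟩⟩ ⟨false,0,⟨0,[(39,0)]⟩,⟨0,[(37,0)]⟩⟩,.o ⟨false,0,⟨0,[(4,0),(6,0)]⟩,⟨3,[(1,2),
  (14,0),(15,0),(3,1)]⟩⟩]⟩) (.Q [0,0,-2,0,1,0,0,0,-1,0,0,-1] (.p false [0,0,0,0,1] [] (⟨0,[(19,0)]⟩,
  ⟨0,[(18,0)]⟩) .k 0 (⟨0,[]⟩,⟨0,[]⟩) .k .k) (.Q [0,0,-1,0,1,0,0,0,-1,-1,0,-1] (.p false [1,-1,0,0,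
  1] [] (⟨0,[(20,0),(9,0)]⟩,⟨0,[(1,0)]⟩) (.r 0 ⟨0,[(34,0)]⟩ ⟨7,[(5,4),(0,5),(6,0),(11,4),(10,7),(1,
  0)]⟩) 0 (⟨0,[]⟩,⟨0,[]⟩) .k .k) (.R ⟨0,false,false,true,[0,1,0,0,-1],[1,0,0,0,-1],[0,0,1],(⟨0,[(2,
  0)]⟩,⟨0,[(21,0),(9,0)]⟩),(⟨0,[(20,0)]⟩,⟨0,[(21,0)]⟩),⟨0,[(21,0)]⟩,(.r (-1) ⟨7,[(6,4),(0,5),(6,0),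
  (11,4),(10,7),(1,0)]⟩ ⟨0,[(35,0)]⟩),.k,.k,.k,.k,.k,⟨true,0,⟨1,[(25,0),(0,0)]⟩,⟨0,[]⟩⟩,⟨false,0,⟨0,
  [(31,0),(0,0)]⟩,⟨5,[(1,0),(12,1),(3,0),(11,1)]⟩⟩,⟨true,0,⟨0,[(36,0)]⟩,⟨0,[(37,0)]⟩⟩,⟨false,0,⟨0,
  [(9,0),(2,0),(9,0)]⟩,⟨1,[(30,0),(6,1),(1,0)]⟩⟩,⟨false,0,⟨0,[]⟩,⟨0,[]⟩⟩,⟨false,0,⟨0,[]⟩,⟨0,[]⟩⟩,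
  [.a ⟨true,0,⟨0,[(3,0)]⟩,⟨0,[(19,0)]⟩⟩ ⟨true,0,⟨1,[(25,0),(0,0)]⟩,⟨0,[]⟩⟩ ⟨false,0,⟨0,[(31,0),(0,
  0)]⟩,⟨5,[(1,0),(12,1),(3,0),(11,1)]⟩⟩,.o ⟨false,1,⟨2,[(3,1),(3,0),(26,0),(4,0)]⟩,⟨6,[(8,2),(4,2),
  (0,0),(4,5),(3,2),(10,1),(0,0),(1,0)]⟩⟩,.o ⟨false,1,⟨0,[(0,0)]⟩,⟨1,[(19,1),(5,0),(0,0)]⟩⟩,.o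
  ⟨false,1,⟨4,[(0,0),(2,1),(14,1),(15,1),(5,0)]⟩,⟨0,[(19,0)]⟩⟩]⟩) (.R ⟨0,false,false,true,[0,0,0,0,
  1],[1,-1,0,0,1],[0,2,0,-1],(⟨0,[(21,0)]⟩,⟨0,[(20,0)]⟩),(⟨0,[(21,0),(9,0)]⟩,⟨0,[(2,0)]⟩),⟨0,[(2,
  0)]⟩,.k,(.r 0 ⟨0,[(35,0)]⟩ ⟨7,[(6,4),(0,5),(6,0),(11,4),(10,7),(1,0)]⟩),(.r 0 ⟨0,[(35,0)]⟩ ⟨7,[(6,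
  4),(0,5),(6,0),(11,4),(10,7),(1,0)]⟩),.k,.k,.k,⟨true,0,⟨1,[(25,0),(0,0)]⟩,⟨0,[]⟩⟩,⟨false,0,⟨5,[(0,
  2),(2,0),(3,1),(25,0),(4,0)]⟩,⟨5,[(1,0),(12,1),(3,0),(11,1)]⟩⟩,⟨true,0,⟨0,[(36,0)]⟩,⟨0,[(37,0)]⟩⟩,
  ⟨false,0,⟨10,[(0,3),(2,0),(0,4),(2,2),(1,0),(2,5),(2,2),(23,0)]⟩,⟨1,[(30,0),(6,1),(1,0)]⟩⟩,⟨false,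
  0,⟨0,[]⟩,⟨0,[]⟩⟩,⟨false,0,⟨0,[]⟩,⟨0,[]⟩⟩,[.o ⟨false,(-1),⟨1,[(0,1),(7,0),(13,0),(0,0),(10,0),(0,
  1)]⟩,⟨2,[(3,0),(3,1),(26,1),(2,2),(1,1)]⟩⟩,.e ⟨false,0,⟨0,[(35,0)]⟩,⟨3,[(6,0),(0,1),(6,0),(11,0),
  (10,3),(1,0)]⟩⟩ ⟨false,0,⟨5,[(0,0),(2,0),(0,1),(6,1),(0,3),(9,1),(10,0),(4,0)]⟩,⟨1,[(30,0),(6,1),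
  (1,0)]⟩⟩,.a ⟨true,0,⟨0,[(19,0)]⟩,⟨0,[(3,0)]⟩⟩ ⟨false,0,⟨0,[(36,0)]⟩,⟨0,[(37,0),(1,0)]⟩⟩ ⟨true,
  (-1),⟨0,[(8,0),(3,0),(9,0)]⟩,⟨1,[(30,0),(6,1),(1,0)]⟩⟩,.o ⟨false,0,⟨4,[(0,1),(5,0),(12,1),(6,0),
  (7,1),(5,0)]⟩,⟨1,[(1,0),(16,0)]⟩⟩]⟩)) (.K ⟨0,[1,-1,-1],(-1),(-1),(⟨0,[(15,0)]⟩,⟨0,[(27,0),(3,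
  0)]⟩),.k,(.r (-1) ⟨2,[(3,2),(2,0),(6,0),(20,0),(0,1),(2,0)]⟩ ⟨3,[(0,2),(1,2),(9,1),(9,3),(2,1),(7,
  0),(2,7),(1,1)]⟩),.k,(.r 0 ⟨1,[(3,1),(3,0),(0,0),(28,0)]⟩ ⟨0,[(12,0),(9,1),(2,0),(10,0),(1,0)]⟩),
  .k,[⟨1,[(0,0),(1,0),(0,3),(18,3),(10,0),(2,3),(1,1)]⟩,⟨0,[(0,0),(1,0),(9,0)]⟩,⟨3,[(5,0),(7,0),(3,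
  1),(4,3),(2,0),(3,0),(6,3)]⟩,⟨1,[(0,0),(1,0),(0,0),(3,0),(4,0),(8,0),(12,0)]⟩]⟩)))))))))

theorem ok3 : chk K t3 r5 = true := by decide +kernel

noncomputable def t5 : Tre :=
  (.I [0,-1,0,1,1,0,0,-1] (.S ⟨1,0,[0,0,0,0,0,0,0,1],[0,0,1],[1,1,0,-1,0,0,0,1],(⟨0,[(21,0)]⟩,⟨0,
  [(20,0)]⟩),⟨0,[(10,0)]⟩,.k,.k,⟨true,0,⟨0,[(29,0)]⟩,⟨0,[(30,0)]⟩⟩,⟨false,1,⟨1,[(11,0),(0,0),(19,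
  0)]⟩,⟨0,[]⟩⟩,⟨false,0,⟨0,[]⟩,⟨1,[(11,0),(0,0),(19,0)]⟩⟩,⟨true,0,⟨0,[(30,0)]⟩,⟨0,[(29,0)]⟩⟩,[.e
  ⟨false,0,⟨4,[(1,3),(3,0),(13,0),(6,1)]⟩,⟨0,[(0,0)]⟩⟩ ⟨false,0,⟨0,[(1,0),(28,0)]⟩,⟨0,[(0,0),(28,
  0)]⟩⟩,.o ⟨false,1,⟨2,[(3,1),(12,0),(10,0),(4,1)]⟩,⟨0,[(17,0)]⟩⟩,.o ⟨false,1,⟨2,[(0,0),(4,0),(12,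
  1),(8,0),(3,0)]⟩,⟨0,[(6,0)]⟩⟩,.a ⟨true,0,⟨0,[(18,0)]⟩,⟨0,[(15,0)]⟩⟩ ⟨false,0,⟨0,[(1,0)]⟩,⟨1,[(0,
  1),(17,0),(0,0)]⟩⟩ ⟨true,0,⟨0,[(1,0),(28,0)]⟩,⟨0,[(17,0),(0,0)]⟩⟩]⟩) (.Q [0,0,1,0,0,0,0,0,-1,1,0,
  -1] (.p false [0,0,0,0,1] [1] (⟨0,[(14,0)]⟩,⟨0,[(13,0)]⟩) .k 1 (⟨0,[]⟩,⟨0,[]⟩) .k .k) (.Q [0,-2,0,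
  -1,1,0,0,0,-1,1,0,-1] (.p false [0,0,0,0,1] [1] (⟨0,[(15,0)]⟩,⟨0,[(14,0)]⟩) .k 1 (⟨0,[]⟩,⟨0,[]⟩)
  .k .k) (.Q [0,0,1,0,0,0,0,0,1,-1,0,1] (.p true [0,0,0,0,1] [1] (⟨0,[(16,0)]⟩,⟨0,[(15,0)]⟩) .k 1
  (⟨0,[]⟩,⟨0,[]⟩) .k .k) (.Q [0,0,0,0,0,-2,0,0,0,0,0,1] (.p true [0,0,0,0,1] [] (⟨0,[(17,0)]⟩,⟨0,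
  [(16,0)]⟩) .k 0 (⟨0,[]⟩,⟨0,[]⟩) .k .k) (.Q [0,0,0,0,0,0,0,0,-1,1,0,-1] (.p false [0,0,0,0,1] [1]
  (⟨0,[(18,0)]⟩,⟨0,[(17,0)]⟩) .k 1 (⟨0,[]⟩,⟨0,[]⟩) .k .k) (.S ⟨1,0,[0,2],[0,0,0,0,1],[1,1,0,-1],(⟨0,
  [(19,0)]⟩,⟨0,[(18,0)]⟩),⟨1,[(1,0),(17,0)]⟩,.k,(.r 0 ⟨0,[(33,0)]⟩ ⟨1,[(2,0),(1,0),(11,0),(0,0),(17,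
  1),(1,0)]⟩),⟨false,1,⟨8,[(2,3),(0,5),(8,1),(3,0),(0,0),(16,2)]⟩,⟨0,[(35,0)]⟩⟩,⟨true,0,⟨0,[(39,
  0)]⟩,⟨0,[]⟩⟩,⟨true,0,⟨0,[]⟩,⟨0,[(39,0)]⟩⟩,⟨false,0,⟨0,[(35,0)]⟩,⟨8,[(2,3),(0,5),(8,1),(3,0),(0,0),
  (16,2)]⟩⟩,[.e ⟨false,0,⟨0,[(33,0)]⟩,⟨1,[(16,0),(0,0),(17,1),(1,0)]⟩⟩ ⟨false,0,⟨0,[(31,0)]⟩,⟨0,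
  [(37,0)]⟩⟩,.o ⟨false,0,⟨1,[(2,0),(2,0),(6,0),(9,0),(0,0),(11,0)]⟩,⟨3,[(0,2),(15,0),(15,0),(4,
  1)]⟩⟩,.a ⟨true,0,⟨0,[(17,0)]⟩,⟨0,[(0,0)]⟩⟩ ⟨true,0,⟨0,[(34,0)]⟩,⟨0,[(35,0)]⟩⟩ ⟨false,0,⟨0,[(39,
  0)]⟩,⟨0,[(37,0)]⟩⟩,.o ⟨false,0,⟨0,[(2,0)]⟩,⟨3,[(0,2),(15,0),(15,0),(3,1)]⟩⟩]⟩) (.R ⟨1,false,false,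
  false,[0,0,1],[0,0,0,0,1],[1,0,0,-1,0,0,0,1],(⟨0,[(26,0)]⟩,⟨0,[(25,0)]⟩),(⟨0,[(19,0)]⟩,⟨0,[(18,
  0)]⟩),⟨0,[(15,0)]⟩,.k,.k,.k,.k,(.r (-1) ⟨5,[(6,3),(3,1),(1,0),(0,0),(2,0),(20,3)]⟩ ⟨0,[(22,0),(0,
  0),(11,0)]⟩),.k,⟨true,0,⟨0,[(5,0),(31,0)]⟩,⟨0,[(22,0),(0,0),(11,0)]⟩⟩,⟨false,0,⟨0,[(0,0),(19,0)]⟩,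
  ⟨2,[(3,1),(0,0),(18,2),(8,0),(0,3),(1,5)]⟩⟩,⟨false,1,⟨8,[(2,3),(0,5),(8,1),(3,0),(0,0),(16,2)]⟩,
  ⟨0,[(35,0)]⟩⟩,⟨false,0,⟨0,[(0,0),(8,0)]⟩,⟨2,[(3,1),(0,0),(3,2),(23,0),(0,0),(1,2)]⟩⟩,⟨true,0,⟨0,
  []⟩,⟨0,[(39,0)]⟩⟩,⟨false,0,⟨0,[(0,0),(8,0),(25,0)]⟩,⟨2,[(3,1),(0,0),(3,2),(23,0),(0,0)]⟩⟩,[.o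
  ⟨false,0,⟨1,[(0,0),(1,0),(28,0)]⟩,⟨2,[(3,1),(0,0),(27,0),(0,0),(1,2)]⟩⟩,.o ⟨false,0,⟨0,[(0,0)]⟩,
  ⟨0,[(16,0)]⟩⟩,.o ⟨false,1,⟨3,[(12,0),(3,0),(6,3),(8,0),(3,0)]⟩,⟨0,[(11,0)]⟩⟩,.a ⟨true,0,⟨0,[(23,
  0)]⟩,⟨0,[(20,0)]⟩⟩ ⟨true,0,⟨0,[(6,0)]⟩,⟨0,[(22,0),(0,0),(11,0)]⟩⟩ ⟨false,0,⟨0,[(0,0),(19,0)]⟩,⟨2,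
  [(3,1),(0,0),(18,2),(8,0),(0,0),(1,2)]⟩⟩]⟩)) (.Q [0,0,1,0,0,0,0,0,-1,0,0,-1] (.p false [0,0,0,0,
  1] [] (⟨0,[(18,0)]⟩,⟨0,[(17,0)]⟩) .k 0 (⟨0,[]⟩,⟨0,[]⟩) .k .k) (.Q [0,0,-1,0,1,0,1,0,0,-1,1] (.p
  true [0,0,1] [1] (⟨0,[(26,0)]⟩,⟨0,[(25,0)]⟩) .k 1 (⟨0,[]⟩,⟨0,[]⟩) .k .k) (.Q [0,2,0,0,-1,0,0,0,1,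
  0,0,1] (.p true [0,0,0,0,1] [] (⟨0,[(20,0)]⟩,⟨0,[(19,0)]⟩) .k 0 (⟨0,[]⟩,⟨0,[]⟩) .k .k) (.S ⟨1,0,
  [0,-1],[1,0,0,0,-1],[],(⟨0,[(20,0)]⟩,⟨0,[(21,0)]⟩),⟨1,[(3,0),(3,0),(3,0),(8,0),(4,0),(3,3),(5,0),
  (1,1),(1,0)]⟩,.k,(.r (-1) ⟨0,[(35,0),(3,0)]⟩ ⟨1,[(4,0),(1,0),(30,1),(3,1)]⟩),⟨true,0,⟨0,[(41,0)]⟩,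
  ⟨0,[]⟩⟩,⟨false,1,⟨1,[(18,0),(0,0),(19,0)]⟩,⟨0,[]⟩⟩,⟨false,0,⟨0,[(37,0)]⟩,⟨8,[(4,3),(0,5),(8,1),(3,
  0),(0,0),(16,2)]⟩⟩,⟨true,0,⟨0,[(37,0)]⟩,⟨0,[(36,0)]⟩⟩,[.o ⟨false,1,⟨5,[(2,1),(2,2),(12,0),(15,0),
  (2,2),(0,0)]⟩,⟨11,[(0,2),(3,6),(9,1),(18,2),(0,0)]⟩⟩,.a ⟨true,1,⟨0,[(5,0),(31,0)]⟩,⟨0,[(0,0)]⟩⟩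
  ⟨false,1,⟨1,[(38,0),(0,0)]⟩,⟨0,[(41,0)]⟩⟩ ⟨true,1,⟨0,[(39,0)]⟩,⟨0,[(0,0),(1,0)]⟩⟩,.e ⟨false,1,⟨1,
  [(18,0),(0,0),(19,0)]⟩,⟨0,[]⟩⟩ ⟨false,1,⟨0,[(39,0)]⟩,⟨0,[(41,0)]⟩⟩,.o ⟨false,0,⟨0,[(2,0)]⟩,⟨2,[(4,
  0),(9,1),(3,0),(0,0)]⟩⟩]⟩) (.R ⟨1,false,false,false,[0,0,1],[1,0,0,0,-1],[1,0,0,-1,0,0,0,1],(⟨0,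
  [(28,0)]⟩,⟨0,[(27,0)]⟩),(⟨0,[(20,0)]⟩,⟨0,[(21,0)]⟩),⟨0,[(17,0)]⟩,.k,.k,.k,.k,(.r 0 ⟨20,[(7,0),(0,
  13),(3,5),(2,2),(17,6),(0,0)]⟩ ⟨1,[(11,1),(13,1),(4,0),(6,1),(1,0)]⟩),.k,⟨true,(-1),⟨0,[(7,0)]⟩,
  ⟨1,[(11,1),(13,1),(4,0),(6,1),(1,0)]⟩⟩,⟨false,0,⟨0,[(0,0),(6,0),(3,0),(23,0),(1,1)]⟩,⟨2,[(1,1),(2,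
  0),(13,0),(0,2),(5,0)]⟩⟩,⟨false,1,⟨8,[(4,3),(0,5),(8,1),(3,0),(0,0),(16,2)]⟩,⟨0,[(37,0)]⟩⟩,⟨false,
  1,⟨0,[(0,0),(10,0)]⟩,⟨1,[(1,0),(2,0),(2,0),(11,0),(3,0),(13,0)]⟩⟩,⟨true,0,⟨0,[]⟩,⟨0,[(41,0)]⟩⟩,
  ⟨false,1,⟨0,[(0,0),(10,0),(25,0)]⟩,⟨1,[(1,0),(2,0),(2,0),(4,0),(6,0)]⟩⟩,[.o ⟨false,1,⟨1,[(0,0),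
  (17,0)]⟩,⟨1,[(1,0),(2,0),(2,0),(11,0),(4,0),(12,0)]⟩⟩,.o ⟨false,1,⟨0,[(0,0)]⟩,⟨0,[(4,0),(28,0)]⟩⟩,
  .o ⟨false,1,⟨2,[(1,1),(2,0),(13,0),(6,0)]⟩,⟨0,[(13,0)]⟩⟩,.a ⟨true,0,⟨0,[(25,0)]⟩,⟨0,[(22,0)]⟩⟩
  ⟨true,0,⟨0,[(8,0)]⟩,⟨0,[(24,0),(0,0),(11,0)]⟩⟩ ⟨false,1,⟨0,[(0,0),(21,0)]⟩,⟨1,[(1,0),(2,0),(2,0),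
  (11,0),(4,0),(0,1),(11,0)]⟩⟩]⟩)) (.R ⟨1,false,false,false,[1,-1,0,0,-1],[1,-1],[0,-1,-1,-1],(⟨2,
  [(0,0),(1,0),(16,1),(4,0),(3,4),(5,1),(1,1),(1,0)]⟩,⟨1,[(2,0),(17,2)]⟩),(⟨0,[(30,0)]⟩,⟨0,[(31,
  0)]⟩),⟨2,[(0,1),(1,1),(16,0),(4,1),(3,9),(5,3),(1,3),(1,1)]⟩,(.r (-1) ⟨0,[(34,0),(3,0)]⟩ ⟨1,[(3,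
  0),(1,0),(30,1),(3,1)]⟩),.k,(.r (-2) ⟨0,[(4,0),(8,0),(21,0)]⟩ ⟨3,[(0,2),(5,1),(16,1),(0,4),(8,0),
  (2,9)]⟩),.k,(.r (-1) ⟨0,[(34,0),(3,0)]⟩ ⟨1,[(3,0),(1,0),(30,1),(3,1)]⟩),.k,⟨false,1,⟨1,[(37,0),(0,
  0)]⟩,⟨0,[(40,0)]⟩⟩,⟨true,0,⟨0,[(18,0)]⟩,⟨0,[(1,0)]⟩⟩,⟨false,1,⟨1,[(17,0),(0,0),(19,0)]⟩,⟨0,[]⟩⟩,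
  ⟨false,0,⟨0,[(18,0)]⟩,⟨5,[(1,1),(2,2),(12,0),(15,0),(2,2),(0,0)]⟩⟩,⟨true,0,⟨0,[(36,0)]⟩,⟨0,[(35,
  0)]⟩⟩,⟨false,0,⟨0,[(18,0),(17,0)]⟩,⟨8,[(1,1),(2,5),(12,0),(15,1),(0,1),(0,0)]⟩⟩,[.a ⟨true,0,⟨0,
  [(8,0),(1,0)]⟩,⟨0,[(36,0)]⟩⟩ ⟨true,1,⟨0,[(34,0),(3,0)]⟩,⟨3,[(0,2),(5,1),(16,1),(0,4),(8,0),(2,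
  5)]⟩⟩ ⟨false,1,⟨2,[(4,0),(8,0),(4,2),(15,1),(2,0)]⟩,⟨0,[(1,0),(34,0)]⟩⟩,.o ⟨false,1,⟨8,[(3,3),(0,
  5),(8,1),(3,0),(0,0),(16,2)]⟩,⟨2,[(6,0),(16,0),(0,0),(8,0),(0,0),(1,4)]⟩⟩,.o ⟨false,0,⟨0,[(1,0)]⟩,
  ⟨2,[(3,0),(9,1),(3,0),(0,0)]⟩⟩,.o ⟨false,0,⟨1,[(1,1),(1,0),(1,0)]⟩,⟨0,[(13,0)]⟩⟩]⟩)) (.S ⟨1,0,[],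
  [1,0,0,0,-1],[0,-1],(⟨0,[(18,0)]⟩,⟨0,[(19,0)]⟩),⟨1,[(1,0),(3,0),(3,0),(8,0),(4,0),(3,3),(5,0),(1,
  1),(1,0)]⟩,.k,(.r (-1) ⟨8,[(0,2),(1,0),(0,5),(8,1),(19,0),(0,2)]⟩ ⟨1,[(2,0),(1,0),(30,1),(3,1)]⟩),
  ⟨false,1,⟨1,[(16,0),(0,0),(19,0)]⟩,⟨0,[]⟩⟩,⟨true,0,⟨0,[(39,0)]⟩,⟨0,[]⟩⟩,⟨true,0,⟨0,[(35,0)]⟩,⟨0,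
  [(34,0)]⟩⟩,⟨false,0,⟨0,[(35,0)]⟩,⟨8,[(2,3),(0,5),(8,1),(3,0),(0,0),(16,2)]⟩⟩,[.e ⟨false,1,⟨1,[(36,
  0),(0,0)]⟩,⟨0,[(39,0)]⟩⟩ ⟨false,1,⟨1,[(16,0),(0,0),(18,0)]⟩,⟨0,[]⟩⟩,.o ⟨false,1,⟨2,[(3,1),(0,0),
  (27,0),(0,0),(1,2)]⟩,⟨7,[(0,2),(1,4),(2,0),(16,0),(0,0),(7,2),(0,0),(2,0)]⟩⟩,.e ⟨false,1,⟨0,[(37,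
  0)]⟩,⟨0,[(39,0)]⟩⟩ ⟨false,1,⟨1,[(16,0),(0,0),(19,0)]⟩,⟨0,[]⟩⟩,.a ⟨true,0,⟨0,[(4,0)]⟩,⟨0,[(0,0)]⟩⟩
  ⟨true,1,⟨1,[(36,0),(0,0)]⟩,⟨0,[(5,0),(16,0),(0,0),(11,0)]⟩⟩ ⟨false,1,⟨1,[(36,0),(0,0)]⟩,⟨1,[(2,0),
  (1,0)]⟩⟩]⟩))) (.I [1,-1,2,1] (.Q [0,0,-2,0,1,0,0,0,0,-1] (.pp true [-1,1]) (.S ⟨1,0,[0,0,-1,-1],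
  [1,-1],[0,1,-1,-1],(⟨0,[(29,0)]⟩,⟨0,[(30,0)]⟩),⟨0,[(14,0),(0,0)]⟩,.k,(.r (-1) ⟨0,[(33,1),(3,0)]⟩
  ⟨2,[(1,3),(29,1),(3,1)]⟩),⟨true,0,⟨0,[(39,0)]⟩,⟨0,[]⟩⟩,⟨false,1,⟨1,[(16,0),(0,0),(19,0)]⟩,⟨0,[]⟩⟩,
  ⟨false,0,⟨0,[(35,0)]⟩,⟨0,[(34,0),(2,0)]⟩⟩,⟨true,0,⟨0,[(35,0)]⟩,⟨0,[(34,0)]⟩⟩,[.a ⟨true,0,⟨0,[(7,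
  0),(1,0)]⟩,⟨0,[(35,0)]⟩⟩ ⟨true,0,⟨0,[(33,0)]⟩,⟨0,[(1,0)]⟩⟩ ⟨false,1,⟨2,[(3,0),(8,0),(20,1),(2,
  0)]⟩,⟨2,[(1,1),(29,0),(3,0)]⟩⟩,.o ⟨false,1,⟨0,[(34,0),(2,0)]⟩,⟨2,[(5,0),(16,0),(0,0),(8,0),(0,0),
  (1,4)]⟩⟩,.o ⟨false,0,⟨1,[(23,0),(0,0)]⟩,⟨3,[(0,0),(11,0),(3,0),(11,0)]⟩⟩,.o ⟨false,0,⟨0,[(23,0),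
  (0,0)]⟩,⟨0,[(0,0)]⟩⟩]⟩) (.I [0,0,-2,0,1,0,0,0,1] (.I [0,0,-3,0,1] (.C [(0,0),(1,2),(1,0),(9,0),
  (19,0)]) (.C [(0,0),(3,0),(9,0)])) (.C [(0,0),(12,0),(5,0)]))) (.Q [0,0,0,0,0,-2,0,0,0,0,0,1] (.p
  true [0,0,0,0,1] [] (⟨0,[(18,0)]⟩,⟨0,[(17,0)]⟩) .k 0 (⟨0,[]⟩,⟨0,[]⟩) .k .k) (.S ⟨1,0,[0,1,-1,-1],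
  [0,-1,0,0,1],[0,2,-1,-1],(⟨1,[(0,0),(18,0)]⟩,⟨0,[(18,0),(11,0)]⟩),⟨0,[(0,0)]⟩,(.r 0 ⟨0,[(33,0)]⟩
  ⟨1,[(16,0),(0,0),(5,0),(0,0),(10,1),(1,0)]⟩),(.x 0 ⟨0,[(5,1),(3,1),(7,0),(0,0),(4,1),(6,1),(1,0),
  (2,1),(1,0)]⟩ ⟨6,[(0,6),(1,5),(13,0),(15,1),(3,3)]⟩),⟨true,0,⟨0,[(39,0)]⟩,⟨0,[]⟩⟩,⟨false,1,⟨1,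
  [(16,0),(0,0),(19,0)]⟩,⟨0,[]⟩⟩,⟨false,0,⟨0,[(35,0)]⟩,⟨0,[(34,0),(2,0)]⟩⟩,⟨true,0,⟨0,[(35,0)]⟩,⟨0,
  [(34,0)]⟩⟩,[.o ⟨false,0,⟨3,[(1,0),(3,1),(3,1),(7,3),(5,1),(8,1),(1,0)]⟩,⟨7,[(2,2),(1,2),(11,1),
  (15,1),(2,7),(1,3)]⟩⟩,.e ⟨false,0,⟨0,[(1,0)]⟩,⟨1,[(16,0),(0,0),(5,0),(0,0),(10,1),(1,0)]⟩⟩ ⟨false,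
  1,⟨2,[(1,0),(1,0),(8,0),(21,0),(1,0)]⟩,⟨1,[(23,0),(0,0),(10,1)]⟩⟩,.a ⟨true,0,⟨1,[(17,1),(5,0),(0,
  0)]⟩,⟨0,[(2,0)]⟩⟩ ⟨false,0,⟨0,[(33,0)]⟩,⟨1,[(23,0),(0,0),(10,1),(1,1)]⟩⟩ ⟨true,0,⟨0,[(33,0)]⟩,⟨1,
  [(23,0),(0,0),(10,1)]⟩⟩,.o ⟨false,0,⟨0,[(5,1),(3,1),(7,0),(5,1),(8,0),(2,1),(1,0)]⟩,⟨6,[(2,5),(13,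
  0),(15,1),(3,3)]⟩⟩]⟩) (.Q [0,0,0,1,0,0,1,1,0,-1,1] (.p true [0,0,1] [1] (⟨0,[(26,0)]⟩,⟨0,[(25,
  0)]⟩) .k 1 (⟨0,[]⟩,⟨0,[]⟩) .k .k) (.R ⟨1,false,false,true,[0,0,1],[1,-1],[0,1,0,-1],(⟨0,[(27,0)]⟩,
  ⟨0,[(26,0)]⟩),(⟨0,[(30,0)]⟩,⟨0,[(31,0)]⟩),⟨0,[(16,0)]⟩,.k,.k,.k,.k,.k,.k,⟨true,0,⟨1,[(24,0),(0,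
  0)]⟩,⟨0,[]⟩⟩,⟨false,0,⟨2,[(5,0),(8,0),(3,0),(2,0)]⟩,⟨17,[(2,1),(0,9),(9,9),(10,17),(8,5),(2,1),(0,
  0),(0,0)]⟩⟩,⟨false,1,⟨5,[(2,0),(1,1),(5,5),(2,1),(10,5),(8,1),(1,2)]⟩,⟨0,[(6,0),(29,1),(1,0)]⟩⟩,
  ⟨true,0,⟨0,[(10,0),(24,0)]⟩,⟨0,[(0,0)]⟩⟩,⟨false,1,⟨3,[(10,3),(2,0),(3,0),(6,3),(8,0),(3,0)]⟩,⟨0,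
  [(6,0),(29,0),(1,0)]⟩⟩,⟨false,0,⟨0,[(10,0)]⟩,⟨3,[(0,1),(10,1),(17,0),(8,2)]⟩⟩,[.o ⟨false,0,⟨0,
  [(35,0)]⟩,⟨1,[(29,0),(6,1),(1,0)]⟩⟩,.e ⟨false,1,⟨5,[(4,1),(5,0),(0,0),(1,2),(3,0),(17,2)]⟩,⟨0,
  [(36,0)]⟩⟩ ⟨false,0,⟨0,[(7,0),(2,0)]⟩,⟨3,[(13,0),(3,0),(6,3),(8,0),(2,3),(0,0)]⟩⟩,.o ⟨false,1,⟨3,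
  [(13,0),(3,0),(6,3),(8,0),(3,0)]⟩,⟨0,[(12,0)]⟩⟩,.a ⟨true,0,⟨0,[(24,0)]⟩,⟨0,[(21,0)]⟩⟩ ⟨true,0,⟨0,
  [(34,0)]⟩,⟨1,[(24,0),(0,0),(10,1)]⟩⟩ ⟨false,0,⟨0,[(7,0),(2,0)]⟩,⟨1,[(24,1),(4,0),(6,1),(1,
  0)]⟩⟩]⟩) (.Q [0,0,0,0,0,0,1,1,1,-1,1,1] (.p true [0,0,1] [1,0,0,0,-1] (⟨0,[(27,0)]⟩,⟨0,[(26,0)]⟩)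
  .k 2 (⟨0,[(19,0)]⟩,⟨0,[(20,0)]⟩) .k (.r 1 ⟨0,[(6,0),(29,0)]⟩ ⟨3,[(10,3),(2,1),(3,2),(0,0),(5,3),
  (4,0),(8,1)]⟩)) (.Q [0,0,-1,0,0,0,-1,0,1,0,-1,1] (.p false [0,0,1] [0,0,0,0,1] (⟨0,[(28,0)]⟩,⟨0,
  [(27,0)]⟩) .k 2 (⟨0,[(21,0)]⟩,⟨0,[(20,0)]⟩) .k (.r 0 ⟨0,[(7,0),(29,0),(1,0)]⟩ ⟨4,[(11,1),(2,1),(3,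
  2),(0,0),(4,2),(0,4),(7,0)]⟩)) (.R ⟨1,false,false,true,[1,0,0,0,-1],[1,0,-1],[1,0,0,-1],(⟨0,[(21,
  0)]⟩,⟨0,[(22,0)]⟩),(⟨0,[(28,0)]⟩,⟨0,[(29,0)]⟩),⟨4,[(2,0),(0,0),(0,0),(3,0),(12,3),(4,0),(3,6),(7,
  2),(1,0),(0,0)]⟩,.k,.k,(.r (-1) ⟨11,[(2,2),(1,1),(1,3),(3,2),(4,3),(19,0),(4,2)]⟩ ⟨1,[(26,0),(0,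
  0),(10,1),(3,1)]⟩),.k,(.r (-1) ⟨5,[(9,3),(3,1),(1,0),(0,0),(2,0),(20,3)]⟩ ⟨0,[(25,0),(0,0),(11,
  0)]⟩),.k,⟨true,0,⟨0,[(8,0),(31,0)]⟩,⟨0,[(25,0),(0,0),(11,0)]⟩⟩,⟨false,0,⟨0,[(0,0)]⟩,⟨6,[(5,2),(13,
  3),(6,6),(8,0),(3,1)]⟩⟩,⟨true,0,⟨0,[(37,0)]⟩,⟨0,[(38,0)]⟩⟩,⟨false,0,⟨0,[(20,0),(4,0)]⟩,⟨5,[(5,4),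
  (1,0),(0,3),(2,1),(14,3),(8,1),(2,3),(1,7)]⟩⟩,⟨false,0,⟨0,[]⟩,⟨1,[(19,0),(0,0),(19,0)]⟩⟩,⟨false,0,
  ⟨0,[(20,0),(4,0),(12,0)]⟩,⟨2,[(5,1),(0,0),(1,1),(2,0),(14,1),(8,0),(4,2)]⟩⟩,[.o ⟨false,0,⟨0,[(25,
  0)]⟩,⟨2,[(11,1),(12,0),(10,0),(4,1)]⟩⟩,.e ⟨false,1,⟨11,[(2,2),(1,1),(1,3),(3,2),(4,3),(19,0),(4,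
  2)]⟩,⟨0,[(38,0),(3,0)]⟩⟩ ⟨false,1,⟨3,[(12,3),(2,1),(3,0),(0,2),(10,0)]⟩,⟨5,[(5,4),(1,0),(0,3),(2,
  1),(14,3),(8,1),(2,3),(1,1)]⟩⟩,.a ⟨true,0,⟨1,[(5,0),(1,0)]⟩,⟨0,[(20,0)]⟩⟩ ⟨false,1,⟨0,[(37,0),(2,
  0)]⟩,⟨0,[(38,0)]⟩⟩ ⟨true,0,⟨0,[(20,0),(4,0)]⟩,⟨5,[(5,4),(1,0),(0,3),(2,1),(14,3),(8,1),(2,3),(1,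
  1)]⟩⟩,.o ⟨false,0,⟨0,[(5,0),(2,1),(3,1),(13,1),(8,0),(2,1),(1,0)]⟩,⟨3,[(15,1),(3,0),(0,2),(10,
  0)]⟩⟩]⟩) (.Q [0,0,0,0,0,0,0,0,0,0,1,-1] (.ed true [1,0,-1,0,1] (.r (-1) ⟨4,[(12,1),(2,1),(3,2),(0,
  0),(4,2),(0,4),(7,0)]⟩ ⟨0,[(8,0),(29,0),(1,0)]⟩)) (.K ⟨0,[0,0,1,0,-1],0,0,(⟨0,[(0,0)]⟩,⟨0,[(23,0),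
  (5,0)]⟩),.k,(.r (-1) ⟨5,[(10,3),(3,1),(1,0),(0,0),(2,0),(20,3)]⟩ ⟨0,[(26,0),(0,0),(11,0)]⟩),(.r 0
  ⟨1,[(9,1),(17,0),(0,0),(10,3),(1,1)]⟩ ⟨5,[(1,3),(1,4),(12,4),(3,0),(5,0),(0,1),(7,1),(2,0)]⟩),.k,
  .k,[⟨0,[(21,0)]⟩,⟨0,[(1,0)]⟩,⟨0,[(21,0),(4,0),(16,0)]⟩,⟨9,[(1,3),(4,4),(1,0),(0,3),(2,5),(23,1),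
  (2,3),(1,1)]⟩]⟩) (.R ⟨1,false,false,false,[0,0,1],[0,0,1,0,1],[1,0,0,-1,0,0,0,1],(⟨0,[(30,0)]⟩,⟨0,
  [(29,0)]⟩),(⟨0,[(23,0),(6,0)]⟩,⟨14,[(0,0),(0,3),(0,3),(0,7),(0,15),(0,1),(3,3),(8,13),(12,17),(4,
  0),(2,13),(1,2)]⟩),⟨0,[(19,0)]⟩,.k,.k,.k,.k,(.r (-1) ⟨11,[(3,2),(1,1),(1,3),(3,2),(4,3),(19,0),(4,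
  2)]⟩ ⟨1,[(27,0),(0,0),(10,1),(3,1)]⟩),.k,⟨false,1,⟨11,[(3,2),(1,1),(1,3),(3,2),(4,3),(19,0),(4,
  2)]⟩,⟨0,[(39,0),(3,0)]⟩⟩,⟨true,0,⟨0,[(21,0)]⟩,⟨0,[(1,0),(13,0)]⟩⟩,⟨false,1,⟨0,[(38,0),(2,0)]⟩,⟨0,
  [(39,0)]⟩⟩,⟨false,0,⟨0,[(21,0)]⟩,⟨7,[(6,2),(1,2),(11,1),(15,1),(4,3)]⟩⟩,⟨true,0,⟨0,[]⟩,⟨0,[(43,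
  0)]⟩⟩,⟨false,0,⟨0,[(21,0),(17,0)]⟩,⟨5,[(6,0),(0,3),(0,0),(27,1),(1,1)]⟩⟩,[.o ⟨false,0,⟨0,[(2,0),
  (40,0)]⟩,⟨1,[(1,0),(4,0),(6,1),(1,0),(20,0),(4,0)]⟩⟩,.o ⟨false,0,⟨0,[(2,0)]⟩,⟨2,[(6,0),(1,0),(4,
  0),(6,0),(5,1),(9,0),(4,0)]⟩⟩,.o ⟨false,1,⟨3,[(1,0),(14,1),(3,0),(6,2),(4,0)]⟩,⟨0,[(15,0)]⟩⟩,.a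
  ⟨true,0,⟨0,[(27,0)]⟩,⟨0,[(24,0)]⟩⟩ ⟨true,0,⟨0,[(10,0)]⟩,⟨0,[(26,0),(0,0),(11,0)]⟩⟩ ⟨false,0,⟨0,
  [(2,0),(21,0)]⟩,⟨5,[(1,4),(11,5),(6,0),(6,0),(8,1),(4,2)]⟩⟩]⟩))) (.R ⟨1,false,false,true,[1,0,0,0,
  -1],[0,-1,1],[],(⟨0,[(20,0)]⟩,⟨0,[(21,0)]⟩),(⟨0,[(17,0)]⟩,⟨1,[(2,0),(18,0),(5,1)]⟩),⟨4,[(1,0),(0,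
  0),(0,0),(3,0),(12,3),(4,0),(3,6),(7,2),(1,0),(0,0)]⟩,.k,.k,(.r (-1) ⟨11,[(1,2),(1,1),(1,3),(3,2),
  (4,3),(19,0),(4,2)]⟩ ⟨1,[(25,0),(0,0),(10,1),(3,1)]⟩),(.r (-1) ⟨1,[(11,1),(13,1),(4,0),(6,1),(1,
  0)]⟩ ⟨20,[(7,0),(0,13),(3,5),(2,2),(17,6),(0,0)]⟩),.k,.k,⟨true,1,⟨1,[(11,1),(13,1),(4,0),(6,1),(1,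
  0)]⟩,⟨0,[(7,0)]⟩⟩,⟨false,1,⟨3,[(14,1),(3,0),(0,2),(5,3),(4,0)]⟩,⟨0,[(4,0),(8,0)]⟩⟩,⟨true,0,⟨0,
  [(41,0)]⟩,⟨0,[]⟩⟩,⟨false,0,⟨7,[(7,3),(1,0),(2,2),(1,1),(4,5),(5,3),(8,1),(6,0)]⟩,⟨0,[(0,0),(36,0),
  (1,0)]⟩⟩,⟨false,0,⟨0,[(37,0)]⟩,⟨0,[(36,0),(2,0)]⟩⟩,⟨false,0,⟨3,[(7,1),(6,0),(4,2),(3,1),(1,1),(8,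
  0),(2,1)]⟩,⟨0,[(0,0),(38,0)]⟩⟩,[.o ⟨false,0,⟨11,[(3,1),(3,3),(1,2),(2,2),(10,1),(1,3),(8,3),(6,
  0)]⟩,⟨1,[(11,1),(18,0),(6,1),(1,0)]⟩⟩,.e ⟨false,1,⟨1,[(38,0),(0,0)]⟩,⟨0,[(41,0)]⟩⟩ ⟨false,1,⟨5,
  [(9,1),(2,3),(1,2),(4,2),(14,0),(4,1)]⟩,⟨0,[(0,0),(36,0)]⟩⟩,.a ⟨true,0,⟨1,[(4,0),(1,0)]⟩,⟨0,[(19,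
  0)]⟩⟩ ⟨false,1,⟨1,[(18,0),(0,0),(19,0)]⟩,⟨0,[]⟩⟩ ⟨true,0,⟨7,[(7,3),(1,0),(2,2),(1,1),(4,5),(5,3),
  (8,1),(6,0)]⟩,⟨0,[(0,0),(36,0)]⟩⟩,.o ⟨false,0,⟨2,[(0,1),(5,0),(0,1),(17,1),(8,0),(2,1),(1,0)]⟩,⟨3,
  [(14,1),(3,0),(0,2),(10,0)]⟩⟩]⟩)))))) (.Q [0,-1,0,0,1,0,0,0,-1,0,0,-1] (.p false [0,0,0,0,1] []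
  (⟨0,[(16,0)]⟩,⟨0,[(15,0)]⟩) .k 0 (⟨0,[]⟩,⟨0,[]⟩) .k .k) (.Q [0,0,0,0,0,0,0,0,1,-1,0,1] (.p true
  [0,0,0,0,1] [1] (⟨0,[(17,0)]⟩,⟨0,[(16,0)]⟩) .k 1 (⟨0,[]⟩,⟨0,[]⟩) .k .k) (.R ⟨1,false,false,false,
  [0,0,1],[0,0,0,0,1],[1,0,0,-1,0,0,0,1],(⟨0,[(25,0)]⟩,⟨0,[(24,0)]⟩),(⟨0,[(18,0)]⟩,⟨0,[(17,0)]⟩),⟨0,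
  [(14,0)]⟩,.k,.k,.k,.k,(.r (-1) ⟨4,[(1,0),(3,2),(3,1),(1,0),(0,0),(23,2)]⟩ ⟨0,[(21,0),(0,0),(11,
  0)]⟩),.k,⟨true,0,⟨0,[(4,0),(31,0)]⟩,⟨0,[(21,0),(0,0),(11,0)]⟩⟩,⟨false,0,⟨0,[(0,0),(18,0)]⟩,⟨0,[(1,
  0),(20,0),(9,0),(1,0)]⟩⟩,⟨false,1,⟨0,[(33,0),(2,0)]⟩,⟨0,[(34,0)]⟩⟩,⟨false,0,⟨0,[(0,0),(7,0)]⟩,⟨0,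
  [(1,0),(5,0)]⟩⟩,⟨true,0,⟨0,[]⟩,⟨0,[(38,0)]⟩⟩,⟨false,0,⟨0,[(2,0),(5,0),(27,0)]⟩,⟨0,[(1,0),(4,0)]⟩⟩,
  [.o ⟨false,0,⟨2,[(2,0),(13,1),(10,0),(5,0)]⟩,⟨0,[(1,0)]⟩⟩,.o ⟨false,0,⟨0,[(0,0)]⟩,⟨0,[(15,0)]⟩⟩,
  .o ⟨false,1,⟨3,[(11,0),(3,0),(6,3),(8,0),(3,0)]⟩,⟨0,[(10,0)]⟩⟩,.a ⟨true,0,⟨0,[(22,0)]⟩,⟨0,[(19,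
  0)]⟩⟩ ⟨true,0,⟨0,[(5,0)]⟩,⟨0,[(21,0),(0,0),(11,0)]⟩⟩ ⟨false,0,⟨0,[(0,0),(18,0)]⟩,⟨0,[(1,0),(20,
  0)]⟩⟩]⟩) (.Q [0,0,0,0,0,-1,0,0,0,0,0,1] (.ed false [1,-1,0,0,1] .k) (.S ⟨1,0,[0,2],[0,0,0,0,1],[1,
  1,0,-1],(⟨0,[(19,0)]⟩,⟨0,[(18,0)]⟩),⟨0,[(0,0)]⟩,.k,(.r 0 ⟨0,[(33,0)]⟩ ⟨1,[(16,0),(0,0),(5,0),(0,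
  0),(10,1),(1,0)]⟩),⟨false,1,⟨0,[(34,0),(2,0)]⟩,⟨0,[(35,0)]⟩⟩,⟨true,0,⟨0,[(39,0)]⟩,⟨0,[]⟩⟩,⟨true,0,
  ⟨0,[]⟩,⟨0,[(39,0)]⟩⟩,⟨false,0,⟨0,[(35,0)]⟩,⟨0,[(34,0),(2,0)]⟩⟩,[.e ⟨false,0,⟨0,[(33,0)]⟩,⟨1,[(16,
  0),(0,0),(17,1),(1,0)]⟩⟩ ⟨false,0,⟨0,[(31,0)]⟩,⟨0,[(37,0)]⟩⟩,.o ⟨false,0,⟨2,[(3,0),(13,1),(10,0),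
  (5,0)]⟩,⟨0,[(2,0)]⟩⟩,.a ⟨true,0,⟨0,[(17,0)]⟩,⟨0,[(1,0)]⟩⟩ ⟨true,0,⟨0,[(34,0)]⟩,⟨0,[(35,0)]⟩⟩
  ⟨false,0,⟨0,[(39,0)]⟩,⟨0,[(37,0)]⟩⟩,.o ⟨false,0,⟨5,[(3,3),(1,3),(3,3),(7,1),(5,4),(0,0),(7,1),(4,
  5)]⟩,⟨3,[(1,2),(14,0),(15,0),(3,1)]⟩⟩]⟩) (.R ⟨0,false,false,false,[0,0,0,0,1],[1,0,0,0,-1],[1,1,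
  1],(⟨0,[(19,0)]⟩,⟨0,[(18,0)]⟩),(⟨0,[(18,0)]⟩,⟨0,[(19,0)]⟩),⟨0,[(0,0)]⟩,.k,.k,(.r 0 ⟨0,[(33,0)]⟩
  ⟨1,[(16,0),(0,0),(5,0),(0,0),(10,1),(1,0)]⟩),.k,.k,.k,⟨true,(-1),⟨1,[(3,0),(0,0),(0,0),(16,0),(0,
  0)]⟩,⟨0,[(37,0)]⟩⟩,⟨false,1,⟨3,[(1,6),(14,0),(15,0),(3,1)]⟩,⟨0,[(3,1),(1,0),(3,0),(13,0),(9,0),(3,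
  2)]⟩⟩,⟨true,0,⟨1,[(23,0),(0,0)]⟩,⟨2,[(1,0),(1,0),(29,0),(2,0)]⟩⟩,⟨false,2,⟨0,[(1,0),(0,0),(34,
  0)]⟩,⟨0,[(3,1),(1,0),(3,0),(13,0),(9,0),(3,1)]⟩⟩,⟨false,0,⟨0,[]⟩,⟨0,[]⟩⟩,⟨false,0,⟨0,[]⟩,⟨0,[]⟩⟩,
  [.o ⟨false,1,⟨0,[(2,0)]⟩,⟨2,[(3,0),(13,1),(10,0),(5,0)]⟩⟩,.e ⟨false,0,⟨0,[]⟩,⟨1,[(16,0),(0,0),(18,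
  0)]⟩⟩ ⟨false,2,⟨1,[(1,1),(0,1),(33,0),(0,0)]⟩,⟨0,[(3,1),(1,0),(3,0),(13,0),(9,0),(3,1)]⟩⟩,.a
  ⟨true,0,⟨0,[(17,0)]⟩,⟨0,[(1,0)]⟩⟩ ⟨false,0,⟨1,[(23,0),(0,0)]⟩,⟨1,[(36,0),(0,0)]⟩⟩ ⟨true,1,⟨0,[(1,
  0),(0,0)]⟩,⟨0,[(3,1),(1,0),(3,0),(13,0),(9,0),(3,1)]⟩⟩,.o ⟨false,0,⟨5,[(3,3),(1,3),(3,3),(7,1),(5,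
  4),(0,0),(7,1),(4,5)]⟩,⟨3,[(1,2),(14,0),(15,0),(3,1)]⟩⟩]⟩))) (.Q [0,0,0,0,0,-1,0,0,0,1,0,-1] (.ed
  true [0,1,0,0,1] .k) (.S ⟨1,0,[0,-1],[1,0,0,0,-1],[1,0,0,-1],(⟨0,[(17,0)]⟩,⟨0,[(18,0)]⟩),⟨0,[(0,
  0)]⟩,.k,(.r (-1) ⟨0,[(32,0),(3,0)]⟩ ⟨1,[(22,0),(0,0),(10,1),(3,1)]⟩),⟨true,0,⟨0,[(33,0)]⟩,⟨0,[(34,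
  0)]⟩⟩,⟨false,1,⟨1,[(15,0),(0,0),(19,0)]⟩,⟨0,[]⟩⟩,⟨false,0,⟨0,[]⟩,⟨1,[(15,0),(0,0),(19,0)]⟩⟩,⟨true,
  0,⟨0,[(34,0)]⟩,⟨0,[(33,0)]⟩⟩,[.e ⟨false,1,⟨1,[(33,1),(1,0),(0,0)]⟩,⟨0,[(34,0)]⟩⟩ ⟨false,1,⟨1,[(35,
  0),(0,0)]⟩,⟨0,[(38,0)]⟩⟩,.o ⟨false,2,⟨0,[(15,0),(20,0)]⟩,⟨4,[(1,2),(0,1),(1,0),(16,0),(0,0),(8,0),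
  (0,0)]⟩⟩,.o ⟨false,1,⟨0,[(15,0)]⟩,⟨2,[(1,1),(14,0),(14,0),(4,0)]⟩⟩,.a ⟨true,0,⟨0,[(3,0)]⟩,⟨1,[(1,
  1),(33,0),(0,0)]⟩⟩ ⟨false,1,⟨0,[(32,0),(3,0)]⟩,⟨1,[(22,0),(0,0),(10,1)]⟩⟩ ⟨true,1,⟨1,[(35,0),(0,
  0)]⟩,⟨1,[(2,0),(0,0),(0,0),(16,0),(0,0)]⟩⟩]⟩) (.Q [0,-1,0,0,1,0,0,0,-2,2,0,-2] (.p false [0,0,-1,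
  0,1] [2,0,-1,0,-1] (⟨0,[(0,0),(12,0)]⟩,⟨0,[(17,0),(7,0)]⟩) .k 2 (⟨0,[(17,0),(6,0)]⟩,⟨0,[(0,0),(13,
  0)]⟩) .k (.r 0 ⟨0,[(38,1)]⟩ ⟨0,[(36,0)]⟩)) (.R ⟨0,false,false,true,[-1,1,0,0,1],[1,1,0,0,-1],[1,0,
  1,1],(⟨0,[(1,0)]⟩,⟨0,[(18,0),(10,0)]⟩),(⟨0,[(18,0),(11,0)]⟩,⟨0,[(1,0),(12,0),(0,0)]⟩),⟨0,[(18,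
  0)]⟩,(.r 0 ⟨1,[(23,0),(0,0),(10,1),(3,1)]⟩ ⟨0,[(33,0),(3,0)]⟩),(.r (-1) ⟨1,[(16,0),(0,0),(5,0),(0,
  0),(10,1),(1,0)]⟩ ⟨0,[(33,0)]⟩),.k,.k,.k,.k,⟨true,0,⟨0,[]⟩,⟨1,[(23,0),(0,0)]⟩⟩,⟨false,1,⟨0,[(0,0),
  (32,0),(1,0)]⟩,⟨2,[(2,3),(14,1),(14,1),(4,1)]⟩⟩,⟨false,1,⟨0,[(37,0)]⟩,⟨0,[(39,0)]⟩⟩,⟨true,1,⟨0,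
  [(0,0)]⟩,⟨2,[(2,4),(14,0),(14,1),(6,0)]⟩⟩,⟨false,0,⟨0,[]⟩,⟨0,[]⟩⟩,⟨false,0,⟨0,[]⟩,⟨0,[]⟩⟩,[.o
  ⟨false,1,⟨0,[(16,0),(18,0)]⟩,⟨1,[(2,1),(2,0),(3,0),(13,0),(8,0),(0,0),(3,1)]⟩⟩,.e ⟨false,1,⟨1,
  [(16,0),(0,0),(17,1),(1,0)]⟩,⟨0,[(33,0)]⟩⟩ ⟨false,1,⟨0,[(0,0),(34,0)]⟩,⟨6,[(2,11),(9,1),(19,3),(0,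
  2),(0,3),(2,5)]⟩⟩,.o ⟨false,1,⟨14,[(2,1),(9,8),(4,3),(14,6),(4,0),(0,2)]⟩,⟨0,[(4,0)]⟩⟩,.a ⟨true,0,
  ⟨2,[(2,1),(14,0),(14,0),(4,0)]⟩,⟨0,[(0,0),(1,0)]⟩⟩ ⟨true,0,⟨0,[(35,0)]⟩,⟨0,[(34,0)]⟩⟩ ⟨false,1,⟨0,
  [(0,0),(34,0)]⟩,⟨3,[(2,7),(2,0),(3,0),(13,0),(8,2),(0,0),(0,1),(2,5)]⟩⟩]⟩) (.Q [0,0,0,1,0,0,-1,-1,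
  1,-1,-1,1] (.p true [0,0,-1,0,1] [1] (⟨0,[(1,0),(12,0)]⟩,⟨0,[(18,0),(7,0)]⟩) .k 1 (⟨0,[]⟩,⟨0,[]⟩)
  .k (.r (-1) ⟨4,[(9,1),(2,1),(3,2),(0,0),(4,2),(0,4),(7,0)]⟩ ⟨0,[(5,0),(29,0),(1,0)]⟩)) (.Q [0,0,
  -2,0,1,0,0,0,1,-2,0,1] (.p true [-1,1,0,0,1] [1] (⟨0,[(2,0)]⟩,⟨0,[(19,0),(10,0)]⟩) (.r 0 ⟨0,[(0,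
  0),(4,0),(16,0)]⟩ ⟨0,[(34,0),(3,0)]⟩) 1 (⟨0,[]⟩,⟨0,[]⟩) .k .k) (.R ⟨1,false,false,true,[2,-1,0,0,
  -1],[1,-1],[0,0,-1,-1],(⟨0,[(20,0),(10,0)]⟩,⟨0,[(3,0)]⟩),(⟨0,[(31,0)]⟩,⟨0,[(32,0)]⟩),⟨0,[(16,0),
  (0,0),(2,0)]⟩,(.r (-1) ⟨0,[(35,0),(3,0)]⟩ ⟨0,[(1,0),(4,0),(16,0)]⟩),.k,(.r (-2) ⟨1,[(35,1),(0,1),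
  (1,0),(0,2)]⟩ ⟨0,[(2,0),(3,1),(30,1)]⟩),.k,(.r (-1) ⟨0,[(35,0),(3,0)]⟩ ⟨0,[(1,0),(4,0),(16,0)]⟩),
  .k,⟨false,1,⟨1,[(38,0),(0,0)]⟩,⟨0,[(41,0)]⟩⟩,⟨true,0,⟨6,[(2,1),(16,2),(14,0),(4,0)]⟩,⟨0,[(6,0)]⟩⟩,
  ⟨true,0,⟨0,[(41,0)]⟩,⟨0,[]⟩⟩,⟨true,(-1),⟨3,[(2,0),(2,1),(1,0),(16,0),(0,0),(9,0)]⟩,⟨1,[(6,1),(31,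
  0),(0,0)]⟩⟩,⟨false,0,⟨0,[(37,0)]⟩,⟨0,[(36,0),(2,0)]⟩⟩,⟨true,(-1),⟨0,[(5,0)]⟩,⟨0,[(6,0),(28,0),(3,
  0)]⟩⟩,[.o ⟨false,0,⟨0,[(36,0)]⟩,⟨1,[(30,0),(6,1),(1,0)]⟩⟩,.a ⟨true,0,⟨0,[(9,0),(1,0)]⟩,⟨0,[(37,
  0)]⟩⟩ ⟨true,1,⟨0,[(35,0),(3,0)]⟩,⟨0,[(2,0),(3,1),(30,0)]⟩⟩ ⟨false,1,⟨4,[(2,0),(11,2),(20,3),(0,0),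
  (2,2)]⟩,⟨0,[(6,0),(30,0)]⟩⟩,.o ⟨false,0,⟨0,[(6,0)]⟩,⟨13,[(2,1),(11,6),(4,2),(10,6),(3,0),(4,0)]⟩⟩,
  .o ⟨false,0,⟨1,[(6,1),(18,0),(0,0)]⟩,⟨0,[(0,0)]⟩⟩]⟩) (.R ⟨0,false,false,true,[1,0,0,0,-1],[2,-1,0,
  0,-1],[1,1,1],(⟨0,[(20,0)]⟩,⟨0,[(21,0)]⟩),(⟨0,[(20,0),(10,0)]⟩,⟨0,[(3,0)]⟩),⟨0,[(3,0)]⟩,.k,(.r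
  (-1) ⟨0,[(35,0),(3,0)]⟩ ⟨0,[(1,0),(4,0),(16,0)]⟩),(.r (-1) ⟨0,[(35,0),(3,0)]⟩ ⟨0,[(1,0),(4,0),(16,
  0)]⟩),.k,.k,.k,⟨true,(-1),⟨8,[(0,5),(1,0),(2,3),(19,2),(0,2),(7,1),(2,4)]⟩,⟨0,[(35,0),(3,0)]⟩⟩,
  ⟨false,0,⟨1,[(0,0),(18,0),(18,0)]⟩,⟨3,[(14,0),(3,0),(15,0),(3,0)]⟩⟩,⟨true,(-1),⟨9,[(0,5),(4,5),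
  (27,0),(0,1),(0,0),(0,4)]⟩,⟨1,[(38,0),(0,0)]⟩⟩,⟨false,0,⟨0,[(9,0),(1,0)]⟩,⟨1,[(30,0),(6,1),(1,
  0)]⟩⟩,⟨false,0,⟨0,[]⟩,⟨0,[]⟩⟩,⟨false,0,⟨0,[]⟩,⟨0,[]⟩⟩,[.a ⟨true,0,⟨1,[(0,1),(34,1),(2,0),(0,0)]⟩,
  ⟨0,[(1,0),(8,0)]⟩⟩ ⟨false,0,⟨0,[(41,0)]⟩,⟨1,[(38,0),(0,0)]⟩⟩ ⟨true,0,⟨0,[(9,0),(1,0)]⟩,⟨21,[(0,7),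
  (1,3),(22,2),(0,2),(7,9),(2,21),(1,1)]⟩⟩,.o ⟨false,1,⟨0,[(6,0),(28,0),(3,0)]⟩,⟨1,[(5,0),(13,0),
  (14,0),(2,0)]⟩⟩,.o ⟨false,1,⟨0,[(18,0)]⟩,⟨6,[(2,1),(16,2),(14,0),(4,0)]⟩⟩,.e ⟨false,0,⟨0,[]⟩,⟨1,
  [(18,0),(0,0),(19,0)]⟩⟩ ⟨false,1,⟨1,[(9,1),(1,1),(26,0),(0,0)]⟩,⟨21,[(0,7),(1,3),(22,2),(0,2),(7,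
  9),(2,21),(1,1)]⟩⟩]⟩)) (.R ⟨0,false,false,false,[-1,1,0,0,1],[-1,0,1,0,1],[0,1,1,1],(⟨0,[(2,0)]⟩,
  ⟨0,[(19,0),(10,0)]⟩),(⟨0,[(2,0),(13,0)]⟩,⟨0,[(19,0),(6,0)]⟩),⟨0,[(19,0)]⟩,(.r 0 ⟨1,[(24,0),(0,0),
  (10,1),(3,1)]⟩ ⟨0,[(34,0),(3,0)]⟩),.k,.k,.k,.k,.k,⟨false,1,⟨3,[(10,3),(2,0),(3,0),(6,3),(8,0),(2,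
  3),(0,0)]⟩,⟨0,[(7,0)]⟩⟩,⟨true,0,⟨0,[(24,0)]⟩,⟨0,[(12,0)]⟩⟩,⟨false,1,⟨1,[(17,0),(0,0),(19,0)]⟩,⟨0,
  []⟩⟩,⟨true,0,⟨0,[(8,0)]⟩,⟨0,[(23,0),(12,0)]⟩⟩,⟨false,0,⟨0,[]⟩,⟨0,[]⟩⟩,⟨false,0,⟨0,[]⟩,⟨0,[]⟩⟩,[.a
  ⟨true,(-1),⟨0,[(0,0),(0,0),(34,0)]⟩,⟨1,[(5,1),(4,1),(26,0),(0,0)]⟩⟩ ⟨false,0,⟨0,[(36,0),(3,0)]⟩,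
  ⟨0,[(34,0),(3,0)]⟩⟩ ⟨true,(-1),⟨0,[(6,0),(17,0),(11,0)]⟩,⟨1,[(10,1),(18,0),(8,0)]⟩⟩,.o ⟨false,0,
  ⟨2,[(0,0),(0,1),(7,1),(23,0),(2,0),(1,0)]⟩,⟨0,[(10,0),(6,0)]⟩⟩,.o ⟨false,1,⟨13,[(1,1),(11,6),(4,
  2),(10,6),(3,0),(4,0)]⟩,⟨0,[(5,0)]⟩⟩,.e ⟨false,0,⟨0,[(36,0)]⟩,⟨0,[(35,0),(2,0)]⟩⟩ ⟨false,0,⟨0,[(9,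
  0)]⟩,⟨1,[(10,1),(18,0),(8,0)]⟩⟩]⟩)))))) (.Q [0,1,0,0,-1,0,0,0,1,-1,0,1] (.p true [0,0,0,0,1] [1]
  (⟨0,[(15,0)]⟩,⟨0,[(14,0)]⟩) .k 1 (⟨0,[]⟩,⟨0,[]⟩) .k .k) (.R ⟨1,false,false,true,[0,0,1],[1,0,0,0,
  -1],[1,1,0,-1,0,0,0,1],(⟨0,[(23,0)]⟩,⟨0,[(22,0)]⟩),(⟨0,[(15,0)]⟩,⟨0,[(16,0)]⟩),⟨0,[(12,0)]⟩,.k,.k,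
  .k,.k,(.r 0 ⟨20,[(2,0),(0,13),(3,5),(2,2),(17,6),(0,0)]⟩ ⟨1,[(6,1),(13,1),(4,0),(6,1),(1,0)]⟩),.k,
  ⟨true,(-1),⟨0,[(2,0)]⟩,⟨1,[(6,1),(13,1),(4,0),(6,1),(1,0)]⟩⟩,⟨false,1,⟨0,[(13,0),(3,0)]⟩,⟨0,[(1,
  0),(18,0)]⟩⟩,⟨true,0,⟨0,[(31,0)]⟩,⟨0,[(32,0)]⟩⟩,⟨true,1,⟨0,[(6,0),(6,0)]⟩,⟨0,[(0,0),(4,0)]⟩⟩,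
  ⟨false,0,⟨0,[]⟩,⟨1,[(13,0),(0,0),(19,0)]⟩⟩,⟨true,1,⟨0,[(6,0),(6,0),(18,0)]⟩,⟨0,[(0,0),(3,0)]⟩⟩,
  [.o ⟨false,1,⟨0,[(13,0)]⟩,⟨4,[(0,1),(13,2),(14,0),(4,0)]⟩⟩,.o ⟨false,2,⟨1,[(13,2),(0,0),(19,0)]⟩,
  ⟨0,[(0,0)]⟩⟩,.o ⟨false,1,⟨3,[(9,0),(3,0),(6,3),(8,0),(3,0)]⟩,⟨0,[(8,0)]⟩⟩,.a ⟨true,0,⟨0,[(20,0)]⟩,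
  ⟨0,[(17,0)]⟩⟩ ⟨false,0,⟨0,[(3,0)]⟩,⟨1,[(6,1),(13,1),(4,0),(6,1),(1,0)]⟩⟩ ⟨true,1,⟨0,[(13,0),(3,
  0)]⟩,⟨0,[(0,0),(19,0)]⟩⟩]⟩) (.Q [0,0,0,0,0,-1,0,0,0,1,0,-1] (.ed true [0,1,0,0,1] .k) (.S ⟨1,0,[],
  [1,0,0,0,-1],[0,-1],(⟨0,[(16,0)]⟩,⟨0,[(17,0)]⟩),⟨0,[(0,0)]⟩,.k,(.r (-1) ⟨0,[(31,0),(3,0)]⟩ ⟨1,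
  [(21,0),(0,0),(10,1),(3,1)]⟩),⟨false,1,⟨3,[(1,1),(13,1),(10,0),(8,0)]⟩,⟨0,[]⟩⟩,⟨true,0,⟨0,[(37,
  0)]⟩,⟨0,[]⟩⟩,⟨true,0,⟨0,[(33,0)]⟩,⟨0,[(32,0)]⟩⟩,⟨false,0,⟨0,[(33,0)]⟩,⟨0,[(32,0),(2,0)]⟩⟩,[.o
  ⟨false,1,⟨0,[(14,0)]⟩,⟨1,[(2,1),(18,0),(0,0)]⟩⟩,.a ⟨true,1,⟨0,[(1,0)]⟩,⟨0,[(2,0),(0,0),(3,0),(13,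
  0),(11,0)]⟩⟩ ⟨true,1,⟨0,[(35,0)]⟩,⟨0,[(3,0),(16,0),(0,0),(11,0)]⟩⟩ ⟨false,1,⟨1,[(34,0),(0,0)]⟩,⟨0,
  [(37,0)]⟩⟩,.o ⟨false,1,⟨0,[(14,0)]⟩,⟨1,[(2,1),(18,0),(0,0)]⟩⟩,.o ⟨false,1,⟨1,[(14,1),(6,0),(0,
  0)]⟩,⟨0,[(2,0)]⟩⟩]⟩) (.R ⟨0,false,false,false,[1,0,0,0,-1],[2,0,-1,0,-1],[1],(⟨0,[(16,0)]⟩,⟨0,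
  [(17,0)]⟩),(⟨0,[(16,0),(6,0)]⟩,⟨0,[(0,0),(12,0)]⟩),⟨0,[(0,0)]⟩,.k,.k,(.r (-1) ⟨0,[(31,0),(3,0)]⟩
  ⟨1,[(21,0),(0,0),(10,1),(3,1)]⟩),.k,.k,.k,⟨true,(-1),⟨0,[(3,0),(29,0)]⟩,⟨1,[(7,1),(13,1),(4,0),(8,
  0)]⟩⟩,⟨false,0,⟨0,[(18,0)]⟩,⟨3,[(10,0),(3,0),(6,3),(8,0),(3,0)]⟩⟩,⟨false,0,⟨0,[]⟩,⟨3,[(1,1),(13,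
  1),(10,0),(8,0)]⟩⟩,⟨true,0,⟨0,[(7,0)]⟩,⟨2,[(3,0),(2,1),(14,0),(7,0),(0,0),(2,0)]⟩⟩,⟨false,0,⟨0,
  []⟩,⟨0,[]⟩⟩,⟨false,0,⟨0,[]⟩,⟨0,[]⟩⟩,[.a ⟨true,1,⟨0,[(1,0),(5,0)]⟩,⟨0,[(2,0),(0,0),(17,0),(11,
  0)]⟩⟩ ⟨true,0,⟨0,[]⟩,⟨1,[(21,0),(0,0)]⟩⟩ ⟨false,1,⟨1,[(7,1),(26,0),(0,0)]⟩,⟨2,[(3,0),(2,1),(14,0),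
  (7,0),(0,0),(2,0)]⟩⟩,.o ⟨false,2,⟨1,[(1,1),(5,1),(18,0),(8,0)]⟩,⟨2,[(2,2),(0,3),(16,0),(0,3),(8,
  0),(0,0),(1,4)]⟩⟩,.o ⟨false,1,⟨0,[(14,0)]⟩,⟨1,[(2,1),(18,0),(0,0)]⟩⟩,.o ⟨false,1,⟨1,[(14,1),(6,0),
  (0,0)]⟩,⟨0,[(2,0)]⟩⟩]⟩)))))

theorem ok5 : chk K t5 l7 = true := by decide +kernel

noncomputable def t6 : Tre :=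
  (.R ⟨1,false,false,true,[0,0,1],[1,0,0,0,-1],[0,0,0,0,0,0,0,1],(⟨0,[(22,0)]⟩,⟨0,[(21,0)]⟩),(⟨0,
  [(14,0)]⟩,⟨0,[(15,0)]⟩),⟨0,[(11,0)]⟩,.k,.k,.k,.k,(.r 0 ⟨0,[(4,0),(2,0),(21,0)]⟩ ⟨1,[(2,1),(9,0),
  (0,0),(19,0)]⟩),.k,⟨true,0,⟨0,[(4,0),(2,0)]⟩,⟨0,[(1,0)]⟩⟩,⟨false,1,⟨0,[(12,0),(3,0)]⟩,⟨1,[(0,1),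
  (18,1),(12,0),(0,0)]⟩⟩,⟨false,1,⟨1,[(12,0),(0,0),(19,0)]⟩,⟨0,[]⟩⟩,⟨true,1,⟨0,[(5,0),(6,0)]⟩,⟨0,
  [(0,0),(3,0)]⟩⟩,⟨true,0,⟨0,[(31,0)]⟩,⟨0,[(30,0)]⟩⟩,⟨true,1,⟨0,[(5,0),(6,0),(18,0)]⟩,⟨0,[(0,0),(2,
  0)]⟩⟩,[.o ⟨false,1,⟨0,[(12,0)]⟩,⟨4,[(0,1),(12,2),(14,0),(4,0)]⟩⟩,.o ⟨false,2,⟨1,[(12,2),(0,0),(19,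
  0)]⟩,⟨0,[(0,0)]⟩⟩,.o ⟨false,1,⟨3,[(8,0),(3,0),(6,3),(8,0),(3,0)]⟩,⟨0,[(7,0)]⟩⟩,.a ⟨true,0,⟨0,[(19,
  0)]⟩,⟨0,[(16,0)]⟩⟩ ⟨false,1,⟨3,[(4,3),(4,0),(6,1),(11,0),(3,0),(0,1)]⟩,⟨0,[(1,0)]⟩⟩ ⟨true,1,⟨0,
  [(12,0),(3,0)]⟩,⟨0,[(0,0),(18,0)]⟩⟩]⟩)

theorem ok6 : chk K t6 l9 = true := by decide +kernel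

noncomputable def t7 : Tre :=
  (.S ⟨1,0,[0,0,0,0,0,0,0,-1],[1,0,-1],[1,1,0,-1,0,0,0,-1],(⟨0,[(24,0)]⟩,⟨0,[(25,0)]⟩),⟨0,[(13,0)]⟩,
  .k,.k,⟨true,0,⟨0,[(33,0)]⟩,⟨0,[(34,0)]⟩⟩,⟨false,1,⟨3,[(3,1),(12,1),(10,0),(8,0)]⟩,⟨0,[]⟩⟩,⟨false,
  0,⟨0,[]⟩,⟨3,[(3,1),(12,1),(10,0),(8,0)]⟩⟩,⟨true,0,⟨0,[(34,0)]⟩,⟨0,[(33,0)]⟩⟩,[.a ⟨true,0,⟨0,[(8,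
  0)]⟩,⟨0,[(7,0)]⟩⟩ ⟨true,0,⟨0,[(4,0),(27,0)]⟩,⟨0,[(0,0)]⟩⟩ ⟨false,1,⟨0,[(1,0),(6,0)]⟩,⟨1,[(0,0),(1,
  0),(16,0)]⟩⟩,.o ⟨false,1,⟨1,[(8,1),(18,0),(8,0)]⟩,⟨0,[(2,0),(31,0)]⟩⟩,.o ⟨false,0,⟨0,[(10,0)]⟩,⟨3,
  [(1,1),(13,0),(0,0),(5,1),(4,0)]⟩⟩,.o ⟨false,0,⟨0,[(23,0)]⟩,⟨0,[(1,0)]⟩⟩]⟩)

theorem ok7 : chk K t7 l12 = true := by decide +kernel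

noncomputable def t8 : Tre :=
  (.I [0,-1,-2,-1,1] (.S ⟨1,0,[0,0,-1,-1],[1,-1],[1,1,-1,-2],(⟨0,[(30,0)]⟩,⟨0,[(31,0)]⟩),⟨0,[(15,0),
  (0,0)]⟩,.k,(.r (-1) ⟨0,[(0,0),(34,0)]⟩ ⟨0,[(1,0),(38,0)]⟩),⟨true,0,⟨0,[(35,0)]⟩,⟨0,[(36,0)]⟩⟩,
  ⟨false,1,⟨3,[(5,1),(12,1),(10,0),(8,0)]⟩,⟨0,[]⟩⟩,⟨false,0,⟨0,[]⟩,⟨3,[(5,1),(12,1),(10,0),(8,0)]⟩⟩,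
  ⟨true,0,⟨0,[(36,0)]⟩,⟨0,[(35,0)]⟩⟩,[.a ⟨true,0,⟨0,[(8,0),(1,0)]⟩,⟨0,[(36,0)]⟩⟩ ⟨true,0,⟨0,[(2,0),
  (5,0),(3,0)]⟩,⟨0,[(1,0)]⟩⟩ ⟨false,1,⟨1,[(0,0),(34,0),(1,0)]⟩,⟨1,[(1,0),(38,0)]⟩⟩,.e ⟨false,1,⟨0,
  [(0,0),(34,0)]⟩,⟨2,[(1,1),(30,0),(3,1)]⟩⟩ ⟨false,1,⟨0,[(0,0)]⟩,⟨1,[(1,0),(38,2)]⟩⟩,.o ⟨false,0,⟨1,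
  [(24,0),(0,0)]⟩,⟨3,[(13,0),(3,0),(15,0),(3,0)]⟩⟩,.o ⟨false,0,⟨0,[(24,0),(0,0)]⟩,⟨2,[(0,1),(32,0),
  (0,1),(1,3)]⟩⟩]⟩) (.Q [0,0,-2,0,1,0,0,0,0,-1] (.pp true [-1,1]) (.S ⟨1,0,[0,0,-1,-1],[1,-1],[1,1,
  -1,-2],(⟨0,[(31,0)]⟩,⟨0,[(32,0)]⟩),⟨0,[(16,0),(0,0)]⟩,.k,(.r (-1) ⟨0,[(35,1),(3,0)]⟩ ⟨0,[(2,0),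
  (38,0)]⟩),⟨true,0,⟨0,[(36,0)]⟩,⟨0,[(37,0)]⟩⟩,⟨false,1,⟨3,[(6,1),(12,1),(10,0),(8,0)]⟩,⟨0,[]⟩⟩,
  ⟨false,0,⟨0,[]⟩,⟨3,[(6,1),(12,1),(10,0),(8,0)]⟩⟩,⟨true,0,⟨0,[(37,0)]⟩,⟨0,[(36,0)]⟩⟩,[.a ⟨true,0,
  ⟨0,[(9,0),(1,0)]⟩,⟨0,[(37,0)]⟩⟩ ⟨true,0,⟨0,[(3,0),(5,0),(3,0)]⟩,⟨0,[(2,0)]⟩⟩ ⟨false,1,⟨1,[(35,1),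
  (2,0),(0,0)]⟩,⟨1,[(2,0),(38,0)]⟩⟩,.o ⟨false,1,⟨0,[(36,0),(2,0)]⟩,⟨0,[(0,0),(0,0)]⟩⟩,.o ⟨false,0,
  ⟨1,[(25,0),(0,0)]⟩,⟨3,[(14,0),(3,0),(15,0),(3,0)]⟩⟩,.o ⟨false,0,⟨0,[(25,0),(0,0)]⟩,⟨0,[(0,
  0)]⟩⟩]⟩) (.K ⟨0,[1,-1,-1],(-1),0,(⟨0,[(16,0)]⟩,⟨0,[(28,0),(3,0)]⟩),.k,(.r (-1) ⟨0,[(3,0),(31,0),
  (3,0)]⟩ ⟨5,[(1,0),(0,4),(7,1),(4,2),(7,3),(10,0),(2,0)]⟩),.k,(.r (-1) ⟨1,[(3,1),(0,0),(2,0),(3,0),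
  (27,0)]⟩ ⟨3,[(1,0),(0,0),(7,7),(2,1),(1,2),(18,0),(2,0)]⟩),.k,[⟨1,[(0,0),(2,3),(6,3),(23,0),(2,3),
  (1,1)]⟩,⟨0,[(0,0),(12,0)]⟩,⟨0,[(5,0),(31,1)]⟩,⟨0,[(11,0),(24,0)]⟩]⟩)))

theorem ok8 : chk K t8 l13 = true := by decide +kernel

noncomputable def t9 : Tre :=
  (.Q [0,0,2,0,0,0,0,0,1,-1,0,1] (.p true [0,0,0,0,1] [1] (⟨0,[(20,0)]⟩,⟨0,[(19,0)]⟩) .k 1 (⟨0,[]⟩,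
  ⟨0,[]⟩) .k .k) (.Q [0,0,1,0,-1,0,0,0,1,0,0,1] (.p true [0,0,0,0,1] [] (⟨0,[(21,0)]⟩,⟨0,[(20,0)]⟩)
  .k 0 (⟨0,[]⟩,⟨0,[]⟩) .k .k) (.Q [0,0,0,0,0,-1,0,0,0,0,0,1] (.ed false [1,-1,0,0,1] .k) (.S ⟨1,0,
  [0,1],[0,0,0,0,1],[0,2],(⟨0,[(23,0)]⟩,⟨0,[(22,0)]⟩),⟨0,[(0,0)]⟩,.k,(.r 0 ⟨0,[(37,0)]⟩ ⟨7,[(2,4),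
  (5,5),(7,0),(22,7),(1,0)]⟩),⟨true,0,⟨0,[(43,0)]⟩,⟨0,[]⟩⟩,⟨false,1,⟨3,[(2,0),(5,1),(7,0),(24,0)]⟩,
  ⟨0,[]⟩⟩,⟨false,0,⟨0,[(39,0)]⟩,⟨0,[(38,0),(2,0)]⟩⟩,⟨true,0,⟨0,[(39,0)]⟩,⟨0,[(38,0)]⟩⟩,[.e ⟨false,0,
  ⟨0,[(35,0)]⟩,⟨0,[(41,0)]⟩⟩ ⟨false,0,⟨2,[(4,0),(30,0),(3,1)]⟩,⟨3,[(2,0),(5,1),(7,0),(24,0)]⟩⟩,.o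
  ⟨false,0,⟨20,[(1,11),(0,0),(13,7),(19,3),(5,1)]⟩,⟨0,[(20,0)]⟩⟩,.o ⟨false,0,⟨20,[(1,11),(0,0),(13,
  7),(19,3),(5,1)]⟩,⟨0,[(20,0)]⟩⟩,.a ⟨true,(-1),⟨0,[(1,0)]⟩,⟨2,[(4,0),(3,2),(26,0),(3,1)]⟩⟩ ⟨false,
  0,⟨2,[(4,0),(30,0),(3,1)]⟩,⟨1,[(27,0),(0,0),(12,1)]⟩⟩ ⟨true,0,⟨2,[(4,0),(30,0),(3,1)]⟩,⟨1,[(27,0),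
  (0,0)]⟩⟩]⟩) (.R ⟨0,false,false,true,[0,1,0,0,-1],[0,0,1,0,-1],[1,-1,1,1],(⟨0,[(0,0)]⟩,⟨0,[(23,0),
  (9,0)]⟩),(⟨0,[(0,0),(18,0)]⟩,⟨0,[(23,0),(5,0)]⟩),⟨0,[(23,0)]⟩,(.r (-1) ⟨7,[(2,4),(5,5),(7,0),(22,
  7),(1,0)]⟩ ⟨0,[(37,0)]⟩),.k,.k,.k,.k,.k,⟨false,1,⟨1,[(10,1),(29,0),(0,0)]⟩,⟨0,[(7,0),(16,0)]⟩⟩,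
  ⟨true,0,⟨0,[(27,0)]⟩,⟨0,[(15,0)]⟩⟩,⟨true,0,⟨0,[]⟩,⟨0,[(43,0)]⟩⟩,⟨false,0,⟨0,[(11,0)]⟩,⟨3,[(10,1),
  (2,1),(3,0),(18,0),(2,1),(0,0),(0,1)]⟩⟩,⟨false,0,⟨0,[]⟩,⟨0,[]⟩⟩,⟨false,0,⟨0,[]⟩,⟨0,[]⟩⟩,[.e
  ⟨false,1,⟨3,[(2,0),(5,1),(7,0),(22,3),(1,0)]⟩,⟨0,[(37,0)]⟩⟩ ⟨false,0,⟨0,[(12,0)]⟩,⟨3,[(8,0),(4,2),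
  (2,0),(9,0),(9,0),(3,0)]⟩⟩,.o ⟨false,2,⟨0,[(8,0),(3,0),(19,0)]⟩,⟨0,[(1,0),(3,0),(9,0),(23,0)]⟩⟩,
  .o ⟨false,2,⟨3,[(16,0),(3,4),(15,0),(3,0)]⟩,⟨0,[(1,0)]⟩⟩,.a ⟨true,1,⟨0,[(20,0)]⟩,⟨0,[(1,1),(2,0),
  (3,0),(30,1)]⟩⟩ ⟨false,1,⟨0,[(39,0),(1,0)]⟩,⟨0,[(38,0)]⟩⟩ ⟨true,0,⟨0,[(12,0)]⟩,⟨0,[(26,0)]⟩⟩]⟩))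
  (.Q [0,0,2,0,0,0,1,0,1,-1,1,1] (.p true [0,0,1] [1,0,0,0,-1] (⟨0,[(29,0)]⟩,⟨0,[(28,0)]⟩) .k 2 (⟨0,
  [(21,0)]⟩,⟨0,[(22,0)]⟩) .k (.r 0 ⟨1,[(6,0),(9,0),(7,0),(13,0)]⟩ ⟨1,[(5,0),(2,0),(3,0),(27,0)]⟩))
  (.Q [0,0,-1,0,0,0,0,0,-1,1,0,-1] (.p false [0,0,0,0,1] [1] (⟨0,[(23,0)]⟩,⟨0,[(22,0)]⟩) .k 1 (⟨0,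
  []⟩,⟨0,[]⟩) .k .k) (.Q [0,0,0,0,0,-2,0,0,0,0,0,1] (.p true [0,0,0,0,1] [] (⟨0,[(24,0)]⟩,⟨0,[(23,
  0)]⟩) .k 0 (⟨0,[]⟩,⟨0,[]⟩) .k .k) (.S ⟨1,0,[0,1,-1,-1],[0,-1,0,0,1],[1,2,-1,-2],(⟨1,[(0,0),(24,
  0)]⟩,⟨1,[(5,0),(18,1),(6,0)]⟩),⟨0,[(0,0)]⟩,(.r 0 ⟨0,[(39,0)]⟩ ⟨7,[(4,4),(5,5),(7,0),(22,7),(1,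
  0)]⟩),(.x 0 ⟨0,[(4,0),(0,0),(18,0),(6,0)]⟩ ⟨4,[(0,4),(0,3),(1,1),(14,0),(19,0),(3,0)]⟩),⟨true,0,
  ⟨0,[(40,0)]⟩,⟨0,[(41,0)]⟩⟩,⟨false,1,⟨3,[(4,0),(5,1),(7,0),(24,0)]⟩,⟨0,[]⟩⟩,⟨false,0,⟨0,[]⟩,⟨3,[(4,
  0),(5,1),(7,0),(24,0)]⟩⟩,⟨true,0,⟨0,[(41,0)]⟩,⟨0,[(40,0)]⟩⟩,[.o ⟨false,0,⟨0,[(4,0),(1,0),(34,0)]⟩,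
  ⟨2,[(1,1),(8,0),(18,0),(0,0),(7,0),(2,2),(1,0)]⟩⟩,.e ⟨false,0,⟨0,[(6,0)]⟩,⟨7,[(4,4),(5,5),(7,0),
  (22,15),(1,0)]⟩⟩ ⟨false,1,⟨1,[(6,0),(3,0),(7,0)]⟩,⟨1,[(29,0),(0,0),(10,1)]⟩⟩,.a ⟨true,0,⟨2,[(2,0),
  (16,0),(3,1),(5,0)]⟩,⟨0,[(1,0)]⟩⟩ ⟨false,0,⟨3,[(6,2),(4,0),(1,0),(16,0),(9,0)]⟩,⟨1,[(29,0),(0,0),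
  (10,3),(1,1)]⟩⟩ ⟨true,0,⟨0,[(39,0)]⟩,⟨1,[(29,0),(0,0),(10,1)]⟩⟩,.o ⟨false,0,⟨0,[(4,0)]⟩,⟨4,[(1,3),
  (1,1),(14,0),(19,0),(3,0)]⟩⟩]⟩) (.Q [0,0,0,0,0,1,0,0,0,0,0,-1] (.ed true [1,-1,0,0,1] .k) (.R ⟨0,
  false,false,true,[0,1,0,0,-1],[1,0,0,0,-1],[0,0,1],(⟨0,[(0,0)]⟩,⟨0,[(26,0),(9,0)]⟩),(⟨0,[(25,0)]⟩,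
  ⟨0,[(26,0)]⟩),⟨0,[(26,0)]⟩,(.r (-1) ⟨7,[(5,4),(5,5),(7,0),(22,7),(1,0)]⟩ ⟨0,[(40,0)]⟩),.k,.k,.k,
  .k,.k,⟨true,0,⟨1,[(30,0),(0,0)]⟩,⟨0,[]⟩⟩,⟨false,0,⟨1,[(1,0),(24,0),(9,1)]⟩,⟨2,[(4,0),(14,0),(15,
  0)]⟩⟩,⟨true,0,⟨0,[(41,0)]⟩,⟨0,[(42,0)]⟩⟩,⟨false,0,⟨0,[(14,0),(1,0)]⟩,⟨1,[(35,0),(6,1),(1,0)]⟩⟩,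
  ⟨false,0,⟨0,[]⟩,⟨0,[]⟩⟩,⟨false,0,⟨0,[]⟩,⟨0,[]⟩⟩,[.a ⟨true,0,⟨1,[(2,1),(27,0),(0,0)]⟩,⟨0,[(24,
  0)]⟩⟩ ⟨true,0,⟨1,[(30,0),(0,0)]⟩,⟨0,[]⟩⟩ ⟨false,0,⟨1,[(1,0),(24,0),(9,1)]⟩,⟨2,[(4,0),(14,0),(15,
  0)]⟩⟩,.o ⟨false,1,⟨2,[(2,1),(8,0),(18,0),(0,0),(7,0),(4,0)]⟩,⟨0,[(5,0),(1,0),(34,1)]⟩⟩,.o ⟨false,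
  1,⟨8,[(2,5),(1,2),(34,4),(4,0),(1,1)]⟩,⟨2,[(3,0),(16,0),(3,1),(5,0)]⟩⟩,.o ⟨false,1,⟨7,[(2,3),(20,
  3),(6,0),(0,0),(7,3),(5,1)]⟩,⟨0,[(24,0)]⟩⟩]⟩) (.Q [0,0,1,0,0,0,1,1,1,-1,1,1] (.p true [0,0,1] [1,
  0,0,0,-1] (⟨0,[(33,0)]⟩,⟨0,[(32,0)]⟩) .k 2 (⟨0,[(25,0)]⟩,⟨0,[(26,0)]⟩) .k (.r 0 ⟨1,[(10,0),(9,0),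
  (7,0),(13,0)]⟩ ⟨1,[(9,0),(2,0),(3,0),(27,0)]⟩)) (.R ⟨0,false,false,true,[0,-1,0,0,1],[1,0,-1],[1,
  2,-1,-1],(⟨0,[(1,0)]⟩,⟨0,[(2,0),(34,0)]⟩),(⟨0,[(33,0)]⟩,⟨0,[(34,0)]⟩),⟨0,[(2,0)]⟩,(.r 0 ⟨0,[(41,
  0)]⟩ ⟨7,[(6,4),(5,5),(7,0),(22,7),(1,0)]⟩),.k,(.x 0 ⟨2,[(2,2),(1,1),(16,1),(3,0),(5,1)]⟩ ⟨1,[(1,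
  1),(1,1),(18,0),(0,0),(16,0),(3,0)]⟩),(.r 0 ⟨0,[(11,0),(16,0)]⟩ ⟨3,[(6,0),(5,1),(1,3),(5,0),(24,
  0)]⟩),.k,.k,⟨false,0,⟨0,[(8,0),(7,0),(2,0),(23,0)]⟩,⟨3,[(6,0),(5,1),(1,3),(5,0),(24,0)]⟩⟩,⟨true,0,
  ⟨0,[(3,0),(15,0)]⟩,⟨0,[(4,0)]⟩⟩,⟨false,0,⟨0,[]⟩,⟨3,[(6,0),(5,1),(7,0),(24,0)]⟩⟩,⟨true,0,⟨0,[(3,0),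
  (10,0),(4,0)]⟩,⟨4,[(0,4),(7,1),(30,0),(2,0)]⟩⟩,⟨false,0,⟨0,[]⟩,⟨0,[]⟩⟩,⟨false,0,⟨0,[]⟩,⟨0,[]⟩⟩,
  [.o ⟨false,0,⟨0,[(30,0)]⟩,⟨14,[(0,1),(11,2),(3,12),(3,0),(19,4),(4,5)]⟩⟩,.e ⟨false,0,⟨0,[(8,0),
  (34,0)]⟩,⟨7,[(6,4),(5,5),(7,0),(22,7),(1,0)]⟩⟩ ⟨false,1,⟨4,[(3,3),(1,1),(11,4),(2,0),(19,0),(3,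
  0)]⟩,⟨0,[(0,0)]⟩⟩,.a ⟨true,0,⟨2,[(4,0),(16,0),(3,1),(5,0)]⟩,⟨0,[(3,0)]⟩⟩ ⟨false,0,⟨4,[(8,1),(30,
  0),(2,0)]⟩,⟨1,[(31,0),(0,0),(10,1),(1,1)]⟩⟩ ⟨true,0,⟨0,[(3,0),(26,0)]⟩,⟨0,[(0,0)]⟩⟩,.o ⟨false,0,
  ⟨0,[(6,0)]⟩,⟨4,[(3,3),(1,1),(14,0),(19,0),(3,0)]⟩⟩]⟩) (.R ⟨0,false,false,true,[0,-1,0,0,1],[1,0,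
  -1],[1,2,-1,-1],(⟨0,[(1,0)]⟩,⟨0,[(2,0),(34,0)]⟩),(⟨0,[(33,0)]⟩,⟨0,[(34,0)]⟩),⟨0,[(2,0)]⟩,(.r 0 ⟨0,
  [(41,0)]⟩ ⟨7,[(6,4),(5,5),(7,0),(22,7),(1,0)]⟩),.k,(.x 0 ⟨2,[(2,2),(1,1),(16,1),(3,0),(5,1)]⟩ ⟨1,
  [(1,1),(1,1),(18,0),(0,0),(16,0),(3,0)]⟩),(.r 0 ⟨0,[(11,0),(16,0)]⟩ ⟨3,[(6,0),(5,1),(1,3),(5,0),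
  (24,0)]⟩),.k,.k,⟨false,0,⟨0,[(8,0),(7,0),(2,0),(23,0)]⟩,⟨3,[(6,0),(5,1),(1,3),(5,0),(24,0)]⟩⟩,
  ⟨true,0,⟨0,[(3,0),(15,0)]⟩,⟨0,[(4,0)]⟩⟩,⟨false,0,⟨0,[]⟩,⟨3,[(6,0),(5,1),(7,0),(24,0)]⟩⟩,⟨true,0,
  ⟨1,[(0,0),(2,0),(10,0),(17,0),(10,0)]⟩,⟨0,[(11,0),(13,0)]⟩⟩,⟨false,0,⟨0,[]⟩,⟨0,[]⟩⟩,⟨false,0,⟨0,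
  []⟩,⟨0,[]⟩⟩,[.o ⟨false,0,⟨0,[(30,0)]⟩,⟨2,[(16,1),(12,0),(10,0),(4,1)]⟩⟩,.a ⟨true,0,⟨0,[(17,0)]⟩,
  ⟨0,[(16,0)]⟩⟩ ⟨false,0,⟨0,[(8,0),(34,0)]⟩,⟨7,[(6,4),(5,5),(7,0),(22,7),(1,0)]⟩⟩ ⟨true,0,⟨0,[(0,
  0)]⟩,⟨0,[(6,0),(9,0)]⟩⟩,.e ⟨false,0,⟨4,[(8,1),(30,0),(2,0)]⟩,⟨1,[(31,0),(0,0),(10,1),(1,1)]⟩⟩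
  ⟨false,0,⟨0,[(0,0)]⟩,⟨3,[(6,2),(9,1),(3,0),(8,1),(15,2)]⟩⟩,.o ⟨false,0,⟨0,[(6,0)]⟩,⟨4,[(3,3),(1,
  1),(14,0),(19,0),(3,0)]⟩⟩]⟩)))) (.Q [0,0,0,-1,0,0,-1,-1,0,1,-1] (.p false [0,0,1] [1] (⟨0,[(31,
  0)]⟩,⟨0,[(30,0)]⟩) .k 1 (⟨0,[]⟩,⟨0,[]⟩) .k .k) (.I [1,-1,-1,0,1,0,0,-2] (.Q [0,0,0,0,0,0,-2,-2,0,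
  1,-2] (.p false [0,0,1] [1,0,-1] (⟨0,[(33,0)]⟩,⟨0,[(32,0)]⟩) .k 2 (⟨0,[(32,0)]⟩,⟨0,[(33,0)]⟩) .k
  (.r 0 ⟨0,[(15,1),(2,1)]⟩ ⟨2,[(0,1),(2,0),(7,0),(0,0),(16,0),(8,0)]⟩)) (.R ⟨0,false,false,true,[1,
  -1,-1],[0,-1,1],[0,1,0,-1,0,0,0,1],(⟨0,[(22,0)]⟩,⟨0,[(7,0),(29,0)]⟩),(⟨0,[(23,0)]⟩,⟨1,[(7,0),(25,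
  2)]⟩),⟨0,[(7,0)]⟩,.k,.k,(.r (-1) ⟨2,[(1,0),(0,0),(5,1),(1,0),(31,0),(2,0)]⟩ ⟨1,[(16,1),(14,0),(0,
  2),(10,3)]⟩),.k,.k,.k,⟨true,0,⟨1,[(31,0),(0,0)]⟩,⟨0,[]⟩⟩,⟨false,1,⟨3,[(1,1),(7,1),(0,0),(5,5),(14,
  0),(8,0),(2,1)]⟩,⟨0,[(21,0)]⟩⟩,⟨false,0,⟨0,[(16,1),(2,0),(12,0)]⟩,⟨0,[(1,0)]⟩⟩,⟨true,0,⟨0,[(11,0),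
  (4,0),(26,0)]⟩,⟨0,[(0,0)]⟩⟩,⟨false,0,⟨0,[]⟩,⟨0,[]⟩⟩,⟨false,0,⟨0,[]⟩,⟨0,[]⟩⟩,[.o ⟨false,0,⟨0,[(11,
  0)]⟩,⟨17,[(0,4),(11,3),(1,7),(5,3),(0,3),(18,2),(2,9),(1,6)]⟩⟩,.a ⟨true,0,⟨0,[(15,0)]⟩,⟨0,[(17,0),
  (25,0)]⟩⟩ ⟨true,0,⟨0,[(15,0),(3,0)]⟩,⟨0,[(14,0)]⟩⟩ ⟨false,1,⟨6,[(1,2),(6,4),(1,0),(5,12),(23,1),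
  (2,2),(1,0)]⟩,⟨0,[(14,0),(6,0)]⟩⟩,.o ⟨false,0,⟨0,[(32,0)]⟩,⟨0,[(10,0)]⟩⟩,.o ⟨false,0,⟨1,[(31,0),
  (0,2)]⟩,⟨6,[(1,2),(6,4),(1,0),(5,5),(23,1),(2,9),(1,0)]⟩⟩]⟩) (.Q [0,0,0,0,0,2,0,0,0,0,-1] (.p
  false [0,0,1] [] (⟨0,[(34,0)]⟩,⟨0,[(33,0)]⟩) .k 0 (⟨0,[]⟩,⟨0,[]⟩) .k .k) (.I [0,0,-1,-1,0,0,0,2]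
  (.Q [0,0,0,1,0,0,-2,-2,0,1,-2] (.p false [0,0,1] [1,0,-1] (⟨0,[(36,0)]⟩,⟨0,[(35,0)]⟩) .k 2 (⟨0,
  [(35,0)]⟩,⟨0,[(36,0)]⟩) .k (.r 0 ⟨0,[(2,0),(20,0)]⟩ ⟨2,[(3,1),(2,0),(7,0),(0,0),(16,0),(8,0)]⟩))
  (.R ⟨1,false,false,true,[0,0,1],[1,0,-1],[0,1],(⟨0,[(37,0)]⟩,⟨0,[(36,0)]⟩),(⟨0,[(36,0)]⟩,⟨0,[(37,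
  0)]⟩),⟨0,[(26,0)]⟩,.k,.k,.k,.k,(.r 0 ⟨0,[(1,0)]⟩ ⟨8,[(0,2),(3,2),(2,4),(5,0),(1,2),(1,5),(9,1),
  (14,2)]⟩),.k,⟨true,0,⟨1,[(3,0),(20,0)]⟩,⟨0,[(16,0)]⟩⟩,⟨false,0,⟨0,[(0,0),(0,0)]⟩,⟨0,[(13,0),(20,
  0)]⟩⟩,⟨true,0,⟨2,[(12,0),(3,0),(0,0),(24,0)]⟩,⟨1,[(3,0),(20,0)]⟩⟩,⟨true,0,⟨0,[(0,0),(44,0)]⟩,⟨0,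
  [(3,0)]⟩⟩,⟨true,0,⟨2,[(12,0),(4,1),(24,0),(3,1)]⟩,⟨0,[(1,0),(14,0)]⟩⟩,⟨false,0,⟨0,[(0,0)]⟩,⟨5,[(3,
  2),(14,1),(2,3),(21,0),(4,4)]⟩⟩,[.o ⟨false,0,⟨0,[(33,0)]⟩,⟨7,[(3,3),(5,0),(5,1),(7,0),(15,1),(8,
  2)]⟩⟩,.a ⟨true,0,⟨0,[(20,0)]⟩,⟨0,[(19,0)]⟩⟩ ⟨false,1,⟨10,[(9,0),(5,5),(7,4),(18,2)]⟩,⟨0,[]⟩⟩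
  ⟨true,0,⟨2,[(0,0),(4,0),(16,0),(1,0)]⟩,⟨0,[(3,0),(12,0)]⟩⟩,.o ⟨false,1,⟨2,[(7,0),(5,1),(13,0)]⟩,
  ⟨0,[(22,0)]⟩⟩,.e ⟨true,0,⟨2,[(11,0),(30,0),(3,1)]⟩,⟨1,[(34,0),(0,0)]⟩⟩ ⟨true,0,⟨7,[(0,4),(0,0),(9,
  1),(12,2),(17,2)]⟩,⟨0,[(3,0),(12,0)]⟩⟩]⟩) (.I [0,0,0,0,0,-1,-1] (.I [0,0,1,0,0,0,0,0,1] (.I [0,0,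
  -1,0,1,0,0,0,-1] (.I [0,0,0,-2,0,0,0,1] (.I [0,0,-1,0,0,2,-1] (.I [0,0,0,-1,0,2,-1,-1] (.C [(0,0),
  (5,0),(1,0),(2,0),(32,3),(7,2)]) (.C [(0,0),(10,0),(4,0)])) (.C [(0,0),(14,0),(20,0)])) (.C [(0,
  0),(3,0),(4,0),(16,0)])) (.C [(0,0),(10,0),(21,0)])) (.C [(0,0),(7,0),(22,0)])) (.C [(0,0),(22,0),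
  (3,0)]))) (.R ⟨1,false,false,false,[1,-1],[0,0,1],[0,0,1],(⟨0,[(39,0)]⟩,⟨0,[(40,0)]⟩),(⟨0,[(36,
  0)]⟩,⟨0,[(35,0)]⟩),⟨0,[(24,0),(0,0)]⟩,.k,.k,(.r (-1) ⟨3,[(10,2),(3,0),(7,0),(21,1),(2,1)]⟩ ⟨0,
  [(33,0),(0,0),(10,1)]⟩),.k,(.r (-1) ⟨2,[(3,0),(0,0),(5,1),(1,0),(31,0),(2,0)]⟩ ⟨1,[(18,1),(14,0),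
  (0,2),(10,3)]⟩),.k,⟨true,0,⟨0,[(0,0),(1,0),(1,0),(16,0)]⟩,⟨1,[(2,0),(20,0)]⟩⟩,⟨false,1,⟨6,[(2,2),
  (0,2),(6,2),(1,0),(29,0),(2,5),(0,1)]⟩,⟨0,[(23,0),(9,0)]⟩⟩,⟨true,0,⟨0,[(33,0),(0,0),(10,0)]⟩,⟨0,
  [(10,0),(34,0)]⟩⟩,⟨false,1,⟨7,[(2,3),(5,0),(5,1),(7,0),(15,1),(6,7),(1,2)]⟩,⟨0,[(4,0)]⟩⟩,⟨true,0,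
  ⟨0,[(33,0),(0,0),(10,1)]⟩,⟨0,[(10,0)]⟩⟩,⟨true,0,⟨1,[(1,0),(0,0),(6,0),(27,3),(7,3)]⟩,⟨0,[(4,0),
  (39,0)]⟩⟩,[.a ⟨true,0,⟨0,[(18,0)]⟩,⟨0,[(19,0)]⟩⟩ ⟨true,0,⟨1,[(33,0),(0,0)]⟩,⟨0,[]⟩⟩ ⟨false,1,⟨13,
  [(2,8),(0,1),(6,1),(19,3),(11,2),(2,3),(0,8)]⟩,⟨1,[(19,1),(13,0),(0,0)]⟩⟩,.o ⟨false,1,⟨7,[(2,3),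
  (5,0),(5,1),(7,0),(15,1),(8,2)]⟩,⟨0,[(32,0)]⟩⟩,.o ⟨false,0,⟨1,[(33,0),(0,0)]⟩,⟨2,[(7,0),(14,0),
  (15,0)]⟩⟩,.o ⟨false,0,⟨0,[(33,0),(0,0)]⟩,⟨6,[(2,1),(0,1),(6,1),(19,3),(11,2),(2,3),(0,1)]⟩⟩]⟩))
  (.S ⟨1,0,[0,1,-1,-1,0,0,0,1],[0,-1,1],[1,0,-1,-2,0,0,0,1],(⟨0,[(24,0)]⟩,⟨1,[(8,0),(25,2)]⟩),⟨0,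
  [(0,0)]⟩,.k,(.r (-1) ⟨7,[(1,0),(7,4),(3,2),(2,5),(4,2),(0,3),(18,0),(4,0)]⟩ ⟨1,[(15,1),(16,0),(0,
  0),(10,1)]⟩),⟨false,1,⟨0,[(43,0),(2,0)]⟩,⟨0,[(44,0)]⟩⟩,⟨true,0,⟨0,[(48,0)]⟩,⟨0,[]⟩⟩,⟨true,0,⟨0,
  []⟩,⟨0,[(48,0)]⟩⟩,⟨false,0,⟨0,[(44,0)]⟩,⟨0,[(43,0),(2,0)]⟩⟩,[.o ⟨false,0,⟨0,[(12,0)]⟩,⟨41,[(2,9),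
  (10,5),(1,21),(5,5),(0,20),(18,6),(2,19),(1,12)]⟩⟩,.e ⟨false,1,⟨1,[(1,0),(7,1),(12,0),(23,1)]⟩,⟨4,
  [(15,5),(14,0),(2,0),(6,1),(3,3)]⟩⟩ ⟨false,1,⟨1,[(1,0),(7,0),(3,0),(7,0),(0,0)]⟩,⟨0,[(15,0)]⟩⟩,.a
  ⟨true,0,⟨0,[(32,0)]⟩,⟨0,[(29,0)]⟩⟩ ⟨false,1,⟨5,[(9,2),(6,4),(2,0),(2,2),(18,0),(4,4)]⟩,⟨0,[(15,0),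
  (28,0)]⟩⟩ ⟨true,0,⟨9,[(1,3),(7,3),(2,0),(6,0),(2,4),(17,1)]⟩,⟨0,[(15,0)]⟩⟩,.o ⟨false,0,⟨0,[(1,0),
  (12,1),(5,0)]⟩,⟨5,[(6,1),(14,1),(0,0),(6,3),(11,0),(3,0)]⟩⟩]⟩))) (.Q [0,0,2,0,0,0,1,0,0,-1,1] (.p
  true [0,0,1] [1] (⟨0,[(33,0)]⟩,⟨0,[(32,0)]⟩) .k 1 (⟨0,[]⟩,⟨0,[]⟩) .k .k) (.Q [0,0,0,0,0,-2,0,0,0,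
  0,1] (.p true [0,0,1] [] (⟨0,[(34,0)]⟩,⟨0,[(33,0)]⟩) .k 0 (⟨0,[]⟩,⟨0,[]⟩) .k .k) (.S ⟨1,0,[0,1,-1,
  -1,0,0,0,1],[0,-1,1],[1,0,-1,-2,0,0,0,1],(⟨0,[(24,0)]⟩,⟨1,[(8,0),(25,2)]⟩),⟨0,[(0,0)]⟩,.k,(.r
  (-1) ⟨25,[(2,3),(6,16),(3,10),(2,17),(4,10),(0,8),(18,2),(4,4)]⟩ ⟨4,[(2,0),(4,0),(5,0),(1,6),(28,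
  2)]⟩),⟨false,1,⟨0,[(43,0),(2,0)]⟩,⟨0,[(44,0)]⟩⟩,⟨true,0,⟨0,[(48,0)]⟩,⟨0,[]⟩⟩,⟨true,0,⟨0,[]⟩,⟨0,
  [(48,0)]⟩⟩,⟨false,0,⟨0,[(44,0)]⟩,⟨0,[(43,0),(2,0)]⟩⟩,[.o ⟨false,0,⟨0,[(12,0)]⟩,⟨13,[(6,1),(8,5),
  (2,7),(2,1),(0,2),(18,2),(2,7),(1,6)]⟩⟩,.e ⟨false,1,⟨3,[(2,1),(6,3),(35,0),(0,4)]⟩,⟨16,[(2,0),(4,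
  0),(7,20),(6,0),(2,0),(4,1),(9,6),(3,12)]⟩⟩ ⟨false,1,⟨3,[(2,1),(6,1),(3,1),(7,1),(23,0),(0,0)]⟩,
  ⟨0,[(15,0)]⟩⟩,.a ⟨true,0,⟨0,[(32,0)]⟩,⟨0,[(29,0)]⟩⟩ ⟨false,1,⟨5,[(9,2),(6,4),(2,0),(2,2),(18,0),
  (4,4)]⟩,⟨0,[(15,0),(28,0)]⟩⟩ ⟨true,0,⟨7,[(2,2),(3,0),(2,2),(9,1),(1,0),(0,0),(22,0)]⟩,⟨0,[(15,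
  0)]⟩⟩,.o ⟨false,0,⟨0,[(1,0)]⟩,⟨5,[(6,1),(14,1),(0,0),(6,3),(11,0),(3,0)]⟩⟩]⟩) (.Q [0,0,0,2,0,0,1,
  1,0,-1,1] (.p true [0,0,1] [1] (⟨0,[(35,0)]⟩,⟨0,[(34,0)]⟩) .k 1 (⟨0,[]⟩,⟨0,[]⟩) .k .k) (.R ⟨1,
  true,false,false,[1,0,-1],[0,1],[0,1,0,0,0,0,0,-1],(⟨0,[(35,0)]⟩,⟨0,[(36,0)]⟩),(⟨0,[(40,0)]⟩,⟨0,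
  [(39,0)]⟩),⟨0,[(24,0)]⟩,.k,.k,.k,.k,(.r (-1) ⟨1,[(4,0),(5,0),(0,0),(0,0),(34,0)]⟩ ⟨22,[(0,14),(2,
  11),(2,8),(7,11),(1,15),(6,11),(3,2)]⟩),.k,⟨true,0,⟨0,[(10,0),(5,0)]⟩,⟨0,[(3,0),(12,0),(30,0)]⟩⟩,
  ⟨false,1,⟨5,[(0,3),(9,1),(0,3),(0,1),(33,0),(0,2)]⟩,⟨2,[(3,0),(2,0),(7,0),(4,1),(3,0)]⟩⟩,⟨true,0,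
  ⟨0,[(49,0)]⟩,⟨0,[]⟩⟩,⟨false,1,⟨3,[(0,1),(30,1),(6,0),(8,2)]⟩,⟨0,[(4,0)]⟩⟩,⟨false,0,⟨0,[(45,0)]⟩,
  ⟨0,[(44,0),(2,0)]⟩⟩,⟨true,0,⟨0,[(0,0)]⟩,⟨0,[(4,0),(39,0)]⟩⟩,[]⟩) (.I [0,0,1,0,0,0,0,0,1] (.I [0,0,
  -1,0,0,2,-1] (.I [0,0,0,-1,0,2,1,1] (.C [(0,0),(2,0),(8,0),(27,3),(7,2)]) (.C [(0,0),(3,0),(15,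
  0)])) (.C [(0,0),(10,0),(20,0)])) (.C [(0,0),(5,0),(22,0)])))) (.Q [0,0,-2,0,1,0,1,0,0,-1,1] (.p
  true [0,0,1] [1] (⟨0,[(34,0)]⟩,⟨0,[(33,0)]⟩) .k 1 (⟨0,[]⟩,⟨0,[]⟩) .k .k) (.R ⟨0,false,false,true,
  [1,-1,-1],[0,-1,1],[1,1],(⟨0,[(23,0)]⟩,⟨0,[(8,0),(29,0)]⟩),(⟨0,[(24,0)]⟩,⟨1,[(8,0),(25,2)]⟩),⟨0,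
  [(8,0)]⟩,.k,.k,(.r (-1) ⟨1,[(3,0),(5,0),(0,0),(0,0),(34,0)]⟩ ⟨4,[(2,2),(4,2),(5,2),(1,0),(28,
  8)]⟩),.k,.k,.k,⟨true,0,⟨0,[(15,0)]⟩,⟨2,[(2,0),(6,0),(6,0),(16,0),(12,0)]⟩⟩,⟨false,1,⟨0,[(0,0),(31,
  0)]⟩,⟨0,[(22,0)]⟩⟩,⟨false,0,⟨15,[(2,7),(4,4),(5,5),(7,0),(22,15),(1,0)]⟩,⟨0,[(10,0),(35,0)]⟩⟩,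
  ⟨true,0,⟨0,[(12,0),(4,0),(26,0)]⟩,⟨0,[(1,0),(12,1),(5,0)]⟩⟩,⟨false,0,⟨0,[]⟩,⟨0,[]⟩⟩,⟨false,0,⟨0,
  []⟩,⟨0,[]⟩⟩,[.o ⟨false,0,⟨0,[(12,0)]⟩,⟨33,[(1,7),(4,5),(8,33),(5,5),(0,12),(18,4),(4,16)]⟩⟩,.a
  ⟨true,0,⟨0,[(16,0)]⟩,⟨0,[(18,0),(25,0)]⟩⟩ ⟨true,0,⟨0,[]⟩,⟨1,[(32,0),(0,0)]⟩⟩ ⟨false,1,⟨0,[(0,0),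
  (15,0)]⟩,⟨0,[(15,0),(6,0)]⟩⟩,.o ⟨false,0,⟨0,[(33,0)]⟩,⟨0,[(11,0)]⟩⟩,.o ⟨false,0,⟨1,[(32,0),(0,
  2)]⟩,⟨0,[(0,0)]⟩⟩]⟩) (.Q [0,0,-1,0,1,0,2,0,0,-1,2] (.p true [0,0,1] [1,0,-1] (⟨0,[(35,0)]⟩,⟨0,
  [(34,0)]⟩) .k 2 (⟨0,[(34,0)]⟩,⟨0,[(35,0)]⟩) .k (.r 0 ⟨1,[(2,1),(42,0),(0,0)]⟩ ⟨0,[(11,0),(2,0),(3,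
  0)]⟩)) (.K ⟨0,[1,-1,-1],(-1),0,(⟨0,[(24,0)]⟩,⟨0,[(9,0),(29,0)]⟩),.k,(.r (-1) ⟨31,[(0,8),(3,17),(2,
  2),(2,15),(0,13),(10,2),(19,1),(4,14)]⟩ ⟨4,[(3,2),(4,2),(5,2),(1,0),(28,8)]⟩),.k,(.r (-1) ⟨6,[(0,
  2),(3,0),(6,5),(3,1),(3,4),(22,0),(4,2)]⟩ ⟨3,[(3,3),(4,0),(5,1),(7,0),(22,3),(1,0)]⟩),.k,[⟨0,[(0,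
  0)]⟩,⟨0,[(1,0)]⟩,⟨17,[(0,8),(2,11),(7,3),(4,1),(24,0),(0,2),(2,19)]⟩,⟨0,[(4,0),(44,0)]⟩]⟩) (.R ⟨0,
  false,false,true,[1,-1,-1],[0,-1,1],[1,0,1],(⟨0,[(24,0)]⟩,⟨0,[(9,0),(29,0)]⟩),(⟨0,[(25,0)]⟩,⟨1,
  [(9,0),(25,2)]⟩),⟨0,[(9,0)]⟩,.k,.k,(.r (-1) ⟨1,[(4,0),(5,0),(0,0),(0,0),(34,0)]⟩ ⟨4,[(3,2),(4,2),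
  (5,2),(1,0),(28,8)]⟩),.k,.k,.k,⟨false,1,⟨3,[(8,0),(5,1),(1,3),(5,0),(24,0)]⟩,⟨1,[(2,0),(0,0),(6,
  0),(1,0)]⟩⟩,⟨true,1,⟨0,[(12,0),(20,0)]⟩,⟨0,[(0,0)]⟩⟩,⟨false,0,⟨0,[(3,0),(12,0),(30,0)]⟩,⟨1,[(11,
  1),(34,0),(0,0)]⟩⟩,⟨true,0,⟨0,[(13,0),(4,0),(26,0)]⟩,⟨12,[(0,3),(1,7),(8,1),(3,11),(0,1),(2,9),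
  (22,2),(4,0)]⟩⟩,⟨false,0,⟨0,[]⟩,⟨0,[]⟩⟩,⟨false,0,⟨0,[]⟩,⟨0,[]⟩⟩,[.o ⟨false,0,⟨0,[(13,0)]⟩,⟨33,[(2,
  7),(4,5),(8,33),(5,5),(0,12),(18,4),(4,16)]⟩⟩,.a ⟨true,0,⟨0,[(17,0)]⟩,⟨0,[(19,0),(25,0)]⟩⟩ ⟨false,
  1,⟨3,[(8,0),(5,1),(7,0),(24,0)]⟩,⟨2,[(10,0),(30,0),(3,1)]⟩⟩ ⟨true,1,⟨0,[(12,0),(4,0)]⟩,⟨0,[(0,0),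
  (15,0)]⟩⟩,.o ⟨false,0,⟨0,[(34,0)]⟩,⟨0,[(12,0)]⟩⟩,.e ⟨true,0,⟨0,[]⟩,⟨0,[(49,0)]⟩⟩ ⟨true,1,⟨1,[(10,
  0),(1,1),(5,0),(12,0)]⟩,⟨0,[(0,0),(15,0)]⟩⟩]⟩))))) (.R ⟨1,false,false,true,[0,0,1],[1,-1],[1,1,-1,
  -1],(⟨0,[(32,0)]⟩,⟨0,[(31,0)]⟩),(⟨0,[(35,0)]⟩,⟨0,[(36,0)]⟩),⟨0,[(21,0)]⟩,.k,.k,.k,.k,.k,.k,⟨true,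
  0,⟨0,[]⟩,⟨1,[(29,0),(0,0)]⟩⟩,⟨false,0,⟨3,[(5,0),(13,1),(11,0),(3,1)]⟩,⟨0,[(8,0)]⟩⟩,⟨true,0,⟨0,[(7,
  0)]⟩,⟨0,[(14,0),(15,0),(10,0)]⟩⟩,⟨true,0,⟨0,[(15,0),(24,0)]⟩,⟨0,[(0,0)]⟩⟩,⟨true,0,⟨0,[(7,0),(33,
  0)]⟩,⟨0,[(14,0),(15,0)]⟩⟩,⟨false,0,⟨0,[(15,0)]⟩,⟨3,[(0,1),(15,1),(17,0),(8,2)]⟩⟩,[.o ⟨false,0,⟨0,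
  [(40,0)]⟩,⟨1,[(34,0),(6,1),(1,0)]⟩⟩,.a ⟨true,0,⟨0,[(13,0),(1,0)]⟩,⟨0,[(41,0)]⟩⟩ ⟨false,1,⟨1,[(6,
  0),(3,0),(7,0)]⟩,⟨1,[(29,0),(0,0),(10,1)]⟩⟩ ⟨true,0,⟨0,[(13,0),(1,0),(1,0)]⟩,⟨0,[(0,0),(10,0)]⟩⟩,
  .o ⟨false,1,⟨2,[(2,0),(5,1),(13,0)]⟩,⟨0,[(17,0)]⟩⟩,.e ⟨true,0,⟨1,[(0,0),(5,0),(0,0),(18,0)]⟩,⟨0,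
  [(29,0),(0,0),(10,0)]⟩⟩ ⟨true,0,⟨12,[(6,3),(8,4),(0,4),(2,4),(6,2),(10,1)]⟩,⟨0,[(0,0),(10,
  0)]⟩⟩]⟩))) (.Q [0,0,-2,-1,1,0,2,1,0,-1,2] (.p true [0,0,1] [1,0,-1] (⟨0,[(30,0)]⟩,⟨0,[(29,0)]⟩)
  .k 2 (⟨0,[(29,0)]⟩,⟨0,[(30,0)]⟩) .k (.r 0 ⟨0,[(12,1),(2,1)]⟩ ⟨0,[(6,0),(2,0),(3,0)]⟩)) (.Q [0,0,
  -2,0,1,0,1,0,0,-1,1] (.p true [0,0,1] [1] (⟨0,[(31,0)]⟩,⟨0,[(30,0)]⟩) .k 1 (⟨0,[]⟩,⟨0,[]⟩) .k .k)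
  (.R ⟨0,false,false,true,[1,-1,-1],[0,-1,1],[1,1],(⟨0,[(20,0)]⟩,⟨0,[(5,0),(29,0)]⟩),(⟨0,[(21,0)]⟩,
  ⟨1,[(5,0),(25,2)]⟩),⟨0,[(5,0)]⟩,.k,.k,(.r (-1) ⟨7,[(6,2),(0,7),(2,0),(7,0),(21,1),(2,5)]⟩ ⟨1,[(14,
  1),(14,0),(0,2),(10,3)]⟩),.k,.k,.k,⟨true,0,⟨0,[(12,0)]⟩,⟨0,[(13,0),(3,0)]⟩⟩,⟨false,1,⟨0,[(0,0),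
  (28,0)]⟩,⟨0,[(19,0)]⟩⟩,⟨false,0,⟨0,[(14,0),(15,0),(10,0)]⟩,⟨0,[(7,0),(35,0)]⟩⟩,⟨true,0,⟨0,[(9,0),
  (4,0),(26,0)]⟩,⟨0,[(2,0),(8,1),(5,0),(5,0)]⟩⟩,⟨false,0,⟨0,[]⟩,⟨0,[]⟩⟩,⟨false,0,⟨0,[]⟩,⟨0,[]⟩⟩,[.o
  ⟨false,0,⟨0,[(9,0)]⟩,⟨49,[(2,7),(0,5),(8,49),(5,13),(0,20),(18,4),(4,24)]⟩⟩,.a ⟨true,0,⟨0,[(13,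
  0)]⟩,⟨0,[(15,0),(25,0)]⟩⟩ ⟨true,0,⟨0,[]⟩,⟨1,[(29,0),(0,0)]⟩⟩ ⟨false,1,⟨0,[(1,0)]⟩,⟨0,[(12,0),(6,
  0)]⟩⟩,.o ⟨false,0,⟨0,[(30,0)]⟩,⟨0,[(8,0)]⟩⟩,.o ⟨false,0,⟨1,[(29,0),(0,2)]⟩,⟨0,[(0,0)]⟩⟩]⟩) (.K ⟨0,
  [1,-1,-1],(-1),0,(⟨0,[(20,0)]⟩,⟨0,[(5,0),(29,0)]⟩),.k,(.r (-1) ⟨7,[(6,2),(0,7),(2,0),(7,0),(21,1),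
  (2,5)]⟩ ⟨6,[(0,2),(3,1),(5,1),(3,4),(12,1),(2,3),(7,0),(2,13)]⟩),.k,(.r (-1) ⟨1,[(7,1),(0,0),(2,
  0),(3,0),(27,0)]⟩ ⟨2,[(0,0),(13,5),(4,1),(10,0),(7,0),(2,2)]⟩),.k,[⟨0,[(1,0),(10,0)]⟩,⟨0,[(0,0)]⟩,
  ⟨0,[(9,0),(31,1)]⟩,⟨0,[(15,0),(24,0)]⟩]⟩)) (.Q [0,0,0,0,0,0,0,0,0,-1,1,1] (.ed false [0,0,1,0,1]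
  (.r 0 ⟨1,[(8,0),(9,0),(7,0),(13,0)]⟩ ⟨1,[(7,0),(2,0),(3,0),(27,0)]⟩)) (.S ⟨1,0,[0,0,0,0,0,0,0,-1],
  [2,0,-1,0,-1],[1,-1,0,-1,0,0,0,-1],(⟨0,[(24,0),(6,0)]⟩,⟨0,[(0,0)]⟩),⟨0,[(20,0),(3,0)]⟩,.k,(.r
  (-1) ⟨0,[(7,0),(35,0)]⟩ ⟨0,[(27,0),(2,0),(10,0)]⟩),⟨false,1,⟨0,[(40,0),(2,0)]⟩,⟨0,[(41,0)]⟩⟩,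
  ⟨true,0,⟨0,[(45,0)]⟩,⟨0,[]⟩⟩,⟨true,0,⟨0,[]⟩,⟨0,[(45,0)]⟩⟩,⟨false,0,⟨0,[(41,0)]⟩,⟨0,[(40,0),(2,
  0)]⟩⟩,[.o ⟨false,0,⟨3,[(1,0),(0,2),(6,0),(0,0),(0,3)]⟩,⟨1,[(4,0),(9,1),(3,0),(15,0)]⟩⟩,.e ⟨false,
  2,⟨3,[(4,0),(2,3),(2,1),(7,0),(24,4)]⟩,⟨0,[(1,0),(4,0),(2,0),(4,0),(26,2)]⟩⟩ ⟨false,1,⟨0,[(7,0),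
  (33,0),(1,0)]⟩,⟨1,[(9,0),(9,0),(7,0),(13,0)]⟩⟩,.o ⟨false,0,⟨1,[(1,0),(0,0),(6,0),(0,0)]⟩,⟨1,[(8,
  0),(3,0),(0,0),(9,1),(14,0)]⟩⟩,.a ⟨true,(-1),⟨0,[(1,0),(0,0),(10,0),(15,0)]⟩,⟨0,[(8,0),(14,0)]⟩⟩
  ⟨true,1,⟨0,[(7,0),(35,0)]⟩,⟨2,[(1,2),(4,0),(2,2),(4,2),(22,0),(3,4)]⟩⟩ ⟨false,1,⟨0,[(7,0),(33,0),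
  (1,0)]⟩,⟨0,[(14,0),(15,0)]⟩⟩]⟩) (.Q [0,0,-2,0,1,0,1,0,1,-1,1,1] (.p true [0,0,1,0,1] [1] (⟨0,[(25,
  0),(6,0)]⟩,⟨0,[(0,0)]⟩) .k 1 (⟨0,[]⟩,⟨0,[]⟩) .k (.r 0 ⟨1,[(9,0),(9,0),(7,0),(13,0)]⟩ ⟨1,[(8,0),(2,
  0),(3,0),(27,0)]⟩)) (.R ⟨0,false,false,false,[1,-1,-1],[0,0,1,0,1],[0,1],(⟨0,[(21,0)]⟩,⟨0,[(6,0),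
  (29,0)]⟩),(⟨0,[(26,0),(6,0)]⟩,⟨0,[(1,0)]⟩),⟨0,[(6,0)]⟩,.k,.k,(.r (-1) ⟨7,[(7,2),(0,7),(2,0),(7,0),
  (21,1),(2,5)]⟩ ⟨6,[(2,2),(2,1),(5,1),(3,7),(12,1),(2,3),(7,0),(2,10)]⟩),(.r (-2) ⟨7,[(5,0),(2,7),
  (2,5),(0,7),(6,4),(24,4)]⟩ ⟨1,[(2,2),(0,0),(3,0),(2,0),(4,5),(8,0),(14,0),(2,1)]⟩),.k,.k,⟨false,1,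
  ⟨0,[(9,0),(6,0)]⟩,⟨0,[(15,0),(2,0)]⟩⟩,⟨true,1,⟨0,[(0,0),(29,0)]⟩,⟨15,[(2,24),(0,14),(6,0),(0,0),
  (2,23),(15,7),(8,7),(5,3)]⟩⟩,⟨false,0,⟨0,[(15,0),(15,0),(10,0)]⟩,⟨0,[(8,0),(35,0)]⟩⟩,⟨true,0,⟨0,
  [(10,0),(4,0),(8,0),(17,1)]⟩,⟨3,[(2,2),(0,2),(3,2),(3,0),(0,5),(1,0),(24,0),(4,0)]⟩⟩,⟨false,0,⟨0,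
  []⟩,⟨0,[]⟩⟩,⟨false,0,⟨0,[]⟩,⟨0,[]⟩⟩,[.o ⟨false,0,⟨0,[(10,0),(13,0),(17,0)]⟩,⟨42,[(2,10),(0,20),(3,
  3),(0,2),(2,21),(0,28),(26,17),(4,13),(0,1)]⟩⟩,.e ⟨false,1,⟨10,[(5,0),(5,5),(7,4),(18,2)]⟩,⟨0,
  []⟩⟩ ⟨false,1,⟨0,[(0,0),(14,0)]⟩,⟨39,[(2,38),(0,8),(3,15),(2,6),(0,22),(0,7),(10,7),(15,7),(5,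
  3)]⟩⟩,.o ⟨false,0,⟨0,[(31,0)]⟩,⟨0,[(9,0)]⟩⟩,.a ⟨true,(-1),⟨0,[(2,0),(11,0)]⟩,⟨8,[(0,6),(2,4),(7,
  1),(18,6),(7,0)]⟩⟩ ⟨true,0,⟨2,[(7,0),(30,0),(3,1)]⟩,⟨1,[(30,0),(0,0)]⟩⟩ ⟨false,1,⟨0,[(0,0),(14,
  0)]⟩,⟨79,[(2,98),(0,38),(3,10),(3,40),(0,57),(1,76),(24,32),(4,24),(0,3)]⟩⟩]⟩) (.R ⟨0,false,false,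
  false,[1,-1,-1],[0,0,0,0,1],[0,1],(⟨0,[(21,0)]⟩,⟨0,[(6,0),(29,0)]⟩),(⟨0,[(26,0)]⟩,⟨0,[(25,0)]⟩),
  ⟨0,[(6,0)]⟩,.k,.k,(.r (-1) ⟨7,[(7,2),(0,7),(2,0),(7,0),(21,1),(2,5)]⟩ ⟨4,[(0,0),(4,1),(5,0),(3,3),
  (12,0),(2,3),(10,9)]⟩),(.r (-1) ⟨0,[(8,0),(35,0)]⟩ ⟨0,[(28,0),(2,0),(10,0)]⟩),.k,.k,⟨false,1,⟨10,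
  [(5,0),(5,5),(7,4),(18,2)]⟩,⟨0,[]⟩⟩,⟨true,1,⟨0,[(9,0),(14,0)]⟩,⟨0,[(0,0)]⟩⟩,⟨false,0,⟨0,[(15,0),
  (15,0),(10,0)]⟩,⟨0,[(8,0),(35,0)]⟩⟩,⟨true,0,⟨0,[(10,0),(13,0),(17,1)]⟩,⟨51,[(0,32),(2,6),(3,5),(0,
  39),(2,11),(4,11),(22,3),(4,16)]⟩⟩,⟨false,0,⟨0,[]⟩,⟨0,[]⟩⟩,⟨false,0,⟨0,[]⟩,⟨0,[]⟩⟩,[.o ⟨false,0,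
  ⟨11,[(2,2),(4,0),(0,2),(1,5),(13,11),(13,0),(0,2),(2,7)]⟩,⟨6,[(0,2),(2,0),(5,3),(1,2),(27,0),(4,
  1)]⟩⟩,.a ⟨true,0,⟨0,[(24,0)]⟩,⟨8,[(0,1),(2,4),(7,1),(18,6),(7,0)]⟩⟩ ⟨false,1,⟨10,[(5,0),(5,5),(7,
  4),(18,2)]⟩,⟨0,[]⟩⟩ ⟨true,1,⟨0,[(9,0),(14,0)]⟩,⟨0,[(0,0)]⟩⟩,.o ⟨false,0,⟨0,[(31,0)]⟩,⟨0,[(9,0)]⟩⟩,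
  .e ⟨true,0,⟨2,[(7,0),(30,0),(3,1)]⟩,⟨6,[(0,0),(4,1),(5,0),(18,0),(15,0)]⟩⟩ ⟨true,1,⟨2,[(8,0),(0,
  1),(5,0),(3,0),(4,1),(13,0),(3,0)]⟩,⟨0,[(0,0)]⟩⟩]⟩)))))) (.R ⟨0,false,false,true,[1,-1,-1],[0,-1,
  1],[1,1],(⟨0,[(16,0)]⟩,⟨0,[(1,0),(29,0)]⟩),(⟨0,[(17,0)]⟩,⟨1,[(1,0),(25,2)]⟩),⟨0,[(1,0)]⟩,.k,.k,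
  (.r (-1) ⟨7,[(2,2),(0,7),(2,0),(7,0),(21,1),(2,5)]⟩ ⟨1,[(10,1),(14,0),(0,2),(10,3)]⟩),.k,.k,.k,
  ⟨true,0,⟨0,[(8,0)]⟩,⟨0,[(9,0),(3,0)]⟩⟩,⟨false,1,⟨1,[(0,1),(3,0),(3,0),(0,0),(9,1),(5,1),(8,0)]⟩,
  ⟨0,[(15,0)]⟩⟩,⟨false,0,⟨0,[(10,0),(15,0),(10,0)]⟩,⟨0,[(3,0),(35,0)]⟩⟩,⟨true,0,⟨0,[(5,0),(4,0),(26,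
  0)]⟩,⟨0,[(0,0),(6,1),(5,1),(5,0)]⟩⟩,⟨false,0,⟨0,[]⟩,⟨0,[]⟩⟩,⟨false,0,⟨0,[]⟩,⟨0,[]⟩⟩,[.o ⟨false,0,
  ⟨0,[(5,0)]⟩,⟨3,[(8,1),(2,1),(3,0),(18,0),(2,1),(0,0),(0,1)]⟩⟩,.a ⟨true,0,⟨0,[(9,0)]⟩,⟨0,[(11,0),
  (25,0)]⟩⟩ ⟨true,0,⟨0,[]⟩,⟨1,[(25,0),(0,0)]⟩⟩ ⟨false,1,⟨1,[(0,1),(3,0),(3,0),(0,2),(9,1),(14,0)]⟩,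
  ⟨0,[(8,0),(6,0)]⟩⟩,.o ⟨false,0,⟨0,[(26,0)]⟩,⟨0,[(4,0)]⟩⟩,.o ⟨false,0,⟨1,[(25,0),(0,2)]⟩,⟨1,[(0,1),
  (3,0),(3,0),(0,0),(9,1),(14,0)]⟩⟩]⟩))

theorem ok9 : chk K t9 l14 = true := by decide +kernel

noncomputable def t10 : Tre :=
  (.Q [0,1,0,0,-1,0,0,0,1,0,0,1] (.p true [0,0,0,0,1] [] (⟨0,[(23,0)]⟩,⟨0,[(22,0)]⟩) .k 0 (⟨0,[]⟩,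
  ⟨0,[]⟩) .k .k) (.Q [0,0,0,2,0,0,-1,-1,0,0,-1] (.p false [0,0,1] [] (⟨0,[(31,0)]⟩,⟨0,[(30,0)]⟩) .k
  0 (⟨0,[]⟩,⟨0,[]⟩) .k .k) (.R ⟨1,false,false,true,[1,-1],[1,0,-1],[0,1,1,0,0,0,0,-1],(⟨0,[(35,0)]⟩,
  ⟨0,[(36,0)]⟩),(⟨0,[(31,0)]⟩,⟨0,[(32,0)]⟩),⟨1,[(5,0),(15,0),(13,0)]⟩,.k,.k,(.r (-1) ⟨3,[(6,2),(3,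
  0),(7,0),(21,1),(2,1)]⟩ ⟨2,[(4,1),(7,1),(32,1)]⟩),.k,(.r (-1) ⟨5,[(6,2),(3,0),(2,5),(4,0),(0,2),
  (18,0),(3,1),(0,0)]⟩ ⟨2,[(4,0),(7,3),(32,0)]⟩),.k,⟨true,0,⟨1,[(29,0),(0,0)]⟩,⟨0,[]⟩⟩,⟨false,1,⟨3,
  [(19,0),(6,1),(11,0),(3,2)]⟩,⟨0,[(29,0)]⟩⟩,⟨false,0,⟨2,[(4,0),(6,2),(0,0),(32,0)]⟩,⟨1,[(0,0),(3,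
  1),(1,3),(7,0),(28,1)]⟩⟩,⟨true,0,⟨12,[(0,4),(3,0),(7,0),(15,7),(8,2)]⟩,⟨0,[(13,0)]⟩⟩,⟨false,0,⟨2,
  [(4,0),(7,3),(32,0)]⟩,⟨0,[(4,0),(1,1),(36,0)]⟩⟩,⟨false,0,⟨0,[(0,0)]⟩,⟨0,[(13,0),(26,0),(2,0)]⟩⟩,
  [.o ⟨false,0,⟨0,[(28,0)]⟩,⟨10,[(4,1),(3,1),(1,0),(2,3),(0,4),(3,0),(19,2),(4,3)]⟩⟩,.a ⟨true,0,⟨0,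
  [(15,0)]⟩,⟨0,[(14,0)]⟩⟩ ⟨true,0,⟨0,[(2,0)]⟩,⟨0,[(4,0),(1,0)]⟩⟩ ⟨false,1,⟨4,[(0,1),(5,1),(8,2),(22,
  0),(3,2),(0,0)]⟩,⟨2,[(4,0),(8,0),(2,0),(12,0)]⟩⟩,.o ⟨false,0,⟨1,[(29,0),(0,0)]⟩,⟨3,[(18,0),(3,0),
  (15,0),(3,0)]⟩⟩,.o ⟨false,0,⟨0,[(29,0),(0,0)]⟩,⟨2,[(0,1),(5,1),(7,1),(23,0),(3,0),(0,0)]⟩⟩]⟩) (.I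
  [0,-1,-1,-1,1,0,0,-2] (.Q [0,0,0,-1,0,0,-1,-1,0,1,-1] (.p false [0,0,1] [1] (⟨0,[(33,0)]⟩,⟨0,[(32,
  0)]⟩) .k 1 (⟨0,[]⟩,⟨0,[]⟩) .k .k) (.S ⟨1,0,[0,0,-1,-1,0,0,0,-1],[1,-1,-1],[1,1,-1,-2,0,0,0,-1],
  (⟨0,[(22,0)]⟩,⟨0,[(34,0),(3,0)]⟩),⟨0,[(7,0)]⟩,.k,(.r (-1) ⟨47,[(0,3),(0,23),(0,3),(5,24),(3,10),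
  (7,10),(15,1),(5,9)]⟩ ⟨0,[(6,0),(40,0)]⟩),⟨true,0,⟨0,[(42,0)]⟩,⟨0,[(43,0)]⟩⟩,⟨false,1,⟨3,[(12,1),
  (12,1),(10,0),(8,0)]⟩,⟨0,[]⟩⟩,⟨false,0,⟨0,[]⟩,⟨3,[(12,1),(12,1),(10,0),(8,0)]⟩⟩,⟨true,0,⟨0,[(43,
  0)]⟩,⟨0,[(42,0)]⟩⟩,[.a ⟨true,0,⟨0,[(0,0)]⟩,⟨0,[(16,0),(26,0)]⟩⟩ ⟨true,0,⟨0,[(8,0),(4,0)]⟩,⟨0,[(6,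
  0)]⟩⟩ ⟨false,1,⟨9,[(1,4),(6,1),(30,0),(2,0),(1,4)]⟩,⟨9,[(5,0),(0,4),(4,1),(9,1),(7,1),(14,0)]⟩⟩,
  .o ⟨false,1,⟨1,[(0,1),(35,0),(8,0)]⟩,⟨3,[(5,1),(2,0),(0,0),(0,0),(5,2),(23,0),(2,2)]⟩⟩,.o ⟨false,
  0,⟨0,[(32,0)]⟩,⟨0,[(10,0)]⟩⟩,.o ⟨false,0,⟨1,[(31,0),(0,2)]⟩,⟨6,[(1,2),(6,4),(1,0),(5,5),(23,1),(2,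
  12),(1,0)]⟩⟩]⟩) (.R ⟨1,false,false,true,[0,0,1],[1,-1],[1,1,-1,-1],(⟨0,[(34,0)]⟩,⟨0,[(33,0)]⟩),
  (⟨0,[(37,0)]⟩,⟨0,[(38,0)]⟩),⟨0,[(23,0)]⟩,.k,.k,.k,.k,.k,.k,⟨true,0,⟨0,[]⟩,⟨1,[(31,0),(0,0)]⟩⟩,
  ⟨false,0,⟨6,[(2,0),(2,0),(6,0),(4,1),(3,1),(3,0),(2,1)]⟩,⟨0,[(10,0)]⟩⟩,⟨true,0,⟨0,[(9,0)]⟩,⟨27,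
  [(0,1),(4,0),(0,12),(4,1),(9,6),(7,9),(10,0)]⟩⟩,⟨true,0,⟨0,[(17,0),(24,0)]⟩,⟨0,[(0,0)]⟩⟩,⟨true,0,
  ⟨0,[(9,0),(33,0)]⟩,⟨4,[(2,0),(3,1),(4,0),(6,0),(2,0),(10,0)]⟩⟩,⟨false,0,⟨0,[(17,0)]⟩,⟨6,[(0,1),(1,
  2),(3,1),(3,1),(1,0),(7,0),(19,0),(4,1)]⟩⟩,[.o ⟨false,0,⟨0,[(42,0)]⟩,⟨11,[(6,1),(7,1),(25,3),(2,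
  5),(0,2),(0,4)]⟩⟩,.a ⟨true,0,⟨1,[(2,0),(0,0),(8,0),(4,0)]⟩,⟨0,[(43,0)]⟩⟩ ⟨false,1,⟨1,[(8,0),(3,0),
  (7,0)]⟩,⟨2,[(6,0),(7,0),(32,0)]⟩⟩ ⟨true,0,⟨1,[(2,0),(14,0),(3,0)]⟩,⟨0,[(0,0),(12,0)]⟩⟩,.o ⟨false,
  1,⟨3,[(10,1),(13,0),(0,0),(5,1),(4,0)]⟩,⟨0,[(19,0)]⟩⟩,.e ⟨true,0,⟨0,[(8,0),(34,0)]⟩,⟨3,[(6,1),(6,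
  1),(17,0),(0,0),(14,1)]⟩⟩ ⟨true,0,⟨12,[(8,3),(8,4),(0,4),(2,4),(6,2),(10,1)]⟩,⟨0,[(0,0),(12,
  0)]⟩⟩]⟩)) (.I [0,0,2,0,-1,2,0,0,1] (.Q [0,0,-1,0,0,0,0,0,1,-1,0,1] (.p true [0,0,0,0,1] [1] (⟨0,
  [(27,0)]⟩,⟨0,[(26,0)]⟩) .k 1 (⟨0,[]⟩,⟨0,[]⟩) .k .k) (.S ⟨1,0,[],[1,0,0,0,-1],[0,-1],(⟨0,[(27,0)]⟩,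
  ⟨0,[(28,0)]⟩),⟨0,[(1,0),(7,0),(3,0),(22,2),(7,1)]⟩,.k,(.r (-1) ⟨7,[(9,2),(3,0),(7,0),(21,1),(2,
  5)]⟩ ⟨2,[(7,0),(7,0),(32,3)]⟩),⟨false,1,⟨3,[(13,1),(12,1),(10,0),(8,0)]⟩,⟨0,[]⟩⟩,⟨true,0,⟨0,[(48,
  0)]⟩,⟨0,[]⟩⟩,⟨true,0,⟨0,[(44,0)]⟩,⟨0,[(43,0)]⟩⟩,⟨false,0,⟨0,[(44,0)]⟩,⟨0,[(43,0),(2,0)]⟩⟩,[.o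
  ⟨false,1,⟨0,[(25,0)]⟩,⟨2,[(4,1),(21,0),(14,0),(4,0)]⟩⟩,.a ⟨true,1,⟨0,[(13,0)]⟩,⟨0,[(4,0)]⟩⟩ ⟨true,
  1,⟨0,[(46,0)]⟩,⟨0,[(6,0),(2,0),(4,0)]⟩⟩ ⟨false,1,⟨1,[(45,0),(0,0)]⟩,⟨0,[(48,0)]⟩⟩,.o ⟨false,1,⟨0,
  [(25,0)]⟩,⟨2,[(4,1),(21,0),(14,0),(4,0)]⟩⟩,.o ⟨false,1,⟨1,[(25,1),(6,0),(0,0)]⟩,⟨0,[(0,0)]⟩⟩]⟩)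
  (.S ⟨1,0,[0,-1],[1,0,0,0,-1],[],(⟨0,[(27,0)]⟩,⟨0,[(28,0)]⟩),⟨18,[(0,3),(0,3),(6,2),(0,5),(14,2),
  (2,14),(8,17),(4,0),(2,11),(1,2)]⟩,.k,(.r (-1) ⟨7,[(9,2),(3,0),(7,0),(21,1),(2,5)]⟩ ⟨2,[(7,0),(7,
  0),(32,3)]⟩),⟨true,0,⟨0,[(48,0)]⟩,⟨0,[]⟩⟩,⟨false,1,⟨3,[(13,1),(12,1),(10,0),(8,0)]⟩,⟨0,[]⟩⟩,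
  ⟨false,0,⟨0,[(44,0)]⟩,⟨0,[(43,0),(2,0)]⟩⟩,⟨true,0,⟨0,[(44,0)]⟩,⟨0,[(43,0)]⟩⟩,[.e ⟨false,1,⟨4,[(13,
  1),(7,1),(3,0),(0,0),(13,0)]⟩,⟨0,[]⟩⟩ ⟨false,1,⟨1,[(45,0),(0,0)]⟩,⟨0,[(48,0)]⟩⟩,.o ⟨false,2,⟨1,
  [(13,1),(23,0),(8,0)]⟩,⟨15,[(4,15),(1,4),(2,1),(0,4),(1,0),(18,0),(8,0),(0,4)]⟩⟩,.o ⟨false,1,⟨0,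
  [(25,0)]⟩,⟨2,[(4,1),(21,0),(14,0),(4,0)]⟩⟩,.a ⟨true,0,⟨0,[(0,0)]⟩,⟨1,[(4,1),(40,0),(0,0)]⟩⟩
  ⟨false,1,⟨1,[(45,0),(0,0)]⟩,⟨1,[(32,0),(0,0)]⟩⟩ ⟨true,1,⟨1,[(45,0),(0,0)]⟩,⟨0,[(6,0),(2,0),(4,
  0)]⟩⟩]⟩)) (.I [1,-1,-1,-1,1,0,0,-2] (.Q [0,0,0,-1,0,0,-1,-1,0,1,-1] (.p false [0,0,1] [1] (⟨0,
  [(35,0)]⟩,⟨0,[(34,0)]⟩) .k 1 (⟨0,[]⟩,⟨0,[]⟩) .k .k) (.S ⟨1,0,[0,0,-1,-1,0,0,0,-1],[1,-1,-1],[1,1,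
  -1,-2,0,0,0,-1],(⟨0,[(24,0)]⟩,⟨0,[(36,0),(3,0)]⟩),⟨0,[(9,0)]⟩,.k,(.r (-1) ⟨47,[(0,3),(0,23),(2,3),
  (5,24),(3,10),(7,10),(15,1),(5,9)]⟩ ⟨0,[(8,0),(40,0)]⟩),⟨true,0,⟨0,[(44,0)]⟩,⟨0,[(45,0)]⟩⟩,⟨false,
  1,⟨3,[(14,1),(12,1),(10,0),(8,0)]⟩,⟨0,[]⟩⟩,⟨false,0,⟨0,[]⟩,⟨3,[(14,1),(12,1),(10,0),(8,0)]⟩⟩,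
  ⟨true,0,⟨0,[(45,0)]⟩,⟨0,[(44,0)]⟩⟩,[.a ⟨true,0,⟨0,[(0,0)]⟩,⟨0,[(18,0),(26,0)]⟩⟩ ⟨true,0,⟨0,[(10,
  0),(4,0)]⟩,⟨0,[(8,0)]⟩⟩ ⟨false,1,⟨9,[(1,4),(8,1),(30,0),(2,0),(1,4)]⟩,⟨8,[(3,0),(3,0),(0,3),(11,
  1),(1,0),(0,0),(2,0)]⟩⟩,.o ⟨false,1,⟨1,[(0,1),(37,0),(8,0)]⟩,⟨3,[(7,1),(2,0),(0,0),(0,0),(5,2),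
  (23,0),(2,2)]⟩⟩,.o ⟨false,0,⟨0,[(34,0)]⟩,⟨0,[(12,0)]⟩⟩,.o ⟨false,0,⟨1,[(33,0),(0,2)]⟩,⟨6,[(1,2),
  (8,4),(1,0),(5,5),(23,1),(2,12),(1,0)]⟩⟩]⟩) (.R ⟨1,false,false,true,[0,0,1],[1,-1],[1,1,-1,-1],
  (⟨0,[(36,0)]⟩,⟨0,[(35,0)]⟩),(⟨0,[(39,0)]⟩,⟨0,[(40,0)]⟩),⟨0,[(25,0)]⟩,.k,.k,.k,.k,.k,.k,⟨true,0,⟨0,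
  []⟩,⟨1,[(33,0),(0,0)]⟩⟩,⟨false,0,⟨11,[(3,1),(0,0),(9,1),(4,4),(3,2),(3,1),(2,1)]⟩,⟨0,[(12,0)]⟩⟩,
  ⟨true,0,⟨0,[(11,0)]⟩,⟨8,[(3,0),(3,0),(0,3),(11,1),(1,0),(0,0),(2,0)]⟩⟩,⟨true,0,⟨0,[(19,0),(24,
  0)]⟩,⟨0,[(0,0)]⟩⟩,⟨true,0,⟨0,[(11,0),(33,0)]⟩,⟨28,[(3,1),(0,6),(3,9),(11,7),(2,3),(10,6),(3,1)]⟩⟩,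
  ⟨false,0,⟨0,[(19,0)]⟩,⟨6,[(0,1),(3,2),(3,1),(3,1),(1,0),(7,0),(19,0),(4,1)]⟩⟩,[.o ⟨false,0,⟨0,
  [(44,0)]⟩,⟨11,[(8,1),(7,1),(25,3),(2,5),(0,2),(0,4)]⟩⟩,.a ⟨true,0,⟨1,[(4,0),(0,0),(8,0),(4,0)]⟩,
  ⟨0,[(45,0)]⟩⟩ ⟨false,1,⟨1,[(10,0),(3,0),(7,0)]⟩,⟨2,[(8,0),(7,0),(32,0)]⟩⟩ ⟨true,0,⟨1,[(4,0),(14,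
  0),(3,0)]⟩,⟨0,[(0,0),(14,0)]⟩⟩,.o ⟨false,1,⟨3,[(12,1),(13,0),(0,0),(5,1),(4,0)]⟩,⟨0,[(21,0)]⟩⟩,.e
  ⟨true,0,⟨0,[(10,0),(34,0)]⟩,⟨3,[(8,1),(6,1),(17,0),(0,0),(14,1)]⟩⟩ ⟨true,0,⟨12,[(10,3),(8,4),(0,
  4),(2,4),(6,2),(10,1)]⟩,⟨0,[(0,0),(14,0)]⟩⟩]⟩)) (.Q [0,0,0,0,0,0,-2,-2,0,1,-2] (.p false [0,0,1]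
  [1,0,-1] (⟨0,[(35,0)]⟩,⟨0,[(34,0)]⟩) .k 2 (⟨0,[(34,0)]⟩,⟨0,[(35,0)]⟩) .k (.r 0 ⟨18,[(2,15),(0,5),
  (5,1),(12,2),(18,0),(3,5),(0,8)]⟩ ⟨0,[(11,0),(2,0),(3,0)]⟩)) (.Q [0,0,-2,0,1,0,1,0,0,-1,1] (.p
  true [0,0,1] [1] (⟨0,[(36,0)]⟩,⟨0,[(35,0)]⟩) .k 1 (⟨0,[]⟩,⟨0,[]⟩) .k .k) (.S ⟨1,0,[0,0,-1,-1,0,0,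
  0,-1],[1,-1,-1],[1,1,-1,-2,0,0,0,-1],(⟨0,[(25,0)]⟩,⟨0,[(37,0),(3,0)]⟩),⟨0,[(10,0)]⟩,.k,(.r (-1)
  ⟨7,[(1,1),(3,1),(5,2),(0,5),(0,1),(1,0),(7,0),(24,3)]⟩ ⟨0,[(9,0),(40,0)]⟩),⟨true,0,⟨0,[(45,0)]⟩,
  ⟨0,[(46,0)]⟩⟩,⟨false,1,⟨3,[(15,1),(12,1),(10,0),(8,0)]⟩,⟨0,[]⟩⟩,⟨false,0,⟨0,[]⟩,⟨3,[(15,1),(12,1),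
  (10,0),(8,0)]⟩⟩,⟨true,0,⟨0,[(46,0)]⟩,⟨0,[(45,0)]⟩⟩,[.a ⟨true,0,⟨1,[(1,0),(3,0),(14,0)]⟩,⟨0,[(19,
  0),(26,0)]⟩⟩ ⟨true,0,⟨0,[(11,0),(4,0)]⟩,⟨0,[(9,0)]⟩⟩ ⟨false,1,⟨5,[(0,1),(10,0),(0,3),(2,0),(4,1),
  (2,0),(24,1)]⟩,⟨8,[(4,0),(3,0),(0,3),(11,1),(1,0),(0,0),(2,0)]⟩⟩,.o ⟨false,1,⟨2,[(1,1),(3,0),(33,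
  0),(5,0),(2,1)]⟩,⟨2,[(0,1),(7,1),(5,0)]⟩⟩,.o ⟨false,0,⟨0,[(35,0)]⟩,⟨0,[(13,0)]⟩⟩,.o ⟨false,0,⟨1,
  [(34,0),(0,2)]⟩,⟨0,[(0,0)]⟩⟩]⟩) (.Q [0,0,-1,0,1,0,2,0,0,-1,2] (.p true [0,0,1] [1,0,-1] (⟨0,[(37,
  0)]⟩,⟨0,[(36,0)]⟩) .k 2 (⟨0,[(36,0)]⟩,⟨0,[(37,0)]⟩) .k (.r 0 ⟨18,[(4,15),(0,5),(5,1),(12,2),(18,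
  0),(3,5),(0,8)]⟩ ⟨0,[(13,0),(2,0),(3,0)]⟩)) (.K ⟨0,[1,-1,-1],(-1),0,(⟨0,[(26,0)]⟩,⟨0,[(38,0),(3,
  0)]⟩),.k,(.r (-1) ⟨2,[(0,0),(1,1),(3,0),(5,1),(1,0),(34,0)]⟩ ⟨0,[(10,0),(40,0)]⟩),.k,(.r (-1) ⟨17,
  [(0,13),(1,16),(3,5),(6,5),(3,1),(26,0),(4,2)]⟩ ⟨86,[(5,52),(0,17),(3,39),(5,22),(5,9),(1,22),(0,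
  13),(14,6)]⟩),.k,[⟨0,[(0,0)]⟩,⟨0,[(1,0)]⟩,⟨17,[(0,8),(4,5),(3,5),(2,3),(30,0),(0,2),(2,7)]⟩,⟨0,
  [(21,0),(24,0)]⟩]⟩) (.I [0,0,-2,0,1,-2,0,0,-1] (.I [1,-1,2,2] (.N [0,-2,0,0,1] 0 ⟨0,[(14,0)]⟩ ⟨0,
  [(0,0)]⟩ (.x 0 ⟨3,[(3,1),(27,3),(0,3),(4,2),(0,0),(5,7),(1,1)]⟩ ⟨0,[(1,0)]⟩)) (.Q [0,1,0,1,-1,0,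
  -1,-1,1,0,-1,1] (.p false [0,0,1] [0,0,0,0,1] (⟨0,[(40,0)]⟩,⟨0,[(39,0)]⟩) .k 2 (⟨0,[(33,0)]⟩,⟨0,
  [(32,0)]⟩) .k (.r (-1) ⟨26,[(7,1),(0,11),(3,10),(5,11),(7,11),(0,5),(18,1),(4,2)]⟩ ⟨2,[(15,0),(3,
  0),(0,0),(24,0)]⟩)) (.Q [0,1,0,0,-1,0,-1,-1,1,0,-1,1] (.p false [0,0,1] [0,0,0,0,1] (⟨0,[(41,0)]⟩,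
  ⟨0,[(40,0)]⟩) .k 2 (⟨0,[(34,0)]⟩,⟨0,[(33,0)]⟩) .k (.r (-1) ⟨26,[(8,1),(0,11),(3,10),(5,11),(7,11),
  (0,5),(18,1),(4,2)]⟩ ⟨2,[(16,0),(3,0),(0,0),(24,0)]⟩)) (.Q [0,0,2,0,-1,0,0,0,1,0,0,1] (.p true [0,
  0,0,0,1] [] (⟨0,[(35,0)]⟩,⟨0,[(34,0)]⟩) .k 0 (⟨0,[]⟩,⟨0,[]⟩) .k .k) (.Q [0,0,-1,0,1,0,0,0,-1,0,0,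
  -1] (.p false [0,0,0,0,1] [] (⟨0,[(36,0)]⟩,⟨0,[(35,0)]⟩) .k 0 (⟨0,[]⟩,⟨0,[]⟩) .k .k) (.S ⟨1,0,[0,
  1,-1,-1],[0,-1,0,0,1],[1,2,-1,-2],(⟨1,[(1,0),(8,0),(26,0)]⟩,⟨0,[(36,0),(11,0)]⟩),⟨0,[(1,0),(8,
  0)]⟩,(.r 0 ⟨0,[(51,0)]⟩ ⟨2,[(16,0),(5,1),(1,0),(10,1),(10,0)]⟩),(.x 0 ⟨1,[(1,0),(33,0),(0,1),(4,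
  0),(0,0),(3,0),(1,3)]⟩ ⟨0,[(5,0)]⟩),⟨true,0,⟨0,[(52,0)]⟩,⟨0,[(53,0)]⟩⟩,⟨false,1,⟨3,[(22,1),(12,1),
  (10,0),(8,0)]⟩,⟨0,[]⟩⟩,⟨false,0,⟨0,[]⟩,⟨3,[(22,1),(12,1),(10,0),(8,0)]⟩⟩,⟨true,0,⟨0,[(53,0)]⟩,⟨0,
  [(52,0)]⟩⟩,[.e ⟨false,0,⟨4,[(18,3),(30,1),(2,1)]⟩,⟨3,[(16,1),(7,1),(28,1),(0,0),(0,2)]⟩⟩ ⟨false,0,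
  ⟨0,[(18,0),(34,0)]⟩,⟨2,[(16,0),(5,1),(1,0),(10,1),(10,0)]⟩⟩,.o ⟨false,0,⟨3,[(1,0),(0,1),(9,1),(17,
  0),(19,0),(4,0)]⟩,⟨5,[(0,4),(15,1),(7,1),(9,0),(14,0)]⟩⟩,.o ⟨false,0,⟨1,[(1,0),(33,0),(10,0)]⟩,⟨0,
  [(0,0)]⟩⟩,.a ⟨true,(-1),⟨0,[(1,0)]⟩,⟨0,[(18,0),(3,0),(30,1)]⟩⟩ ⟨false,0,⟨0,[(18,0)]⟩,⟨5,[(16,3),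
  (5,1),(1,3),(10,1),(10,0),(8,2)]⟩⟩ ⟨true,0,⟨0,[(18,0),(34,0)]⟩,⟨3,[(16,1),(6,1),(17,0),(0,0),(14,
  1)]⟩⟩]⟩) (.S ⟨1,0,[0,1],[0,0,0,0,1],[0,2],(⟨0,[(37,0)]⟩,⟨0,[(36,0)]⟩),⟨1,[(1,0),(8,0),(26,0)]⟩,.k,
  (.r 0 ⟨0,[(51,0)]⟩ ⟨2,[(16,0),(5,1),(1,0),(10,1),(10,0)]⟩),⟨true,0,⟨0,[(57,0)]⟩,⟨0,[]⟩⟩,⟨false,1,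
  ⟨3,[(22,1),(12,1),(10,0),(8,0)]⟩,⟨0,[]⟩⟩,⟨false,0,⟨0,[(53,0)]⟩,⟨0,[(52,0),(2,0)]⟩⟩,⟨true,0,⟨0,
  [(53,0)]⟩,⟨0,[(52,0)]⟩⟩,[.e ⟨false,0,⟨0,[(49,0)]⟩,⟨0,[(55,0)]⟩⟩ ⟨false,0,⟨2,[(18,0),(30,0),(3,
  1)]⟩,⟨3,[(22,1),(12,1),(10,0),(8,0)]⟩⟩,.o ⟨false,0,⟨9,[(0,4),(0,0),(28,3),(19,1),(5,0)]⟩,⟨0,[(34,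
  0)]⟩⟩,.o ⟨false,0,⟨9,[(0,4),(0,0),(28,3),(19,1),(5,0)]⟩,⟨0,[(34,0)]⟩⟩,.a ⟨true,(-1),⟨0,[(0,0)]⟩,
  ⟨2,[(18,0),(3,2),(26,0),(3,1)]⟩⟩ ⟨false,0,⟨2,[(18,0),(30,0),(3,1)]⟩,⟨1,[(41,0),(0,0),(12,1)]⟩⟩
  ⟨true,0,⟨2,[(18,0),(30,0),(3,1)]⟩,⟨1,[(41,0),(0,0)]⟩⟩]⟩)) (.Q [0,0,0,0,0,-1,0,0,0,1,0,-1] (.ed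
  true [0,1,0,0,1] .k) (.S ⟨1,0,[0,-1],[1,0,0,0,-1],[1,0,0,-1],(⟨0,[(36,0)]⟩,⟨0,[(37,0)]⟩),⟨0,[(0,
  0)]⟩,.k,(.r (-1) ⟨27,[(8,2),(3,5),(5,7),(3,5),(7,5),(19,0),(4,14)]⟩ ⟨2,[(16,0),(7,0),(32,3)]⟩),
  ⟨true,0,⟨0,[(52,0)]⟩,⟨0,[(53,0)]⟩⟩,⟨false,1,⟨3,[(22,1),(12,1),(10,0),(8,0)]⟩,⟨0,[]⟩⟩,⟨false,0,⟨0,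
  []⟩,⟨3,[(22,1),(12,1),(10,0),(8,0)]⟩⟩,⟨true,0,⟨0,[(53,0)]⟩,⟨0,[(52,0)]⟩⟩,[.e ⟨false,1,⟨31,[(8,3),
  (3,7),(5,0),(3,14),(7,14),(15,1),(5,13)]⟩,⟨0,[(53,0)]⟩⟩ ⟨false,1,⟨1,[(54,0),(0,0)]⟩,⟨0,[(57,0)]⟩⟩,
  .o ⟨false,2,⟨1,[(22,1),(23,0),(8,0)]⟩,⟨0,[(3,0),(17,0)]⟩⟩,.o ⟨false,1,⟨0,[(34,0)]⟩,⟨2,[(13,1),(21,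
  0),(14,0),(4,0)]⟩⟩,.a ⟨true,0,⟨0,[(1,0),(5,0),(33,0)]⟩,⟨1,[(13,1),(40,0),(0,0)]⟩⟩ ⟨false,1,⟨27,
  [(8,2),(3,5),(5,7),(3,5),(7,5),(19,0),(4,14)]⟩,⟨2,[(16,0),(7,0),(32,0)]⟩⟩ ⟨true,1,⟨1,[(54,0),(0,
  0)]⟩,⟨2,[(7,0),(7,1),(3,2),(1,0)]⟩⟩]⟩) (.S ⟨1,0,[0,-1,0,0,0,0,0,1],[1,0,1,0,-1],[1,0,0,-1,0,0,0,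
  1],(⟨0,[(36,0),(7,0)]⟩,⟨0,[(0,0),(31,0)]⟩),⟨0,[(33,0),(2,0)]⟩,.k,(.r (-1) ⟨9,[(1,2),(9,1),(0,5),
  (17,2),(0,2),(23,5)]⟩ ⟨0,[(24,0),(32,0)]⟩),⟨true,0,⟨0,[(52,0)]⟩,⟨0,[(53,0)]⟩⟩,⟨false,1,⟨3,[(22,1),
  (12,1),(10,0),(8,0)]⟩,⟨0,[]⟩⟩,⟨false,0,⟨0,[]⟩,⟨3,[(22,1),(12,1),(10,0),(8,0)]⟩⟩,⟨true,0,⟨0,[(53,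
  0)]⟩,⟨0,[(52,0)]⟩⟩,[.a ⟨true,1,⟨0,[(22,0),(3,0)]⟩,⟨0,[(2,0)]⟩⟩ ⟨true,0,⟨85,[(6,1),(4,21),(0,41),
  (5,11),(12,18),(18,6),(4,16)]⟩,⟨0,[(24,0)]⟩⟩ ⟨false,1,⟨9,[(1,0),(9,3),(0,1),(17,0),(0,0),(22,4),
  (0,6)]⟩,⟨2,[(19,0),(3,0),(0,0),(24,0)]⟩⟩,.o ⟨false,2,⟨5,[(11,0),(4,0),(3,2),(1,5),(2,2),(24,0),(4,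
  2)]⟩,⟨15,[(2,15),(12,4),(2,1),(0,4),(1,0),(18,0),(8,0),(0,4)]⟩⟩,.o ⟨false,1,⟨1,[(1,0),(32,0),(6,
  1)]⟩,⟨15,[(2,4),(3,5),(2,1),(2,0),(0,0),(16,3),(4,5),(14,5),(4,3)]⟩⟩,.o ⟨false,1,⟨0,[(34,0),(6,
  0)]⟩,⟨39,[(3,35),(2,1),(4,17),(1,0),(4,26),(11,2),(19,12),(4,40)]⟩⟩]⟩))) (.R ⟨1,true,false,false,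
  [0,0,1],[0,0,0,0,1],[0,1,0,0,0,0,0,1],(⟨0,[(42,0)]⟩,⟨0,[(41,0)]⟩),(⟨0,[(35,0)]⟩,⟨0,[(34,0)]⟩),⟨0,
  [(31,0)]⟩,.k,.k,.k,.k,(.r (-1) ⟨9,[(0,2),(8,1),(0,2),(5,2),(11,2),(0,2),(23,5)]⟩ ⟨0,[(22,0),(32,
  0)]⟩),.k,⟨true,0,⟨9,[(0,0),(8,3),(0,0),(5,0),(11,0),(0,0),(23,1)]⟩,⟨0,[(21,0)]⟩⟩,⟨false,0,⟨4,[(4,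
  1),(6,1),(16,2),(7,0),(16,0)]⟩,⟨4,[(0,3),(16,1),(4,1),(9,0),(6,0),(7,0)]⟩⟩,⟨true,0,⟨0,[(55,0)]⟩,
  ⟨0,[]⟩⟩,⟨false,0,⟨5,[(6,2),(4,1),(21,3),(14,0),(4,0)]⟩,⟨0,[(0,0)]⟩⟩,⟨false,0,⟨0,[(51,0)]⟩,⟨0,[(50,
  0),(2,0)]⟩⟩,⟨true,(-1),⟨0,[(1,0)]⟩,⟨2,[(0,0),(9,0),(15,0),(5,1)]⟩⟩,[]⟩)) (.Q [0,0,0,0,0,-1,0,0,0,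
  1,0,-1] (.ed true [0,1,0,0,1] .k) (.S ⟨1,0,[0,-1],[1,0,0,0,-1],[1,0,0,-1],(⟨0,[(34,0)]⟩,⟨0,[(35,
  0)]⟩),⟨0,[(0,0)]⟩,.k,(.r (-1) ⟨11,[(1,1),(4,1),(3,1),(5,2),(3,0),(7,2),(24,5)]⟩ ⟨2,[(14,0),(7,0),
  (32,3)]⟩),⟨true,0,⟨0,[(50,0)]⟩,⟨0,[(51,0)]⟩⟩,⟨false,1,⟨3,[(20,1),(12,1),(10,0),(8,0)]⟩,⟨0,[]⟩⟩,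
  ⟨false,0,⟨0,[]⟩,⟨3,[(20,1),(12,1),(10,0),(8,0)]⟩⟩,⟨true,0,⟨0,[(51,0)]⟩,⟨0,[(50,0)]⟩⟩,[.e ⟨false,1,
  ⟨31,[(6,3),(3,7),(5,0),(3,14),(7,14),(15,1),(5,13)]⟩,⟨0,[(51,0)]⟩⟩ ⟨false,1,⟨1,[(52,0),(0,0)]⟩,⟨0,
  [(55,0)]⟩⟩,.o ⟨false,2,⟨1,[(20,1),(23,0),(8,0)]⟩,⟨15,[(11,15),(1,4),(2,1),(0,4),(1,0),(18,0),(8,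
  0),(0,4)]⟩⟩,.o ⟨false,1,⟨0,[(32,0)]⟩,⟨2,[(11,1),(21,0),(14,0),(4,0)]⟩⟩,.a ⟨true,0,⟨0,[(1,0),(3,0),
  (11,0),(33,1)]⟩,⟨1,[(11,1),(40,0),(0,0)]⟩⟩ ⟨false,1,⟨11,[(1,1),(4,1),(3,1),(5,2),(3,0),(7,2),(24,
  5)]⟩,⟨2,[(14,0),(7,0),(32,0)]⟩⟩ ⟨true,1,⟨1,[(52,0),(0,0)]⟩,⟨2,[(5,0),(7,1),(3,2),(1,0)]⟩⟩]⟩) (.R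
  ⟨0,false,false,false,[1,0,0,0,-1],[1,0,-1],[],(⟨0,[(34,0)]⟩,⟨0,[(35,0)]⟩),(⟨0,[(41,0)]⟩,⟨0,[(42,
  0)]⟩),⟨0,[(0,0)]⟩,.k,.k,(.r (-1) ⟨11,[(1,1),(4,1),(3,1),(5,2),(3,0),(7,2),(24,5)]⟩ ⟨2,[(14,0),(7,
  0),(32,3)]⟩),.k,.k,.k,⟨true,0,⟨26,[(1,2),(7,10),(0,1),(5,1),(11,2),(0,1),(6,0),(16,4)]⟩,⟨0,[(21,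
  0)]⟩⟩,⟨false,0,⟨4,[(4,1),(6,1),(16,2),(7,0),(16,0)]⟩,⟨2,[(1,1),(11,0),(3,1),(0,0),(1,0),(1,0),(28,
  0)]⟩⟩,⟨true,0,⟨0,[(55,0)]⟩,⟨0,[]⟩⟩,⟨false,0,⟨5,[(6,2),(4,1),(21,3),(14,0),(4,0)]⟩,⟨0,[(1,0),(49,
  0)]⟩⟩,⟨false,0,⟨0,[]⟩,⟨0,[]⟩⟩,⟨false,0,⟨0,[]⟩,⟨0,[]⟩⟩,[.e ⟨false,1,⟨4,[(20,1),(7,1),(3,0),(0,0),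
  (13,0)]⟩,⟨0,[]⟩⟩ ⟨false,0,⟨7,[(6,3),(4,6),(4,2),(11,0),(19,0),(2,5),(1,4)]⟩,⟨2,[(1,1),(11,0),(4,
  0),(1,0),(26,0)]⟩⟩,.o ⟨false,1,⟨7,[(6,3),(13,1),(12,1),(10,2),(8,2)]⟩,⟨4,[(13,1),(2,0),(0,0),(0,
  0),(0,0),(4,2),(23,0)]⟩⟩,.o ⟨false,1,⟨0,[(32,0)]⟩,⟨2,[(11,1),(21,0),(14,0),(4,0)]⟩⟩,.a ⟨true,0,⟨0,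
  [(1,0),(3,0),(11,0),(33,1)]⟩,⟨1,[(11,1),(40,0),(0,0)]⟩⟩ ⟨false,1,⟨1,[(52,0),(0,0)]⟩,⟨1,[(39,0),(0,
  0)]⟩⟩ ⟨true,0,⟨7,[(6,3),(4,6),(4,2),(11,0),(19,0),(2,5),(1,4)]⟩,⟨0,[(1,0),(11,0),(3,0)]⟩⟩]⟩))))
  (.Q [0,0,-1,0,0,0,0,0,1,-1,0,1] (.p true [0,0,0,0,1] [1] (⟨0,[(32,0)]⟩,⟨0,[(31,0)]⟩) .k 1 (⟨0,[]⟩,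
  ⟨0,[]⟩) .k .k) (.Q [0,0,0,0,0,-1,0,0,0,1,0,-1] (.ed true [0,1,0,0,1] .k) (.S ⟨1,0,[],[1,0,0,0,-1],
  [0,-1],(⟨0,[(33,0)]⟩,⟨0,[(34,0)]⟩),⟨0,[(0,0)]⟩,.k,(.r (-1) ⟨27,[(5,2),(3,5),(5,7),(3,5),(7,5),(19,
  0),(4,14)]⟩ ⟨2,[(13,0),(7,0),(32,3)]⟩),⟨false,1,⟨3,[(19,1),(12,1),(10,0),(8,0)]⟩,⟨0,[]⟩⟩,⟨true,0,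
  ⟨0,[(54,0)]⟩,⟨0,[]⟩⟩,⟨true,0,⟨0,[(50,0)]⟩,⟨0,[(49,0)]⟩⟩,⟨false,0,⟨0,[(50,0)]⟩,⟨0,[(49,0),(2,0)]⟩⟩,
  [.o ⟨false,1,⟨0,[(31,0)]⟩,⟨2,[(10,1),(21,0),(14,0),(4,0)]⟩⟩,.a ⟨true,1,⟨0,[(19,0)]⟩,⟨0,[(10,0)]⟩⟩
  ⟨true,1,⟨0,[(52,0)]⟩,⟨2,[(4,0),(7,1),(3,2),(1,0)]⟩⟩ ⟨false,1,⟨1,[(51,0),(0,0)]⟩,⟨0,[(54,0)]⟩⟩,.o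
  ⟨false,1,⟨0,[(31,0)]⟩,⟨2,[(10,1),(21,0),(14,0),(4,0)]⟩⟩,.o ⟨false,1,⟨1,[(31,1),(6,0),(0,0)]⟩,⟨0,
  [(1,0)]⟩⟩]⟩) (.R ⟨2,true,false,false,[0,1],[1,0,0,0,-1],[1,1,1],(⟨0,[]⟩,⟨0,[]⟩),(⟨0,[(33,0)]⟩,⟨0,
  [(34,0)]⟩),⟨0,[]⟩,.k,.k,.k,(.r 0 ⟨2,[(13,0),(7,0),(32,3)]⟩ ⟨27,[(5,2),(3,5),(5,7),(3,5),(7,5),(19,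
  0),(4,14)]⟩),.k,.k,⟨true,(-1),⟨2,[(4,0),(7,1),(3,2),(1,0)]⟩,⟨0,[(52,0)]⟩⟩,⟨false,1,⟨0,[(19,0),(34,
  0)]⟩,⟨0,[(1,0)]⟩⟩,⟨true,0,⟨0,[(49,0)]⟩,⟨0,[(50,0)]⟩⟩,⟨false,2,⟨0,[(19,0),(29,0),(2,0)]⟩,⟨0,[(0,0),
  (1,0),(12,0),(26,2),(7,2)]⟩⟩,⟨false,0,⟨0,[]⟩,⟨3,[(19,1),(12,1),(10,0),(8,0)]⟩⟩,⟨true,1,⟨0,[(19,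
  0)]⟩,⟨15,[(10,15),(1,4),(2,1),(0,4),(1,0),(18,0),(8,0),(0,4)]⟩⟩,[]⟩)) (.S ⟨1,0,[0,-1],[1,0,0,0,
  -1],[1,0,0,-1],(⟨0,[(32,0)]⟩,⟨0,[(33,0)]⟩),⟨29,[(0,0),(0,0),(0,2),(5,5),(1,5),(3,5),(17,28),(8,
  31),(4,0),(2,23),(1,2)]⟩,.k,(.r (-1) ⟨27,[(4,2),(3,5),(5,7),(3,5),(7,5),(19,0),(4,14)]⟩ ⟨2,[(12,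
  0),(7,0),(32,3)]⟩),⟨true,0,⟨0,[(48,0)]⟩,⟨0,[(49,0)]⟩⟩,⟨false,1,⟨3,[(18,1),(12,1),(10,0),(8,0)]⟩,
  ⟨0,[]⟩⟩,⟨false,0,⟨0,[]⟩,⟨3,[(18,1),(12,1),(10,0),(8,0)]⟩⟩,⟨true,0,⟨0,[(49,0)]⟩,⟨0,[(48,0)]⟩⟩,[.e
  ⟨false,1,⟨31,[(4,3),(3,7),(5,0),(3,14),(7,14),(15,1),(5,13)]⟩,⟨0,[(49,0)]⟩⟩ ⟨false,1,⟨1,[(50,0),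
  (0,0)]⟩,⟨0,[(53,0)]⟩⟩,.o ⟨false,2,⟨1,[(18,1),(23,0),(8,0)]⟩,⟨15,[(9,15),(1,4),(2,1),(0,4),(1,0),
  (18,0),(8,0),(0,4)]⟩⟩,.o ⟨false,1,⟨0,[(30,0)]⟩,⟨2,[(9,1),(21,0),(14,0),(4,0)]⟩⟩,.a ⟨true,0,⟨0,[(0,
  0)]⟩,⟨1,[(9,1),(40,0),(0,0)]⟩⟩ ⟨false,1,⟨27,[(4,2),(3,5),(5,7),(3,5),(7,5),(19,0),(4,14)]⟩,⟨2,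
  [(12,0),(7,0),(32,0)]⟩⟩ ⟨true,1,⟨1,[(50,0),(0,0)]⟩,⟨2,[(3,0),(7,1),(3,2),(1,0)]⟩⟩]⟩))))) (.R ⟨1,
  false,false,true,[1,-1,-1],[0,-1,1],[1,0,-1,-2,0,0,0,-1],(⟨0,[(24,0)]⟩,⟨0,[(36,0),(3,0)]⟩),(⟨0,
  [(25,0)]⟩,⟨0,[(35,0),(4,0)]⟩),⟨0,[(9,0)]⟩,.k,.k,(.r (-1) ⟨7,[(10,2),(0,7),(2,0),(7,0),(21,1),(2,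
  5)]⟩ ⟨0,[(8,0),(40,0)]⟩),.k,(.r (-1) ⟨1,[(11,1),(0,0),(2,0),(3,0),(27,0)]⟩ ⟨86,[(3,52),(0,17),(3,
  39),(5,22),(5,9),(1,22),(0,13),(14,6)]⟩),.k,⟨true,1,⟨0,[(11,0),(3,0),(31,0)]⟩,⟨0,[(1,0)]⟩⟩,⟨false,
  1,⟨1,[(0,0),(10,1),(0,0),(20,0),(11,1),(1,0)]⟩,⟨0,[(23,0)]⟩⟩,⟨false,1,⟨0,[(44,0),(2,0)]⟩,⟨0,[(45,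
  0)]⟩⟩,⟨false,0,⟨0,[(0,0)]⟩,⟨1,[(19,3),(18,0),(8,0)]⟩⟩,⟨true,0,⟨0,[]⟩,⟨0,[(49,0)]⟩⟩,⟨false,0,⟨0,
  [(0,0),(44,0)]⟩,⟨1,[(4,0),(14,4),(22,0),(4,0)]⟩⟩,[.o ⟨false,0,⟨0,[(13,0)]⟩,⟨11,[(8,1),(7,1),(2,
  11),(22,3),(2,5),(0,2),(0,4)]⟩⟩,.a ⟨true,0,⟨0,[(17,0)]⟩,⟨0,[(19,0),(25,0)]⟩⟩ ⟨true,1,⟨0,[(10,0),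
  (4,0),(31,0)]⟩,⟨0,[(7,0)]⟩⟩ ⟨false,1,⟨1,[(0,1),(10,1),(34,0),(0,0)]⟩,⟨0,[(16,0),(6,0)]⟩⟩,.o
  ⟨false,0,⟨0,[(34,0)]⟩,⟨0,[(12,0)]⟩⟩,.o ⟨false,0,⟨1,[(33,0),(0,2)]⟩,⟨7,[(0,2),(9,3),(0,5),(0,1),
  (29,0),(2,13),(1,4)]⟩⟩]⟩)))))) (.Q [0,0,0,2,0,0,-1,-1,0,0,-1] (.p false [0,0,1] [] (⟨0,[(31,0)]⟩,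
  ⟨0,[(30,0)]⟩) .k 0 (⟨0,[]⟩,⟨0,[]⟩) .k .k) (.R ⟨1,false,false,true,[1,-1],[1,0,-1],[0,1,1,0,0,0,0,
  -1],(⟨0,[(35,0)]⟩,⟨0,[(36,0)]⟩),(⟨0,[(31,0)]⟩,⟨0,[(32,0)]⟩),⟨1,[(5,0),(15,0),(13,0)]⟩,.k,.k,(.r
  (-1) ⟨3,[(6,2),(3,0),(7,0),(21,1),(2,1)]⟩ ⟨2,[(4,1),(7,1),(32,1)]⟩),.k,(.r (-1) ⟨1,[(1,0),(4,0),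
  (6,1),(4,0),(0,0)]⟩ ⟨2,[(4,0),(7,3),(32,0)]⟩),.k,⟨true,0,⟨1,[(29,0),(0,0)]⟩,⟨0,[]⟩⟩,⟨false,1,⟨3,
  [(19,0),(6,1),(11,0),(3,2)]⟩,⟨0,[(29,0)]⟩⟩,⟨false,0,⟨2,[(4,0),(6,2),(0,0),(32,0)]⟩,⟨1,[(0,0),(3,
  1),(1,3),(7,0),(28,1)]⟩⟩,⟨true,0,⟨12,[(0,4),(3,0),(7,0),(15,7),(8,2)]⟩,⟨0,[(13,0)]⟩⟩,⟨false,0,⟨2,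
  [(4,0),(7,3),(32,0)]⟩,⟨0,[(4,0),(1,1),(36,0)]⟩⟩,⟨false,0,⟨0,[(0,0)]⟩,⟨0,[(13,0),(26,0),(2,0)]⟩⟩,
  [.o ⟨false,0,⟨0,[(28,0)]⟩,⟨10,[(4,1),(3,1),(1,0),(2,3),(0,4),(3,0),(19,2),(4,3)]⟩⟩,.a ⟨true,0,⟨0,
  [(15,0)]⟩,⟨0,[(14,0)]⟩⟩ ⟨true,0,⟨0,[(2,0)]⟩,⟨0,[(4,0),(1,0)]⟩⟩ ⟨false,1,⟨4,[(0,1),(5,1),(8,2),(22,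
  0),(3,2),(0,0)]⟩,⟨2,[(4,0),(8,0),(2,0),(12,0)]⟩⟩,.o ⟨false,0,⟨1,[(29,0),(0,0)]⟩,⟨3,[(18,0),(3,0),
  (15,0),(3,0)]⟩⟩,.o ⟨false,0,⟨0,[(29,0),(0,0)]⟩,⟨2,[(0,1),(5,1),(7,1),(23,0),(3,0),(0,0)]⟩⟩]⟩) (.I
  [1,-1,2,2] (.I [0,0,2,0,0,2,0,0,1] (.N [0,-2,0,0,1] 0 ⟨0,[(8,0)]⟩ ⟨0,[(1,0)]⟩ (.x 0 ⟨0,[(0,0)]⟩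
  ⟨0,[(3,0),(4,0),(18,0),(7,1),(7,1)]⟩)) (.S ⟨1,0,[0,0,-1,-1,0,0,0,-1],[1,-1,-1],[1,1,-1,-2,0,0,0,
  -1],(⟨0,[(22,0)]⟩,⟨0,[(34,0),(3,0)]⟩),⟨0,[(7,0)]⟩,.k,(.r (-1) ⟨7,[(8,2),(0,7),(2,0),(7,0),(21,1),
  (2,5)]⟩ ⟨0,[(6,0),(40,0)]⟩),⟨true,0,⟨0,[(42,0)]⟩,⟨0,[(43,0)]⟩⟩,⟨false,1,⟨3,[(12,1),(12,1),(10,0),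
  (8,0)]⟩,⟨0,[]⟩⟩,⟨false,0,⟨0,[]⟩,⟨3,[(12,1),(12,1),(10,0),(8,0)]⟩⟩,⟨true,0,⟨0,[(43,0)]⟩,⟨0,[(42,
  0)]⟩⟩,[.a ⟨true,0,⟨1,[(0,0),(1,0),(10,1),(3,0),(1,1),(5,0),(0,0),(11,1)]⟩,⟨0,[(16,0),(26,0)]⟩⟩
  ⟨true,0,⟨0,[(8,0),(4,0)]⟩,⟨0,[(6,0)]⟩⟩ ⟨false,1,⟨1,[(9,1),(34,0),(0,0)]⟩,⟨9,[(5,0),(0,4),(4,1),(9,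
  1),(7,1),(14,0)]⟩⟩,.o ⟨false,1,⟨1,[(2,0),(14,2),(22,0),(4,0)]⟩,⟨3,[(5,1),(2,0),(0,0),(0,0),(5,2),
  (23,0),(2,2)]⟩⟩,.o ⟨false,0,⟨0,[(32,0)]⟩,⟨0,[(10,0)]⟩⟩,.o ⟨false,0,⟨1,[(31,0),(0,2)]⟩,⟨1,[(0,1),
  (9,0),(14,1),(0,1),(4,0),(6,3),(1,0)]⟩⟩]⟩)) (.Q [0,0,-2,0,1,0,1,0,0,-1,1] (.p true [0,0,1] [1]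
  (⟨0,[(33,0)]⟩,⟨0,[(32,0)]⟩) .k 1 (⟨0,[]⟩,⟨0,[]⟩) .k .k) (.Q [0,0,0,-1,0,0,-1,-1,0,1,-1] (.p false
  [0,0,1] [1] (⟨0,[(34,0)]⟩,⟨0,[(33,0)]⟩) .k 1 (⟨0,[]⟩,⟨0,[]⟩) .k .k) (.S ⟨1,0,[0,0,-1,-1,0,0,0,-1],
  [1,-1,-1],[1,1,-1,-2,0,0,0,-1],(⟨0,[(23,0)]⟩,⟨0,[(35,0),(3,0)]⟩),⟨0,[(8,0)]⟩,.k,(.r (-1) ⟨1,[(0,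
  0),(8,0),(0,0),(0,0),(34,0)]⟩ ⟨0,[(7,0),(40,0)]⟩),⟨true,0,⟨0,[(43,0)]⟩,⟨0,[(44,0)]⟩⟩,⟨false,1,⟨3,
  [(13,1),(12,1),(10,0),(8,0)]⟩,⟨0,[]⟩⟩,⟨false,0,⟨0,[]⟩,⟨3,[(13,1),(12,1),(10,0),(8,0)]⟩⟩,⟨true,0,
  ⟨0,[(44,0)]⟩,⟨0,[(43,0)]⟩⟩,[.a ⟨true,0,⟨0,[(0,0)]⟩,⟨0,[(17,0),(26,0)]⟩⟩ ⟨true,0,⟨0,[(9,0),(4,0)]⟩,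
  ⟨0,[(7,0)]⟩⟩ ⟨false,1,⟨0,[(0,0),(0,0)]⟩,⟨9,[(6,0),(0,4),(4,1),(9,1),(7,1),(14,0)]⟩⟩,.o ⟨false,1,
  ⟨1,[(0,1),(36,0),(8,0)]⟩,⟨2,[(1,1),(4,1),(5,0)]⟩⟩,.o ⟨false,0,⟨0,[(33,0)]⟩,⟨0,[(11,0)]⟩⟩,.o
  ⟨false,0,⟨1,[(32,0),(0,2)]⟩,⟨0,[(1,0)]⟩⟩]⟩) (.R ⟨1,false,false,true,[0,0,1],[1,-1],[1,1,-1,-1],
  (⟨0,[(35,0)]⟩,⟨0,[(34,0)]⟩),(⟨0,[(38,0)]⟩,⟨0,[(39,0)]⟩),⟨0,[(24,0)]⟩,.k,.k,.k,.k,.k,.k,⟨true,0,⟨0,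
  []⟩,⟨1,[(32,0),(0,0)]⟩⟩,⟨false,0,⟨6,[(3,0),(2,0),(6,0),(4,1),(3,1),(3,0),(2,1)]⟩,⟨0,[(11,0)]⟩⟩,
  ⟨true,0,⟨0,[(10,0)]⟩,⟨27,[(0,1),(5,0),(0,12),(4,1),(9,6),(7,9),(10,0)]⟩⟩,⟨true,0,⟨0,[(18,0),(24,
  0)]⟩,⟨0,[(0,0)]⟩⟩,⟨true,0,⟨0,[(10,0),(33,0)]⟩,⟨4,[(3,0),(3,1),(4,0),(6,0),(2,0),(10,0)]⟩⟩,⟨false,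
  0,⟨0,[(18,0)]⟩,⟨17,[(1,6),(1,8),(3,8),(3,1),(1,0),(7,0),(19,2),(4,3)]⟩⟩,[.o ⟨false,0,⟨0,[(43,0)]⟩,
  ⟨14,[(4,2),(2,1),(7,1),(5,2),(19,3),(2,8),(1,4)]⟩⟩,.a ⟨true,0,⟨0,[(16,0),(1,0)]⟩,⟨0,[(44,0)]⟩⟩
  ⟨false,1,⟨1,[(9,0),(3,0),(7,0)]⟩,⟨2,[(7,0),(7,0),(32,0)]⟩⟩ ⟨true,0,⟨1,[(3,0),(14,0),(3,0)]⟩,⟨0,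
  [(0,0),(13,0)]⟩⟩,.o ⟨false,1,⟨3,[(11,1),(13,0),(0,0),(5,1),(4,0)]⟩,⟨0,[(20,0)]⟩⟩,.e ⟨true,0,⟨0,
  [(9,0),(34,0)]⟩,⟨3,[(7,1),(6,1),(17,0),(0,0),(14,1)]⟩⟩ ⟨true,0,⟨12,[(9,3),(8,4),(0,4),(2,4),(6,2),
  (10,1)]⟩,⟨0,[(0,0),(13,0)]⟩⟩]⟩)) (.Q [0,0,-1,0,1,0,2,0,0,-1,2] (.p true [0,0,1] [1,0,-1] (⟨0,[(34,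
  0)]⟩,⟨0,[(33,0)]⟩) .k 2 (⟨0,[(33,0)]⟩,⟨0,[(34,0)]⟩) .k (.r 0 ⟨0,[(6,1),(1,1)]⟩ ⟨0,[(10,0),(2,0),
  (3,0)]⟩)) (.K ⟨0,[1,-1,-1],(-1),0,(⟨0,[(23,0)]⟩,⟨0,[(35,0),(3,0)]⟩),.k,(.r (-1) ⟨7,[(9,2),(0,7),
  (2,0),(7,0),(21,1),(2,5)]⟩ ⟨0,[(7,0),(40,0)]⟩),.k,(.r (-1) ⟨1,[(10,1),(0,0),(2,0),(3,0),(27,0)]⟩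
  ⟨3,[(6,0),(0,0),(9,5),(4,2),(18,0)]⟩),.k,[⟨0,[(0,0)]⟩,⟨0,[(1,0)]⟩,⟨12,[(0,3),(5,7),(2,4),(7,4),
  (23,2),(2,6),(0,0)]⟩,⟨0,[(18,0),(24,0)]⟩]⟩) (.Q [0,0,-1,0,0,0,0,0,-1,1,0,-1] (.p false [0,0,0,0,
  1] [1] (⟨0,[(28,0)]⟩,⟨0,[(27,0)]⟩) .k 1 (⟨0,[]⟩,⟨0,[]⟩) .k .k) (.Q [0,0,0,0,0,-1,0,0,0,0,0,1]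
  (.ed false [1,-1,0,0,1] .k) (.Q [0,0,0,0,0,-2,0,0,0,0,0,1] (.p true [0,0,0,0,1] [] (⟨0,[(30,0)]⟩,
  ⟨0,[(29,0)]⟩) .k 0 (⟨0,[]⟩,⟨0,[]⟩) .k .k) (.S ⟨1,0,[0,1,-1,-1],[0,-1,0,0,1],[1,2,-1,-2],(⟨0,[(1,
  0)]⟩,⟨0,[(30,0),(11,0)]⟩),⟨0,[(0,0)]⟩,(.r 0 ⟨0,[(45,0)]⟩ ⟨2,[(10,0),(5,1),(1,0),(10,1),(10,0)]⟩),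
  (.r 0 ⟨0,[(5,0)]⟩ ⟨5,[(10,3),(5,1),(1,3),(9,2),(0,4),(10,0)]⟩),⟨true,0,⟨0,[(46,0)]⟩,⟨0,[(47,0)]⟩⟩,
  ⟨false,1,⟨3,[(16,1),(12,1),(10,0),(8,0)]⟩,⟨0,[]⟩⟩,⟨false,0,⟨0,[]⟩,⟨3,[(16,1),(12,1),(10,0),(8,
  0)]⟩⟩,⟨true,0,⟨0,[(47,0)]⟩,⟨0,[(46,0)]⟩⟩,[.o ⟨false,0,⟨24,[(4,6),(0,3),(3,0),(3,7),(1,7),(13,24),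
  (4,0),(9,7),(1,2)]⟩,⟨0,[(7,0),(39,0)]⟩⟩,.e ⟨false,0,⟨0,[(12,0)]⟩,⟨14,[(10,9),(5,6),(1,9),(5,6),(3,
  0),(0,0),(13,0)]⟩⟩ ⟨false,1,⟨1,[(12,0),(3,0),(7,0)]⟩,⟨2,[(10,0),(7,0),(32,0)]⟩⟩,.a ⟨true,0,⟨1,
  [(29,1),(5,0),(0,0)]⟩,⟨0,[(2,0)]⟩⟩ ⟨false,0,⟨1,[(6,0),(5,0),(21,0)]⟩,⟨3,[(10,1),(7,1),(28,1),(0,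
  0),(0,2)]⟩⟩ ⟨true,0,⟨0,[(45,0)]⟩,⟨2,[(10,0),(7,0),(32,0)]⟩⟩,.o ⟨false,0,⟨7,[(4,3),(24,7),(5,4),(0,
  0),(7,3),(5,1)]⟩,⟨6,[(2,5),(25,0),(15,1),(3,3)]⟩⟩]⟩) (.R ⟨0,false,false,false,[0,-1,0,0,1],[0,0,1,
  0,1],[1,2,-1,-1],(⟨0,[(1,0)]⟩,⟨0,[(0,0),(40,0)]⟩),(⟨0,[(31,0),(6,0)]⟩,⟨0,[(0,0),(10,0)]⟩),⟨0,[(0,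
  0)]⟩,(.r 0 ⟨0,[(45,0)]⟩ ⟨2,[(10,0),(5,1),(1,0),(10,1),(10,0)]⟩),.k,(.r 0 ⟨0,[(5,0)]⟩ ⟨5,[(10,3),
  (5,1),(1,3),(9,2),(0,4),(10,0)]⟩),.k,.k,.k,⟨true,0,⟨0,[(13,0)]⟩,⟨33,[(4,5),(1,8),(3,25),(6,0),(18,
  2),(7,1),(4,3)]⟩⟩,⟨false,1,⟨0,[(2,0),(11,0),(14,0)]⟩,⟨0,[(36,0)]⟩⟩,⟨false,0,⟨0,[]⟩,⟨3,[(16,1),(12,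
  1),(10,0),(8,0)]⟩⟩,⟨true,0,⟨0,[(20,0),(26,0)]⟩,⟨1,[(12,0),(4,0),(16,0),(1,0)]⟩⟩,⟨false,0,⟨0,[]⟩,
  ⟨0,[]⟩⟩,⟨false,0,⟨0,[]⟩,⟨0,[]⟩⟩,[.o ⟨false,0,⟨5,[(9,1),(3,1),(1,1),(4,3),(3,0),(4,4),(14,0)]⟩,⟨10,
  [(2,5),(0,1),(3,4),(0,1),(8,1),(3,6),(22,4),(4,2)]⟩⟩,.e ⟨false,0,⟨0,[(12,0),(34,0)]⟩,⟨2,[(10,0),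
  (5,1),(1,0),(10,1),(10,0)]⟩⟩ ⟨false,1,⟨0,[(20,0),(27,0)]⟩,⟨4,[(3,0),(4,0),(8,1),(3,1),(14,0),(7,
  0)]⟩⟩,.a ⟨true,0,⟨1,[(29,1),(5,0),(0,0)]⟩,⟨0,[(2,0)]⟩⟩ ⟨false,0,⟨4,[(12,1),(30,0),(2,0)]⟩,⟨11,
  [(10,3),(5,1),(1,3),(10,1),(10,0),(8,8)]⟩⟩ ⟨true,0,⟨2,[(12,0),(7,2),(22,0),(3,1)]⟩,⟨4,[(3,0),(4,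
  0),(8,1),(3,1),(14,0),(7,0)]⟩⟩,.o ⟨false,0,⟨7,[(4,3),(24,7),(5,4),(0,0),(7,3),(5,1)]⟩,⟨6,[(2,5),
  (25,0),(15,1),(3,3)]⟩⟩]⟩)) (.R ⟨0,false,false,false,[0,1,0,0,-1],[0,1],[0,0,1],(⟨0,[(0,0)]⟩,⟨0,
  [(30,0),(9,0)]⟩),(⟨0,[(41,0)]⟩,⟨0,[(40,0)]⟩),⟨0,[(30,0)]⟩,(.r (-1) ⟨2,[(9,0),(5,1),(1,0),(10,1),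
  (10,0)]⟩ ⟨0,[(44,0)]⟩),.k,.k,.k,.k,.k,⟨false,1,⟨7,[(11,0),(3,2),(7,2),(21,5),(2,1)]⟩,⟨0,[(46,
  0)]⟩⟩,⟨true,0,⟨0,[(28,0)]⟩,⟨24,[(1,19),(1,11),(1,1),(0,4),(0,6),(0,2),(5,1),(19,7),(8,9)]⟩⟩,⟨true,
  0,⟨0,[(45,0)]⟩,⟨0,[(46,0)]⟩⟩,⟨false,0,⟨0,[(28,0)]⟩,⟨0,[(6,0)]⟩⟩,⟨false,0,⟨0,[]⟩,⟨0,[]⟩⟩,⟨false,0,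
  ⟨0,[]⟩,⟨0,[]⟩⟩,[.a ⟨true,0,⟨0,[(46,0)]⟩,⟨0,[(18,0),(1,0)]⟩⟩ ⟨true,0,⟨1,[(34,0),(0,0)]⟩,⟨0,[]⟩⟩
  ⟨false,0,⟨0,[(28,0),(17,0)]⟩,⟨1,[(6,0),(4,0),(15,0)]⟩⟩,.o ⟨false,1,⟨14,[(6,2),(2,1),(7,1),(5,2),
  (19,3),(2,8),(1,4)]⟩,⟨0,[(45,0)]⟩⟩,.o ⟨false,1,⟨13,[(1,9),(4,2),(20,0),(15,7),(3,1),(2,2)]⟩,⟨1,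
  [(28,1),(5,0),(0,0)]⟩⟩,.o ⟨false,1,⟨8,[(1,2),(4,2),(0,0),(0,0),(18,2),(15,3),(1,1)]⟩,⟨0,[(28,
  0)]⟩⟩]⟩)) (.Q [0,0,0,0,0,0,-1,-1,-1,1,-1,-1] (.p false [0,0,1] [1,0,0,0,-1] (⟨0,[(36,0)]⟩,⟨0,[(35,
  0)]⟩) .k 2 (⟨0,[(28,0)]⟩,⟨0,[(29,0)]⟩) .k (.r 0 ⟨4,[(7,0),(5,1),(9,1),(7,1),(14,0)]⟩ ⟨1,[(12,0),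
  (2,0),(3,0),(27,0)]⟩)) (.Q [0,0,0,0,0,-1,0,0,0,0,0,1] (.ed false [1,-1,0,0,1] .k) (.S ⟨1,0,[0,2],
  [0,0,0,0,1],[1,1,0,-1],(⟨0,[(31,0)]⟩,⟨0,[(30,0)]⟩),⟨0,[(0,0)]⟩,.k,(.r 0 ⟨0,[(45,0)]⟩ ⟨8,[(2,3),(7,
  2),(5,5),(1,2),(5,1),(3,0),(0,0)]⟩),⟨false,1,⟨0,[(46,0),(2,0)]⟩,⟨0,[(47,0)]⟩⟩,⟨true,0,⟨0,[(51,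
  0)]⟩,⟨0,[]⟩⟩,⟨true,0,⟨0,[]⟩,⟨0,[(51,0)]⟩⟩,⟨false,0,⟨0,[(47,0)]⟩,⟨0,[(46,0),(2,0)]⟩⟩,[.e ⟨false,0,
  ⟨4,[(12,1),(30,0),(2,0)]⟩,⟨5,[(10,1),(5,1),(1,1),(5,1),(23,0),(0,0)]⟩⟩ ⟨false,0,⟨0,[(43,0)]⟩,⟨0,
  [(49,0)]⟩⟩,.o ⟨false,0,⟨6,[(2,4),(6,1),(2,0),(0,1),(10,1),(18,0)]⟩,⟨0,[(7,0)]⟩⟩,.a ⟨true,0,⟨0,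
  [(29,0)]⟩,⟨0,[(1,0),(18,0)]⟩⟩ ⟨true,0,⟨0,[(46,0)]⟩,⟨0,[(47,0)]⟩⟩ ⟨false,0,⟨0,[(51,0)]⟩,⟨0,[(49,
  0)]⟩⟩,.o ⟨false,0,⟨0,[(2,0)]⟩,⟨2,[(1,0),(5,1),(1,0),(2,0),(1,0),(33,0)]⟩⟩]⟩) (.R ⟨0,false,false,
  true,[0,1,0,0,-1],[1,0,0,0,-1],[0,0,1],(⟨0,[(0,0)]⟩,⟨0,[(31,0),(9,0)]⟩),(⟨0,[(30,0)]⟩,⟨0,[(31,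
  0)]⟩),⟨0,[(31,0)]⟩,(.r (-1) ⟨8,[(2,3),(7,2),(5,5),(1,2),(5,1),(3,0),(0,0)]⟩ ⟨0,[(45,0)]⟩),.k,.k,
  .k,.k,.k,⟨true,0,⟨1,[(35,0),(0,0)]⟩,⟨0,[]⟩⟩,⟨false,0,⟨0,[(41,0),(0,0)]⟩,⟨3,[(24,0),(3,0),(15,0),
  (3,0)]⟩⟩,⟨true,0,⟨0,[(46,0)]⟩,⟨0,[(47,0)]⟩⟩,⟨false,0,⟨0,[(19,0),(1,0)]⟩,⟨14,[(7,2),(2,1),(7,1),(5,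
  2),(19,3),(2,8),(1,4)]⟩⟩,⟨false,0,⟨0,[]⟩,⟨0,[]⟩⟩,⟨false,0,⟨0,[]⟩,⟨0,[]⟩⟩,[.a ⟨true,0,⟨0,[(1,0),
  (18,0)]⟩,⟨0,[(29,0)]⟩⟩ ⟨true,0,⟨1,[(35,0),(0,0)]⟩,⟨0,[]⟩⟩ ⟨false,0,⟨0,[(41,0),(0,0)]⟩,⟨3,[(24,0),
  (3,0),(15,0),(3,0)]⟩⟩,.o ⟨false,1,⟨0,[(7,0)]⟩,⟨6,[(2,4),(6,1),(2,0),(0,1),(10,1),(18,0)]⟩⟩,.o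
  ⟨false,1,⟨1,[(1,0),(5,0),(4,0),(7,0),(23,0),(2,1)]⟩,⟨13,[(2,4),(1,1),(4,0),(6,2),(0,0),(11,11),(5,
  1),(10,1)]⟩⟩,.o ⟨false,1,⟨17,[(1,5),(5,10),(1,1),(4,1),(0,3),(12,0),(14,1),(0,5),(6,0)]⟩,⟨0,[(29,
  0)]⟩⟩]⟩)) (.Q [0,0,0,0,0,-1,0,0,0,1,0,-1] (.ed true [0,1,0,0,1] .k) (.S ⟨1,0,[],[1,0,0,0,-1],[0,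
  -1],(⟨0,[(30,0)]⟩,⟨0,[(31,0)]⟩),⟨0,[(0,0)]⟩,.k,(.r (-1) ⟨7,[(12,2),(3,0),(7,0),(21,1),(2,5)]⟩ ⟨2,
  [(10,0),(7,0),(32,3)]⟩),⟨false,1,⟨4,[(2,1),(13,2),(7,0),(24,0)]⟩,⟨0,[]⟩⟩,⟨true,0,⟨0,[(51,0)]⟩,⟨0,
  []⟩⟩,⟨true,0,⟨0,[(47,0)]⟩,⟨0,[(46,0)]⟩⟩,⟨false,0,⟨0,[(47,0)]⟩,⟨0,[(46,0),(2,0)]⟩⟩,[.e ⟨false,1,⟨1,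
  [(48,0),(0,0)]⟩,⟨0,[(51,0)]⟩⟩ ⟨false,1,⟨4,[(16,1),(7,1),(3,0),(0,0),(13,0)]⟩,⟨0,[]⟩⟩,.o ⟨false,1,
  ⟨0,[(7,0)]⟩,⟨0,[(1,0),(32,0)]⟩⟩,.e ⟨false,1,⟨0,[(49,0)]⟩,⟨0,[(51,0)]⟩⟩ ⟨false,1,⟨4,[(2,1),(13,2),
  (7,0),(24,0)]⟩,⟨0,[]⟩⟩,.a ⟨true,0,⟨0,[(4,0),(2,0),(5,0),(6,0),(26,0)]⟩,⟨0,[(1,0),(2,0),(7,0),(0,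
  0),(33,2),(1,0)]⟩⟩ ⟨true,1,⟨1,[(48,0),(0,0)]⟩,⟨2,[(4,0),(4,1),(3,2),(1,0)]⟩⟩ ⟨false,1,⟨1,[(48,0),
  (0,0)]⟩,⟨1,[(35,0),(0,0)]⟩⟩]⟩) (.Q [0,0,0,0,0,0,0,0,1,-1,0,1] (.p true [0,0,0,0,1] [1] (⟨0,[(31,
  0)]⟩,⟨0,[(30,0)]⟩) .k 1 (⟨0,[]⟩,⟨0,[]⟩) .k .k) (.R ⟨1,false,false,true,[0,0,1],[1,0,0,0,-1],[0,1,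
  0,0,0,0,0,1],(⟨0,[(39,0)]⟩,⟨0,[(38,0)]⟩),(⟨0,[(31,0)]⟩,⟨0,[(32,0)]⟩),⟨0,[(28,0)]⟩,.k,.k,.k,.k,(.r
  0 ⟨0,[(16,0),(16,0)]⟩ ⟨4,[(3,1),(13,2),(1,4),(5,0),(24,0)]⟩),.k,⟨false,0,⟨8,[(10,3),(2,2),(2,1),
  (4,2),(11,4),(11,0),(3,2)]⟩,⟨1,[(15,0),(2,0),(3,0),(27,0)]⟩⟩,⟨true,0,⟨0,[(5,0),(2,0),(4,0),(34,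
  1)]⟩,⟨0,[(2,0),(15,0)]⟩⟩,⟨true,0,⟨0,[(52,0)]⟩,⟨0,[]⟩⟩,⟨false,1,⟨0,[(8,0),(13,0)]⟩,⟨0,[(2,0)]⟩⟩,
  ⟨false,0,⟨0,[(48,0)]⟩,⟨0,[(47,0),(2,0)]⟩⟩,⟨false,1,⟨0,[(8,0),(13,0),(25,0)]⟩,⟨1,[(0,0),(1,0),(4,
  0)]⟩⟩,[.o ⟨false,1,⟨0,[(29,0)]⟩,⟨0,[(0,0)]⟩⟩,.o ⟨false,1,⟨0,[(8,0)]⟩,⟨1,[(0,0),(2,0),(40,0)]⟩⟩,.o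
  ⟨false,1,⟨2,[(3,0),(11,1),(13,0),(6,0)]⟩,⟨0,[(24,0)]⟩⟩,.a ⟨true,0,⟨0,[(36,0)]⟩,⟨0,[(33,0)]⟩⟩
  ⟨true,0,⟨8,[(10,3),(2,2),(2,1),(4,2),(11,4),(11,0),(3,2)]⟩,⟨0,[(18,0)]⟩⟩ ⟨false,1,⟨0,[(8,0),(24,
  0)]⟩,⟨0,[(2,0),(15,0)]⟩⟩]⟩) (.K ⟨0,[1,1,0,0,-1],0,0,(⟨0,[(31,0),(11,0)]⟩,⟨1,[(1,0),(10,0),(15,0),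
  (3,0)]⟩),(.r (-1) ⟨8,[(3,3),(7,2),(5,5),(1,2),(5,1),(3,0),(0,0)]⟩ ⟨0,[(46,0)]⟩),.k,(.r (-1) ⟨8,
  [(3,1),(7,5),(5,2),(1,5),(5,0),(3,4),(0,4)]⟩ ⟨0,[(6,0)]⟩),(.r (-1) ⟨4,[(3,1),(13,2),(1,4),(5,0),
  (24,0)]⟩ ⟨0,[(16,0),(16,0)]⟩),.k,[⟨0,[(2,0),(15,0)]⟩,⟨0,[(0,0)]⟩,⟨4,[(3,4),(9,0),(30,2),(2,2)]⟩,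
  ⟨0,[(0,0),(47,0)]⟩]⟩))))))))))

theorem ok10 : chk K t10 l17 = true := by decide +kernel

noncomputable def t11 : Tre :=
  (.R ⟨2,true,false,false,[0,1],[1,0,0,0,-1],[1,1,1],(⟨0,[]⟩,⟨0,[]⟩),(⟨0,[(23,0)]⟩,⟨0,[(24,0)]⟩),⟨0,
  []⟩,.k,.k,.k,(.r 0 ⟨2,[(3,0),(7,0),(32,3)]⟩ ⟨7,[(5,2),(3,0),(7,0),(21,1),(2,5)]⟩),.k,.k,⟨true,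
  (-1),⟨0,[(2,0),(2,0),(4,0)]⟩,⟨0,[(42,0)]⟩⟩,⟨false,1,⟨0,[(9,0),(34,0)]⟩,⟨21,[(0,15),(4,7),(11,2),
  (4,2),(14,0),(4,11)]⟩⟩,⟨true,0,⟨0,[(39,0)]⟩,⟨0,[(40,0)]⟩⟩,⟨false,2,⟨0,[(9,0),(29,0),(2,0)]⟩,⟨0,
  [(0,0)]⟩⟩,⟨false,0,⟨0,[]⟩,⟨3,[(9,1),(12,1),(10,0),(8,0)]⟩⟩,⟨true,1,⟨0,[(9,0)]⟩,⟨0,[(0,0),(38,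
  0)]⟩⟩,[]⟩)

theorem ok11 : chk K t11 l18 = true := by decide +kernel

noncomputable def t12 : Tre :=
  (.Q [0,0,1,0,0,0,1,0,-1,0,1,-1] (.p true [0,0,1] [0,0,0,0,1] (⟨0,[(32,0)]⟩,⟨0,[(31,0)]⟩) .k 2 (⟨0,
  [(25,0)]⟩,⟨0,[(24,0)]⟩) .k (.r (-1) ⟨36,[(1,15),(0,1),(1,16),(8,17),(4,15),(0,8),(18,2),(4,1)]⟩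
  ⟨2,[(7,0),(3,0),(0,0),(24,0)]⟩)) (.R ⟨1,false,false,true,[0,0,1],[0,0,0,0,1],[0,1,1],(⟨0,[(33,
  0)]⟩,⟨0,[(32,0)]⟩),(⟨0,[(26,0)]⟩,⟨0,[(25,0)]⟩),⟨0,[(22,0)]⟩,.k,.k,.k,.k,(.r (-1) ⟨28,[(2,6),(0,
  10),(3,1),(6,17),(4,6),(0,8),(18,2),(4,11)]⟩ ⟨0,[(13,0),(32,0)]⟩),.k,⟨false,1,⟨3,[(11,1),(12,1),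
  (10,0),(8,0)]⟩,⟨2,[(7,0),(30,0),(3,1)]⟩⟩,⟨true,0,⟨0,[(18,0),(5,0)]⟩,⟨0,[(0,0)]⟩⟩,⟨true,0,⟨0,[(12,
  0),(33,0)]⟩,⟨0,[(3,0)]⟩⟩,⟨false,0,⟨0,[(24,0),(4,0)]⟩,⟨0,[(1,0),(13,0)]⟩⟩,⟨false,0,⟨0,[(13,0)]⟩,
  ⟨28,[(2,6),(0,10),(3,1),(6,17),(4,6),(0,8),(18,2),(4,11)]⟩⟩,⟨false,0,⟨0,[(24,0),(4,0),(12,0)]⟩,⟨0,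
  [(1,0),(12,0)]⟩⟩,[.o ⟨false,0,⟨13,[(4,2),(3,0),(1,4),(1,1),(11,13),(4,4),(8,6),(0,2)]⟩,⟨0,[(1,
  0)]⟩⟩,.o ⟨false,0,⟨15,[(4,4),(2,1),(0,4),(1,0),(13,15),(4,0),(8,0),(0,4)]⟩,⟨1,[(1,0),(21,0)]⟩⟩,.o
  ⟨false,1,⟨3,[(9,1),(13,0),(0,0),(5,1),(4,0)]⟩,⟨0,[(18,0)]⟩⟩,.a ⟨true,0,⟨0,[(30,0)]⟩,⟨0,[(27,0)]⟩⟩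
  ⟨true,0,⟨0,[(46,0)]⟩,⟨0,[]⟩⟩ ⟨false,0,⟨2,[(4,0),(2,0),(10,0),(0,0),(4,1),(2,0),(1,0)]⟩,⟨0,[(1,0),
  (28,0)]⟩⟩]⟩) (.Q [0,0,0,1,0,0,1,1,-1,0,1,-1] (.p true [0,0,1] [0,0,0,0,1] (⟨0,[(33,0)]⟩,⟨0,[(32,
  0)]⟩) .k 2 (⟨0,[(26,0)]⟩,⟨0,[(25,0)]⟩) .k (.r (-1) ⟨36,[(2,15),(0,1),(1,16),(8,17),(4,15),(0,8),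
  (18,2),(4,1)]⟩ ⟨2,[(8,0),(3,0),(0,0),(24,0)]⟩)) (.Q [0,0,0,0,0,0,0,0,-1,1,0,-1] (.p false [0,0,0,
  0,1] [1] (⟨0,[(27,0)]⟩,⟨0,[(26,0)]⟩) .k 1 (⟨0,[]⟩,⟨0,[]⟩) .k .k) (.R ⟨1,false,false,true,[1,0,-1],
  [1,0,0,0,-1],[0,0,1],(⟨0,[(34,0)]⟩,⟨0,[(35,0)]⟩),(⟨0,[(27,0)]⟩,⟨0,[(28,0)]⟩),⟨0,[(23,0)]⟩,.k,.k,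
  .k,.k,(.r 0 ⟨0,[(9,0),(5,0)]⟩ ⟨10,[(4,1),(2,7),(5,3),(5,2),(1,3),(4,1),(6,2),(3,0)]⟩),.k,⟨true,0,
  ⟨1,[(32,0),(0,0)]⟩,⟨0,[]⟩⟩,⟨false,1,⟨1,[(1,0),(8,0),(0,0),(1,0)]⟩,⟨1,[(2,0),(23,0),(6,0)]⟩⟩,⟨true,
  0,⟨5,[(7,1),(4,0),(3,1),(2,0),(2,0),(10,1)]⟩,⟨0,[(10,0),(33,0)]⟩⟩,⟨false,1,⟨21,[(1,7),(1,2),(3,1),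
  (3,1),(1,11),(2,11),(4,0),(19,2),(4,0)]⟩,⟨0,[(2,0),(11,0)]⟩⟩,⟨true,0,⟨14,[(5,0),(0,0),(0,6),(11,
  0),(2,2),(7,4),(10,0)]⟩,⟨0,[(10,0)]⟩⟩,⟨true,0,⟨0,[(1,0)]⟩,⟨1,[(9,0),(4,0),(11,1),(4,0),(1,0)]⟩⟩,
  [.a ⟨true,0,⟨0,[(0,0)]⟩,⟨0,[(26,0)]⟩⟩ ⟨true,0,⟨1,[(32,0),(0,0)]⟩,⟨0,[]⟩⟩ ⟨false,1,⟨1,[(1,0),(8,0),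
  (0,0),(1,0)]⟩,⟨1,[(2,0),(23,0),(6,0)]⟩⟩,.o ⟨false,1,⟨1,[(3,0),(21,0)]⟩,⟨15,[(6,4),(2,1),(0,4),(1,
  0),(13,15),(4,0),(8,0),(0,4)]⟩⟩,.o ⟨false,0,⟨0,[(20,0)]⟩,⟨3,[(11,1),(13,0),(0,0),(5,1),(4,0)]⟩⟩,
  .o ⟨false,0,⟨0,[(33,0)]⟩,⟨0,[(11,0)]⟩⟩]⟩) (.R ⟨1,false,false,false,[0,0,1],[0,0,0,0,1],[0,1,1],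
  (⟨0,[(35,0)]⟩,⟨0,[(34,0)]⟩),(⟨0,[(28,0)]⟩,⟨0,[(27,0)]⟩),⟨0,[(24,0)]⟩,.k,.k,.k,.k,(.r (-1) ⟨28,[(4,
  6),(0,10),(3,1),(6,17),(4,6),(0,8),(18,2),(4,11)]⟩ ⟨0,[(15,0),(32,0)]⟩),.k,⟨true,0,⟨1,[(32,0),(0,
  0)]⟩,⟨0,[]⟩⟩,⟨false,0,⟨0,[(2,0)]⟩,⟨3,[(1,0),(8,0),(0,0),(1,0),(11,1),(6,1)]⟩⟩,⟨true,0,⟨0,[(14,0),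
  (33,0)]⟩,⟨0,[(5,0)]⟩⟩,⟨false,0,⟨0,[(0,0),(17,0)]⟩,⟨21,[(1,7),(1,2),(3,1),(3,1),(1,11),(2,11),(4,
  0),(19,2),(4,0)]⟩⟩,⟨false,0,⟨0,[(15,0)]⟩,⟨28,[(4,6),(0,10),(3,1),(6,17),(4,6),(0,8),(18,2),(4,
  11)]⟩⟩,⟨false,0,⟨0,[(2,0),(12,0)]⟩,⟨1,[(3,0),(8,0),(0,0),(2,0)]⟩⟩,[.o ⟨false,0,⟨8,[(0,5),(5,0),(7,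
  0),(11,2),(13,2),(0,0),(1,1)]⟩,⟨1,[(3,0),(21,0)]⟩⟩,.o ⟨false,0,⟨0,[(0,0)]⟩,⟨0,[(25,0)]⟩⟩,.o
  ⟨false,1,⟨3,[(11,1),(13,0),(0,0),(5,1),(4,0)]⟩,⟨0,[(20,0)]⟩⟩,.a ⟨true,0,⟨0,[(32,0)]⟩,⟨0,[(29,
  0)]⟩⟩ ⟨true,0,⟨0,[(48,0)]⟩,⟨0,[]⟩⟩ ⟨false,0,⟨0,[(2,0)]⟩,⟨1,[(3,0),(21,0),(6,1)]⟩⟩]⟩)) (.Q [0,0,-1,
  0,0,0,-1,0,-1,1,-1,-1] (.p false [0,0,1] [1,0,0,0,-1] (⟨0,[(34,0)]⟩,⟨0,[(33,0)]⟩) .k 2 (⟨0,[(26,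
  0)]⟩,⟨0,[(27,0)]⟩) .k (.r 0 ⟨24,[(4,3),(0,2),(12,5),(2,8),(7,11),(9,1),(0,2)]⟩ ⟨1,[(10,0),(2,0),
  (3,0),(27,0)]⟩)) (.R ⟨1,false,false,false,[0,0,1],[1,0,0,0,-1],[0,1,1],(⟨0,[(35,0)]⟩,⟨0,[(34,
  0)]⟩),(⟨0,[(27,0)]⟩,⟨0,[(28,0)]⟩),⟨0,[(24,0)]⟩,.k,.k,.k,.k,(.r 0 ⟨17,[(5,7),(3,3),(2,4),(6,4),(2,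
  4),(17,1)]⟩ ⟨3,[(13,1),(1,3),(10,1),(10,0),(8,0)]⟩),.k,⟨true,(-1),⟨0,[(6,0),(2,0),(4,0)]⟩,⟨0,[(46,
  0)]⟩⟩,⟨false,0,⟨0,[(0,0)]⟩,⟨3,[(11,1),(13,0),(0,4),(5,1),(4,0)]⟩⟩,⟨true,0,⟨0,[(14,0),(33,0)]⟩,⟨0,
  [(5,0)]⟩⟩,⟨false,1,⟨0,[(3,0),(14,0)]⟩,⟨5,[(6,1),(3,1),(1,1),(4,3),(3,0),(4,4),(14,0)]⟩⟩,⟨false,0,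
  ⟨0,[(15,0)]⟩,⟨28,[(4,6),(0,10),(3,1),(6,17),(4,6),(0,8),(18,2),(4,11)]⟩⟩,⟨false,1,⟨0,[(3,0),(14,
  0),(25,0)]⟩,⟨0,[(12,0),(13,0)]⟩⟩,[.o ⟨false,1,⟨1,[(3,0),(21,0)]⟩,⟨4,[(1,0),(4,1),(3,1),(1,0),(8,
  0),(4,2),(14,0)]⟩⟩,.o ⟨false,1,⟨0,[(3,0)]⟩,⟨3,[(1,0),(4,0),(5,0),(1,0),(11,2),(13,2),(0,0)]⟩⟩,.o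
  ⟨false,1,⟨3,[(11,1),(13,0),(0,0),(5,1),(4,0)]⟩,⟨0,[(20,0)]⟩⟩,.a ⟨true,0,⟨0,[(32,0)]⟩,⟨0,[(29,
  0)]⟩⟩ ⟨true,0,⟨0,[(48,0)]⟩,⟨0,[]⟩⟩ ⟨false,1,⟨0,[(3,0),(25,0)]⟩,⟨10,[(6,2),(3,3),(1,1),(1,0),(11,
  10),(5,8),(7,0),(0,2)]⟩⟩]⟩) (.Q [0,0,0,0,0,-1,0,0,0,0,0,1] (.ed false [1,-1,0,0,1] .k) (.Q [0,0,0,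
  -1,0,0,-1,-1,0,1,-1] (.p false [0,0,1] [1] (⟨0,[(36,0)]⟩,⟨0,[(35,0)]⟩) .k 1 (⟨0,[]⟩,⟨0,[]⟩) .k
  .k) (.S ⟨1,0,[0,0,-1,-1,0,0,0,-1],[1,-1,-1],[1,1,-1,-2,0,0,0,-1],(⟨0,[(25,0)]⟩,⟨0,[(37,0),(3,
  0)]⟩),⟨0,[(10,0)]⟩,.k,(.r (-1) ⟨7,[(3,0),(2,1),(4,2),(0,6),(0,0),(9,0),(24,3)]⟩ ⟨0,[(9,0),(40,
  0)]⟩),⟨true,0,⟨0,[(45,0)]⟩,⟨0,[(46,0)]⟩⟩,⟨false,1,⟨3,[(2,0),(12,1),(7,0),(11,0),(12,0)]⟩,⟨0,[]⟩⟩,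
  ⟨false,0,⟨0,[]⟩,⟨3,[(2,0),(12,1),(7,0),(11,0),(12,0)]⟩⟩,⟨true,0,⟨0,[(46,0)]⟩,⟨0,[(45,0)]⟩⟩,[.a
  ⟨true,0,⟨0,[(0,0)]⟩,⟨0,[(19,0),(26,0)]⟩⟩ ⟨true,0,⟨0,[(11,0),(4,0)]⟩,⟨0,[(9,0)]⟩⟩ ⟨false,1,⟨1,[(12,
  1),(34,0),(0,0)]⟩,⟨14,[(7,0),(0,0),(0,6),(11,0),(2,2),(7,4),(10,0)]⟩⟩,.o ⟨false,1,⟨2,[(0,1),(2,0),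
  (11,0),(27,0),(4,0)]⟩,⟨3,[(8,1),(2,0),(0,0),(0,0),(5,2),(23,0),(2,2)]⟩⟩,.o ⟨false,0,⟨0,[(35,0)]⟩,
  ⟨0,[(13,0)]⟩⟩,.o ⟨false,0,⟨1,[(34,0),(0,2)]⟩,⟨1,[(2,0),(2,0),(5,1),(1,0),(32,3)]⟩⟩]⟩) (.R ⟨1,
  false,false,true,[0,0,1],[1,0,0,0,-1],[1,1,0,-1,0,0,0,1],(⟨0,[(37,0)]⟩,⟨0,[(36,0)]⟩),(⟨0,[(29,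
  0)]⟩,⟨0,[(30,0)]⟩),⟨0,[(26,0)]⟩,.k,.k,.k,.k,(.r 0 ⟨17,[(7,7),(3,3),(2,4),(6,4),(2,4),(17,1)]⟩ ⟨31,
  [(2,5),(0,5),(5,3),(5,17),(1,29),(5,5),(15,2),(8,4)]⟩),.k,⟨false,0,⟨17,[(7,7),(3,3),(2,4),(6,4),
  (2,4),(17,1)]⟩,⟨1,[(17,1),(29,0),(0,0)]⟩⟩,⟨true,0,⟨0,[(5,0),(2,0),(2,0),(8,0)]⟩,⟨0,[(2,0)]⟩⟩,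
  ⟨true,0,⟨0,[(45,0)]⟩,⟨0,[(46,0)]⟩⟩,⟨false,1,⟨1,[(5,0),(9,0),(4,0),(12,0)]⟩,⟨1,[(0,0),(1,0),(1,0),
  (13,0)]⟩⟩,⟨false,0,⟨0,[]⟩,⟨3,[(2,0),(12,1),(7,0),(11,0),(12,0)]⟩⟩,⟨false,1,⟨1,[(5,0),(9,0),(4,0),
  (12,0),(12,1)]⟩,⟨0,[(0,0),(2,0),(14,0)]⟩⟩,[.o ⟨false,1,⟨0,[(27,0)]⟩,⟨0,[(0,0),(2,0)]⟩⟩,.o ⟨false,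
  1,⟨1,[(5,0),(21,0)]⟩,⟨36,[(2,17),(0,6),(0,11),(3,5),(2,1),(2,0),(27,13),(0,5)]⟩⟩,.o ⟨false,1,⟨1,
  [(2,0),(10,0),(13,0)]⟩,⟨0,[(22,0)]⟩⟩,.a ⟨true,0,⟨0,[(34,0)]⟩,⟨0,[(31,0)]⟩⟩ ⟨true,0,⟨17,[(7,7),(3,
  3),(2,4),(6,4),(2,4),(17,1)]⟩,⟨0,[(17,0)]⟩⟩ ⟨false,1,⟨1,[(5,0),(21,0),(3,1)]⟩,⟨0,[(2,0)]⟩⟩]⟩))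
  (.R ⟨0,false,false,false,[0,1,0,0,-1],[0,1],[0,0,1],(⟨0,[(0,0)]⟩,⟨0,[(29,0),(9,0)]⟩),(⟨0,[(40,
  0)]⟩,⟨0,[(39,0)]⟩),⟨0,[(29,0)]⟩,(.r (-1) ⟨3,[(1,0),(0,0),(5,1),(5,1),(1,0),(5,0),(3,0)]⟩ ⟨0,[(43,
  0)]⟩),.k,.k,.k,.k,.k,⟨false,1,⟨1,[(5,0),(16,0),(21,0)]⟩,⟨0,[(45,0)]⟩⟩,⟨true,0,⟨0,[(27,0)]⟩,⟨0,[(4,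
  0),(2,0),(2,0),(4,0)]⟩⟩,⟨true,0,⟨0,[(44,0)]⟩,⟨0,[(45,0)]⟩⟩,⟨false,0,⟨0,[(27,0)]⟩,⟨1,[(4,0),(21,
  0)]⟩⟩,⟨false,0,⟨0,[]⟩,⟨0,[]⟩⟩,⟨false,0,⟨0,[]⟩,⟨0,[]⟩⟩,[.a ⟨true,0,⟨0,[(45,0)]⟩,⟨0,[(17,0),(1,
  0)]⟩⟩ ⟨true,0,⟨1,[(33,0),(0,0)]⟩,⟨0,[]⟩⟩ ⟨false,0,⟨0,[(27,0),(17,0)]⟩,⟨3,[(4,0),(5,1),(15,2)]⟩⟩,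
  .o ⟨false,1,⟨13,[(4,4),(3,3),(7,3),(5,4),(19,2),(2,1),(0,0)]⟩,⟨0,[(44,0)]⟩⟩,.o ⟨false,1,⟨8,[(4,8),
  (2,2),(2,3),(0,2),(29,3),(0,2),(2,4)]⟩,⟨1,[(27,1),(5,0),(0,0)]⟩⟩,.o ⟨false,1,⟨11,[(4,4),(2,3),(2,
  1),(0,3),(14,6),(15,3)]⟩,⟨0,[(27,0)]⟩⟩]⟩)))))

theorem ok12 : chk K t12 l19 = true := by decide +kernel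


end Helper25.S1T.Ypp_1cP1
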