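import Pool.Agent.Helper25.S1T.Ypp_1cP2_q

set_option autoImplicit false
set_option linter.all false

namespace Helper25.S1T.Ypp_1cP2

open Helper25.KG Helper25.KW Helper55.KE Helper11.CT

noncomputable def t14 : Tre :=
  (.Q [0,0,-1,0,1,0,2,0,0,-1,2] (.p true [0,0,1] [1,0,-1] (⟨0,[(27,0)]⟩,⟨0,[(26,0)]⟩) .k 2 (⟨0,[(26,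
  0)]⟩,⟨0,[(27,0)]⟩) .k (.r 0 ⟨0,[(10,1),(1,1)]⟩ ⟨0,[(4,0),(2,0),(5,0)]⟩)) (.Q [0,-1,1,0,0,0,-1,0,
  -1,1,-1,-1] (.p false [0,0,1] [1,0,0,0,-1] (⟨0,[(28,0)]⟩,⟨0,[(27,0)]⟩) .k 2 (⟨0,[(20,0)]⟩,⟨0,[(21,
  0)]⟩) .k (.r 0 ⟨1,[(7,0),(7,0),(7,0),(14,0)]⟩ ⟨26,[(0,8),(5,0),(1,8),(5,17),(4,0),(15,1),(4,
  12)]⟩)) (.Q [0,0,-2,0,1,0,1,0,0,-1,1] (.p true [0,0,1] [1] (⟨0,[(29,0)]⟩,⟨0,[(28,0)]⟩) .k 1 (⟨0,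
  []⟩,⟨0,[]⟩) .k .k) (.R ⟨0,false,false,false,[1,-1,-1],[0,0,0,0,1],[1,1],(⟨0,[(18,0)]⟩,⟨1,[(3,0),
  (20,0),(2,0),(2,0)]⟩),(⟨0,[(23,0)]⟩,⟨0,[(22,0)]⟩),⟨0,[(3,0)]⟩,.k,.k,(.r (-1) ⟨5,[(5,1),(0,5),(32,
  1),(1,0),(0,4)]⟩ ⟨1,[(13,1),(13,0),(0,2),(11,3)]⟩),(.r (-1) ⟨0,[(6,0),(35,0)]⟩ ⟨0,[(25,0),(2,0),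
  (11,0)]⟩),.k,.k,⟨true,0,⟨0,[]⟩,⟨1,[(27,0),(0,0)]⟩⟩,⟨false,1,⟨0,[(0,0),(20,0)]⟩,⟨0,[(1,0),(42,
  0)]⟩⟩,⟨false,0,⟨0,[(13,0),(14,0),(11,0)]⟩,⟨0,[(6,0),(35,0)]⟩⟩,⟨true,0,⟨0,[(9,0),(11,0),(18,1)]⟩,
  ⟨0,[(1,0),(4,0)]⟩⟩,⟨false,0,⟨0,[]⟩,⟨0,[]⟩⟩,⟨false,0,⟨0,[]⟩,⟨0,[]⟩⟩,[.e ⟨false,0,⟨2,[(5,0),(30,0),
  (3,1)]⟩,⟨8,[(8,4),(12,4),(15,0),(4,1)]⟩⟩ ⟨false,1,⟨17,[(0,7),(1,4),(18,17),(14,8),(0,0),(3,2)]⟩,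
  ⟨0,[(1,0)]⟩⟩,.a ⟨true,0,⟨0,[(21,0)]⟩,⟨0,[(1,0),(4,0),(6,0),(26,0)]⟩⟩ ⟨true,0,⟨0,[]⟩,⟨1,[(27,0),(0,
  0)]⟩⟩ ⟨false,1,⟨0,[(0,0),(20,0)]⟩,⟨0,[(1,0),(42,0)]⟩⟩,.o ⟨false,0,⟨0,[(28,0)]⟩,⟨0,[(7,0)]⟩⟩,.o
  ⟨false,0,⟨1,[(27,0),(0,2)]⟩,⟨0,[(0,0)]⟩⟩]⟩) (.K ⟨0,[1,-1,-1],(-1),0,(⟨0,[(18,0)]⟩,⟨1,[(3,0),(20,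
  0),(2,0),(2,0)]⟩),.k,(.r (-1) ⟨5,[(5,1),(0,5),(32,1),(1,0),(0,4)]⟩ ⟨16,[(0,14),(10,0),(13,17),(2,
  2),(8,2),(2,32),(1,8)]⟩),.k,(.r (-1) ⟨27,[(2,9),(3,26),(3,8),(5,19),(20,1),(1,0),(2,13)]⟩ ⟨3,[(0,
  1),(12,7),(3,2),(19,0),(2,3)]⟩),.k,[⟨0,[(2,0)]⟩,⟨0,[(0,0)]⟩,⟨0,[(9,0),(30,1)]⟩,⟨0,[(16,0),(22,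
  0)]⟩]⟩)) (.Q [0,0,0,1,0,0,0,0,1,-1,0,1] (.p true [0,0,0,0,1] [1] (⟨0,[(22,0)]⟩,⟨0,[(21,0)]⟩) .k 1
  (⟨0,[]⟩,⟨0,[]⟩) .k .k) (.Q [0,1,0,0,0,0,0,0,0,-1] (.pp true [-1,1]) (.Q [0,0,0,0,0,0,-2,-2,0,1,
  -2] (.p false [0,0,1] [1,0,-1] (⟨0,[(31,0)]⟩,⟨0,[(30,0)]⟩) .k 2 (⟨0,[(30,0)]⟩,⟨0,[(31,0)]⟩) .k
  (.r 0 ⟨0,[(14,1),(1,1)]⟩ ⟨16,[(3,9),(7,13),(5,19),(3,0),(0,0),(15,1),(3,1)]⟩)) (.Q [0,0,-2,0,1,0,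
  1,0,0,-1,1] (.p true [0,0,1] [1] (⟨0,[(32,0)]⟩,⟨0,[(31,0)]⟩) .k 1 (⟨0,[]⟩,⟨0,[]⟩) .k .k) (.R ⟨0,
  false,false,true,[1,-1,-1],[0,-1,1],[1,1],(⟨0,[(21,0)]⟩,⟨1,[(6,0),(20,0),(2,0),(2,0)]⟩),(⟨0,[(22,
  0)]⟩,⟨0,[(32,0),(2,0)]⟩),⟨0,[(6,0)]⟩,.k,.k,(.r (-1) ⟨2,[(1,0),(3,0),(2,1),(0,0),(32,0),(2,1)]⟩ ⟨1,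
  [(16,1),(13,0),(0,2),(11,3)]⟩),.k,.k,.k,⟨true,0,⟨0,[(14,0)]⟩,⟨0,[(15,0),(2,0)]⟩⟩,⟨false,1,⟨0,[(5,
  0)]⟩,⟨0,[(20,0)]⟩⟩,⟨false,0,⟨0,[(16,0),(14,0),(11,0)]⟩,⟨0,[(9,0),(35,0)]⟩⟩,⟨true,0,⟨0,[(12,0),(3,
  0),(26,0)]⟩,⟨0,[(1,0)]⟩⟩,⟨false,0,⟨0,[]⟩,⟨0,[]⟩⟩,⟨false,0,⟨0,[]⟩,⟨0,[]⟩⟩,[.o ⟨false,0,⟨0,[(12,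
  0)]⟩,⟨9,[(1,4),(1,5),(7,5),(28,0),(2,3),(1,1)]⟩⟩,.a ⟨true,0,⟨0,[(15,0)]⟩,⟨0,[(14,0),(12,0)]⟩⟩
  ⟨true,0,⟨0,[]⟩,⟨1,[(30,0),(0,0)]⟩⟩ ⟨false,1,⟨0,[(0,0),(14,0)]⟩,⟨0,[(14,0),(5,0)]⟩⟩,.o ⟨false,0,⟨0,
  [(31,0)]⟩,⟨0,[(10,0)]⟩⟩,.o ⟨false,0,⟨1,[(30,0),(0,2)]⟩,⟨0,[(0,0)]⟩⟩]⟩) (.K ⟨0,[1,-1,-1],(-1),0,
  (⟨0,[(21,0)]⟩,⟨1,[(6,0),(20,0),(2,0),(2,0)]⟩),.k,(.r (-1) ⟨2,[(1,0),(3,0),(2,1),(0,0),(32,0),(2,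
  1)]⟩ ⟨4,[(0,4),(2,0),(7,0),(16,4),(11,0),(2,8),(1,1)]⟩),.k,(.r (-1) ⟨3,[(1,1),(3,1),(3,2),(3,0),
  (28,0),(2,1)]⟩ ⟨3,[(0,1),(15,7),(3,2),(19,0),(2,3)]⟩),.k,[⟨0,[(5,0)]⟩,⟨0,[(0,0)]⟩,⟨0,[(12,0),(30,
  1)]⟩,⟨0,[(1,0),(15,0)]⟩]⟩)) (.Q [0,0,0,0,0,2,0,0,0,0,-1] (.p false [0,0,1] [] (⟨0,[(32,0)]⟩,⟨0,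
  [(31,0)]⟩) .k 0 (⟨0,[]⟩,⟨0,[]⟩) .k .k) (.I [0,-1,1,0,0,0,0,2] (.R ⟨0,false,false,false,[1,-1,-1],
  [0,-1,1],[1,1,-1,-1,0,0,0,-1],(⟨0,[(22,0)]⟩,⟨1,[(7,0),(20,0),(2,0),(2,0)]⟩),(⟨0,[(23,0)]⟩,⟨1,[(1,
  0),(26,0),(2,0),(1,0)]⟩),⟨0,[(7,0)]⟩,.k,.k,(.r (-1) ⟨5,[(9,1),(0,5),(32,1),(1,0),(0,4)]⟩ ⟨4,[(0,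
  2),(14,3),(13,2),(2,2),(11,5)]⟩),.k,.k,.k,⟨true,0,⟨0,[(10,0),(4,0)]⟩,⟨0,[(0,0)]⟩⟩,⟨false,1,⟨0,[(6,
  0)]⟩,⟨0,[(21,0)]⟩⟩,⟨false,0,⟨0,[]⟩,⟨8,[(12,4),(12,4),(15,0),(4,1)]⟩⟩,⟨true,0,⟨0,[(2,0)]⟩,⟨0,[(20,
  0),(9,0)]⟩⟩,⟨false,0,⟨0,[]⟩,⟨0,[]⟩⟩,⟨false,0,⟨0,[]⟩,⟨0,[]⟩⟩,[.a ⟨true,0,⟨0,[(16,0)]⟩,⟨0,[(15,0),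
  (12,0)]⟩⟩ ⟨true,0,⟨0,[(10,0)]⟩,⟨0,[(0,0),(14,0)]⟩⟩ ⟨false,1,⟨3,[(2,1),(3,1),(2,1),(35,0),(0,0)]⟩,
  ⟨0,[(15,0),(5,0)]⟩⟩,.o ⟨false,1,⟨4,[(16,3),(1,0),(22,0),(4,2)]⟩,⟨0,[(30,0),(13,0)]⟩⟩,.o ⟨false,0,
  ⟨0,[(32,0)]⟩,⟨0,[(11,0)]⟩⟩,.o ⟨false,0,⟨1,[(31,0),(0,2)]⟩,⟨9,[(2,2),(3,1),(2,5),(0,5),(30,0),(2,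
  17),(1,5)]⟩⟩]⟩) (.Q [0,0,0,1,0,0,-2,-2,0,1,-2] (.p false [0,0,1] [1,0,-1] (⟨0,[(34,0)]⟩,⟨0,[(33,
  0)]⟩) .k 2 (⟨0,[(33,0)]⟩,⟨0,[(34,0)]⟩) .k (.r 0 ⟨0,[(2,0),(18,0)]⟩ ⟨16,[(6,9),(7,13),(5,19),(3,0),
  (0,0),(15,1),(3,1)]⟩)) (.I [0,0,-1,-1,0,0,0,2] (.R ⟨1,false,false,true,[0,0,1],[1,0,-1],[0,1],(⟨0,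
  [(36,0)]⟩,⟨0,[(35,0)]⟩),(⟨0,[(35,0)]⟩,⟨0,[(36,0)]⟩),⟨0,[(25,0)]⟩,.k,.k,.k,.k,(.r 0 ⟨0,[(0,0)]⟩
  ⟨36,[(1,18),(6,18),(1,9),(5,17),(0,17),(8,9),(2,9),(10,19),(2,3)]⟩),.k,⟨true,0,⟨1,[(4,0),(18,0)]⟩,
  ⟨0,[(16,0)]⟩⟩,⟨false,0,⟨0,[(21,0),(8,0)]⟩,⟨10,[(8,7),(1,0),(15,0),(2,0),(3,5),(6,1),(2,0)]⟩⟩,
  ⟨true,0,⟨4,[(2,0),(13,2),(25,1)]⟩,⟨1,[(4,0),(18,0)]⟩⟩,⟨true,0,⟨0,[(1,0),(43,0)]⟩,⟨0,[(4,0)]⟩⟩,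
  ⟨true,0,⟨4,[(2,0),(14,2),(24,1),(3,1)]⟩,⟨0,[(0,0),(15,0)]⟩⟩,⟨false,0,⟨0,[(1,0)]⟩,⟨9,[(4,4),(13,3),
  (1,5),(22,0),(4,7)]⟩⟩,[.o ⟨false,0,⟨0,[(32,0)]⟩,⟨6,[(4,1),(26,2),(11,0),(4,4)]⟩⟩,.a ⟨true,0,⟨0,
  [(22,0)]⟩,⟨0,[(19,0)]⟩⟩ ⟨false,1,⟨1,[(26,0),(0,0),(19,0)]⟩,⟨0,[]⟩⟩ ⟨true,0,⟨0,[(21,0),(0,0)]⟩,⟨0,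
  [(4,0),(11,0)]⟩⟩,.o ⟨false,1,⟨10,[(8,4),(1,1),(15,1),(2,1),(3,0),(6,3),(2,1)]⟩,⟨0,[(21,0)]⟩⟩,.e
  ⟨true,0,⟨2,[(11,0),(30,0),(3,1)]⟩,⟨1,[(33,0),(0,0)]⟩⟩ ⟨true,0,⟨11,[(1,5),(3,0),(5,2),(11,4),(6,1),
  (11,3)]⟩,⟨0,[(4,0),(11,0)]⟩⟩]⟩) (.Q [0,0,0,2,0,0,1,1,0,-1,1] (.p true [0,0,1] [1] (⟨0,[(36,0)]⟩,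
  ⟨0,[(35,0)]⟩) .k 1 (⟨0,[]⟩,⟨0,[]⟩) .k .k) (.Q [0,0,0,2,0,0,-1,-1,0,0,-1] (.p false [0,0,1] [] (⟨0,
  [(37,0)]⟩,⟨0,[(36,0)]⟩) .k 0 (⟨0,[]⟩,⟨0,[]⟩) .k .k) (.R ⟨1,false,false,true,[1,-1],[1,0,-1],[0,1,
  1,0,0,0,0,-1],(⟨0,[(42,0)]⟩,⟨0,[(43,0)]⟩),(⟨0,[(37,0)]⟩,⟨0,[(38,0)]⟩),⟨0,[(26,0),(0,0)]⟩,.k,.k,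
  (.r (-1) ⟨2,[(13,1),(33,1),(1,0),(0,1)]⟩ ⟨2,[(1,1),(17,1),(5,1),(9,2),(0,0)]⟩),.k,(.r (-1) ⟨9,
  [(13,4),(6,8),(1,0),(2,4),(19,0),(3,4),(0,2)]⟩ ⟨5,[(1,1),(17,7),(5,1),(9,2),(0,0)]⟩),.k,⟨true,0,
  ⟨1,[(35,0),(0,0)]⟩,⟨0,[]⟩⟩,⟨false,1,⟨5,[(25,0),(6,3),(12,0),(3,3)]⟩,⟨0,[(35,0)]⟩⟩,⟨false,0,⟨1,
  [(19,1),(15,0),(0,0)]⟩,⟨11,[(6,5),(6,5),(11,0),(6,9),(12,0),(3,0),(0,8)]⟩⟩,⟨true,0,⟨1,[(0,0),(33,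
  0),(17,0)]⟩,⟨0,[(20,0)]⟩⟩,⟨false,0,⟨5,[(1,1),(17,7),(5,1),(9,2),(0,0)]⟩,⟨1,[(6,0),(6,1),(11,0),
  (24,1)]⟩⟩,⟨false,0,⟨0,[(0,0)]⟩,⟨0,[(20,0),(26,0),(2,0)]⟩⟩,[.o ⟨false,0,⟨0,[(34,0)]⟩,⟨6,[(6,1),(26,
  2),(11,0),(4,4)]⟩⟩,.a ⟨true,0,⟨0,[(24,0)]⟩,⟨0,[(21,0)]⟩⟩ ⟨true,0,⟨0,[(2,0),(17,0),(2,0)]⟩,⟨1,[(6,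
  0),(18,0)]⟩⟩ ⟨false,1,⟨22,[(0,2),(2,9),(9,7),(31,1),(3,14),(0,3)]⟩,⟨1,[(6,0),(18,0),(9,1)]⟩⟩,.o
  ⟨false,0,⟨1,[(35,0),(0,0)]⟩,⟨9,[(28,0),(0,0),(15,1),(3,4)]⟩⟩,.o ⟨false,0,⟨0,[(35,0),(0,0)]⟩,⟨6,
  [(0,1),(0,1),(11,3),(31,0),(3,2),(0,1)]⟩⟩]⟩) (.I [0,0,0,1,0,0,0,0,1] (.I [0,0,0,0,0,-1,-1] (.I [0,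
  0,-1,0,0,0,0,2] (.I [0,0,0,-2,0,0,0,1] (.I [0,0,-1,2,0,0,0,1] (.I [0,0,-1,0,0,2,-1] (.C [(0,0),(0,
  2),(0,3),(3,0),(1,3),(2,0),(33,3)]) (.C [(0,0),(16,0),(20,0)])) (.C [(0,0),(5,0),(30,0)])) (.C
  [(0,0),(3,0),(22,0)])) (.C [(0,0),(2,0),(0,0),(21,0),(8,0)])) (.C [(0,0),(24,0),(3,0)])) (.C [(0,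
  0),(8,0),(21,0)]))) (.I [0,0,1,0,0,1,2] (.R ⟨1,false,false,true,[0,0,1],[1,0,-1],[0,1],(⟨0,[(38,
  0)]⟩,⟨0,[(37,0)]⟩),(⟨0,[(37,0)]⟩,⟨0,[(38,0)]⟩),⟨0,[(27,0)]⟩,.k,.k,.k,.k,(.x 0 ⟨0,[(0,0)]⟩ ⟨19,
  [(12,0),(12,19),(1,21),(0,0),(2,0),(6,17),(6,3),(3,10)]⟩),.k,⟨true,0,⟨1,[(6,0),(18,0)]⟩,⟨0,[(18,
  0)]⟩⟩,⟨false,0,⟨0,[(23,0),(8,0)]⟩,⟨10,[(10,7),(1,0),(15,0),(2,0),(3,5),(6,1),(2,0)]⟩⟩,⟨true,0,⟨7,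
  [(2,2),(1,0),(39,1),(2,2)]⟩,⟨1,[(6,0),(18,0)]⟩⟩,⟨true,0,⟨0,[(3,0),(43,0)]⟩,⟨0,[(6,0)]⟩⟩,⟨true,0,
  ⟨1,[(2,0),(41,0),(3,0)]⟩,⟨0,[(20,0),(2,0)]⟩⟩,⟨false,0,⟨0,[(3,0)]⟩,⟨9,[(6,4),(13,3),(1,5),(22,0),
  (4,7)]⟩⟩,[.o ⟨false,0,⟨0,[(34,0)]⟩,⟨6,[(6,1),(26,2),(11,0),(4,4)]⟩⟩,.a ⟨true,0,⟨0,[(24,0)]⟩,⟨0,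
  [(21,0)]⟩⟩ ⟨false,1,⟨1,[(28,0),(0,0),(19,0)]⟩,⟨0,[]⟩⟩ ⟨true,0,⟨4,[(1,0),(1,1),(19,0),(1,1)]⟩,⟨0,
  [(6,0),(11,0)]⟩⟩,.o ⟨false,1,⟨10,[(10,4),(1,1),(15,1),(2,1),(3,0),(6,3),(2,1)]⟩,⟨0,[(23,0)]⟩⟩,.e
  ⟨true,0,⟨2,[(13,0),(30,0),(3,1)]⟩,⟨1,[(35,0),(0,0)]⟩⟩ ⟨true,0,⟨11,[(3,5),(3,0),(5,2),(11,4),(6,1),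
  (11,3)]⟩,⟨0,[(6,0),(11,0)]⟩⟩]⟩) (.I [0,0,0,0,0,-1,-1] (.I [0,0,0,1,0,0,0,0,1] (.I [0,0,-1,0,0,0,0,
  2] (.I [0,0,0,-2,0,0,0,1] (.I [0,0,0,0,0,-1,1,2] (.I [0,0,-1,0,0,2,-1] (.I [0,0,0,0,0,1,2,2] (.I
  [0,0,0,-2,0,2,1,1] (.I [0,0,-1,0,0,2,1,2] (.I [-2,0,1,0,0,0,0,-1] (.C [(0,2),(0,1),(0,0),(7,1),(1,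
  1),(2,0),(0,0),(25,0),(6,5)]) (.C [(0,4),(4,1),(0,1),(3,0),(0,0),(0,5),(3,0),(16,0),(16,2)])) (.C
  [(0,0),(13,0),(0,0),(25,0)])) (.C [(0,0),(8,0),(3,0),(0,0)])) (.C [(0,0),(11,0),(0,0),(19,0)]))
  (.C [(0,0),(16,0),(20,0)])) (.C [(0,0),(10,0),(16,0),(2,0)])) (.C [(0,0),(4,0),(4,0),(16,0)]))
  (.C [(0,0),(8,0),(16,0),(8,0)])) (.C [(0,0),(9,0),(21,0)])) (.C [(0,0),(23,0),(3,0)]))))) (.R ⟨0,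
  false,false,true,[0,-1,1],[1,0,-1],[1,1,1],(⟨0,[(24,0)]⟩,⟨1,[(2,0),(26,0),(2,0),(1,0)]⟩),(⟨0,[(34,
  0)]⟩,⟨0,[(35,0)]⟩),⟨0,[(2,0)]⟩,.k,.k,(.r (-1) ⟨21,[(0,5),(9,13),(8,9),(2,10),(19,0),(3,7),(0,
  11)]⟩ ⟨1,[(16,1),(15,0),(0,0),(11,1)]⟩),(.r 0 ⟨0,[(0,0),(19,0),(8,0)]⟩ ⟨14,[(7,4),(7,4),(0,14),(4,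
  9),(3,7),(0,7),(15,0)]⟩),.k,.k,⟨false,0,⟨1,[(3,0),(18,0)]⟩,⟨0,[(12,0),(8,0)]⟩⟩,⟨true,0,⟨0,[(20,0),
  (8,0)]⟩,⟨0,[(3,0),(11,1)]⟩⟩,⟨false,0,⟨1,[(16,1),(15,0),(0,0)]⟩,⟨9,[(0,1),(2,2),(6,3),(18,9),(12,
  0),(3,0),(0,6)]⟩⟩,⟨true,0,⟨4,[(1,2),(14,3),(5,4),(18,0),(3,0)]⟩,⟨0,[(0,0)]⟩⟩,⟨false,0,⟨0,[]⟩,⟨0,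
  []⟩⟩,⟨false,0,⟨0,[]⟩,⟨0,[]⟩⟩,[.o ⟨false,0,⟨0,[(31,0)]⟩,⟨6,[(3,1),(26,2),(11,0),(4,4)]⟩⟩,.e ⟨false,
  0,⟨0,[]⟩,⟨1,[(25,0),(0,0),(19,0)]⟩⟩ ⟨false,1,⟨3,[(1,1),(20,3),(23,2),(0,0)]⟩,⟨0,[(3,0),(11,0)]⟩⟩,
  .a ⟨true,0,⟨0,[(32,0)]⟩,⟨0,[(29,0)]⟩⟩ ⟨false,0,⟨1,[(32,0),(0,0)]⟩,⟨1,[(46,0),(0,0)]⟩⟩ ⟨true,0,⟨5,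
  [(1,2),(2,0),(17,4),(6,1),(11,0)]⟩,⟨0,[(3,0),(11,0)]⟩⟩,.o ⟨false,0,⟨0,[(3,0),(11,1),(4,0)]⟩,⟨5,
  [(22,0),(6,3),(12,0),(3,3)]⟩⟩]⟩))) (.S ⟨1,0,[0,1,-1,-1,0,0,0,1],[0,-1,1],[1,0,-1,-2,0,0,0,1],(⟨0,
  [(22,0)]⟩,⟨0,[(32,0),(2,0)]⟩),⟨0,[(0,0)]⟩,.k,(.r (-1) ⟨9,[(8,4),(6,8),(1,0),(2,4),(19,0),(3,4),(0,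
  2)]⟩ ⟨1,[(14,1),(15,0),(0,0),(11,1)]⟩),⟨false,1,⟨0,[(42,0),(2,0)]⟩,⟨0,[(43,0)]⟩⟩,⟨true,0,⟨0,[(47,
  0)]⟩,⟨0,[]⟩⟩,⟨true,0,⟨0,[]⟩,⟨0,[(47,0)]⟩⟩,⟨false,0,⟨0,[(43,0)]⟩,⟨0,[(42,0),(2,0)]⟩⟩,[.o ⟨false,0,
  ⟨0,[(12,0)]⟩,⟨5,[(14,5),(5,0),(6,3),(12,0),(3,0),(0,2)]⟩⟩,.e ⟨false,1,⟨1,[(1,0),(6,1),(11,0),(24,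
  1)]⟩,⟨4,[(14,5),(13,0),(2,0),(7,1),(3,3)]⟩⟩ ⟨false,1,⟨17,[(1,3),(6,3),(6,9),(4,8),(19,0),(3,13),
  (0,1)]⟩,⟨0,[(14,0)]⟩⟩,.a ⟨true,0,⟨0,[(30,0)]⟩,⟨0,[(27,0)]⟩⟩ ⟨false,1,⟨9,[(8,4),(6,8),(1,0),(2,4),
  (19,0),(4,7)]⟩,⟨0,[(14,0),(28,0)]⟩⟩ ⟨true,0,⟨9,[(1,3),(6,3),(3,0),(4,0),(2,4),(18,1)]⟩,⟨0,[(14,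
  0)]⟩⟩,.o ⟨false,0,⟨0,[(1,0),(11,1),(4,0)]⟩,⟨5,[(20,0),(6,3),(12,0),(3,3)]⟩⟩]⟩))) (.R ⟨0,false,
  false,true,[1,-1,-1],[0,-1,1],[1,1],(⟨0,[(19,0)]⟩,⟨3,[(0,0),(3,1),(12,0),(8,0),(4,1)]⟩),(⟨0,[(20,
  0)]⟩,⟨0,[(30,0),(2,0)]⟩),⟨0,[(4,0)]⟩,.k,.k,(.r (-1) ⟨5,[(6,1),(0,5),(32,1),(1,0),(0,4)]⟩ ⟨1,[(14,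
  1),(13,0),(0,2),(11,3)]⟩),.k,.k,.k,⟨true,0,⟨0,[(12,0)]⟩,⟨0,[(13,0),(2,0)]⟩⟩,⟨false,1,⟨0,[(3,0)]⟩,
  ⟨0,[(18,0)]⟩⟩,⟨false,0,⟨0,[(14,0),(14,0),(11,0)]⟩,⟨0,[(7,0),(35,0)]⟩⟩,⟨true,0,⟨0,[(10,0),(3,0),
  (26,0)]⟩,⟨0,[(0,0),(6,0),(4,0),(3,1)]⟩⟩,⟨false,0,⟨0,[]⟩,⟨0,[]⟩⟩,⟨false,0,⟨0,[]⟩,⟨0,[]⟩⟩,[.o
  ⟨false,0,⟨0,[(10,0)]⟩,⟨5,[(12,5),(5,0),(6,3),(12,0),(3,0),(0,2)]⟩⟩,.a ⟨true,0,⟨0,[(13,0)]⟩,⟨0,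
  [(12,0),(12,0)]⟩⟩ ⟨true,0,⟨0,[]⟩,⟨1,[(28,0),(0,0)]⟩⟩ ⟨false,1,⟨3,[(0,2),(2,1),(2,2),(7,3),(23,0),
  (2,1)]⟩,⟨0,[(12,0),(5,0)]⟩⟩,.o ⟨false,0,⟨0,[(29,0)]⟩,⟨0,[(8,0)]⟩⟩,.o ⟨false,0,⟨1,[(28,0),(0,2)]⟩,
  ⟨3,[(0,2),(2,1),(2,2),(31,0),(2,5)]⟩⟩]⟩)) (.Q [0,0,0,2,0,0,0,0,1,-1,0,1] (.p true [0,0,0,0,1] [1]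
  (⟨0,[(23,0)]⟩,⟨0,[(22,0)]⟩) .k 1 (⟨0,[]⟩,⟨0,[]⟩) .k .k) (.R ⟨1,false,false,false,[1,-1],[0,0,0,0,
  1],[1,1],(⟨0,[(35,0)]⟩,⟨0,[(36,0)]⟩),(⟨0,[(24,0)]⟩,⟨0,[(23,0)]⟩),⟨0,[(19,0),(0,0)]⟩,.k,.k,(.r
  (-1) ⟨2,[(6,1),(33,1),(1,0),(0,1)]⟩ ⟨0,[(28,0),(0,0),(11,1)]⟩),(.r (-1) ⟨5,[(6,1),(33,1),(1,0),(0,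
  4)]⟩ ⟨4,[(12,2),(13,2),(2,2),(7,0),(3,1)]⟩),(.r (-1) ⟨0,[(6,0),(36,0)]⟩ ⟨0,[(12,0),(13,0),(2,0),
  (11,0)]⟩),.k,⟨true,0,⟨0,[]⟩,⟨1,[(28,0),(0,0)]⟩⟩,⟨false,1,⟨8,[(0,3),(5,3),(15,4),(15,0),(3,4),(0,
  1)]⟩,⟨1,[(1,1),(26,0),(0,0),(11,1)]⟩⟩,⟨false,0,⟨1,[(28,0),(0,0),(11,1)]⟩,⟨5,[(6,1),(33,1),(1,0),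
  (0,4)]⟩⟩,⟨true,0,⟨0,[(0,0),(39,0)]⟩,⟨0,[(1,0)]⟩⟩,⟨false,0,⟨1,[(28,0),(0,0),(11,3)]⟩,⟨3,[(6,2),(4,
  0),(1,0),(15,0),(10,0),(2,3)]⟩⟩,⟨false,0,⟨0,[(0,0)]⟩,⟨0,[(1,0),(38,0),(2,0)]⟩⟩,[.o ⟨false,0,⟨0,
  [(2,0),(26,0)]⟩,⟨4,[(1,3),(7,0),(28,0),(2,3),(1,1)]⟩⟩,.a ⟨true,0,⟨0,[(22,0)]⟩,⟨0,[(1,0),(39,0)]⟩⟩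
  ⟨true,0,⟨0,[]⟩,⟨1,[(28,0),(0,0)]⟩⟩ ⟨false,1,⟨8,[(0,3),(5,3),(15,4),(15,0),(3,4),(0,1)]⟩,⟨1,[(1,1),
  (26,0),(0,0),(11,1)]⟩⟩,.o ⟨false,0,⟨1,[(28,0),(0,0)]⟩,⟨9,[(21,0),(0,0),(15,1),(3,4)]⟩⟩,.o ⟨false,
  0,⟨0,[(28,0),(0,0)]⟩,⟨4,[(6,3),(31,0),(2,7),(0,0),(0,1)]⟩⟩]⟩) (.I [1,-1,2,2] (.N [0,-2,0,0,1] 0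
  ⟨0,[(7,0)]⟩ ⟨0,[(0,0)]⟩ (.x 0 ⟨0,[(6,0)]⟩ ⟨24,[(2,24),(4,23),(12,4),(0,4),(3,24),(7,39),(5,5),(2,
  72),(0,0),(0,11)]⟩)) (.I [1,1,-2,-1,0,0,0,-1] (.Q [0,0,0,0,0,0,-2,-2,0,1,-2] (.p false [0,0,1] [1,
  0,-1] (⟨0,[(33,0)]⟩,⟨0,[(32,0)]⟩) .k 2 (⟨0,[(32,0)]⟩,⟨0,[(33,0)]⟩) .k (.r 0 ⟨0,[(16,1),(1,1)]⟩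
  ⟨16,[(5,9),(7,13),(5,19),(3,0),(0,0),(15,1),(3,1)]⟩)) (.R ⟨0,false,false,true,[1,-1,-1],[0,-1,1],
  [1,1],(⟨0,[(22,0)]⟩,⟨1,[(7,0),(20,0),(2,0),(2,0)]⟩),(⟨0,[(23,0)]⟩,⟨0,[(33,0),(2,0)]⟩),⟨0,[(7,0)]⟩,
  .k,.k,(.r (-1) ⟨2,[(0,0),(5,0),(2,1),(0,0),(32,0),(2,1)]⟩ ⟨1,[(17,1),(13,0),(0,2),(11,3)]⟩),.k,.k,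
  .k,⟨true,0,⟨0,[(15,0)]⟩,⟨0,[(16,0),(2,0)]⟩⟩,⟨false,1,⟨0,[(6,0)]⟩,⟨0,[(21,0)]⟩⟩,⟨false,0,⟨0,[(17,
  0),(14,0),(11,0)]⟩,⟨0,[(10,0),(35,0)]⟩⟩,⟨true,0,⟨0,[(13,0),(3,0),(26,0)]⟩,⟨0,[(0,0)]⟩⟩,⟨false,0,
  ⟨0,[]⟩,⟨0,[]⟩⟩,⟨false,0,⟨0,[]⟩,⟨0,[]⟩⟩,[.o ⟨false,0,⟨0,[(13,0)]⟩,⟨9,[(0,1),(14,5),(5,2),(19,0),(2,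
  3),(0,2),(0,4)]⟩⟩,.a ⟨true,0,⟨0,[(16,0)]⟩,⟨0,[(15,0),(12,0)]⟩⟩ ⟨true,0,⟨0,[]⟩,⟨1,[(31,0),(0,0)]⟩⟩
  ⟨false,1,⟨11,[(1,7),(4,1),(2,1),(7,19),(23,1),(3,0),(0,4)]⟩,⟨0,[(15,0),(5,0)]⟩⟩,.o ⟨false,0,⟨0,
  [(32,0)]⟩,⟨0,[(11,0)]⟩⟩,.o ⟨false,0,⟨1,[(31,0),(0,2)]⟩,⟨21,[(1,17),(4,1),(10,17),(23,3),(2,17),(0,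
  2),(0,8)]⟩⟩]⟩) (.Q [0,0,0,0,0,-2,0,0,0,0,1] (.p true [0,0,1] [] (⟨0,[(34,0)]⟩,⟨0,[(33,0)]⟩) .k 0
  (⟨0,[]⟩,⟨0,[]⟩) .k .k) (.S ⟨1,0,[0,1,-1,-1,0,0,0,1],[0,-1,1],[1,0,-1,-2,0,0,0,1],(⟨0,[(24,0)]⟩,⟨0,
  [(34,0),(2,0)]⟩),⟨0,[(0,0)]⟩,.k,(.r (-1) ⟨9,[(10,4),(6,8),(1,0),(2,4),(19,0),(3,4),(0,2)]⟩ ⟨1,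
  [(16,1),(15,0),(0,0),(11,1)]⟩),⟨false,1,⟨0,[(44,0),(2,0)]⟩,⟨0,[(45,0)]⟩⟩,⟨true,0,⟨0,[(49,0)]⟩,⟨0,
  []⟩⟩,⟨true,0,⟨0,[]⟩,⟨0,[(49,0)]⟩⟩,⟨false,0,⟨0,[(45,0)]⟩,⟨0,[(44,0),(2,0)]⟩⟩,[.o ⟨false,0,⟨0,[(14,
  0)]⟩,⟨5,[(16,5),(5,0),(6,3),(12,0),(3,0),(0,2)]⟩⟩,.e ⟨false,1,⟨1,[(1,0),(8,1),(11,0),(24,1)]⟩,⟨4,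
  [(16,5),(13,0),(2,0),(7,1),(3,3)]⟩⟩ ⟨false,1,⟨17,[(1,3),(8,3),(6,9),(4,8),(19,0),(3,13),(0,1)]⟩,
  ⟨0,[(16,0)]⟩⟩,.a ⟨true,0,⟨0,[(32,0)]⟩,⟨0,[(29,0)]⟩⟩ ⟨false,1,⟨9,[(10,4),(6,8),(1,0),(2,4),(19,0),
  (4,7)]⟩,⟨0,[(16,0),(28,0)]⟩⟩ ⟨true,0,⟨9,[(1,3),(8,3),(3,0),(4,0),(2,4),(18,1)]⟩,⟨0,[(16,0)]⟩⟩,.o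
  ⟨false,0,⟨0,[(1,0),(13,1),(4,0)]⟩,⟨5,[(22,0),(6,3),(12,0),(3,3)]⟩⟩]⟩) (.Q [0,0,0,0,0,-1,0,0,0,0,0,
  1] (.ed false [1,-1,0,0,1] .k) (.Q [0,0,0,0,0,0,1,1,-1,0,1,-1] (.p true [0,0,1] [0,0,0,0,1] (⟨0,
  [(36,0)]⟩,⟨0,[(35,0)]⟩) .k 2 (⟨0,[(29,0)]⟩,⟨0,[(28,0)]⟩) .k (.r (-1) ⟨13,[(2,1),(20,6),(7,9),(11,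
  0),(4,11)]⟩ ⟨2,[(12,0),(3,0),(0,0),(24,0)]⟩)) (.R ⟨0,false,false,false,[0,-1,1],[0,-1,0,0,1],[1,1,
  1],(⟨0,[(26,0)]⟩,⟨0,[(36,0),(2,0)]⟩),(⟨0,[(1,0)]⟩,⟨0,[(29,0),(9,0)]⟩),⟨0,[(2,0)]⟩,.k,(.r 0 ⟨0,
  [(45,0)]⟩ ⟨19,[(1,7),(1,0),(7,7),(3,7),(2,1),(16,1),(5,7),(2,2),(2,17),(1,5)]⟩),(.r (-1) ⟨9,[(12,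
  4),(6,8),(1,0),(2,4),(19,0),(3,4),(0,2)]⟩ ⟨1,[(18,1),(15,0),(0,0),(11,1)]⟩),.k,.k,.k,⟨false,0,⟨1,
  [(34,0),(0,0),(11,1)]⟩,⟨2,[(12,0),(33,0),(1,1),(0,0)]⟩⟩,⟨true,0,⟨0,[(22,0),(5,0)]⟩,⟨0,[(0,0),(16,
  0)]⟩⟩,⟨false,0,⟨1,[(18,1),(15,0),(0,0)]⟩,⟨11,[(3,5),(8,5),(11,0),(6,9),(12,0),(3,0),(0,8)]⟩⟩,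
  ⟨true,0,⟨0,[(28,0),(4,0)]⟩,⟨0,[(0,0)]⟩⟩,⟨false,0,⟨0,[]⟩,⟨0,[]⟩⟩,⟨false,0,⟨0,[]⟩,⟨0,[]⟩⟩,[.o
  ⟨false,0,⟨2,[(3,0),(4,0),(3,0),(3,0),(0,2),(4,3),(5,1)]⟩,⟨4,[(7,3),(7,0),(28,0),(2,8),(1,1)]⟩⟩,.e
  ⟨false,0,⟨0,[]⟩,⟨23,[(1,4),(9,4),(15,4),(13,4),(2,0),(3,16)]⟩⟩ ⟨false,1,⟨29,[(12,13),(11,14),(3,
  29),(15,2),(1,1),(1,15),(0,7)]⟩,⟨0,[(0,0),(17,0)]⟩⟩,.a ⟨true,0,⟨0,[(34,0)]⟩,⟨0,[(31,0)]⟩⟩ ⟨false,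
  0,⟨1,[(34,0),(0,0)]⟩,⟨1,[(48,0),(0,0)]⟩⟩ ⟨true,0,⟨1,[(8,0),(3,0),(11,0),(3,0),(6,0)]⟩,⟨0,[(0,0),
  (17,0)]⟩⟩,.o ⟨false,0,⟨0,[(3,0),(13,1),(4,0)]⟩,⟨5,[(24,0),(6,3),(12,0),(3,3)]⟩⟩]⟩) (.K ⟨0,[1,1,0,
  0,-1],0,0,(⟨0,[(29,0),(9,0)]⟩,⟨0,[(1,0)]⟩),(.r (-1) ⟨19,[(1,7),(1,0),(7,7),(3,7),(2,1),(16,1),(5,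
  7),(2,2),(2,17),(1,5)]⟩ ⟨0,[(45,0)]⟩),.k,(.r (-1) ⟨14,[(1,6),(1,3),(7,6),(3,6),(2,7),(16,7),(5,6),
  (2,1),(2,21),(1,3)]⟩ ⟨0,[(5,0)]⟩),(.r (-1) ⟨22,[(1,4),(9,4),(3,4),(2,22),(22,4),(2,1),(3,4),(0,
  8)]⟩ ⟨9,[(3,3),(8,3),(3,0),(4,0),(2,4),(18,1)]⟩),.k,[⟨0,[(0,0),(2,0),(13,0)]⟩,⟨0,[(7,0),(39,0)]⟩,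
  ⟨0,[(0,0),(15,0),(34,0)]⟩,⟨0,[(7,0),(39,1)]⟩]⟩)) (.R ⟨0,false,false,true,[0,1,0,0,-1],[1,0,0,0,
  -1],[0,0,1],(⟨0,[(0,0)]⟩,⟨0,[(29,0),(10,0)]⟩),(⟨0,[(28,0)]⟩,⟨0,[(29,0)]⟩),⟨0,[(29,0)]⟩,(.r (-1)
  ⟨17,[(17,13),(5,4),(7,13),(2,3),(8,0),(2,3),(1,15)]⟩ ⟨0,[(44,0)]⟩),.k,.k,.k,.k,.k,⟨true,0,⟨1,[(33,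
  0),(0,0)]⟩,⟨0,[]⟩⟩,⟨false,0,⟨0,[(30,0),(2,0)]⟩,⟨9,[(26,0),(0,0),(15,1),(3,4)]⟩⟩,⟨true,0,⟨0,[(45,
  0)]⟩,⟨0,[(46,0)]⟩⟩,⟨false,0,⟨1,[(5,0),(21,0),(2,0),(2,0)]⟩,⟨8,[(14,0),(12,0),(15,1),(2,8),(1,
  3)]⟩⟩,⟨false,0,⟨0,[]⟩,⟨0,[]⟩⟩,⟨false,0,⟨0,[]⟩,⟨0,[]⟩⟩,[.a ⟨true,0,⟨0,[(6,0),(39,0)]⟩,⟨0,[(27,
  0)]⟩⟩ ⟨true,0,⟨1,[(33,0),(0,0)]⟩,⟨0,[]⟩⟩ ⟨false,0,⟨0,[(30,0),(2,0)]⟩,⟨9,[(26,0),(0,0),(15,1),(3,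
  4)]⟩⟩,.o ⟨false,1,⟨4,[(6,3),(7,0),(28,0),(2,3),(1,1)]⟩,⟨0,[(7,0),(26,0)]⟩⟩,.o ⟨false,1,⟨4,[(2,0),
  (0,1),(2,4),(14,0),(8,0),(12,1),(2,6),(1,0)]⟩,⟨1,[(27,1),(5,0),(0,0)]⟩⟩,.o ⟨false,1,⟨2,[(6,1),(19,
  0),(16,0),(2,1)]⟩,⟨0,[(27,0)]⟩⟩]⟩)))) (.Q [0,0,0,-1,0,0,-1,-1,1,0,-1,1] (.p false [0,0,1] [0,0,0,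
  0,1] (⟨0,[(33,0)]⟩,⟨0,[(32,0)]⟩) .k 2 (⟨0,[(26,0)]⟩,⟨0,[(25,0)]⟩) .k (.r (-1) ⟨19,[(0,9),(14,3),
  (1,5),(2,4),(19,0),(3,9),(0,7)]⟩ ⟨2,[(9,0),(3,0),(0,0),(24,0)]⟩)) (.Q [0,0,-2,0,1,0,1,0,0,-1,1]
  (.p true [0,0,1] [1] (⟨0,[(34,0)]⟩,⟨0,[(33,0)]⟩) .k 1 (⟨0,[]⟩,⟨0,[]⟩) .k .k) (.R ⟨0,false,false,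
  true,[1,-1,-1],[1,0,0,0,-1],[1],(⟨0,[(23,0)]⟩,⟨1,[(8,0),(20,0),(2,0),(2,0)]⟩),(⟨0,[(27,0)]⟩,⟨0,
  [(28,0)]⟩),⟨0,[(8,0)]⟩,.k,.k,(.r (-1) ⟨3,[(0,1),(0,1),(2,1),(6,1),(34,0),(0,0)]⟩ ⟨4,[(2,5),(13,0),
  (24,2),(3,2)]⟩),(.r 0 ⟨0,[(3,0),(12,0)]⟩ ⟨1,[(2,1),(22,0),(0,0),(19,0)]⟩),.k,.k,⟨true,0,⟨0,[]⟩,⟨2,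
  [(2,0),(12,0),(28,0)]⟩⟩,⟨false,1,⟨0,[(0,0),(4,0),(39,0)]⟩,⟨0,[(26,0),(6,0)]⟩⟩,⟨true,0,⟨3,[(2,1),
  (11,0),(7,0),(7,0),(14,2)]⟩,⟨0,[(3,0),(12,0)]⟩⟩,⟨false,1,⟨0,[(0,0),(1,0),(2,0),(39,0)]⟩,⟨0,[(1,
  0)]⟩⟩,⟨false,0,⟨0,[]⟩,⟨0,[]⟩⟩,⟨false,0,⟨0,[]⟩,⟨0,[]⟩⟩,[.a ⟨true,0,⟨0,[(5,0),(39,0)]⟩,⟨0,[(26,
  0)]⟩⟩ ⟨true,0,⟨0,[]⟩,⟨2,[(2,0),(12,0),(28,0)]⟩⟩ ⟨false,1,⟨0,[(0,0),(4,0),(39,0)]⟩,⟨0,[(26,0),(6,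
  0)]⟩⟩,.o ⟨false,1,⟨4,[(5,3),(7,0),(28,0),(2,3),(1,1)]⟩,⟨0,[(6,0),(26,0)]⟩⟩,.o ⟨false,0,⟨0,[(33,
  0)]⟩,⟨0,[(12,0)]⟩⟩,.o ⟨false,0,⟨2,[(2,0),(12,0),(17,2),(10,0)]⟩,⟨0,[(0,0)]⟩⟩]⟩) (.K ⟨0,[1,-1,-1],
  (-1),0,(⟨0,[(23,0)]⟩,⟨1,[(8,0),(20,0),(2,0),(2,0)]⟩),.k,(.r (-1) ⟨75,[(1,19),(2,19),(2,9),(2,17),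
  (0,55),(30,1),(3,24),(0,36)]⟩ ⟨4,[(2,5),(13,0),(24,2),(3,2)]⟩),.k,(.r (-1) ⟨27,[(1,0),(5,9),(3,
  26),(1,0),(1,8),(5,18),(20,1),(4,12)]⟩ ⟨0,[(2,0),(11,0),(14,0),(15,0)]⟩),.k,[⟨0,[(7,0)]⟩,⟨0,[(0,
  0)]⟩,⟨0,[(14,0),(30,1)]⟩,⟨0,[(21,0),(22,0)]⟩]⟩)) (.R ⟨0,false,false,true,[1,-1,-1],[1,0,0,0,-1],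
  [1,1,-1,-1,0,0,0,-1],(⟨0,[(22,0)]⟩,⟨1,[(7,0),(20,0),(2,0),(2,0)]⟩),(⟨0,[(26,0)]⟩,⟨0,[(27,0)]⟩),⟨0,
  [(7,0)]⟩,.k,.k,(.r (-1) ⟨5,[(9,1),(0,5),(32,1),(1,0),(0,4)]⟩ ⟨4,[(1,5),(13,0),(24,2),(3,2)]⟩),(.r
  0 ⟨0,[(2,0),(12,0)]⟩ ⟨1,[(1,1),(22,0),(0,0),(19,0)]⟩),.k,.k,⟨true,0,⟨0,[(10,0)]⟩,⟨0,[(1,0)]⟩⟩,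
  ⟨false,1,⟨1,[(0,1),(9,1),(34,0),(0,0)]⟩,⟨0,[(25,0),(6,0)]⟩⟩,⟨false,0,⟨0,[]⟩,⟨8,[(12,4),(12,4),(15,
  0),(4,1)]⟩⟩,⟨true,0,⟨0,[(0,0)]⟩,⟨1,[(9,0),(4,0),(10,1),(4,0),(1,0)]⟩⟩,⟨false,0,⟨0,[]⟩,⟨0,[]⟩⟩,
  ⟨false,0,⟨0,[]⟩,⟨0,[]⟩⟩,[.a ⟨true,0,⟨1,[(0,0),(3,0),(15,0)]⟩,⟨0,[(25,0)]⟩⟩ ⟨true,0,⟨0,[(10,0)]⟩,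
  ⟨0,[(1,0)]⟩⟩ ⟨false,1,⟨1,[(0,1),(9,1),(34,0),(0,0)]⟩,⟨0,[(25,0),(6,0)]⟩⟩,.o ⟨false,1,⟨4,[(0,1),(3,
  1),(7,0),(7,1),(20,0),(4,1)]⟩,⟨0,[(5,0),(26,0)]⟩⟩,.o ⟨false,0,⟨0,[(32,0)]⟩,⟨0,[(11,0)]⟩⟩,.o
  ⟨false,0,⟨2,[(1,0),(12,0),(17,2),(10,0)]⟩,⟨9,[(0,2),(4,2),(0,1),(2,5),(0,2),(30,0),(2,11),(1,
  5)]⟩⟩]⟩))))))) (.R ⟨0,false,false,true,[1,-1,-1],[0,-1,1],[1,0,1],(⟨0,[(16,0)]⟩,⟨1,[(1,0),(20,0),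
  (2,0),(2,0)]⟩),(⟨0,[(17,0)]⟩,⟨0,[(27,0),(2,0)]⟩),⟨0,[(1,0)]⟩,.k,.k,(.r (-1) ⟨5,[(3,1),(0,5),(32,
  1),(1,0),(0,4)]⟩ ⟨1,[(11,1),(13,0),(0,2),(11,3)]⟩),.k,.k,.k,⟨false,1,⟨8,[(6,4),(2,8),(9,4),(15,0),
  (4,1)]⟩,⟨7,[(0,1),(2,6),(3,0),(3,6),(10,3),(12,0),(2,6)]⟩⟩,⟨true,1,⟨0,[(5,0),(19,0)]⟩,⟨0,[(0,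
  0)]⟩⟩,⟨false,0,⟨11,[(0,9),(10,11),(13,10),(0,2),(8,1),(2,11),(1,5)]⟩,⟨1,[(4,1),(34,0),(0,0)]⟩⟩,
  ⟨true,0,⟨0,[(7,0),(3,0),(26,0)]⟩,⟨12,[(0,7),(3,11),(4,11),(4,1),(7,7),(12,0),(4,5)]⟩⟩,⟨false,0,⟨0,
  []⟩,⟨0,[]⟩⟩,⟨false,0,⟨0,[]⟩,⟨0,[]⟩⟩,[.o ⟨false,0,⟨0,[(7,0)]⟩,⟨5,[(9,5),(5,0),(6,3),(12,0),(3,0),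
  (0,2)]⟩⟩,.a ⟨true,0,⟨0,[(10,0)]⟩,⟨0,[(9,0),(12,0)]⟩⟩ ⟨false,1,⟨8,[(6,4),(12,4),(15,0),(4,1)]⟩,⟨2,
  [(3,0),(30,0),(3,1)]⟩⟩ ⟨true,1,⟨0,[(5,0),(4,0)]⟩,⟨0,[(0,0),(8,0)]⟩⟩,.o ⟨false,0,⟨0,[(26,0)]⟩,⟨0,
  [(5,0)]⟩⟩,.e ⟨true,0,⟨0,[]⟩,⟨0,[(42,0)]⟩⟩ ⟨true,1,⟨1,[(3,0),(1,1),(5,0),(11,0)]⟩,⟨0,[(0,0),(8,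
  0)]⟩⟩]⟩))

theorem ok14 : chk K t14 l16 = true := by decide +kernel

noncomputable def t15 : Tre :=
  (.Q [0,0,-2,0,1,0,1,0,0,-1,1] (.p true [0,0,1] [1] (⟨0,[(28,0)]⟩,⟨0,[(27,0)]⟩) .k 1 (⟨0,[]⟩,⟨0,
  []⟩) .k .k) (.Q [0,0,0,-1,0,0,-1,-1,0,1,-1] (.p false [0,0,1] [1] (⟨0,[(29,0)]⟩,⟨0,[(28,0)]⟩) .k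
  1 (⟨0,[]⟩,⟨0,[]⟩) .k .k) (.S ⟨1,0,[0,0,-1,-1,0,0,0,-1],[1,-1,-1],[1,1,-1,-2,0,0,0,-1],(⟨0,[(18,
  0)]⟩,⟨0,[(30,0),(1,0)]⟩),⟨0,[(3,0)]⟩,.k,(.r (-1) ⟨1,[(0,0),(4,0),(0,0),(0,0),(34,0)]⟩ ⟨4,[(2,5),
  (8,0),(24,2),(3,2)]⟩),⟨true,0,⟨0,[(39,0)]⟩,⟨0,[(40,0)]⟩⟩,⟨false,1,⟨8,[(8,4),(12,4),(15,0),(4,1)]⟩,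
  ⟨0,[]⟩⟩,⟨false,0,⟨0,[]⟩,⟨8,[(8,4),(12,4),(15,0),(4,1)]⟩⟩,⟨true,0,⟨0,[(40,0)]⟩,⟨0,[(39,0)]⟩⟩,[.a
  ⟨true,0,⟨0,[(0,0)]⟩,⟨0,[(13,0),(26,0)]⟩⟩ ⟨true,0,⟨0,[(5,0),(4,0)]⟩,⟨0,[(2,0),(37,0)]⟩⟩ ⟨false,1,
  ⟨0,[(0,0),(0,0)]⟩,⟨3,[(2,1),(6,0),(7,0),(7,0),(14,2)]⟩⟩,.o ⟨false,1,⟨8,[(0,8),(7,0),(12,0),(15,1),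
  (4,3)]⟩,⟨0,[(9,0),(30,1)]⟩⟩,.o ⟨false,0,⟨0,[(28,0)]⟩,⟨0,[(7,0)]⟩⟩,.o ⟨false,0,⟨2,[(2,0),(7,0),(17,
  2),(10,0)]⟩,⟨0,[(1,0)]⟩⟩]⟩) (.R ⟨1,false,false,true,[0,0,1],[1,-1],[1,1,-1,-1],(⟨0,[(30,0)]⟩,⟨0,
  [(29,0)]⟩),(⟨0,[(34,0)]⟩,⟨0,[(35,0)]⟩),⟨0,[(19,0)]⟩,.k,.k,.k,.k,.k,.k,⟨true,0,⟨0,[]⟩,⟨2,[(2,0),(7,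
  0),(28,0)]⟩⟩,⟨false,0,⟨4,[(2,0),(11,0),(1,1),(0,0),(6,1)]⟩,⟨0,[(7,0)]⟩⟩,⟨true,0,⟨0,[(6,0)]⟩,⟨4,
  [(0,0),(1,2),(14,0),(7,0),(10,0),(3,0)]⟩⟩,⟨true,0,⟨0,[(16,0),(22,0)]⟩,⟨0,[(0,0)]⟩⟩,⟨true,0,⟨0,[(6,
  0),(33,0)]⟩,⟨3,[(2,1),(6,0),(4,0),(2,0)]⟩⟩,⟨false,0,⟨0,[(16,0)]⟩,⟨8,[(0,3),(13,3),(10,0),(11,0),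
  (4,6)]⟩⟩,[.o ⟨false,0,⟨0,[(39,0)]⟩,⟨19,[(2,1),(8,1),(25,3),(2,15),(0,2),(0,8)]⟩⟩,.a ⟨true,0,⟨0,
  [(12,0),(3,0)]⟩,⟨0,[(40,0)]⟩⟩ ⟨false,1,⟨2,[(5,0),(33,0),(1,1),(0,0)]⟩,⟨4,[(2,1),(8,1),(24,0),(3,
  0)]⟩⟩ ⟨true,0,⟨0,[(12,0),(2,0),(0,0)]⟩,⟨0,[(0,0),(9,0)]⟩⟩,.o ⟨false,1,⟨7,[(4,0),(2,4),(12,0),(2,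
  0),(3,2),(6,1),(2,0)]⟩,⟨0,[(15,0)]⟩⟩,.e ⟨true,0,⟨1,[(0,0),(4,0),(0,0),(17,0)]⟩,⟨2,[(2,1),(7,0),(0,
  0),(32,1)]⟩⟩ ⟨true,0,⟨0,[(24,0),(14,0)]⟩,⟨0,[(0,0),(9,0)]⟩⟩]⟩)) (.Q [0,0,-1,0,1,0,2,0,0,-1,2] (.p
  true [0,0,1] [1,0,-1] (⟨0,[(29,0)]⟩,⟨0,[(28,0)]⟩) .k 2 (⟨0,[(28,0)]⟩,⟨0,[(29,0)]⟩) .k (.r 0 ⟨0,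
  [(12,1),(1,1)]⟩ ⟨0,[(6,0),(2,0),(5,0)]⟩)) (.K ⟨0,[1,-1,-1],(-1),0,(⟨0,[(18,0)]⟩,⟨0,[(30,0),(1,
  0)]⟩),.k,(.r (-1) ⟨5,[(5,1),(0,5),(32,1),(1,0),(0,4)]⟩ ⟨4,[(2,5),(8,0),(24,2),(3,2)]⟩),.k,(.r
  (-1) ⟨27,[(0,9),(5,26),(3,8),(5,19),(20,1),(1,0),(2,13)]⟩ ⟨0,[(2,0),(6,0),(14,0),(15,0)]⟩),.k,[⟨0,
  [(0,0)]⟩,⟨0,[(1,0)]⟩,⟨0,[(9,0),(30,1)]⟩,⟨0,[(16,0),(22,0)]⟩]⟩) (.Q [0,0,-1,0,0,0,0,0,-1,1,0,-1]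
  (.p false [0,0,0,0,1] [1] (⟨0,[(23,0)]⟩,⟨0,[(22,0)]⟩) .k 1 (⟨0,[]⟩,⟨0,[]⟩) .k .k) (.Q [0,0,0,0,0,
  -2,0,0,0,0,0,1] (.p true [0,0,0,0,1] [] (⟨0,[(24,0)]⟩,⟨0,[(23,0)]⟩) .k 0 (⟨0,[]⟩,⟨0,[]⟩) .k .k)
  (.S ⟨1,0,[0,1,-1,-1],[0,-1,0,0,1],[1,2,-1,-2],(⟨1,[(0,0),(24,0)]⟩,⟨0,[(24,0),(9,0)]⟩),⟨0,[(0,0)]⟩,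
  (.r 0 ⟨0,[(40,0)]⟩ ⟨75,[(0,19),(3,37),(1,19),(3,19),(2,37),(25,3),(3,38),(0,8)]⟩),(.x 0 ⟨0,[(6,
  0)]⟩ ⟨10,[(0,10),(0,9),(20,0),(16,1),(3,5)]⟩),⟨true,0,⟨0,[(41,0)]⟩,⟨0,[(42,0)]⟩⟩,⟨false,1,⟨18,[(0,
  4),(5,4),(3,4),(28,0),(3,4),(0,6)]⟩,⟨0,[]⟩⟩,⟨false,0,⟨0,[]⟩,⟨18,[(0,4),(5,4),(3,4),(28,0),(3,4),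
  (0,6)]⟩⟩,⟨true,0,⟨0,[(42,0)]⟩,⟨0,[(41,0)]⟩⟩,[.o ⟨false,0,⟨5,[(2,0),(0,0),(3,0),(0,1),(2,2),(1,0),
  (9,5),(15,0)]⟩,⟨4,[(1,2),(2,0),(5,1),(2,0),(25,0),(2,2),(1,0)]⟩⟩,.e ⟨false,0,⟨0,[(7,0)]⟩,⟨0,[(4,
  0),(8,0),(29,0)]⟩⟩ ⟨false,1,⟨2,[(7,0),(33,0),(1,1),(0,0)]⟩,⟨4,[(4,1),(8,1),(24,0),(3,0)]⟩⟩,.a
  ⟨true,0,⟨1,[(0,0),(5,0),(16,0)]⟩,⟨0,[(1,0)]⟩⟩ ⟨false,0,⟨36,[(3,4),(3,25),(4,4),(1,4),(24,0),(1,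
  16),(2,2)]⟩,⟨3,[(4,1),(8,1),(28,3),(0,0),(0,2)]⟩⟩ ⟨true,0,⟨0,[(40,0)]⟩,⟨4,[(4,1),(8,1),(24,0),(3,
  0)]⟩⟩,.o ⟨false,0,⟨2,[(3,1),(9,0),(0,0),(8,2),(5,0),(9,0)]⟩,⟨10,[(1,9),(20,0),(16,1),(3,5)]⟩⟩]⟩)
  (.Q [0,2,0,0,-1,0,0,0,1,0,0,1] (.p true [0,0,0,0,1] [] (⟨0,[(25,0)]⟩,⟨0,[(24,0)]⟩) .k 0 (⟨0,[]⟩,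
  ⟨0,[]⟩) .k .k) (.S ⟨1,0,[0,-1],[1,0,0,0,-1],[],(⟨0,[(25,0)]⟩,⟨0,[(26,0)]⟩),⟨0,[(1,0),(4,0),(15,
  0)]⟩,.k,(.r (-1) ⟨5,[(8,1),(33,1),(1,0),(0,4)]⟩ ⟨1,[(5,0),(8,0),(24,0),(7,0)]⟩),⟨true,0,⟨0,[(47,
  0)]⟩,⟨0,[]⟩⟩,⟨false,1,⟨8,[(11,4),(12,4),(15,0),(4,1)]⟩,⟨0,[]⟩⟩,⟨false,0,⟨0,[(43,0)]⟩,⟨0,[(42,0),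
  (2,0)]⟩⟩,⟨true,0,⟨0,[(43,0)]⟩,⟨0,[(42,0)]⟩⟩,[.o ⟨false,1,⟨20,[(2,11),(1,3),(6,8),(18,3),(9,4),(4,
  5)]⟩,⟨4,[(0,1),(23,2),(15,0),(6,0)]⟩⟩,.a ⟨true,1,⟨20,[(2,14),(1,4),(6,5),(18,4),(9,0),(4,17)]⟩,⟨0,
  [(0,0)]⟩⟩ ⟨false,1,⟨1,[(44,0),(0,0)]⟩,⟨0,[(47,0)]⟩⟩ ⟨true,1,⟨0,[(45,0)]⟩,⟨6,[(0,4),(1,4),(1,3),(7,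
  3),(1,3),(25,0)]⟩⟩,.e ⟨false,1,⟨8,[(11,4),(12,4),(15,0),(4,1)]⟩,⟨0,[]⟩⟩ ⟨false,1,⟨0,[(45,0)]⟩,⟨0,
  [(47,0)]⟩⟩,.o ⟨false,0,⟨2,[(2,2),(1,1),(9,0),(0,0),(14,0),(9,0)]⟩,⟨9,[(23,0),(0,10),(15,1),(3,
  4)]⟩⟩]⟩) (.R ⟨1,false,false,false,[0,0,1],[1,0,0,0,-1],[0,1,0,0,0,0,0,1],(⟨0,[(33,0)]⟩,⟨0,[(32,
  0)]⟩),(⟨0,[(25,0)]⟩,⟨0,[(26,0)]⟩),⟨0,[(22,0)]⟩,.k,.k,.k,.k,(.r 0 ⟨0,[(12,0),(14,0)]⟩ ⟨8,[(11,4),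
  (2,8),(9,4),(15,0),(4,1)]⟩),.k,⟨true,(-1),⟨0,[(4,0),(3,0),(3,0),(30,2)]⟩,⟨0,[(13,0),(31,0)]⟩⟩,
  ⟨false,0,⟨8,[(2,8),(0,2),(16,0),(6,0),(12,0),(3,0)]⟩,⟨13,[(7,2),(2,9),(13,10),(1,2),(3,3),(6,5),
  (2,1)]⟩⟩,⟨true,0,⟨0,[(47,0)]⟩,⟨0,[]⟩⟩,⟨false,1,⟨0,[(0,0),(18,0)]⟩,⟨0,[(12,0),(11,0),(18,0)]⟩⟩,
  ⟨false,0,⟨0,[(43,0)]⟩,⟨0,[(42,0),(2,0)]⟩⟩,⟨false,1,⟨0,[(0,0),(13,0),(12,0)]⟩,⟨0,[(12,0),(11,0)]⟩⟩,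
  [.o ⟨false,1,⟨1,[(0,0),(22,0)]⟩,⟨6,[(3,1),(5,2),(2,3),(1,0),(9,6),(15,0),(2,5)]⟩⟩,.o ⟨false,1,⟨0,
  [(0,0)]⟩,⟨20,[(3,5),(5,1),(2,11),(1,9),(9,20),(14,13),(0,2),(2,3)]⟩⟩,.o ⟨false,1,⟨7,[(7,0),(2,4),
  (12,0),(2,0),(3,2),(6,1),(2,0)]⟩,⟨0,[(18,0)]⟩⟩,.a ⟨true,0,⟨0,[(30,0)]⟩,⟨0,[(27,0)]⟩⟩ ⟨true,0,⟨0,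
  [(12,0),(14,0),(15,0)]⟩,⟨0,[(13,0)]⟩⟩ ⟨false,1,⟨0,[(0,0),(26,0)]⟩,⟨0,[(12,0),(1,0),(9,0)]⟩⟩]⟩)))
  (.Q [0,0,-1,0,0,0,0,0,1,-1,0,1] (.p true [0,0,0,0,1] [1] (⟨0,[(24,0)]⟩,⟨0,[(23,0)]⟩) .k 1 (⟨0,[]⟩,
  ⟨0,[]⟩) .k .k) (.Q [0,0,0,0,0,-1,0,0,0,1,0,-1] (.ed true [0,1,0,0,1] .k) (.S ⟨1,0,[],[1,0,0,0,-1],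
  [0,-1],(⟨0,[(25,0)]⟩,⟨0,[(26,0)]⟩),⟨0,[(0,0)]⟩,.k,(.r (-1) ⟨5,[(8,1),(33,1),(1,0),(0,4)]⟩ ⟨1,[(5,
  0),(8,0),(24,0),(7,0)]⟩),⟨false,1,⟨3,[(2,1),(8,1),(32,0),(0,0)]⟩,⟨0,[]⟩⟩,⟨true,0,⟨0,[(47,0)]⟩,⟨0,
  []⟩⟩,⟨true,0,⟨0,[(43,0)]⟩,⟨0,[(42,0)]⟩⟩,⟨false,0,⟨0,[(43,0)]⟩,⟨0,[(42,0),(2,0)]⟩⟩,[.o ⟨false,1,⟨0,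
  [(23,0)]⟩,⟨1,[(1,0),(0,0)]⟩⟩,.a ⟨true,1,⟨0,[(11,0)]⟩,⟨0,[(1,0),(2,0),(4,0),(6,0),(26,0)]⟩⟩ ⟨true,
  1,⟨0,[(45,0)]⟩,⟨0,[(4,0),(4,0),(2,0),(30,1)]⟩⟩ ⟨false,1,⟨1,[(44,0),(0,0)]⟩,⟨0,[(47,0)]⟩⟩,.o
  ⟨false,1,⟨0,[(23,0)]⟩,⟨1,[(1,0),(0,0)]⟩⟩,.o ⟨false,1,⟨2,[(5,0),(7,0),(9,2),(18,0)]⟩,⟨0,[(1,
  0)]⟩⟩]⟩) (.R ⟨0,false,false,false,[1,0,0,0,-1],[1,1,-1],[1,0,1,1,0,0,0,-1],(⟨0,[(25,0)]⟩,⟨0,[(26,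
  0)]⟩),(⟨0,[(32,0),(2,0)]⟩,⟨0,[(22,0)]⟩),⟨0,[(0,0)]⟩,.k,.k,(.r (-1) ⟨5,[(8,1),(33,1),(1,0),(0,4)]⟩
  ⟨1,[(5,0),(8,0),(24,0),(7,0)]⟩),(.r (-1) ⟨5,[(15,5),(4,0),(6,3),(12,0),(3,0),(0,2)]⟩ ⟨0,[(14,0),
  (32,0)]⟩),.k,.k,⟨true,0,⟨0,[]⟩,⟨2,[(5,0),(7,0),(28,0)]⟩⟩,⟨false,0,⟨0,[(1,0),(25,0)]⟩,⟨0,[(23,0),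
  (6,0)]⟩⟩,⟨false,0,⟨0,[(14,0)]⟩,⟨5,[(15,5),(4,0),(6,3),(12,0),(3,0),(0,2)]⟩⟩,⟨true,(-1),⟨0,[(1,0),
  (2,0),(4,0),(33,1)]⟩,⟨0,[(15,0),(7,0)]⟩⟩,⟨false,0,⟨0,[]⟩,⟨0,[]⟩⟩,⟨false,0,⟨0,[]⟩,⟨0,[]⟩⟩,[.a
  ⟨true,0,⟨0,[(14,0),(12,0)]⟩,⟨0,[(15,0)]⟩⟩ ⟨true,0,⟨0,[(14,0)]⟩,⟨10,[(3,2),(8,1),(2,8),(4,0),(6,2),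
  (12,0),(4,0)]⟩⟩ ⟨false,0,⟨0,[(1,0),(12,0),(12,0)]⟩,⟨0,[(15,0),(7,0)]⟩⟩,.o ⟨false,1,⟨5,[(14,5),(5,
  0),(6,3),(12,0),(3,0),(0,2)]⟩,⟨0,[(12,0)]⟩⟩,.o ⟨false,1,⟨0,[(23,0)]⟩,⟨1,[(1,0),(0,0)]⟩⟩,.o ⟨false,
  1,⟨2,[(5,0),(7,0),(9,2),(18,0)]⟩,⟨0,[(1,0)]⟩⟩]⟩)) (.Q [0,-2,0,1,1,0,-1,-1,-1,1,-1,-1] (.p false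
  [0,0,1] [1,0,0,0,-1] (⟨0,[(32,0)]⟩,⟨0,[(31,0)]⟩) .k 2 (⟨0,[(24,0)]⟩,⟨0,[(25,0)]⟩) .k (.r 0 ⟨9,[(2,
  1),(8,0),(7,1),(6,1),(0,8),(11,0),(2,0)]⟩ ⟨1,[(9,0),(2,0),(5,0),(25,0)]⟩)) (.I [1,-1,2,2] (.N [0,
  -2,0,0,1] 0 ⟨0,[(9,0)]⟩ ⟨0,[(0,0)]⟩ (.x 0 ⟨0,[(8,0)]⟩ ⟨8,[(1,8),(2,3),(4,14),(3,2),(1,7),(0,13),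
  (10,8),(7,17),(5,1),(2,29)]⟩)) (.Q [0,0,-1,0,0,0,0,0,1,0,0,1] (.p true [0,0,0,0,1] [] (⟨0,[(27,
  0)]⟩,⟨0,[(26,0)]⟩) .k 0 (⟨0,[]⟩,⟨0,[]⟩) .k .k) (.Q [0,0,0,0,0,-1,0,0,0,1,0,-1] (.ed true [0,1,0,0,
  1] .k) (.S ⟨1,0,[],[1,0,0,0,-1],[0,-1],(⟨0,[(28,0)]⟩,⟨0,[(29,0)]⟩),⟨0,[(0,0)]⟩,.k,(.r (-1) ⟨5,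
  [(11,1),(33,1),(1,0),(0,4)]⟩ ⟨1,[(8,0),(8,0),(24,0),(7,0)]⟩),⟨false,1,⟨3,[(5,1),(8,1),(32,0),(0,
  0)]⟩,⟨0,[]⟩⟩,⟨true,0,⟨0,[(50,0)]⟩,⟨0,[]⟩⟩,⟨true,0,⟨0,[(46,0)]⟩,⟨0,[(45,0)]⟩⟩,⟨false,0,⟨0,[(46,
  0)]⟩,⟨0,[(45,0),(2,0)]⟩⟩,[.e ⟨false,1,⟨1,[(47,0),(0,0)]⟩,⟨0,[(50,0)]⟩⟩ ⟨false,1,⟨1,[(26,0),(0,0),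
  (19,0)]⟩,⟨0,[]⟩⟩,.o ⟨false,1,⟨0,[(3,0),(11,0)]⟩,⟨23,[(1,6),(3,16),(0,1),(5,3),(2,3),(26,7),(0,0),
  (2,7)]⟩⟩,.e ⟨false,1,⟨0,[(48,0)]⟩,⟨0,[(50,0)]⟩⟩ ⟨false,1,⟨3,[(5,1),(8,1),(32,0),(0,0)]⟩,⟨0,[]⟩⟩,
  .a ⟨true,0,⟨0,[(4,0)]⟩,⟨0,[(1,0)]⟩⟩ ⟨true,1,⟨1,[(47,0),(0,0)]⟩,⟨0,[(7,0),(4,0),(2,0),(30,1)]⟩⟩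
  ⟨false,1,⟨1,[(47,0),(0,0)]⟩,⟨2,[(8,0),(7,0),(28,0)]⟩⟩]⟩) (.Q [0,0,0,0,0,0,0,0,-1,1,0,-1] (.p
  false [0,0,0,0,1] [1] (⟨0,[(29,0)]⟩,⟨0,[(28,0)]⟩) .k 1 (⟨0,[]⟩,⟨0,[]⟩) .k .k) (.S ⟨1,0,[0,2],[0,0,
  0,0,1],[1,1,0,-1],(⟨0,[(30,0)]⟩,⟨0,[(29,0)]⟩),⟨1,[(1,0),(8,0),(15,0),(3,0)]⟩,.k,(.r 0 ⟨0,[(45,
  0)]⟩ ⟨3,[(4,0),(4,1),(4,0),(3,0),(8,1),(0,2)]⟩),⟨false,1,⟨0,[(46,0),(2,0)]⟩,⟨0,[(47,0)]⟩⟩,⟨true,0,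
  ⟨0,[(51,0)]⟩,⟨0,[]⟩⟩,⟨true,0,⟨0,[]⟩,⟨0,[(51,0)]⟩⟩,⟨false,0,⟨0,[(47,0)]⟩,⟨0,[(46,0),(2,0)]⟩⟩,[.e
  ⟨false,0,⟨4,[(12,1),(30,0),(2,0)]⟩,⟨3,[(4,0),(4,1),(4,0),(3,0),(9,0),(19,1)]⟩⟩ ⟨false,0,⟨0,[(43,
  0)]⟩,⟨0,[(49,0)]⟩⟩,.o ⟨false,0,⟨23,[(2,6),(3,16),(0,1),(5,3),(2,3),(26,7),(0,0),(2,7)]⟩,⟨4,[(0,2),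
  (3,0),(10,0),(3,0),(24,0),(4,0)]⟩⟩,.a ⟨true,0,⟨0,[(28,0)]⟩,⟨0,[(0,0)]⟩⟩ ⟨true,0,⟨0,[(46,0)]⟩,⟨0,
  [(47,0)]⟩⟩ ⟨false,0,⟨0,[(51,0)]⟩,⟨0,[(49,0)]⟩⟩,.o ⟨false,0,⟨0,[(6,0)]⟩,⟨5,[(0,4),(26,0),(16,0),(3,
  2)]⟩⟩]⟩) (.R ⟨0,false,false,false,[1,0,0,0,-1],[1,-1],[0,0,0,-1],(⟨0,[(29,0)]⟩,⟨0,[(30,0)]⟩),(⟨0,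
  [(41,0)]⟩,⟨0,[(42,0)]⟩),⟨0,[(1,0)]⟩,.k,.k,(.r (-1) ⟨5,[(12,1),(33,1),(1,0),(0,4)]⟩ ⟨1,[(9,0),(8,
  0),(24,0),(7,0)]⟩),(.r (-1) ⟨3,[(4,0),(4,1),(4,0),(3,0),(8,1),(0,2)]⟩ ⟨0,[(45,0)]⟩),.k,.k,⟨true,0,
  ⟨2,[(9,0),(7,0),(28,0)]⟩,⟨0,[]⟩⟩,⟨false,0,⟨0,[(28,0)]⟩,⟨9,[(4,2),(0,1),(6,5),(7,2),(6,4),(16,0),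
  (2,8)]⟩⟩,⟨true,0,⟨0,[(46,0)]⟩,⟨0,[(47,0)]⟩⟩,⟨false,0,⟨4,[(6,0),(1,0),(3,1),(4,0),(1,0),(8,3),(20,
  0)]⟩,⟨4,[(4,2),(0,1),(6,0),(7,2),(23,0),(2,3)]⟩⟩,⟨false,0,⟨0,[]⟩,⟨0,[]⟩⟩,⟨false,0,⟨0,[]⟩,⟨0,[]⟩⟩,
  [.e ⟨false,1,⟨1,[(46,1),(1,0),(0,0)]⟩,⟨0,[(47,0)]⟩⟩ ⟨false,0,⟨4,[(0,0),(1,3),(5,0),(3,1),(4,0),(1,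
  0),(29,0)]⟩,⟨0,[(27,0),(19,0)]⟩⟩,.o ⟨false,1,⟨0,[(46,0),(2,0)]⟩,⟨6,[(7,1),(5,2),(2,3),(1,0),(25,
  0),(2,12)]⟩⟩,.o ⟨false,1,⟨0,[(27,0)]⟩,⟨0,[(0,0)]⟩⟩,.a ⟨true,0,⟨0,[(5,0)]⟩,⟨0,[(2,0)]⟩⟩ ⟨false,1,
  ⟨5,[(12,1),(33,1),(1,0),(0,4)]⟩,⟨4,[(9,1),(8,1),(24,0),(3,0)]⟩⟩ ⟨true,0,⟨4,[(0,0),(1,3),(5,0),(3,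
  1),(4,0),(1,0),(29,0)]⟩,⟨6,[(5,6),(1,1),(5,2),(2,3),(1,0),(25,0),(2,12)]⟩⟩]⟩))) (.Q [0,0,0,0,0,-1,
  0,0,0,0,0,1] (.ed false [1,-1,0,0,1] .k) (.S ⟨1,0,[0,2],[0,0,0,0,1],[1,1,0,-1],(⟨0,[(29,0)]⟩,⟨0,
  [(28,0)]⟩),⟨0,[(0,0)]⟩,.k,(.r 0 ⟨0,[(44,0)]⟩ ⟨27,[(0,5),(2,6),(1,5),(2,13),(1,5),(2,6),(3,6),(8,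
  4),(13,5),(6,8)]⟩),⟨false,1,⟨0,[(45,0),(2,0)]⟩,⟨0,[(46,0)]⟩⟩,⟨true,0,⟨0,[(50,0)]⟩,⟨0,[]⟩⟩,⟨true,0,
  ⟨0,[]⟩,⟨0,[(50,0)]⟩⟩,⟨false,0,⟨0,[(46,0)]⟩,⟨0,[(45,0),(2,0)]⟩⟩,[.e ⟨false,0,⟨4,[(11,1),(30,0),(2,
  0)]⟩,⟨3,[(3,0),(4,1),(4,0),(3,0),(9,0),(19,1)]⟩⟩ ⟨false,0,⟨0,[(42,0)]⟩,⟨0,[(48,0)]⟩⟩,.o ⟨false,0,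
  ⟨2,[(5,2),(5,0),(30,0),(3,1)]⟩,⟨6,[(1,1),(0,0),(0,2),(10,1),(3,0),(0,1),(23,0)]⟩⟩,.a ⟨true,0,⟨0,
  [(27,0)]⟩,⟨1,[(1,0),(1,0),(3,0),(3,0),(0,0),(6,1),(26,1)]⟩⟩ ⟨true,0,⟨0,[(45,0)]⟩,⟨0,[(46,0)]⟩⟩
  ⟨false,0,⟨0,[(50,0)]⟩,⟨0,[(48,0)]⟩⟩,.o ⟨false,0,⟨0,[(5,0)]⟩,⟨0,[(1,0),(45,0)]⟩⟩]⟩) (.R ⟨0,false,
  false,false,[0,1,0,0,-1],[0,1],[0,0,1],(⟨0,[(0,0)]⟩,⟨0,[(29,0),(10,0)]⟩),(⟨0,[(41,0)]⟩,⟨0,[(40,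
  0)]⟩),⟨0,[(29,0)]⟩,(.r (-1) ⟨3,[(3,0),(4,1),(4,0),(3,0),(8,1),(0,2)]⟩ ⟨0,[(44,0)]⟩),.k,.k,.k,.k,
  .k,⟨false,1,⟨1,[(45,1),(1,0),(0,0)]⟩,⟨0,[(46,0)]⟩⟩,⟨true,0,⟨0,[(27,0)]⟩,⟨0,[(1,0)]⟩⟩,⟨true,0,⟨0,
  [(45,0)]⟩,⟨0,[(46,0)]⟩⟩,⟨false,0,⟨0,[(27,0)]⟩,⟨6,[(1,1),(0,0),(0,2),(10,1),(3,0),(0,1),(23,0)]⟩⟩,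
  ⟨false,0,⟨0,[]⟩,⟨0,[]⟩⟩,⟨false,0,⟨0,[]⟩,⟨0,[]⟩⟩,[.a ⟨true,0,⟨0,[(46,0)]⟩,⟨0,[(18,0),(3,0)]⟩⟩
  ⟨true,0,⟨2,[(8,0),(7,0),(28,0)]⟩,⟨0,[]⟩⟩ ⟨false,0,⟨0,[(27,0),(18,0)]⟩,⟨10,[(1,2),(1,0),(7,5),(2,
  3),(4,0),(6,2),(16,0),(3,0)]⟩⟩,.o ⟨false,1,⟨19,[(3,1),(4,1),(4,1),(13,1),(15,3),(2,15),(0,0),(0,
  6)]⟩,⟨0,[(45,0)]⟩⟩,.o ⟨false,1,⟨10,[(1,6),(1,3),(7,7),(7,3),(23,2),(2,11),(0,0)]⟩,⟨3,[(5,1),(4,0),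
  (16,0),(1,0),(10,1)]⟩⟩,.o ⟨false,1,⟨4,[(1,3),(24,0),(16,0),(3,1)]⟩,⟨0,[(27,0)]⟩⟩]⟩)))) (.Q [0,0,0,
  0,0,-1,0,0,0,1,0,-1] (.ed true [0,1,0,0,1] .k) (.Q [0,0,0,0,0,0,0,0,1,-1,0,1] (.p true [0,0,0,0,
  1] [1] (⟨0,[(27,0)]⟩,⟨0,[(26,0)]⟩) .k 1 (⟨0,[]⟩,⟨0,[]⟩) .k .k) (.Q [0,2,0,1,-1,0,0,0,1,-1,0,1]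
  (.p true [0,0,0,0,1] [1] (⟨0,[(28,0)]⟩,⟨0,[(27,0)]⟩) .k 1 (⟨0,[]⟩,⟨0,[]⟩) .k .k) (.S ⟨1,0,[0,2,1,
  1],[0,1,0,0,1],[1,1,1],(⟨0,[(29,0),(8,0)]⟩,⟨0,[(2,0)]⟩),⟨0,[(29,0)]⟩,(.r 0 ⟨1,[(8,0),(8,0),(24,0),
  (7,0)]⟩ ⟨5,[(11,1),(33,1),(1,0),(0,4)]⟩),.k,⟨false,1,⟨0,[(45,0),(2,0)]⟩,⟨0,[(46,0)]⟩⟩,⟨true,0,⟨0,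
  [(50,0)]⟩,⟨0,[]⟩⟩,⟨true,0,⟨0,[]⟩,⟨0,[(50,0)]⟩⟩,⟨false,0,⟨0,[(46,0)]⟩,⟨0,[(45,0),(2,0)]⟩⟩,[.o
  ⟨false,(-1),⟨0,[(0,0)]⟩,⟨14,[(4,7),(6,3),(2,6),(28,2),(1,6),(2,16)]⟩⟩,.e ⟨false,0,⟨0,[]⟩,⟨1,[(26,
  0),(0,0),(19,0)]⟩⟩ ⟨false,0,⟨4,[(8,0),(8,0),(24,2),(3,2)]⟩,⟨5,[(11,1),(33,1),(1,0),(0,4)]⟩⟩,.a
  ⟨true,0,⟨0,[(0,0),(6,0),(3,0),(0,0),(6,0),(26,1),(1,1)]⟩,⟨0,[(4,0)]⟩⟩ ⟨false,0,⟨2,[(8,0),(7,0),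
  (28,0)]⟩,⟨1,[(47,0),(0,0)]⟩⟩ ⟨true,(-1),⟨0,[(0,0),(3,0)]⟩,⟨5,[(11,1),(33,1),(1,0),(0,4)]⟩⟩,.o
  ⟨false,0,⟨0,[(1,0)]⟩,⟨0,[(26,0)]⟩⟩]⟩) (.S ⟨1,0,[0,1,1,1],[0,1,0,0,1],[0,2,1,1],(⟨0,[(29,0),(8,
  0)]⟩,⟨0,[(2,0)]⟩),⟨0,[(29,0)]⟩,(.r 0 ⟨1,[(8,0),(8,0),(24,0),(7,0)]⟩ ⟨2,[(0,0),(4,0),(5,0),(35,0),
  (0,0)]⟩),.k,⟨true,0,⟨0,[(50,0)]⟩,⟨0,[]⟩⟩,⟨false,1,⟨3,[(5,1),(8,1),(32,0),(0,0)]⟩,⟨0,[]⟩⟩,⟨false,0,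
  ⟨0,[(46,0)]⟩,⟨2,[(0,1),(4,1),(39,0),(1,0)]⟩⟩,⟨true,0,⟨0,[(46,0)]⟩,⟨0,[(45,0)]⟩⟩,[.o ⟨false,0,⟨1,
  [(1,0),(3,0),(36,0),(3,1)]⟩,⟨25,[(0,16),(3,8),(1,0),(4,5),(3,1),(1,1),(25,4),(2,2)]⟩⟩,.e ⟨false,0,
  ⟨4,[(8,0),(8,0),(24,2),(3,2)]⟩,⟨2,[(0,0),(4,0),(5,0),(35,0),(0,0)]⟩⟩ ⟨false,0,⟨0,[(46,0)]⟩,⟨2,[(0,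
  0),(4,0),(39,1),(1,1)]⟩⟩,.a ⟨true,0,⟨0,[(1,0),(5,0),(3,0),(0,0),(6,0),(26,2),(1,0)]⟩,⟨0,[(4,0)]⟩⟩
  ⟨true,(-1),⟨12,[(3,9),(0,9),(1,4),(5,5),(4,3),(25,0),(2,24)]⟩,⟨2,[(0,0),(4,0),(5,0),(35,0),(0,
  0)]⟩⟩ ⟨false,0,⟨4,[(8,1),(8,1),(24,0),(3,0)]⟩,⟨2,[(0,0),(4,0),(5,0),(35,0),(0,0)]⟩⟩,.o ⟨false,0,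
  ⟨0,[(1,0)]⟩,⟨0,[(26,0)]⟩⟩]⟩)) (.S ⟨1,0,[],[1,0,0,0,-1],[0,-1],(⟨0,[(27,0)]⟩,⟨0,[(28,0)]⟩),⟨0,[(1,
  0)]⟩,.k,(.r (-1) ⟨5,[(10,1),(33,1),(1,0),(0,4)]⟩ ⟨1,[(7,0),(8,0),(24,0),(7,0)]⟩),⟨false,1,⟨3,[(4,
  1),(8,1),(32,0),(0,0)]⟩,⟨0,[]⟩⟩,⟨true,0,⟨0,[(49,0)]⟩,⟨0,[]⟩⟩,⟨true,0,⟨0,[(45,0)]⟩,⟨0,[(44,0)]⟩⟩,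
  ⟨false,0,⟨0,[(45,0)]⟩,⟨0,[(44,0),(2,0)]⟩⟩,[.e ⟨false,1,⟨1,[(46,0),(0,0)]⟩,⟨0,[(49,0)]⟩⟩ ⟨false,1,
  ⟨1,[(25,0),(0,0),(19,0)]⟩,⟨0,[]⟩⟩,.o ⟨false,1,⟨4,[(0,3),(12,0),(28,0),(4,1)]⟩,⟨7,[(2,1),(1,0),(21,
  4),(4,1),(9,0),(0,0),(2,1)]⟩⟩,.e ⟨false,1,⟨0,[(47,0)]⟩,⟨0,[(49,0)]⟩⟩ ⟨false,1,⟨3,[(4,1),(8,1),(32,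
  0),(0,0)]⟩,⟨0,[]⟩⟩,.a ⟨true,0,⟨0,[(3,0)]⟩,⟨0,[(2,0),(3,0),(3,0),(0,0),(33,3),(1,1)]⟩⟩ ⟨true,1,⟨1,
  [(46,0),(0,0)]⟩,⟨12,[(0,8),(1,9),(0,0),(1,4),(10,9),(24,2),(0,0)]⟩⟩ ⟨false,1,⟨1,[(46,0),(0,0)]⟩,
  ⟨2,[(7,0),(7,0),(28,0)]⟩⟩]⟩)) (.Q [0,0,0,0,0,0,0,0,1,-1,0,1] (.p true [0,0,0,0,1] [1] (⟨0,[(27,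
  0)]⟩,⟨0,[(26,0)]⟩) .k 1 (⟨0,[]⟩,⟨0,[]⟩) .k .k) (.R ⟨0,false,false,true,[1,0,0,0,-1],[2,-1,0,0,-1],
  [0,0,0,-1],(⟨0,[(27,0)]⟩,⟨0,[(28,0)]⟩),(⟨0,[(27,0),(11,0)]⟩,⟨0,[(1,0)]⟩),⟨0,[(1,0)]⟩,.k,(.r (-1)
  ⟨5,[(10,1),(33,1),(1,0),(0,4)]⟩ ⟨1,[(7,0),(8,0),(24,0),(7,0)]⟩),(.r (-1) ⟨5,[(10,1),(33,1),(1,0),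
  (0,4)]⟩ ⟨1,[(7,0),(8,0),(24,0),(7,0)]⟩),.k,.k,.k,⟨true,0,⟨2,[(7,0),(7,0),(28,0)]⟩,⟨0,[]⟩⟩,⟨false,
  0,⟨0,[(29,0),(2,0)]⟩,⟨10,[(4,0),(20,0),(16,1),(3,5)]⟩⟩,⟨true,0,⟨0,[(44,0)]⟩,⟨0,[(45,0)]⟩⟩,⟨false,
  0,⟨0,[(17,0),(3,0)]⟩,⟨19,[(7,1),(8,1),(25,3),(2,15),(0,2),(0,8)]⟩⟩,⟨false,0,⟨0,[]⟩,⟨0,[]⟩⟩,⟨false,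
  0,⟨0,[]⟩,⟨0,[]⟩⟩,[.e ⟨false,1,⟨1,[(44,1),(1,0),(0,0)]⟩,⟨0,[(45,0)]⟩⟩ ⟨false,0,⟨0,[(6,0),(3,0),(0,
  0),(6,0),(26,1),(1,0)]⟩,⟨24,[(7,11),(8,11),(24,5),(0,4),(2,0),(0,14)]⟩⟩,.o ⟨false,1,⟨2,[(3,1),(6,
  0),(2,0),(30,0),(2,1)]⟩,⟨22,[(0,14),(1,7),(2,1),(5,2),(4,0),(14,3),(10,4),(2,32)]⟩⟩,.o ⟨false,1,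
  ⟨0,[(25,0)]⟩,⟨0,[(0,0)]⟩⟩,.a ⟨true,0,⟨0,[(3,0)]⟩,⟨0,[(0,0),(5,0),(3,0),(0,0),(6,0),(26,2),(1,
  0)]⟩⟩ ⟨false,1,⟨5,[(10,1),(33,1),(1,0),(0,4)]⟩,⟨4,[(7,1),(8,1),(24,0),(3,0)]⟩⟩ ⟨true,0,⟨0,[(6,0),
  (3,0),(0,0),(6,0),(26,1),(1,0)]⟩,⟨19,[(2,4),(0,4),(2,4),(0,1),(8,6),(24,5),(0,4),(2,15)]⟩⟩]⟩) (.K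
  ⟨0,[-1,0,1,0,1],0,(-1),(⟨0,[(1,0),(22,0)]⟩,⟨0,[(27,0),(6,0)]⟩),.k,(.r 0 ⟨0,[(14,0),(14,0)]⟩ ⟨3,
  [(4,1),(8,1),(2,3),(29,0),(0,0)]⟩),(.r 0 ⟨0,[(7,0),(33,0)]⟩ ⟨0,[(11,0),(35,0)]⟩),.k,.k,[⟨0,[(0,
  0)]⟩,⟨0,[(2,0),(13,0),(30,0)]⟩,⟨0,[(21,0),(3,0)]⟩,⟨0,[(2,0),(42,0)]⟩]⟩))))))))

theorem ok15 : chk K t15 l17 = true := by decide +kernel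

noncomputable def t16 : Tre :=
  (.Q [0,0,0,0,0,1,0,0,0,0,0,-1] (.ed true [1,-1,0,0,1] .k) (.R ⟨0,false,false,true,[0,1,0,0,-1],[0,
  0,1,0,-1],[1,-1,1,1],(⟨0,[(0,0)]⟩,⟨0,[(23,0),(10,0)]⟩),(⟨0,[(0,0),(18,0)]⟩,⟨0,[(23,0),(5,0)]⟩),⟨0,
  [(23,0)]⟩,(.r (-1) ⟨17,[(11,13),(5,4),(7,13),(2,3),(8,0),(2,3),(1,15)]⟩ ⟨0,[(38,0)]⟩),.k,.k,.k,.k,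
  .k,⟨false,1,⟨1,[(11,1),(29,0),(0,0)]⟩,⟨0,[(9,0),(14,0)]⟩⟩,⟨true,0,⟨0,[(27,0)]⟩,⟨0,[(15,0)]⟩⟩,
  ⟨true,0,⟨0,[]⟩,⟨0,[(44,0)]⟩⟩,⟨false,0,⟨0,[(12,0)]⟩,⟨5,[(11,5),(5,0),(6,3),(12,0),(3,0),(0,2)]⟩⟩,
  ⟨false,0,⟨0,[]⟩,⟨0,[]⟩⟩,⟨false,0,⟨0,[]⟩,⟨0,[]⟩⟩,[.e ⟨false,1,⟨8,[(8,4),(12,4),(15,0),(2,8),(1,
  1)]⟩,⟨0,[(38,0)]⟩⟩ ⟨false,0,⟨0,[(13,0)]⟩,⟨9,[(16,9),(3,0),(0,0),(15,1),(3,4)]⟩⟩,.o ⟨false,2,⟨2,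
  [(8,1),(4,1),(6,0),(4,0),(11,0),(4,0)]⟩,⟨1,[(1,0),(0,0),(8,0),(5,0)]⟩⟩,.o ⟨false,2,⟨9,[(20,10),(0,
  0),(15,1),(3,4)]⟩,⟨0,[(1,0),(6,0)]⟩⟩,.a ⟨true,1,⟨0,[(20,0)]⟩,⟨1,[(1,2),(0,0),(5,3),(4,0),(10,0),
  (15,0)]⟩⟩ ⟨false,1,⟨0,[(40,0),(1,0)]⟩,⟨0,[(39,0)]⟩⟩ ⟨true,0,⟨0,[(13,0)]⟩,⟨0,[(26,0)]⟩⟩]⟩) (.S ⟨1,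
  0,[0,1],[0,0,0,0,1],[0,2],(⟨0,[(23,0)]⟩,⟨0,[(22,0)]⟩),⟨0,[(0,0)]⟩,.k,(.r 0 ⟨0,[(38,0)]⟩ ⟨31,[(0,
  14),(2,4),(0,14),(3,14),(2,0),(7,4),(5,0),(2,0),(8,3),(2,30),(1,8)]⟩),⟨true,0,⟨0,[(44,0)]⟩,⟨0,
  []⟩⟩,⟨false,1,⟨8,[(8,4),(12,4),(15,0),(4,1)]⟩,⟨0,[]⟩⟩,⟨false,0,⟨0,[(40,0)]⟩,⟨0,[(39,0),(2,0)]⟩⟩,
  ⟨true,0,⟨0,[(40,0)]⟩,⟨0,[(39,0)]⟩⟩,[.e ⟨false,0,⟨0,[(36,0)]⟩,⟨0,[(42,0)]⟩⟩ ⟨false,0,⟨2,[(5,0),(30,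
  0),(3,1)]⟩,⟨8,[(8,4),(12,4),(15,0),(4,1)]⟩⟩,.o ⟨false,0,⟨6,[(1,1),(19,2),(15,0),(3,0),(0,0)]⟩,⟨0,
  [(20,0)]⟩⟩,.o ⟨false,0,⟨6,[(1,1),(19,2),(15,0),(3,0),(0,0)]⟩,⟨0,[(20,0)]⟩⟩,.a ⟨true,(-1),⟨0,[(1,
  0),(6,0)]⟩,⟨3,[(2,0),(5,2),(4,0),(6,0),(3,0),(11,0),(3,0)]⟩⟩ ⟨false,0,⟨2,[(5,0),(30,0),(3,1)]⟩,⟨1,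
  [(27,0),(0,0),(13,1)]⟩⟩ ⟨true,0,⟨2,[(5,0),(30,0),(3,1)]⟩,⟨1,[(27,0),(0,0)]⟩⟩]⟩))

theorem ok16 : chk K t16 l18 = true := by decide +kernel

noncomputable def t17 : Tre :=
  (.Q [0,0,0,0,0,0,0,0,-1,1,0,-1] (.p false [0,0,0,0,1] [1] (⟨0,[(23,0)]⟩,⟨0,[(22,0)]⟩) .k 1 (⟨0,
  []⟩,⟨0,[]⟩) .k .k) (.Q [0,0,0,0,0,0,0,0,0,-1,1,1] (.ed false [0,0,1,0,1] (.r 0 ⟨1,[(10,0),(7,0),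
  (7,0),(14,0)]⟩ ⟨1,[(8,0),(2,0),(5,0),(25,0)]⟩)) (.Q [0,0,-1,0,0,0,-1,0,-1,1,-1,-1] (.p false [-1,
  0,1,0,1] [] (⟨0,[(0,0)]⟩,⟨0,[(24,0),(6,0)]⟩) .k 0 (⟨0,[]⟩,⟨0,[]⟩) .k (.r 0 ⟨1,[(11,0),(7,0),(7,0),
  (14,0)]⟩ ⟨1,[(9,0),(2,0),(5,0),(25,0)]⟩)) (.Q [0,0,1,0,0,0,1,0,-1,0,1,-1] (.p true [0,0,1] [0,0,0,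
  0,1] (⟨0,[(33,0)]⟩,⟨0,[(32,0)]⟩) .k 2 (⟨0,[(26,0)]⟩,⟨0,[(25,0)]⟩) .k (.r (-1) ⟨9,[(16,3),(3,4),(7,
  5),(11,0),(4,7)]⟩ ⟨2,[(9,0),(3,0),(0,0),(24,0)]⟩)) (.Q [0,0,0,0,0,-1,0,0,0,1,0,-1] (.ed true [0,1,
  0,0,1] .k) (.R ⟨1,false,false,true,[1,0,0,0,-1],[2,0,-1,0,-1],[],(⟨0,[(27,0)]⟩,⟨0,[(28,0)]⟩),(⟨0,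
  [(27,0),(6,0)]⟩,⟨0,[(3,0)]⟩),⟨0,[(0,0)]⟩,.k,.k,(.r (-1) ⟨5,[(10,1),(33,1),(1,0),(0,4)]⟩ ⟨4,[(16,
  2),(13,2),(2,2),(7,0),(3,1)]⟩),.k,.k,.k,⟨true,0,⟨0,[(18,0),(1,0)]⟩,⟨0,[(15,0)]⟩⟩,⟨false,0,⟨0,[(29,
  0)]⟩,⟨7,[(9,0),(2,4),(12,0),(2,0),(3,2),(6,1),(2,0)]⟩⟩,⟨true,0,⟨0,[(49,0)]⟩,⟨0,[]⟩⟩,⟨false,0,⟨0,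
  [(21,0)]⟩,⟨4,[(18,3),(11,0),(11,0),(4,2)]⟩⟩,⟨false,0,⟨0,[(45,0)]⟩,⟨0,[(44,0),(2,0)]⟩⟩,⟨false,0,⟨0,
  [(16,0),(12,0)]⟩,⟨4,[(17,3),(1,0),(22,0),(4,2)]⟩⟩,[.o ⟨false,0,⟨0,[(2,0),(12,0)]⟩,⟨9,[(18,6),(7,
  9),(3,2),(11,3),(4,1),(1,0)]⟩⟩,.e ⟨false,1,⟨1,[(46,0),(0,0)]⟩,⟨0,[(49,0)]⟩⟩ ⟨false,1,⟨1,[(21,1),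
  (24,0),(0,0)]⟩,⟨0,[(14,0),(30,0)]⟩⟩,.a ⟨true,0,⟨0,[(4,0)]⟩,⟨0,[(26,0)]⟩⟩ ⟨false,1,⟨45,[(6,9),(2,
  4),(16,14),(1,4),(10,9),(2,3),(4,17)]⟩,⟨0,[]⟩⟩ ⟨true,0,⟨0,[(21,0)]⟩,⟨0,[(14,0),(30,0)]⟩⟩,.o
  ⟨false,0,⟨0,[(1,0),(18,0)]⟩,⟨32,[(6,1),(19,36),(14,0),(0,6),(3,14)]⟩⟩]⟩) (.R ⟨0,false,false,false,
  [1,0,0,0,-1],[0,1],[1,0,1,1],(⟨0,[(27,0)]⟩,⟨0,[(28,0)]⟩),(⟨0,[(40,0)]⟩,⟨0,[(39,0)]⟩),⟨0,[(0,0)]⟩,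
  .k,.k,(.r (-1) ⟨5,[(10,1),(33,1),(1,0),(0,4)]⟩ ⟨4,[(16,2),(13,2),(2,2),(7,0),(3,1)]⟩),(.r (-1) ⟨5,
  [(10,1),(33,1),(1,0),(0,4)]⟩ ⟨4,[(16,2),(13,2),(2,2),(7,0),(3,1)]⟩),.k,.k,⟨true,0,⟨0,[]⟩,⟨1,[(32,
  0),(0,0)]⟩⟩,⟨false,1,⟨4,[(10,3),(15,4),(15,0),(2,7),(0,0),(0,1)]⟩,⟨1,[(4,1),(27,0),(0,0)]⟩⟩,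
  ⟨false,0,⟨1,[(32,0),(0,0),(11,1)]⟩,⟨5,[(10,1),(33,1),(1,0),(0,4)]⟩⟩,⟨true,0,⟨1,[(0,0),(6,0),(1,0),
  (4,0),(5,0),(5,0),(9,2),(8,3)]⟩,⟨0,[(2,0),(12,0),(1,0)]⟩⟩,⟨false,0,⟨0,[]⟩,⟨0,[]⟩⟩,⟨false,0,⟨0,[]⟩,
  ⟨0,[]⟩⟩,[.e ⟨false,0,⟨0,[(45,0)]⟩,⟨1,[(44,1),(1,0),(0,0)]⟩⟩ ⟨false,1,⟨32,[(6,1),(19,36),(14,0),(0,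
  6),(2,32),(0,14)]⟩,⟨0,[(2,0),(12,0),(1,0)]⟩⟩,.o ⟨false,1,⟨45,[(6,1),(2,0),(16,2),(1,0),(10,1),(2,
  9),(2,45),(1,21)]⟩,⟨0,[(44,0)]⟩⟩,.a ⟨true,0,⟨0,[(4,0)]⟩,⟨0,[(26,0)]⟩⟩ ⟨true,0,⟨1,[(32,0),(0,0),
  (11,1)]⟩,⟨0,[(43,0)]⟩⟩ ⟨false,1,⟨45,[(6,1),(2,0),(16,48),(1,0),(10,1),(2,9),(2,45),(1,21)]⟩,⟨0,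
  [(2,0),(12,0),(1,0)]⟩⟩,.o ⟨false,0,⟨0,[(1,0),(18,0)]⟩,⟨32,[(6,1),(19,36),(14,0),(0,6),(3,
  14)]⟩⟩]⟩)) (.Q [0,0,0,0,0,-1,0,0,0,-1,1,1] (.p true [-1,0,1,0,1] [] (⟨0,[(2,0)]⟩,⟨0,[(26,0),(6,
  0)]⟩) .k 0 (⟨0,[]⟩,⟨0,[]⟩) .k (.r 0 ⟨1,[(13,0),(7,0),(7,0),(14,0)]⟩ ⟨1,[(11,0),(2,0),(5,0),(25,
  0)]⟩)) (.R ⟨1,false,false,false,[-1,0,1,0,1],[0,0,0,0,1],[0,1,0,0,0,0,0,1],(⟨0,[(3,0)]⟩,⟨0,[(27,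
  0),(6,0)]⟩),(⟨0,[(28,0)]⟩,⟨0,[(27,0)]⟩),⟨0,[(0,0)]⟩,.k,.k,(.r 0 ⟨0,[(14,0),(14,0)]⟩ ⟨45,[(6,9),(2,
  4),(6,45),(9,14),(1,4),(10,9),(2,3),(4,17)]⟩),.k,.k,.k,⟨true,0,⟨0,[(18,0),(1,0)]⟩,⟨0,[(15,0)]⟩⟩,
  ⟨false,0,⟨0,[(29,0)]⟩,⟨7,[(9,0),(2,4),(12,0),(2,0),(3,2),(6,1),(2,0)]⟩⟩,⟨false,1,⟨45,[(6,9),(2,4),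
  (16,14),(1,4),(10,9),(2,3),(4,17)]⟩,⟨0,[]⟩⟩,⟨true,0,⟨0,[(21,0)]⟩,⟨0,[(14,0),(30,0)]⟩⟩,⟨true,0,⟨0,
  [(45,0)]⟩,⟨0,[(44,0)]⟩⟩,⟨true,0,⟨0,[(16,0),(12,0)]⟩,⟨0,[(14,0)]⟩⟩,[.o ⟨false,0,⟨0,[(1,0),(12,0),
  (1,0)]⟩,⟨0,[(5,0)]⟩⟩,.a ⟨true,0,⟨0,[(26,0)]⟩,⟨0,[(4,0)]⟩⟩ ⟨true,0,⟨0,[(18,0),(1,0)]⟩,⟨0,[(15,
  0)]⟩⟩ ⟨false,0,⟨0,[(29,0)]⟩,⟨7,[(9,0),(2,4),(12,0),(2,0),(3,2),(6,1),(2,0)]⟩⟩,.o ⟨false,1,⟨7,[(7,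
  1),(4,0),(5,1),(7,7),(5,4),(9,2),(2,1),(1,0)]⟩,⟨1,[(2,0),(1,0),(28,0)]⟩⟩,.o ⟨false,1,⟨8,[(0,1),(7,
  1),(0,2),(2,2),(13,5),(1,0),(3,5),(9,2)]⟩,⟨0,[(2,0)]⟩⟩]⟩) (.R ⟨0,false,false,false,[-1,0,1,0,1],
  [0,0,0,0,1],[0,1,0,0,0,0,0,1],(⟨0,[(3,0)]⟩,⟨0,[(27,0),(6,0)]⟩),(⟨0,[(28,0)]⟩,⟨0,[(27,0)]⟩),⟨0,[(0,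
  0)]⟩,.k,.k,(.r 0 ⟨0,[(14,0),(14,0)]⟩ ⟨45,[(6,9),(2,4),(6,45),(9,14),(1,4),(10,9),(2,3),(4,17)]⟩),
  .k,.k,.k,⟨true,0,⟨0,[(18,0),(1,0)]⟩,⟨0,[(15,0)]⟩⟩,⟨false,0,⟨0,[(29,0)]⟩,⟨7,[(9,0),(2,4),(12,0),(2,
  0),(3,2),(6,1),(2,0)]⟩⟩,⟨false,1,⟨45,[(6,9),(2,4),(16,14),(1,4),(10,9),(2,3),(4,17)]⟩,⟨0,[]⟩⟩,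
  ⟨true,0,⟨0,[(21,0)]⟩,⟨0,[(14,0),(30,0)]⟩⟩,⟨false,0,⟨0,[]⟩,⟨0,[]⟩⟩,⟨false,0,⟨0,[]⟩,⟨0,[]⟩⟩,[.o
  ⟨false,0,⟨0,[(1,0),(12,0),(1,0)]⟩,⟨0,[(5,0)]⟩⟩,.a ⟨true,0,⟨0,[(26,0)]⟩,⟨0,[(4,0)]⟩⟩ ⟨true,0,⟨0,
  [(18,0),(1,0)]⟩,⟨0,[(15,0)]⟩⟩ ⟨false,0,⟨0,[(29,0)]⟩,⟨7,[(9,0),(2,4),(12,0),(2,0),(3,2),(6,1),(2,
  0)]⟩⟩,.o ⟨false,1,⟨7,[(7,1),(4,0),(5,1),(7,7),(5,4),(9,2),(2,1),(1,0)]⟩,⟨1,[(2,0),(1,0),(28,0)]⟩⟩,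
  .o ⟨false,1,⟨30,[(9,2),(2,2),(13,27),(1,2),(3,27),(6,5),(2,12),(4,1),(1,3)]⟩,⟨0,[(2,0)]⟩⟩]⟩)))
  (.K ⟨0,[1,1,0,0,-1],0,0,(⟨0,[(25,0),(9,0)]⟩,⟨1,[(1,0),(4,0),(19,0)]⟩),(.r (-1) ⟨4,[(0,3),(3,0),(6,
  1),(8,0),(10,1),(11,4),(1,0)]⟩ ⟨0,[(41,0)]⟩),.k,(.x (-1) ⟨0,[(1,0),(1,0),(2,0),(1,0),(34,1)]⟩ ⟨0,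
  [(7,0)]⟩),(.r (-1) ⟨33,[(0,9),(3,9),(9,33),(5,4),(3,9),(15,0),(4,11)]⟩ ⟨0,[(12,0),(14,0)]⟩),.k,
  [⟨0,[(0,0)]⟩,⟨0,[(2,0)]⟩,⟨0,[(12,0),(11,0),(4,0)]⟩,⟨0,[(2,0),(40,0)]⟩]⟩)) (.Q [0,0,-1,0,0,0,-1,0,
  1,0,-1,1] (.p false [0,0,1] [0,0,0,0,1] (⟨0,[(32,0)]⟩,⟨0,[(31,0)]⟩) .k 2 (⟨0,[(25,0)]⟩,⟨0,[(24,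
  0)]⟩) .k (.r (-1) ⟨9,[(15,3),(3,4),(7,5),(11,0),(4,7)]⟩ ⟨2,[(8,0),(3,0),(0,0),(24,0)]⟩)) (.Q [0,0,
  0,0,0,-1,0,0,0,0,1,-1] (.p true [0,0,1] [0,0,0,0,1] (⟨0,[(33,0)]⟩,⟨0,[(32,0)]⟩) .k 2 (⟨0,[(26,
  0)]⟩,⟨0,[(25,0)]⟩) .k (.r (-1) ⟨9,[(16,3),(3,4),(7,5),(11,0),(4,7)]⟩ ⟨2,[(9,0),(3,0),(0,0),(24,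
  0)]⟩)) (.R ⟨1,false,false,true,[0,0,1,0,-1],[1,0,0,0,-1],[0,0,0,0,0,0,0,1],(⟨0,[(0,0),(35,0)]⟩,⟨0,
  [(27,0),(5,0)]⟩),(⟨0,[(26,0)]⟩,⟨0,[(27,0)]⟩),⟨0,[(0,0)]⟩,.k,.k,(.r (-1) ⟨17,[(1,3),(3,1),(10,17),
  (4,0),(6,11),(12,2),(4,7)]⟩ ⟨0,[(15,0),(32,0)]⟩),.k,.k,.k,⟨true,0,⟨0,[(17,0),(1,0)]⟩,⟨0,[(14,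
  0)]⟩⟩,⟨false,0,⟨0,[(28,0)]⟩,⟨7,[(8,0),(2,4),(12,0),(2,0),(3,2),(6,1),(2,0)]⟩⟩,⟨true,0,⟨0,[(48,
  0)]⟩,⟨0,[]⟩⟩,⟨false,0,⟨0,[(20,0)]⟩,⟨4,[(17,3),(11,0),(11,0),(4,2)]⟩⟩,⟨false,0,⟨0,[(44,0)]⟩,⟨0,
  [(43,0),(2,0)]⟩⟩,⟨false,0,⟨0,[(15,0),(12,0)]⟩,⟨4,[(16,3),(1,0),(22,0),(4,2)]⟩⟩,[.a ⟨true,0,⟨0,[(3,
  0)]⟩,⟨0,[(25,0)]⟩⟩ ⟨true,0,⟨0,[(17,0),(1,0)]⟩,⟨0,[(14,0)]⟩⟩ ⟨false,0,⟨0,[(28,0)]⟩,⟨7,[(8,0),(2,4),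
  (12,0),(2,0),(3,2),(6,1),(2,0)]⟩⟩,.o ⟨false,1,⟨0,[(4,0)]⟩,⟨0,[(1,0),(11,0),(1,0)]⟩⟩,.o ⟨false,1,
  ⟨7,[(3,7),(2,1),(4,0),(5,1),(13,4),(9,2),(2,1),(1,0)]⟩,⟨1,[(1,0),(23,0),(6,0)]⟩⟩,.o ⟨false,1,⟨10,
  [(3,7),(1,0),(18,0),(6,10),(9,3),(5,0),(0,0)]⟩,⟨0,[(1,0)]⟩⟩]⟩) (.Q [0,0,0,0,0,0,0,0,0,0,-1,1]
  (.ed false [1,0,-1,0,1] (.r 0 ⟨2,[(10,0),(3,0),(0,0),(24,0)]⟩ ⟨9,[(17,3),(3,4),(7,5),(11,0),(4,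
  7)]⟩)) (.Q [0,0,1,0,0,0,0,0,1,-1,0,1] (.p true [0,0,0,0,1] [1] (⟨0,[(28,0)]⟩,⟨0,[(27,0)]⟩) .k 1
  (⟨0,[]⟩,⟨0,[]⟩) .k .k) (.S ⟨1,0,[0,2],[0,0,0,0,1],[1,1,0,-1],(⟨0,[(29,0)]⟩,⟨0,[(28,0)]⟩),⟨0,[(1,
  0),(23,0)]⟩,.k,(.r 0 ⟨0,[(44,0)]⟩ ⟨0,[(0,0),(13,0),(31,0)]⟩),⟨false,1,⟨0,[(45,0),(2,0)]⟩,⟨0,[(46,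
  0)]⟩⟩,⟨true,0,⟨0,[(50,0)]⟩,⟨0,[]⟩⟩,⟨true,0,⟨0,[]⟩,⟨0,[(50,0)]⟩⟩,⟨false,0,⟨0,[(46,0)]⟩,⟨0,[(45,0),
  (2,0)]⟩⟩,[.e ⟨false,0,⟨4,[(11,1),(30,0),(2,0)]⟩,⟨2,[(0,0),(6,0),(19,0),(18,2),(1,0)]⟩⟩ ⟨false,0,
  ⟨0,[(42,0)]⟩,⟨0,[(48,0)]⟩⟩,.o ⟨false,0,⟨5,[(0,4),(2,0),(4,0),(6,0),(26,1),(3,1)]⟩,⟨0,[(6,0)]⟩⟩,.a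
  ⟨true,0,⟨0,[(27,0)]⟩,⟨0,[(5,0)]⟩⟩ ⟨true,0,⟨0,[(45,0)]⟩,⟨0,[(46,0)]⟩⟩ ⟨false,0,⟨0,[(50,0)]⟩,⟨0,
  [(48,0)]⟩⟩,.o ⟨false,0,⟨0,[(0,0)]⟩,⟨16,[(5,12),(1,1),(34,0),(0,2),(3,6)]⟩⟩]⟩) (.I [0,2,1,1,-1,0,0,
  -1] (.R ⟨1,false,false,true,[1,0,1,0,-1],[1,0,0,0,-1],[1,-1,0,-1,0,0,0,1],(⟨0,[(29,0),(7,0)]⟩,⟨0,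
  [(2,0)]⟩),(⟨0,[(29,0)]⟩,⟨0,[(30,0)]⟩),⟨0,[(26,0),(2,0)]⟩,.k,.k,(.r (-1) ⟨17,[(4,3),(3,1),(10,17),
  (4,0),(6,11),(12,2),(4,7)]⟩ ⟨0,[(18,0),(32,0)]⟩),.k,.k,.k,⟨false,1,⟨17,[(4,3),(3,1),(10,17),(4,0),
  (6,11),(12,2),(4,7)]⟩,⟨1,[(0,0),(17,0),(29,0)]⟩⟩,⟨true,0,⟨0,[(22,0)]⟩,⟨0,[(34,0)]⟩⟩,⟨false,1,⟨0,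
  [(46,0),(2,0)]⟩,⟨0,[(47,0)]⟩⟩,⟨true,0,⟨0,[(33,0)]⟩,⟨0,[(20,0)]⟩⟩,⟨true,0,⟨0,[]⟩,⟨0,[(51,0)]⟩⟩,
  ⟨true,0,⟨0,[(33,0),(13,0)]⟩,⟨0,[(19,0)]⟩⟩,[.a ⟨true,0,⟨0,[(6,0)]⟩,⟨0,[(28,0)]⟩⟩ ⟨false,1,⟨17,[(4,
  3),(3,1),(10,17),(4,0),(6,11),(12,2),(4,7)]⟩,⟨1,[(0,0),(17,0),(29,0)]⟩⟩ ⟨true,0,⟨0,[(22,0)]⟩,⟨0,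
  [(34,0)]⟩⟩,.o ⟨false,1,⟨0,[(7,0)]⟩,⟨5,[(0,1),(3,1),(11,0),(4,0),(6,3),(15,0)]⟩⟩,.a ⟨true,0,⟨0,[(1,
  0),(32,0)]⟩,⟨1,[(4,0),(23,0),(6,0)]⟩⟩ ⟨false,1,⟨0,[(19,0),(2,0),(26,0)]⟩,⟨1,[(0,0),(17,0),(29,
  0)]⟩⟩ ⟨true,0,⟨0,[(22,0)]⟩,⟨4,[(0,0),(8,0),(22,1),(1,2),(13,0)]⟩⟩,.a ⟨true,0,⟨0,[(6,0),(27,0)]⟩,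
  ⟨0,[(4,0)]⟩⟩ ⟨true,1,⟨17,[(4,3),(3,1),(10,17),(4,0),(6,11),(12,2),(4,7)]⟩,⟨0,[(0,0)]⟩⟩ ⟨false,1,
  ⟨17,[(4,3),(3,1),(15,0),(6,11),(12,2),(4,7)]⟩,⟨0,[(34,0)]⟩⟩]⟩) (.Q [0,-2,-1,0,1,0,-1,0,0,0,-1]
  (.p false [0,0,1] [] (⟨0,[(37,0)]⟩,⟨0,[(36,0)]⟩) .k 0 (⟨0,[]⟩,⟨0,[]⟩) .k .k) (.R ⟨1,false,false,
  false,[1,0,1,0,-1],[1,0,0,0,-1],[0,0,0,0,0,0,0,1],(⟨0,[(30,0),(7,0)]⟩,⟨0,[(3,0)]⟩),(⟨0,[(30,0)]⟩,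
  ⟨0,[(31,0)]⟩),⟨0,[(27,0),(2,0)]⟩,.k,.k,(.r (-1) ⟨66,[(1,41),(3,10),(3,7),(12,24),(2,6),(3,4),(15,
  2),(3,2)]⟩ ⟨0,[(19,0),(32,0)]⟩),.k,.k,.k,⟨false,0,⟨0,[(17,0),(14,0),(15,0)]⟩,⟨1,[(15,0),(2,0),(5,
  0),(25,0)]⟩⟩,⟨true,0,⟨0,[(23,0)]⟩,⟨0,[(35,0)]⟩⟩,⟨true,0,⟨0,[(52,0)]⟩,⟨0,[]⟩⟩,⟨false,1,⟨33,[(9,1),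
  (8,1),(5,31),(0,0),(3,3),(15,6),(4,15)]⟩,⟨0,[(21,0)]⟩⟩,⟨false,0,⟨0,[(48,0)]⟩,⟨0,[(47,0),(2,0)]⟩⟩,
  ⟨false,1,⟨41,[(0,11),(4,19),(3,9),(9,41),(5,4),(19,2),(4,3)]⟩,⟨0,[(20,0)]⟩⟩,[.o ⟨false,1,⟨0,[(8,
  0)]⟩,⟨0,[(5,0),(11,0),(1,0)]⟩⟩,.e ⟨false,1,⟨0,[(0,0),(32,0)]⟩,⟨2,[(14,0),(3,0),(0,0),(24,0)]⟩⟩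
  ⟨false,1,⟨0,[(0,0)]⟩,⟨0,[(35,0),(8,0)]⟩⟩,.a ⟨true,0,⟨0,[(2,0),(32,0)]⟩,⟨1,[(5,0),(23,0),(6,0)]⟩⟩
  ⟨true,0,⟨0,[(21,0),(1,0)]⟩,⟨2,[(14,0),(3,0),(0,0),(24,0)]⟩⟩ ⟨false,1,⟨1,[(0,0),(35,0),(13,0)]⟩,⟨2,
  [(10,0),(8,0),(13,1),(1,0)]⟩⟩,.e ⟨false,1,⟨0,[(0,0),(32,0)]⟩,⟨0,[(18,0)]⟩⟩ ⟨false,1,⟨0,[(0,0)]⟩,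
  ⟨0,[(35,0),(16,0)]⟩⟩]⟩) (.S ⟨1,0,[0,-1,0,0,0,0,0,1],[1,0,1,0,-1],[1,0,0,-1,0,0,0,1],(⟨0,[(30,0),
  (7,0)]⟩,⟨0,[(3,0)]⟩),⟨0,[(27,0),(2,0)]⟩,.k,(.r (-1) ⟨66,[(1,41),(3,10),(3,7),(12,24),(2,6),(3,4),
  (15,2),(3,2)]⟩ ⟨0,[(19,0),(32,0)]⟩),⟨true,0,⟨0,[(47,0)]⟩,⟨0,[(48,0)]⟩⟩,⟨false,1,⟨45,[(9,9),(2,4),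
  (16,14),(1,4),(10,9),(2,3),(4,17)]⟩,⟨0,[]⟩⟩,⟨false,0,⟨0,[]⟩,⟨45,[(9,9),(2,4),(16,14),(1,4),(10,9),
  (2,3),(4,17)]⟩⟩,⟨true,0,⟨0,[(48,0)]⟩,⟨0,[(47,0)]⟩⟩,[.o ⟨false,1,⟨0,[(8,0),(12,0)]⟩,⟨9,[(0,3),(4,
  9),(4,0),(7,6),(0,0),(3,2),(10,0),(10,1)]⟩⟩,.e ⟨false,1,⟨67,[(1,41),(3,15),(3,9),(12,25),(2,4),(3,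
  3),(15,2)]⟩,⟨4,[(10,0),(8,3),(24,1),(3,1)]⟩⟩ ⟨false,1,⟨0,[(1,0),(46,0)]⟩,⟨0,[(18,0),(25,0)]⟩⟩,.a
  ⟨true,0,⟨0,[(2,0),(32,0)]⟩,⟨1,[(5,0),(23,0),(6,0)]⟩⟩ ⟨true,0,⟨0,[(20,0),(2,0)]⟩,⟨4,[(10,0),(8,3),
  (24,1),(3,1)]⟩⟩ ⟨false,1,⟨1,[(1,0),(19,0),(14,0),(11,0),(1,0)]⟩,⟨2,[(14,0),(3,0),(0,0),(24,0)]⟩⟩,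
  .e ⟨false,1,⟨67,[(1,41),(3,15),(3,9),(12,25),(2,4),(3,3),(15,2)]⟩,⟨0,[(19,0)]⟩⟩ ⟨false,1,⟨0,[(1,
  0),(46,0)]⟩,⟨0,[(18,0),(33,0)]⟩⟩]⟩)))) (.R ⟨0,false,false,true,[0,0,1,0,-1],[1,0,0,0,-1],[0,0,0,0,
  0,0,0,1],(⟨0,[(0,0)]⟩,⟨0,[(28,0),(5,0)]⟩),(⟨0,[(27,0)]⟩,⟨0,[(28,0)]⟩),⟨0,[(1,0)]⟩,.k,.k,(.r (-1)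
  ⟨17,[(2,3),(3,1),(10,17),(4,0),(6,11),(12,2),(4,7)]⟩ ⟨0,[(16,0),(32,0)]⟩),.k,.k,.k,⟨true,0,⟨0,
  [(18,0),(1,0)]⟩,⟨0,[(15,0)]⟩⟩,⟨false,0,⟨0,[(29,0)]⟩,⟨7,[(9,0),(2,4),(12,0),(2,0),(3,2),(6,1),(2,
  0)]⟩⟩,⟨true,0,⟨0,[(49,0)]⟩,⟨0,[]⟩⟩,⟨false,0,⟨0,[(21,0)]⟩,⟨4,[(18,3),(11,0),(11,0),(4,2)]⟩⟩,⟨false,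
  0,⟨0,[]⟩,⟨0,[]⟩⟩,⟨false,0,⟨0,[]⟩,⟨0,[]⟩⟩,[.a ⟨true,0,⟨0,[(4,0)]⟩,⟨0,[(26,0)]⟩⟩ ⟨true,0,⟨0,[(18,0),
  (1,0)]⟩,⟨0,[(15,0)]⟩⟩ ⟨false,0,⟨0,[(29,0)]⟩,⟨7,[(9,0),(2,4),(12,0),(2,0),(3,2),(6,1),(2,0)]⟩⟩,.o
  ⟨false,1,⟨0,[(5,0)]⟩,⟨0,[(2,0),(11,0),(1,0)]⟩⟩,.o ⟨false,1,⟨7,[(4,7),(2,1),(4,0),(5,1),(13,4),(9,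
  2),(2,1),(1,0)]⟩,⟨1,[(2,0),(23,0),(6,0)]⟩⟩,.o ⟨false,1,⟨10,[(4,7),(1,0),(18,0),(6,10),(9,3),(5,0),
  (0,0)]⟩,⟨0,[(2,0)]⟩⟩]⟩))) (.Q [0,-2,0,0,1,0,-1,-1,-1,0,-1,-1] (.p false [0,0,1,0,1] [] (⟨0,[(26,
  0),(6,0)]⟩,⟨0,[(1,0)]⟩) .k 0 (⟨0,[]⟩,⟨0,[]⟩) .k (.r 0 ⟨1,[(12,0),(7,0),(7,0),(14,0)]⟩ ⟨1,[(10,0),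
  (2,0),(5,0),(25,0)]⟩)) (.R ⟨1,false,false,true,[0,0,1],[0,0,1,0,1],[0,1,0,0,0,0,0,1],(⟨0,[(34,
  0)]⟩,⟨0,[(33,0)]⟩),(⟨0,[(27,0),(6,0)]⟩,⟨0,[(2,0)]⟩),⟨0,[(23,0)]⟩,.k,.k,.k,.k,(.r (-1) ⟨5,[(9,1),
  (33,1),(1,0),(0,4)]⟩ ⟨4,[(15,2),(13,2),(2,2),(7,0),(3,1)]⟩),.k,⟨false,1,⟨1,[(45,0),(0,0)]⟩,⟨0,
  [(48,0)]⟩⟩,⟨true,0,⟨0,[(25,0)]⟩,⟨0,[(1,0),(17,0)]⟩⟩,⟨true,0,⟨0,[(48,0)]⟩,⟨0,[]⟩⟩,⟨false,0,⟨0,[(25,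
  0),(22,0)]⟩,⟨0,[(0,0),(16,0)]⟩⟩,⟨false,0,⟨0,[(44,0)]⟩,⟨0,[(43,0),(2,0)]⟩⟩,⟨false,0,⟨4,[(15,0),(9,
  4),(3,0),(2,0),(7,1),(3,3)]⟩,⟨0,[(0,0),(15,0)]⟩⟩,[.o ⟨false,0,⟨4,[(13,4),(1,0),(9,4),(3,0),(2,0),
  (7,1),(3,3)]⟩,⟨0,[(0,0)]⟩⟩,.o ⟨false,0,⟨0,[(13,0),(11,0),(18,0)]⟩,⟨2,[(0,1),(23,0),(5,0)]⟩⟩,.o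
  ⟨false,1,⟨7,[(8,0),(2,4),(12,0),(2,0),(3,2),(6,1),(2,0)]⟩,⟨0,[(19,0)]⟩⟩,.a ⟨true,0,⟨0,[(31,0)]⟩,
  ⟨0,[(28,0)]⟩⟩ ⟨true,0,⟨0,[(13,0),(14,0),(15,0)]⟩,⟨0,[(14,0)]⟩⟩ ⟨false,0,⟨0,[(13,0),(11,0),(2,0),
  (15,0)]⟩,⟨1,[(0,0),(0,0),(12,0),(31,0)]⟩⟩]⟩) (.Q [0,2,0,1,-1,0,0,0,1,0,0,1] (.p true [0,0,0,0,1]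
  [] (⟨0,[(27,0)]⟩,⟨0,[(26,0)]⟩) .k 0 (⟨0,[]⟩,⟨0,[]⟩) .k .k) (.K ⟨0,[0,1,0,0,1],0,(-1),(⟨0,[(28,0),
  (8,0)]⟩,⟨0,[(3,0),(20,0)]⟩),(.r 0 ⟨3,[(0,0),(15,1),(8,0),(4,1),(2,1),(11,0)]⟩ ⟨5,[(10,1),(33,1),
  (1,0),(0,4)]⟩),.k,(.r 0 ⟨0,[(16,0),(13,0),(2,0),(11,0)]⟩ ⟨0,[(10,0),(36,0)]⟩),(.r 0 ⟨0,[(16,0),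
  (32,0)]⟩ ⟨5,[(17,5),(4,0),(6,3),(12,0),(3,0),(0,2)]⟩),.k,[⟨0,[(2,0)]⟩,⟨0,[(26,0)]⟩,⟨0,[(5,0),(38,
  0)]⟩,⟨0,[(0,0)]⟩]⟩) (.R ⟨1,false,false,true,[0,0,1],[0,0,0,0,1],[0,1,0,0,0,0,0,1],(⟨0,[(35,0)]⟩,
  ⟨0,[(34,0)]⟩),(⟨0,[(28,0)]⟩,⟨0,[(27,0)]⟩),⟨0,[(24,0)]⟩,.k,.k,.k,.k,(.r (-1) ⟨5,[(17,5),(4,0),(6,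
  3),(12,0),(3,0),(0,2)]⟩ ⟨0,[(16,0),(32,0)]⟩),.k,⟨false,1,⟨5,[(18,5),(3,0),(6,3),(12,0),(3,0),(0,
  2)]⟩,⟨2,[(11,0),(3,0),(0,0),(24,0)]⟩⟩,⟨true,0,⟨0,[(20,0),(5,0)]⟩,⟨0,[(2,0)]⟩⟩,⟨true,0,⟨0,[(49,
  0)]⟩,⟨0,[]⟩⟩,⟨false,0,⟨0,[(26,0),(4,0)]⟩,⟨0,[(0,0),(17,0),(26,0)]⟩⟩,⟨false,0,⟨0,[(45,0)]⟩,⟨0,[(44,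
  0),(2,0)]⟩⟩,⟨false,0,⟨0,[(26,0),(4,0),(13,0)]⟩,⟨0,[(0,0),(17,0)]⟩⟩,[.o ⟨false,0,⟨4,[(1,1),(24,2),
  (4,1),(10,0),(6,3)]⟩,⟨0,[(0,0),(44,0)]⟩⟩,.o ⟨false,0,⟨9,[(1,3),(5,0),(7,0),(0,0),(3,2),(5,5),(4,
  0),(10,1)]⟩,⟨0,[(5,0)]⟩⟩,.o ⟨false,1,⟨7,[(9,0),(2,4),(12,0),(2,0),(3,2),(6,1),(2,0)]⟩,⟨0,[(20,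
  0)]⟩⟩,.a ⟨true,0,⟨0,[(32,0)]⟩,⟨0,[(29,0)]⟩⟩ ⟨true,0,⟨0,[(14,0),(14,0),(15,0)]⟩,⟨0,[(15,0)]⟩⟩
  ⟨false,0,⟨5,[(1,1),(5,1),(14,2),(3,3),(2,1),(12,0),(2,1)]⟩,⟨0,[(2,0),(44,0)]⟩⟩]⟩))))) (.R ⟨1,
  false,false,false,[0,0,1],[0,0,0,0,1],[0,1,0,0,0,0,0,1],(⟨0,[(31,0)]⟩,⟨0,[(30,0)]⟩),(⟨0,[(24,0)]⟩,
  ⟨0,[(23,0)]⟩),⟨0,[(20,0)]⟩,.k,.k,.k,.k,(.r (-1) ⟨5,[(13,5),(4,0),(6,3),(12,0),(3,0),(0,2)]⟩ ⟨0,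
  [(12,0),(32,0)]⟩),.k,⟨true,0,⟨0,[(14,0),(1,0)]⟩,⟨0,[(11,0)]⟩⟩,⟨false,0,⟨0,[(0,0),(24,0)]⟩,⟨4,[(1,
  0),(0,1),(0,0),(6,1),(1,0),(15,2),(12,1)]⟩⟩,⟨true,0,⟨0,[(45,0)]⟩,⟨0,[]⟩⟩,⟨false,0,⟨0,[(0,0),(16,
  0)]⟩,⟨0,[(1,0),(12,0)]⟩⟩,⟨false,0,⟨0,[(41,0)]⟩,⟨0,[(40,0),(2,0)]⟩⟩,⟨false,0,⟨0,[(0,0),(11,0),(12,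
  0)]⟩,⟨0,[(1,0),(11,0)]⟩⟩,[.o ⟨false,0,⟨0,[(0,0),(44,0)]⟩,⟨0,[(1,0)]⟩⟩,.o ⟨false,0,⟨0,[(0,0)]⟩,⟨0,
  [(21,0)]⟩⟩,.o ⟨false,1,⟨7,[(5,0),(2,4),(12,0),(2,0),(3,2),(6,1),(2,0)]⟩,⟨0,[(16,0)]⟩⟩,.a ⟨true,0,
  ⟨0,[(28,0)]⟩,⟨0,[(25,0)]⟩⟩ ⟨true,0,⟨0,[(10,0),(14,0),(15,0)]⟩,⟨0,[(11,0)]⟩⟩ ⟨false,0,⟨0,[(0,0),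
  (24,0)]⟩,⟨0,[(1,0),(26,0)]⟩⟩]⟩))

theorem ok17 : chk K t17 l19 = true := by decide +kernel

noncomputable def t18 : Tre :=
  (.Q [0,1,0,-1,-1,0,0,0,1,0,0,1] (.p true [0,0,0,0,1] [] (⟨0,[(24,0)]⟩,⟨0,[(23,0)]⟩) .k 0 (⟨0,[]⟩,
  ⟨0,[]⟩) .k .k) (.I [1,2,1,0,-1] (.Q [0,0,-1,0,0,0,0,0,1,-1,0,1] (.p true [0,0,0,0,1] [1] (⟨0,[(26,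
  0)]⟩,⟨0,[(25,0)]⟩) .k 1 (⟨0,[]⟩,⟨0,[]⟩) .k .k) (.S ⟨1,0,[],[1,0,0,0,-1],[0,-1],(⟨0,[(26,0)]⟩,⟨0,
  [(27,0)]⟩),⟨1,[(3,0),(3,0),(18,0)]⟩,.k,(.r (-1) ⟨5,[(9,1),(33,1),(1,0),(0,4)]⟩ ⟨15,[(1,1),(13,11),
  (5,4),(7,11),(2,1),(8,0),(2,3)]⟩),⟨false,1,⟨45,[(5,9),(2,4),(16,14),(1,4),(10,9),(2,3),(4,17)]⟩,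
  ⟨0,[]⟩⟩,⟨true,0,⟨0,[(48,0)]⟩,⟨0,[]⟩⟩,⟨true,0,⟨0,[(44,0)]⟩,⟨0,[(43,0)]⟩⟩,⟨false,0,⟨0,[(44,0)]⟩,⟨0,
  [(43,0),(2,0)]⟩⟩,[.o ⟨false,1,⟨0,[(24,0)]⟩,⟨4,[(4,3),(20,0),(15,0),(4,1)]⟩⟩,.a ⟨true,1,⟨0,[(12,
  0)]⟩,⟨0,[(4,0)]⟩⟩ ⟨true,1,⟨0,[(46,0)]⟩,⟨0,[(1,0)]⟩⟩ ⟨false,1,⟨1,[(45,0),(0,0)]⟩,⟨0,[(48,0)]⟩⟩,.o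
  ⟨false,1,⟨0,[(24,0)]⟩,⟨4,[(4,3),(20,0),(15,0),(4,1)]⟩⟩,.o ⟨false,1,⟨1,[(24,1),(6,0),(0,0)]⟩,⟨0,
  [(0,0)]⟩⟩]⟩) (.S ⟨1,0,[0,-1],[1,0,0,0,-1],[1,0,0,-1],(⟨0,[(26,0)]⟩,⟨0,[(27,0)]⟩),⟨1,[(3,0),(3,0),
  (18,0)]⟩,.k,(.r (-1) ⟨5,[(9,1),(33,1),(1,0),(0,4)]⟩ ⟨15,[(1,1),(13,11),(5,4),(7,11),(2,1),(8,0),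
  (2,3)]⟩),⟨true,0,⟨0,[(43,0)]⟩,⟨0,[(44,0)]⟩⟩,⟨false,1,⟨45,[(5,9),(2,4),(16,14),(1,4),(10,9),(2,3),
  (4,17)]⟩,⟨0,[]⟩⟩,⟨false,0,⟨0,[]⟩,⟨45,[(5,9),(2,4),(16,14),(1,4),(10,9),(2,3),(4,17)]⟩⟩,⟨true,0,⟨0,
  [(44,0)]⟩,⟨0,[(43,0)]⟩⟩,[.e ⟨false,1,⟨1,[(43,1),(1,0),(0,0)]⟩,⟨0,[(44,0)]⟩⟩ ⟨false,1,⟨1,[(45,0),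
  (0,0)]⟩,⟨0,[(48,0)]⟩⟩,.o ⟨false,2,⟨18,[(5,1),(2,0),(3,15),(14,0),(10,1),(2,3),(4,9)]⟩,⟨4,[(1,1),
  (2,4),(4,0),(31,0),(2,1)]⟩⟩,.o ⟨false,1,⟨0,[(24,0)]⟩,⟨4,[(4,3),(20,0),(15,0),(4,1)]⟩⟩,.a ⟨true,0,
  ⟨0,[(0,0)]⟩,⟨1,[(4,1),(40,0),(0,0)]⟩⟩ ⟨false,1,⟨5,[(9,1),(33,1),(1,0),(0,4)]⟩,⟨1,[(31,0),(0,0),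
  (11,1)]⟩⟩ ⟨true,1,⟨1,[(45,0),(0,0)]⟩,⟨0,[(1,0)]⟩⟩]⟩)) (.Q [0,0,0,0,0,-1,0,0,0,0,1,-1] (.p false
  [1,0,-1,0,1] [1] (⟨0,[(26,0),(5,0)]⟩,⟨0,[(2,0)]⟩) .k 1 (⟨0,[]⟩,⟨0,[]⟩) .k (.r 0 ⟨2,[(9,0),(3,0),
  (0,0),(24,0)]⟩ ⟨9,[(16,3),(3,4),(7,5),(11,0),(4,7)]⟩)) (.Q [0,1,1,0,-1,0,1,0,1,-1,1,1] (.p true
  [0,0,1] [1,0,0,0,-1] (⟨0,[(34,0)]⟩,⟨0,[(33,0)]⟩) .k 2 (⟨0,[(26,0)]⟩,⟨0,[(27,0)]⟩) .k (.r 0 ⟨1,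
  [(13,0),(7,0),(7,0),(14,0)]⟩ ⟨1,[(11,0),(2,0),(5,0),(25,0)]⟩)) (.Q [0,0,0,0,-1,0,-1,0,1,1,-1,1]
  (.p true [1,0,-1,0,1] [] (⟨0,[(28,0),(5,0)]⟩,⟨0,[(4,0)]⟩) .k 0 (⟨0,[]⟩,⟨0,[]⟩) .k (.r 0 ⟨2,[(11,
  0),(3,0),(0,0),(24,0)]⟩ ⟨9,[(18,3),(3,4),(7,5),(11,0),(4,7)]⟩)) (.S ⟨1,0,[0,-1,0,0,0,0,0,1],[0,0,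
  1,0,-1],[1,0,0,-1,0,0,0,1],(⟨0,[(5,0)]⟩,⟨0,[(29,0),(5,0)]⟩),⟨0,[(2,0)]⟩,.k,(.r (-1) ⟨9,[(3,5),(14,
  7),(1,1),(2,4),(19,0),(3,1)]⟩ ⟨0,[(17,0),(32,0)]⟩),⟨true,0,⟨0,[(45,0)]⟩,⟨0,[(46,0)]⟩⟩,⟨false,1,
  ⟨45,[(7,9),(2,4),(16,14),(1,4),(10,9),(2,3),(4,17)]⟩,⟨0,[]⟩⟩,⟨false,0,⟨0,[]⟩,⟨45,[(7,9),(2,4),(16,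
  14),(1,4),(10,9),(2,3),(4,17)]⟩⟩,⟨true,0,⟨0,[(46,0)]⟩,⟨0,[(45,0)]⟩⟩,[.o ⟨false,2,⟨12,[(7,0),(6,
  10),(4,7),(11,4),(11,4),(4,2),(0,0)]⟩,⟨1,[(0,0),(0,0),(6,0),(8,0),(3,1)]⟩⟩,.e ⟨false,1,⟨9,[(3,5),
  (14,7),(1,1),(2,4),(19,0),(3,1)]⟩,⟨4,[(8,0),(8,3),(24,1),(3,1)]⟩⟩ ⟨false,1,⟨0,[(3,0),(15,0),(1,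
  0)]⟩,⟨0,[(16,0),(25,0)]⟩⟩,.a ⟨true,1,⟨0,[(1,0),(5,0)]⟩,⟨0,[(0,0)]⟩⟩ ⟨true,0,⟨0,[(18,0),(2,0)]⟩,⟨4,
  [(8,0),(8,3),(24,1),(3,1)]⟩⟩ ⟨false,1,⟨0,[(19,0),(1,0),(26,0)]⟩,⟨2,[(12,0),(3,0),(0,0),(24,0)]⟩⟩,
  .e ⟨false,1,⟨9,[(3,5),(14,7),(1,1),(2,4),(19,0),(3,1)]⟩,⟨0,[(17,0)]⟩⟩ ⟨false,1,⟨0,[(3,0),(15,0),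
  (1,0)]⟩,⟨0,[(16,0),(33,0)]⟩⟩]⟩) (.Q [0,0,1,0,-1,0,-1,0,1,1,-1,1] (.p true [1,0,-1,0,1] [] (⟨0,
  [(29,0),(5,0)]⟩,⟨0,[(5,0)]⟩) .k 0 (⟨0,[]⟩,⟨0,[]⟩) .k (.r 0 ⟨2,[(12,0),(3,0),(0,0),(24,0)]⟩ ⟨9,
  [(19,3),(3,4),(7,5),(11,0),(4,7)]⟩)) (.S ⟨1,0,[0,1,0,0,0,0,0,-1],[1,0,-1,0,1],[1,2,0,-1,0,0,0,-1],
  (⟨0,[(30,0),(5,0)]⟩,⟨0,[(6,0)]⟩),⟨1,[(10,0),(19,1),(5,0)]⟩,.k,(.r 0 ⟨4,[(1,0),(0,0),(0,1),(5,3),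
  (0,1),(6,1),(1,0),(2,2),(7,1),(8,5)]⟩ ⟨0,[(32,0),(2,0),(11,0),(1,0)]⟩),⟨true,0,⟨0,[(46,0)]⟩,⟨0,
  [(47,0)]⟩⟩,⟨false,1,⟨45,[(8,9),(2,4),(16,14),(1,4),(10,9),(2,3),(4,17)]⟩,⟨0,[]⟩⟩,⟨false,0,⟨0,[]⟩,
  ⟨45,[(8,9),(2,4),(16,14),(1,4),(10,9),(2,3),(4,17)]⟩⟩,⟨true,0,⟨0,[(47,0)]⟩,⟨0,[(46,0)]⟩⟩,[.e
  ⟨false,0,⟨3,[(13,2),(3,0),(25,1),(2,0)]⟩,⟨0,[(20,0),(1,0),(24,0),(1,0)]⟩⟩ ⟨false,0,⟨4,[(9,2),(8,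
  1),(24,0),(3,0)]⟩,⟨9,[(20,3),(3,4),(7,5),(11,0),(4,7)]⟩⟩,.o ⟨false,0,⟨4,[(0,1),(3,0),(2,0),(1,0),
  (8,0),(4,2),(4,1),(15,0)]⟩,⟨0,[(1,0),(18,0),(1,0)]⟩⟩,.o ⟨false,0,⟨8,[(0,0),(3,0),(2,1),(16,3),(3,
  5),(15,0)]⟩,⟨0,[(1,0)]⟩⟩,.a ⟨true,(-1),⟨0,[(0,0)]⟩,⟨1,[(1,0),(7,0),(5,0),(4,0),(26,0)]⟩⟩ ⟨false,0,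
  ⟨0,[(13,0)]⟩,⟨0,[(20,0),(14,0),(11,0),(1,0)]⟩⟩ ⟨true,0,⟨4,[(9,2),(8,1),(24,0),(3,0)]⟩,⟨0,[(20,0),
  (14,0)]⟩⟩]⟩) (.Q [0,0,0,0,0,0,0,0,0,-1,1,1] (.ed false [0,0,1,0,1] (.r 0 ⟨1,[(16,0),(7,0),(7,0),
  (14,0)]⟩ ⟨1,[(14,0),(2,0),(5,0),(25,0)]⟩)) (.Q [0,0,2,0,0,0,1,0,0,-1,1] (.p true [0,0,1] [1] (⟨0,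
  [(38,0)]⟩,⟨0,[(37,0)]⟩) .k 1 (⟨0,[]⟩,⟨0,[]⟩) .k .k) (.S ⟨1,0,[0,1,-1,-1,0,0,0,1],[0,-1,1],[1,0,-1,
  -2,0,0,0,1],(⟨0,[(28,0)]⟩,⟨0,[(38,0),(2,0)]⟩),⟨1,[(1,0),(3,0),(6,0),(15,0)]⟩,.k,(.r (-1) ⟨9,[(6,
  5),(7,4),(6,2),(1,6),(2,4),(19,0),(3,1)]⟩ ⟨2,[(0,0),(19,2),(5,0),(9,0),(12,2)]⟩),⟨false,1,⟨0,[(48,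
  0),(2,0)]⟩,⟨0,[(49,0)]⟩⟩,⟨true,0,⟨0,[(53,0)]⟩,⟨0,[]⟩⟩,⟨true,0,⟨0,[]⟩,⟨0,[(53,0)]⟩⟩,⟨false,0,⟨0,
  [(49,0)]⟩,⟨0,[(48,0),(2,0)]⟩⟩,[.o ⟨false,0,⟨0,[(18,0)]⟩,⟨9,[(6,3),(13,9),(5,4),(19,0),(3,2),(0,
  0)]⟩⟩,.e ⟨false,1,⟨1,[(6,1),(7,0),(3,0),(2,0),(4,0)]⟩,⟨4,[(20,5),(13,0),(2,0),(7,1),(3,3)]⟩⟩
  ⟨false,1,⟨2,[(6,0),(11,1),(2,0),(4,0),(6,0),(16,1)]⟩,⟨0,[(20,0)]⟩⟩,.a ⟨true,0,⟨0,[(36,0)]⟩,⟨0,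
  [(33,0)]⟩⟩ ⟨false,1,⟨9,[(14,4),(6,8),(1,0),(2,4),(19,0),(4,7)]⟩,⟨0,[(20,0),(28,0)]⟩⟩ ⟨true,0,⟨0,
  [(18,0),(14,0)]⟩,⟨0,[(20,0)]⟩⟩,.o ⟨false,0,⟨0,[(0,0)]⟩,⟨5,[(26,0),(6,3),(12,0),(3,3)]⟩⟩]⟩) (.I [0,
  0,-1,-1,0,0,0,2] (.R ⟨1,false,false,false,[0,0,1,0,-1],[1,1,-1],[0,0,0,0,0,0,0,1],(⟨0,[(9,0)]⟩,⟨0,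
  [(33,0),(5,0)]⟩),(⟨0,[(39,0),(2,0)]⟩,⟨0,[(29,0)]⟩),⟨0,[(6,0)]⟩,.k,.k,(.r (-1) ⟨85,[(0,27),(14,13),
  (8,29),(2,14),(19,2),(3,14),(0,64)]⟩ ⟨0,[(21,0),(32,0)]⟩),(.r (-1) ⟨32,[(0,27),(10,4),(12,4),(2,
  4),(3,9),(3,4),(11,1),(4,18)]⟩ ⟨2,[(16,0),(3,0),(0,3),(24,0)]⟩),(.r (-1) ⟨42,[(0,37),(14,18),(8,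
  9),(2,4),(19,0),(3,4),(0,35)]⟩ ⟨0,[(21,1),(32,0)]⟩),.k,⟨true,0,⟨0,[(0,0)]⟩,⟨0,[(20,0),(0,0)]⟩⟩,
  ⟨false,0,⟨10,[(1,9),(5,1),(2,3),(16,5),(3,6),(15,0)]⟩,⟨0,[(4,0),(32,0)]⟩⟩,⟨true,0,⟨0,[(54,0)]⟩,⟨0,
  []⟩⟩,⟨true,(-1),⟨0,[(1,0),(8,0),(9,0),(0,0),(3,0)]⟩,⟨0,[(0,0),(3,0),(32,0)]⟩⟩,⟨false,0,⟨0,[(50,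
  0)]⟩,⟨0,[(49,0),(2,0)]⟩⟩,⟨true,(-1),⟨0,[(1,0),(8,0),(10,1),(3,0)]⟩,⟨0,[(4,0),(17,1),(2,0)]⟩⟩,[.a
  ⟨true,0,⟨0,[(21,0),(12,0)]⟩,⟨0,[(22,0)]⟩⟩ ⟨true,0,⟨2,[(0,0),(22,0),(14,0),(11,0)]⟩,⟨0,[(20,0)]⟩⟩
  ⟨false,0,⟨10,[(1,9),(5,1),(2,3),(10,10),(5,5),(3,6),(15,0)]⟩,⟨0,[(4,0),(17,0)]⟩⟩,.o ⟨false,1,⟨9,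
  [(7,3),(13,9),(5,4),(19,0),(3,2),(0,0)]⟩,⟨0,[(19,0)]⟩⟩,.o ⟨false,1,⟨0,[(4,0)]⟩,⟨9,[(10,3),(16,4),
  (3,5),(15,0),(4,1)]⟩⟩,.o ⟨false,1,⟨1,[(4,1),(32,0),(0,0)]⟩,⟨21,[(1,7),(5,5),(2,11),(16,6),(3,9),
  (15,2)]⟩⟩]⟩) (.I [1,0,-1,-1,0,0,0,2] (.N [0,-1,2] 0 ⟨0,[(0,0)]⟩ ⟨0,[(1,0)]⟩ (.x (-1) ⟨8,[(5,9),(0,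
  5),(1,2),(6,3),(2,1),(15,3),(5,17),(2,0)]⟩ ⟨1,[(2,0),(0,1),(3,1),(18,0),(1,0)]⟩)) (.R ⟨1,false,
  false,false,[0,0,1,0,-1],[1,0,-1],[1,0,0,-1,0,0,0,1],(⟨0,[(10,0)]⟩,⟨0,[(34,0),(5,0)]⟩),(⟨0,[(40,
  0)]⟩,⟨0,[(41,0)]⟩),⟨0,[(7,0)]⟩,.k,.k,(.r (-1) ⟨9,[(8,5),(14,7),(1,1),(2,4),(19,0),(3,1)]⟩ ⟨0,[(22,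
  0),(32,0)]⟩),.k,(.r (-1) ⟨31,[(2,5),(5,15),(14,31),(0,31),(3,28),(19,6),(3,1)]⟩ ⟨0,[(0,0),(54,
  0)]⟩),.k,⟨true,0,⟨0,[(23,0),(0,0),(1,1)]⟩,⟨0,[(0,0)]⟩⟩,⟨false,0,⟨21,[(2,9),(5,1),(2,3),(16,16),(3,
  17),(15,0)]⟩,⟨0,[(4,0),(33,0)]⟩⟩,⟨true,0,⟨0,[(50,0)]⟩,⟨0,[(51,0)]⟩⟩,⟨true,(-1),⟨1,[(0,1),(1,0),(6,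
  1),(16,0),(1,0)]⟩,⟨0,[(5,0),(18,1),(1,0)]⟩⟩,⟨false,0,⟨0,[]⟩,⟨45,[(12,9),(2,4),(16,14),(1,4),(10,
  9),(2,3),(4,17)]⟩⟩,⟨true,(-1),⟨1,[(0,1),(1,0),(8,1),(14,0),(1,0)]⟩,⟨0,[(5,0),(17,0),(0,0),(1,
  0)]⟩⟩,[.a ⟨true,0,⟨0,[(27,0)]⟩,⟨0,[(24,0)]⟩⟩ ⟨true,0,⟨0,[(23,0),(2,0)]⟩,⟨0,[(22,0)]⟩⟩ ⟨false,0,
  ⟨65,[(0,21),(1,9),(5,23),(2,25),(1,21),(14,60),(3,39),(15,0)]⟩,⟨0,[(5,0),(18,0)]⟩⟩,.o ⟨false,1,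
  ⟨19,[(0,0),(11,0),(14,17),(0,0),(3,1),(15,3),(1,0),(2,9)]⟩,⟨0,[(20,0),(30,0)]⟩⟩,.o ⟨false,1,⟨0,
  [(5,0)]⟩,⟨9,[(11,3),(16,4),(3,5),(15,0),(4,1)]⟩⟩,.o ⟨false,1,⟨1,[(5,1),(32,0),(0,0)]⟩,⟨21,[(2,7),
  (5,5),(2,11),(16,6),(3,9),(15,2)]⟩⟩]⟩)))) (.R ⟨1,false,false,true,[0,0,1,0,1],[0,0,0,0,1],[0,1,0,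
  0,0,0,0,1],(⟨0,[(31,0),(6,0)]⟩,⟨0,[(0,0)]⟩),(⟨0,[(31,0)]⟩,⟨0,[(30,0)]⟩),⟨0,[(27,0),(3,0)]⟩,.k,.k,
  (.r 0 ⟨0,[(17,0),(14,0)]⟩ ⟨45,[(9,9),(2,4),(6,45),(9,14),(1,4),(10,9),(2,3),(4,17)]⟩),.k,.k,.k,
  ⟨false,1,⟨9,[(5,5),(15,7),(3,4),(7,1),(11,0),(3,1)]⟩,⟨2,[(14,0),(3,0),(0,0),(24,0)]⟩⟩,⟨true,0,⟨0,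
  [(23,0)]⟩,⟨0,[(35,0)]⟩⟩,⟨false,1,⟨45,[(9,9),(2,4),(16,14),(1,4),(10,9),(2,3),(4,17)]⟩,⟨0,[]⟩⟩,
  ⟨true,0,⟨0,[(34,0)]⟩,⟨0,[(21,0)]⟩⟩,⟨true,0,⟨0,[(48,0)]⟩,⟨0,[(47,0)]⟩⟩,⟨true,0,⟨0,[(34,0),(13,0)]⟩,
  ⟨0,[(20,0)]⟩⟩,[.o ⟨false,(-1),⟨2,[(1,0),(1,1),(4,1),(14,2),(20,0)]⟩,⟨18,[(9,1),(2,0),(3,15),(14,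
  0),(10,1),(2,3),(4,9)]⟩⟩,.a ⟨true,(-1),⟨0,[(8,0)]⟩,⟨0,[(16,0)]⟩⟩ ⟨true,0,⟨0,[(21,0),(1,0)]⟩,⟨0,
  [(18,0)]⟩⟩ ⟨false,0,⟨2,[(1,0),(6,0),(14,2),(8,0),(11,0)]⟩,⟨2,[(5,0),(9,0),(0,0),(12,0),(5,1)]⟩⟩,
  .o ⟨false,0,⟨2,[(3,1),(1,0),(9,0),(13,0)]⟩,⟨0,[(2,0),(22,0)]⟩⟩,.o ⟨false,0,⟨8,[(3,3),(25,4),(5,4),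
  (9,0),(4,1)]⟩,⟨0,[(1,0),(23,0)]⟩⟩]⟩)))) (.Q [0,0,0,0,0,0,0,0,0,1,-1,-1] (.ed true [0,0,1,0,1] (.r
  0 ⟨1,[(14,0),(7,0),(7,0),(14,0)]⟩ ⟨1,[(12,0),(2,0),(5,0),(25,0)]⟩)) (.Q [0,0,-1,0,1,0,0,0,-1,0,0,
  -1] (.p false [0,0,0,0,1] [] (⟨0,[(29,0)]⟩,⟨0,[(28,0)]⟩) .k 0 (⟨0,[]⟩,⟨0,[]⟩) .k .k) (.S ⟨1,0,[0,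
  2,0,0,0,0,0,1],[0,0,1,0,1],[1,1,0,-1,0,0,0,1],(⟨0,[(30,0),(6,0)]⟩,⟨0,[(1,0)]⟩),⟨0,[(26,0),(3,0)]⟩,
  .k,(.r 0 ⟨0,[(16,0),(14,0)]⟩ ⟨45,[(8,9),(2,4),(6,45),(9,14),(1,4),(10,9),(2,3),(4,17)]⟩),⟨false,1,
  ⟨0,[(46,0),(2,0)]⟩,⟨0,[(47,0)]⟩⟩,⟨true,0,⟨0,[(51,0)]⟩,⟨0,[]⟩⟩,⟨true,0,⟨0,[]⟩,⟨0,[(51,0)]⟩⟩,⟨false,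
  0,⟨0,[(47,0)]⟩,⟨0,[(46,0),(2,0)]⟩⟩,[.o ⟨false,(-1),⟨0,[(7,0),(8,0),(30,0)]⟩,⟨13,[(2,9),(5,1),(8,
  11),(5,1),(0,0),(19,2),(4,7)]⟩⟩,.a ⟨true,(-1),⟨0,[(7,0),(12,0)]⟩,⟨0,[(2,0),(14,0)]⟩⟩ ⟨true,0,⟨0,
  [(19,0),(2,0)]⟩,⟨0,[(18,0)]⟩⟩ ⟨false,0,⟨0,[(16,0),(14,0),(15,0)]⟩,⟨1,[(14,0),(2,0),(5,0),(25,
  0)]⟩⟩,.o ⟨false,0,⟨10,[(4,5),(2,10),(1,0),(4,0),(5,0),(13,8),(9,1),(2,0)]⟩,⟨0,[(22,0),(4,0)]⟩⟩,.o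
  ⟨false,0,⟨4,[(7,3),(20,0),(5,4),(9,0),(4,1)]⟩,⟨0,[(0,0),(21,0)]⟩⟩]⟩) (.Q [0,0,-1,0,1,0,-1,0,-1,0,
  -1,-1] (.p false [0,0,1,0,1] [] (⟨0,[(30,0),(6,0)]⟩,⟨0,[(1,0)]⟩) .k 0 (⟨0,[]⟩,⟨0,[]⟩) .k (.r 0 ⟨1,
  [(16,0),(7,0),(7,0),(14,0)]⟩ ⟨1,[(14,0),(2,0),(5,0),(25,0)]⟩)) (.S ⟨1,0,[0,2,0,0,0,0,0,1],[0,0,1,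
  0,1],[1,1,0,-1,0,0,0,1],(⟨0,[(31,0),(6,0)]⟩,⟨0,[(2,0)]⟩),⟨0,[(27,0),(3,0)]⟩,.k,(.r 0 ⟨0,[(17,0),
  (14,0)]⟩ ⟨45,[(9,9),(2,4),(6,45),(9,14),(1,4),(10,9),(2,3),(4,17)]⟩),⟨false,1,⟨0,[(47,0),(2,0)]⟩,
  ⟨0,[(48,0)]⟩⟩,⟨true,0,⟨0,[(52,0)]⟩,⟨0,[]⟩⟩,⟨true,0,⟨0,[]⟩,⟨0,[(52,0)]⟩⟩,⟨false,0,⟨0,[(48,0)]⟩,⟨0,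
  [(47,0),(2,0)]⟩⟩,[.o ⟨false,(-1),⟨0,[(8,0),(8,0),(30,0)]⟩,⟨13,[(3,9),(5,1),(8,11),(5,1),(0,0),(19,
  2),(4,7)]⟩⟩,.a ⟨true,(-1),⟨0,[(8,0),(12,0)]⟩,⟨0,[(3,0),(14,0)]⟩⟩ ⟨true,0,⟨0,[(20,0),(2,0)]⟩,⟨0,
  [(19,0)]⟩⟩ ⟨false,0,⟨0,[(17,0),(14,0),(15,0)]⟩,⟨1,[(15,0),(2,0),(5,0),(25,0)]⟩⟩,.o ⟨false,0,⟨0,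
  [(1,0),(13,0)]⟩,⟨1,[(0,0),(27,0),(7,0)]⟩⟩,.o ⟨false,0,⟨14,[(1,8),(13,4),(13,5),(5,9),(9,1),(5,
  0)]⟩,⟨0,[(0,0)]⟩⟩]⟩) (.R ⟨1,false,false,false,[0,0,1,0,1],[0,0,0,0,1],[0,2,0,0,0,0,0,1],(⟨0,[(31,
  0),(6,0)]⟩,⟨0,[(2,0)]⟩),(⟨0,[(31,0)]⟩,⟨0,[(30,0)]⟩),⟨0,[(27,0),(3,0)]⟩,.k,.k,(.r 0 ⟨0,[(17,0),(14,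
  0)]⟩ ⟨45,[(9,9),(2,4),(6,45),(9,14),(1,4),(10,9),(2,3),(4,17)]⟩),.k,.k,.k,⟨false,0,⟨0,[(17,0),(14,
  0),(15,0)]⟩,⟨1,[(15,0),(2,0),(5,0),(25,0)]⟩⟩,⟨true,0,⟨0,[(23,0)]⟩,⟨0,[(35,0)]⟩⟩,⟨true,0,⟨0,[(52,
  0)]⟩,⟨0,[]⟩⟩,⟨false,1,⟨33,[(9,1),(8,1),(5,31),(0,0),(3,3),(15,6),(4,15)]⟩,⟨0,[(21,0)]⟩⟩,⟨false,0,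
  ⟨0,[(48,0)]⟩,⟨0,[(47,0),(2,0)]⟩⟩,⟨false,1,⟨9,[(5,3),(13,9),(5,4),(19,0),(3,2),(0,0)]⟩,⟨0,[(20,
  0)]⟩⟩,[.e ⟨false,0,⟨3,[(17,2),(7,0),(6,1),(0,0),(10,1),(3,2)]⟩,⟨0,[(5,0),(12,0)]⟩⟩ ⟨false,0,⟨2,
  [(13,0),(9,2),(20,0),(3,1)]⟩,⟨2,[(5,0),(9,0),(0,0),(12,0),(5,1)]⟩⟩,.o ⟨false,0,⟨4,[(1,0),(3,0),(2,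
  1),(20,1),(15,0)]⟩,⟨0,[(28,0)]⟩⟩,.o ⟨false,0,⟨8,[(0,4),(4,0),(2,1),(6,3),(13,1),(15,0)]⟩,⟨0,[(23,
  0),(4,0)]⟩⟩,.a ⟨true,(-1),⟨0,[(0,0)]⟩,⟨2,[(3,0),(5,0),(15,0),(18,0)]⟩⟩ ⟨false,0,⟨0,[(17,0),(14,0),
  (15,0)]⟩,⟨0,[(18,0),(31,0)]⟩⟩ ⟨true,0,⟨2,[(13,0),(9,2),(20,0),(3,1)]⟩,⟨0,[(35,0)]⟩⟩]⟩))) (.Q [0,1,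
  0,0,-1,0,-1,-1,1,0,-1,1] (.p true [1,0,-1,0,1] [1] (⟨0,[(29,0),(5,0)]⟩,⟨0,[(5,0)]⟩) .k 1 (⟨0,[]⟩,
  ⟨0,[]⟩) .k (.r 0 ⟨2,[(12,0),(3,0),(0,0),(24,0)]⟩ ⟨9,[(19,3),(3,4),(7,5),(11,0),(4,7)]⟩)) (.Q [0,
  -1,0,1,1,0,1,1,-1,0,1,-1] (.p false [1,0,-1,0,1] [1] (⟨0,[(30,0),(5,0)]⟩,⟨0,[(6,0)]⟩) .k 1 (⟨0,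
  []⟩,⟨0,[]⟩) .k (.r 0 ⟨2,[(13,0),(3,0),(0,0),(24,0)]⟩ ⟨9,[(20,3),(3,4),(7,5),(11,0),(4,7)]⟩)) (.R
  ⟨1,false,false,true,[0,-1,0,0,1],[0,-1,1],[1,1],(⟨1,[(2,0),(8,0),(19,0)]⟩,⟨0,[(30,0),(9,0)]⟩),(⟨0,
  [(27,0)]⟩,⟨0,[(37,0),(2,0)]⟩),⟨0,[(2,0),(8,0)]⟩,(.r 0 ⟨0,[(46,0)]⟩ ⟨23,[(0,11),(11,4),(6,11),(5,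
  4),(3,6),(1,4),(4,1),(5,9),(2,2),(4,5)]⟩),.k,(.x 0 ⟨0,[(12,0)]⟩ ⟨0,[(0,0),(1,0),(7,0),(0,0),(11,
  0)]⟩),.k,(.r 0 ⟨3,[(2,0),(1,0),(5,2),(0,1),(5,0),(0,1),(4,0),(16,4)]⟩ ⟨0,[(0,0),(28,0),(6,0)]⟩),
  .k,⟨true,0,⟨0,[(19,0)]⟩,⟨0,[(20,0),(2,0)]⟩⟩,⟨false,1,⟨2,[(0,1),(9,1),(17,0),(6,0)]⟩,⟨9,[(8,3),(16,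
  4),(3,5),(15,0),(4,1)]⟩⟩,⟨true,0,⟨1,[(35,0),(0,0),(11,1)]⟩,⟨0,[(46,0)]⟩⟩,⟨true,1,⟨1,[(0,0),(21,0),
  (5,0)]⟩,⟨0,[(1,0)]⟩⟩,⟨true,0,⟨1,[(35,0),(0,0),(11,3)]⟩,⟨3,[(13,2),(4,0),(1,0),(15,0),(10,0)]⟩⟩,
  ⟨false,1,⟨0,[(0,0)]⟩,⟨0,[(1,0),(45,0),(2,0)]⟩⟩,[.o ⟨false,0,⟨0,[(17,0)]⟩,⟨9,[(5,3),(13,9),(5,4),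
  (19,0),(3,2),(0,0)]⟩⟩,.a ⟨true,0,⟨0,[(20,0)]⟩,⟨0,[(19,0),(12,0)]⟩⟩ ⟨true,0,⟨0,[]⟩,⟨1,[(35,0),(0,
  0)]⟩⟩ ⟨false,1,⟨0,[(0,0),(12,0)]⟩,⟨17,[(1,3),(17,13),(5,4),(3,13),(6,3),(8,0),(2,3),(1,1)]⟩⟩,.o
  ⟨false,0,⟨9,[(2,1),(5,7),(2,1),(0,1),(22,2),(0,2),(8,1),(4,3)]⟩,⟨1,[(0,0),(9,0),(12,0),(4,0)]⟩⟩,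
  .o ⟨false,0,⟨4,[(2,0),(5,3),(2,0),(0,0),(22,3),(0,3),(8,0),(4,1)]⟩,⟨0,[(0,0),(9,0),(12,0)]⟩⟩]⟩)
  (.Q [0,0,-1,0,1,0,0,0,-1,0,0,-1] (.p false [0,0,0,0,1] [] (⟨0,[(31,0)]⟩,⟨0,[(30,0)]⟩) .k 0 (⟨0,
  []⟩,⟨0,[]⟩) .k .k) (.Q [0,0,0,0,-1,0,-1,0,1,1,-1,1] (.p true [1,0,-1,0,1] [] (⟨0,[(32,0),(5,0)]⟩,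
  ⟨0,[(8,0)]⟩) .k 0 (⟨0,[]⟩,⟨0,[]⟩) .k (.r 0 ⟨2,[(15,0),(3,0),(0,0),(24,0)]⟩ ⟨9,[(22,3),(3,4),(7,5),
  (11,0),(4,7)]⟩)) (.S ⟨1,0,[0,-1,0,0,0,0,0,1],[0,0,1,0,-1],[1,0,0,-1,0,0,0,1],(⟨0,[(9,0)]⟩,⟨0,[(33,
  0),(5,0)]⟩),⟨0,[(6,0)]⟩,.k,(.r (-1) ⟨9,[(7,5),(14,7),(1,1),(2,4),(19,0),(3,1)]⟩ ⟨0,[(21,0),(32,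
  0)]⟩),⟨true,0,⟨0,[(49,0)]⟩,⟨0,[(50,0)]⟩⟩,⟨false,1,⟨45,[(11,9),(2,4),(16,14),(1,4),(10,9),(2,3),(4,
  17)]⟩,⟨0,[]⟩⟩,⟨false,0,⟨0,[]⟩,⟨45,[(11,9),(2,4),(16,14),(1,4),(10,9),(2,3),(4,17)]⟩⟩,⟨true,0,⟨0,
  [(50,0)]⟩,⟨0,[(49,0)]⟩⟩,[.o ⟨false,2,⟨12,[(11,0),(6,10),(4,7),(11,4),(11,4),(4,2),(0,0)]⟩,⟨0,[(3,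
  0)]⟩⟩,.e ⟨false,1,⟨9,[(7,5),(14,7),(1,1),(2,4),(19,0),(3,1)]⟩,⟨4,[(12,0),(8,3),(24,1),(3,1)]⟩⟩
  ⟨false,1,⟨0,[(7,0),(15,0),(1,0)]⟩,⟨0,[(20,0),(25,0)]⟩⟩,.a ⟨true,1,⟨0,[(1,0),(35,0)]⟩,⟨0,[(0,0)]⟩⟩
  ⟨true,0,⟨0,[(22,0),(2,0)]⟩,⟨4,[(12,0),(8,3),(24,1),(3,1)]⟩⟩ ⟨false,1,⟨0,[(23,0),(1,0),(26,0)]⟩,⟨2,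
  [(16,0),(3,0),(0,0),(24,0)]⟩⟩,.e ⟨false,1,⟨9,[(7,5),(14,7),(1,1),(2,4),(19,0),(3,1)]⟩,⟨0,[(21,
  0)]⟩⟩ ⟨false,1,⟨0,[(7,0),(15,0),(1,0)]⟩,⟨0,[(20,0),(33,0)]⟩⟩]⟩) (.Q [0,0,1,0,-1,0,-1,0,1,1,-1,1]
  (.p true [1,0,-1,0,1] [] (⟨0,[(33,0),(5,0)]⟩,⟨0,[(9,0)]⟩) .k 0 (⟨0,[]⟩,⟨0,[]⟩) .k (.r 0 ⟨2,[(16,
  0),(3,0),(0,0),(24,0)]⟩ ⟨9,[(23,3),(3,4),(7,5),(11,0),(4,7)]⟩)) (.S ⟨1,0,[0,1,0,0,0,0,0,-1],[1,0,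
  -1,0,1],[1,2,0,-1,0,0,0,-1],(⟨0,[(34,0),(5,0)]⟩,⟨0,[(10,0)]⟩),⟨1,[(14,0),(19,1),(5,0)]⟩,.k,(.r 0
  ⟨1,[(1,0),(1,0),(1,0),(1,0),(5,0),(0,1),(28,4)]⟩ ⟨0,[(36,0),(2,0),(11,0),(1,0)]⟩),⟨true,0,⟨0,[(50,
  0)]⟩,⟨0,[(51,0)]⟩⟩,⟨false,1,⟨45,[(12,9),(2,4),(16,14),(1,4),(10,9),(2,3),(4,17)]⟩,⟨0,[]⟩⟩,⟨false,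
  0,⟨0,[]⟩,⟨45,[(12,9),(2,4),(16,14),(1,4),(10,9),(2,3),(4,17)]⟩⟩,⟨true,0,⟨0,[(51,0)]⟩,⟨0,[(50,
  0)]⟩⟩,[.o ⟨false,(-1),⟨0,[(4,0)]⟩,⟨12,[(12,0),(6,10),(4,7),(11,4),(11,4),(4,2),(0,0)]⟩⟩,.o ⟨false,
  0,⟨8,[(4,3),(22,4),(4,4),(15,0),(4,1)]⟩,⟨0,[(1,0),(22,0),(1,0)]⟩⟩,.o ⟨false,0,⟨5,[(0,2),(27,0),(3,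
  2),(2,0),(12,0),(3,0)]⟩,⟨0,[(1,0)]⟩⟩,.a ⟨true,(-1),⟨0,[(0,0)]⟩,⟨1,[(1,0),(11,0),(5,0),(4,0),(26,
  0)]⟩⟩ ⟨false,0,⟨0,[(17,0)]⟩,⟨0,[(24,0),(14,0),(11,0),(1,0)]⟩⟩ ⟨true,0,⟨4,[(13,2),(8,1),(24,0),(3,
  0)]⟩,⟨0,[(24,0),(14,0)]⟩⟩]⟩) (.I [0,0,-1,-1,0,0,0,2] (.R ⟨1,false,false,false,[0,0,1,0,-1],[1,1,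
  -1],[0,0,0,0,0,0,0,1],(⟨0,[(11,0)]⟩,⟨0,[(35,0),(5,0)]⟩),(⟨0,[(41,0),(2,0)]⟩,⟨0,[(31,0)]⟩),⟨0,[(8,
  0)]⟩,.k,.k,(.r (-1) ⟨85,[(0,27),(16,13),(8,29),(2,14),(19,2),(3,14),(0,64)]⟩ ⟨0,[(23,0),(32,0)]⟩),
  (.r (-1) ⟨32,[(0,27),(12,4),(12,4),(2,4),(3,9),(3,4),(11,1),(4,18)]⟩ ⟨2,[(18,0),(3,0),(0,3),(24,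
  0)]⟩),(.r (-1) ⟨42,[(0,37),(16,18),(8,9),(2,4),(19,0),(3,4),(0,35)]⟩ ⟨0,[(23,1),(32,0)]⟩),.k,
  ⟨true,0,⟨0,[(0,0)]⟩,⟨0,[(22,0),(0,0)]⟩⟩,⟨false,0,⟨5,[(9,1),(2,3),(16,0),(3,1),(2,9),(12,0)]⟩,⟨0,
  [(2,0),(36,0)]⟩⟩,⟨true,0,⟨0,[(56,0)]⟩,⟨0,[]⟩⟩,⟨true,(-1),⟨0,[(5,0),(17,0),(12,0)]⟩,⟨0,[(0,0),(1,
  0),(36,0)]⟩⟩,⟨false,0,⟨0,[(52,0)]⟩,⟨0,[(51,0),(2,0)]⟩⟩,⟨true,(-1),⟨0,[(5,0),(17,0),(12,0),(15,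
  0)]⟩,⟨0,[(1,0),(22,1),(15,0)]⟩⟩,[.a ⟨true,0,⟨0,[(23,0),(12,0)]⟩,⟨0,[(24,0)]⟩⟩ ⟨true,0,⟨2,[(0,0),
  (24,0),(14,0),(11,0)]⟩,⟨0,[(22,0)]⟩⟩ ⟨false,0,⟨6,[(5,3),(3,1),(13,2),(5,2),(3,2),(2,3),(15,3),(0,
  1)]⟩,⟨0,[(2,0),(21,0)]⟩⟩,.o ⟨false,1,⟨9,[(9,3),(13,9),(5,4),(19,0),(3,2),(0,0)]⟩,⟨0,[(21,0)]⟩⟩,.o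
  ⟨false,1,⟨0,[(2,0)]⟩,⟨9,[(12,3),(16,4),(3,5),(15,0),(4,1)]⟩⟩,.o ⟨false,1,⟨1,[(2,1),(36,0),(0,0)]⟩,
  ⟨5,[(9,1),(2,3),(16,0),(3,1),(2,3),(12,0)]⟩⟩]⟩) (.Q [0,0,0,2,0,0,-1,-1,0,0,-1] (.p false [0,0,1]
  [] (⟨0,[(42,0)]⟩,⟨0,[(41,0)]⟩) .k 0 (⟨0,[]⟩,⟨0,[]⟩) .k .k) (.R ⟨1,false,false,true,[1,-1],[1,0,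
  -1],[0,1,1,0,0,0,0,-1],(⟨0,[(47,0)]⟩,⟨0,[(48,0)]⟩),(⟨0,[(42,0)]⟩,⟨0,[(43,0)]⟩),⟨1,[(16,0),(15,0),
  (14,0)]⟩,.k,.k,(.r (-1) ⟨2,[(18,1),(33,1),(1,0),(0,1)]⟩ ⟨0,[(0,0),(25,0),(13,0),(0,0)]⟩),.k,(.r
  (-1) ⟨9,[(10,5),(7,4),(6,2),(1,6),(2,4),(19,0),(3,1)]⟩ ⟨1,[(0,1),(39,2),(0,0)]⟩),.k,⟨true,0,⟨1,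
  [(40,0),(0,0)]⟩,⟨0,[]⟩⟩,⟨false,1,⟨5,[(30,0),(6,3),(12,0),(3,3)]⟩,⟨0,[(40,0)]⟩⟩,⟨false,0,⟨1,[(24,
  1),(15,0),(0,0)]⟩,⟨0,[(10,0),(11,0),(14,0)]⟩⟩,⟨true,0,⟨1,[(0,0),(38,0),(17,0)]⟩,⟨0,[(25,0)]⟩⟩,
  ⟨false,0,⟨1,[(0,1),(39,2),(0,0)]⟩,⟨1,[(10,1),(7,0),(3,0),(2,0),(4,0)]⟩⟩,⟨false,0,⟨0,[(0,0)]⟩,⟨0,
  [(25,0),(26,0),(2,0)]⟩⟩,[.o ⟨false,0,⟨0,[(39,0)]⟩,⟨4,[(26,3),(11,0),(11,0),(4,2)]⟩⟩,.a ⟨true,0,⟨0,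
  [(29,0)]⟩,⟨0,[(26,0)]⟩⟩ ⟨true,0,⟨0,[(1,0),(23,0),(2,0)]⟩,⟨0,[(26,0),(1,0)]⟩⟩ ⟨false,1,⟨22,[(0,3),
  (9,3),(4,7),(13,10),(0,3),(19,2),(3,12)]⟩,⟨1,[(26,1),(13,0),(0,0)]⟩⟩,.o ⟨false,0,⟨1,[(40,0),(0,
  0)]⟩,⟨32,[(14,1),(19,3),(14,0),(0,6),(3,14)]⟩⟩,.o ⟨false,0,⟨0,[(40,0),(0,0)]⟩,⟨14,[(2,7),(7,3),(2,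
  7),(23,7),(12,2),(3,4)]⟩⟩]⟩) (.I [0,0,1,1,0,0,0,-2] (.R ⟨1,false,false,false,[0,0,1,0,-1],[1,0,
  -1],[1,0,0,-1,0,0,0,1],(⟨0,[(13,0)]⟩,⟨0,[(37,0),(5,0)]⟩),(⟨0,[(43,0)]⟩,⟨0,[(44,0)]⟩),⟨0,[(10,0)]⟩,
  .k,.k,(.r (-1) ⟨9,[(11,5),(14,7),(1,1),(2,4),(19,0),(3,1)]⟩ ⟨0,[(25,0),(32,0)]⟩),.k,(.r (-1) ⟨0,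
  [(11,0),(11,0),(3,0),(3,0)]⟩ ⟨0,[(2,0),(55,0)]⟩),.k,⟨true,0,⟨0,[(26,0),(0,0),(1,1)]⟩,⟨0,[(0,0)]⟩⟩,
  ⟨false,0,⟨11,[(11,1),(2,3),(16,6),(3,7),(2,9),(12,0)]⟩,⟨0,[(3,0),(37,0)]⟩⟩,⟨true,0,⟨0,[(53,0)]⟩,
  ⟨0,[(54,0)]⟩⟩,⟨true,(-1),⟨0,[(7,0),(22,0)]⟩,⟨0,[(3,0),(23,1),(14,0)]⟩⟩,⟨false,0,⟨0,[]⟩,⟨45,[(15,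
  9),(2,4),(16,14),(1,4),(10,9),(2,3),(4,17)]⟩⟩,⟨true,(-1),⟨2,[(2,1),(4,1),(6,0),(16,0),(6,1),(15,
  0)]⟩,⟨0,[(3,0),(22,0),(0,0),(14,0)]⟩⟩,[.a ⟨true,0,⟨0,[(30,0)]⟩,⟨0,[(27,0)]⟩⟩ ⟨true,0,⟨0,[(26,0),
  (2,0)]⟩,⟨0,[(25,0)]⟩⟩ ⟨false,0,⟨6,[(7,3),(3,1),(18,2),(0,2),(3,2),(2,0),(16,1)]⟩,⟨0,[(4,0),(22,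
  0)]⟩⟩,.o ⟨false,1,⟨33,[(15,1),(8,1),(5,31),(0,0),(3,3),(15,6),(4,15)]⟩,⟨0,[(23,0),(30,0)]⟩⟩,.o
  ⟨false,1,⟨0,[(4,0)]⟩,⟨9,[(14,3),(16,4),(3,5),(15,0),(4,1)]⟩⟩,.o ⟨false,1,⟨1,[(4,1),(36,0),(0,0)]⟩,
  ⟨5,[(11,1),(2,3),(16,0),(3,1),(2,3),(12,0)]⟩⟩]⟩) (.N [0,-1,2] 0 ⟨0,[(0,0)]⟩ ⟨0,[(2,0)]⟩ (.x (-1)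
  ⟨12,[(3,1),(7,0),(2,1),(6,3),(19,19),(1,25),(2,12),(4,3)]⟩ ⟨0,[(8,0),(1,0),(18,0),(8,0)]⟩)))))))
  (.S ⟨1,0,[0,1],[0,0,0,0,1],[0,2],(⟨0,[(32,0)]⟩,⟨0,[(31,0)]⟩),⟨1,[(3,0),(8,0),(19,0)]⟩,.k,(.r 0 ⟨0,
  [(47,0)]⟩ ⟨10,[(10,0),(2,1),(6,3),(11,1),(1,3),(2,3),(5,3),(2,0),(2,6),(1,6)]⟩),⟨true,0,⟨0,[(53,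
  0)]⟩,⟨0,[]⟩⟩,⟨false,1,⟨45,[(10,9),(2,4),(16,14),(1,4),(10,9),(2,3),(4,17)]⟩,⟨0,[]⟩⟩,⟨false,0,⟨0,
  [(49,0)]⟩,⟨0,[(48,0),(2,0)]⟩⟩,⟨true,0,⟨0,[(49,0)]⟩,⟨0,[(48,0)]⟩⟩,[.e ⟨false,0,⟨0,[(45,0)]⟩,⟨0,
  [(51,0)]⟩⟩ ⟨false,0,⟨2,[(14,0),(30,0),(3,1)]⟩,⟨45,[(10,9),(2,4),(16,14),(1,4),(10,9),(2,3),(4,
  17)]⟩⟩,.o ⟨false,0,⟨4,[(0,0),(5,0),(2,1),(20,1),(15,0)]⟩,⟨0,[(29,0)]⟩⟩,.o ⟨false,0,⟨4,[(0,0),(5,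
  0),(2,1),(20,1),(15,0)]⟩,⟨0,[(29,0)]⟩⟩,.a ⟨true,(-1),⟨0,[(0,0)]⟩,⟨4,[(10,1),(0,0),(5,0),(2,0),(12,
  1),(0,1)]⟩⟩ ⟨false,0,⟨2,[(14,0),(30,0),(3,1)]⟩,⟨1,[(36,0),(0,0),(13,1)]⟩⟩ ⟨true,0,⟨2,[(14,0),(30,
  0),(3,1)]⟩,⟨1,[(36,0),(0,0)]⟩⟩]⟩))) (.Q [0,1,0,1,-1,0,-1,-1,1,0,-1,1] (.p true [1,0,-1,0,1] [1]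
  (⟨0,[(30,0),(5,0)]⟩,⟨0,[(6,0)]⟩) .k 1 (⟨0,[]⟩,⟨0,[]⟩) .k (.r 0 ⟨2,[(13,0),(3,0),(0,0),(24,0)]⟩ ⟨9,
  [(20,3),(3,4),(7,5),(11,0),(4,7)]⟩)) (.R ⟨1,true,false,false,[0,0,1],[0,0,0,0,1],[0,1,0,0,0,0,0,
  1],(⟨0,[(38,0)]⟩,⟨0,[(37,0)]⟩),(⟨0,[(31,0)]⟩,⟨0,[(30,0)]⟩),⟨0,[(27,0)]⟩,.k,.k,.k,.k,(.r (-1) ⟨9,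
  [(5,5),(14,7),(1,1),(2,4),(19,0),(3,1)]⟩ ⟨0,[(19,0),(32,0)]⟩),.k,⟨true,0,⟨0,[(21,0),(1,0)]⟩,⟨0,
  [(18,0)]⟩⟩,⟨false,0,⟨5,[(5,1),(2,3),(16,0),(3,1),(2,3),(12,0)]⟩,⟨9,[(1,3),(7,2),(0,1),(6,2),(1,4),
  (15,2),(8,0)]⟩⟩,⟨true,0,⟨0,[(52,0)]⟩,⟨0,[]⟩⟩,⟨false,0,⟨6,[(0,1),(5,1),(17,4),(4,2),(15,0),(4,1)]⟩,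
  ⟨0,[(1,0)]⟩⟩,⟨false,0,⟨0,[(48,0)]⟩,⟨0,[(47,0),(2,0)]⟩⟩,⟨true,(-1),⟨0,[(0,0)]⟩,⟨0,[(20,0),(7,0)]⟩⟩,
  []⟩) (.Q [0,1,0,2,-1,0,-1,-1,1,0,-1,1] (.p true [1,0,-1,0,1] [1] (⟨0,[(31,0),(5,0)]⟩,⟨0,[(7,0)]⟩)
  .k 1 (⟨0,[]⟩,⟨0,[]⟩) .k (.r 0 ⟨2,[(14,0),(3,0),(0,0),(24,0)]⟩ ⟨9,[(21,3),(3,4),(7,5),(11,0),(4,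
  7)]⟩)) (.R ⟨1,false,false,false,[1,0,0,0,-1],[1,1,-1],[1,0,1,1,0,0,0,-1],(⟨0,[(31,0)]⟩,⟨0,[(32,
  0)]⟩),(⟨0,[(38,0),(2,0)]⟩,⟨0,[(28,0)]⟩),⟨2,[(5,0),(6,0),(18,1)]⟩,.k,.k,(.r (-1) ⟨5,[(14,1),(33,1),
  (1,0),(0,4)]⟩ ⟨3,[(0,0),(19,1),(8,0),(4,2),(2,1)]⟩),(.r (-1) ⟨9,[(6,5),(14,7),(1,1),(2,4),(19,0),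
  (3,1)]⟩ ⟨0,[(20,0),(32,0)]⟩),(.r (-1) ⟨1,[(6,1),(7,0),(3,0),(2,0),(4,0)]⟩ ⟨3,[(0,0),(19,5),(8,0),
  (4,2),(2,1)]⟩),.k,⟨true,0,⟨0,[]⟩,⟨1,[(36,0),(0,0)]⟩⟩,⟨false,0,⟨4,[(0,0),(5,2),(2,3),(4,0),(7,0),
  (10,4),(12,0)]⟩,⟨0,[(29,0),(6,0)]⟩⟩,⟨false,0,⟨0,[(20,0)]⟩,⟨9,[(6,5),(14,7),(1,1),(2,4),(19,0),(3,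
  1)]⟩⟩,⟨false,0,⟨85,[(0,41),(9,1),(9,1),(4,41),(0,0),(3,47),(15,8),(4,19)]⟩,⟨0,[(1,0)]⟩⟩,⟨false,0,
  ⟨0,[(20,0),(28,0)]⟩,⟨9,[(14,4),(6,8),(1,0),(2,4),(19,0),(4,7)]⟩⟩,⟨true,(-1),⟨0,[(0,0)]⟩,⟨0,[(1,0),
  (46,0)]⟩⟩,[.a ⟨true,0,⟨1,[(0,0),(16,0),(7,0)]⟩,⟨0,[(21,0)]⟩⟩ ⟨true,0,⟨0,[(20,0)]⟩,⟨0,[(21,0),(2,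
  0)]⟩⟩ ⟨false,0,⟨121,[(0,73),(5,49),(4,25),(13,21),(0,12),(3,47),(15,6),(3,9)]⟩,⟨1,[(1,0),(21,0),
  (5,0)]⟩⟩,.o ⟨false,1,⟨85,[(0,31),(9,21),(9,21),(4,31),(0,10),(3,11),(15,12),(4,47)]⟩,⟨0,[(18,
  0)]⟩⟩,.o ⟨false,1,⟨0,[(29,0)]⟩,⟨4,[(9,3),(20,0),(15,0),(4,1)]⟩⟩,.o ⟨false,1,⟨1,[(29,1),(6,0),(0,
  0)]⟩,⟨4,[(0,0),(5,2),(2,3),(4,0),(7,0),(23,0)]⟩⟩]⟩) (.Q [0,0,0,0,1,0,1,0,-1,-1,1,-1] (.p false [1,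
  0,-1,0,1] [] (⟨0,[(32,0),(5,0)]⟩,⟨0,[(8,0)]⟩) .k 0 (⟨0,[]⟩,⟨0,[]⟩) .k (.r 0 ⟨2,[(15,0),(3,0),(0,
  0),(24,0)]⟩ ⟨9,[(22,3),(3,4),(7,5),(11,0),(4,7)]⟩)) (.S ⟨1,0,[0,-1,0,0,0,0,0,1],[0,0,1,0,-1],[1,0,
  0,-1,0,0,0,1],(⟨0,[(9,0)]⟩,⟨0,[(33,0),(5,0)]⟩),⟨0,[(6,0)]⟩,.k,(.r (-1) ⟨9,[(7,5),(14,7),(1,1),(2,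
  4),(19,0),(3,1)]⟩ ⟨0,[(21,0),(32,0)]⟩),⟨true,0,⟨0,[(49,0)]⟩,⟨0,[(50,0)]⟩⟩,⟨false,1,⟨45,[(11,9),(2,
  4),(16,14),(1,4),(10,9),(2,3),(4,17)]⟩,⟨0,[]⟩⟩,⟨false,0,⟨0,[]⟩,⟨45,[(11,9),(2,4),(16,14),(1,4),
  (10,9),(2,3),(4,17)]⟩⟩,⟨true,0,⟨0,[(50,0)]⟩,⟨0,[(49,0)]⟩⟩,[.a ⟨true,1,⟨0,[(3,0)]⟩,⟨0,[(10,0),(15,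
  0)]⟩⟩ ⟨true,0,⟨0,[(22,0),(2,0)]⟩,⟨0,[(21,0)]⟩⟩ ⟨false,1,⟨9,[(7,5),(15,7),(3,4),(7,1),(11,0),(3,
  1)]⟩,⟨2,[(16,0),(3,0),(0,0),(24,0)]⟩⟩,.o ⟨false,2,⟨45,[(3,42),(7,1),(2,0),(18,0),(1,2),(8,1),(2,
  9),(4,24)]⟩,⟨0,[(10,0),(25,0)]⟩⟩,.o ⟨false,1,⟨0,[(0,0)]⟩,⟨9,[(10,3),(16,4),(3,5),(15,0),(4,1)]⟩⟩,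
  .o ⟨false,1,⟨1,[(0,1),(36,0),(0,0)]⟩,⟨5,[(7,1),(2,3),(16,0),(3,1),(2,3),(12,0)]⟩⟩]⟩) (.Q [0,0,0,0,
  1,0,1,1,-1,-1,1,-1] (.p false [1,0,-1,0,1] [] (⟨0,[(33,0),(5,0)]⟩,⟨0,[(9,0)]⟩) .k 0 (⟨0,[]⟩,⟨0,
  []⟩) .k (.r 0 ⟨2,[(16,0),(3,0),(0,0),(24,0)]⟩ ⟨9,[(23,3),(3,4),(7,5),(11,0),(4,7)]⟩)) (.S ⟨1,0,[0,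
  0,0,0,0,0,0,1],[0,0,1,0,-1],[1,-1,0,-1,0,0,0,1],(⟨0,[(10,0)]⟩,⟨0,[(34,0),(5,0)]⟩),⟨0,[(7,0)]⟩,.k,
  (.r (-1) ⟨9,[(8,5),(14,7),(1,1),(2,4),(19,0),(3,1)]⟩ ⟨0,[(22,0),(32,0)]⟩),⟨false,1,⟨0,[(50,0),(2,
  0)]⟩,⟨0,[(51,0)]⟩⟩,⟨true,0,⟨0,[(55,0)]⟩,⟨0,[]⟩⟩,⟨true,0,⟨0,[]⟩,⟨0,[(55,0)]⟩⟩,⟨false,0,⟨0,[(51,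
  0)]⟩,⟨0,[(50,0),(2,0)]⟩⟩,[.o ⟨false,1,⟨0,[(0,0)]⟩,⟨14,[(1,6),(6,0),(4,1),(7,2),(0,1),(4,7),(4,7),
  (15,2)]⟩⟩,.e ⟨false,1,⟨1,[(1,0),(1,0),(4,1),(11,0),(5,0)]⟩,⟨0,[(22,0),(24,0)]⟩⟩ ⟨false,1,⟨9,[(8,
  5),(15,7),(3,4),(7,1),(11,0),(3,1)]⟩,⟨2,[(17,0),(3,0),(0,0),(24,0)]⟩⟩,.a ⟨true,1,⟨8,[(0,2),(11,2),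
  (0,1),(8,1),(13,0),(1,4)]⟩,⟨0,[(1,0)]⟩⟩ ⟨false,1,⟨5,[(1,3),(1,3),(19,1),(4,0),(19,0),(4,3)]⟩,⟨4,
  [(13,0),(8,3),(24,1),(3,1)]⟩⟩ ⟨true,0,⟨0,[(0,0),(0,0)]⟩,⟨2,[(17,0),(3,0),(0,0),(24,0)]⟩⟩,.o
  ⟨false,1,⟨0,[(0,0),(20,0)]⟩,⟨15,[(1,13),(26,0),(3,1),(15,2),(3,7)]⟩⟩]⟩) (.Q [0,0,-1,0,-1,0,-1,0,1,
  1,-1,1] (.p true [1,0,-1,0,1] [] (⟨0,[(34,0),(5,0)]⟩,⟨0,[(10,0)]⟩) .k 0 (⟨0,[]⟩,⟨0,[]⟩) .k (.r 0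
  ⟨2,[(17,0),(3,0),(0,0),(24,0)]⟩ ⟨9,[(24,3),(3,4),(7,5),(11,0),(4,7)]⟩)) (.R ⟨1,false,false,true,
  [0,0,1,0,-1],[1,0,0,0,-1],[0,0,0,0,0,0,0,1],(⟨0,[(11,0)]⟩,⟨0,[(35,0),(5,0)]⟩),(⟨0,[(34,0)]⟩,⟨0,
  [(35,0)]⟩),⟨0,[(8,0)]⟩,.k,.k,(.r (-1) ⟨9,[(9,5),(14,7),(1,1),(2,4),(19,0),(3,1)]⟩ ⟨0,[(23,0),(32,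
  0)]⟩),.k,.k,.k,⟨true,0,⟨0,[(25,0),(1,0)]⟩,⟨0,[(22,0)]⟩⟩,⟨false,0,⟨0,[(36,0)]⟩,⟨7,[(16,0),(2,4),
  (12,0),(2,0),(3,2),(6,1),(2,0)]⟩⟩,⟨true,0,⟨0,[(56,0)]⟩,⟨0,[]⟩⟩,⟨false,0,⟨0,[(28,0)]⟩,⟨4,[(25,3),
  (11,0),(11,0),(4,2)]⟩⟩,⟨false,0,⟨0,[(52,0)]⟩,⟨0,[(51,0),(2,0)]⟩⟩,⟨false,0,⟨0,[(23,0),(12,0)]⟩,⟨4,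
  [(24,3),(1,0),(22,0),(4,2)]⟩⟩,[.o ⟨false,1,⟨0,[(32,0)]⟩,⟨4,[(12,3),(20,0),(15,0),(4,1)]⟩⟩,.a
  ⟨true,1,⟨0,[(20,0)]⟩,⟨0,[(12,0)]⟩⟩ ⟨false,1,⟨9,[(9,5),(15,7),(3,4),(7,1),(11,0),(3,1)]⟩,⟨2,[(18,
  0),(3,0),(0,0),(24,0)]⟩⟩ ⟨true,0,⟨0,[(1,0),(3,0),(21,0)]⟩,⟨0,[(21,0),(1,0)]⟩⟩,.a ⟨true,1,⟨9,[(5,
  3),(7,2),(0,1),(6,2),(1,4),(15,2),(8,0)]⟩,⟨0,[(2,0)]⟩⟩ ⟨true,0,⟨0,[(25,0),(1,0)]⟩,⟨2,[(18,0),(3,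
  0),(0,0),(24,0)]⟩⟩ ⟨false,0,⟨0,[(1,0),(3,0),(21,0)]⟩,⟨7,[(16,0),(2,4),(12,0),(2,0),(3,2),(6,1),(2,
  0)]⟩⟩,.a ⟨true,1,⟨0,[(32,0),(6,0)]⟩,⟨0,[(0,0)]⟩⟩ ⟨false,1,⟨9,[(9,5),(15,7),(3,4),(7,1),(11,0),(3,
  1)]⟩,⟨0,[(22,0)]⟩⟩ ⟨true,0,⟨0,[(36,0)]⟩,⟨0,[(21,0),(1,0)]⟩⟩]⟩) (.Q [0,0,1,0,1,0,2,0,-1,-1,2,-1]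
  (.p true [0,0,1] [1,0,-1,0,1] (⟨0,[(42,0)]⟩,⟨0,[(41,0)]⟩) .k 2 (⟨0,[(35,0),(5,0)]⟩,⟨0,[(11,0)]⟩)
  .k (.r (-1) ⟨4,[(25,8),(3,4),(7,0),(11,0),(4,2)]⟩ ⟨0,[(18,0),(4,0)]⟩)) (.R ⟨1,false,false,false,
  [0,0,1],[1,0,-1,0,1],[0,0,0,0,0,0,0,1],(⟨0,[(43,0)]⟩,⟨0,[(42,0)]⟩),(⟨0,[(36,0),(5,0)]⟩,⟨0,[(12,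
  0)]⟩),⟨0,[(32,0)]⟩,.k,.k,.k,.k,(.r (-1) ⟨0,[(10,0),(11,0),(3,0),(3,0)]⟩ ⟨2,[(19,0),(3,0),(0,3),
  (24,0)]⟩),.k,⟨false,1,⟨3,[(10,1),(15,7),(3,2),(6,1),(12,0)]⟩,⟨0,[(19,0),(4,0)]⟩⟩,⟨true,(-1),⟨0,
  [(3,0),(24,0)]⟩,⟨0,[(0,0)]⟩⟩,⟨false,1,⟨45,[(14,9),(2,4),(16,14),(1,4),(10,9),(2,3),(4,17)]⟩,⟨0,
  []⟩⟩,⟨true,(-1),⟨0,[(2,0),(36,0)]⟩,⟨0,[(6,0),(15,0),(30,0)]⟩⟩,⟨true,0,⟨0,[(53,0)]⟩,⟨0,[(52,0)]⟩⟩,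
  ⟨true,(-1),⟨0,[(2,0),(36,0),(13,0)]⟩,⟨0,[(6,0),(15,0)]⟩⟩,[.a ⟨true,(-1),⟨0,[(2,0),(54,0)]⟩,⟨0,[(6,
  0)]⟩⟩ ⟨true,0,⟨0,[(26,0),(1,0)]⟩,⟨0,[(23,0)]⟩⟩ ⟨false,(-1),⟨1,[(2,0),(10,0),(1,0),(12,0),(1,0),
  (22,0)]⟩,⟨50,[(0,18),(5,19),(7,5),(5,12),(17,30),(11,4),(4,27)]⟩⟩,.a ⟨true,(-1),⟨0,[(2,0)]⟩,⟨1,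
  [(6,0),(26,0),(4,0)]⟩⟩ ⟨false,1,⟨9,[(10,5),(15,7),(3,4),(7,1),(11,0),(3,1)]⟩,⟨2,[(19,0),(3,0),(0,
  0),(24,0)]⟩⟩ ⟨true,(-1),⟨0,[(2,0),(25,0)]⟩,⟨0,[(1,0),(24,0)]⟩⟩,.o ⟨false,1,⟨31,[(0,11),(13,2),(5,
  7),(13,17),(14,0),(0,2),(6,0)]⟩,⟨0,[(28,0)]⟩⟩,.a ⟨true,0,⟨0,[(40,0)]⟩,⟨0,[(37,0)]⟩⟩ ⟨false,1,⟨9,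
  [(10,5),(15,7),(3,4),(7,1),(11,0),(3,1)]⟩,⟨0,[(23,0)]⟩⟩ ⟨true,(-1),⟨1,[(2,0),(10,0),(1,0),(12,0),
  (1,0),(22,0)]⟩,⟨0,[(1,0),(24,0)]⟩⟩]⟩) (.R ⟨1,false,false,true,[0,0,1,0,-1],[1,1,-1],[0,-1,0,0,0,0,
  0,1],(⟨0,[(12,0)]⟩,⟨0,[(36,0),(5,0)]⟩),(⟨0,[(42,0),(2,0)]⟩,⟨0,[(32,0)]⟩),⟨0,[(9,0)]⟩,.k,.k,(.r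
  (-1) ⟨9,[(0,1),(4,1),(4,7),(16,7),(2,2),(19,0)]⟩ ⟨0,[(24,0),(32,0)]⟩),(.r (-1) ⟨9,[(0,8),(5,8),(3,
  0),(16,9),(2,0),(7,0),(11,1),(4,4)]⟩ ⟨2,[(19,0),(3,0),(0,3),(24,0)]⟩),(.r (-1) ⟨4,[(0,4),(4,4),(4,
  0),(14,2),(1,1),(22,0),(3,1)]⟩ ⟨0,[(24,1),(32,0)]⟩),.k,⟨false,1,⟨0,[(0,0),(5,0),(3,0),(11,0)]⟩,⟨0,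
  [(23,0),(0,0),(24,0)]⟩⟩,⟨true,(-1),⟨0,[(0,0)]⟩,⟨0,[(1,0),(38,0)]⟩⟩,⟨false,1,⟨45,[(14,9),(2,4),(16,
  14),(1,4),(10,9),(2,3),(4,17)]⟩,⟨0,[]⟩⟩,⟨false,(-1),⟨7,[(0,4),(1,2),(12,0),(8,8),(14,2),(9,1)]⟩,
  ⟨4,[(6,4),(18,3),(1,0),(22,0),(4,2)]⟩⟩,⟨true,0,⟨0,[(53,0)]⟩,⟨0,[(52,0)]⟩⟩,⟨false,(-1),⟨4,[(0,4),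
  (14,0),(8,8),(24,1),(3,1)]⟩,⟨4,[(5,4),(19,3),(1,0),(22,0),(4,2)]⟩⟩,[.o ⟨false,0,⟨0,[(39,0),(13,
  0)]⟩,⟨4,[(25,3),(1,0),(22,0),(4,2)]⟩⟩,.a ⟨true,0,⟨0,[(24,0),(12,0)]⟩,⟨0,[(25,0)]⟩⟩ ⟨false,1,⟨9,
  [(0,4),(5,4),(3,4),(15,3),(11,0),(11,0),(4,2)]⟩,⟨0,[(23,0),(25,0)]⟩⟩ ⟨true,(-1),⟨0,[(0,0),(23,
  0)]⟩,⟨1,[(1,0),(3,0),(16,0),(17,0)]⟩⟩,.e ⟨false,1,⟨13,[(0,3),(5,3),(19,9),(3,0),(10,3),(8,0),(4,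
  11)]⟩,⟨2,[(19,0),(3,0),(0,0),(24,0)]⟩⟩ ⟨false,(-1),⟨0,[(0,0),(23,0)]⟩,⟨1,[(1,0),(3,0),(14,0),(6,
  0),(27,0)]⟩⟩,.o ⟨false,1,⟨0,[(1,0)]⟩,⟨29,[(0,13),(29,0),(3,15),(15,2),(3,7)]⟩⟩]⟩)))))))))) (.Q [0,
  0,0,0,0,0,0,0,0,1,-1,-1] (.ed true [0,0,1,0,1] (.r 0 ⟨1,[(13,0),(7,0),(7,0),(14,0)]⟩ ⟨1,[(11,0),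
  (2,0),(5,0),(25,0)]⟩)) (.Q [0,0,-1,0,1,0,-1,0,-1,0,-1,-1] (.p false [0,0,1,0,1] [] (⟨0,[(28,0),(6,
  0)]⟩,⟨0,[(0,0)]⟩) .k 0 (⟨0,[]⟩,⟨0,[]⟩) .k (.r 0 ⟨1,[(14,0),(7,0),(7,0),(14,0)]⟩ ⟨1,[(12,0),(2,0),
  (5,0),(25,0)]⟩)) (.Q [0,2,0,0,-1,0,0,0,1,-1,0,1] (.p true [0,0,0,0,1] [1] (⟨0,[(29,0)]⟩,⟨0,[(28,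
  0)]⟩) .k 1 (⟨0,[]⟩,⟨0,[]⟩) .k .k) (.R ⟨1,false,false,true,[0,0,1,0,1],[0,0,0,0,1],[0,1,0,0,0,0,0,
  1],(⟨0,[(30,0),(6,0)]⟩,⟨0,[(2,0)]⟩),(⟨0,[(30,0)]⟩,⟨0,[(29,0)]⟩),⟨0,[(26,0),(3,0)]⟩,.k,.k,(.r 0 ⟨0,
  [(16,0),(14,0)]⟩ ⟨45,[(8,9),(2,4),(6,45),(9,14),(1,4),(10,9),(2,3),(4,17)]⟩),.k,.k,.k,⟨false,1,⟨9,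
  [(4,5),(15,7),(3,4),(7,1),(11,0),(3,1)]⟩,⟨2,[(13,0),(3,0),(0,0),(24,0)]⟩⟩,⟨true,0,⟨0,[(22,0)]⟩,⟨0,
  [(34,0)]⟩⟩,⟨false,1,⟨45,[(8,9),(2,4),(16,14),(1,4),(10,9),(2,3),(4,17)]⟩,⟨0,[]⟩⟩,⟨true,0,⟨0,[(33,
  0)]⟩,⟨0,[(20,0)]⟩⟩,⟨true,0,⟨0,[(47,0)]⟩,⟨0,[(46,0)]⟩⟩,⟨true,0,⟨0,[(33,0),(13,0)]⟩,⟨0,[(19,0)]⟩⟩,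
  [.o ⟨false,(-1),⟨0,[(0,0)]⟩,⟨18,[(8,1),(2,0),(3,15),(14,0),(10,1),(2,3),(4,9)]⟩⟩,.a ⟨true,(-1),⟨0,
  [(7,0)]⟩,⟨0,[(15,0)]⟩⟩ ⟨true,0,⟨0,[(20,0),(1,0)]⟩,⟨0,[(17,0)]⟩⟩ ⟨false,0,⟨1,[(0,0),(0,0),(29,0)]⟩,
  ⟨2,[(4,0),(9,0),(0,0),(12,0),(5,1)]⟩⟩,.o ⟨false,0,⟨10,[(4,5),(2,10),(1,0),(4,0),(5,0),(13,8),(9,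
  1),(2,0)]⟩,⟨1,[(1,0),(25,0),(7,0)]⟩⟩,.o ⟨false,0,⟨4,[(7,3),(20,0),(5,4),(9,0),(4,1)]⟩,⟨0,[(1,
  0)]⟩⟩]⟩) (.R ⟨1,false,false,true,[0,0,1,0,1],[0,0,0,0,1],[0,1,0,0,0,0,0,1],(⟨0,[(30,0),(6,0)]⟩,⟨0,
  [(2,0)]⟩),(⟨0,[(30,0)]⟩,⟨0,[(29,0)]⟩),⟨0,[(26,0),(3,0)]⟩,.k,.k,(.r 0 ⟨0,[(16,0),(14,0)]⟩ ⟨45,[(8,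
  9),(2,4),(6,45),(9,14),(1,4),(10,9),(2,3),(4,17)]⟩),.k,.k,.k,⟨false,1,⟨9,[(4,5),(15,7),(3,4),(7,
  1),(11,0),(3,1)]⟩,⟨2,[(13,0),(3,0),(0,0),(24,0)]⟩⟩,⟨true,0,⟨0,[(22,0)]⟩,⟨0,[(34,0)]⟩⟩,⟨false,1,
  ⟨45,[(8,9),(2,4),(16,14),(1,4),(10,9),(2,3),(4,17)]⟩,⟨0,[]⟩⟩,⟨true,0,⟨0,[(33,0)]⟩,⟨0,[(20,0)]⟩⟩,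
  ⟨true,0,⟨0,[(47,0)]⟩,⟨0,[(46,0)]⟩⟩,⟨true,0,⟨0,[(33,0),(13,0)]⟩,⟨0,[(19,0)]⟩⟩,[.e ⟨false,0,⟨0,[(16,
  0),(14,0),(15,0)]⟩,⟨1,[(14,0),(2,0),(5,0),(25,0)]⟩⟩ ⟨false,0,⟨0,[(22,0),(20,0)]⟩,⟨0,[(4,0),(29,
  0)]⟩⟩,.a ⟨true,(-1),⟨0,[(7,0)]⟩,⟨0,[(15,0)]⟩⟩ ⟨true,0,⟨0,[(20,0),(1,0)]⟩,⟨0,[(17,0)]⟩⟩ ⟨false,0,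
  ⟨0,[(1,0),(5,0)]⟩,⟨2,[(4,0),(9,0),(0,0),(12,0),(5,1)]⟩⟩,.o ⟨false,0,⟨10,[(4,5),(2,10),(1,0),(4,0),
  (5,0),(13,8),(9,1),(2,0)]⟩,⟨1,[(1,0),(25,0),(7,0)]⟩⟩,.o ⟨false,0,⟨4,[(7,3),(20,0),(5,4),(9,0),(4,
  1)]⟩,⟨0,[(1,0)]⟩⟩]⟩)) (.R ⟨1,false,false,false,[0,0,1,0,1],[0,0,0,0,1],[0,2,0,0,0,0,0,1],(⟨0,[(29,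
  0),(6,0)]⟩,⟨0,[(1,0)]⟩),(⟨0,[(29,0)]⟩,⟨0,[(28,0)]⟩),⟨0,[(25,0),(3,0)]⟩,.k,.k,(.r 0 ⟨0,[(15,0),(14,
  0)]⟩ ⟨45,[(7,9),(2,4),(6,45),(9,14),(1,4),(10,9),(2,3),(4,17)]⟩),.k,.k,.k,⟨false,0,⟨0,[(15,0),(14,
  0),(15,0)]⟩,⟨1,[(13,0),(2,0),(5,0),(25,0)]⟩⟩,⟨true,0,⟨0,[(21,0)]⟩,⟨0,[(33,0)]⟩⟩,⟨true,0,⟨0,[(50,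
  0)]⟩,⟨0,[]⟩⟩,⟨false,1,⟨33,[(7,1),(8,1),(5,31),(0,0),(3,3),(15,6),(4,15)]⟩,⟨0,[(19,0)]⟩⟩,⟨false,0,
  ⟨0,[(46,0)]⟩,⟨0,[(45,0),(2,0)]⟩⟩,⟨false,1,⟨9,[(3,3),(13,9),(5,4),(19,0),(3,2),(0,0)]⟩,⟨0,[(18,
  0)]⟩⟩,[.e ⟨false,0,⟨3,[(15,2),(7,0),(6,1),(0,0),(10,1),(3,2)]⟩,⟨0,[(3,0),(12,0)]⟩⟩ ⟨false,0,⟨2,
  [(11,0),(9,2),(20,0),(3,1)]⟩,⟨3,[(0,0),(12,1),(0,1),(12,0),(5,0),(14,0)]⟩⟩,.o ⟨false,0,⟨8,[(0,1),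
  (2,1),(2,3),(16,0),(3,2),(15,1)]⟩,⟨0,[(26,0)]⟩⟩,.o ⟨false,0,⟨8,[(0,4),(2,0),(2,1),(6,3),(13,1),
  (15,0)]⟩,⟨0,[(21,0),(4,0)]⟩⟩,.a ⟨true,(-1),⟨0,[(0,0)]⟩,⟨3,[(7,1),(13,0),(1,0),(6,0),(11,0)]⟩⟩
  ⟨false,0,⟨0,[(15,0),(14,0),(15,0)]⟩,⟨0,[(16,0),(31,0)]⟩⟩ ⟨true,0,⟨2,[(11,0),(9,2),(20,0),(3,1)]⟩,
  ⟨0,[(33,0)]⟩⟩]⟩)) (.I [1,0,-1,0,0,0,0,1] (.Q [0,0,0,0,1,0,0,-1,-1,0,0,-1] (.p false [0,0,0,0,1]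
  [] (⟨0,[(29,0)]⟩,⟨0,[(28,0)]⟩) .k 0 (⟨0,[]⟩,⟨0,[]⟩) .k .k) (.Q [0,0,-1,0,0,0,-1,0,-1,2,-1,-1] (.p
  false [-1,0,1,0,1] [1] (⟨0,[(2,0)]⟩,⟨0,[(29,0),(6,0)]⟩) .k 1 (⟨0,[]⟩,⟨0,[]⟩) .k (.r 0 ⟨4,[(1,1),
  (30,2),(2,2),(7,0)]⟩ ⟨1,[(14,0),(2,0),(5,0),(25,0)]⟩)) (.Q [0,0,0,0,0,-1,0,0,0,-1,1,1] (.p true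
  [-1,0,1,0,1] [] (⟨0,[(3,0)]⟩,⟨0,[(30,0),(6,0)]⟩) .k 0 (⟨0,[]⟩,⟨0,[]⟩) .k (.r 0 ⟨4,[(2,1),(30,2),
  (2,2),(7,0)]⟩ ⟨1,[(15,0),(2,0),(5,0),(25,0)]⟩)) (.S ⟨1,0,[0,2,0,0,0,0,0,1],[-1,0,1,0,1],[1,1,0,-1,
  0,0,0,1],(⟨0,[(4,0)]⟩,⟨0,[(31,0),(6,0)]⟩),⟨0,[(0,0)]⟩,.k,(.r 0 ⟨17,[(3,7),(10,3),(3,4),(4,4),(2,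
  4),(18,1)]⟩ ⟨45,[(10,9),(2,4),(6,45),(9,14),(1,4),(10,9),(2,3),(4,17)]⟩),⟨false,1,⟨0,[(48,0),(2,
  0)]⟩,⟨0,[(49,0)]⟩⟩,⟨true,0,⟨0,[(53,0)]⟩,⟨0,[]⟩⟩,⟨true,0,⟨0,[]⟩,⟨0,[(53,0)]⟩⟩,⟨false,0,⟨0,[(49,
  0)]⟩,⟨0,[(48,0),(2,0)]⟩⟩,[.e ⟨false,0,⟨17,[(3,7),(10,3),(3,4),(4,4),(2,4),(18,1)]⟩,⟨1,[(20,1),(29,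
  0),(0,0)]⟩⟩ ⟨false,0,⟨4,[(3,2),(30,1),(2,1),(7,3)]⟩,⟨0,[(6,0),(12,0)]⟩⟩,.o ⟨false,0,⟨4,[(9,3),(12,
  4),(7,0),(15,1),(6,0)]⟩,⟨7,[(1,5),(0,1),(16,5),(6,0),(19,0),(4,3)]⟩⟩,.e ⟨false,0,⟨0,[(21,0),(2,
  0)]⟩,⟨1,[(20,1),(29,0),(0,0)]⟩⟩ ⟨false,0,⟨4,[(3,1),(30,2),(2,2),(7,0)]⟩,⟨0,[(6,0),(12,0)]⟩⟩,.a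
  ⟨true,0,⟨4,[(9,3),(20,0),(5,4),(9,0),(4,1)]⟩,⟨0,[(1,0)]⟩⟩ ⟨true,0,⟨17,[(3,7),(10,3),(3,4),(4,4),
  (2,4),(18,1)]⟩,⟨0,[(20,0)]⟩⟩ ⟨false,0,⟨4,[(3,3),(30,0),(2,0),(7,1)]⟩,⟨0,[(19,0),(31,0)]⟩⟩]⟩) (.R
  ⟨0,false,false,false,[-1,0,1,0,1],[0,0,0,0,1],[0,1,1],(⟨0,[(4,0)]⟩,⟨0,[(31,0),(6,0)]⟩),(⟨0,[(32,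
  0)]⟩,⟨0,[(31,0)]⟩),⟨0,[(0,0)]⟩,.k,.k,(.r 0 ⟨17,[(3,7),(10,3),(3,4),(4,4),(2,4),(18,1)]⟩ ⟨45,[(10,
  9),(2,4),(6,45),(9,14),(1,4),(10,9),(2,3),(4,17)]⟩),.k,.k,.k,⟨true,0,⟨1,[(36,0),(0,0)]⟩,⟨0,[]⟩⟩,
  ⟨false,0,⟨0,[(33,0)]⟩,⟨7,[(13,0),(2,4),(12,0),(2,0),(3,2),(6,1),(2,0)]⟩⟩,⟨false,1,⟨27,[(2,9),(10,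
  4),(5,17),(10,4),(1,4),(10,9),(2,1),(4,13)]⟩,⟨0,[(3,0)]⟩⟩,⟨true,0,⟨0,[(25,0)]⟩,⟨0,[(18,0),(30,
  0)]⟩⟩,⟨false,0,⟨0,[]⟩,⟨0,[]⟩⟩,⟨false,0,⟨0,[]⟩,⟨0,[]⟩⟩,[.e ⟨false,0,⟨0,[(53,0)]⟩,⟨1,[(50,0),(0,
  0)]⟩⟩ ⟨false,0,⟨15,[(1,0),(11,0),(12,2),(5,0),(0,8),(9,1),(1,7)]⟩,⟨10,[(6,5),(4,0),(4,0),(5,0),
  (13,8),(9,1),(2,0)]⟩⟩,.o ⟨false,0,⟨4,[(9,3),(20,0),(15,0),(4,1)]⟩,⟨0,[(29,0)]⟩⟩,.e ⟨false,0,⟨1,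
  [(36,0),(0,0)]⟩,⟨1,[(50,0),(0,0)]⟩⟩ ⟨false,0,⟨7,[(1,0),(11,0),(12,2),(5,0),(0,0),(9,1)]⟩,⟨10,[(6,
  5),(4,0),(4,0),(5,0),(13,8),(9,1),(2,0)]⟩⟩,.a ⟨true,0,⟨4,[(9,3),(20,0),(5,4),(9,0),(4,1)]⟩,⟨0,[(1,
  0)]⟩⟩ ⟨true,0,⟨0,[(53,0)]⟩,⟨0,[]⟩⟩ ⟨false,0,⟨0,[(33,0)]⟩,⟨45,[(10,1),(2,0),(16,2),(1,0),(3,45),(6,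
  1),(2,9),(4,21)]⟩⟩]⟩)) (.Q [0,0,0,0,0,-1,0,0,0,-1,1,1] (.p true [-1,0,1,0,1] [] (⟨0,[(3,0)]⟩,⟨0,
  [(30,0),(6,0)]⟩) .k 0 (⟨0,[]⟩,⟨0,[]⟩) .k (.r 0 ⟨4,[(2,1),(30,2),(2,2),(7,0)]⟩ ⟨1,[(15,0),(2,0),(5,
  0),(25,0)]⟩)) (.Q [0,0,0,0,0,0,1,0,1,-2,1,1] (.p true [-1,0,1,0,1] [1] (⟨0,[(4,0)]⟩,⟨0,[(31,0),(6,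
  0)]⟩) .k 1 (⟨0,[]⟩,⟨0,[]⟩) .k (.r 0 ⟨4,[(3,1),(30,2),(2,2),(7,0)]⟩ ⟨1,[(16,0),(2,0),(5,0),(25,
  0)]⟩)) (.Q [0,0,2,0,-1,0,0,0,1,0,0,1] (.p true [0,0,0,0,1] [] (⟨0,[(33,0)]⟩,⟨0,[(32,0)]⟩) .k 0
  (⟨0,[]⟩,⟨0,[]⟩) .k .k) (.S ⟨1,0,[0,1,-1,-1],[0,-1,0,0,1],[1,2,-1,-2],(⟨2,[(2,0),(11,0),(19,1)]⟩,
  ⟨0,[(33,0),(9,0)]⟩),⟨2,[(2,1),(11,1),(19,0)]⟩,(.r 0 ⟨0,[(49,0)]⟩ ⟨10,[(12,0),(2,1),(6,3),(11,1),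
  (1,3),(2,3),(5,3),(2,0),(2,6),(1,6)]⟩),(.r 0 ⟨0,[(13,0),(9,0),(2,0)]⟩ ⟨0,[(22,0),(13,0),(2,0),(11,
  0),(1,0)]⟩),⟨true,0,⟨0,[(50,0)]⟩,⟨0,[(51,0)]⟩⟩,⟨false,1,⟨45,[(12,9),(2,4),(16,14),(1,4),(10,9),(2,
  3),(4,17)]⟩,⟨0,[]⟩⟩,⟨false,0,⟨0,[]⟩,⟨45,[(12,9),(2,4),(16,14),(1,4),(10,9),(2,3),(4,17)]⟩⟩,⟨true,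
  0,⟨0,[(51,0)]⟩,⟨0,[(50,0)]⟩⟩,[.e ⟨false,0,⟨4,[(16,3),(30,1),(2,1)]⟩,⟨11,[(0,4),(18,4),(2,0),(13,
  0),(2,0),(8,0),(2,22),(1,9)]⟩⟩ ⟨false,0,⟨6,[(5,2),(7,2),(2,1),(30,0)]⟩,⟨10,[(12,0),(2,1),(6,3),
  (11,1),(1,3),(2,3),(5,3),(2,0),(2,6),(1,6)]⟩⟩,.o ⟨false,0,⟨4,[(0,0),(8,2),(6,0),(15,0),(15,0),(4,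
  1)]⟩,⟨0,[(31,0),(19,0)]⟩⟩,.o ⟨false,0,⟨44,[(0,17),(1,1),(11,1),(0,2),(16,23),(1,0),(13,8),(5,2)]⟩,
  ⟨0,[(4,0),(0,0)]⟩⟩,.a ⟨true,(-1),⟨0,[(0,0)]⟩,⟨1,[(12,0),(0,0),(10,0),(10,0),(15,0)]⟩⟩ ⟨false,0,⟨0,
  [(16,0)]⟩,⟨5,[(0,4),(18,4),(2,0),(13,0),(2,0),(8,0),(2,10),(1,3)]⟩⟩ ⟨true,0,⟨6,[(5,2),(7,2),(2,1),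
  (30,0)]⟩,⟨0,[(0,0),(30,0),(19,0)]⟩⟩]⟩) (.Q [0,-1,0,1,1,0,-2,-2,-1,2,-2,-1] (.p false [0,0,1] [2,0,
  -1,0,-1] (⟨0,[(41,0)]⟩,⟨0,[(40,0)]⟩) .k 2 (⟨0,[(33,0),(6,0)]⟩,⟨0,[(6,0)]⟩) .k (.r 0 ⟨0,[(5,0),(30,
  0),(2,0)]⟩ ⟨4,[(8,2),(4,0),(4,1),(2,5),(0,0),(4,1)]⟩)) (.R ⟨1,false,false,true,[-1,0,1,0,1],[1,1,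
  -1],[0,1,1],(⟨0,[(7,0)]⟩,⟨0,[(34,0),(6,0)]⟩),(⟨0,[(41,0),(2,0)]⟩,⟨0,[(31,0)]⟩),⟨0,[(3,0)]⟩,.k,.k,
  (.r 0 ⟨17,[(6,7),(10,3),(3,4),(4,4),(2,4),(18,1)]⟩ ⟨17,[(0,4),(22,12),(9,4),(3,4),(1,4),(9,1),(4,
  8)]⟩),(.r 0 ⟨1,[(6,1),(14,0),(4,0),(2,0)]⟩ ⟨4,[(0,0),(8,0),(9,1),(2,3),(0,3),(9,0),(20,0)]⟩),(.r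
  0 ⟨1,[(6,1),(10,0),(3,0),(2,0),(4,0)]⟩ ⟨17,[(0,4),(22,30),(9,4),(3,4),(1,4),(9,1),(4,8)]⟩),.k,
  ⟨true,0,⟨0,[(24,0),(2,0)]⟩,⟨0,[(23,0)]⟩⟩,⟨false,1,⟨8,[(1,0),(11,3),(15,3),(6,9),(11,1)]⟩,⟨0,[(2,
  0),(36,0)]⟩⟩,⟨false,1,⟨1,[(0,0),(3,0),(34,0),(11,0),(2,0)]⟩,⟨0,[(6,0)]⟩⟩,⟨false,1,⟨0,[(0,0)]⟩,⟨0,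
  [(4,0),(1,0),(17,0)]⟩⟩,⟨true,0,⟨0,[(23,0)]⟩,⟨17,[(6,7),(10,3),(3,4),(4,4),(2,4),(18,1)]⟩⟩,⟨false,
  1,⟨0,[(0,0),(51,0)]⟩,⟨0,[(2,0),(21,1),(2,0)]⟩⟩,[.o ⟨false,0,⟨0,[(38,0),(13,0)]⟩,⟨4,[(24,3),(1,0),
  (22,0),(4,2)]⟩⟩,.a ⟨true,0,⟨1,[(0,0),(11,0),(39,0)]⟩,⟨0,[(24,0)]⟩⟩ ⟨true,0,⟨1,[(39,0),(0,0)]⟩,⟨0,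
  []⟩⟩ ⟨false,1,⟨16,[(0,8),(12,3),(15,4),(6,6),(0,0),(10,5),(3,7)]⟩,⟨0,[(2,0),(21,0)]⟩⟩,.o ⟨false,0,
  ⟨0,[(2,0)]⟩,⟨4,[(0,0),(12,0),(12,0),(2,1),(2,1),(4,0),(2,0)]⟩⟩,.o ⟨false,0,⟨0,[(4,0)]⟩,⟨8,[(1,0),
  (11,3),(15,3),(6,0),(11,1)]⟩⟩]⟩) (.S ⟨1,0,[0,2,0,0,0,0,0,1],[-1,0,1,0,1],[1,1,0,-1,0,0,0,1],(⟨0,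
  [(7,0)]⟩,⟨0,[(34,0),(6,0)]⟩),⟨0,[(3,0)]⟩,.k,(.r 0 ⟨17,[(6,7),(10,3),(3,4),(4,4),(2,4),(18,1)]⟩
  ⟨45,[(13,9),(2,4),(6,45),(9,14),(1,4),(10,9),(2,3),(4,17)]⟩),⟨false,1,⟨0,[(51,0),(2,0)]⟩,⟨0,[(52,
  0)]⟩⟩,⟨true,0,⟨0,[(56,0)]⟩,⟨0,[]⟩⟩,⟨true,0,⟨0,[]⟩,⟨0,[(56,0)]⟩⟩,⟨false,0,⟨0,[(52,0)]⟩,⟨0,[(51,0),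
  (2,0)]⟩⟩,[.o ⟨false,(-1),⟨0,[(0,0),(37,0),(13,0)]⟩,⟨10,[(5,7),(7,1),(2,0),(11,2),(0,3),(5,0),(10,
  1),(7,9)]⟩⟩,.a ⟨true,(-1),⟨1,[(0,0),(11,0),(39,0)]⟩,⟨0,[(20,0),(7,0)]⟩⟩ ⟨true,0,⟨0,[(24,0),(2,
  0)]⟩,⟨0,[(23,0)]⟩⟩ ⟨false,0,⟨4,[(6,3),(30,0),(2,0),(7,1)]⟩,⟨1,[(19,0),(2,0),(5,0),(25,0)]⟩⟩,.o
  ⟨false,0,⟨0,[(2,0)]⟩,⟨2,[(13,0),(15,1),(2,0),(6,0),(16,0)]⟩⟩,.o ⟨false,0,⟨0,[(4,0)]⟩,⟨8,[(1,0),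
  (11,3),(15,3),(6,0),(11,1)]⟩⟩]⟩))) (.Q [0,0,-1,0,0,0,-2,0,-1,2,-2,-1] (.p false [0,0,1] [2,0,-1,0,
  -1] (⟨0,[(40,0)]⟩,⟨0,[(39,0)]⟩) .k 2 (⟨0,[(32,0),(6,0)]⟩,⟨0,[(5,0)]⟩) .k (.r 0 ⟨0,[(4,0),(30,0),
  (2,0)]⟩ ⟨4,[(7,2),(4,0),(4,1),(2,5),(0,0),(4,1)]⟩)) (.Q [0,2,0,0,-1,0,0,0,1,-1,0,1] (.p true [0,0,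
  0,0,1] [1] (⟨0,[(34,0)]⟩,⟨0,[(33,0)]⟩) .k 1 (⟨0,[]⟩,⟨0,[]⟩) .k .k) (.R ⟨1,false,false,true,[-1,0,
  1,0,1],[0,0,0,0,1],[0,2,1],(⟨0,[(7,0)]⟩,⟨0,[(34,0),(6,0)]⟩),(⟨0,[(35,0)]⟩,⟨0,[(34,0)]⟩),⟨0,[(3,
  0)]⟩,.k,.k,(.r 0 ⟨17,[(6,7),(10,3),(3,4),(4,4),(2,4),(18,1)]⟩ ⟨45,[(13,9),(2,4),(6,45),(9,14),(1,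
  4),(10,9),(2,3),(4,17)]⟩),.k,.k,.k,⟨true,0,⟨1,[(39,0),(0,0)]⟩,⟨0,[]⟩⟩,⟨false,0,⟨0,[(36,0)]⟩,⟨7,
  [(16,0),(2,4),(12,0),(2,0),(3,2),(6,1),(2,0)]⟩⟩,⟨true,0,⟨0,[(22,0),(33,0)]⟩,⟨0,[(6,0)]⟩⟩,⟨false,0,
  ⟨0,[(28,0)]⟩,⟨4,[(25,3),(11,0),(11,0),(4,2)]⟩⟩,⟨false,0,⟨0,[(23,0)]⟩,⟨21,[(6,1),(2,17),(7,0),(6,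
  6),(1,12),(2,9),(19,1)]⟩⟩,⟨false,0,⟨0,[(23,0),(12,0)]⟩,⟨4,[(24,3),(1,0),(22,0),(4,2)]⟩⟩,[.o
  ⟨false,(-1),⟨0,[(0,0)]⟩,⟨18,[(13,1),(2,0),(3,15),(14,0),(10,1),(2,3),(4,9)]⟩⟩,.e ⟨false,0,⟨0,[(56,
  0)]⟩,⟨1,[(53,0),(0,0)]⟩⟩ ⟨false,0,⟨5,[(2,0),(26,0),(3,0),(2,2),(11,2)]⟩,⟨10,[(9,5),(4,0),(4,0),(5,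
  0),(13,8),(9,1),(2,0)]⟩⟩,.a ⟨true,0,⟨2,[(4,0),(4,0),(2,1),(6,0),(19,0)]⟩,⟨0,[(2,0)]⟩⟩ ⟨false,0,⟨1,
  [(39,0),(0,0),(15,1)]⟩,⟨0,[(9,0)]⟩⟩ ⟨true,(-1),⟨0,[(0,0),(1,0)]⟩,⟨10,[(9,5),(4,0),(4,0),(5,0),(13,
  8),(9,1),(2,0)]⟩⟩,.o ⟨false,0,⟨0,[(4,0)]⟩,⟨73,[(1,9),(11,31),(15,26),(18,15),(0,0),(3,7)]⟩⟩]⟩)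
  (.R ⟨1,false,false,true,[-1,0,1,0,1],[1,1,-1],[0,2,0,0,0,0,0,1],(⟨0,[(7,0)]⟩,⟨0,[(34,0),(6,0)]⟩),
  (⟨0,[(41,0),(2,0)]⟩,⟨0,[(31,0)]⟩),⟨0,[(3,0)]⟩,.k,.k,(.r 0 ⟨17,[(6,7),(10,3),(3,4),(4,4),(2,4),(18,
  1)]⟩ ⟨45,[(13,9),(2,4),(6,45),(9,14),(1,4),(10,9),(2,3),(4,17)]⟩),(.r 0 ⟨1,[(6,1),(14,0),(4,0),(2,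
  0)]⟩ ⟨1,[(19,0),(2,0),(0,1),(4,0),(25,0)]⟩),(.r 0 ⟨1,[(6,1),(10,0),(3,0),(2,0),(4,0)]⟩ ⟨45,[(13,
  9),(2,4),(6,91),(9,14),(1,4),(10,9),(2,3),(4,17)]⟩),.k,⟨false,0,⟨17,[(6,25),(10,3),(3,4),(4,4),(2,
  4),(18,1)]⟩,⟨1,[(19,0),(2,0),(0,1),(4,0),(25,0)]⟩⟩,⟨true,0,⟨0,[(1,0)]⟩,⟨0,[(4,0),(34,0)]⟩⟩,⟨true,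
  0,⟨0,[(56,0)]⟩,⟨0,[]⟩⟩,⟨false,1,⟨4,[(1,1),(3,0),(3,1),(3,0),(9,4),(4,3),(0,0)]⟩,⟨0,[(4,0),(1,0),
  (17,0)]⟩⟩,⟨false,0,⟨0,[(52,0)]⟩,⟨0,[(51,0),(2,0)]⟩⟩,⟨false,1,⟨4,[(1,2),(7,1),(3,0),(9,9),(5,0),(6,
  1),(16,0)]⟩,⟨0,[(0,0),(3,0),(1,0),(3,0),(10,0)]⟩⟩,[.o ⟨false,0,⟨0,[(38,0),(13,0)]⟩,⟨4,[(24,3),(1,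
  0),(22,0),(4,2)]⟩⟩,.a ⟨true,0,⟨0,[(23,0),(12,0)]⟩,⟨0,[(24,0)]⟩⟩ ⟨false,0,⟨15,[(1,1),(4,9),(5,1),
  (16,0),(7,5),(10,3),(0,0)]⟩,⟨1,[(19,0),(2,0),(5,0),(25,0)]⟩⟩ ⟨true,0,⟨0,[(1,0),(21,0)]⟩,⟨0,[(4,0),
  (19,0)]⟩⟩,.e ⟨false,0,⟨16,[(1,1),(4,3),(5,1),(16,0),(7,12),(2,6),(7,0),(0,0)]⟩,⟨0,[(9,0),(12,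
  0)]⟩⟩ ⟨false,0,⟨0,[(1,0),(21,0)]⟩,⟨0,[(4,0),(4,0),(16,0)]⟩⟩,.o ⟨false,0,⟨0,[(4,0)]⟩,⟨73,[(1,9),
  (11,31),(15,26),(18,15),(0,0),(3,7)]⟩⟩]⟩)) (.R ⟨1,false,false,true,[0,0,1],[2,0,-1,0,-1],[0,1,1],
  (⟨0,[(41,0)]⟩,⟨0,[(40,0)]⟩),(⟨0,[(33,0),(6,0)]⟩,⟨0,[(6,0)]⟩),⟨0,[(30,0)]⟩,.k,.k,.k,.k,(.r 0 ⟨1,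
  [(5,1),(14,0),(4,0),(2,0)]⟩ ⟨1,[(18,0),(2,0),(0,1),(4,0),(25,0)]⟩),.k,⟨false,0,⟨4,[(5,1),(30,2),
  (2,2),(7,0)]⟩,⟨4,[(8,2),(4,0),(4,1),(2,0),(0,0),(4,1)]⟩⟩,⟨true,0,⟨0,[(1,0),(24,0)]⟩,⟨0,[(0,0)]⟩⟩,
  ⟨true,0,⟨0,[(21,0),(33,0)]⟩,⟨0,[(5,0)]⟩⟩,⟨false,1,⟨1,[(1,0),(2,0),(3,0),(12,0),(4,0),(0,1)]⟩,⟨0,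
  [(3,0),(1,0),(18,0)]⟩⟩,⟨false,0,⟨0,[(22,0)]⟩,⟨21,[(5,1),(2,17),(7,0),(6,6),(1,12),(2,9),(19,1)]⟩⟩,
  ⟨false,1,⟨2,[(1,1),(2,0),(3,1),(4,0),(8,3),(5,1)]⟩,⟨0,[(3,0),(1,0),(17,0)]⟩⟩,[.o ⟨false,1,⟨36,[(1,
  2),(2,28),(7,3),(2,2),(11,7),(0,12),(5,2),(10,5),(1,1)]⟩,⟨0,[(3,0),(1,0)]⟩⟩,.o ⟨false,1,⟨1,[(1,0),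
  (2,0),(3,0),(12,0),(4,0)]⟩,⟨9,[(3,4),(1,4),(5,3),(20,0),(3,4),(11,1),(6,0)]⟩⟩,.o ⟨false,1,⟨36,[(0,
  8),(14,4),(2,18),(12,13),(2,4),(10,9),(2,1)]⟩,⟨0,[(26,0)]⟩⟩,.a ⟨true,0,⟨0,[(38,0)]⟩,⟨0,[(35,0)]⟩⟩
  ⟨true,0,⟨0,[(55,0)]⟩,⟨0,[]⟩⟩ ⟨false,1,⟨2,[(1,1),(2,0),(3,1),(4,0),(8,0),(5,1)]⟩,⟨0,[(3,0),(20,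
  0)]⟩⟩]⟩))) (.Q [0,0,0,0,0,0,1,0,1,-2,1,1] (.p true [-1,0,1,0,1] [1] (⟨0,[(4,0)]⟩,⟨0,[(31,0),(6,
  0)]⟩) .k 1 (⟨0,[]⟩,⟨0,[]⟩) .k (.r 0 ⟨4,[(3,1),(30,2),(2,2),(7,0)]⟩ ⟨1,[(16,0),(2,0),(5,0),(25,
  0)]⟩)) (.Q [0,1,0,1,-1,0,0,0,1,-1,0,1] (.p true [0,0,0,0,1] [1] (⟨0,[(33,0)]⟩,⟨0,[(32,0)]⟩) .k 1
  (⟨0,[]⟩,⟨0,[]⟩) .k .k) (.R ⟨0,false,false,true,[-1,0,1,0,1],[0,-1,1],[1,1],(⟨0,[(6,0)]⟩,⟨0,[(33,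
  0),(6,0)]⟩),(⟨0,[(30,0)]⟩,⟨0,[(40,0),(2,0)]⟩),⟨0,[(2,0)]⟩,.k,.k,(.r 0 ⟨17,[(5,7),(10,3),(3,4),(4,
  4),(2,4),(18,1)]⟩ ⟨45,[(12,9),(2,4),(6,45),(9,14),(1,4),(10,9),(2,3),(4,17)]⟩),(.r 0 ⟨4,[(22,2),
  (13,2),(2,2),(7,0),(3,1)]⟩ ⟨5,[(16,1),(33,1),(1,0),(0,4)]⟩),.k,.k,⟨true,0,⟨0,[(22,0)]⟩,⟨0,[(23,0),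
  (2,0)]⟩⟩,⟨false,1,⟨0,[(19,0),(35,0)]⟩,⟨35,[(0,20),(7,15),(0,0),(6,9),(15,13),(15,2)]⟩⟩,⟨false,1,
  ⟨1,[(18,0),(2,0),(5,0),(25,0)]⟩,⟨1,[(5,0),(18,0),(14,0)]⟩⟩,⟨true,1,⟨0,[(19,0),(30,0)]⟩,⟨0,[(0,
  0)]⟩⟩,⟨false,0,⟨0,[]⟩,⟨0,[]⟩⟩,⟨false,0,⟨0,[]⟩,⟨0,[]⟩⟩,[.o ⟨false,0,⟨0,[(20,0)]⟩,⟨9,[(8,3),(13,9),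
  (5,4),(19,0),(3,2),(0,0)]⟩⟩,.a ⟨true,0,⟨0,[(23,0)]⟩,⟨0,[(22,0),(12,0)]⟩⟩ ⟨true,0,⟨0,[]⟩,⟨1,[(38,
  0),(0,0)]⟩⟩ ⟨false,1,⟨11,[(5,1),(6,5),(3,0),(6,4),(1,4),(2,3),(6,1)]⟩,⟨38,[(0,18),(0,4),(6,12),(4,
  6),(8,26),(4,4),(4,14),(15,2)]⟩⟩,.o ⟨false,0,⟨0,[(1,0)]⟩,⟨2,[(12,0),(15,1),(2,0),(6,0),(16,0)]⟩⟩,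
  .o ⟨false,0,⟨0,[(3,0)]⟩,⟨14,[(0,0),(4,0),(6,7),(0,0),(14,6),(6,0),(11,2)]⟩⟩]⟩) (.Q [0,2,0,1,-1,0,
  0,0,1,-1,0,1] (.p true [0,0,0,0,1] [1] (⟨0,[(34,0)]⟩,⟨0,[(33,0)]⟩) .k 1 (⟨0,[]⟩,⟨0,[]⟩) .k .k)
  (.R ⟨0,false,false,false,[-1,0,1,0,1],[0,-1,1],[1],(⟨0,[(7,0)]⟩,⟨0,[(34,0),(6,0)]⟩),(⟨0,[(31,0)]⟩,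
  ⟨0,[(41,0),(2,0)]⟩),⟨0,[(3,0)]⟩,.k,.k,(.r 0 ⟨17,[(6,7),(10,3),(3,4),(4,4),(2,4),(18,1)]⟩ ⟨45,[(13,
  9),(2,4),(6,45),(9,14),(1,4),(10,9),(2,3),(4,17)]⟩),(.r 0 ⟨5,[(0,0),(22,3),(5,0),(2,0),(4,3),(2,
  1),(11,0)]⟩ ⟨45,[(1,9),(15,17),(15,9),(15,1),(3,4),(0,26)]⟩),.k,.k,⟨true,0,⟨0,[(23,0)]⟩,⟨0,[(24,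
  0),(2,0)]⟩⟩,⟨false,1,⟨0,[(20,0),(35,0)]⟩,⟨0,[(2,0),(33,0)]⟩⟩,⟨false,1,⟨0,[(9,0),(12,0)]⟩,⟨7,[(0,
  0),(5,1),(14,0),(7,1),(2,0),(4,4),(2,1)]⟩⟩,⟨true,1,⟨0,[(1,0)]⟩,⟨0,[(0,0)]⟩⟩,⟨false,0,⟨0,[]⟩,⟨0,
  []⟩⟩,⟨false,0,⟨0,[]⟩,⟨0,[]⟩⟩,[.a ⟨true,0,⟨0,[(24,0)]⟩,⟨0,[(23,0),(12,0)]⟩⟩ ⟨true,0,⟨0,[]⟩,⟨1,[(39,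
  0),(0,0)]⟩⟩ ⟨false,1,⟨16,[(1,4),(4,6),(6,5),(3,0),(8,9),(2,3),(6,1)]⟩,⟨1,[(0,0),(1,0),(6,0),(13,
  0),(4,0)]⟩⟩,.o ⟨false,1,⟨4,[(24,3),(1,0),(22,0),(4,2)]⟩,⟨0,[(38,0),(13,0)]⟩⟩,.o ⟨false,0,⟨0,[(2,
  0)]⟩,⟨2,[(13,0),(15,1),(2,0),(6,0),(16,0)]⟩⟩,.o ⟨false,0,⟨0,[(4,0)]⟩,⟨12,[(0,0),(5,0),(6,6),(0,0),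
  (14,5),(6,0),(11,1)]⟩⟩]⟩) (.Q [0,0,-1,0,-1,0,-1,0,1,1,-1,1] (.p true [1,0,-1,0,1] [] (⟨0,[(35,0),
  (5,0)]⟩,⟨0,[(11,0)]⟩) .k 0 (⟨0,[]⟩,⟨0,[]⟩) .k (.r 0 ⟨2,[(18,0),(3,0),(0,0),(24,0)]⟩ ⟨9,[(25,3),(3,
  4),(7,5),(11,0),(4,7)]⟩)) (.R ⟨0,false,false,true,[0,0,1,0,-1],[1,0,0,0,-1],[0,0,0,-1,0,0,0,1],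
  (⟨0,[(12,0)]⟩,⟨0,[(36,0),(5,0)]⟩),(⟨0,[(35,0)]⟩,⟨0,[(36,0)]⟩),⟨0,[(9,0)]⟩,.k,.k,(.r (-1) ⟨21,[(7,
  1),(2,17),(7,0),(6,6),(1,12),(2,9),(19,1)]⟩ ⟨0,[(24,0),(32,0)]⟩),.k,.k,.k,⟨true,0,⟨3,[(0,0),(0,0),
  (5,0),(14,1),(2,0),(15,1)]⟩,⟨0,[(24,0)]⟩⟩,⟨false,0,⟨0,[(37,0)]⟩,⟨7,[(17,0),(2,4),(12,0),(2,0),(3,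
  2),(6,1),(2,0)]⟩⟩,⟨true,0,⟨0,[(52,0)]⟩,⟨0,[(53,0)]⟩⟩,⟨false,0,⟨0,[(29,0)]⟩,⟨4,[(26,3),(11,0),(11,
  0),(4,2)]⟩⟩,⟨false,0,⟨0,[]⟩,⟨0,[]⟩⟩,⟨false,0,⟨0,[]⟩,⟨0,[]⟩⟩,[.o ⟨false,1,⟨0,[(33,0)]⟩,⟨35,[(0,10),
  (4,10),(28,13),(15,4),(4,0),(1,1)]⟩⟩,.a ⟨true,1,⟨0,[(21,0)]⟩,⟨0,[(13,0)]⟩⟩ ⟨false,1,⟨21,[(7,1),(2,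
  17),(7,0),(6,6),(1,12),(2,9),(19,1)]⟩,⟨4,[(15,0),(8,3),(24,1),(3,1)]⟩⟩ ⟨true,0,⟨1,[(0,0),(0,0),
  (39,0),(11,0)]⟩,⟨0,[(22,0),(1,0)]⟩⟩,.a ⟨true,1,⟨0,[(6,0),(19,0)]⟩,⟨1,[(0,1),(39,0),(0,0)]⟩⟩ ⟨true,
  0,⟨3,[(0,0),(0,0),(5,0),(14,1),(2,0),(15,1)]⟩,⟨4,[(15,0),(8,3),(24,1),(3,1)]⟩⟩ ⟨false,0,⟨1,[(0,0),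
  (0,0),(39,0),(11,0)]⟩,⟨7,[(17,0),(2,4),(12,0),(2,0),(3,2),(6,1),(2,0)]⟩⟩,.a ⟨true,1,⟨0,[(33,0),(6,
  0)]⟩,⟨0,[(0,0)]⟩⟩ ⟨false,1,⟨21,[(7,1),(2,17),(7,0),(6,6),(1,12),(2,9),(19,1)]⟩,⟨0,[(24,0)]⟩⟩
  ⟨true,0,⟨0,[(37,0)]⟩,⟨0,[(22,0),(1,0)]⟩⟩]⟩) (.R ⟨0,false,false,false,[0,0,1,0,-1],[0,0,1],[1,0,0,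
  0,0,0,0,1],(⟨0,[(12,0)]⟩,⟨0,[(36,0),(5,0)]⟩),(⟨0,[(43,0)]⟩,⟨0,[(42,0)]⟩),⟨0,[(9,0)]⟩,.k,.k,(.r
  (-1) ⟨21,[(7,1),(2,17),(7,0),(6,6),(1,12),(2,9),(19,1)]⟩ ⟨0,[(24,0),(32,0)]⟩),.k,.k,.k,⟨true,0,⟨0,
  []⟩,⟨1,[(40,0),(0,0)]⟩⟩,⟨false,0,⟨2,[(10,0),(2,1),(20,0),(19,0)]⟩,⟨0,[(33,0)]⟩⟩,⟨false,0,⟨0,[]⟩,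
  ⟨45,[(14,9),(2,4),(16,14),(1,4),(10,9),(2,3),(4,17)]⟩⟩,⟨true,(-1),⟨0,[(13,0)]⟩,⟨0,[(33,0)]⟩⟩,
  ⟨false,0,⟨0,[]⟩,⟨0,[]⟩⟩,⟨false,0,⟨0,[]⟩,⟨0,[]⟩⟩,[.e ⟨false,0,⟨0,[(7,0)]⟩,⟨0,[(6,0),(27,0)]⟩⟩
  ⟨false,0,⟨0,[(7,0),(26,0)]⟩,⟨0,[(6,0)]⟩⟩,.o ⟨false,1,⟨4,[(26,3),(11,0),(11,0),(4,2)]⟩,⟨0,[(39,
  0)]⟩⟩,.a ⟨true,1,⟨8,[(0,2),(13,2),(0,1),(10,0),(11,0),(1,3),(12,1)]⟩,⟨0,[(1,0),(11,1),(14,0),(24,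
  0)]⟩⟩ ⟨true,0,⟨1,[(7,0),(18,0),(14,0)]⟩,⟨2,[(19,0),(3,0),(0,0),(24,0)]⟩⟩ ⟨false,0,⟨1,[(7,0),(5,1),
  (12,0),(14,0),(13,1)]⟩,⟨0,[(6,0)]⟩⟩,.o ⟨false,1,⟨0,[(0,0)]⟩,⟨2,[(3,1),(26,0),(3,0),(2,2)]⟩⟩]⟩))))
  (.R ⟨0,false,false,true,[-1,0,1,0,1],[0,0,1],[1,1,1],(⟨0,[(5,0)]⟩,⟨0,[(32,0),(6,0)]⟩),(⟨0,[(40,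
  0)]⟩,⟨0,[(39,0)]⟩),⟨0,[(1,0)]⟩,.k,.k,(.r 0 ⟨17,[(4,7),(10,3),(3,4),(4,4),(2,4),(18,1)]⟩ ⟨45,[(11,
  9),(2,4),(6,45),(9,14),(1,4),(10,9),(2,3),(4,17)]⟩),.k,.k,.k,⟨true,0,⟨0,[(20,0)]⟩,⟨1,[(4,0),(18,
  0),(14,0)]⟩⟩,⟨false,1,⟨8,[(0,2),(10,2),(0,0),(8,0),(13,1),(1,0),(13,2)]⟩,⟨7,[(2,1),(4,1),(2,3),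
  (16,0),(3,1),(15,0)]⟩⟩,⟨true,0,⟨0,[(20,0)]⟩,⟨4,[(4,3),(30,0),(2,0),(7,1)]⟩⟩,⟨false,1,⟨0,[(18,0)]⟩,
  ⟨7,[(2,1),(4,1),(2,3),(16,0),(3,1),(15,0)]⟩⟩,⟨false,0,⟨0,[]⟩,⟨0,[]⟩⟩,⟨false,0,⟨0,[]⟩,⟨0,[]⟩⟩,[.o
  ⟨false,0,⟨0,[(19,0),(30,0)]⟩,⟨15,[(3,1),(22,13),(0,0),(3,1),(15,2),(4,7)]⟩⟩,.e ⟨false,0,⟨0,[]⟩,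
  ⟨32,[(11,9),(19,19),(14,4),(0,1),(3,8)]⟩⟩ ⟨false,1,⟨10,[(0,0),(3,3),(6,4),(15,1),(6,1),(0,6),(16,
  0)]⟩,⟨5,[(2,0),(4,2),(2,4),(1,0),(7,2),(0,0),(4,0),(20,0)]⟩⟩,.a ⟨true,0,⟨2,[(2,0),(4,0),(2,1),(6,
  0),(19,0)]⟩,⟨0,[(0,0)]⟩⟩ ⟨false,0,⟨1,[(37,0),(0,0)]⟩,⟨1,[(51,0),(0,0)]⟩⟩ ⟨true,0,⟨0,[(0,0),(18,0),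
  (30,0)]⟩,⟨5,[(2,0),(4,2),(2,4),(1,0),(7,2),(0,0),(4,0),(20,0)]⟩⟩,.o ⟨false,0,⟨0,[(2,0)]⟩,⟨17,[(0,
  1),(10,7),(15,4),(6,5),(11,3),(0,0)]⟩⟩]⟩)))) (.S ⟨1,0,[0,1],[0,0,0,0,1],[0,2],(⟨0,[(30,0)]⟩,⟨0,
  [(29,0)]⟩),⟨1,[(2,0),(7,0),(19,0)]⟩,.k,(.r 0 ⟨0,[(45,0)]⟩ ⟨10,[(8,0),(2,1),(6,3),(11,1),(1,3),(2,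
  3),(5,3),(2,0),(2,6),(1,6)]⟩),⟨true,0,⟨0,[(51,0)]⟩,⟨0,[]⟩⟩,⟨false,1,⟨45,[(8,9),(2,4),(16,14),(1,
  4),(10,9),(2,3),(4,17)]⟩,⟨0,[]⟩⟩,⟨false,0,⟨0,[(47,0)]⟩,⟨0,[(46,0),(2,0)]⟩⟩,⟨true,0,⟨0,[(47,0)]⟩,
  ⟨0,[(46,0)]⟩⟩,[.e ⟨false,0,⟨0,[(43,0)]⟩,⟨0,[(49,0)]⟩⟩ ⟨false,0,⟨4,[(1,0),(7,0),(33,1),(3,0)]⟩,⟨45,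
  [(8,9),(2,4),(16,14),(1,4),(10,9),(2,3),(4,17)]⟩⟩,.o ⟨false,0,⟨4,[(7,3),(20,0),(15,0),(4,1)]⟩,⟨0,
  [(27,0)]⟩⟩,.o ⟨false,0,⟨4,[(7,3),(20,0),(15,0),(4,1)]⟩,⟨0,[(27,0)]⟩⟩,.a ⟨true,(-1),⟨0,[(0,0),(16,
  0)]⟩,⟨4,[(8,1),(0,0),(5,0),(2,0),(12,1),(0,1)]⟩⟩ ⟨false,0,⟨4,[(1,0),(7,0),(33,1),(3,0)]⟩,⟨1,[(34,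
  0),(0,0),(13,1)]⟩⟩ ⟨true,0,⟨4,[(1,0),(7,0),(33,1),(3,0)]⟩,⟨1,[(34,0),(0,0)]⟩⟩]⟩)) (.Q [0,0,0,2,0,
  0,-1,-1,0,0,-1] (.p false [0,0,1] [] (⟨0,[(36,0)]⟩,⟨0,[(35,0)]⟩) .k 0 (⟨0,[]⟩,⟨0,[]⟩) .k .k) (.R
  ⟨1,false,false,true,[1,-1],[1,0,-1],[0,1,1,0,0,0,0,-1],(⟨0,[(41,0)]⟩,⟨0,[(42,0)]⟩),(⟨0,[(36,0)]⟩,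
  ⟨0,[(37,0)]⟩),⟨1,[(10,0),(15,0),(14,0)]⟩,.k,.k,(.r (-1) ⟨2,[(12,1),(33,1),(1,0),(0,1)]⟩ ⟨0,[(34,
  0),(0,0),(11,1)]⟩),.k,(.r (-1) ⟨9,[(4,5),(7,4),(6,2),(1,6),(2,4),(19,0),(3,1)]⟩ ⟨1,[(0,1),(33,2),
  (0,0)]⟩),.k,⟨true,0,⟨1,[(34,0),(0,0)]⟩,⟨0,[]⟩⟩,⟨false,1,⟨5,[(24,0),(6,3),(12,0),(3,3)]⟩,⟨0,[(34,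
  0)]⟩⟩,⟨false,0,⟨1,[(18,1),(15,0),(0,0)]⟩,⟨0,[(4,0),(11,0),(14,0)]⟩⟩,⟨true,0,⟨1,[(0,0),(32,0),(17,
  0)]⟩,⟨0,[(19,0)]⟩⟩,⟨false,0,⟨1,[(0,1),(33,2),(0,0)]⟩,⟨1,[(4,1),(7,0),(3,0),(2,0),(4,0)]⟩⟩,⟨false,
  0,⟨0,[(0,0)]⟩,⟨0,[(19,0),(26,0),(2,0)]⟩⟩,[.o ⟨false,0,⟨0,[(33,0)]⟩,⟨4,[(20,3),(11,0),(11,0),(4,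
  2)]⟩⟩,.a ⟨true,0,⟨0,[(23,0)]⟩,⟨0,[(20,0)]⟩⟩ ⟨true,0,⟨0,[(1,0)]⟩,⟨0,[(20,0),(1,0)]⟩⟩ ⟨false,1,⟨22,
  [(0,3),(3,3),(4,7),(13,10),(0,3),(19,2),(3,12)]⟩,⟨1,[(20,1),(13,0),(0,0)]⟩⟩,.o ⟨false,0,⟨1,[(34,
  0),(0,0)]⟩,⟨32,[(8,1),(19,3),(14,0),(0,6),(3,14)]⟩⟩,.o ⟨false,0,⟨0,[(34,0),(0,0)]⟩,⟨14,[(4,3),(7,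
  7),(31,2),(2,15),(0,4)]⟩⟩]⟩) (.Q [0,0,0,0,-1,0,-1,0,1,1,-1,1] (.p true [1,0,-1,0,1] [] (⟨0,[(30,
  0),(5,0)]⟩,⟨0,[(6,0)]⟩) .k 0 (⟨0,[]⟩,⟨0,[]⟩) .k (.r 0 ⟨4,[(1,2),(7,0),(8,0),(24,1)]⟩ ⟨9,[(20,3),
  (3,4),(7,5),(11,0),(4,7)]⟩)) (.Q [0,0,-1,0,-1,0,-1,0,1,1,-1,1] (.p true [1,0,-1,0,1] [] (⟨0,[(31,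
  0),(5,0)]⟩,⟨0,[(7,0)]⟩) .k 0 (⟨0,[]⟩,⟨0,[]⟩) .k (.r 0 ⟨4,[(2,2),(7,0),(8,0),(24,1)]⟩ ⟨9,[(21,3),
  (3,4),(7,5),(11,0),(4,7)]⟩)) (.Q [0,2,0,0,-2,0,0,0,2,-1,0,2] (.p true [0,0,0,0,1] [1,0,0,0,-1]
  (⟨0,[(32,0)]⟩,⟨0,[(31,0)]⟩) .k 2 (⟨0,[(31,0)]⟩,⟨0,[(32,0)]⟩) .k (.r 0 ⟨0,[(53,1)]⟩ ⟨0,[(51,0)]⟩))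
  (.Q [0,0,0,0,0,0,1,1,1,-2,1,1] (.p true [-1,0,1,0,1] [1] (⟨0,[(5,0)]⟩,⟨0,[(32,0),(6,0)]⟩) .k 1
  (⟨0,[]⟩,⟨0,[]⟩) .k (.r 0 ⟨1,[(19,0),(7,0),(7,0),(14,0)]⟩ ⟨1,[(4,1),(46,0),(0,0)]⟩)) (.R ⟨0,false,
  false,false,[0,0,1,0,-1],[-1,0,1,0,1],[1,1,0,0,0,0,0,1],(⟨0,[(10,0)]⟩,⟨0,[(34,0),(5,0)]⟩),(⟨0,[(6,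
  0)]⟩,⟨0,[(33,0),(6,0)]⟩),⟨0,[(7,0)]⟩,.k,.k,(.r (-1) ⟨5,[(0,1),(3,1),(3,2),(3,0),(10,0),(1,0),(2,
  2),(23,0)]⟩ ⟨0,[(22,0),(32,0)]⟩),.k,.k,.k,⟨true,0,⟨0,[]⟩,⟨1,[(38,0),(0,0)]⟩⟩,⟨false,(-1),⟨0,[(1,
  0),(6,0)]⟩,⟨2,[(12,1),(15,0),(2,1),(6,1),(16,1)]⟩⟩,⟨false,0,⟨0,[(55,0)]⟩,⟨0,[(53,0)]⟩⟩,⟨true,(-2),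
  ⟨0,[(1,0)]⟩,⟨0,[(19,0),(11,0)]⟩⟩,⟨false,0,⟨0,[]⟩,⟨0,[]⟩⟩,⟨false,0,⟨0,[]⟩,⟨0,[]⟩⟩,[.e ⟨false,0,⟨0,
  [(20,0),(14,0),(15,0)]⟩,⟨1,[(5,1),(46,0),(0,0)]⟩⟩ ⟨false,(-1),⟨13,[(0,9),(0,4),(0,5),(0,1),(24,2),
  (7,3),(15,3)]⟩,⟨0,[(5,0),(6,0)]⟩⟩,.o ⟨false,0,⟨0,[(0,0)]⟩,⟨3,[(5,1),(6,1),(14,0),(0,0),(8,0),(17,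
  0)]⟩⟩,.e ⟨false,0,⟨0,[(24,0),(1,0)]⟩,⟨1,[(5,1),(46,0),(0,0)]⟩⟩ ⟨false,(-1),⟨0,[(0,0),(2,0)]⟩,⟨0,
  [(5,0),(6,0)]⟩⟩,.a ⟨true,1,⟨0,[(31,0),(6,0)]⟩,⟨0,[(2,0)]⟩⟩ ⟨true,0,⟨0,[(20,0),(14,0),(15,0)]⟩,⟨0,
  [(5,0)]⟩⟩ ⟨false,(-1),⟨0,[(0,0),(1,0)]⟩,⟨0,[(5,0),(13,0),(11,0)]⟩⟩]⟩) (.Q [0,1,0,0,0,0,1,0,0,-1,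
  1] (.p true [0,0,1] [1] (⟨0,[(41,0)]⟩,⟨0,[(40,0)]⟩) .k 1 (⟨0,[]⟩,⟨0,[]⟩) .k .k) (.R ⟨0,false,
  false,true,[0,0,1,0,-1],[1,0,0,0,-1],[0,0,0,0,0,0,0,1],(⟨0,[(11,0)]⟩,⟨0,[(35,0),(5,0)]⟩),(⟨0,[(34,
  0)]⟩,⟨0,[(35,0)]⟩),⟨0,[(8,0)]⟩,.k,.k,(.r (-1) ⟨9,[(9,5),(14,7),(1,1),(2,4),(19,0),(3,1)]⟩ ⟨0,[(23,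
  0),(32,0)]⟩),.k,.k,.k,⟨true,0,⟨0,[(25,0),(1,0)]⟩,⟨0,[(22,0)]⟩⟩,⟨false,0,⟨0,[(36,0)]⟩,⟨7,[(16,0),
  (2,4),(12,0),(2,0),(3,2),(6,1),(2,0)]⟩⟩,⟨true,0,⟨0,[(56,0)]⟩,⟨0,[]⟩⟩,⟨false,0,⟨0,[(28,0)]⟩,⟨4,
  [(25,3),(11,0),(11,0),(4,2)]⟩⟩,⟨false,0,⟨0,[]⟩,⟨0,[]⟩⟩,⟨false,0,⟨0,[]⟩,⟨0,[]⟩⟩,[.o ⟨false,1,⟨0,
  [(32,0)]⟩,⟨6,[(2,1),(30,2),(15,0),(4,1)]⟩⟩,.e ⟨false,1,⟨9,[(9,5),(15,7),(3,4),(7,1),(11,0),(3,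
  1)]⟩,⟨4,[(6,2),(7,0),(8,0),(24,1)]⟩⟩ ⟨false,1,⟨7,[(13,1),(15,1),(3,3),(2,3),(16,0),(0,2)]⟩,⟨0,[(0,
  0)]⟩⟩,.e ⟨true,0,⟨0,[(25,0),(1,0)]⟩,⟨4,[(6,2),(7,0),(8,0),(24,1)]⟩⟩ ⟨true,0,⟨12,[(1,0),(2,0),(11,
  0),(3,0),(8,4),(5,0),(0,1),(0,0),(8,1)]⟩,⟨0,[(0,0)]⟩⟩,.a ⟨true,1,⟨0,[(32,0),(6,0)]⟩,⟨0,[(3,0)]⟩⟩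
  ⟨false,1,⟨9,[(9,5),(15,7),(3,4),(7,1),(11,0),(3,1)]⟩,⟨0,[(22,0)]⟩⟩ ⟨true,0,⟨0,[(36,0)]⟩,⟨0,[(21,
  0),(1,0)]⟩⟩]⟩) (.R ⟨0,false,false,true,[0,0,1,0,-1],[1,0,0,0,-1],[0,0,0,0,0,0,0,1],(⟨0,[(11,0)]⟩,
  ⟨0,[(35,0),(5,0)]⟩),(⟨0,[(34,0)]⟩,⟨0,[(35,0)]⟩),⟨0,[(8,0)]⟩,.k,.k,(.r (-1) ⟨9,[(9,5),(14,7),(1,1),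
  (2,4),(19,0),(3,1)]⟩ ⟨0,[(23,0),(32,0)]⟩),.k,.k,.k,⟨true,0,⟨0,[(25,0),(1,0)]⟩,⟨0,[(22,0)]⟩⟩,
  ⟨false,0,⟨0,[(36,0)]⟩,⟨7,[(16,0),(2,4),(12,0),(2,0),(3,2),(6,1),(2,0)]⟩⟩,⟨true,0,⟨0,[(56,0)]⟩,⟨0,
  []⟩⟩,⟨false,0,⟨0,[(28,0)]⟩,⟨4,[(25,3),(11,0),(11,0),(4,2)]⟩⟩,⟨false,0,⟨0,[]⟩,⟨0,[]⟩⟩,⟨false,0,⟨0,
  []⟩,⟨0,[]⟩⟩,[.o ⟨false,1,⟨0,[(32,0)]⟩,⟨6,[(2,1),(30,2),(15,0),(4,1)]⟩⟩,.a ⟨true,1,⟨0,[(20,0)]⟩,⟨0,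
  [(12,0)]⟩⟩ ⟨false,1,⟨9,[(9,5),(15,7),(3,4),(7,1),(11,0),(3,1)]⟩,⟨4,[(6,2),(7,0),(8,0),(24,1)]⟩⟩
  ⟨true,0,⟨0,[(0,0)]⟩,⟨0,[(21,0),(1,0)]⟩⟩,.a ⟨true,1,⟨3,[(1,1),(11,0),(0,0),(10,2),(13,2),(9,0),(2,
  0)]⟩,⟨0,[(4,0)]⟩⟩ ⟨true,0,⟨0,[(25,0),(1,0)]⟩,⟨4,[(6,2),(7,0),(8,0),(24,1)]⟩⟩ ⟨false,0,⟨0,[(0,0)]⟩,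
  ⟨7,[(16,0),(2,4),(12,0),(2,0),(3,2),(6,1),(2,0)]⟩⟩,.a ⟨true,1,⟨0,[(32,0),(6,0)]⟩,⟨0,[(3,0)]⟩⟩
  ⟨false,1,⟨9,[(9,5),(15,7),(3,4),(7,1),(11,0),(3,1)]⟩,⟨0,[(22,0)]⟩⟩ ⟨true,0,⟨0,[(36,0)]⟩,⟨0,[(21,
  0),(1,0)]⟩⟩]⟩))) (.Q [0,0,2,0,-1,0,0,0,1,0,0,1] (.p true [0,0,0,0,1] [] (⟨0,[(33,0)]⟩,⟨0,[(32,
  0)]⟩) .k 0 (⟨0,[]⟩,⟨0,[]⟩) .k .k) (.I [0,0,-2,0,1,-2,0,0,-1] (.S ⟨1,0,[0,1,-1,-1],[0,-1,0,0,1],[1,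
  2,-1,-2],(⟨1,[(0,0),(0,0),(33,0)]⟩,⟨0,[(34,0),(9,0)]⟩),⟨0,[(0,0),(0,0)]⟩,(.r 0 ⟨0,[(50,0)]⟩ ⟨5,
  [(1,1),(0,2),(13,0),(16,2),(1,0),(10,1),(2,0),(2,5)]⟩),(.x 0 ⟨0,[(16,0)]⟩ ⟨0,[(0,0)]⟩),⟨true,0,⟨0,
  [(51,0)]⟩,⟨0,[(52,0)]⟩⟩,⟨false,1,⟨13,[(2,4),(30,9),(15,0),(4,1)]⟩,⟨0,[]⟩⟩,⟨false,0,⟨0,[]⟩,⟨13,[(2,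
  4),(30,9),(15,0),(4,1)]⟩⟩,⟨true,0,⟨0,[(52,0)]⟩,⟨0,[(51,0)]⟩⟩,[.e ⟨false,0,⟨4,[(17,3),(30,1),(2,
  1)]⟩,⟨13,[(1,6),(0,4),(30,2),(15,0),(2,27),(1,8)]⟩⟩ ⟨false,0,⟨0,[(17,0),(34,0)]⟩,⟨5,[(1,1),(0,2),
  (13,0),(16,2),(1,0),(10,1),(2,0),(2,5)]⟩⟩,.o ⟨false,0,⟨4,[(1,0),(8,2),(6,0),(15,0),(15,0),(4,1)]⟩,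
  ⟨0,[(32,0),(19,0)]⟩⟩,.o ⟨false,0,⟨9,[(0,0),(0,4),(14,0),(16,4),(15,1)]⟩,⟨1,[(2,0),(11,0),(6,0),(5,
  0),(24,1)]⟩⟩,.a ⟨true,(-1),⟨0,[(1,0)]⟩,⟨1,[(13,0),(0,0),(10,0),(10,0),(15,0)]⟩⟩ ⟨false,0,⟨0,[(17,
  0)]⟩,⟨6,[(1,6),(0,4),(30,2),(15,0),(2,13),(1,1)]⟩⟩ ⟨true,0,⟨0,[(17,0),(34,0)]⟩,⟨0,[(1,0),(30,0),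
  (19,0)]⟩⟩]⟩) (.I [0,0,0,-2,0,0,0,1] (.C [(0,1),(0,1),(1,0),(4,0),(0,0),(5,1),(28,4),(8,5)]) (.C
  [(0,0),(5,0),(21,0)]))) (.Q [0,-1,0,0,2,0,1,0,-2,0,1,-2] (.p false [0,0,0,0,1] [0,0,1,0,-1] (⟨0,
  [(34,0)]⟩,⟨0,[(33,0)]⟩) .k 2 (⟨0,[(10,0)]⟩,⟨0,[(34,0),(5,0)]⟩) .k (.r 0 ⟨0,[(5,0),(41,0)]⟩ ⟨0,
  [(24,0),(1,0),(26,0)]⟩)) (.Q [0,2,0,0,-2,0,-1,-1,2,0,-1,2] (.p true [0,0,0,0,1] [0,0,1,0,-1] (⟨0,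
  [(35,0)]⟩,⟨0,[(34,0)]⟩) .k 2 (⟨0,[(11,0)]⟩,⟨0,[(35,0),(5,0)]⟩) .k (.r 0 ⟨0,[(6,0),(41,0)]⟩ ⟨0,
  [(25,0),(1,0),(26,0)]⟩)) (.R ⟨0,false,false,false,[0,0,1,0,-1],[0,0,0,0,1],[1,1],(⟨0,[(12,0)]⟩,⟨0,
  [(36,0),(5,0)]⟩),(⟨0,[(36,0)]⟩,⟨0,[(35,0)]⟩),⟨0,[(9,0)]⟩,.k,.k,(.r (-1) ⟨9,[(10,5),(14,7),(1,1),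
  (2,4),(19,0),(3,1)]⟩ ⟨0,[(24,0),(32,0)]⟩),.k,.k,.k,⟨true,0,⟨0,[]⟩,⟨1,[(40,0),(0,0)]⟩⟩,⟨false,(-1),
  ⟨4,[(0,1),(3,2),(0,1),(4,1),(15,1),(7,0),(15,0)]⟩,⟨0,[(1,0),(55,0)]⟩⟩,⟨false,0,⟨4,[(7,2),(7,0),(8,
  0),(24,1)]⟩,⟨0,[(26,0),(1,0),(26,0)]⟩⟩,⟨true,(-2),⟨0,[(0,0)]⟩,⟨0,[(3,0),(18,0),(30,0)]⟩⟩,⟨false,0,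
  ⟨0,[]⟩,⟨0,[]⟩⟩,⟨false,0,⟨0,[]⟩,⟨0,[]⟩⟩,[.e ⟨false,0,⟨4,[(0,0),(1,1),(35,0),(10,0)]⟩,⟨13,[(3,4),
  (30,9),(15,0),(4,1)]⟩⟩ ⟨false,(-1),⟨20,[(0,6),(3,12),(0,5),(24,0),(3,8),(3,6),(11,3),(3,3)]⟩,⟨0,
  [(1,0)]⟩⟩,.o ⟨false,0,⟨4,[(0,1),(25,1),(7,0),(15,0),(4,1)]⟩,⟨0,[(33,0)]⟩⟩,.e ⟨false,0,⟨0,[]⟩,⟨13,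
  [(3,4),(30,9),(15,0),(4,1)]⟩⟩ ⟨false,(-1),⟨4,[(0,1),(4,4),(20,1),(7,0),(15,0),(4,1)]⟩,⟨0,[(1,
  0)]⟩⟩,.a ⟨true,1,⟨0,[(33,0),(6,0)]⟩,⟨0,[(4,0)]⟩⟩ ⟨true,0,⟨4,[(0,0),(1,1),(35,0),(10,0)]⟩,⟨1,[(40,
  0),(0,0)]⟩⟩ ⟨false,(-1),⟨4,[(0,1),(3,2),(0,1),(4,1),(15,1),(7,0),(15,0)]⟩,⟨1,[(1,1),(38,0),(0,
  0)]⟩⟩]⟩) (.R ⟨0,false,false,true,[0,0,1,0,-1],[1,0,0,0,-1],[1],(⟨0,[(12,0)]⟩,⟨0,[(36,0),(5,0)]⟩),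
  (⟨0,[(35,0)]⟩,⟨0,[(36,0)]⟩),⟨0,[(9,0)]⟩,.k,.k,(.r (-1) ⟨9,[(10,5),(14,7),(1,1),(2,4),(19,0),(3,
  1)]⟩ ⟨0,[(24,0),(32,0)]⟩),.k,.k,.k,⟨true,0,⟨0,[]⟩,⟨1,[(40,0),(0,0)]⟩⟩,⟨false,0,⟨0,[(37,0)]⟩,⟨46,
  [(1,8),(18,16),(13,17),(5,20),(8,3),(0,5),(6,0)]⟩⟩,⟨true,0,⟨4,[(7,2),(7,0),(8,0),(24,1)]⟩,⟨0,[(26,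
  0),(1,0)]⟩⟩,⟨false,0,⟨0,[(29,0)]⟩,⟨4,[(26,3),(11,0),(11,0),(4,2)]⟩⟩,⟨false,0,⟨0,[]⟩,⟨0,[]⟩⟩,
  ⟨false,0,⟨0,[]⟩,⟨0,[]⟩⟩,[.o ⟨false,1,⟨0,[(33,0)]⟩,⟨4,[(13,3),(20,0),(15,0),(4,1)]⟩⟩,.a ⟨true,1,⟨0,
  [(21,0)]⟩,⟨0,[(13,0)]⟩⟩ ⟨false,1,⟨1,[(54,0),(0,0)]⟩,⟨0,[(57,0)]⟩⟩ ⟨true,0,⟨1,[(0,0),(3,0),(0,0),
  (1,0),(20,0)]⟩,⟨0,[(22,0),(1,0)]⟩⟩,.a ⟨true,1,⟨5,[(1,2),(13,0),(8,0),(13,1),(1,0)]⟩,⟨0,[(5,0)]⟩⟩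
  ⟨true,0,⟨0,[]⟩,⟨0,[(57,0)]⟩⟩ ⟨false,0,⟨1,[(0,0),(3,0),(0,0),(1,0),(20,0)]⟩,⟨46,[(1,8),(18,16),(13,
  17),(5,20),(8,3),(0,5),(6,0)]⟩⟩,.a ⟨true,1,⟨0,[(33,0),(6,0)]⟩,⟨0,[(4,0)]⟩⟩ ⟨false,1,⟨1,[(54,0),(0,
  0)]⟩,⟨1,[(40,0),(0,0)]⟩⟩ ⟨true,0,⟨0,[(37,0)]⟩,⟨0,[(22,0),(1,0)]⟩⟩]⟩)) (.R ⟨0,false,false,true,[0,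
  0,1,0,-1],[1,0,0,0,-1],[0,0,0,0,0,0,0,1],(⟨0,[(11,0)]⟩,⟨0,[(35,0),(5,0)]⟩),(⟨0,[(34,0)]⟩,⟨0,[(35,
  0)]⟩),⟨0,[(8,0)]⟩,.k,.k,(.r (-1) ⟨9,[(9,5),(14,7),(1,1),(2,4),(19,0),(3,1)]⟩ ⟨0,[(23,0),(32,0)]⟩),
  .k,.k,.k,⟨true,0,⟨0,[(25,0),(1,0)]⟩,⟨0,[(22,0)]⟩⟩,⟨false,0,⟨0,[(36,0)]⟩,⟨7,[(16,0),(2,4),(12,0),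
  (2,0),(3,2),(6,1),(2,0)]⟩⟩,⟨true,0,⟨0,[(56,0)]⟩,⟨0,[]⟩⟩,⟨false,0,⟨0,[(28,0)]⟩,⟨4,[(25,3),(11,0),
  (11,0),(4,2)]⟩⟩,⟨false,0,⟨0,[]⟩,⟨0,[]⟩⟩,⟨false,0,⟨0,[]⟩,⟨0,[]⟩⟩,[.o ⟨false,1,⟨0,[(32,0)]⟩,⟨5,[(0,
  1),(18,0),(13,1),(5,0),(9,0),(4,0)]⟩⟩,.a ⟨true,1,⟨0,[(20,0)]⟩,⟨0,[(12,0)]⟩⟩ ⟨false,1,⟨9,[(9,5),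
  (15,7),(3,4),(7,1),(11,0),(3,1)]⟩,⟨4,[(6,2),(7,0),(8,0),(24,1)]⟩⟩ ⟨true,0,⟨0,[(0,0),(1,0)]⟩,⟨0,
  [(21,0),(1,0)]⟩⟩,.a ⟨true,1,⟨1,[(1,0),(30,0),(6,1)]⟩,⟨0,[(4,0)]⟩⟩ ⟨true,0,⟨0,[(25,0),(1,0)]⟩,⟨4,
  [(6,2),(7,0),(8,0),(24,1)]⟩⟩ ⟨false,0,⟨0,[(0,0),(1,0)]⟩,⟨7,[(16,0),(2,4),(12,0),(2,0),(3,2),(6,1),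
  (2,0)]⟩⟩,.a ⟨true,1,⟨0,[(32,0),(6,0)]⟩,⟨0,[(3,0)]⟩⟩ ⟨false,1,⟨9,[(9,5),(15,7),(3,4),(7,1),(11,0),
  (3,1)]⟩,⟨0,[(22,0)]⟩⟩ ⟨true,0,⟨0,[(36,0)]⟩,⟨0,[(21,0),(1,0)]⟩⟩]⟩)))) (.R ⟨0,false,false,false,[0,
  0,1,0,-1],[0,0,1],[1,0,1],(⟨0,[(8,0)]⟩,⟨0,[(32,0),(5,0)]⟩),(⟨0,[(39,0)]⟩,⟨0,[(38,0)]⟩),⟨0,[(5,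
  0)]⟩,.k,.k,(.r (-1) ⟨9,[(6,5),(14,7),(1,1),(2,4),(19,0),(3,1)]⟩ ⟨0,[(20,0),(32,0)]⟩),.k,.k,.k,
  ⟨true,0,⟨0,[(19,0)]⟩,⟨0,[(22,0),(1,0)]⟩⟩,⟨false,0,⟨2,[(6,0),(2,1),(20,0),(19,0)]⟩,⟨0,[(29,0)]⟩⟩,
  ⟨false,0,⟨0,[(19,0)]⟩,⟨9,[(6,5),(15,7),(3,4),(7,1),(11,0),(3,1)]⟩⟩,⟨true,(-1),⟨0,[(9,0)]⟩,⟨0,[(29,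
  0)]⟩⟩,⟨false,0,⟨0,[]⟩,⟨0,[]⟩⟩,⟨false,0,⟨0,[]⟩,⟨0,[]⟩⟩,[.e ⟨false,0,⟨0,[]⟩,⟨32,[(10,9),(19,19),(14,
  4),(0,1),(3,8)]⟩⟩ ⟨false,0,⟨4,[(1,4),(4,0),(15,2),(11,1),(11,0),(3,1)]⟩,⟨2,[(0,0),(2,0),(6,0),(0,
  0),(8,0),(3,0)]⟩⟩,.o ⟨false,1,⟨4,[(22,3),(11,0),(11,0),(4,2)]⟩,⟨0,[(35,0)]⟩⟩,.a ⟨true,1,⟨8,[(0,2),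
  (9,2),(0,1),(10,0),(11,0),(1,3),(12,1)]⟩,⟨0,[(1,0)]⟩⟩ ⟨true,0,⟨1,[(36,0),(0,0)]⟩,⟨2,[(14,0),(30,
  0),(3,1)]⟩⟩ ⟨false,0,⟨15,[(1,13),(20,15),(3,0),(3,1),(15,2),(4,7)]⟩,⟨2,[(0,0),(2,0),(6,0),(0,0),
  (8,0),(3,0)]⟩⟩,.o ⟨false,1,⟨0,[(0,0)]⟩,⟨15,[(1,13),(24,0),(3,1),(15,2),(3,7)]⟩⟩]⟩)) (.R ⟨0,false,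
  false,false,[0,0,1,0,-1],[0,0,1],[0,0,1],(⟨0,[(7,0)]⟩,⟨0,[(31,0),(5,0)]⟩),(⟨0,[(38,0)]⟩,⟨0,[(37,
  0)]⟩),⟨0,[(4,0)]⟩,.k,.k,(.r (-1) ⟨9,[(5,5),(14,7),(1,1),(2,4),(19,0),(3,1)]⟩ ⟨0,[(19,0),(32,0)]⟩),
  .k,.k,.k,⟨true,0,⟨0,[(2,0)]⟩,⟨0,[(21,0),(1,0)]⟩⟩,⟨false,0,⟨2,[(5,0),(2,1),(20,0),(19,0)]⟩,⟨0,[(28,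
  0)]⟩⟩,⟨false,0,⟨0,[(2,0)]⟩,⟨9,[(5,5),(15,7),(3,4),(7,1),(11,0),(3,1)]⟩⟩,⟨true,(-1),⟨0,[(8,0)]⟩,⟨0,
  [(28,0)]⟩⟩,⟨false,0,⟨0,[]⟩,⟨0,[]⟩⟩,⟨false,0,⟨0,[]⟩,⟨0,[]⟩⟩,[.a ⟨true,0,⟨0,[(21,0)]⟩,⟨0,[(24,0)]⟩⟩
  ⟨true,0,⟨1,[(35,0),(0,0)]⟩,⟨0,[]⟩⟩ ⟨false,0,⟨5,[(5,1),(2,3),(12,5),(3,0),(3,1),(2,3),(12,0)]⟩,⟨5,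
  [(0,1),(1,2),(6,1),(0,0),(8,0),(3,0),(10,0)]⟩⟩,.o ⟨false,1,⟨4,[(21,3),(11,0),(11,0),(4,2)]⟩,⟨0,
  [(34,0)]⟩⟩,.o ⟨false,1,⟨0,[(0,0)]⟩,⟨9,[(8,3),(16,4),(3,5),(15,0),(4,1)]⟩⟩,.o ⟨false,1,⟨1,[(0,1),
  (34,0),(0,0)]⟩,⟨5,[(5,1),(2,3),(16,0),(3,1),(2,3),(12,0)]⟩⟩]⟩))))))) (.R ⟨1,false,false,true,[0,0,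
  1],[0,0,1,0,-1],[1,0,1],(⟨0,[(32,0)]⟩,⟨0,[(31,0)]⟩),(⟨0,[(1,0)]⟩,⟨0,[(25,0),(5,0)]⟩),⟨0,[(21,0)]⟩,
  .k,.k,.k,.k,(.r 0 ⟨0,[(40,0)]⟩ ⟨29,[(0,21),(4,9),(0,14),(14,9),(1,6),(1,14),(13,1),(2,7),(1,3)]⟩),
  .k,⟨true,0,⟨0,[(12,0)]⟩,⟨0,[(15,0),(1,0)]⟩⟩,⟨false,1,⟨4,[(0,3),(6,1),(14,0),(15,0)]⟩,⟨0,[(23,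
  0)]⟩⟩,⟨true,0,⟨0,[(12,0)]⟩,⟨0,[(11,0),(14,0),(15,0)]⟩⟩,⟨true,1,⟨0,[(22,0)]⟩,⟨0,[(2,0)]⟩⟩,⟨true,0,
  ⟨0,[(13,0)]⟩,⟨0,[(11,0),(14,0)]⟩⟩,⟨false,1,⟨0,[(0,0)]⟩,⟨2,[(2,0),(4,0),(4,0),(1,0),(8,1),(6,0),
  (13,0)]⟩⟩,[.o ⟨false,1,⟨0,[(0,0),(10,0)]⟩,⟨4,[(2,3),(15,4),(4,0),(15,0),(4,1)]⟩⟩,.a ⟨true,1,⟨0,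
  [(0,0),(13,0)]⟩,⟨0,[(2,0),(15,0)]⟩⟩ ⟨false,1,⟨45,[(3,9),(2,4),(16,14),(1,4),(10,9),(2,3),(4,17)]⟩,
  ⟨2,[(7,0),(30,0),(3,1)]⟩⟩ ⟨true,1,⟨0,[(0,0),(13,0),(2,0)]⟩,⟨0,[(2,0),(9,0)]⟩⟩,.o ⟨false,1,⟨7,[(6,
  0),(2,4),(12,0),(2,0),(3,2),(6,1),(2,0)]⟩,⟨0,[(17,0)]⟩⟩,.e ⟨true,0,⟨0,[]⟩,⟨0,[(46,0)]⟩⟩ ⟨true,1,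
  ⟨0,[(0,0),(10,0),(14,0)]⟩,⟨0,[(2,0),(9,0)]⟩⟩]⟩))

theorem ok18 : chk K t18 l20 = true := by decide +kernel

noncomputable def t19 : Tre :=
  (.Q [0,0,-1,0,0,0,-1,0,1,-1,-1,1] (.p true [0,0,-1,0,1] [1] (⟨0,[(0,0)]⟩,⟨0,[(23,0),(7,0)]⟩) .k 1
  (⟨0,[]⟩,⟨0,[]⟩) .k (.r 0 ⟨2,[(7,0),(3,0),(0,0),(24,0)]⟩ ⟨9,[(14,3),(3,4),(7,5),(11,0),(4,7)]⟩))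
  (.I [0,2,1,1,-1] (.Q [0,0,0,0,1,0,1,0,-1,0,1,-1] (.p false [0,0,-1,0,1] [] (⟨0,[(2,0)]⟩,⟨0,[(25,
  0),(7,0)]⟩) .k 0 (⟨0,[]⟩,⟨0,[]⟩) .k (.r 0 ⟨2,[(9,0),(3,0),(0,0),(24,0)]⟩ ⟨9,[(16,3),(3,4),(7,5),
  (11,0),(4,7)]⟩)) (.R ⟨1,false,false,false,[1,0,1,0,-1],[1,0,0,0,-1],[0,0,0,0,0,0,0,1],(⟨0,[(26,0),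
  (7,0)]⟩,⟨0,[(3,0)]⟩),(⟨0,[(26,0)]⟩,⟨0,[(27,0)]⟩),⟨0,[(23,0),(2,0)]⟩,.k,.k,(.r (-1) ⟨7,[(2,3),(2,
  1),(10,7),(4,1),(23,0),(0,2)]⟩ ⟨0,[(15,0),(32,0)]⟩),.k,.k,.k,⟨false,0,⟨4,[(1,1),(7,0),(7,4),(10,
  4),(12,0)]⟩,⟨1,[(11,0),(2,0),(5,0),(25,0)]⟩⟩,⟨true,0,⟨0,[(19,0)]⟩,⟨0,[(31,0)]⟩⟩,⟨true,0,⟨0,[(48,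
  0)]⟩,⟨0,[]⟩⟩,⟨false,1,⟨33,[(5,1),(8,1),(5,31),(0,0),(3,3),(15,6),(4,15)]⟩,⟨0,[(17,0)]⟩⟩,⟨false,0,
  ⟨0,[(44,0)]⟩,⟨0,[(43,0),(2,0)]⟩⟩,⟨false,1,⟨7,[(2,3),(2,1),(9,7),(5,1),(23,0),(0,2)]⟩,⟨0,[(16,
  0)]⟩⟩,[.a ⟨true,1,⟨0,[(12,0)]⟩,⟨0,[(4,0)]⟩⟩ ⟨true,0,⟨0,[(17,0),(1,0)]⟩,⟨0,[(14,0)]⟩⟩ ⟨false,1,⟨7,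
  [(2,3),(2,1),(15,1),(23,0),(0,2)]⟩,⟨2,[(6,0),(8,0),(13,1),(1,0)]⟩⟩,.o ⟨false,2,⟨18,[(5,1),(2,0),
  (3,15),(14,0),(10,1),(2,3),(4,9)]⟩,⟨4,[(1,1),(2,4),(4,0),(31,0)]⟩⟩,.o ⟨false,1,⟨0,[(0,0)]⟩,⟨9,[(2,
  4),(1,3),(20,0),(6,4),(8,0),(4,1)]⟩⟩,.o ⟨false,1,⟨0,[(24,0),(6,0)]⟩,⟨0,[(2,0)]⟩⟩]⟩) (.S ⟨1,0,[0,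
  1],[0,0,0,0,1],[0,2],(⟨0,[(27,0)]⟩,⟨0,[(26,0)]⟩),⟨0,[(3,0),(19,0)]⟩,.k,(.r 0 ⟨0,[(42,0)]⟩ ⟨10,[(5,
  0),(2,1),(6,3),(11,1),(1,3),(2,3),(5,3),(2,0),(2,6),(1,6)]⟩),⟨true,0,⟨0,[(48,0)]⟩,⟨0,[]⟩⟩,⟨false,
  1,⟨45,[(5,9),(2,4),(16,14),(1,4),(10,9),(2,3),(4,17)]⟩,⟨0,[]⟩⟩,⟨false,0,⟨0,[(44,0)]⟩,⟨0,[(43,0),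
  (2,0)]⟩⟩,⟨true,0,⟨0,[(44,0)]⟩,⟨0,[(43,0)]⟩⟩,[.e ⟨false,0,⟨0,[(40,0)]⟩,⟨0,[(46,0)]⟩⟩ ⟨false,0,⟨2,
  [(1,0),(7,0),(34,0),(0,0)]⟩,⟨45,[(5,9),(2,4),(16,14),(1,4),(10,9),(2,3),(4,17)]⟩⟩,.o ⟨false,0,⟨4,
  [(4,3),(20,0),(15,0),(4,1)]⟩,⟨0,[(24,0)]⟩⟩,.o ⟨false,0,⟨4,[(4,3),(20,0),(15,0),(4,1)]⟩,⟨0,[(24,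
  0)]⟩⟩,.a ⟨true,(-1),⟨0,[(0,0),(30,0)]⟩,⟨4,[(5,1),(0,0),(5,0),(2,0),(12,1),(0,1)]⟩⟩ ⟨false,0,⟨2,
  [(1,0),(7,0),(34,0),(0,0)]⟩,⟨1,[(31,0),(0,0),(13,1)]⟩⟩ ⟨true,0,⟨2,[(1,0),(7,0),(34,0),(0,0)]⟩,⟨1,
  [(31,0),(0,0)]⟩⟩]⟩)) (.Q [0,0,1,0,-1,0,0,0,1,0,0,1] (.p true [0,0,0,0,1] [] (⟨0,[(26,0)]⟩,⟨0,[(25,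
  0)]⟩) .k 0 (⟨0,[]⟩,⟨0,[]⟩) .k .k) (.S ⟨1,0,[0,1],[0,0,0,0,1],[0,2],(⟨0,[(27,0)]⟩,⟨0,[(26,0)]⟩),⟨0,
  [(3,0),(19,0)]⟩,.k,(.r 0 ⟨0,[(42,0)]⟩ ⟨10,[(5,0),(2,1),(6,3),(11,1),(1,3),(2,3),(5,3),(2,0),(2,6),
  (1,6)]⟩),⟨true,0,⟨0,[(48,0)]⟩,⟨0,[]⟩⟩,⟨false,1,⟨45,[(5,9),(2,4),(16,14),(1,4),(10,9),(2,3),(4,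
  17)]⟩,⟨0,[]⟩⟩,⟨false,0,⟨0,[(44,0)]⟩,⟨0,[(43,0),(2,0)]⟩⟩,⟨true,0,⟨0,[(44,0)]⟩,⟨0,[(43,0)]⟩⟩,[.e
  ⟨false,0,⟨0,[(40,0)]⟩,⟨0,[(46,0)]⟩⟩ ⟨false,0,⟨2,[(9,0),(30,0),(3,1)]⟩,⟨45,[(5,9),(2,4),(16,14),(1,
  4),(10,9),(2,3),(4,17)]⟩⟩,.o ⟨false,0,⟨46,[(0,21),(1,10),(8,10),(13,13),(15,4),(4,0),(1,1)]⟩,⟨0,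
  [(24,0)]⟩⟩,.o ⟨false,0,⟨46,[(0,21),(1,10),(8,10),(13,13),(15,4),(4,0),(1,1)]⟩,⟨0,[(24,0)]⟩⟩,.a
  ⟨true,(-1),⟨0,[(0,0)]⟩,⟨4,[(5,1),(0,0),(5,0),(2,0),(12,1),(0,1)]⟩⟩ ⟨false,0,⟨2,[(9,0),(30,0),(3,
  1)]⟩,⟨1,[(31,0),(0,0),(13,1)]⟩⟩ ⟨true,0,⟨2,[(9,0),(30,0),(3,1)]⟩,⟨1,[(31,0),(0,0)]⟩⟩]⟩) (.R ⟨1,
  false,false,false,[1,0,1,0,-1],[1,0,0,0,-1],[0,0,0,0,0,0,0,1],(⟨0,[(26,0),(7,0)]⟩,⟨0,[(3,0)]⟩),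
  (⟨0,[(26,0)]⟩,⟨0,[(27,0)]⟩),⟨0,[(23,0),(2,0)]⟩,.k,.k,(.r (-1) ⟨9,[(1,5),(14,3),(0,3),(3,4),(7,1),
  (11,0),(3,1)]⟩ ⟨0,[(15,0),(32,0)]⟩),.k,.k,.k,⟨false,0,⟨0,[(13,0),(14,0),(15,0)]⟩,⟨1,[(11,0),(2,0),
  (5,0),(25,0)]⟩⟩,⟨true,0,⟨0,[(19,0)]⟩,⟨0,[(31,0)]⟩⟩,⟨true,0,⟨0,[(48,0)]⟩,⟨0,[]⟩⟩,⟨false,1,⟨33,[(5,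
  1),(8,1),(5,31),(0,0),(3,3),(15,6),(4,15)]⟩,⟨0,[(17,0)]⟩⟩,⟨false,0,⟨0,[(44,0)]⟩,⟨0,[(43,0),(2,
  0)]⟩⟩,⟨false,1,⟨7,[(2,3),(2,1),(9,7),(5,1),(23,0),(0,2)]⟩,⟨0,[(16,0)]⟩⟩,[.a ⟨true,1,⟨0,[(12,0)]⟩,
  ⟨0,[(4,0)]⟩⟩ ⟨true,0,⟨0,[(17,0),(1,0)]⟩,⟨0,[(14,0)]⟩⟩ ⟨false,1,⟨7,[(2,3),(2,1),(15,1),(23,0),(0,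
  2)]⟩,⟨2,[(6,0),(8,0),(13,1),(1,0)]⟩⟩,.e ⟨false,1,⟨7,[(2,3),(2,1),(11,7),(3,1),(23,0),(0,2)]⟩,⟨2,
  [(10,0),(3,0),(0,0),(24,0)]⟩⟩ ⟨false,1,⟨0,[(1,0),(17,0),(24,0)]⟩,⟨0,[(31,0),(8,0)]⟩⟩,.o ⟨false,1,
  ⟨0,[(0,0),(30,0)]⟩,⟨9,[(2,4),(1,3),(20,0),(6,4),(8,0),(4,1)]⟩⟩,.o ⟨false,1,⟨0,[(24,0),(6,0)]⟩,⟨0,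
  [(2,0)]⟩⟩]⟩))) (.K ⟨0,[1,0,0,0,-1],0,1,(⟨0,[(24,0)]⟩,⟨0,[(25,0)]⟩),.k,(.r (-1) ⟨5,[(7,1),(33,1),
  (1,0),(0,4)]⟩ ⟨4,[(13,2),(13,2),(2,2),(7,0),(3,1)]⟩),(.r (-1) ⟨10,[(3,0),(2,1),(6,3),(11,1),(1,3),
  (2,3),(5,3),(2,0),(2,6),(1,6)]⟩ ⟨0,[(40,0)]⟩),.k,.k,[⟨2,[(0,1),(1,4),(1,0),(10,0),(23,0),(2,0),(1,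
  2)]⟩,⟨0,[(0,0),(16,0)]⟩,⟨3,[(0,1),(1,5),(1,0),(6,0),(5,2),(21,0),(2,1)]⟩,⟨12,[(0,1),(2,5),(2,1),
  (12,0),(2,0),(2,1),(10,3),(9,5)]⟩]⟩))

theorem ok19 : chk K t19 r20 = true := by decide +kernel

noncomputable def t25 : Tre :=
  (.I [1,1,-2,-1,0,0,0,-1] (.Q [0,1,0,0,0,0,0,0,1,-1,0,1] (.p true [0,0,0,0,1] [1] (⟨0,[(20,0)]⟩,⟨0,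
  [(19,0)]⟩) .k 1 (⟨0,[]⟩,⟨0,[]⟩) .k .k) (.Q [0,0,0,0,0,-1,0,0,0,-1,1,1] (.p true [0,0,1] [1,0,0,0,
  -1] (⟨0,[(28,0)]⟩,⟨0,[(27,0)]⟩) .k 2 (⟨0,[(20,0)]⟩,⟨0,[(21,0)]⟩) .k (.r 0 ⟨1,[(7,0),(7,0),(7,0),
  (14,0)]⟩ ⟨1,[(5,0),(2,0),(5,0),(25,0)]⟩)) (.R ⟨1,false,false,false,[-1,0,1,0,1],[0,0,0,0,1],[0,1,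
  0,0,0,0,0,1],(⟨0,[(0,0),(30,0)]⟩,⟨0,[(21,0),(6,0)]⟩),(⟨0,[(22,0)]⟩,⟨0,[(21,0)]⟩),⟨0,[(0,0)]⟩,.k,
  .k,(.r 0 ⟨0,[(8,0),(14,0)]⟩ ⟨1,[(1,0),(5,0),(2,1),(30,0)]⟩),.k,.k,.k,⟨true,0,⟨0,[(12,0),(1,0)]⟩,
  ⟨0,[(9,0)]⟩⟩,⟨false,0,⟨0,[(23,0)]⟩,⟨13,[(1,3),(4,6),(0,1),(11,1),(6,6),(9,0),(4,0)]⟩⟩,⟨false,1,⟨1,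
  [(1,0),(5,0),(33,0)]⟩,⟨0,[]⟩⟩,⟨true,0,⟨0,[(15,0)]⟩,⟨0,[(8,0),(30,0)]⟩⟩,⟨true,0,⟨0,[(39,0)]⟩,⟨0,
  [(38,0)]⟩⟩,⟨true,0,⟨0,[(10,0),(12,0)]⟩,⟨0,[(8,0)]⟩⟩,[.o ⟨false,0,⟨0,[(1,0)]⟩,⟨4,[(3,3),(3,0),(13,
  3),(4,3),(0,3),(3,7),(4,0),(4,1)]⟩⟩,.a ⟨true,0,⟨0,[(20,0)]⟩,⟨0,[(3,0),(17,0),(4,0),(0,0),(3,1)]⟩⟩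
  ⟨true,0,⟨0,[(12,0),(1,0)]⟩,⟨0,[(9,0)]⟩⟩ ⟨false,0,⟨0,[(23,0)]⟩,⟨13,[(1,3),(4,6),(0,1),(11,1),(6,6),
  (9,0),(4,0)]⟩⟩,.o ⟨false,1,⟨7,[(2,1),(3,0),(5,1),(7,7),(5,4),(9,2),(2,1),(1,0)]⟩,⟨1,[(3,1),(17,1),
  (4,0),(0,2),(3,3)]⟩⟩,.o ⟨false,1,⟨9,[(1,10),(5,0),(18,9),(9,1),(4,4)]⟩,⟨0,[(3,0),(17,0),(5,0),(3,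
  1)]⟩⟩]⟩) (.Q [0,0,0,0,0,0,0,0,0,-1,1,1] (.ed false [0,0,1,0,1] (.r 0 ⟨1,[(8,0),(7,0),(7,0),(14,
  0)]⟩ ⟨1,[(6,0),(2,0),(5,0),(25,0)]⟩)) (.R ⟨0,false,false,false,[-1,0,1,0,1],[0,0,0,0,1],[0,1,0,0,
  0,0,0,1],(⟨0,[(0,0)]⟩,⟨0,[(22,0),(6,0)]⟩),(⟨0,[(23,0)]⟩,⟨0,[(22,0)]⟩),⟨0,[(1,0)]⟩,.k,.k,(.r 0 ⟨0,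
  [(9,0),(14,0)]⟩ ⟨1,[(2,0),(5,0),(2,1),(30,0)]⟩),.k,.k,.k,⟨true,0,⟨0,[(13,0),(1,0)]⟩,⟨0,[(10,0)]⟩⟩,
  ⟨false,0,⟨0,[(24,0)]⟩,⟨13,[(2,3),(4,6),(0,1),(11,1),(6,6),(9,0),(4,0)]⟩⟩,⟨false,1,⟨1,[(2,0),(5,0),
  (33,0)]⟩,⟨0,[]⟩⟩,⟨true,0,⟨0,[(16,0)]⟩,⟨0,[(9,0),(30,0)]⟩⟩,⟨false,0,⟨0,[]⟩,⟨0,[]⟩⟩,⟨false,0,⟨0,[]⟩,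
  ⟨0,[]⟩⟩,[.o ⟨false,0,⟨0,[(2,0)]⟩,⟨4,[(4,3),(3,0),(13,3),(4,3),(0,3),(3,7),(4,0),(4,1)]⟩⟩,.a ⟨true,
  0,⟨0,[(21,0)]⟩,⟨0,[(4,0),(17,0),(4,0),(0,0),(3,1)]⟩⟩ ⟨true,0,⟨0,[(13,0),(1,0)]⟩,⟨0,[(10,0)]⟩⟩
  ⟨false,0,⟨0,[(24,0)]⟩,⟨13,[(2,3),(4,6),(0,1),(11,1),(6,6),(9,0),(4,0)]⟩⟩,.o ⟨false,1,⟨7,[(3,1),(3,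
  0),(5,1),(7,7),(5,4),(9,2),(2,1),(1,0)]⟩,⟨1,[(4,1),(17,1),(4,0),(0,2),(3,3)]⟩⟩,.o ⟨false,1,⟨9,[(2,
  10),(5,0),(18,9),(9,1),(4,4)]⟩,⟨0,[(4,0),(17,0),(5,0),(3,1)]⟩⟩]⟩) (.Q [0,-2,0,0,1,0,1,0,0,0,1]
  (.p true [0,0,1] [] (⟨0,[(30,0)]⟩,⟨0,[(29,0)]⟩) .k 0 (⟨0,[]⟩,⟨0,[]⟩) .k .k) (.R ⟨1,false,false,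
  true,[0,0,1,0,1],[0,0,0,0,1],[0,1,0,0,0,0,0,1],(⟨0,[(24,0),(6,0)]⟩,⟨0,[(1,0)]⟩),(⟨0,[(24,0)]⟩,⟨0,
  [(23,0)]⟩),⟨0,[(20,0),(3,0)]⟩,.k,.k,(.r 0 ⟨0,[(10,0),(14,0)]⟩ ⟨1,[(3,0),(5,0),(2,1),(30,0)]⟩),.k,
  .k,.k,⟨false,1,⟨5,[(14,5),(3,0),(6,3),(12,0),(3,0),(0,2)]⟩,⟨2,[(7,0),(3,0),(0,0),(24,0)]⟩⟩,⟨true,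
  0,⟨0,[(16,0)]⟩,⟨0,[(28,0)]⟩⟩,⟨false,1,⟨1,[(3,0),(5,0),(33,0)]⟩,⟨0,[]⟩⟩,⟨true,0,⟨0,[(27,0)]⟩,⟨0,
  [(14,0)]⟩⟩,⟨true,0,⟨0,[(41,0)]⟩,⟨0,[(40,0)]⟩⟩,⟨true,0,⟨0,[(27,0),(13,0)]⟩,⟨0,[(13,0)]⟩⟩,[.e
  ⟨false,0,⟨0,[(10,0),(14,0),(15,0)]⟩,⟨20,[(0,10),(2,0),(4,4),(2,4),(5,15),(3,0),(16,1)]⟩⟩ ⟨false,0,
  ⟨0,[(16,0),(20,0)]⟩,⟨0,[(0,0)]⟩⟩,.o ⟨false,0,⟨0,[(3,0)]⟩,⟨4,[(0,1),(4,3),(3,0),(13,3),(4,2),(0,4),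
  (3,7),(4,0)]⟩⟩,.e ⟨false,0,⟨0,[(14,0),(1,0)]⟩,⟨20,[(0,10),(2,0),(4,4),(2,4),(5,15),(3,0),(16,
  1)]⟩⟩ ⟨false,0,⟨1,[(16,0),(12,0),(7,0)]⟩,⟨0,[(0,0)]⟩⟩,.a ⟨true,0,⟨0,[(22,0),(5,0)]⟩,⟨0,[(5,0),(17,
  0),(5,0),(3,1)]⟩⟩ ⟨true,0,⟨0,[(10,0),(14,0),(15,0)]⟩,⟨0,[(11,0)]⟩⟩ ⟨false,0,⟨2,[(6,0),(9,2),(20,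
  0),(3,1)]⟩,⟨1,[(0,1),(27,0),(0,0)]⟩⟩]⟩) (.Q [0,-2,0,0,1,0,0,0,-1,0,0,-1] (.p false [0,0,0,0,1] []
  (⟨0,[(24,0)]⟩,⟨0,[(23,0)]⟩) .k 0 (⟨0,[]⟩,⟨0,[]⟩) .k .k) (.R ⟨1,false,false,false,[0,0,1],[1,0,0,0,
  -1],[0,1,0,0,0,0,0,1],(⟨0,[(32,0)]⟩,⟨0,[(31,0)]⟩),(⟨0,[(24,0)]⟩,⟨0,[(25,0)]⟩),⟨0,[(21,0)]⟩,.k,.k,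
  .k,.k,(.r 0 ⟨0,[(11,0),(14,0)]⟩ ⟨1,[(4,0),(5,0),(2,1),(30,0)]⟩),.k,⟨true,(-1),⟨0,[(1,0),(13,0)]⟩,
  ⟨0,[(12,0),(31,0)]⟩⟩,⟨false,0,⟨2,[(0,1),(0,1),(4,0),(17,0),(1,1),(2,0),(4,1)]⟩,⟨3,[(4,2),(4,1),(0,
  0),(12,1),(5,1),(14,0)]⟩⟩,⟨true,0,⟨0,[(46,0)]⟩,⟨0,[]⟩⟩,⟨false,1,⟨0,[(0,0),(17,0)]⟩,⟨0,[(4,0),(10,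
  0)]⟩⟩,⟨false,0,⟨0,[(42,0)]⟩,⟨0,[(41,0),(2,0)]⟩⟩,⟨false,1,⟨0,[(0,0),(12,0),(12,0)]⟩,⟨0,[(4,0),(9,
  0)]⟩⟩,[.o ⟨false,1,⟨1,[(0,0),(21,0)]⟩,⟨0,[(4,0)]⟩⟩,.o ⟨false,1,⟨0,[(0,0)]⟩,⟨0,[(4,0),(41,0)]⟩⟩,.o
  ⟨false,1,⟨13,[(4,3),(4,6),(0,1),(11,1),(6,6),(9,0),(4,0)]⟩,⟨0,[(17,0)]⟩⟩,.a ⟨true,0,⟨0,[(29,0)]⟩,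
  ⟨0,[(26,0)]⟩⟩ ⟨true,0,⟨8,[(1,3),(13,7),(10,4),(0,0),(11,0),(3,1)]⟩,⟨0,[(12,0)]⟩⟩ ⟨false,1,⟨0,[(0,
  0),(25,0)]⟩,⟨0,[(4,0),(24,0)]⟩⟩]⟩) (.Q [0,-2,0,0,1,0,1,1,-1,0,1,-1] (.p true [0,0,1] [0,0,0,0,1]
  (⟨0,[(32,0)]⟩,⟨0,[(31,0)]⟩) .k 2 (⟨0,[(25,0)]⟩,⟨0,[(24,0)]⟩) .k (.r (-1) ⟨9,[(15,3),(3,4),(7,5),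
  (11,0),(4,7)]⟩ ⟨2,[(8,0),(3,0),(0,0),(24,0)]⟩)) (.S ⟨1,0,[0,-1],[1,0,0,0,-1],[],(⟨0,[(25,0)]⟩,⟨0,
  [(26,0)]⟩),⟨0,[(3,0),(18,0)]⟩,.k,(.r (-1) ⟨5,[(8,1),(33,1),(1,0),(0,4)]⟩ ⟨19,[(2,1),(11,15),(5,4),
  (7,15),(2,3),(8,0),(2,3)]⟩),⟨true,0,⟨0,[(47,0)]⟩,⟨0,[]⟩⟩,⟨false,1,⟨1,[(5,0),(5,0),(33,0)]⟩,⟨0,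
  []⟩⟩,⟨false,0,⟨0,[(43,0)]⟩,⟨0,[(42,0),(2,0)]⟩⟩,⟨true,0,⟨0,[(43,0)]⟩,⟨0,[(42,0)]⟩⟩,[.o ⟨false,1,⟨0,
  [(0,0),(28,0)]⟩,⟨0,[(5,0)]⟩⟩,.a ⟨true,1,⟨0,[(0,0),(18,0)]⟩,⟨0,[(1,0)]⟩⟩ ⟨false,1,⟨1,[(44,0),(0,
  0)]⟩,⟨0,[(47,0)]⟩⟩ ⟨true,1,⟨0,[(45,0)]⟩,⟨0,[(2,0),(27,0)]⟩⟩,.e ⟨false,1,⟨1,[(5,0),(5,0),(33,0)]⟩,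
  ⟨0,[]⟩⟩ ⟨false,1,⟨0,[(45,0)]⟩,⟨0,[(47,0)]⟩⟩,.o ⟨false,0,⟨0,[(0,0),(1,0),(10,0)]⟩,⟨1,[(5,1),(38,0),
  (0,0)]⟩⟩]⟩) (.Q [0,-2,0,2,1,0,0,0,-1,0,0,-1] (.p false [0,0,0,0,1] [] (⟨0,[(26,0)]⟩,⟨0,[(25,0)]⟩)
  .k 0 (⟨0,[]⟩,⟨0,[]⟩) .k .k) (.R ⟨1,false,false,false,[1,0,-1],[1,0,0,0,-1],[0,1,1],(⟨0,[(33,0)]⟩,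
  ⟨0,[(34,0)]⟩),(⟨0,[(26,0)]⟩,⟨0,[(27,0)]⟩),⟨0,[(22,0)]⟩,.k,.k,.k,.k,(.r 0 ⟨3,[(1,4),(1,1),(0,4),(3,
  4),(5,2),(0,2),(0,6),(6,4),(12,14),(4,0),(4,4)]⟩ ⟨1,[(0,0),(24,0),(3,1),(2,1),(13,0)]⟩),.k,⟨true,
  (-1),⟨0,[(3,0),(27,0)]⟩,⟨0,[(46,0)]⟩⟩,⟨false,1,⟨2,[(0,1),(6,1),(10,1),(5,0),(6,0)]⟩,⟨0,[(19,0),(5,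
  0)]⟩⟩,⟨false,0,⟨0,[(17,0),(14,0)]⟩,⟨3,[(7,1),(7,1),(29,0),(0,2)]⟩⟩,⟨true,1,⟨1,[(0,0),(15,1),(7,
  0)]⟩,⟨0,[(1,0)]⟩⟩,⟨false,0,⟨0,[(17,0),(14,0),(11,0)]⟩,⟨0,[(10,0),(35,0)]⟩⟩,⟨false,1,⟨0,[(0,0),(15,
  0)]⟩,⟨0,[(1,0),(41,0),(2,0)]⟩⟩,[.o ⟨false,1,⟨3,[(0,2),(8,1),(4,1),(1,1),(7,0),(7,1)]⟩,⟨0,[(6,
  0)]⟩⟩,.a ⟨true,1,⟨1,[(0,0),(7,0),(5,1),(1,1),(4,0),(4,0),(9,1),(9,0)]⟩,⟨0,[(2,0)]⟩⟩ ⟨true,0,⟨1,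
  [(31,0),(0,0)]⟩,⟨0,[]⟩⟩ ⟨false,2,⟨25,[(0,9),(6,9),(3,10),(0,15),(3,9),(14,4),(9,0),(4,12)]⟩,⟨0,
  [(3,0),(21,0)]⟩⟩,.o ⟨false,0,⟨0,[(19,0)]⟩,⟨13,[(6,3),(4,6),(0,1),(11,1),(6,6),(9,0),(4,0)]⟩⟩,.o
  ⟨false,0,⟨0,[(32,0)]⟩,⟨0,[(11,0)]⟩⟩]⟩) (.Q [0,0,0,0,0,0,1,0,1,0,1,1] (.p true [0,0,1,0,1] [] (⟨0,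
  [(27,0),(6,0)]⟩,⟨0,[(4,0)]⟩) .k 0 (⟨0,[]⟩,⟨0,[]⟩) .k (.r 0 ⟨23,[(3,3),(13,8),(3,9),(7,14),(11,1),
  (6,0)]⟩ ⟨1,[(11,0),(2,0),(5,0),(25,0)]⟩)) (.R ⟨1,false,false,false,[0,0,1,0,1],[0,0,0,0,1],[0,2,0,
  0,0,0,0,1],(⟨0,[(28,0),(6,0)]⟩,⟨0,[(5,0)]⟩),(⟨0,[(28,0)]⟩,⟨0,[(27,0)]⟩),⟨0,[(24,0),(3,0)]⟩,.k,.k,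
  (.r 0 ⟨0,[(14,0),(14,0)]⟩ ⟨1,[(7,0),(5,0),(2,1),(30,0)]⟩),.k,.k,.k,⟨false,0,⟨8,[(4,3),(13,7),(10,
  4),(0,0),(11,0),(3,1)]⟩,⟨1,[(12,0),(2,0),(5,0),(25,0)]⟩⟩,⟨true,0,⟨0,[(20,0)]⟩,⟨0,[(32,0)]⟩⟩,⟨true,
  0,⟨0,[(49,0)]⟩,⟨0,[]⟩⟩,⟨false,1,⟨9,[(7,0),(5,0),(7,9),(20,1),(4,4)]⟩,⟨0,[(18,0)]⟩⟩,⟨false,0,⟨0,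
  [(45,0)]⟩,⟨0,[(44,0),(2,0)]⟩⟩,⟨false,1,⟨5,[(16,5),(5,0),(6,3),(12,0),(3,0),(0,2)]⟩,⟨0,[(17,0)]⟩⟩,
  [.o ⟨false,0,⟨0,[(7,0)]⟩,⟨4,[(9,3),(3,0),(13,3),(4,3),(0,3),(3,7),(4,0),(4,1)]⟩⟩,.a ⟨true,0,⟨0,
  [(26,0)]⟩,⟨0,[(9,0),(17,0),(4,0),(0,0),(3,1)]⟩⟩ ⟨false,0,⟨8,[(4,3),(13,7),(10,4),(0,0),(11,0),(3,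
  1)]⟩,⟨1,[(12,0),(2,0),(5,0),(25,0)]⟩⟩ ⟨true,0,⟨0,[(20,0)]⟩,⟨0,[(32,0)]⟩⟩,.a ⟨true,0,⟨0,[(0,0)]⟩,
  ⟨1,[(9,1),(17,1),(4,0),(0,2),(3,3)]⟩⟩ ⟨true,(-1),⟨0,[(4,0),(13,0)]⟩,⟨1,[(12,0),(2,0),(5,0),(25,
  0)]⟩⟩ ⟨false,0,⟨0,[(20,0)]⟩,⟨2,[(0,0),(11,0),(0,0),(18,0),(14,0)]⟩⟩,.a ⟨true,0,⟨1,[(0,1),(31,0),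
  (0,0)]⟩,⟨0,[(9,0),(17,0),(5,0),(3,1)]⟩⟩ ⟨false,0,⟨8,[(4,3),(13,7),(10,4),(0,0),(11,0),(3,1)]⟩,⟨0,
  [(15,0),(31,0)]⟩⟩ ⟨true,0,⟨11,[(4,5),(17,0),(6,3),(12,0),(3,3)]⟩,⟨0,[(32,0)]⟩⟩]⟩) (.S ⟨1,0,[0,-1],
  [1,0,0,0,-1],[],(⟨0,[(27,0)]⟩,⟨0,[(28,0)]⟩),⟨0,[(5,0),(18,0)]⟩,.k,(.r (-1) ⟨5,[(10,1),(33,1),(1,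
  0),(0,4)]⟩ ⟨19,[(4,1),(11,15),(5,4),(7,15),(2,3),(8,0),(2,3)]⟩),⟨true,0,⟨0,[(49,0)]⟩,⟨0,[]⟩⟩,
  ⟨false,1,⟨1,[(7,0),(5,0),(33,0)]⟩,⟨0,[]⟩⟩,⟨false,0,⟨0,[(45,0)]⟩,⟨0,[(44,0),(2,0)]⟩⟩,⟨true,0,⟨0,
  [(45,0)]⟩,⟨0,[(44,0)]⟩⟩,[.o ⟨false,1,⟨2,[(0,1),(11,0),(0,0),(18,0),(14,0)]⟩,⟨0,[(7,0)]⟩⟩,.a ⟨true,
  1,⟨2,[(0,1),(8,0),(17,0),(1,1),(2,3),(4,1),(9,2)]⟩,⟨0,[(3,0)]⟩⟩ ⟨false,1,⟨1,[(46,0),(0,0)]⟩,⟨0,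
  [(49,0)]⟩⟩ ⟨true,1,⟨0,[(47,0)]⟩,⟨0,[(4,0),(27,0)]⟩⟩,.e ⟨false,1,⟨1,[(7,0),(5,0),(33,0)]⟩,⟨0,[]⟩⟩
  ⟨false,1,⟨0,[(47,0)]⟩,⟨0,[(49,0)]⟩⟩,.o ⟨false,0,⟨0,[(0,0),(31,0)]⟩,⟨1,[(7,1),(38,0),(0,
  0)]⟩⟩]⟩)))))))) (.R ⟨1,false,false,false,[0,0,1],[0,0,0,0,1],[0,0,0,0,0,0,0,1],(⟨0,[(28,0)]⟩,⟨0,
  [(27,0)]⟩),(⟨0,[(21,0)]⟩,⟨0,[(20,0)]⟩),⟨0,[(17,0)]⟩,.k,.k,.k,.k,(.r (-1) ⟨5,[(10,5),(4,0),(6,3),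
  (12,0),(3,0),(0,2)]⟩ ⟨0,[(9,0),(32,0)]⟩),.k,⟨false,1,⟨5,[(11,5),(3,0),(6,3),(12,0),(3,0),(0,2)]⟩,
  ⟨2,[(4,0),(3,0),(0,0),(24,0)]⟩⟩,⟨true,0,⟨0,[(13,0),(5,0)]⟩,⟨0,[(0,0),(6,0),(1,0)]⟩⟩,⟨false,1,⟨8,
  [(6,4),(12,4),(15,0),(4,1)]⟩,⟨0,[]⟩⟩,⟨true,0,⟨0,[(19,0),(4,0)]⟩,⟨0,[(0,0),(6,0),(30,0)]⟩⟩,⟨true,0,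
  ⟨0,[(38,0)]⟩,⟨0,[(37,0)]⟩⟩,⟨true,0,⟨0,[(19,0),(4,0),(13,0)]⟩,⟨0,[(0,0),(6,0)]⟩⟩,[.a ⟨true,0,⟨0,
  [(19,0),(22,0)]⟩,⟨0,[(0,0)]⟩⟩ ⟨true,0,⟨0,[(11,0),(1,0)]⟩,⟨0,[(8,0)]⟩⟩ ⟨false,0,⟨2,[(3,0),(9,2),(5,
  2),(14,0),(3,1)]⟩,⟨13,[(0,9),(4,6),(0,1),(11,1),(6,6),(9,0),(4,0)]⟩⟩,.a ⟨true,0,⟨0,[(19,0)]⟩,⟨0,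
  [(0,0),(41,0)]⟩⟩ ⟨false,1,⟨5,[(11,5),(3,0),(6,3),(12,0),(3,0),(0,2)]⟩,⟨2,[(4,0),(3,0),(0,0),(24,
  0)]⟩⟩ ⟨true,0,⟨0,[(13,0),(5,0)]⟩,⟨0,[(0,0),(6,0),(1,0)]⟩⟩,.o ⟨false,1,⟨49,[(5,24),(12,13),(0,13),
  (5,24),(9,4),(4,0),(1,1)]⟩,⟨0,[(13,0)]⟩⟩,.a ⟨true,0,⟨0,[(25,0)]⟩,⟨0,[(22,0)]⟩⟩ ⟨false,1,⟨5,[(11,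
  5),(3,0),(6,3),(12,0),(3,0),(0,2)]⟩,⟨0,[(8,0)]⟩⟩ ⟨true,0,⟨2,[(3,0),(9,2),(5,2),(14,0),(3,1)]⟩,⟨0,
  [(0,0),(6,0),(1,0)]⟩⟩]⟩)) (.Q [0,1,0,0,0,0,0,0,1,-1,0,1] (.p true [0,0,0,0,1] [1] (⟨0,[(20,0)]⟩,
  ⟨0,[(19,0)]⟩) .k 1 (⟨0,[]⟩,⟨0,[]⟩) .k .k) (.Q [0,0,0,0,0,-1,0,0,0,-1,1,1] (.p true [0,0,1] [1,0,0,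
  0,-1] (⟨0,[(28,0)]⟩,⟨0,[(27,0)]⟩) .k 2 (⟨0,[(20,0)]⟩,⟨0,[(21,0)]⟩) .k (.r 0 ⟨1,[(7,0),(7,0),(7,0),
  (14,0)]⟩ ⟨1,[(5,0),(2,0),(5,0),(25,0)]⟩)) (.R ⟨1,false,false,false,[-1,0,1,0,1],[0,0,0,0,1],[0,1,
  0,0,0,0,0,1],(⟨0,[(0,0),(30,0)]⟩,⟨0,[(21,0),(6,0)]⟩),(⟨0,[(22,0)]⟩,⟨0,[(21,0)]⟩),⟨0,[(0,0)]⟩,.k,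
  .k,(.r 0 ⟨0,[(8,0),(14,0)]⟩ ⟨1,[(1,0),(5,0),(2,1),(30,0)]⟩),.k,.k,.k,⟨true,0,⟨0,[(12,0),(1,0)]⟩,
  ⟨0,[(9,0)]⟩⟩,⟨false,0,⟨0,[(23,0)]⟩,⟨13,[(1,3),(4,6),(0,1),(11,1),(6,6),(9,0),(4,0)]⟩⟩,⟨false,1,⟨1,
  [(1,0),(5,0),(33,0)]⟩,⟨0,[]⟩⟩,⟨true,0,⟨0,[(15,0)]⟩,⟨0,[(8,0),(30,0)]⟩⟩,⟨true,0,⟨0,[(39,0)]⟩,⟨0,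
  [(38,0)]⟩⟩,⟨true,0,⟨0,[(10,0),(12,0)]⟩,⟨0,[(8,0)]⟩⟩,[.o ⟨false,0,⟨0,[(1,0)]⟩,⟨34,[(2,7),(0,19),(3,
  14),(1,15),(1,7),(9,19),(5,7),(3,39),(4,6),(4,5)]⟩⟩,.a ⟨true,0,⟨0,[(20,0)]⟩,⟨2,[(2,1),(0,2),(5,1),
  (11,2),(9,5),(6,1)]⟩⟩ ⟨true,0,⟨0,[(12,0),(1,0)]⟩,⟨0,[(9,0)]⟩⟩ ⟨false,0,⟨0,[(23,0)]⟩,⟨13,[(1,3),(4,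
  6),(0,1),(11,1),(6,6),(9,0),(4,0)]⟩⟩,.o ⟨false,1,⟨1,[(3,0),(16,2),(0,0),(4,1),(4,1),(4,0)]⟩,⟨2,
  [(2,0),(0,2),(5,0),(11,2),(5,2),(3,5),(6,0)]⟩⟩,.o ⟨false,1,⟨9,[(1,10),(5,0),(18,9),(9,1),(4,4)]⟩,
  ⟨0,[(3,0),(17,0),(5,0),(3,1)]⟩⟩]⟩) (.S ⟨1,0,[0,0,-1,-1,0,0,0,-1],[1,-1,-1],[1,1,-1,-2,0,0,0,-1],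
  (⟨0,[(17,0)]⟩,⟨0,[(29,0),(1,0)]⟩),⟨1,[(0,0),(2,0),(13,0),(2,0),(9,1),(11,1)]⟩,.k,(.r (-1) ⟨5,[(4,
  1),(0,5),(32,1),(1,0),(0,4)]⟩ ⟨4,[(2,5),(7,0),(24,2),(3,2)]⟩),⟨true,0,⟨0,[(38,0)]⟩,⟨0,[(39,0)]⟩⟩,
  ⟨false,1,⟨1,[(1,0),(5,0),(33,0)]⟩,⟨0,[]⟩⟩,⟨false,0,⟨0,[]⟩,⟨1,[(1,0),(5,0),(33,0)]⟩⟩,⟨true,0,⟨0,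
  [(39,0)]⟩,⟨0,[(38,0)]⟩⟩,[.a ⟨true,0,⟨0,[(3,0),(5,1),(1,0),(2,1),(5,0),(0,0),(9,1)]⟩,⟨0,[(12,0),
  (26,0)]⟩⟩ ⟨true,0,⟨0,[(4,0),(4,0)]⟩,⟨0,[(2,0),(36,0)]⟩⟩ ⟨false,1,⟨1,[(5,1),(34,0),(0,0)]⟩,⟨3,[(2,
  1),(5,0),(7,0),(7,0),(14,2)]⟩⟩,.o ⟨false,1,⟨8,[(4,3),(4,7),(5,0),(0,3),(19,0),(1,0),(2,6)]⟩,⟨0,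
  [(8,0),(30,1)]⟩⟩,.o ⟨false,0,⟨0,[(27,0)]⟩,⟨0,[(6,0)]⟩⟩,.o ⟨false,0,⟨2,[(2,0),(6,0),(17,2),(10,
  0)]⟩,⟨1,[(3,2),(16,2),(0,2),(4,1),(4,5),(4,0)]⟩⟩]⟩)) (.R ⟨1,false,false,false,[0,0,1],[0,0,0,0,1],
  [0,0,0,0,0,0,0,1],(⟨0,[(28,0)]⟩,⟨0,[(27,0)]⟩),(⟨0,[(21,0)]⟩,⟨0,[(20,0)]⟩),⟨0,[(17,0)]⟩,.k,.k,.k,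
  .k,(.r (-1) ⟨5,[(10,5),(4,0),(6,3),(12,0),(3,0),(0,2)]⟩ ⟨0,[(9,0),(32,0)]⟩),.k,⟨false,1,⟨11,[(1,
  1),(8,1),(0,7),(10,9),(12,1),(3,2),(0,4)]⟩,⟨2,[(4,0),(3,0),(0,0),(24,0)]⟩⟩,⟨true,0,⟨0,[(13,0),(5,
  0)]⟩,⟨0,[(0,0),(6,0),(1,0)]⟩⟩,⟨false,1,⟨8,[(6,4),(12,4),(15,0),(4,1)]⟩,⟨0,[]⟩⟩,⟨true,0,⟨0,[(19,0),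
  (4,0)]⟩,⟨0,[(0,0),(6,0),(30,0)]⟩⟩,⟨true,0,⟨0,[(38,0)]⟩,⟨0,[(37,0)]⟩⟩,⟨true,0,⟨0,[(19,0),(4,0),(13,
  0)]⟩,⟨0,[(0,0),(6,0)]⟩⟩,[.a ⟨true,0,⟨0,[(19,0),(22,0)]⟩,⟨0,[(0,0)]⟩⟩ ⟨true,0,⟨0,[(11,0),(1,0)]⟩,
  ⟨0,[(8,0)]⟩⟩ ⟨false,0,⟨2,[(3,0),(9,2),(5,2),(14,0),(3,1)]⟩,⟨13,[(0,9),(4,6),(0,1),(11,1),(6,6),(9,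
  0),(4,0)]⟩⟩,.a ⟨true,0,⟨0,[(19,0)]⟩,⟨0,[(0,0),(41,0)]⟩⟩ ⟨false,1,⟨11,[(1,1),(8,1),(0,7),(10,9),
  (12,1),(3,2),(0,4)]⟩,⟨2,[(4,0),(3,0),(0,0),(24,0)]⟩⟩ ⟨true,0,⟨0,[(13,0),(5,0)]⟩,⟨0,[(0,0),(6,0),
  (1,0)]⟩⟩,.o ⟨false,1,⟨49,[(5,24),(12,13),(0,13),(5,24),(9,4),(4,0),(1,1)]⟩,⟨0,[(13,0)]⟩⟩,.a ⟨true,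
  0,⟨0,[(25,0)]⟩,⟨0,[(22,0)]⟩⟩ ⟨false,1,⟨11,[(1,1),(8,1),(0,7),(10,9),(12,1),(3,2),(0,4)]⟩,⟨0,[(8,
  0)]⟩⟩ ⟨true,0,⟨2,[(3,0),(9,2),(5,2),(14,0),(3,1)]⟩,⟨0,[(0,0),(6,0),(1,0)]⟩⟩]⟩)))

theorem ok25 : chk K t25 r15 = true := by decide +kernel

noncomputable def t29 : Tre :=
  (.Q [0,0,0,2,0,0,-1,-1,0,0,-1] (.p false [0,0,1] [] (⟨0,[(23,0)]⟩,⟨0,[(22,0)]⟩) .k 0 (⟨0,[]⟩,⟨0,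
  []⟩) .k .k) (.R ⟨1,false,false,true,[1,-1],[1,0,-1],[1,0,1],(⟨0,[(28,0)]⟩,⟨0,[(29,0)]⟩),(⟨0,[(23,
  0)]⟩,⟨0,[(24,0)]⟩),⟨0,[(12,0),(0,0)]⟩,.k,.k,(.r (-1) ⟨0,[(32,1),(3,0)]⟩ ⟨0,[(21,0),(0,0),(11,
  1)]⟩),.k,(.r (-1) ⟨5,[(6,5),(4,0),(6,3),(12,0),(0,5),(2,0),(0,2)]⟩ ⟨1,[(0,1),(20,2),(0,0)]⟩),.k,
  ⟨true,0,⟨5,[(1,4),(5,5),(14,0),(8,0),(4,2)]⟩,⟨0,[(5,0),(26,0)]⟩⟩,⟨false,1,⟨5,[(11,0),(6,3),(12,0),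
  (3,3)]⟩,⟨0,[(21,0)]⟩⟩,⟨false,0,⟨5,[(1,4),(19,5),(0,0),(8,0),(2,5),(1,2)]⟩,⟨1,[(32,1),(2,0),(0,
  0)]⟩⟩,⟨true,0,⟨1,[(0,0),(19,0),(17,0)]⟩,⟨0,[(6,0)]⟩⟩,⟨false,0,⟨5,[(1,4),(19,5),(0,0),(8,0),(2,11),
  (1,2)]⟩,⟨0,[(32,1),(3,0)]⟩⟩,⟨false,0,⟨0,[(0,0)]⟩,⟨0,[(6,0),(26,0),(2,0)]⟩⟩,[.o ⟨false,0,⟨0,[(20,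
  0)]⟩,⟨4,[(7,3),(11,0),(11,0),(4,2)]⟩⟩,.e ⟨false,1,⟨8,[(2,4),(12,4),(15,0),(4,1)]⟩,⟨0,[(32,0),(1,
  0)]⟩⟩ ⟨false,1,⟨0,[(0,0),(31,1),(3,0)]⟩,⟨1,[(7,1),(13,0),(0,0)]⟩⟩,.o ⟨false,0,⟨1,[(21,0),(0,0)]⟩,
  ⟨9,[(14,0),(0,0),(15,1),(3,4)]⟩⟩,.a ⟨true,(-1),⟨0,[(1,0),(19,0)]⟩,⟨0,[(35,0)]⟩⟩ ⟨true,0,⟨0,[]⟩,⟨0,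
  [(38,0)]⟩⟩ ⟨false,1,⟨0,[(0,0),(31,1),(3,0)]⟩,⟨5,[(1,4),(5,5),(13,5),(0,0),(8,0),(4,2)]⟩⟩]⟩) (.Q
  [0,-2,0,0,1,0,0,0,-1,0,0,-1] (.p false [0,0,0,0,1] [] (⟨0,[(17,0)]⟩,⟨0,[(16,0)]⟩) .k 0 (⟨0,[]⟩,⟨0,
  []⟩) .k .k) (.Q [0,1,0,0,0,0,0,0,1,-1,0,1] (.p true [0,0,0,0,1] [1] (⟨0,[(18,0)]⟩,⟨0,[(17,0)]⟩)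
  .k 1 (⟨0,[]⟩,⟨0,[]⟩) .k .k) (.R ⟨1,false,false,false,[0,0,1],[1,0,0,0,-1],[0,1,0,0,0,0,0,1],(⟨0,
  [(26,0)]⟩,⟨0,[(25,0)]⟩),(⟨0,[(18,0)]⟩,⟨0,[(19,0)]⟩),⟨0,[(15,0)]⟩,.k,.k,.k,.k,(.r 0 ⟨0,[(5,0),(14,
  0)]⟩ ⟨1,[(0,0),(3,0),(2,1),(30,0)]⟩),.k,⟨true,(-1),⟨0,[(3,0),(1,0),(28,0),(1,1)]⟩,⟨0,[(6,0),(31,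
  0)]⟩⟩,⟨false,0,⟨0,[(1,0),(1,0),(30,1),(1,1)]⟩,⟨1,[(0,1),(22,1),(13,0),(0,0)]⟩⟩,⟨true,0,⟨0,[(40,
  0)]⟩,⟨0,[]⟩⟩,⟨false,1,⟨0,[(1,0),(10,0)]⟩,⟨0,[(0,0),(8,0)]⟩⟩,⟨false,0,⟨0,[(36,0)]⟩,⟨0,[(35,0),(2,
  0)]⟩⟩,⟨false,1,⟨0,[(1,0),(5,0),(12,0)]⟩,⟨0,[(0,0),(7,0)]⟩⟩,[.o ⟨false,1,⟨1,[(1,0),(14,0)]⟩,⟨0,[(0,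
  0)]⟩⟩,.o ⟨false,1,⟨0,[(1,0)]⟩,⟨0,[(0,0),(39,0)]⟩⟩,.o ⟨false,1,⟨9,[(0,0),(3,0),(18,9),(9,1),(3,
  4)]⟩,⟨0,[(11,0)]⟩⟩,.a ⟨true,0,⟨0,[(23,0)]⟩,⟨0,[(20,0)]⟩⟩ ⟨true,0,⟨0,[(5,0),(14,0),(15,0)]⟩,⟨0,[(6,
  0)]⟩⟩ ⟨false,1,⟨0,[(1,0),(18,0)]⟩,⟨0,[(0,0),(22,0)]⟩⟩]⟩) (.R ⟨1,false,false,false,[0,0,1],[0,0,0,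
  0,1],[0,0,0,0,0,0,0,1],(⟨0,[(26,0)]⟩,⟨0,[(25,0)]⟩),(⟨0,[(19,0)]⟩,⟨0,[(18,0)]⟩),⟨0,[(15,0)]⟩,.k,.k,
  .k,.k,(.r (-1) ⟨5,[(8,5),(4,0),(6,3),(12,0),(3,0),(0,2)]⟩ ⟨0,[(7,0),(32,0)]⟩),.k,⟨false,1,⟨5,[(9,
  5),(3,0),(6,3),(12,0),(3,0),(0,2)]⟩,⟨0,[(7,0),(26,0)]⟩⟩,⟨true,0,⟨0,[(11,0),(5,0)]⟩,⟨0,[(0,0),(4,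
  0),(1,0)]⟩⟩,⟨false,1,⟨8,[(4,4),(12,4),(15,0),(4,1)]⟩,⟨0,[]⟩⟩,⟨true,0,⟨0,[(17,0),(4,0)]⟩,⟨0,[(0,0),
  (4,0),(30,0)]⟩⟩,⟨true,0,⟨0,[(36,0)]⟩,⟨0,[(35,0)]⟩⟩,⟨true,0,⟨0,[(17,0),(4,0),(13,0)]⟩,⟨0,[(0,0),(4,
  0)]⟩⟩,[.a ⟨true,0,⟨0,[(17,0),(22,0)]⟩,⟨0,[(0,0)]⟩⟩ ⟨true,0,⟨0,[(9,0),(1,0)]⟩,⟨0,[(6,0)]⟩⟩ ⟨false,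
  0,⟨4,[(3,1),(13,4),(2,2),(11,0),(0,0),(0,2),(1,2)]⟩,⟨11,[(0,9),(0,0),(14,0),(6,11),(9,1),(3,5)]⟩⟩,
  .a ⟨true,0,⟨0,[(17,0)]⟩,⟨4,[(0,3),(2,0),(12,0),(6,0),(8,1)]⟩⟩ ⟨false,1,⟨5,[(9,5),(3,0),(6,3),(12,
  0),(3,0),(0,2)]⟩,⟨0,[(7,0),(26,0)]⟩⟩ ⟨true,0,⟨0,[(11,0),(5,0)]⟩,⟨0,[(0,0),(4,0),(1,0)]⟩⟩,.o
  ⟨false,1,⟨9,[(16,0),(0,0),(5,9),(9,1),(3,4)]⟩,⟨0,[(11,0)]⟩⟩,.a ⟨true,0,⟨0,[(23,0)]⟩,⟨0,[(20,0)]⟩⟩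
  ⟨false,1,⟨5,[(9,5),(3,0),(6,3),(12,0),(3,0),(0,2)]⟩,⟨0,[(6,0)]⟩⟩ ⟨true,0,⟨4,[(3,1),(13,4),(2,2),
  (11,0),(0,0),(0,2),(1,2)]⟩,⟨0,[(0,0),(4,0),(1,0)]⟩⟩]⟩)) (.Q [0,0,-1,0,0,0,0,0,1,-1,0,1] (.p true
  [0,0,0,0,1] [1] (⟨0,[(18,0)]⟩,⟨0,[(17,0)]⟩) .k 1 (⟨0,[]⟩,⟨0,[]⟩) .k .k) (.Q [0,0,0,0,0,1,0,0,0,0,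
  0,-1] (.ed true [1,-1,0,0,1] .k) (.S ⟨1,0,[],[1,0,0,0,-1],[0,-1],(⟨0,[(19,0)]⟩,⟨0,[(20,0)]⟩),⟨0,
  [(0,0),(14,0),(0,0)]⟩,.k,(.r (-1) ⟨0,[(35,0),(3,0)]⟩ ⟨4,[(8,2),(13,2),(2,2),(7,0),(3,1)]⟩),⟨false,
  1,⟨8,[(5,4),(12,4),(15,0),(4,1)]⟩,⟨0,[]⟩⟩,⟨true,0,⟨0,[(41,0)]⟩,⟨0,[]⟩⟩,⟨true,0,⟨0,[(37,0)]⟩,⟨0,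
  [(36,0)]⟩⟩,⟨false,0,⟨0,[(37,0)]⟩,⟨0,[(36,0),(2,0)]⟩⟩,[.o ⟨false,1,⟨0,[(17,0)]⟩,⟨14,[(1,8),(2,3),
  (13,5),(5,3),(9,1),(5,0)]⟩⟩,.a ⟨true,1,⟨0,[(5,0)]⟩,⟨0,[(1,0),(2,0),(19,0),(10,0),(1,0)]⟩⟩ ⟨true,1,
  ⟨0,[(39,0)]⟩,⟨0,[(4,0),(1,0),(1,0),(26,0),(1,0)]⟩⟩ ⟨false,1,⟨1,[(38,0),(0,0)]⟩,⟨0,[(41,0)]⟩⟩,.o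
  ⟨false,1,⟨0,[(17,0)]⟩,⟨14,[(1,8),(2,3),(13,5),(5,3),(9,1),(5,0)]⟩⟩,.o ⟨false,1,⟨1,[(17,1),(6,0),
  (0,0)]⟩,⟨0,[(1,0)]⟩⟩]⟩) (.S ⟨1,0,[0,1],[0,0,0,0,1],[0,2],(⟨0,[(20,0)]⟩,⟨0,[(19,0)]⟩),⟨0,[(0,0)]⟩,
  .k,(.r 0 ⟨0,[(35,0)]⟩ ⟨17,[(8,13),(5,4),(7,13),(2,3),(8,0),(2,3),(1,15)]⟩),⟨true,0,⟨0,[(41,0)]⟩,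
  ⟨0,[]⟩⟩,⟨false,1,⟨8,[(5,4),(12,4),(15,0),(4,1)]⟩,⟨0,[]⟩⟩,⟨false,0,⟨0,[(37,0)]⟩,⟨0,[(36,0),(2,
  0)]⟩⟩,⟨true,0,⟨0,[(37,0)]⟩,⟨0,[(36,0)]⟩⟩,[.e ⟨false,0,⟨0,[(33,0)]⟩,⟨0,[(39,0)]⟩⟩ ⟨false,0,⟨0,[(35,
  0),(1,0)]⟩,⟨8,[(5,4),(12,4),(15,0),(4,1)]⟩⟩,.o ⟨false,0,⟨14,[(1,8),(2,3),(13,5),(5,3),(9,1),(5,
  0)]⟩,⟨0,[(17,0)]⟩⟩,.o ⟨false,0,⟨14,[(1,8),(2,3),(13,5),(5,3),(9,1),(5,0)]⟩,⟨0,[(17,0)]⟩⟩,.a ⟨true,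
  (-1),⟨0,[(1,0),(2,0),(19,0)]⟩,⟨0,[(5,0),(29,0),(1,0)]⟩⟩ ⟨false,0,⟨0,[(35,0),(1,0)]⟩,⟨1,[(24,0),(0,
  0),(13,1)]⟩⟩ ⟨true,0,⟨0,[(35,0),(1,0)]⟩,⟨1,[(24,0),(0,0)]⟩⟩]⟩)) (.Q [0,0,0,0,0,0,-1,0,-1,1,-1,-1]
  (.p false [0,0,1] [1,0,0,0,-1] (⟨0,[(26,0)]⟩,⟨0,[(25,0)]⟩) .k 2 (⟨0,[(18,0)]⟩,⟨0,[(19,0)]⟩) .k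
  (.r 0 ⟨7,[(3,1),(1,0),(7,1),(6,1),(0,6),(11,0),(2,0)]⟩ ⟨1,[(6,1),(30,0),(0,0)]⟩)) (.Q [0,0,-1,0,1,
  0,1,0,-1,0,1,-1] (.p true [0,0,1] [0,0,0,0,1] (⟨0,[(27,0)]⟩,⟨0,[(26,0)]⟩) .k 2 (⟨0,[(20,0)]⟩,⟨0,
  [(19,0)]⟩) .k (.r (-1) ⟨9,[(10,3),(3,4),(7,5),(11,0),(4,7)]⟩ ⟨0,[(8,0),(26,0)]⟩)) (.Q [0,0,1,0,0,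
  0,0,0,1,-1,0,1] (.p true [0,0,0,0,1] [1] (⟨0,[(21,0)]⟩,⟨0,[(20,0)]⟩) .k 1 (⟨0,[]⟩,⟨0,[]⟩) .k .k)
  (.Q [0,0,0,0,0,-1,0,0,0,0,0,1] (.ed false [1,-1,0,0,1] .k) (.S ⟨1,0,[0,2],[0,0,0,0,1],[1,1,0,-1],
  (⟨0,[(23,0)]⟩,⟨0,[(22,0)]⟩),⟨0,[(0,0)]⟩,.k,(.r 0 ⟨0,[(38,0)]⟩ ⟨0,[(1,0),(6,0),(31,0)]⟩),⟨false,1,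
  ⟨0,[(39,0),(2,0)]⟩,⟨0,[(40,0)]⟩⟩,⟨true,0,⟨0,[(44,0)]⟩,⟨0,[]⟩⟩,⟨true,0,⟨0,[]⟩,⟨0,[(44,0)]⟩⟩,⟨false,
  0,⟨0,[(40,0)]⟩,⟨0,[(39,0),(2,0)]⟩⟩,[.e ⟨false,0,⟨0,[(38,0)]⟩,⟨8,[(8,4),(12,4),(15,0),(2,8),(1,
  1)]⟩⟩ ⟨false,0,⟨0,[(36,0)]⟩,⟨0,[(42,0)]⟩⟩,.o ⟨false,0,⟨5,[(1,0),(3,1),(15,2),(14,0),(0,0)]⟩,⟨5,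
  [(2,3),(0,0),(0,0),(2,2),(29,0),(4,2)]⟩⟩,.a ⟨true,0,⟨0,[(21,0)]⟩,⟨0,[(2,0),(4,0)]⟩⟩ ⟨true,0,⟨0,
  [(39,0)]⟩,⟨0,[(40,0)]⟩⟩ ⟨false,0,⟨0,[(44,0)]⟩,⟨0,[(42,0)]⟩⟩,.o ⟨false,0,⟨0,[(1,0)]⟩,⟨10,[(2,4),(0,
  4),(16,0),(16,0),(3,2)]⟩⟩]⟩) (.Q [0,0,-1,-1,1,0,1,1,-1,-1,1,-1] (.p false [1,0,-1,0,1] [] (⟨0,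
  [(23,0),(5,0)]⟩,⟨0,[(0,0),(18,0)]⟩) .k 0 (⟨0,[]⟩,⟨0,[]⟩) .k (.r 0 ⟨0,[(11,0),(26,0)]⟩ ⟨9,[(13,3),
  (3,4),(7,5),(11,0),(4,7)]⟩)) (.S ⟨1,0,[0,-1],[1,0,0,0,-1],[],(⟨0,[(23,0)]⟩,⟨0,[(24,0)]⟩),⟨0,[(1,
  0),(17,0),(0,0)]⟩,.k,(.r (-1) ⟨0,[(39,0),(3,0)]⟩ ⟨4,[(12,2),(13,2),(2,2),(7,0),(3,1)]⟩),⟨true,0,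
  ⟨0,[(45,0)]⟩,⟨0,[]⟩⟩,⟨false,1,⟨8,[(9,4),(12,4),(15,0),(4,1)]⟩,⟨0,[]⟩⟩,⟨false,0,⟨0,[(41,0)]⟩,⟨0,
  [(40,0),(2,0)]⟩⟩,⟨true,0,⟨0,[(41,0)]⟩,⟨0,[(40,0)]⟩⟩,[.o ⟨false,1,⟨1,[(0,0),(3,0),(7,0),(30,0)]⟩,
  ⟨5,[(2,0),(3,1),(15,2),(14,0),(0,0)]⟩⟩,.a ⟨true,1,⟨0,[(3,0),(4,0),(34,0)]⟩,⟨0,[(6,0)]⟩⟩ ⟨false,1,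
  ⟨1,[(42,0),(0,0)]⟩,⟨0,[(45,0)]⟩⟩ ⟨true,1,⟨0,[(43,0)]⟩,⟨0,[(0,0),(5,0),(1,0),(3,0)]⟩⟩,.e ⟨false,1,
  ⟨8,[(9,4),(12,4),(15,0),(4,1)]⟩,⟨0,[]⟩⟩ ⟨false,1,⟨0,[(43,0)]⟩,⟨0,[(45,0)]⟩⟩,.o ⟨false,0,⟨0,[(0,0),
  (7,0),(3,0)]⟩,⟨9,[(21,0),(0,10),(15,1),(3,4)]⟩⟩]⟩) (.R ⟨0,false,false,true,[0,0,0,0,1],[0,0,1],[1,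
  1,1],(⟨0,[(24,0)]⟩,⟨0,[(23,0)]⟩),(⟨0,[(31,0)]⟩,⟨0,[(30,0)]⟩),⟨0,[(1,0)]⟩,.k,.k,(.r 0 ⟨0,[(39,0)]⟩
  ⟨0,[(2,0),(6,0),(31,0)]⟩),.k,.k,.k,⟨true,0,⟨0,[(11,0)]⟩,⟨0,[(14,0),(1,0)]⟩⟩,⟨false,1,⟨0,[(3,0)]⟩,
  ⟨0,[(2,0),(22,0)]⟩⟩,⟨true,0,⟨1,[(2,0),(2,0)]⟩,⟨0,[(39,0),(1,0)]⟩⟩,⟨false,1,⟨5,[(3,3),(0,0),(0,0),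
  (2,2),(5,5),(23,0),(4,2)]⟩,⟨4,[(0,3),(16,0),(4,0),(15,0),(0,3),(3,1)]⟩⟩,⟨false,0,⟨0,[]⟩,⟨0,[]⟩⟩,
  ⟨false,0,⟨0,[]⟩,⟨0,[]⟩⟩,[.o ⟨false,0,⟨0,[(10,0),(30,0)]⟩,⟨8,[(9,0),(7,8),(4,0),(15,1),(4,3)]⟩⟩,.e
  ⟨false,0,⟨0,[]⟩,⟨1,[(21,0),(0,0),(19,0)]⟩⟩ ⟨false,1,⟨10,[(3,4),(0,4),(9,10),(6,0),(16,0),(3,2)]⟩,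
  ⟨4,[(0,3),(16,0),(4,0),(15,0),(0,3),(3,1)]⟩⟩,.a ⟨true,0,⟨0,[(22,0)]⟩,⟨0,[(3,0),(4,0)]⟩⟩ ⟨false,0,
  ⟨1,[(2,0),(2,0)]⟩,⟨1,[(42,0),(0,0)]⟩⟩ ⟨true,0,⟨0,[(3,0),(4,0),(1,0),(30,0)]⟩,⟨4,[(0,3),(16,0),(4,
  0),(15,0),(0,3),(3,1)]⟩⟩,.o ⟨false,0,⟨0,[(2,0)]⟩,⟨10,[(3,4),(0,4),(16,0),(16,0),(3,2)]⟩⟩]⟩))) (.Q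
  [0,0,0,0,0,-1,0,0,0,1,0,-1] (.ed true [0,1,0,0,1] .k) (.S ⟨1,0,[0,-1],[1,0,0,0,-1],[],(⟨0,[(22,
  0)]⟩,⟨0,[(23,0)]⟩),⟨0,[(0,0)]⟩,.k,(.r (-1) ⟨0,[(38,0),(3,0)]⟩ ⟨4,[(11,2),(13,2),(2,2),(7,0),(3,
  1)]⟩),⟨true,0,⟨0,[(44,0)]⟩,⟨0,[]⟩⟩,⟨false,1,⟨8,[(8,4),(12,4),(15,0),(4,1)]⟩,⟨0,[]⟩⟩,⟨false,0,⟨0,
  [(40,0)]⟩,⟨0,[(39,0),(2,0)]⟩⟩,⟨true,0,⟨0,[(40,0)]⟩,⟨0,[(39,0)]⟩⟩,[.o ⟨false,1,⟨4,[(1,1),(2,1),(3,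
  0),(28,0),(4,1)]⟩,⟨4,[(5,1),(15,2),(15,0),(6,0)]⟩⟩,.a ⟨true,1,⟨1,[(1,0),(2,0),(37,1)]⟩,⟨0,[(5,
  0)]⟩⟩ ⟨false,1,⟨1,[(41,0),(0,0)]⟩,⟨0,[(44,0)]⟩⟩ ⟨true,1,⟨0,[(42,0)]⟩,⟨6,[(1,2),(2,1),(0,4),(1,3),
  (1,3),(1,3),(25,0)]⟩⟩,.e ⟨false,1,⟨8,[(8,4),(12,4),(15,0),(4,1)]⟩,⟨0,[]⟩⟩ ⟨false,1,⟨0,[(42,0)]⟩,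
  ⟨0,[(44,0)]⟩⟩,.o ⟨false,0,⟨11,[(1,8),(2,2),(2,7),(19,7),(9,3),(5,1)]⟩,⟨9,[(20,0),(0,10),(15,1),(3,
  4)]⟩⟩]⟩) (.R ⟨0,false,false,true,[1,0,0,0,-1],[2,-1,0,0,-1],[0,0,0,-1],(⟨0,[(22,0)]⟩,⟨0,[(23,
  0)]⟩),(⟨0,[(22,0),(11,0)]⟩,⟨0,[(0,0)]⟩),⟨0,[(0,0)]⟩,.k,(.r (-1) ⟨0,[(38,0),(3,0)]⟩ ⟨4,[(11,2),(13,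
  2),(2,2),(7,0),(3,1)]⟩),(.r (-1) ⟨0,[(38,0),(3,0)]⟩ ⟨4,[(11,2),(13,2),(2,2),(7,0),(3,1)]⟩),.k,.k,
  .k,⟨true,0,⟨1,[(27,0),(0,0)]⟩,⟨0,[]⟩⟩,⟨false,0,⟨0,[(24,0),(2,0)]⟩,⟨9,[(20,0),(0,0),(15,1),(3,
  4)]⟩⟩,⟨true,0,⟨0,[(39,0)]⟩,⟨0,[(40,0)]⟩⟩,⟨false,0,⟨1,[(6,0),(9,0),(7,0),(2,0)]⟩,⟨8,[(8,0),(12,0),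
  (15,1),(2,8),(1,3)]⟩⟩,⟨false,0,⟨0,[]⟩,⟨0,[]⟩⟩,⟨false,0,⟨0,[]⟩,⟨0,[]⟩⟩,[.o ⟨false,0,⟨1,[(1,0),(1,
  0),(2,0),(3,0)]⟩,⟨4,[(20,0),(0,5),(15,1),(2,4)]⟩⟩,.e ⟨false,1,⟨0,[(38,0),(3,0)]⟩,⟨4,[(11,0),(13,
  0),(2,0),(7,1),(3,3)]⟩⟩ ⟨false,1,⟨7,[(1,1),(4,3),(1,1),(7,3),(4,3),(19,2),(0,2)]⟩,⟨13,[(1,4),(2,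
  0),(0,5),(1,1),(1,1),(1,1),(25,3),(2,13)]⟩⟩,.a ⟨true,0,⟨1,[(1,0),(2,0)]⟩,⟨0,[(21,0)]⟩⟩ ⟨false,1,
  ⟨0,[(39,0),(2,0)]⟩,⟨0,[(40,0)]⟩⟩ ⟨true,0,⟨1,[(6,0),(9,0),(7,0),(2,0)]⟩,⟨13,[(1,4),(2,0),(0,5),(1,
  1),(1,1),(1,1),(25,3),(2,13)]⟩⟩,.o ⟨false,0,⟨11,[(1,8),(2,2),(2,7),(19,7),(9,3),(5,1)]⟩,⟨9,[(20,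
  0),(0,10),(15,1),(3,4)]⟩⟩]⟩))) (.Q [0,0,0,0,0,0,0,0,1,-1,0,1] (.p true [0,0,0,0,1] [1] (⟨0,[(21,
  0)]⟩,⟨0,[(20,0)]⟩) .k 1 (⟨0,[]⟩,⟨0,[]⟩) .k .k) (.Q [0,-1,0,0,1,0,0,0,-1,0,0,-1] (.p false [0,0,0,
  0,1] [] (⟨0,[(22,0)]⟩,⟨0,[(21,0)]⟩) .k 0 (⟨0,[]⟩,⟨0,[]⟩) .k .k) (.R ⟨1,false,false,true,[0,0,1],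
  [1,0,0,0,-1],[0,1,0,0,0,0,0,1],(⟨0,[(30,0)]⟩,⟨0,[(29,0)]⟩),(⟨0,[(22,0)]⟩,⟨0,[(23,0)]⟩),⟨0,[(19,
  0)]⟩,.k,.k,.k,.k,(.r 0 ⟨0,[(9,0),(14,0)]⟩ ⟨8,[(8,4),(2,8),(9,4),(15,0),(4,1)]⟩),.k,⟨false,0,⟨0,
  [(9,0),(14,0),(15,0)]⟩,⟨1,[(10,1),(30,0),(0,0)]⟩⟩,⟨true,0,⟨0,[(3,0)]⟩,⟨0,[(1,0),(25,0)]⟩⟩,⟨true,0,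
  ⟨0,[(44,0)]⟩,⟨0,[]⟩⟩,⟨false,1,⟨0,[(0,0),(15,0)]⟩,⟨0,[(1,0),(11,0)]⟩⟩,⟨false,0,⟨0,[(40,0)]⟩,⟨0,
  [(39,0),(2,0)]⟩⟩,⟨false,1,⟨0,[(0,0),(10,0),(12,0)]⟩,⟨0,[(1,0),(10,0)]⟩⟩,[.o ⟨false,1,⟨0,[(20,0)]⟩,
  ⟨0,[(1,0)]⟩⟩,.o ⟨false,1,⟨0,[(0,0)]⟩,⟨4,[(5,1),(15,2),(15,0),(6,0)]⟩⟩,.o ⟨false,1,⟨9,[(20,0),(0,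
  0),(5,9),(9,1),(3,4)]⟩,⟨0,[(15,0)]⟩⟩,.a ⟨true,0,⟨0,[(27,0)]⟩,⟨0,[(24,0)]⟩⟩ ⟨true,0,⟨0,[(9,0),(14,
  0),(15,0)]⟩,⟨0,[(10,0)]⟩⟩ ⟨false,1,⟨0,[(0,0),(23,0)]⟩,⟨0,[(1,0),(25,0)]⟩⟩]⟩) (.Q [0,0,0,0,0,-1,0,
  0,0,1,0,-1] (.ed true [0,1,0,0,1] .k) (.Q [0,2,0,0,-1,0,0,0,1,-1,0,1] (.p true [0,0,0,0,1] [1]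
  (⟨0,[(24,0)]⟩,⟨0,[(23,0)]⟩) .k 1 (⟨0,[]⟩,⟨0,[]⟩) .k .k) (.S ⟨1,0,[0,-1],[1,0,0,0,-1],[],(⟨0,[(24,
  0)]⟩,⟨0,[(25,0)]⟩),⟨0,[(1,0)]⟩,.k,(.r (-1) ⟨0,[(40,0),(3,0)]⟩ ⟨4,[(13,2),(13,2),(2,2),(7,0),(3,
  1)]⟩),⟨true,0,⟨0,[(46,0)]⟩,⟨0,[]⟩⟩,⟨false,1,⟨8,[(10,4),(12,4),(15,0),(4,1)]⟩,⟨0,[]⟩⟩,⟨false,0,⟨0,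
  [(42,0)]⟩,⟨0,[(41,0),(2,0)]⟩⟩,⟨true,0,⟨0,[(42,0)]⟩,⟨0,[(41,0)]⟩⟩,[.e ⟨false,1,⟨1,[(22,0),(0,0),
  (19,0)]⟩,⟨0,[]⟩⟩ ⟨false,1,⟨1,[(43,0),(0,0)]⟩,⟨0,[(46,0)]⟩⟩,.o ⟨false,2,⟨8,[(10,9),(12,0),(15,1),
  (4,3)]⟩,⟨0,[(0,0)]⟩⟩,.o ⟨false,1,⟨0,[(22,0)]⟩,⟨0,[(3,0)]⟩⟩,.a ⟨true,0,⟨0,[(6,0)]⟩,⟨1,[(2,1),(40,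
  0),(0,0)]⟩⟩ ⟨false,1,⟨1,[(43,0),(0,0)]⟩,⟨1,[(29,0),(0,0)]⟩⟩ ⟨true,1,⟨1,[(43,0),(0,0)]⟩,⟨0,[(0,0),
  (5,0)]⟩⟩]⟩) (.R ⟨1,false,false,false,[1,0,0,0,-1],[1,0,-1],[],(⟨0,[(24,0)]⟩,⟨0,[(25,0)]⟩),(⟨0,
  [(31,0)]⟩,⟨0,[(32,0)]⟩),⟨0,[(1,0)]⟩,.k,.k,(.r (-1) ⟨0,[(40,0),(3,0)]⟩ ⟨4,[(13,2),(13,2),(2,2),(7,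
  0),(3,1)]⟩),.k,(.r (-1) ⟨5,[(14,5),(4,0),(6,3),(12,0),(3,0),(0,2)]⟩ ⟨0,[(13,0),(32,0)]⟩),.k,⟨true,
  0,⟨0,[(15,0),(1,0)]⟩,⟨0,[(12,0)]⟩⟩,⟨false,0,⟨0,[(3,0),(22,0)]⟩,⟨0,[(0,0),(10,0),(1,0),(26,0),(1,
  0)]⟩⟩,⟨true,0,⟨0,[(46,0)]⟩,⟨0,[]⟩⟩,⟨false,0,⟨0,[(3,0),(14,0)]⟩,⟨0,[(0,0),(10,0),(30,0)]⟩⟩,⟨false,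
  0,⟨0,[(42,0)]⟩,⟨0,[(41,0),(2,0)]⟩⟩,⟨false,0,⟨0,[(3,0),(9,0),(12,0)]⟩,⟨0,[(0,0),(10,0)]⟩⟩,[.e
  ⟨false,1,⟨1,[(22,0),(0,0),(19,0)]⟩,⟨0,[]⟩⟩ ⟨false,0,⟨0,[(0,3),(1,5),(2,0),(7,0),(25,0),(0,1),(1,
  0)]⟩,⟨0,[(15,0),(6,0)]⟩⟩,.o ⟨false,1,⟨8,[(10,0),(7,8),(4,0),(15,1),(4,3)]⟩,⟨0,[(11,0),(30,0)]⟩⟩,
  .o ⟨false,1,⟨0,[(22,0)]⟩,⟨0,[(3,0)]⟩⟩,.a ⟨true,0,⟨0,[(6,0)]⟩,⟨1,[(2,1),(40,0),(0,0)]⟩⟩ ⟨false,1,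
  ⟨1,[(43,0),(0,0)]⟩,⟨1,[(29,0),(0,0)]⟩⟩ ⟨true,0,⟨0,[(0,3),(1,5),(2,0),(7,0),(25,0),(0,1),(1,0)]⟩,
  ⟨0,[(6,0),(4,0),(30,0)]⟩⟩]⟩)) (.Q [0,0,0,0,0,0,-1,-1,-1,2,-1,-1] (.p false [-1,0,1,0,1] [1] (⟨0,
  [(0,0),(19,0)]⟩,⟨0,[(23,0),(6,0)]⟩) .k 1 (⟨0,[]⟩,⟨0,[]⟩) .k (.r 0 ⟨7,[(8,1),(1,0),(7,1),(6,1),(0,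
  6),(11,0),(2,0)]⟩ ⟨1,[(11,1),(30,0),(0,0)]⟩)) (.R ⟨0,false,false,false,[-1,1,0,0,1],[-1,0,1,0,1],
  [0,1],(⟨0,[(1,0)]⟩,⟨0,[(24,0),(11,0)]⟩),(⟨0,[(1,0),(19,0)]⟩,⟨0,[(24,0),(6,0)]⟩),⟨0,[(24,0)]⟩,(.r
  0 ⟨4,[(13,2),(13,2),(2,2),(7,0),(3,1)]⟩ ⟨0,[(40,0),(3,0)]⟩),.k,.k,.k,.k,.k,⟨false,1,⟨0,[(12,0),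
  (30,0)]⟩,⟨5,[(9,1),(5,5),(3,0),(6,1),(12,0)]⟩⟩,⟨true,0,⟨0,[(29,0)]⟩,⟨0,[(17,0)]⟩⟩,⟨false,1,⟨0,
  [(40,0),(3,0)]⟩,⟨1,[(29,0),(0,0),(11,1)]⟩⟩,⟨true,0,⟨0,[(14,0)]⟩,⟨0,[(28,0),(13,0)]⟩⟩,⟨false,0,⟨0,
  []⟩,⟨0,[]⟩⟩,⟨false,0,⟨0,[]⟩,⟨0,[]⟩⟩,[.o ⟨false,0,⟨3,[(2,1),(0,1),(7,0),(3,1),(11,0),(11,0),(2,
  0)]⟩,⟨4,[(0,3),(9,0),(7,0),(20,0),(4,1)]⟩⟩,.e ⟨false,1,⟨1,[(22,0),(0,0),(19,0)]⟩,⟨0,[]⟩⟩ ⟨false,0,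
  ⟨0,[(15,0)]⟩,⟨9,[(18,9),(3,0),(0,0),(15,1),(3,4)]⟩⟩,.o ⟨false,1,⟨3,[(3,2),(19,0),(15,0),(3,1)]⟩,
  ⟨0,[(6,0)]⟩⟩,.a ⟨true,0,⟨0,[(3,0)]⟩,⟨0,[(0,0),(14,0)]⟩⟩ ⟨true,0,⟨0,[(40,0),(1,0)]⟩,⟨1,[(29,0),(0,
  0)]⟩⟩ ⟨false,0,⟨0,[(15,0)]⟩,⟨8,[(10,0),(7,8),(4,0),(15,1),(4,3)]⟩⟩]⟩) (.R ⟨1,false,false,false,[0,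
  0,1],[-1,0,1,0,1],[0,1,0,0,0,0,0,1],(⟨0,[(32,0)]⟩,⟨0,[(31,0)]⟩),(⟨0,[(1,0),(19,0)]⟩,⟨0,[(24,0),(6,
  0)]⟩),⟨0,[(21,0)]⟩,.k,.k,.k,.k,(.r (-1) ⟨0,[(40,0),(3,0)]⟩ ⟨4,[(13,2),(13,2),(2,2),(7,0),(3,1)]⟩),
  .k,⟨false,1,⟨1,[(22,0),(0,0),(19,0)]⟩,⟨0,[]⟩⟩,⟨true,0,⟨0,[(3,0)]⟩,⟨0,[(6,0)]⟩⟩,⟨true,0,⟨0,[(46,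
  0)]⟩,⟨0,[]⟩⟩,⟨false,0,⟨0,[(3,0)]⟩,⟨0,[(10,0)]⟩⟩,⟨false,0,⟨0,[(42,0)]⟩,⟨0,[(41,0),(2,0)]⟩⟩,⟨false,
  0,⟨0,[(3,0),(38,0)]⟩,⟨2,[(5,0),(2,0),(1,1),(1,0),(27,0),(3,0)]⟩⟩,[.o ⟨false,0,⟨13,[(0,8),(6,3),
  (15,0),(3,4),(11,1),(6,0)]⟩,⟨1,[(5,1),(6,1),(30,0),(0,0)]⟩⟩,.o ⟨false,0,⟨0,[(0,0)]⟩,⟨0,[(18,0),(3,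
  0)]⟩⟩,.o ⟨false,1,⟨9,[(22,0),(0,0),(5,9),(9,1),(3,4)]⟩,⟨0,[(17,0)]⟩⟩,.a ⟨true,0,⟨0,[(29,0)]⟩,⟨0,
  [(26,0)]⟩⟩ ⟨true,0,⟨1,[(0,0),(4,0),(9,0),(10,0),(11,0)]⟩,⟨0,[(12,0)]⟩⟩ ⟨false,0,⟨0,[(0,0),(25,
  0)]⟩,⟨0,[(10,0),(1,0)]⟩⟩]⟩)))) (.Q [0,0,0,0,0,-1,0,0,0,0,0,1] (.ed false [1,-1,0,0,1] .k) (.S ⟨1,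
  0,[0,2],[0,0,0,0,1],[1,1,0,-1],(⟨0,[(23,0)]⟩,⟨0,[(22,0)]⟩),⟨0,[(0,0)]⟩,.k,(.r 0 ⟨0,[(38,0)]⟩ ⟨17,
  [(11,13),(5,4),(7,13),(2,3),(8,0),(2,3),(1,15)]⟩),⟨false,1,⟨0,[(39,0),(2,0)]⟩,⟨0,[(40,0)]⟩⟩,⟨true,
  0,⟨0,[(44,0)]⟩,⟨0,[]⟩⟩,⟨true,0,⟨0,[]⟩,⟨0,[(44,0)]⟩⟩,⟨false,0,⟨0,[(40,0)]⟩,⟨0,[(39,0),(2,0)]⟩⟩,[.e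
  ⟨false,0,⟨0,[(38,0)]⟩,⟨8,[(8,4),(12,4),(15,0),(2,8),(1,1)]⟩⟩ ⟨false,0,⟨0,[(36,0)]⟩,⟨0,[(42,0)]⟩⟩,
  .o ⟨false,0,⟨4,[(5,1),(15,2),(15,0),(6,0)]⟩,⟨4,[(1,3),(6,0),(28,0),(4,1)]⟩⟩,.a ⟨true,0,⟨0,[(21,
  0)]⟩,⟨0,[(1,0)]⟩⟩ ⟨true,0,⟨0,[(39,0)]⟩,⟨0,[(40,0)]⟩⟩ ⟨false,0,⟨0,[(44,0)]⟩,⟨0,[(42,0)]⟩⟩,.o
  ⟨false,0,⟨19,[(2,7),(18,11),(5,8),(0,0),(8,3),(5,1)]⟩,⟨5,[(1,4),(18,0),(16,0),(3,2)]⟩⟩]⟩) (.R ⟨0,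
  false,false,false,[0,0,0,0,1],[0,1],[1,0,1],(⟨0,[(23,0)]⟩,⟨0,[(22,0)]⟩),(⟨0,[(35,0)]⟩,⟨0,[(34,
  0)]⟩),⟨0,[(0,0)]⟩,.k,.k,(.r 0 ⟨0,[(38,0)]⟩ ⟨17,[(11,13),(5,4),(7,13),(2,3),(8,0),(2,3),(1,15)]⟩),
  (.r 0 ⟨0,[(38,0)]⟩ ⟨17,[(11,13),(5,4),(7,13),(2,3),(8,0),(2,3),(1,15)]⟩),.k,.k,⟨false,1,⟨1,[(39,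
  1),(1,0),(0,0)]⟩,⟨0,[(40,0)]⟩⟩,⟨true,1,⟨5,[(1,4),(18,0),(16,0),(3,2)]⟩,⟨0,[(2,0),(24,0)]⟩⟩,⟨false,
  1,⟨1,[(27,0),(0,0),(13,1)]⟩,⟨0,[(38,0),(1,0)]⟩⟩,⟨true,1,⟨4,[(1,3),(6,0),(28,0),(2,4),(1,1)]⟩,⟨3,
  [(2,0),(2,2),(0,0),(3,0),(27,1)]⟩⟩,⟨false,0,⟨0,[]⟩,⟨0,[]⟩⟩,⟨false,0,⟨0,[]⟩,⟨0,[]⟩⟩,[.e ⟨false,0,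
  ⟨0,[]⟩,⟨1,[(20,0),(0,0),(19,0)]⟩⟩ ⟨false,1,⟨5,[(1,4),(18,0),(16,0),(2,5),(0,2)]⟩,⟨3,[(2,0),(3,0),
  (3,0),(10,2),(16,1),(3,0)]⟩⟩,.o ⟨false,1,⟨8,[(8,0),(12,0),(15,1),(2,8),(1,3)]⟩,⟨0,[(39,0)]⟩⟩,.a
  ⟨true,0,⟨0,[(21,0)]⟩,⟨0,[(1,0)]⟩⟩ ⟨true,0,⟨1,[(27,0),(0,0)]⟩,⟨0,[(38,0),(1,0)]⟩⟩ ⟨false,1,⟨4,[(1,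
  3),(6,0),(28,0),(2,4),(1,1)]⟩,⟨3,[(2,0),(3,0),(3,0),(10,2),(16,1),(3,0)]⟩⟩,.o ⟨false,0,⟨19,[(2,7),
  (18,11),(5,8),(0,0),(8,3),(5,1)]⟩,⟨5,[(1,4),(18,0),(16,0),(3,2)]⟩⟩]⟩)))) (.Q [0,2,0,0,-1,0,0,0,1,
  -1,0,1] (.p true [0,0,0,0,1] [1] (⟨0,[(20,0)]⟩,⟨0,[(19,0)]⟩) .k 1 (⟨0,[]⟩,⟨0,[]⟩) .k .k) (.K ⟨0,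
  [1,0,0,0,-1],0,1,(⟨0,[(20,0)]⟩,⟨0,[(21,0)]⟩),.k,(.r (-1) ⟨0,[(36,0),(3,0)]⟩ ⟨4,[(9,2),(13,2),(2,
  2),(7,0),(3,1)]⟩),(.r (-1) ⟨17,[(9,13),(5,4),(7,13),(2,3),(8,0),(2,3),(1,15)]⟩ ⟨0,[(36,0)]⟩),.k,
  .k,[⟨0,[(1,0)]⟩,⟨0,[(2,0)]⟩,⟨0,[(0,0)]⟩,⟨0,[(6,0),(35,0)]⟩]⟩) (.K ⟨0,[0,0,0,0,1],(-1),(-1),(⟨0,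
  [(21,0)]⟩,⟨0,[(20,0)]⟩),.k,(.r 0 ⟨0,[(36,0)]⟩ ⟨17,[(9,13),(5,4),(7,13),(2,3),(8,0),(2,3),(1,
  15)]⟩),(.r 0 ⟨4,[(9,2),(13,2),(2,2),(7,0),(3,1)]⟩ ⟨0,[(36,0),(3,0)]⟩),.k,.k,[⟨0,[(0,0),(6,0),(1,
  0),(26,0),(1,0)]⟩,⟨0,[(1,0),(3,0)]⟩,⟨0,[(18,0)]⟩,⟨0,[(3,0)]⟩]⟩))))))

theorem ok29 : chk K t29 r12 = true := by decide +kernel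

noncomputable def t32 : Tre :=
  (.S ⟨1,0,[0,0,1,1,0,0,0,-1],[1,1,-1],[1,1,1,0,0,0,0,-1],(⟨0,[(20,0),(2,0)]⟩,⟨0,[(10,0)]⟩),⟨0,[(20,
  0)]⟩,.k,.k,⟨true,0,⟨0,[(30,0)]⟩,⟨0,[(31,0)]⟩⟩,⟨false,1,⟨1,[(11,0),(0,0),(20,0)]⟩,⟨0,[]⟩⟩,⟨false,0,
  ⟨0,[]⟩,⟨1,[(11,0),(0,0),(20,0)]⟩⟩,⟨true,0,⟨0,[(31,0)]⟩,⟨0,[(30,0)]⟩⟩,[.a ⟨true,0,⟨6,[(0,4),(1,1),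
  (4,0),(0,0),(7,0),(10,1)]⟩,⟨0,[(3,0)]⟩⟩ ⟨false,0,⟨0,[(2,0),(26,0)]⟩,⟨5,[(4,5),(3,0),(6,3),(12,0),
  (3,0),(0,2)]⟩⟩ ⟨true,0,⟨0,[(2,0)]⟩,⟨0,[(3,0),(2,0)]⟩⟩,.a ⟨true,0,⟨0,[(0,0)]⟩,⟨0,[(5,0)]⟩⟩ ⟨true,0,
  ⟨0,[(1,0)]⟩,⟨0,[(4,0),(1,0)]⟩⟩ ⟨false,1,⟨1,[(2,1),(29,0),(0,0)]⟩,⟨0,[(4,0),(1,0),(22,0)]⟩⟩,.a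
  ⟨true,0,⟨0,[(15,0)]⟩,⟨0,[(18,0)]⟩⟩ ⟨false,0,⟨0,[(1,0)]⟩,⟨5,[(4,5),(3,0),(6,3),(12,0),(3,0),(0,
  2)]⟩⟩ ⟨true,0,⟨0,[(2,0)]⟩,⟨0,[(4,0),(1,0),(22,0)]⟩⟩,.o ⟨false,0,⟨0,[(6,0)]⟩,⟨9,[(11,0),(0,0),(5,
  9),(9,1),(3,4)]⟩⟩]⟩)

theorem ok32 : chk K t32 r10 = true := by decide +kernel

noncomputable def t36 : Tre :=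
  (.R ⟨2,true,false,false,[0,1],[0,0,1],[1,1,1],(⟨0,[]⟩,⟨0,[]⟩),(⟨0,[(18,0)]⟩,⟨0,[(17,0)]⟩),⟨0,[]⟩,
  .k,.k,.k,.k,.k,.k,⟨false,0,⟨0,[(0,0),(14,0),(10,0)]⟩,⟨5,[(1,5),(3,0),(6,3),(12,0),(3,0),(0,2)]⟩⟩,
  ⟨true,0,⟨0,[(15,0)]⟩,⟨0,[(3,0)]⟩⟩,⟨true,0,⟨0,[(27,0)]⟩,⟨0,[(28,0)]⟩⟩,⟨false,1,⟨0,[(2,0),(27,0)]⟩,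
  ⟨0,[(0,0)]⟩⟩,⟨false,0,⟨0,[]⟩,⟨1,[(8,0),(0,0),(20,0)]⟩⟩,⟨true,0,⟨0,[(1,0)]⟩,⟨0,[(14,0)]⟩⟩,[]⟩)

theorem ok36 : chk K t36 r7 = true := by decide +kernel

noncomputable def t40 : Tre :=
  (.Q [0,1,0,-1,0,0,-1,-1,0,0,-1] (.p false [0,0,1] [] (⟨0,[(15,0)]⟩,⟨0,[(14,0)]⟩) .k 0 (⟨0,[]⟩,⟨0,
  []⟩) .k .k) (.I [0,0,-2,0,1,-2,1] (.K ⟨0,[0,1,1],0,0,(⟨0,[(17,0),(1,0)]⟩,⟨0,[(5,0)]⟩),.k,.k,(.x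
  (-1) ⟨0,[(0,0)]⟩ ⟨1,[(14,0),(0,2),(1,1),(1,3)]⟩),.k,.k,[⟨1,[(14,0),(0,0)]⟩,⟨0,[(2,0)]⟩,⟨0,[(1,
  0)]⟩,⟨0,[(12,0),(14,0)]⟩]⟩) (.I [0,0,-2,-2,1,0,0,-1] (.K ⟨0,[0,1,1],0,0,(⟨0,[(18,0),(1,0)]⟩,⟨0,
  [(6,0)]⟩),.k,.k,(.r 0 ⟨11,[(1,9),(4,9),(6,11),(1,0),(0,2),(2,9),(5,1),(2,23),(1,5)]⟩ ⟨0,[(0,0)]⟩),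
  .k,.k,[⟨1,[(15,0),(0,0)]⟩,⟨0,[(3,0)]⟩,⟨0,[(2,0)]⟩,⟨0,[(13,0),(14,0)]⟩]⟩) (.I [1,0,1,0,0,0,0,-1]
  (.S ⟨1,0,[0,0,0,0,0,0,0,1],[0,0,1],[0,1,0,0,0,0,0,1],(⟨0,[(19,0)]⟩,⟨0,[(18,0)]⟩),⟨0,[(8,0)]⟩,.k,
  .k,⟨true,0,⟨0,[(33,0)]⟩,⟨0,[]⟩⟩,⟨false,1,⟨1,[(9,0),(0,0),(20,0)]⟩,⟨0,[]⟩⟩,⟨false,0,⟨0,[(29,0)]⟩,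
  ⟨0,[(28,0),(2,0)]⟩⟩,⟨true,0,⟨0,[(29,0)]⟩,⟨0,[(28,0)]⟩⟩,[.a ⟨true,0,⟨0,[(1,0),(2,0),(22,1),(3,0)]⟩,
  ⟨0,[(5,0)]⟩⟩ ⟨false,0,⟨1,[(1,1),(25,3),(2,0),(0,0)]⟩,⟨1,[(0,1),(29,0),(0,0)]⟩⟩ ⟨true,0,⟨0,[(1,0),
  (25,1),(3,0)]⟩,⟨0,[(0,0)]⟩⟩,.o ⟨false,1,⟨4,[(1,3),(2,3),(9,0),(11,0),(0,7),(3,6)]⟩,⟨0,[(15,0)]⟩⟩,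
  .a ⟨true,0,⟨0,[(4,0)]⟩,⟨10,[(2,0),(2,1),(0,3),(6,1),(0,1),(3,0),(4,1),(7,0)]⟩⟩ ⟨false,0,⟨0,[(1,0),
  (25,1),(3,0)]⟩,⟨1,[(0,1),(29,0),(0,0)]⟩⟩ ⟨true,0,⟨0,[(1,0),(25,1),(3,0)]⟩,⟨0,[(4,0),(10,0)]⟩⟩,.a
  ⟨true,0,⟨0,[(16,0)]⟩,⟨0,[(13,0)]⟩⟩ ⟨true,0,⟨1,[(1,1),(25,3),(2,0),(0,0)]⟩,⟨0,[(0,0)]⟩⟩ ⟨false,1,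
  ⟨1,[(1,1),(25,3),(2,0),(0,2)]⟩,⟨0,[(0,0)]⟩⟩]⟩) (.Q [0,0,0,1,0,0,1,1,0,-1,1] (.p true [0,0,1] [1]
  (⟨0,[(19,0)]⟩,⟨0,[(18,0)]⟩) .k 1 (⟨0,[]⟩,⟨0,[]⟩) .k .k) (.R ⟨2,true,false,false,[0,1],[1,0,-1],[0,
  1,1,1],(⟨0,[]⟩,⟨0,[]⟩),(⟨0,[(19,0)]⟩,⟨0,[(20,0)]⟩),⟨0,[]⟩,.k,.k,.k,.k,.k,.k,⟨true,(-1),⟨0,[(2,0),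
  (25,0)]⟩,⟨0,[(4,0),(0,0),(26,0)]⟩⟩,⟨false,0,⟨10,[(3,0),(2,1),(0,3),(6,1),(0,1),(3,0),(4,1),(7,
  0)]⟩,⟨4,[(5,3),(11,0),(9,0),(3,2)]⟩⟩,⟨true,0,⟨0,[(34,0)]⟩,⟨0,[]⟩⟩,⟨false,1,⟨0,[(6,0),(22,0),(2,
  0)]⟩,⟨0,[(0,0)]⟩⟩,⟨false,0,⟨0,[(30,0)]⟩,⟨0,[(29,0),(2,0)]⟩⟩,⟨true,0,⟨0,[(6,0)]⟩,⟨0,[(0,0),(28,
  0)]⟩⟩,[]⟩) (.I [0,0,2,2,-1,0,0,1] (.K ⟨0,[0,1,1],0,0,(⟨0,[(21,0),(1,0)]⟩,⟨0,[(9,0)]⟩),.k,.k,(.r 1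
  ⟨0,[(0,0)]⟩ ⟨9,[(1,9),(4,7),(11,1),(9,1),(1,9),(1,10),(0,4)]⟩),.k,.k,[⟨1,[(18,0),(0,0)]⟩,⟨0,[(6,
  0)]⟩,⟨0,[(5,0)]⟩,⟨0,[(16,0),(14,0)]⟩]⟩) (.Q [0,0,-2,0,1,0,0,0,0,-1] (.pp true [-1,1]) (.S ⟨1,0,[0,
  1,-1,-1],[1,-1],[1,0,-1,-2],(⟨0,[(26,0)]⟩,⟨0,[(27,0)]⟩),⟨0,[(10,0),(0,0)]⟩,.k,(.r (-1) ⟨2,[(1,1),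
  (1,1),(27,1),(2,0)]⟩ ⟨14,[(4,9),(3,9),(3,5),(0,5),(5,9),(9,1),(2,9)]⟩),⟨false,1,⟨0,[(31,0),(2,
  0)]⟩,⟨0,[(32,0)]⟩⟩,⟨true,0,⟨0,[(36,0)]⟩,⟨0,[]⟩⟩,⟨true,0,⟨0,[]⟩,⟨0,[(36,0)]⟩⟩,⟨false,0,⟨0,[(32,
  0)]⟩,⟨0,[(31,0),(2,0)]⟩⟩,[.o ⟨false,0,⟨0,[(31,0)]⟩,⟨9,[(12,0),(0,0),(15,1),(2,9),(1,4)]⟩⟩,.a
  ⟨true,0,⟨1,[(1,0),(1,0),(1,0),(4,0),(8,0),(6,0)]⟩,⟨0,[(32,0)]⟩⟩ ⟨true,1,⟨5,[(1,5),(1,5),(1,4),(1,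
  2),(2,4),(8,1),(3,4),(5,0),(4,2)]⟩,⟨0,[(4,0),(2,0),(10,0)]⟩⟩ ⟨false,1,⟨47,[(1,23),(1,13),(5,4),(7,
  9),(11,0),(3,16),(0,4)]⟩,⟨14,[(4,4),(3,4),(3,2),(0,2),(5,4),(9,0),(2,4)]⟩⟩,.o ⟨false,0,⟨1,[(19,0),
  (0,0)]⟩,⟨9,[(12,0),(0,0),(15,1),(3,4)]⟩⟩,.o ⟨false,0,⟨0,[(19,0),(0,0)]⟩,⟨0,[(0,0)]⟩⟩]⟩) (.I [1,0,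
  1,1,0,0,0,-1] (.S ⟨1,0,[0,1,-1,-1,0,0,0,1],[0,-1,1],[1,0,-1,-2,0,0,0,1],(⟨0,[(12,0)]⟩,⟨0,[(22,0),
  (2,0)]⟩),⟨4,[(1,9),(0,7),(1,7),(1,1),(1,1),(3,2),(11,10),(5,1),(2,15)]⟩,.k,(.r (-1) ⟨2,[(2,0),(1,
  3),(27,3),(2,1)]⟩ ⟨2,[(0,3),(4,0),(7,0),(0,0)]⟩),⟨false,1,⟨0,[(32,0),(2,0)]⟩,⟨0,[(33,0)]⟩⟩,⟨true,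
  0,⟨0,[(37,0)]⟩,⟨0,[]⟩⟩,⟨true,0,⟨0,[]⟩,⟨0,[(37,0)]⟩⟩,⟨false,0,⟨0,[(33,0)]⟩,⟨0,[(32,0),(2,0)]⟩⟩,[.o
  ⟨false,0,⟨2,[(1,1),(2,2),(3,2),(21,0),(0,0),(0,1)]⟩,⟨5,[(0,5),(9,0),(6,3),(12,0),(3,0),(0,2)]⟩⟩,
  .e ⟨false,1,⟨17,[(1,14),(0,15),(1,33),(25,2),(1,3),(2,10)]⟩,⟨93,[(0,131),(4,27),(4,4),(7,9),(10,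
  41),(0,0),(3,25)]⟩⟩ ⟨false,1,⟨15,[(2,7),(1,13),(5,4),(7,9),(11,0),(3,0),(0,4)]⟩,⟨0,[(0,0)]⟩⟩,.a
  ⟨true,0,⟨0,[(20,0)]⟩,⟨0,[(17,0)]⟩⟩ ⟨false,1,⟨17,[(1,14),(0,9),(1,27),(25,2),(1,15),(2,16)]⟩,⟨0,
  [(0,0),(32,0)]⟩⟩ ⟨true,0,⟨0,[(4,0),(27,0)]⟩,⟨0,[(0,0)]⟩⟩,.o ⟨false,0,⟨5,[(1,3),(6,2),(11,2),(9,1),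
  (5,0)]⟩,⟨5,[(10,0),(6,3),(12,0),(3,3)]⟩⟩]⟩) (.I [0,0,2,0,-1,2,-1] (.N [0,2,1] 1 ⟨0,[(6,0)]⟩ ⟨0,
  [(3,0)]⟩ (.x (-2) ⟨4,[(9,2),(2,4),(8,1),(6,4),(2,1),(3,5)]⟩ ⟨0,[(0,0)]⟩)) (.Q [0,0,-1,0,1,0,0,0,
  -1,0,0,-1] (.p false [0,0,0,0,1] [] (⟨0,[(17,0)]⟩,⟨0,[(16,0)]⟩) .k 0 (⟨0,[]⟩,⟨0,[]⟩) .k .k) (.Q
  [0,0,-1,0,0,0,-1,0,-1,1,-1,-1] (.p false [0,0,1] [1,0,0,0,-1] (⟨0,[(25,0)]⟩,⟨0,[(24,0)]⟩) .k 2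
  (⟨0,[(17,0)]⟩,⟨0,[(18,0)]⟩) .k (.r 0 ⟨28,[(2,4),(4,3),(4,9),(7,19),(10,2),(0,1),(1,2)]⟩ ⟨5,[(4,0),
  (5,2),(0,4),(10,1),(9,0),(2,1),(1,2)]⟩)) (.Q [0,0,0,0,0,-1,0,0,0,-1,1,1] (.p true [0,0,1] [1,0,0,
  0,-1] (⟨0,[(26,0)]⟩,⟨0,[(25,0)]⟩) .k 2 (⟨0,[(18,0)]⟩,⟨0,[(19,0)]⟩) .k (.r 0 ⟨28,[(3,4),(4,3),(4,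
  9),(7,19),(10,2),(0,1),(1,2)]⟩ ⟨5,[(5,0),(5,2),(0,4),(10,1),(9,0),(2,1),(1,2)]⟩)) (.K ⟨0,[2,0,-1,
  0,-1],(-1),0,(⟨0,[(19,0),(6,0)]⟩,⟨0,[(0,0),(28,0)]⟩),.k,(.r (-2) ⟨19,[(6,9),(6,9),(3,10),(0,10),
  (5,9),(9,1),(3,4),(0,9)]⟩ ⟨0,[(9,0),(25,0)]⟩),(.r (-1) ⟨9,[(13,9),(3,0),(0,0),(5,9),(9,1),(2,9),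
  (1,4)]⟩ ⟨57,[(4,45),(4,1),(4,4),(7,9),(10,15),(0,0),(1,15)]⟩),.k,.k,[⟨19,[(12,33),(5,19),(5,5),(9,
  7),(3,2),(0,0),(1,1)]⟩,⟨0,[(1,0),(3,0)]⟩,⟨16,[(5,0),(3,12),(2,12),(5,16),(3,3),(10,1),(0,6),(0,
  25)]⟩,⟨0,[(1,0),(11,0),(10,0)]⟩]⟩) (.K ⟨0,[0,0,1,0,-1],0,0,(⟨8,[(0,3),(3,15),(0,10),(0,15),(3,12),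
  (1,12),(6,4),(8,29),(5,3),(2,47)]⟩,⟨0,[(20,0),(5,0)]⟩),.k,(.r (-1) ⟨61,[(4,41),(1,9),(7,14),(7,
  29),(11,2),(4,45)]⟩ ⟨0,[(23,0),(0,0),(12,0)]⟩),(.r 0 ⟨61,[(4,13),(4,37),(4,4),(7,9),(11,0),(4,
  35)]⟩ ⟨7,[(6,3),(10,2),(0,2),(4,3),(0,3),(8,1),(4,0)]⟩),.k,.k,[⟨0,[(18,0)]⟩,⟨5,[(1,5),(3,3),(6,8),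
  (11,2),(9,1),(5,0)]⟩,⟨0,[(18,0),(4,0),(17,0)]⟩,⟨8,[(1,8),(2,5),(0,0),(3,2),(2,10),(11,6),(9,
  1)]⟩]⟩)) (.Q [0,-1,0,0,1,0,0,0,-1,0,0,-1] (.p false [0,0,0,0,1] [] (⟨0,[(19,0)]⟩,⟨0,[(18,0)]⟩) .k
  0 (⟨0,[]⟩,⟨0,[]⟩) .k .k) (.Q [0,0,1,0,0,0,0,0,1,-1,0,1] (.p true [0,0,0,0,1] [1] (⟨0,[(20,0)]⟩,⟨0,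
  [(19,0)]⟩) .k 1 (⟨0,[]⟩,⟨0,[]⟩) .k .k) (.Q [0,0,0,0,0,0,1,1,-1,0,1,-1] (.p true [0,0,1] [0,0,0,0,
  1] (⟨0,[(28,0)]⟩,⟨0,[(27,0)]⟩) .k 2 (⟨0,[(21,0)]⟩,⟨0,[(20,0)]⟩) .k (.r (-1) ⟨61,[(5,7),(4,3),(4,
  24),(7,49),(11,4),(4,55)]⟩ ⟨0,[(13,0),(10,0)]⟩)) (.Q [0,0,0,0,0,-1,0,0,0,0,0,1] (.ed false [1,-1,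
  0,0,1] .k) (.K ⟨0,[1,1,0,0,-1],0,0,(⟨0,[(22,0),(9,0)]⟩,⟨0,[(0,0)]⟩),(.r (-1) ⟨5,[(4,1),(7,1),(3,
  1),(3,4),(0,2),(18,1),(1,2)]⟩ ⟨0,[(38,0)]⟩),.k,(.r 0 ⟨5,[(12,4),(2,2),(0,4),(10,1),(9,0),(2,1),(1,
  2)]⟩ ⟨28,[(7,4),(1,24),(7,9),(7,19),(10,2),(0,1),(1,2)]⟩),(.r (-1) ⟨5,[(4,0),(11,5),(3,0),(6,4),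
  (9,0),(2,5),(1,2)]⟩ ⟨57,[(7,45),(4,1),(4,4),(7,9),(10,15),(0,0),(1,15)]⟩),.k,[⟨0,[(4,0)]⟩,⟨0,[(1,
  0),(14,0)]⟩,⟨1,[(2,1),(33,0),(1,0),(0,0)]⟩,⟨0,[(1,0),(14,0),(23,0)]⟩]⟩) (.R ⟨0,false,false,true,
  [0,0,0,0,1],[0,0,1],[],(⟨0,[(23,0)]⟩,⟨0,[(22,0)]⟩),(⟨0,[(30,0)]⟩,⟨0,[(29,0)]⟩),⟨0,[(0,0)]⟩,.k,.k,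
  (.r 0 ⟨0,[(38,0)]⟩ ⟨5,[(4,1),(7,1),(3,1),(3,4),(0,2),(18,1),(1,2)]⟩),.k,.k,.k,⟨true,1,⟨5,[(9,0),
  (5,2),(0,4),(10,1),(9,0),(2,1),(1,2)]⟩,⟨0,[(7,0),(4,0),(1,0),(0,0)]⟩⟩,⟨false,1,⟨0,[(5,0),(9,0)]⟩,
  ⟨0,[(2,0),(21,0)]⟩⟩,⟨false,1,⟨0,[(42,0)]⟩,⟨0,[(44,0)]⟩⟩,⟨true,0,⟨0,[(1,0)]⟩,⟨0,[(21,0),(4,0)]⟩⟩,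
  ⟨false,0,⟨0,[]⟩,⟨0,[]⟩⟩,⟨false,0,⟨0,[]⟩,⟨0,[]⟩⟩,[.o ⟨false,0,⟨9,[(1,4),(2,4),(2,1),(3,0),(0,1),
  (23,3),(0,0),(0,1)]⟩,⟨21,[(2,1),(13,21),(3,1),(16,3),(3,0),(0,10)]⟩⟩,.a ⟨true,0,⟨4,[(7,1),(4,0),
  (2,2),(9,1),(16,0)]⟩,⟨0,[(16,0)]⟩⟩ ⟨false,1,⟨1,[(41,0),(0,0)]⟩,⟨0,[(44,0)]⟩⟩ ⟨true,0,⟨0,[(1,0)]⟩,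
  ⟨0,[(2,0),(13,0)]⟩⟩,.e ⟨false,1,⟨1,[(20,0),(0,0),(20,0)]⟩,⟨0,[]⟩⟩ ⟨false,0,⟨0,[(1,0)]⟩,⟨9,[(16,9),
  (3,0),(0,10),(15,1),(4,4)]⟩⟩,.o ⟨false,0,⟨0,[(2,0)]⟩,⟨0,[(5,0)]⟩⟩]⟩)) (.Q [0,0,0,0,0,-1,0,0,0,1,0,
  -1] (.ed true [0,1,0,0,1] .k) (.S ⟨1,0,[],[1,0,0,0,-1],[0,-1],(⟨0,[(22,0)]⟩,⟨0,[(23,0)]⟩),⟨0,[(0,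
  0)]⟩,.k,(.r (-1) ⟨61,[(7,13),(1,23),(7,4),(7,9),(11,0),(4,35)]⟩ ⟨1,[(4,0),(7,0),(3,0),(3,0),(15,
  0)]⟩),⟨false,1,⟨1,[(20,0),(0,0),(20,0)]⟩,⟨0,[]⟩⟩,⟨true,0,⟨0,[(44,0)]⟩,⟨0,[]⟩⟩,⟨true,0,⟨0,[(40,
  0)]⟩,⟨0,[(39,0)]⟩⟩,⟨false,0,⟨0,[(40,0)]⟩,⟨0,[(39,0),(2,0)]⟩⟩,[.e ⟨false,1,⟨1,[(41,0),(0,0)]⟩,⟨0,
  [(44,0)]⟩⟩ ⟨false,1,⟨1,[(20,0),(0,0),(19,0)]⟩,⟨0,[]⟩⟩,.o ⟨false,1,⟨0,[(3,0)]⟩,⟨11,[(1,4),(0,1),(1,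
  4),(6,2),(0,1),(23,3),(0,0),(0,3)]⟩⟩,.e ⟨false,1,⟨0,[(42,0)]⟩,⟨0,[(44,0)]⟩⟩ ⟨false,1,⟨1,[(20,0),
  (0,0),(20,0)]⟩,⟨0,[]⟩⟩,.a ⟨true,0,⟨0,[(5,0),(2,0)]⟩,⟨0,[(1,0),(9,0),(3,0)]⟩⟩ ⟨true,1,⟨1,[(41,0),
  (0,0)]⟩,⟨0,[(12,0),(1,0),(0,0),(22,0)]⟩⟩ ⟨false,1,⟨1,[(41,0),(0,0)]⟩,⟨3,[(4,0),(3,0),(11,0),(7,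
  0)]⟩⟩]⟩) (.Q [0,0,0,0,0,0,0,0,-1,1,0,-1] (.p false [0,0,0,0,1] [1] (⟨0,[(23,0)]⟩,⟨0,[(22,0)]⟩) .k
  1 (⟨0,[]⟩,⟨0,[]⟩) .k .k) (.K ⟨0,[1,1,0,0,-1],0,0,(⟨0,[(23,0),(9,0)]⟩,⟨0,[(1,0),(17,0),(0,0)]⟩),
  (.r (-1) ⟨5,[(5,1),(7,1),(3,1),(3,4),(0,2),(18,1),(1,2)]⟩ ⟨0,[(39,0)]⟩),.k,(.r 0 ⟨5,[(13,4),(2,2),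
  (0,4),(10,1),(9,0),(2,1),(1,2)]⟩ ⟨28,[(8,4),(1,24),(7,9),(7,19),(10,2),(0,1),(1,2)]⟩),(.r (-1) ⟨5,
  [(5,0),(11,5),(3,0),(6,4),(9,0),(2,5),(1,2)]⟩ ⟨57,[(8,45),(4,1),(4,4),(7,9),(10,15),(0,0),(1,
  15)]⟩),.k,[⟨0,[(5,0)]⟩,⟨0,[(0,0)]⟩,⟨1,[(3,1),(33,0),(1,0),(0,0)]⟩,⟨0,[(0,0),(40,0)]⟩]⟩) (.K ⟨0,[1,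
  0,1,0,-1],0,0,(⟨0,[(23,0),(7,0)]⟩,⟨0,[(1,0),(17,0)]⟩),.k,(.r (-1) ⟨61,[(8,41),(1,9),(7,14),(7,29),
  (11,2),(4,45)]⟩ ⟨0,[(27,0),(0,0),(12,0)]⟩),(.r 0 ⟨61,[(8,13),(4,37),(4,4),(7,9),(11,0),(4,35)]⟩
  ⟨1,[(5,0),(4,0),(6,0),(3,0),(15,0)]⟩),.k,.k,[⟨0,[(0,0)]⟩,⟨0,[(6,0),(2,0),(6,0)]⟩,⟨1,[(0,0),(2,0),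
  (23,1),(9,0)]⟩,⟨0,[(6,0),(2,0),(2,0),(3,0)]⟩]⟩)))) (.Q [0,0,0,0,0,0,0,0,0,0,1,-1] (.ed true [1,0,
  -1,0,1] (.r 0 ⟨0,[(13,0),(10,0)]⟩ ⟨61,[(5,7),(4,3),(4,24),(7,49),(11,4),(4,55)]⟩)) (.K ⟨0,[0,0,1,
  0,-1],0,0,(⟨0,[(0,0)]⟩,⟨0,[(22,0),(5,0)]⟩),.k,(.r (-1) ⟨61,[(6,41),(1,9),(7,14),(7,29),(11,2),(4,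
  45)]⟩ ⟨0,[(25,0),(0,0),(12,0)]⟩),(.r 0 ⟨61,[(6,13),(4,37),(4,4),(7,9),(11,0),(4,35)]⟩ ⟨1,[(3,0),
  (4,0),(6,0),(3,0),(15,0)]⟩),.k,.k,[⟨0,[(20,0)]⟩,⟨5,[(1,5),(5,3),(6,2),(11,2),(9,1),(5,0)]⟩,⟨0,
  [(20,0),(4,0),(17,0)]⟩,⟨8,[(1,8),(4,5),(0,0),(3,2),(2,1),(11,6),(9,1)]⟩]⟩) (.K ⟨0,[1,1,0,0,-1],0,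
  0,(⟨0,[(21,0),(9,0)]⟩,⟨0,[(0,0),(17,0)]⟩),(.r (-1) ⟨5,[(3,1),(7,1),(3,1),(3,4),(0,2),(18,1),(1,
  2)]⟩ ⟨0,[(37,0)]⟩),.k,(.r 0 ⟨5,[(11,4),(2,2),(0,4),(10,1),(9,0),(2,1),(1,2)]⟩ ⟨28,[(6,4),(1,24),
  (7,9),(7,19),(10,2),(0,1),(1,2)]⟩),(.r (-1) ⟨5,[(3,0),(11,5),(3,0),(6,4),(9,0),(2,5),(1,2)]⟩ ⟨57,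
  [(6,45),(4,1),(4,4),(7,9),(10,15),(0,0),(1,15)]⟩),.k,[⟨0,[(3,0)]⟩,⟨2,[(1,1),(5,0),(11,0)]⟩,⟨23,
  [(3,23),(2,11),(4,1),(1,13),(2,4),(18,15),(0,0),(1,1)]⟩,⟨3,[(1,2),(9,0),(3,0),(3,0),(6,0),(12,
  1)]⟩]⟩))) (.Q [0,2,0,0,-1,0,0,0,1,-1,0,1] (.p true [0,0,0,0,1] [1] (⟨0,[(20,0)]⟩,⟨0,[(19,0)]⟩) .k
  1 (⟨0,[]⟩,⟨0,[]⟩) .k .k) (.K ⟨0,[1,0,0,0,-1],0,1,(⟨0,[(20,0)]⟩,⟨0,[(21,0)]⟩),.k,(.r (-1) ⟨61,[(5,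
  13),(1,23),(7,4),(7,9),(11,0),(4,35)]⟩ ⟨1,[(2,0),(7,0),(3,0),(3,0),(15,0)]⟩),(.r (-1) ⟨5,[(2,1),
  (7,1),(3,1),(3,4),(0,2),(18,1),(1,2)]⟩ ⟨0,[(36,0)]⟩),.k,.k,[⟨11,[(1,9),(0,1),(10,9),(21,1),(3,0),
  (0,4)]⟩,⟨0,[(3,0),(2,0)]⟩,⟨0,[(0,0)]⟩,⟨0,[(18,0),(3,0),(2,0)]⟩]⟩) (.Q [0,0,0,0,0,-1,0,0,0,0,0,1]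
  (.ed false [1,-1,0,0,1] .k) (.K ⟨0,[0,-1,0,0,1],(-1),(-1),(⟨0,[(0,0)]⟩,⟨0,[(21,0),(9,0)]⟩),(.r 0
  ⟨0,[(37,0)]⟩ ⟨5,[(3,1),(7,1),(3,1),(3,4),(0,2),(18,1),(1,2)]⟩),(.r (-1) ⟨28,[(6,4),(1,24),(7,9),
  (7,19),(10,2),(0,1),(1,2)]⟩ ⟨5,[(1,1),(1,1),(7,4),(2,2),(0,4),(20,0),(2,1),(1,0)]⟩),.k,(.r (-1)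
  ⟨1,[(3,0),(4,0),(6,0),(3,0),(15,0)]⟩ ⟨61,[(6,13),(4,37),(4,4),(7,9),(11,0),(4,35)]⟩),.k,[⟨0,[(4,
  0),(9,0)]⟩,⟨11,[(2,9),(0,1),(3,10),(8,0),(19,1),(4,4)]⟩,⟨0,[(19,0),(19,0)]⟩,⟨0,[(2,0),(35,0)]⟩]⟩)
  (.K ⟨0,[1,0,-1,0,-1],0,1,(⟨0,[(0,0),(16,0)]⟩,⟨0,[(22,0),(6,0)]⟩),.k,(.r (-2) ⟨3,[(3,1),(4,1),(6,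
  1),(3,2),(0,0),(19,0),(0,1)]⟩ ⟨0,[(11,0),(25,0)]⟩),(.r (-1) ⟨5,[(1,2),(1,3),(11,5),(3,0),(6,1),(9,
  0),(2,5)]⟩ ⟨57,[(6,45),(4,1),(4,4),(7,9),(10,15),(0,0),(1,15)]⟩),.k,.k,[⟨11,[(2,9),(0,1),(10,21),
  (21,1),(3,0),(0,4)]⟩,⟨6,[(1,2),(2,3),(1,1),(0,2),(3,3),(1,5),(9,0)]⟩,⟨4,[(2,4),(3,0),(4,1),(2,2),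
  (9,1),(11,0),(0,2)]⟩,⟨0,[(15,0),(3,0)]⟩]⟩))))) (.K ⟨0,[0,0,0,0,1],(-1),(-1),(⟨0,[(18,0)]⟩,⟨0,[(17,
  0)]⟩),.k,(.r 0 ⟨0,[(33,0)]⟩ ⟨29,[(7,9),(3,9),(3,20),(0,20),(5,9),(9,1),(2,9),(1,14)]⟩),(.r 0 ⟨2,
  [(7,0),(7,0),(0,0),(4,0),(0,0),(12,0),(3,1)]⟩ ⟨61,[(2,13),(1,23),(7,4),(7,9),(11,0),(4,35)]⟩),.k,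
  .k,[⟨0,[(10,0),(4,0)]⟩,⟨0,[(0,0)]⟩,⟨0,[(15,0)]⟩,⟨0,[(0,0),(30,0)]⟩]⟩)))))))))) (.R ⟨2,true,false,
  false,[0,1],[0,1,1],[1,0,1],(⟨0,[]⟩,⟨0,[]⟩),(⟨0,[(16,0),(1,0)]⟩,⟨0,[(4,0)]⟩),⟨0,[]⟩,.k,.k,.k,.k,
  .k,.k,⟨false,1,⟨9,[(1,9),(0,9),(20,1),(0,7),(0,1),(1,0),(0,4)]⟩,⟨0,[(0,0),(13,0),(9,0),(1,0)]⟩⟩,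
  ⟨true,0,⟨0,[(1,0)]⟩,⟨0,[(14,0)]⟩⟩,⟨false,1,⟨0,[(25,0),(2,0)]⟩,⟨0,[(26,0)]⟩⟩,⟨true,0,⟨0,[(0,0),(24,
  0)]⟩,⟨0,[(12,0)]⟩⟩,⟨true,0,⟨0,[]⟩,⟨0,[(30,0)]⟩⟩,⟨false,0,⟨0,[(0,0)]⟩,⟨9,[(2,9),(3,0),(0,0),(15,1),
  (1,9),(2,4)]⟩⟩,[]⟩))

theorem ok40 : chk K t40 r1 = true := by decide +kernel


end Helper25.S1T.Ypp_1cP2
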