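import Pool.Agent.Helper25.S1T.Ypp_1cP2_q

set_option autoImplicit false
set_option linter.all false

namespace Helper25.S1T.Ypp_1cP2

open Helper25.KG Helper25.KW Helper55.KE Helper11.CT

noncomputable def t0 : Tre :=
  (.Q [0,0,0,0,0,0,-1,0,0,0,-1] (.p false [0,0,1] [] (⟨0,[(14,0)]⟩,⟨0,[(13,0)]⟩) .k 0 (⟨0,[]⟩,⟨0,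
  []⟩) .k .k) (.S ⟨1,0,[0,0,0,0,0,0,0,1],[0,0,1],[0,1,0,0,0,0,0,1],(⟨0,[(15,0)]⟩,⟨0,[(14,0)]⟩),⟨0,
  [(4,0)]⟩,.k,.k,⟨true,0,⟨0,[(29,0)]⟩,⟨0,[]⟩⟩,⟨false,1,⟨1,[(5,0),(0,0),(20,0)]⟩,⟨0,[]⟩⟩,⟨false,0,⟨0,
  [(25,0)]⟩,⟨0,[(24,0),(2,0)]⟩⟩,⟨true,0,⟨0,[(25,0)]⟩,⟨0,[(24,0)]⟩⟩,[.o ⟨false,0,⟨0,[(1,0)]⟩,⟨1,[(5,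
  0),(0,0),(4,1),(15,0)]⟩⟩,.o ⟨false,1,⟨8,[(1,3),(8,4),(11,0),(4,6)]⟩,⟨0,[(11,0)]⟩⟩,.o ⟨false,1,⟨9,
  [(5,0),(0,0),(5,9),(9,1),(3,4)]⟩,⟨0,[(0,0)]⟩⟩,.a ⟨true,0,⟨0,[(12,0)]⟩,⟨0,[(9,0)]⟩⟩ ⟨false,0,⟨0,
  [(1,0),(7,0)]⟩,⟨0,[(11,0),(0,0),(14,0)]⟩⟩ ⟨true,0,⟨0,[(1,0),(7,0)]⟩,⟨0,[(11,0),(0,0)]⟩⟩]⟩) (.S ⟨1,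
  0,[0,1,0,0,0,0,0,-1],[1,0,-1],[0,0,0,0,0,0,0,-1],(⟨0,[(14,0)]⟩,⟨0,[(15,0)]⟩),⟨0,[(3,0)]⟩,.k,.k,
  ⟨false,1,⟨1,[(5,0),(0,0),(20,0)]⟩,⟨0,[]⟩⟩,⟨true,0,⟨0,[(29,0)]⟩,⟨0,[]⟩⟩,⟨true,0,⟨0,[(25,0)]⟩,⟨0,
  [(24,0)]⟩⟩,⟨false,0,⟨0,[(25,0)]⟩,⟨0,[(24,0),(2,0)]⟩⟩,[.o ⟨false,0,⟨0,[(11,0)]⟩,⟨8,[(1,3),(8,4),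
  (11,0),(4,6)]⟩⟩,.o ⟨false,1,⟨1,[(5,0),(0,0),(4,1),(15,0)]⟩,⟨0,[(1,0)]⟩⟩,.a ⟨true,0,⟨1,[(2,0),(6,
  0),(2,0)]⟩,⟨0,[(0,0)]⟩⟩ ⟨false,1,⟨0,[(0,0),(10,0),(15,0)]⟩,⟨1,[(1,1),(0,0),(6,0),(2,0)]⟩⟩ ⟨true,0,
  ⟨0,[(0,0),(10,0)]⟩,⟨1,[(1,1),(0,0),(6,0),(2,0)]⟩⟩,.o ⟨false,0,⟨0,[(13,0)]⟩,⟨4,[(0,3),(11,0),(9,0),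
  (3,2)]⟩⟩]⟩))

theorem ok0 : chk K t0 l0 = true := by decide +kernel

noncomputable def t1 : Tre :=
  (.R ⟨2,true,false,true,[0,1],[0,0,1],[1,1,1],(⟨0,[]⟩,⟨0,[]⟩),(⟨0,[(16,0)]⟩,⟨0,[(15,0)]⟩),⟨0,[]⟩,
  .k,.k,.k,.k,.k,.k,⟨false,0,⟨0,[(0,0),(12,0),(10,0)]⟩,⟨5,[(3,0),(6,3),(0,5),(11,0),(3,0),(0,2)]⟩⟩,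
  ⟨true,0,⟨0,[(13,0)]⟩,⟨0,[(1,0)]⟩⟩,⟨true,0,⟨0,[(25,0)]⟩,⟨0,[(26,0)]⟩⟩,⟨false,1,⟨0,[(11,0),(13,0),
  (2,0)]⟩,⟨0,[(0,0)]⟩⟩,⟨false,0,⟨0,[]⟩,⟨1,[(6,0),(0,0),(20,0)]⟩⟩,⟨true,0,⟨0,[(11,0)]⟩,⟨0,[(0,0),(24,
  0)]⟩⟩,[]⟩)

theorem ok1 : chk K t1 l2 = true := by decide +kernel

noncomputable def t2 : Tre :=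
  (.S ⟨1,0,[0,0,0,0,0,0,0,1],[0,0,1],[1,1,0,-1,0,0,0,1],(⟨0,[(19,0)]⟩,⟨0,[(18,0)]⟩),⟨0,[(8,0)]⟩,.k,
  .k,⟨true,0,⟨0,[(28,0)]⟩,⟨0,[(29,0)]⟩⟩,⟨false,1,⟨1,[(9,0),(0,0),(20,0)]⟩,⟨0,[]⟩⟩,⟨false,0,⟨0,[]⟩,
  ⟨1,[(9,0),(0,0),(20,0)]⟩⟩,⟨true,0,⟨0,[(29,0)]⟩,⟨0,[(28,0)]⟩⟩,[.o ⟨false,1,⟨20,[(0,10),(8,5),(0,5),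
  (3,9),(11,1),(6,0)]⟩,⟨0,[(2,0)]⟩⟩,.o ⟨false,1,⟨0,[(0,0)]⟩,⟨0,[(15,0)]⟩⟩,.o ⟨false,1,⟨9,[(9,0),(0,
  0),(5,9),(9,1),(3,4)]⟩,⟨0,[(4,0)]⟩⟩,.a ⟨true,0,⟨0,[(16,0)]⟩,⟨0,[(13,0)]⟩⟩ ⟨true,0,⟨0,[(1,0)]⟩,⟨0,
  [(2,0),(13,0),(12,0)]⟩⟩ ⟨false,1,⟨0,[(0,0),(12,0)]⟩,⟨0,[(2,0),(13,0)]⟩⟩]⟩)

theorem ok2 : chk K t2 l5 = true := by decide +kernel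

noncomputable def t3 : Tre :=
  (.S ⟨1,0,[0,0,0,0,0,0,0,1],[0,0,1],[1,1,0,-1,0,0,0,1],(⟨0,[(20,0)]⟩,⟨0,[(19,0)]⟩),⟨0,[(9,0)]⟩,.k,
  .k,⟨true,0,⟨0,[(29,0)]⟩,⟨0,[(30,0)]⟩⟩,⟨false,1,⟨1,[(10,0),(0,0),(20,0)]⟩,⟨0,[]⟩⟩,⟨false,0,⟨0,[]⟩,
  ⟨1,[(10,0),(0,0),(20,0)]⟩⟩,⟨true,0,⟨0,[(30,0)]⟩,⟨0,[(29,0)]⟩⟩,[.o ⟨false,1,⟨9,[(10,0),(0,0),(3,9),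
  (11,1),(4,4)]⟩,⟨0,[(3,0)]⟩⟩,.e ⟨false,1,⟨13,[(2,3),(1,9),(2,4),(19,0),(3,4),(0,6)]⟩,⟨0,[(0,0)]⟩⟩
  ⟨false,1,⟨0,[(2,0),(27,0),(1,0)]⟩,⟨0,[(0,0),(28,0)]⟩⟩,.o ⟨false,1,⟨9,[(10,0),(0,0),(5,9),(9,1),(3,
  4)]⟩,⟨0,[(5,0)]⟩⟩,.a ⟨true,0,⟨0,[(17,0)]⟩,⟨0,[(14,0)]⟩⟩ ⟨true,0,⟨0,[(2,0)]⟩,⟨1,[(0,1),(16,0),(0,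
  0)]⟩⟩ ⟨false,1,⟨0,[(2,0),(27,0),(1,0)]⟩,⟨0,[(3,0),(13,0)]⟩⟩]⟩)

theorem ok3 : chk K t3 l6 = true := by decide +kernel

noncomputable def t4 : Tre :=
  (.Q [0,0,0,1,-1,0,0,0,1,0,0,1] (.p true [0,0,0,0,1] [] (⟨0,[(13,0)]⟩,⟨0,[(12,0)]⟩) .k 0 (⟨0,[]⟩,
  ⟨0,[]⟩) .k .k) (.Q [0,1,0,0,-1,0,0,0,1,-1,0,1] (.p true [0,0,0,0,1] [1] (⟨0,[(14,0)]⟩,⟨0,[(13,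
  0)]⟩) .k 1 (⟨0,[]⟩,⟨0,[]⟩) .k .k) (.R ⟨1,false,false,true,[0,0,1],[1,0,0,0,-1],[1,0,0,-1,0,0,0,1],
  (⟨0,[(22,0)]⟩,⟨0,[(21,0)]⟩),(⟨0,[(14,0)]⟩,⟨0,[(15,0)]⟩),⟨0,[(11,0)]⟩,.k,.k,.k,.k,(.r 0 ⟨0,[(2,0),
  (27,0),(1,0)]⟩ ⟨9,[(8,9),(3,0),(0,0),(5,9),(9,1),(2,9),(1,4)]⟩),.k,⟨true,0,⟨0,[(2,0)]⟩,⟨0,[(5,0),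
  (13,0),(12,0)]⟩⟩,⟨false,1,⟨0,[(12,0),(3,0)]⟩,⟨1,[(0,1),(18,1),(13,0),(0,0)]⟩⟩,⟨false,1,⟨0,[(31,0),
  (2,0)]⟩,⟨0,[(32,0)]⟩⟩,⟨false,1,⟨0,[(3,0),(8,0),(21,0)]⟩,⟨9,[(1,8),(4,8),(6,0),(3,0),(11,1),(4,
  4)]⟩⟩,⟨true,0,⟨0,[]⟩,⟨0,[(36,0)]⟩⟩,⟨false,1,⟨0,[(3,0),(8,0),(19,0),(1,0)]⟩,⟨0,[(0,0),(5,0),(27,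
  0)]⟩⟩,[.o ⟨false,1,⟨0,[(12,0)]⟩,⟨8,[(0,3),(12,4),(15,0),(4,1)]⟩⟩,.o ⟨false,2,⟨1,[(12,2),(0,0),(20,
  0)]⟩,⟨0,[(0,0)]⟩⟩,.o ⟨false,1,⟨9,[(12,0),(0,0),(5,9),(9,1),(3,4)]⟩,⟨0,[(7,0)]⟩⟩,.a ⟨true,0,⟨0,
  [(19,0)]⟩,⟨0,[(16,0)]⟩⟩ ⟨false,1,⟨0,[(4,0),(29,0)]⟩,⟨0,[(5,0),(13,0),(12,0)]⟩⟩ ⟨true,1,⟨0,[(12,0),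
  (3,0)]⟩,⟨0,[(0,0),(18,0)]⟩⟩]⟩) (.Q [0,1,0,1,-1,0,0,0,1,-1,0,1] (.p true [0,0,0,0,1] [1] (⟨0,[(15,
  0)]⟩,⟨0,[(14,0)]⟩) .k 1 (⟨0,[]⟩,⟨0,[]⟩) .k .k) (.R ⟨2,true,false,false,[0,1],[1,0,0,0,-1],[1,1,1],
  (⟨0,[]⟩,⟨0,[]⟩),(⟨0,[(15,0)]⟩,⟨0,[(16,0)]⟩),⟨0,[]⟩,.k,.k,.k,(.r 0 ⟨1,[(20,0),(0,0),(11,1),(3,1)]⟩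
  ⟨0,[(31,0),(3,0)]⟩),.k,.k,⟨true,(-1),⟨0,[(0,0),(2,0),(0,0),(8,0),(6,0)]⟩,⟨0,[(35,0)]⟩⟩,⟨false,1,
  ⟨0,[(1,0),(35,0)]⟩,⟨19,[(2,17),(11,1),(15,3),(0,17),(2,0),(0,8)]⟩⟩,⟨true,0,⟨0,[(32,0)]⟩,⟨0,[(33,
  0)]⟩⟩,⟨false,2,⟨0,[(1,0),(30,0),(2,0)]⟩,⟨0,[(0,0)]⟩⟩,⟨false,0,⟨0,[]⟩,⟨8,[(1,4),(12,4),(15,0),(4,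
  1)]⟩⟩,⟨true,1,⟨0,[(1,0)]⟩,⟨0,[(0,0),(31,0)]⟩⟩,[]⟩) (.Q [0,0,0,0,0,0,0,0,0,-1,1,1] (.ed false [0,0,
  1,0,1] (.r 0 ⟨0,[(8,0),(9,0)]⟩ ⟨1,[(6,1),(13,1),(13,0),(0,0)]⟩)) (.S ⟨1,0,[0,1],[0,0,0,0,1],[0,2],
  (⟨0,[(17,0)]⟩,⟨0,[(16,0)]⟩),⟨0,[(0,0),(11,0)]⟩,.k,(.r 0 ⟨0,[(32,0)]⟩ ⟨17,[(2,9),(12,9),(5,8),(0,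
  8),(8,1),(2,17),(1,3)]⟩),⟨true,0,⟨0,[(38,0)]⟩,⟨0,[]⟩⟩,⟨false,1,⟨8,[(2,4),(12,4),(15,0),(4,1)]⟩,⟨0,
  []⟩⟩,⟨false,0,⟨0,[(34,0)]⟩,⟨0,[(33,0),(2,0)]⟩⟩,⟨true,0,⟨0,[(34,0)]⟩,⟨0,[(33,0)]⟩⟩,[.e ⟨false,0,⟨0,
  [(30,0)]⟩,⟨0,[(36,0)]⟩⟩ ⟨false,0,⟨0,[(32,0),(1,0)]⟩,⟨8,[(2,4),(12,4),(15,0),(4,1)]⟩⟩,.o ⟨false,0,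
  ⟨4,[(3,3),(11,0),(15,0),(1,3),(2,1)]⟩,⟨0,[(14,0)]⟩⟩,.o ⟨false,0,⟨4,[(3,3),(11,0),(15,0),(1,3),(2,
  1)]⟩,⟨0,[(14,0)]⟩⟩,.a ⟨true,(-1),⟨0,[(3,0),(0,0),(2,0),(13,0)]⟩,⟨0,[(2,0),(29,0),(1,0)]⟩⟩ ⟨false,
  0,⟨0,[(32,0),(1,0)]⟩,⟨1,[(21,0),(0,0),(13,1)]⟩⟩ ⟨true,0,⟨0,[(32,0),(1,0)]⟩,⟨1,[(21,0),(0,0)]⟩⟩]⟩)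
  (.R ⟨1,false,false,false,[0,0,1],[0,0,1,0,1],[1,1,1],(⟨0,[(24,0)]⟩,⟨0,[(23,0)]⟩),(⟨0,[(17,0),(6,
  0)]⟩,⟨0,[(0,0)]⟩),⟨0,[(13,0)]⟩,.k,.k,.k,.k,(.r (-1) ⟨0,[(32,0),(3,0)]⟩ ⟨1,[(21,0),(0,0),(11,1),(3,
  1)]⟩),.k,⟨true,0,⟨0,[(7,0),(13,0)]⟩,⟨0,[(4,0),(29,0)]⟩⟩,⟨false,0,⟨3,[(3,1),(11,1),(16,1),(2,0),(0,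
  0)]⟩,⟨0,[(14,0)]⟩⟩,⟨false,0,⟨0,[(7,0),(13,0)]⟩,⟨0,[(6,0),(27,0),(1,0)]⟩⟩,⟨true,(-1),⟨0,[(3,0),(29,
  0)]⟩,⟨0,[(14,0)]⟩⟩,⟨false,0,⟨0,[(7,0),(13,0),(12,0)]⟩,⟨0,[(6,0),(29,0)]⟩⟩,⟨false,(-1),⟨0,[(3,0)]⟩,
  ⟨24,[(1,24),(12,13),(0,13),(15,4),(4,0),(1,1)]⟩⟩,[.e ⟨false,0,⟨0,[(38,0)]⟩,⟨1,[(35,0),(0,0)]⟩⟩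
  ⟨false,(-1),⟨0,[(3,0),(2,0)]⟩,⟨3,[(2,3),(4,2),(2,0),(10,3),(9,0),(3,1)]⟩⟩,.o ⟨false,0,⟨9,[(3,8),
  (4,8),(6,0),(3,0),(11,1),(4,4)]⟩,⟨0,[(7,0),(6,0)]⟩⟩,.o ⟨false,1,⟨9,[(14,0),(0,0),(5,9),(9,1),(3,
  4)]⟩,⟨0,[(9,0)]⟩⟩,.a ⟨true,0,⟨0,[(21,0)]⟩,⟨0,[(18,0)]⟩⟩ ⟨false,0,⟨0,[]⟩,⟨8,[(2,4),(12,4),(15,0),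
  (4,1)]⟩⟩ ⟨true,(-1),⟨0,[(3,0),(2,0)]⟩,⟨0,[(7,0),(6,0),(6,0)]⟩⟩]⟩)))) (.Q [0,0,1,0,0,0,0,0,1,-1,0,
  1] (.p true [0,0,0,0,1] [1] (⟨0,[(14,0)]⟩,⟨0,[(13,0)]⟩) .k 1 (⟨0,[]⟩,⟨0,[]⟩) .k .k) (.Q [0,0,0,0,
  0,0,0,0,-1,1,0,-1] (.p false [0,0,0,0,1] [1] (⟨0,[(15,0)]⟩,⟨0,[(14,0)]⟩) .k 1 (⟨0,[]⟩,⟨0,[]⟩) .k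
  .k) (.Q [0,0,0,0,0,-1,0,0,0,0,0,1] (.ed false [1,-1,0,0,1] .k) (.S ⟨1,0,[0,2],[0,0,0,0,1],[1,1,0,
  -1],(⟨0,[(17,0)]⟩,⟨0,[(16,0)]⟩),⟨0,[(0,0)]⟩,.k,(.r 0 ⟨0,[(32,0)]⟩ ⟨5,[(2,1),(8,1),(2,2),(0,0),(5,
  3),(12,5),(1,2)]⟩),⟨false,1,⟨0,[(33,0),(2,0)]⟩,⟨0,[(34,0)]⟩⟩,⟨true,0,⟨0,[(38,0)]⟩,⟨0,[]⟩⟩,⟨true,0,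
  ⟨0,[]⟩,⟨0,[(38,0)]⟩⟩,⟨false,0,⟨0,[(34,0)]⟩,⟨0,[(33,0),(2,0)]⟩⟩,[.e ⟨false,0,⟨0,[(32,0)]⟩,⟨1,[(14,
  0),(0,0),(18,1),(1,0)]⟩⟩ ⟨false,0,⟨0,[(30,0)]⟩,⟨0,[(36,0)]⟩⟩,.o ⟨false,0,⟨0,[(2,0),(29,0),(1,0)]⟩,
  ⟨5,[(1,4),(12,0),(16,0),(4,2)]⟩⟩,.a ⟨true,0,⟨0,[(15,0)]⟩,⟨0,[(1,0)]⟩⟩ ⟨true,0,⟨0,[(33,0)]⟩,⟨0,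
  [(34,0)]⟩⟩ ⟨false,0,⟨0,[(38,0)]⟩,⟨0,[(36,0)]⟩⟩,.o ⟨false,0,⟨0,[(2,0)]⟩,⟨5,[(1,4),(12,0),(16,0),(3,
  2)]⟩⟩]⟩) (.Q [0,1,0,0,0,0,1,1,1,-1,1,1] (.p true [0,0,1,0,1] [1] (⟨0,[(17,0),(6,0)]⟩,⟨0,[(0,0),
  (11,0)]⟩) .k 1 (⟨0,[]⟩,⟨0,[]⟩) .k (.r 0 ⟨0,[(9,0),(9,0)]⟩ ⟨1,[(7,1),(13,1),(13,0),(0,0)]⟩)) (.R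
  ⟨0,false,false,false,[0,0,0,0,1],[0,0,1,0,1],[1,1,1],(⟨0,[(18,0)]⟩,⟨0,[(17,0)]⟩),(⟨0,[(18,0),(6,
  0)]⟩,⟨0,[(1,0),(11,0)]⟩),⟨0,[(1,0)]⟩,.k,.k,(.r 0 ⟨0,[(33,0)]⟩ ⟨5,[(3,1),(8,1),(2,2),(0,0),(5,3),
  (12,5),(1,2)]⟩),.k,.k,.k,⟨true,0,⟨0,[(8,0),(13,0)]⟩,⟨0,[(5,0),(29,0)]⟩⟩,⟨false,1,⟨0,[(22,0),(13,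
  0)]⟩,⟨0,[(10,0)]⟩⟩,⟨true,0,⟨1,[(22,0),(0,0)]⟩,⟨0,[(33,0),(1,0)]⟩⟩,⟨false,1,⟨0,[(20,0),(16,0)]⟩,⟨0,
  [(8,0)]⟩⟩,⟨false,0,⟨0,[]⟩,⟨0,[]⟩⟩,⟨false,0,⟨0,[]⟩,⟨0,[]⟩⟩,[.o ⟨false,0,⟨0,[(0,0)]⟩,⟨5,[(2,4),(5,
  5),(6,0),(16,0),(4,2)]⟩⟩,.e ⟨false,0,⟨0,[]⟩,⟨1,[(15,0),(0,0),(19,0)]⟩⟩ ⟨false,1,⟨1,[(20,1),(15,0),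
  (0,0)]⟩,⟨0,[(8,0)]⟩⟩,.a ⟨true,0,⟨0,[(16,0)]⟩,⟨0,[(2,0)]⟩⟩ ⟨false,0,⟨1,[(22,0),(0,0)]⟩,⟨1,[(36,0),
  (0,0)]⟩⟩ ⟨true,0,⟨0,[(20,0)]⟩,⟨0,[(8,0)]⟩⟩,.o ⟨false,0,⟨0,[(3,0)]⟩,⟨5,[(2,4),(12,0),(16,0),(3,
  2)]⟩⟩]⟩) (.R ⟨0,false,false,false,[0,0,0,0,1],[1,0,-1],[],(⟨0,[(18,0)]⟩,⟨0,[(17,0)]⟩),(⟨0,[(24,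
  0)]⟩,⟨0,[(25,0)]⟩),⟨0,[(1,0)]⟩,.k,.k,(.r 0 ⟨0,[(33,0)]⟩ ⟨5,[(3,1),(8,1),(2,2),(0,0),(5,3),(12,5),
  (1,2)]⟩),.k,.k,.k,⟨true,0,⟨0,[(5,0),(29,0)]⟩,⟨0,[(8,0),(13,0)]⟩⟩,⟨false,0,⟨0,[(0,0),(6,0),(27,
  0)]⟩,⟨9,[(15,0),(0,10),(5,9),(9,1),(3,4)]⟩⟩,⟨false,1,⟨0,[(37,0)]⟩,⟨0,[(39,0)]⟩⟩,⟨true,0,⟨0,[(0,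
  0)]⟩,⟨0,[(3,0),(16,0),(12,0),(1,0)]⟩⟩,⟨false,0,⟨0,[]⟩,⟨0,[]⟩⟩,⟨false,0,⟨0,[]⟩,⟨0,[]⟩⟩,[.o ⟨false,
  0,⟨0,[(8,0)]⟩,⟨9,[(15,0),(0,0),(3,9),(11,1),(4,4)]⟩⟩,.a ⟨true,0,⟨0,[(6,0),(30,0)]⟩,⟨0,[(20,0)]⟩⟩
  ⟨false,1,⟨1,[(36,0),(0,0)]⟩,⟨0,[(39,0)]⟩⟩ ⟨true,0,⟨0,[(0,0)]⟩,⟨0,[(3,0),(16,0)]⟩⟩,.e ⟨false,1,⟨1,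
  [(15,0),(0,0),(20,0)]⟩,⟨0,[]⟩⟩ ⟨false,0,⟨0,[(0,0)]⟩,⟨9,[(15,0),(0,10),(3,9),(11,1),(4,4)]⟩⟩,.o
  ⟨false,0,⟨0,[(3,0)]⟩,⟨5,[(2,4),(12,0),(16,0),(3,2)]⟩⟩]⟩))) (.Q [0,1,0,0,-1,0,0,0,1,0,0,1] (.p
  true [0,0,0,0,1] [] (⟨0,[(16,0)]⟩,⟨0,[(15,0)]⟩) .k 0 (⟨0,[]⟩,⟨0,[]⟩) .k .k) (.Q [0,0,1,0,-1,0,-1,
  0,0,1,-1] (.p false [0,0,1] [1] (⟨0,[(24,0)]⟩,⟨0,[(23,0)]⟩) .k 1 (⟨0,[]⟩,⟨0,[]⟩) .k .k) (.I [0,1,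
  -1,0,0,0,0,-1] (.S ⟨1,0,[0,0,0,0,0,0,0,-1],[1,0,-1],[0,1,0,0,0,0,0,-1],(⟨0,[(25,0)]⟩,⟨0,[(26,
  0)]⟩),⟨0,[(14,0)]⟩,.k,.k,⟨true,0,⟨0,[(40,0)]⟩,⟨0,[]⟩⟩,⟨false,1,⟨1,[(16,0),(0,0),(20,0)]⟩,⟨0,[]⟩⟩,
  ⟨false,0,⟨0,[(36,0)]⟩,⟨0,[(35,0),(2,0)]⟩⟩,⟨true,0,⟨0,[(36,0)]⟩,⟨0,[(35,0)]⟩⟩,[.o ⟨false,0,⟨0,[(9,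
  0)]⟩,⟨9,[(16,0),(0,0),(3,9),(11,1),(4,4)]⟩⟩,.e ⟨false,1,⟨1,[(0,1),(15,0),(0,0),(20,0)]⟩,⟨0,[(6,0),
  (29,0)]⟩⟩ ⟨false,1,⟨0,[(0,0),(37,0)]⟩,⟨9,[(1,1),(6,1),(4,2),(7,7),(11,0),(2,1)]⟩⟩,.o ⟨false,0,⟨0,
  [(11,0)]⟩,⟨9,[(16,0),(0,0),(5,9),(9,1),(3,4)]⟩⟩,.a ⟨true,(-1),⟨0,[(1,0)]⟩,⟨0,[(23,0),(13,0)]⟩⟩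
  ⟨true,0,⟨0,[(0,0)]⟩,⟨5,[(1,4),(19,5),(2,0),(8,0),(4,2)]⟩⟩ ⟨false,1,⟨0,[(0,0),(37,0)]⟩,⟨5,[(1,4),
  (19,5),(2,0),(8,0),(4,2)]⟩⟩]⟩) (.Q [0,-1,0,1,1,0,1,1,0,-1,1] (.p true [0,0,1] [1] (⟨0,[(26,0)]⟩,
  ⟨0,[(25,0)]⟩) .k 1 (⟨0,[]⟩,⟨0,[]⟩) .k .k) (.R ⟨2,true,false,true,[0,1],[1,0,-1],[1,1,1],(⟨0,[]⟩,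
  ⟨0,[]⟩),(⟨0,[(26,0)]⟩,⟨0,[(27,0)]⟩),⟨0,[]⟩,.k,.k,.k,.k,.k,.k,⟨false,0,⟨1,[(1,0),(7,0),(27,0)]⟩,⟨0,
  [(10,0),(13,0),(13,0)]⟩⟩,⟨true,(-1),⟨0,[(2,0)]⟩,⟨9,[(17,0),(0,0),(5,9),(9,1),(3,4)]⟩⟩,⟨true,0,⟨0,
  [(36,0)]⟩,⟨0,[(37,0)]⟩⟩,⟨false,0,⟨0,[(8,0),(27,0),(2,0)]⟩,⟨0,[(0,0)]⟩⟩,⟨false,0,⟨0,[]⟩,⟨1,[(17,0),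
  (0,0),(20,0)]⟩⟩,⟨true,(-1),⟨0,[(8,0)]⟩,⟨20,[(0,10),(5,5),(4,4),(6,5),(3,4),(11,1),(6,0)]⟩⟩,[]⟩)
  (.I [0,-1,-1,0,1,0,0,-1] (.S ⟨1,0,[0,1,0,0,0,0,0,-1],[1,0,-1],[0,0,0,0,0,0,0,-1],(⟨0,[(27,0)]⟩,⟨0,
  [(28,0)]⟩),⟨0,[(16,0)]⟩,.k,.k,⟨false,1,⟨1,[(18,0),(0,0),(20,0)]⟩,⟨0,[]⟩⟩,⟨true,0,⟨0,[(42,0)]⟩,⟨0,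
  []⟩⟩,⟨true,0,⟨0,[(38,0)]⟩,⟨0,[(37,0)]⟩⟩,⟨false,0,⟨0,[(38,0)]⟩,⟨0,[(37,0),(2,0)]⟩⟩,[.a ⟨true,(-1),
  ⟨0,[(9,0)]⟩,⟨0,[(23,0),(16,0)]⟩⟩ ⟨false,1,⟨5,[(0,4),(17,0),(0,0),(4,0),(0,0),(8,1)]⟩,⟨1,[(2,0),(7,
  0),(27,0)]⟩⟩ ⟨true,0,⟨8,[(0,2),(8,4),(14,0),(0,5),(8,2),(0,0)]⟩,⟨0,[(2,0)]⟩⟩,.o ⟨false,0,⟨0,[(11,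
  0)]⟩,⟨9,[(18,0),(0,0),(3,9),(11,1),(4,4)]⟩⟩,.o ⟨false,0,⟨0,[(13,0)]⟩,⟨9,[(0,4),(17,0),(0,0),(3,4),
  (1,4),(9,1)]⟩⟩,.e ⟨false,1,⟨0,[(0,0)]⟩,⟨1,[(2,0),(20,0),(2,0)]⟩⟩ ⟨false,1,⟨5,[(0,4),(17,0),(0,0),
  (4,0),(0,0),(8,1)]⟩,⟨0,[(2,0)]⟩⟩]⟩) (.Q [0,-1,0,1,1,0,0,0,-1,0,0,-1] (.p false [0,0,0,0,1] [] (⟨0,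
  [(21,0)]⟩,⟨0,[(20,0)]⟩) .k 0 (⟨0,[]⟩,⟨0,[]⟩) .k .k) (.Q [0,0,0,0,0,-1,0,0,0,1,0,-1] (.ed true [0,
  1,0,0,1] .k) (.S ⟨1,0,[0,-1],[1,0,0,0,-1],[1,0,0,-1],(⟨0,[(22,0)]⟩,⟨0,[(23,0)]⟩),⟨0,[(0,0)]⟩,.k,
  (.r (-1) ⟨0,[(38,0),(3,0)]⟩ ⟨1,[(27,0),(0,0),(11,1),(3,1)]⟩),⟨true,0,⟨0,[(39,0)]⟩,⟨0,[(40,0)]⟩⟩,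
  ⟨false,1,⟨1,[(20,0),(0,0),(20,0)]⟩,⟨0,[]⟩⟩,⟨false,0,⟨0,[]⟩,⟨1,[(20,0),(0,0),(20,0)]⟩⟩,⟨true,0,⟨0,
  [(40,0)]⟩,⟨0,[(39,0)]⟩⟩,[.e ⟨false,1,⟨1,[(39,1),(1,0),(0,0)]⟩,⟨0,[(40,0)]⟩⟩ ⟨false,1,⟨1,[(41,0),
  (0,0)]⟩,⟨0,[(44,0)]⟩⟩,.o ⟨false,2,⟨0,[(20,0),(21,0)]⟩,⟨3,[(2,0),(3,3),(4,0),(15,0),(9,0),(0,1),(1,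
  1)]⟩⟩,.o ⟨false,1,⟨0,[(20,0)]⟩,⟨0,[(7,0)]⟩⟩,.a ⟨true,0,⟨1,[(1,1),(1,0),(1,0),(8,0),(12,0)]⟩,⟨1,
  [(6,1),(34,0),(0,0)]⟩⟩ ⟨false,1,⟨0,[(38,0),(3,0)]⟩,⟨1,[(27,0),(0,0),(11,1)]⟩⟩ ⟨true,1,⟨1,[(41,0),
  (0,0)]⟩,⟨8,[(2,5),(8,4),(14,0),(0,5),(8,2),(0,0)]⟩⟩]⟩) (.R ⟨0,false,false,false,[1,0,0,0,-1],[1,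
  -1],[0,0,0,-1],(⟨0,[(22,0)]⟩,⟨0,[(23,0)]⟩),(⟨0,[(34,0)]⟩,⟨0,[(35,0)]⟩),⟨0,[(0,0)]⟩,.k,.k,(.r (-1)
  ⟨0,[(38,0),(3,0)]⟩ ⟨1,[(27,0),(0,0),(11,1),(3,1)]⟩),(.r (-1) ⟨2,[(1,2),(6,0),(8,0),(3,1),(5,1)]⟩
  ⟨0,[(38,0)]⟩),.k,.k,⟨true,0,⟨1,[(27,0),(0,0)]⟩,⟨0,[]⟩⟩,⟨false,0,⟨0,[(21,0)]⟩,⟨0,[(1,0),(36,0)]⟩⟩,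
  ⟨true,0,⟨0,[(39,0)]⟩,⟨0,[(40,0)]⟩⟩,⟨false,0,⟨1,[(3,0),(3,0),(6,0),(6,0),(20,0)]⟩,⟨0,[(1,0)]⟩⟩,
  ⟨false,0,⟨0,[]⟩,⟨0,[]⟩⟩,⟨false,0,⟨0,[]⟩,⟨0,[]⟩⟩,[.e ⟨false,1,⟨1,[(39,1),(1,0),(0,0)]⟩,⟨0,[(40,
  0)]⟩⟩ ⟨false,0,⟨0,[(6,0),(31,0),(3,0)]⟩,⟨0,[(20,0),(19,0)]⟩⟩,.o ⟨false,1,⟨0,[(39,0),(2,0)]⟩,⟨3,
  [(2,0),(8,0),(15,0),(9,0),(0,1),(1,5)]⟩⟩,.o ⟨false,1,⟨0,[(20,0)]⟩,⟨0,[(7,0)]⟩⟩,.a ⟨true,0,⟨1,[(1,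
  1),(1,0),(1,0),(8,0),(12,0)]⟩,⟨1,[(6,1),(34,0),(0,0)]⟩⟩ ⟨false,1,⟨0,[(38,0),(3,0)]⟩,⟨1,[(27,0),(0,
  0),(11,1)]⟩⟩ ⟨true,0,⟨0,[(6,0),(31,0),(3,0)]⟩,⟨8,[(1,8),(0,5),(8,4),(14,0),(0,5),(8,2),(0,
  0)]⟩⟩]⟩)) (.Q [0,-1,0,0,1,0,0,0,-1,1,0,-1] (.p false [0,0,0,0,1] [1] (⟨0,[(22,0)]⟩,⟨0,[(21,0)]⟩)
  .k 1 (⟨0,[]⟩,⟨0,[]⟩) .k .k) (.Q [0,0,1,0,-1,0,0,0,1,0,0,1] (.p true [0,0,0,0,1] [] (⟨0,[(23,0)]⟩,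
  ⟨0,[(22,0)]⟩) .k 0 (⟨0,[]⟩,⟨0,[]⟩) .k .k) (.Q [0,0,0,0,0,-1,0,0,0,0,0,1] (.ed false [1,-1,0,0,1]
  .k) (.S ⟨1,0,[0,1],[0,0,0,0,1],[0,2],(⟨0,[(25,0)]⟩,⟨0,[(24,0)]⟩),⟨0,[(0,0)]⟩,.k,(.r 0 ⟨0,[(40,
  0)]⟩ ⟨0,[(2,0),(7,0),(31,0)]⟩),⟨true,0,⟨0,[(46,0)]⟩,⟨0,[]⟩⟩,⟨false,1,⟨8,[(2,4),(20,4),(15,0),(4,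
  1)]⟩,⟨0,[]⟩⟩,⟨false,0,⟨0,[(42,0)]⟩,⟨0,[(41,0),(2,0)]⟩⟩,⟨true,0,⟨0,[(42,0)]⟩,⟨0,[(41,0)]⟩⟩,[.e
  ⟨false,0,⟨0,[(38,0)]⟩,⟨0,[(44,0)]⟩⟩ ⟨false,0,⟨0,[(40,0),(1,0)]⟩,⟨8,[(2,4),(20,4),(15,0),(4,1)]⟩⟩,
  .o ⟨false,0,⟨0,[(9,0)]⟩,⟨0,[(22,0)]⟩⟩,.o ⟨false,0,⟨0,[(9,0)]⟩,⟨0,[(22,0)]⟩⟩,.a ⟨true,(-1),⟨0,[(1,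
  0)]⟩,⟨0,[(2,0),(37,0),(1,0)]⟩⟩ ⟨false,0,⟨0,[(40,0),(1,0)]⟩,⟨1,[(29,0),(0,0),(13,1)]⟩⟩ ⟨true,0,⟨0,
  [(40,0),(1,0)]⟩,⟨1,[(29,0),(0,0)]⟩⟩]⟩) (.R ⟨0,false,false,false,[0,1,0,0,-1],[1,0,0,0,-1],[1,1,1],
  (⟨0,[(0,0)]⟩,⟨0,[(25,0),(10,0)]⟩),(⟨0,[(24,0)]⟩,⟨0,[(25,0)]⟩),⟨0,[(25,0)]⟩,(.r (-1) ⟨0,[(2,0),(7,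
  0),(31,0)]⟩ ⟨0,[(40,0)]⟩),.k,.k,.k,.k,.k,⟨true,(-1),⟨8,[(4,5),(8,4),(14,0),(0,5),(8,2),(0,0)]⟩,⟨0,
  [(44,0)]⟩⟩,⟨false,0,⟨0,[(26,0),(2,0)]⟩,⟨9,[(22,0),(0,0),(15,1),(3,4)]⟩⟩,⟨false,0,⟨0,[(41,0)]⟩,⟨0,
  [(42,0),(1,0)]⟩⟩,⟨true,0,⟨0,[(2,0),(0,0)]⟩,⟨3,[(4,0),(8,0),(15,0),(9,0),(0,1),(1,5)]⟩⟩,⟨false,0,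
  ⟨0,[]⟩,⟨0,[]⟩⟩,⟨false,0,⟨0,[]⟩,⟨0,[]⟩⟩,[.a ⟨true,1,⟨0,[(2,0)]⟩,⟨0,[(8,0)]⟩⟩ ⟨false,0,⟨0,[(46,0)]⟩,
  ⟨1,[(43,0),(0,0)]⟩⟩ ⟨true,0,⟨0,[(1,0),(0,0)]⟩,⟨3,[(4,0),(8,0),(15,0),(9,0),(0,1),(1,1)]⟩⟩,.o
  ⟨false,2,⟨8,[(2,9),(20,0),(15,1),(4,3)]⟩,⟨3,[(4,0),(3,3),(4,0),(15,0),(9,0),(0,1),(1,1)]⟩⟩,.o
  ⟨false,2,⟨9,[(22,10),(0,0),(15,1),(3,4)]⟩,⟨0,[(1,0)]⟩⟩,.e ⟨false,0,⟨0,[]⟩,⟨8,[(2,4),(20,4),(15,0),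
  (4,1)]⟩⟩ ⟨false,1,⟨0,[(26,0),(2,0),(14,0)]⟩,⟨3,[(4,0),(8,0),(15,0),(9,0),(0,1),(1,1)]⟩⟩]⟩)) (.Q
  [0,0,0,0,0,-1,0,0,0,1,0,-1] (.ed true [0,1,0,0,1] .k) (.S ⟨1,0,[0,-1],[1,0,0,0,-1],[1,0,0,-1],(⟨0,
  [(24,0)]⟩,⟨0,[(25,0)]⟩),⟨0,[(0,0)]⟩,.k,(.r (-1) ⟨0,[(40,0),(3,0)]⟩ ⟨1,[(29,0),(0,0),(11,1),(3,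
  1)]⟩),⟨true,0,⟨0,[(41,0)]⟩,⟨0,[(42,0)]⟩⟩,⟨false,1,⟨8,[(2,4),(20,4),(15,0),(4,1)]⟩,⟨0,[]⟩⟩,⟨false,
  0,⟨0,[]⟩,⟨8,[(2,4),(20,4),(15,0),(4,1)]⟩⟩,⟨true,0,⟨0,[(42,0)]⟩,⟨0,[(41,0)]⟩⟩,[.e ⟨false,1,⟨1,[(41,
  1),(1,0),(0,0)]⟩,⟨0,[(42,0)]⟩⟩ ⟨false,1,⟨1,[(43,0),(0,0)]⟩,⟨0,[(46,0)]⟩⟩,.o ⟨false,2,⟨8,[(2,9),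
  (20,0),(15,1),(4,3)]⟩,⟨7,[(1,2),(2,1),(3,10),(4,1),(15,1),(9,1),(0,0),(1,0)]⟩⟩,.o ⟨false,1,⟨0,
  [(22,0)]⟩,⟨0,[(9,0)]⟩⟩,.a ⟨true,0,⟨0,[(1,0),(5,0),(21,0)]⟩,⟨1,[(8,1),(34,0),(0,0)]⟩⟩ ⟨false,1,⟨0,
  [(40,0),(3,0)]⟩,⟨1,[(29,0),(0,0),(11,1)]⟩⟩ ⟨true,1,⟨1,[(43,0),(0,0)]⟩,⟨8,[(4,5),(8,4),(14,0),(0,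
  5),(8,2),(0,0)]⟩⟩]⟩) (.Q [0,0,0,-1,0,0,0,0,-1,2,0,-1] (.p false [-1,1,0,0,1] [1] (⟨0,[(0,0)]⟩,⟨0,
  [(24,0),(11,0)]⟩) (.r 0 ⟨1,[(29,0),(0,0),(11,1),(3,1)]⟩ ⟨0,[(40,0),(3,0)]⟩) 1 (⟨0,[]⟩,⟨0,[]⟩) .k
  .k) (.R ⟨0,false,false,true,[-1,1,0,0,1],[0,0,-1,0,1],[0,1],(⟨0,[(1,0)]⟩,⟨0,[(25,0),(11,0)]⟩),(⟨0,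
  [(1,0),(19,0)]⟩,⟨0,[(25,0),(7,0)]⟩),⟨0,[(25,0)]⟩,(.r 0 ⟨1,[(30,0),(0,0),(11,1),(3,1)]⟩ ⟨0,[(41,0),
  (3,0)]⟩),.k,.k,.k,.k,.k,⟨false,1,⟨0,[(7,0),(36,0)]⟩,⟨5,[(14,4),(14,0),(0,5),(9,0),(3,2)]⟩⟩,⟨true,
  (-1),⟨0,[(8,0)]⟩,⟨9,[(23,0),(0,0),(5,9),(9,1),(3,4)]⟩⟩,⟨false,1,⟨0,[(41,0),(3,0)]⟩,⟨1,[(30,0),(0,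
  0),(11,1)]⟩⟩,⟨true,(-1),⟨0,[(6,0)]⟩,⟨8,[(3,0),(20,0),(3,8),(11,1),(2,8),(1,3)]⟩⟩,⟨false,0,⟨0,[]⟩,
  ⟨0,[]⟩⟩,⟨false,0,⟨0,[]⟩,⟨0,[]⟩⟩,[.o ⟨false,(-1),⟨5,[(9,4),(0,0),(3,4),(14,0),(10,1),(6,0)]⟩,⟨1,
  [(2,1),(4,0),(20,0),(1,0),(14,1)]⟩⟩,.e ⟨false,1,⟨1,[(23,0),(0,0),(19,0)]⟩,⟨0,[]⟩⟩ ⟨false,(-1),⟨0,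
  [(14,0)]⟩,⟨17,[(3,1),(20,1),(3,17),(11,3),(3,8),(0,16)]⟩⟩,.o ⟨false,1,⟨3,[(10,2),(13,0),(15,0),(3,
  1)]⟩,⟨0,[(2,0),(5,0),(21,0)]⟩⟩,.a ⟨true,0,⟨0,[(10,0)]⟩,⟨0,[(0,0),(42,0)]⟩⟩ ⟨true,0,⟨0,[(2,0),(6,
  0)]⟩,⟨1,[(30,0),(0,0)]⟩⟩ ⟨false,(-1),⟨0,[(14,0)]⟩,⟨8,[(3,0),(20,0),(3,8),(11,1),(4,12)]⟩⟩]⟩) (.S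
  ⟨1,0,[0,2,-1,-1],[0,-1,0,0,1],[1,1,-1,-2],(⟨0,[(1,0),(19,0),(0,0)]⟩,⟨0,[(25,0),(9,0)]⟩),⟨2,[(1,2),
  (3,1),(0,1),(14,0),(0,0),(7,1),(3,6),(6,3),(1,5),(1,3)]⟩,(.r 0 ⟨0,[(41,0)]⟩ ⟨0,[(3,0),(7,0),(31,
  0)]⟩),(.r (-1) ⟨1,[(41,1),(0,1),(1,0),(0,0)]⟩ ⟨5,[(8,4),(21,5),(0,0),(8,0),(2,11),(1,2)]⟩),⟨false,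
  1,⟨0,[(42,0),(2,0)]⟩,⟨0,[(43,0)]⟩⟩,⟨true,0,⟨0,[(47,0)]⟩,⟨0,[]⟩⟩,⟨true,0,⟨0,[]⟩,⟨0,[(47,0)]⟩⟩,
  ⟨false,0,⟨0,[(43,0)]⟩,⟨0,[(42,0),(2,0)]⟩⟩,[.o ⟨false,(-1),⟨3,[(4,0),(0,0),(0,0),(2,2),(20,0),(9,
  0),(0,1)]⟩,⟨8,[(3,9),(20,0),(15,1),(2,8),(1,3)]⟩⟩,.a ⟨true,(-1),⟨0,[(4,0)]⟩,⟨0,[(3,0),(39,0)]⟩⟩
  ⟨false,1,⟨0,[(41,1),(3,0)]⟩,⟨1,[(30,0),(0,0),(11,3)]⟩⟩ ⟨true,0,⟨0,[(41,0)]⟩,⟨5,[(8,4),(21,5),(0,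
  0),(8,0),(2,5),(1,2)]⟩⟩,.o ⟨false,0,⟨0,[(11,0)]⟩,⟨0,[(2,0)]⟩⟩,.o ⟨false,(-1),⟨0,[(0,0),(5,0),(0,
  0),(22,0)]⟩,⟨0,[(23,0),(20,0)]⟩⟩]⟩)))) (.R ⟨1,false,false,true,[0,0,1],[1,0,0,0,-1],[1,0,0,-1,0,0,
  0,1],(⟨0,[(30,0)]⟩,⟨0,[(29,0)]⟩),(⟨0,[(22,0)]⟩,⟨0,[(23,0)]⟩),⟨0,[(19,0)]⟩,.k,.k,.k,.k,(.r 0 ⟨0,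
  [(2,0),(35,1),(1,0),(1,0)]⟩ ⟨9,[(16,9),(3,0),(0,0),(5,9),(9,1),(2,9),(1,4)]⟩),.k,⟨true,0,⟨0,[(10,
  0)]⟩,⟨0,[(13,0),(13,0),(12,0)]⟩⟩,⟨false,1,⟨0,[(20,0),(3,0)]⟩,⟨1,[(0,1),(26,1),(13,0),(0,0)]⟩⟩,
  ⟨false,1,⟨0,[(39,0),(2,0)]⟩,⟨0,[(40,0)]⟩⟩,⟨false,1,⟨0,[(11,0),(8,0),(21,0)]⟩,⟨0,[(0,0),(24,0),(16,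
  0)]⟩⟩,⟨true,0,⟨0,[]⟩,⟨0,[(44,0)]⟩⟩,⟨false,1,⟨0,[(11,0),(8,0),(19,0),(1,0)]⟩,⟨0,[(0,0),(13,0),(27,
  0)]⟩⟩,[.o ⟨false,1,⟨0,[(20,0)]⟩,⟨0,[(7,0)]⟩⟩,.o ⟨false,2,⟨1,[(20,2),(0,0),(20,0)]⟩,⟨0,[(0,0)]⟩⟩,
  .o ⟨false,1,⟨9,[(20,0),(0,0),(5,9),(9,1),(3,4)]⟩,⟨0,[(15,0)]⟩⟩,.a ⟨true,0,⟨0,[(27,0)]⟩,⟨0,[(24,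
  0)]⟩⟩ ⟨false,1,⟨0,[(12,0),(29,0)]⟩,⟨0,[(13,0),(13,0),(12,0)]⟩⟩ ⟨true,1,⟨0,[(20,0),(3,0)]⟩,⟨0,[(0,
  0),(26,0)]⟩⟩]⟩)))))) (.Q [0,-1,0,1,1,0,1,1,0,-1,1] (.p true [0,0,1] [1] (⟨0,[(25,0)]⟩,⟨0,[(24,
  0)]⟩) .k 1 (⟨0,[]⟩,⟨0,[]⟩) .k .k) (.R ⟨1,false,false,true,[0,0,1],[1,-1],[0,1,0,-1],(⟨0,[(26,0)]⟩,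
  ⟨0,[(25,0)]⟩),(⟨0,[(30,0)]⟩,⟨0,[(31,0)]⟩),⟨0,[(15,0)]⟩,.k,.k,.k,.k,.k,.k,⟨true,0,⟨1,[(23,0),(0,
  0)]⟩,⟨0,[]⟩⟩,⟨false,0,⟨1,[(13,0),(6,0),(2,0)]⟩,⟨0,[(1,0)]⟩⟩,⟨true,0,⟨0,[(9,0),(13,0),(10,0)]⟩,⟨0,
  [(6,0),(29,1)]⟩⟩,⟨false,0,⟨0,[(7,0),(27,0),(2,0)]⟩,⟨0,[(0,0)]⟩⟩,⟨true,0,⟨1,[(1,0),(5,0),(14,0),(0,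
  0)]⟩,⟨0,[(6,0),(29,0)]⟩⟩,⟨true,(-1),⟨0,[(7,0)]⟩,⟨20,[(0,10),(4,5),(4,4),(6,5),(3,4),(11,1),(6,
  0)]⟩⟩,[.o ⟨false,0,⟨0,[(35,0)]⟩,⟨4,[(0,0),(11,0),(20,0),(2,3),(1,1)]⟩⟩,.e ⟨false,1,⟨1,[(35,1),(1,
  0),(0,0)]⟩,⟨0,[(36,0)]⟩⟩ ⟨false,0,⟨1,[(6,0),(0,0),(12,0),(13,0),(3,0)]⟩,⟨1,[(0,0),(0,0),(20,0),(0,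
  0),(12,0)]⟩⟩,.o ⟨false,1,⟨2,[(1,1),(2,0),(11,0),(6,0)]⟩,⟨0,[(11,0)]⟩⟩,.a ⟨true,0,⟨0,[(23,0)]⟩,⟨0,
  [(20,0)]⟩⟩ ⟨true,0,⟨0,[(34,0)]⟩,⟨1,[(23,0),(0,0),(11,1)]⟩⟩ ⟨false,0,⟨1,[(6,0),(0,0),(12,0),(13,0),
  (3,0)]⟩,⟨4,[(0,0),(11,0),(10,4),(9,0),(2,3),(1,1)]⟩⟩]⟩) (.Q [0,0,0,0,0,-1,0,0,0,0,0,1] (.ed false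
  [1,-1,0,0,1] .k) (.Q [0,-1,0,2,1,0,1,1,0,-1,1] (.p true [0,0,1] [1] (⟨0,[(27,0)]⟩,⟨0,[(26,0)]⟩)
  .k 1 (⟨0,[]⟩,⟨0,[]⟩) .k .k) (.Q [0,0,3,0,-1,0,0,0,0,1] (.pp false [-1,1]) (.Q [0,0,2,0,-1,0,-1,0,
  0,1,-1] (.p false [0,0,1] [1] (⟨0,[(29,0)]⟩,⟨0,[(28,0)]⟩) .k 1 (⟨0,[]⟩,⟨0,[]⟩) .k .k) (.R ⟨1,true,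
  false,false,[1,0,-1],[0,1],[0,0,0,0,0,0,0,-1],(⟨0,[(29,0)]⟩,⟨0,[(30,0)]⟩),(⟨0,[(35,0)]⟩,⟨0,[(34,
  0)]⟩),⟨0,[(18,0)]⟩,.k,.k,.k,.k,(.r (-1) ⟨0,[(4,0),(0,0),(32,0),(3,0)]⟩ ⟨23,[(0,17),(0,7),(0,23),
  (14,2),(18,11),(0,0)]⟩),.k,⟨false,1,⟨1,[(4,1),(0,1),(35,0),(0,0)]⟩,⟨39,[(0,25),(1,23),(9,7),(4,2),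
  (7,7),(10,3),(0,0)]⟩⟩,⟨true,1,⟨0,[(5,0)]⟩,⟨0,[(0,0)]⟩⟩,⟨false,1,⟨1,[(20,0),(0,0),(20,0)]⟩,⟨0,[]⟩⟩,
  ⟨true,1,⟨3,[(2,2),(5,0),(0,0),(4,0),(21,0)]⟩,⟨0,[(4,0)]⟩⟩,⟨true,0,⟨0,[(40,0)]⟩,⟨0,[(39,0)]⟩⟩,
  ⟨false,1,⟨0,[(2,0)]⟩,⟨0,[(4,0),(34,0),(2,0)]⟩⟩,[]⟩) (.Q [0,0,1,0,-1,0,0,0,1,0,0,1] (.p true [0,0,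
  0,0,1] [] (⟨0,[(23,0)]⟩,⟨0,[(22,0)]⟩) .k 0 (⟨0,[]⟩,⟨0,[]⟩) .k .k) (.S ⟨1,0,[0,1],[0,0,0,0,1],[0,
  2],(⟨0,[(24,0)]⟩,⟨0,[(23,0)]⟩),⟨0,[(4,0)]⟩,.k,(.r 0 ⟨0,[(39,0)]⟩ ⟨3,[(2,0),(0,1),(5,0),(7,1),(3,
  1),(0,0),(20,0)]⟩),⟨true,0,⟨0,[(45,0)]⟩,⟨0,[]⟩⟩,⟨false,1,⟨1,[(21,0),(0,0),(20,0)]⟩,⟨0,[]⟩⟩,⟨false,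
  0,⟨0,[(41,0)]⟩,⟨0,[(40,0),(2,0)]⟩⟩,⟨true,0,⟨0,[(41,0)]⟩,⟨0,[(40,0)]⟩⟩,[.e ⟨false,0,⟨0,[(37,0)]⟩,
  ⟨0,[(43,0)]⟩⟩ ⟨false,0,⟨3,[(1,0),(10,0),(0,0),(23,0),(3,0)]⟩,⟨1,[(21,0),(0,0),(20,0)]⟩⟩,.o ⟨false,
  0,⟨0,[(8,0)]⟩,⟨0,[(21,0)]⟩⟩,.o ⟨false,0,⟨0,[(8,0)]⟩,⟨0,[(21,0)]⟩⟩,.a ⟨true,(-1),⟨0,[(0,0)]⟩,⟨0,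
  [(1,0),(9,1),(0,1),(8,0),(6,0),(12,1),(1,0)]⟩⟩ ⟨false,0,⟨3,[(1,0),(10,0),(0,0),(23,0),(3,0)]⟩,⟨3,
  [(2,0),(6,0),(11,0),(21,3)]⟩⟩ ⟨true,0,⟨3,[(1,0),(10,0),(0,0),(23,0),(3,0)]⟩,⟨3,[(2,0),(6,0),(11,
  0)]⟩⟩]⟩) (.Q [0,0,0,0,0,0,0,0,0,0,-1,1] (.ed false [1,0,-1,0,1] (.r 0 ⟨2,[(1,0),(10,0),(14,1),(0,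
  1)]⟩ ⟨41,[(3,13),(7,3),(3,23),(2,18),(19,0),(4,25)]⟩)) (.Q [0,0,-1,0,0,0,-1,0,1,-1,-1,1] (.p true
  [0,0,-1,0,1] [1] (⟨0,[(0,0)]⟩,⟨0,[(24,0),(7,0)]⟩) .k 1 (⟨0,[]⟩,⟨0,[]⟩) .k (.r 0 ⟨2,[(2,0),(10,0),
  (14,1),(0,1)]⟩ ⟨41,[(4,13),(7,3),(3,23),(2,18),(19,0),(4,25)]⟩)) (.R ⟨1,false,false,false,[1,0,1,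
  0,-1],[1,0,0,0,-1],[1,0,0,-1,0,0,0,1],(⟨0,[(25,0),(7,0)]⟩,⟨0,[(1,0)]⟩),(⟨0,[(25,0)]⟩,⟨0,[(26,
  0)]⟩),⟨0,[(22,0),(2,0)]⟩,.k,.k,(.r (-1) ⟨0,[(15,0),(29,0)]⟩ ⟨0,[(29,0),(0,0),(12,0)]⟩),.k,.k,.k,
  ⟨false,0,⟨0,[(15,0)]⟩,⟨2,[(3,0),(1,0),(10,1),(2,1),(10,1),(12,0),(1,0)]⟩⟩,⟨true,0,⟨0,[(18,0)]⟩,⟨0,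
  [(30,0)]⟩⟩,⟨true,0,⟨0,[(42,0)]⟩,⟨0,[(43,0)]⟩⟩,⟨true,0,⟨0,[(16,0)]⟩,⟨0,[(28,0)]⟩⟩,⟨false,0,⟨0,[]⟩,
  ⟨1,[(23,0),(0,0),(20,0)]⟩⟩,⟨true,0,⟨0,[(16,0),(26,0)]⟩,⟨0,[(17,0)]⟩⟩,[.a ⟨true,1,⟨0,[(2,0),(10,0),
  (0,0),(15,0),(12,0),(1,0)]⟩,⟨0,[(9,0)]⟩⟩ ⟨true,0,⟨0,[(13,0)]⟩,⟨0,[(16,0),(13,0),(12,0)]⟩⟩ ⟨false,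
  1,⟨5,[(20,0),(6,3),(12,0),(3,0),(0,2)]⟩,⟨3,[(3,0),(10,0),(13,0),(1,2),(8,0)]⟩⟩,.o ⟨false,2,⟨0,
  [(23,0),(21,0)]⟩,⟨2,[(3,0),(5,2),(3,2),(0,2),(15,1),(9,0),(2,2)]⟩⟩,.o ⟨false,1,⟨0,[(2,0),(27,0)]⟩,
  ⟨2,[(0,1),(10,0),(19,0)]⟩⟩,.o ⟨false,1,⟨0,[(23,0),(6,0)]⟩,⟨0,[(0,0)]⟩⟩]⟩) (.K ⟨0,[1,0,1,0,-1],0,1,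
  (⟨0,[(25,0),(7,0)]⟩,⟨0,[(1,0)]⟩),.k,(.r (-1) ⟨0,[(15,0),(29,0)]⟩ ⟨0,[(29,0),(0,0),(12,0)]⟩),(.r
  (-1) ⟨21,[(4,6),(0,16),(5,0),(0,6),(4,4),(2,10),(3,5),(20,4)]⟩ ⟨0,[(7,0),(0,0)]⟩),.k,.k,[⟨0,[(10,
  0)]⟩,⟨0,[(0,0)]⟩,⟨5,[(9,4),(0,0),(3,4),(14,0),(10,1),(6,0)]⟩,⟨7,[(0,6),(4,2),(6,0),(4,4),(2,2),(6,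
  0),(16,2),(0,0)]⟩]⟩)) (.Q [0,0,-1,0,0,0,0,0,1,-1,0,1] (.p true [0,0,0,0,1] [1] (⟨0,[(25,0)]⟩,⟨0,
  [(24,0)]⟩) .k 1 (⟨0,[]⟩,⟨0,[]⟩) .k .k) (.S ⟨1,0,[],[1,0,0,0,-1],[0,-1],(⟨0,[(25,0)]⟩,⟨0,[(26,
  0)]⟩),⟨0,[(1,0),(19,0)]⟩,.k,(.r (-1) ⟨0,[(41,0),(3,0)]⟩ ⟨1,[(4,0),(0,0),(23,0),(9,0)]⟩),⟨false,1,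
  ⟨1,[(23,0),(0,0),(20,0)]⟩,⟨0,[]⟩⟩,⟨true,0,⟨0,[(47,0)]⟩,⟨0,[]⟩⟩,⟨true,0,⟨0,[(43,0)]⟩,⟨0,[(42,0)]⟩⟩,
  ⟨false,0,⟨0,[(43,0)]⟩,⟨0,[(42,0),(2,0)]⟩⟩,[.o ⟨false,1,⟨0,[(23,0)]⟩,⟨0,[(10,0)]⟩⟩,.a ⟨true,1,⟨0,
  [(2,0),(10,0),(0,0),(15,0),(12,0),(1,0)]⟩,⟨0,[(9,0)]⟩⟩ ⟨true,1,⟨0,[(45,0)]⟩,⟨2,[(3,0),(9,5),(0,5),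
  (15,4),(9,0),(2,5)]⟩⟩ ⟨false,1,⟨1,[(44,0),(0,0)]⟩,⟨0,[(47,0)]⟩⟩,.o ⟨false,1,⟨0,[(23,0)]⟩,⟨0,[(10,
  0)]⟩⟩,.o ⟨false,1,⟨3,[(4,0),(6,0),(11,4)]⟩,⟨0,[(0,0)]⟩⟩]⟩) (.S ⟨1,0,[0,-1],[1,0,0,0,-1],[1,0,0,
  -1],(⟨0,[(25,0)]⟩,⟨0,[(26,0)]⟩),⟨0,[(1,0),(19,0)]⟩,.k,(.r (-1) ⟨0,[(41,0),(3,0)]⟩ ⟨1,[(4,0),(0,0),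
  (23,0),(9,0)]⟩),⟨true,0,⟨0,[(42,0)]⟩,⟨0,[(43,0)]⟩⟩,⟨false,1,⟨1,[(23,0),(0,0),(20,0)]⟩,⟨0,[]⟩⟩,
  ⟨false,0,⟨0,[]⟩,⟨1,[(23,0),(0,0),(20,0)]⟩⟩,⟨true,0,⟨0,[(43,0)]⟩,⟨0,[(42,0)]⟩⟩,[.e ⟨false,1,⟨1,
  [(42,1),(1,0),(0,0)]⟩,⟨0,[(43,0)]⟩⟩ ⟨false,1,⟨1,[(44,0),(0,0)]⟩,⟨0,[(47,0)]⟩⟩,.o ⟨false,2,⟨0,[(23,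
  0),(21,0)]⟩,⟨2,[(0,1),(2,0),(5,4),(3,0),(0,0),(25,0),(2,0)]⟩⟩,.o ⟨false,1,⟨0,[(23,0)]⟩,⟨0,[(10,
  0)]⟩⟩,.a ⟨true,0,⟨0,[(0,0)]⟩,⟨2,[(3,0),(5,1),(14,0),(2,0),(17,0)]⟩⟩ ⟨false,1,⟨0,[(41,0),(3,0)]⟩,
  ⟨2,[(4,0),(0,0),(23,0),(13,0)]⟩⟩ ⟨true,1,⟨1,[(44,0),(0,0)]⟩,⟨2,[(0,4),(2,0),(5,4),(3,0),(0,0),(25,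
  0),(2,0)]⟩⟩]⟩))))) (.Q [0,0,1,0,-1,0,0,0,1,0,0,1] (.p true [0,0,0,0,1] [] (⟨0,[(22,0)]⟩,⟨0,[(21,
  0)]⟩) .k 0 (⟨0,[]⟩,⟨0,[]⟩) .k .k) (.S ⟨1,0,[0,1],[0,0,0,0,1],[0,2],(⟨0,[(23,0)]⟩,⟨0,[(22,0)]⟩),⟨0,
  [(3,0)]⟩,.k,(.r 0 ⟨0,[(38,0)]⟩ ⟨7,[(2,3),(5,1),(7,3),(0,1),(2,1),(6,4),(0,0),(13,1)]⟩),⟨true,0,⟨0,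
  [(44,0)]⟩,⟨0,[]⟩⟩,⟨false,1,⟨1,[(20,0),(0,0),(20,0)]⟩,⟨0,[]⟩⟩,⟨false,0,⟨0,[(40,0)]⟩,⟨0,[(39,0),(2,
  0)]⟩⟩,⟨true,0,⟨0,[(40,0)]⟩,⟨0,[(39,0)]⟩⟩,[.e ⟨false,0,⟨0,[(36,0)]⟩,⟨0,[(42,0)]⟩⟩ ⟨false,0,⟨3,[(1,
  0),(9,0),(13,0),(10,0)]⟩,⟨1,[(20,0),(0,0),(20,0)]⟩⟩,.o ⟨false,0,⟨0,[(7,0)]⟩,⟨0,[(20,0)]⟩⟩,.o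
  ⟨false,0,⟨0,[(7,0)]⟩,⟨0,[(20,0)]⟩⟩,.a ⟨true,(-1),⟨0,[(0,0)]⟩,⟨0,[(1,0),(8,1),(0,1),(8,0),(6,1),
  (12,1),(1,0)]⟩⟩ ⟨false,0,⟨3,[(1,0),(9,0),(13,0),(10,0)]⟩,⟨1,[(27,0),(0,0),(13,1)]⟩⟩ ⟨true,0,⟨3,
  [(1,0),(9,0),(13,0),(10,0)]⟩,⟨1,[(27,0),(0,0)]⟩⟩]⟩) (.Q [0,0,0,0,0,0,0,0,0,0,-1,1] (.ed false [1,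
  0,-1,0,1] (.r 0 ⟨1,[(5,0),(5,0),(14,0),(0,0)]⟩ ⟨41,[(2,13),(7,3),(3,23),(2,18),(19,0),(4,25)]⟩))
  (.R ⟨1,false,false,false,[1,0,1,0,-1],[1,0,0,0,-1],[1,0,0,-1,0,0,0,1],(⟨0,[(23,0),(7,0)]⟩,⟨0,[(0,
  0)]⟩),(⟨0,[(23,0)]⟩,⟨0,[(24,0)]⟩),⟨0,[(20,0),(2,0)]⟩,.k,.k,(.r (-1) ⟨0,[(13,0),(29,0)]⟩ ⟨0,[(27,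
  0),(0,0),(12,0)]⟩),.k,.k,.k,⟨false,0,⟨0,[(13,0)]⟩,⟨1,[(6,0),(7,0),(2,0),(10,0),(12,1),(1,0)]⟩⟩,
  ⟨true,0,⟨0,[(16,0)]⟩,⟨0,[(28,0)]⟩⟩,⟨true,0,⟨0,[(40,0)]⟩,⟨0,[(41,0)]⟩⟩,⟨true,0,⟨0,[(14,0)]⟩,⟨0,
  [(26,0)]⟩⟩,⟨false,0,⟨0,[]⟩,⟨1,[(21,0),(0,0),(20,0)]⟩⟩,⟨true,0,⟨0,[(14,0),(26,0)]⟩,⟨0,[(15,0)]⟩⟩,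
  [.a ⟨true,1,⟨0,[(1,0),(9,0),(0,0),(15,0),(12,0),(1,0)]⟩,⟨0,[(7,0)]⟩⟩ ⟨true,0,⟨0,[(11,0)]⟩,⟨0,[(14,
  0),(13,0),(12,0)]⟩⟩ ⟨false,1,⟨17,[(2,3),(15,8),(19,0),(3,2),(0,8)]⟩,⟨1,[(6,0),(5,0),(13,0),(1,
  0)]⟩⟩,.o ⟨false,2,⟨0,[(21,0),(21,0)]⟩,⟨2,[(2,0),(4,2),(3,2),(0,2),(15,2),(9,0),(2,2)]⟩⟩,.o ⟨false,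
  1,⟨0,[(1,0),(26,0)]⟩,⟨0,[(8,0),(7,0)]⟩⟩,.o ⟨false,1,⟨0,[(21,0),(6,0)]⟩,⟨2,[(2,0),(4,2),(3,2),(0,
  2),(25,0),(2,2),(1,2)]⟩⟩]⟩) (.Q [0,0,-1,0,0,0,0,0,1,-1,0,1] (.p true [0,0,0,0,1] [1] (⟨0,[(24,
  0)]⟩,⟨0,[(23,0)]⟩) .k 1 (⟨0,[]⟩,⟨0,[]⟩) .k .k) (.S ⟨1,0,[],[1,0,0,0,-1],[0,-1],(⟨0,[(24,0)]⟩,⟨0,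
  [(25,0)]⟩),⟨0,[(1,0),(18,0)]⟩,.k,(.r (-1) ⟨0,[(40,0),(3,0)]⟩ ⟨1,[(29,0),(0,0),(11,1),(3,1)]⟩),
  ⟨false,1,⟨1,[(22,0),(0,0),(20,0)]⟩,⟨0,[]⟩⟩,⟨true,0,⟨0,[(46,0)]⟩,⟨0,[]⟩⟩,⟨true,0,⟨0,[(42,0)]⟩,⟨0,
  [(41,0)]⟩⟩,⟨false,0,⟨0,[(42,0)]⟩,⟨0,[(41,0),(2,0)]⟩⟩,[.o ⟨false,1,⟨0,[(22,0)]⟩,⟨0,[(9,0)]⟩⟩,.a
  ⟨true,1,⟨0,[(2,0),(9,0),(0,0),(15,0),(12,0),(1,0)]⟩,⟨0,[(8,0)]⟩⟩ ⟨true,1,⟨0,[(44,0)]⟩,⟨2,[(3,0),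
  (8,5),(0,5),(15,5),(9,0),(2,5)]⟩⟩ ⟨false,1,⟨1,[(43,0),(0,0)]⟩,⟨0,[(46,0)]⟩⟩,.o ⟨false,1,⟨0,[(22,
  0)]⟩,⟨0,[(9,0)]⟩⟩,.o ⟨false,1,⟨1,[(22,1),(6,0),(0,0)]⟩,⟨0,[(0,0)]⟩⟩]⟩) (.S ⟨1,0,[0,-1],[1,0,0,0,
  -1],[1,0,0,-1],(⟨0,[(24,0)]⟩,⟨0,[(25,0)]⟩),⟨0,[(1,0),(18,0)]⟩,.k,(.r (-1) ⟨0,[(40,0),(3,0)]⟩ ⟨1,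
  [(29,0),(0,0),(11,1),(3,1)]⟩),⟨true,0,⟨0,[(41,0)]⟩,⟨0,[(42,0)]⟩⟩,⟨false,1,⟨1,[(22,0),(0,0),(20,
  0)]⟩,⟨0,[]⟩⟩,⟨false,0,⟨0,[]⟩,⟨1,[(22,0),(0,0),(20,0)]⟩⟩,⟨true,0,⟨0,[(42,0)]⟩,⟨0,[(41,0)]⟩⟩,[.e
  ⟨false,1,⟨1,[(41,1),(1,0),(0,0)]⟩,⟨0,[(42,0)]⟩⟩ ⟨false,1,⟨1,[(43,0),(0,0)]⟩,⟨0,[(46,0)]⟩⟩,.o
  ⟨false,2,⟨0,[(22,0),(21,0)]⟩,⟨5,[(0,4),(2,1),(2,0),(1,10),(3,0),(16,0),(9,1),(2,1)]⟩⟩,.o ⟨false,1,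
  ⟨0,[(22,0)]⟩,⟨0,[(9,0)]⟩⟩,.a ⟨true,0,⟨0,[(0,0)]⟩,⟨1,[(8,1),(34,0),(0,0)]⟩⟩ ⟨false,1,⟨0,[(40,0),(3,
  0)]⟩,⟨1,[(29,0),(0,0),(11,1)]⟩⟩ ⟨true,1,⟨1,[(43,0),(0,0)]⟩,⟨2,[(0,5),(2,0),(4,5),(30,0)]⟩⟩]⟩)))))
  (.Q [0,0,0,0,1,0,1,0,-1,0,1,-1] (.p true [0,0,1] [0,0,0,0,1] (⟨0,[(28,0)]⟩,⟨0,[(27,0)]⟩) .k 2 (⟨0,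
  [(21,0)]⟩,⟨0,[(20,0)]⟩) .k (.r (-1) ⟨13,[(8,3),(6,4),(7,9),(11,0),(2,3),(1,11)]⟩ ⟨1,[(3,0),(5,0),
  (14,0),(0,0)]⟩)) (.Q [0,0,0,0,0,0,0,0,0,0,-1,1] (.ed false [1,0,-1,0,1] (.r 0 ⟨1,[(4,0),(5,0),(14,
  0),(0,0)]⟩ ⟨13,[(9,3),(6,4),(7,9),(11,0),(2,3),(1,11)]⟩)) (.Q [0,0,-1,0,0,0,-1,0,1,-1,-1,1] (.p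
  true [0,0,-1,0,1] [1] (⟨0,[(0,0)]⟩,⟨0,[(22,0),(7,0)]⟩) .k 1 (⟨0,[]⟩,⟨0,[]⟩) .k (.r 0 ⟨1,[(5,0),(5,
  0),(14,0),(0,0)]⟩ ⟨13,[(10,3),(6,4),(7,9),(11,0),(2,3),(1,11)]⟩)) (.Q [0,1,0,1,0,0,0,0,0,-1] (.pp
  true [-1,1]) (.R ⟨1,false,false,true,[1,0,1,0,-1],[1,0,0,0,-1],[0,-1,0,0,0,0,0,1],(⟨0,[(24,0),(7,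
  0)]⟩,⟨0,[(2,0)]⟩),(⟨0,[(24,0)]⟩,⟨0,[(25,0)]⟩),⟨0,[(21,0),(2,0)]⟩,.k,.k,(.r (-1) ⟨0,[(14,0),(29,
  0)]⟩ ⟨0,[(28,0),(0,0),(12,0)]⟩),.k,.k,.k,⟨false,1,⟨0,[(14,0),(27,0),(1,0)]⟩,⟨1,[(7,0),(5,0),(14,
  0),(0,0)]⟩⟩,⟨true,0,⟨0,[(17,0)]⟩,⟨0,[(29,0)]⟩⟩,⟨false,1,⟨1,[(22,0),(0,0),(20,0)]⟩,⟨0,[]⟩⟩,⟨false,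
  0,⟨0,[(15,0)]⟩,⟨0,[(27,0),(16,0)]⟩⟩,⟨true,0,⟨0,[(42,0)]⟩,⟨0,[(41,0)]⟩⟩,⟨false,0,⟨0,[(15,0),(26,
  0)]⟩,⟨0,[(16,0),(27,0)]⟩⟩,[.o ⟨false,1,⟨0,[(22,0)]⟩,⟨0,[(9,0)]⟩⟩,.a ⟨true,1,⟨0,[(3,0),(8,0),(0,0),
  (28,0),(1,0)]⟩,⟨0,[(8,0)]⟩⟩ ⟨true,1,⟨0,[(12,0),(29,0),(1,0)]⟩,⟨0,[(0,0),(5,0),(22,0)]⟩⟩ ⟨false,1,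
  ⟨5,[(19,0),(6,3),(12,0),(3,0),(0,2)]⟩,⟨1,[(7,0),(5,0),(13,0),(1,0)]⟩⟩,.o ⟨false,1,⟨0,[(3,0)]⟩,⟨2,
  [(1,1),(8,0),(19,0)]⟩⟩,.o ⟨false,1,⟨0,[(22,0),(6,0)]⟩,⟨0,[(1,0)]⟩⟩]⟩) (.S ⟨1,0,[0,-1,0,0,0,0,0,1],
  [1,0,1,0,-1],[1,0,0,-1,0,0,0,1],(⟨0,[(24,0),(7,0)]⟩,⟨0,[(2,0)]⟩),⟨0,[(21,0),(2,0)]⟩,.k,(.r (-1)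
  ⟨0,[(14,0),(29,0)]⟩ ⟨0,[(28,0),(0,0),(12,0)]⟩),⟨true,0,⟨0,[(41,0)]⟩,⟨0,[(42,0)]⟩⟩,⟨false,1,⟨1,
  [(22,0),(0,0),(20,0)]⟩,⟨0,[]⟩⟩,⟨false,0,⟨0,[]⟩,⟨1,[(22,0),(0,0),(20,0)]⟩⟩,⟨true,0,⟨0,[(42,0)]⟩,⟨0,
  [(41,0)]⟩⟩,[.a ⟨true,1,⟨0,[(0,0),(2,0),(8,0),(29,1)]⟩,⟨0,[(9,0),(3,0)]⟩⟩ ⟨true,0,⟨0,[(12,0)]⟩,⟨0,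
  [(15,0),(13,0),(12,0)]⟩⟩ ⟨false,1,⟨0,[(14,0),(27,0),(1,0)]⟩,⟨1,[(7,0),(5,0),(14,0),(0,0)]⟩⟩,.o
  ⟨false,2,⟨0,[(3,0),(8,0),(29,0),(1,0)]⟩,⟨5,[(8,4),(0,0),(3,4),(14,0),(10,1),(6,0)]⟩⟩,.o ⟨false,1,
  ⟨0,[(3,0)]⟩,⟨2,[(1,1),(8,0),(19,0)]⟩⟩,.o ⟨false,1,⟨0,[(22,0),(6,0)]⟩,⟨0,[(1,0)]⟩⟩]⟩)) (.K ⟨0,[1,0,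
  1,0,-1],0,1,(⟨0,[(23,0),(7,0)]⟩,⟨0,[(1,0)]⟩),.k,(.r (-1) ⟨0,[(13,0),(29,0)]⟩ ⟨0,[(27,0),(0,0),(12,
  0)]⟩),(.r (-1) ⟨0,[(26,0),(2,0),(11,0),(1,0)]⟩ ⟨0,[(5,0),(0,0)]⟩),.k,.k,[⟨0,[(8,0)]⟩,⟨0,[(0,0)]⟩,
  ⟨5,[(7,4),(0,0),(3,4),(14,0),(10,1),(6,0)]⟩,⟨1,[(0,0),(20,0),(3,0),(0,1),(16,0)]⟩]⟩)) (.Q [0,0,1,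
  0,-1,0,-1,0,1,0,-1,1] (.p true [1,0,-1,0,1] [1] (⟨0,[(23,0),(5,0)]⟩,⟨0,[(0,0)]⟩) .k 1 (⟨0,[]⟩,⟨0,
  []⟩) .k (.r 0 ⟨1,[(5,0),(5,0),(14,0),(0,0)]⟩ ⟨13,[(10,3),(6,4),(7,9),(11,0),(2,3),(1,11)]⟩)) (.S
  ⟨1,0,[0,1,0,0,0,0,0,-1],[1,0,-1,0,1],[1,2,0,-1,0,0,0,-1],(⟨0,[(24,0),(5,0)]⟩,⟨0,[(1,0)]⟩),⟨0,[(4,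
  0),(25,0)]⟩,.k,(.r 0 ⟨0,[(5,0),(0,0)]⟩ ⟨0,[(26,0),(2,0),(11,0),(1,0)]⟩),⟨true,0,⟨0,[(40,0)]⟩,⟨0,
  [(41,0)]⟩⟩,⟨false,1,⟨1,[(21,0),(0,0),(20,0)]⟩,⟨0,[]⟩⟩,⟨false,0,⟨0,[]⟩,⟨1,[(21,0),(0,0),(20,0)]⟩⟩,
  ⟨true,0,⟨0,[(41,0)]⟩,⟨0,[(40,0)]⟩⟩,[.o ⟨false,(-1),⟨0,[(8,0),(3,0)]⟩,⟨4,[(2,3),(8,3),(9,0),(4,0),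
  (11,0),(2,3),(1,2)]⟩⟩,.e ⟨false,0,⟨0,[(5,0),(0,0)]⟩,⟨13,[(11,3),(6,4),(7,9),(11,0),(2,17),(1,
  11)]⟩⟩ ⟨false,1,⟨0,[(6,0),(10,0)]⟩,⟨0,[(11,0),(29,0)]⟩⟩,.a ⟨true,(-1),⟨0,[(7,0),(3,0),(0,0),(28,
  0),(1,0)]⟩,⟨0,[(2,0)]⟩⟩ ⟨false,0,⟨1,[(3,0),(2,0),(20,0),(0,0)]⟩,⟨0,[(11,0),(29,1),(1,0)]⟩⟩ ⟨true,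
  0,⟨1,[(6,0),(5,0),(14,0),(0,0)]⟩,⟨0,[(11,0),(29,0)]⟩⟩,.o ⟨false,(-1),⟨0,[(0,0)]⟩,⟨0,[(6,0),(14,
  0)]⟩⟩]⟩) (.Q [0,0,1,0,0,0,0,0,-1,1,0,-1] (.p false [0,0,0,0,1] [1] (⟨0,[(24,0)]⟩,⟨0,[(23,0)]⟩) .k
  1 (⟨0,[]⟩,⟨0,[]⟩) .k .k) (.S ⟨1,0,[0,-1],[1,0,0,0,-1],[1,0,0,-1],(⟨0,[(24,0)]⟩,⟨0,[(25,0)]⟩),⟨0,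
  [(2,0),(17,0)]⟩,.k,(.r (-1) ⟨5,[(4,1),(2,1),(6,1),(28,0),(0,4)]⟩ ⟨1,[(29,0),(0,0),(11,1),(3,1)]⟩),
  ⟨true,0,⟨0,[(41,0)]⟩,⟨0,[(42,0)]⟩⟩,⟨false,1,⟨1,[(22,0),(0,0),(20,0)]⟩,⟨0,[]⟩⟩,⟨false,0,⟨0,[]⟩,⟨1,
  [(22,0),(0,0),(20,0)]⟩⟩,⟨true,0,⟨0,[(42,0)]⟩,⟨0,[(41,0)]⟩⟩,[.e ⟨false,1,⟨1,[(41,1),(1,0),(0,0)]⟩,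
  ⟨0,[(42,0)]⟩⟩ ⟨false,1,⟨1,[(43,0),(0,0)]⟩,⟨0,[(46,0)]⟩⟩,.o ⟨false,2,⟨0,[(22,0),(21,0)]⟩,⟨2,[(0,0),
  (0,0),(6,4),(3,0),(0,0),(25,0),(2,0)]⟩⟩,.o ⟨false,1,⟨0,[(22,0)]⟩,⟨0,[(9,0)]⟩⟩,.a ⟨true,0,⟨0,[(0,
  0)]⟩,⟨1,[(8,1),(34,0),(0,0)]⟩⟩ ⟨false,1,⟨5,[(4,1),(2,1),(6,1),(28,0),(0,4)]⟩,⟨1,[(29,0),(0,0),(11,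
  1)]⟩⟩ ⟨true,1,⟨1,[(43,0),(0,0)]⟩,⟨2,[(0,3),(0,0),(6,4),(3,0),(0,0),(25,0),(2,0)]⟩⟩]⟩) (.S ⟨1,0,[],
  [1,0,0,0,-1],[0,-1],(⟨0,[(24,0)]⟩,⟨0,[(25,0)]⟩),⟨0,[(2,0),(17,0)]⟩,.k,(.r (-1) ⟨5,[(4,1),(2,1),(6,
  1),(28,0),(0,4)]⟩ ⟨1,[(29,0),(0,0),(11,1),(3,1)]⟩),⟨false,1,⟨1,[(22,0),(0,0),(20,0)]⟩,⟨0,[]⟩⟩,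
  ⟨true,0,⟨0,[(46,0)]⟩,⟨0,[]⟩⟩,⟨true,0,⟨0,[(42,0)]⟩,⟨0,[(41,0)]⟩⟩,⟨false,0,⟨0,[(42,0)]⟩,⟨0,[(41,0),
  (2,0)]⟩⟩,[.o ⟨false,1,⟨0,[(22,0)]⟩,⟨0,[(9,0)]⟩⟩,.a ⟨true,1,⟨0,[(3,0),(8,0),(0,0),(28,0),(1,0)]⟩,
  ⟨0,[(8,0)]⟩⟩ ⟨true,1,⟨0,[(44,0)]⟩,⟨2,[(1,0),(6,0),(3,4),(0,4),(15,3),(9,0),(2,4)]⟩⟩ ⟨false,1,⟨1,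
  [(43,0),(0,0)]⟩,⟨0,[(46,0)]⟩⟩,.o ⟨false,1,⟨0,[(22,0)]⟩,⟨0,[(9,0)]⟩⟩,.o ⟨false,1,⟨1,[(22,1),(6,0),
  (0,0)]⟩,⟨0,[(0,0)]⟩⟩]⟩)))) (.Q [0,-2,0,1,2,0,1,1,-1,0,1,-1] (.p true [0,0,1] [0,0,0,0,1] (⟨0,[(29,
  0)]⟩,⟨0,[(28,0)]⟩) .k 2 (⟨0,[(22,0)]⟩,⟨0,[(21,0)]⟩) .k (.r (-1) ⟨13,[(9,3),(6,4),(7,9),(11,0),(2,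
  3),(1,11)]⟩ ⟨1,[(4,0),(5,0),(14,0),(0,0)]⟩)) (.S ⟨1,0,[0,1],[0,0,0,0,1],[0,2],(⟨0,[(23,0)]⟩,⟨0,
  [(22,0)]⟩),⟨0,[(3,0)]⟩,.k,(.r 0 ⟨0,[(38,0)]⟩ ⟨3,[(0,1),(7,1),(7,1),(10,0),(0,0),(11,1)]⟩),⟨true,0,
  ⟨0,[(44,0)]⟩,⟨0,[]⟩⟩,⟨false,1,⟨23,[(0,4),(8,4),(6,4),(4,9),(15,0),(4,6)]⟩,⟨0,[]⟩⟩,⟨false,0,⟨0,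
  [(40,0)]⟩,⟨0,[(39,0),(2,0)]⟩⟩,⟨true,0,⟨0,[(40,0)]⟩,⟨0,[(39,0)]⟩⟩,[.e ⟨false,0,⟨0,[(36,0)]⟩,⟨0,
  [(42,0)]⟩⟩ ⟨false,0,⟨1,[(5,0),(5,0),(0,0),(27,0)]⟩,⟨23,[(0,4),(8,4),(6,4),(4,9),(15,0),(4,6)]⟩⟩,
  .o ⟨false,0,⟨0,[(7,0)]⟩,⟨0,[(20,0)]⟩⟩,.o ⟨false,0,⟨0,[(7,0)]⟩,⟨0,[(20,0)]⟩⟩,.a ⟨true,(-1),⟨0,[(1,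
  0),(25,0)]⟩,⟨0,[(0,0),(10,0),(26,0)]⟩⟩ ⟨false,0,⟨1,[(5,0),(5,0),(0,0),(27,0)]⟩,⟨1,[(27,0),(0,0),
  (13,1)]⟩⟩ ⟨true,0,⟨1,[(5,0),(5,0),(0,0),(27,0)]⟩,⟨1,[(27,0),(0,0)]⟩⟩]⟩) (.Q [0,1,0,0,-1,0,0,0,1,
  -1,0,1] (.p true [0,0,0,0,1] [1] (⟨0,[(23,0)]⟩,⟨0,[(22,0)]⟩) .k 1 (⟨0,[]⟩,⟨0,[]⟩) .k .k) (.R ⟨1,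
  false,false,false,[0,0,1],[0,0,0,0,1],[0,0,0,0,0,0,0,1],(⟨0,[(31,0)]⟩,⟨0,[(30,0)]⟩),(⟨0,[(24,0)]⟩,
  ⟨0,[(23,0)]⟩),⟨0,[(20,0)]⟩,.k,.k,.k,.k,(.r (-1) ⟨0,[(13,0),(29,0)]⟩ ⟨0,[(27,0),(0,0),(12,0)]⟩),.k,
  ⟨false,1,⟨0,[(13,0),(27,0),(1,0)]⟩,⟨1,[(6,0),(5,0),(14,0),(0,0)]⟩⟩,⟨true,(-1),⟨0,[(2,0)]⟩,⟨0,[(21,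
  0),(6,0)]⟩⟩,⟨false,1,⟨1,[(21,0),(0,0),(20,0)]⟩,⟨0,[]⟩⟩,⟨false,(-1),⟨0,[(0,0),(11,0),(30,0)]⟩,⟨0,
  [(21,0),(4,0),(16,0)]⟩⟩,⟨true,0,⟨0,[(41,0)]⟩,⟨0,[(40,0)]⟩⟩,⟨false,(-1),⟨0,[(0,0),(11,0),(28,0),(1,
  0)]⟩,⟨0,[(15,0),(5,0),(21,0)]⟩⟩,[.o ⟨false,(-1),⟨0,[(0,0)]⟩,⟨1,[(21,2),(0,0),(20,0)]⟩⟩,.o ⟨false,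
  0,⟨0,[(8,0)]⟩,⟨0,[(21,0)]⟩⟩,.o ⟨false,1,⟨2,[(6,1),(2,0),(11,0),(6,0)]⟩,⟨0,[(16,0)]⟩⟩,.a ⟨true,0,
  ⟨0,[(28,0)]⟩,⟨0,[(25,0)]⟩⟩ ⟨false,1,⟨0,[(13,0),(27,0),(1,0)]⟩,⟨0,[(14,0),(13,0)]⟩⟩ ⟨true,(-1),⟨0,
  [(0,0),(24,0)]⟩,⟨0,[(21,0),(6,0)]⟩⟩]⟩) (.S ⟨1,0,[0,1],[0,0,0,0,1],[0,2],(⟨0,[(24,0)]⟩,⟨0,[(23,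
  0)]⟩),⟨0,[(4,0)]⟩,.k,(.r 0 ⟨0,[(39,0)]⟩ ⟨0,[(0,0),(8,0),(31,0)]⟩),⟨true,0,⟨0,[(45,0)]⟩,⟨0,[]⟩⟩,
  ⟨false,1,⟨8,[(0,4),(21,4),(15,0),(4,1)]⟩,⟨0,[]⟩⟩,⟨false,0,⟨0,[(41,0)]⟩,⟨0,[(40,0),(2,0)]⟩⟩,⟨true,
  0,⟨0,[(41,0)]⟩,⟨0,[(40,0)]⟩⟩,[.e ⟨false,0,⟨0,[(37,0)]⟩,⟨0,[(43,0)]⟩⟩ ⟨false,0,⟨1,[(6,0),(5,0),(0,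
  0),(27,0)]⟩,⟨8,[(0,4),(21,4),(15,0),(4,1)]⟩⟩,.o ⟨false,0,⟨0,[(8,0)]⟩,⟨0,[(21,0)]⟩⟩,.o ⟨false,0,⟨0,
  [(8,0)]⟩,⟨0,[(21,0)]⟩⟩,.a ⟨true,(-1),⟨0,[(2,0),(25,0)]⟩,⟨1,[(0,1),(5,0),(5,0),(0,0),(27,0)]⟩⟩
  ⟨false,0,⟨1,[(6,0),(5,0),(0,0),(27,0)]⟩,⟨1,[(28,0),(0,0),(13,1)]⟩⟩ ⟨true,0,⟨1,[(6,0),(5,0),(0,0),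
  (27,0)]⟩,⟨1,[(28,0),(0,0)]⟩⟩]⟩))))) (.Q [0,0,0,0,-1,0,-1,-1,1,0,-1,1] (.p true [1,0,-1,0,1] [1]
  (⟨0,[(20,0),(5,0)]⟩,⟨0,[(0,0),(15,0)]⟩) .k 1 (⟨0,[]⟩,⟨0,[]⟩) .k (.r 0 ⟨1,[(2,0),(5,0),(14,0),(0,
  0)]⟩ ⟨13,[(7,3),(6,4),(7,9),(11,0),(2,3),(1,11)]⟩)) (.I [1,2,1,0,-1,0,0,-1] (.R ⟨1,false,false,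
  true,[1,0,0,0,-1],[1,-1],[0,-1],(⟨0,[(21,0)]⟩,⟨0,[(22,0)]⟩),(⟨0,[(33,0)]⟩,⟨0,[(34,0)]⟩),⟨0,[(2,0),
  (14,0),(0,0)]⟩,.k,.k,(.r (-1) ⟨0,[(37,0),(3,0)]⟩ ⟨1,[(26,0),(0,0),(11,1),(3,1)]⟩),(.r (-1) ⟨5,[(7,
  1),(8,1),(2,2),(0,0),(5,3),(12,5),(1,2)]⟩ ⟨0,[(37,0)]⟩),.k,.k,⟨false,1,⟨0,[(39,0),(1,0)]⟩,⟨1,[(35,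
  0),(1,0),(0,0)]⟩⟩,⟨true,(-1),⟨0,[(1,0),(7,0),(16,0),(12,0)]⟩,⟨0,[(19,0)]⟩⟩,⟨false,1,⟨1,[(19,0),(0,
  0),(20,0)]⟩,⟨0,[]⟩⟩,⟨false,(-1),⟨0,[(1,0),(11,0)]⟩,⟨0,[(19,0),(19,0),(1,0)]⟩⟩,⟨true,0,⟨0,[(39,
  0)]⟩,⟨0,[(38,0)]⟩⟩,⟨false,(-1),⟨0,[(5,0)]⟩,⟨0,[(19,0),(21,0)]⟩⟩,[.o ⟨false,0,⟨0,[(38,0)]⟩,⟨9,[(19,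
  0),(0,0),(15,1),(2,9),(1,4)]⟩⟩,.a ⟨true,0,⟨1,[(3,0),(9,0),(9,0),(2,0),(14,0)]⟩,⟨0,[(39,0)]⟩⟩
  ⟨true,1,⟨0,[(41,0)]⟩,⟨0,[(0,0),(8,0),(29,0)]⟩⟩ ⟨false,0,⟨1,[(1,1),(11,1),(26,0),(0,0)]⟩,⟨0,[(19,
  0),(19,0)]⟩⟩,.o ⟨false,1,⟨0,[(19,0)]⟩,⟨0,[(6,0)]⟩⟩,.o ⟨false,1,⟨1,[(19,1),(6,0),(0,0)]⟩,⟨0,[(1,0),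
  (2,0),(4,0),(29,0)]⟩⟩]⟩) (.S ⟨1,0,[0,0,-1,-1],[1,-1],[0,1,-1,-1],(⟨0,[(33,0)]⟩,⟨0,[(34,0)]⟩),⟨0,
  [(17,0),(0,0)]⟩,.k,(.r (-1) ⟨0,[(37,1),(3,0)]⟩ ⟨0,[(26,0),(0,0),(11,1)]⟩),⟨true,0,⟨0,[(43,0)]⟩,⟨0,
  []⟩⟩,⟨false,1,⟨1,[(19,0),(0,0),(20,0)]⟩,⟨0,[]⟩⟩,⟨false,0,⟨0,[(39,0)]⟩,⟨0,[(38,0),(2,0)]⟩⟩,⟨true,0,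
  ⟨0,[(39,0)]⟩,⟨0,[(38,0)]⟩⟩,[.a ⟨true,0,⟨1,[(3,0),(9,0),(9,0),(2,0),(14,0)]⟩,⟨0,[(39,0)]⟩⟩ ⟨true,0,
  ⟨0,[(37,0)]⟩,⟨0,[(0,2),(8,1),(0,4),(15,4),(9,0),(2,2)]⟩⟩ ⟨false,1,⟨1,[(37,1),(2,0),(0,0)]⟩,⟨1,
  [(26,0),(0,0),(11,1)]⟩⟩,.e ⟨false,1,⟨1,[(37,1),(2,0),(0,0)]⟩,⟨1,[(26,0),(0,0),(11,1)]⟩⟩ ⟨false,1,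
  ⟨0,[(0,0),(2,0),(0,0)]⟩,⟨1,[(26,0),(0,0),(11,1),(3,1)]⟩⟩,.o ⟨false,0,⟨1,[(26,0),(0,0)]⟩,⟨9,[(19,
  0),(0,0),(15,1),(3,4)]⟩⟩,.e ⟨false,1,⟨1,[(37,1),(2,0),(0,0)]⟩,⟨0,[(0,2),(8,1),(0,4),(15,4),(9,0),
  (2,2)]⟩⟩ ⟨false,1,⟨0,[(0,0),(2,0),(0,0)]⟩,⟨0,[(26,0),(0,0),(11,0)]⟩⟩]⟩)) (.Q [0,0,-1,0,1,0,0,0,-1,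
  0,0,-1] (.p false [0,0,0,0,1] [] (⟨0,[(21,0)]⟩,⟨0,[(20,0)]⟩) .k 0 (⟨0,[]⟩,⟨0,[]⟩) .k .k) (.R ⟨0,
  false,false,false,[0,0,0,0,1],[1,0,-1,0,1],[1,1],(⟨0,[(22,0)]⟩,⟨0,[(21,0)]⟩),(⟨0,[(22,0),(5,0)]⟩,
  ⟨0,[(2,0),(15,0)]⟩),⟨0,[(2,0)]⟩,.k,.k,(.r 0 ⟨0,[(37,0)]⟩ ⟨5,[(7,1),(8,1),(2,2),(0,0),(5,3),(12,5),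
  (1,2)]⟩),.k,.k,.k,⟨true,0,⟨0,[(9,0),(29,0)]⟩,⟨0,[(12,0),(13,0)]⟩⟩,⟨false,0,⟨0,[(23,0)]⟩,⟨2,[(4,1),
  (2,0),(11,0),(6,0)]⟩⟩,⟨true,0,⟨0,[]⟩,⟨0,[(43,0)]⟩⟩,⟨false,0,⟨0,[(10,0),(30,0)]⟩,⟨4,[(1,0),(18,0),
  (3,3),(11,0),(4,1)]⟩⟩,⟨false,0,⟨0,[]⟩,⟨0,[]⟩⟩,⟨false,0,⟨0,[]⟩,⟨0,[]⟩⟩,[.o ⟨false,(-1),⟨0,[(6,0),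
  (3,0)]⟩,⟨9,[(1,9),(17,0),(0,0),(15,1),(4,4)]⟩⟩,.a ⟨true,(-1),⟨0,[(5,0),(4,0),(30,0)]⟩,⟨0,[(1,
  0)]⟩⟩ ⟨true,0,⟨0,[]⟩,⟨1,[(26,0),(0,0)]⟩⟩ ⟨false,0,⟨1,[(10,1),(29,0),(0,0)]⟩,⟨4,[(1,0),(18,0),(3,
  3),(11,0),(4,1)]⟩⟩,.o ⟨false,0,⟨0,[(6,0)]⟩,⟨0,[(19,0)]⟩⟩,.o ⟨false,0,⟨0,[(7,0)]⟩,⟨0,[(0,0)]⟩⟩]⟩)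
  (.R ⟨0,false,false,true,[0,0,0,0,1],[1,0,-1,0,1],[1,2],(⟨0,[(22,0)]⟩,⟨0,[(21,0)]⟩),(⟨0,[(22,0),(5,
  0)]⟩,⟨0,[(2,0),(15,0)]⟩),⟨0,[(2,0)]⟩,.k,.k,(.r 0 ⟨0,[(37,0)]⟩ ⟨5,[(7,1),(8,1),(2,2),(0,0),(5,3),
  (12,5),(1,2)]⟩),.k,.k,.k,⟨true,0,⟨0,[(9,0),(29,0)]⟩,⟨0,[(12,0),(13,0)]⟩⟩,⟨false,0,⟨0,[(23,0)]⟩,⟨2,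
  [(4,1),(2,0),(11,0),(6,0)]⟩⟩,⟨false,0,⟨0,[]⟩,⟨1,[(19,0),(0,0),(20,0)]⟩⟩,⟨true,(-1),⟨0,[(10,0)]⟩,
  ⟨4,[(1,0),(18,0),(3,3),(11,0),(4,1)]⟩⟩,⟨false,0,⟨0,[]⟩,⟨0,[]⟩⟩,⟨false,0,⟨0,[]⟩,⟨0,[]⟩⟩,[.e ⟨false,
  0,⟨0,[(35,0)]⟩,⟨0,[(41,0)]⟩⟩ ⟨false,(-1),⟨1,[(4,0),(5,2),(0,0),(27,0)]⟩,⟨4,[(1,0),(18,0),(3,3),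
  (11,0),(4,6)]⟩⟩,.o ⟨false,(-1),⟨0,[(6,0),(3,0)]⟩,⟨9,[(1,9),(17,0),(0,0),(15,1),(4,4)]⟩⟩,.o ⟨false,
  0,⟨0,[(6,0)]⟩,⟨0,[(19,0)]⟩⟩,.a ⟨true,(-1),⟨0,[(0,0)]⟩,⟨1,[(1,1),(8,1),(29,0),(0,0)]⟩⟩ ⟨false,0,⟨1,
  [(4,0),(5,0),(0,0),(27,0)]⟩,⟨1,[(26,0),(0,0),(13,1)]⟩⟩ ⟨true,(-1),⟨1,[(4,0),(5,2),(0,0),(27,0)]⟩,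
  ⟨5,[(0,4),(0,5),(5,0),(28,0),(4,2)]⟩⟩]⟩)))))) (.R ⟨1,false,false,false,[0,0,1],[0,0,0,0,1],[1,1,0,
  -1,0,0,0,1],(⟨0,[(24,0)]⟩,⟨0,[(23,0)]⟩),(⟨0,[(17,0)]⟩,⟨0,[(16,0)]⟩),⟨0,[(13,0)]⟩,.k,.k,.k,.k,(.r
  (-1) ⟨0,[(6,0),(29,0)]⟩ ⟨0,[(20,0),(0,0),(12,0)]⟩),.k,⟨true,0,⟨0,[(4,0)]⟩,⟨0,[(7,0),(13,0),(12,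
  0)]⟩⟩,⟨false,0,⟨0,[(1,0),(16,0)]⟩,⟨0,[(0,0),(20,0),(10,0),(1,0)]⟩⟩,⟨true,0,⟨0,[(33,0)]⟩,⟨0,[(34,
  0)]⟩⟩,⟨true,(-1),⟨0,[(1,0),(3,0)]⟩,⟨0,[(0,0),(18,0)]⟩⟩,⟨false,0,⟨0,[]⟩,⟨1,[(14,0),(0,0),(20,0)]⟩⟩,
  ⟨true,(-1),⟨0,[(1,0),(3,0),(28,0)]⟩,⟨0,[(0,0),(7,0)]⟩⟩,[.o ⟨false,0,⟨1,[(1,0),(0,0),(27,0)]⟩,⟨0,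
  [(0,0)]⟩⟩,.o ⟨false,0,⟨0,[(1,0)]⟩,⟨0,[(14,0)]⟩⟩,.o ⟨false,1,⟨9,[(14,0),(0,0),(5,9),(9,1),(3,4)]⟩,
  ⟨0,[(9,0)]⟩⟩,.a ⟨true,0,⟨0,[(21,0)]⟩,⟨0,[(18,0)]⟩⟩ ⟨true,0,⟨0,[(6,0)]⟩,⟨0,[(7,0),(13,0),(12,0)]⟩⟩
  ⟨false,0,⟨0,[(1,0),(16,0)]⟩,⟨0,[(0,0),(20,0)]⟩⟩]⟩))) (.Q [0,0,0,0,0,1,0,0,0,-1,0,1] (.ed false [0,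
  1,0,0,1] .k) (.I [1,-1,2,1] (.Q [0,0,1,0,0,0,0,0,-1,0,0,-1] (.p false [0,0,0,0,1] [] (⟨0,[(17,
  0)]⟩,⟨0,[(16,0)]⟩) .k 0 (⟨0,[]⟩,⟨0,[]⟩) .k .k) (.R ⟨0,false,false,true,[1,0,0,0,-1],[1,0,1,0,-1],
  [1,0,1],(⟨0,[(17,0)]⟩,⟨0,[(18,0)]⟩),(⟨0,[(17,0),(7,0)]⟩,⟨0,[(2,0),(10,0)]⟩),⟨0,[(2,0)]⟩,.k,.k,(.r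
  (-1) ⟨0,[(33,0),(3,0)]⟩ ⟨0,[(1,0),(29,0)]⟩),.k,.k,.k,⟨true,0,⟨0,[(8,0),(13,0)]⟩,⟨0,[(5,0),(29,
  0)]⟩⟩,⟨false,1,⟨0,[(22,0),(13,0)]⟩,⟨0,[(10,0)]⟩⟩,⟨false,0,⟨1,[(22,0),(0,0)]⟩,⟨1,[(36,0),(0,0)]⟩⟩,
  ⟨true,0,⟨0,[(20,0)]⟩,⟨0,[(8,0)]⟩⟩,⟨false,0,⟨0,[]⟩,⟨0,[]⟩⟩,⟨false,0,⟨0,[]⟩,⟨0,[]⟩⟩,[.e ⟨false,0,⟨0,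
  []⟩,⟨1,[(15,0),(0,0),(19,0)]⟩⟩ ⟨false,1,⟨1,[(20,1),(15,0),(0,0)]⟩,⟨0,[(8,0)]⟩⟩,.o ⟨false,1,⟨4,[(1,
  0),(1,4),(1,2),(14,1),(1,2),(9,0),(2,1),(1,2)]⟩,⟨5,[(6,3),(1,0),(7,5),(4,0),(10,1),(6,0)]⟩⟩,.a
  ⟨true,0,⟨3,[(0,0),(2,2),(8,0),(9,1)]⟩,⟨0,[(16,0)]⟩⟩ ⟨true,0,⟨1,[(22,0),(0,0)]⟩,⟨0,[(33,0),(1,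
  0)]⟩⟩ ⟨false,1,⟨0,[(20,0),(16,0)]⟩,⟨0,[(8,0)]⟩⟩,.o ⟨false,0,⟨0,[(0,0)]⟩,⟨9,[(15,0),(0,10),(15,1),
  (3,4)]⟩⟩]⟩) (.R ⟨0,false,false,false,[-1,1,0,0,1],[0,0,0,0,1],[0,1,1],(⟨0,[(2,0)]⟩,⟨0,[(17,0),(11,
  0)]⟩),(⟨0,[(18,0)]⟩,⟨0,[(17,0)]⟩),⟨0,[(17,0)]⟩,(.r 0 ⟨0,[(1,0),(29,0)]⟩ ⟨0,[(33,0),(3,0)]⟩),.k,.k,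
  .k,.k,.k,⟨true,0,⟨1,[(22,0),(0,0)]⟩,⟨0,[]⟩⟩,⟨false,0,⟨0,[(19,0),(2,0)]⟩,⟨9,[(15,0),(0,0),(15,1),
  (3,4)]⟩⟩,⟨false,1,⟨0,[(34,0),(2,0)]⟩,⟨0,[(35,0)]⟩⟩,⟨true,0,⟨0,[(6,0),(2,0),(27,0)]⟩,⟨1,[(0,0),(2,
  0),(1,1),(0,1),(15,1),(9,0),(2,3)]⟩⟩,⟨false,0,⟨0,[]⟩,⟨0,[]⟩⟩,⟨false,0,⟨0,[]⟩,⟨0,[]⟩⟩,[.o ⟨false,0,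
  ⟨5,[(0,4),(0,1),(4,3),(2,1),(6,0),(3,1),(11,1),(5,0)]⟩,⟨16,[(1,4),(1,9),(0,4),(10,1),(16,1),(4,
  5)]⟩⟩,.a ⟨true,0,⟨0,[(16,0)]⟩,⟨4,[(1,1),(1,3),(0,0),(1,0),(2,0)]⟩⟩ ⟨true,0,⟨1,[(22,0),(0,0)]⟩,⟨0,
  []⟩⟩ ⟨false,0,⟨0,[(19,0),(2,0)]⟩,⟨9,[(15,0),(0,0),(15,1),(3,4)]⟩⟩,.o ⟨false,1,⟨19,[(0,13),(15,5),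
  (15,7),(3,2),(0,0),(1,1)]⟩,⟨4,[(1,3),(1,2),(0,1),(1,1),(2,1)]⟩⟩,.o ⟨false,1,⟨24,[(15,2),(0,27),
  (15,9),(4,1),(1,3)]⟩,⟨4,[(1,1),(1,3),(0,0),(1,0),(2,0)]⟩⟩]⟩)) (.Q [0,-1,0,1,1,0,1,1,0,-1,1] (.p
  true [0,0,1] [1] (⟨0,[(24,0)]⟩,⟨0,[(23,0)]⟩) .k 1 (⟨0,[]⟩,⟨0,[]⟩) .k .k) (.R ⟨1,false,false,true,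
  [0,0,1],[1,-1],[0,1,0,-1],(⟨0,[(25,0)]⟩,⟨0,[(24,0)]⟩),(⟨0,[(29,0)]⟩,⟨0,[(30,0)]⟩),⟨0,[(14,0)]⟩,.k,
  .k,.k,.k,.k,.k,⟨true,0,⟨1,[(22,0),(0,0)]⟩,⟨0,[]⟩⟩,⟨false,0,⟨1,[(12,0),(6,0),(2,0)]⟩,⟨4,[(1,3),(20,
  4),(9,0),(2,3),(0,0),(0,1)]⟩⟩,⟨true,0,⟨1,[(1,0),(6,1),(13,1),(11,0)]⟩,⟨0,[(5,0),(29,1)]⟩⟩,⟨false,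
  0,⟨0,[(6,0),(27,0),(2,0)]⟩,⟨0,[(0,0)]⟩⟩,⟨true,0,⟨5,[(6,4),(14,0),(0,5),(9,0),(3,2)]⟩,⟨0,[(5,0),
  (29,0)]⟩⟩,⟨true,(-1),⟨0,[(6,0)]⟩,⟨20,[(0,10),(3,5),(4,4),(6,5),(3,4),(11,1),(6,0)]⟩⟩,[.o ⟨false,0,
  ⟨0,[(34,0)]⟩,⟨4,[(0,0),(10,0),(20,0),(2,3),(1,1)]⟩⟩,.e ⟨false,1,⟨1,[(34,1),(1,0),(0,0)]⟩,⟨0,[(35,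
  0)]⟩⟩ ⟨false,0,⟨2,[(1,0),(3,1),(0,0),(4,0),(7,0),(17,0)]⟩,⟨5,[(0,0),(20,0),(0,5),(9,0),(2,4),(0,
  2)]⟩⟩,.o ⟨false,1,⟨9,[(15,0),(0,0),(5,9),(9,1),(3,4)]⟩,⟨0,[(10,0)]⟩⟩,.a ⟨true,0,⟨0,[(22,0)]⟩,⟨0,
  [(19,0)]⟩⟩ ⟨true,0,⟨0,[(33,0)]⟩,⟨1,[(22,0),(0,0),(11,1)]⟩⟩ ⟨false,0,⟨2,[(1,0),(3,1),(0,0),(4,0),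
  (7,0),(17,0)]⟩,⟨4,[(0,0),(10,0),(10,4),(9,0),(2,3),(1,1)]⟩⟩]⟩) (.Q [0,0,1,0,0,0,0,0,-1,0,0,-1]
  (.p false [0,0,0,0,1] [] (⟨0,[(18,0)]⟩,⟨0,[(17,0)]⟩) .k 0 (⟨0,[]⟩,⟨0,[]⟩) .k .k) (.R ⟨0,false,
  false,false,[1,0,0,0,-1],[0,1],[1,0,1,1],(⟨0,[(18,0)]⟩,⟨0,[(19,0)]⟩),(⟨0,[(31,0)]⟩,⟨0,[(30,0)]⟩),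
  ⟨0,[(3,0)]⟩,.k,.k,(.r (-1) ⟨1,[(2,0),(32,0),(2,1)]⟩ ⟨1,[(23,0),(0,0),(11,1),(3,1)]⟩),(.r (-1) ⟨1,
  [(2,0),(32,0),(2,1)]⟩ ⟨1,[(23,0),(0,0),(11,1),(3,1)]⟩),.k,.k,⟨true,0,⟨0,[]⟩,⟨1,[(23,0),(0,0)]⟩⟩,
  ⟨false,1,⟨4,[(2,3),(14,4),(15,0),(2,3),(0,0),(0,1)]⟩,⟨1,[(0,0),(3,0),(8,0),(9,1)]⟩⟩,⟨false,0,⟨1,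
  [(23,0),(0,0),(11,1)]⟩,⟨1,[(2,0),(32,0),(2,1)]⟩⟩,⟨true,0,⟨2,[(2,0),(3,1),(0,1),(9,2),(5,1),(9,0),
  (2,5)]⟩,⟨4,[(0,0),(0,1),(2,2),(0,0),(0,1),(16,1),(14,0)]⟩⟩,⟨false,0,⟨0,[]⟩,⟨0,[]⟩⟩,⟨false,0,⟨0,
  []⟩,⟨0,[]⟩⟩,[.e ⟨false,0,⟨0,[(36,0)]⟩,⟨1,[(35,1),(1,0),(0,0)]⟩⟩ ⟨false,1,⟨9,[(16,0),(0,10),(15,1),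
  (2,9),(0,4)]⟩,⟨4,[(0,0),(0,1),(2,2),(0,0),(0,1),(16,1),(14,0)]⟩⟩,.o ⟨false,1,⟨9,[(16,0),(0,0),(15,
  1),(2,9),(1,4)]⟩,⟨0,[(35,0)]⟩⟩,.a ⟨true,0,⟨3,[(0,0),(3,2),(8,0),(9,1)]⟩,⟨0,[(17,0)]⟩⟩ ⟨true,0,⟨1,
  [(23,0),(0,0),(11,1)]⟩,⟨0,[(34,0)]⟩⟩ ⟨false,1,⟨9,[(16,0),(0,10),(15,1),(2,9),(1,4)]⟩,⟨4,[(0,0),(0,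
  1),(2,2),(0,0),(0,1),(16,1),(14,0)]⟩⟩,.o ⟨false,0,⟨0,[(0,0)]⟩,⟨9,[(16,0),(0,10),(15,1),(3,
  4)]⟩⟩]⟩) (.R ⟨0,false,false,false,[-1,1,0,0,1],[0,0,0,0,1],[1,1],(⟨0,[(3,0)]⟩,⟨0,[(18,0),(11,
  0)]⟩),(⟨0,[(19,0)]⟩,⟨0,[(18,0)]⟩),⟨0,[(18,0)]⟩,(.r 0 ⟨1,[(23,0),(0,0),(11,1),(3,1)]⟩ ⟨1,[(2,0),
  (32,0),(2,1)]⟩),.k,.k,.k,.k,.k,⟨true,0,⟨0,[]⟩,⟨1,[(23,0),(0,0)]⟩⟩,⟨false,0,⟨0,[(20,0),(2,0)]⟩,⟨9,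
  [(16,0),(0,0),(15,1),(3,4)]⟩⟩,⟨false,1,⟨1,[(2,0),(32,0),(2,1)]⟩,⟨1,[(23,0),(0,0),(11,1)]⟩⟩,⟨true,
  0,⟨1,[(1,0),(8,0),(9,0),(2,0),(14,0)]⟩,⟨2,[(2,0),(3,1),(0,1),(15,1),(9,0),(2,5)]⟩⟩,⟨false,0,⟨0,
  []⟩,⟨0,[]⟩⟩,⟨false,0,⟨0,[]⟩,⟨0,[]⟩⟩,[.o ⟨false,0,⟨2,[(0,0),(5,0),(0,1),(9,1),(3,0),(1,0),(9,0),(2,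
  0)]⟩,⟨11,[(4,9),(11,1),(6,4),(0,4),(8,1),(4,5)]⟩⟩,.a ⟨true,0,⟨0,[(17,0)]⟩,⟨1,[(4,1),(18,0),(0,
  0)]⟩⟩ ⟨true,0,⟨0,[]⟩,⟨1,[(23,0),(0,0)]⟩⟩ ⟨false,0,⟨0,[(20,0),(2,0)]⟩,⟨9,[(16,0),(0,0),(15,1),(3,
  4)]⟩⟩,.o ⟨false,1,⟨19,[(0,13),(16,5),(15,7),(3,2),(0,0),(1,1)]⟩,⟨0,[(4,0),(18,0),(0,0)]⟩⟩,.o
  ⟨false,1,⟨24,[(16,2),(0,27),(15,9),(4,1),(1,3)]⟩,⟨1,[(4,1),(18,0),(0,0)]⟩⟩]⟩)))) (.Q [0,0,-1,0,0,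
  0,-1,0,1,0,-1,1] (.p false [0,0,1] [0,0,0,0,1] (⟨0,[(23,0)]⟩,⟨0,[(22,0)]⟩) .k 2 (⟨0,[(16,0)]⟩,⟨0,
  [(15,0)]⟩) .k (.r (-1) ⟨13,[(3,3),(6,4),(7,9),(11,0),(2,3),(1,11)]⟩ ⟨5,[(4,4),(14,0),(0,5),(9,0),
  (3,2)]⟩)) (.Q [0,1,0,1,-1,0,-1,-1,-1,1,-1,-1] (.p false [0,0,1] [1,0,0,0,-1] (⟨0,[(24,0)]⟩,⟨0,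
  [(23,0)]⟩) .k 2 (⟨0,[(16,0)]⟩,⟨0,[(17,0)]⟩) .k (.r 0 ⟨0,[(9,0),(9,0)]⟩ ⟨1,[(7,1),(13,1),(13,0),(0,
  0)]⟩)) (.Q [0,1,0,0,0,0,1,1,-1,0,1,-1] (.p true [0,0,1] [0,0,0,0,1] (⟨0,[(25,0)]⟩,⟨0,[(24,0)]⟩)
  .k 2 (⟨0,[(18,0)]⟩,⟨0,[(17,0)]⟩) .k (.r (-1) ⟨13,[(5,3),(6,4),(7,9),(11,0),(2,3),(1,11)]⟩ ⟨5,[(6,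
  4),(14,0),(0,5),(9,0),(3,2)]⟩)) (.R ⟨1,false,false,false,[1,0,0,0,-1],[1,0,-1],[],(⟨0,[(18,0)]⟩,
  ⟨0,[(19,0)]⟩),(⟨0,[(25,0)]⟩,⟨0,[(26,0)]⟩),⟨0,[(3,0)]⟩,.k,.k,(.r (-1) ⟨0,[(34,0),(3,0)]⟩ ⟨1,[(23,
  0),(0,0),(11,1),(3,1)]⟩),.k,(.r (-1) ⟨0,[(8,0),(29,0)]⟩ ⟨0,[(22,0),(0,0),(12,0)]⟩),.k,⟨true,0,⟨0,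
  [(6,0),(29,0)]⟩,⟨0,[(9,0),(13,0)]⟩⟩,⟨false,0,⟨0,[(2,0)]⟩,⟨10,[(4,4),(11,5),(6,10),(9,0),(3,2)]⟩⟩,
  ⟨true,0,⟨0,[(40,0)]⟩,⟨0,[]⟩⟩,⟨false,0,⟨0,[(9,0),(7,0)]⟩,⟨0,[(0,0),(37,0)]⟩⟩,⟨false,0,⟨0,[(36,0)]⟩,
  ⟨0,[(35,0),(2,0)]⟩⟩,⟨false,0,⟨0,[(9,0),(7,0),(18,0)]⟩,⟨11,[(0,0),(3,9),(0,0),(0,9),(3,0),(12,9),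
  (9,1),(4,6)]⟩⟩,[.o ⟨false,0,⟨0,[(9,0)]⟩,⟨9,[(16,0),(0,0),(3,9),(11,1),(4,4)]⟩⟩,.e ⟨false,1,⟨1,
  [(37,0),(0,0)]⟩,⟨0,[(40,0)]⟩⟩ ⟨false,1,⟨1,[(9,1),(7,1),(19,0),(0,0)]⟩,⟨0,[(0,0)]⟩⟩,.a ⟨true,0,⟨1,
  [(4,1),(18,0),(0,0)]⟩,⟨0,[(17,0)]⟩⟩ ⟨false,1,⟨1,[(16,0),(0,0),(20,0)]⟩,⟨0,[]⟩⟩ ⟨true,0,⟨0,[(9,0),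
  (7,0)]⟩,⟨0,[(0,0)]⟩⟩,.o ⟨false,0,⟨33,[(0,1),(0,29),(3,1),(0,27),(16,30),(0,2),(8,5),(4,15)]⟩,⟨9,
  [(16,0),(0,10),(15,1),(3,4)]⟩⟩]⟩) (.R ⟨1,false,false,false,[1,0,0,0,-1],[1,0,-1],[],(⟨0,[(18,0)]⟩,
  ⟨0,[(19,0)]⟩),(⟨0,[(25,0)]⟩,⟨0,[(26,0)]⟩),⟨0,[(3,0)]⟩,.k,.k,(.r (-1) ⟨0,[(34,0),(3,0)]⟩ ⟨1,[(23,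
  0),(0,0),(11,1),(3,1)]⟩),.k,(.r (-1) ⟨0,[(8,0),(29,0)]⟩ ⟨0,[(22,0),(0,0),(12,0)]⟩),.k,⟨true,0,⟨0,
  [(6,0),(29,0)]⟩,⟨0,[(9,0),(13,0)]⟩⟩,⟨false,0,⟨0,[(2,0)]⟩,⟨10,[(4,4),(11,5),(6,10),(9,0),(3,2)]⟩⟩,
  ⟨true,0,⟨0,[(40,0)]⟩,⟨0,[]⟩⟩,⟨false,0,⟨1,[(0,0),(16,0),(4,0)]⟩,⟨10,[(4,9),(1,9),(9,0),(4,0),(1,9),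
  (9,1),(2,9),(1,5)]⟩⟩,⟨false,0,⟨0,[(36,0)]⟩,⟨1,[(0,0),(4,0),(4,0),(27,0)]⟩⟩,⟨false,0,⟨1,[(0,0),(16,
  0),(4,0),(13,1)]⟩,⟨10,[(4,9),(1,9),(3,0),(5,0),(6,9),(9,1),(4,5)]⟩⟩,[.o ⟨false,0,⟨0,[(9,0)]⟩,⟨9,
  [(16,0),(0,0),(3,9),(11,1),(4,4)]⟩⟩,.a ⟨true,0,⟨0,[(7,0),(30,0)]⟩,⟨0,[(21,0)]⟩⟩ ⟨false,1,⟨1,[(37,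
  0),(0,0)]⟩,⟨0,[(40,0)]⟩⟩ ⟨true,0,⟨0,[(0,0)]⟩,⟨6,[(1,3),(2,0),(1,7),(9,1),(4,2),(1,7),(9,0),(2,
  3)]⟩⟩,.e ⟨false,1,⟨1,[(16,0),(0,0),(20,0)]⟩,⟨0,[]⟩⟩ ⟨false,0,⟨0,[(0,0)]⟩,⟨10,[(4,4),(1,4),(9,5),
  (4,5),(1,4),(9,0),(2,4),(1,2)]⟩⟩,.o ⟨false,0,⟨21,[(1,19),(4,19),(9,1),(6,20),(0,0),(8,3),(4,9)]⟩,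
  ⟨9,[(16,0),(0,10),(15,1),(3,4)]⟩⟩]⟩)) (.Q [0,0,0,0,0,-1,0,0,0,0,0,1] (.ed false [1,-1,0,0,1] .k)
  (.Q [0,-1,0,0,0,0,-1,-1,-1,1,-1,-1] (.p false [0,0,1] [1,0,0,0,-1] (⟨0,[(26,0)]⟩,⟨0,[(25,0)]⟩) .k
  2 (⟨0,[(18,0)]⟩,⟨0,[(19,0)]⟩) .k (.r 0 ⟨0,[(11,0),(9,0)]⟩ ⟨1,[(9,1),(13,1),(13,0),(0,0)]⟩)) (.R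
  ⟨1,false,false,false,[1,0,0,0,-1],[0,-1,1],[],(⟨0,[(19,0)]⟩,⟨0,[(20,0)]⟩),(⟨0,[(16,0)]⟩,⟨0,[(26,
  0),(2,0)]⟩),⟨0,[(4,0)]⟩,.k,.k,(.r (-1) ⟨0,[(35,0),(3,0)]⟩ ⟨1,[(24,0),(0,0),(11,1),(3,1)]⟩),(.r
  (-1) ⟨9,[(13,9),(3,0),(0,0),(5,9),(9,1),(2,9),(1,4)]⟩ ⟨0,[(7,0),(27,0),(1,0)]⟩),.k,.k,⟨true,0,⟨0,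
  [(10,0),(13,0),(12,0)]⟩,⟨0,[(7,0)]⟩⟩,⟨false,1,⟨9,[(17,0),(0,10),(5,9),(9,1),(3,4)]⟩,⟨0,[(5,0),(6,
  0)]⟩⟩,⟨true,0,⟨0,[(41,0)]⟩,⟨0,[]⟩⟩,⟨false,1,⟨0,[(2,0),(38,0)]⟩,⟨0,[(0,0),(36,0)]⟩⟩,⟨false,0,⟨0,
  [(37,0)]⟩,⟨2,[(0,0),(1,1),(3,0),(6,0)]⟩⟩,⟨false,1,⟨9,[(2,4),(14,2),(0,7),(3,4),(11,0),(2,4)]⟩,⟨0,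
  [(0,0)]⟩⟩,[.o ⟨false,1,⟨5,[(2,0),(3,0),(4,3),(10,0),(11,0),(4,1)]⟩,⟨0,[(10,0),(26,0)]⟩⟩,.a ⟨true,
  1,⟨0,[(11,0),(27,0)]⟩,⟨0,[(8,0),(28,0)]⟩⟩ ⟨false,1,⟨1,[(38,0),(0,0)]⟩,⟨0,[(41,0)]⟩⟩ ⟨true,1,⟨0,
  [(2,0)]⟩,⟨2,[(0,1),(4,0),(1,3),(0,4),(15,3),(9,0),(2,6)]⟩⟩,.e ⟨false,1,⟨1,[(17,0),(0,0),(20,0)]⟩,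
  ⟨0,[]⟩⟩ ⟨false,1,⟨0,[(2,0)]⟩,⟨1,[(0,0),(7,0),(8,0),(19,1)]⟩⟩,.o ⟨false,0,⟨2,[(0,1),(4,0),(1,3),(0,
  1),(15,3),(9,0),(2,3)]⟩,⟨9,[(17,0),(0,10),(15,1),(3,4)]⟩⟩]⟩) (.Q [0,0,1,0,0,0,0,0,-1,0,0,-1] (.p
  false [0,0,0,0,1] [] (⟨0,[(20,0)]⟩,⟨0,[(19,0)]⟩) .k 0 (⟨0,[]⟩,⟨0,[]⟩) .k .k) (.S ⟨1,0,[0,-1],[1,0,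
  0,0,-1],[],(⟨0,[(20,0)]⟩,⟨0,[(21,0)]⟩),⟨0,[(5,0)]⟩,.k,(.r (-1) ⟨0,[(36,0),(3,0)]⟩ ⟨1,[(25,0),(0,
  0),(11,1),(3,1)]⟩),⟨true,0,⟨0,[(42,0)]⟩,⟨0,[]⟩⟩,⟨false,1,⟨1,[(18,0),(0,0),(20,0)]⟩,⟨0,[]⟩⟩,⟨false,
  0,⟨0,[(38,0)]⟩,⟨0,[(37,0),(2,0)]⟩⟩,⟨true,0,⟨0,[(38,0)]⟩,⟨0,[(37,0)]⟩⟩,[.o ⟨false,1,⟨15,[(0,4),(5,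
  4),(11,5),(16,0),(4,7)]⟩,⟨10,[(1,4),(7,3),(9,5),(4,0),(10,1),(6,0)]⟩⟩,.a ⟨true,1,⟨3,[(0,0),(5,2),
  (8,0),(9,1),(14,3)]⟩,⟨0,[(1,0),(7,0)]⟩⟩ ⟨false,1,⟨1,[(39,0),(0,0)]⟩,⟨0,[(42,0)]⟩⟩ ⟨true,1,⟨0,[(40,
  0)]⟩,⟨0,[(0,0),(0,0),(7,0)]⟩⟩,.e ⟨false,1,⟨1,[(18,0),(0,0),(20,0)]⟩,⟨0,[]⟩⟩ ⟨false,1,⟨0,[(40,0)]⟩,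
  ⟨0,[(42,0)]⟩⟩,.o ⟨false,0,⟨0,[(0,0)]⟩,⟨9,[(18,0),(0,10),(15,1),(3,4)]⟩⟩]⟩) (.S ⟨1,0,[],[1,0,0,0,
  -1],[0,-1],(⟨0,[(20,0)]⟩,⟨0,[(21,0)]⟩),⟨0,[(5,0)]⟩,.k,(.r (-1) ⟨0,[(36,0),(3,0)]⟩ ⟨1,[(25,0),(0,
  0),(11,1),(3,1)]⟩),⟨false,1,⟨1,[(18,0),(0,0),(20,0)]⟩,⟨0,[]⟩⟩,⟨true,0,⟨0,[(42,0)]⟩,⟨0,[]⟩⟩,⟨true,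
  0,⟨0,[(38,0)]⟩,⟨0,[(37,0)]⟩⟩,⟨false,0,⟨0,[(38,0)]⟩,⟨0,[(37,0),(2,0)]⟩⟩,[.e ⟨false,1,⟨1,[(39,0),(0,
  0)]⟩,⟨0,[(42,0)]⟩⟩ ⟨false,1,⟨1,[(18,0),(0,0),(19,0)]⟩,⟨0,[]⟩⟩,.o ⟨false,1,⟨11,[(6,9),(11,1),(6,4),
  (0,4),(8,1),(4,5)]⟩,⟨10,[(1,4),(7,3),(9,5),(4,0),(10,1),(6,0)]⟩⟩,.e ⟨false,1,⟨0,[(40,0)]⟩,⟨0,[(42,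
  0)]⟩⟩ ⟨false,1,⟨1,[(18,0),(0,0),(20,0)]⟩,⟨0,[]⟩⟩,.a ⟨true,0,⟨0,[(6,0),(18,0),(0,0)]⟩,⟨0,[(0,0)]⟩⟩
  ⟨true,1,⟨1,[(39,0),(0,0)]⟩,⟨2,[(1,0),(4,0),(1,3),(0,4),(15,3),(9,0),(2,3)]⟩⟩ ⟨false,1,⟨1,[(39,0),
  (0,0)]⟩,⟨1,[(25,0),(0,0)]⟩⟩]⟩))) (.R ⟨0,false,false,true,[0,1,0,0,-1],[0,0,1,0,-1],[0,1,1],(⟨0,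
  [(0,0)]⟩,⟨0,[(19,0),(10,0)]⟩),(⟨0,[(0,0),(14,0)]⟩,⟨0,[(19,0),(5,0)]⟩),⟨0,[(19,0)]⟩,(.r (-1) ⟨1,
  [(16,0),(0,0),(5,0),(0,0),(11,1),(1,0)]⟩ ⟨0,[(34,0)]⟩),.k,.k,.k,.k,.k,⟨false,0,⟨5,[(7,4),(14,0),
  (0,5),(9,0),(3,2)]⟩,⟨0,[(8,0),(27,0),(1,0)]⟩⟩,⟨true,0,⟨0,[(23,0)]⟩,⟨0,[(11,0)]⟩⟩,⟨false,0,⟨0,[(35,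
  0)]⟩,⟨0,[(36,0),(1,0)]⟩⟩,⟨true,0,⟨0,[(10,0)]⟩,⟨0,[(9,0),(26,0)]⟩⟩,⟨false,0,⟨0,[]⟩,⟨0,[]⟩⟩,⟨false,
  0,⟨0,[]⟩,⟨0,[]⟩⟩,[.o ⟨false,1,⟨10,[(4,8),(1,8),(9,1),(4,1),(1,8),(9,3),(2,8),(1,0)]⟩,⟨0,[(9,0),(7,
  0)]⟩⟩,.a ⟨true,1,⟨10,[(4,9),(1,9),(9,0),(4,0),(1,9),(9,1),(2,9),(1,5)]⟩,⟨0,[(7,0),(9,0)]⟩⟩ ⟨true,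
  0,⟨1,[(23,0),(0,0)]⟩,⟨0,[]⟩⟩ ⟨false,1,⟨0,[(21,0),(16,0)]⟩,⟨5,[(7,4),(14,0),(10,0),(3,2)]⟩⟩,.o
  ⟨false,1,⟨15,[(4,13),(11,1),(16,5),(3,0),(0,0),(1,1)]⟩,⟨1,[(17,1),(5,0),(0,0)]⟩⟩,.o ⟨false,1,⟨11,
  [(4,7),(11,3),(6,2),(0,2),(8,3),(5,1)]⟩,⟨0,[(17,0)]⟩⟩]⟩))) (.Q [0,0,0,1,0,0,0,0,-1,0,0,-1] (.p
  false [0,0,0,0,1] [] (⟨0,[(17,0)]⟩,⟨0,[(16,0)]⟩) .k 0 (⟨0,[]⟩,⟨0,[]⟩) .k .k) (.Q [0,0,0,0,0,0,0,0,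
  0,0,1,-1] (.ed true [1,0,-1,0,1] (.r 0 ⟨5,[(6,4),(14,0),(0,5),(9,0),(3,2)]⟩ ⟨13,[(5,3),(6,4),(7,
  9),(11,0),(2,3),(1,11)]⟩)) (.R ⟨1,false,false,true,[0,0,1],[0,0,1,0,-1],[1,0,1],(⟨0,[(26,0)]⟩,⟨0,
  [(25,0)]⟩),(⟨0,[(0,0)]⟩,⟨0,[(19,0),(5,0)]⟩),⟨0,[(15,0)]⟩,.k,.k,.k,.k,(.r 0 ⟨0,[(34,0)]⟩ ⟨1,[(16,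
  0),(0,0),(5,0),(0,0),(11,1),(1,0)]⟩),.k,⟨true,0,⟨0,[(9,0),(13,0)]⟩,⟨0,[(6,0),(29,0)]⟩⟩,⟨false,1,
  ⟨10,[(4,4),(11,5),(16,0),(3,2)]⟩,⟨0,[(17,0)]⟩⟩,⟨true,0,⟨0,[(9,0),(13,0)]⟩,⟨0,[(8,0),(27,0)]⟩⟩,
  ⟨false,1,⟨1,[(1,0),(3,0),(32,0)]⟩,⟨0,[(17,0)]⟩⟩,⟨true,0,⟨0,[(9,0),(13,0),(12,0)]⟩,⟨0,[(6,0),(27,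
  0),(1,0)]⟩⟩,⟨true,0,⟨0,[(1,0)]⟩,⟨0,[(17,0),(17,0)]⟩⟩,[.o ⟨false,1,⟨9,[(1,8),(3,0),(4,7),(10,1),
  (11,1),(4,4)]⟩,⟨0,[(9,0),(7,0)]⟩⟩,.e ⟨false,1,⟨1,[(16,0),(0,0),(20,0)]⟩,⟨0,[(34,0),(1,0)]⟩⟩
  ⟨false,1,⟨0,[(1,0),(6,0),(29,0)]⟩,⟨5,[(7,4),(9,5),(4,0),(0,5),(9,0),(3,2)]⟩⟩,.o ⟨false,1,⟨9,[(16,
  0),(0,0),(5,9),(9,1),(3,4)]⟩,⟨0,[(11,0)]⟩⟩,.a ⟨true,0,⟨0,[(23,0)]⟩,⟨0,[(20,0)]⟩⟩ ⟨true,0,⟨0,[]⟩,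
  ⟨0,[(40,0)]⟩⟩ ⟨false,1,⟨0,[(1,0),(6,0),(29,0)]⟩,⟨0,[(9,0),(7,0),(5,0)]⟩⟩]⟩) (.Q [0,-1,0,0,0,0,-1,
  -1,-1,1,-1,-1] (.p false [0,0,1] [1,0,0,0,-1] (⟨0,[(26,0)]⟩,⟨0,[(25,0)]⟩) .k 2 (⟨0,[(18,0)]⟩,⟨0,
  [(19,0)]⟩) .k (.r 0 ⟨0,[(11,0),(9,0)]⟩ ⟨1,[(9,1),(13,1),(13,0),(0,0)]⟩)) (.R ⟨1,false,false,false,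
  [1,0,0,0,-1],[0,-1,1],[],(⟨0,[(19,0)]⟩,⟨0,[(20,0)]⟩),(⟨0,[(16,0)]⟩,⟨0,[(26,0),(2,0)]⟩),⟨0,[(4,
  0)]⟩,.k,.k,(.r (-1) ⟨0,[(35,0),(3,0)]⟩ ⟨1,[(24,0),(0,0),(11,1),(3,1)]⟩),(.r (-1) ⟨9,[(13,9),(3,0),
  (0,0),(5,9),(9,1),(2,9),(1,4)]⟩ ⟨0,[(7,0),(27,0),(1,0)]⟩),.k,.k,⟨true,0,⟨0,[(10,0),(13,0),(12,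
  0)]⟩,⟨0,[(7,0)]⟩⟩,⟨false,1,⟨9,[(17,0),(0,10),(5,9),(9,1),(3,4)]⟩,⟨1,[(0,0),(1,0),(6,0),(11,0)]⟩⟩,
  ⟨true,0,⟨0,[(41,0)]⟩,⟨0,[]⟩⟩,⟨false,1,⟨9,[(11,9),(5,0),(0,10),(15,1),(4,4)]⟩,⟨0,[(0,0),(36,0)]⟩⟩,
  ⟨false,0,⟨0,[(37,0)]⟩,⟨0,[(36,0),(2,0)]⟩⟩,⟨false,1,⟨9,[(17,0),(0,10),(3,9),(11,1),(4,4)]⟩,⟨0,[(0,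
  0)]⟩⟩,[.o ⟨false,1,⟨9,[(11,9),(5,0),(0,0),(15,1),(4,4)]⟩,⟨0,[(10,0),(26,0)]⟩⟩,.e ⟨false,1,⟨1,[(38,
  0),(0,0)]⟩,⟨0,[(41,0)]⟩⟩ ⟨false,2,⟨9,[(11,9),(5,0),(0,10),(15,1),(3,4),(0,9)]⟩,⟨0,[(2,0),(5,0)]⟩⟩,
  .a ⟨true,0,⟨2,[(3,0),(1,1),(8,0),(9,0)]⟩,⟨0,[(18,0)]⟩⟩ ⟨false,1,⟨1,[(17,0),(0,0),(20,0)]⟩,⟨0,[]⟩⟩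
  ⟨true,1,⟨9,[(11,9),(5,0),(0,10),(15,1),(4,4)]⟩,⟨0,[(2,0),(5,0)]⟩⟩,.o ⟨false,0,⟨22,[(0,2),(1,5),(0,
  13),(3,4),(0,1),(16,8),(8,0),(1,0)]⟩,⟨9,[(17,0),(0,10),(15,1),(3,4)]⟩⟩]⟩) (.R ⟨1,true,false,true,
  [0,0,1],[1,0,0,0,-1],[1,0,0,-1,0,0,0,1],(⟨0,[(27,0)]⟩,⟨0,[(26,0)]⟩),(⟨0,[(19,0)]⟩,⟨0,[(20,0)]⟩),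
  ⟨0,[(16,0)]⟩,.k,.k,.k,.k,(.r 0 ⟨0,[(0,0),(1,0),(4,0),(0,0),(26,0),(3,0)]⟩ ⟨9,[(13,9),(3,0),(0,0),
  (5,9),(9,1),(2,9),(1,4)]⟩),.k,⟨true,0,⟨0,[(7,0)]⟩,⟨0,[(10,0),(13,0),(12,0)]⟩⟩,⟨false,0,⟨0,[(5,0),
  (6,0)]⟩,⟨9,[(17,0),(0,10),(5,9),(9,1),(3,4)]⟩⟩,⟨false,1,⟨0,[(36,0),(2,0)]⟩,⟨0,[(37,0)]⟩⟩,⟨true,0,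
  ⟨3,[(3,1),(1,1),(4,2),(2,0),(0,0)]⟩,⟨0,[(0,0)]⟩⟩,⟨true,0,⟨0,[]⟩,⟨0,[(41,0)]⟩⟩,⟨false,0,⟨0,[(2,0),
  (5,0),(30,0)]⟩,⟨5,[(0,0),(5,0),(4,4),(6,5),(15,0),(4,2)]⟩⟩,[]⟩))) (.Q [0,-2,0,0,1,0,0,0,-1,0,0,
  -1] (.p false [0,0,0,0,1] [] (⟨0,[(18,0)]⟩,⟨0,[(17,0)]⟩) .k 0 (⟨0,[]⟩,⟨0,[]⟩) .k .k) (.Q [0,1,0,0,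
  0,0,0,0,1,-1,0,1] (.p true [0,0,0,0,1] [1] (⟨0,[(19,0)]⟩,⟨0,[(18,0)]⟩) .k 1 (⟨0,[]⟩,⟨0,[]⟩) .k
  .k) (.R ⟨1,false,false,true,[0,0,1],[0,0,0,0,1],[1,1,0,-1,0,0,0,1],(⟨0,[(27,0)]⟩,⟨0,[(26,0)]⟩),
  (⟨0,[(20,0)]⟩,⟨0,[(19,0)]⟩),⟨0,[(16,0)]⟩,.k,.k,.k,.k,(.r (-1) ⟨0,[(9,0),(29,0)]⟩ ⟨0,[(23,0),(0,0),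
  (12,0)]⟩),.k,⟨false,1,⟨0,[(9,0),(29,0)]⟩,⟨5,[(8,4),(14,0),(0,5),(9,0),(2,5),(0,2)]⟩⟩,⟨true,0,⟨0,
  [(12,0),(5,0)]⟩,⟨0,[(3,0)]⟩⟩,⟨true,0,⟨0,[(36,0)]⟩,⟨0,[(37,0)]⟩⟩,⟨true,(-1),⟨0,[(0,0),(7,0)]⟩,⟨0,
  [(1,0),(20,0)]⟩⟩,⟨false,0,⟨0,[]⟩,⟨1,[(17,0),(0,0),(20,0)]⟩⟩,⟨true,(-1),⟨0,[(0,0),(7,0),(28,0)]⟩,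
  ⟨0,[(1,0),(9,0)]⟩⟩,[.o ⟨false,0,⟨0,[(0,0),(40,0)]⟩,⟨0,[(1,0)]⟩⟩,.o ⟨false,0,⟨0,[(0,0)]⟩,⟨1,[(1,0),
  (15,0)]⟩⟩,.o ⟨false,1,⟨9,[(17,0),(0,0),(5,9),(9,1),(3,4)]⟩,⟨0,[(12,0)]⟩⟩,.a ⟨true,0,⟨0,[(24,0)]⟩,
  ⟨0,[(21,0)]⟩⟩ ⟨true,0,⟨0,[(9,0)]⟩,⟨0,[(10,0),(13,0),(12,0)]⟩⟩ ⟨false,0,⟨0,[(0,0),(20,0)]⟩,⟨0,[(1,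
  0),(22,0)]⟩⟩]⟩) (.R ⟨1,false,false,false,[0,0,1],[0,0,0,0,1],[1,0,0,-1,0,0,0,1],(⟨0,[(27,0)]⟩,⟨0,
  [(26,0)]⟩),(⟨0,[(20,0)]⟩,⟨0,[(19,0)]⟩),⟨0,[(16,0)]⟩,.k,.k,.k,.k,(.r (-1) ⟨0,[(9,0),(29,0)]⟩ ⟨0,
  [(23,0),(0,0),(12,0)]⟩),.k,⟨false,1,⟨0,[(9,0),(29,0)]⟩,⟨5,[(8,4),(14,0),(0,5),(9,0),(2,5),(0,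
  2)]⟩⟩,⟨true,0,⟨0,[(12,0),(5,0)]⟩,⟨0,[(3,0)]⟩⟩,⟨false,1,⟨1,[(2,0),(3,0),(32,0)]⟩,⟨0,[(37,0)]⟩⟩,
  ⟨false,0,⟨0,[(10,0),(7,0)]⟩,⟨0,[(1,0),(20,0)]⟩⟩,⟨true,0,⟨0,[]⟩,⟨0,[(41,0)]⟩⟩,⟨false,0,⟨0,[(10,0),
  (7,0),(18,0)]⟩,⟨0,[(1,0),(9,0)]⟩⟩,[.a ⟨true,0,⟨0,[(18,0),(22,0)]⟩,⟨0,[(0,0)]⟩⟩ ⟨true,0,⟨0,[(7,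
  0)]⟩,⟨0,[(10,0),(13,0),(12,0)]⟩⟩ ⟨false,0,⟨15,[(8,5),(0,5),(4,0),(3,15),(2,7),(11,1),(0,2),(2,
  5)]⟩,⟨1,[(1,0),(1,0),(20,0),(13,0)]⟩⟩,.a ⟨true,0,⟨0,[(18,0)]⟩,⟨4,[(0,0),(2,1),(1,1),(7,0),(0,0),
  (7,0)]⟩⟩ ⟨false,1,⟨0,[(9,0),(29,0)]⟩,⟨5,[(8,4),(14,0),(0,5),(9,0),(2,5),(0,2)]⟩⟩ ⟨true,0,⟨0,[(12,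
  0),(5,0)]⟩,⟨0,[(3,0)]⟩⟩,.o ⟨false,1,⟨9,[(17,0),(0,0),(5,9),(9,1),(3,4)]⟩,⟨0,[(12,0)]⟩⟩,.a ⟨true,0,
  ⟨0,[(24,0)]⟩,⟨0,[(21,0)]⟩⟩ ⟨false,1,⟨0,[(9,0),(29,0)]⟩,⟨0,[(10,0),(13,0),(12,0)]⟩⟩ ⟨true,0,⟨15,
  [(8,5),(0,5),(4,0),(3,15),(2,7),(11,1),(0,2),(2,5)]⟩,⟨0,[(3,0)]⟩⟩]⟩)) (.S ⟨1,0,[0,-1],[1,0,0,0,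
  -1],[],(⟨0,[(18,0)]⟩,⟨0,[(19,0)]⟩),⟨0,[(3,0)]⟩,.k,(.r (-1) ⟨0,[(34,0),(3,0)]⟩ ⟨1,[(23,0),(0,0),
  (11,1),(3,1)]⟩),⟨true,0,⟨0,[(40,0)]⟩,⟨0,[]⟩⟩,⟨false,1,⟨1,[(16,0),(0,0),(20,0)]⟩,⟨0,[]⟩⟩,⟨false,0,
  ⟨0,[(36,0)]⟩,⟨1,[(1,0),(3,0),(32,0)]⟩⟩,⟨true,0,⟨0,[(36,0)]⟩,⟨0,[(35,0)]⟩⟩,[.o ⟨false,1,⟨27,[(2,9),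
  (1,9),(8,4),(2,7),(16,2),(4,13)]⟩,⟨4,[(0,1),(16,2),(15,0),(6,0)]⟩⟩,.a ⟨true,1,⟨2,[(2,0),(1,1),(8,
  0),(9,0),(14,2)]⟩,⟨0,[(0,0)]⟩⟩ ⟨false,1,⟨1,[(37,0),(0,0)]⟩,⟨0,[(40,0)]⟩⟩ ⟨true,1,⟨0,[(38,0)]⟩,⟨0,
  [(0,0),(1,0),(8,0)]⟩⟩,.e ⟨false,1,⟨1,[(16,0),(0,0),(20,0)]⟩,⟨0,[]⟩⟩ ⟨false,1,⟨0,[(38,0)]⟩,⟨0,[(40,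
  0)]⟩⟩,.o ⟨false,0,⟨0,[(2,0),(8,0)]⟩,⟨9,[(16,0),(0,10),(15,1),(3,4)]⟩⟩]⟩)))))))

theorem ok4 : chk K t4 r6 = true := by decide +kernel

noncomputable def t7 : Tre :=
  (.I [0,-1,-1,0,1,0,0,1] (.S ⟨1,0,[0,0,1,1,0,0,0,-1],[1,1,-1],[1,1,1,0,0,0,0,-1],(⟨0,[(18,0),(2,
  0)]⟩,⟨0,[(8,0)]⟩),⟨0,[(18,0)]⟩,.k,.k,⟨true,0,⟨0,[(28,0)]⟩,⟨0,[(29,0)]⟩⟩,⟨false,1,⟨1,[(9,0),(0,0),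
  (20,0)]⟩,⟨0,[]⟩⟩,⟨false,0,⟨0,[]⟩,⟨1,[(9,0),(0,0),(20,0)]⟩⟩,⟨true,0,⟨0,[(29,0)]⟩,⟨0,[(28,0)]⟩⟩,[.o
  ⟨false,0,⟨0,[(2,0),(26,0)]⟩,⟨9,[(3,9),(5,0),(0,0),(15,1),(4,4)]⟩⟩,.a ⟨true,0,⟨0,[(1,0),(11,0)]⟩,
  ⟨0,[(3,0)]⟩⟩ ⟨false,0,⟨0,[(1,0),(25,0)]⟩,⟨39,[(0,29),(5,4),(2,7),(0,7),(3,9),(10,9),(0,0)]⟩⟩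
  ⟨true,0,⟨0,[(1,0)]⟩,⟨0,[(3,0),(0,0)]⟩⟩,.e ⟨false,0,⟨0,[(1,0),(26,0)]⟩,⟨0,[(0,0)]⟩⟩ ⟨false,0,⟨0,
  [(1,0)]⟩,⟨0,[(0,0),(27,0)]⟩⟩,.o ⟨false,0,⟨0,[(4,0)]⟩,⟨9,[(9,0),(0,0),(5,9),(9,1),(3,4)]⟩⟩]⟩) (.Q
  [0,0,-1,0,0,0,0,0,1,-1,0,1] (.p true [0,0,0,0,1] [1] (⟨0,[(12,0)]⟩,⟨0,[(11,0)]⟩) .k 1 (⟨0,[]⟩,⟨0,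
  []⟩) .k .k) (.Q [0,1,0,0,-1,0,0,0,1,-1,0,1] (.p true [0,0,0,0,1] [1] (⟨0,[(13,0)]⟩,⟨0,[(12,0)]⟩)
  .k 1 (⟨0,[]⟩,⟨0,[]⟩) .k .k) (.R ⟨1,false,false,true,[0,0,1],[1,0,0,0,-1],[1,1,0,-1,0,0,0,1],(⟨0,
  [(21,0)]⟩,⟨0,[(20,0)]⟩),(⟨0,[(13,0)]⟩,⟨0,[(14,0)]⟩),⟨0,[(10,0)]⟩,.k,.k,.k,.k,(.r (-1) ⟨9,[(5,9),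
  (2,4),(2,2),(0,2),(15,0),(3,4)]⟩ ⟨0,[(3,0)]⟩),.k,⟨true,0,⟨0,[(5,0),(0,0)]⟩,⟨0,[(3,0)]⟩⟩,⟨false,1,
  ⟨0,[(11,0),(3,0)]⟩,⟨0,[(1,0),(16,0)]⟩⟩,⟨true,0,⟨0,[(30,0)]⟩,⟨0,[(31,0)]⟩⟩,⟨false,1,⟨0,[(2,0),(8,
  0),(3,0),(17,0)]⟩,⟨0,[(0,0),(15,0),(16,0)]⟩⟩,⟨false,0,⟨0,[]⟩,⟨1,[(11,0),(0,0),(20,0)]⟩⟩,⟨false,1,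
  ⟨0,[(3,0),(7,0),(3,0)]⟩,⟨0,[(0,0),(4,0),(27,0)]⟩⟩,[.o ⟨false,1,⟨0,[(11,0)]⟩,⟨8,[(0,3),(11,4),(15,
  0),(4,1)]⟩⟩,.o ⟨false,2,⟨1,[(11,2),(0,0),(20,0)]⟩,⟨0,[(0,0)]⟩⟩,.o ⟨false,1,⟨9,[(11,0),(0,0),(5,9),
  (9,1),(3,4)]⟩,⟨0,[(6,0)]⟩⟩,.a ⟨true,0,⟨0,[(18,0)]⟩,⟨0,[(15,0)]⟩⟩ ⟨false,1,⟨5,[(5,5),(2,0),(6,3),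
  (12,0),(3,0),(0,2)]⟩,⟨0,[(3,0)]⟩⟩ ⟨true,1,⟨0,[(11,0),(3,0)]⟩,⟨0,[(0,0),(17,0)]⟩⟩]⟩) (.Q [0,0,0,0,
  0,-1,0,0,0,1,0,-1] (.ed true [0,1,0,0,1] .k) (.Q [0,1,0,0,-1,0,0,0,1,0,0,1] (.p true [0,0,0,0,1]
  [] (⟨0,[(15,0)]⟩,⟨0,[(14,0)]⟩) .k 0 (⟨0,[]⟩,⟨0,[]⟩) .k .k) (.S ⟨1,0,[],[1,0,0,0,-1],[0,-1],(⟨0,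
  [(15,0)]⟩,⟨0,[(16,0)]⟩),⟨0,[(1,0)]⟩,.k,(.r (-1) ⟨0,[(31,0),(3,0)]⟩ ⟨1,[(20,0),(0,0),(11,1),(3,
  1)]⟩),⟨false,1,⟨8,[(2,4),(11,4),(15,0),(4,1)]⟩,⟨0,[]⟩⟩,⟨true,0,⟨0,[(37,0)]⟩,⟨0,[]⟩⟩,⟨true,0,⟨0,
  [(33,0)]⟩,⟨0,[(32,0)]⟩⟩,⟨false,0,⟨0,[(33,0)]⟩,⟨0,[(32,0),(2,0)]⟩⟩,[.o ⟨false,1,⟨0,[(13,0)]⟩,⟨4,
  [(0,3),(13,0),(15,0),(4,1)]⟩⟩,.a ⟨true,1,⟨0,[(2,0)]⟩,⟨0,[(0,0)]⟩⟩ ⟨true,1,⟨0,[(35,0)]⟩,⟨0,[(4,0),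
  (3,0),(9,0)]⟩⟩ ⟨false,1,⟨1,[(34,0),(0,0)]⟩,⟨0,[(37,0)]⟩⟩,.o ⟨false,1,⟨0,[(13,0)]⟩,⟨4,[(0,3),(13,
  0),(15,0),(4,1)]⟩⟩,.o ⟨false,1,⟨1,[(13,1),(6,0),(0,0)]⟩,⟨0,[(3,0)]⟩⟩]⟩) (.R ⟨1,false,false,false,
  [0,0,1],[0,0,0,0,1],[0,0,0,0,0,0,0,1],(⟨0,[(23,0)]⟩,⟨0,[(22,0)]⟩),(⟨0,[(16,0)]⟩,⟨0,[(15,0)]⟩),⟨0,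
  [(12,0)]⟩,.k,.k,.k,.k,(.r (-2) ⟨5,[(2,1),(4,5),(2,2),(3,1),(15,0),(3,2),(0,4)]⟩ ⟨0,[(4,0),(28,
  0)]⟩),.k,⟨true,1,⟨0,[(8,0),(9,0),(16,0)]⟩,⟨0,[(4,0)]⟩⟩,⟨false,0,⟨2,[(3,1),(6,0),(3,0),(2,0)]⟩,⟨1,
  [(0,1),(3,0),(13,0),(1,0),(13,0)]⟩⟩,⟨false,1,⟨8,[(2,4),(11,4),(15,0),(4,1)]⟩,⟨0,[]⟩⟩,⟨true,(-1),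
  ⟨2,[(3,1),(0,2),(5,0),(3,0),(2,0)]⟩,⟨0,[(0,0),(17,0)]⟩⟩,⟨true,0,⟨0,[(33,0)]⟩,⟨0,[(32,0)]⟩⟩,⟨true,
  (-1),⟨2,[(3,1),(0,2),(5,0),(3,0),(2,0),(15,2)]⟩,⟨0,[(0,0),(6,0)]⟩⟩,[.o ⟨false,0,⟨21,[(3,6),(0,5),
  (9,14),(3,5),(2,5),(7,4),(0,2)]⟩,⟨0,[(0,0)]⟩⟩,.o ⟨false,0,⟨1,[(3,1),(16,0),(0,0)]⟩,⟨0,[(13,0)]⟩⟩,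
  .o ⟨false,1,⟨9,[(13,0),(0,0),(5,9),(9,1),(3,4)]⟩,⟨0,[(8,0)]⟩⟩,.a ⟨true,0,⟨0,[(20,0)]⟩,⟨0,[(17,
  0)]⟩⟩ ⟨true,1,⟨5,[(10,0),(6,3),(0,5),(11,0),(3,0),(0,2)]⟩,⟨0,[(4,0)]⟩⟩ ⟨false,0,⟨2,[(3,1),(6,0),
  (3,0),(2,0)]⟩,⟨0,[(0,0),(19,0)]⟩⟩]⟩)) (.Q [0,0,0,0,-1,0,-1,-1,1,0,-1,1] (.p true [0,0,-1,0,1] []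
  (⟨0,[(0,0),(9,0)]⟩,⟨0,[(14,0),(7,0)]⟩) .k 0 (⟨0,[]⟩,⟨0,[]⟩) .k (.r 0 ⟨1,[(3,0),(14,0),(0,0),(13,
  0)]⟩ ⟨0,[(7,0),(9,0),(16,0)]⟩)) (.R ⟨0,false,false,false,[1,0,0,0,-1],[1,1,-1],[0,1,1],(⟨0,[(15,
  0)]⟩,⟨0,[(16,0)]⟩),(⟨0,[(22,0),(2,0)]⟩,⟨0,[(12,0)]⟩),⟨0,[(1,0)]⟩,.k,.k,(.r (-1) ⟨0,[(31,0),(3,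
  0)]⟩ ⟨1,[(20,0),(0,0),(11,1),(3,1)]⟩),(.r (-2) ⟨5,[(2,1),(4,5),(2,2),(3,1),(15,0),(3,2),(0,4)]⟩
  ⟨0,[(4,0),(28,0)]⟩),.k,.k,⟨true,0,⟨0,[(7,0),(0,0)]⟩,⟨0,[(5,0)]⟩⟩,⟨false,0,⟨0,[(3,0),(13,0)]⟩,⟨0,
  [(13,0),(6,0)]⟩⟩,⟨true,(-1),⟨0,[(4,0),(3,0),(9,0)]⟩,⟨1,[(34,0),(0,0)]⟩⟩,⟨false,(-1),⟨0,[(0,0),(32,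
  0)]⟩,⟨8,[(2,9),(4,8),(6,0),(15,1),(4,3)]⟩⟩,⟨false,0,⟨0,[]⟩,⟨0,[]⟩⟩,⟨false,0,⟨0,[]⟩,⟨0,[]⟩⟩,[.o
  ⟨false,0,⟨0,[(6,0),(26,0)]⟩,⟨8,[(2,0),(4,8),(6,0),(15,1),(4,3)]⟩⟩,.a ⟨true,0,⟨0,[(5,0),(11,0)]⟩,
  ⟨0,[(7,0)]⟩⟩ ⟨true,0,⟨1,[(20,0),(0,0)]⟩,⟨0,[]⟩⟩ ⟨false,0,⟨0,[(3,0),(1,0),(11,0)]⟩,⟨0,[(7,0),(5,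
  0)]⟩⟩,.o ⟨false,1,⟨0,[(13,0)]⟩,⟨1,[(3,1),(16,0),(0,0)]⟩⟩,.o ⟨false,1,⟨1,[(13,1),(6,0),(0,0)]⟩,⟨0,
  [(3,0)]⟩⟩]⟩) (.R ⟨0,false,false,false,[1,0,0,0,-1],[1,0,-1],[0,-1],(⟨0,[(15,0)]⟩,⟨0,[(16,0)]⟩),
  (⟨0,[(22,0)]⟩,⟨0,[(23,0)]⟩),⟨0,[(1,0)]⟩,.k,.k,(.r (-1) ⟨0,[(31,0),(3,0)]⟩ ⟨1,[(20,0),(0,0),(11,1),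
  (3,1)]⟩),.k,.k,.k,⟨true,1,⟨0,[(8,0),(9,0),(16,0)]⟩,⟨0,[(4,0)]⟩⟩,⟨false,0,⟨2,[(3,1),(6,0),(3,0),(2,
  0)]⟩,⟨0,[(0,0),(4,0),(25,0)]⟩⟩,⟨false,1,⟨8,[(2,4),(11,4),(15,0),(4,1)]⟩,⟨0,[]⟩⟩,⟨true,(-1),⟨2,[(3,
  1),(0,2),(5,0),(3,0),(2,0)]⟩,⟨0,[(0,0)]⟩⟩,⟨false,0,⟨0,[]⟩,⟨0,[]⟩⟩,⟨false,0,⟨0,[]⟩,⟨0,[]⟩⟩,[.o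
  ⟨false,0,⟨0,[(6,0)]⟩,⟨4,[(0,0),(13,0),(3,3),(11,0),(4,1)]⟩⟩,.a ⟨true,0,⟨0,[(4,0),(12,0),(17,0)]⟩,
  ⟨0,[(18,0)]⟩⟩ ⟨true,1,⟨0,[(35,0)]⟩,⟨0,[(4,0),(3,0),(9,0)]⟩⟩ ⟨false,0,⟨0,[(3,0),(0,0),(12,0),(17,
  0)]⟩,⟨0,[(0,0),(36,0)]⟩⟩,.o ⟨false,1,⟨0,[(13,0)]⟩,⟨1,[(3,1),(16,0),(0,0)]⟩⟩,.o ⟨false,1,⟨1,[(13,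
  1),(6,0),(0,0)]⟩,⟨0,[(3,0)]⟩⟩]⟩)))) (.Q [0,0,0,0,0,1,0,0,0,-1,0,1] (.ed false [0,1,0,0,1] .k) (.Q
  [0,-1,0,0,1,0,1,1,-1,0,1,-1] (.p false [0,0,-1,0,1] [] (⟨0,[(0,0),(8,0)]⟩,⟨0,[(13,0),(7,0)]⟩) .k
  0 (⟨0,[]⟩,⟨0,[]⟩) .k (.r 0 ⟨1,[(2,0),(14,0),(0,0),(13,0)]⟩ ⟨0,[(6,0),(9,0),(16,0)]⟩)) (.R ⟨0,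
  false,false,true,[1,0,0,0,-1],[1,0,-1],[0,1],(⟨0,[(14,0)]⟩,⟨0,[(15,0)]⟩),(⟨0,[(21,0)]⟩,⟨0,[(22,
  0)]⟩),⟨0,[(1,0)]⟩,.k,.k,(.r (-1) ⟨0,[(30,0),(3,0)]⟩ ⟨1,[(19,0),(0,0),(11,1),(3,1)]⟩),.k,.k,.k,
  ⟨false,1,⟨5,[(9,0),(6,3),(0,5),(11,0),(3,0),(0,2)]⟩,⟨0,[(4,0),(25,0)]⟩⟩,⟨true,0,⟨0,[(7,0),(5,0)]⟩,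
  ⟨0,[(0,0),(2,0)]⟩⟩,⟨false,0,⟨0,[(36,0)]⟩,⟨0,[(34,0)]⟩⟩,⟨true,(-1),⟨0,[(3,0),(3,0),(5,0),(16,0),(1,
  0)]⟩,⟨0,[(0,0)]⟩⟩,⟨false,0,⟨0,[]⟩,⟨0,[]⟩⟩,⟨false,0,⟨0,[]⟩,⟨0,[]⟩⟩,[.e ⟨false,0,⟨0,[(30,0),(1,0)]⟩,
  ⟨1,[(12,0),(0,0),(20,0)]⟩⟩ ⟨false,0,⟨6,[(3,4),(1,1),(7,6),(2,4),(11,0),(0,0),(3,2)]⟩,⟨0,[(0,0)]⟩⟩,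
  .o ⟨false,0,⟨0,[(5,0)]⟩,⟨9,[(12,0),(0,0),(3,9),(11,1),(4,4)]⟩⟩,.a ⟨true,0,⟨0,[(0,0),(2,0),(12,
  0)]⟩,⟨0,[(13,0)]⟩⟩ ⟨true,0,⟨0,[(36,0)]⟩,⟨0,[]⟩⟩ ⟨false,0,⟨0,[(5,0),(7,0)]⟩,⟨0,[(0,0)]⟩⟩,.o ⟨false,
  0,⟨0,[(0,0),(2,0),(3,0)]⟩,⟨9,[(12,0),(0,10),(15,1),(3,4)]⟩⟩]⟩) (.Q [0,0,0,0,0,0,0,0,1,-1,0,1] (.p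
  true [0,0,0,0,1] [1] (⟨0,[(15,0)]⟩,⟨0,[(14,0)]⟩) .k 1 (⟨0,[]⟩,⟨0,[]⟩) .k .k) (.Q [0,-1,0,0,0,0,-1,
  -1,-1,2,-1,-1] (.p false [-1,0,1,0,1] [1] (⟨0,[(2,0),(9,0)]⟩,⟨0,[(15,0),(6,0)]⟩) .k 1 (⟨0,[]⟩,⟨0,
  []⟩) .k (.r 0 ⟨0,[(8,0),(9,0)]⟩ ⟨1,[(5,1),(26,1),(1,0),(0,0)]⟩)) (.Q [0,0,0,0,0,0,-1,-1,-1,1,-1,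
  -1] (.p false [-1,0,1,0,1] [] (⟨0,[(3,0),(9,0)]⟩,⟨0,[(16,0),(6,0)]⟩) .k 0 (⟨0,[]⟩,⟨0,[]⟩) .k (.r
  0 ⟨0,[(9,0),(9,0)]⟩ ⟨1,[(6,1),(26,1),(1,0),(0,0)]⟩)) (.R ⟨0,false,false,false,[-1,1,0,0,1],[-1,0,
  1,0,1],[],(⟨0,[(4,0)]⟩,⟨0,[(17,0),(11,0)]⟩),(⟨0,[(4,0),(9,0)]⟩,⟨0,[(17,0),(6,0)]⟩),⟨0,[(17,0)]⟩,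
  (.r 0 ⟨1,[(22,0),(0,0),(11,1),(3,1)]⟩ ⟨0,[(33,0),(3,0)]⟩),.k,.k,.k,.k,.k,⟨false,1,⟨1,[(7,1),(25,
  1),(2,0),(0,0)]⟩,⟨0,[(10,0),(9,0)]⟩⟩,⟨true,0,⟨0,[(22,0)]⟩,⟨0,[(10,0)]⟩⟩,⟨true,1,⟨0,[(33,0),(3,
  0)]⟩,⟨0,[(6,0),(3,0),(9,0),(14,0)]⟩⟩,⟨false,1,⟨0,[(9,0),(27,0)]⟩,⟨0,[(8,0),(26,0)]⟩⟩,⟨false,0,⟨0,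
  []⟩,⟨0,[]⟩⟩,⟨false,0,⟨0,[]⟩,⟨0,[]⟩⟩,[.e ⟨false,1,⟨1,[(15,0),(0,0),(19,0)]⟩,⟨0,[]⟩⟩ ⟨false,0,⟨0,
  [(20,0)]⟩,⟨1,[(8,1),(27,0),(0,0)]⟩⟩,.o ⟨false,1,⟨3,[(2,2),(13,0),(3,3),(11,0),(4,1)]⟩,⟨0,[(0,
  0)]⟩⟩,.o ⟨false,1,⟨3,[(2,2),(13,0),(15,0),(3,1)]⟩,⟨0,[(5,0)]⟩⟩,.a ⟨true,0,⟨0,[(2,0)]⟩,⟨0,[(1,0),
  (18,0)]⟩⟩ ⟨false,1,⟨1,[(36,0),(0,0)]⟩,⟨1,[(22,0),(0,0)]⟩⟩ ⟨true,0,⟨0,[(20,0)]⟩,⟨0,[(8,0)]⟩⟩]⟩)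
  (.K ⟨0,[1,0,0,0,-1],0,1,(⟨0,[(17,0)]⟩,⟨0,[(18,0)]⟩),.k,(.r (-1) ⟨0,[(33,0),(3,0)]⟩ ⟨1,[(22,0),(0,
  0),(11,1),(3,1)]⟩),(.r (-1) ⟨1,[(15,0),(0,0),(5,0),(0,0),(11,1),(1,0)]⟩ ⟨0,[(33,0)]⟩),.k,.k,[⟨0,
  [(0,0),(6,0),(25,0)]⟩,⟨0,[(5,0)]⟩,⟨0,[(0,0),(5,0),(3,0),(22,0),(1,0)]⟩,⟨3,[(1,0),(9,1),(3,2),(4,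
  2),(16,0)]⟩]⟩)) (.Q [0,0,0,0,0,0,1,0,1,-1,1,1] (.p true [-1,0,1,0,1] [] (⟨0,[(3,0),(9,0)]⟩,⟨0,
  [(16,0),(6,0)]⟩) .k 0 (⟨0,[]⟩,⟨0,[]⟩) .k (.r 0 ⟨0,[(9,0),(9,0)]⟩ ⟨1,[(6,1),(26,1),(1,0),(0,0)]⟩))
  (.K ⟨0,[1,0,0,0,-1],0,1,(⟨0,[(17,0)]⟩,⟨0,[(18,0)]⟩),.k,(.r (-1) ⟨0,[(33,0),(3,0)]⟩ ⟨1,[(22,0),(0,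
  0),(11,1),(3,1)]⟩),(.r (-1) ⟨1,[(15,0),(0,0),(5,0),(0,0),(11,1),(1,0)]⟩ ⟨0,[(33,0)]⟩),.k,.k,[⟨0,
  [(0,0)]⟩,⟨0,[(5,0)]⟩,⟨0,[(1,0),(4,0),(12,0)]⟩,⟨3,[(5,1),(5,1),(3,1),(4,1),(15,0),(0,0)]⟩]⟩) (.R
  ⟨1,false,false,false,[0,0,1],[-1,0,1,0,1],[1,1,0,-1,0,0,0,1],(⟨0,[(25,0)]⟩,⟨0,[(24,0)]⟩),(⟨0,[(4,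
  0),(9,0)]⟩,⟨0,[(17,0),(6,0)]⟩),⟨0,[(14,0)]⟩,.k,.k,.k,.k,(.r (-1) ⟨0,[(33,0),(3,0)]⟩ ⟨1,[(22,0),(0,
  0),(11,1),(3,1)]⟩),.k,⟨false,1,⟨1,[(34,1),(1,0),(0,0)]⟩,⟨0,[(35,0)]⟩⟩,⟨true,0,⟨0,[(2,0)]⟩,⟨0,[(5,
  0)]⟩⟩,⟨true,0,⟨0,[(34,0)]⟩,⟨0,[(35,0)]⟩⟩,⟨false,0,⟨0,[(2,0)]⟩,⟨1,[(5,1),(30,0),(0,0)]⟩⟩,⟨false,0,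
  ⟨0,[]⟩,⟨1,[(15,0),(0,0),(20,0)]⟩⟩,⟨false,0,⟨0,[(2,0),(32,0)]⟩,⟨0,[(5,0),(27,0),(3,0)]⟩⟩,[.o
  ⟨false,0,⟨0,[(1,0)]⟩,⟨1,[(0,0),(6,0),(3,0),(3,0),(17,0),(3,0)]⟩⟩,.o ⟨false,1,⟨7,[(1,2),(14,4),(3,
  4),(11,1),(4,3)]⟩,⟨0,[(0,0),(6,0),(25,0)]⟩⟩,.o ⟨false,1,⟨9,[(15,0),(0,0),(5,9),(9,1),(3,4)]⟩,⟨0,
  [(10,0)]⟩⟩,.a ⟨true,0,⟨0,[(22,0)]⟩,⟨0,[(19,0)]⟩⟩ ⟨false,1,⟨5,[(9,5),(2,0),(6,3),(12,0),(3,0),(0,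
  2)]⟩,⟨0,[(7,0)]⟩⟩ ⟨true,0,⟨0,[(1,0),(17,0)]⟩,⟨0,[(5,0),(1,0),(25,0)]⟩⟩]⟩))) (.Q [0,0,-1,0,1,0,0,0,
  1,-2,0,1] (.p true [-1,1,0,0,1] [1] (⟨0,[(2,0)]⟩,⟨0,[(15,0),(11,0)]⟩) (.r 0 ⟨1,[(20,0),(0,0),(11,
  1),(3,1)]⟩ ⟨0,[(31,0),(3,0)]⟩) 1 (⟨0,[]⟩,⟨0,[]⟩) .k .k) (.R ⟨0,false,false,true,[-1,1,0,0,1],[0,0,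
  0,0,1],[0,2,1],(⟨0,[(3,0)]⟩,⟨0,[(16,0),(11,0)]⟩),(⟨0,[(17,0)]⟩,⟨0,[(16,0)]⟩),⟨0,[(16,0)]⟩,(.r 0
  ⟨1,[(21,0),(0,0),(11,1),(3,1)]⟩ ⟨0,[(32,0),(3,0)]⟩),.k,.k,.k,.k,.k,⟨true,0,⟨1,[(21,0),(0,0)]⟩,⟨0,
  []⟩⟩,⟨false,0,⟨0,[(18,0),(2,0)]⟩,⟨6,[(0,0),(13,0),(16,0),(3,2)]⟩⟩,⟨true,0,⟨0,[(33,0)]⟩,⟨0,[(34,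
  0)]⟩⟩,⟨false,0,⟨0,[(1,0),(0,0),(5,0),(27,0)]⟩,⟨9,[(14,0),(0,0),(15,1),(2,9),(1,4)]⟩⟩,⟨false,0,⟨0,
  []⟩,⟨0,[]⟩⟩,⟨false,0,⟨0,[]⟩,⟨0,[]⟩⟩,[.a ⟨true,(-1),⟨0,[(2,0),(16,0)]⟩,⟨0,[(1,0),(34,0)]⟩⟩ ⟨true,
  (-1),⟨0,[(5,0),(3,0),(9,0)]⟩,⟨0,[(36,0)]⟩⟩ ⟨false,(-1),⟨0,[(1,0),(0,0),(16,0)]⟩,⟨6,[(0,0),(13,0),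
  (16,0),(3,2),(0,6)]⟩⟩,.o ⟨false,0,⟨4,[(2,1),(12,2),(3,1),(11,0),(6,0)]⟩,⟨5,[(1,4),(12,0),(16,0),
  (4,2)]⟩⟩,.o ⟨false,1,⟨0,[(0,0)]⟩,⟨0,[(4,0)]⟩⟩,.o ⟨false,1,⟨5,[(0,0),(13,0),(0,5),(15,1),(5,0)]⟩,
  ⟨0,[(1,0)]⟩⟩]⟩) (.R ⟨0,false,false,true,[1,0,0,0,-1],[2,-1,0,0,-1],[0,0,0,-1],(⟨0,[(16,0)]⟩,⟨0,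
  [(17,0)]⟩),(⟨0,[(16,0),(11,0)]⟩,⟨0,[(3,0)]⟩),⟨0,[(3,0)]⟩,.k,(.r (-1) ⟨0,[(32,0),(3,0)]⟩ ⟨1,[(21,
  0),(0,0),(11,1),(3,1)]⟩),(.r (-1) ⟨0,[(32,0),(3,0)]⟩ ⟨1,[(21,0),(0,0),(11,1),(3,1)]⟩),.k,.k,.k,
  ⟨true,0,⟨1,[(21,0),(0,0)]⟩,⟨0,[]⟩⟩,⟨false,0,⟨5,[(0,1),(9,1),(4,1),(3,1),(15,0),(0,0)]⟩,⟨9,[(14,0),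
  (0,0),(15,1),(3,4)]⟩⟩,⟨true,0,⟨0,[(33,0)]⟩,⟨0,[(34,0)]⟩⟩,⟨false,0,⟨1,[(0,0),(14,0),(16,0),(0,0),
  (2,0)]⟩,⟨9,[(14,0),(0,0),(15,1),(2,9),(1,4)]⟩⟩,⟨false,0,⟨0,[]⟩,⟨0,[]⟩⟩,⟨false,0,⟨0,[]⟩,⟨0,[]⟩⟩,
  [.o ⟨false,0,⟨5,[(0,4),(0,0),(29,0),(0,4),(0,0),(2,2)]⟩,⟨4,[(14,0),(0,5),(15,1),(2,4)]⟩⟩,.e
  ⟨false,1,⟨0,[(32,0),(3,0)]⟩,⟨0,[(34,0),(3,0)]⟩⟩ ⟨false,1,⟨2,[(0,0),(7,0),(1,0),(4,0),(16,1),(2,0),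
  (0,2)]⟩,⟨2,[(0,0),(1,0),(16,0),(11,0),(0,0),(1,3)]⟩⟩,.a ⟨true,0,⟨0,[(1,0)]⟩,⟨0,[(15,0)]⟩⟩ ⟨false,
  1,⟨0,[(33,0),(2,0)]⟩,⟨0,[(34,0)]⟩⟩ ⟨true,0,⟨1,[(0,0),(14,0),(16,0),(0,0),(2,0)]⟩,⟨2,[(0,0),(1,0),
  (16,0),(11,0),(0,0),(1,3)]⟩⟩,.o ⟨false,0,⟨5,[(0,3),(0,0),(2,0),(26,1),(5,0)]⟩,⟨9,[(14,0),(0,10),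
  (15,1),(3,4)]⟩⟩]⟩)))) (.Q [0,0,-1,0,1,0,1,0,0,-1,1] (.p true [0,0,1] [1] (⟨0,[(21,0)]⟩,⟨0,[(20,
  0)]⟩) .k 1 (⟨0,[]⟩,⟨0,[]⟩) .k .k) (.I [0,0,1,1,0,0,0,1] (.S ⟨1,0,[0,0,0,0,0,0,0,-1],[1,0,-1],[1,1,
  0,-1,0,0,0,-1],(⟨0,[(22,0)]⟩,⟨0,[(23,0)]⟩),⟨0,[(11,0)]⟩,.k,.k,⟨true,0,⟨0,[(32,0)]⟩,⟨0,[(33,0)]⟩⟩,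
  ⟨false,1,⟨1,[(13,0),(0,0),(20,0)]⟩,⟨0,[]⟩⟩,⟨false,0,⟨0,[]⟩,⟨1,[(13,0),(0,0),(20,0)]⟩⟩,⟨true,0,⟨0,
  [(33,0)]⟩,⟨0,[(32,0)]⟩⟩,[.o ⟨false,0,⟨0,[(6,0)]⟩,⟨9,[(13,0),(0,0),(3,9),(11,1),(4,4)]⟩⟩,.a ⟨true,
  0,⟨0,[(4,0),(12,0),(17,0)]⟩,⟨0,[(18,0)]⟩⟩ ⟨true,0,⟨0,[(4,0),(26,0),(3,0)]⟩,⟨0,[(0,0)]⟩⟩ ⟨false,1,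
  ⟨1,[(5,1),(25,1),(2,0),(0,0)]⟩,⟨0,[(8,0),(9,0)]⟩⟩,.o ⟨false,0,⟨0,[(8,0)]⟩,⟨49,[(1,24),(11,13),(0,
  13),(5,24),(9,4),(4,0),(1,1)]⟩⟩,.o ⟨false,0,⟨0,[(21,0)]⟩,⟨0,[(1,0)]⟩⟩]⟩) (.Q [0,-2,0,0,1,0,0,0,-1,
  1,0,-1] (.p false [0,0,0,0,1] [1] (⟨0,[(16,0)]⟩,⟨0,[(15,0)]⟩) .k 1 (⟨0,[]⟩,⟨0,[]⟩) .k .k) (.Q [0,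
  1,0,0,0,0,1,1,-1,0,1,-1] (.p true [0,0,1] [0,0,0,0,1] (⟨0,[(24,0)]⟩,⟨0,[(23,0)]⟩) .k 2 (⟨0,[(17,
  0)]⟩,⟨0,[(16,0)]⟩) .k (.r (-1) ⟨0,[(9,0),(9,0),(16,0)]⟩ ⟨6,[(1,1),(4,1),(13,2),(0,2),(8,2)]⟩))
  (.Q [0,-1,0,-1,1,0,1,1,-1,0,1,-1] (.p true [0,0,1] [0,0,0,0,1] (⟨0,[(25,0)]⟩,⟨0,[(24,0)]⟩) .k 2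
  (⟨0,[(18,0)]⟩,⟨0,[(17,0)]⟩) .k (.r (-1) ⟨0,[(10,0),(9,0),(16,0)]⟩ ⟨6,[(2,1),(4,1),(13,2),(0,2),(8,
  2)]⟩)) (.R ⟨1,false,false,false,[1,0,0,0,-1],[1,0,-1],[],(⟨0,[(18,0)]⟩,⟨0,[(19,0)]⟩),(⟨0,[(25,
  0)]⟩,⟨0,[(26,0)]⟩),⟨0,[(5,0)]⟩,.k,.k,(.r (-1) ⟨0,[(34,0),(3,0)]⟩ ⟨1,[(23,0),(0,0),(11,1),(3,1)]⟩),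
  .k,(.r (-2) ⟨9,[(10,9),(2,4),(2,2),(0,2),(15,0),(3,4),(0,9)]⟩ ⟨0,[(7,0),(28,0)]⟩),.k,⟨false,1,⟨5,
  [(13,0),(6,3),(0,5),(11,0),(3,0),(0,2)]⟩,⟨6,[(3,2),(4,2),(13,0),(0,0),(8,0)]⟩⟩,⟨true,0,⟨0,[(11,0),
  (5,0)]⟩,⟨1,[(0,0),(0,0),(5,0),(0,0)]⟩⟩,⟨true,0,⟨0,[(40,0)]⟩,⟨0,[]⟩⟩,⟨false,0,⟨0,[(9,0),(7,0)]⟩,⟨0,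
  [(0,0),(35,0)]⟩⟩,⟨false,0,⟨0,[(36,0)]⟩,⟨0,[(35,0),(2,0)]⟩⟩,⟨false,0,⟨0,[(9,0),(7,0),(18,0)]⟩,⟨0,
  [(0,0)]⟩⟩,[.o ⟨false,0,⟨0,[(9,0)]⟩,⟨9,[(16,0),(0,0),(3,9),(11,1),(4,4)]⟩⟩,.e ⟨false,1,⟨1,[(37,0),
  (0,0)]⟩,⟨0,[(40,0)]⟩⟩ ⟨false,1,⟨1,[(9,1),(7,1),(19,0),(0,0)]⟩,⟨0,[(1,0)]⟩⟩,.a ⟨true,0,⟨1,[(1,0),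
  (0,0),(4,0),(12,0)]⟩,⟨0,[(17,0)]⟩⟩ ⟨false,1,⟨1,[(16,0),(0,0),(20,0)]⟩,⟨0,[]⟩⟩ ⟨true,0,⟨0,[(9,0),
  (7,0)]⟩,⟨0,[(1,0)]⟩⟩,.o ⟨false,0,⟨1,[(0,0),(0,0),(5,0),(0,0),(2,1)]⟩,⟨9,[(16,0),(0,10),(15,1),(3,
  4)]⟩⟩]⟩) (.R ⟨1,true,false,false,[0,0,1],[0,0,0,0,1],[0,1,0,0,0,0,0,1],(⟨0,[(26,0)]⟩,⟨0,[(25,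
  0)]⟩),(⟨0,[(19,0)]⟩,⟨0,[(18,0)]⟩),⟨0,[(15,0)]⟩,.k,.k,.k,.k,(.r (-2) ⟨9,[(10,9),(2,4),(2,2),(0,2),
  (15,0),(3,4),(0,9)]⟩ ⟨1,[(0,0),(0,0),(5,0),(0,0)]⟩),.k,⟨false,1,⟨5,[(13,0),(6,3),(0,5),(11,0),(3,
  0),(0,2)]⟩,⟨6,[(3,2),(4,2),(13,0),(0,0),(8,0)]⟩⟩,⟨true,0,⟨0,[(11,0),(5,0)]⟩,⟨0,[(1,0),(5,0),(30,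
  0)]⟩⟩,⟨true,0,⟨0,[(40,0)]⟩,⟨0,[]⟩⟩,⟨false,0,⟨0,[(9,0),(7,0)]⟩,⟨0,[(1,0),(36,0)]⟩⟩,⟨false,0,⟨0,
  [(36,0)]⟩,⟨0,[(35,0),(2,0)]⟩⟩,⟨true,(-1),⟨0,[(0,0)]⟩,⟨7,[(1,1),(0,4),(7,5),(5,0),(16,0),(1,1)]⟩⟩,
  []⟩)) (.I [1,0,1,1,0,0,0,1] (.N [0,1,1] 0 ⟨0,[(0,0)]⟩ ⟨0,[(3,0)]⟩ .k) (.Q [0,0,-2,0,1,0,0,0,0,-1]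
  (.pp true [-1,1]) (.Q [0,0,1,0,0,0,0,0,-1,0,0,-1] (.p false [0,0,0,0,1] [] (⟨0,[(20,0)]⟩,⟨0,[(19,
  0)]⟩) .k 0 (⟨0,[]⟩,⟨0,[]⟩) .k .k) (.Q [0,1,0,1,-1,0,-1,-1,1,0,-1,1] (.p false [0,0,1] [0,0,0,0,1]
  (⟨0,[(28,0)]⟩,⟨0,[(27,0)]⟩) .k 2 (⟨0,[(21,0)]⟩,⟨0,[(20,0)]⟩) .k (.r (-1) ⟨0,[(13,0),(9,0),(16,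
  0)]⟩ ⟨6,[(2,1),(7,1),(13,2),(0,2),(8,2)]⟩)) (.S ⟨1,0,[0,-1],[1,0,0,0,-1],[],(⟨0,[(21,0)]⟩,⟨0,[(22,
  0)]⟩),⟨0,[(8,0)]⟩,.k,(.r (-1) ⟨0,[(37,0),(3,0)]⟩ ⟨1,[(26,0),(0,0),(11,1),(3,1)]⟩),⟨true,0,⟨0,[(43,
  0)]⟩,⟨0,[]⟩⟩,⟨false,1,⟨1,[(19,0),(0,0),(20,0)]⟩,⟨0,[]⟩⟩,⟨false,0,⟨0,[(39,0)]⟩,⟨0,[(38,0),(2,0)]⟩⟩,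
  ⟨true,0,⟨0,[(39,0)]⟩,⟨0,[(38,0)]⟩⟩,[.o ⟨false,1,⟨11,[(1,3),(0,0),(2,5),(13,1),(16,0),(3,0)]⟩,⟨4,
  [(0,1),(12,1),(6,2),(15,0),(6,0)]⟩⟩,.a ⟨true,1,⟨0,[(5,0)]⟩,⟨0,[(0,0),(12,0)]⟩⟩ ⟨false,1,⟨1,[(40,
  0),(0,0)]⟩,⟨0,[(43,0)]⟩⟩ ⟨true,1,⟨0,[(41,0)]⟩,⟨0,[(0,0),(0,0),(11,0)]⟩⟩,.e ⟨false,1,⟨1,[(19,0),(0,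
  0),(20,0)]⟩,⟨0,[]⟩⟩ ⟨false,1,⟨0,[(41,0)]⟩,⟨0,[(43,0)]⟩⟩,.o ⟨false,0,⟨0,[(1,0)]⟩,⟨9,[(19,0),(0,10),
  (15,1),(3,4)]⟩⟩]⟩) (.R ⟨1,false,false,false,[1,0,0,0,-1],[1,0,-1],[],(⟨0,[(21,0)]⟩,⟨0,[(22,0)]⟩),
  (⟨0,[(28,0)]⟩,⟨0,[(29,0)]⟩),⟨0,[(8,0)]⟩,.k,.k,(.r (-1) ⟨0,[(37,0),(3,0)]⟩ ⟨1,[(26,0),(0,0),(11,1),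
  (3,1)]⟩),.k,(.r (-2) ⟨9,[(13,9),(2,4),(2,2),(0,2),(15,0),(3,4),(0,9)]⟩ ⟨0,[(10,0),(28,0)]⟩),.k,
  ⟨false,1,⟨1,[(2,0),(13,0),(7,1),(16,0)]⟩,⟨6,[(3,2),(7,2),(13,0),(0,0),(8,0)]⟩⟩,⟨true,0,⟨0,[(14,0),
  (5,0)]⟩,⟨0,[(0,0),(9,0),(28,0)]⟩⟩,⟨true,0,⟨0,[(43,0)]⟩,⟨0,[]⟩⟩,⟨false,0,⟨1,[(4,0),(15,0),(4,0)]⟩,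
  ⟨0,[(0,0),(38,0)]⟩⟩,⟨false,0,⟨0,[(39,0)]⟩,⟨0,[(38,0),(2,0)]⟩⟩,⟨false,0,⟨1,[(4,0),(15,0),(4,0),(13,
  1)]⟩,⟨0,[(0,0)]⟩⟩,[.o ⟨false,0,⟨0,[(12,0)]⟩,⟨9,[(19,0),(0,0),(3,9),(11,1),(4,4)]⟩⟩,.a ⟨true,0,⟨1,
  [(4,0),(0,0),(4,0),(12,0)]⟩,⟨0,[(24,0)]⟩⟩ ⟨false,1,⟨1,[(40,0),(0,0)]⟩,⟨0,[(43,0)]⟩⟩ ⟨true,0,⟨0,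
  [(4,0)]⟩,⟨0,[(1,0),(22,0)]⟩⟩,.e ⟨false,1,⟨1,[(19,0),(0,0),(20,0)]⟩,⟨0,[]⟩⟩ ⟨false,0,⟨0,[(4,0)]⟩,
  ⟨1,[(0,0),(18,0),(4,0),(14,0)]⟩⟩,.o ⟨false,0,⟨0,[(1,0)]⟩,⟨9,[(19,0),(0,10),(15,1),(3,4)]⟩⟩]⟩))
  (.Q [0,-1,0,0,1,0,0,0,-1,0,0,-1] (.p false [0,0,0,0,1] [] (⟨0,[(21,0)]⟩,⟨0,[(20,0)]⟩) .k 0 (⟨0,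
  []⟩,⟨0,[]⟩) .k .k) (.S ⟨1,0,[],[1,0,0,0,-1],[0,-1],(⟨0,[(21,0)]⟩,⟨0,[(22,0)]⟩),⟨0,[(8,0)]⟩,.k,(.r
  (-1) ⟨0,[(37,0),(3,0)]⟩ ⟨1,[(26,0),(0,0),(11,1),(3,1)]⟩),⟨false,1,⟨1,[(19,0),(0,0),(20,0)]⟩,⟨0,
  []⟩⟩,⟨true,0,⟨0,[(43,0)]⟩,⟨0,[]⟩⟩,⟨true,0,⟨0,[(39,0)]⟩,⟨0,[(38,0)]⟩⟩,⟨false,0,⟨0,[(39,0)]⟩,⟨0,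
  [(38,0),(2,0)]⟩⟩,[.e ⟨false,1,⟨1,[(40,0),(0,0)]⟩,⟨0,[(43,0)]⟩⟩ ⟨false,1,⟨1,[(19,0),(0,0),(19,0)]⟩,
  ⟨0,[]⟩⟩,.o ⟨false,1,⟨0,[(0,0)]⟩,⟨14,[(1,10),(8,5),(9,3),(3,5),(2,5),(7,0),(0,2),(6,0)]⟩⟩,.e
  ⟨false,1,⟨0,[(41,0)]⟩,⟨0,[(43,0)]⟩⟩ ⟨false,1,⟨1,[(19,0),(0,0),(20,0)]⟩,⟨0,[]⟩⟩,.a ⟨true,0,⟨0,[(9,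
  0)]⟩,⟨0,[(1,0)]⟩⟩ ⟨true,1,⟨1,[(40,0),(0,0)]⟩,⟨0,[(10,0),(3,0),(9,0)]⟩⟩ ⟨false,1,⟨1,[(40,0),(0,
  0)]⟩,⟨1,[(26,0),(0,0)]⟩⟩]⟩) (.R ⟨1,false,false,true,[1,0,0,0,-1],[1,0,-1],[],(⟨0,[(21,0)]⟩,⟨0,
  [(22,0)]⟩),(⟨0,[(28,0)]⟩,⟨0,[(29,0)]⟩),⟨0,[(8,0)]⟩,.k,.k,(.r (-1) ⟨0,[(37,0),(3,0)]⟩ ⟨1,[(26,0),
  (0,0),(11,1),(3,1)]⟩),.k,(.r (-2) ⟨9,[(13,9),(2,4),(2,2),(0,2),(15,0),(3,4),(0,9)]⟩ ⟨0,[(10,0),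
  (28,0)]⟩),.k,⟨true,1,⟨0,[(14,0),(9,0),(16,0)]⟩,⟨0,[(10,0)]⟩⟩,⟨false,0,⟨0,[(1,0),(12,0)]⟩,⟨0,[(7,
  0),(1,0)]⟩⟩,⟨true,0,⟨0,[(43,0)]⟩,⟨0,[]⟩⟩,⟨false,(-1),⟨0,[(0,0),(11,0)]⟩,⟨5,[(5,4),(13,0),(4,5),
  (11,0),(4,3)]⟩⟩,⟨false,0,⟨0,[(39,0)]⟩,⟨0,[(38,0),(2,0)]⟩⟩,⟨false,(-1),⟨0,[(0,0),(11,0),(26,0)]⟩,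
  ⟨5,[(5,4),(7,5),(5,0),(16,0),(4,3)]⟩⟩,[.e ⟨false,1,⟨1,[(19,0),(0,0),(19,0)]⟩,⟨0,[]⟩⟩ ⟨false,(-1),
  ⟨0,[(0,0),(2,0),(10,0),(24,0)]⟩,⟨0,[(19,0),(4,0),(16,0)]⟩⟩,.o ⟨false,0,⟨0,[(12,0)]⟩,⟨9,[(19,0),(0,
  0),(3,9),(11,1),(4,4)]⟩⟩,.o ⟨false,1,⟨0,[(19,0)]⟩,⟨4,[(0,3),(19,0),(15,0),(4,1)]⟩⟩,.a ⟨true,0,⟨0,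
  [(9,0)]⟩,⟨0,[(1,0)]⟩⟩ ⟨false,1,⟨1,[(40,0),(0,0)]⟩,⟨1,[(26,0),(0,0)]⟩⟩ ⟨true,(-1),⟨0,[(0,0),(2,0),
  (10,0),(24,0)]⟩,⟨11,[(9,9),(9,1),(4,11),(1,0),(0,0),(8,1),(4,5)]⟩⟩]⟩))) (.Q [0,0,-1,0,1,0,2,0,0,
  -1,2] (.p true [0,0,1] [1,0,-1] (⟨0,[(27,0)]⟩,⟨0,[(26,0)]⟩) .k 2 (⟨0,[(26,0)]⟩,⟨0,[(27,0)]⟩) .k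
  (.r (-1) ⟨0,[(12,1),(9,1),(16,0)]⟩ ⟨6,[(1,5),(7,5),(13,1),(0,1),(8,1)]⟩)) (.K ⟨0,[1,-1,-1],(-1),
  (-1),(⟨0,[(16,0)]⟩,⟨0,[(28,0),(1,0)]⟩),.k,(.r (-1) ⟨1,[(2,1),(34,1),(1,0),(0,0)]⟩ ⟨3,[(1,3),(11,
  1),(1,0),(7,3),(11,0),(2,7),(1,1)]⟩),.k,(.r 0 ⟨6,[(0,0),(1,8),(6,0),(0,1),(3,0),(9,0)]⟩ ⟨3,[(1,1),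
  (11,1),(1,2),(7,7),(11,0),(2,3),(1,3)]⟩),.k,[⟨0,[(0,0)]⟩,⟨0,[(1,0),(11,0)]⟩,⟨4,[(18,2),(0,2),(3,
  4),(11,0),(2,4)]⟩,⟨1,[(1,0),(0,0),(6,0),(3,0),(8,0),(13,0)]⟩]⟩) (.I [0,0,-2,-2,1,0,0,1] (.Q [0,-1,
  0,2,0,0,-1,-1,0,0,-1] (.p false [0,0,1] [] (⟨0,[(29,0)]⟩,⟨0,[(28,0)]⟩) .k 0 (⟨0,[]⟩,⟨0,[]⟩) .k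
  .k) (.R ⟨1,false,false,false,[1,-1],[1,0,-1],[1,0,0,0,0,0,0,-1],(⟨0,[(34,0)]⟩,⟨0,[(35,0)]⟩),(⟨0,
  [(29,0)]⟩,⟨0,[(30,0)]⟩),⟨0,[(18,0),(0,0)]⟩,.k,.k,(.r (-1) ⟨8,[(1,5),(2,3),(3,1),(7,1),(22,1),(2,
  0)]⟩ ⟨0,[(0,0),(24,0),(1,0),(0,0)]⟩),.k,(.r (-1) ⟨0,[(1,0)]⟩ ⟨1,[(0,1),(26,2),(0,0),(15,1)]⟩),.k,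
  ⟨true,0,⟨0,[]⟩,⟨1,[(27,0),(0,0)]⟩⟩,⟨false,1,⟨5,[(17,0),(6,3),(12,0),(3,3)]⟩,⟨0,[(27,0)]⟩⟩,⟨false,
  0,⟨0,[(12,0)]⟩,⟨19,[(1,9),(15,4),(2,2),(0,2),(3,9),(11,0),(4,4)]⟩⟩,⟨true,0,⟨1,[(0,0),(25,0)]⟩,⟨0,
  [(14,0)]⟩⟩,⟨false,0,⟨0,[(0,0),(26,0)]⟩,⟨2,[(1,1),(12,0),(13,0),(10,0),(2,0)]⟩⟩,⟨false,0,⟨0,[(0,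
  0)]⟩,⟨0,[(14,0),(24,0),(2,0)]⟩⟩,[.o ⟨false,0,⟨0,[(13,0)]⟩,⟨9,[(20,0),(0,0),(3,9),(11,1),(4,4)]⟩⟩,
  .e ⟨false,1,⟨2,[(4,0),(3,0),(3,0),(3,0),(24,0),(0,0)]⟩,⟨60,[(1,1),(0,15),(14,7),(6,10),(0,58),(10,
  0),(0,6),(2,3)]⟩⟩ ⟨false,1,⟨8,[(0,2),(3,5),(12,0),(6,3),(12,0),(3,3),(0,2)]⟩,⟨1,[(25,1),(1,0),(0,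
  0)]⟩⟩,.o ⟨false,0,⟨1,[(27,0),(0,0)]⟩,⟨9,[(20,0),(0,0),(15,1),(3,4)]⟩⟩,.a ⟨true,(-1),⟨0,[(3,0)]⟩,
  ⟨0,[(41,0)]⟩⟩ ⟨true,0,⟨1,[(0,0),(3,1),(20,0)]⟩,⟨0,[(25,0),(2,0)]⟩⟩ ⟨false,1,⟨8,[(0,2),(3,5),(12,
  0),(6,3),(12,0),(3,3),(0,2)]⟩,⟨5,[(3,4),(21,5),(1,0),(0,0),(8,0),(4,2)]⟩⟩]⟩) (.Q [0,0,0,0,0,-2,0,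
  0,0,0,1] (.p true [0,0,1] [] (⟨0,[(30,0)]⟩,⟨0,[(29,0)]⟩) .k 0 (⟨0,[]⟩,⟨0,[]⟩) .k .k) (.S ⟨1,0,[0,
  0,-1,-1,0,0,0,1],[0,-1,1],[1,1,-1,-2,0,0,0,1],(⟨0,[(20,0)]⟩,⟨0,[(30,0),(2,0)]⟩),⟨0,[(0,0)]⟩,.k,
  (.r (-1) ⟨0,[(2,0)]⟩ ⟨1,[(13,1),(14,0),(0,0),(11,1),(3,1)]⟩),⟨true,0,⟨0,[(40,0)]⟩,⟨0,[(41,0)]⟩⟩,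
  ⟨false,1,⟨1,[(21,0),(0,0),(20,0)]⟩,⟨0,[]⟩⟩,⟨false,0,⟨0,[]⟩,⟨1,[(21,0),(0,0),(20,0)]⟩⟩,⟨true,0,⟨0,
  [(41,0)]⟩,⟨0,[(40,0)]⟩⟩,[.o ⟨false,1,⟨9,[(15,9),(5,0),(0,0),(15,1),(4,4)]⟩,⟨0,[(14,0),(26,0)]⟩⟩,
  .e ⟨false,1,⟨0,[(2,0)]⟩,⟨0,[(13,0),(27,0),(3,0)]⟩⟩ ⟨false,2,⟨19,[(2,9),(15,4),(2,2),(0,2),(3,9),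
  (11,0),(3,9),(0,14)]⟩,⟨0,[(12,0),(28,0)]⟩⟩,.a ⟨true,0,⟨0,[(28,0)]⟩,⟨0,[(25,0)]⟩⟩ ⟨false,1,⟨19,[(1,
  9),(0,9),(15,4),(2,2),(0,2),(15,0),(4,4)]⟩,⟨0,[(13,0),(27,0)]⟩⟩ ⟨true,1,⟨19,[(2,9),(15,4),(2,2),
  (0,2),(3,9),(11,0),(4,4)]⟩,⟨0,[(12,0),(28,0)]⟩⟩,.o ⟨false,0,⟨1,[(4,2),(0,1),(20,1),(11,0),(2,1),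
  (1,0)]⟩,⟨5,[(18,0),(6,3),(12,0),(3,3)]⟩⟩]⟩) (.Q [0,0,-2,0,1,0,1,0,-1,0,1,-1] (.p true [0,0,1] [0,
  0,0,0,1] (⟨0,[(31,0)]⟩,⟨0,[(30,0)]⟩) .k 2 (⟨0,[(24,0)]⟩,⟨0,[(23,0)]⟩) .k (.r (-1) ⟨7,[(3,1),(14,
  0),(6,1),(0,7),(11,0),(4,7)]⟩ ⟨6,[(5,1),(7,1),(13,2),(0,2),(8,2)]⟩)) (.R ⟨0,false,false,true,[0,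
  -1,1],[1,0,0,0,-1],[0,1],(⟨0,[(21,0)]⟩,⟨0,[(1,0),(34,0)]⟩),(⟨0,[(24,0)]⟩,⟨0,[(25,0)]⟩),⟨0,[(1,
  0)]⟩,.k,.k,(.r (-1) ⟨0,[(3,0)]⟩ ⟨1,[(14,1),(14,0),(0,0),(11,1),(3,1)]⟩),(.r (-1) ⟨49,[(3,19),(12,
  9),(2,14),(2,23),(0,23),(3,19),(10,9),(0,2)]⟩ ⟨0,[(14,0)]⟩),.k,.k,⟨false,0,⟨0,[(40,0),(1,0)]⟩,⟨1,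
  [(22,0),(0,0),(20,0)]⟩⟩,⟨true,0,⟨0,[(0,0),(3,0)]⟩,⟨1,[(5,2),(0,1),(16,1),(3,1),(11,0),(2,1),(1,
  0)]⟩⟩,⟨true,(-1),⟨0,[(13,0),(28,0)]⟩,⟨19,[(3,9),(15,4),(2,2),(0,2),(3,9),(11,0),(4,4)]⟩⟩,⟨false,0,
  ⟨0,[(0,0),(3,0),(9,0)]⟩,⟨9,[(16,9),(5,0),(0,10),(15,1),(4,4)]⟩⟩,⟨false,0,⟨0,[]⟩,⟨0,[]⟩⟩,⟨false,0,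
  ⟨0,[]⟩,⟨0,[]⟩⟩,[.a ⟨true,0,⟨2,[(0,1),(3,0),(0,0),(6,0)]⟩,⟨0,[(23,0)]⟩⟩ ⟨false,0,⟨0,[(40,0),(1,
  0)]⟩,⟨1,[(22,0),(0,0),(20,0)]⟩⟩ ⟨true,0,⟨0,[(0,0),(3,0)]⟩,⟨1,[(5,2),(0,1),(16,1),(3,1),(11,0),(2,
  1),(1,0)]⟩⟩,.o ⟨false,1,⟨10,[(0,1),(3,0),(3,5),(3,2),(26,1),(6,0)]⟩,⟨3,[(4,0),(1,0),(6,0),(9,3),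
  (3,1),(11,0),(0,0),(1,1)]⟩⟩,.e ⟨true,0,⟨0,[(46,0)]⟩,⟨0,[]⟩⟩ ⟨true,0,⟨0,[(0,0),(3,0)]⟩,⟨4,[(13,1),
  (9,4),(3,1),(1,2),(9,0),(6,0)]⟩⟩,.o ⟨false,0,⟨1,[(5,2),(0,1),(20,1),(11,0),(2,1),(1,0)]⟩,⟨5,[(19,
  0),(6,3),(12,0),(3,3)]⟩⟩]⟩) (.Q [0,0,2,0,0,0,1,0,-1,0,1,-1] (.p true [0,0,1] [0,0,0,0,1] (⟨0,[(32,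
  0)]⟩,⟨0,[(31,0)]⟩) .k 2 (⟨0,[(25,0)]⟩,⟨0,[(24,0)]⟩) .k (.r (-1) ⟨7,[(4,1),(14,0),(6,1),(0,7),(11,
  0),(4,7)]⟩ ⟨6,[(6,1),(7,1),(13,2),(0,2),(8,2)]⟩)) (.Q [0,2,-1,0,-1,0,-1,0,1,0,-1,1] (.p false [0,
  0,1] [0,0,0,0,1] (⟨0,[(33,0)]⟩,⟨0,[(32,0)]⟩) .k 2 (⟨0,[(26,0)]⟩,⟨0,[(25,0)]⟩) .k (.r (-1) ⟨7,[(5,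
  1),(14,0),(6,1),(0,7),(11,0),(4,7)]⟩ ⟨6,[(7,1),(7,1),(13,2),(0,2),(8,2)]⟩)) (.R ⟨0,false,false,
  true,[0,-1,1],[0,0,0,0,1],[0,1],(⟨0,[(23,0)]⟩,⟨0,[(3,0),(34,0)]⟩),(⟨0,[(27,0)]⟩,⟨0,[(26,0)]⟩),⟨0,
  [(3,0)]⟩,.k,.k,(.r (-1) ⟨0,[(5,0)]⟩ ⟨2,[(2,0),(13,2),(7,0),(6,0),(12,2),(3,2)]⟩),(.r (-2) ⟨19,[(5,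
  9),(15,4),(2,12),(0,12),(3,9),(11,0),(4,14)]⟩ ⟨0,[(15,0),(28,0)]⟩),.k,.k,⟨false,1,⟨1,[(45,0),(0,
  0)]⟩,⟨0,[(48,0)]⟩⟩,⟨true,0,⟨0,[(0,0),(45,0)]⟩,⟨0,[(1,0)]⟩⟩,⟨true,(-1),⟨0,[(15,0),(28,0)]⟩,⟨19,[(5,
  9),(15,4),(2,2),(0,2),(3,9),(11,0),(4,4)]⟩⟩,⟨false,(-1),⟨0,[(0,0),(15,0)]⟩,⟨5,[(10,4),(7,5),(5,0),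
  (16,0),(4,3)]⟩⟩,⟨false,0,⟨0,[]⟩,⟨0,[]⟩⟩,⟨false,0,⟨0,[]⟩,⟨0,[]⟩⟩,[.a ⟨true,(-1),⟨0,[(0,0),(30,0)]⟩,
  ⟨0,[(10,0)]⟩⟩ ⟨false,0,⟨0,[(42,0),(1,0)]⟩,⟨1,[(24,0),(0,0),(20,0)]⟩⟩ ⟨true,(-1),⟨0,[(0,0)]⟩,⟨0,
  [(1,0),(44,0)]⟩⟩,.o ⟨false,0,⟨24,[(0,8),(1,0),(22,14),(5,9),(8,2),(0,4),(6,0)]⟩,⟨4,[(1,0),(4,0),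
  (1,0),(1,3),(18,0),(11,0),(0,1),(1,2)]⟩⟩,.e ⟨true,0,⟨0,[(48,0)]⟩,⟨0,[]⟩⟩ ⟨true,(-1),⟨0,[(0,0)]⟩,
  ⟨3,[(1,1),(8,0),(1,0),(11,0),(6,0),(14,0)]⟩⟩,.o ⟨false,0,⟨1,[(7,2),(0,1),(20,1),(11,0),(2,1),(1,
  0)]⟩,⟨5,[(21,0),(6,3),(12,0),(3,3)]⟩⟩]⟩) (.R ⟨0,false,false,true,[0,-1,1],[0,0,0,0,1],[0,1],(⟨0,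
  [(23,0)]⟩,⟨0,[(3,0),(34,0)]⟩),(⟨0,[(27,0)]⟩,⟨0,[(26,0)]⟩),⟨0,[(3,0)]⟩,.k,.k,(.r (-1) ⟨0,[(5,0)]⟩
  ⟨2,[(2,0),(13,2),(7,0),(6,0),(12,2),(3,2)]⟩),(.r (-2) ⟨19,[(5,9),(15,4),(2,12),(0,12),(3,9),(11,
  0),(4,14)]⟩ ⟨0,[(15,0),(28,0)]⟩),.k,.k,⟨false,1,⟨1,[(45,0),(0,0)]⟩,⟨0,[(48,0)]⟩⟩,⟨true,0,⟨0,[(2,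
  0),(2,0),(2,0),(35,2)]⟩,⟨0,[(1,0)]⟩⟩,⟨true,(-1),⟨0,[(15,0),(28,0)]⟩,⟨19,[(5,9),(15,4),(2,2),(0,2),
  (3,9),(11,0),(4,4)]⟩⟩,⟨false,(-1),⟨0,[(2,0),(5,0),(33,0),(1,2)]⟩,⟨5,[(10,4),(7,5),(5,0),(16,0),(4,
  3)]⟩⟩,⟨false,0,⟨0,[]⟩,⟨0,[]⟩⟩,⟨false,0,⟨0,[]⟩,⟨0,[]⟩⟩,[.e ⟨false,0,⟨0,[(42,0),(1,0)]⟩,⟨1,[(24,0),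
  (0,0),(20,0)]⟩⟩ ⟨false,0,⟨6,[(2,1),(22,4),(2,4),(11,0),(0,0),(0,11),(1,11)]⟩,⟨0,[(0,0)]⟩⟩,.o
  ⟨false,0,⟨4,[(2,0),(12,0),(9,3),(3,0),(11,0),(0,2),(1,2)]⟩,⟨5,[(0,0),(0,0),(4,0),(3,3),(30,0),(0,
  3),(1,3)]⟩⟩,.a ⟨true,0,⟨0,[(31,0)]⟩,⟨0,[(28,0)]⟩⟩ ⟨true,0,⟨0,[(48,0)]⟩,⟨0,[]⟩⟩ ⟨false,0,⟨6,[(2,1),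
  (22,4),(2,4),(11,0),(0,0),(0,4),(1,4)]⟩,⟨0,[(0,0)]⟩⟩,.o ⟨false,0,⟨4,[(0,2),(1,2),(5,1),(6,1),(13,
  3),(1,0),(9,0),(2,1)]⟩,⟨5,[(21,0),(6,3),(12,0),(3,3)]⟩⟩]⟩)) (.S ⟨1,0,[],[1,0,0,0,-1],[1,-1,0,-1],
  (⟨0,[(25,0)]⟩,⟨0,[(26,0)]⟩),⟨0,[(12,0)]⟩,.k,(.r (-1) ⟨8,[(4,2),(2,1),(3,0),(7,0),(22,0),(2,4)]⟩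
  ⟨2,[(1,0),(21,0),(6,0),(12,2),(3,2)]⟩),⟨false,1,⟨0,[(42,0),(2,0)]⟩,⟨0,[(43,0)]⟩⟩,⟨true,0,⟨0,[(47,
  0)]⟩,⟨0,[]⟩⟩,⟨true,0,⟨0,[]⟩,⟨0,[(47,0)]⟩⟩,⟨false,0,⟨0,[(43,0)]⟩,⟨0,[(42,0),(2,0)]⟩⟩,[.o ⟨false,1,
  ⟨0,[(23,0)]⟩,⟨1,[(0,1),(5,2),(0,1),(20,1),(11,0),(2,1),(1,0)]⟩⟩,.o ⟨false,1,⟨3,[(5,0),(1,1),(1,2),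
  (3,0),(14,1),(11,0),(2,1)]⟩,⟨39,[(0,5),(0,4),(12,10),(9,28),(3,10),(10,8),(0,7)]⟩⟩,.o ⟨false,1,⟨0,
  [(23,0)]⟩,⟨1,[(0,1),(5,2),(0,1),(20,1),(11,0),(2,1),(1,0)]⟩⟩,.a ⟨true,0,⟨0,[(13,0)]⟩,⟨0,[(0,0),
  (29,0)]⟩⟩ ⟨true,1,⟨8,[(4,2),(2,1),(3,0),(7,0),(22,0),(2,4)]⟩,⟨10,[(5,3),(0,0),(7,7),(13,7),(10,2),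
  (0,0),(2,10)]⟩⟩ ⟨false,1,⟨1,[(44,0),(0,0)]⟩,⟨2,[(1,0),(21,0),(6,0)]⟩⟩]⟩))))) (.Q [0,-1,0,2,0,0,-1,
  -1,0,0,-1] (.p false [0,0,1] [] (⟨0,[(29,0)]⟩,⟨0,[(28,0)]⟩) .k 0 (⟨0,[]⟩,⟨0,[]⟩) .k .k) (.R ⟨1,
  false,false,false,[1,-1],[1,0,-1],[1,0,0,0,0,0,0,-1],(⟨0,[(34,0)]⟩,⟨0,[(35,0)]⟩),(⟨0,[(29,0)]⟩,⟨0,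
  [(30,0)]⟩),⟨0,[(18,0),(0,0)]⟩,.k,.k,(.r (-1) ⟨0,[(38,1),(3,0)]⟩ ⟨9,[(1,9),(15,4),(2,2),(0,2),(3,
  9),(11,0),(4,4)]⟩),.k,(.x 0 ⟨9,[(1,3),(1,4),(0,1),(9,5),(12,3),(1,9),(2,19),(4,2),(4,2)]⟩ ⟨31,[(2,
  15),(15,3),(0,35),(11,23),(5,3),(0,5),(1,5),(0,36),(0,2)]⟩),.k,⟨true,0,⟨0,[]⟩,⟨1,[(27,0),(0,0)]⟩⟩,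
  ⟨false,1,⟨5,[(17,0),(6,3),(12,0),(3,3)]⟩,⟨0,[(27,0)]⟩⟩,⟨false,0,⟨0,[(12,0)]⟩,⟨5,[(14,5),(2,0),(6,
  3),(12,0),(3,0),(0,2)]⟩⟩,⟨true,0,⟨1,[(0,0),(25,0)]⟩,⟨0,[(14,0)]⟩⟩,⟨false,0,⟨0,[(0,0),(26,0)]⟩,⟨7,
  [(2,1),(11,7),(2,0),(6,1),(12,0),(0,7),(3,7)]⟩⟩,⟨false,0,⟨0,[(0,0)]⟩,⟨0,[(14,0),(24,0),(2,0)]⟩⟩,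
  [.o ⟨false,0,⟨0,[(13,0)]⟩,⟨9,[(20,0),(0,0),(3,9),(11,1),(4,4)]⟩⟩,.e ⟨false,1,⟨2,[(4,0),(3,0),(3,
  0),(3,0),(24,0),(0,0)]⟩,⟨8,[(2,2),(14,0),(6,0),(0,8),(11,0),(3,0)]⟩⟩ ⟨false,1,⟨8,[(0,2),(3,5),(12,
  0),(6,3),(12,0),(3,3),(0,2)]⟩,⟨1,[(25,1),(1,0),(0,0)]⟩⟩,.o ⟨false,0,⟨1,[(27,0),(0,0)]⟩,⟨9,[(20,0),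
  (0,0),(15,1),(3,4)]⟩⟩,.a ⟨true,(-1),⟨0,[(3,0)]⟩,⟨0,[(41,0)]⟩⟩ ⟨true,0,⟨1,[(0,0),(3,1),(20,0)]⟩,⟨0,
  [(25,0),(2,0)]⟩⟩ ⟨false,1,⟨8,[(0,2),(3,5),(12,0),(6,3),(12,0),(3,3),(0,2)]⟩,⟨5,[(3,4),(21,5),(1,
  0),(0,0),(8,0),(4,2)]⟩⟩]⟩) (.I [1,0,-2,-2,1,0,0,1] (.N [0,-2,1] (-1) ⟨0,[(0,0)]⟩ ⟨0,[(2,0)]⟩ (.x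
  0 ⟨3,[(1,1),(0,1),(1,0),(23,1),(1,3),(2,7),(4,0),(4,0)]⟩ ⟨28,[(0,2),(4,2),(13,10),(0,39),(4,28),
  (6,6),(5,7),(2,8),(0,9)]⟩)) (.Q [0,0,2,0,-1,0,0,0,-1,1,0,-1] (.p false [0,0,0,0,1] [1] (⟨0,[(24,
  0)]⟩,⟨0,[(23,0)]⟩) .k 1 (⟨0,[]⟩,⟨0,[]⟩) .k .k) (.K ⟨0,[1,-1,0,0,-1],(-1),0,(⟨0,[(11,0)]⟩,⟨0,[(25,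
  0),(8,0)]⟩),(.r (-1) ⟨17,[(2,5),(3,5),(12,0),(6,3),(12,0),(3,3),(0,11)]⟩ ⟨19,[(1,9),(17,4),(2,7),
  (0,7),(3,9),(11,0),(6,9)]⟩),(.r (-2) ⟨25,[(2,9),(3,9),(12,4),(19,0),(1,21),(1,20),(0,28)]⟩ ⟨33,
  [(1,29),(2,9),(14,4),(7,29),(10,1),(0,2),(2,7)]⟩),.k,(.r (-1) ⟨2,[(6,1),(3,0),(7,0),(22,0),(2,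
  1)]⟩ ⟨33,[(1,15),(2,1),(14,22),(7,49),(11,4),(2,1),(1,7)]⟩),.k,[⟨0,[(10,0),(12,0)]⟩,⟨0,[(0,0)]⟩,
  ⟨16,[(1,5),(2,1),(14,0),(3,16),(3,5),(10,13),(0,3),(2,4)]⟩,⟨1,[(0,0),(7,0),(31,1)]⟩]⟩) (.Q [0,0,
  -1,0,0,0,0,0,1,0,0,1] (.p true [0,0,0,0,1] [] (⟨0,[(25,0)]⟩,⟨0,[(24,0)]⟩) .k 0 (⟨0,[]⟩,⟨0,[]⟩) .k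
  .k) (.S ⟨1,0,[],[1,0,0,0,-1],[0,-1],(⟨0,[(25,0)]⟩,⟨0,[(26,0)]⟩),⟨0,[(12,0)]⟩,.k,(.r (-1) ⟨17,[(3,
  5),(3,5),(12,0),(6,3),(12,0),(3,3),(0,11)]⟩ ⟨19,[(2,9),(17,4),(2,7),(0,7),(3,9),(11,0),(6,9)]⟩),
  ⟨false,1,⟨1,[(23,0),(0,0),(20,0)]⟩,⟨0,[]⟩⟩,⟨true,0,⟨0,[(47,0)]⟩,⟨0,[]⟩⟩,⟨true,0,⟨0,[(43,0)]⟩,⟨0,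
  [(42,0)]⟩⟩,⟨false,0,⟨0,[(43,0)]⟩,⟨0,[(42,0),(2,0)]⟩⟩,[.e ⟨false,1,⟨1,[(44,0),(0,0)]⟩,⟨0,[(47,
  0)]⟩⟩ ⟨false,1,⟨1,[(23,0),(0,0),(19,0)]⟩,⟨0,[]⟩⟩,.o ⟨false,1,⟨3,[(5,0),(1,1),(1,2),(3,0),(14,1),
  (11,0),(2,1)]⟩,⟨38,[(0,10),(1,0),(2,5),(8,10),(2,1),(6,27),(3,9),(10,7),(0,8)]⟩⟩,.e ⟨false,1,⟨0,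
  [(45,0)]⟩,⟨0,[(47,0)]⟩⟩ ⟨false,1,⟨1,[(23,0),(0,0),(20,0)]⟩,⟨0,[]⟩⟩,.a ⟨true,0,⟨0,[(13,0)]⟩,⟨0,[(0,
  0)]⟩⟩ ⟨true,1,⟨1,[(44,0),(0,0)]⟩,⟨12,[(2,1),(2,4),(8,7),(2,3),(10,5),(10,3),(0,0)]⟩⟩ ⟨false,1,⟨1,
  [(44,0),(0,0)]⟩,⟨1,[(30,0),(0,0)]⟩⟩]⟩) (.S ⟨1,0,[0,-1],[1,0,0,0,-1],[1,0,0,-1],(⟨0,[(25,0)]⟩,⟨0,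
  [(26,0)]⟩),⟨0,[(12,0)]⟩,.k,(.r (-1) ⟨17,[(3,5),(3,5),(12,0),(6,3),(12,0),(3,3),(0,11)]⟩ ⟨19,[(2,
  9),(17,4),(2,7),(0,7),(3,9),(11,0),(6,9)]⟩),⟨true,0,⟨0,[(42,0)]⟩,⟨0,[(43,0)]⟩⟩,⟨false,1,⟨1,[(23,
  0),(0,0),(20,0)]⟩,⟨0,[]⟩⟩,⟨false,0,⟨0,[]⟩,⟨1,[(23,0),(0,0),(20,0)]⟩⟩,⟨true,0,⟨0,[(43,0)]⟩,⟨0,[(42,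
  0)]⟩⟩,[.o ⟨false,1,⟨9,[(0,3),(8,4),(13,0),(16,0),(3,1)]⟩,⟨28,[(1,10),(0,2),(2,6),(8,10),(2,5),(6,
  17),(3,7),(10,1),(0,4)]⟩⟩,.a ⟨true,1,⟨0,[(9,0)]⟩,⟨0,[(1,0),(0,0),(2,0),(1,0),(9,0),(10,0)]⟩⟩
  ⟨false,1,⟨17,[(3,5),(3,5),(12,0),(6,3),(12,0),(3,3),(0,11)]⟩,⟨5,[(1,0),(0,1),(17,0),(2,0),(4,1),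
  (10,1),(3,1)]⟩⟩ ⟨true,1,⟨0,[(45,0)]⟩,⟨12,[(2,1),(2,4),(8,7),(2,3),(10,5),(10,3),(0,0)]⟩⟩,.e
  ⟨false,1,⟨0,[(42,0),(2,0)]⟩,⟨0,[(43,0)]⟩⟩ ⟨false,1,⟨0,[(45,0)]⟩,⟨0,[(47,0)]⟩⟩,.o ⟨false,0,⟨0,[(0,
  0)]⟩,⟨49,[(1,24),(21,13),(0,38),(15,4),(4,0),(1,1)]⟩⟩]⟩)))))))))) (.Q [0,-1,0,0,1,0,0,0,-1,0,0,
  -1] (.p false [0,0,0,0,1] [] (⟨0,[(17,0)]⟩,⟨0,[(16,0)]⟩) .k 0 (⟨0,[]⟩,⟨0,[]⟩) .k .k) (.R ⟨1,false,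
  false,false,[0,0,1],[0,0,0,0,1],[0,0,0,0,0,0,0,1],(⟨0,[(25,0)]⟩,⟨0,[(24,0)]⟩),(⟨0,[(18,0)]⟩,⟨0,
  [(17,0)]⟩),⟨0,[(14,0)]⟩,.k,.k,.k,.k,(.r (-2) ⟨9,[(9,9),(2,4),(2,2),(0,2),(15,0),(3,4),(0,9)]⟩ ⟨0,
  [(6,0),(28,0)]⟩),.k,⟨true,1,⟨0,[(10,0),(9,0),(16,0)]⟩,⟨0,[(6,0)]⟩⟩,⟨false,0,⟨0,[(1,0),(17,0),(17,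
  0)]⟩,⟨0,[(3,0),(1,0)]⟩⟩,⟨false,1,⟨1,[(15,0),(0,0),(20,0)]⟩,⟨0,[]⟩⟩,⟨true,(-1),⟨0,[(1,0),(4,0),(12,
  0),(17,0)]⟩,⟨0,[(0,0),(19,0)]⟩⟩,⟨true,0,⟨0,[(35,0)]⟩,⟨0,[(34,0)]⟩⟩,⟨true,(-1),⟨0,[(1,0),(5,0),(11,
  0)]⟩,⟨0,[(0,0),(8,0)]⟩⟩,[.o ⟨false,0,⟨6,[(1,1),(14,4),(15,0),(6,2)]⟩,⟨0,[(0,0)]⟩⟩,.o ⟨false,0,⟨0,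
  [(1,0),(35,0)]⟩,⟨0,[(15,0)]⟩⟩,.o ⟨false,1,⟨49,[(3,24),(11,13),(0,13),(5,24),(9,4),(4,0),(1,1)]⟩,
  ⟨0,[(10,0)]⟩⟩,.a ⟨true,0,⟨0,[(22,0)]⟩,⟨0,[(19,0)]⟩⟩ ⟨true,1,⟨5,[(12,0),(6,3),(0,5),(11,0),(3,0),
  (0,2)]⟩,⟨0,[(6,0)]⟩⟩ ⟨false,0,⟨0,[(1,0),(17,0),(17,0)]⟩,⟨0,[(0,0),(21,0)]⟩⟩]⟩) (.S ⟨1,0,[0,-1],[1,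
  0,0,0,-1],[1,0,0,-1],(⟨0,[(17,0)]⟩,⟨0,[(18,0)]⟩),⟨0,[(4,0)]⟩,.k,(.r (-1) ⟨0,[(33,0),(3,0)]⟩ ⟨1,
  [(22,0),(0,0),(11,1),(3,1)]⟩),⟨true,0,⟨0,[(34,0)]⟩,⟨0,[(35,0)]⟩⟩,⟨false,1,⟨1,[(15,0),(0,0),(20,
  0)]⟩,⟨0,[]⟩⟩,⟨false,0,⟨0,[]⟩,⟨1,[(15,0),(0,0),(20,0)]⟩⟩,⟨true,0,⟨0,[(35,0)]⟩,⟨0,[(34,0)]⟩⟩,[.e
  ⟨false,1,⟨1,[(34,1),(1,0),(0,0)]⟩,⟨0,[(35,0)]⟩⟩ ⟨false,1,⟨1,[(36,0),(0,0)]⟩,⟨0,[(39,0)]⟩⟩,.o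
  ⟨false,2,⟨0,[(15,0),(21,0)]⟩,⟨0,[(1,0)]⟩⟩,.o ⟨false,1,⟨0,[(15,0)]⟩,⟨4,[(0,3),(15,0),(15,0),(4,
  1)]⟩⟩,.a ⟨true,0,⟨0,[(5,0)]⟩,⟨1,[(0,1),(35,0),(0,0)]⟩⟩ ⟨false,1,⟨0,[(33,0),(3,0)]⟩,⟨1,[(22,0),(0,
  0),(11,1)]⟩⟩ ⟨true,1,⟨1,[(36,0),(0,0)]⟩,⟨0,[(1,0),(3,0)]⟩⟩]⟩)))) (.Q [0,-1,0,2,0,0,-1,-1,0,0,-1]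
  (.p false [0,0,1] [] (⟨0,[(22,0)]⟩,⟨0,[(21,0)]⟩) .k 0 (⟨0,[]⟩,⟨0,[]⟩) .k .k) (.I [0,0,2,0,0,2,1]
  (.R ⟨1,false,false,false,[1,-1],[1,0,-1],[1,0,1],(⟨0,[(28,0)]⟩,⟨0,[(29,0)]⟩),(⟨0,[(23,0)]⟩,⟨0,
  [(24,0)]⟩),⟨0,[(12,0),(0,0)]⟩,.k,.k,(.r (-1) ⟨0,[(32,1),(3,0)]⟩ ⟨0,[(1,0),(17,0),(1,0),(0,0)]⟩),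
  .k,(.x 0 ⟨0,[(0,0)]⟩ ⟨15,[(12,3),(0,19),(4,15),(6,7),(5,3),(0,5),(1,5),(0,4),(0,2)]⟩),.k,⟨true,0,
  ⟨5,[(2,4),(16,5),(2,0),(8,0),(4,2)]⟩,⟨0,[(6,0),(25,0)]⟩⟩,⟨false,1,⟨5,[(11,0),(6,3),(12,0),(3,3)]⟩,
  ⟨0,[(21,0)]⟩⟩,⟨false,0,⟨5,[(1,2),(0,4),(16,2),(1,5),(0,0),(8,0),(4,2)]⟩,⟨1,[(32,1),(2,0),(0,0)]⟩⟩,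
  ⟨true,0,⟨1,[(1,0),(18,0)]⟩,⟨0,[(8,0)]⟩⟩,⟨false,0,⟨5,[(1,5),(0,4),(16,5),(1,5),(0,0),(8,0),(4,2)]⟩,
  ⟨0,[(32,1),(3,0)]⟩⟩,⟨false,0,⟨0,[(1,0)]⟩,⟨0,[(8,0),(24,0),(2,0)]⟩⟩,[.o ⟨false,0,⟨0,[(7,0)]⟩,⟨9,
  [(14,0),(0,0),(3,9),(11,1),(4,4)]⟩⟩,.e ⟨false,1,⟨1,[(14,0),(0,0),(20,0)]⟩,⟨1,[(1,0),(17,0),(12,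
  1)]⟩⟩ ⟨false,1,⟨0,[(1,0),(30,1),(3,0)]⟩,⟨1,[(19,1),(1,0),(0,0)]⟩⟩,.o ⟨false,0,⟨1,[(21,0),(0,0)]⟩,
  ⟨9,[(14,0),(0,0),(15,1),(3,4)]⟩⟩,.a ⟨true,(-1),⟨0,[(2,0),(18,0)]⟩,⟨0,[(35,0)]⟩⟩ ⟨true,0,⟨0,[]⟩,⟨0,
  [(38,0)]⟩⟩ ⟨false,1,⟨0,[(1,0),(30,1),(3,0)]⟩,⟨5,[(2,4),(16,5),(1,5),(0,0),(8,0),(4,2)]⟩⟩]⟩) (.R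
  ⟨1,false,false,false,[1,-1],[1,0,-1],[1,0,1],(⟨0,[(28,0)]⟩,⟨0,[(29,0)]⟩),(⟨0,[(23,0)]⟩,⟨0,[(24,
  0)]⟩),⟨0,[(12,0),(0,0)]⟩,.k,.k,(.r (-1) ⟨0,[(32,1),(3,0)]⟩ ⟨0,[(1,0),(17,0),(1,0),(0,0)]⟩),.k,(.r
  (-1) ⟨2,[(0,3),(1,0),(2,1),(2,4),(14,3),(2,7),(4,0),(0,0),(3,3)]⟩ ⟨1,[(1,1),(19,2),(0,0),(15,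
  1)]⟩),.k,⟨true,0,⟨5,[(2,4),(16,5),(2,0),(8,0),(4,2)]⟩,⟨0,[(6,0),(25,0)]⟩⟩,⟨false,1,⟨5,[(11,0),(6,
  3),(12,0),(3,3)]⟩,⟨0,[(21,0)]⟩⟩,⟨false,0,⟨5,[(1,2),(0,4),(16,2),(1,5),(0,0),(8,0),(4,2)]⟩,⟨1,[(32,
  1),(2,0),(0,0)]⟩⟩,⟨true,0,⟨1,[(1,0),(18,0)]⟩,⟨0,[(8,0)]⟩⟩,⟨false,0,⟨5,[(1,5),(0,4),(16,5),(1,5),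
  (0,0),(8,0),(4,2)]⟩,⟨0,[(32,1),(3,0)]⟩⟩,⟨false,0,⟨0,[(1,0)]⟩,⟨0,[(8,0),(24,0),(2,0)]⟩⟩,[.o ⟨false,
  0,⟨0,[(7,0)]⟩,⟨9,[(14,0),(0,0),(3,9),(11,1),(4,4)]⟩⟩,.e ⟨false,1,⟨1,[(14,0),(0,0),(20,0)]⟩,⟨1,[(1,
  0),(17,0),(12,1)]⟩⟩ ⟨false,1,⟨0,[(1,0),(30,1),(3,0)]⟩,⟨1,[(19,1),(1,0),(0,0)]⟩⟩,.o ⟨false,0,⟨1,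
  [(21,0),(0,0)]⟩,⟨9,[(14,0),(0,0),(15,1),(3,4)]⟩⟩,.a ⟨true,(-1),⟨0,[(2,0),(18,0)]⟩,⟨0,[(35,0)]⟩⟩
  ⟨true,0,⟨0,[]⟩,⟨0,[(38,0)]⟩⟩ ⟨false,1,⟨0,[(1,0),(30,1),(3,0)]⟩,⟨5,[(2,4),(16,5),(1,5),(0,0),(8,0),
  (4,2)]⟩⟩]⟩)) (.Q [0,-1,0,0,1,0,1,1,-1,0,1,-1] (.p true [0,0,1] [0,0,0,0,1] (⟨0,[(23,0)]⟩,⟨0,[(22,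
  0)]⟩) .k 2 (⟨0,[(16,0)]⟩,⟨0,[(15,0)]⟩) .k (.r (-1) ⟨5,[(1,1),(8,0),(6,1),(0,5),(11,0),(4,5)]⟩ ⟨1,
  [(4,0),(14,0),(0,0),(13,0)]⟩)) (.Q [0,2,0,1,-1,0,0,0,1,0,0,1] (.p true [0,0,0,0,1] [] (⟨0,[(17,
  0)]⟩,⟨0,[(16,0)]⟩) .k 0 (⟨0,[]⟩,⟨0,[]⟩) .k .k) (.K ⟨0,[0,1,0,0,1],0,(-1),(⟨0,[(18,0),(8,0)]⟩,⟨0,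
  [(4,0)]⟩),(.r 0 ⟨1,[(0,0),(14,0),(6,0),(0,0),(11,0)]⟩ ⟨0,[(33,0),(3,0)]⟩),.k,(.r 1 ⟨13,[(0,1),(2,
  12),(1,1),(0,4),(13,4),(1,7),(9,2),(2,25)]⟩ ⟨1,[(33,1),(0,1),(1,0),(0,2)]⟩),(.r 1 ⟨0,[(6,0),(28,
  0)]⟩ ⟨9,[(9,9),(2,4),(2,2),(0,2),(15,0),(3,4),(0,9)]⟩),.k,[⟨0,[(1,0),(4,0)]⟩,⟨0,[(16,0)]⟩,⟨1,[(1,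
  0),(0,0),(5,1),(6,0)]⟩,⟨0,[(0,0)]⟩]⟩) (.R ⟨1,false,false,true,[0,0,1],[0,0,0,0,1],[0,0,0,0,0,0,0,
  1],(⟨0,[(25,0)]⟩,⟨0,[(24,0)]⟩),(⟨0,[(18,0)]⟩,⟨0,[(17,0)]⟩),⟨0,[(14,0)]⟩,.k,.k,.k,.k,(.r (-2) ⟨9,
  [(9,9),(2,4),(2,2),(0,2),(15,0),(3,4),(0,9)]⟩ ⟨0,[(6,0),(28,0)]⟩),.k,⟨false,2,⟨5,[(12,0),(6,3),(0,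
  5),(11,0),(3,0),(0,8)]⟩,⟨0,[(6,0),(26,0),(1,0)]⟩⟩,⟨true,0,⟨0,[(10,0),(5,0)]⟩,⟨0,[(1,0),(4,0)]⟩⟩,
  ⟨false,1,⟨1,[(15,0),(0,0),(20,0)]⟩,⟨0,[]⟩⟩,⟨true,(-1),⟨4,[(3,1),(2,4),(9,4),(2,2),(11,0),(0,0),(0,
  2),(1,2)]⟩,⟨0,[(1,0)]⟩⟩,⟨true,0,⟨0,[(35,0)]⟩,⟨0,[(34,0)]⟩⟩,⟨true,(-1),⟨4,[(3,1),(2,4),(9,4),(2,2),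
  (11,0),(0,0),(0,2),(1,7)]⟩,⟨2,[(0,0),(0,1),(0,0)]⟩⟩,[.o ⟨false,0,⟨8,[(3,0),(2,2),(9,8),(3,2),(2,
  1),(7,5),(0,1)]⟩,⟨0,[(0,0),(34,0)]⟩⟩,.o ⟨false,0,⟨3,[(3,0),(2,0),(9,3),(3,0),(11,0),(0,1),(1,1)]⟩,
  ⟨1,[(0,0),(14,0),(19,0)]⟩⟩,.o ⟨false,1,⟨9,[(15,0),(0,0),(5,9),(9,1),(3,4)]⟩,⟨0,[(10,0)]⟩⟩,.a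
  ⟨true,0,⟨0,[(22,0)]⟩,⟨0,[(19,0)]⟩⟩ ⟨true,1,⟨5,[(12,0),(6,3),(0,5),(11,0),(3,0),(0,2)]⟩,⟨0,[(6,
  0)]⟩⟩ ⟨false,0,⟨4,[(3,1),(12,4),(2,2),(11,0),(0,0),(0,2),(1,2)]⟩,⟨1,[(0,0),(0,0),(5,0),(14,
  0)]⟩⟩]⟩)) (.Q [0,1,0,1,-1,0,0,0,1,0,0,1] (.p true [0,0,0,0,1] [] (⟨0,[(17,0)]⟩,⟨0,[(16,0)]⟩) .k 0
  (⟨0,[]⟩,⟨0,[]⟩) .k .k) (.S ⟨1,0,[0,-1],[1,0,0,0,-1],[1,0,0,-1],(⟨0,[(17,0)]⟩,⟨0,[(18,0)]⟩),⟨0,[(4,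
  0)]⟩,.k,(.r (-1) ⟨0,[(33,0),(3,0)]⟩ ⟨1,[(22,0),(0,0),(11,1),(3,1)]⟩),⟨true,0,⟨0,[(34,0)]⟩,⟨0,[(35,
  0)]⟩⟩,⟨false,1,⟨1,[(15,0),(0,0),(20,0)]⟩,⟨0,[]⟩⟩,⟨false,0,⟨0,[]⟩,⟨1,[(15,0),(0,0),(20,0)]⟩⟩,⟨true,
  0,⟨0,[(35,0)]⟩,⟨0,[(34,0)]⟩⟩,[.e ⟨false,1,⟨1,[(34,1),(1,0),(0,0)]⟩,⟨0,[(35,0)]⟩⟩ ⟨false,1,⟨1,[(36,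
  0),(0,0)]⟩,⟨0,[(39,0)]⟩⟩,.o ⟨false,2,⟨0,[(15,0),(21,0)]⟩,⟨3,[(0,3),(1,0),(0,0),(2,0),(25,0),(0,
  1)]⟩⟩,.o ⟨false,1,⟨0,[(15,0)]⟩,⟨3,[(0,3),(1,0),(0,0),(2,0),(25,0),(0,1),(3,3)]⟩⟩,.a ⟨true,0,⟨0,
  [(5,0)]⟩,⟨0,[(0,0),(32,0),(3,0)]⟩⟩ ⟨false,1,⟨0,[(33,0),(3,0)]⟩,⟨1,[(22,0),(0,0),(11,1)]⟩⟩ ⟨true,1,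
  ⟨1,[(36,0),(0,0)]⟩,⟨8,[(3,4),(2,5),(13,5),(2,0),(7,2),(0,0)]⟩⟩]⟩) (.Q [0,0,0,-1,0,0,0,0,-1,1,0,
  -1] (.p false [0,0,0,0,1] [1] (⟨0,[(18,0)]⟩,⟨0,[(17,0)]⟩) .k 1 (⟨0,[]⟩,⟨0,[]⟩) .k .k) (.Q [0,0,1,
  0,0,0,0,0,-1,0,0,-1] (.p false [0,0,0,0,1] [] (⟨0,[(19,0)]⟩,⟨0,[(18,0)]⟩) .k 0 (⟨0,[]⟩,⟨0,[]⟩) .k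
  .k) (.S ⟨1,0,[0,-1],[1,0,0,0,-1],[],(⟨0,[(19,0)]⟩,⟨0,[(20,0)]⟩),⟨0,[(6,0)]⟩,.k,(.r (-1) ⟨0,[(35,
  0),(3,0)]⟩ ⟨1,[(24,0),(0,0),(11,1),(3,1)]⟩),⟨true,0,⟨0,[(41,0)]⟩,⟨0,[]⟩⟩,⟨false,1,⟨1,[(17,0),(0,
  0),(20,0)]⟩,⟨0,[]⟩⟩,⟨false,0,⟨0,[(37,0)]⟩,⟨0,[(36,0),(2,0)]⟩⟩,⟨true,0,⟨0,[(37,0)]⟩,⟨0,[(36,0)]⟩⟩,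
  [.o ⟨false,1,⟨0,[(2,0),(34,0)]⟩,⟨4,[(3,1),(14,2),(3,1),(11,0),(6,0)]⟩⟩,.a ⟨true,1,⟨0,[(1,0),(35,
  0),(1,0)]⟩,⟨0,[(3,0),(18,0)]⟩⟩ ⟨false,1,⟨1,[(38,0),(0,0)]⟩,⟨0,[(41,0)]⟩⟩ ⟨true,1,⟨0,[(39,0)]⟩,⟨8,
  [(5,4),(2,5),(13,5),(2,0),(7,2),(0,0)]⟩⟩,.e ⟨false,1,⟨1,[(17,0),(0,0),(20,0)]⟩,⟨0,[]⟩⟩ ⟨false,1,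
  ⟨0,[(39,0)]⟩,⟨0,[(41,0)]⟩⟩,.o ⟨false,0,⟨0,[(0,0)]⟩,⟨9,[(17,0),(0,10),(15,1),(3,4)]⟩⟩]⟩) (.S ⟨1,0,
  [],[1,0,0,0,-1],[0,-1],(⟨0,[(19,0)]⟩,⟨0,[(20,0)]⟩),⟨0,[(6,0)]⟩,.k,(.r (-1) ⟨0,[(35,0),(3,0)]⟩ ⟨1,
  [(24,0),(0,0),(11,1),(3,1)]⟩),⟨false,1,⟨1,[(17,0),(0,0),(20,0)]⟩,⟨0,[]⟩⟩,⟨true,0,⟨0,[(41,0)]⟩,⟨0,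
  []⟩⟩,⟨true,0,⟨0,[(37,0)]⟩,⟨0,[(36,0)]⟩⟩,⟨false,0,⟨0,[(37,0)]⟩,⟨0,[(36,0),(2,0)]⟩⟩,[.e ⟨false,1,⟨1,
  [(38,0),(0,0)]⟩,⟨0,[(41,0)]⟩⟩ ⟨false,1,⟨1,[(17,0),(0,0),(19,0)]⟩,⟨0,[]⟩⟩,.o ⟨false,1,⟨0,[(2,0),
  (34,0)]⟩,⟨4,[(3,1),(14,2),(3,1),(11,0),(6,0)]⟩⟩,.e ⟨false,1,⟨0,[(39,0)]⟩,⟨0,[(41,0)]⟩⟩ ⟨false,1,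
  ⟨1,[(17,0),(0,0),(20,0)]⟩,⟨0,[]⟩⟩,.a ⟨true,0,⟨0,[(7,0)]⟩,⟨0,[(0,0)]⟩⟩ ⟨true,1,⟨1,[(38,0),(0,0)]⟩,
  ⟨8,[(5,4),(2,5),(13,5),(2,0),(7,2),(0,0)]⟩⟩ ⟨false,1,⟨1,[(38,0),(0,0)]⟩,⟨1,[(24,0),(0,0)]⟩⟩]⟩))
  (.R ⟨1,false,false,true,[0,0,1],[1,-1,0,0,-1],[0,0,0,0,0,0,0,1],(⟨0,[(26,0)]⟩,⟨0,[(25,0)]⟩),(⟨0,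
  [(5,0)]⟩,⟨0,[(19,0),(8,0)]⟩),⟨0,[(15,0)]⟩,.k,(.r (-1) ⟨0,[(34,0),(3,0)]⟩ ⟨0,[(0,0),(5,0),(33,
  0)]⟩),.k,(.r 0 ⟨0,[(21,0),(2,0),(11,0)]⟩ ⟨0,[(8,0),(25,1),(3,0)]⟩),.k,.k,⟨true,0,⟨5,[(4,4),(16,5),
  (2,0),(8,0),(2,5),(1,2)]⟩,⟨0,[(7,0),(26,0),(3,0)]⟩⟩,⟨false,0,⟨0,[(1,0),(2,0),(29,0),(1,1)]⟩,⟨0,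
  [(0,0),(2,0),(4,0),(28,0)]⟩⟩,⟨false,1,⟨1,[(16,0),(0,0),(20,0)]⟩,⟨0,[]⟩⟩,⟨true,0,⟨0,[(1,0),(5,0),
  (12,0)]⟩,⟨0,[(0,0),(20,0)]⟩⟩,⟨true,0,⟨0,[(36,0)]⟩,⟨0,[(35,0)]⟩⟩,⟨true,0,⟨0,[(1,0),(5,0),(12,0),
  (15,0)]⟩,⟨0,[(0,0),(9,0)]⟩⟩,[.o ⟨false,1,⟨1,[(1,0),(14,0),(18,0)]⟩,⟨0,[(0,0)]⟩⟩,.o ⟨false,1,⟨0,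
  [(1,0)]⟩,⟨0,[(0,0),(39,0)]⟩⟩,.o ⟨false,1,⟨9,[(16,0),(0,0),(5,9),(9,1),(3,4)]⟩,⟨0,[(11,0)]⟩⟩,.a
  ⟨true,0,⟨0,[(23,0)]⟩,⟨0,[(20,0)]⟩⟩ ⟨true,1,⟨5,[(13,0),(6,3),(0,5),(11,0),(3,0),(0,2)]⟩,⟨0,[(7,
  0)]⟩⟩ ⟨false,1,⟨0,[(1,0),(18,0)]⟩,⟨0,[(0,0),(22,0)]⟩⟩]⟩)))))))))

theorem ok7 : chk K t7 r4 = true := by decide +kernel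

noncomputable def t9 : Tre :=
  (.I [0,-1,0,1,1,0,0,-1] (.S ⟨1,0,[0,0,0,0,0,0,0,1],[0,0,1],[1,1,0,-1,0,0,0,1],(⟨0,[(20,0)]⟩,⟨0,
  [(19,0)]⟩),⟨0,[(9,0)]⟩,.k,.k,⟨true,0,⟨0,[(29,0)]⟩,⟨0,[(30,0)]⟩⟩,⟨false,1,⟨23,[(0,9),(3,9),(2,4),
  (19,0),(4,11)]⟩,⟨0,[]⟩⟩,⟨false,0,⟨0,[]⟩,⟨23,[(0,9),(3,9),(2,4),(19,0),(4,11)]⟩⟩,⟨true,0,⟨0,[(30,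
  0)]⟩,⟨0,[(29,0)]⟩⟩,[.e ⟨false,0,⟨4,[(1,3),(2,0),(13,0),(7,1)]⟩,⟨0,[(0,0)]⟩⟩ ⟨false,0,⟨0,[(1,0),
  (28,0)]⟩,⟨0,[(0,0),(28,0)]⟩⟩,.o ⟨false,1,⟨4,[(3,3),(11,0),(11,0),(4,2)]⟩,⟨0,[(16,0)]⟩⟩,.o ⟨false,
  1,⟨4,[(0,0),(3,0),(12,3),(9,0),(3,1)]⟩,⟨0,[(5,0)]⟩⟩,.a ⟨true,0,⟨0,[(17,0)]⟩,⟨0,[(14,0)]⟩⟩ ⟨false,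
  0,⟨0,[(1,0)]⟩,⟨1,[(0,1),(16,0),(0,0)]⟩⟩ ⟨true,0,⟨0,[(1,0),(28,0)]⟩,⟨0,[(16,0),(0,0)]⟩⟩]⟩) (.Q [0,
  0,-1,0,1,0,1,0,0,-1,1] (.p true [0,0,1] [1] (⟨0,[(20,0)]⟩,⟨0,[(19,0)]⟩) .k 1 (⟨0,[]⟩,⟨0,[]⟩) .k
  .k) (.Q [0,0,0,1,0,0,1,1,0,-1,1] (.p true [0,0,1] [1] (⟨0,[(21,0)]⟩,⟨0,[(20,0)]⟩) .k 1 (⟨0,[]⟩,⟨0,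
  []⟩) .k .k) (.R ⟨1,false,false,true,[0,0,1],[1,-1],[0,1,0,-1],(⟨0,[(22,0)]⟩,⟨0,[(21,0)]⟩),(⟨0,
  [(26,0)]⟩,⟨0,[(27,0)]⟩),⟨0,[(11,0)]⟩,.k,.k,.k,.k,.k,.k,⟨true,0,⟨1,[(19,0),(0,0)]⟩,⟨0,[]⟩⟩,⟨false,
  0,⟨1,[(9,0),(6,0),(2,0)]⟩,⟨0,[(1,0)]⟩⟩,⟨false,1,⟨5,[(1,0),(6,5),(10,4),(9,0),(0,3),(0,1),(2,2)]⟩,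
  ⟨0,[(2,0),(29,1),(1,0)]⟩⟩,⟨true,0,⟨0,[(8,0),(22,0)]⟩,⟨0,[(0,0)]⟩⟩,⟨false,1,⟨13,[(1,6),(6,11),(3,
  3),(0,3),(4,1),(0,6),(9,0),(4,0)]⟩,⟨0,[(2,0),(29,0),(1,0)]⟩⟩,⟨false,0,⟨0,[(8,0)]⟩,⟨4,[(5,3),(11,
  0),(11,0),(4,2)]⟩⟩,[.o ⟨false,0,⟨0,[(31,0)]⟩,⟨9,[(12,0),(0,0),(15,1),(2,9),(1,4)]⟩⟩,.e ⟨false,1,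
  ⟨1,[(31,1),(1,0),(0,0)]⟩,⟨0,[(32,0)]⟩⟩ ⟨false,0,⟨0,[(3,0),(4,0)]⟩,⟨9,[(1,4),(10,2),(0,2),(5,4),(9,
  0),(2,9)]⟩⟩,.o ⟨false,1,⟨49,[(1,24),(10,13),(0,13),(5,24),(9,4),(4,0),(1,1)]⟩,⟨0,[(7,0)]⟩⟩,.a
  ⟨true,0,⟨0,[(19,0)]⟩,⟨0,[(16,0)]⟩⟩ ⟨true,0,⟨0,[(30,0)]⟩,⟨1,[(19,0),(0,0),(11,1)]⟩⟩ ⟨false,0,⟨0,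
  [(3,0),(4,0)]⟩,⟨9,[(12,0),(0,0),(5,9),(9,1),(2,9),(1,4)]⟩⟩]⟩) (.Q [0,0,0,0,-1,0,-1,0,1,0,-1,1]
  (.p false [0,0,1] [0,0,0,0,1] (⟨0,[(22,0)]⟩,⟨0,[(21,0)]⟩) .k 2 (⟨0,[(15,0)]⟩,⟨0,[(14,0)]⟩) .k (.r
  0 ⟨0,[(2,0),(29,0),(1,0)]⟩ ⟨4,[(1,1),(6,1),(3,2),(0,2),(4,2),(0,2),(8,0)]⟩)) (.Q [0,0,0,0,0,-1,0,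
  0,0,1,0,-1] (.ed true [0,1,0,0,1] .k) (.R ⟨1,false,false,true,[1,0,0,0,-1],[1,-1],[0,-1],(⟨0,[(16,
  0)]⟩,⟨0,[(17,0)]⟩),(⟨0,[(28,0)]⟩,⟨0,[(29,0)]⟩),⟨0,[(0,0)]⟩,.k,.k,(.r (-1) ⟨1,[(2,0),(0,0),(1,0),
  (30,0)]⟩ ⟨1,[(21,0),(0,0),(11,1),(3,1)]⟩),(.r (-1) ⟨1,[(14,0),(0,0),(5,0),(0,0),(11,1),(1,0)]⟩ ⟨0,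
  [(32,0)]⟩),.k,.k,⟨false,1,⟨0,[(34,0),(1,0)]⟩,⟨1,[(30,0),(1,0),(0,0)]⟩⟩,⟨true,(-1),⟨0,[(1,0),(19,
  0)]⟩,⟨0,[(14,0)]⟩⟩,⟨false,1,⟨1,[(14,0),(0,0),(20,0)]⟩,⟨0,[]⟩⟩,⟨false,(-1),⟨0,[(1,0),(19,0),(10,
  0)]⟩,⟨0,[(14,0),(19,0),(1,0)]⟩⟩,⟨true,0,⟨0,[(34,0)]⟩,⟨0,[(33,0)]⟩⟩,⟨false,(-1),⟨0,[(1,0),(19,0),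
  (10,0),(1,0)]⟩,⟨0,[(14,0),(21,0)]⟩⟩,[.o ⟨false,0,⟨0,[(33,0)]⟩,⟨9,[(14,0),(0,0),(15,1),(2,9),(1,
  4)]⟩⟩,.a ⟨true,0,⟨1,[(2,0),(3,0),(11,0),(2,0)]⟩,⟨0,[(34,0)]⟩⟩ ⟨true,1,⟨0,[(36,0)]⟩,⟨0,[(4,0),(15,
  0),(0,0),(12,0)]⟩⟩ ⟨false,0,⟨1,[(1,1),(0,0),(0,0),(2,0),(14,0),(13,0)]⟩,⟨0,[(14,0),(19,0)]⟩⟩,.o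
  ⟨false,1,⟨0,[(14,0)]⟩,⟨14,[(1,8),(1,4),(11,5),(5,3),(9,1),(5,0)]⟩⟩,.o ⟨false,1,⟨1,[(14,1),(6,0),
  (0,0)]⟩,⟨0,[(1,0),(1,0)]⟩⟩]⟩) (.R ⟨0,false,false,true,[1,0,0,0,-1],[1,-1],[0,1,1],(⟨0,[(16,0)]⟩,
  ⟨0,[(17,0)]⟩),(⟨0,[(28,0)]⟩,⟨0,[(29,0)]⟩),⟨0,[(0,0)]⟩,.k,.k,(.r (-1) ⟨1,[(2,0),(0,0),(1,0),(30,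
  0)]⟩ ⟨1,[(21,0),(0,0),(11,1),(3,1)]⟩),(.r (-1) ⟨1,[(14,0),(0,0),(5,0),(0,0),(11,1),(1,0)]⟩ ⟨0,
  [(32,0)]⟩),.k,.k,⟨false,0,⟨1,[(21,0),(0,0),(11,1)]⟩,⟨1,[(2,0),(0,0),(1,0),(29,0)]⟩⟩,⟨true,(-1),⟨0,
  [(1,0),(19,0)]⟩,⟨0,[(14,0)]⟩⟩,⟨true,(-1),⟨0,[(4,0),(15,0),(0,0),(12,0)]⟩,⟨1,[(35,0),(0,0)]⟩⟩,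
  ⟨false,(-1),⟨0,[(1,0),(19,0),(10,0)]⟩,⟨0,[(14,0),(19,0),(1,0)]⟩⟩,⟨false,0,⟨0,[]⟩,⟨0,[]⟩⟩,⟨false,0,
  ⟨0,[]⟩,⟨0,[]⟩⟩,[.o ⟨false,0,⟨0,[(33,0)]⟩,⟨9,[(14,0),(0,0),(15,1),(2,9),(1,4)]⟩⟩,.a ⟨true,0,⟨1,[(2,
  0),(3,0),(11,0),(2,0)]⟩,⟨0,[(34,0)]⟩⟩ ⟨true,0,⟨1,[(21,0),(0,0)]⟩,⟨0,[]⟩⟩ ⟨false,0,⟨1,[(1,1),(0,0),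
  (0,0),(2,0),(14,0),(13,0)]⟩,⟨0,[(14,0),(19,0)]⟩⟩,.o ⟨false,1,⟨0,[(14,0)]⟩,⟨14,[(1,8),(1,4),(11,5),
  (5,3),(9,1),(5,0)]⟩⟩,.o ⟨false,1,⟨1,[(14,1),(6,0),(0,0)]⟩,⟨0,[(1,0),(1,0)]⟩⟩]⟩)) (.Q [0,0,0,2,0,0,
  1,1,0,-1,1] (.p true [0,0,1] [1] (⟨0,[(23,0)]⟩,⟨0,[(22,0)]⟩) .k 1 (⟨0,[]⟩,⟨0,[]⟩) .k .k) (.Q [0,0,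
  2,0,-1,0,-1,0,0,1,-1] (.p false [0,0,1] [1] (⟨0,[(24,0)]⟩,⟨0,[(23,0)]⟩) .k 1 (⟨0,[]⟩,⟨0,[]⟩) .k
  .k) (.R ⟨1,true,false,false,[1,0,-1],[0,1],[0,1,0,0,0,0,0,-1],(⟨0,[(24,0)]⟩,⟨0,[(25,0)]⟩),(⟨0,
  [(30,0)]⟩,⟨0,[(29,0)]⟩),⟨0,[(13,0)]⟩,.k,.k,.k,.k,(.r (-2) ⟨1,[(3,1),(0,1),(29,1),(1,0),(0,0)]⟩ ⟨0,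
  [(0,0),(0,0)]⟩),.k,⟨false,1,⟨0,[(4,0),(6,0),(21,0)]⟩,⟨71,[(0,37),(0,47),(4,3),(0,19),(4,14),(19,
  0),(4,35)]⟩⟩,⟨true,1,⟨0,[(4,0)]⟩,⟨0,[(0,0)]⟩⟩,⟨true,0,⟨0,[(39,0)]⟩,⟨0,[]⟩⟩,⟨false,1,⟨19,[(1,9),
  (13,0),(0,0),(3,9),(11,1),(4,14)]⟩,⟨0,[(3,0)]⟩⟩,⟨false,0,⟨0,[(35,0)]⟩,⟨0,[(34,0),(2,0)]⟩⟩,⟨true,0,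
  ⟨0,[(1,0)]⟩,⟨0,[(3,0),(30,0)]⟩⟩,[]⟩) (.Q [0,0,-1,0,1,0,1,0,-1,0,1,-1] (.p true [0,0,1] [0,0,0,0,
  1] (⟨0,[(25,0)]⟩,⟨0,[(24,0)]⟩) .k 2 (⟨0,[(18,0)]⟩,⟨0,[(17,0)]⟩) .k (.r 0 ⟨0,[(5,0),(29,0),(1,0)]⟩
  ⟨0,[(2,0),(13,0),(4,0)]⟩)) (.Q [0,-2,0,0,1,0,0,0,-1,0,0,-1] (.p false [0,0,0,0,1] [] (⟨0,[(19,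
  0)]⟩,⟨0,[(18,0)]⟩) .k 0 (⟨0,[]⟩,⟨0,[]⟩) .k .k) (.R ⟨1,false,false,false,[0,0,1],[1,0,0,0,-1],[1,0,
  0,-1,0,0,0,1],(⟨0,[(27,0)]⟩,⟨0,[(26,0)]⟩),(⟨0,[(19,0)]⟩,⟨0,[(20,0)]⟩),⟨0,[(16,0)]⟩,.k,.k,.k,.k,
  (.r 0 ⟨35,[(7,1),(0,23),(2,9),(2,4),(18,11),(0,0)]⟩ ⟨9,[(13,9),(3,0),(0,0),(5,9),(9,1),(2,9),(1,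
  4)]⟩),.k,⟨true,(-1),⟨0,[(7,0)]⟩,⟨9,[(13,9),(3,0),(0,0),(5,9),(9,1),(2,9),(1,4)]⟩⟩,⟨false,0,⟨3,[(0,
  2),(0,0),(0,0),(4,4),(5,3),(7,0),(1,0),(13,4)]⟩,⟨14,[(4,5),(1,4),(11,20),(5,3),(9,1),(5,0)]⟩⟩,
  ⟨false,1,⟨0,[(36,0),(2,0)]⟩,⟨0,[(37,0)]⟩⟩,⟨false,1,⟨0,[(0,0),(12,0)]⟩,⟨23,[(2,0),(0,7),(3,6),(3,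
  8),(6,23),(5,5),(8,3),(0,2)]⟩⟩,⟨true,0,⟨0,[]⟩,⟨0,[(41,0)]⟩⟩,⟨false,1,⟨0,[(0,0),(12,0),(23,0)]⟩,
  ⟨11,[(2,1),(4,5),(1,0),(1,4),(6,11),(5,3),(9,1),(6,0)]⟩⟩,[.o ⟨false,1,⟨1,[(0,0),(16,0)]⟩,⟨6,[(2,
  0),(0,0),(3,2),(10,6),(4,3),(0,1),(9,0),(2,0)]⟩⟩,.o ⟨false,1,⟨0,[(0,0)]⟩,⟨5,[(3,0),(3,1),(10,5),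
  (4,2),(0,1),(8,1),(0,0),(6,2)]⟩⟩,.o ⟨false,1,⟨14,[(4,5),(1,4),(11,5),(5,3),(9,1),(5,0)]⟩,⟨0,[(12,
  0)]⟩⟩,.a ⟨true,0,⟨0,[(24,0)]⟩,⟨0,[(21,0)]⟩⟩ ⟨true,0,⟨0,[(8,0)]⟩,⟨0,[(23,0),(0,0),(12,0)]⟩⟩ ⟨false,
  1,⟨0,[(0,0),(20,0)]⟩,⟨6,[(2,0),(0,0),(3,2),(10,6),(4,3),(0,8),(9,0),(2,0)]⟩⟩]⟩) (.Q [0,0,-1,0,0,0,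
  0,0,1,0,0,1] (.p true [0,0,0,0,1] [] (⟨0,[(20,0)]⟩,⟨0,[(19,0)]⟩) .k 0 (⟨0,[]⟩,⟨0,[]⟩) .k .k) (.Q
  [0,0,1,0,0,0,0,0,-1,1,0,-1] (.p false [0,0,0,0,1] [1] (⟨0,[(21,0)]⟩,⟨0,[(20,0)]⟩) .k 1 (⟨0,[]⟩,⟨0,
  []⟩) .k .k) (.Q [0,0,0,0,0,1,0,0,0,-1,0,1] (.ed false [0,1,0,0,1] .k) (.Q [0,0,0,0,0,0,0,0,1,-1,0,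
  1] (.p true [0,0,0,0,1] [1] (⟨0,[(23,0)]⟩,⟨0,[(22,0)]⟩) .k 1 (⟨0,[]⟩,⟨0,[]⟩) .k .k) (.R ⟨0,false,
  false,true,[1,0,0,0,-1],[2,-1,0,0,-1],[0,0,0,-1],(⟨0,[(23,0)]⟩,⟨0,[(24,0)]⟩),(⟨0,[(23,0),(11,0)]⟩,
  ⟨0,[(1,0)]⟩),⟨0,[(1,0)]⟩,.k,(.r (-1) ⟨17,[(6,3),(2,8),(2,3),(0,4),(24,0),(3,2),(0,8)]⟩ ⟨1,[(28,0),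
  (0,0),(11,1),(3,1)]⟩),(.r (-1) ⟨17,[(6,3),(2,8),(2,3),(0,4),(24,0),(3,2),(0,8)]⟩ ⟨1,[(28,0),(0,0),
  (11,1),(3,1)]⟩),.k,.k,.k,⟨true,0,⟨1,[(28,0),(0,0)]⟩,⟨0,[]⟩⟩,⟨false,0,⟨0,[(25,0),(2,0)]⟩,⟨9,[(21,
  0),(0,0),(15,1),(3,4)]⟩⟩,⟨true,0,⟨0,[(40,0)]⟩,⟨0,[(41,0)]⟩⟩,⟨false,0,⟨1,[(9,0),(3,0),(11,0),(2,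
  0)]⟩,⟨9,[(21,0),(0,0),(15,1),(2,9),(1,4)]⟩⟩,⟨false,0,⟨0,[]⟩,⟨0,[]⟩⟩,⟨false,0,⟨0,[]⟩,⟨0,[]⟩⟩,[.e
  ⟨false,1,⟨1,[(40,1),(1,0),(0,0)]⟩,⟨0,[(41,0)]⟩⟩ ⟨false,0,⟨0,[(6,0),(4,1),(5,1),(10,0),(12,0),(1,
  0)]⟩,⟨4,[(21,2),(0,2),(15,0),(2,4)]⟩⟩,.o ⟨false,1,⟨3,[(2,1),(2,0),(3,1),(2,0),(0,0),(7,0),(21,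
  1)]⟩,⟨13,[(0,13),(5,0),(0,7),(3,2),(15,10),(0,1),(9,0),(2,0)]⟩⟩,.o ⟨false,1,⟨0,[(21,0)]⟩,⟨0,[(0,
  0)]⟩⟩,.a ⟨true,0,⟨0,[(2,0)]⟩,⟨0,[(3,0)]⟩⟩ ⟨false,1,⟨17,[(6,3),(2,8),(2,3),(0,4),(24,0),(3,2),(0,
  8)]⟩,⟨1,[(28,0),(0,0),(11,1)]⟩⟩ ⟨true,0,⟨0,[(6,0),(4,1),(5,1),(10,0),(12,0),(1,0)]⟩,⟨35,[(2,3),(1,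
  3),(2,19),(3,3),(15,23),(0,16),(0,12),(8,3),(5,1)]⟩⟩]⟩) (.R ⟨0,false,false,false,[-1,1,0,0,1],[0,
  0,0,0,1],[1,1],(⟨0,[(1,0)]⟩,⟨0,[(23,0),(11,0)]⟩),(⟨0,[(24,0)]⟩,⟨0,[(23,0)]⟩),⟨0,[(23,0)]⟩,(.r 0
  ⟨1,[(28,0),(0,0),(11,1),(3,1)]⟩ ⟨17,[(6,3),(2,8),(2,3),(0,4),(24,0),(3,2),(0,8)]⟩),.k,.k,.k,.k,.k,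
  ⟨true,0,⟨0,[]⟩,⟨1,[(28,0),(0,0)]⟩⟩,⟨false,0,⟨0,[(25,0),(2,0)]⟩,⟨9,[(21,0),(0,0),(15,1),(3,4)]⟩⟩,
  ⟨false,1,⟨17,[(6,3),(2,8),(2,3),(0,4),(24,0),(3,2),(0,8)]⟩,⟨1,[(28,0),(0,0),(11,1)]⟩⟩,⟨true,0,⟨1,
  [(9,0),(3,0),(11,0),(2,0)]⟩,⟨13,[(6,0),(0,7),(3,2),(15,10),(0,1),(9,0),(2,0)]⟩⟩,⟨false,0,⟨0,[]⟩,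
  ⟨0,[]⟩⟩,⟨false,0,⟨0,[]⟩,⟨0,[]⟩⟩,[.o ⟨false,0,⟨4,[(4,1),(17,2),(15,0),(6,0)]⟩,⟨5,[(0,4),(20,0),(16,
  0),(4,2)]⟩⟩,.a ⟨true,0,⟨0,[(22,0)]⟩,⟨0,[(0,0)]⟩⟩ ⟨true,0,⟨0,[]⟩,⟨1,[(28,0),(0,0)]⟩⟩ ⟨false,0,⟨0,
  [(25,0),(2,0)]⟩,⟨9,[(21,0),(0,0),(15,1),(3,4)]⟩⟩,.o ⟨false,1,⟨19,[(3,13),(18,5),(15,7),(3,2),(0,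
  0),(1,1)]⟩,⟨0,[(2,0)]⟩⟩,.o ⟨false,1,⟨24,[(21,2),(0,27),(15,9),(4,1),(1,3)]⟩,⟨0,[(0,0)]⟩⟩]⟩)) (.Q
  [0,-1,0,0,1,0,0,0,-1,0,0,-1] (.p false [0,0,0,0,1] [] (⟨0,[(23,0)]⟩,⟨0,[(22,0)]⟩) .k 0 (⟨0,[]⟩,⟨0,
  []⟩) .k .k) (.S ⟨1,0,[],[1,0,0,0,-1],[0,-1],(⟨0,[(23,0)]⟩,⟨0,[(24,0)]⟩),⟨0,[(1,0)]⟩,.k,(.r (-1)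
  ⟨17,[(6,3),(2,8),(2,3),(0,4),(24,0),(3,2),(0,8)]⟩ ⟨1,[(28,0),(0,0),(11,1),(3,1)]⟩),⟨false,1,⟨1,
  [(21,0),(0,0),(20,0)]⟩,⟨0,[]⟩⟩,⟨true,0,⟨0,[(45,0)]⟩,⟨0,[]⟩⟩,⟨true,0,⟨0,[(41,0)]⟩,⟨0,[(40,0)]⟩⟩,
  ⟨false,0,⟨0,[(41,0)]⟩,⟨0,[(40,0),(2,0)]⟩⟩,[.e ⟨false,1,⟨1,[(42,0),(0,0)]⟩,⟨0,[(45,0)]⟩⟩ ⟨false,1,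
  ⟨1,[(21,0),(0,0),(19,0)]⟩,⟨0,[]⟩⟩,.o ⟨false,1,⟨0,[(0,0)]⟩,⟨4,[(4,1),(17,2),(15,0),(6,0)]⟩⟩,.e
  ⟨false,1,⟨0,[(43,0)]⟩,⟨0,[(45,0)]⟩⟩ ⟨false,1,⟨1,[(21,0),(0,0),(20,0)]⟩,⟨0,[]⟩⟩,.a ⟨true,0,⟨0,[(2,
  0)]⟩,⟨0,[(3,0)]⟩⟩ ⟨true,1,⟨1,[(42,0),(0,0)]⟩,⟨0,[(11,0),(15,0),(0,0),(12,0)]⟩⟩ ⟨false,1,⟨1,[(42,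
  0),(0,0)]⟩,⟨1,[(28,0),(0,0)]⟩⟩]⟩) (.S ⟨1,0,[0,-1],[1,0,0,0,-1],[1,0,0,-1],(⟨0,[(23,0)]⟩,⟨0,[(24,
  0)]⟩),⟨0,[(1,0)]⟩,.k,(.r (-1) ⟨17,[(6,3),(2,8),(2,3),(0,4),(24,0),(3,2),(0,8)]⟩ ⟨1,[(28,0),(0,0),
  (11,1),(3,1)]⟩),⟨true,0,⟨0,[(40,0)]⟩,⟨0,[(41,0)]⟩⟩,⟨false,1,⟨1,[(21,0),(0,0),(20,0)]⟩,⟨0,[]⟩⟩,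
  ⟨false,0,⟨0,[]⟩,⟨1,[(21,0),(0,0),(20,0)]⟩⟩,⟨true,0,⟨0,[(41,0)]⟩,⟨0,[(40,0)]⟩⟩,[.e ⟨false,1,⟨1,
  [(40,1),(1,0),(0,0)]⟩,⟨0,[(41,0)]⟩⟩ ⟨false,1,⟨1,[(42,0),(0,0)]⟩,⟨0,[(45,0)]⟩⟩,.o ⟨false,2,⟨0,[(21,
  0),(21,0)]⟩,⟨10,[(0,12),(4,1),(1,0),(3,3),(15,4),(0,1),(9,1),(2,1)]⟩⟩,.o ⟨false,1,⟨0,[(21,0)]⟩,⟨4,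
  [(0,3),(21,0),(15,0),(4,1)]⟩⟩,.a ⟨true,0,⟨0,[(2,0)]⟩,⟨0,[(3,0)]⟩⟩ ⟨false,1,⟨17,[(6,3),(2,8),(2,3),
  (0,4),(24,0),(3,2),(0,8)]⟩,⟨1,[(28,0),(0,0),(11,1)]⟩⟩ ⟨true,1,⟨1,[(42,0),(0,0)]⟩,⟨2,[(0,0),(1,0),
  (4,0),(3,1),(15,2),(0,1)]⟩⟩]⟩))) (.Q [0,0,0,0,0,-1,0,0,0,1,0,-1] (.ed true [0,1,0,0,1] .k) (.S ⟨1,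
  0,[],[1,0,0,0,-1],[0,-1],(⟨0,[(22,0)]⟩,⟨0,[(23,0)]⟩),⟨0,[(0,0)]⟩,.k,(.r (-1) ⟨17,[(5,3),(2,8),(2,
  3),(0,4),(24,0),(3,2),(0,8)]⟩ ⟨1,[(27,0),(0,0),(11,1),(3,1)]⟩),⟨false,1,⟨1,[(20,0),(0,0),(20,0)]⟩,
  ⟨0,[]⟩⟩,⟨true,0,⟨0,[(44,0)]⟩,⟨0,[]⟩⟩,⟨true,0,⟨0,[(40,0)]⟩,⟨0,[(39,0)]⟩⟩,⟨false,0,⟨0,[(40,0)]⟩,⟨0,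
  [(39,0),(2,0)]⟩⟩,[.o ⟨false,1,⟨0,[(20,0)]⟩,⟨1,[(1,1),(25,0),(0,0)]⟩⟩,.a ⟨true,1,⟨0,[(7,0),(2,0),
  (5,0),(23,0),(1,0)]⟩,⟨0,[(1,0),(8,0),(5,0),(10,0),(12,0)]⟩⟩ ⟨true,1,⟨0,[(42,0)]⟩,⟨0,[(10,0),(15,
  0),(0,0),(12,0)]⟩⟩ ⟨false,1,⟨1,[(41,0),(0,0)]⟩,⟨0,[(44,0)]⟩⟩,.o ⟨false,1,⟨0,[(20,0)]⟩,⟨1,[(1,1),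
  (25,0),(0,0)]⟩⟩,.o ⟨false,1,⟨1,[(20,1),(6,0),(0,0)]⟩,⟨0,[(1,0)]⟩⟩]⟩) (.R ⟨0,false,false,false,[1,
  0,0,0,-1],[2,0,-1,0,-1],[0,-1,1,0,0,0,0,-1],(⟨0,[(22,0)]⟩,⟨0,[(23,0)]⟩),(⟨0,[(22,0),(6,0)]⟩,⟨0,
  [(0,0),(18,0)]⟩),⟨0,[(0,0)]⟩,.k,.k,(.r (-1) ⟨17,[(5,3),(2,8),(2,3),(0,4),(24,0),(3,2),(0,8)]⟩ ⟨1,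
  [(27,0),(0,0),(11,1),(3,1)]⟩),.k,.k,.k,⟨true,0,⟨1,[(27,0),(0,0)]⟩,⟨0,[]⟩⟩,⟨false,0,⟨0,[(24,0)]⟩,
  ⟨14,[(7,5),(1,4),(11,5),(5,3),(9,1),(5,0)]⟩⟩,⟨false,1,⟨9,[(16,9),(3,0),(0,0),(5,9),(9,1),(4,4)]⟩,
  ⟨2,[(6,0),(4,1),(12,0)]⟩⟩,⟨true,0,⟨0,[(16,0)]⟩,⟨14,[(3,1),(0,1),(1,4),(3,3),(3,5),(12,1),(9,1),(6,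
  0)]⟩⟩,⟨false,0,⟨0,[]⟩,⟨0,[]⟩⟩,⟨false,0,⟨0,[]⟩,⟨0,[]⟩⟩,[.a ⟨true,1,⟨0,[(7,0),(2,0),(5,1),(23,0),(1,
  0)]⟩,⟨0,[(1,0),(8,0),(16,0),(12,0)]⟩⟩ ⟨true,1,⟨9,[(16,9),(3,0),(0,0),(5,9),(9,1),(4,4)]⟩,⟨0,[(10,
  0),(29,0)]⟩⟩ ⟨false,1,⟨1,[(16,1),(24,0),(0,0)]⟩,⟨14,[(3,1),(0,1),(1,4),(3,3),(3,5),(12,1),(9,1),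
  (6,0)]⟩⟩,.o ⟨false,2,⟨0,[(16,0),(3,0),(21,0)]⟩,⟨13,[(1,13),(3,0),(0,7),(3,16),(15,10),(0,15),(9,
  0),(2,0)]⟩⟩,.o ⟨false,1,⟨0,[(20,0)]⟩,⟨1,[(1,1),(25,0),(0,0)]⟩⟩,.o ⟨false,1,⟨1,[(20,1),(6,0),(0,
  0)]⟩,⟨0,[(1,0)]⟩⟩]⟩))) (.Q [0,0,0,0,0,-1,0,0,0,1,0,-1] (.ed true [0,1,0,0,1] .k) (.S ⟨1,0,[0,-1],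
  [1,0,0,0,-1],[],(⟨0,[(21,0)]⟩,⟨0,[(22,0)]⟩),⟨0,[(0,0)]⟩,.k,(.r (-1) ⟨17,[(4,3),(2,8),(2,3),(0,4),
  (24,0),(3,2),(0,8)]⟩ ⟨1,[(26,0),(0,0),(11,1),(3,1)]⟩),⟨true,0,⟨0,[(43,0)]⟩,⟨0,[]⟩⟩,⟨false,1,⟨1,
  [(19,0),(0,0),(20,0)]⟩,⟨0,[]⟩⟩,⟨false,0,⟨0,[(39,0)]⟩,⟨0,[(38,0),(2,0)]⟩⟩,⟨true,0,⟨0,[(39,0)]⟩,⟨0,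
  [(38,0)]⟩⟩,[.o ⟨false,1,⟨15,[(1,9),(1,5),(12,0),(6,3),(12,0),(4,7)]⟩,⟨4,[(2,1),(17,2),(15,0),(6,
  0)]⟩⟩,.a ⟨true,1,⟨0,[(1,0),(2,0),(4,1),(5,1),(10,0),(12,1),(1,1)]⟩,⟨0,[(2,0)]⟩⟩ ⟨false,1,⟨1,[(40,
  0),(0,0)]⟩,⟨0,[(43,0)]⟩⟩ ⟨true,1,⟨0,[(41,0)]⟩,⟨0,[(1,0),(0,0)]⟩⟩,.e ⟨false,1,⟨1,[(19,0),(0,0),(20,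
  0)]⟩,⟨0,[]⟩⟩ ⟨false,1,⟨0,[(41,0)]⟩,⟨0,[(43,0)]⟩⟩,.o ⟨false,0,⟨0,[(1,0)]⟩,⟨9,[(19,0),(0,10),(15,1),
  (3,4)]⟩⟩]⟩) (.R ⟨0,false,false,false,[1,0,0,0,-1],[0,1],[1,0,1,1],(⟨0,[(21,0)]⟩,⟨0,[(22,0)]⟩),(⟨0,
  [(34,0)]⟩,⟨0,[(33,0)]⟩),⟨0,[(0,0)]⟩,.k,.k,(.r (-1) ⟨17,[(4,3),(2,8),(2,3),(0,4),(24,0),(3,2),(0,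
  8)]⟩ ⟨1,[(26,0),(0,0),(11,1),(3,1)]⟩),(.r (-1) ⟨17,[(4,3),(2,8),(2,3),(0,4),(24,0),(3,2),(0,8)]⟩
  ⟨1,[(26,0),(0,0),(11,1),(3,1)]⟩),.k,.k,⟨true,0,⟨0,[]⟩,⟨1,[(26,0),(0,0)]⟩⟩,⟨false,1,⟨0,[(4,0),(9,
  0),(5,0)]⟩,⟨0,[(1,0),(21,0),(2,0)]⟩⟩,⟨false,0,⟨1,[(26,0),(0,0),(11,1)]⟩,⟨17,[(4,3),(2,8),(2,3),(0,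
  4),(24,0),(3,2),(0,8)]⟩⟩,⟨true,0,⟨9,[(2,1),(2,4),(14,7),(4,4),(10,0),(6,0)]⟩,⟨0,[(1,0),(2,0),(4,
  1),(5,1),(10,0),(12,0),(1,0)]⟩⟩,⟨false,0,⟨0,[]⟩,⟨0,[]⟩⟩,⟨false,0,⟨0,[]⟩,⟨0,[]⟩⟩,[.e ⟨false,0,⟨0,
  [(39,0)]⟩,⟨1,[(38,1),(1,0),(0,0)]⟩⟩ ⟨false,1,⟨9,[(19,0),(0,10),(15,1),(2,9),(0,4)]⟩,⟨0,[(1,0),(2,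
  0),(4,1),(5,1),(10,0),(12,0),(1,0)]⟩⟩,.o ⟨false,1,⟨9,[(19,0),(0,0),(15,1),(2,9),(1,4)]⟩,⟨0,[(38,
  0)]⟩⟩,.a ⟨true,0,⟨0,[(1,0),(2,0),(4,1),(5,1),(10,0),(12,1),(1,0)]⟩,⟨0,[(20,0)]⟩⟩ ⟨true,0,⟨1,[(26,
  0),(0,0),(11,1)]⟩,⟨0,[(37,0)]⟩⟩ ⟨false,1,⟨9,[(19,0),(0,10),(15,1),(2,9),(1,4)]⟩,⟨0,[(1,0),(2,0),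
  (4,1),(5,1),(10,0),(12,0),(1,0)]⟩⟩,.o ⟨false,0,⟨0,[(1,0)]⟩,⟨9,[(19,0),(0,10),(15,1),(3,
  4)]⟩⟩]⟩)))) (.Q [0,0,0,0,0,0,0,0,0,0,1,-1] (.ed true [1,0,-1,0,1] (.r (-1) ⟨0,[(3,0),(13,0),(4,
  0)]⟩ ⟨0,[(6,0),(29,0),(1,0)]⟩)) (.S ⟨1,0,[],[1,0,0,0,-1],[0,-1],(⟨0,[(19,0)]⟩,⟨0,[(20,0)]⟩),⟨0,
  [(0,0),(14,0)]⟩,.k,(.r (-1) ⟨17,[(2,3),(2,8),(2,3),(0,4),(24,0),(3,2),(0,8)]⟩ ⟨1,[(24,0),(0,0),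
  (11,1),(3,1)]⟩),⟨false,1,⟨1,[(17,0),(0,0),(20,0)]⟩,⟨0,[]⟩⟩,⟨true,0,⟨0,[(41,0)]⟩,⟨0,[]⟩⟩,⟨true,0,
  ⟨0,[(37,0)]⟩,⟨0,[(36,0)]⟩⟩,⟨false,0,⟨0,[(37,0)]⟩,⟨0,[(36,0),(2,0)]⟩⟩,[.o ⟨false,1,⟨0,[(17,0)]⟩,⟨0,
  [(1,0),(4,0)]⟩⟩,.a ⟨true,1,⟨0,[(4,0),(2,0),(5,0),(23,0),(1,0)]⟩,⟨0,[(1,0),(0,0),(4,0),(5,0),(10,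
  0),(12,0)]⟩⟩ ⟨true,1,⟨0,[(39,0)]⟩,⟨0,[(7,0),(15,0),(0,0),(12,0)]⟩⟩ ⟨false,1,⟨1,[(38,0),(0,0)]⟩,⟨0,
  [(41,0)]⟩⟩,.o ⟨false,1,⟨0,[(17,0)]⟩,⟨0,[(1,0),(4,0)]⟩⟩,.o ⟨false,1,⟨1,[(17,1),(6,0),(0,0)]⟩,⟨0,
  [(1,0),(0,0)]⟩⟩]⟩) (.R ⟨1,false,false,true,[1,0,1,0,-1],[1,0,0,0,-1],[1,0,0,-1,0,0,0,1],(⟨0,[(19,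
  0),(7,0)]⟩,⟨0,[(0,0)]⟩),(⟨0,[(19,0)]⟩,⟨0,[(20,0)]⟩),⟨0,[(16,0),(2,0)]⟩,.k,.k,(.r (-1) ⟨23,[(8,13),
  (2,9),(2,4),(19,0),(3,4),(0,16)]⟩ ⟨0,[(23,0),(0,0),(12,0)]⟩),.k,.k,.k,⟨false,0,⟨0,[(8,0)]⟩,⟨6,[(4,
  2),(1,1),(6,6),(4,2),(5,1),(9,0),(2,6)]⟩⟩,⟨true,0,⟨0,[(12,0)]⟩,⟨0,[(24,0)]⟩⟩,⟨true,0,⟨0,[(36,0)]⟩,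
  ⟨0,[(37,0)]⟩⟩,⟨true,0,⟨0,[(23,0)]⟩,⟨0,[(10,0)]⟩⟩,⟨false,0,⟨0,[]⟩,⟨1,[(17,0),(0,0),(20,0)]⟩⟩,⟨true,
  0,⟨0,[(23,0),(13,0)]⟩,⟨0,[(9,0)]⟩⟩,[.o ⟨false,1,⟨0,[(17,0)]⟩,⟨0,[(1,0),(4,0)]⟩⟩,.a ⟨true,1,⟨0,[(4,
  0),(2,0),(5,0),(23,0),(1,0)]⟩,⟨0,[(1,0),(0,0),(4,0),(5,0),(10,0),(12,0)]⟩⟩ ⟨true,0,⟨0,[(7,0),(31,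
  0)]⟩,⟨0,[(23,0),(0,0),(12,0)]⟩⟩ ⟨false,1,⟨5,[(14,0),(6,3),(12,0),(3,0),(0,2)]⟩,⟨2,[(2,0),(4,0),(5,
  0),(10,2),(8,0),(3,0)]⟩⟩,.o ⟨false,1,⟨0,[(4,0)]⟩,⟨13,[(1,11),(12,0),(3,1),(15,2),(3,5)]⟩⟩,.o
  ⟨false,1,⟨0,[(17,0),(6,0)]⟩,⟨0,[(1,0),(0,0),(9,0)]⟩⟩]⟩)))) (.Q [0,0,0,0,0,1,0,0,0,-1,0,1] (.ed
  false [0,1,0,0,1] .k) (.Q [0,-2,1,0,1,0,1,0,-2,1,1,-2] (.p false [0,0,0,0,1] [1,0,1,0,-1] (⟨0,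
  [(18,0)]⟩,⟨0,[(17,0)]⟩) .k 2 (⟨0,[(17,0),(7,0)]⟩,⟨0,[(0,0),(12,0)]⟩) .k (.r 0 ⟨0,[(21,0),(0,0),
  (10,0),(1,0)]⟩ ⟨13,[(5,3),(2,9),(3,4),(19,0),(2,3),(1,15)]⟩)) (.Q [0,0,1,0,0,0,0,0,-1,0,0,-1] (.p
  false [0,0,0,0,1] [] (⟨0,[(19,0)]⟩,⟨0,[(18,0)]⟩) .k 0 (⟨0,[]⟩,⟨0,[]⟩) .k .k) (.R ⟨0,false,false,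
  true,[1,0,0,0,-1],[1,0,1,0,-1],[1,1,1],(⟨0,[(19,0)]⟩,⟨0,[(20,0)]⟩),(⟨0,[(19,0),(7,0)]⟩,⟨0,[(2,0),
  (12,0)]⟩),⟨0,[(2,0)]⟩,.k,.k,(.r (-1) ⟨5,[(3,1),(2,1),(1,1),(29,0),(0,2)]⟩ ⟨1,[(24,0),(0,0),(11,1),
  (3,1)]⟩),.k,.k,.k,⟨true,0,⟨0,[(23,0),(0,0)]⟩,⟨0,[(7,0),(29,0),(1,0)]⟩⟩,⟨false,1,⟨0,[(24,0),(13,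
  0)]⟩,⟨0,[(12,0)]⟩⟩,⟨true,(-1),⟨0,[(7,0),(15,0),(0,0),(12,0)]⟩,⟨1,[(38,0),(0,0)]⟩⟩,⟨false,0,⟨0,
  [(10,0)]⟩,⟨9,[(13,9),(3,0),(0,0),(15,1),(4,4)]⟩⟩,⟨false,0,⟨0,[]⟩,⟨0,[]⟩⟩,⟨false,0,⟨0,[]⟩,⟨0,[]⟩⟩,
  [.o ⟨false,0,⟨1,[(1,0),(4,0),(0,1),(29,1)]⟩,⟨6,[(13,2),(3,0),(0,7),(4,3),(10,1),(4,1)]⟩⟩,.e
  ⟨false,0,⟨0,[]⟩,⟨1,[(17,0),(0,0),(19,0)]⟩⟩ ⟨false,1,⟨1,[(10,1),(27,0),(0,0)]⟩,⟨0,[(23,0)]⟩⟩,.a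
  ⟨true,0,⟨1,[(1,0),(5,0),(5,0),(21,0),(1,1)]⟩,⟨0,[(18,0)]⟩⟩ ⟨false,0,⟨1,[(24,0),(0,0)]⟩,⟨1,[(38,0),
  (0,0)]⟩⟩ ⟨true,0,⟨0,[(10,0)]⟩,⟨0,[(23,0)]⟩⟩,.o ⟨false,0,⟨0,[(0,0)]⟩,⟨9,[(17,0),(0,10),(15,1),(3,
  4)]⟩⟩]⟩) (.R ⟨0,false,false,false,[1,0,0,0,-1],[1,0,-1],[0,-1],(⟨0,[(19,0)]⟩,⟨0,[(20,0)]⟩),(⟨0,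
  [(26,0)]⟩,⟨0,[(27,0)]⟩),⟨0,[(2,0)]⟩,.k,.k,(.r (-1) ⟨5,[(3,1),(2,1),(1,1),(29,0),(0,2)]⟩ ⟨1,[(24,
  0),(0,0),(11,1),(3,1)]⟩),.k,.k,.k,⟨true,0,⟨0,[(7,0),(29,0),(1,0)]⟩,⟨0,[(23,0),(0,0)]⟩⟩,⟨false,0,
  ⟨0,[(0,0),(11,0)]⟩,⟨0,[(4,0)]⟩⟩,⟨false,1,⟨1,[(17,0),(0,0),(20,0)]⟩,⟨0,[]⟩⟩,⟨true,0,⟨0,[(18,0),(4,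
  0)]⟩,⟨1,[(1,0),(4,0),(0,1),(29,1)]⟩⟩,⟨false,0,⟨0,[]⟩,⟨0,[]⟩⟩,⟨false,0,⟨0,[]⟩,⟨0,[]⟩⟩,[.e ⟨false,1,
  ⟨1,[(38,0),(0,0)]⟩,⟨0,[(41,0)]⟩⟩ ⟨false,1,⟨9,[(13,9),(3,0),(0,10),(15,1),(3,4)]⟩,⟨1,[(1,0),(4,0),
  (0,1),(29,1)]⟩⟩,.o ⟨false,1,⟨9,[(13,9),(3,0),(0,0),(15,1),(4,4)]⟩,⟨6,[(6,1),(0,3),(14,2),(1,1),(9,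
  0),(2,3)]⟩⟩,.e ⟨false,1,⟨0,[(39,0)]⟩,⟨0,[(41,0)]⟩⟩ ⟨false,1,⟨9,[(13,9),(3,0),(0,10),(15,1),(4,
  4)]⟩,⟨1,[(1,0),(4,0),(0,1),(29,1)]⟩⟩,.a ⟨true,0,⟨3,[(1,1),(5,1),(5,0),(0,0),(8,0),(0,1),(12,1),(3,
  0)]⟩,⟨0,[(0,0)]⟩⟩ ⟨true,1,⟨1,[(38,0),(0,0)]⟩,⟨0,[(7,0),(15,0),(0,0),(12,0)]⟩⟩ ⟨false,1,⟨9,[(0,7),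
  (12,9),(4,1),(15,1),(3,0),(0,4)]⟩,⟨19,[(1,9),(5,13),(14,5),(1,6),(0,2),(8,1),(2,13)]⟩⟩]⟩)) (.Q [0,
  0,0,0,0,0,0,0,1,-1,0,1] (.p true [0,0,0,0,1] [1] (⟨0,[(19,0)]⟩,⟨0,[(18,0)]⟩) .k 1 (⟨0,[]⟩,⟨0,[]⟩)
  .k .k) (.Q [0,1,0,0,-1,0,0,0,1,0,0,1] (.p true [0,0,0,0,1] [] (⟨0,[(20,0)]⟩,⟨0,[(19,0)]⟩) .k 0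
  (⟨0,[]⟩,⟨0,[]⟩) .k .k) (.Q [0,0,-1,0,0,0,-1,0,1,-1,-1,1] (.p true [0,0,-1,0,1] [1] (⟨0,[(3,0),(12,
  0)]⟩,⟨0,[(20,0),(7,0)]⟩) .k 1 (⟨0,[]⟩,⟨0,[]⟩) .k (.r (-1) ⟨0,[(5,0),(13,0),(4,0)]⟩ ⟨0,[(8,0),(29,
  0),(1,0)]⟩)) (.R ⟨1,false,false,true,[1,0,1,0,-1],[1,0,0,0,-1],[1,0,0,-1,0,0,0,1],(⟨0,[(21,0),(7,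
  0)]⟩,⟨0,[(4,0),(12,0)]⟩),(⟨0,[(21,0)]⟩,⟨0,[(22,0)]⟩),⟨0,[(18,0),(2,0)]⟩,.k,.k,(.r (-1) ⟨23,[(10,
  13),(2,9),(2,4),(19,0),(3,4),(0,16)]⟩ ⟨0,[(25,0),(0,0),(12,0)]⟩),.k,.k,.k,⟨false,0,⟨0,[(10,0)]⟩,
  ⟨6,[(6,2),(1,1),(6,6),(4,2),(5,1),(9,0),(2,6)]⟩⟩,⟨true,0,⟨0,[(14,0)]⟩,⟨0,[(26,0)]⟩⟩,⟨true,0,⟨0,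
  [(38,0)]⟩,⟨0,[(39,0)]⟩⟩,⟨true,0,⟨0,[(25,0)]⟩,⟨0,[(12,0)]⟩⟩,⟨false,0,⟨0,[]⟩,⟨1,[(19,0),(0,0),(20,
  0)]⟩⟩,⟨true,0,⟨0,[(25,0),(13,0)]⟩,⟨0,[(11,0)]⟩⟩,[.o ⟨false,1,⟨0,[(19,0)]⟩,⟨0,[(2,0)]⟩⟩,.a ⟨true,1,
  ⟨0,[(6,0),(2,0),(5,0),(23,0),(1,0)]⟩,⟨0,[(1,0)]⟩⟩ ⟨true,0,⟨0,[(9,0),(31,0)]⟩,⟨0,[(25,0),(0,0),(12,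
  0)]⟩⟩ ⟨false,1,⟨5,[(16,0),(6,3),(12,0),(3,0),(0,2)]⟩,⟨0,[(1,0),(4,0)]⟩⟩,.o ⟨false,1,⟨0,[(6,0)]⟩,
  ⟨1,[(0,0),(1,0),(24,0)]⟩⟩,.o ⟨false,1,⟨0,[(19,0),(6,0)]⟩,⟨0,[(0,0)]⟩⟩]⟩) (.K ⟨0,[1,0,1,0,-1],0,0,
  (⟨0,[(21,0),(7,0)]⟩,⟨0,[(4,0),(12,0)]⟩),.k,(.r (-1) ⟨23,[(10,13),(2,9),(2,4),(19,0),(3,4),(0,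
  16)]⟩ ⟨0,[(25,0),(0,0),(12,0)]⟩),(.r 0 ⟨1,[(9,1),(16,0),(0,0),(11,3),(1,1)]⟩ ⟨2,[(5,0),(0,0),(0,
  0),(0,1),(11,0),(4,0),(9,0)]⟩),.k,.k,[⟨0,[(2,0)]⟩,⟨0,[(0,0)]⟩,⟨6,[(3,1),(16,2),(4,6),(0,1),(9,0),
  (6,2)]⟩,⟨0,[(0,0),(9,0),(28,0)]⟩]⟩)) (.R ⟨1,false,false,false,[0,0,1],[0,0,0,0,1],[1,0,0,-1,0,0,0,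
  1],(⟨0,[(28,0)]⟩,⟨0,[(27,0)]⟩),(⟨0,[(21,0)]⟩,⟨0,[(20,0)]⟩),⟨0,[(17,0)]⟩,.k,.k,.k,.k,(.r (-1) ⟨23,
  [(9,13),(2,9),(2,4),(19,0),(3,4),(0,16)]⟩ ⟨0,[(24,0),(0,0),(12,0)]⟩),.k,⟨true,0,⟨0,[(8,0),(31,
  0)]⟩,⟨0,[(24,0),(0,0),(12,0)]⟩⟩,⟨false,0,⟨1,[(2,0),(19,0),(17,0)]⟩,⟨0,[(5,0)]⟩⟩,⟨false,1,⟨14,[(4,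
  4),(7,4),(5,2),(0,2),(15,0),(4,9)]⟩,⟨0,[(38,0)]⟩⟩,⟨false,0,⟨0,[(1,0),(12,0)]⟩,⟨0,[(0,0),(10,0)]⟩⟩,
  ⟨true,0,⟨0,[]⟩,⟨0,[(42,0)]⟩⟩,⟨false,0,⟨0,[(1,0),(12,0),(23,0)]⟩,⟨0,[(0,0),(9,0)]⟩⟩,[.o ⟨false,0,
  ⟨6,[(2,1),(16,2),(5,1),(9,0),(6,2)]⟩,⟨0,[(0,0)]⟩⟩,.o ⟨false,0,⟨0,[(1,0)]⟩,⟨0,[(18,0)]⟩⟩,.o ⟨false,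
  1,⟨14,[(5,5),(1,4),(11,5),(5,3),(9,1),(5,0)]⟩,⟨0,[(13,0)]⟩⟩,.a ⟨true,0,⟨0,[(25,0)]⟩,⟨0,[(22,0)]⟩⟩
  ⟨true,0,⟨0,[(9,0)]⟩,⟨0,[(24,0),(0,0),(12,0)]⟩⟩ ⟨false,0,⟨1,[(2,0),(19,0),(17,0)]⟩,⟨0,[(0,0),(24,
  0)]⟩⟩]⟩)) (.R ⟨0,false,false,false,[-1,1,0,0,1],[-1,0,1,0,1],[1,1],(⟨0,[(2,0)]⟩,⟨0,[(19,0),(11,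
  0)]⟩),(⟨0,[(2,0),(13,0)]⟩,⟨0,[(19,0),(6,0)]⟩),⟨0,[(19,0)]⟩,(.r 0 ⟨1,[(24,0),(0,0),(11,1),(3,1)]⟩
  ⟨5,[(3,1),(2,1),(1,1),(29,0),(0,2)]⟩),.k,.k,.k,.k,.k,⟨false,1,⟨0,[(6,0),(6,0)]⟩,⟨13,[(7,3),(2,9),
  (3,4),(19,0),(2,3),(1,1)]⟩⟩,⟨true,0,⟨0,[(24,0)]⟩,⟨0,[(12,0)]⟩⟩,⟨false,1,⟨5,[(3,1),(2,1),(1,1),(29,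
  0),(0,2)]⟩,⟨1,[(24,0),(0,0),(11,1)]⟩⟩,⟨true,0,⟨0,[(9,0)]⟩,⟨0,[(23,0),(13,0)]⟩⟩,⟨false,0,⟨0,[]⟩,⟨0,
  []⟩⟩,⟨false,0,⟨0,[]⟩,⟨0,[]⟩⟩,[.o ⟨false,0,⟨3,[(1,1),(4,0),(0,1),(2,1),(13,2),(9,0),(2,1),(1,0)]⟩,
  ⟨5,[(0,4),(12,5),(3,0),(16,0),(4,2)]⟩⟩,.a ⟨true,0,⟨1,[(1,0),(4,0),(0,1),(16,1),(12,1),(1,1)]⟩,⟨0,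
  [(0,0),(12,0)]⟩⟩ ⟨true,0,⟨0,[]⟩,⟨1,[(24,0),(0,0)]⟩⟩ ⟨false,0,⟨0,[(10,0)]⟩,⟨9,[(13,9),(3,0),(0,0),
  (15,1),(3,4)]⟩⟩,.o ⟨false,1,⟨7,[(1,2),(4,2),(11,1),(15,1),(3,0),(0,2)]⟩,⟨1,[(0,1),(23,0),(0,0)]⟩⟩,
  .o ⟨false,1,⟨24,[(17,2),(0,27),(15,9),(4,1),(1,3)]⟩,⟨0,[(0,0)]⟩⟩]⟩))) (.Q [0,0,0,1,0,0,-1,-1,-1,1,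
  -1,-1] (.p false [0,0,1] [1,0,0,0,-1] (⟨0,[(25,0)]⟩,⟨0,[(24,0)]⟩) .k 2 (⟨0,[(17,0)]⟩,⟨0,[(18,
  0)]⟩) .k (.r 1 ⟨0,[(5,0),(29,0)]⟩ ⟨9,[(2,9),(8,9),(3,0),(0,10),(15,1),(4,4)]⟩)) (.Q [0,-2,0,-2,1,
  0,-1,-1,-1,1,-1,-1] (.p false [0,0,1] [1,0,0,0,-1] (⟨0,[(26,0)]⟩,⟨0,[(25,0)]⟩) .k 2 (⟨0,[(18,0)]⟩,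
  ⟨0,[(19,0)]⟩) .k (.r 1 ⟨0,[(6,0),(29,0)]⟩ ⟨9,[(3,9),(8,9),(3,0),(0,10),(15,1),(4,4)]⟩)) (.R ⟨1,
  false,false,true,[1,0,0,0,-1],[0,-1,1],[],(⟨0,[(19,0)]⟩,⟨0,[(20,0)]⟩),(⟨0,[(16,0)]⟩,⟨0,[(26,0),(2,
  0)]⟩),⟨0,[(2,0)]⟩,.k,.k,(.r (-1) ⟨5,[(3,1),(2,1),(1,1),(29,0),(0,2)]⟩ ⟨1,[(24,0),(0,0),(11,1),(3,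
  1)]⟩),(.r (-1) ⟨9,[(1,9),(15,0),(0,10),(5,9),(9,1),(4,4)]⟩ ⟨35,[(7,1),(0,23),(2,9),(2,4),(18,11),
  (0,0)]⟩),.k,.k,⟨true,1,⟨9,[(1,9),(15,0),(0,10),(5,9),(9,1),(4,4)]⟩,⟨0,[(7,0)]⟩⟩,⟨false,1,⟨14,[(4,
  5),(1,4),(11,20),(5,3),(9,1),(5,0)]⟩,⟨0,[(1,0),(6,0)]⟩⟩,⟨true,0,⟨0,[(41,0)]⟩,⟨0,[]⟩⟩,⟨false,0,⟨13,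
  [(6,3),(0,7),(1,0),(1,4),(6,13),(5,3),(9,1),(6,0)]⟩,⟨0,[(1,0),(37,0)]⟩⟩,⟨false,0,⟨0,[(37,0)]⟩,⟨14,
  [(3,4),(7,4),(5,2),(0,2),(15,0),(4,9)]⟩⟩,⟨false,0,⟨6,[(6,1),(0,3),(10,6),(3,2),(1,1),(9,0),(2,
  3)]⟩,⟨2,[(0,0),(0,1),(37,1)]⟩⟩,[.o ⟨false,0,⟨13,[(6,3),(0,7),(1,0),(1,4),(12,3),(9,1),(6,0)]⟩,⟨9,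
  [(1,9),(15,0),(0,10),(15,1),(4,4)]⟩⟩,.e ⟨false,1,⟨1,[(38,0),(0,0)]⟩,⟨0,[(41,0)]⟩⟩ ⟨false,1,⟨9,[(9,
  7),(1,1),(6,9),(15,1),(3,4),(0,0)]⟩,⟨0,[(1,0)]⟩⟩,.a ⟨true,0,⟨0,[(1,0),(7,0)]⟩,⟨0,[(18,0)]⟩⟩
  ⟨false,1,⟨1,[(17,0),(0,0),(20,0)]⟩,⟨0,[]⟩⟩ ⟨true,0,⟨13,[(6,3),(0,7),(1,0),(1,4),(6,13),(5,3),(9,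
  1),(6,0)]⟩,⟨0,[(1,0)]⟩⟩,.o ⟨false,0,⟨21,[(1,19),(5,19),(9,1),(6,20),(0,0),(8,3),(4,9)]⟩,⟨9,[(17,
  0),(0,10),(15,1),(3,4)]⟩⟩]⟩) (.S ⟨1,0,[0,-1],[1,0,0,0,-1],[],(⟨0,[(19,0)]⟩,⟨0,[(20,0)]⟩),⟨0,[(2,
  0)]⟩,.k,(.r (-1) ⟨5,[(3,1),(2,1),(1,1),(29,0),(0,2)]⟩ ⟨3,[(0,1),(3,1),(8,1),(10,0),(0,2)]⟩),⟨true,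
  0,⟨0,[(41,0)]⟩,⟨0,[]⟩⟩,⟨false,1,⟨1,[(17,0),(0,0),(20,0)]⟩,⟨0,[]⟩⟩,⟨false,0,⟨0,[(37,0)]⟩,⟨14,[(3,
  4),(7,4),(5,2),(0,2),(15,0),(4,9)]⟩⟩,⟨true,0,⟨0,[(37,0)]⟩,⟨0,[(36,0)]⟩⟩,[.o ⟨false,1,⟨10,[(1,4),
  (2,4),(2,4),(9,0),(16,0),(4,7)]⟩,⟨10,[(0,3),(2,2),(14,6),(4,0),(10,1),(1,1)]⟩⟩,.a ⟨true,1,⟨0,[(1,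
  0),(7,0),(29,0)]⟩,⟨0,[(0,0),(2,0)]⟩⟩ ⟨false,1,⟨1,[(38,0),(0,0)]⟩,⟨0,[(41,0)]⟩⟩ ⟨true,1,⟨0,[(39,
  0)]⟩,⟨7,[(0,1),(0,1),(5,5),(15,5),(0,6),(0,0)]⟩⟩,.e ⟨false,1,⟨1,[(17,0),(0,0),(20,0)]⟩,⟨0,[]⟩⟩
  ⟨false,1,⟨0,[(39,0)]⟩,⟨0,[(41,0)]⟩⟩,.o ⟨false,0,⟨21,[(1,19),(5,19),(9,1),(6,20),(0,0),(8,3),(4,
  9)]⟩,⟨9,[(17,0),(0,10),(15,1),(3,4)]⟩⟩]⟩)) (.Q [0,0,0,0,0,0,0,0,-1,1,0,-1] (.p false [0,0,0,0,1]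
  [1] (⟨0,[(19,0)]⟩,⟨0,[(18,0)]⟩) .k 1 (⟨0,[]⟩,⟨0,[]⟩) .k .k) (.Q [0,0,1,0,0,0,0,0,-1,0,0,-1] (.p
  false [0,0,0,0,1] [] (⟨0,[(20,0)]⟩,⟨0,[(19,0)]⟩) .k 0 (⟨0,[]⟩,⟨0,[]⟩) .k .k) (.Q [0,2,0,0,-1,0,0,
  0,1,0,0,1] (.p true [0,0,0,0,1] [] (⟨0,[(21,0)]⟩,⟨0,[(20,0)]⟩) .k 0 (⟨0,[]⟩,⟨0,[]⟩) .k .k) (.S ⟨1,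
  0,[0,-1],[1,0,0,0,-1],[],(⟨0,[(21,0)]⟩,⟨0,[(22,0)]⟩),⟨0,[(4,0)]⟩,.k,(.r (-1) ⟨5,[(5,1),(2,1),(1,
  1),(29,0),(0,2)]⟩ ⟨1,[(26,0),(0,0),(11,1),(3,1)]⟩),⟨true,0,⟨0,[(43,0)]⟩,⟨0,[]⟩⟩,⟨false,1,⟨1,[(19,
  0),(0,0),(20,0)]⟩,⟨0,[]⟩⟩,⟨false,0,⟨0,[(39,0)]⟩,⟨14,[(5,4),(7,4),(5,2),(0,2),(15,0),(4,9)]⟩⟩,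
  ⟨true,0,⟨0,[(39,0)]⟩,⟨0,[(38,0)]⟩⟩,[.o ⟨false,1,⟨5,[(2,4),(16,0),(16,0),(4,2)]⟩,⟨4,[(0,1),(19,2),
  (15,0),(6,0)]⟩⟩,.a ⟨true,1,⟨0,[(2,0),(38,0)]⟩,⟨0,[(0,0)]⟩⟩ ⟨false,1,⟨1,[(40,0),(0,0)]⟩,⟨0,[(43,
  0)]⟩⟩ ⟨true,1,⟨0,[(41,0)]⟩,⟨0,[(0,0),(0,0)]⟩⟩,.e ⟨false,1,⟨1,[(19,0),(0,0),(20,0)]⟩,⟨0,[]⟩⟩
  ⟨false,1,⟨0,[(41,0)]⟩,⟨0,[(43,0)]⟩⟩,.o ⟨false,0,⟨0,[(1,0)]⟩,⟨9,[(19,0),(0,10),(15,1),(3,4)]⟩⟩]⟩)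
  (.R ⟨1,false,false,false,[0,0,1],[1,0,0,0,-1],[1,0,0,-1,0,0,0,1],(⟨0,[(29,0)]⟩,⟨0,[(28,0)]⟩),(⟨0,
  [(21,0)]⟩,⟨0,[(22,0)]⟩),⟨0,[(18,0)]⟩,.k,.k,.k,.k,(.r 0 ⟨35,[(9,1),(0,23),(2,9),(2,4),(18,11),(0,
  0)]⟩ ⟨9,[(15,9),(3,0),(0,0),(5,9),(9,1),(2,9),(1,4)]⟩),.k,⟨true,(-1),⟨0,[(9,0)]⟩,⟨9,[(15,9),(3,0),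
  (0,0),(5,9),(9,1),(2,9),(1,4)]⟩⟩,⟨false,0,⟨0,[(0,0),(8,0),(5,0),(21,0),(1,1)]⟩,⟨14,[(6,5),(1,4),
  (11,20),(5,3),(9,1),(5,0)]⟩⟩,⟨false,1,⟨14,[(5,4),(7,4),(5,2),(0,2),(15,0),(4,9)]⟩,⟨0,[(39,0)]⟩⟩,
  ⟨false,1,⟨0,[(0,0),(14,0)]⟩,⟨8,[(3,3),(5,1),(10,4),(3,2),(1,1),(8,1),(0,0),(2,5)]⟩⟩,⟨true,0,⟨0,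
  []⟩,⟨0,[(43,0)]⟩⟩,⟨false,1,⟨0,[(0,0),(14,0),(23,0)]⟩,⟨0,[(3,0),(39,0)]⟩⟩,[.o ⟨false,1,⟨1,[(0,0),
  (18,0)]⟩,⟨0,[(3,0),(21,0),(13,0)]⟩⟩,.o ⟨false,1,⟨0,[(0,0)]⟩,⟨4,[(9,1),(10,4),(4,1),(0,1),(8,1),(0,
  0),(2,1),(3,1)]⟩⟩,.o ⟨false,1,⟨14,[(6,5),(1,4),(11,5),(5,3),(9,1),(5,0)]⟩,⟨0,[(14,0)]⟩⟩,.a ⟨true,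
  0,⟨0,[(26,0)]⟩,⟨0,[(23,0)]⟩⟩ ⟨true,0,⟨0,[(10,0)]⟩,⟨0,[(25,0),(0,0),(12,0)]⟩⟩ ⟨false,1,⟨0,[(0,0),
  (22,0)]⟩,⟨0,[(3,0),(21,0),(0,0),(12,0)]⟩⟩]⟩)) (.S ⟨1,0,[],[1,0,0,0,-1],[0,-1],(⟨0,[(20,0)]⟩,⟨0,
  [(21,0)]⟩),⟨0,[(3,0)]⟩,.k,(.r (-1) ⟨5,[(4,1),(2,1),(1,1),(29,0),(0,2)]⟩ ⟨1,[(25,0),(0,0),(11,1),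
  (3,1)]⟩),⟨false,1,⟨1,[(18,0),(0,0),(20,0)]⟩,⟨0,[]⟩⟩,⟨true,0,⟨0,[(42,0)]⟩,⟨0,[]⟩⟩,⟨true,0,⟨0,[(38,
  0)]⟩,⟨0,[(37,0)]⟩⟩,⟨false,0,⟨0,[(38,0)]⟩,⟨14,[(4,4),(7,4),(5,2),(0,2),(15,0),(4,9)]⟩⟩,[.e ⟨false,
  1,⟨1,[(39,0),(0,0)]⟩,⟨0,[(42,0)]⟩⟩ ⟨false,1,⟨1,[(18,0),(0,0),(19,0)]⟩,⟨0,[]⟩⟩,.o ⟨false,1,⟨5,[(1,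
  4),(16,0),(16,0),(4,2)]⟩,⟨9,[(0,2),(7,3),(10,6),(4,3),(0,3),(8,0),(0,1),(2,3)]⟩⟩,.e ⟨false,1,⟨0,
  [(40,0)]⟩,⟨0,[(42,0)]⟩⟩ ⟨false,1,⟨1,[(18,0),(0,0),(20,0)]⟩,⟨0,[]⟩⟩,.a ⟨true,0,⟨1,[(1,1),(23,0),(0,
  0)]⟩,⟨0,[(0,0)]⟩⟩ ⟨true,1,⟨1,[(39,0),(0,0)]⟩,⟨0,[(8,0),(15,0),(0,0),(12,0)]⟩⟩ ⟨false,1,⟨1,[(39,0),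
  (0,0)]⟩,⟨1,[(25,0),(0,0)]⟩⟩]⟩)) (.Q [0,0,1,0,0,0,0,0,-1,1,0,-1] (.p false [0,0,0,0,1] [1] (⟨0,
  [(20,0)]⟩,⟨0,[(19,0)]⟩) .k 1 (⟨0,[]⟩,⟨0,[]⟩) .k .k) (.Q [0,-1,0,0,1,0,0,0,-1,0,0,-1] (.p false [0,
  0,0,0,1] [] (⟨0,[(21,0)]⟩,⟨0,[(20,0)]⟩) .k 0 (⟨0,[]⟩,⟨0,[]⟩) .k .k) (.R ⟨1,false,false,false,[0,0,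
  1],[0,0,0,0,1],[1,0,0,-1,0,0,0,1],(⟨0,[(29,0)]⟩,⟨0,[(28,0)]⟩),(⟨0,[(22,0)]⟩,⟨0,[(21,0)]⟩),⟨0,[(18,
  0)]⟩,.k,.k,.k,.k,(.r (-1) ⟨23,[(10,13),(2,9),(2,4),(19,0),(3,4),(0,16)]⟩ ⟨0,[(25,0),(0,0),(12,
  0)]⟩),.k,⟨true,0,⟨0,[(9,0),(31,0)]⟩,⟨0,[(25,0),(0,0),(12,0)]⟩⟩,⟨false,0,⟨0,[(2,0),(20,0)]⟩,⟨0,[(6,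
  0)]⟩⟩,⟨false,1,⟨14,[(5,4),(7,4),(5,2),(0,2),(15,0),(4,9)]⟩,⟨0,[(39,0)]⟩⟩,⟨false,0,⟨0,[(2,0),(12,
  0)]⟩,⟨0,[(0,0),(11,0)]⟩⟩,⟨true,0,⟨0,[]⟩,⟨0,[(43,0)]⟩⟩,⟨false,0,⟨0,[(2,0),(12,0),(23,0)]⟩,⟨0,[(0,
  0),(10,0)]⟩⟩,[.o ⟨false,0,⟨0,[(2,0),(40,0)]⟩,⟨0,[(0,0)]⟩⟩,.o ⟨false,0,⟨0,[(2,0)]⟩,⟨0,[(19,0)]⟩⟩,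
  .o ⟨false,1,⟨14,[(6,5),(1,4),(11,5),(5,3),(9,1),(5,0)]⟩,⟨0,[(14,0)]⟩⟩,.a ⟨true,0,⟨0,[(26,0)]⟩,⟨0,
  [(23,0)]⟩⟩ ⟨true,0,⟨0,[(10,0)]⟩,⟨0,[(25,0),(0,0),(12,0)]⟩⟩ ⟨false,0,⟨0,[(2,0),(20,0)]⟩,⟨0,[(0,0),
  (25,0)]⟩⟩]⟩) (.Q [0,1,0,0,-1,0,1,1,1,-1,1,1] (.p true [0,0,1] [1,0,0,0,-1] (⟨0,[(29,0)]⟩,⟨0,[(28,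
  0)]⟩) .k 2 (⟨0,[(21,0)]⟩,⟨0,[(22,0)]⟩) .k (.r 1 ⟨0,[(9,0),(29,0)]⟩ ⟨9,[(6,9),(8,9),(3,0),(0,10),
  (15,1),(4,4)]⟩)) (.S ⟨1,0,[0,-1],[1,0,0,0,-1],[1,0,0,-1],(⟨0,[(22,0)]⟩,⟨0,[(23,0)]⟩),⟨0,[(5,0)]⟩,
  .k,(.r (-1) ⟨5,[(6,1),(2,1),(1,1),(29,0),(0,2)]⟩ ⟨1,[(27,0),(0,0),(11,1),(3,1)]⟩),⟨true,0,⟨0,[(39,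
  0)]⟩,⟨0,[(40,0)]⟩⟩,⟨false,1,⟨1,[(20,0),(0,0),(20,0)]⟩,⟨0,[]⟩⟩,⟨false,0,⟨0,[]⟩,⟨1,[(20,0),(0,0),
  (20,0)]⟩⟩,⟨true,0,⟨0,[(40,0)]⟩,⟨0,[(39,0)]⟩⟩,[.e ⟨false,1,⟨29,[(6,9),(7,9),(5,5),(0,5),(15,1),(3,
  14),(0,4)]⟩,⟨0,[(40,0)]⟩⟩ ⟨false,1,⟨1,[(41,0),(0,0)]⟩,⟨0,[(44,0)]⟩⟩,.o ⟨false,2,⟨0,[(20,0),(21,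
  0)]⟩,⟨0,[(0,0),(25,0)]⟩⟩,.o ⟨false,1,⟨0,[(20,0)]⟩,⟨0,[(3,0)]⟩⟩,.a ⟨true,0,⟨0,[(2,0)]⟩,⟨1,[(1,1),
  (39,0),(0,0)]⟩⟩ ⟨false,1,⟨5,[(6,1),(2,1),(1,1),(29,0),(0,2)]⟩,⟨1,[(27,0),(0,0),(11,1)]⟩⟩ ⟨true,1,
  ⟨1,[(41,0),(0,0)]⟩,⟨0,[(0,0),(1,0),(23,0)]⟩⟩]⟩) (.R ⟨1,false,false,false,[1,0,0,0,-1],[0,-1,1],[],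
  (⟨0,[(22,0)]⟩,⟨0,[(23,0)]⟩),(⟨0,[(19,0)]⟩,⟨0,[(29,0),(2,0)]⟩),⟨0,[(5,0)]⟩,.k,.k,(.r (-1) ⟨5,[(6,
  1),(2,1),(1,1),(29,0),(0,2)]⟩ ⟨1,[(27,0),(0,0),(11,1),(3,1)]⟩),(.r (-1) ⟨4,[(0,0),(15,3),(4,0),(5,
  4),(9,0),(2,4),(1,1)]⟩ ⟨35,[(10,1),(0,23),(2,9),(2,4),(18,11),(0,0)]⟩),.k,.k,⟨false,1,⟨1,[(0,0),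
  (8,0),(11,0),(4,0),(0,0),(12,1)]⟩,⟨0,[(11,0)]⟩⟩,⟨true,0,⟨0,[(3,0),(23,0)]⟩,⟨0,[(0,0),(9,0),(29,
  0)]⟩⟩,⟨true,0,⟨0,[(44,0)]⟩,⟨0,[]⟩⟩,⟨false,0,⟨0,[(4,0)]⟩,⟨0,[(0,0),(39,0)]⟩⟩,⟨false,0,⟨0,[(40,0)]⟩,
  ⟨10,[(0,1),(5,2),(7,4),(6,1),(15,0),(4,6)]⟩⟩,⟨false,0,⟨0,[(4,0),(35,0)]⟩,⟨0,[(0,0)]⟩⟩,[.e ⟨false,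
  1,⟨1,[(20,0),(0,0),(19,0)]⟩,⟨0,[]⟩⟩ ⟨false,0,⟨0,[(1,0),(7,0),(0,0),(31,0)]⟩,⟨0,[(0,0),(39,0),(3,
  0)]⟩⟩,.o ⟨false,1,⟨4,[(12,3),(1,0),(22,0),(4,2)]⟩,⟨0,[(26,0),(13,0)]⟩⟩,.o ⟨false,1,⟨0,[(20,0)]⟩,
  ⟨0,[(3,0)]⟩⟩,.a ⟨true,0,⟨0,[(2,0)]⟩,⟨1,[(1,1),(39,0),(0,0)]⟩⟩ ⟨false,1,⟨1,[(41,0),(0,0)]⟩,⟨1,[(27,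
  0),(0,0)]⟩⟩ ⟨true,0,⟨0,[(1,0),(7,0),(0,0),(31,0)]⟩,⟨0,[(2,0),(23,0),(13,0)]⟩⟩]⟩))) (.S ⟨1,0,[],[1,
  0,0,0,-1],[0,-1],(⟨0,[(20,0)]⟩,⟨0,[(21,0)]⟩),⟨0,[(3,0)]⟩,.k,(.r (-1) ⟨5,[(4,1),(2,1),(1,1),(29,0),
  (0,2)]⟩ ⟨1,[(25,0),(0,0),(11,1),(3,1)]⟩),⟨false,1,⟨1,[(18,0),(0,0),(20,0)]⟩,⟨0,[]⟩⟩,⟨true,0,⟨0,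
  [(42,0)]⟩,⟨0,[]⟩⟩,⟨true,0,⟨0,[(38,0)]⟩,⟨0,[(37,0)]⟩⟩,⟨false,0,⟨0,[(38,0)]⟩,⟨14,[(4,4),(7,4),(5,2),
  (0,2),(15,0),(4,9)]⟩⟩,[.o ⟨false,1,⟨0,[(18,0)]⟩,⟨0,[(1,0)]⟩⟩,.a ⟨true,1,⟨0,[(5,0),(2,0),(5,0),(23,
  0),(1,0)]⟩,⟨0,[(0,0),(7,0),(5,0),(10,0),(12,0)]⟩⟩ ⟨true,1,⟨0,[(40,0)]⟩,⟨0,[(8,0),(15,0),(0,0),(12,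
  0)]⟩⟩ ⟨false,1,⟨1,[(39,0),(0,0)]⟩,⟨0,[(42,0)]⟩⟩,.o ⟨false,1,⟨0,[(18,0)]⟩,⟨0,[(1,0)]⟩⟩,.o ⟨false,1,
  ⟨1,[(18,1),(6,0),(0,0)]⟩,⟨0,[(0,0)]⟩⟩]⟩)))))))) (.Q [0,0,0,1,0,0,1,1,0,-1,1] (.p true [0,0,1] [1]
  (⟨0,[(21,0)]⟩,⟨0,[(20,0)]⟩) .k 1 (⟨0,[]⟩,⟨0,[]⟩) .k .k) (.R ⟨2,true,false,false,[0,1],[1,0,-1],[0,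
  1,1,1],(⟨0,[]⟩,⟨0,[]⟩),(⟨0,[(21,0)]⟩,⟨0,[(22,0)]⟩),⟨0,[]⟩,.k,.k,.k,.k,.k,.k,⟨false,(-1),⟨0,[(2,0),
  (29,1)]⟩,⟨4,[(8,4),(10,4),(9,0),(0,3),(0,0),(1,2),(0,4)]⟩⟩,⟨true,(-1),⟨0,[(1,0)]⟩,⟨9,[(12,0),(0,
  0),(5,9),(9,1),(3,4)]⟩⟩,⟨true,0,⟨0,[(36,0)]⟩,⟨0,[]⟩⟩,⟨false,1,⟨0,[(8,0),(22,0),(2,0)]⟩,⟨0,[(0,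
  0)]⟩⟩,⟨false,0,⟨0,[(32,0)]⟩,⟨0,[(31,0),(2,0)]⟩⟩,⟨true,0,⟨0,[(8,0)]⟩,⟨8,[(0,3),(1,1),(3,1),(10,0),
  (1,1),(8,1),(0,0)]⟩⟩,[]⟩) (.I [0,0,-1,0,1,0,0,-1] (.S ⟨1,0,[0,1,0,0,0,0,0,-1],[1,0,-1],[0,0,0,0,0,
  0,0,-1],(⟨0,[(22,0)]⟩,⟨0,[(23,0)]⟩),⟨0,[(11,0)]⟩,.k,.k,⟨false,1,⟨1,[(13,0),(0,0),(20,0)]⟩,⟨0,[]⟩⟩,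
  ⟨true,0,⟨0,[(37,0)]⟩,⟨0,[]⟩⟩,⟨true,0,⟨0,[(33,0)]⟩,⟨0,[(32,0)]⟩⟩,⟨false,0,⟨0,[(33,0)]⟩,⟨0,[(32,0),
  (2,0)]⟩⟩,[.o ⟨false,0,⟨0,[(19,0)]⟩,⟨4,[(6,3),(11,0),(11,0),(4,2)]⟩⟩,.e ⟨false,2,⟨1,[(0,1),(12,0),
  (0,0),(20,0)]⟩,⟨0,[(3,0),(29,0)]⟩⟩ ⟨false,1,⟨0,[(0,0)]⟩,⟨9,[(2,1),(1,1),(1,7),(3,2),(19,0),(2,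
  1)]⟩⟩,.o ⟨false,0,⟨0,[(8,0)]⟩,⟨9,[(0,4),(5,2),(11,1),(1,4),(9,1),(4,0)]⟩⟩,.a ⟨true,(-1),⟨0,[(2,
  0)]⟩,⟨0,[(0,0),(5,0)]⟩⟩ ⟨true,1,⟨0,[(0,0)]⟩,⟨6,[(2,4),(0,3),(14,2),(1,1),(9,0),(2,3)]⟩⟩ ⟨false,1,
  ⟨0,[(0,0)]⟩,⟨5,[(2,4),(3,5),(14,0),(8,0),(4,2)]⟩⟩]⟩) (.Q [0,0,0,2,0,0,1,1,0,-1,1] (.p true [0,0,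
  1] [1] (⟨0,[(23,0)]⟩,⟨0,[(22,0)]⟩) .k 1 (⟨0,[]⟩,⟨0,[]⟩) .k .k) (.R ⟨1,false,false,false,[1,-1],[0,
  0,1],[1,1,1],(⟨0,[(28,0)]⟩,⟨0,[(29,0)]⟩),(⟨0,[(24,0)]⟩,⟨0,[(23,0)]⟩),⟨0,[(12,0),(0,0)]⟩,.k,.k,(.r
  (-1) ⟨0,[(32,1),(3,0)]⟩ ⟨0,[(21,0),(0,0),(11,1)]⟩),.k,(.r (-2) ⟨3,[(2,4),(3,0),(14,3),(9,0),(0,1),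
  (2,4),(0,0)]⟩ ⟨1,[(0,1),(2,1),(17,0),(0,0)]⟩),.k,⟨true,0,⟨0,[(20,0),(0,0)]⟩,⟨5,[(0,0),(0,2),(3,1),
  (12,0),(17,2)]⟩⟩,⟨false,2,⟨9,[(14,0),(0,0),(5,9),(9,1),(3,14)]⟩,⟨0,[(3,0)]⟩⟩,⟨true,(-1),⟨1,[(0,0),
  (0,0),(1,0),(16,1),(0,1)]⟩,⟨1,[(32,1),(2,0),(0,0)]⟩⟩,⟨false,1,⟨19,[(0,9),(13,0),(0,0),(3,9),(11,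
  1),(4,14)]⟩,⟨0,[(2,0)]⟩⟩,⟨true,(-1),⟨0,[(0,0),(2,0),(16,0),(0,0)]⟩,⟨0,[(32,1),(3,0)]⟩⟩,⟨true,0,⟨0,
  [(0,0)]⟩,⟨0,[(2,0),(30,0)]⟩⟩,[.e ⟨false,0,⟨0,[(38,0)]⟩,⟨1,[(35,0),(0,0)]⟩⟩ ⟨false,1,⟨0,[(0,0),(31,
  1),(3,0)]⟩,⟨1,[(10,1),(10,0),(0,0)]⟩⟩,.o ⟨false,1,⟨14,[(0,4),(5,2),(1,6),(22,1),(4,10)]⟩,⟨0,[(20,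
  0)]⟩⟩,.o ⟨false,0,⟨1,[(21,0),(0,0)]⟩,⟨9,[(14,0),(0,0),(15,1),(3,4)]⟩⟩,.a ⟨true,(-1),⟨0,[(3,0),(17,
  0)]⟩,⟨0,[(35,0)]⟩⟩ ⟨false,0,⟨0,[]⟩,⟨1,[(14,0),(0,0),(20,0)]⟩⟩ ⟨true,1,⟨0,[(0,0),(31,1),(3,0)]⟩,⟨0,
  [(3,0),(16,0),(0,0)]⟩⟩]⟩) (.Q [0,0,-1,0,0,0,0,0,1,-1,0,1] (.p true [0,0,0,0,1] [1] (⟨0,[(17,0)]⟩,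
  ⟨0,[(16,0)]⟩) .k 1 (⟨0,[]⟩,⟨0,[]⟩) .k .k) (.Q [0,0,0,0,0,-1,0,0,0,1,0,-1] (.ed true [0,1,0,0,1]
  .k) (.R ⟨1,false,false,true,[1,0,0,0,-1],[1,-1],[0,-1],(⟨0,[(18,0)]⟩,⟨0,[(19,0)]⟩),(⟨0,[(30,0)]⟩,
  ⟨0,[(31,0)]⟩),⟨0,[(0,0)]⟩,.k,.k,(.r (-1) ⟨0,[(34,0),(3,0)]⟩ ⟨1,[(23,0),(0,0),(11,1),(3,1)]⟩),(.r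
  (-1) ⟨1,[(16,0),(0,0),(5,0),(0,0),(11,1),(1,0)]⟩ ⟨0,[(34,0)]⟩),.k,.k,⟨false,1,⟨0,[(36,0),(1,0)]⟩,
  ⟨1,[(32,0),(1,0),(0,0)]⟩⟩,⟨true,(-1),⟨0,[(1,0),(3,0),(17,0)]⟩,⟨0,[(16,0)]⟩⟩,⟨false,1,⟨1,[(16,0),
  (0,0),(20,0)]⟩,⟨0,[]⟩⟩,⟨false,(-1),⟨0,[(1,0),(3,0),(17,0),(10,0)]⟩,⟨0,[(16,0),(19,0),(1,0)]⟩⟩,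
  ⟨true,0,⟨0,[(36,0)]⟩,⟨0,[(35,0)]⟩⟩,⟨false,(-1),⟨0,[(1,0),(3,0),(17,0),(10,0),(1,0)]⟩,⟨0,[(16,0),
  (21,0)]⟩⟩,[.o ⟨false,0,⟨0,[(35,0)]⟩,⟨9,[(16,0),(0,0),(15,1),(2,9),(1,4)]⟩⟩,.a ⟨true,0,⟨2,[(2,0),
  (5,0),(11,1),(2,1)]⟩,⟨0,[(36,0)]⟩⟩ ⟨true,1,⟨0,[(38,0)]⟩,⟨0,[(6,0),(15,0),(0,0),(12,0)]⟩⟩ ⟨false,0,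
  ⟨2,[(1,2),(0,0),(5,0),(11,1),(2,1)]⟩,⟨0,[(16,0),(19,0)]⟩⟩,.o ⟨false,1,⟨0,[(16,0)]⟩,⟨14,[(1,8),(3,
  3),(11,5),(5,3),(9,1),(5,0)]⟩⟩,.o ⟨false,1,⟨1,[(16,1),(6,0),(0,0)]⟩,⟨0,[(1,0)]⟩⟩]⟩) (.R ⟨0,false,
  false,false,[1,0,0,0,-1],[0,0,1],[1,0,1,0,0,0,0,1],(⟨0,[(18,0)]⟩,⟨0,[(19,0)]⟩),(⟨0,[(26,0)]⟩,⟨0,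
  [(25,0)]⟩),⟨0,[(0,0)]⟩,.k,.k,(.r (-1) ⟨0,[(34,0),(3,0)]⟩ ⟨1,[(23,0),(0,0),(11,1),(3,1)]⟩),.k,.k,
  .k,⟨false,0,⟨0,[]⟩,⟨1,[(16,0),(0,0),(19,0)]⟩⟩,⟨true,0,⟨0,[(1,0),(21,0)]⟩,⟨0,[(5,0),(10,0)]⟩⟩,
  ⟨false,(-1),⟨0,[(3,0)]⟩,⟨9,[(12,9),(3,0),(0,0),(5,9),(9,1),(3,9),(0,4)]⟩⟩,⟨true,(-1),⟨0,[(1,0),(4,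
  0),(16,0),(12,0)]⟩,⟨0,[(12,0),(3,0)]⟩⟩,⟨false,0,⟨0,[]⟩,⟨0,[]⟩⟩,⟨false,0,⟨0,[]⟩,⟨0,[]⟩⟩,[.a ⟨true,
  0,⟨0,[(9,0)]⟩,⟨0,[(12,0)]⟩⟩ ⟨true,(-1),⟨0,[(3,0)]⟩,⟨9,[(12,9),(3,0),(0,0),(5,9),(9,1),(3,4)]⟩⟩
  ⟨false,0,⟨0,[(1,0),(7,0)]⟩,⟨0,[(12,0),(3,0)]⟩⟩,.o ⟨false,1,⟨4,[(9,3),(11,0),(11,0),(4,2)]⟩,⟨0,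
  [(22,0)]⟩⟩,.o ⟨false,1,⟨0,[(16,0)]⟩,⟨14,[(1,8),(3,3),(11,5),(5,3),(9,1),(5,0)]⟩⟩,.o ⟨false,1,⟨1,
  [(16,1),(6,0),(0,0)]⟩,⟨0,[(1,0)]⟩⟩]⟩)) (.Q [0,0,1,0,0,0,0,0,1,-1,0,1] (.p true [0,0,0,0,1] [1]
  (⟨0,[(18,0)]⟩,⟨0,[(17,0)]⟩) .k 1 (⟨0,[]⟩,⟨0,[]⟩) .k .k) (.Q [0,-2,2,1,0,0,0,0,-1,1,0,-1] (.p
  false [0,0,0,0,1] [1] (⟨0,[(19,0)]⟩,⟨0,[(18,0)]⟩) .k 1 (⟨0,[]⟩,⟨0,[]⟩) .k .k) (.Q [0,0,0,0,0,-1,0,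
  0,0,0,0,1] (.ed false [1,-1,0,0,1] .k) (.S ⟨1,0,[0,2],[0,0,0,0,1],[1,1,0,-1],(⟨0,[(21,0)]⟩,⟨0,
  [(20,0)]⟩),⟨0,[(0,0)]⟩,.k,(.r 0 ⟨0,[(36,0)]⟩ ⟨5,[(1,1),(0,1),(15,4),(0,4),(18,3),(1,0)]⟩),⟨false,
  1,⟨32,[(2,5),(1,10),(7,10),(5,5),(16,0),(3,2),(0,21)]⟩,⟨0,[(38,0)]⟩⟩,⟨true,0,⟨0,[(42,0)]⟩,⟨0,[]⟩⟩,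
  ⟨true,0,⟨0,[]⟩,⟨0,[(42,0)]⟩⟩,⟨false,0,⟨0,[(38,0)]⟩,⟨32,[(2,5),(1,10),(7,10),(5,5),(16,0),(3,2),(0,
  21)]⟩⟩,[.e ⟨false,0,⟨0,[(36,0)]⟩,⟨1,[(18,0),(0,0),(18,1),(1,0)]⟩⟩ ⟨false,0,⟨0,[(34,0)]⟩,⟨0,[(40,
  0)]⟩⟩,.o ⟨false,0,⟨0,[(2,0),(33,0),(1,0)]⟩,⟨11,[(1,9),(16,1),(16,1),(0,9),(2,4),(0,0)]⟩⟩,.a ⟨true,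
  0,⟨0,[(19,0)]⟩,⟨0,[(1,0),(34,1),(1,0)]⟩⟩ ⟨true,0,⟨0,[(37,0)]⟩,⟨0,[(38,0)]⟩⟩ ⟨false,0,⟨0,[(42,0)]⟩,
  ⟨0,[(40,0)]⟩⟩,.o ⟨false,0,⟨0,[(2,0)]⟩,⟨5,[(1,4),(16,0),(16,0),(0,9),(1,4),(0,2)]⟩⟩]⟩) (.Q [0,0,0,
  0,0,0,1,1,1,-1,1,1] (.p true [0,0,1,0,1] [1] (⟨0,[(21,0),(6,0)]⟩,⟨0,[(0,0),(15,0)]⟩) .k 1 (⟨0,[]⟩,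
  ⟨0,[]⟩) .k (.r 1 ⟨0,[(8,0),(29,0)]⟩ ⟨21,[(2,11),(11,21),(3,11),(6,21),(9,1),(3,16),(0,10)]⟩)) (.R
  ⟨0,false,false,false,[0,0,0,0,1],[0,0,1,0,1],[0,1],(⟨0,[(22,0)]⟩,⟨0,[(21,0)]⟩),(⟨0,[(22,0),(6,
  0)]⟩,⟨0,[(1,0),(15,0)]⟩),⟨0,[(1,0)]⟩,.k,.k,(.r 0 ⟨0,[(37,0)]⟩ ⟨5,[(2,1),(0,1),(15,4),(0,4),(18,3),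
  (1,0)]⟩),.k,.k,.k,⟨true,1,⟨10,[(3,0),(11,10),(3,0),(6,10),(9,1),(3,5)]⟩,⟨0,[(6,0)]⟩⟩,⟨false,1,⟨0,
  [(26,0),(13,0)]⟩,⟨0,[(14,0)]⟩⟩,⟨false,1,⟨1,[(19,0),(0,0),(20,0)]⟩,⟨0,[]⟩⟩,⟨true,0,⟨0,[(12,0)]⟩,⟨0,
  [(25,0)]⟩⟩,⟨false,0,⟨0,[]⟩,⟨0,[]⟩⟩,⟨false,0,⟨0,[]⟩,⟨0,[]⟩⟩,[.e ⟨false,0,⟨0,[(37,0),(1,0)]⟩,⟨1,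
  [(19,0),(0,0),(20,0)]⟩⟩ ⟨false,0,⟨0,[(12,0),(24,0),(1,0)]⟩,⟨21,[(3,1),(11,21),(3,1),(16,3),(3,0),
  (0,10)]⟩⟩,.o ⟨false,0,⟨0,[(0,0)]⟩,⟨16,[(2,13),(2,0),(13,2),(5,15),(10,2),(0,11),(2,7)]⟩⟩,.a ⟨true,
  0,⟨0,[(20,0)]⟩,⟨0,[(2,0),(34,1),(1,0)]⟩⟩ ⟨true,0,⟨0,[(43,0)]⟩,⟨0,[]⟩⟩ ⟨false,0,⟨0,[(12,0)]⟩,⟨21,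
  [(3,1),(11,21),(3,1),(16,3),(3,0),(0,10)]⟩⟩,.o ⟨false,0,⟨0,[(3,0)]⟩,⟨5,[(2,4),(16,0),(16,0),(0,9),
  (1,4),(0,2)]⟩⟩]⟩) (.R ⟨0,false,false,true,[0,0,0,0,1],[1,0,-1],[],(⟨0,[(22,0)]⟩,⟨0,[(21,0)]⟩),(⟨0,
  [(28,0)]⟩,⟨0,[(29,0)]⟩),⟨0,[(1,0)]⟩,.k,.k,(.r 0 ⟨0,[(37,0)]⟩ ⟨5,[(2,1),(0,1),(15,4),(0,4),(18,3),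
  (1,0)]⟩),.k,.k,.k,⟨true,0,⟨1,[(6,1),(33,0),(0,0)]⟩,⟨0,[(25,0),(0,0)]⟩⟩,⟨false,0,⟨0,[(0,0),(5,0),
  (33,0)]⟩,⟨0,[(3,0),(22,0),(13,0)]⟩⟩,⟨false,1,⟨0,[(41,0)]⟩,⟨0,[(43,0)]⟩⟩,⟨true,0,⟨0,[(0,0)]⟩,⟨4,
  [(9,1),(2,2),(7,4),(5,1),(8,0),(0,0),(0,0),(1,2)]⟩⟩,⟨false,0,⟨0,[]⟩,⟨0,[]⟩⟩,⟨false,0,⟨0,[]⟩,⟨0,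
  []⟩⟩,[.o ⟨false,0,⟨0,[(25,0)]⟩,⟨4,[(12,3),(11,0),(11,0),(4,2)]⟩⟩,.a ⟨true,0,⟨0,[(15,0)]⟩,⟨0,[(12,
  0)]⟩⟩ ⟨false,1,⟨1,[(40,0),(0,0)]⟩,⟨0,[(43,0)]⟩⟩ ⟨true,0,⟨0,[(0,0)]⟩,⟨0,[(3,0),(8,0)]⟩⟩,.e ⟨false,
  1,⟨1,[(19,0),(0,0),(20,0)]⟩,⟨0,[]⟩⟩ ⟨false,0,⟨0,[(0,0)]⟩,⟨4,[(12,3),(7,4),(3,0),(11,0),(4,2)]⟩⟩,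
  .o ⟨false,0,⟨0,[(3,0)]⟩,⟨5,[(0,4),(11,4),(6,0),(16,0),(3,2)]⟩⟩]⟩))) (.Q [0,0,0,0,0,0,0,0,1,-1,0,
  1] (.p true [0,0,0,0,1] [1] (⟨0,[(20,0)]⟩,⟨0,[(19,0)]⟩) .k 1 (⟨0,[]⟩,⟨0,[]⟩) .k .k) (.Q [0,1,0,0,
  -1,0,0,0,1,0,0,1] (.p true [0,0,0,0,1] [] (⟨0,[(21,0)]⟩,⟨0,[(20,0)]⟩) .k 0 (⟨0,[]⟩,⟨0,[]⟩) .k .k)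
  (.Q [0,0,0,0,0,-1,0,0,0,1,0,-1] (.ed true [0,1,0,0,1] .k) (.Q [0,2,0,0,-1,0,0,0,1,-1,0,1] (.p
  true [0,0,0,0,1] [1] (⟨0,[(23,0)]⟩,⟨0,[(22,0)]⟩) .k 1 (⟨0,[]⟩,⟨0,[]⟩) .k .k) (.S ⟨1,0,[0,-1],[1,0,
  0,0,-1],[],(⟨0,[(23,0)]⟩,⟨0,[(24,0)]⟩),⟨0,[(1,0)]⟩,.k,(.r (-1) ⟨0,[(39,0),(3,0)]⟩ ⟨1,[(5,0),(0,0),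
  (34,1),(3,1)]⟩),⟨true,0,⟨0,[(45,0)]⟩,⟨0,[]⟩⟩,⟨false,1,⟨1,[(21,0),(0,0),(20,0)]⟩,⟨0,[]⟩⟩,⟨false,0,
  ⟨0,[(41,0)]⟩,⟨32,[(5,5),(1,10),(7,10),(5,5),(16,0),(3,2),(0,21)]⟩⟩,⟨true,0,⟨0,[(41,0)]⟩,⟨0,[(40,
  0)]⟩⟩,[.e ⟨false,1,⟨1,[(21,0),(0,0),(19,0)]⟩,⟨0,[]⟩⟩ ⟨false,1,⟨1,[(42,0),(0,0)]⟩,⟨0,[(45,0)]⟩⟩,.o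
  ⟨false,2,⟨0,[(21,0),(21,0)]⟩,⟨0,[(0,0)]⟩⟩,.o ⟨false,1,⟨0,[(21,0)]⟩,⟨0,[(3,0)]⟩⟩,.a ⟨true,0,⟨0,[(6,
  0)]⟩,⟨1,[(2,1),(39,0),(0,0)]⟩⟩ ⟨false,1,⟨1,[(42,0),(0,0)]⟩,⟨1,[(5,0),(0,0)]⟩⟩ ⟨true,1,⟨1,[(42,0),
  (0,0)]⟩,⟨0,[(0,0),(5,0)]⟩⟩]⟩) (.R ⟨1,false,false,false,[1,0,0,0,-1],[0,-1,1],[],(⟨0,[(23,0)]⟩,⟨0,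
  [(24,0)]⟩),(⟨0,[(20,0)]⟩,⟨0,[(30,0),(2,0)]⟩),⟨0,[(1,0)]⟩,.k,.k,(.r (-1) ⟨0,[(39,0),(3,0)]⟩ ⟨1,[(5,
  0),(0,0),(34,1),(3,1)]⟩),(.r (-1) ⟨21,[(5,1),(11,21),(3,1),(6,21),(9,3),(2,21),(0,0),(0,10)]⟩ ⟨35,
  [(11,1),(0,23),(2,9),(2,4),(18,11),(0,0)]⟩),.k,.k,⟨false,1,⟨10,[(5,0),(11,10),(3,0),(6,10),(9,1),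
  (2,10),(0,5)]⟩,⟨0,[(12,0)]⟩⟩,⟨true,0,⟨0,[(3,0),(24,0)]⟩,⟨0,[(0,0),(10,0),(15,0),(13,0)]⟩⟩,⟨true,0,
  ⟨0,[(45,0)]⟩,⟨0,[]⟩⟩,⟨false,0,⟨0,[(3,0),(9,0)]⟩,⟨0,[(0,0),(26,0),(13,0)]⟩⟩,⟨false,0,⟨0,[(41,0)]⟩,
  ⟨32,[(5,5),(1,10),(7,10),(5,5),(16,0),(3,2),(0,21)]⟩⟩,⟨false,0,⟨0,[(3,0),(10,0)]⟩,⟨0,[(0,0),(26,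
  0)]⟩⟩,[.e ⟨false,1,⟨1,[(21,0),(0,0),(19,0)]⟩,⟨0,[]⟩⟩ ⟨false,0,⟨0,[(0,3),(1,4),(8,0),(16,0),(9,0),
  (0,1),(1,1)]⟩,⟨0,[(17,0),(3,0),(19,0)]⟩⟩,.o ⟨false,1,⟨4,[(13,3),(1,0),(22,0),(4,2)]⟩,⟨0,[(27,0),
  (13,0)]⟩⟩,.o ⟨false,1,⟨0,[(21,0)]⟩,⟨0,[(3,0)]⟩⟩,.a ⟨true,0,⟨0,[(6,0)]⟩,⟨1,[(2,1),(39,0),(0,0)]⟩⟩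
  ⟨false,1,⟨1,[(42,0),(0,0)]⟩,⟨1,[(5,0),(0,0)]⟩⟩ ⟨true,0,⟨0,[(0,3),(1,4),(8,0),(16,0),(9,0),(0,1),
  (1,1)]⟩,⟨0,[(6,0),(20,0),(13,0)]⟩⟩]⟩)) (.Q [0,0,1,0,-1,0,0,0,1,0,0,1] (.p true [0,0,0,0,1] [] (⟨0,
  [(23,0)]⟩,⟨0,[(22,0)]⟩) .k 0 (⟨0,[]⟩,⟨0,[]⟩) .k .k) (.S ⟨1,0,[0,1],[0,0,0,0,1],[0,2],(⟨0,[(24,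
  0)]⟩,⟨0,[(23,0)]⟩),⟨0,[(1,0),(17,0),(0,0)]⟩,.k,(.r 0 ⟨0,[(39,0)]⟩ ⟨5,[(5,1),(12,1),(2,2),(0,0),(5,
  3),(12,5),(1,2)]⟩),⟨true,0,⟨0,[(45,0)]⟩,⟨0,[]⟩⟩,⟨false,1,⟨1,[(21,0),(0,0),(20,0)]⟩,⟨0,[]⟩⟩,⟨false,
  0,⟨0,[(41,0)]⟩,⟨32,[(5,5),(1,10),(7,10),(5,5),(16,0),(3,2),(0,21)]⟩⟩,⟨true,0,⟨0,[(41,0)]⟩,⟨0,[(40,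
  0)]⟩⟩,[.e ⟨false,0,⟨0,[(37,0)]⟩,⟨0,[(43,0)]⟩⟩ ⟨false,0,⟨0,[(39,0),(1,0)]⟩,⟨1,[(21,0),(0,0),(20,
  0)]⟩⟩,.o ⟨false,0,⟨0,[(3,0)]⟩,⟨0,[(21,0)]⟩⟩,.o ⟨false,0,⟨0,[(3,0)]⟩,⟨0,[(21,0)]⟩⟩,.a ⟨true,(-1),
  ⟨0,[(0,0)]⟩,⟨0,[(6,0),(35,0)]⟩⟩ ⟨false,0,⟨0,[(39,0),(1,0)]⟩,⟨1,[(5,0),(0,0),(36,1)]⟩⟩ ⟨true,0,⟨0,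
  [(39,0),(1,0)]⟩,⟨1,[(5,0),(0,0)]⟩⟩]⟩) (.Q [0,0,-1,0,0,0,-1,0,1,-1,-1,1] (.p true [0,0,-1,0,1] [1]
  (⟨0,[(1,0),(17,0)]⟩,⟨0,[(23,0),(7,0)]⟩) .k 1 (⟨0,[]⟩,⟨0,[]⟩) .k (.r (-1) ⟨1,[(21,0),(0,0),(4,1),
  (0,1),(13,0)]⟩ ⟨1,[(8,1),(33,0),(0,0)]⟩)) (.R ⟨1,false,false,true,[1,0,1,0,-1],[1,0,0,0,-1],[1,0,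
  0,-1,0,0,0,1],(⟨0,[(24,0),(7,0)]⟩,⟨0,[(2,0),(17,0)]⟩),(⟨0,[(24,0)]⟩,⟨0,[(25,0)]⟩),⟨0,[(21,0),(2,
  0)]⟩,.k,.k,(.r (-1) ⟨23,[(13,13),(2,9),(2,4),(19,0),(3,4),(0,16)]⟩ ⟨0,[(28,0),(0,0),(12,0)]⟩),.k,
  .k,.k,⟨false,0,⟨0,[(13,0)]⟩,⟨10,[(6,0),(11,10),(3,0),(6,10),(9,1),(2,10),(0,5)]⟩⟩,⟨true,0,⟨0,[(17,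
  0)]⟩,⟨0,[(29,0)]⟩⟩,⟨true,0,⟨0,[(41,0)]⟩,⟨0,[(42,0)]⟩⟩,⟨true,0,⟨0,[(28,0)]⟩,⟨0,[(15,0)]⟩⟩,⟨false,0,
  ⟨0,[]⟩,⟨1,[(22,0),(0,0),(20,0)]⟩⟩,⟨true,0,⟨0,[(28,0),(13,0)]⟩,⟨0,[(14,0)]⟩⟩,[.o ⟨false,1,⟨0,[(22,
  0)]⟩,⟨0,[(4,0)]⟩⟩,.a ⟨true,1,⟨1,[(7,1),(35,0),(0,0)]⟩,⟨0,[(3,0)]⟩⟩ ⟨true,0,⟨0,[(12,0),(31,0)]⟩,⟨0,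
  [(28,0),(0,0),(12,0)]⟩⟩ ⟨false,1,⟨5,[(19,0),(6,3),(12,0),(3,0),(0,2)]⟩,⟨0,[(1,0),(1,0),(25,0)]⟩⟩,
  .o ⟨false,1,⟨0,[(1,0),(27,0)]⟩,⟨36,[(0,20),(5,15),(4,3),(7,5),(19,1),(5,0)]⟩⟩,.o ⟨false,1,⟨0,[(22,
  0),(6,0)]⟩,⟨0,[(0,0)]⟩⟩]⟩) (.K ⟨0,[1,0,1,0,-1],0,0,(⟨0,[(24,0),(7,0)]⟩,⟨0,[(2,0),(17,0)]⟩),.k,(.r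
  (-1) ⟨23,[(13,13),(2,9),(2,4),(19,0),(3,4),(0,16)]⟩ ⟨0,[(28,0),(0,0),(12,0)]⟩),(.r 0 ⟨2,[(9,1),
  (17,0),(2,0),(11,2),(1,1)]⟩ ⟨24,[(1,3),(3,4),(2,9),(13,0),(5,14),(0,24),(9,0),(3,17)]⟩),.k,.k,[⟨0,
  [(4,0)]⟩,⟨0,[(0,0)]⟩,⟨3,[(5,0),(0,2),(21,3),(9,0),(3,0)]⟩,⟨0,[(0,0),(8,0),(33,0)]⟩]⟩)))) (.R ⟨1,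
  false,false,false,[0,0,1],[0,0,0,0,1],[1,0,0,-1,0,0,0,1],(⟨0,[(29,0)]⟩,⟨0,[(28,0)]⟩),(⟨0,[(22,
  0)]⟩,⟨0,[(21,0)]⟩),⟨0,[(18,0)]⟩,.k,.k,.k,.k,(.r (-1) ⟨23,[(10,13),(2,9),(2,4),(19,0),(3,4),(0,
  16)]⟩ ⟨0,[(25,0),(0,0),(12,0)]⟩),.k,⟨true,0,⟨0,[(9,0),(31,0)]⟩,⟨0,[(25,0),(0,0),(12,0)]⟩⟩,⟨false,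
  0,⟨0,[(1,0),(21,0)]⟩,⟨0,[(0,0),(25,0),(10,0),(1,0)]⟩⟩,⟨false,1,⟨32,[(3,5),(1,10),(7,10),(5,5),(16,
  0),(3,2),(0,21)]⟩,⟨0,[(39,0)]⟩⟩,⟨false,0,⟨0,[(1,0),(13,0)]⟩,⟨0,[(0,0),(11,0)]⟩⟩,⟨true,0,⟨0,[]⟩,⟨0,
  [(43,0)]⟩⟩,⟨false,0,⟨0,[(1,0),(13,0),(23,0)]⟩,⟨0,[(0,0),(10,0)]⟩⟩,[.o ⟨false,0,⟨3,[(2,0),(0,2),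
  (31,0),(3,0)]⟩,⟨0,[(0,0)]⟩⟩,.o ⟨false,0,⟨0,[(1,0)]⟩,⟨0,[(19,0)]⟩⟩,.o ⟨false,1,⟨10,[(3,0),(15,0),
  (6,10),(9,1),(3,5)]⟩,⟨0,[(14,0)]⟩⟩,.a ⟨true,0,⟨0,[(26,0)]⟩,⟨0,[(23,0)]⟩⟩ ⟨true,0,⟨0,[(10,0)]⟩,⟨0,
  [(25,0),(0,0),(12,0)]⟩⟩ ⟨false,0,⟨0,[(1,0),(21,0)]⟩,⟨0,[(0,0),(25,0)]⟩⟩]⟩)) (.Q [0,0,0,0,0,-1,0,0,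
  0,0,0,1] (.ed false [1,-1,0,0,1] .k) (.S ⟨1,0,[0,2],[0,0,0,0,1],[1,1,0,-1],(⟨0,[(22,0)]⟩,⟨0,[(21,
  0)]⟩),⟨0,[(0,0)]⟩,.k,(.r 0 ⟨0,[(37,0)]⟩ ⟨5,[(3,1),(12,1),(2,2),(0,0),(5,3),(12,5),(1,2)]⟩),⟨false,
  1,⟨32,[(3,5),(1,10),(7,10),(5,5),(16,0),(3,2),(0,21)]⟩,⟨0,[(39,0)]⟩⟩,⟨true,0,⟨0,[(43,0)]⟩,⟨0,[]⟩⟩,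
  ⟨true,0,⟨0,[]⟩,⟨0,[(43,0)]⟩⟩,⟨false,0,⟨0,[(39,0)]⟩,⟨32,[(3,5),(1,10),(7,10),(5,5),(16,0),(3,2),(0,
  21)]⟩⟩,[.e ⟨false,0,⟨0,[(37,0)]⟩,⟨1,[(19,0),(0,0),(18,1),(1,0)]⟩⟩ ⟨false,0,⟨0,[(35,0)]⟩,⟨0,[(41,
  0)]⟩⟩,.o ⟨false,0,⟨3,[(2,0),(0,2),(31,0),(3,0)]⟩,⟨5,[(1,4),(17,0),(16,0),(4,2)]⟩⟩,.a ⟨true,0,⟨0,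
  [(20,0)]⟩,⟨0,[(1,0)]⟩⟩ ⟨true,0,⟨0,[(38,0)]⟩,⟨0,[(39,0)]⟩⟩ ⟨false,0,⟨0,[(43,0)]⟩,⟨0,[(41,0)]⟩⟩,.o
  ⟨false,0,⟨0,[(3,0)]⟩,⟨5,[(1,4),(17,0),(16,0),(3,2)]⟩⟩]⟩) (.R ⟨0,false,false,false,[0,0,0,0,1],[0,
  0,1,0,1],[0,1],(⟨0,[(22,0)]⟩,⟨0,[(21,0)]⟩),(⟨0,[(22,0),(6,0)]⟩,⟨0,[(0,0),(16,0)]⟩),⟨0,[(0,0)]⟩,.k,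
  .k,(.r 0 ⟨0,[(37,0)]⟩ ⟨5,[(3,1),(12,1),(2,2),(0,0),(5,3),(12,5),(1,2)]⟩),.k,.k,.k,⟨true,1,⟨10,[(3,
  0),(11,10),(3,0),(6,10),(9,1),(3,5)]⟩,⟨0,[(6,0)]⟩⟩,⟨false,1,⟨0,[(26,0),(13,0)]⟩,⟨0,[(14,0)]⟩⟩,
  ⟨false,1,⟨1,[(19,0),(0,0),(20,0)]⟩,⟨0,[]⟩⟩,⟨true,0,⟨0,[(12,0)]⟩,⟨0,[(25,0)]⟩⟩,⟨false,0,⟨0,[]⟩,⟨0,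
  []⟩⟩,⟨false,0,⟨0,[]⟩,⟨0,[]⟩⟩,[.e ⟨false,0,⟨1,[(1,0),(0,0),(36,0)]⟩,⟨1,[(19,0),(0,0),(20,0)]⟩⟩
  ⟨false,0,⟨1,[(1,0),(0,0),(9,1),(26,0)]⟩,⟨21,[(3,1),(11,21),(3,1),(16,3),(3,0),(0,10)]⟩⟩,.o ⟨false,
  0,⟨0,[(2,0),(3,0),(19,0),(12,0),(1,0)]⟩,⟨3,[(1,2),(13,1),(3,0),(5,1),(10,0),(4,0)]⟩⟩,.a ⟨true,0,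
  ⟨0,[(20,0)]⟩,⟨0,[(1,0)]⟩⟩ ⟨true,0,⟨0,[(43,0)]⟩,⟨0,[]⟩⟩ ⟨false,0,⟨0,[(12,0)]⟩,⟨21,[(3,1),(11,21),
  (3,1),(16,3),(3,0),(0,10)]⟩⟩,.o ⟨false,0,⟨0,[(3,0)]⟩,⟨5,[(1,4),(17,0),(16,0),(3,2)]⟩⟩]⟩)))) (.Q
  [0,0,0,0,0,-1,0,0,0,1,0,-1] (.ed true [0,1,0,0,1] .k) (.Q [0,0,0,1,0,0,-1,-1,-1,1,-1,-1] (.p
  false [0,0,1] [1,0,0,0,-1] (⟨0,[(27,0)]⟩,⟨0,[(26,0)]⟩) .k 2 (⟨0,[(19,0)]⟩,⟨0,[(20,0)]⟩) .k (.r 1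
  ⟨0,[(7,0),(29,0)]⟩ ⟨9,[(13,9),(3,5),(0,5),(5,9),(9,1),(3,4),(0,4)]⟩)) (.Q [0,-2,0,0,1,0,0,0,-1,0,
  0,-1] (.p false [0,0,0,0,1] [] (⟨0,[(21,0)]⟩,⟨0,[(20,0)]⟩) .k 0 (⟨0,[]⟩,⟨0,[]⟩) .k .k) (.R ⟨1,
  false,false,true,[1,0,0,0,-1],[0,-1,1],[],(⟨0,[(21,0)]⟩,⟨0,[(22,0)]⟩),(⟨0,[(18,0)]⟩,⟨0,[(28,0),(2,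
  0)]⟩),⟨0,[(2,0)]⟩,.k,.k,(.r (-1) ⟨0,[(37,0),(3,0)]⟩ ⟨1,[(26,0),(0,0),(11,1),(3,1)]⟩),(.r (-1) ⟨9,
  [(1,9),(17,0),(0,10),(5,9),(9,1),(4,4)]⟩ ⟨35,[(9,1),(0,23),(2,9),(2,4),(18,11),(0,0)]⟩),.k,.k,
  ⟨true,1,⟨9,[(1,9),(17,0),(0,10),(5,9),(9,1),(4,4)]⟩,⟨0,[(9,0)]⟩⟩,⟨false,1,⟨9,[(19,0),(0,10),(5,9),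
  (9,1),(3,4)]⟩,⟨0,[(3,0),(10,0)]⟩⟩,⟨true,0,⟨0,[(43,0)]⟩,⟨0,[]⟩⟩,⟨false,0,⟨4,[(9,1),(1,0),(0,0),(7,
  4),(3,0),(1,1),(9,0),(0,1)]⟩,⟨0,[(1,0),(39,0)]⟩⟩,⟨false,0,⟨0,[(39,0)]⟩,⟨14,[(5,4),(7,4),(5,2),(0,
  2),(15,0),(4,9)]⟩⟩,⟨false,0,⟨4,[(9,1),(2,2),(7,4),(5,1),(8,0),(0,0),(0,0),(1,2)]⟩,⟨2,[(0,0),(0,1),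
  (3,0),(35,1)]⟩⟩,[.o ⟨false,0,⟨4,[(9,1),(1,0),(0,0),(11,0),(1,1),(9,0),(0,1)]⟩,⟨9,[(1,9),(17,0),(0,
  10),(15,1),(4,4)]⟩⟩,.e ⟨false,1,⟨1,[(40,0),(0,0)]⟩,⟨0,[(43,0)]⟩⟩ ⟨false,1,⟨9,[(11,7),(1,1),(6,9),
  (15,1),(3,4),(0,0)]⟩,⟨0,[(1,0)]⟩⟩,.a ⟨true,0,⟨1,[(3,0),(0,0)]⟩,⟨0,[(20,0)]⟩⟩ ⟨false,1,⟨1,[(19,0),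
  (0,0),(20,0)]⟩,⟨0,[]⟩⟩ ⟨true,0,⟨4,[(9,1),(1,0),(0,0),(7,4),(3,0),(1,1),(9,0),(0,1)]⟩,⟨0,[(1,0)]⟩⟩,
  .o ⟨false,0,⟨51,[(1,15),(1,18),(0,16),(0,7),(0,23),(19,23),(9,11),(5,5)]⟩,⟨9,[(19,0),(0,10),(15,
  1),(3,4)]⟩⟩]⟩) (.S ⟨1,0,[0,-1],[1,0,0,0,-1],[],(⟨0,[(21,0)]⟩,⟨0,[(22,0)]⟩),⟨0,[(2,0)]⟩,.k,(.r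
  (-1) ⟨0,[(37,0),(3,0)]⟩ ⟨1,[(26,0),(0,0),(11,1),(3,1)]⟩),⟨true,0,⟨0,[(43,0)]⟩,⟨0,[]⟩⟩,⟨false,1,⟨1,
  [(19,0),(0,0),(20,0)]⟩,⟨0,[]⟩⟩,⟨false,0,⟨0,[(39,0)]⟩,⟨14,[(5,4),(7,4),(5,2),(0,2),(15,0),(4,9)]⟩⟩,
  ⟨true,0,⟨0,[(39,0)]⟩,⟨0,[(38,0)]⟩⟩,[.o ⟨false,1,⟨11,[(3,4),(0,4),(14,1),(16,1),(4,5)]⟩,⟨4,[(0,1),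
  (19,2),(15,0),(6,0)]⟩⟩,.a ⟨true,1,⟨1,[(3,0),(0,0),(36,1)]⟩,⟨0,[(0,0)]⟩⟩ ⟨false,1,⟨1,[(40,0),(0,
  0)]⟩,⟨0,[(43,0)]⟩⟩ ⟨true,1,⟨0,[(41,0)]⟩,⟨6,[(0,4),(0,2),(2,1),(1,0),(2,2),(15,0),(0,3),(9,0)]⟩⟩,
  .e ⟨false,1,⟨1,[(19,0),(0,0),(20,0)]⟩,⟨0,[]⟩⟩ ⟨false,1,⟨0,[(41,0)]⟩,⟨0,[(43,0)]⟩⟩,.o ⟨false,0,⟨51,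
  [(1,15),(1,18),(0,16),(0,7),(0,23),(19,23),(9,11),(5,5)]⟩,⟨9,[(19,0),(0,10),(15,1),(3,4)]⟩⟩]⟩))
  (.Q [0,-2,0,-1,1,0,-1,-1,-1,1,-1,-1] (.p false [0,0,1] [1,0,0,0,-1] (⟨0,[(28,0)]⟩,⟨0,[(27,0)]⟩)
  .k 2 (⟨0,[(20,0)]⟩,⟨0,[(21,0)]⟩) .k (.r 1 ⟨0,[(8,0),(29,0)]⟩ ⟨9,[(14,9),(3,5),(0,5),(5,9),(9,1),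
  (3,4),(0,4)]⟩)) (.R ⟨1,false,false,true,[1,0,0,0,-1],[0,-1,1],[],(⟨0,[(21,0)]⟩,⟨0,[(22,0)]⟩),(⟨0,
  [(18,0)]⟩,⟨0,[(28,0),(2,0)]⟩),⟨0,[(2,0)]⟩,.k,.k,(.r (-1) ⟨1,[(0,0),(0,0),(38,0)]⟩ ⟨1,[(26,0),(0,
  0),(11,1),(3,1)]⟩),(.r (-1) ⟨9,[(15,9),(3,0),(0,0),(5,9),(9,1),(2,9),(1,4)]⟩ ⟨35,[(9,1),(0,23),(2,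
  9),(2,4),(18,11),(0,0)]⟩),.k,.k,⟨true,1,⟨9,[(15,9),(3,0),(0,0),(5,9),(9,1),(2,9),(1,4)]⟩,⟨0,[(9,
  0)]⟩⟩,⟨false,1,⟨9,[(19,0),(0,10),(5,9),(9,1),(3,4)]⟩,⟨0,[(3,0),(10,0)]⟩⟩,⟨true,0,⟨0,[(43,0)]⟩,⟨0,
  []⟩⟩,⟨false,0,⟨0,[(1,0),(41,0)]⟩,⟨0,[(0,0),(38,1)]⟩⟩,⟨false,0,⟨0,[(39,0)]⟩,⟨14,[(5,4),(7,4),(5,2),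
  (0,2),(15,0),(4,9)]⟩⟩,⟨false,0,⟨10,[(1,5),(4,1),(13,4),(3,2),(1,1),(8,3),(0,0),(2,5)]⟩,⟨0,[(0,0),
  (38,0)]⟩⟩,[.o ⟨false,0,⟨9,[(1,1),(1,1),(5,3),(2,0),(0,2),(12,3),(8,0),(0,1),(0,0)]⟩,⟨9,[(15,9),(3,
  0),(0,0),(15,1),(2,9),(1,4)]⟩⟩,.a ⟨true,0,⟨0,[(11,0)]⟩,⟨0,[(15,0),(23,0)]⟩⟩ ⟨false,1,⟨1,[(40,0),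
  (0,0)]⟩,⟨0,[(43,0)]⟩⟩ ⟨true,0,⟨0,[(1,0)]⟩,⟨17,[(0,5),(2,6),(0,4),(3,9),(16,11),(0,9),(9,1),(2,
  23)]⟩⟩,.e ⟨false,1,⟨1,[(19,0),(0,0),(20,0)]⟩,⟨0,[]⟩⟩ ⟨false,0,⟨0,[(1,0)]⟩,⟨1,[(0,0),(14,0),(3,0),
  (19,2)]⟩⟩,.o ⟨false,0,⟨11,[(3,8),(0,2),(3,7),(17,7),(9,3),(5,1)]⟩,⟨9,[(19,0),(0,10),(15,1),(3,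
  4)]⟩⟩]⟩) (.S ⟨1,0,[0,-1],[1,0,0,0,-1],[],(⟨0,[(21,0)]⟩,⟨0,[(22,0)]⟩),⟨0,[(2,0)]⟩,.k,(.r (-1) ⟨29,
  [(1,7),(1,7),(1,9),(5,1),(24,1),(3,10),(0,14)]⟩ ⟨1,[(26,0),(0,0),(11,1),(3,1)]⟩),⟨true,0,⟨0,[(43,
  0)]⟩,⟨0,[]⟩⟩,⟨false,1,⟨1,[(19,0),(0,0),(20,0)]⟩,⟨0,[]⟩⟩,⟨false,0,⟨0,[(39,0)]⟩,⟨14,[(5,4),(7,4),(5,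
  2),(0,2),(15,0),(4,9)]⟩⟩,⟨true,0,⟨0,[(39,0)]⟩,⟨0,[(38,0)]⟩⟩,[.o ⟨false,1,⟨11,[(3,4),(0,4),(14,1),
  (16,1),(4,5)]⟩,⟨12,[(0,3),(4,0),(14,8),(4,2),(10,1),(1,1)]⟩⟩,.a ⟨true,1,⟨1,[(3,0),(0,0),(36,1)]⟩,
  ⟨0,[(0,0),(6,0)]⟩⟩ ⟨false,1,⟨1,[(40,0),(0,0)]⟩,⟨0,[(43,0)]⟩⟩ ⟨true,1,⟨0,[(41,0)]⟩,⟨5,[(0,1),(2,0),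
  (0,0),(1,1),(2,1),(15,5),(0,3)]⟩⟩,.e ⟨false,1,⟨1,[(19,0),(0,0),(20,0)]⟩,⟨0,[]⟩⟩ ⟨false,1,⟨0,[(41,
  0)]⟩,⟨0,[(43,0)]⟩⟩,.o ⟨false,0,⟨11,[(3,8),(0,2),(3,7),(17,7),(9,3),(5,1)]⟩,⟨9,[(19,0),(0,10),(15,
  1),(3,4)]⟩⟩]⟩))) (.R ⟨0,false,false,true,[1,0,0,0,-1],[1,0,1,0,-1],[],(⟨0,[(19,0)]⟩,⟨0,[(20,0)]⟩),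
  (⟨0,[(19,0),(7,0)]⟩,⟨0,[(0,0),(14,0)]⟩),⟨0,[(0,0)]⟩,.k,.k,(.r (-1) ⟨0,[(35,0),(3,0)]⟩ ⟨1,[(24,0),
  (0,0),(11,1),(3,1)]⟩),.k,.k,.k,⟨true,1,⟨9,[(13,9),(3,0),(0,0),(5,9),(9,1),(3,4)]⟩,⟨0,[(4,0)]⟩⟩,
  ⟨false,1,⟨0,[(24,0),(13,0)]⟩,⟨0,[(12,0)]⟩⟩,⟨true,0,⟨0,[(41,0)]⟩,⟨0,[]⟩⟩,⟨false,0,⟨0,[(10,0)]⟩,⟨9,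
  [(13,9),(3,0),(0,0),(15,1),(4,4)]⟩⟩,⟨false,0,⟨0,[]⟩,⟨0,[]⟩⟩,⟨false,0,⟨0,[]⟩,⟨0,[]⟩⟩,[.o ⟨false,0,
  ⟨19,[(1,18),(0,0),(1,7),(5,11),(13,7),(9,3),(5,1)]⟩,⟨6,[(13,2),(3,0),(0,7),(4,3),(10,1),(4,1)]⟩⟩,
  .e ⟨false,1,⟨1,[(38,0),(0,0)]⟩,⟨0,[(41,0)]⟩⟩ ⟨false,1,⟨1,[(10,1),(27,0),(0,0)]⟩,⟨0,[(23,0)]⟩⟩,.a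
  ⟨true,0,⟨1,[(1,0),(0,0)]⟩,⟨0,[(18,0)]⟩⟩ ⟨false,1,⟨1,[(17,0),(0,0),(20,0)]⟩,⟨0,[]⟩⟩ ⟨true,0,⟨0,
  [(10,0)]⟩,⟨0,[(23,0)]⟩⟩,.o ⟨false,0,⟨11,[(1,8),(0,2),(3,7),(17,7),(9,3),(5,1)]⟩,⟨9,[(17,0),(0,10),
  (15,1),(3,4)]⟩⟩]⟩)))))))))

theorem ok9 : chk K t9 l8 = true := by decide +kernel

noncomputable def t10 : Tre :=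
  (.S ⟨1,0,[0,0,0,0,0,0,0,1],[0,0,1],[1,1,1],(⟨0,[(20,0)]⟩,⟨0,[(19,0)]⟩),⟨0,[(9,0)]⟩,.k,.k,⟨true,0,
  ⟨0,[(1,0),(27,0)]⟩,⟨0,[(0,0)]⟩⟩,⟨false,1,⟨1,[(10,0),(0,0),(20,0)]⟩,⟨0,[]⟩⟩,⟨false,0,⟨0,[(1,0)]⟩,
  ⟨5,[(2,5),(4,0),(6,3),(12,0),(3,0),(0,2)]⟩⟩,⟨true,0,⟨0,[(30,0)]⟩,⟨0,[(29,0)]⟩⟩,[.e ⟨false,0,⟨0,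
  [(34,0)]⟩,⟨1,[(31,0),(0,0)]⟩⟩ ⟨false,0,⟨0,[(0,0)]⟩,⟨9,[(6,9),(3,0),(0,0),(5,9),(9,1),(3,4)]⟩⟩,.o
  ⟨false,1,⟨4,[(3,3),(11,0),(11,0),(4,2)]⟩,⟨0,[(16,0)]⟩⟩,.o ⟨false,1,⟨9,[(10,0),(0,0),(5,9),(9,1),
  (3,4)]⟩,⟨0,[(5,0)]⟩⟩,.a ⟨true,0,⟨0,[(17,0)]⟩,⟨0,[(14,0)]⟩⟩ ⟨false,0,⟨0,[]⟩,⟨1,[(10,0),(0,0),(20,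
  0)]⟩⟩ ⟨true,0,⟨0,[(0,0)]⟩,⟨0,[(1,0),(27,0)]⟩⟩]⟩)

theorem ok10 : chk K t10 l9 = true := by decide +kernel

noncomputable def t11 : Tre :=
  (.R ⟨1,false,false,true,[0,0,1],[1,0,0,0,-1],[0,0,0,0,0,0,0,1],(⟨0,[(22,0)]⟩,⟨0,[(21,0)]⟩),(⟨0,
  [(14,0)]⟩,⟨0,[(15,0)]⟩),⟨0,[(11,0)]⟩,.k,.k,.k,.k,(.r 0 ⟨0,[(1,0),(14,0)]⟩ ⟨1,[(3,1),(8,0),(0,0),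
  (20,0)]⟩),.k,⟨true,0,⟨0,[(5,0),(1,0)]⟩,⟨0,[(2,0)]⟩⟩,⟨false,1,⟨0,[(12,0),(3,0)]⟩,⟨1,[(0,1),(18,1),
  (13,0),(0,0)]⟩⟩,⟨false,1,⟨1,[(12,0),(0,0),(20,0)]⟩,⟨0,[]⟩⟩,⟨true,1,⟨0,[(8,0),(3,0)]⟩,⟨0,[(0,0),(4,
  0)]⟩⟩,⟨true,0,⟨0,[(32,0)]⟩,⟨0,[(31,0)]⟩⟩,⟨true,1,⟨0,[(3,0),(8,0),(3,0)]⟩,⟨0,[(0,0),(3,0)]⟩⟩,[.o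
  ⟨false,1,⟨0,[(12,0)]⟩,⟨8,[(0,3),(12,4),(15,0),(4,1)]⟩⟩,.o ⟨false,2,⟨1,[(12,2),(0,0),(20,0)]⟩,⟨0,
  [(0,0)]⟩⟩,.o ⟨false,1,⟨9,[(12,0),(0,0),(5,9),(9,1),(3,4)]⟩,⟨0,[(7,0)]⟩⟩,.a ⟨true,0,⟨0,[(19,0)]⟩,
  ⟨0,[(16,0)]⟩⟩ ⟨false,1,⟨5,[(5,5),(3,0),(6,3),(12,0),(3,0),(0,2)]⟩,⟨0,[(2,0)]⟩⟩ ⟨true,1,⟨0,[(12,0),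
  (3,0)]⟩,⟨0,[(0,0),(18,0)]⟩⟩]⟩)

theorem ok11 : chk K t11 l11 = true := by decide +kernel

noncomputable def t12 : Tre :=
  (.S ⟨1,0,[0,0,0,0,0,0,0,-1],[1,0,-1],[1,1,0,-1,0,0,0,-1],(⟨0,[(23,0)]⟩,⟨0,[(24,0)]⟩),⟨0,[(12,0)]⟩,
  .k,.k,⟨true,0,⟨0,[(33,0)]⟩,⟨0,[(34,0)]⟩⟩,⟨false,1,⟨8,[(2,4),(12,4),(15,0),(4,1)]⟩,⟨0,[]⟩⟩,⟨false,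
  0,⟨0,[]⟩,⟨8,[(2,4),(12,4),(15,0),(4,1)]⟩⟩,⟨true,0,⟨0,[(34,0)]⟩,⟨0,[(33,0)]⟩⟩,[.a ⟨true,0,⟨0,[(10,
  0)]⟩,⟨0,[(7,0)]⟩⟩ ⟨true,0,⟨0,[(4,0),(27,0)]⟩,⟨0,[(0,0)]⟩⟩ ⟨false,1,⟨0,[(1,0),(8,0)]⟩,⟨1,[(0,0),(2,
  0),(14,0)]⟩⟩,.o ⟨false,1,⟨8,[(2,0),(7,8),(4,0),(15,1),(4,3)]⟩,⟨0,[(3,0),(30,0)]⟩⟩,.o ⟨false,0,⟨0,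
  [(9,0)]⟩,⟨49,[(1,24),(12,13),(0,13),(5,24),(9,4),(4,0),(1,1)]⟩⟩,.o ⟨false,0,⟨0,[(22,0)]⟩,⟨0,[(1,
  0)]⟩⟩]⟩)

theorem ok12 : chk K t12 l13 = true := by decide +kernel

noncomputable def t13 : Tre :=
  (.I [0,-1,-2,-1,1] (.Q [0,0,-2,0,1,0,0,0,0,-1] (.pp true [-1,1]) (.S ⟨1,0,[0,0,-1,-1],[1,-1],[1,1,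
  -1,-2],(⟨0,[(31,0)]⟩,⟨0,[(32,0)]⟩),⟨0,[(15,0),(0,0)]⟩,.k,(.r (-1) ⟨0,[(1,0),(34,0)]⟩ ⟨0,[(2,0),
  (38,0)]⟩),⟨true,0,⟨0,[(36,0)]⟩,⟨0,[(37,0)]⟩⟩,⟨false,1,⟨8,[(5,4),(12,4),(15,0),(4,1)]⟩,⟨0,[]⟩⟩,
  ⟨false,0,⟨0,[]⟩,⟨8,[(5,4),(12,4),(15,0),(4,1)]⟩⟩,⟨true,0,⟨0,[(37,0)]⟩,⟨0,[(36,0)]⟩⟩,[.a ⟨true,0,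
  ⟨0,[(9,0),(3,0)]⟩,⟨0,[(37,0)]⟩⟩ ⟨true,0,⟨0,[(3,0),(5,0),(2,0)]⟩,⟨0,[(2,0)]⟩⟩ ⟨false,1,⟨1,[(1,0),
  (34,0),(1,0)]⟩,⟨1,[(2,0),(38,0)]⟩⟩,.e ⟨false,1,⟨0,[(1,0),(34,0)]⟩,⟨2,[(2,1),(30,0),(3,1)]⟩⟩
  ⟨false,1,⟨0,[(1,0)]⟩,⟨1,[(2,0),(38,2)]⟩⟩,.o ⟨false,0,⟨1,[(24,0),(0,0)]⟩,⟨9,[(17,0),(0,0),(15,1),
  (3,4)]⟩⟩,.o ⟨false,0,⟨0,[(24,0),(0,0)]⟩,⟨0,[(0,0)]⟩⟩]⟩) (.S ⟨1,0,[0,0,-1,-1],[1,-1],[1,1,-1,-2],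
  (⟨0,[(31,0)]⟩,⟨0,[(32,0)]⟩),⟨0,[(15,0),(0,0)]⟩,.k,(.r (-1) ⟨0,[(1,0),(34,0)]⟩ ⟨0,[(2,0),(38,0)]⟩),
  ⟨true,0,⟨0,[(36,0)]⟩,⟨0,[(37,0)]⟩⟩,⟨false,1,⟨8,[(5,4),(12,4),(15,0),(4,1)]⟩,⟨0,[]⟩⟩,⟨false,0,⟨0,
  []⟩,⟨8,[(5,4),(12,4),(15,0),(4,1)]⟩⟩,⟨true,0,⟨0,[(37,0)]⟩,⟨0,[(36,0)]⟩⟩,[.a ⟨true,0,⟨1,[(0,0),(0,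
  0),(9,0),(1,0)]⟩,⟨0,[(37,0)]⟩⟩ ⟨true,0,⟨1,[(0,0),(0,0),(1,0),(2,0),(5,0),(22,0)]⟩,⟨0,[(2,0)]⟩⟩
  ⟨false,1,⟨1,[(1,0),(34,0),(1,0)]⟩,⟨1,[(2,0),(38,0)]⟩⟩,.e ⟨false,1,⟨0,[(1,0),(34,0)]⟩,⟨2,[(2,1),
  (30,0),(3,1)]⟩⟩ ⟨false,1,⟨0,[(1,0)]⟩,⟨1,[(2,0),(38,2)]⟩⟩,.o ⟨false,0,⟨1,[(24,0),(0,0)]⟩,⟨9,[(17,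
  0),(0,0),(15,1),(3,4)]⟩⟩,.e ⟨false,1,⟨0,[(1,0),(34,0)]⟩,⟨0,[(2,0)]⟩⟩ ⟨false,1,⟨0,[(1,0)]⟩,⟨0,[(2,
  0),(33,0)]⟩⟩]⟩)) (.Q [0,0,-2,0,1,0,0,0,0,-1] (.pp true [-1,1]) (.S ⟨1,0,[0,0,-1,-1],[1,-1],[1,1,
  -1,-2],(⟨0,[(31,0)]⟩,⟨0,[(32,0)]⟩),⟨0,[(15,0),(0,0)]⟩,.k,(.r (-1) ⟨0,[(35,1),(3,0)]⟩ ⟨0,[(2,0),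
  (38,0)]⟩),⟨true,0,⟨0,[(36,0)]⟩,⟨0,[(37,0)]⟩⟩,⟨false,1,⟨8,[(5,4),(12,4),(15,0),(4,1)]⟩,⟨0,[]⟩⟩,
  ⟨false,0,⟨0,[]⟩,⟨8,[(5,4),(12,4),(15,0),(4,1)]⟩⟩,⟨true,0,⟨0,[(37,0)]⟩,⟨0,[(36,0)]⟩⟩,[.a ⟨true,0,
  ⟨0,[(9,0),(3,0)]⟩,⟨0,[(37,0)]⟩⟩ ⟨true,0,⟨0,[(3,0),(5,0),(2,0)]⟩,⟨0,[(2,0)]⟩⟩ ⟨false,1,⟨1,[(35,1),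
  (2,0),(0,0)]⟩,⟨1,[(2,0),(38,0)]⟩⟩,.o ⟨false,1,⟨0,[(36,0),(2,0)]⟩,⟨0,[(0,0),(0,0)]⟩⟩,.o ⟨false,0,
  ⟨1,[(24,0),(0,0)]⟩,⟨9,[(17,0),(0,0),(15,1),(3,4)]⟩⟩,.o ⟨false,0,⟨0,[(24,0),(0,0)]⟩,⟨0,[(0,
  0)]⟩⟩]⟩) (.Q [0,0,-1,0,1,0,2,0,0,-1,2] (.p true [0,0,1] [1,0,-1] (⟨0,[(27,0)]⟩,⟨0,[(26,0)]⟩) .k 2
  (⟨0,[(26,0)]⟩,⟨0,[(27,0)]⟩) .k (.r 0 ⟨0,[(10,1),(1,1)]⟩ ⟨0,[(4,0),(2,0),(5,0)]⟩)) (.K ⟨0,[1,-1,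
  -1],(-1),0,(⟨0,[(16,0)]⟩,⟨0,[(28,0),(1,0)]⟩),.k,(.r (-1) ⟨0,[(4,0),(31,0),(3,0)]⟩ ⟨9,[(2,1),(0,7),
  (7,3),(3,4),(7,5),(11,0),(2,1)]⟩),.k,(.r (-1) ⟨27,[(0,9),(3,26),(3,8),(5,19),(20,1),(1,0),(2,
  13)]⟩ ⟨7,[(2,1),(0,1),(7,15),(1,5),(1,4),(19,0),(2,1)]⟩),.k,[⟨0,[(0,0)]⟩,⟨0,[(1,0),(11,0)]⟩,⟨0,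
  [(7,0),(30,1)]⟩,⟨0,[(14,0),(22,0)]⟩]⟩) (.Q [0,0,0,2,0,0,-1,-1,0,0,-1] (.p false [0,0,1] [] (⟨0,
  [(28,0)]⟩,⟨0,[(27,0)]⟩) .k 0 (⟨0,[]⟩,⟨0,[]⟩) .k .k) (.R ⟨1,false,false,true,[1,-1],[1,0,-1],[0,1],
  (⟨0,[(33,0)]⟩,⟨0,[(34,0)]⟩),(⟨0,[(28,0)]⟩,⟨0,[(29,0)]⟩),⟨0,[(17,0),(0,0)]⟩,.k,.k,(.r (-1) ⟨0,[(37,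
  1),(3,0)]⟩ ⟨0,[(4,0),(38,0)]⟩),.k,(.r (-1) ⟨5,[(11,5),(4,0),(6,3),(12,0),(0,5),(2,0),(0,2)]⟩ ⟨1,
  [(4,0),(5,1),(32,0)]⟩),.k,⟨true,0,⟨8,[(1,2),(10,8),(3,0),(6,0),(12,0),(3,0)]⟩,⟨0,[(9,0)]⟩⟩,⟨false,
  1,⟨5,[(16,0),(6,3),(12,0),(3,3)]⟩,⟨0,[(26,0)]⟩⟩,⟨false,0,⟨1,[(4,0),(38,0)]⟩,⟨0,[(37,0),(3,0)]⟩⟩,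
  ⟨true,0,⟨7,[(0,2),(3,0),(20,4),(9,1)]⟩,⟨0,[(11,0)]⟩⟩,⟨false,0,⟨1,[(0,0),(3,0),(19,0)]⟩,⟨15,[(1,4),
  (3,9),(5,9),(24,0),(0,10),(0,0),(2,18)]⟩⟩,⟨false,0,⟨0,[(0,0)]⟩,⟨0,[(11,0),(26,0),(2,0)]⟩⟩,[.o
  ⟨false,0,⟨0,[(25,0)]⟩,⟨4,[(12,3),(11,0),(11,0),(4,2)]⟩⟩,.e ⟨false,1,⟨1,[(19,0),(0,0),(19,0)]⟩,⟨0,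
  []⟩⟩ ⟨false,1,⟨6,[(0,1),(4,3),(9,0),(7,3),(12,0),(3,2),(0,1)]⟩,⟨1,[(4,0),(6,0),(1,0)]⟩⟩,.o ⟨false,
  0,⟨1,[(26,0),(0,0)]⟩,⟨9,[(19,0),(0,0),(15,1),(3,4)]⟩⟩,.a ⟨true,(-1),⟨0,[(2,0)]⟩,⟨0,[(40,0)]⟩⟩
  ⟨true,0,⟨0,[(37,0),(1,0)]⟩,⟨1,[(26,0),(0,0)]⟩⟩ ⟨false,1,⟨6,[(0,1),(4,3),(9,0),(7,3),(12,0),(3,2),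
  (0,1)]⟩,⟨9,[(2,4),(1,4),(6,8),(1,0),(22,0),(4,2)]⟩⟩]⟩) (.I [0,0,-1,0,1,-1,1,0,-1] (.I [1,-1,1,1,0,
  0,0,1] (.N [0,1,1,0,-1] 0 ⟨0,[(0,0)]⟩ ⟨0,[(7,0)]⟩ (.x (-1) ⟨0,[(1,0)]⟩ ⟨8,[(3,3),(0,1),(17,8),(0,
  8),(5,0),(1,8),(1,8),(4,2)]⟩)) (.Q [0,0,0,0,0,-2,0,0,0,0,1] (.p true [0,0,1] [] (⟨0,[(31,0)]⟩,⟨0,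
  [(30,0)]⟩) .k 0 (⟨0,[]⟩,⟨0,[]⟩) .k .k) (.I [1,-1,-2,-2,1,0,0,1] (.S ⟨1,0,[0,1,-1,-1,0,0,0,1],[0,
  -1,1],[1,0,-1,-2,0,0,0,1],(⟨0,[(22,0)]⟩,⟨0,[(32,0),(2,0)]⟩),⟨0,[(1,0)]⟩,.k,(.r (-1) ⟨37,[(0,27),
  (16,9),(2,4),(18,3),(0,0),(1,9),(1,7)]⟩ ⟨1,[(8,0),(5,1),(32,0)]⟩),⟨false,1,⟨0,[(42,0),(2,0)]⟩,⟨0,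
  [(43,0)]⟩⟩,⟨true,0,⟨0,[(47,0)]⟩,⟨0,[]⟩⟩,⟨true,0,⟨0,[]⟩,⟨0,[(47,0)]⟩⟩,⟨false,0,⟨0,[(43,0)]⟩,⟨0,
  [(42,0),(2,0)]⟩⟩,[.o ⟨false,0,⟨0,[(12,0)]⟩,⟨4,[(8,0),(5,2),(4,1),(7,2),(12,0),(3,0),(0,1)]⟩⟩,.e
  ⟨false,1,⟨0,[(0,0)]⟩,⟨2,[(8,0),(5,2),(24,1),(3,0)]⟩⟩ ⟨false,1,⟨11,[(0,5),(19,0),(6,3),(0,5),(11,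
  0),(3,3)]⟩,⟨0,[(14,0)]⟩⟩,.a ⟨true,0,⟨0,[(30,0)]⟩,⟨0,[(27,0)]⟩⟩ ⟨false,1,⟨5,[(0,3),(3,0),(12,0),
  (13,1),(10,0),(2,1)]⟩,⟨0,[(14,0),(28,0)]⟩⟩ ⟨true,0,⟨0,[(12,0),(14,0)]⟩,⟨0,[(14,0)]⟩⟩,.o ⟨false,0,
  ⟨1,[(2,1),(3,2),(9,1),(23,0),(2,1),(1,0)]⟩,⟨5,[(20,0),(6,3),(12,0),(3,3)]⟩⟩]⟩) (.Q [0,0,-1,0,1,0,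
  1,0,-1,0,1,-1] (.p true [0,0,1] [0,0,0,0,1] (⟨0,[(33,0)]⟩,⟨0,[(32,0)]⟩) .k 2 (⟨0,[(26,0)]⟩,⟨0,
  [(25,0)]⟩) .k (.r (-1) ⟨9,[(16,3),(3,4),(7,5),(11,0),(4,7)]⟩ ⟨2,[(2,0),(10,0),(0,0),(24,0)]⟩))
  (.Q [0,0,0,0,0,-1,0,0,0,1,0,-1] (.ed true [0,1,0,0,1] .k) (.Q [0,0,2,0,-1,0,0,0,-1,1,0,-1] (.p
  false [0,0,0,0,1] [1] (⟨0,[(28,0)]⟩,⟨0,[(27,0)]⟩) .k 1 (⟨0,[]⟩,⟨0,[]⟩) .k .k) (.K ⟨0,[1,-1,0,0,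
  -1],(-1),0,(⟨0,[(1,0)]⟩,⟨0,[(29,0),(8,0)]⟩),(.r (-1) ⟨17,[(5,5),(1,5),(15,0),(6,3),(12,0),(3,3),
  (0,11)]⟩ ⟨1,[(11,0),(38,2)]⟩),(.r (-2) ⟨25,[(5,9),(1,9),(15,4),(19,0),(1,21),(1,20),(0,28)]⟩ ⟨0,
  [(10,0),(35,0)]⟩),.k,(.r (-1) ⟨0,[(5,0),(42,0)]⟩ ⟨29,[(10,5),(0,9),(11,14),(7,29),(10,1),(0,2),(2,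
  3)]⟩),.k,[⟨0,[(13,0),(13,0)]⟩,⟨0,[(0,0)]⟩,⟨4,[(10,1),(16,4),(14,3),(0,0),(2,2)]⟩,⟨11,[(0,4),(1,6),
  (2,3),(1,3),(0,3),(21,2),(17,1)]⟩]⟩) (.Q [0,0,0,0,0,0,-1,-1,-1,1,-1,-1] (.p false [0,0,1] [1,0,0,
  0,-1] (⟨0,[(36,0)]⟩,⟨0,[(35,0)]⟩) .k 2 (⟨0,[(28,0)]⟩,⟨0,[(29,0)]⟩) .k (.r 0 ⟨9,[(8,1),(6,0),(7,1),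
  (6,1),(0,8),(11,0),(2,0)]⟩ ⟨3,[(0,0),(4,0),(8,0),(1,1),(0,0),(30,1)]⟩)) (.Q [0,0,1,0,0,0,0,0,-1,0,
  0,-1] (.p false [0,0,0,0,1] [] (⟨0,[(30,0)]⟩,⟨0,[(29,0)]⟩) .k 0 (⟨0,[]⟩,⟨0,[]⟩) .k .k) (.S ⟨1,0,
  [0,-1],[1,0,0,0,-1],[],(⟨0,[(30,0)]⟩,⟨0,[(31,0)]⟩),⟨0,[(3,0)]⟩,.k,(.r (-1) ⟨17,[(7,5),(1,5),(15,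
  0),(6,3),(12,0),(3,3),(0,11)]⟩ ⟨1,[(13,0),(38,2)]⟩),⟨true,0,⟨0,[(52,0)]⟩,⟨0,[]⟩⟩,⟨false,1,⟨8,[(16,
  4),(12,4),(15,0),(4,1)]⟩,⟨0,[]⟩⟩,⟨false,0,⟨0,[(48,0)]⟩,⟨0,[(47,0),(2,0)]⟩⟩,⟨true,0,⟨0,[(48,0)]⟩,
  ⟨0,[(47,0)]⟩⟩,[.o ⟨false,1,⟨12,[(0,7),(3,3),(11,0),(15,3),(12,0),(4,5)]⟩,⟨41,[(2,16),(4,9),(2,4),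
  (1,19),(4,9),(11,24),(14,0),(0,3)]⟩⟩,.a ⟨true,1,⟨0,[(1,0),(19,0),(28,0)]⟩,⟨0,[(2,0),(2,0),(1,0),
  (2,0),(9,0),(0,0)]⟩⟩ ⟨false,1,⟨1,[(49,0),(0,0)]⟩,⟨0,[(52,0)]⟩⟩ ⟨true,1,⟨0,[(50,0)]⟩,⟨0,[(12,0),
  (33,0)]⟩⟩,.e ⟨false,1,⟨8,[(16,4),(12,4),(15,0),(4,1)]⟩,⟨0,[]⟩⟩ ⟨false,1,⟨0,[(50,0)]⟩,⟨0,[(52,
  0)]⟩⟩,.o ⟨false,0,⟨0,[(0,0)]⟩,⟨20,[(2,10),(25,5),(0,15),(15,1),(5,0)]⟩⟩]⟩) (.S ⟨1,0,[],[1,0,0,0,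
  -1],[0,-1],(⟨0,[(30,0)]⟩,⟨0,[(31,0)]⟩),⟨0,[(3,0)]⟩,.k,(.r (-1) ⟨17,[(7,5),(1,5),(15,0),(6,3),(12,
  0),(3,3),(0,11)]⟩ ⟨1,[(13,0),(38,2)]⟩),⟨false,1,⟨8,[(16,4),(12,4),(15,0),(4,1)]⟩,⟨0,[]⟩⟩,⟨true,0,
  ⟨0,[(52,0)]⟩,⟨0,[]⟩⟩,⟨true,0,⟨0,[(48,0)]⟩,⟨0,[(47,0)]⟩⟩,⟨false,0,⟨0,[(48,0)]⟩,⟨0,[(47,0),(2,0)]⟩⟩,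
  [.e ⟨false,1,⟨1,[(49,0),(0,0)]⟩,⟨0,[(52,0)]⟩⟩ ⟨false,1,⟨4,[(2,1),(13,1),(11,0),(0,0),(14,0)]⟩,⟨0,
  []⟩⟩,.o ⟨false,1,⟨6,[(1,2),(2,3),(5,1),(2,0),(6,1),(0,0),(23,0),(4,2)]⟩,⟨9,[(0,6),(11,3),(16,2),
  (14,0),(0,1),(1,3)]⟩⟩,.e ⟨false,1,⟨0,[(50,0)]⟩,⟨0,[(52,0)]⟩⟩ ⟨false,1,⟨8,[(16,4),(12,4),(15,0),(4,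
  1)]⟩,⟨0,[]⟩⟩,.a ⟨true,0,⟨1,[(1,0),(10,0),(3,0),(3,0)]⟩,⟨0,[(0,0)]⟩⟩ ⟨true,1,⟨1,[(49,0),(0,0)]⟩,⟨0,
  [(12,0),(33,0)]⟩⟩ ⟨false,1,⟨1,[(49,0),(0,0)]⟩,⟨1,[(35,0),(0,0)]⟩⟩]⟩)) (.Q [0,0,0,0,0,-1,0,0,0,0,0,
  1] (.ed false [1,-1,0,0,1] .k) (.K ⟨0,[0,-1,0,0,1],(-1),(-1),(⟨0,[(0,0)]⟩,⟨0,[(30,0),(9,0)]⟩),(.r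
  0 ⟨0,[(46,0)]⟩ ⟨9,[(13,4),(2,4),(11,2),(0,7),(15,0)]⟩),(.r (-1) ⟨3,[(2,0),(4,1),(1,1),(15,0),(2,
  0),(18,1),(1,1)]⟩ ⟨0,[(13,0)]⟩),.k,(.r 0 ⟨0,[(7,0)]⟩ ⟨19,[(2,0),(10,10),(2,0),(5,1),(2,9),(7,17),
  (11,1),(4,13)]⟩),.k,[⟨0,[(4,0)]⟩,⟨2,[(1,2),(3,1),(1,1),(1,0),(0,1),(0,0),(38,1)]⟩,⟨0,[(28,0),(19,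
  0)]⟩,⟨1,[(1,1),(5,1),(2,0),(0,0),(32,0)]⟩]⟩) (.R ⟨0,false,false,true,[0,1,0,0,-1],[0,0,1,0,-1],[1,
  -1,1,1],(⟨0,[(0,0)]⟩,⟨0,[(31,0),(10,0)]⟩),(⟨0,[(0,0),(26,0)]⟩,⟨0,[(31,0),(5,0)]⟩),⟨0,[(31,0)]⟩,
  (.r (-1) ⟨9,[(13,4),(2,4),(11,2),(0,7),(15,0)]⟩ ⟨0,[(46,0)]⟩),.k,.k,.k,.k,.k,⟨false,1,⟨1,[(19,1),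
  (29,0),(0,0)]⟩,⟨0,[(17,0),(14,0)]⟩⟩,⟨true,0,⟨0,[(35,0)]⟩,⟨0,[(23,0)]⟩⟩,⟨true,0,⟨0,[]⟩,⟨0,[(52,
  0)]⟩⟩,⟨false,0,⟨0,[(20,0)]⟩,⟨19,[(5,5),(7,3),(10,13),(7,5),(12,3),(3,6),(0,10)]⟩⟩,⟨false,0,⟨0,[]⟩,
  ⟨0,[]⟩⟩,⟨false,0,⟨0,[]⟩,⟨0,[]⟩⟩,[.o ⟨false,1,⟨3,[(4,3),(5,1),(2,0),(3,0),(2,0),(0,1),(23,0)]⟩,⟨6,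
  [(1,0),(0,2),(2,1),(1,3),(2,3),(7,1),(10,2),(20,2)]⟩⟩,.e ⟨false,1,⟨0,[(48,0),(1,0)]⟩,⟨1,[(44,0),
  (1,0),(0,0)]⟩⟩ ⟨false,1,⟨0,[(33,0),(16,0)]⟩,⟨5,[(5,0),(1,4),(2,0),(21,3),(12,0),(2,2)]⟩⟩,.a ⟨true,
  1,⟨8,[(4,7),(5,2),(17,0),(3,1),(12,0),(3,0)]⟩,⟨0,[(1,0),(5,1),(2,0),(0,0),(9,0),(26,1),(1,0)]⟩⟩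
  ⟨false,1,⟨17,[(13,8),(2,4),(12,4),(15,0),(4,10)]⟩,⟨0,[(46,0)]⟩⟩ ⟨true,0,⟨1,[(13,0),(6,0),(1,0)]⟩,
  ⟨5,[(5,0),(1,4),(2,0),(21,3),(12,0),(2,2)]⟩⟩,.o ⟨false,1,⟨5,[(4,5),(5,2),(0,0),(33,1),(5,0)]⟩,⟨0,
  [(29,0)]⟩⟩]⟩)))) (.Q [0,0,0,0,0,0,-1,-1,-1,1,-1,-1] (.p false [-1,0,1,0,1] [] (⟨0,[(0,0),(23,0)]⟩,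
  ⟨0,[(27,0),(6,0)]⟩) .k 0 (⟨0,[]⟩,⟨0,[]⟩) .k (.r 0 ⟨9,[(7,1),(6,0),(7,1),(6,1),(0,8),(11,0),(2,
  0)]⟩ ⟨1,[(12,0),(2,0),(5,0),(25,0)]⟩)) (.Q [0,0,1,0,-1,0,-1,0,-1,2,-1,-1] (.p false [-1,0,1,0,1]
  [1] (⟨0,[(1,0),(23,0)]⟩,⟨0,[(28,0),(6,0)]⟩) .k 1 (⟨0,[]⟩,⟨0,[]⟩) .k (.r 0 ⟨9,[(8,1),(6,0),(7,1),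
  (6,1),(0,8),(11,0),(2,0)]⟩ ⟨1,[(13,0),(2,0),(5,0),(25,0)]⟩)) (.S ⟨1,0,[0,0,0,0,0,0,0,-1],[2,0,-1,
  0,-1],[1,-1,0,-1,0,0,0,-1],(⟨0,[(29,0),(6,0)]⟩,⟨0,[(2,0),(23,0)]⟩),⟨0,[(25,0),(3,0)]⟩,.k,(.r (-1)
  ⟨0,[(6,0),(42,0)]⟩ ⟨29,[(11,5),(0,9),(11,14),(7,29),(10,1),(0,2),(2,3)]⟩),⟨false,1,⟨0,[(46,0),(2,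
  0)]⟩,⟨0,[(47,0)]⟩⟩,⟨true,0,⟨0,[(51,0)]⟩,⟨0,[]⟩⟩,⟨true,0,⟨0,[]⟩,⟨0,[(51,0)]⟩⟩,⟨false,0,⟨0,[(47,
  0)]⟩,⟨0,[(46,0),(2,0)]⟩⟩,[.o ⟨false,0,⟨0,[(1,0)]⟩,⟨9,[(20,6),(7,9),(3,2),(11,3),(4,1),(1,0)]⟩⟩,.e
  ⟨false,2,⟨1,[(6,0),(7,0),(8,0),(22,0),(2,2)]⟩,⟨0,[(6,0),(2,0),(6,0),(3,0),(26,2)]⟩⟩ ⟨false,1,⟨0,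
  [(6,0),(40,0),(1,0)]⟩,⟨7,[(9,1),(14,0),(6,1),(0,7),(11,0)]⟩⟩,.o ⟨false,0,⟨11,[(0,8),(2,0),(23,1),
  (3,3),(12,1),(3,1)]⟩,⟨2,[(4,0),(1,0),(7,0),(4,0),(0,0),(7,2),(15,0),(4,0)]⟩⟩,.a ⟨true,(-1),⟨0,[(0,
  0)]⟩,⟨0,[(14,0),(13,0)]⟩⟩ ⟨true,1,⟨0,[(6,0),(42,0)]⟩,⟨1,[(9,0),(1,0),(4,0),(3,0),(22,0),(3,1)]⟩⟩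
  ⟨false,1,⟨0,[(6,0),(40,0),(1,0)]⟩,⟨1,[(12,0),(3,0),(2,0),(4,0)]⟩⟩]⟩) (.K ⟨0,[-1,0,1,0,1],0,0,(⟨0,
  [(2,0),(23,0)]⟩,⟨0,[(29,0),(6,0)]⟩),.k,(.r 0 ⟨0,[(16,0),(14,0)]⟩ ⟨1,[(0,0),(11,0),(2,0),(1,0),(5,
  0)]⟩),(.r 0 ⟨29,[(11,5),(0,9),(11,14),(7,29),(10,1),(0,2),(2,3)]⟩ ⟨0,[(6,0),(42,0)]⟩),.k,.k,[⟨0,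
  [(1,0),(18,0)]⟩,⟨0,[(0,0),(9,0)]⟩,⟨0,[(1,0)]⟩,⟨18,[(0,5),(8,2),(1,4),(4,4),(11,12),(3,13),(10,6),
  (0,0)]⟩]⟩)) (.K ⟨0,[0,-1,0,0,1],(-1),(-1),(⟨1,[(1,0),(2,0),(19,0),(4,0)]⟩,⟨0,[(28,0),(9,0)]⟩),(.r
  0 ⟨0,[(44,0)]⟩ ⟨9,[(11,4),(2,4),(11,2),(0,7),(15,0)]⟩),(.r (-1) ⟨25,[(5,9),(1,9),(15,4),(19,0),(1,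
  21),(1,20),(0,2)]⟩ ⟨0,[(11,0)]⟩),.k,(.r 0 ⟨0,[(5,0)]⟩ ⟨17,[(0,12),(10,8),(2,13),(8,8),(3,0),(3,4),
  (11,1)]⟩),.k,[⟨0,[(2,0)]⟩,⟨2,[(0,2),(2,1),(1,1),(1,0),(0,1),(0,0),(38,1)]⟩,⟨0,[(26,0),(19,0)]⟩,⟨1,
  [(0,1),(4,1),(2,0),(0,0),(32,0)]⟩]⟩))) (.Q [0,0,1,0,0,0,0,0,-1,1,0,-1] (.p false [0,0,0,0,1] [1]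
  (⟨0,[(27,0)]⟩,⟨0,[(26,0)]⟩) .k 1 (⟨0,[]⟩,⟨0,[]⟩) .k .k) (.S ⟨1,0,[0,2,0,0,0,0,0,-1],[0,0,-1,0,1],
  [1,1,0,-1,0,0,0,-1],(⟨0,[(1,0),(3,0),(31,0)]⟩,⟨0,[(27,0),(7,0)]⟩),⟨0,[(1,0),(3,0)]⟩,.k,(.r 0 ⟨0,
  [(4,0)]⟩ ⟨17,[(10,8),(2,0),(8,8),(3,0),(3,17),(11,1),(4,12)]⟩),⟨false,1,⟨0,[(44,0),(2,0)]⟩,⟨0,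
  [(45,0)]⟩⟩,⟨true,0,⟨0,[(49,0)]⟩,⟨0,[]⟩⟩,⟨true,0,⟨0,[]⟩,⟨0,[(49,0)]⟩⟩,⟨false,0,⟨0,[(45,0)]⟩,⟨0,
  [(44,0),(2,0)]⟩⟩,[.o ⟨false,(-1),⟨5,[(1,5),(0,0),(1,6),(2,0),(6,1),(27,0),(0,1),(1,8)]⟩,⟨4,[(13,
  4),(4,3),(11,0),(11,0),(4,2)]⟩⟩,.e ⟨false,1,⟨1,[(4,0),(7,0),(8,0),(22,0),(2,0)]⟩,⟨7,[(7,1),(10,7),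
  (3,0),(6,1),(12,0),(2,7)]⟩⟩ ⟨false,0,⟨0,[(4,0),(40,0)]⟩,⟨9,[(18,3),(3,4),(7,5),(11,0),(4,7)]⟩⟩,.o
  ⟨false,0,⟨3,[(1,2),(24,0),(2,0),(12,0),(3,0)]⟩,⟨0,[(0,0),(11,0)]⟩⟩,.a ⟨true,(-1),⟨0,[(1,0)]⟩,⟨0,
  [(5,0),(21,0),(7,0),(1,0)]⟩⟩ ⟨true,0,⟨0,[(11,0)]⟩,⟨9,[(7,1),(2,3),(7,5),(3,2),(7,3),(11,0),(2,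
  1)]⟩⟩ ⟨false,0,⟨0,[(4,0),(40,0)]⟩,⟨9,[(10,4),(6,8),(1,0),(2,4),(19,0),(4,7)]⟩⟩]⟩) (.S ⟨1,0,[0,1],
  [0,0,0,0,1],[0,2],(⟨0,[(28,0)]⟩,⟨0,[(27,0)]⟩),⟨2,[(1,0),(1,0),(1,0),(22,1)]⟩,.k,(.r 0 ⟨0,[(43,
  0)]⟩ ⟨9,[(10,4),(2,4),(11,2),(0,7),(15,0)]⟩),⟨true,0,⟨0,[(49,0)]⟩,⟨0,[]⟩⟩,⟨false,1,⟨8,[(13,4),(12,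
  4),(15,0),(4,1)]⟩,⟨0,[]⟩⟩,⟨false,0,⟨0,[(45,0)]⟩,⟨0,[(44,0),(2,0)]⟩⟩,⟨true,0,⟨0,[(45,0)]⟩,⟨0,[(44,
  0)]⟩⟩,[.e ⟨false,0,⟨0,[(41,0)]⟩,⟨0,[(47,0)]⟩⟩ ⟨false,0,⟨0,[(43,0),(1,0)]⟩,⟨8,[(13,4),(12,4),(15,
  0),(4,1)]⟩⟩,.o ⟨false,0,⟨18,[(0,8),(0,3),(24,5),(5,3),(9,1),(5,0)]⟩,⟨0,[(25,0)]⟩⟩,.o ⟨false,0,⟨18,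
  [(0,8),(0,3),(24,5),(5,3),(9,1),(5,0)]⟩,⟨0,[(25,0)]⟩⟩,.a ⟨true,(-1),⟨0,[(0,0),(7,0)]⟩,⟨1,[(5,0),
  (19,0),(1,0),(1,0),(5,0),(1,0)]⟩⟩ ⟨false,0,⟨0,[(43,0),(1,0)]⟩,⟨1,[(32,0),(0,0),(13,1)]⟩⟩ ⟨true,0,
  ⟨0,[(43,0),(1,0)]⟩,⟨1,[(32,0),(0,0)]⟩⟩]⟩)))) (.Q [0,-2,-1,0,1,0,-1,0,-1,1,-1,-1] (.p false [0,0,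
  1] [1,0,0,0,-1] (⟨0,[(32,0)]⟩,⟨0,[(31,0)]⟩) .k 2 (⟨0,[(24,0)]⟩,⟨0,[(25,0)]⟩) .k (.r 0 ⟨9,[(4,1),
  (6,0),(7,1),(6,1),(0,8),(11,0),(2,0)]⟩ ⟨1,[(9,0),(2,0),(5,0),(25,0)]⟩)) (.Q [0,0,-1,0,0,0,-1,0,-1,
  1,-1,-1] (.p false [0,0,1] [1,0,0,0,-1] (⟨0,[(33,0)]⟩,⟨0,[(32,0)]⟩) .k 2 (⟨0,[(25,0)]⟩,⟨0,[(26,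
  0)]⟩) .k (.r 0 ⟨9,[(5,1),(6,0),(7,1),(6,1),(0,8),(11,0),(2,0)]⟩ ⟨1,[(10,0),(2,0),(5,0),(25,0)]⟩))
  (.R ⟨0,false,false,true,[0,-1,1],[1,0,0,0,-1],[0,1],(⟨0,[(23,0)]⟩,⟨0,[(33,0),(2,0)]⟩),(⟨0,[(26,
  0)]⟩,⟨0,[(27,0)]⟩),⟨0,[(2,0)]⟩,.k,.k,(.r (-1) ⟨5,[(5,5),(15,0),(6,3),(12,0),(3,3)]⟩ ⟨1,[(9,0),(5,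
  1),(32,0)]⟩),(.r 0 ⟨0,[(13,0),(14,0)]⟩ ⟨8,[(12,4),(2,8),(9,4),(15,0),(4,1)]⟩),.k,.k,⟨false,0,⟨0,
  [(42,0),(1,0)]⟩,⟨8,[(12,4),(12,4),(15,0),(4,1)]⟩⟩,⟨true,0,⟨0,[(0,0)]⟩,⟨1,[(3,1),(3,2),(9,1),(7,1),
  (15,0),(2,1),(1,0)]⟩⟩,⟨false,0,⟨0,[(15,0)]⟩,⟨5,[(16,5),(4,0),(6,3),(12,0),(3,0),(0,2)]⟩⟩,⟨true,0,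
  ⟨0,[(0,0),(14,0)]⟩,⟨0,[(13,0),(11,0)]⟩⟩,⟨false,0,⟨0,[]⟩,⟨0,[]⟩⟩,⟨false,0,⟨0,[]⟩,⟨0,[]⟩⟩,[.a ⟨true,
  0,⟨0,[(0,0),(30,0)]⟩,⟨0,[(25,0)]⟩⟩ ⟨false,0,⟨0,[(42,0),(1,0)]⟩,⟨8,[(12,4),(12,4),(15,0),(4,1)]⟩⟩
  ⟨true,0,⟨0,[(0,0)]⟩,⟨1,[(3,1),(3,2),(9,1),(7,1),(15,0),(2,1),(1,0)]⟩⟩,.o ⟨false,1,⟨51,[(0,17),(0,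
  25),(2,0),(18,0),(0,6),(1,0),(4,42),(4,1),(4,8),(5,1)]⟩,⟨24,[(3,9),(2,4),(1,2),(4,9),(11,24),(14,
  0),(0,3),(2,16)]⟩⟩,.e ⟨true,0,⟨0,[(48,0)]⟩,⟨0,[]⟩⟩ ⟨true,0,⟨0,[(0,0)]⟩,⟨23,[(3,4),(4,9),(2,3),(1,
  4),(11,23),(5,14),(8,1),(0,2)]⟩⟩,.o ⟨false,0,⟨1,[(3,1),(3,2),(9,1),(23,0),(2,1),(1,0)]⟩,⟨5,[(21,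
  0),(6,3),(12,0),(3,3)]⟩⟩]⟩) (.Q [0,0,-1,0,0,0,-1,0,1,0,-1,1] (.p false [0,0,1] [0,0,0,0,1] (⟨0,
  [(34,0)]⟩,⟨0,[(33,0)]⟩) .k 2 (⟨0,[(27,0)]⟩,⟨0,[(26,0)]⟩) .k (.r (-1) ⟨9,[(17,3),(3,4),(7,5),(11,
  0),(4,7)]⟩ ⟨2,[(3,0),(10,0),(0,0),(24,0)]⟩)) (.R ⟨0,false,false,false,[0,-1,1],[0,0,0,0,1],[],(⟨0,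
  [(24,0)]⟩,⟨0,[(34,0),(2,0)]⟩),(⟨0,[(28,0)]⟩,⟨0,[(27,0)]⟩),⟨0,[(3,0)]⟩,.k,.k,(.r (-1) ⟨5,[(6,5),
  (15,0),(6,3),(12,0),(3,3)]⟩ ⟨1,[(10,0),(5,1),(32,0)]⟩),(.r (-1) ⟨9,[(0,4),(1,4),(14,3),(1,5),(22,
  0),(4,2)]⟩ ⟨0,[(16,0),(32,0)]⟩),.k,.k,⟨false,1,⟨1,[(46,0),(0,0)]⟩,⟨0,[(49,0)]⟩⟩,⟨true,0,⟨0,[(0,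
  0)]⟩,⟨1,[(2,1),(1,2),(3,2),(0,0),(8,2),(13,0),(9,0),(2,1)]⟩⟩,⟨true,0,⟨0,[(16,0)]⟩,⟨0,[(14,0),(14,
  0)]⟩⟩,⟨false,0,⟨0,[(0,0),(15,0)]⟩,⟨0,[(2,0),(11,0),(17,0)]⟩⟩,⟨false,0,⟨0,[]⟩,⟨0,[]⟩⟩,⟨false,0,⟨0,
  []⟩,⟨0,[]⟩⟩,[.o ⟨false,0,⟨51,[(0,26),(0,24),(2,1),(4,9),(4,1),(26,15),(0,4),(1,5)]⟩,⟨9,[(2,8),(1,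
  1),(4,3),(2,1),(1,1),(10,0),(6,4),(9,0)]⟩⟩,.a ⟨true,0,⟨0,[(26,0)]⟩,⟨0,[(2,0),(1,0),(4,0),(8,0)]⟩⟩
  ⟨false,1,⟨1,[(46,0),(0,0)]⟩,⟨0,[(49,0)]⟩⟩ ⟨true,0,⟨0,[(0,0)]⟩,⟨1,[(2,1),(1,2),(3,2),(0,0),(8,2),
  (13,0),(9,0),(2,1)]⟩⟩,.e ⟨false,1,⟨8,[(13,4),(12,4),(15,0),(4,1)]⟩,⟨0,[]⟩⟩ ⟨false,0,⟨0,[(0,0)]⟩,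
  ⟨9,[(2,8),(1,1),(4,3),(2,1),(1,1),(10,0),(6,14),(9,0)]⟩⟩,.o ⟨false,0,⟨1,[(4,1),(3,2),(9,1),(23,0),
  (2,1),(1,0)]⟩,⟨5,[(22,0),(6,3),(12,0),(3,3)]⟩⟩]⟩) (.R ⟨0,false,false,true,[0,-1,1],[1,0,-1],[],
  (⟨0,[(24,0)]⟩,⟨0,[(34,0),(2,0)]⟩),(⟨0,[(34,0)]⟩,⟨0,[(35,0)]⟩),⟨0,[(3,0)]⟩,.k,.k,(.r (-1) ⟨5,[(6,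
  5),(15,0),(6,3),(12,0),(3,3)]⟩ ⟨1,[(10,0),(5,1),(32,0)]⟩),(.r (-1) ⟨9,[(17,7),(0,9),(0,1),(2,9),
  (19,1),(3,4),(0,0)]⟩ ⟨0,[(0,0),(0,0),(2,1),(2,0),(37,2),(1,0)]⟩),.k,.k,⟨false,1,⟨5,[(18,5),(3,0),
  (6,3),(12,0),(3,0),(0,2)]⟩,⟨2,[(4,0),(10,0),(0,0),(24,0)]⟩⟩,⟨true,0,⟨8,[(7,2),(14,0),(6,9),(12,0),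
  (3,0)]⟩,⟨0,[(0,0),(0,0)]⟩⟩,⟨true,0,⟨0,[(16,0)]⟩,⟨0,[(14,0),(14,0)]⟩⟩,⟨false,0,⟨12,[(4,11),(2,7),
  (8,13),(12,9),(12,0),(2,10),(1,5)]⟩,⟨4,[(17,3),(0,4),(0,0),(22,0),(4,2)]⟩⟩,⟨false,0,⟨0,[]⟩,⟨0,
  []⟩⟩,⟨false,0,⟨0,[]⟩,⟨0,[]⟩⟩,[.o ⟨false,0,⟨0,[(31,0)]⟩,⟨4,[(18,3),(11,0),(11,0),(4,2)]⟩⟩,.a ⟨true,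
  0,⟨0,[(21,0)]⟩,⟨0,[(18,0)]⟩⟩ ⟨false,1,⟨1,[(46,0),(0,0)]⟩,⟨0,[(49,0)]⟩⟩ ⟨true,0,⟨12,[(4,11),(2,7),
  (8,0),(12,9),(12,0),(2,10),(1,5)]⟩,⟨1,[(0,0),(0,0),(8,0),(3,0),(2,0)]⟩⟩,.e ⟨false,1,⟨8,[(13,4),
  (12,4),(15,0),(4,1)]⟩,⟨0,[]⟩⟩ ⟨false,0,⟨12,[(4,11),(2,7),(8,0),(12,9),(12,0),(2,10),(1,5)]⟩,⟨4,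
  [(18,3),(11,0),(1,4),(9,0),(4,2)]⟩⟩,.o ⟨false,0,⟨8,[(0,2),(0,2),(6,3),(23,2),(9,1),(5,0)]⟩,⟨5,
  [(22,0),(6,3),(12,0),(3,3)]⟩⟩]⟩))) (.Q [0,2,0,0,-1,0,0,0,1,-1,0,1] (.p true [0,0,0,0,1] [1] (⟨0,
  [(26,0)]⟩,⟨0,[(25,0)]⟩) .k 1 (⟨0,[]⟩,⟨0,[]⟩) .k .k) (.Q [0,0,1,0,0,0,0,0,-1,1,0,-1] (.p false [0,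
  0,0,0,1] [1] (⟨0,[(27,0)]⟩,⟨0,[(26,0)]⟩) .k 1 (⟨0,[]⟩,⟨0,[]⟩) .k .k) (.Q [0,0,0,0,0,-1,0,0,0,1,0,
  -1] (.ed true [0,1,0,0,1] .k) (.S ⟨1,0,[0,-1],[1,0,0,0,-1],[1,0,0,-1],(⟨0,[(28,0)]⟩,⟨0,[(29,0)]⟩),
  ⟨0,[(0,0)]⟩,.k,(.r (-1) ⟨17,[(5,5),(1,5),(15,0),(6,3),(12,0),(3,3),(0,11)]⟩ ⟨1,[(11,0),(38,2)]⟩),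
  ⟨true,0,⟨0,[(45,0)]⟩,⟨0,[(46,0)]⟩⟩,⟨false,1,⟨8,[(14,4),(12,4),(15,0),(4,1)]⟩,⟨0,[]⟩⟩,⟨false,0,⟨0,
  []⟩,⟨8,[(14,4),(12,4),(15,0),(4,1)]⟩⟩,⟨true,0,⟨0,[(46,0)]⟩,⟨0,[(45,0)]⟩⟩,[.e ⟨false,1,⟨1,[(45,1),
  (1,0),(0,0)]⟩,⟨0,[(46,0)]⟩⟩ ⟨false,1,⟨1,[(47,0),(0,0)]⟩,⟨0,[(50,0)]⟩⟩,.o ⟨false,2,⟨8,[(14,9),(12,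
  0),(15,1),(4,3)]⟩,⟨0,[(2,0)]⟩⟩,.o ⟨false,1,⟨0,[(26,0)]⟩,⟨0,[(2,0),(45,0)]⟩⟩,.a ⟨true,0,⟨0,[(1,
  0)]⟩,⟨0,[(2,0),(2,1),(2,0),(10,1),(26,1),(1,1)]⟩⟩ ⟨false,1,⟨17,[(5,5),(1,5),(15,0),(6,3),(12,0),
  (3,3),(0,11)]⟩,⟨1,[(11,0),(38,0)]⟩⟩ ⟨true,1,⟨1,[(47,0),(0,0)]⟩,⟨0,[(10,0),(33,0)]⟩⟩]⟩) (.R ⟨0,
  false,false,true,[1,0,0,0,-1],[2,-1,0,0,-1],[1,1,1],(⟨0,[(28,0)]⟩,⟨0,[(29,0)]⟩),(⟨0,[(28,0),(11,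
  0)]⟩,⟨0,[(0,0)]⟩),⟨0,[(0,0)]⟩,.k,(.r (-1) ⟨17,[(5,5),(1,5),(15,0),(6,3),(12,0),(3,3),(0,11)]⟩ ⟨1,
  [(11,0),(38,2)]⟩),(.r (-1) ⟨17,[(5,5),(1,5),(15,0),(6,3),(12,0),(3,3),(0,11)]⟩ ⟨1,[(11,0),(38,
  2)]⟩),.k,.k,.k,⟨true,(-1),⟨0,[(10,0)]⟩,⟨17,[(5,5),(1,5),(15,0),(6,3),(12,0),(3,3),(0,11)]⟩⟩,
  ⟨false,0,⟨0,[(30,0),(2,0)]⟩,⟨9,[(26,0),(0,0),(15,1),(3,4)]⟩⟩,⟨true,(-1),⟨0,[(10,0),(33,0)]⟩,⟨1,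
  [(47,0),(0,0)]⟩⟩,⟨false,0,⟨1,[(7,0),(14,0),(7,0),(2,0)]⟩,⟨4,[(11,0),(31,0),(2,2),(0,0),(0,1)]⟩⟩,
  ⟨false,0,⟨0,[]⟩,⟨0,[]⟩⟩,⟨false,0,⟨0,[]⟩,⟨0,[]⟩⟩,[.e ⟨false,0,⟨0,[(50,0)]⟩,⟨1,[(47,0),(0,0)]⟩⟩
  ⟨false,0,⟨0,[(5,1),(2,0),(10,1),(26,0),(1,0)]⟩,⟨39,[(11,19),(14,8),(0,8),(14,9),(0,7),(3,14)]⟩⟩,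
  .o ⟨false,1,⟨28,[(1,2),(3,8),(1,9),(0,4),(5,25),(1,0),(26,0),(4,5)]⟩,⟨3,[(2,2),(24,0),(15,0),(2,
  3),(1,0)]⟩⟩,.o ⟨false,1,⟨0,[(26,0)]⟩,⟨0,[(2,0),(45,0)]⟩⟩,.a ⟨true,0,⟨0,[(1,0)]⟩,⟨0,[(2,0),(2,1),
  (2,0),(10,1),(26,1),(1,1)]⟩⟩ ⟨false,0,⟨0,[]⟩,⟨8,[(14,4),(12,4),(15,0),(4,1)]⟩⟩ ⟨true,0,⟨0,[(5,1),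
  (2,0),(10,1),(26,0),(1,0)]⟩,⟨9,[(10,3),(0,2),(30,3),(0,1),(6,0)]⟩⟩]⟩)) (.S ⟨1,0,[0,2],[0,0,0,0,1],
  [1,1,0,-1],(⟨0,[(28,0)]⟩,⟨0,[(27,0)]⟩),⟨50,[(0,15),(4,15),(1,7),(0,11),(14,5),(0,21),(3,34),(7,6),
  (5,1)]⟩,.k,(.r 0 ⟨0,[(43,0)]⟩ ⟨9,[(10,4),(2,4),(11,2),(0,7),(15,0)]⟩),⟨false,1,⟨0,[(44,0),(2,0)]⟩,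
  ⟨0,[(45,0)]⟩⟩,⟨true,0,⟨0,[(49,0)]⟩,⟨0,[]⟩⟩,⟨true,0,⟨0,[]⟩,⟨0,[(49,0)]⟩⟩,⟨false,0,⟨0,[(45,0)]⟩,⟨0,
  [(44,0),(2,0)]⟩⟩,[.o ⟨false,(-1),⟨0,[(1,0)]⟩,⟨8,[(13,9),(12,0),(15,1),(4,3)]⟩⟩,.e ⟨false,1,⟨1,
  [(44,1),(1,0),(0,0)]⟩,⟨0,[(45,0)]⟩⟩ ⟨false,0,⟨0,[(43,0),(1,0)]⟩,⟨8,[(13,4),(12,4),(15,0),(4,1)]⟩⟩,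
  .o ⟨false,0,⟨16,[(0,8),(1,1),(4,0),(0,2),(17,5),(15,1),(4,1)]⟩,⟨0,[(25,0)]⟩⟩,.a ⟨true,(-1),⟨0,[(0,
  0),(7,0)]⟩,⟨1,[(5,0),(19,0),(1,0),(1,0),(5,0),(1,0)]⟩⟩ ⟨true,0,⟨0,[(43,0)]⟩,⟨1,[(10,0),(38,0)]⟩⟩
  ⟨false,0,⟨0,[(43,0),(1,0)]⟩,⟨1,[(32,0),(0,0),(13,1)]⟩⟩]⟩)) (.Q [0,0,-1,0,0,0,-1,0,1,0,-1,1] (.p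
  false [0,0,1] [0,0,0,0,1] (⟨0,[(34,0)]⟩,⟨0,[(33,0)]⟩) .k 2 (⟨0,[(27,0)]⟩,⟨0,[(26,0)]⟩) .k (.r
  (-1) ⟨9,[(17,3),(3,4),(7,5),(11,0),(4,7)]⟩ ⟨2,[(3,0),(10,0),(0,0),(24,0)]⟩)) (.Q [0,0,2,0,0,0,1,0,
  -1,0,1,-1] (.p true [0,0,1] [0,0,0,0,1] (⟨0,[(35,0)]⟩,⟨0,[(34,0)]⟩) .k 2 (⟨0,[(28,0)]⟩,⟨0,[(27,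
  0)]⟩) .k (.r (-1) ⟨9,[(18,3),(3,4),(7,5),(11,0),(4,7)]⟩ ⟨2,[(4,0),(10,0),(0,0),(24,0)]⟩)) (.Q [0,
  2,-1,0,-1,0,-1,0,1,0,-1,1] (.p false [0,0,1] [0,0,0,0,1] (⟨0,[(36,0)]⟩,⟨0,[(35,0)]⟩) .k 2 (⟨0,
  [(29,0)]⟩,⟨0,[(28,0)]⟩) .k (.r (-1) ⟨9,[(19,3),(3,4),(7,5),(11,0),(4,7)]⟩ ⟨2,[(5,0),(10,0),(0,0),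
  (24,0)]⟩)) (.R ⟨0,false,false,true,[0,-1,1],[0,0,0,0,1],[0,1],(⟨0,[(26,0)]⟩,⟨0,[(36,0),(2,0)]⟩),
  (⟨0,[(30,0)]⟩,⟨0,[(29,0)]⟩),⟨0,[(5,0)]⟩,.k,.k,(.r (-1) ⟨5,[(8,5),(15,0),(6,3),(12,0),(3,3)]⟩ ⟨1,
  [(12,0),(5,1),(32,0)]⟩),(.r (-1) ⟨5,[(19,5),(4,0),(6,3),(12,0),(3,0),(0,2)]⟩ ⟨0,[(18,0),(32,0)]⟩),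
  .k,.k,⟨false,1,⟨1,[(48,0),(0,0)]⟩,⟨0,[(51,0)]⟩⟩,⟨true,0,⟨0,[(2,0)]⟩,⟨0,[(1,0)]⟩⟩,⟨false,0,⟨0,[(18,
  0)]⟩,⟨5,[(19,5),(4,0),(6,3),(12,0),(3,0),(0,2)]⟩⟩,⟨true,(-1),⟨0,[(0,0),(17,0)]⟩,⟨0,[(3,0),(12,
  0)]⟩⟩,⟨false,0,⟨0,[]⟩,⟨0,[]⟩⟩,⟨false,0,⟨0,[]⟩,⟨0,[]⟩⟩,[.a ⟨true,(-1),⟨0,[(4,0),(26,0)]⟩,⟨0,[(3,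
  0)]⟩⟩ ⟨false,0,⟨0,[(45,0),(1,0)]⟩,⟨8,[(15,4),(12,4),(15,0),(4,1)]⟩⟩ ⟨true,(-1),⟨0,[(0,0)]⟩,⟨0,[(1,
  0),(47,0)]⟩⟩,.o ⟨false,0,⟨11,[(0,0),(3,2),(19,0),(3,7),(14,1),(0,1)]⟩,⟨5,[(1,0),(1,4),(2,0),(2,0),
  (6,0),(27,0),(0,1),(1,3)]⟩⟩,.e ⟨true,0,⟨0,[(51,0)]⟩,⟨0,[]⟩⟩ ⟨true,(-1),⟨0,[(0,0)]⟩,⟨2,[(1,1),(12,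
  0),(0,0),(33,0)]⟩⟩,.o ⟨false,0,⟨1,[(6,1),(3,2),(9,1),(23,0),(2,1),(1,0)]⟩,⟨5,[(24,0),(6,3),(12,0),
  (3,3)]⟩⟩]⟩) (.R ⟨0,false,false,false,[0,-1,1],[0,0,0,0,1],[],(⟨0,[(26,0)]⟩,⟨0,[(36,0),(2,0)]⟩),
  (⟨0,[(30,0)]⟩,⟨0,[(29,0)]⟩),⟨0,[(5,0)]⟩,.k,.k,(.r (-1) ⟨5,[(8,5),(15,0),(6,3),(12,0),(3,3)]⟩ ⟨1,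
  [(12,0),(5,1),(32,0)]⟩),(.r (-1) ⟨5,[(19,5),(4,0),(6,3),(12,0),(3,0),(0,2)]⟩ ⟨0,[(18,0),(32,0)]⟩),
  .k,.k,⟨false,1,⟨1,[(48,0),(0,0)]⟩,⟨0,[(51,0)]⟩⟩,⟨true,0,⟨0,[(2,0)]⟩,⟨0,[(1,0)]⟩⟩,⟨true,0,⟨0,[(18,
  0)]⟩,⟨0,[(16,0),(14,0)]⟩⟩,⟨false,0,⟨0,[(2,0),(15,0)]⟩,⟨0,[(3,0),(12,0)]⟩⟩,⟨false,0,⟨0,[]⟩,⟨0,[]⟩⟩,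
  ⟨false,0,⟨0,[]⟩,⟨0,[]⟩⟩,[.o ⟨false,0,⟨31,[(2,3),(1,9),(19,2),(3,17),(14,5),(0,4)]⟩,⟨5,[(1,0),(1,
  4),(2,0),(2,0),(6,0),(27,0),(0,1),(1,3)]⟩⟩,.a ⟨true,0,⟨0,[(28,0)]⟩,⟨1,[(0,0),(2,0),(2,2),(2,1),(6,
  0),(3,1),(26,3)]⟩⟩ ⟨false,1,⟨1,[(48,0),(0,0)]⟩,⟨0,[(51,0)]⟩⟩ ⟨true,0,⟨0,[(2,0)]⟩,⟨0,[(1,0)]⟩⟩,.e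
  ⟨false,1,⟨8,[(15,4),(12,4),(15,0),(4,1)]⟩,⟨0,[]⟩⟩ ⟨false,0,⟨0,[(2,0)]⟩,⟨1,[(0,0),(26,0),(6,0)]⟩⟩,
  .o ⟨false,0,⟨4,[(0,0),(0,0),(2,1),(5,1),(23,0),(9,0),(4,0)]⟩,⟨5,[(24,0),(6,3),(12,0),(3,3)]⟩⟩]⟩))
  (.R ⟨1,false,false,false,[0,0,1],[0,0,0,0,1],[1,1,0,-1,0,0,0,1],(⟨0,[(36,0)]⟩,⟨0,[(35,0)]⟩),(⟨0,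
  [(29,0)]⟩,⟨0,[(28,0)]⟩),⟨0,[(25,0)]⟩,.k,.k,.k,.k,(.r (-1) ⟨7,[(0,1),(1,1),(15,7),(4,2),(19,0),(3,
  1),(0,1)]⟩ ⟨0,[(17,0),(32,0)]⟩),.k,⟨true,0,⟨7,[(8,1),(9,7),(4,0),(6,1),(12,0)]⟩,⟨0,[(17,0)]⟩⟩,
  ⟨false,0,⟨0,[(1,0)]⟩,⟨1,[(2,0),(2,0),(4,0),(2,0),(5,0),(6,0)]⟩⟩,⟨true,0,⟨0,[(45,0)]⟩,⟨0,[(46,
  0)]⟩⟩,⟨false,0,⟨0,[(1,0),(14,0)]⟩,⟨0,[(2,0),(12,0),(30,0)]⟩⟩,⟨false,0,⟨0,[]⟩,⟨8,[(14,4),(12,4),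
  (15,0),(4,1)]⟩⟩,⟨false,0,⟨0,[(1,0),(15,0)]⟩,⟨0,[(2,0),(12,0)]⟩⟩,[.o ⟨false,0,⟨31,[(1,3),(1,9),(19,
  2),(3,17),(14,5),(0,4)]⟩,⟨19,[(2,18),(2,7),(2,3),(1,1),(4,7),(10,0),(16,2),(2,13)]⟩⟩,.o ⟨false,0,
  ⟨1,[(0,1),(4,1),(3,2),(9,1),(23,0),(2,1),(1,0)]⟩,⟨0,[(26,0)]⟩⟩,.o ⟨false,1,⟨49,[(13,24),(12,13),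
  (0,13),(5,24),(9,4),(4,0),(1,1)]⟩,⟨0,[(21,0)]⟩⟩,.a ⟨true,0,⟨0,[(33,0)]⟩,⟨0,[(30,0)]⟩⟩ ⟨true,0,⟨0,
  [(15,0),(14,0)]⟩,⟨0,[(17,0)]⟩⟩ ⟨false,0,⟨0,[(1,0)]⟩,⟨9,[(2,8),(2,1),(4,3),(2,1),(1,1),(10,0),(6,
  5),(9,0)]⟩⟩]⟩)) (.R ⟨0,false,false,true,[0,-1,1],[1,0,-1],[],(⟨0,[(24,0)]⟩,⟨0,[(34,0),(2,0)]⟩),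
  (⟨0,[(34,0)]⟩,⟨0,[(35,0)]⟩),⟨0,[(3,0)]⟩,.k,.k,(.r (-1) ⟨5,[(6,5),(15,0),(6,3),(12,0),(3,3)]⟩ ⟨1,
  [(10,0),(5,1),(32,0)]⟩),(.r (-1) ⟨9,[(17,7),(0,9),(0,1),(2,9),(19,1),(3,4),(0,0)]⟩ ⟨0,[(0,0),(1,
  0),(1,1),(2,0),(37,2),(1,1)]⟩),.k,.k,⟨false,1,⟨5,[(18,5),(3,0),(6,3),(12,0),(3,0),(0,2)]⟩,⟨2,[(4,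
  0),(10,0),(0,0),(24,0)]⟩⟩,⟨true,0,⟨8,[(7,2),(14,0),(6,9),(12,0),(3,0)]⟩,⟨0,[(0,0),(1,0),(44,0)]⟩⟩,
  ⟨true,0,⟨0,[(16,0)]⟩,⟨0,[(14,0),(14,0)]⟩⟩,⟨false,0,⟨12,[(4,11),(2,7),(8,13),(12,9),(12,0),(2,10),
  (1,5)]⟩,⟨4,[(17,3),(0,4),(0,0),(22,0),(4,2)]⟩⟩,⟨false,0,⟨0,[]⟩,⟨0,[]⟩⟩,⟨false,0,⟨0,[]⟩,⟨0,[]⟩⟩,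
  [.o ⟨false,0,⟨0,[(31,0)]⟩,⟨4,[(18,3),(11,0),(11,0),(4,2)]⟩⟩,.a ⟨true,0,⟨0,[(21,0)]⟩,⟨0,[(18,0)]⟩⟩
  ⟨false,1,⟨1,[(46,0),(0,0)]⟩,⟨0,[(49,0)]⟩⟩ ⟨true,0,⟨12,[(4,11),(2,7),(8,0),(12,9),(12,0),(2,10),(1,
  5)]⟩,⟨7,[(0,2),(1,2),(7,3),(6,7),(14,1),(9,0),(4,0)]⟩⟩,.e ⟨false,1,⟨8,[(13,4),(12,4),(15,0),(4,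
  1)]⟩,⟨0,[]⟩⟩ ⟨false,0,⟨12,[(4,11),(2,7),(8,0),(12,9),(12,0),(2,10),(1,5)]⟩,⟨4,[(18,3),(11,0),(1,
  4),(9,0),(4,2)]⟩⟩,.o ⟨false,0,⟨3,[(0,0),(1,0),(5,1),(23,1),(9,0),(4,0)]⟩,⟨5,[(22,0),(6,3),(12,0),
  (3,3)]⟩⟩]⟩)))))) (.Q [0,0,0,0,0,-2,0,0,0,1,-1] (.p false [0,0,1] [1] (⟨0,[(30,0)]⟩,⟨0,[(29,0)]⟩)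
  .k 1 (⟨0,[]⟩,⟨0,[]⟩) .k .k) (.I [1,-1,1,1,0,0,0,1] (.S ⟨1,0,[0,0,-1,-1,0,0,0,-1],[1,-1,-1],[0,1,
  -1,-1,0,0,0,-1],(⟨0,[(20,0)]⟩,⟨0,[(32,0),(1,0)]⟩),⟨0,[(1,0)]⟩,.k,(.r (-1) ⟨17,[(3,5),(4,23),(10,
  0),(6,3),(12,0),(3,3),(0,11)]⟩ ⟨43,[(0,13),(5,5),(0,33),(11,14),(7,29),(10,5),(0,2)]⟩),⟨true,0,⟨0,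
  [(46,0)]⟩,⟨0,[]⟩⟩,⟨false,1,⟨8,[(10,4),(12,4),(15,0),(4,1)]⟩,⟨0,[]⟩⟩,⟨false,0,⟨0,[(42,0)]⟩,⟨0,[(41,
  0),(2,0)]⟩⟩,⟨true,0,⟨0,[(42,0)]⟩,⟨0,[(41,0)]⟩⟩,[.e ⟨false,1,⟨1,[(8,0),(0,0),(8,0),(22,0),(1,0)]⟩,
  ⟨0,[(0,0)]⟩⟩ ⟨false,1,⟨1,[(8,1),(34,0),(0,0)]⟩,⟨21,[(0,11),(5,1),(0,3),(11,4),(7,9),(10,1),(0,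
  0)]⟩⟩,.o ⟨false,1,⟨41,[(3,7),(0,1),(3,25),(3,23),(6,22),(19,4),(4,33)]⟩,⟨0,[(11,0),(30,1)]⟩⟩,.o
  ⟨false,0,⟨0,[(30,0)]⟩,⟨0,[(9,0)]⟩⟩,.a ⟨true,(-1),⟨2,[(4,0),(0,1),(24,0)]⟩,⟨1,[(8,1),(6,1),(26,1),
  (0,0),(0,0)]⟩⟩ ⟨false,1,⟨1,[(8,1),(34,0),(0,0)]⟩,⟨7,[(0,4),(2,1),(3,3),(8,0),(13,2)]⟩⟩ ⟨true,1,⟨1,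
  [(8,1),(34,0),(0,0)]⟩,⟨3,[(0,1),(3,0),(1,2),(4,0),(3,0),(22,0)]⟩⟩]⟩) (.Q [0,0,0,0,0,-2,0,0,0,0,1]
  (.p true [0,0,1] [] (⟨0,[(32,0)]⟩,⟨0,[(31,0)]⟩) .k 0 (⟨0,[]⟩,⟨0,[]⟩) .k .k) (.I [1,-1,-2,-2,1,0,0,
  1] (.S ⟨1,0,[0,1,-1,-1,0,0,0,1],[0,-1,1],[1,0,-1,-2,0,0,0,1],(⟨0,[(23,0)]⟩,⟨0,[(33,0),(2,0)]⟩),⟨0,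
  [(1,0)]⟩,.k,(.r (-1) ⟨37,[(0,27),(17,9),(2,4),(18,3),(0,0),(1,9),(1,7)]⟩ ⟨1,[(9,0),(5,1),(32,
  0)]⟩),⟨false,1,⟨0,[(43,0),(2,0)]⟩,⟨0,[(44,0)]⟩⟩,⟨true,0,⟨0,[(48,0)]⟩,⟨0,[]⟩⟩,⟨true,0,⟨0,[]⟩,⟨0,
  [(48,0)]⟩⟩,⟨false,0,⟨0,[(44,0)]⟩,⟨0,[(43,0),(2,0)]⟩⟩,[.o ⟨false,0,⟨0,[(13,0)]⟩,⟨4,[(9,0),(5,2),(4,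
  1),(7,2),(12,0),(3,0),(0,1)]⟩⟩,.e ⟨false,1,⟨0,[(0,0)]⟩,⟨2,[(9,0),(5,2),(24,1),(3,0)]⟩⟩ ⟨false,1,
  ⟨11,[(0,5),(20,0),(6,3),(0,5),(11,0),(3,3)]⟩,⟨0,[(15,0)]⟩⟩,.a ⟨true,0,⟨0,[(31,0)]⟩,⟨0,[(28,0)]⟩⟩
  ⟨false,1,⟨19,[(0,9),(4,6),(12,2),(2,4),(19,0),(1,2),(2,7)]⟩,⟨0,[(15,0),(28,0)]⟩⟩ ⟨true,0,⟨0,[(13,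
  0),(14,0)]⟩,⟨0,[(15,0)]⟩⟩,.o ⟨false,0,⟨1,[(2,1),(4,2),(9,1),(23,0),(2,1),(1,0)]⟩,⟨5,[(21,0),(6,3),
  (12,0),(3,3)]⟩⟩]⟩) (.Q [0,2,0,-1,-1,0,0,0,1,-1,0,1] (.p true [0,0,0,0,1] [1] (⟨0,[(27,0)]⟩,⟨0,
  [(26,0)]⟩) .k 1 (⟨0,[]⟩,⟨0,[]⟩) .k .k) (.Q [0,0,1,0,-1,0,0,0,1,0,0,1] (.p true [0,0,0,0,1] [] (⟨0,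
  [(28,0)]⟩,⟨0,[(27,0)]⟩) .k 0 (⟨0,[]⟩,⟨0,[]⟩) .k .k) (.Q [0,-1,0,-1,1,0,0,0,-1,1,0,-1] (.p false
  [0,0,0,0,1] [1] (⟨0,[(29,0)]⟩,⟨0,[(28,0)]⟩) .k 1 (⟨0,[]⟩,⟨0,[]⟩) .k .k) (.Q [0,0,0,0,0,-1,0,0,0,0,
  0,1] (.ed false [1,-1,0,0,1] .k) (.S ⟨1,0,[0,1],[0,0,0,0,1],[0,2],(⟨0,[(31,0)]⟩,⟨0,[(30,0)]⟩),⟨0,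
  [(0,0)]⟩,.k,(.r 0 ⟨0,[(46,0)]⟩ ⟨9,[(13,4),(2,4),(11,2),(0,7),(15,0)]⟩),⟨true,0,⟨0,[(52,0)]⟩,⟨0,
  []⟩⟩,⟨false,1,⟨8,[(16,4),(12,4),(15,0),(4,1)]⟩,⟨0,[]⟩⟩,⟨false,0,⟨0,[(48,0)]⟩,⟨0,[(47,0),(2,0)]⟩⟩,
  ⟨true,0,⟨0,[(48,0)]⟩,⟨0,[(47,0)]⟩⟩,[.e ⟨false,0,⟨0,[(44,0)]⟩,⟨0,[(50,0)]⟩⟩ ⟨false,0,⟨0,[(46,0),(1,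
  0)]⟩,⟨8,[(16,4),(12,4),(15,0),(4,1)]⟩⟩,.o ⟨false,0,⟨4,[(2,3),(26,0),(15,0),(3,1)]⟩,⟨0,[(28,0)]⟩⟩,
  .o ⟨false,0,⟨4,[(2,3),(26,0),(15,0),(3,1)]⟩,⟨0,[(28,0)]⟩⟩,.a ⟨true,(-1),⟨0,[(2,0)]⟩,⟨1,[(6,0),(9,
  0),(4,0),(6,0),(3,0),(15,0)]⟩⟩ ⟨false,0,⟨0,[(46,0),(1,0)]⟩,⟨1,[(35,0),(0,0),(13,1)]⟩⟩ ⟨true,0,⟨0,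
  [(46,0),(1,0)]⟩,⟨1,[(35,0),(0,0)]⟩⟩]⟩) (.R ⟨0,false,false,false,[0,0,0,0,1],[1,0,-1,0,1],[0,1],
  (⟨0,[(31,0)]⟩,⟨0,[(30,0)]⟩),(⟨0,[(31,0),(5,0)]⟩,⟨0,[(0,0),(26,0)]⟩),⟨0,[(0,0)]⟩,.k,.k,(.r 0 ⟨0,
  [(46,0)]⟩ ⟨9,[(13,4),(2,4),(11,2),(0,7),(15,0)]⟩),.k,.k,.k,⟨true,0,⟨8,[(10,2),(10,8),(3,0),(6,0),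
  (12,0),(3,0)]⟩,⟨0,[(18,0)]⟩⟩,⟨false,0,⟨0,[(32,0)]⟩,⟨49,[(15,24),(12,13),(0,13),(5,24),(9,4),(4,0),
  (1,1)]⟩⟩,⟨false,1,⟨8,[(16,4),(12,4),(15,0),(4,1)]⟩,⟨0,[]⟩⟩,⟨true,0,⟨0,[(24,0)]⟩,⟨0,[(17,0),(30,
  0)]⟩⟩,⟨false,0,⟨0,[]⟩,⟨0,[]⟩⟩,⟨false,0,⟨0,[]⟩,⟨0,[]⟩⟩,[.o ⟨false,(-1),⟨5,[(2,5),(1,0),(1,4),(3,0),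
  (21,3),(12,0),(2,2)]⟩,⟨2,[(16,1),(4,1),(6,0),(4,0),(11,0),(4,0)]⟩⟩,.e ⟨false,1,⟨1,[(28,0),(0,0),
  (19,0)]⟩,⟨0,[]⟩⟩ ⟨false,0,⟨0,[(6,1),(3,0),(10,0),(26,1),(1,0)]⟩,⟨8,[(16,0),(12,0),(3,8),(11,1),(4,
  3)]⟩⟩,.o ⟨false,0,⟨4,[(2,3),(26,0),(15,0),(3,1)]⟩,⟨0,[(28,0)]⟩⟩,.a ⟨true,(-1),⟨0,[(2,0)]⟩,⟨1,[(6,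
  0),(9,0),(4,0),(6,0),(3,0),(15,0)]⟩⟩ ⟨true,0,⟨0,[(46,0),(1,0)]⟩,⟨1,[(35,0),(0,0)]⟩⟩ ⟨false,0,⟨0,
  [(6,1),(3,0),(10,0),(26,1),(1,0)]⟩,⟨9,[(13,4),(6,2),(1,6),(22,1),(4,5)]⟩⟩]⟩)) (.R ⟨2,true,false,
  false,[0,1],[1,0,0,0,-1],[1,1,1],(⟨0,[]⟩,⟨0,[]⟩),(⟨0,[(29,0)]⟩,⟨0,[(30,0)]⟩),⟨0,[]⟩,.k,.k,.k,(.r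
  0 ⟨1,[(12,0),(38,2)]⟩ ⟨17,[(5,5),(2,5),(15,0),(6,3),(12,0),(3,3),(0,11)]⟩),.k,.k,⟨true,(-1),⟨0,
  [(11,0),(33,0)]⟩,⟨0,[(49,0)]⟩⟩,⟨false,1,⟨0,[(15,0),(35,0)]⟩,⟨33,[(0,31),(1,1),(2,9),(2,9),(22,9),
  (12,1),(3,6),(0,22)]⟩⟩,⟨true,0,⟨0,[(46,0)]⟩,⟨0,[(47,0)]⟩⟩,⟨false,2,⟨0,[(15,0),(30,0),(2,0)]⟩,⟨0,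
  [(0,0)]⟩⟩,⟨false,0,⟨0,[]⟩,⟨8,[(15,4),(12,4),(15,0),(4,1)]⟩⟩,⟨true,1,⟨0,[(15,0)]⟩,⟨61,[(0,24),(1,
  31),(8,6),(16,4),(14,13),(0,0)]⟩⟩,[]⟩)) (.Q [0,0,0,0,0,-1,0,0,0,1,0,-1] (.ed true [0,1,0,0,1] .k)
  (.S ⟨1,0,[0,-1],[1,0,0,0,-1],[],(⟨0,[(29,0)]⟩,⟨0,[(30,0)]⟩),⟨0,[(0,0)]⟩,.k,(.r (-1) ⟨17,[(5,5),(2,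
  5),(15,0),(6,3),(12,0),(3,3),(0,11)]⟩ ⟨1,[(12,0),(38,2)]⟩),⟨true,0,⟨0,[(51,0)]⟩,⟨0,[]⟩⟩,⟨false,1,
  ⟨8,[(15,4),(12,4),(15,0),(4,1)]⟩,⟨0,[]⟩⟩,⟨false,0,⟨0,[(47,0)]⟩,⟨0,[(46,0),(2,0)]⟩⟩,⟨true,0,⟨0,
  [(47,0)]⟩,⟨0,[(46,0)]⟩⟩,[.e ⟨false,1,⟨1,[(27,0),(0,0),(19,0)]⟩,⟨0,[]⟩⟩ ⟨false,1,⟨1,[(48,0),(0,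
  0)]⟩,⟨0,[(51,0)]⟩⟩,.o ⟨false,2,⟨8,[(15,9),(12,0),(15,1),(4,3)]⟩,⟨0,[(2,0),(44,0)]⟩⟩,.o ⟨false,1,
  ⟨0,[(27,0)]⟩,⟨0,[(2,0),(44,0),(1,0)]⟩⟩,.a ⟨true,0,⟨0,[(1,0),(8,0)]⟩,⟨0,[(2,0),(2,1),(3,0),(10,1),
  (26,2),(1,1)]⟩⟩ ⟨false,1,⟨1,[(48,0),(0,0)]⟩,⟨1,[(34,0),(0,0)]⟩⟩ ⟨true,1,⟨1,[(48,0),(0,0)]⟩,⟨0,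
  [(11,0),(33,0)]⟩⟩]⟩) (.K ⟨0,[0,0,-1,0,1],(-1),(-1),(⟨1,[(0,1),(5,0),(29,0)]⟩,⟨0,[(29,0),(7,0)]⟩),
  .k,(.r 0 ⟨0,[(5,0)]⟩ ⟨17,[(12,8),(2,0),(8,8),(3,0),(3,17),(11,1),(4,12)]⟩),(.r 0 ⟨0,[(18,0),(32,
  0)]⟩ ⟨5,[(19,5),(4,0),(6,3),(12,0),(3,0),(0,2)]⟩),.k,.k,[⟨0,[(1,0),(1,0),(1,0),(13,0),(0,0),(28,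
  0)]⟩,⟨0,[(0,0),(5,0),(0,0)]⟩,⟨0,[(20,0),(6,0)]⟩,⟨14,[(2,8),(0,6),(1,4),(3,0),(13,2),(4,5),(2,9),
  (12,0)]⟩]⟩))) (.S ⟨1,0,[0,2,0,0,0,0,0,-1],[1,0,-1,0,1],[1,1,0,-1,0,0,0,-1],(⟨0,[(28,0),(5,0)]⟩,⟨0,
  [(0,0),(2,0),(1,0),(8,0),(21,0),(8,0)]⟩),⟨1,[(4,0),(23,1),(5,0)]⟩,.k,(.r 0 ⟨0,[(3,0)]⟩ ⟨17,[(10,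
  8),(2,0),(8,8),(3,0),(3,17),(11,1),(4,12)]⟩),⟨false,1,⟨0,[(44,0),(2,0)]⟩,⟨0,[(45,0)]⟩⟩,⟨true,0,⟨0,
  [(49,0)]⟩,⟨0,[]⟩⟩,⟨true,0,⟨0,[]⟩,⟨0,[(49,0)]⟩⟩,⟨false,0,⟨0,[(45,0)]⟩,⟨0,[(44,0),(2,0)]⟩⟩,[.o
  ⟨false,(-1),⟨7,[(1,0),(1,10),(0,2),(0,5),(1,2),(6,3),(11,1),(1,5),(5,2),(7,0),(2,12)]⟩,⟨2,[(0,2),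
  (13,0),(2,0),(1,0),(22,0),(4,0)]⟩⟩,.e ⟨false,1,⟨1,[(3,0),(8,0),(8,0),(22,0),(2,0)]⟩,⟨7,[(7,1),(10,
  7),(3,0),(6,1),(12,0),(2,7)]⟩⟩ ⟨false,0,⟨0,[(3,0),(41,0)]⟩,⟨9,[(18,3),(3,4),(7,5),(11,0),(4,7)]⟩⟩,
  .o ⟨false,0,⟨8,[(7,2),(14,0),(3,8),(2,0),(12,0),(3,0)]⟩,⟨1,[(0,1),(0,0),(1,2),(3,0),(9,0),(0,2),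
  (23,0)]⟩⟩,.a ⟨true,(-1),⟨1,[(4,0),(0,1),(22,1),(5,0)]⟩,⟨0,[(0,0),(2,0),(10,0),(30,0)]⟩⟩ ⟨true,0,
  ⟨0,[(11,0)]⟩,⟨9,[(7,1),(2,3),(7,5),(3,2),(7,3),(11,0),(2,1)]⟩⟩ ⟨false,0,⟨0,[(3,0),(41,0)]⟩,⟨9,
  [(10,4),(6,8),(1,0),(2,4),(19,0),(4,7)]⟩⟩]⟩))) (.Q [0,0,1,0,-1,0,0,0,1,0,0,1] (.p true [0,0,0,0,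
  1] [] (⟨0,[(26,0)]⟩,⟨0,[(25,0)]⟩) .k 0 (⟨0,[]⟩,⟨0,[]⟩) .k .k) (.Q [0,0,-2,0,0,0,-1,0,1,0,-1,1]
  (.p false [0,0,1] [0,0,0,0,1] (⟨0,[(34,0)]⟩,⟨0,[(33,0)]⟩) .k 2 (⟨0,[(27,0)]⟩,⟨0,[(26,0)]⟩) .k (.r
  (-1) ⟨9,[(17,3),(3,4),(7,5),(11,0),(4,7)]⟩ ⟨2,[(2,0),(11,0),(0,0),(24,0)]⟩)) (.Q [0,1,-1,0,-1,0,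
  -1,0,1,0,-1,1] (.p false [0,0,1] [0,0,0,0,1] (⟨0,[(35,0)]⟩,⟨0,[(34,0)]⟩) .k 2 (⟨0,[(28,0)]⟩,⟨0,
  [(27,0)]⟩) .k (.r (-1) ⟨9,[(18,3),(3,4),(7,5),(11,0),(4,7)]⟩ ⟨2,[(3,0),(11,0),(0,0),(24,0)]⟩))
  (.R ⟨0,false,false,true,[0,-1,1],[0,0,0,0,1],[],(⟨0,[(25,0)]⟩,⟨0,[(3,0),(36,0)]⟩),(⟨0,[(29,0)]⟩,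
  ⟨0,[(28,0)]⟩),⟨0,[(3,0)]⟩,.k,.k,(.r (-1) ⟨5,[(7,5),(15,0),(6,3),(12,0),(3,3)]⟩ ⟨1,[(11,0),(5,1),
  (32,0)]⟩),(.r (-1) ⟨5,[(18,5),(4,0),(6,3),(12,0),(3,0),(0,2)]⟩ ⟨0,[(17,0),(32,0)]⟩),.k,.k,⟨true,1,
  ⟨0,[(48,0)]⟩,⟨0,[(10,0),(33,0)]⟩⟩,⟨false,0,⟨0,[(1,0)]⟩,⟨0,[(26,0),(6,0)]⟩⟩,⟨true,0,⟨0,[(17,0)]⟩,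
  ⟨0,[(15,0),(14,0)]⟩⟩,⟨false,(-1),⟨0,[(0,0),(16,0)]⟩,⟨4,[(14,4),(3,3),(1,0),(22,0),(4,2)]⟩⟩,⟨false,
  0,⟨0,[]⟩,⟨0,[]⟩⟩,⟨false,0,⟨0,[]⟩,⟨0,[]⟩⟩,[.o ⟨false,(-1),⟨38,[(0,23),(1,14),(1,9),(5,19),(2,13),
  (1,9),(26,6),(0,2)]⟩,⟨8,[(14,9),(12,0),(15,1),(4,3)]⟩⟩,.a ⟨true,(-1),⟨0,[(0,0),(32,0)]⟩,⟨0,[(14,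
  0)]⟩⟩ ⟨false,1,⟨1,[(47,0),(0,0)]⟩,⟨0,[(50,0)]⟩⟩ ⟨true,(-1),⟨0,[(0,0)]⟩,⟨1,[(4,1),(4,2),(4,1),(4,
  1),(23,0),(2,1),(1,0)]⟩⟩,.e ⟨false,1,⟨8,[(14,4),(12,4),(15,0),(4,1)]⟩,⟨0,[]⟩⟩ ⟨false,(-1),⟨0,[(0,
  0)]⟩,⟨8,[(14,9),(12,0),(5,8),(9,1),(4,3)]⟩⟩,.o ⟨false,0,⟨1,[(4,1),(4,2),(9,1),(23,0),(2,1),(1,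
  0)]⟩,⟨5,[(23,0),(6,3),(12,0),(3,3)]⟩⟩]⟩) (.R ⟨0,false,false,true,[0,-1,1],[0,0,0,0,1],[],(⟨0,[(25,
  0)]⟩,⟨0,[(3,0),(36,0)]⟩),(⟨0,[(29,0)]⟩,⟨0,[(28,0)]⟩),⟨0,[(3,0)]⟩,.k,.k,(.r (-1) ⟨5,[(7,5),(15,0),
  (6,3),(12,0),(3,3)]⟩ ⟨1,[(11,0),(5,1),(32,0)]⟩),(.r (-1) ⟨5,[(18,5),(4,0),(6,3),(12,0),(3,0),(0,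
  2)]⟩ ⟨0,[(17,0),(32,0)]⟩),.k,.k,⟨true,1,⟨0,[(48,0)]⟩,⟨0,[(10,0),(33,0)]⟩⟩,⟨false,0,⟨0,[(1,0)]⟩,⟨0,
  [(0,0),(49,0)]⟩⟩,⟨true,0,⟨0,[(17,0)]⟩,⟨0,[(15,0),(14,0)]⟩⟩,⟨false,(-1),⟨16,[(1,6),(0,9),(1,12),(3,
  4),(1,3),(6,3),(25,0),(2,21)]⟩,⟨4,[(14,4),(3,3),(1,0),(22,0),(4,2)]⟩⟩,⟨false,0,⟨0,[]⟩,⟨0,[]⟩⟩,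
  ⟨false,0,⟨0,[]⟩,⟨0,[]⟩⟩,[.o ⟨false,(-1),⟨12,[(1,6),(0,5),(1,8),(3,0),(1,7),(4,8),(27,0),(2,9)]⟩,
  ⟨8,[(14,9),(12,0),(15,1),(4,3)]⟩⟩,.e ⟨false,1,⟨1,[(47,0),(0,0)]⟩,⟨0,[(50,0)]⟩⟩ ⟨false,0,⟨43,[(1,
  33),(6,1),(14,2),(3,9),(14,21),(0,0)]⟩,⟨0,[(0,0)]⟩⟩,.a ⟨true,0,⟨0,[(33,0)]⟩,⟨0,[(30,0)]⟩⟩ ⟨false,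
  1,⟨8,[(14,4),(12,4),(15,0),(4,1)]⟩,⟨0,[]⟩⟩ ⟨true,(-1),⟨0,[(1,0),(8,0),(33,0)]⟩,⟨0,[(0,0)]⟩⟩,.o
  ⟨false,0,⟨5,[(0,3),(1,3),(1,0),(5,1),(4,0),(17,0),(9,0)]⟩,⟨5,[(23,0),(6,3),(12,0),(3,3)]⟩⟩]⟩))
  (.K ⟨0,[0,0,0,0,1],(-1),(-1),(⟨0,[(28,0)]⟩,⟨0,[(27,0)]⟩),.k,(.r 0 ⟨0,[(43,0)]⟩ ⟨9,[(10,4),(2,4),
  (11,2),(0,7),(15,0)]⟩),(.r 0 ⟨1,[(10,0),(38,2)]⟩ ⟨17,[(3,5),(2,5),(15,0),(6,3),(12,0),(3,3),(0,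
  11)]⟩),.k,.k,[⟨0,[(0,0),(45,0)]⟩,⟨0,[(1,0)]⟩,⟨0,[(25,0)]⟩,⟨0,[(1,0),(39,0)]⟩]⟩)) (.S ⟨1,0,[0,-1],
  [1,0,0,0,-1],[1,0,0,-1],(⟨0,[(26,0)]⟩,⟨0,[(27,0)]⟩),⟨15,[(0,1),(0,1),(0,9),(1,1),(0,9),(0,3),(0,
  2),(18,13),(8,21),(5,0),(2,29),(1,4)]⟩,.k,(.r (-1) ⟨17,[(2,5),(2,5),(15,0),(6,3),(12,0),(3,3),(0,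
  11)]⟩ ⟨1,[(9,0),(38,2)]⟩),⟨true,0,⟨0,[(43,0)]⟩,⟨0,[(44,0)]⟩⟩,⟨false,1,⟨8,[(12,4),(12,4),(15,0),(4,
  1)]⟩,⟨0,[]⟩⟩,⟨false,0,⟨0,[]⟩,⟨8,[(12,4),(12,4),(15,0),(4,1)]⟩⟩,⟨true,0,⟨0,[(44,0)]⟩,⟨0,[(43,0)]⟩⟩,
  [.e ⟨false,1,⟨1,[(43,1),(1,0),(0,0)]⟩,⟨0,[(44,0)]⟩⟩ ⟨false,1,⟨1,[(45,0),(0,0)]⟩,⟨0,[(48,0)]⟩⟩,.o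
  ⟨false,2,⟨8,[(12,9),(12,0),(15,1),(4,3)]⟩,⟨14,[(1,13),(0,22),(0,0),(0,14),(0,15),(0,3),(0,1),(5,
  6),(13,14),(7,40),(5,2),(2,61)]⟩⟩,.o ⟨false,1,⟨0,[(24,0)]⟩,⟨3,[(1,2),(0,3),(0,0),(0,3),(0,2),(10,
  0),(10,3),(7,7),(5,0),(2,10),(1,1)]⟩⟩,.a ⟨true,0,⟨0,[(0,0),(6,0)]⟩,⟨7,[(1,6),(0,11),(0,0),(0,7),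
  (11,10),(0,0),(9,7),(0,3),(6,19),(5,0),(2,22),(1,5)]⟩⟩ ⟨false,1,⟨17,[(2,5),(2,5),(15,0),(6,3),(12,
  0),(3,3),(0,11)]⟩,⟨1,[(9,0),(38,0)]⟩⟩ ⟨true,1,⟨1,[(45,0),(0,0)]⟩,⟨0,[(8,0),(33,0)]⟩⟩]⟩)))) (.I [0,
  -1,-2,-1,1,0,0,1] (.S ⟨1,0,[0,1,-1,-1,0,0,0,1],[0,-1,1],[0,0,-1,-1,0,0,0,1],(⟨0,[(21,0)]⟩,⟨1,[(1,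
  0),(29,2)]⟩),⟨20,[(1,1),(1,15),(0,7),(0,3),(2,15),(12,18),(11,26),(5,1),(2,47),(1,7)]⟩,.k,(.r
  (-1) ⟨0,[(0,0),(40,0)]⟩ ⟨1,[(7,0),(5,1),(32,0)]⟩),⟨false,1,⟨8,[(10,4),(12,4),(15,0),(4,1)]⟩,⟨0,
  []⟩⟩,⟨true,0,⟨0,[(46,0)]⟩,⟨0,[]⟩⟩,⟨true,0,⟨0,[(42,0)]⟩,⟨0,[(41,0)]⟩⟩,⟨false,0,⟨0,[(42,0)]⟩,⟨0,
  [(41,0),(2,0)]⟩⟩,[.o ⟨false,0,⟨0,[(11,0)]⟩,⟨4,[(7,0),(5,2),(4,1),(7,2),(12,0),(3,0),(0,1)]⟩⟩,.e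
  ⟨false,1,⟨0,[(0,0)]⟩,⟨0,[(13,0),(32,0)]⟩⟩ ⟨false,1,⟨27,[(0,17),(15,9),(2,4),(18,3),(0,0),(3,7)]⟩,
  ⟨0,[(13,0)]⟩⟩,.a ⟨true,0,⟨0,[(29,0)]⟩,⟨0,[(26,0)]⟩⟩ ⟨false,1,⟨19,[(0,9),(13,3),(1,5),(2,4),(19,0),
  (4,7)]⟩,⟨0,[(13,0)]⟩⟩ ⟨true,0,⟨0,[(11,0),(14,0)]⟩,⟨0,[(13,0)]⟩⟩,.o ⟨false,0,⟨1,[(5,2),(2,1),(6,1),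
  (23,0),(2,1),(1,0)]⟩,⟨5,[(19,0),(6,3),(12,0),(3,3)]⟩⟩]⟩) (.I [0,0,1,0,-1,1,-1,0,1] (.I [1,-1,1,1,
  0,0,0,1] (.N [0,1,1,0,-1] 0 ⟨0,[(0,0)]⟩ ⟨0,[(10,0)]⟩ (.x (-2) ⟨0,[(11,0),(10,0),(1,0),(2,0)]⟩ ⟨0,
  [(1,0)]⟩)) (.Q [0,0,1,0,0,0,0,0,-1,1,0,-1] (.p false [0,0,0,0,1] [1] (⟨0,[(27,0)]⟩,⟨0,[(26,0)]⟩)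
  .k 1 (⟨0,[]⟩,⟨0,[]⟩) .k .k) (.Q [0,0,-1,0,1,0,2,0,1,-2,2,1] (.p true [0,0,0,0,1] [2,0,-2] (⟨0,
  [(28,0)]⟩,⟨0,[(27,0)]⟩) .k 2 (⟨0,[(34,1)]⟩,⟨40,[(1,19),(1,3),(0,42),(1,23),(0,11),(16,38),(11,46),
  (5,1),(2,63),(1,11)]⟩) .k (.r 0 ⟨4,[(7,1),(6,0),(3,4),(3,1),(6,1),(0,3),(11,0),(2,0)]⟩ ⟨0,[(11,0),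
  (4,0),(30,0)]⟩)) (.Q [0,0,0,0,0,-1,0,0,0,1,0,-1] (.ed true [0,1,0,0,1] .k) (.Q [0,2,0,0,-1,0,0,0,
  1,-1,0,1] (.p true [0,0,0,0,1] [1] (⟨0,[(30,0)]⟩,⟨0,[(29,0)]⟩) .k 1 (⟨0,[]⟩,⟨0,[]⟩) .k .k) (.S ⟨1,
  0,[0,-1],[1,0,0,0,-1],[],(⟨0,[(30,0)]⟩,⟨0,[(31,0)]⟩),⟨0,[(1,0)]⟩,.k,(.r (-1) ⟨17,[(9,5),(4,5),(10,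
  0),(6,3),(12,0),(3,3),(0,11)]⟩ ⟨1,[(13,0),(38,2)]⟩),⟨true,0,⟨0,[(52,0)]⟩,⟨0,[]⟩⟩,⟨false,1,⟨8,[(16,
  4),(12,4),(15,0),(4,1)]⟩,⟨0,[]⟩⟩,⟨false,0,⟨0,[(48,0)]⟩,⟨0,[(47,0),(2,0)]⟩⟩,⟨true,0,⟨0,[(48,0)]⟩,
  ⟨0,[(47,0)]⟩⟩,[.e ⟨false,1,⟨4,[(2,1),(13,1),(8,1),(18,0),(4,0)]⟩,⟨0,[]⟩⟩ ⟨false,1,⟨1,[(49,0),(0,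
  0)]⟩,⟨0,[(52,0)]⟩⟩,.o ⟨false,2,⟨8,[(16,9),(12,0),(15,1),(4,3)]⟩,⟨0,[(0,0)]⟩⟩,.o ⟨false,1,⟨0,[(28,
  0)]⟩,⟨0,[(2,0),(7,0)]⟩⟩,.a ⟨true,0,⟨0,[(3,0)]⟩,⟨0,[(2,0),(7,1),(3,1),(6,1),(26,1),(1,0)]⟩⟩ ⟨false,
  1,⟨1,[(49,0),(0,0)]⟩,⟨1,[(35,0),(0,0)]⟩⟩ ⟨true,1,⟨1,[(49,0),(0,0)]⟩,⟨0,[(0,0),(2,0)]⟩⟩]⟩) (.S ⟨1,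
  0,[],[1,0,0,0,-1],[0,-1],(⟨0,[(30,0)]⟩,⟨0,[(31,0)]⟩),⟨0,[(1,0)]⟩,.k,(.r (-1) ⟨17,[(9,5),(4,5),(10,
  0),(6,3),(12,0),(3,3),(0,11)]⟩ ⟨1,[(13,0),(38,2)]⟩),⟨false,1,⟨8,[(16,4),(12,4),(15,0),(4,1)]⟩,⟨0,
  []⟩⟩,⟨true,0,⟨0,[(52,0)]⟩,⟨0,[]⟩⟩,⟨true,0,⟨0,[(48,0)]⟩,⟨0,[(47,0)]⟩⟩,⟨false,0,⟨0,[(48,0)]⟩,⟨0,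
  [(47,0),(2,0)]⟩⟩,[.o ⟨false,1,⟨0,[(28,0)]⟩,⟨0,[(2,0),(7,0)]⟩⟩,.o ⟨false,1,⟨5,[(0,4),(2,0),(6,0),
  (3,1),(2,1),(27,0),(2,3)]⟩,⟨27,[(2,10),(3,3),(3,12),(6,3),(11,16),(14,9),(0,2)]⟩⟩,.o ⟨false,1,⟨0,
  [(28,0)]⟩,⟨0,[(2,0),(7,0)]⟩⟩,.a ⟨true,0,⟨0,[(3,0)]⟩,⟨0,[(2,0),(7,1),(3,1),(6,1),(26,1),(1,0)]⟩⟩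
  ⟨true,1,⟨1,[(49,0),(0,0)]⟩,⟨0,[(12,0),(33,0)]⟩⟩ ⟨false,1,⟨1,[(49,0),(0,0)]⟩,⟨1,[(35,0),(0,
  0)]⟩⟩]⟩)) (.R ⟨0,false,false,true,[1,0,0,0,-1],[2,-1,0,0,-1],[1,1,1],(⟨0,[(29,0)]⟩,⟨0,[(30,0)]⟩),
  (⟨0,[(29,0),(11,0)]⟩,⟨0,[(0,0)]⟩),⟨0,[(0,0)]⟩,.k,(.r (-1) ⟨17,[(8,5),(4,5),(10,0),(6,3),(12,0),(3,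
  3),(0,11)]⟩ ⟨1,[(12,0),(38,2)]⟩),(.r (-1) ⟨17,[(8,5),(4,5),(10,0),(6,3),(12,0),(3,3),(0,11)]⟩ ⟨1,
  [(12,0),(38,2)]⟩),.k,.k,.k,⟨true,(-1),⟨0,[(11,0)]⟩,⟨17,[(8,5),(4,5),(10,0),(6,3),(12,0),(3,3),(0,
  11)]⟩⟩,⟨false,0,⟨1,[(6,0),(29,0),(4,1)]⟩,⟨10,[(1,0),(22,0),(2,0),(16,1),(3,4)]⟩⟩,⟨true,(-1),⟨0,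
  [(11,0),(33,0)]⟩,⟨1,[(48,0),(0,0)]⟩⟩,⟨false,0,⟨3,[(6,0),(1,1),(14,1),(12,0),(4,1)]⟩,⟨4,[(12,0),
  (31,0),(2,2),(0,0),(0,1)]⟩⟩,⟨false,0,⟨0,[]⟩,⟨0,[]⟩⟩,⟨false,0,⟨0,[]⟩,⟨0,[]⟩⟩,[.e ⟨false,0,⟨0,[(51,
  0)]⟩,⟨1,[(48,0),(0,0)]⟩⟩ ⟨false,0,⟨0,[(9,0),(3,1),(6,1),(26,0),(1,0)]⟩,⟨43,[(1,8),(10,21),(11,8),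
  (2,8),(15,10),(0,6),(3,11)]⟩⟩,.o ⟨false,1,⟨28,[(2,2),(5,9),(0,4),(3,8),(1,25),(1,0),(26,0),(4,
  5)]⟩,⟨24,[(1,24),(7,29),(1,2),(1,9),(2,9),(26,0),(0,3),(2,41)]⟩⟩,.o ⟨false,1,⟨0,[(27,0)]⟩,⟨0,[(1,
  0),(7,0)]⟩⟩,.a ⟨true,0,⟨0,[(2,0)]⟩,⟨2,[(0,1),(0,0),(2,1),(8,1),(6,1),(4,1),(5,1),(6,1),(8,1),(1,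
  0)]⟩⟩ ⟨false,0,⟨0,[]⟩,⟨8,[(15,4),(12,4),(15,0),(4,1)]⟩⟩ ⟨true,0,⟨0,[(9,0),(3,1),(6,1),(26,0),(1,
  0)]⟩,⟨9,[(11,3),(0,2),(30,3),(0,1),(6,0)]⟩⟩]⟩)) (.Q [0,0,0,0,1,0,1,0,-1,-1,1,-1] (.p false [1,0,
  -1,0,1] [] (⟨0,[(29,0),(5,0)]⟩,⟨150,[(0,47),(1,127),(0,47),(0,15),(0,98),(12,143),(6,3),(2,102),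
  (8,241),(5,19),(2,255),(1,71)]⟩) .k 0 (⟨0,[]⟩,⟨0,[]⟩) .k (.r 0 ⟨2,[(12,0),(3,0),(0,0),(24,0)]⟩ ⟨9,
  [(19,3),(3,4),(7,5),(11,0),(4,7)]⟩)) (.S ⟨1,0,[0,1,0,0,0,0,0,-1],[1,0,-1,0,1],[1,2,0,-1,0,0,0,-1],
  (⟨0,[(30,0),(5,0)]⟩,⟨16,[(0,7),(0,3),(1,11),(0,11),(1,4),(13,11),(8,4),(8,21),(8,11),(0,1),(0,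
  5)]⟩),⟨0,[(25,0),(4,0)]⟩,.k,(.x 1 ⟨0,[(4,0)]⟩ ⟨0,[(14,0),(10,0),(1,0),(2,0)]⟩),⟨true,0,⟨0,[(46,
  0)]⟩,⟨0,[(47,0)]⟩⟩,⟨false,1,⟨8,[(15,4),(12,4),(15,0),(4,1)]⟩,⟨0,[]⟩⟩,⟨false,0,⟨0,[]⟩,⟨8,[(15,4),
  (12,4),(15,0),(4,1)]⟩⟩,⟨true,0,⟨0,[(47,0)]⟩,⟨0,[(46,0)]⟩⟩,[.e ⟨false,0,⟨3,[(13,2),(3,0),(25,1),(2,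
  0)]⟩,⟨12,[(9,2),(2,1),(7,12),(10,6),(12,1),(2,8),(1,11)]⟩⟩ ⟨false,0,⟨0,[(13,0),(33,0)]⟩,⟨9,[(20,
  3),(3,4),(7,5),(11,0),(4,7)]⟩⟩,.o ⟨false,0,⟨7,[(4,1),(0,0),(3,2),(3,6),(11,1),(2,5),(1,1),(13,0),
  (2,5),(1,3)]⟩,⟨79,[(0,43),(0,21),(18,79),(6,13),(16,15),(3,10),(0,0),(1,1)]⟩⟩,.o ⟨false,0,⟨8,[(9,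
  2),(14,0),(3,8),(2,0),(12,0),(3,0)]⟩,⟨0,[(0,0)]⟩⟩,.a ⟨true,(-1),⟨0,[(4,0),(20,0),(4,0)]⟩,⟨5,[(0,
  3),(0,1),(11,5),(6,5),(26,5),(0,0),(0,2)]⟩⟩ ⟨false,0,⟨0,[(13,0)]⟩,⟨9,[(12,4),(7,8),(3,4),(7,0),
  (11,0),(4,7)]⟩⟩ ⟨true,0,⟨0,[(13,0),(33,0)]⟩,⟨1,[(12,0),(3,0),(2,0),(4,0)]⟩⟩]⟩) (.S ⟨1,0,[],[1,0,0,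
  0,-1],[0,-1],(⟨0,[(29,0)]⟩,⟨0,[(30,0)]⟩),⟨160,[(1,23),(1,63),(0,23),(0,7),(2,71),(16,25),(0,1),(2,
  136),(8,156),(5,9),(2,199),(1,35)]⟩,.k,(.r (-1) ⟨17,[(8,5),(4,5),(10,0),(6,3),(12,0),(3,3),(0,
  11)]⟩ ⟨1,[(12,0),(38,2)]⟩),⟨false,1,⟨8,[(15,4),(12,4),(15,0),(4,1)]⟩,⟨0,[]⟩⟩,⟨true,0,⟨0,[(51,0)]⟩,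
  ⟨0,[]⟩⟩,⟨true,0,⟨0,[(47,0)]⟩,⟨0,[(46,0)]⟩⟩,⟨false,0,⟨0,[(47,0)]⟩,⟨0,[(46,0),(2,0)]⟩⟩,[.o ⟨false,1,
  ⟨0,[(27,0)]⟩,⟨2,[(0,2),(4,0),(7,0),(0,0),(5,1),(23,0),(4,0)]⟩⟩,.o ⟨false,1,⟨2,[(1,2),(3,0),(7,3),
  (0,0),(5,4),(23,0),(2,2),(1,3)]⟩,⟨9,[(0,2),(4,1),(8,0),(1,1),(11,6),(14,2),(0,1)]⟩⟩,.o ⟨false,1,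
  ⟨0,[(27,0)]⟩,⟨2,[(0,2),(4,0),(7,0),(0,0),(5,1),(23,0),(4,0)]⟩⟩,.a ⟨true,0,⟨0,[(2,0)]⟩,⟨0,[(0,0),
  (13,0)]⟩⟩ ⟨true,1,⟨1,[(48,0),(0,0)]⟩,⟨7,[(0,0),(0,0),(9,5),(1,2),(2,2),(26,1)]⟩⟩ ⟨false,1,⟨1,[(48,
  0),(0,0)]⟩,⟨1,[(34,0),(0,0)]⟩⟩]⟩))) (.R ⟨0,false,false,false,[1,-1,-1],[1,0,0,0,-1],[1,1,1],(⟨0,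
  [(23,0)]⟩,⟨0,[(4,0),(34,0)]⟩),(⟨0,[(27,0)]⟩,⟨0,[(28,0)]⟩),⟨0,[(4,0)]⟩,.k,.k,(.r (-1) ⟨17,[(6,5),
  (4,23),(10,0),(6,3),(12,0),(3,3),(0,11)]⟩ ⟨9,[(7,1),(2,8),(7,0),(3,2),(7,8),(11,0),(2,1)]⟩),(.x 1
  ⟨0,[(2,0)]⟩ ⟨0,[(12,0),(10,0),(1,0),(2,0)]⟩),.k,.k,⟨true,(-1),⟨0,[(9,0),(33,0)]⟩,⟨0,[(47,0)]⟩⟩,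
  ⟨false,2,⟨1,[(11,0),(0,0),(0,0),(4,0),(6,0),(19,0),(0,0)]⟩,⟨29,[(0,23),(6,14),(0,18),(17,5),(15,
  1),(5,0)]⟩⟩,⟨true,(-1),⟨19,[(7,9),(1,13),(0,0),(7,12),(11,6),(11,1),(2,3)]⟩,⟨1,[(11,1),(34,0),(0,
  0)]⟩⟩,⟨false,2,⟨4,[(10,0),(2,4),(4,4),(23,0),(2,2),(0,0),(0,1)]⟩,⟨3,[(0,3),(6,1),(0,1),(2,2),(3,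
  0),(28,0)]⟩⟩,⟨false,0,⟨0,[]⟩,⟨0,[]⟩⟩,⟨false,0,⟨0,[]⟩,⟨0,[]⟩⟩,[.a ⟨true,1,⟨0,[(13,0)]⟩,⟨1,[(0,1),
  (7,0),(0,0),(1,0),(6,0),(10,0)]⟩⟩ ⟨false,0,⟨0,[(49,0)]⟩,⟨1,[(46,0),(0,0)]⟩⟩ ⟨true,2,⟨0,[(12,0),(0,
  0)]⟩,⟨0,[(0,0),(2,0),(3,0),(9,0)]⟩⟩,.o ⟨false,2,⟨8,[(13,9),(12,0),(15,1),(4,3)]⟩,⟨0,[(0,0),(8,0),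
  (33,0)]⟩⟩,.o ⟨false,0,⟨0,[(33,0)]⟩,⟨0,[(12,0)]⟩⟩,.e ⟨false,0,⟨0,[]⟩,⟨8,[(13,4),(12,4),(15,0),(4,
  1)]⟩⟩ ⟨false,3,⟨1,[(12,1),(0,1),(32,0),(0,0)]⟩,⟨0,[(0,0),(2,0),(3,0),(9,0)]⟩⟩]⟩))) (.Q [0,-1,-2,0,
  2,0,2,1,-1,-1,2,-1] (.p false [0,0,0,0,1] [-1,0,2] (⟨0,[(26,0)]⟩,⟨0,[(25,0)]⟩) .k 2 (⟨30,[(1,3),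
  (0,32),(1,23),(0,11),(3,19),(12,28),(11,36),(5,1),(2,63),(1,11)]⟩,⟨0,[(32,1)]⟩) .k (.r 0 ⟨0,[(9,
  0),(4,0)]⟩ ⟨4,[(16,8),(3,4),(7,0),(11,0),(4,2)]⟩)) (.Q [0,1,0,-1,-1,0,-2,-2,1,1,-2,1] (.p false
  [0,0,1] [1,0,-1,0,1] (⟨0,[(34,0)]⟩,⟨0,[(33,0)]⟩) .k 2 (⟨0,[(27,0),(5,0)]⟩,⟨1,[(0,1),(1,0),(1,1),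
  (1,0),(3,0),(11,0),(0,0)]⟩) .k (.r (-1) ⟨4,[(17,8),(3,4),(7,0),(11,0),(4,2)]⟩ ⟨0,[(10,0),(4,
  0)]⟩)) (.R ⟨0,false,false,true,[1,-1,-1],[0,0,1,0,-1],[1,0,1],(⟨0,[(23,0)]⟩,⟨0,[(4,0),(34,0)]⟩),
  (⟨1,[(1,1),(1,0),(1,1),(1,0),(3,0),(11,0),(0,0)]⟩,⟨0,[(28,0),(5,0)]⟩),⟨0,[(4,0)]⟩,.k,.k,(.r (-1)
  ⟨17,[(0,7),(0,7),(4,5),(4,15),(10,0),(6,3),(12,0),(4,7)]⟩ ⟨9,[(7,1),(2,8),(7,0),(3,2),(7,8),(11,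
  0),(2,1)]⟩),(.r (-1) ⟨7,[(0,3),(10,2),(0,7),(0,3),(1,4),(25,1),(2,0)]⟩ ⟨12,[(7,10),(2,2),(7,25),
  (10,3),(12,2),(2,6),(1,4)]⟩),.k,.k,⟨true,0,⟨0,[(15,0)]⟩,⟨8,[(7,2),(10,8),(3,0),(6,0),(12,0),(3,
  0)]⟩⟩,⟨false,2,⟨8,[(1,7),(9,3),(0,0),(3,3),(8,0),(6,0),(8,1)]⟩,⟨0,[(7,0),(18,0)]⟩⟩,⟨false,0,⟨29,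
  [(7,7),(2,25),(6,21),(0,7),(3,6),(19,2),(4,1)]⟩,⟨0,[(0,0),(0,0)]⟩⟩,⟨true,1,⟨19,[(1,19),(5,9),(1,
  13),(0,0),(7,12),(11,6),(11,1),(2,3)]⟩,⟨0,[(0,0)]⟩⟩,⟨false,0,⟨0,[]⟩,⟨0,[]⟩⟩,⟨false,0,⟨0,[]⟩,⟨0,
  []⟩⟩,[.o ⟨false,1,⟨21,[(1,15),(1,1),(3,8),(0,2),(0,5),(4,7),(10,5),(16,1),(5,0)]⟩,⟨9,[(0,4),(9,0),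
  (15,4),(15,0),(2,2),(0,0),(0,1)]⟩⟩,.e ⟨false,1,⟨8,[(13,4),(12,4),(15,0),(4,1)]⟩,⟨0,[(43,0),(1,
  0)]⟩⟩ ⟨false,2,⟨0,[(1,0)]⟩,⟨1,[(0,0),(8,0),(12,0),(3,0)]⟩⟩,.o ⟨false,0,⟨0,[(33,0)]⟩,⟨0,[(12,0)]⟩⟩,
  .a ⟨true,(-1),⟨2,[(7,0),(0,1),(24,0)]⟩,⟨0,[(0,0),(0,0),(16,0),(26,0)]⟩⟩ ⟨true,0,⟨0,[]⟩,⟨0,[(49,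
  0)]⟩⟩ ⟨false,2,⟨0,[(1,0)]⟩,⟨71,[(0,35),(6,21),(0,28),(1,17),(15,35),(6,27),(8,2),(4,8)]⟩⟩]⟩) (.K
  ⟨0,[0,1,0,0,1],0,(-1),(⟨1,[(4,0),(23,1),(5,0)]⟩,⟨56,[(0,23),(2,3),(1,23),(1,11),(3,43),(11,45),(0,
  21),(2,32),(8,12),(5,1),(2,15),(1,11)]⟩),(.r 0 ⟨1,[(10,0),(38,2)]⟩ ⟨17,[(6,5),(4,5),(10,0),(6,3),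
  (12,0),(3,3),(0,11)]⟩),.k,(.r 1 ⟨0,[(9,0),(35,0)]⟩ ⟨25,[(6,9),(4,9),(10,4),(19,0),(1,21),(1,20),
  (0,28)]⟩),(.r 0 ⟨0,[(16,0),(32,0)]⟩ ⟨5,[(17,5),(4,0),(6,3),(12,0),(3,0),(0,2)]⟩),.k,[⟨1,[(0,1),(2,
  0),(3,0),(0,0),(2,2),(35,0)]⟩,⟨0,[(26,0)]⟩,⟨38,[(3,0),(2,13),(0,6),(3,11),(1,12),(1,0),(9,25),(16,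
  3),(5,1)]⟩,⟨0,[(5,0),(5,0),(2,0),(8,0),(4,0),(16,2)]⟩]⟩)) (.Q [0,0,-1,0,1,0,2,0,1,-2,2,1] (.p
  true [0,0,1] [2,0,-1,0,-1] (⟨0,[(34,0)]⟩,⟨0,[(33,0)]⟩) .k 2 (⟨0,[(26,0),(6,0)]⟩,⟨34,[(0,15),(0,
  15),(1,46),(1,47),(0,15),(3,31),(12,3),(3,18),(7,73),(5,3),(2,127),(1,23)]⟩) .k (.r 0 ⟨4,[(6,1),
  (6,0),(3,4),(3,1),(6,1),(0,3),(11,0),(2,0)]⟩ ⟨0,[(10,0),(4,0),(30,0)]⟩)) (.R ⟨0,false,false,false,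
  [1,-1,-1],[-1,0,1,0,1],[0,1],(⟨0,[(23,0)]⟩,⟨0,[(4,0),(34,0)]⟩),(⟨1,[(0,0),(0,0),(0,1),(1,2),(1,1),
  (0,1),(3,0),(12,0),(11,2),(8,4),(1,0)]⟩,⟨0,[(27,0),(6,0)]⟩),⟨0,[(4,0)]⟩,.k,.k,(.r (-1) ⟨17,[(6,5),
  (4,23),(10,0),(6,3),(12,0),(3,3),(0,11)]⟩ ⟨9,[(7,1),(2,8),(7,0),(3,2),(7,8),(11,0),(2,1)]⟩),(.r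
  (-2) ⟨37,[(0,19),(10,26),(1,19),(1,8),(5,39),(20,3),(1,10),(2,27)]⟩ ⟨0,[(7,0),(6,0),(3,0),(26,
  1)]⟩),.k,.k,⟨false,1,⟨0,[(12,0),(8,0)]⟩,⟨7,[(7,1),(10,7),(3,0),(6,1),(12,0)]⟩⟩,⟨true,1,⟨0,[(0,
  0)]⟩,⟨9,[(2,8),(0,0),(0,5),(1,0),(0,14),(0,5),(4,0),(10,2),(2,8),(14,0),(2,0)]⟩⟩,⟨false,0,⟨9,[(7,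
  1),(2,3),(7,5),(3,2),(7,3),(11,0),(2,1)]⟩,⟨0,[(11,0),(35,0)]⟩⟩,⟨true,0,⟨0,[(0,0),(6,0),(6,0),(3,
  0),(26,1)]⟩,⟨7,[(2,5),(0,2),(0,3),(2,10),(0,0),(2,12),(1,1),(10,1),(2,5),(17,1),(1,6)]⟩⟩,⟨false,0,
  ⟨0,[]⟩,⟨0,[]⟩⟩,⟨false,0,⟨0,[]⟩,⟨0,[]⟩⟩,[.o ⟨false,0,⟨0,[(0,0),(6,0),(6,0),(30,0)]⟩,⟨10,[(2,0),(0,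
  1),(0,0),(2,5),(3,8),(1,9),(13,0),(8,0),(5,0),(2,6),(1,5)]⟩⟩,.a ⟨true,0,⟨0,[(0,0),(6,0),(10,0)]⟩,
  ⟨6,[(2,5),(1,3),(2,5),(0,3),(2,6),(1,0),(10,1),(2,5),(1,0),(15,6),(1,2)]⟩⟩ ⟨false,1,⟨1,[(25,0),(0,
  0),(19,0)]⟩,⟨0,[]⟩⟩ ⟨true,1,⟨6,[(0,5),(6,1),(10,6),(7,0),(2,0),(12,0),(3,0)]⟩,⟨4,[(2,4),(0,3),(0,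
  4),(1,2),(0,8),(0,0),(2,3),(15,4),(8,4),(8,5),(1,3)]⟩⟩,.o ⟨false,0,⟨0,[(33,0)]⟩,⟨0,[(12,0)]⟩⟩,.e
  ⟨true,0,⟨0,[(43,0),(1,0)]⟩,⟨1,[(32,0),(0,0)]⟩⟩ ⟨true,1,⟨0,[(0,0),(13,0),(14,0),(15,0)]⟩,⟨4,[(2,4),
  (0,3),(0,4),(1,2),(0,8),(0,0),(2,3),(15,4),(8,4),(8,5),(1,3)]⟩⟩]⟩) (.R ⟨0,false,false,true,[1,-1,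
  -1],[0,0,1,0,-1],[1,0,1],(⟨0,[(23,0)]⟩,⟨0,[(4,0),(34,0)]⟩),(⟨142,[(0,47),(2,15),(0,90),(0,47),(0,
  143),(4,127),(12,3),(2,94),(8,225),(5,19),(2,399),(1,71)]⟩,⟨0,[(28,0),(5,0)]⟩),⟨0,[(4,0)]⟩,.k,.k,
  (.r (-1) ⟨17,[(6,5),(4,23),(10,0),(6,3),(12,0),(3,3),(0,11)]⟩ ⟨9,[(7,1),(2,8),(7,0),(3,2),(7,8),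
  (11,0),(2,1)]⟩),(.r (-1) ⟨1,[(11,0),(0,1),(2,0),(5,1),(22,0)]⟩ ⟨12,[(7,10),(2,2),(7,25),(10,3),
  (12,2),(2,6),(1,4)]⟩),.k,.k,⟨true,0,⟨0,[(15,0)]⟩,⟨8,[(7,2),(10,8),(3,0),(6,0),(12,0),(3,0)]⟩⟩,
  ⟨false,2,⟨10,[(2,10),(1,8),(6,7),(0,2),(5,7),(5,1),(2,10),(8,4),(5,1),(2,7),(1,3)]⟩,⟨0,[(7,0),(18,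
  0)]⟩⟩,⟨false,0,⟨29,[(7,7),(2,25),(6,21),(0,7),(3,6),(19,2),(4,1)]⟩,⟨1,[(11,1),(34,0),(0,0)]⟩⟩,
  ⟨true,1,⟨49,[(0,16),(1,32),(0,0),(0,21),(4,2),(0,3),(7,100),(5,10),(2,32),(14,18),(2,37)]⟩,⟨1,[(1,
  1),(9,1),(34,0),(0,0)]⟩⟩,⟨false,0,⟨0,[]⟩,⟨0,[]⟩⟩,⟨false,0,⟨0,[]⟩,⟨0,[]⟩⟩,[.o ⟨false,1,⟨27,[(0,9),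
  (1,17),(0,1),(0,10),(5,1),(6,8),(0,20),(5,6),(2,17),(9,2),(4,10),(2,2)]⟩,⟨19,[(1,9),(9,7),(4,1),
  (9,9),(15,1),(2,5),(0,6),(0,8)]⟩⟩,.a ⟨true,1,⟨31,[(0,11),(1,19),(0,3),(0,18),(12,24),(0,10),(5,0),
  (2,19),(8,16),(5,4),(2,20),(1,17)]⟩,⟨2,[(1,1),(9,2),(6,1),(7,0),(2,0),(15,2),(1,0)]⟩⟩ ⟨false,1,⟨8,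
  [(13,4),(12,4),(15,0),(4,1)]⟩,⟨0,[(43,0),(1,0)]⟩⟩ ⟨true,2,⟨3,[(2,3),(1,2),(12,0),(0,2),(5,0),(2,
  3),(8,0),(5,0),(2,0),(1,1)]⟩,⟨0,[(1,0)]⟩⟩,.o ⟨false,0,⟨0,[(33,0)]⟩,⟨0,[(12,0)]⟩⟩,.e ⟨true,0,⟨0,
  []⟩,⟨0,[(49,0)]⟩⟩ ⟨true,2,⟨0,[(0,0),(11,2),(5,0)]⟩,⟨0,[(1,0)]⟩⟩]⟩)))))))))))

theorem ok13 : chk K t13 l14 = true := by decide +kernel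


end Helper25.S1T.Ypp_1cP2
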