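import Pool.Agent.Helper25.S1T.Ypp_1cP3_q

set_option autoImplicit false
set_option linter.all false

namespace Helper25.S1T.Ypp_1cP3

open Helper25.KG Helper25.KW Helper55.KE Helper11.CT

noncomputable def t34 : Tre :=
  (.I [0,0,1,1,0,0,0,-2] (.Q [0,0,0,0,0,2,0,0,0,0,-1] (.p false [0,0,1] [] (⟨0,[(26,0)]⟩,⟨0,[(25,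
  0)]⟩) .k 0 (⟨0,[]⟩,⟨0,[]⟩) .k .k) (.R ⟨0,false,false,true,[0,-1,1],[1,0,-1],[1,1],(⟨0,[(16,0)]⟩,
  ⟨4,[(0,1),(16,0),(0,0),(7,2),(1,0),(5,0)]⟩),(⟨0,[(26,0)]⟩,⟨0,[(27,0)]⟩),⟨0,[(0,0)]⟩,.k,.k,(.r
  (-1) ⟨11,[(5,1),(0,3),(0,5),(4,9),(0,0),(0,2),(20,1)]⟩ ⟨3,[(1,1),(22,2),(0,2),(12,5)]⟩),(.r (-1)
  ⟨1,[(2,0),(2,1),(0,0),(7,0),(23,0),(0,0)]⟩ ⟨0,[(1,0)]⟩),.k,.k,⟨true,0,⟨0,[(5,0),(32,0)]⟩,⟨1,[(2,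
  1),(1,3),(30,0),(2,3),(1,0)]⟩⟩,⟨false,0,⟨1,[(9,3),(1,0),(0,0),(21,0),(3,1)]⟩,⟨9,[(1,4),(0,9),(7,
  0),(21,2),(4,2)]⟩⟩,⟨false,0,⟨3,[(1,1),(22,0),(0,0),(12,1)]⟩,⟨1,[(5,1),(33,0),(0,0)]⟩⟩,⟨true,(-1),
  ⟨1,[(4,3),(30,0),(2,5),(1,0)]⟩,⟨0,[(2,0),(3,0)]⟩⟩,⟨false,0,⟨0,[]⟩,⟨0,[]⟩⟩,⟨false,0,⟨0,[]⟩,⟨0,[]⟩⟩,
  [.e ⟨false,0,⟨2,[(11,0),(20,0),(5,0)]⟩,⟨1,[(17,0),(0,0),(21,0)]⟩⟩ ⟨false,0,⟨2,[(1,0),(7,1),(1,1),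
  (9,2),(1,0),(14,0)]⟩,⟨0,[(2,0)]⟩⟩,.o ⟨false,0,⟨1,[(4,1),(30,0),(2,1),(1,0)]⟩,⟨5,[(2,2),(3,0),(7,
  0),(7,1),(12,1),(2,0),(0,0)]⟩⟩,.e ⟨false,0,⟨0,[]⟩,⟨1,[(17,0),(0,0),(21,0)]⟩⟩ ⟨false,0,⟨2,[(1,0),
  (2,0),(4,2),(2,0),(8,1),(16,0)]⟩,⟨0,[(2,0)]⟩⟩,.a ⟨true,0,⟨1,[(24,2),(0,0)]⟩,⟨1,[(9,1),(1,0),(0,0),
  (21,0),(3,1)]⟩⟩ ⟨true,0,⟨2,[(11,0),(20,0),(5,0)]⟩,⟨1,[(24,0),(0,0)]⟩⟩ ⟨false,0,⟨0,[(4,0),(4,0),(2,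
  0),(25,1)]⟩,⟨1,[(2,1),(21,0),(0,0)]⟩⟩]⟩) (.Q [0,0,-2,0,1,0,1,0,0,-1,1] (.p true [0,0,1] [1] (⟨0,
  [(27,0)]⟩,⟨0,[(26,0)]⟩) .k 1 (⟨0,[]⟩,⟨0,[]⟩) .k .k) (.Q [0,0,2,0,-1,0,-2,0,0,1,-2] (.p false [0,0,
  1] [1,0,-1] (⟨0,[(28,0)]⟩,⟨0,[(27,0)]⟩) .k 2 (⟨0,[(27,0)]⟩,⟨0,[(28,0)]⟩) .k (.r 0 ⟨0,[(6,1),(32,
  1)]⟩ ⟨3,[(2,3),(11,1),(3,0),(0,0),(16,0),(3,1)]⟩)) (.R ⟨0,false,false,true,[1,-1,-1],[0,0,1],[1],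
  (⟨0,[(17,0)]⟩,⟨22,[(19,2),(0,2),(8,22),(0,4),(4,5),(0,2)]⟩),(⟨0,[(29,0)]⟩,⟨0,[(28,0)]⟩),⟨2,[(2,1),
  (26,0),(0,0),(4,2)]⟩,.k,.k,(.r (-1) ⟨11,[(3,5),(8,3),(1,10),(0,1),(21,0),(1,6)]⟩ ⟨1,[(0,0),(3,0),
  (19,0),(2,0),(12,3)]⟩),(.r (-1) ⟨0,[(3,0),(10,0),(24,0)]⟩ ⟨13,[(0,4),(3,3),(2,19),(8,0),(7,3),(12,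
  0),(2,33)]⟩),.k,.k,⟨false,1,⟨3,[(3,1),(10,1),(26,0),(0,0)]⟩,⟨5,[(0,0),(7,1),(7,0),(7,3),(12,0),(2,
  1)]⟩⟩,⟨true,1,⟨0,[(1,0),(24,0)]⟩,⟨0,[(0,0)]⟩⟩,⟨true,0,⟨13,[(0,4),(3,3),(2,5),(8,0),(7,3),(12,0),
  (2,19)]⟩,⟨9,[(3,4),(8,6),(21,0),(4,0)]⟩⟩,⟨false,1,⟨0,[(4,0),(3,0),(31,1)]⟩,⟨1,[(6,3),(30,0),(2,1),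
  (1,2)]⟩⟩,⟨false,0,⟨0,[]⟩,⟨0,[]⟩⟩,⟨false,0,⟨0,[]⟩,⟨0,[]⟩⟩,[.a ⟨true,0,⟨0,[(24,0)]⟩,⟨0,[(6,0),(33,
  0),(1,0)]⟩⟩ ⟨true,0,⟨0,[]⟩,⟨6,[(0,1),(2,0),(0,1),(34,0),(4,0)]⟩⟩ ⟨false,1,⟨0,[(1,0),(22,0)]⟩,⟨3,
  [(0,2),(2,1),(10,1),(1,0),(25,0)]⟩⟩,.o ⟨false,1,⟨5,[(4,2),(3,0),(7,0),(7,1),(12,1),(2,0),(0,0)]⟩,
  ⟨1,[(6,1),(30,0),(2,1),(1,0)]⟩⟩,.o ⟨false,0,⟨0,[(27,0)]⟩,⟨14,[(1,6),(1,1),(0,3),(9,1),(19,2),(2,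
  1)]⟩⟩,.o ⟨false,0,⟨6,[(0,1),(2,0),(0,1),(22,6),(11,0),(4,0)]⟩,⟨0,[(1,0)]⟩⟩]⟩) (.Q [0,-1,-2,0,1,0,
  1,0,-1,0,1,-1] (.p true [0,0,1] [0,0,0,0,1] (⟨0,[(29,0)]⟩,⟨0,[(28,0)]⟩) .k 2 (⟨0,[(22,0)]⟩,⟨0,
  [(21,0)]⟩) .k (.r (-1) ⟨3,[(4,1),(2,1),(8,1),(23,1),(0,0),(0,0)]⟩ ⟨9,[(3,4),(8,0),(21,2),(4,
  2)]⟩)) (.R ⟨0,false,false,true,[1,-1,-1],[1,0,0,0,-1],[1],(⟨0,[(18,0)]⟩,⟨22,[(20,2),(0,2),(8,22),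
  (0,4),(4,5),(0,2)]⟩),(⟨0,[(22,0)]⟩,⟨0,[(23,0)]⟩),⟨2,[(3,1),(26,0),(0,0),(4,2)]⟩,.k,.k,(.r (-1) ⟨5,
  [(1,0),(2,1),(8,1),(1,3),(0,2),(9,1),(11,0)]⟩ ⟨0,[(8,0),(18,0),(0,0),(12,2)]⟩),(.r 0 ⟨9,[(4,4),(8,
  6),(21,0),(4,0)]⟩ ⟨0,[(5,0),(11,0),(23,0)]⟩),.k,.k,⟨true,0,⟨0,[]⟩,⟨1,[(27,0),(0,0)]⟩⟩,⟨false,1,
  ⟨13,[(0,11),(3,0),(5,0),(9,1),(4,0),(9,4)]⟩,⟨0,[(21,0),(6,0)]⟩⟩,⟨true,0,⟨1,[(8,1),(18,0),(0,0),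
  (12,3)]⟩,⟨9,[(4,4),(8,6),(21,0),(4,0)]⟩⟩,⟨false,1,⟨0,[(0,0),(7,0),(18,0),(0,0),(12,1)]⟩,⟨1,[(7,1),
  (13,1),(16,0),(4,0)]⟩⟩,⟨false,0,⟨0,[]⟩,⟨0,[]⟩⟩,⟨false,0,⟨0,[]⟩,⟨0,[]⟩⟩,[.a ⟨true,0,⟨0,[(0,0),(6,
  0),(0,0),(18,0),(0,0),(12,1)]⟩,⟨0,[(21,0)]⟩⟩ ⟨true,0,⟨0,[]⟩,⟨1,[(27,0),(0,0)]⟩⟩ ⟨false,1,⟨13,[(0,
  11),(3,0),(5,0),(9,1),(4,0),(9,4)]⟩,⟨0,[(21,0),(6,0)]⟩⟩,.e ⟨false,1,⟨1,[(42,0),(0,0)]⟩,⟨0,[(45,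
  0)]⟩⟩ ⟨false,1,⟨0,[(0,0)]⟩,⟨0,[(21,0),(6,0),(16,0)]⟩⟩,.o ⟨false,0,⟨0,[(28,0)]⟩,⟨25,[(1,8),(2,1),
  (0,3),(10,0),(18,1),(2,6),(3,5)]⟩⟩,.o ⟨false,0,⟨1,[(27,0),(0,2)]⟩,⟨0,[(2,0)]⟩⟩]⟩) (.Q [0,0,0,0,0,
  0,1,1,1,-1,1,1] (.p true [0,0,1] [1,0,0,0,-1] (⟨0,[(30,0)]⟩,⟨0,[(29,0)]⟩) .k 2 (⟨0,[(22,0)]⟩,⟨0,
  [(23,0)]⟩) .k (.r 0 ⟨1,[(9,0),(15,0),(2,0),(12,0)]⟩ ⟨15,[(4,7),(10,3),(0,1),(3,4),(0,4),(16,0),(4,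
  5)]⟩)) (.Q [0,0,0,0,0,0,0,0,0,1,-1,-1] (.ed true [0,0,1,0,1] (.r 0 ⟨1,[(10,0),(15,0),(2,0),(12,
  0)]⟩ ⟨15,[(5,7),(10,3),(0,1),(3,4),(0,4),(16,0),(4,5)]⟩)) (.Q [0,0,0,0,1,0,1,0,-1,0,1,-1] (.p
  false [1,0,-1,0,1] [1] (⟨0,[(25,0),(5,0)]⟩,⟨2,[(0,1),(4,4),(18,0),(8,0),(4,2)]⟩) .k 1 (⟨0,[]⟩,⟨0,
  []⟩) .k (.r 0 ⟨9,[(6,4),(8,0),(21,2),(4,2)]⟩ ⟨3,[(7,1),(2,1),(8,1),(23,1),(0,0),(0,0)]⟩)) (.R ⟨0,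
  false,false,false,[1,-1,-1],[1,0,-1,0,1],[1,1],(⟨0,[(21,0)]⟩,⟨55,[(0,5),(19,2),(3,5),(8,55),(0,
  10),(4,14),(0,5)]⟩),(⟨0,[(26,0),(5,0)]⟩,⟨2,[(1,1),(4,4),(18,0),(8,0),(4,2)]⟩),⟨2,[(6,1),(26,0),(0,
  0),(4,2)]⟩,.k,.k,(.r (-1) ⟨5,[(4,0),(2,1),(8,1),(1,3),(0,2),(9,1),(11,0)]⟩ ⟨0,[(11,0),(18,0),(0,
  0),(12,2)]⟩),(.r (-1) ⟨7,[(18,3),(0,1),(3,0),(0,0),(16,0),(4,1)]⟩ ⟨13,[(3,5),(3,2),(15,5),(4,5),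
  (9,0),(5,10)]⟩),.k,.k,⟨true,0,⟨0,[(11,0),(32,0)]⟩,⟨1,[(8,1),(1,3),(30,0),(2,3),(1,0)]⟩⟩,⟨false,0,
  ⟨0,[(2,0),(7,0),(7,0),(25,1)]⟩,⟨1,[(23,1),(6,0),(0,0)]⟩⟩,⟨false,0,⟨1,[(11,1),(18,0),(0,0),(12,
  3)]⟩,⟨0,[(14,0),(3,0)]⟩⟩,⟨true,(-1),⟨0,[(2,0),(7,0),(33,1)]⟩,⟨3,[(0,1),(9,1),(0,1),(11,1),(17,0),
  (4,0)]⟩⟩,⟨false,0,⟨0,[]⟩,⟨0,[]⟩⟩,⟨false,0,⟨0,[]⟩,⟨0,[]⟩⟩,[.o ⟨false,(-1),⟨1,[(2,1),(7,3),(30,0),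
  (2,3),(1,0)]⟩,⟨1,[(0,1),(10,1),(29,0),(2,1),(1,0)]⟩⟩,.a ⟨true,(-1),⟨0,[(2,0),(7,1),(33,1),(1,0)]⟩,
  ⟨0,[(0,0),(10,0),(32,0)]⟩⟩ ⟨true,0,⟨0,[]⟩,⟨1,[(30,0),(0,0)]⟩⟩ ⟨false,0,⟨0,[(2,0),(2,0),(4,1),(33,
  1),(1,0)]⟩,⟨1,[(11,1),(11,1),(6,0),(0,0),(12,1)]⟩⟩,.o ⟨false,0,⟨0,[(31,0)]⟩,⟨25,[(4,8),(2,1),(0,
  3),(10,0),(18,1),(2,6),(3,5)]⟩⟩,.o ⟨false,0,⟨1,[(30,0),(0,2)]⟩,⟨0,[(5,0)]⟩⟩]⟩) (.Q [0,0,0,0,0,1,0,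
  0,0,0,0,-1] (.ed true [1,-1,0,0,1] .k) (.R ⟨0,false,false,false,[0,0,0,0,1],[0,0,1,0,1],[1,1,1],
  (⟨0,[(27,0)]⟩,⟨0,[(26,0)]⟩),(⟨0,[(27,0),(6,0)]⟩,⟨0,[(2,0)]⟩),⟨0,[(0,0)]⟩,.k,.k,(.r 0 ⟨0,[(43,0)]⟩
  ⟨5,[(8,1),(0,3),(11,3),(2,0),(0,0),(19,3),(1,0)]⟩),.k,.k,.k,⟨true,0,⟨0,[(15,0)]⟩,⟨0,[(12,0),(32,
  0)]⟩⟩,⟨false,1,⟨19,[(5,0),(2,5),(0,5),(10,2),(8,5),(11,1),(4,14)]⟩,⟨0,[(16,0)]⟩⟩,⟨true,0,⟨1,[(31,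
  0),(0,0)]⟩,⟨2,[(18,0),(20,0),(5,0)]⟩⟩,⟨false,1,⟨0,[(29,0),(17,0)]⟩,⟨1,[(11,1),(30,0),(2,1),(1,
  0)]⟩⟩,⟨false,0,⟨0,[]⟩,⟨0,[]⟩⟩,⟨false,0,⟨0,[]⟩,⟨0,[]⟩⟩,[.e ⟨false,0,⟨13,[(4,1),(3,0),(5,0),(9,1),
  (4,0),(9,4)]⟩,⟨1,[(46,0),(0,0)]⟩⟩ ⟨false,0,⟨1,[(5,0),(5,0),(0,1),(16,0),(15,2)]⟩,⟨0,[(30,0),(16,
  0)]⟩⟩,.o ⟨false,0,⟨0,[(3,0)]⟩,⟨1,[(11,1),(12,1),(17,0),(2,1),(1,0)]⟩⟩,.o ⟨false,0,⟨42,[(1,15),(1,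
  15),(4,7),(8,1),(1,1),(0,0),(4,10),(16,13)]⟩,⟨0,[(24,0)]⟩⟩,.a ⟨true,(-1),⟨0,[(1,0),(29,0)]⟩,⟨23,
  [(10,1),(13,23),(3,1),(5,1),(0,7),(5,10),(4,6)]⟩⟩ ⟨false,0,⟨0,[]⟩,⟨1,[(24,0),(0,0),(21,0)]⟩⟩
  ⟨true,0,⟨1,[(5,0),(5,0),(0,1),(16,0),(15,2)]⟩,⟨5,[(8,1),(2,1),(20,3),(9,0),(4,0)]⟩⟩]⟩) (.S ⟨1,0,
  [0,1],[0,0,0,0,1],[0,2],(⟨0,[(27,0)]⟩,⟨0,[(26,0)]⟩),⟨0,[(0,0)]⟩,.k,(.r 0 ⟨0,[(43,0)]⟩ ⟨5,[(8,1),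
  (0,3),(11,3),(2,0),(0,0),(19,3),(1,0)]⟩),⟨true,0,⟨13,[(4,1),(3,0),(5,0),(9,1),(4,0),(9,4)]⟩,⟨0,
  []⟩⟩,⟨false,1,⟨1,[(24,0),(0,0),(21,0)]⟩,⟨0,[]⟩⟩,⟨false,0,⟨0,[(45,0)]⟩,⟨3,[(20,1),(3,0),(0,0),(16,
  0),(4,1)]⟩⟩,⟨true,0,⟨0,[(45,0)]⟩,⟨0,[(44,0)]⟩⟩,[.e ⟨false,0,⟨0,[(39,0)]⟩,⟨0,[(47,0)]⟩⟩ ⟨false,0,
  ⟨2,[(18,0),(20,0),(5,0)]⟩,⟨1,[(24,0),(0,0),(21,0)]⟩⟩,.o ⟨false,0,⟨42,[(1,15),(1,15),(4,7),(8,1),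
  (1,1),(0,0),(4,10),(16,13)]⟩,⟨0,[(24,0)]⟩⟩,.o ⟨false,0,⟨42,[(1,15),(1,15),(4,7),(8,1),(1,1),(0,0),
  (4,10),(16,13)]⟩,⟨0,[(24,0)]⟩⟩,.a ⟨true,(-1),⟨0,[(1,0),(29,0)]⟩,⟨23,[(10,1),(13,23),(3,1),(5,1),
  (0,7),(5,10),(4,6)]⟩⟩ ⟨false,0,⟨2,[(18,0),(20,0),(5,0)]⟩,⟨7,[(9,1),(5,1),(16,3),(8,0),(5,6)]⟩⟩
  ⟨true,0,⟨2,[(18,0),(20,0),(5,0)]⟩,⟨1,[(31,0),(0,0)]⟩⟩]⟩))) (.Q [0,2,0,-1,-1,0,0,0,1,-1,0,1] (.p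
  true [0,0,0,0,1] [1] (⟨0,[(25,0)]⟩,⟨0,[(24,0)]⟩) .k 1 (⟨0,[]⟩,⟨0,[]⟩) .k .k) (.Q [0,1,0,0,0,0,1,1,
  1,-2,1,1] (.p true [-1,0,1,0,1] [1] (⟨0,[(1,0)]⟩,⟨0,[(25,0),(6,0)]⟩) .k 1 (⟨0,[]⟩,⟨0,[]⟩) .k (.r
  0 ⟨1,[(12,0),(15,0),(2,0),(12,0)]⟩ ⟨15,[(7,7),(10,3),(0,1),(3,4),(0,4),(16,0),(4,5)]⟩)) (.R ⟨0,
  false,false,true,[1,-1,-1],[2,0,-1,0,-1],[1],(⟨0,[(22,0)]⟩,⟨22,[(24,2),(0,2),(8,22),(0,4),(4,5),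
  (0,2)]⟩),(⟨0,[(26,0),(6,0)]⟩,⟨0,[(2,0)]⟩),⟨2,[(7,1),(26,0),(0,0),(4,2)]⟩,.k,.k,(.r (-1) ⟨5,[(5,0),
  (2,1),(8,1),(1,3),(0,2),(9,1),(11,0)]⟩ ⟨0,[(12,0),(18,0),(0,0),(12,2)]⟩),(.r 0 ⟨0,[(43,0)]⟩ ⟨5,
  [(8,1),(0,3),(11,3),(2,0),(0,0),(19,3),(1,0)]⟩),.k,.k,⟨true,0,⟨0,[(12,0),(32,0)]⟩,⟨1,[(9,1),(1,3),
  (30,0),(2,3),(1,0)]⟩⟩,⟨false,1,⟨1,[(18,0),(0,0),(4,1),(16,0),(3,1)]⟩,⟨4,[(0,1),(0,0),(2,1),(3,0),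
  (38,2)]⟩⟩,⟨true,0,⟨1,[(12,1),(18,0),(0,0),(12,3)]⟩,⟨9,[(8,4),(8,6),(21,0),(4,0)]⟩⟩,⟨false,1,⟨1,
  [(24,1),(16,0),(3,1),(1,0)]⟩,⟨0,[(1,0),(45,0)]⟩⟩,⟨false,0,⟨0,[]⟩,⟨0,[]⟩⟩,⟨false,0,⟨0,[]⟩,⟨0,[]⟩⟩,
  [.a ⟨true,0,⟨1,[(11,1),(12,1),(16,0),(3,1),(1,0)]⟩,⟨0,[(3,0)]⟩⟩ ⟨true,0,⟨0,[]⟩,⟨1,[(31,0),(0,
  0)]⟩⟩ ⟨false,1,⟨3,[(5,1),(5,3),(7,1),(4,3),(16,0),(3,5),(1,0)]⟩,⟨0,[(3,0),(28,0)]⟩⟩,.o ⟨false,1,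
  ⟨0,[(11,0),(12,0),(20,0),(1,0)]⟩,⟨0,[(0,0)]⟩⟩,.o ⟨false,0,⟨0,[(32,0)]⟩,⟨25,[(5,8),(2,1),(0,3),(10,
  0),(18,1),(2,6),(3,5)]⟩⟩,.o ⟨false,0,⟨1,[(31,0),(0,2)]⟩,⟨0,[(6,0)]⟩⟩]⟩) (.R ⟨1,false,false,true,
  [0,0,1],[2,0,-1,0,-1],[1,0,0,-1,0,0,0,1],(⟨0,[(34,0)]⟩,⟨0,[(33,0)]⟩),(⟨0,[(26,0),(6,0)]⟩,⟨0,[(2,
  0)]⟩),⟨0,[(23,0)]⟩,.k,.k,.k,.k,(.r 0 ⟨0,[(12,0),(0,0),(31,0)]⟩ ⟨1,[(8,1),(15,0),(0,0),(21,0)]⟩),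
  .k,⟨true,0,⟨0,[(12,1),(32,0)]⟩,⟨0,[(8,0)]⟩⟩,⟨false,0,⟨0,[(0,0),(12,0),(2,0),(28,0)]⟩,⟨18,[(1,5),
  (1,1),(1,7),(2,5),(0,9),(15,10),(16,5),(4,0)]⟩⟩,⟨false,1,⟨3,[(20,1),(3,0),(0,0),(16,0),(4,1)]⟩,⟨0,
  [(45,0)]⟩⟩,⟨false,0,⟨1,[(0,1),(10,1),(30,0),(2,1),(1,0)]⟩,⟨5,[(3,5),(5,2),(3,0),(7,0),(7,1),(12,
  1),(2,0),(0,0)]⟩⟩,⟨true,0,⟨0,[]⟩,⟨13,[(4,1),(3,0),(5,0),(9,1),(4,0),(9,4)]⟩⟩,⟨false,0,⟨1,[(0,1),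
  (10,1),(30,0),(2,3),(1,0)]⟩,⟨6,[(3,4),(5,2),(2,1),(0,0),(0,2),(4,0),(5,1),(16,2)]⟩⟩,[.a ⟨true,0,
  ⟨13,[(0,13),(3,1),(3,0),(5,0),(9,1),(4,0),(9,4)]⟩,⟨0,[(3,0)]⟩⟩ ⟨true,0,⟨0,[(12,0)]⟩,⟨3,[(8,1),(22,
  0),(0,0),(12,1)]⟩⟩ ⟨false,0,⟨2,[(0,2),(15,2),(1,0),(20,0),(5,0)]⟩,⟨5,[(3,2),(0,0),(0,1),(3,2),(15,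
  1),(13,0),(2,1)]⟩⟩,.a ⟨true,0,⟨0,[(0,0)]⟩,⟨5,[(3,4),(0,0),(4,0),(29,2)]⟩⟩ ⟨false,1,⟨1,[(12,1),(33,
  0),(0,0)]⟩,⟨1,[(8,0),(30,0),(5,0)]⟩⟩ ⟨true,0,⟨0,[(0,0),(15,0)]⟩,⟨0,[(1,0),(7,0),(35,0)]⟩⟩,.o
  ⟨false,1,⟨25,[(5,0),(2,5),(0,11),(10,2),(18,5),(2,7),(3,4)]⟩,⟨0,[(16,0)]⟩⟩,.a ⟨true,0,⟨0,[(31,
  0)]⟩,⟨0,[(28,0)]⟩⟩ ⟨false,1,⟨1,[(12,1),(33,0),(0,0)]⟩,⟨3,[(8,1),(22,0),(0,0),(12,1)]⟩⟩ ⟨true,0,⟨2,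
  [(0,2),(15,2),(1,0),(20,0),(5,0)]⟩,⟨0,[(1,0),(7,0),(35,0)]⟩⟩]⟩)) (.R ⟨0,false,false,true,[1,-1,
  -1],[2,0,-1,0,-1],[1],(⟨0,[(21,0)]⟩,⟨72,[(0,6),(2,1),(3,0),(11,3),(4,4),(3,1),(4,72),(0,9),(3,4),
  (0,20),(0,4)]⟩),(⟨0,[(25,0),(6,0)]⟩,⟨0,[(1,0)]⟩),⟨2,[(6,1),(26,0),(0,0),(4,2)]⟩,.k,.k,(.r (-1) ⟨5,
  [(4,0),(2,1),(8,1),(1,3),(0,2),(9,1),(11,0)]⟩ ⟨0,[(11,0),(18,0),(0,0),(12,2)]⟩),(.r 0 ⟨0,[(42,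
  0)]⟩ ⟨43,[(0,25),(2,15),(3,3),(0,7),(14,16),(0,26),(16,8),(2,13)]⟩),.k,.k,⟨true,0,⟨0,[(11,0),(32,
  0)]⟩,⟨0,[(0,0),(1,0),(5,0),(1,2),(30,0),(2,1)]⟩⟩,⟨false,1,⟨2,[(0,2),(15,0),(0,0),(20,1)]⟩,⟨9,[(2,
  5),(0,3),(3,1),(2,1),(30,2),(4,2)]⟩⟩,⟨true,0,⟨1,[(11,1),(18,0),(0,0),(12,3)]⟩,⟨9,[(7,4),(8,6),(21,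
  0),(4,0)]⟩⟩,⟨false,1,⟨43,[(0,42),(2,5),(3,2),(11,0),(3,6),(4,5),(9,14)]⟩,⟨1,[(2,1),(7,1),(30,0),
  (4,0)]⟩⟩,⟨false,0,⟨0,[]⟩,⟨0,[]⟩⟩,⟨false,0,⟨0,[]⟩,⟨0,[]⟩⟩,[.a ⟨true,0,⟨7,[(0,4),(6,0),(2,5),(9,0),
  (2,2),(14,0),(1,1),(7,1)]⟩,⟨0,[(2,0)]⟩⟩ ⟨true,0,⟨0,[]⟩,⟨1,[(30,0),(0,0)]⟩⟩ ⟨false,1,⟨1,[(0,1),(6,
  0),(8,0),(0,0),(20,0)]⟩,⟨0,[(2,0),(28,0)]⟩⟩,.e ⟨false,1,⟨1,[(45,0),(0,0)]⟩,⟨13,[(3,1),(3,0),(5,0),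
  (9,1),(4,0),(9,4)]⟩⟩ ⟨false,1,⟨0,[(0,0),(4,0),(4,0)]⟩,⟨20,[(2,7),(0,9),(4,0),(11,5),(3,2),(3,11),
  (12,8)]⟩⟩,.o ⟨false,0,⟨0,[(31,0)]⟩,⟨25,[(4,8),(2,1),(0,3),(10,0),(18,1),(2,6),(3,5)]⟩⟩,.o ⟨false,
  0,⟨1,[(30,0),(0,2)]⟩,⟨0,[(5,0)]⟩⟩]⟩))) (.Q [0,-1,0,0,1,0,0,0,-1,0,0,-1] (.p false [0,0,0,0,1] []
  (⟨0,[(24,0)]⟩,⟨0,[(23,0)]⟩) .k 0 (⟨0,[]⟩,⟨0,[]⟩) .k .k) (.Q [0,0,0,0,0,0,0,0,-1,1,0,-1] (.p false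
  [0,0,0,0,1] [1] (⟨0,[(25,0)]⟩,⟨0,[(24,0)]⟩) .k 1 (⟨0,[]⟩,⟨0,[]⟩) .k .k) (.R ⟨0,false,false,false,
  [1,-1,-1],[0,0,0,0,1],[1,1],(⟨0,[(21,0)]⟩,⟨22,[(23,2),(0,2),(8,22),(0,4),(4,5),(0,2)]⟩),(⟨0,[(26,
  0)]⟩,⟨0,[(25,0)]⟩),⟨2,[(6,1),(26,0),(0,0),(4,2)]⟩,.k,.k,(.r (-1) ⟨5,[(4,0),(2,1),(8,1),(1,3),(0,
  2),(9,1),(11,0)]⟩ ⟨1,[(0,0),(2,0),(4,0),(2,0),(19,0),(12,4)]⟩),(.r (-1) ⟨0,[(14,0),(3,0)]⟩ ⟨0,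
  [(28,0),(2,0),(12,0)]⟩),.k,.k,⟨true,0,⟨0,[]⟩,⟨2,[(2,0),(0,0),(4,0)]⟩⟩,⟨false,1,⟨0,[(5,0),(18,0)]⟩,
  ⟨0,[(0,0),(30,0)]⟩⟩,⟨false,0,⟨3,[(0,0),(2,0),(4,0),(2,2),(19,0),(12,6)]⟩,⟨0,[(14,0),(3,0)]⟩⟩,
  ⟨true,0,⟨0,[(3,0),(0,0),(6,0),(32,1)]⟩,⟨0,[(1,0),(8,0)]⟩⟩,⟨false,0,⟨0,[]⟩,⟨0,[]⟩⟩,⟨false,0,⟨0,[]⟩,
  ⟨0,[]⟩⟩,[.o ⟨false,0,⟨0,[(3,0),(1,0)]⟩,⟨0,[(1,0)]⟩⟩,.a ⟨true,0,⟨0,[(24,0)]⟩,⟨0,[(0,0)]⟩⟩ ⟨true,0,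
  ⟨0,[]⟩,⟨2,[(2,0),(0,0),(4,0)]⟩⟩ ⟨false,1,⟨0,[(5,0),(18,0)]⟩,⟨0,[(0,0),(30,0)]⟩⟩,.o ⟨false,0,⟨0,
  [(31,0)]⟩,⟨25,[(4,8),(2,1),(0,3),(10,0),(18,1),(2,6),(3,5)]⟩⟩,.o ⟨false,0,⟨0,[(1,0),(1,0)]⟩,⟨0,
  [(5,0)]⟩⟩]⟩) (.R ⟨1,false,false,false,[0,0,1],[0,0,0,0,1],[1,1,0,-1,0,0,0,1],(⟨0,[(33,0)]⟩,⟨0,
  [(32,0)]⟩),(⟨0,[(26,0)]⟩,⟨0,[(25,0)]⟩),⟨0,[(22,0)]⟩,.k,.k,.k,.k,(.r (-1) ⟨1,[(11,1),(33,0),(0,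
  0)]⟩ ⟨13,[(3,3),(3,8),(15,3),(4,3),(9,2),(5,4)]⟩),.k,⟨true,0,⟨0,[(11,0)]⟩,⟨5,[(2,0),(0,0),(3,2),
  (0,0),(35,2)]⟩⟩,⟨false,0,⟨0,[(0,0),(26,0)]⟩,⟨3,[(2,1),(1,0),(3,0),(14,1),(4,0),(1,0)]⟩⟩,⟨true,0,
  ⟨0,[(43,0)]⟩,⟨0,[(44,0)]⟩⟩,⟨true,(-1),⟨0,[(0,0),(9,0),(33,0)]⟩,⟨0,[(1,0),(26,0)]⟩⟩,⟨false,0,⟨0,
  []⟩,⟨1,[(23,0),(0,0),(21,0)]⟩⟩,⟨true,(-1),⟨0,[(0,0),(9,0),(33,1)]⟩,⟨0,[(1,0),(11,0)]⟩⟩,[.o ⟨false,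
  0,⟨5,[(0,2),(2,1),(0,0),(19,0),(13,1),(2,0)]⟩,⟨0,[(1,0)]⟩⟩,.o ⟨false,0,⟨0,[(0,0)]⟩,⟨0,[(23,0)]⟩⟩,
  .o ⟨false,1,⟨25,[(4,0),(2,5),(0,11),(10,2),(18,5),(2,7),(3,4)]⟩,⟨0,[(15,0)]⟩⟩,.a ⟨true,0,⟨0,[(30,
  0)]⟩,⟨0,[(27,0)]⟩⟩ ⟨true,0,⟨0,[(12,0)]⟩,⟨5,[(2,0),(0,0),(3,2),(0,0),(35,2)]⟩⟩ ⟨false,0,⟨0,[(0,0),
  (26,0)]⟩,⟨0,[(2,0),(5,0)]⟩⟩]⟩)) (.Q [0,0,0,0,0,0,0,0,0,0,1,-1] (.ed true [1,0,-1,0,1] (.r 0 ⟨9,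
  [(6,4),(8,0),(21,2),(4,2)]⟩ ⟨3,[(7,1),(2,1),(8,1),(23,1),(0,0),(0,0)]⟩)) (.R ⟨0,false,false,true,
  [1,-1,-1],[0,0,1,0,-1],[1,0,0,0,0,0,0,1],(⟨0,[(21,0)]⟩,⟨22,[(23,2),(0,2),(8,22),(0,4),(4,5),(0,
  2)]⟩),(⟨0,[(0,0)]⟩,⟨0,[(26,0),(5,0)]⟩),⟨2,[(6,1),(26,0),(0,0),(4,2)]⟩,.k,.k,(.r (-1) ⟨5,[(4,0),(2,
  1),(8,1),(1,3),(0,2),(9,1),(11,0)]⟩ ⟨2,[(2,1),(0,1),(4,1),(2,2),(32,8)]⟩),(.r 0 ⟨0,[(7,0),(8,0)]⟩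
  ⟨0,[(8,0),(2,0),(8,0),(23,1)]⟩),.k,.k,⟨true,0,⟨0,[]⟩,⟨2,[(2,0),(0,0),(4,0)]⟩⟩,⟨false,2,⟨0,[(4,0),
  (18,0)]⟩,⟨7,[(1,3),(1,3),(6,1),(0,1),(3,9),(24,2),(3,3),(1,4)]⟩⟩,⟨true,0,⟨2,[(2,0),(0,0),(4,0),(2,
  5),(32,8)]⟩,⟨0,[(7,0),(8,0)]⟩⟩,⟨false,2,⟨1,[(2,0),(2,0),(2,1),(2,2),(11,0),(20,4)]⟩,⟨1,[(1,3),(0,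
  1),(7,1),(30,0),(4,2)]⟩⟩,⟨false,0,⟨0,[]⟩,⟨0,[]⟩⟩,⟨false,0,⟨0,[]⟩,⟨0,[]⟩⟩,[.a ⟨true,1,⟨4,[(2,2),(1,
  0),(3,1),(2,3),(11,1),(4,1),(15,3)]⟩,⟨0,[(1,1),(0,0),(43,0)]⟩⟩ ⟨true,0,⟨0,[(11,0),(32,0)]⟩,⟨1,[(8,
  1),(1,3),(30,0),(2,3),(1,0)]⟩⟩ ⟨false,2,⟨0,[(4,0),(6,0),(11,0),(20,0)]⟩,⟨2,[(1,1),(1,0),(3,0),(2,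
  0),(4,3),(24,0),(5,1)]⟩⟩,.o ⟨false,2,⟨3,[(2,0),(2,0),(2,1),(2,2),(11,2),(17,0),(2,2),(1,0)]⟩,⟨1,
  [(1,3),(0,1),(38,0),(4,0)]⟩⟩,.o ⟨false,0,⟨0,[(31,0)]⟩,⟨25,[(4,8),(2,1),(0,3),(10,0),(18,1),(2,6),
  (3,5)]⟩⟩,.o ⟨false,0,⟨2,[(2,0),(0,0),(4,0),(22,2)]⟩,⟨0,[(5,0)]⟩⟩]⟩) (.Q [0,0,2,0,-1,0,-2,0,1,0,-2,
  1] (.p false [0,0,1] [0,0,-1,0,1] (⟨0,[(33,0)]⟩,⟨0,[(32,0)]⟩) .k 2 (⟨0,[(0,0)]⟩,⟨0,[(25,0),(7,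
  0)]⟩) .k (.r (-1) ⟨3,[(8,1),(2,5),(8,1),(23,5),(0,0),(0,0)]⟩ ⟨4,[(7,4),(8,1),(21,0),(4,0)]⟩)) (.R
  ⟨0,false,false,false,[1,-1,-1],[1,0,1,0,-1],[1],(⟨0,[(22,0)]⟩,⟨22,[(24,2),(0,2),(8,22),(0,4),(4,
  5),(0,2)]⟩),(⟨0,[(26,0),(7,0)]⟩,⟨0,[(1,0)]⟩),⟨2,[(7,1),(26,0),(0,0),(4,2)]⟩,.k,.k,(.r (-1) ⟨5,[(5,
  0),(2,1),(8,1),(1,3),(0,2),(9,1),(11,0)]⟩ ⟨2,[(0,1),(2,1),(5,1),(2,0),(16,1),(15,6)]⟩),(.r 0 ⟨0,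
  [(8,0),(8,0)]⟩ ⟨0,[(9,0),(2,0),(8,0),(23,1)]⟩),.k,.k,⟨false,0,⟨5,[(8,2),(9,3),(20,0),(5,0)]⟩,⟨3,
  [(9,1),(2,1),(8,1),(23,1),(0,0),(0,0)]⟩⟩,⟨true,1,⟨0,[(3,0),(1,0),(6,0),(18,0),(13,0)]⟩,⟨0,[(0,
  0)]⟩⟩,⟨true,0,⟨2,[(0,0),(2,0),(5,0),(2,1),(16,0),(15,4)]⟩,⟨9,[(8,4),(8,6),(21,0),(4,0)]⟩⟩,⟨false,
  2,⟨4,[(3,1),(1,1),(3,3),(2,7),(11,2),(16,1),(3,12),(1,2)]⟩,⟨0,[(2,1),(0,0),(7,0),(30,0),(4,0)]⟩⟩,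
  ⟨false,0,⟨0,[]⟩,⟨0,[]⟩⟩,⟨false,0,⟨0,[]⟩,⟨0,[]⟩⟩,[.a ⟨true,1,⟨60,[(3,24),(3,1),(1,41),(0,1),(1,43),
  (6,16),(4,35),(10,11),(5,38),(3,60),(1,0)]⟩,⟨1,[(2,3),(0,1),(38,0),(4,0)]⟩⟩ ⟨true,0,⟨0,[]⟩,⟨2,[(3,
  0),(0,0),(4,0)]⟩⟩ ⟨false,2,⟨1,[(5,1),(6,1),(11,1),(16,0),(3,1),(1,0)]⟩,⟨5,[(0,4),(1,0),(5,1),(9,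
  2),(11,1),(14,0)]⟩⟩,.o ⟨false,2,⟨4,[(3,0),(1,0),(3,1),(2,3),(11,3),(16,0),(3,3),(1,3)]⟩,⟨0,[(2,1),
  (0,0),(38,0)]⟩⟩,.o ⟨false,0,⟨0,[(32,0)]⟩,⟨25,[(5,8),(2,1),(0,3),(10,0),(18,1),(2,6),(3,5)]⟩⟩,.o
  ⟨false,0,⟨5,[(0,2),(2,1),(0,1),(4,1),(14,2)]⟩,⟨0,[(6,0)]⟩⟩]⟩) (.Q [0,0,0,0,0,1,0,0,0,-1,0,1] (.ed
  false [0,1,0,0,1] .k) (.R ⟨0,false,false,true,[1,0,0,0,-1],[1,0,1,0,-1],[1,0,1],(⟨0,[(27,0)]⟩,⟨0,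
  [(28,0)]⟩),(⟨0,[(27,0),(7,0)]⟩,⟨0,[(2,0)]⟩),⟨0,[(0,0)]⟩,.k,.k,(.r (-1) ⟨7,[(20,3),(0,1),(3,0),(0,
  0),(16,0),(4,1)]⟩ ⟨13,[(5,5),(3,2),(15,5),(4,5),(9,0),(5,10)]⟩),.k,.k,.k,⟨true,0,⟨0,[(16,0)]⟩,⟨0,
  [(13,0),(32,0)]⟩⟩,⟨false,1,⟨1,[(1,0),(23,0),(0,1)]⟩,⟨0,[(17,0)]⟩⟩,⟨false,0,⟨2,[(4,0),(0,0),(4,
  0)]⟩,⟨1,[(47,0),(0,0)]⟩⟩,⟨true,0,⟨0,[(30,0)]⟩,⟨1,[(3,1),(0,1),(38,0),(4,0)]⟩⟩,⟨false,0,⟨0,[]⟩,⟨0,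
  []⟩⟩,⟨false,0,⟨0,[]⟩,⟨0,[]⟩⟩,[.o ⟨false,1,⟨5,[(1,0),(2,1),(5,1),(2,3),(11,2),(4,1),(15,3)]⟩,⟨0,
  [(3,1),(0,0),(38,0),(4,0)]⟩⟩,.e ⟨false,1,⟨1,[(25,0),(0,0),(21,0)]⟩,⟨2,[(19,0),(20,0),(5,0)]⟩⟩
  ⟨false,1,⟨5,[(10,1),(2,1),(6,3),(9,1),(11,0),(3,5),(1,0)]⟩,⟨0,[(31,0)]⟩⟩,.o ⟨false,1,⟨0,[(25,0)]⟩,
  ⟨1,[(3,1),(39,0),(4,0)]⟩⟩,.a ⟨true,0,⟨0,[(4,0),(8,0),(18,0),(13,0)]⟩,⟨1,[(3,0),(16,0),(5,0),(19,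
  0)]⟩⟩ ⟨true,0,⟨0,[]⟩,⟨13,[(5,1),(3,0),(5,0),(9,1),(4,0),(9,4)]⟩⟩ ⟨false,1,⟨5,[(10,1),(2,1),(6,3),
  (9,1),(11,0),(3,5),(1,0)]⟩,⟨5,[(9,1),(2,1),(20,3),(9,0),(4,0)]⟩⟩]⟩) (.R ⟨1,false,false,true,[1,0,
  0,0,-1],[0,-1,1],[],(⟨0,[(27,0)]⟩,⟨0,[(28,0)]⟩),(⟨0,[(24,0)]⟩,⟨22,[(25,2),(0,2),(7,22),(1,4),(4,
  5),(0,2)]⟩),⟨0,[(0,0)]⟩,.k,.k,(.r (-1) ⟨7,[(20,3),(0,1),(3,0),(0,0),(16,0),(4,1)]⟩ ⟨13,[(5,5),(3,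
  2),(15,5),(4,5),(9,0),(5,10)]⟩),(.r (-1) ⟨2,[(9,1),(0,0),(11,0),(2,0),(0,0),(19,0),(1,0)]⟩ ⟨1,[(1,
  1),(1,1),(6,1),(1,7),(0,7),(29,2),(2,13),(1,2)]⟩),.k,.k,⟨false,1,⟨3,[(9,1),(15,0),(0,0),(19,1),(0,
  0),(0,1)]⟩,⟨0,[(14,0)]⟩⟩,⟨true,0,⟨3,[(3,3),(6,1),(5,1),(26,0),(4,0)]⟩,⟨0,[(4,0),(8,0),(32,0)]⟩⟩,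
  ⟨true,0,⟨13,[(5,1),(3,0),(5,0),(9,1),(4,0),(9,4)]⟩,⟨0,[]⟩⟩,⟨false,0,⟨7,[(3,4),(6,1),(2,1),(1,3),
  (2,0),(7,2),(16,2)]⟩,⟨0,[(4,0),(41,0),(1,0)]⟩⟩,⟨false,0,⟨0,[(46,0)]⟩,⟨3,[(21,1),(3,0),(0,0),(16,
  0),(4,1)]⟩⟩,⟨false,0,⟨2,[(3,1),(6,0),(3,0),(11,0),(3,0),(12,0),(2,0)]⟩,⟨0,[(4,0),(43,0)]⟩⟩,[.e
  ⟨false,1,⟨1,[(25,0),(0,0),(20,0)]⟩,⟨0,[]⟩⟩ ⟨false,0,⟨11,[(3,11),(2,0),(3,4),(3,6),(3,0),(1,2),(22,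
  2)]⟩,⟨13,[(4,5),(4,3),(12,1),(2,7),(3,3),(12,0),(3,9),(1,6)]⟩⟩,.o ⟨false,1,⟨31,[(10,11),(2,1),(1,
  17),(4,5),(0,2),(0,4),(20,13)]⟩,⟨1,[(3,1),(0,1),(38,0),(2,1),(1,0)]⟩⟩,.o ⟨false,1,⟨0,[(25,0)]⟩,⟨1,
  [(3,1),(39,0),(4,0)]⟩⟩,.a ⟨true,0,⟨0,[(4,0),(8,0),(18,0),(13,0)]⟩,⟨1,[(3,0),(16,0),(5,0),(19,
  0)]⟩⟩ ⟨false,1,⟨1,[(47,0),(0,0)]⟩,⟨2,[(4,0),(0,0),(4,0)]⟩⟩ ⟨true,0,⟨11,[(3,11),(2,0),(3,4),(3,6),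
  (3,0),(1,2),(22,2)]⟩,⟨2,[(4,3),(0,0),(4,0),(35,2)]⟩⟩]⟩)))))))) (.R ⟨0,false,false,true,[1,-1,-1],
  [1,-1],[0,1,0,-1],(⟨0,[(16,0)]⟩,⟨22,[(18,2),(0,2),(8,22),(0,4),(4,5),(0,2)]⟩),(⟨0,[(31,0)]⟩,⟨0,
  [(32,0)]⟩),⟨2,[(1,1),(26,0),(0,0),(4,2)]⟩,.k,.k,(.r (-1) ⟨11,[(2,5),(8,3),(1,10),(0,1),(21,0),(1,
  6)]⟩ ⟨4,[(0,1),(2,1),(2,0),(16,1),(2,3),(12,10)]⟩),.k,.k,.k,⟨true,0,⟨6,[(0,0),(2,0),(5,1),(13,0),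
  (2,1)]⟩,⟨0,[]⟩⟩,⟨false,1,⟨5,[(2,1),(0,1),(4,1),(26,0),(4,4)]⟩,⟨0,[(10,0)]⟩⟩,⟨false,0,⟨4,[(0,0),(2,
  0),(2,2),(16,0),(2,1),(12,2)]⟩,⟨3,[(2,1),(10,1),(26,0),(0,0)]⟩⟩,⟨true,0,⟨0,[(23,0)]⟩,⟨1,[(5,1),
  (30,0),(2,1),(1,0)]⟩⟩,⟨false,0,⟨0,[]⟩,⟨0,[]⟩⟩,⟨false,0,⟨0,[]⟩,⟨0,[]⟩⟩,[.o ⟨false,0,⟨0,[(38,0)]⟩,
  ⟨1,[(36,0),(2,1),(1,0)]⟩⟩,.e ⟨false,1,⟨3,[(14,1),(3,0),(0,0),(16,0),(3,1)]⟩,⟨0,[(39,0)]⟩⟩ ⟨false,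
  1,⟨7,[(2,1),(0,3),(7,3),(0,0),(0,0),(21,1),(4,4)]⟩,⟨0,[(26,0),(12,0)]⟩⟩,.o ⟨false,0,⟨0,[(26,0)]⟩,
  ⟨21,[(1,2),(0,3),(0,7),(0,5),(7,3),(15,2),(4,1),(0,9),(1,1)]⟩⟩,.a ⟨true,(-1),⟨0,[(0,0)]⟩,⟨136,[(2,
  27),(0,47),(0,32),(7,39),(10,7),(4,32),(5,43),(0,45),(3,11),(0,68)]⟩⟩ ⟨true,0,⟨0,[(37,0)]⟩,⟨5,[(0,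
  0),(1,0),(0,0),(19,0),(2,1),(12,4)]⟩⟩ ⟨false,1,⟨7,[(2,1),(0,3),(7,3),(0,0),(0,0),(21,1),(4,4)]⟩,
  ⟨1,[(0,1),(35,0),(2,1),(1,0)]⟩⟩]⟩))) (.Q [0,0,0,0,0,2,0,0,0,0,-1] (.p false [0,0,1] [] (⟨0,[(26,
  0)]⟩,⟨0,[(25,0)]⟩) .k 0 (⟨0,[]⟩,⟨0,[]⟩) .k .k) (.R ⟨0,false,false,true,[0,-1,1],[1,0,-1],[1,1],
  (⟨0,[(16,0)]⟩,⟨4,[(0,1),(16,0),(0,0),(7,2),(1,0),(5,0)]⟩),(⟨0,[(26,0)]⟩,⟨0,[(27,0)]⟩),⟨0,[(0,0)]⟩,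
  .k,.k,(.r (-1) ⟨19,[(1,1),(4,5),(0,9),(4,15),(0,2),(0,4),(20,3)]⟩ ⟨1,[(8,1),(15,0),(0,0),(12,
  3)]⟩),(.x (-1) ⟨7,[(0,8),(1,5),(0,0),(4,5),(6,5),(8,2),(7,2)]⟩ ⟨5,[(1,1),(2,3),(4,7),(2,1),(3,11),
  (16,1),(1,0),(2,7),(1,0)]⟩),.k,.k,⟨true,0,⟨3,[(1,1),(22,0),(0,0),(12,1)]⟩,⟨1,[(2,1),(1,3),(30,0),
  (2,3),(1,0)]⟩⟩,⟨false,0,⟨1,[(9,3),(1,0),(0,0),(21,0),(3,1)]⟩,⟨21,[(2,13),(0,2),(4,13),(15,12),(2,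
  2),(4,6),(0,3),(1,1)]⟩⟩,⟨false,0,⟨0,[(8,0),(29,0)]⟩,⟨25,[(1,7),(0,9),(9,13),(0,1),(0,9),(20,0),(4,
  0)]⟩⟩,⟨true,(-1),⟨1,[(4,3),(30,0),(2,5),(1,0)]⟩,⟨5,[(1,1),(0,3),(4,3),(27,0),(3,0)]⟩⟩,⟨false,0,⟨0,
  []⟩,⟨0,[]⟩⟩,⟨false,0,⟨0,[]⟩,⟨0,[]⟩⟩,[.e ⟨false,0,⟨2,[(11,0),(20,0),(5,0)]⟩,⟨1,[(17,0),(0,0),(21,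
  0)]⟩⟩ ⟨false,0,⟨2,[(4,0),(4,0),(1,0),(0,0),(8,1),(1,1),(14,2)]⟩,⟨0,[(2,0)]⟩⟩,.o ⟨false,0,⟨1,[(4,
  1),(30,0),(2,1),(1,0)]⟩,⟨35,[(1,1),(0,15),(11,5),(7,15),(12,12),(2,1),(0,6)]⟩⟩,.e ⟨false,0,⟨0,[]⟩,
  ⟨1,[(17,0),(0,0),(21,0)]⟩⟩ ⟨false,0,⟨2,[(4,1),(4,1),(2,0),(8,0),(1,0),(14,2),(1,0)]⟩,⟨0,[(2,0)]⟩⟩,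
  .a ⟨true,0,⟨1,[(24,2),(0,0)]⟩,⟨1,[(9,1),(1,0),(0,0),(21,0),(3,1)]⟩⟩ ⟨true,0,⟨2,[(11,0),(20,0),(5,
  0)]⟩,⟨1,[(24,0),(0,0)]⟩⟩ ⟨false,0,⟨0,[(4,0),(4,0),(2,0),(25,1)]⟩,⟨1,[(2,1),(21,0),(0,0)]⟩⟩]⟩) (.Q
  [0,0,2,0,-1,0,-1,0,0,1,-1] (.p false [0,0,1] [1] (⟨0,[(27,0)]⟩,⟨0,[(26,0)]⟩) .k 1 (⟨0,[]⟩,⟨0,[]⟩)
  .k .k) (.R ⟨0,false,false,true,[1,-1,-1],[1,-1],[0,1,0,-1],(⟨0,[(16,0)]⟩,⟨22,[(18,2),(0,2),(8,22),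
  (0,4),(4,5),(0,2)]⟩),(⟨0,[(31,0)]⟩,⟨0,[(32,0)]⟩),⟨2,[(1,1),(26,0),(0,0),(4,2)]⟩,.k,.k,(.r (-1) ⟨4,
  [(9,4),(1,1),(1,4),(19,0),(4,0)]⟩ ⟨11,[(0,4),(1,0),(0,4),(19,4),(2,9),(12,24)]⟩),.k,.k,.k,⟨true,0,
  ⟨6,[(0,0),(2,0),(5,1),(13,0),(2,1)]⟩,⟨0,[]⟩⟩,⟨false,1,⟨0,[(25,0),(14,0)]⟩,⟨0,[(10,0)]⟩⟩,⟨false,0,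
  ⟨3,[(0,0),(1,0),(0,0),(19,0),(2,1),(12,0)]⟩,⟨0,[(9,0),(3,0),(25,0)]⟩⟩,⟨true,0,⟨0,[(23,0)]⟩,⟨1,[(5,
  1),(30,0),(2,1),(1,0)]⟩⟩,⟨false,0,⟨0,[]⟩,⟨0,[]⟩⟩,⟨false,0,⟨0,[]⟩,⟨0,[]⟩⟩,[.o ⟨false,0,⟨0,[(38,
  0)]⟩,⟨1,[(36,0),(2,1),(1,0)]⟩⟩,.e ⟨false,1,⟨3,[(14,1),(3,0),(0,0),(16,0),(3,1)]⟩,⟨0,[(39,0)]⟩⟩
  ⟨false,1,⟨1,[(12,0),(0,0),(11,1),(14,0)]⟩,⟨0,[(26,0),(12,0)]⟩⟩,.o ⟨false,0,⟨0,[(26,0)]⟩,⟨9,[(1,0),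
  (2,3),(20,5),(2,2),(5,5),(1,1)]⟩⟩,.a ⟨true,(-1),⟨0,[(0,0)]⟩,⟨10,[(4,4),(20,5),(2,4),(0,1),(4,5),
  (0,2),(4,3)]⟩⟩ ⟨true,0,⟨0,[(37,0)]⟩,⟨6,[(0,0),(2,0),(5,1),(13,0),(2,1),(12,6)]⟩⟩ ⟨false,1,⟨1,[(12,
  0),(0,0),(11,1),(14,0)]⟩,⟨1,[(0,1),(35,0),(2,1),(1,0)]⟩⟩]⟩) (.I [1,0,1,1,0,0,0,-2] (.N [0,-1,2] 0
  ⟨0,[(3,0)]⟩ ⟨0,[(0,0)]⟩ (.x (-1) ⟨41,[(0,26),(3,26),(0,2),(3,26),(7,61),(10,18),(1,7),(4,35),(1,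
  8)]⟩ ⟨36,[(2,73),(0,0),(2,1),(4,39),(2,1),(8,31),(6,8),(4,33),(4,4)]⟩)) (.Q [0,0,2,0,-1,0,-2,0,0,
  1,-2] (.p false [0,0,1] [1,0,-1] (⟨0,[(29,0)]⟩,⟨0,[(28,0)]⟩) .k 2 (⟨0,[(28,0)]⟩,⟨0,[(29,0)]⟩) .k
  (.r 0 ⟨1,[(0,1),(25,0),(0,0),(12,1)]⟩ ⟨0,[(10,1),(30,0)]⟩)) (.R ⟨0,false,false,true,[1,-1,-1],[0,
  0,1],[1],(⟨0,[(18,0)]⟩,⟨22,[(20,2),(0,2),(8,22),(0,4),(4,5),(0,2)]⟩),(⟨0,[(30,0)]⟩,⟨0,[(29,0)]⟩),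
  ⟨2,[(3,1),(26,0),(0,0),(4,2)]⟩,.k,.k,(.r (-1) ⟨2,[(2,0),(8,1),(1,0),(1,1),(0,0),(9,0)]⟩ ⟨1,[(0,0),
  (4,0),(19,0),(2,0),(12,3)]⟩),(.r (-1) ⟨4,[(2,0),(4,0),(3,8),(1,0),(1,1),(26,2)]⟩ ⟨8,[(0,4),(0,4),
  (3,3),(11,0),(7,3),(12,0),(2,13)]⟩),.k,.k,⟨false,1,⟨0,[(11,0),(3,0),(25,0)]⟩,⟨5,[(0,0),(0,0),(15,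
  0),(7,3),(9,0),(2,0),(2,0)]⟩⟩,⟨true,1,⟨0,[(2,0),(24,0)]⟩,⟨0,[(0,0)]⟩⟩,⟨true,0,⟨11,[(0,4),(0,1),(3,
  3),(11,0),(7,3),(12,0),(2,13)]⟩,⟨6,[(2,2),(4,2),(3,3),(1,1),(21,0)]⟩⟩,⟨false,1,⟨5,[(1,1),(3,3),
  (19,3),(12,0),(2,7),(0,0)]⟩,⟨1,[(7,3),(30,0),(2,1),(1,2)]⟩⟩,⟨false,0,⟨0,[]⟩,⟨0,[]⟩⟩,⟨false,0,⟨0,
  []⟩,⟨0,[]⟩⟩,[.a ⟨true,0,⟨0,[(25,0)]⟩,⟨0,[(7,0),(33,0),(1,0)]⟩⟩ ⟨true,0,⟨0,[]⟩,⟨3,[(0,0),(4,0),(5,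
  0),(33,0)]⟩⟩ ⟨false,1,⟨0,[(2,0),(22,0)]⟩,⟨1,[(0,0),(6,0),(18,0),(14,0),(1,1)]⟩⟩,.o ⟨false,1,⟨35,
  [(1,1),(3,15),(11,5),(7,15),(12,12),(2,1),(0,6)]⟩,⟨1,[(7,1),(30,0),(2,1),(1,0)]⟩⟩,.o ⟨false,0,⟨0,
  [(28,0)]⟩,⟨2,[(2,1),(2,0),(20,0)]⟩⟩,.o ⟨false,0,⟨1,[(0,0),(4,0),(20,0),(1,0)]⟩,⟨0,[(2,0)]⟩⟩]⟩)
  (.Q [0,0,1,0,-1,0,-2,0,1,1,-2,1] (.p true [0,0,0,0,1] [-1,0,2] (⟨0,[(23,0)]⟩,⟨0,[(22,0)]⟩) .k 2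
  (⟨2,[(3,4),(26,0),(0,0),(4,2)]⟩,⟨0,[(29,1)]⟩) .k (.r 0 ⟨1,[(0,0),(6,0),(3,1),(14,0),(14,0)]⟩ ⟨9,
  [(1,5),(3,7),(11,7),(23,5),(0,0),(0,0)]⟩)) (.Q [0,1,0,0,-1,0,-1,-1,1,0,-1,1] (.p false [0,0,1] [0,
  0,0,0,1] (⟨0,[(31,0)]⟩,⟨0,[(30,0)]⟩) .k 2 (⟨0,[(24,0)]⟩,⟨0,[(23,0)]⟩) .k (.r (-1) ⟨4,[(2,0),(3,2),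
  (11,2),(23,0),(0,0),(0,0)]⟩ ⟨5,[(1,0),(6,0),(3,3),(14,0),(8,1),(5,0)]⟩)) (.Q [0,0,0,0,0,0,0,0,0,1,
  -1,-1] (.ed true [0,0,1,0,1] (.r 0 ⟨3,[(3,0),(23,1),(2,1),(6,0),(5,0)]⟩ ⟨1,[(13,1),(30,0),(0,
  0)]⟩)) (.Q [0,1,0,-1,-2,0,0,0,2,0,0,2] (.p true [1,0,-1,0,1] [1,0,-1,0,-1] (⟨0,[(26,0),(5,0)]⟩,⟨2,
  [(0,1),(5,4),(18,0),(8,0),(4,2)]⟩) .k 2 (⟨0,[(0,0)]⟩,⟨0,[(26,0),(6,0)]⟩) .k (.r 0 ⟨0,[(48,1)]⟩ ⟨0,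
  [(46,0)]⟩)) (.R ⟨1,false,false,true,[1,0,0,0,-1],[1,0,-1,0,-1],[0,-1],(⟨0,[(26,0)]⟩,⟨0,[(27,0)]⟩),
  (⟨0,[(1,0)]⟩,⟨0,[(27,0),(6,0)]⟩),⟨1,[(1,0),(5,0),(18,0)]⟩,.k,.k,(.r (-1) ⟨7,[(19,3),(0,1),(3,0),
  (0,0),(16,0),(4,1)]⟩ ⟨1,[(15,0),(13,0),(2,0),(12,1),(3,0)]⟩),.k,.k,.k,⟨false,1,⟨4,[(5,1),(3,0),
  (11,0),(23,1),(0,1),(0,1)]⟩,⟨5,[(4,0),(6,0),(3,3),(14,0),(8,1),(5,0)]⟩⟩,⟨true,0,⟨0,[(16,0)]⟩,⟨0,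
  [(31,0)]⟩⟩,⟨false,1,⟨1,[(24,0),(0,0),(21,0)]⟩,⟨0,[]⟩⟩,⟨false,0,⟨1,[(11,1),(30,0),(2,1),(1,0)]⟩,⟨0,
  [(29,0),(17,0)]⟩⟩,⟨true,0,⟨0,[(45,0)]⟩,⟨0,[(44,0)]⟩⟩,⟨false,0,⟨1,[(11,1),(30,0),(2,3),(1,0)]⟩,⟨11,
  [(5,1),(3,5),(10,4),(0,0),(7,1),(16,1),(0,3)]⟩⟩,[.o ⟨false,1,⟨1,[(11,1),(12,1),(17,0),(2,1),(1,
  0)]⟩,⟨72,[(0,26),(3,4),(0,19),(3,29),(15,18),(3,2),(12,18),(2,46)]⟩⟩,.a ⟨true,1,⟨0,[(11,0),(12,0),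
  (20,0),(1,0)]⟩,⟨11,[(0,5),(3,0),(0,3),(5,0),(17,4),(1,5),(13,10)]⟩⟩ ⟨true,1,⟨0,[(47,0)]⟩,⟨0,[(5,
  0),(5,1),(19,1),(10,0),(2,2)]⟩⟩ ⟨false,1,⟨3,[(11,1),(7,1),(10,1),(11,0),(2,3),(1,2)]⟩,⟨0,[(29,
  0)]⟩⟩,.o ⟨false,1,⟨0,[(24,0)]⟩,⟨5,[(0,1),(24,1),(16,2),(2,1),(1,0)]⟩⟩,.o ⟨false,1,⟨1,[(24,1),(6,
  0),(0,0)]⟩,⟨1,[(0,0),(18,0),(22,0),(2,1)]⟩⟩]⟩) (.Q [0,0,0,0,-1,0,-1,-1,1,1,-1,1] (.p true [1,0,-1,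
  0,1] [] (⟨0,[(27,0),(5,0)]⟩,⟨2,[(1,1),(5,4),(18,0),(8,0),(4,2)]⟩) .k 0 (⟨0,[]⟩,⟨0,[]⟩) .k (.r 0
  ⟨5,[(4,0),(6,0),(3,3),(14,0),(8,1),(5,0)]⟩ ⟨4,[(0,1),(2,0),(1,1),(3,0),(15,2),(21,0)]⟩)) (.R ⟨0,
  false,false,true,[1,-1,-1],[0,0,1,0,-1],[1,0,0,0,0,0,0,1],(⟨0,[(23,0)]⟩,⟨97,[(1,5),(19,2),(4,11),
  (8,97),(0,16),(4,26),(0,11),(7,5)]⟩),(⟨2,[(2,1),(5,4),(18,0),(8,0),(4,2)]⟩,⟨0,[(28,0),(5,0)]⟩),⟨2,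
  [(8,1),(26,0),(0,0),(4,2)]⟩,.k,.k,(.r (-1) ⟨23,[(5,4),(10,13),(1,7),(1,17),(0,6),(9,9),(11,0)]⟩
  ⟨3,[(6,1),(25,4),(0,4),(12,9)]⟩),(.r 0 ⟨5,[(1,0),(1,1),(1,3),(6,5),(3,3),(3,0),(22,0)]⟩ ⟨16,[(1,
  8),(2,13),(1,8),(3,11),(15,3),(3,3),(12,0),(2,16)]⟩),.k,.k,⟨true,0,⟨0,[]⟩,⟨1,[(32,0),(0,0)]⟩⟩,
  ⟨false,2,⟨0,[(5,0),(19,0)]⟩,⟨0,[(4,0)]⟩⟩,⟨true,0,⟨0,[(6,0),(25,0),(0,0),(12,1)]⟩,⟨5,[(1,0),(1,1),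
  (1,3),(6,5),(3,3),(3,0),(22,0)]⟩⟩,⟨false,2,⟨71,[(1,35),(3,5),(0,33),(3,55),(19,19),(12,4),(2,69),
  (0,4)]⟩,⟨1,[(0,1),(11,1),(30,0),(4,0)]⟩⟩,⟨false,0,⟨0,[]⟩,⟨0,[]⟩⟩,⟨false,0,⟨0,[]⟩,⟨0,[]⟩⟩,[.a
  ⟨true,1,⟨11,[(1,5),(3,0),(0,3),(5,0),(2,0),(14,3),(1,5)]⟩,⟨0,[(0,0)]⟩⟩ ⟨true,0,⟨3,[(6,1),(25,0),
  (0,0),(12,1)]⟩,⟨1,[(10,1),(1,3),(30,0),(2,3),(1,0)]⟩⟩ ⟨false,2,⟨23,[(1,11),(3,17),(0,7),(3,3),(4,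
  3),(24,5),(2,0),(3,0)]⟩,⟨0,[(0,0),(32,0)]⟩⟩,.o ⟨false,2,⟨53,[(1,26),(4,7),(3,27),(4,9),(4,8),(1,
  5),(20,15),(3,0)]⟩,⟨0,[(3,0)]⟩⟩,.o ⟨false,0,⟨0,[(33,0)]⟩,⟨4,[(5,1),(4,0),(20,0),(11,0),(3,0)]⟩⟩,
  .o ⟨false,0,⟨1,[(32,0),(0,2)]⟩,⟨0,[(7,0)]⟩⟩]⟩) (.R ⟨0,false,false,false,[1,-1,-1],[0,0,0,0,1],[1,
  1],(⟨0,[(23,0)]⟩,⟨97,[(1,5),(19,2),(4,11),(8,97),(0,16),(4,26),(0,11),(7,5)]⟩),(⟨0,[(28,0)]⟩,⟨0,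
  [(27,0)]⟩),⟨2,[(8,1),(26,0),(0,0),(4,2)]⟩,.k,.k,(.r (-1) ⟨23,[(5,4),(10,13),(1,7),(1,17),(0,6),(9,
  9),(11,0)]⟩ ⟨0,[(0,0),(3,0),(27,0),(13,1)]⟩),(.r (-1) ⟨0,[(16,0),(3,0)]⟩ ⟨0,[(30,0),(2,0),(12,
  0)]⟩),.k,.k,⟨true,0,⟨0,[]⟩,⟨1,[(32,0),(0,0)]⟩⟩,⟨false,1,⟨0,[(7,0),(18,0)]⟩,⟨1,[(0,1),(11,1),(20,
  1),(8,0),(3,1),(1,0)]⟩⟩,⟨false,0,⟨4,[(0,2),(3,2),(1,0),(25,2),(13,5)]⟩,⟨0,[(16,0),(3,0)]⟩⟩,⟨true,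
  0,⟨12,[(3,9),(1,0),(0,3),(3,5),(15,2),(3,8),(12,2),(2,16)]⟩,⟨0,[(0,0),(11,1),(33,0),(1,0)]⟩⟩,
  ⟨false,0,⟨0,[]⟩,⟨0,[]⟩⟩,⟨false,0,⟨0,[]⟩,⟨0,[]⟩⟩,[.o ⟨false,0,⟨1,[(3,0),(22,0),(3,0),(12,0)]⟩,⟨0,
  [(0,0),(11,0),(33,0),(1,0)]⟩⟩,.a ⟨true,0,⟨0,[(26,0)]⟩,⟨1,[(0,1),(11,1),(29,0),(3,1),(1,0)]⟩⟩
  ⟨true,0,⟨0,[]⟩,⟨1,[(32,0),(0,0)]⟩⟩ ⟨false,1,⟨0,[(7,0),(18,0)]⟩,⟨1,[(0,1),(11,1),(20,1),(8,0),(3,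
  1),(1,0)]⟩⟩,.o ⟨false,0,⟨0,[(33,0)]⟩,⟨4,[(5,1),(4,0),(20,0),(11,0),(3,0)]⟩⟩,.o ⟨false,0,⟨1,[(32,
  0),(0,2)]⟩,⟨0,[(7,0)]⟩⟩]⟩))) (.Q [0,0,0,0,0,0,1,1,1,-1,1,1] (.p true [-1,0,1,0,1] [] (⟨0,[(0,0)]⟩,
  ⟨0,[(25,0),(6,0)]⟩) .k 0 (⟨0,[]⟩,⟨0,[]⟩) .k (.r 0 ⟨3,[(4,0),(23,1),(2,1),(6,0),(5,0)]⟩ ⟨1,[(14,1),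
  (30,0),(0,0)]⟩)) (.Q [0,0,0,0,0,0,1,0,1,-1,1,1] (.p true [-1,0,1,0,1] [] (⟨0,[(1,0)]⟩,⟨0,[(26,0),
  (6,0)]⟩) .k 0 (⟨0,[]⟩,⟨0,[]⟩) .k (.r 0 ⟨3,[(5,0),(23,1),(2,1),(6,0),(5,0)]⟩ ⟨1,[(15,1),(30,0),(0,
  0)]⟩)) (.R ⟨0,false,false,true,[1,-1,-1],[2,0,-1,0,-1],[1],(⟨0,[(23,0)]⟩,⟨22,[(25,2),(0,2),(8,22),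
  (0,4),(4,5),(0,2)]⟩),(⟨0,[(27,0),(6,0)]⟩,⟨0,[(2,0)]⟩),⟨2,[(8,1),(26,0),(0,0),(4,2)]⟩,.k,.k,(.r
  (-1) ⟨23,[(5,4),(10,13),(1,7),(1,17),(0,6),(9,9),(11,0)]⟩ ⟨3,[(6,1),(25,4),(0,4),(12,9)]⟩),(.r 0
  ⟨0,[(44,0)]⟩ ⟨3,[(10,1),(5,1),(5,1),(2,0),(0,0),(19,3),(1,0)]⟩),.k,.k,⟨true,0,⟨3,[(6,1),(25,0),(0,
  0),(12,1)]⟩,⟨1,[(10,1),(1,3),(30,0),(2,3),(1,0)]⟩⟩,⟨false,1,⟨1,[(19,0),(0,0),(4,1),(16,0),(3,1)]⟩,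
  ⟨0,[(0,0),(32,0)]⟩⟩,⟨true,0,⟨3,[(6,1),(25,2),(0,2),(12,5)]⟩,⟨2,[(5,0),(6,0),(3,0),(1,0),(12,0)]⟩⟩,
  ⟨false,1,⟨1,[(25,1),(16,0),(3,1),(1,0)]⟩,⟨2,[(0,1),(2,0),(8,0),(0,1),(29,0),(4,0)]⟩⟩,⟨false,0,⟨0,
  []⟩,⟨0,[]⟩⟩,⟨false,0,⟨0,[]⟩,⟨0,[]⟩⟩,[.a ⟨true,0,⟨1,[(12,1),(12,1),(16,0),(3,1),(1,0)]⟩,⟨0,[(1,
  0)]⟩⟩ ⟨true,0,⟨0,[]⟩,⟨1,[(32,0),(0,0)]⟩⟩ ⟨false,1,⟨3,[(5,1),(6,3),(7,1),(4,3),(16,0),(3,5),(1,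
  0)]⟩,⟨0,[(1,0),(31,0)]⟩⟩,.o ⟨false,1,⟨0,[(12,0),(12,0),(20,0),(1,0)]⟩,⟨0,[(0,0),(5,0),(5,0),(19,
  0),(10,0),(2,1)]⟩⟩,.o ⟨false,0,⟨0,[(33,0)]⟩,⟨4,[(5,1),(4,0),(20,0),(11,0),(3,0)]⟩⟩,.o ⟨false,0,⟨1,
  [(32,0),(0,2)]⟩,⟨0,[(7,0)]⟩⟩]⟩) (.R ⟨0,false,false,true,[1,-1,-1],[2,0,-1,0,-1],[1],(⟨0,[(23,0)]⟩,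
  ⟨22,[(25,2),(0,2),(8,22),(0,4),(4,5),(0,2)]⟩),(⟨0,[(27,0),(6,0)]⟩,⟨0,[(2,0)]⟩),⟨2,[(8,1),(26,0),
  (0,0),(4,2)]⟩,.k,.k,(.r (-1) ⟨23,[(5,4),(10,13),(1,7),(1,17),(0,6),(9,9),(11,0)]⟩ ⟨3,[(6,1),(25,
  4),(0,4),(12,9)]⟩),(.r 0 ⟨0,[(44,0)]⟩ ⟨3,[(10,1),(5,1),(5,1),(2,0),(0,0),(19,3),(1,0)]⟩),.k,.k,
  ⟨true,0,⟨3,[(6,1),(25,0),(0,0),(12,1)]⟩,⟨1,[(10,1),(1,3),(30,0),(2,3),(1,0)]⟩⟩,⟨false,1,⟨13,[(0,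
  9),(4,4),(19,3),(10,0),(1,0),(3,3),(4,8)]⟩,⟨2,[(3,1),(0,0),(5,1),(32,0)]⟩⟩,⟨true,0,⟨3,[(6,1),(25,
  2),(0,2),(12,5)]⟩,⟨2,[(5,0),(6,0),(3,0),(1,0),(12,0)]⟩⟩,⟨false,1,⟨1,[(25,1),(16,0),(3,1),(1,0)]⟩,
  ⟨1,[(1,1),(10,1),(30,0),(4,0)]⟩⟩,⟨false,0,⟨0,[]⟩,⟨0,[]⟩⟩,⟨false,0,⟨0,[]⟩,⟨0,[]⟩⟩,[.a ⟨true,0,⟨23,
  [(0,23),(10,1),(4,23),(12,1),(5,1),(0,7),(5,10),(4,6)]⟩,⟨0,[(1,0)]⟩⟩ ⟨true,0,⟨0,[]⟩,⟨1,[(32,0),(0,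
  0)]⟩⟩ ⟨false,1,⟨0,[(0,0),(4,0),(10,0),(12,0)]⟩,⟨0,[(1,0),(31,0)]⟩⟩,.e ⟨false,1,⟨1,[(47,0),(0,0)]⟩,
  ⟨0,[(50,0)]⟩⟩ ⟨false,1,⟨0,[(0,0),(4,0),(6,0),(33,0),(1,0)]⟩,⟨2,[(3,0),(0,1),(5,0),(19,2),(12,
  1)]⟩⟩,.o ⟨false,0,⟨0,[(33,0)]⟩,⟨4,[(5,1),(4,0),(20,0),(11,0),(3,0)]⟩⟩,.o ⟨false,0,⟨1,[(32,0),(0,
  2)]⟩,⟨0,[(7,0)]⟩⟩]⟩)) (.Q [0,0,0,0,0,0,0,0,-1,1,0,-1] (.p false [0,0,0,0,1] [1] (⟨0,[(27,0)]⟩,⟨0,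
  [(26,0)]⟩) .k 1 (⟨0,[]⟩,⟨0,[]⟩) .k .k) (.K ⟨0,[-1,0,1,0,1],0,0,(⟨0,[(2,0)]⟩,⟨0,[(27,0),(6,0)]⟩),
  .k,(.r 0 ⟨0,[(5,0),(0,3),(3,4),(1,11),(30,2),(2,14),(1,2)]⟩ ⟨1,[(16,1),(8,0),(0,0),(19,1),(1,
  0)]⟩),(.r 0 ⟨0,[(30,0),(2,0),(12,0)]⟩ ⟨0,[(16,0),(3,0)]⟩),.k,.k,[⟨0,[(0,0)]⟩,⟨0,[(3,0),(6,0)]⟩,⟨0,
  [(1,0)]⟩,⟨1,[(3,0),(22,0),(3,2),(12,0)]⟩]⟩) (.Q [0,0,0,0,0,1,0,0,0,-1,0,1] (.ed false [0,1,0,0,1]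
  .k) (.R ⟨0,false,false,false,[1,0,0,0,-1],[0,0,1],[1,0,1],(⟨0,[(28,0)]⟩,⟨0,[(29,0)]⟩),(⟨0,[(36,
  0)]⟩,⟨0,[(35,0)]⟩),⟨0,[(0,0)]⟩,.k,.k,(.r (-1) ⟨7,[(21,3),(0,1),(3,0),(0,0),(16,0),(4,1)]⟩ ⟨1,[(17,
  0),(13,0),(2,0),(12,1),(3,0)]⟩),.k,.k,.k,⟨true,0,⟨0,[(17,0)]⟩,⟨3,[(7,1),(25,0),(0,0),(12,1)]⟩⟩,
  ⟨false,1,⟨4,[(6,1),(4,0),(15,4),(4,0),(11,0),(3,0)]⟩,⟨3,[(2,3),(4,1),(25,0),(0,0),(12,1)]⟩⟩,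
  ⟨false,0,⟨1,[(33,0),(0,0)]⟩,⟨1,[(48,0),(0,0)]⟩⟩,⟨true,0,⟨0,[(1,0),(29,0)]⟩,⟨0,[(2,0)]⟩⟩,⟨false,0,
  ⟨0,[]⟩,⟨0,[]⟩⟩,⟨false,0,⟨0,[]⟩,⟨0,[]⟩⟩,[.o ⟨false,1,⟨35,[(7,1),(3,15),(11,5),(7,15),(12,12),(2,1),
  (0,6)]⟩,⟨3,[(2,1),(1,1),(39,0),(4,0)]⟩⟩,.e ⟨false,1,⟨1,[(26,0),(0,0),(21,0)]⟩,⟨2,[(20,0),(20,0),
  (5,0)]⟩⟩ ⟨false,1,⟨9,[(1,4),(4,2),(0,3),(3,1),(15,4),(19,3),(0,0),(0,3)]⟩,⟨0,[(2,0),(48,0)]⟩⟩,.o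
  ⟨false,1,⟨0,[(26,0)]⟩,⟨0,[(1,0)]⟩⟩,.a ⟨true,0,⟨3,[(2,3),(4,1),(25,4),(0,0),(12,1)]⟩,⟨0,[(5,0),(0,
  0)]⟩⟩ ⟨true,0,⟨0,[]⟩,⟨0,[(51,0)]⟩⟩ ⟨false,1,⟨9,[(1,4),(4,2),(0,3),(3,1),(15,4),(19,3),(0,0),(0,
  3)]⟩,⟨1,[(2,1),(30,0),(0,0)]⟩⟩]⟩) (.R ⟨1,false,false,true,[1,0,0,0,-1],[0,-1,1],[],(⟨0,[(28,0)]⟩,
  ⟨0,[(29,0)]⟩),(⟨0,[(25,0)]⟩,⟨22,[(26,2),(0,2),(7,22),(1,4),(4,5),(0,2)]⟩),⟨0,[(0,0)]⟩,.k,.k,(.r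
  (-1) ⟨7,[(21,3),(0,1),(3,0),(0,0),(16,0),(4,1)]⟩ ⟨1,[(17,0),(13,0),(2,0),(12,1),(3,0)]⟩),(.r (-1)
  ⟨1,[(17,1),(8,0),(0,0),(19,1),(1,0)]⟩ ⟨0,[(6,0),(0,3),(3,4),(1,11),(30,2),(2,14),(1,2)]⟩),.k,.k,
  ⟨false,1,⟨1,[(17,1),(29,1),(0,0),(0,0)]⟩,⟨0,[(15,0)]⟩⟩,⟨true,0,⟨0,[(4,0),(6,0)]⟩,⟨3,[(2,3),(4,1),
  (25,0),(0,0),(12,1)]⟩⟩,⟨true,0,⟨0,[(51,0)]⟩,⟨0,[]⟩⟩,⟨false,0,⟨0,[(1,0),(14,0)]⟩,⟨0,[(2,0),(44,0),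
  (1,0)]⟩⟩,⟨false,0,⟨0,[(47,0)]⟩,⟨3,[(22,1),(3,0),(0,0),(16,0),(4,1)]⟩⟩,⟨false,0,⟨0,[(1,0),(29,0)]⟩,
  ⟨0,[(2,0),(46,0)]⟩⟩,[.e ⟨false,1,⟨1,[(26,0),(0,0),(20,0)]⟩,⟨0,[]⟩⟩ ⟨false,0,⟨2,[(1,1),(2,0),(1,0),
  (0,0),(8,1)]⟩,⟨9,[(2,5),(14,3),(5,1),(2,3),(16,0),(3,9),(0,1),(0,4)]⟩⟩,.o ⟨false,1,⟨57,[(7,1),(3,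
  21),(4,31),(4,9),(0,6),(0,8),(20,25)]⟩,⟨3,[(2,1),(1,1),(39,0),(2,3),(1,0)]⟩⟩,.o ⟨false,1,⟨0,[(26,
  0)]⟩,⟨0,[(1,0)]⟩⟩,.a ⟨true,0,⟨3,[(2,3),(4,1),(25,4),(0,0),(12,1)]⟩,⟨0,[(5,0),(0,0)]⟩⟩ ⟨false,1,⟨1,
  [(48,0),(0,0)]⟩,⟨1,[(33,0),(0,0)]⟩⟩ ⟨true,0,⟨2,[(1,1),(2,0),(1,0),(0,0),(8,1)]⟩,⟨1,[(2,1),(30,0),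
  (0,0),(12,1)]⟩⟩]⟩))))) (.R ⟨0,false,false,false,[1,-1,-1],[0,0,0,0,1],[1,1],(⟨0,[(20,0)]⟩,⟨22,
  [(22,2),(0,2),(8,22),(0,4),(4,5),(0,2)]⟩),(⟨0,[(25,0)]⟩,⟨0,[(24,0)]⟩),⟨2,[(5,1),(26,0),(0,0),(4,
  2)]⟩,.k,.k,(.r (-1) ⟨23,[(2,4),(10,13),(1,7),(1,17),(0,6),(9,9),(11,0)]⟩ ⟨3,[(3,1),(25,4),(0,4),
  (12,9)]⟩),(.r (-1) ⟨0,[(13,0),(3,0)]⟩ ⟨0,[(27,0),(2,0),(12,0)]⟩),.k,.k,⟨true,0,⟨0,[]⟩,⟨1,[(29,0),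
  (0,0)]⟩⟩,⟨false,1,⟨0,[(4,0),(18,0)]⟩,⟨0,[(0,0),(8,0),(20,0),(12,0)]⟩⟩,⟨false,0,⟨3,[(3,1),(25,2),
  (0,2),(12,5)]⟩,⟨0,[(13,0),(3,0)]⟩⟩,⟨true,0,⟨0,[(1,0),(0,0),(0,0),(5,0),(19,1),(10,0),(2,2)]⟩,⟨1,
  [(0,1),(8,3),(30,0),(2,1),(1,0)]⟩⟩,⟨false,0,⟨0,[]⟩,⟨0,[]⟩⟩,⟨false,0,⟨0,[]⟩,⟨0,[]⟩⟩,[.o ⟨false,0,
  ⟨5,[(1,5),(0,4),(0,1),(5,4),(17,0),(1,5),(10,5),(2,6)]⟩,⟨1,[(0,1),(8,1),(30,0),(2,1),(1,0)]⟩⟩,.a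
  ⟨true,0,⟨0,[(23,0)]⟩,⟨0,[(0,0),(8,0),(33,0)]⟩⟩ ⟨true,0,⟨0,[]⟩,⟨1,[(29,0),(0,0)]⟩⟩ ⟨false,1,⟨0,[(4,
  0),(18,0)]⟩,⟨0,[(0,0),(8,0),(20,0),(12,0)]⟩⟩,.o ⟨false,0,⟨0,[(30,0)]⟩,⟨4,[(2,1),(4,0),(20,0),(11,
  0),(3,0)]⟩⟩,.o ⟨false,0,⟨1,[(29,0),(0,2)]⟩,⟨0,[(4,0)]⟩⟩]⟩)) (.Q [0,1,0,0,0,0,0,0,1,-1,0,1] (.p
  true [0,0,0,0,1] [1] (⟨0,[(24,0)]⟩,⟨0,[(23,0)]⟩) .k 1 (⟨0,[]⟩,⟨0,[]⟩) .k .k) (.R ⟨0,false,false,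
  true,[1,-1,-1],[1,0,0,0,-1],[1],(⟨0,[(20,0)]⟩,⟨22,[(22,2),(0,2),(8,22),(0,4),(4,5),(0,2)]⟩),(⟨0,
  [(24,0)]⟩,⟨0,[(25,0)]⟩),⟨2,[(5,1),(26,0),(0,0),(4,2)]⟩,.k,.k,(.r (-1) ⟨23,[(2,4),(10,13),(1,7),(1,
  17),(0,6),(9,9),(11,0)]⟩ ⟨3,[(3,1),(25,4),(0,4),(12,9)]⟩),(.r 0 ⟨2,[(2,0),(6,0),(3,0),(1,0),(12,
  0)]⟩ ⟨0,[(7,0),(11,0),(23,0)]⟩),.k,.k,⟨true,0,⟨0,[]⟩,⟨1,[(29,0),(0,0)]⟩⟩,⟨false,1,⟨0,[(1,0),(24,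
  0)]⟩,⟨0,[(23,0),(6,0)]⟩⟩,⟨true,0,⟨3,[(3,1),(25,2),(0,2),(12,5)]⟩,⟨2,[(2,0),(6,0),(3,0),(1,0),(12,
  0)]⟩⟩,⟨false,1,⟨6,[(1,6),(1,2),(3,0),(22,8),(8,3),(3,9),(1,2)]⟩,⟨0,[(0,0),(8,0),(35,0)]⟩⟩,⟨false,
  0,⟨0,[]⟩,⟨0,[]⟩⟩,⟨false,0,⟨0,[]⟩,⟨0,[]⟩⟩,[.a ⟨true,0,⟨13,[(1,13),(1,4),(5,9),(20,17),(8,8),(3,14),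
  (1,4),(0,0)]⟩,⟨0,[(23,0)]⟩⟩ ⟨true,0,⟨0,[]⟩,⟨1,[(29,0),(0,0)]⟩⟩ ⟨false,1,⟨0,[(1,0),(24,0)]⟩,⟨0,
  [(23,0),(6,0)]⟩⟩,.o ⟨false,1,⟨7,[(1,7),(1,0),(5,1),(4,4),(15,8),(8,2),(3,2),(1,4)]⟩,⟨0,[(0,0)]⟩⟩,
  .o ⟨false,0,⟨0,[(30,0)]⟩,⟨7,[(0,1),(1,3),(19,1),(17,0),(4,0)]⟩⟩,.o ⟨false,0,⟨1,[(29,0),(0,2)]⟩,⟨0,
  [(4,0)]⟩⟩]⟩) (.R ⟨0,false,false,true,[1,-1,-1],[1,0,0,0,-1],[1],(⟨0,[(20,0)]⟩,⟨22,[(22,2),(0,2),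
  (8,22),(0,4),(4,5),(0,2)]⟩),(⟨0,[(24,0)]⟩,⟨0,[(25,0)]⟩),⟨2,[(5,1),(26,0),(0,0),(4,2)]⟩,.k,.k,(.r
  (-1) ⟨23,[(2,4),(10,13),(1,7),(1,17),(0,6),(9,9),(11,0)]⟩ ⟨3,[(3,1),(25,4),(0,4),(12,9)]⟩),(.r 0
  ⟨2,[(2,0),(6,0),(3,0),(1,0),(12,0)]⟩ ⟨0,[(7,0),(11,0),(23,0)]⟩),.k,.k,⟨true,0,⟨0,[]⟩,⟨1,[(29,0),
  (0,0)]⟩⟩,⟨false,1,⟨2,[(0,1),(0,0),(2,0),(32,0),(6,0)]⟩,⟨0,[(23,0),(6,0)]⟩⟩,⟨true,0,⟨3,[(3,1),(25,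
  2),(0,2),(12,5)]⟩,⟨2,[(2,0),(6,0),(3,0),(1,0),(12,0)]⟩⟩,⟨false,1,⟨23,[(0,11),(0,0),(0,0),(0,6),(3,
  9),(14,10),(20,30),(1,0)]⟩,⟨1,[(9,1),(13,1),(16,0),(4,0)]⟩⟩,⟨false,0,⟨0,[]⟩,⟨0,[]⟩⟩,⟨false,0,⟨0,
  []⟩,⟨0,[]⟩⟩,[.a ⟨true,0,⟨0,[(0,0),(46,0)]⟩,⟨0,[(23,0)]⟩⟩ ⟨true,0,⟨0,[]⟩,⟨1,[(29,0),(0,0)]⟩⟩
  ⟨false,1,⟨2,[(0,1),(0,0),(2,0),(32,0),(6,0)]⟩,⟨0,[(23,0),(6,0)]⟩⟩,.e ⟨false,1,⟨1,[(44,0),(0,0)]⟩,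
  ⟨0,[(47,0)]⟩⟩ ⟨false,1,⟨0,[(0,0),(3,0)]⟩,⟨0,[(23,0),(6,0),(16,0)]⟩⟩,.o ⟨false,0,⟨0,[(30,0)]⟩,⟨4,
  [(2,1),(4,0),(20,0),(11,0),(3,0)]⟩⟩,.o ⟨false,0,⟨1,[(29,0),(0,2)]⟩,⟨0,[(4,0)]⟩⟩]⟩))))))))

theorem ok34 : chk K t34 r24 = true := by decide +kernel

noncomputable def t36 : Tre :=
  (.Q [0,0,2,0,-1,0,-1,0,0,1,-1] (.p false [0,0,1] [1] (⟨0,[(24,0)]⟩,⟨0,[(23,0)]⟩) .k 1 (⟨0,[]⟩,⟨0,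
  []⟩) .k .k) (.Q [0,0,0,0,0,2,0,0,0,-1,1] (.p true [0,0,1] [1] (⟨0,[(25,0)]⟩,⟨0,[(24,0)]⟩) .k 1
  (⟨0,[]⟩,⟨0,[]⟩) .k .k) (.R ⟨0,false,false,true,[1,-1,-1],[1,-1],[0,1,0,-1],(⟨0,[(14,0)]⟩,⟨11,[(0,
  1),(1,1),(20,1),(2,7),(6,0),(4,4)]⟩),(⟨0,[(29,0)]⟩,⟨0,[(30,0)]⟩),⟨0,[(0,0)]⟩,.k,.k,(.r (-1) ⟨4,
  [(7,4),(1,1),(1,4),(19,0),(4,0)]⟩ ⟨1,[(1,1),(19,1),(12,0),(2,3),(1,0)]⟩),.k,.k,.k,⟨true,0,⟨1,[(23,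
  0),(0,0)]⟩,⟨0,[]⟩⟩,⟨false,1,⟨0,[(23,0),(14,0)]⟩,⟨0,[(8,0)]⟩⟩,⟨false,0,⟨3,[(1,1),(2,1),(16,1),(12,
  0),(2,1),(1,0)]⟩,⟨0,[(7,0),(3,0),(25,0)]⟩⟩,⟨true,0,⟨0,[(21,0)]⟩,⟨1,[(3,1),(30,0),(2,1),(1,0)]⟩⟩,
  ⟨false,0,⟨0,[]⟩,⟨0,[]⟩⟩,⟨false,0,⟨0,[]⟩,⟨0,[]⟩⟩,[.o ⟨false,0,⟨0,[(36,0)]⟩,⟨1,[(34,0),(2,1),(1,
  0)]⟩⟩,.e ⟨false,1,⟨3,[(12,1),(3,0),(0,0),(16,0),(3,1)]⟩,⟨0,[(37,0)]⟩⟩ ⟨false,1,⟨1,[(10,0),(0,0),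
  (11,1),(14,0)]⟩,⟨0,[(24,0),(12,0)]⟩⟩,.o ⟨false,0,⟨0,[(24,0)]⟩,⟨1,[(10,0),(0,0),(11,1),(10,0),(2,
  1)]⟩⟩,.a ⟨true,(-1),⟨0,[(1,0)]⟩,⟨1,[(10,0),(0,0),(11,1),(13,1),(0,0)]⟩⟩ ⟨true,0,⟨0,[(35,0)]⟩,⟨1,
  [(23,0),(0,0),(12,1)]⟩⟩ ⟨false,1,⟨1,[(10,0),(0,0),(11,1),(14,0)]⟩,⟨1,[(1,1),(32,0),(2,1),(1,
  0)]⟩⟩]⟩) (.I [0,0,2,0,-1,2,0,0,1] (.I [1,-1,2,2] (.N [0,-2,0,0,1] 0 ⟨0,[(11,0)]⟩ ⟨0,[(0,0)]⟩ (.x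
  1 ⟨0,[(1,0)]⟩ ⟨2,[(2,1),(9,0),(0,0),(3,1),(0,2),(2,2),(14,0),(2,1),(0,0)]⟩)) (.I [0,0,-1,-1,0,0,0,
  2] (.Q [0,-1,-1,0,0,0,-2,-1,0,1,-2] (.p false [0,0,1] [1,0,-1] (⟨0,[(29,0)]⟩,⟨0,[(28,0)]⟩) .k 2
  (⟨0,[(28,0)]⟩,⟨0,[(29,0)]⟩) .k (.r 0 ⟨4,[(0,3),(3,1),(19,1),(12,0),(2,3),(1,0)]⟩ ⟨0,[(10,1),(30,
  0)]⟩)) (.R ⟨0,false,false,false,[0,-1,1],[1,0,-1],[0,0,1,0,0,0,0,-1],(⟨0,[(19,0)]⟩,⟨61,[(6,5),(20,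
  5),(1,67),(1,1),(4,11),(0,2),(4,14)]⟩),(⟨0,[(29,0)]⟩,⟨0,[(30,0)]⟩),⟨2,[(4,0),(13,1),(12,0),(4,
  2)]⟩,.k,.k,(.r (-1) ⟨19,[(1,1),(7,5),(0,9),(4,15),(0,2),(0,4),(20,3)]⟩ ⟨1,[(11,1),(15,0),(0,0),
  (12,3)]⟩),(.r 0 ⟨0,[(1,0)]⟩ ⟨1,[(11,3),(8,0),(0,0),(19,1),(0,0)]⟩),.k,.k,⟨true,0,⟨1,[(27,0),(0,
  0)]⟩,⟨0,[]⟩⟩,⟨false,0,⟨1,[(0,1),(0,0),(33,0),(5,0)]⟩,⟨1,[(27,3),(10,0),(3,0)]⟩⟩,⟨true,0,⟨0,[(11,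
  1),(29,0)]⟩,⟨2,[(1,2),(12,0),(20,0),(5,0)]⟩⟩,⟨false,0,⟨0,[(0,0),(10,0),(29,0)]⟩,⟨5,[(1,3),(13,1),
  (9,3),(1,7),(10,2),(4,0)]⟩⟩,⟨false,0,⟨0,[]⟩,⟨0,[]⟩⟩,⟨false,0,⟨0,[]⟩,⟨0,[]⟩⟩,[.o ⟨false,0,⟨2,[(0,
  0),(6,0),(3,0),(26,0),(2,0)]⟩,⟨1,[(25,1),(12,0),(4,0)]⟩⟩,.a ⟨true,0,⟨4,[(0,1),(6,0),(3,1),(25,0),
  (3,0),(1,1)]⟩,⟨0,[(25,0)]⟩⟩ ⟨false,1,⟨1,[(11,1),(30,0),(0,0)]⟩,⟨1,[(1,0),(33,0),(5,0)]⟩⟩ ⟨true,0,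
  ⟨0,[(0,0)]⟩,⟨20,[(1,7),(2,14),(1,8),(7,15),(4,5),(5,4),(1,45),(10,17),(2,23)]⟩⟩,.a ⟨true,0,⟨0,
  [(27,0)]⟩,⟨0,[(24,0)]⟩⟩ ⟨true,0,⟨1,[(7,1),(19,1),(10,0),(2,1),(1,0)]⟩,⟨1,[(1,0),(33,0),(5,0)]⟩⟩
  ⟨false,0,⟨0,[(0,0)]⟩,⟨1,[(25,1),(1,1),(10,0),(4,0)]⟩⟩,.a ⟨true,0,⟨1,[(27,2),(0,0)]⟩,⟨4,[(0,1),(0,
  0),(12,1),(9,0),(12,0),(3,2),(0,0)]⟩⟩ ⟨false,1,⟨1,[(11,1),(30,0),(0,0)]⟩,⟨9,[(1,3),(3,1),(19,1),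
  (12,0),(2,3),(1,0)]⟩⟩ ⟨true,0,⟨2,[(0,2),(13,0),(20,0),(5,0)]⟩,⟨20,[(1,7),(2,14),(1,8),(7,15),(4,
  5),(5,4),(1,45),(10,17),(2,23)]⟩⟩]⟩) (.R ⟨0,false,false,false,[0,-1,1],[1,0,-1],[0,0,1,0,0,0,0,
  -1],(⟨0,[(19,0)]⟩,⟨61,[(6,5),(20,5),(1,67),(1,1),(4,11),(0,2),(4,14)]⟩),(⟨0,[(29,0)]⟩,⟨0,[(30,
  0)]⟩),⟨2,[(4,0),(13,1),(12,0),(4,2)]⟩,.k,.k,(.r (-1) ⟨19,[(1,1),(7,5),(0,9),(4,15),(0,2),(0,4),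
  (20,3)]⟩ ⟨1,[(11,1),(15,0),(0,0),(12,3)]⟩),(.r 0 ⟨0,[(1,0)]⟩ ⟨1,[(11,3),(8,0),(0,0),(19,1),(0,
  0)]⟩),.k,.k,⟨true,0,⟨1,[(27,0),(0,0)]⟩,⟨0,[]⟩⟩,⟨false,0,⟨1,[(12,3),(1,0),(0,0),(21,0),(3,1)]⟩,⟨1,
  [(0,1),(10,1),(30,0),(0,0)]⟩⟩,⟨true,0,⟨0,[(11,1),(29,0)]⟩,⟨2,[(1,2),(12,0),(20,0),(5,0)]⟩⟩,⟨false,
  0,⟨1,[(7,3),(30,0),(2,5),(1,2)]⟩,⟨5,[(0,3),(0,1),(8,3),(27,0),(3,0),(0,3)]⟩⟩,⟨false,0,⟨0,[]⟩,⟨0,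
  []⟩⟩,⟨false,0,⟨0,[]⟩,⟨0,[]⟩⟩,[.o ⟨false,0,⟨1,[(7,1),(30,0),(2,1),(1,0)]⟩,⟨1,[(25,1),(12,0),(4,
  0)]⟩⟩,.e ⟨false,1,⟨1,[(11,1),(30,0),(0,0)]⟩,⟨1,[(1,0),(33,0),(5,0)]⟩⟩ ⟨false,1,⟨2,[(7,0),(4,0),(2,
  1),(8,1),(1,1),(14,2),(1,1)]⟩,⟨0,[(0,0)]⟩⟩,.e ⟨true,0,⟨1,[(0,1),(6,3),(30,0),(2,3),(1,2)]⟩,⟨1,[(1,
  0),(33,0),(5,0)]⟩⟩ ⟨true,0,⟨2,[(7,1),(4,1),(2,0),(8,0),(1,0),(14,2),(1,0)]⟩,⟨0,[(0,0)]⟩⟩,.a ⟨true,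
  0,⟨1,[(27,2),(0,0)]⟩,⟨1,[(12,1),(1,0),(0,0),(21,0),(3,1)]⟩⟩ ⟨false,1,⟨1,[(11,1),(30,0),(0,0)]⟩,
  ⟨11,[(0,0),(0,4),(3,0),(19,0),(2,1),(12,4),(1,0)]⟩⟩ ⟨true,0,⟨0,[(7,0),(4,0),(2,0),(25,1)]⟩,⟨1,[(0,
  1),(26,0),(0,0)]⟩⟩]⟩)) (.I [0,0,1,1,0,0,0,-2] (.Q [0,1,-1,0,-1,0,-2,-1,0,1,-2] (.p false [0,0,1]
  [1,0,-1] (⟨0,[(30,0)]⟩,⟨0,[(29,0)]⟩) .k 2 (⟨0,[(29,0)]⟩,⟨0,[(30,0)]⟩) .k (.r 0 ⟨0,[(8,1),(32,1)]⟩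
  ⟨3,[(0,3),(15,1),(3,0),(0,0),(16,0),(3,1)]⟩)) (.R ⟨0,false,false,true,[0,-1,1],[1,0,-1],[1,1],(⟨0,
  [(20,0)]⟩,⟨153,[(1,5),(5,11),(9,2),(8,11),(3,165),(1,6),(4,32),(0,8),(4,26),(0,5)]⟩),(⟨0,[(30,
  0)]⟩,⟨0,[(31,0)]⟩),⟨2,[(5,0),(13,1),(12,0),(4,2)]⟩,.k,.k,(.r (-1) ⟨11,[(9,1),(0,3),(0,5),(4,9),(0,
  0),(0,2),(20,1)]⟩ ⟨3,[(1,1),(26,2),(0,2),(12,5)]⟩),(.r (-1) ⟨5,[(9,7),(8,1),(7,3),(12,0),(2,1),(0,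
  2),(0,1)]⟩ ⟨0,[(1,0)]⟩),.k,.k,⟨true,0,⟨0,[(9,0),(32,0)]⟩,⟨3,[(1,1),(1,13),(1,9),(1,5),(12,3),(7,
  5),(10,4),(2,25),(1,6)]⟩⟩,⟨false,0,⟨1,[(0,0),(8,0),(3,0),(2,0),(8,0),(16,1)]⟩,⟨1,[(28,3),(10,0),
  (3,0)]⟩⟩,⟨false,0,⟨3,[(1,1),(26,0),(0,0),(12,1)]⟩,⟨1,[(9,1),(33,0),(0,0)]⟩⟩,⟨true,(-1),⟨5,[(0,4),
  (0,2),(4,0),(20,0),(14,2)]⟩,⟨1,[(9,3),(5,0),(0,0),(11,3),(10,0),(2,3)]⟩⟩,⟨false,0,⟨0,[]⟩,⟨0,[]⟩⟩,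
  ⟨false,0,⟨0,[]⟩,⟨0,[]⟩⟩,[.a ⟨true,(-1),⟨0,[(8,0),(33,0)]⟩,⟨0,[(26,0),(17,0)]⟩⟩ ⟨false,0,⟨2,[(15,
  0),(20,0),(5,0)]⟩,⟨1,[(21,0),(0,0),(21,0)]⟩⟩ ⟨true,(-1),⟨0,[(0,0)]⟩,⟨1,[(9,1),(18,3),(10,0),(2,1),
  (1,0)]⟩⟩,.o ⟨false,0,⟨17,[(0,5),(0,3),(6,3),(20,1),(9,4),(4,4)]⟩,⟨1,[(26,1),(12,0),(4,0)]⟩⟩,.a
  ⟨true,0,⟨0,[(28,0)]⟩,⟨0,[(25,0)]⟩⟩ ⟨false,0,⟨0,[]⟩,⟨1,[(21,0),(0,0),(21,0)]⟩⟩ ⟨true,(-1),⟨0,[(0,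
  0)]⟩,⟨1,[(26,1),(1,1),(10,0),(4,0)]⟩⟩,.a ⟨true,0,⟨1,[(28,2),(0,0)]⟩,⟨4,[(0,1),(8,0),(0,0),(5,2),
  (8,0),(12,0),(3,4)]⟩⟩ ⟨true,0,⟨2,[(15,0),(20,0),(5,0)]⟩,⟨1,[(28,0),(0,0)]⟩⟩ ⟨false,0,⟨1,[(0,1),
  (42,0),(0,0)]⟩,⟨1,[(9,1),(18,3),(10,0),(2,1),(1,0)]⟩⟩]⟩) (.R ⟨0,false,false,true,[0,-1,1],[1,0,
  -1],[1,1],(⟨0,[(20,0)]⟩,⟨65,[(0,1),(0,1),(5,5),(9,0),(8,1),(3,71),(1,2),(4,12),(0,3),(4,13)]⟩),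
  (⟨0,[(30,0)]⟩,⟨0,[(31,0)]⟩),⟨2,[(5,0),(13,1),(12,0),(4,2)]⟩,.k,.k,(.r (-1) ⟨11,[(9,1),(0,3),(0,5),
  (4,9),(0,0),(0,2),(20,1)]⟩ ⟨3,[(0,0),(0,2),(4,0),(19,0),(2,1),(12,4)]⟩),(.r (-1) ⟨5,[(9,7),(8,1),
  (7,3),(12,0),(2,1),(0,2),(0,1)]⟩ ⟨0,[(1,0)]⟩),.k,.k,⟨true,0,⟨0,[(9,0),(32,0)]⟩,⟨1,[(0,5),(0,3),(1,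
  27),(1,19),(1,11),(12,7),(18,6),(2,51),(1,10)]⟩⟩,⟨false,0,⟨1,[(13,3),(1,0),(0,0),(21,0),(3,1)]⟩,
  ⟨9,[(0,9),(0,4),(12,0),(21,2),(4,2)]⟩⟩,⟨false,0,⟨11,[(0,0),(0,6),(4,0),(19,0),(2,1),(12,4)]⟩,⟨1,
  [(9,1),(33,0),(0,0)]⟩⟩,⟨true,(-1),⟨1,[(8,3),(30,0),(2,5),(1,0)]⟩,⟨0,[(0,0),(9,0)]⟩⟩,⟨false,0,⟨0,
  []⟩,⟨0,[]⟩⟩,⟨false,0,⟨0,[]⟩,⟨0,[]⟩⟩,[.e ⟨false,0,⟨2,[(15,0),(20,0),(5,0)]⟩,⟨1,[(21,0),(0,0),(21,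
  0)]⟩⟩ ⟨false,0,⟨2,[(1,0),(11,1),(1,1),(9,2),(1,0),(14,0)]⟩,⟨0,[(0,0)]⟩⟩,.o ⟨false,0,⟨1,[(8,1),(30,
  0),(2,1),(1,0)]⟩,⟨1,[(26,1),(12,0),(4,0)]⟩⟩,.e ⟨false,0,⟨0,[]⟩,⟨1,[(21,0),(0,0),(21,0)]⟩⟩ ⟨false,
  0,⟨2,[(1,0),(6,0),(4,2),(2,0),(8,1),(16,0)]⟩,⟨0,[(0,0)]⟩⟩,.a ⟨true,0,⟨1,[(0,0),(0,0),(4,0),(4,
  0)]⟩,⟨1,[(13,1),(1,0),(0,0),(21,0),(3,1)]⟩⟩ ⟨true,0,⟨2,[(15,0),(20,0),(5,0)]⟩,⟨5,[(0,0),(0,0),(4,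
  0),(4,0),(17,1)]⟩⟩ ⟨false,0,⟨0,[(8,0),(4,0),(2,0),(25,1)]⟩,⟨5,[(0,6),(0,0),(4,0),(4,0),(17,
  1)]⟩⟩]⟩)) (.N [0,-1,2] 0 ⟨0,[(0,0)]⟩ ⟨0,[(1,0)]⟩ (.x (-1) ⟨1,[(18,3),(8,3),(8,1),(1,0),(3,0)]⟩ ⟨4,
  [(0,0),(5,0),(0,1),(4,6),(1,0),(0,2),(3,8),(18,0),(2,6)]⟩))))) (.I [0,0,-2,0,1,-2,0,0,-1] (.I [1,
  -1,2,2] (.N [0,-2,0,0,1] 0 ⟨0,[(12,0)]⟩ ⟨0,[(0,0)]⟩ (.x 0 ⟨29,[(5,11),(13,4),(0,34),(0,29),(4,11),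
  (1,11),(6,3),(1,18)]⟩ ⟨0,[(1,0)]⟩)) (.Q [0,-1,-1,0,0,0,-2,-1,0,1,-2] (.p false [0,0,1] [1,0,-1]
  (⟨0,[(29,0)]⟩,⟨0,[(28,0)]⟩) .k 2 (⟨0,[(28,0)]⟩,⟨0,[(29,0)]⟩) .k (.r 0 ⟨0,[(7,1),(32,1)]⟩ ⟨0,[(10,
  1),(30,0)]⟩)) (.Q [0,1,-1,0,-1,0,-2,-1,0,1,-2] (.p false [0,0,1] [1,0,-1] (⟨0,[(30,0)]⟩,⟨0,[(29,
  0)]⟩) .k 2 (⟨0,[(29,0)]⟩,⟨0,[(30,0)]⟩) .k (.r 0 ⟨0,[(8,1),(32,1)]⟩ ⟨0,[(11,1),(30,0)]⟩)) (.R ⟨0,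
  false,false,true,[0,-1,1],[1,0,-1],[1,1],(⟨0,[(20,0)]⟩,⟨61,[(7,5),(20,5),(1,67),(1,1),(4,11),(0,
  2),(4,14)]⟩),(⟨0,[(30,0)]⟩,⟨0,[(31,0)]⟩),⟨2,[(5,0),(13,1),(12,0),(4,2)]⟩,.k,.k,(.r (-1) ⟨11,[(9,
  1),(0,3),(0,5),(4,9),(0,0),(0,2),(20,1)]⟩ ⟨1,[(12,1),(15,0),(0,0),(12,3)]⟩),(.x (-1) ⟨1,[(19,3),
  (8,3),(8,1),(1,0),(3,0)]⟩ ⟨5,[(0,0),(0,2),(7,1),(0,1),(2,3),(6,11),(16,1),(1,0),(2,3)]⟩),.k,.k,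
  ⟨true,0,⟨0,[(9,0),(32,0)]⟩,⟨1,[(8,1),(19,1),(10,0),(2,1),(1,0)]⟩⟩,⟨false,0,⟨0,[(1,0),(8,0),(31,
  0)]⟩,⟨1,[(28,3),(10,0),(3,0)]⟩⟩,⟨false,0,⟨0,[(12,0),(29,0)]⟩,⟨1,[(9,1),(33,0),(0,0)]⟩⟩,⟨true,(-1),
  ⟨0,[(0,0),(11,0),(29,0)]⟩,⟨1,[(9,3),(5,0),(0,0),(11,3),(10,0),(2,3)]⟩⟩,⟨false,0,⟨0,[]⟩,⟨0,[]⟩⟩,
  ⟨false,0,⟨0,[]⟩,⟨0,[]⟩⟩,[.a ⟨true,(-1),⟨0,[(8,0),(33,0)]⟩,⟨0,[(26,0),(17,0)]⟩⟩ ⟨false,0,⟨2,[(15,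
  0),(20,0),(5,0)]⟩,⟨1,[(21,0),(0,0),(21,0)]⟩⟩ ⟨true,(-1),⟨0,[(0,0)]⟩,⟨1,[(9,1),(18,3),(10,0),(2,1),
  (1,0)]⟩⟩,.o ⟨false,0,⟨3,[(0,0),(0,0),(10,1),(26,0)]⟩,⟨1,[(26,1),(12,0),(4,0)]⟩⟩,.a ⟨true,0,⟨0,
  [(28,0)]⟩,⟨0,[(25,0)]⟩⟩ ⟨false,0,⟨0,[]⟩,⟨1,[(21,0),(0,0),(21,0)]⟩⟩ ⟨true,(-1),⟨0,[(0,0)]⟩,⟨1,[(26,
  1),(1,1),(10,0),(4,0)]⟩⟩,.a ⟨true,0,⟨1,[(28,2),(0,0)]⟩,⟨3,[(0,0),(0,0),(8,1),(5,1),(21,0),(3,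
  3)]⟩⟩ ⟨true,0,⟨2,[(15,0),(20,0),(5,0)]⟩,⟨1,[(28,0),(0,0)]⟩⟩ ⟨false,0,⟨1,[(0,0),(0,0),(41,0)]⟩,⟨1,
  [(9,1),(18,3),(10,0),(2,1),(1,0)]⟩⟩]⟩) (.R ⟨0,false,false,true,[0,-1,1],[1,0,-1],[1,1],(⟨0,[(20,
  0)]⟩,⟨61,[(7,5),(20,5),(1,67),(1,1),(4,11),(0,2),(4,14)]⟩),(⟨0,[(30,0)]⟩,⟨0,[(31,0)]⟩),⟨2,[(5,0),
  (13,1),(12,0),(4,2)]⟩,.k,.k,(.r (-1) ⟨11,[(9,1),(0,3),(0,5),(4,9),(0,0),(0,2),(20,1)]⟩ ⟨4,[(0,0),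
  (5,0),(5,5),(16,0),(12,9),(3,0)]⟩),(.x (-1) ⟨2,[(0,2),(11,2),(2,0),(3,5),(16,0),(0,2),(4,0)]⟩ ⟨4,
  [(1,3),(5,0),(1,0),(0,2),(2,0),(1,0),(4,8),(18,1),(2,4)]⟩),.k,.k,⟨true,0,⟨0,[(9,0),(32,0)]⟩,⟨1,
  [(0,1),(7,3),(30,0),(2,3),(1,0)]⟩⟩,⟨false,0,⟨0,[(1,0),(8,0),(31,0)]⟩,⟨2,[(0,2),(11,2),(2,0),(20,
  0),(5,0)]⟩⟩,⟨false,0,⟨0,[(12,0),(29,0)]⟩,⟨1,[(9,1),(33,0),(0,0)]⟩⟩,⟨true,(-1),⟨2,[(1,0),(6,3),(3,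
  0),(26,0),(2,6)]⟩,⟨0,[(0,0),(9,0)]⟩⟩,⟨false,0,⟨0,[]⟩,⟨0,[]⟩⟩,⟨false,0,⟨0,[]⟩,⟨0,[]⟩⟩,[.e ⟨false,0,
  ⟨2,[(15,0),(20,0),(5,0)]⟩,⟨1,[(21,0),(0,0),(21,0)]⟩⟩ ⟨false,0,⟨0,[(1,0),(34,0)]⟩,⟨0,[(0,0)]⟩⟩,.o
  ⟨false,0,⟨2,[(1,0),(6,0),(3,0),(26,0),(2,0)]⟩,⟨1,[(26,1),(12,0),(4,0)]⟩⟩,.e ⟨false,0,⟨0,[]⟩,⟨1,
  [(21,0),(0,0),(21,0)]⟩⟩ ⟨false,0,⟨11,[(1,7),(16,1),(8,3),(8,1),(1,0),(4,0)]⟩,⟨0,[(0,0)]⟩⟩,.a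
  ⟨true,0,⟨2,[(0,0),(5,0),(5,1),(13,0),(1,0)]⟩,⟨3,[(1,1),(8,1),(4,0),(0,0),(21,0),(3,3)]⟩⟩ ⟨true,0,
  ⟨2,[(15,0),(20,0),(5,0)]⟩,⟨4,[(0,0),(5,0),(5,0),(16,0),(16,0)]⟩⟩ ⟨false,0,⟨2,[(1,2),(13,0),(20,0),
  (5,0)]⟩,⟨4,[(0,5),(5,0),(5,0),(16,0),(16,0)]⟩⟩]⟩)) (.I [0,0,-1,-1,0,0,0,2] (.R ⟨0,false,false,
  false,[0,-1,1],[1,0,-1],[0,0,1,0,0,0,0,-1],(⟨0,[(20,0)]⟩,⟨61,[(7,5),(20,5),(1,67),(1,1),(4,11),(0,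
  2),(4,14)]⟩),(⟨0,[(30,0)]⟩,⟨0,[(31,0)]⟩),⟨2,[(5,0),(13,1),(12,0),(4,2)]⟩,.k,.k,(.r (-1) ⟨19,[(0,
  1),(9,5),(0,9),(4,15),(0,2),(0,4),(20,3)]⟩ ⟨1,[(12,1),(15,0),(0,0),(12,3)]⟩),(.r 0 ⟨0,[(0,0)]⟩ ⟨1,
  [(12,3),(8,0),(0,0),(19,1),(0,0)]⟩),.k,.k,⟨true,0,⟨1,[(28,0),(0,0)]⟩,⟨0,[]⟩⟩,⟨false,0,⟨1,[(13,3),
  (1,0),(0,0),(21,0),(3,1)]⟩,⟨1,[(1,1),(10,1),(30,0),(0,0)]⟩⟩,⟨true,0,⟨0,[(12,1),(29,0)]⟩,⟨2,[(0,2),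
  (14,0),(20,0),(5,0)]⟩⟩,⟨false,0,⟨1,[(8,3),(30,0),(2,5),(1,2)]⟩,⟨13,[(0,3),(0,7),(9,7),(4,1),(9,3),
  (12,2),(4,8)]⟩⟩,⟨false,0,⟨0,[]⟩,⟨0,[]⟩⟩,⟨false,0,⟨0,[]⟩,⟨0,[]⟩⟩,[.o ⟨false,0,⟨1,[(8,1),(30,0),(2,
  1),(1,0)]⟩,⟨1,[(26,1),(12,0),(4,0)]⟩⟩,.e ⟨false,1,⟨1,[(12,1),(30,0),(0,0)]⟩,⟨1,[(0,0),(35,0),(5,
  0)]⟩⟩ ⟨false,1,⟨2,[(8,0),(4,0),(2,1),(8,1),(1,1),(14,2),(1,1)]⟩,⟨0,[(1,0)]⟩⟩,.e ⟨true,0,⟨1,[(1,1),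
  (6,3),(30,0),(2,3),(1,2)]⟩,⟨1,[(0,0),(35,0),(5,0)]⟩⟩ ⟨true,0,⟨2,[(8,1),(4,1),(2,0),(8,0),(1,0),
  (14,2),(1,0)]⟩,⟨0,[(1,0)]⟩⟩,.a ⟨true,0,⟨1,[(28,2),(0,0)]⟩,⟨1,[(13,1),(1,0),(0,0),(21,0),(3,1)]⟩⟩
  ⟨false,1,⟨1,[(12,1),(30,0),(0,0)]⟩,⟨11,[(0,4),(0,0),(4,0),(19,0),(2,1),(12,4),(1,0)]⟩⟩ ⟨true,0,⟨0,
  [(8,0),(4,0),(2,0),(25,1)]⟩,⟨1,[(1,1),(26,0),(0,0)]⟩⟩]⟩) (.R ⟨0,false,false,false,[0,-1,1],[1,0,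
  -1],[0,0,1,0,0,0,0,-1],(⟨0,[(20,0)]⟩,⟨51,[(0,1),(6,3),(9,0),(8,3),(3,55),(1,2),(4,10),(0,2),(4,8),
  (0,1)]⟩),(⟨0,[(30,0)]⟩,⟨0,[(31,0)]⟩),⟨2,[(5,0),(13,1),(12,0),(4,2)]⟩,.k,.k,(.r (-1) ⟨11,[(9,1),(0,
  3),(0,5),(4,9),(0,0),(0,2),(20,1)]⟩ ⟨5,[(0,3),(0,1),(4,1),(14,0),(0,0),(6,1),(12,7),(1,0)]⟩),(.x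
  (-1) ⟨7,[(0,3),(0,7),(14,1),(0,0),(1,0),(10,14),(6,2),(1,2),(4,2)]⟩ ⟨3,[(5,1),(1,1),(5,5),(1,2),
  (0,2),(3,7),(18,0),(2,5)]⟩),.k,.k,⟨true,0,⟨1,[(28,0),(0,0)]⟩,⟨0,[]⟩⟩,⟨false,0,⟨1,[(13,3),(1,0),(0,
  0),(21,0),(3,1)]⟩,⟨15,[(0,7),(0,15),(14,3),(0,1),(3,4),(0,4),(16,0),(4,5)]⟩⟩,⟨true,0,⟨1,[(0,1),
  (27,0),(0,0)]⟩,⟨0,[(9,1),(5,0),(26,1)]⟩⟩,⟨false,0,⟨1,[(8,3),(30,0),(2,5),(1,2)]⟩,⟨5,[(1,3),(7,3),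
  (6,1),(9,3),(12,0),(4,2)]⟩⟩,⟨false,0,⟨0,[]⟩,⟨0,[]⟩⟩,⟨false,0,⟨0,[]⟩,⟨0,[]⟩⟩,[.o ⟨false,0,⟨1,[(8,
  1),(30,0),(2,1),(1,0)]⟩,⟨1,[(26,1),(12,0),(4,0)]⟩⟩,.e ⟨false,1,⟨15,[(0,7),(15,3),(0,1),(3,4),(0,
  4),(16,0),(4,5)]⟩,⟨0,[(10,0),(31,0)]⟩⟩ ⟨false,1,⟨1,[(0,0),(12,0),(2,1),(1,0),(6,0),(16,0)]⟩,⟨0,
  [(1,0)]⟩⟩,.e ⟨true,0,⟨1,[(0,3),(0,5),(0,27),(2,19),(1,11),(12,7),(18,6),(2,51),(1,16)]⟩,⟨0,[(10,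
  0),(31,0)]⟩⟩ ⟨true,0,⟨2,[(0,0),(7,0),(4,2),(2,0),(8,1),(16,0)]⟩,⟨0,[(1,0)]⟩⟩,.a ⟨true,0,⟨1,[(28,
  2),(0,0)]⟩,⟨1,[(13,1),(1,0),(0,0),(21,0),(3,1)]⟩⟩ ⟨false,1,⟨15,[(0,7),(15,3),(0,1),(3,4),(0,4),
  (16,0),(4,5)]⟩,⟨0,[(9,0),(32,0)]⟩⟩ ⟨true,0,⟨0,[(8,0),(4,0),(2,0),(25,1)]⟩,⟨1,[(1,1),(26,0),(0,
  0)]⟩⟩]⟩)))) (.I [0,0,-1,-1,0,0,0,2] (.Q [0,-1,-1,0,0,0,-2,-1,0,1,-2] (.p false [0,0,1] [1,0,-1]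
  (⟨0,[(29,0)]⟩,⟨0,[(28,0)]⟩) .k 2 (⟨0,[(28,0)]⟩,⟨0,[(29,0)]⟩) .k (.r 0 ⟨4,[(0,3),(3,1),(19,1),(12,
  0),(2,3),(1,0)]⟩ ⟨0,[(10,1),(30,0)]⟩)) (.R ⟨0,false,false,false,[0,-1,1],[1,0,-1],[0,0,1,0,0,0,0,
  -1],(⟨0,[(19,0)]⟩,⟨61,[(6,5),(20,5),(1,67),(1,1),(4,11),(0,2),(4,14)]⟩),(⟨0,[(29,0)]⟩,⟨0,[(30,
  0)]⟩),⟨2,[(4,0),(13,1),(12,0),(4,2)]⟩,.k,.k,(.r (-1) ⟨19,[(1,1),(7,5),(0,9),(4,15),(0,2),(0,4),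
  (20,3)]⟩ ⟨1,[(11,1),(15,0),(0,0),(12,3)]⟩),(.r 0 ⟨0,[(1,0)]⟩ ⟨1,[(11,3),(8,0),(0,0),(19,1),(0,
  0)]⟩),.k,.k,⟨true,0,⟨1,[(27,0),(0,0)]⟩,⟨0,[]⟩⟩,⟨false,0,⟨1,[(0,1),(0,0),(33,0),(5,0)]⟩,⟨1,[(27,3),
  (10,0),(3,0)]⟩⟩,⟨true,0,⟨0,[(11,1),(29,0)]⟩,⟨2,[(1,2),(12,0),(20,0),(5,0)]⟩⟩,⟨false,0,⟨0,[(0,0),
  (10,0),(29,0)]⟩,⟨5,[(1,3),(13,1),(9,3),(1,7),(10,2),(4,0)]⟩⟩,⟨false,0,⟨0,[]⟩,⟨0,[]⟩⟩,⟨false,0,⟨0,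
  []⟩,⟨0,[]⟩⟩,[.o ⟨false,0,⟨2,[(0,0),(6,0),(3,0),(26,0),(2,0)]⟩,⟨1,[(25,1),(12,0),(4,0)]⟩⟩,.a ⟨true,
  0,⟨4,[(0,1),(6,0),(3,1),(25,0),(3,0),(1,1)]⟩,⟨0,[(25,0)]⟩⟩ ⟨false,1,⟨1,[(11,1),(30,0),(0,0)]⟩,⟨1,
  [(1,0),(33,0),(5,0)]⟩⟩ ⟨true,0,⟨0,[(0,0)]⟩,⟨20,[(1,7),(2,14),(1,8),(7,15),(4,5),(5,4),(1,45),(10,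
  17),(2,23)]⟩⟩,.a ⟨true,0,⟨0,[(27,0)]⟩,⟨0,[(24,0)]⟩⟩ ⟨true,0,⟨1,[(7,1),(19,1),(10,0),(2,1),(1,0)]⟩,
  ⟨1,[(1,0),(33,0),(5,0)]⟩⟩ ⟨false,0,⟨0,[(0,0)]⟩,⟨1,[(25,1),(1,1),(10,0),(4,0)]⟩⟩,.a ⟨true,0,⟨1,
  [(27,2),(0,0)]⟩,⟨4,[(0,1),(0,0),(12,1),(9,0),(12,0),(3,2),(0,0)]⟩⟩ ⟨false,1,⟨1,[(11,1),(30,0),(0,
  0)]⟩,⟨9,[(1,3),(3,1),(19,1),(12,0),(2,3),(1,0)]⟩⟩ ⟨true,0,⟨2,[(0,2),(13,0),(20,0),(5,0)]⟩,⟨20,[(1,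
  7),(2,14),(1,8),(7,15),(4,5),(5,4),(1,45),(10,17),(2,23)]⟩⟩]⟩) (.R ⟨0,false,false,false,[0,-1,1],
  [1,0,-1],[0,0,1,0,0,0,0,-1],(⟨0,[(19,0)]⟩,⟨61,[(6,5),(20,5),(1,67),(1,1),(4,11),(0,2),(4,14)]⟩),
  (⟨0,[(29,0)]⟩,⟨0,[(30,0)]⟩),⟨2,[(4,0),(13,1),(12,0),(4,2)]⟩,.k,.k,(.r (-1) ⟨19,[(1,1),(7,5),(0,9),
  (4,15),(0,2),(0,4),(20,3)]⟩ ⟨1,[(11,1),(15,0),(0,0),(12,3)]⟩),(.r 0 ⟨0,[(1,0)]⟩ ⟨1,[(11,3),(8,0),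
  (0,0),(19,1),(0,0)]⟩),.k,.k,⟨true,0,⟨1,[(27,0),(0,0)]⟩,⟨0,[]⟩⟩,⟨false,0,⟨1,[(12,3),(1,0),(0,0),
  (21,0),(3,1)]⟩,⟨1,[(0,1),(10,1),(30,0),(0,0)]⟩⟩,⟨true,0,⟨0,[(11,1),(29,0)]⟩,⟨2,[(1,2),(12,0),(20,
  0),(5,0)]⟩⟩,⟨false,0,⟨1,[(7,3),(30,0),(2,5),(1,2)]⟩,⟨5,[(0,3),(0,1),(8,3),(27,0),(3,0),(0,3)]⟩⟩,
  ⟨false,0,⟨0,[]⟩,⟨0,[]⟩⟩,⟨false,0,⟨0,[]⟩,⟨0,[]⟩⟩,[.o ⟨false,0,⟨1,[(7,1),(30,0),(2,1),(1,0)]⟩,⟨1,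
  [(25,1),(12,0),(4,0)]⟩⟩,.e ⟨false,1,⟨1,[(11,1),(30,0),(0,0)]⟩,⟨1,[(1,0),(33,0),(5,0)]⟩⟩ ⟨false,1,
  ⟨2,[(7,0),(4,0),(2,1),(8,1),(1,1),(14,2),(1,1)]⟩,⟨0,[(0,0)]⟩⟩,.e ⟨true,0,⟨1,[(0,1),(6,3),(30,0),
  (2,3),(1,2)]⟩,⟨1,[(1,0),(33,0),(5,0)]⟩⟩ ⟨true,0,⟨2,[(7,1),(4,1),(2,0),(8,0),(1,0),(14,2),(1,0)]⟩,
  ⟨0,[(0,0)]⟩⟩,.a ⟨true,0,⟨1,[(27,2),(0,0)]⟩,⟨1,[(12,1),(1,0),(0,0),(21,0),(3,1)]⟩⟩ ⟨false,1,⟨1,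
  [(11,1),(30,0),(0,0)]⟩,⟨11,[(0,0),(0,4),(3,0),(19,0),(2,1),(12,4),(1,0)]⟩⟩ ⟨true,0,⟨0,[(7,0),(4,
  0),(2,0),(25,1)]⟩,⟨1,[(0,1),(26,0),(0,0)]⟩⟩]⟩)) (.I [0,0,1,1,0,0,0,-2] (.Q [0,1,-1,0,-1,0,-2,-1,0,
  1,-2] (.p false [0,0,1] [1,0,-1] (⟨0,[(30,0)]⟩,⟨0,[(29,0)]⟩) .k 2 (⟨0,[(29,0)]⟩,⟨0,[(30,0)]⟩) .k
  (.r 0 ⟨0,[(8,1),(32,1)]⟩ ⟨3,[(0,3),(15,1),(3,0),(0,0),(16,0),(3,1)]⟩)) (.R ⟨0,false,false,true,[0,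
  -1,1],[1,0,-1],[1,1],(⟨0,[(20,0)]⟩,⟨153,[(1,5),(5,11),(9,2),(8,11),(3,165),(1,6),(4,32),(0,8),(4,
  26),(0,5)]⟩),(⟨0,[(30,0)]⟩,⟨0,[(31,0)]⟩),⟨2,[(5,0),(13,1),(12,0),(4,2)]⟩,.k,.k,(.r (-1) ⟨11,[(9,
  1),(0,3),(0,5),(4,9),(0,0),(0,2),(20,1)]⟩ ⟨3,[(1,1),(26,2),(0,2),(12,5)]⟩),(.r (-1) ⟨5,[(9,7),(8,
  1),(7,3),(12,0),(2,1),(0,2),(0,1)]⟩ ⟨0,[(1,0)]⟩),.k,.k,⟨true,0,⟨0,[(9,0),(32,0)]⟩,⟨3,[(1,1),(3,9),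
  (1,5),(7,13),(4,3),(7,5),(10,4),(2,11),(1,6)]⟩⟩,⟨false,0,⟨1,[(0,0),(8,0),(3,0),(2,0),(8,0),(16,
  1)]⟩,⟨1,[(28,3),(10,0),(3,0)]⟩⟩,⟨false,0,⟨3,[(1,1),(26,0),(0,0),(12,1)]⟩,⟨1,[(9,1),(33,0),(0,
  0)]⟩⟩,⟨true,(-1),⟨5,[(0,4),(0,2),(4,0),(20,0),(14,2)]⟩,⟨1,[(9,3),(5,0),(0,0),(11,3),(10,0),(2,
  3)]⟩⟩,⟨false,0,⟨0,[]⟩,⟨0,[]⟩⟩,⟨false,0,⟨0,[]⟩,⟨0,[]⟩⟩,[.a ⟨true,(-1),⟨0,[(8,0),(33,0)]⟩,⟨0,[(26,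
  0),(17,0)]⟩⟩ ⟨false,0,⟨2,[(15,0),(20,0),(5,0)]⟩,⟨1,[(21,0),(0,0),(21,0)]⟩⟩ ⟨true,(-1),⟨0,[(0,0)]⟩,
  ⟨1,[(9,1),(18,3),(10,0),(2,1),(1,0)]⟩⟩,.o ⟨false,0,⟨17,[(0,5),(0,3),(6,3),(20,1),(9,4),(4,4)]⟩,⟨1,
  [(26,1),(12,0),(4,0)]⟩⟩,.a ⟨true,0,⟨0,[(28,0)]⟩,⟨0,[(25,0)]⟩⟩ ⟨false,0,⟨0,[]⟩,⟨1,[(21,0),(0,0),
  (21,0)]⟩⟩ ⟨true,(-1),⟨0,[(0,0)]⟩,⟨1,[(26,1),(1,1),(10,0),(4,0)]⟩⟩,.a ⟨true,0,⟨1,[(28,2),(0,0)]⟩,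
  ⟨4,[(0,1),(8,0),(0,0),(5,2),(8,0),(12,0),(3,4)]⟩⟩ ⟨true,0,⟨2,[(15,0),(20,0),(5,0)]⟩,⟨1,[(28,0),(0,
  0)]⟩⟩ ⟨false,0,⟨1,[(0,1),(42,0),(0,0)]⟩,⟨1,[(9,1),(18,3),(10,0),(2,1),(1,0)]⟩⟩]⟩) (.R ⟨0,false,
  false,true,[0,-1,1],[1,0,-1],[1,1],(⟨0,[(20,0)]⟩,⟨65,[(0,1),(0,1),(5,5),(9,0),(8,1),(3,71),(1,2),
  (4,12),(0,3),(4,13)]⟩),(⟨0,[(30,0)]⟩,⟨0,[(31,0)]⟩),⟨2,[(5,0),(13,1),(12,0),(4,2)]⟩,.k,.k,(.r (-1)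
  ⟨11,[(9,1),(0,3),(0,5),(4,9),(0,0),(0,2),(20,1)]⟩ ⟨3,[(0,0),(0,2),(4,0),(19,0),(2,1),(12,4)]⟩),
  (.r (-1) ⟨5,[(9,7),(8,1),(7,3),(12,0),(2,1),(0,2),(0,1)]⟩ ⟨0,[(1,0)]⟩),.k,.k,⟨true,0,⟨0,[(9,0),
  (32,0)]⟩,⟨1,[(0,5),(0,3),(3,19),(1,11),(7,27),(4,7),(18,6),(2,23),(1,10)]⟩⟩,⟨false,0,⟨1,[(13,3),
  (1,0),(0,0),(21,0),(3,1)]⟩,⟨9,[(0,9),(0,4),(12,0),(21,2),(4,2)]⟩⟩,⟨false,0,⟨11,[(0,0),(0,6),(4,0),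
  (19,0),(2,1),(12,4)]⟩,⟨1,[(9,1),(33,0),(0,0)]⟩⟩,⟨true,(-1),⟨1,[(8,3),(30,0),(2,5),(1,0)]⟩,⟨0,[(0,
  0),(9,0)]⟩⟩,⟨false,0,⟨0,[]⟩,⟨0,[]⟩⟩,⟨false,0,⟨0,[]⟩,⟨0,[]⟩⟩,[.e ⟨false,0,⟨2,[(15,0),(20,0),(5,
  0)]⟩,⟨1,[(21,0),(0,0),(21,0)]⟩⟩ ⟨false,0,⟨2,[(1,0),(11,1),(1,1),(9,2),(1,0),(14,0)]⟩,⟨0,[(0,0)]⟩⟩,
  .o ⟨false,0,⟨1,[(8,1),(30,0),(2,1),(1,0)]⟩,⟨1,[(26,1),(12,0),(4,0)]⟩⟩,.e ⟨false,0,⟨0,[]⟩,⟨1,[(21,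
  0),(0,0),(21,0)]⟩⟩ ⟨false,0,⟨2,[(1,0),(6,0),(4,2),(2,0),(8,1),(16,0)]⟩,⟨0,[(0,0)]⟩⟩,.a ⟨true,0,⟨1,
  [(0,0),(0,0),(4,0),(4,0)]⟩,⟨1,[(13,1),(1,0),(0,0),(21,0),(3,1)]⟩⟩ ⟨true,0,⟨2,[(15,0),(20,0),(5,
  0)]⟩,⟨5,[(0,0),(0,0),(4,0),(4,0),(17,1)]⟩⟩ ⟨false,0,⟨0,[(8,0),(4,0),(2,0),(25,1)]⟩,⟨5,[(0,6),(0,
  0),(4,0),(4,0),(17,1)]⟩⟩]⟩)) (.N [0,-1,2] 0 ⟨0,[(0,0)]⟩ ⟨0,[(1,0)]⟩ (.x (-1) ⟨1,[(18,3),(8,3),(8,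
  1),(1,0),(3,0)]⟩ ⟨4,[(0,0),(5,0),(0,1),(4,6),(1,0),(0,2),(3,8),(18,0),(2,6)]⟩))))))) (.Q [0,0,2,0,
  -1,0,-2,0,0,1,-2] (.p false [0,0,1] [1,0,-1] (⟨0,[(25,0)]⟩,⟨0,[(24,0)]⟩) .k 2 (⟨0,[(24,0)]⟩,⟨0,
  [(25,0)]⟩) .k (.r 0 ⟨0,[(3,1),(32,1)]⟩ ⟨0,[(6,1),(30,0)]⟩)) (.R ⟨0,false,false,true,[1,-1,-1],[0,
  0,1],[1],(⟨0,[(14,0)]⟩,⟨13,[(2,1),(20,1),(2,11),(5,1),(0,0),(4,4)]⟩),(⟨0,[(26,0)]⟩,⟨0,[(25,0)]⟩),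
  ⟨8,[(1,1),(0,1),(7,0),(0,0),(3,4),(10,1),(5,4),(1,0),(2,1)]⟩,.k,.k,(.r (-1) ⟨2,[(1,0),(5,1),(1,0),
  (1,1),(0,0),(9,0)]⟩ ⟨2,[(0,1),(3,0),(16,1),(1,1),(10,0),(2,6),(1,0)]⟩),(.r (-1) ⟨6,[(1,2),(1,1),
  (3,10),(3,2),(0,0),(9,0),(15,2)]⟩ ⟨5,[(0,1),(3,9),(16,1),(1,1),(10,0),(2,15),(1,0)]⟩),.k,.k,
  ⟨false,1,⟨0,[(7,0),(3,0),(25,0)]⟩,⟨5,[(0,0),(4,1),(7,0),(7,3),(12,0),(2,1)]⟩⟩,⟨true,1,⟨0,[(1,0),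
  (21,0)]⟩,⟨0,[(0,0)]⟩⟩,⟨true,0,⟨5,[(0,1),(3,3),(16,1),(1,1),(10,0),(2,9),(1,0)]⟩,⟨6,[(1,2),(1,2),
  (3,3),(1,1),(21,0)]⟩⟩,⟨false,1,⟨3,[(1,1),(2,5),(16,1),(1,3),(10,0),(2,9),(1,0)]⟩,⟨1,[(3,3),(30,0),
  (2,1),(1,2)]⟩⟩,⟨false,0,⟨0,[]⟩,⟨0,[]⟩⟩,⟨false,0,⟨0,[]⟩,⟨0,[]⟩⟩,[.a ⟨true,0,⟨0,[(21,0)]⟩,⟨0,[(3,0),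
  (33,0),(1,0)]⟩⟩ ⟨true,0,⟨0,[]⟩,⟨1,[(23,0),(0,0)]⟩⟩ ⟨false,1,⟨0,[(1,0),(19,0)]⟩,⟨1,[(0,0),(2,0),
  (18,0),(14,0),(1,1)]⟩⟩,.o ⟨false,1,⟨1,[(21,1),(12,0),(4,0)]⟩,⟨1,[(3,1),(30,0),(2,1),(1,0)]⟩⟩,.o
  ⟨false,0,⟨0,[(24,0)]⟩,⟨5,[(1,3),(14,0),(0,0),(5,1),(10,0)]⟩⟩,.o ⟨false,0,⟨1,[(23,0),(0,2)]⟩,⟨0,
  [(1,0)]⟩⟩]⟩) (.R ⟨0,false,false,true,[0,-1,1],[1,0,-1],[0,1,1,0,0,0,0,-1],(⟨0,[(15,0)]⟩,⟨61,[(2,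
  5),(20,5),(1,67),(1,1),(4,11),(0,2),(4,14)]⟩),(⟨0,[(25,0)]⟩,⟨0,[(26,0)]⟩),⟨18,[(0,1),(1,3),(7,2),
  (0,2),(2,22),(17,14),(1,2),(2,5)]⟩,.k,.k,(.r (-1) ⟨11,[(4,1),(0,3),(0,5),(4,9),(0,0),(0,2),(20,
  1)]⟩ ⟨1,[(7,1),(15,0),(0,0),(12,3)]⟩),(.r (-1) ⟨5,[(4,7),(8,1),(7,3),(12,0),(2,1),(0,2),(0,1)]⟩
  ⟨1,[(0,2),(1,1),(0,3),(10,4),(0,2),(18,2),(2,5),(1,1)]⟩),.k,.k,⟨true,0,⟨1,[(23,0),(0,0)]⟩,⟨0,[]⟩⟩,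
  ⟨false,0,⟨1,[(8,3),(1,0),(0,0),(21,0),(3,1)]⟩,⟨7,[(0,1),(15,2),(0,2),(5,11),(10,2)]⟩⟩,⟨false,0,⟨0,
  [(7,1),(29,0)]⟩,⟨0,[(4,1),(6,0),(25,1)]⟩⟩,⟨true,(-1),⟨1,[(3,3),(30,0),(2,5),(1,0)]⟩,⟨2,[(0,0),(3,
  3),(16,1),(1,1),(10,0),(2,0),(1,0)]⟩⟩,⟨false,0,⟨0,[]⟩,⟨0,[]⟩⟩,⟨false,0,⟨0,[]⟩,⟨0,[]⟩⟩,[.e ⟨false,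
  0,⟨5,[(0,0),(2,0),(3,3),(14,0),(8,1),(5,0)]⟩,⟨1,[(4,1),(32,1),(0,0),(0,0)]⟩⟩ ⟨false,0,⟨1,[(1,0),
  (1,0),(4,0),(11,1),(1,0),(14,0)]⟩,⟨1,[(0,2),(1,1),(1,1),(9,4),(0,2),(18,1),(2,1),(1,0)]⟩⟩,.o
  ⟨false,0,⟨1,[(3,1),(30,0),(2,1),(1,0)]⟩,⟨1,[(21,1),(12,0),(4,0)]⟩⟩,.e ⟨false,0,⟨1,[(0,2),(1,1),(0,
  3),(0,1),(9,4),(0,2),(18,2),(2,5),(1,1)]⟩,⟨1,[(4,1),(32,1),(0,0),(0,0)]⟩⟩ ⟨false,0,⟨2,[(3,1),(4,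
  1),(2,0),(8,0),(1,0),(14,2),(1,0)]⟩,⟨1,[(0,2),(1,1),(1,1),(9,4),(0,2),(18,1),(2,1),(1,0)]⟩⟩,.a
  ⟨true,0,⟨1,[(23,2),(0,0)]⟩,⟨1,[(8,1),(1,0),(0,0),(21,0),(3,1)]⟩⟩ ⟨true,0,⟨5,[(0,0),(2,0),(3,3),
  (14,0),(8,1),(5,0)]⟩,⟨0,[(4,0),(32,0)]⟩⟩ ⟨false,0,⟨0,[(3,0),(4,0),(2,0),(25,1)]⟩,⟨1,[(4,1),(18,3),
  (10,0),(2,1),(1,0)]⟩⟩]⟩)))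

theorem ok36 : chk K t36 r23 = true := by decide +kernel

noncomputable def t40 : Tre :=
  (.S ⟨1,0,[0,0,1,1,0,0,0,-1],[1,1,-1],[1,1,1,0,0,0,0,-1],(⟨22,[(12,2),(0,2),(7,22),(1,4),(4,5),(0,
  2)]⟩,⟨0,[(11,0)]⟩),⟨0,[(21,0)]⟩,.k,.k,⟨true,0,⟨0,[(32,0)]⟩,⟨0,[(33,0)]⟩⟩,⟨false,1,⟨1,[(12,0),(0,
  0),(21,0)]⟩,⟨0,[]⟩⟩,⟨false,0,⟨0,[]⟩,⟨1,[(12,0),(0,0),(21,0)]⟩⟩,⟨true,0,⟨0,[(33,0)]⟩,⟨0,[(32,0)]⟩⟩,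
  [.o ⟨false,0,⟨2,[(1,1),(2,1),(1,0),(11,0),(14,1)]⟩,⟨1,[(2,1),(27,0),(4,0)]⟩⟩,.a ⟨true,0,⟨0,[(1,0),
  (14,0)]⟩,⟨0,[(2,0)]⟩⟩ ⟨false,0,⟨1,[(1,0),(1,0),(2,0)]⟩,⟨15,[(0,11),(8,1),(2,2),(0,2),(3,3),(9,3),
  (2,0)]⟩⟩ ⟨true,0,⟨0,[(1,0)]⟩,⟨0,[(2,0),(1,0)]⟩⟩,.e ⟨false,0,⟨0,[(3,0)]⟩,⟨0,[(0,0)]⟩⟩ ⟨false,0,⟨0,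
  [(1,0)]⟩,⟨0,[(0,0),(31,0)]⟩⟩,.o ⟨false,0,⟨0,[(4,0)]⟩,⟨1,[(19,1),(10,0),(3,0)]⟩⟩]⟩)

theorem ok40 : chk K t40 l25 = true := by decide +kernel

noncomputable def t41 : Tre :=
  (.R ⟨1,false,false,false,[1,-1],[1,0,-1],[1,1],(⟨0,[(26,0)]⟩,⟨0,[(27,0)]⟩),(⟨0,[(22,0)]⟩,⟨0,[(23,
  0)]⟩),⟨0,[(11,0),(0,0)]⟩,.k,.k,(.r (-1) ⟨0,[(8,0),(24,0)]⟩ ⟨1,[(0,0),(1,1),(15,2),(2,1)]⟩),.k,(.r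
  (-1) ⟨0,[(3,0),(1,0),(2,0)]⟩ ⟨3,[(0,0),(1,5),(15,2),(2,1),(16,3)]⟩),.k,⟨true,0,⟨0,[(5,0),(12,0)]⟩,
  ⟨0,[(1,0),(34,0)]⟩⟩,⟨false,1,⟨1,[(17,1),(13,0),(3,0)]⟩,⟨0,[(20,0)]⟩⟩,⟨false,0,⟨3,[(0,0),(1,1),(15,
  2),(2,1)]⟩,⟨7,[(8,3),(0,1),(3,0),(0,0),(16,0),(4,1)]⟩⟩,⟨true,0,⟨1,[(0,0),(18,0)]⟩,⟨0,[(3,0)]⟩⟩,
  ⟨false,0,⟨3,[(0,2),(1,1),(15,4),(2,1)]⟩,⟨3,[(6,1),(2,1),(21,0),(4,2)]⟩⟩,⟨false,0,⟨0,[(0,0)]⟩,⟨3,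
  [(3,3),(5,1),(3,0),(0,0),(16,0),(4,1)]⟩⟩,[.o ⟨false,0,⟨3,[(0,0),(0,1),(6,1),(10,0),(1,1)]⟩,⟨1,
  [(18,1),(12,0),(4,0)]⟩⟩,.a ⟨true,0,⟨0,[(0,0),(8,0)]⟩,⟨0,[(18,0)]⟩⟩ ⟨true,0,⟨0,[]⟩,⟨1,[(20,0),(0,
  0)]⟩⟩ ⟨false,1,⟨1,[(0,0),(7,1),(10,0)]⟩,⟨1,[(18,1),(1,0),(0,0)]⟩⟩,.o ⟨false,0,⟨1,[(20,0),(0,0)]⟩,
  ⟨1,[(31,0),(3,0)]⟩⟩,.o ⟨false,0,⟨0,[(20,0),(0,0)]⟩,⟨1,[(0,0),(6,0),(0,0),(9,0),(12,0)]⟩⟩]⟩)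

theorem ok41 : chk K t41 l26 = true := by decide +kernel

noncomputable def t42 : Tre :=
  (.Q [0,0,0,0,0,2,0,0,0,0,-1] (.p false [0,0,1] [] (⟨0,[(25,0)]⟩,⟨0,[(24,0)]⟩) .k 0 (⟨0,[]⟩,⟨0,
  []⟩) .k .k) (.R ⟨0,false,false,false,[0,-1,1],[1,-1,-1],[0,0,1],(⟨0,[(15,0)]⟩,⟨4,[(0,1),(15,0),(0,
  0),(7,2),(1,0),(5,0)]⟩),(⟨0,[(14,0)]⟩,⟨22,[(16,2),(0,2),(8,22),(0,4),(4,5),(0,2)]⟩),⟨0,[(0,0)]⟩,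
  .k,.k,(.r (-1) ⟨0,[(1,0),(7,0),(1,0)]⟩ ⟨6,[(1,3),(3,9),(1,0),(23,4)]⟩),.k,.k,.k,⟨true,0,⟨0,[(1,
  0)]⟩,⟨0,[(4,0),(6,0)]⟩⟩,⟨false,0,⟨0,[(8,0),(11,0)]⟩,⟨1,[(5,1),(4,0),(0,0),(9,1),(1,1),(10,0)]⟩⟩,
  ⟨false,0,⟨2,[(1,0),(2,0),(0,1),(1,0),(31,0)]⟩,⟨0,[(1,0),(8,0),(0,0)]⟩⟩,⟨true,(-1),⟨2,[(2,1),(1,2),
  (0,0),(7,0),(23,0)]⟩,⟨1,[(21,3),(12,0),(4,0)]⟩⟩,⟨false,0,⟨0,[]⟩,⟨0,[]⟩⟩,⟨false,0,⟨0,[]⟩,⟨0,[]⟩⟩,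
  [.o ⟨false,0,⟨25,[(2,9),(1,8),(2,5),(4,7),(9,0),(1,4),(9,8)]⟩,⟨1,[(21,1),(12,0),(2,1),(1,0)]⟩⟩,.e
  ⟨false,1,⟨1,[(16,0),(0,0),(21,0)]⟩,⟨2,[(10,0),(20,0),(5,0)]⟩⟩ ⟨false,0,⟨0,[(2,0)]⟩,⟨9,[(1,3),(3,
  5),(15,11),(1,7),(7,1),(2,4),(3,4)]⟩⟩,.a ⟨true,0,⟨0,[(23,0)]⟩,⟨0,[(20,0)]⟩⟩ ⟨true,0,⟨11,[(1,3),(2,
  1),(2,1),(4,1),(21,0),(4,0)]⟩,⟨2,[(10,0),(20,0),(5,0)]⟩⟩ ⟨false,0,⟨4,[(2,3),(2,0),(6,0),(11,1)]⟩,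
  ⟨1,[(5,1),(15,3),(12,0),(4,0)]⟩⟩,.e ⟨false,1,⟨1,[(16,0),(0,0),(21,0)]⟩,⟨0,[]⟩⟩ ⟨false,0,⟨0,[(2,
  0)]⟩,⟨3,[(1,1),(3,1),(15,3),(1,3),(10,1),(3,0),(0,0)]⟩⟩]⟩) (.Q [0,0,2,0,-1,0,-1,0,0,1,-1] (.p
  false [0,0,1] [1] (⟨0,[(26,0)]⟩,⟨0,[(25,0)]⟩) .k 1 (⟨0,[]⟩,⟨0,[]⟩) .k .k) (.Q [0,0,-1,0,1,0,2,0,0,
  -1,2] (.p true [0,0,1] [1,0,-1] (⟨0,[(27,0)]⟩,⟨0,[(26,0)]⟩) .k 2 (⟨0,[(26,0)]⟩,⟨0,[(27,0)]⟩) .k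
  (.r (-1) ⟨0,[(2,1),(8,0),(0,0)]⟩ ⟨1,[(5,1),(0,0),(1,0),(3,0),(26,0)]⟩)) (.K ⟨0,[1,-1,-1],(-1),
  (-1),(⟨0,[(16,0)]⟩,⟨22,[(18,2),(0,2),(8,22),(0,4),(4,5),(0,2)]⟩),.k,(.r (-1) ⟨4,[(0,0),(8,2),(1,
  1),(1,3),(0,0),(9,1)]⟩ ⟨0,[(3,0),(35,0)]⟩),.k,(.r 0 ⟨1,[(0,0),(3,0),(1,1),(2,0),(3,0)]⟩ ⟨3,[(3,5),
  (9,1),(8,1),(0,1),(12,0),(3,0)]⟩),.k,[⟨0,[(0,0)]⟩,⟨0,[(1,0)]⟩,⟨2,[(0,0),(2,1),(19,0),(9,0),(2,0),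
  (2,0),(0,0)]⟩,⟨58,[(1,16),(2,20),(1,37),(4,5),(2,12),(18,17),(1,3)]⟩]⟩) (.R ⟨0,false,false,true,
  [1,-1,-1],[0,-1,1],[1,1,1],(⟨0,[(16,0)]⟩,⟨22,[(18,2),(0,2),(8,22),(0,4),(4,5),(0,2)]⟩),(⟨0,[(17,
  0)]⟩,⟨22,[(18,2),(0,2),(7,22),(1,4),(4,5),(0,2)]⟩),⟨2,[(2,1),(25,0),(0,0),(4,2)]⟩,.k,.k,(.r (-1)
  ⟨4,[(9,4),(1,1),(1,4),(19,0),(4,0)]⟩ ⟨0,[(3,0),(35,0)]⟩),.k,.k,.k,⟨false,0,⟨6,[(3,0),(3,5),(1,1),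
  (23,2)]⟩,⟨2,[(0,0),(12,2),(8,0),(0,2),(12,0)]⟩⟩,⟨true,1,⟨1,[(7,1),(4,0),(0,0),(9,1),(1,1),(10,
  0)]⟩,⟨0,[(0,0)]⟩⟩,⟨false,0,⟨0,[(3,0)]⟩,⟨3,[(6,1),(0,0),(1,0),(3,4),(26,0)]⟩⟩,⟨true,1,⟨1,[(23,3),
  (12,0),(4,0)]⟩,⟨13,[(0,2),(3,8),(1,9),(0,4),(16,3),(10,0),(3,3)]⟩⟩,⟨false,0,⟨0,[]⟩,⟨0,[]⟩⟩,⟨false,
  0,⟨0,[]⟩,⟨0,[]⟩⟩,[.a ⟨true,0,⟨0,[(8,0)]⟩,⟨0,[(7,0),(14,0)]⟩⟩ ⟨false,0,⟨6,[(3,0),(5,0),(23,2),(4,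
  0)]⟩,⟨1,[(40,0),(0,0)]⟩⟩ ⟨true,1,⟨1,[(12,0),(0,0),(9,1),(1,1),(10,0)]⟩,⟨0,[(0,0),(6,0)]⟩⟩,.o
  ⟨false,1,⟨1,[(8,1),(27,0),(4,0)]⟩,⟨13,[(0,0),(3,2),(1,0),(0,3),(16,5),(11,1),(2,12)]⟩⟩,.o ⟨false,
  0,⟨0,[(26,0)]⟩,⟨1,[(7,1),(4,0),(0,0),(9,1),(12,0)]⟩⟩,.e ⟨false,0,⟨0,[]⟩,⟨1,[(18,0),(0,0),(21,
  0)]⟩⟩ ⟨false,2,⟨1,[(13,1),(9,1),(1,1),(10,0),(3,0)]⟩,⟨0,[(0,0),(6,0)]⟩⟩]⟩)) (.R ⟨0,false,false,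
  true,[1,-1,-1],[0,-1,1],[1],(⟨0,[(15,0)]⟩,⟨22,[(17,2),(0,2),(8,22),(0,4),(4,5),(0,2)]⟩),(⟨0,[(16,
  0)]⟩,⟨22,[(17,2),(0,2),(7,22),(1,4),(4,5),(0,2)]⟩),⟨2,[(1,1),(25,0),(0,0),(4,2)]⟩,.k,.k,(.r (-1)
  ⟨2,[(0,0),(7,1),(1,0),(1,1),(0,0),(9,0)]⟩ ⟨0,[(2,0),(35,0)]⟩),.k,.k,.k,⟨true,0,⟨0,[(6,0)]⟩,⟨0,[(2,
  0),(7,0)]⟩⟩,⟨false,1,⟨0,[(0,0),(23,0)]⟩,⟨0,[(14,0)]⟩⟩,⟨false,1,⟨1,[(2,1),(36,0),(0,0)]⟩,⟨0,[(5,0),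
  (6,0)]⟩⟩,⟨true,1,⟨1,[(22,3),(12,0),(4,0)]⟩,⟨2,[(3,1),(1,2),(0,0),(7,0),(23,0)]⟩⟩,⟨false,0,⟨0,[]⟩,
  ⟨0,[]⟩⟩,⟨false,0,⟨0,[]⟩,⟨0,[]⟩⟩,[.a ⟨true,0,⟨0,[(7,0)]⟩,⟨0,[(6,0),(14,0)]⟩⟩ ⟨true,0,⟨0,[]⟩,⟨11,
  [(2,3),(2,1),(2,1),(4,1),(21,0),(4,0)]⟩⟩ ⟨false,1,⟨0,[(0,0),(6,0)]⟩,⟨0,[(6,0),(7,0)]⟩⟩,.o ⟨false,
  1,⟨1,[(7,1),(27,0),(4,0)]⟩,⟨9,[(3,1),(1,0),(0,2),(2,1),(13,3),(11,0),(2,8)]⟩⟩,.o ⟨false,0,⟨0,[(25,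
  0)]⟩,⟨5,[(0,3),(16,0),(0,0),(5,1),(10,0)]⟩⟩,.o ⟨false,0,⟨11,[(2,3),(2,1),(2,1),(4,1),(11,11),(9,
  0),(4,0)]⟩,⟨0,[(0,0)]⟩⟩]⟩)))

theorem ok42 : chk K t42 l28 = true := by decide +kernel

noncomputable def t43 : Tre :=
  (.Q [0,0,0,0,0,2,0,0,0,-1,1] (.p true [0,0,1] [1] (⟨0,[(26,0)]⟩,⟨0,[(25,0)]⟩) .k 1 (⟨0,[]⟩,⟨0,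
  []⟩) .k .k) (.R ⟨0,false,false,true,[1,-1,-1],[0,-1,1],[1],(⟨0,[(15,0)]⟩,⟨4,[(0,1),(16,0),(0,0),
  (8,2),(0,0),(5,0)]⟩),(⟨0,[(16,0)]⟩,⟨22,[(17,2),(0,2),(7,22),(1,4),(4,5),(0,2)]⟩),⟨0,[(0,0)]⟩,.k,
  .k,(.r 0 ⟨0,[(1,0),(38,0)]⟩ ⟨1,[(6,0),(10,0),(0,0),(3,2),(2,2),(12,2),(1,0)]⟩),.k,.k,.k,⟨true,0,
  ⟨0,[(6,0)]⟩,⟨0,[(7,0),(1,0)]⟩⟩,⟨false,1,⟨1,[(2,1),(3,1),(15,3),(12,0),(4,0)]⟩,⟨0,[(14,0)]⟩⟩,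
  ⟨false,1,⟨0,[(22,0),(2,0),(12,0),(1,0)]⟩,⟨11,[(2,7),(2,1),(2,1),(4,1),(21,0),(4,0)]⟩⟩,⟨true,1,⟨1,
  [(22,3),(12,0),(4,0)]⟩,⟨2,[(3,1),(1,2),(0,0),(7,0),(23,0)]⟩⟩,⟨false,0,⟨0,[]⟩,⟨0,[]⟩⟩,⟨false,0,⟨0,
  []⟩,⟨0,[]⟩⟩,[.a ⟨true,0,⟨0,[(7,0)]⟩,⟨0,[(6,0),(14,0)]⟩⟩ ⟨true,0,⟨0,[]⟩,⟨1,[(24,0),(0,0)]⟩⟩ ⟨false,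
  1,⟨1,[(2,1),(19,3),(12,0),(4,0)]⟩,⟨0,[(6,0),(7,0)]⟩⟩,.o ⟨false,1,⟨1,[(7,1),(27,0),(4,0)]⟩,⟨9,[(3,
  1),(1,0),(0,2),(2,1),(13,3),(11,0),(2,8)]⟩⟩,.o ⟨false,0,⟨0,[(25,0)]⟩,⟨5,[(2,1),(3,3),(5,1),(9,5),
  (12,2),(3,0)]⟩⟩,.o ⟨false,0,⟨1,[(24,0),(0,2)]⟩,⟨1,[(2,1),(19,1),(12,0),(2,1),(1,0)]⟩⟩]⟩) (.Q [0,1,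
  -2,0,-1,0,-1,0,1,0,-1,1] (.p false [0,0,1] [0,0,0,0,1] (⟨0,[(27,0)]⟩,⟨0,[(26,0)]⟩) .k 2 (⟨0,[(20,
  0)]⟩,⟨0,[(19,0)]⟩) .k (.r (-1) ⟨0,[(9,0),(12,0),(17,0)]⟩ ⟨6,[(2,0),(3,0),(1,4),(23,3)]⟩)) (.R ⟨0,
  false,false,false,[0,-1,1],[0,0,0,0,1],[1,1],(⟨0,[(17,0)]⟩,⟨22,[(18,2),(0,2),(7,22),(1,4),(4,5),
  (0,2)]⟩),(⟨0,[(21,0)]⟩,⟨0,[(20,0)]⟩),⟨2,[(1,0),(14,1),(12,0),(4,2)]⟩,.k,.k,(.r (-1) ⟨0,[(8,0),(1,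
  0),(2,0)]⟩ ⟨1,[(7,2),(15,0),(2,0),(12,0),(3,1)]⟩),(.r (-2) ⟨3,[(8,3),(6,1),(2,0),(0,0),(16,0),(3,
  1),(0,3)]⟩ ⟨0,[(6,0),(32,0)]⟩),.k,.k,⟨true,0,⟨0,[]⟩,⟨1,[(25,0),(0,0)]⟩⟩,⟨false,0,⟨13,[(0,9),(14,
  1),(3,3),(16,0),(3,3),(0,4)]⟩,⟨0,[(18,0),(6,0)]⟩⟩,⟨true,(-1),⟨0,[(6,0),(32,0)]⟩,⟨3,[(8,1),(4,1),
  (1,1),(7,1),(12,0),(4,0)]⟩⟩,⟨false,(-1),⟨1,[(0,1),(6,1),(17,0),(0,0)]⟩,⟨0,[(8,0),(9,0),(22,0)]⟩⟩,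
  ⟨false,0,⟨0,[]⟩,⟨0,[]⟩⟩,⟨false,0,⟨0,[]⟩,⟨0,[]⟩⟩,[.e ⟨false,0,⟨2,[(12,0),(20,0),(5,0)]⟩,⟨1,[(18,0),
  (0,0),(21,0)]⟩⟩ ⟨false,(-1),⟨0,[(0,0)]⟩,⟨1,[(18,2),(0,0),(5,1),(15,0)]⟩⟩,.o ⟨false,0,⟨1,[(0,1),
  (24,2),(0,0),(9,0),(4,0)]⟩,⟨0,[(18,0)]⟩⟩,.a ⟨true,0,⟨0,[(25,0)]⟩,⟨0,[(22,0)]⟩⟩ ⟨false,0,⟨0,[]⟩,⟨1,
  [(18,0),(0,0),(21,0)]⟩⟩ ⟨true,(-1),⟨1,[(0,1),(24,0),(0,0)]⟩,⟨0,[(18,0),(6,0)]⟩⟩,.e ⟨true,0,⟨2,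
  [(12,0),(20,0),(5,0)]⟩,⟨1,[(25,0),(0,0)]⟩⟩ ⟨true,(-1),⟨0,[(0,0)]⟩,⟨1,[(18,1),(6,2),(0,0)]⟩⟩]⟩)
  (.Q [0,0,0,0,0,0,0,0,-1,1,0,-1] (.p false [0,0,0,0,1] [1] (⟨0,[(21,0)]⟩,⟨0,[(20,0)]⟩) .k 1 (⟨0,
  []⟩,⟨0,[]⟩) .k .k) (.Q [0,-2,0,1,1,0,0,0,-1,0,0,-1] (.p false [0,0,0,0,1] [] (⟨0,[(22,0)]⟩,⟨0,
  [(21,0)]⟩) .k 0 (⟨0,[]⟩,⟨0,[]⟩) .k .k) (.Q [0,0,0,0,0,0,0,0,0,-1,1,1] (.ed false [0,0,1,0,1] (.r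
  0 ⟨0,[(12,0),(12,0)]⟩ ⟨1,[(11,1),(30,0),(0,0)]⟩)) (.Q [0,0,0,0,0,1,0,0,0,-1,0,1] (.ed false [0,1,
  0,0,1] .k) (.R ⟨0,false,false,true,[1,0,0,0,-1],[1,1,-1],[0,1,2,1,0,0,0,-1],(⟨0,[(24,0)]⟩,⟨0,[(25,
  0)]⟩),(⟨175,[(4,11),(14,5),(3,11),(7,175),(1,31),(3,5),(0,47),(0,20),(4,8)]⟩,⟨0,[(21,0)]⟩),⟨0,[(0,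
  0)]⟩,.k,.k,(.r (-1) ⟨7,[(17,3),(0,1),(3,0),(0,0),(16,0),(4,1)]⟩ ⟨1,[(11,0),(15,0),(2,0),(12,0),(3,
  1)]⟩),(.r (-2) ⟨3,[(12,3),(6,1),(2,0),(0,0),(16,0),(3,1),(0,3)]⟩ ⟨0,[(10,0),(32,0)]⟩),.k,.k,⟨true,
  0,⟨1,[(29,0),(0,0)]⟩,⟨0,[]⟩⟩,⟨false,1,⟨1,[(23,1),(2,1),(13,0),(3,0)]⟩,⟨0,[(2,0),(7,0),(1,0)]⟩⟩,
  ⟨false,(-1),⟨1,[(10,1),(0,0),(15,0),(2,0),(12,0)]⟩,⟨0,[(14,0),(2,0),(9,0),(17,0)]⟩⟩,⟨true,(-1),⟨4,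
  [(6,0),(3,3),(3,4),(8,4),(13,1),(5,6)]⟩,⟨0,[(2,0),(6,0)]⟩⟩,⟨false,0,⟨0,[]⟩,⟨0,[]⟩⟩,⟨false,0,⟨0,
  []⟩,⟨0,[]⟩⟩,[.e ⟨false,(-1),⟨0,[(10,0),(32,0)]⟩,⟨3,[(12,1),(4,1),(1,1),(7,1),(12,0),(3,1),(0,
  2)]⟩⟩ ⟨false,0,⟨9,[(6,0),(0,0),(0,1),(14,9),(4,5),(8,1),(2,0),(2,14)]⟩,⟨0,[(2,0),(6,0)]⟩⟩,.o
  ⟨false,0,⟨9,[(8,1),(1,0),(0,2),(2,1),(13,3),(11,0),(2,8)]⟩,⟨1,[(12,1),(27,0),(4,0)]⟩⟩,.a ⟨true,0,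
  ⟨0,[(3,0)]⟩,⟨0,[(23,0)]⟩⟩ ⟨true,(-1),⟨1,[(10,1),(0,0),(15,0),(2,0),(12,0)]⟩,⟨0,[(14,0),(2,0),(9,
  0)]⟩⟩ ⟨false,0,⟨9,[(8,1),(1,0),(0,2),(2,1),(8,9),(4,3),(11,0),(2,8)]⟩,⟨0,[(2,0),(6,0)]⟩⟩,.o
  ⟨false,0,⟨0,[(2,0),(7,0),(1,0),(1,0)]⟩,⟨1,[(23,1),(16,0),(3,0)]⟩⟩]⟩) (.R ⟨0,false,false,false,[1,
  -1,0,0,-1],[1,0,-1],[0,0,1,0,0,0,0,-1],(⟨0,[(0,0)]⟩,⟨175,[(4,11),(14,5),(3,11),(1,175),(7,31),(3,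
  5),(0,47),(0,20),(4,8)]⟩),(⟨0,[(31,0)]⟩,⟨0,[(32,0)]⟩),⟨2,[(1,1),(3,1),(19,0),(7,0),(4,2)]⟩,(.r
  (-1) ⟨7,[(17,3),(0,1),(3,0),(0,0),(16,0),(4,1)]⟩ ⟨1,[(11,0),(15,0),(2,0),(12,0),(3,1)]⟩),.k,(.r
  (-1) ⟨0,[(15,0),(29,0)]⟩ ⟨0,[(11,0),(15,0),(2,0),(12,0),(3,0)]⟩),(.r (-2) ⟨3,[(12,3),(6,1),(2,0),
  (0,0),(16,0),(3,1),(0,3)]⟩ ⟨0,[(10,0),(32,0)]⟩),.k,.k,⟨true,0,⟨1,[(29,0),(0,0)]⟩,⟨0,[]⟩⟩,⟨false,1,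
  ⟨1,[(23,1),(2,1),(13,0),(3,0)]⟩,⟨0,[(2,0),(7,0),(1,0)]⟩⟩,⟨true,(-1),⟨1,[(10,1),(0,0),(15,0),(2,0),
  (12,0)]⟩,⟨0,[(14,0),(2,0),(9,0)]⟩⟩,⟨false,0,⟨9,[(8,1),(1,0),(0,2),(2,1),(8,9),(4,3),(11,0),(2,
  8)]⟩,⟨0,[(2,0),(6,0)]⟩⟩,⟨false,0,⟨0,[]⟩,⟨0,[]⟩⟩,⟨false,0,⟨0,[]⟩,⟨0,[]⟩⟩,[.o ⟨false,0,⟨7,[(8,1),(1,
  0),(0,1),(16,2),(1,0),(9,0)]⟩,⟨1,[(27,1),(12,0),(4,0)]⟩⟩,.a ⟨true,0,⟨21,[(8,5),(2,7),(1,7),(4,0),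
  (0,2),(6,3),(12,3),(5,3)]⟩,⟨0,[(27,0)]⟩⟩ ⟨true,0,⟨0,[(10,0),(34,0)]⟩,⟨0,[(14,0),(12,0)]⟩⟩ ⟨false,
  1,⟨3,[(8,1),(2,1),(11,3),(16,0),(3,2)]⟩,⟨0,[(2,0),(7,0),(1,0),(1,0),(12,0)]⟩⟩,.o ⟨false,0,⟨0,[(2,
  0),(7,0),(1,0),(1,0)]⟩,⟨1,[(23,1),(16,0),(3,0)]⟩⟩,.o ⟨false,0,⟨0,[(2,0),(7,0),(1,0),(17,0)]⟩,⟨1,
  [(16,0),(0,0),(5,1),(16,0),(2,1)]⟩⟩]⟩)) (.R ⟨1,false,false,true,[1,0,0,0,-1],[1,0,-1,0,-1],[],(⟨0,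
  [(23,0)]⟩,⟨0,[(24,0)]⟩),(⟨0,[(0,0)]⟩,⟨0,[(24,0),(6,0)]⟩),⟨0,[(0,0),(19,0)]⟩,.k,.k,(.r (-1) ⟨7,
  [(16,3),(0,1),(3,0),(0,0),(16,0),(4,1)]⟩ ⟨1,[(10,0),(15,0),(2,0),(12,0),(3,1)]⟩),.k,.k,.k,⟨false,
  1,⟨2,[(1,0),(14,0),(1,0),(3,0),(2,0),(0,2),(12,0)]⟩,⟨6,[(6,1),(3,1),(1,2),(23,0)]⟩⟩,⟨true,0,⟨0,
  [(13,0)]⟩,⟨0,[(28,0)]⟩⟩,⟨true,0,⟨0,[(46,0)]⟩,⟨0,[]⟩⟩,⟨false,0,⟨7,[(7,1),(1,0),(0,1),(16,2),(1,0),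
  (9,0)]⟩,⟨0,[(26,0),(17,0)]⟩⟩,⟨false,0,⟨0,[(42,0)]⟩,⟨3,[(17,1),(3,0),(0,0),(16,0),(4,1)]⟩⟩,⟨false,
  0,⟨9,[(7,1),(1,0),(0,2),(2,1),(13,3),(11,0),(2,8)]⟩,⟨0,[(11,0),(32,0)]⟩⟩,[.o ⟨false,0,⟨2,[(1,1),
  (0,0),(2,0),(3,1),(3,0),(4,0),(20,0)]⟩,⟨1,[(22,1),(3,1),(12,0),(4,0)]⟩⟩,.e ⟨false,1,⟨1,[(43,0),(0,
  0)]⟩,⟨0,[(46,0)]⟩⟩ ⟨false,1,⟨7,[(7,1),(2,1),(16,3),(11,0),(3,2),(0,3)]⟩,⟨0,[(26,0)]⟩⟩,.a ⟨true,0,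
  ⟨0,[(2,0)]⟩,⟨0,[(22,0)]⟩⟩ ⟨false,1,⟨1,[(21,0),(0,0),(21,0)]⟩,⟨0,[]⟩⟩ ⟨true,0,⟨7,[(7,1),(1,0),(0,
  1),(16,2),(1,0),(9,0)]⟩,⟨0,[(26,0)]⟩⟩,.o ⟨false,0,⟨0,[(1,0),(7,0),(1,0),(1,0)]⟩,⟨1,[(22,1),(16,0),
  (3,0)]⟩⟩]⟩)) (.Q [0,0,0,0,0,-1,0,0,0,1,0,-1] (.ed true [0,1,0,0,1] .k) (.Q [0,0,-1,0,0,0,0,0,1,0,
  0,1] (.p true [0,0,0,0,1] [] (⟨0,[(24,0)]⟩,⟨0,[(23,0)]⟩) .k 0 (⟨0,[]⟩,⟨0,[]⟩) .k .k) (.S ⟨1,0,[],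
  [1,0,0,0,-1],[0,-1],(⟨0,[(24,0)]⟩,⟨0,[(25,0)]⟩),⟨0,[(1,0)]⟩,.k,(.r (-1) ⟨7,[(17,3),(0,1),(3,0),(0,
  0),(16,0),(4,1)]⟩ ⟨1,[(11,0),(15,0),(2,0),(12,0),(3,1)]⟩),⟨false,1,⟨1,[(22,0),(0,0),(21,0)]⟩,⟨0,
  []⟩⟩,⟨true,0,⟨0,[(47,0)]⟩,⟨0,[]⟩⟩,⟨true,0,⟨0,[(43,0)]⟩,⟨0,[(42,0)]⟩⟩,⟨false,0,⟨0,[(43,0)]⟩,⟨3,
  [(18,1),(3,0),(0,0),(16,0),(4,1)]⟩⟩,[.e ⟨false,1,⟨1,[(44,0),(0,0)]⟩,⟨0,[(47,0)]⟩⟩ ⟨false,1,⟨1,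
  [(22,0),(0,0),(20,0)]⟩,⟨0,[]⟩⟩,.o ⟨false,1,⟨1,[(3,1),(36,0),(4,0)]⟩,⟨1,[(2,0),(20,0),(16,0),(2,
  0)]⟩⟩,.e ⟨false,1,⟨0,[(45,0)]⟩,⟨0,[(47,0)]⟩⟩ ⟨false,1,⟨1,[(22,0),(0,0),(21,0)]⟩,⟨0,[]⟩⟩,.a ⟨true,
  0,⟨18,[(3,14),(0,3),(5,1),(16,1),(2,5),(8,1),(6,2)]⟩,⟨0,[(0,0)]⟩⟩ ⟨true,1,⟨1,[(44,0),(0,0)]⟩,⟨0,
  [(10,0),(3,0),(12,0)]⟩⟩ ⟨false,1,⟨1,[(44,0),(0,0)]⟩,⟨1,[(29,0),(0,0)]⟩⟩]⟩) (.S ⟨1,0,[0,-1],[1,0,0,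
  0,-1],[],(⟨0,[(24,0)]⟩,⟨0,[(25,0)]⟩),⟨0,[(1,0)]⟩,.k,(.r (-1) ⟨7,[(17,3),(0,1),(3,0),(0,0),(16,0),
  (4,1)]⟩ ⟨1,[(11,0),(15,0),(2,0),(12,0),(3,1)]⟩),⟨true,0,⟨0,[(47,0)]⟩,⟨0,[]⟩⟩,⟨false,1,⟨1,[(22,0),
  (0,0),(21,0)]⟩,⟨0,[]⟩⟩,⟨false,0,⟨0,[(43,0)]⟩,⟨3,[(18,1),(3,0),(0,0),(16,0),(4,1)]⟩⟩,⟨true,0,⟨0,
  [(43,0)]⟩,⟨0,[(42,0)]⟩⟩,[.o ⟨false,1,⟨2,[(0,1),(16,0),(4,0),(20,0),(1,0)]⟩,⟨1,[(2,0),(20,0),(16,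
  0),(2,0)]⟩⟩,.a ⟨true,1,⟨0,[(3,0),(41,0)]⟩,⟨0,[(2,0),(40,0)]⟩⟩ ⟨false,1,⟨1,[(44,0),(0,0)]⟩,⟨0,[(47,
  0)]⟩⟩ ⟨true,1,⟨0,[(45,0)]⟩,⟨0,[(0,0),(1,0),(40,0)]⟩⟩,.e ⟨false,1,⟨1,[(22,0),(0,0),(21,0)]⟩,⟨0,
  []⟩⟩ ⟨false,1,⟨0,[(45,0)]⟩,⟨0,[(47,0)]⟩⟩,.o ⟨false,0,⟨0,[(0,0)]⟩,⟨1,[(23,1),(16,0),(3,0)]⟩⟩]⟩))
  (.Q [0,0,1,0,0,0,0,0,-1,0,0,-1] (.p false [0,0,0,0,1] [] (⟨0,[(24,0)]⟩,⟨0,[(23,0)]⟩) .k 0 (⟨0,[]⟩,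
  ⟨0,[]⟩) .k .k) (.R ⟨0,false,false,false,[1,0,0,0,-1],[0,1],[1,0,1,1],(⟨0,[(24,0)]⟩,⟨0,[(25,0)]⟩),
  (⟨0,[(36,0)]⟩,⟨0,[(35,0)]⟩),⟨0,[(1,0)]⟩,.k,.k,(.r (-1) ⟨7,[(17,3),(0,1),(3,0),(0,0),(16,0),(4,
  1)]⟩ ⟨1,[(11,0),(15,0),(2,0),(12,0),(3,1)]⟩),(.r (-1) ⟨7,[(17,3),(0,1),(3,0),(0,0),(16,0),(4,1)]⟩
  ⟨1,[(11,0),(15,0),(2,0),(12,0),(3,1)]⟩),.k,.k,⟨true,0,⟨0,[]⟩,⟨1,[(29,0),(0,0)]⟩⟩,⟨false,1,⟨1,[(16,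
  0),(0,0),(5,1),(16,0),(2,1)]⟩,⟨7,[(0,2),(2,2),(0,1),(14,0),(19,1),(6,0),(0,1)]⟩⟩,⟨false,0,⟨1,[(11,
  0),(15,0),(2,0),(12,0)]⟩,⟨7,[(17,3),(0,1),(3,0),(0,0),(16,0),(4,1)]⟩⟩,⟨true,0,⟨1,[(2,0),(20,0),
  (16,0),(2,2)]⟩,⟨21,[(0,7),(2,13),(2,1),(1,1),(0,3),(8,3),(20,0),(5,2)]⟩⟩,⟨false,0,⟨0,[]⟩,⟨0,[]⟩⟩,
  ⟨false,0,⟨0,[]⟩,⟨0,[]⟩⟩,[.e ⟨false,0,⟨0,[(43,0)]⟩,⟨3,[(18,1),(3,0),(0,0),(16,0),(3,1)]⟩⟩ ⟨false,1,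
  ⟨1,[(23,1),(16,0),(2,1),(0,0)]⟩,⟨21,[(0,7),(2,13),(2,1),(1,1),(0,3),(8,3),(20,0),(5,2)]⟩⟩,.o
  ⟨false,1,⟨1,[(40,0),(2,1),(1,0)]⟩,⟨0,[(42,0)]⟩⟩,.a ⟨true,0,⟨0,[(3,0)]⟩,⟨0,[(23,0)]⟩⟩ ⟨true,0,⟨1,
  [(11,0),(15,0),(2,0),(12,0)]⟩,⟨0,[(41,0)]⟩⟩ ⟨false,1,⟨1,[(23,1),(16,0),(2,1),(1,0)]⟩,⟨21,[(0,7),
  (2,13),(2,1),(1,1),(0,3),(8,3),(20,0),(5,2)]⟩⟩,.o ⟨false,0,⟨0,[(0,0)]⟩,⟨1,[(23,1),(16,0),(3,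
  0)]⟩⟩]⟩) (.R ⟨0,false,false,true,[-1,1,0,0,1],[0,0,0,0,1],[0,2,1],(⟨0,[(1,0)]⟩,⟨0,[(24,0),(10,
  0)]⟩),(⟨0,[(25,0)]⟩,⟨0,[(24,0)]⟩),⟨0,[(24,0)]⟩,(.r 0 ⟨1,[(11,0),(15,0),(2,0),(12,0),(3,1)]⟩ ⟨7,
  [(17,3),(0,1),(3,0),(0,0),(16,0),(4,1)]⟩),.k,.k,.k,.k,.k,⟨true,0,⟨1,[(29,0),(0,0)]⟩,⟨0,[]⟩⟩,
  ⟨false,0,⟨63,[(4,11),(14,5),(3,11),(9,15),(1,15),(1,5),(1,20),(4,8)]⟩,⟨1,[(40,0),(3,0)]⟩⟩,⟨true,0,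
  ⟨0,[(42,0)]⟩,⟨0,[(43,0)]⟩⟩,⟨false,0,⟨127,[(4,11),(13,63),(0,5),(3,11),(9,15),(1,15),(1,5),(1,20),
  (4,8)]⟩,⟨1,[(40,0),(2,1),(1,0)]⟩⟩,⟨false,0,⟨0,[]⟩,⟨0,[]⟩⟩,⟨false,0,⟨0,[]⟩,⟨0,[]⟩⟩,[.a ⟨true,(-1),
  ⟨0,[(2,0),(40,0)]⟩,⟨0,[(3,0),(41,0)]⟩⟩ ⟨true,(-1),⟨0,[(10,0),(3,0),(12,0)]⟩,⟨0,[(45,0)]⟩⟩ ⟨false,
  (-1),⟨21,[(2,6),(0,6),(2,1),(3,7),(8,4),(7,9),(9,3),(1,4),(3,10)]⟩,⟨1,[(40,0),(3,0),(0,1)]⟩⟩,.o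
  ⟨false,0,⟨1,[(2,0),(20,0),(16,0),(2,0)]⟩,⟨1,[(3,1),(36,0),(4,0)]⟩⟩,.o ⟨false,1,⟨0,[(0,0),(39,0)]⟩,
  ⟨18,[(3,14),(0,3),(5,1),(16,1),(2,5),(8,1),(6,2)]⟩⟩,.o ⟨false,1,⟨0,[(23,0),(16,0)]⟩,⟨0,[(3,
  0)]⟩⟩]⟩)))) (.Q [0,-1,-2,0,1,0,-1,0,-1,1,-1,-1] (.p false [0,0,1] [1,0,0,0,-1] (⟨0,[(29,0)]⟩,⟨0,
  [(28,0)]⟩) .k 2 (⟨0,[(21,0)]⟩,⟨0,[(22,0)]⟩) .k (.r 0 ⟨0,[(11,0),(12,0)]⟩ ⟨1,[(10,1),(30,0),(0,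
  0)]⟩)) (.R ⟨0,false,false,true,[0,-1,1],[1,0,0,0,-1],[1],(⟨0,[(19,0)]⟩,⟨175,[(2,11),(14,5),(3,11),
  (7,175),(1,31),(3,5),(0,47),(0,20),(4,8)]⟩),(⟨0,[(22,0)]⟩,⟨0,[(23,0)]⟩),⟨2,[(3,0),(14,1),(12,0),
  (4,2)]⟩,.k,.k,(.r (-1) ⟨0,[(10,0),(1,0),(2,0)]⟩ ⟨1,[(9,2),(15,0),(2,0),(12,0),(3,1)]⟩),(.r (-1)
  ⟨3,[(10,3),(6,1),(2,0),(0,0),(16,0),(3,1)]⟩ ⟨0,[(9,0)]⟩),.k,.k,⟨true,0,⟨0,[]⟩,⟨1,[(27,0),(0,0)]⟩⟩,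
  ⟨false,1,⟨15,[(0,11),(16,1),(2,3),(14,5),(1,0),(4,0)]⟩,⟨0,[(1,0),(25,0)]⟩⟩,⟨false,0,⟨0,[(9,0)]⟩,
  ⟨3,[(10,1),(4,1),(1,1),(7,1),(12,0),(4,0)]⟩⟩,⟨true,0,⟨3,[(0,2),(1,0),(5,3),(8,0),(23,3)]⟩,⟨0,[(1,
  0),(8,0)]⟩⟩,⟨false,0,⟨0,[]⟩,⟨0,[]⟩⟩,⟨false,0,⟨0,[]⟩,⟨0,[]⟩⟩,[.o ⟨false,1,⟨0,[(20,0)]⟩,⟨0,[(1,
  0)]⟩⟩,.e ⟨false,1,⟨1,[(42,0),(0,0)]⟩,⟨0,[(45,0)]⟩⟩ ⟨false,1,⟨0,[(0,0)]⟩,⟨0,[(1,0),(9,0),(13,0)]⟩⟩,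
  .a ⟨true,0,⟨0,[(27,0)]⟩,⟨0,[(24,0)]⟩⟩ ⟨true,0,⟨0,[]⟩,⟨0,[(45,0)]⟩⟩ ⟨false,1,⟨3,[(0,2),(1,0),(14,
  0)]⟩,⟨0,[(1,0),(25,0)]⟩⟩,.e ⟨false,1,⟨1,[(42,0),(0,0)]⟩,⟨1,[(27,0),(0,0)]⟩⟩ ⟨false,1,⟨0,[(0,0)]⟩,
  ⟨1,[(1,1),(25,2),(0,0)]⟩⟩]⟩) (.Q [0,0,-1,0,1,0,1,0,-1,0,1,-1] (.p true [0,0,1] [0,0,0,0,1] (⟨0,
  [(30,0)]⟩,⟨0,[(29,0)]⟩) .k 2 (⟨0,[(23,0)]⟩,⟨0,[(22,0)]⟩) .k (.r (-1) ⟨0,[(12,0),(12,0),(17,0)]⟩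
  ⟨6,[(5,0),(3,0),(1,4),(23,3)]⟩)) (.Q [0,-1,-1,0,1,0,-1,0,-1,1,-1,-1] (.p false [0,0,1] [1,0,0,0,
  -1] (⟨0,[(31,0)]⟩,⟨0,[(30,0)]⟩) .k 2 (⟨0,[(23,0)]⟩,⟨0,[(24,0)]⟩) .k (.r 0 ⟨0,[(13,0),(12,0)]⟩ ⟨1,
  [(12,1),(30,0),(0,0)]⟩)) (.R ⟨0,false,false,true,[0,-1,1],[1,0,0,0,-1],[1],(⟨0,[(21,0)]⟩,⟨54,[(0,
  2),(3,2),(18,5),(7,54),(1,9),(3,2),(0,14),(0,5)]⟩),(⟨0,[(24,0)]⟩,⟨0,[(25,0)]⟩),⟨2,[(5,0),(14,1),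
  (12,0),(4,2)]⟩,.k,.k,(.r (-1) ⟨0,[(12,0),(1,0),(2,0)]⟩ ⟨7,[(2,2),(1,2),(6,7),(7,2),(17,3),(5,
  7)]⟩),(.r (-1) ⟨3,[(12,3),(6,1),(2,0),(0,0),(16,0),(3,1)]⟩ ⟨0,[(11,0)]⟩),.k,.k,⟨true,0,⟨0,[]⟩,⟨3,
  [(2,0),(1,0),(14,0)]⟩⟩,⟨false,1,⟨2,[(0,2),(15,0),(20,0),(5,0)]⟩,⟨2,[(1,0),(0,1),(0,0),(19,0),(21,
  0)]⟩⟩,⟨false,0,⟨0,[(11,0)]⟩,⟨3,[(12,1),(4,1),(1,1),(7,1),(12,0),(4,0)]⟩⟩,⟨true,0,⟨0,[(0,0),(9,0),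
  (32,0)]⟩,⟨0,[(3,0),(8,0)]⟩⟩,⟨false,0,⟨0,[]⟩,⟨0,[]⟩⟩,⟨false,0,⟨0,[]⟩,⟨0,[]⟩⟩,[.o ⟨false,1,⟨0,[(22,
  0)]⟩,⟨0,[(3,0)]⟩⟩,.a ⟨true,1,⟨31,[(0,15),(0,1),(2,13),(28,3),(1,3),(3,5),(4,4),(0,0)]⟩,⟨2,[(2,1),
  (0,0),(4,0),(5,0),(1,0),(10,0),(11,0),(3,1)]⟩⟩ ⟨false,1,⟨1,[(44,0),(0,0)]⟩,⟨7,[(2,0),(1,0),(14,0),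
  (17,3)]⟩⟩ ⟨true,1,⟨0,[(0,0)]⟩,⟨0,[(2,0)]⟩⟩,.a ⟨true,0,⟨0,[(29,0)]⟩,⟨0,[(26,0)]⟩⟩ ⟨true,0,⟨0,[]⟩,
  ⟨7,[(2,0),(1,0),(14,0),(17,3)]⟩⟩ ⟨false,1,⟨0,[(0,0)]⟩,⟨2,[(1,0),(0,1),(0,0),(19,0),(21,0)]⟩⟩,.a
  ⟨true,0,⟨16,[(2,6),(1,9),(18,2),(9,0),(1,0),(3,2),(7,2)]⟩,⟨0,[(8,0),(18,0),(15,0)]⟩⟩ ⟨false,1,⟨1,
  [(44,0),(0,0)]⟩,⟨3,[(2,0),(1,0),(14,0)]⟩⟩ ⟨true,1,⟨2,[(0,2),(15,0),(20,0),(5,0)]⟩,⟨0,[(2,0)]⟩⟩]⟩)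
  (.I [0,0,0,0,0,-1,-1] (.I [0,0,-1,0,1,0,0,0,-1] (.I [0,1,0,-2,0,0,0,1] (.I [0,1,1,0,-1,0,0,0,1]
  (.I [0,-1,2,0,1,0,0,0,-1] (.I [1,1,0,-2,0,1,1,1] (.I [5,0,0,0,-1,6] (.I [0,1,0,0,0,-2,1] (.C [(0,
  0),(0,0),(5,2),(0,0),(0,0),(3,1),(32,0),(6,0)]) (.C [(0,0),(7,0),(0,0),(3,0),(8,0)])) (.C [(0,0),
  (44,1),(0,0)])) (.C [(0,0),(10,0),(3,0),(28,0)])) (.C [(0,0),(8,0),(9,0),(10,0)])) (.C [(0,0),(3,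
  0),(13,0),(9,0)])) (.C [(0,0),(11,0),(4,0)])) (.C [(0,0),(2,0),(12,0),(10,0)])) (.C [(0,0),(14,0),
  (6,0)]))) (.R ⟨0,false,false,false,[0,-1,1],[0,0,0,0,1],[1,1],(⟨0,[(20,0)]⟩,⟨175,[(3,11),(14,5),
  (3,11),(7,175),(1,31),(3,5),(0,47),(0,20),(4,8)]⟩),(⟨0,[(24,0)]⟩,⟨0,[(23,0)]⟩),⟨2,[(4,0),(14,1),
  (12,0),(4,2)]⟩,.k,.k,(.r (-1) ⟨0,[(11,0),(1,0),(2,0)]⟩ ⟨7,[(1,2),(1,2),(6,7),(7,2),(17,3),(5,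
  7)]⟩),(.r (-2) ⟨3,[(11,3),(6,1),(2,0),(0,0),(16,0),(3,1),(0,3)]⟩ ⟨0,[(9,0),(32,0)]⟩),.k,.k,⟨true,
  0,⟨0,[]⟩,⟨3,[(1,0),(1,0),(14,0)]⟩⟩,⟨false,0,⟨1,[(0,0),(1,0),(12,0),(0,0),(8,0),(16,1)]⟩,⟨6,[(3,4),
  (2,0),(3,0),(10,1),(4,1),(9,1)]⟩⟩,⟨true,(-1),⟨0,[(9,0),(32,0)]⟩,⟨3,[(11,1),(4,1),(1,1),(7,1),(12,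
  0),(4,0)]⟩⟩,⟨false,(-1),⟨9,[(0,8),(5,5),(2,0),(0,1),(11,0),(4,0),(14,13)]⟩,⟨0,[(11,0),(9,0),(22,
  0)]⟩⟩,⟨false,0,⟨0,[]⟩,⟨0,[]⟩⟩,⟨false,0,⟨0,[]⟩,⟨0,[]⟩⟩,[.a ⟨true,(-1),⟨8,[(0,2),(0,2),(0,2),(12,3),
  (20,0),(1,2),(3,3)]⟩,⟨2,[(3,0),(3,0),(3,0),(9,1),(16,0),(3,1),(1,0)]⟩⟩ ⟨false,0,⟨2,[(15,0),(20,0),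
  (5,0)]⟩,⟨1,[(21,0),(0,0),(21,0)]⟩⟩ ⟨true,(-1),⟨0,[(0,0),(14,0),(26,0)]⟩,⟨0,[(3,0)]⟩⟩,.o ⟨false,0,
  ⟨0,[(2,0)]⟩,⟨0,[(21,0)]⟩⟩,.a ⟨true,0,⟨0,[(28,0)]⟩,⟨0,[(25,0)]⟩⟩ ⟨false,0,⟨0,[]⟩,⟨1,[(21,0),(0,0),
  (21,0)]⟩⟩ ⟨true,(-1),⟨0,[(0,0),(14,0),(26,0)]⟩,⟨6,[(3,4),(2,0),(3,0),(10,1),(4,1),(9,1)]⟩⟩,.a
  ⟨true,0,⟨16,[(1,6),(1,9),(18,2),(9,0),(1,0),(3,2),(7,2)]⟩,⟨0,[(7,0),(18,0),(15,0)]⟩⟩ ⟨true,0,⟨2,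
  [(15,0),(20,0),(5,0)]⟩,⟨3,[(1,0),(1,0),(14,0)]⟩⟩ ⟨false,0,⟨1,[(0,0),(1,0),(12,0),(0,0),(8,0),(16,
  1)]⟩,⟨0,[(3,0)]⟩⟩]⟩))))))

theorem ok43 : chk K t43 l29 = true := by decide +kernel

noncomputable def t44 : Tre :=
  (.R ⟨0,false,false,true,[1,-1,-1],[0,-1,1],[1],(⟨0,[(15,0)]⟩,⟨52,[(1,2),(6,2),(4,2),(13,52),(0,7),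
  (3,2),(0,14),(0,5),(4,2)]⟩),(⟨0,[(16,0)]⟩,⟨52,[(1,2),(6,2),(4,2),(12,52),(1,7),(3,2),(0,14),(0,5),
  (4,2)]⟩),⟨7,[(0,1),(1,1),(13,5),(5,1),(10,5),(1,0),(2,1),(1,0)]⟩,.k,.k,(.x 1 ⟨0,[(0,0)]⟩ ⟨11,[(2,
  1),(3,3),(5,1),(2,17),(0,5),(5,5),(1,5),(10,8),(3,12)]⟩),.k,.k,.k,⟨true,0,⟨0,[(6,0)]⟩,⟨0,[(7,0),
  (1,0)]⟩⟩,⟨false,1,⟨1,[(2,1),(3,1),(15,3),(12,0),(4,0)]⟩,⟨0,[(14,0)]⟩⟩,⟨false,1,⟨15,[(1,11),(2,3),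
  (9,1),(17,1),(2,0),(3,2)]⟩,⟨11,[(2,7),(2,1),(2,1),(4,1),(21,0),(4,0)]⟩⟩,⟨true,1,⟨1,[(22,3),(12,0),
  (4,0)]⟩,⟨2,[(3,1),(1,2),(0,0),(7,0),(23,0)]⟩⟩,⟨false,0,⟨0,[]⟩,⟨0,[]⟩⟩,⟨false,0,⟨0,[]⟩,⟨0,[]⟩⟩,[.a
  ⟨true,0,⟨0,[(7,0)]⟩,⟨0,[(6,0),(14,0)]⟩⟩ ⟨true,0,⟨0,[]⟩,⟨4,[(1,0),(2,0),(0,0),(2,0),(16,0)]⟩⟩
  ⟨false,1,⟨1,[(2,1),(19,3),(12,0),(4,0)]⟩,⟨0,[(6,0),(7,0)]⟩⟩,.o ⟨false,1,⟨1,[(7,1),(27,0),(4,0)]⟩,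
  ⟨9,[(3,1),(1,0),(0,2),(2,1),(13,3),(11,0),(2,8)]⟩⟩,.o ⟨false,0,⟨0,[(25,0)]⟩,⟨5,[(2,1),(3,3),(5,1),
  (9,5),(12,2),(3,0)]⟩⟩,.o ⟨false,0,⟨4,[(1,0),(2,0),(0,0),(2,0),(16,5)]⟩,⟨1,[(2,1),(19,1),(12,0),(2,
  1),(1,0)]⟩⟩]⟩)

theorem ok44 : chk K t44 l30 = true := by decide +kernel

noncomputable def t45 : Tre :=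
  (.Q [0,0,0,0,0,2,0,0,0,-1,1] (.p true [0,0,1] [1] (⟨0,[(28,0)]⟩,⟨0,[(27,0)]⟩) .k 1 (⟨0,[]⟩,⟨0,
  []⟩) .k .k) (.R ⟨0,false,false,true,[1,-1,-1],[0,-1,1],[1],(⟨0,[(17,0)]⟩,⟨10,[(0,4),(2,0),(6,0),
  (4,0),(13,5),(0,0),(3,0),(1,1),(4,0)]⟩),(⟨0,[(18,0)]⟩,⟨52,[(3,2),(6,2),(4,2),(12,52),(1,7),(3,2),
  (0,14),(0,5),(4,2)]⟩),⟨0,[(0,0)]⟩,.k,.k,(.r (-1) ⟨6,[(4,1),(5,4),(3,6),(19,0),(4,4)]⟩ ⟨0,[(1,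
  0)]⟩),.k,.k,.k,⟨true,0,⟨0,[(8,0)]⟩,⟨0,[(9,0),(1,0)]⟩⟩,⟨false,1,⟨0,[(0,0),(1,0),(23,0)]⟩,⟨0,[(16,
  0)]⟩⟩,⟨false,1,⟨15,[(3,11),(2,3),(9,1),(17,1),(2,0),(3,2)]⟩,⟨11,[(4,7),(2,1),(2,1),(4,1),(21,0),
  (4,0)]⟩⟩,⟨true,1,⟨1,[(24,3),(12,0),(4,0)]⟩,⟨2,[(5,1),(1,2),(0,0),(7,0),(23,0)]⟩⟩,⟨false,0,⟨0,[]⟩,
  ⟨0,[]⟩⟩,⟨false,0,⟨0,[]⟩,⟨0,[]⟩⟩,[.a ⟨true,0,⟨0,[(9,0)]⟩,⟨0,[(8,0),(14,0)]⟩⟩ ⟨true,0,⟨0,[]⟩,⟨4,[(3,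
  0),(2,0),(0,0),(2,0),(16,0)]⟩⟩ ⟨false,1,⟨0,[(0,0),(1,0),(6,0)]⟩,⟨0,[(8,0),(7,0)]⟩⟩,.o ⟨false,1,⟨1,
  [(9,1),(27,0),(4,0)]⟩,⟨19,[(1,1),(3,5),(1,2),(0,4),(16,7),(11,2),(2,16)]⟩⟩,.o ⟨false,0,⟨0,[(27,
  0)]⟩,⟨3,[(0,1),(1,1),(23,1),(10,0),(3,0)]⟩⟩,.o ⟨false,0,⟨4,[(3,0),(2,0),(0,0),(2,0),(16,5)]⟩,⟨0,
  [(0,0),(1,0)]⟩⟩]⟩) (.S ⟨1,0,[0,0,-1,-1,0,0,0,-1],[1,-1,-1],[1,1,-1,-2,0,0,0,-1],(⟨0,[(17,0)]⟩,⟨52,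
  [(3,2),(6,2),(4,2),(13,52),(0,7),(3,2),(0,14),(0,5),(4,2)]⟩),⟨0,[(0,0)]⟩,.k,(.r (-1) ⟨6,[(4,1),(5,
  4),(3,6),(19,0),(4,4)]⟩ ⟨0,[(1,0)]⟩),⟨true,0,⟨0,[(39,0)]⟩,⟨0,[(40,0)]⟩⟩,⟨false,1,⟨1,[(19,0),(0,0),
  (21,0)]⟩,⟨0,[]⟩⟩,⟨false,0,⟨0,[]⟩,⟨1,[(19,0),(0,0),(21,0)]⟩⟩,⟨true,0,⟨0,[(40,0)]⟩,⟨0,[(39,0)]⟩⟩,
  [.o ⟨false,0,⟨25,[(5,9),(1,8),(2,5),(4,7),(9,0),(1,4),(9,8)]⟩,⟨2,[(2,0),(0,0),(14,0),(5,1),(10,0),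
  (1,0),(2,0)]⟩⟩,.a ⟨true,0,⟨4,[(5,1),(2,2),(6,2),(11,0)]⟩,⟨0,[(24,0),(15,0)]⟩⟩ ⟨true,0,⟨4,[(4,2),
  (0,0),(0,1),(0,2),(7,0),(21,0),(4,1)]⟩,⟨0,[(1,0)]⟩⟩ ⟨false,1,⟨5,[(4,1),(3,0),(1,2),(3,4),(26,0)]⟩,
  ⟨2,[(1,1),(7,0),(1,0),(22,0)]⟩⟩,.o ⟨false,0,⟨0,[(27,0)]⟩,⟨9,[(2,5),(23,3),(2,5),(5,3),(1,2),(3,
  0)]⟩⟩,.o ⟨false,0,⟨4,[(3,0),(2,0),(0,0),(2,0),(16,5)]⟩,⟨5,[(2,3),(1,1),(13,3),(5,1),(10,3),(1,0),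
  (2,1),(1,0)]⟩⟩]⟩))

theorem ok45 : chk K t45 l31 = true := by decide +kernel

noncomputable def t46 : Tre :=
  (.Q [0,0,0,0,0,1,0,0,0,-1,0,1] (.ed false [0,1,0,0,1] .k) (.R ⟨0,false,false,false,[1,0,0,0,-1],
  [1,0,-1],[0,0,0,-1],(⟨0,[(22,0)]⟩,⟨0,[(23,0)]⟩),(⟨0,[(29,0)]⟩,⟨0,[(30,0)]⟩),⟨0,[(0,0)]⟩,.k,.k,(.r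
  (-1) ⟨7,[(15,3),(0,1),(3,0),(0,0),(16,0),(4,1)]⟩ ⟨1,[(4,0),(3,0),(26,0),(9,0)]⟩),.k,.k,.k,⟨false,
  1,⟨13,[(4,1),(5,9),(4,7),(1,5),(7,1),(12,2),(3,0)]⟩,⟨4,[(5,0),(3,3),(25,1),(5,1)]⟩⟩,⟨true,0,⟨0,
  [(12,0),(8,0)]⟩,⟨0,[(1,0),(6,0),(34,0)]⟩⟩,⟨true,0,⟨0,[(40,0)]⟩,⟨0,[(41,0)]⟩⟩,⟨false,0,⟨7,[(6,1),
  (1,0),(0,1),(11,7),(4,2),(1,0),(9,0)]⟩,⟨0,[(1,0),(41,0)]⟩⟩,⟨false,0,⟨0,[]⟩,⟨0,[]⟩⟩,⟨false,0,⟨0,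
  []⟩,⟨0,[]⟩⟩,[.o ⟨false,0,⟨7,[(6,1),(1,0),(0,1),(16,2),(1,0),(9,0)]⟩,⟨1,[(25,1),(12,0),(4,0)]⟩⟩,.e
  ⟨false,1,⟨7,[(15,3),(0,1),(3,0),(0,0),(16,0),(4,1)]⟩,⟨4,[(4,0),(3,0),(26,2),(5,2)]⟩⟩ ⟨false,1,⟨7,
  [(6,1),(2,1),(11,7),(4,3),(11,0),(3,2),(0,3)]⟩,⟨0,[(1,0)]⟩⟩,.a ⟨true,0,⟨2,[(1,1),(4,0),(2,0),(10,
  0),(16,0),(6,0)]⟩,⟨0,[(21,0)]⟩⟩ ⟨false,1,⟨3,[(16,1),(3,0),(0,0),(16,0),(4,1)]⟩,⟨0,[(41,0)]⟩⟩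
  ⟨true,0,⟨7,[(6,1),(1,0),(0,1),(11,7),(4,2),(1,0),(9,0)]⟩,⟨0,[(1,0)]⟩⟩,.o ⟨false,0,⟨0,[(1,0),(6,0),
  (3,0),(30,0)]⟩,⟨1,[(21,1),(16,0),(3,0)]⟩⟩]⟩) (.Q [0,2,0,1,-1,0,0,0,1,0,0,1] (.p true [0,0,0,0,1]
  [] (⟨0,[(23,0)]⟩,⟨0,[(22,0)]⟩) .k 0 (⟨0,[]⟩,⟨0,[]⟩) .k .k) (.K ⟨0,[0,1,0,0,1],0,(-1),(⟨52,[(5,2),
  (6,2),(4,2),(6,52),(7,7),(3,2),(0,14),(0,5),(4,2)]⟩,⟨0,[(1,0)]⟩),(.r 0 ⟨1,[(5,0),(3,0),(26,0),(9,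
  0)]⟩ ⟨7,[(16,3),(0,1),(3,0),(0,0),(16,0),(4,1)]⟩),.k,(.r 0 ⟨0,[(5,0),(3,0),(26,0)]⟩ ⟨9,[(3,1),(3,
  1),(0,3),(7,5),(22,0),(4,2)]⟩),(.r 1 ⟨0,[(9,0),(32,0)]⟩ ⟨13,[(5,7),(2,5),(7,3),(0,6),(0,2),(20,4),
  (3,10)]⟩),.k,[⟨0,[(2,0),(6,0),(34,0)]⟩,⟨0,[(22,0)]⟩,⟨11,[(2,2),(0,1),(5,0),(7,3),(3,8),(7,2),(9,
  1),(4,1)]⟩,⟨0,[(0,0)]⟩]⟩) (.R ⟨1,false,false,false,[1,0,0,0,-1],[1,0,-1],[],(⟨0,[(23,0)]⟩,⟨0,[(24,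
  0)]⟩),(⟨0,[(30,0)]⟩,⟨0,[(31,0)]⟩),⟨0,[(1,0)]⟩,.k,.k,(.r (-1) ⟨7,[(16,3),(0,1),(3,0),(0,0),(16,0),
  (4,1)]⟩ ⟨1,[(5,0),(3,0),(26,0),(9,0)]⟩),.k,(.r (-2) ⟨13,[(5,7),(2,5),(7,3),(0,6),(0,2),(20,4),(3,
  10)]⟩ ⟨0,[(9,0),(32,0)]⟩),.k,⟨false,1,⟨5,[(5,1),(9,1),(0,1),(1,1),(7,3),(12,0),(3,0)]⟩,⟨6,[(6,1),
  (3,1),(1,2),(23,0)]⟩⟩,⟨true,0,⟨0,[(13,0),(8,0)]⟩,⟨2,[(0,0),(1,1),(6,0),(0,0),(17,0)]⟩⟩,⟨true,0,⟨0,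
  [(46,0)]⟩,⟨0,[]⟩⟩,⟨false,0,⟨7,[(7,1),(1,0),(0,1),(11,7),(4,2),(1,0),(9,0)]⟩,⟨0,[(2,0),(41,0)]⟩⟩,
  ⟨false,0,⟨0,[(42,0)]⟩,⟨3,[(17,1),(3,0),(0,0),(16,0),(4,1)]⟩⟩,⟨false,0,⟨9,[(7,1),(1,0),(0,2),(2,1),
  (8,9),(4,3),(11,0),(2,8)]⟩,⟨0,[(0,0),(25,0)]⟩⟩,[.o ⟨false,0,⟨7,[(7,1),(1,0),(0,1),(16,2),(1,0),(9,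
  0)]⟩,⟨1,[(26,1),(12,0),(4,0)]⟩⟩,.e ⟨false,1,⟨1,[(43,0),(0,0)]⟩,⟨0,[(46,0)]⟩⟩ ⟨false,1,⟨7,[(7,1),
  (2,1),(11,7),(4,3),(11,0),(3,2),(0,3)]⟩,⟨0,[(2,0)]⟩⟩,.a ⟨true,0,⟨18,[(0,1),(1,11),(4,3),(1,1),(0,
  5),(7,1),(2,4),(10,2),(1,2),(3,4)]⟩,⟨0,[(22,0)]⟩⟩ ⟨false,1,⟨1,[(21,0),(0,0),(21,0)]⟩,⟨0,[]⟩⟩
  ⟨true,0,⟨7,[(7,1),(1,0),(0,1),(11,7),(4,2),(1,0),(9,0)]⟩,⟨0,[(2,0)]⟩⟩,.o ⟨false,0,⟨2,[(0,0),(1,1),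
  (6,0),(0,0),(2,0),(15,0)]⟩,⟨1,[(22,1),(16,0),(3,0)]⟩⟩]⟩)))

theorem ok46 : chk K t46 l32 = true := by decide +kernel

noncomputable def t47 : Tre :=
  (.Q [0,0,0,0,0,2,0,0,0,-1,1] (.p true [0,0,1] [1] (⟨0,[(30,0)]⟩,⟨0,[(29,0)]⟩) .k 1 (⟨0,[]⟩,⟨0,
  []⟩) .k .k) (.R ⟨0,false,false,true,[1,-1,-1],[0,-1,1],[1],(⟨0,[(19,0)]⟩,⟨10,[(0,4),(4,0),(6,0),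
  (4,0),(13,5),(0,0),(3,0),(1,1),(4,0)]⟩),(⟨0,[(20,0)]⟩,⟨52,[(5,2),(6,2),(4,2),(12,52),(1,7),(3,2),
  (0,14),(0,5),(4,2)]⟩),⟨0,[(0,0)]⟩,.k,.k,(.r 0 ⟨0,[(1,0)]⟩ ⟨0,[(5,0),(40,1)]⟩),.k,.k,.k,⟨true,0,⟨0,
  [(10,0)]⟩,⟨0,[(11,0),(1,0)]⟩⟩,⟨false,1,⟨0,[(0,0),(3,0),(23,0)]⟩,⟨0,[(18,0)]⟩⟩,⟨false,1,⟨15,[(5,
  11),(2,3),(9,1),(17,1),(2,0),(3,2)]⟩,⟨2,[(1,0),(4,0),(5,0)]⟩⟩,⟨true,1,⟨1,[(26,3),(12,0),(4,0)]⟩,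
  ⟨2,[(7,1),(1,2),(0,0),(7,0),(23,0)]⟩⟩,⟨false,0,⟨0,[]⟩,⟨0,[]⟩⟩,⟨false,0,⟨0,[]⟩,⟨0,[]⟩⟩,[.a ⟨true,0,
  ⟨0,[(11,0)]⟩,⟨0,[(10,0),(14,0)]⟩⟩ ⟨true,0,⟨0,[]⟩,⟨4,[(5,0),(2,0),(0,0),(2,0),(16,0)]⟩⟩ ⟨false,1,
  ⟨0,[(0,0),(3,0),(6,0)]⟩,⟨0,[(10,0),(7,0)]⟩⟩,.o ⟨false,1,⟨1,[(11,1),(27,0),(4,0)]⟩,⟨9,[(7,1),(1,0),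
  (0,2),(2,1),(13,3),(11,0),(2,8)]⟩⟩,.o ⟨false,0,⟨0,[(29,0)]⟩,⟨3,[(0,1),(3,1),(23,1),(10,0),(3,
  0)]⟩⟩,.o ⟨false,0,⟨4,[(5,0),(2,0),(0,0),(2,0),(16,5)]⟩,⟨0,[(0,0),(3,0)]⟩⟩]⟩) (.Q [0,0,-1,0,0,0,-1,
  0,1,0,-1,1] (.p false [0,0,1] [0,0,0,0,1] (⟨0,[(31,0)]⟩,⟨0,[(30,0)]⟩) .k 2 (⟨0,[(24,0)]⟩,⟨0,[(23,
  0)]⟩) .k (.r (-1) ⟨1,[(5,0),(5,0),(1,0),(2,0)]⟩ ⟨6,[(6,0),(3,0),(1,4),(23,3)]⟩)) (.I [0,0,-3,0,1,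
  -3,0,0,1] (.Q [0,1,-2,0,-1,0,-1,0,1,0,-1,1] (.p false [0,0,1] [0,0,0,0,1] (⟨0,[(33,0)]⟩,⟨0,[(32,
  0)]⟩) .k 2 (⟨0,[(26,0)]⟩,⟨0,[(25,0)]⟩) .k (.r (-1) ⟨1,[(7,0),(5,0),(1,0),(2,0)]⟩ ⟨6,[(8,0),(3,0),
  (1,4),(23,3)]⟩)) (.R ⟨0,false,false,false,[0,-1,1],[0,0,0,0,1],[1,1],(⟨0,[(23,0)]⟩,⟨52,[(8,2),(6,
  2),(4,2),(12,52),(1,7),(3,2),(0,14),(0,5),(4,2)]⟩),(⟨0,[(27,0)]⟩,⟨0,[(26,0)]⟩),⟨2,[(3,0),(18,1),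
  (12,0),(4,2)]⟩,.k,.k,(.r (-1) ⟨0,[(14,0),(1,0),(2,0)]⟩ ⟨6,[(8,3),(3,3),(0,5),(1,0),(23,4)]⟩),(.r
  (-2) ⟨13,[(8,7),(2,5),(7,3),(0,6),(0,2),(20,4),(3,10)]⟩ ⟨0,[(12,0),(32,0)]⟩),.k,.k,⟨true,0,⟨0,[]⟩,
  ⟨4,[(8,0),(2,0),(0,0),(2,0),(16,0)]⟩⟩,⟨false,0,⟨9,[(0,4),(1,3),(2,0),(2,0),(10,1),(26,1)]⟩,⟨0,
  [(24,0),(6,0)]⟩⟩,⟨true,(-1),⟨0,[(12,0),(32,0)]⟩,⟨13,[(8,1),(5,9),(4,7),(1,5),(7,1),(12,2),(3,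
  0)]⟩⟩,⟨false,(-1),⟨3,[(0,2),(4,0),(2,0),(3,1),(0,1)]⟩,⟨0,[(14,0),(9,0),(22,0)]⟩⟩,⟨false,0,⟨0,[]⟩,
  ⟨0,[]⟩⟩,⟨false,0,⟨0,[]⟩,⟨0,[]⟩⟩,[.e ⟨false,0,⟨2,[(18,0),(20,0),(5,0)]⟩,⟨1,[(24,0),(0,0),(21,0)]⟩⟩
  ⟨false,(-1),⟨0,[(0,0)]⟩,⟨1,[(24,2),(0,0),(5,1),(15,0)]⟩⟩,.o ⟨false,0,⟨3,[(0,2),(4,0),(2,0),(2,0),
  (0,0),(18,2),(10,1),(4,0)]⟩,⟨0,[(24,0)]⟩⟩,.a ⟨true,0,⟨0,[(31,0)]⟩,⟨0,[(28,0)]⟩⟩ ⟨false,0,⟨0,[]⟩,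
  ⟨1,[(24,0),(0,0),(21,0)]⟩⟩ ⟨true,(-1),⟨7,[(0,6),(7,0),(2,0),(0,1),(12,0),(6,1)]⟩,⟨0,[(24,0),(6,
  0)]⟩⟩,.e ⟨true,0,⟨2,[(18,0),(20,0),(5,0)]⟩,⟨4,[(8,0),(2,0),(0,0),(2,0),(16,0)]⟩⟩ ⟨true,(-1),⟨0,
  [(0,0)]⟩,⟨2,[(8,0),(2,0),(0,0),(2,0),(8,2),(6,1)]⟩⟩]⟩) (.Q [0,0,1,0,0,0,0,0,-1,1,0,-1] (.p false
  [0,0,0,0,1] [1] (⟨0,[(27,0)]⟩,⟨0,[(26,0)]⟩) .k 1 (⟨0,[]⟩,⟨0,[]⟩) .k .k) (.Q [0,0,0,0,0,0,0,0,1,-1,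
  0,1] (.p true [0,0,0,0,1] [1] (⟨0,[(28,0)]⟩,⟨0,[(27,0)]⟩) .k 1 (⟨0,[]⟩,⟨0,[]⟩) .k .k) (.Q [0,-1,
  -2,0,1,0,-1,0,-1,1,-1,-1] (.p false [0,0,1] [1,0,0,0,-1] (⟨0,[(36,0)]⟩,⟨0,[(35,0)]⟩) .k 2 (⟨0,
  [(28,0)]⟩,⟨0,[(29,0)]⟩) .k (.r 0 ⟨0,[(18,0),(12,0)]⟩ ⟨1,[(17,1),(30,0),(0,0)]⟩)) (.R ⟨0,false,
  false,true,[0,-1,1],[1,0,0,0,-1],[1],(⟨0,[(26,0)]⟩,⟨57,[(3,1),(7,1),(11,1),(4,1),(4,1),(2,57),(1,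
  9),(3,1),(0,15),(0,6),(4,2)]⟩),(⟨0,[(29,0)]⟩,⟨0,[(30,0)]⟩),⟨2,[(6,0),(18,1),(12,0),(4,2)]⟩,.k,.k,
  (.r (-1) ⟨0,[(17,0),(1,0),(2,0)]⟩ ⟨6,[(11,3),(3,3),(0,5),(1,0),(23,4)]⟩),(.r (-1) ⟨15,[(11,3),(2,
  11),(9,5),(17,5),(2,2),(3,8)]⟩ ⟨0,[(16,0)]⟩),.k,.k,⟨true,0,⟨0,[]⟩,⟨7,[(3,0),(7,0),(2,0),(0,1),(12,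
  0),(6,1)]⟩⟩,⟨false,1,⟨7,[(0,6),(2,0),(20,0),(17,3)]⟩,⟨0,[(1,0),(32,0)]⟩⟩,⟨false,0,⟨0,[(16,0)]⟩,
  ⟨18,[(0,0),(4,0),(5,2),(5,15),(4,8),(1,6),(20,3),(3,1)]⟩⟩,⟨true,0,⟨5,[(0,3),(1,1),(12,3),(0,0),
  (16,0),(1,0),(12,4)]⟩,⟨0,[(1,0),(15,0)]⟩⟩,⟨false,0,⟨0,[]⟩,⟨0,[]⟩⟩,⟨false,0,⟨0,[]⟩,⟨0,[]⟩⟩,[.o
  ⟨false,1,⟨0,[(27,0)]⟩,⟨0,[(1,0)]⟩⟩,.e ⟨false,1,⟨1,[(49,0),(0,0)]⟩,⟨0,[(52,0)]⟩⟩ ⟨false,1,⟨0,[(0,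
  0)]⟩,⟨1,[(15,0),(12,1),(3,0),(1,0),(10,0)]⟩⟩,.a ⟨true,0,⟨0,[(34,0)]⟩,⟨0,[(31,0)]⟩⟩ ⟨true,0,⟨0,[]⟩,
  ⟨0,[(52,0)]⟩⟩ ⟨false,1,⟨3,[(0,2),(2,0),(20,0)]⟩,⟨0,[(1,0),(32,0)]⟩⟩,.e ⟨false,1,⟨1,[(49,0),(0,
  0)]⟩,⟨7,[(3,0),(7,0),(2,0),(0,1),(12,0),(6,1)]⟩⟩ ⟨false,1,⟨0,[(0,0)]⟩,⟨3,[(1,3),(1,0),(7,0),(2,0),
  (0,1),(12,0),(5,1)]⟩⟩]⟩) (.K ⟨0,[1,0,0,0,-1],0,1,(⟨0,[(29,0)]⟩,⟨0,[(30,0)]⟩),.k,(.r (-1) ⟨7,[(22,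
  3),(0,1),(3,0),(0,0),(16,0),(4,1)]⟩ ⟨9,[(0,0),(1,0),(8,4),(3,3),(17,0),(8,6)]⟩),(.r (-1) ⟨5,[(3,
  0),(7,2),(6,1),(9,0),(4,0),(15,1)]⟩ ⟨0,[(46,0)]⟩),.k,.k,[⟨0,[(0,0),(21,0),(25,0)]⟩,⟨0,[(2,0)]⟩,⟨0,
  [(0,0),(18,0),(1,0),(26,0)]⟩,⟨3,[(2,0),(0,1),(20,0),(2,0),(14,0),(1,0),(4,1)]⟩]⟩)) (.Q [0,0,0,0,0,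
  0,0,0,0,1,-1,-1] (.ed true [0,0,1,0,1] (.r 0 ⟨0,[(18,0),(12,0)]⟩ ⟨1,[(17,1),(30,0),(0,0)]⟩)) (.Q
  [0,0,2,0,0,0,1,0,-1,0,1,-1] (.p true [0,0,1] [0,0,0,0,1] (⟨0,[(37,0)]⟩,⟨0,[(36,0)]⟩) .k 2 (⟨0,
  [(30,0)]⟩,⟨0,[(29,0)]⟩) .k (.r (-1) ⟨1,[(11,0),(5,0),(1,0),(2,0)]⟩ ⟨6,[(12,0),(3,0),(1,4),(23,
  3)]⟩)) (.R ⟨0,false,false,false,[0,-1,1],[0,0,0,0,1],[1],(⟨0,[(27,0)]⟩,⟨57,[(4,1),(7,1),(11,1),(4,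
  1),(4,1),(2,57),(1,9),(3,1),(0,15),(0,6),(4,2)]⟩),(⟨0,[(31,0)]⟩,⟨0,[(30,0)]⟩),⟨2,[(7,0),(18,1),
  (12,0),(4,2)]⟩,.k,.k,(.r (-1) ⟨0,[(18,0),(1,0),(2,0)]⟩ ⟨6,[(12,3),(3,3),(0,5),(1,0),(23,4)]⟩),(.r
  (-2) ⟨13,[(12,7),(2,5),(7,3),(0,6),(0,2),(20,4),(3,10)]⟩ ⟨0,[(16,0),(32,0)]⟩),.k,.k,⟨false,1,⟨1,
  [(50,0),(0,0)]⟩,⟨0,[(53,0)]⟩⟩,⟨true,0,⟨0,[(6,0)]⟩,⟨0,[(0,0)]⟩⟩,⟨false,0,⟨0,[(17,0)]⟩,⟨13,[(12,1),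
  (5,9),(4,7),(1,5),(7,1),(12,2),(3,0)]⟩⟩,⟨true,(-1),⟨0,[(6,0),(9,0),(32,0)]⟩,⟨4,[(0,0),(1,3),(9,0),
  (2,0),(2,2),(4,1),(22,1)]⟩⟩,⟨false,0,⟨0,[]⟩,⟨0,[]⟩⟩,⟨false,0,⟨0,[]⟩,⟨0,[]⟩⟩,[.o ⟨false,0,⟨1,[(6,
  0),(9,0),(12,0),(3,0),(12,0)]⟩,⟨1,[(2,1),(43,0),(4,0)]⟩⟩,.a ⟨true,0,⟨0,[(29,0)]⟩,⟨0,[(2,0)]⟩⟩
  ⟨false,1,⟨1,[(50,0),(0,0)]⟩,⟨0,[(53,0)]⟩⟩ ⟨true,0,⟨0,[(6,0)]⟩,⟨0,[(0,0)]⟩⟩,.a ⟨true,0,⟨0,[(35,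
  0)]⟩,⟨0,[(32,0)]⟩⟩ ⟨true,0,⟨0,[]⟩,⟨0,[(53,0)]⟩⟩ ⟨false,0,⟨0,[(6,0)]⟩,⟨11,[(0,4),(1,1),(1,3),(6,2),
  (16,0),(9,2),(5,1),(6,3)]⟩⟩,.a ⟨true,0,⟨3,[(4,0),(7,0),(2,0),(0,1),(12,0),(5,1)]⟩,⟨0,[(14,0),(18,
  0),(15,0)]⟩⟩ ⟨false,1,⟨1,[(50,0),(0,0)]⟩,⟨7,[(4,0),(7,0),(2,0),(0,1),(12,0),(6,1)]⟩⟩ ⟨true,0,⟨2,
  [(6,2),(15,0),(20,0),(5,0)]⟩,⟨0,[(0,0)]⟩⟩]⟩) (.S ⟨1,0,[],[1,0,0,0,-1],[0,-1],(⟨0,[(30,0)]⟩,⟨0,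
  [(31,0)]⟩),⟨0,[(1,0),(25,0)]⟩,.k,(.r (-1) ⟨7,[(23,3),(0,1),(3,0),(0,0),(16,0),(4,1)]⟩ ⟨1,[(12,0),
  (3,0),(26,0),(9,0)]⟩),⟨false,1,⟨1,[(28,0),(0,0),(21,0)]⟩,⟨0,[]⟩⟩,⟨true,0,⟨0,[(53,0)]⟩,⟨0,[]⟩⟩,
  ⟨true,0,⟨0,[(49,0)]⟩,⟨0,[(48,0)]⟩⟩,⟨false,0,⟨0,[(49,0)]⟩,⟨3,[(24,1),(3,0),(0,0),(16,0),(4,1)]⟩⟩,
  [.e ⟨false,1,⟨1,[(50,0),(0,0)]⟩,⟨0,[(53,0)]⟩⟩ ⟨false,1,⟨1,[(28,0),(0,0),(20,0)]⟩,⟨0,[]⟩⟩,.o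
  ⟨false,1,⟨1,[(2,1),(43,0),(4,0)]⟩,⟨1,[(6,0),(9,0),(12,0),(3,0),(12,0)]⟩⟩,.e ⟨false,1,⟨0,[(51,0)]⟩,
  ⟨0,[(53,0)]⟩⟩ ⟨false,1,⟨1,[(28,0),(0,0),(21,0)]⟩,⟨0,[]⟩⟩,.a ⟨true,0,⟨0,[(3,0)]⟩,⟨0,[(0,0),(34,
  0)]⟩⟩ ⟨true,1,⟨1,[(50,0),(0,0)]⟩,⟨0,[(16,0),(3,0),(12,0)]⟩⟩ ⟨false,1,⟨1,[(50,0),(0,0)]⟩,⟨7,[(4,0),
  (7,0),(2,0),(0,1),(12,0),(6,1)]⟩⟩]⟩)) (.Q [0,0,0,0,0,1,0,0,0,-1,0,1] (.ed false [0,1,0,0,1] .k)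
  (.R ⟨0,false,false,true,[-1,1,0,0,1],[0,0,0,0,1],[0,2,1],(⟨0,[(0,0)]⟩,⟨0,[(30,0),(10,0)]⟩),(⟨0,
  [(31,0)]⟩,⟨0,[(30,0)]⟩),⟨0,[(30,0)]⟩,(.r 0 ⟨1,[(12,0),(3,0),(26,0),(9,0)]⟩ ⟨7,[(23,3),(0,1),(3,0),
  (0,0),(16,0),(4,1)]⟩),.k,.k,.k,.k,.k,⟨true,0,⟨7,[(4,0),(7,0),(2,0),(0,1),(12,0),(6,1)]⟩,⟨0,[]⟩⟩,
  ⟨false,0,⟨5,[(12,0),(6,0),(4,0),(14,0),(1,0),(1,0),(1,1),(4,0)]⟩,⟨1,[(46,0),(3,0)]⟩⟩,⟨true,0,⟨0,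
  [(48,0)]⟩,⟨0,[(49,0)]⟩⟩,⟨false,0,⟨11,[(12,0),(6,0),(4,6),(14,0),(1,0),(1,0),(1,1),(4,0)]⟩,⟨1,[(46,
  0),(2,1),(1,0)]⟩⟩,⟨false,0,⟨0,[]⟩,⟨0,[]⟩⟩,⟨false,0,⟨0,[]⟩,⟨0,[]⟩⟩,[.a ⟨true,(-1),⟨0,[(6,0),(9,0),
  (16,0)]⟩,⟨0,[(2,0),(48,0)]⟩⟩ ⟨true,(-1),⟨0,[(16,0),(3,0),(12,0)]⟩,⟨0,[(51,0)]⟩⟩ ⟨false,(-1),⟨17,
  [(16,11),(5,4),(2,5),(7,11),(9,1),(1,5),(3,4),(3,2)]⟩,⟨1,[(46,0),(3,0),(0,1)]⟩⟩,.o ⟨false,0,⟨1,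
  [(6,0),(9,0),(12,0),(3,0),(12,0)]⟩,⟨1,[(2,1),(43,0),(4,0)]⟩⟩,.o ⟨false,1,⟨11,[(0,5),(4,5),(0,0),
  (2,0),(2,1),(2,1),(0,2),(12,3),(14,3),(1,6)]⟩,⟨0,[(3,0)]⟩⟩,.o ⟨false,1,⟨0,[(29,0),(16,0)]⟩,⟨0,[(2,
  0)]⟩⟩]⟩) (.S ⟨1,0,[],[1,0,0,0,-1],[0,-1],(⟨0,[(30,0)]⟩,⟨0,[(31,0)]⟩),⟨0,[(0,0)]⟩,.k,(.r (-1) ⟨7,
  [(23,3),(0,1),(3,0),(0,0),(16,0),(4,1)]⟩ ⟨1,[(12,0),(3,0),(26,0),(9,0)]⟩),⟨false,1,⟨1,[(28,0),(0,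
  0),(21,0)]⟩,⟨0,[]⟩⟩,⟨true,0,⟨0,[(53,0)]⟩,⟨0,[]⟩⟩,⟨true,0,⟨0,[(49,0)]⟩,⟨0,[(48,0)]⟩⟩,⟨false,0,⟨0,
  [(49,0)]⟩,⟨3,[(24,1),(3,0),(0,0),(16,0),(4,1)]⟩⟩,[.e ⟨false,1,⟨1,[(50,0),(0,0)]⟩,⟨0,[(53,0)]⟩⟩
  ⟨false,1,⟨1,[(28,0),(0,0),(20,0)]⟩,⟨0,[]⟩⟩,.o ⟨false,1,⟨1,[(2,1),(43,0),(4,0)]⟩,⟨1,[(6,0),(9,0),
  (12,0),(3,0),(12,0)]⟩⟩,.e ⟨false,1,⟨0,[(51,0)]⟩,⟨0,[(53,0)]⟩⟩ ⟨false,1,⟨1,[(28,0),(0,0),(21,0)]⟩,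
  ⟨0,[]⟩⟩,.a ⟨true,0,⟨0,[(3,0)]⟩,⟨47,[(1,23),(3,23),(0,22),(0,23),(0,18),(3,26),(2,22),(0,30),(12,
  0),(14,39),(0,19),(3,29)]⟩⟩ ⟨true,1,⟨1,[(50,0),(0,0)]⟩,⟨0,[(16,0),(3,0),(12,0)]⟩⟩ ⟨false,1,⟨1,
  [(50,0),(0,0)]⟩,⟨7,[(4,0),(7,0),(2,0),(0,1),(12,0),(6,1)]⟩⟩]⟩)))) (.Q [0,0,0,0,0,-1,0,0,0,1,0,-1]
  (.ed true [0,1,0,0,1] .k) (.S ⟨1,0,[],[1,0,0,0,-1],[0,-1],(⟨0,[(28,0)]⟩,⟨0,[(29,0)]⟩),⟨0,[(0,0)]⟩,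
  .k,(.r (-1) ⟨7,[(21,3),(0,1),(3,0),(0,0),(16,0),(4,1)]⟩ ⟨1,[(10,0),(3,0),(26,0),(9,0)]⟩),⟨false,1,
  ⟨1,[(26,0),(0,0),(21,0)]⟩,⟨0,[]⟩⟩,⟨true,0,⟨0,[(51,0)]⟩,⟨0,[]⟩⟩,⟨true,0,⟨0,[(47,0)]⟩,⟨0,[(46,0)]⟩⟩,
  ⟨false,0,⟨0,[(47,0)]⟩,⟨3,[(22,1),(3,0),(0,0),(16,0),(4,1)]⟩⟩,[.o ⟨false,1,⟨0,[(26,0)]⟩,⟨9,[(1,7),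
  (5,0),(2,1),(2,1),(0,2),(12,0),(6,0),(9,0)]⟩⟩,.a ⟨true,1,⟨10,[(2,5),(7,2),(1,2),(7,4),(0,0),(4,4),
  (16,3),(3,2)]⟩,⟨8,[(1,8),(3,0),(4,0),(3,5),(1,1),(1,4),(6,0),(5,2),(5,2),(5,3),(6,0)]⟩⟩ ⟨true,1,
  ⟨0,[(49,0)]⟩,⟨0,[(14,0),(3,0),(12,0)]⟩⟩ ⟨false,1,⟨1,[(48,0),(0,0)]⟩,⟨0,[(51,0)]⟩⟩,.o ⟨false,1,⟨0,
  [(26,0)]⟩,⟨9,[(1,7),(5,0),(2,1),(2,1),(0,2),(12,0),(6,0),(9,0)]⟩⟩,.o ⟨false,1,⟨4,[(2,1),(23,2),(7,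
  1),(6,0)]⟩,⟨0,[(1,0)]⟩⟩]⟩) (.R ⟨0,false,false,true,[1,0,0,0,-1],[2,0,-1,0,-1],[0,-1],(⟨0,[(28,
  0)]⟩,⟨0,[(29,0)]⟩),(⟨0,[(28,0),(6,0)]⟩,⟨0,[(0,0),(24,0)]⟩),⟨0,[(0,0)]⟩,.k,.k,(.r (-1) ⟨7,[(21,3),
  (0,1),(3,0),(0,0),(16,0),(4,1)]⟩ ⟨1,[(10,0),(3,0),(26,0),(9,0)]⟩),.k,.k,.k,⟨true,1,⟨1,[(10,0),(5,
  0),(1,0),(2,0)]⟩,⟨0,[(14,0)]⟩⟩,⟨false,0,⟨0,[(30,0)]⟩,⟨1,[(33,1),(10,0),(3,0)]⟩⟩,⟨false,1,⟨1,[(26,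
  0),(0,0),(21,0)]⟩,⟨0,[]⟩⟩,⟨true,(-1),⟨0,[(14,0),(15,0)]⟩,⟨1,[(31,1),(12,0),(4,0)]⟩⟩,⟨false,0,⟨0,
  []⟩,⟨0,[]⟩⟩,⟨false,0,⟨0,[]⟩,⟨0,[]⟩⟩,[.e ⟨false,1,⟨1,[(48,0),(0,0)]⟩,⟨0,[(51,0)]⟩⟩ ⟨false,0,⟨47,
  [(12,13),(2,13),(16,19),(4,3),(1,3),(1,3),(1,14),(4,14)]⟩,⟨1,[(31,1),(12,0),(4,0)]⟩⟩,.a ⟨true,0,
  ⟨0,[(2,0),(3,0),(11,1),(24,0),(3,1)]⟩,⟨9,[(1,7),(8,1),(3,2),(1,3),(10,1),(3,6),(2,0),(9,0)]⟩⟩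
  ⟨true,1,⟨0,[(49,0)]⟩,⟨0,[(14,0),(3,0),(12,0)]⟩⟩ ⟨false,0,⟨3,[(12,1),(2,1),(27,0),(4,0)]⟩,⟨5,[(2,
  0),(7,0),(5,1),(10,0),(3,2),(9,1),(2,2),(3,0)]⟩⟩,.o ⟨false,1,⟨0,[(26,0)]⟩,⟨9,[(1,7),(5,0),(2,1),
  (2,1),(0,2),(12,0),(6,0),(9,0)]⟩⟩,.o ⟨false,1,⟨4,[(2,1),(23,2),(7,1),(6,0)]⟩,⟨0,[(1,0)]⟩⟩]⟩))))
  (.Q [0,0,2,0,0,0,1,0,-1,0,1,-1] (.p true [0,0,1] [0,0,0,0,1] (⟨0,[(33,0)]⟩,⟨0,[(32,0)]⟩) .k 2 (⟨0,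
  [(26,0)]⟩,⟨0,[(25,0)]⟩) .k (.r (-1) ⟨1,[(7,0),(5,0),(1,0),(2,0)]⟩ ⟨6,[(8,0),(3,0),(1,4),(23,
  3)]⟩)) (.R ⟨0,false,false,false,[0,-1,1],[0,0,0,0,1],[1],(⟨0,[(23,0)]⟩,⟨57,[(1,5),(23,5),(0,5),(6,
  57),(1,3),(4,11),(0,2),(4,8)]⟩),(⟨0,[(27,0)]⟩,⟨0,[(26,0)]⟩),⟨2,[(3,0),(18,1),(12,0),(4,2)]⟩,.k,.k,
  (.r (-1) ⟨0,[(14,0),(1,0),(2,0)]⟩ ⟨6,[(8,3),(3,3),(0,5),(1,0),(23,4)]⟩),(.r (-2) ⟨13,[(8,7),(2,5),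
  (7,3),(0,6),(0,2),(20,4),(3,10)]⟩ ⟨0,[(12,0),(32,0)]⟩),.k,.k,⟨false,1,⟨1,[(46,0),(0,0)]⟩,⟨0,[(49,
  0)]⟩⟩,⟨true,0,⟨0,[(2,0)]⟩,⟨0,[(0,0)]⟩⟩,⟨false,0,⟨0,[(13,0)]⟩,⟨13,[(8,1),(5,9),(4,7),(1,5),(7,1),
  (12,2),(3,0)]⟩⟩,⟨true,(-1),⟨0,[(2,0),(9,0),(32,0)]⟩,⟨0,[(0,0),(15,0),(2,0),(9,0)]⟩⟩,⟨false,0,⟨0,
  []⟩,⟨0,[]⟩⟩,⟨false,0,⟨0,[]⟩,⟨0,[]⟩⟩,[.o ⟨false,0,⟨1,[(2,0),(9,0),(12,0),(3,0),(12,0)]⟩,⟨3,[(0,3),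
  (7,1),(1,1),(7,2),(0,0),(22,0),(2,1)]⟩⟩,.a ⟨true,0,⟨0,[(25,0)]⟩,⟨0,[(0,0),(9,0),(18,0),(15,0)]⟩⟩
  ⟨false,1,⟨1,[(46,0),(0,0)]⟩,⟨0,[(49,0)]⟩⟩ ⟨true,0,⟨0,[(2,0)]⟩,⟨0,[(0,0)]⟩⟩,.a ⟨true,0,⟨0,[(31,
  0)]⟩,⟨0,[(28,0)]⟩⟩ ⟨true,0,⟨0,[]⟩,⟨0,[(49,0)]⟩⟩ ⟨false,0,⟨0,[(2,0)]⟩,⟨1,[(0,1),(45,0),(0,0)]⟩⟩,.a
  ⟨true,0,⟨0,[(0,0),(24,0)]⟩,⟨0,[(10,0),(18,0),(15,0)]⟩⟩ ⟨false,1,⟨1,[(46,0),(0,0)]⟩,⟨2,[(0,0),(24,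
  0),(6,0)]⟩⟩ ⟨true,0,⟨2,[(2,2),(15,0),(20,0),(5,0)]⟩,⟨0,[(0,0)]⟩⟩]⟩) (.Q [0,-2,0,-1,1,0,0,0,-1,1,0,
  -1] (.p false [0,0,0,0,1] [1] (⟨0,[(27,0)]⟩,⟨0,[(26,0)]⟩) .k 1 (⟨0,[]⟩,⟨0,[]⟩) .k .k) (.Q [0,-1,0,
  0,0,0,-1,-1,-1,1,-1,-1] (.p false [0,0,1] [1,0,0,0,-1] (⟨0,[(35,0)]⟩,⟨0,[(34,0)]⟩) .k 2 (⟨0,[(27,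
  0)]⟩,⟨0,[(28,0)]⟩) .k (.r 0 ⟨0,[(17,0),(12,0)]⟩ ⟨1,[(16,1),(30,0),(0,0)]⟩)) (.Q [0,0,0,0,0,0,1,0,
  -1,1,1,-1] (.p false [0,0,-1,0,1] [1] (⟨2,[(2,2),(0,2),(1,1),(3,1),(15,0),(7,0),(10,0)]⟩,⟨0,[(28,
  0),(7,0)]⟩) .k 1 (⟨0,[]⟩,⟨0,[]⟩) .k (.r 0 ⟨6,[(11,0),(3,0),(1,4),(23,3)]⟩ ⟨1,[(10,0),(5,0),(1,0),
  (2,0)]⟩)) (.S ⟨1,0,[0,-1,0,0,0,0,0,1],[1,0,1,0,-1],[1,0,0,-1,0,0,0,1],(⟨0,[(29,0),(7,0)]⟩,⟨2,[(3,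
  2),(0,2),(1,1),(3,1),(15,0),(7,0),(10,0)]⟩),⟨0,[(26,0),(2,0)]⟩,.k,(.r (-2) ⟨13,[(11,7),(2,5),(7,
  3),(0,6),(0,2),(20,4),(3,10)]⟩ ⟨0,[(15,0),(32,0)]⟩),⟨true,0,⟨0,[(47,0)]⟩,⟨0,[(48,0)]⟩⟩,⟨false,1,
  ⟨1,[(27,0),(0,0),(21,0)]⟩,⟨0,[]⟩⟩,⟨false,0,⟨0,[]⟩,⟨1,[(27,0),(0,0),(21,0)]⟩⟩,⟨true,0,⟨0,[(48,0)]⟩,
  ⟨0,[(47,0)]⟩⟩,[.a ⟨true,1,⟨1,[(0,0),(1,0),(8,0),(9,0),(10,0)]⟩,⟨0,[(5,0),(9,0)]⟩⟩ ⟨false,1,⟨13,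
  [(11,1),(5,9),(4,7),(1,5),(7,1),(12,2),(3,0)]⟩,⟨4,[(12,0),(3,3),(25,1),(5,1)]⟩⟩ ⟨true,1,⟨1,[(11,
  0),(5,0),(1,0),(2,0)]⟩,⟨0,[(15,0)]⟩⟩,.o ⟨false,2,⟨1,[(0,0),(1,0),(8,0),(10,0),(9,0),(12,0)]⟩,⟨1,
  [(3,1),(11,2),(16,0),(2,0),(9,0)]⟩⟩,.a ⟨true,0,⟨0,[(0,0)]⟩,⟨1,[(5,0),(22,0),(6,0)]⟩⟩ ⟨false,1,⟨4,
  [(11,2),(1,1),(0,3),(7,0),(22,0)]⟩,⟨4,[(12,0),(3,3),(25,1),(5,1)]⟩⟩ ⟨true,1,⟨1,[(11,0),(5,0),(1,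
  0),(2,0)]⟩,⟨2,[(15,2),(5,0),(20,0),(5,0)]⟩⟩,.a ⟨true,0,⟨6,[(0,5),(10,1),(2,0),(0,2),(7,0),(3,0)]⟩,
  ⟨0,[(5,0)]⟩⟩ ⟨true,1,⟨13,[(11,1),(5,9),(4,7),(1,5),(7,1),(12,2),(3,0)]⟩,⟨0,[(15,0),(32,0)]⟩⟩
  ⟨false,2,⟨13,[(11,9),(2,3),(7,11),(1,1),(20,0),(3,4)]⟩,⟨0,[(15,0)]⟩⟩]⟩) (.S ⟨1,0,[0,2],[0,0,0,0,
  1],[1,1,0,-1],(⟨0,[(30,0)]⟩,⟨0,[(29,0)]⟩),⟨2,[(0,0),(2,0),(0,1),(1,0),(3,1),(15,2),(3,0)]⟩,.k,(.r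
  0 ⟨0,[(46,0)]⟩ ⟨3,[(11,1),(6,1),(8,0),(0,0),(20,0)]⟩),⟨false,1,⟨3,[(23,1),(3,0),(0,0),(16,0),(4,
  1)]⟩,⟨0,[(48,0)]⟩⟩,⟨true,0,⟨0,[(52,0)]⟩,⟨0,[]⟩⟩,⟨true,0,⟨0,[]⟩,⟨0,[(52,0)]⟩⟩,⟨false,0,⟨0,[(48,
  0)]⟩,⟨3,[(23,1),(3,0),(0,0),(16,0),(4,1)]⟩⟩,[.e ⟨false,0,⟨4,[(20,1),(21,0),(4,0)]⟩,⟨4,[(11,1),(4,
  0),(1,0),(30,2)]⟩⟩ ⟨false,0,⟨0,[(42,0)]⟩,⟨0,[(50,0)]⟩⟩,.o ⟨false,0,⟨7,[(0,1),(2,0),(11,2),(12,4),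
  (3,2),(9,0),(2,2)]⟩,⟨1,[(1,0),(0,0),(29,0),(12,0),(2,0)]⟩⟩,.a ⟨true,0,⟨0,[(28,0)]⟩,⟨0,[(1,0),(30,
  0)]⟩⟩ ⟨true,0,⟨0,[(47,0)]⟩,⟨0,[(48,0)]⟩⟩ ⟨false,0,⟨0,[(52,0)]⟩,⟨0,[(50,0)]⟩⟩,.o ⟨false,0,⟨0,[(0,
  0),(33,0)]⟩,⟨3,[(1,1),(19,0),(0,0),(4,1),(4,1),(12,0),(2,1)]⟩⟩]⟩)) (.Q [0,0,0,0,0,0,0,0,-1,1,0,
  -1] (.p false [0,0,0,0,1] [1] (⟨0,[(29,0)]⟩,⟨0,[(28,0)]⟩) .k 1 (⟨0,[]⟩,⟨0,[]⟩) .k .k) (.K ⟨0,[1,1,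
  0,0,-1],0,0,(⟨57,[(4,5),(23,5),(0,63),(8,3),(4,11),(0,2),(4,8)]⟩,⟨29,[(1,3),(1,17),(0,21),(1,17),
  (3,13),(1,1),(3,1),(9,31),(3,7),(14,6),(4,0)]⟩),(.r (-1) ⟨3,[(11,1),(6,1),(8,0),(0,0),(20,0)]⟩ ⟨0,
  [(46,0)]⟩),.k,(.r (-1) ⟨9,[(11,8),(4,1),(1,6),(23,4),(6,0)]⟩ ⟨0,[(7,0),(6,0),(4,0),(28,1)]⟩),(.r
  0 ⟨0,[(16,0)]⟩ ⟨1,[(1,0),(12,0),(9,0),(2,0),(21,0)]⟩),.k,[⟨0,[(1,0),(13,0),(34,0)]⟩,⟨0,[(0,0)]⟩,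
  ⟨5,[(1,3),(3,0),(2,0),(6,0),(17,1),(11,0),(1,5)]⟩,⟨0,[(0,0),(47,0)]⟩]⟩) (.K ⟨0,[1,0,1,0,-1],0,1,
  (⟨0,[(29,0),(7,0)]⟩,⟨5,[(0,0),(2,2),(0,3),(1,2),(3,2),(19,1),(14,0)]⟩),.k,(.r (-2) ⟨13,[(11,7),(2,
  5),(7,3),(0,6),(0,2),(20,4),(3,10)]⟩ ⟨0,[(15,0),(32,0)]⟩),(.r (-1) ⟨5,[(1,0),(9,3),(2,0),(9,0),(2,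
  0),(21,0)]⟩ ⟨1,[(7,0),(10,0),(23,0)]⟩),.k,.k,[⟨0,[(0,0)]⟩,⟨0,[(2,0),(12,0),(16,0),(15,0)]⟩,⟨5,[(1,
  1),(1,3),(11,7),(3,2),(15,0),(6,0),(2,1)]⟩,⟨37,[(2,12),(8,3),(4,3),(10,24),(4,37),(5,4),(1,4),(3,
  9),(3,0),(0,5)]⟩]⟩))) (.Q [0,0,0,0,0,0,0,0,1,-1,0,1] (.p true [0,0,0,0,1] [1] (⟨0,[(28,0)]⟩,⟨0,
  [(27,0)]⟩) .k 1 (⟨0,[]⟩,⟨0,[]⟩) .k .k) (.K ⟨0,[1,0,1,0,-1],0,1,(⟨0,[(28,0),(7,0)]⟩,⟨5,[(0,0),(1,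
  2),(0,3),(1,2),(3,2),(19,1),(14,0)]⟩),.k,(.r (-2) ⟨13,[(10,7),(2,5),(7,3),(0,6),(0,2),(20,4),(3,
  10)]⟩ ⟨0,[(14,0),(32,0)]⟩),(.r (-1) ⟨15,[(10,11),(2,3),(9,1),(17,1),(2,0),(3,2)]⟩ ⟨1,[(6,0),(10,
  0),(23,0)]⟩),.k,.k,[⟨0,[(0,0)]⟩,⟨0,[(3,0),(5,0),(15,0),(2,0)]⟩,⟨13,[(1,11),(4,5),(0,1),(6,2),(17,
  2),(1,8),(9,0)]⟩,⟨59,[(3,7),(1,5),(3,5),(0,5),(10,11),(3,11),(0,51),(1,7),(2,53),(5,11),(5,22),(5,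
  14)]⟩]⟩) (.K ⟨0,[1,1,0,0,-1],0,0,(⟨57,[(3,5),(23,5),(0,63),(8,3),(4,11),(0,2),(4,8)]⟩,⟨47,[(1,7),
  (0,23),(0,31),(1,25),(0,1),(2,21),(3,1),(11,47),(3,15),(14,8),(4,8)]⟩),(.r (-1) ⟨3,[(10,1),(6,1),
  (8,0),(0,0),(20,0)]⟩ ⟨0,[(45,0)]⟩),.k,(.r (-1) ⟨9,[(10,8),(4,1),(1,6),(23,4),(6,0)]⟩ ⟨0,[(0,1),(0,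
  1),(4,2),(3,1),(2,0),(4,0)]⟩),(.r 0 ⟨0,[(15,0)]⟩ ⟨15,[(10,3),(2,11),(9,5),(17,5),(2,2),(3,8)]⟩),
  .k,[⟨1,[(1,1),(11,0),(0,0),(18,0),(15,2)]⟩,⟨0,[(0,0)]⟩,⟨2,[(1,0),(25,1),(16,0),(1,3)]⟩,⟨0,[(0,0),
  (46,0)]⟩]⟩))))) (.Q [0,0,0,0,0,0,0,0,0,-1,1,1] (.ed false [0,0,1,0,1] (.r 0 ⟨0,[(14,0),(12,0)]⟩
  ⟨1,[(13,1),(30,0),(0,0)]⟩)) (.Q [0,0,1,0,-1,0,-1,0,-1,2,-1,-1] (.p false [-1,0,1,0,1] [1] (⟨0,[(0,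
  0)]⟩,⟨0,[(25,0),(6,0)]⟩) .k 1 (⟨0,[]⟩,⟨0,[]⟩) .k (.r 0 ⟨0,[(15,0),(12,0)]⟩ ⟨1,[(14,1),(30,0),(0,
  0)]⟩)) (.Q [0,0,0,0,0,1,0,0,0,-1,0,1] (.ed false [0,1,0,0,1] .k) (.R ⟨0,false,false,false,[1,0,0,
  0,-1],[0,0,1],[1,1,1],(⟨0,[(27,0)]⟩,⟨0,[(28,0)]⟩),(⟨0,[(35,0)]⟩,⟨0,[(34,0)]⟩),⟨0,[(0,0)]⟩,.k,.k,
  (.r (-1) ⟨7,[(20,3),(0,1),(3,0),(0,0),(16,0),(4,1)]⟩ ⟨1,[(9,0),(3,0),(26,0),(9,0)]⟩),.k,.k,.k,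
  ⟨true,(-1),⟨0,[(13,0)]⟩,⟨1,[(9,0),(5,0),(1,0),(2,0)]⟩⟩,⟨false,1,⟨9,[(8,5),(17,9),(5,3),(2,5),(5,
  3),(1,2),(3,0)]⟩,⟨1,[(1,1),(41,0),(3,0)]⟩⟩,⟨true,(-1),⟨0,[(13,0),(3,0),(12,0)]⟩,⟨1,[(47,0),(0,
  0)]⟩⟩,⟨false,1,⟨1,[(26,1),(3,1),(12,0),(4,0)]⟩,⟨9,[(1,2),(1,4),(7,5),(2,3),(10,1),(17,0),(2,1)]⟩⟩,
  ⟨false,0,⟨0,[]⟩,⟨0,[]⟩⟩,⟨false,0,⟨0,[]⟩,⟨0,[]⟩⟩,[.o ⟨false,1,⟨1,[(30,1),(12,0),(4,0)]⟩,⟨7,[(11,1),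
  (1,0),(0,1),(16,2),(1,0),(9,0)]⟩⟩,.e ⟨false,0,⟨0,[]⟩,⟨1,[(25,0),(0,0),(20,0)]⟩⟩ ⟨false,2,⟨1,[(26,
  1),(3,1),(12,0),(3,0),(0,1)]⟩,⟨5,[(1,5),(8,2),(2,2),(5,0),(20,0),(2,2),(2,3)]⟩⟩,.a ⟨true,0,⟨1,[(1,
  0),(1,0),(43,0)]⟩,⟨0,[(26,0)]⟩⟩ ⟨false,0,⟨4,[(9,0),(2,0),(0,0),(2,0),(16,0)]⟩,⟨1,[(47,0),(0,0)]⟩⟩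
  ⟨true,1,⟨1,[(26,1),(3,1),(12,0),(4,0)]⟩,⟨5,[(1,5),(8,2),(2,2),(5,0),(20,0),(2,2),(2,3)]⟩⟩,.o
  ⟨false,0,⟨1,[(1,0),(1,0),(39,0)]⟩,⟨1,[(26,1),(16,0),(3,0)]⟩⟩]⟩) (.R ⟨0,false,false,false,[1,-1,0,
  0,-1],[0,-1,1],[1,1],(⟨0,[(0,0)]⟩,⟨52,[(9,2),(6,2),(4,2),(6,52),(7,7),(3,2),(0,14),(0,5),(4,2)]⟩),
  (⟨0,[(24,0)]⟩,⟨52,[(9,2),(6,2),(4,2),(12,52),(1,7),(3,2),(0,14),(0,5),(4,2)]⟩),⟨2,[(2,1),(1,1),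
  (23,0),(7,0),(4,2)]⟩,(.r (-1) ⟨7,[(20,3),(0,1),(3,0),(0,0),(16,0),(4,1)]⟩ ⟨1,[(9,0),(3,0),(26,0),
  (9,0)]⟩),.k,(.r (-1) ⟨9,[(5,1),(5,1),(0,3),(7,5),(22,0),(4,2)]⟩ ⟨0,[(9,0),(3,0),(26,0)]⟩),.k,.k,
  .k,⟨true,(-1),⟨0,[(13,0),(32,0)]⟩,⟨4,[(9,2),(1,1),(0,3),(7,0),(22,0)]⟩⟩,⟨false,1,⟨9,[(8,5),(17,9),
  (5,3),(2,5),(5,3),(1,2),(3,0)]⟩,⟨1,[(1,1),(41,0),(3,0)]⟩⟩,⟨true,(-1),⟨0,[(13,0),(3,0),(12,0),(15,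
  0)]⟩,⟨7,[(20,3),(0,1),(3,0),(0,0),(16,0),(4,1)]⟩⟩,⟨false,1,⟨1,[(26,1),(3,1),(12,0),(4,0)]⟩,⟨9,[(1,
  2),(1,4),(7,5),(2,3),(10,1),(17,0),(2,1)]⟩⟩,⟨false,0,⟨0,[]⟩,⟨0,[]⟩⟩,⟨false,0,⟨0,[]⟩,⟨0,[]⟩⟩,[.o
  ⟨false,1,⟨1,[(15,1),(27,0),(4,0)]⟩,⟨9,[(11,1),(1,0),(0,2),(2,1),(13,3),(11,0),(2,8)]⟩⟩,.a ⟨true,1,
  ⟨0,[(15,0),(32,0)]⟩,⟨3,[(11,0),(1,2),(8,0),(17,0),(1,0),(3,4)]⟩⟩ ⟨true,0,⟨0,[]⟩,⟨4,[(9,0),(2,0),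
  (0,0),(2,0),(16,0)]⟩⟩ ⟨false,2,⟨1,[(20,1),(5,1),(3,1),(12,0),(4,0)]⟩,⟨19,[(1,16),(8,3),(2,12),(11,
  2),(5,2),(8,1),(2,6),(2,23)]⟩⟩,.o ⟨false,0,⟨1,[(1,0),(1,0),(39,0)]⟩,⟨1,[(26,1),(16,0),(3,0)]⟩⟩,.o
  ⟨false,0,⟨0,[(3,0),(29,0)]⟩,⟨1,[(19,0),(0,0),(5,1),(16,0),(2,1)]⟩⟩]⟩)) (.R ⟨0,false,false,true,[0,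
  -1,1],[2,0,-1,0,-1],[1,1],(⟨0,[(23,0)]⟩,⟨52,[(8,2),(6,2),(4,2),(12,52),(1,7),(3,2),(0,14),(0,5),
  (4,2)]⟩),(⟨0,[(26,0),(6,0)]⟩,⟨0,[(1,0)]⟩),⟨2,[(3,0),(18,1),(12,0),(4,2)]⟩,.k,.k,(.r (-1) ⟨0,[(14,
  0),(1,0),(2,0)]⟩ ⟨6,[(8,3),(3,3),(0,5),(1,0),(23,4)]⟩),(.r (-1) ⟨7,[(8,0),(5,4),(1,6),(2,4),(1,3),
  (7,9),(12,1)]⟩ ⟨6,[(9,1),(3,8),(1,2),(23,0)]⟩),.k,.k,⟨true,0,⟨0,[(16,0),(12,0)]⟩,⟨0,[(12,0),(34,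
  0)]⟩⟩,⟨false,0,⟨0,[(2,0),(7,0),(5,0),(11,0),(0,0),(15,0)]⟩,⟨2,[(0,2),(7,0),(2,0),(0,0),(2,0),(15,
  1)]⟩⟩,⟨true,(-1),⟨0,[(12,0),(32,0)]⟩,⟨13,[(8,1),(5,9),(4,7),(1,5),(7,1),(12,2),(3,0)]⟩⟩,⟨false,
  (-1),⟨2,[(2,2),(5,0),(1,3),(1,2),(3,0),(24,0),(3,4)]⟩,⟨8,[(0,9),(7,5),(2,8),(2,2),(6,1),(2,0),(21,
  0)]⟩⟩,⟨false,0,⟨0,[]⟩,⟨0,[]⟩⟩,⟨false,0,⟨0,[]⟩,⟨0,[]⟩⟩,[.a ⟨true,(-1),⟨20,[(2,20),(0,1),(6,11),(1,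
  8),(3,9),(1,2),(2,3),(1,1),(11,5),(5,11),(3,14)]⟩,⟨18,[(0,10),(7,6),(5,11),(5,0),(0,1),(3,7),(13,
  0),(6,0)]⟩⟩ ⟨false,0,⟨2,[(18,0),(20,0),(5,0)]⟩,⟨1,[(24,0),(0,0),(21,0)]⟩⟩ ⟨true,(-1),⟨0,[(2,0),(1,
  0),(11,2),(24,0),(3,1)]⟩,⟨0,[(0,0),(7,0),(2,0),(0,0)]⟩⟩,.o ⟨false,0,⟨2,[(2,2),(7,1),(2,0),(7,0),
  (23,0)]⟩,⟨0,[(25,0),(3,0),(12,0)]⟩⟩,.a ⟨true,0,⟨0,[(31,0)]⟩,⟨0,[(28,0)]⟩⟩ ⟨false,0,⟨0,[]⟩,⟨1,[(24,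
  0),(0,0),(21,0)]⟩⟩ ⟨true,(-1),⟨0,[(2,0),(1,0),(11,2),(24,0),(3,1)]⟩,⟨4,[(0,2),(7,1),(3,1),(1,3),
  (0,1),(9,1),(3,2),(12,1)]⟩⟩,.a ⟨true,0,⟨2,[(8,0),(2,0),(0,0),(2,0),(15,1)]⟩,⟨0,[(10,0),(18,0),(15,
  0)]⟩⟩ ⟨true,0,⟨2,[(18,0),(20,0),(5,0)]⟩,⟨4,[(8,0),(2,0),(0,0),(2,0),(16,0)]⟩⟩ ⟨false,0,⟨0,[(2,0),
  (7,0),(17,0),(16,0)]⟩,⟨0,[(0,0),(7,0),(2,0),(0,0)]⟩⟩]⟩)) (.R ⟨1,false,false,true,[1,0,0,0,-1],[1,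
  0,-1,0,-1],[],(⟨0,[(25,0)]⟩,⟨0,[(26,0)]⟩),(⟨0,[(0,0)]⟩,⟨0,[(26,0),(6,0)]⟩),⟨0,[(0,0),(21,0)]⟩,.k,
  .k,(.r (-1) ⟨7,[(18,3),(0,1),(3,0),(0,0),(16,0),(4,1)]⟩ ⟨1,[(7,0),(3,0),(26,0),(9,0)]⟩),.k,.k,.k,
  ⟨false,1,⟨5,[(7,1),(9,1),(0,1),(1,1),(7,3),(12,0),(3,0)]⟩,⟨6,[(8,1),(3,1),(1,2),(23,0)]⟩⟩,⟨true,0,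
  ⟨0,[(15,0)]⟩,⟨0,[(30,0)]⟩⟩,⟨true,0,⟨0,[(48,0)]⟩,⟨0,[]⟩⟩,⟨false,0,⟨7,[(9,1),(1,0),(0,1),(16,2),(1,
  0),(9,0)]⟩,⟨0,[(28,0),(17,0)]⟩⟩,⟨false,0,⟨0,[(44,0)]⟩,⟨3,[(19,1),(3,0),(0,0),(16,0),(4,1)]⟩⟩,
  ⟨false,0,⟨9,[(9,1),(1,0),(0,2),(2,1),(13,3),(11,0),(2,8)]⟩,⟨0,[(13,0),(32,0)]⟩⟩,[.o ⟨false,0,⟨9,
  [(1,8),(7,5),(1,3),(3,6),(7,0),(14,0),(2,2),(2,5)]⟩,⟨1,[(24,1),(3,1),(12,0),(4,0)]⟩⟩,.e ⟨false,1,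
  ⟨1,[(45,0),(0,0)]⟩,⟨0,[(48,0)]⟩⟩ ⟨false,1,⟨7,[(4,3),(4,1),(2,1),(10,3),(17,0),(3,2)]⟩,⟨0,[(28,
  0)]⟩⟩,.a ⟨true,0,⟨0,[(1,0),(25,0)]⟩,⟨0,[(24,0)]⟩⟩ ⟨false,1,⟨1,[(23,0),(0,0),(21,0)]⟩,⟨0,[]⟩⟩
  ⟨true,0,⟨7,[(9,1),(1,0),(0,1),(16,2),(1,0),(9,0)]⟩,⟨0,[(28,0)]⟩⟩,.o ⟨false,0,⟨0,[(1,0),(13,0)]⟩,
  ⟨1,[(24,1),(16,0),(3,0)]⟩⟩]⟩))))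

theorem ok47 : chk K t47 l33 = true := by decide +kernel

noncomputable def t48 : Tre :=
  (.I [0,0,-2,0,1,-2,1] (.N [0,2,1] 0 ⟨0,[(1,0)]⟩ ⟨0,[(3,0)]⟩ (.x (-1) ⟨0,[(0,0)]⟩ ⟨24,[(1,10),(10,
  10),(4,10),(0,3),(10,16),(1,24),(0,4),(4,14)]⟩)) (.Q [0,-1,0,0,1,0,1,1,-1,0,1,-1] (.p true [0,0,
  1] [0,0,0,0,1] (⟨0,[(31,0)]⟩,⟨0,[(30,0)]⟩) .k 2 (⟨0,[(24,0)]⟩,⟨0,[(23,0)]⟩) .k (.r (-1) ⟨1,[(5,0),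
  (5,0),(1,0),(2,0)]⟩ ⟨6,[(6,0),(3,0),(1,4),(23,3)]⟩)) (.Q [0,0,0,0,0,1,0,0,0,-1,0,1] (.ed false [0,
  1,0,0,1] .k) (.R ⟨0,false,false,false,[1,0,0,0,-1],[1,0,-1],[0,0,0,-1],(⟨0,[(25,0)]⟩,⟨0,[(26,
  0)]⟩),(⟨0,[(32,0)]⟩,⟨0,[(33,0)]⟩),⟨0,[(0,0)]⟩,.k,.k,(.r (-1) ⟨7,[(18,3),(0,1),(3,0),(0,0),(16,0),
  (4,1)]⟩ ⟨1,[(3,0),(10,0),(23,0)]⟩),.k,.k,.k,⟨false,1,⟨13,[(7,1),(5,9),(4,7),(1,5),(7,1),(12,2),(3,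
  0)]⟩,⟨4,[(8,0),(3,3),(25,1),(5,1)]⟩⟩,⟨true,0,⟨0,[(15,0),(8,0)]⟩,⟨0,[(1,0),(9,0)]⟩⟩,⟨true,0,⟨0,
  [(43,0)]⟩,⟨0,[(44,0)]⟩⟩,⟨false,0,⟨1,[(4,0),(19,0),(4,0)]⟩,⟨0,[(1,0)]⟩⟩,⟨false,0,⟨0,[]⟩,⟨0,[]⟩⟩,
  ⟨false,0,⟨0,[]⟩,⟨0,[]⟩⟩,[.o ⟨false,0,⟨7,[(9,1),(1,0),(0,1),(16,2),(1,0),(9,0)]⟩,⟨1,[(28,1),(12,0),
  (4,0)]⟩⟩,.a ⟨true,0,⟨21,[(9,5),(2,7),(1,7),(4,0),(0,2),(6,3),(12,3),(5,3)]⟩,⟨0,[(28,0)]⟩⟩ ⟨false,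
  1,⟨7,[(18,3),(0,1),(3,0),(0,0),(16,0),(4,1)]⟩,⟨4,[(3,0),(8,0),(25,2),(5,1)]⟩⟩ ⟨true,0,⟨0,[(4,0)]⟩,
  ⟨0,[(1,0),(1,0),(7,0),(4,0)]⟩⟩,.e ⟨false,1,⟨3,[(19,1),(3,0),(0,0),(16,0),(4,1)]⟩,⟨0,[(44,0)]⟩⟩
  ⟨false,0,⟨0,[(4,0)]⟩,⟨1,[(1,0),(21,0),(4,0)]⟩⟩,.o ⟨false,0,⟨0,[(1,0),(9,0),(3,0)]⟩,⟨1,[(24,1),(16,
  0),(3,0)]⟩⟩]⟩) (.Q [0,2,0,1,-1,0,0,0,1,0,0,1] (.p true [0,0,0,0,1] [] (⟨0,[(26,0)]⟩,⟨0,[(25,0)]⟩)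
  .k 0 (⟨0,[]⟩,⟨0,[]⟩) .k .k) (.K ⟨0,[0,1,0,0,1],0,(-1),(⟨52,[(8,2),(6,2),(4,2),(6,52),(7,7),(3,2),
  (0,14),(0,5),(4,2)]⟩,⟨0,[(1,0)]⟩),(.r 0 ⟨1,[(4,0),(10,0),(23,0)]⟩ ⟨7,[(19,3),(0,1),(3,0),(0,0),
  (16,0),(4,1)]⟩),.k,(.r 0 ⟨7,[(4,6),(8,1),(1,4),(23,4)]⟩ ⟨9,[(6,1),(3,1),(0,3),(7,5),(22,0),(4,
  2)]⟩),(.r 1 ⟨0,[(12,0),(32,0)]⟩ ⟨13,[(8,7),(2,5),(7,3),(0,6),(0,2),(20,4),(3,10)]⟩),.k,[⟨0,[(2,0),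
  (9,0)]⟩,⟨0,[(25,0)]⟩,⟨9,[(2,1),(3,1),(4,0),(0,0),(7,1),(3,7),(7,2),(9,0)]⟩,⟨0,[(0,0)]⟩]⟩) (.R ⟨1,
  false,false,false,[1,0,0,0,-1],[1,0,-1],[],(⟨0,[(26,0)]⟩,⟨0,[(27,0)]⟩),(⟨0,[(33,0)]⟩,⟨0,[(34,
  0)]⟩),⟨0,[(1,0)]⟩,.k,.k,(.r (-1) ⟨7,[(19,3),(0,1),(3,0),(0,0),(16,0),(4,1)]⟩ ⟨1,[(4,0),(10,0),(23,
  0)]⟩),.k,(.r (-2) ⟨13,[(8,7),(2,5),(7,3),(0,6),(0,2),(20,4),(3,10)]⟩ ⟨0,[(12,0),(32,0)]⟩),.k,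
  ⟨false,1,⟨5,[(4,1),(14,3),(1,1),(7,3),(12,0),(3,0)]⟩,⟨6,[(9,1),(3,1),(1,2),(23,0)]⟩⟩,⟨true,0,⟨0,
  [(16,0),(8,0)]⟩,⟨0,[(2,0),(9,0)]⟩⟩,⟨true,0,⟨7,[(4,0),(10,0),(23,2),(4,1)]⟩,⟨0,[]⟩⟩,⟨false,0,⟨1,
  [(5,0),(19,0),(4,0)]⟩,⟨0,[(2,0)]⟩⟩,⟨false,0,⟨0,[(45,0)]⟩,⟨3,[(20,1),(3,0),(0,0),(16,0),(4,1)]⟩⟩,
  ⟨false,0,⟨4,[(4,0),(0,4),(7,0),(25,2),(5,1)]⟩,⟨2,[(0,0),(1,1),(8,0)]⟩⟩,[.o ⟨false,0,⟨7,[(10,1),(1,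
  0),(0,1),(16,2),(1,0),(9,0)]⟩,⟨1,[(29,1),(12,0),(4,0)]⟩⟩,.a ⟨true,0,⟨21,[(10,5),(2,7),(1,7),(4,0),
  (0,2),(6,3),(12,3),(5,3)]⟩,⟨0,[(29,0)]⟩⟩ ⟨false,1,⟨1,[(46,0),(0,0)]⟩,⟨7,[(4,0),(10,0),(23,2),(4,
  1)]⟩⟩ ⟨true,0,⟨0,[(5,0)]⟩,⟨0,[(2,0),(1,0),(7,0),(4,0)]⟩⟩,.e ⟨false,1,⟨1,[(24,0),(0,0),(21,0)]⟩,⟨0,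
  []⟩⟩ ⟨false,0,⟨0,[(5,0)]⟩,⟨1,[(2,0),(21,0),(4,0)]⟩⟩,.o ⟨false,0,⟨0,[(2,0),(9,0),(3,0)]⟩,⟨1,[(25,
  1),(16,0),(3,0)]⟩⟩]⟩))) (.Q [0,-1,0,0,1,0,0,0,-1,0,0,-1] (.p false [0,0,0,0,1] [] (⟨0,[(25,0)]⟩,
  ⟨0,[(24,0)]⟩) .k 0 (⟨0,[]⟩,⟨0,[]⟩) .k .k) (.Q [0,0,0,0,0,0,0,0,0,0,-1,1] (.ed false [1,0,-1,0,1]
  (.r 0 ⟨6,[(8,0),(3,0),(1,4),(23,3)]⟩ ⟨1,[(7,0),(5,0),(1,0),(2,0)]⟩)) (.Q [0,0,-1,0,0,0,-1,0,1,0,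
  -1,1] (.p true [0,0,-1,0,1] [] (⟨0,[(0,0)]⟩,⟨0,[(26,0),(7,0)]⟩) .k 0 (⟨0,[]⟩,⟨0,[]⟩) .k (.r 0 ⟨6,
  [(9,0),(3,0),(1,4),(23,3)]⟩ ⟨1,[(8,0),(5,0),(1,0),(2,0)]⟩)) (.Q [0,0,0,0,0,0,1,0,-1,1,1,-1] (.p
  false [0,0,-1,0,1] [1] (⟨0,[(1,0)]⟩,⟨0,[(27,0),(7,0)]⟩) .k 1 (⟨0,[]⟩,⟨0,[]⟩) .k (.r 0 ⟨6,[(10,0),
  (3,0),(1,4),(23,3)]⟩ ⟨1,[(9,0),(5,0),(1,0),(2,0)]⟩)) (.S ⟨1,0,[0,0,0,0,0,0,0,1],[1,0,1,0,-1],[1,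
  -1,0,-1,0,0,0,1],(⟨0,[(28,0),(7,0)]⟩,⟨0,[(2,0)]⟩),⟨0,[(25,0),(2,0)]⟩,.k,(.r (-2) ⟨25,[(1,11),(8,
  13),(2,11),(7,9),(0,9),(3,11),(17,4),(3,10)]⟩ ⟨0,[(14,0),(32,0)]⟩),⟨false,1,⟨3,[(22,1),(3,0),(0,
  0),(16,0),(4,1)]⟩,⟨0,[(47,0)]⟩⟩,⟨true,0,⟨7,[(6,0),(10,0),(23,2),(4,1)]⟩,⟨0,[]⟩⟩,⟨true,0,⟨0,[]⟩,⟨7,
  [(6,0),(10,0),(23,2),(4,1)]⟩⟩,⟨false,0,⟨0,[(47,0)]⟩,⟨3,[(22,1),(3,0),(0,0),(16,0),(4,1)]⟩⟩,[.o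
  ⟨false,1,⟨0,[(3,0),(27,0)]⟩,⟨1,[(4,0),(2,0),(36,0)]⟩⟩,.a ⟨true,1,⟨12,[(0,5),(2,6),(6,4),(1,0),(3,
  4),(4,3),(9,3),(11,2)]⟩,⟨0,[(4,0)]⟩⟩ ⟨false,2,⟨21,[(1,1),(8,13),(2,7),(7,23),(0,4),(0,2),(2,1),
  (17,3)]⟩,⟨2,[(14,2),(5,0),(20,0),(5,3)]⟩⟩ ⟨true,1,⟨1,[(10,0),(5,0),(1,0),(2,0)]⟩,⟨0,[(14,0)]⟩⟩,.a
  ⟨true,0,⟨0,[(0,0)]⟩,⟨1,[(1,0),(25,0),(6,0)]⟩⟩ ⟨true,1,⟨4,[(10,2),(1,1),(0,3),(7,0),(22,0)]⟩,⟨2,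
  [(14,2),(5,0),(20,0),(5,3)]⟩⟩ ⟨false,1,⟨1,[(10,0),(5,0),(1,0),(2,0)]⟩,⟨6,[(11,1),(3,1),(1,2),(23,
  0)]⟩⟩,.a ⟨true,0,⟨6,[(0,5),(9,1),(2,0),(0,2),(7,0),(3,0)]⟩,⟨0,[(1,0)]⟩⟩ ⟨false,2,⟨21,[(1,1),(8,
  13),(2,7),(7,23),(0,4),(0,2),(2,1),(17,3)]⟩,⟨0,[(14,0),(32,0)]⟩⟩ ⟨true,1,⟨5,[(6,1),(14,3),(1,1),
  (7,3),(12,0),(3,0)]⟩,⟨0,[(14,0)]⟩⟩]⟩) (.Q [0,0,0,0,0,0,0,0,1,-1,0,1] (.p true [0,0,0,0,1] [1] (⟨0,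
  [(29,0)]⟩,⟨0,[(28,0)]⟩) .k 1 (⟨0,[]⟩,⟨0,[]⟩) .k .k) (.K ⟨0,[1,0,1,0,-1],0,1,(⟨0,[(29,0),(7,0)]⟩,
  ⟨0,[(3,0)]⟩),.k,(.r (-2) ⟨25,[(2,11),(8,13),(2,11),(7,9),(0,9),(3,11),(17,4),(3,10)]⟩ ⟨0,[(15,0),
  (32,0)]⟩),(.r (-1) ⟨15,[(11,11),(2,3),(9,1),(17,1),(2,0),(3,2)]⟩ ⟨1,[(9,0),(8,0),(23,0)]⟩),.k,.k,
  [⟨0,[(0,0)]⟩,⟨1,[(4,1),(9,0),(0,0),(0,0),(0,0),(26,0),(3,1)]⟩,⟨2,[(1,0),(3,1),(1,0),(7,1),(5,1),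
  (23,0)]⟩,⟨7,[(4,1),(22,5),(4,7),(5,1),(1,1),(3,2),(5,2)]⟩]⟩) (.S ⟨1,0,[0,2],[0,0,0,0,1],[1,1,0,
  -1],(⟨0,[(30,0)]⟩,⟨0,[(29,0)]⟩),⟨0,[(3,0),(22,0)]⟩,.k,(.r 0 ⟨0,[(46,0)]⟩ ⟨3,[(11,1),(6,1),(8,0),
  (0,0),(20,0)]⟩),⟨false,1,⟨3,[(23,1),(3,0),(0,0),(16,0),(4,1)]⟩,⟨0,[(48,0)]⟩⟩,⟨true,0,⟨7,[(7,0),
  (10,0),(23,2),(4,1)]⟩,⟨0,[]⟩⟩,⟨true,0,⟨0,[]⟩,⟨7,[(7,0),(10,0),(23,2),(4,1)]⟩⟩,⟨false,0,⟨0,[(48,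
  0)]⟩,⟨3,[(23,1),(3,0),(0,0),(16,0),(4,1)]⟩⟩,[.e ⟨false,0,⟨4,[(20,1),(21,0),(4,0)]⟩,⟨4,[(11,1),(4,
  0),(1,0),(30,2)]⟩⟩ ⟨false,0,⟨0,[(42,0)]⟩,⟨0,[(50,0)]⟩⟩,.o ⟨false,0,⟨1,[(5,0),(22,0),(3,0),(12,
  0)]⟩,⟨0,[(4,0)]⟩⟩,.a ⟨true,0,⟨0,[(28,0)]⟩,⟨0,[(0,0)]⟩⟩ ⟨true,0,⟨0,[(47,0)]⟩,⟨0,[(48,0)]⟩⟩ ⟨false,
  0,⟨7,[(7,0),(10,0),(23,2),(4,1)]⟩,⟨0,[(50,0)]⟩⟩,.o ⟨false,0,⟨0,[(1,0),(32,0)]⟩,⟨1,[(0,1),(44,0),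
  (3,0)]⟩⟩]⟩))) (.Q [0,0,0,0,0,2,0,0,0,0,-1] (.p false [0,0,1] [] (⟨0,[(35,0)]⟩,⟨0,[(34,0)]⟩) .k 0
  (⟨0,[]⟩,⟨0,[]⟩) .k .k) (.R ⟨0,false,false,false,[0,-1,1],[0,-1,0,0,1],[1],(⟨0,[(25,0)]⟩,⟨10,[(0,
  4),(9,0),(6,0),(4,0),(12,5),(1,0),(3,0),(1,1),(4,0)]⟩),(⟨0,[(2,0),(22,0)]⟩,⟨52,[(10,2),(6,2),(4,
  2),(5,52),(8,7),(3,2),(0,14),(0,5),(4,2)]⟩),⟨0,[(0,0)]⟩,.k,(.r 0 ⟨0,[(45,0)]⟩ ⟨3,[(10,1),(6,1),(8,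
  0),(0,0),(20,0)]⟩),(.r (-1) ⟨0,[(16,0),(1,0),(2,0)]⟩ ⟨1,[(6,0),(8,1),(1,0),(23,0)]⟩),.k,.k,.k,
  ⟨false,1,⟨4,[(10,1),(4,0),(1,0),(30,2)]⟩,⟨0,[(45,0)]⟩⟩,⟨true,0,⟨0,[(18,0),(8,0)]⟩,⟨0,[(1,0)]⟩⟩,
  ⟨false,0,⟨0,[(15,0)]⟩,⟨13,[(10,1),(5,9),(4,7),(1,5),(7,1),(12,2),(3,0)]⟩⟩,⟨true,(-1),⟨0,[(4,0)]⟩,
  ⟨0,[(3,0),(27,0)]⟩⟩,⟨false,0,⟨0,[]⟩,⟨0,[]⟩⟩,⟨false,0,⟨0,[]⟩,⟨0,[]⟩⟩,[.o ⟨false,0,⟨1,[(4,0),(8,0),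
  (13,0),(16,0)]⟩,⟨0,[(3,0),(43,0)]⟩⟩,.e ⟨false,1,⟨1,[(48,0),(0,0)]⟩,⟨7,[(6,0),(10,0),(23,2),(4,
  1)]⟩⟩ ⟨false,1,⟨19,[(19,1),(1,14),(1,9),(3,19),(13,5),(2,4),(1,0)]⟩,⟨0,[(1,0),(45,0)]⟩⟩,.e ⟨true,
  0,⟨0,[]⟩,⟨7,[(6,0),(10,0),(23,2),(4,1)]⟩⟩ ⟨true,0,⟨3,[(4,0),(14,1),(3,1),(3,2),(3,0),(12,0)]⟩,⟨0,
  [(1,0),(45,0)]⟩⟩,.a ⟨true,0,⟨2,[(10,0),(2,0),(0,0),(2,0),(15,1)]⟩,⟨3,[(6,1),(5,1),(7,2),(0,0),(21,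
  0),(3,1)]⟩⟩ ⟨false,1,⟨1,[(48,0),(0,0)]⟩,⟨4,[(10,0),(2,0),(0,0),(2,0),(16,0)]⟩⟩ ⟨true,0,⟨0,[(18,0),
  (1,0),(6,0)]⟩,⟨7,[(1,7),(4,2),(8,1),(1,0),(23,0)]⟩⟩]⟩) (.Q [0,0,1,0,-1,0,-1,0,-1,2,-1,-1] (.p
  false [-1,0,1,0,1] [1] (⟨2,[(0,4),(1,1),(26,0),(7,0),(4,2)]⟩,⟨0,[(28,0),(6,0)]⟩) .k 1 (⟨0,[]⟩,⟨0,
  []⟩) .k (.r 0 ⟨2,[(6,1),(6,0),(4,0),(1,1)]⟩ ⟨1,[(17,1),(30,0),(0,0)]⟩)) (.S ⟨1,0,[0,-1,0,0,0,0,0,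
  -1],[2,0,-1,0,-1],[1,0,0,-1,0,0,0,-1],(⟨0,[(29,0),(6,0)]⟩,⟨2,[(1,4),(1,1),(26,0),(7,0),(4,2)]⟩),
  ⟨0,[(25,0),(3,0)]⟩,.k,(.r (-1) ⟨0,[(18,0),(3,0)]⟩ ⟨2,[(7,1),(9,0),(1,0),(22,0)]⟩),⟨true,0,⟨0,[(47,
  0)]⟩,⟨0,[(48,0)]⟩⟩,⟨false,1,⟨1,[(27,0),(0,0),(21,0)]⟩,⟨0,[]⟩⟩,⟨false,0,⟨0,[]⟩,⟨1,[(27,0),(0,0),
  (21,0)]⟩⟩,⟨true,0,⟨0,[(48,0)]⟩,⟨0,[(47,0)]⟩⟩,[.o ⟨false,0,⟨9,[(0,2),(1,4),(10,5),(2,3),(10,1),(17,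
  0),(2,1)]⟩,⟨0,[(28,0),(3,0),(12,0)]⟩⟩,.e ⟨false,1,⟨0,[(18,0),(3,0)]⟩,⟨0,[(7,0),(13,0)]⟩⟩ ⟨false,1,
  ⟨0,[(16,0),(5,0)]⟩,⟨2,[(7,0),(9,1),(1,1),(22,1)]⟩⟩,.o ⟨false,0,⟨9,[(0,5),(3,0),(2,1),(5,1),(7,2),
  (5,2),(17,1),(2,0)]⟩,⟨5,[(1,5),(3,3),(2,0),(1,5),(0,3),(2,4),(0,1),(0,1),(11,0),(14,7),(1,1)]⟩⟩,
  .a ⟨true,(-1),⟨0,[(0,0)]⟩,⟨9,[(10,5),(17,9),(5,3),(2,5),(5,3),(1,2),(3,0)]⟩⟩ ⟨true,0,⟨2,[(9,0),(2,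
  0),(5,0)]⟩,⟨2,[(7,1),(9,0),(1,0),(22,0)]⟩⟩ ⟨false,1,⟨0,[(16,0),(5,0)]⟩,⟨5,[(7,1),(9,3),(1,0),(15,
  2),(6,0)]⟩⟩]⟩) (.S ⟨1,0,[0,2,-1,-1],[0,-1,0,0,1],[1,1,-1,-2],(⟨1,[(1,0),(1,0),(26,0)]⟩,⟨52,[(11,
  2),(6,2),(4,2),(5,52),(8,7),(3,2),(0,14),(0,5),(4,2)]⟩),⟨0,[(1,0),(1,0)]⟩,(.r 0 ⟨0,[(46,0)]⟩ ⟨3,
  [(11,1),(6,1),(8,0),(0,0),(20,0)]⟩),(.r 0 ⟨0,[(9,0),(4,0),(4,0),(28,1)]⟩ ⟨9,[(11,8),(4,1),(1,6),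
  (23,4),(6,0)]⟩),⟨false,1,⟨25,[(0,3),(7,1),(2,1),(11,14),(0,0),(2,5),(17,3),(4,9)]⟩,⟨0,[(48,0)]⟩⟩,
  ⟨true,0,⟨7,[(7,0),(10,0),(23,2),(4,1)]⟩,⟨0,[]⟩⟩,⟨true,0,⟨0,[]⟩,⟨7,[(7,0),(10,0),(23,2),(4,1)]⟩⟩,
  ⟨false,0,⟨0,[(48,0)]⟩,⟨25,[(0,3),(7,1),(2,1),(11,14),(0,0),(2,5),(17,3),(4,9)]⟩⟩,[.e ⟨false,0,⟨0,
  [(20,0)]⟩,⟨9,[(11,6),(4,5),(1,0),(23,4),(6,2)]⟩⟩ ⟨false,0,⟨2,[(20,0),(0,0),(20,1)]⟩,⟨9,[(11,3),(4,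
  1),(1,1),(30,0),(0,4)]⟩⟩,.o ⟨false,0,⟨1,[(0,0),(4,0),(8,0),(20,0)]⟩,⟨0,[(4,0),(43,0)]⟩⟩,.a ⟨true,
  0,⟨2,[(7,0),(0,0),(5,0),(3,0),(9,1)]⟩,⟨3,[(2,3),(4,1),(5,1),(7,2),(0,0),(21,0),(3,1)]⟩⟩ ⟨true,0,
  ⟨9,[(14,0),(0,0),(4,5),(2,1),(11,0),(9,0),(1,1)]⟩,⟨4,[(7,1),(8,1),(25,0),(5,3)]⟩⟩ ⟨false,0,⟨0,
  [(46,0)]⟩,⟨9,[(11,3),(4,1),(1,1),(30,0),(0,4)]⟩⟩,.o ⟨false,0,⟨3,[(0,4),(0,1),(0,0),(3,5),(18,7),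
  (19,0)]⟩,⟨0,[(4,0),(16,0),(26,0)]⟩⟩]⟩)))) (.Q [0,0,-1,0,0,0,0,0,1,0,0,1] (.p true [0,0,0,0,1] []
  (⟨0,[(27,0)]⟩,⟨0,[(26,0)]⟩) .k 0 (⟨0,[]⟩,⟨0,[]⟩) .k .k) (.S ⟨1,0,[],[1,0,0,0,-1],[0,-1],(⟨0,[(27,
  0)]⟩,⟨0,[(28,0)]⟩),⟨0,[(1,0),(21,0)]⟩,.k,(.r (-1) ⟨7,[(20,3),(0,1),(3,0),(0,0),(16,0),(4,1)]⟩ ⟨1,
  [(5,0),(10,0),(23,0)]⟩),⟨false,1,⟨1,[(25,0),(0,0),(21,0)]⟩,⟨0,[]⟩⟩,⟨true,0,⟨7,[(5,0),(10,0),(23,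
  2),(4,1)]⟩,⟨0,[]⟩⟩,⟨true,0,⟨0,[(46,0)]⟩,⟨0,[(45,0)]⟩⟩,⟨false,0,⟨0,[(46,0)]⟩,⟨3,[(21,1),(3,0),(0,
  0),(16,0),(4,1)]⟩⟩,[.e ⟨false,1,⟨1,[(47,0),(0,0)]⟩,⟨7,[(5,0),(10,0),(23,2),(4,1)]⟩⟩ ⟨false,1,⟨1,
  [(25,0),(0,0),(20,0)]⟩,⟨0,[]⟩⟩,.o ⟨false,1,⟨0,[(2,0)]⟩,⟨1,[(3,0),(22,0),(3,0),(12,0)]⟩⟩,.e ⟨false,
  1,⟨0,[(48,0)]⟩,⟨7,[(5,0),(10,0),(23,2),(4,1)]⟩⟩ ⟨false,1,⟨1,[(25,0),(0,0),(21,0)]⟩,⟨0,[]⟩⟩,.a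
  ⟨true,0,⟨72,[(2,72),(1,17),(0,16),(7,34),(1,17),(3,15),(3,32),(0,14),(11,11),(5,19),(7,3)]⟩,⟨0,
  [(0,0)]⟩⟩ ⟨true,1,⟨1,[(47,0),(0,0)]⟩,⟨0,[(5,0),(7,0),(4,0)]⟩⟩ ⟨false,1,⟨1,[(47,0),(0,0)]⟩,⟨4,[(9,
  0),(2,0),(0,0),(2,0),(16,0)]⟩⟩]⟩) (.S ⟨1,0,[0,-1],[1,0,0,0,-1],[],(⟨0,[(27,0)]⟩,⟨0,[(28,0)]⟩),⟨0,
  [(1,0),(21,0)]⟩,.k,(.r (-1) ⟨7,[(20,3),(0,1),(3,0),(0,0),(16,0),(4,1)]⟩ ⟨1,[(5,0),(10,0),(23,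
  0)]⟩),⟨true,0,⟨7,[(5,0),(10,0),(23,2),(4,1)]⟩,⟨0,[]⟩⟩,⟨false,1,⟨1,[(25,0),(0,0),(21,0)]⟩,⟨0,[]⟩⟩,
  ⟨false,0,⟨0,[(46,0)]⟩,⟨3,[(21,1),(3,0),(0,0),(16,0),(4,1)]⟩⟩,⟨true,0,⟨0,[(46,0)]⟩,⟨0,[(45,0)]⟩⟩,
  [.o ⟨false,1,⟨0,[(2,0)]⟩,⟨1,[(3,0),(22,0),(3,0),(12,0)]⟩⟩,.a ⟨true,1,⟨6,[(0,1),(1,4),(17,0),(15,
  0),(1,0),(3,2),(3,0),(1,3)]⟩,⟨0,[(3,0),(26,0)]⟩⟩ ⟨false,1,⟨1,[(47,0),(0,0)]⟩,⟨7,[(5,0),(10,0),(23,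
  2),(4,1)]⟩⟩ ⟨true,1,⟨0,[(48,0)]⟩,⟨0,[(0,0),(2,0),(26,0)]⟩⟩,.e ⟨false,1,⟨1,[(25,0),(0,0),(21,0)]⟩,
  ⟨0,[]⟩⟩ ⟨false,1,⟨0,[(48,0)]⟩,⟨7,[(5,0),(10,0),(23,2),(4,1)]⟩⟩,.o ⟨false,0,⟨0,[(0,0)]⟩,⟨1,[(26,1),
  (16,0),(3,0)]⟩⟩]⟩))) (.Q [0,1,-2,0,-1,0,-1,0,1,0,-1,1] (.p false [0,0,1] [0,0,0,0,1] (⟨0,[(33,
  0)]⟩,⟨0,[(32,0)]⟩) .k 2 (⟨0,[(26,0)]⟩,⟨0,[(25,0)]⟩) .k (.r (-1) ⟨1,[(7,0),(5,0),(1,0),(2,0)]⟩ ⟨6,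
  [(8,0),(3,0),(1,4),(23,3)]⟩)) (.Q [0,0,0,0,0,2,0,0,0,0,-1] (.p false [0,0,1] [] (⟨0,[(34,0)]⟩,⟨0,
  [(33,0)]⟩) .k 0 (⟨0,[]⟩,⟨0,[]⟩) .k .k) (.R ⟨0,false,false,false,[0,-1,1],[0,0,0,0,1],[1,1],(⟨0,
  [(24,0)]⟩,⟨10,[(0,4),(8,0),(6,0),(4,0),(12,5),(1,0),(3,0),(1,1),(4,0)]⟩),(⟨0,[(28,0)]⟩,⟨0,[(27,
  0)]⟩),⟨0,[(0,0)]⟩,.k,.k,(.r (-1) ⟨0,[(15,0),(1,0),(2,0)]⟩ ⟨1,[(5,0),(8,1),(1,0),(23,0)]⟩),(.r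
  (-2) ⟨13,[(9,7),(2,5),(7,3),(0,6),(0,2),(20,4),(3,10)]⟩ ⟨0,[(13,0),(32,0)]⟩),.k,.k,⟨true,0,⟨0,[]⟩,
  ⟨4,[(9,0),(2,0),(0,0),(2,0),(16,0)]⟩⟩,⟨false,0,⟨37,[(1,24),(4,4),(2,4),(10,9),(1,3),(3,7),(16,1),
  (3,7)]⟩,⟨0,[(25,0),(6,0)]⟩⟩,⟨true,(-1),⟨0,[(13,0),(32,0)]⟩,⟨13,[(9,1),(5,9),(4,7),(1,5),(7,1),(12,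
  2),(3,0)]⟩⟩,⟨false,(-1),⟨3,[(1,2),(4,0),(2,0),(3,1),(0,1)]⟩,⟨0,[(15,0),(9,0),(22,0)]⟩⟩,⟨false,0,
  ⟨0,[]⟩,⟨0,[]⟩⟩,⟨false,0,⟨0,[]⟩,⟨0,[]⟩⟩,[.e ⟨false,0,⟨2,[(19,0),(20,0),(5,0)]⟩,⟨1,[(25,0),(0,0),
  (21,0)]⟩⟩ ⟨false,(-1),⟨0,[(1,0)]⟩,⟨1,[(25,2),(0,0),(5,1),(15,0)]⟩⟩,.o ⟨false,0,⟨1,[(2,1),(40,0),
  (4,0)]⟩,⟨0,[(25,0)]⟩⟩,.a ⟨true,0,⟨0,[(32,0)]⟩,⟨0,[(29,0)]⟩⟩ ⟨false,0,⟨0,[]⟩,⟨1,[(25,0),(0,0),(21,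
  0)]⟩⟩ ⟨true,(-1),⟨2,[(1,1),(0,0),(30,0)]⟩,⟨0,[(25,0),(6,0)]⟩⟩,.e ⟨true,0,⟨2,[(19,0),(20,0),(5,
  0)]⟩,⟨4,[(9,0),(2,0),(0,0),(2,0),(16,0)]⟩⟩ ⟨true,(-1),⟨0,[(1,0)]⟩,⟨2,[(9,0),(2,0),(0,0),(2,0),(8,
  2),(6,1)]⟩⟩]⟩) (.Q [0,0,0,0,0,1,0,0,0,0,0,-1] (.ed true [1,-1,0,0,1] .k) (.Q [0,-1,0,0,1,0,0,0,-1,
  1,0,-1] (.p false [0,0,0,0,1] [1] (⟨0,[(29,0)]⟩,⟨0,[(28,0)]⟩) .k 1 (⟨0,[]⟩,⟨0,[]⟩) .k .k) (.S ⟨1,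
  0,[],[1,0,0,0,-1],[0,-1],(⟨0,[(29,0)]⟩,⟨0,[(30,0)]⟩),⟨1,[(1,0),(0,0),(22,0),(3,0)]⟩,.k,(.r (-1)
  ⟨7,[(22,3),(0,1),(3,0),(0,0),(16,0),(4,1)]⟩ ⟨1,[(7,0),(10,0),(23,0)]⟩),⟨false,1,⟨1,[(27,0),(0,0),
  (21,0)]⟩,⟨0,[]⟩⟩,⟨true,0,⟨7,[(7,0),(10,0),(23,2),(4,1)]⟩,⟨0,[]⟩⟩,⟨true,0,⟨0,[(48,0)]⟩,⟨0,[(47,
  0)]⟩⟩,⟨false,0,⟨0,[(48,0)]⟩,⟨3,[(23,1),(3,0),(0,0),(16,0),(4,1)]⟩⟩,[.o ⟨false,1,⟨0,[(27,0)]⟩,⟨1,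
  [(4,1),(40,0),(4,0)]⟩⟩,.a ⟨true,1,⟨0,[(0,0)]⟩,⟨0,[(4,0)]⟩⟩ ⟨true,1,⟨0,[(50,0)]⟩,⟨0,[(7,0),(7,0),
  (4,0)]⟩⟩ ⟨false,1,⟨1,[(49,0),(0,0)]⟩,⟨7,[(7,0),(10,0),(23,2),(4,1)]⟩⟩,.o ⟨false,1,⟨0,[(27,0)]⟩,⟨1,
  [(4,1),(40,0),(4,0)]⟩⟩,.o ⟨false,1,⟨4,[(11,0),(2,0),(0,0),(2,0),(8,4),(7,0)]⟩,⟨1,[(3,1),(30,1),
  (10,0),(4,0)]⟩⟩]⟩) (.K ⟨0,[0,0,1,0,1],(-1),(-1),(⟨0,[(30,0),(6,0)]⟩,⟨0,[(1,0),(23,0)]⟩),.k,(.r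
  (-1) ⟨15,[(11,3),(2,11),(9,5),(17,5),(2,2),(3,8)]⟩ ⟨0,[(16,0)]⟩),(.r 0 ⟨2,[(7,1),(9,0),(1,0),(22,
  0)]⟩ ⟨0,[(18,0),(3,0)]⟩),.k,.k,[⟨0,[(27,0)]⟩,⟨1,[(0,1),(15,1),(0,1),(26,0),(5,0)]⟩,⟨7,[(13,1),(1,
  0),(0,1),(10,7),(5,2),(1,0),(9,0)]⟩,⟨0,[(4,0),(27,0)]⟩]⟩)) (.Q [0,0,0,0,0,1,0,0,0,-1,0,1] (.ed
  false [0,1,0,0,1] .k) (.R ⟨0,false,false,true,[1,0,0,0,-1],[1,1,-1],[0,0,1],(⟨0,[(29,0)]⟩,⟨0,[(30,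
  0)]⟩),(⟨52,[(11,2),(6,2),(4,2),(12,52),(1,7),(3,2),(0,14),(0,5),(4,2)]⟩,⟨0,[(26,0)]⟩),⟨0,[(0,0)]⟩,
  .k,.k,(.r (-1) ⟨7,[(22,3),(0,1),(3,0),(0,0),(16,0),(4,1)]⟩ ⟨1,[(7,0),(10,0),(23,0)]⟩),(.r (-2)
  ⟨13,[(11,7),(2,5),(7,3),(0,6),(0,2),(20,4),(3,10)]⟩ ⟨0,[(15,0),(32,0)]⟩),.k,.k,⟨true,1,⟨4,[(11,2),
  (1,1),(0,3),(7,0),(22,0)]⟩,⟨0,[(15,0),(32,0)]⟩⟩,⟨false,0,⟨37,[(3,24),(4,4),(2,4),(10,9),(1,3),(3,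
  7),(16,1),(3,7)]⟩,⟨0,[(27,0),(6,0)]⟩⟩,⟨false,0,⟨4,[(11,0),(2,0),(0,0),(2,0),(16,0)]⟩,⟨1,[(49,0),
  (0,0)]⟩⟩,⟨true,(-2),⟨3,[(3,2),(1,0),(1,0),(7,3),(32,1)]⟩,⟨0,[(17,0),(9,0),(22,0)]⟩⟩,⟨false,0,⟨0,
  []⟩,⟨0,[]⟩⟩,⟨false,0,⟨0,[]⟩,⟨0,[]⟩⟩,[.a ⟨true,(-1),⟨3,[(13,0),(1,2),(8,0),(17,0),(1,0),(3,4)]⟩,⟨0,
  [(17,0),(32,0)]⟩⟩ ⟨true,0,⟨4,[(11,0),(2,0),(0,0),(2,0),(16,0)]⟩,⟨0,[]⟩⟩ ⟨false,(-1),⟨2,[(3,1),(1,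
  0),(10,1),(25,0),(5,0)]⟩,⟨0,[(17,0),(9,0),(22,0)]⟩⟩,.o ⟨false,0,⟨19,[(7,1),(5,5),(1,2),(0,4),(16,
  7),(11,2),(2,16)]⟩,⟨1,[(17,1),(27,0),(4,0)]⟩⟩,.o ⟨false,1,⟨0,[(27,0)]⟩,⟨1,[(4,1),(40,0),(4,0)]⟩⟩,
  .o ⟨false,1,⟨4,[(11,0),(2,0),(0,0),(2,0),(8,4),(7,0)]⟩,⟨1,[(3,1),(30,1),(10,0),(4,0)]⟩⟩]⟩) (.Q [0,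
  0,2,0,1,0,0,0,-2,1,0,-2] (.p false [0,0,0,0,1] [1,0,0,0,-1] (⟨0,[(30,0)]⟩,⟨0,[(29,0)]⟩) .k 2 (⟨0,
  [(29,0)]⟩,⟨0,[(30,0)]⟩) .k (.r 0 ⟨3,[(7,0),(10,0),(23,2),(4,1)]⟩ ⟨0,[(50,0)]⟩)) (.S ⟨1,0,[],[1,0,
  0,0,-1],[0,-1],(⟨0,[(30,0)]⟩,⟨0,[(31,0)]⟩),⟨0,[(1,0)]⟩,.k,(.r (-1) ⟨13,[(0,0),(22,7),(0,2),(4,1),
  (16,1),(4,2)]⟩ ⟨1,[(8,0),(10,0),(23,0)]⟩),⟨false,1,⟨9,[(0,1),(28,3),(16,0),(3,1),(0,4)]⟩,⟨0,[]⟩⟩,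
  ⟨true,0,⟨7,[(8,0),(10,0),(23,2),(4,1)]⟩,⟨0,[]⟩⟩,⟨true,0,⟨0,[(49,0)]⟩,⟨0,[(48,0)]⟩⟩,⟨false,0,⟨0,
  [(49,0)]⟩,⟨6,[(0,0),(22,0),(0,2),(4,1),(16,1),(4,2)]⟩⟩,[.o ⟨false,1,⟨0,[(28,0)]⟩,⟨1,[(5,1),(40,0),
  (4,0)]⟩⟩,.a ⟨true,1,⟨2,[(0,0),(22,0),(4,0),(16,0),(3,0),(1,0)]⟩,⟨0,[(5,0)]⟩⟩ ⟨true,1,⟨0,[(51,0)]⟩,
  ⟨54,[(0,13),(3,27),(3,15),(7,47),(1,31),(17,3),(6,0),(2,6)]⟩⟩ ⟨false,1,⟨1,[(50,0),(0,0)]⟩,⟨7,[(8,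
  0),(10,0),(23,2),(4,1)]⟩⟩,.o ⟨false,1,⟨0,[(28,0)]⟩,⟨1,[(5,1),(40,0),(4,0)]⟩⟩,.o ⟨false,1,⟨9,[(0,
  5),(28,1),(16,2),(3,0)]⟩,⟨1,[(4,1),(30,1),(10,0),(4,0)]⟩⟩]⟩) (.S ⟨1,0,[0,1],[0,0,0,0,1],[0,2],(⟨0,
  [(31,0)]⟩,⟨0,[(30,0)]⟩),⟨0,[(2,0)]⟩,.k,(.r 0 ⟨0,[(47,0)]⟩ ⟨3,[(12,1),(6,1),(8,0),(0,0),(20,0)]⟩),
  ⟨true,0,⟨7,[(8,0),(10,0),(23,2),(4,1)]⟩,⟨0,[]⟩⟩,⟨false,1,⟨1,[(28,0),(0,0),(21,0)]⟩,⟨0,[]⟩⟩,⟨false,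
  0,⟨0,[(49,0)]⟩,⟨3,[(24,1),(3,0),(0,0),(16,0),(4,1)]⟩⟩,⟨true,0,⟨0,[(49,0)]⟩,⟨0,[(48,0)]⟩⟩,[.e
  ⟨false,0,⟨0,[(43,0)]⟩,⟨0,[(51,0)]⟩⟩ ⟨false,0,⟨2,[(22,0),(20,0),(5,0)]⟩,⟨1,[(28,0),(0,0),(21,0)]⟩⟩,
  .o ⟨false,0,⟨12,[(0,2),(4,1),(2,1),(0,3),(5,1),(13,0),(5,1),(10,4)]⟩,⟨0,[(28,0)]⟩⟩,.o ⟨false,0,
  ⟨12,[(0,2),(4,1),(2,1),(0,3),(5,1),(13,0),(5,1),(10,4)]⟩,⟨0,[(28,0)]⟩⟩,.a ⟨true,(-1),⟨59,[(0,29),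
  (2,5),(3,17),(4,21),(2,17),(0,39),(7,3),(1,23),(18,0),(5,6)]⟩,⟨23,[(3,1),(7,1),(16,23),(3,1),(6,
  7),(5,10),(4,8)]⟩⟩ ⟨false,0,⟨2,[(22,0),(20,0),(5,0)]⟩,⟨5,[(12,1),(3,1),(7,1),(21,0),(4,4)]⟩⟩
  ⟨true,0,⟨2,[(22,0),(20,0),(5,0)]⟩,⟨4,[(12,0),(2,0),(0,0),(2,0),(16,0)]⟩⟩]⟩))))) (.Q [0,-1,-2,0,1,
  0,-1,0,-1,1,-1,-1] (.p false [0,0,1] [1,0,0,0,-1] (⟨0,[(34,0)]⟩,⟨0,[(33,0)]⟩) .k 2 (⟨0,[(26,0)]⟩,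
  ⟨0,[(27,0)]⟩) .k (.r 0 ⟨2,[(4,1),(6,0),(4,0),(1,1)]⟩ ⟨1,[(15,1),(30,0),(0,0)]⟩)) (.Q [0,0,0,0,0,2,
  0,0,0,0,-1] (.p false [0,0,1] [] (⟨0,[(35,0)]⟩,⟨0,[(34,0)]⟩) .k 0 (⟨0,[]⟩,⟨0,[]⟩) .k .k) (.R ⟨0,
  false,false,true,[0,-1,1],[1,0,0,0,-1],[1],(⟨0,[(25,0)]⟩,⟨109,[(0,47),(1,5),(7,5),(11,5),(4,5),(4,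
  5),(2,61),(1,13),(3,5),(1,20),(4,8)]⟩),(⟨0,[(28,0)]⟩,⟨0,[(29,0)]⟩),⟨0,[(0,0)]⟩,.k,.k,(.r (-1) ⟨0,
  [(16,0),(1,0),(2,0)]⟩ ⟨1,[(6,0),(8,1),(1,0),(23,0)]⟩),(.r (-1) ⟨15,[(10,3),(2,11),(9,5),(17,5),(2,
  2),(3,8)]⟩ ⟨0,[(15,0)]⟩),.k,.k,⟨true,0,⟨0,[]⟩,⟨5,[(2,0),(3,0),(0,0),(5,0),(0,0),(19,0)]⟩⟩,⟨false,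
  1,⟨7,[(1,6),(0,0),(20,0),(17,3)]⟩,⟨1,[(3,1),(29,1),(10,0),(4,0)]⟩⟩,⟨false,0,⟨0,[(15,0)]⟩,⟨13,[(10,
  1),(5,9),(4,7),(1,5),(7,1),(12,2),(3,0)]⟩⟩,⟨true,0,⟨28,[(1,26),(4,9),(7,27),(0,8),(10,1),(5,1),(8,
  2),(1,0)]⟩,⟨1,[(3,1),(12,1),(27,0),(4,0)]⟩⟩,⟨false,0,⟨0,[]⟩,⟨0,[]⟩⟩,⟨false,0,⟨0,[]⟩,⟨0,[]⟩⟩,[.o
  ⟨false,1,⟨0,[(26,0)]⟩,⟨1,[(3,1),(40,0),(4,0)]⟩⟩,.e ⟨false,1,⟨1,[(48,0),(0,0)]⟩,⟨7,[(6,0),(10,0),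
  (23,2),(4,1)]⟩⟩ ⟨false,1,⟨0,[(1,0)]⟩,⟨1,[(14,0),(12,1),(3,0),(1,0),(10,0)]⟩⟩,.a ⟨true,0,⟨0,[(33,
  0)]⟩,⟨0,[(30,0)]⟩⟩ ⟨true,0,⟨0,[]⟩,⟨7,[(6,0),(10,0),(23,2),(4,1)]⟩⟩ ⟨false,1,⟨3,[(1,2),(0,0),(20,
  0)]⟩,⟨1,[(3,1),(29,1),(10,0),(4,0)]⟩⟩,.e ⟨false,1,⟨1,[(48,0),(0,0)]⟩,⟨5,[(2,0),(3,0),(0,0),(5,0),
  (0,0),(19,0)]⟩⟩ ⟨false,1,⟨0,[(1,0)]⟩,⟨5,[(3,3),(3,1),(2,1),(2,1),(0,1),(18,5),(10,2),(4,0)]⟩⟩]⟩)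
  (.Q [0,0,0,0,0,-1,0,0,0,0,0,1] (.ed false [1,-1,0,0,1] .k) (.Q [0,0,0,0,0,0,1,0,1,-1,1,1] (.p
  true [0,0,1] [1,0,0,0,-1] (⟨0,[(37,0)]⟩,⟨0,[(36,0)]⟩) .k 2 (⟨0,[(29,0)]⟩,⟨0,[(30,0)]⟩) .k (.r 0
  ⟨2,[(7,1),(6,0),(4,0),(1,1)]⟩ ⟨1,[(18,1),(30,0),(0,0)]⟩)) (.Q [0,-2,0,1,2,0,1,1,-1,0,1,-1] (.p
  true [0,0,1] [0,0,0,0,1] (⟨0,[(38,0)]⟩,⟨0,[(37,0)]⟩) .k 2 (⟨0,[(31,0)]⟩,⟨0,[(30,0)]⟩) .k (.r (-1)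
  ⟨1,[(12,0),(5,0),(1,0),(2,0)]⟩ ⟨6,[(13,0),(3,0),(1,4),(23,3)]⟩)) (.Q [0,0,1,0,0,0,-1,0,-1,1,-1,
  -1] (.p false [0,0,1] [1,0,0,0,-1] (⟨0,[(39,0)]⟩,⟨0,[(38,0)]⟩) .k 2 (⟨0,[(31,0)]⟩,⟨0,[(32,0)]⟩)
  .k (.r 0 ⟨2,[(9,1),(6,0),(4,0),(1,1)]⟩ ⟨3,[(0,0),(9,0),(9,3),(3,0),(26,0)]⟩)) (.Q [0,0,0,0,0,0,0,
  0,0,-1,1,1] (.ed false [0,0,1,0,1] (.r 0 ⟨2,[(10,1),(6,0),(4,0),(1,1)]⟩ ⟨3,[(1,0),(9,0),(9,3),(3,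
  0),(26,0)]⟩)) (.S ⟨1,0,[0,-1,0,0,0,0,0,-1],[2,0,-1,0,-1],[1,0,0,-1,0,0,0,-1],(⟨0,[(33,0),(6,0)]⟩,
  ⟨0,[(0,0)]⟩),⟨0,[(29,0),(3,0)]⟩,.k,(.r (-1) ⟨0,[(22,0),(3,0)]⟩ ⟨2,[(11,1),(9,0),(1,0),(22,0)]⟩),
  ⟨true,0,⟨0,[(51,0)]⟩,⟨0,[(52,0)]⟩⟩,⟨false,1,⟨17,[(2,7),(9,4),(14,3),(4,2),(4,2),(11,1)]⟩,⟨0,[]⟩⟩,
  ⟨false,0,⟨0,[]⟩,⟨17,[(2,7),(9,4),(14,3),(4,2),(4,2),(11,1)]⟩⟩,⟨true,0,⟨0,[(52,0)]⟩,⟨0,[(51,0)]⟩⟩,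
  [.e ⟨false,0,⟨2,[(13,0),(2,0),(5,0)]⟩,⟨7,[(15,3),(12,1),(7,3),(9,1),(2,0),(3,2)]⟩⟩ ⟨false,1,⟨9,
  [(2,2),(9,2),(3,3),(3,0),(1,4),(30,3)]⟩,⟨0,[(11,0),(12,0)]⟩⟩,.o ⟨false,1,⟨6,[(1,0),(4,2),(0,3),(4,
  0),(4,2),(2,2)]⟩,⟨0,[(8,0),(27,0),(12,0)]⟩⟩,.a ⟨true,0,⟨16,[(1,10),(4,4),(0,0),(20,0),(13,4),(1,
  4),(1,2),(1,5)]⟩,⟨0,[(3,0)]⟩⟩ ⟨true,0,⟨13,[(7,0),(4,0),(0,4),(5,1),(2,5),(4,1),(21,0)]⟩,⟨0,[(11,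
  0),(13,0)]⟩⟩ ⟨false,1,⟨5,[(2,0),(9,0),(3,1),(3,0),(1,2),(31,3)]⟩,⟨0,[(11,0),(12,0)]⟩⟩,.o ⟨false,0,
  ⟨0,[(1,0)]⟩,⟨1,[(3,1),(45,0),(3,0)]⟩⟩]⟩) (.S ⟨1,0,[0,1,0,0,0,0,0,1],[0,0,1,0,1],[1,2,0,-1,0,0,0,
  1],(⟨0,[(34,0),(6,0)]⟩,⟨0,[(0,0)]⟩),⟨0,[(4,0),(36,0)]⟩,.k,(.r (-1) ⟨19,[(2,3),(15,7),(2,7),(6,9),
  (3,3),(13,5),(2,4),(3,6)]⟩ ⟨0,[(20,0)]⟩),⟨true,0,⟨0,[(51,0)]⟩,⟨0,[(52,0)]⟩⟩,⟨false,1,⟨17,[(2,7),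
  (9,4),(14,3),(4,2),(4,2),(11,1)]⟩,⟨0,[]⟩⟩,⟨false,0,⟨0,[]⟩,⟨17,[(2,7),(9,4),(14,3),(4,2),(4,2),(11,
  1)]⟩⟩,⟨true,0,⟨0,[(52,0)]⟩,⟨0,[(51,0)]⟩⟩,[.o ⟨false,0,⟨4,[(3,0),(4,3),(6,0),(5,0),(4,0),(9,2),(12,
  1)]⟩,⟨17,[(1,6),(4,0),(0,1),(8,2),(0,5),(2,8),(10,7),(17,6)]⟩⟩,.a ⟨true,0,⟨4,[(3,1),(4,2),(6,1),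
  (5,1),(4,1),(9,0),(11,0)]⟩,⟨2,[(1,0),(4,1),(12,1),(2,0)]⟩⟩ ⟨true,0,⟨0,[(21,0),(1,0)]⟩,⟨0,[(20,
  0)]⟩⟩ ⟨false,1,⟨5,[(11,1),(14,3),(1,1),(7,3),(12,0),(3,0)]⟩,⟨6,[(16,1),(3,1),(1,2),(23,0)]⟩⟩,.o
  ⟨false,0,⟨0,[(3,0)]⟩,⟨12,[(1,4),(4,1),(21,2),(2,5),(14,0),(2,4)]⟩⟩,.o ⟨false,0,⟨6,[(3,7),(3,0),(3,
  0),(7,0),(7,0),(11,1)]⟩,⟨11,[(1,4),(4,6),(4,0),(7,0),(5,1),(20,1),(2,5)]⟩⟩]⟩)) (.Q [0,0,2,0,-1,0,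
  0,0,1,0,0,1] (.p true [0,0,0,0,1] [] (⟨0,[(33,0)]⟩,⟨0,[(32,0)]⟩) .k 0 (⟨0,[]⟩,⟨0,[]⟩) .k .k) (.K
  ⟨0,[0,-1,0,0,1],(-1),(-1),(⟨0,[(4,0)]⟩,⟨118,[(2,5),(4,0),(7,0),(11,3),(4,6),(0,118),(3,6),(4,22),
  (3,3),(0,31),(0,13)]⟩),(.r 0 ⟨0,[(50,0)]⟩ ⟨2,[(2,0),(12,0),(6,0),(9,0),(4,0)]⟩),(.r 0 ⟨0,[(13,0),
  (4,0),(4,0),(28,1)]⟩ ⟨9,[(15,8),(4,1),(1,6),(23,4),(6,0)]⟩),.k,(.r 0 ⟨1,[(13,0),(8,0),(23,0)]⟩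
  ⟨27,[(2,3),(12,15),(5,7),(6,5),(3,3),(13,1),(2,2),(3,0)]⟩),.k,[⟨6,[(2,3),(3,1),(9,3),(2,4),(11,0),
  (4,4),(12,0)]⟩,⟨0,[(0,0)]⟩,⟨0,[(31,0),(20,0)]⟩,⟨0,[(9,0),(11,0)]⟩]⟩) (.Q [0,0,0,0,0,-1,0,0,0,1,0,
  -1] (.ed true [0,1,0,0,1] .k) (.K ⟨0,[1,-1,0,0,-1],0,1,(⟨0,[(0,0)]⟩,⟨118,[(3,5),(4,0),(7,0),(11,
  3),(4,6),(1,118),(2,6),(4,22),(3,3),(0,31),(0,13)]⟩),(.r (-1) ⟨5,[(3,0),(9,0),(13,2),(0,1),(21,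
  0)]⟩ ⟨1,[(12,0),(10,0),(23,0)]⟩),(.r (-1) ⟨9,[(14,1),(3,1),(0,3),(7,5),(22,0),(4,2)]⟩ ⟨7,[(12,6),
  (8,1),(1,4),(23,4)]⟩),.k,(.r (-1) ⟨0,[(23,0),(3,0)]⟩ ⟨2,[(12,1),(9,0),(1,0),(22,0)]⟩),.k,[⟨0,[(2,
  0)]⟩,⟨13,[(6,1),(0,5),(0,6),(2,5),(0,2),(6,0),(0,7),(1,3),(7,7),(1,0)]⟩,⟨0,[(2,0),(9,0),(7,0),(3,
  0),(1,0)]⟩,⟨7,[(7,2),(0,4),(19,3),(0,0),(17,3)]⟩]⟩) (.S ⟨1,0,[0,0,0,0,0,0,0,1],[1,0,1,0,-1],[1,-1,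
  0,-1,0,0,0,1],(⟨0,[(34,0),(7,0)]⟩,⟨0,[(0,0),(29,0)]⟩),⟨1,[(6,0),(27,1),(7,0)]⟩,.k,(.r (-2) ⟨13,
  [(3,7),(15,5),(7,3),(0,2),(0,6),(3,7),(16,4),(3,2)]⟩ ⟨0,[(20,0),(32,0)]⟩),⟨false,1,⟨2,[(3,0),(9,
  0),(14,1),(21,0)]⟩,⟨0,[(53,0)]⟩⟩,⟨true,0,⟨7,[(12,0),(10,0),(23,2),(4,1)]⟩,⟨0,[]⟩⟩,⟨true,0,⟨0,[]⟩,
  ⟨7,[(12,0),(10,0),(23,2),(4,1)]⟩⟩,⟨false,0,⟨0,[(53,0)]⟩,⟨2,[(3,0),(9,0),(14,1),(21,0)]⟩⟩,[.a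
  ⟨true,1,⟨40,[(3,9),(3,14),(0,15),(3,0),(15,5),(8,29),(9,3),(1,9),(7,12)]⟩,⟨7,[(2,7),(3,0),(4,2),
  (0,0),(3,0),(1,3),(1,5),(3,4),(5,3)]⟩⟩ ⟨true,1,⟨4,[(16,2),(1,1),(0,3),(7,0),(22,0)]⟩,⟨0,[(20,0),
  (32,0)]⟩⟩ ⟨false,1,⟨5,[(12,1),(14,3),(1,1),(7,3),(12,0),(3,0)]⟩,⟨6,[(17,1),(3,1),(1,2),(23,0)]⟩⟩,
  .o ⟨false,2,⟨0,[(3,0),(48,0)]⟩,⟨0,[(2,0),(17,0),(3,1)]⟩⟩,.o ⟨false,1,⟨4,[(1,2),(6,1),(30,2),(7,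
  0)]⟩,⟨0,[(2,0),(21,0),(15,0)]⟩⟩,.o ⟨false,1,⟨4,[(1,0),(6,3),(30,0),(7,1)]⟩,⟨0,[(2,0),(21,
  1)]⟩⟩]⟩)))) (.Q [0,0,2,0,-1,0,0,0,1,0,0,1] (.p true [0,0,0,0,1] [] (⟨0,[(32,0)]⟩,⟨0,[(31,0)]⟩) .k
  0 (⟨0,[]⟩,⟨0,[]⟩) .k .k) (.K ⟨0,[0,-1,0,0,1],(-1),(-1),(⟨0,[(3,0)]⟩,⟨57,[(6,1),(7,1),(11,1),(4,1),
  (0,57),(3,1),(4,9),(3,1),(0,15),(0,6),(4,2)]⟩),(.r 0 ⟨0,[(49,0)]⟩ ⟨5,[(6,0),(7,2),(6,1),(9,0),(4,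
  0),(15,1)]⟩),(.r 0 ⟨2,[(0,0),(0,0),(3,1),(6,1),(4,2),(30,0),(2,4)]⟩ ⟨9,[(14,8),(4,1),(1,6),(23,4),
  (6,0)]⟩),.k,(.r 0 ⟨1,[(12,0),(8,0),(23,0)]⟩ ⟨15,[(14,11),(2,3),(9,1),(17,1),(2,0),(3,2)]⟩),.k,
  [⟨10,[(4,5),(0,5),(0,4),(5,0),(0,5),(3,2),(0,4),(1,2),(25,7),(0,0),(3,10)]⟩,⟨0,[(0,0)]⟩,⟨0,[(30,
  0),(20,0)]⟩,⟨4,[(0,0),(0,1),(15,0),(2,0),(10,1),(13,1)]⟩]⟩) (.Q [0,0,0,0,0,0,0,0,0,0,-1,1] (.ed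
  false [1,0,-1,0,1] (.r 0 ⟨6,[(15,0),(3,0),(1,4),(23,3)]⟩ ⟨1,[(14,0),(5,0),(1,0),(2,0)]⟩)) (.Q [0,
  0,0,0,0,-1,0,0,0,-1,1,1] (.p true [-1,0,1,0,1] [] (⟨2,[(0,0),(3,1),(0,3),(36,0),(4,2)]⟩,⟨0,[(33,
  0),(6,0)]⟩) .k 0 (⟨0,[]⟩,⟨0,[]⟩) .k (.r 0 ⟨2,[(11,1),(6,0),(4,0),(1,1)]⟩ ⟨1,[(22,1),(30,0),(0,
  0)]⟩)) (.S ⟨1,0,[0,1,0,0,0,0,0,1],[-1,0,1,0,1],[1,2,0,-1,0,0,0,1],(⟨12,[(0,9),(34,2),(6,2),(0,0),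
  (4,2)]⟩,⟨0,[(34,0),(6,0)]⟩),⟨0,[(0,0)]⟩,.k,(.r (-1) ⟨15,[(16,3),(2,11),(9,5),(17,5),(2,2),(3,8)]⟩
  ⟨0,[(21,0)]⟩),⟨true,0,⟨0,[(52,0)]⟩,⟨0,[(53,0)]⟩⟩,⟨false,1,⟨1,[(32,0),(0,0),(21,0)]⟩,⟨0,[]⟩⟩,
  ⟨false,0,⟨0,[]⟩,⟨1,[(32,0),(0,0),(21,0)]⟩⟩,⟨true,0,⟨0,[(53,0)]⟩,⟨0,[(52,0)]⟩⟩,[.a ⟨true,0,⟨4,[(4,
  0),(4,3),(6,0),(5,0),(4,0),(9,2),(12,1)]⟩,⟨27,[(7,19),(0,7),(2,1),(6,6),(1,13),(0,6),(8,1),(12,0),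
  (1,2),(3,11),(6,12)]⟩⟩ ⟨false,0,⟨15,[(2,0),(0,0),(8,11),(9,4),(2,16),(3,1),(17,3),(2,0)]⟩,⟨1,[(21,
  1),(32,0),(0,0)]⟩⟩ ⟨true,0,⟨2,[(12,1),(6,0),(4,0),(1,1)]⟩,⟨0,[(20,0),(34,0)]⟩⟩,.o ⟨false,1,⟨4,[(4,
  1),(4,2),(6,1),(5,1),(4,1),(9,0),(12,3)]⟩,⟨3,[(7,2),(0,0),(11,3),(8,0)]⟩⟩,.a ⟨true,0,⟨0,[(4,0)]⟩,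
  ⟨70,[(7,59),(0,1),(2,32),(0,9),(7,29),(1,19),(7,32),(1,8),(12,32),(3,7),(7,11)]⟩⟩ ⟨false,0,⟨0,
  [(22,0),(1,0)]⟩,⟨1,[(21,1),(32,0),(0,0)]⟩⟩ ⟨true,0,⟨2,[(12,1),(6,0),(4,0),(1,1)]⟩,⟨6,[(17,1),(3,
  1),(1,2),(23,0)]⟩⟩,.a ⟨true,0,⟨23,[(3,3),(0,23),(3,6),(3,1),(3,0),(2,0),(13,2),(6,3)]⟩,⟨232,[(3,
  18),(2,28),(0,251),(3,36),(0,46),(7,102),(1,74),(7,65),(12,49),(5,73),(7,35)]⟩⟩ ⟨true,0,⟨15,[(2,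
  0),(0,0),(8,11),(9,4),(2,16),(3,1),(17,3),(2,0)]⟩,⟨0,[(21,0)]⟩⟩ ⟨false,1,⟨5,[(12,1),(14,3),(1,1),
  (7,3),(12,0),(3,0)]⟩,⟨0,[(20,0),(34,0)]⟩⟩]⟩) (.R ⟨0,false,false,false,[0,0,-1,0,1],[-1,0,1,0,1],
  [0,0,1],(⟨0,[(1,0)]⟩,⟨0,[(34,0),(7,0)]⟩),(⟨2,[(1,0),(3,1),(0,3),(36,0),(4,2)]⟩,⟨0,[(0,0),(44,
  0)]⟩),⟨2,[(0,0),(5,3),(27,1),(8,0),(4,2)]⟩,.k,.k,(.r 0 ⟨1,[(14,0),(8,0),(23,0)]⟩ ⟨15,[(16,11),(2,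
  3),(9,1),(17,1),(2,0),(3,2)]⟩),.k,.k,.k,⟨true,0,⟨0,[(20,0),(34,0)]⟩,⟨0,[(12,0),(12,0)]⟩⟩,⟨false,1,
  ⟨0,[(2,0),(1,0),(34,0)]⟩,⟨0,[(29,0)]⟩⟩,⟨true,1,⟨27,[(16,17),(2,9),(7,1),(0,6),(0,4),(20,5),(3,
  1)]⟩,⟨7,[(2,2),(0,2),(13,2),(2,4),(16,2),(9,0),(5,5)]⟩⟩,⟨false,2,⟨1,[(37,3),(12,0),(4,2)]⟩,⟨5,[(7,
  0),(2,0),(1,0),(5,3),(1,5),(0,1),(7,0)]⟩⟩,⟨false,0,⟨0,[]⟩,⟨0,[]⟩⟩,⟨false,0,⟨0,[]⟩,⟨0,[]⟩⟩,[.a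
  ⟨true,0,⟨4,[(4,0),(4,3),(6,0),(5,0),(4,0),(9,2),(12,1)]⟩,⟨27,[(7,19),(0,7),(2,1),(6,6),(1,13),(0,
  6),(8,1),(12,0),(1,2),(3,11),(6,12)]⟩⟩ ⟨true,0,⟨23,[(3,3),(4,6),(3,1),(3,0),(2,0),(13,2),(6,3)]⟩,
  ⟨0,[]⟩⟩ ⟨false,1,⟨8,[(2,4),(1,6),(3,1),(28,8),(9,0),(2,0),(3,0)]⟩,⟨20,[(8,1),(4,1),(4,8),(1,0),(0,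
  8),(7,9),(10,3),(8,0)]⟩⟩,.o ⟨false,1,⟨4,[(4,1),(4,2),(6,1),(5,1),(4,1),(9,0),(12,3)]⟩,⟨3,[(7,2),
  (0,0),(11,3),(8,0)]⟩⟩,.o ⟨false,0,⟨6,[(3,0),(5,5),(6,2),(1,2),(0,0),(4,0),(25,4)]⟩,⟨4,[(2,2),(5,
  1),(30,2),(7,0)]⟩⟩,.o ⟨false,0,⟨55,[(3,26),(5,11),(3,16),(2,30),(1,2),(0,15),(9,10),(20,34)]⟩,⟨0,
  [(2,0),(36,0)]⟩⟩]⟩)) (.Q [0,0,-1,0,0,0,0,0,1,-1,0,1] (.p true [0,0,0,0,1] [1] (⟨0,[(34,0)]⟩,⟨0,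
  [(33,0)]⟩) .k 1 (⟨0,[]⟩,⟨0,[]⟩) .k .k) (.S ⟨1,0,[],[1,0,0,0,-1],[0,-1],(⟨0,[(34,0)]⟩,⟨0,[(35,
  0)]⟩),⟨0,[(1,0),(28,0)]⟩,.k,(.r (-1) ⟨7,[(27,3),(0,1),(3,0),(0,0),(16,0),(4,1)]⟩ ⟨1,[(12,0),(10,
  0),(23,0)]⟩),⟨false,1,⟨1,[(32,0),(0,0),(21,0)]⟩,⟨0,[]⟩⟩,⟨true,0,⟨7,[(12,0),(10,0),(23,2),(4,1)]⟩,
  ⟨0,[]⟩⟩,⟨true,0,⟨0,[(53,0)]⟩,⟨0,[(52,0)]⟩⟩,⟨false,0,⟨0,[(53,0)]⟩,⟨3,[(28,1),(3,0),(0,0),(16,0),(4,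
  1)]⟩⟩,[.o ⟨false,1,⟨0,[(32,0)]⟩,⟨1,[(0,0),(3,0),(35,0)]⟩⟩,.a ⟨true,1,⟨183,[(7,85),(0,97),(7,11),
  (11,11),(9,11),(4,19),(1,19),(1,5),(1,32),(4,20)]⟩,⟨0,[(9,0)]⟩⟩ ⟨true,1,⟨0,[(55,0)]⟩,⟨3,[(2,0),(0,
  1),(8,1),(7,1),(1,1),(9,0)]⟩⟩ ⟨false,1,⟨1,[(54,0),(0,0)]⟩,⟨7,[(12,0),(10,0),(23,2),(4,1)]⟩⟩,.o
  ⟨false,1,⟨0,[(32,0)]⟩,⟨1,[(0,0),(3,0),(35,0)]⟩⟩,.o ⟨false,1,⟨9,[(8,2),(3,0),(19,6),(5,0),(1,1),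
  (11,1)]⟩,⟨0,[(0,0)]⟩⟩]⟩) (.K ⟨0,[1,0,0,0,-1],0,1,(⟨0,[(34,0)]⟩,⟨0,[(35,0)]⟩),.k,(.r (-1) ⟨7,[(27,
  3),(0,1),(3,0),(0,0),(16,0),(4,1)]⟩ ⟨1,[(12,0),(10,0),(23,0)]⟩),(.r (-1) ⟨5,[(8,0),(7,2),(6,1),(9,
  0),(4,0),(15,1)]⟩ ⟨0,[(51,0)]⟩),.k,.k,[⟨0,[(4,0)]⟩,⟨0,[(0,0)]⟩,⟨1,[(3,0),(5,0),(27,0),(12,0),(2,
  0)]⟩,⟨3,[(7,0),(0,2),(20,0),(17,1),(1,0),(4,0)]⟩]⟩))))) (.Q [0,0,0,0,0,1,0,0,0,-1,0,1] (.ed false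
  [0,1,0,0,1] .k) (.R ⟨0,false,false,true,[1,0,0,0,-1],[1,0,-1],[],(⟨0,[(31,0)]⟩,⟨0,[(32,0)]⟩),(⟨0,
  [(38,0)]⟩,⟨0,[(39,0)]⟩),⟨0,[(0,0)]⟩,.k,.k,(.r (-1) ⟨7,[(24,3),(0,1),(3,0),(0,0),(16,0),(4,1)]⟩ ⟨1,
  [(9,0),(10,0),(23,0)]⟩),.k,.k,.k,⟨true,1,⟨1,[(13,0),(5,0),(1,0),(2,0)]⟩,⟨0,[(17,0)]⟩⟩,⟨false,0,⟨3,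
  [(6,3),(6,0),(1,0),(8,0),(1,0),(20,0),(3,0)]⟩,⟨1,[(5,0),(8,0),(14,0),(4,0),(15,0)]⟩⟩,⟨true,0,⟨7,
  [(9,0),(10,0),(23,2),(4,1)]⟩,⟨0,[]⟩⟩,⟨false,(-1),⟨0,[(7,0)]⟩,⟨5,[(1,5),(1,5),(8,5),(0,3),(2,5),(1,
  3),(26,7),(0,0),(5,2)]⟩⟩,⟨false,0,⟨0,[]⟩,⟨0,[]⟩⟩,⟨false,0,⟨0,[]⟩,⟨0,[]⟩⟩,[.e ⟨false,1,⟨1,[(29,0),
  (0,0),(20,0)]⟩,⟨0,[]⟩⟩ ⟨false,(-1),⟨6,[(6,3),(0,2),(6,0),(0,1),(1,0),(5,0),(23,0),(2,3)]⟩,⟨2,[(5,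
  0),(7,0),(10,1),(4,1),(4,1)]⟩⟩,.o ⟨false,0,⟨7,[(15,1),(1,0),(0,1),(16,2),(1,0),(9,0)]⟩,⟨1,[(34,1),
  (12,0),(4,0)]⟩⟩,.o ⟨false,1,⟨0,[(29,0)]⟩,⟨1,[(6,1),(40,0),(4,0)]⟩⟩,.a ⟨true,0,⟨7,[(1,5),(3,1),(11,
  0),(0,2),(0,2),(14,0),(11,0)]⟩,⟨1,[(6,0),(17,0),(5,0),(19,0)]⟩⟩ ⟨false,1,⟨1,[(51,0),(0,0)]⟩,⟨5,
  [(5,0),(3,0),(0,0),(5,0),(0,0),(19,0)]⟩⟩ ⟨true,(-1),⟨6,[(6,3),(0,2),(6,0),(0,1),(1,0),(5,0),(23,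
  0),(2,3)]⟩,⟨37,[(1,14),(1,2),(0,2),(0,19),(6,2),(0,4),(5,9),(14,22),(10,3),(1,6)]⟩⟩]⟩) (.Q [0,2,0,
  1,-1,0,0,0,1,-1,0,1] (.p true [0,0,0,0,1] [1] (⟨0,[(32,0)]⟩,⟨0,[(31,0)]⟩) .k 1 (⟨0,[]⟩,⟨0,[]⟩) .k
  .k) (.S ⟨1,0,[0,2,1,1],[0,1,0,0,1],[1,1,1],(⟨57,[(6,1),(7,1),(11,1),(4,1),(1,57),(2,1),(4,9),(3,
  1),(0,15),(0,6),(4,2)]⟩,⟨0,[(1,0)]⟩),⟨0,[(33,0)]⟩,(.r 0 ⟨1,[(10,0),(10,0),(23,0)]⟩ ⟨7,[(25,3),(0,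
  1),(3,0),(0,0),(16,0),(4,1)]⟩),.k,⟨false,1,⟨3,[(26,1),(3,0),(0,0),(16,0),(4,1)]⟩,⟨0,[(51,0)]⟩⟩,
  ⟨true,0,⟨7,[(10,0),(10,0),(23,2),(4,1)]⟩,⟨0,[]⟩⟩,⟨true,0,⟨0,[]⟩,⟨7,[(10,0),(10,0),(23,2),(4,1)]⟩⟩,
  ⟨false,0,⟨0,[(51,0)]⟩,⟨3,[(26,1),(3,0),(0,0),(16,0),(4,1)]⟩⟩,[.o ⟨false,(-1),⟨0,[(0,0)]⟩,⟨1,[(5,
  0),(0,0),(19,0),(21,0),(4,0)]⟩⟩,.e ⟨false,0,⟨0,[]⟩,⟨1,[(30,0),(0,0),(20,0)]⟩⟩ ⟨false,0,⟨4,[(10,0),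
  (8,0),(25,2),(5,1)]⟩,⟨7,[(25,3),(0,1),(3,0),(0,0),(16,0),(4,1)]⟩⟩,.a ⟨true,0,⟨3,[(0,1),(24,1),(5,
  1),(15,0),(5,0)]⟩,⟨7,[(2,5),(3,1),(11,0),(0,2),(0,2),(14,0),(11,0)]⟩⟩ ⟨false,0,⟨5,[(6,0),(3,0),(0,
  0),(5,0),(0,0),(19,0)]⟩,⟨1,[(52,0),(0,0)]⟩⟩ ⟨true,(-1),⟨7,[(0,2),(1,2),(7,1),(7,4),(16,2),(9,0),
  (5,0)]⟩,⟨7,[(25,3),(0,1),(3,0),(0,0),(16,0),(4,1)]⟩⟩,.o ⟨false,0,⟨1,[(7,1),(40,0),(4,0)]⟩,⟨0,[(30,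
  0)]⟩⟩]⟩) (.I [1,1,0,0,-1,2,0,0,1] (.I [1,-1,0,-1,0,3] (.C [(0,0),(1,3),(1,2),(1,2),(2,6),(2,1),(2,
  2),(4,1),(27,2),(1,1),(2,0)]) (.C [(0,0),(1,0),(6,0),(38,0)])) (.C [(0,0),(1,0),(5,0),(38,
  0)]))))) (.R ⟨0,false,false,false,[0,0,0,0,1],[1,1,-1],[0,1,1],(⟨0,[(30,0)]⟩,⟨0,[(29,0)]⟩),(⟨57,
  [(3,1),(7,1),(11,1),(4,1),(4,1),(2,57),(1,9),(3,1),(0,15),(0,6),(4,2)]⟩,⟨0,[(26,0)]⟩),⟨0,[(0,0)]⟩,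
  .k,.k,(.r 0 ⟨0,[(46,0)]⟩ ⟨5,[(3,0),(7,2),(6,1),(9,0),(4,0),(15,1)]⟩),(.r (-1) ⟨15,[(11,3),(2,11),
  (9,5),(17,5),(2,2),(3,8)]⟩ ⟨0,[(16,0)]⟩),.k,.k,⟨true,0,⟨0,[(17,0),(1,0)]⟩,⟨0,[(16,0)]⟩⟩,⟨false,1,
  ⟨7,[(2,6),(0,0),(20,0),(17,3)]⟩,⟨1,[(4,1),(29,1),(10,0),(4,0)]⟩⟩,⟨true,0,⟨5,[(3,0),(3,0),(0,0),(5,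
  0),(0,0),(19,0)]⟩,⟨2,[(21,0),(20,0),(5,0)]⟩⟩,⟨false,1,⟨3,[(2,2),(0,0),(12,3),(7,0)]⟩,⟨1,[(4,1),
  (12,1),(27,0),(4,0)]⟩⟩,⟨false,0,⟨0,[]⟩,⟨0,[]⟩⟩,⟨false,0,⟨0,[]⟩,⟨0,[]⟩⟩,[.o ⟨false,0,⟨19,[(7,1),(5,
  5),(1,2),(0,4),(16,7),(11,2),(2,16)]⟩,⟨1,[(17,1),(27,0),(4,0)]⟩⟩,.a ⟨true,0,⟨0,[(16,0),(14,0)]⟩,
  ⟨0,[(17,0)]⟩⟩ ⟨true,0,⟨5,[(3,0),(3,0),(0,0),(5,0),(0,0),(19,0)]⟩,⟨0,[]⟩⟩ ⟨false,1,⟨15,[(2,13),(0,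
  0),(7,0),(4,13),(10,0),(5,2),(8,5),(1,0)]⟩,⟨1,[(4,1),(12,1),(27,0),(4,0)]⟩⟩,.o ⟨false,0,⟨1,[(4,1),
  (40,0),(4,0)]⟩,⟨0,[(27,0)]⟩⟩,.o ⟨false,0,⟨5,[(4,3),(3,1),(2,1),(2,1),(0,1),(29,2),(4,0)]⟩,⟨5,[(2,
  3),(0,0),(8,0),(2,1),(11,0),(4,2),(12,1),(2,0)]⟩⟩]⟩))) (.Q [0,0,0,0,0,-1,0,0,0,0,0,1] (.ed false
  [1,-1,0,0,1] .k) (.Q [0,0,-1,0,0,0,0,0,1,-1,0,1] (.p true [0,0,0,0,1] [1] (⟨0,[(29,0)]⟩,⟨0,[(28,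
  0)]⟩) .k 1 (⟨0,[]⟩,⟨0,[]⟩) .k .k) (.Q [0,0,0,0,0,1,0,0,0,-1,0,1] (.ed false [0,1,0,0,1] .k) (.S
  ⟨1,0,[0,0,0,0,0,0,0,1],[1,0,1,0,-1],[1,-1,0,-1,0,0,0,1],(⟨0,[(30,0),(7,0)]⟩,⟨0,[(0,0),(25,0)]⟩),
  ⟨0,[(27,0),(2,0)]⟩,.k,(.r (-2) ⟨13,[(12,7),(2,5),(7,3),(0,6),(0,2),(20,4),(3,10)]⟩ ⟨0,[(16,0),(32,
  0)]⟩),⟨false,1,⟨3,[(24,1),(3,0),(0,0),(16,0),(4,1)]⟩,⟨0,[(49,0)]⟩⟩,⟨true,0,⟨19,[(3,0),(0,0),(3,1),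
  (15,0),(9,1),(8,7),(4,1)]⟩,⟨0,[]⟩⟩,⟨true,0,⟨0,[]⟩,⟨19,[(3,0),(0,0),(3,1),(15,0),(9,1),(8,7),(4,
  1)]⟩⟩,⟨false,0,⟨0,[(49,0)]⟩,⟨3,[(24,1),(3,0),(0,0),(16,0),(4,1)]⟩⟩,[.a ⟨true,1,⟨1,[(4,0),(7,0),(9,
  1),(5,0),(4,0),(11,0)]⟩,⟨8,[(1,3),(1,4),(4,1),(5,6),(1,2),(0,0),(27,0),(3,1)]⟩⟩ ⟨true,1,⟨4,[(12,
  2),(1,1),(0,3),(7,0),(22,0)]⟩,⟨0,[(16,0),(32,0)]⟩⟩ ⟨false,1,⟨5,[(8,1),(14,3),(1,1),(7,3),(12,0),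
  (3,0)]⟩,⟨6,[(13,1),(3,1),(1,2),(23,0)]⟩⟩,.o ⟨false,2,⟨2,[(4,0),(7,0),(10,1),(4,1),(4,1)]⟩,⟨0,[(1,
  0),(14,0),(3,0)]⟩⟩,.o ⟨false,1,⟨1,[(4,0),(8,0),(14,0),(4,0),(15,0)]⟩,⟨0,[(1,0),(34,0)]⟩⟩,.o
  ⟨false,1,⟨5,[(4,4),(8,0),(14,0),(4,0),(9,1),(5,0)]⟩,⟨0,[(1,0),(18,0)]⟩⟩]⟩) (.S ⟨1,0,[],[1,0,0,0,
  -1],[0,-1],(⟨0,[(30,0)]⟩,⟨0,[(31,0)]⟩),⟨0,[(0,0)]⟩,.k,(.r (-1) ⟨7,[(23,3),(0,1),(3,0),(0,0),(16,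
  0),(4,1)]⟩ ⟨1,[(8,0),(10,0),(23,0)]⟩),⟨false,1,⟨1,[(28,0),(0,0),(21,0)]⟩,⟨0,[]⟩⟩,⟨true,0,⟨19,[(3,
  0),(0,0),(3,1),(15,0),(9,1),(8,7),(4,1)]⟩,⟨0,[]⟩⟩,⟨true,0,⟨0,[(49,0)]⟩,⟨0,[(48,0)]⟩⟩,⟨false,0,⟨0,
  [(49,0)]⟩,⟨3,[(24,1),(3,0),(0,0),(16,0),(4,1)]⟩⟩,[.o ⟨false,1,⟨0,[(28,0)]⟩,⟨16,[(1,9),(1,2),(5,1),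
  (2,0),(2,0),(13,1),(6,1),(9,1)]⟩⟩,.a ⟨true,1,⟨10,[(4,5),(7,2),(1,2),(7,4),(0,0),(4,4),(16,3),(3,
  2)]⟩,⟨0,[(5,0)]⟩⟩ ⟨true,1,⟨0,[(51,0)]⟩,⟨0,[(8,0),(7,0),(4,0)]⟩⟩ ⟨false,1,⟨1,[(50,0),(0,0)]⟩,⟨19,
  [(3,0),(0,0),(3,1),(15,0),(9,1),(8,7),(4,1)]⟩⟩,.o ⟨false,1,⟨0,[(28,0)]⟩,⟨16,[(1,9),(1,2),(5,1),(2,
  0),(2,0),(13,1),(6,1),(9,1)]⟩⟩,.o ⟨false,1,⟨9,[(4,2),(3,0),(19,6),(5,0),(1,1),(11,1)]⟩,⟨0,[(1,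
  0)]⟩⟩]⟩)) (.K ⟨0,[1,0,0,0,-1],0,1,(⟨0,[(29,0)]⟩,⟨0,[(30,0)]⟩),.k,(.r (-1) ⟨7,[(22,3),(0,1),(3,0),
  (0,0),(16,0),(4,1)]⟩ ⟨1,[(7,0),(10,0),(23,0)]⟩),(.r (-1) ⟨5,[(3,0),(7,2),(6,1),(9,0),(4,0),(15,
  1)]⟩ ⟨0,[(46,0)]⟩),.k,.k,[⟨0,[(2,0),(19,0),(25,0)]⟩,⟨0,[(0,0)]⟩,⟨0,[(2,0),(16,0),(1,0),(26,0)]⟩,
  ⟨3,[(0,0),(2,1),(20,0),(2,0),(14,0),(1,0),(4,1)]⟩]⟩)) (.Q [0,1,-1,0,-1,0,-1,0,1,0,-1,1] (.p true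
  [1,0,-1,0,1] [1] (⟨0,[(29,0),(5,0)]⟩,⟨0,[(0,0),(24,0)]⟩) .k 1 (⟨0,[]⟩,⟨0,[]⟩) .k (.r 0 ⟨6,[(11,0),
  (3,0),(1,4),(23,3)]⟩ ⟨1,[(10,0),(5,0),(1,0),(2,0)]⟩)) (.Q [0,0,-1,0,0,0,0,0,1,-1,0,1] (.p true [0,
  0,0,0,1] [1] (⟨0,[(30,0)]⟩,⟨0,[(29,0)]⟩) .k 1 (⟨0,[]⟩,⟨0,[]⟩) .k .k) (.S ⟨1,0,[],[1,0,0,0,-1],[0,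
  -1],(⟨0,[(30,0)]⟩,⟨0,[(31,0)]⟩),⟨0,[(2,0),(23,0),(0,0)]⟩,.k,(.r (-1) ⟨7,[(23,3),(0,1),(3,0),(0,0),
  (16,0),(4,1)]⟩ ⟨1,[(8,0),(10,0),(23,0)]⟩),⟨false,1,⟨1,[(28,0),(0,0),(21,0)]⟩,⟨0,[]⟩⟩,⟨true,0,⟨19,
  [(3,0),(0,0),(3,1),(15,0),(9,1),(8,7),(4,1)]⟩,⟨0,[]⟩⟩,⟨true,0,⟨0,[(49,0)]⟩,⟨0,[(48,0)]⟩⟩,⟨false,0,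
  ⟨0,[(49,0)]⟩,⟨3,[(24,1),(3,0),(0,0),(16,0),(4,1)]⟩⟩,[.o ⟨false,1,⟨0,[(28,0)]⟩,⟨10,[(0,4),(0,0),(1,
  1),(5,1),(2,0),(2,0),(13,0),(16,1)]⟩⟩,.a ⟨true,1,⟨10,[(4,5),(7,2),(1,2),(7,4),(0,0),(4,4),(16,3),
  (3,2)]⟩,⟨0,[(5,0)]⟩⟩ ⟨true,1,⟨0,[(51,0)]⟩,⟨0,[(8,0),(7,0),(4,0)]⟩⟩ ⟨false,1,⟨1,[(50,0),(0,0)]⟩,
  ⟨19,[(3,0),(0,0),(3,1),(15,0),(9,1),(8,7),(4,1)]⟩⟩,.o ⟨false,1,⟨0,[(28,0)]⟩,⟨10,[(0,4),(0,0),(1,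
  1),(5,1),(2,0),(2,0),(13,0),(16,1)]⟩⟩,.o ⟨false,1,⟨9,[(4,2),(3,0),(19,6),(5,0),(1,1),(11,1)]⟩,⟨0,
  [(0,0)]⟩⟩]⟩) (.K ⟨0,[1,0,0,0,-1],0,1,(⟨0,[(30,0)]⟩,⟨0,[(31,0)]⟩),.k,(.r (-1) ⟨7,[(23,3),(0,1),(3,
  0),(0,0),(16,0),(4,1)]⟩ ⟨1,[(8,0),(10,0),(23,0)]⟩),(.r (-1) ⟨5,[(4,0),(7,2),(6,1),(9,0),(4,0),(15,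
  1)]⟩ ⟨0,[(47,0)]⟩),.k,.k,[⟨0,[(3,0),(19,0),(25,0)]⟩,⟨0,[(0,0)]⟩,⟨16,[(1,11),(1,4),(9,0),(2,5),(16,
  6),(9,1),(2,5),(2,0)]⟩,⟨5,[(4,3),(23,1),(3,3),(10,1),(1,0),(4,0)]⟩]⟩)) (.R ⟨0,false,false,false,
  [0,0,0,0,1],[1,0,-1],[0,0,1,0,0,0,0,-1],(⟨0,[(30,0)]⟩,⟨0,[(29,0)]⟩),(⟨0,[(36,0)]⟩,⟨0,[(37,0)]⟩),
  ⟨0,[(1,0)]⟩,.k,.k,(.r 0 ⟨0,[(46,0)]⟩ ⟨5,[(3,0),(7,2),(6,1),(9,0),(4,0),(15,1)]⟩),.k,.k,.k,⟨true,0,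
  ⟨8,[(2,0),(0,0),(3,0),(10,0),(4,0),(11,1)]⟩,⟨0,[]⟩⟩,⟨false,1,⟨0,[(27,0),(3,0)]⟩,⟨0,[(2,0),(19,0),
  (25,0)]⟩⟩,⟨true,0,⟨0,[(15,0),(34,0)]⟩,⟨2,[(7,2),(12,1),(0,1),(20,0)]⟩⟩,⟨false,1,⟨9,[(0,3),(2,1),
  (3,0),(3,0),(1,7),(2,3),(10,3),(16,0)]⟩,⟨4,[(2,0),(1,3),(6,0),(10,1),(9,3),(12,1)]⟩⟩,⟨false,0,⟨0,
  []⟩,⟨0,[]⟩⟩,⟨false,0,⟨0,[]⟩,⟨0,[]⟩⟩,[.o ⟨false,0,⟨7,[(13,1),(1,0),(0,1),(16,2),(1,0),(9,0)]⟩,⟨1,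
  [(32,1),(12,0),(4,0)]⟩⟩,.a ⟨true,0,⟨13,[(3,1),(4,1),(4,3),(2,5),(1,1),(4,0),(0,0),(6,3),(12,1)]⟩,
  ⟨0,[(32,0)]⟩⟩ ⟨true,0,⟨0,[(15,0),(34,0)]⟩,⟨0,[(7,0),(12,0)]⟩⟩ ⟨false,1,⟨3,[(13,1),(2,1),(10,3),
  (16,0),(4,0)]⟩,⟨4,[(2,0),(1,3),(6,0),(10,1),(9,3),(12,1)]⟩⟩,.o ⟨false,0,⟨1,[(4,1),(40,0),(4,0)]⟩,
  ⟨0,[(27,0)]⟩⟩,.o ⟨false,0,⟨15,[(2,4),(1,3),(3,5),(2,2),(2,2),(9,0),(3,0),(16,5)]⟩,⟨0,[(0,0),(18,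
  0),(1,0),(26,0)]⟩⟩]⟩))))))))

theorem ok48 : chk K t48 r33 = true := by decide +kernel

noncomputable def t55 : Tre :=
  (.I [0,0,2,1,0,0,0,1] (.Q [0,0,0,0,0,2,0,0,0,0,-1] (.p false [0,0,1] [] (⟨0,[(25,0)]⟩,⟨0,[(24,
  0)]⟩) .k 0 (⟨0,[]⟩,⟨0,[]⟩) .k .k) (.R ⟨0,false,false,false,[0,-1,1],[1,-1,-1],[0,0,1],(⟨0,[(15,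
  0)]⟩,⟨4,[(0,1),(15,0),(0,0),(7,2),(1,0),(5,0)]⟩),(⟨0,[(14,0)]⟩,⟨22,[(16,2),(0,2),(8,22),(0,4),(4,
  5),(0,2)]⟩),⟨0,[(0,0)]⟩,.k,.k,(.r (-1) ⟨0,[(1,0),(7,0),(1,0)]⟩ ⟨6,[(1,3),(3,9),(1,0),(23,4)]⟩),.k,
  .k,.k,⟨true,0,⟨0,[(1,0)]⟩,⟨0,[(4,0),(6,0)]⟩⟩,⟨false,0,⟨0,[(8,0),(11,0)]⟩,⟨3,[(2,3),(1,1),(0,0),(1,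
  0),(3,4),(26,0)]⟩⟩,⟨false,0,⟨2,[(1,0),(2,0),(0,1),(1,0),(31,0)]⟩,⟨0,[(1,0),(8,0),(0,0)]⟩⟩,⟨true,
  (-1),⟨1,[(4,1),(0,1),(2,3),(1,0),(0,0),(21,0)]⟩,⟨1,[(21,3),(12,0),(4,0)]⟩⟩,⟨false,0,⟨0,[]⟩,⟨0,
  []⟩⟩,⟨false,0,⟨0,[]⟩,⟨0,[]⟩⟩,[.o ⟨false,0,⟨0,[(4,0),(6,0),(12,0)]⟩,⟨1,[(21,1),(12,0),(2,1),(1,
  0)]⟩⟩,.a ⟨true,0,⟨3,[(4,3),(4,1),(3,1),(19,0),(5,4)]⟩,⟨0,[(21,0),(15,0)]⟩⟩ ⟨false,1,⟨1,[(16,0),(0,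
  0),(21,0)]⟩,⟨2,[(10,0),(20,0),(5,0)]⟩⟩ ⟨true,0,⟨1,[(4,1),(3,3),(2,1),(21,0),(5,0)]⟩,⟨0,[(2,0)]⟩⟩,
  .a ⟨true,0,⟨0,[(23,0)]⟩,⟨0,[(20,0)]⟩⟩ ⟨true,0,⟨11,[(1,3),(2,1),(2,1),(4,1),(21,0),(4,0)]⟩,⟨2,[(10,
  0),(20,0),(5,0)]⟩⟩ ⟨false,0,⟨1,[(4,1),(3,3),(2,1),(21,0),(5,0)]⟩,⟨1,[(2,1),(35,0),(0,0)]⟩⟩,.a
  ⟨true,0,⟨5,[(1,0),(0,2),(1,0),(0,1),(1,0),(4,2),(26,0)]⟩,⟨1,[(8,1),(1,0),(0,0),(21,0),(3,1)]⟩⟩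
  ⟨false,1,⟨1,[(16,0),(0,0),(21,0)]⟩,⟨0,[]⟩⟩ ⟨true,0,⟨0,[(4,0),(3,0),(2,0),(8,0)]⟩,⟨0,[(2,0)]⟩⟩]⟩)
  (.Q [0,0,-2,0,1,0,1,0,0,-1,1] (.p true [0,0,1] [1] (⟨0,[(26,0)]⟩,⟨0,[(25,0)]⟩) .k 1 (⟨0,[]⟩,⟨0,
  []⟩) .k .k) (.R ⟨0,false,false,true,[1,-1,-1],[0,-1,1],[1],(⟨0,[(15,0)]⟩,⟨22,[(17,2),(0,2),(8,22),
  (0,4),(4,5),(0,2)]⟩),(⟨0,[(16,0)]⟩,⟨22,[(17,2),(0,2),(7,22),(1,4),(4,5),(0,2)]⟩),⟨2,[(1,1),(25,0),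
  (0,0),(4,2)]⟩,.k,.k,(.r (-1) ⟨2,[(0,0),(7,1),(1,0),(1,1),(0,0),(9,0)]⟩ ⟨0,[(2,0),(35,0)]⟩),.k,.k,
  .k,⟨true,0,⟨0,[(6,0)]⟩,⟨0,[(2,0),(7,0)]⟩⟩,⟨false,1,⟨0,[(0,0),(23,0)]⟩,⟨0,[(14,0)]⟩⟩,⟨false,1,⟨1,
  [(2,1),(36,0),(0,0)]⟩,⟨0,[(5,0),(6,0)]⟩⟩,⟨true,1,⟨1,[(22,3),(12,0),(4,0)]⟩,⟨1,[(5,1),(0,1),(2,3),
  (1,0),(0,0),(21,0)]⟩⟩,⟨false,0,⟨0,[]⟩,⟨0,[]⟩⟩,⟨false,0,⟨0,[]⟩,⟨0,[]⟩⟩,[.a ⟨true,0,⟨0,[(7,0)]⟩,⟨0,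
  [(6,0),(14,0)]⟩⟩ ⟨true,0,⟨0,[]⟩,⟨11,[(2,3),(2,1),(2,1),(4,1),(21,0),(4,0)]⟩⟩ ⟨false,1,⟨0,[(0,0),
  (6,0)]⟩,⟨0,[(6,0),(7,0)]⟩⟩,.o ⟨false,1,⟨1,[(7,1),(27,0),(4,0)]⟩,⟨2,[(6,1),(2,1),(1,0),(11,0),(14,
  1)]⟩⟩,.o ⟨false,0,⟨0,[(25,0)]⟩,⟨27,[(0,19),(2,3),(4,3),(4,1),(3,2),(0,2),(16,2),(4,1)]⟩⟩,.o
  ⟨false,0,⟨11,[(2,3),(2,1),(2,1),(4,1),(11,11),(9,0),(4,0)]⟩,⟨0,[(0,0)]⟩⟩]⟩) (.K ⟨0,[1,-1,-1],(-1),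
  (-1),(⟨0,[(15,0)]⟩,⟨22,[(17,2),(0,2),(8,22),(0,4),(4,5),(0,2)]⟩),.k,(.r (-1) ⟨4,[(8,4),(1,1),(1,
  4),(19,0),(4,0)]⟩ ⟨0,[(2,0),(35,0)]⟩),.k,(.r 0 ⟨3,[(5,5),(0,0),(1,0),(3,4),(26,0)]⟩ ⟨3,[(2,5),(9,
  1),(8,1),(0,1),(12,0),(3,0)]⟩),.k,[⟨0,[(3,0),(2,0),(4,0),(0,0)]⟩,⟨0,[(0,0)]⟩,⟨9,[(2,3),(0,3),(18,
  1),(9,1),(2,2),(2,1),(0,6)]⟩,⟨10,[(0,1),(4,10),(4,2),(1,2),(0,0),(0,2),(6,2),(12,0)]⟩]⟩))) (.Q [0,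
  0,0,0,0,2,0,0,0,-1,1] (.p true [0,0,1] [1] (⟨0,[(25,0)]⟩,⟨0,[(24,0)]⟩) .k 1 (⟨0,[]⟩,⟨0,[]⟩) .k
  .k) (.R ⟨0,false,false,true,[1,-1,-1],[0,-1,1],[1],(⟨0,[(14,0)]⟩,⟨4,[(0,1),(15,0),(0,0),(8,2),(0,
  0),(5,0)]⟩),(⟨0,[(15,0)]⟩,⟨22,[(16,2),(0,2),(7,22),(1,4),(4,5),(0,2)]⟩),⟨0,[(0,0)]⟩,.k,.k,(.r
  (-1) ⟨6,[(1,1),(5,4),(3,6),(19,0),(4,4)]⟩ ⟨1,[(2,1),(5,3),(24,0),(3,1),(1,0)]⟩),.k,.k,.k,⟨true,0,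
  ⟨0,[(5,0)]⟩,⟨0,[(6,0),(1,0)]⟩⟩,⟨false,1,⟨2,[(1,1),(0,2),(2,0),(5,1),(26,0)]⟩,⟨0,[(13,0)]⟩⟩,⟨false,
  1,⟨1,[(2,0),(5,0),(4,0),(7,0),(15,0),(1,1)]⟩,⟨11,[(1,7),(2,1),(2,1),(4,1),(21,0),(4,0)]⟩⟩,⟨true,1,
  ⟨1,[(21,3),(12,0),(4,0)]⟩,⟨17,[(1,11),(2,11),(0,11),(2,25),(4,4),(0,0),(0,0),(11,1),(5,5)]⟩⟩,
  ⟨false,0,⟨0,[]⟩,⟨0,[]⟩⟩,⟨false,0,⟨0,[]⟩,⟨0,[]⟩⟩,[.a ⟨true,0,⟨0,[(6,0)]⟩,⟨0,[(5,0),(14,0)]⟩⟩ ⟨true,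
  0,⟨0,[]⟩,⟨4,[(2,0),(2,0),(6,0),(11,1)]⟩⟩ ⟨false,1,⟨0,[(2,0),(7,0),(0,0)]⟩,⟨0,[(5,0),(7,0)]⟩⟩,.o
  ⟨false,1,⟨1,[(6,1),(27,0),(4,0)]⟩,⟨4,[(1,0),(3,1),(2,2),(13,1),(14,3)]⟩⟩,.o ⟨false,0,⟨0,[(24,0)]⟩,
  ⟨11,[(1,3),(0,5),(2,1),(5,3),(22,2),(3,4)]⟩⟩,.o ⟨false,0,⟨4,[(2,0),(2,0),(6,0),(11,6)]⟩,⟨3,[(1,1),
  (0,1),(7,0),(0,2),(22,0),(2,3)]⟩⟩]⟩) (.I [0,0,0,0,0,-1,-1] (.I [0,0,0,0,1,0,0,0,-1] (.I [1,0,0,0,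
  0,3,0,0,1] (.I [0,1,0,-2,0,0,0,1] (.I [1,1,0,-2,0,1,1,1] (.I [5,0,0,0,-1,6] (.I [0,1,2,1,0,-2,1,
  1] (.C [(0,0),(0,0),(4,2),(0,1),(0,1),(0,0),(29,0),(6,0)]) (.C [(0,0),(6,0),(1,0),(5,0)])) (.C
  [(0,0),(37,1),(0,0)])) (.C [(0,0),(4,0),(2,0),(28,0)])) (.C [(0,0),(6,0),(4,0)])) (.C [(0,0),(19,
  0),(0,0),(13,0)])) (.C [(0,0),(17,0),(2,0)])) (.C [(0,0),(8,0),(6,0)]))))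

theorem ok55 : chk K t55 r27 = true := by decide +kernel

noncomputable def t60 : Tre :=
  (.R ⟨2,true,false,true,[0,1],[0,0,1],[1,1,1],(⟨0,[]⟩,⟨0,[]⟩),(⟨0,[(20,0)]⟩,⟨0,[(19,0)]⟩),⟨0,[]⟩,
  .k,.k,.k,.k,.k,.k,⟨false,0,⟨1,[(0,0),(0,0),(2,0),(12,0)]⟩,⟨3,[(5,1),(1,1),(7,3),(12,0),(2,1),(1,
  0)]⟩⟩,⟨true,0,⟨0,[(17,0)]⟩,⟨0,[(2,0)]⟩⟩,⟨true,0,⟨0,[(30,0)]⟩,⟨0,[(31,0)]⟩⟩,⟨false,1,⟨3,[(6,1),(3,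
  0),(0,0),(3,3),(12,0),(4,1)]⟩,⟨0,[(0,0)]⟩⟩,⟨false,0,⟨0,[]⟩,⟨1,[(10,0),(0,0),(21,0)]⟩⟩,⟨true,0,⟨0,
  [(15,0)]⟩,⟨3,[(0,1),(0,0),(1,0),(12,0),(1,0)]⟩⟩,[]⟩)

theorem ok60 : chk K t60 r11 = true := by decide +kernel

noncomputable def t66 : Tre :=
  (.Q [0,0,-2,0,1,0,0,0,0,-1] (.pp true [-1,1]) (.S ⟨1,0,[0,1,-1,-1],[1,-1],[0,0,-1,-1],(⟨0,[(19,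
  0)]⟩,⟨0,[(20,0)]⟩),⟨0,[(4,0),(0,0)]⟩,.k,(.r (-1) ⟨0,[(0,0),(1,0)]⟩ ⟨1,[(1,1),(4,0),(0,0),(19,1),
  (1,0)]⟩),⟨false,1,⟨1,[(6,0),(0,0),(21,0)]⟩,⟨0,[]⟩⟩,⟨true,0,⟨0,[(31,0)]⟩,⟨0,[]⟩⟩,⟨true,0,⟨0,[(27,
  0)]⟩,⟨0,[(26,0)]⟩⟩,⟨false,0,⟨0,[(27,0)]⟩,⟨3,[(2,1),(3,0),(0,0),(16,0),(4,1)]⟩⟩,[.o ⟨false,0,⟨0,
  [(26,0)]⟩,⟨1,[(24,0),(2,1),(1,0)]⟩⟩,.a ⟨true,0,⟨5,[(2,2),(3,0),(0,0),(9,0),(1,0),(3,0)]⟩,⟨0,[(27,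
  0)]⟩⟩ ⟨true,1,⟨1,[(0,0),(1,0),(26,0)]⟩,⟨0,[(1,0)]⟩⟩ ⟨false,1,⟨1,[(0,0),(1,0),(25,0)]⟩,⟨3,[(1,1),
  (4,0),(0,0),(19,1),(1,0)]⟩⟩,.o ⟨false,0,⟨1,[(13,0),(0,0)]⟩,⟨1,[(24,0),(3,0)]⟩⟩,.o ⟨false,0,⟨0,
  [(13,0),(0,0)]⟩,⟨0,[(0,0)]⟩⟩]⟩) (.Q [0,1,0,1,0,0,0,0,0,-1] (.pp true [-1,1]) (.I [0,-1,1,2] (.S
  ⟨1,0,[0,0,-1,-1],[1,-1],[1,1,-1,-2],(⟨0,[(21,0)]⟩,⟨0,[(22,0)]⟩),⟨0,[(6,0),(0,0)]⟩,.k,(.r (-1) ⟨0,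
  [(27,1),(3,0)]⟩ ⟨2,[(0,1),(2,1),(4,1),(0,1)]⟩),⟨true,0,⟨0,[(28,0)]⟩,⟨0,[(29,0)]⟩⟩,⟨false,1,⟨1,[(8,
  0),(0,0),(21,0)]⟩,⟨0,[]⟩⟩,⟨false,0,⟨0,[]⟩,⟨1,[(8,0),(0,0),(21,0)]⟩⟩,⟨true,0,⟨0,[(29,0)]⟩,⟨0,[(28,
  0)]⟩⟩,[.e ⟨false,1,⟨7,[(4,5),(18,1),(2,2),(0,3),(2,4)]⟩,⟨0,[(0,0)]⟩⟩ ⟨false,1,⟨1,[(27,1),(2,0),(0,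
  0)]⟩,⟨2,[(0,0),(2,0),(4,0),(0,0)]⟩⟩,.o ⟨false,1,⟨3,[(4,1),(3,0),(0,0),(16,0),(4,1)]⟩,⟨0,[(1,0)]⟩⟩,
  .o ⟨false,0,⟨1,[(15,0),(0,0)]⟩,⟨1,[(26,0),(3,0)]⟩⟩,.a ⟨true,(-1),⟨0,[(2,0)]⟩,⟨0,[(30,0)]⟩⟩ ⟨false,
  1,⟨0,[(27,1),(3,0)]⟩,⟨5,[(0,3),(2,3),(4,0),(0,0),(21,2)]⟩⟩ ⟨true,1,⟨1,[(27,1),(2,0),(0,0)]⟩,⟨0,
  [(3,0)]⟩⟩]⟩) (.Q [0,0,0,0,0,0,1,0,0,0,1] (.p true [0,0,1] [] (⟨0,[(18,0)]⟩,⟨0,[(17,0)]⟩) .k 0 (⟨0,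
  []⟩,⟨0,[]⟩) .k .k) (.I [1,-1,0,-1,0,0,0,-1] (.I [0,0,2,1,0,0,0,1] (.K ⟨0,[0,1,1],0,0,(⟨22,[(11,2),
  (0,2),(8,22),(0,4),(4,5),(0,2)]⟩,⟨0,[(9,0)]⟩),.k,.k,(.r 0 ⟨0,[(0,0),(31,0)]⟩ ⟨3,[(1,3),(5,1),(18,
  1),(2,0),(3,2)]⟩),.k,.k,[⟨1,[(18,0),(0,0)]⟩,⟨0,[(2,0)]⟩,⟨3,[(1,0),(1,0),(13,2),(1,0),(11,0)]⟩,⟨0,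
  [(16,0),(15,0)]⟩]⟩) (.Q [0,0,1,0,0,0,2,0,0,-1,2] (.p true [0,0,1] [1,0,-1] (⟨0,[(21,0)]⟩,⟨0,[(20,
  0)]⟩) .k 2 (⟨0,[(20,0)]⟩,⟨0,[(21,0)]⟩) .k (.r (-2) ⟨1,[(8,1),(2,0),(0,0),(3,3),(12,0),(4,1)]⟩ ⟨0,
  [(0,0),(0,0),(4,0),(25,0)]⟩)) (.K ⟨0,[1,1,-1],0,(-1),(⟨22,[(12,2),(0,2),(7,22),(1,4),(4,5),(0,
  2)]⟩,⟨0,[(11,0)]⟩),.k,.k,(.r 1 ⟨0,[(2,0),(4,0),(25,1)]⟩ ⟨3,[(4,1),(3,1),(0,1),(7,3),(12,1),(3,2),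
  (0,2)]⟩),(.r 1 ⟨13,[(0,1),(0,6),(0,16),(4,12),(10,3),(10,0),(3,24)]⟩ ⟨3,[(4,1),(4,3),(7,7),(12,1),
  (3,0),(0,4)]⟩),.k,[⟨0,[(0,0)]⟩,⟨5,[(9,2),(2,0),(0,0),(9,0),(1,0),(3,0)]⟩,⟨3,[(8,1),(3,0),(0,0),(3,
  3),(12,2)]⟩,⟨2,[(1,1),(5,1),(1,0),(8,0),(10,0),(3,2)]⟩]⟩) (.Q [0,-1,0,1,0,0,-1,-1,0,0,-1] (.p
  false [0,0,1] [] (⟨0,[(22,0)]⟩,⟨0,[(21,0)]⟩) .k 0 (⟨0,[]⟩,⟨0,[]⟩) .k .k) (.R ⟨1,false,false,false,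
  [1,-1],[1,-1,-1],[1,0,-1,-1,0,0,0,-1],(⟨0,[(26,0)]⟩,⟨0,[(27,0)]⟩),(⟨0,[(11,0)]⟩,⟨22,[(13,2),(0,2),
  (8,22),(0,4),(4,5),(0,2)]⟩),⟨0,[(11,0),(0,0)]⟩,.k,.k,(.r (-1) ⟨1,[(5,1),(29,0),(0,0)]⟩ ⟨1,[(8,1),
  (4,0),(0,0),(19,1),(1,0)]⟩),.k,.k,.k,⟨true,0,⟨0,[]⟩,⟨1,[(20,0),(0,0)]⟩⟩,⟨false,1,⟨3,[(10,1),(2,0),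
  (0,0),(16,0),(3,1)]⟩,⟨0,[(4,0)]⟩⟩,⟨false,0,⟨1,[(0,0),(2,0),(0,0)]⟩,⟨3,[(10,1),(2,0),(0,0),(3,3),
  (12,0),(4,1)]⟩⟩,⟨true,0,⟨12,[(0,2),(0,1),(1,3),(4,0),(10,5),(11,0)]⟩,⟨0,[(18,0)]⟩⟩,⟨false,0,⟨0,
  [(0,0),(3,0)]⟩,⟨1,[(9,0),(0,0),(7,1),(12,0),(4,0)]⟩⟩,⟨false,0,⟨0,[(0,0)]⟩,⟨3,[(9,1),(3,0),(0,0),
  (3,3),(12,0),(4,1)]⟩⟩,[.o ⟨false,0,⟨8,[(1,1),(1,5),(1,1),(2,0),(10,2),(1,1),(9,0)]⟩,⟨0,[(6,0),(11,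
  0),(17,0)]⟩⟩,.e ⟨false,1,⟨0,[(3,0),(31,0)]⟩,⟨1,[(6,0),(1,0),(1,0),(7,1),(17,0)]⟩⟩ ⟨false,1,⟨3,[(1,
  1),(1,3),(27,0),(3,2)]⟩,⟨3,[(8,1),(4,0),(0,0),(3,3),(15,1),(1,0)]⟩⟩,.o ⟨false,0,⟨1,[(20,0),(0,
  0)]⟩,⟨1,[(31,0),(3,0)]⟩⟩,.a ⟨true,(-1),⟨0,[(7,0)]⟩,⟨0,[(35,0)]⟩⟩ ⟨true,0,⟨0,[(2,0)]⟩,⟨3,[(6,0),(1,
  2),(1,0),(2,0),(0,0),(3,3),(2,1),(14,1)]⟩⟩ ⟨false,1,⟨3,[(1,1),(1,3),(27,0),(3,2)]⟩,⟨0,[(8,0),(9,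
  0),(17,0)]⟩⟩]⟩) (.Q [0,-1,0,2,0,0,-1,-1,0,0,-1] (.p false [0,0,1] [] (⟨0,[(23,0)]⟩,⟨0,[(22,0)]⟩)
  .k 0 (⟨0,[]⟩,⟨0,[]⟩) .k .k) (.R ⟨1,true,false,false,[0,0,1],[0,1],[1,0,0,-1,0,0,0,1],(⟨0,[(24,
  0)]⟩,⟨0,[(23,0)]⟩),(⟨0,[(28,0)]⟩,⟨0,[(27,0)]⟩),⟨0,[(13,0)]⟩,.k,.k,.k,.k,(.r (-2) ⟨1,[(1,1),(8,0),
  (0,0),(20,0),(3,1),(0,0)]⟩ ⟨2,[(0,1),(3,0),(0,1),(3,2)]⟩),.k,⟨true,1,⟨3,[(1,3),(0,1),(3,1),(25,0),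
  (4,2)]⟩,⟨2,[(0,1),(3,0),(0,1),(3,2)]⟩⟩,⟨false,1,⟨3,[(2,1),(29,0),(3,2)]⟩,⟨0,[(21,0)]⟩⟩,⟨false,1,
  ⟨3,[(10,1),(3,0),(0,0),(16,0),(4,1)]⟩,⟨0,[(35,0)]⟩⟩,⟨true,0,⟨1,[(0,0),(19,0)]⟩,⟨0,[(1,0)]⟩⟩,⟨true,
  0,⟨0,[]⟩,⟨0,[(39,0)]⟩⟩,⟨false,0,⟨0,[(0,0)]⟩,⟨3,[(1,3),(8,1),(3,0),(0,0),(16,0),(4,1)]⟩⟩,[]⟩) (.Q
  [0,0,0,0,0,2,0,0,0,0,-1] (.p false [0,0,1] [] (⟨0,[(24,0)]⟩,⟨0,[(23,0)]⟩) .k 0 (⟨0,[]⟩,⟨0,[]⟩) .k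
  .k) (.R ⟨0,false,false,false,[0,-1,1],[1,0,-1],[],(⟨0,[(14,0)]⟩,⟨4,[(0,1),(14,0),(0,0),(7,2),(1,
  0),(5,0)]⟩),(⟨0,[(24,0)]⟩,⟨0,[(25,0)]⟩),⟨0,[(0,0)]⟩,.k,.k,(.r (-2) ⟨3,[(1,3),(10,1),(2,0),(0,0),
  (16,0),(3,3),(0,1)]⟩ ⟨0,[(5,0),(4,0),(25,1)]⟩),(.r (-2) ⟨1,[(1,0),(10,1),(7,2),(12,0),(3,0),(0,
  1)]⟩ ⟨3,[(4,1),(0,4),(0,0),(3,3),(10,0),(14,6)]⟩),.k,.k,⟨false,1,⟨3,[(3,1),(16,3),(12,0),(3,0),(0,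
  1)]⟩,⟨1,[(5,0),(0,0),(14,0),(14,0)]⟩⟩,⟨true,0,⟨0,[(3,0)]⟩,⟨0,[(6,1),(2,0),(23,0)]⟩⟩,⟨false,0,⟨4,
  [(5,3),(4,1),(10,0),(0,0),(13,6),(1,1)]⟩,⟨3,[(1,1),(1,1),(16,1),(12,0),(3,0),(0,1)]⟩⟩,⟨true,(-1),
  ⟨13,[(3,11),(0,6),(0,16),(4,12),(10,3),(10,0),(3,24)]⟩,⟨1,[(1,0),(18,2),(12,0),(4,0)]⟩⟩,⟨false,0,
  ⟨0,[]⟩,⟨0,[]⟩⟩,⟨false,0,⟨0,[]⟩,⟨0,[]⟩⟩,[.o ⟨false,0,⟨6,[(3,1),(1,3),(2,1),(1,0),(10,2),(14,0),(1,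
  0)]⟩,⟨1,[(20,1),(12,0),(4,0)]⟩⟩,.a ⟨true,0,⟨27,[(3,7),(1,15),(3,1),(0,1),(10,11),(10,8),(3,13),(1,
  12)]⟩,⟨0,[(20,0)]⟩⟩ ⟨false,1,⟨1,[(37,0),(0,0)]⟩,⟨0,[(40,0)]⟩⟩ ⟨true,0,⟨0,[(3,0),(1,0),(30,0)]⟩,⟨1,
  [(1,0),(4,1),(3,1),(9,0),(12,0),(4,0)]⟩⟩,.e ⟨false,1,⟨1,[(15,0),(0,0),(21,0)]⟩,⟨0,[]⟩⟩ ⟨false,0,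
  ⟨0,[(3,0),(1,0),(30,0)]⟩,⟨1,[(20,1),(1,1),(10,0),(4,0)]⟩⟩,.o ⟨false,0,⟨0,[(6,0),(2,0),(23,0)]⟩,⟨3,
  [(3,1),(29,0),(3,2)]⟩⟩]⟩) (.K ⟨0,[0,1,1],0,0,(⟨22,[(15,2),(0,2),(8,22),(0,4),(4,5),(0,2)]⟩,⟨0,
  [(13,0)]⟩),.k,.k,(.x (-2) ⟨2,[(0,0),(5,0),(6,3),(8,1),(10,1),(3,3)]⟩ ⟨13,[(0,13),(0,1),(1,7),(0,
  1),(4,19),(16,1),(4,17),(1,4),(2,5),(1,0)]⟩),.k,.k,[⟨1,[(22,0),(0,0)]⟩,⟨0,[(6,0)]⟩,⟨3,[(5,0),(1,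
  0),(13,2),(1,0),(11,0)]⟩,⟨0,[(20,0),(15,0)]⟩]⟩)))))) (.I [1,-1,1,0,0,0,0,1] (.I [1,0,-1,-1,0,0,0,
  1] (.Q [0,-1,0,1,0,0,1,1,0,0,1] (.p true [0,0,1] [] (⟨0,[(22,0)]⟩,⟨0,[(21,0)]⟩) .k 0 (⟨0,[]⟩,⟨0,
  []⟩) .k .k) (.R ⟨2,true,false,false,[0,1],[0,1,1],[1,0,1],(⟨0,[]⟩,⟨0,[]⟩),(⟨22,[(13,2),(0,2),(8,
  22),(0,4),(4,5),(0,2)]⟩,⟨0,[(11,0)]⟩),⟨0,[]⟩,.k,.k,.k,.k,.k,.k,⟨false,1,⟨3,[(4,3),(0,1),(13,3),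
  (15,0),(0,2)]⟩,⟨11,[(0,5),(0,0),(0,0),(0,3),(2,2),(3,2)]⟩⟩,⟨true,0,⟨0,[(4,0)]⟩,⟨0,[(21,0)]⟩⟩,
  ⟨false,1,⟨3,[(9,1),(3,0),(0,0),(16,0),(4,1)]⟩,⟨0,[(34,0)]⟩⟩,⟨true,0,⟨2,[(0,0),(0,0),(16,0),(1,
  0)]⟩,⟨0,[(19,0)]⟩⟩,⟨true,0,⟨0,[]⟩,⟨0,[(38,0)]⟩⟩,⟨false,0,⟨0,[(0,0)]⟩,⟨3,[(9,1),(3,0),(0,0),(4,3),
  (11,0),(4,1)]⟩⟩,[]⟩) (.I [0,0,-2,-2,1,0,0,-1] (.K ⟨0,[0,1,1],0,0,(⟨22,[(14,2),(0,2),(8,22),(0,4),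
  (4,5),(0,2)]⟩,⟨0,[(12,0)]⟩),.k,.k,(.r 0 ⟨0,[(4,0),(4,0),(27,0)]⟩ ⟨0,[(0,0)]⟩),.k,.k,[⟨1,[(21,0),
  (0,0)]⟩,⟨0,[(5,0)]⟩,⟨0,[(1,0)]⟩,⟨0,[(19,0),(15,0)]⟩]⟩) (.I [0,0,2,0,-1,2,-1] (.K ⟨0,[0,1,1],0,0,
  (⟨22,[(15,2),(0,2),(8,22),(0,4),(4,5),(0,2)]⟩,⟨0,[(13,0)]⟩),.k,.k,(.x (-2) ⟨0,[(6,0),(6,0),(14,0),
  (4,0),(3,0)]⟩ ⟨0,[(0,0)]⟩),.k,.k,[⟨1,[(22,0),(0,0)]⟩,⟨0,[(6,0)]⟩,⟨0,[(2,0)]⟩,⟨0,[(20,0),(15,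
  0)]⟩]⟩) (.Q [0,0,-1,0,0,0,-2,0,0,1,-2] (.p false [0,0,1] [1,0,-1] (⟨0,[(25,0)]⟩,⟨0,[(24,0)]⟩) .k
  2 (⟨0,[(24,0)]⟩,⟨0,[(25,0)]⟩) .k (.r 0 ⟨2,[(3,1),(0,1),(0,1)]⟩ ⟨0,[(6,1),(14,1),(16,0)]⟩)) (.R ⟨0,
  false,false,true,[0,-1,1],[1,-1,-1],[],(⟨0,[(15,0)]⟩,⟨22,[(16,2),(0,2),(7,22),(1,4),(4,5),(0,
  2)]⟩),(⟨0,[(14,0)]⟩,⟨22,[(16,2),(0,2),(8,22),(0,4),(4,5),(0,2)]⟩),⟨14,[(0,3),(0,13),(0,3),(0,5),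
  (0,1),(5,12),(3,0),(12,4),(4,17),(6,2)]⟩,.k,.k,(.r (-1) ⟨11,[(4,9),(1,1),(5,7),(21,3),(3,6),(0,
  0)]⟩ ⟨0,[(7,0),(3,0),(10,0),(14,0),(1,0)]⟩),.k,.k,.k,⟨true,0,⟨5,[(2,2),(1,0),(0,0),(0,0),(32,2)]⟩,
  ⟨0,[(3,0),(3,0)]⟩⟩,⟨false,0,⟨0,[(0,0)]⟩,⟨1,[(7,1),(15,1),(10,0),(3,0)]⟩⟩,⟨false,1,⟨0,[(22,0),(0,
  0),(13,0),(1,0)]⟩,⟨0,[(4,0)]⟩⟩,⟨true,0,⟨1,[(3,1),(18,1),(10,0),(3,1),(1,0)]⟩,⟨9,[(2,5),(1,11),(2,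
  17),(13,1),(12,4),(4,0)]⟩⟩,⟨false,0,⟨0,[]⟩,⟨0,[]⟩⟩,⟨false,0,⟨0,[]⟩,⟨0,[]⟩⟩,[.o ⟨false,0,⟨0,[(3,
  0)]⟩,⟨29,[(1,14),(0,15),(1,1),(2,2),(13,11),(4,14),(5,9),(1,9),(4,20)]⟩⟩,.e ⟨false,1,⟨1,[(38,0),
  (0,0)]⟩,⟨0,[(41,0)]⟩⟩ ⟨false,1,⟨1,[(3,1),(16,1),(17,0),(0,0)]⟩,⟨9,[(2,5),(1,1),(2,17),(13,1),(12,
  4),(4,0)]⟩⟩,.a ⟨true,0,⟨0,[(23,0)]⟩,⟨0,[(20,0)]⟩⟩ ⟨false,1,⟨1,[(16,0),(0,0),(21,0)]⟩,⟨0,[]⟩⟩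
  ⟨true,0,⟨0,[(3,0),(16,0)]⟩,⟨9,[(2,5),(1,1),(2,17),(13,1),(12,4),(4,0)]⟩⟩,.o ⟨false,0,⟨0,[(7,0),(2,
  0),(23,0)]⟩,⟨3,[(0,1),(33,0),(3,2)]⟩⟩]⟩) (.K ⟨0,[1,1,-1],0,0,(⟨22,[(16,2),(0,2),(7,22),(1,4),(4,
  5),(0,2)]⟩,⟨0,[(15,0)]⟩),.k,.k,(.r 0 ⟨5,[(0,1),(10,3),(10,5),(0,1),(9,0),(3,7),(1,4)]⟩ ⟨11,[(4,9),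
  (1,1),(5,7),(21,3),(3,6),(0,0)]⟩),(.r (-1) ⟨0,[(7,0),(14,1),(0,0),(13,0),(1,0)]⟩ ⟨2,[(4,3),(0,0),
  (0,0)]⟩),.k,[⟨0,[(0,0)]⟩,⟨5,[(13,2),(2,0),(0,0),(9,0),(1,0),(3,0)]⟩,⟨2,[(0,0),(3,1),(3,0),(2,0),
  (9,0),(12,0)]⟩,⟨8,[(16,3),(0,3),(4,8),(4,0),(1,0),(3,3),(3,8)]⟩]⟩))))) (.S ⟨1,0,[0,0,1,1,0,0,0,
  -1],[1,1,-1],[0,1,1,1,0,0,0,-1],(⟨22,[(12,2),(0,2),(7,22),(1,4),(4,5),(0,2)]⟩,⟨0,[(11,0)]⟩),⟨0,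
  [(21,0)]⟩,.k,.k,⟨true,0,⟨0,[(37,0)]⟩,⟨0,[]⟩⟩,⟨false,1,⟨1,[(12,0),(0,0),(21,0)]⟩,⟨0,[]⟩⟩,⟨false,0,
  ⟨0,[(33,0)]⟩,⟨3,[(8,1),(3,0),(0,0),(16,0),(4,1)]⟩⟩,⟨true,0,⟨0,[(33,0)]⟩,⟨0,[(32,0)]⟩⟩,[.a ⟨true,0,
  ⟨0,[(0,0),(15,0)]⟩,⟨0,[(1,0),(1,0),(27,0)]⟩⟩ ⟨false,0,⟨3,[(0,1),(2,1),(1,1),(12,1),(10,0),(4,0)]⟩,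
  ⟨3,[(1,3),(2,1),(29,2),(0,0)]⟩⟩ ⟨true,0,⟨0,[(0,0)]⟩,⟨0,[(1,0),(29,0)]⟩⟩,.o ⟨false,1,⟨1,[(0,0),(4,
  0),(10,0),(1,0),(16,1)]⟩,⟨0,[(1,0),(1,0),(0,0),(0,0)]⟩⟩,.a ⟨true,0,⟨0,[(16,0)]⟩,⟨0,[(19,0)]⟩⟩
  ⟨false,0,⟨0,[(0,0)]⟩,⟨3,[(1,3),(2,1),(29,2),(0,0)]⟩⟩ ⟨true,0,⟨0,[(0,0)]⟩,⟨3,[(1,3),(3,1),(23,0),
  (1,5),(2,0)]⟩⟩,.a ⟨true,0,⟨5,[(9,2),(2,0),(0,0),(9,0),(1,0),(3,0)]⟩,⟨0,[(3,0)]⟩⟩ ⟨true,0,⟨3,[(0,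
  1),(2,1),(1,1),(12,1),(10,0),(4,0)]⟩,⟨0,[(1,0),(29,0)]⟩⟩ ⟨false,1,⟨1,[(0,1),(33,0),(0,0)]⟩,⟨0,[(1,
  0),(29,0)]⟩⟩]⟩)) (.Q [0,1,0,-1,0,0,-1,-1,0,0,-1] (.p false [0,0,1] [] (⟨0,[(21,0)]⟩,⟨0,[(20,0)]⟩)
  .k 0 (⟨0,[]⟩,⟨0,[]⟩) .k .k) (.K ⟨0,[0,1,1],0,0,(⟨22,[(12,2),(0,2),(8,22),(0,4),(4,5),(0,2)]⟩,⟨0,
  [(10,0)]⟩),.k,.k,(.r 0 ⟨0,[(2,0),(4,0),(27,0)]⟩ ⟨0,[(1,0),(2,0),(30,0)]⟩),.k,.k,[⟨1,[(19,0),(0,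
  0)]⟩,⟨0,[(3,0)]⟩,⟨0,[(0,0)]⟩,⟨0,[(17,0),(15,0)]⟩]⟩) (.R ⟨2,true,false,false,[0,1],[0,1,1],[0,0,1,
  1],(⟨0,[]⟩,⟨0,[]⟩),(⟨22,[(12,2),(0,2),(8,22),(0,4),(4,5),(0,2)]⟩,⟨0,[(10,0)]⟩),⟨0,[]⟩,.k,.k,.k,.k,
  .k,.k,⟨false,1,⟨1,[(1,1),(10,0),(0,0),(21,0)]⟩,⟨6,[(0,5),(1,0),(1,3),(0,0),(3,0),(10,3)]⟩⟩,⟨true,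
  0,⟨0,[(3,0)]⟩,⟨0,[(20,0)]⟩⟩,⟨false,1,⟨1,[(12,0),(0,0),(21,0)]⟩,⟨0,[]⟩⟩,⟨true,0,⟨9,[(0,5),(3,1),(1,
  0),(1,0),(8,3),(12,0)]⟩,⟨0,[(18,0)]⟩⟩,⟨true,0,⟨0,[(33,0)]⟩,⟨0,[(32,0)]⟩⟩,⟨false,0,⟨0,[(0,0)]⟩,⟨3,
  [(8,1),(3,0),(0,0),(4,3),(11,0),(4,1)]⟩⟩,[]⟩)))) (.Q [0,0,1,0,-1,0,0,0,1,0,0,1] (.p true [0,0,0,0,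
  1] [] (⟨0,[(12,0)]⟩,⟨0,[(11,0)]⟩) .k 0 (⟨0,[]⟩,⟨0,[]⟩) .k .k) (.Q [0,0,0,0,0,-1,0,0,0,0,0,1] (.ed
  false [1,-1,0,0,1] .k) (.S ⟨1,0,[0,1],[0,0,0,0,1],[0,2],(⟨0,[(14,0)]⟩,⟨0,[(13,0)]⟩),⟨0,[(0,0)]⟩,
  .k,(.r 0 ⟨0,[(30,0)]⟩ ⟨3,[(6,1),(4,2),(0,2),(19,1),(1,2)]⟩),⟨true,0,⟨0,[(36,0)]⟩,⟨0,[]⟩⟩,⟨false,1,
  ⟨1,[(11,0),(0,0),(21,0)]⟩,⟨0,[]⟩⟩,⟨false,0,⟨0,[(32,0)]⟩,⟨3,[(7,1),(3,0),(0,0),(16,0),(4,1)]⟩⟩,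
  ⟨true,0,⟨0,[(32,0)]⟩,⟨0,[(31,0)]⟩⟩,[.e ⟨false,0,⟨0,[(26,0)]⟩,⟨0,[(34,0)]⟩⟩ ⟨false,0,⟨3,[(4,1),(23,
  0),(1,1),(2,0)]⟩,⟨1,[(11,0),(0,0),(21,0)]⟩⟩,.o ⟨false,0,⟨1,[(1,1),(27,0),(3,0)]⟩,⟨0,[(11,0)]⟩⟩,.o
  ⟨false,0,⟨1,[(1,1),(27,0),(3,0)]⟩,⟨0,[(11,0)]⟩⟩,.a ⟨true,(-1),⟨0,[(1,0)]⟩,⟨3,[(11,3),(16,1),(1,1),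
  (1,1),(0,0),(0,0)]⟩⟩ ⟨false,0,⟨3,[(4,1),(23,0),(1,1),(2,0)]⟩,⟨1,[(18,0),(0,0),(14,1)]⟩⟩ ⟨true,0,
  ⟨3,[(4,1),(23,0),(1,1),(2,0)]⟩,⟨1,[(18,0),(0,0)]⟩⟩]⟩) (.R ⟨0,false,false,false,[0,0,0,0,1],[1,-1,
  0,0,1],[1,0,1],(⟨0,[(14,0)]⟩,⟨0,[(13,0)]⟩),(⟨0,[(14,0),(9,0)]⟩,⟨0,[(0,0)]⟩),⟨0,[(0,0)]⟩,.k,(.r 0
  ⟨0,[(30,0)]⟩ ⟨3,[(6,1),(4,2),(0,2),(19,1),(1,2)]⟩),(.r 0 ⟨0,[(30,0)]⟩ ⟨3,[(6,1),(4,2),(0,2),(19,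
  1),(1,2)]⟩),.k,.k,.k,⟨true,0,⟨0,[(6,0),(27,0)]⟩,⟨0,[(30,0)]⟩⟩,⟨false,0,⟨2,[(11,0),(0,0),(9,0),(1,
  0),(3,0)]⟩,⟨1,[(29,0),(3,0)]⟩⟩,⟨false,1,⟨1,[(18,0),(0,0),(14,1)]⟩,⟨3,[(4,1),(23,0),(1,1),(2,0)]⟩⟩,
  ⟨true,0,⟨5,[(7,2),(3,0),(0,0),(9,0),(1,0),(3,0)]⟩,⟨0,[(4,0)]⟩⟩,⟨false,0,⟨0,[]⟩,⟨0,[]⟩⟩,⟨false,0,
  ⟨0,[]⟩,⟨0,[]⟩⟩,[.o ⟨false,(-1),⟨0,[(1,0),(28,0)]⟩,⟨0,[(4,0),(6,0),(22,0)]⟩⟩,.e ⟨false,1,⟨1,[(11,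
  0),(0,0),(21,0)]⟩,⟨3,[(4,1),(23,0),(1,1),(2,0)]⟩⟩ ⟨false,0,⟨1,[(28,0),(1,1),(3,0)]⟩,⟨1,[(4,1),(6,
  0),(0,0),(21,0)]⟩⟩,.o ⟨false,0,⟨1,[(1,1),(27,0),(3,0)]⟩,⟨0,[(11,0)]⟩⟩,.a ⟨true,(-1),⟨0,[(1,0)]⟩,
  ⟨3,[(11,3),(16,1),(1,1),(1,1),(0,0),(0,0)]⟩⟩ ⟨true,0,⟨0,[]⟩,⟨0,[(36,0)]⟩⟩ ⟨false,0,⟨1,[(28,0),(1,
  1),(3,0)]⟩,⟨3,[(4,1),(1,1),(4,0),(0,0),(16,0),(4,3)]⟩⟩]⟩)) (.Q [0,-1,0,1,0,0,-1,-1,0,0,-1] (.p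
  false [0,0,1] [] (⟨0,[(20,0)]⟩,⟨0,[(19,0)]⟩) .k 0 (⟨0,[]⟩,⟨0,[]⟩) .k .k) (.R ⟨2,true,false,true,
  [0,1],[0,0,1],[1,1,1],(⟨0,[]⟩,⟨0,[]⟩),(⟨0,[(21,0)]⟩,⟨0,[(20,0)]⟩),⟨0,[]⟩,.k,.k,.k,.k,.k,.k,⟨false,
  0,⟨0,[(0,0),(17,0),(11,0)]⟩,⟨1,[(15,1),(0,1),(12,0),(4,0)]⟩⟩,⟨true,0,⟨0,[(18,0)]⟩,⟨0,[(2,0)]⟩⟩,
  ⟨true,0,⟨0,[(31,0)]⟩,⟨0,[(32,0)]⟩⟩,⟨false,1,⟨3,[(7,1),(3,0),(0,0),(3,3),(12,0),(4,1)]⟩,⟨0,[(0,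
  0)]⟩⟩,⟨false,0,⟨0,[]⟩,⟨1,[(11,0),(0,0),(21,0)]⟩⟩,⟨true,0,⟨0,[(16,0)]⟩,⟨9,[(0,5),(2,1),(1,0),(1,0),
  (9,3),(11,0)]⟩⟩,[]⟩) (.Q [0,0,0,0,0,1,0,0,0,-1,0,1] (.ed false [0,1,0,0,1] .k) (.Q [0,0,1,0,0,0,0,
  0,-1,0,0,-1] (.p false [0,0,0,0,1] [] (⟨0,[(15,0)]⟩,⟨0,[(14,0)]⟩) .k 0 (⟨0,[]⟩,⟨0,[]⟩) .k .k) (.R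
  ⟨0,false,false,true,[1,0,0,0,-1],[2,-1,0,0,-1],[1,1,1],(⟨0,[(15,0)]⟩,⟨0,[(16,0)]⟩),(⟨0,[(15,0),
  (10,0)]⟩,⟨0,[(1,0)]⟩),⟨0,[(1,0)]⟩,.k,(.r (-1) ⟨3,[(5,1),(29,0),(0,2)]⟩ ⟨4,[(8,2),(4,2),(0,2),(13,
  0),(5,1)]⟩),(.r (-1) ⟨3,[(5,1),(29,0),(0,2)]⟩ ⟨4,[(8,2),(4,2),(0,2),(13,0),(5,1)]⟩),.k,.k,.k,
  ⟨true,(-1),⟨0,[(8,0)]⟩,⟨3,[(5,1),(29,0),(0,2)]⟩⟩,⟨false,0,⟨2,[(13,0),(0,0),(9,0),(1,0),(3,0)]⟩,⟨1,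
  [(31,0),(3,0)]⟩⟩,⟨true,(-1),⟨6,[(5,3),(0,1),(1,5),(19,0),(1,0)]⟩,⟨1,[(35,0),(0,0)]⟩⟩,⟨false,0,⟨5,
  [(9,2),(3,0),(0,0),(9,0),(1,0),(3,0)]⟩,⟨0,[(6,0),(29,0)]⟩⟩,⟨false,0,⟨0,[]⟩,⟨0,[]⟩⟩,⟨false,0,⟨0,
  []⟩,⟨0,[]⟩⟩,[.o ⟨false,0,⟨1,[(0,1),(29,0),(1,1),(3,0)]⟩,⟨1,[(6,1),(7,1),(16,0),(4,0)]⟩⟩,.e ⟨false,
  0,⟨0,[]⟩,⟨1,[(13,0),(0,0),(20,0)]⟩⟩ ⟨false,1,⟨3,[(9,1),(3,0),(0,0),(15,0),(4,1),(0,1)]⟩,⟨0,[(6,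
  0)]⟩⟩,.a ⟨true,0,⟨9,[(0,7),(2,1),(26,4),(1,5),(1,5),(1,2)]⟩,⟨0,[(14,0)]⟩⟩ ⟨false,0,⟨1,[(20,0),(0,
  0)]⟩,⟨1,[(35,0),(0,0)]⟩⟩ ⟨true,0,⟨5,[(9,2),(3,0),(0,0),(9,0),(1,0),(3,0)]⟩,⟨0,[(6,0)]⟩⟩,.o ⟨false,
  0,⟨0,[(0,0)]⟩,⟨1,[(14,1),(16,0),(3,0)]⟩⟩]⟩) (.Q [0,0,0,0,0,0,0,0,-1,1,0,-1] (.p false [0,0,0,0,1]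
  [1] (⟨0,[(16,0)]⟩,⟨0,[(15,0)]⟩) .k 1 (⟨0,[]⟩,⟨0,[]⟩) .k .k) (.S ⟨1,0,[0,2],[0,0,0,0,1],[1,1,0,-1],
  (⟨0,[(17,0)]⟩,⟨0,[(16,0)]⟩),⟨0,[(2,0),(9,0),(0,0)]⟩,.k,(.r 0 ⟨0,[(33,0)]⟩ ⟨3,[(9,1),(4,2),(0,2),
  (19,1),(1,2)]⟩),⟨false,1,⟨3,[(10,1),(3,0),(0,0),(16,0),(4,1)]⟩,⟨0,[(35,0)]⟩⟩,⟨true,0,⟨0,[(39,0)]⟩,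
  ⟨0,[]⟩⟩,⟨true,0,⟨0,[]⟩,⟨0,[(39,0)]⟩⟩,⟨false,0,⟨0,[(35,0)]⟩,⟨3,[(10,1),(3,0),(0,0),(16,0),(4,1)]⟩⟩,
  [.e ⟨false,0,⟨0,[(33,0)]⟩,⟨1,[(14,0),(0,0),(19,1),(1,0)]⟩⟩ ⟨false,0,⟨0,[(29,0)]⟩,⟨0,[(37,0)]⟩⟩,.o
  ⟨false,0,⟨2,[(1,0),(4,0),(0,0),(1,0),(5,1),(16,0)]⟩,⟨1,[(0,1),(31,0),(4,0)]⟩⟩,.a ⟨true,0,⟨0,[(15,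
  0)]⟩,⟨0,[(0,0)]⟩⟩ ⟨true,0,⟨0,[(34,0)]⟩,⟨0,[(35,0)]⟩⟩ ⟨false,0,⟨0,[(39,0)]⟩,⟨0,[(37,0)]⟩⟩,.o
  ⟨false,0,⟨0,[(1,0),(6,0),(23,0)]⟩,⟨0,[(4,0)]⟩⟩]⟩) (.R ⟨0,false,false,false,[1,0,0,0,-1],[2,-1,0,0,
  -1],[1,0,1],(⟨0,[(16,0)]⟩,⟨0,[(17,0)]⟩),(⟨0,[(16,0),(10,0)]⟩,⟨0,[(2,0)]⟩),⟨0,[(2,0)]⟩,.k,(.r (-1)
  ⟨3,[(6,1),(29,0),(0,2)]⟩ ⟨4,[(9,2),(4,2),(0,2),(13,0),(5,1)]⟩),(.r (-1) ⟨3,[(6,1),(29,0),(0,2)]⟩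
  ⟨4,[(9,2),(4,2),(0,2),(13,0),(5,1)]⟩),.k,.k,.k,⟨true,(-1),⟨0,[(9,0)]⟩,⟨3,[(6,1),(29,0),(0,2)]⟩⟩,
  ⟨false,0,⟨2,[(14,0),(0,0),(9,0),(1,0),(3,0)]⟩,⟨1,[(32,0),(3,0)]⟩⟩,⟨false,0,⟨1,[(21,0),(0,0)]⟩,⟨1,
  [(36,0),(0,0)]⟩⟩,⟨true,0,⟨5,[(10,2),(3,0),(0,0),(9,0),(1,0),(3,0)]⟩,⟨0,[(7,0)]⟩⟩,⟨false,0,⟨0,[]⟩,
  ⟨0,[]⟩⟩,⟨false,0,⟨0,[]⟩,⟨0,[]⟩⟩,[.o ⟨false,1,⟨1,[(4,1),(3,0),(1,0),(26,0)]⟩,⟨0,[(0,0),(6,0)]⟩⟩,.e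
  ⟨false,1,⟨1,[(14,0),(0,0),(21,0)]⟩,⟨3,[(7,1),(23,0),(1,1),(2,0)]⟩⟩ ⟨false,1,⟨3,[(6,1),(24,1),(4,
  0),(0,4)]⟩,⟨7,[(7,5),(1,1),(4,0),(0,0),(13,3),(2,0)]⟩⟩,.o ⟨false,1,⟨0,[(14,0)]⟩,⟨0,[(0,0)]⟩⟩,.a
  ⟨true,0,⟨0,[(4,0),(3,0)]⟩,⟨0,[(1,0)]⟩⟩ ⟨true,0,⟨0,[]⟩,⟨0,[(39,0)]⟩⟩ ⟨false,1,⟨3,[(6,1),(24,1),(4,
  0),(0,4)]⟩,⟨3,[(7,1),(1,1),(4,0),(0,0),(16,0)]⟩⟩]⟩))) (.Q [0,0,0,-1,0,0,0,0,1,0,0,1] (.p true [0,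
  0,0,0,1] [] (⟨0,[(15,0)]⟩,⟨0,[(14,0)]⟩) .k 0 (⟨0,[]⟩,⟨0,[]⟩) .k .k) (.Q [0,0,1,0,0,0,0,0,-1,0,0,
  -1] (.p false [0,0,0,0,1] [] (⟨0,[(16,0)]⟩,⟨0,[(15,0)]⟩) .k 0 (⟨0,[]⟩,⟨0,[]⟩) .k .k) (.Q [0,2,0,0,
  -1,0,0,0,1,0,0,1] (.p true [0,0,0,0,1] [] (⟨0,[(17,0)]⟩,⟨0,[(16,0)]⟩) .k 0 (⟨0,[]⟩,⟨0,[]⟩) .k .k)
  (.S ⟨1,0,[0,-1],[1,0,0,0,-1],[],(⟨0,[(17,0)]⟩,⟨0,[(18,0)]⟩),⟨0,[(3,0)]⟩,.k,(.r (-1) ⟨3,[(7,1),(29,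
  0),(0,2)]⟩ ⟨4,[(10,2),(4,2),(0,2),(13,0),(5,1)]⟩),⟨true,0,⟨1,[(0,0),(14,0)]⟩,⟨0,[]⟩⟩,⟨false,1,⟨1,
  [(15,0),(0,0),(21,0)]⟩,⟨0,[]⟩⟩,⟨false,0,⟨0,[(36,0)]⟩,⟨5,[(2,1),(8,1),(3,1),(17,0),(4,2)]⟩⟩,⟨true,
  0,⟨0,[(36,0)]⟩,⟨0,[(35,0)]⟩⟩,[.o ⟨false,1,⟨1,[(1,0),(3,0),(32,0)]⟩,⟨1,[(0,0),(15,0),(16,0)]⟩⟩,.a
  ⟨true,1,⟨9,[(1,5),(3,3),(26,4),(1,1),(1,1),(1,10)]⟩,⟨0,[(0,0)]⟩⟩ ⟨false,1,⟨1,[(37,0),(0,0)]⟩,⟨1,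
  [(0,0),(14,0)]⟩⟩ ⟨true,1,⟨0,[(38,0)]⟩,⟨0,[(0,0),(0,0)]⟩⟩,.e ⟨false,1,⟨1,[(15,0),(0,0),(21,0)]⟩,⟨0,
  []⟩⟩ ⟨false,1,⟨0,[(38,0)]⟩,⟨1,[(0,0),(14,0)]⟩⟩,.o ⟨false,0,⟨0,[(1,0)]⟩,⟨1,[(16,1),(16,0),(3,
  0)]⟩⟩]⟩) (.R ⟨1,false,false,false,[1,-1],[1,0,0,0,-1],[0,0,-1,-1],(⟨0,[(28,0)]⟩,⟨0,[(29,0)]⟩),(⟨0,
  [(17,0)]⟩,⟨0,[(18,0)]⟩),⟨0,[(13,0),(0,0)]⟩,.k,.k,(.r (-1) ⟨1,[(7,1),(29,0),(0,0)]⟩ ⟨1,[(10,1),(4,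
  0),(0,0),(19,1),(1,0)]⟩),(.r 0 ⟨0,[(34,0)]⟩ ⟨3,[(10,1),(4,2),(0,2),(19,1),(1,2)]⟩),(.r (-1) ⟨2,
  [(7,0),(3,1),(18,0),(2,0),(3,1)]⟩ ⟨0,[(10,0),(25,0),(1,0)]⟩),.k,⟨true,0,⟨0,[(34,0)]⟩,⟨0,[(10,0),
  (27,0)]⟩⟩,⟨false,1,⟨1,[(0,1),(7,1),(23,0),(1,1),(2,0)]⟩,⟨1,[(16,1),(5,0),(0,0)]⟩⟩,⟨false,1,⟨1,
  [(15,0),(0,0),(21,0)]⟩,⟨0,[]⟩⟩,⟨false,1,⟨0,[(0,0),(35,0)]⟩,⟨0,[(16,0),(18,0)]⟩⟩,⟨true,0,⟨0,[(36,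
  0)]⟩,⟨0,[(35,0)]⟩⟩,⟨false,1,⟨0,[(0,0),(35,1)]⟩,⟨0,[(2,0),(32,0)]⟩⟩,[.o ⟨false,1,⟨1,[(0,0),(14,
  0)]⟩,⟨0,[(2,0),(5,0)]⟩⟩,.o ⟨false,1,⟨0,[(0,0)]⟩,⟨2,[(2,1),(5,0),(1,0),(5,0),(13,1),(2,0)]⟩⟩,.o
  ⟨false,0,⟨1,[(22,0),(0,0)]⟩,⟨1,[(33,0),(3,0)]⟩⟩,.a ⟨true,(-1),⟨0,[(9,0)]⟩,⟨0,[(37,0)]⟩⟩ ⟨true,1,
  ⟨3,[(7,1),(29,2),(0,0)]⟩,⟨0,[(10,0)]⟩⟩ ⟨false,2,⟨0,[(0,0),(36,0)]⟩,⟨0,[(2,0),(7,0)]⟩⟩]⟩)) (.Q [0,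
  -1,0,0,1,0,0,0,-1,0,0,-1] (.p false [0,0,0,0,1] [] (⟨0,[(17,0)]⟩,⟨0,[(16,0)]⟩) .k 0 (⟨0,[]⟩,⟨0,
  []⟩) .k .k) (.S ⟨1,0,[],[1,0,0,0,-1],[0,-1],(⟨0,[(17,0)]⟩,⟨0,[(18,0)]⟩),⟨0,[(3,0)]⟩,.k,(.r (-1)
  ⟨3,[(7,1),(29,0),(0,2)]⟩ ⟨4,[(10,2),(4,2),(0,2),(13,0),(5,1)]⟩),⟨false,1,⟨1,[(15,0),(0,0),(21,
  0)]⟩,⟨0,[]⟩⟩,⟨true,0,⟨0,[(40,0)]⟩,⟨0,[]⟩⟩,⟨true,0,⟨0,[(36,0)]⟩,⟨0,[(35,0)]⟩⟩,⟨false,0,⟨0,[(36,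
  0)]⟩,⟨5,[(2,1),(8,1),(3,1),(17,0),(4,2)]⟩⟩,[.e ⟨false,1,⟨1,[(37,0),(0,0)]⟩,⟨0,[(40,0)]⟩⟩ ⟨false,1,
  ⟨1,[(15,0),(0,0),(20,0)]⟩,⟨0,[]⟩⟩,.o ⟨false,1,⟨0,[(0,0)]⟩,⟨0,[(2,0),(5,0)]⟩⟩,.e ⟨false,1,⟨0,[(38,
  0)]⟩,⟨0,[(40,0)]⟩⟩ ⟨false,1,⟨1,[(15,0),(0,0),(21,0)]⟩,⟨0,[]⟩⟩,.a ⟨true,0,⟨0,[(5,0),(3,0)]⟩,⟨0,[(1,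
  0)]⟩⟩ ⟨true,1,⟨1,[(37,0),(0,0)]⟩,⟨6,[(7,3),(0,1),(1,5),(19,0),(1,0)]⟩⟩ ⟨false,1,⟨1,[(37,0),(0,
  0)]⟩,⟨1,[(22,0),(0,0)]⟩⟩]⟩) (.S ⟨1,0,[0,2,1,1],[0,1,0,0,1],[1,1,1],(⟨22,[(15,2),(0,2),(1,22),(7,
  4),(4,5),(0,2)]⟩,⟨0,[(3,0)]⟩),⟨0,[(18,0)]⟩,(.r 0 ⟨4,[(10,2),(4,2),(0,2),(13,0),(5,1)]⟩ ⟨3,[(7,1),
  (29,0),(0,2)]⟩),.k,⟨false,1,⟨5,[(2,1),(8,1),(3,1),(17,0),(4,2)]⟩,⟨0,[(36,0)]⟩⟩,⟨true,0,⟨0,[(40,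
  0)]⟩,⟨0,[]⟩⟩,⟨true,0,⟨0,[]⟩,⟨0,[(40,0)]⟩⟩,⟨false,0,⟨0,[(36,0)]⟩,⟨5,[(2,1),(8,1),(3,1),(17,0),(4,
  2)]⟩⟩,[.o ⟨false,(-1),⟨0,[(0,0),(7,0)]⟩,⟨1,[(5,1),(3,0),(1,0),(21,0),(4,1)]⟩⟩,.e ⟨false,0,⟨0,[]⟩,
  ⟨1,[(15,0),(0,0),(20,0)]⟩⟩ ⟨false,0,⟨4,[(10,0),(4,0),(0,0),(13,1),(5,3)]⟩,⟨3,[(7,1),(29,0),(0,
  2)]⟩⟩,.a ⟨true,0,⟨0,[(1,0)]⟩,⟨0,[(5,0),(3,0)]⟩⟩ ⟨false,0,⟨1,[(22,0),(0,0)]⟩,⟨1,[(37,0),(0,0)]⟩⟩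
  ⟨true,(-1),⟨8,[(8,3),(1,6),(19,1),(1,1),(1,2),(1,0)]⟩,⟨3,[(7,1),(29,0),(0,2)]⟩⟩,.o ⟨false,0,⟨1,
  [(0,1),(32,0),(4,0)]⟩,⟨0,[(15,0)]⟩⟩]⟩))) (.R ⟨1,false,false,true,[1,-1],[1,-1,0,0,-1],[1,1,1],(⟨0,
  [(26,0)]⟩,⟨0,[(27,0)]⟩),(⟨0,[(1,0)]⟩,⟨22,[(13,2),(0,2),(1,22),(7,4),(4,5),(0,2)]⟩),⟨0,[(11,0),(0,
  0)]⟩,.k,(.r (-1) ⟨3,[(5,1),(29,0),(0,2)]⟩ ⟨4,[(8,2),(4,2),(0,2),(13,0),(5,1)]⟩),(.r (-1) ⟨1,[(5,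
  1),(29,0),(0,0)]⟩ ⟨1,[(8,1),(4,0),(0,0),(19,1),(1,0)]⟩),.k,(.r 0 ⟨0,[(32,0)]⟩ ⟨3,[(8,1),(4,2),(0,
  2),(19,1),(1,2)]⟩),.k,⟨true,(-1),⟨0,[(8,0)]⟩,⟨3,[(5,1),(29,0),(0,2)]⟩⟩,⟨false,1,⟨0,[(3,0)]⟩,⟨0,
  [(14,0)]⟩⟩,⟨true,(-1),⟨0,[(8,0)]⟩,⟨3,[(5,1),(29,2),(0,0)]⟩⟩,⟨false,1,⟨5,[(0,3),(8,1),(3,1),(17,0),
  (4,2)]⟩,⟨0,[(14,0)]⟩⟩,⟨true,(-1),⟨0,[(8,0),(25,0)]⟩,⟨1,[(5,1),(29,0),(0,0)]⟩⟩,⟨true,0,⟨0,[(0,0)]⟩,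
  ⟨0,[(14,0),(18,0)]⟩⟩,[.e ⟨false,0,⟨0,[(38,0)]⟩,⟨1,[(35,0),(0,0)]⟩⟩ ⟨false,1,⟨1,[(0,1),(4,1),(29,
  0),(0,0)]⟩,⟨3,[(8,1),(4,0),(0,4),(19,1),(1,0)]⟩⟩,.o ⟨false,1,⟨1,[(0,1),(8,1),(21,0),(4,0)]⟩,⟨0,
  [(6,0),(7,0)]⟩⟩,.o ⟨false,0,⟨1,[(20,0),(0,0)]⟩,⟨1,[(31,0),(3,0)]⟩⟩,.a ⟨true,(-1),⟨0,[(7,0)]⟩,⟨0,
  [(35,0)]⟩⟩ ⟨false,0,⟨0,[]⟩,⟨1,[(13,0),(0,0),(21,0)]⟩⟩ ⟨true,1,⟨1,[(0,1),(4,1),(29,0),(0,0)]⟩,⟨0,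
  [(8,0),(5,0)]⟩⟩]⟩))))))) (.S ⟨1,0,[0,0,-1,-1],[1,-1],[0,1,-1,-1],(⟨0,[(20,0)]⟩,⟨0,[(21,0)]⟩),⟨0,
  [(5,0),(0,0)]⟩,.k,(.r (-1) ⟨1,[(0,1),(24,0),(0,1),(2,0)]⟩ ⟨1,[(2,1),(4,0),(0,0),(19,1),(1,0)]⟩),
  ⟨true,0,⟨0,[(32,0)]⟩,⟨0,[]⟩⟩,⟨false,1,⟨1,[(7,0),(0,0),(21,0)]⟩,⟨0,[]⟩⟩,⟨false,0,⟨0,[(28,0)]⟩,⟨3,
  [(3,1),(3,0),(0,0),(16,0),(4,1)]⟩⟩,⟨true,0,⟨0,[(28,0)]⟩,⟨0,[(27,0)]⟩⟩,[.a ⟨true,0,⟨5,[(3,2),(3,0),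
  (0,0),(9,0),(1,0),(3,0)]⟩,⟨0,[(28,0)]⟩⟩ ⟨true,0,⟨0,[(26,0)]⟩,⟨0,[(2,0),(27,0)]⟩⟩ ⟨false,1,⟨3,[(0,
  1),(24,0),(0,1),(2,2)]⟩,⟨3,[(2,1),(4,0),(0,0),(19,1),(1,0)]⟩⟩,.a ⟨true,0,⟨0,[(0,0)]⟩,⟨4,[(2,0),(4,
  0),(0,0),(13,1),(5,3)]⟩⟩ ⟨false,1,⟨3,[(0,1),(24,0),(0,1),(2,2)]⟩,⟨3,[(2,1),(4,0),(0,0),(19,1),(1,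
  0)]⟩⟩ ⟨true,1,⟨1,[(0,1),(24,0),(3,0)]⟩,⟨0,[(2,0)]⟩⟩,.o ⟨false,0,⟨1,[(14,0),(0,0)]⟩,⟨1,[(25,0),(3,
  0)]⟩⟩,.a ⟨true,(-1),⟨0,[(1,0)]⟩,⟨0,[(29,0)]⟩⟩ ⟨false,1,⟨3,[(0,1),(24,0),(0,1),(2,2)]⟩,⟨0,[(2,0),
  (27,0)]⟩⟩ ⟨true,1,⟨3,[(0,1),(24,0),(0,1),(2,2)]⟩,⟨0,[(2,0)]⟩⟩]⟩)))

theorem ok66 : chk K t66 r1 = true := by decide +kernel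


end Helper25.S1T.Ypp_1cP3
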