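import Pool.Agent.Helper25.S1T.Ypp_1cP3_p0
import Pool.Agent.Helper25.S1T.Ypp_1cP3_p1

set_option autoImplicit false
set_option linter.all false

namespace Helper25.S1T.Ypp_1cP3

open Helper25.KG Helper25.KW Helper55.KE Helper11.CT

noncomputable def t9 : Tre :=
  .Q [0,0,-1,0,0,0,-2,-1,0,1,-2] (.p false [0,0,1] [1,0,-1] (⟨0,[(23,0)]⟩,⟨0,[(22,0)]⟩) .k 2 (⟨0,
  [(22,0)]⟩,⟨0,[(23,0)]⟩) .k (.r 1 ⟨0,[(3,1),(32,0)]⟩ ⟨3,[(0,1),(1,3),(10,0),(0,0),(5,5),(7,1),(2,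
  0),(2,3)]⟩)) t7 t8

theorem ok9 : chk K t9 r9 = true :=
  chk_Q (e' := [0,0,1,0,0,0,2,1,0,-1,2]) (by decide +kernel) (by decide +kernel) ok7 ok8

noncomputable def t10 : Tre :=
  .Q [0,0,2,0,-1,0,-1,0,0,1,-1] (.p false [0,0,1] [1] (⟨0,[(22,0)]⟩,⟨0,[(21,0)]⟩) .k 1 (⟨0,[]⟩,⟨0,
  []⟩) .k .k) t6 t9

theorem ok10 : chk K t10 r8 = true :=
  chk_Q (e' := [0,0,-2,0,1,0,1,0,0,-1,1]) (by decide +kernel) (by decide +kernel) ok6 ok9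

noncomputable def t11 : Tre :=
  .I [0,-1,0,1,1,0,0,-1] t5 t10

theorem ok11 : chk K t11 l7 = true :=
  chk_I (e' := [1,1,0,-1,-1,0,0,1]) (by decide +kernel) (by decide +kernel) ok5 ok10

noncomputable def t13 : Tre :=
  .Q [0,-1,0,-1,1,0,-2,-2,0,1,-2] (.p false [0,0,1] [1,0,-1] (⟨0,[(20,0)]⟩,⟨0,[(19,0)]⟩) .k 2 (⟨0,
  [(19,0)]⟩,⟨0,[(20,0)]⟩) .k (.r 1 ⟨0,[(0,1),(32,0)]⟩ ⟨0,[(16,1),(0,1),(14,0),(0,0)]⟩)) t11 t12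

theorem ok13 : chk K t13 r6 = true :=
  chk_Q (e' := [0,1,0,1,-1,0,2,2,0,-1,2]) (by decide +kernel) (by decide +kernel) ok11 ok12

noncomputable def t14 : Tre :=
  .I [1,-1,0,0,1,0,0,-1] t4 t13

theorem ok14 : chk K t14 l5 = true :=
  chk_I (e' := [0,1,0,0,-1,0,0,1]) (by decide +kernel) (by decide +kernel) ok4 ok13

noncomputable def t23 : Tre :=
  .Q [0,-2,0,0,1,0,0,0,-1,1,0,-1] (.p false [0,0,0,0,1] [1] (⟨0,[(23,0)]⟩,⟨0,[(22,0)]⟩) .k 1 (⟨0,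
  []⟩,⟨0,[]⟩) .k .k) t21 t22

theorem ok23 : chk K t23 r21 = true :=
  chk_Q (e' := [0,2,0,0,-1,0,0,0,1,-1,0,1]) (by decide +kernel) (by decide +kernel) ok21 ok22

noncomputable def t24 : Tre :=
  .Q [0,1,-2,0,-1,0,-1,0,1,0,-1,1] (.p false [0,0,1] [0,0,0,0,1] (⟨0,[(29,0)]⟩,⟨0,[(28,0)]⟩) .k 2
  (⟨0,[(22,0)]⟩,⟨0,[(21,0)]⟩) .k (.r (-1) ⟨1,[(6,0),(2,0),(6,0),(25,0)]⟩ ⟨4,[(0,0),(9,3),(23,1),(5,
  0)]⟩)) t20 t23

theorem ok24 : chk K t24 r20 = true :=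
  chk_Q (e' := [0,-1,2,0,1,0,1,0,-1,0,1,-1]) (by decide +kernel) (by decide +kernel) ok20 ok23

noncomputable def t25 : Tre :=
  .I [0,-1,2,1,0,0,0,1] t19 t24

theorem ok25 : chk K t25 r19 = true :=
  chk_I (e' := [1,1,-2,-1,0,0,0,-1]) (by decide +kernel) (by decide +kernel) ok19 ok24

noncomputable def t26 : Tre :=
  .Q [0,0,0,0,0,2,0,0,0,-1,1] (.p true [0,0,1] [1] (⟨0,[(27,0)]⟩,⟨0,[(26,0)]⟩) .k 1 (⟨0,[]⟩,⟨0,[]⟩)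
  .k .k) t18 t25

theorem ok26 : chk K t26 l18 = true :=
  chk_Q (e' := [0,0,0,0,0,-2,0,0,0,1,-1]) (by decide +kernel) (by decide +kernel) ok18 ok25

noncomputable def t28 : Tre :=
  .Q [0,0,-2,0,1,0,1,0,0,-1,1] (.p true [0,0,1] [1] (⟨0,[(26,0)]⟩,⟨0,[(25,0)]⟩) .k 1 (⟨0,[]⟩,⟨0,
  []⟩) .k .k) t26 t27

theorem ok28 : chk K t28 r17 = true :=
  chk_Q (e' := [0,0,2,0,-1,0,-1,0,0,1,-1]) (by decide +kernel) (by decide +kernel) ok26 ok27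

noncomputable def t29 : Tre :=
  .Q [0,0,1,0,-1,0,-2,0,0,1,-2] (.p false [0,0,1] [1,0,-1] (⟨0,[(25,0)]⟩,⟨0,[(24,0)]⟩) .k 2 (⟨0,
  [(24,0)]⟩,⟨0,[(25,0)]⟩) .k (.r 0 ⟨0,[(3,1),(32,1)]⟩ ⟨0,[(6,1),(30,0)]⟩)) t17 t28

theorem ok29 : chk K t29 l16 = true :=
  chk_Q (e' := [0,0,-1,0,1,0,2,0,0,-1,2]) (by decide +kernel) (by decide +kernel) ok17 ok28

noncomputable def t31 : Tre :=
  .Q [0,1,0,-1,0,0,1,1,0,-1,1] (.p true [0,0,1] [1] (⟨0,[(24,0)]⟩,⟨0,[(23,0)]⟩) .k 1 (⟨0,[]⟩,⟨0,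
  []⟩) .k .k) t29 t30

theorem ok31 : chk K t31 r15 = true :=
  chk_Q (e' := [0,-1,0,1,0,0,-1,-1,0,1,-1]) (by decide +kernel) (by decide +kernel) ok29 ok30

noncomputable def t32 : Tre :=
  .Q [0,0,0,1,0,0,-1,-1,0,0,-1] (.p false [0,0,1] [] (⟨0,[(23,0)]⟩,⟨0,[(22,0)]⟩) .k 0 (⟨0,[]⟩,⟨0,
  []⟩) .k .k) t16 t31

theorem ok32 : chk K t32 l14 = true :=
  chk_Q (e' := [0,0,0,-1,0,0,1,1,0,0,1]) (by decide +kernel) (by decide +kernel) ok16 ok31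

noncomputable def t35 : Tre :=
  .Q [0,1,-1,0,-1,0,-2,-1,0,1,-2] (.p false [0,0,1] [1,0,-1] (⟨0,[(24,0)]⟩,⟨0,[(23,0)]⟩) .k 2 (⟨0,
  [(23,0)]⟩,⟨0,[(24,0)]⟩) .k (.r 0 ⟨0,[(2,1),(32,1)]⟩ ⟨0,[(5,1),(30,0)]⟩)) t33 t34

theorem ok35 : chk K t35 l23 = true :=
  chk_Q (e' := [0,-1,1,0,1,0,2,1,0,-1,2]) (by decide +kernel) (by decide +kernel) ok33 ok34

noncomputable def t37 : Tre :=
  .I [0,0,-4,0,2,-4,1] t35 t36

theorem ok37 : chk K t37 r14 = true :=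
  chk_I (e' := [1,0,4,0,-2,4,-1]) (by decide +kernel) (by decide +kernel) ok35 ok36

noncomputable def t38 : Tre :=
  .Q [0,-1,0,1,1,0,1,1,0,-1,1] (.p true [0,0,1] [1] (⟨0,[(22,0)]⟩,⟨0,[(21,0)]⟩) .k 1 (⟨0,[]⟩,⟨0,
  []⟩) .k .k) t32 t37

theorem ok38 : chk K t38 r13 = true :=
  chk_Q (e' := [0,1,0,-1,-1,0,-1,-1,0,1,-1]) (by decide +kernel) (by decide +kernel) ok32 ok37

noncomputable def t39 : Tre :=
  .I [0,0,0,1,0,0,0,-1] t15 t38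

theorem ok39 : chk K t39 l12 = true :=
  chk_I (e' := [1,0,0,-1,0,0,0,1]) (by decide +kernel) (by decide +kernel) ok15 ok38

noncomputable def t49 : Tre :=
  .I [0,0,-2,-2,0,0,0,-1] t47 t48

theorem ok49 : chk K t49 r32 = true :=
  chk_I (e' := [1,0,2,2,0,0,0,1]) (by decide +kernel) (by decide +kernel) ok47 ok48

noncomputable def t50 : Tre :=
  .Q [0,1,0,0,0,0,1,1,-1,0,1,-1] (.p true [0,0,1] [0,0,0,0,1] (⟨0,[(28,0)]⟩,⟨0,[(27,0)]⟩) .k 2 (⟨0,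
  [(21,0)]⟩,⟨0,[(20,0)]⟩) .k (.r (-1) ⟨1,[(2,0),(5,0),(1,0),(2,0)]⟩ ⟨6,[(3,0),(3,0),(1,4),(23,
  3)]⟩)) t46 t49

theorem ok50 : chk K t50 r31 = true :=
  chk_Q (e' := [0,-1,0,0,0,0,-1,-1,1,0,-1,1]) (by decide +kernel) (by decide +kernel) ok46 ok49

noncomputable def t51 : Tre :=
  .I [0,0,2,2,0,0,0,1] t45 t50

theorem ok51 : chk K t51 r30 = true :=
  chk_I (e' := [1,0,-2,-2,0,0,0,-1]) (by decide +kernel) (by decide +kernel) ok45 ok50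

noncomputable def t52 : Tre :=
  .I [0,0,2,0,-1,2,-1] t44 t51

theorem ok52 : chk K t52 r29 = true :=
  chk_I (e' := [1,0,-2,0,1,-2,1]) (by decide +kernel) (by decide +kernel) ok44 ok51

noncomputable def t53 : Tre :=
  .I [1,2,-2,-2,-1,0,0,-1] t43 t52

theorem ok53 : chk K t53 r28 = true :=
  chk_I (e' := [0,-2,2,2,1,0,0,1]) (by decide +kernel) (by decide +kernel) ok43 ok52

noncomputable def t54 : Tre :=
  .I [0,0,2,1,0,0,0,1] t42 t53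

theorem ok54 : chk K t54 l27 = true :=
  chk_I (e' := [1,0,-2,-1,0,0,0,-1]) (by decide +kernel) (by decide +kernel) ok42 ok53

noncomputable def t56 : Tre :=
  .Q [0,-1,-2,-1,0,0,-2,-1,0,1,-2] (.p false [0,0,1] [1,0,-1] (⟨0,[(23,0)]⟩,⟨0,[(22,0)]⟩) .k 2 (⟨0,
  [(22,0)]⟩,⟨0,[(23,0)]⟩) .k (.r (-1) ⟨0,[(5,1),(12,1),(17,0)]⟩ ⟨1,[(1,1),(0,0),(1,0),(3,0),(26,
  0)]⟩)) t54 t55

theorem ok56 : chk K t56 r26 = true :=
  chk_Q (e' := [0,1,2,1,0,0,2,1,0,-1,2]) (by decide +kernel) (by decide +kernel) ok54 ok55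

noncomputable def t57 : Tre :=
  .Q [0,-1,0,2,0,0,-1,-1,0,0,-1] (.p false [0,0,1] [] (⟨0,[(22,0)]⟩,⟨0,[(21,0)]⟩) .k 0 (⟨0,[]⟩,⟨0,
  []⟩) .k .k) t41 t56

theorem ok57 : chk K t57 r25 = true :=
  chk_Q (e' := [0,1,0,-2,0,0,1,1,0,0,1]) (by decide +kernel) (by decide +kernel) ok41 ok56

noncomputable def t58 : Tre :=
  .I [0,-1,-1,0,1,0,0,1] t40 t57

theorem ok58 : chk K t58 r12 = true :=
  chk_I (e' := [1,1,1,0,-1,0,0,-1]) (by decide +kernel) (by decide +kernel) ok40 ok57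

noncomputable def t59 : Tre :=
  .I [1,1,-1,-1,0,0,0,1] t39 t58

theorem ok59 : chk K t59 l11 = true :=
  chk_I (e' := [0,-1,1,1,0,0,0,-1]) (by decide +kernel) (by decide +kernel) ok39 ok58

noncomputable def t61 : Tre :=
  .Q [0,1,0,-1,0,0,1,1,0,0,1] (.p true [0,0,1] [] (⟨0,[(19,0)]⟩,⟨0,[(18,0)]⟩) .k 0 (⟨0,[]⟩,⟨0,[]⟩)
  .k .k) t59 t60

theorem ok61 : chk K t61 r5 = true :=
  chk_Q (e' := [0,-1,0,1,0,0,-1,-1,0,0,-1]) (by decide +kernel) (by decide +kernel) ok59 ok60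

noncomputable def t62 : Tre :=
  .I [0,0,-1,0,0,0,0,1] t14 t61

theorem ok62 : chk K t62 r4 = true :=
  chk_I (e' := [1,0,1,0,0,0,0,-1]) (by decide +kernel) (by decide +kernel) ok14 ok61

noncomputable def t63 : Tre :=
  .Q [0,0,0,0,0,0,1,0,0,0,1] (.p true [0,0,1] [] (⟨0,[(17,0)]⟩,⟨0,[(16,0)]⟩) .k 0 (⟨0,[]⟩,⟨0,[]⟩)
  .k .k) t3 t62

theorem ok63 : chk K t63 r3 = true :=
  chk_Q (e' := [0,0,0,0,0,0,-1,0,0,0,-1]) (by decide +kernel) (by decide +kernel) ok3 ok62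

noncomputable def t64 : Tre :=
  .I [0,-1,2,2] t2 t63

theorem ok64 : chk K t64 r2 = true :=
  chk_I (e' := [1,1,-2,-2]) (by decide +kernel) (by decide +kernel) ok2 ok63

noncomputable def t65 : Tre :=
  .I [1,-1,2,1] t1 t64

theorem ok65 : chk K t65 l1 = true :=
  chk_I (e' := [0,1,-2,-1]) (by decide +kernel) (by decide +kernel) ok1 ok64

noncomputable def t67 : Tre :=
  .I [0,-1,-2,-1,1] t65 t66

theorem ok67 : chk K t67 r0 = true :=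
  chk_I (e' := [1,1,2,1,-1]) (by decide +kernel) (by decide +kernel) ok65 ok66

noncomputable def t68 : Tre :=
  .Q [0,0,0,2,0,0,0,0,0,-1] (.pp true [-1,1]) t0 t67

theorem ok68 : chk K t68 base = true :=
  chk_Q (e' := [0,0,0,-2,0,0,0,0,0,1]) (by decide +kernel) (by decide +kernel) ok0 ok67

theorem closed {p a b c J l q : ℤ} {D dl : ℝ} {Cl : ℤ → ℤ → ℤ → ℤ → ℝ → Prop}
    (W : World p a b c J 1 l q D dl Cl) (g : G0 p a b c J D)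
    {N X R : ℤ} {I : ℝ} (hk : KCl p l Cl N X R I) (kz : KF a b D (X + (1 : ℤ) * I) (X + (1 : ℤ) * I + R) I)
    {Ne Xe : ℤ} {Ie : ℝ} (he : EFac p 1 D Cl (a) Ne Xe Ie)
    (hkf : ∀ kf ∈ (kfY 1 [0,0,0,0,0,0,1,0,0,0,1]), KOk p l Cl 1
      (xv [1, a, b, c, p, J, X, R, Xe] [D, I, Ie]) N kf)
    (h0 : 1 ≤ (c : ℝ))
    (h1 : 1 ≤ (a : ℝ) - (b : ℝ) - (c : ℝ))
    (h2 : 0 < -1 + (p : ℝ) - 2 * D)
    (h3 : 0 < 3 - (p : ℝ) + 2 * D)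
    (h4 : 0 < 1 + 3 * (J : ℝ) - D)
    (h5 : 1 ≤ 2 * (a : ℝ) - (b : ℝ))
    (h6 : 1 ≤ -2 + (J : ℝ))
    (h7 : 0 < -(b : ℝ) - (X : ℝ) + D - I)
    (h8 : 0 < -(J : ℝ) + I)
    (h9 : 0 < -(J : ℝ) + D - I)
    (h10 : 0 < -2 * (X : ℝ) + D - 2 * I) : False := by
  have g1 := g.a2
  have g2 := g.b2
  have g3 := g.pa
  have g4 := g.pb
  have g5 := g.J1
  have g6 := g.JD
  have g7 := g.D2
  have g8 := g.ca
  have g9 := g.ca'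
  have k1 := kz.I0
  have k2 := kz.ID
  have k3 := kz.z1
  have k4 := kz.z2
  have k5 := kz.s1
  have k6 := kz.s2
  have e1 := he.I0
  have e2 := he.ID
  have e3 := he.x0
  have e4 := he.xp
  push_cast at *
  refine (val_E W.toBase hk he (row := [0,1]) (by simp) (by simp) (kfY 1 [0,0,0,0,0,0,1,0,0,0,1])).sound W rfl (Nk := N)
    (fun kf _ _ => ⟨_, rfl⟩) hkf ?_ ok68
  · simp only [base, List.forall_mem_cons, List.not_mem_nil, false_imp_iff, implies_true,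
      and_true, hld, xv, evg_cons, evg_nil, List.map_cons, List.map_nil, List.cons_append,
      List.nil_append, if_true, if_false, Bool.false_eq_true]
    push_cast
    refine ⟨?_, ?_, ?_, ?_, ?_, ?_, ?_, ?_, ?_, ?_, ?_, ?_, ?_, ?_, ?_, ?_, ?_, ?_, ?_, ?_, ?_, ?_, ?_, ?_, ?_, ?_, ?_, ?_, ?_⟩ <;> linarith

end Helper25.S1T.Ypp_1cP3
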