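import Pool.Agent.Helper25.S1T.Ypp_1cP3_q

set_option autoImplicit false
set_option linter.all false

namespace Helper25.S1T.Ypp_1cP3

open Helper25.KG Helper25.KW Helper55.KE Helper11.CT

noncomputable def t0 : Tre :=
  (.R ⟨2,true,false,true,[0,1],[1,-1],[0,1,0,-1],(⟨0,[]⟩,⟨0,[]⟩),(⟨0,[(17,0)]⟩,⟨0,[(18,0)]⟩),⟨0,[]⟩,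
  .k,.k,.k,(.r 0 ⟨0,[(11,0),(0,0),(12,1)]⟩ ⟨0,[(23,1),(3,0)]⟩),.k,.k,⟨true,0,⟨1,[(11,0),(0,0)]⟩,⟨0,
  []⟩⟩,⟨false,0,⟨5,[(1,2),(2,0),(0,0),(5,5),(3,0),(1,0),(3,0)]⟩,⟨0,[(0,0),(22,1),(3,0)]⟩⟩,⟨false,1,
  ⟨0,[(23,0),(0,0),(2,0)]⟩,⟨1,[(0,1),(10,0),(0,0),(8,0),(5,0)]⟩⟩,⟨true,0,⟨1,[(21,0),(2,3),(2,0)]⟩,
  ⟨0,[(0,0)]⟩⟩,⟨true,0,⟨0,[(23,0)]⟩,⟨1,[(11,0),(0,0),(12,1)]⟩⟩,⟨false,0,⟨1,[(21,0),(2,1),(2,0)]⟩,⟨3,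
  [(0,1),(3,0),(0,0),(16,0),(4,1)]⟩⟩,[]⟩)

theorem ok0 : chk K t0 l0 = true := by decide +kernel

noncomputable def t1 : Tre :=
  (.S ⟨1,0,[0,0,-1,-1],[1,-1],[0,1,-1,-1],(⟨0,[(19,0)]⟩,⟨0,[(20,0)]⟩),⟨0,[(4,0),(0,0)]⟩,.k,(.r (-1)
  ⟨0,[(1,0),(24,0)]⟩ ⟨2,[(0,3),(20,1),(5,1)]⟩),⟨true,0,⟨0,[(31,0)]⟩,⟨0,[]⟩⟩,⟨false,1,⟨1,[(6,0),(0,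
  0),(21,0)]⟩,⟨0,[]⟩⟩,⟨false,0,⟨0,[(27,0)]⟩,⟨3,[(2,1),(3,0),(0,0),(16,0),(4,1)]⟩⟩,⟨true,0,⟨0,[(27,
  0)]⟩,⟨0,[(26,0)]⟩⟩,[.a ⟨true,0,⟨5,[(2,2),(3,0),(0,0),(9,0),(1,0),(3,0)]⟩,⟨0,[(27,0)]⟩⟩ ⟨true,0,⟨0,
  [(25,0)]⟩,⟨0,[(0,0)]⟩⟩ ⟨false,1,⟨7,[(1,3),(0,1),(18,1),(2,0),(3,2)]⟩,⟨2,[(0,1),(20,0),(5,0)]⟩⟩,.e
  ⟨false,1,⟨7,[(1,3),(0,1),(18,1),(2,0),(3,2)]⟩,⟨2,[(0,1),(20,0),(5,0)]⟩⟩ ⟨false,1,⟨0,[(1,0)]⟩,⟨0,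
  [(0,0),(20,0)]⟩⟩,.o ⟨false,0,⟨1,[(0,0),(25,0)]⟩,⟨1,[(24,0),(3,0)]⟩⟩,.e ⟨false,1,⟨7,[(1,3),(0,1),
  (18,1),(2,0),(3,2)]⟩,⟨0,[(0,0)]⟩⟩ ⟨false,1,⟨0,[(1,0)]⟩,⟨0,[(0,0),(30,0)]⟩⟩]⟩)

theorem ok1 : chk K t1 l2 = true := by decide +kernel

noncomputable def t2 : Tre :=
  (.S ⟨1,0,[0,0,-1,-1],[1,-1],[0,0,1],(⟨0,[(20,0)]⟩,⟨0,[(21,0)]⟩),⟨0,[(5,0),(0,0)]⟩,.k,(.r (-1) ⟨0,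
  [(2,0),(24,0)]⟩ ⟨0,[(0,0),(31,0)]⟩),⟨true,0,⟨0,[(0,0),(26,0)]⟩,⟨0,[(1,0)]⟩⟩,⟨false,1,⟨1,[(7,0),(0,
  0),(21,0)]⟩,⟨0,[]⟩⟩,⟨false,0,⟨0,[(0,0)]⟩,⟨0,[(2,0),(24,0)]⟩⟩,⟨true,0,⟨0,[(28,0)]⟩,⟨0,[(27,0)]⟩⟩,
  [.a ⟨true,0,⟨19,[(0,3),(2,13),(18,1),(1,2),(4,2)]⟩,⟨0,[(28,0)]⟩⟩ ⟨true,0,⟨1,[(14,0),(0,0)]⟩,⟨0,
  []⟩⟩ ⟨false,1,⟨7,[(2,3),(0,1),(18,1),(2,0),(3,2)]⟩,⟨1,[(0,0),(31,0)]⟩⟩,.e ⟨false,1,⟨1,[(7,0),(0,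
  0),(21,0)]⟩,⟨2,[(1,0),(20,0),(5,0)]⟩⟩ ⟨false,1,⟨0,[(2,0)]⟩,⟨1,[(0,0),(31,2)]⟩⟩,.o ⟨false,0,⟨1,
  [(14,0),(0,0)]⟩,⟨1,[(25,0),(3,0)]⟩⟩,.o ⟨false,0,⟨0,[(14,0),(0,0)]⟩,⟨1,[(1,0),(0,0),(22,0),(2,
  1)]⟩⟩]⟩)

theorem ok2 : chk K t2 l3 = true := by decide +kernel

noncomputable def t3 : Tre :=
  (.I [0,0,-2,-2,0,0,0,-1] (.K ⟨0,[0,1,1],0,0,(⟨22,[(9,2),(0,2),(8,22),(0,4),(4,5),(0,2)]⟩,⟨0,[(7,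
  0)]⟩),.k,.k,(.r (-1) ⟨1,[(9,0),(0,0),(3,1),(1,0),(0,2),(12,3),(1,0)]⟩ ⟨0,[(0,0)]⟩),.k,.k,[⟨1,[(16,
  0),(0,0)]⟩,⟨0,[(1,0)]⟩,⟨5,[(0,1),(14,3),(0,0),(0,2),(11,1)]⟩,⟨0,[(14,0),(15,0)]⟩]⟩) (.I [0,0,-1,0,
  0,0,0,-1] (.S ⟨1,0,[0,0,0,0,0,0,0,-1],[1,0,-1],[0,1,0,0,0,0,0,-1],(⟨0,[(19,0)]⟩,⟨0,[(20,0)]⟩),⟨0,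
  [(8,0)]⟩,.k,.k,⟨true,0,⟨8,[(1,0),(14,0),(0,0),(7,2),(4,1)]⟩,⟨0,[]⟩⟩,⟨false,1,⟨1,[(10,0),(0,0),(21,
  0)]⟩,⟨0,[]⟩⟩,⟨false,0,⟨0,[(31,0)]⟩,⟨3,[(6,1),(3,0),(0,0),(16,0),(4,1)]⟩⟩,⟨true,0,⟨0,[(31,0)]⟩,⟨0,
  [(30,0)]⟩⟩,[.o ⟨false,0,⟨0,[(0,0),(17,0)]⟩,⟨1,[(15,1),(12,0),(4,0)]⟩⟩,.e ⟨false,0,⟨0,[(0,0)]⟩,⟨3,
  [(7,1),(2,0),(0,0),(3,3),(12,0),(4,1)]⟩⟩ ⟨false,1,⟨2,[(0,1),(15,0),(0,0),(14,0),(0,1)]⟩,⟨0,[(1,0),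
  (1,0)]⟩⟩,.a ⟨true,0,⟨5,[(7,2),(2,0),(0,0),(9,0),(1,0),(3,0)]⟩,⟨0,[(2,0)]⟩⟩ ⟨false,0,⟨1,[(0,1),(16,
  0),(0,0)]⟩,⟨0,[(1,0),(1,0),(29,0)]⟩⟩ ⟨true,0,⟨1,[(0,1),(16,0),(0,0)]⟩,⟨0,[(1,0),(1,0)]⟩⟩,.o
  ⟨false,0,⟨0,[(18,0)]⟩,⟨1,[(2,1),(25,0),(3,0)]⟩⟩]⟩) (.Q [0,1,0,-1,0,0,-1,-1,0,0,-1] (.p false [0,0,
  1] [] (⟨0,[(20,0)]⟩,⟨0,[(19,0)]⟩) .k 0 (⟨0,[]⟩,⟨0,[]⟩) .k .k) (.K ⟨0,[0,1,1],0,0,(⟨22,[(11,2),(0,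
  2),(8,22),(0,4),(4,5),(0,2)]⟩,⟨0,[(9,0)]⟩),.k,.k,(.r 0 ⟨0,[(1,0),(30,1),(2,0)]⟩ ⟨0,[(0,0),(2,0),
  (2,0)]⟩),.k,.k,[⟨1,[(18,0),(0,0)]⟩,⟨0,[(3,0)]⟩,⟨0,[(0,0)]⟩,⟨0,[(16,0),(15,0)]⟩]⟩) (.R ⟨2,true,
  false,false,[0,1],[0,1,1],[1,0,1],(⟨0,[]⟩,⟨0,[]⟩),(⟨22,[(11,2),(0,2),(8,22),(0,4),(4,5),(0,2)]⟩,
  ⟨0,[(9,0)]⟩),⟨0,[]⟩,.k,.k,.k,.k,.k,.k,⟨false,1,⟨0,[(6,0),(10,0),(0,0)]⟩,⟨2,[(0,1),(1,0),(2,1),(13,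
  1),(12,0)]⟩⟩,⟨true,0,⟨0,[(3,0)]⟩,⟨0,[(19,0)]⟩⟩,⟨false,1,⟨3,[(7,1),(3,0),(0,0),(16,0),(4,1)]⟩,⟨0,
  [(32,0)]⟩⟩,⟨true,0,⟨3,[(0,1),(0,0),(2,0),(11,0),(1,0)]⟩,⟨0,[(17,0)]⟩⟩,⟨true,0,⟨0,[]⟩,⟨8,[(2,0),
  (14,0),(0,0),(7,2),(4,1)]⟩⟩,⟨false,0,⟨0,[(0,0)]⟩,⟨3,[(7,1),(3,0),(0,0),(4,3),(11,0),(4,1)]⟩⟩,
  []⟩))))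

theorem ok3 : chk K t3 l4 = true := by decide +kernel

noncomputable def t4 : Tre :=
  (.S ⟨1,0,[0,0,0,0,0,0,0,1],[0,0,1],[0,1,0,0,0,0,0,1],(⟨0,[(20,0)]⟩,⟨0,[(19,0)]⟩),⟨0,[(9,0)]⟩,.k,
  .k,⟨true,0,⟨0,[(35,0)]⟩,⟨0,[]⟩⟩,⟨false,1,⟨1,[(10,0),(0,0),(21,0)]⟩,⟨0,[]⟩⟩,⟨false,0,⟨0,[(31,0)]⟩,
  ⟨3,[(6,1),(3,0),(0,0),(16,0),(4,1)]⟩⟩,⟨true,0,⟨0,[(31,0)]⟩,⟨0,[(30,0)]⟩⟩,[.e ⟨false,0,⟨4,[(1,3),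
  (13,0),(2,0),(6,1)]⟩,⟨0,[(0,0)]⟩⟩ ⟨false,0,⟨0,[(1,0)]⟩,⟨0,[(0,0),(34,0)]⟩⟩,.o ⟨false,1,⟨1,[(1,1),
  (15,1),(10,0),(4,0)]⟩,⟨0,[(16,0)]⟩⟩,.o ⟨false,1,⟨1,[(17,1),(10,0),(3,0)]⟩,⟨0,[(2,0)]⟩⟩,.a ⟨true,0,
  ⟨0,[(17,0)]⟩,⟨0,[(14,0)]⟩⟩ ⟨false,0,⟨0,[(1,0)]⟩,⟨1,[(0,1),(16,0),(0,0)]⟩⟩ ⟨true,0,⟨0,[(1,0)]⟩,⟨0,
  [(16,0),(0,0)]⟩⟩]⟩)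

theorem ok4 : chk K t4 l6 = true := by decide +kernel

noncomputable def t5 : Tre :=
  (.S ⟨1,0,[0,0,0,0,0,0,0,1],[0,0,1],[1,1,0,-1,0,0,0,1],(⟨0,[(22,0)]⟩,⟨0,[(21,0)]⟩),⟨0,[(11,0)]⟩,.k,
  .k,⟨true,0,⟨0,[(32,0)]⟩,⟨0,[(33,0)]⟩⟩,⟨false,1,⟨1,[(12,0),(0,0),(21,0)]⟩,⟨0,[]⟩⟩,⟨false,0,⟨0,[]⟩,
  ⟨1,[(12,0),(0,0),(21,0)]⟩⟩,⟨true,0,⟨0,[(33,0)]⟩,⟨0,[(32,0)]⟩⟩,[.e ⟨false,0,⟨29,[(2,5),(0,9),(1,9),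
  (2,4),(0,6),(7,13),(12,5)]⟩,⟨0,[(0,0)]⟩⟩ ⟨false,0,⟨0,[(3,0)]⟩,⟨0,[(0,0),(31,0)]⟩⟩,.o ⟨false,1,⟨1,
  [(3,1),(15,1),(10,0),(4,0)]⟩,⟨0,[(18,0)]⟩⟩,.o ⟨false,1,⟨1,[(19,1),(10,0),(3,0)]⟩,⟨0,[(4,0)]⟩⟩,.a
  ⟨true,0,⟨0,[(19,0)]⟩,⟨0,[(16,0)]⟩⟩ ⟨false,0,⟨5,[(2,3),(0,1),(3,1),(0,1),(21,0),(4,0)]⟩,⟨1,[(0,1),
  (18,0),(0,0)]⟩⟩ ⟨true,0,⟨0,[(3,0)]⟩,⟨0,[(18,0),(0,0)]⟩⟩]⟩)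

theorem ok5 : chk K t5 l8 = true := by decide +kernel

noncomputable def t6 : Tre :=
  (.Q [0,0,0,0,0,2,0,0,0,-1,1] (.p true [0,0,1] [1] (⟨0,[(23,0)]⟩,⟨0,[(22,0)]⟩) .k 1 (⟨0,[]⟩,⟨0,
  []⟩) .k .k) (.R ⟨0,false,false,true,[1,-1,-1],[1,-1],[0,1,0,-1],(⟨0,[(12,0)]⟩,⟨17,[(0,7),(2,1),
  (15,3),(4,9),(0,1),(5,2),(3,1),(1,0)]⟩),(⟨0,[(27,0)]⟩,⟨0,[(28,0)]⟩),⟨0,[(0,0)]⟩,.k,.k,(.x 1 ⟨0,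
  [(0,0),(0,0)]⟩ ⟨3,[(8,0),(0,0),(2,5),(0,1),(7,3),(10,2),(2,1),(0,3)]⟩),.k,.k,.k,⟨true,0,⟨1,[(21,
  0),(0,0)]⟩,⟨0,[]⟩⟩,⟨false,1,⟨0,[(21,0),(14,0)]⟩,⟨0,[(6,0)]⟩⟩,⟨true,(-1),⟨4,[(1,1),(2,3),(14,0),(1,
  0),(10,0)]⟩,⟨0,[(9,0),(10,0),(0,0),(13,0)]⟩⟩,⟨false,0,⟨0,[(5,0),(15,0)]⟩,⟨3,[(3,1),(28,0),(2,1),
  (1,0)]⟩⟩,⟨false,0,⟨0,[]⟩,⟨0,[]⟩⟩,⟨false,0,⟨0,[]⟩,⟨0,[]⟩⟩,[.o ⟨false,0,⟨0,[(34,0)]⟩,⟨1,[(32,0),(2,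
  1),(1,0)]⟩⟩,.e ⟨false,1,⟨3,[(3,0),(5,0),(0,0),(8,1),(12,0),(3,0)]⟩,⟨0,[(35,0)]⟩⟩ ⟨false,1,⟨1,[(8,
  0),(0,0),(11,1),(14,0)]⟩,⟨0,[(22,0),(12,0)]⟩⟩,.o ⟨false,0,⟨0,[(22,0)]⟩,⟨1,[(8,0),(0,0),(11,1),(10,
  0),(2,1)]⟩⟩,.a ⟨true,(-1),⟨0,[(1,0)]⟩,⟨1,[(8,0),(0,0),(11,1),(13,1),(0,0)]⟩⟩ ⟨true,0,⟨0,[(33,0)]⟩,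
  ⟨1,[(21,0),(0,0),(12,1)]⟩⟩ ⟨false,1,⟨1,[(8,0),(0,0),(11,1),(14,0)]⟩,⟨1,[(1,1),(30,0),(2,1),(1,
  0)]⟩⟩]⟩) (.Q [0,0,-1,0,0,0,-2,-1,0,1,-2] (.p false [0,0,1] [1,0,-1] (⟨0,[(24,0)]⟩,⟨0,[(23,0)]⟩)
  .k 2 (⟨0,[(23,0)]⟩,⟨0,[(24,0)]⟩) .k (.r 1 ⟨0,[(4,1),(32,0)]⟩ ⟨2,[(3,1),(16,1),(0,5),(10,0),(2,1),
  (0,2)]⟩)) (.R ⟨0,false,false,true,[0,-1,1],[1,0,-1],[1],(⟨0,[(14,0)]⟩,⟨85,[(4,5),(15,11),(3,85),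
  (1,13),(4,23),(0,8),(3,5),(1,2)]⟩),(⟨0,[(24,0)]⟩,⟨0,[(25,0)]⟩),⟨2,[(1,0),(11,1),(12,0),(4,2)]⟩,.k,
  .k,(.r 0 ⟨0,[(3,0),(6,0)]⟩ ⟨5,[(4,1),(10,2),(0,2),(4,1),(0,8),(0,2),(9,0),(2,13)]⟩),(.x (-1) ⟨1,
  [(13,3),(8,3),(8,1),(1,0),(3,0)]⟩ ⟨1,[(0,1),(4,1),(8,1),(10,1),(7,0),(4,0)]⟩),.k,.k,⟨true,0,⟨0,
  [(5,0),(32,0)]⟩,⟨0,[(21,0),(0,0)]⟩⟩,⟨false,0,⟨0,[(0,0),(5,0)]⟩,⟨1,[(22,3),(10,0),(3,0)]⟩⟩,⟨false,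
  1,⟨3,[(4,1),(17,3),(10,0),(2,5),(1,0)]⟩,⟨9,[(3,3),(2,5),(3,1),(0,1),(21,0),(4,0)]⟩⟩,⟨true,0,⟨2,
  [(4,0),(16,3),(10,0),(3,3)]⟩,⟨1,[(5,3),(4,1),(11,3),(10,0),(4,0)]⟩⟩,⟨false,0,⟨0,[]⟩,⟨0,[]⟩⟩,
  ⟨false,0,⟨0,[]⟩,⟨0,[]⟩⟩,[.o ⟨false,0,⟨0,[(21,0)]⟩,⟨1,[(6,1),(15,1),(10,0),(4,0)]⟩⟩,.a ⟨true,0,⟨0,
  [(0,0),(21,0)]⟩,⟨0,[(6,0),(15,0)]⟩⟩ ⟨false,1,⟨1,[(37,0),(0,0)]⟩,⟨0,[(40,0)]⟩⟩ ⟨true,0,⟨0,[(0,0)]⟩,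
  ⟨1,[(5,1),(16,3),(10,0),(4,0)]⟩⟩,.a ⟨true,0,⟨0,[(22,0)]⟩,⟨0,[(19,0)]⟩⟩ ⟨true,0,⟨0,[]⟩,⟨0,[(40,
  0)]⟩⟩ ⟨false,0,⟨0,[(0,0)]⟩,⟨1,[(6,1),(15,3),(10,0),(4,0)]⟩⟩,.a ⟨true,0,⟨1,[(22,2),(0,0)]⟩,⟨3,[(0,
  1),(5,1),(2,0),(0,0),(21,0),(3,1)]⟩⟩ ⟨false,1,⟨1,[(37,0),(0,0)]⟩,⟨1,[(22,0),(0,0)]⟩⟩ ⟨true,0,⟨2,
  [(0,2),(8,0),(20,0),(5,0)]⟩,⟨1,[(5,1),(16,3),(10,0),(4,0)]⟩⟩]⟩) (.I [0,0,-1,0,0,-1,-2] (.R ⟨0,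
  false,false,true,[0,-1,1],[1,0,-1],[1],(⟨0,[(15,0)]⟩,⟨85,[(5,5),(15,11),(3,85),(1,13),(4,23),(0,
  8),(3,5),(1,2)]⟩),(⟨0,[(25,0)]⟩,⟨0,[(26,0)]⟩),⟨2,[(2,0),(11,1),(12,0),(4,2)]⟩,.k,.k,(.r 0 ⟨0,[(4,
  0),(6,0)]⟩ ⟨5,[(5,1),(10,2),(0,2),(4,1),(0,8),(0,2),(9,0),(2,13)]⟩),(.x (-1) ⟨1,[(14,3),(8,3),(8,
  1),(1,0),(3,0)]⟩ ⟨0,[(0,0)]⟩),.k,.k,⟨true,0,⟨0,[(6,0),(32,0)]⟩,⟨0,[(22,0),(0,0)]⟩⟩,⟨false,0,⟨1,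
  [(8,3),(1,0),(0,0),(21,0),(3,1)]⟩,⟨1,[(23,3),(10,0),(3,0)]⟩⟩,⟨false,1,⟨3,[(5,1),(17,3),(10,0),(2,
  5),(1,0)]⟩,⟨9,[(4,3),(2,5),(3,1),(0,1),(21,0),(4,0)]⟩⟩,⟨true,0,⟨2,[(5,0),(16,3),(10,0),(3,3)]⟩,⟨9,
  [(1,9),(2,3),(2,5),(3,1),(0,1),(21,0),(4,0)]⟩⟩,⟨false,0,⟨0,[]⟩,⟨0,[]⟩⟩,⟨false,0,⟨0,[]⟩,⟨0,[]⟩⟩,
  [.o ⟨false,0,⟨0,[(22,0)]⟩,⟨2,[(1,0),(5,0),(13,0),(12,0),(4,1)]⟩⟩,.e ⟨false,1,⟨1,[(38,0),(0,0)]⟩,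
  ⟨0,[(41,0)]⟩⟩ ⟨false,1,⟨5,[(5,1),(14,5),(1,1),(11,0),(2,1),(0,2)]⟩,⟨0,[(1,0)]⟩⟩,.e ⟨true,0,⟨0,[]⟩,
  ⟨0,[(41,0)]⟩⟩ ⟨true,0,⟨0,[(20,0),(1,0)]⟩,⟨0,[(1,0)]⟩⟩,.a ⟨true,0,⟨1,[(23,2),(0,0)]⟩,⟨1,[(8,1),(1,
  0),(0,0),(21,0),(3,1)]⟩⟩ ⟨false,1,⟨1,[(38,0),(0,0)]⟩,⟨1,[(23,0),(0,0)]⟩⟩ ⟨true,0,⟨2,[(5,0),(2,2),
  (1,2),(11,0),(10,0),(3,3)]⟩,⟨1,[(1,1),(21,0),(0,0)]⟩⟩]⟩) (.R ⟨0,false,false,true,[0,-1,1],[1,0,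
  -1],[1],(⟨0,[(15,0)]⟩,⟨85,[(5,5),(15,11),(3,85),(1,13),(4,23),(0,8),(3,5),(1,2)]⟩),(⟨0,[(25,0)]⟩,
  ⟨0,[(26,0)]⟩),⟨4,[(0,1),(1,0),(5,1),(11,1),(6,0),(4,2)]⟩,.k,.k,(.r 0 ⟨0,[(4,0),(6,0)]⟩ ⟨5,[(5,1),
  (10,2),(0,2),(4,1),(0,8),(0,2),(9,0),(2,13)]⟩),(.r 0 ⟨7,[(4,3),(2,9),(4,1),(8,1),(2,1),(9,0),(4,
  2)]⟩ ⟨2,[(0,2),(4,1),(9,2),(6,1),(3,2),(7,0),(2,4)]⟩),.k,.k,⟨true,0,⟨0,[(6,0),(32,0)]⟩,⟨0,[(22,0),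
  (0,0)]⟩⟩,⟨false,0,⟨1,[(8,3),(1,0),(0,0),(21,0),(3,1)]⟩,⟨1,[(23,3),(10,0),(3,0)]⟩⟩,⟨false,1,⟨3,[(5,
  1),(17,3),(10,0),(2,5),(1,0)]⟩,⟨9,[(4,3),(2,5),(3,1),(0,1),(21,0),(4,0)]⟩⟩,⟨true,0,⟨2,[(5,0),(16,
  3),(10,0),(3,3)]⟩,⟨9,[(1,9),(2,3),(2,5),(3,1),(0,1),(21,0),(4,0)]⟩⟩,⟨false,0,⟨0,[]⟩,⟨0,[]⟩⟩,
  ⟨false,0,⟨0,[]⟩,⟨0,[]⟩⟩,[.o ⟨false,0,⟨0,[(22,0)]⟩,⟨2,[(1,0),(5,0),(13,0),(12,0),(4,1)]⟩⟩,.e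
  ⟨false,1,⟨1,[(38,0),(0,0)]⟩,⟨0,[(41,0)]⟩⟩ ⟨false,1,⟨5,[(5,1),(14,5),(1,1),(11,0),(2,1),(0,2)]⟩,⟨0,
  [(1,0)]⟩⟩,.e ⟨true,0,⟨0,[]⟩,⟨0,[(41,0)]⟩⟩ ⟨true,0,⟨0,[(20,0),(1,0)]⟩,⟨0,[(1,0)]⟩⟩,.a ⟨true,0,⟨1,
  [(23,2),(0,0)]⟩,⟨1,[(8,1),(1,0),(0,0),(21,0),(3,1)]⟩⟩ ⟨false,1,⟨1,[(38,0),(0,0)]⟩,⟨1,[(23,0),(0,
  0)]⟩⟩ ⟨true,0,⟨2,[(5,0),(2,2),(1,2),(11,0),(10,0),(3,3)]⟩,⟨1,[(1,1),(21,0),(0,0)]⟩⟩]⟩))))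

theorem ok6 : chk K t6 l9 = true := by decide +kernel

noncomputable def t7 : Tre :=
  (.Q [0,0,0,0,0,2,0,0,0,0,-1] (.p false [0,0,1] [] (⟨0,[(24,0)]⟩,⟨0,[(23,0)]⟩) .k 0 (⟨0,[]⟩,⟨0,
  []⟩) .k .k) (.R ⟨0,false,false,true,[0,-1,1],[1,0,-1],[1],(⟨0,[(14,0)]⟩,⟨17,[(0,7),(3,1),(15,3),
  (3,9),(1,1),(5,2),(3,1),(1,0)]⟩),(⟨0,[(24,0)]⟩,⟨0,[(25,0)]⟩),⟨0,[(0,0)]⟩,.k,.k,(.r 0 ⟨0,[(3,0),(6,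
  0)]⟩ ⟨5,[(4,1),(10,2),(0,2),(4,1),(0,8),(0,2),(9,0),(2,13)]⟩),(.x (-1) ⟨11,[(0,5),(1,3),(12,0),(0,
  0),(5,19),(1,17),(8,6)]⟩ ⟨1,[(1,1),(3,1),(8,1),(10,1),(7,0),(4,0)]⟩),.k,.k,⟨true,0,⟨0,[(5,0),(32,
  0)]⟩,⟨0,[(21,0),(0,0)]⟩⟩,⟨false,0,⟨0,[(1,0),(4,0)]⟩,⟨2,[(2,0),(12,0),(0,0),(5,4),(10,0)]⟩⟩,⟨false,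
  1,⟨3,[(4,1),(17,3),(10,0),(2,5),(1,0)]⟩,⟨9,[(3,3),(2,5),(3,1),(0,1),(21,0),(4,0)]⟩⟩,⟨true,0,⟨2,
  [(4,0),(16,3),(10,0),(3,3)]⟩,⟨4,[(2,2),(0,4),(1,3),(14,0),(1,5),(10,0),(4,4)]⟩⟩,⟨false,0,⟨0,[]⟩,
  ⟨0,[]⟩⟩,⟨false,0,⟨0,[]⟩,⟨0,[]⟩⟩,[.o ⟨false,0,⟨0,[(21,0)]⟩,⟨4,[(2,0),(2,2),(14,1),(1,1),(10,1),(4,
  4)]⟩⟩,.a ⟨true,0,⟨0,[(1,0),(20,0)]⟩,⟨0,[(6,0),(15,0)]⟩⟩ ⟨false,1,⟨1,[(37,0),(0,0)]⟩,⟨0,[(40,0)]⟩⟩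
  ⟨true,0,⟨0,[(1,0)]⟩,⟨1,[(5,1),(16,3),(10,0),(4,0)]⟩⟩,.a ⟨true,0,⟨0,[(22,0)]⟩,⟨0,[(19,0)]⟩⟩ ⟨true,
  0,⟨0,[]⟩,⟨0,[(40,0)]⟩⟩ ⟨false,0,⟨0,[(1,0)]⟩,⟨4,[(2,0),(2,2),(14,1),(1,6),(10,1),(4,4)]⟩⟩,.a ⟨true,
  0,⟨1,[(22,2),(0,0)]⟩,⟨12,[(1,7),(0,2),(3,7),(2,0),(0,0),(21,3),(3,1)]⟩⟩ ⟨false,1,⟨1,[(37,0),(0,
  0)]⟩,⟨1,[(22,0),(0,0)]⟩⟩ ⟨true,0,⟨2,[(1,2),(7,0),(20,0),(5,0)]⟩,⟨1,[(5,1),(16,3),(10,0),(4,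
  0)]⟩⟩]⟩) (.Q [0,0,0,1,0,0,1,1,0,-1,1] (.p true [0,0,1] [1] (⟨0,[(25,0)]⟩,⟨0,[(24,0)]⟩) .k 1 (⟨0,
  []⟩,⟨0,[]⟩) .k .k) (.R ⟨1,false,false,true,[0,0,1],[1,-1],[0,1,0,-1],(⟨0,[(26,0)]⟩,⟨0,[(25,0)]⟩),
  (⟨0,[(29,0)]⟩,⟨0,[(30,0)]⟩),⟨0,[(15,0)]⟩,.k,.k,.k,.k,.k,.k,⟨true,0,⟨1,[(23,0),(0,0)]⟩,⟨0,[]⟩⟩,
  ⟨false,0,⟨19,[(5,1),(7,9),(7,3),(5,1),(1,1),(3,2),(3,1),(1,0)]⟩,⟨5,[(3,3),(12,0),(0,0),(5,1),(10,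
  0)]⟩⟩,⟨false,1,⟨8,[(3,2),(1,4),(15,0),(1,5),(10,0),(1,3)]⟩,⟨0,[(6,0),(30,0),(1,0)]⟩⟩,⟨true,0,⟨2,
  [(5,0),(16,0),(10,0),(2,1),(4,0)]⟩,⟨0,[(0,0)]⟩⟩,⟨false,1,⟨7,[(3,1),(1,3),(10,0),(0,0),(5,5),(7,1),
  (2,0),(2,3)]⟩,⟨0,[(6,0),(32,0)]⟩⟩,⟨false,0,⟨0,[(2,0),(20,0)]⟩,⟨2,[(0,1),(11,0),(8,0),(12,0),(4,
  1)]⟩⟩,[.o ⟨false,0,⟨0,[(36,0)]⟩,⟨1,[(34,0),(2,1),(1,0)]⟩⟩,.e ⟨false,1,⟨3,[(5,0),(5,0),(0,0),(8,1),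
  (12,0),(3,0)]⟩,⟨0,[(37,0)]⟩⟩ ⟨false,0,⟨12,[(2,1),(1,1),(4,0),(1,2),(0,2),(0,2),(6,2),(12,0)]⟩,⟨2,
  [(3,0),(12,0),(0,0),(5,1),(10,0),(2,2)]⟩⟩,.o ⟨false,1,⟨2,[(3,0),(12,0),(0,0),(5,1),(10,0)]⟩,⟨0,
  [(8,0)]⟩⟩,.a ⟨true,0,⟨0,[(23,0)]⟩,⟨0,[(20,0)]⟩⟩ ⟨true,0,⟨0,[(35,0)]⟩,⟨1,[(23,0),(0,0),(12,1)]⟩⟩
  ⟨false,0,⟨12,[(2,1),(1,1),(4,0),(1,2),(0,2),(0,2),(6,2),(12,0)]⟩,⟨1,[(23,1),(10,0),(2,1),(1,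
  0)]⟩⟩]⟩) (.Q [0,-2,0,0,1,0,1,1,-1,0,1,-1] (.p true [0,0,1] [0,0,0,0,1] (⟨0,[(26,0)]⟩,⟨0,[(25,
  0)]⟩) .k 2 (⟨0,[(19,0)]⟩,⟨0,[(18,0)]⟩) .k (.r 0 ⟨0,[(6,0),(32,0)]⟩ ⟨23,[(3,1),(1,11),(10,4),(0,4),
  (5,21),(7,17),(2,4),(2,11)]⟩)) (.Q [0,0,0,1,0,0,-1,-1,-1,1,-1,-1] (.p false [0,0,1] [1,0,0,0,-1]
  (⟨0,[(27,0)]⟩,⟨0,[(26,0)]⟩) .k 2 (⟨0,[(19,0)]⟩,⟨0,[(20,0)]⟩) .k (.r 1 ⟨0,[(7,0)]⟩ ⟨11,[(4,3),(1,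
  5),(10,9),(0,9),(5,7),(10,0),(2,5),(1,2)]⟩)) (.Q [0,0,0,0,0,0,0,0,0,0,-1,1] (.ed false [1,0,-1,0,
  1] (.r (-1) ⟨23,[(5,1),(1,11),(10,4),(0,4),(5,21),(7,17),(2,4),(2,11)]⟩ ⟨0,[(8,0),(32,0)]⟩)) (.Q
  [0,-1,0,0,0,0,-1,-1,-1,2,-1,-1] (.p false [-1,0,1,0,1] [1] (⟨2,[(0,1),(3,4),(17,0),(7,0),(4,2)]⟩,
  ⟨0,[(21,0),(6,0)]⟩) .k 1 (⟨0,[]⟩,⟨0,[]⟩) .k (.r 1 ⟨0,[(9,0)]⟩ ⟨11,[(6,3),(1,5),(10,9),(0,9),(5,7),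
  (10,0),(2,5),(1,2)]⟩)) (.I [0,0,-2,-2,1,0,0,-1] (.R ⟨0,false,false,true,[1,-1,-1],[1,0,1,0,-1],[1,
  0,0,0,0,0,0,1],(⟨0,[(19,0)]⟩,⟨19,[(1,2),(20,2),(3,2),(4,19),(0,1),(4,5)]⟩),(⟨0,[(23,0),(7,0)]⟩,⟨0,
  [(2,0)]⟩),⟨2,[(6,1),(24,0),(0,0),(4,2)]⟩,.k,.k,(.r (-1) ⟨0,[(0,0)]⟩ ⟨2,[(4,0),(6,0),(10,0),(3,0),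
  (1,1),(0,3),(12,5)]⟩),(.r (-1) ⟨12,[(0,5),(2,0),(4,6),(1,1),(11,0),(4,14),(0,12),(9,1)]⟩ ⟨0,[(4,
  0),(6,0),(10,0),(6,0),(12,0)]⟩),.k,.k,⟨true,0,⟨0,[]⟩,⟨1,[(28,0),(0,0)]⟩⟩,⟨false,1,⟨54,[(3,33),(0,
  20),(3,57),(2,11),(2,4),(0,23),(10,0),(1,63),(9,11)]⟩,⟨0,[(13,0),(8,0),(6,0)]⟩⟩,⟨true,(-1),⟨1,
  [(11,3),(16,0),(0,0),(12,1),(1,1)]⟩,⟨12,[(0,5),(2,0),(4,6),(1,1),(11,0),(4,14),(0,12),(9,1)]⟩⟩,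
  ⟨false,0,⟨0,[(3,0),(4,0),(2,2),(16,1),(15,1)]⟩,⟨1,[(5,0),(4,0),(11,1),(4,0),(11,0)]⟩⟩,⟨false,0,⟨0,
  []⟩,⟨0,[]⟩⟩,⟨false,0,⟨0,[]⟩,⟨0,[]⟩⟩,[.o ⟨false,0,⟨18,[(3,7),(0,8),(3,5),(0,7),(1,9),(9,1),(6,11),
  (10,0)]⟩,⟨2,[(10,0),(11,2),(4,0),(11,1),(2,0)]⟩⟩,.a ⟨true,0,⟨23,[(1,7),(2,15),(3,4),(2,14),(14,0),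
  (1,9),(3,0),(1,0),(3,5)]⟩,⟨0,[(22,0),(4,0)]⟩⟩ ⟨true,0,⟨0,[(11,0),(32,0)]⟩,⟨0,[(27,0),(0,0)]⟩⟩
  ⟨false,1,⟨23,[(1,7),(2,15),(3,28),(2,14),(14,0),(1,9),(3,0),(1,0),(3,5)]⟩,⟨0,[(22,0),(4,0),(1,
  0)]⟩⟩,.o ⟨false,0,⟨0,[(29,0)]⟩,⟨5,[(8,3),(12,0),(0,0),(5,1),(10,0)]⟩⟩,.o ⟨false,0,⟨1,[(28,0),(0,
  2)]⟩,⟨0,[(8,0)]⟩⟩]⟩) (.R ⟨0,false,false,true,[1,-1,-1],[0,0,1],[0,1,-1,-2,0,0,0,-1],(⟨0,[(19,0)]⟩,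
  ⟨19,[(1,2),(20,2),(3,2),(4,19),(0,1),(4,5)]⟩),(⟨0,[(31,0)]⟩,⟨0,[(30,0)]⟩),⟨2,[(6,1),(24,0),(0,0),
  (4,2)]⟩,.k,.k,(.x 1 ⟨9,[(0,7),(4,11),(0,8),(2,3),(18,1),(2,0),(0,1),(4,11),(6,1),(0,1)]⟩ ⟨5,[(6,
  1),(1,5),(10,7),(1,4),(0,4),(16,0)]⟩),(.r (-2) ⟨11,[(8,9),(1,11),(10,0),(0,0),(5,13),(7,5),(2,
  0)]⟩ ⟨7,[(0,5),(3,0),(4,3),(2,4),(9,0),(6,0),(14,0)]⟩),.k,.k,⟨false,2,⟨4,[(8,4),(1,4),(3,1),(13,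
  4),(7,0),(4,0)]⟩,⟨0,[(0,0),(11,0)]⟩⟩,⟨true,1,⟨0,[(8,0),(19,0)]⟩,⟨0,[(0,0),(8,0),(0,0)]⟩⟩,⟨true,0,
  ⟨0,[(41,0)]⟩,⟨0,[(42,0)]⟩⟩,⟨false,0,⟨4,[(0,3),(3,1),(3,4),(0,2),(12,1),(3,0),(1,1)]⟩,⟨0,[(10,
  0)]⟩⟩,⟨false,0,⟨0,[]⟩,⟨0,[]⟩⟩,⟨false,0,⟨0,[]⟩,⟨0,[]⟩⟩,[.o ⟨false,0,⟨4,[(8,0),(2,2),(14,1),(1,1),
  (10,1)]⟩,⟨3,[(10,1),(28,0),(2,1),(1,0)]⟩⟩,.a ⟨true,0,⟨14,[(4,4),(3,1),(2,5),(10,4),(3,3),(1,3),(9,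
  0)]⟩,⟨1,[(1,0),(20,0),(4,0)]⟩⟩ ⟨true,1,⟨9,[(8,1),(1,4),(3,5),(1,0),(0,0),(10,7),(10,1)]⟩,⟨0,[(0,
  0)]⟩⟩ ⟨false,1,⟨14,[(4,4),(3,16),(2,5),(10,4),(3,3),(1,3),(9,0)]⟩,⟨18,[(0,5),(4,3),(4,7),(7,2),(8,
  4),(1,6),(8,1),(7,2)]⟩⟩,.o ⟨false,0,⟨0,[(29,0)]⟩,⟨5,[(8,3),(12,0),(0,0),(5,1),(10,0)]⟩⟩,.o ⟨false,
  0,⟨1,[(28,0),(0,2)]⟩,⟨0,[(8,0)]⟩⟩]⟩)) (.Q [0,0,0,0,0,0,1,1,1,-1,1,1] (.p true [-1,0,1,0,1] [] (⟨2,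
  [(1,1),(3,4),(17,0),(7,0),(4,2)]⟩,⟨0,[(22,0),(6,0)]⟩) .k 0 (⟨0,[]⟩,⟨0,[]⟩) .k (.r 1 ⟨0,[(10,0)]⟩
  ⟨11,[(7,3),(1,5),(10,9),(0,9),(5,7),(10,0),(2,5),(1,2)]⟩)) (.R ⟨1,true,false,true,[0,0,1],[1,0,0,
  0,-1],[1,1,0,-1,0,0,0,1],(⟨0,[(31,0)]⟩,⟨0,[(30,0)]⟩),(⟨0,[(23,0)]⟩,⟨0,[(24,0)]⟩),⟨0,[(20,0)]⟩,.k,
  .k,.k,.k,(.r 0 ⟨11,[(1,1),(2,0),(4,1),(2,1),(1,4),(3,3),(2,0),(4,4)]⟩ ⟨3,[(10,1),(17,3),(10,0),(2,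
  5),(1,0)]⟩),.k,⟨true,(-1),⟨0,[(9,0)]⟩,⟨3,[(10,1),(17,3),(10,0),(2,5),(1,0)]⟩⟩,⟨false,0,⟨7,[(3,5),
  (0,1),(2,0),(1,1),(2,2),(1,1),(3,0)]⟩,⟨2,[(8,0),(12,0),(0,3),(5,1),(10,0)]⟩⟩,⟨true,0,⟨0,[(41,0)]⟩,
  ⟨0,[(42,0)]⟩⟩,⟨false,1,⟨43,[(3,17),(0,9),(5,17),(10,15),(10,1),(1,1),(3,2),(5,2)]⟩,⟨0,[(0,0)]⟩⟩,
  ⟨false,0,⟨0,[]⟩,⟨1,[(21,0),(0,0),(21,0)]⟩⟩,⟨true,0,⟨0,[(3,0)]⟩,⟨3,[(1,2),(15,1),(4,0),(3,0)]⟩⟩,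
  []⟩) (.R ⟨1,false,false,false,[1,0,-1],[0,0,0,0,1],[0,1,1],(⟨0,[(30,0)]⟩,⟨0,[(31,0)]⟩),(⟨0,[(24,
  0)]⟩,⟨0,[(23,0)]⟩),⟨0,[(19,0)]⟩,.k,.k,.k,.k,(.r (-2) ⟨41,[(1,4),(6,27),(1,33),(6,3),(3,4),(4,20),
  (1,13),(15,16)]⟩ ⟨1,[(11,1),(16,0),(0,0),(12,1)]⟩),.k,⟨true,0,⟨1,[(28,0),(0,0)]⟩,⟨0,[]⟩⟩,⟨false,1,
  ⟨5,[(8,3),(12,0),(0,6),(5,1),(10,0)]⟩,⟨15,[(0,8),(3,2),(6,5),(6,4),(2,3),(16,0)]⟩⟩,⟨true,(-1),⟨1,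
  [(11,1),(16,0),(0,0)]⟩,⟨4,[(3,0),(4,2),(1,1),(11,0),(5,1),(7,0),(5,0)]⟩⟩,⟨true,0,⟨1,[(1,0),(20,0),
  (3,0)]⟩,⟨0,[(0,0)]⟩⟩,⟨true,(-1),⟨1,[(11,1),(16,0),(0,0),(12,1)]⟩,⟨9,[(8,4),(1,4),(3,1),(13,4),(7,
  0),(4,0)]⟩⟩,⟨false,0,⟨1,[(1,1),(36,0),(3,1),(1,0)]⟩,⟨9,[(0,4),(3,2),(5,3),(6,2),(3,1),(17,0)]⟩⟩,
  [.o ⟨false,0,⟨1,[(1,0),(20,0),(4,0)]⟩,⟨10,[(0,1),(2,0),(0,4),(5,0),(10,2),(17,1)]⟩⟩,.a ⟨true,0,⟨0,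
  [(22,0)]⟩,⟨25,[(0,16),(2,1),(0,6),(6,3),(3,1),(10,7),(1,3),(3,0),(1,0),(3,2)]⟩⟩ ⟨true,0,⟨1,[(28,
  0),(0,0)]⟩,⟨0,[]⟩⟩ ⟨false,1,⟨5,[(8,3),(12,0),(0,6),(5,1),(10,0)]⟩,⟨15,[(0,8),(3,2),(6,5),(6,4),(2,
  3),(16,0)]⟩⟩,.o ⟨false,0,⟨0,[(13,0)]⟩,⟨2,[(8,0),(12,0),(0,0),(5,1),(10,0)]⟩⟩,.o ⟨false,0,⟨0,[(29,
  0)]⟩,⟨5,[(8,3),(12,0),(0,0),(5,1),(10,0)]⟩⟩]⟩))) (.Q [0,-2,0,0,1,0,-1,-1,-1,1,-1,-1] (.p false [0,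
  0,1] [1,0,0,0,-1] (⟨0,[(29,0)]⟩,⟨0,[(28,0)]⟩) .k 2 (⟨0,[(21,0)]⟩,⟨0,[(22,0)]⟩) .k (.r 1 ⟨0,[(9,
  0)]⟩ ⟨11,[(6,3),(1,5),(10,9),(0,9),(5,7),(10,0),(2,5),(1,2)]⟩)) (.R ⟨1,false,false,true,[1,0,0,0,
  -1],[0,-1,1],[],(⟨0,[(22,0)]⟩,⟨0,[(23,0)]⟩),(⟨0,[(19,0)]⟩,⟨64,[(0,2),(8,2),(11,2),(3,8),(3,64),(1,
  10),(4,17),(0,5),(3,2)]⟩),⟨0,[(1,0),(16,0)]⟩,.k,.k,(.r (-1) ⟨13,[(9,0),(5,6),(0,2),(8,1),(12,1),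
  (4,3)]⟩ ⟨1,[(27,0),(0,0),(12,1),(3,1)]⟩),(.r (-1) ⟨3,[(9,1),(17,3),(10,0),(2,5),(1,0)]⟩ ⟨11,[(8,
  1),(2,3),(1,3),(2,0),(0,2),(7,5),(12,1)]⟩),.k,.k,⟨true,1,⟨3,[(9,1),(17,3),(10,0),(2,5),(1,0)]⟩,⟨0,
  [(8,0)]⟩⟩,⟨false,1,⟨2,[(7,0),(12,0),(0,3),(5,1),(10,0)]⟩,⟨7,[(0,0),(1,5),(0,0),(4,1),(2,3),(1,1),
  (3,0)]⟩⟩,⟨true,0,⟨0,[(45,0)]⟩,⟨0,[]⟩⟩,⟨false,0,⟨12,[(7,2),(0,8),(7,1),(4,12),(3,3),(1,5),(10,5)]⟩,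
  ⟨0,[(0,0),(40,0)]⟩⟩,⟨false,0,⟨0,[(41,0)]⟩,⟨6,[(9,0),(6,2),(8,1),(12,1),(4,3)]⟩⟩,⟨false,0,⟨4,[(7,
  0),(2,2),(10,4),(3,1),(1,1),(10,1)]⟩,⟨0,[(0,0)]⟩⟩,[.o ⟨false,0,⟨12,[(7,2),(0,8),(7,1),(8,3),(1,5),
  (10,5)]⟩,⟨3,[(9,1),(28,0),(2,5),(1,0)]⟩⟩,.e ⟨false,1,⟨1,[(42,0),(0,0)]⟩,⟨0,[(45,0)]⟩⟩ ⟨false,1,⟨1,
  [(3,0),(9,0),(7,2),(3,0),(12,0)]⟩,⟨0,[(2,0)]⟩⟩,.a ⟨true,0,⟨67,[(2,48),(0,18),(4,6),(1,8),(2,7),(2,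
  12),(8,13),(1,15),(9,2)]⟩,⟨0,[(21,0)]⟩⟩ ⟨false,1,⟨1,[(20,0),(0,0),(21,0)]⟩,⟨0,[]⟩⟩ ⟨true,0,⟨12,
  [(7,2),(0,8),(7,1),(4,12),(3,3),(1,5),(10,5)]⟩,⟨0,[(2,0)]⟩⟩,.o ⟨false,0,⟨1,[(0,0),(1,0),(5,0),(1,
  0),(16,1),(10,0)]⟩,⟨1,[(21,1),(16,0),(3,0)]⟩⟩]⟩) (.R ⟨1,true,false,false,[0,0,1],[1,0,0,0,-1],[1,
  0,0,-1,0,0,0,1],(⟨0,[(30,0)]⟩,⟨0,[(29,0)]⟩),(⟨0,[(22,0)]⟩,⟨0,[(23,0)]⟩),⟨0,[(19,0)]⟩,.k,.k,.k,.k,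
  (.r 0 ⟨11,[(8,1),(2,3),(1,3),(2,0),(0,2),(7,5),(12,1)]⟩ ⟨3,[(9,1),(17,3),(10,0),(2,5),(1,0)]⟩),.k,
  ⟨true,(-1),⟨0,[(8,0)]⟩,⟨3,[(9,1),(17,3),(10,0),(2,5),(1,0)]⟩⟩,⟨false,0,⟨7,[(2,5),(0,1),(2,0),(1,
  1),(2,2),(1,1),(3,0)]⟩,⟨2,[(7,0),(12,0),(0,3),(5,1),(10,0)]⟩⟩,⟨false,1,⟨6,[(9,0),(6,2),(8,1),(12,
  1),(4,3)]⟩,⟨0,[(41,0)]⟩⟩,⟨true,1,⟨43,[(2,17),(0,9),(5,17),(10,15),(10,1),(1,1),(3,2),(5,2)]⟩,⟨0,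
  [(0,0)]⟩⟩,⟨true,0,⟨0,[]⟩,⟨0,[(45,0)]⟩⟩,⟨false,1,⟨0,[(2,0),(40,0)]⟩,⟨7,[(0,5),(15,3),(4,1),(3,1),
  (12,2),(4,2)]⟩⟩,[]⟩))) (.I [0,0,-2,-2,1,0,0,-1] (.Q [0,0,0,0,0,0,0,0,-1,1,0,-1] (.p false [0,0,0,
  0,1] [1] (⟨0,[(22,0)]⟩,⟨0,[(21,0)]⟩) .k 1 (⟨0,[]⟩,⟨0,[]⟩) .k .k) (.R ⟨0,false,false,false,[1,-1,
  -1],[0,0,0,0,1],[1,1],(⟨0,[(18,0)]⟩,⟨85,[(9,5),(15,11),(4,85),(0,13),(4,23),(0,8),(3,5),(1,2)]⟩),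
  (⟨0,[(23,0)]⟩,⟨0,[(22,0)]⟩),⟨2,[(5,1),(24,0),(0,0),(4,2)]⟩,.k,.k,(.r (-1) ⟨0,[(1,0)]⟩ ⟨2,[(3,0),
  (6,0),(10,0),(3,0),(1,1),(0,3),(12,5)]⟩),(.r (-2) ⟨2,[(1,0),(5,0),(1,0),(10,1),(0,1),(5,0),(15,
  0)]⟩ ⟨1,[(10,1),(16,0),(0,0),(12,1)]⟩),.k,.k,⟨true,0,⟨0,[]⟩,⟨1,[(27,0),(0,0)]⟩⟩,⟨false,1,⟨0,[(7,
  0),(13,0)]⟩,⟨0,[(0,0),(27,0)]⟩⟩,⟨true,(-1),⟨1,[(10,1),(16,0),(0,0),(12,1)]⟩,⟨30,[(1,9),(5,8),(1,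
  10),(15,0),(1,11),(7,4),(2,0)]⟩⟩,⟨false,0,⟨0,[(2,0),(38,1)]⟩,⟨2,[(0,1),(2,0),(0,1),(4,0),(28,
  0)]⟩⟩,⟨false,0,⟨0,[]⟩,⟨0,[]⟩⟩,⟨false,0,⟨0,[]⟩,⟨0,[]⟩⟩,[.o ⟨false,0,⟨0,[(2,0),(23,0),(14,0)]⟩,⟨4,
  [(0,2),(2,1),(5,0),(28,1),(2,0)]⟩⟩,.a ⟨true,0,⟨0,[(21,0)]⟩,⟨0,[(0,0)]⟩⟩ ⟨true,0,⟨0,[]⟩,⟨1,[(27,0),
  (0,0)]⟩⟩ ⟨false,1,⟨0,[(7,0),(13,0)]⟩,⟨0,[(0,0),(27,0)]⟩⟩,.o ⟨false,0,⟨0,[(28,0)]⟩,⟨5,[(7,3),(12,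
  0),(0,0),(5,1),(10,0)]⟩⟩,.o ⟨false,0,⟨1,[(27,0),(0,2)]⟩,⟨0,[(7,0)]⟩⟩]⟩) (.R ⟨1,false,false,true,
  [0,0,1],[1,0,0,0,-1],[0,0,0,0,0,0,0,1],(⟨0,[(30,0)]⟩,⟨0,[(29,0)]⟩),(⟨0,[(22,0)]⟩,⟨0,[(23,0)]⟩),⟨0,
  [(19,0)]⟩,.k,.k,.k,.k,(.r 0 ⟨10,[(2,0),(5,1),(2,2),(1,3),(3,2),(2,0),(4,4),(12,0)]⟩ ⟨3,[(9,1),(17,
  3),(10,0),(2,5),(1,0)]⟩),.k,⟨false,0,⟨0,[(11,0)]⟩,⟨7,[(7,1),(1,3),(10,0),(0,0),(5,5),(7,1),(2,0),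
  (2,3)]⟩⟩,⟨true,0,⟨13,[(3,13),(2,3),(3,8),(15,18),(1,0),(8,4),(6,2)]⟩,⟨0,[(0,0),(26,0)]⟩⟩,⟨false,1,
  ⟨1,[(20,0),(0,0),(21,0)]⟩,⟨0,[]⟩⟩,⟨false,1,⟨4,[(3,4),(0,1),(4,0),(16,5),(10,0),(3,2)]⟩,⟨0,[(2,0),
  (38,0)]⟩⟩,⟨true,0,⟨0,[(41,0)]⟩,⟨0,[(40,0)]⟩⟩,⟨false,1,⟨2,[(3,2),(5,0),(16,3),(10,0),(3,3)]⟩,⟨0,
  [(2,0)]⟩⟩,[.o ⟨false,1,⟨0,[(20,0)]⟩,⟨0,[(0,0)]⟩⟩,.o ⟨false,1,⟨0,[(3,0),(22,0)]⟩,⟨0,[(0,0),(44,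
  0)]⟩⟩,.o ⟨false,1,⟨2,[(7,0),(12,0),(0,0),(5,1),(10,0)]⟩,⟨0,[(12,0)]⟩⟩,.a ⟨true,0,⟨0,[(27,0)]⟩,⟨0,
  [(24,0)]⟩⟩ ⟨true,0,⟨0,[(11,0)]⟩,⟨0,[(26,0),(0,0)]⟩⟩ ⟨false,1,⟨1,[(3,0),(2,0),(13,0),(3,0)]⟩,⟨0,
  [(0,0),(26,0)]⟩⟩]⟩)) (.R ⟨0,false,false,true,[1,-1,-1],[0,0,1],[0,1,-1,-2,0,0,0,-1],(⟨0,[(17,0)]⟩,
  ⟨85,[(8,5),(15,11),(4,85),(0,13),(4,23),(0,8),(3,5),(1,2)]⟩),(⟨0,[(29,0)]⟩,⟨0,[(28,0)]⟩),⟨2,[(4,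
  1),(24,0),(0,0),(4,2)]⟩,.k,.k,(.x 1 ⟨9,[(0,7),(2,11),(0,8),(2,3),(18,1),(2,0),(0,1),(4,11),(6,1),
  (0,1)]⟩ ⟨5,[(4,1),(1,5),(10,7),(1,4),(0,4),(16,0)]⟩),(.r (-2) ⟨11,[(6,9),(1,11),(10,0),(0,0),(5,
  13),(7,5),(2,0)]⟩ ⟨8,[(0,6),(0,0),(0,0),(4,3),(2,4),(5,0),(25,0)]⟩),.k,.k,⟨false,2,⟨4,[(6,4),(1,
  4),(3,1),(13,4),(7,0),(4,0)]⟩,⟨0,[(0,0),(9,0)]⟩⟩,⟨true,1,⟨0,[(6,0),(19,0)]⟩,⟨0,[(0,0),(6,0),(0,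
  0)]⟩⟩,⟨true,0,⟨0,[(39,0)]⟩,⟨0,[(40,0)]⟩⟩,⟨false,0,⟨14,[(0,9),(0,4),(0,4),(3,11),(2,5),(14,3),(1,
  3),(9,0)]⟩,⟨0,[(8,0)]⟩⟩,⟨false,0,⟨0,[]⟩,⟨0,[]⟩⟩,⟨false,0,⟨0,[]⟩,⟨0,[]⟩⟩,[.o ⟨false,0,⟨4,[(6,0),(2,
  2),(14,1),(1,1),(10,1)]⟩,⟨3,[(8,1),(28,0),(2,1),(1,0)]⟩⟩,.a ⟨true,0,⟨95,[(1,23),(0,23),(3,4),(2,
  14),(14,32),(1,9),(3,0),(1,0),(3,13),(3,23)]⟩,⟨4,[(3,1),(4,0),(16,0),(10,0),(3,2)]⟩⟩ ⟨true,1,⟨9,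
  [(6,1),(1,4),(3,5),(1,0),(0,0),(10,7),(10,1)]⟩,⟨0,[(0,0)]⟩⟩ ⟨false,1,⟨95,[(1,23),(0,23),(3,100),
  (2,14),(14,32),(1,9),(3,0),(1,0),(3,13),(3,23)]⟩,⟨18,[(0,5),(2,3),(4,7),(7,2),(8,4),(1,6),(8,1),
  (7,2)]⟩⟩,.o ⟨false,0,⟨0,[(27,0)]⟩,⟨5,[(6,3),(12,0),(0,0),(5,1),(10,0)]⟩⟩,.o ⟨false,0,⟨1,[(26,0),
  (0,2)]⟩,⟨0,[(6,0)]⟩⟩]⟩))) (.Q [0,0,2,0,-1,0,-2,0,0,1,-2] (.p false [0,0,1] [1,0,-1] (⟨0,[(27,0)]⟩,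
  ⟨0,[(26,0)]⟩) .k 2 (⟨0,[(26,0)]⟩,⟨0,[(27,0)]⟩) .k (.r 1 ⟨0,[(7,1),(32,0)]⟩ ⟨3,[(4,1),(1,3),(10,0),
  (0,0),(5,5),(7,1),(2,0),(2,3)]⟩)) (.I [0,0,2,0,-1,2,-1] (.R ⟨0,false,false,false,[1,-1,-1],[0,0,
  1],[1],(⟨0,[(17,0)]⟩,⟨85,[(8,5),(15,11),(4,85),(0,13),(4,23),(0,8),(3,5),(1,2)]⟩),(⟨0,[(29,0)]⟩,
  ⟨0,[(28,0)]⟩),⟨3,[(0,1),(3,0),(1,1),(22,0),(5,1)]⟩,.k,.k,(.x 1 ⟨0,[(0,0)]⟩ ⟨5,[(4,1),(1,5),(10,7),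
  (1,4),(0,4),(16,0)]⟩),(.r (-2) ⟨11,[(6,9),(1,11),(10,0),(0,0),(5,13),(7,5),(2,0)]⟩ ⟨6,[(1,1),(7,
  12),(14,0),(1,2),(10,0),(2,6),(1,6)]⟩),.k,.k,⟨false,1,⟨14,[(6,8),(1,6),(16,0),(0,5),(7,2),(1,0),
  (3,6)]⟩,⟨9,[(1,1),(7,1),(0,3),(13,3),(12,0),(4,2)]⟩⟩,⟨true,1,⟨0,[(6,0),(19,0)]⟩,⟨0,[(1,0)]⟩⟩,
  ⟨false,0,⟨6,[(1,1),(7,5),(14,0),(1,2),(10,0),(2,6),(1,6)]⟩,⟨9,[(6,4),(1,4),(3,1),(13,4),(7,0),(4,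
  0)]⟩⟩,⟨true,0,⟨4,[(6,2),(2,8),(14,0),(1,5),(10,0),(2,4),(1,4)]⟩,⟨0,[(3,0),(21,0)]⟩⟩,⟨false,0,⟨0,
  []⟩,⟨0,[]⟩⟩,⟨false,0,⟨0,[]⟩,⟨0,[]⟩⟩,[.a ⟨true,0,⟨0,[(10,0),(15,0)]⟩,⟨4,[(3,1),(4,0),(16,0),(10,0),
  (3,2)]⟩⟩ ⟨true,0,⟨0,[]⟩,⟨1,[(26,0),(0,0)]⟩⟩ ⟨false,1,⟨0,[(6,0),(3,0),(15,0)]⟩,⟨5,[(1,2),(0,0),(5,
  2),(10,0),(4,0),(15,2)]⟩⟩,.o ⟨false,1,⟨4,[(6,0),(2,2),(14,1),(1,1),(10,1),(4,4)]⟩,⟨0,[(25,0)]⟩⟩,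
  .o ⟨false,0,⟨0,[(27,0)]⟩,⟨5,[(6,3),(12,0),(0,0),(5,1),(10,0)]⟩⟩,.o ⟨false,0,⟨1,[(26,0),(0,2)]⟩,⟨0,
  [(6,0)]⟩⟩]⟩) (.I [0,0,0,0,1,0,0,0,-1] (.I [0,1,1,0,0,0,0,-1] (.I [1,0,1,0,0,2,1] (.I [1,0,0,-1,0,
  1,-1,-1] (.I [1,0,2,0,-1,-1,-2] (.C [(0,3),(0,1),(0,3),(2,5),(8,1),(25,1),(0,0),(3,1),(1,0)]) (.C
  [(0,0),(5,0),(2,1),(30,0)])) (.C [(0,0),(6,0),(0,0),(30,0)])) (.C [(0,0),(19,0),(8,0),(8,0)]))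
  (.C [(0,0),(26,0),(0,0)])) (.C [(0,0),(19,0),(2,0)]))) (.Q [0,0,0,0,0,1,0,0,0,0,0,-1] (.ed true
  [1,-1,0,0,1] .k) (.Q [0,0,-1,0,0,0,0,0,1,-1,0,1] (.p true [0,0,0,0,1] [1] (⟨0,[(22,0)]⟩,⟨0,[(21,
  0)]⟩) .k 1 (⟨0,[]⟩,⟨0,[]⟩) .k .k) (.Q [0,-2,0,0,2,0,1,1,-1,-1,1,-1] (.p false [1,0,-1,0,1] [] (⟨0,
  [(23,0),(5,0)]⟩,⟨1,[(1,1),(3,0),(24,0)]⟩) .k 0 (⟨0,[]⟩,⟨0,[]⟩) .k (.r (-1) ⟨10,[(2,1),(6,1),(10,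
  6),(0,6),(4,6),(0,6),(7,2),(5,1)]⟩ ⟨0,[(10,0),(32,0)]⟩)) (.Q [0,-1,0,0,1,0,1,1,-1,0,1,-1] (.p
  false [1,0,-1,0,1] [1] (⟨0,[(24,0),(5,0)]⟩,⟨1,[(2,1),(3,0),(24,0)]⟩) .k 1 (⟨0,[]⟩,⟨0,[]⟩) .k (.r
  (-1) ⟨10,[(3,1),(6,1),(10,6),(0,6),(4,6),(0,6),(7,2),(5,1)]⟩ ⟨0,[(11,0),(32,0)]⟩)) (.S ⟨1,0,[],[1,
  0,0,0,-1],[0,-1],(⟨0,[(24,0)]⟩,⟨0,[(25,0)]⟩),⟨1,[(3,0),(3,0),(12,0),(3,0)]⟩,.k,(.r (-1) ⟨13,[(1,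
  1),(9,0),(5,6),(0,2),(4,1),(16,0),(4,0)]⟩ ⟨5,[(5,1),(16,1),(4,1),(1,2),(0,2),(12,5)]⟩),⟨false,1,
  ⟨1,[(22,0),(0,0),(21,0)]⟩,⟨0,[]⟩⟩,⟨true,0,⟨2,[(5,0),(16,0),(4,0)]⟩,⟨0,[]⟩⟩,⟨true,0,⟨0,[(43,0)]⟩,
  ⟨0,[(42,0)]⟩⟩,⟨false,0,⟨0,[(43,0)]⟩,⟨6,[(1,1),(9,0),(6,2),(4,1),(16,0),(4,0)]⟩⟩,[.o ⟨false,1,⟨0,
  [(22,0)]⟩,⟨1,[(2,1),(26,0),(0,0)]⟩⟩,.a ⟨true,1,⟨4,[(0,3),(5,1),(4,0),(10,0),(16,0),(3,2)]⟩,⟨2,[(2,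
  1),(2,0),(6,0),(16,0),(9,0),(6,0)]⟩⟩ ⟨true,1,⟨0,[(45,0)]⟩,⟨0,[(12,0),(15,0),(0,0)]⟩⟩ ⟨false,1,⟨1,
  [(44,0),(0,0)]⟩,⟨2,[(5,0),(16,0),(4,0)]⟩⟩,.o ⟨false,1,⟨0,[(22,0)]⟩,⟨1,[(2,1),(26,0),(0,0)]⟩⟩,.o
  ⟨false,1,⟨1,[(22,1),(6,0),(0,0)]⟩,⟨0,[(2,0)]⟩⟩]⟩) (.S ⟨1,0,[0,-1,0,0,0,0,0,1],[0,0,1,0,-1],[1,0,0,
  -1,0,0,0,1],(⟨1,[(3,1),(3,0),(24,0)]⟩,⟨0,[(25,0),(5,0)]⟩),⟨0,[(3,0),(3,0)]⟩,.k,(.r (-1) ⟨8,[(1,3),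
  (8,1),(2,2),(3,2),(0,1),(0,1),(3,3)]⟩ ⟨0,[(28,0),(0,0),(13,0)]⟩),⟨true,0,⟨0,[(42,0)]⟩,⟨0,[(43,
  0)]⟩⟩,⟨false,1,⟨1,[(22,0),(0,0),(21,0)]⟩,⟨0,[]⟩⟩,⟨false,0,⟨0,[]⟩,⟨1,[(22,0),(0,0),(21,0)]⟩⟩,⟨true,
  0,⟨0,[(43,0)]⟩,⟨0,[(42,0)]⟩⟩,[.o ⟨false,2,⟨5,[(1,3),(20,2),(0,0),(3,1),(12,0)]⟩,⟨0,[(0,0)]⟩⟩,.o
  ⟨false,2,⟨0,[(1,0)]⟩,⟨0,[(5,0)]⟩⟩,.o ⟨false,2,⟨7,[(4,1),(17,10),(0,2),(5,3),(10,2)]⟩,⟨0,[(0,0),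
  (11,0),(32,0)]⟩⟩,.a ⟨true,1,⟨0,[(22,0),(6,0)]⟩,⟨1,[(0,1),(12,1),(25,0),(5,0)]⟩⟩ ⟨true,0,⟨17,[(1,
  1),(8,9),(2,5),(3,5),(0,0),(0,0),(3,1)]⟩,⟨0,[(28,0),(0,0),(13,0)]⟩⟩ ⟨false,1,⟨0,[(13,0),(31,0)]⟩,
  ⟨0,[(28,0),(0,0)]⟩⟩]⟩)) (.R ⟨0,false,false,true,[0,0,0,0,1],[0,0,1],[1,0,1],(⟨0,[(24,0)]⟩,⟨0,[(23,
  0)]⟩),(⟨0,[(31,0)]⟩,⟨0,[(30,0)]⟩),⟨0,[(2,0)]⟩,.k,.k,(.r 0 ⟨0,[(40,0)]⟩ ⟨1,[(21,0),(0,0),(5,0),(0,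
  0),(12,1),(1,0)]⟩),.k,.k,.k,⟨true,1,⟨3,[(10,1),(17,3),(10,0),(2,1),(1,0)]⟩,⟨0,[(11,0)]⟩⟩,⟨false,2,
  ⟨0,[(21,0),(6,0),(14,0)]⟩,⟨1,[(0,1),(10,1),(27,0),(4,2)]⟩⟩,⟨false,1,⟨1,[(28,0),(0,0),(14,1)]⟩,⟨4,
  [(3,0),(3,0),(3,0),(24,1)]⟩⟩,⟨true,1,⟨13,[(3,1),(7,7),(9,13),(4,5),(1,3),(9,0),(5,6)]⟩,⟨1,[(0,1),
  (38,0),(4,0)]⟩⟩,⟨false,0,⟨0,[]⟩,⟨0,[]⟩⟩,⟨false,0,⟨0,[]⟩,⟨0,[]⟩⟩,[.o ⟨false,0,⟨6,[(3,0),(7,3),(14,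
  2),(1,1),(10,2)]⟩,⟨3,[(10,1),(28,0),(2,1),(1,0)]⟩⟩,.e ⟨false,1,⟨1,[(21,0),(0,0),(21,0)]⟩,⟨4,[(3,
  0),(3,0),(3,0),(24,1)]⟩⟩ ⟨false,1,⟨4,[(3,1),(7,2),(0,0),(8,4),(4,0),(11,0),(5,1)]⟩,⟨0,[(4,0),(39,
  0)]⟩⟩,.o ⟨false,0,⟨1,[(1,1),(26,0),(0,0)]⟩,⟨0,[(21,0)]⟩⟩,.a ⟨true,(-1),⟨1,[(0,1),(10,1),(16,1),
  (10,0),(4,2)]⟩,⟨21,[(15,1),(0,1),(4,21),(10,3),(1,3),(3,8),(3,3),(0,6)]⟩⟩ ⟨true,0,⟨0,[]⟩,⟨2,[(4,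
  0),(16,0),(4,0)]⟩⟩ ⟨false,1,⟨4,[(3,1),(7,2),(0,0),(8,4),(4,0),(11,0),(5,1)]⟩,⟨1,[(0,1),(27,0),(0,
  0),(9,0),(4,2)]⟩⟩]⟩)) (.Q [0,-1,0,0,1,0,-1,-1,-1,1,-1,-1] (.p false [0,0,1,0,1] [1] (⟨0,[(23,0),
  (6,0)]⟩,⟨0,[(1,0),(16,0)]⟩) .k 1 (⟨0,[]⟩,⟨0,[]⟩) .k (.r 1 ⟨0,[(10,0)]⟩ ⟨7,[(2,1),(6,3),(10,6),(0,
  6),(5,3),(10,0),(2,3),(1,1)]⟩)) (.R ⟨0,false,false,true,[1,-1,-1],[0,0,1,0,1],[1,2,0,0,0,0,0,1],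
  (⟨0,[(19,0)]⟩,⟨10,[(0,0),(21,0),(3,0),(4,10),(0,1),(4,2),(0,0)]⟩),(⟨0,[(24,0),(6,0)]⟩,⟨0,[(2,0),
  (16,0)]⟩),⟨2,[(6,1),(24,0),(0,0),(4,2)]⟩,.k,.k,(.r (-1) ⟨3,[(3,1),(1,3),(8,1),(24,0),(4,0)]⟩ ⟨3,
  [(11,1),(14,1),(1,2),(0,4),(12,7),(1,1)]⟩),(.r (-2) ⟨7,[(3,5),(6,7),(10,0),(0,0),(5,3),(10,0)]⟩
  ⟨3,[(11,5),(14,1),(1,0),(0,2),(12,3),(1,1)]⟩),.k,.k,⟨true,0,⟨0,[]⟩,⟨1,[(28,0),(0,0)]⟩⟩,⟨false,1,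
  ⟨0,[(3,0),(18,0)]⟩,⟨0,[(0,0),(10,0),(17,0)]⟩⟩,⟨true,(-2),⟨1,[(11,3),(16,0),(0,0),(12,1)]⟩,⟨7,[(3,
  5),(6,7),(10,0),(0,0),(5,3),(10,0)]⟩⟩,⟨false,(-1),⟨5,[(3,3),(0,3),(6,15),(10,1),(5,7),(10,0),(2,
  5),(1,8)]⟩,⟨1,[(0,1),(4,1),(33,0),(4,0)]⟩⟩,⟨false,0,⟨0,[]⟩,⟨0,[]⟩⟩,⟨false,0,⟨0,[]⟩,⟨0,[]⟩⟩,[.o
  ⟨false,(-1),⟨2,[(3,0),(0,0),(6,3),(10,1),(5,1),(10,0)]⟩,⟨1,[(0,1),(38,0),(4,0)]⟩⟩,.a ⟨true,(-1),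
  ⟨5,[(3,1),(0,1),(6,7),(10,3),(5,3),(9,0),(5,2)]⟩,⟨0,[(0,0)]⟩⟩ ⟨true,(-1),⟨0,[(11,0)]⟩,⟨3,[(10,1),
  (17,3),(10,0),(2,1),(1,0)]⟩⟩ ⟨false,0,⟨0,[(3,0),(7,0),(10,0)]⟩,⟨0,[(0,0),(28,0)]⟩⟩,.o ⟨false,0,⟨0,
  [(29,0)]⟩,⟨3,[(3,1),(17,0),(0,0),(16,0)]⟩⟩,.o ⟨false,0,⟨1,[(28,0),(0,2)]⟩,⟨0,[(8,0)]⟩⟩]⟩) (.S ⟨1,
  0,[0,-1],[1,0,0,0,-1],[1,0,0,-1],(⟨0,[(23,0)]⟩,⟨0,[(24,0)]⟩),⟨1,[(2,0),(3,0),(12,0),(3,0)]⟩,.k,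
  (.r (-1) ⟨13,[(10,0),(5,6),(0,2),(8,1),(12,1),(4,3)]⟩ ⟨5,[(4,1),(16,1),(4,1),(1,2),(0,2),(12,
  5)]⟩),⟨true,0,⟨0,[(41,0)]⟩,⟨0,[(42,0)]⟩⟩,⟨false,1,⟨1,[(21,0),(0,0),(21,0)]⟩,⟨0,[]⟩⟩,⟨false,0,⟨0,
  []⟩,⟨1,[(21,0),(0,0),(21,0)]⟩⟩,⟨true,0,⟨0,[(42,0)]⟩,⟨0,[(41,0)]⟩⟩,[.e ⟨false,1,⟨3,[(10,0),(5,0),
  (0,0),(8,1),(12,0),(3,0)]⟩,⟨0,[(42,0)]⟩⟩ ⟨false,1,⟨1,[(43,0),(0,0)]⟩,⟨2,[(4,0),(16,0),(4,0)]⟩⟩,.o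
  ⟨false,2,⟨0,[(21,0),(22,0)]⟩,⟨0,[(0,0),(26,0)]⟩⟩,.o ⟨false,1,⟨0,[(21,0)]⟩,⟨3,[(0,1),(3,1),(34,0),
  (4,2)]⟩⟩,.a ⟨true,0,⟨0,[(1,0)]⟩,⟨11,[(0,3),(2,1),(3,3),(8,1),(5,7),(15,0),(3,1),(1,0)]⟩⟩ ⟨false,1,
  ⟨13,[(10,0),(5,6),(0,2),(8,1),(12,1),(4,3)]⟩,⟨1,[(28,0),(0,0),(12,1)]⟩⟩ ⟨true,1,⟨1,[(43,0),(0,
  0)]⟩,⟨0,[(0,0),(0,0),(25,0)]⟩⟩]⟩))) (.Q [0,0,0,-1,0,0,0,0,1,-1,0,1] (.p true [0,0,0,0,1] [1] (⟨0,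
  [(22,0)]⟩,⟨0,[(21,0)]⟩) .k 1 (⟨0,[]⟩,⟨0,[]⟩) .k .k) (.Q [0,0,-1,0,0,0,0,0,1,-1,0,1] (.p true [0,0,
  0,0,1] [1] (⟨0,[(23,0)]⟩,⟨0,[(22,0)]⟩) .k 1 (⟨0,[]⟩,⟨0,[]⟩) .k .k) (.Q [0,0,0,0,0,-1,0,0,0,1,0,
  -1] (.ed true [0,1,0,0,1] .k) (.Q [0,-1,0,0,1,0,0,0,-1,1,0,-1] (.p false [0,0,0,0,1] [1] (⟨0,[(25,
  0)]⟩,⟨0,[(24,0)]⟩) .k 1 (⟨0,[]⟩,⟨0,[]⟩) .k .k) (.S ⟨1,0,[],[1,0,0,0,-1],[0,-1],(⟨0,[(25,0)]⟩,⟨0,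
  [(26,0)]⟩),⟨0,[(1,0)]⟩,.k,(.r (-1) ⟨13,[(12,0),(5,6),(0,2),(8,1),(12,1),(4,3)]⟩ ⟨5,[(6,1),(16,1),
  (4,1),(1,2),(0,2),(12,5)]⟩),⟨false,1,⟨1,[(23,0),(0,0),(21,0)]⟩,⟨0,[]⟩⟩,⟨true,0,⟨2,[(6,0),(16,0),
  (4,0)]⟩,⟨0,[]⟩⟩,⟨true,0,⟨0,[(44,0)]⟩,⟨0,[(43,0)]⟩⟩,⟨false,0,⟨0,[(44,0)]⟩,⟨6,[(12,0),(6,2),(8,1),
  (12,1),(4,3)]⟩⟩,[.o ⟨false,1,⟨0,[(23,0)]⟩,⟨0,[(3,0),(40,0)]⟩⟩,.a ⟨true,1,⟨0,[(0,0)]⟩,⟨2,[(2,1),(3,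
  0),(6,0),(16,0),(9,0),(6,0)]⟩⟩ ⟨true,1,⟨0,[(46,0)]⟩,⟨0,[(13,0),(15,0),(0,0)]⟩⟩ ⟨false,1,⟨1,[(45,
  0),(0,0)]⟩,⟨2,[(6,0),(16,0),(4,0)]⟩⟩,.o ⟨false,1,⟨0,[(23,0)]⟩,⟨0,[(3,0),(40,0)]⟩⟩,.o ⟨false,1,⟨1,
  [(23,1),(6,0),(0,0)]⟩,⟨0,[(2,0)]⟩⟩]⟩) (.S ⟨1,0,[0,1],[0,0,0,0,1],[0,2],(⟨0,[(26,0)]⟩,⟨0,[(25,
  0)]⟩),⟨0,[(4,0)]⟩,.k,(.r 0 ⟨0,[(42,0)]⟩ ⟨1,[(23,0),(0,0),(5,0),(0,0),(12,1),(1,0)]⟩),⟨true,0,⟨2,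
  [(6,0),(16,0),(4,0)]⟩,⟨0,[]⟩⟩,⟨false,1,⟨1,[(23,0),(0,0),(21,0)]⟩,⟨0,[]⟩⟩,⟨false,0,⟨0,[(44,0)]⟩,⟨6,
  [(12,0),(6,2),(8,1),(12,1),(4,3)]⟩⟩,⟨true,0,⟨0,[(44,0)]⟩,⟨0,[(43,0)]⟩⟩,[.o ⟨false,(-1),⟨0,[(0,
  0)]⟩,⟨1,[(23,2),(0,0),(21,0)]⟩⟩,.o ⟨false,0,⟨3,[(0,1),(23,1),(16,0),(4,0)]⟩,⟨0,[(23,0)]⟩⟩,.o
  ⟨false,0,⟨3,[(0,1),(23,1),(16,0),(4,0)]⟩,⟨0,[(23,0)]⟩⟩,.a ⟨true,(-1),⟨3,[(0,3),(29,0),(0,0),(8,1),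
  (5,1),(0,1)]⟩,⟨21,[(17,1),(0,1),(4,21),(10,3),(1,3),(3,8),(3,3),(0,6)]⟩⟩ ⟨false,0,⟨4,[(5,0),(3,0),
  (3,0),(24,1)]⟩,⟨1,[(30,0),(0,0),(14,1)]⟩⟩ ⟨true,0,⟨4,[(5,0),(3,0),(3,0),(24,1)]⟩,⟨1,[(30,0),(0,
  0)]⟩⟩]⟩)) (.R ⟨0,false,false,true,[1,0,0,0,-1],[2,0,-1,0,-1],[0,0,1,0,0,0,0,-1],(⟨0,[(24,0)]⟩,⟨0,
  [(25,0)]⟩),(⟨0,[(24,0),(6,0)]⟩,⟨1,[(0,1),(6,0),(24,0)]⟩),⟨0,[(0,0)]⟩,.k,.k,(.r (-1) ⟨13,[(11,0),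
  (5,6),(0,2),(8,1),(12,1),(4,3)]⟩ ⟨5,[(5,1),(16,1),(4,1),(1,2),(0,2),(12,5)]⟩),.k,.k,.k,⟨true,0,⟨1,
  [(29,0),(0,0)]⟩,⟨0,[]⟩⟩,⟨false,0,⟨0,[(26,0)]⟩,⟨7,[(4,1),(17,2),(0,2),(5,3),(10,2)]⟩⟩,⟨true,0,⟨0,
  [(28,0),(0,0)]⟩,⟨0,[(13,0)]⟩⟩,⟨false,0,⟨4,[(6,1),(4,0),(16,0),(10,0),(3,2)]⟩,⟨6,[(4,0),(7,3),(14,
  2),(1,1),(10,2),(4,6)]⟩⟩,⟨false,0,⟨0,[]⟩,⟨0,[]⟩⟩,⟨false,0,⟨0,[]⟩,⟨0,[]⟩⟩,[.o ⟨false,1,⟨4,[(6,1),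
  (4,0),(10,4),(5,0),(10,0),(3,2)]⟩,⟨1,[(1,1),(10,1),(16,1),(10,0),(4,0)]⟩⟩,.a ⟨true,1,⟨1,[(6,1),
  (15,1),(16,0),(3,1),(1,0)]⟩,⟨0,[(1,0),(10,0),(16,0)]⟩⟩ ⟨true,1,⟨3,[(11,1),(17,3),(10,0),(2,1),(1,
  0)]⟩,⟨0,[(12,0)]⟩⟩ ⟨false,1,⟨3,[(11,1),(27,0),(3,1),(0,1),(0,0)]⟩,⟨6,[(4,0),(7,3),(14,2),(1,1),
  (10,2)]⟩⟩,.o ⟨false,1,⟨0,[(22,0)]⟩,⟨0,[(2,0),(40,0)]⟩⟩,.o ⟨false,1,⟨1,[(22,1),(6,0),(0,0)]⟩,⟨0,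
  [(1,0)]⟩⟩]⟩)) (.Q [0,0,0,0,0,1,0,0,0,-1,0,1] (.ed false [0,1,0,0,1] .k) (.R ⟨0,false,false,false,
  [1,0,0,0,-1],[1,0,1,0,-1],[1,0,1],(⟨0,[(24,0)]⟩,⟨0,[(25,0)]⟩),(⟨0,[(24,0),(7,0)]⟩,⟨0,[(0,0),(19,
  0)]⟩),⟨0,[(0,0)]⟩,.k,.k,(.r (-1) ⟨13,[(11,0),(5,6),(0,2),(8,1),(12,1),(4,3)]⟩ ⟨5,[(5,1),(16,1),(4,
  1),(1,2),(0,2),(12,5)]⟩),.k,.k,.k,⟨true,0,⟨0,[(28,0),(0,0)]⟩,⟨0,[(12,0),(32,0)]⟩⟩,⟨false,1,⟨0,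
  [(29,0),(14,0)]⟩,⟨0,[(14,0)]⟩⟩,⟨false,0,⟨1,[(29,0),(0,0)]⟩,⟨1,[(44,0),(0,0)]⟩⟩,⟨true,0,⟨13,[(4,1),
  (7,7),(14,5),(1,3),(9,0),(5,6)]⟩,⟨0,[(28,0)]⟩⟩,⟨false,0,⟨0,[]⟩,⟨0,[]⟩⟩,⟨false,0,⟨0,[]⟩,⟨0,[]⟩⟩,
  [.o ⟨false,1,⟨4,[(1,3),(2,1),(7,3),(9,0),(4,0),(12,0),(4,4)]⟩,⟨1,[(5,1),(34,0),(4,0)]⟩⟩,.e ⟨false,
  1,⟨1,[(22,0),(0,0),(21,0)]⟩,⟨4,[(4,0),(3,0),(3,0),(24,1)]⟩⟩ ⟨false,1,⟨4,[(4,1),(7,2),(0,0),(13,0),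
  (11,0),(5,6)]⟩,⟨0,[(5,0),(16,0)]⟩⟩,.o ⟨false,1,⟨0,[(22,0)]⟩,⟨0,[(2,0),(40,0)]⟩⟩,.a ⟨true,0,⟨0,[(1,
  0)]⟩,⟨3,[(2,1),(1,0),(3,0),(4,0),(9,1),(15,0),(3,1)]⟩⟩ ⟨true,0,⟨0,[]⟩,⟨2,[(5,0),(16,0),(4,0)]⟩⟩
  ⟨false,1,⟨4,[(4,1),(7,2),(0,0),(13,0),(11,0),(5,6)]⟩,⟨1,[(28,1),(0,0),(0,0)]⟩⟩]⟩) (.Q [0,1,0,0,-1,
  0,0,0,1,0,0,1] (.p true [0,0,0,0,1] [] (⟨0,[(25,0)]⟩,⟨0,[(24,0)]⟩) .k 0 (⟨0,[]⟩,⟨0,[]⟩) .k .k)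
  (.Q [0,1,0,0,-1,0,1,1,1,-1,1,1] (.p true [0,0,1] [1,0,0,0,-1] (⟨0,[(33,0)]⟩,⟨0,[(32,0)]⟩) .k 2
  (⟨0,[(25,0)]⟩,⟨0,[(26,0)]⟩) .k (.r 1 ⟨0,[(13,0)]⟩ ⟨7,[(5,1),(6,3),(10,6),(0,6),(5,3),(10,0),(2,3),
  (1,1)]⟩)) (.S ⟨1,0,[0,-1],[1,0,0,0,-1],[1,0,0,-1],(⟨0,[(26,0)]⟩,⟨0,[(27,0)]⟩),⟨0,[(2,0)]⟩,.k,(.r
  (-1) ⟨13,[(13,0),(5,6),(0,2),(8,1),(12,1),(4,3)]⟩ ⟨5,[(7,1),(16,1),(4,1),(1,2),(0,2),(12,5)]⟩),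
  ⟨true,0,⟨0,[(44,0)]⟩,⟨0,[(45,0)]⟩⟩,⟨false,1,⟨1,[(24,0),(0,0),(21,0)]⟩,⟨0,[]⟩⟩,⟨false,0,⟨0,[]⟩,⟨1,
  [(24,0),(0,0),(21,0)]⟩⟩,⟨true,0,⟨0,[(45,0)]⟩,⟨0,[(44,0)]⟩⟩,[.e ⟨false,1,⟨3,[(13,0),(5,0),(0,0),(8,
  1),(12,0),(3,0)]⟩,⟨0,[(45,0)]⟩⟩ ⟨false,1,⟨1,[(46,0),(0,0)]⟩,⟨2,[(7,0),(16,0),(4,0)]⟩⟩,.o ⟨false,2,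
  ⟨0,[(24,0),(22,0)]⟩,⟨0,[(0,0),(29,0)]⟩⟩,.o ⟨false,1,⟨0,[(24,0)]⟩,⟨0,[(4,0),(40,0)]⟩⟩,.a ⟨true,0,
  ⟨0,[(3,0)]⟩,⟨11,[(0,3),(5,1),(3,3),(8,1),(5,7),(15,0),(3,1),(1,0)]⟩⟩ ⟨false,1,⟨13,[(13,0),(5,6),
  (0,2),(8,1),(12,1),(4,3)]⟩,⟨1,[(31,0),(0,0),(12,1)]⟩⟩ ⟨true,1,⟨1,[(46,0),(0,0)]⟩,⟨0,[(14,0),(15,
  0),(0,0)]⟩⟩]⟩) (.R ⟨1,false,false,false,[1,0,0,0,-1],[0,-1,1],[1,0,0,-1],(⟨0,[(26,0)]⟩,⟨0,[(27,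
  0)]⟩),(⟨0,[(23,0)]⟩,⟨10,[(0,0),(24,0),(3,0),(3,10),(1,1),(4,2),(0,0)]⟩),⟨0,[(2,0)]⟩,.k,.k,(.r
  (-1) ⟨13,[(13,0),(5,6),(0,2),(8,1),(12,1),(4,3)]⟩ ⟨5,[(7,1),(16,1),(4,1),(1,2),(0,2),(12,5)]⟩),
  (.r (-1) ⟨3,[(13,1),(17,3),(10,0),(2,5),(1,0)]⟩ ⟨11,[(12,1),(2,3),(1,3),(2,0),(0,2),(7,5),(12,
  1)]⟩),.k,.k,⟨false,1,⟨23,[(6,5),(6,7),(10,8),(0,8),(4,7),(0,11),(10,0),(2,7)]⟩,⟨0,[(15,0)]⟩⟩,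
  ⟨true,0,⟨0,[(4,0),(26,0),(13,0)]⟩,⟨0,[(0,0),(13,0)]⟩⟩,⟨true,0,⟨0,[(44,0)]⟩,⟨0,[(45,0)]⟩⟩,⟨false,0,
  ⟨13,[(4,13),(1,1),(7,7),(14,5),(1,3),(9,0),(5,6)]⟩,⟨0,[(0,0),(44,0)]⟩⟩,⟨false,0,⟨0,[]⟩,⟨1,[(24,0),
  (0,0),(21,0)]⟩⟩,⟨false,0,⟨3,[(4,0),(1,0),(7,3),(10,2),(5,1),(10,0),(2,0),(1,1)]⟩,⟨0,[(0,0)]⟩⟩,[.e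
  ⟨false,1,⟨3,[(13,0),(5,0),(0,0),(8,1),(12,0),(3,0)]⟩,⟨0,[(45,0)]⟩⟩ ⟨false,0,⟨4,[(4,4),(1,1),(7,2),
  (0,0),(13,0),(11,0),(5,1)]⟩,⟨2,[(0,2),(6,0),(16,0),(4,0),(15,2)]⟩⟩,.o ⟨false,1,⟨5,[(6,0),(5,3),(7,
  0),(8,1),(1,1),(10,2),(4,5)]⟩,⟨0,[(30,0),(14,0)]⟩⟩,.o ⟨false,1,⟨0,[(24,0)]⟩,⟨0,[(4,0),(40,0)]⟩⟩,
  .a ⟨true,0,⟨0,[(3,0)]⟩,⟨1,[(1,0),(17,0),(5,0),(19,0)]⟩⟩ ⟨false,1,⟨13,[(13,0),(5,6),(0,2),(8,1),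
  (12,1),(4,3)]⟩,⟨1,[(31,0),(0,0),(12,1)]⟩⟩ ⟨true,0,⟨4,[(4,4),(1,1),(7,2),(0,0),(13,0),(11,0),(5,
  1)]⟩,⟨0,[(3,0),(26,0),(14,0)]⟩⟩]⟩)) (.S ⟨1,0,[],[1,0,0,0,-1],[1,-1,0,-1],(⟨0,[(25,0)]⟩,⟨0,[(26,
  0)]⟩),⟨0,[(1,0)]⟩,.k,(.r (-1) ⟨13,[(12,0),(5,6),(0,2),(8,1),(12,1),(4,3)]⟩ ⟨5,[(6,1),(16,1),(4,1),
  (1,2),(0,2),(12,5)]⟩),⟨false,1,⟨6,[(12,0),(6,2),(8,1),(12,1),(4,3)]⟩,⟨0,[(44,0)]⟩⟩,⟨true,0,⟨2,[(6,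
  0),(16,0),(4,0)]⟩,⟨0,[]⟩⟩,⟨true,0,⟨0,[]⟩,⟨2,[(6,0),(16,0),(4,0)]⟩⟩,⟨false,0,⟨0,[(44,0)]⟩,⟨6,[(12,
  0),(6,2),(8,1),(12,1),(4,3)]⟩⟩,[.o ⟨false,1,⟨0,[(23,0)]⟩,⟨0,[(3,0),(40,0)]⟩⟩,.o ⟨false,1,⟨0,[(0,
  0)]⟩,⟨20,[(5,0),(0,6),(6,3),(10,13),(3,2),(1,1),(10,9)]⟩⟩,.o ⟨false,1,⟨0,[(23,0)]⟩,⟨0,[(3,0),(40,
  0)]⟩⟩,.a ⟨true,0,⟨0,[(2,0)]⟩,⟨3,[(3,1),(1,0),(3,0),(4,0),(9,1),(15,0),(3,1)]⟩⟩ ⟨true,1,⟨13,[(12,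
  0),(5,6),(0,2),(8,1),(12,1),(4,3)]⟩,⟨0,[(13,0),(15,0),(0,0),(13,0)]⟩⟩ ⟨false,1,⟨1,[(45,0),(0,0)]⟩,
  ⟨1,[(30,0),(0,0)]⟩⟩]⟩)))) (.Q [0,-2,0,0,1,0,0,0,-1,1,0,-1] (.p false [0,0,0,0,1] [1] (⟨0,[(23,
  0)]⟩,⟨0,[(22,0)]⟩) .k 1 (⟨0,[]⟩,⟨0,[]⟩) .k .k) (.Q [0,-1,0,-1,1,0,-1,-1,-1,1,-1,-1] (.p false [0,
  0,1] [1,0,0,0,-1] (⟨0,[(31,0)]⟩,⟨0,[(30,0)]⟩) .k 2 (⟨0,[(23,0)]⟩,⟨0,[(24,0)]⟩) .k (.r 1 ⟨0,[(11,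
  0)]⟩ ⟨7,[(3,1),(6,3),(10,6),(0,6),(5,3),(10,0),(2,3),(1,1)]⟩)) (.Q [0,-1,0,0,1,0,0,0,-1,0,0,-1]
  (.p false [0,0,0,0,1] [] (⟨0,[(25,0)]⟩,⟨0,[(24,0)]⟩) .k 0 (⟨0,[]⟩,⟨0,[]⟩) .k .k) (.R ⟨0,false,
  false,true,[1,-1,-1],[0,0,0,0,1],[1],(⟨0,[(21,0)]⟩,⟨118,[(2,2),(0,5),(8,5),(11,8),(3,11),(4,118),
  (0,19),(4,32),(0,8)]⟩),(⟨0,[(26,0)]⟩,⟨0,[(25,0)]⟩),⟨2,[(8,1),(24,0),(0,0),(4,2)]⟩,.k,.k,(.r (-1)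
  ⟨3,[(5,1),(1,3),(8,1),(24,0),(4,0)]⟩ ⟨3,[(13,1),(14,1),(1,2),(0,4),(12,7),(1,1)]⟩),(.r (-2) ⟨13,
  [(5,6),(6,11),(6,0),(8,9),(12,2),(4,5)]⟩ ⟨1,[(13,1),(16,0),(0,0),(12,1)]⟩),.k,.k,⟨true,1,⟨0,[(46,
  0)]⟩,⟨0,[(13,0),(15,0),(0,0)]⟩⟩,⟨false,1,⟨0,[(10,0),(13,0)]⟩,⟨5,[(1,1),(1,3),(7,1),(18,0),(0,
  4)]⟩⟩,⟨false,0,⟨1,[(13,1),(16,0),(0,0),(12,1),(1,1)]⟩,⟨1,[(5,0),(6,0),(30,0)]⟩⟩,⟨true,(-1),⟨2,[(5,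
  0),(0,0),(6,3),(10,1),(5,1),(10,0),(2,2)]⟩,⟨0,[(1,0)]⟩⟩,⟨false,0,⟨0,[]⟩,⟨0,[]⟩⟩,⟨false,0,⟨0,[]⟩,
  ⟨0,[]⟩⟩,[.a ⟨true,(-1),⟨20,[(5,1),(0,13),(6,7),(10,6),(3,5),(1,3),(9,0)]⟩,⟨0,[(2,0)]⟩⟩ ⟨true,0,⟨0,
  []⟩,⟨1,[(30,0),(0,0)]⟩⟩ ⟨false,0,⟨2,[(5,0),(0,1),(3,1),(2,0),(10,0),(3,0)]⟩,⟨0,[(2,0),(28,0)]⟩⟩,
  .o ⟨false,0,⟨20,[(5,0),(0,6),(6,3),(10,13),(3,2),(1,1),(10,9)]⟩,⟨0,[(0,0)]⟩⟩,.o ⟨false,0,⟨0,[(31,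
  0)]⟩,⟨3,[(5,1),(17,0),(0,0),(16,0)]⟩⟩,.o ⟨false,0,⟨1,[(30,0),(0,2)]⟩,⟨0,[(10,0)]⟩⟩]⟩) (.R ⟨0,
  false,false,true,[1,-1,-1],[0,0,0,0,1],[1],(⟨0,[(21,0)]⟩,⟨118,[(2,2),(0,5),(8,5),(11,8),(3,11),(4,
  118),(0,19),(4,32),(0,8)]⟩),(⟨0,[(26,0)]⟩,⟨0,[(25,0)]⟩),⟨2,[(8,1),(24,0),(0,0),(4,2)]⟩,.k,.k,(.r
  (-1) ⟨3,[(5,1),(1,3),(8,1),(24,0),(4,0)]⟩ ⟨3,[(13,1),(14,1),(1,2),(0,4),(12,7),(1,1)]⟩),(.r (-2)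
  ⟨13,[(5,6),(6,11),(6,0),(8,9),(12,2),(4,5)]⟩ ⟨1,[(13,1),(16,0),(0,0),(12,1)]⟩),.k,.k,⟨true,1,⟨0,
  [(46,0)]⟩,⟨0,[(13,0),(15,0),(0,0)]⟩⟩,⟨false,1,⟨0,[(10,0),(13,0)]⟩,⟨5,[(1,1),(1,3),(7,1),(18,0),(0,
  4)]⟩⟩,⟨false,0,⟨1,[(13,1),(16,0),(0,0),(12,1),(1,1)]⟩,⟨1,[(5,0),(6,0),(30,0)]⟩⟩,⟨true,(-1),⟨6,[(0,
  6),(4,0),(7,3),(14,2),(1,1),(10,2),(2,6)]⟩,⟨0,[(1,0)]⟩⟩,⟨false,0,⟨0,[]⟩,⟨0,[]⟩⟩,⟨false,0,⟨0,[]⟩,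
  ⟨0,[]⟩⟩,[.a ⟨true,(-1),⟨1,[(0,0),(5,0),(21,0)]⟩,⟨0,[(2,0)]⟩⟩ ⟨true,0,⟨0,[]⟩,⟨1,[(30,0),(0,0)]⟩⟩
  ⟨false,0,⟨6,[(0,5),(4,1),(4,2),(13,0),(13,3),(2,0)]⟩,⟨0,[(2,0),(28,0)]⟩⟩,.e ⟨false,1,⟨1,[(45,0),
  (0,0)]⟩,⟨2,[(6,0),(16,0),(4,0)]⟩⟩ ⟨false,0,⟨0,[(0,0),(9,0)]⟩,⟨4,[(2,2),(0,0),(8,0),(10,0),(4,1),
  (2,4)]⟩⟩,.o ⟨false,0,⟨0,[(31,0)]⟩,⟨3,[(5,1),(17,0),(0,0),(16,0)]⟩⟩,.o ⟨false,0,⟨1,[(30,0),(0,2)]⟩,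
  ⟨0,[(10,0)]⟩⟩]⟩)) (.R ⟨2,true,false,false,[0,1],[1,0,0,0,-1],[1,0,1],(⟨0,[]⟩,⟨0,[]⟩),(⟨0,[(24,
  0)]⟩,⟨0,[(25,0)]⟩),⟨0,[]⟩,.k,.k,.k,(.r 0 ⟨5,[(5,1),(16,1),(4,1),(1,2),(0,2),(12,5)]⟩ ⟨13,[(11,0),
  (5,6),(0,2),(8,1),(12,1),(4,3)]⟩),.k,.k,⟨false,0,⟨2,[(5,0),(16,0),(4,0)]⟩,⟨1,[(44,0),(0,0)]⟩⟩,
  ⟨true,0,⟨13,[(1,1),(0,11),(7,7),(0,3),(17,10),(0,2),(9,1)]⟩,⟨1,[(0,1),(5,1),(33,0),(4,0)]⟩⟩,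
  ⟨false,1,⟨6,[(11,0),(6,2),(8,1),(12,1),(4,3)]⟩,⟨0,[(43,0)]⟩⟩,⟨true,1,⟨1,[(1,0),(16,0),(3,0)]⟩,⟨2,
  [(0,1),(1,0),(2,1),(34,0)]⟩⟩,⟨true,0,⟨0,[]⟩,⟨2,[(5,0),(16,0),(4,0)]⟩⟩,⟨false,1,⟨0,[(1,0)]⟩,⟨6,[(0,
  0),(4,1),(17,3),(3,0),(12,2),(1,0)]⟩⟩,[]⟩)) (.Q [0,0,0,0,0,0,0,0,0,0,-1,1] (.ed false [1,0,-1,0,
  1] (.r (-1) ⟨10,[(3,1),(6,1),(10,6),(0,6),(4,6),(0,6),(7,2),(5,1)]⟩ ⟨0,[(11,0),(32,0)]⟩)) (.R ⟨1,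
  false,false,true,[0,0,1],[1,0,1,0,-1],[1,1,1],(⟨0,[(32,0)]⟩,⟨0,[(31,0)]⟩),(⟨0,[(24,0),(7,0)]⟩,⟨0,
  [(0,0)]⟩),⟨0,[(21,0)]⟩,.k,.k,.k,.k,(.r 0 ⟨0,[(41,0)]⟩ ⟨1,[(22,0),(0,0),(5,0),(0,0),(12,1),(1,
  0)]⟩),.k,⟨true,0,⟨0,[(28,0),(0,0)]⟩,⟨0,[(12,0),(32,0)]⟩⟩,⟨false,1,⟨33,[(2,13),(8,1),(6,5),(3,19),
  (4,3),(11,5),(4,16),(0,0)]⟩,⟨0,[(1,0),(43,0)]⟩⟩,⟨true,0,⟨0,[(28,0),(0,0)]⟩,⟨0,[(13,0)]⟩⟩,⟨false,1,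
  ⟨16,[(2,6),(8,0),(6,2),(3,9),(4,1),(11,2),(5,8)]⟩,⟨0,[(1,0),(43,0)]⟩⟩,⟨true,0,⟨0,[(28,0),(0,0),
  (13,0)]⟩,⟨9,[(10,3),(2,5),(3,1),(0,1),(21,0),(4,0)]⟩⟩,⟨true,0,⟨0,[(2,0)]⟩,⟨1,[(1,0),(16,0),(4,0),
  (16,0)]⟩⟩,[.e ⟨false,0,⟨2,[(5,0),(16,0),(4,0)]⟩,⟨1,[(44,0),(0,0)]⟩⟩ ⟨false,0,⟨8,[(2,7),(7,3),(2,
  4),(3,1),(0,0),(3,0),(22,0)]⟩,⟨15,[(4,3),(0,3),(5,5),(11,11),(5,7),(10,8),(2,5),(1,0)]⟩⟩,.o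
  ⟨false,1,⟨3,[(2,0),(1,0),(5,0),(1,2),(9,2),(6,1),(15,3)]⟩,⟨1,[(5,1),(34,0),(4,0)]⟩⟩,.o ⟨false,1,
  ⟨7,[(4,1),(17,2),(0,2),(5,3),(10,2)]⟩,⟨0,[(14,0)]⟩⟩,.a ⟨true,0,⟨0,[(29,0)]⟩,⟨0,[(26,0)]⟩⟩ ⟨false,
  0,⟨0,[]⟩,⟨1,[(22,0),(0,0),(21,0)]⟩⟩ ⟨true,0,⟨8,[(2,7),(7,3),(2,4),(3,1),(0,0),(3,0),(22,0)]⟩,⟨1,
  [(5,1),(23,1),(10,0),(4,0)]⟩⟩]⟩) (.S ⟨1,0,[],[1,0,0,0,-1],[0,1],(⟨0,[(24,0)]⟩,⟨0,[(25,0)]⟩),⟨0,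
  [(0,0),(19,0)]⟩,.k,(.r (-1) ⟨13,[(11,0),(5,6),(0,2),(8,1),(12,1),(4,3)]⟩ ⟨5,[(5,1),(16,1),(4,1),
  (1,2),(0,2),(12,5)]⟩),⟨false,0,⟨2,[(5,0),(16,0),(4,0)]⟩,⟨0,[(45,0)]⟩⟩,⟨true,0,⟨2,[(5,0),(16,0),(4,
  0)]⟩,⟨0,[]⟩⟩,⟨true,(-1),⟨0,[(1,0),(0,0)]⟩,⟨6,[(11,0),(6,2),(8,1),(12,1),(4,3)]⟩⟩,⟨false,0,⟨0,[(43,
  0)]⟩,⟨6,[(11,0),(6,2),(8,1),(12,1),(4,3)]⟩⟩,[.o ⟨false,1,⟨0,[(22,0)]⟩,⟨0,[(1,0),(43,0)]⟩⟩,.e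
  ⟨false,1,⟨1,[(22,0),(0,0),(20,0)]⟩,⟨0,[]⟩⟩ ⟨false,1,⟨1,[(44,0),(0,0)]⟩,⟨2,[(5,0),(16,0),(4,0)]⟩⟩,
  .o ⟨false,1,⟨0,[(22,0)]⟩,⟨0,[(1,0),(43,0)]⟩⟩,.a ⟨true,0,⟨5,[(2,5),(7,3),(0,1),(17,4),(0,0),(9,0),
  (4,0)]⟩,⟨3,[(1,1),(15,1),(5,1),(15,0),(3,1),(1,0)]⟩⟩ ⟨true,0,⟨4,[(4,0),(3,0),(3,0),(24,1)]⟩,⟨1,
  [(29,0),(0,0)]⟩⟩ ⟨false,1,⟨1,[(44,0),(0,0)]⟩,⟨1,[(29,0),(0,0)]⟩⟩]⟩)))))))))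

theorem ok7 : chk K t7 l10 = true := by decide +kernel

noncomputable def t8 : Tre :=
  (.Q [0,0,0,0,0,0,-1,-1,0,1,-1] (.p false [0,0,1] [1] (⟨0,[(24,0)]⟩,⟨0,[(23,0)]⟩) .k 1 (⟨0,[]⟩,⟨0,
  []⟩) .k .k) (.Q [0,0,0,1,0,0,1,1,0,-1,1] (.p true [0,0,1] [1] (⟨0,[(25,0)]⟩,⟨0,[(24,0)]⟩) .k 1
  (⟨0,[]⟩,⟨0,[]⟩) .k .k) (.R ⟨1,false,false,true,[0,0,1],[1,-1],[0,1,0,-1],(⟨0,[(26,0)]⟩,⟨0,[(25,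
  0)]⟩),(⟨0,[(29,0)]⟩,⟨0,[(30,0)]⟩),⟨0,[(15,0)]⟩,.k,.k,.k,.k,.k,.k,⟨true,0,⟨1,[(23,0),(0,0)]⟩,⟨0,
  []⟩⟩,⟨false,0,⟨27,[(1,5),(11,13),(7,5),(5,1),(1,1),(3,2),(5,2)]⟩,⟨5,[(3,3),(12,0),(0,0),(5,1),(10,
  0)]⟩⟩,⟨false,1,⟨3,[(2,1),(0,0),(1,2),(17,0),(7,0),(4,0)]⟩,⟨0,[(6,0),(30,0),(1,0)]⟩⟩,⟨true,0,⟨0,
  [(1,0),(34,0)]⟩,⟨0,[(0,0)]⟩⟩,⟨false,1,⟨7,[(3,1),(1,3),(10,0),(0,0),(5,5),(7,1),(2,0),(2,3)]⟩,⟨0,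
  [(6,0),(32,0)]⟩⟩,⟨false,0,⟨0,[(1,0)]⟩,⟨2,[(2,0),(4,0),(13,0),(12,0),(4,1)]⟩⟩,[.o ⟨false,0,⟨0,[(36,
  0)]⟩,⟨1,[(34,0),(2,1),(1,0)]⟩⟩,.e ⟨false,1,⟨3,[(5,0),(5,0),(0,0),(8,1),(12,0),(3,0)]⟩,⟨0,[(37,
  0)]⟩⟩ ⟨false,0,⟨14,[(4,3),(0,1),(3,0),(1,2),(0,1),(0,1),(6,6),(12,0)]⟩,⟨2,[(3,0),(12,0),(0,0),(5,
  1),(10,0),(2,2)]⟩⟩,.o ⟨false,1,⟨2,[(3,0),(12,0),(0,0),(5,1),(10,0)]⟩,⟨0,[(8,0)]⟩⟩,.a ⟨true,0,⟨0,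
  [(23,0)]⟩,⟨0,[(20,0)]⟩⟩ ⟨true,0,⟨0,[(35,0)]⟩,⟨1,[(23,0),(0,0),(12,1)]⟩⟩ ⟨false,0,⟨14,[(4,3),(0,1),
  (3,0),(1,2),(0,1),(0,1),(6,6),(12,0)]⟩,⟨1,[(23,1),(10,0),(2,1),(1,0)]⟩⟩]⟩) (.I [0,0,1,1,1,0,0,-2]
  (.Q [0,0,0,0,0,2,0,0,0,0,-1] (.p false [0,0,1] [] (⟨0,[(27,0)]⟩,⟨0,[(26,0)]⟩) .k 0 (⟨0,[]⟩,⟨0,
  []⟩) .k .k) (.R ⟨0,false,false,true,[0,-1,1],[1,0,-1],[1],(⟨0,[(17,0)]⟩,⟨129,[(0,56),(0,5),(5,5),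
  (7,2),(6,5),(0,23),(3,72),(1,15),(5,20),(5,8)]⟩),(⟨0,[(27,0)]⟩,⟨0,[(28,0)]⟩),⟨0,[(0,0)]⟩,.k,.k,
  (.r 0 ⟨0,[(6,0),(6,0)]⟩ ⟨27,[(1,23),(2,5),(18,13),(2,25),(8,2),(3,31),(1,6)]⟩),(.r 0 ⟨7,[(6,3),(2,
  9),(4,1),(8,1),(2,1),(9,0),(4,2)]⟩ ⟨0,[(1,0)]⟩),.k,.k,⟨true,0,⟨0,[(8,0),(32,0)]⟩,⟨0,[(1,0),(4,
  0)]⟩⟩,⟨false,0,⟨1,[(10,3),(1,0),(0,0),(21,0),(3,1)]⟩,⟨65,[(1,37),(2,55),(8,13),(0,11),(8,19),(12,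
  10),(4,2)]⟩⟩,⟨false,1,⟨13,[(1,7),(2,1),(21,3),(8,0),(3,5),(1,6)]⟩,⟨9,[(6,3),(2,5),(3,1),(0,1),(21,
  0),(4,0)]⟩⟩,⟨true,0,⟨0,[(3,0),(20,0),(14,0)]⟩,⟨9,[(4,9),(1,3),(2,5),(3,1),(0,1),(21,0),(4,0)]⟩⟩,
  ⟨false,0,⟨0,[]⟩,⟨0,[]⟩⟩,⟨false,0,⟨0,[]⟩,⟨0,[]⟩⟩,[.o ⟨false,0,⟨0,[(24,0)]⟩,⟨2,[(4,0),(4,0),(13,0),
  (12,0),(4,1)]⟩⟩,.e ⟨false,1,⟨1,[(40,0),(0,0)]⟩,⟨0,[(43,0)]⟩⟩ ⟨false,1,⟨5,[(7,1),(14,5),(1,1),(11,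
  0),(2,1),(0,2)]⟩,⟨0,[(4,0)]⟩⟩,.e ⟨true,0,⟨0,[]⟩,⟨0,[(43,0)]⟩⟩ ⟨true,0,⟨0,[(22,0),(1,0)]⟩,⟨0,[(4,
  0)]⟩⟩,.a ⟨true,0,⟨1,[(25,2),(0,0)]⟩,⟨1,[(10,1),(1,0),(0,0),(21,0),(3,1)]⟩⟩ ⟨false,1,⟨1,[(40,0),(0,
  0)]⟩,⟨1,[(25,0),(0,0)]⟩⟩ ⟨true,0,⟨0,[(3,0),(6,0),(1,0),(26,0)]⟩,⟨1,[(4,1),(20,0),(0,0)]⟩⟩]⟩) (.Q
  [0,0,2,0,-1,0,-2,0,0,1,-2] (.p false [0,0,1] [1,0,-1] (⟨0,[(28,0)]⟩,⟨0,[(27,0)]⟩) .k 2 (⟨0,[(27,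
  0)]⟩,⟨0,[(28,0)]⟩) .k (.r 1 ⟨0,[(8,1),(32,0)]⟩ ⟨3,[(1,3),(5,0),(5,0),(0,0),(8,1),(12,0),(3,0)]⟩))
  (.I [0,0,2,0,-1,2,-1] (.R ⟨0,false,false,false,[1,-1,-1],[0,0,1],[1],(⟨0,[(18,0)]⟩,⟨135,[(0,11),
  (2,5),(12,2),(8,11),(4,123),(0,12),(4,32),(0,14),(4,14),(0,5)]⟩),(⟨0,[(30,0)]⟩,⟨0,[(29,0)]⟩),⟨3,
  [(0,1),(1,0),(4,1),(22,0),(5,1)]⟩,.k,.k,(.x 1 ⟨0,[(0,0)]⟩ ⟨35,[(2,11),(0,9),(3,15),(7,9),(2,47),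
  (6,19),(12,15),(3,14),(0,4)]⟩),(.r (-2) ⟨0,[(3,0),(11,0),(24,0)]⟩ ⟨1,[(1,0),(4,0),(3,1),(0,0),(29,
  1),(1,0)]⟩),.k,.k,⟨false,1,⟨3,[(3,1),(10,0),(0,0),(26,0)]⟩,⟨11,[(1,2),(4,0),(4,6),(13,3),(12,0),
  (4,1)]⟩⟩,⟨true,1,⟨34,[(3,10),(2,21),(0,25),(5,0),(0,2),(0,3),(0,0),(20,5)]⟩,⟨0,[(1,0)]⟩⟩,⟨false,0,
  ⟨1,[(1,0),(4,0),(4,0),(29,1),(1,0)]⟩,⟨11,[(3,5),(9,3),(1,4),(0,1),(21,0),(1,0)]⟩⟩,⟨true,0,⟨0,[(6,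
  0),(4,0),(29,0)]⟩,⟨0,[(4,0),(21,0)]⟩⟩,⟨false,0,⟨0,[]⟩,⟨0,[]⟩⟩,⟨false,0,⟨0,[]⟩,⟨0,[]⟩⟩,[.a ⟨true,0,
  ⟨5,[(6,1),(4,1),(13,1),(11,0),(5,0)]⟩,⟨0,[(5,0)]⟩⟩ ⟨true,0,⟨0,[]⟩,⟨37,[(1,6),(1,5),(2,9),(9,2),(8,
  1),(2,7),(14,0)]⟩⟩ ⟨false,1,⟨5,[(6,1),(0,5),(3,1),(13,1),(11,0),(5,0)]⟩,⟨13,[(1,5),(1,2),(1,0),(3,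
  2),(7,3),(8,0),(8,0)]⟩⟩,.o ⟨false,1,⟨2,[(6,0),(4,0),(13,0),(12,0),(4,1)]⟩,⟨0,[(26,0)]⟩⟩,.o ⟨false,
  0,⟨0,[(28,0)]⟩,⟨5,[(3,0),(2,0),(0,2),(7,0),(9,0),(12,0)]⟩⟩,.o ⟨false,0,⟨37,[(1,6),(1,5),(2,9),(9,
  2),(8,1),(2,45),(14,0)]⟩,⟨0,[(7,0)]⟩⟩]⟩) (.I [0,0,0,0,1,0,0,0,-1] (.I [1,0,0,0,0,3,0,0,1] (.I [1,
  0,0,-1,0,1,-1,-1] (.C [(0,1),(2,5),(0,3),(0,3),(1,3),(1,3),(3,1),(25,5),(0,0),(3,5),(1,0)]) (.C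
  [(0,0),(4,0),(1,0),(31,0)])) (.C [(0,0),(22,0),(0,0),(13,0)])) (.C [(0,0),(20,0),(2,0)]))) (.Q [0,
  0,-1,0,1,0,1,0,-1,0,1,-1] (.p true [0,0,1] [0,0,0,0,1] (⟨0,[(29,0)]⟩,⟨0,[(28,0)]⟩) .k 2 (⟨0,[(22,
  0)]⟩,⟨0,[(21,0)]⟩) .k (.r 0 ⟨0,[(9,0),(32,0)]⟩ ⟨15,[(2,7),(5,3),(6,1),(8,7),(9,5),(2,2),(3,0)]⟩))
  (.Q [0,-1,1,0,0,0,0,1,-1,1,0,-1] (.p false [0,0,0,0,1] [1] (⟨0,[(23,0)]⟩,⟨0,[(22,0)]⟩) .k 1 (⟨0,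
  []⟩,⟨0,[]⟩) .k .k) (.Q [0,-1,0,-1,1,0,-1,-1,-1,1,-1,-1] (.p false [0,0,1] [1,0,0,0,-1] (⟨0,[(31,
  0)]⟩,⟨0,[(30,0)]⟩) .k 2 (⟨0,[(23,0)]⟩,⟨0,[(24,0)]⟩) .k (.r 1 ⟨0,[(11,0)]⟩ ⟨19,[(4,9),(5,7),(5,1),
  (9,15),(12,3),(3,2),(0,12)]⟩)) (.Q [0,0,0,1,0,0,1,1,1,-1,1,1] (.p true [0,0,1] [1,0,0,0,-1] (⟨0,
  [(32,0)]⟩,⟨0,[(31,0)]⟩) .k 2 (⟨0,[(24,0)]⟩,⟨0,[(25,0)]⟩) .k (.r 1 ⟨0,[(12,0)]⟩ ⟨19,[(5,9),(5,7),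
  (5,1),(9,15),(12,3),(3,2),(0,12)]⟩)) (.Q [0,-1,1,0,0,0,-1,0,-1,1,-1,-1] (.p false [0,0,1] [1,0,0,
  0,-1] (⟨0,[(33,0)]⟩,⟨0,[(32,0)]⟩) .k 2 (⟨0,[(25,0)]⟩,⟨0,[(26,0)]⟩) .k (.r 1 ⟨0,[(13,0)]⟩ ⟨19,[(6,
  9),(5,7),(5,1),(9,15),(12,3),(3,2),(0,12)]⟩)) (.R ⟨0,false,false,false,[1,-1,-1],[0,0,0,0,1],[1,
  1],(⟨0,[(22,0)]⟩,⟨217,[(7,5),(5,5),(7,5),(7,23),(4,217),(0,37),(4,59),(0,23),(4,2),(0,8)]⟩),(⟨0,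
  [(27,0)]⟩,⟨0,[(26,0)]⟩),⟨2,[(6,1),(27,0),(0,0),(4,2)]⟩,.k,.k,(.r (-1) ⟨3,[(5,1),(2,3),(8,1),(24,
  0),(4,0)]⟩ ⟨5,[(1,3),(1,3),(3,2),(6,2),(14,0),(2,4),(12,4)]⟩),(.r (-2) ⟨3,[(7,1),(5,0),(5,2),(0,
  0),(8,1),(12,0),(4,0)]⟩ ⟨1,[(0,0),(0,0),(5,0),(6,2)]⟩),.k,.k,⟨true,0,⟨0,[]⟩,⟨1,[(31,0),(0,0)]⟩⟩,
  ⟨false,1,⟨0,[(11,0),(13,0)]⟩,⟨0,[(0,0),(48,0)]⟩⟩,⟨true,(-1),⟨1,[(0,0),(0,0),(5,0),(6,2)]⟩,⟨1,[(5,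
  0),(7,0),(30,0)]⟩⟩,⟨false,0,⟨0,[(1,0)]⟩,⟨0,[(2,0)]⟩⟩,⟨false,0,⟨0,[]⟩,⟨0,[]⟩⟩,⟨false,0,⟨0,[]⟩,⟨0,
  []⟩⟩,[.e ⟨false,0,⟨2,[(18,0),(20,0),(5,0)]⟩,⟨1,[(24,0),(0,0),(21,0)]⟩⟩ ⟨false,1,⟨3,[(5,1),(19,3),
  (13,1),(2,0),(3,0)]⟩,⟨0,[(0,0)]⟩⟩,.a ⟨true,0,⟨0,[(25,0)]⟩,⟨7,[(0,4),(3,2),(0,0),(1,1),(6,3),(2,0),
  (23,1)]⟩⟩ ⟨true,0,⟨0,[]⟩,⟨1,[(31,0),(0,0)]⟩⟩ ⟨false,1,⟨0,[(11,0),(13,0)]⟩,⟨0,[(0,0),(48,0)]⟩⟩,.o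
  ⟨false,0,⟨0,[(32,0)]⟩,⟨19,[(5,7),(1,1),(11,1),(9,3),(12,5),(3,0),(0,0)]⟩⟩,.o ⟨false,0,⟨1,[(31,0),
  (0,2)]⟩,⟨0,[(11,0)]⟩⟩]⟩) (.Q [0,-1,0,0,1,0,0,0,-1,0,0,-1] (.p false [0,0,0,0,1] [] (⟨0,[(27,0)]⟩,
  ⟨0,[(26,0)]⟩) .k 0 (⟨0,[]⟩,⟨0,[]⟩) .k .k) (.Q [0,0,0,0,0,0,0,0,-1,1,0,-1] (.p false [0,0,0,0,1]
  [1] (⟨0,[(28,0)]⟩,⟨0,[(27,0)]⟩) .k 1 (⟨0,[]⟩,⟨0,[]⟩) .k .k) (.R ⟨0,false,false,false,[1,-1,-1],[0,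
  0,0,0,1],[1,1],(⟨0,[(24,0)]⟩,⟨217,[(9,5),(5,5),(7,5),(7,23),(4,217),(0,37),(4,59),(0,23),(4,2),(0,
  8)]⟩),(⟨0,[(29,0)]⟩,⟨0,[(28,0)]⟩),⟨2,[(8,1),(27,0),(0,0),(4,2)]⟩,.k,.k,(.r (-1) ⟨3,[(7,1),(2,3),
  (8,1),(24,0),(4,0)]⟩ ⟨5,[(3,3),(1,3),(3,2),(6,2),(14,0),(2,4),(12,4)]⟩),(.r (-2) ⟨3,[(9,1),(5,0),
  (5,2),(0,0),(8,1),(12,0),(4,0)]⟩ ⟨6,[(9,0),(2,1),(3,6),(17,3),(8,0),(3,5)]⟩),.k,.k,⟨true,0,⟨0,[]⟩,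
  ⟨1,[(33,0),(0,0)]⟩⟩,⟨false,1,⟨4,[(2,2),(0,1),(5,0),(11,2),(26,0)]⟩,⟨0,[(0,0),(33,0)]⟩⟩,⟨true,(-1),
  ⟨6,[(9,0),(2,1),(3,6),(17,3),(8,0),(3,5)]⟩,⟨1,[(7,0),(7,0),(30,0)]⟩⟩,⟨false,0,⟨0,[(3,0)]⟩,⟨0,[(4,
  0)]⟩⟩,⟨false,0,⟨0,[]⟩,⟨0,[]⟩⟩,⟨false,0,⟨0,[]⟩,⟨0,[]⟩⟩,[.o ⟨false,0,⟨0,[(2,0),(31,0)]⟩,⟨0,[(1,
  0)]⟩⟩,.a ⟨true,0,⟨0,[(27,0)]⟩,⟨0,[(0,0)]⟩⟩ ⟨true,0,⟨0,[]⟩,⟨1,[(33,0),(0,0)]⟩⟩ ⟨false,1,⟨4,[(2,2),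
  (0,1),(5,0),(11,2),(26,0)]⟩,⟨0,[(0,0),(33,0)]⟩⟩,.o ⟨false,0,⟨0,[(34,0)]⟩,⟨19,[(7,7),(1,1),(11,1),
  (9,3),(12,5),(3,0),(0,0)]⟩⟩,.o ⟨false,0,⟨1,[(33,0),(0,2)]⟩,⟨0,[(13,0)]⟩⟩]⟩) (.R ⟨1,false,false,
  false,[0,0,1],[0,0,0,0,1],[0,0,0,0,0,0,0,1],(⟨0,[(36,0)]⟩,⟨0,[(35,0)]⟩),(⟨0,[(29,0)]⟩,⟨0,[(28,
  0)]⟩),⟨0,[(25,0)]⟩,.k,.k,.k,.k,(.r (-1) ⟨6,[(17,4),(3,0),(0,2),(0,0),(7,1),(12,1),(4,3)]⟩ ⟨0,[(9,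
  0),(6,0)]⟩),.k,⟨true,0,⟨0,[(16,0),(32,0)]⟩,⟨0,[(9,0),(4,0)]⟩⟩,⟨false,0,⟨0,[(0,0),(29,0)]⟩,⟨1,[(6,
  0),(19,0),(6,0)]⟩⟩,⟨false,1,⟨1,[(26,0),(0,0),(21,0)]⟩,⟨0,[]⟩⟩,⟨false,0,⟨0,[(0,0),(10,0)]⟩,⟨3,[(1,
  1),(3,0),(0,0),(5,0),(4,0),(13,0),(17,0)]⟩⟩,⟨true,0,⟨0,[(47,0)]⟩,⟨0,[(46,0)]⟩⟩,⟨false,0,⟨0,[(0,0),
  (10,0),(35,0)]⟩,⟨9,[(1,1),(3,4),(6,4),(6,0),(1,3),(0,1),(3,2),(17,0)]⟩⟩,[.o ⟨false,0,⟨0,[(2,0),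
  (31,0)]⟩,⟨0,[(1,0)]⟩⟩,.o ⟨false,0,⟨0,[(0,0)]⟩,⟨0,[(26,0)]⟩⟩,.o ⟨false,1,⟨57,[(7,10),(1,13),(2,7),
  (9,6),(8,19),(12,22),(4,9)]⟩,⟨0,[(18,0)]⟩⟩,.a ⟨true,0,⟨0,[(33,0)]⟩,⟨0,[(30,0)]⟩⟩ ⟨true,0,⟨0,[(17,
  0)]⟩,⟨0,[(9,0),(4,0)]⟩⟩ ⟨false,0,⟨0,[(0,0),(29,0)]⟩,⟨0,[(1,0),(31,0)]⟩⟩]⟩)) (.Q [0,0,0,0,0,0,0,0,
  0,0,1,-1] (.ed true [1,0,-1,0,1] (.r (-1) ⟨15,[(8,7),(5,3),(6,1),(8,7),(9,5),(2,2),(3,0)]⟩ ⟨0,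
  [(15,0),(32,0)]⟩)) (.R ⟨0,false,false,false,[1,-1,-1],[0,0,1,0,-1],[1,-1,0,0,0,0,0,1],(⟨0,[(24,
  0)]⟩,⟨217,[(9,5),(5,5),(7,5),(7,23),(4,217),(0,37),(4,59),(0,23),(4,2),(0,8)]⟩),(⟨0,[(0,0)]⟩,⟨0,
  [(29,0),(5,0)]⟩),⟨2,[(8,1),(27,0),(0,0),(4,2)]⟩,.k,.k,(.r (-1) ⟨3,[(7,1),(2,3),(8,1),(24,0),(4,
  0)]⟩ ⟨5,[(3,3),(1,3),(3,2),(6,2),(14,0),(2,4),(12,4)]⟩),(.r (-1) ⟨0,[(9,0),(9,0)]⟩ ⟨0,[(3,0),(1,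
  0),(12,0)]⟩),.k,.k,⟨true,0,⟨0,[]⟩,⟨1,[(33,0),(0,0)]⟩⟩,⟨false,2,⟨0,[(7,0),(18,0)]⟩,⟨2,[(1,2),(9,0),
  (4,0),(1,1),(15,2),(8,0),(5,1)]⟩⟩,⟨false,0,⟨3,[(1,0),(3,0),(6,0),(3,5),(17,1),(12,3),(1,6)]⟩,⟨0,
  [(9,0),(9,0)]⟩⟩,⟨true,1,⟨1,[(5,1),(1,0),(4,0),(4,0),(26,0),(2,1)]⟩,⟨0,[(1,0),(8,0),(21,0)]⟩⟩,
  ⟨false,0,⟨0,[]⟩,⟨0,[]⟩⟩,⟨false,0,⟨0,[]⟩,⟨0,[]⟩⟩,[.a ⟨true,1,⟨5,[(5,2),(0,2),(5,0),(4,0),(13,0),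
  (12,0),(4,1)]⟩,⟨0,[(1,0),(9,0)]⟩⟩ ⟨true,0,⟨0,[(16,0),(32,0)]⟩,⟨0,[(9,0),(4,0)]⟩⟩ ⟨false,2,⟨3,[(6,
  3),(0,0),(4,0),(4,2),(26,0),(4,1)]⟩,⟨0,[(1,0),(9,0),(22,0)]⟩⟩,.o ⟨false,2,⟨5,[(5,2),(0,2),(5,0),
  (4,0),(13,0),(12,3),(4,4)]⟩,⟨0,[(1,0),(30,0)]⟩⟩,.o ⟨false,0,⟨0,[(34,0)]⟩,⟨19,[(7,7),(1,1),(11,1),
  (9,3),(12,5),(3,0),(0,0)]⟩⟩,.o ⟨false,0,⟨1,[(33,0),(0,2)]⟩,⟨0,[(13,0)]⟩⟩]⟩) (.Q [0,0,0,0,0,1,0,0,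
  0,-1,0,1] (.ed false [0,1,0,0,1] .k) (.R ⟨0,false,false,false,[1,0,0,0,-1],[0,0,1],[0,0,1,0,0,0,0,
  1],(⟨0,[(29,0)]⟩,⟨0,[(30,0)]⟩),(⟨0,[(37,0)]⟩,⟨0,[(36,0)]⟩),⟨0,[(0,0)]⟩,.k,.k,(.r (-1) ⟨13,[(16,0),
  (5,6),(0,2),(8,1),(12,1),(4,3)]⟩ ⟨1,[(10,0),(6,0),(14,0),(2,0),(12,0)]⟩),.k,.k,.k,⟨true,0,⟨1,[(34,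
  0),(0,0)]⟩,⟨0,[]⟩⟩,⟨false,1,⟨19,[(8,7),(1,1),(11,1),(5,19),(3,3),(12,5),(3,0),(0,0)]⟩,⟨0,[(5,0),
  (11,0),(30,0)]⟩⟩,⟨true,(-1),⟨1,[(17,1),(16,0),(0,0)]⟩,⟨5,[(8,0),(1,1),(5,0),(4,0),(27,1)]⟩⟩,
  ⟨false,0,⟨6,[(2,0),(1,2),(8,1),(1,1),(6,0),(5,2),(16,0),(4,0)]⟩,⟨0,[(5,0),(42,0)]⟩⟩,⟨false,0,⟨0,
  []⟩,⟨0,[]⟩⟩,⟨false,0,⟨0,[]⟩,⟨0,[]⟩⟩,[.e ⟨false,0,⟨28,[(4,4),(1,4),(8,0),(2,13),(4,1),(8,3),(2,8),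
  (9,0)]⟩,⟨5,[(8,0),(1,1),(5,0),(4,0),(27,1)]⟩⟩ ⟨false,0,⟨7,[(2,3),(1,3),(3,1),(6,1),(1,1),(4,1),
  (22,0),(4,2)]⟩,⟨0,[(12,0),(14,0)]⟩⟩,.o ⟨false,1,⟨2,[(13,0),(4,0),(13,0),(12,0),(4,1)]⟩,⟨0,[(33,
  0)]⟩⟩,.o ⟨false,1,⟨0,[(27,0)]⟩,⟨1,[(2,1),(42,0),(4,0)]⟩⟩,.a ⟨true,0,⟨4,[(5,3),(0,0),(3,1),(2,1),
  (3,4),(26,0),(3,1)]⟩,⟨1,[(2,0),(1,0),(7,0),(9,0)]⟩⟩ ⟨false,0,⟨0,[(17,0),(32,0)]⟩,⟨7,[(10,3),(5,0),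
  (5,0),(0,0),(8,1),(12,0),(3,0)]⟩⟩ ⟨true,0,⟨7,[(2,3),(1,3),(3,1),(6,1),(1,1),(4,1),(22,0),(4,2)]⟩,
  ⟨0,[(5,0),(4,0),(6,1)]⟩⟩]⟩) (.R ⟨0,false,false,false,[1,-1,0,0,-1],[0,0,0,0,1],[1,1],(⟨0,[(0,0)]⟩,
  ⟨217,[(10,5),(5,5),(7,5),(5,217),(1,23),(5,37),(4,59),(0,23),(4,2),(0,8)]⟩),(⟨0,[(30,0)]⟩,⟨0,[(29,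
  0)]⟩),⟨2,[(1,1),(7,1),(20,0),(7,0),(4,2)]⟩,(.r (-1) ⟨13,[(16,0),(5,6),(0,2),(8,1),(12,1),(4,3)]⟩
  ⟨1,[(10,0),(6,0),(14,0),(2,0),(12,0)]⟩),.k,(.r (-1) ⟨0,[(20,0),(29,0)]⟩ ⟨2,[(4,0),(1,0),(3,2),(6,
  2),(14,0),(2,1),(12,1)]⟩),(.r (-2) ⟨13,[(16,4),(5,6),(0,0),(8,9),(12,2),(4,12)]⟩ ⟨0,[(10,0),(6,
  1)]⟩),.k,.k,⟨true,0,⟨0,[]⟩,⟨1,[(34,0),(0,0)]⟩⟩,⟨false,0,⟨1,[(2,3),(19,1),(22,0),(2,1),(1,0)]⟩,⟨1,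
  [(6,1),(0,0),(2,0),(4,0),(11,0),(5,0)]⟩⟩,⟨true,(-1),⟨0,[(10,0),(6,1)]⟩,⟨13,[(16,0),(5,6),(0,2),(8,
  1),(12,1),(4,3)]⟩⟩,⟨false,(-1),⟨1,[(2,3),(42,0),(2,1),(1,0)]⟩,⟨3,[(5,2),(0,1),(0,0),(5,0),(8,0),
  (4,1),(22,0)]⟩⟩,⟨false,0,⟨0,[]⟩,⟨0,[]⟩⟩,⟨false,0,⟨0,[]⟩,⟨0,[]⟩⟩,[.e ⟨false,0,⟨2,[(21,0),(20,0),(5,
  0)]⟩,⟨1,[(27,0),(0,0),(21,0)]⟩⟩ ⟨false,0,⟨7,[(2,11),(1,3),(9,1),(1,1),(5,1),(8,1),(13,2),(3,2)]⟩,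
  ⟨0,[(5,1),(7,0),(3,0),(30,1)]⟩⟩,.o ⟨false,0,⟨1,[(2,1),(42,0),(4,0)]⟩,⟨0,[(27,0)]⟩⟩,.e ⟨false,0,⟨0,
  []⟩,⟨1,[(27,0),(0,0),(21,0)]⟩⟩ ⟨false,0,⟨7,[(2,11),(1,3),(11,1),(5,3),(22,2),(2,1),(1,2)]⟩,⟨0,[(5,
  1),(7,0),(3,0),(30,1)]⟩⟩,.a ⟨true,0,⟨0,[(6,0),(3,0),(4,0)]⟩,⟨0,[(2,0),(19,0),(25,0)]⟩⟩ ⟨true,0,⟨2,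
  [(21,0),(20,0),(5,0)]⟩,⟨1,[(34,0),(0,0)]⟩⟩ ⟨false,0,⟨1,[(2,3),(19,1),(22,0),(2,1),(1,0)]⟩,⟨4,[(5,
  5),(0,3),(3,2),(2,2),(3,4),(27,0),(2,2)]⟩⟩]⟩))))) (.Q [0,0,0,0,0,-1,0,0,0,0,0,1] (.ed false [1,-1,
  0,0,1] .k) (.Q [0,0,0,0,0,1,0,0,0,-1,0,1] (.ed false [0,1,0,0,1] .k) (.R ⟨0,false,false,true,[1,0,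
  0,0,-1],[1,0,-1],[1,1,1],(⟨0,[(27,0)]⟩,⟨0,[(28,0)]⟩),(⟨0,[(34,0)]⟩,⟨0,[(35,0)]⟩),⟨0,[(0,0)]⟩,.k,
  .k,(.r (-1) ⟨13,[(14,0),(5,6),(0,2),(8,1),(12,1),(4,3)]⟩ ⟨1,[(8,0),(6,0),(14,0),(2,0),(12,0)]⟩),
  .k,.k,.k,⟨false,0,⟨7,[(4,0),(6,0),(4,4),(9,0),(3,0),(2,2)]⟩,⟨5,[(6,0),(1,1),(5,0),(4,0),(27,1)]⟩⟩,
  ⟨true,0,⟨0,[(17,0),(8,0)]⟩,⟨0,[(2,0),(8,0),(34,0)]⟩⟩,⟨true,(-1),⟨0,[(8,0),(4,0),(1,0)]⟩,⟨1,[(47,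
  0),(0,0)]⟩⟩,⟨false,0,⟨0,[(26,0),(4,0)]⟩,⟨6,[(2,2),(1,3),(1,2),(4,1),(3,3),(27,0),(2,2),(1,6)]⟩⟩,
  ⟨false,0,⟨0,[]⟩,⟨0,[]⟩⟩,⟨false,0,⟨0,[]⟩,⟨0,[]⟩⟩,[.o ⟨false,0,⟨0,[(31,0)]⟩,⟨2,[(11,0),(4,0),(13,0),
  (12,0),(4,1)]⟩⟩,.e ⟨false,0,⟨0,[]⟩,⟨1,[(25,0),(0,0),(20,0)]⟩⟩ ⟨false,1,⟨5,[(14,1),(11,5),(4,1),
  (11,0),(2,1),(0,2)]⟩,⟨6,[(2,2),(1,3),(1,2),(4,1),(3,3),(27,0),(2,2)]⟩⟩,.a ⟨true,0,⟨10,[(2,3),(1,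
  2),(0,3),(2,0),(6,2),(26,1),(3,2)]⟩,⟨0,[(26,0)]⟩⟩ ⟨false,0,⟨1,[(32,0),(0,0)]⟩,⟨1,[(47,0),(0,0)]⟩⟩
  ⟨true,0,⟨0,[(26,0),(4,0)]⟩,⟨6,[(2,2),(1,3),(1,2),(4,1),(3,3),(27,0),(2,2)]⟩⟩,.o ⟨false,0,⟨5,[(2,
  5),(8,3),(3,1),(17,1),(9,0),(2,5),(1,0)]⟩,⟨1,[(26,1),(16,0),(3,0)]⟩⟩]⟩) (.R ⟨1,false,false,true,
  [1,0,0,0,-1],[0,-1,1],[],(⟨0,[(27,0)]⟩,⟨0,[(28,0)]⟩),(⟨0,[(24,0)]⟩,⟨217,[(8,5),(5,5),(7,5),(7,23),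
  (3,217),(1,37),(4,59),(0,23),(4,2),(0,8)]⟩),⟨0,[(0,0)]⟩,.k,.k,(.r (-1) ⟨13,[(14,0),(5,6),(0,2),(8,
  1),(12,1),(4,3)]⟩ ⟨1,[(8,0),(6,0),(14,0),(2,0),(12,0)]⟩),(.r (-1) ⟨13,[(8,7),(2,1),(21,3),(8,0),
  (3,5),(1,6)]⟩ ⟨11,[(13,1),(2,3),(1,3),(2,0),(0,2),(7,5),(12,1)]⟩),.k,.k,⟨true,1,⟨13,[(8,7),(2,1),
  (21,3),(8,0),(3,5),(1,6)]⟩,⟨0,[(13,0)]⟩⟩,⟨false,1,⟨57,[(6,10),(1,13),(2,7),(9,6),(4,57),(3,19),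
  (12,22),(4,9)]⟩,⟨0,[(2,0),(13,0),(29,0)]⟩⟩,⟨true,0,⟨0,[(50,0)]⟩,⟨0,[]⟩⟩,⟨false,0,⟨16,[(11,5),(1,
  5),(4,2),(2,0),(4,16),(3,4),(12,5),(1,2)]⟩,⟨0,[(2,0),(43,1),(1,0)]⟩⟩,⟨false,0,⟨0,[(46,0)]⟩,⟨6,
  [(14,0),(6,2),(8,1),(12,1),(4,3)]⟩⟩,⟨false,0,⟨14,[(6,0),(4,3),(3,5),(10,14),(3,4),(9,1),(2,4)]⟩,
  ⟨0,[(2,0),(43,0),(1,0)]⟩⟩,[.o ⟨false,0,⟨16,[(11,5),(1,5),(4,2),(2,0),(8,4),(12,5),(1,2)]⟩,⟨3,[(14,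
  1),(28,0),(2,5),(1,0)]⟩⟩,.e ⟨false,1,⟨1,[(47,0),(0,0)]⟩,⟨0,[(50,0)]⟩⟩ ⟨false,1,⟨3,[(11,0),(4,0),
  (3,1),(0,0),(4,3),(3,1),(12,1)]⟩,⟨0,[(2,0),(43,1)]⟩⟩,.a ⟨true,0,⟨10,[(2,3),(1,2),(0,3),(2,0),(6,
  2),(26,1),(3,2)]⟩,⟨0,[(26,0)]⟩⟩ ⟨false,1,⟨1,[(25,0),(0,0),(21,0)]⟩,⟨0,[]⟩⟩ ⟨true,0,⟨16,[(11,5),(1,
  5),(4,2),(2,0),(4,16),(3,4),(12,5),(1,2)]⟩,⟨0,[(2,0),(43,1)]⟩⟩,.o ⟨false,0,⟨5,[(2,5),(8,3),(3,1),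
  (17,1),(9,0),(2,5),(1,0)]⟩,⟨1,[(26,1),(16,0),(3,0)]⟩⟩]⟩)) (.K ⟨0,[0,0,1,0,-1],0,0,(⟨1,[(0,1),(5,
  0),(27,0)]⟩,⟨0,[(27,0),(5,0)]⟩),.k,(.r (-1) ⟨6,[(15,4),(3,0),(0,2),(0,0),(7,1),(12,1),(4,3)]⟩ ⟨0,
  [(7,0),(6,0)]⟩),(.r 0 ⟨5,[(10,1),(3,3),(17,3),(8,0),(3,5),(1,4)]⟩ ⟨5,[(5,0),(1,1),(5,0),(5,1),(19,
  1),(4,4)]⟩),.k,.k,[⟨0,[(25,0)]⟩,⟨0,[(1,0),(8,0),(34,0)]⟩,⟨4,[(7,0),(6,0),(10,4),(4,3),(1,0),(6,1),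
  (4,0)]⟩,⟨6,[(1,2),(1,3),(1,2),(4,1),(3,3),(27,0),(2,2)]⟩]⟩))) (.Q [0,0,0,0,0,0,0,0,0,0,1,-1] (.ed
  true [1,0,-1,0,1] (.r (-1) ⟨15,[(5,7),(5,3),(6,1),(8,7),(9,5),(2,2),(3,0)]⟩ ⟨0,[(12,0),(32,0)]⟩))
  (.R ⟨0,false,false,false,[1,-1,-1],[0,0,1,0,-1],[1,-1,0,0,0,0,0,1],(⟨0,[(21,0)]⟩,⟨217,[(6,5),(5,
  5),(7,5),(7,23),(4,217),(0,37),(4,59),(0,23),(4,2),(0,8)]⟩),(⟨0,[(0,0)]⟩,⟨0,[(26,0),(5,0)]⟩),⟨2,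
  [(5,1),(27,0),(0,0),(4,2)]⟩,.k,.k,(.r (-1) ⟨3,[(4,1),(2,3),(8,1),(24,0),(4,0)]⟩ ⟨11,[(1,6),(0,6),
  (3,3),(21,5),(2,12),(12,12),(1,2)]⟩),(.r (-1) ⟨0,[(6,0),(9,0)]⟩ ⟨7,[(1,6),(0,6),(17,3),(7,1),(2,
  0),(9,1),(2,0),(1,4)]⟩),.k,.k,⟨true,0,⟨0,[]⟩,⟨1,[(30,0),(0,0)]⟩⟩,⟨false,2,⟨0,[(4,0),(18,0)]⟩,⟨1,
  [(1,1),(10,1),(0,1),(17,1),(8,0),(5,0)]⟩⟩,⟨false,0,⟨0,[(1,0),(0,0),(12,0),(30,0)]⟩,⟨0,[(6,0),(9,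
  0)]⟩⟩,⟨true,1,⟨1,[(1,1),(0,1),(0,1),(37,0),(4,0)]⟩,⟨0,[(1,0),(5,1),(21,0)]⟩⟩,⟨false,0,⟨0,[]⟩,⟨0,
  []⟩⟩,⟨false,0,⟨0,[]⟩,⟨0,[]⟩⟩,[.a ⟨true,1,⟨5,[(2,2),(0,2),(5,0),(4,0),(13,0),(12,0),(4,1)]⟩,⟨0,[(1,
  0),(5,0),(0,0)]⟩⟩ ⟨true,0,⟨0,[(13,0),(32,0)]⟩,⟨0,[(6,0),(4,0)]⟩⟩ ⟨false,2,⟨3,[(3,3),(0,0),(4,0),
  (4,2),(26,0),(4,1)]⟩,⟨0,[(1,0),(5,0),(0,0),(22,0)]⟩⟩,.o ⟨false,2,⟨5,[(2,2),(0,2),(5,0),(4,0),(13,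
  0),(12,3),(4,4)]⟩,⟨0,[(1,0),(5,0),(21,0)]⟩⟩,.o ⟨false,0,⟨0,[(31,0)]⟩,⟨19,[(4,7),(1,1),(11,1),(9,
  3),(12,5),(3,0),(0,0)]⟩⟩,.o ⟨false,0,⟨1,[(30,0),(0,2)]⟩,⟨0,[(10,0)]⟩⟩]⟩) (.Q [0,-1,0,1,1,0,-1,-1,
  -1,1,-1,-1] (.p false [-1,0,1,0,1] [] (⟨2,[(0,1),(4,4),(20,0),(7,0),(4,2)]⟩,⟨0,[(25,0),(6,0)]⟩)
  .k 0 (⟨0,[]⟩,⟨0,[]⟩) .k (.r 1 ⟨0,[(13,0)]⟩ ⟨19,[(6,9),(5,7),(5,1),(9,15),(12,3),(3,2),(0,12)]⟩))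
  (.Q [0,0,0,0,0,1,0,0,0,-1,0,1] (.ed false [0,1,0,0,1] .k) (.R ⟨0,false,false,true,[1,0,0,0,-1],[2,
  -1,0,0,-1],[0,0,0,-1],(⟨0,[(27,0)]⟩,⟨0,[(28,0)]⟩),(⟨0,[(27,0),(10,0)]⟩,⟨0,[(0,0)]⟩),⟨0,[(0,0)]⟩,
  .k,(.r (-1) ⟨13,[(14,0),(5,6),(0,2),(8,1),(12,1),(4,3)]⟩ ⟨3,[(1,0),(1,0),(4,1),(6,1),(14,1),(2,
  1)]⟩),(.r (-1) ⟨13,[(14,0),(5,6),(0,2),(8,1),(12,1),(4,3)]⟩ ⟨3,[(1,0),(1,0),(4,1),(6,1),(14,1),(2,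
  1)]⟩),.k,.k,.k,⟨true,0,⟨1,[(32,0),(0,0)]⟩,⟨0,[]⟩⟩,⟨false,0,⟨8,[(1,1),(19,0),(4,1),(3,1),(5,1),(1,
  1),(3,1)]⟩,⟨1,[(43,0),(3,0)]⟩⟩,⟨true,0,⟨0,[(45,0)]⟩,⟨1,[(1,0),(1,0)]⟩⟩,⟨false,0,⟨8,[(1,0),(19,4),
  (4,0),(3,0),(5,0),(1,0),(3,0)]⟩,⟨1,[(1,0),(1,0),(39,0),(4,0)]⟩⟩,⟨false,0,⟨0,[]⟩,⟨0,[]⟩⟩,⟨false,0,
  ⟨0,[]⟩,⟨0,[]⟩⟩,[.e ⟨false,1,⟨3,[(14,0),(5,0),(0,0),(8,1),(12,0),(3,0)]⟩,⟨1,[(1,0),(1,0)]⟩⟩ ⟨false,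
  0,⟨55,[(19,8),(0,16),(0,14),(14,6),(1,6),(1,3),(1,16)]⟩,⟨2,[(1,1),(1,0),(22,0),(3,0),(12,1)]⟩⟩,.o
  ⟨false,1,⟨4,[(4,1),(0,1),(8,0),(6,1),(3,0),(22,0)]⟩,⟨5,[(1,0),(1,6),(10,1),(16,1),(11,3)]⟩⟩,.o
  ⟨false,1,⟨0,[(25,0)]⟩,⟨1,[(3,1),(5,1),(33,0),(4,0)]⟩⟩,.a ⟨true,0,⟨0,[(1,0),(11,0),(18,0)]⟩,⟨1,[(3,
  0),(6,0),(9,0),(5,0)]⟩⟩ ⟨false,1,⟨13,[(14,0),(5,6),(0,2),(8,1),(12,1),(4,3)]⟩,⟨5,[(1,0),(1,2),(0,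
  1),(3,1),(24,1)]⟩⟩ ⟨true,0,⟨55,[(19,8),(0,16),(0,14),(14,6),(1,6),(1,3),(1,16)]⟩,⟨11,[(1,0),(1,2),
  (0,1),(3,7),(6,11),(17,1),(9,5)]⟩⟩]⟩) (.S ⟨1,0,[0,2,1,1],[0,1,0,0,1],[1,1,1],(⟨75,[(1,5),(19,2),
  (4,5),(1,75),(1,5),(5,12),(4,20),(0,5)]⟩,⟨0,[(0,0)]⟩),⟨0,[(28,0)]⟩,(.r 0 ⟨3,[(1,0),(1,0),(4,1),(6,
  1),(14,1),(2,1)]⟩ ⟨13,[(14,0),(5,6),(0,2),(8,1),(12,1),(4,3)]⟩),.k,⟨false,1,⟨6,[(14,0),(6,2),(8,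
  1),(12,1),(4,3)]⟩,⟨0,[(46,0)]⟩⟩,⟨true,0,⟨0,[(50,0)]⟩,⟨0,[]⟩⟩,⟨true,0,⟨0,[]⟩,⟨0,[(50,0)]⟩⟩,⟨false,
  0,⟨0,[(46,0)]⟩,⟨6,[(14,0),(6,2),(8,1),(12,1),(4,3)]⟩⟩,[.o ⟨false,(-1),⟨0,[(3,0),(27,0)]⟩,⟨9,[(4,
  3),(0,3),(8,1),(6,3),(3,1),(17,4),(4,6)]⟩⟩,.e ⟨false,0,⟨0,[]⟩,⟨1,[(25,0),(0,0),(20,0)]⟩⟩ ⟨false,0,
  ⟨11,[(1,4),(1,4),(4,1),(6,1),(14,1),(2,1),(6,3)]⟩,⟨13,[(14,0),(5,6),(0,2),(8,1),(12,1),(4,3)]⟩⟩,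
  .a ⟨true,0,⟨1,[(3,0),(6,0),(9,0),(5,0)]⟩,⟨0,[(1,0),(11,0),(18,0)]⟩⟩ ⟨false,0,⟨1,[(32,0),(0,0)]⟩,
  ⟨1,[(47,0),(0,0)]⟩⟩ ⟨true,(-1),⟨0,[(8,0),(6,1)]⟩,⟨13,[(14,0),(5,6),(0,2),(8,1),(12,1),(4,3)]⟩⟩,.o
  ⟨false,0,⟨1,[(3,1),(5,1),(33,0),(4,0)]⟩,⟨0,[(25,0)]⟩⟩]⟩)) (.R ⟨0,false,false,true,[1,-1,-1],[2,0,
  -1,0,-1],[1,1],(⟨0,[(22,0)]⟩,⟨217,[(7,5),(5,5),(7,5),(7,23),(4,217),(0,37),(4,59),(0,23),(4,2),(0,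
  8)]⟩),(⟨0,[(26,0),(6,0)]⟩,⟨2,[(1,1),(4,4),(20,0),(7,0),(4,2)]⟩),⟨2,[(6,1),(27,0),(0,0),(4,2)]⟩,.k,
  .k,(.r (-1) ⟨3,[(5,1),(2,3),(8,1),(24,0),(4,0)]⟩ ⟨11,[(2,6),(0,6),(3,3),(21,5),(2,12),(12,12),(1,
  2)]⟩),(.r 0 ⟨0,[(43,0)]⟩ ⟨11,[(2,0),(0,0),(3,3),(21,5),(2,6),(12,6),(1,8)]⟩),.k,.k,⟨true,(-1),⟨0,
  [(14,0)]⟩,⟨5,[(7,1),(2,1),(2,1),(17,0),(0,0),(14,1)]⟩⟩,⟨false,1,⟨0,[(4,0),(23,0)]⟩,⟨11,[(0,6),(1,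
  4),(4,3),(5,1),(18,7),(9,0),(4,4)]⟩⟩,⟨true,(-1),⟨2,[(2,0),(0,0),(3,0),(6,2),(17,0),(12,0)]⟩,⟨1,
  [(5,0),(7,0),(30,0)]⟩⟩,⟨false,1,⟨5,[(3,3),(0,1),(2,1),(20,1),(16,3),(0,0),(0,0)]⟩,⟨3,[(0,2),(1,0),
  (10,1),(28,0),(4,0)]⟩⟩,⟨false,0,⟨0,[]⟩,⟨0,[]⟩⟩,⟨false,0,⟨0,[]⟩,⟨0,[]⟩⟩,[.o ⟨false,1,⟨0,[(9,0),(14,
  0)]⟩,⟨1,[(0,0),(1,0),(39,0),(4,0)]⟩⟩,.a ⟨true,1,⟨5,[(3,3),(0,1),(2,1),(1,1),(3,1),(14,1),(12,0),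
  (4,0)]⟩,⟨1,[(0,0),(1,0)]⟩⟩ ⟨true,0,⟨0,[]⟩,⟨1,[(31,0),(0,0)]⟩⟩ ⟨false,2,⟨1,[(4,1),(4,1),(36,0),(0,
  0)]⟩,⟨1,[(0,0),(1,0),(29,1)]⟩⟩,.o ⟨false,0,⟨0,[(32,0)]⟩,⟨19,[(5,7),(1,1),(11,1),(9,3),(12,5),(3,
  0),(0,0)]⟩⟩,.o ⟨false,0,⟨1,[(31,0),(0,2)]⟩,⟨0,[(11,0)]⟩⟩]⟩)))) (.Q [0,0,0,0,0,0,0,0,0,0,1,-1]
  (.ed true [1,0,-1,0,1] (.r (-1) ⟨15,[(4,7),(5,3),(6,1),(8,7),(9,5),(2,2),(3,0)]⟩ ⟨0,[(11,0),(32,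
  0)]⟩)) (.S ⟨1,0,[],[1,0,0,0,-1],[0,-1],(⟨0,[(24,0)]⟩,⟨0,[(25,0)]⟩),⟨0,[(0,0),(19,0)]⟩,.k,(.r (-1)
  ⟨13,[(11,0),(5,6),(0,2),(8,1),(12,1),(4,3)]⟩ ⟨1,[(5,0),(6,0),(14,0),(2,0),(12,0)]⟩),⟨false,1,⟨1,
  [(22,0),(0,0),(21,0)]⟩,⟨0,[]⟩⟩,⟨true,0,⟨0,[(47,0)]⟩,⟨0,[]⟩⟩,⟨true,0,⟨0,[(43,0)]⟩,⟨0,[(42,0)]⟩⟩,
  ⟨false,0,⟨0,[(43,0)]⟩,⟨6,[(11,0),(6,2),(8,1),(12,1),(4,3)]⟩⟩,[.o ⟨false,1,⟨0,[(22,0)]⟩,⟨5,[(1,5),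
  (6,1),(3,3),(17,3),(8,0),(5,4)]⟩⟩,.a ⟨true,1,⟨4,[(2,0),(4,0),(4,0),(9,3),(16,1),(5,2),(0,0)]⟩,⟨17,
  [(1,17),(6,3),(3,13),(17,7),(8,10),(5,6),(0,5)]⟩⟩ ⟨true,1,⟨0,[(45,0)]⟩,⟨0,[(5,0),(4,0),(1,0)]⟩⟩
  ⟨false,1,⟨1,[(44,0),(0,0)]⟩,⟨0,[(47,0)]⟩⟩,.o ⟨false,1,⟨0,[(22,0)]⟩,⟨5,[(1,5),(6,1),(3,3),(17,3),
  (8,0),(5,4)]⟩⟩,.o ⟨false,1,⟨1,[(22,1),(6,0),(0,0)]⟩,⟨0,[(1,0),(10,0),(32,0)]⟩⟩]⟩) (.S ⟨1,0,[0,0,0,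
  0,0,0,0,1],[1,0,1,0,-1],[1,-1,0,-1,0,0,0,1],(⟨0,[(24,0),(7,0)]⟩,⟨0,[(0,0)]⟩),⟨1,[(4,0),(19,1),(7,
  0)]⟩,.k,(.r (-1) ⟨6,[(13,4),(3,0),(0,2),(0,0),(7,1),(12,1),(4,3)]⟩ ⟨0,[(5,0),(6,0)]⟩),⟨false,1,⟨6,
  [(11,0),(6,2),(8,1),(12,1),(4,3)]⟩,⟨0,[(43,0)]⟩⟩,⟨true,0,⟨0,[(47,0)]⟩,⟨0,[]⟩⟩,⟨true,0,⟨0,[]⟩,⟨0,
  [(47,0)]⟩⟩,⟨false,0,⟨0,[(43,0)]⟩,⟨6,[(11,0),(6,2),(8,1),(12,1),(4,3)]⟩⟩,[.a ⟨true,0,⟨17,[(2,9),(5,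
  3),(3,13),(9,7),(16,10),(5,6),(0,5)]⟩,⟨4,[(1,4),(5,0),(4,0),(17,3),(8,1),(5,2),(0,0)]⟩⟩ ⟨true,0,
  ⟨0,[(10,0),(34,0)]⟩,⟨0,[(5,0),(6,0)]⟩⟩ ⟨false,0,⟨0,[(13,0)]⟩,⟨7,[(5,3),(5,0),(5,0),(0,0),(8,1),
  (12,0),(3,0)]⟩⟩,.o ⟨false,1,⟨5,[(2,1),(5,1),(3,3),(9,3),(16,0),(5,4)]⟩,⟨0,[(1,0),(28,0)]⟩⟩,.o
  ⟨false,1,⟨1,[(2,0),(19,0),(6,0)]⟩,⟨0,[(1,0),(10,0),(17,0),(14,0)]⟩⟩,.o ⟨false,1,⟨0,[(22,0),(6,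
  0)]⟩,⟨0,[(1,0),(10,0),(1,0),(30,0)]⟩⟩]⟩))) (.Q [0,0,0,0,0,1,0,0,0,0,0,-1] (.ed true [1,-1,0,0,1]
  .k) (.R ⟨1,false,false,false,[1,0,0,0,-1],[1,0,-1,0,-1],[0,-1],(⟨0,[(23,0)]⟩,⟨0,[(24,0)]⟩),(⟨0,
  [(0,0),(18,0)]⟩,⟨0,[(24,0),(6,0)]⟩),⟨1,[(0,0),(2,0),(15,0),(3,0)]⟩,.k,.k,(.r (-1) ⟨13,[(10,0),(5,
  6),(0,2),(8,1),(12,1),(4,3)]⟩ ⟨1,[(4,0),(6,0),(14,0),(2,0),(12,0)]⟩),.k,.k,.k,⟨false,0,⟨0,[(12,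
  0)]⟩,⟨7,[(4,3),(5,0),(5,0),(0,0),(8,1),(12,0),(3,0)]⟩⟩,⟨true,0,⟨0,[(13,0)]⟩,⟨0,[(28,0)]⟩⟩,⟨false,
  1,⟨1,[(21,0),(0,0),(21,0)]⟩,⟨0,[]⟩⟩,⟨false,1,⟨3,[(10,1),(28,0),(2,1),(1,0)]⟩,⟨5,[(7,1),(4,1),(13,
  1),(11,0),(5,0)]⟩⟩,⟨true,0,⟨0,[(42,0)]⟩,⟨0,[(41,0)]⟩⟩,⟨false,1,⟨3,[(10,1),(28,0),(2,5),(1,0)]⟩,⟨1,
  [(7,0),(4,0),(4,0)]⟩⟩,[.o ⟨false,2,⟨3,[(10,1),(10,3),(17,0),(2,1),(1,0)]⟩,⟨4,[(1,4),(0,2),(4,1),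
  (3,2),(24,0)]⟩⟩,.a ⟨true,2,⟨0,[(6,0),(14,0),(22,0)]⟩,⟨9,[(1,9),(0,7),(1,4),(2,1),(1,4),(1,12),(24,
  0),(1,4)]⟩⟩ ⟨true,1,⟨0,[(44,0)]⟩,⟨0,[(4,0),(4,0),(1,0)]⟩⟩ ⟨false,2,⟨3,[(10,1),(28,0),(2,1),(0,1),
  (0,2)]⟩,⟨19,[(2,1),(1,4),(2,7),(1,4),(1,16),(24,8),(1,4)]⟩⟩,.o ⟨false,1,⟨0,[(21,0)]⟩,⟨2,[(1,1),(0,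
  0),(19,0),(16,0)]⟩⟩,.o ⟨false,1,⟨1,[(21,1),(6,0),(0,0)]⟩,⟨0,[(1,0),(6,0)]⟩⟩]⟩) (.Q [0,0,0,0,0,0,0,
  0,0,-1,1,1] (.ed false [0,0,1,0,1] (.r 1 ⟨0,[(11,0)]⟩ ⟨19,[(4,9),(5,7),(5,1),(9,15),(12,3),(3,2),
  (0,12)]⟩)) (.R ⟨0,false,false,false,[1,-1,-1],[-1,0,1,0,1],[0,0,1],(⟨0,[(20,0)]⟩,⟨217,[(5,5),(5,
  5),(7,5),(7,23),(4,217),(0,37),(4,59),(0,23),(4,2),(0,8)]⟩),(⟨0,[(0,0)]⟩,⟨0,[(24,0),(6,0)]⟩),⟨2,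
  [(4,1),(27,0),(0,0),(4,2)]⟩,.k,.k,(.r (-1) ⟨3,[(3,1),(2,3),(8,1),(24,0),(4,0)]⟩ ⟨3,[(8,1),(18,1),
  (2,5),(8,0),(3,7),(1,0)]⟩),(.r (-2) ⟨5,[(3,3),(1,1),(5,3),(6,1),(21,0),(4,0)]⟩ ⟨0,[(8,0),(3,0),(6,
  0),(23,0)]⟩),.k,.k,⟨true,1,⟨5,[(5,1),(2,1),(2,1),(17,0),(0,0),(14,1)]⟩,⟨0,[(12,0)]⟩⟩,⟨false,1,⟨2,
  [(2,1),(0,3),(19,0),(16,0)]⟩,⟨1,[(7,1),(4,1),(9,1),(7,1),(8,0),(5,0)]⟩⟩,⟨false,0,⟨2,[(8,1),(3,0),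
  (17,3),(8,0),(3,2),(1,1)]⟩,⟨1,[(3,0),(7,0),(4,0)]⟩⟩,⟨true,(-1),⟨3,[(2,3),(0,2),(4,2),(3,3),(0,0),
  (26,0),(2,3)]⟩,⟨0,[(6,0),(0,0),(14,0)]⟩⟩,⟨false,0,⟨0,[]⟩,⟨0,[]⟩⟩,⟨false,0,⟨0,[]⟩,⟨0,[]⟩⟩,[.a
  ⟨true,(-1),⟨4,[(2,4),(0,2),(4,1),(3,2),(24,0)]⟩,⟨1,[(6,1),(15,1),(16,0),(3,1),(1,0)]⟩⟩ ⟨true,0,⟨1,
  [(29,0),(0,0)]⟩,⟨0,[]⟩⟩ ⟨false,0,⟨2,[(2,1),(0,3),(8,2),(10,0),(16,0)]⟩,⟨4,[(7,5),(4,0),(9,4),(7,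
  3),(8,1),(5,2),(0,0)]⟩⟩,.o ⟨false,0,⟨1,[(2,1),(0,0),(4,0),(4,0),(26,0)]⟩,⟨0,[(7,0),(14,0)]⟩⟩,.o
  ⟨false,0,⟨0,[(30,0)]⟩,⟨19,[(3,7),(1,1),(11,1),(9,3),(12,5),(3,0),(0,0)]⟩⟩,.o ⟨false,0,⟨1,[(29,0),
  (0,2)]⟩,⟨0,[(9,0)]⟩⟩]⟩) (.R ⟨1,false,false,false,[1,0,0,0,-1],[1,0,-1,0,-1],[0,-1],(⟨0,[(24,0)]⟩,
  ⟨0,[(25,0)]⟩),(⟨0,[(0,0)]⟩,⟨0,[(25,0),(6,0)]⟩),⟨1,[(0,0),(3,0),(19,0)]⟩,.k,.k,(.r (-1) ⟨13,[(11,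
  0),(5,6),(0,2),(8,1),(12,1),(4,3)]⟩ ⟨1,[(5,0),(6,0),(14,0),(2,0),(12,0)]⟩),.k,.k,.k,⟨false,0,⟨0,
  [(13,0)]⟩,⟨7,[(5,3),(5,0),(5,0),(0,0),(8,1),(12,0),(3,0)]⟩⟩,⟨true,0,⟨0,[(14,0)]⟩,⟨0,[(29,0)]⟩⟩,
  ⟨false,1,⟨1,[(22,0),(0,0),(21,0)]⟩,⟨0,[]⟩⟩,⟨false,1,⟨3,[(11,1),(28,0),(2,1),(1,0)]⟩,⟨5,[(8,1),(4,
  1),(13,1),(11,0),(5,0)]⟩⟩,⟨true,0,⟨0,[(43,0)]⟩,⟨0,[(42,0)]⟩⟩,⟨false,1,⟨3,[(11,1),(28,0),(2,5),(1,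
  0)]⟩,⟨1,[(8,0),(4,0),(4,0)]⟩⟩,[.o ⟨false,2,⟨3,[(11,1),(10,3),(17,0),(2,1),(1,0)]⟩,⟨4,[(2,4),(0,2),
  (4,1),(3,2),(24,0)]⟩⟩,.a ⟨true,2,⟨0,[(7,0),(14,0),(22,0)]⟩,⟨9,[(2,9),(0,7),(1,4),(2,1),(1,4),(1,
  12),(24,0),(1,4)]⟩⟩ ⟨true,1,⟨0,[(45,0)]⟩,⟨0,[(5,0),(4,0),(1,0)]⟩⟩ ⟨false,2,⟨3,[(11,1),(28,0),(2,
  1),(0,1),(0,2)]⟩,⟨19,[(3,1),(1,4),(2,7),(1,4),(1,16),(24,8),(1,4)]⟩⟩,.o ⟨false,1,⟨0,[(22,0)]⟩,⟨2,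
  [(2,1),(0,0),(19,0),(16,0)]⟩⟩,.o ⟨false,1,⟨1,[(22,1),(6,0),(0,0)]⟩,⟨0,[(2,0),(6,0)]⟩⟩]⟩)))))) (.Q
  [0,0,0,0,0,2,0,0,0,0,-1] (.p false [0,0,1] [] (⟨0,[(27,0)]⟩,⟨0,[(26,0)]⟩) .k 0 (⟨0,[]⟩,⟨0,[]⟩) .k
  .k) (.R ⟨0,false,false,true,[0,-1,1],[1,0,-1],[1],(⟨0,[(17,0)]⟩,⟨25,[(0,11),(2,5),(19,5),(3,13),
  (1,1),(5,2),(5,2)]⟩),(⟨0,[(27,0)]⟩,⟨0,[(28,0)]⟩),⟨0,[(0,0)]⟩,.k,.k,(.r 0 ⟨97,[(1,47),(9,35),(1,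
  37),(0,18),(0,0),(7,1),(12,9)]⟩ ⟨5,[(7,1),(10,2),(0,2),(4,1),(0,8),(0,2),(9,0),(2,13)]⟩),(.x (-1)
  ⟨11,[(0,5),(4,3),(12,0),(0,0),(5,19),(1,17),(8,6)]⟩ ⟨2,[(1,0),(1,0),(6,3),(2,0),(3,5),(6,0),(9,0),
  (4,1)]⟩),.k,.k,⟨true,0,⟨13,[(1,5),(2,1),(21,3),(8,0),(3,5),(1,6)]⟩,⟨0,[(24,0),(0,0)]⟩⟩,⟨false,0,
  ⟨1,[(1,0),(1,0),(6,0),(2,0),(8,0),(1,0),(14,1)]⟩,⟨2,[(5,0),(12,0),(0,0),(5,4),(10,0)]⟩⟩,⟨false,1,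
  ⟨3,[(7,1),(17,3),(10,0),(2,5),(1,0)]⟩,⟨97,[(1,37),(9,3),(1,25),(0,12),(0,10),(7,21),(12,11)]⟩⟩,
  ⟨true,0,⟨0,[(3,0),(20,0),(14,0)]⟩,⟨65,[(1,27),(2,55),(8,13),(0,11),(8,19),(12,10),(4,2)]⟩⟩,⟨false,
  0,⟨0,[]⟩,⟨0,[]⟩⟩,⟨false,0,⟨0,[]⟩,⟨0,[]⟩⟩,[.o ⟨false,0,⟨0,[(24,0)]⟩,⟨2,[(4,0),(4,0),(13,0),(12,0),
  (4,1)]⟩⟩,.e ⟨false,1,⟨1,[(40,0),(0,0)]⟩,⟨0,[(43,0)]⟩⟩ ⟨false,1,⟨5,[(7,1),(14,5),(1,1),(11,0),(2,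
  1),(0,2)]⟩,⟨0,[(4,0)]⟩⟩,.e ⟨true,0,⟨0,[]⟩,⟨0,[(43,0)]⟩⟩ ⟨true,0,⟨0,[(22,0),(1,0)]⟩,⟨0,[(4,0)]⟩⟩,
  .a ⟨true,0,⟨1,[(25,2),(0,0)]⟩,⟨2,[(1,0),(1,1),(8,0),(0,0),(8,0),(16,2)]⟩⟩ ⟨false,1,⟨1,[(40,0),(0,
  0)]⟩,⟨1,[(25,0),(0,0)]⟩⟩ ⟨true,0,⟨2,[(1,0),(1,1),(8,0),(0,0),(8,0),(1,2),(14,2)]⟩,⟨1,[(4,1),(20,
  0),(0,0)]⟩⟩]⟩) (.I [1,0,1,1,1,0,0,-2] (.N [0,-1,2] 1 ⟨0,[(2,0)]⟩ ⟨0,[(0,0)]⟩ (.x (-1) ⟨50,[(0,24),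
  (4,49),(0,1),(5,4),(1,4),(0,4),(12,101),(6,16),(1,18)]⟩ ⟨4,[(1,6),(0,0),(1,0),(6,5),(2,0),(8,1),
  (1,0),(3,2),(5,2),(4,1)]⟩)) (.Q [0,0,2,0,-1,0,-2,0,0,1,-2] (.p false [0,0,1] [1,0,-1] (⟨0,[(29,
  0)]⟩,⟨0,[(28,0)]⟩) .k 2 (⟨0,[(28,0)]⟩,⟨0,[(29,0)]⟩) .k (.r 1 ⟨6,[(2,5),(2,1),(21,3),(8,0),(3,5)]⟩
  ⟨3,[(6,1),(1,3),(10,0),(0,0),(5,5),(7,1),(2,0),(2,3)]⟩)) (.R ⟨0,false,false,false,[1,-1,-1],[0,0,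
  1],[1],(⟨0,[(18,0)]⟩,⟨13,[(5,1),(19,1),(4,13),(0,1),(4,3),(0,0),(5,0)]⟩),(⟨0,[(30,0)]⟩,⟨0,[(29,
  0)]⟩),⟨2,[(2,1),(27,0),(0,0),(4,2)]⟩,.k,.k,(.x 1 ⟨2,[(0,1),(0,0),(0,2),(1,1),(22,2),(8,3),(4,2)]⟩
  ⟨1,[(7,1),(10,1),(1,0),(0,0),(11,1),(4,0)]⟩),(.r (-2) ⟨11,[(7,9),(1,11),(10,0),(0,0),(5,13),(7,5),
  (2,0)]⟩ ⟨2,[(0,1),(2,0),(2,1),(4,1),(29,3)]⟩),.k,.k,⟨false,1,⟨4,[(5,0),(1,2),(1,1),(17,1),(7,0),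
  (5,1)]⟩,⟨11,[(0,2),(5,0),(4,6),(13,3),(12,0),(4,1)]⟩⟩,⟨true,1,⟨0,[(7,0),(19,0)]⟩,⟨0,[(0,0)]⟩⟩,
  ⟨false,0,⟨1,[(0,0),(5,0),(4,0),(29,1),(1,0)]⟩,⟨9,[(7,4),(1,4),(3,1),(13,4),(7,0),(4,0)]⟩⟩,⟨true,0,
  ⟨0,[(6,0),(4,0),(29,0)]⟩,⟨0,[(4,0),(21,0)]⟩⟩,⟨false,0,⟨0,[]⟩,⟨0,[]⟩⟩,⟨false,0,⟨0,[]⟩,⟨0,[]⟩⟩,[.a
  ⟨true,0,⟨5,[(6,1),(4,1),(13,1),(11,0),(5,0)]⟩,⟨0,[(5,0)]⟩⟩ ⟨true,0,⟨0,[]⟩,⟨1,[(27,0),(0,0)]⟩⟩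
  ⟨false,1,⟨5,[(6,1),(0,5),(3,1),(13,1),(11,0),(5,0)]⟩,⟨0,[(5,0),(22,0)]⟩⟩,.o ⟨false,1,⟨2,[(6,0),(4,
  0),(13,0),(12,0),(4,1)]⟩,⟨0,[(26,0)]⟩⟩,.o ⟨false,0,⟨0,[(28,0)]⟩,⟨5,[(7,3),(12,0),(0,0),(5,1),(10,
  0)]⟩⟩,.o ⟨false,0,⟨1,[(27,0),(0,2)]⟩,⟨0,[(7,0)]⟩⟩]⟩) (.Q [0,0,1,0,0,0,-1,0,-1,1,-1,-1] (.p false
  [0,0,1] [1,0,0,0,-1] (⟨0,[(30,0)]⟩,⟨0,[(29,0)]⟩) .k 2 (⟨0,[(22,0)]⟩,⟨0,[(23,0)]⟩) .k (.r 1 ⟨0,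
  [(10,0)]⟩ ⟨7,[(0,1),(8,3),(10,6),(0,6),(5,3),(10,0),(2,3),(1,1)]⟩)) (.Q [0,1,0,0,0,0,0,0,1,-1,0,
  1] (.p true [0,0,0,0,1] [1] (⟨0,[(24,0)]⟩,⟨0,[(23,0)]⟩) .k 1 (⟨0,[]⟩,⟨0,[]⟩) .k .k) (.Q [0,-2,0,
  -1,1,0,0,0,-1,1,0,-1] (.p false [0,0,0,0,1] [1] (⟨0,[(25,0)]⟩,⟨0,[(24,0)]⟩) .k 1 (⟨0,[]⟩,⟨0,[]⟩)
  .k .k) (.Q [0,-2,0,0,1,0,-1,-1,-1,1,-1,-1] (.p false [0,0,1] [1,0,0,0,-1] (⟨0,[(33,0)]⟩,⟨0,[(32,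
  0)]⟩) .k 2 (⟨0,[(25,0)]⟩,⟨0,[(26,0)]⟩) .k (.r 1 ⟨0,[(13,0)]⟩ ⟨7,[(1,1),(1,1),(8,3),(10,6),(0,4),
  (5,3),(13,3),(1,2)]⟩)) (.R ⟨0,false,false,true,[1,-1,-1],[1,0,0,0,-1],[1],(⟨0,[(22,0)]⟩,⟨13,[(9,
  1),(19,1),(4,13),(0,1),(4,3),(0,0),(5,0)]⟩),(⟨0,[(26,0)]⟩,⟨0,[(27,0)]⟩),⟨2,[(6,1),(27,0),(0,0),(4,
  2)]⟩,.k,.k,(.r (-1) ⟨6,[(4,3),(2,0),(0,3),(1,0),(2,2),(3,2),(24,0)]⟩ ⟨3,[(10,1),(18,1),(2,5),(8,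
  0),(3,7),(1,0)]⟩),(.r (-1) ⟨17,[(2,1),(1,6),(8,8),(10,1),(6,3),(7,7),(4,8)]⟩ ⟨13,[(7,3),(2,5),(21,
  11),(8,2),(3,17),(1,6)]⟩),.k,.k,⟨true,0,⟨0,[]⟩,⟨1,[(31,0),(0,0)]⟩⟩,⟨false,1,⟨2,[(0,1),(2,0),(0,2),
  (9,1),(24,0)]⟩,⟨0,[(25,0),(6,0)]⟩⟩,⟨false,0,⟨13,[(7,3),(2,5),(21,11),(8,2),(3,17),(1,6)]⟩,⟨1,[(4,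
  0),(8,0),(30,0)]⟩⟩,⟨true,0,⟨1,[(0,0),(2,0),(0,0),(5,0),(3,1),(30,1)]⟩,⟨0,[(2,0),(5,0)]⟩⟩,⟨false,0,
  ⟨0,[]⟩,⟨0,[]⟩⟩,⟨false,0,⟨0,[]⟩,⟨0,[]⟩⟩,[.a ⟨true,0,⟨8,[(0,3),(2,4),(0,3),(9,5),(15,1),(0,2),(9,
  1)]⟩,⟨0,[(25,0)]⟩⟩ ⟨true,0,⟨0,[]⟩,⟨1,[(31,0),(0,0)]⟩⟩ ⟨false,1,⟨2,[(0,1),(2,0),(0,2),(9,1),(24,
  0)]⟩,⟨0,[(25,0),(6,0)]⟩⟩,.o ⟨false,1,⟨22,[(0,11),(3,0),(2,2),(2,4),(3,0),(9,10),(17,2),(2,2)]⟩,⟨0,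
  [(2,0)]⟩⟩,.o ⟨false,0,⟨0,[(32,0)]⟩,⟨7,[(2,1),(1,3),(19,1),(17,0),(4,0)]⟩⟩,.o ⟨false,0,⟨1,[(31,0),
  (0,2)]⟩,⟨0,[(11,0)]⟩⟩]⟩) (.Q [0,-1,0,0,1,0,0,0,-1,0,0,-1] (.p false [0,0,0,0,1] [] (⟨0,[(27,0)]⟩,
  ⟨0,[(26,0)]⟩) .k 0 (⟨0,[]⟩,⟨0,[]⟩) .k .k) (.R ⟨0,false,false,true,[1,-1,-1],[0,0,0,0,1],[1],(⟨0,
  [(23,0)]⟩,⟨13,[(10,1),(19,1),(4,13),(0,1),(4,3),(0,0),(5,0)]⟩),(⟨0,[(28,0)]⟩,⟨0,[(27,0)]⟩),⟨2,[(7,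
  1),(27,0),(0,0),(4,2)]⟩,.k,.k,(.r (-1) ⟨6,[(5,3),(2,0),(0,3),(1,0),(2,2),(3,2),(24,0)]⟩ ⟨3,[(11,
  1),(18,1),(2,5),(8,0),(3,7),(1,0)]⟩),(.r (-2) ⟨13,[(5,6),(8,11),(6,0),(8,9),(12,2),(4,5)]⟩ ⟨1,
  [(15,1),(16,0),(0,0),(12,1)]⟩),.k,.k,⟨true,1,⟨0,[(48,0)]⟩,⟨0,[(15,0),(15,0),(0,0)]⟩⟩,⟨false,1,⟨0,
  [(12,0),(13,0)]⟩,⟨0,[(4,0)]⟩⟩,⟨false,0,⟨13,[(8,3),(2,5),(21,11),(8,2),(3,17),(1,6)]⟩,⟨1,[(5,0),(8,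
  0),(30,0)]⟩⟩,⟨true,(-1),⟨0,[(1,0),(44,0)]⟩,⟨0,[(0,0),(8,0)]⟩⟩,⟨false,0,⟨0,[]⟩,⟨0,[]⟩⟩,⟨false,0,⟨0,
  []⟩,⟨0,[]⟩⟩,[.a ⟨true,(-1),⟨0,[(1,0),(8,0)]⟩,⟨3,[(0,1),(1,1),(39,0),(3,1),(1,0)]⟩⟩ ⟨true,0,⟨0,[]⟩,
  ⟨1,[(32,0),(0,0)]⟩⟩ ⟨false,0,⟨1,[(1,0),(1,0),(1,0),(4,0),(8,0),(26,0)]⟩,⟨0,[(4,0),(43,0)]⟩⟩,.o
  ⟨false,0,⟨0,[(3,0)]⟩,⟨0,[(0,0)]⟩⟩,.o ⟨false,0,⟨0,[(33,0)]⟩,⟨7,[(3,1),(1,3),(19,1),(17,0),(4,0)]⟩⟩,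
  .o ⟨false,0,⟨1,[(32,0),(0,2)]⟩,⟨0,[(12,0)]⟩⟩]⟩) (.R ⟨0,false,false,true,[1,-1,-1],[0,0,0,0,1],[1],
  (⟨0,[(23,0)]⟩,⟨13,[(10,1),(19,1),(4,13),(0,1),(4,3),(0,0),(5,0)]⟩),(⟨0,[(28,0)]⟩,⟨0,[(27,0)]⟩),⟨2,
  [(7,1),(27,0),(0,0),(4,2)]⟩,.k,.k,(.r (-1) ⟨6,[(5,3),(2,0),(0,3),(1,0),(2,2),(3,2),(24,0)]⟩ ⟨3,
  [(11,1),(18,1),(2,5),(8,0),(3,7),(1,0)]⟩),(.r (-2) ⟨13,[(5,6),(8,11),(6,0),(8,9),(12,2),(4,5)]⟩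
  ⟨2,[(0,0),(3,0),(6,0),(3,1),(17,0),(12,2)]⟩),.k,.k,⟨true,1,⟨0,[(48,0)]⟩,⟨0,[(15,0),(15,0),(0,
  0)]⟩⟩,⟨false,1,⟨0,[(12,0),(13,0)]⟩,⟨0,[(4,0)]⟩⟩,⟨false,0,⟨13,[(8,3),(2,5),(21,11),(8,2),(3,17),(1,
  6)]⟩,⟨1,[(5,0),(8,0),(30,0)]⟩⟩,⟨true,(-1),⟨0,[(1,0),(44,0)]⟩,⟨0,[(2,0),(28,0)]⟩⟩,⟨false,0,⟨0,[]⟩,
  ⟨0,[]⟩⟩,⟨false,0,⟨0,[]⟩,⟨0,[]⟩⟩,[.a ⟨true,(-1),⟨0,[(0,0),(49,0)]⟩,⟨0,[(2,0),(43,0)]⟩⟩ ⟨true,0,⟨0,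
  []⟩,⟨1,[(32,0),(0,0)]⟩⟩ ⟨false,0,⟨3,[(0,2),(2,0),(1,0),(6,1),(27,1)]⟩,⟨0,[(4,0),(43,0)]⟩⟩,.e
  ⟨false,1,⟨1,[(47,0),(0,0)]⟩,⟨0,[(50,0)]⟩⟩ ⟨false,0,⟨0,[(0,0),(11,0)]⟩,⟨1,[(4,1),(20,0),(0,0),(21,
  0)]⟩⟩,.o ⟨false,0,⟨0,[(33,0)]⟩,⟨7,[(3,1),(1,3),(19,1),(17,0),(4,0)]⟩⟩,.o ⟨false,0,⟨1,[(32,0),(0,
  2)]⟩,⟨0,[(12,0)]⟩⟩]⟩))) (.Q [0,0,0,0,0,0,0,0,0,0,1,-1] (.ed true [1,0,-1,0,1] (.r (-1) ⟨17,[(1,6),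
  (1,1),(8,8),(10,6),(6,13),(7,9),(5,8)]⟩ ⟨13,[(6,5),(2,1),(21,3),(8,0),(3,5),(1,6)]⟩)) (.Q [0,1,0,
  0,-1,0,-1,-1,1,1,-1,1] (.p true [1,0,-1,0,1] [] (⟨0,[(27,0),(5,0)]⟩,⟨0,[(0,0)]⟩) .k 0 (⟨0,[]⟩,⟨0,
  []⟩) .k (.r (-1) ⟨17,[(2,6),(1,1),(8,8),(10,6),(6,13),(7,9),(5,8)]⟩ ⟨13,[(7,5),(2,1),(21,3),(8,0),
  (3,5),(1,6)]⟩)) (.R ⟨0,false,false,false,[1,-1,-1],[0,0,1,0,-1],[0,0,1],(⟨0,[(23,0)]⟩,⟨13,[(10,1),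
  (19,1),(4,13),(0,1),(4,3),(0,0),(5,0)]⟩),(⟨0,[(1,0)]⟩,⟨0,[(28,0),(5,0)]⟩),⟨2,[(7,1),(27,0),(0,0),
  (4,2)]⟩,.k,.k,(.r (-1) ⟨6,[(5,3),(2,0),(0,3),(1,0),(2,2),(3,2),(24,0)]⟩ ⟨3,[(11,1),(18,1),(2,5),
  (8,0),(3,7),(1,0)]⟩),(.r (-1) ⟨3,[(5,2),(3,1),(4,0),(16,3),(0,1),(12,0)]⟩ ⟨13,[(8,5),(2,15),(10,
  13),(10,3),(8,0),(3,19),(1,6)]⟩),.k,.k,⟨true,0,⟨0,[(31,0),(0,0)]⟩,⟨13,[(8,5),(2,1),(21,3),(8,0),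
  (3,5),(1,6)]⟩⟩,⟨false,2,⟨0,[(5,0),(19,0)]⟩,⟨2,[(0,1),(1,0),(3,0),(26,3),(8,0),(5,1)]⟩⟩,⟨false,0,
  ⟨13,[(8,1),(2,9),(21,19),(8,4),(3,15),(1,6)]⟩,⟨1,[(5,0),(8,0),(4,0)]⟩⟩,⟨true,1,⟨13,[(4,3),(0,3),
  (2,7),(2,11),(13,9),(17,0),(2,21),(1,6)]⟩,⟨0,[(2,0),(6,1)]⟩⟩,⟨false,0,⟨0,[]⟩,⟨0,[]⟩⟩,⟨false,0,⟨0,
  []⟩,⟨0,[]⟩⟩,[.a ⟨true,1,⟨13,[(4,1),(0,1),(2,3),(2,5),(13,11),(16,2),(3,3),(1,6)]⟩,⟨0,[(0,0)]⟩⟩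
  ⟨true,0,⟨1,[(32,0),(0,0)]⟩,⟨0,[]⟩⟩ ⟨false,2,⟨5,[(5,4),(2,1),(2,0),(4,0),(8,5),(20,1),(1,2)]⟩,⟨0,
  [(0,0),(32,0)]⟩⟩,.o ⟨false,2,⟨6,[(4,0),(0,0),(2,1),(2,2),(13,5),(17,1),(2,1),(1,6)]⟩,⟨0,[(2,0),(6,
  0)]⟩⟩,.o ⟨false,0,⟨0,[(33,0)]⟩,⟨7,[(3,1),(1,3),(19,1),(17,0),(4,0)]⟩⟩,.o ⟨false,0,⟨1,[(32,0),(0,
  2)]⟩,⟨0,[(12,0)]⟩⟩]⟩) (.R ⟨0,false,false,true,[1,-1,-1],[0,0,0,0,1],[1],(⟨0,[(23,0)]⟩,⟨13,[(10,1),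
  (19,1),(4,13),(0,1),(4,3),(0,0),(5,0)]⟩),(⟨0,[(28,0)]⟩,⟨0,[(27,0)]⟩),⟨2,[(7,1),(27,0),(0,0),(4,
  2)]⟩,.k,.k,(.r (-1) ⟨6,[(5,3),(2,0),(0,3),(1,0),(2,2),(3,2),(24,0)]⟩ ⟨3,[(11,1),(18,1),(2,5),(8,
  0),(3,7),(1,0)]⟩),(.r (-2) ⟨13,[(5,6),(8,11),(6,0),(8,9),(12,2),(4,5)]⟩ ⟨5,[(2,0),(1,0),(6,1),(3,
  3),(17,2),(8,0),(3,4)]⟩),.k,.k,⟨true,1,⟨0,[(48,0)]⟩,⟨0,[(15,0),(15,0),(0,0)]⟩⟩,⟨false,1,⟨0,[(12,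
  0),(13,0)]⟩,⟨0,[(4,0)]⟩⟩,⟨false,0,⟨13,[(8,3),(2,5),(21,11),(8,2),(3,17),(1,6)]⟩,⟨1,[(5,0),(8,0),
  (30,0)]⟩⟩,⟨true,(-1),⟨7,[(2,6),(8,2),(4,2),(9,0),(3,1),(11,0),(3,0)]⟩,⟨0,[(0,0),(8,0),(0,0)]⟩⟩,
  ⟨false,0,⟨0,[]⟩,⟨0,[]⟩⟩,⟨false,0,⟨0,[]⟩,⟨0,[]⟩⟩,[.a ⟨true,(-1),⟨3,[(2,2),(18,0),(4,0),(15,0),(2,
  0),(4,0)]⟩,⟨1,[(0,1),(8,1),(32,0),(3,1),(1,0)]⟩⟩ ⟨true,0,⟨0,[]⟩,⟨1,[(32,0),(0,0)]⟩⟩ ⟨false,0,⟨5,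
  [(2,2),(2,2),(12,0),(0,0),(6,2),(13,1)]⟩,⟨0,[(4,0),(43,0)]⟩⟩,.o ⟨false,0,⟨0,[(3,0)]⟩,⟨0,[(0,0),(9,
  0)]⟩⟩,.o ⟨false,0,⟨0,[(33,0)]⟩,⟨7,[(3,1),(1,3),(19,1),(17,0),(4,0)]⟩⟩,.o ⟨false,0,⟨1,[(32,0),(0,
  2)]⟩,⟨0,[(12,0)]⟩⟩]⟩)) (.Q [0,0,0,0,0,0,1,0,1,-1,1,1] (.p true [-1,0,1,0,1] [] (⟨2,[(0,1),(5,4),
  (20,0),(7,0),(4,2)]⟩,⟨0,[(26,0),(6,0)]⟩) .k 0 (⟨0,[]⟩,⟨0,[]⟩) .k (.r 1 ⟨0,[(14,0)]⟩ ⟨7,[(2,1),(1,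
  1),(8,3),(10,6),(0,4),(5,3),(13,3),(1,2)]⟩)) (.S ⟨1,0,[0,0,0,0,0,0,0,1],[1,0,1,0,-1],[1,-1,0,-1,0,
  0,0,1],(⟨0,[(27,0),(7,0)]⟩,⟨0,[(1,0)]⟩),⟨1,[(7,0),(19,1),(7,0)]⟩,.k,(.r (-1) ⟨45,[(8,9),(11,17),
  (0,8),(0,12),(7,25),(12,10),(4,26)]⟩ ⟨0,[(31,0),(0,0),(13,0)]⟩),⟨false,1,⟨6,[(14,0),(6,2),(8,1),
  (12,1),(4,3)]⟩,⟨0,[(46,0)]⟩⟩,⟨true,0,⟨0,[(50,0)]⟩,⟨0,[]⟩⟩,⟨true,0,⟨0,[]⟩,⟨0,[(50,0)]⟩⟩,⟨false,0,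
  ⟨0,[(46,0)]⟩,⟨6,[(14,0),(6,2),(8,1),(12,1),(4,3)]⟩⟩,[.a ⟨true,0,⟨41,[(4,27),(0,16),(0,11),(4,17),
  (13,13),(10,10),(1,10),(3,18),(3,11)]⟩,⟨17,[(0,5),(1,11),(3,1),(3,1),(3,9),(18,1),(8,2),(5,6)]⟩⟩
  ⟨true,0,⟨0,[(13,0),(34,0)]⟩,⟨0,[(31,0),(0,0),(13,0)]⟩⟩ ⟨false,0,⟨0,[(16,0)]⟩,⟨17,[(3,4),(1,3),(8,
  8),(10,4),(6,9),(7,1),(5,8)]⟩⟩,.o ⟨false,1,⟨13,[(4,1),(0,1),(2,3),(2,5),(13,11),(16,2),(3,3),(1,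
  6)]⟩,⟨19,[(0,4),(1,14),(5,0),(4,1),(0,11),(18,0),(9,5)]⟩⟩,.o ⟨false,1,⟨1,[(4,0),(0,0),(19,0),(6,
  0)]⟩,⟨4,[(0,0),(1,3),(5,1),(5,1),(18,1),(9,0),(4,2)]⟩⟩,.o ⟨false,1,⟨0,[(25,0),(6,0)]⟩,⟨2,[(0,2),
  (7,2),(5,1),(16,1),(11,0),(2,4)]⟩⟩]⟩) (.Q [0,0,0,0,0,0,0,0,1,-1,0,1] (.p true [0,0,0,0,1] [1] (⟨0,
  [(28,0)]⟩,⟨0,[(27,0)]⟩) .k 1 (⟨0,[]⟩,⟨0,[]⟩) .k .k) (.Q [0,0,0,0,0,1,0,0,0,-1,0,1] (.ed false [0,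
  1,0,0,1] .k) (.R ⟨0,false,false,true,[1,0,0,0,-1],[2,-1,0,0,-1],[0,0,0,-1],(⟨0,[(29,0)]⟩,⟨0,[(30,
  0)]⟩),(⟨0,[(29,0),(10,0)]⟩,⟨0,[(0,0)]⟩),⟨0,[(0,0)]⟩,.k,(.r (-1) ⟨13,[(16,0),(5,6),(0,2),(8,1),(12,
  1),(4,3)]⟩ ⟨1,[(34,0),(0,0),(12,1),(3,1)]⟩),(.r (-1) ⟨13,[(16,0),(5,6),(0,2),(8,1),(12,1),(4,3)]⟩
  ⟨1,[(34,0),(0,0),(12,1),(3,1)]⟩),.k,.k,.k,⟨true,0,⟨1,[(34,0),(0,0)]⟩,⟨0,[]⟩⟩,⟨false,0,⟨13,[(12,5),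
  (19,5),(5,1),(1,1),(3,2),(5,2)]⟩,⟨1,[(45,0),(3,0)]⟩⟩,⟨true,0,⟨0,[(47,0)]⟩,⟨0,[(48,0)]⟩⟩,⟨false,0,
  ⟨57,[(16,5),(6,25),(8,11),(5,7),(1,7),(3,8),(5,2)]⟩,⟨1,[(45,0),(2,1),(1,0)]⟩⟩,⟨false,0,⟨0,[]⟩,⟨0,
  []⟩⟩,⟨false,0,⟨0,[]⟩,⟨0,[]⟩⟩,[.e ⟨false,1,⟨3,[(16,0),(5,0),(0,0),(8,1),(12,0),(3,0)]⟩,⟨0,[(48,
  0)]⟩⟩ ⟨false,0,⟨55,[(21,8),(0,16),(0,14),(14,6),(1,6),(1,3),(1,16)]⟩,⟨3,[(5,1),(21,1),(17,0),(2,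
  3),(1,0)]⟩⟩,.o ⟨false,1,⟨5,[(2,3),(4,0),(15,2),(3,1),(6,1),(15,2)]⟩,⟨1,[(4,1),(40,0),(4,0)]⟩⟩,.o
  ⟨false,1,⟨0,[(27,0)]⟩,⟨0,[(1,0)]⟩⟩,.a ⟨true,0,⟨0,[(2,0),(31,0)]⟩,⟨3,[(4,1),(17,1),(5,1),(15,0),(5,
  0)]⟩⟩ ⟨false,1,⟨13,[(16,0),(5,6),(0,2),(8,1),(12,1),(4,3)]⟩,⟨1,[(34,0),(0,0),(12,1)]⟩⟩ ⟨true,0,
  ⟨55,[(21,8),(0,16),(0,14),(14,6),(1,6),(1,3),(1,16)]⟩,⟨1,[(4,0),(1,0),(27,0),(10,0),(2,0)]⟩⟩]⟩)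
  (.S ⟨1,0,[0,2,1,1],[0,1,0,0,1],[1,1,1],(⟨13,[(12,1),(17,13),(1,1),(5,1),(4,3),(0,0),(5,0)]⟩,⟨0,
  [(0,0)]⟩),⟨0,[(30,0)]⟩,(.r 0 ⟨1,[(34,0),(0,0),(12,1),(3,1)]⟩ ⟨13,[(16,0),(5,6),(0,2),(8,1),(12,1),
  (4,3)]⟩),.k,⟨false,1,⟨6,[(16,0),(6,2),(8,1),(12,1),(4,3)]⟩,⟨0,[(48,0)]⟩⟩,⟨true,0,⟨0,[(52,0)]⟩,⟨0,
  []⟩⟩,⟨true,0,⟨0,[]⟩,⟨0,[(52,0)]⟩⟩,⟨false,0,⟨0,[(48,0)]⟩,⟨6,[(16,0),(6,2),(8,1),(12,1),(4,3)]⟩⟩,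
  [.o ⟨false,(-1),⟨0,[(4,0)]⟩,⟨4,[(2,1),(10,1),(2,0),(3,0),(2,0),(3,2),(17,0),(4,4)]⟩⟩,.e ⟨false,0,
  ⟨0,[]⟩,⟨1,[(27,0),(0,0),(20,0)]⟩⟩ ⟨false,0,⟨0,[(48,0),(3,0)]⟩,⟨13,[(16,0),(5,6),(0,2),(8,1),(12,
  1),(4,3)]⟩⟩,.a ⟨true,0,⟨3,[(4,1),(17,1),(5,1),(15,0),(5,0)]⟩,⟨0,[(2,0),(31,0)]⟩⟩ ⟨false,0,⟨1,[(34,
  0),(0,0)]⟩,⟨1,[(49,0),(0,0)]⟩⟩ ⟨true,(-1),⟨0,[(2,0),(1,0),(29,0)]⟩,⟨13,[(16,0),(5,6),(0,2),(8,1),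
  (12,1),(4,3)]⟩⟩,.o ⟨false,0,⟨0,[(1,0)]⟩,⟨0,[(27,0)]⟩⟩]⟩)) (.K ⟨0,[-1,0,1,0,1],0,(-1),(⟨2,[(2,1),
  (5,4),(20,0),(7,0),(4,2)]⟩,⟨0,[(28,0),(6,0)]⟩),.k,(.r 0 ⟨97,[(9,17),(9,37),(1,1),(0,0),(0,30),(7,
  61),(12,15)]⟩ ⟨3,[(15,1),(17,3),(10,0),(2,5),(1,0)]⟩),(.r 1 ⟨5,[(3,0),(1,0),(6,1),(3,3),(17,2),(8,
  0),(3,4)]⟩ ⟨13,[(6,6),(8,11),(6,0),(8,9),(12,2),(4,5)]⟩),.k,.k,[⟨0,[(0,0)]⟩,⟨0,[(3,0),(6,0),(1,0),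
  (36,0)]⟩,⟨0,[(11,0),(14,0)]⟩,⟨60,[(3,39),(3,2),(4,22),(1,16),(4,9),(7,20),(3,14),(11,0)]⟩]⟩)))))
  (.R ⟨1,false,false,false,[0,0,1],[0,0,0,0,1],[0,1,0,0,0,0,0,1],(⟨0,[(32,0)]⟩,⟨0,[(31,0)]⟩),(⟨0,
  [(25,0)]⟩,⟨0,[(24,0)]⟩),⟨0,[(21,0)]⟩,.k,.k,.k,.k,(.r (-1) ⟨45,[(5,9),(11,17),(0,8),(0,12),(7,25),
  (12,10),(4,26)]⟩ ⟨0,[(28,0),(0,0),(13,0)]⟩),.k,⟨false,0,⟨0,[(13,0)]⟩,⟨23,[(2,5),(8,7),(10,8),(0,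
  8),(4,7),(0,11),(10,0),(2,7)]⟩⟩,⟨true,0,⟨0,[(14,0),(8,0)]⟩,⟨0,[(0,0),(7,0),(19,0)]⟩⟩,⟨true,0,⟨0,
  [(47,0)]⟩,⟨0,[]⟩⟩,⟨true,0,⟨0,[(23,0),(4,0)]⟩,⟨25,[(0,14),(1,3),(2,0),(2,8),(3,14),(9,10),(17,0),
  (2,0)]⟩⟩,⟨false,0,⟨0,[(43,0)]⟩,⟨6,[(11,0),(6,2),(8,1),(12,1),(4,3)]⟩⟩,⟨true,0,⟨0,[(23,0),(4,0),
  (14,0)]⟩,⟨21,[(0,13),(4,0),(2,10),(1,8),(4,4),(2,0),(3,7),(17,1)]⟩⟩,[.a ⟨true,0,⟨0,[(23,0),(23,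
  0)]⟩,⟨0,[(0,0)]⟩⟩ ⟨true,(-1),⟨0,[(12,0)]⟩,⟨3,[(11,1),(17,3),(10,0),(2,1),(1,0)]⟩⟩ ⟨false,0,⟨3,[(5,
  0),(17,3),(2,1),(1,1),(8,0),(2,0),(2,0)]⟩,⟨15,[(0,9),(1,3),(19,5),(6,7),(10,2),(4,2)]⟩⟩,.a ⟨true,
  0,⟨0,[(23,0)]⟩,⟨4,[(0,3),(0,0),(27,0),(7,1)]⟩⟩ ⟨false,0,⟨0,[(13,0)]⟩,⟨23,[(2,5),(8,7),(10,8),(0,
  8),(4,7),(0,11),(10,0),(2,7)]⟩⟩ ⟨true,0,⟨0,[(14,0),(8,0)]⟩,⟨0,[(0,0),(7,0),(19,0)]⟩⟩,.o ⟨false,1,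
  ⟨7,[(2,1),(19,2),(0,2),(5,3),(10,2)]⟩,⟨0,[(14,0)]⟩⟩,.a ⟨true,0,⟨0,[(29,0)]⟩,⟨0,[(26,0)]⟩⟩ ⟨false,
  0,⟨0,[(13,0)]⟩,⟨3,[(11,1),(17,3),(10,0),(2,1),(1,0)]⟩⟩ ⟨true,0,⟨3,[(5,0),(17,3),(2,1),(1,1),(8,0),
  (2,0),(2,0)]⟩,⟨0,[(0,0),(7,0),(19,0)]⟩⟩]⟩)) (.Q [0,0,0,0,0,0,0,0,0,0,1,-1] (.ed true [1,0,-1,0,1]
  (.r (-1) ⟨10,[(1,1),(8,1),(10,6),(0,6),(4,6),(0,6),(7,2),(5,1)]⟩ ⟨13,[(4,5),(2,1),(21,3),(8,0),(3,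
  5),(1,6)]⟩)) (.Q [0,-1,0,1,1,0,2,2,-1,-1,2,-1] (.p true [0,0,1] [1,0,-1,0,1] (⟨0,[(32,0)]⟩,⟨0,
  [(31,0)]⟩) .k 2 (⟨0,[(25,0),(5,0)]⟩,⟨0,[(0,0)]⟩) .k (.r 0 ⟨2,[(5,1),(2,0),(10,0),(7,0),(2,0),(12,
  1),(1,1)]⟩ ⟨10,[(2,4),(8,4),(10,0),(0,0),(4,11),(0,11),(7,1),(5,4)]⟩)) (.S ⟨1,0,[],[1,0,0,0,-1],
  [0,-1],(⟨0,[(25,0)]⟩,⟨0,[(26,0)]⟩),⟨0,[(1,0),(19,0)]⟩,.k,(.r (-1) ⟨13,[(12,0),(5,6),(0,2),(8,1),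
  (12,1),(4,3)]⟩ ⟨1,[(30,0),(0,0),(12,1),(3,1)]⟩),⟨false,1,⟨1,[(23,0),(0,0),(21,0)]⟩,⟨0,[]⟩⟩,⟨true,
  0,⟨0,[(48,0)]⟩,⟨0,[]⟩⟩,⟨true,0,⟨0,[(44,0)]⟩,⟨0,[(43,0)]⟩⟩,⟨false,0,⟨0,[(44,0)]⟩,⟨6,[(12,0),(6,2),
  (8,1),(12,1),(4,3)]⟩⟩,[.o ⟨false,1,⟨0,[(23,0)]⟩,⟨0,[(2,0),(28,0)]⟩⟩,.a ⟨true,1,⟨0,[(0,0),(6,0),(0,
  0)]⟩,⟨1,[(2,1),(10,0),(15,0),(1,0),(8,0),(6,0)]⟩⟩ ⟨true,1,⟨0,[(46,0)]⟩,⟨0,[(13,0),(15,0),(0,0)]⟩⟩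
  ⟨false,1,⟨1,[(45,0),(0,0)]⟩,⟨0,[(48,0)]⟩⟩,.o ⟨false,1,⟨0,[(23,0)]⟩,⟨0,[(2,0),(28,0)]⟩⟩,.o ⟨false,
  1,⟨1,[(23,1),(6,0),(0,0)]⟩,⟨0,[(2,0),(12,0)]⟩⟩]⟩) (.R ⟨1,false,false,true,[1,0,0,0,-1],[1,-1],[0,
  -1],(⟨0,[(25,0)]⟩,⟨0,[(26,0)]⟩),(⟨0,[(36,0)]⟩,⟨0,[(37,0)]⟩),⟨0,[(1,0),(19,0)]⟩,.k,.k,(.r (-1) ⟨13,
  [(12,0),(5,6),(0,2),(8,1),(12,1),(4,3)]⟩ ⟨1,[(30,0),(0,0),(12,1),(3,1)]⟩),(.r (-1) ⟨1,[(23,0),(0,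
  0),(5,0),(0,0),(12,1),(1,0)]⟩ ⟨0,[(42,0)]⟩),.k,.k,⟨false,1,⟨0,[(44,0),(1,0)]⟩,⟨4,[(16,0),(21,2),
  (4,2)]⟩⟩,⟨true,(-1),⟨13,[(0,13),(5,5),(2,15),(21,3),(8,0),(3,19),(1,6)]⟩,⟨0,[(23,0)]⟩⟩,⟨false,1,
  ⟨1,[(23,0),(0,0),(21,0)]⟩,⟨0,[]⟩⟩,⟨false,(-1),⟨32,[(0,13),(1,8),(6,8),(1,14),(1,2),(5,1),(4,9),(3,
  0),(11,0)]⟩,⟨0,[(23,0),(20,0),(1,0)]⟩⟩,⟨true,0,⟨0,[(44,0)]⟩,⟨0,[(43,0)]⟩⟩,⟨false,(-1),⟨31,[(0,12),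
  (1,7),(6,8),(3,16),(10,10),(13,0),(1,1),(3,12)]⟩,⟨0,[(23,0),(22,0)]⟩⟩,[.o ⟨false,0,⟨0,[(43,0)]⟩,
  ⟨1,[(41,0),(2,1),(1,0)]⟩⟩,.a ⟨true,0,⟨57,[(12,5),(6,25),(8,11),(5,7),(1,7),(3,8),(5,2)]⟩,⟨0,[(44,
  0)]⟩⟩ ⟨true,1,⟨0,[(46,0)]⟩,⟨0,[(13,0),(15,0),(0,0)]⟩⟩ ⟨false,0,⟨40,[(0,4),(1,9),(3,4),(9,3),(1,8),
  (0,6),(4,25),(16,0)]⟩,⟨0,[(23,0),(20,0)]⟩⟩,.o ⟨false,1,⟨0,[(23,0)]⟩,⟨0,[(2,0),(28,0)]⟩⟩,.o ⟨false,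
  1,⟨1,[(23,1),(6,0),(0,0)]⟩,⟨0,[(2,0),(12,0)]⟩⟩]⟩)) (.R ⟨0,false,false,false,[1,-1,-1],[-1,0,1,0,
  1],[1,1,0,0,0,0,0,1],(⟨0,[(20,0)]⟩,⟨13,[(7,1),(19,1),(4,13),(0,1),(4,3),(0,0),(5,0)]⟩),(⟨2,[(0,1),
  (3,4),(20,0),(7,0),(4,2)]⟩,⟨0,[(24,0),(6,0)]⟩),⟨2,[(4,1),(27,0),(0,0),(4,2)]⟩,.k,.k,(.r (-1) ⟨6,
  [(2,3),(2,0),(0,3),(1,0),(2,2),(3,2),(24,0)]⟩ ⟨3,[(8,1),(18,1),(2,5),(8,0),(3,7),(1,0)]⟩),(.r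
  (-2) ⟨7,[(2,5),(8,7),(10,0),(0,0),(5,3),(10,0)]⟩ ⟨0,[(8,0),(3,0),(6,0),(23,0)]⟩),.k,.k,⟨true,0,⟨0,
  []⟩,⟨1,[(29,0),(0,0)]⟩⟩,⟨false,1,⟨2,[(1,1),(0,1),(20,0),(16,0)]⟩,⟨10,[(3,4),(3,9),(14,10),(7,11),
  (8,5),(3,4),(2,3)]⟩⟩,⟨false,(-1),⟨6,[(5,4),(2,3),(21,7),(8,1),(3,11)]⟩,⟨7,[(2,5),(8,7),(10,0),(0,
  0),(5,3),(10,0)]⟩⟩,⟨true,(-1),⟨6,[(1,6),(3,0),(2,4),(3,6),(17,2),(9,0),(2,7)]⟩,⟨0,[(6,0),(0,0),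
  (14,0)]⟩⟩,⟨false,0,⟨0,[]⟩,⟨0,[]⟩⟩,⟨false,0,⟨0,[]⟩,⟨0,[]⟩⟩,[.a ⟨true,(-1),⟨1,[(1,1),(10,1),(16,0),
  (0,0)]⟩,⟨1,[(6,1),(15,1),(16,0),(3,1),(1,0)]⟩⟩ ⟨true,(-1),⟨0,[(12,0)]⟩,⟨3,[(11,1),(17,3),(10,0),
  (2,1),(1,0)]⟩⟩ ⟨false,0,⟨16,[(1,16),(0,6),(9,11),(0,1),(13,2),(9,0),(2,4)]⟩,⟨21,[(3,1),(3,25),(14,
  21),(7,17),(8,8),(3,1),(1,10),(0,5)]⟩⟩,.o ⟨false,0,⟨6,[(1,6),(3,1),(2,2),(21,5),(9,1),(2,1)]⟩,⟨0,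
  [(7,0),(14,0)]⟩⟩,.o ⟨false,0,⟨0,[(30,0)]⟩,⟨3,[(2,1),(19,0),(0,0),(16,0)]⟩⟩,.o ⟨false,0,⟨1,[(29,0),
  (0,2)]⟩,⟨0,[(9,0)]⟩⟩]⟩)))))))) (.R ⟨2,true,false,false,[0,1],[1,1,-1],[1,1,1],(⟨0,[]⟩,⟨0,[]⟩),
  (⟨85,[(4,5),(15,11),(3,85),(1,13),(4,23),(0,8),(3,5),(1,2)]⟩,⟨0,[(14,0)]⟩),⟨0,[]⟩,.k,.k,.k,.k,.k,
  .k,⟨true,(-1),⟨0,[(3,0)]⟩,⟨3,[(4,1),(17,3),(10,0),(2,5),(1,0)]⟩⟩,⟨false,0,⟨0,[(19,0)]⟩,⟨2,[(2,0),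
  (12,0),(0,0),(5,1),(10,0)]⟩⟩,⟨true,0,⟨0,[(35,0)]⟩,⟨0,[(36,0)]⟩⟩,⟨false,1,⟨7,[(4,5),(15,3),(11,0),
  (3,5),(1,2)]⟩,⟨0,[(0,0)]⟩⟩,⟨false,0,⟨0,[]⟩,⟨1,[(15,0),(0,0),(21,0)]⟩⟩,⟨true,0,⟨2,[(4,0),(16,0),
  (10,0),(3,3)]⟩,⟨16,[(1,5),(1,5),(4,2),(2,0),(8,4),(12,5),(1,2)]⟩⟩,[]⟩))

theorem ok8 : chk K t8 r10 = true := by decide +kernel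

noncomputable def t12 : Tre :=
  (.Q [0,0,0,0,0,0,-1,-1,0,1,-1] (.p false [0,0,1] [1] (⟨0,[(21,0)]⟩,⟨0,[(20,0)]⟩) .k 1 (⟨0,[]⟩,⟨0,
  []⟩) .k .k) (.R ⟨1,false,false,true,[0,0,1],[1,-1],[0,1,0,-1],(⟨0,[(22,0)]⟩,⟨0,[(21,0)]⟩),(⟨0,
  [(25,0)]⟩,⟨0,[(26,0)]⟩),⟨0,[(11,0)]⟩,.k,.k,.k,.k,.k,.k,⟨true,0,⟨1,[(19,0),(0,0)]⟩,⟨0,[]⟩⟩,⟨false,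
  0,⟨27,[(0,5),(8,13),(7,5),(5,1),(1,1),(3,2),(5,2)]⟩,⟨1,[(6,0),(0,0),(11,1),(10,0),(2,1)]⟩⟩,⟨false,
  1,⟨5,[(0,3),(6,1),(0,1),(9,1),(0,5),(10,2),(3,0)]⟩,⟨0,[(2,0),(30,0),(1,0)]⟩⟩,⟨true,0,⟨0,[(0,0),
  (31,0)]⟩,⟨3,[(1,1),(28,0),(2,1),(1,0)]⟩⟩,⟨false,1,⟨1,[(0,1),(18,1),(10,0),(3,0)]⟩,⟨0,[(2,0),(32,
  0)]⟩⟩,⟨false,0,⟨0,[(0,0)]⟩,⟨6,[(1,1),(6,0),(8,2),(12,2),(4,5)]⟩⟩,[.o ⟨false,0,⟨0,[(32,0)]⟩,⟨1,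
  [(30,0),(2,1),(1,0)]⟩⟩,.e ⟨false,1,⟨3,[(8,1),(3,0),(0,0),(16,0),(3,1)]⟩,⟨0,[(33,0)]⟩⟩ ⟨false,0,
  ⟨11,[(0,1),(1,1),(2,3),(1,1),(0,0),(0,4),(19,1),(5,1)]⟩,⟨1,[(19,1),(10,0),(2,1),(0,0)]⟩⟩,.o
  ⟨false,1,⟨1,[(19,1),(10,0),(3,0)]⟩,⟨0,[(4,0)]⟩⟩,.a ⟨true,0,⟨0,[(19,0)]⟩,⟨0,[(16,0)]⟩⟩ ⟨true,0,⟨0,
  [(31,0)]⟩,⟨1,[(19,0),(0,0),(12,1)]⟩⟩ ⟨false,0,⟨11,[(0,1),(1,1),(2,3),(1,1),(0,0),(0,4),(19,1),(5,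
  1)]⟩,⟨1,[(19,1),(10,0),(2,1),(1,0)]⟩⟩]⟩) (.R ⟨2,true,false,false,[0,1],[1,1,-1],[0,1,1,1],(⟨0,[]⟩,
  ⟨0,[]⟩),(⟨22,[(12,2),(0,2),(7,22),(1,4),(4,5),(0,2)]⟩,⟨0,[(11,0)]⟩),⟨0,[]⟩,.k,.k,.k,.k,.k,.k,
  ⟨true,(-1),⟨0,[(2,0)]⟩,⟨0,[(18,0),(0,0),(15,0)]⟩⟩,⟨false,0,⟨0,[(16,0)]⟩,⟨1,[(19,1),(10,0),(3,
  0)]⟩⟩,⟨true,0,⟨0,[(37,0)]⟩,⟨0,[]⟩⟩,⟨false,1,⟨8,[(12,3),(0,3),(4,8),(4,0),(1,0),(3,3),(5,8)]⟩,⟨0,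
  [(0,0)]⟩⟩,⟨false,0,⟨0,[(33,0)]⟩,⟨3,[(8,1),(3,0),(0,0),(16,0),(4,1)]⟩⟩,⟨true,0,⟨1,[(18,1),(10,0),
  (3,1),(1,0)]⟩,⟨0,[(0,0),(31,0)]⟩⟩,[]⟩))

theorem ok12 : chk K t12 r7 = true := by decide +kernel

noncomputable def t15 : Tre :=
  (.S ⟨1,0,[0,0,1,1,0,0,0,-1],[1,1,-1],[0,1,1,1,0,0,0,-1],(⟨22,[(12,2),(0,2),(7,22),(1,4),(4,5),(0,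
  2)]⟩,⟨0,[(11,0)]⟩),⟨0,[(21,0)]⟩,.k,.k,⟨true,0,⟨0,[(37,0)]⟩,⟨0,[]⟩⟩,⟨false,1,⟨1,[(12,0),(0,0),(21,
  0)]⟩,⟨0,[]⟩⟩,⟨false,0,⟨0,[(33,0)]⟩,⟨3,[(8,1),(3,0),(0,0),(16,0),(4,1)]⟩⟩,⟨true,0,⟨0,[(33,0)]⟩,⟨0,
  [(32,0)]⟩⟩,[.o ⟨false,0,⟨0,[(0,0),(3,0)]⟩,⟨1,[(2,1),(27,0),(4,0)]⟩⟩,.e ⟨false,0,⟨0,[(0,0)]⟩,⟨5,
  [(1,1),(0,3),(6,1),(20,0),(3,1),(0,2)]⟩⟩ ⟨false,1,⟨1,[(0,1),(11,0),(0,0),(21,0)]⟩,⟨0,[(1,0)]⟩⟩,.a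
  ⟨true,0,⟨0,[(16,0)]⟩,⟨0,[(19,0)]⟩⟩ ⟨false,0,⟨1,[(0,1),(18,0),(0,0)]⟩,⟨0,[(1,0),(33,0)]⟩⟩ ⟨true,0,
  ⟨1,[(0,1),(18,0),(0,0)]⟩,⟨0,[(1,0)]⟩⟩,.o ⟨false,0,⟨0,[(4,0)]⟩,⟨1,[(19,1),(10,0),(3,0)]⟩⟩]⟩)

theorem ok15 : chk K t15 l13 = true := by decide +kernel

noncomputable def t16 : Tre :=
  (.Q [0,-1,0,-1,1,0,1,1,0,-1,1] (.p true [0,0,1] [1] (⟨0,[(24,0)]⟩,⟨0,[(23,0)]⟩) .k 1 (⟨0,[]⟩,⟨0,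
  []⟩) .k .k) (.S ⟨1,0,[0,1,1,1,0,0,0,-1],[1,1,-1],[1,0,1,0,0,0,0,-1],(⟨22,[(15,2),(0,2),(7,22),(1,
  4),(4,5),(0,2)]⟩,⟨0,[(14,0)]⟩),⟨0,[(24,0)]⟩,.k,.k,⟨false,1,⟨3,[(11,1),(3,0),(0,0),(16,0),(4,1)]⟩,
  ⟨0,[(36,0)]⟩⟩,⟨true,0,⟨0,[(40,0)]⟩,⟨0,[]⟩⟩,⟨true,0,⟨0,[]⟩,⟨0,[(40,0)]⟩⟩,⟨false,0,⟨0,[(36,0)]⟩,⟨3,
  [(11,1),(3,0),(0,0),(16,0),(4,1)]⟩⟩,[.o ⟨false,0,⟨0,[(1,0),(38,0)]⟩,⟨0,[(0,0)]⟩⟩,.o ⟨false,0,⟨0,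
  [(1,0)]⟩,⟨3,[(0,1),(4,1),(9,0),(0,0),(16,0)]⟩⟩,.a ⟨true,0,⟨0,[(19,0)]⟩,⟨0,[(22,0)]⟩⟩ ⟨true,0,⟨0,
  [(6,0)]⟩,⟨0,[(4,0),(31,0)]⟩⟩ ⟨false,0,⟨0,[(6,0),(29,0)]⟩,⟨7,[(0,0),(1,0),(0,3),(6,3),(1,1),(7,1),
  (17,1)]⟩⟩,.o ⟨false,0,⟨0,[(7,0)]⟩,⟨1,[(22,1),(10,0),(3,0)]⟩⟩]⟩) (.Q [0,-1,0,0,1,0,1,1,0,-1,1] (.p
  true [0,0,1] [1] (⟨0,[(25,0)]⟩,⟨0,[(24,0)]⟩) .k 1 (⟨0,[]⟩,⟨0,[]⟩) .k .k) (.R ⟨2,true,false,true,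
  [0,1],[1,1,-1],[1,1,1],(⟨0,[]⟩,⟨0,[]⟩),(⟨22,[(16,2),(0,2),(7,22),(1,4),(4,5),(0,2)]⟩,⟨0,[(15,
  0)]⟩),⟨0,[]⟩,.k,.k,.k,.k,.k,.k,⟨true,0,⟨0,[(4,0)]⟩,⟨1,[(1,0),(1,0),(3,1)]⟩⟩,⟨false,0,⟨0,[(20,0)]⟩,
  ⟨1,[(23,1),(10,0),(3,0)]⟩⟩,⟨true,0,⟨0,[(36,0)]⟩,⟨0,[(37,0)]⟩⟩,⟨false,0,⟨3,[(1,1),(5,1),(4,0),(0,
  0),(24,0),(0,0)]⟩,⟨0,[(0,0)]⟩⟩,⟨false,0,⟨0,[]⟩,⟨1,[(16,0),(0,0),(21,0)]⟩⟩,⟨true,(-1),⟨0,[(1,0)]⟩,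
  ⟨7,[(0,3),(5,3),(5,1),(3,0),(0,0),(16,2)]⟩⟩,[]⟩) (.R ⟨1,false,false,true,[0,0,1],[1,-1],[0,1,0,
  -1],(⟨0,[(26,0)]⟩,⟨0,[(25,0)]⟩),(⟨0,[(29,0)]⟩,⟨0,[(30,0)]⟩),⟨0,[(15,0)]⟩,.k,.k,.k,.k,.k,.k,⟨true,
  0,⟨1,[(23,0),(0,0)]⟩,⟨0,[]⟩⟩,⟨false,0,⟨5,[(13,2),(2,0),(0,0),(9,0),(1,0),(3,0)]⟩,⟨0,[(3,0),(3,0),
  (2,0)]⟩⟩,⟨true,0,⟨4,[(7,4),(1,1),(21,0),(4,0)]⟩,⟨0,[(1,0),(1,0),(0,0)]⟩⟩,⟨false,0,⟨0,[(2,0),(9,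
  0)]⟩,⟨0,[(3,0)]⟩⟩,⟨true,0,⟨5,[(1,0),(1,0),(3,5),(2,1),(20,1)]⟩,⟨1,[(1,0),(1,0),(0,1)]⟩⟩,⟨true,
  (-1),⟨0,[(0,0)]⟩,⟨3,[(3,1),(2,1),(9,0),(0,0),(16,0)]⟩⟩,[.o ⟨false,0,⟨0,[(36,0)]⟩,⟨3,[(2,1),(0,1),
  (30,0),(4,0)]⟩⟩,.e ⟨false,1,⟨3,[(12,1),(3,0),(0,0),(16,0),(3,1)]⟩,⟨1,[(1,0),(1,0)]⟩⟩ ⟨false,0,⟨8,
  [(0,1),(3,1),(4,0),(1,2),(0,0),(0,2),(6,0),(12,0)]⟩,⟨5,[(1,0),(1,6),(3,5),(2,1),(20,1)]⟩⟩,.o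
  ⟨false,1,⟨1,[(23,1),(10,0),(3,0)]⟩,⟨0,[(8,0)]⟩⟩,.a ⟨true,0,⟨0,[(23,0)]⟩,⟨0,[(20,0)]⟩⟩ ⟨true,0,⟨0,
  [(35,0)]⟩,⟨1,[(1,0),(1,0),(19,0),(0,0)]⟩⟩ ⟨false,0,⟨8,[(0,1),(3,1),(4,0),(1,2),(0,0),(0,2),(6,0),
  (12,0)]⟩,⟨0,[(3,0),(3,0)]⟩⟩]⟩)))

theorem ok16 : chk K t16 l15 = true := by decide +kernel

noncomputable def t17 : Tre :=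
  (.Q [0,0,0,0,0,2,0,0,0,-1,1] (.p true [0,0,1] [1] (⟨0,[(26,0)]⟩,⟨0,[(25,0)]⟩) .k 1 (⟨0,[]⟩,⟨0,
  []⟩) .k .k) (.R ⟨0,false,false,true,[1,-1,-1],[0,-1,1],[1,0,1],(⟨0,[(15,0)]⟩,⟨4,[(0,1),(16,0),(0,
  0),(8,2),(0,0),(5,0)]⟩),(⟨0,[(16,0)]⟩,⟨22,[(17,2),(0,2),(7,22),(1,4),(4,5),(0,2)]⟩),⟨0,[(0,0)]⟩,
  .k,.k,(.r (-1) ⟨4,[(8,4),(1,1),(1,4),(19,0),(4,0)]⟩ ⟨3,[(1,1),(2,1),(17,1),(1,2),(0,2),(12,5)]⟩),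
  .k,.k,.k,⟨false,1,⟨1,[(8,1),(8,0),(0,0),(19,1),(1,0)]⟩,⟨5,[(1,1),(0,0),(1,2),(1,1),(4,5),(22,
  0)]⟩⟩,⟨true,1,⟨0,[(4,0),(3,0),(2,0),(12,0)]⟩,⟨0,[(1,0)]⟩⟩,⟨false,0,⟨0,[(1,0),(2,0),(19,0)]⟩,⟨1,
  [(8,1),(2,0),(0,0),(26,0)]⟩⟩,⟨true,0,⟨4,[(2,6),(0,0),(0,1),(29,1),(3,5)]⟩,⟨5,[(1,3),(6,7),(2,0),
  (0,4),(10,3),(10,0),(3,5)]⟩⟩,⟨false,0,⟨0,[]⟩,⟨0,[]⟩⟩,⟨false,0,⟨0,[]⟩,⟨0,[]⟩⟩,[.o ⟨false,0,⟨0,[(2,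
  0)]⟩,⟨0,[(23,0),(14,0),(1,0)]⟩⟩,.a ⟨true,0,⟨0,[(3,0)]⟩,⟨1,[(23,1),(10,0),(3,1),(1,0)]⟩⟩ ⟨false,1,
  ⟨1,[(17,0),(0,0),(21,0)]⟩,⟨2,[(11,0),(20,0),(5,0)]⟩⟩ ⟨true,1,⟨1,[(2,0),(1,0),(6,0),(0,0),(11,1)]⟩,
  ⟨0,[(1,0),(6,0),(29,0)]⟩⟩,.o ⟨false,0,⟨0,[(25,0)]⟩,⟨0,[(4,0),(3,0),(2,0)]⟩⟩,.e ⟨true,0,⟨0,[]⟩,⟨0,
  [(42,0)]⟩⟩ ⟨true,1,⟨1,[(2,0),(1,0),(6,1),(12,1),(14,0)]⟩,⟨0,[(1,0),(6,0),(29,0)]⟩⟩]⟩) (.R ⟨0,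
  false,false,false,[0,-1,1],[1,-1,-1],[1,0,-1,-1,0,0,0,-1],(⟨0,[(16,0)]⟩,⟨22,[(17,2),(0,2),(7,22),
  (1,4),(4,5),(0,2)]⟩),(⟨0,[(15,0)]⟩,⟨22,[(17,2),(0,2),(8,22),(0,4),(4,5),(0,2)]⟩),⟨2,[(0,0),(14,1),
  (12,0),(4,2)]⟩,.k,.k,(.r (-1) ⟨11,[(5,1),(0,3),(0,5),(4,9),(0,0),(0,2),(20,1)]⟩ ⟨1,[(8,1),(15,0),
  (0,0),(12,3)]⟩),.k,.k,.k,⟨true,0,⟨0,[]⟩,⟨1,[(24,0),(0,0)]⟩⟩,⟨false,0,⟨2,[(1,0),(19,3),(13,0)]⟩,⟨0,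
  [(4,0),(3,0),(2,0),(12,0)]⟩⟩,⟨false,1,⟨0,[(8,1),(3,0),(25,0)]⟩,⟨14,[(1,9),(0,1),(0,5),(0,11),(1,
  9),(27,1),(3,5)]⟩⟩,⟨true,0,⟨5,[(1,3),(6,7),(2,0),(0,4),(10,3),(10,0),(3,5)]⟩,⟨4,[(2,6),(0,0),(0,
  1),(29,1),(3,5)]⟩⟩,⟨false,0,⟨0,[]⟩,⟨0,[]⟩⟩,⟨false,0,⟨0,[]⟩,⟨0,[]⟩⟩,[.e ⟨false,1,⟨1,[(8,1),(2,0),
  (0,0),(26,0)]⟩,⟨3,[(1,1),(2,1),(17,1),(1,0),(0,0),(12,1)]⟩⟩ ⟨false,0,⟨0,[(1,0),(6,0),(2,0),(0,0),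
  (25,0)]⟩,⟨0,[(4,0),(3,0),(13,0)]⟩⟩,.o ⟨false,1,⟨17,[(1,3),(6,7),(3,5),(0,5),(9,9),(11,4),(4,10)]⟩,
  ⟨0,[(2,0),(35,1)]⟩⟩,.a ⟨true,0,⟨0,[(24,0)]⟩,⟨0,[(21,0)]⟩⟩ ⟨false,1,⟨0,[(8,0),(3,0)]⟩,⟨3,[(1,1),(2,
  1),(17,1),(1,0),(0,0),(12,1)]⟩⟩ ⟨true,0,⟨5,[(1,3),(6,1),(2,0),(0,4),(10,3),(10,0)]⟩,⟨0,[(2,0),(21,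
  0),(13,1)]⟩⟩,.e ⟨true,1,⟨1,[(8,1),(2,0),(0,0),(26,0)]⟩,⟨0,[(1,0),(0,0),(21,0),(13,1)]⟩⟩ ⟨true,0,
  ⟨0,[(1,0),(6,0),(2,0),(0,0),(25,0)]⟩,⟨1,[(2,1),(21,2),(0,0),(12,3)]⟩⟩]⟩))

theorem ok17 : chk K t17 l17 = true := by decide +kernel

noncomputable def t18 : Tre :=
  (.R ⟨0,false,false,true,[1,-1,-1],[0,-1,1],[1,1],(⟨0,[(16,0)]⟩,⟨22,[(18,2),(0,2),(8,22),(0,4),(4,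
  5),(0,2)]⟩),(⟨0,[(17,0)]⟩,⟨22,[(18,2),(0,2),(7,22),(1,4),(4,5),(0,2)]⟩),⟨0,[(0,0)]⟩,.k,.k,(.r
  (-1) ⟨4,[(2,0),(6,2),(1,1),(1,3),(0,0),(9,1)]⟩ ⟨1,[(3,0),(1,0),(19,0),(0,2),(8,0),(3,3)]⟩),.k,.k,
  .k,⟨true,0,⟨0,[(9,0),(29,0)]⟩,⟨0,[(4,0),(5,0)]⟩⟩,⟨false,1,⟨0,[(2,0)]⟩,⟨0,[(15,0)]⟩⟩,⟨false,0,⟨1,
  [(3,0),(1,0),(20,1),(8,0),(3,1)]⟩,⟨0,[(9,0),(3,0)]⟩⟩,⟨true,0,⟨4,[(3,6),(0,0),(0,1),(29,1),(3,5)]⟩,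
  ⟨1,[(9,3),(0,3),(1,0),(0,0),(21,0),(3,1)]⟩⟩,⟨false,0,⟨0,[]⟩,⟨0,[]⟩⟩,⟨false,0,⟨0,[]⟩,⟨0,[]⟩⟩,[.o
  ⟨false,0,⟨0,[(3,0)]⟩,⟨0,[(24,0),(14,0),(1,0)]⟩⟩,.a ⟨true,0,⟨0,[(4,0)]⟩,⟨1,[(24,1),(10,0),(3,1),(1,
  0)]⟩⟩ ⟨true,0,⟨0,[]⟩,⟨1,[(25,0),(0,0)]⟩⟩ ⟨false,1,⟨0,[(1,0),(2,0)]⟩,⟨0,[(9,0),(5,0),(23,0)]⟩⟩,.o
  ⟨false,0,⟨0,[(26,0)]⟩,⟨3,[(2,1),(33,0),(3,0)]⟩⟩,.o ⟨false,0,⟨1,[(25,0),(0,2)]⟩,⟨0,[(1,0)]⟩⟩]⟩)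

theorem ok18 : chk K t18 l19 = true := by decide +kernel

noncomputable def t19 : Tre :=
  (.S ⟨1,0,[0,0,-1,-1,0,0,0,-1],[1,-1,-1],[1,1,-1,-2,0,0,0,-1],(⟨0,[(17,0)]⟩,⟨22,[(19,2),(0,2),(8,
  22),(0,4),(4,5),(0,2)]⟩),⟨0,[(1,0)]⟩,.k,(.r (-1) ⟨4,[(3,0),(6,2),(1,1),(1,3),(0,0),(9,1)]⟩ ⟨4,[(0,
  5),(9,0),(23,2),(5,3)]⟩),⟨true,0,⟨0,[(39,0)]⟩,⟨0,[(40,0)]⟩⟩,⟨false,1,⟨1,[(19,0),(0,0),(21,0)]⟩,⟨0,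
  []⟩⟩,⟨false,0,⟨0,[]⟩,⟨1,[(19,0),(0,0),(21,0)]⟩⟩,⟨true,0,⟨0,[(40,0)]⟩,⟨0,[(39,0)]⟩⟩,[.a ⟨true,0,
  ⟨35,[(1,1),(8,35),(0,3),(0,17),(3,15),(1,1),(11,5),(5,8),(5,8)]⟩,⟨4,[(4,1),(0,0),(0,1),(29,1),(3,
  5)]⟩⟩ ⟨true,0,⟨0,[(10,0),(1,0)]⟩,⟨0,[(0,0),(39,0)]⟩⟩ ⟨false,1,⟨9,[(2,0),(0,2),(6,2),(1,0),(1,7),
  (10,6),(10,1)]⟩,⟨3,[(0,2),(7,0),(25,0),(5,1)]⟩⟩,.o ⟨false,1,⟨0,[(10,0),(3,0),(12,0)]⟩,⟨0,[(4,0),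
  (35,1)]⟩⟩,.o ⟨false,0,⟨0,[(27,0)]⟩,⟨3,[(3,1),(33,0),(3,0)]⟩⟩,.o ⟨false,0,⟨4,[(0,0),(8,0),(0,1),
  (16,5)]⟩,⟨0,[(2,0)]⟩⟩]⟩)

theorem ok19 : chk K t19 l20 = true := by decide +kernel

noncomputable def t20 : Tre :=
  (.R ⟨0,false,false,false,[0,-1,1],[0,0,0,0,1],[1,1],(⟨0,[(19,0)]⟩,⟨22,[(20,2),(0,2),(7,22),(1,4),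
  (4,5),(0,2)]⟩),(⟨0,[(23,0)]⟩,⟨0,[(22,0)]⟩),⟨2,[(2,0),(15,1),(12,0),(4,2)]⟩,.k,.k,(.r (-1) ⟨11,[(8,
  1),(0,3),(0,5),(4,9),(0,0),(0,2),(20,1)]⟩ ⟨1,[(11,1),(15,0),(0,0),(12,3)]⟩),(.r (-1) ⟨3,[(7,0),(0,
  1),(1,0),(4,1),(1,0),(25,0)]⟩ ⟨0,[(11,0),(29,0),(3,0)]⟩),.k,.k,⟨true,0,⟨0,[]⟩,⟨1,[(27,0),(0,0)]⟩⟩,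
  ⟨false,0,⟨13,[(0,9),(16,1),(3,3),(16,0),(3,3),(0,4)]⟩,⟨0,[(20,0),(6,0)]⟩⟩,⟨false,0,⟨0,[(11,0),(29,
  0)]⟩,⟨3,[(7,0),(0,1),(1,0),(4,1),(1,0),(25,0)]⟩⟩,⟨true,(-1),⟨1,[(0,1),(10,1),(15,0),(0,0),(12,
  1)]⟩,⟨0,[(6,0),(13,0)]⟩⟩,⟨false,0,⟨0,[]⟩,⟨0,[]⟩⟩,⟨false,0,⟨0,[]⟩,⟨0,[]⟩⟩,[.e ⟨false,0,⟨2,[(14,0),
  (20,0),(5,0)]⟩,⟨1,[(20,0),(0,0),(21,0)]⟩⟩ ⟨false,(-1),⟨0,[(0,0)]⟩,⟨1,[(20,2),(0,0),(5,1),(15,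
  0)]⟩⟩,.o ⟨false,0,⟨1,[(0,1),(26,2),(0,0),(9,0),(4,0)]⟩,⟨0,[(20,0)]⟩⟩,.a ⟨true,0,⟨0,[(27,0)]⟩,⟨0,
  [(24,0)]⟩⟩ ⟨false,0,⟨0,[]⟩,⟨1,[(20,0),(0,0),(21,0)]⟩⟩ ⟨true,(-1),⟨1,[(0,1),(26,0),(0,0)]⟩,⟨0,[(20,
  0),(6,0)]⟩⟩,.e ⟨true,0,⟨2,[(14,0),(20,0),(5,0)]⟩,⟨1,[(27,0),(0,0)]⟩⟩ ⟨true,(-1),⟨0,[(0,0)]⟩,⟨1,
  [(20,1),(6,2),(0,0)]⟩⟩]⟩)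

theorem ok20 : chk K t20 l21 = true := by decide +kernel

noncomputable def t21 : Tre :=
  (.I [0,-1,2,2,0,0,0,1] (.S ⟨1,0,[0,0,-1,-1,0,0,0,-1],[1,-1,-1],[1,1,-1,-2,0,0,0,-1],(⟨0,[(20,0)]⟩,
  ⟨175,[(2,11),(16,5),(3,11),(8,175),(0,31),(3,5),(0,47),(0,20),(4,8)]⟩),⟨0,[(4,0)]⟩,.k,(.r (-1)
  ⟨12,[(3,4),(2,1),(6,3),(3,8),(0,5),(9,3),(11,1)]⟩ ⟨0,[(0,0),(46,0)]⟩),⟨true,0,⟨0,[(42,0)]⟩,⟨0,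
  [(43,0)]⟩⟩,⟨false,1,⟨1,[(22,0),(0,0),(21,0)]⟩,⟨0,[]⟩⟩,⟨false,0,⟨0,[]⟩,⟨1,[(22,0),(0,0),(21,0)]⟩⟩,
  ⟨true,0,⟨0,[(43,0)]⟩,⟨0,[(42,0)]⟩⟩,[.a ⟨true,0,⟨53,[(3,17),(0,1),(8,35),(0,21),(3,17),(0,15),(1,
  1),(11,5),(5,8),(5,8)]⟩,⟨4,[(0,1),(4,1),(1,1),(0,0),(30,1),(3,3)]⟩⟩ ⟨true,0,⟨0,[(13,0),(1,0)]⟩,⟨0,
  [(0,0)]⟩⟩ ⟨false,1,⟨9,[(3,2),(2,0),(6,4),(3,4),(0,0),(9,1),(15,3)]⟩,⟨7,[(0,4),(6,0),(3,0),(7,0),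
  (7,0),(9,0)]⟩⟩,.o ⟨false,1,⟨0,[(13,0),(3,0),(12,0)]⟩,⟨0,[(7,0),(35,1)]⟩⟩,.o ⟨false,0,⟨0,[(30,0)]⟩,
  ⟨3,[(6,1),(33,0),(3,0)]⟩⟩,.o ⟨false,0,⟨1,[(29,0),(0,2)]⟩,⟨0,[(5,0)]⟩⟩]⟩) (.Q [0,0,0,0,0,0,1,1,-1,
  0,1,-1] (.p true [0,0,1] [0,0,0,0,1] (⟨0,[(32,0)]⟩,⟨0,[(31,0)]⟩) .k 2 (⟨0,[(25,0)]⟩,⟨0,[(24,0)]⟩)
  .k (.r (-1) ⟨1,[(9,0),(2,0),(6,0),(25,0)]⟩ ⟨4,[(3,0),(9,3),(23,1),(5,0)]⟩)) (.Q [0,0,0,0,0,0,0,0,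
  0,0,-1,1] (.ed false [1,0,-1,0,1] (.r 0 ⟨4,[(4,0),(9,3),(23,1),(5,0)]⟩ ⟨1,[(10,0),(2,0),(6,0),(25,
  0)]⟩)) (.Q [0,0,0,0,0,1,0,0,0,-1,0,1] (.ed false [0,1,0,0,1] .k) (.R ⟨0,false,false,true,[1,0,0,0,
  -1],[1,0,-1],[0,0,0,-1],(⟨0,[(27,0)]⟩,⟨0,[(28,0)]⟩),(⟨0,[(34,0)]⟩,⟨0,[(35,0)]⟩),⟨0,[(0,0)]⟩,.k,.k,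
  (.r (-1) ⟨15,[(5,1),(14,9),(0,2),(0,0),(3,1),(16,1),(4,1)]⟩ ⟨1,[(16,0),(13,0),(2,0),(12,1),(3,
  0)]⟩),.k,.k,.k,⟨false,1,⟨3,[(12,0),(0,1),(1,0),(4,1),(1,0),(25,0)]⟩,⟨4,[(6,0),(9,3),(23,1),(5,
  5)]⟩⟩,⟨true,0,⟨0,[(17,0),(8,0)]⟩,⟨0,[(2,0),(13,0)]⟩⟩,⟨true,0,⟨0,[(45,0)]⟩,⟨0,[(46,0)]⟩⟩,⟨false,0,
  ⟨0,[(26,0),(4,0)]⟩,⟨0,[(2,0),(45,0)]⟩⟩,⟨false,0,⟨0,[]⟩,⟨0,[]⟩⟩,⟨false,0,⟨0,[]⟩,⟨0,[]⟩⟩,[.o ⟨false,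
  0,⟨0,[(31,0)]⟩,⟨1,[(10,0),(1,0),(35,0)]⟩⟩,.e ⟨false,1,⟨15,[(5,1),(14,9),(0,2),(0,0),(3,1),(16,1),
  (4,1)]⟩,⟨0,[(46,0),(3,0)]⟩⟩ ⟨false,1,⟨1,[(26,1),(4,1),(15,0),(0,0)]⟩,⟨0,[(2,0)]⟩⟩,.a ⟨true,0,⟨62,
  [(2,43),(1,18),(1,2),(0,5),(8,5),(0,8),(6,5),(6,34),(4,17),(5,18),(3,2)]⟩,⟨0,[(26,0)]⟩⟩ ⟨false,1,
  ⟨3,[(21,1),(3,0),(0,0),(16,0),(4,1)]⟩,⟨0,[(46,0)]⟩⟩ ⟨true,0,⟨0,[(26,0),(4,0)]⟩,⟨0,[(2,0)]⟩⟩,.o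
  ⟨false,0,⟨0,[(2,0),(13,0),(0,0)]⟩,⟨1,[(26,1),(16,0),(3,0)]⟩⟩]⟩) (.Q [0,2,0,1,-1,0,0,0,1,0,0,1]
  (.p true [0,0,0,0,1] [] (⟨0,[(28,0)]⟩,⟨0,[(27,0)]⟩) .k 0 (⟨0,[]⟩,⟨0,[]⟩) .k .k) (.K ⟨0,[0,1,0,0,
  1],0,(-1),(⟨175,[(6,11),(16,5),(3,11),(1,175),(7,31),(3,5),(0,47),(0,20),(4,8)]⟩,⟨0,[(1,0)]⟩),(.r
  0 ⟨2,[(0,1),(5,0),(19,0),(7,0),(12,0)]⟩ ⟨15,[(6,1),(14,9),(0,2),(0,0),(3,1),(16,1),(4,1)]⟩),.k,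
  (.r 0 ⟨5,[(0,4),(5,3),(19,0),(7,3),(12,6)]⟩ ⟨1,[(4,0),(9,0),(6,0),(27,0)]⟩),(.r 0 ⟨3,[(0,0),(5,0),
  (10,2),(14,0),(8,0),(5,2)]⟩ ⟨3,[(13,0),(0,1),(1,0),(4,1),(1,0),(25,0)]⟩),.k,[⟨0,[(3,0),(13,0)]⟩,
  ⟨0,[(27,0)]⟩,⟨21,[(3,0),(0,0),(0,1),(0,6),(12,9),(6,11),(7,7),(9,0)]⟩,⟨0,[(0,0)]⟩]⟩) (.R ⟨1,false,
  false,true,[1,0,0,0,-1],[1,0,-1],[],(⟨0,[(28,0)]⟩,⟨0,[(29,0)]⟩),(⟨0,[(35,0)]⟩,⟨0,[(36,0)]⟩),⟨0,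
  [(1,0)]⟩,.k,.k,(.r (-1) ⟨15,[(6,1),(14,9),(0,2),(0,0),(3,1),(16,1),(4,1)]⟩ ⟨1,[(17,0),(13,0),(2,
  0),(12,1),(3,0)]⟩),.k,(.r (-1) ⟨3,[(13,0),(0,1),(1,0),(4,1),(1,0),(25,0)]⟩ ⟨0,[(17,0),(29,0),(3,
  0)]⟩),.k,⟨false,1,⟨6,[(13,3),(0,1),(6,1),(1,0),(6,2),(0,0),(17,0)]⟩,⟨4,[(7,0),(9,3),(23,1),(5,
  0)]⟩⟩,⟨true,0,⟨0,[(18,0),(8,0)]⟩,⟨0,[(3,0),(13,0)]⟩⟩,⟨true,0,⟨0,[(51,0)]⟩,⟨0,[]⟩⟩,⟨false,0,⟨0,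
  [(27,0),(4,0)]⟩,⟨0,[(3,0),(45,0)]⟩⟩,⟨false,0,⟨0,[(47,0)]⟩,⟨3,[(22,1),(3,0),(0,0),(16,0),(4,1)]⟩⟩,
  ⟨false,0,⟨0,[(27,0),(4,0),(14,0)]⟩,⟨1,[(0,0),(2,0),(8,0),(36,0)]⟩⟩,[.o ⟨false,0,⟨0,[(32,0)]⟩,⟨1,
  [(11,0),(1,0),(35,0)]⟩⟩,.e ⟨false,1,⟨1,[(48,0),(0,0)]⟩,⟨0,[(51,0)]⟩⟩ ⟨false,1,⟨1,[(27,1),(4,1),
  (15,0),(0,0)]⟩,⟨0,[(3,0)]⟩⟩,.a ⟨true,0,⟨29,[(0,2),(2,19),(1,6),(2,2),(16,2),(6,19),(4,8),(5,9),(3,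
  2)]⟩,⟨0,[(27,0)]⟩⟩ ⟨false,1,⟨1,[(26,0),(0,0),(21,0)]⟩,⟨0,[]⟩⟩ ⟨true,0,⟨0,[(27,0),(4,0)]⟩,⟨0,[(3,
  0)]⟩⟩,.o ⟨false,0,⟨0,[(3,0),(13,0),(0,0)]⟩,⟨1,[(27,1),(16,0),(3,0)]⟩⟩]⟩))) (.K ⟨0,[0,0,1,0,-1],0,
  0,(⟨0,[(0,0)]⟩,⟨0,[(27,0),(5,0)]⟩),.k,(.r (-1) ⟨3,[(11,0),(0,1),(1,0),(4,1),(1,0),(25,0)]⟩ ⟨0,
  [(15,0),(29,0),(3,0)]⟩),(.r (-1) ⟨12,[(4,3),(6,10),(9,6),(3,3),(3,1),(2,2),(8,1),(3,1),(2,1)]⟩ ⟨4,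
  [(2,1),(2,0),(9,1),(23,0)]⟩),.k,.k,[⟨0,[(25,0)]⟩,⟨0,[(1,0),(13,0)]⟩,⟨0,[(25,0),(4,0),(18,0)]⟩,⟨0,
  [(1,0)]⟩]⟩)) (.Q [0,0,0,0,0,-1,0,0,0,1,0,-1] (.ed true [0,1,0,0,1] .k) (.Q [0,0,0,1,0,0,1,1,-1,0,
  1,-1] (.p true [0,0,1] [0,0,0,0,1] (⟨0,[(34,0)]⟩,⟨0,[(33,0)]⟩) .k 2 (⟨0,[(27,0)]⟩,⟨0,[(26,0)]⟩)
  .k (.r (-1) ⟨1,[(11,0),(2,0),(6,0),(25,0)]⟩ ⟨4,[(5,0),(9,3),(23,1),(5,0)]⟩)) (.R ⟨1,false,false,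
  true,[1,0,-1],[1,0,0,0,-1],[1],(⟨0,[(34,0)]⟩,⟨0,[(35,0)]⟩),(⟨0,[(27,0)]⟩,⟨0,[(28,0)]⟩),⟨0,[(23,
  0)]⟩,.k,.k,.k,.k,(.r 0 ⟨4,[(3,1),(2,0),(9,1),(23,0)]⟩ ⟨12,[(5,3),(6,10),(9,6),(3,3),(3,1),(2,2),
  (8,1),(3,1),(2,1)]⟩),.k,⟨true,0,⟨0,[]⟩,⟨1,[(32,0),(0,0)]⟩⟩,⟨false,1,⟨73,[(0,21),(3,18),(0,1),(0,
  21),(2,24),(15,30),(14,8),(1,2)]⟩,⟨0,[(17,0),(8,0)]⟩⟩,⟨true,0,⟨1,[(0,0),(12,0),(3,0),(8,0)]⟩,⟨4,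
  [(6,0),(9,3),(23,1),(5,0)]⟩⟩,⟨false,1,⟨10,[(0,4),(3,1),(0,2),(6,1),(0,2),(1,0),(4,2),(4,0)]⟩,⟨0,
  [(2,0)]⟩⟩,⟨true,0,⟨0,[(13,0),(32,1)]⟩,⟨6,[(3,1),(12,4),(23,0),(4,2)]⟩⟩,⟨true,0,⟨0,[(0,0)]⟩,⟨0,[(2,
  0),(42,0)]⟩⟩,[.a ⟨true,0,⟨21,[(0,17),(2,7),(0,3),(11,9),(4,0),(0,8),(19,3),(6,5)]⟩,⟨0,[(26,0)]⟩⟩
  ⟨true,0,⟨0,[]⟩,⟨1,[(32,0),(0,0)]⟩⟩ ⟨false,1,⟨73,[(0,21),(3,18),(0,1),(0,21),(2,24),(15,30),(14,8),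
  (1,2)]⟩,⟨0,[(17,0),(8,0)]⟩⟩,.o ⟨false,1,⟨18,[(0,5),(2,2),(0,11),(0,0),(25,2),(1,3),(9,5)]⟩,⟨0,[(2,
  0),(7,0),(35,0)]⟩⟩,.o ⟨false,0,⟨0,[(17,0)]⟩,⟨27,[(5,7),(3,9),(16,7),(13,3),(2,8),(3,0)]⟩⟩,.o
  ⟨false,0,⟨0,[(33,0)]⟩,⟨3,[(9,1),(33,0),(3,0)]⟩⟩]⟩) (.Q [0,0,0,2,0,0,1,1,-1,0,1,-1] (.p true [0,0,
  1] [0,0,0,0,1] (⟨0,[(35,0)]⟩,⟨0,[(34,0)]⟩) .k 2 (⟨0,[(28,0)]⟩,⟨0,[(27,0)]⟩) .k (.r (-1) ⟨1,[(12,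
  0),(2,0),(6,0),(25,0)]⟩ ⟨4,[(6,0),(9,3),(23,1),(5,0)]⟩)) (.R ⟨1,false,false,true,[1,-1,-1],[1,0,0,
  0,-1],[0,0,1],(⟨0,[(24,0)]⟩,⟨175,[(6,11),(16,5),(3,11),(8,175),(0,31),(3,5),(0,47),(0,20),(4,
  8)]⟩),(⟨0,[(28,0)]⟩,⟨0,[(29,0)]⟩),⟨0,[(8,0)]⟩,.k,.k,(.r (-1) ⟨2,[(1,0),(2,1),(1,0),(14,0),(26,
  0)]⟩ ⟨1,[(0,1),(26,1),(5,0),(0,2)]⟩),(.r 0 ⟨4,[(4,1),(2,0),(9,1),(23,0)]⟩ ⟨36,[(0,3),(5,11),(6,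
  28),(9,20),(3,15),(3,3),(2,6),(8,3),(6,5)]⟩),(.x 0 ⟨3,[(2,3),(24,3),(5,0),(0,4),(1,3),(5,3),(7,
  1)]⟩ ⟨1,[(0,1),(3,1),(3,1),(20,1),(14,0),(4,0)]⟩),.k,⟨true,0,⟨1,[(33,0),(0,0)]⟩,⟨0,[]⟩⟩,⟨false,1,
  ⟨10,[(0,5),(3,5),(0,2),(3,0),(0,1),(15,1),(21,2)]⟩,⟨0,[(27,0),(6,0)]⟩⟩,⟨true,0,⟨5,[(0,3),(11,1),
  (14,3),(5,2),(0,8)]⟩,⟨0,[(7,0)]⟩⟩,⟨false,1,⟨4,[(0,1),(4,1),(7,1),(2,0),(9,0)]⟩,⟨0,[(1,0)]⟩⟩,⟨true,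
  0,⟨1,[(0,1),(26,1),(5,0),(0,2)]⟩,⟨0,[(4,0)]⟩⟩,⟨true,0,⟨0,[(0,0)]⟩,⟨0,[(1,0),(44,0)]⟩⟩,[.a ⟨true,0,
  ⟨22,[(0,14),(3,14),(0,6),(0,0),(27,15),(8,7),(6,11)]⟩,⟨0,[(27,0)]⟩⟩ ⟨true,0,⟨1,[(33,0),(0,0)]⟩,⟨0,
  []⟩⟩ ⟨false,1,⟨10,[(0,5),(3,5),(0,2),(3,0),(0,1),(15,1),(21,2)]⟩,⟨0,[(27,0),(6,0)]⟩⟩,.o ⟨false,1,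
  ⟨9,[(0,2),(3,2),(0,5),(0,0),(27,3),(9,2)]⟩,⟨0,[(3,0),(7,0),(35,0)]⟩⟩,.o ⟨false,0,⟨0,[(34,0)]⟩,⟨3,
  [(10,1),(33,0),(3,0)]⟩⟩,.o ⟨false,0,⟨1,[(33,0),(0,2)]⟩,⟨0,[(9,0)]⟩⟩]⟩) (.Q [0,0,0,0,0,0,0,0,-1,1,
  0,-1] (.p false [0,0,0,0,1] [1] (⟨0,[(29,0)]⟩,⟨0,[(28,0)]⟩) .k 1 (⟨0,[]⟩,⟨0,[]⟩) .k .k) (.Q [0,-1,
  -1,0,1,0,1,1,1,-1,1,1] (.p true [0,0,1] [1,0,0,0,-1] (⟨0,[(37,0)]⟩,⟨0,[(36,0)]⟩) .k 2 (⟨0,[(29,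
  0)]⟩,⟨0,[(30,0)]⟩) .k (.r 0 ⟨1,[(12,0),(11,0),(7,0),(15,0)]⟩ ⟨4,[(4,2),(1,1),(0,0),(2,1),(7,
  1)]⟩)) (.Q [0,0,2,0,0,0,1,0,-1,0,1,-1] (.p true [0,0,1] [0,0,0,0,1] (⟨0,[(38,0)]⟩,⟨0,[(37,0)]⟩)
  .k 2 (⟨0,[(31,0)]⟩,⟨0,[(30,0)]⟩) .k (.r (-1) ⟨31,[(0,11),(6,4),(0,5),(6,7),(0,7),(8,14),(2,0),(4,
  3)]⟩ ⟨4,[(9,0),(9,3),(23,1),(5,0)]⟩)) (.Q [0,0,-1,0,0,0,-1,0,1,0,-1,1] (.p false [0,0,1] [0,0,0,0,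
  1] (⟨0,[(39,0)]⟩,⟨0,[(38,0)]⟩) .k 2 (⟨0,[(32,0)]⟩,⟨0,[(31,0)]⟩) .k (.r (-1) ⟨31,[(1,11),(6,4),(0,
  5),(6,7),(0,7),(8,14),(2,0),(4,3)]⟩ ⟨4,[(10,0),(9,3),(23,1),(5,0)]⟩)) (.R ⟨0,false,false,false,[0,
  -1,1],[0,0,0,0,1],[1],(⟨0,[(29,0)]⟩,⟨175,[(10,11),(16,5),(3,11),(7,175),(1,31),(3,5),(0,47),(0,
  20),(4,8)]⟩),(⟨0,[(33,0)]⟩,⟨0,[(32,0)]⟩),⟨2,[(12,0),(15,1),(12,0),(4,2)]⟩,.k,.k,(.r (-1) ⟨35,[(2,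
  5),(1,3),(13,7),(0,25),(5,19),(0,4),(0,0),(2,9)]⟩ ⟨2,[(1,0),(19,2),(9,0),(6,0),(12,5)]⟩),(.r (-1)
  ⟨5,[(2,1),(6,0),(8,3),(6,1),(1,0),(2,0)]⟩ ⟨0,[(21,0),(29,0),(3,0)]⟩),.k,.k,⟨false,1,⟨1,[(52,0),(0,
  0)]⟩,⟨0,[(55,0)]⟩⟩,⟨true,0,⟨0,[(0,0)]⟩,⟨0,[(1,0)]⟩⟩,⟨true,0,⟨0,[(21,0),(29,0)]⟩,⟨1,[(8,0),(3,0),
  (2,0),(0,1),(5,2),(6,0),(11,2),(9,2)]⟩⟩,⟨false,0,⟨0,[(7,0),(43,0)]⟩,⟨0,[(9,0),(5,0)]⟩⟩,⟨false,0,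
  ⟨0,[]⟩,⟨0,[]⟩⟩,⟨false,0,⟨0,[]⟩,⟨0,[]⟩⟩,[.o ⟨false,0,⟨0,[(7,0),(7,0),(35,0)]⟩,⟨1,[(3,0),(5,0),(38,
  0)]⟩⟩,.a ⟨true,0,⟨0,[(31,0)]⟩,⟨0,[(3,0)]⟩⟩ ⟨false,1,⟨1,[(52,0),(0,0)]⟩,⟨0,[(55,0)]⟩⟩ ⟨true,0,⟨0,
  [(0,0)]⟩,⟨0,[(1,0)]⟩⟩,.a ⟨true,0,⟨0,[(37,0)]⟩,⟨0,[(34,0)]⟩⟩ ⟨true,0,⟨0,[]⟩,⟨0,[(55,0)]⟩⟩ ⟨false,0,
  ⟨0,[(0,0)]⟩,⟨3,[(1,0),(7,0),(0,1),(2,0)]⟩⟩,.a ⟨true,0,⟨0,[(1,0),(29,0)]⟩,⟨1,[(22,1),(1,0),(0,0),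
  (21,0),(3,1)]⟩⟩ ⟨false,1,⟨1,[(52,0),(0,0)]⟩,⟨2,[(1,0),(29,0),(6,0)]⟩⟩ ⟨true,0,⟨2,[(0,2),(23,0),
  (20,0),(5,0)]⟩,⟨0,[(1,0)]⟩⟩]⟩) (.Q [0,2,0,1,-1,0,0,0,1,0,0,1] (.p true [0,0,0,0,1] [] (⟨0,[(33,
  0)]⟩,⟨0,[(32,0)]⟩) .k 0 (⟨0,[]⟩,⟨0,[]⟩) .k .k) (.K ⟨0,[0,1,0,0,1],0,(-1),(⟨175,[(11,11),(16,5),(3,
  11),(1,175),(7,31),(3,5),(0,47),(0,20),(4,8)]⟩,⟨0,[(7,0)]⟩),(.r 0 ⟨2,[(0,1),(10,0),(19,0),(7,0),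
  (12,0)]⟩ ⟨21,[(3,1),(1,2),(5,4),(7,0),(6,14),(1,1)]⟩),.k,(.r 0 ⟨5,[(0,4),(10,3),(19,0),(7,3),(12,
  6)]⟩ ⟨1,[(9,0),(9,0),(6,0),(27,0)]⟩),(.r 0 ⟨3,[(0,0),(10,0),(10,2),(14,0),(8,0),(5,2)]⟩ ⟨5,[(3,1),
  (6,0),(8,3),(6,1),(1,0),(2,0)]⟩),.k,[⟨0,[(1,0)]⟩,⟨0,[(32,0)]⟩,⟨17,[(2,0),(7,1),(0,4),(12,8),(6,9),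
  (7,5),(9,0)]⟩,⟨0,[(0,0)]⟩]⟩) (.R ⟨1,false,false,true,[0,0,1],[0,0,0,0,1],[0,1,0,0,0,0,0,1],(⟨0,
  [(41,0)]⟩,⟨0,[(40,0)]⟩),(⟨0,[(34,0)]⟩,⟨0,[(33,0)]⟩),⟨0,[(30,0)]⟩,.k,.k,.k,.k,(.r (-1) ⟨5,[(3,1),
  (6,0),(8,3),(6,1),(1,0),(2,0)]⟩ ⟨0,[(22,0),(29,0),(3,0)]⟩),.k,⟨false,1,⟨5,[(3,0),(6,0),(7,2),(0,
  0),(0,0),(5,0),(1,0),(6,1)]⟩,⟨4,[(12,0),(9,3),(23,1),(5,0)]⟩⟩,⟨true,0,⟨0,[(23,0),(8,0)]⟩,⟨0,[(1,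
  0)]⟩⟩,⟨true,0,⟨0,[(56,0)]⟩,⟨0,[]⟩⟩,⟨false,0,⟨0,[(32,0),(4,0)]⟩,⟨4,[(0,4),(15,1),(0,0),(0,1),(29,
  1),(3,5)]⟩⟩,⟨false,0,⟨0,[(52,0)]⟩,⟨10,[(3,1),(1,2),(5,0),(7,0),(7,1),(3,3),(22,3)]⟩⟩,⟨false,0,⟨0,
  [(32,0),(4,0),(14,0)]⟩,⟨4,[(0,4),(15,0),(0,2),(0,0),(29,0),(3,2)]⟩⟩,[.o ⟨false,0,⟨0,[(16,0),(15,
  0),(4,0),(14,0)]⟩,⟨0,[(0,0),(51,0)]⟩⟩,.o ⟨false,0,⟨0,[(8,0),(7,0),(35,0)]⟩,⟨1,[(4,0),(5,0),(38,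
  0)]⟩⟩,.o ⟨false,1,⟨16,[(3,0),(4,0),(2,4),(3,5),(16,2),(13,2),(2,4)]⟩,⟨0,[(23,0)]⟩⟩,.a ⟨true,0,⟨0,
  [(38,0)]⟩,⟨0,[(35,0)]⟩⟩ ⟨true,0,⟨0,[(20,0),(31,0)]⟩,⟨0,[(22,0)]⟩⟩ ⟨false,0,⟨2,[(23,2),(1,0),(6,2),
  (13,0),(5,0)]⟩,⟨0,[(1,0),(52,0)]⟩⟩]⟩))) (.I [0,2,1,1,-1] (.I [1,2,1,0,-1] (.S ⟨1,0,[],[1,0,0,0,
  -1],[0,-1],(⟨0,[(33,0)]⟩,⟨0,[(34,0)]⟩),⟨0,[(7,0)]⟩,.k,(.r (-1) ⟨21,[(3,1),(1,2),(5,4),(7,0),(6,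
  14),(1,1)]⟩ ⟨16,[(1,8),(6,2),(2,5),(6,2),(9,2),(3,2),(13,3),(5,4)]⟩),⟨false,1,⟨11,[(3,1),(4,1),(2,
  3),(16,1),(24,2),(0,2)]⟩,⟨0,[]⟩⟩,⟨true,0,⟨9,[(1,0),(4,0),(4,0),(24,0),(2,0),(6,3)]⟩,⟨0,[]⟩⟩,⟨true,
  0,⟨0,[(52,0)]⟩,⟨0,[(51,0)]⟩⟩,⟨false,0,⟨0,[(52,0)]⟩,⟨10,[(3,1),(1,2),(5,0),(7,0),(7,1),(3,3),(22,
  3)]⟩⟩,[.e ⟨false,1,⟨1,[(53,0),(0,0)]⟩,⟨9,[(1,0),(4,0),(4,0),(24,0),(2,0),(6,3)]⟩⟩ ⟨false,1,⟨1,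
  [(31,0),(0,0),(20,0)]⟩,⟨0,[]⟩⟩,.o ⟨false,1,⟨1,[(4,0),(5,0),(38,0)]⟩,⟨4,[(1,2),(0,0),(0,1),(2,1),
  (9,0),(5,0),(26,0)]⟩⟩,.e ⟨false,1,⟨0,[(54,0)]⟩,⟨9,[(1,0),(4,0),(4,0),(24,0),(2,0),(6,3)]⟩⟩ ⟨false,
  1,⟨11,[(3,1),(4,1),(2,3),(16,1),(24,2),(0,2)]⟩,⟨0,[]⟩⟩,.a ⟨true,0,⟨16,[(0,1),(3,12),(6,3),(27,3),
  (8,1),(6,2)]⟩,⟨0,[(2,0),(35,0)]⟩⟩ ⟨true,1,⟨1,[(53,0),(0,0)]⟩,⟨0,[(0,0)]⟩⟩ ⟨false,1,⟨1,[(53,0),(0,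
  0)]⟩,⟨1,[(38,0),(0,0)]⟩⟩]⟩) (.S ⟨1,0,[],[1,0,0,0,-1],[1,-1,0,-1],(⟨0,[(33,0)]⟩,⟨0,[(34,0)]⟩),⟨0,
  [(7,0)]⟩,.k,(.r (-1) ⟨21,[(3,1),(1,2),(5,4),(7,0),(6,14),(1,1)]⟩ ⟨16,[(1,8),(6,2),(2,5),(6,2),(9,
  2),(3,2),(13,3),(5,4)]⟩),⟨false,1,⟨10,[(3,1),(1,2),(5,0),(7,0),(7,1),(3,3),(22,3)]⟩,⟨0,[(52,0)]⟩⟩,
  ⟨true,0,⟨9,[(1,0),(4,0),(4,0),(24,0),(2,0),(6,3)]⟩,⟨0,[]⟩⟩,⟨true,0,⟨0,[]⟩,⟨9,[(1,0),(4,0),(4,0),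
  (24,0),(2,0),(6,3)]⟩⟩,⟨false,0,⟨0,[(52,0)]⟩,⟨10,[(3,1),(1,2),(5,0),(7,0),(7,1),(3,3),(22,3)]⟩⟩,
  [.e ⟨false,1,⟨21,[(3,1),(1,2),(5,4),(7,0),(6,14),(1,1)]⟩,⟨16,[(1,2),(6,0),(2,1),(6,0),(9,0),(3,0),
  (13,6),(5,12)]⟩⟩ ⟨false,1,⟨1,[(31,0),(0,0),(20,0)]⟩,⟨0,[]⟩⟩,.o ⟨false,1,⟨1,[(4,0),(5,0),(38,0)]⟩,
  ⟨4,[(1,2),(0,0),(0,1),(2,1),(9,0),(5,0),(26,0)]⟩⟩,.e ⟨false,1,⟨0,[(0,0),(18,0),(2,0)]⟩,⟨16,[(1,2),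
  (6,0),(2,1),(6,0),(9,0),(3,0),(13,6),(5,12)]⟩⟩ ⟨false,1,⟨11,[(3,1),(4,1),(2,3),(16,1),(24,2),(0,
  2)]⟩,⟨0,[]⟩⟩,.a ⟨true,0,⟨8,[(1,0),(2,6),(6,1),(7,0),(2,0),(16,1),(8,0),(6,0)]⟩,⟨0,[(2,0),(35,
  0)]⟩⟩ ⟨true,1,⟨21,[(3,1),(1,2),(5,4),(7,0),(6,14),(1,1)]⟩,⟨0,[(1,0)]⟩⟩ ⟨false,1,⟨1,[(53,0),(0,
  0)]⟩,⟨1,[(38,0),(0,0)]⟩⟩]⟩)) (.Q [0,0,0,0,0,0,0,0,0,0,1,-1] (.ed true [1,0,-1,0,1] (.r 0 ⟨4,[(11,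
  0),(9,3),(23,1),(5,0)]⟩ ⟨31,[(2,11),(6,4),(0,5),(6,7),(0,7),(8,14),(2,0),(4,3)]⟩)) (.Q [0,0,0,0,0,
  -1,0,0,0,1,-1,-1] (.p false [0,0,1,0,1] [1] (⟨0,[(34,0),(6,0)]⟩,⟨2,[(0,0),(6,1),(5,3),(28,0),(4,
  2)]⟩) .k 1 (⟨0,[]⟩,⟨0,[]⟩) .k (.r 0 ⟨1,[(16,0),(11,0),(7,0),(15,0)]⟩ ⟨4,[(8,2),(1,1),(0,0),(2,1),
  (7,1)]⟩)) (.R ⟨1,false,false,true,[1,0,-1,0,-1],[1,-1,0,0,-1],[0,-1,0,0,0,0,0,-1],(⟨12,[(0,9),(33,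
  2),(6,2),(1,0),(4,2)]⟩,⟨0,[(35,0),(6,0)]⟩),(⟨0,[(8,0)]⟩,⟨175,[(12,11),(16,5),(3,11),(1,175),(7,
  31),(3,5),(0,47),(0,20),(4,8)]⟩),⟨0,[(0,0)]⟩,.k,(.r (-1) ⟨15,[(2,1),(1,1),(1,1),(5,1),(14,7),(0,
  0),(0,0),(2,1)]⟩ ⟨1,[(23,0),(13,0),(2,0),(12,1),(3,0)]⟩),(.r (-1) ⟨0,[(23,0),(3,0)]⟩ ⟨0,[(37,0),
  (2,0),(12,0)]⟩),.k,.k,.k,⟨false,1,⟨4,[(9,2),(1,1),(0,0),(2,1),(7,1),(29,4)]⟩,⟨0,[(21,0)]⟩⟩,⟨true,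
  0,⟨0,[(39,0)]⟩,⟨0,[(24,0)]⟩⟩,⟨false,1,⟨11,[(4,1),(4,1),(2,3),(16,1),(24,2),(0,2)]⟩,⟨0,[]⟩⟩,⟨false,
  0,⟨0,[(18,0)]⟩,⟨0,[(38,0),(14,0),(1,0)]⟩⟩,⟨true,0,⟨0,[(53,0)]⟩,⟨0,[(52,0)]⟩⟩,⟨false,0,⟨4,[(17,0),
  (0,2),(0,0),(29,0),(3,2)]⟩,⟨0,[(38,0),(16,0)]⟩⟩,[.e ⟨false,1,⟨2,[(9,0),(1,0),(1,0),(1,0),(7,0),
  (29,0),(1,0)]⟩,⟨1,[(17,0),(11,0),(7,0),(15,0)]⟩⟩ ⟨false,1,⟨18,[(4,0),(2,0),(4,2),(3,7),(11,8),(4,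
  0),(13,1),(6,6)]⟩,⟨0,[(24,0),(28,0)]⟩⟩,.o ⟨false,1,⟨2,[(2,1),(2,2),(11,0),(5,0),(16,0),(9,0)]⟩,⟨0,
  [(9,0),(7,0),(35,1)]⟩⟩,.e ⟨false,1,⟨0,[(2,0),(20,0),(29,0)]⟩,⟨1,[(17,0),(11,0),(7,0),(15,0)]⟩⟩
  ⟨false,1,⟨2,[(2,0),(9,0),(3,0),(11,0),(4,0)]⟩,⟨0,[(24,0),(28,0)]⟩⟩,.a ⟨true,0,⟨0,[(5,0),(34,0)]⟩,
  ⟨0,[(2,0),(0,0),(13,1),(5,1),(25,0),(3,2)]⟩⟩ ⟨true,1,⟨2,[(9,0),(1,0),(1,0),(1,0),(7,0),(29,0),(1,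
  0)]⟩,⟨0,[(17,1),(5,0),(0,1),(24,0),(3,1)]⟩⟩ ⟨false,1,⟨11,[(2,1),(13,5),(10,1),(0,3),(20,0),(5,
  2)]⟩,⟨0,[(40,0),(12,0)]⟩⟩]⟩) (.I [0,2,1,0,-1,0,0,1] (.R ⟨0,false,false,true,[1,0,-1,0,-1],[1,-1,0,
  0,-1],[0,1,1],(⟨2,[(2,0),(6,1),(5,3),(28,0),(4,2)]⟩,⟨0,[(36,0),(6,0)]⟩),(⟨0,[(9,0)]⟩,⟨175,[(13,
  11),(16,5),(3,11),(1,175),(7,31),(3,5),(0,47),(0,20),(4,8)]⟩),⟨0,[(1,0)]⟩,.k,(.r (-1) ⟨15,[(3,1),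
  (1,1),(1,1),(5,1),(14,7),(0,0),(0,0),(2,1)]⟩ ⟨6,[(0,2),(9,2),(2,2),(34,1),(5,6)]⟩),(.r (-1) ⟨0,
  [(24,0),(3,0)]⟩ ⟨17,[(0,10),(12,4),(6,5),(9,5),(3,4),(3,0),(9,2),(5,11)]⟩),.k,.k,.k,⟨false,0,⟨6,
  [(0,2),(9,2),(2,2),(34,1),(5,6)]⟩,⟨0,[(28,0)]⟩⟩,⟨true,0,⟨0,[(40,0)]⟩,⟨0,[(25,0)]⟩⟩,⟨true,(-1),⟨0,
  [(0,0)]⟩,⟨2,[(10,0),(1,0),(1,0),(1,0),(7,0),(29,0),(1,0)]⟩⟩,⟨false,0,⟨0,[(19,0)]⟩,⟨0,[(39,0),(14,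
  0),(1,0)]⟩⟩,⟨false,0,⟨0,[]⟩,⟨0,[]⟩⟩,⟨false,0,⟨0,[]⟩,⟨0,[]⟩⟩,[.e ⟨false,0,⟨6,[(0,0),(9,0),(2,0),
  (34,2)]⟩,⟨1,[(55,0),(0,0)]⟩⟩ ⟨false,1,⟨18,[(5,0),(2,0),(4,2),(3,7),(11,8),(4,0),(13,1),(6,6)]⟩,⟨0,
  [(25,0),(28,0)]⟩⟩,.o ⟨false,1,⟨2,[(3,1),(2,2),(11,0),(5,0),(16,0),(9,0)]⟩,⟨0,[(10,0),(7,0),(35,
  1)]⟩⟩,.e ⟨false,0,⟨1,[(40,0),(0,0)]⟩,⟨1,[(55,0),(0,0)]⟩⟩ ⟨false,1,⟨2,[(3,0),(9,0),(3,0),(11,0),(4,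
  0)]⟩,⟨0,[(25,0),(28,0)]⟩⟩,.a ⟨true,0,⟨0,[(6,0),(34,0)]⟩,⟨0,[(3,0),(0,0),(13,1),(5,1),(25,0),(3,
  2)]⟩⟩ ⟨true,0,⟨6,[(0,0),(9,0),(2,0),(34,2)]⟩,⟨0,[]⟩⟩ ⟨false,1,⟨11,[(3,1),(13,5),(10,1),(0,3),(20,
  0),(5,2)]⟩,⟨0,[(41,0),(12,0)]⟩⟩]⟩) (.I [0,0,0,0,0,-1,-1] (.I [0,0,0,-1,0,0,0,1] (.I [0,0,0,0,0,1,
  -1,0,-1] (.I [0,0,-2,0,0,0,-1,0,1] (.I [1,0,0,-1,0,1,1,1] (.I [0,0,0,-2,0,0,-1,-1,1] (.I [0,1,0,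
  -1,0,-2,1,1] (.C [(0,1),(5,1),(0,0),(0,0),(0,0),(12,1),(8,0),(24,2),(0,0),(3,1)]) (.C [(0,0),(21,
  0),(2,0)])) (.C [(0,0),(7,0),(4,0)])) (.C [(0,0),(19,0),(3,0),(29,0)])) (.C [(0,0),(5,0),(1,0)]))
  (.C [(0,0),(3,0),(4,0),(18,0)])) (.C [(0,0),(20,0),(5,0)])) (.C [(0,0),(1,0),(0,0),(12,0),(9,
  0)])))) (.Q [0,0,0,-1,0,0,-1,-1,-1,1,-1,-1] (.p false [0,0,1] [1,0,0,0,-1] (⟨0,[(41,0)]⟩,⟨0,[(40,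
  0)]⟩) .k 2 (⟨0,[(33,0)]⟩,⟨0,[(34,0)]⟩) .k (.r 0 ⟨1,[(16,0),(11,0),(7,0),(15,0)]⟩ ⟨4,[(8,2),(1,1),
  (0,0),(2,1),(7,1)]⟩)) (.S ⟨1,0,[0,-1,0,0,0,0,0,1],[1,0,1,0,-1],[1,0,0,-1,0,0,0,1],(⟨0,[(34,0),(7,
  0)]⟩,⟨0,[(1,0)]⟩),⟨0,[(8,0),(33,0)]⟩,.k,(.r (-1) ⟨5,[(4,1),(6,0),(8,3),(6,1),(1,0),(2,0)]⟩ ⟨0,
  [(23,0),(29,0),(3,0)]⟩),⟨true,0,⟨0,[(52,0)]⟩,⟨0,[(53,0)]⟩⟩,⟨false,1,⟨11,[(4,1),(4,1),(2,3),(16,1),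
  (24,2),(0,2)]⟩,⟨0,[]⟩⟩,⟨false,0,⟨0,[]⟩,⟨11,[(4,1),(4,1),(2,3),(16,1),(24,2),(0,2)]⟩⟩,⟨true,0,⟨0,
  [(53,0)]⟩,⟨0,[(52,0)]⟩⟩,[.o ⟨false,1,⟨1,[(5,0),(5,0),(5,0),(1,0)]⟩,⟨0,[(3,0),(13,0),(5,1),(0,0),
  (28,0)]⟩⟩,.e ⟨false,1,⟨5,[(4,1),(6,0),(8,3),(6,1),(1,0),(2,0)]⟩,⟨4,[(13,0),(9,3),(23,1),(5,5)]⟩⟩
  ⟨false,1,⟨0,[(2,0),(17,0),(32,1)]⟩,⟨0,[(23,0),(23,0)]⟩⟩,.a ⟨true,0,⟨0,[(0,0),(1,0),(14,1),(5,0),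
  (25,0),(3,3)]⟩,⟨2,[(3,0),(29,1),(6,1)]⟩⟩ ⟨true,0,⟨0,[(20,0)]⟩,⟨4,[(13,0),(9,3),(23,1),(5,5)]⟩⟩
  ⟨false,1,⟨3,[(19,1),(0,1),(3,1),(24,0),(5,2)]⟩,⟨4,[(13,0),(9,3),(23,1),(5,0)]⟩⟩,.e ⟨false,1,⟨5,
  [(4,1),(6,0),(8,3),(6,1),(1,0),(2,0)]⟩,⟨0,[(23,0),(29,0)]⟩⟩ ⟨false,1,⟨0,[(2,0),(17,0),(32,1)]⟩,⟨0,
  [(23,0),(33,0)]⟩⟩]⟩) (.Q [0,0,0,0,0,0,0,0,0,1,-1,-1] (.ed true [0,0,1,0,1] (.r 0 ⟨1,[(17,0),(11,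
  0),(7,0),(15,0)]⟩ ⟨4,[(9,2),(1,1),(0,0),(2,1),(7,1)]⟩)) (.I [1,2,1,1,-1] (.I [0,0,-1,0,0,-1,0,0,
  2] (.N [0,1,0,0,2] 1 ⟨0,[(1,0)]⟩ ⟨0,[(5,0)]⟩ (.x 0 ⟨0,[(0,0)]⟩ ⟨77,[(1,8),(6,108),(4,2),(1,23),(4,
  2),(14,22),(2,155),(4,26),(7,25),(1,39)]⟩)) (.Q [0,0,0,0,0,1,0,0,0,-1,1,1] (.p true [0,0,1,0,1]
  [1] (⟨0,[(38,0),(6,0)]⟩,⟨0,[(2,0)]⟩) .k 1 (⟨0,[]⟩,⟨0,[]⟩) .k (.r 0 ⟨4,[(1,0),(18,0),(1,0),(1,0),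
  (7,1),(7,1)]⟩ ⟨4,[(12,2),(1,1),(0,0),(2,1),(7,1)]⟩)) (.R ⟨0,false,false,true,[1,0,-1,0,-1],[1,-1,
  0,0,-1],[0,1,1],(⟨0,[(3,0)]⟩,⟨0,[(39,0),(6,0)]⟩),(⟨0,[(12,0)]⟩,⟨27,[(1,5),(35,11),(1,15),(7,3),(4,
  5),(0,2),(4,2)]⟩),⟨0,[(0,0)]⟩,.k,(.r (-1) ⟨15,[(6,1),(1,1),(1,1),(5,1),(14,7),(0,0),(0,0),(2,1)]⟩
  ⟨13,[(2,5),(1,2),(8,2),(2,5),(16,2),(17,3),(5,4)]⟩),(.r (-1) ⟨0,[(27,0),(3,0)]⟩ ⟨5,[(2,2),(1,0),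
  (11,0),(6,1),(9,2),(7,2),(2,0)]⟩),.k,.k,.k,⟨false,0,⟨13,[(2,5),(1,2),(8,2),(2,5),(16,2),(17,3),(5,
  4)]⟩,⟨0,[(31,0)]⟩⟩,⟨true,0,⟨0,[(43,0)]⟩,⟨0,[(28,0)]⟩⟩,⟨true,(-1),⟨1,[(2,0),(18,1),(6,1),(24,0),(3,
  0),(2,0)]⟩,⟨2,[(13,0),(1,0),(1,0),(1,0),(7,0),(29,0),(1,0)]⟩⟩,⟨false,0,⟨0,[(22,0)]⟩,⟨0,[(42,0),
  (14,0),(1,0)]⟩⟩,⟨false,0,⟨0,[]⟩,⟨0,[]⟩⟩,⟨false,0,⟨0,[]⟩,⟨0,[]⟩⟩,[.e ⟨false,0,⟨9,[(2,0),(8,0),(4,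
  0),(24,0),(2,0),(6,3)]⟩,⟨1,[(58,0),(0,0)]⟩⟩ ⟨false,1,⟨18,[(8,0),(2,0),(4,2),(3,7),(11,8),(4,0),
  (13,1),(6,6)]⟩,⟨0,[(28,0),(28,0)]⟩⟩,.o ⟨false,1,⟨28,[(1,11),(4,16),(2,1),(2,23),(1,3),(1,2),(4,3),
  (22,6),(7,3),(1,8)]⟩,⟨0,[(4,0),(37,0)]⟩⟩,.e ⟨false,0,⟨1,[(43,0),(0,0)]⟩,⟨1,[(58,0),(0,0)]⟩⟩
  ⟨false,1,⟨2,[(6,0),(9,0),(3,0),(11,0),(4,0)]⟩,⟨0,[(28,0),(28,0)]⟩⟩,.a ⟨true,0,⟨0,[(9,0),(34,0)]⟩,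
  ⟨119,[(4,91),(9,25),(2,39),(0,11),(1,13),(6,25),(7,11),(1,27),(9,35),(5,46),(5,32)]⟩⟩ ⟨true,0,⟨9,
  [(2,0),(8,0),(4,0),(24,0),(2,0),(6,3)]⟩,⟨0,[]⟩⟩ ⟨false,1,⟨11,[(6,1),(13,5),(10,1),(0,3),(20,0),(5,
  2)]⟩,⟨0,[(44,0),(12,0)]⟩⟩]⟩) (.I [0,0,0,0,0,-1,-1] (.C [(0,13),(0,22),(0,6),(2,13),(0,8),(0,2),(7,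
  5),(12,7),(7,17),(11,2),(4,14),(0,2),(3,0)]) (.C [(0,0),(28,0),(6,0)])))) (.Q [0,0,0,0,0,1,0,0,0,
  -1,1,1] (.p true [0,0,1,0,1] [1] (⟨0,[(37,0),(6,0)]⟩,⟨0,[(1,0)]⟩) .k 1 (⟨0,[]⟩,⟨0,[]⟩) .k (.r 0
  ⟨1,[(19,0),(11,0),(7,0),(15,0)]⟩ ⟨4,[(11,2),(1,1),(0,0),(2,1),(7,1)]⟩)) (.I [0,2,1,0,-1,0,0,1]
  (.R ⟨0,false,false,true,[1,0,-1,0,-1],[1,-1,0,0,-1],[0,1,1],(⟨0,[(3,0)]⟩,⟨0,[(39,0),(6,0)]⟩),(⟨0,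
  [(12,0)]⟩,⟨175,[(16,11),(16,5),(3,11),(1,175),(7,31),(3,5),(0,47),(0,20),(4,8)]⟩),⟨0,[(1,0)]⟩,.k,
  (.r (-1) ⟨15,[(6,1),(1,1),(1,1),(5,1),(14,7),(0,0),(0,0),(2,1)]⟩ ⟨6,[(0,2),(12,2),(2,2),(34,1),(5,
  6)]⟩),(.r (-1) ⟨0,[(27,0),(3,0)]⟩ ⟨12,[(0,5),(3,4),(11,4),(6,0),(9,5),(7,0),(9,2),(5,6)]⟩),.k,.k,
  .k,⟨false,0,⟨6,[(0,2),(12,2),(2,2),(34,1),(5,6)]⟩,⟨0,[(31,0)]⟩⟩,⟨true,0,⟨0,[(43,0)]⟩,⟨0,[(28,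
  0)]⟩⟩,⟨true,(-1),⟨0,[(0,0)]⟩,⟨2,[(13,0),(1,0),(1,0),(1,0),(7,0),(29,0),(1,0)]⟩⟩,⟨false,0,⟨0,[(22,
  0)]⟩,⟨0,[(42,0),(14,0),(1,0)]⟩⟩,⟨false,0,⟨0,[]⟩,⟨0,[]⟩⟩,⟨false,0,⟨0,[]⟩,⟨0,[]⟩⟩,[.e ⟨false,0,⟨6,
  [(0,0),(12,0),(2,0),(34,2)]⟩,⟨1,[(58,0),(0,0)]⟩⟩ ⟨false,1,⟨18,[(8,0),(2,0),(4,2),(3,7),(11,8),(4,
  0),(13,1),(6,6)]⟩,⟨0,[(28,0),(28,0)]⟩⟩,.o ⟨false,1,⟨2,[(6,1),(2,2),(11,0),(5,0),(16,0),(9,0)]⟩,⟨0,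
  [(4,0),(37,0)]⟩⟩,.e ⟨false,0,⟨1,[(43,0),(0,0)]⟩,⟨1,[(58,0),(0,0)]⟩⟩ ⟨false,1,⟨2,[(6,0),(9,0),(3,
  0),(11,0),(4,0)]⟩,⟨0,[(28,0),(28,0)]⟩⟩,.a ⟨true,0,⟨0,[(9,0),(34,0)]⟩,⟨104,[(2,23),(1,71),(12,47),
  (0,9),(1,13),(6,23),(7,9),(1,32),(5,4),(3,29),(5,37)]⟩⟩ ⟨true,0,⟨6,[(0,0),(12,0),(2,0),(34,2)]⟩,
  ⟨0,[]⟩⟩ ⟨false,1,⟨11,[(6,1),(13,5),(10,1),(0,3),(20,0),(5,2)]⟩,⟨0,[(44,0),(12,0)]⟩⟩]⟩) (.I [0,0,0,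
  0,0,-1,-1] (.I [0,0,0,-1,0,0,0,1] (.I [0,0,0,1,0,0,1,1,1] (.I [0,1,0,-1,0,-2,1,1] (.C [(0,1),(2,
  1),(0,0),(17,0),(8,0),(7,0),(16,2),(0,0),(3,1)]) (.C [(0,0),(21,0),(2,0)])) (.C [(0,0),(5,0),(0,
  0)])) (.C [(0,0),(23,0),(5,0)])) (.C [(0,0),(28,0),(6,0)]))) (.R ⟨1,false,false,true,[1,0,-1,0,
  -1],[1,-1,0,0,-1],[1,-1,0,-1,0,0,0,-1],(⟨0,[(2,0)]⟩,⟨0,[(38,0),(6,0)]⟩),(⟨0,[(11,0)]⟩,⟨175,[(15,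
  11),(16,5),(3,11),(1,175),(7,31),(3,5),(0,47),(0,20),(4,8)]⟩),⟨0,[(0,0)]⟩,.k,(.r (-1) ⟨15,[(5,1),
  (1,1),(1,1),(5,1),(14,7),(0,0),(0,0),(2,1)]⟩ ⟨1,[(26,0),(13,0),(2,0),(12,1),(3,0)]⟩),(.r (-1) ⟨0,
  [(26,0),(3,0)]⟩ ⟨0,[(40,0),(2,0),(12,0)]⟩),.k,.k,.k,⟨false,1,⟨4,[(12,2),(1,1),(0,0),(2,1),(7,1)]⟩,
  ⟨0,[(24,0),(31,0)]⟩⟩,⟨true,0,⟨0,[(42,0)]⟩,⟨0,[(27,0)]⟩⟩,⟨false,1,⟨7,[(5,1),(1,1),(1,1),(5,1),(15,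
  0),(0,0),(2,1)]⟩,⟨0,[(56,0)]⟩⟩,⟨false,0,⟨0,[(21,0)]⟩,⟨0,[(41,0),(14,0),(1,0)]⟩⟩,⟨true,0,⟨0,[]⟩,⟨0,
  [(60,0)]⟩⟩,⟨false,0,⟨1,[(3,0),(4,0),(12,0)]⟩,⟨0,[(41,0),(16,0)]⟩⟩,[.e ⟨false,1,⟨0,[(26,0),(3,0)]⟩,
  ⟨1,[(20,0),(11,0),(7,0),(15,2)]⟩⟩ ⟨false,1,⟨18,[(7,0),(2,0),(4,2),(3,7),(11,8),(4,0),(13,1),(6,
  6)]⟩,⟨0,[(27,0),(28,0)]⟩⟩,.o ⟨false,1,⟨2,[(5,1),(2,2),(11,0),(5,0),(16,0),(9,0)]⟩,⟨0,[(3,0),(37,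
  0)]⟩⟩,.e ⟨false,1,⟨0,[(5,0),(20,0)]⟩,⟨1,[(20,0),(11,0),(7,0),(15,2)]⟩⟩ ⟨false,1,⟨2,[(5,0),(9,0),
  (3,0),(11,0),(4,0)]⟩,⟨0,[(27,0),(28,0)]⟩⟩,.a ⟨true,0,⟨0,[(8,0),(34,0)]⟩,⟨104,[(1,23),(1,71),(12,
  47),(0,9),(1,13),(6,23),(7,9),(1,32),(5,4),(3,29),(5,37)]⟩⟩ ⟨true,1,⟨0,[(26,0),(3,0)]⟩,⟨0,[(20,1),
  (5,0),(0,1),(24,0),(3,2)]⟩⟩ ⟨false,1,⟨11,[(5,1),(13,5),(10,1),(0,3),(20,0),(5,2)]⟩,⟨0,[(43,0),(12,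
  0)]⟩⟩]⟩))) (.R ⟨1,false,false,false,[2,0,-1,0,-1],[0,0,0,0,1],[1,-1,0,-1,0,0,0,-1],(⟨0,[(35,0),(6,
  0)]⟩,⟨0,[(0,0)]⟩),(⟨0,[(36,0)]⟩,⟨0,[(35,0)]⟩),⟨0,[(31,0),(3,0)]⟩,.k,.k,(.r (-1) ⟨0,[(24,0),(3,
  0)]⟩ ⟨0,[(38,0),(2,0),(12,0)]⟩),.k,(.r (-2) ⟨5,[(8,5),(3,3),(0,1),(2,3),(38,0),(0,0)]⟩ ⟨0,[(18,1),
  (5,0),(0,1),(24,0),(3,2)]⟩),.k,⟨true,1,⟨0,[(3,0),(20,0)]⟩,⟨0,[(18,1),(5,0),(0,1),(24,0),(3,2)]⟩⟩,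
  ⟨false,1,⟨8,[(1,6),(3,1),(2,6),(1,1),(5,0),(0,3),(30,0),(2,1)]⟩,⟨0,[(6,1),(18,0)]⟩⟩,⟨false,1,⟨7,
  [(3,1),(1,1),(1,1),(5,1),(15,0),(0,0),(2,1)]⟩,⟨0,[(54,0)]⟩⟩,⟨false,0,⟨2,[(1,3),(6,1),(9,1),(20,
  0)]⟩,⟨0,[(3,0),(2,1),(17,0),(0,0),(28,0)]⟩⟩,⟨true,0,⟨0,[]⟩,⟨0,[(58,0)]⟩⟩,⟨false,0,⟨2,[(1,4),(6,0),
  (9,0),(20,1)]⟩,⟨0,[(3,0),(2,1),(17,0),(0,0)]⟩⟩,[.o ⟨false,0,⟨2,[(1,1),(6,0),(9,0),(20,1)]⟩,⟨1,[(6,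
  0),(5,0),(38,0)]⟩⟩,.a ⟨true,0,⟨0,[(34,0)]⟩,⟨0,[(6,0)]⟩⟩ ⟨true,1,⟨0,[(3,0),(20,0)]⟩,⟨0,[(18,1),(5,
  0),(0,1),(24,0),(3,2)]⟩⟩ ⟨false,1,⟨8,[(1,6),(3,1),(2,6),(1,1),(5,0),(0,3),(30,0),(2,1)]⟩,⟨0,[(6,
  1),(18,0)]⟩⟩,.o ⟨false,0,⟨0,[(6,0),(18,0)]⟩,⟨67,[(1,40),(6,36),(4,9),(3,24),(0,3),(5,7),(23,2),(2,
  32)]⟩⟩,.o ⟨false,0,⟨0,[(6,0),(34,0)]⟩,⟨10,[(1,6),(1,0),(4,3),(5,1),(1,1),(0,2),(6,0),(26,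
  4)]⟩⟩]⟩)))))) (.Q [0,-2,0,0,1,0,1,0,0,0,1] (.p true [0,0,1] [] (⟨0,[(38,0)]⟩,⟨0,[(37,0)]⟩) .k 0
  (⟨0,[]⟩,⟨0,[]⟩) .k .k) (.Q [0,2,0,1,-1,0,0,0,1,0,0,1] (.p true [0,0,0,0,1] [] (⟨0,[(32,0)]⟩,⟨0,
  [(31,0)]⟩) .k 0 (⟨0,[]⟩,⟨0,[]⟩) .k .k) (.K ⟨0,[0,1,0,0,1],0,(-1),(⟨175,[(10,11),(16,5),(3,11),(1,
  175),(7,31),(3,5),(0,47),(0,20),(4,8)]⟩,⟨0,[(6,0)]⟩),(.r 0 ⟨2,[(0,1),(9,0),(19,0),(7,0),(12,0)]⟩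
  ⟨5,[(4,0),(15,0),(4,2),(4,0),(22,1)]⟩),.k,(.r 0 ⟨5,[(0,4),(9,3),(19,0),(7,3),(12,6)]⟩ ⟨1,[(8,0),
  (9,0),(6,0),(27,0)]⟩),(.r 0 ⟨1,[(0,0),(20,1),(8,0),(20,0)]⟩ ⟨3,[(17,0),(0,1),(1,0),(4,1),(1,0),
  (25,0)]⟩),.k,[⟨0,[(1,0),(0,0),(12,0),(35,0)]⟩,⟨0,[(31,0)]⟩,⟨33,[(2,3),(6,2),(0,3),(7,3),(4,5),(2,
  8),(3,22),(17,7)]⟩,⟨0,[(0,0)]⟩]⟩) (.R ⟨1,false,false,true,[0,0,1],[0,0,0,0,1],[0,1,0,0,0,0,0,1],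
  (⟨0,[(40,0)]⟩,⟨0,[(39,0)]⟩),(⟨0,[(33,0)]⟩,⟨0,[(32,0)]⟩),⟨0,[(29,0)]⟩,.k,.k,.k,.k,(.r (-1) ⟨3,[(17,
  0),(0,1),(1,0),(4,1),(1,0),(25,0)]⟩ ⟨0,[(21,0),(29,0),(3,0)]⟩),.k,⟨false,1,⟨6,[(17,3),(0,1),(6,1),
  (1,0),(6,2),(0,0),(17,0)]⟩,⟨4,[(11,0),(9,3),(23,1),(5,0)]⟩⟩,⟨true,0,⟨0,[(22,0),(8,0)]⟩,⟨0,[(1,0),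
  (0,0),(12,0),(35,0)]⟩⟩,⟨true,0,⟨0,[(55,0)]⟩,⟨0,[]⟩⟩,⟨false,0,⟨0,[(31,0),(4,0)]⟩,⟨4,[(0,4),(14,1),
  (0,0),(0,1),(29,1),(3,5)]⟩⟩,⟨false,0,⟨0,[(51,0)]⟩,⟨2,[(4,0),(15,0),(9,0),(22,1)]⟩⟩,⟨false,0,⟨0,
  [(31,0),(4,0),(14,0)]⟩,⟨4,[(0,4),(14,0),(0,2),(0,0),(29,0),(3,2)]⟩⟩,[.o ⟨false,0,⟨0,[(15,0),(15,
  0),(4,0),(14,0)]⟩,⟨0,[(0,0),(50,0)]⟩⟩,.o ⟨false,0,⟨0,[(7,0),(7,0),(35,0)]⟩,⟨1,[(0,0),(29,0),(20,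
  0)]⟩⟩,.o ⟨false,1,⟨27,[(10,7),(3,9),(16,7),(13,3),(2,8),(3,0)]⟩,⟨0,[(22,0)]⟩⟩,.a ⟨true,0,⟨0,[(37,
  0)]⟩,⟨0,[(34,0)]⟩⟩ ⟨true,0,⟨0,[(19,0),(31,0)]⟩,⟨0,[(21,0)]⟩⟩ ⟨false,0,⟨2,[(22,2),(1,0),(6,2),(13,
  0),(5,0)]⟩,⟨1,[(0,0),(0,0),(0,0),(14,0),(19,0)]⟩⟩]⟩)) (.Q [0,2,0,0,-1,0,0,0,1,0,0,1] (.p true [0,
  0,0,0,1] [] (⟨0,[(32,0)]⟩,⟨0,[(31,0)]⟩) .k 0 (⟨0,[]⟩,⟨0,[]⟩) .k .k) (.S ⟨1,0,[0,-1],[1,0,0,0,-1],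
  [],(⟨0,[(32,0)]⟩,⟨0,[(33,0)]⟩),⟨0,[(6,0)]⟩,.k,(.r (-1) ⟨5,[(4,0),(15,0),(4,2),(4,0),(22,1)]⟩ ⟨6,
  [(0,2),(9,2),(27,2),(6,1),(5,6)]⟩),⟨true,0,⟨6,[(0,0),(9,0),(27,0),(6,2)]⟩,⟨0,[]⟩⟩,⟨false,1,⟨1,
  [(30,0),(0,0),(21,0)]⟩,⟨0,[]⟩⟩,⟨false,0,⟨0,[(51,0)]⟩,⟨2,[(4,0),(15,0),(9,0),(22,1)]⟩⟩,⟨true,0,⟨0,
  [(51,0)]⟩,⟨0,[(50,0)]⟩⟩,[.o ⟨false,1,⟨1,[(3,0),(5,0),(38,0)]⟩,⟨1,[(0,0),(30,0),(16,0)]⟩⟩,.a ⟨true,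
  1,⟨0,[(9,0)]⟩,⟨0,[(0,0)]⟩⟩ ⟨false,1,⟨1,[(52,0),(0,0)]⟩,⟨6,[(0,0),(9,0),(27,0),(6,2)]⟩⟩ ⟨true,1,⟨0,
  [(53,0)]⟩,⟨0,[(1,0),(35,0)]⟩⟩,.e ⟨false,1,⟨1,[(30,0),(0,0),(21,0)]⟩,⟨0,[]⟩⟩ ⟨false,1,⟨0,[(53,0)]⟩,
  ⟨6,[(0,0),(9,0),(27,0),(6,2)]⟩⟩,.o ⟨false,0,⟨1,[(2,1),(12,0),(1,0),(35,0)]⟩,⟨1,[(31,1),(16,0),(3,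
  0)]⟩⟩]⟩) (.R ⟨1,false,false,false,[0,0,1],[1,0,0,0,-1],[0,1,0,0,0,0,0,1],(⟨0,[(40,0)]⟩,⟨0,[(39,
  0)]⟩),(⟨0,[(32,0)]⟩,⟨0,[(33,0)]⟩),⟨0,[(29,0)]⟩,.k,.k,.k,.k,(.r 0 ⟨0,[(0,8),(0,1),(0,0),(1,9),(3,
  0),(6,12),(31,5),(3,33)]⟩ ⟨4,[(7,3),(1,0),(0,2),(2,0),(7,0),(29,4)]⟩),.k,⟨true,(-1),⟨4,[(1,4),(13,
  0),(0,2),(0,0),(29,0),(3,2)]⟩,⟨0,[(21,0),(31,0)]⟩⟩,⟨false,0,⟨6,[(0,4),(0,3),(1,1),(20,1),(9,2),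
  (12,0),(3,1)]⟩,⟨27,[(10,7),(3,9),(16,35),(13,3),(2,8),(3,0)]⟩⟩,⟨true,0,⟨0,[(55,0)]⟩,⟨0,[]⟩⟩,
  ⟨false,1,⟨11,[(0,6),(1,2),(4,5),(1,7),(1,0),(22,0),(1,1),(14,0)]⟩,⟨0,[(15,0),(15,0),(19,0)]⟩⟩,
  ⟨false,0,⟨0,[(51,0)]⟩,⟨2,[(4,0),(15,0),(9,0),(22,1)]⟩⟩,⟨false,1,⟨11,[(0,6),(1,2),(4,5),(1,7),(1,
  0),(22,0),(1,1),(14,12)]⟩,⟨0,[(15,0),(15,0)]⟩⟩,[.o ⟨false,1,⟨1,[(0,0),(29,0)]⟩,⟨0,[(7,0),(7,0),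
  (35,0)]⟩⟩,.o ⟨false,1,⟨0,[(0,0)]⟩,⟨1,[(1,0),(29,1),(5,0),(7,0),(2,0)]⟩⟩,.o ⟨false,1,⟨27,[(10,7),
  (3,9),(16,7),(13,3),(2,8),(3,0)]⟩,⟨0,[(22,0)]⟩⟩,.a ⟨true,0,⟨0,[(37,0)]⟩,⟨0,[(34,0)]⟩⟩ ⟨true,0,⟨9,
  [(1,2),(11,0),(3,2),(1,5),(14,1),(0,0),(11,0),(3,2)]⟩,⟨0,[(21,0)]⟩⟩ ⟨false,1,⟨0,[(0,0),(33,0)]⟩,
  ⟨0,[(15,0),(5,0),(9,0),(19,0)]⟩⟩]⟩)))) (.R ⟨0,false,false,true,[0,-1,1],[1,0,0,0,-1],[1],(⟨0,[(26,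
  0)]⟩,⟨175,[(7,11),(16,5),(3,11),(7,175),(1,31),(3,5),(0,47),(0,20),(4,8)]⟩),(⟨0,[(29,0)]⟩,⟨0,[(30,
  0)]⟩),⟨2,[(9,0),(15,1),(12,0),(4,2)]⟩,.k,.k,(.r (-1) ⟨17,[(1,0),(13,3),(0,5),(0,8),(4,14),(1,3),
  (2,0),(17,1)]⟩ ⟨1,[(18,1),(15,0),(0,0),(12,3)]⟩),(.r 0 ⟨1,[(5,0),(3,0),(2,0),(0,1),(5,2),(6,0),
  (11,2),(9,2)]⟩ ⟨4,[(4,3),(1,0),(0,2),(2,0),(7,0),(29,4)]⟩),.k,.k,⟨true,0,⟨0,[]⟩,⟨1,[(34,0),(0,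
  0)]⟩⟩,⟨false,1,⟨2,[(6,0),(12,0),(1,1),(5,1),(3,1),(16,1)]⟩,⟨0,[(0,0),(33,0)]⟩⟩,⟨true,0,⟨0,[(18,0),
  (29,0)]⟩,⟨1,[(5,0),(3,0),(2,0),(0,1),(5,2),(6,0),(11,2),(9,2)]⟩⟩,⟨false,1,⟨0,[(6,0),(26,0),(14,
  0)]⟩,⟨0,[(0,0),(12,0)]⟩⟩,⟨false,0,⟨0,[]⟩,⟨0,[]⟩⟩,⟨false,0,⟨0,[]⟩,⟨0,[]⟩⟩,[.o ⟨false,1,⟨0,[(27,
  0)]⟩,⟨0,[(0,0)]⟩⟩,.e ⟨false,1,⟨1,[(49,0),(0,0)]⟩,⟨0,[(52,0)]⟩⟩ ⟨false,1,⟨0,[(6,0),(12,0),(1,0),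
  (26,0)]⟩,⟨0,[(0,0),(17,0),(13,0)]⟩⟩,.a ⟨true,0,⟨0,[(34,0)]⟩,⟨0,[(31,0)]⟩⟩ ⟨true,0,⟨0,[]⟩,⟨0,[(52,
  0)]⟩⟩ ⟨false,1,⟨2,[(6,1),(12,1),(1,0),(5,0),(3,0),(16,0)]⟩,⟨0,[(0,0),(33,0)]⟩⟩,.e ⟨false,1,⟨1,
  [(49,0),(0,0)]⟩,⟨1,[(34,0),(0,0)]⟩⟩ ⟨false,1,⟨0,[(6,0),(12,0),(1,0),(26,0)]⟩,⟨1,[(0,1),(33,2),(0,
  0)]⟩⟩]⟩)))) (.Q [0,0,1,0,0,0,0,0,-1,0,0,-1] (.p false [0,0,0,0,1] [] (⟨0,[(27,0)]⟩,⟨0,[(26,0)]⟩)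
  .k 0 (⟨0,[]⟩,⟨0,[]⟩) .k .k) (.R ⟨0,false,false,false,[1,0,0,0,-1],[0,1],[1,0,1,1],(⟨0,[(27,0)]⟩,
  ⟨0,[(28,0)]⟩),(⟨0,[(39,0)]⟩,⟨0,[(38,0)]⟩),⟨0,[(1,0)]⟩,.k,.k,(.r (-1) ⟨15,[(5,1),(14,9),(0,2),(0,
  0),(3,1),(16,1),(4,1)]⟩ ⟨1,[(16,0),(13,0),(2,0),(12,1),(3,0)]⟩),(.r (-1) ⟨15,[(5,1),(14,9),(0,2),
  (0,0),(3,1),(16,1),(4,1)]⟩ ⟨1,[(16,0),(13,0),(2,0),(12,1),(3,0)]⟩),.k,.k,⟨true,0,⟨0,[]⟩,⟨1,[(32,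
  0),(0,0)]⟩⟩,⟨false,1,⟨0,[(8,0),(8,0),(8,0)]⟩,⟨10,[(0,6),(3,1),(0,1),(16,0),(19,3),(7,5)]⟩⟩,⟨false,
  0,⟨1,[(32,0),(0,0),(12,1)]⟩,⟨15,[(5,1),(14,9),(0,2),(0,0),(3,1),(16,1),(4,1)]⟩⟩,⟨true,0,⟨0,[(2,0),
  (7,0),(35,1)]⟩,⟨81,[(0,64),(3,16),(14,31),(1,24),(14,5),(1,5),(1,0),(1,16)]⟩⟩,⟨false,0,⟨0,[]⟩,⟨0,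
  []⟩⟩,⟨false,0,⟨0,[]⟩,⟨0,[]⟩⟩,[.e ⟨false,0,⟨0,[(46,0)]⟩,⟨3,[(21,1),(3,0),(0,0),(16,0),(3,1)]⟩⟩
  ⟨false,1,⟨1,[(26,1),(16,0),(2,1),(0,0)]⟩,⟨81,[(0,64),(3,16),(14,31),(1,24),(14,5),(1,5),(1,0),(1,
  16)]⟩⟩,.o ⟨false,1,⟨1,[(43,0),(2,1),(1,0)]⟩,⟨0,[(45,0)]⟩⟩,.a ⟨true,0,⟨38,[(0,26),(3,11),(14,9),
  (16,2),(1,2),(1,6),(1,11),(3,9)]⟩,⟨0,[(26,0)]⟩⟩ ⟨true,0,⟨1,[(32,0),(0,0),(12,1)]⟩,⟨0,[(44,0)]⟩⟩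
  ⟨false,1,⟨0,[(2,0),(9,0)]⟩,⟨81,[(0,64),(3,16),(14,31),(1,24),(14,5),(1,5),(1,0),(1,16)]⟩⟩,.o
  ⟨false,0,⟨0,[(0,0)]⟩,⟨1,[(26,1),(16,0),(3,0)]⟩⟩]⟩) (.I [0,-2,0,-1,1] (.Q [0,-1,0,0,0,0,-1,-1,-1,2,
  -1,-1] (.p false [-1,0,1,0,1] [1] (⟨0,[(2,0),(22,0)]⟩,⟨0,[(28,0),(6,0)]⟩) .k 1 (⟨0,[]⟩,⟨0,[]⟩) .k
  (.r 0 ⟨1,[(11,0),(11,0),(7,0),(15,0)]⟩ ⟨4,[(3,2),(1,1),(0,0),(2,1),(7,1)]⟩)) (.R ⟨0,false,false,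
  false,[-1,1,0,0,1],[1,1,-1],[0,0,1],(⟨0,[(3,0)]⟩,⟨0,[(29,0),(10,0)]⟩),(⟨19,[(0,2),(27,2),(3,2),(3,
  19),(1,1),(4,5)]⟩,⟨0,[(26,0)]⟩),⟨0,[(29,0)]⟩,(.r 0 ⟨1,[(18,0),(13,0),(2,0),(12,1),(3,0)]⟩ ⟨9,[(1,
  3),(20,1),(0,1),(21,0),(3,2)]⟩),.k,.k,.k,.k,.k,⟨true,0,⟨0,[(13,0),(5,0)]⟩,⟨0,[(18,0),(29,0)]⟩⟩,
  ⟨false,0,⟨0,[(0,0),(15,0),(31,0)]⟩,⟨0,[(2,0),(31,0),(10,0)]⟩⟩,⟨false,1,⟨0,[(1,0)]⟩,⟨0,[(48,0),(3,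
  0)]⟩⟩,⟨true,0,⟨0,[(0,0)]⟩,⟨0,[(4,0),(7,1),(35,1)]⟩⟩,⟨false,0,⟨0,[]⟩,⟨0,[]⟩⟩,⟨false,0,⟨0,[]⟩,⟨0,
  []⟩⟩,[.a ⟨true,0,⟨22,[(0,8),(3,10),(2,1),(16,0),(8,2),(8,3),(1,1),(3,22)]⟩,⟨0,[(13,0)]⟩⟩ ⟨true,0,
  ⟨1,[(34,0),(0,0)]⟩,⟨0,[]⟩⟩ ⟨false,0,⟨6,[(0,5),(6,0),(25,0),(1,0),(6,2),(1,0),(3,6)]⟩,⟨5,[(1,1),(0,
  5),(9,4),(1,0),(30,2)]⟩⟩,.o ⟨false,1,⟨0,[(33,0),(14,0),(1,0)]⟩,⟨0,[(12,0)]⟩⟩,.o ⟨false,1,⟨0,[(2,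
  0),(42,0)]⟩,⟨4,[(0,3),(6,0),(4,4),(5,0),(16,1),(8,0),(3,4)]⟩⟩,.o ⟨false,1,⟨0,[(28,0),(16,0)]⟩,⟨0,
  [(0,0),(11,0),(35,0)]⟩⟩]⟩) (.Q [0,0,0,0,0,0,0,0,1,-1,0,1] (.p true [0,0,0,0,1] [1] (⟨0,[(30,0)]⟩,
  ⟨0,[(29,0)]⟩) .k 1 (⟨0,[]⟩,⟨0,[]⟩) .k .k) (.R ⟨0,false,false,true,[0,-1,1],[1,0,0,0,-1],[1],(⟨0,
  [(27,0)]⟩,⟨175,[(8,11),(16,5),(3,11),(7,175),(1,31),(3,5),(0,47),(0,20),(4,8)]⟩),(⟨0,[(30,0)]⟩,⟨0,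
  [(31,0)]⟩),⟨2,[(10,0),(15,1),(12,0),(4,2)]⟩,.k,.k,(.r (-1) ⟨11,[(16,1),(0,3),(0,5),(4,9),(0,0),(0,
  2),(20,1)]⟩ ⟨1,[(19,1),(15,0),(0,0),(12,3)]⟩),(.r 0 ⟨1,[(6,0),(3,0),(2,0),(0,1),(5,2),(6,0),(11,
  2),(9,2)]⟩ ⟨4,[(5,3),(1,0),(0,2),(2,0),(7,0),(29,4)]⟩),.k,.k,⟨true,0,⟨0,[]⟩,⟨1,[(35,0),(0,0)]⟩⟩,
  ⟨false,1,⟨2,[(7,0),(12,0),(1,1),(5,1),(3,1),(16,1)]⟩,⟨0,[(0,0),(34,0)]⟩⟩,⟨true,0,⟨0,[(19,0),(29,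
  0)]⟩,⟨1,[(6,0),(3,0),(2,0),(0,1),(5,2),(6,0),(11,2),(9,2)]⟩⟩,⟨false,1,⟨0,[(7,0),(26,0),(14,0)]⟩,
  ⟨0,[(0,0),(13,0)]⟩⟩,⟨false,0,⟨0,[]⟩,⟨0,[]⟩⟩,⟨false,0,⟨0,[]⟩,⟨0,[]⟩⟩,[.o ⟨false,1,⟨0,[(28,0)]⟩,⟨0,
  [(0,0)]⟩⟩,.e ⟨false,1,⟨1,[(50,0),(0,0)]⟩,⟨0,[(53,0)]⟩⟩ ⟨false,1,⟨0,[(7,0),(12,0),(1,0),(26,0)]⟩,
  ⟨1,[(1,0),(17,1),(9,0),(3,0)]⟩⟩,.a ⟨true,0,⟨0,[(35,0)]⟩,⟨0,[(32,0)]⟩⟩ ⟨true,0,⟨0,[]⟩,⟨0,[(53,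
  0)]⟩⟩ ⟨false,1,⟨2,[(7,1),(12,1),(1,0),(5,0),(3,0),(16,0)]⟩,⟨0,[(0,0),(34,0)]⟩⟩,.e ⟨false,1,⟨1,
  [(50,0),(0,0)]⟩,⟨1,[(35,0),(0,0)]⟩⟩ ⟨false,1,⟨0,[(7,0),(12,0),(1,0),(26,0)]⟩,⟨1,[(0,1),(34,2),(0,
  0)]⟩⟩]⟩) (.Q [0,0,1,0,0,0,0,0,1,-1,0,1] (.p true [0,0,0,0,1] [1] (⟨0,[(31,0)]⟩,⟨0,[(30,0)]⟩) .k 1
  (⟨0,[]⟩,⟨0,[]⟩) .k .k) (.S ⟨1,0,[0,1],[0,0,0,0,1],[1,2,0,-1],(⟨0,[(32,0)]⟩,⟨0,[(31,0)]⟩),⟨1,[(5,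
  0),(5,0),(16,0),(3,0)]⟩,.k,(.r 0 ⟨0,[(48,0)]⟩ ⟨17,[(6,5),(1,0),(0,9),(6,5),(9,4),(3,4),(19,11),(0,
  0)]⟩),⟨true,0,⟨0,[(49,0)]⟩,⟨0,[(50,0)]⟩⟩,⟨false,1,⟨1,[(29,0),(0,0),(21,0)]⟩,⟨0,[]⟩⟩,⟨false,0,⟨0,
  []⟩,⟨1,[(29,0),(0,0),(21,0)]⟩⟩,⟨true,0,⟨0,[(50,0)]⟩,⟨0,[(49,0)]⟩⟩,[.o ⟨false,0,⟨2,[(0,0),(1,0),(3,
  0),(37,0)]⟩,⟨1,[(1,0),(6,0),(38,0)]⟩⟩,.e ⟨false,0,⟨4,[(22,1),(21,0),(4,0)]⟩,⟨8,[(6,2),(1,1),(0,1),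
  (6,2),(9,0),(3,0),(19,5),(0,1)]⟩⟩ ⟨false,1,⟨1,[(29,0),(0,0),(20,0)]⟩,⟨0,[]⟩⟩,.a ⟨true,0,⟨0,[(30,
  0)]⟩,⟨0,[(1,0)]⟩⟩ ⟨false,0,⟨0,[(49,0)]⟩,⟨0,[(50,0),(1,0)]⟩⟩ ⟨true,0,⟨0,[(54,0)]⟩,⟨0,[]⟩⟩,.o
  ⟨false,0,⟨0,[(0,0)]⟩,⟨2,[(1,1),(10,0),(16,0),(3,0),(13,0)]⟩⟩]⟩) (.I [0,0,0,0,0,-1,-1] (.I [0,0,0,
  -1,0,0,0,1] (.I [0,0,-1,0,0,1,0,0,-1] (.I [1,0,0,-1,0,1,1,1] (.I [0,1,-1,0,0,-2,1,1] (.C [(0,0),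
  (3,1),(0,0),(1,0),(0,0),(7,0),(8,1),(24,1),(0,0),(3,0)]) (.C [(0,0),(4,0),(1,0),(8,0)])) (.C [(0,
  0),(14,0),(3,0),(29,0)])) (.C [(0,0),(2,0),(4,0)])) (.C [(0,0),(16,0),(5,0)])) (.C [(0,0),(21,0),
  (6,0)]))))) (.Q [0,0,0,0,0,0,0,0,-1,1,0,-1] (.p false [0,0,0,0,1] [1] (⟨0,[(29,0)]⟩,⟨0,[(28,0)]⟩)
  .k 1 (⟨0,[]⟩,⟨0,[]⟩) .k .k) (.R ⟨0,false,false,false,[-1,1,0,0,1],[0,0,0,0,1],[1,1],(⟨0,[(3,0)]⟩,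
  ⟨0,[(29,0),(10,0)]⟩),(⟨0,[(30,0)]⟩,⟨0,[(29,0)]⟩),⟨0,[(29,0)]⟩,(.r 0 ⟨6,[(1,2),(5,2),(20,2),(6,2),
  (6,1),(5,3)]⟩ ⟨15,[(7,1),(14,9),(0,2),(0,0),(3,1),(16,1),(4,1)]⟩),.k,.k,.k,.k,.k,⟨true,0,⟨0,[]⟩,
  ⟨1,[(34,0),(0,0)]⟩⟩,⟨false,0,⟨52,[(6,8),(0,5),(16,2),(3,14),(9,10),(1,10),(1,11),(1,14)]⟩,⟨1,[(45,
  0),(3,0)]⟩⟩,⟨false,1,⟨15,[(7,1),(14,9),(0,2),(0,0),(3,1),(16,1),(4,1)]⟩,⟨1,[(34,0),(0,0),(12,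
  1)]⟩⟩,⟨true,0,⟨105,[(6,8),(0,5),(15,52),(0,2),(3,14),(9,10),(1,10),(1,11),(1,14)]⟩,⟨1,[(1,0),(43,
  0),(2,0)]⟩⟩,⟨false,0,⟨0,[]⟩,⟨0,[]⟩⟩,⟨false,0,⟨0,[]⟩,⟨0,[]⟩⟩,[.o ⟨false,0,⟨2,[(1,0),(2,0),(7,0),
  (15,1),(16,0)]⟩,⟨1,[(0,0),(5,0),(38,0)]⟩⟩,.a ⟨true,0,⟨0,[(28,0)]⟩,⟨0,[(0,0)]⟩⟩ ⟨true,0,⟨0,[]⟩,⟨1,
  [(34,0),(0,0)]⟩⟩ ⟨false,0,⟨52,[(6,8),(0,5),(16,2),(3,14),(9,10),(1,10),(1,11),(1,14)]⟩,⟨1,[(45,0),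
  (3,0)]⟩⟩,.o ⟨false,1,⟨0,[(2,0),(42,0)]⟩,⟨13,[(0,10),(0,0),(5,2),(4,0),(5,0),(16,3),(8,1),(6,2)]⟩⟩,
  .o ⟨false,1,⟨0,[(28,0),(16,0)]⟩,⟨0,[(0,0)]⟩⟩]⟩) (.K ⟨0,[1,0,1,0,-1],0,0,(⟨0,[(29,0),(7,0)]⟩,⟨0,
  [(3,0),(21,0)]⟩),.k,(.r (-1) ⟨3,[(14,0),(0,1),(1,0),(4,1),(1,0),(25,0)]⟩ ⟨2,[(1,0),(2,0),(2,0),
  (10,1),(23,0),(5,1)]⟩),(.r (-1) ⟨12,[(7,3),(6,10),(9,6),(3,3),(3,1),(2,2),(8,1),(3,1),(2,1)]⟩ ⟨4,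
  [(5,1),(2,0),(9,1),(23,0)]⟩),.k,.k,[⟨0,[(0,0)]⟩,⟨0,[(1,0),(4,0),(6,0),(4,0)]⟩,⟨0,[(0,0),(32,0),
  (18,0)]⟩,⟨0,[(1,0),(4,0),(6,0)]⟩]⟩)))))))

theorem ok21 : chk K t21 l22 = true := by decide +kernel

noncomputable def t22 : Tre :=
  (.Q [0,-1,-2,0,1,0,-1,0,-1,1,-1,-1] (.p false [0,0,1] [1,0,0,0,-1] (⟨0,[(31,0)]⟩,⟨0,[(30,0)]⟩) .k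
  2 (⟨0,[(23,0)]⟩,⟨0,[(24,0)]⟩) .k (.r 0 ⟨1,[(6,0),(11,0),(7,0),(15,0)]⟩ ⟨1,[(12,1),(30,0),(0,
  0)]⟩)) (.R ⟨0,false,false,true,[0,-1,1],[1,0,0,0,-1],[1],(⟨0,[(21,0)]⟩,⟨175,[(2,11),(16,5),(3,11),
  (7,175),(1,31),(3,5),(0,47),(0,20),(4,8)]⟩),(⟨0,[(24,0)]⟩,⟨0,[(25,0)]⟩),⟨2,[(4,0),(15,1),(12,0),
  (4,2)]⟩,.k,.k,(.r (-1) ⟨11,[(10,1),(0,3),(0,5),(4,9),(0,0),(0,2),(20,1)]⟩ ⟨1,[(13,1),(15,0),(0,0),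
  (12,3)]⟩),(.r 0 ⟨1,[(3,0),(0,0),(2,0),(0,1),(5,2),(6,0),(11,2),(9,1)]⟩ ⟨5,[(2,1),(10,3),(9,1),(4,
  1),(14,5),(0,0),(0,2)]⟩),.k,.k,⟨true,0,⟨0,[]⟩,⟨1,[(29,0),(0,0)]⟩⟩,⟨false,1,⟨7,[(0,6),(1,0),(16,0),
  (17,3)]⟩,⟨0,[(1,0),(27,0),(15,0)]⟩⟩,⟨true,0,⟨0,[(13,0),(29,0)]⟩,⟨1,[(3,0),(0,0),(2,0),(0,1),(5,2),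
  (6,0),(11,2),(9,1)]⟩⟩,⟨false,1,⟨3,[(0,2),(1,0),(10,3),(5,0),(23,3)]⟩,⟨0,[(1,0),(6,0),(36,0)]⟩⟩,
  ⟨false,0,⟨0,[]⟩,⟨0,[]⟩⟩,⟨false,0,⟨0,[]⟩,⟨0,[]⟩⟩,[.o ⟨false,1,⟨0,[(22,0)]⟩,⟨0,[(1,0),(43,0)]⟩⟩,.e
  ⟨false,1,⟨1,[(44,0),(0,0)]⟩,⟨0,[(47,0)]⟩⟩ ⟨false,1,⟨0,[(0,0)]⟩,⟨4,[(1,3),(0,2),(3,0),(16,3)]⟩⟩,.a
  ⟨true,0,⟨0,[(29,0)]⟩,⟨0,[(26,0)]⟩⟩ ⟨true,0,⟨0,[]⟩,⟨0,[(47,0)]⟩⟩ ⟨false,1,⟨3,[(0,2),(1,0),(16,0)]⟩,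
  ⟨0,[(1,0),(27,0),(15,0)]⟩⟩,.e ⟨false,1,⟨1,[(44,0),(0,0)]⟩,⟨1,[(29,0),(0,0)]⟩⟩ ⟨false,1,⟨0,[(0,
  0)]⟩,⟨1,[(1,1),(27,2),(0,0),(14,1)]⟩⟩]⟩) (.Q [0,0,-1,0,1,0,1,0,-1,0,1,-1] (.p true [0,0,1] [0,0,0,
  0,1] (⟨0,[(32,0)]⟩,⟨0,[(31,0)]⟩) .k 2 (⟨0,[(25,0)]⟩,⟨0,[(24,0)]⟩) .k (.r (-1) ⟨1,[(9,0),(2,0),(6,
  0),(25,0)]⟩ ⟨4,[(3,0),(9,3),(23,1),(5,0)]⟩)) (.Q [0,-1,-1,0,1,0,-1,0,-1,1,-1,-1] (.p false [0,0,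
  1] [1,0,0,0,-1] (⟨0,[(33,0)]⟩,⟨0,[(32,0)]⟩) .k 2 (⟨0,[(25,0)]⟩,⟨0,[(26,0)]⟩) .k (.r 0 ⟨1,[(8,0),
  (11,0),(7,0),(15,0)]⟩ ⟨1,[(14,1),(30,0),(0,0)]⟩)) (.R ⟨0,false,false,true,[0,-1,1],[1,0,0,0,-1],
  [1],(⟨0,[(23,0)]⟩,⟨54,[(0,2),(3,2),(20,5),(7,54),(1,9),(3,2),(0,14),(0,5)]⟩),(⟨0,[(26,0)]⟩,⟨0,
  [(27,0)]⟩),⟨2,[(6,0),(15,1),(12,0),(4,2)]⟩,.k,.k,(.r (-1) ⟨11,[(12,1),(0,3),(0,5),(4,9),(0,0),(0,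
  2),(20,1)]⟩ ⟨3,[(2,0),(1,0),(10,3),(5,0),(23,7)]⟩),(.r 0 ⟨1,[(5,0),(0,0),(2,0),(0,1),(5,2),(6,0),
  (11,2),(9,1)]⟩ ⟨5,[(4,1),(10,3),(9,1),(4,1),(14,5),(0,0),(0,2)]⟩),.k,.k,⟨true,0,⟨0,[]⟩,⟨3,[(2,0),
  (1,0),(16,0)]⟩⟩,⟨false,1,⟨2,[(0,2),(17,0),(20,0),(5,0)]⟩,⟨9,[(2,5),(5,1),(16,3),(16,0),(4,2)]⟩⟩,
  ⟨true,0,⟨0,[(15,0),(29,0)]⟩,⟨1,[(5,0),(0,0),(2,0),(0,1),(5,2),(6,0),(11,2),(9,1)]⟩⟩,⟨false,1,⟨0,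
  [(0,0),(14,0),(29,0)]⟩,⟨5,[(2,3),(0,1),(7,1),(0,3),(6,3),(21,0),(5,0)]⟩⟩,⟨false,0,⟨0,[]⟩,⟨0,[]⟩⟩,
  ⟨false,0,⟨0,[]⟩,⟨0,[]⟩⟩,[.o ⟨false,1,⟨0,[(24,0)]⟩,⟨0,[(3,0),(43,0)]⟩⟩,.a ⟨true,1,⟨31,[(0,15),(0,
  1),(2,13),(30,3),(1,3),(3,5),(4,4),(0,0)]⟩,⟨1,[(2,0),(0,0),(12,0),(1,0),(22,0),(3,0),(1,0)]⟩⟩
  ⟨false,1,⟨1,[(46,0),(0,0)]⟩,⟨7,[(2,0),(1,0),(16,0),(17,3)]⟩⟩ ⟨true,1,⟨0,[(0,0)]⟩,⟨0,[(2,0)]⟩⟩,.a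
  ⟨true,0,⟨0,[(31,0)]⟩,⟨0,[(28,0)]⟩⟩ ⟨true,0,⟨0,[]⟩,⟨7,[(2,0),(1,0),(16,0),(17,3)]⟩⟩ ⟨false,1,⟨0,
  [(0,0)]⟩,⟨9,[(2,5),(5,1),(16,3),(16,0),(4,2)]⟩⟩,.a ⟨true,0,⟨16,[(2,6),(1,9),(20,2),(9,0),(1,0),(3,
  2),(7,2)]⟩,⟨1,[(16,1),(1,0),(0,0),(21,0),(3,1)]⟩⟩ ⟨false,1,⟨1,[(46,0),(0,0)]⟩,⟨3,[(2,0),(1,0),(16,
  0)]⟩⟩ ⟨true,1,⟨2,[(0,2),(17,0),(20,0),(5,0)]⟩,⟨0,[(2,0)]⟩⟩]⟩) (.I [0,0,0,0,0,-1,-1] (.I [0,0,0,-1,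
  0,0,0,1] (.I [0,0,-1,0,1,0,0,0,-1] (.I [1,0,0,-1,0,1,1,1] (.I [0,1,1,0,-1,0,0,0,1] (.I [0,-1,2,0,
  1,0,0,0,-1] (.I [5,0,0,0,-1,6] (.I [0,1,0,0,0,-2,1] (.C [(0,0),(0,0),(5,2),(0,0),(0,0),(4,1),(33,
  0),(6,0)]) (.C [(0,0),(7,0),(0,0),(4,0),(9,0)])) (.C [(0,0),(46,1),(0,0)])) (.C [(0,0),(9,0),(11,
  0),(10,0)])) (.C [(0,0),(4,0),(15,0),(9,0)])) (.C [(0,0),(9,0),(3,0),(29,0)])) (.C [(0,0),(3,0),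
  (14,0),(10,0)])) (.C [(0,0),(11,0),(5,0)])) (.C [(0,0),(16,0),(6,0)]))) (.R ⟨0,false,false,false,
  [0,-1,1],[0,0,0,0,1],[1,1],(⟨0,[(22,0)]⟩,⟨175,[(3,11),(16,5),(3,11),(7,175),(1,31),(3,5),(0,47),
  (0,20),(4,8)]⟩),(⟨0,[(26,0)]⟩,⟨0,[(25,0)]⟩),⟨2,[(5,0),(15,1),(12,0),(4,2)]⟩,.k,.k,(.r (-1) ⟨11,
  [(11,1),(0,3),(0,5),(4,9),(0,0),(0,2),(20,1)]⟩ ⟨3,[(1,0),(1,0),(10,3),(5,0),(23,7)]⟩),(.r (-1) ⟨3,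
  [(10,0),(0,1),(1,0),(4,1),(1,0),(25,0)]⟩ ⟨13,[(1,1),(1,2),(10,8),(9,0),(4,4),(8,4),(1,0),(3,
  13)]⟩),.k,.k,⟨true,0,⟨0,[]⟩,⟨3,[(1,0),(1,0),(16,0)]⟩⟩,⟨false,0,⟨0,[(0,0),(5,0),(20,0)]⟩,⟨12,[(3,
  9),(0,0),(2,0),(0,0),(14,2),(14,3),(1,0),(3,1)]⟩⟩,⟨false,0,⟨0,[(14,0),(29,0)]⟩,⟨3,[(10,0),(0,1),
  (1,0),(4,1),(1,0),(25,0)]⟩⟩,⟨true,(-1),⟨14,[(0,11),(1,1),(1,7),(9,3),(9,0),(4,2),(10,0),(3,22)]⟩,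
  ⟨0,[(9,0),(13,0)]⟩⟩,⟨false,0,⟨0,[]⟩,⟨0,[]⟩⟩,⟨false,0,⟨0,[]⟩,⟨0,[]⟩⟩,[.a ⟨true,(-1),⟨6,[(0,1),(0,
  1),(0,1),(14,1),(0,0),(5,0),(15,1),(3,2)]⟩,⟨1,[(3,0),(11,0),(1,0),(5,0),(16,0),(3,0),(1,0)]⟩⟩
  ⟨false,0,⟨2,[(17,0),(20,0),(5,0)]⟩,⟨1,[(23,0),(0,0),(21,0)]⟩⟩ ⟨true,(-1),⟨0,[(0,0),(16,0),(26,
  0)]⟩,⟨0,[(3,0)]⟩⟩,.o ⟨false,0,⟨13,[(0,7),(0,1),(4,5),(17,3),(16,2),(4,0)]⟩,⟨0,[(23,0)]⟩⟩,.a ⟨true,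
  0,⟨0,[(30,0)]⟩,⟨0,[(27,0)]⟩⟩ ⟨false,0,⟨0,[]⟩,⟨1,[(23,0),(0,0),(21,0)]⟩⟩ ⟨true,(-1),⟨0,[(0,0),(16,
  0),(26,0)]⟩,⟨12,[(3,9),(0,0),(2,0),(0,0),(14,2),(14,3),(1,0),(3,1)]⟩⟩,.a ⟨true,0,⟨16,[(1,6),(1,9),
  (20,2),(9,0),(1,0),(3,2),(7,2)]⟩,⟨1,[(15,1),(1,0),(0,0),(21,0),(3,1)]⟩⟩ ⟨true,0,⟨2,[(17,0),(20,0),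
  (5,0)]⟩,⟨3,[(1,0),(1,0),(16,0)]⟩⟩ ⟨false,0,⟨0,[(0,0),(5,0),(20,0)]⟩,⟨0,[(3,0)]⟩⟩]⟩)))

theorem ok22 : chk K t22 r22 = true := by decide +kernel

noncomputable def t27 : Tre :=
  (.K ⟨0,[1,-1,-1],(-1),0,(⟨0,[(15,0)]⟩,⟨22,[(17,2),(0,2),(8,22),(0,4),(4,5),(0,2)]⟩),.k,(.r (-1)
  ⟨4,[(1,0),(6,2),(1,1),(1,3),(0,0),(9,1)]⟩ ⟨4,[(0,2),(3,2),(3,0),(13,2),(2,2),(12,6)]⟩),.k,(.r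
  (-1) ⟨5,[(1,1),(6,7),(2,0),(0,4),(10,3),(10,0)]⟩ ⟨0,[(0,0),(3,0),(1,0),(31,0)]⟩),.k,[⟨0,[(1,0)]⟩,
  ⟨0,[(0,0)]⟩,⟨0,[(2,0),(35,1)]⟩,⟨7,[(8,3),(4,3),(0,1),(8,3),(8,1),(1,0),(4,0)]⟩]⟩)

theorem ok27 : chk K t27 r18 = true := by decide +kernel

noncomputable def t30 : Tre :=
  (.S ⟨1,0,[0,0,1,1,0,0,0,-1],[1,1,-1],[1,1,1,0,0,0,0,-1],(⟨9,[(0,1),(10,0),(8,1),(3,9),(1,0),(4,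
  2)]⟩,⟨0,[(14,0)]⟩),⟨0,[(24,0)]⟩,.k,.k,⟨true,0,⟨0,[(35,0)]⟩,⟨0,[(36,0)]⟩⟩,⟨false,1,⟨1,[(15,0),(0,
  0),(21,0)]⟩,⟨0,[]⟩⟩,⟨false,0,⟨0,[]⟩,⟨1,[(15,0),(0,0),(21,0)]⟩⟩,⟨true,0,⟨0,[(36,0)]⟩,⟨0,[(35,0)]⟩⟩,
  [.a ⟨true,0,⟨0,[(0,0),(39,0)]⟩,⟨0,[(1,0)]⟩⟩ ⟨false,0,⟨2,[(6,2),(2,0),(20,0),(5,0)]⟩,⟨6,[(2,3),(0,
  1),(6,1),(1,0),(6,2),(0,0),(17,0)]⟩⟩ ⟨true,0,⟨0,[(6,0),(29,0)]⟩,⟨0,[(3,0)]⟩⟩,.a ⟨true,0,⟨0,[(0,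
  0)]⟩,⟨0,[(5,0)]⟩⟩ ⟨true,0,⟨0,[(6,0)]⟩,⟨0,[(3,0),(32,0)]⟩⟩ ⟨false,1,⟨1,[(0,0),(1,0),(3,1),(30,0)]⟩,
  ⟨0,[(4,0)]⟩⟩,.a ⟨true,0,⟨0,[(19,0)]⟩,⟨0,[(22,0)]⟩⟩ ⟨false,0,⟨0,[(6,0)]⟩,⟨6,[(2,3),(0,1),(6,1),(1,
  0),(6,2),(0,0),(17,0)]⟩⟩ ⟨true,0,⟨0,[(6,0),(29,0)]⟩,⟨0,[(4,0)]⟩⟩,.o ⟨false,0,⟨0,[(7,0)]⟩,⟨1,[(22,
  1),(10,0),(3,0)]⟩⟩]⟩)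

theorem ok30 : chk K t30 r16 = true := by decide +kernel

noncomputable def t33 : Tre :=
  (.I [0,0,1,1,0,0,0,-2] (.Q [0,0,0,0,0,2,0,0,0,0,-1] (.p false [0,0,1] [] (⟨0,[(26,0)]⟩,⟨0,[(25,
  0)]⟩) .k 0 (⟨0,[]⟩,⟨0,[]⟩) .k .k) (.R ⟨0,false,false,true,[0,-1,1],[1,0,-1],[1,1],(⟨0,[(16,0)]⟩,
  ⟨4,[(0,1),(16,0),(0,0),(7,2),(1,0),(5,0)]⟩),(⟨0,[(26,0)]⟩,⟨0,[(27,0)]⟩),⟨0,[(0,0)]⟩,.k,.k,(.r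
  (-1) ⟨11,[(5,1),(0,3),(0,5),(4,9),(0,0),(0,2),(20,1)]⟩ ⟨3,[(1,1),(22,2),(0,2),(12,5)]⟩),(.r (-1)
  ⟨5,[(5,7),(8,1),(7,3),(12,0),(2,1),(0,2),(0,1)]⟩ ⟨0,[(1,0)]⟩),.k,.k,⟨true,0,⟨0,[(5,0),(32,0)]⟩,⟨1,
  [(4,1),(19,1),(10,0),(2,1),(1,0)]⟩⟩,⟨false,0,⟨1,[(2,0),(2,0),(3,0),(2,0),(8,0),(16,1)]⟩,⟨1,[(24,
  3),(10,0),(3,0)]⟩⟩,⟨false,0,⟨3,[(1,1),(22,0),(0,0),(12,1)]⟩,⟨1,[(5,1),(33,0),(0,0)]⟩⟩,⟨true,(-1),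
  ⟨3,[(1,1),(0,3),(21,0),(0,0),(12,1)]⟩,⟨15,[(3,5),(1,29),(10,5),(5,1),(1,23),(8,9),(1,2),(2,13),(1,
  0)]⟩⟩,⟨false,0,⟨0,[]⟩,⟨0,[]⟩⟩,⟨false,0,⟨0,[]⟩,⟨0,[]⟩⟩,[.a ⟨true,(-1),⟨0,[(2,0),(21,0)]⟩,⟨0,[(22,
  0),(17,0)]⟩⟩ ⟨false,0,⟨2,[(11,0),(20,0),(5,0)]⟩,⟨1,[(17,0),(0,0),(21,0)]⟩⟩ ⟨true,(-1),⟨0,[(2,0)]⟩,
  ⟨1,[(5,1),(18,3),(10,0),(2,1),(1,0)]⟩⟩,.o ⟨false,0,⟨17,[(1,3),(0,5),(1,3),(20,1),(9,4),(4,4)]⟩,⟨1,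
  [(22,1),(12,0),(4,0)]⟩⟩,.a ⟨true,0,⟨0,[(24,0)]⟩,⟨0,[(21,0)]⟩⟩ ⟨false,0,⟨0,[]⟩,⟨1,[(17,0),(0,0),
  (21,0)]⟩⟩ ⟨true,(-1),⟨0,[(2,0)]⟩,⟨1,[(22,1),(1,1),(10,0),(4,0)]⟩⟩,.a ⟨true,0,⟨1,[(24,2),(0,0)]⟩,
  ⟨4,[(2,1),(2,0),(0,0),(5,2),(8,0),(12,0),(3,4)]⟩⟩ ⟨true,0,⟨2,[(11,0),(20,0),(5,0)]⟩,⟨1,[(24,0),(0,
  0)]⟩⟩ ⟨false,0,⟨1,[(2,1),(36,0),(0,0)]⟩,⟨1,[(5,1),(18,3),(10,0),(2,1),(1,0)]⟩⟩]⟩) (.Q [0,0,2,0,-1,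
  0,-1,0,0,1,-1] (.p false [0,0,1] [1] (⟨0,[(27,0)]⟩,⟨0,[(26,0)]⟩) .k 1 (⟨0,[]⟩,⟨0,[]⟩) .k .k) (.R
  ⟨0,false,false,true,[1,-1,-1],[1,-1],[0,1,0,-1],(⟨0,[(16,0)]⟩,⟨22,[(18,2),(0,2),(8,22),(0,4),(4,
  5),(0,2)]⟩),(⟨0,[(31,0)]⟩,⟨0,[(32,0)]⟩),⟨2,[(1,1),(26,0),(0,0),(4,2)]⟩,.k,.k,(.r (-1) ⟨11,[(2,5),
  (8,3),(1,10),(0,1),(21,0),(1,6)]⟩ ⟨1,[(0,1),(22,1),(12,0),(2,3),(1,0)]⟩),.k,.k,.k,⟨true,0,⟨1,[(25,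
  0),(0,0)]⟩,⟨0,[]⟩⟩,⟨false,1,⟨0,[(25,0),(14,0)]⟩,⟨0,[(10,0)]⟩⟩,⟨false,0,⟨3,[(0,1),(5,1),(16,1),(12,
  0),(2,1),(1,0)]⟩,⟨3,[(2,1),(10,1),(26,0),(0,0)]⟩⟩,⟨true,0,⟨0,[(23,0)]⟩,⟨17,[(2,3),(0,5),(1,3),(20,
  1),(9,4),(4,4)]⟩⟩,⟨false,0,⟨0,[]⟩,⟨0,[]⟩⟩,⟨false,0,⟨0,[]⟩,⟨0,[]⟩⟩,[.o ⟨false,0,⟨0,[(38,0)]⟩,⟨1,
  [(36,0),(2,1),(1,0)]⟩⟩,.e ⟨false,1,⟨3,[(14,1),(3,0),(0,0),(16,0),(3,1)]⟩,⟨0,[(39,0)]⟩⟩ ⟨false,1,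
  ⟨2,[(2,0),(9,0),(0,2),(9,1),(1,0)]⟩,⟨0,[(26,0),(12,0)]⟩⟩,.o ⟨false,0,⟨0,[(26,0)]⟩,⟨9,[(1,0),(2,3),
  (20,5),(2,2),(5,5),(1,1)]⟩⟩,.a ⟨true,(-1),⟨0,[(0,0)]⟩,⟨10,[(4,4),(20,5),(2,4),(0,1),(4,5),(0,2),
  (4,3)]⟩⟩ ⟨true,0,⟨0,[(37,0)]⟩,⟨1,[(25,0),(0,0),(12,1)]⟩⟩ ⟨false,1,⟨2,[(2,0),(9,0),(0,2),(9,1),(1,
  0)]⟩,⟨1,[(0,1),(35,0),(2,1),(1,0)]⟩⟩]⟩) (.Q [0,0,2,0,-1,0,-2,0,0,1,-2] (.p false [0,0,1] [1,0,-1]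
  (⟨0,[(28,0)]⟩,⟨0,[(27,0)]⟩) .k 2 (⟨0,[(27,0)]⟩,⟨0,[(28,0)]⟩) .k (.r 0 ⟨0,[(6,1),(32,1)]⟩ ⟨3,[(2,
  3),(11,1),(3,0),(0,0),(16,0),(3,1)]⟩)) (.R ⟨0,false,false,true,[1,-1,-1],[0,0,1],[1],(⟨0,[(17,
  0)]⟩,⟨22,[(19,2),(0,2),(8,22),(0,4),(4,5),(0,2)]⟩),(⟨0,[(29,0)]⟩,⟨0,[(28,0)]⟩),⟨2,[(2,1),(26,0),
  (0,0),(4,2)]⟩,.k,.k,(.r (-1) ⟨11,[(3,5),(8,3),(1,10),(0,1),(21,0),(1,6)]⟩ ⟨2,[(0,1),(6,0),(16,1),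
  (1,1),(10,0),(2,6),(1,0)]⟩),(.r (-1) ⟨0,[(3,0),(10,0),(24,0)]⟩ ⟨5,[(0,1),(6,9),(16,1),(1,1),(10,
  0),(2,15),(1,0)]⟩),.k,.k,⟨false,1,⟨3,[(3,1),(10,1),(26,0),(0,0)]⟩,⟨5,[(0,0),(7,1),(7,0),(7,3),(12,
  0),(2,1)]⟩⟩,⟨true,1,⟨0,[(1,0),(24,0)]⟩,⟨0,[(0,0)]⟩⟩,⟨true,0,⟨5,[(0,1),(6,3),(16,1),(1,1),(10,0),
  (2,9),(1,0)]⟩,⟨9,[(3,4),(8,6),(21,0),(4,0)]⟩⟩,⟨false,1,⟨3,[(1,1),(5,5),(16,1),(1,3),(10,0),(2,9),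
  (1,0)]⟩,⟨37,[(0,1),(2,7),(0,11),(1,45),(18,1),(11,10),(4,48)]⟩⟩,⟨false,0,⟨0,[]⟩,⟨0,[]⟩⟩,⟨false,0,
  ⟨0,[]⟩,⟨0,[]⟩⟩,[.a ⟨true,0,⟨0,[(24,0)]⟩,⟨15,[(0,0),(2,3),(0,5),(1,1),(8,0),(20,2),(5,11)]⟩⟩ ⟨true,
  0,⟨0,[]⟩,⟨1,[(26,0),(0,0)]⟩⟩ ⟨false,1,⟨0,[(1,0),(22,0)]⟩,⟨7,[(0,3),(2,1),(0,1),(10,0),(0,0),(8,1),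
  (16,5)]⟩⟩,.o ⟨false,1,⟨1,[(24,1),(12,0),(4,0)]⟩,⟨37,[(0,1),(2,7),(0,11),(1,7),(18,1),(11,10),(4,
  10)]⟩⟩,.o ⟨false,0,⟨0,[(27,0)]⟩,⟨5,[(1,3),(17,0),(0,0),(5,1),(10,0)]⟩⟩,.o ⟨false,0,⟨1,[(26,0),(0,
  2)]⟩,⟨0,[(1,0)]⟩⟩]⟩) (.Q [0,-1,-2,0,1,0,1,0,-1,0,1,-1] (.p true [0,0,1] [0,0,0,0,1] (⟨0,[(29,0)]⟩,
  ⟨0,[(28,0)]⟩) .k 2 (⟨0,[(22,0)]⟩,⟨0,[(21,0)]⟩) .k (.r (-1) ⟨5,[(7,1),(8,1),(7,3),(12,0),(2,1),(1,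
  4)]⟩ ⟨9,[(3,4),(8,0),(21,2),(4,2)]⟩)) (.R ⟨0,false,false,true,[1,-1,-1],[1,0,0,0,-1],[1],(⟨0,[(18,
  0)]⟩,⟨22,[(20,2),(0,2),(8,22),(0,4),(4,5),(0,2)]⟩),(⟨0,[(22,0)]⟩,⟨0,[(23,0)]⟩),⟨2,[(3,1),(26,0),
  (0,0),(4,2)]⟩,.k,.k,(.r (-1) ⟨5,[(1,0),(2,1),(8,1),(1,3),(0,2),(9,1),(11,0)]⟩ ⟨0,[(8,0),(18,0),(0,
  0),(12,2)]⟩),(.r 0 ⟨9,[(4,4),(8,6),(21,0),(4,0)]⟩ ⟨0,[(25,0),(2,0),(12,0),(1,0)]⟩),.k,.k,⟨true,0,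
  ⟨0,[]⟩,⟨1,[(27,0),(0,0)]⟩⟩,⟨false,1,⟨13,[(0,11),(3,0),(5,0),(9,1),(4,0),(9,4)]⟩,⟨0,[(21,0),(6,
  0)]⟩⟩,⟨true,0,⟨1,[(8,1),(18,0),(0,0),(12,3)]⟩,⟨9,[(4,4),(8,6),(21,0),(4,0)]⟩⟩,⟨false,1,⟨0,[(0,0),
  (7,0),(18,0),(0,0),(12,1)]⟩,⟨1,[(7,1),(13,1),(16,0),(4,0)]⟩⟩,⟨false,0,⟨0,[]⟩,⟨0,[]⟩⟩,⟨false,0,⟨0,
  []⟩,⟨0,[]⟩⟩,[.a ⟨true,0,⟨0,[(0,0),(4,0),(2,0),(18,1),(0,0),(12,0)]⟩,⟨0,[(21,0)]⟩⟩ ⟨true,0,⟨0,[]⟩,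
  ⟨1,[(27,0),(0,0)]⟩⟩ ⟨false,1,⟨13,[(0,11),(3,0),(5,0),(9,1),(4,0),(9,4)]⟩,⟨0,[(21,0),(6,0)]⟩⟩,.e
  ⟨false,1,⟨1,[(42,0),(0,0)]⟩,⟨0,[(45,0)]⟩⟩ ⟨false,1,⟨0,[(0,0)]⟩,⟨0,[(21,0),(6,0),(16,0)]⟩⟩,.o
  ⟨false,0,⟨0,[(28,0)]⟩,⟨3,[(1,1),(18,0),(0,0),(16,0)]⟩⟩,.o ⟨false,0,⟨1,[(27,0),(0,2)]⟩,⟨0,[(2,
  0)]⟩⟩]⟩) (.Q [0,0,0,0,0,0,0,0,1,-1,0,1] (.p true [0,0,0,0,1] [1] (⟨0,[(23,0)]⟩,⟨0,[(22,0)]⟩) .k 1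
  (⟨0,[]⟩,⟨0,[]⟩) .k .k) (.Q [0,0,0,0,0,0,0,0,0,-1,1,1] (.ed false [0,0,1,0,1] (.r 0 ⟨1,[(10,0),(15,
  0),(2,0),(12,0)]⟩ ⟨15,[(5,7),(10,3),(0,1),(3,4),(0,4),(16,0),(4,5)]⟩)) (.Q [0,-2,0,-1,1,0,-1,-1,
  -1,1,-1,-1] (.p false [-1,0,1,0,1] [] (⟨0,[(0,0)]⟩,⟨0,[(24,0),(6,0)]⟩) .k 0 (⟨0,[]⟩,⟨0,[]⟩) .k
  (.r 0 ⟨1,[(11,0),(15,0),(2,0),(12,0)]⟩ ⟨15,[(6,7),(10,3),(0,1),(3,4),(0,4),(16,0),(4,5)]⟩)) (.Q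
  [0,0,0,0,0,1,0,0,0,-1,0,1] (.ed false [0,1,0,0,1] .k) (.Q [0,0,1,0,0,0,0,0,-1,1,0,-1] (.p false
  [0,0,0,0,1] [1] (⟨0,[(27,0)]⟩,⟨0,[(26,0)]⟩) .k 1 (⟨0,[]⟩,⟨0,[]⟩) .k .k) (.R ⟨0,false,false,true,
  [1,0,0,0,-1],[1,0,1,0,-1],[1,0,1],(⟨0,[(27,0)]⟩,⟨0,[(28,0)]⟩),(⟨0,[(27,0),(7,0)]⟩,⟨0,[(1,0),(21,
  0)]⟩),⟨0,[(1,0)]⟩,.k,.k,(.r (-1) ⟨7,[(20,3),(0,1),(3,0),(0,0),(16,0),(4,1)]⟩ ⟨13,[(5,5),(3,2),(15,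
  5),(4,5),(9,0),(5,10)]⟩),.k,.k,.k,⟨true,0,⟨0,[(16,0)]⟩,⟨0,[(13,0),(32,0)]⟩⟩,⟨false,1,⟨5,[(6,0),(2,
  1),(11,0),(8,3),(16,2),(0,1)]⟩,⟨0,[(17,0)]⟩⟩,⟨false,0,⟨7,[(0,1),(4,1),(26,1),(10,0),(4,0)]⟩,⟨1,
  [(47,0),(0,0)]⟩⟩,⟨true,0,⟨0,[(30,0)]⟩,⟨13,[(2,2),(1,1),(0,0),(3,2),(0,4),(32,2)]⟩⟩,⟨false,0,⟨0,
  []⟩,⟨0,[]⟩⟩,⟨false,0,⟨0,[]⟩,⟨0,[]⟩⟩,[.o ⟨false,1,⟨5,[(0,3),(5,1),(6,3),(11,1),(4,1),(12,0),(2,3),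
  (1,0)]⟩,⟨13,[(2,2),(1,15),(0,0),(3,2),(0,4),(32,2)]⟩⟩,.e ⟨false,1,⟨1,[(25,0),(0,0),(21,0)]⟩,⟨3,
  [(7,0),(2,0),(19,0),(9,0)]⟩⟩ ⟨false,1,⟨7,[(6,1),(6,3),(6,1),(9,3),(11,0),(3,5),(1,4)]⟩,⟨0,[(31,
  0)]⟩⟩,.o ⟨false,1,⟨0,[(25,0)]⟩,⟨0,[(4,0)]⟩⟩,.a ⟨true,0,⟨0,[(0,0)]⟩,⟨15,[(4,8),(1,0),(12,2),(0,2),
  (5,6),(2,1),(12,3),(3,5)]⟩⟩ ⟨true,0,⟨0,[]⟩,⟨13,[(5,1),(3,0),(5,0),(9,1),(4,0),(9,4)]⟩⟩ ⟨false,1,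
  ⟨7,[(6,1),(6,3),(6,1),(9,3),(11,0),(3,5),(1,4)]⟩,⟨15,[(2,2),(2,2),(3,4),(0,0),(1,1),(20,5),(9,
  2)]⟩⟩]⟩) (.S ⟨1,0,[0,-1,0,0,0,0,0,1],[1,0,1,0,-1],[1,0,0,-1,0,0,0,1],(⟨0,[(27,0),(7,0)]⟩,⟨0,[(1,
  0),(21,0)]⟩),⟨1,[(8,0),(18,1),(7,0)]⟩,.k,(.r (-1) ⟨1,[(13,1),(33,0),(0,0)]⟩ ⟨13,[(5,3),(3,8),(15,
  3),(4,3),(9,2),(5,4)]⟩),⟨true,0,⟨0,[(45,0)]⟩,⟨0,[(46,0)]⟩⟩,⟨false,1,⟨1,[(25,0),(0,0),(21,0)]⟩,⟨0,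
  []⟩⟩,⟨false,0,⟨0,[]⟩,⟨1,[(25,0),(0,0),(21,0)]⟩⟩,⟨true,0,⟨0,[(46,0)]⟩,⟨0,[(45,0)]⟩⟩,[.a ⟨true,1,⟨5,
  [(2,1),(3,1),(6,7),(11,3),(6,3),(9,2),(3,9),(1,0)]⟩,⟨6,[(0,4),(4,1),(3,0),(0,3),(1,0),(19,3)]⟩⟩
  ⟨true,0,⟨0,[(13,0)]⟩,⟨3,[(9,1),(22,0),(0,0),(12,1)]⟩⟩ ⟨false,1,⟨1,[(13,1),(32,1),(0,0),(0,0)]⟩,⟨9,
  [(9,4),(8,0),(21,2),(4,2)]⟩⟩,.o ⟨false,2,⟨2,[(2,0),(3,0),(6,3),(11,1),(6,1),(13,4),(1,1)]⟩,⟨0,[(0,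
  0),(9,1),(2,0),(18,2),(10,0),(2,0)]⟩⟩,.o ⟨false,1,⟨0,[(2,0),(3,0),(3,1),(2,2),(18,3),(10,0),(2,
  3)]⟩,⟨0,[(0,0),(32,0)]⟩⟩,.o ⟨false,1,⟨0,[(25,0),(6,0)]⟩,⟨0,[(0,0),(16,0)]⟩⟩]⟩)) (.Q [0,0,0,0,0,0,
  -1,0,-1,1,-1,-1] (.p false [-1,0,1,0,1] [] (⟨0,[(2,0)]⟩,⟨0,[(26,0),(6,0)]⟩) .k 0 (⟨0,[]⟩,⟨0,[]⟩)
  .k (.r 0 ⟨1,[(13,0),(15,0),(2,0),(12,0)]⟩ ⟨15,[(8,7),(10,3),(0,1),(3,4),(0,4),(16,0),(4,5)]⟩))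
  (.R ⟨1,false,false,true,[1,0,0,0,-1],[0,-1,1],[],(⟨0,[(27,0)]⟩,⟨0,[(28,0)]⟩),(⟨0,[(24,0)]⟩,⟨22,
  [(25,2),(0,2),(7,22),(1,4),(4,5),(0,2)]⟩),⟨0,[(1,0)]⟩,.k,.k,(.r (-1) ⟨7,[(20,3),(0,1),(3,0),(0,0),
  (16,0),(4,1)]⟩ ⟨13,[(5,5),(3,2),(15,5),(4,5),(9,0),(5,10)]⟩),(.r (-1) ⟨9,[(5,1),(3,5),(15,4),(0,
  2),(3,1),(15,3),(1,6)]⟩ ⟨0,[(6,0),(5,2),(0,3),(18,0),(10,0),(2,5),(1,0)]⟩),.k,.k,⟨false,1,⟨3,[(9,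
  1),(15,0),(0,0),(19,1),(0,0),(0,1)]⟩,⟨0,[(14,0)]⟩⟩,⟨true,0,⟨0,[(4,0),(27,0)]⟩,⟨0,[(0,0)]⟩⟩,⟨true,
  0,⟨13,[(5,1),(3,0),(5,0),(9,1),(4,0),(9,4)]⟩,⟨0,[]⟩⟩,⟨false,0,⟨0,[(4,0),(10,0)]⟩,⟨0,[(2,0),(43,
  1)]⟩⟩,⟨false,0,⟨0,[(46,0)]⟩,⟨3,[(21,1),(3,0),(0,0),(16,0),(4,1)]⟩⟩,⟨false,0,⟨0,[(4,0),(25,0)]⟩,⟨0,
  [(2,0),(43,0)]⟩⟩,[.e ⟨false,1,⟨1,[(25,0),(0,0),(20,0)]⟩,⟨0,[]⟩⟩ ⟨false,0,⟨1,[(4,1),(1,0),(3,0),(2,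
  1),(16,0),(1,0)]⟩,⟨1,[(0,0),(8,0),(15,0),(3,0),(16,0),(1,0)]⟩⟩,.o ⟨false,1,⟨1,[(15,1),(27,0),(4,
  0)]⟩,⟨13,[(9,3),(0,5),(22,1),(9,2),(2,9),(1,2)]⟩⟩,.o ⟨false,1,⟨0,[(25,0)]⟩,⟨0,[(4,0)]⟩⟩,.a ⟨true,
  0,⟨0,[(0,0),(31,0)]⟩,⟨15,[(4,8),(1,0),(12,2),(0,2),(5,6),(2,1),(12,3),(3,5)]⟩⟩ ⟨false,1,⟨1,[(47,
  0),(0,0)]⟩,⟨1,[(32,0),(0,0)]⟩⟩ ⟨true,0,⟨1,[(4,1),(1,0),(3,0),(2,1),(16,0),(1,0)]⟩,⟨3,[(0,3),(8,1),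
  (22,0),(0,0),(12,1)]⟩⟩]⟩) (.R ⟨0,false,false,true,[1,-1,-1],[2,0,-1,0,-1],[1],(⟨0,[(23,0)]⟩,⟨22,
  [(25,2),(0,2),(8,22),(0,4),(4,5),(0,2)]⟩),(⟨0,[(27,0),(6,0)]⟩,⟨0,[(3,0)]⟩),⟨2,[(8,1),(26,0),(0,0),
  (4,2)]⟩,.k,.k,(.r (-1) ⟨5,[(6,0),(2,1),(8,1),(1,3),(0,2),(9,1),(11,0)]⟩ ⟨0,[(13,0),(18,0),(0,0),
  (12,2)]⟩),(.r 0 ⟨0,[(44,0)]⟩ ⟨9,[(5,3),(3,1),(15,4),(0,0),(3,3),(15,7),(1,8)]⟩),.k,.k,⟨true,0,⟨0,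
  [(13,0),(32,0)]⟩,⟨1,[(0,0),(1,0),(9,1),(0,0),(18,1),(10,0),(2,3)]⟩⟩,⟨false,1,⟨12,[(7,1),(2,0),(3,
  0),(4,3),(0,5),(4,12),(16,6),(3,10)]⟩,⟨3,[(0,1),(4,1),(37,0),(4,0)]⟩⟩,⟨true,0,⟨1,[(13,1),(18,0),
  (0,0),(12,3)]⟩,⟨9,[(9,4),(8,6),(21,0),(4,0)]⟩⟩,⟨false,1,⟨1,[(25,1),(16,0),(3,1),(1,0)]⟩,⟨5,[(0,2),
  (1,0),(1,3),(7,1),(0,2),(29,0)]⟩⟩,⟨false,0,⟨0,[]⟩,⟨0,[]⟩⟩,⟨false,0,⟨0,[]⟩,⟨0,[]⟩⟩,[.a ⟨true,0,⟨9,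
  [(2,1),(5,0),(0,1),(0,3),(12,0),(1,7),(10,3),(1,0),(3,5),(6,1)]⟩,⟨0,[(0,0),(12,0),(32,0)]⟩⟩ ⟨true,
  0,⟨0,[]⟩,⟨1,[(32,0),(0,0)]⟩⟩ ⟨false,1,⟨22,[(2,4),(3,11),(1,0),(0,3),(0,9),(0,0),(13,17),(10,5),(5,
  9),(3,0),(0,5)]⟩,⟨3,[(0,1),(4,1),(7,3),(29,0),(2,3),(1,0)]⟩⟩,.e ⟨false,1,⟨1,[(47,0),(0,0)]⟩,⟨13,
  [(5,1),(3,0),(5,0),(9,1),(4,0),(9,4)]⟩⟩ ⟨false,1,⟨0,[(2,0),(3,0),(3,0),(2,0),(18,0),(13,1)]⟩,⟨5,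
  [(4,2),(0,2),(7,0),(8,0),(7,4),(12,1),(2,0),(1,0)]⟩⟩,.o ⟨false,0,⟨0,[(33,0)]⟩,⟨3,[(6,1),(18,0),(0,
  0),(16,0)]⟩⟩,.o ⟨false,0,⟨1,[(32,0),(0,2)]⟩,⟨0,[(7,0)]⟩⟩]⟩))) (.Q [0,1,0,0,0,0,1,1,1,-2,1,1] (.p
  true [-1,0,1,0,1] [1] (⟨0,[(1,0)]⟩,⟨0,[(25,0),(6,0)]⟩) .k 1 (⟨0,[]⟩,⟨0,[]⟩) .k (.r 0 ⟨2,[(0,0),
  (10,0),(8,0),(2,0),(4,0)]⟩ ⟨15,[(7,7),(10,3),(0,1),(3,4),(0,4),(16,0),(4,5)]⟩)) (.Q [0,0,0,0,0,0,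
  1,1,1,-1,1,1] (.p true [-1,0,1,0,1] [] (⟨0,[(2,0)]⟩,⟨0,[(26,0),(6,0)]⟩) .k 0 (⟨0,[]⟩,⟨0,[]⟩) .k
  (.r 0 ⟨2,[(1,0),(10,0),(8,0),(2,0),(4,0)]⟩ ⟨15,[(8,7),(10,3),(0,1),(3,4),(0,4),(16,0),(4,5)]⟩))
  (.R ⟨0,false,false,true,[1,-1,-1],[2,0,-1,0,-1],[1],(⟨0,[(23,0)]⟩,⟨22,[(25,2),(0,2),(8,22),(0,4),
  (4,5),(0,2)]⟩),(⟨0,[(27,0),(6,0)]⟩,⟨0,[(3,0)]⟩),⟨2,[(8,1),(26,0),(0,0),(4,2)]⟩,.k,.k,(.r (-1) ⟨5,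
  [(6,0),(2,1),(8,1),(1,3),(0,2),(9,1),(11,0)]⟩ ⟨0,[(13,0),(18,0),(0,0),(12,2)]⟩),(.r 0 ⟨0,[(44,
  0)]⟩ ⟨9,[(5,3),(3,1),(15,4),(0,0),(3,3),(15,7),(1,8)]⟩),.k,.k,⟨true,0,⟨0,[(13,0),(32,0)]⟩,⟨1,[(12,
  1),(19,1),(10,0),(2,1),(1,0)]⟩⟩,⟨false,1,⟨12,[(7,1),(2,0),(3,0),(4,3),(0,5),(4,12),(16,6),(3,
  10)]⟩,⟨5,[(0,1),(3,1),(0,1),(10,1),(26,0),(4,0)]⟩⟩,⟨true,0,⟨1,[(13,1),(18,0),(0,0),(12,3)]⟩,⟨9,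
  [(9,4),(8,6),(21,0),(4,0)]⟩⟩,⟨false,1,⟨1,[(25,1),(16,0),(3,1),(1,0)]⟩,⟨1,[(0,1),(11,1),(30,0),(4,
  0)]⟩⟩,⟨false,0,⟨0,[]⟩,⟨0,[]⟩⟩,⟨false,0,⟨0,[]⟩,⟨0,[]⟩⟩,[.a ⟨true,0,⟨1,[(12,1),(12,1),(16,0),(3,1),
  (1,0)]⟩,⟨0,[(0,0)]⟩⟩ ⟨true,0,⟨0,[]⟩,⟨1,[(32,0),(0,0)]⟩⟩ ⟨false,1,⟨52,[(6,21),(1,0),(0,14),(0,22),
  (0,1),(8,22),(4,52),(9,0),(0,9),(5,25),(3,7)]⟩,⟨0,[(0,0),(32,0)]⟩⟩,.o ⟨false,1,⟨8,[(9,1),(0,2),(1,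
  1),(12,8),(7,0),(8,1),(5,6)]⟩,⟨0,[(1,0)]⟩⟩,.o ⟨false,0,⟨0,[(33,0)]⟩,⟨3,[(6,1),(18,0),(0,0),(16,
  0)]⟩⟩,.o ⟨false,0,⟨1,[(32,0),(0,2)]⟩,⟨0,[(7,0)]⟩⟩]⟩) (.R ⟨1,false,false,false,[0,0,1],[-1,0,1,0,
  1],[0,0,0,0,0,0,0,1],(⟨0,[(35,0)]⟩,⟨0,[(34,0)]⟩),(⟨0,[(3,0)]⟩,⟨0,[(27,0),(6,0)]⟩),⟨0,[(24,0)]⟩,.k,
  .k,.k,.k,(.r (-1) ⟨7,[(20,3),(0,1),(3,0),(0,0),(16,0),(4,1)]⟩ ⟨13,[(5,5),(3,2),(15,5),(4,5),(9,0),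
  (5,10)]⟩),.k,⟨false,1,⟨1,[(47,0),(0,0)]⟩,⟨13,[(5,1),(3,0),(5,0),(9,1),(4,0),(9,4)]⟩⟩,⟨true,0,⟨0,
  [(4,0)]⟩,⟨0,[(0,0),(12,0),(18,0),(13,0)]⟩⟩,⟨false,1,⟨1,[(25,0),(0,0),(21,0)]⟩,⟨0,[]⟩⟩,⟨false,0,⟨0,
  [(4,0)]⟩,⟨3,[(0,1),(24,1),(4,1),(11,0),(5,2)]⟩⟩,⟨true,0,⟨0,[(46,0)]⟩,⟨0,[(45,0)]⟩⟩,⟨false,0,⟨0,
  [(4,0),(41,0)]⟩,⟨10,[(0,4),(5,0),(6,3),(1,0),(5,2),(3,5),(6,1),(9,1),(5,5)]⟩⟩,[.o ⟨false,0,⟨0,[(1,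
  0)]⟩,⟨17,[(0,9),(8,3),(11,1),(0,3),(2,7),(16,0),(4,1),(0,8)]⟩⟩,.o ⟨false,1,⟨1,[(1,0),(24,0),(3,0),
  (12,0),(4,0)]⟩,⟨0,[(0,0)]⟩⟩,.o ⟨false,1,⟨7,[(6,1),(18,2),(0,2),(5,3),(10,2)]⟩,⟨0,[(17,0)]⟩⟩,.a
  ⟨true,0,⟨0,[(32,0)]⟩,⟨0,[(29,0)]⟩⟩ ⟨false,1,⟨1,[(13,1),(32,1),(0,0),(0,0)]⟩,⟨0,[(16,0)]⟩⟩ ⟨true,0,
  ⟨0,[(1,0),(27,0)]⟩,⟨0,[(0,0),(31,0)]⟩⟩]⟩)) (.Q [0,0,0,0,0,1,0,0,0,-1,0,1] (.ed false [0,1,0,0,1]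
  .k) (.R ⟨0,false,false,true,[-1,1,0,0,1],[-1,0,1,0,1],[0,1],(⟨0,[(0,0)]⟩,⟨0,[(27,0),(10,0)]⟩),(⟨0,
  [(3,0)]⟩,⟨0,[(27,0),(6,0)]⟩),⟨0,[(27,0)]⟩,(.r 0 ⟨13,[(5,5),(3,2),(15,5),(4,5),(9,0),(5,10)]⟩ ⟨7,
  [(20,3),(0,1),(3,0),(0,0),(16,0),(4,1)]⟩),.k,.k,.k,.k,.k,⟨false,1,⟨3,[(9,1),(10,1),(26,0),(0,0)]⟩,
  ⟨2,[(2,0),(10,0),(8,0),(2,0),(4,0)]⟩⟩,⟨true,0,⟨0,[(32,0)]⟩,⟨0,[(17,0)]⟩⟩,⟨false,1,⟨7,[(20,3),(0,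
  1),(3,0),(0,0),(16,0),(4,1)]⟩,⟨1,[(32,0),(0,0),(12,1)]⟩⟩,⟨true,0,⟨0,[(15,0)]⟩,⟨13,[(9,3),(0,5),
  (22,1),(9,2),(2,9),(1,2)]⟩⟩,⟨false,0,⟨0,[]⟩,⟨0,[]⟩⟩,⟨false,0,⟨0,[]⟩,⟨0,[]⟩⟩,[.o ⟨false,0,⟨11,[(2,
  5),(1,2),(0,1),(0,0),(8,5),(10,0),(13,1),(2,6)]⟩,⟨1,[(1,1),(41,0),(4,0)]⟩⟩,.e ⟨false,1,⟨1,[(25,0),
  (0,0),(20,0)]⟩,⟨0,[]⟩⟩ ⟨false,0,⟨0,[(30,0)]⟩,⟨15,[(9,5),(0,3),(9,5),(1,3),(20,3),(3,2),(0,6)]⟩⟩,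
  .o ⟨false,1,⟨1,[(4,1),(38,0),(3,0)]⟩,⟨0,[(1,1),(0,0),(10,0),(18,0),(10,0)]⟩⟩,.a ⟨true,0,⟨0,[(4,
  0)]⟩,⟨0,[(1,0),(28,0)]⟩⟩ ⟨true,0,⟨3,[(7,0),(2,0),(19,0),(9,0)]⟩,⟨1,[(32,0),(0,0)]⟩⟩ ⟨false,0,⟨0,
  [(30,0)]⟩,⟨17,[(9,3),(0,5),(1,3),(20,1),(9,4),(4,22)]⟩⟩]⟩) (.S ⟨1,0,[0,-1],[1,0,0,0,-1],[1,0,0,
  -1],(⟨0,[(27,0)]⟩,⟨0,[(28,0)]⟩),⟨0,[(0,0)]⟩,.k,(.r (-1) ⟨7,[(20,3),(0,1),(3,0),(0,0),(16,0),(4,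
  1)]⟩ ⟨13,[(5,5),(3,2),(15,5),(4,5),(9,0),(5,10)]⟩),⟨true,0,⟨0,[(45,0)]⟩,⟨0,[(46,0)]⟩⟩,⟨false,1,⟨1,
  [(25,0),(0,0),(21,0)]⟩,⟨0,[]⟩⟩,⟨false,0,⟨0,[]⟩,⟨1,[(25,0),(0,0),(21,0)]⟩⟩,⟨true,0,⟨0,[(46,0)]⟩,⟨0,
  [(45,0)]⟩⟩,[.e ⟨false,1,⟨3,[(21,1),(3,0),(0,0),(16,0),(3,1)]⟩,⟨0,[(46,0)]⟩⟩ ⟨false,1,⟨1,[(47,0),
  (0,0)]⟩,⟨13,[(5,1),(3,0),(5,0),(9,1),(4,0),(9,4)]⟩⟩,.o ⟨false,2,⟨0,[(25,0),(22,0)]⟩,⟨2,[(2,1),(1,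
  0),(7,1),(30,0)]⟩⟩,.o ⟨false,1,⟨0,[(25,0)]⟩,⟨0,[(4,0)]⟩⟩,.a ⟨true,0,⟨0,[(1,1),(0,0),(10,0),(18,0),
  (10,0)]⟩,⟨7,[(2,1),(1,0),(1,0),(3,1),(9,1),(5,4),(15,0),(5,1)]⟩⟩ ⟨false,1,⟨7,[(20,3),(0,1),(3,0),
  (0,0),(16,0),(4,1)]⟩,⟨1,[(32,0),(0,0),(12,1)]⟩⟩ ⟨true,1,⟨1,[(47,0),(0,0)]⟩,⟨5,[(1,7),(0,7),(9,3),
  (0,3),(18,4),(0,0),(9,5)]⟩⟩]⟩)))) (.Q [0,0,1,0,-1,0,0,0,1,0,0,1] (.p true [0,0,0,0,1] [] (⟨0,[(25,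
  0)]⟩,⟨0,[(24,0)]⟩) .k 0 (⟨0,[]⟩,⟨0,[]⟩) .k .k) (.Q [0,0,0,0,0,1,0,0,0,0,0,-1] (.ed true [1,-1,0,0,
  1] .k) (.R ⟨0,false,false,true,[0,0,0,0,1],[1,-1,0,0,1],[0,2,0,-1],(⟨0,[(27,0)]⟩,⟨0,[(26,0)]⟩),
  (⟨0,[(27,0),(9,0)]⟩,⟨0,[(0,0)]⟩),⟨0,[(0,0)]⟩,.k,(.r 0 ⟨0,[(43,0)]⟩ ⟨9,[(4,3),(3,1),(15,4),(0,0),
  (3,3),(15,7),(1,8)]⟩),(.r 0 ⟨0,[(43,0)]⟩ ⟨9,[(4,3),(3,1),(15,4),(0,0),(3,3),(15,7),(1,8)]⟩),.k,.k,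
  .k,⟨true,0,⟨1,[(31,0),(0,0)]⟩,⟨0,[]⟩⟩,⟨false,0,⟨2,[(24,0),(0,0),(9,0),(1,0),(3,0)]⟩,⟨1,[(42,0),(3,
  0)]⟩⟩,⟨true,0,⟨0,[(44,0)]⟩,⟨0,[(45,0)]⟩⟩,⟨false,0,⟨5,[(20,2),(3,0),(0,0),(9,0),(1,0),(3,0)]⟩,⟨1,
  [(42,0),(2,1),(1,0)]⟩⟩,⟨false,0,⟨0,[]⟩,⟨0,[]⟩⟩,⟨false,0,⟨0,[]⟩,⟨0,[]⟩⟩,[.e ⟨false,0,⟨4,[(17,0),
  (21,2),(4,2)]⟩,⟨0,[(45,0),(1,0)]⟩⟩ ⟨false,(-1),⟨1,[(5,0),(3,2),(2,1),(16,0),(1,2)]⟩,⟨1,[(24,0),(0,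
  0),(16,0),(2,1),(1,1)]⟩⟩,.o ⟨false,(-1),⟨22,[(1,20),(2,1),(3,0),(5,1),(2,10),(21,3)]⟩,⟨1,[(24,1),
  (17,0),(2,1),(1,0)]⟩⟩,.o ⟨false,0,⟨0,[(3,0)]⟩,⟨0,[(24,0)]⟩⟩,.a ⟨true,(-1),⟨0,[(1,0)]⟩,⟨23,[(10,1),
  (13,23),(3,1),(5,1),(0,7),(5,10),(4,6)]⟩⟩ ⟨false,0,⟨0,[(43,0)]⟩,⟨1,[(31,0),(0,0),(12,1),(1,1)]⟩⟩
  ⟨true,(-1),⟨1,[(5,0),(3,2),(2,1),(16,0),(1,2)]⟩,⟨1,[(31,0),(0,0),(9,0),(2,1),(1,0)]⟩⟩]⟩) (.S ⟨1,0,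
  [0,1],[0,0,0,0,1],[0,2],(⟨0,[(27,0)]⟩,⟨0,[(26,0)]⟩),⟨0,[(0,0)]⟩,.k,(.r 0 ⟨0,[(43,0)]⟩ ⟨9,[(4,3),
  (3,1),(15,4),(0,0),(3,3),(15,7),(1,8)]⟩),⟨true,0,⟨13,[(4,1),(3,0),(5,0),(9,1),(4,0),(9,4)]⟩,⟨0,
  []⟩⟩,⟨false,1,⟨1,[(24,0),(0,0),(21,0)]⟩,⟨0,[]⟩⟩,⟨false,0,⟨0,[(45,0)]⟩,⟨3,[(20,1),(3,0),(0,0),(16,
  0),(4,1)]⟩⟩,⟨true,0,⟨0,[(45,0)]⟩,⟨0,[(44,0)]⟩⟩,[.e ⟨false,0,⟨0,[(39,0)]⟩,⟨0,[(47,0)]⟩⟩ ⟨false,0,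
  ⟨3,[(6,0),(2,0),(19,0),(9,0)]⟩,⟨1,[(24,0),(0,0),(21,0)]⟩⟩,.o ⟨false,0,⟨0,[(3,0)]⟩,⟨0,[(24,0)]⟩⟩,
  .o ⟨false,0,⟨0,[(3,0)]⟩,⟨0,[(24,0)]⟩⟩,.a ⟨true,(-1),⟨0,[(1,0)]⟩,⟨23,[(10,1),(13,23),(3,1),(5,1),
  (0,7),(5,10),(4,6)]⟩⟩ ⟨false,0,⟨3,[(6,0),(2,0),(19,0),(9,0)]⟩,⟨1,[(31,0),(0,0),(14,1)]⟩⟩ ⟨true,0,
  ⟨3,[(6,0),(2,0),(19,0),(9,0)]⟩,⟨1,[(31,0),(0,0)]⟩⟩]⟩)) (.Q [0,1,0,0,-1,0,0,0,1,0,0,1] (.p true [0,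
  0,0,0,1] [] (⟨0,[(26,0)]⟩,⟨0,[(25,0)]⟩) .k 0 (⟨0,[]⟩,⟨0,[]⟩) .k .k) (.R ⟨0,false,false,false,[1,
  -1,-1],[1,0,-1,0,1],[1,1],(⟨0,[(22,0)]⟩,⟨22,[(24,2),(0,2),(8,22),(0,4),(4,5),(0,2)]⟩),(⟨0,[(27,0),
  (5,0)]⟩,⟨2,[(2,1),(4,4),(18,0),(8,0),(4,2)]⟩),⟨2,[(7,1),(26,0),(0,0),(4,2)]⟩,.k,.k,(.r (-1) ⟨5,
  [(5,0),(2,1),(8,1),(1,3),(0,2),(9,1),(11,0)]⟩ ⟨0,[(12,0),(18,0),(0,0),(12,2)]⟩),(.r (-1) ⟨7,[(19,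
  3),(0,1),(3,0),(0,0),(16,0),(4,1)]⟩ ⟨13,[(4,5),(3,2),(15,5),(4,5),(9,0),(5,10)]⟩),.k,.k,⟨true,0,
  ⟨0,[(12,0),(32,0)]⟩,⟨1,[(11,1),(19,1),(10,0),(2,1),(1,0)]⟩⟩,⟨false,0,⟨0,[(0,0),(18,0),(25,0)]⟩,⟨1,
  [(24,1),(6,0),(0,0)]⟩⟩,⟨false,0,⟨1,[(12,1),(18,0),(0,0),(12,3)]⟩,⟨0,[(15,0),(3,0)]⟩⟩,⟨true,(-1),
  ⟨0,[(0,0),(44,0)]⟩,⟨3,[(1,1),(9,1),(0,1),(11,1),(6,1),(10,0),(4,0)]⟩⟩,⟨false,0,⟨0,[]⟩,⟨0,[]⟩⟩,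
  ⟨false,0,⟨0,[]⟩,⟨0,[]⟩⟩,[.o ⟨false,(-1),⟨13,[(0,4),(2,7),(0,0),(3,2),(0,4),(1,2)]⟩,⟨1,[(1,1),(10,
  1),(18,1),(10,0),(2,1),(1,0)]⟩⟩,.a ⟨true,(-1),⟨13,[(0,12),(3,0),(3,2),(0,4),(1,2),(29,2),(5,10)]⟩,
  ⟨0,[(1,0),(10,0),(18,0),(13,0)]⟩⟩ ⟨true,0,⟨0,[]⟩,⟨1,[(31,0),(0,0)]⟩⟩ ⟨false,0,⟨4,[(0,3),(4,2),(2,
  0),(0,2),(9,0),(5,0),(21,2)]⟩,⟨1,[(12,1),(11,1),(6,0),(0,0),(12,1)]⟩⟩,.o ⟨false,0,⟨0,[(32,0)]⟩,⟨3,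
  [(5,1),(18,0),(0,0),(16,0)]⟩⟩,.o ⟨false,0,⟨1,[(31,0),(0,2)]⟩,⟨0,[(6,0)]⟩⟩]⟩) (.R ⟨1,false,false,
  false,[0,0,1],[0,0,0,0,1],[1,1,0,-1,0,0,0,1],(⟨0,[(34,0)]⟩,⟨0,[(33,0)]⟩),(⟨0,[(27,0)]⟩,⟨0,[(26,
  0)]⟩),⟨0,[(23,0)]⟩,.k,.k,.k,.k,(.r (-1) ⟨1,[(12,1),(33,0),(0,0)]⟩ ⟨13,[(4,3),(3,8),(15,3),(4,3),
  (9,2),(5,4)]⟩),.k,⟨true,0,⟨0,[(12,0)]⟩,⟨5,[(0,0),(3,0),(3,2),(22,0),(13,2)]⟩⟩,⟨false,0,⟨0,[(3,0),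
  (24,0)]⟩,⟨0,[(1,0),(29,0)]⟩⟩,⟨true,0,⟨0,[(44,0)]⟩,⟨0,[(45,0)]⟩⟩,⟨true,(-1),⟨0,[(3,0),(5,0),(21,
  0)]⟩,⟨0,[(0,0),(28,0)]⟩⟩,⟨false,0,⟨0,[]⟩,⟨1,[(24,0),(0,0),(21,0)]⟩⟩,⟨true,(-1),⟨0,[(3,0),(5,0),
  (21,0),(13,0)]⟩,⟨0,[(0,0),(13,0)]⟩⟩,[.o ⟨false,0,⟨5,[(3,2),(0,1),(0,0),(19,0),(13,1),(2,0)]⟩,⟨0,
  [(0,0)]⟩⟩,.o ⟨false,0,⟨0,[(3,0)]⟩,⟨0,[(24,0)]⟩⟩,.o ⟨false,1,⟨7,[(5,1),(18,2),(0,2),(5,3),(10,2)]⟩,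
  ⟨0,[(16,0)]⟩⟩,.a ⟨true,0,⟨0,[(31,0)]⟩,⟨0,[(28,0)]⟩⟩ ⟨true,0,⟨0,[(13,0)]⟩,⟨5,[(0,0),(3,0),(3,2),
  (22,0),(13,2)]⟩⟩ ⟨false,0,⟨0,[(3,0),(24,0)]⟩,⟨0,[(0,0),(30,0)]⟩⟩]⟩)))) (.R ⟨0,false,false,false,
  [1,-1,-1],[0,0,0,0,1],[1,1],(⟨0,[(19,0)]⟩,⟨22,[(21,2),(0,2),(8,22),(0,4),(4,5),(0,2)]⟩),(⟨0,[(24,
  0)]⟩,⟨0,[(23,0)]⟩),⟨2,[(4,1),(26,0),(0,0),(4,2)]⟩,.k,.k,(.r (-1) ⟨5,[(2,0),(2,1),(8,1),(1,3),(0,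
  2),(9,1),(11,0)]⟩ ⟨0,[(9,0),(18,0),(0,0),(12,2)]⟩),(.r (-1) ⟨0,[(12,0),(3,0)]⟩ ⟨0,[(26,0),(2,0),
  (12,0)]⟩),.k,.k,⟨true,0,⟨0,[]⟩,⟨1,[(28,0),(0,0)]⟩⟩,⟨false,1,⟨0,[(3,0),(18,0)]⟩,⟨0,[(0,0),(28,
  0)]⟩⟩,⟨false,0,⟨1,[(9,1),(18,0),(0,0),(12,3)]⟩,⟨0,[(12,0),(3,0)]⟩⟩,⟨true,0,⟨0,[(1,0),(0,0),(6,0),
  (32,1)]⟩,⟨1,[(0,1),(7,1),(30,0),(4,0)]⟩⟩,⟨false,0,⟨0,[]⟩,⟨0,[]⟩⟩,⟨false,0,⟨0,[]⟩,⟨0,[]⟩⟩,[.o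
  ⟨false,0,⟨0,[(1,0),(1,0)]⟩,⟨1,[(0,1),(38,0),(4,0)]⟩⟩,.a ⟨true,0,⟨0,[(22,0)]⟩,⟨0,[(0,0)]⟩⟩ ⟨true,0,
  ⟨0,[]⟩,⟨1,[(28,0),(0,0)]⟩⟩ ⟨false,1,⟨0,[(3,0),(18,0)]⟩,⟨0,[(0,0),(28,0)]⟩⟩,.o ⟨false,0,⟨0,[(29,
  0)]⟩,⟨3,[(2,1),(18,0),(0,0),(16,0)]⟩⟩,.o ⟨false,0,⟨1,[(28,0),(0,2)]⟩,⟨0,[(3,0)]⟩⟩]⟩)))))) (.Q [0,
  0,0,0,0,2,0,0,0,0,-1] (.p false [0,0,1] [] (⟨0,[(26,0)]⟩,⟨0,[(25,0)]⟩) .k 0 (⟨0,[]⟩,⟨0,[]⟩) .k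
  .k) (.R ⟨0,false,false,false,[0,-1,1],[1,0,-1],[1],(⟨0,[(16,0)]⟩,⟨4,[(0,1),(16,0),(0,0),(7,2),(1,
  0),(5,0)]⟩),(⟨0,[(26,0)]⟩,⟨0,[(27,0)]⟩),⟨0,[(0,0)]⟩,.k,.k,(.r (-1) ⟨19,[(1,1),(4,5),(0,9),(4,15),
  (0,2),(0,4),(20,3)]⟩ ⟨1,[(8,1),(15,0),(0,0),(12,3)]⟩),(.x (-1) ⟨19,[(0,17),(2,3),(13,2),(0,2),(5,
  35),(1,17),(8,8)]⟩ ⟨2,[(1,0),(0,1),(6,1),(6,2),(10,2),(7,0),(2,0),(1,0)]⟩),.k,.k,⟨true,0,⟨3,[(1,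
  1),(22,0),(0,0),(12,1)]⟩,⟨1,[(4,1),(19,1),(10,0),(2,1),(1,0)]⟩⟩,⟨false,0,⟨4,[(1,1),(0,3),(11,0),
  (23,1),(0,1),(0,1)]⟩,⟨1,[(24,3),(10,0),(3,0)]⟩⟩,⟨true,0,⟨0,[(8,0),(29,0)]⟩,⟨1,[(1,3),(2,5),(6,1),
  (12,5),(10,2),(2,9),(1,2)]⟩⟩,⟨false,0,⟨0,[(2,0),(5,0),(29,0),(1,0)]⟩,⟨5,[(1,3),(10,1),(9,3),(1,7),
  (10,2),(4,0)]⟩⟩,⟨false,0,⟨0,[]⟩,⟨0,[]⟩⟩,⟨false,0,⟨0,[]⟩,⟨0,[]⟩⟩,[.o ⟨false,0,⟨3,[(2,1),(5,1),(26,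
  0),(4,0)]⟩,⟨1,[(22,1),(12,0),(4,0)]⟩⟩,.a ⟨true,0,⟨3,[(2,1),(5,1),(25,0),(5,2)]⟩,⟨0,[(22,0)]⟩⟩
  ⟨false,1,⟨1,[(39,0),(0,0)]⟩,⟨0,[(42,0)]⟩⟩ ⟨true,0,⟨0,[(2,0),(37,0)]⟩,⟨0,[(1,0),(0,0),(21,3),(10,
  0),(2,0)]⟩⟩,.a ⟨true,0,⟨0,[(24,0)]⟩,⟨0,[(21,0)]⟩⟩ ⟨true,0,⟨0,[]⟩,⟨0,[(42,0)]⟩⟩ ⟨false,0,⟨0,[(2,0),
  (37,0)]⟩,⟨1,[(22,1),(1,1),(10,0),(4,0)]⟩⟩,.a ⟨true,0,⟨1,[(24,2),(0,0)]⟩,⟨4,[(1,0),(0,1),(9,1),(8,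
  0),(12,0),(3,2),(0,0)]⟩⟩ ⟨false,1,⟨1,[(39,0),(0,0)]⟩,⟨1,[(24,0),(0,0)]⟩⟩ ⟨true,0,⟨1,[(2,1),(36,0),
  (0,0)]⟩,⟨0,[(1,0),(0,0),(21,3),(10,0),(2,0)]⟩⟩]⟩) (.I [1,0,1,1,0,0,0,-2] (.N [0,-1,2] 0 ⟨0,[(2,
  0)]⟩ ⟨0,[(0,0)]⟩ (.x (-1) ⟨4,[(4,0),(20,8),(1,8),(6,2),(1,2)]⟩ ⟨2,[(1,2),(0,0),(0,1),(11,0),(12,
  2),(5,0),(1,0),(2,0),(1,0)]⟩)) (.Q [0,0,2,0,-1,0,-1,0,0,1,-1] (.p false [0,0,1] [1] (⟨0,[(28,0)]⟩,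
  ⟨0,[(27,0)]⟩) .k 1 (⟨0,[]⟩,⟨0,[]⟩) .k .k) (.R ⟨0,false,false,true,[1,-1,-1],[1,-1],[0,1,0,-1],(⟨0,
  [(17,0)]⟩,⟨22,[(19,2),(0,2),(8,22),(0,4),(4,5),(0,2)]⟩),(⟨0,[(32,0)]⟩,⟨0,[(33,0)]⟩),⟨2,[(2,1),(26,
  0),(0,0),(4,2)]⟩,.k,.k,(.r (-1) ⟨4,[(10,4),(1,1),(1,4),(19,0),(4,0)]⟩ ⟨1,[(0,1),(23,1),(12,0),(2,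
  3),(1,0)]⟩),.k,.k,.k,⟨true,0,⟨1,[(26,0),(0,0)]⟩,⟨0,[]⟩⟩,⟨false,1,⟨0,[(26,0),(14,0)]⟩,⟨0,[(11,
  0)]⟩⟩,⟨false,0,⟨9,[(0,5),(2,1),(20,5),(12,2),(2,1),(1,2)]⟩,⟨0,[(10,0),(3,0),(25,0)]⟩⟩,⟨true,0,⟨0,
  [(24,0)]⟩,⟨3,[(4,1),(5,1),(26,0),(4,0)]⟩⟩,⟨false,0,⟨0,[]⟩,⟨0,[]⟩⟩,⟨false,0,⟨0,[]⟩,⟨0,[]⟩⟩,[.o
  ⟨false,0,⟨0,[(39,0)]⟩,⟨1,[(37,0),(2,1),(1,0)]⟩⟩,.e ⟨false,1,⟨3,[(15,1),(3,0),(0,0),(16,0),(3,1)]⟩,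
  ⟨0,[(40,0)]⟩⟩ ⟨false,1,⟨1,[(13,0),(0,0),(11,1),(14,0)]⟩,⟨0,[(27,0),(12,0)]⟩⟩,.o ⟨false,0,⟨0,[(27,
  0)]⟩,⟨9,[(2,0),(2,3),(20,5),(2,2),(5,5),(1,1)]⟩⟩,.a ⟨true,(-1),⟨0,[(0,0)]⟩,⟨10,[(5,4),(20,5),(2,
  4),(0,1),(4,5),(0,2),(4,3)]⟩⟩ ⟨true,0,⟨0,[(38,0)]⟩,⟨1,[(26,0),(0,0),(12,1)]⟩⟩ ⟨false,1,⟨1,[(13,0),
  (0,0),(11,1),(14,0)]⟩,⟨1,[(0,1),(36,0),(2,1),(1,0)]⟩⟩]⟩) (.Q [0,0,2,0,-1,0,-2,0,0,1,-2] (.p false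
  [0,0,1] [1,0,-1] (⟨0,[(29,0)]⟩,⟨0,[(28,0)]⟩) .k 2 (⟨0,[(28,0)]⟩,⟨0,[(29,0)]⟩) .k (.r 0 ⟨1,[(3,1),
  (22,0),(0,0),(12,1)]⟩ ⟨0,[(10,1),(30,0)]⟩)) (.R ⟨0,false,false,true,[1,-1,-1],[0,0,1],[1],(⟨0,
  [(18,0)]⟩,⟨22,[(20,2),(0,2),(8,22),(0,4),(4,5),(0,2)]⟩),(⟨0,[(30,0)]⟩,⟨0,[(29,0)]⟩),⟨2,[(3,1),(26,
  0),(0,0),(4,2)]⟩,.k,.k,(.r (-1) ⟨2,[(1,0),(9,1),(1,0),(1,1),(0,0),(9,0)]⟩ ⟨13,[(0,9),(3,1),(20,9),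
  (1,9),(10,4),(2,29),(1,4)]⟩),(.r (-1) ⟨4,[(1,0),(5,0),(3,8),(1,0),(1,1),(26,2)]⟩ ⟨6,[(0,3),(3,4),
  (20,3),(1,3),(10,1),(2,11),(1,1)]⟩),.k,.k,⟨false,1,⟨7,[(1,3),(3,1),(5,5),(25,0),(4,1),(0,4)]⟩,⟨5,
  [(0,0),(3,0),(12,0),(7,3),(9,0),(2,0),(2,0)]⟩⟩,⟨true,1,⟨0,[(1,0),(25,0)]⟩,⟨0,[(0,0)]⟩⟩,⟨true,0,
  ⟨13,[(0,5),(3,3),(20,5),(1,5),(10,2),(2,17),(1,2)]⟩,⟨6,[(1,2),(5,2),(3,3),(1,1),(21,0)]⟩⟩,⟨false,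
  1,⟨4,[(1,0),(2,2),(20,3),(1,4),(10,1),(2,7),(1,1)]⟩,⟨3,[(5,1),(1,3),(3,1),(26,0),(4,4)]⟩⟩,⟨false,
  0,⟨0,[]⟩,⟨0,[]⟩⟩,⟨false,0,⟨0,[]⟩,⟨0,[]⟩⟩,[.a ⟨true,0,⟨0,[(25,0)]⟩,⟨3,[(5,1),(5,1),(25,0),(5,2)]⟩⟩
  ⟨true,0,⟨0,[]⟩,⟨1,[(27,0),(0,0)]⟩⟩ ⟨false,1,⟨0,[(1,0),(23,0)]⟩,⟨2,[(0,0),(4,0),(5,1),(5,0),(25,
  1)]⟩⟩,.o ⟨false,1,⟨1,[(25,1),(12,0),(4,0)]⟩,⟨3,[(5,1),(5,1),(26,0),(4,0)]⟩⟩,.o ⟨false,0,⟨0,[(28,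
  0)]⟩,⟨5,[(1,3),(18,0),(0,0),(5,1),(10,0)]⟩⟩,.o ⟨false,0,⟨1,[(27,0),(0,2)]⟩,⟨0,[(1,0)]⟩⟩]⟩) (.Q [0,
  0,0,0,0,1,0,0,0,-1,0,1] (.ed false [0,1,0,0,1] .k) (.Q [0,-1,0,0,1,0,0,0,-1,0,0,-1] (.p false [0,
  0,0,0,1] [] (⟨0,[(24,0)]⟩,⟨0,[(23,0)]⟩) .k 0 (⟨0,[]⟩,⟨0,[]⟩) .k .k) (.Q [0,-2,0,0,0,0,-1,-1,-1,2,
  -1,-1] (.p false [-1,0,1,0,1] [1] (⟨1,[(1,1),(3,0),(26,0)]⟩,⟨0,[(24,0),(6,0)]⟩) .k 1 (⟨0,[]⟩,⟨0,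
  []⟩) .k (.r 0 ⟨3,[(6,0),(20,1),(2,1),(6,0),(5,0)]⟩ ⟨1,[(13,1),(30,0),(0,0)]⟩)) (.R ⟨0,false,false,
  true,[1,-1,-1],[1,0,0,0,-1],[1],(⟨0,[(21,0)]⟩,⟨22,[(23,2),(0,2),(8,22),(0,4),(4,5),(0,2)]⟩),(⟨0,
  [(25,0)]⟩,⟨0,[(26,0)]⟩),⟨2,[(6,1),(26,0),(0,0),(4,2)]⟩,.k,.k,(.r (-1) ⟨23,[(3,4),(10,13),(1,7),(1,
  17),(0,6),(9,9),(11,0)]⟩ ⟨3,[(7,1),(22,4),(0,4),(12,9)]⟩),(.r 0 ⟨2,[(3,0),(6,0),(3,0),(1,0),(12,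
  0)]⟩ ⟨0,[(28,0),(2,0),(12,0),(1,0)]⟩),.k,.k,⟨true,0,⟨0,[]⟩,⟨1,[(30,0),(0,0)]⟩⟩,⟨false,1,⟨5,[(1,5),
  (1,4),(3,1),(0,4),(19,0),(1,4),(13,1)]⟩,⟨0,[(24,0),(6,0)]⟩⟩,⟨true,0,⟨3,[(7,1),(22,2),(0,2),(12,
  5)]⟩,⟨2,[(3,0),(6,0),(3,0),(1,0),(12,0)]⟩⟩,⟨false,1,⟨5,[(0,0),(0,4),(1,0),(3,3),(0,0),(21,6),(10,
  0),(2,9)]⟩,⟨1,[(10,1),(13,1),(16,0),(4,0)]⟩⟩,⟨false,0,⟨0,[]⟩,⟨0,[]⟩⟩,⟨false,0,⟨0,[]⟩,⟨0,[]⟩⟩,[.a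
  ⟨true,0,⟨5,[(0,0),(0,4),(1,0),(3,3),(0,6),(21,12),(10,0),(2,3)]⟩,⟨0,[(24,0)]⟩⟩ ⟨true,0,⟨0,[]⟩,⟨1,
  [(30,0),(0,0)]⟩⟩ ⟨false,1,⟨5,[(1,5),(1,4),(3,1),(0,4),(19,0),(1,4),(13,1)]⟩,⟨0,[(24,0),(6,0)]⟩⟩,
  .e ⟨false,1,⟨1,[(45,0),(0,0)]⟩,⟨0,[(48,0)]⟩⟩ ⟨false,1,⟨0,[(0,0),(2,0),(3,0),(0,0),(21,1),(10,0),
  (2,0)]⟩,⟨0,[(24,0),(6,0),(16,0)]⟩⟩,.o ⟨false,0,⟨0,[(31,0)]⟩,⟨3,[(3,1),(19,0),(0,0),(16,0)]⟩⟩,.o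
  ⟨false,0,⟨1,[(30,0),(0,2)]⟩,⟨0,[(4,0)]⟩⟩]⟩) (.Q [0,0,0,0,0,0,0,0,-1,1,0,-1] (.p false [0,0,0,0,1]
  [1] (⟨0,[(26,0)]⟩,⟨0,[(25,0)]⟩) .k 1 (⟨0,[]⟩,⟨0,[]⟩) .k .k) (.R ⟨0,false,false,false,[1,-1,-1],[0,
  0,0,0,1],[1,1],(⟨0,[(22,0)]⟩,⟨22,[(24,2),(0,2),(8,22),(0,4),(4,5),(0,2)]⟩),(⟨0,[(27,0)]⟩,⟨0,[(26,
  0)]⟩),⟨2,[(7,1),(26,0),(0,0),(4,2)]⟩,.k,.k,(.r (-1) ⟨23,[(4,4),(10,13),(1,7),(1,17),(0,6),(9,9),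
  (11,0)]⟩ ⟨3,[(8,1),(22,4),(0,4),(12,9)]⟩),(.r (-1) ⟨0,[(15,0),(3,0)]⟩ ⟨0,[(29,0),(2,0),(12,0)]⟩),
  .k,.k,⟨true,0,⟨0,[]⟩,⟨1,[(31,0),(0,0)]⟩⟩,⟨false,1,⟨0,[(5,0),(19,0)]⟩,⟨0,[(0,0),(31,0)]⟩⟩,⟨false,0,
  ⟨3,[(8,1),(22,2),(0,2),(12,5)]⟩,⟨0,[(15,0),(3,0)]⟩⟩,⟨true,0,⟨1,[(1,1),(39,0),(3,1),(1,0)]⟩,⟨0,[(2,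
  0),(8,0)]⟩⟩,⟨false,0,⟨0,[]⟩,⟨0,[]⟩⟩,⟨false,0,⟨0,[]⟩,⟨0,[]⟩⟩,[.o ⟨false,0,⟨4,[(1,1),(7,0),(5,0),(9,
  2),(16,0)]⟩,⟨0,[(2,0)]⟩⟩,.a ⟨true,0,⟨0,[(25,0)]⟩,⟨0,[(0,0)]⟩⟩ ⟨true,0,⟨0,[]⟩,⟨1,[(31,0),(0,0)]⟩⟩
  ⟨false,1,⟨0,[(5,0),(19,0)]⟩,⟨0,[(0,0),(31,0)]⟩⟩,.o ⟨false,0,⟨0,[(32,0)]⟩,⟨3,[(4,1),(19,0),(0,0),
  (16,0)]⟩⟩,.o ⟨false,0,⟨1,[(31,0),(0,2)]⟩,⟨0,[(5,0)]⟩⟩]⟩) (.R ⟨1,false,false,false,[0,0,1],[0,0,0,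
  0,1],[1,1,0,-1,0,0,0,1],(⟨0,[(34,0)]⟩,⟨0,[(33,0)]⟩),(⟨0,[(27,0)]⟩,⟨0,[(26,0)]⟩),⟨0,[(23,0)]⟩,.k,
  .k,.k,.k,(.r (-1) ⟨19,[(1,0),(6,5),(5,6),(4,6),(1,3),(2,0),(17,0),(4,10)]⟩ ⟨0,[(15,0),(29,0),(3,
  0)]⟩),.k,⟨true,0,⟨0,[(12,0)]⟩,⟨0,[(15,0),(29,0)]⟩⟩,⟨false,0,⟨0,[(0,0),(27,0)]⟩,⟨3,[(2,1),(1,0),(4,
  0),(14,1),(4,0),(1,2)]⟩⟩,⟨true,0,⟨0,[(44,0)]⟩,⟨0,[(45,0)]⟩⟩,⟨true,(-1),⟨0,[(0,0),(8,0),(21,0)]⟩,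
  ⟨0,[(2,0),(26,0)]⟩⟩,⟨false,0,⟨0,[]⟩,⟨1,[(24,0),(0,0),(21,0)]⟩⟩,⟨true,(-1),⟨0,[(0,0),(8,0),(21,0),
  (13,0)]⟩,⟨0,[(2,0),(11,0)]⟩⟩,[.o ⟨false,0,⟨2,[(0,0),(0,0),(23,0),(4,0)]⟩,⟨0,[(2,0)]⟩⟩,.o ⟨false,0,
  ⟨0,[(0,0)]⟩,⟨0,[(24,0)]⟩⟩,.o ⟨false,1,⟨7,[(4,1),(19,2),(0,2),(5,3),(10,2)]⟩,⟨0,[(16,0)]⟩⟩,.a
  ⟨true,0,⟨0,[(31,0)]⟩,⟨0,[(28,0)]⟩⟩ ⟨true,0,⟨0,[(13,0)]⟩,⟨0,[(15,0),(29,0)]⟩⟩ ⟨false,0,⟨0,[(0,0),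
  (27,0)]⟩,⟨0,[(2,0),(28,0)]⟩⟩]⟩))) (.Q [0,0,0,0,0,0,1,1,1,-1,1,1] (.p true [-1,0,1,0,1] [] (⟨1,[(1,
  1),(3,0),(26,0)]⟩,⟨0,[(24,0),(6,0)]⟩) .k 0 (⟨0,[]⟩,⟨0,[]⟩) .k (.r 0 ⟨3,[(6,0),(20,1),(2,1),(6,0),
  (5,0)]⟩ ⟨1,[(13,1),(30,0),(0,0)]⟩)) (.Q [0,1,0,0,0,0,1,1,1,-2,1,1] (.p true [-1,0,1,0,1] [1] (⟨1,
  [(2,1),(3,0),(26,0)]⟩,⟨0,[(25,0),(6,0)]⟩) .k 1 (⟨0,[]⟩,⟨0,[]⟩) .k (.r 0 ⟨3,[(7,0),(20,1),(2,1),(6,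
  0),(5,0)]⟩ ⟨1,[(14,1),(30,0),(0,0)]⟩)) (.R ⟨0,false,false,true,[1,-1,-1],[2,0,-1,0,-1],[1],(⟨0,
  [(22,0)]⟩,⟨22,[(24,2),(0,2),(8,22),(0,4),(4,5),(0,2)]⟩),(⟨0,[(26,0),(6,0)]⟩,⟨1,[(3,1),(3,0),(26,
  0)]⟩),⟨2,[(7,1),(26,0),(0,0),(4,2)]⟩,.k,.k,(.r (-1) ⟨23,[(4,4),(10,13),(1,7),(1,17),(0,6),(9,9),
  (11,0)]⟩ ⟨3,[(8,1),(22,4),(0,4),(12,9)]⟩),(.r 0 ⟨0,[(43,0)]⟩ ⟨1,[(24,0),(0,0),(5,0),(0,0),(12,1),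
  (1,0)]⟩),.k,.k,⟨true,0,⟨3,[(8,1),(22,0),(0,0),(12,1)]⟩,⟨1,[(11,1),(19,1),(10,0),(2,1),(1,0)]⟩⟩,
  ⟨false,1,⟨223,[(4,78),(1,28),(2,57),(0,8),(8,57),(4,223),(3,50),(5,8),(0,35),(5,96),(3,86)]⟩,⟨1,
  [(0,0),(1,0),(12,0),(16,0),(14,0)]⟩⟩,⟨true,0,⟨3,[(8,1),(22,2),(0,2),(12,5)]⟩,⟨2,[(4,0),(6,0),(3,
  0),(1,0),(12,0)]⟩⟩,⟨false,1,⟨1,[(24,1),(16,0),(3,1),(1,0)]⟩,⟨0,[(0,0),(10,0),(35,0)]⟩⟩,⟨false,0,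
  ⟨0,[]⟩,⟨0,[]⟩⟩,⟨false,0,⟨0,[]⟩,⟨0,[]⟩⟩,[.a ⟨true,0,⟨1,[(11,1),(12,1),(16,0),(3,1),(1,0)]⟩,⟨0,[(1,
  0)]⟩⟩ ⟨true,0,⟨0,[]⟩,⟨1,[(31,0),(0,0)]⟩⟩ ⟨false,1,⟨7,[(4,5),(4,5),(5,1),(8,7),(10,1),(1,1),(3,2),
  (5,2)]⟩,⟨0,[(1,0),(30,0)]⟩⟩,.o ⟨false,1,⟨3,[(9,1),(5,1),(8,3),(16,0),(5,2)]⟩,⟨0,[(0,0)]⟩⟩,.o
  ⟨false,0,⟨0,[(32,0)]⟩,⟨3,[(4,1),(19,0),(0,0),(16,0)]⟩⟩,.o ⟨false,0,⟨1,[(31,0),(0,2)]⟩,⟨0,[(5,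
  0)]⟩⟩]⟩) (.Q [0,0,0,1,0,0,-1,-1,-1,1,-1,-1] (.p false [-1,0,1,0,1] [] (⟨1,[(3,1),(3,0),(26,0)]⟩,
  ⟨0,[(26,0),(6,0)]⟩) .k 0 (⟨0,[]⟩,⟨0,[]⟩) .k (.r 0 ⟨3,[(8,0),(20,1),(2,1),(6,0),(5,0)]⟩ ⟨1,[(15,1),
  (30,0),(0,0)]⟩)) (.R ⟨2,true,false,false,[0,1],[-1,0,1,0,1],[0,0,1,1],(⟨0,[]⟩,⟨0,[]⟩),(⟨1,[(4,1),
  (3,0),(26,0)]⟩,⟨0,[(27,0),(6,0)]⟩),⟨0,[]⟩,.k,.k,.k,(.r (-1) ⟨1,[(16,1),(8,0),(0,0),(19,1),(1,0)]⟩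
  ⟨0,[(1,5),(0,5),(2,0),(1,3),(4,6),(19,4),(10,5),(2,9)]⟩),.k,.k,⟨false,1,⟨7,[(0,3),(4,1),(10,3),(8,
  0),(0,4),(16,0),(2,3),(1,3)]⟩,⟨0,[(14,0)]⟩⟩,⟨true,0,⟨0,[(2,0),(13,0)]⟩,⟨0,[(0,0),(12,0)]⟩⟩,⟨false,
  1,⟨1,[(25,0),(0,0),(21,0)]⟩,⟨0,[]⟩⟩,⟨true,0,⟨0,[(2,0),(42,0)]⟩,⟨0,[(0,0)]⟩⟩,⟨true,0,⟨0,[(46,0)]⟩,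
  ⟨0,[(45,0)]⟩⟩,⟨false,0,⟨0,[(2,0)]⟩,⟨1,[(1,0),(23,0),(5,0),(16,0)]⟩⟩,[]⟩) (.R ⟨0,false,false,true,
  [1,0,0,0,-1],[0,-1,1],[],(⟨0,[(27,0)]⟩,⟨0,[(28,0)]⟩),(⟨0,[(24,0)]⟩,⟨19,[(1,2),(24,2),(3,2),(3,19),
  (1,1),(4,5)]⟩),⟨0,[(4,0)]⟩,.k,.k,(.r (-1) ⟨7,[(20,3),(0,1),(3,0),(0,0),(16,0),(4,1)]⟩ ⟨1,[(16,0),
  (13,0),(2,0),(12,1),(3,0)]⟩),(.r (-1) ⟨1,[(16,1),(8,0),(0,0),(19,1),(1,0)]⟩ ⟨0,[(0,5),(0,5),(3,0),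
  (1,3),(4,6),(19,4),(10,5),(2,15)]⟩),.k,.k,⟨false,1,⟨1,[(16,1),(29,1),(0,0),(0,0)]⟩,⟨0,[(14,0)]⟩⟩,
  ⟨true,0,⟨0,[(2,0),(13,0)]⟩,⟨0,[(1,0),(7,0),(0,0),(21,1),(10,0),(2,0)]⟩⟩,⟨true,0,⟨0,[(50,0)]⟩,⟨0,
  []⟩⟩,⟨false,0,⟨0,[(0,0),(49,0)]⟩,⟨1,[(1,1),(41,0),(2,1),(1,0)]⟩⟩,⟨false,0,⟨0,[]⟩,⟨0,[]⟩⟩,⟨false,0,
  ⟨0,[]⟩,⟨0,[]⟩⟩,[.e ⟨false,1,⟨1,[(25,0),(0,0),(20,0)]⟩,⟨0,[]⟩⟩ ⟨false,0,⟨10,[(0,8),(2,1),(2,1),(2,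
  0),(9,0),(20,3)]⟩,⟨1,[(1,0),(23,0),(5,0),(14,1),(1,0)]⟩⟩,.o ⟨false,1,⟨0,[(0,0),(24,0)]⟩,⟨3,[(10,
  1),(5,1),(26,0),(2,3),(1,0)]⟩⟩,.o ⟨false,1,⟨0,[(25,0)]⟩,⟨1,[(3,1),(39,0),(4,0)]⟩⟩,.a ⟨true,0,⟨0,
  [(1,0),(7,0),(0,0),(21,2),(10,0),(2,0)]⟩,⟨1,[(3,0),(16,0),(5,0),(19,0)]⟩⟩ ⟨false,1,⟨1,[(47,0),(0,
  0)]⟩,⟨1,[(32,0),(0,0)]⟩⟩ ⟨true,0,⟨10,[(0,8),(2,1),(2,1),(2,0),(9,0),(20,3)]⟩,⟨3,[(1,3),(7,1),(0,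
  3),(21,8),(0,0),(9,3),(2,5)]⟩⟩]⟩))) (.R ⟨0,false,false,false,[1,0,0,0,-1],[0,0,1],[1,0,1],(⟨0,
  [(25,0)]⟩,⟨0,[(26,0)]⟩),(⟨0,[(33,0)]⟩,⟨0,[(32,0)]⟩),⟨0,[(2,0)]⟩,.k,.k,(.r (-1) ⟨7,[(18,3),(0,1),
  (3,0),(0,0),(16,0),(4,1)]⟩ ⟨1,[(14,0),(13,0),(2,0),(12,1),(3,0)]⟩),.k,.k,.k,⟨true,0,⟨0,[(14,0)]⟩,
  ⟨3,[(7,1),(22,0),(0,0),(12,1)]⟩⟩,⟨false,1,⟨3,[(3,1),(19,0),(0,4),(16,0)]⟩,⟨3,[(0,3),(6,1),(22,0),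
  (0,0),(12,1)]⟩⟩,⟨false,0,⟨1,[(30,0),(0,0)]⟩,⟨1,[(45,0),(0,0)]⟩⟩,⟨true,0,⟨1,[(1,1),(26,1),(12,0),
  (4,0)]⟩,⟨0,[(0,0)]⟩⟩,⟨false,0,⟨0,[]⟩,⟨0,[]⟩⟩,⟨false,0,⟨0,[]⟩,⟨0,[]⟩⟩,[.o ⟨false,1,⟨1,[(28,1),(12,
  0),(4,0)]⟩,⟨3,[(8,1),(5,1),(26,0),(4,0)]⟩⟩,.e ⟨false,1,⟨1,[(23,0),(0,0),(21,0)]⟩,⟨11,[(3,1),(3,0),
  (0,1),(29,4),(5,0)]⟩⟩ ⟨false,1,⟨2,[(1,1),(1,0),(3,0),(16,0),(3,0),(12,0),(2,0),(1,2)]⟩,⟨0,[(0,0),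
  (47,0)]⟩⟩,.o ⟨false,1,⟨0,[(23,0)]⟩,⟨1,[(1,1),(39,0),(4,0)]⟩⟩,.a ⟨true,0,⟨3,[(0,3),(6,1),(22,4),(0,
  0),(12,1)]⟩,⟨1,[(1,0),(16,0),(5,0),(19,0)]⟩⟩ ⟨true,0,⟨0,[]⟩,⟨0,[(48,0)]⟩⟩ ⟨false,1,⟨2,[(1,1),(1,
  0),(3,0),(16,0),(3,0),(12,0),(2,0),(1,2)]⟩,⟨1,[(0,1),(29,0),(0,0)]⟩⟩]⟩))) (.Q [0,0,0,0,0,0,1,1,1,
  -1,1,1] (.p true [0,0,1] [1,0,0,0,-1] (⟨0,[(31,0)]⟩,⟨0,[(30,0)]⟩) .k 2 (⟨0,[(23,0)]⟩,⟨0,[(24,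
  0)]⟩) .k (.r 0 ⟨3,[(5,0),(20,1),(2,1),(6,0),(5,0)]⟩ ⟨1,[(12,1),(30,0),(0,0)]⟩)) (.Q [0,0,0,0,-1,0,
  -1,0,1,0,-1,1] (.p false [0,0,1] [0,0,0,0,1] (⟨0,[(32,0)]⟩,⟨0,[(31,0)]⟩) .k 2 (⟨0,[(25,0)]⟩,⟨0,
  [(24,0)]⟩) .k (.r (-1) ⟨6,[(0,1),(5,0),(12,1),(2,1),(4,2),(2,0),(12,0),(1,4)]⟩ ⟨6,[(2,0),(4,0),(5,
  5),(23,2)]⟩)) (.R ⟨1,false,false,true,[1,0,0,0,-1],[1,-1],[0,-1],(⟨0,[(25,0)]⟩,⟨0,[(26,0)]⟩),(⟨0,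
  [(36,0)]⟩,⟨0,[(37,0)]⟩),⟨0,[(2,0)]⟩,.k,.k,(.r (-1) ⟨7,[(18,3),(0,1),(3,0),(0,0),(16,0),(4,1)]⟩ ⟨1,
  [(14,0),(13,0),(2,0),(12,1),(3,0)]⟩),(.r (-1) ⟨1,[(23,0),(0,0),(5,0),(0,0),(12,1),(1,0)]⟩ ⟨0,[(42,
  0)]⟩),.k,.k,⟨false,1,⟨0,[(44,0),(1,0)]⟩,⟨4,[(16,0),(21,2),(4,2)]⟩⟩,⟨true,(-1),⟨0,[(0,0),(29,0)]⟩,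
  ⟨0,[(23,0)]⟩⟩,⟨false,1,⟨1,[(23,0),(0,0),(21,0)]⟩,⟨0,[]⟩⟩,⟨false,(-1),⟨0,[(1,0),(8,0)]⟩,⟨0,[(23,0),
  (20,0),(1,0)]⟩⟩,⟨true,0,⟨0,[(44,0)]⟩,⟨0,[(43,0)]⟩⟩,⟨false,(-1),⟨5,[(0,5),(2,0),(4,0),(19,0),(1,4),
  (7,1)]⟩,⟨0,[(23,0),(22,0)]⟩⟩,[.o ⟨false,0,⟨0,[(43,0)]⟩,⟨1,[(41,0),(2,1),(1,0)]⟩⟩,.a ⟨true,0,⟨5,
  [(19,2),(3,0),(0,0),(9,0),(1,0),(3,0)]⟩,⟨0,[(44,0)]⟩⟩ ⟨true,1,⟨0,[(46,0)]⟩,⟨0,[(7,0),(0,1),(21,3),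
  (10,0),(2,0)]⟩⟩ ⟨false,0,⟨14,[(0,4),(0,0),(1,1),(10,0),(1,2),(1,2),(0,2),(4,8)]⟩,⟨0,[(23,0),(20,
  0)]⟩⟩,.o ⟨false,1,⟨0,[(23,0)]⟩,⟨8,[(0,3),(0,1),(1,0),(10,1),(9,2),(16,2)]⟩⟩,.o ⟨false,1,⟨1,[(23,
  1),(6,0),(0,0)]⟩,⟨3,[(0,2),(2,0),(0,0),(19,0),(16,0)]⟩⟩]⟩) (.Q [0,0,0,0,0,0,0,0,0,0,1,-1] (.ed
  true [1,0,-1,0,1] (.r 0 ⟨6,[(3,0),(4,0),(5,5),(23,2)]⟩ ⟨6,[(1,1),(5,0),(12,1),(2,1),(4,2),(2,0),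
  (12,0),(1,4)]⟩)) (.R ⟨0,false,false,true,[1,-1,-1],[0,0,1,0,-1],[1,0,0,0,0,0,0,1],(⟨0,[(22,0)]⟩,
  ⟨55,[(1,5),(19,2),(3,5),(8,55),(0,10),(4,14),(0,5)]⟩),(⟨0,[(0,0)]⟩,⟨0,[(27,0),(5,0)]⟩),⟨2,[(7,1),
  (26,0),(0,0),(4,2)]⟩,.k,.k,(.r (-1) ⟨23,[(4,4),(10,13),(1,7),(1,17),(0,6),(9,9),(11,0)]⟩ ⟨3,[(8,
  1),(22,4),(0,4),(12,9)]⟩),(.r 0 ⟨1,[(4,0),(4,0),(5,2),(1,0)]⟩ ⟨3,[(8,1),(20,3),(1,0),(0,4),(12,5),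
  (1,3)]⟩),.k,.k,⟨true,0,⟨0,[]⟩,⟨1,[(31,0),(0,0)]⟩⟩,⟨false,2,⟨0,[(4,0),(19,0)]⟩,⟨19,[(2,19),(6,17),
  (5,1),(16,23),(8,10),(5,8),(0,11)]⟩⟩,⟨true,0,⟨0,[(8,0),(22,0),(0,0),(12,1)]⟩,⟨1,[(4,0),(4,0),(5,
  2),(1,0)]⟩⟩,⟨false,2,⟨1,[(1,1),(6,1),(22,1),(10,0),(2,3),(1,0)]⟩,⟨0,[(2,0),(6,0),(1,0),(3,0),(31,
  0)]⟩⟩,⟨false,0,⟨0,[]⟩,⟨0,[]⟩⟩,⟨false,0,⟨0,[]⟩,⟨0,[]⟩⟩,[.a ⟨true,1,⟨1,[(1,0),(6,0),(15,0),(6,0),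
  (13,0)]⟩,⟨7,[(2,7),(6,5),(1,3),(3,5),(25,2),(3,3),(1,4)]⟩⟩ ⟨true,0,⟨3,[(8,1),(22,0),(0,0),(12,
  1)]⟩,⟨1,[(11,1),(19,1),(10,0),(2,1),(1,0)]⟩⟩ ⟨false,2,⟨4,[(1,0),(0,0),(1,3),(3,1),(15,4),(20,1)]⟩,
  ⟨19,[(2,19),(6,21),(5,17),(16,15),(8,8),(5,10),(0,7)]⟩⟩,.o ⟨false,2,⟨1,[(1,0),(6,0),(15,0),(6,0),
  (10,0),(2,0),(1,0)]⟩,⟨0,[(2,0),(6,0),(5,0)]⟩⟩,.o ⟨false,0,⟨0,[(32,0)]⟩,⟨3,[(4,1),(19,0),(0,0),(16,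
  0)]⟩⟩,.o ⟨false,0,⟨1,[(31,0),(0,2)]⟩,⟨0,[(5,0)]⟩⟩]⟩) (.S ⟨1,0,[0,-1,0,0,0,0,0,1],[1,0,1,0,-1],[1,
  0,0,-1,0,0,0,1],(⟨0,[(26,0),(7,0)]⟩,⟨0,[(0,0)]⟩),⟨0,[(3,0),(30,0)]⟩,.k,(.r (-1) ⟨19,[(8,5),(5,7),
  (4,5),(1,3),(20,1),(3,0),(0,10)]⟩ ⟨0,[(15,0),(29,0),(3,0)]⟩),⟨true,0,⟨0,[(44,0)]⟩,⟨0,[(45,0)]⟩⟩,
  ⟨false,1,⟨1,[(24,0),(0,0),(21,0)]⟩,⟨0,[]⟩⟩,⟨false,0,⟨0,[]⟩,⟨1,[(24,0),(0,0),(21,0)]⟩⟩,⟨true,0,⟨0,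
  [(45,0)]⟩,⟨0,[(44,0)]⟩⟩,[.a ⟨true,1,⟨1,[(1,0),(4,0),(17,0),(6,0),(9,0),(3,0),(1,0)]⟩,⟨0,[(2,0),(6,
  0),(5,0)]⟩⟩ ⟨true,0,⟨0,[(12,0)]⟩,⟨0,[(15,0),(29,0)]⟩⟩ ⟨false,1,⟨15,[(2,1),(5,5),(12,1),(2,1),(4,
  1),(15,5),(0,4),(0,8)]⟩,⟨6,[(4,0),(4,0),(5,5),(23,2)]⟩⟩,.o ⟨false,2,⟨1,[(1,0),(6,0),(15,0),(6,0),
  (13,0),(1,1)]⟩,⟨0,[(2,0),(6,1),(21,1),(10,0)]⟩⟩,.o ⟨false,1,⟨0,[(1,0)]⟩,⟨7,[(2,7),(6,5),(5,1),(16,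
  3),(9,2),(4,2)]⟩⟩,.o ⟨false,1,⟨0,[(24,0),(6,0)]⟩,⟨1,[(2,1),(6,1),(32,0),(4,0)]⟩⟩]⟩))) (.Q [0,0,-1,
  0,1,0,2,0,-1,-1,2,-1] (.p false [0,0,0,0,1] [-1,0,2] (⟨0,[(25,0)]⟩,⟨0,[(24,0)]⟩) .k 2 (⟨2,[(5,4),
  (26,0),(0,0),(4,2)]⟩,⟨0,[(31,1)]⟩) .k (.r 0 ⟨6,[(2,2),(4,2),(5,10),(23,1)]⟩ ⟨13,[(6,7),(12,1),(7,
  11),(2,7),(9,0),(2,7),(1,12)]⟩)) (.Q [0,-1,-2,0,1,0,1,0,-1,0,1,-1] (.p true [0,0,1] [0,0,0,0,1]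
  (⟨0,[(33,0)]⟩,⟨0,[(32,0)]⟩) .k 2 (⟨0,[(26,0)]⟩,⟨0,[(25,0)]⟩) .k (.r (-1) ⟨6,[(7,0),(12,1),(7,4),
  (2,0),(9,0),(2,0),(1,5)]⟩ ⟨6,[(3,0),(4,0),(5,5),(23,2)]⟩)) (.R ⟨0,false,false,true,[1,-1,-1],[1,0,
  0,0,-1],[1],(⟨0,[(22,0)]⟩,⟨22,[(24,2),(0,2),(8,22),(0,4),(4,5),(0,2)]⟩),(⟨0,[(26,0)]⟩,⟨0,[(27,
  0)]⟩),⟨2,[(7,1),(26,0),(0,0),(4,2)]⟩,.k,.k,(.r (-1) ⟨23,[(4,4),(10,13),(1,7),(1,17),(0,6),(9,9),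
  (11,0)]⟩ ⟨3,[(8,1),(22,4),(0,4),(12,9)]⟩),(.r 0 ⟨2,[(4,0),(6,0),(3,0),(1,0),(12,0)]⟩ ⟨0,[(29,0),
  (2,0),(12,0),(1,0)]⟩),.k,.k,⟨true,0,⟨0,[]⟩,⟨1,[(31,0),(0,0)]⟩⟩,⟨false,1,⟨13,[(0,9),(0,0),(2,0),
  (19,2),(14,4),(1,0)]⟩,⟨0,[(25,0),(6,0)]⟩⟩,⟨true,0,⟨3,[(8,1),(22,2),(0,2),(12,5)]⟩,⟨2,[(4,0),(6,0),
  (3,0),(1,0),(12,0)]⟩⟩,⟨false,1,⟨7,[(1,3),(0,3),(5,5),(22,6),(0,2),(12,13),(1,3)]⟩,⟨1,[(11,1),(13,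
  1),(16,0),(4,0)]⟩⟩,⟨false,0,⟨0,[]⟩,⟨0,[]⟩⟩,⟨false,0,⟨0,[]⟩,⟨0,[]⟩⟩,[.a ⟨true,0,⟨6,[(1,0),(0,5),(5,
  2),(22,3),(9,0),(3,2)]⟩,⟨0,[(25,0)]⟩⟩ ⟨true,0,⟨0,[]⟩,⟨1,[(31,0),(0,0)]⟩⟩ ⟨false,1,⟨13,[(0,9),(0,
  0),(2,0),(19,2),(14,4),(1,0)]⟩,⟨0,[(25,0),(6,0)]⟩⟩,.e ⟨false,1,⟨1,[(46,0),(0,0)]⟩,⟨0,[(49,0)]⟩⟩
  ⟨false,1,⟨0,[(0,0)]⟩,⟨0,[(25,0),(6,0),(16,0)]⟩⟩,.o ⟨false,0,⟨0,[(32,0)]⟩,⟨3,[(4,1),(19,0),(0,0),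
  (16,0)]⟩⟩,.o ⟨false,0,⟨1,[(31,0),(0,2)]⟩,⟨0,[(5,0)]⟩⟩]⟩) (.R ⟨0,false,false,true,[1,-1,-1],[1,0,0,
  0,-1],[1],(⟨0,[(22,0)]⟩,⟨22,[(24,2),(0,2),(8,22),(0,4),(4,5),(0,2)]⟩),(⟨0,[(26,0)]⟩,⟨0,[(27,0)]⟩),
  ⟨2,[(7,1),(26,0),(0,0),(4,2)]⟩,.k,.k,(.r (-1) ⟨23,[(4,4),(10,13),(1,7),(1,17),(0,6),(9,9),(11,
  0)]⟩ ⟨3,[(8,1),(22,4),(0,4),(12,9)]⟩),(.r 0 ⟨2,[(4,0),(6,0),(3,0),(1,0),(12,0)]⟩ ⟨0,[(29,0),(2,0),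
  (12,0),(1,0)]⟩),.k,.k,⟨true,0,⟨0,[]⟩,⟨1,[(31,0),(0,0)]⟩⟩,⟨false,1,⟨0,[(1,0),(26,0)]⟩,⟨7,[(0,3),
  (20,1),(2,0),(0,4),(16,0),(4,1)]⟩⟩,⟨true,0,⟨3,[(8,1),(22,2),(0,2),(12,5)]⟩,⟨2,[(4,0),(6,0),(3,0),
  (1,0),(12,0)]⟩⟩,⟨false,1,⟨7,[(1,3),(0,3),(5,5),(22,6),(0,2),(12,13),(1,3)]⟩,⟨1,[(11,1),(13,1),(16,
  0),(4,0)]⟩⟩,⟨false,0,⟨0,[]⟩,⟨0,[]⟩⟩,⟨false,0,⟨0,[]⟩,⟨0,[]⟩⟩,[.a ⟨true,0,⟨6,[(1,0),(0,5),(5,2),(22,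
  3),(9,0),(3,2)]⟩,⟨0,[(25,0)]⟩⟩ ⟨true,0,⟨0,[]⟩,⟨1,[(31,0),(0,0)]⟩⟩ ⟨false,1,⟨0,[(1,0),(26,0)]⟩,⟨7,
  [(0,3),(20,1),(2,0),(0,4),(16,0),(4,1)]⟩⟩,.o ⟨false,1,⟨7,[(1,3),(0,3),(5,1),(22,0),(0,4),(12,1),
  (1,3)]⟩,⟨0,[(0,0),(4,0)]⟩⟩,.o ⟨false,0,⟨0,[(32,0)]⟩,⟨3,[(4,1),(19,0),(0,0),(16,0)]⟩⟩,.o ⟨false,0,
  ⟨1,[(31,0),(0,2)]⟩,⟨0,[(5,0)]⟩⟩]⟩)) (.Q [0,0,0,0,0,0,0,0,-1,1,0,-1] (.p false [0,0,0,0,1] [1] (⟨0,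
  [(26,0)]⟩,⟨0,[(25,0)]⟩) .k 1 (⟨0,[]⟩,⟨0,[]⟩) .k .k) (.S ⟨1,0,[],[1,0,0,0,-1],[0,-1],(⟨0,[(26,0)]⟩,
  ⟨0,[(27,0)]⟩),⟨0,[(3,0)]⟩,.k,(.r (-1) ⟨7,[(19,3),(0,1),(3,0),(0,0),(16,0),(4,1)]⟩ ⟨1,[(15,0),(13,
  0),(2,0),(12,1),(3,0)]⟩),⟨false,1,⟨1,[(24,0),(0,0),(21,0)]⟩,⟨0,[]⟩⟩,⟨true,0,⟨0,[(49,0)]⟩,⟨0,[]⟩⟩,
  ⟨true,0,⟨0,[(45,0)]⟩,⟨0,[(44,0)]⟩⟩,⟨false,0,⟨0,[(45,0)]⟩,⟨3,[(20,1),(3,0),(0,0),(16,0),(4,1)]⟩⟩,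
  [.e ⟨false,1,⟨1,[(46,0),(0,0)]⟩,⟨0,[(49,0)]⟩⟩ ⟨false,1,⟨1,[(24,0),(0,0),(20,0)]⟩,⟨0,[]⟩⟩,.o
  ⟨false,1,⟨1,[(0,1),(41,0),(4,0)]⟩,⟨5,[(1,5),(2,4),(3,1),(0,4),(19,0),(1,10),(10,5),(2,1)]⟩⟩,.e
  ⟨false,1,⟨0,[(47,0)]⟩,⟨0,[(49,0)]⟩⟩ ⟨false,1,⟨1,[(24,0),(0,0),(21,0)]⟩,⟨0,[]⟩⟩,.a ⟨true,0,⟨1,[(0,
  1),(30,0),(0,0)]⟩,⟨0,[(1,0),(2,0)]⟩⟩ ⟨true,1,⟨1,[(46,0),(0,0)]⟩,⟨0,[(8,0),(0,1),(21,3),(10,0),(2,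
  0)]⟩⟩ ⟨false,1,⟨1,[(46,0),(0,0)]⟩,⟨1,[(31,0),(0,0)]⟩⟩]⟩) (.R ⟨1,false,false,true,[1,0,0,0,-1],[0,
  -1,1],[],(⟨0,[(26,0)]⟩,⟨0,[(27,0)]⟩),(⟨0,[(23,0)]⟩,⟨22,[(24,2),(0,2),(7,22),(1,4),(4,5),(0,2)]⟩),
  ⟨0,[(3,0)]⟩,.k,.k,(.r (-1) ⟨7,[(19,3),(0,1),(3,0),(0,0),(16,0),(4,1)]⟩ ⟨1,[(15,0),(13,0),(2,0),
  (12,1),(3,0)]⟩),(.r (-1) ⟨1,[(15,1),(8,0),(0,0),(19,1),(1,0)]⟩ ⟨0,[(4,0),(1,3),(4,6),(19,4),(10,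
  2),(2,9),(1,2)]⟩),.k,.k,⟨false,1,⟨1,[(15,1),(29,1),(0,0),(0,0)]⟩,⟨0,[(13,0)]⟩⟩,⟨true,0,⟨0,[(0,0),
  (30,0)]⟩,⟨3,[(2,3),(5,1),(22,0),(0,0),(12,1)]⟩⟩,⟨true,0,⟨0,[(49,0)]⟩,⟨0,[]⟩⟩,⟨false,0,⟨0,[(0,0),
  (13,0)]⟩,⟨0,[(2,0),(42,0),(1,0)]⟩⟩,⟨false,0,⟨0,[(45,0)]⟩,⟨3,[(20,1),(3,0),(0,0),(16,0),(4,1)]⟩⟩,
  ⟨false,0,⟨0,[(0,0),(28,0)]⟩,⟨0,[(2,0),(44,0)]⟩⟩,[.e ⟨false,1,⟨1,[(24,0),(0,0),(20,0)]⟩,⟨0,[]⟩⟩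
  ⟨false,0,⟨2,[(0,2),(3,0),(3,0),(2,0),(2,0),(14,0)]⟩,⟨9,[(2,5),(12,3),(5,1),(2,3),(16,0),(3,9),(0,
  1),(0,4)]⟩⟩,.o ⟨false,1,⟨1,[(14,1),(27,0),(4,0)]⟩,⟨3,[(9,1),(5,1),(26,0),(2,3),(1,0)]⟩⟩,.o ⟨false,
  1,⟨0,[(24,0)]⟩,⟨0,[(0,0)]⟩⟩,.a ⟨true,0,⟨3,[(2,3),(5,1),(22,4),(0,0),(12,1)]⟩,⟨0,[(1,0),(2,0)]⟩⟩
  ⟨false,1,⟨1,[(46,0),(0,0)]⟩,⟨1,[(31,0),(0,0)]⟩⟩ ⟨true,0,⟨2,[(0,2),(3,0),(3,0),(2,0),(2,0),(14,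
  0)]⟩,⟨1,[(2,1),(28,0),(0,0),(12,1)]⟩⟩]⟩))))))))))

theorem ok33 : chk K t33 l24 = true := by decide +kernel


end Helper25.S1T.Ypp_1cP3
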