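import Pool.Agent.Helper25.S1T.Ypp_1cP4_q

set_option autoImplicit false
set_option linter.all false

namespace Helper25.S1T.Ypp_1cP4

open Helper25.KG Helper25.KW Helper55.KE Helper11.CT

noncomputable def t10 : Tre :=
  (.Q [0,0,1,0,-2,0,0,0,2,0,0,2] (.p true [1,0,-1,0,1] [1,0,-1,0,-1] (⟨0,[(10,0),(5,0)]⟩,⟨0,[(0,0),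
  (5,0)]⟩) .k 2 (⟨0,[(0,0),(4,0)]⟩,⟨0,[(10,0),(6,0)]⟩) .k (.r 0 ⟨0,[(30,1)]⟩ ⟨0,[(28,0)]⟩)) (.Q [0,
  0,0,0,-1,0,0,0,1,1,0,1] (.p true [1,-1,0,0,1] [] (⟨0,[(11,0),(9,0)]⟩,⟨0,[(1,0)]⟩) (.r 0 ⟨0,[(25,
  0)]⟩ ⟨1,[(8,0),(0,0),(5,0),(0,0),(10,1),(1,0)]⟩) 0 (⟨0,[]⟩,⟨0,[]⟩) .k .k) (.R ⟨0,false,false,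
  false,[0,1,0,0,-1],[0,0,0,0,1],[1,-1,1,1],(⟨0,[(2,0)]⟩,⟨0,[(12,0),(9,0)]⟩),(⟨0,[(12,0)]⟩,⟨0,[(11,
  0)]⟩),⟨0,[(12,0)]⟩,(.r (-1) ⟨1,[(9,0),(0,0),(5,0),(0,0),(10,1),(1,0)]⟩ ⟨0,[(26,0)]⟩),.k,.k,(.r
  (-1) ⟨1,[(16,0),(0,0),(10,1),(1,1)]⟩ ⟨1,[(24,0),(1,0),(0,0)]⟩),.k,.k,⟨false,1,⟨0,[(28,0),(1,0)]⟩,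
  ⟨1,[(24,0),(1,0),(0,0)]⟩⟩,⟨true,(-2),⟨0,[(1,0)]⟩,⟨0,[(9,1)]⟩⟩,⟨true,0,⟨0,[]⟩,⟨0,[(32,0)]⟩⟩,⟨false,
  (-2),⟨0,[(1,0),(24,0)]⟩,⟨0,[(9,1),(18,0),(1,0)]⟩⟩,⟨false,0,⟨0,[]⟩,⟨0,[]⟩⟩,⟨false,0,⟨0,[]⟩,⟨0,[]⟩⟩,
  [.e ⟨false,1,⟨1,[(9,0),(0,0),(17,1),(1,0)]⟩,⟨0,[(26,0)]⟩⟩ ⟨false,(-2),⟨0,[(1,0),(24,0),(1,0)]⟩,⟨1,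
  [(9,3),(19,0),(0,0)]⟩⟩,.o ⟨false,0,⟨5,[(1,1),(8,1),(14,2),(3,0)]⟩,⟨0,[(9,0)]⟩⟩,.o ⟨false,2,⟨1,[(9,
  1),(15,0),(3,0)]⟩,⟨3,[(1,1),(14,0),(0,0)]⟩⟩,.a ⟨true,1,⟨0,[(9,0)]⟩,⟨0,[(0,0)]⟩⟩ ⟨false,1,⟨0,[(28,
  0),(1,0)]⟩,⟨0,[(27,0)]⟩⟩ ⟨true,(-2),⟨0,[(1,0),(24,0),(1,0)]⟩,⟨0,[(9,1)]⟩⟩]⟩) (.Q [0,0,0,-2,1,0,0,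
  0,-1,1,0,-1] (.p false [0,0,0,0,1] [1] (⟨0,[(12,0)]⟩,⟨0,[(11,0)]⟩) .k 1 (⟨0,[]⟩,⟨0,[]⟩) .k .k)
  (.Q [0,0,0,-1,0,0,0,0,0,1] (.pp false [-1,1]) (.R ⟨0,false,false,false,[0,1,0,0,-1],[0,1],[1,0,1,
  1],(⟨0,[(4,0)]⟩,⟨0,[(14,0),(9,0)]⟩),(⟨0,[(25,0)]⟩,⟨0,[(24,0)]⟩),⟨0,[(14,0)]⟩,(.r (-1) ⟨1,[(11,0),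
  (0,0),(5,0),(0,0),(10,1),(1,0)]⟩ ⟨0,[(28,0)]⟩),.k,.k,.k,.k,.k,⟨true,0,⟨0,[]⟩,⟨1,[(18,0),(0,0)]⟩⟩,
  ⟨false,0,⟨2,[(3,0),(8,0),(18,1)]⟩,⟨0,[(11,0)]⟩⟩,⟨false,0,⟨0,[]⟩,⟨1,[(11,0),(0,0),(19,0)]⟩⟩,⟨true,
  (-1),⟨0,[(5,0)]⟩,⟨0,[(11,0)]⟩⟩,⟨false,0,⟨0,[]⟩,⟨0,[]⟩⟩,⟨false,0,⟨0,[]⟩,⟨0,[]⟩⟩,[.a ⟨true,0,⟨0,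
  [(30,0)]⟩,⟨0,[(0,0)]⟩⟩ ⟨false,0,⟨0,[(30,0)]⟩,⟨5,[(1,1),(10,1),(14,0),(0,1),(2,1),(0,0)]⟩⟩ ⟨true,
  (-1),⟨3,[(3,1),(14,0),(0,0),(10,3)]⟩,⟨1,[(1,0),(0,0)]⟩⟩,.o ⟨false,1,⟨1,[(27,0),(2,1),(1,0)]⟩,⟨0,
  [(29,0)]⟩⟩,.o ⟨false,2,⟨1,[(11,1),(15,0),(3,0)]⟩,⟨3,[(3,1),(14,0),(0,0)]⟩⟩,.o ⟨false,1,⟨0,[(2,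
  0)]⟩,⟨0,[(12,0)]⟩⟩]⟩) (.Q [0,0,0,0,0,0,-1,-1,0,0,-1] (.p false [0,0,1] [] (⟨0,[(21,0)]⟩,⟨0,[(20,
  0)]⟩) .k 0 (⟨0,[]⟩,⟨0,[]⟩) .k .k) (.S ⟨1,0,[0,0,0,0,0,0,0,1],[0,0,1],[0,1,0,0,0,0,0,1],(⟨0,[(22,
  0)]⟩,⟨0,[(21,0)]⟩),⟨0,[(11,0)]⟩,.k,.k,⟨true,0,⟨0,[(35,0)]⟩,⟨0,[]⟩⟩,⟨false,1,⟨1,[(12,0),(0,0),(19,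
  0)]⟩,⟨0,[]⟩⟩,⟨false,0,⟨0,[(31,0)]⟩,⟨8,[(2,3),(1,0),(8,1),(14,1),(0,0),(3,4)]⟩⟩,⟨true,0,⟨0,[(31,
  0)]⟩,⟨0,[(30,0)]⟩⟩,[.o ⟨false,1,⟨1,[(17,1),(10,0),(4,0)]⟩,⟨0,[(0,0)]⟩⟩,.o ⟨false,1,⟨0,[(1,0),(5,
  0),(25,0)]⟩,⟨0,[(18,0)]⟩⟩,.o ⟨false,1,⟨1,[(19,1),(8,0),(3,0)]⟩,⟨0,[(8,0)]⟩⟩,.a ⟨true,0,⟨0,[(19,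
  0)]⟩,⟨0,[(16,0)]⟩⟩ ⟨true,0,⟨0,[(1,0),(5,0),(8,0)]⟩,⟨0,[(0,0),(18,0)]⟩⟩ ⟨false,1,⟨0,[(1,0),(5,0),
  (8,0),(16,0)]⟩,⟨0,[(0,0),(18,0)]⟩⟩]⟩) (.I [0,0,1,1,0,0,0,-1] (.R ⟨1,false,false,true,[0,0,1],[0,0,
  1,0,-1],[1,0,0,-1,0,0,0,1],(⟨0,[(23,0)]⟩,⟨0,[(22,0)]⟩),(⟨0,[(6,0),(5,0)]⟩,⟨0,[(16,0),(5,0)]⟩),⟨0,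
  [(12,0)]⟩,.k,.k,.k,.k,(.r 0 ⟨0,[(30,0)]⟩ ⟨3,[(0,1),(12,0),(0,0),(3,1),(2,1),(10,1),(1,2)]⟩),.k,
  ⟨false,1,⟨5,[(3,1),(10,1),(14,0),(0,1),(2,1),(0,0)]⟩,⟨0,[(32,0)]⟩⟩,⟨true,1,⟨0,[(13,0)]⟩,⟨3,[(5,1),
  (14,0),(0,0)]⟩⟩,⟨false,1,⟨8,[(3,3),(1,0),(8,1),(14,1),(0,0),(3,4)]⟩,⟨0,[(32,0)]⟩⟩,⟨true,1,⟨0,[(13,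
  0)]⟩,⟨0,[(7,0)]⟩⟩,⟨true,0,⟨0,[]⟩,⟨0,[(36,0)]⟩⟩,⟨true,1,⟨0,[(13,0),(18,0)]⟩,⟨1,[(5,0),(24,0),(0,
  0)]⟩⟩,[.o ⟨false,1,⟨0,[(1,0),(2,0)]⟩,⟨5,[(5,1),(8,1),(4,5),(13,0),(0,2)]⟩⟩,.o ⟨false,2,⟨1,[(1,1),
  (11,1),(15,0),(4,0)]⟩,⟨0,[(0,0),(3,0),(0,0),(11,0),(12,0)]⟩⟩,.o ⟨false,1,⟨1,[(20,1),(8,0),(3,0)]⟩,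
  ⟨0,[(9,0)]⟩⟩,.a ⟨true,0,⟨0,[(20,0)]⟩,⟨0,[(17,0)]⟩⟩ ⟨false,1,⟨0,[(1,0),(7,0),(20,0),(3,0)]⟩,⟨0,[(0,
  0)]⟩⟩ ⟨true,1,⟨0,[(1,0),(2,0),(12,0)]⟩,⟨1,[(0,1),(4,0),(24,0),(0,0)]⟩⟩]⟩) (.S ⟨1,0,[0,0,0,0,0,0,0,
  1],[0,0,1],[1,1,0,-1,0,0,0,1],(⟨0,[(23,0)]⟩,⟨0,[(22,0)]⟩),⟨0,[(12,0)]⟩,.k,.k,⟨true,0,⟨0,[(31,0)]⟩,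
  ⟨0,[(32,0)]⟩⟩,⟨false,1,⟨1,[(13,0),(0,0),(19,0)]⟩,⟨0,[]⟩⟩,⟨false,0,⟨0,[]⟩,⟨1,[(13,0),(0,0),(19,
  0)]⟩⟩,⟨true,0,⟨0,[(32,0)]⟩,⟨0,[(31,0)]⟩⟩,[.o ⟨false,0,⟨0,[(0,0),(1,0),(17,0)]⟩,⟨1,[(13,0),(0,0),
  (4,1),(14,0)]⟩⟩,.o ⟨false,1,⟨1,[(1,1),(27,0),(4,0)]⟩,⟨0,[(19,0)]⟩⟩,.o ⟨false,1,⟨1,[(20,1),(8,0),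
  (3,0)]⟩,⟨0,[(9,0)]⟩⟩,.a ⟨true,0,⟨0,[(20,0)]⟩,⟨0,[(17,0)]⟩⟩ ⟨false,0,⟨0,[(0,0)]⟩,⟨0,[(19,0),(0,0),
  (11,0),(1,0)]⟩⟩ ⟨true,0,⟨1,[(0,0),(0,0),(0,0),(14,0)]⟩,⟨0,[(19,0),(0,0)]⟩⟩]⟩)))) (.Q [0,0,0,0,0,0,
  -1,-1,0,0,-1] (.p false [0,0,1] [] (⟨0,[(20,0)]⟩,⟨0,[(19,0)]⟩) .k 0 (⟨0,[]⟩,⟨0,[]⟩) .k .k) (.S ⟨1,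
  0,[0,0,0,0,0,0,0,1],[0,0,1],[0,1,0,0,0,0,0,1],(⟨0,[(21,0)]⟩,⟨0,[(20,0)]⟩),⟨0,[(10,0)]⟩,.k,.k,
  ⟨true,0,⟨0,[(34,0)]⟩,⟨0,[]⟩⟩,⟨false,1,⟨1,[(11,0),(0,0),(19,0)]⟩,⟨0,[]⟩⟩,⟨false,0,⟨0,[(30,0)]⟩,⟨0,
  [(29,0),(2,0)]⟩⟩,⟨true,0,⟨0,[(30,0)]⟩,⟨0,[(29,0)]⟩⟩,[.o ⟨false,1,⟨1,[(16,1),(10,0),(4,0)]⟩,⟨0,[(0,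
  0)]⟩⟩,.o ⟨false,1,⟨1,[(1,0),(0,0),(3,1),(25,1)]⟩,⟨0,[(17,0)]⟩⟩,.o ⟨false,1,⟨1,[(18,1),(8,0),(3,
  0)]⟩,⟨0,[(7,0)]⟩⟩,.a ⟨true,0,⟨0,[(18,0)]⟩,⟨0,[(15,0)]⟩⟩ ⟨true,0,⟨1,[(1,0),(0,0),(3,1),(8,1)]⟩,⟨0,
  [(0,0),(17,0)]⟩⟩ ⟨false,1,⟨1,[(1,0),(0,0),(3,1),(8,1),(16,1)]⟩,⟨0,[(0,0),(17,0)]⟩⟩]⟩) (.Q [0,0,0,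
  1,0,0,-1,-1,0,0,-1] (.p false [0,0,1] [] (⟨0,[(21,0)]⟩,⟨0,[(20,0)]⟩) .k 0 (⟨0,[]⟩,⟨0,[]⟩) .k .k)
  (.R ⟨2,true,false,false,[0,1],[0,0,1],[0,1,1,1],(⟨0,[]⟩,⟨0,[]⟩),(⟨0,[(22,0)]⟩,⟨0,[(21,0)]⟩),⟨0,
  []⟩,.k,.k,.k,.k,.k,.k,⟨false,0,⟨0,[(0,0),(18,0),(9,0),(1,0)]⟩,⟨0,[(1,0),(6,0),(20,0),(3,0)]⟩⟩,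
  ⟨true,0,⟨0,[(19,0)]⟩,⟨0,[(8,0)]⟩⟩,⟨true,0,⟨0,[(35,0)]⟩,⟨0,[]⟩⟩,⟨false,1,⟨0,[(7,0),(25,0)]⟩,⟨0,[(0,
  0)]⟩⟩,⟨false,0,⟨0,[(31,0)]⟩,⟨0,[(30,0),(2,0)]⟩⟩,⟨true,0,⟨0,[(1,0)]⟩,⟨0,[(18,0)]⟩⟩,[]⟩) (.S ⟨1,0,
  [0,0,0,0,0,0,0,1],[0,0,1],[0,1,0,0,0,0,0,1],(⟨0,[(22,0)]⟩,⟨0,[(21,0)]⟩),⟨0,[(11,0)]⟩,.k,.k,⟨true,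
  0,⟨0,[(35,0)]⟩,⟨0,[]⟩⟩,⟨false,1,⟨1,[(12,0),(0,0),(19,0)]⟩,⟨0,[]⟩⟩,⟨false,0,⟨0,[(31,0)]⟩,⟨0,[(30,
  0),(2,0)]⟩⟩,⟨true,0,⟨0,[(31,0)]⟩,⟨0,[(30,0)]⟩⟩,[.o ⟨false,0,⟨1,[(0,1),(1,0),(0,0)]⟩,⟨1,[(12,0),(0,
  0),(4,1),(14,0)]⟩⟩,.o ⟨false,1,⟨1,[(1,1),(26,0),(4,0)]⟩,⟨0,[(18,0)]⟩⟩,.o ⟨false,1,⟨1,[(19,1),(8,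
  0),(3,0)]⟩,⟨0,[(8,0)]⟩⟩,.a ⟨true,0,⟨0,[(19,0)]⟩,⟨0,[(16,0)]⟩⟩ ⟨false,0,⟨1,[(0,1),(1,0),(0,0),(12,
  1)]⟩,⟨0,[(18,0),(0,0),(13,0)]⟩⟩ ⟨true,0,⟨1,[(0,1),(1,0),(0,0),(12,1)]⟩,⟨0,[(18,0),(0,0)]⟩⟩]⟩)))))
  (.Q [0,0,1,0,0,0,0,0,-1,1,0,-1] (.p false [0,0,0,0,1] [1] (⟨0,[(11,0)]⟩,⟨0,[(10,0)]⟩) .k 1 (⟨0,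
  []⟩,⟨0,[]⟩) .k .k) (.Q [0,2,0,1,-1,0,0,0,1,-1,0,1] (.p true [0,0,0,0,1] [1] (⟨0,[(12,0)]⟩,⟨0,[(11,
  0)]⟩) .k 1 (⟨0,[]⟩,⟨0,[]⟩) .k .k) (.S ⟨1,0,[0,2,1,1],[0,1,0,0,1],[1,1,1],(⟨0,[(13,0),(7,0)]⟩,⟨0,
  [(3,0),(4,0),(0,0)]⟩),⟨0,[(13,0)]⟩,(.r 0 ⟨1,[(17,0),(0,0),(10,1),(3,1)]⟩ ⟨0,[(27,0),(3,0)]⟩),.k,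
  ⟨false,1,⟨0,[(28,0),(2,0)]⟩,⟨0,[(29,0)]⟩⟩,⟨true,0,⟨0,[(33,0)]⟩,⟨0,[]⟩⟩,⟨true,0,⟨0,[]⟩,⟨0,[(33,
  0)]⟩⟩,⟨false,0,⟨0,[(29,0)]⟩,⟨0,[(28,0),(2,0)]⟩⟩,[.o ⟨false,(-1),⟨0,[(0,0)]⟩,⟨1,[(1,1),(24,0),(0,
  1),(3,2)]⟩⟩,.e ⟨false,0,⟨0,[]⟩,⟨2,[(2,0),(8,1),(18,0)]⟩⟩ ⟨false,0,⟨0,[(29,0),(3,0)]⟩,⟨0,[(27,0),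
  (3,0)]⟩⟩,.a ⟨true,0,⟨1,[(4,1),(25,0),(0,0)]⟩,⟨0,[(1,0)]⟩⟩ ⟨false,0,⟨1,[(17,0),(0,0)]⟩,⟨1,[(30,0),
  (0,0)]⟩⟩ ⟨true,(-1),⟨0,[(0,0),(0,0)]⟩,⟨0,[(27,0),(3,0)]⟩⟩,.o ⟨false,0,⟨1,[(4,1),(21,0),(4,0)]⟩,⟨0,
  [(10,0)]⟩⟩]⟩) (.Q [0,0,-1,0,1,0,0,0,-1,0,0,-1] (.p false [0,0,0,0,1] [] (⟨0,[(13,0)]⟩,⟨0,[(12,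
  0)]⟩) .k 0 (⟨0,[]⟩,⟨0,[]⟩) .k .k) (.R ⟨0,false,false,true,[0,0,0,0,1],[1,-1],[1,1],(⟨0,[(14,0)]⟩,
  ⟨0,[(13,0)]⟩),(⟨0,[(24,0)]⟩,⟨0,[(25,0)]⟩),⟨0,[(4,0)]⟩,.k,.k,(.r 0 ⟨0,[(28,0)]⟩ ⟨7,[(3,1),(8,3),(5,
  4),(0,4),(10,7),(1,3)]⟩),(.r 0 ⟨1,[(18,0),(0,0),(10,1),(3,1)]⟩ ⟨0,[(28,0),(3,0)]⟩),.k,.k,⟨false,0,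
  ⟨0,[(30,0)]⟩,⟨1,[(29,1),(1,0),(0,0)]⟩⟩,⟨true,0,⟨0,[(2,0)]⟩,⟨1,[(5,1),(21,0),(4,0)]⟩⟩,⟨true,0,⟨0,
  []⟩,⟨0,[(34,0)]⟩⟩,⟨false,1,⟨7,[(1,5),(0,1),(0,0),(8,1),(13,0),(2,1)]⟩,⟨1,[(5,1),(21,0),(2,1),(1,
  0)]⟩⟩,⟨false,0,⟨0,[]⟩,⟨0,[]⟩⟩,⟨false,0,⟨0,[]⟩,⟨0,[]⟩⟩,[.o ⟨false,0,⟨0,[(29,0)]⟩,⟨1,[(27,0),(2,1),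
  (1,0)]⟩⟩,.a ⟨true,0,⟨1,[(1,0),(3,0),(16,0),(1,0),(4,0)]⟩,⟨0,[(30,0)]⟩⟩ ⟨true,0,⟨0,[]⟩,⟨1,[(18,0),
  (0,0)]⟩⟩ ⟨false,1,⟨0,[(1,0),(24,0)]⟩,⟨1,[(5,1),(21,0),(2,1),(1,0)]⟩⟩,.o ⟨false,0,⟨1,[(5,1),(21,0),
  (4,0)]⟩,⟨0,[(11,0)]⟩⟩,.o ⟨false,0,⟨1,[(5,1),(12,0),(0,0),(7,0),(4,0)]⟩,⟨0,[(0,0)]⟩⟩]⟩) (.R ⟨0,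
  false,false,true,[0,0,0,0,1],[1,-1,0,0,1],[1,2,-1,-1],(⟨0,[(14,0)]⟩,⟨0,[(13,0)]⟩),(⟨0,[(14,0),(9,
  0)]⟩,⟨0,[(4,0)]⟩),⟨0,[(4,0)]⟩,.k,(.r 0 ⟨0,[(28,0)]⟩ ⟨7,[(3,1),(8,3),(5,4),(0,4),(10,7),(1,3)]⟩),
  (.r 0 ⟨0,[(28,0)]⟩ ⟨7,[(3,1),(8,3),(5,4),(0,4),(10,7),(1,3)]⟩),.k,.k,.k,⟨true,0,⟨0,[]⟩,⟨1,[(18,0),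
  (0,0)]⟩⟩,⟨false,0,⟨0,[(22,0),(1,0)]⟩,⟨1,[(27,0),(3,0)]⟩⟩,⟨true,0,⟨0,[(28,0)]⟩,⟨1,[(18,0),(0,0),
  (10,1)]⟩⟩,⟨false,0,⟨1,[(1,0),(3,0),(16,0),(1,0),(4,0)]⟩,⟨1,[(27,0),(2,1),(1,0)]⟩⟩,⟨false,0,⟨0,[]⟩,
  ⟨0,[]⟩⟩,⟨false,0,⟨0,[]⟩,⟨0,[]⟩⟩,[.o ⟨false,(-1),⟨0,[(5,0),(23,0)]⟩,⟨0,[(1,0),(25,0),(2,1)]⟩⟩,.o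
  ⟨false,(-1),⟨0,[(0,0),(27,0)]⟩,⟨3,[(3,1),(14,0),(0,0),(7,1),(2,3),(1,1)]⟩⟩,.o ⟨false,0,⟨1,[(5,1),
  (21,0),(4,0)]⟩,⟨0,[(11,0)]⟩⟩,.a ⟨true,(-1),⟨0,[(0,0)]⟩,⟨0,[(2,0),(28,0)]⟩⟩ ⟨true,0,⟨0,[(28,1),(1,
  0)]⟩,⟨1,[(0,1),(1,1),(24,0),(2,1),(1,0)]⟩⟩ ⟨false,0,⟨0,[(22,0),(1,0),(3,0)]⟩,⟨0,[(0,0),(0,0),(25,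
  0),(2,1)]⟩⟩]⟩))) (.I [1,2,1,0,-1] (.Q [0,-1,0,0,1,0,0,0,-1,1,0,-1] (.p false [0,0,0,0,1] [1] (⟨0,
  [(13,0)]⟩,⟨0,[(12,0)]⟩) .k 1 (⟨0,[]⟩,⟨0,[]⟩) .k .k) (.S ⟨1,0,[],[1,0,0,0,-1],[0,-1],(⟨0,[(13,0)]⟩,
  ⟨0,[(14,0)]⟩),⟨0,[(4,0),(4,0),(0,0)]⟩,.k,(.r (-1) ⟨0,[(28,0),(3,0)]⟩ ⟨1,[(18,0),(0,0),(10,1),(3,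
  1)]⟩),⟨false,1,⟨3,[(0,1),(11,1),(14,0),(4,0)]⟩,⟨0,[]⟩⟩,⟨true,0,⟨0,[(34,0)]⟩,⟨0,[]⟩⟩,⟨true,0,⟨0,
  [(30,0)]⟩,⟨0,[(29,0)]⟩⟩,⟨false,0,⟨0,[(30,0)]⟩,⟨0,[(29,0),(2,0)]⟩⟩,[.o ⟨false,1,⟨0,[(11,0)]⟩,⟨1,
  [(2,1),(15,0),(0,0)]⟩⟩,.a ⟨true,1,⟨0,[(0,0)]⟩,⟨0,[(5,0)]⟩⟩ ⟨true,1,⟨0,[(32,0)]⟩,⟨0,[(1,0)]⟩⟩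
  ⟨false,1,⟨1,[(31,0),(0,0)]⟩,⟨0,[(34,0)]⟩⟩,.o ⟨false,1,⟨0,[(11,0)]⟩,⟨1,[(2,1),(15,0),(0,0)]⟩⟩,.o
  ⟨false,1,⟨3,[(3,1),(14,2),(0,2)]⟩,⟨0,[(2,0)]⟩⟩]⟩) (.Q [0,0,1,0,-1,0,0,0,1,0,0,1] (.p true [0,0,0,
  0,1] [] (⟨0,[(14,0)]⟩,⟨0,[(13,0)]⟩) .k 0 (⟨0,[]⟩,⟨0,[]⟩) .k .k) (.Q [0,0,0,-1,0,0,0,0,0,1] (.pp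
  false [-1,1]) (.R ⟨1,false,false,true,[1,0,0,0,-1],[1,-1],[0,-1],(⟨0,[(15,0)]⟩,⟨0,[(16,0)]⟩),(⟨0,
  [(26,0)]⟩,⟨0,[(27,0)]⟩),⟨0,[(6,0),(4,0),(0,0)]⟩,.k,.k,(.r (-1) ⟨0,[(30,0),(3,0)]⟩ ⟨1,[(20,0),(0,
  0),(10,1),(3,1)]⟩),(.r (-1) ⟨7,[(5,1),(8,3),(5,4),(0,4),(10,7),(1,3)]⟩ ⟨0,[(30,0)]⟩),.k,.k,⟨false,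
  1,⟨0,[(32,0),(1,0)]⟩,⟨1,[(28,0),(1,0),(0,0)]⟩⟩,⟨true,(-1),⟨0,[(1,0)]⟩,⟨0,[(13,0)]⟩⟩,⟨false,1,⟨7,
  [(5,1),(8,3),(5,0),(0,0),(12,3)]⟩,⟨0,[]⟩⟩,⟨false,(-1),⟨0,[(1,0),(28,0)]⟩,⟨3,[(5,1),(14,0),(0,0),
  (10,3),(1,3)]⟩⟩,⟨true,0,⟨0,[(32,0)]⟩,⟨0,[(31,0)]⟩⟩,⟨false,(-1),⟨0,[(7,0)]⟩,⟨3,[(5,1),(14,0),(0,0),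
  (12,3)]⟩⟩,[.o ⟨false,0,⟨0,[(31,0)]⟩,⟨1,[(29,0),(2,1),(1,0)]⟩⟩,.a ⟨true,0,⟨0,[(0,0)]⟩,⟨0,[(32,
  0)]⟩⟩ ⟨true,1,⟨0,[(34,0)]⟩,⟨0,[(3,0)]⟩⟩ ⟨false,0,⟨0,[(0,0),(3,0)]⟩,⟨3,[(5,1),(14,0),(0,0),(10,
  3)]⟩⟩,.o ⟨false,1,⟨0,[(13,0)]⟩,⟨2,[(1,0),(2,0),(9,0),(14,0)]⟩⟩,.o ⟨false,1,⟨3,[(5,1),(14,2),(0,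
  2)]⟩,⟨0,[(4,0)]⟩⟩]⟩) (.Q [0,0,0,0,0,0,-1,-1,0,0,-1] (.p false [0,0,1] [] (⟨0,[(23,0)]⟩,⟨0,[(22,
  0)]⟩) .k 0 (⟨0,[]⟩,⟨0,[]⟩) .k .k) (.S ⟨1,0,[0,0,0,0,0,0,0,1],[0,0,1],[0,1,0,0,0,0,0,1],(⟨0,[(24,
  0)]⟩,⟨0,[(23,0)]⟩),⟨0,[(13,0)]⟩,.k,.k,⟨true,0,⟨0,[(37,0)]⟩,⟨0,[]⟩⟩,⟨false,1,⟨7,[(6,1),(8,3),(5,0),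
  (0,0),(12,3)]⟩,⟨0,[]⟩⟩,⟨false,0,⟨0,[(33,0)]⟩,⟨0,[(32,0),(2,0)]⟩⟩,⟨true,0,⟨0,[(33,0)]⟩,⟨0,[(32,
  0)]⟩⟩,[.o ⟨false,1,⟨1,[(19,1),(10,0),(4,0)]⟩,⟨0,[(0,0)]⟩⟩,.o ⟨false,1,⟨0,[(1,0),(7,0),(25,0)]⟩,⟨0,
  [(20,0)]⟩⟩,.o ⟨false,1,⟨1,[(21,1),(8,0),(3,0)]⟩,⟨0,[(10,0)]⟩⟩,.a ⟨true,0,⟨0,[(21,0)]⟩,⟨0,[(18,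
  0)]⟩⟩ ⟨true,0,⟨0,[(1,0),(7,0),(8,0)]⟩,⟨0,[(0,0),(20,0)]⟩⟩ ⟨false,1,⟨0,[(1,0),(7,0),(8,0),(16,0)]⟩,
  ⟨0,[(0,0),(20,0)]⟩⟩]⟩) (.Q [0,0,0,1,0,0,-1,-1,0,0,-1] (.p false [0,0,1] [] (⟨0,[(24,0)]⟩,⟨0,[(23,
  0)]⟩) .k 0 (⟨0,[]⟩,⟨0,[]⟩) .k .k) (.R ⟨2,true,false,true,[0,1],[0,0,1],[0,0,1,1],(⟨0,[]⟩,⟨0,[]⟩),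
  (⟨0,[(25,0)]⟩,⟨0,[(24,0)]⟩),⟨0,[]⟩,.k,.k,.k,.k,.k,.k,⟨false,1,⟨1,[(0,1),(21,1),(12,0),(0,0)]⟩,⟨0,
  [(1,0),(9,0),(20,0)]⟩⟩,⟨true,0,⟨0,[(22,0)]⟩,⟨0,[(11,0)]⟩⟩,⟨false,1,⟨7,[(7,1),(8,3),(5,0),(0,0),
  (12,3)]⟩,⟨0,[]⟩⟩,⟨true,0,⟨0,[(10,0)]⟩,⟨0,[(0,0)]⟩⟩,⟨true,0,⟨0,[(34,0)]⟩,⟨0,[(33,0)]⟩⟩,⟨false,0,⟨0,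
  [(1,0)]⟩,⟨0,[(21,0),(14,0)]⟩⟩,[]⟩) (.S ⟨1,0,[0,0,0,0,0,0,0,1],[0,0,1],[0,1,0,0,0,0,0,1],(⟨0,[(25,
  0)]⟩,⟨0,[(24,0)]⟩),⟨0,[(14,0)]⟩,.k,.k,⟨true,0,⟨0,[(38,0)]⟩,⟨0,[]⟩⟩,⟨false,1,⟨7,[(7,1),(8,3),(5,0),
  (0,0),(12,3)]⟩,⟨0,[]⟩⟩,⟨false,0,⟨0,[(34,0)]⟩,⟨0,[(33,0),(2,0)]⟩⟩,⟨true,0,⟨0,[(34,0)]⟩,⟨0,[(33,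
  0)]⟩⟩,[.o ⟨false,0,⟨0,[(0,0),(1,0)]⟩,⟨7,[(7,1),(8,3),(4,7),(0,0),(0,0),(12,3)]⟩⟩,.o ⟨false,1,⟨1,
  [(1,1),(29,0),(4,0)]⟩,⟨0,[(21,0)]⟩⟩,.o ⟨false,1,⟨1,[(22,1),(8,0),(3,0)]⟩,⟨0,[(11,0)]⟩⟩,.a ⟨true,0,
  ⟨0,[(22,0)]⟩,⟨0,[(19,0)]⟩⟩ ⟨false,0,⟨0,[(0,0),(1,0),(16,0)]⟩,⟨0,[(21,0),(0,0),(13,0)]⟩⟩ ⟨true,0,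
  ⟨0,[(0,0),(1,0),(16,0)]⟩,⟨0,[(21,0),(0,0)]⟩⟩]⟩)))) (.Q [0,0,0,0,0,0,1,1,0,-1,1] (.p true [0,0,1]
  [1] (⟨0,[(22,0)]⟩,⟨0,[(21,0)]⟩) .k 1 (⟨0,[]⟩,⟨0,[]⟩) .k .k) (.S ⟨1,0,[0,0,0,0,0,0,0,1],[0,0,1],[0,
  1,0,0,0,0,0,1],(⟨0,[(23,0)]⟩,⟨0,[(22,0)]⟩),⟨0,[(12,0)]⟩,.k,.k,⟨true,0,⟨0,[(36,0)]⟩,⟨0,[]⟩⟩,⟨false,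
  1,⟨7,[(5,1),(8,3),(5,0),(0,0),(12,3)]⟩,⟨0,[]⟩⟩,⟨false,0,⟨0,[(32,0)]⟩,⟨0,[(31,0),(2,0)]⟩⟩,⟨true,0,
  ⟨0,[(32,0)]⟩,⟨0,[(31,0)]⟩⟩,[.o ⟨false,0,⟨0,[(0,0)]⟩,⟨7,[(5,1),(8,3),(4,7),(0,0),(0,0),(12,3)]⟩⟩,
  .o ⟨false,1,⟨3,[(0,1),(17,1),(10,0),(4,2)]⟩,⟨0,[(19,0)]⟩⟩,.o ⟨false,1,⟨1,[(20,1),(8,0),(3,0)]⟩,⟨0,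
  [(9,0)]⟩⟩,.a ⟨true,0,⟨0,[(20,0)]⟩,⟨0,[(17,0)]⟩⟩ ⟨false,0,⟨0,[(0,0),(16,0)]⟩,⟨0,[(19,0),(0,0),(13,
  0)]⟩⟩ ⟨true,0,⟨0,[(0,0),(16,0)]⟩,⟨0,[(19,0),(0,0)]⟩⟩]⟩) (.Q [0,0,0,1,1,0,0,0,-1,-1,0,-1] (.p
  false [1,-1,0,0,1] [] (⟨0,[(16,0),(9,0)]⟩,⟨0,[(6,0)]⟩) (.r 0 ⟨0,[(30,0)]⟩ ⟨7,[(5,1),(8,3),(5,4),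
  (0,4),(10,7),(1,3)]⟩) 0 (⟨0,[]⟩,⟨0,[]⟩) .k .k) (.I [1,0,1,0,0,0,0,-1] (.I [0,-1,1,1,0,0,0,-1] (.I
  [1,-1,-1,-1,1,0,0,1] (.S ⟨1,0,[0,0,1,1,0,0,0,-1],[1,1,-1],[1,1,1,0,0,0,0,-1],(⟨0,[(26,0),(1,0)]⟩,
  ⟨0,[(16,0)]⟩),⟨0,[(26,0)]⟩,.k,.k,⟨true,0,⟨0,[(35,0)]⟩,⟨0,[(36,0)]⟩⟩,⟨false,1,⟨7,[(9,1),(8,3),(5,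
  0),(0,0),(12,3)]⟩,⟨0,[]⟩⟩,⟨false,0,⟨0,[]⟩,⟨7,[(9,1),(8,3),(5,0),(0,0),(12,3)]⟩⟩,⟨true,0,⟨0,[(36,
  0)]⟩,⟨0,[(35,0)]⟩⟩,[.o ⟨false,0,⟨2,[(1,1),(1,0),(2,0),(14,1),(1,0)]⟩,⟨1,[(0,0),(11,0),(11,0),(8,
  0)]⟩⟩,.a ⟨true,0,⟨0,[(1,0),(19,0)]⟩,⟨0,[(12,0)]⟩⟩ ⟨false,0,⟨0,[(1,0),(32,0)]⟩,⟨3,[(0,1),(2,0),(10,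
  0),(3,0),(3,1),(13,0),(0,0)]⟩⟩ ⟨true,0,⟨0,[(1,0)]⟩,⟨0,[(0,0),(6,0)]⟩⟩,.e ⟨false,0,⟨0,[(2,0)]⟩,⟨0,
  [(0,0),(35,0)]⟩⟩ ⟨false,0,⟨0,[(1,0)]⟩,⟨9,[(0,7),(8,0),(2,1),(5,1),(6,1),(6,2)]⟩⟩,.o ⟨false,0,⟨0,
  [(13,0)]⟩,⟨1,[(24,1),(8,0),(3,0)]⟩⟩]⟩) (.I [1,-1,1,0,0,0,0,-1] (.R ⟨1,false,false,true,[0,0,1],[1,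
  0,0,0,-1],[0,1,0,0,0,0,0,1],(⟨0,[(28,0)]⟩,⟨0,[(27,0)]⟩),(⟨0,[(20,0)]⟩,⟨0,[(21,0)]⟩),⟨0,[(17,0)]⟩,
  .k,.k,.k,.k,(.r (-1) ⟨11,[(10,1),(2,11),(1,5),(3,3),(14,2),(3,4)]⟩ ⟨0,[(2,0)]⟩),.k,⟨true,0,⟨0,
  [(14,0),(8,0)]⟩,⟨0,[(0,0)]⟩⟩,⟨false,1,⟨3,[(10,1),(4,0),(6,1),(6,0),(1,0)]⟩,⟨0,[(9,0),(15,0)]⟩⟩,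
  ⟨true,0,⟨0,[(41,0)]⟩,⟨0,[]⟩⟩,⟨false,1,⟨3,[(0,3),(9,1),(4,0),(6,1),(6,0),(1,0)]⟩,⟨0,[(7,0),(15,0),
  (15,0)]⟩⟩,⟨false,0,⟨0,[(37,0)]⟩,⟨0,[(36,0),(2,0)]⟩⟩,⟨false,1,⟨3,[(2,3),(7,1),(4,0),(6,1),(6,0),(1,
  0)]⟩,⟨0,[(7,0),(5,0),(25,0)]⟩⟩,[.o ⟨false,1,⟨0,[(18,0)]⟩,⟨3,[(7,1),(11,1),(14,0),(4,0)]⟩⟩,.o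
  ⟨false,2,⟨7,[(10,5),(8,3),(5,2),(0,2),(12,3)]⟩,⟨0,[(7,0)]⟩⟩,.o ⟨false,1,⟨1,[(25,1),(8,0),(3,0)]⟩,
  ⟨0,[(14,0)]⟩⟩,.a ⟨true,0,⟨0,[(25,0)]⟩,⟨0,[(22,0)]⟩⟩ ⟨false,1,⟨1,[(6,0),(2,0),(5,0),(7,1),(15,0)]⟩,
  ⟨0,[(0,0)]⟩⟩ ⟨true,1,⟨3,[(10,1),(4,0),(6,1),(6,0),(1,0)]⟩,⟨0,[(7,0),(17,0)]⟩⟩]⟩) (.S ⟨1,0,[0,0,0,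
  0,0,0,0,1],[0,0,1],[0,1,0,0,0,0,0,1],(⟨0,[(28,0)]⟩,⟨0,[(27,0)]⟩),⟨0,[(17,0)]⟩,.k,.k,⟨true,0,⟨0,
  [(41,0)]⟩,⟨0,[]⟩⟩,⟨false,1,⟨7,[(10,1),(8,3),(5,0),(0,0),(12,3)]⟩,⟨0,[]⟩⟩,⟨false,0,⟨0,[(37,0)]⟩,⟨0,
  [(36,0),(2,0)]⟩⟩,⟨true,0,⟨0,[(37,0)]⟩,⟨0,[(36,0)]⟩⟩,[.o ⟨false,1,⟨1,[(23,1),(10,0),(4,0)]⟩,⟨0,[(2,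
  0),(11,0),(20,0)]⟩⟩,.e ⟨false,1,⟨17,[(0,13),(9,3),(4,1),(3,7),(3,3),(10,0),(4,8)]⟩,⟨0,[(2,0),(32,
  0)]⟩⟩ ⟨false,1,⟨0,[(0,0),(38,0)]⟩,⟨3,[(1,0),(1,2),(29,0),(1,0),(2,0)]⟩⟩,.o ⟨false,1,⟨1,[(25,1),(8,
  0),(3,0)]⟩,⟨0,[(14,0)]⟩⟩,.a ⟨true,0,⟨0,[(25,0)]⟩,⟨0,[(22,0)]⟩⟩ ⟨true,0,⟨0,[(0,0)]⟩,⟨0,[(3,0)]⟩⟩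
  ⟨false,1,⟨0,[(0,0),(38,0)]⟩,⟨0,[(3,0)]⟩⟩]⟩))) (.I [0,0,0,1,0,0,0,-1] (.S ⟨1,0,[0,0,1,1,0,0,0,-1],
  [1,1,-1],[0,1,1,1,0,0,0,-1],(⟨0,[(26,0),(1,0)]⟩,⟨0,[(16,0)]⟩),⟨0,[(26,0)]⟩,.k,.k,⟨true,0,⟨0,[(40,
  0)]⟩,⟨0,[]⟩⟩,⟨false,1,⟨7,[(9,1),(8,3),(5,0),(0,0),(12,3)]⟩,⟨0,[]⟩⟩,⟨false,0,⟨0,[(36,0)]⟩,⟨0,[(35,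
  0),(2,0)]⟩⟩,⟨true,0,⟨0,[(36,0)]⟩,⟨0,[(35,0)]⟩⟩,[.o ⟨false,0,⟨0,[(0,0),(12,0)]⟩,⟨1,[(12,1),(20,0),
  (4,0)]⟩⟩,.e ⟨false,0,⟨0,[(0,0)]⟩,⟨17,[(1,13),(7,3),(2,3),(1,1),(3,7),(14,0),(4,8)]⟩⟩ ⟨false,1,⟨7,
  [(0,7),(8,1),(8,3),(5,0),(0,0),(12,3)]⟩,⟨0,[(1,0)]⟩⟩,.a ⟨true,0,⟨0,[(21,0)]⟩,⟨0,[(24,0)]⟩⟩ ⟨false,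
  0,⟨1,[(0,1),(23,0),(0,0)]⟩,⟨0,[(1,0),(36,0)]⟩⟩ ⟨true,0,⟨1,[(0,1),(23,0),(0,0)]⟩,⟨0,[(1,0)]⟩⟩,.o
  ⟨false,0,⟨0,[(13,0)]⟩,⟨1,[(24,1),(8,0),(3,0)]⟩⟩]⟩) (.Q [0,0,0,1,0,0,-1,-1,0,0,-1] (.p false [0,0,
  1] [] (⟨0,[(27,0)]⟩,⟨0,[(26,0)]⟩) .k 0 (⟨0,[]⟩,⟨0,[]⟩) .k .k) (.S ⟨1,0,[0,0,1,1,0,0,0,-1],[1,1,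
  -1],[1,1,1,0,0,0,0,-1],(⟨0,[(27,0),(1,0)]⟩,⟨0,[(17,0)]⟩),⟨0,[(27,0)]⟩,.k,.k,⟨true,0,⟨0,[(36,0)]⟩,
  ⟨0,[(37,0)]⟩⟩,⟨false,1,⟨7,[(10,1),(8,3),(5,0),(0,0),(12,3)]⟩,⟨0,[]⟩⟩,⟨false,0,⟨0,[]⟩,⟨7,[(10,1),
  (8,3),(5,0),(0,0),(12,3)]⟩⟩,⟨true,0,⟨0,[(37,0)]⟩,⟨0,[(36,0)]⟩⟩,[.o ⟨false,0,⟨0,[(0,0)]⟩,⟨1,[(13,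
  1),(20,0),(4,0)]⟩⟩,.o ⟨false,1,⟨1,[(0,0),(3,0),(0,0),(13,0),(19,0)]⟩,⟨0,[(1,0),(4,0),(0,0),(17,
  0)]⟩⟩,.a ⟨true,0,⟨0,[(22,0)]⟩,⟨0,[(25,0)]⟩⟩ ⟨false,0,⟨0,[(3,0)]⟩,⟨1,[(1,1),(35,1),(0,0),(0,0)]⟩⟩
  ⟨true,0,⟨0,[(0,0),(24,0)]⟩,⟨0,[(2,0)]⟩⟩,.o ⟨false,0,⟨0,[(14,0)]⟩,⟨1,[(25,1),(8,0),(3,0)]⟩⟩]⟩) (.R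
  ⟨1,false,false,true,[0,0,1],[1,0,0,0,-1],[0,0,0,0,0,0,0,1],(⟨0,[(28,0)]⟩,⟨0,[(27,0)]⟩),(⟨0,[(20,
  0)]⟩,⟨0,[(21,0)]⟩),⟨0,[(17,0)]⟩,.k,.k,.k,.k,(.r 0 ⟨0,[(0,0),(5,0),(0,0),(6,0),(1,0),(0,0),(11,
  1)]⟩ ⟨1,[(3,0),(0,0),(0,0),(13,0),(5,0),(11,0),(1,0)]⟩),.k,⟨true,0,⟨0,[(1,0),(35,0)]⟩,⟨0,[(3,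
  0)]⟩⟩,⟨false,1,⟨3,[(10,1),(4,0),(6,1),(6,0),(1,0)]⟩,⟨0,[(9,0),(15,0)]⟩⟩,⟨false,1,⟨7,[(10,1),(8,3),
  (5,0),(0,0),(12,3)]⟩,⟨0,[]⟩⟩,⟨true,1,⟨3,[(5,3),(4,1),(14,0),(0,0)]⟩,⟨0,[(0,0),(6,0),(29,0)]⟩⟩,
  ⟨true,0,⟨0,[(37,0)]⟩,⟨0,[(36,0)]⟩⟩,⟨true,1,⟨3,[(5,3),(4,1),(14,0),(0,0),(10,3)]⟩,⟨0,[(0,0),(6,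
  0)]⟩⟩,[.o ⟨false,1,⟨0,[(18,0)]⟩,⟨3,[(7,1),(11,1),(14,0),(4,0)]⟩⟩,.o ⟨false,2,⟨7,[(10,5),(8,3),(5,
  2),(0,2),(12,3)]⟩,⟨0,[(7,0)]⟩⟩,.o ⟨false,1,⟨1,[(25,1),(8,0),(3,0)]⟩,⟨0,[(14,0)]⟩⟩,.a ⟨true,0,⟨0,
  [(25,0)]⟩,⟨0,[(22,0)]⟩⟩ ⟨false,1,⟨1,[(1,1),(35,1),(0,0),(0,0)]⟩,⟨0,[(3,0)]⟩⟩ ⟨true,1,⟨3,[(10,1),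
  (4,0),(6,1),(6,0),(1,0)]⟩,⟨0,[(7,0),(17,0)]⟩⟩]⟩)))) (.S ⟨1,0,[0,0,0,0,0,0,0,1],[0,0,1],[0,1,0,0,0,
  0,0,1],(⟨0,[(25,0)]⟩,⟨0,[(24,0)]⟩),⟨0,[(14,0)]⟩,.k,.k,⟨true,0,⟨0,[(38,0)]⟩,⟨0,[]⟩⟩,⟨false,1,⟨7,
  [(7,1),(8,3),(5,0),(0,0),(12,3)]⟩,⟨0,[]⟩⟩,⟨false,0,⟨0,[(34,0)]⟩,⟨0,[(33,0),(2,0)]⟩⟩,⟨true,0,⟨0,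
  [(34,0)]⟩,⟨0,[(33,0)]⟩⟩,[.e ⟨false,0,⟨15,[(0,11),(4,0),(6,1),(7,3),(9,4),(0,0)]⟩,⟨0,[(2,0),(0,0),
  (0,0),(17,0),(13,0)]⟩⟩ ⟨false,0,⟨0,[(0,0)]⟩,⟨1,[(21,1),(0,1),(12,0),(0,0)]⟩⟩,.o ⟨false,1,⟨1,[(0,
  1),(21,1),(8,0),(4,0)]⟩,⟨0,[(21,0)]⟩⟩,.o ⟨false,1,⟨1,[(22,1),(8,0),(3,0)]⟩,⟨0,[(11,0)]⟩⟩,.a ⟨true,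
  0,⟨0,[(22,0)]⟩,⟨0,[(19,0)]⟩⟩ ⟨false,0,⟨0,[(0,0)]⟩,⟨0,[(21,0),(0,0),(13,0)]⟩⟩ ⟨true,0,⟨0,[(0,0)]⟩,
  ⟨0,[(21,0),(0,0)]⟩⟩]⟩)) (.R ⟨0,false,false,true,[0,1,0,0,-1],[1,0,0,0,-1],[0,0,1],(⟨0,[(7,0)]⟩,⟨0,
  [(17,0),(9,0)]⟩),(⟨0,[(16,0)]⟩,⟨0,[(17,0)]⟩),⟨0,[(17,0)]⟩,(.r (-1) ⟨7,[(6,1),(8,3),(5,4),(0,4),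
  (10,7),(1,3)]⟩ ⟨0,[(31,0)]⟩),.k,.k,.k,.k,.k,⟨true,0,⟨1,[(21,0),(0,0)]⟩,⟨0,[]⟩⟩,⟨false,0,⟨0,[(25,
  0),(1,0)]⟩,⟨1,[(30,0),(3,0)]⟩⟩,⟨true,0,⟨0,[(32,0)]⟩,⟨0,[(33,0)]⟩⟩,⟨false,0,⟨3,[(0,3),(5,1),(14,0),
  (0,0)]⟩,⟨1,[(30,0),(2,1),(1,0)]⟩⟩,⟨false,0,⟨0,[]⟩,⟨0,[]⟩⟩,⟨false,0,⟨0,[]⟩,⟨0,[]⟩⟩,[.o ⟨false,1,⟨0,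
  [(14,0)]⟩,⟨3,[(3,1),(11,1),(14,0),(4,0)]⟩⟩,.o ⟨false,2,⟨7,[(6,5),(8,3),(5,2),(0,2),(12,3)]⟩,⟨0,
  [(3,0)]⟩⟩,.e ⟨true,0,⟨1,[(21,0),(0,0)]⟩,⟨0,[(2,0),(5,0)]⟩⟩ ⟨true,0,⟨1,[(11,0),(9,1),(3,0),(1,0)]⟩,
  ⟨0,[(2,0),(0,0)]⟩⟩,.a ⟨true,1,⟨0,[(14,0)]⟩,⟨0,[(0,0),(32,0)]⟩⟩ ⟨false,1,⟨7,[(6,1),(8,3),(5,0),(0,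
  0),(12,3)]⟩,⟨0,[]⟩⟩ ⟨true,0,⟨0,[(25,0),(1,0)]⟩,⟨3,[(3,1),(0,0),(1,0),(23,0)]⟩⟩]⟩))))) (.I [1,0,1,
  0,0,0,0,-1] (.I [1,1,-1,-1,0,0,0,1] (.I [0,0,0,1,0,0,0,-1] (.S ⟨1,0,[0,0,1,1,0,0,0,-1],[1,1,-1],
  [0,1,1,1,0,0,0,-1],(⟨0,[(22,0),(1,0)]⟩,⟨0,[(12,0)]⟩),⟨0,[(22,0)]⟩,.k,.k,⟨true,0,⟨0,[(36,0)]⟩,⟨0,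
  []⟩⟩,⟨false,1,⟨7,[(5,1),(8,3),(5,0),(0,0),(12,3)]⟩,⟨0,[]⟩⟩,⟨false,0,⟨0,[(32,0)]⟩,⟨0,[(31,0),(2,
  0)]⟩⟩,⟨true,0,⟨0,[(32,0)]⟩,⟨0,[(31,0)]⟩⟩,[.o ⟨false,0,⟨0,[(0,0),(8,0)]⟩,⟨1,[(8,1),(20,0),(4,0)]⟩⟩,
  .e ⟨false,0,⟨0,[(0,0)]⟩,⟨17,[(1,13),(3,3),(2,3),(1,1),(3,7),(14,0),(4,8)]⟩⟩ ⟨false,1,⟨3,[(0,2),(1,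
  0),(2,0),(8,1),(17,0),(1,1)]⟩,⟨0,[(1,0)]⟩⟩,.a ⟨true,0,⟨0,[(17,0)]⟩,⟨0,[(20,0)]⟩⟩ ⟨false,0,⟨0,[(2,
  0),(29,0)]⟩,⟨0,[(1,0),(32,0)]⟩⟩ ⟨true,0,⟨0,[(2,0),(29,0)]⟩,⟨0,[(1,0)]⟩⟩,.o ⟨false,0,⟨0,[(9,0)]⟩,
  ⟨1,[(20,1),(8,0),(3,0)]⟩⟩]⟩) (.Q [0,1,0,0,-1,0,1,1,1,0,1,1] (.p true [0,0,1,0,1] [] (⟨0,[(16,0),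
  (6,0)]⟩,⟨0,[(6,0),(4,0)]⟩) .k 0 (⟨0,[]⟩,⟨0,[]⟩) .k (.r 0 ⟨1,[(1,0),(16,0),(2,0),(10,0)]⟩ ⟨1,[(2,
  1),(30,0),(0,0)]⟩)) (.I [1,-1,2,1] (.Q [0,0,0,-1,0,0,0,0,0,1] (.pp false [-1,1]) (.S ⟨1,0,[0,0,-1,
  -1],[1,-1],[0,1,-1,-1],(⟨0,[(29,0)]⟩,⟨0,[(30,0)]⟩),⟨0,[(14,0),(0,0)]⟩,.k,(.r (-1) ⟨0,[(33,1),(3,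
  0)]⟩ ⟨2,[(1,3),(29,1),(3,1)]⟩),⟨true,0,⟨0,[(39,0)]⟩,⟨0,[]⟩⟩,⟨false,1,⟨7,[(8,1),(8,3),(5,0),(0,0),
  (12,3)]⟩,⟨0,[]⟩⟩,⟨false,0,⟨0,[(35,0)]⟩,⟨0,[(34,0),(2,0)]⟩⟩,⟨true,0,⟨0,[(35,0)]⟩,⟨0,[(34,0)]⟩⟩,[.a
  ⟨true,0,⟨0,[(0,0)]⟩,⟨0,[(35,0)]⟩⟩ ⟨true,0,⟨0,[(33,0)]⟩,⟨0,[(1,0)]⟩⟩ ⟨false,1,⟨1,[(33,1),(2,0),(0,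
  0)]⟩,⟨2,[(1,1),(29,0),(3,0)]⟩⟩,.e ⟨false,1,⟨1,[(33,1),(2,0),(0,0)]⟩,⟨2,[(1,1),(29,0),(3,0)]⟩⟩
  ⟨false,1,⟨0,[(6,0),(26,0)]⟩,⟨0,[(1,0),(29,0)]⟩⟩,.o ⟨false,0,⟨1,[(23,0),(0,0)]⟩,⟨1,[(32,0),(3,
  0)]⟩⟩,.e ⟨false,1,⟨1,[(33,1),(2,0),(0,0)]⟩,⟨0,[(1,0)]⟩⟩ ⟨false,1,⟨0,[(6,0),(26,0)]⟩,⟨0,[(1,0),(37,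
  0)]⟩⟩]⟩) (.S ⟨1,0,[0,0,1,1,0,0,0,-1],[1,1,-1],[0,1,1,1,0,0,0,-1],(⟨0,[(25,0),(1,0)]⟩,⟨0,[(15,
  0)]⟩),⟨0,[(25,0)]⟩,.k,.k,⟨true,0,⟨0,[(39,0)]⟩,⟨0,[]⟩⟩,⟨false,1,⟨7,[(8,1),(8,3),(5,0),(0,0),(12,
  3)]⟩,⟨0,[]⟩⟩,⟨false,0,⟨0,[(35,0)]⟩,⟨0,[(34,0),(2,0)]⟩⟩,⟨true,0,⟨0,[(35,0)]⟩,⟨0,[(34,0)]⟩⟩,[.o
  ⟨false,0,⟨0,[(0,0),(4,0),(14,0)]⟩,⟨1,[(11,1),(20,0),(4,0)]⟩⟩,.o ⟨false,1,⟨0,[(22,0),(12,0),(1,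
  0)]⟩,⟨0,[(0,0),(2,0),(19,0),(9,0)]⟩⟩,.a ⟨true,0,⟨0,[(20,0)]⟩,⟨0,[(23,0)]⟩⟩ ⟨false,0,⟨0,[(5,0),(29,
  0)]⟩,⟨0,[(4,0),(32,0)]⟩⟩ ⟨true,0,⟨0,[(5,0),(29,0)]⟩,⟨0,[(4,0)]⟩⟩,.o ⟨false,0,⟨0,[(12,0)]⟩,⟨1,[(23,
  1),(8,0),(3,0)]⟩⟩]⟩)) (.Q [0,0,-1,0,1,0,0,0,-1,0,0,-1] (.p false [0,0,0,0,1] [] (⟨0,[(18,0)]⟩,⟨0,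
  [(17,0)]⟩) .k 0 (⟨0,[]⟩,⟨0,[]⟩) .k .k) (.Q [0,-1,0,0,1,0,-1,-1,-1,1,-1,-1] (.p false [0,0,1,0,1]
  [1] (⟨0,[(19,0),(6,0)]⟩,⟨0,[(9,0),(4,0)]⟩) .k 1 (⟨0,[]⟩,⟨0,[]⟩) .k (.r 0 ⟨1,[(4,0),(16,0),(2,0),
  (10,0)]⟩ ⟨1,[(5,1),(30,0),(0,0)]⟩)) (.S ⟨1,0,[0,2,0,0,0,0,0,1],[0,0,1,0,1],[1,1,0,-1,0,0,0,1],(⟨0,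
  [(20,0),(6,0)]⟩,⟨0,[(10,0),(4,0)]⟩),⟨0,[(16,0),(3,0)]⟩,.k,(.r 0 ⟨0,[(2,0),(1,0),(31,0),(2,0)]⟩ ⟨3,
  [(0,1),(5,1),(11,1),(5,1),(8,0),(2,3),(1,0)]⟩),⟨false,1,⟨0,[(35,0),(2,0)]⟩,⟨0,[(36,0)]⟩⟩,⟨true,0,
  ⟨0,[(40,0)]⟩,⟨0,[]⟩⟩,⟨true,0,⟨0,[]⟩,⟨0,[(40,0)]⟩⟩,⟨false,0,⟨0,[(36,0)]⟩,⟨0,[(35,0),(2,0)]⟩⟩,[.e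
  ⟨false,0,⟨0,[(5,0)]⟩,⟨1,[(6,1),(29,1),(0,0),(0,0)]⟩⟩ ⟨false,0,⟨3,[(5,2),(16,0),(2,0),(6,1),(3,
  2)]⟩,⟨0,[(6,0),(0,0)]⟩⟩,.a ⟨true,(-1),⟨0,[(3,0)]⟩,⟨0,[(0,0)]⟩⟩ ⟨true,0,⟨0,[(4,0)]⟩,⟨0,[(6,0),(29,
  0)]⟩⟩ ⟨false,0,⟨0,[(5,0),(30,0)]⟩,⟨1,[(6,1),(30,0),(0,0)]⟩⟩,.o ⟨false,0,⟨0,[(8,0),(15,0)]⟩,⟨1,[(9,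
  0),(3,0),(11,0)]⟩⟩,.o ⟨false,0,⟨1,[(3,1),(2,1),(26,0),(4,0)]⟩,⟨0,[(1,0),(11,0)]⟩⟩]⟩) (.Q [0,-1,0,
  1,1,0,-1,-1,-1,1,-1,-1] (.p false [0,0,1,0,1] [1] (⟨0,[(20,0),(6,0)]⟩,⟨0,[(10,0),(4,0)]⟩) .k 1
  (⟨0,[]⟩,⟨0,[]⟩) .k (.r 0 ⟨4,[(0,1),(8,0),(4,1),(7,2),(2,0)]⟩ ⟨1,[(6,1),(30,0),(0,0)]⟩)) (.R ⟨1,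
  true,false,true,[0,0,1],[1,0,0,0,-1],[0,0,0,0,0,0,0,1],(⟨0,[(28,0)]⟩,⟨0,[(27,0)]⟩),(⟨0,[(20,0)]⟩,
  ⟨0,[(21,0)]⟩),⟨0,[(17,0)]⟩,.k,.k,.k,.k,(.r 0 ⟨1,[(1,0),(0,0),(0,0),(1,0),(8,0),(1,0),(0,0),(11,1),
  (10,0)]⟩ ⟨3,[(0,1),(6,1),(11,1),(5,1),(8,0),(2,1),(1,0)]⟩),.k,⟨true,0,⟨0,[(5,0),(31,0)]⟩,⟨0,[(7,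
  0)]⟩⟩,⟨false,1,⟨4,[(0,0),(9,1),(2,0),(1,0),(6,2)]⟩,⟨0,[(9,0),(15,0)]⟩⟩,⟨false,1,⟨7,[(10,1),(8,3),
  (5,0),(0,0),(12,3)]⟩,⟨0,[]⟩⟩,⟨true,1,⟨0,[(0,0),(35,0)]⟩,⟨0,[(1,0)]⟩⟩,⟨true,0,⟨0,[(37,0)]⟩,⟨0,[(36,
  0)]⟩⟩,⟨false,1,⟨0,[(0,0)]⟩,⟨0,[(1,0),(34,0),(2,0)]⟩⟩,[]⟩) (.Q [0,1,0,0,-1,0,0,0,1,-1,0,1] (.p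
  true [0,0,0,0,1] [1] (⟨0,[(21,0)]⟩,⟨0,[(20,0)]⟩) .k 1 (⟨0,[]⟩,⟨0,[]⟩) .k .k) (.R ⟨1,false,false,
  true,[0,0,1],[1,0,0,0,-1],[0,0,0,0,0,0,0,1],(⟨0,[(29,0)]⟩,⟨0,[(28,0)]⟩),(⟨0,[(21,0)]⟩,⟨0,[(22,
  0)]⟩),⟨0,[(18,0)]⟩,.k,.k,.k,.k,(.r 0 ⟨0,[(1,0),(1,0),(11,0),(1,0),(0,0),(11,1)]⟩ ⟨7,[(8,7),(2,1),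
  (8,3),(5,0),(0,0),(10,7),(1,3)]⟩),.k,⟨true,0,⟨0,[(6,0),(31,0)]⟩,⟨0,[(8,0)]⟩⟩,⟨false,1,⟨3,[(11,1),
  (4,0),(6,1),(6,0),(1,0)]⟩,⟨0,[(10,0),(15,0)]⟩⟩,⟨false,1,⟨7,[(11,1),(8,3),(5,0),(0,0),(12,3)]⟩,⟨0,
  []⟩⟩,⟨true,1,⟨3,[(8,3),(2,1),(4,0),(6,1),(6,0),(1,0)]⟩,⟨0,[(2,0)]⟩⟩,⟨true,0,⟨0,[(38,0)]⟩,⟨0,[(37,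
  0)]⟩⟩,⟨true,1,⟨3,[(8,3),(2,1),(4,0),(6,1),(6,0),(1,0),(5,3)]⟩,⟨0,[(1,0)]⟩⟩,[.o ⟨false,1,⟨0,[(19,
  0)]⟩,⟨3,[(0,1),(19,1),(14,0),(4,0)]⟩⟩,.o ⟨false,2,⟨7,[(11,5),(8,3),(5,2),(0,2),(12,3)]⟩,⟨0,[(0,
  0)]⟩⟩,.o ⟨false,1,⟨1,[(26,1),(8,0),(3,0)]⟩,⟨0,[(15,0)]⟩⟩,.a ⟨true,0,⟨0,[(26,0)]⟩,⟨0,[(23,0)]⟩⟩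
  ⟨false,1,⟨3,[(2,1),(6,2),(1,0),(4,1),(7,1),(15,0)]⟩,⟨0,[(8,0)]⟩⟩ ⟨true,1,⟨3,[(11,1),(4,0),(6,1),
  (6,0),(1,0)]⟩,⟨0,[(2,0),(5,0)]⟩⟩]⟩) (.R ⟨1,false,false,true,[0,0,1,0,1],[0,0,0,0,1],[0,1,0,0,0,0,
  0,1],(⟨0,[(22,0),(6,0)]⟩,⟨0,[(12,0),(4,0)]⟩),(⟨0,[(22,0)]⟩,⟨0,[(21,0)]⟩),⟨0,[(18,0),(3,0)]⟩,.k,.k,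
  (.r 0 ⟨0,[(1,0),(1,0),(11,0),(1,0),(0,0),(11,1)]⟩ ⟨3,[(0,1),(7,3),(11,1),(14,0),(2,3),(1,0)]⟩),.k,
  .k,.k,⟨false,1,⟨3,[(2,1),(6,2),(1,0),(4,1),(7,1),(15,0)]⟩,⟨2,[(4,0),(3,2),(25,0),(3,0)]⟩⟩,⟨true,0,
  ⟨0,[(15,0)]⟩,⟨0,[(26,0)]⟩⟩,⟨false,1,⟨3,[(0,1),(19,1),(14,0),(4,0)]⟩,⟨0,[]⟩⟩,⟨true,0,⟨0,[(25,0)]⟩,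
  ⟨0,[(0,0),(1,0)]⟩⟩,⟨true,0,⟨0,[(38,0)]⟩,⟨0,[(37,0)]⟩⟩,⟨true,0,⟨0,[(25,0),(12,0)]⟩,⟨0,[(0,0),(0,
  0)]⟩⟩,[.o ⟨false,(-1),⟨0,[(2,0),(22,0)]⟩,⟨1,[(0,1),(34,0),(4,0)]⟩⟩,.a ⟨true,(-1),⟨0,[(13,0)]⟩,⟨0,
  [(0,0)]⟩⟩ ⟨true,0,⟨0,[(6,0),(31,0)]⟩,⟨0,[(8,0)]⟩⟩ ⟨false,0,⟨2,[(4,0),(10,2),(18,0),(3,0)]⟩,⟨1,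
  [(26,1),(12,0),(0,0)]⟩⟩,.o ⟨false,0,⟨0,[(10,0),(15,0)]⟩,⟨1,[(11,0),(3,0),(11,0)]⟩⟩,.o ⟨false,0,⟨3,
  [(2,1),(5,1),(11,1),(5,1),(8,0),(4,0)]⟩,⟨0,[(3,0),(11,0)]⟩⟩]⟩)))) (.Q [0,0,-1,0,1,0,0,0,-1,1,0,
  -1] (.p false [0,0,0,0,1] [1] (⟨0,[(19,0)]⟩,⟨0,[(18,0)]⟩) .k 1 (⟨0,[]⟩,⟨0,[]⟩) .k .k) (.R ⟨0,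
  false,false,true,[0,0,0,0,1],[0,1,0,0,-1],[0,2,0,-1],(⟨0,[(20,0)]⟩,⟨0,[(19,0)]⟩),(⟨0,[(10,0)]⟩,⟨0,
  [(20,0),(9,0)]⟩),⟨0,[(10,0)]⟩,.k,(.r (-1) ⟨7,[(9,1),(8,3),(5,4),(0,4),(10,7),(1,3)]⟩ ⟨0,[(34,
  0)]⟩),(.r 0 ⟨0,[(34,0)]⟩ ⟨7,[(9,1),(8,3),(5,4),(0,4),(10,7),(1,3)]⟩),(.r 0 ⟨3,[(2,0),(29,1),(2,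
  2)]⟩ ⟨1,[(24,0),(0,0),(10,1),(1,1)]⟩),.k,.k,⟨false,0,⟨0,[(2,0),(32,0)]⟩,⟨1,[(24,0),(0,0),(10,3),
  (1,1)]⟩⟩,⟨true,2,⟨0,[(9,0)]⟩,⟨0,[(1,1)]⟩⟩,⟨true,0,⟨0,[(35,0)]⟩,⟨0,[(36,0)]⟩⟩,⟨false,3,⟨1,[(9,1),
  (14,0),(0,0),(10,1),(1,1)]⟩,⟨0,[(1,1),(0,0)]⟩⟩,⟨false,0,⟨0,[]⟩,⟨0,[]⟩⟩,⟨false,0,⟨0,[]⟩,⟨0,[]⟩⟩,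
  [.e ⟨false,0,⟨3,[(2,0),(29,1),(2,2)]⟩,⟨0,[(36,0),(1,0)]⟩⟩ ⟨false,2,⟨0,[(9,0),(26,0)]⟩,⟨3,[(1,5),
  (0,2),(15,1),(16,0),(2,1)]⟩⟩,.o ⟨false,2,⟨3,[(9,1),(14,0),(0,0),(7,1),(2,3),(1,1)]⟩,⟨1,[(1,1),(0,
  0),(32,0)]⟩⟩,.o ⟨false,0,⟨2,[(1,0),(6,0),(9,0),(14,0)]⟩,⟨0,[(17,0)]⟩⟩,.a ⟨true,(-1),⟨0,[(1,0)]⟩,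
  ⟨0,[(0,0)]⟩⟩ ⟨false,0,⟨0,[(34,0)]⟩,⟨1,[(24,0),(0,0),(10,1),(1,1)]⟩⟩ ⟨true,2,⟨0,[(9,0),(26,0)]⟩,⟨1,
  [(1,3),(0,0),(32,0)]⟩⟩]⟩) (.R ⟨1,false,false,false,[0,0,1],[0,0,1,0,-1],[0,1,0,0,0,0,0,1],(⟨0,
  [(27,0)]⟩,⟨0,[(26,0)]⟩),(⟨0,[(10,0),(5,0)]⟩,⟨0,[(20,0),(5,0)]⟩),⟨0,[(16,0)]⟩,.k,.k,.k,.k,(.r 0 ⟨0,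
  [(34,0)]⟩ ⟨7,[(9,1),(8,3),(5,4),(0,4),(10,7),(1,3)]⟩),.k,⟨false,0,⟨0,[(32,0)]⟩,⟨0,[(38,0)]⟩⟩,
  ⟨true,1,⟨0,[(17,0)]⟩,⟨0,[(1,0)]⟩⟩,⟨true,0,⟨0,[(40,0)]⟩,⟨0,[]⟩⟩,⟨false,2,⟨3,[(9,1),(14,0),(0,0),
  (12,3)]⟩,⟨0,[(11,0)]⟩⟩,⟨false,0,⟨0,[(36,0)]⟩,⟨0,[(35,0),(2,0)]⟩⟩,⟨false,2,⟨3,[(9,1),(14,0),(0,0),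
  (10,3),(1,3)]⟩,⟨1,[(1,1),(0,0),(32,0)]⟩⟩,[.o ⟨false,2,⟨0,[(0,0),(8,0),(12,0),(15,0)]⟩,⟨2,[(0,1),
  (1,0),(3,1),(4,0),(9,1),(1,0),(12,0)]⟩⟩,.o ⟨false,2,⟨0,[(0,0),(3,0),(2,0),(1,0),(14,0),(11,0)]⟩,
  ⟨0,[(11,0),(11,0)]⟩⟩,.o ⟨false,1,⟨1,[(24,1),(8,0),(3,0)]⟩,⟨0,[(13,0)]⟩⟩,.a ⟨true,0,⟨0,[(24,0)]⟩,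
  ⟨0,[(21,0)]⟩⟩ ⟨true,0,⟨0,[(5,0),(30,0)]⟩,⟨0,[(6,0)]⟩⟩ ⟨false,2,⟨1,[(4,1),(2,0),(1,0),(26,1),(1,
  0)]⟩,⟨0,[(6,0),(4,0)]⟩⟩]⟩)))) (.Q [0,-1,0,0,1,0,0,0,-1,1,0,-1] (.p false [0,0,0,0,1] [1] (⟨0,[(17,
  0)]⟩,⟨0,[(16,0)]⟩) .k 1 (⟨0,[]⟩,⟨0,[]⟩) .k .k) (.R ⟨1,false,false,true,[0,0,1,0,1],[0,0,0,0,1],[1,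
  1,0,-1,0,0,0,1],(⟨0,[(18,0),(6,0)]⟩,⟨0,[(8,0),(4,0)]⟩),(⟨0,[(18,0)]⟩,⟨0,[(17,0)]⟩),⟨0,[(14,0),(3,
  0)]⟩,.k,.k,(.r 0 ⟨0,[(2,0),(29,0),(1,0)]⟩ ⟨7,[(4,7),(2,1),(8,3),(5,0),(0,0),(10,7),(1,3)]⟩),.k,.k,
  .k,⟨false,1,⟨0,[(3,0),(32,0)]⟩,⟨0,[(4,0),(27,0),(1,1)]⟩⟩,⟨true,0,⟨0,[(11,0)]⟩,⟨0,[(22,0)]⟩⟩,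
  ⟨false,1,⟨0,[(33,0),(2,0)]⟩,⟨0,[(34,0)]⟩⟩,⟨false,0,⟨0,[(1,0),(7,0)]⟩,⟨0,[(20,0),(15,0)]⟩⟩,⟨true,0,
  ⟨0,[]⟩,⟨0,[(38,0)]⟩⟩,⟨false,0,⟨0,[(1,0),(7,0),(24,0)]⟩,⟨0,[(10,0),(25,0)]⟩⟩,[.e ⟨false,0,⟨0,[(3,
  0)]⟩,⟨1,[(4,1),(29,1),(0,0),(0,0)]⟩⟩ ⟨false,0,⟨0,[(11,0),(18,0)]⟩,⟨0,[(5,0),(16,0)]⟩⟩,.a ⟨true,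
  (-1),⟨0,[(9,0)]⟩,⟨0,[(0,0)]⟩⟩ ⟨true,0,⟨0,[(2,0)]⟩,⟨0,[(4,0),(29,0)]⟩⟩ ⟨false,0,⟨0,[(11,0),(20,0),
  (1,0)]⟩,⟨1,[(22,1),(12,0),(0,0)]⟩⟩,.o ⟨false,0,⟨0,[(6,0),(15,0)]⟩,⟨1,[(7,0),(3,0),(11,0)]⟩⟩,.o
  ⟨false,0,⟨1,[(6,1),(15,2),(0,0)]⟩,⟨0,[(1,0),(1,0),(30,0)]⟩⟩]⟩) (.S ⟨1,0,[0,0,0,0,0,0,0,1],[0,0,1],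
  [1,1,0,-1,0,0,0,1],(⟨0,[(25,0)]⟩,⟨0,[(24,0)]⟩),⟨0,[(14,0)]⟩,.k,.k,⟨true,0,⟨0,[(33,0)]⟩,⟨0,[(34,
  0)]⟩⟩,⟨false,1,⟨7,[(7,1),(8,3),(5,0),(0,0),(12,3)]⟩,⟨0,[]⟩⟩,⟨false,0,⟨0,[]⟩,⟨7,[(7,1),(8,3),(5,0),
  (0,0),(12,3)]⟩⟩,⟨true,0,⟨0,[(34,0)]⟩,⟨0,[(33,0)]⟩⟩,[.o ⟨false,1,⟨1,[(20,1),(10,0),(4,0)]⟩,⟨0,[(1,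
  0),(7,0)]⟩⟩,.o ⟨false,1,⟨3,[(0,1),(1,3),(2,2),(1,0),(14,3),(8,0),(2,3)]⟩,⟨0,[(21,0)]⟩⟩,.o ⟨false,
  1,⟨1,[(22,1),(8,0),(3,0)]⟩,⟨0,[(11,0)]⟩⟩,.a ⟨true,0,⟨0,[(22,0)]⟩,⟨0,[(19,0)]⟩⟩ ⟨true,0,⟨0,[(3,
  0)]⟩,⟨0,[(4,0),(29,0)]⟩⟩ ⟨false,1,⟨0,[(3,0),(30,0),(1,0)]⟩,⟨0,[(4,0)]⟩⟩]⟩)))) (.S ⟨1,0,[0,0,1,1,0,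
  0,0,-1],[1,1,-1],[1,1,1,0,0,0,0,-1],(⟨0,[(21,0),(1,0)]⟩,⟨0,[(11,0)]⟩),⟨0,[(21,0)]⟩,.k,.k,⟨true,0,
  ⟨0,[(30,0)]⟩,⟨0,[(31,0)]⟩⟩,⟨false,1,⟨7,[(4,1),(8,3),(5,0),(0,0),(12,3)]⟩,⟨0,[]⟩⟩,⟨false,0,⟨0,[]⟩,
  ⟨7,[(4,1),(8,3),(5,0),(0,0),(12,3)]⟩⟩,⟨true,0,⟨0,[(31,0)]⟩,⟨0,[(30,0)]⟩⟩,[.o ⟨false,0,⟨0,[(0,0),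
  (7,0),(20,0),(1,0)]⟩,⟨1,[(7,1),(20,0),(4,0)]⟩⟩,.a ⟨true,0,⟨0,[(0,0),(15,0)]⟩,⟨0,[(7,0)]⟩⟩ ⟨false,
  0,⟨0,[(0,0),(28,0)]⟩,⟨3,[(2,1),(6,1),(7,3),(10,0),(3,0)]⟩⟩ ⟨true,0,⟨0,[(0,0)]⟩,⟨0,[(7,0),(0,0)]⟩⟩,
  .e ⟨false,0,⟨0,[(1,0)]⟩,⟨0,[(2,0),(5,0),(8,0)]⟩⟩ ⟨false,0,⟨0,[(0,0)]⟩,⟨3,[(2,1),(4,3),(1,1),(18,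
  0),(3,0)]⟩⟩,.o ⟨false,0,⟨0,[(8,0)]⟩,⟨1,[(19,1),(8,0),(3,0)]⟩⟩]⟩)) (.S ⟨1,0,[0,0,0,0,0,0,0,1],[0,0,
  1],[0,1,0,0,0,0,0,1],(⟨0,[(21,0)]⟩,⟨0,[(20,0)]⟩),⟨0,[(10,0)]⟩,.k,.k,⟨true,0,⟨0,[(34,0)]⟩,⟨0,[]⟩⟩,
  ⟨false,1,⟨7,[(3,1),(8,3),(5,0),(0,0),(12,3)]⟩,⟨0,[]⟩⟩,⟨false,0,⟨0,[(30,0)]⟩,⟨0,[(29,0),(2,0)]⟩⟩,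
  ⟨true,0,⟨0,[(30,0)]⟩,⟨0,[(29,0)]⟩⟩,[.e ⟨false,0,⟨4,[(0,3),(15,0),(2,0),(6,1)]⟩,⟨0,[(1,0),(15,0),
  (0,0)]⟩⟩ ⟨false,0,⟨0,[(0,0)]⟩,⟨1,[(17,1),(0,1),(12,0),(0,0)]⟩⟩,.o ⟨false,1,⟨1,[(0,1),(17,1),(8,0),
  (4,0)]⟩,⟨0,[(17,0)]⟩⟩,.o ⟨false,1,⟨1,[(18,1),(8,0),(3,0)]⟩,⟨0,[(7,0)]⟩⟩,.a ⟨true,0,⟨0,[(18,0)]⟩,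
  ⟨0,[(15,0)]⟩⟩ ⟨false,0,⟨0,[(0,0)]⟩,⟨0,[(17,0),(0,0),(13,0)]⟩⟩ ⟨true,0,⟨0,[(0,0)]⟩,⟨0,[(17,0),(0,
  0)]⟩⟩]⟩)))))

theorem ok10 : chk K t10 l7 = true := by decide +kernel

noncomputable def t11 : Tre :=
  (.Q [0,0,-1,0,1,0,0,0,-1,1,0,-1] (.p false [0,0,0,0,1] [1] (⟨0,[(11,0)]⟩,⟨0,[(10,0)]⟩) .k 1 (⟨0,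
  []⟩,⟨0,[]⟩) .k .k) (.S ⟨1,0,[0,1],[0,0,0,0,1],[0,2],(⟨0,[(12,0)]⟩,⟨0,[(11,0)]⟩),⟨0,[(2,0)]⟩,.k,
  (.r 0 ⟨0,[(26,0)]⟩ ⟨1,[(9,0),(0,0),(5,0),(0,0),(10,1),(1,0)]⟩),⟨true,0,⟨0,[(32,0)]⟩,⟨0,[]⟩⟩,
  ⟨false,1,⟨1,[(9,0),(0,0),(19,0)]⟩,⟨0,[]⟩⟩,⟨false,0,⟨0,[(28,0)]⟩,⟨0,[(27,0),(2,0)]⟩⟩,⟨true,0,⟨0,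
  [(28,0)]⟩,⟨0,[(27,0)]⟩⟩,[.e ⟨false,0,⟨0,[(24,0)]⟩,⟨0,[(30,0)]⟩⟩ ⟨false,0,⟨0,[(26,0),(1,0)]⟩,⟨1,
  [(9,0),(0,0),(19,0)]⟩⟩,.o ⟨false,0,⟨1,[(3,1),(21,0),(4,0)]⟩,⟨0,[(9,0)]⟩⟩,.o ⟨false,0,⟨1,[(3,1),
  (21,0),(4,0)]⟩,⟨0,[(9,0)]⟩⟩,.a ⟨true,(-1),⟨0,[(1,0)]⟩,⟨0,[(0,0)]⟩⟩ ⟨false,0,⟨0,[(26,0),(1,0)]⟩,⟨1,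
  [(16,0),(0,0),(12,1)]⟩⟩ ⟨true,0,⟨0,[(26,0),(1,0)]⟩,⟨1,[(16,0),(0,0)]⟩⟩]⟩) (.Q [0,-2,2,1,1,0,0,0,
  -1,1,0,-1] (.p false [0,0,0,0,1] [1] (⟨0,[(12,0)]⟩,⟨0,[(11,0)]⟩) .k 1 (⟨0,[]⟩,⟨0,[]⟩) .k .k) (.Q
  [0,0,0,-1,0,0,0,0,0,1] (.pp false [-1,1]) (.R ⟨1,false,false,false,[0,0,0,0,1],[0,1],[0,1],(⟨0,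
  [(14,0)]⟩,⟨0,[(13,0)]⟩),(⟨0,[(25,0)]⟩,⟨0,[(24,0)]⟩),⟨0,[(4,0)]⟩,.k,.k,(.r 0 ⟨0,[(28,0)]⟩ ⟨15,[(1,
  9),(10,9),(13,1),(0,4),(2,5),(0,0)]⟩),(.r 0 ⟨0,[(28,0)]⟩ ⟨15,[(1,9),(10,9),(13,1),(0,4),(2,5),(0,
  0)]⟩),(.r (-1) ⟨1,[(28,1),(0,1),(1,0),(0,0)]⟩ ⟨2,[(1,1),(0,1),(27,3),(3,0)]⟩),.k,⟨true,0,⟨0,[(28,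
  0)]⟩,⟨2,[(1,1),(0,1),(27,0),(3,0)]⟩⟩,⟨false,2,⟨0,[(11,0),(19,0)]⟩,⟨0,[(3,0)]⟩⟩,⟨false,1,⟨7,[(1,1),
  (10,1),(14,0),(1,1),(1,1),(0,2)]⟩,⟨0,[]⟩⟩,⟨false,2,⟨0,[(11,0),(18,0),(1,0)]⟩,⟨1,[(0,0),(1,0),(2,
  0),(22,0)]⟩⟩,⟨true,0,⟨0,[(30,0)]⟩,⟨0,[(29,0)]⟩⟩,⟨false,2,⟨0,[(11,0),(18,1),(1,0)]⟩,⟨0,[(0,0),(1,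
  0),(25,0)]⟩⟩,[.a ⟨true,0,⟨0,[(30,0)]⟩,⟨0,[(0,0)]⟩⟩ ⟨false,0,⟨0,[(28,0),(1,0)]⟩,⟨7,[(1,1),(10,1),
  (14,0),(1,1),(1,1),(0,2)]⟩⟩ ⟨true,1,⟨0,[(11,0),(18,0)]⟩,⟨0,[(0,0),(1,0)]⟩⟩,.o ⟨false,1,⟨1,[(27,0),
  (2,1),(1,0)]⟩,⟨0,[(29,0)]⟩⟩,.o ⟨false,0,⟨3,[(2,1),(9,1),(14,0),(3,0)]⟩,⟨0,[(11,0)]⟩⟩,.o ⟨false,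
  (-1),⟨0,[(2,0)]⟩,⟨1,[(11,2),(0,0),(18,0)]⟩⟩]⟩) (.Q [0,0,0,-1,0,0,1,1,0,0,1] (.p true [0,0,1] []
  (⟨0,[(21,0)]⟩,⟨0,[(20,0)]⟩) .k 0 (⟨0,[]⟩,⟨0,[]⟩) .k .k) (.S ⟨1,0,[0,0,0,0,0,0,0,1],[0,0,1],[0,1,0,
  0,0,0,0,1],(⟨0,[(22,0)]⟩,⟨0,[(21,0)]⟩),⟨0,[(11,0)]⟩,.k,.k,⟨true,0,⟨0,[(35,0)]⟩,⟨0,[]⟩⟩,⟨false,1,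
  ⟨7,[(2,1),(10,1),(14,0),(1,1),(1,1),(0,2)]⟩,⟨0,[]⟩⟩,⟨false,0,⟨0,[(31,0)]⟩,⟨0,[(30,0),(2,0)]⟩⟩,
  ⟨true,0,⟨0,[(31,0)]⟩,⟨0,[(30,0)]⟩⟩,[.o ⟨false,0,⟨0,[(0,0),(0,0)]⟩,⟨7,[(2,1),(10,1),(4,7),(9,0),(1,
  1),(1,1),(0,2)]⟩⟩,.o ⟨false,1,⟨3,[(0,1),(0,1),(15,1),(10,0),(4,2)]⟩,⟨0,[(18,0)]⟩⟩,.o ⟨false,1,⟨1,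
  [(19,1),(8,0),(3,0)]⟩,⟨0,[(8,0)]⟩⟩,.a ⟨true,0,⟨0,[(19,0)]⟩,⟨0,[(16,0)]⟩⟩ ⟨false,0,⟨0,[(0,0),(0,0),
  (14,0)]⟩,⟨0,[(18,0),(0,0),(13,0)]⟩⟩ ⟨true,0,⟨0,[(0,0),(0,0),(14,0)]⟩,⟨0,[(18,0),(0,0)]⟩⟩]⟩) (.Q
  [0,0,0,0,-1,0,-1,-1,1,0,-1,1] (.p false [0,0,1] [0,0,0,0,1] (⟨0,[(22,0)]⟩,⟨0,[(21,0)]⟩) .k 2 (⟨0,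
  [(15,0)]⟩,⟨0,[(14,0)]⟩) .k (.r (-1) ⟨0,[(8,0),(8,0),(15,0)]⟩ ⟨0,[(0,0),(18,0),(9,0)]⟩)) (.S ⟨1,0,
  [0,0,0,0,0,0,0,1],[0,0,1],[0,1,0,0,0,0,0,1],(⟨0,[(23,0)]⟩,⟨0,[(22,0)]⟩),⟨0,[(12,0)]⟩,.k,.k,⟨true,
  0,⟨0,[(36,0)]⟩,⟨0,[]⟩⟩,⟨false,1,⟨7,[(3,1),(10,1),(14,0),(1,1),(1,1),(0,2)]⟩,⟨0,[]⟩⟩,⟨false,0,⟨0,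
  [(32,0)]⟩,⟨0,[(31,0),(2,0)]⟩⟩,⟨true,0,⟨0,[(32,0)]⟩,⟨0,[(31,0)]⟩⟩,[.o ⟨false,1,⟨1,[(18,1),(10,0),
  (4,0)]⟩,⟨0,[(0,0),(12,0)]⟩⟩,.o ⟨false,1,⟨0,[(2,0),(5,0),(25,0)]⟩,⟨0,[(19,0)]⟩⟩,.o ⟨false,1,⟨1,
  [(20,1),(8,0),(3,0)]⟩,⟨0,[(9,0)]⟩⟩,.a ⟨true,0,⟨0,[(20,0)]⟩,⟨0,[(17,0)]⟩⟩ ⟨true,0,⟨0,[(2,0),(5,0),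
  (8,0)]⟩,⟨0,[(0,0),(12,0),(6,0)]⟩⟩ ⟨false,1,⟨0,[(2,0),(5,0),(8,0),(16,0)]⟩,⟨0,[(0,0),(12,0),(6,
  0)]⟩⟩]⟩) (.S ⟨1,0,[0,0,1,1,0,0,0,-1],[1,1,-1],[0,1,1,1,0,0,0,-1],(⟨0,[(22,0),(1,0)]⟩,⟨0,[(12,
  0)]⟩),⟨0,[(22,0)]⟩,.k,.k,⟨true,0,⟨0,[(36,0)]⟩,⟨0,[]⟩⟩,⟨false,1,⟨7,[(3,1),(10,1),(14,0),(1,1),(1,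
  1),(0,2)]⟩,⟨0,[]⟩⟩,⟨false,0,⟨0,[(32,0)]⟩,⟨0,[(31,0),(2,0)]⟩⟩,⟨true,0,⟨0,[(32,0)]⟩,⟨0,[(31,0)]⟩⟩,
  [.o ⟨false,0,⟨0,[(1,0)]⟩,⟨1,[(8,1),(20,0),(4,0)]⟩⟩,.o ⟨false,1,⟨7,[(1,5),(1,1),(10,1),(4,1),(9,0),
  (3,1),(0,2)]⟩,⟨0,[(0,0),(3,0),(25,0)]⟩⟩,.a ⟨true,0,⟨0,[(17,0)]⟩,⟨0,[(20,0)]⟩⟩ ⟨false,0,⟨0,[(1,0),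
  (18,0)]⟩,⟨0,[(0,0),(3,0),(12,0),(12,0),(3,0)]⟩⟩ ⟨true,0,⟨0,[(1,0),(18,0)]⟩,⟨0,[(0,0),(3,0),(12,0),
  (12,0)]⟩⟩,.o ⟨false,0,⟨0,[(9,0)]⟩,⟨1,[(20,1),(8,0),(3,0)]⟩⟩]⟩)))) (.I [0,-1,1,1,0,0,0,-1] (.R ⟨1,
  false,false,false,[0,0,0,0,1],[1,1,-1],[0,1],(⟨0,[(14,0)]⟩,⟨0,[(13,0)]⟩),(⟨0,[(20,0),(1,0)]⟩,⟨0,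
  [(10,0)]⟩),⟨0,[(4,0)]⟩,.k,.k,(.r 0 ⟨0,[(28,0)]⟩ ⟨1,[(11,0),(0,0),(5,0),(0,0),(10,1),(1,0)]⟩),(.r
  (-1) ⟨3,[(6,3),(1,1),(2,0),(0,0),(14,0),(3,1)]⟩ ⟨0,[(0,0)]⟩),(.r (-1) ⟨1,[(6,1),(8,1),(11,0),(0,
  1),(3,0)]⟩ ⟨1,[(0,1),(17,0),(0,0),(10,1)]⟩),.k,⟨false,1,⟨1,[(6,1),(8,1),(11,0),(3,0)]⟩,⟨0,[(0,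
  0)]⟩⟩,⟨true,1,⟨0,[(11,0),(3,0)]⟩,⟨0,[(2,0),(15,0)]⟩⟩,⟨false,1,⟨1,[(11,0),(0,0),(19,0)]⟩,⟨0,[]⟩⟩,
  ⟨true,1,⟨0,[(0,0),(10,0),(3,0)]⟩,⟨3,[(1,0),(0,2),(3,2),(9,0),(9,0)]⟩⟩,⟨true,0,⟨0,[(30,0)]⟩,⟨0,
  [(29,0)]⟩⟩,⟨true,1,⟨0,[(0,0),(10,0),(3,0),(14,0)]⟩,⟨0,[(2,0),(3,0),(21,0)]⟩⟩,[.o ⟨false,0,⟨3,[(0,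
  2),(0,0),(5,1),(3,0),(3,0),(1,0),(12,1)]⟩,⟨1,[(6,1),(20,0),(4,0)]⟩⟩,.a ⟨true,0,⟨0,[(0,0),(14,0)]⟩,
  ⟨0,[(6,0)]⟩⟩ ⟨false,1,⟨1,[(11,0),(0,0),(18,0)]⟩,⟨0,[]⟩⟩ ⟨true,1,⟨0,[(0,0),(10,0),(3,0)]⟩,⟨0,[(2,
  0),(3,0)]⟩⟩,.o ⟨false,0,⟨3,[(2,1),(9,1),(14,0),(3,0)]⟩,⟨0,[(11,0)]⟩⟩,.o ⟨false,(-1),⟨0,[(2,0)]⟩,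
  ⟨1,[(11,2),(0,0),(18,0)]⟩⟩]⟩) (.I [0,0,0,1,0,0,0,-1] (.S ⟨1,0,[0,0,1,1,0,0,0,-1],[1,1,-1],[0,1,1,
  1,0,0,0,-1],(⟨0,[(21,0),(1,0)]⟩,⟨0,[(11,0)]⟩),⟨0,[(21,0)]⟩,.k,.k,⟨true,0,⟨0,[(35,0)]⟩,⟨0,[]⟩⟩,
  ⟨false,1,⟨1,[(12,0),(0,0),(19,0)]⟩,⟨0,[]⟩⟩,⟨false,0,⟨0,[(31,0)]⟩,⟨0,[(30,0),(2,0)]⟩⟩,⟨true,0,⟨0,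
  [(31,0)]⟩,⟨0,[(30,0)]⟩⟩,[.o ⟨false,0,⟨0,[(0,0),(7,0)]⟩,⟨1,[(7,1),(20,0),(4,0)]⟩⟩,.e ⟨false,0,⟨0,
  [(0,0)]⟩,⟨5,[(1,1),(5,3),(1,1),(18,0),(3,1),(0,2)]⟩⟩ ⟨false,1,⟨1,[(0,1),(11,0),(0,0),(19,0)]⟩,⟨0,
  [(1,0)]⟩⟩,.a ⟨true,0,⟨0,[(16,0)]⟩,⟨0,[(19,0)]⟩⟩ ⟨false,0,⟨1,[(0,1),(18,0),(0,0)]⟩,⟨0,[(1,0),(31,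
  0)]⟩⟩ ⟨true,0,⟨1,[(0,1),(18,0),(0,0)]⟩,⟨0,[(1,0)]⟩⟩,.o ⟨false,0,⟨0,[(8,0)]⟩,⟨1,[(19,1),(8,0),(3,
  0)]⟩⟩]⟩) (.Q [0,0,0,0,0,0,1,1,0,-1,1] (.p true [0,0,1] [1] (⟨0,[(22,0)]⟩,⟨0,[(21,0)]⟩) .k 1 (⟨0,
  []⟩,⟨0,[]⟩) .k .k) (.S ⟨1,0,[0,0,0,0,0,0,0,1],[0,0,1],[0,1,0,0,0,0,0,1],(⟨0,[(23,0)]⟩,⟨0,[(22,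
  0)]⟩),⟨0,[(12,0)]⟩,.k,.k,⟨true,0,⟨0,[(36,0)]⟩,⟨0,[]⟩⟩,⟨false,1,⟨1,[(13,0),(0,0),(19,0)]⟩,⟨0,[]⟩⟩,
  ⟨false,0,⟨0,[(32,0)]⟩,⟨0,[(31,0),(2,0)]⟩⟩,⟨true,0,⟨0,[(32,0)]⟩,⟨0,[(31,0)]⟩⟩,[.o ⟨false,0,⟨0,[(0,
  0)]⟩,⟨1,[(13,0),(0,0),(4,1),(14,0)]⟩⟩,.o ⟨false,1,⟨3,[(0,1),(17,1),(10,0),(4,2)]⟩,⟨0,[(19,0)]⟩⟩,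
  .o ⟨false,1,⟨1,[(20,1),(8,0),(3,0)]⟩,⟨0,[(9,0)]⟩⟩,.a ⟨true,0,⟨0,[(20,0)]⟩,⟨0,[(17,0)]⟩⟩ ⟨false,0,
  ⟨0,[(0,0),(16,0)]⟩,⟨0,[(19,0),(0,0),(13,0)]⟩⟩ ⟨true,0,⟨0,[(0,0),(16,0)]⟩,⟨0,[(19,0),(0,0)]⟩⟩]⟩)
  (.Q [0,0,3,0,-1,0,0,0,0,1] (.pp false [-1,1]) (.Q [0,0,0,-1,0,0,0,0,0,1] (.pp false [-1,1]) (.S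
  ⟨1,0,[0,0,-1,-1],[1,-1],[0,1,-1,-1],(⟨0,[(28,0)]⟩,⟨0,[(29,0)]⟩),⟨0,[(13,0),(0,0)]⟩,.k,(.r (-1) ⟨0,
  [(32,1),(3,0)]⟩ ⟨2,[(1,1),(13,0),(0,0),(14,0),(2,5)]⟩),⟨true,0,⟨0,[(38,0)]⟩,⟨0,[]⟩⟩,⟨false,1,⟨1,
  [(15,0),(0,0),(19,0)]⟩,⟨0,[]⟩⟩,⟨false,0,⟨0,[(34,0)]⟩,⟨0,[(33,0),(2,0)]⟩⟩,⟨true,0,⟨0,[(34,0)]⟩,⟨0,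
  [(33,0)]⟩⟩,[.a ⟨true,0,⟨0,[(0,0)]⟩,⟨0,[(34,0)]⟩⟩ ⟨true,0,⟨0,[(32,0)]⟩,⟨1,[(1,0),(4,0),(8,0),(18,
  1),(1,0)]⟩⟩ ⟨false,1,⟨1,[(32,1),(2,0),(0,0)]⟩,⟨5,[(1,1),(13,0),(0,0),(14,0),(2,5)]⟩⟩,.o ⟨false,1,
  ⟨0,[(33,0),(2,0)]⟩,⟨3,[(1,0),(3,1),(0,0),(8,2),(15,0),(2,5)]⟩⟩,.o ⟨false,0,⟨5,[(1,1),(13,0),(0,0),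
  (14,0)]⟩,⟨1,[(31,0),(3,0)]⟩⟩,.o ⟨false,0,⟨2,[(1,1),(13,0),(0,0),(14,0)]⟩,⟨0,[(5,0),(9,0),(18,0),
  (1,0)]⟩⟩]⟩) (.S ⟨1,0,[0,0,1,1,0,0,0,-1],[1,1,-1],[0,1,1,1,0,0,0,-1],(⟨0,[(24,0),(1,0)]⟩,⟨0,[(14,
  0)]⟩),⟨0,[(24,0)]⟩,.k,.k,⟨true,0,⟨0,[(38,0)]⟩,⟨0,[]⟩⟩,⟨false,1,⟨1,[(15,0),(0,0),(19,0)]⟩,⟨0,[]⟩⟩,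
  ⟨false,0,⟨0,[(34,0)]⟩,⟨0,[(33,0),(2,0)]⟩⟩,⟨true,0,⟨0,[(34,0)]⟩,⟨0,[(33,0)]⟩⟩,[.o ⟨false,0,⟨0,[(0,
  0),(1,0)]⟩,⟨1,[(10,1),(20,0),(4,0)]⟩⟩,.o ⟨false,1,⟨0,[(21,0),(12,0),(1,0)]⟩,⟨1,[(0,0),(2,1),(1,0),
  (9,0),(6,1)]⟩⟩,.a ⟨true,0,⟨0,[(19,0)]⟩,⟨0,[(22,0)]⟩⟩ ⟨false,0,⟨0,[(0,0),(1,0),(19,0)]⟩,⟨1,[(3,1),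
  (31,0),(0,0)]⟩⟩ ⟨true,0,⟨0,[(0,0),(1,0),(19,0)]⟩,⟨0,[(4,0)]⟩⟩,.o ⟨false,0,⟨0,[(11,0)]⟩,⟨1,[(22,1),
  (8,0),(3,0)]⟩⟩]⟩)) (.Q [0,0,0,1,0,0,-1,-1,0,0,-1] (.p false [0,0,1] [] (⟨0,[(24,0)]⟩,⟨0,[(23,
  0)]⟩) .k 0 (⟨0,[]⟩,⟨0,[]⟩) .k .k) (.S ⟨1,0,[0,1,1,1,0,0,0,-1],[1,1,-1],[0,0,1,1,0,0,0,-1],(⟨0,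
  [(24,0),(1,0)]⟩,⟨0,[(14,0)]⟩),⟨0,[(24,0)]⟩,.k,.k,⟨false,1,⟨1,[(15,0),(0,0),(19,0)]⟩,⟨0,[]⟩⟩,⟨true,
  0,⟨0,[(38,0)]⟩,⟨0,[]⟩⟩,⟨true,0,⟨0,[(34,0)]⟩,⟨0,[(33,0)]⟩⟩,⟨false,0,⟨0,[(34,0)]⟩,⟨0,[(33,0),(2,
  0)]⟩⟩,[.o ⟨false,0,⟨0,[(21,0),(12,0)]⟩,⟨1,[(1,0),(1,1),(2,0),(8,0),(6,1),(13,0)]⟩⟩,.o ⟨false,0,⟨0,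
  [(0,0)]⟩,⟨1,[(10,1),(20,0),(4,0)]⟩⟩,.a ⟨true,0,⟨0,[(19,0)]⟩,⟨0,[(22,0)]⟩⟩ ⟨true,0,⟨0,[(0,0),(21,
  0)]⟩,⟨0,[(4,0)]⟩⟩ ⟨false,0,⟨0,[(0,0),(21,0)]⟩,⟨1,[(3,1),(31,0),(0,0)]⟩⟩,.o ⟨false,0,⟨0,[(11,0)]⟩,
  ⟨1,[(22,1),(8,0),(3,0)]⟩⟩]⟩) (.I [0,0,-1,0,0,0,0,1] (.S ⟨1,0,[0,0,0,0,0,0,0,1],[0,0,1],[0,1,0,0,0,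
  0,0,1],(⟨0,[(26,0)]⟩,⟨0,[(25,0)]⟩),⟨0,[(15,0)]⟩,.k,.k,⟨true,0,⟨0,[(39,0)]⟩,⟨0,[]⟩⟩,⟨false,1,⟨1,
  [(16,0),(0,0),(19,0)]⟩,⟨0,[]⟩⟩,⟨false,0,⟨0,[(35,0)]⟩,⟨0,[(34,0),(2,0)]⟩⟩,⟨true,0,⟨0,[(35,0)]⟩,⟨0,
  [(34,0)]⟩⟩,[.e ⟨false,0,⟨4,[(0,3),(20,0),(2,0),(6,1)]⟩,⟨1,[(2,0),(0,1),(3,0),(8,0),(6,1),(13,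
  0)]⟩⟩ ⟨false,0,⟨0,[(0,0)]⟩,⟨1,[(22,1),(0,1),(12,0),(0,0)]⟩⟩,.o ⟨false,1,⟨1,[(0,1),(22,1),(8,0),(4,
  0)]⟩,⟨0,[(22,0)]⟩⟩,.o ⟨false,1,⟨1,[(23,1),(8,0),(3,0)]⟩,⟨0,[(12,0)]⟩⟩,.a ⟨true,0,⟨0,[(23,0)]⟩,⟨0,
  [(20,0)]⟩⟩ ⟨false,0,⟨0,[(0,0)]⟩,⟨0,[(22,0),(0,0),(13,0)]⟩⟩ ⟨true,0,⟨0,[(0,0)]⟩,⟨0,[(22,0),(0,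
  0)]⟩⟩]⟩) (.R ⟨1,false,false,false,[0,0,1],[0,0,0,0,1],[0,0,0,0,0,0,0,1],(⟨0,[(26,0)]⟩,⟨0,[(25,
  0)]⟩),(⟨0,[(19,0)]⟩,⟨0,[(18,0)]⟩),⟨0,[(15,0)]⟩,.k,.k,.k,.k,(.r (-1) ⟨1,[(4,1),(31,0),(0,0)]⟩ ⟨0,
  [(0,0),(34,0),(3,0)]⟩),.k,⟨false,1,⟨6,[(2,1),(1,3),(8,0),(6,0),(0,2),(13,3),(1,4)]⟩,⟨0,[(0,0),(32,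
  0),(1,0)]⟩⟩,⟨true,(-1),⟨0,[(7,0),(12,0)]⟩,⟨0,[(16,0),(6,0)]⟩⟩,⟨false,1,⟨1,[(16,0),(0,0),(19,0)]⟩,
  ⟨0,[]⟩⟩,⟨true,(-1),⟨3,[(3,2),(2,0),(0,1),(2,0),(11,0),(12,0)]⟩,⟨0,[(1,0),(14,0),(18,0)]⟩⟩,⟨true,0,
  ⟨0,[(35,0)]⟩,⟨0,[(34,0)]⟩⟩,⟨true,(-1),⟨3,[(3,2),(2,0),(0,1),(2,0),(11,0),(12,4)]⟩,⟨0,[(1,0),(14,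
  0)]⟩⟩,[.o ⟨false,(-1),⟨3,[(6,0),(0,2),(23,0),(3,0)]⟩,⟨1,[(16,2),(0,0),(19,0)]⟩⟩,.o ⟨false,0,⟨7,
  [(2,0),(4,2),(9,4),(14,1)]⟩,⟨0,[(16,0)]⟩⟩,.o ⟨false,1,⟨1,[(23,1),(8,0),(3,0)]⟩,⟨0,[(12,0)]⟩⟩,.a
  ⟨true,0,⟨0,[(23,0)]⟩,⟨0,[(20,0)]⟩⟩ ⟨false,1,⟨6,[(2,1),(1,3),(8,0),(6,0),(0,2),(13,3),(1,4)]⟩,⟨0,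
  [(0,0)]⟩⟩ ⟨true,(-1),⟨4,[(6,1),(0,1),(2,0),(2,0),(6,2),(14,1)]⟩,⟨0,[(16,0),(6,0)]⟩⟩]⟩)))))))))

theorem ok11 : chk K t11 l8 = true := by decide +kernel

noncomputable def t12 : Tre :=
  (.R ⟨2,true,false,false,[0,1],[0,0,1],[1,1,1],(⟨0,[]⟩,⟨0,[]⟩),(⟨0,[(20,0)]⟩,⟨0,[(19,0)]⟩),⟨0,[]⟩,
  .k,.k,.k,.k,.k,.k,⟨false,0,⟨0,[(0,0),(16,0),(9,0)]⟩,⟨1,[(1,1),(12,1),(11,0),(4,0)]⟩⟩,⟨true,0,⟨0,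
  [(17,0)]⟩,⟨0,[(6,0)]⟩⟩,⟨true,0,⟨0,[(28,0)]⟩,⟨0,[(29,0)]⟩⟩,⟨false,1,⟨0,[(5,0),(25,0)]⟩,⟨0,[(0,
  0)]⟩⟩,⟨false,0,⟨0,[]⟩,⟨1,[(10,0),(0,0),(19,0)]⟩⟩,⟨true,0,⟨0,[(1,0)]⟩,⟨0,[(16,0)]⟩⟩,[]⟩)

theorem ok12 : chk K t12 l10 = true := by decide +kernel

noncomputable def t13 : Tre :=
  (.Q [0,0,0,0,0,-1,0,0,0,1,0,-1] (.ed true [0,1,0,0,1] .k) (.Q [0,2,0,1,-1,0,0,0,1,-1,0,1] (.p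
  true [0,0,0,0,1] [1] (⟨0,[(15,0)]⟩,⟨0,[(14,0)]⟩) .k 1 (⟨0,[]⟩,⟨0,[]⟩) .k .k) (.S ⟨1,0,[0,2,1,1],
  [0,1,0,0,1],[1,1,1],(⟨0,[(16,0),(7,0)]⟩,⟨0,[(1,0)]⟩),⟨0,[(16,0)]⟩,(.r 0 ⟨1,[(20,0),(0,0),(10,1),
  (3,1)]⟩ ⟨0,[(30,0),(3,0)]⟩),.k,⟨false,1,⟨0,[(31,0),(2,0)]⟩,⟨0,[(32,0)]⟩⟩,⟨true,0,⟨0,[(36,0)]⟩,⟨0,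
  []⟩⟩,⟨true,0,⟨0,[]⟩,⟨0,[(36,0)]⟩⟩,⟨false,0,⟨0,[(32,0)]⟩,⟨0,[(31,0),(2,0)]⟩⟩,[.o ⟨false,(-1),⟨0,
  [(0,0)]⟩,⟨1,[(2,1),(2,1),(23,0),(0,1),(3,2)]⟩⟩,.e ⟨false,0,⟨0,[]⟩,⟨1,[(13,0),(0,0),(18,0)]⟩⟩
  ⟨false,0,⟨0,[(32,0),(3,0)]⟩,⟨0,[(30,0),(3,0)]⟩⟩,.a ⟨true,0,⟨1,[(7,1),(25,0),(0,0)]⟩,⟨0,[(2,0),(2,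
  0)]⟩⟩ ⟨false,0,⟨1,[(20,0),(0,0)]⟩,⟨1,[(33,0),(0,0)]⟩⟩ ⟨true,(-1),⟨0,[(0,0),(1,0),(2,0)]⟩,⟨0,[(30,
  0),(3,0)]⟩⟩,.o ⟨false,0,⟨1,[(7,1),(21,0),(4,0)]⟩,⟨0,[(13,0)]⟩⟩]⟩) (.I [1,1,2,1,-1] (.S ⟨1,0,[0,0,
  -1,-1],[1,-1],[0,1,-1,-1],(⟨0,[(27,0)]⟩,⟨0,[(28,0)]⟩),⟨0,[(2,0),(4,0)]⟩,.k,(.r (-1) ⟨0,[(31,1),(3,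
  0)]⟩ ⟨1,[(0,1),(13,0),(0,0),(17,1),(1,0)]⟩),⟨true,0,⟨0,[(37,0)]⟩,⟨0,[]⟩⟩,⟨false,1,⟨1,[(14,0),(0,
  0),(19,0)]⟩,⟨0,[]⟩⟩,⟨false,0,⟨0,[(33,0)]⟩,⟨0,[(32,0),(2,0)]⟩⟩,⟨true,0,⟨0,[(33,0)]⟩,⟨0,[(32,0)]⟩⟩,
  [.a ⟨true,0,⟨2,[(1,0),(1,0),(11,0),(9,0),(1,0),(3,1)]⟩,⟨0,[(33,0)]⟩⟩ ⟨true,0,⟨0,[(31,0)]⟩,⟨0,[(0,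
  0),(34,0)]⟩⟩ ⟨false,1,⟨1,[(31,1),(2,0),(0,0)]⟩,⟨3,[(0,1),(13,0),(0,0),(17,1),(1,0)]⟩⟩,.a ⟨true,0,
  ⟨0,[(1,0),(6,0)]⟩,⟨4,[(0,0),(13,0),(0,0),(13,1),(3,3)]⟩⟩ ⟨false,1,⟨1,[(31,1),(2,0),(0,0)]⟩,⟨3,[(0,
  1),(13,0),(0,0),(17,1),(1,0)]⟩⟩ ⟨true,1,⟨0,[(31,0),(3,0)]⟩,⟨0,[(0,0)]⟩⟩,.o ⟨false,0,⟨1,[(21,0),(0,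
  0)]⟩,⟨1,[(30,0),(3,0)]⟩⟩,.a ⟨true,(-1),⟨0,[(3,0)]⟩,⟨0,[(34,0)]⟩⟩ ⟨false,1,⟨1,[(31,1),(2,0),(0,
  0)]⟩,⟨0,[(0,0),(34,0)]⟩⟩ ⟨true,1,⟨1,[(31,1),(2,0),(0,0)]⟩,⟨0,[(0,0)]⟩⟩]⟩) (.S ⟨1,0,[0,0,-1,-1],[1,
  -1],[0,1,-1,-1],(⟨0,[(27,0)]⟩,⟨0,[(28,0)]⟩),⟨0,[(2,0),(4,0)]⟩,.k,(.r (-1) ⟨0,[(0,0),(31,0)]⟩ ⟨0,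
  [(21,0),(0,0),(10,1)]⟩),⟨true,0,⟨0,[(37,0)]⟩,⟨0,[]⟩⟩,⟨false,1,⟨1,[(14,0),(0,0),(19,0)]⟩,⟨0,[]⟩⟩,
  ⟨false,0,⟨0,[(33,0)]⟩,⟨0,[(32,0),(2,0)]⟩⟩,⟨true,0,⟨0,[(33,0)]⟩,⟨0,[(32,0)]⟩⟩,[.a ⟨true,0,⟨2,[(1,
  0),(1,0),(11,0),(9,0),(1,0),(3,1)]⟩,⟨0,[(33,0)]⟩⟩ ⟨true,0,⟨0,[(31,0)]⟩,⟨1,[(3,1),(26,0),(2,1),(1,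
  0)]⟩⟩ ⟨false,1,⟨1,[(0,0),(31,0),(1,0)]⟩,⟨1,[(21,0),(0,0),(10,1)]⟩⟩,.e ⟨false,1,⟨1,[(0,0),(31,0),
  (1,0)]⟩,⟨1,[(21,0),(0,0),(10,1)]⟩⟩ ⟨false,1,⟨0,[(0,0)]⟩,⟨1,[(21,0),(0,0),(10,1),(3,1)]⟩⟩,.o
  ⟨false,0,⟨1,[(21,0),(0,0)]⟩,⟨1,[(30,0),(3,0)]⟩⟩,.e ⟨false,1,⟨1,[(0,0),(31,0),(1,0)]⟩,⟨1,[(3,1),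
  (26,0),(2,1),(1,0)]⟩⟩ ⟨false,1,⟨0,[(0,0)]⟩,⟨0,[(21,0),(0,0),(10,0)]⟩⟩]⟩))) (.Q [0,0,-1,-1,0,0,0,0,
  0,1] (.pp false [-1,1]) (.R ⟨0,false,false,true,[1,0,0,0,-1],[2,-1,0,0,-1],[0,0,0,-1],(⟨0,[(15,
  0)]⟩,⟨0,[(16,0)]⟩),(⟨0,[(15,0),(10,0)]⟩,⟨0,[(1,0)]⟩),⟨0,[(1,0)]⟩,.k,(.r (-1) ⟨1,[(0,1),(28,0),(4,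
  0)]⟩ ⟨1,[(20,0),(0,0),(10,1),(3,1)]⟩),(.r (-1) ⟨1,[(0,1),(28,0),(4,0)]⟩ ⟨1,[(20,0),(0,0),(10,1),
  (3,1)]⟩),.k,.k,.k,⟨true,0,⟨1,[(20,0),(0,0)]⟩,⟨0,[]⟩⟩,⟨false,0,⟨0,[(24,0),(1,0)]⟩,⟨1,[(29,0),(3,
  0)]⟩⟩,⟨true,0,⟨0,[(31,0)]⟩,⟨0,[(32,0)]⟩⟩,⟨false,0,⟨5,[(0,3),(1,1),(10,0),(0,0),(16,1),(2,0)]⟩,⟨1,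
  [(29,0),(2,1),(1,0)]⟩⟩,⟨false,0,⟨0,[]⟩,⟨0,[]⟩⟩,⟨false,0,⟨0,[]⟩,⟨0,[]⟩⟩,[.e ⟨false,1,⟨1,[(31,1),(1,
  0),(0,0)]⟩,⟨0,[(32,0)]⟩⟩ ⟨false,0,⟨0,[(0,0)]⟩,⟨1,[(13,0),(0,0),(14,0),(2,1)]⟩⟩,.o ⟨false,1,⟨1,[(0,
  1),(1,1),(2,1),(23,0),(4,0)]⟩,⟨0,[(7,0),(21,0),(2,0)]⟩⟩,.o ⟨false,1,⟨0,[(13,0)]⟩,⟨1,[(7,1),(21,0),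
  (4,0)]⟩⟩,.a ⟨true,0,⟨0,[(2,0),(2,0)]⟩,⟨1,[(7,1),(25,0),(0,0)]⟩⟩ ⟨false,1,⟨1,[(0,1),(28,0),(4,0)]⟩,
  ⟨1,[(20,0),(0,0),(10,1)]⟩⟩ ⟨true,0,⟨0,[(0,0)]⟩,⟨0,[(2,0),(2,0),(1,0),(21,0),(2,0)]⟩⟩]⟩) (.Q [0,-3,
  0,-1,2,0,0,0,-2,2,0,-2] (.p false [0,0,-1,0,1] [2,0,-1,0,-1] (⟨0,[(1,0),(9,0)]⟩,⟨0,[(15,0),(7,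
  0)]⟩) .k 2 (⟨0,[(15,0),(6,0)]⟩,⟨0,[(1,0),(10,0)]⟩) .k (.r 0 ⟨0,[(36,1)]⟩ ⟨0,[(34,0)]⟩)) (.Q [0,0,
  0,-1,0,0,0,0,-1,2,0,-1] (.p false [-1,1,0,0,1] [1] (⟨0,[(2,0)]⟩,⟨0,[(16,0),(10,0)]⟩) (.r 0 ⟨1,
  [(21,0),(0,0),(10,1),(3,1)]⟩ ⟨0,[(31,0),(3,0)]⟩) 1 (⟨0,[]⟩,⟨0,[]⟩) .k .k) (.R ⟨0,false,false,true,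
  [1,0,0,0,-1],[2,-1,0,0,-1],[0,0,0,-1],(⟨0,[(17,0)]⟩,⟨0,[(18,0)]⟩),(⟨0,[(17,0),(10,0)]⟩,⟨0,[(3,
  0)]⟩),⟨0,[(3,0)]⟩,.k,(.r (-1) ⟨0,[(32,0),(3,0)]⟩ ⟨1,[(22,0),(0,0),(10,1),(3,1)]⟩),(.r (-1) ⟨0,
  [(32,0),(3,0)]⟩ ⟨1,[(22,0),(0,0),(10,1),(3,1)]⟩),.k,.k,.k,⟨true,0,⟨1,[(22,0),(0,0)]⟩,⟨0,[]⟩⟩,
  ⟨false,0,⟨1,[(0,0),(15,0),(17,0)]⟩,⟨1,[(31,0),(3,0)]⟩⟩,⟨true,0,⟨0,[(33,0)]⟩,⟨0,[(34,0)]⟩⟩,⟨false,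
  0,⟨1,[(1,0),(7,1),(23,0)]⟩,⟨1,[(31,0),(2,1),(1,0)]⟩⟩,⟨false,0,⟨0,[]⟩,⟨0,[]⟩⟩,⟨false,0,⟨0,[]⟩,⟨0,
  []⟩⟩,[.a ⟨true,0,⟨0,[(0,0)]⟩,⟨1,[(9,1),(21,0),(2,1),(1,0)]⟩⟩ ⟨false,1,⟨1,[(33,1),(1,0),(0,0)]⟩,⟨0,
  [(34,0)]⟩⟩ ⟨true,0,⟨1,[(1,0),(7,1),(23,0)]⟩,⟨0,[(2,0)]⟩⟩,.o ⟨false,1,⟨1,[(1,0),(31,0)]⟩,⟨0,[(9,0),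
  (21,0),(2,0)]⟩⟩,.o ⟨false,1,⟨0,[(15,0)]⟩,⟨1,[(9,1),(21,0),(4,0)]⟩⟩,.e ⟨false,1,⟨0,[(32,0),(3,0)]⟩,
  ⟨1,[(22,0),(0,0),(10,1)]⟩⟩ ⟨false,1,⟨3,[(1,1),(7,1),(6,1),(15,1),(2,0),(0,0)]⟩,⟨0,[(2,0)]⟩⟩]⟩)
  (.R ⟨0,false,false,true,[1,0,0,0,-1],[2,-1,0,0,-1],[0,1,1],(⟨0,[(17,0)]⟩,⟨0,[(18,0)]⟩),(⟨0,[(17,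
  0),(10,0)]⟩,⟨0,[(3,0)]⟩),⟨0,[(3,0)]⟩,.k,(.r (-1) ⟨0,[(32,0),(3,0)]⟩ ⟨1,[(22,0),(0,0),(10,1),(3,
  1)]⟩),(.r (-1) ⟨0,[(32,0),(3,0)]⟩ ⟨1,[(22,0),(0,0),(10,1),(3,1)]⟩),.k,.k,.k,⟨true,(-1),⟨0,[(2,0),
  (1,0),(2,0),(1,0)]⟩,⟨0,[(32,0),(3,0)]⟩⟩,⟨false,0,⟨0,[(26,0),(1,0)]⟩,⟨1,[(31,0),(3,0)]⟩⟩,⟨true,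
  (-1),⟨0,[(2,0),(1,0),(2,0),(1,0),(22,0)]⟩,⟨1,[(35,0),(0,0)]⟩⟩,⟨false,0,⟨1,[(1,0),(7,1),(23,0)]⟩,
  ⟨1,[(31,0),(2,1),(1,0)]⟩⟩,⟨false,0,⟨0,[]⟩,⟨0,[]⟩⟩,⟨false,0,⟨0,[]⟩,⟨0,[]⟩⟩,[.o ⟨false,1,⟨1,[(1,0),
  (31,0),(4,1)]⟩,⟨0,[(0,0)]⟩⟩,.o ⟨false,1,⟨1,[(1,0),(31,0)]⟩,⟨0,[(0,0),(37,0)]⟩⟩,.o ⟨false,1,⟨0,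
  [(15,0)]⟩,⟨1,[(9,1),(21,0),(4,0)]⟩⟩,.a ⟨true,0,⟨0,[(4,0),(2,0)]⟩,⟨1,[(9,1),(25,0),(0,0)]⟩⟩ ⟨true,
  0,⟨0,[(38,0)]⟩,⟨0,[]⟩⟩ ⟨false,1,⟨3,[(1,1),(7,1),(6,1),(15,1),(2,0),(0,0)]⟩,⟨0,[(2,0)]⟩⟩]⟩)) (.R
  ⟨1,false,false,false,[2,-1,0,0,-1],[1,-1],[0,-1,-1,-1],(⟨0,[(16,0),(10,0)]⟩,⟨0,[(2,0)]⟩),(⟨0,[(27,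
  0)]⟩,⟨0,[(28,0)]⟩),⟨0,[(12,0),(0,0),(2,0)]⟩,(.r (-1) ⟨0,[(31,0),(3,0)]⟩ ⟨1,[(21,0),(0,0),(10,1),
  (3,1)]⟩),.k,(.r (-2) ⟨1,[(31,1),(0,1),(1,0),(0,2)]⟩ ⟨4,[(0,0),(0,2),(1,4),(2,1),(22,0),(3,5)]⟩),
  .k,(.r (-1) ⟨0,[(31,0),(3,0)]⟩ ⟨1,[(21,0),(0,0),(10,1),(3,1)]⟩),.k,⟨false,1,⟨1,[(34,0),(0,0)]⟩,⟨0,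
  [(37,0)]⟩⟩,⟨true,0,⟨1,[(0,0),(31,0),(2,1)]⟩,⟨0,[(3,0),(2,0)]⟩⟩,⟨false,1,⟨1,[(14,0),(0,0),(19,0)]⟩,
  ⟨0,[]⟩⟩,⟨false,0,⟨1,[(0,0),(31,0),(2,1)]⟩,⟨1,[(3,0),(2,1),(18,0),(1,0),(7,0)]⟩⟩,⟨true,0,⟨0,[(33,
  0)]⟩,⟨0,[(32,0)]⟩⟩,⟨false,0,⟨5,[(0,1),(14,1),(14,0),(2,3),(1,2)]⟩,⟨0,[(3,0),(2,0),(24,0),(3,0)]⟩⟩,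
  [.a ⟨true,0,⟨1,[(3,0),(21,0),(1,0),(3,1),(3,0)]⟩,⟨0,[(33,0)]⟩⟩ ⟨true,1,⟨0,[(31,0),(3,0)]⟩,⟨4,[(0,
  0),(0,2),(1,4),(2,1),(22,0),(3,0)]⟩⟩ ⟨false,1,⟨5,[(0,1),(14,1),(14,0),(0,7),(2,1),(0,6)]⟩,⟨0,[(3,
  0),(2,0),(26,0)]⟩⟩,.o ⟨false,1,⟨0,[(32,0),(2,0)]⟩,⟨4,[(0,0),(0,2),(4,1),(22,0),(3,0)]⟩⟩,.o ⟨false,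
  0,⟨0,[(3,0),(2,0)]⟩,⟨2,[(0,0),(14,0),(14,1),(0,0),(2,0),(0,1)]⟩⟩,.o ⟨false,0,⟨0,[(3,0),(10,0)]⟩,
  ⟨0,[(0,0),(5,0),(24,0),(3,1)]⟩⟩]⟩))))

theorem ok13 : chk K t13 l11 = true := by decide +kernel

noncomputable def t14 : Tre :=
  (.I [1,-1,0,0,1,0,0,-1] (.S ⟨1,0,[0,0,0,0,0,0,0,1],[0,0,1],[0,1,0,0,0,0,0,1],(⟨0,[(24,0)]⟩,⟨0,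
  [(23,0)]⟩),⟨0,[(13,0)]⟩,.k,.k,⟨true,0,⟨0,[(37,0)]⟩,⟨0,[]⟩⟩,⟨false,1,⟨1,[(14,0),(0,0),(19,0)]⟩,⟨0,
  []⟩⟩,⟨false,0,⟨0,[(33,0)]⟩,⟨0,[(32,0),(2,0)]⟩⟩,⟨true,0,⟨0,[(33,0)]⟩,⟨0,[(32,0)]⟩⟩,[.e ⟨false,0,⟨4,
  [(1,3),(17,0),(2,0),(6,1)]⟩,⟨0,[(0,0)]⟩⟩ ⟨false,0,⟨0,[(1,0)]⟩,⟨0,[(0,0),(36,0)]⟩⟩,.o ⟨false,1,⟨1,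
  [(5,1),(24,0),(4,0)]⟩,⟨0,[(20,0)]⟩⟩,.o ⟨false,1,⟨2,[(0,0),(2,0),(15,0),(1,1),(8,0)]⟩,⟨0,[(10,
  0)]⟩⟩,.a ⟨true,0,⟨0,[(21,0)]⟩,⟨0,[(18,0)]⟩⟩ ⟨false,0,⟨0,[(1,0)]⟩,⟨1,[(0,1),(20,0),(0,0)]⟩⟩ ⟨true,
  0,⟨0,[(1,0)]⟩,⟨0,[(20,0),(0,0)]⟩⟩]⟩) (.I [1,-1,2,1] (.Q [0,0,0,-2,0,0,0,0,0,1] (.pp false [-1,1])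
  (.S ⟨1,0,[0,0,-1,-1],[1,-1],[0,1,-1,-1],(⟨0,[(29,0)]⟩,⟨0,[(30,0)]⟩),⟨0,[(14,0),(0,0)]⟩,.k,(.r
  (-1) ⟨0,[(4,0),(29,0)]⟩ ⟨2,[(1,3),(29,1),(3,1)]⟩),⟨true,0,⟨0,[(39,0)]⟩,⟨0,[]⟩⟩,⟨false,1,⟨1,[(16,
  0),(0,0),(19,0)]⟩,⟨0,[]⟩⟩,⟨false,0,⟨0,[(35,0)]⟩,⟨3,[(0,1),(15,0),(0,0),(14,0),(4,1)]⟩⟩,⟨true,0,⟨0,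
  [(35,0)]⟩,⟨0,[(34,0)]⟩⟩,[.a ⟨true,0,⟨1,[(0,0),(26,0),(1,0)]⟩,⟨0,[(35,0)]⟩⟩ ⟨true,0,⟨0,[(33,0)]⟩,
  ⟨0,[(1,0)]⟩⟩ ⟨false,1,⟨1,[(4,0),(29,0),(1,0)]⟩,⟨2,[(1,1),(29,0),(3,0)]⟩⟩,.e ⟨false,1,⟨1,[(4,0),
  (29,0),(1,0)]⟩,⟨2,[(1,1),(29,0),(3,0)]⟩⟩ ⟨false,1,⟨0,[(4,0)]⟩,⟨0,[(1,0),(29,0)]⟩⟩,.o ⟨false,0,⟨1,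
  [(23,0),(0,0)]⟩,⟨1,[(32,0),(3,0)]⟩⟩,.o ⟨false,0,⟨0,[(23,0),(0,0)]⟩,⟨0,[(5,0)]⟩⟩]⟩) (.Q [0,0,0,2,0,
  0,-2,-2,0,1,-2] (.p false [0,0,1] [1,0,-1] (⟨0,[(26,0)]⟩,⟨0,[(25,0)]⟩) .k 2 (⟨0,[(25,0)]⟩,⟨0,[(26,
  0)]⟩) .k (.r 1 ⟨0,[(2,1),(34,0)]⟩ ⟨0,[(22,1),(0,1),(12,0),(0,0)]⟩)) (.S ⟨1,0,[0,0,0,0,0,0,0,1],[0,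
  0,1],[1,1,0,-1,0,0,0,1],(⟨0,[(27,0)]⟩,⟨0,[(26,0)]⟩),⟨0,[(16,0)]⟩,.k,.k,⟨true,0,⟨0,[(35,0)]⟩,⟨0,
  [(36,0)]⟩⟩,⟨false,1,⟨1,[(17,0),(0,0),(19,0)]⟩,⟨0,[]⟩⟩,⟨false,0,⟨0,[]⟩,⟨1,[(17,0),(0,0),(19,0)]⟩⟩,
  ⟨true,0,⟨0,[(36,0)]⟩,⟨0,[(35,0)]⟩⟩,[.e ⟨false,0,⟨8,[(3,1),(0,2),(0,0),(6,3),(1,1),(18,0),(0,3)]⟩,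
  ⟨1,[(0,0),(5,0),(17,1),(13,0)]⟩⟩ ⟨false,0,⟨0,[(4,0)]⟩,⟨1,[(23,1),(0,1),(12,0),(0,0)]⟩⟩,.o ⟨false,
  1,⟨1,[(8,1),(24,0),(4,0)]⟩,⟨0,[(23,0)]⟩⟩,.o ⟨false,1,⟨1,[(24,1),(8,0),(3,0)]⟩,⟨0,[(13,0)]⟩⟩,.a
  ⟨true,0,⟨0,[(24,0)]⟩,⟨0,[(21,0)]⟩⟩ ⟨false,0,⟨2,[(3,1),(1,1),(1,0),(17,0)]⟩,⟨3,[(0,1),(16,0),(0,0),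
  (5,3),(8,0),(4,1)]⟩⟩ ⟨true,0,⟨0,[(4,0)]⟩,⟨0,[(23,0),(0,0)]⟩⟩]⟩) (.S ⟨1,0,[0,0,0,0,0,0,0,1],[0,0,
  1],[1,1,0,-1,0,0,0,1],(⟨0,[(27,0)]⟩,⟨0,[(26,0)]⟩),⟨0,[(16,0)]⟩,.k,.k,⟨true,0,⟨0,[(35,0)]⟩,⟨0,[(36,
  0)]⟩⟩,⟨false,1,⟨1,[(17,0),(0,0),(19,0)]⟩,⟨0,[]⟩⟩,⟨false,0,⟨0,[]⟩,⟨1,[(17,0),(0,0),(19,0)]⟩⟩,⟨true,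
  0,⟨0,[(36,0)]⟩,⟨0,[(35,0)]⟩⟩,[.o ⟨false,0,⟨1,[(0,0),(0,0)]⟩,⟨1,[(17,0),(0,0),(4,1),(14,0)]⟩⟩,.o
  ⟨false,1,⟨1,[(8,1),(24,0),(4,0)]⟩,⟨0,[(23,0)]⟩⟩,.o ⟨false,1,⟨1,[(24,1),(8,0),(3,0)]⟩,⟨0,[(13,
  0)]⟩⟩,.a ⟨true,0,⟨0,[(24,0)]⟩,⟨0,[(21,0)]⟩⟩ ⟨false,0,⟨3,[(0,0),(2,1),(1,1),(8,0)]⟩,⟨0,[(23,0),(0,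
  0),(11,0),(1,0)]⟩⟩ ⟨true,0,⟨0,[(4,0)]⟩,⟨0,[(23,0),(0,0)]⟩⟩]⟩))) (.Q [0,0,0,0,0,0,1,1,0,-1,1] (.p
  true [0,0,1] [1] (⟨0,[(25,0)]⟩,⟨0,[(24,0)]⟩) .k 1 (⟨0,[]⟩,⟨0,[]⟩) .k .k) (.S ⟨1,0,[0,0,0,0,0,0,0,
  1],[0,0,1],[1,1,0,-1,0,0,0,1],(⟨0,[(26,0)]⟩,⟨0,[(25,0)]⟩),⟨0,[(15,0)]⟩,.k,.k,⟨true,0,⟨0,[(34,0)]⟩,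
  ⟨0,[(35,0)]⟩⟩,⟨false,1,⟨1,[(16,0),(0,0),(19,0)]⟩,⟨0,[]⟩⟩,⟨false,0,⟨0,[]⟩,⟨1,[(16,0),(0,0),(19,
  0)]⟩⟩,⟨true,0,⟨0,[(35,0)]⟩,⟨0,[(34,0)]⟩⟩,[.o ⟨false,0,⟨0,[(0,0)]⟩,⟨1,[(16,0),(0,0),(4,1),(14,
  0)]⟩⟩,.o ⟨false,1,⟨1,[(7,1),(24,0),(4,0)]⟩,⟨0,[(22,0)]⟩⟩,.o ⟨false,1,⟨1,[(23,1),(8,0),(3,0)]⟩,⟨0,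
  [(12,0)]⟩⟩,.a ⟨true,0,⟨0,[(23,0)]⟩,⟨0,[(20,0)]⟩⟩ ⟨false,0,⟨2,[(2,1),(1,1),(1,0),(17,0)]⟩,⟨0,[(22,
  0),(0,0),(11,0),(1,0)]⟩⟩ ⟨true,0,⟨0,[(3,0)]⟩,⟨0,[(22,0),(0,0)]⟩⟩]⟩) (.Q [0,0,0,1,0,0,1,1,0,-1,1]
  (.p true [0,0,1] [1] (⟨0,[(26,0)]⟩,⟨0,[(25,0)]⟩) .k 1 (⟨0,[]⟩,⟨0,[]⟩) .k .k) (.R ⟨1,false,false,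
  true,[0,0,1],[1,-1],[0,1,0,-1],(⟨0,[(27,0)]⟩,⟨0,[(26,0)]⟩),(⟨0,[(30,0)]⟩,⟨0,[(31,0)]⟩),⟨0,[(16,
  0)]⟩,.k,.k,.k,.k,.k,.k,⟨true,0,⟨1,[(24,0),(0,0)]⟩,⟨0,[]⟩⟩,⟨false,0,⟨1,[(14,0),(13,0),(1,0)]⟩,⟨0,
  [(6,0),(17,0)]⟩⟩,⟨false,1,⟨1,[(5,0),(17,1),(0,1),(10,0),(2,0)]⟩,⟨0,[(3,0),(32,0),(1,0)]⟩⟩,⟨true,0,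
  ⟨0,[(1,0),(33,0)]⟩,⟨0,[(0,0)]⟩⟩,⟨false,1,⟨1,[(23,1),(0,1),(12,0),(0,0)]⟩,⟨0,[(3,0),(34,0)]⟩⟩,
  ⟨false,0,⟨0,[(1,0)]⟩,⟨1,[(8,1),(24,0),(4,0)]⟩⟩,[.o ⟨false,0,⟨0,[(35,0)]⟩,⟨1,[(33,0),(2,1),(1,
  0)]⟩⟩,.e ⟨false,1,⟨1,[(5,0),(11,0),(0,0),(16,0)]⟩,⟨0,[(36,0)]⟩⟩ ⟨false,0,⟨2,[(1,2),(1,1),(1,1),(1,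
  0),(17,0)]⟩,⟨1,[(24,1),(8,0),(2,1),(0,0)]⟩⟩,.o ⟨false,1,⟨1,[(24,1),(8,0),(3,0)]⟩,⟨0,[(13,0)]⟩⟩,.a
  ⟨true,0,⟨0,[(24,0)]⟩,⟨0,[(21,0)]⟩⟩ ⟨true,0,⟨0,[(34,0)]⟩,⟨1,[(24,0),(0,0),(10,1)]⟩⟩ ⟨false,0,⟨2,
  [(1,2),(1,1),(1,1),(1,0),(17,0)]⟩,⟨1,[(24,1),(8,0),(2,1),(1,0)]⟩⟩]⟩) (.Q [0,0,0,0,0,0,0,0,0,0,-1,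
  1] (.ed false [1,0,-1,0,1] (.r (-1) ⟨1,[(17,0),(0,0),(4,1),(0,1),(12,0)]⟩ ⟨0,[(3,0),(34,0)]⟩))
  (.Q [0,0,-1,0,0,0,-1,0,1,-1,-1,1] (.p true [0,0,-1,0,1] [1] (⟨0,[(0,0)]⟩,⟨0,[(20,0),(7,0)]⟩) .k 1
  (⟨0,[]⟩,⟨0,[]⟩) .k (.r (-1) ⟨1,[(18,0),(0,0),(4,1),(0,1),(12,0)]⟩ ⟨0,[(4,0),(34,0)]⟩)) (.R ⟨1,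
  false,false,true,[1,0,1,0,-1],[1,0,0,0,-1],[0,0,0,0,0,0,0,1],(⟨0,[(21,0),(7,0)]⟩,⟨0,[(1,0)]⟩),(⟨0,
  [(21,0)]⟩,⟨0,[(22,0)]⟩),⟨0,[(18,0),(2,0)]⟩,.k,.k,(.r (-1) ⟨5,[(6,1),(0,1),(1,1),(4,1),(1,1),(18,
  0),(4,2)]⟩ ⟨0,[(25,0),(0,0),(11,0)]⟩),.k,.k,.k,⟨false,0,⟨0,[(6,0)]⟩,⟨1,[(25,1),(0,1),(12,0),(0,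
  0)]⟩⟩,⟨true,0,⟨0,[(15,0)]⟩,⟨0,[(26,0)]⟩⟩,⟨true,0,⟨0,[(42,0)]⟩,⟨0,[]⟩⟩,⟨true,0,⟨0,[(25,0)]⟩,⟨0,
  [(10,0)]⟩⟩,⟨false,0,⟨0,[(38,0)]⟩,⟨0,[(37,0),(2,0)]⟩⟩,⟨true,0,⟨0,[(25,0),(12,0)]⟩,⟨0,[(9,0)]⟩⟩,[.o
  ⟨false,1,⟨0,[(19,0)]⟩,⟨1,[(13,1),(21,0),(4,0)]⟩⟩,.a ⟨true,1,⟨0,[(3,0),(1,0),(5,0),(14,0),(13,0)]⟩,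
  ⟨0,[(13,0)]⟩⟩ ⟨true,0,⟨0,[(5,0),(34,0)]⟩,⟨0,[(25,0),(0,0)]⟩⟩ ⟨false,1,⟨1,[(8,0),(7,0),(23,0)]⟩,⟨2,
  [(4,0),(21,2),(7,0),(3,0)]⟩⟩,.o ⟨false,1,⟨0,[(11,0),(14,0)]⟩,⟨3,[(0,1),(12,1),(13,1),(7,0),(4,
  0)]⟩⟩,.o ⟨false,1,⟨0,[(19,0),(6,0)]⟩,⟨0,[(0,0)]⟩⟩]⟩) (.K ⟨0,[1,0,1,0,-1],0,0,(⟨0,[(21,0),(7,0)]⟩,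
  ⟨0,[(1,0)]⟩),.k,(.r (-1) ⟨5,[(6,1),(0,1),(1,1),(4,1),(1,1),(18,0),(4,2)]⟩ ⟨0,[(25,0),(0,0),(11,
  0)]⟩),(.r 0 ⟨1,[(5,1),(20,0),(0,0),(10,1),(1,1)]⟩ ⟨1,[(7,0),(17,1),(0,1),(10,0),(1,0)]⟩),.k,.k,
  [⟨1,[(13,1),(21,0),(4,0)]⟩,⟨0,[(0,0)]⟩,⟨1,[(13,0),(6,0),(4,1),(9,0),(6,0)]⟩,⟨0,[(0,0),(5,0)]⟩]⟩))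
  (.Q [0,0,1,0,-1,0,-1,0,1,0,-1,1] (.p true [1,0,-1,0,1] [1] (⟨0,[(21,0),(5,0)]⟩,⟨0,[(0,0)]⟩) .k 1
  (⟨0,[]⟩,⟨0,[]⟩) .k (.r (-1) ⟨1,[(18,0),(0,0),(4,1),(0,1),(12,0)]⟩ ⟨0,[(4,0),(34,0)]⟩)) (.S ⟨1,0,
  [0,1,0,0,0,0,0,-1],[1,0,-1,0,1],[1,2,0,-1,0,0,0,-1],(⟨0,[(22,0),(5,0)]⟩,⟨0,[(1,0)]⟩),⟨0,[(17,0),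
  (4,0)]⟩,.k,(.r (-1) ⟨1,[(7,0),(17,1),(0,1),(10,0),(1,0)]⟩ ⟨1,[(5,1),(20,0),(0,0),(10,1),(1,1)]⟩),
  ⟨true,0,⟨0,[(37,0)]⟩,⟨0,[(38,0)]⟩⟩,⟨false,1,⟨1,[(19,0),(0,0),(19,0)]⟩,⟨0,[]⟩⟩,⟨false,0,⟨0,[]⟩,⟨1,
  [(19,0),(0,0),(19,0)]⟩⟩,⟨true,0,⟨0,[(38,0)]⟩,⟨0,[(37,0)]⟩⟩,[.e ⟨false,0,⟨0,[(4,0),(20,0),(0,0)]⟩,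
  ⟨1,[(6,0),(3,0),(16,0),(10,1),(1,1)]⟩⟩ ⟨false,1,⟨0,[(25,0),(0,0),(12,0)]⟩,⟨0,[(5,0),(34,0)]⟩⟩,.o
  ⟨false,0,⟨0,[(13,0),(11,0),(14,0)]⟩,⟨1,[(5,1),(5,1),(14,1),(8,0),(4,0)]⟩⟩,.a ⟨true,(-1),⟨0,[(3,0),
  (1,0),(7,0),(26,0)]⟩,⟨0,[(11,0),(14,0)]⟩⟩ ⟨true,0,⟨1,[(4,0),(20,1),(0,1),(10,0)]⟩,⟨0,[(5,0),(32,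
  0),(1,0)]⟩⟩ ⟨false,1,⟨1,[(25,1),(0,1),(12,0),(0,0)]⟩,⟨0,[(5,0),(34,0)]⟩⟩,.o ⟨false,(-1),⟨0,[(0,
  0)]⟩,⟨1,[(11,1),(14,1),(8,0),(3,0)]⟩⟩]⟩) (.Q [0,-1,0,0,1,0,-1,-1,-1,1,-1,-1] (.p false [0,0,1] [1,
  0,0,0,-1] (⟨0,[(29,0)]⟩,⟨0,[(28,0)]⟩) .k 2 (⟨0,[(21,0)]⟩,⟨0,[(22,0)]⟩) .k (.r 1 ⟨0,[(5,0)]⟩ ⟨1,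
  [(0,0),(18,0),(0,1),(4,1),(0,0),(13,1)]⟩)) (.R ⟨1,false,false,false,[1,0,0,0,-1],[0,-1,1],[1,0,0,
  -1],(⟨0,[(22,0)]⟩,⟨0,[(23,0)]⟩),(⟨0,[(19,0)]⟩,⟨0,[(29,0),(1,0)]⟩),⟨0,[(2,0),(15,0)]⟩,.k,.k,(.r
  (-1) ⟨1,[(8,0),(29,0),(2,0)]⟩ ⟨1,[(27,0),(0,0),(10,1),(3,1)]⟩),(.r (-1) ⟨0,[(26,0),(0,0),(11,0),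
  (1,0)]⟩ ⟨6,[(5,1),(0,1),(0,0),(0,0),(6,3),(1,1),(18,0)]⟩),.k,.k,⟨false,1,⟨1,[(1,0),(19,0),(4,1),
  (0,0),(13,0)]⟩,⟨0,[(7,0)]⟩⟩,⟨true,0,⟨1,[(14,1),(12,1),(8,0),(4,0)]⟩,⟨0,[(0,0),(5,0)]⟩⟩,⟨true,0,⟨0,
  [(38,0)]⟩,⟨0,[(39,0)]⟩⟩,⟨false,0,⟨1,[(10,1),(3,1),(21,0),(4,0)]⟩,⟨0,[(0,0),(38,0)]⟩⟩,⟨false,0,⟨0,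
  []⟩,⟨1,[(20,0),(0,0),(19,0)]⟩⟩,⟨false,0,⟨1,[(11,1),(2,1),(21,0),(4,0)]⟩,⟨0,[(0,0)]⟩⟩,[.e ⟨false,1,
  ⟨1,[(8,0),(11,0),(0,0),(16,0)]⟩,⟨0,[(39,0)]⟩⟩ ⟨false,0,⟨1,[(6,1),(1,1),(5,1),(12,1),(8,0),(4,0)]⟩,
  ⟨0,[(0,0),(38,0),(3,0)]⟩⟩,.o ⟨false,1,⟨1,[(10,1),(25,0),(4,0)]⟩,⟨0,[(26,0),(12,0)]⟩⟩,.o ⟨false,1,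
  ⟨0,[(20,0)]⟩,⟨1,[(14,1),(21,0),(4,0)]⟩⟩,.a ⟨true,0,⟨0,[(0,0),(5,0),(20,0)]⟩,⟨1,[(8,0),(5,0),(6,0),
  (17,0)]⟩⟩ ⟨false,1,⟨1,[(8,0),(29,0),(2,0)]⟩,⟨1,[(27,0),(0,0),(10,1)]⟩⟩ ⟨true,0,⟨1,[(6,1),(1,1),(5,
  1),(12,1),(8,0),(4,0)]⟩,⟨0,[(0,0),(5,0),(19,0),(0,0),(11,0)]⟩⟩]⟩) (.Q [0,0,-1,0,0,0,0,0,1,-1,0,1]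
  (.p true [0,0,0,0,1] [1] (⟨0,[(23,0)]⟩,⟨0,[(22,0)]⟩) .k 1 (⟨0,[]⟩,⟨0,[]⟩) .k .k) (.S ⟨1,0,[],[1,0,
  0,0,-1],[0,-1],(⟨0,[(23,0)]⟩,⟨0,[(24,0)]⟩),⟨0,[(3,0),(15,0)]⟩,.k,(.r (-1) ⟨1,[(9,0),(29,0),(2,
  0)]⟩ ⟨1,[(28,0),(0,0),(10,1),(3,1)]⟩),⟨false,1,⟨1,[(21,0),(0,0),(19,0)]⟩,⟨0,[]⟩⟩,⟨true,0,⟨0,[(44,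
  0)]⟩,⟨0,[]⟩⟩,⟨true,0,⟨0,[(40,0)]⟩,⟨0,[(39,0)]⟩⟩,⟨false,0,⟨0,[(40,0)]⟩,⟨0,[(39,0),(2,0)]⟩⟩,[.o
  ⟨false,1,⟨0,[(21,0)]⟩,⟨1,[(15,1),(21,0),(4,0)]⟩⟩,.a ⟨true,1,⟨1,[(2,0),(2,1),(1,1),(13,0),(6,0),
  (13,1)]⟩,⟨0,[(15,0)]⟩⟩ ⟨true,1,⟨0,[(42,0)]⟩,⟨0,[(7,0),(19,0),(0,0)]⟩⟩ ⟨false,1,⟨1,[(41,0),(0,0)]⟩,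
  ⟨0,[(44,0)]⟩⟩,.o ⟨false,1,⟨0,[(21,0)]⟩,⟨1,[(15,1),(21,0),(4,0)]⟩⟩,.o ⟨false,1,⟨1,[(21,1),(6,0),(0,
  0)]⟩,⟨0,[(0,0)]⟩⟩]⟩) (.S ⟨1,0,[0,-1],[1,0,0,0,-1],[1,0,0,-1],(⟨0,[(23,0)]⟩,⟨0,[(24,0)]⟩),⟨0,[(3,
  0),(15,0)]⟩,.k,(.r (-1) ⟨1,[(9,0),(29,0),(2,0)]⟩ ⟨1,[(28,0),(0,0),(10,1),(3,1)]⟩),⟨true,0,⟨0,[(39,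
  0)]⟩,⟨0,[(40,0)]⟩⟩,⟨false,1,⟨1,[(21,0),(0,0),(19,0)]⟩,⟨0,[]⟩⟩,⟨false,0,⟨0,[]⟩,⟨1,[(21,0),(0,0),
  (19,0)]⟩⟩,⟨true,0,⟨0,[(40,0)]⟩,⟨0,[(39,0)]⟩⟩,[.e ⟨false,1,⟨1,[(9,0),(11,0),(0,0),(16,0)]⟩,⟨0,[(40,
  0)]⟩⟩ ⟨false,1,⟨1,[(41,0),(0,0)]⟩,⟨0,[(44,0)]⟩⟩,.o ⟨false,2,⟨0,[(21,0),(20,0)]⟩,⟨0,[(1,0),(25,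
  0)]⟩⟩,.o ⟨false,1,⟨0,[(21,0)]⟩,⟨1,[(15,1),(21,0),(4,0)]⟩⟩,.a ⟨true,0,⟨0,[(0,0)]⟩,⟨1,[(9,0),(5,0),
  (6,0),(17,0)]⟩⟩ ⟨false,1,⟨1,[(9,0),(29,0),(2,0)]⟩,⟨1,[(28,0),(0,0),(10,1)]⟩⟩ ⟨true,1,⟨1,[(41,0),
  (0,0)]⟩,⟨0,[(7,0),(19,0),(0,0)]⟩⟩]⟩)))))))))

theorem ok14 : chk K t14 l13 = true := by decide +kernel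

noncomputable def t15 : Tre :=
  (.S ⟨1,0,[0,0,-1,-1],[1,-1],[0,1,-1,-1],(⟨0,[(27,0)]⟩,⟨0,[(28,0)]⟩),⟨0,[(12,0),(0,0)]⟩,.k,(.r
  (-1) ⟨0,[(2,0),(29,0)]⟩ ⟨2,[(0,3),(28,1),(3,1)]⟩),⟨true,0,⟨0,[(37,0)]⟩,⟨0,[]⟩⟩,⟨false,1,⟨1,[(14,
  0),(0,0),(19,0)]⟩,⟨0,[]⟩⟩,⟨false,0,⟨0,[(33,0)]⟩,⟨0,[(32,0),(2,0)]⟩⟩,⟨true,0,⟨0,[(33,0)]⟩,⟨0,[(32,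
  0)]⟩⟩,[.a ⟨true,0,⟨0,[(1,0),(2,0),(13,0)]⟩,⟨0,[(33,0)]⟩⟩ ⟨true,0,⟨0,[(31,0)]⟩,⟨0,[(0,0)]⟩⟩ ⟨false,
  1,⟨1,[(2,0),(29,0),(1,0)]⟩,⟨2,[(0,1),(28,0),(3,0)]⟩⟩,.e ⟨false,1,⟨1,[(2,0),(29,0),(1,0)]⟩,⟨2,[(0,
  1),(28,0),(3,0)]⟩⟩ ⟨false,1,⟨0,[(2,0)]⟩,⟨0,[(0,0),(28,0)]⟩⟩,.o ⟨false,0,⟨1,[(0,0),(31,0)]⟩,⟨1,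
  [(30,0),(3,0)]⟩⟩,.o ⟨false,0,⟨0,[(0,0),(31,0)]⟩,⟨0,[(3,0)]⟩⟩]⟩)

theorem ok15 : chk K t15 l14 = true := by decide +kernel

noncomputable def t16 : Tre :=
  (.I [1,-1,-1,0,1,0,0,-2] (.Q [0,0,0,-1,0,0,-2,-2,0,1,-2] (.p false [0,0,1] [1,0,-1] (⟨0,[(28,0)]⟩,
  ⟨0,[(27,0)]⟩) .k 2 (⟨0,[(27,0)]⟩,⟨0,[(28,0)]⟩) .k (.r 0 ⟨0,[(9,1),(4,1)]⟩ ⟨2,[(0,1),(4,1),(12,0),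
  (0,0),(21,1)]⟩)) (.Q [0,0,-2,-1,1,0,2,1,0,-1,2] (.p true [0,0,1] [1,0,-1] (⟨0,[(29,0)]⟩,⟨0,[(28,
  0)]⟩) .k 2 (⟨0,[(28,0)]⟩,⟨0,[(29,0)]⟩) .k (.r 0 ⟨0,[(10,1),(4,1)]⟩ ⟨2,[(1,1),(4,1),(12,0),(0,0),
  (21,1)]⟩)) (.Q [0,0,-2,0,1,0,1,0,0,-1,1] (.p true [0,0,1] [1] (⟨0,[(30,0)]⟩,⟨0,[(29,0)]⟩) .k 1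
  (⟨0,[]⟩,⟨0,[]⟩) .k .k) (.R ⟨0,false,false,true,[1,-1,-1],[0,-1,1],[0,1,0,-1,0,0,0,1],(⟨0,[(19,
  0)]⟩,⟨0,[(4,0),(29,0)]⟩),(⟨0,[(20,0)]⟩,⟨1,[(4,0),(25,2)]⟩),⟨0,[(4,0)]⟩,.k,.k,(.r (-1) ⟨0,[(1,0),
  (0,0)]⟩ ⟨1,[(12,1),(15,0),(0,2),(10,3)]⟩),.k,.k,.k,⟨true,0,⟨1,[(28,0),(0,0)]⟩,⟨0,[]⟩⟩,⟨false,1,⟨0,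
  [(5,0)]⟩,⟨0,[(18,0)]⟩⟩,⟨false,0,⟨0,[(12,1),(4,0),(11,0)]⟩,⟨0,[(3,0)]⟩⟩,⟨true,0,⟨0,[(6,0),(5,0),
  (27,0)]⟩,⟨0,[(2,0),(37,0)]⟩⟩,⟨false,0,⟨0,[]⟩,⟨0,[]⟩⟩,⟨false,0,⟨0,[]⟩,⟨0,[]⟩⟩,[.o ⟨false,0,⟨0,[(6,
  0)]⟩,⟨7,[(3,3),(14,1),(2,0),(0,0),(6,3),(7,0),(2,7),(1,1)]⟩⟩,.a ⟨true,0,⟨0,[(11,0)]⟩,⟨3,[(2,1),(1,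
  0),(25,0),(3,1),(5,5)]⟩⟩ ⟨true,0,⟨0,[(11,0),(5,0)]⟩,⟨0,[(8,0),(31,0)]⟩⟩ ⟨false,1,⟨0,[(1,0)]⟩,⟨0,
  [(8,0),(9,0),(21,0)]⟩⟩,.o ⟨false,0,⟨0,[(29,0)]⟩,⟨3,[(5,1),(31,0),(3,0)]⟩⟩,.o ⟨false,0,⟨1,[(28,0),
  (0,2)]⟩,⟨0,[(0,0)]⟩⟩]⟩) (.K ⟨0,[1,-1,-1],(-1),0,(⟨0,[(19,0)]⟩,⟨0,[(4,0),(29,0)]⟩),.k,(.r (-1) ⟨0,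
  [(1,0),(0,0)]⟩ ⟨1,[(12,1),(15,0),(0,2),(10,3)]⟩),.k,(.r (-1) ⟨0,[(2,0),(2,0)]⟩ ⟨0,[(12,1),(4,0),
  (11,0),(10,0)]⟩),.k,[⟨0,[(5,0)]⟩,⟨0,[(0,0)]⟩,⟨0,[(6,0),(33,1)]⟩,⟨0,[(2,0),(23,0)]⟩]⟩)) (.K ⟨0,[1,
  -1,-1],(-1),0,(⟨0,[(18,0)]⟩,⟨0,[(3,0),(29,0)]⟩),.k,(.r (-1) ⟨3,[(1,2),(2,1),(0,0),(0,0),(1,1),(1,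
  0)]⟩ ⟨1,[(11,1),(15,0),(0,2),(10,3)]⟩),.k,(.r (-1) ⟨0,[(1,0),(2,0)]⟩ ⟨0,[(11,1),(4,0),(11,0),(10,
  0)]⟩),.k,[⟨0,[(4,0)]⟩,⟨0,[(0,0),(9,0)]⟩,⟨0,[(5,0),(33,1)]⟩,⟨0,[(1,0),(23,0)]⟩]⟩)) (.Q [0,0,0,0,0,
  0,-2,-2,0,1,-2] (.p false [0,0,1] [1,0,-1] (⟨0,[(29,0)]⟩,⟨0,[(28,0)]⟩) .k 2 (⟨0,[(28,0)]⟩,⟨0,[(29,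
  0)]⟩) .k (.r 0 ⟨2,[(0,1),(8,1),(5,1),(0,1)]⟩ ⟨2,[(1,1),(4,1),(12,0),(0,0),(21,1)]⟩)) (.R ⟨0,false,
  false,true,[1,-1,-1],[0,-1,1],[0,1,0,-1,0,0,0,1],(⟨0,[(18,0)]⟩,⟨0,[(3,0),(29,0)]⟩),(⟨0,[(19,0)]⟩,
  ⟨1,[(3,0),(25,2)]⟩),⟨0,[(3,0)]⟩,.k,.k,(.r (-1) ⟨1,[(6,0),(0,1),(0,1),(29,0)]⟩ ⟨1,[(1,0),(15,0),(9,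
  1),(0,1),(10,2)]⟩),.k,.k,.k,⟨true,0,⟨1,[(27,0),(0,0)]⟩,⟨0,[]⟩⟩,⟨false,1,⟨0,[(4,0)]⟩,⟨0,[(17,0)]⟩⟩,
  ⟨false,0,⟨1,[(1,0),(8,0),(0,0),(5,0),(10,1)]⟩,⟨0,[(2,0)]⟩⟩,⟨true,0,⟨1,[(1,0),(3,0),(19,0)]⟩,⟨0,
  [(0,0)]⟩⟩,⟨false,0,⟨0,[]⟩,⟨0,[]⟩⟩,⟨false,0,⟨0,[]⟩,⟨0,[]⟩⟩,[.o ⟨false,0,⟨0,[(5,0)]⟩,⟨3,[(0,1),(19,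
  0),(0,0),(14,0),(2,3),(1,1)]⟩⟩,.a ⟨true,0,⟨0,[(10,0)]⟩,⟨3,[(0,1),(2,0),(25,0),(3,1),(5,3)]⟩⟩
  ⟨true,0,⟨0,[(10,0),(5,0)]⟩,⟨0,[(7,0),(31,0)]⟩⟩ ⟨false,1,⟨3,[(1,0),(2,1),(0,0),(0,0),(1,1),(1,0)]⟩,
  ⟨1,[(0,0),(16,0),(9,0),(0,0),(10,1)]⟩⟩,.o ⟨false,0,⟨0,[(28,0)]⟩,⟨3,[(4,1),(31,0),(3,0)]⟩⟩,.o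
  ⟨false,0,⟨1,[(27,0),(0,2)]⟩,⟨3,[(1,0),(0,0),(1,0),(1,0),(2,1)]⟩⟩]⟩) (.Q [0,-1,0,0,1,0,0,0,-1,1,0,
  -1] (.p false [0,0,0,0,1] [1] (⟨0,[(23,0)]⟩,⟨0,[(22,0)]⟩) .k 1 (⟨0,[]⟩,⟨0,[]⟩) .k .k) (.Q [0,0,0,
  0,0,0,0,0,0,0,-1,1] (.ed false [1,0,-1,0,1] (.r 0 ⟨2,[(7,0),(0,2),(27,0),(3,0)]⟩ ⟨5,[(2,0),(13,0),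
  (1,2),(7,2),(10,0),(4,4)]⟩)) (.R ⟨1,false,false,false,[1,0,1,0,-1],[1,0,0,0,-1],[0,0,0,0,0,0,0,1],
  (⟨0,[(24,0),(7,0)]⟩,⟨0,[(0,0)]⟩),(⟨0,[(24,0)]⟩,⟨0,[(25,0)]⟩),⟨0,[(21,0),(2,0)]⟩,.k,.k,(.r (-1) ⟨7,
  [(2,1),(7,3),(1,1),(4,1),(1,3),(18,0),(4,2)]⟩ ⟨0,[(9,0),(31,0),(3,0)]⟩),.k,.k,.k,⟨false,0,⟨21,[(3,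
  9),(3,0),(0,7),(8,0),(1,10),(17,5)]⟩,⟨5,[(1,1),(2,1),(4,1),(13,1),(14,0),(4,0)]⟩⟩,⟨true,0,⟨0,[(18,
  0)]⟩,⟨0,[(29,0)]⟩⟩,⟨true,0,⟨0,[(45,0)]⟩,⟨0,[]⟩⟩,⟨false,1,⟨15,[(1,1),(2,7),(14,3),(3,1),(6,7),(7,
  2),(4,2)]⟩,⟨0,[(13,0)]⟩⟩,⟨false,0,⟨0,[(41,0)]⟩,⟨0,[(40,0),(2,0)]⟩⟩,⟨false,1,⟨15,[(1,1),(2,7),(14,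
  3),(3,1),(6,7),(7,2),(2,15),(1,2)]⟩,⟨0,[(12,0)]⟩⟩,[.a ⟨true,1,⟨0,[(1,0)]⟩,⟨0,[(16,0)]⟩⟩ ⟨true,0,
  ⟨1,[(2,0),(16,0)]⟩,⟨0,[(9,0)]⟩⟩ ⟨false,1,⟨1,[(11,0),(7,0),(23,0)]⟩,⟨2,[(8,0),(20,2),(7,0),(3,
  0)]⟩⟩,.o ⟨false,2,⟨1,[(1,1),(36,0),(4,0)]⟩,⟨0,[(3,0),(4,0),(0,1),(6,0),(1,1)]⟩⟩,.o ⟨false,1,⟨0,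
  [(14,0),(14,0)]⟩,⟨1,[(16,1),(1,1),(19,0),(4,0)]⟩⟩,.o ⟨false,1,⟨0,[(22,0),(6,0)]⟩,⟨0,[(2,0),(1,0),
  (11,0),(1,2)]⟩⟩]⟩) (.Q [0,0,0,0,0,0,0,0,0,1,-1,-1] (.ed true [0,0,1,0,1] (.r 0 ⟨4,[(3,0),(3,0),
  (11,1),(7,1),(2,0),(6,0)]⟩ ⟨5,[(1,1),(2,1),(4,1),(13,1),(14,0),(4,0)]⟩)) (.R ⟨1,false,false,true,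
  [0,0,1,0,1],[0,0,0,0,1],[0,1,0,0,0,0,0,1],(⟨0,[(26,0),(6,0)]⟩,⟨0,[(0,0)]⟩),(⟨0,[(26,0)]⟩,⟨0,[(25,
  0)]⟩),⟨0,[(22,0),(3,0)]⟩,.k,.k,(.r 0 ⟨3,[(3,0),(4,0),(0,1),(8,0),(1,1)]⟩ ⟨3,[(2,1),(7,3),(13,1),
  (14,0),(2,3),(1,0)]⟩),.k,.k,.k,⟨false,1,⟨23,[(4,9),(6,5),(6,3),(1,11),(18,0),(3,5),(0,10)]⟩,⟨2,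
  [(9,0),(0,2),(27,0),(3,0)]⟩⟩,⟨true,0,⟨0,[(19,0)]⟩,⟨0,[(30,0)]⟩⟩,⟨false,1,⟨3,[(2,1),(21,1),(14,0),
  (4,0)]⟩,⟨0,[]⟩⟩,⟨true,0,⟨0,[(29,0)]⟩,⟨0,[(14,0)]⟩⟩,⟨true,0,⟨0,[(42,0)]⟩,⟨0,[(41,0)]⟩⟩,⟨true,0,⟨0,
  [(29,0),(12,0)]⟩,⟨0,[(13,0)]⟩⟩,[.o ⟨false,(-1),⟨0,[(4,0),(4,0),(0,1),(6,0),(1,1)]⟩,⟨1,[(2,1),(36,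
  0),(4,0)]⟩⟩,.a ⟨true,(-1),⟨0,[(17,0)]⟩,⟨0,[(2,0)]⟩⟩ ⟨true,0,⟨1,[(3,0),(16,0)]⟩,⟨0,[(10,0)]⟩⟩
  ⟨false,0,⟨2,[(9,0),(9,2),(18,0),(3,0)]⟩,⟨2,[(2,0),(4,0),(16,0),(5,0),(13,0)]⟩⟩,.o ⟨false,0,⟨11,
  [(3,3),(1,1),(1,1),(2,3),(6,11),(21,2),(4,4)]⟩,⟨0,[(15,0),(15,0)]⟩⟩,.o ⟨false,0,⟨1,[(17,1),(12,1),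
  (8,0),(4,0)]⟩,⟨0,[(15,0),(3,0)]⟩⟩]⟩) (.I [1,2,1,0,-1] (.S ⟨1,0,[],[1,0,0,0,-1],[0,-1],(⟨0,[(26,
  0)]⟩,⟨0,[(27,0)]⟩),⟨0,[(2,0),(19,0)]⟩,.k,(.r (-1) ⟨1,[(12,0),(29,0),(2,0)]⟩ ⟨1,[(31,0),(0,0),(10,
  1),(3,1)]⟩),⟨false,1,⟨3,[(3,1),(21,1),(14,0),(4,0)]⟩,⟨0,[]⟩⟩,⟨true,0,⟨0,[(47,0)]⟩,⟨0,[]⟩⟩,⟨true,0,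
  ⟨0,[(43,0)]⟩,⟨0,[(42,0)]⟩⟩,⟨false,0,⟨0,[(43,0)]⟩,⟨0,[(42,0),(2,0)]⟩⟩,[.o ⟨false,1,⟨0,[(24,0)]⟩,⟨1,
  [(18,1),(21,0),(4,0)]⟩⟩,.a ⟨true,1,⟨0,[(3,0)]⟩,⟨0,[(18,0)]⟩⟩ ⟨true,1,⟨0,[(45,0)]⟩,⟨0,[(0,0)]⟩⟩
  ⟨false,1,⟨1,[(44,0),(0,0)]⟩,⟨0,[(47,0)]⟩⟩,.o ⟨false,1,⟨0,[(24,0)]⟩,⟨1,[(18,1),(21,0),(4,0)]⟩⟩,.o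
  ⟨false,1,⟨1,[(24,1),(6,0),(0,0)]⟩,⟨0,[(4,0),(1,0),(11,0),(1,1)]⟩⟩]⟩) (.I [0,-1,1,0,0,0,0,2] (.R
  ⟨0,false,false,false,[1,-1,-1],[0,-1,1],[0,0,0,-1,0,0,0,1],(⟨0,[(23,0)]⟩,⟨0,[(8,0),(29,0)]⟩),(⟨0,
  [(24,0)]⟩,⟨1,[(8,0),(25,2)]⟩),⟨0,[(8,0)]⟩,.k,.k,(.r (-1) ⟨1,[(11,0),(0,1),(0,1),(29,0)]⟩ ⟨2,[(0,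
  0),(29,0),(1,1),(0,2),(10,5)]⟩),.k,.k,.k,⟨true,0,⟨1,[(32,0),(0,0)]⟩,⟨0,[]⟩⟩,⟨false,1,⟨0,[(9,0)]⟩,
  ⟨0,[(22,0)]⟩⟩,⟨false,0,⟨0,[(0,0)]⟩,⟨0,[(7,0),(40,0)]⟩⟩,⟨true,0,⟨0,[(5,0)]⟩,⟨0,[(12,0),(16,0),(1,
  0)]⟩⟩,⟨false,0,⟨0,[]⟩,⟨0,[]⟩⟩,⟨false,0,⟨0,[]⟩,⟨0,[]⟩⟩,[.a ⟨true,0,⟨0,[(15,0)]⟩,⟨0,[(12,0),(16,0),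
  (14,0)]⟩⟩ ⟨true,0,⟨0,[(15,0),(5,0)]⟩,⟨0,[(12,0),(31,0)]⟩⟩ ⟨false,1,⟨7,[(5,2),(3,3),(0,0),(0,1),(1,
  3),(6,0)]⟩,⟨0,[(12,0),(9,0),(21,0)]⟩⟩,.o ⟨false,1,⟨1,[(15,1),(25,0),(4,0)]⟩,⟨0,[(31,0),(12,0)]⟩⟩,
  .o ⟨false,0,⟨0,[(33,0)]⟩,⟨3,[(9,1),(31,0),(3,0)]⟩⟩,.o ⟨false,0,⟨1,[(32,0),(0,2)]⟩,⟨3,[(6,0),(0,0),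
  (1,0),(1,0),(2,1)]⟩⟩]⟩) (.Q [0,0,0,0,0,2,0,0,0,0,-1] (.p false [0,0,1] [] (⟨0,[(35,0)]⟩,⟨0,[(34,
  0)]⟩) .k 0 (⟨0,[]⟩,⟨0,[]⟩) .k .k) (.Q [0,-1,0,0,1,0,1,1,-1,0,1,-1] (.p false [1,0,-1,0,1] [1] (⟨0,
  [(29,0),(5,0)]⟩,⟨0,[(4,0)]⟩) .k 1 (⟨0,[]⟩,⟨0,[]⟩) .k (.r 0 ⟨4,[(1,0),(11,2),(27,1)]⟩ ⟨5,[(7,0),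
  (13,0),(1,2),(7,2),(10,0),(4,4)]⟩)) (.R ⟨0,false,false,true,[0,-1,1],[0,-1,0,0,1],[0,2,0,-1],(⟨0,
  [(26,0)]⟩,⟨0,[(1,0),(38,0)]⟩),(⟨0,[(20,0)]⟩,⟨2,[(1,0),(8,0),(18,2),(10,0)]⟩),⟨0,[(1,0)]⟩,.k,(.r 0
  ⟨0,[(44,0)]⟩ ⟨3,[(6,1),(21,1),(5,1),(0,1),(7,0),(2,3),(1,0)]⟩),(.r (-1) ⟨1,[(12,0),(2,1),(6,0),(1,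
  0)]⟩ ⟨1,[(14,1),(19,0),(0,0),(10,3)]⟩),.k,.k,.k,⟨true,0,⟨1,[(34,0),(0,0)]⟩,⟨0,[]⟩⟩,⟨false,0,⟨9,
  [(3,3),(12,2),(4,7),(2,4),(3,1),(14,0)]⟩,⟨5,[(0,2),(1,1),(24,2),(4,0),(1,1)]⟩⟩,⟨false,0,⟨0,[(14,
  0),(35,0)]⟩,⟨1,[(3,1),(3,0),(16,0)]⟩⟩,⟨true,(-1),⟨0,[(21,0),(11,0)]⟩,⟨0,[(0,0)]⟩⟩,⟨false,0,⟨0,[]⟩,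
  ⟨0,[]⟩⟩,⟨false,0,⟨0,[]⟩,⟨0,[]⟩⟩,[.o ⟨false,(-1),⟨0,[(7,0),(5,0),(0,1),(6,0),(1,1)]⟩,⟨1,[(6,1),(36,
  0),(2,1),(1,0)]⟩⟩,.e ⟨false,0,⟨0,[(44,0)]⟩,⟨3,[(6,1),(21,1),(14,0),(2,3),(1,0)]⟩⟩ ⟨false,0,⟨3,
  [(13,2),(1,0),(5,1),(2,1),(3,1),(14,0)]⟩,⟨0,[(0,0),(13,0),(31,0)]⟩⟩,.a ⟨true,0,⟨0,[(34,0)]⟩,⟨0,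
  [(31,0)]⟩⟩ ⟨false,0,⟨0,[(45,0)]⟩,⟨0,[(46,0),(1,0)]⟩⟩ ⟨true,(-1),⟨0,[(13,0),(7,0),(13,0)]⟩,⟨0,[(0,
  0),(13,0),(31,0)]⟩⟩,.o ⟨false,0,⟨0,[(7,0),(6,1),(8,0)]⟩,⟨1,[(16,0),(7,0),(22,0)]⟩⟩]⟩) (.R ⟨0,
  false,false,true,[0,-1,1],[1,-1,0,0,-1],[1,0,-1,-1],(⟨0,[(26,0)]⟩,⟨0,[(1,0),(38,0)]⟩),(⟨0,[(5,0),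
  (19,0)]⟩,⟨2,[(1,0),(8,0),(19,2),(9,0)]⟩),⟨0,[(1,0)]⟩,.k,(.r (-1) ⟨1,[(15,0),(29,0),(2,0)]⟩ ⟨1,
  [(34,0),(0,0),(10,1),(3,1)]⟩),(.r (-1) ⟨1,[(12,0),(2,1),(6,0),(1,0)]⟩ ⟨1,[(14,1),(19,0),(0,0),(10,
  3)]⟩),.k,.k,.k,⟨true,0,⟨0,[]⟩,⟨1,[(34,0),(0,0)]⟩⟩,⟨false,1,⟨4,[(6,1),(12,2),(4,1),(6,0),(10,0)]⟩,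
  ⟨8,[(0,7),(6,3),(3,2),(16,0),(5,2),(8,0),(4,3)]⟩⟩,⟨false,1,⟨5,[(6,1),(2,1),(4,1),(13,1),(14,0),(4,
  0)]⟩,⟨1,[(7,0),(16,0)]⟩⟩,⟨true,1,⟨0,[(6,0),(26,0)]⟩,⟨0,[(0,0),(6,0)]⟩⟩,⟨false,0,⟨0,[]⟩,⟨0,[]⟩⟩,
  ⟨false,0,⟨0,[]⟩,⟨0,[]⟩⟩,[.o ⟨false,1,⟨0,[(14,0),(2,0),(1,0),(3,0)]⟩,⟨2,[(0,1),(7,0),(19,0),(14,0),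
  (2,1),(1,0)]⟩⟩,.e ⟨false,1,⟨0,[(15,0)]⟩,⟨1,[(34,0),(0,0),(10,1),(3,1)]⟩⟩ ⟨false,2,⟨3,[(6,1),(8,2),
  (8,1),(2,1),(17,0),(1,0)]⟩,⟨0,[(0,0),(7,0),(5,0)]⟩⟩,.a ⟨true,0,⟨0,[(34,0)]⟩,⟨0,[(31,0)]⟩⟩ ⟨false,
  1,⟨1,[(15,0),(29,0),(2,0)]⟩,⟨1,[(34,0),(0,0),(10,1)]⟩⟩ ⟨true,1,⟨0,[(6,0),(6,0),(21,0)]⟩,⟨0,[(0,0),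
  (7,0),(5,0)]⟩⟩,.o ⟨false,0,⟨0,[(7,0),(6,1),(8,0)]⟩,⟨1,[(16,0),(7,0),(22,0)]⟩⟩]⟩)) (.S ⟨1,0,[0,1,
  -1,-1,0,0,0,1],[0,-1,1],[1,0,-1,-2,0,0,0,1],(⟨0,[(25,0)]⟩,⟨1,[(9,0),(25,2)]⟩),⟨0,[(0,0)]⟩,.k,(.r
  (-1) ⟨1,[(11,0),(2,1),(6,0),(1,0)]⟩ ⟨1,[(13,1),(19,0),(0,0),(10,3)]⟩),⟨false,1,⟨0,[(44,0),(2,0)]⟩,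
  ⟨0,[(45,0)]⟩⟩,⟨true,0,⟨0,[(49,0)]⟩,⟨0,[]⟩⟩,⟨true,0,⟨0,[]⟩,⟨0,[(49,0)]⟩⟩,⟨false,0,⟨0,[(45,0)]⟩,⟨0,
  [(44,0),(2,0)]⟩⟩,[.o ⟨false,0,⟨0,[(11,0)]⟩,⟨15,[(5,1),(2,7),(14,3),(3,1),(6,7),(7,2),(2,15),(1,
  2)]⟩⟩,.e ⟨false,1,⟨0,[(14,0),(1,0),(5,0)]⟩,⟨0,[(13,0),(31,1),(3,0)]⟩⟩ ⟨false,1,⟨9,[(7,1),(6,5),(0,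
  2),(5,5),(1,4),(22,0)]⟩,⟨0,[(13,0),(31,0)]⟩⟩,.a ⟨true,0,⟨0,[(33,0)]⟩,⟨0,[(30,0)]⟩⟩ ⟨false,1,⟨0,
  [(14,0),(1,0),(17,0)]⟩,⟨0,[(13,0),(31,1)]⟩⟩ ⟨true,0,⟨3,[(6,0),(4,0),(0,1),(8,0),(1,1)]⟩,⟨0,[(13,
  0),(31,0)]⟩⟩,.o ⟨false,0,⟨0,[(6,0),(6,1),(8,0)]⟩,⟨1,[(15,0),(7,0),(22,0)]⟩⟩]⟩)))))) (.R ⟨1,false,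
  false,true,[0,0,1],[1,0,0,0,-1],[0,0,0,0,0,0,0,1],(⟨0,[(31,0)]⟩,⟨0,[(30,0)]⟩),(⟨0,[(23,0)]⟩,⟨0,
  [(24,0)]⟩),⟨0,[(20,0)]⟩,.k,.k,.k,.k,(.r 0 ⟨3,[(1,0),(4,0),(0,1),(8,0),(1,1)]⟩ ⟨1,[(8,1),(12,0),(0,
  0),(17,1),(1,0)]⟩),.k,⟨true,0,⟨1,[(1,0),(16,0)]⟩,⟨0,[(8,0)]⟩⟩,⟨false,1,⟨0,[(21,0),(3,0)]⟩,⟨2,[(0,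
  1),(4,0),(16,0),(5,0),(13,0)]⟩⟩,⟨false,1,⟨1,[(21,0),(0,0),(19,0)]⟩,⟨0,[]⟩⟩,⟨true,1,⟨0,[(8,0),(12,
  0),(3,0)]⟩,⟨1,[(0,0),(0,0),(13,0)]⟩⟩,⟨true,0,⟨0,[(40,0)]⟩,⟨0,[(39,0)]⟩⟩,⟨true,1,⟨0,[(8,0),(12,0),
  (3,0),(14,0)]⟩,⟨0,[(0,0),(10,0)]⟩⟩,[.o ⟨false,1,⟨0,[(21,0)]⟩,⟨3,[(0,1),(21,1),(14,0),(4,0)]⟩⟩,.o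
  ⟨false,2,⟨1,[(21,2),(0,0),(19,0)]⟩,⟨0,[(0,0)]⟩⟩,.o ⟨false,1,⟨2,[(5,0),(15,0),(0,0),(5,0),(8,0)]⟩,
  ⟨0,[(17,0)]⟩⟩,.a ⟨true,0,⟨0,[(28,0)]⟩,⟨0,[(25,0)]⟩⟩ ⟨false,1,⟨23,[(2,9),(6,5),(6,3),(1,11),(18,0),
  (3,5),(0,10)]⟩,⟨0,[(8,0)]⟩⟩ ⟨true,1,⟨0,[(21,0),(3,0)]⟩,⟨0,[(0,0),(27,0)]⟩⟩]⟩)))) (.Q [0,0,-2,0,1,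
  0,1,0,0,-1,1] (.p true [0,0,1] [1] (⟨0,[(28,0)]⟩,⟨0,[(27,0)]⟩) .k 1 (⟨0,[]⟩,⟨0,[]⟩) .k .k) (.Q [0,
  0,0,0,0,0,-2,-2,0,1,-2] (.p false [0,0,1] [1,0,-1] (⟨0,[(29,0)]⟩,⟨0,[(28,0)]⟩) .k 2 (⟨0,[(28,0)]⟩,
  ⟨0,[(29,0)]⟩) .k (.r 0 ⟨1,[(1,1),(37,0),(0,0)]⟩ ⟨0,[(6,1),(32,0)]⟩)) (.R ⟨0,false,false,true,[1,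
  -1,-1],[0,-1,1],[1,1],(⟨0,[(18,0)]⟩,⟨0,[(3,0),(29,0)]⟩),(⟨0,[(19,0)]⟩,⟨1,[(3,0),(25,2)]⟩),⟨0,[(3,
  0)]⟩,.k,.k,(.r (-1) ⟨1,[(6,0),(0,1),(0,1),(29,0)]⟩ ⟨2,[(2,0),(22,0),(1,1),(0,2),(10,5),(1,0)]⟩),
  .k,.k,.k,⟨true,0,⟨0,[(7,0),(31,0)]⟩,⟨0,[(10,0),(5,0)]⟩⟩,⟨false,1,⟨0,[(4,0)]⟩,⟨0,[(17,0)]⟩⟩,⟨false,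
  0,⟨5,[(2,1),(22,1),(1,0),(0,2),(10,5),(1,1)]⟩,⟨0,[(7,0),(0,0)]⟩⟩,⟨true,0,⟨0,[(2,0),(1,0)]⟩,⟨0,[(0,
  0)]⟩⟩,⟨false,0,⟨0,[]⟩,⟨0,[]⟩⟩,⟨false,0,⟨0,[]⟩,⟨0,[]⟩⟩,[.o ⟨false,0,⟨0,[(5,0)]⟩,⟨3,[(0,1),(19,0),
  (0,0),(14,0),(2,3),(1,1)]⟩⟩,.a ⟨true,0,⟨0,[(10,0)]⟩,⟨3,[(0,1),(2,0),(25,0),(3,1),(5,3)]⟩⟩ ⟨true,0,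
  ⟨0,[]⟩,⟨1,[(27,0),(0,0)]⟩⟩ ⟨false,1,⟨0,[(1,0),(8,0)]⟩,⟨1,[(0,0),(16,0),(9,0),(0,0),(10,1)]⟩⟩,.o
  ⟨false,0,⟨0,[(28,0)]⟩,⟨3,[(4,1),(31,0),(3,0)]⟩⟩,.o ⟨false,0,⟨1,[(27,0),(0,2)]⟩,⟨0,[(1,0)]⟩⟩]⟩)
  (.R ⟨0,false,false,true,[1,-1,-1],[0,-1,1],[0,1,0,-1,0,0,0,1],(⟨0,[(18,0)]⟩,⟨0,[(3,0),(29,0)]⟩),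
  (⟨0,[(19,0)]⟩,⟨1,[(3,0),(25,2)]⟩),⟨0,[(3,0)]⟩,.k,.k,(.r (-1) ⟨1,[(6,0),(0,1),(0,1),(29,0)]⟩ ⟨2,
  [(2,0),(22,0),(1,1),(0,2),(10,5),(1,0)]⟩),.k,.k,.k,⟨true,0,⟨1,[(27,0),(0,0)]⟩,⟨0,[]⟩⟩,⟨false,1,⟨0,
  [(4,0)]⟩,⟨0,[(17,0)]⟩⟩,⟨true,(-1),⟨0,[(2,0)]⟩,⟨0,[(1,0),(5,1),(16,0)]⟩⟩,⟨false,0,⟨0,[(0,0)]⟩,⟨0,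
  [(7,0),(16,0),(1,0),(14,0)]⟩⟩,⟨false,0,⟨0,[]⟩,⟨0,[]⟩⟩,⟨false,0,⟨0,[]⟩,⟨0,[]⟩⟩,[.o ⟨false,0,⟨0,[(5,
  0)]⟩,⟨0,[(26,0),(12,0),(1,0)]⟩⟩,.a ⟨true,0,⟨0,[(10,0)]⟩,⟨0,[(7,0),(16,0),(14,0)]⟩⟩ ⟨true,0,⟨0,
  [(10,0),(5,0)]⟩,⟨0,[(7,0),(31,0)]⟩⟩ ⟨false,1,⟨7,[(0,2),(3,3),(0,0),(0,1),(1,3),(6,0)]⟩,⟨0,[(7,0),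
  (9,0),(21,0)]⟩⟩,.o ⟨false,0,⟨0,[(28,0)]⟩,⟨3,[(4,1),(31,0),(3,0)]⟩⟩,.o ⟨false,0,⟨1,[(27,0),(0,2)]⟩,
  ⟨0,[(1,0)]⟩⟩]⟩)) (.K ⟨0,[1,-1,-1],(-1),0,(⟨0,[(17,0)]⟩,⟨0,[(2,0),(29,0)]⟩),.k,(.r (-1) ⟨1,[(5,0),
  (0,1),(0,1),(29,0)]⟩ ⟨2,[(1,0),(22,0),(1,1),(0,2),(10,5),(1,0)]⟩),.k,(.r (-1) ⟨1,[(5,0),(0,3),(0,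
  0),(31,0)]⟩ ⟨13,[(1,9),(14,1),(7,7),(2,3),(7,0),(2,13),(1,8)]⟩),.k,[⟨0,[(3,0)]⟩,⟨0,[(0,0)]⟩,⟨0,
  [(4,0),(33,1)]⟩,⟨0,[(6,0),(16,0),(13,0)]⟩]⟩)))

theorem ok16 : chk K t16 l17 = true := by decide +kernel

noncomputable def t17 : Tre :=
  (.Q [0,-1,-1,0,1,0,-1,0,-1,1,-1,-1] (.p false [0,0,1] [1,0,0,0,-1] (⟨0,[(29,0)]⟩,⟨0,[(28,0)]⟩) .k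
  2 (⟨0,[(21,0)]⟩,⟨0,[(22,0)]⟩) .k (.r 0 ⟨3,[(0,0),(3,0),(5,1),(4,0),(0,0),(17,1)]⟩ ⟨1,[(6,1),(32,
  0),(0,0)]⟩)) (.Q [0,0,0,-1,0,0,-1,-1,0,1,-1] (.p false [0,0,1] [1] (⟨0,[(30,0)]⟩,⟨0,[(29,0)]⟩) .k
  1 (⟨0,[]⟩,⟨0,[]⟩) .k .k) (.S ⟨1,0,[0,0,-1,-1,0,0,0,-1],[1,-1,-1],[0,1,-1,-1,0,0,0,-1],(⟨0,[(19,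
  0)]⟩,⟨0,[(31,0),(0,0)]⟩),⟨0,[(4,0)]⟩,.k,(.r (-1) ⟨9,[(0,5),(4,1),(0,1),(0,4),(0,5),(0,6),(27,0)]⟩
  ⟨4,[(2,5),(5,0),(27,2),(3,3)]⟩),⟨true,0,⟨0,[(44,0)]⟩,⟨0,[]⟩⟩,⟨false,1,⟨1,[(21,0),(0,0),(19,0)]⟩,
  ⟨0,[]⟩⟩,⟨false,0,⟨0,[(40,0)]⟩,⟨0,[(39,0),(2,0)]⟩⟩,⟨true,0,⟨0,[(40,0)]⟩,⟨0,[(39,0)]⟩⟩,[.a ⟨true,0,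
  ⟨0,[(0,0)]⟩,⟨0,[(12,0),(27,0)]⟩⟩ ⟨true,0,⟨0,[(7,0),(0,0)]⟩,⟨0,[(2,0)]⟩⟩ ⟨false,1,⟨0,[(0,0),(2,
  0)]⟩,⟨2,[(2,1),(9,0),(4,0),(18,0),(3,0)]⟩⟩,.o ⟨false,1,⟨1,[(0,1),(36,0),(4,0)]⟩,⟨0,[(6,0),(33,
  1)]⟩⟩,.o ⟨false,0,⟨0,[(29,0)]⟩,⟨3,[(5,1),(31,0),(3,0)]⟩⟩,.o ⟨false,0,⟨1,[(28,0),(0,2)]⟩,⟨0,[(3,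
  0)]⟩⟩]⟩) (.R ⟨1,false,false,true,[0,0,1],[1,-1],[0,1,0,-1],(⟨0,[(31,0)]⟩,⟨0,[(30,0)]⟩),(⟨0,[(34,
  0)]⟩,⟨0,[(35,0)]⟩),⟨0,[(20,0)]⟩,.k,.k,.k,.k,.k,.k,⟨true,0,⟨1,[(28,0),(0,0)]⟩,⟨0,[]⟩⟩,⟨false,0,⟨1,
  [(18,0),(13,0),(1,0)]⟩,⟨3,[(5,1),(31,0),(3,0)]⟩⟩,⟨true,0,⟨1,[(7,0),(0,1),(30,0)]⟩,⟨4,[(0,2),(1,1),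
  (22,2),(10,0)]⟩⟩,⟨true,0,⟨0,[(8,0),(16,0),(13,0)]⟩,⟨0,[(0,0)]⟩⟩,⟨true,0,⟨2,[(7,0),(0,2),(27,0),(3,
  0)]⟩,⟨1,[(0,0),(10,0),(6,0)]⟩⟩,⟨false,0,⟨0,[(8,0),(16,0)]⟩,⟨1,[(12,1),(24,0),(4,0)]⟩⟩,[.o ⟨false,
  0,⟨0,[(39,0)]⟩,⟨1,[(37,0),(2,1),(1,0)]⟩⟩,.a ⟨true,0,⟨0,[(8,0),(2,0),(13,0)]⟩,⟨0,[(40,0)]⟩⟩ ⟨false,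
  1,⟨1,[(9,0),(11,0),(0,0),(16,0)]⟩,⟨0,[(40,0)]⟩⟩ ⟨true,0,⟨0,[(8,0),(2,0),(5,0),(7,0)]⟩,⟨0,[(0,0),
  (7,0)]⟩⟩,.o ⟨false,1,⟨2,[(5,0),(15,0),(0,0),(5,0),(8,0)]⟩,⟨0,[(17,0)]⟩⟩,.e ⟨true,0,⟨0,[(38,0)]⟩,
  ⟨4,[(2,1),(5,1),(27,0),(3,2)]⟩⟩ ⟨true,0,⟨0,[(25,0),(13,0)]⟩,⟨0,[(0,0),(7,0)]⟩⟩]⟩)) (.Q [0,-1,0,0,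
  1,0,0,0,-1,1,0,-1] (.p false [0,0,0,0,1] [1] (⟨0,[(23,0)]⟩,⟨0,[(22,0)]⟩) .k 1 (⟨0,[]⟩,⟨0,[]⟩) .k
  .k) (.Q [0,0,0,-1,0,0,-1,-1,0,1,-1] (.p false [0,0,1] [1] (⟨0,[(31,0)]⟩,⟨0,[(30,0)]⟩) .k 1 (⟨0,
  []⟩,⟨0,[]⟩) .k .k) (.S ⟨1,0,[0,0,-1,-1,0,0,0,-1],[1,-1,-1],[0,1,-1,-1,0,0,0,-1],(⟨0,[(20,0)]⟩,⟨0,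
  [(32,0),(0,0)]⟩),⟨0,[(5,0)]⟩,.k,(.r (-1) ⟨9,[(0,5),(5,1),(0,1),(0,4),(0,5),(0,6),(27,0)]⟩ ⟨4,[(3,
  5),(5,0),(27,2),(3,3)]⟩),⟨true,0,⟨0,[(45,0)]⟩,⟨0,[]⟩⟩,⟨false,1,⟨3,[(1,1),(21,1),(14,0),(4,0)]⟩,⟨0,
  []⟩⟩,⟨false,0,⟨0,[(41,0)]⟩,⟨0,[(40,0),(2,0)]⟩⟩,⟨true,0,⟨0,[(41,0)]⟩,⟨0,[(40,0)]⟩⟩,[.a ⟨true,0,⟨0,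
  [(0,0)]⟩,⟨0,[(13,0),(27,0)]⟩⟩ ⟨true,0,⟨0,[(8,0),(0,0)]⟩,⟨0,[(3,0)]⟩⟩ ⟨false,1,⟨0,[(0,0),(3,0)]⟩,
  ⟨2,[(3,1),(9,0),(4,0),(18,0),(3,0)]⟩⟩,.o ⟨false,1,⟨1,[(0,1),(37,0),(4,0)]⟩,⟨0,[(7,0),(33,1)]⟩⟩,.o
  ⟨false,0,⟨0,[(30,0)]⟩,⟨3,[(6,1),(31,0),(3,0)]⟩⟩,.o ⟨false,0,⟨1,[(29,0),(0,2)]⟩,⟨0,[(4,0)]⟩⟩]⟩)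
  (.R ⟨1,false,false,true,[0,0,1],[1,-1],[0,1,0,-1],(⟨0,[(32,0)]⟩,⟨0,[(31,0)]⟩),(⟨0,[(35,0)]⟩,⟨0,
  [(36,0)]⟩),⟨0,[(21,0)]⟩,.k,.k,.k,.k,.k,.k,⟨true,0,⟨1,[(29,0),(0,0)]⟩,⟨0,[]⟩⟩,⟨false,0,⟨1,[(19,0),
  (13,0),(1,0)]⟩,⟨3,[(6,1),(31,0),(3,0)]⟩⟩,⟨true,0,⟨1,[(8,0),(0,1),(30,0)]⟩,⟨4,[(0,2),(2,1),(22,2),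
  (10,0)]⟩⟩,⟨true,0,⟨0,[(9,0),(16,0),(13,0)]⟩,⟨0,[(0,0)]⟩⟩,⟨true,0,⟨2,[(8,0),(0,2),(27,0),(3,0)]⟩,
  ⟨1,[(0,0),(11,0),(6,0)]⟩⟩,⟨false,0,⟨0,[(9,0),(16,0)]⟩,⟨1,[(13,1),(24,0),(4,0)]⟩⟩,[.o ⟨false,0,⟨0,
  [(40,0)]⟩,⟨1,[(38,0),(2,1),(1,0)]⟩⟩,.a ⟨true,0,⟨0,[(9,0),(2,0),(13,0)]⟩,⟨0,[(41,0)]⟩⟩ ⟨false,1,⟨5,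
  [(1,1),(8,1),(12,1),(14,0),(1,3),(1,0)]⟩,⟨0,[(41,0)]⟩⟩ ⟨true,0,⟨0,[(9,0),(2,0),(5,0),(7,0)]⟩,⟨0,
  [(0,0),(8,0)]⟩⟩,.o ⟨false,1,⟨2,[(6,0),(15,0),(0,0),(5,0),(8,0)]⟩,⟨0,[(18,0)]⟩⟩,.e ⟨true,0,⟨0,[(39,
  0)]⟩,⟨4,[(3,1),(5,1),(27,0),(3,2)]⟩⟩ ⟨true,0,⟨0,[(26,0),(13,0)]⟩,⟨0,[(0,0),(8,0)]⟩⟩]⟩)) (.R ⟨1,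
  false,false,true,[0,0,1],[1,0,0,0,-1],[0,0,0,0,0,0,0,1],(⟨0,[(31,0)]⟩,⟨0,[(30,0)]⟩),(⟨0,[(23,0)]⟩,
  ⟨0,[(24,0)]⟩),⟨0,[(20,0)]⟩,.k,.k,.k,.k,(.r 0 ⟨1,[(6,0),(0,0),(4,0),(5,0)]⟩ ⟨1,[(8,1),(12,0),(0,0),
  (17,1),(1,0)]⟩),.k,⟨true,0,⟨0,[(12,0),(4,0)]⟩,⟨0,[(8,0)]⟩⟩,⟨false,1,⟨0,[(21,0),(3,0)]⟩,⟨2,[(0,0),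
  (0,0),(3,0),(16,0),(19,0)]⟩⟩,⟨false,1,⟨1,[(21,0),(0,0),(19,0)]⟩,⟨0,[]⟩⟩,⟨true,1,⟨0,[(8,0),(12,0),
  (3,0)]⟩,⟨0,[(0,0),(11,0)]⟩⟩,⟨true,0,⟨0,[(40,0)]⟩,⟨0,[(39,0)]⟩⟩,⟨true,1,⟨0,[(8,0),(12,0),(3,0),(14,
  0)]⟩,⟨0,[(0,0),(10,0)]⟩⟩,[.o ⟨false,1,⟨0,[(21,0)]⟩,⟨3,[(0,1),(21,1),(14,0),(4,0)]⟩⟩,.o ⟨false,2,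
  ⟨1,[(21,2),(0,0),(19,0)]⟩,⟨0,[(0,0)]⟩⟩,.o ⟨false,1,⟨2,[(5,0),(15,0),(0,0),(5,0),(8,0)]⟩,⟨0,[(17,
  0)]⟩⟩,.a ⟨true,0,⟨0,[(28,0)]⟩,⟨0,[(25,0)]⟩⟩ ⟨false,1,⟨3,[(2,1),(6,1),(0,0),(1,1),(5,0),(22,0)]⟩,
  ⟨0,[(8,0)]⟩⟩ ⟨true,1,⟨0,[(21,0),(3,0)]⟩,⟨0,[(1,0)]⟩⟩]⟩)))

theorem ok17 : chk K t17 l19 = true := by decide +kernel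

noncomputable def t18 : Tre :=
  (.Q [0,0,0,2,0,0,-1,-1,0,0,-1] (.p false [0,0,1] [] (⟨0,[(30,0)]⟩,⟨0,[(29,0)]⟩) .k 0 (⟨0,[]⟩,⟨0,
  []⟩) .k .k) (.R ⟨1,false,false,true,[1,-1],[1,0,-1],[0,1,1,0,0,0,0,-1],(⟨0,[(34,0)]⟩,⟨0,[(35,
  0)]⟩),(⟨0,[(30,0)]⟩,⟨0,[(31,0)]⟩),⟨1,[(4,0),(15,0),(13,0)]⟩,.k,.k,(.r (-1) ⟨0,[(9,0),(29,0)]⟩ ⟨0,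
  [(0,0),(11,0),(15,0),(0,0)]⟩),.k,(.r (-1) ⟨1,[(6,0),(2,1),(6,0),(1,0)]⟩ ⟨1,[(0,1),(27,2),(0,0)]⟩),
  .k,⟨true,0,⟨1,[(28,0),(0,0)]⟩,⟨0,[]⟩⟩,⟨false,1,⟨1,[(10,0),(7,0),(22,0)]⟩,⟨0,[(28,0)]⟩⟩,⟨false,0,
  ⟨1,[(0,0),(7,0),(19,1),(0,0)]⟩,⟨0,[(9,0),(2,0),(4,0)]⟩⟩,⟨true,0,⟨1,[(0,0),(26,0),(16,0)]⟩,⟨0,[(11,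
  0)]⟩⟩,⟨false,0,⟨1,[(0,1),(27,2),(0,0)]⟩,⟨0,[(9,0),(1,0),(5,0)]⟩⟩,⟨false,0,⟨0,[(0,0)]⟩,⟨0,[(11,0),
  (27,0),(2,0)]⟩⟩,[.o ⟨false,0,⟨0,[(27,0)]⟩,⟨1,[(12,1),(24,0),(4,0)]⟩⟩,.a ⟨true,0,⟨0,[(8,0),(16,
  0)]⟩,⟨0,[(12,0)]⟩⟩ ⟨true,0,⟨0,[(1,0)]⟩,⟨0,[(12,0),(4,0)]⟩⟩ ⟨false,1,⟨2,[(0,0),(8,1),(17,1),(13,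
  0)]⟩,⟨1,[(12,1),(15,0),(0,0)]⟩⟩,.o ⟨false,0,⟨1,[(28,0),(0,0)]⟩,⟨1,[(37,0),(3,0)]⟩⟩,.o ⟨false,0,⟨0,
  [(28,0),(0,0)]⟩,⟨0,[(10,0)]⟩⟩]⟩) (.Q [0,0,0,0,0,0,0,0,0,-1,1,1] (.ed false [0,0,1,0,1] (.r 0 ⟨0,
  [(17,0),(8,0)]⟩ ⟨1,[(8,1),(32,0),(0,0)]⟩)) (.Q [0,0,-1,0,0,0,0,0,1,-1,0,1] (.p true [0,0,0,0,1]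
  [1] (⟨0,[(25,0)]⟩,⟨0,[(24,0)]⟩) .k 1 (⟨0,[]⟩,⟨0,[]⟩) .k .k) (.Q [0,0,2,0,-1,0,0,0,1,0,0,1] (.p
  true [0,0,0,0,1] [] (⟨0,[(26,0)]⟩,⟨0,[(25,0)]⟩) .k 0 (⟨0,[]⟩,⟨0,[]⟩) .k .k) (.Q [0,0,-1,0,1,0,1,0,
  -1,0,1,-1] (.p true [0,0,1] [0,0,0,0,1] (⟨0,[(34,0)]⟩,⟨0,[(33,0)]⟩) .k 2 (⟨0,[(27,0)]⟩,⟨0,[(26,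
  0)]⟩) .k (.r (-1) ⟨3,[(15,1),(5,1),(7,1),(10,0),(4,2)]⟩ ⟨4,[(5,0),(5,3),(27,1),(3,0)]⟩)) (.K ⟨0,
  [0,-1,0,0,1],(-1),(-1),(⟨0,[(18,0)]⟩,⟨0,[(27,0),(8,0)]⟩),(.r 0 ⟨0,[(42,0)]⟩ ⟨1,[(25,0),(0,0),(5,
  0),(0,0),(10,1),(1,0)]⟩),(.r 0 ⟨1,[(4,0),(1,0),(4,0),(9,0)]⟩ ⟨1,[(25,0),(0,0),(5,1),(0,1),(10,3),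
  (1,0)]⟩),.k,(.r 0 ⟨2,[(6,1),(5,0),(30,0)]⟩ ⟨0,[(30,0),(2,0),(10,0),(1,0)]⟩),.k,[⟨0,[(0,0)]⟩,⟨0,
  [(1,0)]⟩,⟨0,[(25,0),(18,0)]⟩,⟨0,[(19,0),(23,0)]⟩]⟩) (.R ⟨1,false,false,true,[0,-1,0,0,1],[0,-1,1],
  [0,1,-1,-1],(⟨0,[(18,0)]⟩,⟨0,[(27,0),(8,0)]⟩),(⟨0,[(24,0)]⟩,⟨0,[(34,0),(1,0)]⟩),⟨0,[(3,0),(4,0)]⟩,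
  (.r 0 ⟨0,[(42,0)]⟩ ⟨1,[(25,0),(0,0),(5,0),(0,0),(10,1),(1,0)]⟩),.k,(.r 0 ⟨1,[(4,0),(1,0),(4,0),(9,
  0)]⟩ ⟨1,[(25,0),(0,0),(5,1),(0,1),(10,3),(1,0)]⟩),.k,(.r 0 ⟨2,[(6,1),(5,0),(30,0)]⟩ ⟨0,[(30,0),(2,
  0),(10,0),(1,0)]⟩),.k,⟨false,1,⟨0,[(12,0),(32,0)]⟩,⟨0,[(16,0),(4,0)]⟩⟩,⟨true,1,⟨0,[(17,0),(14,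
  0)]⟩,⟨0,[(0,0)]⟩⟩,⟨false,1,⟨1,[(25,0),(0,0),(19,0)]⟩,⟨0,[]⟩⟩,⟨true,1,⟨0,[(16,0),(8,0)]⟩,⟨3,[(0,2),
  (5,1),(5,0),(6,0),(11,0),(12,1)]⟩⟩,⟨true,0,⟨0,[(44,0)]⟩,⟨0,[(43,0)]⟩⟩,⟨true,1,⟨0,[(16,0),(8,0),
  (18,0)]⟩,⟨5,[(0,4),(0,0),(2,0),(1,3),(5,0),(18,1)]⟩⟩,[.o ⟨false,0,⟨0,[(10,0)]⟩,⟨0,[(31,0),(12,0),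
  (1,0)]⟩⟩,.a ⟨true,0,⟨0,[(15,0)]⟩,⟨0,[(12,0),(16,0),(14,0)]⟩⟩ ⟨false,1,⟨1,[(13,0),(29,0),(1,0)]⟩,
  ⟨1,[(32,0),(0,0),(10,1)]⟩⟩ ⟨true,1,⟨1,[(4,0),(11,0),(0,1)]⟩,⟨0,[(0,0),(11,0),(31,0)]⟩⟩,.o ⟨false,
  0,⟨1,[(1,0),(24,0),(14,0)]⟩,⟨0,[(17,0)]⟩⟩,.e ⟨true,0,⟨0,[(11,0)]⟩,⟨0,[(32,0),(0,0),(10,0)]⟩⟩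
  ⟨true,1,⟨1,[(11,0),(4,0),(0,1),(2,0)]⟩,⟨0,[(0,0),(11,0),(31,0)]⟩⟩]⟩)) (.Q [0,0,0,0,0,1,0,0,0,-1,0,
  1] (.ed false [0,1,0,0,1] .k) (.Q [0,-3,0,0,2,0,0,0,-2,2,0,-2] (.p false [0,0,-1,0,1] [2,0,-1,0,
  -1] (⟨0,[(0,0),(22,0)]⟩,⟨0,[(27,0),(7,0)]⟩) .k 2 (⟨0,[(27,0),(6,0)]⟩,⟨0,[(3,0)]⟩) .k (.r 0 ⟨0,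
  [(48,1)]⟩ ⟨0,[(46,0)]⟩)) (.R ⟨0,false,false,true,[1,0,0,0,-1],[0,-1,1],[1,1],(⟨0,[(28,0)]⟩,⟨0,
  [(29,0)]⟩),(⟨0,[(25,0)]⟩,⟨0,[(35,0),(1,0)]⟩),⟨0,[(1,0)]⟩,.k,.k,(.r (-1) ⟨1,[(14,0),(29,0),(2,0)]⟩
  ⟨1,[(33,0),(0,0),(10,1),(3,1)]⟩),(.r (-1) ⟨2,[(0,0),(12,2),(13,1),(14,0),(2,2)]⟩ ⟨1,[(11,0),(0,0),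
  (4,0),(5,0)]⟩),.k,.k,⟨true,0,⟨0,[(13,0),(31,0)]⟩,⟨1,[(5,0),(11,0),(4,1)]⟩⟩,⟨false,0,⟨0,[(3,0),(29,
  0)]⟩,⟨15,[(0,3),(1,4),(20,7),(2,2),(14,5)]⟩⟩,⟨false,0,⟨0,[(49,0)]⟩,⟨0,[(47,0)]⟩⟩,⟨true,(-1),⟨0,
  [(11,0),(8,0)]⟩,⟨3,[(0,1),(6,0),(5,1),(8,2),(9,0),(12,4)]⟩⟩,⟨false,0,⟨0,[]⟩,⟨0,[]⟩⟩,⟨false,0,⟨0,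
  []⟩,⟨0,[]⟩⟩,[.o ⟨false,0,⟨0,[(11,0)]⟩,⟨0,[(32,0),(12,0),(1,0)]⟩⟩,.a ⟨true,0,⟨0,[(16,0)]⟩,⟨0,[(13,
  0),(16,0),(14,0)]⟩⟩ ⟨true,0,⟨0,[]⟩,⟨1,[(33,0),(0,0)]⟩⟩ ⟨false,0,⟨1,[(3,1),(1,0),(11,0)]⟩,⟨1,[(0,
  0),(31,1),(12,1),(3,0)]⟩⟩,.o ⟨false,1,⟨0,[(26,0)]⟩,⟨1,[(20,1),(21,0),(4,0)]⟩⟩,.o ⟨false,1,⟨1,[(26,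
  1),(6,0),(0,0)]⟩,⟨0,[(3,0)]⟩⟩]⟩) (.Q [0,-1,0,-1,1,0,0,0,-1,1,0,-1] (.p false [0,0,0,0,1] [1] (⟨0,
  [(29,0)]⟩,⟨0,[(28,0)]⟩) .k 1 (⟨0,[]⟩,⟨0,[]⟩) .k .k) (.R ⟨1,false,false,false,[1,0,1,0,-1],[1,0,0,
  0,-1],[0,0,0,0,0,0,0,1],(⟨0,[(29,0),(7,0)]⟩,⟨0,[(2,0),(22,0)]⟩),(⟨0,[(29,0)]⟩,⟨0,[(30,0)]⟩),⟨0,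
  [(26,0),(2,0)]⟩,.k,.k,(.r (-1) ⟨3,[(6,0),(8,1),(2,2),(5,1),(18,0),(4,0)]⟩ ⟨0,[(14,0),(31,0),(3,
  0)]⟩),.k,.k,.k,⟨false,0,⟨3,[(1,0),(1,1),(14,2),(5,1),(7,0)]⟩,⟨1,[(14,1),(32,0),(0,0)]⟩⟩,⟨true,0,
  ⟨0,[(23,0)]⟩,⟨0,[(34,0)]⟩⟩,⟨true,0,⟨0,[(50,0)]⟩,⟨0,[]⟩⟩,⟨false,1,⟨0,[(33,0),(14,0)]⟩,⟨0,[(18,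
  0)]⟩⟩,⟨false,0,⟨0,[(46,0)]⟩,⟨0,[(45,0),(2,0)]⟩⟩,⟨false,1,⟨0,[(33,0),(12,0),(1,0)]⟩,⟨0,[(17,0)]⟩⟩,
  [.a ⟨true,1,⟨0,[(0,0),(45,0)]⟩,⟨0,[(21,0)]⟩⟩ ⟨true,0,⟨0,[(18,0),(4,0)]⟩,⟨0,[(14,0)]⟩⟩ ⟨false,1,⟨1,
  [(16,0),(7,0),(23,0)]⟩,⟨3,[(8,0),(23,0),(1,2),(7,0),(3,0)]⟩⟩,.o ⟨false,2,⟨0,[(27,0),(20,0)]⟩,⟨1,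
  [(1,0),(48,0)]⟩⟩,.o ⟨false,1,⟨1,[(3,0),(23,0),(6,1)]⟩,⟨0,[(4,0),(30,0)]⟩⟩,.o ⟨false,1,⟨0,[(27,0),
  (6,0)]⟩,⟨0,[(4,0),(18,0)]⟩⟩]⟩) (.R ⟨0,false,false,false,[1,0,0,0,-1],[0,0,1],[0,0,1],(⟨0,[(29,
  0)]⟩,⟨0,[(30,0)]⟩),(⟨0,[(37,0)]⟩,⟨0,[(36,0)]⟩),⟨0,[(2,0)]⟩,.k,.k,(.r (-1) ⟨1,[(15,0),(29,0),(2,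
  0)]⟩ ⟨1,[(34,0),(0,0),(10,1),(3,1)]⟩),.k,.k,.k,⟨true,0,⟨0,[(7,0)]⟩,⟨0,[(18,0),(4,0)]⟩⟩,⟨false,0,
  ⟨5,[(0,3),(5,0),(1,1),(2,1),(6,0),(2,1),(26,3)]⟩,⟨1,[(24,0),(2,1),(10,0),(1,0)]⟩⟩,⟨false,0,⟨1,
  [(34,0),(0,0)]⟩,⟨1,[(47,0),(0,0)]⟩⟩,⟨true,(-1),⟨1,[(0,1),(5,0),(11,0)]⟩,⟨0,[(14,0),(12,0),(3,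
  0)]⟩⟩,⟨false,0,⟨0,[]⟩,⟨0,[]⟩⟩,⟨false,0,⟨0,[]⟩,⟨0,[]⟩⟩,[.a ⟨true,0,⟨0,[(18,0)]⟩,⟨0,[(14,0),(16,
  0)]⟩⟩ ⟨true,0,⟨1,[(34,0),(0,0)]⟩,⟨0,[]⟩⟩ ⟨false,0,⟨0,[(4,0),(13,0)]⟩,⟨0,[(14,0),(12,0),(3,0)]⟩⟩,
  .o ⟨false,1,⟨1,[(18,1),(24,0),(4,0)]⟩,⟨0,[(33,0)]⟩⟩,.o ⟨false,1,⟨0,[(27,0)]⟩,⟨5,[(1,1),(26,1),(14,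
  0),(4,2)]⟩⟩,.o ⟨false,1,⟨1,[(27,1),(6,0),(0,0)]⟩,⟨0,[(4,0)]⟩⟩]⟩))) (.I [0,2,1,1,-1] (.I [1,2,0,1,
  -1] (.Q [0,1,0,0,-1,0,-1,-1,1,0,-1,1] (.p false [0,0,1] [0,0,0,0,1] (⟨0,[(37,0)]⟩,⟨0,[(36,0)]⟩)
  .k 2 (⟨0,[(30,0)]⟩,⟨0,[(29,0)]⟩) .k (.r (-1) ⟨3,[(18,1),(5,1),(7,1),(10,0),(4,2)]⟩ ⟨6,[(0,0),(7,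
  0),(5,5),(27,1),(4,0)]⟩)) (.R ⟨1,false,false,true,[1,0,0,0,-1],[1,0,-1],[1,1],(⟨0,[(30,0)]⟩,⟨0,
  [(31,0)]⟩),(⟨0,[(37,0)]⟩,⟨0,[(38,0)]⟩),⟨0,[(3,0)]⟩,.k,.k,(.r (-1) ⟨1,[(16,0),(29,0),(2,0)]⟩ ⟨1,
  [(2,1),(25,0),(0,0),(19,0)]⟩),.k,(.r (-1) ⟨3,[(7,0),(8,1),(2,2),(5,1),(18,0),(4,0)]⟩ ⟨3,[(2,1),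
  (12,3),(12,0),(0,0),(17,1),(0,0)]⟩),.k,⟨true,0,⟨0,[(19,0),(4,0)]⟩,⟨0,[(8,0)]⟩⟩,⟨false,0,⟨2,[(5,1),
  (19,0),(3,0),(2,0)]⟩,⟨1,[(4,0),(23,0),(6,1)]⟩⟩,⟨false,0,⟨0,[(51,0)]⟩,⟨0,[(49,0)]⟩⟩,⟨false,(-1),⟨0,
  [(0,0)]⟩,⟨0,[(19,0),(8,0),(20,0)]⟩⟩,⟨true,(-1),⟨0,[(1,0)]⟩,⟨0,[(46,0),(2,0)]⟩⟩,⟨false,(-1),⟨0,[(0,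
  0),(46,0)]⟩,⟨1,[(7,0),(11,0),(8,1),(20,1)]⟩⟩,[.o ⟨false,0,⟨0,[(34,0)]⟩,⟨1,[(19,1),(24,0),(4,0)]⟩⟩,
  .a ⟨true,0,⟨0,[(15,0),(16,0)]⟩,⟨0,[(19,0)]⟩⟩ ⟨true,0,⟨0,[]⟩,⟨1,[(35,0),(0,0)]⟩⟩ ⟨false,0,⟨1,[(0,
  1),(47,0),(0,0)]⟩,⟨0,[(19,0),(8,0)]⟩⟩,.o ⟨false,1,⟨0,[(28,0)]⟩,⟨1,[(22,1),(21,0),(4,0)]⟩⟩,.o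
  ⟨false,1,⟨1,[(28,1),(6,0),(0,0)]⟩,⟨0,[(5,0)]⟩⟩]⟩) (.S ⟨1,0,[],[1,0,0,0,-1],[1,1],(⟨0,[(30,0)]⟩,⟨0,
  [(31,0)]⟩),⟨0,[(3,0)]⟩,.k,(.r (-1) ⟨1,[(16,0),(29,0),(2,0)]⟩ ⟨1,[(2,1),(25,0),(0,0),(19,0)]⟩),
  ⟨false,0,⟨0,[(51,0)]⟩,⟨0,[(49,0)]⟩⟩,⟨true,0,⟨0,[(51,0)]⟩,⟨0,[]⟩⟩,⟨true,(-1),⟨0,[(1,0)]⟩,⟨0,[(46,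
  0),(2,0)]⟩⟩,⟨false,0,⟨0,[(47,0)]⟩,⟨0,[(46,0),(2,0)]⟩⟩,[.o ⟨false,1,⟨0,[(28,0)]⟩,⟨1,[(22,1),(21,0),
  (4,0)]⟩⟩,.a ⟨true,1,⟨0,[(0,0),(14,0),(16,0)]⟩,⟨0,[(22,0)]⟩⟩ ⟨true,0,⟨0,[]⟩,⟨1,[(35,0),(0,0)]⟩⟩
  ⟨false,1,⟨1,[(48,0),(0,0)]⟩,⟨0,[(51,0)]⟩⟩,.o ⟨false,1,⟨0,[(28,0)]⟩,⟨1,[(22,1),(21,0),(4,0)]⟩⟩,.o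
  ⟨false,1,⟨1,[(28,1),(6,0),(0,0)]⟩,⟨0,[(5,0)]⟩⟩]⟩)) (.Q [0,-1,0,0,1,0,-1,-1,-1,1,-1,-1] (.p false
  [-1,0,1,0,1] [] (⟨0,[(5,0)]⟩,⟨0,[(29,0),(6,0)]⟩) .k 0 (⟨0,[]⟩,⟨0,[]⟩) .k (.r 0 ⟨9,[(1,1),(10,1),
  (3,0),(1,3),(5,4),(7,3),(10,0)]⟩ ⟨1,[(14,1),(32,0),(0,0)]⟩)) (.S ⟨1,0,[],[1,0,0,0,-1],[1,-1,0,-1],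
  (⟨0,[(30,0)]⟩,⟨0,[(31,0)]⟩),⟨0,[(3,0)]⟩,.k,(.r (-1) ⟨3,[(1,1),(14,0),(29,0),(1,0)]⟩ ⟨1,[(2,1),(25,
  0),(0,0),(19,0)]⟩),⟨false,1,⟨2,[(1,1),(26,0),(0,0),(16,0)]⟩,⟨0,[(47,0)]⟩⟩,⟨true,0,⟨0,[(51,0)]⟩,⟨0,
  []⟩⟩,⟨true,0,⟨0,[]⟩,⟨0,[(51,0)]⟩⟩,⟨false,0,⟨0,[(47,0)]⟩,⟨2,[(1,1),(26,0),(0,0),(16,0)]⟩⟩,[.o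
  ⟨false,1,⟨0,[(28,0)]⟩,⟨1,[(22,1),(21,0),(4,0)]⟩⟩,.a ⟨true,1,⟨0,[(0,0),(18,0)]⟩,⟨0,[(22,0)]⟩⟩
  ⟨true,1,⟨0,[(1,0)]⟩,⟨0,[(2,0)]⟩⟩ ⟨false,1,⟨1,[(48,0),(0,0)]⟩,⟨0,[(51,0)]⟩⟩,.o ⟨false,1,⟨0,[(28,
  0)]⟩,⟨1,[(22,1),(21,0),(4,0)]⟩⟩,.o ⟨false,1,⟨1,[(28,1),(6,0),(0,0)]⟩,⟨0,[(5,0)]⟩⟩]⟩) (.Q [0,-1,0,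
  0,1,0,0,0,-1,1,0,-1] (.p false [0,0,0,0,1] [1] (⟨0,[(31,0)]⟩,⟨0,[(30,0)]⟩) .k 1 (⟨0,[]⟩,⟨0,[]⟩)
  .k .k) (.S ⟨1,0,[],[1,0,0,0,-1],[1,-1,0,-1],(⟨0,[(31,0)]⟩,⟨0,[(32,0)]⟩),⟨0,[(4,0)]⟩,.k,(.r (-1)
  ⟨3,[(2,1),(14,0),(29,0),(1,0)]⟩ ⟨3,[(0,1),(2,3),(26,1),(14,0),(4,0)]⟩),⟨false,1,⟨6,[(0,1),(1,3),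
  (27,1),(14,0),(1,2)]⟩,⟨0,[(48,0)]⟩⟩,⟨true,0,⟨0,[(52,0)]⟩,⟨0,[]⟩⟩,⟨true,0,⟨0,[]⟩,⟨0,[(52,0)]⟩⟩,
  ⟨false,0,⟨0,[(48,0)]⟩,⟨6,[(0,1),(1,3),(27,1),(14,0),(1,2)]⟩⟩,[.o ⟨false,1,⟨0,[(29,0)]⟩,⟨7,[(1,1),
  (4,3),(9,1),(13,1),(6,1),(7,0),(4,0)]⟩⟩,.a ⟨true,1,⟨0,[(0,0)]⟩,⟨0,[(23,0)]⟩⟩ ⟨true,1,⟨0,[(2,0)]⟩,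
  ⟨0,[(3,0)]⟩⟩ ⟨false,1,⟨1,[(49,0),(0,0)]⟩,⟨0,[(52,0)]⟩⟩,.o ⟨false,1,⟨0,[(29,0)]⟩,⟨7,[(1,1),(4,3),
  (9,1),(13,1),(6,1),(7,0),(4,0)]⟩⟩,.o ⟨false,1,⟨1,[(29,1),(6,0),(0,0)]⟩,⟨0,[(6,0)]⟩⟩]⟩) (.R ⟨1,
  false,false,true,[0,0,1],[1,0,0,0,-1],[0,0,0,0,0,0,0,1],(⟨0,[(39,0)]⟩,⟨0,[(38,0)]⟩),(⟨0,[(31,0)]⟩,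
  ⟨0,[(32,0)]⟩),⟨0,[(28,0)]⟩,.k,.k,.k,.k,(.r 0 ⟨1,[(14,0),(0,0),(4,0),(5,0)]⟩ ⟨1,[(16,1),(12,0),(0,
  0),(17,1),(1,0)]⟩),.k,⟨true,0,⟨0,[(20,0),(4,0)]⟩,⟨0,[(16,0)]⟩⟩,⟨false,1,⟨0,[(29,0),(3,0)]⟩,⟨2,[(0,
  1),(12,0),(16,0),(5,0),(13,0)]⟩⟩,⟨false,1,⟨1,[(29,0),(0,0),(19,0)]⟩,⟨0,[]⟩⟩,⟨true,1,⟨0,[(16,0),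
  (12,0),(3,0)]⟩,⟨0,[(1,0)]⟩⟩,⟨true,0,⟨0,[(48,0)]⟩,⟨0,[(47,0)]⟩⟩,⟨true,1,⟨0,[(16,0),(12,0),(3,0),
  (14,0)]⟩,⟨1,[(0,0),(0,0),(6,0)]⟩⟩,[.o ⟨false,1,⟨0,[(29,0)]⟩,⟨3,[(0,1),(29,1),(14,0),(4,0)]⟩⟩,.o
  ⟨false,2,⟨1,[(29,2),(0,0),(19,0)]⟩,⟨0,[(0,0)]⟩⟩,.o ⟨false,1,⟨2,[(13,0),(15,0),(0,0),(5,0),(8,0)]⟩,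
  ⟨0,[(25,0)]⟩⟩,.a ⟨true,0,⟨0,[(36,0)]⟩,⟨0,[(33,0)]⟩⟩ ⟨false,1,⟨1,[(18,0),(1,1),(5,0),(23,0)]⟩,⟨0,
  [(16,0)]⟩⟩ ⟨true,1,⟨0,[(29,0),(3,0)]⟩,⟨0,[(0,0),(35,0)]⟩⟩]⟩)))) (.Q [0,0,0,0,0,0,0,0,0,0,1,-1]
  (.ed true [1,0,-1,0,1] (.r 0 ⟨4,[(7,0),(5,3),(27,1),(3,0)]⟩ ⟨3,[(17,1),(5,1),(7,1),(10,0),(4,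
  2)]⟩)) (.Q [0,0,0,0,0,0,1,0,1,-2,1,1] (.p true [-1,0,1,0,1] [1] (⟨0,[(5,0)]⟩,⟨0,[(29,0),(6,0)]⟩)
  .k 1 (⟨0,[]⟩,⟨0,[]⟩) .k (.r 0 ⟨0,[(23,0),(8,0)]⟩ ⟨1,[(14,1),(32,0),(0,0)]⟩)) (.Q [0,0,0,0,0,1,0,0,
  0,1,-1,-1] (.p false [-1,0,1,0,1] [] (⟨0,[(6,0)]⟩,⟨0,[(30,0),(6,0)]⟩) .k 0 (⟨0,[]⟩,⟨0,[]⟩) .k (.r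
  0 ⟨0,[(24,0),(8,0)]⟩ ⟨1,[(15,1),(32,0),(0,0)]⟩)) (.Q [0,-1,0,0,1,0,0,0,-1,1,0,-1] (.p false [0,0,
  0,0,1] [1] (⟨0,[(32,0)]⟩,⟨0,[(31,0)]⟩) .k 1 (⟨0,[]⟩,⟨0,[]⟩) .k .k) (.R ⟨0,false,false,true,[-1,0,
  1,0,1],[0,0,1],[0,1,1],(⟨0,[(8,0)]⟩,⟨0,[(1,0),(41,0)]⟩),(⟨0,[(40,0)]⟩,⟨0,[(39,0)]⟩),⟨0,[(1,0)]⟩,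
  .k,.k,(.r 0 ⟨1,[(15,0),(0,0),(4,0),(5,0)]⟩ ⟨3,[(0,1),(16,3),(13,1),(14,0),(2,3),(1,0)]⟩),.k,.k,.k,
  ⟨true,0,⟨0,[(10,0)]⟩,⟨0,[(21,0),(4,0)]⟩⟩,⟨false,1,⟨6,[(0,5),(5,0),(4,0),(22,0),(0,0),(9,1),(3,
  0)]⟩,⟨2,[(2,0),(4,0),(23,0),(6,0)]⟩⟩,⟨true,0,⟨0,[(10,0)]⟩,⟨2,[(6,0),(14,2),(2,0),(1,2),(18,0)]⟩⟩,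
  ⟨false,1,⟨0,[(0,0)]⟩,⟨2,[(2,0),(4,0),(23,0),(6,0)]⟩⟩,⟨false,0,⟨0,[]⟩,⟨0,[]⟩⟩,⟨false,0,⟨0,[]⟩,⟨0,
  []⟩⟩,[.o ⟨false,0,⟨0,[(15,0),(33,0)]⟩,⟨0,[(36,0),(14,0)]⟩⟩,.a ⟨true,0,⟨0,[(21,0)]⟩,⟨0,[(17,0),(16,
  0)]⟩⟩ ⟨true,0,⟨1,[(37,0),(0,0)]⟩,⟨0,[]⟩⟩ ⟨false,1,⟨1,[(0,0),(5,0),(14,0),(5,0),(7,0)]⟩,⟨0,[(7,0),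
  (9,0)]⟩⟩,.o ⟨false,0,⟨0,[(2,0)]⟩,⟨1,[(0,0),(26,0),(2,0),(22,0)]⟩⟩,.o ⟨false,0,⟨1,[(2,1),(34,0),(0,
  0)]⟩,⟨7,[(0,3),(5,2),(20,3),(2,0),(14,1)]⟩⟩]⟩) (.R ⟨1,false,false,true,[0,0,1],[1,0,0,0,-1],[0,0,
  0,0,0,0,0,1],(⟨0,[(40,0)]⟩,⟨0,[(39,0)]⟩),(⟨0,[(32,0)]⟩,⟨0,[(33,0)]⟩),⟨0,[(29,0)]⟩,.k,.k,.k,.k,(.r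
  0 ⟨1,[(15,0),(0,0),(4,0),(5,0)]⟩ ⟨1,[(17,1),(12,0),(0,0),(17,1),(1,0)]⟩),.k,⟨true,0,⟨0,[(21,0),(4,
  0)]⟩,⟨0,[(17,0)]⟩⟩,⟨false,1,⟨0,[(30,0),(3,0)]⟩,⟨4,[(2,1),(11,0),(9,1),(6,0),(5,0),(13,0)]⟩⟩,
  ⟨false,1,⟨1,[(30,0),(0,0),(19,0)]⟩,⟨0,[]⟩⟩,⟨true,1,⟨0,[(17,0),(12,0),(3,0)]⟩,⟨0,[(0,0),(20,0)]⟩⟩,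
  ⟨true,0,⟨0,[(49,0)]⟩,⟨0,[(48,0)]⟩⟩,⟨true,1,⟨0,[(17,0),(12,0),(3,0),(14,0)]⟩,⟨1,[(0,1),(8,0),(11,
  0)]⟩⟩,[.o ⟨false,1,⟨0,[(30,0)]⟩,⟨2,[(2,0),(4,0),(23,0),(6,0)]⟩⟩,.o ⟨false,2,⟨1,[(30,2),(0,0),(19,
  0)]⟩,⟨0,[(0,0)]⟩⟩,.o ⟨false,1,⟨2,[(14,0),(15,0),(0,0),(5,0),(8,0)]⟩,⟨0,[(26,0)]⟩⟩,.a ⟨true,0,⟨0,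
  [(37,0)]⟩,⟨0,[(34,0)]⟩⟩ ⟨false,1,⟨1,[(19,0),(1,1),(5,0),(23,0)]⟩,⟨0,[(17,0)]⟩⟩ ⟨true,1,⟨0,[(30,0),
  (3,0)]⟩,⟨0,[(0,0),(36,0)]⟩⟩]⟩)) (.Q [0,0,1,0,0,0,-2,0,-1,2,-2,-1] (.p false [0,0,1] [2,0,-1,0,-1]
  (⟨0,[(39,0)]⟩,⟨0,[(38,0)]⟩) .k 2 (⟨0,[(31,0),(6,0)]⟩,⟨0,[(7,0)]⟩) .k (.r 0 ⟨0,[(20,0),(4,1),(8,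
  0)]⟩ ⟨3,[(10,1),(5,5),(31,1),(0,0),(0,2)]⟩)) (.Q [0,0,0,0,0,0,2,0,1,-2,2,1] (.p true [0,0,1] [2,0,
  -1,0,-1] (⟨0,[(40,0)]⟩,⟨0,[(39,0)]⟩) .k 2 (⟨0,[(32,0),(6,0)]⟩,⟨0,[(8,0)]⟩) .k (.r 0 ⟨0,[(21,0),(4,
  1),(8,0)]⟩ ⟨3,[(11,1),(5,5),(31,1),(0,0),(0,2)]⟩)) (.R ⟨1,false,false,true,[-1,0,1,0,1],[1,-1,-1],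
  [0,1,0,0,0,0,0,1],(⟨0,[(9,0)]⟩,⟨0,[(33,0),(6,0)]⟩),(⟨0,[(29,0)]⟩,⟨0,[(41,0),(0,0)]⟩),⟨0,[(2,0)]⟩,
  .k,.k,(.r 0 ⟨1,[(16,0),(0,0),(4,0),(5,0)]⟩ ⟨1,[(18,1),(12,0),(0,0),(17,1),(1,0)]⟩),(.r 0 ⟨0,[(22,
  0),(4,0),(8,0),(2,0),(10,0)]⟩ ⟨0,[(12,0),(5,0),(33,0)]⟩),.k,.k,⟨false,0,⟨0,[(22,1),(4,1),(22,0)]⟩,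
  ⟨5,[(12,1),(5,9),(0,2),(29,0),(1,2)]⟩⟩,⟨true,0,⟨0,[(1,0)]⟩,⟨0,[(0,0)]⟩⟩,⟨false,1,⟨1,[(31,0),(0,0),
  (19,0)]⟩,⟨0,[]⟩⟩,⟨false,1,⟨0,[(1,0),(10,0),(5,0),(33,0)]⟩,⟨0,[(3,0),(18,1),(4,0),(22,0)]⟩⟩,⟨true,
  0,⟨0,[(50,0)]⟩,⟨0,[(49,0)]⟩⟩,⟨false,1,⟨0,[(1,0),(10,0),(5,0),(31,0),(1,0)]⟩,⟨0,[(3,0),(18,1),(4,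
  0)]⟩⟩,[.o ⟨false,0,⟨3,[(10,0),(1,1),(5,0),(18,1),(1,2)]⟩,⟨1,[(22,1),(24,0),(2,1),(1,0)]⟩⟩,.a
  ⟨true,0,⟨17,[(1,7),(3,6),(4,1),(1,6),(5,12),(6,6),(2,1),(3,0)]⟩,⟨0,[(22,0),(27,0)]⟩⟩ ⟨true,0,⟨0,
  [(22,0),(4,0)]⟩,⟨0,[(18,0)]⟩⟩ ⟨false,1,⟨5,[(1,5),(10,1),(5,3),(0,2),(29,0),(1,2)]⟩,⟨0,[(3,0),(18,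
  0),(27,0)]⟩⟩,.o ⟨false,0,⟨0,[(3,0)]⟩,⟨3,[(1,1),(29,2),(0,0),(18,0)]⟩⟩,.o ⟨false,0,⟨0,[(0,0),(38,
  0)]⟩,⟨3,[(1,1),(5,0),(23,0),(19,1)]⟩⟩]⟩) (.R ⟨1,false,false,true,[0,0,1],[2,0,-1,0,-1],[0,1,0,0,0,
  0,0,1],(⟨0,[(41,0)]⟩,⟨0,[(40,0)]⟩),(⟨0,[(33,0),(6,0)]⟩,⟨0,[(9,0)]⟩),⟨0,[(30,0)]⟩,.k,.k,.k,.k,(.r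
  0 ⟨1,[(16,0),(0,0),(4,2),(4,1),(0,0)]⟩ ⟨1,[(18,3),(31,1),(0,0),(0,0)]⟩),.k,⟨false,0,⟨2,[(7,0),(14,
  5),(2,0),(1,5),(18,0)]⟩,⟨3,[(12,1),(5,5),(31,1),(0,0),(0,2)]⟩⟩,⟨true,0,⟨0,[(0,0)]⟩,⟨0,[(3,0),(34,
  0)]⟩⟩,⟨true,0,⟨0,[(54,0)]⟩,⟨0,[]⟩⟩,⟨false,1,⟨1,[(0,0),(6,0),(10,3),(16,1),(16,0)]⟩,⟨0,[(3,0),(18,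
  1),(4,0)]⟩⟩,⟨false,0,⟨0,[(50,0)]⟩,⟨0,[(49,0),(2,0)]⟩⟩,⟨false,1,⟨1,[(0,0),(6,0),(10,3),(16,1),(14,
  1),(1,0)]⟩,⟨1,[(3,1),(6,0),(11,2),(4,1)]⟩⟩,[.o ⟨false,1,⟨1,[(0,0),(17,1),(12,0),(19,0)]⟩,⟨0,[(3,
  0),(18,0),(4,0)]⟩⟩,.o ⟨false,1,⟨1,[(0,0),(6,0),(10,1),(33,0)]⟩,⟨0,[(22,0),(2,0),(21,0)]⟩⟩,.o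
  ⟨false,1,⟨2,[(15,0),(15,0),(0,0),(5,0),(8,0)]⟩,⟨0,[(27,0)]⟩⟩,.a ⟨true,0,⟨0,[(38,0)]⟩,⟨0,[(35,
  0)]⟩⟩ ⟨true,0,⟨2,[(7,0),(14,2),(2,0),(1,2),(18,0)]⟩,⟨0,[(18,0)]⟩⟩ ⟨false,1,⟨1,[(0,0),(6,0),(10,1),
  (16,1),(16,0)]⟩,⟨1,[(3,1),(18,1),(15,0),(0,0)]⟩⟩]⟩)) (.I [1,0,1,0,0,0,0,-2] (.Q [0,-1,0,0,1,0,-2,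
  -2,-1,2,-2,-1] (.p false [0,0,1] [2,0,-1,0,-1] (⟨0,[(41,0)]⟩,⟨0,[(40,0)]⟩) .k 2 (⟨0,[(33,0),(6,
  0)]⟩,⟨0,[(9,0)]⟩) .k (.r 0 ⟨0,[(22,0),(4,1),(8,0)]⟩ ⟨1,[(0,1),(50,0),(0,0)]⟩)) (.R ⟨1,false,false,
  true,[-1,0,1,0,1],[1,0,-1],[0,1,0,0,0,0,0,1],(⟨0,[(10,0)]⟩,⟨0,[(34,0),(6,0)]⟩),(⟨0,[(41,0)]⟩,⟨0,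
  [(42,0)]⟩),⟨0,[(3,0)]⟩,.k,.k,(.r 0 ⟨1,[(17,0),(0,0),(4,0),(5,0)]⟩ ⟨11,[(0,3),(0,1),(31,3),(5,8),
  (0,0),(7,3),(2,11),(1,3)]⟩),.k,(.r 0 ⟨1,[(17,0),(0,0),(4,2),(4,1),(0,0)]⟩ ⟨19,[(0,5),(0,13),(14,
  1),(16,5),(5,7),(8,4),(2,19),(1,6)]⟩),.k,⟨true,0,⟨0,[(23,1),(4,1)]⟩,⟨0,[(1,0)]⟩⟩,⟨false,1,⟨1,[(0,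
  0),(7,0),(14,0),(5,1),(7,0)]⟩,⟨1,[(2,0),(1,0),(34,0)]⟩⟩,⟨false,1,⟨1,[(32,0),(0,0),(19,0)]⟩,⟨0,
  []⟩⟩,⟨false,1,⟨0,[(0,0)]⟩,⟨0,[(4,0),(18,1),(4,0)]⟩⟩,⟨true,0,⟨0,[(51,0)]⟩,⟨0,[(50,0)]⟩⟩,⟨false,1,
  ⟨0,[(0,0),(50,0)]⟩,⟨1,[(4,1),(6,0),(11,2),(4,1)]⟩⟩,[.o ⟨false,0,⟨0,[(38,0)]⟩,⟨1,[(23,1),(24,0),(4,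
  0)]⟩⟩,.a ⟨true,0,⟨1,[(0,0),(25,0)]⟩,⟨0,[(23,0)]⟩⟩ ⟨true,0,⟨0,[(23,0),(4,0)]⟩,⟨0,[(19,0)]⟩⟩ ⟨false,
  1,⟨12,[(0,8),(7,3),(20,4),(6,2),(0,4),(9,1)]⟩,⟨0,[(4,0),(18,0)]⟩⟩,.o ⟨false,0,⟨0,[(4,0)]⟩,⟨3,[(0,
  0),(22,0),(5,1),(2,2),(4,0)]⟩⟩,.o ⟨false,0,⟨1,[(4,1),(34,0),(0,0)]⟩,⟨3,[(0,0),(7,1),(14,0),(5,1),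
  (2,0),(4,0)]⟩⟩]⟩) (.R ⟨1,false,false,true,[0,0,1],[1,0,0,0,-1],[0,0,0,0,0,0,0,1],(⟨0,[(42,0)]⟩,⟨0,
  [(41,0)]⟩),(⟨0,[(34,0)]⟩,⟨0,[(35,0)]⟩),⟨0,[(31,0)]⟩,.k,.k,.k,.k,(.r 0 ⟨9,[(0,1),(7,1),(2,0),(5,0),
  (0,2),(8,3),(1,4)]⟩ ⟨3,[(1,1),(30,1),(0,1),(5,0),(0,0),(10,3),(1,1)]⟩),.k,⟨true,0,⟨0,[(23,0),(4,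
  0)]⟩,⟨0,[(19,0)]⟩⟩,⟨false,1,⟨0,[(32,0),(3,0)]⟩,⟨3,[(2,0),(1,0),(28,1),(5,0)]⟩⟩,⟨false,1,⟨1,[(32,
  0),(0,0),(19,0)]⟩,⟨0,[]⟩⟩,⟨true,1,⟨3,[(1,1),(27,0),(2,3),(3,1),(6,0),(1,0)]⟩,⟨1,[(0,0),(25,0)]⟩⟩,
  ⟨true,0,⟨0,[(51,0)]⟩,⟨0,[(50,0)]⟩⟩,⟨true,1,⟨3,[(1,1),(27,0),(2,3),(3,1),(6,0),(1,0),(5,3)]⟩,⟨3,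
  [(0,2),(0,1),(9,1),(14,0),(1,1),(7,1)]⟩⟩,[.o ⟨false,1,⟨0,[(32,0)]⟩,⟨2,[(4,0),(4,0),(23,0),(6,
  0)]⟩⟩,.o ⟨false,2,⟨1,[(32,2),(0,0),(19,0)]⟩,⟨0,[(0,0),(0,0),(26,0),(7,0)]⟩⟩,.o ⟨false,1,⟨2,[(16,
  0),(15,0),(0,0),(5,0),(8,0)]⟩,⟨0,[(28,0)]⟩⟩,.a ⟨true,0,⟨0,[(39,0)]⟩,⟨0,[(36,0)]⟩⟩ ⟨false,1,⟨1,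
  [(21,0),(1,1),(5,0),(23,0)]⟩,⟨0,[(19,0)]⟩⟩ ⟨true,1,⟨0,[(32,0),(3,0)]⟩,⟨3,[(0,1),(0,1),(24,1),(12,
  0),(0,0)]⟩⟩]⟩)) (.I [0,0,-1,-1,0,0,0,2] (.Q [0,-1,0,1,1,0,0,0,-1,1,0,-1] (.p false [0,0,0,0,1]
  [1] (⟨0,[(35,0)]⟩,⟨0,[(34,0)]⟩) .k 1 (⟨0,[]⟩,⟨0,[]⟩) .k .k) (.Q [0,-1,0,1,1,0,-2,-2,-1,2,-2,-1]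
  (.p false [0,0,1] [2,0,-1,0,-1] (⟨0,[(43,0)]⟩,⟨0,[(42,0)]⟩) .k 2 (⟨0,[(35,0),(6,0)]⟩,⟨0,[(11,
  0)]⟩) .k (.r 0 ⟨7,[(2,4),(35,5),(2,5),(6,0)]⟩ ⟨3,[(14,1),(5,5),(31,1),(0,0),(0,2)]⟩)) (.R ⟨1,
  false,false,true,[-1,0,1,0,1],[1,1,-1],[0,1,0,0,0,0,0,1],(⟨0,[(12,0)]⟩,⟨0,[(36,0),(6,0)]⟩),(⟨0,
  [(43,0),(1,0)]⟩,⟨0,[(33,0)]⟩),⟨0,[(5,0)]⟩,.k,.k,(.r 0 ⟨7,[(2,3),(17,0),(28,1),(2,2)]⟩ ⟨7,[(0,3),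
  (5,1),(28,1),(5,6),(0,0),(7,1),(2,3),(1,1)]⟩),(.r 0 ⟨7,[(2,6),(26,0),(9,0),(2,1),(6,2)]⟩ ⟨0,[(0,
  0),(5,0),(34,0)]⟩),(.r 0 ⟨1,[(2,1),(17,0),(31,0)]⟩ ⟨1,[(0,1),(5,1),(34,2),(0,0),(10,1)]⟩),.k,
  ⟨true,0,⟨0,[(2,0)]⟩,⟨0,[(21,1),(31,0)]⟩⟩,⟨false,1,⟨4,[(0,3),(1,3),(7,0),(27,1),(10,1)]⟩,⟨0,[(6,0),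
  (34,0)]⟩⟩,⟨false,1,⟨1,[(34,0),(0,0),(19,0)]⟩,⟨0,[]⟩⟩,⟨false,1,⟨0,[(0,0)]⟩,⟨2,[(2,0),(3,2),(6,0),
  (11,2),(16,0)]⟩⟩,⟨true,0,⟨0,[(53,0)]⟩,⟨0,[(52,0)]⟩⟩,⟨false,1,⟨0,[(0,0),(52,0)]⟩,⟨5,[(2,1),(3,5),
  (6,4),(11,2),(16,1)]⟩⟩,[.o ⟨false,0,⟨0,[(40,0),(12,0)]⟩,⟨1,[(13,0),(11,0),(24,0),(4,0)]⟩⟩,.a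
  ⟨true,0,⟨1,[(0,0),(27,0),(24,0)]⟩,⟨0,[(24,0)]⟩⟩ ⟨true,0,⟨2,[(3,0),(21,0),(16,0)]⟩,⟨0,[(21,0)]⟩⟩
  ⟨false,1,⟨1,[(0,1),(2,0),(45,0)]⟩,⟨1,[(6,1),(6,0),(11,0)]⟩⟩,.o ⟨false,0,⟨0,[(6,0)]⟩,⟨5,[(0,0),(0,
  0),(27,1),(1,2),(2,3)]⟩⟩,.o ⟨false,0,⟨1,[(6,1),(34,0),(0,0)]⟩,⟨7,[(0,3),(1,3),(7,0),(23,2),(14,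
  1)]⟩⟩]⟩) (.S ⟨1,0,[0,0,-1,-1,0,0,0,1],[0,-1,1],[0,1,-1,-1,0,0,0,1],(⟨0,[(33,0)]⟩,⟨0,[(43,0),(1,
  0)]⟩),⟨1,[(5,0),(1,0),(9,0),(15,0)]⟩,.k,(.r (-1) ⟨7,[(2,1),(19,6),(6,3),(1,1),(18,0),(1,2)]⟩ ⟨1,
  [(21,1),(19,0),(0,0),(10,3)]⟩),⟨true,0,⟨0,[(57,0)]⟩,⟨0,[]⟩⟩,⟨false,1,⟨1,[(34,0),(0,0),(19,0)]⟩,⟨0,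
  []⟩⟩,⟨false,0,⟨0,[(53,0)]⟩,⟨0,[(52,0),(2,0)]⟩⟩,⟨true,0,⟨0,[(53,0)]⟩,⟨0,[(52,0)]⟩⟩,[.e ⟨false,0,⟨5,
  [(2,1),(0,0),(16,3),(28,0)]⟩,⟨3,[(1,1),(19,3),(13,1),(14,0),(2,1),(1,0)]⟩⟩ ⟨false,1,⟨19,[(2,5),
  (19,5),(6,7),(1,3),(18,1),(3,10),(0,0)]⟩,⟨0,[(21,0),(31,0)]⟩⟩,.o ⟨false,1,⟨1,[(13,0),(11,0),(24,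
  0),(4,0)]⟩,⟨0,[(40,0),(12,0)]⟩⟩,.a ⟨true,0,⟨0,[(41,0)]⟩,⟨0,[(38,0)]⟩⟩ ⟨true,0,⟨7,[(2,3),(17,0),
  (28,1),(2,2)]⟩,⟨0,[(21,0),(31,0)]⟩⟩ ⟨false,1,⟨19,[(2,5),(19,5),(6,7),(1,3),(18,1),(3,0),(0,10)]⟩,
  ⟨0,[(21,0),(31,0)]⟩⟩,.o ⟨false,0,⟨0,[(0,0),(0,0),(19,1),(8,0)]⟩,⟨1,[(23,0),(7,0),(22,0)]⟩⟩]⟩))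
  (.R ⟨1,false,false,true,[0,0,1],[1,0,0,0,-1],[0,0,0,0,0,0,0,1],(⟨0,[(43,0)]⟩,⟨0,[(42,0)]⟩),(⟨0,
  [(35,0)]⟩,⟨0,[(36,0)]⟩),⟨0,[(32,0)]⟩,.k,.k,.k,.k,(.r 0 ⟨7,[(1,3),(17,0),(28,1),(2,2)]⟩ ⟨1,[(20,1),
  (12,0),(0,0),(17,1),(1,0)]⟩),.k,⟨true,0,⟨2,[(2,0),(21,0),(16,0)]⟩,⟨0,[(20,0)]⟩⟩,⟨false,1,⟨0,[(33,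
  0),(3,0)]⟩,⟨3,[(3,0),(1,0),(28,1),(5,0)]⟩⟩,⟨false,1,⟨1,[(33,0),(0,0),(19,0)]⟩,⟨0,[]⟩⟩,⟨true,1,⟨0,
  [(20,0),(12,0),(3,0)]⟩,⟨0,[(0,0),(23,0),(27,0)]⟩⟩,⟨true,0,⟨0,[(52,0)]⟩,⟨0,[(51,0)]⟩⟩,⟨true,1,⟨0,
  [(20,0),(12,0),(3,0),(14,0)]⟩,⟨0,[(0,0),(23,0)]⟩⟩,[.o ⟨false,1,⟨0,[(33,0)]⟩,⟨2,[(5,0),(4,0),(23,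
  0),(6,0)]⟩⟩,.o ⟨false,2,⟨1,[(33,2),(0,0),(19,0)]⟩,⟨0,[(0,0),(51,0)]⟩⟩,.o ⟨false,1,⟨2,[(17,0),(15,
  0),(0,0),(5,0),(8,0)]⟩,⟨0,[(29,0)]⟩⟩,.a ⟨true,0,⟨0,[(40,0)]⟩,⟨0,[(37,0)]⟩⟩ ⟨false,1,⟨3,[(2,1),(30,
  0),(0,0),(18,0),(0,1)]⟩,⟨0,[(20,0)]⟩⟩ ⟨true,1,⟨0,[(33,0),(3,0)]⟩,⟨0,[(0,0),(39,0),(11,0)]⟩⟩]⟩))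
  (.I [1,0,-1,-1,0,0,0,2] (.N [0,-1,2] 0 ⟨0,[(0,0)]⟩ ⟨0,[(1,0)]⟩ (.x (-1) ⟨2,[(3,0),(29,0),(6,3),(1,
  5),(1,2),(4,1)]⟩ ⟨0,[(4,0),(1,0),(22,0),(7,0)]⟩)) (.Q [0,-1,0,0,1,0,-2,-2,-1,2,-2,-1] (.p false
  [0,0,1] [2,0,-1,0,-1] (⟨0,[(43,0)]⟩,⟨0,[(42,0)]⟩) .k 2 (⟨0,[(35,0),(6,0)]⟩,⟨0,[(11,0)]⟩) .k (.r 0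
  ⟨7,[(2,4),(35,5),(2,5),(6,0)]⟩ ⟨1,[(1,1),(19,0),(29,0),(2,0)]⟩)) (.R ⟨1,false,false,true,[-1,0,1,
  0,1],[1,0,-1],[0,1,1,0,0,0,0,-1],(⟨0,[(12,0)]⟩,⟨0,[(36,0),(6,0)]⟩),(⟨0,[(43,0)]⟩,⟨0,[(44,0)]⟩),⟨0,
  [(5,0)]⟩,.k,.k,(.r 0 ⟨3,[(3,1),(16,0),(31,2)]⟩ ⟨2,[(2,1),(31,0),(0,0),(3,0),(2,0),(10,0),(1,1)]⟩),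
  .k,(.r 0 ⟨0,[(3,0),(48,0)]⟩ ⟨1,[(2,1),(31,0),(0,0),(19,0)]⟩),.k,⟨true,0,⟨1,[(41,0),(0,0)]⟩,⟨0,
  []⟩⟩,⟨false,1,⟨6,[(0,5),(2,4),(27,1),(2,0),(4,1),(9,1)]⟩,⟨1,[(4,0),(1,0),(34,0)]⟩⟩,⟨false,1,⟨13,
  [(0,3),(1,7),(10,3),(4,1),(2,7),(13,3),(14,2),(4,4)]⟩,⟨0,[(3,0)]⟩⟩,⟨false,1,⟨0,[(0,0)]⟩,⟨2,[(3,0),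
  (2,2),(18,3),(16,0)]⟩⟩,⟨true,0,⟨0,[(1,0)]⟩,⟨0,[(3,0),(48,0)]⟩⟩,⟨false,1,⟨0,[(0,0),(52,0)]⟩,⟨5,[(3,
  1),(2,5),(6,2),(11,4),(16,1)]⟩⟩,[.o ⟨false,0,⟨0,[(40,0)]⟩,⟨1,[(25,1),(24,0),(4,0)]⟩⟩,.a ⟨true,0,
  ⟨1,[(0,0),(27,0)]⟩,⟨0,[(25,0)]⟩⟩ ⟨true,0,⟨0,[(14,0)]⟩,⟨2,[(3,0),(21,0),(16,0)]⟩⟩ ⟨false,1,⟨1,[(0,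
  1),(2,0),(45,0)]⟩,⟨0,[(6,0),(18,0)]⟩⟩,.o ⟨false,0,⟨0,[(6,0)]⟩,⟨4,[(0,1),(2,0),(27,0),(2,2),(4,1),
  (2,0)]⟩⟩,.o ⟨false,0,⟨1,[(6,1),(34,0),(0,0)]⟩,⟨7,[(0,3),(2,3),(6,0),(23,2),(14,1)]⟩⟩]⟩) (.Q [0,-1,
  0,0,1,0,-1,-1,-1,2,-1,-1] (.p false [-1,0,1,0,1] [1] (⟨0,[(12,0)]⟩,⟨0,[(36,0),(6,0)]⟩) .k 1 (⟨0,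
  []⟩,⟨0,[]⟩) .k (.r 0 ⟨3,[(3,0),(35,1),(2,1),(6,0)]⟩ ⟨3,[(2,1),(19,0),(11,0),(0,0),(16,0),(2,
  1)]⟩)) (.S ⟨1,0,[0,2,0,0,0,0,0,1],[-1,0,1,0,1],[1,1,0,-1,0,0,0,1],(⟨0,[(13,0)]⟩,⟨0,[(37,0),(6,
  0)]⟩),⟨0,[(6,0)]⟩,.k,(.r 0 ⟨3,[(4,1),(16,0),(31,2)]⟩ ⟨5,[(0,0),(2,3),(32,0),(3,2),(2,1),(7,0),(2,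
  1),(1,3)]⟩),⟨false,1,⟨0,[(53,0),(2,0)]⟩,⟨0,[(54,0)]⟩⟩,⟨true,0,⟨0,[(58,0)]⟩,⟨0,[]⟩⟩,⟨true,0,⟨0,[]⟩,
  ⟨0,[(58,0)]⟩⟩,⟨false,0,⟨0,[(54,0)]⟩,⟨0,[(53,0),(2,0)]⟩⟩,[.o ⟨false,(-1),⟨0,[(1,0),(39,0)]⟩,⟨1,[(0,
  1),(50,0),(4,0)]⟩⟩,.a ⟨true,(-1),⟨1,[(1,0),(27,0)]⟩,⟨0,[(0,0)]⟩⟩ ⟨true,0,⟨3,[(4,0),(9,1),(16,0),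
  (11,0)]⟩,⟨3,[(3,1),(38,0),(0,0),(10,1)]⟩⟩ ⟨false,0,⟨1,[(4,0),(45,0)]⟩,⟨13,[(0,3),(2,3),(5,3),(9,
  1),(2,1),(13,3),(14,2),(4,0)]⟩⟩,.o ⟨false,0,⟨0,[(7,0)]⟩,⟨3,[(0,0),(31,1),(2,2),(4,0)]⟩⟩,.o ⟨false,
  0,⟨1,[(7,1),(34,0),(0,0)]⟩,⟨5,[(0,1),(3,0),(6,1),(20,1),(2,1),(14,0)]⟩⟩]⟩) (.R ⟨1,false,false,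
  true,[0,0,1],[1,0,0,0,-1],[1,0,0,-1,0,0,0,1],(⟨0,[(45,0)]⟩,⟨0,[(44,0)]⟩),(⟨0,[(37,0)]⟩,⟨0,[(38,
  0)]⟩),⟨0,[(34,0)]⟩,.k,.k,.k,.k,(.r 0 ⟨3,[(4,1),(16,0),(31,2)]⟩ ⟨2,[(3,1),(31,0),(0,0),(3,0),(2,0),
  (10,0),(1,1)]⟩),.k,⟨true,0,⟨3,[(4,0),(9,1),(16,0),(11,0)]⟩,⟨3,[(3,1),(38,0),(0,0),(10,1)]⟩⟩,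
  ⟨false,1,⟨0,[(35,0),(3,0)]⟩,⟨3,[(5,0),(1,0),(28,1),(5,0)]⟩⟩,⟨false,1,⟨0,[(53,0),(2,0)]⟩,⟨0,[(54,
  0)]⟩⟩,⟨true,1,⟨2,[(3,1),(10,0),(17,0),(2,2),(3,1)]⟩,⟨1,[(1,0),(27,0)]⟩⟩,⟨true,0,⟨0,[]⟩,⟨0,[(58,
  0)]⟩⟩,⟨true,1,⟨3,[(3,1),(28,0),(2,3),(3,1),(6,0),(1,0),(5,1)]⟩,⟨1,[(0,0),(13,0),(14,0)]⟩⟩,[.o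
  ⟨false,1,⟨0,[(35,0)]⟩,⟨2,[(7,0),(4,0),(23,0),(6,0)]⟩⟩,.o ⟨false,2,⟨1,[(35,2),(0,0),(19,0)]⟩,⟨3,
  [(0,2),(2,1),(10,0),(14,0),(1,1),(7,1)]⟩⟩,.o ⟨false,1,⟨2,[(19,0),(15,0),(0,0),(5,0),(8,0)]⟩,⟨0,
  [(31,0)]⟩⟩,.a ⟨true,0,⟨0,[(42,0)]⟩,⟨0,[(39,0)]⟩⟩ ⟨false,1,⟨7,[(4,1),(9,0),(8,2),(6,2),(1,1),(18,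
  0),(4,3)]⟩,⟨3,[(3,1),(38,0),(0,0),(10,1)]⟩⟩ ⟨true,1,⟨0,[(35,0),(3,0)]⟩,⟨1,[(1,0),(20,1),(6,
  0)]⟩⟩]⟩)))))))) (.Q [0,-1,0,1,1,0,0,0,-1,0,0,-1] (.p false [0,0,0,0,1] [] (⟨0,[(31,0)]⟩,⟨0,[(30,
  0)]⟩) .k 0 (⟨0,[]⟩,⟨0,[]⟩) .k .k) (.R ⟨1,false,false,true,[0,0,1],[0,0,1,0,-1],[1,0,1],(⟨0,[(39,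
  0)]⟩,⟨0,[(38,0)]⟩),(⟨0,[(2,0)]⟩,⟨0,[(32,0),(5,0)]⟩),⟨0,[(28,0)]⟩,.k,.k,.k,.k,(.r 0 ⟨0,[(46,0)]⟩
  ⟨1,[(0,1),(29,1),(5,0),(0,0)]⟩),.k,⟨true,0,⟨0,[(16,0)]⟩,⟨0,[(20,0),(4,0)]⟩⟩,⟨false,1,⟨0,[(21,0)]⟩,
  ⟨0,[(30,0)]⟩⟩,⟨true,0,⟨0,[(16,0)]⟩,⟨2,[(5,0),(14,2),(2,0),(1,2),(18,0)]⟩⟩,⟨true,1,⟨0,[(29,0)]⟩,⟨0,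
  [(23,0)]⟩⟩,⟨true,0,⟨0,[(16,0),(31,0)]⟩,⟨1,[(14,0),(0,0),(4,0),(5,0)]⟩⟩,⟨false,1,⟨0,[(0,0)]⟩,⟨7,
  [(3,1),(4,2),(7,0),(6,1),(6,5),(4,1),(1,0)]⟩⟩,[.o ⟨false,1,⟨0,[(0,0),(13,0)]⟩,⟨2,[(6,1),(9,2),(9,
  0),(3,0),(2,0)]⟩⟩,.a ⟨true,1,⟨1,[(0,1),(7,0),(11,0)]⟩,⟨0,[(16,0),(6,0),(9,0)]⟩⟩ ⟨false,1,⟨1,[(29,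
  0),(0,0),(19,0)]⟩,⟨2,[(5,0),(17,0),(20,0)]⟩⟩ ⟨true,1,⟨1,[(0,1),(7,0),(11,0),(4,1)]⟩,⟨0,[(16,0),(6,
  0)]⟩⟩,.o ⟨false,1,⟨2,[(13,0),(15,0),(0,0),(5,0),(8,0)]⟩,⟨0,[(25,0)]⟩⟩,.e ⟨true,0,⟨0,[]⟩,⟨0,[(52,
  0)]⟩⟩ ⟨true,1,⟨1,[(0,0),(4,0),(8,0),(5,0),(5,0)]⟩,⟨0,[(16,0),(6,0)]⟩⟩]⟩) (.Q [0,-1,0,2,0,0,-1,-1,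
  0,1,-1] (.p false [0,0,1] [1] (⟨0,[(39,0)]⟩,⟨0,[(38,0)]⟩) .k 1 (⟨0,[]⟩,⟨0,[]⟩) .k .k) (.Q [0,0,0,
  0,-1,0,-1,-1,1,1,-1,1] (.p true [1,0,-1,0,1] [] (⟨0,[(33,0),(5,0)]⟩,⟨0,[(3,0)]⟩) .k 0 (⟨0,[]⟩,⟨0,
  []⟩) .k (.r 0 ⟨4,[(11,0),(5,3),(27,1),(3,0)]⟩ ⟨3,[(21,1),(5,1),(7,1),(10,0),(4,2)]⟩)) (.R ⟨1,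
  false,false,false,[0,-1,0,0,1],[1,0,-1,0,1],[1,1],(⟨0,[(24,0)]⟩,⟨0,[(33,0),(8,0)]⟩),(⟨0,[(34,0),
  (5,0)]⟩,⟨0,[(4,0)]⟩),⟨0,[(9,0),(4,0)]⟩,(.r 0 ⟨0,[(48,0)]⟩ ⟨3,[(1,1),(29,0),(0,0),(3,1),(1,1),(0,
  1),(7,0),(4,1)]⟩),.k,(.r 0 ⟨1,[(10,0),(1,0),(4,0),(9,0)]⟩ ⟨1,[(1,1),(34,1),(1,1),(0,1),(7,0),(4,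
  0)]⟩),.k,(.r (-1) ⟨1,[(10,0),(8,0),(0,0),(5,0),(1,0)]⟩ ⟨1,[(18,1),(19,0),(0,0),(10,3)]⟩),.k,⟨true,
  0,⟨0,[(22,0),(4,0)]⟩,⟨0,[(11,0)]⟩⟩,⟨false,0,⟨0,[(0,0),(6,0),(14,0),(4,0)]⟩,⟨1,[(31,0),(0,0),(5,1),
  (8,0)]⟩⟩,⟨true,0,⟨1,[(38,0),(0,0),(10,1)]⟩,⟨0,[(48,0)]⟩⟩,⟨true,0,⟨19,[(0,0),(0,9),(1,4),(11,0),(2,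
  2),(13,3),(4,5),(8,1)]⟩,⟨0,[(16,0)]⟩⟩,⟨true,0,⟨1,[(38,0),(0,0),(10,3)]⟩,⟨3,[(10,1),(1,1),(4,0),
  (21,1),(9,0)]⟩⟩,⟨false,0,⟨0,[(1,0)]⟩,⟨1,[(10,0),(15,0),(20,0),(1,0),(2,0)]⟩⟩,[.e ⟨false,0,⟨2,[(7,
  0),(17,0),(20,0)]⟩,⟨1,[(31,0),(0,0),(19,0)]⟩⟩ ⟨false,0,⟨18,[(0,1),(0,4),(1,1),(8,9),(22,7),(1,1),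
  (8,5),(4,1)]⟩,⟨1,[(22,1),(15,0),(0,0),(7,0),(4,0)]⟩⟩,.a ⟨true,(-1),⟨0,[(0,0)]⟩,⟨0,[(22,0),(8,
  0)]⟩⟩ ⟨true,0,⟨0,[]⟩,⟨1,[(38,0),(0,0)]⟩⟩ ⟨false,0,⟨0,[(0,0),(6,0)]⟩,⟨1,[(36,1),(1,0),(0,0),(7,0),
  (4,0)]⟩⟩,.o ⟨false,0,⟨1,[(25,1),(12,0),(0,0),(7,0),(4,0)]⟩,⟨0,[(23,0)]⟩⟩,.o ⟨false,0,⟨1,[(25,1),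
  (12,1),(0,1),(7,0),(4,0)]⟩,⟨0,[(7,0)]⟩⟩]⟩) (.R ⟨1,false,false,true,[0,-1,1],[0,0,1,0,-1],[0,0,1],
  (⟨0,[(30,0)]⟩,⟨0,[(40,0),(1,0)]⟩),(⟨0,[(4,0)]⟩,⟨0,[(34,0),(5,0)]⟩),⟨0,[(4,0),(4,0),(4,0)]⟩,.k,.k,
  (.r (-1) ⟨1,[(10,0),(8,0),(0,0),(5,0),(1,0)]⟩ ⟨1,[(18,1),(19,0),(0,0),(10,3)]⟩),(.r 0 ⟨0,[(48,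
  0)]⟩ ⟨3,[(0,1),(0,1),(29,0),(0,2),(5,1),(0,1),(12,0)]⟩),(.r 0 ⟨1,[(10,0),(1,0),(4,0),(9,0)]⟩ ⟨0,
  [(0,0),(0,0),(30,0),(5,0),(0,0)]⟩),.k,⟨true,0,⟨0,[(11,0)]⟩,⟨0,[(22,0),(4,0)]⟩⟩,⟨false,1,⟨0,[(7,
  0)]⟩,⟨1,[(32,1),(5,0),(0,0)]⟩⟩,⟨true,0,⟨1,[(18,1),(19,0),(0,0),(10,1)]⟩,⟨0,[(17,0),(4,0),(4,0)]⟩⟩,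
  ⟨true,1,⟨1,[(0,0),(0,0),(29,0),(22,0)]⟩,⟨0,[(2,0)]⟩⟩,⟨true,0,⟨1,[(18,1),(19,0),(0,0),(10,3)]⟩,⟨1,
  [(10,0),(6,1),(4,0),(4,1)]⟩⟩,⟨false,1,⟨0,[(0,0),(0,0)]⟩,⟨3,[(2,1),(2,1),(4,0),(7,0),(13,1),(6,0),
  (9,1)]⟩⟩,[.o ⟨false,1,⟨0,[(0,0)]⟩,⟨3,[(1,0),(0,0),(2,0),(2,0),(9,0),(13,1),(4,1),(1,0)]⟩⟩,.e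
  ⟨false,1,⟨1,[(31,0),(0,0),(19,0)]⟩,⟨2,[(7,0),(17,0),(20,0)]⟩⟩ ⟨false,2,⟨1,[(0,0),(6,0),(14,0),(5,
  0),(22,0),(0,0)]⟩,⟨0,[(18,0),(6,0)]⟩⟩,.e ⟨true,0,⟨1,[(38,0),(0,0)]⟩,⟨2,[(7,0),(17,0),(20,0)]⟩⟩
  ⟨true,1,⟨1,[(0,0),(6,0),(14,0),(5,0)]⟩,⟨0,[(18,0),(6,0)]⟩⟩,.a ⟨true,0,⟨1,[(38,2),(0,0)]⟩,⟨1,[(1,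
  1),(8,0),(6,1),(4,0),(4,1)]⟩⟩ ⟨false,1,⟨1,[(31,0),(0,0),(19,0)]⟩,⟨0,[]⟩⟩ ⟨true,1,⟨0,[(7,0),(14,0),
  (4,0)]⟩,⟨1,[(18,1),(6,1),(12,0),(0,0)]⟩⟩]⟩)) (.Q [0,0,0,0,0,0,2,1,1,-2,2,1] (.p true [0,0,1] [2,0,
  -1,0,-1] (⟨0,[(40,0)]⟩,⟨0,[(39,0)]⟩) .k 2 (⟨0,[(32,0),(6,0)]⟩,⟨0,[(8,0)]⟩) .k (.r 0 ⟨0,[(21,0),(4,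
  1),(8,0)]⟩ ⟨3,[(11,1),(5,5),(31,1),(0,0),(0,2)]⟩)) (.R ⟨1,false,false,true,[0,0,1],[2,0,-1,0,-1],
  [0,1,0,0,0,0,0,1],(⟨0,[(41,0)]⟩,⟨0,[(40,0)]⟩),(⟨0,[(33,0),(6,0)]⟩,⟨0,[(9,0)]⟩),⟨0,[(30,0)]⟩,.k,.k,
  .k,.k,(.r 0 ⟨1,[(16,0),(0,0),(4,2),(4,1),(0,0)]⟩ ⟨1,[(18,3),(31,1),(0,0),(0,0)]⟩),.k,⟨false,0,⟨2,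
  [(7,0),(14,5),(2,0),(1,5),(18,0)]⟩,⟨3,[(12,1),(5,5),(31,1),(0,0),(0,2)]⟩⟩,⟨true,0,⟨0,[(3,0),(23,
  0)]⟩,⟨0,[(0,0),(17,0)]⟩⟩,⟨true,0,⟨0,[(54,0)]⟩,⟨0,[]⟩⟩,⟨false,1,⟨1,[(3,1),(8,0),(5,1),(8,0),(9,0),
  (12,0),(1,1)]⟩,⟨0,[(0,0),(21,0),(4,0)]⟩⟩,⟨false,0,⟨0,[(50,0)]⟩,⟨0,[(49,0),(2,0)]⟩⟩,⟨false,1,⟨1,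
  [(3,1),(8,0),(5,1),(8,0),(9,0),(12,2),(1,1)]⟩,⟨1,[(0,1),(9,0),(11,0),(4,1)]⟩⟩,[.o ⟨false,1,⟨3,[(3,
  1),(14,1),(12,1),(5,1),(13,0),(0,0)]⟩,⟨0,[(0,0),(26,0)]⟩⟩,.o ⟨false,1,⟨1,[(3,0),(3,0),(10,1),(8,
  0),(24,0)]⟩,⟨1,[(0,1),(26,0),(11,0),(6,0)]⟩⟩,.o ⟨false,1,⟨2,[(15,0),(15,0),(0,0),(5,0),(8,0)]⟩,⟨0,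
  [(27,0)]⟩⟩,.a ⟨true,0,⟨0,[(38,0)]⟩,⟨0,[(35,0)]⟩⟩ ⟨true,0,⟨2,[(7,0),(14,2),(2,0),(1,2),(18,0)]⟩,⟨0,
  [(18,0)]⟩⟩ ⟨false,1,⟨1,[(3,1),(8,0),(14,0),(9,0),(12,0),(1,1)]⟩,⟨1,[(0,1),(37,0),(0,0)]⟩⟩]⟩) (.Q
  [0,0,-1,0,0,0,1,0,1,-1,1,1] (.p true [-1,0,1,0,1] [] (⟨0,[(9,0)]⟩,⟨0,[(33,0),(6,0)]⟩) .k 0 (⟨0,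
  []⟩,⟨0,[]⟩) .k (.r 0 ⟨0,[(27,0),(8,0)]⟩ ⟨1,[(18,1),(32,0),(0,0)]⟩)) (.I [1,2,1,0,-1,0,0,1] (.S ⟨1,
  0,[0,0,0,0,0,0,0,-1],[2,0,-1,0,-1],[0,-1,0,0,0,0,0,-1],(⟨0,[(35,0),(6,0)]⟩,⟨0,[(11,0)]⟩),⟨0,[(31,
  0),(3,0)]⟩,.k,(.r (-1) ⟨0,[(20,0),(0,0)]⟩ ⟨0,[(38,0),(2,0),(10,0)]⟩),⟨false,1,⟨1,[(33,0),(0,0),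
  (19,0)]⟩,⟨0,[]⟩⟩,⟨true,0,⟨0,[(56,0)]⟩,⟨0,[]⟩⟩,⟨true,0,⟨0,[(52,0)]⟩,⟨0,[(51,0)]⟩⟩,⟨false,0,⟨0,[(52,
  0)]⟩,⟨0,[(51,0),(2,0)]⟩⟩,[.e ⟨false,1,⟨1,[(1,0),(0,0),(12,0),(4,0),(33,0)]⟩,⟨7,[(0,1),(21,0),(1,
  1),(5,2),(7,3),(10,0)]⟩⟩ ⟨false,1,⟨0,[(20,0),(32,0)]⟩,⟨0,[(24,0),(4,0)]⟩⟩,.o ⟨false,1,⟨3,[(2,1),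
  (6,0),(10,1),(12,0),(20,1)]⟩,⟨1,[(0,0),(0,1),(22,0),(16,0),(7,0)]⟩⟩,.e ⟨false,1,⟨0,[(7,0),(12,0),
  (31,0)]⟩,⟨7,[(0,1),(21,0),(1,1),(5,2),(7,3),(10,0)]⟩⟩ ⟨false,1,⟨1,[(20,1),(32,0),(0,0)]⟩,⟨0,[(24,
  0),(4,0)]⟩⟩,.a ⟨true,0,⟨1,[(5,1),(34,0),(0,0)]⟩,⟨0,[(1,0)]⟩⟩ ⟨true,1,⟨1,[(1,0),(0,0),(12,0),(4,0),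
  (33,0)]⟩,⟨0,[(0,0)]⟩⟩ ⟨false,1,⟨1,[(1,0),(0,0),(12,0),(4,0),(33,0)]⟩,⟨0,[(24,0),(16,0)]⟩⟩]⟩) (.Q
  [0,-1,0,2,1,0,0,0,-1,0,0,-1] (.p false [0,0,0,0,1] [] (⟨0,[(36,0)]⟩,⟨0,[(35,0)]⟩) .k 0 (⟨0,[]⟩,⟨0,
  []⟩) .k .k) (.Q [0,0,-2,0,0,0,-1,0,0,1,-1] (.p false [0,0,1] [1] (⟨0,[(44,0)]⟩,⟨0,[(43,0)]⟩) .k 1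
  (⟨0,[]⟩,⟨0,[]⟩) .k .k) (.R ⟨1,false,false,true,[0,-1,1],[0,0,1,0,-1],[0,0,1],(⟨0,[(34,0)]⟩,⟨0,
  [(44,0),(1,0)]⟩),(⟨0,[(8,0)]⟩,⟨0,[(38,0),(5,0)]⟩),⟨0,[(8,0),(4,0),(4,0)]⟩,.k,.k,(.r (-1) ⟨5,[(5,
  1),(17,4),(0,0),(1,0),(3,2),(1,2)]⟩ ⟨1,[(1,1),(20,1),(6,1),(12,0),(0,0)]⟩),(.r 0 ⟨0,[(52,0)]⟩ ⟨3,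
  [(1,1),(33,0),(0,2),(5,1),(0,1),(12,0)]⟩),(.r 0 ⟨1,[(14,0),(1,0),(4,0),(9,0)]⟩ ⟨0,[(1,0),(34,0),
  (5,0),(0,0)]⟩),.k,⟨true,0,⟨0,[(15,0)]⟩,⟨0,[(26,0),(4,0)]⟩⟩,⟨false,1,⟨0,[(11,0)]⟩,⟨1,[(36,1),(5,0),
  (0,0)]⟩⟩,⟨true,0,⟨1,[(1,0),(20,1),(6,0),(12,0),(0,0)]⟩,⟨0,[(0,0),(19,0)]⟩⟩,⟨true,1,⟨1,[(1,0),(33,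
  0),(22,0)]⟩,⟨0,[(6,0)]⟩⟩,⟨true,0,⟨1,[(1,1),(20,1),(6,1),(12,0),(0,0)]⟩,⟨0,[(0,0),(4,0)]⟩⟩,⟨false,
  1,⟨0,[(1,0)]⟩,⟨3,[(6,1),(2,1),(4,0),(7,0),(13,1),(6,0),(9,1)]⟩⟩,[.o ⟨false,1,⟨0,[(1,0),(3,0)]⟩,⟨1,
  [(2,0),(26,0),(6,0),(4,0),(1,0)]⟩⟩,.e ⟨false,1,⟨1,[(35,0),(0,0),(19,0)]⟩,⟨5,[(1,0),(19,1),(7,0),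
  (20,1)]⟩⟩ ⟨false,2,⟨7,[(1,2),(9,1),(11,5),(2,6),(5,3),(2,2),(4,0),(10,1)]⟩,⟨0,[(22,0),(6,0)]⟩⟩,.e
  ⟨true,0,⟨1,[(42,0),(0,0)]⟩,⟨5,[(1,0),(19,1),(7,0),(20,1)]⟩⟩ ⟨true,1,⟨1,[(1,0),(3,0),(5,0),(14,0),
  (5,0)]⟩,⟨0,[(22,0),(6,0)]⟩⟩,.a ⟨true,0,⟨1,[(42,2),(0,0)]⟩,⟨0,[(0,0)]⟩⟩ ⟨false,1,⟨1,[(35,0),(0,0),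
  (19,0)]⟩,⟨0,[]⟩⟩ ⟨true,1,⟨0,[(11,0),(14,0),(4,0)]⟩,⟨1,[(22,1),(6,1),(12,0),(0,0)]⟩⟩]⟩) (.K ⟨0,[1,
  0,-1,0,1],(-1),(-1),(⟨0,[(38,0),(5,0)]⟩,⟨0,[(8,0)]⟩),.k,(.r 0 ⟨2,[(16,1),(5,0),(30,0)]⟩ ⟨1,[(1,0),
  (24,0),(9,0),(3,0),(2,1),(12,0)]⟩),(.r 0 ⟨1,[(1,0),(20,1),(6,0),(28,1)]⟩ ⟨3,[(14,0),(8,1),(2,2),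
  (5,1),(18,0),(4,0)]⟩),.k,.k,[⟨1,[(0,1),(0,1),(12,0),(1,1),(9,0)]⟩,⟨1,[(0,1),(0,0),(5,1),(1,1),(19,
  4),(1,1)]⟩,⟨0,[(1,0),(3,0)]⟩,⟨1,[(4,0),(17,0),(6,1),(6,0),(13,0)]⟩]⟩)) (.Q [0,0,0,0,0,1,0,0,0,1,
  -1,-1] (.p false [-1,0,1,0,1] [] (⟨0,[(12,0)]⟩,⟨0,[(36,0),(6,0)]⟩) .k 0 (⟨0,[]⟩,⟨0,[]⟩) .k (.r 0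
  ⟨0,[(30,0),(8,0)]⟩ ⟨11,[(1,0),(1,1),(14,3),(2,4),(13,1),(4,3),(14,6)]⟩)) (.Q [0,0,1,0,0,0,1,0,1,
  -2,1,1] (.p true [-1,0,1,0,1] [1] (⟨0,[(13,0)]⟩,⟨0,[(0,0),(47,0)]⟩) .k 1 (⟨0,[]⟩,⟨0,[]⟩) .k (.r 0
  ⟨0,[(31,0),(8,0)]⟩ ⟨11,[(2,0),(1,1),(14,3),(2,4),(13,1),(4,3),(14,6)]⟩)) (.R ⟨0,false,false,false,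
  [-1,0,1,0,1],[0,1],[1,0,1,1],(⟨0,[(14,0)]⟩,⟨0,[(1,0),(47,0)]⟩),(⟨0,[(50,0)]⟩,⟨0,[(49,0)]⟩),⟨0,[(1,
  0)]⟩,.k,.k,(.r 0 ⟨1,[(21,0),(0,0),(4,0),(5,0)]⟩ ⟨1,[(23,1),(12,0),(0,0),(17,1),(1,0)]⟩),(.r 0 ⟨1,
  [(21,0),(0,0),(4,0),(5,0)]⟩ ⟨1,[(23,1),(12,0),(0,0),(17,1),(1,0)]⟩),.k,.k,⟨true,0,⟨0,[]⟩,⟨1,[(43,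
  0),(0,0)]⟩⟩,⟨false,1,⟨2,[(8,0),(3,1),(20,0),(22,0)]⟩,⟨1,[(0,0),(36,0),(5,0)]⟩⟩,⟨false,1,⟨0,[(23,
  0),(31,0),(1,0)]⟩,⟨1,[(21,0),(0,0),(4,0),(5,0)]⟩⟩,⟨true,1,⟨3,[(3,0),(1,1),(17,0),(12,1),(18,3),(1,
  0)]⟩,⟨0,[(21,0),(8,0)]⟩⟩,⟨false,0,⟨0,[]⟩,⟨0,[]⟩⟩,⟨false,0,⟨0,[]⟩,⟨0,[]⟩⟩,[.e ⟨false,0,⟨0,[(55,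
  0)]⟩,⟨1,[(24,0),(11,0),(0,0),(16,0)]⟩⟩ ⟨false,1,⟨5,[(8,1),(3,0),(20,1),(2,2),(18,5),(0,1)]⟩,⟨15,
  [(0,4),(1,7),(1,1),(15,3),(16,0),(5,0),(13,3)]⟩⟩,.o ⟨false,1,⟨1,[(52,0),(2,1),(1,0)]⟩,⟨0,[(54,
  0)]⟩⟩,.a ⟨true,0,⟨3,[(0,0),(3,1),(32,0),(5,0)]⟩,⟨0,[(8,0)]⟩⟩ ⟨true,0,⟨1,[(43,0),(0,0),(10,1)]⟩,⟨0,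
  [(53,0)]⟩⟩ ⟨false,1,⟨3,[(8,1),(3,0),(23,0),(7,1),(10,3),(1,1)]⟩,⟨15,[(0,4),(1,7),(1,1),(15,3),(16,
  0),(5,0),(13,3)]⟩⟩,.o ⟨false,0,⟨0,[(0,0)]⟩,⟨5,[(8,1),(3,0),(20,1),(2,2),(19,1)]⟩⟩]⟩) (.R ⟨0,false,
  false,false,[-1,0,1,0,1],[0,0,0,0,1],[0,1,0,0,0,0,0,1],(⟨0,[(14,0)]⟩,⟨0,[(1,0),(47,0)]⟩),(⟨0,[(39,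
  0)]⟩,⟨0,[(38,0)]⟩),⟨0,[(1,0)]⟩,.k,.k,(.r 0 ⟨1,[(21,0),(0,0),(4,0),(5,0)]⟩ ⟨1,[(23,1),(12,0),(0,0),
  (17,1),(1,0)]⟩),.k,.k,.k,⟨true,0,⟨0,[(27,0),(4,0)]⟩,⟨0,[(23,0)]⟩⟩,⟨false,0,⟨0,[(40,0)]⟩,⟨2,[(20,
  0),(15,0),(0,0),(5,0),(8,0)]⟩⟩,⟨false,1,⟨1,[(36,0),(0,0),(19,0)]⟩,⟨0,[]⟩⟩,⟨true,0,⟨9,[(3,0),(1,4),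
  (11,0),(5,2),(6,0),(6,3),(17,0)]⟩,⟨0,[(21,0),(33,0)]⟩⟩,⟨false,0,⟨0,[]⟩,⟨0,[]⟩⟩,⟨false,0,⟨0,[]⟩,⟨0,
  []⟩⟩,[.e ⟨false,0,⟨2,[(12,0),(14,2),(2,0),(1,2),(18,0)]⟩,⟨11,[(3,0),(1,1),(14,3),(2,4),(13,1),(4,
  3),(14,6)]⟩⟩ ⟨false,0,⟨3,[(0,0),(32,0),(3,0),(2,0),(10,1)]⟩,⟨1,[(3,0),(23,0),(15,0),(8,0)]⟩⟩,.o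
  ⟨false,0,⟨0,[(4,0),(39,0)]⟩,⟨0,[(36,0)]⟩⟩,.e ⟨false,0,⟨0,[(27,0),(4,0)]⟩,⟨11,[(3,0),(1,1),(14,3),
  (2,4),(13,1),(4,3),(14,6)]⟩⟩ ⟨false,0,⟨2,[(8,0),(24,0),(3,0)]⟩,⟨1,[(3,0),(23,0),(15,0),(8,0)]⟩⟩,
  .a ⟨true,0,⟨0,[(4,0),(38,0),(0,0)]⟩,⟨0,[(0,0)]⟩⟩ ⟨true,0,⟨2,[(12,0),(14,2),(2,0),(1,2),(18,0)]⟩,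
  ⟨0,[(23,0)]⟩⟩ ⟨false,0,⟨0,[(40,0)]⟩,⟨1,[(43,1),(8,0),(4,0)]⟩⟩]⟩)) (.Q [0,0,-1,0,0,0,-1,0,-1,2,-1,
  -1] (.p false [-1,0,1,0,1] [1] (⟨0,[(13,0)]⟩,⟨0,[(37,0),(6,0)]⟩) .k 1 (⟨0,[]⟩,⟨0,[]⟩) .k (.r 0 ⟨0,
  [(31,0),(8,0)]⟩ ⟨11,[(2,0),(1,1),(14,3),(2,4),(13,1),(4,3),(14,6)]⟩)) (.S ⟨1,0,[0,2,0,0,0,0,0,1],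
  [-1,0,1,0,1],[0,1,0,0,0,0,0,1],(⟨0,[(14,0)]⟩,⟨0,[(38,0),(6,0)]⟩),⟨0,[(1,0)]⟩,.k,(.r 0 ⟨1,[(21,0),
  (0,0),(4,0),(5,0)]⟩ ⟨1,[(23,1),(12,0),(0,0),(17,1),(1,0)]⟩),⟨false,1,⟨1,[(36,0),(0,0),(19,0)]⟩,⟨0,
  []⟩⟩,⟨true,0,⟨0,[(59,0)]⟩,⟨0,[]⟩⟩,⟨true,0,⟨0,[(55,0)]⟩,⟨0,[(54,0)]⟩⟩,⟨false,0,⟨0,[(55,0)]⟩,⟨0,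
  [(54,0),(2,0)]⟩⟩,[.e ⟨false,0,⟨2,[(12,0),(14,2),(2,0),(1,2),(18,0)]⟩,⟨11,[(3,0),(1,1),(14,3),(2,
  4),(13,1),(4,3),(14,6)]⟩⟩ ⟨false,0,⟨0,[(27,0),(4,0),(18,0)]⟩,⟨1,[(3,0),(19,0),(33,0)]⟩⟩,.o ⟨false,
  0,⟨0,[(27,0),(2,0),(21,0)]⟩,⟨3,[(3,0),(1,1),(17,0),(12,1),(20,0)]⟩⟩,.e ⟨false,0,⟨0,[(27,0),(4,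
  0)]⟩,⟨11,[(3,0),(1,1),(14,3),(2,4),(13,1),(4,3),(14,6)]⟩⟩ ⟨false,0,⟨0,[(32,0),(8,0)]⟩,⟨1,[(3,0),
  (19,0),(33,0)]⟩⟩,.a ⟨true,0,⟨0,[(4,0),(38,0),(0,0)]⟩,⟨0,[(0,0)]⟩⟩ ⟨true,0,⟨2,[(12,0),(14,2),(2,0),
  (1,2),(18,0)]⟩,⟨0,[(23,0)]⟩⟩ ⟨false,0,⟨2,[(12,0),(14,2),(2,0),(1,2),(18,0)]⟩,⟨0,[(23,0),(33,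
  0)]⟩⟩]⟩) (.Q [0,2,0,0,-1,0,0,0,1,-1,0,1] (.p true [0,0,0,0,1] [1] (⟨0,[(39,0)]⟩,⟨0,[(38,0)]⟩) .k
  1 (⟨0,[]⟩,⟨0,[]⟩) .k .k) (.R ⟨1,false,false,true,[-1,0,1,0,1],[0,0,0,0,1],[0,2,0,0,0,0,0,1],(⟨0,
  [(15,0)]⟩,⟨0,[(39,0),(6,0)]⟩),(⟨0,[(40,0)]⟩,⟨0,[(39,0)]⟩),⟨0,[(2,0)]⟩,.k,.k,(.r 0 ⟨1,[(22,0),(0,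
  0),(4,0),(5,0)]⟩ ⟨1,[(24,1),(12,0),(0,0),(17,1),(1,0)]⟩),.k,.k,.k,⟨true,0,⟨0,[(28,0),(4,0)]⟩,⟨0,
  [(24,0)]⟩⟩,⟨false,0,⟨0,[(41,0)]⟩,⟨2,[(21,0),(15,0),(0,0),(5,0),(8,0)]⟩⟩,⟨true,0,⟨0,[(60,0)]⟩,⟨0,
  []⟩⟩,⟨false,0,⟨9,[(4,0),(1,4),(11,0),(5,2),(6,0),(6,3),(17,0)]⟩,⟨1,[(28,1),(24,0),(4,0)]⟩⟩,⟨false,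
  0,⟨0,[(56,0)]⟩,⟨0,[(55,0),(2,0)]⟩⟩,⟨false,0,⟨9,[(4,0),(1,4),(11,0),(5,2),(6,0),(6,3),(17,10)]⟩,⟨1,
  [(16,0),(11,0),(24,0),(4,0)]⟩⟩,[.o ⟨false,(-1),⟨0,[(0,0)]⟩,⟨0,[(37,0),(20,0)]⟩⟩,.e ⟨false,0,⟨1,
  [(0,0),(12,0),(14,1),(5,0)]⟩,⟨11,[(4,0),(1,1),(14,3),(2,4),(13,1),(4,3),(14,6)]⟩⟩ ⟨false,0,⟨5,[(9,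
  0),(24,0),(3,0),(2,2),(10,2)]⟩,⟨1,[(1,0),(11,0),(30,0),(13,0)]⟩⟩,.a ⟨true,0,⟨3,[(1,0),(3,1),(32,
  0),(5,0)]⟩,⟨0,[(9,0)]⟩⟩ ⟨false,0,⟨0,[(33,0),(8,0)]⟩,⟨1,[(4,0),(19,0),(33,0)]⟩⟩ ⟨true,(-1),⟨0,[(0,
  0),(8,0)]⟩,⟨1,[(1,0),(11,0),(30,0),(13,0)]⟩⟩,.o ⟨false,0,⟨0,[(1,0)]⟩,⟨5,[(9,1),(3,0),(20,1),(2,2),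
  (19,1)]⟩⟩]⟩) (.Q [0,0,0,0,0,0,-1,-1,-1,2,-1,-1] (.p false [-1,0,1,0,1] [1] (⟨0,[(15,0)]⟩,⟨0,[(39,
  0),(6,0)]⟩) .k 1 (⟨0,[]⟩,⟨0,[]⟩) .k (.r 0 ⟨0,[(33,0),(8,0)]⟩ ⟨11,[(4,0),(1,1),(14,3),(2,4),(13,1),
  (4,3),(14,6)]⟩)) (.S ⟨1,0,[0,1,0,0,0,0,0,1],[-1,0,1,0,1],[1,2,0,-1,0,0,0,1],(⟨0,[(16,0)]⟩,⟨0,[(40,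
  0),(6,0)]⟩),⟨0,[(3,0)]⟩,.k,(.r 0 ⟨1,[(23,0),(0,0),(4,0),(5,0)]⟩ ⟨1,[(25,1),(12,0),(0,0),(17,1),(1,
  0)]⟩),⟨true,0,⟨0,[(56,0)]⟩,⟨0,[(57,0)]⟩⟩,⟨false,1,⟨1,[(38,0),(0,0),(19,0)]⟩,⟨0,[]⟩⟩,⟨false,0,⟨0,
  []⟩,⟨1,[(38,0),(0,0),(19,0)]⟩⟩,⟨true,0,⟨0,[(57,0)]⟩,⟨0,[(56,0)]⟩⟩,[.o ⟨false,0,⟨0,[(29,0),(2,0),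
  (21,0)]⟩,⟨3,[(5,0),(1,1),(17,0),(12,1),(20,0)]⟩⟩,.a ⟨true,0,⟨4,[(2,1),(12,1),(13,4),(5,0),(3,0)]⟩,
  ⟨0,[(0,0)]⟩⟩ ⟨false,0,⟨1,[(23,0),(0,0),(4,0),(5,0)]⟩,⟨13,[(0,1),(4,0),(16,3),(2,4),(13,1),(4,5),
  (12,13),(1,8)]⟩⟩ ⟨true,0,⟨0,[(29,0),(4,0)]⟩,⟨0,[(25,0)]⟩⟩,.e ⟨false,0,⟨1,[(8,0),(26,0),(7,0)]⟩,⟨1,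
  [(5,0),(19,0),(31,1),(1,0)]⟩⟩ ⟨false,0,⟨0,[(29,0),(4,0)]⟩,⟨13,[(0,1),(4,0),(16,3),(2,4),(13,1),(4,
  5),(14,8)]⟩⟩,.o ⟨false,0,⟨0,[(2,0)]⟩,⟨5,[(10,1),(3,0),(20,1),(2,2),(19,1)]⟩⟩]⟩) (.Q [0,2,0,1,-1,0,
  0,0,1,-1,0,1] (.p true [0,0,0,0,1] [1] (⟨0,[(41,0)]⟩,⟨0,[(40,0)]⟩) .k 1 (⟨0,[]⟩,⟨0,[]⟩) .k .k)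
  (.R ⟨1,false,false,true,[0,0,1],[-1,0,1,0,1],[0,2,1,0,0,0,0,1],(⟨0,[(49,0)]⟩,⟨0,[(48,0)]⟩),(⟨0,
  [(17,0)]⟩,⟨0,[(41,0),(6,0)]⟩),⟨0,[(38,0)]⟩,.k,.k,.k,.k,(.r (-1) ⟨1,[(27,0),(29,0),(2,0)]⟩ ⟨1,[(46,
  0),(0,0),(10,1),(3,1)]⟩),.k,⟨true,0,⟨1,[(46,0),(0,0)]⟩,⟨0,[]⟩⟩,⟨false,0,⟨0,[(16,0)]⟩,⟨4,[(11,2),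
  (11,0),(15,3),(0,1),(5,0)]⟩⟩,⟨false,0,⟨1,[(46,0),(0,0),(14,1)]⟩,⟨0,[(2,0),(13,0)]⟩⟩,⟨false,0,⟨2,
  [(0,0),(39,1),(14,0),(1,0)]⟩,⟨0,[(2,0)]⟩⟩,⟨false,0,⟨1,[(46,0),(0,0),(10,1),(3,1)]⟩,⟨0,[(13,0)]⟩⟩,
  ⟨true,(-1),⟨0,[(0,0)]⟩,⟨0,[(2,0),(54,0)]⟩⟩,[.a ⟨true,(-1),⟨1,[(0,1),(17,0),(11,0)]⟩,⟨2,[(2,1),(3,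
  0),(1,1),(31,0),(5,0)]⟩⟩ ⟨false,0,⟨5,[(0,0),(23,0),(11,1),(2,0),(4,4),(2,1),(6,1)]⟩,⟨0,[(6,0)]⟩⟩
  ⟨true,(-1),⟨1,[(0,1),(17,0),(11,0),(4,1)]⟩,⟨0,[(2,0),(23,0)]⟩⟩,.o ⟨false,0,⟨6,[(0,1),(0,3),(32,1),
  (5,0),(3,0),(10,1)]⟩,⟨3,[(6,0),(1,1),(17,0),(12,1),(20,0)]⟩⟩,.o ⟨false,1,⟨2,[(23,0),(15,0),(0,0),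
  (5,0),(8,0)]⟩,⟨0,[(35,0)]⟩⟩,.e ⟨false,0,⟨5,[(0,0),(14,0),(8,0),(5,1),(5,1),(7,2),(2,1)]⟩,⟨1,[(6,
  0),(19,0),(33,0)]⟩⟩ ⟨false,0,⟨8,[(0,1),(0,5),(23,1),(10,3),(3,0),(2,0),(0,2),(14,1)]⟩,⟨0,[(2,0),
  (23,0)]⟩⟩]⟩) (.Q [0,0,1,0,0,0,2,0,1,-2,2,1] (.p true [0,0,1] [2,0,-1,0,-1] (⟨0,[(49,0)]⟩,⟨0,[(48,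
  0)]⟩) .k 2 (⟨0,[(41,0),(6,0)]⟩,⟨0,[(17,0)]⟩) .k (.r 0 ⟨0,[(30,0),(4,1),(8,0)]⟩ ⟨11,[(6,6),(1,1),
  (14,3),(2,10),(13,1),(4,3),(14,0)]⟩)) (.R ⟨1,false,false,true,[0,0,1],[2,0,-1,0,-1],[0,1,0,0,0,0,
  0,1],(⟨0,[(50,0)]⟩,⟨0,[(49,0)]⟩),(⟨0,[(42,0),(6,0)]⟩,⟨0,[(18,0)]⟩),⟨0,[(39,0)]⟩,.k,.k,.k,.k,(.r 0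
  ⟨1,[(25,0),(0,0),(4,2),(4,1),(0,0)]⟩ ⟨11,[(7,0),(1,1),(14,3),(2,16),(13,1),(4,3),(12,11),(1,6)]⟩),
  .k,⟨false,0,⟨2,[(16,0),(14,5),(2,0),(1,5),(18,0)]⟩,⟨11,[(7,6),(1,1),(14,3),(2,10),(13,1),(4,3),
  (14,0)]⟩⟩,⟨true,0,⟨0,[(12,0),(23,0)]⟩,⟨0,[(0,0)]⟩⟩,⟨true,0,⟨0,[(63,0)]⟩,⟨0,[]⟩⟩,⟨false,1,⟨11,[(7,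
  0),(1,13),(14,3),(2,4),(13,1),(4,3),(14,6)]⟩,⟨0,[(2,0),(28,0)]⟩⟩,⟨false,0,⟨0,[(59,0)]⟩,⟨0,[(58,0),
  (2,0)]⟩⟩,⟨false,1,⟨11,[(7,0),(1,13),(14,3),(2,4),(13,1),(4,3),(12,11),(1,6)]⟩,⟨1,[(2,1),(16,0),
  (11,0)]⟩⟩,[.o ⟨false,1,⟨9,[(9,5),(14,1),(2,1),(12,6),(0,2),(4,1),(14,0)]⟩,⟨0,[(2,0)]⟩⟩,.o ⟨false,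
  1,⟨3,[(7,0),(1,1),(17,0),(12,1),(20,0)]⟩,⟨4,[(2,3),(1,0),(40,0),(2,0),(6,1)]⟩⟩,.o ⟨false,1,⟨2,
  [(24,0),(15,0),(0,0),(5,0),(8,0)]⟩,⟨0,[(36,0)]⟩⟩,.a ⟨true,0,⟨0,[(47,0)]⟩,⟨0,[(44,0)]⟩⟩ ⟨true,0,⟨2,
  [(16,0),(14,2),(2,0),(1,2),(18,0)]⟩,⟨0,[(27,0)]⟩⟩ ⟨false,1,⟨1,[(9,1),(50,0),(0,0)]⟩,⟨0,[(4,0),(26,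
  0)]⟩⟩]⟩) (.R ⟨1,false,false,true,[-1,0,1,0,1],[1,1,-1],[0,2,0,0,0,0,0,1],(⟨0,[(18,0)]⟩,⟨0,[(42,0),
  (6,0)]⟩),(⟨0,[(49,0),(1,0)]⟩,⟨0,[(39,0)]⟩),⟨0,[(5,0)]⟩,.k,.k,(.r 0 ⟨5,[(0,1),(1,1),(7,0),(15,1),
  (8,1),(1,0),(7,0)]⟩ ⟨1,[(27,1),(12,0),(0,0),(17,1),(1,0)]⟩),(.r 0 ⟨0,[(0,0),(1,0),(32,0)]⟩ ⟨11,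
  [(7,0),(1,1),(14,3),(2,16),(13,1),(4,3),(12,11),(1,6)]⟩),(.r 0 ⟨1,[(0,1),(1,1),(16,0),(6,0),(8,
  0)]⟩ ⟨1,[(27,3),(12,0),(0,0),(17,3),(1,0)]⟩),.k,⟨false,0,⟨1,[(0,1),(1,1),(23,0),(4,0),(3,0)]⟩,⟨11,
  [(7,0),(1,1),(14,3),(2,16),(13,1),(4,3),(12,11),(1,6)]⟩⟩,⟨true,0,⟨0,[(0,0)]⟩,⟨0,[(4,0),(42,0)]⟩⟩,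
  ⟨true,0,⟨0,[(63,0)]⟩,⟨0,[]⟩⟩,⟨false,1,⟨11,[(7,0),(1,13),(14,3),(2,4),(13,1),(4,3),(12,11),(1,6)]⟩,
  ⟨1,[(2,1),(16,0),(11,0)]⟩⟩,⟨false,0,⟨0,[(59,0)]⟩,⟨0,[(58,0),(2,0)]⟩⟩,⟨false,1,⟨11,[(7,0),(1,13),
  (14,3),(2,4),(13,1),(4,3),(12,23),(1,6)]⟩,⟨0,[(2,0),(16,0)]⟩⟩,[.o ⟨false,0,⟨0,[(46,0),(12,0)]⟩,⟨1,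
  [(19,0),(11,0),(24,0),(4,0)]⟩⟩,.a ⟨true,0,⟨9,[(7,0),(1,4),(11,0),(5,2),(6,0),(6,3),(17,10)]⟩,⟨0,
  [(30,0)]⟩⟩ ⟨false,0,⟨1,[(0,0),(1,0),(28,0),(23,0)]⟩,⟨11,[(7,0),(1,1),(14,3),(2,4),(13,1),(4,3),
  (14,6)]⟩⟩ ⟨true,0,⟨0,[(9,0),(49,0)]⟩,⟨1,[(4,1),(14,0),(11,0)]⟩⟩,.e ⟨false,0,⟨6,[(0,1),(1,1),(42,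
  4),(2,2),(6,0)]⟩,⟨1,[(7,0),(19,0),(33,0)]⟩⟩ ⟨false,0,⟨0,[(9,0),(49,0)]⟩,⟨11,[(2,4),(1,3),(14,4),
  (4,3),(10,1),(5,2),(14,0),(4,6)]⟩⟩,.o ⟨false,0,⟨0,[(4,0)]⟩,⟨4,[(0,0),(11,0),(24,0),(2,2),(19,
  1)]⟩⟩]⟩))))))))) (.S ⟨1,0,[0,-1,0,0,0,0,0,-1],[2,0,-1,0,-1],[1,0,0,-1,0,0,0,-1],(⟨0,[(34,0),(6,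
  0)]⟩,⟨0,[(10,0)]⟩),⟨0,[(30,0),(3,0)]⟩,.k,(.r (-1) ⟨0,[(19,0),(0,0)]⟩ ⟨0,[(37,0),(2,0),(10,0)]⟩),
  ⟨true,0,⟨0,[(50,0)]⟩,⟨0,[(51,0)]⟩⟩,⟨false,1,⟨1,[(32,0),(0,0),(19,0)]⟩,⟨0,[]⟩⟩,⟨false,0,⟨0,[]⟩,⟨1,
  [(32,0),(0,0),(19,0)]⟩⟩,⟨true,0,⟨0,[(51,0)]⟩,⟨0,[(50,0)]⟩⟩,[.o ⟨false,1,⟨3,[(1,1),(6,0),(10,1),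
  (12,0),(20,1)]⟩,⟨0,[(23,0),(2,0),(21,0)]⟩⟩,.a ⟨true,1,⟨0,[(1,0),(4,0),(32,0),(11,0)]⟩,⟨0,[(17,0),
  (8,0),(24,0)]⟩⟩ ⟨false,1,⟨0,[(19,0),(0,0)]⟩,⟨0,[(28,0),(8,0),(13,0)]⟩⟩ ⟨true,1,⟨0,[(6,0),(12,0),
  (31,0)]⟩,⟨0,[(0,0),(16,0),(8,0),(24,0)]⟩⟩,.e ⟨false,1,⟨1,[(19,1),(0,0),(29,0),(2,0)]⟩,⟨0,[(23,0),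
  (4,0),(22,0)]⟩⟩ ⟨false,1,⟨0,[(6,0),(12,0),(31,0)]⟩,⟨0,[(28,0),(8,0)]⟩⟩,.o ⟨false,0,⟨0,[(0,0)]⟩,⟨1,
  [(9,0),(6,0),(16,0),(14,0)]⟩⟩]⟩)))))) (.Q [0,-1,0,-1,1,0,0,0,-1,1,0,-1] (.p false [0,0,0,0,1] [1]
  (⟨0,[(30,0)]⟩,⟨0,[(29,0)]⟩) .k 1 (⟨0,[]⟩,⟨0,[]⟩) .k .k) (.R ⟨1,false,false,false,[1,0,1,0,-1],[1,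
  0,0,0,-1],[0,0,0,0,0,0,0,1],(⟨0,[(30,0),(7,0)]⟩,⟨0,[(1,0)]⟩),(⟨0,[(30,0)]⟩,⟨0,[(31,0)]⟩),⟨0,[(27,
  0),(2,0)]⟩,.k,.k,(.r (-1) ⟨3,[(7,0),(8,1),(2,2),(5,1),(18,0),(4,0)]⟩ ⟨0,[(15,0),(31,0),(3,0)]⟩),
  .k,.k,.k,⟨false,0,⟨2,[(4,0),(14,2),(2,0),(1,2),(18,0)]⟩,⟨1,[(15,1),(32,0),(0,0)]⟩⟩,⟨true,0,⟨0,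
  [(24,0)]⟩,⟨0,[(35,0)]⟩⟩,⟨true,0,⟨0,[(51,0)]⟩,⟨0,[]⟩⟩,⟨false,1,⟨0,[(34,0),(14,0)]⟩,⟨0,[(19,0)]⟩⟩,
  ⟨false,0,⟨0,[(47,0)]⟩,⟨7,[(0,3),(1,1),(4,0),(7,0),(13,3),(6,0),(7,1)]⟩⟩,⟨false,1,⟨0,[(34,0),(12,
  0),(1,0)]⟩,⟨0,[(18,0)]⟩⟩,[.a ⟨true,1,⟨0,[(0,0),(46,0)]⟩,⟨0,[(22,0)]⟩⟩ ⟨true,0,⟨0,[(19,0),(4,0)]⟩,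
  ⟨0,[(15,0)]⟩⟩ ⟨false,1,⟨1,[(17,0),(7,0),(23,0)]⟩,⟨3,[(9,0),(23,0),(1,2),(7,0),(3,0)]⟩⟩,.e ⟨false,
  1,⟨1,[(17,0),(1,1),(5,0),(23,0)]⟩,⟨4,[(9,0),(5,3),(27,1),(3,0)]⟩⟩ ⟨false,1,⟨0,[(2,0),(21,0),(22,
  0)]⟩,⟨0,[(35,0),(7,0)]⟩⟩,.o ⟨false,1,⟨1,[(4,0),(23,0),(6,1)]⟩,⟨0,[(5,0),(30,0)]⟩⟩,.o ⟨false,1,⟨0,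
  [(28,0),(6,0)]⟩,⟨0,[(5,0),(18,0)]⟩⟩]⟩) (.Q [0,0,0,0,0,1,0,0,0,1,-1,-1] (.p false [-1,0,1,0,1] []
  (⟨0,[(6,0)]⟩,⟨0,[(30,0),(6,0)]⟩) .k 0 (⟨0,[]⟩,⟨0,[]⟩) .k (.r 0 ⟨0,[(24,0),(8,0)]⟩ ⟨1,[(15,1),(32,
  0),(0,0)]⟩)) (.R ⟨0,false,false,true,[-1,0,1,0,1],[0,-1,1],[1,1],(⟨0,[(7,0)]⟩,⟨0,[(0,0),(41,0)]⟩),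
  (⟨0,[(28,0)]⟩,⟨0,[(0,0),(31,0)]⟩),⟨0,[(0,0)]⟩,.k,.k,(.r 0 ⟨1,[(14,0),(0,0),(4,0),(5,0)]⟩ ⟨1,[(16,
  1),(12,0),(0,0),(17,1),(1,0)]⟩),(.r 0 ⟨1,[(36,0),(0,0),(10,1),(3,1)]⟩ ⟨1,[(17,0),(29,0),(2,0)]⟩),
  .k,.k,⟨true,0,⟨0,[(16,0),(31,0)]⟩,⟨1,[(8,0),(11,0),(4,1)]⟩⟩,⟨false,1,⟨0,[(29,0),(10,0),(1,0)]⟩,⟨0,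
  [(6,0)]⟩⟩,⟨false,1,⟨1,[(16,1),(32,0),(0,0)]⟩,⟨0,[(20,0),(4,0)]⟩⟩,⟨true,1,⟨1,[(8,0),(7,0),(12,1),
  (3,0),(6,0),(1,0)]⟩,⟨0,[(1,0)]⟩⟩,⟨false,0,⟨0,[]⟩,⟨0,[]⟩⟩,⟨false,0,⟨0,[]⟩,⟨0,[]⟩⟩,[.o ⟨false,0,⟨0,
  [(14,0)]⟩,⟨0,[(35,0),(12,0),(1,0)]⟩⟩,.a ⟨true,0,⟨0,[(19,0)]⟩,⟨0,[(16,0),(16,0),(14,0)]⟩⟩ ⟨true,0,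
  ⟨0,[]⟩,⟨1,[(36,0),(0,0)]⟩⟩ ⟨false,1,⟨1,[(8,0),(11,0),(8,1),(3,1)]⟩,⟨0,[(6,0),(9,0),(31,0)]⟩⟩,.o
  ⟨false,0,⟨7,[(1,8),(1,5),(1,0),(8,2),(1,2),(19,4),(8,1)]⟩,⟨1,[(26,0),(2,1),(10,0),(1,0)]⟩⟩,.o
  ⟨false,0,⟨1,[(1,1),(6,0),(7,0),(19,0),(8,0),(4,0)]⟩,⟨0,[(29,0),(3,0)]⟩⟩]⟩) (.Q [0,-1,0,0,1,0,-1,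
  -1,-1,2,-1,-1] (.p false [-1,0,1,0,1] [1] (⟨0,[(7,0)]⟩,⟨0,[(31,0),(6,0)]⟩) .k 1 (⟨0,[]⟩,⟨0,[]⟩)
  .k (.r 0 ⟨0,[(25,0),(8,0)]⟩ ⟨1,[(16,1),(32,0),(0,0)]⟩)) (.S ⟨1,0,[0,2,0,0,0,0,0,1],[-1,0,1,0,1],
  [1,1,0,-1,0,0,0,1],(⟨0,[(8,0)]⟩,⟨0,[(32,0),(6,0)]⟩),⟨0,[(1,0)]⟩,.k,(.r 0 ⟨1,[(15,0),(0,0),(4,0),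
  (5,0)]⟩ ⟨2,[(0,0),(16,1),(13,0),(5,0),(8,0),(2,2),(1,0)]⟩),⟨false,1,⟨0,[(48,0),(2,0)]⟩,⟨0,[(49,
  0)]⟩⟩,⟨true,0,⟨0,[(53,0)]⟩,⟨0,[]⟩⟩,⟨true,0,⟨0,[]⟩,⟨0,[(53,0)]⟩⟩,⟨false,0,⟨0,[(49,0)]⟩,⟨0,[(48,0),
  (2,0)]⟩⟩,[.o ⟨false,(-1),⟨0,[(2,0),(12,0)]⟩,⟨1,[(0,1),(45,0),(4,0)]⟩⟩,.a ⟨true,(-1),⟨1,[(2,1),(6,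
  0),(11,0)]⟩,⟨0,[(0,0)]⟩⟩ ⟨true,0,⟨1,[(9,0),(11,0),(4,1)]⟩,⟨0,[(17,0),(31,0)]⟩⟩ ⟨false,0,⟨5,[(2,1),
  (3,1),(8,0),(0,0),(4,2),(5,2),(7,1)]⟩,⟨3,[(0,0),(6,0),(6,0),(2,1),(18,0),(14,1)]⟩⟩,.o ⟨false,0,⟨7,
  [(2,8),(1,5),(1,0),(8,2),(1,2),(19,4),(8,1)]⟩,⟨3,[(0,0),(26,1),(2,2),(4,0)]⟩⟩,.o ⟨false,0,⟨1,[(2,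
  1),(6,0),(7,0),(19,0),(8,0),(4,0)]⟩,⟨3,[(0,0),(5,1),(20,1),(2,0),(4,0)]⟩⟩]⟩) (.R ⟨1,false,false,
  true,[0,0,1],[1,0,0,0,-1],[1,0,0,-1,0,0,0,1],(⟨0,[(40,0)]⟩,⟨0,[(39,0)]⟩),(⟨0,[(32,0)]⟩,⟨0,[(33,
  0)]⟩),⟨0,[(29,0)]⟩,.k,.k,.k,.k,(.r 0 ⟨1,[(15,0),(0,0),(4,0),(5,0)]⟩ ⟨1,[(17,1),(12,0),(0,0),(17,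
  1),(1,0)]⟩),.k,⟨true,0,⟨1,[(9,0),(11,0),(4,1)]⟩,⟨0,[(17,0),(31,0)]⟩⟩,⟨false,1,⟨0,[(30,0),(3,0)]⟩,
  ⟨2,[(0,0),(13,0),(2,0),(6,0),(6,0),(19,0)]⟩⟩,⟨false,1,⟨0,[(48,0),(2,0)]⟩,⟨0,[(49,0)]⟩⟩,⟨true,1,⟨0,
  [(17,0),(12,0),(3,0)]⟩,⟨1,[(0,0),(20,0),(2,0)]⟩⟩,⟨true,0,⟨0,[]⟩,⟨0,[(53,0)]⟩⟩,⟨true,1,⟨0,[(17,0),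
  (12,0),(3,0),(14,0)]⟩,⟨1,[(0,0),(8,0),(14,0)]⟩⟩,[.o ⟨false,1,⟨0,[(30,0)]⟩,⟨9,[(0,1),(6,3),(9,1),
  (13,3),(6,1),(7,0),(4,0)]⟩⟩,.o ⟨false,2,⟨1,[(30,2),(0,0),(19,0)]⟩,⟨0,[(0,0),(16,0),(16,0)]⟩⟩,.o
  ⟨false,1,⟨2,[(14,0),(15,0),(0,0),(5,0),(8,0)]⟩,⟨0,[(26,0)]⟩⟩,.a ⟨true,0,⟨0,[(37,0)]⟩,⟨0,[(34,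
  0)]⟩⟩ ⟨false,1,⟨3,[(9,0),(8,1),(2,2),(5,1),(18,0),(4,0)]⟩,⟨0,[(17,0),(31,0)]⟩⟩ ⟨true,1,⟨0,[(30,0),
  (3,0)]⟩,⟨1,[(0,0),(16,0),(6,0),(12,0)]⟩⟩]⟩)))))))) (.Q [0,0,0,0,0,1,0,0,0,-1,0,1] (.ed false [0,1,
  0,0,1] .k) (.R ⟨0,false,false,true,[1,0,0,0,-1],[2,-1,0,0,-1],[0,0,0,-1],(⟨0,[(26,0)]⟩,⟨0,[(27,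
  0)]⟩),(⟨0,[(26,0),(10,0)]⟩,⟨0,[(0,0)]⟩),⟨0,[(0,0)]⟩,.k,(.r (-1) ⟨1,[(12,0),(29,0),(2,0)]⟩ ⟨1,[(31,
  0),(0,0),(10,1),(3,1)]⟩),(.r (-1) ⟨1,[(12,0),(29,0),(2,0)]⟩ ⟨1,[(31,0),(0,0),(10,1),(3,1)]⟩),.k,
  .k,.k,⟨true,0,⟨1,[(31,0),(0,0)]⟩,⟨0,[]⟩⟩,⟨false,0,⟨0,[(35,0),(1,0)]⟩,⟨1,[(40,0),(3,0)]⟩⟩,⟨true,0,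
  ⟨0,[(42,0)]⟩,⟨0,[(43,0)]⟩⟩,⟨false,0,⟨1,[(3,0),(7,0),(16,0),(6,0),(1,0)]⟩,⟨1,[(40,0),(2,1),(1,
  0)]⟩⟩,⟨false,0,⟨0,[]⟩,⟨0,[]⟩⟩,⟨false,0,⟨0,[]⟩,⟨0,[]⟩⟩,[.e ⟨false,1,⟨1,[(12,0),(11,0),(0,0),(16,
  0)]⟩,⟨0,[(43,0)]⟩⟩ ⟨false,0,⟨0,[(1,0),(10,0),(5,0)]⟩,⟨1,[(24,0),(0,0),(14,0),(2,1)]⟩⟩,.o ⟨false,1,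
  ⟨1,[(1,1),(10,0),(29,0),(2,0)]⟩,⟨0,[(18,0),(21,0),(2,0)]⟩⟩,.o ⟨false,1,⟨0,[(24,0)]⟩,⟨1,[(18,1),
  (21,0),(4,0)]⟩⟩,.a ⟨true,0,⟨0,[(1,0)]⟩,⟨1,[(12,0),(5,0),(6,0),(17,0)]⟩⟩ ⟨false,1,⟨1,[(12,0),(29,
  0),(2,0)]⟩,⟨1,[(31,0),(0,0),(10,1)]⟩⟩ ⟨true,0,⟨0,[(1,0),(10,0),(5,0)]⟩,⟨0,[(1,0),(16,0),(21,0),(2,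
  0)]⟩⟩]⟩) (.R ⟨1,false,false,true,[1,0,0,0,-1],[2,0,-1,0,-1],[],(⟨0,[(26,0)]⟩,⟨0,[(27,0)]⟩),(⟨0,
  [(26,0),(6,0)]⟩,⟨0,[(2,0)]⟩),⟨0,[(0,0)]⟩,.k,.k,(.r (-1) ⟨1,[(12,0),(29,0),(2,0)]⟩ ⟨1,[(31,0),(0,
  0),(10,1),(3,1)]⟩),.k,.k,.k,⟨true,0,⟨0,[(15,0),(4,0)]⟩,⟨0,[(11,0)]⟩⟩,⟨false,0,⟨0,[(28,0)]⟩,⟨2,[(8,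
  0),(15,0),(0,0),(5,0),(8,0)]⟩⟩,⟨true,0,⟨0,[(47,0)]⟩,⟨0,[]⟩⟩,⟨false,0,⟨0,[(11,0),(16,0)]⟩,⟨1,[(15,
  1),(24,0),(4,0)]⟩⟩,⟨false,0,⟨0,[(43,0)]⟩,⟨0,[(42,0),(2,0)]⟩⟩,⟨false,0,⟨0,[(11,0),(16,0),(14,0)]⟩,
  ⟨1,[(3,0),(11,0),(24,0),(4,0)]⟩⟩,[.e ⟨false,1,⟨1,[(24,0),(0,0),(18,0)]⟩,⟨0,[]⟩⟩ ⟨false,0,⟨0,[(1,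
  0),(3,0),(12,0),(1,0),(22,0),(1,0)]⟩,⟨1,[(29,1),(10,0),(4,0)]⟩⟩,.o ⟨false,1,⟨1,[(1,1),(3,0),(14,
  0),(9,0),(12,0),(1,1)]⟩,⟨0,[(15,0),(2,0),(21,0)]⟩⟩,.o ⟨false,1,⟨0,[(24,0)]⟩,⟨1,[(18,1),(21,0),(4,
  0)]⟩⟩,.a ⟨true,0,⟨0,[(1,0)]⟩,⟨1,[(12,0),(5,0),(6,0),(17,0)]⟩⟩ ⟨false,1,⟨1,[(44,0),(0,0)]⟩,⟨1,[(31,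
  0),(0,0)]⟩⟩ ⟨true,0,⟨0,[(1,0),(3,0),(12,0),(1,0),(22,0),(1,0)]⟩,⟨1,[(9,1),(21,0),(0,0),(10,
  1)]⟩⟩]⟩))) (.Q [0,0,2,0,-1,0,0,0,1,0,0,1] (.p true [0,0,0,0,1] [] (⟨0,[(25,0)]⟩,⟨0,[(24,0)]⟩) .k
  0 (⟨0,[]⟩,⟨0,[]⟩) .k .k) (.Q [0,0,0,-1,0,0,-1,-1,0,1,-1] (.p false [0,0,1] [1] (⟨0,[(33,0)]⟩,⟨0,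
  [(32,0)]⟩) .k 1 (⟨0,[]⟩,⟨0,[]⟩) .k .k) (.R ⟨1,false,false,true,[0,0,1,0,1],[0,1,1],[0,1,0,0,0,0,0,
  1],(⟨0,[(27,0),(6,0)]⟩,⟨0,[(2,0)]⟩),(⟨0,[(34,0),(0,0)]⟩,⟨0,[(22,0)]⟩),⟨0,[(23,0),(3,0)]⟩,.k,.k,
  (.r 0 ⟨1,[(9,0),(0,0),(4,0),(5,0)]⟩ ⟨1,[(11,1),(12,0),(0,0),(17,1),(1,0)]⟩),(.r 0 ⟨0,[(41,0)]⟩ ⟨1,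
  [(24,0),(0,0),(5,0),(0,0),(10,1),(1,0)]⟩),(.r 0 ⟨1,[(3,0),(1,0),(4,0),(9,0)]⟩ ⟨1,[(24,0),(0,0),(5,
  1),(0,1),(10,3),(1,0)]⟩),.k,⟨false,1,⟨1,[(12,0),(29,0),(1,0)]⟩,⟨1,[(31,0),(0,0),(10,1)]⟩⟩,⟨true,1,
  ⟨0,[(16,0)]⟩,⟨0,[(1,0)]⟩⟩,⟨false,1,⟨1,[(24,0),(0,0),(19,0)]⟩,⟨0,[]⟩⟩,⟨true,1,⟨0,[(24,0),(18,0)]⟩,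
  ⟨2,[(1,0),(1,0),(1,0),(12,1),(1,0)]⟩⟩,⟨true,0,⟨0,[(43,0)]⟩,⟨0,[(42,0)]⟩⟩,⟨true,1,⟨0,[(24,0),(18,
  1)]⟩,⟨2,[(1,1),(1,1),(1,1),(12,0),(1,1)]⟩⟩,[.o ⟨false,0,⟨0,[(9,0),(33,1)]⟩,⟨1,[(0,1),(39,0),(4,
  0)]⟩⟩,.a ⟨true,0,⟨0,[(15,0),(27,0)]⟩,⟨0,[(0,0)]⟩⟩ ⟨true,0,⟨0,[(15,0),(4,0)]⟩,⟨0,[(11,0)]⟩⟩ ⟨false,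
  1,⟨0,[(15,0),(0,0),(3,0),(22,0)]⟩,⟨11,[(0,3),(0,6),(3,3),(2,1),(2,3),(0,3),(12,4),(14,0)]⟩⟩,.o
  ⟨false,0,⟨0,[(1,0),(4,0)]⟩,⟨0,[(16,0),(15,0)]⟩⟩,.o ⟨false,0,⟨3,[(1,2),(6,1),(16,0),(14,0)]⟩,⟨0,
  [(16,0),(3,0)]⟩⟩]⟩) (.R ⟨1,false,false,true,[0,0,1],[1,0,0,0,-1],[0,0,0,0,0,0,0,1],(⟨0,[(34,0)]⟩,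
  ⟨0,[(33,0)]⟩),(⟨0,[(26,0)]⟩,⟨0,[(27,0)]⟩),⟨0,[(23,0)]⟩,.k,.k,.k,.k,(.r 0 ⟨1,[(9,0),(0,0),(4,0),(5,
  0)]⟩ ⟨1,[(11,1),(12,0),(0,0),(17,1),(1,0)]⟩),.k,⟨true,0,⟨3,[(0,1),(2,0),(11,0),(5,1)]⟩,⟨0,[(11,
  0)]⟩⟩,⟨false,1,⟨0,[(24,0),(3,0)]⟩,⟨0,[(1,0),(4,0)]⟩⟩,⟨false,1,⟨1,[(24,0),(0,0),(19,0)]⟩,⟨0,[]⟩⟩,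
  ⟨true,1,⟨0,[(11,0),(12,0),(3,0)]⟩,⟨2,[(0,2),(0,0),(1,0),(1,0),(12,1),(1,0)]⟩⟩,⟨true,0,⟨0,[(43,
  0)]⟩,⟨0,[(42,0)]⟩⟩,⟨true,1,⟨0,[(11,0),(12,0),(3,0),(14,0)]⟩,⟨2,[(0,2),(0,1),(1,1),(1,1),(12,0),(1,
  1)]⟩⟩,[.o ⟨false,1,⟨0,[(24,0)]⟩,⟨1,[(18,1),(21,0),(4,0)]⟩⟩,.o ⟨false,2,⟨1,[(24,2),(0,0),(19,0)]⟩,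
  ⟨0,[(0,0),(0,0),(3,0),(14,0)]⟩⟩,.o ⟨false,1,⟨2,[(8,0),(15,0),(0,0),(5,0),(8,0)]⟩,⟨0,[(20,0)]⟩⟩,.a
  ⟨true,0,⟨0,[(31,0)]⟩,⟨0,[(28,0)]⟩⟩ ⟨false,1,⟨1,[(13,0),(1,1),(5,0),(23,0)]⟩,⟨0,[(11,0)]⟩⟩ ⟨true,1,
  ⟨0,[(24,0),(3,0)]⟩,⟨3,[(0,2),(0,2),(3,1),(3,0),(1,1),(6,0)]⟩⟩]⟩)) (.Q [0,0,1,0,0,0,0,0,-1,1,0,-1]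
  (.p false [0,0,0,0,1] [1] (⟨0,[(26,0)]⟩,⟨0,[(25,0)]⟩) .k 1 (⟨0,[]⟩,⟨0,[]⟩) .k .k) (.R ⟨1,false,
  false,false,[1,0,0,0,-1],[1,0,-1,0,-1],[],(⟨0,[(26,0)]⟩,⟨0,[(27,0)]⟩),(⟨0,[(2,0)]⟩,⟨0,[(27,0),(6,
  0)]⟩),⟨0,[(2,0),(20,0)]⟩,.k,.k,(.r (-1) ⟨1,[(12,0),(29,0),(2,0)]⟩ ⟨1,[(31,0),(0,0),(10,1),(3,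
  1)]⟩),.k,.k,.k,⟨false,0,⟨2,[(10,0),(4,2),(4,2),(18,0),(3,0)]⟩,⟨1,[(11,1),(32,0),(0,0)]⟩⟩,⟨true,0,
  ⟨0,[(20,0)]⟩,⟨0,[(31,0)]⟩⟩,⟨true,0,⟨0,[(47,0)]⟩,⟨0,[]⟩⟩,⟨false,1,⟨0,[(30,0),(14,0)]⟩,⟨0,[(15,
  0)]⟩⟩,⟨false,0,⟨0,[(43,0)]⟩,⟨0,[(42,0),(2,0)]⟩⟩,⟨false,1,⟨0,[(30,0),(12,0),(1,0)]⟩,⟨0,[(14,0)]⟩⟩,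
  [.e ⟨false,1,⟨1,[(24,0),(0,0),(18,0)]⟩,⟨0,[]⟩⟩ ⟨false,1,⟨1,[(5,0),(14,0),(9,0),(12,0),(1,1)]⟩,⟨0,
  [(29,0)]⟩⟩,.o ⟨false,2,⟨3,[(0,1),(0,1),(9,1),(8,1),(9,1),(9,0),(4,4)]⟩,⟨0,[(9,0),(8,0),(24,0)]⟩⟩,
  .o ⟨false,1,⟨0,[(24,0)]⟩,⟨1,[(18,1),(21,0),(4,0)]⟩⟩,.a ⟨true,0,⟨0,[(0,0)]⟩,⟨1,[(12,0),(5,0),(6,0),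
  (17,0)]⟩⟩ ⟨false,1,⟨1,[(44,0),(0,0)]⟩,⟨1,[(31,0),(0,0)]⟩⟩ ⟨true,1,⟨1,[(5,0),(14,0),(9,0),(12,0),
  (1,1)]⟩,⟨0,[(0,0),(8,0),(8,0),(24,0)]⟩⟩]⟩) (.Q [0,-1,-2,0,1,0,-1,0,-1,1,-1,-1] (.p false [0,0,1,0,
  1] [1] (⟨0,[(27,0),(6,0)]⟩,⟨0,[(2,0)]⟩) .k 1 (⟨0,[]⟩,⟨0,[]⟩) .k (.r 0 ⟨0,[(20,0),(8,0)]⟩ ⟨1,[(11,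
  1),(32,0),(0,0)]⟩)) (.S ⟨1,0,[0,2,0,0,0,0,0,1],[0,0,1,0,1],[1,1,0,-1,0,0,0,1],(⟨0,[(28,0),(6,0)]⟩,
  ⟨0,[(3,0)]⟩),⟨0,[(24,0),(3,0)]⟩,.k,(.r 0 ⟨1,[(10,0),(0,0),(4,0),(5,0)]⟩ ⟨1,[(12,1),(12,0),(0,0),
  (17,1),(1,0)]⟩),⟨false,1,⟨0,[(43,0),(2,0)]⟩,⟨0,[(44,0)]⟩⟩,⟨true,0,⟨0,[(48,0)]⟩,⟨0,[]⟩⟩,⟨true,0,⟨0,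
  []⟩,⟨0,[(48,0)]⟩⟩,⟨false,0,⟨0,[(44,0)]⟩,⟨0,[(43,0),(2,0)]⟩⟩,[.o ⟨false,(-1),⟨0,[(10,0),(8,0),(24,
  0)]⟩,⟨2,[(0,1),(11,2),(12,0),(7,0),(7,0),(4,1)]⟩⟩,.a ⟨true,(-1),⟨0,[(16,0),(2,0)]⟩,⟨1,[(0,1),(11,
  1),(19,0),(0,0)]⟩⟩ ⟨true,0,⟨1,[(4,0),(11,0),(4,1)]⟩,⟨0,[(12,0),(31,0)]⟩⟩ ⟨false,0,⟨2,[(11,0),(4,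
  2),(4,2),(18,0),(3,0)]⟩,⟨1,[(12,1),(32,0),(0,0)]⟩⟩,.o ⟨false,0,⟨0,[(1,0),(30,0)]⟩,⟨0,[(17,0),(15,
  0)]⟩⟩,.o ⟨false,0,⟨1,[(1,1),(30,2),(0,0)]⟩,⟨0,[(2,0),(30,0)]⟩⟩]⟩) (.Q [0,-1,0,0,1,0,0,0,-1,1,0,
  -1] (.p false [0,0,0,0,1] [1] (⟨0,[(28,0)]⟩,⟨0,[(27,0)]⟩) .k 1 (⟨0,[]⟩,⟨0,[]⟩) .k .k) (.R ⟨1,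
  false,false,true,[0,0,1,0,1],[0,0,0,0,1],[0,1,0,0,0,0,0,1],(⟨0,[(29,0),(6,0)]⟩,⟨0,[(4,0)]⟩),(⟨0,
  [(29,0)]⟩,⟨0,[(28,0)]⟩),⟨0,[(25,0),(3,0)]⟩,.k,.k,(.r 0 ⟨1,[(11,0),(0,0),(4,0),(5,0)]⟩ ⟨3,[(0,1),
  (12,3),(13,1),(14,0),(2,3),(1,0)]⟩),.k,.k,.k,⟨false,1,⟨1,[(15,0),(1,1),(5,0),(23,0)]⟩,⟨4,[(7,0),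
  (5,3),(27,1),(3,0)]⟩⟩,⟨true,0,⟨0,[(22,0)]⟩,⟨0,[(33,0)]⟩⟩,⟨false,1,⟨3,[(0,1),(26,1),(14,0),(4,0)]⟩,
  ⟨0,[]⟩⟩,⟨true,0,⟨0,[(32,0)]⟩,⟨0,[(17,0)]⟩⟩,⟨true,0,⟨0,[(45,0)]⟩,⟨0,[(44,0)]⟩⟩,⟨true,0,⟨0,[(32,0),
  (12,0)]⟩,⟨0,[(16,0)]⟩⟩,[.o ⟨false,(-1),⟨0,[(1,0),(10,0),(9,0),(22,0)]⟩,⟨1,[(0,1),(41,0),(4,0)]⟩⟩,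
  .a ⟨true,(-1),⟨0,[(20,0)]⟩,⟨0,[(0,0)]⟩⟩ ⟨true,0,⟨0,[(17,0),(4,0)]⟩,⟨0,[(13,0)]⟩⟩ ⟨false,0,⟨2,[(12,
  0),(9,2),(18,0),(3,0)]⟩,⟨2,[(0,0),(9,0),(16,0),(5,0),(13,0)]⟩⟩,.o ⟨false,0,⟨2,[(1,0),(0,0),(7,0),
  (9,0),(26,0)]⟩,⟨0,[(18,0),(15,0)]⟩⟩,.o ⟨false,0,⟨9,[(1,5),(8,1),(16,3),(14,0),(4,2)]⟩,⟨0,[(3,0),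
  (30,0)]⟩⟩]⟩) (.R ⟨1,false,false,true,[0,0,1],[1,0,0,0,-1],[0,0,0,0,0,0,0,1],(⟨0,[(36,0)]⟩,⟨0,[(35,
  0)]⟩),(⟨0,[(28,0)]⟩,⟨0,[(29,0)]⟩),⟨0,[(25,0)]⟩,.k,.k,.k,.k,(.r 0 ⟨1,[(11,0),(0,0),(4,0),(5,0)]⟩
  ⟨1,[(13,1),(12,0),(0,0),(17,1),(1,0)]⟩),.k,⟨true,0,⟨0,[(17,0),(4,0)]⟩,⟨0,[(13,0)]⟩⟩,⟨false,1,⟨0,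
  [(26,0),(3,0)]⟩,⟨2,[(1,0),(0,0),(7,0),(9,0),(26,0)]⟩⟩,⟨false,1,⟨1,[(26,0),(0,0),(19,0)]⟩,⟨0,[]⟩⟩,
  ⟨true,1,⟨0,[(13,0),(12,0),(3,0)]⟩,⟨0,[(0,0),(16,0)]⟩⟩,⟨true,0,⟨0,[(45,0)]⟩,⟨0,[(44,0)]⟩⟩,⟨true,1,
  ⟨0,[(13,0),(12,0),(3,0),(14,0)]⟩,⟨1,[(0,1),(4,0),(11,0)]⟩⟩,[.o ⟨false,1,⟨0,[(26,0)]⟩,⟨9,[(1,1),(0,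
  5),(24,1),(6,1),(7,0),(4,0)]⟩⟩,.o ⟨false,2,⟨1,[(26,2),(0,0),(19,0)]⟩,⟨0,[(0,0)]⟩⟩,.o ⟨false,1,⟨2,
  [(10,0),(15,0),(0,0),(5,0),(8,0)]⟩,⟨0,[(22,0)]⟩⟩,.a ⟨true,0,⟨0,[(33,0)]⟩,⟨0,[(30,0)]⟩⟩ ⟨false,1,
  ⟨1,[(15,0),(1,1),(5,0),(23,0)]⟩,⟨0,[(13,0)]⟩⟩ ⟨true,1,⟨0,[(26,0),(3,0)]⟩,⟨0,[(0,0),(32,
  0)]⟩⟩]⟩)))))))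

theorem ok18 : chk K t18 l20 = true := by decide +kernel

noncomputable def t19 : Tre :=
  (.Q [0,0,0,0,0,0,0,0,0,0,-1,1] (.ed false [1,0,-1,0,1] (.r 0 ⟨4,[(1,0),(5,3),(27,1),(3,0)]⟩ ⟨3,
  [(11,1),(5,1),(7,1),(10,0),(4,2)]⟩)) (.Q [0,0,-1,0,0,0,-1,0,1,-1,-1,1] (.p true [0,0,-1,0,1] [1]
  (⟨0,[(0,0)]⟩,⟨0,[(23,0),(7,0)]⟩) .k 1 (⟨0,[]⟩,⟨0,[]⟩) .k (.r 0 ⟨4,[(2,0),(5,3),(27,1),(3,0)]⟩ ⟨3,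
  [(12,1),(5,1),(7,1),(10,0),(4,2)]⟩)) (.Q [0,1,0,1,-1,0,-2,-2,1,0,-2,1] (.p false [0,0,1] [0,0,-1,
  0,1] (⟨0,[(32,0)]⟩,⟨0,[(31,0)]⟩) .k 2 (⟨0,[(1,0)]⟩,⟨0,[(24,0),(7,0)]⟩) .k (.r (-1) ⟨1,[(13,3),(5,
  1),(18,0),(4,0)]⟩ ⟨4,[(3,2),(5,6),(27,0),(3,2)]⟩)) (.R ⟨1,false,false,false,[1,0,1,0,-1],[1,1,-1],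
  [0,0,0,0,0,0,0,1],(⟨0,[(25,0),(7,0)]⟩,⟨0,[(2,0)]⟩),(⟨0,[(32,0),(1,0)]⟩,⟨0,[(22,0)]⟩),⟨0,[(22,0),
  (2,0)]⟩,.k,.k,(.r (-1) ⟨5,[(3,1),(7,1),(1,1),(4,1),(1,1),(18,0),(4,2)]⟩ ⟨0,[(10,0),(31,0),(3,
  0)]⟩),(.r (-1) ⟨3,[(3,3),(9,1),(4,1),(1,1),(18,0),(4,2)]⟩ ⟨4,[(4,0),(5,8),(27,1),(3,5)]⟩),(.r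
  (-1) ⟨0,[(3,0),(7,0),(1,0),(17,0)]⟩ ⟨0,[(10,1),(31,1),(3,0)]⟩),.k,⟨true,0,⟨0,[(3,0),(9,0),(5,0)]⟩,
  ⟨0,[(10,1),(31,0)]⟩⟩,⟨false,0,⟨0,[(1,0),(25,0)]⟩,⟨0,[(15,0),(14,1)]⟩⟩,⟨true,0,⟨0,[(46,0)]⟩,⟨0,
  []⟩⟩,⟨true,(-1),⟨0,[(0,0)]⟩,⟨0,[(13,0),(0,0),(8,0)]⟩⟩,⟨false,0,⟨0,[(42,0)]⟩,⟨0,[(41,0),(2,0)]⟩⟩,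
  ⟨true,(-1),⟨0,[(0,0),(41,0)]⟩,⟨0,[(13,1),(9,0)]⟩⟩,[.a ⟨true,0,⟨0,[(10,0),(16,0),(14,0)]⟩,⟨0,[(13,
  0)]⟩⟩ ⟨true,0,⟨1,[(3,0),(10,0),(16,0)]⟩,⟨0,[(10,0)]⟩⟩ ⟨false,0,⟨7,[(0,3),(0,2),(18,1),(3,0),(2,0),
  (14,3),(0,1),(0,1)]⟩,⟨0,[(13,0),(1,0),(14,0)]⟩⟩,.o ⟨false,1,⟨3,[(0,1),(22,2),(0,0),(17,1),(1,2)]⟩,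
  ⟨0,[(8,0)]⟩⟩,.o ⟨false,1,⟨0,[(15,0),(14,0)]⟩,⟨1,[(1,1),(28,0),(0,0)]⟩⟩,.o ⟨false,1,⟨0,[(23,0),(6,
  0)]⟩,⟨0,[(1,0)]⟩⟩]⟩) (.Q [0,-1,0,-2,1,0,2,2,-1,0,2,-1] (.p true [0,0,1] [0,0,-1,0,1] (⟨0,[(33,
  0)]⟩,⟨0,[(32,0)]⟩) .k 2 (⟨0,[(2,0)]⟩,⟨0,[(25,0),(7,0)]⟩) .k (.r (-1) ⟨1,[(14,3),(5,1),(18,0),(4,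
  0)]⟩ ⟨4,[(4,2),(5,6),(27,0),(3,2)]⟩)) (.R ⟨1,false,false,false,[1,0,1,0,-1],[1,1,-1],[0,0,0,0,0,0,
  0,1],(⟨0,[(26,0),(7,0)]⟩,⟨0,[(3,0)]⟩),(⟨0,[(33,0),(1,0)]⟩,⟨0,[(23,0)]⟩),⟨0,[(23,0),(2,0)]⟩,.k,.k,
  (.r (-1) ⟨5,[(0,1),(0,0),(0,1),(9,0),(8,1),(3,0),(18,0),(0,0)]⟩ ⟨0,[(11,0),(31,0),(3,0)]⟩),(.r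
  (-1) ⟨9,[(1,8),(0,5),(1,1),(7,0),(8,5),(3,2)]⟩ ⟨4,[(5,0),(5,8),(27,1),(3,5)]⟩),(.r (-1) ⟨0,[(0,0),
  (1,0),(25,0)]⟩ ⟨0,[(11,1),(31,1),(3,0)]⟩),.k,⟨true,0,⟨1,[(0,0),(3,1),(13,0),(1,1)]⟩,⟨0,[(11,1),
  (31,0)]⟩⟩,⟨false,0,⟨0,[(2,0),(25,0)]⟩,⟨0,[(16,0),(14,1)]⟩⟩,⟨true,0,⟨0,[(47,0)]⟩,⟨0,[]⟩⟩,⟨false,0,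
  ⟨0,[(2,0),(8,1),(16,0),(14,0)]⟩,⟨0,[(1,0)]⟩⟩,⟨false,0,⟨0,[(43,0)]⟩,⟨0,[(42,0),(2,0)]⟩⟩,⟨false,0,
  ⟨0,[(2,0),(8,1),(16,0),(14,1)]⟩,⟨0,[(0,0)]⟩⟩,[.a ⟨true,0,⟨0,[(11,0),(16,0),(14,0)]⟩,⟨0,[(14,0)]⟩⟩
  ⟨true,0,⟨1,[(4,0),(10,0),(16,0)]⟩,⟨0,[(11,0)]⟩⟩ ⟨false,0,⟨0,[(2,0),(8,0),(16,0),(14,0)]⟩,⟨10,[(0,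
  0),(0,5),(3,2),(18,3),(6,7),(7,1)]⟩⟩,.o ⟨false,1,⟨0,[(30,0),(12,0),(1,0)]⟩,⟨0,[(9,0)]⟩⟩,.o ⟨false,
  1,⟨0,[(16,0),(14,0)]⟩,⟨1,[(2,1),(28,0),(0,0)]⟩⟩,.o ⟨false,1,⟨0,[(24,0),(6,0)]⟩,⟨0,[(2,0)]⟩⟩]⟩)
  (.R ⟨1,true,false,false,[1,0,1,0,-1],[1,1,-1],[0,0,0,0,0,0,0,1],(⟨0,[(26,0),(7,0)]⟩,⟨0,[(3,0)]⟩),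
  (⟨0,[(33,0),(1,0)]⟩,⟨0,[(23,0)]⟩),⟨0,[(23,0),(2,0)]⟩,.k,.k,(.r (-1) ⟨3,[(1,1),(0,0),(9,1),(8,0),
  (3,0),(6,0)]⟩ ⟨1,[(0,0),(23,0),(6,1),(15,0)]⟩),(.r (-1) ⟨9,[(1,8),(0,5),(1,1),(7,0),(8,5),(3,2)]⟩
  ⟨10,[(0,5),(4,0),(5,8),(4,5),(14,11),(7,1)]⟩),(.r (-1) ⟨2,[(1,0),(0,0),(1,0),(7,1),(1,2),(5,1),(0,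
  0)]⟩ ⟨0,[(0,0),(23,0),(6,1)]⟩),.k,⟨true,0,⟨0,[(4,0),(9,0),(5,0)]⟩,⟨0,[(11,1),(31,0)]⟩⟩,⟨false,0,
  ⟨0,[(2,0),(25,0)]⟩,⟨0,[(16,0),(14,1)]⟩⟩,⟨true,0,⟨0,[(47,0)]⟩,⟨0,[]⟩⟩,⟨false,0,⟨6,[(0,3),(1,0),(8,
  2),(0,0),(8,0),(3,1),(4,2),(14,2)]⟩,⟨0,[(1,0)]⟩⟩,⟨false,0,⟨0,[(43,0)]⟩,⟨0,[(42,0),(2,0)]⟩⟩,⟨true,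
  (-1),⟨0,[(0,0)]⟩,⟨0,[(1,0),(40,0)]⟩⟩,[]⟩))) (.K ⟨0,[1,0,1,0,-1],0,0,(⟨0,[(24,0),(7,0)]⟩,⟨0,[(1,
  0)]⟩),.k,(.r (-1) ⟨5,[(2,1),(7,1),(1,1),(4,1),(1,1),(18,0),(4,2)]⟩ ⟨0,[(9,0),(31,0),(3,0)]⟩),(.r
  (-1) ⟨0,[(27,0),(2,0),(10,0),(1,0)]⟩ ⟨2,[(3,1),(5,0),(30,0)]⟩),.k,.k,[⟨1,[(16,1),(21,0),(4,0)]⟩,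
  ⟨0,[(0,0)]⟩,⟨1,[(16,0),(6,0),(4,1),(9,0),(6,0)]⟩,⟨0,[(0,0),(1,0)]⟩]⟩)) (.Q [0,1,0,-1,-1,0,0,0,1,0,
  0,1] (.p true [0,0,0,0,1] [] (⟨0,[(24,0)]⟩,⟨0,[(23,0)]⟩) .k 0 (⟨0,[]⟩,⟨0,[]⟩) .k .k) (.Q [0,0,1,0,
  -1,0,-1,0,1,0,-1,1] (.p true [1,0,-1,0,1] [1] (⟨0,[(25,0),(5,0)]⟩,⟨0,[(1,0)]⟩) .k 1 (⟨0,[]⟩,⟨0,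
  []⟩) .k (.r 0 ⟨4,[(3,0),(5,3),(27,1),(3,0)]⟩ ⟨3,[(13,1),(5,1),(7,1),(10,0),(4,2)]⟩)) (.R ⟨1,false,
  false,false,[1,0,-1,0,1],[1,1,-1],[0,1,0,0,0,0,0,-1],(⟨0,[(26,0),(5,0)]⟩,⟨0,[(2,0)]⟩),(⟨0,[(32,0),
  (1,0)]⟩,⟨0,[(22,0)]⟩),⟨0,[(21,0),(4,0)]⟩,.k,.k,(.r 0 ⟨2,[(4,1),(5,0),(30,0)]⟩ ⟨0,[(28,0),(2,0),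
  (10,0),(1,0)]⟩),(.r 0 ⟨0,[(40,0)]⟩ ⟨1,[(23,0),(0,0),(5,0),(0,0),(10,1),(1,0)]⟩),(.r 0 ⟨0,[(4,0),
  (8,0),(5,0)]⟩ ⟨1,[(23,0),(0,0),(5,1),(0,1),(10,3),(1,0)]⟩),.k,⟨false,0,⟨0,[(9,0)]⟩,⟨1,[(23,0),(0,
  0),(5,0),(0,0),(10,1),(1,0)]⟩⟩,⟨true,1,⟨0,[(15,0)]⟩,⟨0,[(0,0),(29,0)]⟩⟩,⟨false,1,⟨1,[(23,0),(0,0),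
  (19,0)]⟩,⟨0,[]⟩⟩,⟨false,2,⟨0,[(23,0),(18,0),(1,0)]⟩,⟨0,[(1,0)]⟩⟩,⟨true,0,⟨0,[(42,0)]⟩,⟨0,[(41,
  0)]⟩⟩,⟨false,2,⟨0,[(23,0),(18,1),(1,0)]⟩,⟨2,[(0,1),(0,0),(2,1),(5,0),(2,2),(17,0)]⟩⟩,[.a ⟨true,0,
  ⟨0,[(10,0),(16,0),(14,0)]⟩,⟨0,[(13,0)]⟩⟩ ⟨false,0,⟨4,[(4,2),(5,1),(27,0),(3,2)]⟩,⟨3,[(14,1),(5,1),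
  (7,1),(10,0),(4,2)]⟩⟩ ⟨true,1,⟨0,[(10,0),(4,0),(26,0)]⟩,⟨0,[(0,0),(12,0)]⟩⟩,.o ⟨false,1,⟨0,[(29,
  0),(12,0),(1,0)]⟩,⟨0,[(8,0)]⟩⟩,.e ⟨true,0,⟨4,[(4,0),(5,3),(27,1),(3,0)]⟩,⟨1,[(3,0),(10,0),(16,
  0)]⟩⟩ ⟨true,1,⟨0,[(10,0),(4,0),(26,0)]⟩,⟨1,[(0,0),(0,0),(1,0),(14,0)]⟩⟩,.o ⟨false,(-1),⟨0,[(0,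
  0)]⟩,⟨3,[(7,1),(15,3),(15,0),(3,0)]⟩⟩]⟩) (.Q [0,0,-1,0,0,0,0,0,1,-1,0,1] (.p true [0,0,0,0,1] [1]
  (⟨0,[(26,0)]⟩,⟨0,[(25,0)]⟩) .k 1 (⟨0,[]⟩,⟨0,[]⟩) .k .k) (.I [1,2,0,-1,-1,0,0,1] (.Q [0,-1,0,0,1,0,
  0,0,-1,1,0,-1] (.p false [0,0,0,0,1] [1] (⟨0,[(28,0)]⟩,⟨0,[(27,0)]⟩) .k 1 (⟨0,[]⟩,⟨0,[]⟩) .k .k)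
  (.S ⟨1,0,[],[1,0,0,0,-1],[0,-1],(⟨0,[(28,0)]⟩,⟨0,[(29,0)]⟩),⟨1,[(5,0),(3,0),(18,0)]⟩,.k,(.r (-1)
  ⟨1,[(14,0),(29,0),(2,0)]⟩ ⟨1,[(33,0),(0,0),(10,1),(3,1)]⟩),⟨false,1,⟨3,[(0,1),(26,1),(14,0),(4,
  0)]⟩,⟨0,[]⟩⟩,⟨true,0,⟨0,[(49,0)]⟩,⟨0,[]⟩⟩,⟨true,0,⟨0,[(45,0)]⟩,⟨0,[(44,0)]⟩⟩,⟨false,0,⟨0,[(45,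
  0)]⟩,⟨0,[(44,0),(2,0)]⟩⟩,[.o ⟨false,1,⟨0,[(26,0)]⟩,⟨1,[(2,1),(30,0),(0,0)]⟩⟩,.a ⟨true,1,⟨0,[(0,
  0)]⟩,⟨0,[(20,0)]⟩⟩ ⟨true,1,⟨0,[(47,0)]⟩,⟨0,[(1,0),(11,0),(31,0)]⟩⟩ ⟨false,1,⟨1,[(46,0),(0,0)]⟩,⟨0,
  [(49,0)]⟩⟩,.o ⟨false,1,⟨0,[(26,0)]⟩,⟨1,[(2,1),(30,0),(0,0)]⟩⟩,.o ⟨false,1,⟨1,[(26,1),(6,0),(0,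
  0)]⟩,⟨0,[(2,0)]⟩⟩]⟩) (.R ⟨1,false,false,true,[0,0,1],[1,0,0,0,-1],[0,0,0,0,0,0,0,1],(⟨0,[(36,0)]⟩,
  ⟨0,[(35,0)]⟩),(⟨0,[(28,0)]⟩,⟨0,[(29,0)]⟩),⟨0,[(25,0)]⟩,.k,.k,.k,.k,(.r 0 ⟨4,[(1,1),(4,0),(7,0),(0,
  0),(5,1),(1,0)]⟩ ⟨1,[(13,1),(12,0),(0,0),(17,1),(1,0)]⟩),.k,⟨true,0,⟨1,[(6,0),(10,0),(16,0)]⟩,⟨0,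
  [(13,0)]⟩⟩,⟨false,1,⟨0,[(26,0),(3,0)]⟩,⟨2,[(0,1),(9,0),(16,0),(5,0),(13,0)]⟩⟩,⟨false,1,⟨1,[(26,0),
  (0,0),(19,0)]⟩,⟨0,[]⟩⟩,⟨true,1,⟨0,[(13,0),(12,0),(3,0)]⟩,⟨0,[(0,0),(16,0)]⟩⟩,⟨true,0,⟨0,[(45,0)]⟩,
  ⟨0,[(44,0)]⟩⟩,⟨true,1,⟨0,[(13,0),(12,0),(3,0),(14,0)]⟩,⟨0,[(0,0),(15,0)]⟩⟩,[.o ⟨false,1,⟨0,[(26,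
  0)]⟩,⟨3,[(0,1),(26,1),(14,0),(4,0)]⟩⟩,.o ⟨false,2,⟨1,[(26,2),(0,0),(19,0)]⟩,⟨0,[(0,0)]⟩⟩,.o
  ⟨false,1,⟨2,[(10,0),(15,0),(0,0),(5,0),(8,0)]⟩,⟨0,[(22,0)]⟩⟩,.a ⟨true,0,⟨0,[(33,0)]⟩,⟨0,[(30,
  0)]⟩⟩ ⟨false,1,⟨9,[(6,5),(16,1),(7,3),(10,0),(3,1),(0,6)]⟩,⟨0,[(13,0)]⟩⟩ ⟨true,1,⟨0,[(26,0),(3,
  0)]⟩,⟨0,[(0,0),(32,0)]⟩⟩]⟩)) (.Q [0,0,0,0,0,0,0,0,0,-1,1,1] (.ed false [0,0,1,0,1] (.r 0 ⟨4,[(5,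
  1),(24,2),(2,2),(6,0)]⟩ ⟨0,[(0,0),(42,0)]⟩)) (.Q [0,0,2,0,-1,0,0,0,1,0,0,1] (.p true [0,0,0,0,1]
  [] (⟨0,[(29,0)]⟩,⟨0,[(28,0)]⟩) .k 0 (⟨0,[]⟩,⟨0,[]⟩) .k .k) (.K ⟨0,[0,-1,0,0,1],(-1),(-1),(⟨0,[(20,
  0)]⟩,⟨0,[(29,0),(8,0)]⟩),(.r 0 ⟨0,[(44,0)]⟩ ⟨0,[(2,0),(29,0),(2,0)]⟩),(.r 0 ⟨0,[(8,0),(8,0),(5,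
  0)]⟩ ⟨1,[(2,1),(29,1),(1,0),(0,2),(10,1)]⟩),.k,(.r 0 ⟨2,[(8,1),(5,0),(30,0)]⟩ ⟨0,[(32,0),(2,0),
  (10,0),(1,0)]⟩),.k,[⟨0,[(4,0)]⟩,⟨0,[(0,0)]⟩,⟨0,[(27,0),(18,0)]⟩,⟨3,[(0,0),(4,2),(36,1),(2,0)]⟩]⟩)
  (.Q [0,0,0,0,0,-1,0,0,0,-1,1,1] (.p true [-1,0,1,0,1] [] (⟨0,[(1,0)]⟩,⟨0,[(29,0),(6,0)]⟩) .k 0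
  (⟨0,[]⟩,⟨0,[]⟩) .k (.r 0 ⟨4,[(7,1),(24,2),(2,2),(6,0)]⟩ ⟨0,[(2,0),(42,0)]⟩)) (.Q [0,0,-1,0,0,0,-1,
  0,-1,2,-1,-1] (.p false [-1,0,1,0,1] [1] (⟨0,[(2,0)]⟩,⟨0,[(30,0),(6,0)]⟩) .k 1 (⟨0,[]⟩,⟨0,[]⟩) .k
  (.r 0 ⟨4,[(8,1),(24,2),(2,2),(6,0)]⟩ ⟨0,[(3,0),(42,0)]⟩)) (.R ⟨1,false,false,false,[-1,0,1,0,1],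
  [0,0,0,0,1],[0,1,0,0,0,0,0,1],(⟨0,[(3,0)]⟩,⟨0,[(31,0),(6,0)]⟩),(⟨0,[(32,0)]⟩,⟨0,[(31,0)]⟩),⟨0,[(1,
  0)]⟩,.k,.k,(.r 0 ⟨2,[(9,0),(4,0),(0,0),(8,0),(1,0)]⟩ ⟨1,[(4,1),(31,0),(0,0),(14,1)]⟩),.k,.k,.k,
  ⟨true,0,⟨1,[(9,0),(10,0),(16,0)]⟩,⟨0,[(16,0)]⟩⟩,⟨false,0,⟨0,[(33,0)]⟩,⟨2,[(13,0),(15,0),(0,0),(5,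
  0),(8,0)]⟩⟩,⟨false,1,⟨1,[(29,0),(0,0),(19,0)]⟩,⟨0,[]⟩⟩,⟨true,0,⟨6,[(0,2),(3,1),(2,1),(8,2),(9,0),
  (3,0),(4,1)]⟩,⟨0,[(14,0),(33,0)]⟩⟩,⟨true,0,⟨0,[(48,0)]⟩,⟨0,[(47,0)]⟩⟩,⟨true,0,⟨6,[(0,2),(3,1),(11,
  2),(6,1),(2,0),(3,0),(4,1),(12,4)]⟩,⟨0,[(14,0)]⟩⟩,[.e ⟨false,0,⟨4,[(9,3),(24,0),(2,0),(6,1)]⟩,⟨0,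
  [(4,0),(42,0)]⟩⟩ ⟨false,0,⟨3,[(0,0),(25,0),(3,0),(2,0),(10,1)]⟩,⟨0,[(4,0),(9,0)]⟩⟩,.o ⟨false,0,⟨1,
  [(5,1),(30,0),(0,0)]⟩,⟨0,[(29,0)]⟩⟩,.e ⟨false,0,⟨1,[(9,0),(10,0),(16,0)]⟩,⟨0,[(4,0),(42,0)]⟩⟩
  ⟨false,0,⟨3,[(0,0),(25,1),(3,0),(5,0)]⟩,⟨0,[(4,0),(9,0)]⟩⟩,.a ⟨true,0,⟨1,[(5,1),(30,2),(0,0)]⟩,⟨0,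
  [(0,0)]⟩⟩ ⟨true,0,⟨4,[(9,3),(24,0),(2,0),(6,1)]⟩,⟨0,[(16,0)]⟩⟩ ⟨false,0,⟨0,[(33,0)]⟩,⟨1,[(36,1),
  (8,0),(4,0)]⟩⟩]⟩) (.Q [0,0,0,1,0,0,-2,-1,-1,2,-2,-1] (.p false [0,0,1] [2,0,-1,0,-1] (⟨0,[(39,
  0)]⟩,⟨0,[(38,0)]⟩) .k 2 (⟨0,[(31,0),(6,0)]⟩,⟨0,[(3,0)]⟩) .k (.r 0 ⟨0,[(9,0),(24,0),(2,0)]⟩ ⟨6,[(4,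
  2),(5,0),(5,9),(0,1),(31,1)]⟩)) (.Q [0,2,0,0,-1,0,0,0,1,-1,0,1] (.p true [0,0,0,0,1] [1] (⟨0,[(33,
  0)]⟩,⟨0,[(32,0)]⟩) .k 1 (⟨0,[]⟩,⟨0,[]⟩) .k .k) (.R ⟨1,false,false,true,[-1,0,1,0,1],[0,0,0,0,1],
  [1,2,0,-1,0,0,0,1],(⟨0,[(5,0)]⟩,⟨0,[(33,0),(6,0)]⟩),(⟨0,[(34,0)]⟩,⟨0,[(33,0)]⟩),⟨0,[(3,0)]⟩,.k,.k,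
  (.r 0 ⟨2,[(11,0),(4,0),(0,0),(8,0),(1,0)]⟩ ⟨1,[(6,1),(31,0),(0,0),(14,1)]⟩),.k,.k,.k,⟨true,0,⟨0,
  [(21,0),(5,0)]⟩,⟨0,[(18,0),(31,0)]⟩⟩,⟨false,0,⟨0,[(35,0)]⟩,⟨2,[(15,0),(15,0),(0,0),(5,0),(8,0)]⟩⟩,
  ⟨true,0,⟨0,[(49,0)]⟩,⟨0,[(50,0)]⟩⟩,⟨false,0,⟨3,[(1,1),(7,0),(8,1),(0,0),(12,0)]⟩,⟨1,[(22,1),(24,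
  0),(4,0)]⟩⟩,⟨false,0,⟨0,[]⟩,⟨1,[(31,0),(0,0),(19,0)]⟩⟩,⟨false,0,⟨5,[(1,2),(4,1),(11,0),(6,1),(6,
  0),(13,0),(3,0)]⟩,⟨1,[(21,1),(25,0),(4,0)]⟩⟩,[.o ⟨false,(-1),⟨0,[(0,0)]⟩,⟨0,[(31,0),(20,0)]⟩⟩,.e
  ⟨false,0,⟨2,[(11,0),(4,0),(0,0),(8,0),(1,0)]⟩,⟨0,[(6,0),(47,0)]⟩⟩ ⟨false,0,⟨6,[(1,0),(24,0),(1,0),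
  (3,0),(2,3),(10,2)]⟩,⟨1,[(2,0),(5,0),(43,0)]⟩⟩,.a ⟨true,0,⟨8,[(2,2),(3,1),(0,0),(1,1),(5,1),(6,1),
  (2,1),(6,0)]⟩,⟨0,[(1,0),(19,0)]⟩⟩ ⟨false,0,⟨1,[(16,0),(9,0),(1,0)]⟩,⟨0,[(6,0)]⟩⟩ ⟨true,(-1),⟨1,
  [(0,0),(0,1),(7,0),(6,0),(5,0)]⟩,⟨1,[(2,0),(5,0),(43,0)]⟩⟩,.o ⟨false,0,⟨0,[(2,0)]⟩,⟨5,[(1,1),(2,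
  0),(14,1),(8,1),(2,2),(4,1)]⟩⟩]⟩) (.Q [0,0,1,0,0,0,2,0,1,-2,2,1] (.p true [0,0,1] [2,0,-1,0,-1]
  (⟨0,[(41,0)]⟩,⟨0,[(40,0)]⟩) .k 2 (⟨0,[(33,0),(6,0)]⟩,⟨0,[(5,0)]⟩) .k (.r 0 ⟨0,[(11,0),(24,0),(2,
  0)]⟩ ⟨6,[(6,2),(5,0),(5,9),(0,1),(31,1)]⟩)) (.R ⟨1,false,false,true,[0,0,1],[2,0,-1,0,-1],[0,1,0,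
  0,0,0,0,1],(⟨0,[(42,0)]⟩,⟨0,[(41,0)]⟩),(⟨0,[(34,0),(6,0)]⟩,⟨0,[(6,0)]⟩),⟨0,[(31,0)]⟩,.k,.k,.k,.k,
  (.r 0 ⟨1,[(12,1),(4,0),(9,0),(1,0)]⟩ ⟨0,[(7,0),(11,0),(35,0)]⟩),.k,⟨false,0,⟨4,[(12,6),(24,2),(2,
  2),(6,0)]⟩,⟨6,[(7,2),(5,0),(5,9),(0,1),(31,1)]⟩⟩,⟨true,0,⟨0,[(2,0),(19,0),(5,0)]⟩,⟨0,[(0,0)]⟩⟩,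
  ⟨true,0,⟨0,[(55,0)]⟩,⟨0,[]⟩⟩,⟨false,1,⟨5,[(1,2),(0,3),(16,5),(0,2),(8,0),(3,0),(4,1),(11,0)]⟩,⟨0,
  [(3,0),(8,0),(10,0)]⟩⟩,⟨false,0,⟨0,[(51,0)]⟩,⟨0,[(50,0),(2,0)]⟩⟩,⟨false,1,⟨3,[(1,1),(0,2),(4,0),
  (11,1),(13,0),(4,1),(13,0)]⟩,⟨0,[(3,0),(8,0),(9,0)]⟩⟩,[.o ⟨false,1,⟨8,[(1,3),(0,2),(13,0),(2,0),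
  (12,3),(0,1),(4,4),(11,2)]⟩,⟨0,[(3,0),(8,0)]⟩⟩,.o ⟨false,1,⟨0,[(1,0),(36,0)]⟩,⟨1,[(3,0),(8,0),(13,
  0),(10,0),(10,0)]⟩⟩,.o ⟨false,1,⟨7,[(0,1),(15,1),(15,4),(0,2),(14,0)]⟩,⟨0,[(28,0)]⟩⟩,.a ⟨true,0,
  ⟨0,[(39,0)]⟩,⟨0,[(36,0)]⟩⟩ ⟨true,0,⟨4,[(12,3),(24,0),(2,0),(6,1)]⟩,⟨0,[(19,0)]⟩⟩ ⟨false,1,⟨5,[(1,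
  2),(0,3),(17,2),(8,0),(3,0),(4,1),(11,0)]⟩,⟨0,[(3,0),(19,0)]⟩⟩]⟩) (.R ⟨1,false,false,true,[-1,0,1,
  0,1],[1,1,-1],[1,2,0,-1,0,0,0,1],(⟨0,[(6,0)]⟩,⟨0,[(34,0),(6,0)]⟩),(⟨0,[(41,0),(1,0)]⟩,⟨0,[(31,
  0)]⟩),⟨0,[(4,0)]⟩,.k,.k,(.r 0 ⟨2,[(12,0),(4,0),(0,0),(8,0),(1,0)]⟩ ⟨1,[(7,1),(31,0),(0,0),(14,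
  1)]⟩),(.r 0 ⟨1,[(12,1),(4,0),(9,0),(1,0)]⟩ ⟨0,[(7,0),(11,0),(35,0)]⟩),(.r 0 ⟨4,[(0,1),(9,1),(1,3),
  (4,4),(2,1),(1,0),(6,0)]⟩ ⟨1,[(7,1),(11,1),(19,0),(0,0),(10,1),(3,1)]⟩),.k,⟨false,0,⟨4,[(0,1),(9,
  1),(1,3),(4,4),(2,1),(1,0),(6,0)]⟩,⟨0,[(7,0),(11,0),(31,0),(3,0)]⟩⟩,⟨true,0,⟨0,[(0,0)]⟩,⟨0,[(3,0),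
  (35,0)]⟩⟩,⟨true,0,⟨0,[(50,0)]⟩,⟨0,[(51,0)]⟩⟩,⟨false,1,⟨3,[(1,1),(0,2),(4,0),(11,1),(13,0),(4,1),
  (13,0)]⟩,⟨0,[(3,0),(8,0),(9,0)]⟩⟩,⟨false,0,⟨0,[]⟩,⟨1,[(32,0),(0,0),(19,0)]⟩⟩,⟨false,1,⟨0,[(2,0),
  (4,0),(47,0)]⟩,⟨0,[(1,0),(1,0),(6,0),(1,0),(4,0)]⟩⟩,[.o ⟨false,0,⟨0,[(38,0),(12,0)]⟩,⟨1,[(22,1),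
  (25,0),(4,0)]⟩⟩,.a ⟨true,0,⟨5,[(2,2),(4,1),(11,0),(6,1),(6,0),(13,0),(3,0)]⟩,⟨0,[(22,0)]⟩⟩ ⟨false,
  0,⟨2,[(12,0),(4,0),(0,0),(8,0),(1,0)]⟩,⟨0,[(7,0),(47,0)]⟩⟩ ⟨true,0,⟨0,[(2,0)]⟩,⟨0,[(3,0),(18,
  0)]⟩⟩,.e ⟨false,0,⟨1,[(17,0),(9,0),(1,0)]⟩,⟨0,[(7,0)]⟩⟩ ⟨false,0,⟨0,[(2,0)]⟩,⟨1,[(3,1),(16,0),(2,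
  0),(3,0),(25,0)]⟩⟩,.o ⟨false,0,⟨0,[(3,0)]⟩,⟨3,[(0,1),(31,2),(0,0),(18,0)]⟩⟩]⟩))) (.Q [0,0,0,0,0,0,
  2,0,1,-2,2,1] (.p true [0,0,1] [2,0,-1,0,-1] (⟨0,[(40,0)]⟩,⟨0,[(39,0)]⟩) .k 2 (⟨0,[(32,0),(6,0)]⟩,
  ⟨0,[(4,0)]⟩) .k (.r 0 ⟨0,[(10,0),(24,0),(2,0)]⟩ ⟨6,[(5,2),(5,0),(5,9),(0,1),(31,1)]⟩)) (.Q [0,-1,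
  0,1,1,0,-2,-2,-1,2,-2,-1] (.p false [0,0,1] [2,0,-1,0,-1] (⟨0,[(41,0)]⟩,⟨0,[(40,0)]⟩) .k 2 (⟨0,
  [(33,0),(6,0)]⟩,⟨0,[(5,0)]⟩) .k (.r 0 ⟨0,[(11,0),(24,0),(2,0)]⟩ ⟨6,[(6,2),(5,0),(5,9),(0,1),(31,
  1)]⟩)) (.R ⟨1,false,false,true,[-1,0,1,0,1],[1,1,-1],[0,1,0,0,0,0,0,1],(⟨0,[(6,0)]⟩,⟨0,[(34,0),(6,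
  0)]⟩),(⟨0,[(41,0),(1,0)]⟩,⟨0,[(31,0)]⟩),⟨0,[(4,0)]⟩,.k,.k,(.r 0 ⟨2,[(12,0),(4,0),(0,0),(8,0),(1,
  0)]⟩ ⟨3,[(0,1),(2,1),(3,1),(29,1),(1,0),(0,0)]⟩),(.r 0 ⟨1,[(12,1),(4,0),(9,0),(1,0)]⟩ ⟨1,[(0,1),
  (0,0),(1,0),(35,0)]⟩),(.r 0 ⟨2,[(12,1),(4,0),(0,1),(3,2),(5,1),(0,0)]⟩ ⟨0,[(0,0),(2,0),(35,0),(11,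
  0)]⟩),.k,⟨true,0,⟨0,[(12,0),(9,0),(5,0)]⟩,⟨0,[(19,1),(31,0)]⟩⟩,⟨false,1,⟨2,[(0,0),(4,1),(17,0),(3,
  0),(1,1),(6,1)]⟩,⟨1,[(1,0),(1,0),(35,0)]⟩⟩,⟨false,1,⟨1,[(32,0),(0,0),(19,0)]⟩,⟨0,[]⟩⟩,⟨false,1,⟨0,
  [(0,0)]⟩,⟨1,[(2,1),(9,0),(10,0),(16,0)]⟩⟩,⟨true,0,⟨0,[(51,0)]⟩,⟨0,[(50,0)]⟩⟩,⟨false,1,⟨0,[(0,0),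
  (50,0)]⟩,⟨0,[(2,0),(19,0),(5,0)]⟩⟩,[.o ⟨false,0,⟨0,[(38,0),(12,0)]⟩,⟨1,[(22,1),(25,0),(4,0)]⟩⟩,.a
  ⟨true,0,⟨1,[(0,0),(25,0),(24,0)]⟩,⟨0,[(22,0)]⟩⟩ ⟨true,0,⟨1,[(12,0),(10,0),(16,0)]⟩,⟨0,[(19,0)]⟩⟩
  ⟨false,1,⟨12,[(0,8),(4,3),(23,4),(6,2),(0,4),(9,1),(3,3)]⟩,⟨0,[(2,0)]⟩⟩,.o ⟨false,0,⟨0,[(1,0),(26,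
  0)]⟩,⟨3,[(0,0),(22,0),(3,0),(1,1),(2,2)]⟩⟩,.o ⟨false,0,⟨0,[(3,0)]⟩,⟨3,[(0,0),(4,1),(17,0),(3,0),
  (1,1),(2,0)]⟩⟩]⟩) (.Q [0,1,0,0,-1,0,0,0,1,-1,0,1] (.p true [0,0,0,0,1] [1] (⟨0,[(35,0)]⟩,⟨0,[(34,
  0)]⟩) .k 1 (⟨0,[]⟩,⟨0,[]⟩) .k .k) (.R ⟨1,false,false,true,[0,0,1],[1,0,0,0,-1],[0,0,0,0,0,0,0,1],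
  (⟨0,[(43,0)]⟩,⟨0,[(42,0)]⟩),(⟨0,[(35,0)]⟩,⟨0,[(36,0)]⟩),⟨0,[(32,0)]⟩,.k,.k,.k,.k,(.r 0 ⟨3,[(1,0),
  (4,0),(12,0),(8,1),(1,1)]⟩ ⟨1,[(8,1),(31,0),(0,0),(14,1)]⟩),.k,⟨true,0,⟨1,[(13,0),(10,0),(16,0)]⟩,
  ⟨0,[(20,0)]⟩⟩,⟨false,1,⟨0,[(33,0),(3,0)]⟩,⟨1,[(2,0),(31,0)]⟩⟩,⟨false,1,⟨1,[(33,0),(0,0),(19,0)]⟩,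
  ⟨0,[]⟩⟩,⟨true,1,⟨0,[(20,0),(12,0),(3,0)]⟩,⟨1,[(1,0),(25,0),(24,0)]⟩⟩,⟨true,0,⟨0,[(52,0)]⟩,⟨0,[(51,
  0)]⟩⟩,⟨true,1,⟨0,[(20,0),(12,0),(3,0),(14,0)]⟩,⟨1,[(1,0),(9,0)]⟩⟩,[.o ⟨false,1,⟨0,[(33,0)]⟩,⟨4,
  [(4,1),(4,1),(20,0),(3,0)]⟩⟩,.o ⟨false,2,⟨1,[(33,2),(0,0),(19,0)]⟩,⟨0,[(0,0)]⟩⟩,.o ⟨false,1,⟨2,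
  [(17,0),(15,0),(0,0),(5,0),(8,0)]⟩,⟨0,[(29,0)]⟩⟩,.a ⟨true,0,⟨0,[(40,0)]⟩,⟨0,[(37,0)]⟩⟩ ⟨false,1,
  ⟨9,[(13,5),(16,1),(7,3),(10,0),(3,1),(0,6)]⟩,⟨0,[(20,0)]⟩⟩ ⟨true,1,⟨0,[(33,0),(3,0)]⟩,⟨0,[(0,0),
  (39,0)]⟩⟩]⟩) (.S ⟨1,0,[0,1,-1,-1,0,0,0,1],[0,-1,1],[1,0,-1,-2,0,0,0,1],(⟨0,[(32,0)]⟩,⟨0,[(42,0),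
  (1,0)]⟩),⟨1,[(5,0),(6,0),(3,0),(15,0)]⟩,.k,(.r (-1) ⟨1,[(18,0),(2,1),(6,0),(1,0)]⟩ ⟨1,[(20,1),(19,
  0),(0,0),(10,3)]⟩),⟨false,1,⟨0,[(51,0),(2,0)]⟩,⟨0,[(52,0)]⟩⟩,⟨true,0,⟨0,[(56,0)]⟩,⟨0,[]⟩⟩,⟨true,0,
  ⟨0,[]⟩,⟨0,[(56,0)]⟩⟩,⟨false,0,⟨0,[(52,0)]⟩,⟨0,[(51,0),(2,0)]⟩⟩,[.o ⟨false,0,⟨0,[(18,0)]⟩,⟨5,[(8,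
  3),(21,1),(2,0),(0,0),(4,1),(9,0),(2,1)]⟩⟩,.e ⟨false,1,⟨0,[(21,0),(1,0),(5,0)]⟩,⟨0,[(20,0),(31,1),
  (3,0)]⟩⟩ ⟨false,1,⟨13,[(13,5),(7,5),(6,7),(1,3),(18,1),(3,4),(0,0)]⟩,⟨0,[(20,0),(31,0)]⟩⟩,.a
  ⟨true,0,⟨0,[(40,0)]⟩,⟨0,[(37,0)]⟩⟩ ⟨false,1,⟨0,[(21,0),(1,0),(17,0)]⟩,⟨0,[(20,0),(31,1)]⟩⟩ ⟨true,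
  0,⟨3,[(1,0),(4,0),(12,0),(8,1),(1,1)]⟩,⟨0,[(20,0),(31,0)]⟩⟩,.o ⟨false,0,⟨0,[(0,0),(0,0),(18,1),(8,
  0),(22,0)]⟩,⟨1,[(22,0),(7,0),(22,0)]⟩⟩]⟩))) (.R ⟨1,false,false,true,[0,0,1],[2,0,-1,0,-1],[0,1,0,
  0,0,0,0,1],(⟨0,[(41,0)]⟩,⟨0,[(40,0)]⟩),(⟨0,[(33,0),(6,0)]⟩,⟨0,[(5,0)]⟩),⟨0,[(30,0)]⟩,.k,.k,.k,.k,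
  (.r 0 ⟨1,[(11,1),(4,0),(9,0),(1,0)]⟩ ⟨0,[(6,0),(11,0),(35,0)]⟩),.k,⟨false,0,⟨4,[(11,6),(24,2),(2,
  2),(6,0)]⟩,⟨6,[(6,2),(5,0),(5,9),(0,1),(31,1)]⟩⟩,⟨true,0,⟨0,[(0,0)]⟩,⟨0,[(1,0),(16,0),(31,0)]⟩⟩,
  ⟨true,0,⟨0,[(54,0)]⟩,⟨0,[]⟩⟩,⟨false,1,⟨6,[(0,6),(5,2),(5,0),(5,9),(0,1),(31,1)]⟩,⟨0,[(2,0),(8,0),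
  (10,0)]⟩⟩,⟨false,0,⟨0,[(50,0)]⟩,⟨0,[(49,0),(2,0)]⟩⟩,⟨false,1,⟨4,[(0,4),(5,4),(5,0),(5,3),(27,1),
  (3,0)]⟩,⟨1,[(1,1),(9,0),(10,0),(16,0)]⟩⟩,[.o ⟨false,1,⟨1,[(0,0),(17,1),(12,0),(19,0)]⟩,⟨0,[(2,0),
  (8,0)]⟩⟩,.o ⟨false,1,⟨1,[(0,0),(3,0),(13,1),(33,0)]⟩,⟨1,[(2,0),(8,0),(13,0),(10,0),(10,0)]⟩⟩,.o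
  ⟨false,1,⟨2,[(15,0),(15,0),(0,0),(5,0),(8,0)]⟩,⟨0,[(27,0)]⟩⟩,.a ⟨true,0,⟨0,[(38,0)]⟩,⟨0,[(35,
  0)]⟩⟩ ⟨true,0,⟨4,[(11,3),(24,0),(2,0),(6,1)]⟩,⟨0,[(18,0)]⟩⟩ ⟨false,1,⟨6,[(0,6),(5,2),(5,0),(5,2),
  (0,1),(31,1)]⟩,⟨0,[(2,0),(19,0)]⟩⟩]⟩)))) (.Q [0,0,-1,0,0,0,-1,0,-1,2,-1,-1] (.p false [-1,0,1,0,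
  1] [1] (⟨0,[(2,0)]⟩,⟨0,[(0,0),(40,0)]⟩) .k 1 (⟨0,[]⟩,⟨0,[]⟩) .k (.r 0 ⟨4,[(8,1),(24,2),(2,2),(6,
  0)]⟩ ⟨0,[(3,0),(42,0)]⟩)) (.R ⟨0,false,false,false,[-1,0,1,0,1],[0,0,0,0,1],[0,1,1],(⟨0,[(3,0)]⟩,
  ⟨0,[(1,0),(40,0)]⟩),(⟨0,[(32,0)]⟩,⟨0,[(31,0)]⟩),⟨0,[(1,0)]⟩,.k,.k,(.r 0 ⟨2,[(9,0),(4,0),(0,0),(8,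
  0),(1,0)]⟩ ⟨1,[(4,1),(31,0),(0,0),(14,1)]⟩),.k,.k,.k,⟨true,0,⟨1,[(36,0),(0,0)]⟩,⟨0,[]⟩⟩,⟨false,0,
  ⟨0,[(33,0)]⟩,⟨2,[(13,0),(15,0),(0,0),(5,0),(8,0)]⟩⟩,⟨false,1,⟨1,[(16,1),(12,0),(0,0),(19,0)]⟩,⟨0,
  [(9,0)]⟩⟩,⟨true,0,⟨6,[(0,2),(3,1),(2,1),(8,2),(9,0),(3,0),(4,1)]⟩,⟨0,[(14,0),(33,0)]⟩⟩,⟨false,0,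
  ⟨0,[]⟩,⟨0,[]⟩⟩,⟨false,0,⟨0,[]⟩,⟨0,[]⟩⟩,[.e ⟨false,0,⟨0,[(52,0)]⟩,⟨1,[(49,0),(0,0)]⟩⟩ ⟨false,0,⟨3,
  [(0,0),(25,0),(3,0),(2,0),(10,1)]⟩,⟨0,[(4,0),(9,0)]⟩⟩,.o ⟨false,0,⟨1,[(5,1),(30,0),(0,0)]⟩,⟨0,
  [(29,0)]⟩⟩,.e ⟨false,0,⟨1,[(36,0),(0,0)]⟩,⟨1,[(49,0),(0,0)]⟩⟩ ⟨false,0,⟨3,[(0,0),(25,1),(3,0),(5,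
  0)]⟩,⟨0,[(4,0),(9,0)]⟩⟩,.a ⟨true,0,⟨1,[(5,1),(30,2),(0,0)]⟩,⟨0,[(0,0)]⟩⟩ ⟨true,0,⟨0,[(52,0)]⟩,⟨0,
  []⟩⟩ ⟨false,0,⟨0,[(33,0)]⟩,⟨1,[(36,1),(8,0),(4,0)]⟩⟩]⟩) (.Q [0,0,0,0,0,0,1,0,1,-2,1,1] (.p true
  [-1,0,1,0,1] [1] (⟨0,[(3,0)]⟩,⟨0,[(1,0),(40,0)]⟩) .k 1 (⟨0,[]⟩,⟨0,[]⟩) .k (.r 0 ⟨4,[(9,1),(24,2),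
  (2,2),(6,0)]⟩ ⟨0,[(4,0),(42,0)]⟩)) (.Q [0,1,0,1,-1,0,0,0,1,-1,0,1] (.p true [0,0,0,0,1] [1] (⟨0,
  [(33,0)]⟩,⟨0,[(32,0)]⟩) .k 1 (⟨0,[]⟩,⟨0,[]⟩) .k .k) (.R ⟨0,false,false,true,[-1,0,1,0,1],[0,-1,1],
  [1,1],(⟨0,[(5,0)]⟩,⟨0,[(3,0),(40,0)]⟩),(⟨0,[(30,0)]⟩,⟨0,[(3,0),(30,0)]⟩),⟨0,[(3,0)]⟩,.k,.k,(.r 0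
  ⟨2,[(11,0),(4,0),(0,0),(8,0),(1,0)]⟩ ⟨1,[(6,1),(31,0),(0,0),(14,1)]⟩),(.r 0 ⟨1,[(38,0),(0,0),(10,
  1),(3,1)]⟩ ⟨1,[(19,0),(29,0),(2,0)]⟩),.k,.k,⟨true,0,⟨0,[(18,0),(31,0)]⟩,⟨0,[(21,0),(5,0)]⟩⟩,
  ⟨false,1,⟨0,[(31,0),(10,0),(1,0)]⟩,⟨0,[(7,0)]⟩⟩,⟨false,1,⟨0,[(6,0),(42,0)]⟩,⟨1,[(11,0),(10,0),(16,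
  0)]⟩⟩,⟨true,1,⟨0,[(18,0),(2,0),(9,0),(3,0)]⟩,⟨0,[(0,0)]⟩⟩,⟨false,0,⟨0,[]⟩,⟨0,[]⟩⟩,⟨false,0,⟨0,[]⟩,
  ⟨0,[]⟩⟩,[.o ⟨false,0,⟨0,[(16,0)]⟩,⟨5,[(6,3),(21,1),(2,0),(0,0),(4,1),(9,0),(2,1)]⟩⟩,.a ⟨true,0,⟨0,
  [(21,0)]⟩,⟨0,[(18,0),(16,0),(14,0)]⟩⟩ ⟨true,0,⟨0,[]⟩,⟨1,[(38,0),(0,0)]⟩⟩ ⟨false,1,⟨0,[(21,0),(9,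
  0),(3,0)]⟩,⟨11,[(0,6),(1,1),(3,5),(5,0),(2,0),(2,0),(13,2),(4,3)]⟩⟩,.o ⟨false,0,⟨0,[(1,0)]⟩,⟨1,
  [(28,0),(2,1),(10,0),(1,0)]⟩⟩,.o ⟨false,0,⟨0,[(2,0)]⟩,⟨0,[(31,0),(3,0)]⟩⟩]⟩) (.I [0,2,1,1,-1] (.I
  [1,-2,0,-1,1] (.S ⟨1,0,[],[1,0,0,0,-1],[1,-1,0,-1],(⟨0,[(35,0)]⟩,⟨0,[(36,0)]⟩),⟨1,[(12,0),(3,0),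
  (18,0)]⟩,.k,(.r (-1) ⟨9,[(0,1),(1,1),(18,4),(12,1),(14,0),(1,0)]⟩ ⟨2,[(1,1),(6,0),(24,0),(0,0),(3,
  0),(2,0)]⟩),⟨false,1,⟨4,[(0,1),(1,1),(31,1),(14,0),(1,0)]⟩,⟨0,[(52,0)]⟩⟩,⟨true,0,⟨0,[(56,0)]⟩,⟨0,
  []⟩⟩,⟨true,0,⟨0,[]⟩,⟨0,[(56,0)]⟩⟩,⟨false,0,⟨0,[(52,0)]⟩,⟨4,[(0,1),(1,1),(31,1),(14,0),(1,0)]⟩⟩,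
  [.o ⟨false,1,⟨0,[(33,0)]⟩,⟨4,[(4,1),(4,1),(20,0),(3,0)]⟩⟩,.a ⟨true,1,⟨0,[(2,0),(49,0)]⟩,⟨0,[(27,
  0)]⟩⟩ ⟨true,1,⟨0,[(0,0)]⟩,⟨0,[(1,0)]⟩⟩ ⟨false,1,⟨1,[(53,0),(0,0)]⟩,⟨0,[(56,0)]⟩⟩,.o ⟨false,1,⟨0,
  [(33,0)]⟩,⟨4,[(4,1),(4,1),(20,0),(3,0)]⟩⟩,.o ⟨false,1,⟨1,[(33,1),(6,0),(0,0)]⟩,⟨0,[(9,0)]⟩⟩]⟩)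
  (.S ⟨1,0,[],[1,0,0,0,-1],[1,1],(⟨0,[(35,0)]⟩,⟨0,[(36,0)]⟩),⟨1,[(12,0),(3,0),(18,0)]⟩,.k,(.r (-1)
  ⟨1,[(21,0),(29,0),(2,0)]⟩ ⟨2,[(1,1),(6,0),(24,0),(0,0),(3,0),(2,0)]⟩),⟨false,0,⟨0,[(56,0)]⟩,⟨0,
  [(54,0)]⟩⟩,⟨true,0,⟨0,[(56,0)]⟩,⟨0,[]⟩⟩,⟨true,(-1),⟨0,[(0,0)]⟩,⟨0,[(51,0),(2,0)]⟩⟩,⟨false,0,⟨0,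
  [(52,0)]⟩,⟨0,[(51,0),(2,0)]⟩⟩,[.o ⟨false,1,⟨0,[(33,0)]⟩,⟨4,[(4,1),(4,1),(20,0),(3,0)]⟩⟩,.a ⟨true,
  1,⟨0,[(2,0),(49,0)]⟩,⟨0,[(27,0)]⟩⟩ ⟨true,0,⟨0,[]⟩,⟨1,[(40,0),(0,0)]⟩⟩ ⟨false,1,⟨1,[(53,0),(0,0)]⟩,
  ⟨0,[(56,0)]⟩⟩,.o ⟨false,1,⟨0,[(33,0)]⟩,⟨4,[(4,1),(4,1),(20,0),(3,0)]⟩⟩,.o ⟨false,1,⟨1,[(33,1),(6,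
  0),(0,0)]⟩,⟨0,[(9,0)]⟩⟩]⟩)) (.Q [0,2,0,-1,-1,0,0,0,1,-1,0,1] (.p true [0,0,0,0,1] [1] (⟨0,[(35,
  0)]⟩,⟨0,[(34,0)]⟩) .k 1 (⟨0,[]⟩,⟨0,[]⟩) .k .k) (.R ⟨0,false,false,false,[-1,0,1,0,1],[0,-1,1],[1],
  (⟨0,[(7,0)]⟩,⟨0,[(5,0),(40,0)]⟩),(⟨0,[(32,0)]⟩,⟨0,[(5,0),(30,0)]⟩),⟨0,[(5,0)]⟩,.k,.k,(.r 0 ⟨2,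
  [(13,0),(4,0),(0,0),(8,0),(1,0)]⟩ ⟨1,[(8,1),(31,0),(0,0),(14,1)]⟩),(.r 0 ⟨1,[(40,0),(0,0),(10,1),
  (3,1)]⟩ ⟨7,[(1,1),(0,1),(18,2),(12,1),(14,0),(1,0)]⟩),.k,.k,⟨true,0,⟨0,[(20,0),(31,0)]⟩,⟨0,[(23,
  0),(5,0)]⟩⟩,⟨false,1,⟨4,[(2,3),(27,0),(2,0),(6,1),(7,1),(3,3)]⟩,⟨0,[(9,0)]⟩⟩,⟨false,1,⟨1,[(1,0),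
  (6,0),(11,0)]⟩,⟨4,[(13,1),(24,2),(2,2),(6,0)]⟩⟩,⟨true,1,⟨0,[(2,0)]⟩,⟨0,[(0,0),(51,1)]⟩⟩,⟨false,0,
  ⟨0,[]⟩,⟨0,[]⟩⟩,⟨false,0,⟨0,[]⟩,⟨0,[]⟩⟩,[.a ⟨true,0,⟨0,[(23,0)]⟩,⟨0,[(20,0),(16,0),(14,0)]⟩⟩ ⟨true,
  0,⟨0,[]⟩,⟨1,[(40,0),(0,0)]⟩⟩ ⟨false,1,⟨2,[(2,1),(3,0),(6,0),(14,0),(1,0),(7,0)]⟩,⟨1,[(3,0),(4,0),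
  (18,0),(11,0),(12,0)]⟩⟩,.o ⟨false,1,⟨1,[(23,1),(25,0),(4,0)]⟩,⟨0,[(39,0),(12,0)]⟩⟩,.o ⟨false,0,⟨0,
  [(3,0)]⟩,⟨4,[(2,1),(27,2),(2,2),(6,0),(7,0),(3,1)]⟩⟩,.o ⟨false,0,⟨0,[(4,0)]⟩,⟨0,[(33,0),(3,
  0)]⟩⟩]⟩) (.Q [0,2,0,1,-1,0,0,0,1,-1,0,1] (.p true [0,0,0,0,1] [1] (⟨0,[(36,0)]⟩,⟨0,[(35,0)]⟩) .k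
  1 (⟨0,[]⟩,⟨0,[]⟩) .k .k) (.R ⟨0,false,false,false,[-1,0,1,0,1],[0,-1,1],[1],(⟨0,[(8,0)]⟩,⟨0,[(6,
  0),(40,0)]⟩),(⟨0,[(33,0)]⟩,⟨0,[(6,0),(30,0)]⟩),⟨0,[(6,0)]⟩,.k,.k,(.r 0 ⟨2,[(14,0),(4,0),(0,0),(8,
  0),(1,0)]⟩ ⟨1,[(9,1),(31,0),(0,0),(14,1)]⟩),(.r 0 ⟨1,[(0,0),(0,0),(39,0),(0,0),(14,1)]⟩ ⟨7,[(2,1),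
  (0,1),(18,2),(12,1),(14,0),(1,0)]⟩),.k,.k,⟨true,0,⟨1,[(0,0),(0,0),(19,1)]⟩,⟨0,[(24,0),(5,0)]⟩⟩,
  ⟨false,1,⟨1,[(1,0),(1,0),(53,2)]⟩,⟨0,[(10,0)]⟩⟩,⟨false,1,⟨1,[(2,0),(6,0),(11,0)]⟩,⟨7,[(0,0),(13,
  1),(4,0),(11,1),(2,0),(4,4),(2,1)]⟩⟩,⟨true,1,⟨0,[(3,0)]⟩,⟨0,[(0,0)]⟩⟩,⟨false,0,⟨0,[]⟩,⟨0,[]⟩⟩,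
  ⟨false,0,⟨0,[]⟩,⟨0,[]⟩⟩,[.a ⟨true,0,⟨0,[(24,0)]⟩,⟨0,[(1,0),(26,0),(11,0)]⟩⟩ ⟨true,0,⟨0,[]⟩,⟨1,
  [(41,0),(0,0)]⟩⟩ ⟨false,1,⟨2,[(3,1),(3,0),(6,0),(14,0),(1,0),(7,0)]⟩,⟨1,[(0,0),(8,0),(0,0),(10,
  0)]⟩⟩,.o ⟨false,1,⟨1,[(24,1),(25,0),(4,0)]⟩,⟨1,[(0,0),(0,0),(38,1)]⟩⟩,.o ⟨false,0,⟨0,[(4,0)]⟩,⟨3,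
  [(1,0),(1,0),(27,1),(2,1),(22,2)]⟩⟩,.o ⟨false,0,⟨0,[(5,0)]⟩,⟨15,[(1,3),(1,3),(3,4),(23,7),(2,2),
  (14,5)]⟩⟩]⟩) (.Q [0,0,0,0,0,0,-2,0,-1,2,-2,-1] (.p false [0,0,1] [2,0,-1,0,-1] (⟨0,[(44,0)]⟩,⟨0,
  [(43,0)]⟩) .k 2 (⟨0,[(6,0),(40,0)]⟩,⟨0,[(8,0)]⟩) .k (.r 0 ⟨0,[(14,0),(24,0),(2,0)]⟩ ⟨8,[(3,0),(5,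
  4),(5,1),(2,0),(2,8),(0,1),(12,0),(4,1)]⟩)) (.R ⟨1,false,false,true,[0,0,1],[2,0,-1,0,-1],[0,1,0,
  0,0,0,0,1],(⟨0,[(45,0)]⟩,⟨0,[(44,0)]⟩),(⟨0,[(7,0),(40,0)]⟩,⟨0,[(9,0)]⟩),⟨0,[(34,0)]⟩,.k,.k,.k,.k,
  (.r 0 ⟨1,[(15,1),(4,0),(9,0),(1,0)]⟩ ⟨0,[(10,0),(11,0),(35,0)]⟩),.k,⟨false,0,⟨4,[(15,6),(24,2),(2,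
  2),(6,0)]⟩,⟨8,[(4,0),(5,4),(5,1),(2,0),(2,8),(0,1),(12,0),(4,1)]⟩⟩,⟨true,0,⟨0,[(0,0)]⟩,⟨0,[(5,0),
  (36,0)]⟩⟩,⟨true,0,⟨0,[(58,0)]⟩,⟨0,[]⟩⟩,⟨false,1,⟨5,[(0,4),(3,1),(5,3),(5,1),(5,3),(13,0),(4,1)]⟩,
  ⟨0,[(6,0),(8,0),(10,0)]⟩⟩,⟨false,0,⟨0,[(54,0)]⟩,⟨6,[(3,1),(0,3),(1,0),(29,2),(6,0),(7,0),(1,0)]⟩⟩,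
  ⟨false,1,⟨4,[(0,4),(9,4),(5,0),(5,3),(27,1),(3,0)]⟩,⟨0,[(6,0),(8,0),(9,0)]⟩⟩,[.o ⟨false,1,⟨1,[(2,
  0),(1,0),(36,1),(16,0)]⟩,⟨0,[(6,0),(8,0)]⟩⟩,.o ⟨false,1,⟨1,[(1,0),(0,0),(38,1)]⟩,⟨1,[(6,0),(8,0),
  (13,0),(10,0),(10,0)]⟩⟩,.o ⟨false,1,⟨2,[(19,0),(15,0),(0,0),(5,0),(8,0)]⟩,⟨0,[(31,0)]⟩⟩,.a ⟨true,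
  0,⟨0,[(42,0)]⟩,⟨0,[(39,0)]⟩⟩ ⟨true,0,⟨4,[(15,3),(24,0),(2,0),(6,1)]⟩,⟨0,[(22,0)]⟩⟩ ⟨false,1,⟨10,
  [(0,7),(3,2),(5,5),(5,1),(6,0),(15,2),(1,2),(13,0)]⟩,⟨0,[(6,0),(19,0)]⟩⟩]⟩) (.Q [0,0,-1,0,0,0,1,0,
  1,-2,1,1] (.p true [-1,0,1,0,1] [1] (⟨0,[(9,0)]⟩,⟨0,[(7,0),(40,0)]⟩) .k 1 (⟨0,[]⟩,⟨0,[]⟩) .k (.r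
  0 ⟨4,[(15,1),(24,2),(2,2),(6,0)]⟩ ⟨37,[(3,4),(0,9),(5,14),(8,5),(2,10),(13,9),(4,11),(9,1)]⟩))
  (.Q [0,2,0,2,-1,0,0,0,1,-1,0,1] (.p true [0,0,0,0,1] [1] (⟨0,[(39,0)]⟩,⟨0,[(38,0)]⟩) .k 1 (⟨0,[]⟩,
  ⟨0,[]⟩) .k .k) (.R ⟨1,false,false,true,[2,0,-1,0,-1],[1,1,-1],[0,1,1],(⟨0,[(9,0),(40,0)]⟩,⟨0,[(11,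
  0)]⟩),(⟨0,[(9,0),(30,0)]⟩,⟨0,[(36,0)]⟩),⟨1,[(9,0),(10,0),(18,0),(10,0)]⟩,.k,.k,(.r (-1) ⟨0,[(24,
  0),(0,0)]⟩ ⟨2,[(0,0),(3,0),(37,2),(2,2)]⟩),(.r (-1) ⟨7,[(5,1),(0,1),(18,2),(12,1),(14,0),(1,0)]⟩
  ⟨5,[(0,1),(3,1),(39,2),(0,2),(14,5)]⟩),(.r (-1) ⟨1,[(5,1),(17,0),(31,0)]⟩ ⟨2,[(0,1),(3,1),(39,2),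
  (0,2),(14,2)]⟩),.k,⟨true,0,⟨3,[(3,0),(11,0),(1,1),(4,0),(4,0),(17,1)]⟩,⟨2,[(0,0),(3,0),(19,2)]⟩⟩,
  ⟨false,0,⟨0,[(1,0),(39,0)]⟩,⟨3,[(4,0),(1,0),(27,1),(2,1),(6,3),(15,2)]⟩⟩,⟨false,0,⟨0,[(42,0),(2,
  0)]⟩,⟨2,[(1,0),(1,0),(0,0),(7,1),(2,0),(2,0),(14,0)]⟩⟩,⟨false,0,⟨3,[(0,1),(36,0),(0,2),(14,0)]⟩,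
  ⟨0,[(3,0)]⟩⟩,⟨false,0,⟨2,[(0,0),(3,0),(37,2),(2,2)]⟩,⟨5,[(1,1),(1,3),(1,0),(6,2),(2,1),(2,1),(5,
  0),(8,1)]⟩⟩,⟨true,(-1),⟨0,[(0,0)]⟩,⟨0,[(3,0),(51,0)]⟩⟩,[.o ⟨false,0,⟨2,[(0,0),(3,0),(38,2)]⟩,⟨1,
  [(27,1),(25,0),(4,0)]⟩⟩,.a ⟨true,0,⟨2,[(0,0),(3,0),(19,2),(16,2)]⟩,⟨0,[(27,0)]⟩⟩ ⟨true,0,⟨1,[(44,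
  0),(0,0)]⟩,⟨0,[]⟩⟩ ⟨false,0,⟨2,[(0,0),(0,0),(10,1),(5,0),(12,0),(1,0)]⟩,⟨1,[(6,0),(21,0),(3,0),(1,
  0),(2,0)]⟩⟩,.o ⟨false,1,⟨3,[(4,0),(1,0),(27,1),(2,1),(22,2)]⟩,⟨0,[(7,0)]⟩⟩,.o ⟨false,1,⟨0,[(34,0),
  (2,0),(6,0)]⟩,⟨0,[(1,0)]⟩⟩]⟩) (.Q [0,0,0,0,0,1,0,0,0,0,-1,1] (.p true [1,0,-1,0,1] [1] (⟨0,[(40,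
  0),(5,0)]⟩,⟨0,[(16,0)]⟩) .k 1 (⟨0,[]⟩,⟨0,[]⟩) .k (.r 0 ⟨4,[(18,0),(5,3),(27,1),(3,0)]⟩ ⟨3,[(28,1),
  (5,1),(7,1),(10,0),(4,2)]⟩)) (.Q [0,0,1,0,1,0,1,0,-1,-1,1,-1] (.p false [1,0,-1,0,1] [] (⟨0,[(41,
  0),(5,0)]⟩,⟨0,[(17,0)]⟩) .k 0 (⟨0,[]⟩,⟨0,[]⟩) .k (.r 0 ⟨4,[(19,0),(5,3),(27,1),(3,0)]⟩ ⟨3,[(29,1),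
  (5,1),(7,1),(10,0),(4,2)]⟩)) (.R ⟨0,false,false,false,[0,0,1,0,-1],[0,0,1],[1,0,1],(⟨0,[(18,0)]⟩,
  ⟨0,[(42,0),(5,0)]⟩),(⟨0,[(49,0)]⟩,⟨0,[(48,0)]⟩),⟨0,[(1,0)]⟩,.k,.k,(.r (-1) ⟨6,[(7,1),(11,2),(7,0),
  (6,3),(1,1),(18,0),(4,2)]⟩ ⟨0,[(26,0),(31,0),(3,0)]⟩),.k,.k,.k,⟨true,0,⟨0,[(26,0)]⟩,⟨1,[(19,0),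
  (10,0),(16,0)]⟩⟩,⟨false,0,⟨4,[(6,0),(8,0),(11,0),(5,2),(6,1),(18,0)]⟩,⟨0,[(39,0)]⟩⟩,⟨false,0,⟨0,
  [(26,0)]⟩,⟨9,[(19,5),(16,1),(7,3),(10,0),(3,1),(0,6)]⟩⟩,⟨true,(-1),⟨0,[(33,0)]⟩,⟨0,[(39,0)]⟩⟩,
  ⟨false,0,⟨0,[]⟩,⟨0,[]⟩⟩,⟨false,0,⟨0,[]⟩,⟨0,[]⟩⟩,[.e ⟨false,0,⟨0,[]⟩,⟨1,[(39,0),(0,0),(18,0)]⟩⟩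
  ⟨false,0,⟨0,[(19,0),(20,0)]⟩,⟨10,[(0,4),(5,3),(1,0),(7,0),(3,2),(5,1),(18,5)]⟩⟩,.o ⟨false,1,⟨1,
  [(30,1),(24,0),(4,0)]⟩,⟨0,[(45,0)]⟩⟩,.a ⟨true,1,⟨12,[(0,3),(5,1),(1,1),(7,4),(29,3),(7,2)]⟩,⟨0,
  [(6,0),(10,0),(15,0),(1,0)]⟩⟩ ⟨true,0,⟨1,[(46,0),(0,0)]⟩,⟨2,[(12,0),(20,0),(20,0)]⟩⟩ ⟨false,0,⟨1,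
  [(19,0),(10,0),(2,1),(13,0),(12,1)]⟩,⟨10,[(0,4),(5,3),(1,0),(7,0),(3,2),(5,1),(18,5)]⟩⟩,.o ⟨false,
  1,⟨0,[(0,0)]⟩,⟨2,[(15,1),(20,0),(3,0),(2,0)]⟩⟩]⟩) (.R ⟨0,false,false,true,[0,0,1,0,-1],[1,0,0,0,
  -1],[0,0,1],(⟨0,[(18,0)]⟩,⟨0,[(42,0),(5,0)]⟩),(⟨0,[(41,0)]⟩,⟨0,[(42,0)]⟩),⟨0,[(1,0)]⟩,.k,.k,(.r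
  (-1) ⟨6,[(7,1),(11,2),(7,0),(6,3),(1,1),(18,0),(4,2)]⟩ ⟨0,[(26,0),(31,0),(3,0)]⟩),.k,.k,.k,⟨true,
  0,⟨1,[(46,0),(0,0)]⟩,⟨0,[]⟩⟩,⟨false,0,⟨0,[(43,0)]⟩,⟨2,[(23,0),(15,0),(0,0),(5,0),(8,0)]⟩⟩,⟨true,0,
  ⟨0,[(26,0),(35,0)]⟩,⟨0,[(19,0)]⟩⟩,⟨false,0,⟨0,[(26,0),(16,0)]⟩,⟨1,[(30,1),(24,0),(4,0)]⟩⟩,⟨false,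
  0,⟨0,[]⟩,⟨0,[]⟩⟩,⟨false,0,⟨0,[]⟩,⟨0,[]⟩⟩,[.o ⟨false,1,⟨0,[(39,0)]⟩,⟨4,[(10,1),(4,1),(20,0),(3,
  0)]⟩⟩,.a ⟨true,1,⟨1,[(6,0),(1,0),(53,0)]⟩,⟨0,[(33,0)]⟩⟩ ⟨false,1,⟨1,[(39,0),(0,0),(19,0)]⟩,⟨2,
  [(12,0),(20,0),(20,0)]⟩⟩ ⟨true,0,⟨5,[(0,2),(1,0),(3,1),(40,2)]⟩,⟨0,[(24,0),(1,0),(31,0)]⟩⟩,.a
  ⟨true,1,⟨1,[(16,0),(22,0),(6,0)]⟩,⟨1,[(0,1),(45,0),(0,0)]⟩⟩ ⟨true,0,⟨1,[(46,0),(0,0)]⟩,⟨2,[(12,0),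
  (20,0),(20,0)]⟩⟩ ⟨false,0,⟨5,[(0,2),(1,0),(3,1),(40,2)]⟩,⟨2,[(23,0),(15,0),(0,0),(5,0),(8,0)]⟩⟩,
  .a ⟨true,1,⟨0,[(39,0),(6,0)]⟩,⟨0,[(0,0)]⟩⟩ ⟨false,1,⟨1,[(39,0),(0,0),(19,0)]⟩,⟨0,[]⟩⟩ ⟨true,0,⟨0,
  [(43,0)]⟩,⟨0,[(24,0),(1,0),(31,0)]⟩⟩]⟩)) (.Q [0,0,-1,0,-1,0,-1,0,1,1,-1,1] (.p true [1,0,-1,0,1]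
  [] (⟨0,[(41,0),(5,0)]⟩,⟨0,[(17,0)]⟩) .k 0 (⟨0,[]⟩,⟨0,[]⟩) .k (.r 0 ⟨4,[(19,0),(5,3),(27,1),(3,
  0)]⟩ ⟨3,[(29,1),(5,1),(7,1),(10,0),(4,2)]⟩)) (.R ⟨1,false,false,true,[0,0,1,0,-1],[1,0,0,0,-1],[0,
  0,0,0,0,0,0,1],(⟨0,[(18,0)]⟩,⟨0,[(42,0),(5,0)]⟩),(⟨0,[(41,0)]⟩,⟨0,[(42,0)]⟩),⟨0,[(1,0)]⟩,.k,.k,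
  (.r (-1) ⟨6,[(7,1),(11,2),(7,0),(6,3),(1,1),(18,0),(4,2)]⟩ ⟨0,[(26,0),(31,0),(3,0)]⟩),.k,.k,.k,
  ⟨true,0,⟨1,[(19,0),(10,0),(16,0)]⟩,⟨0,[(26,0)]⟩⟩,⟨false,0,⟨0,[(43,0)]⟩,⟨2,[(23,0),(15,0),(0,0),(5,
  0),(8,0)]⟩⟩,⟨true,0,⟨0,[(62,0)]⟩,⟨0,[]⟩⟩,⟨false,0,⟨0,[(26,0),(16,0)]⟩,⟨1,[(30,1),(24,0),(4,0)]⟩⟩,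
  ⟨false,0,⟨0,[(58,0)]⟩,⟨2,[(2,0),(5,0),(31,1),(14,0)]⟩⟩,⟨false,0,⟨6,[(0,2),(5,2),(19,4),(9,0),(8,
  1),(8,1),(3,3)]⟩,⟨1,[(29,1),(25,0),(4,0)]⟩⟩,[.o ⟨false,1,⟨0,[(39,0)]⟩,⟨4,[(10,1),(4,1),(20,0),(3,
  0)]⟩⟩,.a ⟨true,1,⟨1,[(6,0),(1,0),(53,0)]⟩,⟨0,[(33,0)]⟩⟩ ⟨false,1,⟨9,[(19,5),(16,1),(7,3),(10,0),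
  (3,1),(0,6)]⟩,⟨4,[(20,0),(5,3),(27,1),(3,0)]⟩⟩ ⟨true,0,⟨5,[(0,2),(1,0),(3,1),(40,2)]⟩,⟨0,[(24,0),
  (1,0),(31,0)]⟩⟩,.a ⟨true,1,⟨1,[(16,0),(22,0),(6,0)]⟩,⟨1,[(0,1),(45,0),(0,0)]⟩⟩ ⟨true,0,⟨1,[(19,0),
  (10,0),(16,0)]⟩,⟨4,[(20,0),(5,3),(27,1),(3,0)]⟩⟩ ⟨false,0,⟨5,[(0,2),(1,0),(3,1),(40,2)]⟩,⟨2,[(23,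
  0),(15,0),(0,0),(5,0),(8,0)]⟩⟩,.a ⟨true,1,⟨0,[(39,0),(6,0)]⟩,⟨0,[(0,0)]⟩⟩ ⟨false,1,⟨9,[(19,5),(16,
  1),(7,3),(10,0),(3,1),(0,6)]⟩,⟨0,[(26,0)]⟩⟩ ⟨true,0,⟨0,[(43,0)]⟩,⟨0,[(24,0),(1,0),(31,0)]⟩⟩]⟩)
  (.S ⟨1,0,[0,0,0,0,0,0,0,1],[0,0,1,0,-1],[1,-1,0,-1,0,0,0,1],(⟨0,[(18,0)]⟩,⟨0,[(42,0),(5,0)]⟩),⟨0,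
  [(1,0)]⟩,.k,(.r (-1) ⟨6,[(7,1),(11,2),(7,0),(6,3),(1,1),(18,0),(4,2)]⟩ ⟨0,[(26,0),(31,0),(3,0)]⟩),
  ⟨false,1,⟨2,[(2,0),(5,0),(31,1),(14,0)]⟩,⟨0,[(58,0)]⟩⟩,⟨true,0,⟨0,[(62,0)]⟩,⟨0,[]⟩⟩,⟨true,0,⟨0,
  []⟩,⟨0,[(62,0)]⟩⟩,⟨false,0,⟨0,[(58,0)]⟩,⟨2,[(2,0),(5,0),(31,1),(14,0)]⟩⟩,[.o ⟨false,1,⟨0,[(0,0),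
  (18,0)]⟩,⟨9,[(10,0),(3,4),(0,0),(1,4),(18,2),(3,2),(4,4)]⟩⟩,.e ⟨false,1,⟨2,[(7,1),(11,1),(9,0),
  (17,0),(12,0)]⟩,⟨0,[(26,0),(27,0),(3,0)]⟩⟩ ⟨false,1,⟨9,[(19,5),(16,1),(7,3),(10,0),(3,1),(0,6)]⟩,
  ⟨4,[(20,0),(5,3),(27,1),(3,0)]⟩⟩,.a ⟨true,1,⟨12,[(0,3),(5,1),(1,1),(7,4),(29,3),(7,2)]⟩,⟨0,[(6,0),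
  (10,0),(15,0),(1,0)]⟩⟩ ⟨false,1,⟨2,[(7,0),(11,0),(9,1),(17,1),(12,1)]⟩,⟨4,[(20,0),(5,3),(27,1),(3,
  5)]⟩⟩ ⟨true,0,⟨1,[(19,0),(10,0),(16,0)]⟩,⟨4,[(20,0),(5,3),(27,1),(3,0)]⟩⟩,.o ⟨false,1,⟨0,[(0,0)]⟩,
  ⟨2,[(15,1),(20,0),(3,0),(2,0)]⟩⟩]⟩)))) (.R ⟨1,false,false,false,[2,0,-1,0,-1],[0,0,1],[1,-1,0,-1,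
  0,0,0,-1],(⟨0,[(8,0),(40,0)]⟩,⟨0,[(10,0)]⟩),(⟨0,[(46,0)]⟩,⟨0,[(45,0)]⟩),⟨1,[(8,0),(10,0),(18,0),
  (10,0)]⟩,.k,.k,(.r (-1) ⟨0,[(23,0),(0,0)]⟩ ⟨0,[(41,0),(2,0),(10,0)]⟩),.k,(.r (-1) ⟨3,[(4,0),(6,0),
  (5,1),(5,4),(0,1)]⟩ ⟨1,[(16,0),(10,0),(13,1),(2,2),(10,1)]⟩),.k,⟨false,1,⟨3,[(4,0),(6,0),(5,1),(5,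
  4),(0,1)]⟩,⟨0,[(16,0),(24,0),(2,0),(10,0)]⟩⟩,⟨true,0,⟨0,[(1,0)]⟩,⟨0,[(0,0),(31,0)]⟩⟩,⟨false,1,⟨6,
  [(4,1),(0,3),(1,0),(29,2),(6,0),(7,0),(1,0)]⟩,⟨0,[(55,0)]⟩⟩,⟨false,0,⟨0,[(7,0),(8,0),(10,0)]⟩,⟨3,
  [(0,2),(1,0),(8,2),(5,1),(5,0),(8,0),(0,0),(8,1)]⟩⟩,⟨true,0,⟨0,[]⟩,⟨0,[(59,0)]⟩⟩,⟨false,0,⟨0,[(7,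
  0),(8,0),(10,0),(27,0)]⟩,⟨14,[(0,4),(1,10),(8,3),(5,7),(5,10),(9,8),(3,0),(4,6)]⟩⟩,[.e ⟨false,1,
  ⟨0,[(23,0),(0,0)]⟩,⟨4,[(16,1),(24,2),(2,2),(6,0),(3,4)]⟩⟩ ⟨false,0,⟨0,[(1,0),(14,0)]⟩,⟨7,[(0,5),
  (4,1),(5,1),(21,1),(2,0),(0,0),(4,5),(13,2)]⟩⟩,.o ⟨false,1,⟨1,[(27,1),(24,0),(4,0)]⟩,⟨0,[(42,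
  0)]⟩⟩,.o ⟨false,1,⟨5,[(0,1),(32,1),(2,4),(0,0),(18,0)]⟩,⟨0,[(6,0)]⟩⟩,.a ⟨true,0,⟨0,[(0,0)]⟩,⟨4,
  [(1,1),(1,0),(8,0),(5,0),(5,0),(5,2)]⟩⟩ ⟨false,1,⟨3,[(2,2),(0,0),(2,1),(4,1),(2,1),(2,1),(14,1)]⟩,
  ⟨0,[(41,0),(2,0),(10,0)]⟩⟩ ⟨true,0,⟨0,[(1,0),(14,0)]⟩,⟨0,[(0,0),(41,0)]⟩⟩]⟩))))))) (.R ⟨0,false,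
  false,false,[-1,0,1,0,1],[0,1],[1,0,1,1],(⟨0,[(4,0)]⟩,⟨0,[(2,0),(40,0)]⟩),(⟨0,[(44,0)]⟩,⟨0,[(43,
  0)]⟩),⟨0,[(2,0)]⟩,.k,.k,(.r 0 ⟨2,[(10,0),(4,0),(0,0),(8,0),(1,0)]⟩ ⟨1,[(5,1),(31,0),(0,0),(14,
  1)]⟩),(.r 0 ⟨2,[(10,0),(4,0),(0,0),(8,0),(1,0)]⟩ ⟨1,[(5,1),(31,0),(0,0),(14,1)]⟩),.k,.k,⟨true,0,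
  ⟨0,[]⟩,⟨1,[(37,0),(0,0)]⟩⟩,⟨false,1,⟨2,[(0,0),(2,1),(23,0),(22,0)]⟩,⟨1,[(1,0),(29,0),(5,0)]⟩⟩,
  ⟨false,1,⟨1,[(5,1),(31,0),(0,0)]⟩,⟨2,[(10,0),(4,0),(0,0),(8,0),(1,0)]⟩⟩,⟨true,1,⟨1,[(0,0),(2,0),
  (1,0),(11,0),(20,0),(10,0)]⟩,⟨0,[(15,0),(8,0)]⟩⟩,⟨false,0,⟨0,[]⟩,⟨0,[]⟩⟩,⟨false,0,⟨0,[]⟩,⟨0,[]⟩⟩,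
  [.e ⟨false,0,⟨0,[(49,0)]⟩,⟨1,[(18,0),(11,0),(0,0),(16,0)]⟩⟩ ⟨false,1,⟨5,[(0,1),(2,0),(23,1),(2,2),
  (18,5),(0,1)]⟩,⟨1,[(1,0),(6,0),(9,0),(18,0)]⟩⟩,.o ⟨false,1,⟨1,[(46,0),(2,1),(1,0)]⟩,⟨0,[(48,0)]⟩⟩,
  .a ⟨true,0,⟨8,[(1,2),(3,1),(0,0),(1,1),(5,1),(6,1),(2,1),(6,0)]⟩,⟨0,[(0,0)]⟩⟩ ⟨true,0,⟨1,[(37,0),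
  (0,0),(10,1)]⟩,⟨0,[(47,0)]⟩⟩ ⟨false,1,⟨3,[(0,1),(2,0),(26,0),(7,1),(10,3),(1,1)]⟩,⟨1,[(1,0),(6,0),
  (9,0),(18,0)]⟩⟩,.o ⟨false,0,⟨0,[(1,0)]⟩,⟨5,[(0,1),(2,0),(23,1),(2,2),(19,1)]⟩⟩]⟩))))) (.Q [0,-1,0,
  0,1,0,0,0,-1,1,0,-1] (.p false [0,0,0,0,1] [1] (⟨0,[(29,0)]⟩,⟨0,[(28,0)]⟩) .k 1 (⟨0,[]⟩,⟨0,[]⟩)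
  .k .k) (.R ⟨1,false,false,true,[0,0,1,0,1],[0,0,0,0,1],[0,1,0,0,0,0,0,1],(⟨0,[(30,0),(6,0)]⟩,⟨0,
  [(1,0)]⟩),(⟨0,[(30,0)]⟩,⟨0,[(29,0)]⟩),⟨0,[(26,0),(3,0)]⟩,.k,.k,(.r 0 ⟨2,[(7,0),(4,0),(0,0),(8,0),
  (1,0)]⟩ ⟨1,[(2,1),(31,0),(0,0),(14,1)]⟩),.k,.k,.k,⟨false,1,⟨9,[(7,5),(16,1),(7,3),(10,0),(3,1),(0,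
  6)]⟩,⟨4,[(8,0),(5,3),(27,1),(3,0)]⟩⟩,⟨true,0,⟨0,[(23,0)]⟩,⟨0,[(34,0)]⟩⟩,⟨false,1,⟨3,[(0,1),(27,1),
  (14,0),(4,0)]⟩,⟨0,[]⟩⟩,⟨true,0,⟨0,[(33,0)]⟩,⟨0,[(18,0)]⟩⟩,⟨true,0,⟨0,[(46,0)]⟩,⟨0,[(45,0)]⟩⟩,
  ⟨true,0,⟨0,[(33,0),(12,0)]⟩,⟨0,[(17,0)]⟩⟩,[.e ⟨false,0,⟨4,[(7,3),(24,0),(2,0),(6,1)]⟩,⟨5,[(0,0),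
  (1,0),(8,0),(2,2),(0,0),(12,0),(4,1),(14,1)]⟩⟩ ⟨false,0,⟨0,[(23,0),(18,0)]⟩,⟨0,[(2,0),(14,0)]⟩⟩,
  .a ⟨true,(-1),⟨0,[(21,0)]⟩,⟨0,[(0,0)]⟩⟩ ⟨true,0,⟨1,[(7,0),(10,0),(16,0)]⟩,⟨0,[(14,0)]⟩⟩ ⟨false,0,
  ⟨2,[(13,0),(9,2),(18,0),(3,0)]⟩,⟨2,[(0,0),(10,0),(16,0),(5,0),(13,0)]⟩⟩,.o ⟨false,0,⟨0,[(3,0),(30,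
  0)]⟩,⟨0,[(19,0),(15,0)]⟩⟩,.o ⟨false,0,⟨1,[(3,1),(30,2),(0,0)]⟩,⟨0,[(19,0),(3,0)]⟩⟩]⟩) (.R ⟨1,
  false,false,true,[0,0,1],[1,0,0,0,-1],[0,0,0,0,0,0,0,1],(⟨0,[(37,0)]⟩,⟨0,[(36,0)]⟩),(⟨0,[(29,0)]⟩,
  ⟨0,[(30,0)]⟩),⟨0,[(26,0)]⟩,.k,.k,.k,.k,(.r 0 ⟨2,[(7,0),(4,0),(0,0),(8,0),(1,0)]⟩ ⟨1,[(2,1),(31,0),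
  (0,0),(14,1)]⟩),.k,⟨true,0,⟨1,[(7,0),(10,0),(16,0)]⟩,⟨0,[(14,0)]⟩⟩,⟨false,1,⟨0,[(27,0),(3,0)]⟩,⟨2,
  [(0,1),(10,0),(16,0),(5,0),(13,0)]⟩⟩,⟨false,1,⟨1,[(27,0),(0,0),(19,0)]⟩,⟨0,[]⟩⟩,⟨true,1,⟨0,[(14,
  0),(12,0),(3,0)]⟩,⟨0,[(0,0),(17,0)]⟩⟩,⟨true,0,⟨0,[(46,0)]⟩,⟨0,[(45,0)]⟩⟩,⟨true,1,⟨0,[(14,0),(12,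
  0),(3,0),(14,0)]⟩,⟨0,[(0,0),(16,0)]⟩⟩,[.o ⟨false,1,⟨0,[(27,0)]⟩,⟨3,[(0,1),(27,1),(14,0),(4,0)]⟩⟩,
  .o ⟨false,2,⟨1,[(27,2),(0,0),(19,0)]⟩,⟨0,[(0,0)]⟩⟩,.o ⟨false,1,⟨2,[(11,0),(15,0),(0,0),(5,0),(8,
  0)]⟩,⟨0,[(23,0)]⟩⟩,.a ⟨true,0,⟨0,[(34,0)]⟩,⟨0,[(31,0)]⟩⟩ ⟨false,1,⟨9,[(7,5),(16,1),(7,3),(10,0),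
  (3,1),(0,6)]⟩,⟨0,[(14,0)]⟩⟩ ⟨true,1,⟨0,[(27,0),(3,0)]⟩,⟨0,[(0,0),(33,0)]⟩⟩]⟩)))) (.Q [0,0,0,0,0,0,
  1,0,1,-1,1,1] (.p true [0,0,1] [1,0,0,0,-1] (⟨0,[(34,0)]⟩,⟨0,[(33,0)]⟩) .k 2 (⟨0,[(26,0)]⟩,⟨0,
  [(27,0)]⟩) .k (.r 0 ⟨4,[(4,1),(24,2),(2,2),(6,0)]⟩ ⟨1,[(11,1),(32,0),(0,0)]⟩)) (.R ⟨1,false,false,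
  false,[1,0,0,0,-1],[0,0,1],[],(⟨0,[(27,0)]⟩,⟨0,[(28,0)]⟩),(⟨0,[(35,0)]⟩,⟨0,[(34,0)]⟩),⟨1,[(4,0),
  (3,0),(18,0)]⟩,.k,.k,(.r (-1) ⟨1,[(13,0),(29,0),(2,0)]⟩ ⟨1,[(32,0),(0,0),(10,1),(3,1)]⟩),.k,(.r
  (-1) ⟨0,[(12,0),(0,0)]⟩ ⟨0,[(30,0),(2,0),(10,0)]⟩),.k,⟨false,1,⟨0,[(12,0),(32,0)]⟩,⟨1,[(5,0),(10,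
  0),(16,0)]⟩⟩,⟨true,0,⟨0,[(0,0)]⟩,⟨0,[(1,0),(19,0)]⟩⟩,⟨true,0,⟨0,[(48,0)]⟩,⟨0,[]⟩⟩,⟨false,0,⟨1,[(0,
  1),(4,0),(10,0),(16,0)]⟩,⟨1,[(1,1),(4,0),(14,0),(9,0),(12,0),(1,1)]⟩⟩,⟨false,0,⟨0,[(44,0)]⟩,⟨0,
  [(43,0),(2,0)]⟩⟩,⟨false,0,⟨1,[(0,1),(4,0),(10,0),(16,0),(10,1)]⟩,⟨0,[(1,0),(4,0),(26,0),(12,0)]⟩⟩,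
  [.e ⟨false,1,⟨1,[(25,0),(0,0),(18,0)]⟩,⟨0,[]⟩⟩ ⟨false,0,⟨0,[(0,0),(4,0)]⟩,⟨1,[(1,1),(29,1),(13,0),
  (0,0)]⟩⟩,.o ⟨false,1,⟨1,[(16,1),(24,0),(4,0)]⟩,⟨0,[(31,0)]⟩⟩,.o ⟨false,1,⟨0,[(25,0)]⟩,⟨1,[(19,1),
  (21,0),(4,0)]⟩⟩,.a ⟨true,0,⟨0,[(1,0)]⟩,⟨1,[(13,0),(5,0),(6,0),(17,0)]⟩⟩ ⟨false,1,⟨1,[(45,0),(0,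
  0)]⟩,⟨1,[(32,0),(0,0)]⟩⟩ ⟨true,0,⟨0,[(0,0),(4,0)]⟩,⟨0,[(1,0),(29,0)]⟩⟩]⟩) (.Q [0,0,0,0,0,0,0,0,0,
  1,-1,-1] (.ed true [0,0,1,0,1] (.r 0 ⟨4,[(5,1),(24,2),(2,2),(6,0)]⟩ ⟨1,[(12,1),(32,0),(0,0)]⟩))
  (.R ⟨1,false,false,false,[1,0,0,0,-1],[1,0,-1,0,-1],[],(⟨0,[(28,0)]⟩,⟨0,[(29,0)]⟩),(⟨0,[(0,0)]⟩,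
  ⟨0,[(29,0),(6,0)]⟩),⟨1,[(5,0),(3,0),(18,0)]⟩,.k,.k,(.r (-1) ⟨1,[(14,0),(29,0),(2,0)]⟩ ⟨1,[(33,0),
  (0,0),(10,1),(3,1)]⟩),.k,.k,.k,⟨false,0,⟨4,[(6,3),(24,0),(2,0),(6,1)]⟩,⟨1,[(13,1),(32,0),(0,0)]⟩⟩,
  ⟨true,0,⟨0,[(22,0)]⟩,⟨0,[(33,0)]⟩⟩,⟨true,0,⟨0,[(49,0)]⟩,⟨0,[]⟩⟩,⟨false,1,⟨0,[(32,0),(14,0)]⟩,⟨0,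
  [(17,0)]⟩⟩,⟨false,0,⟨0,[(45,0)]⟩,⟨0,[(44,0),(2,0)]⟩⟩,⟨false,1,⟨0,[(32,0),(12,0),(1,0)]⟩,⟨0,[(16,
  0)]⟩⟩,[.e ⟨false,1,⟨1,[(26,0),(0,0),(18,0)]⟩,⟨0,[]⟩⟩ ⟨false,1,⟨1,[(7,0),(14,0),(9,0),(12,0),(1,
  1)]⟩,⟨0,[(31,0)]⟩⟩,.o ⟨false,2,⟨3,[(1,1),(11,1),(4,1),(13,1),(9,0),(4,4)]⟩,⟨0,[(11,0),(8,0),(24,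
  0)]⟩⟩,.o ⟨false,1,⟨0,[(26,0)]⟩,⟨1,[(20,1),(21,0),(4,0)]⟩⟩,.a ⟨true,0,⟨0,[(2,0)]⟩,⟨1,[(14,0),(5,0),
  (6,0),(17,0)]⟩⟩ ⟨false,1,⟨1,[(46,0),(0,0)]⟩,⟨1,[(33,0),(0,0)]⟩⟩ ⟨true,1,⟨1,[(7,0),(14,0),(9,0),
  (12,0),(1,1)]⟩,⟨0,[(2,0),(8,0),(8,0),(24,0)]⟩⟩]⟩) (.R ⟨1,false,false,true,[1,0,0,0,-1],[2,0,-1,0,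
  -1],[],(⟨0,[(28,0)]⟩,⟨0,[(29,0)]⟩),(⟨0,[(28,0),(6,0)]⟩,⟨0,[(0,0)]⟩),⟨1,[(5,0),(3,0),(18,0)]⟩,.k,
  .k,(.r (-1) ⟨1,[(14,0),(29,0),(2,0)]⟩ ⟨1,[(33,0),(0,0),(10,1),(3,1)]⟩),.k,.k,.k,⟨true,0,⟨1,[(6,0),
  (10,0),(16,0)]⟩,⟨0,[(13,0)]⟩⟩,⟨false,0,⟨0,[(30,0)]⟩,⟨2,[(10,0),(15,0),(0,0),(5,0),(8,0)]⟩⟩,⟨true,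
  0,⟨0,[(49,0)]⟩,⟨0,[]⟩⟩,⟨false,0,⟨0,[(13,0),(16,0)]⟩,⟨1,[(17,1),(24,0),(4,0)]⟩⟩,⟨false,0,⟨0,[(45,
  0)]⟩,⟨0,[(44,0),(2,0)]⟩⟩,⟨false,0,⟨0,[(13,0),(16,0),(14,0)]⟩,⟨1,[(16,1),(25,0),(4,0)]⟩⟩,[.e
  ⟨false,1,⟨1,[(26,0),(0,0),(18,0)]⟩,⟨0,[]⟩⟩ ⟨false,0,⟨1,[(1,0),(5,0),(5,0),(6,0),(9,0),(14,0),(1,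
  0)]⟩,⟨1,[(31,1),(10,0),(4,0)]⟩⟩,.o ⟨false,1,⟨2,[(1,1),(1,0),(9,1),(16,0),(1,0),(14,1)]⟩,⟨0,[(17,
  0),(2,0),(21,0)]⟩⟩,.o ⟨false,1,⟨0,[(26,0)]⟩,⟨1,[(20,1),(21,0),(4,0)]⟩⟩,.a ⟨true,0,⟨0,[(2,0)]⟩,⟨1,
  [(14,0),(5,0),(6,0),(17,0)]⟩⟩ ⟨false,1,⟨1,[(46,0),(0,0)]⟩,⟨1,[(33,0),(0,0)]⟩⟩ ⟨true,0,⟨1,[(1,0),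
  (5,0),(5,0),(6,0),(9,0),(14,0),(1,0)]⟩,⟨1,[(11,1),(21,0),(0,0),(10,1)]⟩⟩]⟩))))) (.R ⟨1,false,
  false,true,[0,0,1],[0,0,1,0,-1],[1,0,0,0,0,0,0,1],(⟨0,[(32,0)]⟩,⟨0,[(31,0)]⟩),(⟨0,[(1,0)]⟩,⟨0,
  [(25,0),(5,0)]⟩),⟨0,[(21,0)]⟩,.k,.k,.k,.k,(.r 0 ⟨0,[(39,0)]⟩ ⟨1,[(0,1),(22,1),(5,0),(0,0)]⟩),.k,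
  ⟨true,0,⟨0,[]⟩,⟨1,[(29,0),(0,0)]⟩⟩,⟨false,1,⟨0,[(14,0)]⟩,⟨0,[(23,0)]⟩⟩,⟨true,0,⟨0,[]⟩,⟨0,[(45,
  0)]⟩⟩,⟨true,1,⟨0,[(22,0)]⟩,⟨0,[(16,0)]⟩⟩,⟨true,0,⟨0,[(41,0)]⟩,⟨0,[(40,0)]⟩⟩,⟨false,1,⟨0,[(0,0)]⟩,
  ⟨0,[(16,0),(23,0),(2,0)]⟩⟩,[.o ⟨false,1,⟨0,[(0,0),(6,0)]⟩,⟨0,[(16,0),(11,0),(14,0)]⟩⟩,.a ⟨true,1,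
  ⟨0,[(0,0),(11,0)]⟩,⟨0,[(9,0),(6,0),(9,0)]⟩⟩ ⟨false,1,⟨9,[(2,5),(16,1),(7,3),(10,0),(3,1),(0,6)]⟩,
  ⟨4,[(3,0),(5,3),(27,1),(3,0)]⟩⟩ ⟨true,1,⟨0,[(0,0),(11,0),(5,0)]⟩,⟨0,[(9,0),(6,0)]⟩⟩,.o ⟨false,1,
  ⟨2,[(6,0),(15,0),(0,0),(5,0),(8,0)]⟩,⟨0,[(18,0)]⟩⟩,.e ⟨true,0,⟨0,[(2,0)]⟩,⟨0,[(9,0),(35,0)]⟩⟩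
  ⟨true,1,⟨0,[(2,0),(19,0)]⟩,⟨0,[(9,0),(6,0)]⟩⟩]⟩)))

theorem ok19 : chk K t19 r20 = true := by decide +kernel

noncomputable def t22 : Tre :=
  (.K ⟨0,[1,-1,-1],(-1),0,(⟨0,[(16,0)]⟩,⟨0,[(28,0),(0,0)]⟩),.k,(.r (-1) ⟨1,[(4,0),(0,1),(0,1),(29,
  0)]⟩ ⟨1,[(9,1),(15,0),(0,2),(10,3)]⟩),.k,(.r (-1) ⟨1,[(4,0),(0,3),(0,0),(31,0)]⟩ ⟨0,[(9,1),(4,0),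
  (11,0),(10,0)]⟩),.k,[⟨0,[(2,0)]⟩,⟨0,[(0,0)]⟩,⟨0,[(3,0),(33,1)]⟩,⟨0,[(5,0),(16,0),(13,0)]⟩]⟩)

theorem ok22 : chk K t22 r18 = true := by decide +kernel

noncomputable def t25 : Tre :=
  (.Q [0,0,0,0,0,2,0,0,0,-1,1] (.p true [0,0,1] [1] (⟨0,[(26,0)]⟩,⟨0,[(25,0)]⟩) .k 1 (⟨0,[]⟩,⟨0,
  []⟩) .k .k) (.R ⟨0,false,false,true,[1,-1,-1],[0,-1,1],[1,0,1],(⟨0,[(15,0)]⟩,⟨0,[(0,0),(29,0)]⟩),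
  (⟨0,[(16,0)]⟩,⟨1,[(0,0),(25,2)]⟩),⟨0,[(0,0)]⟩,.k,.k,(.r (-1) ⟨1,[(3,0),(0,1),(0,1),(29,0)]⟩ ⟨1,
  [(8,1),(15,0),(0,2),(10,3)]⟩),.k,.k,.k,⟨false,1,⟨1,[(4,1),(12,0),(0,0),(17,1),(1,0)]⟩,⟨5,[(1,1),
  (0,0),(0,4),(2,1),(1,4),(5,0)]⟩⟩,⟨true,1,⟨0,[(6,0),(17,1)]⟩,⟨0,[(1,0)]⟩⟩,⟨false,0,⟨1,[(1,1),(6,1),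
  (15,1),(8,0),(2,1),(1,0)]⟩,⟨1,[(3,0),(0,1),(0,0),(31,0)]⟩⟩,⟨true,0,⟨0,[(2,0),(5,0),(27,0)]⟩,⟨2,
  [(1,1),(1,0),(0,4),(0,1),(15,0),(1,0),(12,2)]⟩⟩,⟨false,0,⟨0,[]⟩,⟨0,[]⟩⟩,⟨false,0,⟨0,[]⟩,⟨0,[]⟩⟩,
  [.o ⟨false,0,⟨0,[(2,0)]⟩,⟨0,[(23,0),(12,0),(1,0)]⟩⟩,.a ⟨true,0,⟨0,[(7,0)]⟩,⟨0,[(4,0),(16,0),(14,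
  0)]⟩⟩ ⟨false,1,⟨1,[(17,0),(0,0),(19,0)]⟩,⟨2,[(3,0),(28,0),(3,0)]⟩⟩ ⟨true,1,⟨1,[(2,0),(2,0),(0,0),
  (1,0),(15,1)]⟩,⟨0,[(1,0),(2,0),(31,0)]⟩⟩,.o ⟨false,0,⟨0,[(25,0)]⟩,⟨0,[(6,0),(17,0)]⟩⟩,.e ⟨true,0,
  ⟨0,[]⟩,⟨0,[(40,0)]⟩⟩ ⟨true,1,⟨1,[(3,0),(2,1),(1,0),(3,0),(11,1)]⟩,⟨0,[(1,0),(2,0),(31,0)]⟩⟩]⟩)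
  (.Q [0,0,0,0,0,0,0,0,0,0,-1,1] (.ed false [1,0,-1,0,1] (.r 0 ⟨2,[(3,0),(0,2),(27,0),(3,0)]⟩ ⟨3,
  [(8,1),(5,1),(7,1),(10,0),(4,2)]⟩)) (.Q [0,-1,0,1,1,0,1,1,-1,0,1,-1] (.p false [0,0,-1,0,1] []
  (⟨0,[(0,0)]⟩,⟨0,[(20,0),(7,0)]⟩) .k 0 (⟨0,[]⟩,⟨0,[]⟩) .k (.r 0 ⟨2,[(4,0),(0,2),(27,0),(3,0)]⟩ ⟨3,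
  [(9,1),(5,1),(7,1),(10,0),(4,2)]⟩)) (.Q [0,0,0,0,0,1,0,0,0,-1,0,1] (.ed false [0,1,0,0,1] .k) (.R
  ⟨0,false,false,true,[1,0,0,0,-1],[2,-1,0,0,-1],[0,0,0,-1],(⟨0,[(22,0)]⟩,⟨0,[(23,0)]⟩),(⟨0,[(22,0),
  (10,0)]⟩,⟨0,[(0,0)]⟩),⟨0,[(0,0)]⟩,.k,(.r (-1) ⟨1,[(8,0),(29,0),(2,0)]⟩ ⟨1,[(27,0),(0,0),(10,1),(3,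
  1)]⟩),(.r (-1) ⟨1,[(8,0),(29,0),(2,0)]⟩ ⟨1,[(27,0),(0,0),(10,1),(3,1)]⟩),.k,.k,.k,⟨true,0,⟨1,[(27,
  0),(0,0)]⟩,⟨0,[]⟩⟩,⟨false,0,⟨0,[(31,0),(1,0)]⟩,⟨1,[(36,0),(3,0)]⟩⟩,⟨true,0,⟨0,[(38,0)]⟩,⟨0,[(39,
  0)]⟩⟩,⟨false,0,⟨0,[(7,0),(2,0),(13,0)]⟩,⟨1,[(36,0),(2,1),(1,0)]⟩⟩,⟨false,0,⟨0,[]⟩,⟨0,[]⟩⟩,⟨false,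
  0,⟨0,[]⟩,⟨0,[]⟩⟩,[.e ⟨false,1,⟨1,[(8,0),(11,0),(0,0),(16,0)]⟩,⟨0,[(39,0)]⟩⟩ ⟨false,0,⟨0,[(4,0),(1,
  0),(1,0),(18,1),(11,0)]⟩,⟨1,[(1,0),(19,0),(4,0),(9,0),(2,0)]⟩⟩,.o ⟨false,1,⟨4,[(1,1),(2,2),(2,5),
  (0,2),(1,3),(1,2),(18,1),(1,1)]⟩,⟨0,[(14,0),(21,0),(2,0)]⟩⟩,.o ⟨false,1,⟨0,[(20,0)]⟩,⟨1,[(14,1),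
  (21,0),(4,0)]⟩⟩,.a ⟨true,0,⟨0,[(1,0),(2,0),(1,0),(0,0),(19,0)]⟩,⟨1,[(8,0),(5,0),(6,0),(17,0)]⟩⟩
  ⟨false,1,⟨1,[(8,0),(29,0),(2,0)]⟩,⟨1,[(27,0),(0,0),(10,1)]⟩⟩ ⟨true,0,⟨0,[(4,0),(1,0),(1,0),(18,1),
  (11,0)]⟩,⟨2,[(4,0),(0,1),(1,1),(28,0),(2,4),(3,0)]⟩⟩]⟩) (.Q [0,2,0,1,-1,0,0,0,1,-1,0,1] (.p true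
  [0,0,0,0,1] [1] (⟨0,[(23,0)]⟩,⟨0,[(22,0)]⟩) .k 1 (⟨0,[]⟩,⟨0,[]⟩) .k .k) (.S ⟨1,0,[0,2,1,1],[0,1,0,
  0,1],[1,1,1],(⟨0,[(24,0),(7,0)]⟩,⟨0,[(1,0)]⟩),⟨0,[(24,0)]⟩,(.r 0 ⟨1,[(28,0),(0,0),(10,1),(3,1)]⟩
  ⟨1,[(9,0),(29,0),(2,0)]⟩),.k,⟨false,1,⟨0,[(39,0),(2,0)]⟩,⟨0,[(40,0)]⟩⟩,⟨true,0,⟨0,[(44,0)]⟩,⟨0,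
  []⟩⟩,⟨true,0,⟨0,[]⟩,⟨0,[(44,0)]⟩⟩,⟨false,0,⟨0,[(40,0)]⟩,⟨0,[(39,0),(2,0)]⟩⟩,[.o ⟨false,(-1),⟨0,
  [(0,0)]⟩,⟨5,[(5,1),(2,3),(0,1),(1,3),(1,1),(7,3),(15,0),(4,4)]⟩⟩,.e ⟨false,0,⟨0,[]⟩,⟨1,[(21,0),(0,
  0),(18,0)]⟩⟩ ⟨false,0,⟨0,[(40,0),(3,0)]⟩,⟨1,[(9,0),(29,0),(2,0)]⟩⟩,.a ⟨true,0,⟨1,[(9,0),(5,0),(6,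
  0),(17,0)]⟩,⟨0,[(2,0),(2,0),(1,0),(0,0),(19,0)]⟩⟩ ⟨false,0,⟨1,[(28,0),(0,0)]⟩,⟨1,[(41,0),(0,0)]⟩⟩
  ⟨true,(-1),⟨0,[(0,0),(1,0),(2,0),(1,0),(0,0),(19,0)]⟩,⟨1,[(9,0),(29,0),(2,0)]⟩⟩,.o ⟨false,0,⟨1,
  [(15,1),(21,0),(4,0)]⟩,⟨0,[(21,0)]⟩⟩]⟩) (.R ⟨1,false,false,false,[1,0,0,0,-1],[1,0,-1],[],(⟨0,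
  [(23,0)]⟩,⟨0,[(24,0)]⟩),(⟨0,[(30,0)]⟩,⟨0,[(31,0)]⟩),⟨0,[(1,0)]⟩,.k,.k,(.r (-1) ⟨1,[(9,0),(29,0),
  (2,0)]⟩ ⟨1,[(28,0),(0,0),(10,1),(3,1)]⟩),.k,(.r (-1) ⟨3,[(9,1),(1,1),(0,1),(5,1),(18,0),(4,0)]⟩
  ⟨0,[(8,0),(31,0),(3,0)]⟩),.k,⟨true,0,⟨5,[(5,1),(4,0),(1,5),(5,0),(18,0)]⟩,⟨0,[(8,0)]⟩⟩,⟨false,0,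
  ⟨4,[(5,1),(4,2),(4,1),(6,2),(2,0),(16,0)]⟩,⟨0,[(13,0),(14,0)]⟩⟩,⟨true,0,⟨0,[(44,0)]⟩,⟨0,[]⟩⟩,
  ⟨false,0,⟨0,[(15,0),(11,0),(14,0)]⟩,⟨2,[(0,0),(1,1),(3,0)]⟩⟩,⟨false,0,⟨0,[(40,0)]⟩,⟨0,[(39,0),(2,
  0)]⟩⟩,⟨false,0,⟨0,[(15,0),(11,0),(12,0),(1,0)]⟩,⟨2,[(0,1),(1,0),(3,1)]⟩⟩,[.e ⟨false,1,⟨1,[(21,0),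
  (0,0),(18,0)]⟩,⟨0,[]⟩⟩ ⟨false,0,⟨2,[(5,0),(2,1),(0,1),(0,0),(4,2),(11,0),(12,1),(1,0)]⟩,⟨1,[(2,0),
  (13,0),(4,0)]⟩⟩,.o ⟨false,1,⟨0,[(27,0),(14,0)]⟩,⟨0,[(6,0),(33,0)]⟩⟩,.o ⟨false,1,⟨0,[(21,0)]⟩,⟨1,
  [(15,1),(21,0),(4,0)]⟩⟩,.a ⟨true,0,⟨0,[(2,0),(2,0),(1,0),(0,0),(19,0)]⟩,⟨1,[(9,0),(5,0),(6,0),(17,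
  0)]⟩⟩ ⟨false,1,⟨1,[(41,0),(0,0)]⟩,⟨1,[(28,0),(0,0)]⟩⟩ ⟨true,0,⟨2,[(5,0),(2,1),(0,1),(0,0),(4,2),
  (11,0),(12,1),(1,0)]⟩,⟨0,[(2,0),(2,0),(0,0),(0,0),(0,0),(19,0),(11,0)]⟩⟩]⟩))) (.Q [0,0,-1,0,0,0,
  -1,0,1,-1,-1,1] (.p true [0,0,-1,0,1] [1] (⟨0,[(1,0)]⟩,⟨0,[(21,0),(7,0)]⟩) .k 1 (⟨0,[]⟩,⟨0,[]⟩)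
  .k (.r 0 ⟨2,[(5,0),(0,2),(27,0),(3,0)]⟩ ⟨3,[(10,1),(5,1),(7,1),(10,0),(4,2)]⟩)) (.R ⟨1,false,
  false,false,[1,0,1,0,-1],[1,0,0,0,-1],[0,0,0,0,0,0,0,1],(⟨0,[(22,0),(7,0)]⟩,⟨0,[(2,0)]⟩),(⟨0,[(22,
  0)]⟩,⟨0,[(23,0)]⟩),⟨0,[(19,0),(2,0)]⟩,.k,.k,(.r (-1) ⟨3,[(8,1),(1,1),(0,1),(5,1),(18,0),(4,0)]⟩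
  ⟨0,[(7,0),(31,0),(3,0)]⟩),.k,.k,.k,⟨false,0,⟨1,[(4,0),(4,0),(1,1),(23,0)]⟩,⟨1,[(7,1),(32,0),(0,
  0)]⟩⟩,⟨true,0,⟨0,[(16,0)]⟩,⟨0,[(27,0)]⟩⟩,⟨true,0,⟨0,[(43,0)]⟩,⟨0,[]⟩⟩,⟨false,1,⟨0,[(26,0),(14,
  0)]⟩,⟨0,[(11,0)]⟩⟩,⟨false,0,⟨0,[(39,0)]⟩,⟨0,[(38,0),(2,0)]⟩⟩,⟨false,1,⟨0,[(26,0),(12,0),(1,0)]⟩,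
  ⟨0,[(10,0)]⟩⟩,[.a ⟨true,1,⟨0,[(4,0),(3,0),(3,0),(14,1),(11,0)]⟩,⟨0,[(14,0)]⟩⟩ ⟨true,0,⟨5,[(4,1),
  (4,0),(1,5),(5,0),(18,0)]⟩,⟨0,[(7,0)]⟩⟩ ⟨false,1,⟨1,[(9,0),(7,0),(23,0)]⟩,⟨2,[(6,0),(20,2),(7,0),
  (3,0)]⟩⟩,.o ⟨false,2,⟨0,[(20,0),(20,0)]⟩,⟨0,[(1,0),(3,0),(33,1)]⟩⟩,.o ⟨false,1,⟨0,[(12,0),(14,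
  0)]⟩,⟨3,[(0,1),(13,1),(13,1),(7,0),(4,0)]⟩⟩,.o ⟨false,1,⟨0,[(20,0),(6,0)]⟩,⟨0,[(0,0)]⟩⟩]⟩) (.Q [0,
  2,0,0,-1,0,-1,-1,1,-1,-1,1] (.p true [0,0,-1,0,1] [1] (⟨0,[(2,0)]⟩,⟨0,[(22,0),(7,0)]⟩) .k 1 (⟨0,
  []⟩,⟨0,[]⟩) .k (.r 0 ⟨2,[(6,0),(0,2),(27,0),(3,0)]⟩ ⟨3,[(11,1),(5,1),(7,1),(10,0),(4,2)]⟩)) (.K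
  ⟨0,[1,0,1,0,-1],0,1,(⟨0,[(23,0),(7,0)]⟩,⟨0,[(3,0)]⟩),.k,(.r (-1) ⟨3,[(9,1),(1,1),(0,1),(5,1),(18,
  0),(4,0)]⟩ ⟨0,[(8,0),(31,0),(3,0)]⟩),(.r (-1) ⟨0,[(26,0),(2,0),(10,0),(1,0)]⟩ ⟨0,[(7,0),(0,0)]⟩),
  .k,.k,[⟨1,[(15,1),(21,0),(4,0)]⟩,⟨0,[(1,0)]⟩,⟨0,[(0,0)]⟩,⟨1,[(1,0),(19,0),(3,0),(0,1),(15,0)]⟩]⟩)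
  (.Q [0,2,0,1,-1,0,-1,-1,1,-1,-1,1] (.p true [0,0,-1,0,1] [1] (⟨0,[(3,0)]⟩,⟨0,[(23,0),(7,0)]⟩) .k
  1 (⟨0,[]⟩,⟨0,[]⟩) .k (.r 0 ⟨2,[(7,0),(0,2),(27,0),(3,0)]⟩ ⟨1,[(0,0),(11,0),(5,0),(3,0),(14,0)]⟩))
  (.R ⟨2,true,false,false,[0,1],[1,0,1,0,-1],[1,0,1],(⟨0,[]⟩,⟨0,[]⟩),(⟨0,[(24,0),(7,0)]⟩,⟨0,[(4,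
  0)]⟩),⟨0,[]⟩,.k,.k,.k,(.r 0 ⟨0,[(9,0),(31,0),(3,0)]⟩ ⟨3,[(10,1),(1,1),(0,1),(5,1),(18,0),(4,0)]⟩),
  .k,.k,⟨false,0,⟨4,[(0,0),(1,0),(5,0),(0,3),(27,0),(4,0)]⟩,⟨1,[(11,0),(1,1),(5,0),(23,0)]⟩⟩,⟨true,
  0,⟨0,[(2,0)]⟩,⟨7,[(6,3),(4,1),(4,5),(6,1),(14,4),(4,2)]⟩⟩,⟨false,1,⟨0,[(40,0),(2,0)]⟩,⟨0,[(41,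
  0)]⟩⟩,⟨true,1,⟨0,[(1,0),(38,0)]⟩,⟨0,[(0,0)]⟩⟩,⟨true,0,⟨0,[]⟩,⟨0,[(45,0)]⟩⟩,⟨false,1,⟨0,[(1,0)]⟩,
  ⟨7,[(0,1),(2,1),(19,3),(4,3),(9,2),(4,0)]⟩⟩,[]⟩) (.I [0,-2,-1,0,1,0,0,1] (.S ⟨1,0,[0,-1,0,0,0,0,0,
  1],[1,0,1,0,-1],[0,0,0,0,0,0,0,1],(⟨0,[(25,0),(7,0)]⟩,⟨0,[(5,0)]⟩),⟨0,[(22,0),(2,0)]⟩,.k,(.r (-1)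
  ⟨0,[(0,0),(40,0)]⟩ ⟨0,[(10,0),(31,0),(3,0)]⟩),⟨true,0,⟨0,[(46,0)]⟩,⟨0,[]⟩⟩,⟨false,1,⟨1,[(23,0),(0,
  0),(19,0)]⟩,⟨0,[]⟩⟩,⟨false,0,⟨0,[(42,0)]⟩,⟨0,[(41,0),(2,0)]⟩⟩,⟨true,0,⟨0,[(42,0)]⟩,⟨0,[(41,0)]⟩⟩,
  [.a ⟨true,1,⟨12,[(2,9),(0,1),(16,0),(2,2),(0,1),(3,2),(9,1)]⟩,⟨0,[(4,0),(37,0)]⟩⟩ ⟨true,0,⟨6,[(0,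
  0),(6,2),(4,0),(1,3),(13,1),(10,0)]⟩,⟨0,[(10,0)]⟩⟩ ⟨false,1,⟨11,[(0,7),(19,1),(2,0),(0,0),(3,3),
  (10,0),(3,1)]⟩,⟨2,[(9,0),(0,2),(27,0),(3,0)]⟩⟩,.e ⟨false,1,⟨11,[(0,7),(19,1),(2,0),(0,0),(3,3),
  (10,0),(3,1)]⟩,⟨2,[(9,0),(0,2),(27,0),(3,0)]⟩⟩ ⟨false,1,⟨0,[(0,0)]⟩,⟨0,[(10,0),(27,0)]⟩⟩,.o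
  ⟨false,1,⟨0,[(15,0),(14,0)]⟩,⟨2,[(0,0),(3,0),(2,0),(9,0),(6,0),(14,1),(2,0)]⟩⟩,.e ⟨false,1,⟨11,
  [(0,7),(19,1),(2,0),(0,0),(3,3),(10,0),(3,1)]⟩,⟨0,[(10,0)]⟩⟩ ⟨false,1,⟨0,[(0,0)]⟩,⟨0,[(10,0),(35,
  0)]⟩⟩]⟩) (.S ⟨1,0,[0,-1,0,0,0,0,0,1],[1,0,1,0,-1],[0,0,0,0,0,0,0,1],(⟨0,[(25,0),(7,0)]⟩,⟨0,[(5,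
  0)]⟩),⟨0,[(22,0),(2,0)]⟩,.k,(.r (-1) ⟨3,[(11,1),(1,1),(0,1),(5,1),(18,0),(4,0)]⟩ ⟨0,[(10,0),(31,
  0),(3,0)]⟩),⟨true,0,⟨0,[(46,0)]⟩,⟨0,[]⟩⟩,⟨false,1,⟨1,[(23,0),(0,0),(19,0)]⟩,⟨0,[]⟩⟩,⟨false,0,⟨0,
  [(42,0)]⟩,⟨0,[(41,0),(2,0)]⟩⟩,⟨true,0,⟨0,[(42,0)]⟩,⟨0,[(41,0)]⟩⟩,[.a ⟨true,1,⟨12,[(2,9),(0,1),(16,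
  0),(2,2),(0,1),(3,2),(9,1)]⟩,⟨0,[(4,0),(37,0)]⟩⟩ ⟨true,0,⟨5,[(7,1),(4,0),(1,5),(5,0),(18,0)]⟩,⟨0,
  [(10,0)]⟩⟩ ⟨false,1,⟨1,[(12,0),(1,1),(5,0),(23,0)]⟩,⟨1,[(0,0),(9,0),(32,0)]⟩⟩,.a ⟨true,1,⟨0,[(2,
  0)]⟩,⟨0,[(17,0),(11,0)]⟩⟩ ⟨false,1,⟨1,[(12,0),(1,1),(5,0),(23,0)]⟩,⟨1,[(0,0),(9,0),(32,0)]⟩⟩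
  ⟨true,1,⟨5,[(7,1),(4,0),(1,5),(5,0),(18,0),(4,5)]⟩,⟨0,[(0,0)]⟩⟩,.o ⟨false,1,⟨0,[(15,0),(14,0)]⟩,
  ⟨7,[(7,3),(4,1),(4,5),(6,1),(14,4),(4,2)]⟩⟩,.a ⟨true,0,⟨0,[(3,0)]⟩,⟨4,[(7,1),(4,2),(4,1),(6,2),(2,
  0),(16,0)]⟩⟩ ⟨false,1,⟨1,[(12,0),(1,1),(5,0),(23,0)]⟩,⟨0,[(10,0)]⟩⟩ ⟨true,1,⟨1,[(12,0),(1,1),(5,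
  0),(23,0)]⟩,⟨0,[(0,0)]⟩⟩]⟩)))))) (.Q [0,0,1,0,-1,0,-1,0,1,0,-1,1] (.p true [1,0,-1,0,1] [1] (⟨0,
  [(21,0),(5,0)]⟩,⟨0,[(0,0)]⟩) .k 1 (⟨0,[]⟩,⟨0,[]⟩) .k (.r 0 ⟨2,[(4,0),(0,2),(27,0),(3,0)]⟩ ⟨3,[(9,
  1),(5,1),(7,1),(10,0),(4,2)]⟩)) (.S ⟨1,0,[0,1,0,0,0,0,0,-1],[1,0,-1,0,1],[1,2,0,-1,0,0,0,-1],(⟨0,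
  [(22,0),(5,0)]⟩,⟨0,[(1,0)]⟩),⟨0,[(17,0),(4,0)]⟩,.k,(.r 0 ⟨0,[(5,0),(0,0)]⟩ ⟨0,[(24,0),(2,0),(10,
  0),(1,0)]⟩),⟨true,0,⟨0,[(37,0)]⟩,⟨0,[(38,0)]⟩⟩,⟨false,1,⟨1,[(19,0),(0,0),(19,0)]⟩,⟨0,[]⟩⟩,⟨false,
  0,⟨0,[]⟩,⟨1,[(19,0),(0,0),(19,0)]⟩⟩,⟨true,0,⟨0,[(38,0)]⟩,⟨0,[(37,0)]⟩⟩,[.o ⟨false,(-1),⟨0,[(0,0),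
  (4,0),(0,0),(31,0)]⟩,⟨1,[(10,1),(8,1),(15,0),(4,0)]⟩⟩,.e ⟨false,0,⟨0,[(5,0),(0,0)]⟩,⟨3,[(10,1),(5,
  1),(7,1),(10,0),(2,3),(1,2)]⟩⟩ ⟨false,1,⟨0,[(6,0),(32,0)]⟩,⟨5,[(3,1),(4,0),(1,5),(5,0),(18,0)]⟩⟩,
  .a ⟨true,(-1),⟨0,[(3,0),(3,0),(5,0),(12,0),(11,0)]⟩,⟨0,[(11,0),(14,0)]⟩⟩ ⟨false,0,⟨1,[(5,0),(0,1),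
  (30,0)]⟩,⟨5,[(3,1),(4,0),(1,5),(5,0),(18,0),(2,5),(1,5)]⟩⟩ ⟨true,0,⟨2,[(5,0),(0,2),(27,0),(3,0)]⟩,
  ⟨5,[(3,1),(4,0),(1,5),(5,0),(18,0)]⟩⟩,.o ⟨false,(-1),⟨0,[(0,0)]⟩,⟨1,[(11,1),(14,1),(8,0),(3,
  0)]⟩⟩]⟩) (.Q [0,0,0,0,0,0,0,0,0,-1,1,1] (.ed false [0,0,1,0,1] (.r 0 ⟨5,[(3,1),(4,0),(7,0),(7,5),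
  (10,0)]⟩ ⟨1,[(6,1),(32,0),(0,0)]⟩)) (.R ⟨1,false,false,true,[1,0,0,0,-1],[2,0,-1,0,-1],[],(⟨0,
  [(22,0)]⟩,⟨0,[(23,0)]⟩),(⟨0,[(22,0),(6,0)]⟩,⟨0,[(0,0)]⟩),⟨1,[(2,0),(0,0),(18,0)]⟩,.k,.k,(.r (-1)
  ⟨1,[(8,0),(29,0),(2,0)]⟩ ⟨1,[(27,0),(0,0),(10,1),(3,1)]⟩),.k,.k,.k,⟨true,0,⟨5,[(4,1),(4,0),(1,5),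
  (5,0),(18,0)]⟩,⟨0,[(7,0)]⟩⟩,⟨false,0,⟨0,[(24,0)]⟩,⟨1,[(1,0),(19,0),(5,0),(8,0)]⟩⟩,⟨true,0,⟨0,[(43,
  0)]⟩,⟨0,[]⟩⟩,⟨false,0,⟨0,[(7,0),(16,0)]⟩,⟨1,[(11,1),(24,0),(4,0)]⟩⟩,⟨false,0,⟨0,[(39,0)]⟩,⟨0,[(38,
  0),(2,0)]⟩⟩,⟨false,0,⟨0,[(7,0),(16,0),(14,0)]⟩,⟨1,[(10,1),(25,0),(4,0)]⟩⟩,[.e ⟨false,1,⟨1,[(20,0),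
  (0,0),(18,0)]⟩,⟨0,[]⟩⟩ ⟨false,0,⟨0,[(1,0),(2,0),(2,0),(0,0),(5,0),(24,0)]⟩,⟨1,[(25,1),(10,0),(4,
  0)]⟩⟩,.o ⟨false,1,⟨1,[(1,0),(2,0),(2,1),(4,0),(11,0),(16,0)]⟩,⟨0,[(11,0),(2,0),(21,0)]⟩⟩,.o
  ⟨false,1,⟨0,[(20,0)]⟩,⟨1,[(14,1),(21,0),(4,0)]⟩⟩,.a ⟨true,0,⟨0,[(1,0),(2,0),(22,0)]⟩,⟨1,[(8,0),(5,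
  0),(6,0),(17,0)]⟩⟩ ⟨false,1,⟨1,[(40,0),(0,0)]⟩,⟨1,[(27,0),(0,0)]⟩⟩ ⟨true,0,⟨0,[(1,0),(2,0),(2,0),
  (0,0),(5,0),(24,0)]⟩,⟨1,[(5,1),(21,0),(0,0),(10,1)]⟩⟩]⟩) (.R ⟨1,false,false,false,[1,0,0,0,-1],[1,
  0,-1,0,-1],[],(⟨0,[(22,0)]⟩,⟨0,[(23,0)]⟩),(⟨0,[(0,0)]⟩,⟨0,[(23,0),(6,0)]⟩),⟨1,[(2,0),(0,0),(18,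
  0)]⟩,.k,.k,(.r (-1) ⟨1,[(8,0),(29,0),(2,0)]⟩ ⟨1,[(27,0),(0,0),(10,1),(3,1)]⟩),.k,.k,.k,⟨false,0,
  ⟨1,[(4,0),(4,0),(1,1),(23,0)]⟩,⟨1,[(7,1),(32,0),(0,0)]⟩⟩,⟨true,0,⟨0,[(16,0)]⟩,⟨0,[(27,0)]⟩⟩,⟨true,
  0,⟨0,[(43,0)]⟩,⟨0,[]⟩⟩,⟨false,1,⟨0,[(26,0),(14,0)]⟩,⟨0,[(11,0)]⟩⟩,⟨false,0,⟨0,[(39,0)]⟩,⟨0,[(38,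
  0),(2,0)]⟩⟩,⟨false,1,⟨0,[(26,0),(12,0),(1,0)]⟩,⟨0,[(10,0)]⟩⟩,[.e ⟨false,1,⟨1,[(20,0),(0,0),(18,
  0)]⟩,⟨0,[]⟩⟩ ⟨false,1,⟨2,[(4,0),(2,1),(0,1),(0,0),(16,0),(12,1),(1,0)]⟩,⟨0,[(25,0)]⟩⟩,.o ⟨false,2,
  ⟨5,[(4,1),(2,3),(4,5),(13,1),(9,0),(4,6)]⟩,⟨0,[(5,0),(8,0),(24,0)]⟩⟩,.o ⟨false,1,⟨0,[(20,0)]⟩,⟨1,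
  [(14,1),(21,0),(4,0)]⟩⟩,.a ⟨true,0,⟨0,[(1,0),(2,0),(22,0)]⟩,⟨1,[(8,0),(5,0),(6,0),(17,0)]⟩⟩
  ⟨false,1,⟨1,[(40,0),(0,0)]⟩,⟨1,[(27,0),(0,0)]⟩⟩ ⟨true,1,⟨2,[(4,0),(2,1),(0,1),(0,0),(16,0),(12,1),
  (1,0)]⟩,⟨0,[(1,0),(2,0),(0,0),(8,0),(12,0),(11,0)]⟩⟩]⟩)))))

theorem ok25 : chk K t25 r16 = true := by decide +kernel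

noncomputable def t27 : Tre :=
  (.S ⟨1,0,[0,0,1,1,0,0,0,-1],[1,1,-1],[1,1,1,0,0,0,0,-1],(⟨0,[(24,0),(1,0)]⟩,⟨0,[(14,0)]⟩),⟨0,[(24,
  0)]⟩,.k,.k,⟨true,0,⟨0,[(33,0)]⟩,⟨0,[(34,0)]⟩⟩,⟨false,1,⟨1,[(15,0),(0,0),(19,0)]⟩,⟨0,[]⟩⟩,⟨false,0,
  ⟨0,[]⟩,⟨1,[(15,0),(0,0),(19,0)]⟩⟩,⟨true,0,⟨0,[(34,0)]⟩,⟨0,[(33,0)]⟩⟩,[.a ⟨true,0,⟨0,[(0,0),(37,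
  0)]⟩,⟨0,[(5,0)]⟩⟩ ⟨false,0,⟨2,[(1,0),(0,2),(27,0),(3,0)]⟩,⟨1,[(4,0),(1,1),(5,0),(23,0)]⟩⟩ ⟨true,0,
  ⟨0,[(2,0),(31,0)]⟩,⟨0,[(5,0),(5,0)]⟩⟩,.a ⟨true,0,⟨0,[(0,0)]⟩,⟨0,[(10,0)]⟩⟩ ⟨true,0,⟨0,[(2,0)]⟩,⟨0,
  [(6,0),(4,0)]⟩⟩ ⟨false,1,⟨1,[(2,1),(31,1),(0,0),(0,0)]⟩,⟨1,[(1,0),(4,0),(3,0),(0,1)]⟩⟩,.a ⟨true,0,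
  ⟨0,[(19,0)]⟩,⟨0,[(22,0)]⟩⟩ ⟨false,0,⟨0,[(2,0)]⟩,⟨1,[(4,0),(1,1),(5,0),(23,0)]⟩⟩ ⟨true,0,⟨0,[(2,0),
  (31,0)]⟩,⟨1,[(1,0),(4,0),(3,0),(0,1)]⟩⟩,.o ⟨false,0,⟨0,[(11,0)]⟩,⟨1,[(22,1),(8,0),(3,0)]⟩⟩]⟩)

theorem ok27 : chk K t27 r15 = true := by decide +kernel

noncomputable def t31 : Tre :=
  (.Q [0,0,0,-1,0,0,0,0,0,1] (.pp false [-1,1]) (.S ⟨1,0,[0,1,-1,-1],[1,-1],[0,0,-1,-1],(⟨0,[(26,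
  0)]⟩,⟨0,[(27,0)]⟩),⟨0,[(11,0),(0,0)]⟩,.k,(.r (-1) ⟨0,[(30,1),(3,0)]⟩ ⟨1,[(1,1),(11,0),(0,0),(17,
  1),(1,0)]⟩),⟨false,1,⟨1,[(13,0),(0,0),(19,0)]⟩,⟨0,[]⟩⟩,⟨true,0,⟨0,[(36,0)]⟩,⟨0,[]⟩⟩,⟨true,0,⟨0,
  [(32,0)]⟩,⟨0,[(31,0)]⟩⟩,⟨false,0,⟨0,[(32,0)]⟩,⟨0,[(31,0),(2,0)]⟩⟩,[.o ⟨false,0,⟨0,[(31,0)]⟩,⟨1,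
  [(29,0),(2,1),(1,0)]⟩⟩,.a ⟨true,0,⟨0,[(0,0)]⟩,⟨0,[(32,0)]⟩⟩ ⟨true,1,⟨0,[(30,0),(3,0)]⟩,⟨0,[(1,
  0)]⟩⟩ ⟨false,1,⟨0,[(0,0),(1,0)]⟩,⟨3,[(1,1),(11,0),(0,0),(17,1),(1,0)]⟩⟩,.o ⟨false,0,⟨1,[(20,0),(0,
  0)]⟩,⟨1,[(29,0),(3,0)]⟩⟩,.o ⟨false,0,⟨0,[(20,0),(0,0)]⟩,⟨0,[(2,0)]⟩⟩]⟩) (.S ⟨1,0,[0,0,0,0,0,0,0,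
  1],[0,0,1],[0,1,0,0,0,0,0,1],(⟨0,[(23,0)]⟩,⟨0,[(22,0)]⟩),⟨0,[(12,0)]⟩,.k,.k,⟨true,0,⟨0,[(36,0)]⟩,
  ⟨0,[]⟩⟩,⟨false,1,⟨1,[(13,0),(0,0),(19,0)]⟩,⟨0,[]⟩⟩,⟨false,0,⟨0,[(32,0)]⟩,⟨0,[(31,0),(2,0)]⟩⟩,
  ⟨true,0,⟨0,[(32,0)]⟩,⟨0,[(31,0)]⟩⟩,[.o ⟨false,0,⟨0,[(0,0),(2,0)]⟩,⟨1,[(13,0),(0,0),(4,1),(14,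
  0)]⟩⟩,.o ⟨false,1,⟨1,[(4,1),(24,0),(4,0)]⟩,⟨0,[(19,0)]⟩⟩,.o ⟨false,1,⟨1,[(20,1),(8,0),(3,0)]⟩,⟨0,
  [(9,0)]⟩⟩,.a ⟨true,0,⟨0,[(20,0)]⟩,⟨0,[(17,0)]⟩⟩ ⟨false,0,⟨0,[(0,0),(2,0),(13,0)]⟩,⟨0,[(19,0),(0,
  0),(13,0)]⟩⟩ ⟨true,0,⟨0,[(0,0),(2,0),(13,0)]⟩,⟨0,[(19,0),(0,0)]⟩⟩]⟩))

theorem ok31 : chk K t31 r12 = true := by decide +kernel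

noncomputable def t35 : Tre :=
  (.Q [0,0,-2,0,0,0,-1,0,1,0,-1,1] (.p false [0,0,1] [0,0,0,0,1] (⟨0,[(19,0)]⟩,⟨0,[(18,0)]⟩) .k 2
  (⟨0,[(12,0)]⟩,⟨0,[(11,0)]⟩) .k (.r (-1) ⟨0,[(5,0),(8,0),(15,0)]⟩ ⟨0,[(0,0),(0,0),(1,0),(12,0)]⟩))
  (.I [1,0,0,0,0,0,0,-1] (.I [0,1,-1,0,0,0,0,1] (.S ⟨1,0,[0,0,0,0,0,0,0,1],[0,0,1],[0,1,0,0,0,0,0,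
  1],(⟨0,[(22,0)]⟩,⟨0,[(21,0)]⟩),⟨0,[(11,0)]⟩,.k,.k,⟨true,0,⟨0,[(35,0)]⟩,⟨0,[]⟩⟩,⟨false,1,⟨1,[(12,
  0),(0,0),(19,0)]⟩,⟨0,[]⟩⟩,⟨false,0,⟨0,[(31,0)]⟩,⟨0,[(30,0),(2,0)]⟩⟩,⟨true,0,⟨0,[(31,0)]⟩,⟨0,[(30,
  0)]⟩⟩,[.o ⟨false,1,⟨1,[(17,1),(10,0),(4,0)]⟩,⟨0,[(3,0)]⟩⟩,.e ⟨false,1,⟨5,[(0,1),(8,1),(7,3),(10,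
  0),(3,1),(0,2)]⟩,⟨0,[(1,0)]⟩⟩ ⟨false,1,⟨0,[(0,0),(32,0)]⟩,⟨2,[(1,1),(16,0),(0,0),(7,0)]⟩⟩,.o
  ⟨false,1,⟨1,[(19,1),(8,0),(3,0)]⟩,⟨0,[(8,0)]⟩⟩,.a ⟨true,0,⟨0,[(19,0)]⟩,⟨0,[(16,0)]⟩⟩ ⟨true,0,⟨0,
  [(0,0)]⟩,⟨1,[(1,1),(17,0),(0,0)]⟩⟩ ⟨false,1,⟨0,[(0,0),(32,0)]⟩,⟨1,[(1,1),(17,0),(0,0)]⟩⟩]⟩) (.I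
  [0,-1,-1,0,1,0,0,1] (.S ⟨1,0,[0,1,0,0,0,0,0,1],[0,0,1],[0,0,0,0,0,0,0,1],(⟨0,[(23,0)]⟩,⟨0,[(22,
  0)]⟩),⟨0,[(12,0)]⟩,.k,.k,⟨false,1,⟨1,[(13,0),(0,0),(19,0)]⟩,⟨0,[]⟩⟩,⟨true,0,⟨0,[(36,0)]⟩,⟨0,[]⟩⟩,
  ⟨true,0,⟨0,[(32,0)]⟩,⟨0,[(31,0)]⟩⟩,⟨false,0,⟨0,[(32,0)]⟩,⟨0,[(31,0),(2,0)]⟩⟩,[.a ⟨true,0,⟨0,[(18,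
  0)]⟩,⟨0,[(1,0),(15,0)]⟩⟩ ⟨false,1,⟨15,[(0,11),(9,1),(2,2),(0,2),(3,3),(9,3),(0,0)]⟩,⟨0,[(2,0)]⟩⟩
  ⟨true,0,⟨0,[(9,0),(8,0)]⟩,⟨0,[(1,0)]⟩⟩,.o ⟨false,1,⟨1,[(18,1),(10,0),(4,0)]⟩,⟨0,[(4,0)]⟩⟩,.o
  ⟨false,1,⟨1,[(20,1),(8,0),(3,0)]⟩,⟨0,[(9,0)]⟩⟩,.e ⟨false,1,⟨0,[(0,0)]⟩,⟨1,[(1,0),(17,0),(0,0)]⟩⟩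
  ⟨false,1,⟨15,[(0,11),(9,1),(2,2),(0,2),(3,3),(9,3),(0,0)]⟩,⟨0,[(1,0)]⟩⟩]⟩) (.Q [0,0,0,0,0,1,0,0,0,
  -1,0,1] (.ed false [0,1,0,0,1] .k) (.Q [0,0,1,0,0,0,1,0,-1,1,1,-1] (.p false [0,0,-1,0,1] [1] (⟨0,
  [(0,0),(11,0)]⟩,⟨0,[(16,0),(7,0)]⟩) .k 1 (⟨0,[]⟩,⟨0,[]⟩) .k (.r 0 ⟨2,[(3,1),(16,0),(0,0),(7,0)]⟩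
  ⟨0,[(10,0),(8,0),(15,0)]⟩)) (.K ⟨0,[1,0,1,0,-1],0,1,(⟨0,[(17,0),(7,0)]⟩,⟨0,[(1,0),(11,0)]⟩),.k,
  (.r (-2) ⟨3,[(10,3),(1,1),(2,0),(0,0),(14,0),(3,1),(0,3)]⟩ ⟨0,[(2,0),(31,0)]⟩),(.r (-1) ⟨0,[(20,
  0),(2,0),(10,0),(1,0)]⟩ ⟨0,[(4,0),(27,0)]⟩),.k,.k,[⟨1,[(9,1),(21,0),(4,0)]⟩,⟨0,[(0,0)]⟩,⟨5,[(2,4),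
  (2,1),(3,3),(1,2),(9,0),(8,0),(0,2)]⟩,⟨1,[(0,0),(14,0),(3,0),(0,1),(15,0)]⟩]⟩) (.Q [0,-2,0,-2,2,0,
  1,1,-1,1,1,-1] (.p false [0,0,-1,0,1] [1] (⟨0,[(1,0),(11,0)]⟩,⟨0,[(17,0),(7,0)]⟩) .k 1 (⟨0,[]⟩,⟨0,
  []⟩) .k (.r 0 ⟨2,[(4,1),(16,0),(0,0),(7,0)]⟩ ⟨0,[(11,0),(8,0),(15,0)]⟩)) (.Q [0,-1,0,0,1,0,0,0,-1,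
  1,0,-1] (.p false [0,0,0,0,1] [1] (⟨0,[(19,0)]⟩,⟨0,[(18,0)]⟩) .k 1 (⟨0,[]⟩,⟨0,[]⟩) .k .k) (.R ⟨1,
  false,false,false,[1,0,1,0,-1],[1,0,0,0,-1],[0,-1,0,0,0,0,0,1],(⟨0,[(19,0),(7,0)]⟩,⟨0,[(3,0),(11,
  0)]⟩),(⟨0,[(19,0)]⟩,⟨0,[(20,0)]⟩),⟨0,[(16,0),(2,0)]⟩,.k,.k,(.r (-2) ⟨19,[(1,9),(5,3),(6,7),(3,5),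
  (3,9),(10,8),(3,5),(0,4)]⟩ ⟨0,[(4,0),(31,0)]⟩),.k,.k,.k,⟨false,1,⟨5,[(7,1),(1,1),(4,1),(7,5),(10,
  0),(4,2)]⟩,⟨0,[(6,0)]⟩⟩,⟨true,0,⟨0,[(13,0)]⟩,⟨0,[(24,0)]⟩⟩,⟨false,1,⟨3,[(0,1),(17,1),(14,0),(4,
  0)]⟩,⟨0,[]⟩⟩,⟨true,0,⟨0,[(8,0)]⟩,⟨0,[(22,0)]⟩⟩,⟨true,0,⟨0,[(36,0)]⟩,⟨0,[(35,0)]⟩⟩,⟨true,0,⟨0,[(8,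
  0),(27,0)]⟩,⟨0,[(12,0)]⟩⟩,[.a ⟨true,1,⟨0,[(0,0)]⟩,⟨0,[(11,0)]⟩⟩ ⟨true,1,⟨0,[(13,0),(8,0),(15,0)]⟩,
  ⟨0,[(4,0)]⟩⟩ ⟨false,1,⟨5,[(7,1),(1,1),(4,1),(18,0),(4,2)]⟩,⟨0,[(6,0),(15,0)]⟩⟩,.o ⟨false,2,⟨1,[(0,
  1),(32,0),(4,0)]⟩,⟨0,[(2,0),(1,0),(17,0)]⟩⟩,.o ⟨false,1,⟨0,[(9,0),(14,0)]⟩,⟨3,[(2,1),(8,1),(13,1),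
  (7,0),(4,0)]⟩⟩,.o ⟨false,1,⟨0,[(17,0),(6,0)]⟩,⟨0,[(2,0)]⟩⟩]⟩) (.S ⟨1,0,[0,-1,0,0,0,0,0,1],[1,0,1,
  0,-1],[1,0,0,-1,0,0,0,1],(⟨0,[(19,0),(7,0)]⟩,⟨0,[(3,0),(11,0)]⟩),⟨0,[(16,0),(2,0)]⟩,.k,(.r (-2)
  ⟨19,[(1,9),(5,3),(6,7),(3,5),(3,9),(10,8),(3,5),(0,4)]⟩ ⟨0,[(4,0),(31,0)]⟩),⟨true,0,⟨0,[(35,0)]⟩,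
  ⟨0,[(36,0)]⟩⟩,⟨false,1,⟨1,[(17,0),(0,0),(19,0)]⟩,⟨0,[]⟩⟩,⟨false,0,⟨0,[]⟩,⟨1,[(17,0),(0,0),(19,
  0)]⟩⟩,⟨true,0,⟨0,[(36,0)]⟩,⟨0,[(35,0)]⟩⟩,[.o ⟨false,2,⟨2,[(1,1),(15,0),(4,0),(10,0),(2,3)]⟩,⟨0,
  [(0,0),(7,0)]⟩⟩,.a ⟨true,2,⟨0,[(1,0),(34,1)]⟩,⟨0,[(0,0),(3,0),(16,0)]⟩⟩ ⟨true,1,⟨1,[(0,0),(0,0),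
  (11,1),(8,0),(15,0)]⟩,⟨0,[(4,0),(31,0)]⟩⟩ ⟨false,2,⟨5,[(7,1),(1,1),(4,1),(7,5),(10,0),(4,8)]⟩,⟨0,
  [(4,0),(4,0),(1,0)]⟩⟩,.o ⟨false,1,⟨0,[(9,0),(14,0)]⟩,⟨7,[(0,1),(1,3),(15,1),(6,3),(7,0),(4,0)]⟩⟩,
  .o ⟨false,1,⟨0,[(17,0),(6,0)]⟩,⟨0,[(2,0)]⟩⟩]⟩)) (.R ⟨0,false,false,true,[1,0,0,0,-1],[1,1,-1],[0,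
  0,1],(⟨0,[(18,0)]⟩,⟨0,[(19,0)]⟩),(⟨0,[(25,0),(1,0)]⟩,⟨0,[(15,0)]⟩),⟨0,[(2,0)]⟩,.k,.k,(.r (-1) ⟨0,
  [(33,0),(3,0)]⟩ ⟨1,[(23,0),(0,0),(10,1),(3,1)]⟩),(.r (-2) ⟨3,[(11,3),(1,1),(2,0),(0,0),(14,0),(3,
  1),(0,3)]⟩ ⟨0,[(3,0),(31,0)]⟩),.k,.k,⟨true,1,⟨0,[(11,0),(0,0),(24,0)]⟩,⟨0,[(3,0),(31,0)]⟩⟩,⟨false,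
  0,⟨0,[(6,0)]⟩,⟨0,[(16,0),(6,0)]⟩⟩,⟨false,0,⟨1,[(23,0),(0,0)]⟩,⟨1,[(36,0),(0,0)]⟩⟩,⟨true,(-2),⟨1,
  [(0,0),(2,0),(6,0),(9,0)]⟩,⟨0,[(11,0),(4,0),(20,0)]⟩⟩,⟨false,0,⟨0,[]⟩,⟨0,[]⟩⟩,⟨false,0,⟨0,[]⟩,⟨0,
  []⟩⟩,[.a ⟨true,(-1),⟨0,[(3,0),(16,0),(14,0)]⟩,⟨0,[(11,0),(25,0)]⟩⟩ ⟨true,0,⟨1,[(23,0),(0,0)]⟩,⟨0,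
  []⟩⟩ ⟨false,(-1),⟨2,[(0,0),(4,1),(0,0),(3,0),(9,0),(14,0)]⟩,⟨0,[(11,0),(4,0),(20,0)]⟩⟩,.o ⟨false,
  0,⟨0,[(7,0),(27,0)]⟩,⟨1,[(11,1),(20,0),(4,0)]⟩⟩,.o ⟨false,1,⟨0,[(16,0)]⟩,⟨1,[(10,1),(21,0),(4,
  0)]⟩⟩,.o ⟨false,1,⟨1,[(16,1),(6,0),(0,0)]⟩,⟨0,[(0,0),(10,0),(21,0),(3,1)]⟩⟩]⟩))) (.Q [0,0,1,0,0,0,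
  0,0,-1,1,0,-1] (.p false [0,0,0,0,1] [1] (⟨0,[(17,0)]⟩,⟨0,[(16,0)]⟩) .k 1 (⟨0,[]⟩,⟨0,[]⟩) .k .k)
  (.Q [0,2,0,0,-1,0,0,0,1,-1,0,1] (.p true [0,0,0,0,1] [1] (⟨0,[(18,0)]⟩,⟨0,[(17,0)]⟩) .k 1 (⟨0,[]⟩,
  ⟨0,[]⟩) .k .k) (.S ⟨1,0,[0,-1],[1,0,0,0,-1],[1,0,0,-1],(⟨0,[(18,0)]⟩,⟨0,[(19,0)]⟩),⟨0,[(2,0)]⟩,.k,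
  (.r (-1) ⟨0,[(33,0),(3,0)]⟩ ⟨1,[(23,0),(0,0),(10,1),(3,1)]⟩),⟨true,0,⟨0,[(34,0)]⟩,⟨0,[(35,0)]⟩⟩,
  ⟨false,1,⟨1,[(16,0),(0,0),(19,0)]⟩,⟨0,[]⟩⟩,⟨false,0,⟨0,[]⟩,⟨1,[(16,0),(0,0),(19,0)]⟩⟩,⟨true,0,⟨0,
  [(35,0)]⟩,⟨0,[(34,0)]⟩⟩,[.e ⟨false,1,⟨1,[(34,1),(1,0),(0,0)]⟩,⟨0,[(35,0)]⟩⟩ ⟨false,1,⟨1,[(36,0),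
  (0,0)]⟩,⟨0,[(39,0)]⟩⟩,.o ⟨false,2,⟨0,[(16,0),(20,0)]⟩,⟨0,[(0,0)]⟩⟩,.o ⟨false,1,⟨0,[(16,0)]⟩,⟨1,
  [(10,1),(21,0),(4,0)]⟩⟩,.a ⟨true,0,⟨0,[(1,0)]⟩,⟨1,[(10,1),(25,0),(0,0)]⟩⟩ ⟨false,1,⟨0,[(33,0),(3,
  0)]⟩,⟨1,[(23,0),(0,0),(10,1)]⟩⟩ ⟨true,1,⟨1,[(36,0),(0,0)]⟩,⟨0,[(0,0),(0,0)]⟩⟩]⟩) (.R ⟨1,false,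
  false,true,[0,0,1],[0,0,0,0,1],[0,1,0,0,0,0,0,1],(⟨0,[(26,0)]⟩,⟨0,[(25,0)]⟩),(⟨0,[(19,0)]⟩,⟨0,
  [(18,0)]⟩),⟨0,[(15,0)]⟩,.k,.k,.k,.k,(.r (-2) ⟨3,[(11,3),(1,1),(2,0),(0,0),(14,0),(3,1),(0,3)]⟩ ⟨0,
  [(3,0),(31,0)]⟩),.k,⟨true,1,⟨0,[(12,0),(8,0),(15,0)]⟩,⟨0,[(3,0)]⟩⟩,⟨false,0,⟨2,[(6,1),(10,0),(6,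
  0)]⟩,⟨0,[(8,0),(14,0)]⟩⟩,⟨true,0,⟨0,[(39,0)]⟩,⟨0,[]⟩⟩,⟨false,(-1),⟨0,[(7,0),(2,0)]⟩,⟨1,[(0,1),(20,
  1),(10,0),(4,0)]⟩⟩,⟨false,0,⟨0,[(35,0)]⟩,⟨0,[(34,0),(2,0)]⟩⟩,⟨false,(-1),⟨0,[(7,0),(2,0),(24,0)]⟩,
  ⟨1,[(0,1),(10,1),(20,0),(4,0)]⟩⟩,[.a ⟨true,(-1),⟨0,[(10,0),(28,0)]⟩,⟨0,[(0,0)]⟩⟩ ⟨true,0,⟨0,[(12,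
  0),(8,0)]⟩,⟨0,[(4,0)]⟩⟩ ⟨false,(-1),⟨0,[(8,0),(1,1),(1,0)]⟩,⟨0,[(8,0),(14,0),(13,0)]⟩⟩,.a ⟨true,
  (-1),⟨0,[(10,0)]⟩,⟨3,[(0,2),(0,0),(14,0),(0,0),(13,0)]⟩⟩ ⟨false,1,⟨5,[(6,1),(1,1),(4,1),(7,5),(10,
  0),(4,2)]⟩,⟨0,[(5,0)]⟩⟩ ⟨true,(-1),⟨0,[(10,0),(1,0)]⟩,⟨1,[(0,1),(2,0),(17,0),(1,0),(8,0)]⟩⟩,.o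
  ⟨false,1,⟨1,[(23,1),(8,0),(3,0)]⟩,⟨0,[(12,0)]⟩⟩,.a ⟨true,0,⟨0,[(23,0)]⟩,⟨0,[(20,0)]⟩⟩ ⟨false,1,⟨5,
  [(6,1),(1,1),(4,1),(7,5),(10,0),(4,2)]⟩,⟨0,[(4,0)]⟩⟩ ⟨true,(-1),⟨0,[(8,0),(1,1),(1,0)]⟩,⟨1,[(0,1),
  (2,0),(17,0),(1,0),(8,0)]⟩⟩]⟩)) (.Q [0,-1,0,0,1,0,0,0,-1,1,0,-1] (.p false [0,0,0,0,1] [1] (⟨0,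
  [(18,0)]⟩,⟨0,[(17,0)]⟩) .k 1 (⟨0,[]⟩,⟨0,[]⟩) .k .k) (.S ⟨1,0,[],[1,0,0,0,-1],[0,-1],(⟨0,[(18,0)]⟩,
  ⟨0,[(19,0)]⟩),⟨0,[(2,0)]⟩,.k,(.r (-1) ⟨0,[(33,0),(3,0)]⟩ ⟨1,[(23,0),(0,0),(10,1),(3,1)]⟩),⟨false,
  1,⟨3,[(0,1),(16,1),(14,0),(4,0)]⟩,⟨0,[]⟩⟩,⟨true,0,⟨0,[(39,0)]⟩,⟨0,[]⟩⟩,⟨true,0,⟨0,[(35,0)]⟩,⟨0,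
  [(34,0)]⟩⟩,⟨false,0,⟨0,[(35,0)]⟩,⟨0,[(34,0),(2,0)]⟩⟩,[.o ⟨false,1,⟨0,[(16,0)]⟩,⟨1,[(10,1),(21,0),
  (4,0)]⟩⟩,.a ⟨true,1,⟨0,[(0,0)]⟩,⟨0,[(10,0)]⟩⟩ ⟨true,1,⟨0,[(37,0)]⟩,⟨0,[(3,0),(8,0),(8,0)]⟩⟩
  ⟨false,1,⟨1,[(36,0),(0,0)]⟩,⟨0,[(39,0)]⟩⟩,.o ⟨false,1,⟨0,[(16,0)]⟩,⟨1,[(10,1),(21,0),(4,0)]⟩⟩,.o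
  ⟨false,1,⟨1,[(16,1),(6,0),(0,0)]⟩,⟨0,[(1,0)]⟩⟩]⟩) (.R ⟨1,false,false,true,[0,0,1],[1,0,0,0,-1],[0,
  1,0,0,0,0,0,1],(⟨0,[(26,0)]⟩,⟨0,[(25,0)]⟩),(⟨0,[(18,0)]⟩,⟨0,[(19,0)]⟩),⟨0,[(15,0)]⟩,.k,.k,.k,.k,
  (.r (-1) ⟨3,[(11,3),(1,1),(2,0),(0,0),(14,0),(3,1)]⟩ ⟨0,[(4,0),(30,0)]⟩),.k,⟨true,0,⟨0,[(12,0),(8,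
  0)]⟩,⟨0,[(4,0)]⟩⟩,⟨false,1,⟨0,[(16,0),(3,0)]⟩,⟨0,[(1,0),(21,0)]⟩⟩,⟨true,0,⟨0,[(39,0)]⟩,⟨0,[]⟩⟩,
  ⟨false,1,⟨0,[(4,0),(11,0),(3,0)]⟩,⟨0,[(0,0),(20,0),(15,0)]⟩⟩,⟨false,0,⟨0,[(35,0)]⟩,⟨0,[(34,0),(2,
  0)]⟩⟩,⟨false,1,⟨0,[(4,0),(11,0),(3,0),(14,0)]⟩,⟨0,[(0,0),(10,0),(25,0)]⟩⟩,[.o ⟨false,1,⟨0,[(16,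
  0)]⟩,⟨3,[(0,1),(16,1),(14,0),(4,0)]⟩⟩,.o ⟨false,2,⟨1,[(16,2),(0,0),(19,0)]⟩,⟨0,[(0,0)]⟩⟩,.o
  ⟨false,1,⟨1,[(23,1),(8,0),(3,0)]⟩,⟨0,[(12,0)]⟩⟩,.a ⟨true,0,⟨0,[(23,0)]⟩,⟨0,[(20,0)]⟩⟩ ⟨false,1,⟨5,
  [(6,1),(1,1),(4,1),(7,5),(10,0),(4,2)]⟩,⟨0,[(4,0)]⟩⟩ ⟨true,1,⟨0,[(16,0),(3,0)]⟩,⟨0,[(0,0),(22,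
  0)]⟩⟩]⟩)))))) (.Q [0,-1,0,0,1,0,1,1,0,-1,1] (.p true [0,0,1] [1] (⟨0,[(21,0)]⟩,⟨0,[(20,0)]⟩) .k 1
  (⟨0,[]⟩,⟨0,[]⟩) .k .k) (.S ⟨1,0,[0,0,0,0,0,0,0,1],[0,0,1],[1,1,0,-1,0,0,0,1],(⟨0,[(22,0)]⟩,⟨0,
  [(21,0)]⟩),⟨0,[(11,0)]⟩,.k,.k,⟨true,0,⟨0,[(30,0)]⟩,⟨0,[(31,0)]⟩⟩,⟨false,1,⟨1,[(12,0),(0,0),(19,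
  0)]⟩,⟨0,[]⟩⟩,⟨false,0,⟨0,[]⟩,⟨1,[(12,0),(0,0),(19,0)]⟩⟩,⟨true,0,⟨0,[(31,0)]⟩,⟨0,[(30,0)]⟩⟩,[.o
  ⟨false,1,⟨3,[(0,1),(11,0),(0,0),(3,1),(10,0)]⟩,⟨0,[(3,0)]⟩⟩,.o ⟨false,1,⟨0,[(0,0)]⟩,⟨0,[(18,0)]⟩⟩,
  .o ⟨false,1,⟨1,[(19,1),(8,0),(3,0)]⟩,⟨0,[(8,0)]⟩⟩,.a ⟨true,0,⟨0,[(19,0)]⟩,⟨0,[(16,0)]⟩⟩ ⟨true,0,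
  ⟨0,[(1,0),(27,0)]⟩,⟨0,[(3,0),(15,0),(11,0)]⟩⟩ ⟨false,1,⟨0,[(0,0),(15,0)]⟩,⟨0,[(3,0),(15,0)]⟩⟩]⟩)
  (.I [1,0,0,-1,0,0,0,1] (.Q [0,0,0,0,0,1,0,0,0,-1,0,1] (.ed false [0,1,0,0,1] .k) (.Q [0,-2,-1,0,1,
  0,-1,0,0,0,-1] (.p false [0,0,1] [] (⟨0,[(24,0)]⟩,⟨0,[(23,0)]⟩) .k 0 (⟨0,[]⟩,⟨0,[]⟩) .k .k) (.Q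
  [0,0,-1,0,0,0,-1,0,1,-1,-1,1] (.p true [0,0,-1,0,1] [1] (⟨0,[(1,0),(11,0)]⟩,⟨0,[(17,0),(7,0)]⟩)
  .k 1 (⟨0,[]⟩,⟨0,[]⟩) .k (.r 0 ⟨1,[(3,1),(18,1),(8,0),(3,0)]⟩ ⟨5,[(4,1),(7,1),(7,3),(10,0),(4,
  4)]⟩)) (.R ⟨1,false,false,false,[1,0,1,0,-1],[1,0,0,0,-1],[0,0,0,0,0,0,0,1],(⟨0,[(18,0),(7,0)]⟩,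
  ⟨0,[(2,0),(11,0)]⟩),(⟨0,[(18,0)]⟩,⟨0,[(19,0)]⟩),⟨0,[(15,0),(2,0)]⟩,.k,.k,(.r (-1) ⟨1,[(3,1),(32,
  0),(0,0)]⟩ ⟨0,[(22,0),(0,0),(11,0)]⟩),.k,.k,.k,⟨false,0,⟨0,[(5,0),(2,0),(1,0)]⟩,⟨1,[(7,1),(15,1),
  (12,0),(0,0)]⟩⟩,⟨true,0,⟨0,[(12,0)]⟩,⟨0,[(23,0)]⟩⟩,⟨true,0,⟨0,[(39,0)]⟩,⟨0,[]⟩⟩,⟨true,0,⟨0,[(7,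
  0)]⟩,⟨0,[(21,0)]⟩⟩,⟨false,0,⟨0,[(35,0)]⟩,⟨0,[(34,0),(2,0)]⟩⟩,⟨true,0,⟨0,[(7,0),(27,0)]⟩,⟨0,[(11,
  0)]⟩⟩,[.a ⟨true,1,⟨0,[(4,0),(0,0),(2,0),(14,0),(13,0)]⟩,⟨0,[(10,0)]⟩⟩ ⟨true,0,⟨0,[(5,0)]⟩,⟨0,[(7,
  0),(15,0)]⟩⟩ ⟨false,1,⟨5,[(1,1),(11,1),(18,0),(3,1),(0,0)]⟩,⟨0,[(8,0),(1,0),(12,0)]⟩⟩,.e ⟨false,1,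
  ⟨1,[(5,1),(30,0),(0,0)]⟩,⟨1,[(4,1),(18,1),(8,0),(3,0)]⟩⟩ ⟨false,1,⟨0,[(1,0)]⟩,⟨0,[(23,0),(7,0)]⟩⟩,
  .o ⟨false,1,⟨0,[(8,0),(14,0)]⟩,⟨3,[(0,1),(9,1),(13,1),(7,0),(4,0)]⟩⟩,.o ⟨false,1,⟨0,[(16,0),(6,
  0)]⟩,⟨0,[(0,0)]⟩⟩]⟩) (.R ⟨1,false,false,false,[1,0,1,0,-1],[1,0,0,0,-1],[0,0,0,0,0,0,0,1],(⟨0,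
  [(18,0),(7,0)]⟩,⟨0,[(2,0),(11,0)]⟩),(⟨0,[(18,0)]⟩,⟨0,[(19,0)]⟩),⟨0,[(15,0),(2,0)]⟩,.k,.k,(.r (-1)
  ⟨1,[(3,1),(32,0),(0,0)]⟩ ⟨0,[(22,0),(0,0),(11,0)]⟩),.k,.k,.k,⟨false,0,⟨0,[(5,0),(2,0),(1,0)]⟩,⟨1,
  [(7,1),(15,1),(12,0),(0,0)]⟩⟩,⟨true,0,⟨0,[(12,0)]⟩,⟨0,[(23,0)]⟩⟩,⟨true,0,⟨0,[(39,0)]⟩,⟨0,[]⟩⟩,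
  ⟨true,0,⟨0,[(7,0)]⟩,⟨0,[(21,0)]⟩⟩,⟨false,0,⟨0,[(35,0)]⟩,⟨0,[(34,0),(2,0)]⟩⟩,⟨true,0,⟨0,[(7,0),(27,
  0)]⟩,⟨0,[(11,0)]⟩⟩,[.a ⟨true,1,⟨1,[(0,0),(15,0),(3,0),(16,0)]⟩,⟨0,[(10,0)]⟩⟩ ⟨true,0,⟨0,[(5,0)]⟩,
  ⟨0,[(7,0),(15,0)]⟩⟩ ⟨false,1,⟨5,[(1,1),(11,1),(18,0),(3,1),(0,0)]⟩,⟨1,[(0,1),(9,1),(21,0),(3,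
  0)]⟩⟩,.e ⟨false,1,⟨1,[(5,1),(30,0),(0,0)]⟩,⟨1,[(4,1),(18,1),(8,0),(3,0)]⟩⟩ ⟨false,1,⟨0,[(1,0)]⟩,
  ⟨0,[(23,0),(7,0)]⟩⟩,.o ⟨false,1,⟨1,[(0,1),(31,0),(3,0)]⟩,⟨1,[(1,0),(8,1),(13,0),(7,0)]⟩⟩,.e
  ⟨false,1,⟨1,[(5,1),(30,0),(0,0)]⟩,⟨0,[(7,0),(15,0)]⟩⟩ ⟨false,1,⟨0,[(1,0)]⟩,⟨0,[(23,0),(15,
  0)]⟩⟩]⟩)) (.Q [0,-1,1,-1,1,0,1,1,-1,0,1,-1] (.p false [0,0,-1,0,1] [] (⟨0,[(1,0),(11,0)]⟩,⟨0,[(17,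
  0),(7,0)]⟩) .k 0 (⟨0,[]⟩,⟨0,[]⟩) .k (.r 0 ⟨1,[(0,0),(5,1),(15,0),(12,0)]⟩ ⟨5,[(4,1),(7,1),(7,3),
  (10,0),(4,4)]⟩)) (.R ⟨0,false,false,true,[1,0,0,0,-1],[1,1,-1],[1,1,1],(⟨0,[(18,0)]⟩,⟨0,[(19,
  0)]⟩),(⟨0,[(25,0),(1,0)]⟩,⟨0,[(15,0)]⟩),⟨0,[(2,0)]⟩,.k,.k,(.r (-1) ⟨0,[(33,0),(3,0)]⟩ ⟨1,[(23,0),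
  (0,0),(10,1),(3,1)]⟩),(.r (-1) ⟨0,[(0,0),(5,0)]⟩ ⟨0,[(22,0),(0,0),(11,0)]⟩),.k,.k,⟨true,0,⟨0,[(3,
  0)]⟩,⟨0,[(7,0),(15,0),(11,0)]⟩⟩,⟨false,0,⟨0,[(6,0)]⟩,⟨0,[(16,0),(6,0)]⟩⟩,⟨true,(-1),⟨0,[(1,0),(10,
  0)]⟩,⟨1,[(36,0),(0,0)]⟩⟩,⟨false,(-1),⟨0,[(7,0),(2,0),(24,0)]⟩,⟨1,[(0,1),(35,0),(0,0)]⟩⟩,⟨false,0,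
  ⟨0,[]⟩,⟨0,[]⟩⟩,⟨false,0,⟨0,[]⟩,⟨0,[]⟩⟩,[.a ⟨true,(-1),⟨0,[(4,0),(30,0)]⟩,⟨0,[(11,0),(25,0)]⟩⟩
  ⟨false,0,⟨0,[(39,0)]⟩,⟨1,[(36,0),(0,0)]⟩⟩ ⟨true,(-1),⟨0,[(7,0),(2,0),(24,0)]⟩,⟨0,[(0,0)]⟩⟩,.o
  ⟨false,0,⟨0,[(7,0),(27,0)]⟩,⟨1,[(11,1),(20,0),(4,0)]⟩⟩,.o ⟨false,1,⟨0,[(16,0)]⟩,⟨1,[(10,1),(21,0),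
  (4,0)]⟩⟩,.e ⟨false,0,⟨0,[]⟩,⟨1,[(16,0),(0,0),(19,0)]⟩⟩ ⟨false,0,⟨1,[(7,1),(2,1),(24,1),(0,0),(0,
  0)]⟩,⟨0,[(0,0)]⟩⟩]⟩) (.R ⟨1,false,false,false,[1,0,1,0,-1],[1,0,0,0,-1],[0,0,0,0,0,0,0,1],(⟨0,
  [(18,0),(7,0)]⟩,⟨0,[(2,0),(11,0)]⟩),(⟨0,[(18,0)]⟩,⟨0,[(19,0)]⟩),⟨0,[(15,0),(2,0)]⟩,.k,.k,(.r (-1)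
  ⟨1,[(3,1),(32,0),(0,0)]⟩ ⟨0,[(22,0),(0,0),(11,0)]⟩),.k,.k,.k,⟨false,0,⟨2,[(0,0),(4,2),(2,0),(12,
  0),(11,0)]⟩,⟨1,[(7,1),(15,1),(12,0),(0,0)]⟩⟩,⟨true,0,⟨0,[(12,0)]⟩,⟨0,[(23,0)]⟩⟩,⟨true,0,⟨0,[(39,
  0)]⟩,⟨0,[]⟩⟩,⟨true,0,⟨0,[(7,0)]⟩,⟨0,[(21,0)]⟩⟩,⟨false,0,⟨0,[(35,0)]⟩,⟨0,[(34,0),(2,0)]⟩⟩,⟨true,0,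
  ⟨0,[(7,0),(27,0)]⟩,⟨0,[(11,0)]⟩⟩,[.a ⟨true,1,⟨0,[(4,0),(0,0),(2,0),(14,0),(13,0)]⟩,⟨0,[(10,0)]⟩⟩
  ⟨true,0,⟨0,[(5,0)]⟩,⟨0,[(7,0),(15,0)]⟩⟩ ⟨false,1,⟨5,[(6,1),(1,1),(4,1),(18,0),(4,2)]⟩,⟨1,[(1,0),
  (21,0),(12,0)]⟩⟩,.o ⟨false,2,⟨0,[(16,0),(20,0)]⟩,⟨1,[(0,0),(0,0),(1,0),(6,0),(21,0)]⟩⟩,.o ⟨false,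
  1,⟨0,[(8,0),(14,0)]⟩,⟨1,[(10,1),(1,1),(19,0),(4,0)]⟩⟩,.o ⟨false,1,⟨0,[(16,0),(6,0)]⟩,⟨1,[(0,1),(2,
  1),(28,0),(4,0)]⟩⟩]⟩))) (.Q [0,1,0,-1,-1,0,0,0,1,0,0,1] (.p true [0,0,0,0,1] [] (⟨0,[(17,0)]⟩,⟨0,
  [(16,0)]⟩) .k 0 (⟨0,[]⟩,⟨0,[]⟩) .k .k) (.Q [0,0,2,0,-1,0,0,0,0,1] (.pp false [-1,1]) (.Q [0,2,0,0,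
  -1,0,0,0,1,-1,0,1] (.p true [0,0,0,0,1] [1] (⟨0,[(19,0)]⟩,⟨0,[(18,0)]⟩) .k 1 (⟨0,[]⟩,⟨0,[]⟩) .k
  .k) (.S ⟨1,0,[0,-1],[1,0,0,0,-1],[1,0,0,-1],(⟨0,[(19,0)]⟩,⟨0,[(20,0)]⟩),⟨0,[(3,0)]⟩,.k,(.r (-1)
  ⟨0,[(34,0),(3,0)]⟩ ⟨1,[(24,0),(0,0),(10,1),(3,1)]⟩),⟨true,0,⟨0,[(35,0)]⟩,⟨0,[(36,0)]⟩⟩,⟨false,1,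
  ⟨1,[(17,0),(0,0),(19,0)]⟩,⟨0,[]⟩⟩,⟨false,0,⟨0,[]⟩,⟨1,[(17,0),(0,0),(19,0)]⟩⟩,⟨true,0,⟨0,[(36,0)]⟩,
  ⟨0,[(35,0)]⟩⟩,[.e ⟨false,1,⟨1,[(35,1),(1,0),(0,0)]⟩,⟨0,[(36,0)]⟩⟩ ⟨false,1,⟨1,[(37,0),(0,0)]⟩,⟨0,
  [(40,0)]⟩⟩,.o ⟨false,2,⟨0,[(17,0),(20,0)]⟩,⟨0,[(0,0)]⟩⟩,.o ⟨false,1,⟨0,[(17,0)]⟩,⟨0,[(0,0),(37,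
  0)]⟩⟩,.a ⟨true,0,⟨0,[(1,0),(7,0)]⟩,⟨1,[(11,1),(25,0),(0,0)]⟩⟩ ⟨false,1,⟨0,[(34,0),(3,0)]⟩,⟨1,[(24,
  0),(0,0),(10,1)]⟩⟩ ⟨true,1,⟨1,[(37,0),(0,0)]⟩,⟨0,[(0,0),(0,0),(7,0)]⟩⟩]⟩) (.I [1,1,2,1,-1] (.S ⟨1,
  0,[0,0,-1,-1],[1,-1],[0,1,-1,-1],(⟨0,[(31,0)]⟩,⟨0,[(32,0)]⟩),⟨0,[(4,0),(6,0)]⟩,.k,(.r (-1) ⟨0,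
  [(35,1),(3,0)]⟩ ⟨1,[(0,1),(17,0),(0,0),(17,1),(1,0)]⟩),⟨true,0,⟨0,[(41,0)]⟩,⟨0,[]⟩⟩,⟨false,1,⟨1,
  [(18,0),(0,0),(19,0)]⟩,⟨0,[]⟩⟩,⟨false,0,⟨0,[(37,0)]⟩,⟨0,[(36,0),(2,0)]⟩⟩,⟨true,0,⟨0,[(37,0)]⟩,⟨0,
  [(36,0)]⟩⟩,[.a ⟨true,0,⟨2,[(1,1),(1,0),(2,0),(6,0),(5,0),(16,0)]⟩,⟨0,[(37,0)]⟩⟩ ⟨true,0,⟨0,[(35,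
  0)]⟩,⟨0,[(0,0),(38,0)]⟩⟩ ⟨false,1,⟨1,[(35,1),(2,0),(0,0)]⟩,⟨3,[(0,1),(17,0),(0,0),(17,1),(1,0)]⟩⟩,
  .a ⟨true,0,⟨0,[(1,0),(1,0)]⟩,⟨4,[(0,0),(17,0),(0,0),(13,1),(3,3)]⟩⟩ ⟨false,1,⟨1,[(35,1),(2,0),(0,
  0)]⟩,⟨3,[(0,1),(17,0),(0,0),(17,1),(1,0)]⟩⟩ ⟨true,1,⟨0,[(35,0),(3,0)]⟩,⟨0,[(0,0)]⟩⟩,.o ⟨false,0,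
  ⟨1,[(25,0),(0,0)]⟩,⟨1,[(34,0),(3,0)]⟩⟩,.a ⟨true,(-1),⟨0,[(2,0)]⟩,⟨0,[(38,0)]⟩⟩ ⟨false,1,⟨1,[(35,
  1),(2,0),(0,0)]⟩,⟨0,[(0,0),(38,0)]⟩⟩ ⟨true,1,⟨1,[(35,1),(2,0),(0,0)]⟩,⟨0,[(0,0)]⟩⟩]⟩) (.S ⟨1,0,[0,
  0,-1,-1],[1,-1],[0,1,-1,-1],(⟨0,[(31,0)]⟩,⟨0,[(32,0)]⟩),⟨0,[(4,0),(6,0)]⟩,.k,(.r (-1) ⟨0,[(0,0),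
  (35,0)]⟩ ⟨0,[(25,0),(0,0),(10,1)]⟩),⟨true,0,⟨0,[(41,0)]⟩,⟨0,[]⟩⟩,⟨false,1,⟨1,[(18,0),(0,0),(19,
  0)]⟩,⟨0,[]⟩⟩,⟨false,0,⟨0,[(37,0)]⟩,⟨0,[(36,0),(2,0)]⟩⟩,⟨true,0,⟨0,[(37,0)]⟩,⟨0,[(36,0)]⟩⟩,[.a
  ⟨true,0,⟨2,[(1,1),(1,0),(2,0),(6,0),(5,0),(16,0)]⟩,⟨0,[(37,0)]⟩⟩ ⟨true,0,⟨0,[(35,0)]⟩,⟨1,[(2,1),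
  (31,0),(2,1),(1,0)]⟩⟩ ⟨false,1,⟨1,[(0,0),(35,0),(1,0)]⟩,⟨1,[(25,0),(0,0),(10,1)]⟩⟩,.e ⟨false,1,⟨1,
  [(0,0),(35,0),(1,0)]⟩,⟨1,[(25,0),(0,0),(10,1)]⟩⟩ ⟨false,1,⟨0,[(0,0)]⟩,⟨1,[(25,0),(0,0),(10,1),(3,
  1)]⟩⟩,.o ⟨false,0,⟨1,[(25,0),(0,0)]⟩,⟨1,[(34,0),(3,0)]⟩⟩,.e ⟨false,1,⟨1,[(0,0),(35,0),(1,0)]⟩,⟨1,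
  [(2,1),(31,0),(2,1),(1,0)]⟩⟩ ⟨false,1,⟨0,[(0,0)]⟩,⟨0,[(25,0),(0,0),(10,0)]⟩⟩]⟩))) (.Q [0,-1,0,1,1,
  0,1,1,0,-1,1] (.p true [0,0,1] [1] (⟨0,[(26,0)]⟩,⟨0,[(25,0)]⟩) .k 1 (⟨0,[]⟩,⟨0,[]⟩) .k .k) (.R ⟨1,
  false,false,true,[0,0,1],[1,-1],[0,1,0,-1],(⟨0,[(27,0)]⟩,⟨0,[(26,0)]⟩),(⟨0,[(30,0)]⟩,⟨0,[(31,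
  0)]⟩),⟨0,[(16,0)]⟩,.k,.k,.k,.k,.k,.k,⟨true,0,⟨1,[(24,0),(0,0)]⟩,⟨0,[]⟩⟩,⟨false,0,⟨1,[(14,0),(13,
  0),(1,0)]⟩,⟨0,[(1,0),(22,0)]⟩⟩,⟨true,0,⟨0,[(8,0),(15,0),(9,0)]⟩,⟨0,[(6,0),(29,0)]⟩⟩,⟨false,0,⟨0,
  [(5,0),(29,0),(2,0)]⟩,⟨0,[(0,0)]⟩⟩,⟨true,0,⟨1,[(1,0),(3,0),(17,0),(0,1)]⟩,⟨0,[(6,0)]⟩⟩,⟨true,(-1),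
  ⟨0,[(5,0)]⟩,⟨3,[(0,1),(11,1),(4,0),(0,0),(14,0)]⟩⟩,[.o ⟨false,0,⟨0,[(35,0)]⟩,⟨0,[(0,0),(7,0)]⟩⟩,
  .e ⟨false,1,⟨1,[(35,1),(1,0),(0,0)]⟩,⟨0,[(36,0)]⟩⟩ ⟨false,0,⟨1,[(4,0),(0,0),(15,0),(12,0),(3,0)]⟩,
  ⟨1,[(0,0),(0,0),(21,0),(0,1),(11,0)]⟩⟩,.o ⟨false,1,⟨1,[(24,1),(8,0),(3,0)]⟩,⟨0,[(13,0)]⟩⟩,.a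
  ⟨true,0,⟨0,[(24,0)]⟩,⟨0,[(21,0)]⟩⟩ ⟨true,0,⟨0,[(34,0)]⟩,⟨1,[(24,0),(0,0),(10,1)]⟩⟩ ⟨false,0,⟨1,
  [(4,0),(0,0),(15,0),(12,0),(3,0)]⟩,⟨0,[(0,0),(7,0),(15,0)]⟩⟩]⟩) (.Q [0,0,0,0,0,0,0,0,0,0,1,-1]
  (.ed true [1,0,-1,0,1] (.r 0 ⟨1,[(1,0),(3,0),(17,0),(0,1)]⟩ ⟨5,[(6,1),(7,1),(7,3),(10,0),(4,
  4)]⟩)) (.Q [0,0,1,0,-1,0,-1,0,1,0,-1,1] (.p true [1,0,-1,0,1] [1] (⟨0,[(21,0),(5,0)]⟩,⟨0,[(0,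
  0)]⟩) .k 1 (⟨0,[]⟩,⟨0,[]⟩) .k (.r 0 ⟨1,[(2,0),(3,0),(17,0),(0,1)]⟩ ⟨5,[(7,1),(7,1),(7,3),(10,0),
  (4,4)]⟩)) (.S ⟨1,0,[0,1,0,0,0,0,0,-1],[1,0,-1,0,1],[1,2,0,-1,0,0,0,-1],(⟨0,[(22,0),(5,0)]⟩,⟨0,[(1,
  0)]⟩),⟨0,[(17,0),(4,0)]⟩,.k,(.r 0 ⟨0,[(2,0),(0,0),(22,0)]⟩ ⟨0,[(24,0),(2,0),(10,0),(1,0)]⟩),⟨true,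
  0,⟨0,[(37,0)]⟩,⟨0,[(38,0)]⟩⟩,⟨false,1,⟨1,[(19,0),(0,0),(19,0)]⟩,⟨0,[]⟩⟩,⟨false,0,⟨0,[]⟩,⟨1,[(19,
  0),(0,0),(19,0)]⟩⟩,⟨true,0,⟨0,[(38,0)]⟩,⟨0,[(37,0)]⟩⟩,[.o ⟨false,(-1),⟨0,[(10,0),(2,0)]⟩,⟨1,[(8,
  1),(2,1),(14,1),(8,0),(4,0)]⟩⟩,.e ⟨false,0,⟨0,[(2,0),(0,0),(22,0)]⟩,⟨5,[(8,1),(7,1),(7,3),(10,0),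
  (2,5),(1,4)]⟩⟩ ⟨false,1,⟨0,[(10,0),(15,0),(12,0)]⟩,⟨0,[(8,0)]⟩⟩,.a ⟨true,(-1),⟨0,[(7,0),(0,0),(4,
  0),(26,0)]⟩,⟨0,[(11,0),(14,0)]⟩⟩ ⟨false,0,⟨7,[(2,5),(0,3),(21,1),(0,7),(8,0),(1,1),(2,0)]⟩,⟨0,[(8,
  0),(29,0),(1,0)]⟩⟩ ⟨true,0,⟨1,[(3,0),(3,0),(17,0),(0,1)]⟩,⟨0,[(8,0)]⟩⟩,.o ⟨false,(-1),⟨0,[(0,0)]⟩,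
  ⟨1,[(11,1),(14,1),(8,0),(3,0)]⟩⟩]⟩) (.Q [0,0,1,0,0,0,0,0,-1,1,0,-1] (.p false [0,0,0,0,1] [1] (⟨0,
  [(22,0)]⟩,⟨0,[(21,0)]⟩) .k 1 (⟨0,[]⟩,⟨0,[]⟩) .k .k) (.Q [0,2,0,1,-1,0,0,0,1,-1,0,1] (.p true [0,0,
  0,0,1] [1] (⟨0,[(23,0)]⟩,⟨0,[(22,0)]⟩) .k 1 (⟨0,[]⟩,⟨0,[]⟩) .k .k) (.S ⟨1,0,[0,2,1,1],[0,1,0,0,1],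
  [1,1,1],(⟨0,[(24,0),(7,0)]⟩,⟨0,[(7,0)]⟩),⟨0,[(24,0)]⟩,(.r 0 ⟨1,[(28,0),(0,0),(10,1),(3,1)]⟩ ⟨0,
  [(38,0),(3,0)]⟩),.k,⟨false,1,⟨0,[(39,0),(2,0)]⟩,⟨0,[(40,0)]⟩⟩,⟨true,0,⟨0,[(44,0)]⟩,⟨0,[]⟩⟩,⟨true,
  0,⟨0,[]⟩,⟨0,[(44,0)]⟩⟩,⟨false,0,⟨0,[(40,0)]⟩,⟨0,[(39,0),(2,0)]⟩⟩,[.o ⟨false,(-1),⟨0,[(0,0)]⟩,⟨2,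
  [(1,0),(0,0),(1,0),(3,0),(12,0),(15,0),(1,0),(2,3)]⟩⟩,.e ⟨false,0,⟨0,[]⟩,⟨1,[(21,0),(0,0),(18,
  0)]⟩⟩ ⟨false,0,⟨0,[(40,0),(3,0)]⟩,⟨0,[(38,0),(3,0)]⟩⟩,.a ⟨true,0,⟨2,[(2,0),(8,0),(3,1),(6,0),(19,
  0)]⟩,⟨0,[(1,0)]⟩⟩ ⟨false,0,⟨1,[(28,0),(0,0)]⟩,⟨1,[(41,0),(0,0)]⟩⟩ ⟨true,(-1),⟨0,[(0,0),(0,0)]⟩,⟨0,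
  [(38,0),(3,0)]⟩⟩,.o ⟨false,0,⟨1,[(15,1),(21,0),(4,0)]⟩,⟨0,[(21,0)]⟩⟩]⟩) (.Q [0,0,0,0,0,0,-1,0,-1,
  1,-1,-1] (.p false [0,0,1] [1,0,0,0,-1] (⟨0,[(31,0)]⟩,⟨0,[(30,0)]⟩) .k 2 (⟨0,[(23,0)]⟩,⟨0,[(24,
  0)]⟩) .k (.r 0 ⟨2,[(10,1),(15,0),(2,0),(6,0)]⟩ ⟨1,[(2,0),(9,1),(9,0),(5,0),(13,0)]⟩)) (.R ⟨1,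
  false,false,true,[1,0,0,0,-1],[0,-1,1],[],(⟨0,[(24,0)]⟩,⟨0,[(25,0)]⟩),(⟨0,[(21,0)]⟩,⟨0,[(31,0),(1,
  0)]⟩),⟨0,[(8,0)]⟩,.k,.k,(.r (-1) ⟨3,[(1,1),(4,1),(0,0),(15,0),(16,0),(2,0)]⟩ ⟨1,[(29,0),(0,0),(10,
  1),(3,1)]⟩),(.r (-1) ⟨0,[(28,0),(0,0),(11,0),(1,0)]⟩ ⟨0,[(11,0),(27,0)]⟩),.k,.k,⟨false,1,⟨1,[(3,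
  0),(9,1),(9,0),(5,0),(11,1),(1,0)]⟩,⟨0,[(11,0),(27,0)]⟩⟩,⟨true,0,⟨1,[(16,1),(12,1),(8,0),(4,0)]⟩,
  ⟨0,[(0,0)]⟩⟩,⟨true,0,⟨0,[(45,0)]⟩,⟨0,[]⟩⟩,⟨false,0,⟨1,[(16,1),(0,1),(20,0),(4,0)]⟩,⟨0,[(1,0),(11,
  0),(27,1)]⟩⟩,⟨false,0,⟨0,[(41,0)]⟩,⟨0,[(40,0),(2,0)]⟩⟩,⟨false,0,⟨1,[(16,1),(10,1),(10,0),(4,0)]⟩,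
  ⟨0,[(1,0),(11,0),(27,0)]⟩⟩,[.e ⟨false,1,⟨1,[(22,0),(0,0),(18,0)]⟩,⟨0,[]⟩⟩ ⟨false,0,⟨0,[(6,0),(2,
  0),(6,0),(12,0)]⟩,⟨2,[(0,0),(1,0),(0,0),(6,0),(17,1),(12,2),(1,2)]⟩⟩,.o ⟨false,1,⟨1,[(17,1),(20,
  0),(4,0)]⟩,⟨0,[(13,0),(27,0)]⟩⟩,.o ⟨false,1,⟨0,[(22,0)]⟩,⟨1,[(16,1),(21,0),(4,0)]⟩⟩,.a ⟨true,0,⟨0,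
  [(2,0)]⟩,⟨2,[(3,0),(8,0),(3,1),(6,0),(19,0)]⟩⟩ ⟨false,1,⟨1,[(42,0),(0,0)]⟩,⟨1,[(29,0),(0,0)]⟩⟩
  ⟨true,0,⟨0,[(6,0),(2,0),(6,0),(12,0)]⟩,⟨0,[(2,0),(10,0),(27,0)]⟩⟩]⟩) (.R ⟨1,false,false,true,[1,0,
  0,0,-1],[0,0,1],[],(⟨0,[(24,0)]⟩,⟨0,[(25,0)]⟩),(⟨0,[(32,0)]⟩,⟨0,[(31,0)]⟩),⟨0,[(8,0)]⟩,.k,.k,(.r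
  (-1) ⟨3,[(0,0),(0,1),(4,0),(5,0),(27,1),(2,0)]⟩ ⟨1,[(29,0),(0,0),(10,1),(3,1)]⟩),.k,(.r (-1) ⟨6,
  [(0,5),(0,4),(1,0),(1,1),(0,0),(6,3),(14,0),(13,1)]⟩ ⟨0,[(27,0),(2,0),(10,0)]⟩),.k,⟨false,1,⟨3,
  [(0,1),(2,1),(6,1),(2,1),(28,0),(0,2)]⟩,⟨2,[(11,1),(15,0),(2,0),(6,0)]⟩⟩,⟨true,0,⟨0,[(0,0)]⟩,⟨0,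
  [(2,0),(15,0)]⟩⟩,⟨true,0,⟨0,[(45,0)]⟩,⟨0,[]⟩⟩,⟨false,0,⟨2,[(0,0),(10,0),(4,0),(6,0),(3,1),(10,
  0)]⟩,⟨0,[(1,0),(11,0),(27,0)]⟩⟩,⟨false,0,⟨0,[(41,0)]⟩,⟨0,[(40,0),(2,0)]⟩⟩,⟨false,0,⟨2,[(0,0),(10,
  0),(4,0),(6,0),(3,1),(10,0),(2,2)]⟩,⟨0,[(1,0),(11,0)]⟩⟩,[.e ⟨false,1,⟨1,[(22,0),(0,0),(18,0)]⟩,⟨0,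
  []⟩⟩ ⟨false,0,⟨1,[(0,0),(5,0),(4,0),(4,0),(10,0)]⟩,⟨3,[(2,1),(0,1),(6,0),(2,1),(5,0),(8,0),(14,
  2)]⟩⟩,.o ⟨false,1,⟨1,[(27,1),(10,0),(4,0)]⟩,⟨0,[(13,0)]⟩⟩,.o ⟨false,1,⟨0,[(22,0)]⟩,⟨0,[(0,0),(17,
  0)]⟩⟩,.a ⟨true,0,⟨0,[(2,0)]⟩,⟨0,[(0,0),(25,0)]⟩⟩ ⟨false,1,⟨1,[(42,0),(0,0)]⟩,⟨1,[(29,0),(0,0)]⟩⟩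
  ⟨true,0,⟨1,[(0,0),(5,0),(4,0),(4,0),(10,0)]⟩,⟨0,[(2,0),(10,0)]⟩⟩]⟩))) (.I [0,2,1,0,-1] (.S ⟨1,0,
  [],[1,0,0,0,-1],[0,-1],(⟨0,[(23,0)]⟩,⟨0,[(24,0)]⟩),⟨0,[(7,0)]⟩,.k,(.r (-1) ⟨0,[(38,0),(3,0)]⟩ ⟨1,
  [(28,0),(0,0),(10,1),(3,1)]⟩),⟨false,1,⟨1,[(21,0),(0,0),(19,0)]⟩,⟨0,[]⟩⟩,⟨true,0,⟨0,[(44,0)]⟩,⟨0,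
  []⟩⟩,⟨true,0,⟨0,[(40,0)]⟩,⟨0,[(39,0)]⟩⟩,⟨false,0,⟨0,[(40,0)]⟩,⟨0,[(39,0),(2,0)]⟩⟩,[.o ⟨false,1,⟨0,
  [(21,0)]⟩,⟨1,[(15,1),(21,0),(4,0)]⟩⟩,.a ⟨true,1,⟨1,[(2,0),(6,1),(0,1),(10,0),(6,0),(13,1)]⟩,⟨0,
  [(15,0)]⟩⟩ ⟨true,1,⟨0,[(42,0)]⟩,⟨0,[(0,0)]⟩⟩ ⟨false,1,⟨1,[(41,0),(0,0)]⟩,⟨0,[(44,0)]⟩⟩,.o ⟨false,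
  1,⟨0,[(21,0)]⟩,⟨1,[(15,1),(21,0),(4,0)]⟩⟩,.o ⟨false,1,⟨1,[(21,1),(6,0),(0,0)]⟩,⟨0,[(1,0)]⟩⟩]⟩)
  (.Q [0,0,0,0,0,-1,0,0,0,0,1,-1] (.p false [1,0,-1,0,1] [1] (⟨0,[(24,0),(5,0)]⟩,⟨0,[(3,0)]⟩) .k 1
  (⟨0,[]⟩,⟨0,[]⟩) .k (.r 0 ⟨2,[(1,0),(0,0),(6,0),(17,1),(0,1)]⟩ ⟨5,[(10,1),(7,1),(7,3),(10,0),(4,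
  4)]⟩)) (.S ⟨1,0,[0,-1,0,0,0,0,0,1],[0,0,1,0,-1],[1,0,0,-1,0,0,0,1],(⟨0,[(4,0)]⟩,⟨0,[(25,0),(5,
  0)]⟩),⟨0,[(0,0)]⟩,.k,(.r (-1) ⟨1,[(9,1),(32,0),(0,0)]⟩ ⟨0,[(28,0),(0,0),(11,0)]⟩),⟨true,0,⟨0,[(40,
  0)]⟩,⟨0,[(41,0)]⟩⟩,⟨false,1,⟨1,[(22,0),(0,0),(19,0)]⟩,⟨0,[]⟩⟩,⟨false,0,⟨0,[]⟩,⟨1,[(22,0),(0,0),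
  (19,0)]⟩⟩,⟨true,0,⟨0,[(41,0)]⟩,⟨0,[(40,0)]⟩⟩,[.o ⟨false,2,⟨1,[(3,0),(7,1),(10,0),(6,0),(8,0),(4,
  0)]⟩,⟨0,[(13,0),(2,0)]⟩⟩,.e ⟨false,1,⟨1,[(9,1),(32,0),(0,0)]⟩,⟨2,[(2,0),(0,0),(6,0),(17,1),(0,1),
  (11,2)]⟩⟩ ⟨false,1,⟨0,[(1,0),(9,0)]⟩,⟨2,[(3,0),(12,0),(11,2),(0,1),(7,0)]⟩⟩,.a ⟨true,1,⟨1,[(3,0),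
  (18,0),(6,0)]⟩,⟨0,[(10,0),(0,0),(4,0),(26,0)]⟩⟩ ⟨true,0,⟨0,[(9,0)]⟩,⟨2,[(2,0),(0,0),(6,0),(17,1),
  (0,1),(11,2)]⟩⟩ ⟨false,1,⟨0,[(11,0),(31,0)]⟩,⟨2,[(2,0),(0,0),(6,0),(17,1),(0,1)]⟩⟩,.e ⟨false,1,⟨1,
  [(9,1),(32,0),(0,0)]⟩,⟨0,[(13,0),(15,0),(11,0)]⟩⟩ ⟨false,1,⟨0,[(1,0),(9,0)]⟩,⟨0,[(28,0),(0,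
  0)]⟩⟩]⟩) (.R ⟨0,false,false,true,[0,0,1,0,-1],[1,0,0,0,-1],[0,0,1],(⟨0,[(4,0)]⟩,⟨0,[(0,0),(34,
  0)]⟩),(⟨0,[(24,0)]⟩,⟨0,[(25,0)]⟩),⟨0,[(0,0)]⟩,.k,.k,(.r (-1) ⟨1,[(9,1),(32,0),(0,0)]⟩ ⟨0,[(28,0),
  (0,0),(11,0)]⟩),.k,.k,.k,⟨true,0,⟨1,[(29,0),(0,0)]⟩,⟨0,[]⟩⟩,⟨false,0,⟨0,[(26,0)]⟩,⟨1,[(3,0),(19,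
  0),(5,0),(8,0)]⟩⟩,⟨false,0,⟨0,[(13,0),(15,0)]⟩,⟨1,[(11,1),(30,0),(0,0)]⟩⟩,⟨true,(-1),⟨0,[(10,0)]⟩,
  ⟨1,[(27,1),(10,0),(4,0)]⟩⟩,⟨false,0,⟨0,[]⟩,⟨0,[]⟩⟩,⟨false,0,⟨0,[]⟩,⟨0,[]⟩⟩,[.o ⟨false,1,⟨0,[(22,
  0)]⟩,⟨1,[(16,1),(21,0),(4,0)]⟩⟩,.e ⟨false,1,⟨1,[(22,0),(0,0),(19,0)]⟩,⟨3,[(3,0),(2,0),(3,0),(0,0),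
  (4,0),(20,0)]⟩⟩ ⟨false,0,⟨0,[(1,0),(8,0),(0,0)]⟩,⟨3,[(3,0),(18,0),(0,1),(5,2),(7,1),(0,1)]⟩⟩,.a
  ⟨true,1,⟨1,[(3,0),(18,0),(6,0)]⟩,⟨0,[(10,0),(0,0),(4,0),(26,0)]⟩⟩ ⟨true,0,⟨1,[(29,0),(0,0)]⟩,⟨3,
  [(3,0),(2,0),(3,0),(0,0),(4,0),(20,0)]⟩⟩ ⟨false,0,⟨0,[(10,0),(0,0),(31,0)]⟩,⟨1,[(3,0),(19,0),(5,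
  0),(8,0)]⟩⟩,.e ⟨false,1,⟨1,[(22,0),(0,0),(19,0)]⟩,⟨0,[]⟩⟩ ⟨false,0,⟨0,[(1,0),(8,0),(0,0)]⟩,⟨1,
  [(22,0),(0,0),(5,1),(8,0)]⟩⟩]⟩))))) (.I [0,1,2,2,-1] (.S ⟨1,0,[0,1,-1,-1],[1,-1],[1,0,-1,-2],(⟨0,
  [(32,0)]⟩,⟨0,[(33,0)]⟩),⟨0,[(5,0),(6,0)]⟩,.k,(.r (-1) ⟨0,[(36,1),(3,0)]⟩ ⟨1,[(0,1),(18,0),(0,0),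
  (19,0)]⟩),⟨false,1,⟨0,[(37,0),(2,0)]⟩,⟨0,[(38,0)]⟩⟩,⟨true,0,⟨0,[(42,0)]⟩,⟨0,[]⟩⟩,⟨true,0,⟨0,[]⟩,
  ⟨0,[(42,0)]⟩⟩,⟨false,0,⟨0,[(38,0)]⟩,⟨0,[(37,0),(2,0)]⟩⟩,[.o ⟨false,0,⟨0,[(37,0)]⟩,⟨3,[(0,1),(2,1),
  (31,0),(4,2)]⟩⟩,.a ⟨true,0,⟨1,[(2,0),(11,0),(15,0),(1,0),(7,0)]⟩,⟨0,[(38,0)]⟩⟩ ⟨true,1,⟨0,[(2,0),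
  (0,0),(2,0),(19,0),(13,0)]⟩,⟨0,[(0,0)]⟩⟩ ⟨false,1,⟨1,[(36,1),(2,0),(0,0)]⟩,⟨3,[(0,1),(18,0),(0,0),
  (19,0)]⟩⟩,.o ⟨false,0,⟨1,[(26,0),(0,0)]⟩,⟨1,[(35,0),(3,0)]⟩⟩,.o ⟨false,0,⟨0,[(26,0),(0,0)]⟩,⟨0,
  [(3,0)]⟩⟩]⟩) (.Q [0,-2,-1,0,1,0,-1,0,0,0,-1] (.p false [0,0,1] [] (⟨0,[(29,0)]⟩,⟨0,[(28,0)]⟩) .k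
  0 (⟨0,[]⟩,⟨0,[]⟩) .k .k) (.I [0,-1,2,2] (.S ⟨1,0,[0,0,-1,-1],[1,-1],[1,1,-1,-2],(⟨0,[(34,0)]⟩,⟨0,
  [(35,0)]⟩),⟨0,[(7,0),(6,0)]⟩,.k,(.r (-1) ⟨2,[(2,1),(36,1),(1,0)]⟩ ⟨0,[(0,0),(43,0)]⟩),⟨true,0,⟨0,
  [(39,0)]⟩,⟨0,[(40,0)]⟩⟩,⟨false,1,⟨1,[(21,0),(0,0),(19,0)]⟩,⟨0,[]⟩⟩,⟨false,0,⟨0,[]⟩,⟨1,[(21,0),(0,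
  0),(19,0)]⟩⟩,⟨true,0,⟨0,[(40,0)]⟩,⟨0,[(39,0)]⟩⟩,[.a ⟨true,0,⟨1,[(4,0),(11,0),(15,0),(1,0),(7,0)]⟩,
  ⟨0,[(40,0)]⟩⟩ ⟨true,0,⟨0,[(4,0),(0,0),(2,0),(19,0)]⟩,⟨0,[(0,0)]⟩⟩ ⟨false,1,⟨2,[(2,0),(36,0),(1,
  1)]⟩,⟨1,[(0,0),(43,0)]⟩⟩,.e ⟨false,1,⟨2,[(2,1),(36,1),(1,0)]⟩,⟨2,[(0,1),(35,0),(3,1)]⟩⟩ ⟨false,1,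
  ⟨0,[(2,0),(37,0)]⟩,⟨1,[(0,0),(43,2)]⟩⟩,.o ⟨false,0,⟨1,[(28,0),(0,0)]⟩,⟨1,[(37,0),(3,0)]⟩⟩,.o
  ⟨false,0,⟨0,[(28,0),(0,0)]⟩,⟨0,[(5,0)]⟩⟩]⟩) (.Q [0,0,-1,0,0,0,-1,0,1,-1,-1,1] (.p true [0,0,-1,0,
  1] [1] (⟨0,[(3,0)]⟩,⟨0,[(23,0),(7,0)]⟩) .k 1 (⟨0,[]⟩,⟨0,[]⟩) .k (.r 0 ⟨1,[(5,0),(3,0),(17,0),(0,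
  1)]⟩ ⟨5,[(10,1),(7,1),(7,3),(10,0),(4,4)]⟩)) (.R ⟨1,false,false,false,[1,0,1,0,-1],[1,0,0,0,-1],
  [0,0,0,0,0,0,0,1],(⟨0,[(24,0),(7,0)]⟩,⟨0,[(4,0)]⟩),(⟨0,[(24,0)]⟩,⟨0,[(25,0)]⟩),⟨0,[(21,0),(2,0)]⟩,
  .k,.k,(.r (-1) ⟨1,[(9,1),(32,0),(0,0)]⟩ ⟨0,[(28,0),(0,0),(11,0)]⟩),.k,.k,.k,⟨false,0,⟨2,[(1,0),(9,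
  2),(25,0),(3,1)]⟩,⟨1,[(13,1),(15,1),(12,0),(0,0)]⟩⟩,⟨true,0,⟨0,[(18,0)]⟩,⟨0,[(29,0)]⟩⟩,⟨true,0,⟨0,
  [(45,0)]⟩,⟨0,[]⟩⟩,⟨true,0,⟨0,[(13,0)]⟩,⟨0,[(27,0)]⟩⟩,⟨false,0,⟨0,[(41,0)]⟩,⟨0,[(40,0),(2,0)]⟩⟩,
  ⟨true,0,⟨0,[(13,0),(27,0)]⟩,⟨0,[(17,0)]⟩⟩,[.a ⟨true,1,⟨0,[(10,0),(0,0),(2,0),(14,0),(13,0)]⟩,⟨0,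
  [(16,0)]⟩⟩ ⟨true,0,⟨0,[(11,0)]⟩,⟨0,[(13,0),(15,0)]⟩⟩ ⟨false,1,⟨5,[(2,1),(16,1),(18,0),(3,1),(0,
  0)]⟩,⟨2,[(1,0),(27,2),(7,0),(3,1)]⟩⟩,.e ⟨false,1,⟨1,[(11,1),(30,0),(0,0)]⟩,⟨1,[(6,0),(3,0),(17,0),
  (0,1)]⟩⟩ ⟨false,1,⟨0,[(2,0)]⟩,⟨0,[(29,0),(7,0)]⟩⟩,.o ⟨false,1,⟨0,[(14,0),(14,0)]⟩,⟨1,[(0,1),(28,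
  0),(0,0)]⟩⟩,.o ⟨false,1,⟨0,[(22,0),(6,0)]⟩,⟨0,[(0,0)]⟩⟩]⟩) (.R ⟨1,false,false,false,[1,0,1,0,-1],
  [1,0,0,0,-1],[0,0,0,0,0,0,0,1],(⟨0,[(24,0),(7,0)]⟩,⟨0,[(4,0)]⟩),(⟨0,[(24,0)]⟩,⟨0,[(25,0)]⟩),⟨0,
  [(21,0),(2,0)]⟩,.k,.k,(.r (-1) ⟨1,[(9,1),(32,0),(0,0)]⟩ ⟨0,[(28,0),(0,0),(11,0)]⟩),.k,.k,.k,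
  ⟨false,0,⟨2,[(1,0),(9,2),(25,0),(3,1)]⟩,⟨1,[(13,1),(15,1),(12,0),(0,0)]⟩⟩,⟨true,0,⟨0,[(18,0)]⟩,⟨0,
  [(29,0)]⟩⟩,⟨true,0,⟨0,[(45,0)]⟩,⟨0,[]⟩⟩,⟨true,0,⟨0,[(13,0)]⟩,⟨0,[(27,0)]⟩⟩,⟨false,0,⟨0,[(41,0)]⟩,
  ⟨0,[(40,0),(2,0)]⟩⟩,⟨true,0,⟨0,[(13,0),(27,0)]⟩,⟨0,[(17,0)]⟩⟩,[.a ⟨true,1,⟨5,[(0,3),(13,1),(4,1),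
  (22,0),(0,2)]⟩,⟨0,[(16,0)]⟩⟩ ⟨true,0,⟨0,[(11,0)]⟩,⟨0,[(13,0),(15,0)]⟩⟩ ⟨false,1,⟨5,[(2,1),(16,1),
  (18,0),(3,1),(0,0)]⟩,⟨2,[(0,0),(5,0),(9,0),(12,1),(7,0)]⟩⟩,.e ⟨false,1,⟨1,[(11,1),(30,0),(0,0)]⟩,
  ⟨1,[(6,0),(3,0),(17,0),(0,1)]⟩⟩ ⟨false,1,⟨0,[(2,0)]⟩,⟨0,[(29,0),(7,0)]⟩⟩,.o ⟨false,1,⟨1,[(0,1),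
  (37,0),(3,0)]⟩,⟨1,[(2,0),(13,1),(13,0),(7,0)]⟩⟩,.e ⟨false,1,⟨1,[(11,1),(30,0),(0,0)]⟩,⟨0,[(13,0),
  (15,0)]⟩⟩ ⟨false,1,⟨0,[(2,0)]⟩,⟨0,[(29,0),(15,0)]⟩⟩]⟩))) (.Q [0,0,-1,0,0,0,-1,0,1,-1,-1,1] (.p
  true [0,0,-1,0,1] [1] (⟨0,[(2,0)]⟩,⟨0,[(22,0),(7,0)]⟩) .k 1 (⟨0,[]⟩,⟨0,[]⟩) .k (.r 0 ⟨1,[(4,0),(3,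
  0),(17,0),(0,1)]⟩ ⟨5,[(9,1),(7,1),(7,3),(10,0),(4,4)]⟩)) (.R ⟨1,false,false,false,[1,0,1,0,-1],[1,
  0,0,0,-1],[0,0,0,0,0,0,0,1],(⟨0,[(23,0),(7,0)]⟩,⟨0,[(3,0)]⟩),(⟨0,[(23,0)]⟩,⟨0,[(24,0)]⟩),⟨0,[(20,
  0),(2,0)]⟩,.k,.k,(.r (-1) ⟨1,[(8,1),(32,0),(0,0)]⟩ ⟨0,[(27,0),(0,0),(11,0)]⟩),.k,.k,.k,⟨false,0,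
  ⟨1,[(5,0),(3,0),(0,1),(15,0)]⟩,⟨1,[(12,1),(15,1),(12,0),(0,0)]⟩⟩,⟨true,0,⟨0,[(17,0)]⟩,⟨0,[(28,
  0)]⟩⟩,⟨true,0,⟨0,[(44,0)]⟩,⟨0,[]⟩⟩,⟨true,0,⟨0,[(12,0)]⟩,⟨0,[(26,0)]⟩⟩,⟨false,0,⟨0,[(40,0)]⟩,⟨0,
  [(39,0),(2,0)]⟩⟩,⟨true,0,⟨0,[(12,0),(27,0)]⟩,⟨0,[(16,0)]⟩⟩,[.a ⟨true,1,⟨0,[(9,0),(0,0),(2,0),(14,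
  0),(13,0)]⟩,⟨0,[(15,0)]⟩⟩ ⟨true,0,⟨0,[(10,0)]⟩,⟨0,[(12,0),(15,0)]⟩⟩ ⟨false,1,⟨1,[(5,0),(12,0),(23,
  0)]⟩,⟨1,[(1,0),(26,0),(12,0)]⟩⟩,.o ⟨false,2,⟨0,[(21,0),(20,0)]⟩,⟨0,[(0,0),(0,0)]⟩⟩,.o ⟨false,1,⟨0,
  [(13,0),(14,0)]⟩,⟨3,[(0,1),(14,1),(13,1),(7,0),(4,0)]⟩⟩,.o ⟨false,1,⟨0,[(21,0),(6,0)]⟩,⟨0,[(0,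
  0)]⟩⟩]⟩) (.K ⟨0,[1,0,1,0,-1],0,1,(⟨0,[(23,0),(7,0)]⟩,⟨0,[(3,0)]⟩),.k,(.r (-1) ⟨1,[(8,1),(32,0),(0,
  0)]⟩ ⟨0,[(27,0),(0,0),(11,0)]⟩),(.r (-1) ⟨0,[(26,0),(2,0),(10,0),(1,0)]⟩ ⟨0,[(4,0),(0,0),(22,
  0)]⟩),.k,.k,[⟨1,[(15,1),(21,0),(4,0)]⟩,⟨0,[(0,0)]⟩,⟨0,[(9,0),(5,0),(21,0)]⟩,⟨1,[(0,0),(20,0),(3,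
  0),(0,1),(15,0)]⟩]⟩))))))) (.R ⟨1,false,false,true,[1,0,0,0,-1],[1,-1],[0,1,0,-1],(⟨0,[(17,0)]⟩,
  ⟨0,[(18,0)]⟩),(⟨0,[(28,0)]⟩,⟨0,[(29,0)]⟩),⟨0,[(1,0)]⟩,.k,.k,(.r (-1) ⟨0,[(32,0),(3,0)]⟩ ⟨1,[(22,
  0),(0,0),(10,1),(3,1)]⟩),(.r (-1) ⟨1,[(0,1),(15,1),(5,0),(0,0)]⟩ ⟨0,[(32,0)]⟩),.k,.k,⟨true,0,⟨1,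
  [(22,0),(0,0)]⟩,⟨0,[]⟩⟩,⟨false,0,⟨0,[(16,0)]⟩,⟨0,[(7,0)]⟩⟩,⟨false,0,⟨0,[(33,0)]⟩,⟨0,[(34,0),(1,
  0)]⟩⟩,⟨true,(-1),⟨0,[(9,0),(23,0)]⟩,⟨0,[(0,0)]⟩⟩,⟨false,0,⟨0,[(38,0)]⟩,⟨0,[(36,0)]⟩⟩,⟨false,(-1),
  ⟨0,[(9,0)]⟩,⟨0,[(15,0),(20,0)]⟩⟩,[.o ⟨false,0,⟨0,[(33,0)]⟩,⟨1,[(31,0),(2,1),(1,0)]⟩⟩,.e ⟨false,1,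
  ⟨1,[(33,1),(1,0),(0,0)]⟩,⟨0,[(34,0)]⟩⟩ ⟨false,0,⟨0,[(9,0),(22,0),(3,0)]⟩,⟨0,[(0,0),(37,0)]⟩⟩,.o
  ⟨false,1,⟨0,[(15,0)]⟩,⟨1,[(9,1),(21,0),(4,0)]⟩⟩,.a ⟨true,0,⟨0,[(0,0),(1,0),(0,0),(18,0)]⟩,⟨1,[(9,
  1),(25,0),(0,0)]⟩⟩ ⟨true,0,⟨0,[(32,0)]⟩,⟨1,[(22,0),(0,0),(10,1)]⟩⟩ ⟨false,0,⟨0,[(9,0),(22,0),(3,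
  0)]⟩,⟨1,[(0,1),(21,0),(0,0)]⟩⟩]⟩))) (.S ⟨1,0,[0,0,0,0,0,0,0,1],[0,0,1],[1,1,0,-1,0,0,0,1],(⟨0,
  [(23,0)]⟩,⟨0,[(22,0)]⟩),⟨0,[(12,0)]⟩,.k,.k,⟨true,0,⟨0,[(31,0)]⟩,⟨0,[(32,0)]⟩⟩,⟨false,1,⟨1,[(13,0),
  (0,0),(19,0)]⟩,⟨0,[]⟩⟩,⟨false,0,⟨0,[]⟩,⟨1,[(13,0),(0,0),(19,0)]⟩⟩,⟨true,0,⟨0,[(32,0)]⟩,⟨0,[(31,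
  0)]⟩⟩,[.o ⟨false,1,⟨1,[(18,1),(10,0),(4,0)]⟩,⟨0,[(4,0)]⟩⟩,.e ⟨false,1,⟨5,[(2,1),(5,3),(1,1),(18,
  0),(0,1),(2,1),(0,2)]⟩,⟨0,[(0,0)]⟩⟩ ⟨false,1,⟨1,[(2,1),(30,0),(0,0)]⟩,⟨0,[(0,0),(30,0)]⟩⟩,.o
  ⟨false,1,⟨1,[(20,1),(8,0),(3,0)]⟩,⟨0,[(9,0)]⟩⟩,.a ⟨true,0,⟨0,[(20,0)]⟩,⟨0,[(17,0)]⟩⟩ ⟨true,0,⟨0,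
  [(2,0),(27,0)]⟩,⟨1,[(0,1),(19,0),(0,0)]⟩⟩ ⟨false,1,⟨1,[(2,1),(30,0),(0,0)]⟩,⟨0,[(4,0),(15,
  0)]⟩⟩]⟩)))) (.Q [0,0,-1,0,1,0,1,0,-1,0,1,-1] (.p true [0,0,1] [0,0,0,0,1] (⟨0,[(20,0)]⟩,⟨0,[(19,
  0)]⟩) .k 2 (⟨0,[(13,0)]⟩,⟨0,[(12,0)]⟩) .k (.r (-1) ⟨0,[(6,0),(8,0),(15,0)]⟩ ⟨0,[(1,0),(0,0),(1,0),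
  (12,0)]⟩)) (.I [0,1,-1,-1,0,0,0,-1] (.K ⟨0,[0,-1,0,0,1],(-1),(-1),(⟨0,[(5,0)]⟩,⟨0,[(14,0),(8,
  0)]⟩),(.r 0 ⟨0,[(29,0)]⟩ ⟨1,[(12,0),(0,0),(5,0),(0,0),(10,1),(1,0)]⟩),(.r (-1) ⟨1,[(29,1),(0,1),
  (1,0),(0,0)]⟩ ⟨0,[(2,0),(3,0),(1,0),(22,1),(1,0)]⟩),.k,(.r 0 ⟨0,[(0,0)]⟩ ⟨0,[(17,0),(2,0),(10,0),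
  (1,0)]⟩),.k,[⟨0,[(1,0)]⟩,⟨0,[(2,0),(3,1),(1,0),(24,0)]⟩,⟨0,[(12,0),(18,0)]⟩,⟨0,[(6,0),(23,0)]⟩]⟩)
  (.I [0,0,-2,-2,1,0,0,-1] (.Q [0,-1,0,0,1,0,2,2,0,-1,2] (.p true [0,0,1] [1,0,-1] (⟨0,[(23,0)]⟩,⟨0,
  [(22,0)]⟩) .k 2 (⟨0,[(22,0)]⟩,⟨0,[(23,0)]⟩) .k (.r 0 ⟨0,[(1,1),(28,1)]⟩ ⟨0,[(2,0),(1,1),(9,0),(5,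
  0)]⟩)) (.S ⟨1,0,[0,0,0,0,0,0,0,1],[0,0,1],[1,1,0,-1,0,0,0,1],(⟨0,[(24,0)]⟩,⟨0,[(23,0)]⟩),⟨0,[(13,
  0)]⟩,.k,.k,⟨true,0,⟨0,[(32,0)]⟩,⟨0,[(33,0)]⟩⟩,⟨false,1,⟨1,[(14,0),(0,0),(19,0)]⟩,⟨0,[]⟩⟩,⟨false,0,
  ⟨0,[]⟩,⟨1,[(14,0),(0,0),(19,0)]⟩⟩,⟨true,0,⟨0,[(33,0)]⟩,⟨0,[(32,0)]⟩⟩,[.o ⟨false,1,⟨3,[(0,1),(13,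
  0),(0,0),(14,0),(6,1)]⟩,⟨0,[(5,0)]⟩⟩,.o ⟨false,1,⟨3,[(0,1),(29,0),(4,0)]⟩,⟨0,[(20,0)]⟩⟩,.o ⟨false,
  1,⟨1,[(3,0),(11,0),(5,0),(8,0)]⟩,⟨0,[(10,0)]⟩⟩,.a ⟨true,0,⟨0,[(21,0)]⟩,⟨0,[(18,0)]⟩⟩ ⟨true,0,⟨0,
  [(2,0),(28,1)]⟩,⟨0,[(5,0),(15,0),(11,0)]⟩⟩ ⟨false,1,⟨3,[(0,1),(17,3),(11,0),(4,0)]⟩,⟨0,[(5,0),(15,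
  0)]⟩⟩]⟩) (.Q [0,0,0,0,0,2,0,0,0,-1,1] (.p true [0,0,1] [1] (⟨0,[(24,0)]⟩,⟨0,[(23,0)]⟩) .k 1 (⟨0,
  []⟩,⟨0,[]⟩) .k .k) (.R ⟨0,false,false,true,[1,-1,-1],[1,-1],[1,0,1],(⟨0,[(13,0)]⟩,⟨0,[(0,0),(27,
  0)]⟩),(⟨0,[(28,0)]⟩,⟨0,[(29,0)]⟩),⟨0,[(0,0)]⟩,.k,.k,(.r (-1) ⟨0,[(2,0)]⟩ ⟨1,[(3,2),(17,0),(0,0),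
  (11,0),(3,1)]⟩),.k,.k,.k,⟨true,0,⟨0,[(3,0),(2,0),(15,0)]⟩,⟨0,[(32,0)]⟩⟩,⟨false,1,⟨0,[(4,0),(11,
  0)]⟩,⟨0,[(11,0)]⟩⟩,⟨false,0,⟨1,[(3,1),(18,0),(0,0)]⟩,⟨0,[(2,0),(31,0)]⟩⟩,⟨true,0,⟨0,[(20,0)]⟩,⟨0,
  [(6,0)]⟩⟩,⟨false,0,⟨0,[]⟩,⟨0,[]⟩⟩,⟨false,0,⟨0,[]⟩,⟨0,[]⟩⟩,[.o ⟨false,0,⟨0,[(33,0)]⟩,⟨1,[(31,0),(2,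
  1),(1,0)]⟩⟩,.e ⟨false,1,⟨1,[(15,0),(0,0),(19,0)]⟩,⟨0,[(7,0),(1,0)]⟩⟩ ⟨false,1,⟨0,[(2,0),(0,0),(0,
  0),(4,0)]⟩,⟨0,[(3,0),(17,0)]⟩⟩,.o ⟨false,0,⟨0,[(23,0)]⟩,⟨1,[(4,1),(4,1),(21,0),(4,0)]⟩⟩,.a ⟨true,
  (-1),⟨0,[(1,0),(0,0),(0,2),(1,0),(3,0),(22,0)]⟩,⟨1,[(4,1),(4,1),(25,0),(0,0)]⟩⟩ ⟨true,0,⟨0,[]⟩,⟨0,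
  [(38,0)]⟩⟩ ⟨false,1,⟨0,[(2,0),(0,0),(0,0),(4,0)]⟩,⟨1,[(3,1),(2,1),(15,0),(0,0)]⟩⟩]⟩) (.R ⟨1,false,
  false,true,[1,-1,-1],[1,-1],[1,0,1],(⟨0,[(13,0)]⟩,⟨0,[(25,0),(0,0)]⟩),(⟨0,[(28,0)]⟩,⟨0,[(29,0)]⟩),
  ⟨0,[(0,0)]⟩,.k,.k,(.r (-1) ⟨0,[(2,0)]⟩ ⟨1,[(3,2),(17,0),(0,0),(11,0),(3,1)]⟩),.k,.k,.k,⟨true,0,⟨0,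
  [(3,0),(2,0),(15,0)]⟩,⟨0,[(32,0)]⟩⟩,⟨false,1,⟨0,[(4,0),(11,0)]⟩,⟨0,[(11,0)]⟩⟩,⟨false,0,⟨1,[(3,1),
  (18,0),(0,0)]⟩,⟨0,[(2,0),(31,0)]⟩⟩,⟨true,0,⟨0,[(20,0)]⟩,⟨0,[(6,0)]⟩⟩,⟨false,0,⟨1,[(3,2),(17,0),(0,
  0),(11,0)]⟩,⟨0,[(2,0)]⟩⟩,⟨false,0,⟨0,[(3,0),(0,0),(4,0)]⟩,⟨3,[(2,1),(3,1),(15,0),(0,2),(12,1)]⟩⟩,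
  [.o ⟨false,0,⟨0,[(33,0)]⟩,⟨1,[(31,0),(2,1),(1,0)]⟩⟩,.e ⟨false,1,⟨1,[(15,0),(0,0),(19,0)]⟩,⟨0,[(7,
  0),(1,0)]⟩⟩ ⟨false,1,⟨0,[(2,0),(0,0),(0,0),(4,0)]⟩,⟨0,[(3,0),(17,0)]⟩⟩,.o ⟨false,0,⟨0,[(23,0)]⟩,
  ⟨1,[(4,1),(4,1),(21,0),(4,0)]⟩⟩,.a ⟨true,(-1),⟨0,[(1,0),(0,0),(0,2),(1,0),(3,0),(22,0)]⟩,⟨1,[(4,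
  1),(4,1),(25,0),(0,0)]⟩⟩ ⟨true,0,⟨0,[]⟩,⟨0,[(38,0)]⟩⟩ ⟨false,1,⟨0,[(2,0),(0,0),(0,0),(4,0)]⟩,⟨1,
  [(3,1),(2,1),(15,0),(0,0)]⟩⟩]⟩))) (.R ⟨2,true,false,true,[0,1],[0,1,1],[1,0,1],(⟨0,[]⟩,⟨0,[]⟩),
  (⟨0,[(23,0),(0,0)]⟩,⟨0,[(11,0)]⟩),⟨0,[]⟩,.k,.k,.k,.k,.k,.k,⟨true,1,⟨0,[(4,0),(15,0),(9,0),(3,0)]⟩,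
  ⟨0,[(0,0),(29,0)]⟩⟩,⟨false,1,⟨0,[(2,0),(11,0)]⟩,⟨0,[(9,0)]⟩⟩,⟨false,1,⟨0,[(31,0),(2,0)]⟩,⟨0,[(32,
  0)]⟩⟩,⟨true,0,⟨0,[(18,0)]⟩,⟨0,[(4,0)]⟩⟩,⟨true,0,⟨0,[]⟩,⟨0,[(36,0)]⟩⟩,⟨false,0,⟨0,[(1,0),(0,0),(4,
  0)]⟩,⟨0,[(4,0),(26,0),(2,0)]⟩⟩,[]⟩))) (.Q [0,0,0,0,0,1,0,0,0,-1,0,1] (.ed false [0,1,0,0,1] .k)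
  (.Q [0,0,1,0,0,0,0,0,-2,2,0,-2] (.p false [0,0,-1,0,1] [2,0,-1,0,-1] (⟨0,[(0,0),(9,0)]⟩,⟨0,[(14,
  0),(7,0)]⟩) .k 2 (⟨0,[(14,0),(6,0)]⟩,⟨0,[(0,0),(10,0)]⟩) .k (.r 0 ⟨0,[(35,1)]⟩ ⟨0,[(33,0)]⟩)) (.R
  ⟨0,false,false,true,[-1,1,0,0,1],[1,0,0,0,-1],[0,1],(⟨0,[(1,0)]⟩,⟨0,[(15,0),(10,0)]⟩),(⟨0,[(15,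
  0)]⟩,⟨0,[(16,0)]⟩),⟨0,[(15,0)]⟩,(.r 0 ⟨1,[(20,0),(0,0),(10,1),(3,1)]⟩ ⟨0,[(30,0),(3,0)]⟩),.k,.k,
  (.r 1 ⟨0,[(0,0),(6,1),(21,0),(2,0)]⟩ ⟨1,[(31,1),(1,0),(0,2)]⟩),.k,.k,⟨false,0,⟨0,[(5,0),(1,0)]⟩,
  ⟨1,[(13,0),(0,0),(19,0)]⟩⟩,⟨true,0,⟨0,[(0,0)]⟩,⟨0,[(7,1),(21,0),(4,0)]⟩⟩,⟨false,1,⟨0,[(30,0),(3,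
  0)]⟩,⟨1,[(20,0),(0,0),(10,1)]⟩⟩,⟨true,1,⟨0,[(0,0),(29,0),(3,0)]⟩,⟨0,[(7,1),(21,0),(2,0)]⟩⟩,⟨false,
  0,⟨0,[]⟩,⟨0,[]⟩⟩,⟨false,0,⟨0,[]⟩,⟨0,[]⟩⟩,[.o ⟨false,1,⟨0,[(13,0)]⟩,⟨1,[(7,1),(21,0),(4,0)]⟩⟩,.e
  ⟨false,1,⟨1,[(13,0),(0,0),(18,0)]⟩,⟨0,[]⟩⟩ ⟨false,1,⟨1,[(0,1),(32,0),(0,0)]⟩,⟨1,[(7,3),(21,1),(3,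
  0),(0,0)]⟩⟩,.o ⟨false,1,⟨1,[(7,1),(21,1),(3,0),(0,0)]⟩,⟨3,[(0,1),(19,0),(0,0)]⟩⟩,.a ⟨true,0,⟨1,
  [(7,1),(21,0),(4,0)]⟩,⟨1,[(0,1),(6,1),(25,0),(0,0)]⟩⟩ ⟨true,0,⟨0,[(5,0),(1,0)]⟩,⟨1,[(20,0),(0,
  0)]⟩⟩ ⟨false,1,⟨1,[(0,1),(32,0),(0,0)]⟩,⟨0,[(7,1),(21,0),(4,0)]⟩⟩]⟩) (.Q [0,0,0,-1,0,0,0,0,-1,2,0,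
  -1] (.p false [-1,1,0,0,1] [1] (⟨0,[(1,0)]⟩,⟨0,[(15,0),(10,0)]⟩) (.r 0 ⟨1,[(20,0),(0,0),(10,1),(3,
  1)]⟩ ⟨0,[(30,0),(3,0)]⟩) 1 (⟨0,[]⟩,⟨0,[]⟩) .k .k) (.S ⟨1,0,[0,0,-1,-1],[2,-1,0,0,-1],[0,-1,-1,-1],
  (⟨0,[(16,0),(10,0)]⟩,⟨0,[(2,0)]⟩),⟨0,[(12,0),(0,0),(2,0)]⟩,(.r (-1) ⟨0,[(31,0),(3,0)]⟩ ⟨1,[(21,0),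
  (0,0),(10,1),(3,1)]⟩),(.r (-2) ⟨1,[(31,1),(0,1),(1,0),(0,2)]⟩ ⟨0,[(4,0),(3,0),(1,0),(22,1)]⟩),
  ⟨false,1,⟨1,[(14,0),(0,0),(19,0)]⟩,⟨0,[]⟩⟩,⟨true,0,⟨0,[(37,0)]⟩,⟨0,[]⟩⟩,⟨true,0,⟨0,[(33,0)]⟩,⟨0,
  [(32,0)]⟩⟩,⟨false,0,⟨0,[(33,0)]⟩,⟨0,[(32,0),(2,0)]⟩⟩,[.a ⟨true,0,⟨0,[(0,0)]⟩,⟨5,[(1,1),(1,0),(11,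
  0),(5,0),(8,0),(2,5)]⟩⟩ ⟨true,1,⟨0,[(31,0),(3,0)]⟩,⟨0,[(4,0),(3,0),(1,0),(22,0)]⟩⟩ ⟨false,1,⟨1,
  [(31,1),(2,0),(0,0)]⟩,⟨1,[(21,0),(0,0),(10,1)]⟩⟩,.o ⟨false,1,⟨1,[(0,1),(29,0),(4,0)]⟩,⟨0,[(8,0),
  (21,0),(2,0)]⟩⟩,.o ⟨false,0,⟨1,[(0,0),(3,0),(5,0),(22,0)]⟩,⟨2,[(1,0),(13,0),(14,1),(3,0)]⟩⟩,.o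
  ⟨false,0,⟨4,[(0,0),(3,3),(6,2),(9,1),(11,0)]⟩,⟨0,[(1,0),(4,0)]⟩⟩]⟩) (.R ⟨0,false,false,false,[1,0,
  0,0,-1],[-1,1,0,0,1],[1,-1],(⟨0,[(16,0)]⟩,⟨0,[(17,0)]⟩),(⟨0,[(2,0)]⟩,⟨0,[(16,0),(10,0)]⟩),⟨0,[(2,
  0)]⟩,.k,(.r 0 ⟨1,[(21,0),(0,0),(10,1),(3,1)]⟩ ⟨0,[(31,0),(3,0)]⟩),(.r (-1) ⟨0,[(31,0),(3,0)]⟩ ⟨1,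
  [(21,0),(0,0),(10,1),(3,1)]⟩),(.r (-2) ⟨1,[(32,1),(1,0),(0,2)]⟩ ⟨0,[(4,0),(1,0),(1,1),(1,0),(22,
  0)]⟩),.k,.k,⟨false,2,⟨1,[(31,1),(2,0),(0,2)]⟩,⟨0,[(4,0),(1,0),(1,1),(1,0),(22,0)]⟩⟩,⟨true,0,⟨0,
  [(1,0)]⟩,⟨0,[(4,1),(13,1)]⟩⟩,⟨true,0,⟨0,[]⟩,⟨0,[(37,0)]⟩⟩,⟨false,(-1),⟨0,[(0,0),(7,0)]⟩,⟨1,[(4,2),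
  (1,0),(11,2),(6,0),(1,0),(3,1),(3,2)]⟩⟩,⟨false,0,⟨0,[]⟩,⟨0,[]⟩⟩,⟨false,0,⟨0,[]⟩,⟨0,[]⟩⟩,[.o
  ⟨false,0,⟨0,[(0,0),(36,0)]⟩,⟨0,[(4,0),(13,0),(12,0),(3,0)]⟩⟩,.o ⟨false,0,⟨0,[(0,0)]⟩,⟨1,[(4,0),(1,
  0),(11,0),(6,0),(1,0),(4,1),(2,0)]⟩⟩,.o ⟨false,1,⟨0,[(14,0)]⟩,⟨5,[(1,1),(1,0),(11,0),(5,0),(8,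
  0)]⟩⟩,.a ⟨true,0,⟨0,[(4,0),(13,0)]⟩,⟨1,[(8,1),(25,0),(0,0)]⟩⟩ ⟨true,1,⟨1,[(34,0),(0,0)]⟩,⟨0,[(4,
  0),(1,0),(1,1),(1,0)]⟩⟩ ⟨false,0,⟨0,[(1,0),(31,0)]⟩,⟨0,[(4,1),(13,1),(12,0),(3,0)]⟩⟩]⟩))) (.Q [0,
  2,0,1,-1,0,0,0,1,-1,0,1] (.p true [0,0,0,0,1] [1] (⟨0,[(15,0)]⟩,⟨0,[(14,0)]⟩) .k 1 (⟨0,[]⟩,⟨0,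
  []⟩) .k .k) (.S ⟨1,0,[0,2,1,1],[0,1,0,0,1],[1,1,1],(⟨0,[(16,0),(7,0)]⟩,⟨0,[(1,0)]⟩),⟨0,[(16,0)]⟩,
  (.r 0 ⟨1,[(20,0),(0,0),(10,1),(3,1)]⟩ ⟨0,[(30,0),(3,0)]⟩),.k,⟨false,1,⟨0,[(31,0),(2,0)]⟩,⟨0,[(32,
  0)]⟩⟩,⟨true,0,⟨0,[(36,0)]⟩,⟨0,[]⟩⟩,⟨true,0,⟨0,[]⟩,⟨0,[(36,0)]⟩⟩,⟨false,0,⟨0,[(32,0)]⟩,⟨0,[(31,0),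
  (2,0)]⟩⟩,[.o ⟨false,(-1),⟨0,[(0,0)]⟩,⟨1,[(3,0),(1,0),(3,0),(20,0),(0,0),(2,2)]⟩⟩,.e ⟨false,0,⟨0,
  []⟩,⟨1,[(13,0),(0,0),(18,0)]⟩⟩ ⟨false,0,⟨0,[(32,0),(3,0)]⟩,⟨0,[(30,0),(3,0)]⟩⟩,.a ⟨true,0,⟨1,[(7,
  1),(25,0),(0,0)]⟩,⟨0,[(3,0),(13,0)]⟩⟩ ⟨false,0,⟨1,[(20,0),(0,0)]⟩,⟨1,[(33,0),(0,0)]⟩⟩ ⟨true,(-1),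
  ⟨0,[(0,0),(2,0),(13,0)]⟩,⟨0,[(30,0),(3,0)]⟩⟩,.o ⟨false,0,⟨1,[(7,1),(21,0),(4,0)]⟩,⟨0,[(13,
  0)]⟩⟩]⟩) (.S ⟨1,0,[0,0,-1,-1],[1,-1],[0,1,-1,-1],(⟨0,[(26,0)]⟩,⟨0,[(27,0)]⟩),⟨0,[(1,0),(4,0)]⟩,.k,
  (.r (-1) ⟨0,[(30,1),(3,0)]⟩ ⟨0,[(20,0),(0,0),(10,1)]⟩),⟨true,0,⟨0,[(36,0)]⟩,⟨0,[]⟩⟩,⟨false,1,⟨1,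
  [(13,0),(0,0),(19,0)]⟩,⟨0,[]⟩⟩,⟨false,0,⟨0,[(32,0)]⟩,⟨0,[(31,0),(2,0)]⟩⟩,⟨true,0,⟨0,[(32,0)]⟩,⟨0,
  [(31,0)]⟩⟩,[.a ⟨true,0,⟨1,[(0,0),(6,0),(16,0),(1,0),(4,0)]⟩,⟨0,[(32,0)]⟩⟩ ⟨true,0,⟨0,[(30,0)]⟩,⟨3,
  [(2,1),(0,1),(16,0),(0,0),(10,3),(1,1)]⟩⟩ ⟨false,1,⟨1,[(30,1),(2,0),(0,0)]⟩,⟨1,[(20,0),(0,0),(10,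
  1)]⟩⟩,.a ⟨true,0,⟨0,[(0,0),(6,0)]⟩,⟨0,[(32,0),(3,0)]⟩⟩ ⟨false,1,⟨1,[(30,1),(2,0),(0,0)]⟩,⟨1,[(20,
  0),(0,0),(10,1)]⟩⟩ ⟨true,1,⟨0,[(30,0),(3,0)]⟩,⟨0,[(3,0),(3,0),(1,0),(22,0)]⟩⟩,.o ⟨false,0,⟨1,[(20,
  0),(0,0)]⟩,⟨1,[(29,0),(3,0)]⟩⟩,.a ⟨true,(-1),⟨1,[(0,0),(1,0),(0,1),(3,1),(9,0),(14,0)]⟩,⟨0,[(33,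
  0)]⟩⟩ ⟨false,1,⟨1,[(30,1),(2,0),(0,0)]⟩,⟨3,[(2,1),(0,1),(16,0),(0,0),(10,3),(1,1)]⟩⟩ ⟨true,1,⟨1,
  [(30,1),(2,0),(0,0)]⟩,⟨0,[(3,0),(3,0),(1,0),(22,0)]⟩⟩]⟩)))))

theorem ok35 : chk K t35 r9 = true := by decide +kernel


end Helper25.S1T.Ypp_1cP4
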