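import Pool.Agent.Helper25.S1T.Ypp_1cP4_q

set_option autoImplicit false
set_option linter.all false

namespace Helper25.S1T.Ypp_1cP4

open Helper25.KG Helper25.KW Helper55.KE Helper11.CT

noncomputable def t41 : Tre :=
  (.Q [0,0,1,0,-1,0,0,0,1,0,0,1] (.p true [0,0,0,0,1] [] (⟨0,[(7,0)]⟩,⟨0,[(6,0)]⟩) .k 0 (⟨0,[]⟩,⟨0,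
  []⟩) .k .k) (.K ⟨0,[0,0,0,0,1],(-1),(-1),(⟨0,[(8,0)]⟩,⟨0,[(7,0)]⟩),.k,(.r 0 ⟨0,[(22,0)]⟩ ⟨1,[(5,
  0),(0,0),(5,0),(0,0),(10,1),(1,0)]⟩),(.r 0 ⟨1,[(12,0),(0,0),(10,1),(3,1)]⟩ ⟨0,[(22,0),(3,0)]⟩),.k,
  .k,[⟨0,[(1,0),(3,0)]⟩,⟨0,[(0,0)]⟩,⟨0,[(5,0)]⟩,⟨0,[(0,0),(19,0)]⟩]⟩) (.I [0,0,2,2,0,0,0,1] (.I [1,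
  1,-1,-1,0,0,0,-1] (.K ⟨0,[0,1,1],0,0,(⟨0,[(17,0),(0,0)]⟩,⟨0,[(5,0)]⟩),.k,.k,(.r 0 ⟨0,[(1,0)]⟩ ⟨0,
  [(0,0),(23,0),(3,0)]⟩),.k,.k,[⟨1,[(14,0),(0,0)]⟩,⟨0,[(3,0)]⟩,⟨0,[(0,0),(14,0)]⟩,⟨0,[(12,0),(13,
  0)]⟩]⟩) (.I [0,-1,-1,0,1,0,0,-1] (.S ⟨1,0,[0,1,0,0,0,0,0,-1],[1,0,-1],[0,0,0,0,0,0,0,-1],(⟨0,[(17,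
  0)]⟩,⟨0,[(18,0)]⟩),⟨0,[(6,0)]⟩,.k,.k,⟨false,1,⟨1,[(8,0),(0,0),(19,0)]⟩,⟨0,[]⟩⟩,⟨true,0,⟨0,[(31,
  0)]⟩,⟨0,[]⟩⟩,⟨true,0,⟨0,[(27,0)]⟩,⟨0,[(26,0)]⟩⟩,⟨false,0,⟨0,[(27,0)]⟩,⟨0,[(26,0),(2,0)]⟩⟩,[.o
  ⟨false,0,⟨0,[(14,0)]⟩,⟨1,[(1,1),(2,1),(19,0),(0,1),(3,0)]⟩⟩,.e ⟨false,1,⟨0,[(0,0)]⟩,⟨2,[(1,1),(11,
  0),(2,0),(6,0),(1,1)]⟩⟩ ⟨false,1,⟨5,[(0,4),(7,0),(0,0),(4,0),(0,0),(7,1)]⟩,⟨0,[(1,0),(23,0)]⟩⟩,.a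
  ⟨true,0,⟨1,[(5,0),(13,0),(1,0)]⟩,⟨0,[(4,0)]⟩⟩ ⟨false,1,⟨1,[(0,0),(13,0),(0,0),(13,0)]⟩,⟨0,[(1,0),
  (23,0)]⟩⟩ ⟨true,0,⟨0,[(4,0),(9,0)]⟩,⟨0,[(1,0),(23,0)]⟩⟩,.o ⟨false,0,⟨0,[(16,0)]⟩,⟨1,[(4,1),(19,0),
  (3,0)]⟩⟩]⟩) (.Q [0,-1,0,1,0,0,1,1,0,0,1] (.p true [0,0,1] [] (⟨0,[(18,0)]⟩,⟨0,[(17,0)]⟩) .k 0 (⟨0,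
  []⟩,⟨0,[]⟩) .k .k) (.R ⟨2,true,false,false,[0,1],[0,1,1],[1,0,1],(⟨0,[]⟩,⟨0,[]⟩),(⟨0,[(19,0),(0,
  0)]⟩,⟨0,[(7,0)]⟩),⟨0,[]⟩,.k,.k,.k,.k,.k,.k,⟨false,1,⟨0,[(5,0),(9,0),(10,0),(3,0)]⟩,⟨5,[(0,1),(0,
  0),(0,2),(10,1),(10,1),(0,0),(2,0)]⟩⟩,⟨true,0,⟨0,[(5,0)]⟩,⟨0,[(17,0)]⟩⟩,⟨false,1,⟨0,[(27,0),(2,
  0)]⟩,⟨0,[(28,0)]⟩⟩,⟨true,0,⟨0,[(0,0),(26,0)]⟩,⟨0,[(15,0)]⟩⟩,⟨true,0,⟨0,[]⟩,⟨0,[(32,0)]⟩⟩,⟨false,0,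
  ⟨0,[(0,0)]⟩,⟨0,[(15,0),(11,0),(2,0)]⟩⟩,[]⟩) (.I [0,0,1,1,0,0,0,-1] (.S ⟨1,0,[0,0,1,1,0,0,0,-1],[1,
  1,-1],[0,1,1,1,0,0,0,-1],(⟨0,[(19,0),(1,0)]⟩,⟨0,[(9,0)]⟩),⟨0,[(19,0)]⟩,.k,.k,⟨true,0,⟨0,[(33,0)]⟩,
  ⟨0,[]⟩⟩,⟨false,1,⟨1,[(10,0),(0,0),(19,0)]⟩,⟨0,[]⟩⟩,⟨false,0,⟨0,[(29,0)]⟩,⟨0,[(28,0),(2,0)]⟩⟩,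
  ⟨true,0,⟨0,[(29,0)]⟩,⟨0,[(28,0)]⟩⟩,[.a ⟨true,0,⟨0,[(0,0),(13,0)]⟩,⟨0,[(2,0),(3,0),(20,0),(3,0)]⟩⟩
  ⟨false,0,⟨0,[(6,0),(9,0),(12,0)]⟩,⟨0,[(3,0),(23,1),(3,0)]⟩⟩ ⟨true,0,⟨0,[(0,0)]⟩,⟨0,[(2,0),(24,0),
  (3,0)]⟩⟩,.o ⟨false,1,⟨0,[(16,0),(12,0),(1,0)]⟩,⟨1,[(2,1),(3,1),(19,0),(0,1),(3,0)]⟩⟩,.a ⟨true,0,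
  ⟨0,[(14,0)]⟩,⟨0,[(17,0)]⟩⟩ ⟨false,0,⟨0,[(0,0)]⟩,⟨0,[(3,0),(23,1),(3,0)]⟩⟩ ⟨true,0,⟨0,[(0,0)]⟩,⟨0,
  [(3,0),(23,1)]⟩⟩,.a ⟨true,0,⟨1,[(7,0),(13,0),(1,0)]⟩,⟨0,[(6,0)]⟩⟩ ⟨true,0,⟨0,[(6,0),(9,0),(12,
  0)]⟩,⟨0,[(2,0),(24,0),(3,0)]⟩⟩ ⟨false,1,⟨1,[(0,1),(29,0),(0,0)]⟩,⟨0,[(2,0),(24,0),(3,0)]⟩⟩]⟩) (.I
  [0,0,-2,-2,1,0,0,-1] (.K ⟨0,[0,1,1],0,0,(⟨0,[(21,0),(0,0)]⟩,⟨0,[(9,0)]⟩),.k,.k,(.r 0 ⟨0,[(5,0)]⟩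
  ⟨0,[(0,0)]⟩),.k,.k,[⟨1,[(18,0),(0,0)]⟩,⟨0,[(7,0)]⟩,⟨0,[(2,0)]⟩,⟨0,[(16,0),(13,0)]⟩]⟩) (.I [1,0,1,
  1,0,0,0,-1] (.N [0,-1,1] 0 ⟨0,[(2,0)]⟩ ⟨0,[(0,0)]⟩ .k) (.I [0,0,2,0,-1,2,-1] (.K ⟨0,[0,1,1],0,0,
  (⟨0,[(23,0),(0,0)]⟩,⟨0,[(11,0)]⟩),.k,.k,(.x (-2) ⟨0,[(9,0),(1,0),(14,0),(2,0),(3,0)]⟩ ⟨0,[(0,
  0)]⟩),.k,.k,[⟨1,[(20,0),(0,0)]⟩,⟨0,[(9,0)]⟩,⟨0,[(4,0)]⟩,⟨0,[(18,0),(13,0)]⟩]⟩) (.Q [0,0,-2,0,1,0,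
  0,0,0,-1] (.pp true [-1,1]) (.S ⟨1,0,[0,1,-1,-1],[1,-1],[1,0,-1,-2],(⟨0,[(27,0)]⟩,⟨0,[(28,0)]⟩),
  ⟨0,[(12,0),(0,0)]⟩,.k,(.r (-1) ⟨0,[(31,1),(3,0)]⟩ ⟨2,[(3,0),(4,0),(11,1),(0,1),(11,1),(1,0)]⟩),
  ⟨false,1,⟨0,[(32,0),(2,0)]⟩,⟨0,[(33,0)]⟩⟩,⟨true,0,⟨0,[(37,0)]⟩,⟨0,[]⟩⟩,⟨true,0,⟨0,[]⟩,⟨0,[(37,
  0)]⟩⟩,⟨false,0,⟨0,[(33,0)]⟩,⟨0,[(32,0),(2,0)]⟩⟩,[.o ⟨false,0,⟨0,[(32,0)]⟩,⟨1,[(30,0),(2,1),(1,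
  0)]⟩⟩,.a ⟨true,0,⟨0,[(5,0),(0,0),(3,1),(7,0),(16,0)]⟩,⟨0,[(33,0)]⟩⟩ ⟨true,1,⟨0,[(2,0),(2,0),(4,0),
  (24,0)]⟩,⟨0,[(3,0),(6,0),(9,0)]⟩⟩ ⟨false,1,⟨1,[(31,1),(2,0),(0,0)]⟩,⟨5,[(3,0),(4,0),(11,1),(0,1),
  (11,1),(1,0)]⟩⟩,.o ⟨false,0,⟨1,[(21,0),(0,0)]⟩,⟨1,[(30,0),(3,0)]⟩⟩,.o ⟨false,0,⟨0,[(21,0),(0,0)]⟩,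
  ⟨0,[(0,0)]⟩⟩]⟩) (.I [0,0,2,2,-1,0,0,1] (.K ⟨0,[0,1,1],0,0,(⟨0,[(25,0),(0,0)]⟩,⟨0,[(13,0)]⟩),.k,.k,
  (.r 1 ⟨0,[(0,0)]⟩ ⟨0,[(6,0),(4,0),(21,0),(1,0),(0,0)]⟩),.k,.k,[⟨1,[(22,0),(0,0)]⟩,⟨0,[(11,0)]⟩,⟨0,
  [(6,0)]⟩,⟨0,[(20,0),(13,0)]⟩]⟩) (.I [0,0,-2,0,1,-2,1] (.N [0,2,1] 1 ⟨0,[(5,0)]⟩ ⟨0,[(1,0)]⟩ (.x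
  (-1) ⟨0,[(0,0)]⟩ ⟨1,[(23,0),(0,2),(1,1),(0,3)]⟩)) (.Q [0,0,0,1,0,0,-1,-1,-1,1,-1,-1] (.p false [0,
  0,1] [1,0,0,0,-1] (⟨0,[(26,0)]⟩,⟨0,[(25,0)]⟩) .k 2 (⟨0,[(18,0)]⟩,⟨0,[(19,0)]⟩) .k (.r 0 ⟨8,[(4,4),
  (5,3),(20,2),(2,2)]⟩ ⟨0,[(12,0),(9,0),(14,0)]⟩)) (.Q [0,0,0,0,0,0,0,0,0,-1,1,1] (.ed false [0,0,1,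
  0,1] (.r 0 ⟨8,[(5,4),(5,3),(20,2),(2,2)]⟩ ⟨0,[(13,0),(9,0),(14,0)]⟩)) (.K ⟨0,[2,0,-1,0,-1],(-1),0,
  (⟨0,[(20,0),(6,0)]⟩,⟨0,[(0,0)]⟩),.k,(.r (-2) ⟨3,[(3,1),(14,1),(0,1),(4,1),(0,1),(12,0),(0,2)]⟩ ⟨0,
  [(10,0),(26,0)]⟩),(.r (-1) ⟨1,[(1,1),(17,1),(5,1),(8,0),(4,0)]⟩ ⟨8,[(6,7),(5,0),(20,2),(2,2)]⟩),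
  .k,.k,[⟨0,[(14,1),(4,0),(14,0)]⟩,⟨0,[(1,0),(2,0),(1,0)]⟩,⟨0,[(10,0),(3,0),(4,0),(14,0),(0,0),(1,
  0)]⟩,⟨2,[(1,1),(1,0),(0,1),(8,0),(8,0),(6,0),(1,0)]⟩]⟩) (.Q [0,0,0,0,0,0,0,0,0,0,1,-1] (.ed true
  [1,0,-1,0,1] (.r 0 ⟨0,[(14,0),(9,0)]⟩ ⟨17,[(6,3),(5,1),(2,5),(7,11),(10,2),(4,14)]⟩)) (.K ⟨0,[0,0,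
  1,0,-1],0,0,(⟨0,[(0,0)]⟩,⟨0,[(22,0),(5,0)]⟩),.k,(.r (-1) ⟨13,[(7,9),(8,1),(7,3),(10,0),(1,3),(1,
  1),(0,10)]⟩ ⟨0,[(25,0),(0,0),(11,0)]⟩),(.r 0 ⟨0,[(12,0)]⟩ ⟨7,[(4,3),(14,2),(0,2),(4,3),(0,3),(7,
  1),(4,0)]⟩),.k,.k,[⟨0,[(20,0)]⟩,⟨0,[(2,0),(2,0),(1,0),(7,1),(19,0)]⟩,⟨0,[(20,0),(4,0),(16,0)]⟩,⟨5,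
  [(2,4),(2,2),(1,8),(0,1),(5,0),(0,10),(19,3)]⟩]⟩) (.R ⟨1,false,false,true,[1,0,0,0,-1],[1,0,1,0,
  -1],[],(⟨0,[(21,0)]⟩,⟨0,[(22,0)]⟩),(⟨0,[(21,0),(7,0)]⟩,⟨0,[(0,0)]⟩),⟨0,[(1,0),(16,0)]⟩,.k,.k,(.r
  (-1) ⟨7,[(4,1),(2,1),(29,1),(1,0),(0,4)]⟩ ⟨6,[(13,2),(11,2),(0,2),(7,1),(3,0)]⟩),.k,.k,.k,⟨false,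
  1,⟨1,[(15,1),(9,1),(13,0),(0,0)]⟩,⟨2,[(7,1),(5,0)]⟩⟩,⟨true,0,⟨0,[(15,0)]⟩,⟨0,[(27,0)]⟩⟩,⟨true,0,
  ⟨0,[(42,0)]⟩,⟨0,[]⟩⟩,⟨false,0,⟨2,[(7,0),(4,0),(2,1),(8,0)]⟩,⟨0,[(25,0),(14,0)]⟩⟩,⟨false,0,⟨0,[(38,
  0)]⟩,⟨0,[(37,0),(2,0)]⟩⟩,⟨false,0,⟨5,[(7,0),(0,2),(3,0),(2,4),(8,0),(14,2)]⟩,⟨0,[(10,0),(29,0)]⟩⟩,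
  [.o ⟨false,0,⟨5,[(2,4),(2,2),(1,8),(0,1),(5,0),(0,10),(19,3)]⟩,⟨1,[(20,1),(4,1),(9,0),(4,0)]⟩⟩,.e
  ⟨false,1,⟨1,[(39,0),(0,0)]⟩,⟨0,[(42,0)]⟩⟩ ⟨false,1,⟨5,[(7,1),(4,1),(2,3),(8,1),(14,2),(0,2)]⟩,⟨0,
  [(25,0)]⟩⟩,.a ⟨true,0,⟨1,[(2,0),(2,0),(1,0),(6,0),(0,0)]⟩,⟨0,[(20,0)]⟩⟩ ⟨false,1,⟨1,[(19,0),(0,0),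
  (19,0)]⟩,⟨0,[]⟩⟩ ⟨true,0,⟨2,[(7,0),(4,0),(2,1),(8,0)]⟩,⟨0,[(25,0)]⟩⟩,.o ⟨false,0,⟨0,[(2,0),(2,0),
  (1,0),(7,0),(19,0)]⟩,⟨1,[(20,1),(14,0),(3,0)]⟩⟩]⟩))) (.Q [0,2,0,0,-1,0,0,0,1,-1,0,1] (.p true [0,
  0,0,0,1] [1] (⟨0,[(20,0)]⟩,⟨0,[(19,0)]⟩) .k 1 (⟨0,[]⟩,⟨0,[]⟩) .k .k) (.K ⟨0,[1,0,0,0,-1],0,1,(⟨0,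
  [(20,0)]⟩,⟨0,[(21,0)]⟩),.k,(.r (-1) ⟨27,[(1,1),(1,9),(2,5),(8,1),(2,1),(4,1),(14,0),(0,14)]⟩ ⟨6,
  [(12,2),(11,2),(0,2),(7,1),(3,0)]⟩),(.r (-1) ⟨3,[(12,1),(11,1),(0,1),(12,0),(0,2)]⟩ ⟨0,[(35,0)]⟩),
  .k,.k,[⟨0,[(0,0),(13,0),(24,0)]⟩,⟨0,[(4,0),(8,0)]⟩,⟨0,[(0,0)]⟩,⟨0,[(18,0),(10,0),(1,0)]⟩]⟩) (.Q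
  [0,1,0,1,0,0,0,0,0,-1] (.pp true [-1,1]) (.Q [0,0,1,0,0,0,0,0,1,-1,0,1] (.p true [0,0,0,0,1] [1]
  (⟨0,[(22,0)]⟩,⟨0,[(21,0)]⟩) .k 1 (⟨0,[]⟩,⟨0,[]⟩) .k .k) (.Q [0,0,0,0,0,0,0,0,-1,1,0,-1] (.p false
  [0,0,0,0,1] [1] (⟨0,[(23,0)]⟩,⟨0,[(22,0)]⟩) .k 1 (⟨0,[]⟩,⟨0,[]⟩) .k .k) (.Q [0,0,0,0,0,-1,0,0,0,0,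
  0,1] (.ed false [1,-1,0,0,1] .k) (.K ⟨0,[1,1,0,0,-1],0,0,(⟨0,[(24,0),(8,0)]⟩,⟨0,[(0,0)]⟩),(.r
  (-1) ⟨3,[(16,1),(11,1),(0,1),(12,0),(0,2)]⟩ ⟨0,[(39,0)]⟩),.k,(.r 0 ⟨0,[(11,0),(6,0),(9,0),(14,
  0)]⟩ ⟨9,[(5,0),(1,3),(2,1),(8,0),(2,0),(4,0),(12,8),(1,4)]⟩),(.r (-1) ⟨0,[(28,0),(0,0),(11,0),(1,
  0)]⟩ ⟨8,[(10,7),(5,0),(20,2),(2,2)]⟩),.k,[⟨0,[(2,0),(15,0)]⟩,⟨0,[(1,0)]⟩,⟨2,[(2,1),(2,0),(7,0),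
  (23,1),(2,0)]⟩,⟨0,[(1,0),(39,0)]⟩]⟩) (.R ⟨0,false,false,false,[0,0,0,0,1],[1,-1,0,0,1],[0,1,0,-1],
  (⟨0,[(25,0)]⟩,⟨0,[(24,0)]⟩),(⟨0,[(25,0),(9,0)]⟩,⟨0,[(0,0)]⟩),⟨0,[(0,0)]⟩,.k,(.r 0 ⟨0,[(39,0)]⟩ ⟨3,
  [(16,1),(11,1),(0,1),(12,0),(0,2)]⟩),(.r 0 ⟨0,[(39,0)]⟩ ⟨3,[(16,1),(11,1),(0,1),(12,0),(0,2)]⟩),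
  .k,.k,.k,⟨true,0,⟨1,[(29,0),(0,0)]⟩,⟨0,[]⟩⟩,⟨false,0,⟨0,[(33,0),(1,0)]⟩,⟨1,[(38,0),(3,0)]⟩⟩,
  ⟨false,1,⟨0,[(40,0),(2,0)]⟩,⟨0,[(41,0)]⟩⟩,⟨true,0,⟨31,[(4,4),(2,13),(0,18),(1,3),(8,1),(3,4),(2,
  5),(0,9)]⟩,⟨0,[(3,0)]⟩⟩,⟨false,0,⟨0,[]⟩,⟨0,[]⟩⟩,⟨false,0,⟨0,[]⟩,⟨0,[]⟩⟩,[.e ⟨false,0,⟨0,[(39,0)]⟩,
  ⟨7,[(16,1),(11,1),(0,1),(11,3),(0,2),(0,4)]⟩⟩ ⟨false,0,⟨4,[(7,1),(0,1),(9,0),(7,2),(0,1),(9,0),(1,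
  0)]⟩,⟨0,[(3,0),(39,0)]⟩⟩,.o ⟨false,0,⟨2,[(2,0),(4,0),(0,0),(1,0),(12,1)]⟩,⟨1,[(1,0),(1,1),(0,0),
  (33,0)]⟩⟩,.a ⟨true,0,⟨0,[(23,0)]⟩,⟨0,[(1,0)]⟩⟩ ⟨true,0,⟨0,[(40,0)]⟩,⟨0,[(41,0)]⟩⟩ ⟨false,0,⟨31,
  [(4,4),(2,13),(0,18),(1,3),(8,1),(3,4),(2,5),(0,9)]⟩,⟨0,[(3,0),(39,0)]⟩⟩,.o ⟨false,0,⟨0,[(2,0)]⟩,
  ⟨0,[(17,0)]⟩⟩]⟩)) (.Q [0,0,0,0,0,0,0,0,0,-1,1,1] (.ed false [0,0,1,0,1] (.r 0 ⟨8,[(9,4),(5,3),(20,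
  2),(2,2)]⟩ ⟨0,[(17,0),(9,0),(14,0)]⟩)) (.K ⟨0,[0,-1,0,0,1],(-1),(-1),(⟨0,[(0,0),(19,0)]⟩,⟨0,[(24,
  0),(8,0)]⟩),(.r 0 ⟨0,[(39,0)]⟩ ⟨3,[(16,1),(11,1),(0,1),(12,0),(0,2)]⟩),(.r (-1) ⟨9,[(5,0),(1,3),
  (2,1),(8,0),(2,0),(4,0),(12,8),(1,4)]⟩ ⟨0,[(11,0),(6,0),(9,0),(14,0)]⟩),.k,(.r (-1) ⟨7,[(7,3),(14,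
  2),(0,2),(4,3),(0,3),(7,1),(4,0)]⟩ ⟨0,[(15,0)]⟩),.k,[⟨0,[(17,0),(0,0)]⟩,⟨0,[(1,0),(6,0)]⟩,⟨0,[(22,
  0),(18,0)]⟩,⟨1,[(1,1),(6,0),(5,0),(3,1),(7,0),(1,0),(10,1)]⟩]⟩) (.K ⟨0,[1,0,-1,0,-1],0,1,(⟨0,[(0,
  0)]⟩,⟨0,[(25,0),(6,0)]⟩),.k,(.r (-2) ⟨3,[(7,1),(14,1),(0,1),(4,1),(0,1),(12,0),(0,2)]⟩ ⟨2,[(3,0),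
  (7,0),(2,1),(3,0),(7,0)]⟩),(.r (-1) ⟨0,[(28,0),(0,0),(11,0),(1,0)]⟩ ⟨8,[(10,7),(5,0),(20,2),(2,
  2)]⟩),.k,.k,[⟨0,[(1,0),(16,1)]⟩,⟨4,[(4,2),(3,0),(2,1),(1,3),(0,1),(2,1),(8,0)]⟩,⟨1,[(1,1),(1,0),
  (10,1),(3,2),(7,0),(12,0)]⟩,⟨11,[(4,8),(1,0),(15,3),(0,0),(4,11),(0,0),(1,0),(3,1),(1,2)]⟩]⟩)))
  (.Q [0,0,0,0,0,-1,0,0,0,1,0,-1] (.ed true [0,1,0,0,1] .k) (.Q [0,2,0,1,-1,0,0,0,1,0,0,1] (.p true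
  [0,0,0,0,1] [] (⟨0,[(24,0)]⟩,⟨0,[(23,0)]⟩) .k 0 (⟨0,[]⟩,⟨0,[]⟩) .k .k) (.K ⟨0,[0,1,0,0,1],0,(-1),
  (⟨0,[(25,0),(7,0)]⟩,⟨0,[(1,0)]⟩),(.r 0 ⟨2,[(0,0),(15,0),(5,0),(5,0),(0,0)]⟩ ⟨11,[(4,0),(0,1),(1,
  3),(2,1),(8,0),(2,0),(19,0),(0,4)]⟩),.k,(.r 1 ⟨0,[(11,0),(6,0),(9,0)]⟩ ⟨7,[(4,0),(0,3),(1,5),(11,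
  2),(2,2),(4,1),(14,1),(0,3)]⟩),(.r 0 ⟨0,[(28,0),(0,0),(11,0)]⟩ ⟨3,[(4,0),(0,1),(4,1),(8,0),(2,0),
  (19,0),(0,0)]⟩),.k,[⟨0,[(2,0),(5,0),(9,0),(19,0)]⟩,⟨0,[(23,0)]⟩,⟨5,[(2,1),(1,2),(3,0),(13,0),(15,
  2),(1,5)]⟩,⟨0,[(0,0)]⟩]⟩) (.R ⟨1,false,false,false,[1,-1],[1,0,0,0,-1],[0,0,-1,-1],(⟨0,[(35,0)]⟩,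
  ⟨0,[(36,0)]⟩),(⟨0,[(24,0)]⟩,⟨0,[(25,0)]⟩),⟨0,[(20,0),(0,0)]⟩,.k,.k,(.r (-1) ⟨19,[(4,0),(0,3),(1,
  13),(2,7),(8,2),(2,2),(4,1),(14,1)]⟩ ⟨2,[(11,0),(4,0),(11,1),(0,1),(11,1),(1,0)]⟩),(.r 0 ⟨0,[(39,
  0)]⟩ ⟨3,[(16,1),(11,1),(0,1),(12,0),(0,2)]⟩),(.r (-1) ⟨9,[(5,0),(1,3),(2,1),(8,0),(2,0),(4,0),(12,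
  8),(1,4)]⟩ ⟨0,[(11,0),(6,0),(9,0),(14,0)]⟩),.k,⟨true,0,⟨0,[(39,0)]⟩,⟨0,[(3,0),(4,0),(34,0)]⟩⟩,
  ⟨false,1,⟨1,[(2,1),(35,0),(3,0)]⟩,⟨1,[(23,1),(5,0),(0,0)]⟩⟩,⟨false,1,⟨1,[(22,0),(0,0),(19,0)]⟩,⟨0,
  []⟩⟩,⟨false,1,⟨0,[(0,0),(40,1)]⟩,⟨0,[(23,0),(16,0)]⟩⟩,⟨true,0,⟨0,[(41,0)]⟩,⟨0,[(40,0)]⟩⟩,⟨false,1,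
  ⟨0,[(0,0),(40,2)]⟩,⟨6,[(5,2),(1,1),(0,1),(4,0),(5,0),(3,3),(16,5)]⟩⟩,[.o ⟨false,1,⟨2,[(0,0),(2,0),
  (0,0),(17,0)]⟩,⟨1,[(3,0),(1,0),(17,0),(4,0)]⟩⟩,.o ⟨false,1,⟨0,[(0,0),(40,0)]⟩,⟨13,[(3,4),(1,8),
  (10,1),(6,4),(4,10),(0,1),(7,5)]⟩⟩,.o ⟨false,0,⟨1,[(29,0),(0,0)]⟩,⟨1,[(38,0),(3,0)]⟩⟩,.a ⟨true,
  (-1),⟨0,[(8,0)]⟩,⟨0,[(42,0)]⟩⟩ ⟨true,1,⟨39,[(4,0),(0,3),(1,13),(2,7),(8,2),(2,2),(4,1),(14,21)]⟩,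
  ⟨0,[(3,0),(4,0)]⟩⟩ ⟨false,2,⟨0,[(0,0),(40,0),(0,0)]⟩,⟨1,[(3,0),(1,0),(2,1),(14,0),(4,0)]⟩⟩]⟩))
  (.R ⟨0,false,false,true,[1,0,0,0,-1],[2,-1,0,0,-1],[0,0,0,-1],(⟨0,[(23,0)]⟩,⟨0,[(24,0)]⟩),(⟨0,
  [(23,0),(10,0)]⟩,⟨0,[(0,0)]⟩),⟨0,[(0,0)]⟩,.k,(.r (-1) ⟨11,[(3,0),(0,1),(1,3),(2,1),(8,0),(2,0),
  (19,0),(0,4)]⟩ ⟨6,[(15,2),(11,2),(0,2),(7,1),(3,0)]⟩),(.r (-1) ⟨11,[(3,0),(0,1),(1,3),(2,1),(8,0),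
  (2,0),(19,0),(0,4)]⟩ ⟨6,[(15,2),(11,2),(0,2),(7,1),(3,0)]⟩),.k,.k,.k,⟨true,0,⟨1,[(28,0),(0,0)]⟩,
  ⟨0,[]⟩⟩,⟨false,0,⟨0,[(32,0),(1,0)]⟩,⟨1,[(37,0),(3,0)]⟩⟩,⟨true,0,⟨0,[(39,0)]⟩,⟨0,[(40,0)]⟩⟩,⟨false,
  0,⟨31,[(3,4),(2,13),(0,18),(1,3),(8,1),(3,4),(2,5),(0,9)]⟩,⟨0,[(2,0),(39,0)]⟩⟩,⟨false,0,⟨0,[]⟩,⟨0,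
  []⟩⟩,⟨false,0,⟨0,[]⟩,⟨0,[]⟩⟩,[.o ⟨false,0,⟨12,[(1,10),(1,1),(2,2),(0,9),(1,2),(27,4),(1,3)]⟩,⟨1,
  [(2,1),(19,1),(14,0),(4,0)]⟩⟩,.e ⟨false,1,⟨11,[(3,0),(0,1),(1,3),(2,1),(8,0),(2,0),(19,0),(0,4)]⟩,
  ⟨6,[(15,0),(11,0),(0,0),(7,2),(3,4)]⟩⟩ ⟨false,1,⟨31,[(3,20),(2,13),(0,2),(1,3),(8,1),(3,20),(2,5),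
  (0,9)]⟩,⟨0,[(2,0)]⟩⟩,.a ⟨true,0,⟨2,[(1,1),(5,0),(13,0)]⟩,⟨0,[(22,0)]⟩⟩ ⟨false,1,⟨0,[(39,0),(2,
  0)]⟩,⟨0,[(40,0)]⟩⟩ ⟨true,0,⟨31,[(3,4),(2,13),(0,18),(1,3),(8,1),(3,4),(2,5),(0,9)]⟩,⟨0,[(2,0)]⟩⟩,
  .o ⟨false,0,⟨0,[(1,0),(5,0),(29,0)]⟩,⟨1,[(22,1),(14,0),(3,0)]⟩⟩]⟩))) (.S ⟨1,0,[0,0,-1,-1],[1,-1],
  [0,1,-1,-1],(⟨0,[(32,0)]⟩,⟨0,[(33,0)]⟩),⟨0,[(17,0),(0,0)]⟩,.k,(.r (-1) ⟨19,[(1,0),(0,3),(1,13),(2,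
  7),(8,2),(2,2),(4,1),(14,1)]⟩ ⟨2,[(8,0),(4,0),(11,1),(0,1),(11,1),(1,0)]⟩),⟨true,0,⟨0,[(42,0)]⟩,
  ⟨0,[]⟩⟩,⟨false,1,⟨1,[(19,0),(0,0),(19,0)]⟩,⟨0,[]⟩⟩,⟨false,0,⟨0,[(38,0)]⟩,⟨0,[(37,0),(2,0)]⟩⟩,
  ⟨true,0,⟨0,[(38,0)]⟩,⟨0,[(37,0)]⟩⟩,[.a ⟨true,0,⟨4,[(0,1),(2,0),(0,0),(19,0),(3,0),(3,1),(4,0)]⟩,
  ⟨0,[(38,0)]⟩⟩ ⟨true,0,⟨0,[(36,0)]⟩,⟨3,[(5,1),(2,1),(6,1),(9,1),(9,0),(4,2)]⟩⟩ ⟨false,1,⟨39,[(1,0),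
  (0,3),(1,13),(2,7),(8,2),(2,2),(4,1),(14,21)]⟩,⟨5,[(8,0),(4,0),(11,1),(0,1),(11,1),(1,0)]⟩⟩,.a
  ⟨true,0,⟨0,[(0,0)]⟩,⟨6,[(13,0),(11,0),(0,0),(7,2),(3,4)]⟩⟩ ⟨false,1,⟨39,[(1,0),(0,3),(1,13),(2,7),
  (8,2),(2,2),(4,1),(14,21)]⟩,⟨5,[(8,0),(4,0),(11,1),(0,1),(11,1),(1,0)]⟩⟩ ⟨true,1,⟨11,[(1,0),(0,1),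
  (1,3),(2,1),(8,0),(2,0),(19,0),(0,4)]⟩,⟨0,[(8,0),(1,0),(4,0)]⟩⟩,.o ⟨false,0,⟨1,[(26,0),(0,0)]⟩,⟨1,
  [(35,0),(3,0)]⟩⟩,.a ⟨true,(-1),⟨0,[(5,0)]⟩,⟨0,[(39,0)]⟩⟩ ⟨false,1,⟨39,[(1,0),(0,3),(1,13),(2,7),
  (8,2),(2,2),(4,1),(14,21)]⟩,⟨3,[(5,1),(2,1),(6,1),(9,1),(9,0),(4,2)]⟩⟩ ⟨true,1,⟨39,[(1,0),(0,3),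
  (1,13),(2,7),(8,2),(2,2),(4,1),(14,21)]⟩,⟨0,[(8,0),(1,0),(4,0)]⟩⟩]⟩)))))))))))))) (.I [0,0,-2,0,1,
  -2,1] (.K ⟨0,[0,1,1],0,0,(⟨0,[(17,0),(0,0)]⟩,⟨0,[(5,0)]⟩),.k,.k,(.x (-1) ⟨0,[(0,0)]⟩ ⟨1,[(14,0),
  (0,2),(1,1),(0,3)]⟩),.k,.k,[⟨1,[(14,0),(0,0)]⟩,⟨0,[(3,0)]⟩,⟨5,[(1,1),(11,3),(0,0),(0,2),(9,1)]⟩,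
  ⟨0,[(12,0),(13,0)]⟩]⟩) (.Q [0,0,1,0,0,0,2,0,0,-1,2] (.p true [0,0,1] [1,0,-1] (⟨0,[(17,0)]⟩,⟨0,
  [(16,0)]⟩) .k 2 (⟨0,[(16,0)]⟩,⟨0,[(17,0)]⟩) .k (.x (-1) ⟨0,[(3,1),(12,1),(6,0)]⟩ ⟨2,[(0,1),(5,3),
  (4,3),(11,1)]⟩)) (.I [0,0,2,2,-1,0,0,-1] (.K ⟨0,[1,1,-1],0,(-1),(⟨0,[(18,0),(1,0)]⟩,⟨0,[(8,0)]⟩),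
  .k,.k,(.r 1 ⟨0,[(0,0)]⟩ ⟨3,[(6,1),(7,3),(10,0),(0,5),(0,1),(1,0),(0,5)]⟩),(.r 1 ⟨11,[(0,13),(2,7),
  (11,1),(0,1),(12,0),(0,0)]⟩ ⟨1,[(6,1),(7,3),(10,0),(0,1),(3,2)]⟩),.k,[⟨0,[(1,0)]⟩,⟨4,[(2,0),(3,1),
  (11,0),(3,1),(6,0)]⟩,⟨1,[(14,1),(10,0),(1,1),(2,0)]⟩,⟨0,[(0,0),(12,0),(12,0)]⟩]⟩) (.K ⟨0,[1,1,-1],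
  0,(-1),(⟨0,[(18,0),(1,0)]⟩,⟨0,[(8,0)]⟩),.k,.k,(.x (-1) ⟨3,[(0,0),(2,0),(3,1),(0,5),(4,3),(11,2),
  (2,3)]⟩ ⟨1,[(1,0),(0,0),(13,0),(1,2),(1,1),(4,0)]⟩),(.r 1 ⟨0,[(1,0),(0,1),(0,1),(3,2),(0,0),(16,
  0),(2,4)]⟩ ⟨7,[(0,3),(5,5),(2,2),(0,2),(3,11),(10,2),(4,5)]⟩),.k,[⟨0,[(1,0)]⟩,⟨4,[(2,0),(3,1),(11,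
  0),(3,1),(6,0)]⟩,⟨5,[(0,1),(8,0),(0,0),(3,3),(1,2),(0,0),(7,2),(1,1)]⟩,⟨0,[(2,1),(0,1),(3,2),(0,
  0),(5,0),(10,0),(2,4)]⟩]⟩)) (.I [1,-1,0,-1,0,0,0,-1] (.I [0,-1,0,1,1,0,0,1] (.S ⟨1,0,[0,0,0,0,0,0,
  0,-1],[1,0,-1],[1,1,0,-1,0,0,0,-1],(⟨0,[(19,0)]⟩,⟨0,[(20,0)]⟩),⟨0,[(8,0)]⟩,.k,.k,⟨true,0,⟨0,[(28,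
  0)]⟩,⟨0,[(29,0)]⟩⟩,⟨false,1,⟨1,[(10,0),(0,0),(19,0)]⟩,⟨0,[]⟩⟩,⟨false,0,⟨0,[]⟩,⟨1,[(10,0),(0,0),
  (19,0)]⟩⟩,⟨true,0,⟨0,[(29,0)]⟩,⟨0,[(28,0)]⟩⟩,[.o ⟨false,0,⟨2,[(1,0),(2,0),(11,0),(1,1),(10,2)]⟩,
  ⟨1,[(15,1),(10,0),(4,0)]⟩⟩,.a ⟨true,0,⟨5,[(1,4),(1,0),(3,0),(6,1),(1,0),(2,0),(3,1),(5,4),(1,0)]⟩,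
  ⟨0,[(15,0)]⟩⟩ ⟨false,0,⟨3,[(1,0),(2,1),(1,0),(9,0),(12,0)]⟩,⟨0,[(0,0),(32,0)]⟩⟩ ⟨true,0,⟨0,[(1,0),
  (27,0)]⟩,⟨0,[(15,0),(2,0)]⟩⟩,.e ⟨false,0,⟨5,[(1,2),(2,0),(11,1),(0,1),(10,0)]⟩,⟨0,[(0,0)]⟩⟩
  ⟨false,0,⟨0,[(1,0),(27,0)]⟩,⟨0,[(0,0),(27,0)]⟩⟩,.o ⟨false,0,⟨0,[(18,0)]⟩,⟨1,[(6,1),(19,0),(3,
  0)]⟩⟩]⟩) (.I [0,0,2,0,-1,2,-1] (.K ⟨0,[0,1,1],0,0,(⟨1,[(4,0),(2,0),(13,0),(9,0)]⟩,⟨0,[(9,0)]⟩),.k,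
  .k,(.x (-2) ⟨0,[(7,0),(1,0),(14,0),(2,0),(3,0)]⟩ ⟨0,[(0,0)]⟩),.k,.k,[⟨1,[(18,0),(0,0)]⟩,⟨0,[(7,
  0)]⟩,⟨5,[(2,0),(2,0),(11,3),(1,1),(9,2)]⟩,⟨0,[(16,0),(13,0)]⟩]⟩) (.Q [0,0,-2,0,1,0,0,0,0,-1] (.pp
  true [-1,1]) (.I [0,-1,2,2] (.R ⟨1,false,false,false,[1,-1],[0,1],[1,1,-1,-2],(⟨0,[(26,0)]⟩,⟨0,
  [(27,0)]⟩),(⟨0,[(27,0)]⟩,⟨0,[(26,0)]⟩),⟨0,[(11,0),(0,0)]⟩,.k,.k,(.r (-1) ⟨0,[(30,1),(3,0)]⟩ ⟨0,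
  [(0,0),(35,0)]⟩),(.r (-1) ⟨0,[(30,1),(3,0)]⟩ ⟨0,[(0,0),(35,0)]⟩),(.r (-1) ⟨3,[(5,1),(1,5),(10,5),
  (2,1),(7,0),(4,2)]⟩ ⟨1,[(0,2),(35,2)]⟩),.k,⟨false,1,⟨0,[(30,2),(3,0)]⟩,⟨0,[(0,0),(31,0)]⟩⟩,⟨true,
  1,⟨0,[(1,0)]⟩,⟨3,[(0,1),(2,0),(0,2),(1,3),(4,5),(0,1),(5,3),(10,0)]⟩⟩,⟨true,0,⟨0,[(31,0)]⟩,⟨0,
  [(32,0)]⟩⟩,⟨false,1,⟨0,[(0,0),(0,0)]⟩,⟨2,[(6,1),(0,1),(3,2),(0,0),(5,1),(12,1),(2,1)]⟩⟩,⟨false,0,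
  ⟨0,[]⟩,⟨1,[(13,0),(0,0),(19,0)]⟩⟩,⟨false,1,⟨0,[(0,0),(0,0),(30,0)]⟩,⟨5,[(4,2),(1,3),(0,6),(3,5),
  (0,1),(5,9),(2,5),(9,0),(2,3)]⟩⟩,[.a ⟨true,0,⟨0,[(32,0)]⟩,⟨2,[(6,0),(0,0),(10,0),(3,0),(3,1),(4,
  0),(2,0)]⟩⟩ ⟨true,0,⟨0,[(7,0),(10,0),(2,0)]⟩,⟨0,[(0,0)]⟩⟩ ⟨false,1,⟨0,[(1,0),(30,0)]⟩,⟨4,[(4,0),
  (1,1),(4,0),(6,0),(1,0),(1,0),(3,2),(4,3),(2,1)]⟩⟩,.o ⟨false,1,⟨3,[(0,1),(0,1),(27,0),(4,0)]⟩,⟨0,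
  [(31,0)]⟩⟩,.o ⟨false,0,⟨1,[(20,0),(0,0)]⟩,⟨1,[(29,0),(3,0)]⟩⟩,.o ⟨false,0,⟨0,[(20,0),(0,0)]⟩,⟨0,
  [(1,0)]⟩⟩]⟩) (.K ⟨0,[0,1,1],0,0,(⟨1,[(6,0),(2,0),(13,0),(9,0)]⟩,⟨0,[(11,0)]⟩),.k,.k,(.r (-1) ⟨1,
  [(13,0),(0,0),(3,1),(1,0),(0,2),(10,3),(1,0)]⟩ ⟨0,[(0,0),(2,0),(28,0),(1,0)]⟩),.k,.k,[⟨1,[(20,0),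
  (0,0)]⟩,⟨0,[(9,0)]⟩,⟨5,[(4,0),(2,0),(11,3),(1,1),(9,2)]⟩,⟨0,[(18,0),(13,0)]⟩]⟩)) (.Q [0,-1,0,1,0,
  0,-1,-1,0,0,-1] (.p false [0,0,1] [] (⟨0,[(22,0)]⟩,⟨0,[(21,0)]⟩) .k 0 (⟨0,[]⟩,⟨0,[]⟩) .k .k) (.R
  ⟨1,false,false,false,[1,-1],[1,-1,-1],[0,1],(⟨0,[(26,0)]⟩,⟨0,[(27,0)]⟩),(⟨0,[(11,0)]⟩,⟨1,[(6,0),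
  (2,0),(13,0),(9,0)]⟩),⟨0,[(11,0),(0,0)]⟩,.k,.k,(.r (-1) ⟨0,[(30,1),(3,0)]⟩ ⟨0,[(20,0),(0,0),(10,
  1)]⟩),.k,.k,.k,⟨true,0,⟨0,[(18,0),(2,0),(10,0)]⟩,⟨0,[(4,0)]⟩⟩,⟨false,1,⟨3,[(10,1),(2,0),(0,0),(14,
  0),(3,1)]⟩,⟨0,[(9,0)]⟩⟩,⟨false,0,⟨1,[(20,0),(0,0),(10,1)]⟩,⟨0,[(30,0),(3,0)]⟩⟩,⟨true,0,⟨8,[(0,2),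
  (3,0),(2,0),(11,3),(1,1)]⟩,⟨0,[(18,0)]⟩⟩,⟨false,0,⟨1,[(20,0),(0,0),(10,3)]⟩,⟨0,[(7,0),(10,0),(2,
  0),(12,0)]⟩⟩,⟨false,0,⟨0,[(0,0)]⟩,⟨0,[(18,0),(12,0),(2,0)]⟩⟩,[.o ⟨false,0,⟨2,[(4,0),(2,0),(11,0),
  (1,1)]⟩,⟨1,[(18,1),(10,0),(2,1),(1,0)]⟩⟩,.e ⟨false,1,⟨1,[(13,0),(0,0),(18,0)]⟩,⟨0,[]⟩⟩ ⟨false,1,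
  ⟨6,[(0,0),(4,1),(1,3),(11,1),(9,0),(3,1),(0,3)]⟩,⟨1,[(18,1),(1,0),(0,0),(10,1)]⟩⟩,.o ⟨false,0,⟨1,
  [(20,0),(0,0)]⟩,⟨1,[(29,0),(3,0)]⟩⟩,.a ⟨true,(-1),⟨0,[(1,0)]⟩,⟨0,[(33,0)]⟩⟩ ⟨true,0,⟨10,[(3,0),(1,
  1),(1,2),(10,3),(9,2),(0,0),(2,6)]⟩,⟨1,[(20,0),(0,0)]⟩⟩ ⟨false,1,⟨6,[(0,0),(4,1),(1,3),(11,1),(9,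
  0),(3,1),(0,3)]⟩,⟨1,[(1,1),(16,1),(10,0),(2,1),(1,0)]⟩⟩]⟩) (.Q [0,-1,0,2,0,0,-1,-1,0,0,-1] (.p
  false [0,0,1] [] (⟨0,[(23,0)]⟩,⟨0,[(22,0)]⟩) .k 0 (⟨0,[]⟩,⟨0,[]⟩) .k .k) (.R ⟨1,true,false,false,
  [0,0,1],[0,1],[1,0,0,-1,0,0,0,1],(⟨0,[(24,0)]⟩,⟨0,[(23,0)]⟩),(⟨0,[(28,0)]⟩,⟨0,[(27,0)]⟩),⟨0,[(13,
  0)]⟩,.k,.k,.k,.k,(.r (-2) ⟨6,[(1,7),(6,0),(2,3),(18,1),(1,3),(1,5),(0,5)]⟩ ⟨1,[(0,0),(1,1),(1,0),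
  (5,0),(19,0),(2,2)]⟩),.k,⟨true,1,⟨2,[(1,3),(4,0),(1,0),(2,0),(18,0),(4,1)]⟩,⟨1,[(0,0),(1,1),(1,0),
  (5,0),(19,0),(2,2)]⟩⟩,⟨false,1,⟨3,[(6,1),(23,0),(3,2)]⟩,⟨0,[(21,0)]⟩⟩,⟨false,1,⟨0,[(32,0),(2,0)]⟩,
  ⟨0,[(33,0)]⟩⟩,⟨true,0,⟨1,[(0,0),(19,0)]⟩,⟨0,[(1,0)]⟩⟩,⟨true,0,⟨0,[]⟩,⟨0,[(37,0)]⟩⟩,⟨false,0,⟨0,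
  [(0,0)]⟩,⟨0,[(1,0),(30,0),(2,0)]⟩⟩,[]⟩) (.Q [0,0,0,0,0,0,0,0,-1,1,0,-1] (.p false [0,0,0,0,1] [1]
  (⟨0,[(17,0)]⟩,⟨0,[(16,0)]⟩) .k 1 (⟨0,[]⟩,⟨0,[]⟩) .k .k) (.Q [0,-1,0,1,1,0,1,1,-1,0,1,-1] (.p true
  [0,0,1] [0,0,0,0,1] (⟨0,[(25,0)]⟩,⟨0,[(24,0)]⟩) .k 2 (⟨0,[(18,0)]⟩,⟨0,[(17,0)]⟩) .k (.r (-2) ⟨3,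
  [(12,1),(2,2),(0,2),(3,3),(10,0),(4,3)]⟩ ⟨0,[(5,0),(28,0)]⟩)) (.Q [0,0,0,0,0,0,0,0,0,0,-1,1] (.ed
  false [1,0,-1,0,1] (.r 1 ⟨0,[(6,0),(28,0)]⟩ ⟨11,[(0,7),(1,3),(10,5),(2,8),(0,16),(14,2),(4,3)]⟩))
  (.K ⟨0,[0,0,-1,0,1],0,(-1),(⟨0,[(0,0)]⟩,⟨0,[(19,0),(7,0)]⟩),.k,(.r 0 ⟨3,[(11,1),(1,0),(9,1),(0,0),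
  (7,0)]⟩ ⟨0,[(1,0),(16,0),(6,0)]⟩),(.r 1 ⟨4,[(5,1),(1,3),(15,0),(0,0),(8,0),(2,8)]⟩ ⟨11,[(1,3),(1,
  7),(10,5),(2,2),(0,6),(14,2),(3,5),(0,7)]⟩),.k,.k,[⟨0,[(1,0),(5,0),(5,0)]⟩,⟨0,[(18,0),(6,0)]⟩,⟨3,
  [(1,1),(1,0),(13,1),(4,0)]⟩,⟨7,[(7,8),(1,1),(8,7),(3,0),(2,4),(6,2),(0,0),(2,8)]⟩]⟩) (.K ⟨0,[0,0,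
  1,0,-1],0,1,(⟨0,[(0,0)]⟩,⟨0,[(20,0),(5,0)]⟩),.k,(.r (-2) ⟨11,[(1,3),(1,7),(10,5),(2,2),(0,6),(14,
  2),(3,5),(0,7)]⟩ ⟨4,[(5,1),(1,3),(15,0),(0,0),(8,0),(2,8)]⟩),(.r (-1) ⟨0,[(1,0),(16,0),(6,0)]⟩ ⟨3,
  [(11,1),(1,0),(9,1),(0,0),(7,0)]⟩),.k,.k,[⟨0,[(18,0)]⟩,⟨4,[(1,3),(3,1),(1,3),(9,0),(6,0),(8,0)]⟩,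
  ⟨7,[(7,8),(1,1),(8,7),(3,0),(2,4),(6,2),(0,0),(2,8)]⟩,⟨3,[(1,1),(1,0),(13,1),(4,0)]⟩]⟩)) (.Q [0,0,
  1,0,0,0,1,0,-1,0,1,-1] (.p true [0,0,1] [0,0,0,0,1] (⟨0,[(26,0)]⟩,⟨0,[(25,0)]⟩) .k 2 (⟨0,[(19,
  0)]⟩,⟨0,[(18,0)]⟩) .k (.r (-2) ⟨3,[(13,1),(2,2),(0,2),(3,3),(10,0),(4,3)]⟩ ⟨0,[(6,0),(28,0)]⟩))
  (.Q [0,0,0,0,0,0,0,0,0,0,-1,1] (.ed false [1,0,-1,0,1] (.r 1 ⟨0,[(7,0),(28,0)]⟩ ⟨3,[(14,1),(2,2),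
  (0,2),(3,3),(10,0),(4,3)]⟩)) (.Q [0,0,0,0,0,0,2,0,-1,0,2,-1] (.p true [0,0,1] [0,0,-1,0,1] (⟨0,
  [(28,0)]⟩,⟨0,[(27,0)]⟩) .k 2 (⟨0,[(0,0)]⟩,⟨0,[(20,0),(7,0)]⟩) .k (.r (-2) ⟨1,[(15,1),(7,3),(10,0),
  (4,2)]⟩ ⟨1,[(8,1),(0,0),(4,0),(9,0),(12,2)]⟩)) (.K ⟨0,[0,0,-1,0,1],0,(-1),(⟨0,[(1,0)]⟩,⟨0,[(21,0),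
  (7,0)]⟩),.k,(.r 0 ⟨7,[(0,0),(12,3),(6,0),(4,3),(0,1),(7,1)]⟩ ⟨0,[(24,0),(2,0),(10,0),(1,0)]⟩),(.r
  1 ⟨4,[(7,1),(1,3),(15,0),(0,0),(8,0),(2,8)]⟩ ⟨3,[(5,1),(10,1),(2,0),(0,0),(3,1),(10,0),(3,1),(0,
  3)]⟩),.k,.k,[⟨0,[(0,0)]⟩,⟨0,[(20,0),(6,0)]⟩,⟨5,[(2,3),(8,1),(2,1),(9,5),(10,0),(4,2)]⟩,⟨7,[(3,6),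
  (3,1),(12,0),(4,0),(8,3),(0,0),(2,6)]⟩]⟩) (.S ⟨1,0,[0,0,0,0,0,0,0,1],[1,0,1,0,-1],[1,-1,0,-1,0,0,
  0,1],(⟨0,[(21,0),(7,0)]⟩,⟨0,[(1,0)]⟩),⟨0,[(18,0),(2,0)]⟩,.k,(.r (-2) ⟨1,[(0,0),(4,0),(13,0),(4,0),
  (14,0),(0,1)]⟩ ⟨4,[(7,1),(1,3),(15,0),(0,0),(8,0),(2,8)]⟩),⟨false,1,⟨0,[(37,0),(2,0)]⟩,⟨0,[(38,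
  0)]⟩⟩,⟨true,0,⟨0,[(42,0)]⟩,⟨0,[]⟩⟩,⟨true,0,⟨0,[]⟩,⟨0,[(42,0)]⟩⟩,⟨false,0,⟨0,[(38,0)]⟩,⟨0,[(37,0),
  (2,0)]⟩⟩,[.o ⟨false,1,⟨5,[(2,3),(8,1),(2,1),(9,5),(10,0),(4,2)]⟩,⟨3,[(0,0),(2,1),(6,1),(9,0),(14,
  1),(2,3)]⟩⟩,.e ⟨false,2,⟨3,[(5,1),(5,1),(12,1),(10,0),(3,0),(0,5)]⟩,⟨9,[(7,1),(1,8),(15,0),(0,0),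
  (7,4),(0,0),(2,18)]⟩⟩ ⟨false,2,⟨1,[(0,0),(18,0),(4,1),(14,0),(0,1)]⟩,⟨0,[(9,0),(28,0)]⟩⟩,.a ⟨true,
  0,⟨0,[(4,0),(10,0)]⟩,⟨1,[(0,0),(19,0)]⟩⟩ ⟨false,2,⟨1,[(0,0),(4,0),(13,0),(4,0),(15,2)]⟩,⟨0,[(9,0),
  (28,1)]⟩⟩ ⟨true,1,⟨1,[(0,0),(18,0),(4,1),(15,0)]⟩,⟨0,[(9,0),(28,0)]⟩⟩,.o ⟨false,0,⟨0,[(2,0)]⟩,⟨1,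
  [(0,0),(19,0),(14,0),(3,0)]⟩⟩]⟩)) (.K ⟨0,[0,0,1,0,-1],0,1,(⟨0,[(0,0)]⟩,⟨0,[(21,0),(5,0)]⟩),.k,(.r
  (-2) ⟨3,[(4,1),(10,1),(2,0),(0,0),(3,1),(10,0),(3,1),(0,3)]⟩ ⟨4,[(6,1),(1,3),(15,0),(0,0),(8,0),
  (2,8)]⟩),(.r (-1) ⟨0,[(23,0),(2,0),(10,0),(1,0)]⟩ ⟨3,[(12,1),(1,0),(9,1),(0,0),(7,0)]⟩),.k,.k,[⟨0,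
  [(19,0)]⟩,⟨0,[(1,0)]⟩,⟨7,[(2,6),(3,1),(12,0),(4,0),(8,3),(0,0),(2,6)]⟩,⟨5,[(1,3),(8,1),(2,1),(9,
  5),(10,0),(4,2)]⟩]⟩)) (.Q [0,0,0,0,0,-1,0,0,0,0,0,1] (.ed false [1,-1,0,0,1] .k) (.K ⟨0,[1,1,0,0,
  -1],0,0,(⟨0,[(20,0),(8,0)]⟩,⟨0,[(0,0)]⟩),(.r (-1) ⟨1,[(18,0),(0,0),(5,0),(0,0),(10,1),(1,0)]⟩ ⟨0,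
  [(35,0)]⟩),.k,(.r 0 ⟨1,[(6,1),(27,0),(2,3),(1,0)]⟩ ⟨17,[(4,3),(7,3),(2,1),(18,0),(1,19),(1,13),(0,
  2)]⟩),(.r 0 ⟨4,[(6,1),(2,3),(14,0),(0,0),(8,0),(2,8),(1,0)]⟩ ⟨3,[(4,1),(10,1),(2,0),(0,0),(3,1),
  (10,0),(3,1)]⟩),.k,[⟨0,[(1,0),(4,0),(7,1),(19,0)]⟩,⟨0,[(3,0)]⟩,⟨3,[(2,1),(1,0),(14,1),(3,0),(10,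
  1),(6,3)]⟩,⟨0,[(3,0),(33,0)]⟩]⟩) (.R ⟨0,false,false,false,[0,0,0,0,1],[1,0,0,0,-1],[1,1,1],(⟨0,
  [(21,0)]⟩,⟨0,[(20,0)]⟩),(⟨0,[(20,0)]⟩,⟨0,[(21,0)]⟩),⟨0,[(0,0)]⟩,.k,.k,(.r 0 ⟨0,[(35,0)]⟩ ⟨1,[(18,
  0),(0,0),(5,0),(0,0),(10,1),(1,0)]⟩),.k,.k,.k,⟨true,(-1),⟨0,[(8,0),(14,0),(2,0),(10,0)]⟩,⟨0,[(39,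
  0)]⟩⟩,⟨false,1,⟨0,[(3,0),(9,0)]⟩,⟨0,[(1,1),(4,0),(7,1),(19,0)]⟩⟩,⟨true,0,⟨1,[(25,0),(0,0)]⟩,⟨10,
  [(8,0),(1,1),(1,2),(10,3),(9,2),(0,0),(2,6)]⟩⟩,⟨false,2,⟨1,[(3,3),(30,0),(4,2)]⟩,⟨0,[(1,1),(4,0),
  (1,0),(5,0),(8,0),(10,0),(2,0)]⟩⟩,⟨false,0,⟨0,[]⟩,⟨0,[]⟩⟩,⟨false,0,⟨0,[]⟩,⟨0,[]⟩⟩,[.o ⟨false,1,⟨1,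
  [(3,1),(30,0),(4,0)]⟩,⟨1,[(2,0),(16,0),(3,0),(10,0),(2,0)]⟩⟩,.e ⟨false,0,⟨0,[]⟩,⟨1,[(18,0),(0,0),
  (18,0)]⟩⟩ ⟨false,2,⟨0,[(3,0),(9,0),(25,0)]⟩,⟨0,[(1,1),(4,0),(1,0),(5,0),(8,0),(10,0),(2,0)]⟩⟩,.a
  ⟨true,0,⟨0,[(19,0)]⟩,⟨0,[(3,0)]⟩⟩ ⟨false,0,⟨1,[(25,0),(0,0)]⟩,⟨1,[(38,0),(0,0)]⟩⟩ ⟨true,1,⟨1,[(3,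
  3),(30,0),(4,0)]⟩,⟨0,[(1,1),(4,0),(1,0),(5,0),(8,0),(10,0),(2,0)]⟩⟩,.o ⟨false,0,⟨0,[(1,0),(4,0),
  (7,0),(19,0)]⟩,⟨0,[(13,0)]⟩⟩]⟩)))) (.Q [0,2,0,0,-1,0,0,0,1,-1,0,1] (.p true [0,0,0,0,1] [1] (⟨0,
  [(18,0)]⟩,⟨0,[(17,0)]⟩) .k 1 (⟨0,[]⟩,⟨0,[]⟩) .k .k) (.K ⟨0,[1,0,0,0,-1],0,1,(⟨0,[(18,0)]⟩,⟨0,[(19,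
  0)]⟩),.k,(.r (-1) ⟨17,[(2,3),(7,3),(2,1),(18,0),(1,1),(1,4),(0,11)]⟩ ⟨1,[(23,0),(0,0),(10,1),(3,
  1)]⟩),(.r (-1) ⟨1,[(16,0),(0,0),(5,0),(0,0),(10,1),(1,0)]⟩ ⟨0,[(33,0)]⟩),.k,.k,[⟨0,[(1,0),(10,
  0)]⟩,⟨0,[(4,0),(6,0)]⟩,⟨0,[(0,0)]⟩,⟨0,[(16,0),(10,0),(1,0)]⟩]⟩) (.Q [0,0,0,0,0,-1,0,0,0,0,0,1]
  (.ed false [1,-1,0,0,1] .k) (.K ⟨0,[0,-1,0,0,1],(-1),(-1),(⟨0,[(0,0)]⟩,⟨0,[(19,0),(8,0)]⟩),(.r 0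
  ⟨0,[(34,0)]⟩ ⟨1,[(17,0),(0,0),(5,0),(0,0),(10,1),(1,0)]⟩),(.r (-1) ⟨17,[(3,3),(7,3),(2,1),(18,0),
  (1,19),(1,13),(0,2)]⟩ ⟨1,[(5,1),(27,0),(2,3),(1,0)]⟩),.k,(.r 0 ⟨3,[(11,1),(1,0),(9,1),(0,0),(7,
  0)]⟩ ⟨0,[(22,0),(2,0),(10,0),(1,0)]⟩),.k,[⟨0,[(12,0),(0,0)]⟩,⟨0,[(2,0),(2,0)]⟩,⟨0,[(17,0),(18,
  0)]⟩,⟨5,[(2,3),(0,0),(1,1),(1,3),(1,1),(8,1),(3,2),(9,1)]⟩]⟩) (.K ⟨0,[1,0,-1,0,-1],0,0,(⟨0,[(0,0),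
  (14,0)]⟩,⟨0,[(20,0),(6,0)]⟩),.k,(.r (-1) ⟨3,[(11,1),(11,1),(0,1),(12,0),(0,2)]⟩ ⟨0,[(22,0),(2,0),
  (10,0)]⟩),(.r 0 ⟨4,[(5,1),(2,3),(14,0),(0,0),(8,0),(2,8),(1,0)]⟩ ⟨3,[(3,1),(10,1),(2,0),(0,0),(3,
  1),(10,0),(3,1)]⟩),.k,.k,[⟨0,[(2,0),(10,1)]⟩,⟨0,[(1,0),(3,0),(1,0),(1,0),(12,0),(10,0),(2,0)]⟩,⟨0,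
  [(2,0),(19,0),(17,0)]⟩,⟨3,[(1,1),(3,0),(1,2),(1,0),(2,1),(10,0),(1,0),(10,2)]⟩]⟩))))))))) (.S ⟨1,
  0,[0,0,1,1,0,0,0,1],[0,1,1],[0,1,1,1,0,0,0,1],(⟨1,[(2,0),(2,0),(13,0),(9,0)]⟩,⟨0,[(7,0)]⟩),⟨0,
  [(19,0)]⟩,.k,.k,⟨true,0,⟨0,[(32,0)]⟩,⟨0,[]⟩⟩,⟨false,1,⟨1,[(9,0),(0,0),(19,0)]⟩,⟨0,[]⟩⟩,⟨false,0,
  ⟨0,[(28,0)]⟩,⟨0,[(27,0),(2,0)]⟩⟩,⟨true,0,⟨0,[(28,0)]⟩,⟨0,[(27,0)]⟩⟩,[.o ⟨false,1,⟨1,[(0,1),(4,1),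
  (19,0),(4,0)]⟩,⟨5,[(2,3),(0,3),(3,5),(0,1),(6,1),(9,2),(2,1),(1,0)]⟩⟩,.e ⟨false,1,⟨1,[(0,1),(8,0),
  (0,0),(19,0)]⟩,⟨17,[(2,3),(0,15),(3,5),(0,1),(6,1),(0,5),(8,2),(2,13),(1,0)]⟩⟩ ⟨false,1,⟨0,[(0,0),
  (29,0)]⟩,⟨3,[(3,1),(1,0),(9,1),(0,0),(7,0)]⟩⟩,.o ⟨false,1,⟨1,[(5,1),(19,0),(3,0)]⟩,⟨0,[(17,0)]⟩⟩,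
  .a ⟨true,0,⟨0,[(5,0)]⟩,⟨4,[(2,0),(3,1),(11,0),(3,1),(6,0)]⟩⟩ ⟨true,0,⟨0,[(0,0)]⟩,⟨8,[(2,3),(0,6),
  (3,5),(0,1),(6,1),(0,5),(8,2),(2,4),(1,0)]⟩⟩ ⟨false,1,⟨0,[(0,0),(29,0)]⟩,⟨8,[(2,3),(0,6),(3,5),(0,
  1),(6,1),(0,5),(8,2),(2,4),(1,0)]⟩⟩]⟩))))))

theorem ok41 : chk K t41 r0 = true := by decide +kernel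


end Helper25.S1T.Ypp_1cP4
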