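import Pool.Agent.Helper25.S1T.Ypp_1cP4_q

set_option autoImplicit false
set_option linter.all false

namespace Helper25.S1T.Ypp_1cP4

open Helper25.KG Helper25.KW Helper55.KE Helper11.CT

noncomputable def t0 : Tre :=
  (.R ⟨2,true,false,true,[0,1],[0,0,1],[1,1,1],(⟨0,[]⟩,⟨0,[]⟩),(⟨0,[(15,0)]⟩,⟨0,[(14,0)]⟩),⟨0,[]⟩,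
  .k,.k,.k,.k,.k,.k,⟨false,0,⟨0,[(0,0),(11,0),(9,0)]⟩,⟨1,[(9,1),(0,1),(10,0),(4,0)]⟩⟩,⟨true,0,⟨0,
  [(12,0)]⟩,⟨0,[(1,0)]⟩⟩,⟨true,0,⟨0,[(23,0)]⟩,⟨0,[(24,0)]⟩⟩,⟨false,1,⟨0,[(10,0),(12,0),(2,0)]⟩,⟨0,
  [(0,0)]⟩⟩,⟨false,0,⟨0,[]⟩,⟨1,[(5,0),(0,0),(19,0)]⟩⟩,⟨true,0,⟨0,[(10,0)]⟩,⟨0,[(0,0),(22,0)]⟩⟩,[]⟩)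

theorem ok0 : chk K t0 l1 = true := by decide +kernel

noncomputable def t1 : Tre :=
  (.Q [0,0,0,0,0,0,0,0,-1,1,0,-1] (.p false [0,0,0,0,1] [1] (⟨0,[(13,0)]⟩,⟨0,[(12,0)]⟩) .k 1 (⟨0,
  []⟩,⟨0,[]⟩) .k .k) (.S ⟨1,0,[0,-1],[1,0,0,0,-1],[],(⟨0,[(13,0)]⟩,⟨0,[(14,0)]⟩),⟨0,[(3,0)]⟩,.k,(.r
  (-1) ⟨0,[(28,0),(3,0)]⟩ ⟨1,[(4,1),(6,0),(0,0),(19,0)]⟩),⟨true,0,⟨0,[(34,0)]⟩,⟨0,[]⟩⟩,⟨false,1,⟨1,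
  [(11,0),(0,0),(19,0)]⟩,⟨0,[]⟩⟩,⟨false,0,⟨0,[(30,0)]⟩,⟨0,[(29,0),(2,0)]⟩⟩,⟨true,0,⟨0,[(30,0)]⟩,⟨0,
  [(29,0)]⟩⟩,[.o ⟨false,1,⟨0,[(5,0)]⟩,⟨1,[(1,0),(10,0),(14,0)]⟩⟩,.a ⟨true,1,⟨0,[(0,0),(31,0)]⟩,⟨0,
  [(1,0)]⟩⟩ ⟨false,1,⟨1,[(31,0),(0,0)]⟩,⟨0,[(34,0)]⟩⟩ ⟨true,1,⟨0,[(32,0)]⟩,⟨0,[(1,0),(0,0)]⟩⟩,.e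
  ⟨false,1,⟨1,[(11,0),(0,0),(19,0)]⟩,⟨0,[]⟩⟩ ⟨false,1,⟨0,[(32,0)]⟩,⟨0,[(34,0)]⟩⟩,.o ⟨false,0,⟨0,[(2,
  0)]⟩,⟨1,[(12,1),(14,0),(3,0)]⟩⟩]⟩) (.Q [0,-2,0,0,1,0,0,0,-1,1,0,-1] (.p false [0,0,0,0,1] [1] (⟨0,
  [(14,0)]⟩,⟨0,[(13,0)]⟩) .k 1 (⟨0,[]⟩,⟨0,[]⟩) .k .k) (.S ⟨1,0,[0,-1],[1,0,0,0,-1],[1,0,0,-1],(⟨0,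
  [(14,0)]⟩,⟨0,[(15,0)]⟩),⟨0,[(4,0)]⟩,.k,(.r (-1) ⟨0,[(29,0),(3,0)]⟩ ⟨1,[(5,1),(6,0),(0,0),(19,
  0)]⟩),⟨true,0,⟨0,[(30,0)]⟩,⟨0,[(31,0)]⟩⟩,⟨false,1,⟨1,[(12,0),(0,0),(19,0)]⟩,⟨0,[]⟩⟩,⟨false,0,⟨0,
  []⟩,⟨1,[(12,0),(0,0),(19,0)]⟩⟩,⟨true,0,⟨0,[(31,0)]⟩,⟨0,[(30,0)]⟩⟩,[.o ⟨false,1,⟨0,[(6,0)]⟩,⟨1,[(2,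
  0),(10,0),(14,0)]⟩⟩,.a ⟨true,1,⟨0,[(0,0)]⟩,⟨0,[(2,0)]⟩⟩ ⟨false,1,⟨0,[(29,0),(3,0)]⟩,⟨3,[(5,1),(6,
  0),(0,0),(17,1),(0,0)]⟩⟩ ⟨true,1,⟨0,[(33,0)]⟩,⟨0,[(2,0),(0,0)]⟩⟩,.o ⟨false,1,⟨0,[(12,0)]⟩,⟨0,[(1,
  0)]⟩⟩,.o ⟨false,0,⟨0,[(3,0)]⟩,⟨1,[(13,1),(14,0),(3,0)]⟩⟩]⟩) (.Q [0,-1,2,0,0,0,0,0,-1,1,0,-1] (.p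
  false [0,0,0,0,1] [1] (⟨0,[(15,0)]⟩,⟨0,[(14,0)]⟩) .k 1 (⟨0,[]⟩,⟨0,[]⟩) .k .k) (.Q [0,0,0,-1,0,0,0,
  0,0,1] (.pp false [-1,1]) (.R ⟨1,false,false,false,[1,0,0,0,-1],[0,1],[0,-1],(⟨0,[(16,0)]⟩,⟨0,
  [(17,0)]⟩),(⟨0,[(28,0)]⟩,⟨0,[(27,0)]⟩),⟨0,[(6,0)]⟩,.k,.k,(.r (-1) ⟨0,[(31,0),(3,0)]⟩ ⟨1,[(7,1),(6,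
  0),(0,0),(19,0)]⟩),(.r (-1) ⟨0,[(31,0),(3,0)]⟩ ⟨1,[(7,1),(6,0),(0,0),(19,0)]⟩),(.r (-2) ⟨1,[(31,
  1),(0,1),(1,0),(0,2)]⟩ ⟨0,[(1,0),(0,0),(30,1)]⟩),.k,⟨true,1,⟨0,[(31,0),(3,0)]⟩,⟨0,[(1,0),(0,0),
  (30,0)]⟩⟩,⟨false,1,⟨0,[(3,0),(30,0)]⟩,⟨0,[(5,0),(19,0),(1,0)]⟩⟩,⟨false,1,⟨1,[(14,0),(0,0),(19,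
  0)]⟩,⟨0,[]⟩⟩,⟨false,0,⟨0,[(3,0),(29,0)]⟩,⟨0,[(0,0),(7,0)]⟩⟩,⟨true,0,⟨0,[(33,0)]⟩,⟨0,[(32,0)]⟩⟩,
  ⟨false,0,⟨0,[(3,0),(29,1)]⟩,⟨0,[(0,0),(4,0),(25,0),(3,0)]⟩⟩,[.a ⟨true,0,⟨0,[(33,0)]⟩,⟨0,[(0,0)]⟩⟩
  ⟨false,1,⟨1,[(34,0),(0,0)]⟩,⟨0,[(37,0)]⟩⟩ ⟨true,0,⟨0,[(3,0),(29,0)]⟩,⟨0,[(0,0),(4,0)]⟩⟩,.o ⟨false,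
  1,⟨1,[(30,0),(2,1),(1,0)]⟩,⟨0,[(32,0)]⟩⟩,.o ⟨false,1,⟨0,[(14,0)]⟩,⟨0,[(3,0)]⟩⟩,.o ⟨false,0,⟨0,[(5,
  0)]⟩,⟨1,[(15,1),(14,0),(3,0)]⟩⟩]⟩) (.Q [0,0,0,-1,0,0,-1,-1,0,1,-1] (.p false [0,0,1] [1] (⟨0,[(24,
  0)]⟩,⟨0,[(23,0)]⟩) .k 1 (⟨0,[]⟩,⟨0,[]⟩) .k .k) (.S ⟨1,0,[0,0,0,0,0,0,0,1],[0,0,1],[0,1,0,0,0,0,0,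
  1],(⟨0,[(25,0)]⟩,⟨0,[(24,0)]⟩),⟨0,[(14,0)]⟩,.k,.k,⟨true,0,⟨0,[(38,0)]⟩,⟨0,[]⟩⟩,⟨false,1,⟨1,[(15,
  0),(0,0),(19,0)]⟩,⟨0,[]⟩⟩,⟨false,0,⟨0,[(34,0)]⟩,⟨0,[(33,0),(2,0)]⟩⟩,⟨true,0,⟨0,[(34,0)]⟩,⟨0,[(33,
  0)]⟩⟩,[.o ⟨false,1,⟨1,[(20,1),(10,0),(4,0)]⟩,⟨0,[(0,0),(0,0)]⟩⟩,.o ⟨false,1,⟨0,[(1,0),(8,0),(25,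
  0)]⟩,⟨0,[(21,0)]⟩⟩,.o ⟨false,1,⟨1,[(22,1),(8,0),(3,0)]⟩,⟨0,[(11,0)]⟩⟩,.a ⟨true,0,⟨0,[(22,0)]⟩,⟨0,
  [(19,0)]⟩⟩ ⟨true,0,⟨0,[(1,0),(8,0),(8,0)]⟩,⟨0,[(0,0),(0,0),(20,0)]⟩⟩ ⟨false,1,⟨0,[(1,0),(8,0),(8,
  0),(16,0)]⟩,⟨0,[(0,0),(0,0),(20,0)]⟩⟩]⟩) (.Q [0,0,0,0,0,0,1,1,0,-1,1] (.p true [0,0,1] [1] (⟨0,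
  [(25,0)]⟩,⟨0,[(24,0)]⟩) .k 1 (⟨0,[]⟩,⟨0,[]⟩) .k .k) (.S ⟨1,0,[0,0,0,0,0,0,0,1],[0,0,1],[0,1,0,0,0,
  0,0,1],(⟨0,[(26,0)]⟩,⟨0,[(25,0)]⟩),⟨0,[(15,0)]⟩,.k,.k,⟨true,0,⟨0,[(39,0)]⟩,⟨0,[]⟩⟩,⟨false,1,⟨1,
  [(16,0),(0,0),(19,0)]⟩,⟨0,[]⟩⟩,⟨false,0,⟨0,[(35,0)]⟩,⟨0,[(34,0),(2,0)]⟩⟩,⟨true,0,⟨0,[(35,0)]⟩,⟨0,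
  [(34,0)]⟩⟩,[.o ⟨false,0,⟨0,[(0,0)]⟩,⟨1,[(16,0),(0,0),(4,1),(14,0)]⟩⟩,.o ⟨false,1,⟨3,[(0,1),(20,1),
  (10,0),(4,2)]⟩,⟨0,[(22,0)]⟩⟩,.o ⟨false,1,⟨1,[(23,1),(8,0),(3,0)]⟩,⟨0,[(12,0)]⟩⟩,.a ⟨true,0,⟨0,
  [(23,0)]⟩,⟨0,[(20,0)]⟩⟩ ⟨false,0,⟨0,[(0,0),(19,0)]⟩,⟨0,[(22,0),(0,0),(13,0)]⟩⟩ ⟨true,0,⟨0,[(0,0),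
  (19,0)]⟩,⟨0,[(22,0),(0,0)]⟩⟩]⟩) (.S ⟨1,0,[0,0,1,1,0,0,0,-1],[1,1,-1],[0,1,1,1,0,0,0,-1],(⟨0,[(25,
  0),(1,0)]⟩,⟨0,[(15,0)]⟩),⟨0,[(25,0)]⟩,.k,.k,⟨true,0,⟨0,[(39,0)]⟩,⟨0,[]⟩⟩,⟨false,1,⟨1,[(16,0),(0,
  0),(19,0)]⟩,⟨0,[]⟩⟩,⟨false,0,⟨0,[(35,0)]⟩,⟨0,[(34,0),(2,0)]⟩⟩,⟨true,0,⟨0,[(35,0)]⟩,⟨0,[(34,0)]⟩⟩,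
  [.o ⟨false,0,⟨0,[(0,0),(1,0)]⟩,⟨1,[(11,1),(20,0),(4,0)]⟩⟩,.o ⟨false,1,⟨0,[(22,0),(12,0),(1,0)]⟩,
  ⟨0,[(1,0),(1,0),(1,0),(27,1)]⟩⟩,.a ⟨true,0,⟨0,[(20,0)]⟩,⟨0,[(23,0)]⟩⟩ ⟨false,0,⟨0,[(0,0),(1,0),
  (20,0)]⟩,⟨0,[(1,0),(1,0),(1,0),(14,0),(12,1),(3,0)]⟩⟩ ⟨true,0,⟨0,[(0,0),(1,0),(20,0)]⟩,⟨0,[(1,0),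
  (1,0),(1,0),(14,0),(12,1)]⟩⟩,.o ⟨false,0,⟨0,[(12,0)]⟩,⟨1,[(23,1),(8,0),(3,0)]⟩⟩]⟩)))) (.Q [0,0,0,
  0,0,0,1,1,0,-1,1] (.p true [0,0,1] [1] (⟨0,[(23,0)]⟩,⟨0,[(22,0)]⟩) .k 1 (⟨0,[]⟩,⟨0,[]⟩) .k .k)
  (.S ⟨1,0,[0,0,0,0,0,0,0,1],[0,0,1],[0,1,0,0,0,0,0,1],(⟨0,[(24,0)]⟩,⟨0,[(23,0)]⟩),⟨0,[(13,0)]⟩,.k,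
  .k,⟨true,0,⟨0,[(37,0)]⟩,⟨0,[]⟩⟩,⟨false,1,⟨1,[(14,0),(0,0),(19,0)]⟩,⟨0,[]⟩⟩,⟨false,0,⟨0,[(33,0)]⟩,
  ⟨0,[(32,0),(2,0)]⟩⟩,⟨true,0,⟨0,[(33,0)]⟩,⟨0,[(32,0)]⟩⟩,[.o ⟨false,0,⟨0,[(0,0)]⟩,⟨1,[(14,0),(0,0),
  (4,1),(14,0)]⟩⟩,.o ⟨false,1,⟨3,[(0,1),(18,1),(10,0),(4,2)]⟩,⟨0,[(20,0)]⟩⟩,.o ⟨false,1,⟨1,[(21,1),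
  (8,0),(3,0)]⟩,⟨0,[(10,0)]⟩⟩,.a ⟨true,0,⟨0,[(21,0)]⟩,⟨0,[(18,0)]⟩⟩ ⟨false,0,⟨0,[(0,0),(17,0)]⟩,⟨0,
  [(20,0),(0,0),(13,0)]⟩⟩ ⟨true,0,⟨0,[(0,0),(17,0)]⟩,⟨0,[(20,0),(0,0)]⟩⟩]⟩) (.I [0,-1,1,1,0,0,0,-1]
  (.R ⟨1,false,false,false,[0,0,1],[1,0,0,0,-1],[1,1,0,-1,0,0,0,1],(⟨0,[(25,0)]⟩,⟨0,[(24,0)]⟩),(⟨0,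
  [(17,0)]⟩,⟨0,[(18,0)]⟩),⟨0,[(14,0)]⟩,.k,.k,.k,.k,(.r (-1) ⟨3,[(10,3),(1,1),(2,0),(0,0),(14,0),(3,
  1)]⟩ ⟨0,[(0,0)]⟩),.k,⟨false,0,⟨2,[(2,0),(3,0),(3,2),(0,1),(7,0),(10,0)]⟩,⟨1,[(0,1),(34,0),(0,
  0)]⟩⟩,⟨true,0,⟨0,[(6,0),(12,0)]⟩,⟨0,[(4,0),(17,0)]⟩⟩,⟨true,0,⟨0,[(33,0)]⟩,⟨0,[(34,0)]⟩⟩,⟨false,1,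
  ⟨0,[(0,0),(5,0),(12,0),(12,0),(3,0)]⟩,⟨0,[(4,0),(15,0)]⟩⟩,⟨false,0,⟨0,[]⟩,⟨1,[(15,0),(0,0),(19,
  0)]⟩⟩,⟨false,1,⟨0,[(0,0),(8,0),(9,0)]⟩,⟨0,[(4,0),(5,0)]⟩⟩,[.o ⟨false,1,⟨0,[(9,0)]⟩,⟨1,[(5,0),(10,
  0),(14,0)]⟩⟩,.o ⟨false,2,⟨0,[(15,0),(20,0)]⟩,⟨0,[(3,0)]⟩⟩,.o ⟨false,1,⟨1,[(22,1),(8,0),(3,0)]⟩,⟨0,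
  [(11,0)]⟩⟩,.a ⟨true,0,⟨0,[(22,0)]⟩,⟨0,[(19,0)]⟩⟩ ⟨false,1,⟨1,[(10,1),(8,1),(11,0),(4,0)]⟩,⟨0,[(0,
  0)]⟩⟩ ⟨true,1,⟨0,[(9,0),(9,0)]⟩,⟨0,[(3,0),(18,0)]⟩⟩]⟩) (.I [0,0,0,1,0,0,0,-1] (.S ⟨1,0,[0,0,1,1,0,
  0,0,-1],[1,1,-1],[0,1,1,1,0,0,0,-1],(⟨0,[(25,0),(1,0)]⟩,⟨0,[(15,0)]⟩),⟨0,[(25,0)]⟩,.k,.k,⟨true,0,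
  ⟨0,[(39,0)]⟩,⟨0,[]⟩⟩,⟨false,1,⟨1,[(16,0),(0,0),(19,0)]⟩,⟨0,[]⟩⟩,⟨false,0,⟨0,[(35,0)]⟩,⟨0,[(34,0),
  (2,0)]⟩⟩,⟨true,0,⟨0,[(35,0)]⟩,⟨0,[(34,0)]⟩⟩,[.o ⟨false,0,⟨0,[(0,0),(11,0)]⟩,⟨1,[(11,1),(20,0),(4,
  0)]⟩⟩,.e ⟨false,0,⟨0,[(0,0)]⟩,⟨5,[(1,1),(9,3),(1,1),(18,0),(3,1),(0,2)]⟩⟩ ⟨false,1,⟨1,[(0,1),(15,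
  0),(0,0),(19,0)]⟩,⟨0,[(1,0)]⟩⟩,.a ⟨true,0,⟨0,[(20,0)]⟩,⟨0,[(23,0)]⟩⟩ ⟨false,0,⟨1,[(0,1),(22,0),(0,
  0)]⟩,⟨0,[(1,0),(35,0)]⟩⟩ ⟨true,0,⟨1,[(0,1),(22,0),(0,0)]⟩,⟨0,[(1,0)]⟩⟩,.o ⟨false,0,⟨0,[(12,0)]⟩,
  ⟨1,[(23,1),(8,0),(3,0)]⟩⟩]⟩) (.Q [0,0,0,1,0,0,-1,-1,0,0,-1] (.p false [0,0,1] [] (⟨0,[(26,0)]⟩,⟨0,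
  [(25,0)]⟩) .k 0 (⟨0,[]⟩,⟨0,[]⟩) .k .k) (.S ⟨1,0,[0,0,1,1,0,0,0,-1],[1,1,-1],[0,1,1,1,0,0,0,-1],
  (⟨0,[(26,0),(1,0)]⟩,⟨0,[(16,0)]⟩),⟨0,[(26,0)]⟩,.k,.k,⟨true,0,⟨0,[(40,0)]⟩,⟨0,[]⟩⟩,⟨false,1,⟨1,
  [(17,0),(0,0),(19,0)]⟩,⟨0,[]⟩⟩,⟨false,0,⟨0,[(36,0)]⟩,⟨0,[(35,0),(2,0)]⟩⟩,⟨true,0,⟨0,[(36,0)]⟩,⟨0,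
  [(35,0)]⟩⟩,[.o ⟨false,0,⟨0,[(0,0)]⟩,⟨1,[(12,1),(20,0),(4,0)]⟩⟩,.o ⟨false,1,⟨1,[(0,1),(16,0),(0,0),
  (19,0)]⟩,⟨0,[(1,0),(2,0),(3,0),(15,0)]⟩⟩,.a ⟨true,0,⟨0,[(21,0)]⟩,⟨0,[(24,0)]⟩⟩ ⟨false,0,⟨0,[(0,0),
  (23,0)]⟩,⟨1,[(1,1),(35,0),(0,0)]⟩⟩ ⟨true,0,⟨0,[(0,0),(23,0)]⟩,⟨0,[(2,0)]⟩⟩,.o ⟨false,0,⟨0,[(13,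
  0)]⟩,⟨1,[(24,1),(8,0),(3,0)]⟩⟩]⟩) (.R ⟨1,false,false,false,[1,0,0,0,-1],[0,-1,1],[0,-1],(⟨0,[(19,
  0)]⟩,⟨0,[(20,0)]⟩),(⟨0,[(16,0)]⟩,⟨0,[(26,0),(1,0)]⟩),⟨0,[(9,0)]⟩,.k,.k,(.r (-1) ⟨0,[(34,0),(3,
  0)]⟩ ⟨1,[(10,1),(6,0),(0,0),(19,0)]⟩),(.r (-1) ⟨1,[(3,1),(20,1),(8,0),(2,1),(1,0)]⟩ ⟨0,[(0,0),(3,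
  0),(0,0),(2,1),(6,0),(0,0),(4,0),(6,1),(9,0)]⟩),.k,.k,⟨false,1,⟨0,[(3,0),(0,0),(3,0),(15,0),(11,
  0),(1,0)]⟩,⟨0,[(2,0)]⟩⟩,⟨true,0,⟨0,[(6,0),(17,0)]⟩,⟨0,[(8,0),(12,0)]⟩⟩,⟨false,1,⟨1,[(17,0),(0,0),
  (19,0)]⟩,⟨0,[]⟩⟩,⟨false,0,⟨0,[(0,0),(5,0)]⟩,⟨0,[(3,0),(7,0),(24,0)]⟩⟩,⟨true,0,⟨0,[(36,0)]⟩,⟨0,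
  [(35,0)]⟩⟩,⟨false,0,⟨0,[(0,0),(5,0),(29,0)]⟩,⟨0,[(3,0),(7,0)]⟩⟩,[.a ⟨true,0,⟨0,[(0,0)]⟩,⟨0,[(3,0),
  (32,0)]⟩⟩ ⟨false,1,⟨1,[(37,0),(0,0)]⟩,⟨0,[(40,0)]⟩⟩ ⟨true,0,⟨0,[(0,0),(5,0)]⟩,⟨0,[(3,0),(4,0),(27,
  0)]⟩⟩,.o ⟨false,1,⟨1,[(0,1),(32,0),(4,0)]⟩,⟨0,[(23,0),(12,0)]⟩⟩,.o ⟨false,1,⟨0,[(17,0)]⟩,⟨0,[(6,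
  0)]⟩⟩,.o ⟨false,0,⟨0,[(8,0)]⟩,⟨1,[(18,1),(14,0),(3,0)]⟩⟩]⟩))))))))

theorem ok1 : chk K t1 l6 = true := by decide +kernel

noncomputable def t2 : Tre :=
  (.Q [0,2,0,1,-1,0,0,0,1,0,0,1] (.p true [0,0,0,0,1] [] (⟨0,[(13,0)]⟩,⟨0,[(12,0)]⟩) .k 0 (⟨0,[]⟩,
  ⟨0,[]⟩) .k .k) (.R ⟨2,true,false,true,[0,1],[0,1,0,0,1],[1,1,1],(⟨0,[]⟩,⟨0,[]⟩),(⟨0,[(14,0),(7,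
  0)]⟩,⟨0,[(3,0)]⟩),⟨0,[]⟩,.k,(.r 0 ⟨1,[(4,1),(6,0),(0,0),(19,0)]⟩ ⟨0,[(28,0),(3,0)]⟩),.k,.k,(.r
  (-1) ⟨0,[(28,0),(3,0)]⟩ ⟨1,[(4,1),(6,0),(0,0),(19,0)]⟩),.k,⟨false,1,⟨0,[(28,0),(3,0)]⟩,⟨1,[(0,0),
  (10,0),(18,0)]⟩⟩,⟨true,0,⟨0,[(12,0)]⟩,⟨0,[(2,0)]⟩⟩,⟨true,0,⟨0,[(29,0)]⟩,⟨0,[(30,0)]⟩⟩,⟨false,0,⟨0,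
  [(12,0),(21,0)]⟩,⟨0,[(1,0)]⟩⟩,⟨false,0,⟨0,[]⟩,⟨1,[(11,0),(0,0),(19,0)]⟩⟩,⟨true,(-1),⟨0,[(0,0)]⟩,
  ⟨0,[(1,0),(27,0)]⟩⟩,[]⟩) (.Q [0,1,0,0,0,0,0,0,1,-1,0,1] (.p true [0,0,0,0,1] [1] (⟨0,[(14,0)]⟩,⟨0,
  [(13,0)]⟩) .k 1 (⟨0,[]⟩,⟨0,[]⟩) .k .k) (.Q [0,0,2,0,-1,0,0,0,-1,1,0,-1] (.p false [0,0,0,0,1] [1]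
  (⟨0,[(15,0)]⟩,⟨0,[(14,0)]⟩) .k 1 (⟨0,[]⟩,⟨0,[]⟩) .k .k) (.R ⟨1,false,false,true,[1,-1],[0,0,0,0,
  1],[1,0,-1,-2],(⟨0,[(26,0)]⟩,⟨0,[(27,0)]⟩),(⟨0,[(16,0)]⟩,⟨0,[(15,0)]⟩),⟨0,[(11,0),(0,0)]⟩,.k,.k,
  (.r (-1) ⟨2,[(2,1),(11,1),(15,3),(2,0)]⟩ ⟨0,[(6,1),(27,1)]⟩),(.r (-1) ⟨2,[(2,1),(11,1),(15,0),(2,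
  0)]⟩ ⟨1,[(6,1),(6,0),(0,0),(19,0)]⟩),(.r (-2) ⟨0,[(2,0),(11,0),(16,0),(1,0)]⟩ ⟨0,[(0,0),(0,0),(30,
  1)]⟩),.k,⟨false,2,⟨2,[(2,3),(11,3),(15,1),(2,1)]⟩,⟨0,[(6,0),(25,0)]⟩⟩,⟨true,1,⟨1,[(1,1),(31,0),(0,
  0)]⟩,⟨0,[(0,0)]⟩⟩,⟨false,1,⟨0,[(31,0),(2,0)]⟩,⟨0,[(32,0)]⟩⟩,⟨false,0,⟨0,[(1,0),(30,0)]⟩,⟨0,[(2,0),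
  (21,0),(1,0)]⟩⟩,⟨true,0,⟨0,[]⟩,⟨0,[(36,0)]⟩⟩,⟨false,0,⟨0,[(1,0),(30,1)]⟩,⟨2,[(0,0),(1,3),(11,1),
  (9,1),(1,1),(3,1)]⟩⟩,[.o ⟨false,0,⟨0,[(1,0),(34,0)]⟩,⟨0,[(3,0)]⟩⟩,.o ⟨false,0,⟨0,[(1,0)]⟩,⟨0,[(7,
  0)]⟩⟩,.o ⟨false,0,⟨1,[(20,0),(0,0)]⟩,⟨1,[(29,0),(3,0)]⟩⟩,.a ⟨true,(-1),⟨0,[(0,0),(13,0)]⟩,⟨0,[(33,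
  0)]⟩⟩ ⟨true,1,⟨2,[(2,1),(11,1),(15,3),(2,0)]⟩,⟨0,[(0,0),(0,0),(30,1)]⟩⟩ ⟨false,1,⟨0,[(1,0),(31,
  0)]⟩,⟨0,[(0,0),(33,0)]⟩⟩]⟩) (.I [1,-1,-2,-1,1] (.I [1,-1,2,1] (.I [0,-1,-2,-1,1] (.Q [0,0,0,-1,0,
  0,0,0,0,1] (.pp false [-1,1]) (.S ⟨1,0,[0,0,-1,-1],[1,-1],[0,1,-1,-1],(⟨0,[(30,0)]⟩,⟨0,[(31,0)]⟩),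
  ⟨0,[(15,0),(0,0)]⟩,.k,(.r (-1) ⟨0,[(3,0),(31,0)]⟩ ⟨2,[(2,3),(7,1),(26,1)]⟩),⟨true,0,⟨0,[(40,0)]⟩,
  ⟨0,[]⟩⟩,⟨false,1,⟨1,[(17,0),(0,0),(19,0)]⟩,⟨0,[]⟩⟩,⟨false,0,⟨0,[(36,0)]⟩,⟨1,[(0,1),(32,0),(4,
  0)]⟩⟩,⟨true,0,⟨0,[(36,0)]⟩,⟨0,[(35,0)]⟩⟩,[.a ⟨true,0,⟨0,[(0,0)]⟩,⟨0,[(36,0)]⟩⟩ ⟨true,0,⟨0,[(34,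
  0)]⟩,⟨0,[(2,0)]⟩⟩ ⟨false,1,⟨1,[(3,0),(31,0),(1,0)]⟩,⟨2,[(2,1),(7,0),(26,0)]⟩⟩,.e ⟨false,1,⟨1,[(3,
  0),(31,0),(1,0)]⟩,⟨2,[(2,1),(7,0),(26,0)]⟩⟩ ⟨false,1,⟨0,[(1,0)]⟩,⟨5,[(2,1),(7,3),(6,2),(0,2),(18,
  0)]⟩⟩,.o ⟨false,0,⟨1,[(24,0),(0,0)]⟩,⟨1,[(33,0),(3,0)]⟩⟩,.e ⟨false,1,⟨1,[(3,0),(31,0),(1,0)]⟩,⟨0,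
  [(2,0)]⟩⟩ ⟨false,1,⟨0,[(1,0)]⟩,⟨0,[(2,0),(37,0)]⟩⟩]⟩) (.I [1,0,1,0,0,0,0,-1] (.S ⟨1,0,[0,1,1,1,0,
  0,0,-1],[1,1,-1],[1,0,1,0,0,0,0,-1],(⟨0,[(27,0),(1,0)]⟩,⟨0,[(17,0)]⟩),⟨0,[(27,0)]⟩,.k,.k,⟨false,1,
  ⟨0,[(36,0),(2,0)]⟩,⟨0,[(37,0)]⟩⟩,⟨true,0,⟨0,[(41,0)]⟩,⟨0,[]⟩⟩,⟨true,0,⟨0,[]⟩,⟨0,[(41,0)]⟩⟩,⟨false,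
  0,⟨0,[(37,0)]⟩,⟨0,[(36,0),(2,0)]⟩⟩,[.o ⟨false,0,⟨0,[(24,0),(12,0)]⟩,⟨0,[(1,0),(5,0),(5,0),(5,
  0)]⟩⟩,.o ⟨false,0,⟨0,[(0,0),(0,0),(20,0)]⟩,⟨1,[(13,1),(20,0),(4,0)]⟩⟩,.a ⟨true,0,⟨0,[(22,0)]⟩,⟨0,
  [(25,0)]⟩⟩ ⟨true,0,⟨0,[(0,0)]⟩,⟨0,[(1,0),(11,0),(8,0)]⟩⟩ ⟨false,0,⟨0,[(0,0),(36,0)]⟩,⟨0,[(1,0),(5,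
  0),(5,0),(5,0),(2,0)]⟩⟩,.o ⟨false,0,⟨0,[(14,0)]⟩,⟨1,[(25,1),(8,0),(3,0)]⟩⟩]⟩) (.Q [0,0,0,1,0,0,-1,
  -1,0,0,-1] (.p false [0,0,1] [] (⟨0,[(28,0)]⟩,⟨0,[(27,0)]⟩) .k 0 (⟨0,[]⟩,⟨0,[]⟩) .k .k) (.R ⟨2,
  true,false,false,[0,1],[0,0,1],[0,1,1,1],(⟨0,[]⟩,⟨0,[]⟩),(⟨0,[(29,0)]⟩,⟨0,[(28,0)]⟩),⟨0,[]⟩,.k,.k,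
  .k,.k,.k,.k,⟨false,0,⟨0,[(0,0),(4,0),(6,0),(13,0)]⟩,⟨1,[(1,0),(3,0),(8,0),(12,0),(12,0)]⟩⟩,⟨true,
  0,⟨0,[(26,0)]⟩,⟨0,[(15,0)]⟩⟩,⟨true,0,⟨0,[(42,0)]⟩,⟨0,[]⟩⟩,⟨false,1,⟨0,[(14,0),(25,0)]⟩,⟨0,[(0,
  0)]⟩⟩,⟨false,0,⟨0,[(38,0)]⟩,⟨0,[(37,0),(2,0)]⟩⟩,⟨true,0,⟨0,[(1,0),(24,0)]⟩,⟨0,[(25,0)]⟩⟩,[]⟩) (.S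
  ⟨1,0,[0,0,0,0,0,0,0,1],[0,0,1],[0,1,0,0,0,0,0,1],(⟨0,[(29,0)]⟩,⟨0,[(28,0)]⟩),⟨0,[(18,0)]⟩,.k,.k,
  ⟨true,0,⟨0,[(42,0)]⟩,⟨0,[]⟩⟩,⟨false,1,⟨1,[(19,0),(0,0),(19,0)]⟩,⟨0,[]⟩⟩,⟨false,0,⟨0,[(38,0)]⟩,⟨0,
  [(37,0),(2,0)]⟩⟩,⟨true,0,⟨0,[(38,0)]⟩,⟨0,[(37,0)]⟩⟩,[.o ⟨false,0,⟨0,[(0,0),(1,0)]⟩,⟨1,[(19,0),(0,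
  0),(4,1),(14,0)]⟩⟩,.o ⟨false,1,⟨3,[(0,1),(1,1),(21,1),(10,0),(4,2)]⟩,⟨0,[(25,0)]⟩⟩,.o ⟨false,1,⟨1,
  [(26,1),(8,0),(3,0)]⟩,⟨0,[(15,0)]⟩⟩,.a ⟨true,0,⟨0,[(26,0)]⟩,⟨0,[(23,0)]⟩⟩ ⟨false,0,⟨0,[(1,0)]⟩,⟨0,
  [(25,0),(0,0),(13,0)]⟩⟩ ⟨true,0,⟨0,[(1,0)]⟩,⟨0,[(25,0),(0,0)]⟩⟩]⟩)))) (.Q [0,0,-2,0,1,0,0,0,0,-1]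
  (.pp true [-1,1]) (.Q [0,0,0,-1,0,0,0,0,0,1] (.pp false [-1,1]) (.S ⟨1,0,[0,1,-1,-1],[1,-1],[1,0,
  -1,-2],(⟨0,[(31,0)]⟩,⟨0,[(32,0)]⟩),⟨0,[(16,0),(0,0)]⟩,.k,(.r (-1) ⟨0,[(4,0),(31,0)]⟩ ⟨2,[(3,3),(7,
  1),(26,1)]⟩),⟨false,1,⟨0,[(36,0),(2,0)]⟩,⟨0,[(37,0)]⟩⟩,⟨true,0,⟨0,[(41,0)]⟩,⟨0,[]⟩⟩,⟨true,0,⟨0,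
  []⟩,⟨0,[(41,0)]⟩⟩,⟨false,0,⟨0,[(37,0)]⟩,⟨0,[(36,0),(2,0)]⟩⟩,[.o ⟨false,0,⟨0,[(36,0)]⟩,⟨1,[(34,0),
  (2,1),(1,0)]⟩⟩,.a ⟨true,0,⟨0,[(0,0)]⟩,⟨0,[(37,0)]⟩⟩ ⟨true,1,⟨0,[(7,0),(11,0),(15,0)]⟩,⟨0,[(2,0),
  (34,0)]⟩⟩ ⟨false,1,⟨1,[(4,0),(31,0),(1,0)]⟩,⟨2,[(3,1),(7,0),(26,0)]⟩⟩,.o ⟨false,0,⟨1,[(25,0),(0,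
  0)]⟩,⟨3,[(1,0),(3,0),(12,0),(15,0)]⟩⟩,.o ⟨false,0,⟨0,[(25,0),(0,0)]⟩,⟨0,[(1,0)]⟩⟩]⟩) (.Q [0,0,0,0,
  0,0,0,0,-1,1,0,-1] (.p false [0,0,0,0,1] [1] (⟨0,[(21,0)]⟩,⟨0,[(20,0)]⟩) .k 1 (⟨0,[]⟩,⟨0,[]⟩) .k
  .k) (.R ⟨1,false,false,false,[1,-1],[0,0,0,0,1],[1,0,-1,-2],(⟨0,[(32,0)]⟩,⟨0,[(33,0)]⟩),(⟨0,[(22,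
  0)]⟩,⟨0,[(21,0)]⟩),⟨0,[(17,0),(0,0)]⟩,.k,.k,(.r (-1) ⟨0,[(5,0),(31,0)]⟩ ⟨2,[(4,3),(7,1),(26,1)]⟩),
  (.r (-1) ⟨1,[(5,0),(31,0),(2,0)]⟩ ⟨5,[(4,1),(7,3),(6,2),(0,2),(18,0)]⟩),(.r (-2) ⟨1,[(5,0),(31,2),
  (1,0),(0,1)]⟩ ⟨0,[(3,0),(34,0)]⟩),.k,⟨true,1,⟨0,[(8,0),(11,0),(15,0)]⟩,⟨0,[(3,0),(34,0)]⟩⟩,⟨false,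
  1,⟨0,[(6,0)]⟩,⟨1,[(0,1),(25,0),(0,0)]⟩⟩,⟨false,1,⟨0,[(37,0),(2,0)]⟩,⟨0,[(38,0)]⟩⟩,⟨false,0,⟨0,[(1,
  0),(18,0)]⟩,⟨0,[(0,0),(36,0),(2,0)]⟩⟩,⟨true,0,⟨0,[]⟩,⟨0,[(42,0)]⟩⟩,⟨false,0,⟨0,[(1,0),(18,0),(17,
  0)]⟩,⟨0,[(8,0),(21,0),(1,0),(4,0)]⟩⟩,[.o ⟨false,0,⟨0,[(7,0)]⟩,⟨0,[(13,0)]⟩⟩,.a ⟨true,0,⟨0,[(20,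
  0)]⟩,⟨0,[(0,0)]⟩⟩ ⟨true,1,⟨0,[(8,0),(11,0),(15,0)]⟩,⟨0,[(3,0),(34,0)]⟩⟩ ⟨false,1,⟨0,[(6,0)]⟩,⟨1,
  [(0,1),(25,0),(0,0)]⟩⟩,.o ⟨false,0,⟨1,[(26,0),(0,0)]⟩,⟨3,[(2,0),(3,0),(12,0),(15,0)]⟩⟩,.o ⟨false,
  0,⟨0,[(26,0),(0,0)]⟩,⟨0,[(2,0)]⟩⟩]⟩) (.I [0,0,-1,0,0,0,0,1] (.I [1,-1,0,0,1,0,0,-1] (.S ⟨1,0,[0,0,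
  0,0,0,0,0,1],[0,0,1],[0,1,0,0,0,0,0,1],(⟨0,[(31,0)]⟩,⟨0,[(30,0)]⟩),⟨0,[(20,0)]⟩,.k,.k,⟨true,0,⟨0,
  [(44,0)]⟩,⟨0,[]⟩⟩,⟨false,1,⟨1,[(21,0),(0,0),(19,0)]⟩,⟨0,[]⟩⟩,⟨false,0,⟨0,[(40,0)]⟩,⟨0,[(39,0),(2,
  0)]⟩⟩,⟨true,0,⟨0,[(40,0)]⟩,⟨0,[(39,0)]⟩⟩,[.e ⟨false,0,⟨15,[(1,11),(12,0),(1,0),(1,1),(7,2),(9,4),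
  (0,0)]⟩,⟨0,[(0,0)]⟩⟩ ⟨false,0,⟨0,[(1,0)]⟩,⟨0,[(0,0),(43,0)]⟩⟩,.o ⟨false,1,⟨1,[(2,0),(0,0),(6,0),
  (15,1),(15,0)]⟩,⟨0,[(27,0)]⟩⟩,.o ⟨false,1,⟨2,[(0,0),(3,0),(21,0),(1,1),(8,0)]⟩,⟨0,[(17,0)]⟩⟩,.a
  ⟨true,0,⟨0,[(28,0)]⟩,⟨0,[(25,0)]⟩⟩ ⟨false,0,⟨0,[(1,0)]⟩,⟨1,[(0,1),(27,0),(0,0)]⟩⟩ ⟨true,0,⟨0,[(1,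
  0)]⟩,⟨0,[(27,0),(0,0)]⟩⟩]⟩) (.S ⟨1,0,[0,0,0,0,0,0,0,1],[0,0,1],[0,1,0,0,0,0,0,1],(⟨0,[(31,0)]⟩,⟨0,
  [(30,0)]⟩),⟨0,[(20,0)]⟩,.k,.k,⟨true,0,⟨0,[(44,0)]⟩,⟨0,[]⟩⟩,⟨false,1,⟨1,[(21,0),(0,0),(19,0)]⟩,⟨0,
  []⟩⟩,⟨false,0,⟨0,[(40,0)]⟩,⟨0,[(39,0),(2,0)]⟩⟩,⟨true,0,⟨0,[(40,0)]⟩,⟨0,[(39,0)]⟩⟩,[.o ⟨false,0,⟨3,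
  [(0,1),(0,0),(0,0),(0,2),(3,0),(2,0),(5,0),(11,2)]⟩,⟨1,[(21,0),(0,0),(4,1),(14,0)]⟩⟩,.o ⟨false,1,
  ⟨1,[(2,0),(0,0),(6,0),(15,1),(15,0)]⟩,⟨0,[(27,0)]⟩⟩,.o ⟨false,1,⟨3,[(4,0),(3,0),(12,0),(6,3),(8,
  0)]⟩,⟨0,[(17,0)]⟩⟩,.a ⟨true,0,⟨0,[(28,0)]⟩,⟨0,[(25,0)]⟩⟩ ⟨false,0,⟨0,[(1,0)]⟩,⟨0,[(27,0),(0,0),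
  (13,0)]⟩⟩ ⟨true,0,⟨0,[(1,0)]⟩,⟨0,[(27,0),(0,0)]⟩⟩]⟩)) (.S ⟨1,0,[0,1,1,1,0,0,0,-1],[1,1,-1],[1,0,1,
  0,0,0,0,-1],(⟨0,[(29,0),(1,0)]⟩,⟨0,[(19,0)]⟩),⟨0,[(29,0)]⟩,.k,.k,⟨false,1,⟨0,[(38,0),(2,0)]⟩,⟨0,
  [(39,0)]⟩⟩,⟨true,0,⟨0,[(43,0)]⟩,⟨0,[]⟩⟩,⟨true,0,⟨0,[]⟩,⟨0,[(43,0)]⟩⟩,⟨false,0,⟨0,[(39,0)]⟩,⟨0,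
  [(38,0),(2,0)]⟩⟩,[.o ⟨false,0,⟨0,[(26,0),(12,0)]⟩,⟨0,[(1,0),(7,0),(15,0)]⟩⟩,.o ⟨false,0,⟨0,[(0,0),
  (1,0),(21,0)]⟩,⟨1,[(15,1),(20,0),(4,0)]⟩⟩,.a ⟨true,0,⟨0,[(24,0)]⟩,⟨0,[(27,0)]⟩⟩ ⟨true,0,⟨0,[(0,
  0)]⟩,⟨0,[(2,0),(12,0),(8,0)]⟩⟩ ⟨false,0,⟨0,[(0,0),(38,0)]⟩,⟨0,[(1,0),(7,0),(14,0),(0,0)]⟩⟩,.o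
  ⟨false,0,⟨0,[(16,0)]⟩,⟨3,[(3,0),(3,0),(12,0),(6,3),(8,0)]⟩⟩]⟩)))) (.S ⟨1,0,[0,0,-1,-1],[1,-1],[0,
  1,-1,-1],(⟨0,[(30,0)]⟩,⟨0,[(31,0)]⟩),⟨0,[(15,0),(0,0)]⟩,.k,(.r (-1) ⟨0,[(3,0),(31,0)]⟩ ⟨2,[(2,3),
  (7,1),(26,1)]⟩),⟨true,0,⟨0,[(40,0)]⟩,⟨0,[]⟩⟩,⟨false,1,⟨1,[(17,0),(0,0),(19,0)]⟩,⟨0,[]⟩⟩,⟨false,0,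
  ⟨0,[(36,0)]⟩,⟨0,[(35,0),(2,0)]⟩⟩,⟨true,0,⟨0,[(36,0)]⟩,⟨0,[(35,0)]⟩⟩,[.a ⟨true,0,⟨1,[(0,0),(2,0),
  (24,0),(1,0),(4,0)]⟩,⟨0,[(36,0)]⟩⟩ ⟨true,0,⟨0,[(34,0)]⟩,⟨0,[(2,0)]⟩⟩ ⟨false,1,⟨1,[(3,0),(31,0),(1,
  0)]⟩,⟨2,[(2,1),(7,0),(26,0)]⟩⟩,.a ⟨true,0,⟨0,[(0,0),(2,0)]⟩,⟨2,[(2,0),(7,1),(26,1)]⟩⟩ ⟨false,1,⟨1,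
  [(3,0),(31,0),(1,0)]⟩,⟨2,[(2,1),(7,0),(26,0)]⟩⟩ ⟨true,1,⟨1,[(3,0),(31,0),(2,0)]⟩,⟨0,[(1,0)]⟩⟩,.o
  ⟨false,0,⟨1,[(24,0),(0,0)]⟩,⟨1,[(33,0),(3,0)]⟩⟩,.a ⟨true,(-1),⟨0,[(0,0)]⟩,⟨0,[(37,0)]⟩⟩ ⟨false,1,
  ⟨1,[(3,0),(31,0),(1,0)]⟩,⟨0,[(2,0)]⟩⟩ ⟨true,1,⟨1,[(3,0),(31,0),(1,0)]⟩,⟨0,[(1,0)]⟩⟩]⟩))) (.Q [0,0,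
  0,0,0,2,0,0,0,-1,0,1] (.p true [0,0,0,0,1] [1] (⟨0,[(18,0)]⟩,⟨0,[(17,0)]⟩) .k 1 (⟨0,[]⟩,⟨0,[]⟩)
  .k .k) (.Q [0,-2,0,-1,1,0,0,0,-2,1,0,-2] (.p false [0,0,0,0,1] [1,0,0,0,-1] (⟨0,[(19,0)]⟩,⟨0,[(18,
  0)]⟩) .k 2 (⟨0,[(18,0)]⟩,⟨0,[(19,0)]⟩) .k (.r 0 ⟨0,[(39,1)]⟩ ⟨0,[(37,0)]⟩)) (.Q [0,0,0,0,0,0,0,0,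
  -1,1,0,-1] (.p false [0,0,0,0,1] [1] (⟨0,[(20,0)]⟩,⟨0,[(19,0)]⟩) .k 1 (⟨0,[]⟩,⟨0,[]⟩) .k .k) (.R
  ⟨0,false,false,false,[1,-1,0,0,-1],[0,0,0,0,1],[1,1],(⟨0,[(10,0)]⟩,⟨0,[(21,0),(7,0)]⟩),(⟨0,[(21,
  0)]⟩,⟨0,[(20,0)]⟩),⟨0,[(2,0)]⟩,(.r (-1) ⟨1,[(4,0),(31,0),(2,0)]⟩ ⟨1,[(11,1),(6,0),(0,0),(19,0)]⟩),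
  .k,(.r (-1) ⟨0,[(3,0),(3,0),(11,0)]⟩ ⟨1,[(11,3),(6,0),(0,0),(19,2)]⟩),(.r (-2) ⟨1,[(36,1),(1,0),
  (0,2)]⟩ ⟨0,[(11,0)]⟩),.k,.k,⟨true,0,⟨0,[]⟩,⟨1,[(25,0),(0,0)]⟩⟩,⟨false,1,⟨0,[(5,0),(13,0)]⟩,⟨0,[(1,
  0),(9,0)]⟩⟩,⟨true,(-1),⟨0,[(11,0)]⟩,⟨1,[(4,0),(31,0),(2,0)]⟩⟩,⟨false,0,⟨0,[(6,0),(12,0),(17,0)]⟩,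
  ⟨0,[(1,0)]⟩⟩,⟨false,0,⟨0,[]⟩,⟨0,[]⟩⟩,⟨false,0,⟨0,[]⟩,⟨0,[]⟩⟩,[.o ⟨false,0,⟨0,[(6,0)]⟩,⟨0,[(12,
  0)]⟩⟩,.a ⟨true,0,⟨0,[(19,0)]⟩,⟨0,[(0,0)]⟩⟩ ⟨true,0,⟨0,[]⟩,⟨1,[(25,0),(0,0)]⟩⟩ ⟨false,1,⟨0,[(5,0),
  (13,0)]⟩,⟨0,[(1,0),(9,0)]⟩⟩,.o ⟨false,0,⟨0,[(9,0)]⟩,⟨3,[(5,1),(0,1),(11,0),(0,0),(19,0)]⟩⟩,.o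
  ⟨false,0,⟨1,[(9,1),(15,0),(0,0)]⟩,⟨0,[(5,0)]⟩⟩]⟩) (.Q [0,0,0,-1,0,0,0,0,0,1] (.pp false [-1,1])
  (.R ⟨0,false,false,true,[1,-1,0,0,-1],[1,-1],[1,1],(⟨0,[(11,0)]⟩,⟨0,[(22,0),(7,0)]⟩),(⟨0,[(32,
  0)]⟩,⟨0,[(33,0)]⟩),⟨0,[(3,0)]⟩,(.r (-1) ⟨1,[(5,0),(31,0),(2,0)]⟩ ⟨1,[(12,1),(6,0),(0,0),(19,0)]⟩),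
  .k,(.r (-1) ⟨1,[(0,0),(0,0),(2,0),(0,0),(2,0)]⟩ ⟨1,[(12,3),(6,0),(0,0),(19,2)]⟩),.k,.k,.k,⟨false,
  0,⟨0,[(38,0)]⟩,⟨5,[(0,1),(4,0),(0,1),(12,1),(17,2),(2,0)]⟩⟩,⟨true,0,⟨0,[(20,0)]⟩,⟨0,[(10,0)]⟩⟩,
  ⟨true,(-1),⟨0,[(12,0)]⟩,⟨1,[(5,0),(31,0),(2,0)]⟩⟩,⟨false,0,⟨0,[(20,0),(21,0)]⟩,⟨0,[(9,0)]⟩⟩,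
  ⟨false,0,⟨0,[]⟩,⟨0,[]⟩⟩,⟨false,0,⟨0,[]⟩,⟨0,[]⟩⟩,[.o ⟨false,0,⟨0,[(37,0)]⟩,⟨1,[(35,0),(2,1),(1,
  0)]⟩⟩,.a ⟨true,0,⟨0,[(0,0)]⟩,⟨0,[(38,0)]⟩⟩ ⟨true,0,⟨0,[]⟩,⟨1,[(26,0),(0,0)]⟩⟩ ⟨false,1,⟨0,[(0,0),
  (5,0)]⟩,⟨0,[(10,0),(27,0)]⟩⟩,.o ⟨false,0,⟨0,[(10,0)]⟩,⟨3,[(6,1),(0,1),(11,0),(0,0),(19,0)]⟩⟩,.o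
  ⟨false,0,⟨1,[(10,1),(15,0),(0,0)]⟩,⟨0,[(6,0)]⟩⟩]⟩) (.I [1,0,1,0,0,0,0,-1] (.S ⟨1,0,[0,1,1,1,0,0,0,
  -1],[1,1,-1],[1,0,1,0,0,0,0,-1],(⟨0,[(29,0),(1,0)]⟩,⟨0,[(19,0)]⟩),⟨0,[(29,0)]⟩,.k,.k,⟨false,1,⟨0,
  [(38,0),(2,0)]⟩,⟨0,[(39,0)]⟩⟩,⟨true,0,⟨0,[(43,0)]⟩,⟨0,[]⟩⟩,⟨true,0,⟨0,[]⟩,⟨0,[(43,0)]⟩⟩,⟨false,0,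
  ⟨0,[(39,0)]⟩,⟨0,[(38,0),(2,0)]⟩⟩,[.o ⟨false,0,⟨0,[(26,0),(12,0)]⟩,⟨1,[(1,0),(0,0),(6,0),(5,1),(25,
  0)]⟩⟩,.o ⟨false,0,⟨0,[(0,0),(0,0),(22,0)]⟩,⟨1,[(15,1),(20,0),(4,0)]⟩⟩,.a ⟨true,0,⟨0,[(24,0)]⟩,⟨0,
  [(27,0)]⟩⟩ ⟨true,0,⟨0,[(0,0)]⟩,⟨0,[(1,0),(13,0),(8,0)]⟩⟩ ⟨false,0,⟨0,[(0,0),(38,0)]⟩,⟨1,[(1,0),(0,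
  0),(6,0),(5,1),(8,1),(16,0)]⟩⟩,.o ⟨false,0,⟨0,[(16,0)]⟩,⟨1,[(27,1),(8,0),(3,0)]⟩⟩]⟩) (.I [1,-1,0,
  0,1,0,0,-1] (.S ⟨1,0,[0,0,0,0,0,0,0,1],[0,0,1],[0,1,0,0,0,0,0,1],(⟨0,[(31,0)]⟩,⟨0,[(30,0)]⟩),⟨0,
  [(20,0)]⟩,.k,.k,⟨true,0,⟨0,[(44,0)]⟩,⟨0,[]⟩⟩,⟨false,1,⟨1,[(21,0),(0,0),(19,0)]⟩,⟨0,[]⟩⟩,⟨false,0,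
  ⟨0,[(40,0)]⟩,⟨0,[(39,0),(2,0)]⟩⟩,⟨true,0,⟨0,[(40,0)]⟩,⟨0,[(39,0)]⟩⟩,[.e ⟨false,0,⟨15,[(1,11),(12,
  0),(1,0),(1,1),(7,2),(9,4),(0,0)]⟩,⟨0,[(0,0)]⟩⟩ ⟨false,0,⟨0,[(1,0)]⟩,⟨0,[(0,0),(43,0)]⟩⟩,.o
  ⟨false,1,⟨0,[(2,0),(13,0),(25,0)]⟩,⟨0,[(27,0)]⟩⟩,.o ⟨false,1,⟨1,[(28,1),(8,0),(3,0)]⟩,⟨0,[(17,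
  0)]⟩⟩,.a ⟨true,0,⟨0,[(28,0)]⟩,⟨0,[(25,0)]⟩⟩ ⟨false,0,⟨0,[(1,0)]⟩,⟨1,[(0,1),(27,0),(0,0)]⟩⟩ ⟨true,
  0,⟨0,[(1,0)]⟩,⟨0,[(27,0),(0,0)]⟩⟩]⟩) (.S ⟨1,0,[0,0,0,0,0,0,0,1],[0,0,1],[0,1,0,0,0,0,0,1],(⟨0,
  [(31,0)]⟩,⟨0,[(30,0)]⟩),⟨0,[(20,0)]⟩,.k,.k,⟨true,0,⟨0,[(44,0)]⟩,⟨0,[]⟩⟩,⟨false,1,⟨1,[(21,0),(0,0),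
  (19,0)]⟩,⟨0,[]⟩⟩,⟨false,0,⟨0,[(40,0)]⟩,⟨0,[(39,0),(2,0)]⟩⟩,⟨true,0,⟨0,[(40,0)]⟩,⟨0,[(39,0)]⟩⟩,[.o
  ⟨false,0,⟨3,[(0,1),(0,0),(0,2),(0,0),(3,0),(2,0),(5,0),(11,2)]⟩,⟨1,[(21,0),(0,0),(4,1),(14,0)]⟩⟩,
  .o ⟨false,1,⟨0,[(2,0),(13,0),(25,0)]⟩,⟨0,[(27,0)]⟩⟩,.o ⟨false,1,⟨1,[(28,1),(8,0),(3,0)]⟩,⟨0,[(17,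
  0)]⟩⟩,.a ⟨true,0,⟨0,[(28,0)]⟩,⟨0,[(25,0)]⟩⟩ ⟨false,0,⟨0,[(1,0)]⟩,⟨0,[(27,0),(0,0),(13,0)]⟩⟩ ⟨true,
  0,⟨0,[(1,0)]⟩,⟨0,[(27,0),(0,0)]⟩⟩]⟩))))) (.Q [0,0,0,-1,0,0,0,0,0,1] (.pp false [-1,1]) (.R ⟨0,
  false,false,true,[1,-1,0,0,-1],[1,-1],[1,1],(⟨0,[(10,0)]⟩,⟨0,[(21,0),(7,0)]⟩),(⟨0,[(31,0)]⟩,⟨0,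
  [(32,0)]⟩),⟨0,[(2,0)]⟩,(.r (-1) ⟨1,[(4,0),(31,0),(2,0)]⟩ ⟨1,[(11,1),(6,0),(0,0),(19,0)]⟩),.k,(.r
  (-1) ⟨1,[(0,0),(0,0),(1,0),(0,0),(2,1)]⟩ ⟨1,[(11,3),(6,0),(0,0),(19,2)]⟩),.k,.k,.k,⟨false,0,⟨0,
  [(37,0)]⟩,⟨5,[(0,1),(3,0),(0,1),(12,1),(17,2),(2,0)]⟩⟩,⟨true,0,⟨0,[(19,0)]⟩,⟨0,[(9,0)]⟩⟩,⟨true,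
  (-1),⟨0,[(11,0)]⟩,⟨1,[(4,0),(31,0),(2,0)]⟩⟩,⟨false,0,⟨0,[(19,0),(21,0)]⟩,⟨0,[(8,0)]⟩⟩,⟨false,0,⟨0,
  []⟩,⟨0,[]⟩⟩,⟨false,0,⟨0,[]⟩,⟨0,[]⟩⟩,[.o ⟨false,0,⟨0,[(36,0)]⟩,⟨1,[(34,0),(2,1),(1,0)]⟩⟩,.a ⟨true,
  0,⟨0,[(0,0)]⟩,⟨0,[(37,0)]⟩⟩ ⟨true,0,⟨0,[]⟩,⟨1,[(25,0),(0,0)]⟩⟩ ⟨false,1,⟨0,[(0,0),(4,0)]⟩,⟨0,[(9,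
  0),(27,0)]⟩⟩,.o ⟨false,0,⟨0,[(9,0)]⟩,⟨3,[(5,1),(0,1),(11,0),(0,0),(19,0)]⟩⟩,.o ⟨false,0,⟨1,[(9,1),
  (15,0),(0,0)]⟩,⟨0,[(5,0)]⟩⟩]⟩) (.Q [0,0,0,0,0,0,-1,-1,0,0,-1] (.p false [0,0,1] [] (⟨0,[(28,0)]⟩,
  ⟨0,[(27,0)]⟩) .k 0 (⟨0,[]⟩,⟨0,[]⟩) .k .k) (.S ⟨1,0,[0,0,0,0,0,0,0,1],[0,0,1],[0,1,0,0,0,0,0,1],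
  (⟨0,[(29,0)]⟩,⟨0,[(28,0)]⟩),⟨0,[(18,0)]⟩,.k,.k,⟨true,0,⟨0,[(42,0)]⟩,⟨0,[]⟩⟩,⟨false,1,⟨1,[(19,0),
  (0,0),(19,0)]⟩,⟨0,[]⟩⟩,⟨false,0,⟨0,[(38,0)]⟩,⟨0,[(37,0),(2,0)]⟩⟩,⟨true,0,⟨0,[(38,0)]⟩,⟨0,[(37,
  0)]⟩⟩,[.o ⟨false,1,⟨1,[(24,1),(10,0),(4,0)]⟩,⟨0,[(0,0)]⟩⟩,.o ⟨false,1,⟨0,[(1,0),(12,0),(25,0)]⟩,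
  ⟨0,[(25,0)]⟩⟩,.o ⟨false,1,⟨1,[(26,1),(8,0),(3,0)]⟩,⟨0,[(15,0)]⟩⟩,.a ⟨true,0,⟨0,[(26,0)]⟩,⟨0,[(23,
  0)]⟩⟩ ⟨true,0,⟨0,[(1,0),(12,0),(8,0)]⟩,⟨0,[(0,0),(25,0)]⟩⟩ ⟨false,1,⟨0,[(1,0),(12,0),(8,0),(16,
  0)]⟩,⟨0,[(0,0),(25,0)]⟩⟩]⟩) (.I [0,0,-1,0,0,0,0,1] (.I [1,-1,0,0,1,0,0,-1] (.S ⟨1,0,[0,0,0,0,0,0,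
  0,1],[0,0,1],[0,1,0,0,0,0,0,1],(⟨0,[(31,0)]⟩,⟨0,[(30,0)]⟩),⟨0,[(20,0)]⟩,.k,.k,⟨true,0,⟨0,[(44,
  0)]⟩,⟨0,[]⟩⟩,⟨false,1,⟨1,[(21,0),(0,0),(19,0)]⟩,⟨0,[]⟩⟩,⟨false,0,⟨0,[(40,0)]⟩,⟨0,[(39,0),(2,0)]⟩⟩,
  ⟨true,0,⟨0,[(40,0)]⟩,⟨0,[(39,0)]⟩⟩,[.e ⟨false,0,⟨15,[(1,11),(12,0),(1,0),(1,1),(7,2),(9,4),(0,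
  0)]⟩,⟨0,[(0,0)]⟩⟩ ⟨false,0,⟨0,[(1,0)]⟩,⟨0,[(0,0),(43,0)]⟩⟩,.o ⟨false,1,⟨1,[(2,1),(34,0),(4,0)]⟩,
  ⟨0,[(27,0)]⟩⟩,.o ⟨false,1,⟨1,[(28,1),(8,0),(3,0)]⟩,⟨0,[(17,0)]⟩⟩,.a ⟨true,0,⟨0,[(28,0)]⟩,⟨0,[(25,
  0)]⟩⟩ ⟨false,0,⟨0,[(1,0)]⟩,⟨1,[(0,1),(27,0),(0,0)]⟩⟩ ⟨true,0,⟨0,[(1,0)]⟩,⟨0,[(27,0),(0,0)]⟩⟩]⟩)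
  (.S ⟨1,0,[0,0,0,0,0,0,0,1],[0,0,1],[0,1,0,0,0,0,0,1],(⟨0,[(31,0)]⟩,⟨0,[(30,0)]⟩),⟨0,[(20,0)]⟩,.k,
  .k,⟨true,0,⟨0,[(44,0)]⟩,⟨0,[]⟩⟩,⟨false,1,⟨1,[(21,0),(0,0),(19,0)]⟩,⟨0,[]⟩⟩,⟨false,0,⟨0,[(40,0)]⟩,
  ⟨0,[(39,0),(2,0)]⟩⟩,⟨true,0,⟨0,[(40,0)]⟩,⟨0,[(39,0)]⟩⟩,[.o ⟨false,0,⟨9,[(0,3),(1,5),(0,4),(0,2),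
  (1,1),(3,5),(17,3),(8,0)]⟩,⟨1,[(21,0),(0,0),(4,1),(14,0)]⟩⟩,.o ⟨false,1,⟨1,[(2,1),(34,0),(4,0)]⟩,
  ⟨0,[(27,0)]⟩⟩,.o ⟨false,1,⟨1,[(28,1),(8,0),(3,0)]⟩,⟨0,[(17,0)]⟩⟩,.a ⟨true,0,⟨0,[(28,0)]⟩,⟨0,[(25,
  0)]⟩⟩ ⟨false,0,⟨0,[(1,0)]⟩,⟨0,[(27,0),(0,0),(13,0)]⟩⟩ ⟨true,0,⟨0,[(1,0)]⟩,⟨0,[(27,0),(0,0)]⟩⟩]⟩))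
  (.R ⟨2,true,false,false,[0,1],[0,0,1],[0,1,1,1],(⟨0,[]⟩,⟨0,[]⟩),(⟨0,[(30,0)]⟩,⟨0,[(29,0)]⟩),⟨0,
  []⟩,.k,.k,.k,.k,.k,.k,⟨false,0,⟨2,[(0,2),(4,0),(7,0),(25,2),(0,0)]⟩,⟨0,[(1,0),(4,0),(21,0)]⟩⟩,
  ⟨true,0,⟨0,[(27,0)]⟩,⟨0,[(16,0)]⟩⟩,⟨true,0,⟨0,[(43,0)]⟩,⟨0,[]⟩⟩,⟨false,1,⟨0,[(15,0),(25,0)]⟩,⟨0,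
  [(0,0),(1,0),(21,0)]⟩⟩,⟨false,0,⟨0,[(39,0)]⟩,⟨0,[(38,0),(2,0)]⟩⟩,⟨true,0,⟨0,[(1,0)]⟩,⟨0,[(26,
  0)]⟩⟩,[]⟩))))) (.Q [0,0,0,0,0,-1,0,0,0,0,0,1] (.ed false [1,-1,0,0,1] .k) (.Q [0,-1,0,1,0,0,0,0,
  -2,1,0,-2] (.p false [0,0,0,0,1] [1,0,0,0,-1] (⟨0,[(20,0)]⟩,⟨0,[(19,0)]⟩) .k 2 (⟨0,[(19,0)]⟩,⟨0,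
  [(20,0)]⟩) .k (.r 0 ⟨0,[(40,1)]⟩ ⟨0,[(38,0)]⟩)) (.R ⟨1,false,false,false,[1,0,0,0,-1],[0,-1,0,0,
  1],[1,1,-1,-1],(⟨0,[(20,0)]⟩,⟨0,[(21,0)]⟩),(⟨0,[(1,0)]⟩,⟨0,[(20,0),(8,0)]⟩),⟨0,[(10,0)]⟩,.k,(.r 0
  ⟨0,[(35,0)]⟩ ⟨1,[(11,1),(6,0),(0,0),(19,2)]⟩),(.r (-1) ⟨1,[(4,0),(31,0),(2,0)]⟩ ⟨1,[(11,1),(6,0),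
  (0,0),(19,0)]⟩),(.r (-1) ⟨0,[(11,0),(27,1)]⟩ ⟨3,[(3,0),(29,1),(2,2)]⟩),.k,.k,⟨true,0,⟨0,[]⟩,⟨1,
  [(25,0),(0,0)]⟩⟩,⟨false,1,⟨1,[(6,1),(11,0),(0,2),(19,0)]⟩,⟨1,[(0,1),(2,0),(32,0)]⟩⟩,⟨false,0,⟨1,
  [(3,0),(32,0)]⟩,⟨0,[(11,0),(27,1)]⟩⟩,⟨true,0,⟨0,[(6,0),(12,0),(16,0)]⟩,⟨0,[(0,0)]⟩⟩,⟨false,0,⟨2,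
  [(3,0),(7,0),(26,0)]⟩,⟨1,[(25,0),(0,0),(12,1)]⟩⟩,⟨false,0,⟨0,[(6,0),(12,0)]⟩,⟨6,[(0,3),(6,3),(10,
  1),(10,2),(1,2),(7,0)]⟩⟩,[.e ⟨false,0,⟨0,[(3,0)]⟩,⟨1,[(11,1),(6,0),(0,0),(19,2)]⟩⟩ ⟨false,1,⟨3,
  [(5,1),(0,1),(11,0),(0,4),(16,3),(2,0)]⟩,⟨0,[(0,0)]⟩⟩,.o ⟨false,1,⟨0,[(6,0),(29,0),(2,0)]⟩,⟨0,[(0,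
  0),(5,0)]⟩⟩,.a ⟨true,0,⟨1,[(0,0),(28,0),(1,0),(4,0)]⟩,⟨0,[(19,0)]⟩⟩ ⟨true,0,⟨1,[(3,0),(32,0)]⟩,⟨0,
  [(11,0),(27,0)]⟩⟩ ⟨false,1,⟨0,[(6,0),(12,0),(16,0),(2,0)]⟩,⟨0,[(0,0)]⟩⟩,.o ⟨false,0,⟨0,[(9,0)]⟩,
  ⟨3,[(5,1),(0,1),(11,0),(0,0),(19,0)]⟩⟩]⟩) (.I [0,0,-1,0,0,0,0,1] (.I [1,-1,0,0,1,0,0,-1] (.S ⟨1,0,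
  [0,0,0,0,0,0,0,1],[0,0,1],[0,1,0,0,0,0,0,1],(⟨0,[(30,0)]⟩,⟨0,[(29,0)]⟩),⟨0,[(19,0)]⟩,.k,.k,⟨true,
  0,⟨0,[(43,0)]⟩,⟨0,[]⟩⟩,⟨false,1,⟨1,[(20,0),(0,0),(19,0)]⟩,⟨0,[]⟩⟩,⟨false,0,⟨0,[(39,0)]⟩,⟨0,[(38,
  0),(2,0)]⟩⟩,⟨true,0,⟨0,[(39,0)]⟩,⟨0,[(38,0)]⟩⟩,[.e ⟨false,0,⟨15,[(1,11),(11,0),(1,0),(1,1),(7,2),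
  (9,4),(0,0)]⟩,⟨0,[(0,0)]⟩⟩ ⟨false,0,⟨0,[(1,0)]⟩,⟨0,[(0,0),(42,0)]⟩⟩,.o ⟨false,1,⟨1,[(1,1),(25,1),
  (8,0),(4,0)]⟩,⟨0,[(26,0)]⟩⟩,.o ⟨false,1,⟨1,[(27,1),(8,0),(3,0)]⟩,⟨0,[(16,0)]⟩⟩,.a ⟨true,0,⟨0,[(27,
  0)]⟩,⟨0,[(24,0)]⟩⟩ ⟨false,0,⟨0,[(1,0)]⟩,⟨1,[(0,1),(26,0),(0,0)]⟩⟩ ⟨true,0,⟨0,[(1,0)]⟩,⟨0,[(26,0),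
  (0,0)]⟩⟩]⟩) (.Q [0,0,1,0,0,0,1,0,-1,0,1,-1] (.p true [0,0,1] [0,0,0,0,1] (⟨0,[(30,0)]⟩,⟨0,[(29,
  0)]⟩) .k 2 (⟨0,[(23,0)]⟩,⟨0,[(22,0)]⟩) .k (.r 0 ⟨0,[(0,0),(40,0)]⟩ ⟨1,[(20,0),(0,0),(4,1),(0,1),
  (12,0)]⟩)) (.R ⟨1,false,false,true,[0,0,1],[0,0,0,0,1],[0,0,0,0,0,0,0,1],(⟨0,[(31,0)]⟩,⟨0,[(30,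
  0)]⟩),(⟨0,[(24,0)]⟩,⟨0,[(23,0)]⟩),⟨0,[(20,0)]⟩,.k,.k,.k,.k,(.r (-1) ⟨11,[(2,5),(0,0),(3,2),(2,1),
  (5,5),(1,2),(18,0),(4,5)]⟩ ⟨0,[(27,0),(0,0),(11,0)]⟩),.k,⟨false,1,⟨0,[(2,0),(39,0)]⟩,⟨2,[(6,0),(7,
  0),(12,2),(0,2),(12,0)]⟩⟩,⟨true,0,⟨0,[(17,0),(4,0)]⟩,⟨0,[(0,0)]⟩⟩,⟨false,1,⟨1,[(21,0),(0,0),(19,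
  0)]⟩,⟨0,[]⟩⟩,⟨false,0,⟨0,[(22,0),(4,0)]⟩,⟨0,[(0,0),(1,0),(39,0)]⟩⟩,⟨true,0,⟨0,[(40,0)]⟩,⟨0,[(39,
  0)]⟩⟩,⟨false,0,⟨0,[(22,0),(4,0),(12,0)]⟩,⟨0,[(2,0),(7,0),(17,0)]⟩⟩,[.o ⟨false,0,⟨3,[(3,0),(5,2),
  (4,0),(6,0),(14,0)]⟩,⟨0,[(11,0)]⟩⟩,.o ⟨false,0,⟨0,[(9,0)]⟩,⟨0,[(15,0)]⟩⟩,.o ⟨false,1,⟨3,[(0,0),(7,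
  1),(12,0),(6,2),(8,0)]⟩,⟨0,[(17,0)]⟩⟩,.a ⟨true,0,⟨0,[(28,0)]⟩,⟨0,[(25,0)]⟩⟩ ⟨true,0,⟨0,[(2,0)]⟩,
  ⟨0,[(27,0),(0,0)]⟩⟩ ⟨false,0,⟨0,[(9,0),(15,0)]⟩,⟨0,[(0,0),(41,0)]⟩⟩]⟩) (.R ⟨1,false,false,true,[0,
  0,1],[0,1,0,0,1],[0,0,0,0,0,0,0,1],(⟨0,[(31,0)]⟩,⟨0,[(30,0)]⟩),(⟨0,[(24,0),(7,0)]⟩,⟨0,[(13,0)]⟩),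
  ⟨0,[(20,0)]⟩,.k,(.r 0 ⟨1,[(14,1),(6,0),(0,0),(19,0)]⟩ ⟨1,[(7,0),(31,0),(2,0)]⟩),.k,(.r (-1) ⟨11,
  [(2,5),(0,0),(3,2),(2,1),(5,5),(1,2),(18,0),(4,5)]⟩ ⟨0,[(27,0),(0,0),(11,0)]⟩),(.r (-1) ⟨2,[(1,0),
  (0,0),(0,0),(3,1),(2,1),(5,0),(8,0)]⟩ ⟨0,[(14,0),(12,0),(0,0),(11,0),(1,0)]⟩),.k,⟨false,1,⟨0,[(1,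
  0),(5,0),(34,0)]⟩,⟨3,[(14,1),(6,0),(0,0),(4,3),(0,3),(11,1),(0,0)]⟩⟩,⟨true,0,⟨0,[(0,0)]⟩,⟨0,[(12,
  0),(15,0)]⟩⟩,⟨false,1,⟨1,[(21,0),(0,0),(19,0)]⟩,⟨0,[]⟩⟩,⟨false,0,⟨0,[(22,0),(4,0),(12,0)]⟩,⟨0,[(2,
  0),(7,0),(17,0)]⟩⟩,⟨true,0,⟨0,[(40,0)]⟩,⟨0,[(39,0)]⟩⟩,⟨false,0,⟨0,[(22,0),(4,0),(12,1)]⟩,⟨2,[(1,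
  1),(5,0),(2,3),(5,0),(5,0),(5,1)]⟩⟩,[.o ⟨false,0,⟨2,[(8,0),(0,1),(4,1),(6,0),(0,0),(17,0)]⟩,⟨0,
  [(10,0)]⟩⟩,.o ⟨false,0,⟨0,[(9,0),(30,0)]⟩,⟨2,[(10,1),(10,0),(17,0)]⟩⟩,.o ⟨false,1,⟨1,[(28,1),(8,
  0),(3,0)]⟩,⟨0,[(17,0)]⟩⟩,.a ⟨true,0,⟨0,[(28,0)]⟩,⟨0,[(25,0)]⟩⟩ ⟨true,0,⟨0,[(2,0)]⟩,⟨0,[(27,0),(0,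
  0)]⟩⟩ ⟨false,0,⟨3,[(0,0),(7,1),(5,1),(3,0),(3,0),(2,0),(14,1)]⟩,⟨0,[(10,0),(17,0)]⟩⟩]⟩))) (.I [0,
  -1,-1,-1,1,0,0,1] (.I [1,1,-1,-1,0,0,0,1] (.I [0,0,0,1,0,0,0,-1] (.S ⟨1,0,[0,0,1,1,0,0,0,-1],[1,1,
  -1],[0,1,1,1,0,0,0,-1],(⟨0,[(31,0),(1,0)]⟩,⟨0,[(21,0)]⟩),⟨0,[(31,0)]⟩,.k,.k,⟨true,0,⟨0,[(45,0)]⟩,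
  ⟨0,[]⟩⟩,⟨false,1,⟨1,[(22,0),(0,0),(19,0)]⟩,⟨0,[]⟩⟩,⟨false,0,⟨0,[(41,0)]⟩,⟨0,[(40,0),(2,0)]⟩⟩,
  ⟨true,0,⟨0,[(41,0)]⟩,⟨0,[(40,0)]⟩⟩,[.o ⟨false,0,⟨0,[(0,0),(17,0)]⟩,⟨1,[(17,1),(20,0),(4,0)]⟩⟩,.e
  ⟨false,0,⟨0,[(0,0)]⟩,⟨8,[(2,6),(1,0),(12,0),(1,0),(2,1),(4,0),(9,1)]⟩⟩ ⟨false,1,⟨1,[(0,1),(21,0),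
  (0,0),(19,0)]⟩,⟨0,[(1,0)]⟩⟩,.a ⟨true,0,⟨0,[(26,0)]⟩,⟨0,[(29,0)]⟩⟩ ⟨false,0,⟨1,[(0,0),(2,0),(11,0),
  (27,0)]⟩,⟨0,[(2,0)]⟩⟩ ⟨true,0,⟨1,[(0,0),(2,0),(11,0),(27,0)]⟩,⟨0,[(1,0)]⟩⟩,.o ⟨false,0,⟨0,[(18,
  0)]⟩,⟨1,[(29,1),(8,0),(3,0)]⟩⟩]⟩) (.Q [0,0,0,0,0,0,-1,-1,1,0,-1,1] (.p false [0,0,1] [0,0,0,0,1]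
  (⟨0,[(32,0)]⟩,⟨0,[(31,0)]⟩) .k 2 (⟨0,[(25,0)]⟩,⟨0,[(24,0)]⟩) .k (.r (-1) ⟨1,[(2,0),(24,0),(2,0),
  (10,0),(1,0)]⟩ ⟨2,[(3,2),(3,0),(7,0),(26,0)]⟩)) (.Q [0,0,0,1,0,0,1,1,-1,0,1,-1] (.p true [0,0,1]
  [0,0,0,0,1] (⟨0,[(33,0)]⟩,⟨0,[(32,0)]⟩) .k 2 (⟨0,[(26,0)]⟩,⟨0,[(25,0)]⟩) .k (.r (-1) ⟨1,[(3,0),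
  (24,0),(2,0),(10,0),(1,0)]⟩ ⟨2,[(4,2),(3,0),(7,0),(26,0)]⟩)) (.Q [0,0,0,0,0,0,0,0,-1,1,0,-1] (.p
  false [0,0,0,0,1] [1] (⟨0,[(27,0)]⟩,⟨0,[(26,0)]⟩) .k 1 (⟨0,[]⟩,⟨0,[]⟩) .k .k) (.R ⟨1,false,false,
  true,[1,0,-1],[1,0,0,0,-1],[1],(⟨0,[(34,0)]⟩,⟨0,[(35,0)]⟩),(⟨0,[(27,0)]⟩,⟨0,[(28,0)]⟩),⟨0,[(23,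
  0)]⟩,.k,.k,.k,.k,(.r 0 ⟨0,[(6,0),(3,0)]⟩ ⟨0,[(30,0),(2,0),(10,0),(1,0)]⟩),.k,⟨true,0,⟨0,[]⟩,⟨1,
  [(32,0),(0,0)]⟩⟩,⟨false,1,⟨2,[(1,1),(4,1),(3,0),(0,0),(13,0),(6,0),(12,0)]⟩,⟨0,[(21,0),(4,0)]⟩⟩,
  ⟨true,0,⟨1,[(1,0),(1,0),(17,0),(4,0)]⟩,⟨2,[(6,2),(3,0),(7,0),(26,0)]⟩⟩,⟨false,1,⟨1,[(1,0),(17,0),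
  (0,0),(25,0)]⟩,⟨0,[(2,0)]⟩⟩,⟨true,0,⟨0,[(1,0),(19,0),(4,0)]⟩,⟨1,[(6,1),(3,0),(32,0)]⟩⟩,⟨true,0,⟨0,
  [(1,0)]⟩,⟨0,[(2,0),(40,0)]⟩⟩,[.a ⟨true,0,⟨0,[(0,0)]⟩,⟨0,[(26,0)]⟩⟩ ⟨true,0,⟨0,[]⟩,⟨1,[(32,0),(0,
  0)]⟩⟩ ⟨false,1,⟨2,[(1,1),(4,1),(3,0),(0,0),(13,0),(6,0),(12,0)]⟩,⟨0,[(21,0),(4,0)]⟩⟩,.o ⟨false,1,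
  ⟨0,[(19,0)]⟩,⟨0,[(13,0)]⟩⟩,.o ⟨false,0,⟨0,[(21,0)]⟩,⟨1,[(32,1),(8,0),(3,0)]⟩⟩,.o ⟨false,0,⟨0,[(33,
  0)]⟩,⟨3,[(1,1),(4,1),(3,0),(0,0),(0,1),(19,1),(8,0)]⟩⟩]⟩) (.R ⟨1,false,false,false,[0,0,1],[0,0,0,
  0,1],[1,1,0,-1,0,0,0,1],(⟨0,[(35,0)]⟩,⟨0,[(34,0)]⟩),(⟨0,[(28,0)]⟩,⟨0,[(27,0)]⟩),⟨0,[(24,0)]⟩,.k,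
  .k,.k,.k,(.r (-1) ⟨0,[(5,0)]⟩ ⟨3,[(6,3),(11,1),(6,0),(0,0),(17,1),(0,0)]⟩),.k,⟨true,0,⟨0,[(3,0)]⟩,
  ⟨0,[(6,0),(37,0)]⟩⟩,⟨false,0,⟨0,[(0,0),(28,0)]⟩,⟨5,[(1,1),(4,1),(3,0),(0,0),(13,3),(6,3),(12,
  0)]⟩⟩,⟨true,0,⟨0,[(43,0)]⟩,⟨0,[(44,0)]⟩⟩,⟨false,0,⟨0,[(2,0)]⟩,⟨1,[(1,0),(17,0),(0,0),(25,0)]⟩⟩,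
  ⟨false,0,⟨0,[]⟩,⟨1,[(25,0),(0,0),(19,0)]⟩⟩,⟨false,0,⟨0,[(2,0),(41,0)]⟩,⟨3,[(1,0),(12,1),(4,0),(0,
  2),(25,0)]⟩⟩,[.o ⟨false,0,⟨0,[(13,0)]⟩,⟨0,[(19,0)]⟩⟩,.o ⟨false,0,⟨0,[(0,0)]⟩,⟨0,[(25,0)]⟩⟩,.o
  ⟨false,1,⟨1,[(32,1),(8,0),(3,0)]⟩,⟨0,[(21,0)]⟩⟩,.a ⟨true,0,⟨0,[(32,0)]⟩,⟨0,[(29,0)]⟩⟩ ⟨true,0,⟨0,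
  [(4,0)]⟩,⟨0,[(6,0),(37,0)]⟩⟩ ⟨false,0,⟨0,[(0,0),(28,0)]⟩,⟨0,[(19,0),(12,0)]⟩⟩]⟩)) (.Q [0,1,0,1,-1,
  0,-1,-1,-1,1,-1,-1] (.p false [0,0,1] [1,0,0,0,-1] (⟨0,[(34,0)]⟩,⟨0,[(33,0)]⟩) .k 2 (⟨0,[(26,0)]⟩,
  ⟨0,[(27,0)]⟩) .k (.r 0 ⟨6,[(2,1),(0,0),(13,0),(3,1),(7,3),(10,0),(2,1)]⟩ ⟨1,[(5,1),(38,0),(0,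
  0)]⟩)) (.R ⟨1,false,false,false,[1,0,0,0,-1],[0,-1,1],[],(⟨0,[(27,0)]⟩,⟨0,[(28,0)]⟩),(⟨0,[(24,
  0)]⟩,⟨0,[(34,0),(1,0)]⟩),⟨0,[(17,0)]⟩,.k,.k,(.r (-1) ⟨1,[(11,0),(31,0),(2,0)]⟩ ⟨1,[(18,1),(6,0),
  (0,0),(19,0)]⟩),(.r (-1) ⟨1,[(6,1),(18,0),(0,0),(17,1),(1,0)]⟩ ⟨7,[(0,1),(2,9),(3,0),(0,2),(0,2),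
  (0,4),(21,1),(3,8),(4,1),(2,5)]⟩),.k,.k,⟨true,0,⟨0,[(6,0),(37,0)]⟩,⟨0,[(3,0)]⟩⟩,⟨false,1,⟨3,[(12,
  1),(0,1),(11,0),(0,0),(5,3),(13,0)]⟩,⟨1,[(0,0),(3,0),(10,0),(13,0)]⟩⟩,⟨true,0,⟨0,[(48,0)]⟩,⟨0,
  []⟩⟩,⟨false,1,⟨3,[(7,1),(12,1),(9,1),(10,0),(4,2)]⟩,⟨0,[(0,0),(45,0)]⟩⟩,⟨false,0,⟨0,[(44,0)]⟩,⟨0,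
  [(43,0),(2,0)]⟩⟩,⟨false,1,⟨0,[(13,0),(16,0),(15,0)]⟩,⟨0,[(0,0),(13,0),(11,0)]⟩⟩,[.o ⟨false,1,⟨1,
  [(20,1),(20,0),(4,0)]⟩,⟨3,[(0,1),(1,1),(38,0),(2,1),(1,0)]⟩⟩,.e ⟨false,1,⟨1,[(45,0),(0,0)]⟩,⟨0,
  [(48,0)]⟩⟩ ⟨false,2,⟨15,[(7,5),(4,7),(7,9),(4,3),(4,5),(10,0),(4,18)]⟩,⟨0,[(0,0)]⟩⟩,.a ⟨true,0,⟨1,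
  [(0,0),(13,0),(15,0),(5,0),(1,0)]⟩,⟨0,[(26,0)]⟩⟩ ⟨false,1,⟨1,[(25,0),(0,0),(19,0)]⟩,⟨0,[]⟩⟩ ⟨true,
  1,⟨3,[(7,1),(12,1),(9,1),(10,0),(4,2)]⟩,⟨0,[(0,0)]⟩⟩,.o ⟨false,0,⟨0,[(16,0)]⟩,⟨3,[(12,1),(0,1),
  (11,0),(0,0),(19,0)]⟩⟩]⟩) (.Q [0,-1,0,-1,1,0,1,1,0,-1,1] (.p true [0,0,1] [1] (⟨0,[(35,0)]⟩,⟨0,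
  [(34,0)]⟩) .k 1 (⟨0,[]⟩,⟨0,[]⟩) .k .k) (.Q [0,0,0,1,0,0,-1,-1,0,0,-1] (.p false [0,0,1] [] (⟨0,
  [(36,0)]⟩,⟨0,[(35,0)]⟩) .k 0 (⟨0,[]⟩,⟨0,[]⟩) .k .k) (.S ⟨1,0,[0,1,1,1,0,0,0,-1],[1,1,-1],[1,0,1,0,
  0,0,0,-1],(⟨0,[(36,0),(1,0)]⟩,⟨0,[(26,0)]⟩),⟨0,[(36,0)]⟩,.k,.k,⟨false,1,⟨0,[(45,0),(2,0)]⟩,⟨0,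
  [(46,0)]⟩⟩,⟨true,0,⟨0,[(50,0)]⟩,⟨0,[]⟩⟩,⟨true,0,⟨0,[]⟩,⟨0,[(50,0)]⟩⟩,⟨false,0,⟨0,[(46,0)]⟩,⟨0,
  [(45,0),(2,0)]⟩⟩,[.o ⟨false,0,⟨3,[(0,2),(3,0),(15,0),(6,0),(14,0)]⟩,⟨0,[(1,0)]⟩⟩,.o ⟨false,0,⟨0,
  [(0,0)]⟩,⟨3,[(1,0),(0,0),(19,1),(4,0),(15,0)]⟩⟩,.a ⟨true,0,⟨0,[(31,0)]⟩,⟨0,[(34,0)]⟩⟩ ⟨true,0,⟨0,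
  [(8,0)]⟩,⟨0,[(6,0),(39,0)]⟩⟩ ⟨false,0,⟨0,[(0,0),(33,0)]⟩,⟨0,[(7,0)]⟩⟩,.o ⟨false,0,⟨0,[(23,0)]⟩,⟨1,
  [(34,1),(8,0),(3,0)]⟩⟩]⟩) (.Q [0,0,1,0,0,0,1,0,-1,0,1,-1] (.p true [0,0,1] [0,0,0,0,1] (⟨0,[(37,
  0)]⟩,⟨0,[(36,0)]⟩) .k 2 (⟨0,[(30,0)]⟩,⟨0,[(29,0)]⟩) .k (.r (-1) ⟨1,[(7,0),(24,0),(2,0),(10,0),(1,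
  0)]⟩ ⟨2,[(8,2),(3,0),(7,0),(26,0)]⟩)) (.R ⟨1,false,false,true,[0,0,1],[0,0,0,0,1],[0,1,0,0,0,0,0,
  1],(⟨0,[(38,0)]⟩,⟨0,[(37,0)]⟩),(⟨0,[(31,0)]⟩,⟨0,[(30,0)]⟩),⟨0,[(27,0)]⟩,.k,.k,.k,.k,(.r (-1) ⟨0,
  [(8,0)]⟩ ⟨3,[(9,3),(11,1),(6,0),(0,0),(17,1),(0,0)]⟩),.k,⟨false,1,⟨0,[(8,0),(38,0)]⟩,⟨2,[(9,2),(3,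
  0),(7,0),(26,0)]⟩⟩,⟨true,0,⟨0,[(24,0),(4,0)]⟩,⟨0,[(0,0)]⟩⟩,⟨true,0,⟨0,[(51,0)]⟩,⟨0,[]⟩⟩,⟨false,0,
  ⟨0,[(29,0),(4,0)]⟩,⟨0,[(1,0),(16,0),(28,0)]⟩⟩,⟨false,0,⟨0,[(47,0)]⟩,⟨0,[(46,0),(2,0)]⟩⟩,⟨false,0,
  ⟨3,[(5,3),(15,1),(6,0),(0,0),(17,1),(0,0)]⟩,⟨0,[(1,0),(16,0)]⟩⟩,[.o ⟨false,0,⟨3,[(10,0),(5,2),(4,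
  0),(6,0),(14,0)]⟩,⟨0,[(18,0)]⟩⟩,.o ⟨false,0,⟨0,[(16,0)]⟩,⟨0,[(22,0)]⟩⟩,.o ⟨false,1,⟨1,[(35,1),(8,
  0),(3,0)]⟩,⟨0,[(24,0)]⟩⟩,.a ⟨true,0,⟨0,[(35,0)]⟩,⟨0,[(32,0)]⟩⟩ ⟨true,0,⟨0,[(7,0),(39,0)]⟩,⟨0,[(9,
  0)]⟩⟩ ⟨false,0,⟨0,[(16,0),(15,0)]⟩,⟨0,[(0,0),(48,0)]⟩⟩]⟩) (.R ⟨1,false,false,true,[0,0,1],[0,1,0,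
  0,1],[0,1,0,0,0,0,0,1],(⟨0,[(38,0)]⟩,⟨0,[(37,0)]⟩),(⟨0,[(31,0),(7,0)]⟩,⟨0,[(20,0)]⟩),⟨0,[(27,0)]⟩,
  .k,(.r 0 ⟨1,[(21,1),(6,0),(0,0),(19,0)]⟩ ⟨1,[(14,0),(31,0),(2,0)]⟩),.k,(.r (-1) ⟨0,[(8,0)]⟩ ⟨3,
  [(9,3),(11,1),(6,0),(0,0),(17,1),(0,0)]⟩),(.r (-1) ⟨4,[(0,4),(0,4),(9,1),(0,1),(0,2),(3,4),(3,0),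
  (17,5),(4,0),(2,1)]⟩ ⟨1,[(9,1),(11,1),(6,0),(0,0),(17,1),(1,0)]⟩),.k,⟨false,1,⟨0,[(6,0),(7,0),(32,
  0)]⟩,⟨3,[(9,3),(11,1),(6,0),(0,0),(17,1),(0,0)]⟩⟩,⟨true,0,⟨0,[(0,0)]⟩,⟨0,[(19,0),(15,0)]⟩⟩,⟨true,
  0,⟨0,[(51,0)]⟩,⟨0,[]⟩⟩,⟨false,0,⟨3,[(5,3),(15,1),(6,0),(0,0),(17,1),(0,0)]⟩,⟨0,[(1,0),(16,0)]⟩⟩,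
  ⟨false,0,⟨0,[(47,0)]⟩,⟨0,[(46,0),(2,0)]⟩⟩,⟨false,0,⟨3,[(5,3),(15,1),(6,0),(0,0),(17,5),(0,0)]⟩,⟨0,
  [(1,0),(15,0)]⟩⟩,[.o ⟨false,0,⟨2,[(15,0),(0,1),(4,1),(6,0),(0,0),(17,0)]⟩,⟨0,[(17,0)]⟩⟩,.o ⟨false,
  0,⟨0,[(16,0),(30,0)]⟩,⟨2,[(17,1),(10,0),(17,0)]⟩⟩,.o ⟨false,1,⟨1,[(35,1),(8,0),(3,0)]⟩,⟨0,[(24,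
  0)]⟩⟩,.a ⟨true,0,⟨0,[(35,0)]⟩,⟨0,[(32,0)]⟩⟩ ⟨true,0,⟨0,[(7,0),(39,0)]⟩,⟨0,[(9,0)]⟩⟩ ⟨false,0,⟨3,
  [(0,0),(14,1),(5,1),(3,0),(3,0),(2,0),(14,1)]⟩,⟨0,[(17,0),(17,0)]⟩⟩]⟩))) (.R ⟨1,false,false,false,
  [1,0,0,0,-1],[0,-1,1],[],(⟨0,[(28,0)]⟩,⟨0,[(29,0)]⟩),(⟨0,[(25,0)]⟩,⟨0,[(35,0),(1,0)]⟩),⟨0,[(18,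
  0)]⟩,.k,.k,(.r (-1) ⟨1,[(12,0),(31,0),(2,0)]⟩ ⟨1,[(19,1),(6,0),(0,0),(19,0)]⟩),(.r (-1) ⟨1,[(7,1),
  (18,0),(0,0),(17,1),(1,0)]⟩ ⟨4,[(4,4),(4,1),(0,1),(0,2),(7,0),(17,5),(4,0),(2,1)]⟩),.k,.k,⟨true,0,
  ⟨0,[(7,0),(37,0)]⟩,⟨0,[(4,0)]⟩⟩,⟨false,1,⟨3,[(13,1),(0,1),(11,0),(0,0),(5,3),(13,0)]⟩,⟨0,[(0,0),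
  (4,0),(10,0)]⟩⟩,⟨true,0,⟨0,[(49,0)]⟩,⟨0,[]⟩⟩,⟨false,1,⟨2,[(1,1),(6,0),(17,0),(4,0)]⟩,⟨0,[(0,0),
  (15,0)]⟩⟩,⟨false,0,⟨0,[(45,0)]⟩,⟨0,[(44,0),(2,0)]⟩⟩,⟨false,1,⟨2,[(1,1),(12,0),(11,0),(0,0),(3,0),
  (13,1)]⟩,⟨0,[(0,0),(14,0)]⟩⟩,[.o ⟨false,1,⟨2,[(1,0),(18,0),(0,1),(20,0)]⟩,⟨1,[(0,1),(41,0),(4,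
  0)]⟩⟩,.a ⟨true,1,⟨0,[(21,0),(25,0)]⟩,⟨0,[(0,0)]⟩⟩ ⟨false,1,⟨1,[(46,0),(0,0)]⟩,⟨0,[(49,0)]⟩⟩ ⟨true,
  1,⟨0,[(1,0)]⟩,⟨0,[(0,0),(16,0)]⟩⟩,.e ⟨false,1,⟨1,[(26,0),(0,0),(19,0)]⟩,⟨0,[]⟩⟩ ⟨false,1,⟨0,[(1,
  0)]⟩,⟨0,[(0,0),(19,0)]⟩⟩,.o ⟨false,0,⟨0,[(17,0)]⟩,⟨3,[(13,1),(0,1),(11,0),(0,0),(19,0)]⟩⟩]⟩))))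
  (.R ⟨1,false,false,true,[0,0,1],[0,0,0,0,1],[0,1,0,0,0,0,0,1],(⟨0,[(33,0)]⟩,⟨0,[(32,0)]⟩),(⟨0,
  [(26,0)]⟩,⟨0,[(25,0)]⟩),⟨0,[(22,0)]⟩,.k,.k,.k,.k,(.r (-1) ⟨0,[(3,0)]⟩ ⟨3,[(4,3),(11,1),(6,0),(0,
  0),(17,1),(0,0)]⟩),.k,⟨false,1,⟨0,[(3,0),(38,0)]⟩,⟨2,[(4,2),(3,0),(7,0),(26,0)]⟩⟩,⟨true,0,⟨0,[(19,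
  0),(4,0)]⟩,⟨0,[(0,0),(3,0)]⟩⟩,⟨true,0,⟨0,[(46,0)]⟩,⟨0,[]⟩⟩,⟨false,0,⟨0,[(24,0),(4,0)]⟩,⟨0,[(0,0),
  (43,0)]⟩⟩,⟨false,0,⟨0,[(42,0)]⟩,⟨0,[(41,0),(2,0)]⟩⟩,⟨false,0,⟨0,[(24,0),(4,0),(12,0)]⟩,⟨0,[(0,0),
  (11,0),(11,0)]⟩⟩,[.o ⟨false,0,⟨3,[(5,0),(5,2),(4,0),(6,0),(14,0)]⟩,⟨0,[(13,0)]⟩⟩,.o ⟨false,0,⟨0,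
  [(11,0)]⟩,⟨0,[(17,0)]⟩⟩,.o ⟨false,1,⟨1,[(30,1),(8,0),(3,0)]⟩,⟨0,[(19,0)]⟩⟩,.a ⟨true,0,⟨0,[(30,
  0)]⟩,⟨0,[(27,0)]⟩⟩ ⟨true,0,⟨0,[(2,0),(39,0)]⟩,⟨0,[(4,0)]⟩⟩ ⟨false,0,⟨0,[(11,0),(15,0)]⟩,⟨0,[(13,
  0),(16,0)]⟩⟩]⟩))) (.S ⟨1,0,[0,0,1,1,0,0,0,-1],[1,1,-1],[1,1,1,0,0,0,0,-1],(⟨0,[(30,0),(1,0)]⟩,⟨0,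
  [(20,0)]⟩),⟨0,[(30,0)]⟩,.k,.k,⟨true,0,⟨0,[(39,0)]⟩,⟨0,[(40,0)]⟩⟩,⟨false,1,⟨1,[(21,0),(0,0),(19,
  0)]⟩,⟨0,[]⟩⟩,⟨false,0,⟨0,[]⟩,⟨1,[(21,0),(0,0),(19,0)]⟩⟩,⟨true,0,⟨0,[(40,0)]⟩,⟨0,[(39,0)]⟩⟩,[.o
  ⟨false,0,⟨2,[(0,1),(5,0),(10,1),(9,0),(12,1)]⟩,⟨1,[(16,1),(20,0),(4,0)]⟩⟩,.a ⟨true,0,⟨0,[(0,0),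
  (24,0)]⟩,⟨0,[(16,0)]⟩⟩ ⟨false,0,⟨1,[(0,0),(1,0),(3,0)]⟩,⟨3,[(1,1),(6,0),(9,0),(2,0),(4,1),(13,
  1)]⟩⟩ ⟨true,0,⟨0,[(0,0)]⟩,⟨0,[(16,0),(0,0)]⟩⟩,.e ⟨false,0,⟨0,[(2,0)]⟩,⟨0,[(1,0),(38,0)]⟩⟩ ⟨false,
  0,⟨0,[(0,0)]⟩,⟨8,[(1,6),(1,0),(12,0),(1,0),(2,1),(4,0),(9,1)]⟩⟩,.o ⟨false,0,⟨0,[(17,0)]⟩,⟨1,[(28,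
  1),(8,0),(3,0)]⟩⟩]⟩)) (.I [0,1,1,1,-1,0,0,-1] (.R ⟨1,false,false,true,[0,0,1],[0,0,0,0,1],[1,0,0,
  -1,0,0,0,1],(⟨0,[(31,0)]⟩,⟨0,[(30,0)]⟩),(⟨0,[(24,0)]⟩,⟨0,[(23,0)]⟩),⟨0,[(20,0)]⟩,.k,.k,.k,.k,(.r
  (-2) ⟨1,[(8,0),(7,1),(1,0),(2,0),(20,1)]⟩ ⟨0,[(0,0)]⟩),.k,⟨false,2,⟨3,[(7,1),(8,1),(1,1),(7,1),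
  (10,0),(4,4)]⟩,⟨2,[(0,2),(5,0),(7,0),(26,0)]⟩⟩,⟨true,0,⟨0,[(17,0),(4,0)]⟩,⟨0,[(0,0),(9,0),(15,
  0)]⟩⟩,⟨false,1,⟨0,[(39,0),(2,0)]⟩,⟨0,[(40,0)]⟩⟩,⟨true,(-1),⟨1,[(0,1),(2,0),(2,0),(11,0)]⟩,⟨0,[(11,
  0),(14,0)]⟩⟩,⟨true,0,⟨0,[]⟩,⟨0,[(44,0)]⟩⟩,⟨true,(-1),⟨0,[(0,0),(8,0),(15,0)]⟩,⟨0,[(10,0),(15,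
  0)]⟩⟩,[.o ⟨false,0,⟨3,[(3,0),(5,2),(4,0),(6,0),(14,0)]⟩,⟨0,[(11,0)]⟩⟩,.o ⟨false,0,⟨0,[(9,0)]⟩,⟨0,
  [(15,0)]⟩⟩,.o ⟨false,1,⟨1,[(28,1),(8,0),(3,0)]⟩,⟨0,[(17,0)]⟩⟩,.a ⟨true,0,⟨0,[(28,0)]⟩,⟨0,[(25,
  0)]⟩⟩ ⟨true,1,⟨3,[(7,1),(8,1),(1,1),(7,1),(10,0),(4,0)]⟩,⟨0,[(0,0)]⟩⟩ ⟨false,0,⟨0,[(9,0),(15,0)]⟩,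
  ⟨0,[(11,0),(16,0)]⟩⟩]⟩) (.S ⟨1,0,[0,1,0,0,0,0,0,1],[0,0,1],[1,0,0,-1,0,0,0,1],(⟨0,[(31,0)]⟩,⟨0,
  [(30,0)]⟩),⟨0,[(20,0)]⟩,.k,.k,⟨false,1,⟨0,[(39,0),(2,0)]⟩,⟨0,[(40,0)]⟩⟩,⟨true,0,⟨0,[(44,0)]⟩,⟨0,
  []⟩⟩,⟨true,0,⟨0,[]⟩,⟨0,[(44,0)]⟩⟩,⟨false,0,⟨0,[(40,0)]⟩,⟨0,[(39,0),(2,0)]⟩⟩,[.a ⟨true,0,⟨0,[(26,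
  0)]⟩,⟨0,[(1,0),(8,0),(11,0),(2,0)]⟩⟩ ⟨false,1,⟨8,[(0,6),(2,0),(12,0),(1,0),(2,1),(4,0),(9,1)]⟩,⟨1,
  [(1,1),(39,0),(0,0)]⟩⟩ ⟨true,0,⟨0,[(0,0),(13,0)]⟩,⟨0,[(1,0),(8,0),(11,0)]⟩⟩,.o ⟨false,1,⟨1,[(26,
  1),(10,0),(4,0)]⟩,⟨1,[(1,0),(0,0),(4,0),(9,1)]⟩⟩,.o ⟨false,1,⟨1,[(28,1),(8,0),(3,0)]⟩,⟨0,[(17,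
  0)]⟩⟩,.e ⟨false,1,⟨0,[(0,0)]⟩,⟨0,[(2,0),(37,0)]⟩⟩ ⟨false,1,⟨3,[(0,1),(7,0),(9,0),(2,0),(4,1),(13,
  1)]⟩,⟨0,[(1,0),(8,0),(11,0)]⟩⟩]⟩))))) (.Q [0,0,0,-1,0,0,0,0,0,1] (.pp false [-1,1]) (.R ⟨0,false,
  false,false,[0,1,0,0,-1],[0,1],[0,0,1],(⟨0,[(1,0)]⟩,⟨0,[(21,0),(9,0)]⟩),(⟨0,[(32,0)]⟩,⟨0,[(31,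
  0)]⟩),⟨0,[(21,0)]⟩,(.r (-1) ⟨1,[(11,1),(6,0),(0,0),(19,2)]⟩ ⟨0,[(35,0)]⟩),.k,.k,.k,.k,.k,⟨false,1,
  ⟨5,[(0,1),(3,0),(0,1),(12,1),(17,2),(2,0)]⟩,⟨0,[(37,0)]⟩⟩,⟨true,0,⟨0,[(19,0)]⟩,⟨0,[(9,0)]⟩⟩,⟨true,
  0,⟨0,[(36,0)]⟩,⟨0,[(37,0)]⟩⟩,⟨false,0,⟨0,[(19,0)]⟩,⟨0,[(12,0)]⟩⟩,⟨false,0,⟨0,[]⟩,⟨0,[]⟩⟩,⟨false,0,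
  ⟨0,[]⟩,⟨0,[]⟩⟩,[.a ⟨true,0,⟨0,[(37,0)]⟩,⟨0,[(0,0)]⟩⟩ ⟨true,0,⟨1,[(25,0),(0,0)]⟩,⟨0,[]⟩⟩ ⟨false,0,
  ⟨0,[(19,0),(17,0)]⟩,⟨5,[(3,2),(3,1),(10,3),(17,0)]⟩⟩,.o ⟨false,1,⟨1,[(34,0),(2,1),(1,0)]⟩,⟨0,[(36,
  0)]⟩⟩,.o ⟨false,1,⟨3,[(3,2),(4,0),(0,1),(2,0),(21,1),(2,2)]⟩,⟨1,[(19,1),(5,0),(0,0)]⟩⟩,.o ⟨false,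
  1,⟨3,[(3,0),(5,0),(1,0),(0,2),(21,1)]⟩,⟨0,[(19,0)]⟩⟩]⟩) (.I [0,0,-1,0,0,0,0,1] (.Q [0,0,0,1,0,0,
  -1,-1,0,0,-1] (.p false [0,0,1] [] (⟨0,[(29,0)]⟩,⟨0,[(28,0)]⟩) .k 0 (⟨0,[]⟩,⟨0,[]⟩) .k .k) (.R ⟨2,
  true,false,false,[0,1],[0,0,1],[0,1,1,1],(⟨0,[]⟩,⟨0,[]⟩),(⟨0,[(30,0)]⟩,⟨0,[(29,0)]⟩),⟨0,[]⟩,.k,.k,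
  .k,.k,.k,.k,⟨false,0,⟨2,[(0,2),(4,0),(7,0),(13,2),(12,0)]⟩,⟨1,[(1,0),(4,0),(8,0),(12,0),(12,0)]⟩⟩,
  ⟨true,0,⟨0,[(27,0)]⟩,⟨0,[(16,0)]⟩⟩,⟨true,0,⟨0,[(43,0)]⟩,⟨0,[]⟩⟩,⟨false,1,⟨0,[(15,0),(25,0)]⟩,⟨0,
  [(0,0)]⟩⟩,⟨false,0,⟨0,[(39,0)]⟩,⟨0,[(38,0),(2,0)]⟩⟩,⟨true,0,⟨0,[(1,0),(25,0)]⟩,⟨0,[(26,0)]⟩⟩,[]⟩)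
  (.S ⟨1,0,[0,0,0,0,0,0,0,1],[0,0,1],[0,1,0,0,0,0,0,1],(⟨0,[(30,0)]⟩,⟨0,[(29,0)]⟩),⟨0,[(19,0)]⟩,.k,
  .k,⟨true,0,⟨0,[(43,0)]⟩,⟨0,[]⟩⟩,⟨false,1,⟨1,[(20,0),(0,0),(19,0)]⟩,⟨0,[]⟩⟩,⟨false,0,⟨0,[(39,0)]⟩,
  ⟨0,[(38,0),(2,0)]⟩⟩,⟨true,0,⟨0,[(39,0)]⟩,⟨0,[(38,0)]⟩⟩,[.o ⟨false,0,⟨0,[(0,0),(1,0)]⟩,⟨1,[(20,0),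
  (0,0),(4,1),(14,0)]⟩⟩,.o ⟨false,1,⟨3,[(0,1),(1,1),(22,1),(10,0),(4,2)]⟩,⟨0,[(26,0)]⟩⟩,.o ⟨false,1,
  ⟨1,[(27,1),(8,0),(3,0)]⟩,⟨0,[(16,0)]⟩⟩,.a ⟨true,0,⟨0,[(27,0)]⟩,⟨0,[(24,0)]⟩⟩ ⟨false,0,⟨0,[(1,0)]⟩,
  ⟨0,[(26,0),(0,0),(13,0)]⟩⟩ ⟨true,0,⟨0,[(1,0)]⟩,⟨0,[(26,0),(0,0)]⟩⟩]⟩)) (.S ⟨1,0,[0,1,1,1,0,0,0,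
  -1],[1,1,-1],[1,0,1,0,0,0,0,-1],(⟨0,[(28,0),(1,0)]⟩,⟨0,[(18,0)]⟩),⟨0,[(28,0)]⟩,.k,.k,⟨false,1,⟨0,
  [(37,0),(2,0)]⟩,⟨0,[(38,0)]⟩⟩,⟨true,0,⟨0,[(42,0)]⟩,⟨0,[]⟩⟩,⟨true,0,⟨0,[]⟩,⟨0,[(42,0)]⟩⟩,⟨false,0,
  ⟨0,[(38,0)]⟩,⟨0,[(37,0),(2,0)]⟩⟩,[.o ⟨false,0,⟨0,[(25,0),(12,0)]⟩,⟨0,[(1,0),(6,0),(5,0),(5,0)]⟩⟩,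
  .o ⟨false,0,⟨0,[(0,0),(0,0),(21,0)]⟩,⟨1,[(14,1),(20,0),(4,0)]⟩⟩,.a ⟨true,0,⟨0,[(23,0)]⟩,⟨0,[(26,
  0)]⟩⟩ ⟨true,0,⟨0,[(0,0)]⟩,⟨0,[(1,0),(12,0),(8,0)]⟩⟩ ⟨false,0,⟨0,[(0,0),(37,0)]⟩,⟨0,[(1,0),(6,0),
  (5,0),(5,0),(2,0)]⟩⟩,.o ⟨false,0,⟨0,[(15,0)]⟩,⟨1,[(26,1),(8,0),(3,0)]⟩⟩]⟩)))))) (.Q [0,0,2,-1,-1,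
  0,0,0,0,1] (.pp false [-1,1]) (.R ⟨1,false,false,false,[1,-1],[1,0,0,0,-1],[0,0,-1,-1],(⟨0,[(28,
  0)]⟩,⟨0,[(29,0)]⟩),(⟨0,[(17,0)]⟩,⟨0,[(18,0)]⟩),⟨0,[(13,0),(0,0)]⟩,.k,.k,(.r (-1) ⟨2,[(4,1),(11,1),
  (15,3),(2,0)]⟩ ⟨1,[(1,1),(13,0),(0,0),(17,1),(1,0)]⟩),(.r 0 ⟨0,[(32,0)]⟩ ⟨3,[(1,1),(13,2),(0,2),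
  (17,1),(1,2)]⟩),(.r (-1) ⟨2,[(4,0),(11,0),(15,1),(0,2),(1,1)]⟩ ⟨0,[(1,0),(32,0),(1,0)]⟩),.k,⟨true,
  0,⟨0,[(32,0)]⟩,⟨0,[(1,0),(34,0)]⟩⟩,⟨false,1,⟨0,[(5,0),(26,1),(1,1)]⟩,⟨1,[(16,1),(5,0),(0,0)]⟩⟩,
  ⟨false,1,⟨1,[(15,0),(0,0),(19,0)]⟩,⟨0,[]⟩⟩,⟨false,1,⟨0,[(5,0),(28,0)]⟩,⟨0,[(16,0),(16,0)]⟩⟩,⟨true,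
  0,⟨0,[(34,0)]⟩,⟨0,[(33,0)]⟩⟩,⟨false,1,⟨0,[(5,0),(28,1)]⟩,⟨0,[(0,0),(1,0),(30,0)]⟩⟩,[.o ⟨false,1,
  ⟨0,[(9,0)]⟩,⟨0,[(3,0)]⟩⟩,.o ⟨false,1,⟨0,[(5,0)]⟩,⟨0,[(3,0),(34,0)]⟩⟩,.o ⟨false,0,⟨1,[(22,0),(0,
  0)]⟩,⟨1,[(31,0),(3,0)]⟩⟩,.a ⟨true,(-1),⟨0,[(0,0),(33,0)]⟩,⟨0,[(35,0)]⟩⟩ ⟨true,1,⟨2,[(4,0),(11,0),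
  (15,1),(2,1)]⟩,⟨0,[(1,0)]⟩⟩ ⟨false,2,⟨0,[(5,0),(29,0)]⟩,⟨1,[(0,0),(0,0),(1,0),(12,0)]⟩⟩]⟩) (.Q [0,
  0,-2,0,1,0,0,0,0,-1] (.pp true [-1,1]) (.Q [0,0,0,-1,0,0,0,0,0,1] (.pp false [-1,1]) (.S ⟨1,0,[0,
  1,-1,-1],[1,-1],[1,0,-1,-2],(⟨0,[(30,0)]⟩,⟨0,[(31,0)]⟩),⟨0,[(15,0),(0,0)]⟩,.k,(.r (-1) ⟨1,[(0,0),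
  (3,0),(1,0),(27,1)]⟩ ⟨1,[(3,1),(13,0),(0,0),(17,1),(1,0)]⟩),⟨false,1,⟨1,[(0,1),(32,0),(4,0)]⟩,⟨0,
  [(36,0)]⟩⟩,⟨true,0,⟨0,[(40,0)]⟩,⟨0,[]⟩⟩,⟨true,0,⟨0,[]⟩,⟨0,[(40,0)]⟩⟩,⟨false,0,⟨0,[(36,0)]⟩,⟨1,[(0,
  1),(32,0),(4,0)]⟩⟩,[.o ⟨false,0,⟨0,[(35,0)]⟩,⟨1,[(33,0),(2,1),(1,0)]⟩⟩,.a ⟨true,0,⟨0,[(0,0)]⟩,⟨0,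
  [(36,0)]⟩⟩ ⟨true,1,⟨0,[(6,0),(11,0),(15,0)]⟩,⟨0,[(3,0),(32,0)]⟩⟩ ⟨false,1,⟨3,[(0,0),(3,0),(1,0),
  (27,1),(2,1)]⟩,⟨3,[(3,1),(13,0),(0,0),(17,1),(1,0)]⟩⟩,.o ⟨false,0,⟨1,[(24,0),(0,0)]⟩,⟨3,[(1,0),(2,
  0),(12,0),(15,0)]⟩⟩,.o ⟨false,0,⟨0,[(24,0),(0,0)]⟩,⟨0,[(1,0)]⟩⟩]⟩) (.Q [0,0,0,0,0,0,0,0,-1,1,0,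
  -1] (.p false [0,0,0,0,1] [1] (⟨0,[(20,0)]⟩,⟨0,[(19,0)]⟩) .k 1 (⟨0,[]⟩,⟨0,[]⟩) .k .k) (.R ⟨1,
  false,false,false,[1,-1],[0,0,0,0,1],[1,0,-1,-2],(⟨0,[(31,0)]⟩,⟨0,[(32,0)]⟩),(⟨0,[(21,0)]⟩,⟨0,
  [(20,0)]⟩),⟨0,[(16,0),(0,0)]⟩,.k,.k,(.r (-1) ⟨2,[(7,1),(11,1),(15,3),(2,0)]⟩ ⟨1,[(4,1),(13,0),(0,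
  0),(17,1),(1,0)]⟩),(.r (-1) ⟨2,[(7,1),(11,1),(15,0),(2,0)]⟩ ⟨2,[(4,0),(6,0),(6,1),(0,1),(17,0)]⟩),
  (.r (-2) ⟨0,[(7,0),(11,0),(16,0),(1,0)]⟩ ⟨0,[(4,0),(32,0)]⟩),.k,⟨true,1,⟨0,[(7,0),(11,0),(15,0)]⟩,
  ⟨0,[(4,0),(32,0)]⟩⟩,⟨false,1,⟨0,[(5,0)]⟩,⟨1,[(0,1),(24,0),(0,0)]⟩⟩,⟨false,1,⟨0,[(36,0),(2,0)]⟩,⟨0,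
  [(37,0)]⟩⟩,⟨false,0,⟨0,[(1,0),(17,0)]⟩,⟨0,[(0,0),(35,0),(2,0)]⟩⟩,⟨true,0,⟨0,[]⟩,⟨0,[(41,0)]⟩⟩,
  ⟨false,0,⟨0,[(1,0),(17,0),(17,0)]⟩,⟨0,[(7,0),(21,0),(1,0),(4,0)]⟩⟩,[.o ⟨false,0,⟨0,[(6,0)]⟩,⟨0,
  [(12,0)]⟩⟩,.a ⟨true,0,⟨0,[(19,0)]⟩,⟨0,[(0,0)]⟩⟩ ⟨true,1,⟨0,[(7,0),(11,0),(15,0)]⟩,⟨0,[(4,0),(32,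
  0)]⟩⟩ ⟨false,1,⟨0,[(5,0)]⟩,⟨1,[(0,1),(24,0),(0,0)]⟩⟩,.o ⟨false,0,⟨1,[(25,0),(0,0)]⟩,⟨3,[(2,0),(2,
  0),(12,0),(15,0)]⟩⟩,.o ⟨false,0,⟨0,[(25,0),(0,0)]⟩,⟨0,[(2,0)]⟩⟩]⟩) (.I [0,0,-1,0,0,0,0,1] (.Q [0,
  0,0,-1,0,0,1,1,-1,0,1,-1] (.p true [0,0,1] [0,0,0,0,1] (⟨0,[(29,0)]⟩,⟨0,[(28,0)]⟩) .k 2 (⟨0,[(22,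
  0)]⟩,⟨0,[(21,0)]⟩) .k (.x (-1) ⟨0,[(3,0),(6,0),(11,0),(3,0),(1,0)]⟩ ⟨0,[(1,0),(13,0),(5,0),(7,
  0)]⟩)) (.S ⟨1,0,[0,0,0,0,0,0,0,1],[0,0,1],[0,1,0,0,0,0,0,1],(⟨0,[(30,0)]⟩,⟨0,[(29,0)]⟩),⟨0,[(19,
  0)]⟩,.k,.k,⟨true,0,⟨0,[(43,0)]⟩,⟨0,[]⟩⟩,⟨false,1,⟨1,[(20,0),(0,0),(19,0)]⟩,⟨0,[]⟩⟩,⟨false,0,⟨0,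
  [(39,0)]⟩,⟨0,[(38,0),(2,0)]⟩⟩,⟨true,0,⟨0,[(39,0)]⟩,⟨0,[(38,0)]⟩⟩,[.o ⟨false,0,⟨1,[(0,0),(0,0),(0,
  0),(0,0),(23,0)]⟩,⟨1,[(20,0),(0,0),(4,1),(14,0)]⟩⟩,.o ⟨false,1,⟨5,[(0,1),(1,1),(0,1),(21,3),(10,
  0),(4,4)]⟩,⟨0,[(26,0)]⟩⟩,.o ⟨false,1,⟨3,[(4,0),(2,0),(12,0),(6,3),(8,0)]⟩,⟨0,[(16,0)]⟩⟩,.a ⟨true,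
  0,⟨0,[(27,0)]⟩,⟨0,[(24,0)]⟩⟩ ⟨false,0,⟨0,[(1,0)]⟩,⟨0,[(26,0),(0,0),(13,0)]⟩⟩ ⟨true,0,⟨0,[(1,0)]⟩,
  ⟨0,[(26,0),(0,0)]⟩⟩]⟩) (.S ⟨1,0,[0,0,0,0,0,0,0,1],[0,0,1],[0,1,0,0,0,0,0,1],(⟨0,[(30,0)]⟩,⟨0,[(29,
  0)]⟩),⟨0,[(19,0)]⟩,.k,.k,⟨true,0,⟨0,[(43,0)]⟩,⟨0,[]⟩⟩,⟨false,1,⟨1,[(20,0),(0,0),(19,0)]⟩,⟨0,[]⟩⟩,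
  ⟨false,0,⟨0,[(39,0)]⟩,⟨0,[(38,0),(2,0)]⟩⟩,⟨true,0,⟨0,[(39,0)]⟩,⟨0,[(38,0)]⟩⟩,[.e ⟨false,0,⟨15,[(1,
  11),(11,0),(1,0),(1,1),(7,2),(9,4),(0,0)]⟩,⟨0,[(0,0),(9,0),(16,0),(9,0)]⟩⟩ ⟨false,0,⟨0,[(1,0)]⟩,
  ⟨1,[(26,1),(0,1),(12,0),(0,0)]⟩⟩,.o ⟨false,1,⟨0,[(3,0),(11,0),(25,0)]⟩,⟨0,[(26,0)]⟩⟩,.o ⟨false,1,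
  ⟨3,[(4,0),(2,0),(12,0),(6,3),(8,0)]⟩,⟨0,[(16,0)]⟩⟩,.a ⟨true,0,⟨0,[(27,0)]⟩,⟨0,[(24,0)]⟩⟩ ⟨false,0,
  ⟨0,[(1,0)]⟩,⟨0,[(26,0),(0,0),(13,0)]⟩⟩ ⟨true,0,⟨0,[(1,0)]⟩,⟨0,[(26,0),(0,0)]⟩⟩]⟩)) (.S ⟨1,0,[0,1,
  1,1,0,0,0,-1],[1,1,-1],[1,0,1,0,0,0,0,-1],(⟨0,[(28,0),(1,0)]⟩,⟨0,[(18,0)]⟩),⟨0,[(28,0)]⟩,.k,.k,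
  ⟨false,1,⟨0,[(37,0),(2,0)]⟩,⟨0,[(38,0)]⟩⟩,⟨true,0,⟨0,[(42,0)]⟩,⟨0,[]⟩⟩,⟨true,0,⟨0,[]⟩,⟨0,[(42,
  0)]⟩⟩,⟨false,0,⟨0,[(38,0)]⟩,⟨0,[(37,0),(2,0)]⟩⟩,[.o ⟨false,0,⟨0,[(25,0),(12,0)]⟩,⟨1,[(1,0),(0,0),
  (5,0),(5,1),(25,0)]⟩⟩,.o ⟨false,0,⟨0,[(0,0),(1,0),(20,0)]⟩,⟨1,[(14,1),(20,0),(4,0)]⟩⟩,.a ⟨true,0,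
  ⟨0,[(23,0)]⟩,⟨0,[(26,0)]⟩⟩ ⟨true,0,⟨0,[(0,0)]⟩,⟨0,[(2,0),(11,0),(8,0)]⟩⟩ ⟨false,0,⟨0,[(0,0),(37,
  0)]⟩,⟨1,[(1,0),(0,0),(5,0),(5,1),(8,1),(16,0)]⟩⟩,.o ⟨false,0,⟨0,[(15,0)]⟩,⟨3,[(3,0),(2,0),(12,0),
  (6,3),(8,0)]⟩⟩]⟩)))) (.R ⟨1,false,false,false,[1,-1],[1,0,0,0,-1],[0,0,-1,-1],(⟨0,[(29,0)]⟩,⟨0,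
  [(30,0)]⟩),(⟨0,[(18,0)]⟩,⟨0,[(19,0)]⟩),⟨0,[(14,0),(0,0)]⟩,.k,.k,(.r (-1) ⟨2,[(5,1),(11,1),(15,3),
  (2,0)]⟩ ⟨1,[(2,1),(13,0),(0,0),(17,1),(1,0)]⟩),(.r 0 ⟨0,[(33,0)]⟩ ⟨3,[(2,1),(13,2),(0,2),(17,1),
  (1,2)]⟩),(.r (-1) ⟨2,[(5,0),(11,0),(15,1),(0,2),(1,1)]⟩ ⟨0,[(2,0),(32,0),(1,0)]⟩),.k,⟨true,0,⟨0,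
  [(33,0)]⟩,⟨0,[(2,0),(34,0)]⟩⟩,⟨false,1,⟨0,[(6,0),(26,1),(1,1)]⟩,⟨1,[(17,1),(5,0),(0,0)]⟩⟩,⟨false,
  1,⟨1,[(16,0),(0,0),(19,0)]⟩,⟨0,[]⟩⟩,⟨false,1,⟨0,[(6,0),(28,0)]⟩,⟨0,[(17,0),(16,0)]⟩⟩,⟨true,0,⟨0,
  [(35,0)]⟩,⟨0,[(34,0)]⟩⟩,⟨false,1,⟨0,[(6,0),(28,1)]⟩,⟨1,[(0,0),(3,0),(0,0),(11,1),(15,1),(0,0)]⟩⟩,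
  [.o ⟨false,1,⟨0,[(10,0)]⟩,⟨0,[(4,0)]⟩⟩,.o ⟨false,1,⟨0,[(6,0)]⟩,⟨0,[(4,0),(34,0)]⟩⟩,.o ⟨false,0,⟨1,
  [(23,0),(0,0)]⟩,⟨1,[(32,0),(3,0)]⟩⟩,.a ⟨true,(-1),⟨0,[(0,0)]⟩,⟨0,[(36,0)]⟩⟩ ⟨true,1,⟨2,[(5,0),(11,
  0),(15,1),(2,1)]⟩,⟨0,[(2,0)]⟩⟩ ⟨false,2,⟨0,[(6,0),(29,0)]⟩,⟨0,[(0,0),(3,0)]⟩⟩]⟩))))) (.S ⟨1,0,[],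
  [1,0,0,0,-1],[1,-1,0,-1],(⟨0,[(14,0)]⟩,⟨0,[(15,0)]⟩),⟨0,[(4,0)]⟩,.k,(.r (-1) ⟨2,[(1,1),(11,1),(15,
  0),(2,0)]⟩ ⟨1,[(5,1),(6,0),(0,0),(19,0)]⟩),⟨false,1,⟨0,[(30,0),(2,0)]⟩,⟨0,[(31,0)]⟩⟩,⟨true,0,⟨0,
  [(35,0)]⟩,⟨0,[]⟩⟩,⟨true,0,⟨0,[]⟩,⟨0,[(35,0)]⟩⟩,⟨false,0,⟨0,[(31,0)]⟩,⟨0,[(30,0),(2,0)]⟩⟩,[.e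
  ⟨false,1,⟨2,[(1,1),(11,1),(15,0),(2,0)]⟩,⟨3,[(5,1),(6,0),(0,0),(17,1),(0,0)]⟩⟩ ⟨false,1,⟨1,[(12,
  0),(0,0),(18,0)]⟩,⟨0,[]⟩⟩,.a ⟨true,0,⟨0,[(0,0)]⟩,⟨0,[(13,0),(21,0)]⟩⟩ ⟨true,1,⟨0,[(1,0),(11,0)]⟩,
  ⟨0,[(5,0)]⟩⟩ ⟨false,1,⟨1,[(32,0),(0,0)]⟩,⟨0,[(35,0)]⟩⟩,.e ⟨false,1,⟨0,[(1,0),(11,0)]⟩,⟨3,[(5,1),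
  (6,0),(0,0),(17,1),(0,0)]⟩⟩ ⟨false,1,⟨1,[(12,0),(0,0),(19,0)]⟩,⟨0,[]⟩⟩,.o ⟨false,0,⟨0,[(3,0)]⟩,⟨1,
  [(13,1),(14,0),(3,0)]⟩⟩]⟩)))

theorem ok2 : chk K t2 r6 = true := by decide +kernel

noncomputable def t4 : Tre :=
  (.Q [0,2,0,0,-1,0,0,0,1,0,0,1] (.p true [0,0,0,0,1] [] (⟨0,[(12,0)]⟩,⟨0,[(11,0)]⟩) .k 0 (⟨0,[]⟩,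
  ⟨0,[]⟩) .k .k) (.Q [0,1,0,-1,0,0,0,0,1,-1,0,1] (.p true [0,0,0,0,1] [1] (⟨0,[(13,0)]⟩,⟨0,[(12,
  0)]⟩) .k 1 (⟨0,[]⟩,⟨0,[]⟩) .k .k) (.Q [0,1,0,1,0,0,0,0,0,-1] (.pp true [-1,1]) (.Q [0,0,-2,0,1,0,
  0,0,0,-1] (.pp true [-1,1]) (.I [1,2,1,0,-1] (.Q [0,-1,0,-1,1,0,0,0,-1,0,0,-1] (.p false [0,0,0,0,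
  1] [] (⟨0,[(17,0)]⟩,⟨0,[(16,0)]⟩) .k 0 (⟨0,[]⟩,⟨0,[]⟩) .k .k) (.Q [0,0,1,0,0,0,0,0,-1,1,0,-1] (.p
  false [0,0,0,0,1] [1] (⟨0,[(18,0)]⟩,⟨0,[(17,0)]⟩) .k 1 (⟨0,[]⟩,⟨0,[]⟩) .k .k) (.S ⟨1,0,[],[1,0,0,
  0,-1],[0,-1],(⟨0,[(18,0)]⟩,⟨0,[(19,0)]⟩),⟨0,[(8,0)]⟩,.k,(.r (-1) ⟨0,[(33,0),(3,0)]⟩ ⟨1,[(9,1),(6,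
  0),(0,0),(19,0)]⟩),⟨false,1,⟨1,[(16,0),(0,0),(19,0)]⟩,⟨0,[]⟩⟩,⟨true,0,⟨0,[(39,0)]⟩,⟨0,[]⟩⟩,⟨true,
  0,⟨0,[(35,0)]⟩,⟨0,[(34,0)]⟩⟩,⟨false,0,⟨0,[(35,0)]⟩,⟨0,[(34,0),(2,0)]⟩⟩,[.e ⟨false,1,⟨1,[(36,0),(0,
  0)]⟩,⟨0,[(39,0)]⟩⟩ ⟨false,1,⟨1,[(16,0),(0,0),(18,0)]⟩,⟨0,[]⟩⟩,.o ⟨false,1,⟨0,[(10,0)]⟩,⟨1,[(4,0),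
  (0,0),(11,0)]⟩⟩,.e ⟨false,1,⟨0,[(37,0)]⟩,⟨0,[(39,0)]⟩⟩ ⟨false,1,⟨1,[(16,0),(0,0),(19,0)]⟩,⟨0,[]⟩⟩,
  .a ⟨true,0,⟨0,[(0,0)]⟩,⟨0,[(7,0)]⟩⟩ ⟨true,1,⟨1,[(36,0),(0,0)]⟩,⟨0,[(2,0)]⟩⟩ ⟨false,1,⟨1,[(36,0),
  (0,0)]⟩,⟨1,[(23,0),(0,0)]⟩⟩]⟩) (.Q [0,0,3,0,-1,0,0,0,0,1] (.pp false [-1,1]) (.Q [0,0,0,-1,0,0,0,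
  0,0,1] (.pp false [-1,1]) (.S ⟨1,0,[0,0,-1,-1],[1,-1],[0,1,-1,-1],(⟨0,[(31,0)]⟩,⟨0,[(32,0)]⟩),⟨0,
  [(16,0),(0,0)]⟩,.k,(.r (-1) ⟨0,[(35,1),(3,0)]⟩ ⟨2,[(1,1),(4,1),(11,0),(0,0),(17,3),(1,0)]⟩),⟨true,
  0,⟨0,[(41,0)]⟩,⟨0,[]⟩⟩,⟨false,1,⟨1,[(18,0),(0,0),(19,0)]⟩,⟨0,[]⟩⟩,⟨false,0,⟨0,[(37,0)]⟩,⟨4,[(0,1),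
  (2,0),(3,1),(10,0),(20,2)]⟩⟩,⟨true,0,⟨0,[(37,0)]⟩,⟨0,[(36,0)]⟩⟩,[.a ⟨true,0,⟨0,[(0,0)]⟩,⟨0,[(37,
  0)]⟩⟩ ⟨true,0,⟨0,[(35,0)]⟩,⟨0,[(1,0),(0,0),(9,0),(24,0)]⟩⟩ ⟨false,1,⟨0,[(0,0),(4,0)]⟩,⟨5,[(1,1),
  (4,1),(11,0),(0,0),(17,3),(1,0)]⟩⟩,.o ⟨false,1,⟨4,[(0,1),(2,0),(3,1),(10,0),(20,2)]⟩,⟨0,[(6,0)]⟩⟩,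
  .o ⟨false,0,⟨5,[(1,1),(16,0),(0,0),(14,0)]⟩,⟨1,[(34,0),(3,0)]⟩⟩,.o ⟨false,0,⟨2,[(1,1),(16,0),(0,
  0),(14,0)]⟩,⟨0,[(5,0)]⟩⟩]⟩) (.I [0,0,1,0,0,0,0,-1] (.I [1,1,2,1,-1,0,0,-1] (.S ⟨1,0,[0,0,0,0,0,0,
  0,1],[0,0,1],[0,1,0,0,0,0,0,1],(⟨0,[(30,0)]⟩,⟨0,[(29,0)]⟩),⟨0,[(19,0)]⟩,.k,.k,⟨true,0,⟨0,[(43,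
  0)]⟩,⟨0,[]⟩⟩,⟨false,1,⟨1,[(20,0),(0,0),(19,0)]⟩,⟨0,[]⟩⟩,⟨false,0,⟨0,[(39,0)]⟩,⟨0,[(38,0),(2,0)]⟩⟩,
  ⟨true,0,⟨0,[(39,0)]⟩,⟨0,[(38,0)]⟩⟩,[.o ⟨false,1,⟨1,[(25,1),(10,0),(4,0)]⟩,⟨0,[(0,0),(3,0),(0,0),
  (18,0)]⟩⟩,.o ⟨false,1,⟨0,[(2,0),(12,0),(25,0)]⟩,⟨0,[(26,0)]⟩⟩,.o ⟨false,1,⟨1,[(27,1),(8,0),(3,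
  0)]⟩,⟨0,[(16,0)]⟩⟩,.a ⟨true,0,⟨0,[(27,0)]⟩,⟨0,[(24,0)]⟩⟩ ⟨true,0,⟨0,[(2,0),(12,0),(8,0)]⟩,⟨0,[(1,
  0)]⟩⟩ ⟨false,1,⟨0,[(2,0),(12,0),(8,0),(16,0)]⟩,⟨0,[(1,0)]⟩⟩]⟩) (.S ⟨1,0,[0,0,1,1,0,0,0,-1],[1,1,
  -1],[1,1,1,0,0,0,0,-1],(⟨0,[(29,0),(1,0)]⟩,⟨0,[(19,0)]⟩),⟨0,[(29,0)]⟩,.k,.k,⟨true,0,⟨0,[(38,0)]⟩,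
  ⟨0,[(39,0)]⟩⟩,⟨false,1,⟨1,[(20,0),(0,0),(19,0)]⟩,⟨0,[]⟩⟩,⟨false,0,⟨0,[]⟩,⟨1,[(20,0),(0,0),(19,
  0)]⟩⟩,⟨true,0,⟨0,[(39,0)]⟩,⟨0,[(38,0)]⟩⟩,[.o ⟨false,0,⟨0,[(1,0),(0,0),(21,0)]⟩,⟨1,[(15,1),(20,0),
  (4,0)]⟩⟩,.o ⟨false,1,⟨0,[(26,0),(12,0),(1,0)]⟩,⟨0,[(0,0),(1,1),(0,0),(23,0),(9,1)]⟩⟩,.a ⟨true,0,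
  ⟨0,[(24,0)]⟩,⟨0,[(27,0)]⟩⟩ ⟨false,0,⟨0,[(1,0)]⟩,⟨3,[(0,1),(1,0),(14,0),(7,1),(13,0),(1,1)]⟩⟩
  ⟨true,0,⟨0,[(1,0),(37,0)]⟩,⟨0,[(0,0),(5,0)]⟩⟩,.o ⟨false,0,⟨0,[(16,0)]⟩,⟨1,[(27,1),(8,0),(3,
  0)]⟩⟩]⟩)) (.I [0,0,1,1,0,0,0,-1] (.R ⟨1,false,false,false,[0,0,1],[0,0,0,0,1],[0,1,1],(⟨0,[(30,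
  0)]⟩,⟨0,[(29,0)]⟩),(⟨0,[(23,0)]⟩,⟨0,[(22,0)]⟩),⟨0,[(19,0)]⟩,.k,.k,.k,.k,(.r (-1) ⟨2,[(1,1),(3,0),
  (3,0),(5,0),(8,0),(16,1)]⟩ ⟨0,[(0,0),(42,0)]⟩),.k,⟨true,0,⟨5,[(3,1),(16,0),(0,0),(14,0)]⟩,⟨0,[]⟩⟩,
  ⟨false,0,⟨1,[(4,0),(6,0),(5,0)]⟩,⟨0,[(14,0),(12,0),(9,0),(1,0)]⟩⟩,⟨true,0,⟨0,[(26,0),(0,0)]⟩,⟨0,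
  [(1,0)]⟩⟩,⟨false,0,⟨1,[(0,0),(2,0),(0,1),(19,0),(1,0),(10,0),(3,0)]⟩,⟨0,[(1,0),(12,0),(12,0)]⟩⟩,
  ⟨false,0,⟨0,[(0,0)]⟩,⟨2,[(1,1),(3,0),(3,0),(5,0),(8,0),(16,1)]⟩⟩,⟨false,0,⟨1,[(0,1),(3,0),(6,0),
  (5,0)]⟩,⟨0,[(1,0),(3,0),(21,0)]⟩⟩,[.o ⟨false,0,⟨1,[(8,0),(0,0),(11,0)]⟩,⟨0,[(14,0)]⟩⟩,.o ⟨false,0,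
  ⟨3,[(3,0),(0,2),(16,0),(14,0)]⟩,⟨0,[(20,0)]⟩⟩,.o ⟨false,1,⟨1,[(27,1),(8,0),(3,0)]⟩,⟨0,[(16,0)]⟩⟩,
  .a ⟨true,0,⟨0,[(27,0)]⟩,⟨0,[(24,0)]⟩⟩ ⟨true,0,⟨0,[(43,0)]⟩,⟨0,[]⟩⟩ ⟨false,0,⟨1,[(4,0),(6,0),(5,
  0)]⟩,⟨0,[(14,0),(12,0)]⟩⟩]⟩) (.S ⟨1,0,[0,0,0,0,0,0,0,1],[0,0,1],[1,1,0,-1,0,0,0,1],(⟨0,[(30,0)]⟩,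
  ⟨0,[(29,0)]⟩),⟨0,[(19,0)]⟩,.k,.k,⟨true,0,⟨0,[(38,0)]⟩,⟨0,[(39,0)]⟩⟩,⟨false,1,⟨1,[(20,0),(0,0),(19,
  0)]⟩,⟨0,[]⟩⟩,⟨false,0,⟨0,[]⟩,⟨1,[(20,0),(0,0),(19,0)]⟩⟩,⟨true,0,⟨0,[(39,0)]⟩,⟨0,[(38,0)]⟩⟩,[.o
  ⟨false,0,⟨0,[(0,0),(1,0),(24,0)]⟩,⟨1,[(20,0),(0,0),(4,1),(14,0)]⟩⟩,.o ⟨false,1,⟨1,[(1,1),(25,1),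
  (8,0),(4,0)]⟩,⟨0,[(26,0)]⟩⟩,.o ⟨false,1,⟨1,[(27,1),(8,0),(3,0)]⟩,⟨0,[(16,0)]⟩⟩,.a ⟨true,0,⟨0,[(27,
  0)]⟩,⟨0,[(24,0)]⟩⟩ ⟨false,0,⟨0,[(0,0)]⟩,⟨0,[(26,0),(0,0),(11,0),(1,0)]⟩⟩ ⟨true,0,⟨0,[(0,0),(1,0),
  (15,0),(0,0),(11,1)]⟩,⟨0,[(26,0),(0,0)]⟩⟩]⟩)))) (.Q [0,0,0,0,0,0,1,1,0,-1,1] (.p true [0,0,1] [1]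
  (⟨0,[(27,0)]⟩,⟨0,[(26,0)]⟩) .k 1 (⟨0,[]⟩,⟨0,[]⟩) .k .k) (.S ⟨1,0,[0,0,0,0,0,0,0,1],[0,0,1],[0,1,0,
  0,0,0,0,1],(⟨0,[(28,0)]⟩,⟨0,[(27,0)]⟩),⟨0,[(17,0)]⟩,.k,.k,⟨true,0,⟨0,[(41,0)]⟩,⟨0,[]⟩⟩,⟨false,1,
  ⟨1,[(18,0),(0,0),(19,0)]⟩,⟨0,[]⟩⟩,⟨false,0,⟨0,[(37,0)]⟩,⟨0,[(36,0),(2,0)]⟩⟩,⟨true,0,⟨0,[(37,0)]⟩,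
  ⟨0,[(36,0)]⟩⟩,[.o ⟨false,0,⟨0,[(0,0)]⟩,⟨1,[(18,0),(0,0),(4,1),(14,0)]⟩⟩,.o ⟨false,1,⟨3,[(0,1),(22,
  1),(10,0),(4,2)]⟩,⟨0,[(24,0)]⟩⟩,.o ⟨false,1,⟨1,[(25,1),(8,0),(3,0)]⟩,⟨0,[(14,0)]⟩⟩,.a ⟨true,0,⟨0,
  [(25,0)]⟩,⟨0,[(22,0)]⟩⟩ ⟨false,0,⟨0,[(0,0),(21,0)]⟩,⟨0,[(24,0),(0,0),(13,0)]⟩⟩ ⟨true,0,⟨0,[(0,0),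
  (21,0)]⟩,⟨0,[(24,0),(0,0)]⟩⟩]⟩) (.I [0,-1,-2,-2,1] (.Q [0,0,2,0,0,0,0,0,-1,1,0,-1] (.p false [0,0,
  0,0,1] [1] (⟨0,[(22,0)]⟩,⟨0,[(21,0)]⟩) .k 1 (⟨0,[]⟩,⟨0,[]⟩) .k .k) (.Q [0,0,0,-1,0,0,0,0,0,1]
  (.pp false [-1,1]) (.R ⟨1,false,false,true,[1,0,0,0,-1],[0,1],[0,-1],(⟨0,[(23,0)]⟩,⟨0,[(24,0)]⟩),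
  (⟨0,[(35,0)]⟩,⟨0,[(34,0)]⟩),⟨0,[(13,0)]⟩,.k,.k,(.r (-1) ⟨3,[(2,1),(18,0),(0,0),(19,0)]⟩ ⟨2,[(1,0),
  (7,0),(4,0),(6,0),(0,1),(17,0)]⟩),(.r (-1) ⟨3,[(2,1),(18,0),(0,0),(19,0)]⟩ ⟨2,[(1,0),(7,0),(4,0),
  (6,0),(0,1),(17,0)]⟩),(.r (-1) ⟨0,[(2,0)]⟩ ⟨0,[(1,0),(7,0),(12,0),(17,0)]⟩),.k,⟨false,2,⟨3,[(2,1),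
  (18,0),(0,0),(18,1),(0,2)]⟩,⟨0,[(14,0)]⟩⟩,⟨true,0,⟨0,[(5,0)]⟩,⟨0,[(1,0)]⟩⟩,⟨false,1,⟨1,[(21,0),(0,
  0),(19,0)]⟩,⟨0,[]⟩⟩,⟨true,(-1),⟨0,[(5,0),(8,0)]⟩,⟨0,[(0,0),(14,0)]⟩⟩,⟨true,0,⟨0,[(40,0)]⟩,⟨0,[(39,
  0)]⟩⟩,⟨true,(-1),⟨0,[(5,0),(8,0),(25,0)]⟩,⟨0,[(1,0),(0,0)]⟩⟩,[.o ⟨false,0,⟨0,[(9,0)]⟩,⟨4,[(0,0),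
  (0,0),(0,0),(7,1),(10,0),(20,2)]⟩⟩,.a ⟨true,0,⟨0,[(40,0)]⟩,⟨0,[(0,0)]⟩⟩ ⟨true,1,⟨0,[(42,0)]⟩,⟨0,
  [(7,0)]⟩⟩ ⟨false,0,⟨0,[(5,0),(34,0)]⟩,⟨0,[(0,0),(20,0)]⟩⟩,.o ⟨false,1,⟨0,[(21,0)]⟩,⟨1,[(5,1),(22,
  0),(0,0)]⟩⟩,.o ⟨false,1,⟨3,[(1,1),(19,2),(0,0),(14,0)]⟩,⟨0,[(5,0)]⟩⟩]⟩) (.Q [0,1,0,-1,0,0,1,1,0,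
  -1,1] (.p true [0,0,1] [1] (⟨0,[(31,0)]⟩,⟨0,[(30,0)]⟩) .k 1 (⟨0,[]⟩,⟨0,[]⟩) .k .k) (.S ⟨1,0,[0,0,
  1,1,0,0,0,-1],[1,1,-1],[0,1,1,1,0,0,0,-1],(⟨0,[(31,0),(1,0)]⟩,⟨0,[(21,0)]⟩),⟨0,[(31,0)]⟩,.k,.k,
  ⟨true,0,⟨0,[(45,0)]⟩,⟨0,[]⟩⟩,⟨false,1,⟨1,[(22,0),(0,0),(19,0)]⟩,⟨0,[]⟩⟩,⟨false,0,⟨0,[(41,0)]⟩,⟨5,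
  [(2,1),(0,1),(7,1),(10,0),(0,0),(19,2)]⟩⟩,⟨true,0,⟨0,[(41,0)]⟩,⟨0,[(40,0)]⟩⟩,[.o ⟨false,0,⟨0,[(1,
  0),(2,0)]⟩,⟨1,[(17,1),(20,0),(4,0)]⟩⟩,.o ⟨false,1,⟨0,[(4,0),(5,0),(32,0)]⟩,⟨0,[(0,0)]⟩⟩,.a ⟨true,
  0,⟨0,[(26,0)]⟩,⟨0,[(29,0)]⟩⟩ ⟨false,0,⟨0,[(1,0),(2,0),(24,0)]⟩,⟨0,[(0,0),(25,0),(16,0)]⟩⟩ ⟨true,0,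
  ⟨0,[(1,0),(2,0),(24,0)]⟩,⟨0,[(0,0),(25,0)]⟩⟩,.o ⟨false,0,⟨0,[(18,0)]⟩,⟨1,[(29,1),(8,0),(3,
  0)]⟩⟩]⟩) (.S ⟨1,2,[],[1,1,-1],[1,1,1,0,0,0,0,-1],(⟨0,[(31,0),(1,0)]⟩,⟨0,[(21,0)]⟩),⟨0,[(31,0)]⟩,
  .k,.k,⟨true,0,⟨0,[(40,0)]⟩,⟨0,[(41,0)]⟩⟩,⟨false,1,⟨1,[(17,1),(20,0),(4,0)]⟩,⟨0,[(0,0)]⟩⟩,⟨false,0,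
  ⟨0,[]⟩,⟨1,[(22,0),(0,0),(19,0)]⟩⟩,⟨true,0,⟨0,[(1,0),(15,0)]⟩,⟨0,[(4,0)]⟩⟩,[.o ⟨false,0,⟨8,[(1,1),
  (1,0),(1,0),(2,4),(29,2)]⟩,⟨1,[(22,0),(0,0),(19,0)]⟩⟩,.fo,.a ⟨true,0,⟨0,[(26,0)]⟩,⟨0,[(29,0)]⟩⟩
  ⟨false,0,⟨0,[(0,0),(5,0),(0,0),(0,0),(20,0)]⟩,⟨0,[(1,0),(15,0),(8,0),(16,0)]⟩⟩ ⟨true,0,⟨8,[(1,1),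
  (1,0),(1,0),(2,4),(20,8),(8,2)]⟩,⟨0,[(26,0)]⟩⟩,.o ⟨false,0,⟨0,[(18,0)]⟩,⟨1,[(29,1),(8,0),(3,
  0)]⟩⟩]⟩))) (.I [1,0,1,0,0,0,0,-1] (.I [1,1,-1,-1,0,0,0,1] (.I [0,0,0,1,0,0,0,-1] (.S ⟨1,0,[0,0,1,
  1,0,0,0,-1],[1,1,-1],[0,1,1,1,0,0,0,-1],(⟨0,[(32,0),(1,0)]⟩,⟨0,[(22,0)]⟩),⟨0,[(32,0)]⟩,.k,.k,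
  ⟨true,0,⟨0,[(46,0)]⟩,⟨0,[]⟩⟩,⟨false,1,⟨1,[(23,0),(0,0),(19,0)]⟩,⟨0,[]⟩⟩,⟨false,0,⟨0,[(42,0)]⟩,⟨0,
  [(41,0),(2,0)]⟩⟩,⟨true,0,⟨0,[(42,0)]⟩,⟨0,[(41,0)]⟩⟩,[.o ⟨false,0,⟨0,[(0,0),(18,0)]⟩,⟨1,[(18,1),
  (20,0),(4,0)]⟩⟩,.e ⟨false,0,⟨0,[(0,0)]⟩,⟨5,[(1,1),(16,3),(1,1),(18,0),(3,1),(0,2)]⟩⟩ ⟨false,1,⟨1,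
  [(0,1),(22,0),(0,0),(19,0)]⟩,⟨0,[(1,0)]⟩⟩,.a ⟨true,0,⟨0,[(27,0)]⟩,⟨0,[(30,0)]⟩⟩ ⟨false,0,⟨1,[(0,
  0),(1,0),(13,0),(27,0)]⟩,⟨0,[(1,0),(42,0)]⟩⟩ ⟨true,0,⟨1,[(0,0),(1,0),(13,0),(27,0)]⟩,⟨0,[(1,0)]⟩⟩,
  .o ⟨false,0,⟨0,[(19,0)]⟩,⟨1,[(30,1),(8,0),(3,0)]⟩⟩]⟩) (.Q [0,0,0,0,0,0,1,1,0,0,1] (.p true [0,0,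
  1] [] (⟨0,[(33,0)]⟩,⟨0,[(32,0)]⟩) .k 0 (⟨0,[]⟩,⟨0,[]⟩) .k .k) (.R ⟨1,false,false,false,[0,0,1],[0,
  0,0,0,1],[1,1,0,-1,0,0,0,1],(⟨0,[(34,0)]⟩,⟨0,[(33,0)]⟩),(⟨0,[(27,0)]⟩,⟨0,[(26,0)]⟩),⟨0,[(23,0)]⟩,
  .k,.k,.k,.k,(.r (-1) ⟨0,[(2,0),(42,0)]⟩ ⟨3,[(3,3),(13,1),(6,0),(0,0),(17,1),(0,0)]⟩),.k,⟨true,0,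
  ⟨0,[(1,0)]⟩,⟨0,[(3,0),(39,0)]⟩⟩,⟨false,0,⟨1,[(8,0),(6,0),(5,0)]⟩,⟨2,[(7,0),(9,0),(0,2),(12,2),(3,
  0),(1,0),(3,0)]⟩⟩,⟨true,0,⟨0,[(42,0)]⟩,⟨0,[(43,0)]⟩⟩,⟨false,0,⟨2,[(3,0),(2,1),(1,1),(16,0),(6,
  0)]⟩,⟨0,[(0,0),(17,0)]⟩⟩,⟨false,0,⟨0,[]⟩,⟨1,[(24,0),(0,0),(19,0)]⟩⟩,⟨false,0,⟨2,[(3,0),(2,1),(1,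
  1),(16,0),(6,0),(10,2)]⟩,⟨0,[(0,0),(8,0)]⟩⟩,[.o ⟨false,0,⟨1,[(12,0),(0,0),(11,0)]⟩,⟨0,[(18,0)]⟩⟩,
  .o ⟨false,0,⟨1,[(8,1),(22,0),(0,0)]⟩,⟨0,[(24,0)]⟩⟩,.o ⟨false,1,⟨1,[(31,1),(8,0),(3,0)]⟩,⟨0,[(20,
  0)]⟩⟩,.a ⟨true,0,⟨0,[(31,0)]⟩,⟨0,[(28,0)]⟩⟩ ⟨true,0,⟨0,[(2,0)]⟩,⟨0,[(3,0),(39,0)]⟩⟩ ⟨false,0,⟨1,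
  [(8,0),(6,0),(5,0)]⟩,⟨0,[(18,0),(12,0)]⟩⟩]⟩) (.S ⟨1,0,[0,0,0,0,0,0,0,1],[0,0,1],[1,1,0,-1,0,0,0,
  1],(⟨0,[(34,0)]⟩,⟨0,[(33,0)]⟩),⟨0,[(23,0)]⟩,.k,.k,⟨true,0,⟨0,[(42,0)]⟩,⟨0,[(43,0)]⟩⟩,⟨false,1,⟨1,
  [(24,0),(0,0),(19,0)]⟩,⟨0,[]⟩⟩,⟨false,0,⟨0,[]⟩,⟨1,[(24,0),(0,0),(19,0)]⟩⟩,⟨true,0,⟨0,[(43,0)]⟩,⟨0,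
  [(42,0)]⟩⟩,[.o ⟨false,1,⟨1,[(29,1),(10,0),(4,0)]⟩,⟨0,[(0,0)]⟩⟩,.o ⟨false,1,⟨1,[(1,1),(2,0),(7,0),
  (5,0),(12,1),(11,0),(1,0)]⟩,⟨0,[(30,0)]⟩⟩,.o ⟨false,1,⟨1,[(31,1),(8,0),(3,0)]⟩,⟨0,[(20,0)]⟩⟩,.a
  ⟨true,0,⟨0,[(31,0)]⟩,⟨0,[(28,0)]⟩⟩ ⟨true,0,⟨0,[(2,0)]⟩,⟨0,[(3,0),(39,0)]⟩⟩ ⟨false,1,⟨0,[(2,0),(40,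
  0),(1,0)]⟩,⟨0,[(3,0)]⟩⟩]⟩))) (.I [1,-1,-1,-1,1,0,0,1] (.S ⟨1,0,[0,0,1,1,0,0,0,-1],[1,1,-1],[1,1,1,
  0,0,0,0,-1],(⟨0,[(32,0),(1,0)]⟩,⟨0,[(22,0)]⟩),⟨0,[(32,0)]⟩,.k,.k,⟨true,0,⟨0,[(41,0)]⟩,⟨0,[(42,
  0)]⟩⟩,⟨false,1,⟨1,[(23,0),(0,0),(19,0)]⟩,⟨0,[]⟩⟩,⟨false,0,⟨0,[]⟩,⟨1,[(23,0),(0,0),(19,0)]⟩⟩,⟨true,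
  0,⟨0,[(42,0)]⟩,⟨0,[(41,0)]⟩⟩,[.o ⟨false,0,⟨3,[(1,2),(4,0),(9,0),(2,1),(7,0),(1,0)]⟩,⟨1,[(18,1),
  (20,0),(4,0)]⟩⟩,.a ⟨true,0,⟨0,[(1,0),(25,0)]⟩,⟨0,[(18,0)]⟩⟩ ⟨false,0,⟨0,[(1,0),(38,0)]⟩,⟨2,[(0,0),
  (10,0),(8,0),(7,1),(14,0),(0,0)]⟩⟩ ⟨true,0,⟨0,[(1,0)]⟩,⟨0,[(0,0),(8,0)]⟩⟩,.e ⟨false,0,⟨0,[(2,0)]⟩,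
  ⟨0,[(0,0),(41,0)]⟩⟩ ⟨false,0,⟨0,[(1,0)]⟩,⟨8,[(0,6),(11,0),(5,0),(1,0),(2,1),(0,0),(3,0),(9,1)]⟩⟩,
  .o ⟨false,0,⟨0,[(19,0)]⟩,⟨1,[(30,1),(8,0),(3,0)]⟩⟩]⟩) (.R ⟨1,false,false,false,[1,0,0,0,-1],[0,-1,
  1],[0,-1],(⟨0,[(25,0)]⟩,⟨0,[(26,0)]⟩),(⟨0,[(22,0)]⟩,⟨0,[(32,0),(1,0)]⟩),⟨0,[(15,0)]⟩,.k,.k,(.r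
  (-1) ⟨3,[(4,1),(18,0),(0,0),(19,0)]⟩ ⟨1,[(16,1),(6,0),(0,0),(19,0)]⟩),(.r 0 ⟨0,[(1,0)]⟩ ⟨3,[(18,
  3),(1,1),(2,0),(0,0),(14,0),(3,1)]⟩),.k,.k,⟨true,0,⟨0,[(1,0)]⟩,⟨0,[(18,0),(0,0)]⟩⟩,⟨false,0,⟨0,
  [(7,0),(22,0)]⟩,⟨0,[(23,0),(3,0)]⟩⟩,⟨false,1,⟨1,[(23,0),(0,0),(19,0)]⟩,⟨0,[]⟩⟩,⟨true,0,⟨1,[(7,1),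
  (10,1),(11,0),(0,0)]⟩,⟨0,[(0,0),(16,0),(9,0)]⟩⟩,⟨true,0,⟨0,[(42,0)]⟩,⟨0,[(41,0)]⟩⟩,⟨true,0,⟨1,[(7,
  1),(20,1),(1,0),(0,0)]⟩,⟨0,[(0,0),(7,0),(18,0)]⟩⟩,[.o ⟨false,1,⟨1,[(18,1),(20,0),(4,0)]⟩,⟨6,[(0,
  1),(0,3),(4,1),(4,0),(8,2),(8,0)]⟩⟩,.a ⟨true,1,⟨0,[(18,0),(25,0)]⟩,⟨0,[(0,0),(26,0)]⟩⟩ ⟨true,1,⟨0,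
  [(44,0)]⟩,⟨0,[(9,0)]⟩⟩ ⟨false,1,⟨0,[(7,0),(10,0),(25,0)]⟩,⟨0,[(0,0),(22,0),(3,0)]⟩⟩,.o ⟨false,1,
  ⟨0,[(23,0)]⟩,⟨1,[(7,1),(22,0),(0,0)]⟩⟩,.o ⟨false,1,⟨1,[(23,1),(6,0),(0,0)]⟩,⟨0,[(7,0)]⟩⟩]⟩))) (.S
  ⟨1,0,[0,0,0,0,0,0,0,1],[0,0,1],[0,1,0,0,0,0,0,1],(⟨0,[(31,0)]⟩,⟨0,[(30,0)]⟩),⟨0,[(20,0)]⟩,.k,.k,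
  ⟨true,0,⟨0,[(44,0)]⟩,⟨0,[]⟩⟩,⟨false,1,⟨1,[(21,0),(0,0),(19,0)]⟩,⟨0,[]⟩⟩,⟨false,0,⟨0,[(40,0)]⟩,⟨0,
  [(39,0),(2,0)]⟩⟩,⟨true,0,⟨0,[(40,0)]⟩,⟨0,[(39,0)]⟩⟩,[.e ⟨false,0,⟨15,[(0,11),(13,0),(1,0),(1,1),
  (7,2),(9,4),(0,0)]⟩,⟨1,[(1,0),(1,0),(11,0),(11,0),(0,1),(13,0)]⟩⟩ ⟨false,0,⟨0,[(0,0)]⟩,⟨1,[(27,1),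
  (0,1),(12,0),(0,0)]⟩⟩,.o ⟨false,1,⟨1,[(0,1),(27,1),(8,0),(4,0)]⟩,⟨0,[(27,0)]⟩⟩,.o ⟨false,1,⟨1,
  [(28,1),(8,0),(3,0)]⟩,⟨0,[(17,0)]⟩⟩,.a ⟨true,0,⟨0,[(28,0)]⟩,⟨0,[(25,0)]⟩⟩ ⟨false,0,⟨0,[(0,0)]⟩,⟨0,
  [(27,0),(0,0),(13,0)]⟩⟩ ⟨true,0,⟨0,[(0,0)]⟩,⟨0,[(27,0),(0,0)]⟩⟩]⟩))) (.I [1,-2,0,-1,1] (.Q [0,0,0,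
  -1,0,0,0,0,0,1] (.pp false [-1,1]) (.S ⟨1,0,[0,0,-1,-1],[1,-1],[0,1,-1,-1],(⟨0,[(34,0)]⟩,⟨0,[(35,
  0)]⟩),⟨0,[(19,0),(0,0)]⟩,.k,(.r (-1) ⟨1,[(0,0),(0,0),(2,0),(33,0),(0,0)]⟩ ⟨1,[(2,1),(18,0),(0,0),
  (19,0)]⟩),⟨true,0,⟨0,[(44,0)]⟩,⟨0,[]⟩⟩,⟨false,1,⟨1,[(21,0),(0,0),(19,0)]⟩,⟨0,[]⟩⟩,⟨false,0,⟨0,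
  [(40,0)]⟩,⟨4,[(0,0),(0,2),(8,0),(10,1),(0,0)]⟩⟩,⟨true,0,⟨0,[(40,0)]⟩,⟨0,[(39,0)]⟩⟩,[.a ⟨true,0,⟨0,
  [(0,0)]⟩,⟨0,[(40,0)]⟩⟩ ⟨true,0,⟨0,[(38,0)]⟩,⟨0,[(1,0),(0,0)]⟩⟩ ⟨false,1,⟨4,[(0,1),(0,0),(2,1),(34,
  1),(1,1)]⟩,⟨3,[(2,1),(18,0),(0,0),(19,0)]⟩⟩,.o ⟨false,1,⟨4,[(0,0),(0,2),(8,0),(10,1),(0,0)]⟩,⟨0,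
  [(9,0)]⟩⟩,.o ⟨false,0,⟨1,[(28,0),(0,0)]⟩,⟨1,[(37,0),(3,0)]⟩⟩,.o ⟨false,0,⟨0,[(28,0),(0,0)]⟩,⟨0,
  [(8,0)]⟩⟩]⟩) (.Q [0,-1,0,-1,1,0,1,1,-1,0,1,-1] (.p true [0,0,1] [0,0,0,0,1] (⟨0,[(31,0)]⟩,⟨0,[(30,
  0)]⟩) .k 2 (⟨0,[(24,0)]⟩,⟨0,[(23,0)]⟩) .k (.r (-1) ⟨0,[(17,0),(8,0),(15,0)]⟩ ⟨0,[(0,0),(2,0),(24,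
  0),(9,0)]⟩)) (.S ⟨1,0,[0,0,1,1,0,0,0,-1],[1,1,-1],[0,1,1,1,0,0,0,-1],(⟨0,[(31,0),(1,0)]⟩,⟨0,[(21,
  0)]⟩),⟨0,[(31,0)]⟩,.k,.k,⟨true,0,⟨0,[(45,0)]⟩,⟨0,[]⟩⟩,⟨false,1,⟨1,[(22,0),(0,0),(19,0)]⟩,⟨0,[]⟩⟩,
  ⟨false,0,⟨0,[(41,0)]⟩,⟨2,[(2,1),(19,0),(0,0),(16,0)]⟩⟩,⟨true,0,⟨0,[(41,0)]⟩,⟨0,[(40,0)]⟩⟩,[.o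
  ⟨false,0,⟨0,[(1,0),(2,0)]⟩,⟨2,[(0,1),(10,0),(11,0),(3,0),(10,0)]⟩⟩,.o ⟨false,1,⟨7,[(3,3),(0,1),(0,
  1),(22,5),(13,0),(0,8)]⟩,⟨0,[(0,0),(5,0),(1,0)]⟩⟩,.a ⟨true,0,⟨0,[(26,0)]⟩,⟨0,[(29,0)]⟩⟩ ⟨false,0,
  ⟨0,[(1,0),(2,0),(24,0)]⟩,⟨1,[(0,1),(5,0),(6,0),(5,0)]⟩⟩ ⟨true,0,⟨0,[(1,0),(2,0),(24,0)]⟩,⟨0,[(0,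
  0),(5,0),(1,0),(17,0)]⟩⟩,.o ⟨false,0,⟨0,[(18,0)]⟩,⟨1,[(29,1),(8,0),(3,0)]⟩⟩]⟩) (.S ⟨1,0,[0,0,0,0,
  0,0,0,1],[0,0,1],[0,1,0,0,0,0,0,1],(⟨0,[(32,0)]⟩,⟨0,[(31,0)]⟩),⟨0,[(21,0)]⟩,.k,.k,⟨true,0,⟨0,[(45,
  0)]⟩,⟨0,[]⟩⟩,⟨false,1,⟨1,[(22,0),(0,0),(19,0)]⟩,⟨0,[]⟩⟩,⟨false,0,⟨0,[(41,0)]⟩,⟨2,[(2,1),(19,0),(0,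
  0),(16,0)]⟩⟩,⟨true,0,⟨0,[(41,0)]⟩,⟨0,[(40,0)]⟩⟩,[.o ⟨false,1,⟨1,[(27,1),(10,0),(4,0)]⟩,⟨0,[(0,0),
  (6,0)]⟩⟩,.o ⟨false,1,⟨0,[(1,0),(15,0),(25,0)]⟩,⟨0,[(28,0)]⟩⟩,.o ⟨false,1,⟨1,[(29,1),(8,0),(3,0)]⟩,
  ⟨0,[(18,0)]⟩⟩,.a ⟨true,0,⟨0,[(29,0)]⟩,⟨0,[(26,0)]⟩⟩ ⟨true,0,⟨0,[(1,0),(15,0),(8,0)]⟩,⟨0,[(0,0),(6,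
  0),(21,0)]⟩⟩ ⟨false,1,⟨0,[(1,0),(15,0),(8,0),(16,0)]⟩,⟨0,[(0,0),(6,0),(21,0)]⟩⟩]⟩))) (.Q [0,1,0,2,
  -1,0,0,0,1,-1,0,1] (.p true [0,0,0,0,1] [1] (⟨0,[(23,0)]⟩,⟨0,[(22,0)]⟩) .k 1 (⟨0,[]⟩,⟨0,[]⟩) .k
  .k) (.Q [0,-1,0,1,0,0,-1,-1,0,1,-1] (.p false [0,0,1] [1] (⟨0,[(31,0)]⟩,⟨0,[(30,0)]⟩) .k 1 (⟨0,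
  []⟩,⟨0,[]⟩) .k .k) (.S ⟨1,2,[],[1,1,-1],[1,1,1,0,0,0,0,-1],(⟨0,[(31,0),(1,0)]⟩,⟨0,[(21,0)]⟩),⟨0,
  [(31,0)]⟩,.k,.k,⟨true,0,⟨0,[(40,0)]⟩,⟨0,[(41,0)]⟩⟩,⟨false,1,⟨1,[(17,1),(20,0),(4,0)]⟩,⟨0,[(0,
  0)]⟩⟩,⟨false,0,⟨0,[]⟩,⟨1,[(22,0),(0,0),(19,0)]⟩⟩,⟨true,0,⟨0,[(1,0),(5,0),(9,0)]⟩,⟨0,[(4,0)]⟩⟩,[.o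
  ⟨false,0,⟨6,[(1,0),(3,0),(0,0),(0,1),(0,3),(29,1)]⟩,⟨1,[(22,0),(0,0),(19,0)]⟩⟩,.fo,.a ⟨true,0,⟨0,
  [(26,0)]⟩,⟨0,[(29,0)]⟩⟩ ⟨false,0,⟨0,[(0,0),(5,0),(0,0),(0,0),(20,0)]⟩,⟨0,[(1,0),(5,0),(9,0),(8,0),
  (16,0)]⟩⟩ ⟨true,0,⟨6,[(1,0),(3,0),(0,0),(0,1),(0,3),(20,6),(8,1)]⟩,⟨0,[(26,0)]⟩⟩,.o ⟨false,0,⟨0,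
  [(18,0)]⟩,⟨1,[(29,1),(8,0),(3,0)]⟩⟩]⟩) (.S ⟨1,0,[0,0,1,1,0,0,0,-1],[1,1,-1],[0,1,1,1,0,0,0,-1],
  (⟨0,[(31,0),(1,0)]⟩,⟨0,[(21,0)]⟩),⟨0,[(31,0)]⟩,.k,.k,⟨true,0,⟨0,[(45,0)]⟩,⟨0,[]⟩⟩,⟨false,1,⟨1,
  [(22,0),(0,0),(19,0)]⟩,⟨0,[]⟩⟩,⟨false,0,⟨0,[(41,0)]⟩,⟨0,[(40,0),(2,0)]⟩⟩,⟨true,0,⟨0,[(41,0)]⟩,⟨0,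
  [(40,0)]⟩⟩,[.o ⟨false,0,⟨0,[(1,0),(2,0),(2,0)]⟩,⟨1,[(17,1),(20,0),(4,0)]⟩⟩,.o ⟨false,1,⟨7,[(3,3),
  (0,1),(0,1),(22,5),(13,0),(0,8)]⟩,⟨0,[(0,0)]⟩⟩,.a ⟨true,0,⟨0,[(26,0)]⟩,⟨0,[(29,0)]⟩⟩ ⟨false,0,⟨0,
  [(1,0),(2,0),(2,0),(21,0)]⟩,⟨0,[(0,0),(25,0),(16,0)]⟩⟩ ⟨true,0,⟨0,[(1,0),(2,0),(2,0),(21,0)]⟩,⟨0,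
  [(0,0),(25,0)]⟩⟩,.o ⟨false,0,⟨0,[(18,0)]⟩,⟨1,[(29,1),(8,0),(3,0)]⟩⟩]⟩)) (.I [0,1,2,2,-1] (.Q [0,0,
  0,-1,0,0,0,0,0,1] (.pp false [-1,1]) (.S ⟨1,0,[0,1,-1,-1],[1,-1],[1,0,-1,-2],(⟨0,[(36,0)]⟩,⟨0,
  [(37,0)]⟩),⟨0,[(21,0),(0,0)]⟩,.k,(.r (-1) ⟨5,[(2,3),(3,1),(0,0),(4,0),(1,1),(25,2)]⟩ ⟨1,[(1,1),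
  (21,0),(0,0),(19,0)]⟩),⟨false,1,⟨3,[(2,1),(21,1),(14,0),(4,0)]⟩,⟨0,[(42,0)]⟩⟩,⟨true,0,⟨0,[(46,
  0)]⟩,⟨0,[]⟩⟩,⟨true,0,⟨0,[]⟩,⟨0,[(46,0)]⟩⟩,⟨false,0,⟨0,[(42,0)]⟩,⟨3,[(2,1),(21,1),(14,0),(4,0)]⟩⟩,
  [.o ⟨false,0,⟨0,[(41,0)]⟩,⟨0,[(11,0),(32,0)]⟩⟩,.a ⟨true,0,⟨0,[(0,0)]⟩,⟨0,[(42,0)]⟩⟩ ⟨true,1,⟨0,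
  [(2,0),(4,0)]⟩,⟨0,[(1,0)]⟩⟩ ⟨false,1,⟨8,[(2,2),(3,1),(5,0),(1,1),(25,1),(2,3)]⟩,⟨3,[(1,1),(21,0),
  (0,0),(19,0)]⟩⟩,.o ⟨false,0,⟨1,[(30,0),(0,0)]⟩,⟨1,[(39,0),(3,0)]⟩⟩,.o ⟨false,0,⟨0,[(30,0),(0,0)]⟩,
  ⟨0,[(10,0)]⟩⟩]⟩) (.Q [0,0,0,0,0,0,-1,-1,0,0,-1] (.p false [0,0,1] [] (⟨0,[(33,0)]⟩,⟨0,[(32,0)]⟩)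
  .k 0 (⟨0,[]⟩,⟨0,[]⟩) .k .k) (.S ⟨1,0,[0,0,0,0,0,0,0,1],[0,0,1],[0,1,0,0,0,0,0,1],(⟨0,[(34,0)]⟩,⟨0,
  [(33,0)]⟩),⟨0,[(23,0)]⟩,.k,.k,⟨true,0,⟨0,[(47,0)]⟩,⟨0,[]⟩⟩,⟨false,1,⟨1,[(24,0),(0,0),(19,0)]⟩,⟨0,
  []⟩⟩,⟨false,0,⟨0,[(43,0)]⟩,⟨3,[(3,1),(21,1),(14,0),(4,0)]⟩⟩,⟨true,0,⟨0,[(43,0)]⟩,⟨0,[(42,0)]⟩⟩,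
  [.o ⟨false,1,⟨1,[(29,1),(10,0),(4,0)]⟩,⟨0,[(0,0)]⟩⟩,.o ⟨false,1,⟨0,[(1,0),(17,0),(25,0)]⟩,⟨0,[(30,
  0)]⟩⟩,.o ⟨false,1,⟨1,[(31,1),(8,0),(3,0)]⟩,⟨0,[(20,0)]⟩⟩,.a ⟨true,0,⟨0,[(31,0)]⟩,⟨0,[(28,0)]⟩⟩
  ⟨true,0,⟨0,[(1,0),(17,0),(8,0)]⟩,⟨0,[(0,0),(30,0)]⟩⟩ ⟨false,1,⟨0,[(1,0),(17,0),(8,0),(16,0)]⟩,⟨0,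
  [(0,0),(30,0)]⟩⟩]⟩) (.R ⟨2,true,false,false,[0,1],[0,0,1],[1,1,1],(⟨0,[]⟩,⟨0,[]⟩),(⟨0,[(34,0)]⟩,
  ⟨0,[(33,0)]⟩),⟨0,[]⟩,.k,.k,.k,.k,.k,.k,⟨false,0,⟨0,[(1,0),(4,0),(24,0),(9,0)]⟩,⟨7,[(0,7),(6,1),
  (13,3),(18,0),(3,0),(0,3)]⟩⟩,⟨true,0,⟨0,[(31,0)]⟩,⟨0,[(20,0)]⟩⟩,⟨true,0,⟨0,[(42,0)]⟩,⟨0,[(43,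
  0)]⟩⟩,⟨false,1,⟨0,[(19,0),(25,0)]⟩,⟨0,[(1,0),(4,0)]⟩⟩,⟨false,0,⟨0,[]⟩,⟨1,[(24,0),(0,0),(19,0)]⟩⟩,
  ⟨true,0,⟨0,[(0,0)]⟩,⟨0,[(30,0)]⟩⟩,[]⟩))) (.Q [0,0,0,-1,0,0,0,0,0,1] (.pp false [-1,1]) (.S ⟨1,0,
  [0,0,-1,-1],[1,-1],[1,1,-1,-2],(⟨0,[(36,0)]⟩,⟨0,[(37,0)]⟩),⟨0,[(21,0),(0,0)]⟩,.k,(.r (-1) ⟨10,[(1,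
  7),(0,1),(9,1),(25,3),(4,0)]⟩ ⟨1,[(4,1),(18,0),(0,0),(19,0)]⟩),⟨true,0,⟨0,[(41,0)]⟩,⟨0,[(42,0)]⟩⟩,
  ⟨false,1,⟨1,[(23,0),(0,0),(19,0)]⟩,⟨0,[]⟩⟩,⟨false,0,⟨0,[]⟩,⟨1,[(23,0),(0,0),(19,0)]⟩⟩,⟨true,0,⟨0,
  [(42,0)]⟩,⟨0,[(41,0)]⟩⟩,[.a ⟨true,0,⟨0,[(0,0)]⟩,⟨0,[(42,0)]⟩⟩ ⟨true,0,⟨0,[(1,0),(7,0)]⟩,⟨0,[(4,0),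
  (39,0)]⟩⟩ ⟨false,1,⟨10,[(1,3),(0,0),(9,0),(25,1),(4,5)]⟩,⟨3,[(4,1),(18,0),(0,0),(19,0)]⟩⟩,.o
  ⟨false,1,⟨3,[(2,1),(21,1),(14,0),(4,0)]⟩,⟨0,[(11,0)]⟩⟩,.o ⟨false,0,⟨1,[(30,0),(0,0)]⟩,⟨1,[(39,0),
  (3,0)]⟩⟩,.o ⟨false,0,⟨0,[(30,0),(0,0)]⟩,⟨0,[(10,0)]⟩⟩]⟩) (.Q [0,-1,0,1,0,0,-1,-1,0,1,-1] (.p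
  false [0,0,1] [1] (⟨0,[(33,0)]⟩,⟨0,[(32,0)]⟩) .k 1 (⟨0,[]⟩,⟨0,[]⟩) .k .k) (.S ⟨1,2,[],[1,1,-1],[1,
  1,1,0,0,0,0,-1],(⟨0,[(33,0),(1,0)]⟩,⟨0,[(23,0)]⟩),⟨0,[(33,0)]⟩,.k,.k,⟨true,0,⟨0,[(42,0)]⟩,⟨0,[(43,
  0)]⟩⟩,⟨false,1,⟨1,[(19,1),(20,0),(4,0)]⟩,⟨0,[(0,0)]⟩⟩,⟨false,0,⟨0,[]⟩,⟨1,[(24,0),(0,0),(19,0)]⟩⟩,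
  ⟨true,0,⟨0,[(1,0),(17,0)]⟩,⟨0,[(6,0)]⟩⟩,[.o ⟨false,0,⟨8,[(1,1),(0,0),(4,0),(2,4),(29,2)]⟩,⟨1,[(24,
  0),(0,0),(19,0)]⟩⟩,.fo,.a ⟨true,0,⟨0,[(28,0)]⟩,⟨0,[(31,0)]⟩⟩ ⟨false,0,⟨0,[(0,0),(7,0),(0,0),(0,0),
  (20,0)]⟩,⟨0,[(1,0),(17,0),(8,0),(16,0)]⟩⟩ ⟨true,0,⟨8,[(1,1),(0,0),(4,0),(2,4),(20,8),(8,2)]⟩,⟨0,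
  [(28,0)]⟩⟩,.o ⟨false,0,⟨0,[(20,0)]⟩,⟨1,[(31,1),(8,0),(3,0)]⟩⟩]⟩) (.S ⟨1,0,[0,0,1,1,0,0,0,-1],[1,1,
  -1],[0,1,1,1,0,0,0,-1],(⟨0,[(33,0),(1,0)]⟩,⟨0,[(23,0)]⟩),⟨0,[(33,0)]⟩,.k,.k,⟨true,0,⟨0,[(47,0)]⟩,
  ⟨0,[]⟩⟩,⟨false,1,⟨1,[(24,0),(0,0),(19,0)]⟩,⟨0,[]⟩⟩,⟨false,0,⟨0,[(43,0)]⟩,⟨3,[(3,1),(21,1),(14,0),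
  (4,0)]⟩⟩,⟨true,0,⟨0,[(43,0)]⟩,⟨0,[(42,0)]⟩⟩,[.o ⟨false,0,⟨0,[(1,0),(4,0)]⟩,⟨1,[(19,1),(20,0),(4,
  0)]⟩⟩,.o ⟨false,1,⟨7,[(5,3),(0,1),(0,1),(22,5),(13,0),(0,8)]⟩,⟨0,[(0,0)]⟩⟩,.a ⟨true,0,⟨0,[(28,
  0)]⟩,⟨0,[(31,0)]⟩⟩ ⟨false,0,⟨0,[(1,0),(4,0),(24,0)]⟩,⟨0,[(0,0),(27,0),(16,0)]⟩⟩ ⟨true,0,⟨0,[(1,0),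
  (4,0),(24,0)]⟩,⟨0,[(0,0),(27,0)]⟩⟩,.o ⟨false,0,⟨0,[(20,0)]⟩,⟨1,[(31,1),(8,0),(3,0)]⟩⟩]⟩))))))))))
  (.R ⟨2,true,false,true,[0,1],[0,1,0,0,1],[0,0,1,1],(⟨0,[]⟩,⟨0,[]⟩),(⟨0,[(18,0),(7,0)]⟩,⟨0,[(7,
  0)]⟩),⟨0,[]⟩,.k,(.r 0 ⟨1,[(8,1),(6,0),(0,0),(19,0)]⟩ ⟨0,[(32,0),(3,0)]⟩),.k,.k,(.r (-1) ⟨0,[(32,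
  0),(3,0)]⟩ ⟨1,[(8,1),(6,0),(0,0),(19,0)]⟩),.k,⟨true,1,⟨0,[(36,0)]⟩,⟨0,[(1,0)]⟩⟩,⟨false,0,⟨0,[(6,
  0)]⟩,⟨0,[(15,0)]⟩⟩,⟨false,1,⟨1,[(15,0),(0,0),(19,0)]⟩,⟨0,[]⟩⟩,⟨true,(-1),⟨0,[(5,0)]⟩,⟨0,[(9,0)]⟩⟩,
  ⟨true,0,⟨0,[(34,0)]⟩,⟨0,[(33,0)]⟩⟩,⟨false,(-1),⟨0,[(0,0)]⟩,⟨0,[(9,0),(23,0),(2,0)]⟩⟩,[]⟩)) (.Q [0,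
  0,1,0,0,0,0,0,-1,1,0,-1] (.p false [0,0,0,0,1] [1] (⟨0,[(17,0)]⟩,⟨0,[(16,0)]⟩) .k 1 (⟨0,[]⟩,⟨0,
  []⟩) .k .k) (.S ⟨1,0,[],[1,0,0,0,-1],[0,1,1],(⟨0,[(17,0)]⟩,⟨0,[(18,0)]⟩),⟨0,[(7,0)]⟩,.k,(.r (-1)
  ⟨0,[(1,0),(31,0)]⟩ ⟨1,[(8,1),(6,0),(0,0),(19,0)]⟩),⟨false,0,⟨1,[(22,0),(0,0),(14,1)]⟩,⟨0,[(1,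
  0)]⟩⟩,⟨true,0,⟨0,[(38,0)]⟩,⟨0,[]⟩⟩,⟨true,(-1),⟨0,[(8,0)]⟩,⟨0,[(1,0),(31,0)]⟩⟩,⟨false,0,⟨0,[(34,
  0)]⟩,⟨0,[(33,0),(2,0)]⟩⟩,[.e ⟨false,0,⟨0,[(38,0)]⟩,⟨1,[(35,0),(0,0)]⟩⟩ ⟨false,1,⟨1,[(15,0),(0,0),
  (18,0)]⟩,⟨0,[]⟩⟩,.o ⟨false,1,⟨0,[(9,0)]⟩,⟨1,[(3,0),(0,0),(11,0)]⟩⟩,.e ⟨false,0,⟨1,[(22,0),(0,0)]⟩,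
  ⟨1,[(35,0),(0,0)]⟩⟩ ⟨false,1,⟨1,[(15,0),(0,0),(19,0)]⟩,⟨0,[]⟩⟩,.a ⟨true,0,⟨0,[(0,0)]⟩,⟨0,[(6,
  0)]⟩⟩ ⟨true,0,⟨0,[(38,0)]⟩,⟨0,[]⟩⟩ ⟨false,1,⟨1,[(35,0),(0,0)]⟩,⟨1,[(22,0),(0,0)]⟩⟩]⟩) (.Q [0,1,0,
  1,-1,0,0,0,1,0,0,1] (.p true [0,0,0,0,1] [] (⟨0,[(18,0)]⟩,⟨0,[(17,0)]⟩) .k 0 (⟨0,[]⟩,⟨0,[]⟩) .k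
  .k) (.R ⟨2,true,false,true,[0,1],[0,1,0,0,1],[0,2,2,1],(⟨0,[]⟩,⟨0,[]⟩),(⟨0,[(19,0),(7,0)]⟩,⟨0,[(8,
  0)]⟩),⟨0,[]⟩,.k,(.r 0 ⟨1,[(9,1),(6,0),(0,0),(19,0)]⟩ ⟨0,[(2,0),(31,0)]⟩),.k,.k,(.r (-1) ⟨0,[(2,0),
  (31,0)]⟩ ⟨1,[(9,1),(6,0),(0,0),(19,0)]⟩),.k,⟨true,0,⟨1,[(23,0),(0,0)]⟩,⟨0,[]⟩⟩,⟨false,0,⟨0,[(7,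
  0)]⟩,⟨0,[(16,0)]⟩⟩,⟨false,0,⟨1,[(23,0),(0,0),(14,1)]⟩,⟨0,[(2,0)]⟩⟩,⟨true,(-1),⟨0,[(6,0)]⟩,⟨0,[(10,
  0)]⟩⟩,⟨true,(-1),⟨0,[(9,0)]⟩,⟨0,[(2,0),(31,0)]⟩⟩,⟨false,(-1),⟨0,[(0,0)]⟩,⟨0,[(10,0),(23,0),(2,
  0)]⟩⟩,[]⟩) (.I [1,0,1,0,0,0,0,-1] (.I [1,-1,1,1,0,0,0,-1] (.Q [0,1,0,1,-1,0,-1,-1,1,0,-1,1] (.p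
  false [0,0,1] [0,0,0,0,1] (⟨0,[(28,0)]⟩,⟨0,[(27,0)]⟩) .k 2 (⟨0,[(21,0)]⟩,⟨0,[(20,0)]⟩) .k (.r
  (-1) ⟨0,[(4,0),(18,0),(2,0)]⟩ ⟨1,[(0,0),(0,0),(31,0),(1,0)]⟩)) (.R ⟨1,false,false,false,[1,0,0,0,
  -1],[1,1,-1],[0,1,1],(⟨0,[(21,0)]⟩,⟨0,[(22,0)]⟩),(⟨0,[(28,0),(1,0)]⟩,⟨0,[(18,0)]⟩),⟨0,[(11,0)]⟩,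
  .k,.k,(.r (-1) ⟨0,[(5,0),(31,0)]⟩ ⟨1,[(12,1),(6,0),(0,0),(19,0)]⟩),(.r (-1) ⟨0,[(5,0),(8,0),(0,
  0)]⟩ ⟨2,[(1,0),(0,1),(9,1),(6,0),(0,0),(18,0)]⟩),(.r (-2) ⟨1,[(3,0),(1,1),(2,0),(5,1),(1,0),(22,
  0)]⟩ ⟨0,[(1,0),(10,0)]⟩),.k,⟨true,0,⟨0,[(14,0),(0,0)]⟩,⟨0,[(1,0)]⟩⟩,⟨false,0,⟨0,[(4,0),(18,0)]⟩,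
  ⟨0,[(19,0),(6,0)]⟩⟩,⟨false,0,⟨1,[(26,0),(0,0),(14,1)]⟩,⟨0,[(5,0)]⟩⟩,⟨true,(-1),⟨0,[(0,0)]⟩,⟨0,[(3,
  0),(20,0)]⟩⟩,⟨true,(-1),⟨0,[(12,0)]⟩,⟨0,[(5,0),(31,0)]⟩⟩,⟨true,(-1),⟨0,[(0,0),(37,0)]⟩,⟨0,[(3,0),
  (10,0)]⟩⟩,[.o ⟨false,0,⟨0,[(0,0),(12,0)]⟩,⟨1,[(14,1),(20,0),(4,0)]⟩⟩,.a ⟨true,0,⟨0,[(1,0),(21,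
  0)]⟩,⟨0,[(14,0)]⟩⟩ ⟨true,0,⟨1,[(26,0),(0,0)]⟩,⟨0,[]⟩⟩ ⟨false,0,⟨0,[(0,0),(4,0)]⟩,⟨0,[(14,0),(4,
  0)]⟩⟩,.o ⟨false,1,⟨0,[(19,0)]⟩,⟨1,[(4,1),(21,0),(0,0)]⟩⟩,.o ⟨false,1,⟨1,[(19,1),(6,0),(0,0)]⟩,⟨0,
  [(4,0)]⟩⟩]⟩) (.S ⟨1,0,[0,1,1,1,0,0,0,-1],[1,1,-1],[1,0,1,0,0,0,0,-1],(⟨0,[(28,0),(1,0)]⟩,⟨0,[(18,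
  0)]⟩),⟨0,[(28,0)]⟩,.k,.k,⟨false,1,⟨0,[(37,0),(2,0)]⟩,⟨0,[(38,0)]⟩⟩,⟨true,0,⟨0,[(42,0)]⟩,⟨0,[]⟩⟩,
  ⟨true,0,⟨0,[]⟩,⟨0,[(42,0)]⟩⟩,⟨false,0,⟨0,[(38,0)]⟩,⟨0,[(37,0),(2,0)]⟩⟩,[.o ⟨false,0,⟨0,[(25,0),
  (12,0)]⟩,⟨1,[(0,1),(3,1),(21,0),(0,0)]⟩⟩,.o ⟨false,0,⟨1,[(1,1),(5,0),(7,0),(7,0),(12,0)]⟩,⟨2,[(0,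
  1),(7,0),(11,0),(3,0),(10,0)]⟩⟩,.a ⟨true,0,⟨0,[(23,0)]⟩,⟨0,[(26,0)]⟩⟩ ⟨true,0,⟨0,[(2,0)]⟩,⟨0,[(0,
  0),(3,0),(7,0),(10,0)]⟩⟩ ⟨false,0,⟨5,[(1,3),(0,1),(9,1),(6,0),(0,0),(18,0)]⟩,⟨1,[(0,1),(3,0),(5,
  0),(5,0)]⟩⟩,.o ⟨false,0,⟨0,[(15,0)]⟩,⟨1,[(26,1),(8,0),(3,0)]⟩⟩]⟩)) (.I [0,0,0,1,0,0,0,-1] (.S ⟨1,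
  0,[0,0,1,1,0,0,0,-1],[1,1,-1],[0,1,1,1,0,0,0,-1],(⟨0,[(28,0),(1,0)]⟩,⟨0,[(18,0)]⟩),⟨0,[(28,0)]⟩,
  .k,.k,⟨true,0,⟨0,[(42,0)]⟩,⟨0,[]⟩⟩,⟨false,1,⟨1,[(19,0),(0,0),(19,0)]⟩,⟨0,[]⟩⟩,⟨false,0,⟨0,[(38,
  0)]⟩,⟨0,[(37,0),(2,0)]⟩⟩,⟨true,0,⟨0,[(38,0)]⟩,⟨0,[(37,0)]⟩⟩,[.o ⟨false,0,⟨0,[(0,0),(14,0)]⟩,⟨1,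
  [(14,1),(20,0),(4,0)]⟩⟩,.e ⟨false,0,⟨0,[(0,0)]⟩,⟨5,[(1,1),(12,3),(1,1),(18,0),(3,1),(0,2)]⟩⟩
  ⟨false,1,⟨1,[(0,1),(18,0),(0,0),(19,0)]⟩,⟨0,[(1,0)]⟩⟩,.a ⟨true,0,⟨0,[(23,0)]⟩,⟨0,[(26,0)]⟩⟩
  ⟨false,0,⟨1,[(0,0),(1,0),(9,0),(27,0)]⟩,⟨0,[(1,0),(38,0)]⟩⟩ ⟨true,0,⟨1,[(0,0),(1,0),(9,0),(27,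
  0)]⟩,⟨0,[(1,0)]⟩⟩,.o ⟨false,0,⟨0,[(15,0)]⟩,⟨1,[(26,1),(8,0),(3,0)]⟩⟩]⟩) (.Q [0,0,0,1,0,0,-1,-1,0,
  0,-1] (.p false [0,0,1] [] (⟨0,[(29,0)]⟩,⟨0,[(28,0)]⟩) .k 0 (⟨0,[]⟩,⟨0,[]⟩) .k .k) (.S ⟨1,0,[0,1,
  1,1,0,0,0,-1],[1,1,-1],[1,0,1,0,0,0,0,-1],(⟨0,[(29,0),(1,0)]⟩,⟨0,[(19,0)]⟩),⟨0,[(29,0)]⟩,.k,.k,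
  ⟨false,1,⟨0,[(38,0),(2,0)]⟩,⟨0,[(39,0)]⟩⟩,⟨true,0,⟨0,[(43,0)]⟩,⟨0,[]⟩⟩,⟨true,0,⟨0,[]⟩,⟨0,[(43,
  0)]⟩⟩,⟨false,0,⟨0,[(39,0)]⟩,⟨0,[(38,0),(2,0)]⟩⟩,[.o ⟨false,0,⟨5,[(0,3),(12,1),(6,0),(0,0),(4,1),
  (13,0)]⟩,⟨1,[(1,1),(2,0),(0,0),(0,0),(1,0),(18,1)]⟩⟩,.o ⟨false,0,⟨0,[(0,0)]⟩,⟨1,[(15,1),(20,0),(4,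
  0)]⟩⟩,.a ⟨true,0,⟨0,[(24,0)]⟩,⟨0,[(27,0)]⟩⟩ ⟨true,0,⟨0,[(3,0)]⟩,⟨0,[(2,0),(36,0)]⟩⟩ ⟨false,0,⟨0,
  [(3,0),(35,0)]⟩,⟨1,[(1,1),(38,0),(0,0)]⟩⟩,.o ⟨false,0,⟨0,[(16,0)]⟩,⟨1,[(27,1),(8,0),(3,0)]⟩⟩]⟩)
  (.R ⟨1,false,false,false,[0,0,1],[0,0,0,0,1],[0,1,0,0,0,0,0,1],(⟨0,[(30,0)]⟩,⟨0,[(29,0)]⟩),(⟨0,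
  [(23,0)]⟩,⟨0,[(22,0)]⟩),⟨0,[(19,0)]⟩,.k,.k,.k,.k,(.r (-1) ⟨1,[(1,1),(38,0),(0,0)]⟩ ⟨3,[(3,3),(9,
  1),(6,0),(0,0),(17,1),(0,0)]⟩),.k,⟨true,0,⟨0,[(1,0),(37,0)]⟩,⟨0,[(3,0)]⟩⟩,⟨false,0,⟨1,[(5,0),(5,
  0),(5,0)]⟩,⟨0,[(14,0),(12,0),(9,0),(1,0)]⟩⟩,⟨true,0,⟨0,[(43,0)]⟩,⟨0,[]⟩⟩,⟨false,0,⟨1,[(3,1),(1,0),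
  (5,0),(5,0)]⟩,⟨0,[(0,0),(13,0),(24,0)]⟩⟩,⟨false,0,⟨0,[(39,0)]⟩,⟨0,[(38,0),(2,0)]⟩⟩,⟨false,0,⟨1,
  [(3,1),(1,0),(5,0),(5,0),(21,1)]⟩,⟨0,[(0,0),(13,0)]⟩⟩,[.o ⟨false,0,⟨1,[(8,0),(0,0),(11,0)]⟩,⟨0,
  [(14,0)]⟩⟩,.o ⟨false,0,⟨1,[(5,1),(21,0),(0,0)]⟩,⟨0,[(20,0)]⟩⟩,.o ⟨false,1,⟨1,[(27,1),(8,0),(3,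
  0)]⟩,⟨0,[(16,0)]⟩⟩,.a ⟨true,0,⟨0,[(27,0)]⟩,⟨0,[(24,0)]⟩⟩ ⟨true,0,⟨0,[(2,0),(36,0)]⟩,⟨0,[(3,0)]⟩⟩
  ⟨false,0,⟨1,[(5,0),(5,0),(5,0)]⟩,⟨0,[(14,0),(12,0)]⟩⟩]⟩)))) (.S ⟨1,0,[0,0,0,0,0,0,0,1],[0,0,1],[0,
  1,0,0,0,0,0,1],(⟨0,[(27,0)]⟩,⟨0,[(26,0)]⟩),⟨0,[(16,0)]⟩,.k,.k,⟨true,0,⟨0,[(40,0)]⟩,⟨0,[]⟩⟩,⟨false,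
  1,⟨1,[(17,0),(0,0),(19,0)]⟩,⟨0,[]⟩⟩,⟨false,0,⟨0,[(36,0)]⟩,⟨0,[(35,0),(2,0)]⟩⟩,⟨true,0,⟨0,[(36,
  0)]⟩,⟨0,[(35,0)]⟩⟩,[.e ⟨false,0,⟨15,[(0,11),(9,0),(1,0),(1,1),(7,2),(9,4),(0,0)]⟩,⟨0,[(3,0),(19,
  0),(0,0)]⟩⟩ ⟨false,0,⟨0,[(0,0)]⟩,⟨1,[(23,1),(0,1),(12,0),(0,0)]⟩⟩,.o ⟨false,1,⟨1,[(0,1),(23,1),(8,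
  0),(4,0)]⟩,⟨0,[(23,0)]⟩⟩,.o ⟨false,1,⟨1,[(24,1),(8,0),(3,0)]⟩,⟨0,[(13,0)]⟩⟩,.a ⟨true,0,⟨0,[(24,
  0)]⟩,⟨0,[(21,0)]⟩⟩ ⟨false,0,⟨0,[(0,0)]⟩,⟨0,[(23,0),(0,0),(13,0)]⟩⟩ ⟨true,0,⟨0,[(0,0)]⟩,⟨0,[(23,0),
  (0,0)]⟩⟩]⟩))))) (.S ⟨1,0,[],[1,0,0,0,-1],[0,-1],(⟨0,[(15,0)]⟩,⟨0,[(16,0)]⟩),⟨0,[(5,0)]⟩,.k,(.r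
  (-1) ⟨0,[(30,0),(3,0)]⟩ ⟨1,[(6,1),(6,0),(0,0),(19,0)]⟩),⟨false,1,⟨1,[(13,0),(0,0),(19,0)]⟩,⟨0,
  []⟩⟩,⟨true,0,⟨0,[(36,0)]⟩,⟨0,[]⟩⟩,⟨true,0,⟨0,[(32,0)]⟩,⟨0,[(31,0)]⟩⟩,⟨false,0,⟨0,[(32,0)]⟩,⟨0,
  [(31,0),(2,0)]⟩⟩,[.e ⟨false,1,⟨1,[(33,0),(0,0)]⟩,⟨0,[(36,0)]⟩⟩ ⟨false,1,⟨1,[(13,0),(0,0),(18,0)]⟩,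
  ⟨0,[]⟩⟩,.o ⟨false,1,⟨0,[(7,0)]⟩,⟨1,[(1,0),(0,0),(11,0)]⟩⟩,.e ⟨false,1,⟨0,[(34,0)]⟩,⟨0,[(36,0)]⟩⟩
  ⟨false,1,⟨1,[(13,0),(0,0),(19,0)]⟩,⟨0,[]⟩⟩,.a ⟨true,0,⟨0,[(0,0),(6,0),(22,0),(1,0)]⟩,⟨0,[(4,0)]⟩⟩
  ⟨true,1,⟨1,[(33,0),(0,0)]⟩,⟨0,[(0,0),(0,0),(28,0)]⟩⟩ ⟨false,1,⟨1,[(33,0),(0,0)]⟩,⟨1,[(20,0),(0,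
  0)]⟩⟩]⟩)) (.S ⟨1,0,[],[1,0,0,0,-1],[1,-1,0,-1],(⟨0,[(14,0)]⟩,⟨0,[(15,0)]⟩),⟨0,[(4,0)]⟩,.k,(.r
  (-1) ⟨1,[(0,1),(27,0),(3,0)]⟩ ⟨1,[(5,1),(6,0),(0,0),(19,0)]⟩),⟨false,1,⟨0,[(30,0),(2,0)]⟩,⟨0,[(31,
  0)]⟩⟩,⟨true,0,⟨0,[(35,0)]⟩,⟨0,[]⟩⟩,⟨true,0,⟨0,[]⟩,⟨0,[(35,0)]⟩⟩,⟨false,0,⟨0,[(31,0)]⟩,⟨0,[(30,0),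
  (2,0)]⟩⟩,[.e ⟨false,1,⟨1,[(0,1),(27,0),(3,0)]⟩,⟨3,[(5,1),(6,0),(0,0),(17,1),(0,0)]⟩⟩ ⟨false,1,⟨1,
  [(12,0),(0,0),(18,0)]⟩,⟨0,[]⟩⟩,.o ⟨false,1,⟨0,[(6,0)]⟩,⟨1,[(2,0),(10,0),(14,0)]⟩⟩,.e ⟨false,1,⟨1,
  [(0,1),(27,0),(4,0)]⟩,⟨3,[(5,1),(6,0),(0,0),(17,1),(0,0)]⟩⟩ ⟨false,1,⟨1,[(12,0),(0,0),(19,0)]⟩,⟨0,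
  []⟩⟩,.a ⟨true,0,⟨0,[(0,0),(4,0),(0,0)]⟩,⟨0,[(3,0)]⟩⟩ ⟨true,1,⟨1,[(0,1),(27,0),(3,0)]⟩,⟨0,[(5,
  0)]⟩⟩ ⟨false,1,⟨1,[(32,0),(0,0)]⟩,⟨1,[(19,0),(0,0)]⟩⟩]⟩)) (.I [1,-2,-1,0,1] (.S ⟨1,0,[],[1,0,0,0,
  -1],[0,1,1],(⟨0,[(14,0)]⟩,⟨0,[(15,0)]⟩),⟨0,[(4,0)]⟩,.k,(.r (-1) ⟨0,[(0,0),(29,0)]⟩ ⟨1,[(5,1),(6,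
  0),(0,0),(19,0)]⟩),⟨false,0,⟨1,[(19,0),(0,0),(14,1)]⟩,⟨0,[(0,0)]⟩⟩,⟨true,0,⟨0,[(35,0)]⟩,⟨0,[]⟩⟩,
  ⟨true,(-1),⟨0,[(5,0)]⟩,⟨0,[(0,0),(29,0)]⟩⟩,⟨false,0,⟨0,[(31,0)]⟩,⟨0,[(30,0),(2,0)]⟩⟩,[.e ⟨false,0,
  ⟨0,[(35,0)]⟩,⟨1,[(32,0),(0,0)]⟩⟩ ⟨false,1,⟨1,[(12,0),(0,0),(18,0)]⟩,⟨0,[]⟩⟩,.o ⟨false,1,⟨0,[(6,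
  0)]⟩,⟨1,[(2,0),(10,0),(14,0)]⟩⟩,.e ⟨false,0,⟨1,[(19,0),(0,0)]⟩,⟨1,[(32,0),(0,0)]⟩⟩ ⟨false,1,⟨1,
  [(12,0),(0,0),(19,0)]⟩,⟨0,[]⟩⟩,.a ⟨true,0,⟨1,[(1,1),(17,0),(0,0),(9,1)]⟩,⟨0,[(3,0)]⟩⟩ ⟨true,0,⟨0,
  [(35,0)]⟩,⟨0,[]⟩⟩ ⟨false,1,⟨1,[(32,0),(0,0)]⟩,⟨1,[(19,0),(0,0)]⟩⟩]⟩) (.S ⟨1,0,[],[1,0,0,0,-1],[0,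
  -1],(⟨0,[(14,0)]⟩,⟨0,[(15,0)]⟩),⟨0,[(4,0)]⟩,.k,(.r (-1) ⟨0,[(29,0),(3,0)]⟩ ⟨1,[(5,1),(6,0),(0,0),
  (19,0)]⟩),⟨false,1,⟨1,[(12,0),(0,0),(19,0)]⟩,⟨0,[]⟩⟩,⟨true,0,⟨0,[(35,0)]⟩,⟨0,[]⟩⟩,⟨true,0,⟨0,[(31,
  0)]⟩,⟨0,[(30,0)]⟩⟩,⟨false,0,⟨0,[(31,0)]⟩,⟨0,[(30,0),(2,0)]⟩⟩,[.e ⟨false,1,⟨1,[(32,0),(0,0)]⟩,⟨0,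
  [(35,0)]⟩⟩ ⟨false,1,⟨1,[(12,0),(0,0),(18,0)]⟩,⟨0,[]⟩⟩,.o ⟨false,1,⟨0,[(6,0)]⟩,⟨1,[(2,0),(10,0),
  (14,0)]⟩⟩,.e ⟨false,1,⟨0,[(33,0)]⟩,⟨0,[(35,0)]⟩⟩ ⟨false,1,⟨1,[(12,0),(0,0),(19,0)]⟩,⟨0,[]⟩⟩,.a
  ⟨true,0,⟨1,[(1,1),(17,0),(0,0),(9,1)]⟩,⟨0,[(3,0)]⟩⟩ ⟨true,1,⟨1,[(32,0),(0,0)]⟩,⟨0,[(0,0)]⟩⟩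
  ⟨false,1,⟨1,[(32,0),(0,0)]⟩,⟨1,[(19,0),(0,0)]⟩⟩]⟩))) (.Q [0,0,1,0,0,0,0,0,-1,1,0,-1] (.p false [0,
  0,0,0,1] [1] (⟨0,[(13,0)]⟩,⟨0,[(12,0)]⟩) .k 1 (⟨0,[]⟩,⟨0,[]⟩) .k .k) (.S ⟨1,0,[0,1,1,1],[0,1,0,0,
  1],[1],(⟨0,[(14,0),(7,0)]⟩,⟨0,[(3,0)]⟩),⟨0,[(14,0)]⟩,(.r 0 ⟨1,[(4,1),(6,0),(0,0),(19,0)]⟩ ⟨0,[(28,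
  0),(3,0)]⟩),.k,⟨true,1,⟨0,[(28,0),(3,0)]⟩,⟨0,[(4,0)]⟩⟩,⟨false,1,⟨1,[(11,0),(0,0),(19,0)]⟩,⟨0,[]⟩⟩,
  ⟨false,1,⟨0,[(1,0),(0,0)]⟩,⟨1,[(18,0),(0,0),(14,1)]⟩⟩,⟨true,0,⟨0,[(30,0)]⟩,⟨0,[(29,0)]⟩⟩,[.o
  ⟨false,0,⟨1,[(2,0),(1,0),(7,0),(14,0),(2,0)]⟩,⟨0,[(1,0),(27,0)]⟩⟩,.e ⟨false,1,⟨1,[(31,0),(0,0)]⟩,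
  ⟨0,[(34,0)]⟩⟩ ⟨false,0,⟨0,[(30,0)]⟩,⟨1,[(29,1),(1,0),(0,0)]⟩⟩,.a ⟨true,0,⟨0,[(2,0)]⟩,⟨0,[(0,0)]⟩⟩
  ⟨true,0,⟨0,[]⟩,⟨0,[(34,0)]⟩⟩ ⟨false,0,⟨0,[(4,0),(27,0)]⟩,⟨0,[(28,0),(3,0)]⟩⟩,.e ⟨false,1,⟨1,[(31,
  0),(0,0)]⟩,⟨1,[(18,0),(0,0)]⟩⟩ ⟨false,0,⟨0,[(30,0)]⟩,⟨0,[(29,0),(2,0)]⟩⟩]⟩) (.I [0,0,-1,0,0,0,0,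
  1] (.S ⟨1,0,[0,0,0,0,0,0,0,1],[0,0,1],[0,1,0,0,0,0,0,1],(⟨0,[(22,0)]⟩,⟨0,[(21,0)]⟩),⟨0,[(11,0)]⟩,
  .k,.k,⟨true,0,⟨0,[(35,0)]⟩,⟨0,[]⟩⟩,⟨false,1,⟨1,[(12,0),(0,0),(19,0)]⟩,⟨0,[]⟩⟩,⟨false,0,⟨0,[(31,
  0)]⟩,⟨0,[(30,0),(2,0)]⟩⟩,⟨true,0,⟨0,[(31,0)]⟩,⟨0,[(30,0)]⟩⟩,[.e ⟨false,0,⟨15,[(0,11),(4,0),(1,0),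
  (1,1),(7,2),(9,4),(0,0)]⟩,⟨0,[(2,0),(0,0),(14,0),(0,0)]⟩⟩ ⟨false,0,⟨0,[(0,0)]⟩,⟨1,[(18,1),(0,1),
  (12,0),(0,0)]⟩⟩,.o ⟨false,1,⟨1,[(0,1),(18,1),(8,0),(4,0)]⟩,⟨0,[(18,0)]⟩⟩,.o ⟨false,1,⟨1,[(19,1),
  (8,0),(3,0)]⟩,⟨0,[(8,0)]⟩⟩,.a ⟨true,0,⟨0,[(19,0)]⟩,⟨0,[(16,0)]⟩⟩ ⟨false,0,⟨0,[(0,0)]⟩,⟨0,[(18,0),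
  (0,0),(13,0)]⟩⟩ ⟨true,0,⟨0,[(0,0)]⟩,⟨0,[(18,0),(0,0)]⟩⟩]⟩) (.S ⟨1,0,[0,1,1,1,0,0,0,-1],[1,1,-1],
  [1,0,1,0,0,0,0,-1],(⟨0,[(21,0),(1,0)]⟩,⟨0,[(11,0)]⟩),⟨0,[(21,0)]⟩,.k,.k,⟨false,1,⟨0,[(30,0),(2,
  0)]⟩,⟨0,[(31,0)]⟩⟩,⟨true,0,⟨0,[(35,0)]⟩,⟨0,[]⟩⟩,⟨true,0,⟨0,[]⟩,⟨0,[(35,0)]⟩⟩,⟨false,0,⟨0,[(31,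
  0)]⟩,⟨0,[(30,0),(2,0)]⟩⟩,[.o ⟨false,0,⟨0,[(18,0),(12,0)]⟩,⟨1,[(1,1),(0,1),(4,1),(11,0),(0,0)]⟩⟩,
  .o ⟨false,0,⟨0,[(0,0),(0,0),(0,0),(2,0),(10,0)]⟩,⟨1,[(7,1),(20,0),(4,0)]⟩⟩,.a ⟨true,0,⟨0,[(16,
  0)]⟩,⟨0,[(19,0)]⟩⟩ ⟨true,0,⟨0,[(0,0)]⟩,⟨0,[(1,0),(0,0),(2,0),(1,0),(8,0)]⟩⟩ ⟨false,0,⟨0,[(0,0),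
  (30,0)]⟩,⟨2,[(1,1),(0,1),(4,2),(1,0),(6,0),(16,0)]⟩⟩,.o ⟨false,0,⟨0,[(8,0)]⟩,⟨1,[(19,1),(8,0),(3,
  0)]⟩⟩]⟩))))

theorem ok4 : chk K t4 r5 = true := by decide +kernel

noncomputable def t6 : Tre :=
  (.Q [0,0,1,0,0,0,0,0,-1,0,0,-1] (.p false [0,0,0,0,1] [] (⟨0,[(11,0)]⟩,⟨0,[(10,0)]⟩) .k 0 (⟨0,[]⟩,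
  ⟨0,[]⟩) .k .k) (.Q [0,1,0,1,0,0,0,0,1,-1,0,1] (.p true [0,0,0,0,1] [1] (⟨0,[(12,0)]⟩,⟨0,[(11,
  0)]⟩) .k 1 (⟨0,[]⟩,⟨0,[]⟩) .k .k) (.Q [0,0,-2,0,1,0,0,0,1,-1,0,1] (.p true [0,0,0,0,1] [1] (⟨0,
  [(13,0)]⟩,⟨0,[(12,0)]⟩) .k 1 (⟨0,[]⟩,⟨0,[]⟩) .k .k) (.Q [0,0,0,-1,0,0,0,0,-1,1,0,-1] (.p false [0,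
  0,0,0,1] [1] (⟨0,[(14,0)]⟩,⟨0,[(13,0)]⟩) .k 1 (⟨0,[]⟩,⟨0,[]⟩) .k .k) (.R ⟨0,false,false,false,[1,
  0,0,0,-1],[0,1],[1,0,1,1],(⟨0,[(14,0)]⟩,⟨0,[(15,0)]⟩),(⟨0,[(26,0)]⟩,⟨0,[(25,0)]⟩),⟨0,[(4,0)]⟩,.k,
  .k,(.r (-1) ⟨0,[(29,0),(3,0)]⟩ ⟨1,[(5,1),(6,0),(0,0),(19,0)]⟩),(.r (-1) ⟨0,[(29,0),(3,0)]⟩ ⟨1,[(5,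
  1),(6,0),(0,0),(19,0)]⟩),.k,.k,⟨true,0,⟨0,[]⟩,⟨1,[(19,0),(0,0)]⟩⟩,⟨false,1,⟨0,[(1,0)]⟩,⟨2,[(0,1),
  (2,0),(5,0),(9,1),(11,1)]⟩⟩,⟨false,0,⟨0,[(5,0),(27,0)]⟩,⟨0,[(29,0),(3,0)]⟩⟩,⟨true,0,⟨0,[(2,0)]⟩,
  ⟨0,[(0,0)]⟩⟩,⟨false,0,⟨0,[]⟩,⟨0,[]⟩⟩,⟨false,0,⟨0,[]⟩,⟨0,[]⟩⟩,[.e ⟨false,0,⟨0,[(31,0)]⟩,⟨1,[(30,1),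
  (1,0),(0,0)]⟩⟩ ⟨false,1,⟨1,[(2,1),(29,0),(0,0)]⟩,⟨0,[(0,0)]⟩⟩,.o ⟨false,1,⟨1,[(28,0),(2,1),(1,
  0)]⟩,⟨0,[(30,0)]⟩⟩,.a ⟨true,0,⟨0,[(0,0),(30,0)]⟩,⟨0,[(13,0)]⟩⟩ ⟨true,0,⟨0,[(5,0),(27,0)]⟩,⟨0,[(29,
  0)]⟩⟩ ⟨false,1,⟨0,[(2,0),(30,0)]⟩,⟨0,[(0,0)]⟩⟩,.o ⟨false,0,⟨0,[(3,0)]⟩,⟨3,[(1,1),(10,0),(0,2),(14,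
  0)]⟩⟩]⟩) (.Q [0,0,0,-1,0,0,0,0,-2,2,0,-2] (.p false [0,0,-1,0,1] [2,0,-1,0,-1] (⟨0,[(4,0),(5,0)]⟩,
  ⟨0,[(14,0),(7,0)]⟩) .k 2 (⟨0,[(14,0),(6,0)]⟩,⟨0,[(4,0),(6,0)]⟩) .k (.r 0 ⟨0,[(35,1)]⟩ ⟨0,[(33,
  0)]⟩)) (.R ⟨0,false,false,true,[-1,1,0,0,1],[1,0,0,0,-1],[1],(⟨0,[(5,0)]⟩,⟨0,[(15,0),(10,0)]⟩),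
  (⟨0,[(15,0)]⟩,⟨0,[(16,0)]⟩),⟨0,[(15,0)]⟩,(.r 0 ⟨1,[(6,1),(6,0),(0,0),(19,0)]⟩ ⟨0,[(30,0),(3,0)]⟩),
  .k,.k,(.r 1 ⟨0,[(6,0)]⟩ ⟨1,[(31,1),(1,0),(0,2)]⟩),.k,.k,⟨true,0,⟨0,[]⟩,⟨1,[(20,0),(0,0)]⟩⟩,⟨false,
  0,⟨0,[(0,0),(31,0)]⟩,⟨1,[(1,1),(12,1),(14,0),(0,1),(3,0)]⟩⟩,⟨true,1,⟨0,[(30,0),(3,0)]⟩,⟨0,[(6,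
  0)]⟩⟩,⟨false,1,⟨0,[(0,0),(33,0)]⟩,⟨0,[(1,1),(29,0)]⟩⟩,⟨false,0,⟨0,[]⟩,⟨0,[]⟩⟩,⟨false,0,⟨0,[]⟩,⟨0,
  []⟩⟩,[.a ⟨true,0,⟨1,[(0,0),(31,0)]⟩,⟨0,[(14,0)]⟩⟩ ⟨true,0,⟨0,[]⟩,⟨1,[(20,0),(0,0)]⟩⟩ ⟨false,0,⟨0,
  [(0,0),(31,0)]⟩,⟨1,[(1,1),(12,1),(14,0),(0,1),(3,0)]⟩⟩,.o ⟨false,1,⟨0,[(7,0)]⟩,⟨0,[(1,0),(29,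
  0)]⟩⟩,.o ⟨false,1,⟨1,[(1,1),(27,0),(0,1),(3,0)]⟩,⟨3,[(0,1),(5,1),(13,0),(0,0),(12,1)]⟩⟩,.o ⟨false,
  1,⟨0,[(14,0),(14,0)]⟩,⟨1,[(0,0),(31,0)]⟩⟩]⟩) (.Q [0,0,0,0,0,0,1,1,0,-1,1] (.p true [0,0,1] [1]
  (⟨0,[(23,0)]⟩,⟨0,[(22,0)]⟩) .k 1 (⟨0,[]⟩,⟨0,[]⟩) .k .k) (.S ⟨1,0,[0,0,0,0,0,0,0,1],[0,0,1],[0,1,0,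
  0,0,0,0,1],(⟨0,[(24,0)]⟩,⟨0,[(23,0)]⟩),⟨0,[(13,0)]⟩,.k,.k,⟨true,0,⟨0,[(37,0)]⟩,⟨0,[]⟩⟩,⟨false,1,
  ⟨1,[(14,0),(0,0),(19,0)]⟩,⟨0,[]⟩⟩,⟨false,0,⟨0,[(33,0)]⟩,⟨0,[(32,0),(2,0)]⟩⟩,⟨true,0,⟨0,[(33,0)]⟩,
  ⟨0,[(32,0)]⟩⟩,[.o ⟨false,0,⟨0,[(0,0)]⟩,⟨1,[(14,0),(0,0),(4,1),(14,0)]⟩⟩,.o ⟨false,1,⟨3,[(0,1),(18,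
  1),(10,0),(4,2)]⟩,⟨0,[(20,0)]⟩⟩,.o ⟨false,1,⟨1,[(21,1),(8,0),(3,0)]⟩,⟨0,[(10,0)]⟩⟩,.a ⟨true,0,⟨0,
  [(21,0)]⟩,⟨0,[(18,0)]⟩⟩ ⟨false,0,⟨0,[(0,0),(17,0)]⟩,⟨0,[(20,0),(0,0),(13,0)]⟩⟩ ⟨true,0,⟨0,[(0,0),
  (17,0)]⟩,⟨0,[(20,0),(0,0)]⟩⟩]⟩) (.Q [0,0,0,0,0,0,0,0,1,-1,0,1] (.p true [0,0,0,0,1] [1] (⟨0,[(17,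
  0)]⟩,⟨0,[(16,0)]⟩) .k 1 (⟨0,[]⟩,⟨0,[]⟩) .k .k) (.Q [0,0,0,-1,0,0,0,0,0,1] (.pp false [-1,1]) (.R
  ⟨0,false,false,false,[1,0,0,0,-1],[1,-1],[0,0,0,-1],(⟨0,[(18,0)]⟩,⟨0,[(19,0)]⟩),(⟨0,[(29,0)]⟩,⟨0,
  [(30,0)]⟩),⟨0,[(8,0)]⟩,.k,.k,(.r (-1) ⟨0,[(33,0),(3,0)]⟩ ⟨1,[(9,1),(6,0),(0,0),(19,0)]⟩),(.r (-1)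
  ⟨1,[(9,1),(6,0),(0,0),(19,2)]⟩ ⟨0,[(33,0)]⟩),.k,.k,⟨true,0,⟨1,[(23,0),(0,0)]⟩,⟨0,[]⟩⟩,⟨false,0,⟨0,
  [(17,0)]⟩,⟨0,[(7,0),(28,0)]⟩⟩,⟨true,0,⟨0,[(34,0)]⟩,⟨0,[(35,0)]⟩⟩,⟨false,0,⟨0,[(0,0),(0,0)]⟩,⟨0,
  [(10,0),(24,0)]⟩⟩,⟨false,0,⟨0,[]⟩,⟨0,[]⟩⟩,⟨false,0,⟨0,[]⟩,⟨0,[]⟩⟩,[.a ⟨true,0,⟨0,[(0,0)]⟩,⟨0,[(35,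
  0)]⟩⟩ ⟨false,1,⟨1,[(34,1),(1,0),(0,0)]⟩,⟨0,[(35,0)]⟩⟩ ⟨true,0,⟨0,[(0,0),(0,0)]⟩,⟨0,[(7,0),(27,
  0)]⟩⟩,.o ⟨false,1,⟨0,[(34,0),(2,0)]⟩,⟨0,[(4,0),(2,0),(25,0),(1,0)]⟩⟩,.o ⟨false,1,⟨0,[(16,0)]⟩,⟨0,
  [(1,0)]⟩⟩,.o ⟨false,0,⟨0,[(7,0)]⟩,⟨3,[(5,1),(10,0),(0,2),(14,0)]⟩⟩]⟩) (.Q [0,-1,0,1,0,0,-1,-1,0,1,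
  -1] (.p false [0,0,1] [1] (⟨0,[(26,0)]⟩,⟨0,[(25,0)]⟩) .k 1 (⟨0,[]⟩,⟨0,[]⟩) .k .k) (.S ⟨1,2,[],[1,
  1,-1],[1,1,1,0,0,0,0,-1],(⟨0,[(26,0),(1,0)]⟩,⟨0,[(16,0)]⟩),⟨0,[(26,0)]⟩,.k,.k,⟨true,0,⟨0,[(35,
  0)]⟩,⟨0,[(36,0)]⟩⟩,⟨false,1,⟨1,[(12,1),(20,0),(4,0)]⟩,⟨0,[(0,0)]⟩⟩,⟨false,0,⟨0,[]⟩,⟨1,[(17,0),(0,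
  0),(19,0)]⟩⟩,⟨true,0,⟨0,[(1,0),(10,0)]⟩,⟨0,[(3,0)]⟩⟩,[.o ⟨false,0,⟨3,[(1,0),(0,0),(5,0),(1,0),(22,
  0),(0,1)]⟩,⟨1,[(17,0),(0,0),(19,0)]⟩⟩,.fo,.a ⟨true,0,⟨0,[(21,0)]⟩,⟨0,[(24,0)]⟩⟩ ⟨false,0,⟨0,[(0,
  0),(1,0),(5,0),(15,0),(9,0)]⟩,⟨0,[(1,0),(10,0),(8,0),(16,0)]⟩⟩ ⟨true,0,⟨3,[(1,0),(0,0),(5,0),(1,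
  0),(13,3),(8,0),(0,1)]⟩,⟨0,[(21,0)]⟩⟩,.o ⟨false,0,⟨0,[(13,0)]⟩,⟨1,[(24,1),(8,0),(3,0)]⟩⟩]⟩) (.S
  ⟨1,0,[0,0,1,1,0,0,0,-1],[1,1,-1],[0,1,1,1,0,0,0,-1],(⟨0,[(26,0),(1,0)]⟩,⟨0,[(16,0)]⟩),⟨0,[(26,
  0)]⟩,.k,.k,⟨true,0,⟨0,[(40,0)]⟩,⟨0,[]⟩⟩,⟨false,1,⟨1,[(17,0),(0,0),(19,0)]⟩,⟨0,[]⟩⟩,⟨false,0,⟨0,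
  [(36,0)]⟩,⟨0,[(35,0),(2,0)]⟩⟩,⟨true,0,⟨0,[(36,0)]⟩,⟨0,[(35,0)]⟩⟩,[.o ⟨false,0,⟨0,[(1,0),(1,0)]⟩,
  ⟨1,[(12,1),(20,0),(4,0)]⟩⟩,.o ⟨false,1,⟨0,[(3,0),(1,0),(5,0)]⟩,⟨0,[(0,0)]⟩⟩,.a ⟨true,0,⟨0,[(21,
  0)]⟩,⟨0,[(24,0)]⟩⟩ ⟨false,0,⟨0,[(1,0),(1,0),(20,0)]⟩,⟨0,[(0,0),(20,0),(16,0)]⟩⟩ ⟨true,0,⟨0,[(1,0),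
  (1,0),(20,0)]⟩,⟨0,[(0,0),(20,0)]⟩⟩,.o ⟨false,0,⟨0,[(13,0)]⟩,⟨1,[(24,1),(8,0),(3,0)]⟩⟩]⟩))) (.Q [0,
  -2,0,-1,1,0,0,0,-2,2,0,-2] (.p false [0,0,-1,0,1] [2,0,-1,0,-1] (⟨0,[(7,0),(5,0)]⟩,⟨0,[(17,0),(7,
  0)]⟩) .k 2 (⟨0,[(17,0),(6,0)]⟩,⟨0,[(7,0),(6,0)]⟩) .k (.r 0 ⟨0,[(38,1)]⟩ ⟨0,[(36,0)]⟩)) (.R ⟨0,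
  false,false,true,[-1,1,0,0,1],[1,0,0,0,-1],[1],(⟨0,[(8,0)]⟩,⟨0,[(18,0),(10,0)]⟩),(⟨0,[(18,0)]⟩,⟨0,
  [(19,0)]⟩),⟨0,[(18,0)]⟩,(.r 0 ⟨1,[(9,1),(6,0),(0,0),(19,0)]⟩ ⟨0,[(33,0),(3,0)]⟩),.k,.k,(.r 1 ⟨0,
  [(9,0)]⟩ ⟨7,[(0,1),(4,3),(10,0),(0,0),(16,5),(2,8)]⟩),.k,.k,⟨true,0,⟨0,[]⟩,⟨1,[(23,0),(0,0)]⟩⟩,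
  ⟨false,0,⟨0,[(1,1)]⟩,⟨3,[(3,1),(1,1),(11,1),(14,0),(1,1),(2,0)]⟩⟩,⟨true,1,⟨0,[(33,0),(3,0)]⟩,⟨0,
  [(9,0)]⟩⟩,⟨false,1,⟨0,[(0,0)]⟩,⟨2,[(3,1),(2,1),(27,0)]⟩⟩,⟨false,0,⟨0,[]⟩,⟨0,[]⟩⟩,⟨false,0,⟨0,[]⟩,
  ⟨0,[]⟩⟩,[.a ⟨true,0,⟨0,[(1,0)]⟩,⟨0,[(17,0)]⟩⟩ ⟨true,0,⟨0,[]⟩,⟨1,[(23,0),(0,0)]⟩⟩ ⟨false,0,⟨0,[(1,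
  1)]⟩,⟨3,[(3,1),(1,1),(11,1),(14,0),(1,1),(2,0)]⟩⟩,.o ⟨false,1,⟨0,[(10,0)]⟩,⟨2,[(3,0),(2,0),(27,
  1)]⟩⟩,.o ⟨false,1,⟨5,[(3,1),(1,1),(26,2),(0,1),(3,0)]⟩,⟨3,[(0,1),(8,1),(13,0),(0,0)]⟩⟩,.o ⟨false,
  1,⟨0,[(17,0),(14,0)]⟩,⟨0,[(1,0)]⟩⟩]⟩) (.Q [0,0,1,0,0,0,0,0,1,-1,0,1] (.p true [0,0,0,0,1] [1] (⟨0,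
  [(19,0)]⟩,⟨0,[(18,0)]⟩) .k 1 (⟨0,[]⟩,⟨0,[]⟩) .k .k) (.S ⟨1,0,[0,2],[0,0,0,0,1],[1,1,0,-1],(⟨0,
  [(20,0)]⟩,⟨0,[(19,0)]⟩),⟨0,[(9,0),(5,0),(0,0)]⟩,.k,(.r 0 ⟨0,[(34,0)]⟩ ⟨1,[(10,1),(6,0),(0,0),(19,
  2)]⟩),⟨false,1,⟨0,[(35,0),(2,0)]⟩,⟨0,[(36,0)]⟩⟩,⟨true,0,⟨0,[(40,0)]⟩,⟨0,[]⟩⟩,⟨true,0,⟨0,[]⟩,⟨0,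
  [(40,0)]⟩⟩,⟨false,0,⟨0,[(36,0)]⟩,⟨0,[(35,0),(2,0)]⟩⟩,[.e ⟨false,0,⟨0,[(34,0)]⟩,⟨1,[(17,0),(0,0),
  (17,1),(1,0)]⟩⟩ ⟨false,0,⟨0,[(32,0)]⟩,⟨0,[(38,0)]⟩⟩,.o ⟨false,0,⟨6,[(0,1),(0,0),(4,0),(0,1),(27,
  2)]⟩,⟨0,[(11,0)]⟩⟩,.a ⟨true,0,⟨0,[(18,0)]⟩,⟨0,[(2,0)]⟩⟩ ⟨true,0,⟨0,[(35,0)]⟩,⟨0,[(36,0)]⟩⟩ ⟨false,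
  0,⟨0,[(40,0)]⟩,⟨0,[(38,0)]⟩⟩,.o ⟨false,0,⟨0,[(0,0)]⟩,⟨0,[(8,0),(28,0)]⟩⟩]⟩) (.Q [0,0,0,0,0,0,1,1,
  0,0,1] (.p true [0,0,1] [] (⟨0,[(27,0)]⟩,⟨0,[(26,0)]⟩) .k 0 (⟨0,[]⟩,⟨0,[]⟩) .k .k) (.R ⟨2,true,
  false,false,[0,1],[0,0,1],[0,1,1,1],(⟨0,[]⟩,⟨0,[]⟩),(⟨0,[(28,0)]⟩,⟨0,[(27,0)]⟩),⟨0,[]⟩,.k,.k,.k,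
  .k,.k,.k,⟨false,0,⟨0,[(1,0),(4,0),(17,0),(0,0)]⟩,⟨0,[(0,0),(13,0),(20,0),(3,0)]⟩⟩,⟨true,0,⟨0,[(25,
  0)]⟩,⟨0,[(14,0)]⟩⟩,⟨true,0,⟨0,[(41,0)]⟩,⟨0,[]⟩⟩,⟨false,1,⟨0,[(13,0),(25,0)]⟩,⟨0,[(1,0),(2,0),(0,
  0),(3,0)]⟩⟩,⟨false,0,⟨0,[(37,0)]⟩,⟨0,[(36,0),(2,0)]⟩⟩,⟨true,0,⟨0,[(0,0)]⟩,⟨0,[(24,0)]⟩⟩,[]⟩) (.S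
  ⟨1,0,[0,0,0,0,0,0,0,1],[0,0,1],[0,1,0,0,0,0,0,1],(⟨0,[(28,0)]⟩,⟨0,[(27,0)]⟩),⟨0,[(17,0)]⟩,.k,.k,
  ⟨true,0,⟨0,[(41,0)]⟩,⟨0,[]⟩⟩,⟨false,1,⟨1,[(18,0),(0,0),(19,0)]⟩,⟨0,[]⟩⟩,⟨false,0,⟨0,[(37,0)]⟩,⟨0,
  [(36,0),(2,0)]⟩⟩,⟨true,0,⟨0,[(37,0)]⟩,⟨0,[(36,0)]⟩⟩,[.o ⟨false,1,⟨1,[(23,1),(10,0),(4,0)]⟩,⟨0,[(0,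
  0)]⟩⟩,.o ⟨false,1,⟨0,[(1,0),(3,0),(3,0),(3,0),(25,0)]⟩,⟨0,[(24,0)]⟩⟩,.o ⟨false,1,⟨1,[(25,1),(8,0),
  (3,0)]⟩,⟨0,[(14,0)]⟩⟩,.a ⟨true,0,⟨0,[(25,0)]⟩,⟨0,[(22,0)]⟩⟩ ⟨true,0,⟨1,[(1,1),(3,0),(7,0),(0,1),
  (8,0)]⟩,⟨0,[(0,0),(24,0)]⟩⟩ ⟨false,1,⟨1,[(1,1),(3,0),(7,0),(0,1),(8,0),(15,1)]⟩,⟨0,[(0,0),(24,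
  0)]⟩⟩]⟩)))))))) (.R ⟨0,false,false,false,[1,0,0,0,-1],[0,1],[1,0,1],(⟨0,[(13,0)]⟩,⟨0,[(14,0)]⟩),
  (⟨0,[(25,0)]⟩,⟨0,[(24,0)]⟩),⟨0,[(3,0)]⟩,.k,.k,(.r (-1) ⟨0,[(28,0),(3,0)]⟩ ⟨1,[(4,1),(6,0),(0,0),
  (19,0)]⟩),(.r (-1) ⟨0,[(28,0),(3,0)]⟩ ⟨1,[(4,1),(6,0),(0,0),(19,0)]⟩),.k,.k,⟨false,1,⟨1,[(29,1),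
  (1,0),(0,0)]⟩,⟨0,[(30,0)]⟩⟩,⟨true,1,⟨1,[(12,1),(14,0),(3,0)]⟩,⟨0,[(0,0)]⟩⟩,⟨false,0,⟨1,[(18,0),(0,
  0)]⟩,⟨1,[(31,0),(0,0)]⟩⟩,⟨true,0,⟨0,[(1,0)]⟩,⟨1,[(0,1),(27,1),(2,0),(0,0)]⟩⟩,⟨false,0,⟨0,[]⟩,⟨0,
  []⟩⟩,⟨false,0,⟨0,[]⟩,⟨0,[]⟩⟩,[.e ⟨false,0,⟨0,[]⟩,⟨1,[(11,0),(0,0),(18,0)]⟩⟩ ⟨false,1,⟨1,[(1,1),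
  (29,0),(0,0)]⟩,⟨1,[(0,1),(27,1),(2,0),(0,0)]⟩⟩,.o ⟨false,1,⟨1,[(27,0),(2,1),(1,0)]⟩,⟨0,[(29,0)]⟩⟩,
  .a ⟨true,0,⟨0,[(0,0),(30,0)]⟩,⟨0,[(12,0)]⟩⟩ ⟨true,0,⟨1,[(18,0),(0,0)]⟩,⟨0,[(28,0),(1,0)]⟩⟩ ⟨false,
  1,⟨0,[(1,0),(30,0)]⟩,⟨1,[(0,1),(27,1),(2,0),(0,0)]⟩⟩,.o ⟨false,0,⟨0,[(2,0)]⟩,⟨1,[(12,1),(14,0),(3,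
  0)]⟩⟩]⟩)) (.R ⟨0,false,false,true,[1,0,0,0,-1],[-1,1,0,0,1],[1,0,1],(⟨0,[(12,0)]⟩,⟨0,[(13,0)]⟩),
  (⟨0,[(2,0)]⟩,⟨0,[(12,0),(10,0)]⟩),⟨0,[(2,0)]⟩,.k,(.r 0 ⟨1,[(3,1),(6,0),(0,0),(19,0)]⟩ ⟨0,[(27,0),
  (3,0)]⟩),(.r (-1) ⟨0,[(27,0),(3,0)]⟩ ⟨1,[(3,1),(6,0),(0,0),(19,0)]⟩),(.r (-2) ⟨1,[(28,1),(1,0),(0,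
  2)]⟩ ⟨0,[(3,0)]⟩),.k,.k,⟨true,1,⟨1,[(0,1),(10,1),(14,0),(4,0)]⟩,⟨0,[(3,0)]⟩⟩,⟨false,2,⟨0,[(11,1),
  (14,0),(3,0)]⟩,⟨0,[(0,1),(2,0),(25,0)]⟩⟩,⟨false,0,⟨1,[(17,0),(0,0)]⟩,⟨1,[(30,0),(0,0)]⟩⟩,⟨true,0,
  ⟨0,[(3,0),(7,1),(14,0),(0,0),(1,0)]⟩,⟨0,[(0,1),(28,0)]⟩⟩,⟨false,0,⟨0,[]⟩,⟨0,[]⟩⟩,⟨false,0,⟨0,[]⟩,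
  ⟨0,[]⟩⟩,[.e ⟨false,0,⟨0,[]⟩,⟨1,[(10,0),(0,0),(18,0)]⟩⟩ ⟨false,1,⟨0,[(3,0),(7,1),(14,0),(3,0)]⟩,⟨0,
  [(0,1),(28,0)]⟩⟩,.o ⟨false,1,⟨3,[(3,1),(6,0),(0,4),(14,3),(2,1),(0,0)]⟩,⟨0,[(0,0)]⟩⟩,.a ⟨true,0,
  ⟨4,[(0,3),(2,1),(6,0),(10,0),(1,0),(5,1),(0,0)]⟩,⟨0,[(11,0)]⟩⟩ ⟨true,0,⟨1,[(17,0),(0,0)]⟩,⟨0,[(27,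
  0),(1,0)]⟩⟩ ⟨false,1,⟨3,[(3,1),(6,0),(0,8),(14,3),(2,1),(0,0)]⟩,⟨0,[(0,1),(28,0)]⟩⟩,.o ⟨false,0,
  ⟨0,[(1,0)]⟩,⟨1,[(11,1),(14,0),(3,0)]⟩⟩]⟩)) (.Q [0,0,0,0,0,0,0,0,-1,1,0,-1] (.p false [0,0,0,0,1]
  [1] (⟨0,[(12,0)]⟩,⟨0,[(11,0)]⟩) .k 1 (⟨0,[]⟩,⟨0,[]⟩) .k .k) (.Q [0,0,1,0,0,0,0,0,1,-1,0,1] (.p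
  true [0,0,0,0,1] [1] (⟨0,[(13,0)]⟩,⟨0,[(12,0)]⟩) .k 1 (⟨0,[]⟩,⟨0,[]⟩) .k .k) (.S ⟨1,0,[0,2],[0,0,
  0,0,1],[1,1,0,-1],(⟨0,[(14,0)]⟩,⟨0,[(13,0)]⟩),⟨0,[(3,0),(5,0),(0,0)]⟩,.k,(.r 0 ⟨0,[(28,0)]⟩ ⟨1,
  [(4,1),(6,0),(0,0),(19,2)]⟩),⟨false,1,⟨0,[(29,0),(2,0)]⟩,⟨0,[(30,0)]⟩⟩,⟨true,0,⟨0,[(34,0)]⟩,⟨0,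
  []⟩⟩,⟨true,0,⟨0,[]⟩,⟨0,[(34,0)]⟩⟩,⟨false,0,⟨0,[(30,0)]⟩,⟨0,[(29,0),(2,0)]⟩⟩,[.e ⟨false,0,⟨0,[(28,
  0)]⟩,⟨1,[(11,0),(0,0),(17,1),(1,0)]⟩⟩ ⟨false,0,⟨0,[(26,0)]⟩,⟨0,[(32,0)]⟩⟩,.o ⟨false,0,⟨4,[(0,2),
  (1,1),(1,0),(21,0),(0,0),(0,0)]⟩,⟨0,[(5,0)]⟩⟩,.a ⟨true,0,⟨0,[(12,0)]⟩,⟨0,[(1,0)]⟩⟩ ⟨true,0,⟨0,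
  [(29,0)]⟩,⟨0,[(30,0)]⟩⟩ ⟨false,0,⟨0,[(34,0)]⟩,⟨0,[(32,0)]⟩⟩,.o ⟨false,0,⟨0,[(0,0)]⟩,⟨1,[(1,1),(25,
  0),(3,0)]⟩⟩]⟩) (.Q [0,1,0,0,0,0,0,0,1,-1,0,1] (.p true [0,0,0,0,1] [1] (⟨0,[(14,0)]⟩,⟨0,[(13,
  0)]⟩) .k 1 (⟨0,[]⟩,⟨0,[]⟩) .k .k) (.I [1,1,0,0,0,0,0,-1] (.I [1,0,1,0,0,0,0,-1] (.Q [0,1,0,1,0,0,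
  0,0,0,-1] (.pp true [-1,1]) (.Q [0,0,0,-1,0,0,0,0,0,1] (.pp false [-1,1]) (.R ⟨0,false,false,
  false,[-1,1,0,0,1],[0,0,0,0,1],[1,1],(⟨0,[(8,0)]⟩,⟨0,[(18,0),(10,0)]⟩),(⟨0,[(19,0)]⟩,⟨0,[(18,
  0)]⟩),⟨0,[(18,0)]⟩,(.r 0 ⟨1,[(9,1),(6,0),(0,0),(19,0)]⟩ ⟨0,[(33,0),(3,0)]⟩),.k,.k,.k,.k,.k,⟨true,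
  0,⟨0,[]⟩,⟨1,[(23,0),(0,0)]⟩⟩,⟨false,0,⟨0,[(27,0),(1,0)]⟩,⟨1,[(32,0),(3,0)]⟩⟩,⟨false,1,⟨0,[(33,0),
  (3,0)]⟩,⟨0,[(9,0),(27,0)]⟩⟩,⟨true,0,⟨0,[(0,0)]⟩,⟨0,[(1,0)]⟩⟩,⟨false,0,⟨0,[]⟩,⟨0,[]⟩⟩,⟨false,0,⟨0,
  []⟩,⟨0,[]⟩⟩,[.o ⟨false,0,⟨0,[(4,0)]⟩,⟨0,[(10,0)]⟩⟩,.a ⟨true,0,⟨0,[(17,0)]⟩,⟨0,[(6,0)]⟩⟩ ⟨true,0,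
  ⟨0,[]⟩,⟨1,[(23,0),(0,0)]⟩⟩ ⟨false,0,⟨0,[(27,0),(1,0)]⟩,⟨1,[(32,0),(3,0)]⟩⟩,.o ⟨false,1,⟨0,[(7,0),
  (24,0)]⟩,⟨1,[(6,1),(16,0),(0,0)]⟩⟩,.o ⟨false,1,⟨1,[(4,1),(27,0),(4,0)]⟩,⟨0,[(6,0)]⟩⟩]⟩) (.I [1,1,
  -1,-1,0,0,0,1] (.S ⟨1,0,[0,0,1,1,0,0,0,-1],[1,1,-1],[0,1,1,1,0,0,0,-1],(⟨0,[(26,0),(1,0)]⟩,⟨0,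
  [(16,0)]⟩),⟨0,[(26,0)]⟩,.k,.k,⟨true,0,⟨0,[(40,0)]⟩,⟨0,[]⟩⟩,⟨false,1,⟨1,[(17,0),(0,0),(19,0)]⟩,⟨0,
  []⟩⟩,⟨false,0,⟨0,[(36,0)]⟩,⟨0,[(35,0),(2,0)]⟩⟩,⟨true,0,⟨0,[(36,0)]⟩,⟨0,[(35,0)]⟩⟩,[.o ⟨false,0,⟨0,
  [(1,0),(1,0),(17,0)]⟩,⟨1,[(12,1),(20,0),(4,0)]⟩⟩,.e ⟨false,0,⟨1,[(1,0),(1,1),(2,0),(1,0),(27,0)]⟩,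
  ⟨4,[(0,2),(4,0),(6,1),(1,0),(2,0),(19,0),(0,2)]⟩⟩ ⟨false,1,⟨1,[(3,1),(32,1),(0,0),(0,0)]⟩,⟨0,[(0,
  0)]⟩⟩,.a ⟨true,0,⟨0,[(21,0)]⟩,⟨0,[(24,0)]⟩⟩ ⟨false,0,⟨0,[(3,0),(32,0)]⟩,⟨0,[(0,0),(37,0)]⟩⟩ ⟨true,
  0,⟨0,[(3,0),(32,0)]⟩,⟨0,[(0,0)]⟩⟩,.o ⟨false,0,⟨0,[(13,0)]⟩,⟨1,[(24,1),(8,0),(3,0)]⟩⟩]⟩) (.S ⟨1,0,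
  [0,0,0,0,0,0,0,1],[0,0,1],[0,1,0,0,0,0,0,1],(⟨0,[(27,0)]⟩,⟨0,[(26,0)]⟩),⟨0,[(16,0)]⟩,.k,.k,⟨true,
  0,⟨0,[(40,0)]⟩,⟨0,[]⟩⟩,⟨false,1,⟨1,[(17,0),(0,0),(19,0)]⟩,⟨0,[]⟩⟩,⟨false,0,⟨0,[(36,0)]⟩,⟨0,[(35,
  0),(2,0)]⟩⟩,⟨true,0,⟨0,[(36,0)]⟩,⟨0,[(35,0)]⟩⟩,[.o ⟨false,1,⟨1,[(22,1),(10,0),(4,0)]⟩,⟨0,[(0,0),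
  (12,0),(20,0)]⟩⟩,.o ⟨false,1,⟨0,[(1,0),(10,0),(25,0)]⟩,⟨0,[(23,0)]⟩⟩,.o ⟨false,1,⟨1,[(24,1),(8,0),
  (3,0)]⟩,⟨0,[(13,0)]⟩⟩,.a ⟨true,0,⟨0,[(24,0)]⟩,⟨0,[(21,0)]⟩⟩ ⟨true,0,⟨0,[(1,0),(10,0),(8,0)]⟩,⟨0,
  [(3,0)]⟩⟩ ⟨false,1,⟨0,[(1,0),(10,0),(8,0),(16,0)]⟩,⟨0,[(3,0)]⟩⟩]⟩))) (.Q [0,-1,0,-1,0,0,0,0,-2,2,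
  0,-2] (.p false [0,0,-1,0,1] [2,0,-1,0,-1] (⟨0,[(7,0),(5,0)]⟩,⟨0,[(17,0),(7,0)]⟩) .k 2 (⟨0,[(17,
  0),(6,0)]⟩,⟨0,[(7,0),(6,0)]⟩) .k (.r 0 ⟨0,[(38,1)]⟩ ⟨0,[(36,0)]⟩)) (.R ⟨0,false,false,true,[-1,1,
  0,0,1],[1,0,0,0,-1],[0,0,1],(⟨0,[(8,0)]⟩,⟨0,[(18,0),(10,0)]⟩),(⟨0,[(18,0)]⟩,⟨0,[(19,0)]⟩),⟨0,[(18,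
  0)]⟩,(.r 0 ⟨1,[(9,1),(6,0),(0,0),(19,0)]⟩ ⟨0,[(33,0),(3,0)]⟩),.k,.k,(.r 1 ⟨0,[(9,0)]⟩ ⟨1,[(34,1),
  (1,0),(0,2)]⟩),.k,.k,⟨true,0,⟨1,[(23,0),(0,0)]⟩,⟨0,[]⟩⟩,⟨false,0,⟨0,[(6,1)]⟩,⟨1,[(4,1),(2,1),(24,
  0),(4,0)]⟩⟩,⟨false,1,⟨1,[(1,1),(30,0),(4,0)]⟩,⟨3,[(9,1),(6,0),(0,0),(17,1),(0,0)]⟩⟩,⟨true,0,⟨0,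
  [(0,0)]⟩,⟨0,[(4,1),(30,0)]⟩⟩,⟨false,0,⟨0,[]⟩,⟨0,[]⟩⟩,⟨false,0,⟨0,[]⟩,⟨0,[]⟩⟩,[.a ⟨true,0,⟨0,[(6,
  0)]⟩,⟨0,[(17,0)]⟩⟩ ⟨true,0,⟨1,[(23,0),(0,0)]⟩,⟨0,[]⟩⟩ ⟨false,0,⟨0,[(6,1)]⟩,⟨1,[(4,1),(2,1),(24,0),
  (4,0)]⟩⟩,.o ⟨false,1,⟨0,[(10,0)]⟩,⟨0,[(4,0)]⟩⟩,.o ⟨false,1,⟨0,[(7,0),(24,0)]⟩,⟨9,[(0,3),(8,3),(3,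
  1),(2,1),(6,4),(0,0),(12,1)]⟩⟩,.o ⟨false,1,⟨1,[(4,1),(27,0),(4,0)]⟩,⟨0,[(6,0)]⟩⟩]⟩) (.R ⟨0,false,
  false,true,[-1,1,0,0,1],[1,0,0,0,-1],[1],(⟨0,[(8,0)]⟩,⟨0,[(18,0),(10,0)]⟩),(⟨0,[(18,0)]⟩,⟨0,[(19,
  0)]⟩),⟨0,[(18,0)]⟩,(.r 0 ⟨1,[(9,1),(6,0),(0,0),(19,0)]⟩ ⟨0,[(33,0),(3,0)]⟩),.k,.k,(.r 1 ⟨0,[(9,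
  0)]⟩ ⟨1,[(34,1),(1,0),(0,2)]⟩),.k,.k,⟨true,0,⟨0,[]⟩,⟨1,[(23,0),(0,0)]⟩⟩,⟨false,0,⟨0,[(6,1)]⟩,⟨1,
  [(4,1),(2,1),(24,0),(4,0)]⟩⟩,⟨true,1,⟨0,[(33,0),(3,0)]⟩,⟨0,[(9,0)]⟩⟩,⟨false,1,⟨0,[(1,0),(4,0),(3,
  0)]⟩,⟨0,[(0,0)]⟩⟩,⟨false,0,⟨0,[]⟩,⟨0,[]⟩⟩,⟨false,0,⟨0,[]⟩,⟨0,[]⟩⟩,[.a ⟨true,0,⟨0,[(6,0)]⟩,⟨0,[(17,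
  0)]⟩⟩ ⟨true,0,⟨0,[]⟩,⟨1,[(23,0),(0,0)]⟩⟩ ⟨false,0,⟨0,[(6,1)]⟩,⟨1,[(4,1),(2,1),(24,0),(4,0)]⟩⟩,.o
  ⟨false,1,⟨0,[(10,0)]⟩,⟨0,[(4,0)]⟩⟩,.o ⟨false,1,⟨0,[(7,0),(24,0)]⟩,⟨1,[(6,1),(16,0),(0,0)]⟩⟩,.o
  ⟨false,1,⟨1,[(4,1),(27,0),(4,0)]⟩,⟨0,[(6,0)]⟩⟩]⟩))) (.S ⟨1,0,[0,0,0,0,0,0,0,1],[0,0,1],[0,1,0,0,0,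
  0,0,1],(⟨0,[(24,0)]⟩,⟨0,[(23,0)]⟩),⟨0,[(13,0)]⟩,.k,.k,⟨true,0,⟨0,[(37,0)]⟩,⟨0,[]⟩⟩,⟨false,1,⟨1,
  [(14,0),(0,0),(19,0)]⟩,⟨0,[]⟩⟩,⟨false,0,⟨0,[(33,0)]⟩,⟨0,[(32,0),(2,0)]⟩⟩,⟨true,0,⟨0,[(33,0)]⟩,⟨0,
  [(32,0)]⟩⟩,[.e ⟨false,0,⟨15,[(0,11),(6,0),(1,0),(1,1),(7,2),(9,4),(0,0)]⟩,⟨0,[(1,0),(33,0)]⟩⟩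
  ⟨false,0,⟨0,[(0,0)]⟩,⟨1,[(1,1),(12,0),(0,0),(19,0)]⟩⟩,.o ⟨false,1,⟨1,[(0,1),(20,1),(8,0),(4,0)]⟩,
  ⟨0,[(20,0)]⟩⟩,.o ⟨false,1,⟨1,[(21,1),(8,0),(3,0)]⟩,⟨0,[(10,0)]⟩⟩,.a ⟨true,0,⟨0,[(21,0)]⟩,⟨0,[(18,
  0)]⟩⟩ ⟨false,0,⟨0,[(0,0)]⟩,⟨0,[(20,0),(0,0),(13,0)]⟩⟩ ⟨true,0,⟨0,[(0,0)]⟩,⟨0,[(20,0),(0,0)]⟩⟩]⟩))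
  (.R ⟨1,false,false,true,[1,0,1,0,-1],[1,0,0,0,-1],[0,0,0,0,0,0,0,1],(⟨0,[(15,0),(7,0)]⟩,⟨0,[(5,0),
  (5,0)]⟩),(⟨0,[(15,0)]⟩,⟨0,[(16,0)]⟩),⟨0,[(12,0),(2,0)]⟩,.k,.k,(.r (-1) ⟨9,[(0,5),(7,3),(1,1),(18,
  0),(0,5),(2,1),(0,6)]⟩ ⟨0,[(19,0),(0,0),(11,0)]⟩),.k,.k,.k,⟨false,0,⟨4,[(0,4),(1,1),(1,1),(1,0),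
  (21,0),(0,0),(0,0)]⟩,⟨1,[(19,1),(0,1),(12,0),(0,0)]⟩⟩,⟨true,0,⟨0,[(9,0)]⟩,⟨0,[(20,0)]⟩⟩,⟨true,0,
  ⟨0,[(36,0)]⟩,⟨0,[]⟩⟩,⟨true,0,⟨0,[(19,0)]⟩,⟨4,[(0,3),(1,1),(1,1),(1,0),(11,0),(1,3),(8,0),(0,0)]⟩⟩,
  ⟨false,0,⟨0,[(32,0)]⟩,⟨0,[(31,0),(2,0)]⟩⟩,⟨true,0,⟨0,[(19,0),(12,0)]⟩,⟨0,[(0,0),(19,0),(9,0)]⟩⟩,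
  [.a ⟨true,0,⟨0,[(3,0)]⟩,⟨0,[(14,0)]⟩⟩ ⟨false,0,⟨4,[(0,4),(1,1),(1,1),(1,0),(21,0),(0,0),(0,0)]⟩,
  ⟨1,[(19,1),(0,1),(12,0),(0,0)]⟩⟩ ⟨true,0,⟨0,[(9,0)]⟩,⟨0,[(20,0)]⟩⟩,.o ⟨false,1,⟨0,[(7,0)]⟩,⟨0,[(1,
  0)]⟩⟩,.a ⟨true,0,⟨0,[(2,0),(17,0)]⟩,⟨0,[(4,0),(16,0)]⟩⟩ ⟨false,0,⟨0,[(0,0)]⟩,⟨1,[(19,1),(0,1),(12,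
  0),(0,0)]⟩⟩ ⟨true,0,⟨0,[(9,0)]⟩,⟨4,[(2,1),(1,1),(1,0),(13,4),(7,0),(0,0),(0,0)]⟩⟩,.a ⟨true,0,⟨0,
  [(3,0),(16,0)]⟩,⟨0,[(4,0),(4,0)]⟩⟩ ⟨true,0,⟨4,[(0,4),(1,1),(1,1),(1,0),(21,0),(0,0),(0,0)]⟩,⟨0,
  [(19,0),(0,0)]⟩⟩ ⟨false,1,⟨1,[(17,1),(11,0),(4,0)]⟩,⟨0,[(20,0)]⟩⟩]⟩)) (.R ⟨2,true,false,false,[0,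
  1],[1,0,0,0,-1],[1,-1],(⟨0,[]⟩,⟨0,[]⟩),(⟨0,[(14,0)]⟩,⟨0,[(15,0)]⟩),⟨0,[]⟩,.k,.k,.k,(.r 0 ⟨1,[(5,
  1),(6,0),(0,0),(19,0)]⟩ ⟨0,[(29,0),(3,0)]⟩),.k,.k,⟨true,0,⟨0,[]⟩,⟨1,[(19,0),(0,0)]⟩⟩,⟨false,0,⟨0,
  [(2,0)]⟩,⟨1,[(13,1),(14,0),(3,0)]⟩⟩,⟨true,1,⟨0,[(29,0),(3,0)]⟩,⟨0,[(5,0)]⟩⟩,⟨false,1,⟨0,[(0,0),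
  (29,0),(2,0)]⟩,⟨1,[(3,0),(1,0),(7,0),(14,0),(2,0)]⟩⟩,⟨false,1,⟨1,[(0,1),(2,1),(24,0),(4,0)]⟩,⟨1,
  [(19,0),(0,0),(14,1)]⟩⟩,⟨true,0,⟨0,[(0,0)]⟩,⟨3,[(3,0),(1,1),(7,2),(13,0),(0,1),(1,1)]⟩⟩,[]⟩)))
  (.Q [0,0,1,0,0,0,0,0,-1,1,0,-1] (.p false [0,0,0,0,1] [1] (⟨0,[(13,0)]⟩,⟨0,[(12,0)]⟩) .k 1 (⟨0,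
  []⟩,⟨0,[]⟩) .k .k) (.Q [0,0,-1,0,1,0,0,0,-2,2,0,-2] (.p false [0,0,-1,0,1] [2,0,-1,0,-1] (⟨0,[(3,
  0),(5,0)]⟩,⟨0,[(13,0),(7,0)]⟩) .k 2 (⟨0,[(13,0),(6,0)]⟩,⟨0,[(3,0),(6,0)]⟩) .k (.r 0 ⟨0,[(34,1)]⟩
  ⟨0,[(32,0)]⟩)) (.Q [0,0,0,-1,0,0,0,0,0,1] (.pp false [-1,1]) (.Q [0,0,0,0,0,0,0,0,-1,2,0,-1] (.p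
  false [-1,1,0,0,1] [1] (⟨0,[(5,0)]⟩,⟨0,[(15,0),(10,0)]⟩) (.r 0 ⟨1,[(6,1),(6,0),(0,0),(19,0)]⟩ ⟨0,
  [(30,0),(3,0)]⟩) 1 (⟨0,[]⟩,⟨0,[]⟩) .k .k) (.Q [0,2,0,0,-1,0,0,0,0,1] (.pp false [-1,1]) (.R ⟨0,
  false,false,true,[-1,1,0,0,1],[0,0,0,0,1],[1,2],(⟨0,[(7,0)]⟩,⟨0,[(17,0),(10,0)]⟩),(⟨0,[(18,0)]⟩,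
  ⟨0,[(17,0)]⟩),⟨0,[(17,0)]⟩,(.r 0 ⟨1,[(8,1),(6,0),(0,0),(19,0)]⟩ ⟨0,[(32,0),(3,0)]⟩),.k,.k,.k,.k,
  .k,⟨true,0,⟨0,[]⟩,⟨1,[(22,0),(0,0)]⟩⟩,⟨false,0,⟨1,[(1,0),(14,0)]⟩,⟨1,[(31,0),(3,0)]⟩⟩,⟨true,0,⟨0,
  [(32,0)]⟩,⟨0,[(8,0),(27,0)]⟩⟩,⟨false,0,⟨0,[(2,0)]⟩,⟨1,[(31,0),(2,1),(1,0)]⟩⟩,⟨false,0,⟨0,[]⟩,⟨0,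
  []⟩⟩,⟨false,0,⟨0,[]⟩,⟨0,[]⟩⟩,[.e ⟨false,0,⟨0,[(30,0)]⟩,⟨0,[(36,0)]⟩⟩ ⟨false,(-1),⟨0,[(0,0)]⟩,⟨1,
  [(31,0),(3,0),(0,1)]⟩⟩,.o ⟨false,0,⟨4,[(5,2),(2,0),(7,1),(13,0),(0,0),(1,0)]⟩,⟨0,[(9,0)]⟩⟩,.o
  ⟨false,1,⟨0,[(6,0),(24,0)]⟩,⟨0,[(4,0)]⟩⟩,.a ⟨true,0,⟨0,[(5,0)]⟩,⟨0,[(1,0)]⟩⟩ ⟨false,0,⟨0,[(32,0),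
  (1,0)]⟩,⟨1,[(22,0),(0,0),(12,1)]⟩⟩ ⟨true,(-1),⟨0,[(0,0)]⟩,⟨1,[(31,0),(4,0)]⟩⟩]⟩) (.R ⟨0,false,
  false,false,[-1,1,0,0,1],[0,0,0,0,1],[1,1],(⟨0,[(7,0)]⟩,⟨0,[(17,0),(10,0)]⟩),(⟨0,[(18,0)]⟩,⟨0,
  [(17,0)]⟩),⟨0,[(17,0)]⟩,(.r 0 ⟨1,[(8,1),(6,0),(0,0),(19,0)]⟩ ⟨0,[(32,0),(3,0)]⟩),.k,.k,.k,.k,.k,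
  ⟨true,0,⟨0,[]⟩,⟨1,[(22,0),(0,0)]⟩⟩,⟨false,0,⟨1,[(1,0),(14,0)]⟩,⟨1,[(31,0),(3,0)]⟩⟩,⟨false,1,⟨0,
  [(32,0),(3,0)]⟩,⟨0,[(8,0),(27,0)]⟩⟩,⟨true,0,⟨0,[(2,0)]⟩,⟨0,[(0,0),(7,0),(23,0),(1,0)]⟩⟩,⟨false,0,
  ⟨0,[]⟩,⟨0,[]⟩⟩,⟨false,0,⟨0,[]⟩,⟨0,[]⟩⟩,[.o ⟨false,0,⟨4,[(5,2),(2,0),(7,1),(13,0),(0,0),(1,0)]⟩,⟨0,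
  [(9,0)]⟩⟩,.o ⟨false,0,⟨0,[(5,0)]⟩,⟨0,[(15,0)]⟩⟩,.o ⟨false,1,⟨0,[(6,0),(24,0)]⟩,⟨0,[(4,0)]⟩⟩,.a
  ⟨true,0,⟨0,[(5,0)]⟩,⟨0,[(1,0)]⟩⟩ ⟨true,0,⟨0,[(32,0),(1,0)]⟩,⟨1,[(22,0),(0,0)]⟩⟩ ⟨false,0,⟨1,[(1,
  0),(14,0)]⟩,⟨1,[(31,0),(4,0)]⟩⟩]⟩)) (.R ⟨0,false,false,true,[-1,1,0,0,1],[0,1],[0,1,2,1],(⟨0,[(6,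
  0)]⟩,⟨0,[(16,0),(10,0)]⟩),(⟨0,[(28,0)]⟩,⟨0,[(27,0)]⟩),⟨0,[(16,0)]⟩,(.r 0 ⟨1,[(7,1),(6,0),(0,0),
  (19,0)]⟩ ⟨0,[(31,0),(3,0)]⟩),.k,.k,.k,.k,.k,⟨true,0,⟨1,[(21,0),(0,0)]⟩,⟨0,[]⟩⟩,⟨false,1,⟨3,[(2,1),
  (11,0),(0,0),(18,0)]⟩,⟨0,[(4,0)]⟩⟩,⟨true,0,⟨1,[(21,0),(0,0)]⟩,⟨0,[(31,0),(1,0)]⟩⟩,⟨false,1,⟨3,[(2,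
  1),(18,0),(0,0),(12,1)]⟩,⟨0,[(4,0)]⟩⟩,⟨false,0,⟨0,[]⟩,⟨0,[]⟩⟩,⟨false,0,⟨0,[]⟩,⟨0,[]⟩⟩,[.o ⟨false,
  0,⟨1,[(0,1),(1,0),(4,0),(25,0)]⟩,⟨0,[(32,0),(2,0)]⟩⟩,.a ⟨true,0,⟨0,[(33,0)]⟩,⟨0,[(1,0)]⟩⟩ ⟨false,
  0,⟨0,[(7,0),(27,0)]⟩,⟨1,[(31,1),(2,0),(0,0)]⟩⟩ ⟨true,0,⟨0,[(3,0),(29,0)]⟩,⟨0,[(0,0),(0,0)]⟩⟩,.o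
  ⟨false,1,⟨0,[(5,0),(24,0)]⟩,⟨0,[(3,0)]⟩⟩,.o ⟨false,0,⟨0,[(0,0)]⟩,⟨3,[(2,1),(11,1),(0,1),(5,0),(0,
  0)]⟩⟩]⟩)) (.Q [0,0,0,0,0,0,-1,-1,0,0,-1] (.p false [0,0,1] [] (⟨0,[(23,0)]⟩,⟨0,[(22,0)]⟩) .k 0
  (⟨0,[]⟩,⟨0,[]⟩) .k .k) (.S ⟨1,0,[0,0,0,0,0,0,0,1],[0,0,1],[0,1,0,0,0,0,0,1],(⟨0,[(24,0)]⟩,⟨0,[(23,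
  0)]⟩),⟨0,[(13,0)]⟩,.k,.k,⟨true,0,⟨0,[(37,0)]⟩,⟨0,[]⟩⟩,⟨false,1,⟨1,[(14,0),(0,0),(19,0)]⟩,⟨0,[]⟩⟩,
  ⟨false,0,⟨0,[(33,0)]⟩,⟨0,[(32,0),(2,0)]⟩⟩,⟨true,0,⟨0,[(33,0)]⟩,⟨0,[(32,0)]⟩⟩,[.o ⟨false,1,⟨1,[(19,
  1),(10,0),(4,0)]⟩,⟨0,[(0,0)]⟩⟩,.o ⟨false,1,⟨0,[(1,0),(7,0),(25,0)]⟩,⟨0,[(20,0)]⟩⟩,.o ⟨false,1,⟨1,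
  [(21,1),(8,0),(3,0)]⟩,⟨0,[(10,0)]⟩⟩,.a ⟨true,0,⟨0,[(21,0)]⟩,⟨0,[(18,0)]⟩⟩ ⟨true,0,⟨0,[(1,0),(7,0),
  (8,0)]⟩,⟨0,[(0,0),(20,0)]⟩⟩ ⟨false,1,⟨0,[(1,0),(7,0),(8,0),(16,0)]⟩,⟨0,[(0,0),(20,0)]⟩⟩]⟩) (.Q [0,
  0,0,1,0,0,-1,-1,0,0,-1] (.p false [0,0,1] [] (⟨0,[(24,0)]⟩,⟨0,[(23,0)]⟩) .k 0 (⟨0,[]⟩,⟨0,[]⟩) .k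
  .k) (.R ⟨2,true,false,false,[0,1],[0,0,1],[0,1,1,1],(⟨0,[]⟩,⟨0,[]⟩),(⟨0,[(25,0)]⟩,⟨0,[(24,0)]⟩),
  ⟨0,[]⟩,.k,.k,.k,.k,.k,.k,⟨false,0,⟨4,[(0,4),(1,1),(0,0),(2,1),(1,0),(13,4),(9,2)]⟩,⟨0,[(1,0),(9,
  0),(20,0),(3,0)]⟩⟩,⟨true,0,⟨0,[(22,0)]⟩,⟨0,[(11,0)]⟩⟩,⟨true,0,⟨0,[(38,0)]⟩,⟨0,[]⟩⟩,⟨false,1,⟨0,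
  [(10,0),(25,0)]⟩,⟨0,[(0,0)]⟩⟩,⟨false,0,⟨0,[(34,0)]⟩,⟨0,[(33,0),(2,0)]⟩⟩,⟨true,0,⟨0,[(1,0)]⟩,⟨0,
  [(21,0)]⟩⟩,[]⟩) (.S ⟨1,0,[0,0,0,0,0,0,0,1],[0,0,1],[0,1,0,0,0,0,0,1],(⟨0,[(25,0)]⟩,⟨0,[(24,0)]⟩),
  ⟨0,[(14,0)]⟩,.k,.k,⟨true,0,⟨0,[(38,0)]⟩,⟨0,[]⟩⟩,⟨false,1,⟨1,[(15,0),(0,0),(19,0)]⟩,⟨0,[]⟩⟩,⟨false,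
  0,⟨0,[(34,0)]⟩,⟨0,[(33,0),(2,0)]⟩⟩,⟨true,0,⟨0,[(34,0)]⟩,⟨0,[(33,0)]⟩⟩,[.o ⟨false,0,⟨0,[(0,0),(1,
  0)]⟩,⟨1,[(15,0),(0,0),(4,1),(14,0)]⟩⟩,.o ⟨false,1,⟨1,[(1,1),(29,0),(4,0)]⟩,⟨0,[(21,0)]⟩⟩,.o
  ⟨false,1,⟨1,[(22,1),(8,0),(3,0)]⟩,⟨0,[(11,0)]⟩⟩,.a ⟨true,0,⟨0,[(22,0)]⟩,⟨0,[(19,0)]⟩⟩ ⟨false,0,⟨0,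
  [(0,0),(1,0),(16,0)]⟩,⟨0,[(21,0),(0,0),(13,0)]⟩⟩ ⟨true,0,⟨0,[(0,0),(1,0),(16,0)]⟩,⟨0,[(21,0),(0,
  0)]⟩⟩]⟩)))) (.R ⟨0,false,false,false,[1,0,0,0,-1],[0,0,0,0,1],[1,-1],(⟨0,[(14,0)]⟩,⟨0,[(15,0)]⟩),
  (⟨0,[(15,0)]⟩,⟨0,[(14,0)]⟩),⟨0,[(4,0)]⟩,.k,.k,(.r (-1) ⟨0,[(29,0),(3,0)]⟩ ⟨1,[(5,1),(6,0),(0,0),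
  (19,0)]⟩),.k,.k,.k,⟨true,1,⟨0,[(33,0)]⟩,⟨2,[(0,0),(0,1),(3,1),(23,1)]⟩⟩,⟨false,0,⟨3,[(0,0),(2,4),
  (9,0),(14,0)]⟩,⟨0,[(1,0),(4,0),(22,0),(1,0)]⟩⟩,⟨true,0,⟨0,[]⟩,⟨0,[(35,0)]⟩⟩,⟨false,(-1),⟨2,[(0,1),
  (2,1),(1,0),(17,0),(1,0),(3,0)]⟩,⟨1,[(1,1),(4,1),(25,0),(0,0)]⟩⟩,⟨false,0,⟨0,[]⟩,⟨0,[]⟩⟩,⟨false,0,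
  ⟨0,[]⟩,⟨0,[]⟩⟩,[.o ⟨false,0,⟨15,[(0,2),(4,1),(7,9),(13,4),(0,4),(1,1)]⟩,⟨0,[(6,0)]⟩⟩,.o ⟨false,0,
  ⟨0,[(2,0)]⟩,⟨0,[(12,0)]⟩⟩,.o ⟨false,1,⟨0,[(12,0)]⟩,⟨0,[(2,0)]⟩⟩,.a ⟨true,0,⟨0,[(1,0)]⟩,⟨0,[(3,
  0)]⟩⟩ ⟨true,1,⟨1,[(32,0),(0,0)]⟩,⟨2,[(0,0),(0,1),(3,1),(23,1)]⟩⟩ ⟨false,0,⟨3,[(0,0),(2,4),(9,0),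
  (14,0)]⟩,⟨0,[(1,0),(4,0)]⟩⟩]⟩)) (.Q [0,0,0,0,0,0,-1,-1,0,1,-1] (.p false [0,0,1] [1] (⟨0,[(21,
  0)]⟩,⟨0,[(20,0)]⟩) .k 1 (⟨0,[]⟩,⟨0,[]⟩) .k .k) (.I [0,0,-1,0,0,0,0,1] (.S ⟨1,0,[0,0,0,0,0,0,0,1],
  [0,0,1],[0,1,0,0,0,0,0,1],(⟨0,[(23,0)]⟩,⟨0,[(22,0)]⟩),⟨0,[(12,0)]⟩,.k,.k,⟨true,0,⟨0,[(36,0)]⟩,⟨0,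
  []⟩⟩,⟨false,1,⟨1,[(13,0),(0,0),(19,0)]⟩,⟨0,[]⟩⟩,⟨false,0,⟨0,[(32,0)]⟩,⟨0,[(31,0),(2,0)]⟩⟩,⟨true,0,
  ⟨0,[(32,0)]⟩,⟨0,[(31,0)]⟩⟩,[.e ⟨false,0,⟨15,[(0,11),(5,0),(1,0),(1,1),(7,2),(9,4),(0,0)]⟩,⟨0,[(1,
  0),(0,0),(4,0),(12,0)]⟩⟩ ⟨false,0,⟨0,[(0,0)]⟩,⟨1,[(1,1),(18,1),(8,0),(3,0)]⟩⟩,.o ⟨false,1,⟨1,[(0,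
  1),(19,1),(8,0),(4,0)]⟩,⟨0,[(19,0)]⟩⟩,.o ⟨false,1,⟨1,[(20,1),(8,0),(3,0)]⟩,⟨0,[(9,0)]⟩⟩,.a ⟨true,
  0,⟨0,[(20,0)]⟩,⟨0,[(17,0)]⟩⟩ ⟨false,0,⟨0,[(0,0)]⟩,⟨1,[(1,1),(18,1),(8,0),(4,0)]⟩⟩ ⟨true,0,⟨0,[(0,
  0)]⟩,⟨0,[(19,0),(0,0)]⟩⟩]⟩) (.Q [0,0,0,-1,0,0,0,0,0,1] (.pp false [-1,1]) (.Q [0,0,2,0,0,0,0,0,-1,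
  1,0,-1] (.p false [0,0,0,0,1] [1] (⟨0,[(17,0)]⟩,⟨0,[(16,0)]⟩) .k 1 (⟨0,[]⟩,⟨0,[]⟩) .k .k) (.R ⟨0,
  false,false,true,[1,0,0,0,-1],[0,1],[1,1],(⟨0,[(17,0)]⟩,⟨0,[(18,0)]⟩),(⟨0,[(29,0)]⟩,⟨0,[(28,0)]⟩),
  ⟨0,[(7,0)]⟩,.k,.k,(.r (-1) ⟨0,[(32,0),(3,0)]⟩ ⟨7,[(0,1),(7,3),(6,2),(0,4),(14,0),(2,3)]⟩),(.r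
  (-1) ⟨0,[(32,0),(3,0)]⟩ ⟨7,[(0,1),(7,3),(6,2),(0,4),(14,0),(2,3)]⟩),.k,.k,⟨false,1,⟨1,[(32,1),(2,
  0),(0,0)]⟩,⟨0,[(8,0),(27,0)]⟩⟩,⟨true,0,⟨0,[(4,0)]⟩,⟨0,[(0,0)]⟩⟩,⟨false,0,⟨0,[(38,0)]⟩,⟨0,[(36,
  0)]⟩⟩,⟨true,(-1),⟨0,[(4,0),(3,0)]⟩,⟨0,[(1,0),(7,0)]⟩⟩,⟨false,0,⟨0,[]⟩,⟨0,[]⟩⟩,⟨false,0,⟨0,[]⟩,⟨0,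
  []⟩⟩,[.o ⟨false,0,⟨0,[(4,0),(3,0),(0,0)]⟩,⟨0,[(33,0),(2,0)]⟩⟩,.a ⟨true,0,⟨0,[(34,0)]⟩,⟨0,[(1,
  0)]⟩⟩ ⟨true,0,⟨0,[]⟩,⟨1,[(22,0),(0,0)]⟩⟩ ⟨false,0,⟨0,[(4,0),(29,0)]⟩,⟨0,[(1,0),(13,0)]⟩⟩,.o
  ⟨false,1,⟨0,[(15,0)]⟩,⟨0,[(5,0)]⟩⟩,.o ⟨false,1,⟨3,[(0,1),(14,2),(0,0),(14,0)]⟩,⟨0,[(4,0)]⟩⟩]⟩)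
  (.Q [0,0,0,0,0,0,0,0,-1,2,0,-1] (.p false [-1,1,0,0,1] [1] (⟨0,[(7,0)]⟩,⟨0,[(17,0),(10,0)]⟩) (.r
  0 ⟨1,[(8,1),(6,0),(0,0),(19,0)]⟩ ⟨0,[(32,0),(3,0)]⟩) 1 (⟨0,[]⟩,⟨0,[]⟩) .k .k) (.R ⟨0,false,false,
  false,[-1,1,0,0,1],[0,0,0,0,1],[1,1],(⟨0,[(8,0)]⟩,⟨0,[(18,0),(10,0)]⟩),(⟨0,[(19,0)]⟩,⟨0,[(18,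
  0)]⟩),⟨0,[(18,0)]⟩,(.r 0 ⟨1,[(9,1),(6,0),(0,0),(19,0)]⟩ ⟨0,[(33,0),(3,0)]⟩),.k,.k,.k,.k,.k,⟨true,
  0,⟨0,[]⟩,⟨1,[(23,0),(0,0)]⟩⟩,⟨false,0,⟨1,[(0,0),(16,0)]⟩,⟨1,[(32,0),(3,0)]⟩⟩,⟨false,1,⟨0,[(33,0),
  (3,0)]⟩,⟨0,[(9,0),(27,0)]⟩⟩,⟨true,0,⟨0,[(2,0)]⟩,⟨2,[(1,0),(7,1),(0,0),(21,0),(2,0)]⟩⟩,⟨false,0,⟨0,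
  []⟩,⟨0,[]⟩⟩,⟨false,0,⟨0,[]⟩,⟨0,[]⟩⟩,[.o ⟨false,0,⟨4,[(6,2),(2,0),(7,1),(13,0),(0,0),(1,0)]⟩,⟨0,
  [(10,0)]⟩⟩,.o ⟨false,0,⟨0,[(6,0)]⟩,⟨0,[(16,0)]⟩⟩,.e ⟨false,0,⟨0,[]⟩,⟨1,[(16,0),(0,0),(19,0)]⟩⟩
  ⟨false,0,⟨1,[(0,0),(16,0),(5,0),(0,0)]⟩,⟨3,[(1,1),(8,1),(21,0),(4,0)]⟩⟩,.a ⟨true,0,⟨0,[(6,0)]⟩,⟨0,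
  [(0,0)]⟩⟩ ⟨true,0,⟨5,[(0,0),(0,1),(7,0),(0,0),(20,1),(1,0)]⟩,⟨1,[(23,0),(0,0)]⟩⟩ ⟨false,0,⟨1,[(0,
  0),(16,0)]⟩,⟨1,[(32,0),(4,0)]⟩⟩]⟩) (.I [1,-1,2,1] (.S ⟨1,0,[0,0,-1,-1],[1,-1],[0,1,-1,-1],(⟨0,
  [(30,0)]⟩,⟨0,[(31,0)]⟩),⟨0,[(15,0),(0,0)]⟩,.k,(.r (-1) ⟨0,[(34,1),(3,0)]⟩ ⟨2,[(0,3),(9,1),(26,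
  1)]⟩),⟨true,0,⟨0,[(40,0)]⟩,⟨0,[]⟩⟩,⟨false,1,⟨1,[(17,0),(0,0),(19,0)]⟩,⟨0,[]⟩⟩,⟨false,0,⟨0,[(36,
  0)]⟩,⟨0,[(35,0),(2,0)]⟩⟩,⟨true,0,⟨0,[(36,0)]⟩,⟨0,[(35,0)]⟩⟩,[.a ⟨true,0,⟨0,[(3,0)]⟩,⟨0,[(36,0)]⟩⟩
  ⟨true,0,⟨0,[(34,0)]⟩,⟨0,[(0,0)]⟩⟩ ⟨false,1,⟨1,[(34,1),(2,0),(0,0)]⟩,⟨2,[(0,1),(9,0),(26,0)]⟩⟩,.o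
  ⟨false,1,⟨0,[(35,0),(2,0)]⟩,⟨2,[(2,0),(7,1),(0,0),(21,0),(2,0)]⟩⟩,.o ⟨false,0,⟨1,[(0,0),(34,0)]⟩,
  ⟨1,[(33,0),(3,0)]⟩⟩,.o ⟨false,0,⟨0,[(0,0),(34,0)]⟩,⟨5,[(2,3),(8,3),(20,1),(0,0),(3,0)]⟩⟩]⟩) (.Q
  [0,-1,1,1,0,0,-1,-1,-1,2,-1,-1] (.p false [-1,0,1,0,1] [1] (⟨0,[(9,0),(6,0)]⟩,⟨0,[(19,0),(6,0)]⟩)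
  .k 1 (⟨0,[]⟩,⟨0,[]⟩) .k (.r 0 ⟨0,[(13,0),(8,0)]⟩ ⟨1,[(4,1),(32,0),(0,0)]⟩)) (.R ⟨0,false,false,
  true,[-1,1,0,0,1],[-1,0,1,0,1],[0,1],(⟨0,[(10,0)]⟩,⟨0,[(20,0),(10,0)]⟩),(⟨0,[(10,0),(6,0)]⟩,⟨0,
  [(20,0),(6,0)]⟩),⟨0,[(20,0)]⟩,(.r 0 ⟨1,[(11,1),(6,0),(0,0),(19,0)]⟩ ⟨1,[(1,0),(34,0),(2,1)]⟩),.k,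
  .k,.k,.k,.k,⟨false,1,⟨7,[(0,1),(0,1),(1,3),(1,5),(6,1),(12,1),(12,2),(0,2)]⟩,⟨0,[(14,0),(8,0)]⟩⟩,
  ⟨true,0,⟨0,[(25,0)]⟩,⟨0,[(14,0)]⟩⟩,⟨false,1,⟨1,[(1,0),(34,0),(2,1)]⟩,⟨0,[(11,0),(27,0)]⟩⟩,⟨true,0,
  ⟨0,[(13,0)]⟩,⟨3,[(0,2),(1,0),(0,1),(7,0),(12,0),(9,0)]⟩⟩,⟨false,0,⟨0,[]⟩,⟨0,[]⟩⟩,⟨false,0,⟨0,[]⟩,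
  ⟨0,[]⟩⟩,[.e ⟨false,0,⟨2,[(1,0),(9,0),(26,0)]⟩,⟨1,[(18,0),(0,0),(19,0)]⟩⟩ ⟨false,0,⟨0,[(23,0),(17,
  0)]⟩,⟨0,[(0,0),(0,0),(0,0),(36,0)]⟩⟩,.o ⟨false,0,⟨0,[(2,0),(20,0)]⟩,⟨0,[(6,0),(5,0)]⟩⟩,.a ⟨true,0,
  ⟨0,[(7,0)]⟩,⟨0,[(0,0),(12,0)]⟩⟩ ⟨true,0,⟨0,[(41,0)]⟩,⟨0,[]⟩⟩ ⟨false,0,⟨1,[(23,1),(1,0),(0,0)]⟩,⟨0,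
  [(0,0),(0,0),(0,0),(36,0)]⟩⟩,.o ⟨false,0,⟨0,[(2,0)]⟩,⟨5,[(0,1),(3,1),(13,4),(0,0),(3,1),(14,
  0)]⟩⟩]⟩) (.I [0,-1,2,2] (.S ⟨1,0,[0,0,-1,-1],[1,-1],[0,0,1],(⟨0,[(32,0)]⟩,⟨0,[(33,0)]⟩),⟨0,[(17,
  0),(0,0)]⟩,.k,(.r (-1) ⟨0,[(2,0),(34,0),(2,0)]⟩ ⟨0,[(0,0),(41,0)]⟩),⟨true,0,⟨0,[(0,0),(36,0)]⟩,⟨0,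
  [(2,0)]⟩⟩,⟨false,1,⟨1,[(19,0),(0,0),(19,0)]⟩,⟨0,[]⟩⟩,⟨false,0,⟨0,[(0,0)]⟩,⟨0,[(2,0),(34,0),(2,
  0)]⟩⟩,⟨true,0,⟨0,[(38,0)]⟩,⟨0,[(37,0)]⟩⟩,[.a ⟨true,0,⟨0,[(5,0)]⟩,⟨0,[(38,0)]⟩⟩ ⟨true,0,⟨1,[(26,0),
  (0,0)]⟩,⟨0,[]⟩⟩ ⟨false,1,⟨1,[(2,0),(34,0),(1,0),(0,0)]⟩,⟨1,[(0,0),(41,0)]⟩⟩,.o ⟨false,1,⟨0,[(37,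
  0),(2,0)]⟩,⟨2,[(4,0),(7,1),(0,0),(21,0),(2,0)]⟩⟩,.o ⟨false,0,⟨1,[(26,0),(0,0)]⟩,⟨1,[(35,0),(3,
  0)]⟩⟩,.o ⟨false,0,⟨0,[(26,0),(0,0)]⟩,⟨2,[(2,0),(1,0),(8,0),(21,0),(2,0),(0,0)]⟩⟩]⟩) (.Q [0,0,-1,0,
  0,0,0,0,1,-2,0,1] (.p true [-1,1,0,0,1] [1] (⟨0,[(11,0)]⟩,⟨0,[(21,0),(10,0)]⟩) (.r 0 ⟨1,[(12,1),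
  (6,0),(0,0),(19,0)]⟩ ⟨5,[(0,1),(36,1),(1,0),(0,4)]⟩) 1 (⟨0,[]⟩,⟨0,[]⟩) .k .k) (.Q [0,0,2,0,0,0,0,
  0,-1,2,0,-1] (.p false [-1,1,0,0,1] [1] (⟨0,[(12,0)]⟩,⟨0,[(22,0),(10,0)]⟩) (.r 0 ⟨1,[(13,1),(6,0),
  (0,0),(19,0)]⟩ ⟨5,[(1,1),(36,1),(1,0),(0,4)]⟩) 1 (⟨0,[]⟩,⟨0,[]⟩) .k .k) (.S ⟨1,0,[0,-1,-1,-1],[2,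
  -1,0,0,-1],[1,0,-1,-2],(⟨0,[(23,0),(10,0)]⟩,⟨0,[(13,0)]⟩),⟨0,[(19,0),(0,0),(2,0)]⟩,(.r (-1) ⟨5,
  [(2,1),(36,1),(1,0),(0,4)]⟩ ⟨7,[(0,2),(13,3),(7,2),(14,2),(2,3),(0,0)]⟩),(.r (-1) ⟨0,[(2,0),(39,
  0)]⟩ ⟨1,[(0,0),(13,1),(7,0),(14,0),(2,1),(1,0)]⟩),⟨true,0,⟨0,[(39,0)]⟩,⟨0,[(40,0)]⟩⟩,⟨false,1,⟨3,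
  [(0,0),(21,0),(14,0),(3,0),(0,1)]⟩,⟨0,[]⟩⟩,⟨false,0,⟨0,[]⟩,⟨3,[(0,0),(21,0),(14,0),(3,0),(0,1)]⟩⟩,
  ⟨true,0,⟨0,[(40,0)]⟩,⟨0,[(39,0)]⟩⟩,[.o ⟨false,1,⟨0,[(7,0),(7,0)]⟩,⟨1,[(5,0),(6,0),(1,0),(22,0),(2,
  0)]⟩⟩,.o ⟨false,2,⟨0,[(7,0),(13,0),(20,0)]⟩,⟨0,[(1,0),(12,0)]⟩⟩,.o ⟨false,1,⟨1,[(0,1),(36,0),(3,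
  0)]⟩,⟨0,[(1,0)]⟩⟩,.a ⟨true,0,⟨0,[(0,0)]⟩,⟨0,[(6,0)]⟩⟩ ⟨false,1,⟨0,[(2,0),(39,0)]⟩,⟨0,[(14,1),(27,
  1)]⟩⟩ ⟨true,1,⟨0,[(4,0),(37,0)]⟩,⟨1,[(14,1),(13,0),(0,0)]⟩⟩]⟩) (.I [1,1,-1,-1,0,0,0,1] (.I [0,0,0,
  1,0,0,0,-1] (.S ⟨1,0,[0,0,1,1,0,0,0,-1],[1,1,-1],[0,1,1,1,0,0,0,-1],(⟨0,[(32,0),(1,0)]⟩,⟨0,[(22,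
  0)]⟩),⟨0,[(32,0)]⟩,.k,.k,⟨true,0,⟨0,[(46,0)]⟩,⟨0,[]⟩⟩,⟨false,1,⟨1,[(23,0),(0,0),(19,0)]⟩,⟨0,[]⟩⟩,
  ⟨false,0,⟨0,[(42,0)]⟩,⟨0,[(41,0),(2,0)]⟩⟩,⟨true,0,⟨0,[(42,0)]⟩,⟨0,[(41,0)]⟩⟩,[.o ⟨false,0,⟨0,[(0,
  0),(18,0)]⟩,⟨1,[(18,1),(20,0),(4,0)]⟩⟩,.e ⟨false,0,⟨0,[(0,0)]⟩,⟨5,[(1,1),(16,3),(1,1),(18,0),(3,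
  1),(0,2)]⟩⟩ ⟨false,1,⟨1,[(0,1),(22,0),(0,0),(19,0)]⟩,⟨0,[(1,0)]⟩⟩,.a ⟨true,0,⟨0,[(27,0)]⟩,⟨0,[(30,
  0)]⟩⟩ ⟨false,0,⟨1,[(0,0),(9,0),(5,0),(27,0)]⟩,⟨0,[(1,0),(42,0)]⟩⟩ ⟨true,0,⟨1,[(0,0),(9,0),(5,0),
  (27,0)]⟩,⟨0,[(1,0)]⟩⟩,.o ⟨false,0,⟨0,[(19,0)]⟩,⟨1,[(30,1),(8,0),(3,0)]⟩⟩]⟩) (.Q [0,0,0,1,0,0,-1,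
  -1,0,0,-1] (.p false [0,0,1] [] (⟨0,[(33,0)]⟩,⟨0,[(32,0)]⟩) .k 0 (⟨0,[]⟩,⟨0,[]⟩) .k .k) (.S ⟨1,0,
  [0,0,1,1,0,0,0,-1],[1,1,-1],[1,1,1,0,0,0,0,-1],(⟨0,[(33,0),(1,0)]⟩,⟨0,[(23,0)]⟩),⟨0,[(33,0)]⟩,.k,
  .k,⟨true,0,⟨0,[(42,0)]⟩,⟨0,[(43,0)]⟩⟩,⟨false,1,⟨1,[(24,0),(0,0),(19,0)]⟩,⟨0,[]⟩⟩,⟨false,0,⟨0,[]⟩,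
  ⟨1,[(24,0),(0,0),(19,0)]⟩⟩,⟨true,0,⟨0,[(43,0)]⟩,⟨0,[(42,0)]⟩⟩,[.o ⟨false,0,⟨0,[(0,0)]⟩,⟨1,[(19,1),
  (20,0),(4,0)]⟩⟩,.o ⟨false,1,⟨1,[(0,1),(23,0),(0,0),(19,0)]⟩,⟨3,[(1,2),(1,0),(1,0),(0,0),(10,1),(0,
  1),(12,2)]⟩⟩,.a ⟨true,0,⟨0,[(28,0)]⟩,⟨0,[(31,0)]⟩⟩ ⟨false,0,⟨0,[(11,0)]⟩,⟨0,[(2,0),(40,0),(1,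
  0)]⟩⟩ ⟨true,0,⟨0,[(0,0),(30,0)]⟩,⟨0,[(2,0)]⟩⟩,.o ⟨false,0,⟨0,[(20,0)]⟩,⟨1,[(31,1),(8,0),(3,
  0)]⟩⟩]⟩) (.R ⟨1,false,false,false,[0,0,1],[0,0,0,0,1],[1,1,0,-1,0,0,0,1],(⟨0,[(34,0)]⟩,⟨0,[(33,
  0)]⟩),(⟨0,[(27,0)]⟩,⟨0,[(26,0)]⟩),⟨0,[(23,0)]⟩,.k,.k,.k,.k,(.r (-1) ⟨0,[(2,0),(42,0)]⟩ ⟨3,[(11,3),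
  (5,1),(6,0),(0,0),(17,1),(0,0)]⟩),.k,⟨true,0,⟨0,[(1,0)]⟩,⟨0,[(11,0),(31,0)]⟩⟩,⟨false,0,⟨3,[(3,0),
  (11,1),(5,1),(3,0)]⟩,⟨2,[(7,0),(9,0),(0,2),(12,2),(12,0)]⟩⟩,⟨true,0,⟨0,[(42,0)]⟩,⟨0,[(43,0)]⟩⟩,
  ⟨false,0,⟨1,[(8,0),(3,1),(12,0)]⟩,⟨0,[(0,0),(17,0),(24,0)]⟩⟩,⟨false,0,⟨0,[]⟩,⟨1,[(24,0),(0,0),(19,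
  0)]⟩⟩,⟨false,0,⟨1,[(8,0),(3,1),(12,0),(17,1)]⟩,⟨0,[(0,0),(17,0)]⟩⟩,[.o ⟨false,0,⟨3,[(6,0),(10,0),
  (7,2),(4,0),(9,0)]⟩,⟨0,[(18,0)]⟩⟩,.o ⟨false,0,⟨0,[(14,0)]⟩,⟨0,[(24,0)]⟩⟩,.o ⟨false,1,⟨1,[(31,1),
  (8,0),(3,0)]⟩,⟨0,[(20,0)]⟩⟩,.a ⟨true,0,⟨0,[(31,0)]⟩,⟨0,[(28,0)]⟩⟩ ⟨true,0,⟨0,[(2,0)]⟩,⟨0,[(11,0),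
  (31,0)]⟩⟩ ⟨false,0,⟨3,[(3,0),(11,1),(5,1),(3,0)]⟩,⟨0,[(18,0),(12,0)]⟩⟩]⟩))) (.I [1,1,-1,0,0,0,0,
  1] (.S ⟨1,0,[0,0,1,1,0,0,0,-1],[1,1,-1],[1,1,1,0,0,0,0,-1],(⟨0,[(32,0),(1,0)]⟩,⟨0,[(22,0)]⟩),⟨0,
  [(32,0)]⟩,.k,.k,⟨true,0,⟨0,[(41,0)]⟩,⟨0,[(42,0)]⟩⟩,⟨false,1,⟨1,[(23,0),(0,0),(19,0)]⟩,⟨0,[]⟩⟩,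
  ⟨false,0,⟨0,[]⟩,⟨1,[(23,0),(0,0),(19,0)]⟩⟩,⟨true,0,⟨0,[(42,0)]⟩,⟨0,[(41,0)]⟩⟩,[.o ⟨false,0,⟨7,[(1,
  4),(0,1),(13,1),(0,1),(2,0),(6,2),(1,2),(12,0)]⟩,⟨1,[(18,1),(20,0),(4,0)]⟩⟩,.a ⟨true,0,⟨0,[(1,0),
  (25,0)]⟩,⟨0,[(18,0)]⟩⟩ ⟨false,0,⟨1,[(1,0),(4,0),(3,0)]⟩,⟨5,[(0,1),(19,1),(7,3),(10,0),(3,1),(0,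
  2)]⟩⟩ ⟨true,0,⟨0,[(1,0)]⟩,⟨0,[(18,0),(0,0)]⟩⟩,.e ⟨false,0,⟨0,[(10,0)]⟩,⟨0,[(0,0),(43,0)]⟩⟩ ⟨false,
  0,⟨0,[(1,0)]⟩,⟨15,[(0,3),(3,1),(13,11),(1,5),(18,2),(3,3),(0,8)]⟩⟩,.o ⟨false,0,⟨0,[(19,0)]⟩,⟨1,
  [(30,1),(8,0),(3,0)]⟩⟩]⟩) (.R ⟨0,false,false,false,[1,0,0,0,-1],[1,0,-1],[1,1],(⟨0,[(25,0)]⟩,⟨0,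
  [(26,0)]⟩),(⟨0,[(32,0)]⟩,⟨0,[(33,0)]⟩),⟨0,[(15,0)]⟩,.k,.k,(.r (-1) ⟨5,[(4,1),(36,1),(1,0),(0,4)]⟩
  ⟨1,[(16,1),(6,0),(0,0),(19,0)]⟩),.k,.k,.k,⟨true,0,⟨0,[(19,0),(8,0)]⟩,⟨0,[(0,0)]⟩⟩,⟨false,0,⟨3,[(2,
  0),(11,1),(5,1),(3,0)]⟩,⟨2,[(6,0),(9,0),(0,2),(12,2),(12,0)]⟩⟩,⟨false,0,⟨0,[(46,0)]⟩,⟨0,[(44,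
  0)]⟩⟩,⟨true,(-1),⟨1,[(0,1),(1,0),(5,0),(0,1),(6,1),(3,0)]⟩,⟨0,[(17,0),(10,0)]⟩⟩,⟨false,0,⟨0,[]⟩,
  ⟨0,[]⟩⟩,⟨false,0,⟨0,[]⟩,⟨0,[]⟩⟩,[.o ⟨false,0,⟨2,[(1,1),(2,0),(14,1),(9,0)]⟩,⟨1,[(28,1),(10,0),(4,
  0)]⟩⟩,.a ⟨true,0,⟨0,[(0,0),(26,0)]⟩,⟨0,[(28,0)]⟩⟩ ⟨true,0,⟨0,[]⟩,⟨1,[(30,0),(0,0)]⟩⟩ ⟨false,0,⟨2,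
  [(0,2),(7,1),(5,0),(5,0),(6,0)]⟩,⟨0,[(23,0),(4,0)]⟩⟩,.o ⟨false,1,⟨0,[(23,0)]⟩,⟨0,[(13,0)]⟩⟩,.o
  ⟨false,1,⟨1,[(23,1),(6,0),(0,0)]⟩,⟨0,[(12,0)]⟩⟩]⟩)))) (.Q [0,2,0,0,-1,0,0,0,1,-1,0,1] (.p true [0,
  0,0,0,1] [1] (⟨0,[(23,0)]⟩,⟨0,[(22,0)]⟩) .k 1 (⟨0,[]⟩,⟨0,[]⟩) .k .k) (.R ⟨0,false,false,true,[-1,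
  1,0,0,1],[0,0,0,0,1],[1,2],(⟨0,[(13,0)]⟩,⟨0,[(23,0),(10,0)]⟩),(⟨0,[(24,0)]⟩,⟨0,[(23,0)]⟩),⟨0,[(23,
  0)]⟩,(.r 0 ⟨1,[(14,1),(6,0),(0,0),(19,0)]⟩ ⟨5,[(2,1),(36,1),(1,0),(0,4)]⟩),.k,.k,.k,.k,.k,⟨true,0,
  ⟨0,[]⟩,⟨1,[(28,0),(0,0)]⟩⟩,⟨false,0,⟨1,[(1,0),(10,0)]⟩,⟨1,[(37,0),(3,0)]⟩⟩,⟨true,0,⟨4,[(2,1),(33,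
  0),(2,0)]⟩,⟨0,[(14,0),(27,0)]⟩⟩,⟨false,0,⟨0,[(7,0)]⟩,⟨1,[(37,0),(2,1),(1,0)]⟩⟩,⟨false,0,⟨0,[]⟩,⟨0,
  []⟩⟩,⟨false,0,⟨0,[]⟩,⟨0,[]⟩⟩,[.o ⟨false,(-1),⟨0,[(0,0)]⟩,⟨0,[(21,0),(20,0)]⟩⟩,.o ⟨false,0,⟨10,[(0,
  2),(13,0),(7,7),(13,0),(0,3),(1,0)]⟩,⟨0,[(15,0)]⟩⟩,.a ⟨true,0,⟨0,[(10,0)]⟩,⟨0,[(1,0)]⟩⟩ ⟨false,0,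
  ⟨0,[(44,0)]⟩,⟨0,[(42,0)]⟩⟩ ⟨true,(-1),⟨0,[(7,0),(6,0)]⟩,⟨3,[(6,1),(8,1),(21,0),(4,0)]⟩⟩,.o ⟨false,
  0,⟨0,[(5,0)]⟩,⟨3,[(1,1),(19,2),(0,0),(18,0)]⟩⟩]⟩) (.R ⟨0,false,false,true,[-1,1,0,0,1],[1,0,0,0,
  -1],[1,2,1,1],(⟨0,[(13,0)]⟩,⟨0,[(23,0),(10,0)]⟩),(⟨0,[(23,0)]⟩,⟨0,[(24,0)]⟩),⟨0,[(23,0)]⟩,(.r 0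
  ⟨1,[(14,1),(6,0),(0,0),(19,0)]⟩ ⟨5,[(2,1),(36,1),(1,0),(0,4)]⟩),.k,.k,(.r 1 ⟨0,[(14,0)]⟩ ⟨1,[(39,
  1),(1,0),(0,2)]⟩),.k,.k,⟨true,(-1),⟨0,[(14,0)]⟩,⟨0,[(0,0),(4,0),(1,0)]⟩⟩,⟨false,1,⟨8,[(0,5),(0,5),
  (2,3),(9,3),(6,5),(19,0)]⟩,⟨0,[(5,0),(6,0)]⟩⟩,⟨false,0,⟨0,[]⟩,⟨1,[(21,0),(0,0),(19,0)]⟩⟩,⟨true,1,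
  ⟨1,[(0,3),(1,1),(11,1),(13,0),(0,0)]⟩,⟨0,[(5,0),(6,0),(1,0)]⟩⟩,⟨false,0,⟨0,[]⟩,⟨0,[]⟩⟩,⟨false,0,
  ⟨0,[]⟩,⟨0,[]⟩⟩,[.o ⟨false,1,⟨0,[(21,0)]⟩,⟨0,[(11,0)]⟩⟩,.o ⟨false,1,⟨0,[(15,0)]⟩,⟨3,[(3,0),(10,0),
  (7,2),(4,0),(9,0)]⟩⟩,.a ⟨true,0,⟨0,[(10,0)]⟩,⟨0,[(1,0)]⟩⟩ ⟨true,(-1),⟨0,[(14,0)]⟩,⟨5,[(2,1),(36,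
  1),(1,0),(0,4)]⟩⟩ ⟨false,1,⟨0,[(1,0),(13,0)]⟩,⟨0,[(5,0),(6,0)]⟩⟩,.o ⟨false,0,⟨0,[(5,0)]⟩,⟨3,[(1,
  1),(19,2),(0,0),(18,0)]⟩⟩]⟩)))))))) (.Q [0,-1,0,1,0,0,-1,-1,0,1,-1] (.p false [0,0,1] [1] (⟨0,
  [(24,0)]⟩,⟨0,[(23,0)]⟩) .k 1 (⟨0,[]⟩,⟨0,[]⟩) .k .k) (.S ⟨1,2,[],[1,1,-1],[1,1,1,0,0,0,0,-1],(⟨0,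
  [(24,0),(1,0)]⟩,⟨0,[(14,0)]⟩),⟨0,[(24,0)]⟩,.k,.k,⟨true,0,⟨0,[(33,0)]⟩,⟨0,[(34,0)]⟩⟩,⟨false,1,⟨1,
  [(10,1),(20,0),(4,0)]⟩,⟨0,[(0,0)]⟩⟩,⟨false,0,⟨0,[]⟩,⟨1,[(15,0),(0,0),(19,0)]⟩⟩,⟨true,0,⟨0,[(1,0),
  (8,0)]⟩,⟨0,[(3,0)]⟩⟩,[.o ⟨false,0,⟨0,[(1,0),(31,0)]⟩,⟨1,[(15,0),(0,0),(19,0)]⟩⟩,.fo,.a ⟨true,0,⟨0,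
  [(19,0)]⟩,⟨0,[(22,0)]⟩⟩ ⟨false,0,⟨0,[(2,0)]⟩,⟨0,[(1,0),(8,0),(8,0),(16,0)]⟩⟩ ⟨true,0,⟨0,[(1,0),
  (20,0),(10,0)]⟩,⟨0,[(19,0)]⟩⟩,.o ⟨false,0,⟨0,[(11,0)]⟩,⟨1,[(22,1),(8,0),(3,0)]⟩⟩]⟩) (.S ⟨1,0,[0,0,
  1,1,0,0,0,-1],[1,1,-1],[1,1,1,0,0,0,0,-1],(⟨0,[(24,0),(1,0)]⟩,⟨0,[(14,0)]⟩),⟨0,[(24,0)]⟩,.k,.k,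
  ⟨true,0,⟨0,[(33,0)]⟩,⟨0,[(34,0)]⟩⟩,⟨false,1,⟨1,[(15,0),(0,0),(19,0)]⟩,⟨0,[]⟩⟩,⟨false,0,⟨0,[]⟩,⟨1,
  [(15,0),(0,0),(19,0)]⟩⟩,⟨true,0,⟨0,[(34,0)]⟩,⟨0,[(33,0)]⟩⟩,[.o ⟨false,0,⟨0,[(1,0),(1,0)]⟩,⟨1,[(10,
  1),(20,0),(4,0)]⟩⟩,.o ⟨false,1,⟨1,[(3,1),(27,0),(2,1),(1,0)]⟩,⟨0,[(0,0)]⟩⟩,.a ⟨true,0,⟨0,[(19,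
  0)]⟩,⟨0,[(22,0)]⟩⟩ ⟨false,0,⟨0,[(2,0)]⟩,⟨1,[(0,0),(0,0),(17,1),(0,0),(15,1)]⟩⟩ ⟨true,0,⟨0,[(2,0),
  (31,0)]⟩,⟨0,[(0,0),(18,0)]⟩⟩,.o ⟨false,0,⟨0,[(11,0)]⟩,⟨1,[(22,1),(8,0),(3,0)]⟩⟩]⟩)))) (.S ⟨1,0,[0,
  0,0,0,0,0,0,1],[0,0,1],[0,1,0,0,0,0,0,1],(⟨0,[(22,0)]⟩,⟨0,[(21,0)]⟩),⟨0,[(11,0)]⟩,.k,.k,⟨true,0,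
  ⟨0,[(35,0)]⟩,⟨0,[]⟩⟩,⟨false,1,⟨1,[(12,0),(0,0),(19,0)]⟩,⟨0,[]⟩⟩,⟨false,0,⟨0,[(31,0)]⟩,⟨0,[(30,0),
  (2,0)]⟩⟩,⟨true,0,⟨0,[(31,0)]⟩,⟨0,[(30,0)]⟩⟩,[.o ⟨false,0,⟨0,[(0,0)]⟩,⟨1,[(12,0),(0,0),(4,1),(14,
  0)]⟩⟩,.o ⟨false,1,⟨3,[(0,1),(16,1),(10,0),(4,2)]⟩,⟨0,[(18,0)]⟩⟩,.o ⟨false,1,⟨1,[(19,1),(8,0),(3,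
  0)]⟩,⟨0,[(8,0)]⟩⟩,.a ⟨true,0,⟨0,[(19,0)]⟩,⟨0,[(16,0)]⟩⟩ ⟨false,0,⟨0,[(0,0),(15,0)]⟩,⟨0,[(18,0),(0,
  0),(13,0)]⟩⟩ ⟨true,0,⟨0,[(0,0),(15,0)]⟩,⟨0,[(18,0),(0,0)]⟩⟩]⟩)))))

theorem ok6 : chk K t6 r4 = true := by decide +kernel

noncomputable def t8 : Tre :=
  (.I [1,0,1,0,0,0,0,-1] (.I [1,1,-1,-1,0,0,0,1] (.I [1,-1,2,1] (.Q [0,0,0,-1,0,0,0,0,0,1] (.pp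
  false [-1,1]) (.S ⟨1,0,[0,0,-1,-1],[1,-1],[0,1,-1,-1],(⟨0,[(24,0)]⟩,⟨0,[(25,0)]⟩),⟨0,[(9,0),(0,
  0)]⟩,.k,(.r (-1) ⟨2,[(4,1),(23,1),(0,1),(1,0)]⟩ ⟨2,[(1,3),(24,1),(3,1)]⟩),⟨true,0,⟨0,[(34,0)]⟩,⟨0,
  []⟩⟩,⟨false,1,⟨1,[(11,0),(0,0),(19,0)]⟩,⟨0,[]⟩⟩,⟨false,0,⟨0,[(30,0)]⟩,⟨0,[(29,0),(2,0)]⟩⟩,⟨true,0,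
  ⟨0,[(30,0)]⟩,⟨0,[(29,0)]⟩⟩,[.a ⟨true,0,⟨0,[(0,0)]⟩,⟨0,[(30,0)]⟩⟩ ⟨true,0,⟨0,[(28,0)]⟩,⟨0,[(1,
  0)]⟩⟩ ⟨false,1,⟨2,[(4,0),(23,0),(0,0),(1,1)]⟩,⟨2,[(1,1),(24,0),(3,0)]⟩⟩,.e ⟨false,1,⟨2,[(4,0),(23,
  0),(0,0),(1,1)]⟩,⟨2,[(1,1),(24,0),(3,0)]⟩⟩ ⟨false,1,⟨0,[(4,0),(23,0),(1,0)]⟩,⟨0,[(1,0),(24,0)]⟩⟩,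
  .o ⟨false,0,⟨1,[(18,0),(0,0)]⟩,⟨1,[(27,0),(3,0)]⟩⟩,.e ⟨false,1,⟨2,[(4,0),(23,0),(0,0),(1,1)]⟩,⟨0,
  [(1,0)]⟩⟩ ⟨false,1,⟨0,[(4,0),(23,0),(1,0)]⟩,⟨0,[(1,0),(32,0)]⟩⟩]⟩) (.S ⟨1,0,[0,1,1,1,0,0,0,-1],[1,
  1,-1],[0,0,1,1,0,0,0,-1],(⟨0,[(20,0),(1,0)]⟩,⟨0,[(10,0)]⟩),⟨0,[(20,0)]⟩,.k,.k,⟨false,1,⟨1,[(11,0),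
  (0,0),(19,0)]⟩,⟨0,[]⟩⟩,⟨true,0,⟨0,[(34,0)]⟩,⟨0,[]⟩⟩,⟨true,0,⟨0,[(30,0)]⟩,⟨0,[(29,0)]⟩⟩,⟨false,0,
  ⟨0,[(30,0)]⟩,⟨0,[(29,0),(2,0)]⟩⟩,[.o ⟨false,0,⟨0,[(17,0),(12,0)]⟩,⟨1,[(0,1),(3,1),(1,1),(11,0),(0,
  0)]⟩⟩,.o ⟨false,0,⟨0,[(0,0),(2,0),(11,0)]⟩,⟨1,[(6,1),(20,0),(4,0)]⟩⟩,.a ⟨true,0,⟨0,[(15,0)]⟩,⟨0,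
  [(18,0)]⟩⟩ ⟨true,0,⟨0,[(3,0),(26,0)]⟩,⟨0,[(2,0)]⟩⟩ ⟨false,0,⟨0,[(3,0),(26,0)]⟩,⟨0,[(2,0),(29,
  0)]⟩⟩,.o ⟨false,0,⟨0,[(7,0)]⟩,⟨1,[(18,1),(8,0),(3,0)]⟩⟩]⟩)) (.I [0,0,0,1,0,0,0,-1] (.S ⟨1,0,[0,0,
  1,1,0,0,0,-1],[1,1,-1],[0,1,1,1,0,0,0,-1],(⟨0,[(20,0),(1,0)]⟩,⟨0,[(10,0)]⟩),⟨0,[(20,0)]⟩,.k,.k,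
  ⟨true,0,⟨0,[(34,0)]⟩,⟨0,[]⟩⟩,⟨false,1,⟨1,[(11,0),(0,0),(19,0)]⟩,⟨0,[]⟩⟩,⟨false,0,⟨0,[(30,0)]⟩,⟨0,
  [(29,0),(2,0)]⟩⟩,⟨true,0,⟨0,[(30,0)]⟩,⟨0,[(29,0)]⟩⟩,[.o ⟨false,0,⟨0,[(0,0),(6,0)]⟩,⟨1,[(6,1),(20,
  0),(4,0)]⟩⟩,.e ⟨false,0,⟨0,[(0,0)]⟩,⟨5,[(2,1),(3,3),(1,1),(18,0),(3,1),(0,2)]⟩⟩ ⟨false,1,⟨1,[(0,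
  1),(10,0),(0,0),(19,0)]⟩,⟨0,[(2,0)]⟩⟩,.a ⟨true,0,⟨0,[(15,0)]⟩,⟨0,[(18,0)]⟩⟩ ⟨false,0,⟨1,[(0,1),
  (17,0),(0,0)]⟩,⟨0,[(2,0),(29,0)]⟩⟩ ⟨true,0,⟨1,[(0,1),(17,0),(0,0)]⟩,⟨0,[(2,0)]⟩⟩,.o ⟨false,0,⟨0,
  [(7,0)]⟩,⟨1,[(18,1),(8,0),(3,0)]⟩⟩]⟩) (.Q [0,-1,-1,0,0,0,-1,0,-1,1,-1,-1] (.p false [0,0,1] [1,0,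
  0,0,-1] (⟨0,[(21,0)]⟩,⟨0,[(20,0)]⟩) .k 2 (⟨0,[(13,0)]⟩,⟨0,[(14,0)]⟩) .k (.r 0 ⟨1,[(2,0),(13,0),(2,
  0),(10,0)]⟩ ⟨1,[(3,1),(27,0),(0,0)]⟩)) (.R ⟨1,false,false,true,[0,0,1],[1,0,0,0,-1],[0,0,0,0,0,0,
  0,1],(⟨0,[(22,0)]⟩,⟨0,[(21,0)]⟩),(⟨0,[(14,0)]⟩,⟨0,[(15,0)]⟩),⟨0,[(11,0)]⟩,.k,.k,.k,.k,(.r 0 ⟨0,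
  [(1,0),(0,0),(28,0),(2,0)]⟩ ⟨1,[(4,1),(7,0),(0,0),(17,1),(1,0)]⟩),.k,⟨true,0,⟨0,[(1,0),(29,0)]⟩,
  ⟨0,[(4,0)]⟩⟩,⟨false,0,⟨0,[(0,0),(34,0)]⟩,⟨1,[(13,1),(5,1),(8,0),(3,0)]⟩⟩,⟨false,1,⟨1,[(12,0),(0,
  0),(19,0)]⟩,⟨0,[]⟩⟩,⟨false,0,⟨0,[(0,0),(3,0)]⟩,⟨1,[(13,1),(3,1),(10,0),(4,0)]⟩⟩,⟨true,0,⟨0,[(31,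
  0)]⟩,⟨0,[(30,0)]⟩⟩,⟨false,0,⟨0,[(0,0),(3,0),(26,0)]⟩,⟨1,[(7,1),(5,1),(14,0),(4,0)]⟩⟩,[.a ⟨true,0,
  ⟨0,[(0,0),(18,0),(15,0)]⟩,⟨0,[(13,0)]⟩⟩ ⟨true,0,⟨0,[(1,0),(29,0)]⟩,⟨0,[(4,0)]⟩⟩ ⟨false,0,⟨0,[(0,
  0),(34,0)]⟩,⟨1,[(13,1),(5,1),(8,0),(3,0)]⟩⟩,.e ⟨false,1,⟨0,[(3,0),(27,0),(1,0)]⟩,⟨2,[(2,0),(1,2),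
  (22,0),(3,0)]⟩⟩ ⟨false,0,⟨0,[(0,0)]⟩,⟨3,[(12,0),(0,4),(5,3),(7,1),(0,1),(3,0)]⟩⟩,.o ⟨false,1,⟨1,
  [(19,1),(8,0),(3,0)]⟩,⟨0,[(8,0)]⟩⟩,.e ⟨false,1,⟨0,[(3,0),(27,0),(1,0)]⟩,⟨0,[(4,0)]⟩⟩ ⟨false,0,⟨0,
  [(0,0)]⟩,⟨1,[(12,0),(0,2),(5,1),(8,0)]⟩⟩]⟩) (.Q [0,0,0,1,0,0,-1,-1,0,0,-1] (.p false [0,0,1] []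
  (⟨0,[(22,0)]⟩,⟨0,[(21,0)]⟩) .k 0 (⟨0,[]⟩,⟨0,[]⟩) .k .k) (.Q [0,-1,0,-1,1,0,1,1,0,-1,1] (.p true
  [0,0,1] [1] (⟨0,[(23,0)]⟩,⟨0,[(22,0)]⟩) .k 1 (⟨0,[]⟩,⟨0,[]⟩) .k .k) (.S ⟨1,0,[0,1,1,1,0,0,0,-1],
  [1,1,-1],[1,0,1,0,0,0,0,-1],(⟨0,[(23,0),(1,0)]⟩,⟨0,[(13,0)]⟩),⟨0,[(23,0)]⟩,.k,.k,⟨false,1,⟨0,[(32,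
  0),(2,0)]⟩,⟨0,[(33,0)]⟩⟩,⟨true,0,⟨0,[(37,0)]⟩,⟨0,[]⟩⟩,⟨true,0,⟨0,[]⟩,⟨0,[(37,0)]⟩⟩,⟨false,0,⟨0,
  [(33,0)]⟩,⟨0,[(32,0),(2,0)]⟩⟩,[.o ⟨false,0,⟨0,[(20,0),(12,0)]⟩,⟨0,[(0,0)]⟩⟩,.o ⟨false,0,⟨0,[(1,
  0)]⟩,⟨2,[(0,1),(1,0),(2,0),(8,0)]⟩⟩,.a ⟨true,0,⟨0,[(18,0)]⟩,⟨0,[(21,0)]⟩⟩ ⟨true,0,⟨0,[(6,0)]⟩,⟨0,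
  [(5,0),(27,0)]⟩⟩ ⟨false,0,⟨0,[(6,0),(26,0)]⟩,⟨0,[(5,0),(29,0)]⟩⟩,.o ⟨false,0,⟨0,[(10,0)]⟩,⟨1,[(21,
  1),(8,0),(3,0)]⟩⟩]⟩) (.Q [0,-1,0,0,1,0,1,1,0,-1,1] (.p true [0,0,1] [1] (⟨0,[(24,0)]⟩,⟨0,[(23,
  0)]⟩) .k 1 (⟨0,[]⟩,⟨0,[]⟩) .k .k) (.R ⟨2,true,false,true,[0,1],[1,1,-1],[1,1,1],(⟨0,[]⟩,⟨0,[]⟩),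
  (⟨0,[(24,0),(1,0)]⟩,⟨0,[(14,0)]⟩),⟨0,[]⟩,.k,.k,.k,.k,.k,.k,⟨true,0,⟨0,[(4,0)]⟩,⟨0,[(7,0),(26,
  0)]⟩⟩,⟨false,0,⟨0,[(19,0)]⟩,⟨1,[(22,1),(8,0),(3,0)]⟩⟩,⟨true,0,⟨0,[(33,0)]⟩,⟨0,[(34,0)]⟩⟩,⟨false,0,
  ⟨0,[(7,0),(11,0)]⟩,⟨0,[(0,0)]⟩⟩,⟨false,0,⟨0,[]⟩,⟨1,[(15,0),(0,0),(19,0)]⟩⟩,⟨true,(-1),⟨0,[(1,0)]⟩,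
  ⟨0,[(0,0),(32,0)]⟩⟩,[]⟩) (.Q [0,-1,0,1,1,0,1,1,0,-1,1] (.p true [0,0,1] [1] (⟨0,[(25,0)]⟩,⟨0,[(24,
  0)]⟩) .k 1 (⟨0,[]⟩,⟨0,[]⟩) .k .k) (.R ⟨1,false,false,true,[0,0,1],[1,-1],[0,1,0,-1],(⟨0,[(26,0)]⟩,
  ⟨0,[(25,0)]⟩),(⟨0,[(29,0)]⟩,⟨0,[(30,0)]⟩),⟨0,[(15,0)]⟩,.k,.k,.k,.k,.k,.k,⟨true,0,⟨1,[(23,0),(0,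
  0)]⟩,⟨0,[]⟩⟩,⟨false,0,⟨1,[(13,0),(13,0),(1,0)]⟩,⟨0,[(0,0),(5,0),(1,0)]⟩⟩,⟨true,0,⟨1,[(6,0),(1,1),
  (25,0)]⟩,⟨0,[(0,0),(1,0),(2,0)]⟩⟩,⟨false,0,⟨3,[(1,1),(6,1),(0,1),(3,0),(13,0),(1,0),(4,1)]⟩,⟨0,
  [(0,0)]⟩⟩,⟨true,0,⟨7,[(2,1),(3,1),(1,5),(14,1),(7,1),(0,0),(3,0)]⟩,⟨1,[(0,0),(1,0),(2,1)]⟩⟩,⟨true,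
  (-1),⟨0,[(1,0)]⟩,⟨7,[(0,3),(3,1),(2,1),(3,1),(4,1),(15,0),(4,0)]⟩⟩,[.o ⟨false,0,⟨0,[(34,0)]⟩,⟨3,
  [(0,1),(2,1),(28,0),(4,0)]⟩⟩,.e ⟨false,1,⟨1,[(34,1),(1,0),(0,0)]⟩,⟨1,[(0,0),(1,0)]⟩⟩ ⟨false,0,⟨2,
  [(1,0),(3,0),(3,0),(10,1),(13,0)]⟩,⟨1,[(0,0),(1,0),(20,1),(8,0),(3,0)]⟩⟩,.o ⟨false,1,⟨1,[(23,1),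
  (8,0),(3,0)]⟩,⟨0,[(12,0)]⟩⟩,.a ⟨true,0,⟨0,[(23,0)]⟩,⟨0,[(20,0)]⟩⟩ ⟨true,0,⟨0,[(33,0)]⟩,⟨1,[(0,0),
  (1,0),(20,0),(0,0)]⟩⟩ ⟨false,0,⟨2,[(1,0),(3,0),(3,0),(10,1),(13,0)]⟩,⟨0,[(0,0),(7,0)]⟩⟩]⟩) (.Q [0,
  0,0,0,0,0,0,0,-1,1,0,-1] (.p false [0,0,0,0,1] [1] (⟨0,[(19,0)]⟩,⟨0,[(18,0)]⟩) .k 1 (⟨0,[]⟩,⟨0,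
  []⟩) .k .k) (.Q [0,0,0,0,0,0,0,0,0,0,-1,1] (.ed false [1,0,-1,0,1] (.r 0 ⟨7,[(3,1),(3,1),(1,5),
  (14,1),(7,1),(0,0),(3,0)]⟩ ⟨5,[(6,1),(7,1),(7,3),(10,0),(2,1),(1,4)]⟩)) (.Q [0,0,0,0,0,0,1,0,-1,1,
  1,-1] (.p false [0,0,-1,0,1] [1] (⟨0,[(0,0)]⟩,⟨0,[(20,0),(7,0)]⟩) .k 1 (⟨0,[]⟩,⟨0,[]⟩) .k (.r 0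
  ⟨7,[(4,1),(3,1),(1,5),(14,1),(7,1),(0,0),(3,0)]⟩ ⟨5,[(7,1),(7,1),(7,3),(10,0),(2,1),(1,4)]⟩)) (.S
  ⟨1,0,[0,-1,0,0,0,0,0,1],[1,0,1,0,-1],[1,0,0,-1,0,0,0,1],(⟨0,[(21,0),(7,0)]⟩,⟨0,[(1,0)]⟩),⟨0,[(18,
  0),(2,0)]⟩,.k,(.r (-1) ⟨0,[(10,0),(29,0)]⟩ ⟨1,[(5,0),(1,0),(3,0),(7,0),(18,0)]⟩),⟨true,0,⟨0,[(37,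
  0)]⟩,⟨0,[(38,0)]⟩⟩,⟨false,1,⟨1,[(19,0),(0,0),(19,0)]⟩,⟨0,[]⟩⟩,⟨false,0,⟨0,[]⟩,⟨1,[(19,0),(0,0),
  (19,0)]⟩⟩,⟨true,0,⟨0,[(38,0)]⟩,⟨0,[(37,0)]⟩⟩,[.o ⟨false,1,⟨1,[(0,1),(7,1),(26,0),(2,1),(1,0)]⟩,⟨1,
  [(3,0),(1,0),(14,1),(14,1)]⟩⟩,.e ⟨false,1,⟨0,[(10,0),(29,0)]⟩,⟨3,[(0,1),(4,1),(0,1),(0,1),(27,0),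
  (3,0)]⟩⟩ ⟨false,1,⟨0,[(8,0),(3,0),(25,1)]⟩,⟨0,[(11,0),(22,0)]⟩⟩,.a ⟨true,0,⟨0,[(0,0)]⟩,⟨0,[(15,0),
  (4,0)]⟩⟩ ⟨true,0,⟨0,[(8,0)]⟩,⟨3,[(0,1),(4,1),(0,1),(0,1),(27,0),(3,0)]⟩⟩ ⟨false,1,⟨0,[(8,0),(29,
  0),(1,0)]⟩,⟨6,[(0,0),(5,1),(0,0),(1,1),(1,4),(22,1)]⟩⟩,.e ⟨false,1,⟨0,[(10,0),(29,0)]⟩,⟨0,[(11,0),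
  (26,0)]⟩⟩ ⟨false,1,⟨0,[(8,0),(3,0),(25,1)]⟩,⟨1,[(2,0),(4,0),(3,0),(13,0)]⟩⟩]⟩) (.S ⟨1,0,[0,2],[0,
  0,0,0,1],[1,1,0,-1],(⟨0,[(22,0)]⟩,⟨0,[(21,0)]⟩),⟨0,[(1,0),(16,0)]⟩,.k,(.r 0 ⟨0,[(36,0)]⟩ ⟨5,[(7,
  1),(8,1),(2,1),(6,2),(0,0),(10,5),(1,3)]⟩),⟨false,1,⟨0,[(37,0),(2,0)]⟩,⟨0,[(38,0)]⟩⟩,⟨true,0,⟨0,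
  [(42,0)]⟩,⟨0,[]⟩⟩,⟨true,0,⟨0,[]⟩,⟨0,[(42,0)]⟩⟩,⟨false,0,⟨0,[(38,0)]⟩,⟨0,[(37,0),(2,0)]⟩⟩,[.e
  ⟨false,0,⟨1,[(9,0),(27,0)]⟩,⟨1,[(19,0),(0,0),(17,1),(1,0)]⟩⟩ ⟨false,0,⟨0,[(34,0)]⟩,⟨0,[(40,0)]⟩⟩,
  .o ⟨false,0,⟨5,[(0,2),(6,2),(1,0),(24,0),(3,0)]⟩,⟨0,[(13,0)]⟩⟩,.a ⟨true,0,⟨0,[(20,0)]⟩,⟨0,[(2,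
  0)]⟩⟩ ⟨true,0,⟨0,[(37,0)]⟩,⟨0,[(38,0)]⟩⟩ ⟨false,0,⟨0,[(42,0)]⟩,⟨0,[(40,0)]⟩⟩,.o ⟨false,0,⟨0,[(0,
  0),(25,0)]⟩,⟨1,[(2,1),(32,0),(3,0)]⟩⟩]⟩)) (.Q [0,-2,0,-1,1,0,0,0,-1,0,0,-1] (.p false [0,0,0,0,1]
  [] (⟨0,[(21,0)]⟩,⟨0,[(20,0)]⟩) .k 0 (⟨0,[]⟩,⟨0,[]⟩) .k .k) (.Q [0,0,0,0,0,1,0,0,0,0,-1,1] (.p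
  true [1,0,-1,0,1] [1] (⟨0,[(22,0),(5,0)]⟩,⟨0,[(1,0)]⟩) .k 1 (⟨0,[]⟩,⟨0,[]⟩) .k (.r 0 ⟨7,[(5,1),(3,
  1),(1,5),(14,1),(7,1),(0,0),(3,0)]⟩ ⟨5,[(8,1),(7,1),(7,3),(10,0),(2,1),(1,4)]⟩)) (.R ⟨0,false,
  false,true,[0,0,1,0,-1],[1,0,0,0,-1],[0,0,1],(⟨0,[(2,0)]⟩,⟨0,[(23,0),(5,0)]⟩),(⟨0,[(22,0)]⟩,⟨0,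
  [(23,0)]⟩),⟨0,[(0,0)]⟩,.k,.k,(.r (-1) ⟨0,[(11,0),(29,0)]⟩ ⟨1,[(6,0),(1,0),(3,0),(7,0),(18,0)]⟩),
  .k,.k,.k,⟨true,0,⟨1,[(27,0),(0,0)]⟩,⟨0,[]⟩⟩,⟨false,0,⟨0,[(24,0)]⟩,⟨1,[(27,1),(8,0),(3,0)]⟩⟩,
  ⟨false,0,⟨0,[(4,1),(4,0),(3,0),(13,1),(8,0),(2,3)]⟩,⟨0,[(11,0),(27,0),(1,0)]⟩⟩,⟨true,(-1),⟨0,[(5,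
  0)]⟩,⟨1,[(25,1),(10,0),(4,0)]⟩⟩,⟨false,0,⟨0,[]⟩,⟨0,[]⟩⟩,⟨false,0,⟨0,[]⟩,⟨0,[]⟩⟩,[.a ⟨true,0,⟨0,
  [(3,0)]⟩,⟨0,[(21,0)]⟩⟩ ⟨true,0,⟨1,[(27,0),(0,0)]⟩,⟨0,[]⟩⟩ ⟨false,0,⟨0,[(24,0)]⟩,⟨1,[(27,1),(8,0),
  (3,0)]⟩⟩,.e ⟨false,1,⟨1,[(20,0),(0,0),(19,0)]⟩,⟨2,[(10,0),(24,0),(3,0)]⟩⟩ ⟨false,0,⟨0,[(6,0),(2,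
  0),(3,0),(25,0)]⟩,⟨2,[(8,0),(11,0),(6,1),(7,0),(0,0),(3,0)]⟩⟩,.o ⟨false,1,⟨0,[(1,0),(4,0),(2,0),
  (0,0),(16,1),(8,0),(2,1)]⟩,⟨0,[(16,0),(4,0)]⟩⟩,.e ⟨false,1,⟨1,[(20,0),(0,0),(19,0)]⟩,⟨0,[]⟩⟩
  ⟨false,0,⟨0,[(6,0),(2,0),(3,0),(25,0)]⟩,⟨0,[(8,0),(5,0)]⟩⟩]⟩) (.I [1,2,1,1,-1] (.R ⟨1,false,false,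
  false,[1,0,0,0,-1],[0,-1,1],[],(⟨0,[(23,0)]⟩,⟨0,[(24,0)]⟩),(⟨0,[(20,0)]⟩,⟨0,[(30,0),(1,0)]⟩),⟨1,
  [(1,0),(17,0),(3,0)]⟩,.k,.k,(.r (-1) ⟨3,[(14,1),(24,1),(1,0),(0,0)]⟩ ⟨2,[(0,0),(8,0),(8,0),(2,0),
  (6,0),(11,1)]⟩),(.r (-1) ⟨1,[(7,0),(1,0),(3,0),(7,0),(18,0),(1,1)]⟩ ⟨0,[(5,1),(4,2),(0,0),(2,0),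
  (13,1),(8,0),(2,5)]⟩),.k,.k,⟨true,0,⟨0,[(13,0),(26,0)]⟩,⟨0,[(10,0)]⟩⟩,⟨false,1,⟨1,[(9,1),(31,0),
  (0,0)]⟩,⟨0,[(2,0),(4,0),(4,0),(27,0)]⟩⟩,⟨true,0,⟨0,[(44,0)]⟩,⟨0,[]⟩⟩,⟨false,1,⟨0,[(9,0),(2,0),(29,
  0)]⟩,⟨0,[(2,0),(4,0),(32,0)]⟩⟩,⟨false,0,⟨0,[(40,0)]⟩,⟨0,[(39,0),(2,0)]⟩⟩,⟨false,1,⟨1,[(22,1),(3,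
  1),(10,0),(4,0)]⟩,⟨0,[(2,0),(4,0)]⟩⟩,[.o ⟨false,1,⟨1,[(16,1),(20,0),(4,0)]⟩,⟨0,[(8,0)]⟩⟩,.a ⟨true,
  1,⟨0,[(16,0),(25,0)]⟩,⟨0,[(7,0)]⟩⟩ ⟨false,1,⟨1,[(41,0),(0,0)]⟩,⟨0,[(44,0)]⟩⟩ ⟨true,1,⟨0,[(9,0),(0,
  0),(3,0),(25,0)]⟩,⟨0,[(0,0),(1,0),(4,0)]⟩⟩,.e ⟨false,1,⟨1,[(21,0),(0,0),(19,0)]⟩,⟨0,[]⟩⟩ ⟨false,1,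
  ⟨0,[(9,0),(0,0),(3,0),(25,0)]⟩,⟨0,[(7,0),(7,0)]⟩⟩,.o ⟨false,0,⟨0,[(0,0),(1,0)]⟩,⟨1,[(22,1),(14,0),
  (3,0)]⟩⟩]⟩) (.Q [0,2,0,0,-1,0,-1,-1,1,0,-1,1] (.p true [1,0,-1,0,1] [1] (⟨0,[(24,0),(5,0)]⟩,⟨0,
  [(3,0)]⟩) .k 1 (⟨0,[]⟩,⟨0,[]⟩) .k (.r 0 ⟨7,[(7,1),(3,1),(1,5),(14,1),(7,1),(0,0),(3,0)]⟩ ⟨5,[(10,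
  1),(7,1),(7,3),(10,0),(2,1),(1,4)]⟩)) (.S ⟨1,0,[0,-1,0,0,0,0,0,1],[0,0,1,0,-1],[1,0,0,-1,0,0,0,1],
  (⟨0,[(4,0)]⟩,⟨0,[(25,0),(5,0)]⟩),⟨0,[(2,0)]⟩,.k,(.r (-1) ⟨0,[(13,0),(29,0)]⟩ ⟨1,[(8,0),(1,0),(3,
  0),(7,0),(18,0)]⟩),⟨true,0,⟨0,[(40,0)]⟩,⟨0,[(41,0)]⟩⟩,⟨false,1,⟨1,[(22,0),(0,0),(19,0)]⟩,⟨0,[]⟩⟩,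
  ⟨false,0,⟨0,[]⟩,⟨1,[(22,0),(0,0),(19,0)]⟩⟩,⟨true,0,⟨0,[(41,0)]⟩,⟨0,[(40,0)]⟩⟩,[.a ⟨true,1,⟨0,[(3,
  0),(23,0),(13,0)]⟩,⟨1,[(6,0),(1,0),(14,1)]⟩⟩ ⟨true,0,⟨0,[(11,0)]⟩,⟨0,[(14,0),(26,0)]⟩⟩ ⟨false,1,
  ⟨0,[(13,0),(27,0),(1,0)]⟩,⟨7,[(8,1),(3,1),(1,5),(14,1),(7,1),(0,0),(3,0)]⟩⟩,.o ⟨false,2,⟨1,[(3,1),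
  (23,1),(10,0),(2,1),(1,0)]⟩,⟨0,[(0,0)]⟩⟩,.o ⟨false,1,⟨0,[(3,0),(4,0),(2,0),(0,0),(16,1),(8,0),(2,
  1)]⟩,⟨0,[(18,0),(4,0)]⟩⟩,.o ⟨false,1,⟨0,[(5,0),(23,0),(8,0)]⟩,⟨0,[(0,0),(10,0),(3,0),(25,1)]⟩⟩]⟩)
  (.R ⟨1,false,false,true,[0,0,1,0,-1],[1,0,0,0,-1],[0,0,0,0,0,0,0,1],(⟨0,[(4,0)]⟩,⟨0,[(25,0),(5,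
  0)]⟩),(⟨0,[(24,0)]⟩,⟨0,[(25,0)]⟩),⟨0,[(2,0)]⟩,.k,.k,(.r (-1) ⟨0,[(13,0),(29,0)]⟩ ⟨1,[(8,0),(1,0),
  (3,0),(7,0),(18,0)]⟩),.k,.k,.k,⟨true,0,⟨0,[(11,0),(29,0)]⟩,⟨0,[(14,0)]⟩⟩,⟨false,0,⟨0,[(26,0)]⟩,⟨1,
  [(29,1),(8,0),(3,0)]⟩⟩,⟨true,0,⟨0,[(45,0)]⟩,⟨0,[]⟩⟩,⟨true,(-1),⟨0,[(7,0)]⟩,⟨1,[(27,1),(10,0),(4,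
  0)]⟩⟩,⟨false,0,⟨0,[(41,0)]⟩,⟨0,[(40,0),(2,0)]⟩⟩,⟨true,(-1),⟨0,[(8,0)]⟩,⟨1,[(17,1),(20,0),(4,0)]⟩⟩,
  [.a ⟨true,0,⟨0,[(5,0)]⟩,⟨0,[(23,0)]⟩⟩ ⟨true,0,⟨0,[(11,0),(29,0)]⟩,⟨0,[(14,0)]⟩⟩ ⟨false,0,⟨0,[(26,
  0)]⟩,⟨1,[(29,1),(8,0),(3,0)]⟩⟩,.e ⟨false,1,⟨2,[(0,1),(12,0),(9,1),(2,1),(11,0),(2,0)]⟩,⟨7,[(8,1),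
  (3,1),(1,5),(14,1),(7,1),(0,0),(3,0)]⟩⟩ ⟨false,0,⟨0,[(8,0),(2,0),(3,0),(25,0)]⟩,⟨2,[(10,0),(11,0),
  (6,1),(7,0),(0,0),(3,0)]⟩⟩,.o ⟨false,1,⟨1,[(0,0),(4,0),(2,0),(3,0),(16,1),(8,1)]⟩,⟨0,[(18,0),(4,
  0)]⟩⟩,.e ⟨false,1,⟨2,[(0,1),(12,0),(9,1),(2,1),(11,0),(2,0)]⟩,⟨0,[(14,0)]⟩⟩ ⟨false,0,⟨0,[(8,0),(2,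
  0),(3,0),(25,0)]⟩,⟨0,[(10,0),(5,0)]⟩⟩]⟩)))) (.I [0,0,1,0,0,1,0,0,-2] (.I [1,2,1,1,-1] (.N [0,1,0,
  0,2] 1 ⟨0,[(0,0)]⟩ ⟨0,[(14,0)]⟩ (.x (-1) ⟨0,[(2,0),(0,0),(10,0),(4,0),(2,0),(0,0),(13,0)]⟩ ⟨0,[(1,
  0)]⟩)) (.Q [0,0,0,0,0,0,0,0,0,-1,1,1] (.ed false [0,0,1,0,1] (.r 0 ⟨1,[(12,0),(13,0),(2,0),(10,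
  0)]⟩ ⟨1,[(13,1),(27,0),(0,0)]⟩)) (.Q [0,0,0,0,-1,0,-2,0,-1,2,-2,-1] (.p false [0,0,1] [2,0,-1,0,
  -1] (⟨0,[(32,0)]⟩,⟨0,[(31,0)]⟩) .k 2 (⟨0,[(24,0),(6,0)]⟩,⟨0,[(0,0)]⟩) .k (.r 0 ⟨1,[(11,1),(1,0),
  (13,0),(2,0),(10,2)]⟩ ⟨2,[(12,0),(1,5),(0,1),(25,2),(0,0)]⟩)) (.R ⟨1,false,false,true,[2,0,-1,0,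
  -1],[0,-1,1],[0,0,0,0,0,0,0,-1],(⟨0,[(25,0),(6,0)]⟩,⟨0,[(1,0)]⟩),(⟨0,[(22,0)]⟩,⟨0,[(32,0),(1,
  0)]⟩),⟨0,[(21,0),(3,0)]⟩,.k,.k,(.r (-1) ⟨2,[(13,0),(1,2),(0,1),(26,0)]⟩ ⟨0,[(28,0),(2,0),(10,
  0)]⟩),(.r (-1) ⟨1,[(15,3),(26,1),(0,0),(0,0)]⟩ ⟨0,[(12,0),(1,0),(27,0)]⟩),.k,.k,⟨false,1,⟨2,[(13,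
  0),(1,5),(0,1),(25,5),(0,0)]⟩,⟨0,[(12,0),(1,0),(27,0)]⟩⟩,⟨true,1,⟨0,[(4,0),(11,0),(13,1),(8,0)]⟩,
  ⟨0,[(0,0)]⟩⟩,⟨true,0,⟨0,[(46,0)]⟩,⟨0,[]⟩⟩,⟨false,1,⟨0,[(4,0),(7,0),(3,0),(11,0),(1,0),(8,0)]⟩,⟨0,
  [(0,0),(8,1),(6,1),(13,1),(8,0),(2,0)]⟩⟩,⟨false,0,⟨0,[(42,0)]⟩,⟨0,[(41,0),(2,0)]⟩⟩,⟨false,1,⟨0,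
  [(4,0),(7,0),(3,0),(11,0),(1,0),(8,0),(2,0)]⟩,⟨0,[(0,0),(8,1),(6,1),(13,1),(8,0)]⟩⟩,[.e ⟨false,1,
  ⟨0,[(15,0),(27,0)]⟩,⟨0,[(12,0),(29,0)]⟩⟩ ⟨false,1,⟨0,[(4,0),(7,0),(0,0),(2,0),(13,1),(8,0),(2,
  0)]⟩,⟨3,[(0,0),(5,0),(2,3),(7,1),(2,0),(23,2)]⟩⟩,.o ⟨false,1,⟨1,[(18,1),(20,0),(4,0)]⟩,⟨0,[(10,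
  0)]⟩⟩,.o ⟨false,0,⟨1,[(0,0),(22,0)]⟩,⟨0,[(4,0),(11,0),(13,0),(8,0)]⟩⟩,.a ⟨true,(-1),⟨0,[(0,0),(29,
  0)]⟩,⟨2,[(11,2),(1,0),(2,1),(25,2),(0,0)]⟩⟩ ⟨false,1,⟨2,[(13,0),(1,2),(0,1),(25,2),(0,0)]⟩,⟨1,
  [(12,1),(17,0),(0,0),(10,1)]⟩⟩ ⟨true,1,⟨0,[(4,0),(7,0),(0,0),(2,0),(13,1),(8,0),(2,0)]⟩,⟨0,[(0,0),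
  (14,0),(26,0)]⟩⟩]⟩) (.Q [0,0,1,0,0,0,0,0,1,-1,0,1] (.p true [0,0,0,0,1] [1] (⟨0,[(26,0)]⟩,⟨0,[(25,
  0)]⟩) .k 1 (⟨0,[]⟩,⟨0,[]⟩) .k .k) (.S ⟨1,0,[0,2],[0,0,0,0,1],[1,1,0,-1],(⟨0,[(27,0)]⟩,⟨0,[(26,
  0)]⟩),⟨0,[(2,0),(19,0)]⟩,.k,(.r 0 ⟨0,[(41,0)]⟩ ⟨5,[(12,1),(8,1),(2,1),(6,2),(0,0),(10,5),(1,3)]⟩),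
  ⟨false,1,⟨0,[(42,0),(2,0)]⟩,⟨0,[(43,0)]⟩⟩,⟨true,0,⟨0,[(47,0)]⟩,⟨0,[]⟩⟩,⟨true,0,⟨0,[]⟩,⟨0,[(47,
  0)]⟩⟩,⟨false,0,⟨0,[(43,0)]⟩,⟨0,[(42,0),(2,0)]⟩⟩,[.e ⟨false,0,⟨1,[(14,0),(27,0)]⟩,⟨1,[(5,0),(18,0),
  (18,0),(1,1)]⟩⟩ ⟨false,0,⟨0,[(39,0)]⟩,⟨0,[(45,0)]⟩⟩,.o ⟨false,0,⟨10,[(0,3),(4,2),(6,0),(1,1),(0,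
  0),(9,2),(4,0),(9,2)]⟩,⟨0,[(18,0)]⟩⟩,.a ⟨true,0,⟨0,[(25,0)]⟩,⟨0,[(7,0)]⟩⟩ ⟨true,0,⟨0,[(42,0)]⟩,⟨0,
  [(43,0)]⟩⟩ ⟨false,0,⟨0,[(47,0)]⟩,⟨0,[(45,0)]⟩⟩,.o ⟨false,0,⟨0,[(0,0)]⟩,⟨1,[(7,1),(32,0),(3,
  0)]⟩⟩]⟩) (.Q [0,0,0,0,0,1,0,0,0,0,-1,1] (.p true [1,0,-1,0,1] [1] (⟨0,[(27,0),(5,0)]⟩,⟨0,[(6,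
  0)]⟩) .k 1 (⟨0,[]⟩,⟨0,[]⟩) .k (.r 0 ⟨7,[(0,1),(0,1),(6,0),(1,0),(5,3),(13,1),(8,1)]⟩ ⟨5,[(13,1),
  (7,1),(7,3),(10,0),(2,1),(1,4)]⟩)) (.R ⟨0,false,false,true,[0,0,1,0,-1],[1,0,0,0,-1],[0,0,1],(⟨0,
  [(7,0)]⟩,⟨0,[(28,0),(5,0)]⟩),(⟨0,[(27,0)]⟩,⟨0,[(28,0)]⟩),⟨0,[(0,0)]⟩,.k,.k,(.r (-1) ⟨0,[(16,0),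
  (29,0)]⟩ ⟨1,[(11,0),(1,0),(3,0),(7,0),(18,0)]⟩),.k,.k,.k,⟨true,0,⟨1,[(32,0),(0,0)]⟩,⟨0,[]⟩⟩,
  ⟨false,0,⟨0,[(29,0)]⟩,⟨1,[(2,0),(22,0)]⟩⟩,⟨false,0,⟨0,[(4,0),(4,1),(4,0),(17,1),(8,0),(2,3)]⟩,⟨0,
  [(16,0),(27,0),(1,0)]⟩⟩,⟨true,(-1),⟨0,[(10,0)]⟩,⟨1,[(30,1),(10,0),(4,0)]⟩⟩,⟨false,0,⟨0,[]⟩,⟨0,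
  []⟩⟩,⟨false,0,⟨0,[]⟩,⟨0,[]⟩⟩,[.a ⟨true,0,⟨0,[(8,0)]⟩,⟨0,[(26,0)]⟩⟩ ⟨true,0,⟨1,[(32,0),(0,0)]⟩,⟨0,
  []⟩⟩ ⟨false,0,⟨0,[(29,0)]⟩,⟨1,[(2,0),(22,0)]⟩⟩,.o ⟨false,1,⟨0,[(19,0)]⟩,⟨9,[(2,0),(3,3),(2,1),(4,
  1),(11,4),(14,4)]⟩⟩,.o ⟨false,1,⟨0,[(1,0),(30,0),(8,0)]⟩,⟨0,[(21,0),(4,0)]⟩⟩,.o ⟨false,1,⟨0,[(8,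
  0),(23,0),(8,0)]⟩,⟨0,[(6,0),(11,0),(2,0)]⟩⟩]⟩) (.R ⟨1,false,false,true,[0,0,1,0,-1],[1,0,0,0,-1],
  [0,0,0,0,0,0,0,1],(⟨0,[(7,0)]⟩,⟨0,[(28,0),(5,0)]⟩),(⟨0,[(27,0)]⟩,⟨0,[(28,0)]⟩),⟨0,[(0,0)]⟩,.k,.k,
  (.r (-1) ⟨0,[(16,0),(29,0)]⟩ ⟨1,[(11,0),(1,0),(3,0),(7,0),(18,0)]⟩),.k,.k,.k,⟨true,0,⟨0,[(14,0),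
  (29,0)]⟩,⟨0,[(17,0)]⟩⟩,⟨false,0,⟨0,[(29,0)]⟩,⟨1,[(2,0),(22,0)]⟩⟩,⟨true,0,⟨0,[(48,0)]⟩,⟨0,[]⟩⟩,
  ⟨true,(-1),⟨0,[(10,0)]⟩,⟨1,[(30,1),(10,0),(4,0)]⟩⟩,⟨false,0,⟨0,[(44,0)]⟩,⟨0,[(43,0),(2,0)]⟩⟩,
  ⟨true,(-1),⟨0,[(11,0)]⟩,⟨1,[(20,1),(20,0),(4,0)]⟩⟩,[.a ⟨true,0,⟨0,[(8,0)]⟩,⟨0,[(26,0)]⟩⟩ ⟨true,0,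
  ⟨0,[(14,0),(29,0)]⟩,⟨0,[(17,0)]⟩⟩ ⟨false,0,⟨0,[(29,0)]⟩,⟨1,[(2,0),(22,0)]⟩⟩,.o ⟨false,1,⟨0,[(19,
  0)]⟩,⟨9,[(2,0),(3,3),(2,1),(4,1),(11,4),(14,4)]⟩⟩,.o ⟨false,1,⟨0,[(1,0),(30,0),(8,0)]⟩,⟨0,[(21,0),
  (4,0)]⟩⟩,.o ⟨false,1,⟨0,[(8,0),(23,0),(8,0)]⟩,⟨0,[(6,0),(11,0),(2,0)]⟩⟩]⟩)))) (.Q [0,0,-1,0,0,0,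
  -1,0,-1,1,-1,-1] (.p false [0,0,1,0,1] [1] (⟨0,[(25,0),(6,0)]⟩,⟨0,[(0,0)]⟩) .k 1 (⟨0,[]⟩,⟨0,[]⟩)
  .k (.r 0 ⟨1,[(13,0),(13,0),(2,0),(10,0)]⟩ ⟨1,[(14,1),(27,0),(0,0)]⟩)) (.R ⟨1,false,false,true,[0,
  0,1,0,1],[0,0,0,0,1],[1,1,0,-1,0,0,0,1],(⟨0,[(26,0),(6,0)]⟩,⟨0,[(1,0)]⟩),(⟨0,[(26,0)]⟩,⟨0,[(25,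
  0)]⟩),⟨0,[(22,0),(3,0)]⟩,.k,.k,(.r 0 ⟨0,[(2,0),(4,1),(4,2),(0,0),(16,1),(8,0),(2,5)]⟩ ⟨1,[(9,0),
  (1,0),(3,0),(7,0),(18,0),(1,1)]⟩),.k,.k,.k,⟨false,1,⟨0,[(14,0),(29,0)]⟩,⟨1,[(9,1),(20,1),(8,0),(3,
  0)]⟩⟩,⟨true,0,⟨0,[(19,0)]⟩,⟨0,[(30,0)]⟩⟩,⟨false,1,⟨0,[(41,0),(2,0)]⟩,⟨0,[(42,0)]⟩⟩,⟨false,0,⟨10,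
  [(7,3),(2,5),(4,0),(0,1),(14,0),(7,1)]⟩,⟨0,[(28,0),(15,0)]⟩⟩,⟨true,0,⟨0,[]⟩,⟨0,[(46,0)]⟩⟩,⟨false,
  0,⟨0,[(10,0)]⟩,⟨0,[(18,0),(25,0)]⟩⟩,[.e ⟨false,0,⟨0,[(14,0)]⟩,⟨1,[(15,1),(26,1),(0,0),(0,0)]⟩⟩
  ⟨false,0,⟨3,[(0,0),(3,0),(9,0),(5,0),(8,0),(8,1),(0,0)]⟩,⟨0,[(16,0),(13,0),(11,0)]⟩⟩,.o ⟨false,0,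
  ⟨5,[(4,2),(2,0),(3,0),(0,0),(3,0),(7,1),(14,2)]⟩,⟨0,[(17,0)]⟩⟩,.e ⟨false,0,⟨0,[(12,0)]⟩,⟨1,[(15,
  1),(26,1),(0,0),(0,0)]⟩⟩ ⟨false,0,⟨7,[(0,0),(3,0),(9,0),(5,0),(8,0),(1,3),(6,1),(0,0)]⟩,⟨0,[(16,
  0),(13,0),(11,0)]⟩⟩,.a ⟨true,0,⟨0,[(24,0),(5,0)]⟩,⟨0,[(0,0)]⟩⟩ ⟨true,0,⟨0,[(14,0)]⟩,⟨0,[(15,0),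
  (26,0)]⟩⟩ ⟨false,0,⟨2,[(0,0),(3,0),(8,0),(6,0),(18,0)]⟩,⟨0,[(30,0),(13,0)]⟩⟩]⟩) (.R ⟨1,false,
  false,false,[0,0,1,0,1],[0,0,0,0,1],[0,2,0,0,0,0,0,1],(⟨0,[(26,0),(6,0)]⟩,⟨0,[(1,0)]⟩),(⟨0,[(26,
  0)]⟩,⟨0,[(25,0)]⟩),⟨0,[(22,0),(3,0)]⟩,.k,.k,(.r 0 ⟨2,[(0,7),(0,5),(0,4),(0,3),(1,1),(1,7),(4,10),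
  (0,4),(8,3),(16,2),(2,25)]⟩ ⟨1,[(9,0),(1,0),(3,0),(7,0),(18,0),(1,1)]⟩),.k,.k,.k,⟨false,0,⟨0,[(14,
  0),(27,0)]⟩,⟨1,[(15,1),(27,0),(0,0)]⟩⟩,⟨true,0,⟨0,[(19,0)]⟩,⟨0,[(30,0)]⟩⟩,⟨true,0,⟨0,[(46,0)]⟩,⟨0,
  []⟩⟩,⟨true,0,⟨10,[(7,3),(2,5),(4,0),(0,1),(14,0),(7,1)]⟩,⟨0,[(28,0)]⟩⟩,⟨false,0,⟨0,[(42,0)]⟩,⟨0,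
  [(41,0),(2,0)]⟩⟩,⟨true,0,⟨0,[(10,0)]⟩,⟨0,[(18,0)]⟩⟩,[.o ⟨false,0,⟨5,[(0,0),(3,1),(2,0),(6,0),(9,
  2),(14,2)]⟩,⟨0,[(17,0)]⟩⟩,.a ⟨true,0,⟨0,[(24,0)]⟩,⟨0,[(6,0)]⟩⟩ ⟨false,0,⟨0,[(14,0),(27,0)]⟩,⟨1,
  [(15,1),(27,0),(0,0)]⟩⟩ ⟨true,0,⟨0,[(19,0)]⟩,⟨0,[(30,0)]⟩⟩,.e ⟨false,0,⟨1,[(14,0),(13,0),(2,0),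
  (10,0)]⟩,⟨0,[(15,0),(0,0),(25,0)]⟩⟩ ⟨false,0,⟨0,[(19,0)]⟩,⟨1,[(30,1),(12,0),(0,0)]⟩⟩,.o ⟨false,0,
  ⟨0,[(0,0)]⟩,⟨0,[(6,0),(20,0),(11,0)]⟩⟩]⟩)))) (.I [1,2,1,1,-1] (.I [0,0,-1,0,0,-1,0,0,2] (.N [0,1,
  0,0,2] 1 ⟨0,[(1,0)]⟩ ⟨0,[(15,0)]⟩ (.x 0 ⟨0,[(0,0)]⟩ ⟨1,[(5,3),(19,3),(3,0),(0,0),(2,1),(4,1)]⟩))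
  (.Q [0,0,0,0,0,0,0,0,0,1,-1,-1] (.ed true [0,0,1,0,1] (.r 0 ⟨6,[(1,0),(9,1),(1,0),(5,1),(7,3),(10,
  0),(2,1)]⟩ ⟨1,[(14,1),(27,0),(0,0)]⟩)) (.Q [0,0,-1,0,0,0,-1,0,-1,1,-1,-1] (.p false [0,0,1,0,1]
  [1] (⟨0,[(26,0),(6,0)]⟩,⟨0,[(0,0)]⟩) .k 1 (⟨0,[]⟩,⟨0,[]⟩) .k (.r 0 ⟨6,[(2,0),(9,1),(1,0),(5,1),(7,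
  3),(10,0),(2,1)]⟩ ⟨1,[(15,1),(27,0),(0,0)]⟩)) (.R ⟨1,false,false,true,[0,0,1,0,1],[0,0,0,0,1],[1,
  1,0,-1,0,0,0,1],(⟨0,[(27,0),(6,0)]⟩,⟨0,[(1,0)]⟩),(⟨0,[(27,0)]⟩,⟨0,[(26,0)]⟩),⟨0,[(23,0),(3,0)]⟩,
  .k,.k,(.r 0 ⟨0,[(8,1),(4,2),(0,0),(2,0),(13,1),(8,0),(2,5)]⟩ ⟨1,[(10,0),(1,0),(3,0),(7,0),(18,0),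
  (1,1)]⟩),.k,.k,.k,⟨false,1,⟨0,[(15,0),(29,0)]⟩,⟨1,[(10,1),(20,1),(8,0),(3,0)]⟩⟩,⟨true,0,⟨0,[(20,
  0)]⟩,⟨0,[(31,0)]⟩⟩,⟨false,1,⟨0,[(42,0),(2,0)]⟩,⟨0,[(43,0)]⟩⟩,⟨false,0,⟨10,[(8,3),(2,5),(4,0),(0,
  1),(14,0),(7,1)]⟩,⟨0,[(29,0),(15,0)]⟩⟩,⟨true,0,⟨0,[]⟩,⟨0,[(47,0)]⟩⟩,⟨false,0,⟨0,[(11,0)]⟩,⟨0,[(19,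
  0),(25,0)]⟩⟩,[.e ⟨false,0,⟨0,[(15,0)]⟩,⟨1,[(16,1),(26,1),(0,0),(0,0)]⟩⟩ ⟨false,0,⟨3,[(0,0),(4,0),
  (9,0),(5,0),(8,0),(8,1),(0,0)]⟩,⟨0,[(17,0),(13,0),(11,0)]⟩⟩,.o ⟨false,0,⟨5,[(5,2),(2,0),(3,0),(0,
  0),(3,0),(7,1),(14,2)]⟩,⟨0,[(18,0)]⟩⟩,.e ⟨false,0,⟨0,[(13,0)]⟩,⟨1,[(16,1),(26,1),(0,0),(0,0)]⟩⟩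
  ⟨false,0,⟨5,[(3,0),(11,0),(5,1),(8,0),(1,0),(6,0),(0,0)]⟩,⟨0,[(17,0),(13,0),(11,0)]⟩⟩,.a ⟨true,0,
  ⟨0,[(25,0),(5,0)]⟩,⟨0,[(0,0)]⟩⟩ ⟨true,0,⟨0,[(15,0)]⟩,⟨0,[(16,0),(26,0)]⟩⟩ ⟨false,0,⟨2,[(0,0),(4,
  0),(8,0),(6,0),(18,0)]⟩,⟨0,[(31,0),(13,0)]⟩⟩]⟩) (.R ⟨1,false,false,false,[0,0,1,0,1],[0,0,0,0,1],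
  [1,2,0,-1,0,0,0,1],(⟨0,[(27,0),(6,0)]⟩,⟨0,[(1,0)]⟩),(⟨0,[(27,0)]⟩,⟨0,[(26,0)]⟩),⟨0,[(23,0),(3,
  0)]⟩,.k,.k,(.r 0 ⟨2,[(0,7),(0,1),(0,3),(3,5),(1,7),(4,10),(0,4),(2,4),(4,3),(17,2),(2,25)]⟩ ⟨1,
  [(10,0),(1,0),(3,0),(7,0),(18,0),(1,1)]⟩),.k,.k,.k,⟨false,0,⟨0,[(15,0)]⟩,⟨1,[(16,1),(26,1),(0,0),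
  (0,0)]⟩⟩,⟨true,0,⟨0,[(20,0)]⟩,⟨0,[(31,0)]⟩⟩,⟨true,0,⟨0,[(42,0)]⟩,⟨0,[(43,0)]⟩⟩,⟨true,0,⟨10,[(8,3),
  (2,5),(4,0),(0,1),(14,0),(7,1)]⟩,⟨0,[(29,0)]⟩⟩,⟨false,0,⟨0,[]⟩,⟨1,[(24,0),(0,0),(19,0)]⟩⟩,⟨true,0,
  ⟨0,[(11,0)]⟩,⟨0,[(19,0)]⟩⟩,[.o ⟨false,0,⟨5,[(0,0),(4,1),(2,0),(6,0),(9,2),(14,2)]⟩,⟨0,[(18,0)]⟩⟩,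
  .a ⟨true,0,⟨0,[(25,0)]⟩,⟨0,[(7,0)]⟩⟩ ⟨false,0,⟨0,[(15,0)]⟩,⟨1,[(16,1),(26,1),(0,0),(0,0)]⟩⟩ ⟨true,
  0,⟨0,[(20,0)]⟩,⟨0,[(31,0)]⟩⟩,.e ⟨false,0,⟨1,[(15,0),(3,0),(12,0)]⟩,⟨0,[(16,0),(0,0),(25,1)]⟩⟩
  ⟨false,0,⟨0,[(20,0)]⟩,⟨1,[(31,1),(12,0),(0,0)]⟩⟩,.o ⟨false,0,⟨0,[(0,0)]⟩,⟨0,[(7,0),(20,0),(11,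
  0)]⟩⟩]⟩)) (.Q [0,0,-1,0,1,0,1,0,1,-2,1,1] (.p true [-1,0,1,0,1] [1] (⟨0,[(0,0)]⟩,⟨0,[(25,0),(6,
  0)]⟩) .k 1 (⟨0,[]⟩,⟨0,[]⟩) .k (.r 0 ⟨6,[(2,0),(9,1),(1,0),(5,1),(7,3),(10,0),(2,1)]⟩ ⟨1,[(15,1),
  (27,0),(0,0)]⟩)) (.S ⟨1,0,[0,0,0,0,0,0,0,-1],[2,0,-1,0,-1],[1,-1,0,-1,0,0,0,-1],(⟨0,[(26,0),(6,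
  0)]⟩,⟨0,[(1,0)]⟩),⟨0,[(22,0),(3,0)]⟩,.k,(.r (-1) ⟨2,[(14,0),(1,2),(0,1),(26,0)]⟩ ⟨0,[(29,0),(2,0),
  (10,0)]⟩),⟨false,1,⟨0,[(42,0),(2,0)]⟩,⟨0,[(43,0)]⟩⟩,⟨true,0,⟨0,[(47,0)]⟩,⟨0,[]⟩⟩,⟨true,0,⟨0,[]⟩,
  ⟨0,[(47,0)]⟩⟩,⟨false,0,⟨0,[(43,0)]⟩,⟨0,[(42,0),(2,0)]⟩⟩,[.o ⟨false,0,⟨1,[(7,0),(0,0),(2,0),(6,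
  0)]⟩,⟨3,[(0,1),(11,1),(0,3),(26,0),(2,3),(1,0)]⟩⟩,.a ⟨true,0,⟨1,[(7,1),(0,0),(1,0),(34,1)]⟩,⟨1,
  [(0,0),(4,0),(7,1),(17,0),(11,0)]⟩⟩ ⟨true,1,⟨0,[(16,0),(0,0)]⟩,⟨0,[(3,0),(9,0),(29,0)]⟩⟩ ⟨false,1,
  ⟨3,[(0,1),(6,1),(2,1),(5,1),(0,1),(26,0),(0,0)]⟩,⟨6,[(3,0),(9,1),(1,0),(5,1),(7,3),(10,0),(2,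
  1)]⟩⟩,.o ⟨false,0,⟨0,[(7,0),(12,0)]⟩,⟨3,[(0,1),(11,1),(27,0),(4,0)]⟩⟩,.o ⟨false,0,⟨0,[(7,0),(24,
  0)]⟩,⟨0,[(0,0)]⟩⟩]⟩) (.R ⟨1,false,false,true,[2,0,-1,0,-1],[1,-1,0,0,-1],[0,0,0,0,0,0,0,-1],(⟨0,
  [(26,0),(6,0)]⟩,⟨0,[(1,0)]⟩),(⟨0,[(6,0),(15,0)]⟩,⟨0,[(27,0),(7,0)]⟩),⟨0,[(22,0),(3,0)]⟩,.k,(.r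
  (-1) ⟨3,[(17,1),(24,1),(1,0),(0,0)]⟩ ⟨2,[(3,0),(8,0),(8,0),(2,0),(6,0),(11,1)]⟩),(.r (-1) ⟨2,[(14,
  0),(1,2),(0,1),(26,0)]⟩ ⟨0,[(29,0),(2,0),(10,0)]⟩),.k,.k,.k,⟨true,0,⟨0,[(16,0),(26,0)]⟩,⟨0,[(13,
  0)]⟩⟩,⟨false,1,⟨1,[(31,1),(8,0),(3,0)]⟩,⟨0,[(28,0)]⟩⟩,⟨true,0,⟨15,[(0,0),(2,0),(8,2),(8,0),(2,1),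
  (14,4),(2,0)]⟩,⟨0,[]⟩⟩,⟨false,1,⟨1,[(19,1),(20,0),(4,0)]⟩,⟨0,[(10,0),(34,0)]⟩⟩,⟨false,0,⟨0,[(43,
  0)]⟩,⟨0,[(42,0),(2,0)]⟩⟩,⟨false,1,⟨1,[(29,1),(10,0),(4,0)]⟩,⟨1,[(8,0),(1,0),(34,1)]⟩⟩,[.e ⟨false,
  1,⟨0,[(16,0),(27,0)]⟩,⟨0,[(13,0),(29,0)]⟩⟩ ⟨false,1,⟨5,[(14,3),(2,1),(13,5),(8,2),(3,0)]⟩,⟨6,[(2,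
  0),(2,1),(15,2),(4,1),(1,0),(8,0),(5,4),(1,1)]⟩⟩,.o ⟨false,1,⟨2,[(7,0),(0,0),(4,0),(3,0),(0,1),
  (12,0),(8,0)]⟩,⟨1,[(5,1),(34,0),(4,0)]⟩⟩,.o ⟨false,0,⟨0,[(7,0),(12,0)]⟩,⟨0,[(5,0),(11,0),(13,0),
  (8,0)]⟩⟩,.a ⟨true,(-1),⟨0,[(0,0)]⟩,⟨2,[(12,2),(1,0),(2,1),(25,2),(0,0)]⟩⟩ ⟨false,1,⟨2,[(14,0),(1,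
  2),(0,1),(25,2),(0,0)]⟩,⟨0,[(3,0),(9,0),(31,0)]⟩⟩ ⟨true,1,⟨5,[(14,3),(2,1),(13,5),(8,2),(3,0)]⟩,
  ⟨1,[(0,0),(4,0),(26,0),(10,0)]⟩⟩]⟩)))) (.Q [0,0,2,0,0,0,0,0,-1,0,0,-1] (.p false [0,0,0,0,1] []
  (⟨0,[(24,0)]⟩,⟨0,[(23,0)]⟩) .k 0 (⟨0,[]⟩,⟨0,[]⟩) .k .k) (.Q [0,0,0,0,0,1,0,0,0,0,0,-1] (.ed true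
  [1,-1,0,0,1] .k) (.R ⟨1,false,false,true,[0,0,1,0,1],[0,0,0,0,1],[1,1,0,-1,0,0,0,1],(⟨0,[(26,0),
  (6,0)]⟩,⟨0,[(0,0),(20,0)]⟩),(⟨0,[(26,0)]⟩,⟨0,[(25,0)]⟩),⟨0,[(22,0),(3,0)]⟩,.k,.k,(.r 0 ⟨0,[(2,0),
  (4,1),(4,2),(0,0),(16,1),(8,0),(2,5)]⟩ ⟨1,[(9,0),(1,0),(3,0),(7,0),(18,0),(1,1)]⟩),.k,.k,.k,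
  ⟨false,1,⟨0,[(14,0),(29,0)]⟩,⟨1,[(9,1),(20,1),(8,0),(3,0)]⟩⟩,⟨true,0,⟨0,[(19,0)]⟩,⟨0,[(30,0)]⟩⟩,
  ⟨false,1,⟨0,[(41,0),(2,0)]⟩,⟨0,[(42,0)]⟩⟩,⟨false,0,⟨10,[(7,3),(2,5),(4,0),(0,1),(14,0),(7,1)]⟩,⟨0,
  [(28,0),(15,0)]⟩⟩,⟨true,0,⟨0,[]⟩,⟨0,[(46,0)]⟩⟩,⟨false,0,⟨0,[(10,0)]⟩,⟨0,[(18,0),(25,0)]⟩⟩,[.e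
  ⟨false,0,⟨0,[(14,0)]⟩,⟨1,[(15,1),(26,1),(0,0),(0,0)]⟩⟩ ⟨false,0,⟨2,[(9,0),(4,0),(5,0),(17,1),(0,
  0)]⟩,⟨0,[(16,0),(13,0),(11,0)]⟩⟩,.o ⟨false,0,⟨5,[(4,2),(2,0),(3,0),(0,0),(3,0),(7,1),(14,2)]⟩,⟨0,
  [(17,0)]⟩⟩,.e ⟨false,0,⟨0,[(12,0)]⟩,⟨1,[(15,1),(26,1),(0,0),(0,0)]⟩⟩ ⟨false,0,⟨5,[(9,0),(4,0),(5,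
  0),(10,2),(6,1),(0,0)]⟩,⟨0,[(16,0),(13,0),(11,0)]⟩⟩,.a ⟨true,0,⟨0,[(24,0),(5,0)]⟩,⟨0,[(1,0),(7,0),
  (2,0),(0,0),(2,0),(25,1)]⟩⟩ ⟨true,0,⟨0,[(14,0)]⟩,⟨0,[(15,0),(26,0)]⟩⟩ ⟨false,0,⟨1,[(9,0),(4,0),
  (12,0),(11,0)]⟩,⟨0,[(30,0),(13,0)]⟩⟩]⟩) (.Q [0,-3,0,-1,2,0,1,1,-2,0,1,-2] (.p false [0,0,0,0,1]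
  [0,0,1,0,-1] (⟨0,[(26,0)]⟩,⟨0,[(25,0)]⟩) .k 2 (⟨0,[(5,0)]⟩,⟨0,[(26,0),(5,0)]⟩) .k (.r 0 ⟨0,[(15,
  0),(22,0)]⟩ ⟨0,[(12,0),(29,0),(1,0)]⟩)) (.Q [0,0,0,0,0,-2,0,0,0,1,0,-1] (.p false [0,0,0,0,1] [1]
  (⟨0,[(27,0)]⟩,⟨0,[(26,0)]⟩) .k 1 (⟨0,[]⟩,⟨0,[]⟩) .k .k) (.S ⟨1,0,[0,-1,-1,-1],[1,-1,0,0,-1],[0,0,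
  -1,-1],(⟨1,[(0,0),(26,0)]⟩,⟨0,[(28,0),(7,0)]⟩),⟨0,[(0,0)]⟩,(.r (-1) ⟨3,[(18,1),(24,1),(1,0),(0,
  0)]⟩ ⟨7,[(3,1),(2,2),(6,1),(8,1),(2,2),(6,1),(11,4)]⟩),(.r (-1) ⟨1,[(15,0),(2,1),(24,0)]⟩ ⟨3,[(3,
  1),(2,0),(6,1),(8,1),(2,0),(6,1),(11,6)]⟩),⟨true,0,⟨0,[(48,0)]⟩,⟨0,[]⟩⟩,⟨false,1,⟨1,[(25,0),(0,0),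
  (19,0)]⟩,⟨0,[]⟩⟩,⟨false,0,⟨0,[(44,0)]⟩,⟨0,[(43,0),(2,0)]⟩⟩,⟨true,0,⟨0,[(44,0)]⟩,⟨0,[(43,0)]⟩⟩,[.o
  ⟨false,1,⟨12,[(1,5),(1,0),(5,1),(8,1),(12,3),(9,0),(1,2)]⟩,⟨1,[(6,1),(34,0),(4,0)]⟩⟩,.a ⟨true,1,
  ⟨1,[(1,0),(6,0),(0,0),(16,0),(19,0)]⟩,⟨0,[(6,0)]⟩⟩ ⟨false,1,⟨2,[(15,0),(2,1),(26,0)]⟩,⟨7,[(3,1),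
  (2,2),(6,1),(8,1),(2,2),(6,1),(11,4)]⟩⟩ ⟨true,1,⟨0,[(4,0)]⟩,⟨0,[(3,0),(2,0)]⟩⟩,.e ⟨false,1,⟨3,
  [(18,1),(24,1),(1,0),(0,0)]⟩,⟨1,[(3,0),(2,0),(37,0),(1,0)]⟩⟩ ⟨false,1,⟨0,[(4,0)]⟩,⟨7,[(3,1),(2,2),
  (6,1),(8,1),(2,2),(6,1),(11,4)]⟩⟩,.o ⟨false,0,⟨0,[(3,0)]⟩,⟨1,[(6,1),(11,1),(22,0),(3,0)]⟩⟩]⟩) (.R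
  ⟨0,false,false,false,[1,-1,0,0,-1],[1,-1,-1],[0,0,-1,-1],(⟨3,[(3,0),(1,1),(2,2),(14,0),(0,0)]⟩,⟨0,
  [(28,0),(7,0)]⟩),(⟨0,[(23,0)]⟩,⟨0,[(35,0),(0,0)]⟩),⟨0,[(0,0)]⟩,(.r (-1) ⟨3,[(18,1),(24,1),(1,0),
  (0,0)]⟩ ⟨7,[(3,1),(2,2),(6,1),(8,1),(2,2),(6,1),(11,4)]⟩),.k,(.r (-1) ⟨1,[(15,0),(2,1),(24,0)]⟩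
  ⟨3,[(3,1),(2,0),(6,1),(8,1),(2,0),(6,1),(11,6)]⟩),.k,.k,.k,⟨true,0,⟨0,[(14,0),(29,0)]⟩,⟨0,[(17,
  0)]⟩⟩,⟨false,0,⟨1,[(0,0),(1,0),(2,0),(15,0),(7,0)]⟩,⟨1,[(8,1),(23,1),(8,0),(3,0)]⟩⟩,⟨true,0,⟨0,
  [(48,0)]⟩,⟨0,[]⟩⟩,⟨false,0,⟨10,[(9,3),(2,5),(4,0),(0,1),(7,10),(6,0),(7,1)]⟩,⟨1,[(1,0),(28,0),(13,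
  0)]⟩⟩,⟨false,0,⟨0,[]⟩,⟨0,[]⟩⟩,⟨false,0,⟨0,[]⟩,⟨0,[]⟩⟩,[.o ⟨false,0,⟨10,[(9,7),(2,0),(4,1),(0,3),
  (14,1),(7,3)]⟩,⟨1,[(30,1),(10,0),(2,1),(1,0)]⟩⟩,.e ⟨false,1,⟨2,[(15,0),(2,1),(26,0)]⟩,⟨7,[(3,1),
  (2,2),(6,1),(8,1),(2,2),(6,1),(11,4)]⟩⟩ ⟨false,1,⟨1,[(12,0),(2,0),(2,1),(7,1),(4,0)]⟩,⟨0,[(3,0),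
  (10,0),(0,0),(16,0),(11,2)]⟩⟩,.a ⟨true,0,⟨3,[(3,0),(4,2),(13,0),(9,1)]⟩,⟨0,[(6,0),(11,0)]⟩⟩
  ⟨false,1,⟨3,[(18,1),(24,1),(1,0),(0,0)]⟩,⟨1,[(3,0),(2,0),(37,0),(1,0)]⟩⟩ ⟨true,0,⟨15,[(0,2),(1,2),
  (2,2),(3,10),(2,4),(2,2),(2,6),(7,9),(14,3)]⟩,⟨0,[(3,0),(10,0),(0,0),(16,0),(11,2)]⟩⟩,.o ⟨false,0,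
  ⟨0,[(3,0)]⟩,⟨3,[(0,1),(1,1),(2,1),(35,0),(3,2)]⟩⟩]⟩)) (.Q [0,0,1,0,0,0,0,0,1,-1,0,1] (.p true [0,
  0,0,0,1] [1] (⟨0,[(27,0)]⟩,⟨0,[(26,0)]⟩) .k 1 (⟨0,[]⟩,⟨0,[]⟩) .k .k) (.S ⟨1,0,[0,2],[0,0,0,0,1],
  [1,1,0,-1],(⟨0,[(28,0)]⟩,⟨0,[(27,0)]⟩),⟨0,[(2,0)]⟩,.k,(.r 0 ⟨0,[(42,0)]⟩ ⟨9,[(3,0),(9,3),(8,3),(2,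
  2),(6,3),(11,9),(1,6)]⟩),⟨false,1,⟨0,[(43,0),(2,0)]⟩,⟨0,[(44,0)]⟩⟩,⟨true,0,⟨0,[(48,0)]⟩,⟨0,[]⟩⟩,
  ⟨true,0,⟨0,[]⟩,⟨0,[(48,0)]⟩⟩,⟨false,0,⟨0,[(44,0)]⟩,⟨0,[(43,0),(2,0)]⟩⟩,[.e ⟨false,0,⟨1,[(15,0),
  (27,0)]⟩,⟨1,[(6,0),(18,0),(18,0),(1,1)]⟩⟩ ⟨false,0,⟨0,[(40,0)]⟩,⟨0,[(46,0)]⟩⟩,.o ⟨false,0,⟨4,[(1,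
  0),(11,0),(2,0),(9,1),(14,1)]⟩,⟨0,[(19,0)]⟩⟩,.a ⟨true,0,⟨0,[(26,0)]⟩,⟨0,[(8,0)]⟩⟩ ⟨true,0,⟨0,[(43,
  0)]⟩,⟨0,[(44,0)]⟩⟩ ⟨false,0,⟨0,[(48,0)]⟩,⟨0,[(46,0)]⟩⟩,.o ⟨false,0,⟨0,[(0,0)]⟩,⟨1,[(8,1),(32,0),
  (3,0)]⟩⟩]⟩) (.S ⟨1,0,[0,2,0,0,0,0,0,-1],[1,0,-1,0,1],[1,1,0,-1,0,0,0,-1],(⟨0,[(28,0),(5,0)]⟩,⟨0,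
  [(7,0)]⟩),⟨0,[(23,0),(4,0)]⟩,.k,(.r 0 ⟨0,[(15,0),(1,0)]⟩ ⟨0,[(30,0),(2,0),(10,0),(1,0)]⟩),⟨false,
  1,⟨0,[(43,0),(2,0)]⟩,⟨0,[(44,0)]⟩⟩,⟨true,0,⟨0,[(48,0)]⟩,⟨0,[]⟩⟩,⟨true,0,⟨0,[]⟩,⟨0,[(48,0)]⟩⟩,
  ⟨false,0,⟨0,[(44,0)]⟩,⟨0,[(43,0),(2,0)]⟩⟩,[.o ⟨false,(-1),⟨22,[(1,10),(7,4),(3,0),(4,1),(12,6),(1,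
  0),(7,1),(1,3)]⟩,⟨2,[(0,0),(2,1),(10,0),(3,3),(11,1),(1,0),(8,1),(2,4)]⟩⟩,.e ⟨false,1,⟨5,[(15,0),
  (1,5),(0,1),(24,2),(1,3)]⟩,⟨0,[(14,0),(29,1)]⟩⟩ ⟨false,0,⟨0,[(15,0),(1,0),(26,0)]⟩,⟨5,[(14,1),(7,
  1),(7,3),(10,0),(2,1),(1,4)]⟩⟩,.o ⟨false,0,⟨0,[(21,0),(4,0)]⟩,⟨0,[(0,0),(31,0),(8,0)]⟩⟩,.a ⟨true,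
  (-1),⟨0,[(1,0),(1,0),(7,0),(2,1),(3,1),(13,0),(11,1)]⟩,⟨1,[(0,1),(31,1),(8,0),(3,0)]⟩⟩ ⟨true,0,⟨0,
  [(15,0),(1,0)]⟩,⟨1,[(3,0),(2,0),(7,1),(29,2),(1,0)]⟩⟩ ⟨false,0,⟨0,[(15,0),(1,0),(26,0)]⟩,⟨1,[(3,
  0),(2,0),(7,1),(29,0),(1,2)]⟩⟩]⟩)))) (.Q [0,0,0,0,0,-2,0,0,0,1,0,-1] (.p false [0,0,0,0,1] [1]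
  (⟨0,[(25,0)]⟩,⟨0,[(24,0)]⟩) .k 1 (⟨0,[]⟩,⟨0,[]⟩) .k .k) (.S ⟨1,0,[0,0,-1,-1],[1,-1,0,0,-1],[0,-1,
  -1,-1],(⟨1,[(0,0),(24,0)]⟩,⟨0,[(26,0),(7,0)]⟩),⟨0,[(0,0)]⟩,(.r (-1) ⟨3,[(16,1),(24,1),(1,0),(0,
  0)]⟩ ⟨1,[(4,0),(18,0),(6,0),(0,0),(10,0)]⟩),(.r (-1) ⟨1,[(13,0),(2,1),(24,0)]⟩ ⟨1,[(4,0),(18,0),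
  (6,1),(0,1),(10,2)]⟩),⟨false,1,⟨1,[(23,0),(0,0),(19,0)]⟩,⟨0,[]⟩⟩,⟨true,0,⟨0,[(46,0)]⟩,⟨0,[]⟩⟩,
  ⟨true,0,⟨0,[(42,0)]⟩,⟨0,[(41,0)]⟩⟩,⟨false,0,⟨0,[(42,0)]⟩,⟨0,[(41,0),(2,0)]⟩⟩,[.e ⟨false,1,⟨2,[(13,
  0),(2,1),(26,0)]⟩,⟨1,[(4,0),(18,0),(6,0),(0,0),(10,0)]⟩⟩ ⟨false,1,⟨5,[(13,0),(2,1),(24,2),(1,3)]⟩,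
  ⟨1,[(30,0),(0,0),(10,1)]⟩⟩,.o ⟨false,1,⟨2,[(6,0),(0,0),(4,0),(3,0),(0,1),(12,0),(8,0)]⟩,⟨1,[(4,1),
  (34,0),(4,0)]⟩⟩,.e ⟨false,1,⟨0,[(2,0)]⟩,⟨1,[(4,0),(18,0),(6,0),(0,0),(10,0)]⟩⟩ ⟨false,1,⟨3,[(16,
  1),(24,1),(1,0),(0,0)]⟩,⟨1,[(30,0),(0,0),(10,1)]⟩⟩,.a ⟨true,0,⟨0,[(6,0),(23,0),(0,0)]⟩,⟨0,[(1,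
  0)]⟩⟩ ⟨true,1,⟨2,[(13,0),(2,1),(26,0)]⟩,⟨0,[(9,1),(2,1),(17,1),(8,0),(2,0)]⟩⟩ ⟨false,1,⟨2,[(13,0),
  (2,1),(26,0)]⟩,⟨0,[(30,0),(0,0),(10,0)]⟩⟩]⟩) (.Q [0,0,0,0,-1,0,-1,-1,1,1,-1,1] (.p true [1,0,-1,0,
  1] [] (⟨0,[(26,0),(5,0)]⟩,⟨0,[(5,0)]⟩) .k 0 (⟨0,[]⟩,⟨0,[]⟩) .k (.r 0 ⟨7,[(9,1),(3,1),(1,5),(14,1),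
  (7,1),(0,0),(3,0)]⟩ ⟨5,[(12,1),(7,1),(7,3),(10,0),(2,1),(1,4)]⟩)) (.R ⟨0,false,false,false,[0,0,1,
  0,-1],[1,0,0,0,-1],[0,-1,1],(⟨0,[(6,0)]⟩,⟨0,[(27,0),(5,0)]⟩),(⟨0,[(26,0)]⟩,⟨0,[(27,0)]⟩),⟨0,[(1,
  0),(20,0)]⟩,.k,.k,(.r (-1) ⟨0,[(15,0),(29,0)]⟩ ⟨1,[(10,0),(1,0),(3,0),(7,0),(18,0)]⟩),.k,.k,.k,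
  ⟨true,0,⟨1,[(31,0),(0,0)]⟩,⟨0,[]⟩⟩,⟨false,0,⟨0,[(28,0)]⟩,⟨1,[(31,1),(8,0),(3,0)]⟩⟩,⟨true,0,⟨0,[(3,
  0),(4,1),(4,0),(17,1),(8,0),(2,3)]⟩,⟨0,[(15,0),(27,0)]⟩⟩,⟨false,0,⟨1,[(8,0),(1,0),(34,1)]⟩,⟨1,
  [(29,1),(10,0),(4,0)]⟩⟩,⟨false,0,⟨0,[]⟩,⟨0,[]⟩⟩,⟨false,0,⟨0,[]⟩,⟨0,[]⟩⟩,[.o ⟨false,1,⟨0,[(18,0)]⟩,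
  ⟨3,[(0,0),(4,0),(6,0),(2,0),(9,0),(14,1)]⟩⟩,.e ⟨false,1,⟨0,[(45,0)]⟩,⟨0,[(39,0)]⟩⟩ ⟨false,1,⟨0,
  [(28,0),(16,0)]⟩,⟨0,[(10,0),(2,0),(0,0),(16,1),(8,0),(2,0)]⟩⟩,.a ⟨true,1,⟨1,[(7,1),(23,1),(8,0),
  (3,0)]⟩,⟨0,[(0,0),(12,0),(29,0)]⟩⟩ ⟨false,1,⟨1,[(31,0),(0,0),(12,1)]⟩,⟨2,[(14,0),(24,0),(3,0)]⟩⟩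
  ⟨true,0,⟨1,[(0,0),(6,0),(5,0),(6,0),(22,0),(1,0)]⟩,⟨0,[(10,0),(2,0),(0,0),(16,1),(8,0),(2,0)]⟩⟩,
  .o ⟨false,1,⟨0,[(7,0),(23,0),(8,0)]⟩,⟨0,[(2,0),(29,0)]⟩⟩]⟩) (.R ⟨0,false,false,true,[1,-1,0,0,-1],
  [1,0,-1],[1,1],(⟨0,[(6,0),(15,0)]⟩,⟨0,[(27,0),(7,0)]⟩),(⟨0,[(33,0)]⟩,⟨0,[(34,0)]⟩),⟨0,[(1,0)]⟩,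
  (.r (-1) ⟨3,[(17,1),(24,1),(1,0),(0,0)]⟩ ⟨1,[(5,0),(18,0),(6,0),(0,0),(10,0)]⟩),.k,(.r (-1) ⟨1,
  [(14,0),(2,1),(24,0)]⟩ ⟨1,[(5,0),(18,0),(6,1),(0,1),(10,2)]⟩),(.r (-1) ⟨0,[(15,0),(29,0)]⟩ ⟨1,
  [(10,0),(1,0),(3,0),(7,0),(18,0)]⟩),.k,.k,⟨true,0,⟨0,[(13,0),(29,0)]⟩,⟨0,[(3,0),(4,1),(4,0),(17,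
  1),(8,0),(2,3)]⟩⟩,⟨false,0,⟨0,[(2,0),(17,0)]⟩,⟨0,[(24,0),(6,0)]⟩⟩,⟨false,0,⟨1,[(5,0),(18,0),(6,0),
  (0,0),(10,0)]⟩,⟨0,[(3,0)]⟩⟩,⟨true,(-1),⟨4,[(5,3),(2,1),(2,2),(13,0),(14,0)]⟩,⟨1,[(0,0),(6,0),(5,
  0),(3,0),(13,0)]⟩⟩,⟨false,0,⟨0,[]⟩,⟨0,[]⟩⟩,⟨false,0,⟨0,[]⟩,⟨0,[]⟩⟩,[.e ⟨false,0,⟨5,[(0,0),(1,0),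
  (7,0),(3,0),(24,1)]⟩,⟨1,[(24,0),(0,0),(19,0)]⟩⟩ ⟨false,0,⟨0,[(2,0),(27,0)]⟩,⟨3,[(0,1),(6,1),(5,1),
  (17,2),(0,0),(10,1),(1,1)]⟩⟩,.o ⟨false,0,⟨10,[(8,3),(2,5),(4,0),(0,1),(14,0),(7,1)]⟩,⟨0,[(0,0),
  (24,0)]⟩⟩,.e ⟨false,0,⟨0,[]⟩,⟨1,[(24,0),(0,0),(19,0)]⟩⟩ ⟨false,0,⟨4,[(2,1),(5,1),(2,2),(5,0),(7,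
  2),(14,0)]⟩,⟨3,[(0,1),(6,1),(5,1),(17,2),(0,0),(10,1),(1,1)]⟩⟩,.a ⟨true,0,⟨0,[(7,0),(23,0),(0,
  0)]⟩,⟨0,[(2,0)]⟩⟩ ⟨true,0,⟨5,[(0,0),(1,0),(7,0),(3,0),(24,1)]⟩,⟨1,[(31,0),(0,0)]⟩⟩ ⟨false,0,⟨9,
  [(2,8),(5,3),(2,5),(5,1),(7,0),(14,1)]⟩,⟨3,[(0,1),(6,1),(5,1),(17,4),(0,2),(10,1),(1,
  1)]⟩⟩]⟩)))))))) (.R ⟨1,false,false,false,[0,0,1],[0,0,0,0,1],[1,1,0,-1,0,0,0,1],(⟨0,[(27,0)]⟩,⟨0,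
  [(26,0)]⟩),(⟨0,[(20,0)]⟩,⟨0,[(19,0)]⟩),⟨0,[(16,0)]⟩,.k,.k,.k,.k,(.r (-1) ⟨0,[(8,0),(29,0)]⟩ ⟨1,
  [(3,0),(1,0),(3,0),(7,0),(18,0)]⟩),.k,⟨true,0,⟨0,[(6,0)]⟩,⟨0,[(9,0),(26,0)]⟩⟩,⟨false,0,⟨0,[(0,0),
  (20,0)]⟩,⟨2,[(7,0),(3,2),(12,2),(7,0),(3,0)]⟩⟩,⟨true,0,⟨0,[(35,0)]⟩,⟨0,[(36,0)]⟩⟩,⟨true,(-1),⟨1,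
  [(0,1),(0,0),(1,0)]⟩,⟨0,[(11,0),(10,0)]⟩⟩,⟨false,0,⟨0,[]⟩,⟨1,[(17,0),(0,0),(19,0)]⟩⟩,⟨true,(-1),
  ⟨0,[(0,0),(2,0)]⟩,⟨0,[(11,0),(0,0)]⟩⟩,[.o ⟨false,0,⟨4,[(0,3),(4,0),(19,0),(6,1)]⟩,⟨0,[(11,0)]⟩⟩,
  .o ⟨false,0,⟨0,[(0,0)]⟩,⟨0,[(17,0)]⟩⟩,.o ⟨false,1,⟨1,[(24,1),(8,0),(3,0)]⟩,⟨0,[(13,0)]⟩⟩,.a ⟨true,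
  0,⟨0,[(24,0)]⟩,⟨0,[(21,0)]⟩⟩ ⟨true,0,⟨0,[(8,0)]⟩,⟨0,[(9,0),(26,0)]⟩⟩ ⟨false,0,⟨0,[(0,0),(20,0)]⟩,
  ⟨0,[(11,0),(12,0)]⟩⟩]⟩))))) (.Q [0,-1,0,1,0,0,-1,-1,0,1,-1] (.p false [0,0,1] [1] (⟨0,[(23,0)]⟩,
  ⟨0,[(22,0)]⟩) .k 1 (⟨0,[]⟩,⟨0,[]⟩) .k .k) (.S ⟨1,0,[0,0,1,1,0,0,0,-1],[1,1,-1],[1,1,1,0,0,0,0,-1],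
  (⟨0,[(23,0),(1,0)]⟩,⟨0,[(13,0)]⟩),⟨0,[(23,0)]⟩,.k,.k,⟨true,0,⟨0,[(32,0)]⟩,⟨0,[(33,0)]⟩⟩,⟨false,1,
  ⟨1,[(14,0),(0,0),(19,0)]⟩,⟨0,[]⟩⟩,⟨false,0,⟨0,[]⟩,⟨1,[(14,0),(0,0),(19,0)]⟩⟩,⟨true,0,⟨0,[(33,0)]⟩,
  ⟨0,[(32,0)]⟩⟩,[.a ⟨true,0,⟨0,[(0,0),(36,0)]⟩,⟨0,[(1,0)]⟩⟩ ⟨false,0,⟨2,[(4,0),(1,2),(22,0),(3,0)]⟩,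
  ⟨0,[(5,0),(27,0),(1,0)]⟩⟩ ⟨true,0,⟨0,[(6,0),(26,0)]⟩,⟨0,[(3,0)]⟩⟩,.a ⟨true,0,⟨0,[(0,0)]⟩,⟨0,[(9,
  0)]⟩⟩ ⟨true,0,⟨0,[(6,0)]⟩,⟨0,[(3,0),(29,0)]⟩⟩ ⟨false,1,⟨1,[(0,1),(20,1),(8,0),(3,0)]⟩,⟨0,[(5,
  0)]⟩⟩,.a ⟨true,0,⟨0,[(18,0)]⟩,⟨0,[(21,0)]⟩⟩ ⟨false,0,⟨0,[(6,0)]⟩,⟨0,[(5,0),(27,0),(1,0)]⟩⟩ ⟨true,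
  0,⟨0,[(6,0),(26,0)]⟩,⟨0,[(5,0)]⟩⟩,.o ⟨false,0,⟨0,[(10,0)]⟩,⟨1,[(21,1),(8,0),(3,0)]⟩⟩]⟩) (.Q [0,0,
  0,0,0,-2,0,0,0,1,-1] (.p false [0,0,1] [1] (⟨0,[(24,0)]⟩,⟨0,[(23,0)]⟩) .k 1 (⟨0,[]⟩,⟨0,[]⟩) .k
  .k) (.I [1,-1,2,1,0,0,0,1] (.Q [0,0,0,-1,0,0,-1,-1,0,1,-1] (.p false [0,0,1] [1] (⟨0,[(26,0)]⟩,⟨0,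
  [(25,0)]⟩) .k 1 (⟨0,[]⟩,⟨0,[]⟩) .k .k) (.S ⟨1,0,[0,0,-1,-1,0,0,0,-1],[1,-1,-1],[0,1,-1,-1,0,0,0,
  -1],(⟨0,[(15,0)]⟩,⟨0,[(27,0),(0,0)]⟩),⟨0,[(2,0)]⟩,.k,(.r (-1) ⟨5,[(7,4),(1,5),(0,3),(24,2),(1,
  1)]⟩ ⟨4,[(1,5),(7,0),(22,2),(3,3)]⟩),⟨true,0,⟨0,[(40,0)]⟩,⟨0,[]⟩⟩,⟨false,1,⟨1,[(17,0),(0,0),(19,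
  0)]⟩,⟨0,[]⟩⟩,⟨false,0,⟨0,[(36,0)]⟩,⟨0,[(35,0),(2,0)]⟩⟩,⟨true,0,⟨0,[(36,0)]⟩,⟨0,[(35,0)]⟩⟩,[.a
  ⟨true,0,⟨0,[(0,0)]⟩,⟨0,[(4,0),(31,1)]⟩⟩ ⟨true,0,⟨0,[(7,0),(1,0)]⟩,⟨0,[(1,0)]⟩⟩ ⟨false,1,⟨2,[(7,1),
  (1,2),(0,0),(26,1)]⟩,⟨3,[(1,2),(6,0),(23,0),(3,1)]⟩⟩,.o ⟨false,1,⟨1,[(0,1),(32,0),(4,0)]⟩,⟨0,[(3,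
  0),(32,1)]⟩⟩,.o ⟨false,0,⟨0,[(25,0)]⟩,⟨5,[(7,3),(2,1),(13,5),(8,2),(2,5),(0,0)]⟩⟩,.o ⟨false,0,⟨1,
  [(24,0),(0,2)]⟩,⟨0,[(3,0),(3,0),(1,0),(0,0),(25,2)]⟩⟩]⟩) (.R ⟨1,false,false,true,[0,0,1],[1,-1],
  [0,1,0,-1],(⟨0,[(27,0)]⟩,⟨0,[(26,0)]⟩),(⟨0,[(30,0)]⟩,⟨0,[(31,0)]⟩),⟨0,[(16,0)]⟩,.k,.k,.k,.k,.k,.k,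
  ⟨true,0,⟨1,[(24,0),(0,0)]⟩,⟨0,[]⟩⟩,⟨false,0,⟨1,[(14,0),(13,0),(1,0)]⟩,⟨11,[(0,5),(6,3),(1,5),(0,
  1),(13,5),(8,2),(3,6)]⟩⟩,⟨true,0,⟨1,[(7,0),(1,1),(25,0)]⟩,⟨4,[(0,2),(0,1),(19,2),(10,0)]⟩⟩,⟨true,
  0,⟨0,[(9,0),(11,0),(13,0)]⟩,⟨0,[(0,0)]⟩⟩,⟨true,0,⟨2,[(7,0),(1,2),(22,0),(3,0)]⟩,⟨3,[(0,0),(0,0),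
  (4,0),(1,0),(12,0)]⟩⟩,⟨false,0,⟨0,[(9,0),(11,0)]⟩,⟨5,[(0,1),(2,1),(18,1),(10,0),(4,4)]⟩⟩,[.o
  ⟨false,0,⟨0,[(35,0)]⟩,⟨1,[(33,0),(2,1),(1,0)]⟩⟩,.a ⟨true,0,⟨0,[(4,0),(4,0),(11,0)]⟩,⟨0,[(36,0)]⟩⟩
  ⟨false,1,⟨1,[(35,1),(1,0),(0,0)]⟩,⟨0,[(36,0)]⟩⟩ ⟨true,0,⟨0,[(6,0),(2,0),(11,0)]⟩,⟨0,[(0,0),(8,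
  0)]⟩⟩,.o ⟨false,1,⟨1,[(24,1),(8,0),(3,0)]⟩,⟨0,[(13,0)]⟩⟩,.e ⟨true,0,⟨0,[(34,0)]⟩,⟨4,[(1,1),(7,1),
  (22,0),(3,2)]⟩⟩ ⟨true,0,⟨0,[(21,0),(13,0)]⟩,⟨0,[(0,0),(8,0)]⟩⟩]⟩)) (.Q [0,0,0,0,0,0,0,0,1,-1,0,1]
  (.p true [0,0,0,0,1] [1] (⟨0,[(19,0)]⟩,⟨0,[(18,0)]⟩) .k 1 (⟨0,[]⟩,⟨0,[]⟩) .k .k) (.R ⟨1,false,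
  false,false,[0,0,1],[0,0,0,0,1],[1,1,0,-1,0,0,0,1],(⟨0,[(27,0)]⟩,⟨0,[(26,0)]⟩),(⟨0,[(20,0)]⟩,⟨0,
  [(19,0)]⟩),⟨0,[(16,0)]⟩,.k,.k,.k,.k,(.r (-1) ⟨0,[(8,0),(29,0)]⟩ ⟨0,[(9,0),(26,0),(3,0)]⟩),.k,
  ⟨true,0,⟨0,[(6,0)]⟩,⟨0,[(9,0),(26,0)]⟩⟩,⟨false,0,⟨0,[(0,0),(20,0)]⟩,⟨2,[(1,0),(9,1),(5,0),(4,0),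
  (1,1),(11,0)]⟩⟩,⟨true,0,⟨0,[(35,0)]⟩,⟨0,[(36,0)]⟩⟩,⟨false,0,⟨0,[(0,0),(8,0),(11,0)]⟩,⟨0,[(4,0),(6,
  0),(24,0)]⟩⟩,⟨false,0,⟨0,[]⟩,⟨1,[(17,0),(0,0),(19,0)]⟩⟩,⟨false,0,⟨0,[(0,0),(8,0),(11,0),(14,0)]⟩,
  ⟨0,[(4,0),(6,0)]⟩⟩,[.o ⟨false,0,⟨4,[(0,3),(4,0),(19,0),(6,1)]⟩,⟨0,[(11,0)]⟩⟩,.o ⟨false,0,⟨0,[(0,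
  0)]⟩,⟨0,[(17,0)]⟩⟩,.o ⟨false,1,⟨1,[(24,1),(8,0),(3,0)]⟩,⟨0,[(13,0)]⟩⟩,.a ⟨true,0,⟨0,[(24,0)]⟩,⟨0,
  [(21,0)]⟩⟩ ⟨true,0,⟨0,[(8,0)]⟩,⟨0,[(9,0),(26,0)]⟩⟩ ⟨false,0,⟨0,[(0,0),(20,0)]⟩,⟨0,[(11,0),(12,
  0)]⟩⟩]⟩) (.Q [0,-1,0,0,0,0,0,0,-1,1,0,-1] (.p false [0,0,0,0,1] [1] (⟨0,[(20,0)]⟩,⟨0,[(19,0)]⟩)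
  .k 1 (⟨0,[]⟩,⟨0,[]⟩) .k .k) (.R ⟨1,false,false,true,[0,0,1],[1,0,0,0,-1],[0,0,0,0,0,0,0,1],(⟨0,
  [(28,0)]⟩,⟨0,[(27,0)]⟩),(⟨0,[(20,0)]⟩,⟨0,[(21,0)]⟩),⟨0,[(17,0)]⟩,.k,.k,.k,.k,(.r 0 ⟨1,[(0,1),(1,
  0),(0,0),(0,2),(9,2),(2,0),(1,1),(9,2),(7,1)]⟩ ⟨1,[(10,1),(7,0),(0,0),(17,1),(1,0)]⟩),.k,⟨true,0,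
  ⟨0,[(7,0),(29,0)]⟩,⟨0,[(10,0)]⟩⟩,⟨false,0,⟨1,[(0,0),(0,0),(6,0),(5,1),(22,0)]⟩,⟨1,[(6,1),(31,0),
  (0,0)]⟩⟩,⟨false,1,⟨1,[(18,0),(0,0),(19,0)]⟩,⟨0,[]⟩⟩,⟨true,0,⟨0,[(0,0),(23,0)]⟩,⟨0,[(4,0),(14,0),
  (17,0)]⟩⟩,⟨true,0,⟨0,[(37,0)]⟩,⟨0,[(36,0)]⟩⟩,⟨true,0,⟨0,[(0,0),(23,0),(12,0)]⟩,⟨0,[(4,0),(14,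
  0)]⟩⟩,[.a ⟨true,0,⟨0,[(1,0)]⟩,⟨0,[(19,0)]⟩⟩ ⟨true,0,⟨0,[(7,0),(29,0)]⟩,⟨0,[(10,0)]⟩⟩ ⟨false,0,⟨1,
  [(0,0),(0,0),(6,0),(5,1),(22,0)]⟩,⟨1,[(6,1),(31,0),(0,0)]⟩⟩,.a ⟨true,0,⟨0,[(0,0)]⟩,⟨5,[(1,0),(4,
  1),(8,0),(3,4),(13,1)]⟩⟩ ⟨false,1,⟨0,[(9,0),(27,0),(1,0)]⟩,⟨4,[(2,0),(7,3),(22,1),(3,0)]⟩⟩ ⟨true,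
  0,⟨0,[(0,0),(13,0)]⟩,⟨0,[(6,0)]⟩⟩,.o ⟨false,1,⟨1,[(25,1),(8,0),(3,0)]⟩,⟨0,[(14,0)]⟩⟩,.a ⟨true,0,
  ⟨0,[(25,0)]⟩,⟨0,[(22,0)]⟩⟩ ⟨false,1,⟨0,[(9,0),(27,0),(1,0)]⟩,⟨0,[(10,0)]⟩⟩ ⟨true,0,⟨1,[(0,0),(0,
  0),(6,0),(5,1),(22,0)]⟩,⟨0,[(6,0)]⟩⟩]⟩) (.Q [0,0,0,0,0,-1,0,0,0,1,0,-1] (.ed true [0,1,0,0,1] .k)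
  (.Q [0,0,-1,0,0,0,-1,0,1,0,-1,1] (.p false [0,0,1] [0,0,0,0,1] (⟨0,[(29,0)]⟩,⟨0,[(28,0)]⟩) .k 2
  (⟨0,[(22,0)]⟩,⟨0,[(21,0)]⟩) .k (.r (-1) ⟨5,[(8,1),(7,1),(7,3),(10,0),(2,1),(1,4)]⟩ ⟨4,[(3,0),(7,
  3),(22,1),(3,0)]⟩)) (.Q [0,0,0,0,0,0,0,0,0,0,1,-1] (.ed true [1,0,-1,0,1] (.r 0 ⟨4,[(4,0),(7,3),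
  (22,1),(3,0)]⟩ ⟨5,[(9,1),(7,1),(7,3),(10,0),(2,1),(1,4)]⟩)) (.Q [0,0,0,0,0,-1,0,0,0,0,1,-1] (.p
  false [1,0,-1,0,1] [1] (⟨0,[(24,0),(5,0)]⟩,⟨0,[(0,0)]⟩) .k 1 (⟨0,[]⟩,⟨0,[]⟩) .k (.r 0 ⟨4,[(5,0),
  (7,3),(22,1),(3,0)]⟩ ⟨5,[(10,1),(7,1),(7,3),(10,0),(2,1),(1,4)]⟩)) (.Q [0,0,0,0,1,0,1,0,-1,-1,1,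
  -1] (.p false [1,0,-1,0,1] [] (⟨0,[(25,0),(5,0)]⟩,⟨0,[(1,0)]⟩) .k 0 (⟨0,[]⟩,⟨0,[]⟩) .k (.r 0 ⟨4,
  [(6,0),(7,3),(22,1),(3,0)]⟩ ⟨5,[(11,1),(7,1),(7,3),(10,0),(2,1),(1,4)]⟩)) (.R ⟨1,false,false,true,
  [0,0,1,0,-1],[1,0,0,0,-1],[0,0,0,0,0,0,0,1],(⟨0,[(2,0)]⟩,⟨0,[(26,0),(5,0)]⟩),(⟨0,[(25,0)]⟩,⟨0,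
  [(26,0)]⟩),⟨0,[(1,0)]⟩,.k,.k,(.r (-1) ⟨0,[(14,0),(29,0)]⟩ ⟨1,[(6,0),(4,0),(3,0),(13,0),(12,1)]⟩),
  .k,.k,.k,⟨true,0,⟨0,[(12,0),(29,0)]⟩,⟨0,[(15,0)]⟩⟩,⟨false,0,⟨0,[(27,0)]⟩,⟨3,[(0,1),(10,1),(31,0),
  (0,0)]⟩⟩,⟨true,0,⟨0,[(46,0)]⟩,⟨0,[]⟩⟩,⟨false,0,⟨0,[(15,0),(11,0)]⟩,⟨0,[(9,0),(32,0),(1,0)]⟩⟩,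
  ⟨false,0,⟨0,[(42,0)]⟩,⟨0,[(41,0),(2,0)]⟩⟩,⟨false,0,⟨0,[(15,0),(11,0),(14,0)]⟩,⟨0,[(9,0),(34,0)]⟩⟩,
  [.a ⟨true,0,⟨0,[(6,0)]⟩,⟨0,[(24,0)]⟩⟩ ⟨true,0,⟨0,[(12,0),(29,0)]⟩,⟨0,[(15,0)]⟩⟩ ⟨false,0,⟨0,[(27,
  0)]⟩,⟨3,[(0,1),(10,1),(31,0),(0,0)]⟩⟩,.o ⟨false,1,⟨0,[(17,0)]⟩,⟨0,[(5,0)]⟩⟩,.o ⟨false,1,⟨0,[(0,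
  0)]⟩,⟨1,[(3,0),(20,0),(6,0)]⟩⟩,.o ⟨false,1,⟨1,[(0,1),(29,0),(0,0)]⟩,⟨0,[(3,0)]⟩⟩]⟩) (.S ⟨1,0,[0,0,
  0,0,0,0,0,1],[0,0,1,0,-1],[1,-1,0,-1,0,0,0,1],(⟨0,[(2,0)]⟩,⟨0,[(26,0),(5,0)]⟩),⟨0,[(1,0)]⟩,.k,(.r
  (-1) ⟨0,[(14,0),(29,0)]⟩ ⟨1,[(6,0),(4,0),(3,0),(13,0),(12,1)]⟩),⟨false,1,⟨0,[(41,0),(2,0)]⟩,⟨0,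
  [(42,0)]⟩⟩,⟨true,0,⟨0,[(46,0)]⟩,⟨0,[]⟩⟩,⟨true,0,⟨0,[]⟩,⟨0,[(46,0)]⟩⟩,⟨false,0,⟨0,[(42,0)]⟩,⟨0,
  [(41,0),(2,0)]⟩⟩,[.o ⟨false,1,⟨0,[(9,0),(7,0),(24,0)]⟩,⟨0,[(3,0),(11,0)]⟩⟩,.e ⟨false,1,⟨0,[(12,0),
  (3,0),(25,0)]⟩,⟨0,[(15,0),(22,0),(3,0)]⟩⟩ ⟨false,1,⟨0,[(14,0),(27,0),(1,0)]⟩,⟨4,[(7,0),(7,3),(22,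
  1),(3,0)]⟩⟩,.a ⟨true,1,⟨2,[(7,0),(9,1),(5,0),(4,0),(1,1),(11,0)]⟩,⟨0,[(0,0)]⟩⟩ ⟨false,1,⟨0,[(12,
  0),(31,0)]⟩,⟨4,[(7,0),(7,3),(22,1),(3,5)]⟩⟩ ⟨true,0,⟨0,[(12,0),(29,0)]⟩,⟨4,[(7,0),(7,3),(22,1),(3,
  0)]⟩⟩,.o ⟨false,1,⟨0,[(6,0),(23,0),(8,0)]⟩,⟨0,[(3,0)]⟩⟩]⟩)) (.Q [0,0,0,0,1,0,1,0,-1,-1,1,-1] (.p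
  false [1,0,-1,0,1] [] (⟨0,[(0,0),(34,0)]⟩,⟨0,[(1,0)]⟩) .k 0 (⟨0,[]⟩,⟨0,[]⟩) .k (.r 0 ⟨4,[(6,0),(7,
  3),(22,1),(3,0)]⟩ ⟨5,[(11,1),(7,1),(7,3),(10,0),(2,1),(1,4)]⟩)) (.R ⟨0,false,false,true,[0,0,1,0,
  -1],[1,0,0,0,-1],[0,0,0,0,0,0,0,1],(⟨0,[(2,0)]⟩,⟨0,[(1,0),(34,0)]⟩),(⟨0,[(25,0)]⟩,⟨0,[(26,0)]⟩),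
  ⟨0,[(1,0)]⟩,.k,.k,(.r (-1) ⟨0,[(14,0),(29,0)]⟩ ⟨1,[(6,0),(4,0),(3,0),(13,0),(12,1)]⟩),.k,.k,.k,
  ⟨true,0,⟨0,[(12,0),(29,0)]⟩,⟨0,[(15,0)]⟩⟩,⟨false,0,⟨0,[(27,0)]⟩,⟨3,[(0,1),(10,1),(31,0),(0,0)]⟩⟩,
  ⟨true,0,⟨0,[(46,0)]⟩,⟨0,[]⟩⟩,⟨false,0,⟨0,[(15,0),(11,0)]⟩,⟨0,[(9,0),(32,0),(1,0)]⟩⟩,⟨false,0,⟨0,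
  []⟩,⟨0,[]⟩⟩,⟨false,0,⟨0,[]⟩,⟨0,[]⟩⟩,[.a ⟨true,0,⟨0,[(6,0)]⟩,⟨0,[(24,0)]⟩⟩ ⟨true,0,⟨0,[(12,0),(29,
  0)]⟩,⟨0,[(15,0)]⟩⟩ ⟨false,0,⟨0,[(27,0)]⟩,⟨3,[(0,1),(10,1),(31,0),(0,0)]⟩⟩,.o ⟨false,1,⟨0,[(17,
  0)]⟩,⟨0,[(5,0)]⟩⟩,.o ⟨false,1,⟨0,[(0,0)]⟩,⟨1,[(3,0),(20,0),(6,0)]⟩⟩,.o ⟨false,1,⟨1,[(0,1),(29,0),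
  (0,0)]⟩,⟨0,[(3,0)]⟩⟩]⟩) (.R ⟨0,false,false,false,[0,0,1,0,-1],[1,0,0,0,-1],[0,-1,0,0,0,0,0,1],(⟨0,
  [(2,0)]⟩,⟨0,[(1,0),(34,0)]⟩),(⟨0,[(25,0)]⟩,⟨0,[(26,0)]⟩),⟨0,[(1,0)]⟩,.k,.k,(.r (-1) ⟨0,[(14,0),
  (29,0)]⟩ ⟨1,[(6,0),(4,0),(3,0),(13,0),(12,1)]⟩),.k,.k,.k,⟨true,0,⟨0,[(12,0),(29,0)]⟩,⟨0,[(15,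
  0)]⟩⟩,⟨false,0,⟨0,[(27,0)]⟩,⟨1,[(30,1),(8,0),(3,0)]⟩⟩,⟨false,1,⟨1,[(23,0),(0,0),(19,0)]⟩,⟨0,[]⟩⟩,
  ⟨true,0,⟨0,[(15,0),(11,0)]⟩,⟨0,[(9,0),(32,0)]⟩⟩,⟨false,0,⟨0,[]⟩,⟨0,[]⟩⟩,⟨false,0,⟨0,[]⟩,⟨0,[]⟩⟩,
  [.o ⟨false,1,⟨0,[(17,0)]⟩,⟨0,[(5,0)]⟩⟩,.e ⟨false,1,⟨0,[(12,0),(3,0),(25,1)]⟩,⟨0,[(15,0),(22,0)]⟩⟩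
  ⟨false,1,⟨0,[(27,0),(16,0)]⟩,⟨4,[(7,0),(1,4),(5,3),(22,1),(3,5)]⟩⟩,.a ⟨true,1,⟨2,[(7,0),(9,1),(5,
  0),(4,0),(1,1),(11,0)]⟩,⟨0,[(0,0)]⟩⟩ ⟨false,1,⟨0,[(12,0),(29,0),(1,0)]⟩,⟨4,[(7,0),(7,3),(22,1),(3,
  0)]⟩⟩ ⟨true,0,⟨1,[(0,0),(5,0),(12,0),(24,0)]⟩,⟨4,[(7,0),(1,4),(5,3),(22,1),(3,5)]⟩⟩,.o ⟨false,1,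
  ⟨0,[(6,0),(23,0),(8,0)]⟩,⟨0,[(3,0)]⟩⟩]⟩))) (.Q [0,0,-1,0,0,0,-1,0,-1,1,-1,-1] (.p false [0,0,1]
  [1,0,0,0,-1] (⟨0,[(31,0)]⟩,⟨0,[(30,0)]⟩) .k 2 (⟨0,[(23,0)]⟩,⟨0,[(24,0)]⟩) .k (.r 0 ⟨1,[(12,0),(13,
  0),(2,0),(10,0)]⟩ ⟨1,[(13,1),(27,0),(0,0)]⟩)) (.Q [0,0,0,0,0,0,1,0,-1,1,1,-1] (.p false [0,0,-1,0,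
  1] [1] (⟨0,[(1,0)]⟩,⟨0,[(24,0),(7,0)]⟩) .k 1 (⟨0,[]⟩,⟨0,[]⟩) .k (.r 0 ⟨4,[(6,0),(7,3),(22,1),(3,
  0)]⟩ ⟨5,[(11,1),(7,1),(7,3),(10,0),(2,1),(1,4)]⟩)) (.R ⟨1,false,false,false,[1,0,1,0,-1],[1,0,0,0,
  -1],[1,0,0,-1,0,0,0,1],(⟨0,[(25,0),(7,0)]⟩,⟨0,[(2,0)]⟩),(⟨0,[(25,0)]⟩,⟨0,[(26,0)]⟩),⟨0,[(22,0),(2,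
  0)]⟩,.k,.k,(.r (-1) ⟨0,[(14,0),(29,0)]⟩ ⟨1,[(6,0),(4,0),(3,0),(13,0),(12,1)]⟩),.k,.k,.k,⟨false,0,
  ⟨0,[(14,0)]⟩,⟨1,[(15,1),(26,1),(0,0),(0,0)]⟩⟩,⟨true,0,⟨0,[(19,0)]⟩,⟨0,[(30,0)]⟩⟩,⟨true,0,⟨0,[(41,
  0)]⟩,⟨0,[(42,0)]⟩⟩,⟨false,1,⟨0,[(29,0),(14,0)]⟩,⟨0,[(10,0),(31,0)]⟩⟩,⟨false,0,⟨0,[]⟩,⟨1,[(23,0),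
  (0,0),(19,0)]⟩⟩,⟨false,1,⟨0,[(29,0),(12,0),(1,0)]⟩,⟨0,[(10,0)]⟩⟩,[.o ⟨false,1,⟨0,[(17,0)]⟩,⟨0,[(5,
  0)]⟩⟩,.e ⟨false,1,⟨0,[(14,0),(29,0)]⟩,⟨4,[(7,0),(7,3),(22,1),(3,5)]⟩⟩ ⟨false,1,⟨0,[(16,0),(2,0),
  (22,0)]⟩,⟨1,[(0,0),(10,0),(26,0),(7,0)]⟩⟩,.a ⟨true,0,⟨0,[(0,0)]⟩,⟨1,[(3,0),(20,0),(6,0)]⟩⟩ ⟨true,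
  0,⟨0,[(12,0)]⟩,⟨4,[(7,0),(7,3),(22,1),(3,5)]⟩⟩ ⟨false,1,⟨0,[(19,0),(24,0)]⟩,⟨6,[(0,2),(6,0),(3,2),
  (16,0),(9,0),(3,0)]⟩⟩,.e ⟨false,1,⟨0,[(14,0),(29,0)]⟩,⟨0,[(15,0),(26,0)]⟩⟩ ⟨false,1,⟨0,[(16,0),(2,
  0),(22,0)]⟩,⟨0,[(6,0),(4,0)]⟩⟩]⟩) (.S ⟨1,0,[0,2],[0,0,0,0,1],[1,1,0,-1],(⟨0,[(26,0)]⟩,⟨0,[(25,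
  0)]⟩),⟨0,[(2,0),(19,0)]⟩,.k,(.r 0 ⟨0,[(40,0)]⟩ ⟨5,[(11,1),(8,1),(2,1),(6,2),(0,0),(10,5),(1,3)]⟩),
  ⟨false,1,⟨0,[(41,0),(2,0)]⟩,⟨0,[(42,0)]⟩⟩,⟨true,0,⟨0,[(46,0)]⟩,⟨0,[]⟩⟩,⟨true,0,⟨0,[]⟩,⟨0,[(46,
  0)]⟩⟩,⟨false,0,⟨0,[(42,0)]⟩,⟨0,[(41,0),(2,0)]⟩⟩,[.e ⟨false,0,⟨2,[(7,0),(6,0),(26,0)]⟩,⟨1,[(23,0),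
  (0,0),(17,1),(1,0)]⟩⟩ ⟨false,0,⟨0,[(38,0)]⟩,⟨0,[(44,0)]⟩⟩,.o ⟨false,0,⟨0,[(5,0)]⟩,⟨0,[(17,0)]⟩⟩,
  .a ⟨true,0,⟨0,[(24,0)]⟩,⟨0,[(6,0)]⟩⟩ ⟨true,0,⟨0,[(41,0)]⟩,⟨0,[(42,0)]⟩⟩ ⟨false,0,⟨0,[(46,0)]⟩,⟨0,
  [(44,0)]⟩⟩,.o ⟨false,0,⟨0,[(0,0),(29,0)]⟩,⟨1,[(6,1),(32,0),(3,0)]⟩⟩]⟩)) (.K ⟨0,[1,1,0,0,-1],0,0,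
  (⟨0,[(24,0),(8,0)]⟩,⟨0,[(1,0),(19,0)]⟩),(.r (-1) ⟨5,[(10,1),(8,1),(2,1),(6,2),(0,0),(10,5),(1,
  3)]⟩ ⟨0,[(39,0)]⟩),.k,(.r (-1) ⟨2,[(10,0),(8,0),(2,0),(6,2),(0,1),(10,5),(1,1)]⟩ ⟨0,[(6,0),(4,
  0)]⟩),(.r (-1) ⟨1,[(14,1),(7,0),(0,0),(17,1),(1,0)]⟩ ⟨1,[(6,0),(0,0),(0,0),(0,1),(8,2),(2,0),(11,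
  2),(7,1)]⟩),.k,[⟨0,[(0,0)]⟩,⟨0,[(5,0)]⟩,⟨0,[(4,0),(35,0)]⟩,⟨0,[(5,0),(35,0)]⟩]⟩))) (.R ⟨1,false,
  false,true,[0,0,1],[0,0,0,0,1],[0,1,0,0,0,0,0,1],(⟨0,[(30,0)]⟩,⟨0,[(29,0)]⟩),(⟨0,[(23,0)]⟩,⟨0,
  [(22,0)]⟩),⟨0,[(19,0)]⟩,.k,.k,.k,.k,(.r (-1) ⟨0,[(11,0),(29,0)]⟩ ⟨1,[(3,0),(4,0),(3,0),(13,0),(12,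
  1)]⟩),.k,⟨false,1,⟨0,[(11,0),(27,0),(1,0)]⟩,⟨4,[(4,0),(7,3),(22,1),(3,0)]⟩⟩,⟨true,0,⟨0,[(16,0),(4,
  0)]⟩,⟨0,[(0,0)]⟩⟩,⟨true,0,⟨0,[(43,0)]⟩,⟨0,[]⟩⟩,⟨false,0,⟨0,[(21,0),(4,0)]⟩,⟨0,[(0,0),(8,0),(3,0),
  (25,1)]⟩⟩,⟨false,0,⟨0,[(39,0)]⟩,⟨0,[(38,0),(2,0)]⟩⟩,⟨false,0,⟨0,[(21,0),(4,0),(12,0)]⟩,⟨0,[(0,0),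
  (8,0),(3,0),(25,0)]⟩⟩,[.o ⟨false,0,⟨3,[(2,2),(5,0),(19,0),(6,1)]⟩,⟨0,[(0,0),(12,0),(2,0),(22,
  0)]⟩⟩,.o ⟨false,0,⟨0,[(2,0)]⟩,⟨0,[(14,0)]⟩⟩,.o ⟨false,1,⟨3,[(0,1),(7,1),(27,0),(3,1),(0,0)]⟩,⟨0,
  [(16,0)]⟩⟩,.a ⟨true,0,⟨0,[(27,0)]⟩,⟨0,[(24,0)]⟩⟩ ⟨true,0,⟨0,[(11,0),(27,0)]⟩,⟨0,[(12,0)]⟩⟩ ⟨false,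
  0,⟨0,[(2,0),(21,0)]⟩,⟨0,[(0,0),(40,0)]⟩⟩]⟩)) (.Q [0,0,0,0,0,0,-1,-1,-1,1,-1,-1] (.p false [-1,0,1,
  0,1] [] (⟨0,[(0,0),(17,0)]⟩,⟨0,[(21,0),(6,0)]⟩) .k 0 (⟨0,[]⟩,⟨0,[]⟩) .k (.r 0 ⟨1,[(10,0),(13,0),
  (2,0),(10,0)]⟩ ⟨1,[(11,1),(27,0),(0,0)]⟩)) (.Q [0,0,0,0,0,0,1,0,-1,1,1,-1] (.p false [0,0,-1,0,1]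
  [1] (⟨0,[(1,0),(16,0)]⟩,⟨0,[(22,0),(7,0)]⟩) .k 1 (⟨0,[]⟩,⟨0,[]⟩) .k (.r 0 ⟨4,[(4,0),(7,3),(22,1),
  (3,0)]⟩ ⟨5,[(9,1),(7,1),(7,3),(10,0),(2,1),(1,4)]⟩)) (.R ⟨1,false,false,false,[1,0,1,0,-1],[1,0,0,
  0,-1],[1,0,0,-1,0,0,0,1],(⟨0,[(23,0),(7,0)]⟩,⟨0,[(2,0),(16,0)]⟩),(⟨0,[(23,0)]⟩,⟨0,[(24,0)]⟩),⟨0,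
  [(20,0),(2,0)]⟩,.k,.k,(.r (-1) ⟨0,[(12,0),(29,0)]⟩ ⟨1,[(4,0),(4,0),(3,0),(13,0),(12,1)]⟩),.k,.k,
  .k,⟨false,0,⟨0,[(12,0)]⟩,⟨1,[(13,1),(26,1),(0,0),(0,0)]⟩⟩,⟨true,0,⟨0,[(17,0)]⟩,⟨0,[(28,0)]⟩⟩,
  ⟨true,0,⟨0,[(39,0)]⟩,⟨0,[(40,0)]⟩⟩,⟨false,1,⟨0,[(27,0),(14,0)]⟩,⟨0,[(8,0),(31,0)]⟩⟩,⟨false,0,⟨0,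
  []⟩,⟨1,[(21,0),(0,0),(19,0)]⟩⟩,⟨false,1,⟨0,[(27,0),(12,0),(1,0)]⟩,⟨0,[(8,0)]⟩⟩,[.o ⟨false,1,⟨0,
  [(15,0)]⟩,⟨0,[(3,0)]⟩⟩,.e ⟨false,1,⟨0,[(12,0),(29,0)]⟩,⟨4,[(5,0),(7,3),(22,1),(3,5)]⟩⟩ ⟨false,1,
  ⟨0,[(14,0),(2,0),(22,0)]⟩,⟨1,[(0,0),(8,0),(26,0),(7,0)]⟩⟩,.a ⟨true,0,⟨0,[(0,0)]⟩,⟨0,[(17,0),(4,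
  0)]⟩⟩ ⟨true,0,⟨0,[(10,0)]⟩,⟨4,[(5,0),(7,3),(22,1),(3,5)]⟩⟩ ⟨false,1,⟨0,[(17,0),(24,0)]⟩,⟨6,[(0,2),
  (4,0),(3,2),(16,0),(9,0),(3,0)]⟩⟩,.e ⟨false,1,⟨0,[(12,0),(29,0)]⟩,⟨0,[(13,0),(26,0)]⟩⟩ ⟨false,1,
  ⟨0,[(14,0),(2,0),(22,0)]⟩,⟨0,[(4,0),(4,0)]⟩⟩]⟩) (.R ⟨1,false,false,true,[1,0,1,0,-1],[1,0,0,0,-1],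
  [1,-1,0,-1,0,0,0,1],(⟨0,[(23,0),(7,0)]⟩,⟨0,[(2,0),(16,0)]⟩),(⟨0,[(23,0)]⟩,⟨0,[(24,0)]⟩),⟨0,[(20,
  0),(2,0)]⟩,.k,.k,(.r (-1) ⟨0,[(12,0),(29,0)]⟩ ⟨1,[(4,0),(4,0),(3,0),(13,0),(12,1)]⟩),.k,.k,.k,
  ⟨false,1,⟨0,[(12,0),(29,0)]⟩,⟨4,[(5,0),(7,3),(22,1),(3,5)]⟩⟩,⟨true,0,⟨0,[(17,0)]⟩,⟨0,[(28,0)]⟩⟩,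
  ⟨false,1,⟨0,[(39,0),(2,0)]⟩,⟨0,[(40,0)]⟩⟩,⟨true,0,⟨0,[(27,0)]⟩,⟨0,[(8,0),(31,0)]⟩⟩,⟨true,0,⟨0,[]⟩,
  ⟨0,[(44,0)]⟩⟩,⟨true,0,⟨0,[(27,0),(12,0)]⟩,⟨0,[(8,0)]⟩⟩,[.a ⟨true,0,⟨0,[(4,0)]⟩,⟨0,[(22,0)]⟩⟩
  ⟨false,1,⟨0,[(12,0),(29,0)]⟩,⟨4,[(5,0),(7,3),(22,1),(3,5)]⟩⟩ ⟨true,0,⟨0,[(17,0)]⟩,⟨0,[(28,0)]⟩⟩,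
  .o ⟨false,1,⟨0,[(15,0)]⟩,⟨0,[(3,0)]⟩⟩,.o ⟨false,1,⟨2,[(5,0),(9,1),(5,0),(4,0),(1,1),(11,0)]⟩,⟨0,
  [(0,0)]⟩⟩,.e ⟨false,1,⟨0,[(10,0),(3,0),(25,0)]⟩,⟨1,[(4,0),(4,0),(3,0),(13,0),(12,1)]⟩⟩ ⟨false,1,
  ⟨1,[(25,1),(11,0),(4,0)]⟩,⟨0,[(28,0)]⟩⟩]⟩)) (.K ⟨0,[1,1,0,0,-1],0,0,(⟨0,[(22,0),(8,0)]⟩,⟨1,[(1,0),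
  (3,0),(13,0),(3,0)]⟩),(.r (-1) ⟨5,[(8,1),(8,1),(2,1),(6,2),(0,0),(10,5),(1,3)]⟩ ⟨0,[(37,0)]⟩),.k,
  (.r (-1) ⟨2,[(8,0),(8,0),(2,0),(6,2),(0,1),(10,5),(1,1)]⟩ ⟨0,[(4,0),(4,0)]⟩),(.r (-1) ⟨1,[(12,1),
  (7,0),(0,0),(17,1),(1,0)]⟩ ⟨1,[(4,0),(0,0),(0,0),(0,1),(8,2),(2,0),(11,2),(7,1)]⟩),.k,[⟨0,[(0,0),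
  (11,0)]⟩,⟨0,[(3,0)]⟩,⟨0,[(2,0),(35,0)]⟩,⟨0,[(3,0),(35,0)]⟩]⟩)))))) (.Q [0,0,0,0,0,0,-2,-2,0,1,-2]
  (.p false [0,0,1] [1,0,-1] (⟨0,[(25,0)]⟩,⟨0,[(24,0)]⟩) .k 2 (⟨0,[(24,0)]⟩,⟨0,[(25,0)]⟩) .k (.r 0
  ⟨0,[(4,1),(29,1)]⟩ ⟨0,[(7,1),(27,0)]⟩)) (.R ⟨0,false,false,true,[1,-1,-1],[0,-1,1],[1,1],(⟨0,[(14,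
  0)]⟩,⟨0,[(1,0),(27,0)]⟩),(⟨0,[(15,0)]⟩,⟨0,[(25,0),(1,0)]⟩),⟨0,[(1,0)]⟩,.k,.k,(.r (-1) ⟨5,[(6,4),
  (1,5),(0,3),(24,2),(1,1)]⟩ ⟨1,[(3,1),(19,0),(0,2),(10,5)]⟩),.k,.k,.k,⟨true,0,⟨0,[(8,0),(26,0)]⟩,
  ⟨0,[(3,0),(8,0)]⟩⟩,⟨false,1,⟨0,[(2,0),(3,0),(1,0),(0,0),(13,0),(11,2)]⟩,⟨0,[(13,0)]⟩⟩,⟨false,0,⟨0,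
  [(3,0),(20,0),(10,1)]⟩,⟨2,[(6,0),(1,2),(0,1),(26,0)]⟩⟩,⟨true,0,⟨0,[(2,0),(0,0),(31,1)]⟩,⟨0,[(0,
  0)]⟩⟩,⟨false,0,⟨0,[]⟩,⟨0,[]⟩⟩,⟨false,0,⟨0,[]⟩,⟨0,[]⟩⟩,[.o ⟨false,0,⟨0,[(2,0)]⟩,⟨13,[(0,6),(3,1),
  (8,0),(2,1),(15,2),(2,13),(0,0),(0,7)]⟩⟩,.a ⟨true,0,⟨0,[(3,0)]⟩,⟨1,[(0,0),(26,0),(1,0),(5,1)]⟩⟩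
  ⟨true,0,⟨0,[]⟩,⟨1,[(23,0),(0,0)]⟩⟩ ⟨false,1,⟨0,[(2,0),(3,0),(2,0),(13,0),(11,1)]⟩,⟨1,[(0,0),(12,
  0),(9,0),(0,0),(10,1)]⟩⟩,.o ⟨false,0,⟨0,[(24,0)]⟩,⟨5,[(6,3),(2,1),(13,5),(8,2),(2,5),(0,0)]⟩⟩,.o
  ⟨false,0,⟨1,[(23,0),(0,2)]⟩,⟨0,[(2,0),(3,0),(1,0),(0,0),(25,2)]⟩⟩]⟩) (.I [0,-1,1,0,0,0,0,2] (.R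
  ⟨0,false,false,false,[1,-1,-1],[0,-1,1],[0,0,0,-1,0,0,0,1],(⟨0,[(15,0)]⟩,⟨0,[(2,0),(27,0)]⟩),(⟨0,
  [(16,0)]⟩,⟨0,[(26,0),(1,0)]⟩),⟨0,[(2,0)]⟩,.k,.k,(.r (-1) ⟨5,[(7,4),(1,5),(0,3),(24,2),(1,1)]⟩ ⟨2,
  [(0,0),(21,0),(1,1),(0,2),(10,5)]⟩),.k,.k,.k,⟨true,0,⟨1,[(24,0),(0,0)]⟩,⟨0,[]⟩⟩,⟨false,1,⟨2,[(1,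
  2),(5,1),(1,5),(0,0),(25,2),(0,1)]⟩,⟨0,[(14,0)]⟩⟩,⟨false,0,⟨0,[(0,0)]⟩,⟨2,[(7,1),(1,5),(0,0),(25,
  2),(0,1)]⟩⟩,⟨true,0,⟨0,[(1,0)]⟩,⟨0,[(9,0),(11,0),(1,0)]⟩⟩,⟨false,0,⟨0,[]⟩,⟨0,[]⟩⟩,⟨false,0,⟨0,[]⟩,
  ⟨0,[]⟩⟩,[.a ⟨true,0,⟨0,[(4,0)]⟩,⟨0,[(9,0),(11,0),(14,0)]⟩⟩ ⟨true,0,⟨0,[(0,0),(6,0),(1,0)]⟩,⟨0,[(9,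
  0),(26,0)]⟩⟩ ⟨false,1,⟨2,[(1,2),(5,1),(1,2),(0,0),(26,1)]⟩,⟨0,[(9,0),(4,0),(21,0)]⟩⟩,.o ⟨false,1,
  ⟨0,[(3,0),(34,0)]⟩,⟨0,[(23,0),(12,0)]⟩⟩,.o ⟨false,0,⟨0,[(25,0)]⟩,⟨11,[(1,5),(5,3),(1,11),(0,1),
  (22,2),(2,5),(0,6)]⟩⟩,.o ⟨false,0,⟨1,[(24,0),(0,2)]⟩,⟨3,[(1,1),(5,3),(1,3),(0,1),(22,0),(2,5),(0,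
  0)]⟩⟩]⟩) (.Q [0,0,0,0,0,0,0,0,1,-1,0,1] (.p true [0,0,0,0,1] [1] (⟨0,[(20,0)]⟩,⟨0,[(19,0)]⟩) .k 1
  (⟨0,[]⟩,⟨0,[]⟩) .k .k) (.R ⟨1,false,false,false,[0,0,1],[0,0,0,0,1],[1,1,0,-1,0,0,0,1],(⟨0,[(28,
  0)]⟩,⟨0,[(27,0)]⟩),(⟨0,[(21,0)]⟩,⟨0,[(20,0)]⟩),⟨0,[(17,0)]⟩,.k,.k,.k,.k,(.r (-1) ⟨0,[(9,0),(29,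
  0)]⟩ ⟨0,[(10,0),(26,0),(3,0)]⟩),.k,⟨true,0,⟨0,[(7,0)]⟩,⟨0,[(10,0),(26,0)]⟩⟩,⟨false,0,⟨0,[(0,0),
  (21,0)]⟩,⟨2,[(1,0),(10,2),(10,1),(1,0)]⟩⟩,⟨true,0,⟨0,[(36,0)]⟩,⟨0,[(37,0)]⟩⟩,⟨false,0,⟨0,[(0,0),
  (9,0),(11,0)]⟩,⟨1,[(2,0),(9,1),(16,0),(1,0)]⟩⟩,⟨false,0,⟨0,[]⟩,⟨1,[(18,0),(0,0),(19,0)]⟩⟩,⟨false,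
  0,⟨0,[(0,0),(9,0),(11,0),(14,0)]⟩,⟨0,[(5,0),(6,0)]⟩⟩,[.o ⟨false,0,⟨4,[(0,3),(5,0),(19,0),(6,1)]⟩,
  ⟨0,[(12,0)]⟩⟩,.o ⟨false,0,⟨0,[(0,0)]⟩,⟨0,[(18,0)]⟩⟩,.o ⟨false,1,⟨9,[(1,1),(0,1),(3,5),(5,5),(21,
  0),(3,1),(0,0)]⟩,⟨0,[(14,0)]⟩⟩,.a ⟨true,0,⟨0,[(25,0)]⟩,⟨0,[(22,0)]⟩⟩ ⟨true,0,⟨0,[(9,0)]⟩,⟨0,[(10,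
  0),(26,0)]⟩⟩ ⟨false,0,⟨0,[(0,0),(21,0)]⟩,⟨0,[(12,0),(12,0)]⟩⟩]⟩) (.Q [0,0,1,0,0,0,1,0,-1,0,1,-1]
  (.p true [0,0,1] [0,0,0,0,1] (⟨0,[(28,0)]⟩,⟨0,[(27,0)]⟩) .k 2 (⟨0,[(21,0)]⟩,⟨0,[(20,0)]⟩) .k (.r
  (-1) ⟨5,[(2,0),(12,2),(7,3),(10,0),(4,4)]⟩ ⟨2,[(0,0),(0,0),(4,0),(17,0)]⟩)) (.R ⟨1,false,false,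
  true,[0,0,1],[0,0,0,0,1],[0,1,0,0,0,0,0,1],(⟨0,[(29,0)]⟩,⟨0,[(28,0)]⟩),(⟨0,[(22,0)]⟩,⟨0,[(21,
  0)]⟩),⟨0,[(18,0)]⟩,.k,.k,.k,.k,(.r (-1) ⟨0,[(10,0),(29,0)]⟩ ⟨1,[(1,0),(5,0),(3,0),(13,0),(12,
  1)]⟩),.k,⟨false,1,⟨1,[(3,0),(12,0),(22,0),(0,0)]⟩,⟨2,[(1,0),(0,0),(4,0),(17,0)]⟩⟩,⟨true,0,⟨0,[(15,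
  0),(4,0)]⟩,⟨0,[(0,0)]⟩⟩,⟨true,0,⟨0,[(42,0)]⟩,⟨0,[]⟩⟩,⟨false,0,⟨0,[(20,0),(4,0)]⟩,⟨1,[(0,0),(0,0),
  (1,0),(8,0),(2,0),(22,0),(1,0)]⟩⟩,⟨false,0,⟨0,[(38,0)]⟩,⟨0,[(37,0),(2,0)]⟩⟩,⟨false,0,⟨0,[(20,0),
  (4,0),(12,0)]⟩,⟨1,[(0,0),(0,0),(1,0),(8,1),(14,0)]⟩⟩,[.o ⟨false,0,⟨2,[(7,2),(1,0),(5,2),(18,0),(3,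
  0)]⟩,⟨0,[(0,0),(11,0),(2,0),(22,0)]⟩⟩,.o ⟨false,0,⟨1,[(2,0),(0,0),(3,0),(7,2),(4,0)]⟩,⟨0,[(13,
  0)]⟩⟩,.o ⟨false,1,⟨9,[(2,1),(0,1),(3,5),(5,5),(21,0),(3,1),(0,0)]⟩,⟨0,[(15,0)]⟩⟩,.a ⟨true,0,⟨0,
  [(26,0)]⟩,⟨0,[(23,0)]⟩⟩ ⟨true,0,⟨0,[(10,0),(27,0)]⟩,⟨0,[(11,0)]⟩⟩ ⟨false,0,⟨2,[(9,0),(5,2),(4,2),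
  (13,0),(3,0)]⟩,⟨0,[(0,0),(39,0)]⟩⟩]⟩) (.Q [0,0,0,0,0,-1,0,0,0,0,0,1] (.ed false [1,-1,0,0,1] .k)
  (.K ⟨0,[1,1,0,0,-1],0,0,(⟨0,[(22,0),(8,0)]⟩,⟨0,[(0,0)]⟩),(.r (-1) ⟨5,[(8,1),(8,1),(2,1),(6,2),(0,
  0),(10,5),(1,3)]⟩ ⟨0,[(37,0)]⟩),.k,(.x (-1) ⟨3,[(0,3),(1,0),(0,2),(0,2),(5,1),(2,0),(0,2),(1,5),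
  (1,1),(0,1),(19,2)]⟩ ⟨0,[(1,0),(2,0),(7,1),(9,0),(5,0),(2,1)]⟩),(.r (-1) ⟨1,[(12,1),(7,0),(0,0),
  (17,1),(1,0)]⟩ ⟨0,[(4,0),(5,0),(1,0),(3,1),(1,0),(0,0),(11,1)]⟩),.k,[⟨0,[(1,0),(2,0),(7,1)]⟩,⟨0,
  [(2,0)]⟩,⟨1,[(1,0),(4,0),(1,0),(17,0),(11,0)]⟩,⟨0,[(2,0),(36,0)]⟩]⟩) (.R ⟨0,false,false,true,[0,1,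
  0,0,-1],[1,0,0,0,-1],[0,0,1],(⟨0,[(0,0)]⟩,⟨0,[(23,0),(9,0)]⟩),(⟨0,[(22,0)]⟩,⟨0,[(23,0)]⟩),⟨0,[(23,
  0)]⟩,(.r (-1) ⟨5,[(8,1),(8,1),(2,1),(6,2),(0,0),(10,5),(1,3)]⟩ ⟨0,[(37,0)]⟩),.k,.k,.k,.k,.k,⟨true,
  0,⟨1,[(27,0),(0,0)]⟩,⟨0,[]⟩⟩,⟨false,0,⟨0,[(31,0),(1,0)]⟩,⟨1,[(36,0),(3,0)]⟩⟩,⟨true,0,⟨0,[(38,0)]⟩,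
  ⟨0,[(39,0)]⟩⟩,⟨false,0,⟨0,[(7,0),(4,0),(11,0)]⟩,⟨1,[(36,0),(2,1),(1,0)]⟩⟩,⟨false,0,⟨0,[]⟩,⟨0,[]⟩⟩,
  ⟨false,0,⟨0,[]⟩,⟨0,[]⟩⟩,[.a ⟨true,0,⟨0,[(2,0)]⟩,⟨0,[(21,0)]⟩⟩ ⟨true,0,⟨1,[(27,0),(0,0)]⟩,⟨0,[]⟩⟩
  ⟨false,0,⟨0,[(31,0),(1,0)]⟩,⟨1,[(36,0),(3,0)]⟩⟩,.o ⟨false,1,⟨0,[(14,0)]⟩,⟨2,[(1,0),(1,0),(0,0),(3,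
  1),(7,2)]⟩⟩,.o ⟨false,1,⟨0,[(3,0),(0,0),(9,0),(1,1)]⟩,⟨1,[(21,1),(5,0),(0,0)]⟩⟩,.o ⟨false,1,⟨0,
  [(2,0),(33,0)]⟩,⟨0,[(21,0)]⟩⟩]⟩)))))))))))) (.S ⟨1,0,[0,0,1,1,0,0,0,-1],[1,1,-1],[1,1,1,0,0,0,0,
  -1],(⟨0,[(18,0),(1,0)]⟩,⟨0,[(8,0)]⟩),⟨0,[(18,0)]⟩,.k,.k,⟨true,0,⟨0,[(27,0)]⟩,⟨0,[(28,0)]⟩⟩,⟨false,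
  1,⟨1,[(9,0),(0,0),(19,0)]⟩,⟨0,[]⟩⟩,⟨false,0,⟨0,[]⟩,⟨1,[(9,0),(0,0),(19,0)]⟩⟩,⟨true,0,⟨0,[(28,0)]⟩,
  ⟨0,[(27,0)]⟩⟩,[.o ⟨false,0,⟨0,[(0,0),(4,0),(20,0),(1,0)]⟩,⟨1,[(4,1),(20,0),(4,0)]⟩⟩,.a ⟨true,0,⟨0,
  [(0,0),(12,0)]⟩,⟨0,[(4,0)]⟩⟩ ⟨false,0,⟨0,[(0,0),(25,0)]⟩,⟨1,[(13,1),(0,1),(10,0),(4,0)]⟩⟩ ⟨true,0,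
  ⟨0,[(0,0)]⟩,⟨0,[(4,0),(0,0)]⟩⟩,.e ⟨false,0,⟨0,[(1,0)]⟩,⟨0,[(2,0),(2,0),(8,0),(13,0)]⟩⟩ ⟨false,0,
  ⟨0,[(0,0)]⟩,⟨3,[(2,1),(1,1),(1,1),(7,1),(10,0),(3,0)]⟩⟩,.o ⟨false,0,⟨0,[(5,0)]⟩,⟨1,[(16,1),(8,0),
  (3,0)]⟩⟩]⟩)) (.S ⟨1,0,[0,0,0,0,0,0,0,1],[0,0,1],[0,1,0,0,0,0,0,1],(⟨0,[(18,0)]⟩,⟨0,[(17,0)]⟩),⟨0,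
  [(7,0)]⟩,.k,.k,⟨true,0,⟨0,[(31,0)]⟩,⟨0,[]⟩⟩,⟨false,1,⟨1,[(8,0),(0,0),(19,0)]⟩,⟨0,[]⟩⟩,⟨false,0,⟨0,
  [(27,0)]⟩,⟨0,[(26,0),(2,0)]⟩⟩,⟨true,0,⟨0,[(27,0)]⟩,⟨0,[(26,0)]⟩⟩,[.e ⟨false,0,⟨4,[(0,3),(12,0),(2,
  0),(6,1)]⟩,⟨0,[(1,0),(12,0),(0,0),(11,0)]⟩⟩ ⟨false,0,⟨0,[(0,0)]⟩,⟨1,[(14,1),(0,1),(12,0),(0,0)]⟩⟩,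
  .o ⟨false,1,⟨1,[(0,1),(14,1),(8,0),(4,0)]⟩,⟨0,[(14,0)]⟩⟩,.o ⟨false,1,⟨1,[(15,1),(8,0),(3,0)]⟩,⟨0,
  [(4,0)]⟩⟩,.a ⟨true,0,⟨0,[(15,0)]⟩,⟨0,[(12,0)]⟩⟩ ⟨false,0,⟨0,[(0,0)]⟩,⟨0,[(14,0),(0,0),(13,0)]⟩⟩
  ⟨true,0,⟨0,[(0,0)]⟩,⟨0,[(14,0),(0,0)]⟩⟩]⟩))

theorem ok8 : chk K t8 r3 = true := by decide +kernel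


end Helper25.S1T.Ypp_1cP4
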