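import Pool.Agent.Helper25.S1T.Ypp_1dL_p0
import Pool.Agent.Helper25.S1T.Ypp_1dL_p1

set_option autoImplicit false
set_option linter.all false

namespace Helper25.S1T.Ypp_1dL

open Helper25.KG Helper25.KW Helper55.KE Helper11.CT

noncomputable def t3 : Tre :=
  .Q [0,0,0,0,0,0,1,1,0,-1,1] (.p true [0,0,1] [1] (⟨0,[(18,0)]⟩,⟨0,[(17,0)]⟩) .k 1 (⟨0,[]⟩,⟨0,[]⟩)
  .k .k) t1 t2

theorem ok3 : chk K t3 l4 = true :=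
  chk_Q (e' := [0,0,0,0,0,0,-1,-1,0,1,-1]) (by decide +kernel) (by decide +kernel) ok1 ok2

noncomputable def t6 : Tre :=
  .Q [0,0,3,0,-1,0,0,0,0,1] (.pp false [-1,1]) t4 t5

theorem ok6 : chk K t6 r4 = true :=
  chk_Q (e' := [0,0,-3,0,1,0,0,0,0,-1]) (by decide +kernel) (by decide +kernel) ok4 ok5

noncomputable def t7 : Tre :=
  .Q [0,0,0,0,0,-2,0,0,0,1] (.pp false [-1,1]) t3 t6

theorem ok7 : chk K t7 l3 = true :=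
  chk_Q (e' := [0,0,0,0,0,2,0,0,0,-1]) (by decide +kernel) (by decide +kernel) ok3 ok6

noncomputable def t17 : Tre :=
  .Q [0,0,0,1,0,0,1,0,0,-1,1] (.p true [0,0,1] [1] (⟨0,[(27,0)]⟩,⟨0,[(26,0)]⟩) .k 1 (⟨0,[]⟩,⟨0,[]⟩)
  .k .k) t15 t16

theorem ok17 : chk K t17 r16 = true :=
  chk_Q (e' := [0,0,0,-1,0,0,-1,0,0,1,-1]) (by decide +kernel) (by decide +kernel) ok15 ok16

noncomputable def t18 : Tre :=
  .Q [1,1,0,0,-1,0,0,0,1,-1,0,1] (.p true [0,0,0,0,1] [1] (⟨0,[(19,0)]⟩,⟨0,[(18,0)]⟩) .k 1 (⟨0,[]⟩,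
  ⟨0,[]⟩) .k .k) t14 t17

theorem ok18 : chk K t18 r15 = true :=
  chk_Q (e' := [-1,-1,0,0,1,0,0,0,-1,1,0,-1]) (by decide +kernel) (by decide +kernel) ok14 ok17

noncomputable def t19 : Tre :=
  .Q [0,0,-1,0,0,0,0,0,-1,1,0,-1] (.p false [0,0,0,0,1] [1] (⟨0,[(18,0)]⟩,⟨0,[(17,0)]⟩) .k 1 (⟨0,
  []⟩,⟨0,[]⟩) .k .k) t13 t18

theorem ok19 : chk K t19 r14 = true :=
  chk_Q (e' := [0,0,1,0,0,0,0,0,1,-1,0,1]) (by decide +kernel) (by decide +kernel) ok13 ok18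

noncomputable def t20 : Tre :=
  .Q [0,0,1,0,-1,0,0,0,1,0,0,1] (.p true [0,0,0,0,1] [] (⟨0,[(17,0)]⟩,⟨0,[(16,0)]⟩) .k 0 (⟨0,[]⟩,⟨0,
  []⟩) .k .k) t12 t19

theorem ok20 : chk K t20 r13 = true :=
  chk_Q (e' := [0,0,-1,0,1,0,0,0,-1,0,0,-1]) (by decide +kernel) (by decide +kernel) ok12 ok19

noncomputable def t21 : Tre :=
  .Q [0,-1,0,-1,0,0,-1,-1,0,1,-1] (.p false [0,0,1] [1] (⟨0,[(23,0)]⟩,⟨0,[(22,0)]⟩) .k 1 (⟨0,[]⟩,⟨0,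
  []⟩) .k .k) t11 t20

theorem ok21 : chk K t21 r12 = true :=
  chk_Q (e' := [0,1,0,1,0,0,1,1,0,-1,1]) (by decide +kernel) (by decide +kernel) ok11 ok20

noncomputable def t22 : Tre :=
  .Q [0,0,0,-1,-1,0,-2,-2,0,2,-2] (.p false [0,0,1] [2,-1,-1] (⟨0,[(22,0)]⟩,⟨0,[(21,0)]⟩) .k 2 (⟨0,
  [(21,0),(2,0)]⟩,⟨0,[(10,0)]⟩) .k (.r (-1) ⟨1,[(8,1),(0,0),(7,1),(9,0),(2,1)]⟩ ⟨1,[(4,3),(4,0),(9,
  1),(7,0),(2,3)]⟩)) t10 t21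

theorem ok22 : chk K t22 l11 = true :=
  chk_Q (e' := [0,0,0,1,1,0,2,2,0,-2,2]) (by decide +kernel) (by decide +kernel) ok10 ok21

noncomputable def t24 : Tre :=
  .Q [0,0,0,0,0,0,1,0,0,0,1] (.p true [0,0,1] [] (⟨0,[(21,0)]⟩,⟨0,[(20,0)]⟩) .k 0 (⟨0,[]⟩,⟨0,[]⟩)
  .k .k) t22 t23

theorem ok24 : chk K t24 r10 = true :=
  chk_Q (e' := [0,0,0,0,0,0,-1,0,0,0,-1]) (by decide +kernel) (by decide +kernel) ok22 ok23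

noncomputable def t25 : Tre :=
  .Q [0,0,0,0,0,0,1,0,-1,0,1,-1] (.p true [0,0,1] [0,0,0,0,1] (⟨0,[(20,0)]⟩,⟨0,[(19,0)]⟩) .k 2 (⟨0,
  [(13,0)]⟩,⟨0,[(12,0)]⟩) .k (.r (-1) ⟨15,[(0,2),(6,7),(3,2),(3,15),(5,3),(8,8),(1,1)]⟩ ⟨3,[(2,3),
  (4,0),(9,1),(7,0),(2,3)]⟩)) t9 t24

theorem ok25 : chk K t25 r9 = true :=
  chk_Q (e' := [0,0,0,0,0,0,-1,0,1,0,-1,1]) (by decide +kernel) (by decide +kernel) ok9 ok24

noncomputable def t26 : Tre :=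
  .Q [1,0,0,0,-1,0,0,0,1,0,0,1] (.p true [0,0,0,0,1] [] (⟨0,[(12,0)]⟩,⟨0,[(11,0)]⟩) .k 0 (⟨0,[]⟩,⟨0,
  []⟩) .k .k) t8 t25

theorem ok26 : chk K t26 l8 = true :=
  chk_Q (e' := [-1,0,0,0,1,0,0,0,-1,0,0,-1]) (by decide +kernel) (by decide +kernel) ok8 ok25

noncomputable def t28 : Tre :=
  .Q [0,0,-1,0,1,0,2,0,0,-2,2] (.p true [0,0,1] [2,-1,-1] (⟨0,[(18,0)]⟩,⟨0,[(17,0)]⟩) .k 2 (⟨0,[(17,
  0),(2,0)]⟩,⟨0,[(6,0)]⟩) .k (.r (-1) ⟨1,[(4,1),(0,0),(7,1),(9,0),(2,1)]⟩ ⟨1,[(0,3),(4,0),(9,1),(7,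
  0),(2,3)]⟩)) t26 t27

theorem ok28 : chk K t28 l7 = true :=
  chk_Q (e' := [0,0,1,0,-1,0,-2,0,0,2,-2]) (by decide +kernel) (by decide +kernel) ok26 ok27

noncomputable def t30 : Tre :=
  .I [0,0,-1,-1,0,0,0,-1] t28 t29

theorem ok30 : chk K t30 r3 = true :=
  chk_I (e' := [1,0,1,1,0,0,0,1]) (by decide +kernel) (by decide +kernel) ok28 ok29

noncomputable def t31 : Tre :=
  .I [0,0,1,1,0,0,0,1] t7 t30

theorem ok31 : chk K t31 l2 = true :=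
  chk_I (e' := [1,0,-1,-1,0,0,0,-1]) (by decide +kernel) (by decide +kernel) ok7 ok30

noncomputable def t33 : Tre :=
  .Q [0,1,0,1,0,0,0,0,0,-1] (.pp true [-1,1]) t31 t32

theorem ok33 : chk K t33 r1 = true :=
  chk_Q (e' := [0,-1,0,-1,0,0,0,0,0,1]) (by decide +kernel) (by decide +kernel) ok31 ok32

noncomputable def t34 : Tre :=
  .Q [0,0,1,0,-1,0,-1,0,0,1,-1] (.p false [0,0,1] [1] (⟨0,[(14,0)]⟩,⟨0,[(13,0)]⟩) .k 1 (⟨0,[]⟩,⟨0,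
  []⟩) .k .k) t0 t33

theorem ok34 : chk K t34 l0 = true :=
  chk_Q (e' := [0,0,-1,0,1,0,1,0,0,-1,1]) (by decide +kernel) (by decide +kernel) ok0 ok33

noncomputable def t36 : Tre :=
  .I [1,-1,-1,-1,1,0,0,1] t34 t35

theorem ok36 : chk K t36 base = true :=
  chk_I (e' := [0,1,1,1,-1,0,0,-1]) (by decide +kernel) (by decide +kernel) ok34 ok35

theorem closed {p a b c J l q : ℤ} {D dl : ℝ} {Cl : ℤ → ℤ → ℤ → ℤ → ℝ → Prop}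
    (W : World p a b c J 1 l q D dl Cl) (g : G0 p a b c J D)
    {N X R : ℤ} {I : ℝ} (hk : KCl p l Cl N X R I) (kz : KF a b D (X + (1 : ℤ) * I) (X + (1 : ℤ) * I + R) I)
    {Ne Xe : ℤ} {Ie : ℝ} (he : EFac p 1 D Cl 1 Ne Xe Ie)
    (hkf : ∀ kf ∈ (kfY 1 [0,0,0,0,0,0,1,0,0,0,1]), KOk p l Cl 1
      (xv [1, a, b, c, p, J, X, R, Xe] [D, I, Ie]) N kf)
    (h0 : 1 ≤ (c : ℝ))
    (h1 : 1 ≤ (a : ℝ) - (b : ℝ) - (c : ℝ))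
    (h2 : 0 < 2 * (b : ℝ) - D)
    (h3 : 1 ≤ 2 * (a : ℝ) - (b : ℝ))
    (h4 : 0 < -(b : ℝ) - (X : ℝ) + D - I)
    (h5 : 0 < -(J : ℝ) + I)
    (h6 : 0 < (J : ℝ) - D + I)
    (h7 : 0 < -2 * (X : ℝ) + D - 2 * I) : False := by
  have g1 := g.a2
  have g2 := g.b2
  have g3 := g.pa
  have g4 := g.pb
  have g5 := g.J1
  have g6 := g.JD
  have g7 := g.D2
  have g8 := g.ca
  have g9 := g.ca'
  have k1 := kz.I0
  have k2 := kz.ID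
  have k3 := kz.z1
  have k4 := kz.z2
  have k5 := kz.s1
  have k6 := kz.s2
  have e1 := he.I0
  have e2 := he.ID
  have e3 := he.x0
  have e4 := he.xp
  push_cast at *
  refine (val_E W.toBase hk he (row := [1]) (by simp) (by simp) (kfY 1 [0,0,0,0,0,0,1,0,0,0,1])).sound W rfl (Nk := N)
    (fun kf _ _ => ⟨_, rfl⟩) hkf ?_ ok36
  · simp only [base, List.forall_mem_cons, List.not_mem_nil, false_imp_iff, implies_true,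
      and_true, hld, xv, evg_cons, evg_nil, List.map_cons, List.map_nil, List.cons_append,
      List.nil_append, if_true, if_false, Bool.false_eq_true]
    push_cast
    refine ⟨?_, ?_, ?_, ?_, ?_, ?_, ?_, ?_, ?_, ?_, ?_, ?_, ?_, ?_, ?_, ?_, ?_, ?_, ?_, ?_, ?_, ?_, ?_, ?_, ?_, ?_⟩ <;> linarith

end Helper25.S1T.Ypp_1dL
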