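import Pool.Agent.Helper25.S1T.Ypp_2_P2_m0n0_p0
import Pool.Agent.Helper25.S1T.Ypp_2_P2_m0n0_p1
import Pool.Agent.Helper25.S1T.Ypp_2_P2_m0n0_p2

set_option autoImplicit false
set_option linter.all false

namespace Helper25.S1T.Ypp_2_P2_m0n0

open Helper25.KG Helper25.KW Helper55.KE Helper11.CT

noncomputable def t23 : Tre :=
  .Q [1,1,0,0,0,0,-2,-2,1,1,-2,1] (.p false [-1,1,1] [0,0,-1,0,1] (⟨0,[(33,0)]⟩,⟨0,[(6,0),(31,0)]⟩)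
  .k 2 (⟨0,[(13,0)]⟩,⟨0,[(37,0),(7,0)]⟩) .k (.r 0 ⟨0,[(26,1)]⟩ ⟨29,[(1,9),(5,8),(20,29),(1,0),(4,0),
  (6,29),(9,1),(5,14)]⟩)) t21 t22

theorem ok23 : chk K t23 r31 = true :=
  chk_Q (e' := [-1,-1,0,0,0,0,2,2,-1,-1,2,-1]) (by decide +kernel) (by decide +kernel) ok21 ok22

noncomputable def t24 : Tre :=
  .Q [0,0,0,0,0,-2,0,0,0,1,1] (.p true [1,-1,1] [] (⟨0,[(44,0),(3,0)]⟩,⟨0,[(33,0)]⟩) .k 0 (⟨0,[]⟩,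
  ⟨0,[]⟩) .k .k) t20 t23

theorem ok24 : chk K t24 l30 = true :=
  chk_Q (e' := [0,0,0,0,0,2,0,0,0,-1,-1]) (by decide +kernel) (by decide +kernel) ok20 ok23

noncomputable def t26 : Tre :=
  .Q [1,0,0,-1,1,0,-2,-2,1,1,-2,1] (.p false [-1,1,1] [0,0,-1,0,1] (⟨0,[(31,0)]⟩,⟨0,[(4,0),(31,
  0)]⟩) .k 2 (⟨0,[(11,0)]⟩,⟨0,[(35,0),(7,0)]⟩) .k (.r 0 ⟨0,[(24,1)]⟩ ⟨0,[(26,0),(12,0),(0,0),(15,
  0)]⟩)) t24 t25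

theorem ok26 : chk K t26 l29 = true :=
  chk_Q (e' := [-1,0,0,1,-1,0,2,2,-1,-1,2,-1]) (by decide +kernel) (by decide +kernel) ok24 ok25

noncomputable def t29 : Tre :=
  .Q [2,0,0,2,-1,0,0,0,2,-2,0,2] (.p true [-1,0,0,0,2] [1] (⟨0,[(11,0),(0,0)]⟩,⟨0,[(35,1)]⟩) .k 1
  (⟨0,[]⟩,⟨0,[]⟩) .k (.r 0 ⟨0,[]⟩ ⟨4,[(33,2),(0,2),(21,1),(1,3)]⟩)) t27 t28

theorem ok29 : chk K t29 r29 = true :=
  chk_Q (e' := [-2,0,0,-2,1,0,0,0,-2,2,0,-2]) (by decide +kernel) (by decide +kernel) ok27 ok28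

noncomputable def t30 : Tre :=
  .I [-2,0,-1,-1,0,0,0,2] t26 t29

theorem ok30 : chk K t30 r28 = true :=
  chk_I (e' := [3,0,1,1,0,0,0,-2]) (by decide +kernel) (by decide +kernel) ok26 ok29

noncomputable def t31 : Tre :=
  .Q [2,0,0,0,0,0,-1,-1,2,0,-1,2] (.p false [0,0,1] [0,-1,0,0,2] (⟨0,[(41,0)]⟩,⟨0,[(40,0)]⟩) .k 2
  (⟨0,[(9,0),(0,0),(34,0)]⟩,⟨0,[(5,0),(27,0)]⟩) (.r (-1) ⟨27,[(15,8),(7,9),(8,9),(15,1),(4,4)]⟩ ⟨3,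
  [(26,0),(9,0),(12,0),(2,1),(2,2)]⟩) (.r 0 ⟨7,[(6,0),(6,0),(8,6),(12,1),(19,3)]⟩ ⟨1,[(24,0),(6,0),
  (0,0),(4,0),(0,0),(15,0)]⟩)) t19 t30

theorem ok31 : chk K t31 r27 = true :=
  chk_Q (e' := [-2,0,0,0,0,0,1,1,-2,0,1,-2]) (by decide +kernel) (by decide +kernel) ok19 ok30

noncomputable def t32 : Tre :=
  .Q [0,0,1,0,0,0,2,0,0,-1,2] (.p true [0,0,1] [1,0,-1] (⟨0,[(40,0)]⟩,⟨0,[(39,0)]⟩) .k 2 (⟨0,[(39,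
  0)]⟩,⟨0,[(40,0)]⟩) .k (.r 0 ⟨0,[(21,1)]⟩ ⟨0,[(23,0),(12,0),(0,0),(15,0)]⟩)) t18 t31

theorem ok32 : chk K t32 r26 = true :=
  chk_Q (e' := [0,0,-1,0,0,0,-2,0,0,1,-2]) (by decide +kernel) (by decide +kernel) ok18 ok31

noncomputable def t33 : Tre :=
  .Q [2,-1,0,0,0,0,1,1,2,-1,1,2] (.p true [0,0,1] [1,1,0,0,-2] (⟨0,[(39,0)]⟩,⟨0,[(38,0)]⟩) .k 2 (⟨0,
  [(3,0),(27,0)]⟩,⟨0,[(7,0),(0,0),(34,0)]⟩) (.r 0 ⟨3,[(24,0),(9,0),(12,0),(2,1),(2,2)]⟩ ⟨27,[(13,8),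
  (7,9),(8,9),(15,1),(4,4)]⟩) (.r 0 ⟨0,[(20,0)]⟩ ⟨13,[(21,4),(0,6),(1,4),(5,4),(4,1),(0,6),(9,0),(5,
  6),(1,4)]⟩)) t17 t32

theorem ok33 : chk K t33 l25 = true :=
  chk_Q (e' := [-2,1,0,0,0,0,-1,-1,-2,1,-1,-2]) (by decide +kernel) (by decide +kernel) ok17 ok32

noncomputable def t35 : Tre :=
  .Q [0,0,0,0,0,-1,0,0,0,2,-1,-1] (.p false [-1,0,1,0,1] [1] (⟨0,[(7,0)]⟩,⟨0,[(30,0),(6,0)]⟩) .k 1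
  (⟨0,[]⟩,⟨0,[]⟩) .k (.r 0 ⟨0,[(19,0)]⟩ ⟨1,[(21,0),(6,0),(0,0),(4,0),(0,0),(15,0)]⟩)) t33 t34

theorem ok35 : chk K t35 r24 = true :=
  chk_Q (e' := [0,0,0,0,0,1,0,0,0,-2,1,1]) (by decide +kernel) (by decide +kernel) ok33 ok34

noncomputable def t36 : Tre :=
  .Q [1,0,0,-1,0,0,1,1,1,0,1,1] (.p true [1,-1,1] [1,0,0,0,-1] (⟨0,[(37,0),(3,0)]⟩,⟨0,[(26,0)]⟩) .k
  2 (⟨0,[(29,0)]⟩,⟨0,[(30,0)]⟩) .k (.r 0 ⟨0,[(18,0)]⟩ ⟨1,[(20,0),(6,0),(0,0),(4,0),(0,0),(15,0)]⟩))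
  t16 t35

theorem ok36 : chk K t36 r23 = true :=
  chk_Q (e' := [-1,0,0,1,0,0,-1,-1,-1,0,-1,-1]) (by decide +kernel) (by decide +kernel) ok16 ok35

noncomputable def t37 : Tre :=
  .Q [1,1,0,-1,0,0,-1,-1,1,1,-1,1] (.p false [-1,1,1] [0,0,0,0,1] (⟨0,[(24,0)]⟩,⟨0,[(35,0),(4,0)]⟩)
  .k 2 (⟨0,[(29,0)]⟩,⟨0,[(28,0)]⟩) .k (.r 0 ⟨0,[(1,0),(6,0),(21,1),(19,3)]⟩ ⟨1,[(19,0),(6,0),(0,0),
  (4,0),(0,0),(15,0)]⟩)) t15 t36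

theorem ok37 : chk K t37 r22 = true :=
  chk_Q (e' := [-1,-1,0,1,0,0,1,1,-1,-1,1,-1]) (by decide +kernel) (by decide +kernel) ok15 ok36

noncomputable def t38 : Tre :=
  .Q [0,0,0,0,0,-1,0,0,0,0,0,1] (.ed false [1,-1,0,0,1] .k) t14 t37

theorem ok38 : chk K t38 r21 = true :=
  chk_Q (e' := [0,0,0,0,0,1,0,0,0,0,0,-1]) (by decide +kernel) (by decide +kernel) ok14 ok37

noncomputable def t39 : Tre :=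
  .Q [0,0,2,0,0,0,-1,0,-1,2,-1,-1] (.p false [-1,0,1,0,1] [1] (⟨0,[(3,0)]⟩,⟨0,[(26,0),(6,0)]⟩) .k 1
  (⟨0,[]⟩,⟨0,[]⟩) .k (.r 0 ⟨0,[(15,0)]⟩ ⟨1,[(17,0),(6,0),(0,0),(4,0),(0,0),(15,0)]⟩)) t13 t38

theorem ok39 : chk K t39 r20 = true :=
  chk_Q (e' := [0,0,-2,0,0,0,1,0,1,-2,1,1]) (by decide +kernel) (by decide +kernel) ok13 ok38

noncomputable def t40 : Tre :=
  .Q [0,0,1,0,0,0,-1,0,-1,2,-1,-1] (.p false [-1,0,1,0,1] [1] (⟨0,[(2,0)]⟩,⟨0,[(25,0),(6,0)]⟩) .k 1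
  (⟨0,[]⟩,⟨0,[]⟩) .k (.r 0 ⟨0,[(14,0)]⟩ ⟨1,[(16,0),(6,0),(0,0),(4,0),(0,0),(15,0)]⟩)) t12 t39

theorem ok40 : chk K t40 l19 = true :=
  chk_Q (e' := [0,0,-1,0,0,0,1,0,1,-2,1,1]) (by decide +kernel) (by decide +kernel) ok12 ok39

noncomputable def t42 : Tre :=
  .Q [0,0,0,0,0,0,1,0,1,-2,1,1] (.p true [-1,0,1,0,1] [1] (⟨0,[(1,0)]⟩,⟨0,[(24,0),(6,0)]⟩) .k 1 (⟨0,
  []⟩,⟨0,[]⟩) .k (.r 0 ⟨0,[(13,0)]⟩ ⟨1,[(15,0),(6,0),(0,0),(4,0),(0,0),(15,0)]⟩)) t40 t41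

theorem ok42 : chk K t42 l18 = true :=
  chk_Q (e' := [0,0,0,0,0,0,-1,0,-1,2,-1,-1]) (by decide +kernel) (by decide +kernel) ok40 ok41

noncomputable def t44 : Tre :=
  .Q [0,0,0,0,0,0,0,0,0,0,-1,1] (.ed false [1,0,-1,0,1] (.r (-1) ⟨1,[(14,0),(6,0),(0,0),(4,0),(0,0),
  (15,0)]⟩ ⟨0,[(2,0),(0,0),(21,0),(19,1)]⟩)) t42 t43

theorem ok44 : chk K t44 l17 = true :=
  chk_Q (e' := [0,0,0,0,0,0,0,0,0,0,1,-1]) (by decide +kernel) (by decide +kernel) ok42 ok43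

noncomputable def t55 : Tre :=
  .I [0,0,-2,-2,1,0,0,-1] t53 t54

theorem ok55 : chk K t55 r41 = true :=
  chk_I (e' := [1,0,2,2,-1,0,0,1]) (by decide +kernel) (by decide +kernel) ok53 ok54

noncomputable def t56 : Tre :=
  .Q [2,0,0,1,-1,0,1,1,2,-1,1,2] (.p true [0,0,1] [1,0,0,0,-2] (⟨0,[(38,0)]⟩,⟨0,[(37,0)]⟩) .k 2 (⟨0,
  [(3,0),(3,0),(18,0)]⟩,⟨0,[(31,1)]⟩) .k (.r 0 ⟨0,[(19,0)]⟩ ⟨13,[(20,4),(0,6),(1,4),(5,4),(4,1),(0,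
  6),(9,0),(5,6),(1,4)]⟩)) t52 t55

theorem ok56 : chk K t56 r40 = true :=
  chk_Q (e' := [-2,0,0,-1,1,0,-1,-1,-2,1,-1,-2]) (by decide +kernel) (by decide +kernel) ok52 ok55

noncomputable def t57 : Tre :=
  .Q [0,0,2,0,0,0,1,0,-1,1,1,-1] (.p true [1,-1,1] [0,0,0,0,1] (⟨0,[(37,0),(3,0)]⟩,⟨0,[(26,0)]⟩) .k
  2 (⟨0,[(30,0)]⟩,⟨0,[(29,0)]⟩) .k (.r 0 ⟨0,[(0,1),(0,0),(1,1),(17,0),(23,0),(5,4)]⟩ ⟨1,[(20,0),(6,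
  0),(0,0),(4,0),(0,0),(15,0)]⟩)) t51 t56

theorem ok57 : chk K t57 r39 = true :=
  chk_Q (e' := [0,0,-2,0,0,0,-1,0,1,-1,-1,1]) (by decide +kernel) (by decide +kernel) ok51 ok56

noncomputable def t58 : Tre :=
  .Q [0,0,2,0,0,0,-1,0,-1,1,-1,-1] (.p false [0,0,1] [1,0,0,0,-1] (⟨0,[(36,0)]⟩,⟨0,[(35,0)]⟩) .k 2
  (⟨0,[(28,0)]⟩,⟨0,[(29,0)]⟩) .k (.r 0 ⟨0,[(17,0)]⟩ ⟨1,[(19,0),(6,0),(0,0),(4,0),(0,0),(15,0)]⟩))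
  t50 t57

theorem ok58 : chk K t58 r38 = true :=
  chk_Q (e' := [0,0,-2,0,0,0,1,0,1,-1,1,1]) (by decide +kernel) (by decide +kernel) ok50 ok57

noncomputable def t59 : Tre :=
  .Q [2,-1,0,1,0,0,-1,-1,2,0,-1,2] (.p false [0,0,1] [0,0,0,0,2] (⟨0,[(35,0)]⟩,⟨0,[(34,0)]⟩) .k 2
  (⟨0,[(28,1)]⟩,⟨0,[(0,0),(3,0),(18,0)]⟩) .k (.r 0 ⟨13,[(1,0),(1,1),(2,1),(9,11),(20,2),(1,2),(5,1),
  (3,2)]⟩ ⟨1,[(18,0),(6,0),(0,0),(4,0),(0,0),(15,0)]⟩)) t49 t58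

theorem ok59 : chk K t59 r37 = true :=
  chk_Q (e' := [-2,1,0,-1,0,0,1,1,-2,0,1,-2]) (by decide +kernel) (by decide +kernel) ok49 ok58

noncomputable def t60 : Tre :=
  .Q [0,0,0,0,0,1,0,0,0,-1,0,1] (.ed false [0,1,0,0,1] .k) t48 t59

theorem ok60 : chk K t60 r36 = true :=
  chk_Q (e' := [0,0,0,0,0,-1,0,0,0,1,0,-1]) (by decide +kernel) (by decide +kernel) ok48 ok59

noncomputable def t61 : Tre :=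
  .Q [0,0,1,0,0,0,2,0,0,-1,2] (.p true [0,0,1] [1,0,-1] (⟨0,[(33,0)]⟩,⟨0,[(32,0)]⟩) .k 2 (⟨0,[(32,
  0)]⟩,⟨0,[(33,0)]⟩) .k (.r 0 ⟨0,[(14,1)]⟩ ⟨0,[(16,0),(12,0),(0,0),(15,0)]⟩)) t47 t60

theorem ok61 : chk K t61 r35 = true :=
  chk_Q (e' := [0,0,-1,0,0,0,-2,0,0,1,-2]) (by decide +kernel) (by decide +kernel) ok47 ok60

noncomputable def t62 : Tre :=
  .Q [1,0,0,-1,0,0,1,1,1,0,1,1] (.p true [0,0,1,0,1] [] (⟨0,[(25,0),(6,0)]⟩,⟨0,[(1,0)]⟩) .k 0 (⟨0,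
  []⟩,⟨0,[]⟩) .k (.r 0 ⟨0,[(13,0)]⟩ ⟨1,[(15,0),(6,0),(0,0),(4,0),(0,0),(15,0)]⟩)) t46 t61

theorem ok62 : chk K t62 r34 = true :=
  chk_Q (e' := [-1,0,0,1,0,0,-1,-1,-1,0,-1,-1]) (by decide +kernel) (by decide +kernel) ok46 ok61

noncomputable def t63 : Tre :=
  .Q [1,1,0,-1,0,0,-1,-1,1,1,-1,1] (.p false [-1,1,1] [0,0,0,0,1] (⟨0,[(19,0)]⟩,⟨0,[(30,0),(4,0)]⟩)
  .k 2 (⟨0,[(24,0)]⟩,⟨0,[(23,0)]⟩) .k (.r 0 ⟨0,[(2,0),(0,0),(21,0),(19,1)]⟩ ⟨1,[(14,0),(6,0),(0,0),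
  (4,0),(0,0),(15,0)]⟩)) t45 t62

theorem ok63 : chk K t63 r17 = true :=
  chk_Q (e' := [-1,-1,0,1,0,0,1,1,-1,-1,1,-1]) (by decide +kernel) (by decide +kernel) ok45 ok62

noncomputable def t64 : Tre :=
  .Q [0,0,0,0,0,0,0,0,0,-1,1,1] (.ed false [0,0,1,0,1] (.r 0 ⟨0,[(11,0)]⟩ ⟨1,[(13,0),(6,0),(0,0),(4,
  0),(0,0),(15,0)]⟩)) t44 t63

theorem ok64 : chk K t64 r16 = true :=
  chk_Q (e' := [0,0,0,0,0,0,0,0,0,1,-1,-1]) (by decide +kernel) (by decide +kernel) ok44 ok63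

noncomputable def t65 : Tre :=
  .Q [1,-1,0,0,0,0,1,1,1,-1,1,1] (.p true [0,0,1] [1,0,0,0,-1] (⟨0,[(29,0)]⟩,⟨0,[(28,0)]⟩) .k 2 (⟨0,
  [(21,0)]⟩,⟨0,[(22,0)]⟩) .k (.r 0 ⟨0,[(10,0)]⟩ ⟨1,[(12,0),(6,0),(0,0),(4,0),(0,0),(15,0)]⟩)) t11
  t64

theorem ok65 : chk K t65 r15 = true :=
  chk_Q (e' := [-1,1,0,0,0,0,-1,-1,-1,1,-1,-1]) (by decide +kernel) (by decide +kernel) ok11 ok64

noncomputable def t66 : Tre :=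
  .Q [0,0,1,0,0,0,0,0,-1,1,0,-1] (.p false [0,0,0,0,1] [1] (⟨0,[(21,0)]⟩,⟨0,[(20,0)]⟩) .k 1 (⟨0,[]⟩,
  ⟨0,[]⟩) .k .k) t10 t65

theorem ok66 : chk K t66 r14 = true :=
  chk_Q (e' := [0,0,-1,0,0,0,0,0,1,-1,0,1]) (by decide +kernel) (by decide +kernel) ok10 ok65

noncomputable def t67 : Tre :=
  .Q [1,0,0,0,0,0,-1,-1,1,0,-1,1] (.p false [0,0,1] [0,0,0,0,1] (⟨0,[(27,0)]⟩,⟨0,[(26,0)]⟩) .k 2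
  (⟨0,[(20,0)]⟩,⟨0,[(19,0)]⟩) .k (.r 0 ⟨0,[(3,0),(17,0),(15,0),(3,0)]⟩ ⟨1,[(10,0),(6,0),(0,0),(4,0),
  (0,0),(15,0)]⟩)) t9 t66

theorem ok67 : chk K t67 l13 = true :=
  chk_Q (e' := [-1,0,0,0,0,0,1,1,-1,0,1,-1]) (by decide +kernel) (by decide +kernel) ok9 ok66

noncomputable def t69 : Tre :=
  .Q [-1,1,0,0,0,0,0,0,-1,0,0,-1] (.p false [0,0,0,0,1] [] (⟨0,[(19,0)]⟩,⟨0,[(18,0)]⟩) .k 0 (⟨0,[]⟩,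
  ⟨0,[]⟩) .k .k) t67 t68

theorem ok69 : chk K t69 r12 = true :=
  chk_Q (e' := [1,-1,0,0,0,0,0,0,1,0,0,1]) (by decide +kernel) (by decide +kernel) ok67 ok68

noncomputable def t70 : Tre :=
  .I [1,0,2,2,-1] t8 t69

theorem ok70 : chk K t70 r11 = true :=
  chk_I (e' := [0,0,-2,-2,1]) (by decide +kernel) (by decide +kernel) ok8 ok69

noncomputable def t71 : Tre :=
  .Q [0,0,0,0,0,0,0,0,-1,1,0,-1] (.p false [0,0,0,0,1] [1] (⟨0,[(17,0)]⟩,⟨0,[(16,0)]⟩) .k 1 (⟨0,[]⟩,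
  ⟨0,[]⟩) .k .k) t7 t70

theorem ok71 : chk K t71 r10 = true :=
  chk_Q (e' := [0,0,0,0,0,0,0,0,1,-1,0,1]) (by decide +kernel) (by decide +kernel) ok7 ok70

noncomputable def t72 : Tre :=
  .Q [0,1,0,-1,0,0,-1,-1,0,1,-1] (.p false [0,0,1] [1] (⟨0,[(23,0)]⟩,⟨0,[(22,0)]⟩) .k 1 (⟨0,[]⟩,⟨0,
  []⟩) .k .k) t6 t71

theorem ok72 : chk K t72 r9 = true :=
  chk_Q (e' := [0,-1,0,1,0,0,1,1,0,-1,1]) (by decide +kernel) (by decide +kernel) ok6 ok71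

noncomputable def t73 : Tre :=
  .I [0,0,2,2,-1] t5 t72

theorem ok73 : chk K t73 r8 = true :=
  chk_I (e' := [1,0,-2,-2,1]) (by decide +kernel) (by decide +kernel) ok5 ok72

noncomputable def t74 : Tre :=
  .Q [0,0,0,-1,0,0,1,1,0,1,1] (.p true [1,-1,1] [] (⟨0,[(21,0),(3,0)]⟩,⟨0,[(10,0)]⟩) .k 0 (⟨0,[]⟩,
  ⟨0,[]⟩) .k .k) t4 t73

theorem ok74 : chk K t74 r7 = true :=
  chk_Q (e' := [0,0,0,1,0,0,-1,-1,0,-1,-1]) (by decide +kernel) (by decide +kernel) ok4 ok73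

noncomputable def t75 : Tre :=
  .Q [1,-1,0,0,0,0,0,0,1,-1,0,1] (.p true [0,0,0,0,1] [1] (⟨0,[(13,0)]⟩,⟨0,[(12,0)]⟩) .k 1 (⟨0,[]⟩,
  ⟨0,[]⟩) .k .k) t3 t74

theorem ok75 : chk K t75 l6 = true :=
  chk_Q (e' := [-1,1,0,0,0,0,0,0,-1,1,0,-1]) (by decide +kernel) (by decide +kernel) ok3 ok74

noncomputable def t77 : Tre :=
  .Q [1,0,0,0,0,0,0,0,1,-1,0,1] (.p true [0,0,0,0,1] [1] (⟨0,[(12,0)]⟩,⟨0,[(11,0)]⟩) .k 1 (⟨0,[]⟩,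
  ⟨0,[]⟩) .k .k) t75 t76

theorem ok77 : chk K t77 r5 = true :=
  chk_Q (e' := [-1,0,0,0,0,0,0,0,-1,1,0,-1]) (by decide +kernel) (by decide +kernel) ok75 ok76

noncomputable def t78 : Tre :=
  .I [1,0,0,0,0,0,0,-1] t2 t77

theorem ok78 : chk K t78 r4 = true :=
  chk_I (e' := [0,0,0,0,0,0,0,1]) (by decide +kernel) (by decide +kernel) ok2 ok77

noncomputable def t79 : Tre :=
  .Q [1,0,0,1,-1,0,0,0,1,-1,0,1] (.p true [0,0,0,0,1] [1] (⟨0,[(10,0)]⟩,⟨0,[(9,0)]⟩) .k 1 (⟨0,[]⟩,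
  ⟨0,[]⟩) .k .k) t1 t78

theorem ok79 : chk K t79 l3 = true :=
  chk_Q (e' := [-1,0,0,-1,1,0,0,0,-1,1,0,-1]) (by decide +kernel) (by decide +kernel) ok1 ok78

noncomputable def t81 : Tre :=
  .I [0,1,-1,0,0,0,0,-1] t79 t80

theorem ok81 : chk K t81 r2 = true :=
  chk_I (e' := [1,-1,1,0,0,0,0,1]) (by decide +kernel) (by decide +kernel) ok79 ok80

noncomputable def t82 : Tre :=
  .Q [0,0,0,0,0,0,-1,0,0,0,-1] (.p false [0,0,1] [] (⟨0,[(15,0)]⟩,⟨0,[(14,0)]⟩) .k 0 (⟨0,[]⟩,⟨0,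
  []⟩) .k .k) t0 t81

theorem ok82 : chk K t82 l1 = true :=
  chk_Q (e' := [0,0,0,0,0,0,1,0,0,0,1]) (by decide +kernel) (by decide +kernel) ok0 ok81

noncomputable def t84 : Tre :=
  .Q [0,0,0,1,0,0,-1,-1,0,0,-1] (.p false [0,0,1] [] (⟨0,[(14,0)]⟩,⟨0,[(13,0)]⟩) .k 0 (⟨0,[]⟩,⟨0,
  []⟩) .k .k) t82 t83

theorem ok84 : chk K t84 l0 = true :=
  chk_Q (e' := [0,0,0,-1,0,0,1,1,0,0,1]) (by decide +kernel) (by decide +kernel) ok82 ok83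

noncomputable def t95 : Tre :=
  .Q [0,0,0,0,0,0,0,0,0,0,-1,1] (.ed false [1,0,-1,0,1] (.r 0 ⟨2,[(2,0),(2,0),(5,0),(1,0)]⟩ ⟨49,
  [(15,24),(2,8),(0,8),(3,49),(11,4),(5,30),(1,11)]⟩)) t93 t94

theorem ok95 : chk K t95 l56 = true :=
  chk_Q (e' := [0,0,0,0,0,0,0,0,0,0,1,-1]) (by decide +kernel) (by decide +kernel) ok93 ok94

noncomputable def t97 : Tre :=
  .Q [0,0,-1,0,0,0,-1,0,1,-1,-1,1] (.p false [1,-1,1] [0,0,0,0,1] (⟨0,[(27,0),(3,0)]⟩,⟨0,[(16,0)]⟩)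
  .k 2 (⟨0,[(20,0)]⟩,⟨0,[(19,0)]⟩) .k (.r (-1) ⟨49,[(14,24),(2,8),(0,8),(3,49),(11,4),(5,30),(1,
  11)]⟩ ⟨2,[(1,0),(2,0),(5,0),(1,0)]⟩)) t95 t96

theorem ok97 : chk K t97 l55 = true :=
  chk_Q (e' := [0,0,1,0,0,0,1,0,-1,1,1,-1]) (by decide +kernel) (by decide +kernel) ok95 ok96

noncomputable def t99 : Tre :=
  .Q [0,0,0,0,0,1,0,0,0,-1,0,1] (.ed false [0,1,0,0,1] .k) t97 t98

theorem ok99 : chk K t99 r54 = true :=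
  chk_Q (e' := [0,0,0,0,0,-1,0,0,0,1,0,-1]) (by decide +kernel) (by decide +kernel) ok97 ok98

noncomputable def t100 : Tre :=
  .Q [0,0,1,0,0,0,0,0,-1,1,0,-1] (.p false [0,0,0,0,1] [1] (⟨0,[(18,0)]⟩,⟨0,[(17,0)]⟩) .k 1 (⟨0,[]⟩,
  ⟨0,[]⟩) .k .k) t92 t99

theorem ok100 : chk K t100 l53 = true :=
  chk_Q (e' := [0,0,-1,0,0,0,0,0,1,-1,0,1]) (by decide +kernel) (by decide +kernel) ok92 ok99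

noncomputable def t102 : Tre :=
  .Q [0,0,0,0,0,0,1,0,1,-1,1,1] (.p true [0,0,1] [1,0,0,0,-1] (⟨0,[(24,0)]⟩,⟨0,[(23,0)]⟩) .k 2 (⟨0,
  [(16,0)]⟩,⟨0,[(17,0)]⟩) .k (.r (-1) ⟨9,[(11,4),(2,2),(0,2),(3,9),(11,0),(5,4)]⟩ ⟨0,[(7,0),(0,0),
  (25,0)]⟩)) t100 t101

theorem ok102 : chk K t102 r52 = true :=
  chk_Q (e' := [0,0,0,0,0,0,-1,0,-1,1,-1,-1]) (by decide +kernel) (by decide +kernel) ok100 ok101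

noncomputable def t103 : Tre :=
  .Q [1,-1,0,0,0,0,-1,-1,1,0,-1,1] (.p false [0,0,1] [0,0,0,0,1] (⟨0,[(23,0)]⟩,⟨0,[(22,0)]⟩) .k 2
  (⟨0,[(16,0)]⟩,⟨0,[(15,0)]⟩) .k (.r (-1) ⟨49,[(10,24),(2,8),(0,8),(3,49),(11,4),(5,30),(1,11)]⟩ ⟨0,
  [(6,0),(2,0)]⟩)) t91 t102

theorem ok103 : chk K t103 r51 = true :=
  chk_Q (e' := [-1,1,0,0,0,0,1,1,-1,0,1,-1]) (by decide +kernel) (by decide +kernel) ok91 ok102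

noncomputable def t104 : Tre :=
  .Q [1,0,0,0,0,0,1,1,1,-1,1,1] (.p true [0,0,1] [1,0,0,0,-1] (⟨0,[(22,0)]⟩,⟨0,[(21,0)]⟩) .k 2 (⟨0,
  [(14,0)]⟩,⟨0,[(15,0)]⟩) .k (.r (-1) ⟨9,[(9,4),(2,2),(0,2),(3,9),(11,0),(5,4)]⟩ ⟨0,[(5,0),(0,0),
  (25,0)]⟩)) t90 t103

theorem ok104 : chk K t104 l50 = true :=
  chk_Q (e' := [-1,0,0,0,0,0,-1,-1,-1,1,-1,-1]) (by decide +kernel) (by decide +kernel) ok90 ok103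

noncomputable def t106 : Tre :=
  .Q [1,0,0,0,0,0,0,0,1,-1,0,1] (.p true [0,0,0,0,1] [1] (⟨0,[(14,0)]⟩,⟨0,[(13,0)]⟩) .k 1 (⟨0,[]⟩,
  ⟨0,[]⟩) .k .k) t104 t105

theorem ok106 : chk K t106 r49 = true :=
  chk_Q (e' := [-1,0,0,0,0,0,0,0,-1,1,0,-1]) (by decide +kernel) (by decide +kernel) ok104 ok105

noncomputable def t107 : Tre :=
  .Q [1,-1,0,0,0,0,-1,0,1,0,-1,1] (.p false [0,0,1] [0,0,0,0,1] (⟨0,[(20,0)]⟩,⟨0,[(19,0)]⟩) .k 2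
  (⟨0,[(13,0)]⟩,⟨0,[(12,0)]⟩) .k (.r (-1) ⟨49,[(7,24),(2,8),(0,8),(3,49),(11,4),(5,30),(1,11)]⟩ ⟨0,
  [(3,0),(2,0)]⟩)) t89 t106

theorem ok107 : chk K t107 r48 = true :=
  chk_Q (e' := [-1,1,0,0,0,0,1,0,-1,0,1,-1]) (by decide +kernel) (by decide +kernel) ok89 ok106

noncomputable def t108 : Tre :=
  .Q [0,0,0,-1,0,0,-1,-1,0,1,-1] (.p false [0,0,1] [1] (⟨0,[(19,0)]⟩,⟨0,[(18,0)]⟩) .k 1 (⟨0,[]⟩,⟨0,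
  []⟩) .k .k) t88 t107

theorem ok108 : chk K t108 l47 = true :=
  chk_Q (e' := [0,0,0,1,0,0,1,1,0,-1,1]) (by decide +kernel) (by decide +kernel) ok88 ok107

noncomputable def t110 : Tre :=
  .Q [0,0,0,1,0,0,0,0,0,-1] (.pp true [-1,1]) t108 t109

theorem ok110 : chk K t110 r46 = true :=
  chk_Q (e' := [0,0,0,-1,0,0,0,0,0,1]) (by decide +kernel) (by decide +kernel) ok108 ok109

noncomputable def t111 : Tre :=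
  .Q [1,0,0,1,-1,0,0,0,1,-1,0,1] (.p true [0,0,0,0,1] [1] (⟨0,[(10,0)]⟩,⟨0,[(9,0)]⟩) .k 1 (⟨0,[]⟩,
  ⟨0,[]⟩) .k .k) t87 t110

theorem ok111 : chk K t111 r45 = true :=
  chk_Q (e' := [-1,0,0,-1,1,0,0,0,-1,1,0,-1]) (by decide +kernel) (by decide +kernel) ok87 ok110

noncomputable def t112 : Tre :=
  .Q [0,0,0,0,0,0,-1,0,0,0,-1] (.p false [0,0,1] [] (⟨0,[(16,0)]⟩,⟨0,[(15,0)]⟩) .k 0 (⟨0,[]⟩,⟨0,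
  []⟩) .k .k) t86 t111

theorem ok112 : chk K t112 l44 = true :=
  chk_Q (e' := [0,0,0,0,0,0,1,0,0,0,1]) (by decide +kernel) (by decide +kernel) ok86 ok111

noncomputable def t114 : Tre :=
  .Q [0,-1,0,1,0,0,-1,-1,0,0,-1] (.p false [0,0,1] [] (⟨0,[(15,0)]⟩,⟨0,[(14,0)]⟩) .k 0 (⟨0,[]⟩,⟨0,
  []⟩) .k .k) t112 t113

theorem ok114 : chk K t114 r43 = true :=
  chk_Q (e' := [0,1,0,-1,0,0,1,1,0,0,1]) (by decide +kernel) (by decide +kernel) ok112 ok113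

noncomputable def t115 : Tre :=
  .I [1,0,-1,0,0,0,0,2] t85 t114

theorem ok115 : chk K t115 r0 = true :=
  chk_I (e' := [0,0,1,0,0,0,0,-2]) (by decide +kernel) (by decide +kernel) ok85 ok114

noncomputable def t116 : Tre :=
  .Q [0,0,0,0,0,0,1,1,0,0,1] (.p true [0,0,1] [] (⟨0,[(13,0)]⟩,⟨0,[(12,0)]⟩) .k 0 (⟨0,[]⟩,⟨0,[]⟩)
  .k .k) t84 t115

theorem ok116 : chk K t116 base = true :=
  chk_Q (e' := [0,0,0,0,0,0,-1,-1,0,0,-1]) (by decide +kernel) (by decide +kernel) ok84 ok115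

theorem closed {p a b c J l q : ℤ} {D dl : ℝ} {Cl : ℤ → ℤ → ℤ → ℤ → ℝ → Prop}
    (W : World p a b c J 1 l q D dl Cl) (g : G0 p a b c J D)
    {N X R : ℤ} {I : ℝ} (hk : KCl p l Cl N X R I) (kz : KF a b D (X + (1 : ℤ) * I) (X + (1 : ℤ) * I + R) I)
    {Ne Xe : ℤ} {Ie : ℝ} (he : EFac p 1 D Cl 1 Ne Xe Ie)
    (hkf : ∀ kf ∈ (kfY 1 [0,0,0,0,0,0,1,0,0,0,1]), KOk p l Cl 1
      (xv [1, a, b, c, p, J, X, R, Xe] [D, I, Ie]) N kf)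
    (h0 : 1 ≤ (c : ℝ))
    (h1 : 1 ≤ (a : ℝ) - (b : ℝ))
    (h2 : 1 ≤ 1 - (a : ℝ) + (b : ℝ) + (c : ℝ))
    (h3 : 0 < 1 + 2 * (p : ℝ) - 5 * D)
    (h4 : 1 ≤ 2 * (a : ℝ) - (b : ℝ))
    (h5 : 1 ≤ -1 + (J : ℝ))
    (h6 : 1 ≤ 3 - (J : ℝ))
    (h7 : 0 < -(b : ℝ) - (X : ℝ) + D - I)
    (h8 : 0 < (J : ℝ) - I)
    (h9 : 0 < (J : ℝ) - D + I)
    (h10 : 0 < -2 * (X : ℝ) + D - 2 * I) : False := by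
  have g1 := g.a2
  have g2 := g.b2
  have g3 := g.pa
  have g4 := g.pb
  have g5 := g.J1
  have g6 := g.JD
  have g7 := g.D2
  have g8 := g.ca
  have g9 := g.ca'
  have k1 := kz.I0
  have k2 := kz.ID
  have k3 := kz.z1
  have k4 := kz.z2
  have k5 := kz.s1
  have k6 := kz.s2
  have e1 := he.I0
  have e2 := he.ID
  have e3 := he.x0
  have e4 := he.xp
  push_cast at *
  refine (val_E W.toBase hk he (row := [1]) (by simp) (by simp) (kfY 1 [0,0,0,0,0,0,1,0,0,0,1])).sound W rfl (Nk := N)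
    (fun kf _ _ => ⟨_, rfl⟩) hkf ?_ ok116
  · simp only [base, List.forall_mem_cons, List.not_mem_nil, false_imp_iff, implies_true,
      and_true, hld, xv, evg_cons, evg_nil, List.map_cons, List.map_nil, List.cons_append,
      List.nil_append, if_true, if_false, Bool.false_eq_true]
    push_cast
    refine ⟨?_, ?_, ?_, ?_, ?_, ?_, ?_, ?_, ?_, ?_, ?_, ?_, ?_, ?_, ?_, ?_, ?_, ?_, ?_, ?_, ?_, ?_, ?_, ?_, ?_, ?_, ?_, ?_, ?_⟩ <;> linarith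

end Helper25.S1T.Ypp_2_P2_m0n0
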