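import Pool.Agent.Helper81.PC.Sound
import Pool.Agent.Helper25.S1T.Ypp_2_P2_m0n0_q

set_option autoImplicit false
set_option linter.all false

namespace Helper25.S1T.Ypp_2_P2_m0n0

open Helper25.KG Helper25.KW Helper55.KE Helper11.CT

noncomputable def t0 : Tre :=
  (.I [1,-1,-1,-1,1,0,0,1] (.R ⟨2,true,false,false,[0,1],[0,0,1],[0,1,1,1],(⟨0,[]⟩,⟨0,[]⟩),(⟨0,[(17,
  0)]⟩,⟨0,[(16,0)]⟩),⟨0,[]⟩,.k,.k,.k,.k,.k,.k,⟨false,0,⟨0,[(2,0),(11,0),(11,0)]⟩,⟨0,[(0,0)]⟩⟩,⟨true,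
  0,⟨0,[(14,0)]⟩,⟨0,[(1,0)]⟩⟩,⟨true,0,⟨0,[(32,0)]⟩,⟨0,[]⟩⟩,⟨false,1,⟨0,[(0,0),(13,0)]⟩,⟨0,[(2,0)]⟩⟩,
  ⟨false,0,⟨0,[(28,0)]⟩,⟨0,[(27,0),(2,0)]⟩⟩,⟨true,0,⟨0,[(3,0)]⟩,⟨0,[(13,0)]⟩⟩,[]⟩) (.I [0,0,0,0,0,0,
  0,1] (.I [0,0,0,0,1,0,0,0,-1] (.I [0,0,0,0,0,1,1,1] (.C [(0,0),(2,0),(4,0),(5,0),(6,1),(8,0),(2,
  0)]) (.C [(0,0),(5,0),(2,0)])) (.C [(0,0),(8,0),(2,0)])) (.C [(0,0),(1,0),(1,0)])))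

theorem ok0 : chk K t0 l2 = true := by decide +kernel

noncomputable def t1 : Tre :=
  (.R ⟨2,true,false,true,[0,1],[1,0,0,0,-1],[0,0,1,1],(⟨0,[]⟩,⟨0,[]⟩),(⟨0,[(10,0)]⟩,⟨0,[(11,0)]⟩),
  ⟨0,[]⟩,.k,.k,.k,(.r 0 ⟨0,[(26,0),(6,0)]⟩ ⟨1,[(28,1),(1,0),(0,0)]⟩),.k,.k,⟨true,0,⟨0,[(26,0)]⟩,⟨0,
  [(28,0)]⟩⟩,⟨false,1,⟨0,[(8,0),(8,0),(0,0)]⟩,⟨1,[(0,1),(27,1),(1,0),(0,0)]⟩⟩,⟨false,1,⟨1,[(8,0),(0,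
  0),(21,0)]⟩,⟨0,[]⟩⟩,⟨true,1,⟨0,[(8,0),(8,0),(0,0),(9,0)]⟩,⟨0,[(0,0)]⟩⟩,⟨true,0,⟨0,[(29,0)]⟩,⟨0,
  [(28,0)]⟩⟩,⟨false,1,⟨0,[(8,0),(13,0),(0,0)]⟩,⟨0,[(0,0),(27,0),(2,0)]⟩⟩,[]⟩)

theorem ok1 : chk K t1 l4 = true := by decide +kernel

noncomputable def t2 : Tre :=
  (.I [1,0,0,0,0,0,0,1] (.N [0,0,1] 0 ⟨0,[(0,0)]⟩ ⟨0,[(1,0)]⟩ .k) (.I [0,0,0,0,1,0,0,0,-1] (.I [0,0,
  1,0,0,0,0,1] (.I [0,0,-1,0,0,1,-1] (.C [(0,0),(2,0),(5,0),(2,0),(11,1),(12,0)]) (.C [(0,0),(10,0),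
  (5,0)])) (.C [(0,0),(7,0),(11,0)])) (.C [(0,0),(10,0),(2,0)])))

theorem ok2 : chk K t2 l5 = true := by decide +kernel

noncomputable def t3 : Tre :=
  (.R ⟨0,false,false,false,[1,0,-1],[0,0,0,0,1],[1,0,1],(⟨0,[(20,0)]⟩,⟨0,[(21,0)]⟩),(⟨0,[(14,0)]⟩,
  ⟨0,[(13,0)]⟩),⟨0,[(9,0)]⟩,.k,.k,.k,.k,.k,.k,⟨true,0,⟨1,[(18,0),(0,0)]⟩,⟨0,[]⟩⟩,⟨false,0,⟨0,[(0,0),
  (3,0),(2,0)]⟩,⟨1,[(3,0),(4,0),(2,0),(20,0)]⟩⟩,⟨true,0,⟨0,[(7,0),(11,0)]⟩,⟨0,[(4,0)]⟩⟩,⟨false,0,⟨0,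
  [(0,0),(6,0)]⟩,⟨0,[(3,0),(2,0)]⟩⟩,⟨false,0,⟨0,[]⟩,⟨0,[]⟩⟩,⟨false,0,⟨0,[]⟩,⟨0,[]⟩⟩,[.e ⟨false,0,⟨0,
  []⟩,⟨1,[(11,0),(0,0),(20,0)]⟩⟩ ⟨false,0,⟨0,[(0,0),(3,0),(2,0)]⟩,⟨1,[(3,0),(4,0),(2,0),(20,0)]⟩⟩,
  .o ⟨false,0,⟨0,[(0,0)]⟩,⟨0,[(11,0),(24,0)]⟩⟩,.a ⟨true,0,⟨1,[(8,0),(11,0),(0,0)]⟩,⟨0,[(5,0)]⟩⟩
  ⟨true,0,⟨1,[(18,0),(0,0)]⟩,⟨0,[(30,0)]⟩⟩ ⟨false,0,⟨0,[(0,0),(4,0)]⟩,⟨1,[(3,0),(4,0),(2,0),(20,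
  0)]⟩⟩,.o ⟨false,0,⟨0,[(19,0)]⟩,⟨4,[(5,3),(12,0),(9,0),(4,2)]⟩⟩]⟩)

theorem ok3 : chk K t3 l7 = true := by decide +kernel

noncomputable def t4 : Tre :=
  (.R ⟨0,false,false,false,[1,-1],[1,-1,1],[1],(⟨0,[(26,0)]⟩,⟨0,[(27,0)]⟩),(⟨0,[(22,0),(3,0)]⟩,⟨0,
  [(11,0)]⟩),⟨0,[(10,0),(0,0)]⟩,.k,.k,(.x 0 ⟨0,[(19,0),(0,0),(6,1)]⟩ ⟨0,[(3,1),(1,1),(17,1),(11,
  0)]⟩),.k,.k,.k,⟨false,0,⟨0,[(5,0),(24,0)]⟩,⟨2,[(0,2),(8,0),(6,0),(12,0),(4,0)]⟩⟩,⟨true,0,⟨0,[(6,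
  0)]⟩,⟨0,[(20,0)]⟩⟩,⟨false,0,⟨0,[(30,0)]⟩,⟨1,[(32,1),(1,0),(0,0)]⟩⟩,⟨true,0,⟨0,[(8,0)]⟩,⟨0,[(18,
  0)]⟩⟩,⟨false,0,⟨0,[]⟩,⟨0,[]⟩⟩,⟨false,0,⟨0,[]⟩,⟨0,[]⟩⟩,[.a ⟨true,0,⟨0,[(0,0)]⟩,⟨0,[(7,0)]⟩⟩ ⟨true,
  0,⟨0,[]⟩,⟨1,[(19,0),(0,0)]⟩⟩ ⟨false,1,⟨3,[(0,3),(2,5),(1,5),(4,3),(0,3),(11,7),(10,0),(0,2)]⟩,⟨1,
  [(7,1),(11,0),(0,0)]⟩⟩,.o ⟨false,1,⟨14,[(0,13),(3,0),(8,0),(3,0),(11,2),(5,7)]⟩,⟨0,[(3,0),(1,0),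
  (1,0),(2,0),(0,0),(11,1),(12,0)]⟩⟩,.o ⟨false,0,⟨1,[(19,0),(0,0)]⟩,⟨9,[(12,0),(0,0),(15,1),(4,
  4)]⟩⟩,.o ⟨false,0,⟨0,[(19,0),(0,0)]⟩,⟨3,[(3,5),(1,5),(4,3),(0,3),(11,7),(10,0),(0,2)]⟩⟩]⟩)

theorem ok4 : chk K t4 l8 = true := by decide +kernel

noncomputable def t5 : Tre :=
  (.Q [0,-1,0,2,0,0,0,0,0,-1] (.pp true [-1,1]) (.R ⟨2,true,false,true,[0,1],[1,-1],[0,1,1,1],(⟨0,
  []⟩,⟨0,[]⟩),(⟨0,[(28,0)]⟩,⟨0,[(29,0)]⟩),⟨0,[]⟩,.k,.k,.k,(.r 1 ⟨0,[(1,0)]⟩ ⟨0,[(34,1),(1,0),(0,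
  0)]⟩),.k,.k,⟨true,(-1),⟨0,[(1,0)]⟩,⟨0,[(8,0),(3,0),(0,0),(4,0),(6,1),(8,1),(2,0)]⟩⟩,⟨false,0,⟨1,
  [(11,0),(9,1),(1,0),(0,0)]⟩,⟨3,[(5,5),(1,5),(4,3),(0,3),(11,7),(10,0),(0,2)]⟩⟩,⟨true,0,⟨0,[(39,
  0)]⟩,⟨0,[]⟩⟩,⟨false,1,⟨0,[(23,0),(0,0),(9,1),(2,0)]⟩,⟨0,[(0,0)]⟩⟩,⟨false,0,⟨0,[(35,0)]⟩,⟨0,[(34,
  0),(2,0)]⟩⟩,⟨true,0,⟨0,[(23,0),(0,0),(9,0)]⟩,⟨0,[(0,0),(33,0)]⟩⟩,[]⟩) (.I [1,0,0,0,0,0,0,0,1] (.I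
  [0,0,0,0,0,1,1] (.I [0,0,0,1,0,-1,0,-1] (.I [0,0,-1,1,0,0,0,-1] (.I [0,1,0,-1,0,0,0,-1] (.C [(0,
  1),(2,1),(2,0),(3,1),(6,1),(5,1),(6,3),(11,0)]) (.C [(0,0),(4,0),(1,0),(5,0)])) (.C [(0,0),(5,0),
  (5,1),(9,0)])) (.C [(0,0),(4,0),(5,0),(19,0)])) (.C [(0,0),(9,0),(4,0)])) (.C [(0,0),(4,0),(11,
  0)])))

theorem ok5 : chk K t5 l9 = true := by decide +kernel

noncomputable def t6 : Tre :=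
  (.R ⟨0,false,false,true,[0,0,1],[1,-1],[1],(⟨0,[(24,0)]⟩,⟨0,[(23,0)]⟩),(⟨0,[(28,0)]⟩,⟨0,[(29,
  0)]⟩),⟨0,[(13,0)]⟩,.k,.k,.k,.k,.k,.k,⟨true,0,⟨0,[(32,0)]⟩,⟨0,[(34,0)]⟩⟩,⟨false,0,⟨1,[(11,0),(11,
  0),(0,0)]⟩,⟨4,[(8,3),(12,0),(9,0),(4,2)]⟩⟩,⟨false,1,⟨39,[(0,9),(6,19),(1,9),(4,0),(0,0),(5,19),(9,
  1),(5,34)]⟩,⟨0,[(5,0)]⟩⟩,⟨true,0,⟨0,[(0,0)]⟩,⟨0,[(2,0),(7,1)]⟩⟩,⟨false,0,⟨0,[]⟩,⟨0,[]⟩⟩,⟨false,0,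
  ⟨0,[]⟩,⟨0,[]⟩⟩,[.o ⟨false,0,⟨0,[(34,0)]⟩,⟨9,[(14,0),(0,0),(15,1),(3,9),(1,4)]⟩⟩,.o ⟨false,1,⟨8,
  [(6,4),(8,4),(15,0),(2,3),(2,1)]⟩,⟨0,[(2,0),(7,0)]⟩⟩,.e ⟨true,0,⟨0,[]⟩,⟨0,[(39,0)]⟩⟩ ⟨true,0,⟨1,
  [(0,0),(9,0),(0,0),(22,0)]⟩,⟨0,[(2,0),(5,0),(1,0)]⟩⟩,.a ⟨true,0,⟨0,[(21,0)]⟩,⟨0,[(18,0)]⟩⟩ ⟨false,
  1,⟨1,[(36,0),(0,0)]⟩,⟨1,[(21,0),(0,0)]⟩⟩ ⟨true,0,⟨0,[(18,0),(15,0)]⟩,⟨0,[(2,0),(7,0),(10,0)]⟩⟩]⟩)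

theorem ok6 : chk K t6 l10 = true := by decide +kernel

open Helper55.PC in
noncomputable def t7n : Helper55.PC.Ten :=
  (q
  182914954131434524878600736867774203307594771562648700070952581444060886488924586526052620356128231044697639996750541576284684908511588843126796
  (k
  324182883488559903432267174805239993754263272069378908637607884585227066856030693856995450651328483252503685482823630663031940651817355519132311884026777333860241415167012297016424)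
  (r
  38565219503675264749440540109829188333841538421635277501458642964813204586955162234437750721055288875403212849312164350923549760589609143084954495895274888122312562609078690499471541747784134675321882329047602980983582884342741160862346910173899175746395024025988277739466693428832574957560230135500189290159097498070899123176531698271297624327308977200799132609566878240097131675690919495997863683725441179960982412039534041186802195070463270179210040193042882784))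

noncomputable def t7 : Tre := Helper55.PC.toT t7n

theorem ok7 : chk K t7 l11 = true :=
  Helper55.PC.chkN_sound K t7n l11 (by decide +kernel)

noncomputable def t8 : Tre :=
  (.N [0,2] 1 ⟨0,[(0,0)]⟩ ⟨0,[(3,0)]⟩ (.x (-1) ⟨22,[(2,11),(0,11),(0,11),(22,6),(2,38),(2,2),(1,11),
  (2,4)]⟩ ⟨0,[(23,0),(0,0),(6,1)]⟩))

theorem ok8 : chk K t8 l12 = true := by decide +kernel

noncomputable def t9 : Tre :=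
  (.R ⟨0,false,false,true,[1,0,-1],[1,0,0,0,-1],[1,1],(⟨0,[(27,0)]⟩,⟨0,[(28,0)]⟩),(⟨0,[(20,0)]⟩,⟨0,
  [(21,0)]⟩),⟨0,[(16,0)]⟩,.k,.k,.k,.k,.k,.k,⟨true,0,⟨0,[]⟩,⟨0,[(42,0)]⟩⟩,⟨false,1,⟨3,[(2,0),(1,1),
  (2,1),(3,1),(0,1),(5,1),(22,0)]⟩,⟨1,[(3,0),(11,0),(3,0)]⟩⟩,⟨false,0,⟨0,[(9,0)]⟩,⟨1,[(11,0),(12,0),
  (0,0),(15,1)]⟩⟩,⟨true,0,⟨0,[(1,0),(12,0)]⟩,⟨0,[(0,0)]⟩⟩,⟨false,0,⟨0,[]⟩,⟨0,[]⟩⟩,⟨false,0,⟨0,[]⟩,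
  ⟨0,[]⟩⟩,[.o ⟨false,0,⟨0,[(1,0)]⟩,⟨9,[(18,0),(0,10),(15,1),(5,4)]⟩⟩,.o ⟨false,1,⟨3,[(1,0),(16,2),
  (22,0),(1,0)]⟩,⟨0,[(8,0)]⟩⟩,.a ⟨true,0,⟨1,[(15,0),(11,0),(0,0)]⟩,⟨0,[(12,0)]⟩⟩ ⟨false,0,⟨0,[]⟩,⟨1,
  [(18,0),(0,0),(21,0)]⟩⟩ ⟨true,0,⟨0,[(1,0),(10,0)]⟩,⟨1,[(8,0),(6,0),(3,0)]⟩⟩,.o ⟨false,0,⟨0,[(26,
  0)]⟩,⟨4,[(12,3),(12,0),(9,0),(4,2)]⟩⟩]⟩)

theorem ok9 : chk K t9 l14 = true := by decide +kernel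

noncomputable def t10 : Tre :=
  (.K ⟨0,[1,0,0,0,-1],0,0,(⟨0,[(21,0)]⟩,⟨0,[(22,0)]⟩),.k,(.r (-1) ⟨61,[(3,20),(7,19),(8,19),(15,3),
  (4,9),(0,2),(1,5)]⟩ ⟨0,[(37,0),(6,0)]⟩),(.r 0 ⟨0,[(37,0),(6,0)]⟩ ⟨27,[(3,8),(7,9),(8,9),(15,1),(4,
  4)]⟩),.k,.k,[⟨0,[(4,0),(8,0)]⟩,⟨0,[(0,0)]⟩,⟨0,[(9,0),(34,0)]⟩,⟨0,[(8,0)]⟩]⟩)

theorem ok10 : chk K t10 l15 = true := by decide +kernel

noncomputable def t11 : Tre :=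
  (.R ⟨0,false,false,true,[0,0,1],[1,0,0,0,-1],[1,1],(⟨0,[(30,0)]⟩,⟨0,[(29,0)]⟩),(⟨0,[(22,0)]⟩,⟨0,
  [(23,0)]⟩),⟨0,[(19,0)]⟩,.k,.k,.k,.k,.k,.k,⟨true,0,⟨0,[]⟩,⟨0,[(44,0)]⟩⟩,⟨false,1,⟨0,[(20,0),(3,
  0)]⟩,⟨1,[(0,0),(4,0),(7,0),(13,0)]⟩⟩,⟨true,0,⟨1,[(13,0),(12,0),(0,0)]⟩,⟨0,[(11,0)]⟩⟩,⟨false,1,⟨0,
  [(12,0),(2,0)]⟩,⟨0,[(0,0)]⟩⟩,⟨false,0,⟨0,[]⟩,⟨0,[]⟩⟩,⟨false,0,⟨0,[]⟩,⟨0,[]⟩⟩,[.o ⟨false,0,⟨0,[(3,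
  0)]⟩,⟨9,[(20,0),(0,10),(15,1),(5,4)]⟩⟩,.o ⟨false,1,⟨3,[(3,0),(16,2),(22,0),(1,0)]⟩,⟨0,[(10,0)]⟩⟩,
  .a ⟨true,0,⟨0,[(14,0)]⟩,⟨1,[(17,0),(11,0),(0,0)]⟩⟩ ⟨false,0,⟨0,[]⟩,⟨1,[(20,0),(0,0),(21,0)]⟩⟩
  ⟨true,0,⟨1,[(3,0),(5,0),(7,0)]⟩,⟨1,[(0,0),(9,0),(2,0),(13,0)]⟩⟩,.e ⟨true,0,⟨0,[(39,0)]⟩,⟨1,[(27,
  0),(0,0)]⟩⟩ ⟨true,0,⟨0,[(3,0),(20,0)]⟩,⟨0,[(10,0),(16,0)]⟩⟩]⟩)

theorem ok11 : chk K t11 l16 = true := by decide +kernel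

noncomputable def t12 : Tre :=
  (.K ⟨0,[2,0,-1,0,-1],0,0,(⟨0,[(26,0),(6,0)]⟩,⟨0,[(3,0)]⟩),.k,(.r (-1) ⟨1,[(8,0),(8,0),(12,0),(0,
  0),(15,0)]⟩ ⟨3,[(10,0),(10,0),(7,2),(2,1),(9,1),(2,0)]⟩),(.r 0 ⟨2,[(17,0),(1,1),(11,1),(10,0),(5,
  0)]⟩ ⟨13,[(8,6),(6,3),(5,4),(7,9),(11,0),(5,4)]⟩),.k,.k,[⟨0,[(1,0),(16,0)]⟩,⟨0,[(0,0)]⟩,⟨2,[(1,2),
  (13,1),(13,0),(2,0),(7,0)]⟩,⟨0,[(0,0),(16,0)]⟩]⟩)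

theorem ok12 : chk K t12 l20 = true := by decide +kernel

open Helper55.PC in
noncomputable def t13n : Helper55.PC.Ten :=
  (q
  59256994910955966751122419786394239989410425331786939737675655226728428357685289305718136349968578653930396305558776767376920997532358856727908144601995225282723577900
  (r
  107685174165202937790324861569675011140561242192506462374202397974268499932331150234770177033807253154926497931861571897978647245219867899230067603184068641016163529336751825180528144886686290058141896750597433260573891810901856529987397778487031915966182574726378237543386074038114903561443837847572204465193776854094198958470729707063160050412471983390024773325778562064520736103028197306989871287636083511000066076381531496057305434568358102244605227344801611760476431783852822950034876035327906860365956383729379884908907582081555148657215956333644134337335543203594361089027359314289344)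
  (i 72048799019040740 (i 2659429586849724576766467647708725257 (i 39609247324813207745247444999
  (c 12980979876159533014213168094773255) (c 703743276351491)) (c 9226890480506109956)) (c
  285924673879986405380)))

noncomputable def t13 : Tre := Helper55.PC.toT t13n

theorem ok13 : chk K t13 l21 = true :=
  Helper55.PC.chkN_sound K t13n l21 (by decide +kernel)

open Helper55.PC in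
noncomputable def t14n : Helper55.PC.Ten :=
  (q
  221130610843116783932960045639448337132467212884745173134300050017392069152335786160867686370250767503991628164432353773501871714973392438901701918329246985057510490188
  (r
  8784372735009388224532707650641008616642383046530001005972741348079097397781388011197168044437187941628957992061645228820905520531376302361986175378698822193856190060712043844575611245749245413220809686386327762090483431399717340947794745851216410432132774367016978744356391060444393046796493799105125634744066799174699267736609265749775945000589870841940253602499000797426529524811887655835701220309013277438543171080346499927043267603455750174567289908443152144243836478009083659888286245193)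
  (q
  57812377463496644051440781519916083816326704743622678213951825546705700825881697643918784944199047180748518783768736379454303623811462449451437834922050042394968140
  (r
  402468046685322776943114351754702329187085358259262513952343143286157512054865584185982486666390391966684621029060698459477671271816693574891628656149328755119162677219935908712932237110873083564654117125384464500769443976231347974087524097485758112775889639325370822726421768642411440206896835424001770439629855463836277750650349436431282351833851437294381572185024990940431805298757709944753601620314051332540216188102163070360968500175351094452585)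
  (q
  5076909841254782640340857437193908463675688665021062517939904820778130110801548101201875386150763929530641998413195959817076747
  (q
  5816329275806365133964852542609644299023094794999926496749477208527544060296670328467450469891385507427949310735200172059187221702508555
  (r
  19830900416256827660272177168530723611294395648027926300697190235107177366533075948932822728052289746685930958040932697087259653756868772886264762865617424505809672849513248653006950043269576105997747259592028745463904458539210285914145117788983354220047880793082753918989943088678100461680180458323656663974439063632587695109655052305318331302119806752092764957585911231889264307977629747658069413934631406001116296839836968023500264923327432420457042869865332083857691824407323492906016408577457363565844628493733327337693376)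
  (i 324399716250949120709628203761704 (q
  11263650038168023128519000134557870652032341041727660977022535177332719627 (r
  91212911536254032518413791234630721193865324222568214882223294970934117501359784051433232685732464952563656470436852222958460215042834498041548714244548299530260294938107719578892513404788265441941753543821954166368060471529269990514434848249650041859763900282131491733914309065981522671798749172307698442013812225788174670220110977875394683821952584400180153990448012420459503834832839812320279440095260240093474581621835675535107592009830131528861984144213585789099270539443764504242618152992340969633005243737512219488455463412027330208435967872787249297379206374112)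
  (i 39628590137927041814190227463 (c 7254514148520345435373573) (c 563005787996163))) (q
  16300826564389869725086932592641796585245120529458478351715573190791235918616165778186174475 (r
  2881295313053097110516227002787371114520185682795184882206763571264725544892976283750616745004787831116970487011941704835057340397747237894698622646666882435608553755962500873653025803755276501128473379738786487762153738360824327814113251824524272199557622459929243283544572294124293704881893846509729201318771699872020082757164109646772991055074919061297558516478727989295124409520925030768778)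
  (i 39628590137927041814190227463 (c 7254514148520345435373573) (c 563005787996163))))) (q
  5076909841254783842794660377332706688559324849163718117064512865608922936470134592344277274205055215089266904327953836169887755
  (r
  58223904404658216195261571354263623985570862505200869699446838383388625042089156397084455185165678003001041631875671662964876569511337391150558864544698016353604400469959018779255279379809015402386056510975293500064401923925578253876562438372473326539734666988581840245732158619069240060606883677934616748051891876732829536574316688887557092921500830675460941358619087107673179335490512001092731949005102534947701492018704346141610423467399055749610073576167579019831711905302440714518653489325382030381177216953515736887348045816000)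
  (q 14228531928131762201074156718147121511713513973397769271624019240833289855975948299 (r
  551676734321536166174700784544291624372961043442778103387441533717181476059487282980363103749002757640055857361811794370725921193914325997393781731421101914721432885645721571294428506339813936977555325433017640399064255558687450817257040569530244573667957847774458660989864881290197486135566415911195184865288787110902457963960875382438319621358914259865097232968106810023180768956471961983877114797299775786432267952221485150109922008776706546133886032421088)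
  (i 39628590137927041814190227463 (c 7254514148379607947018245) (c 563003640512515)))))))

noncomputable def t14 : Tre := Helper55.PC.toT t14n

theorem ok14 : chk K t14 l22 = true :=
  Helper55.PC.chkN_sound K t14n l22 (by decide +kernel)

noncomputable def t15 : Tre :=
  (.R ⟨0,false,false,false,[1,0,-1],[0,1,0,0,-1],[-1,0,2,1],(⟨0,[(36,0)]⟩,⟨0,[(37,0)]⟩),(⟨0,[(1,
  0)]⟩,⟨0,[(30,0),(10,0)]⟩),⟨0,[(25,0)]⟩,.k,(.r 0 ⟨0,[(45,0),(6,0)]⟩ ⟨27,[(0,4),(10,8),(7,4),(12,4),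
  (11,1),(4,4),(0,4)]⟩),.k,(.r (-1) ⟨45,[(0,7),(3,5),(2,13),(3,18),(8,23),(13,15),(9,1),(5,22)]⟩ ⟨1,
  [(18,0),(13,0),(2,0),(9,0),(2,0)]⟩),.k,.k,⟨true,0,⟨1,[(34,0),(0,0)]⟩,⟨0,[]⟩⟩,⟨false,1,⟨7,[(2,5),
  (4,3),(1,5),(10,1),(6,3),(21,0),(0,2)]⟩,⟨0,[(0,0),(17,0),(26,0)]⟩⟩,⟨false,0,⟨2,[(18,0),(4,1),(11,
  1),(9,2),(5,0)]⟩,⟨1,[(11,0),(8,1),(29,0)]⟩⟩,⟨true,0,⟨0,[(10,0),(2,0)]⟩,⟨0,[(0,0)]⟩⟩,⟨false,0,⟨0,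
  []⟩,⟨0,[]⟩⟩,⟨false,0,⟨0,[]⟩,⟨0,[]⟩⟩,[.o ⟨false,0,⟨0,[(9,0),(5,0)]⟩,⟨4,[(0,4),(22,3),(8,0),(11,0),
  (5,2)]⟩⟩,.o ⟨false,1,⟨1,[(10,0),(2,0),(1,0),(11,0),(22,0)]⟩,⟨1,[(0,0),(16,0),(5,0),(23,0)]⟩⟩,.a
  ⟨true,0,⟨1,[(24,0),(11,0),(0,0)]⟩,⟨0,[(21,0)]⟩⟩ ⟨false,0,⟨3,[(34,0),(0,0),(9,3),(5,1)]⟩,⟨1,[(11,
  0),(37,0)]⟩⟩ ⟨true,0,⟨0,[(9,0),(5,0),(5,0)]⟩,⟨0,[(0,0),(17,0)]⟩⟩,.o ⟨false,0,⟨0,[(35,0)]⟩,⟨4,[(21,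
  3),(12,0),(9,0),(4,2)]⟩⟩]⟩)

theorem ok15 : chk K t15 l23 = true := by decide +kernel

open Helper55.PC in
noncomputable def t16n : Helper55.PC.Ten :=
  (i 72048796871557188 (r
  9286121738055570479122315473786091894125201927431828903959441972652712247397187549987753083575996473615493005850516436321402744834292367856566528344758680975496913291870321541354782598859844460950242867770503888262190276876689787399902344415034298379312478361126764336353560324746945076329264018726845992604843828580564951065951603546707895883755587669820916675639532856976869675591414940208505332539003645802281826344402670605565374421296954861987957670337390918355372000812397788609700848450036822088419535353034278138424130659543823856534813044521160608509257167425298654227143013962676906514974577630347103205323249594686533514289402536683639355198523270625315528896)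
  (i 39628590137927041814190227463 (c 20771960434334456495082931847430151) (c
  138351002771729154052)))

noncomputable def t16 : Tre := Helper55.PC.toT t16n

theorem ok16 : chk K t16 l24 = true :=
  Helper55.PC.chkN_sound K t16n l24 (by decide +kernel)

noncomputable def t17 : Tre :=
  (.R ⟨1,true,false,false,[2,0,-1,0,-1],[1,-1,0,0,1],[2,0,-1,-1],(⟨0,[(1,0),(43,0)]⟩,⟨0,[(9,0)]⟩),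
  (⟨0,[(33,0),(10,0)]⟩,⟨0,[(4,0)]⟩),⟨0,[(1,0)]⟩,.k,(.r (-1) ⟨27,[(14,8),(7,9),(8,9),(15,1),(4,4)]⟩
  ⟨0,[(48,0),(6,0)]⟩),(.r (-1) ⟨1,[(14,0),(8,0),(12,0),(0,0),(15,0)]⟩ ⟨3,[(16,0),(10,0),(7,2),(2,1),
  (9,1),(2,0)]⟩),(.r 0 ⟨2,[(23,1),(1,0),(11,0),(10,1),(5,1)]⟩ ⟨27,[(0,4),(13,8),(6,17),(0,9),(4,4),
  (7,4),(11,1),(4,4)]⟩),.k,.k,⟨true,0,⟨0,[]⟩,⟨1,[(37,0),(0,0)]⟩⟩,⟨false,0,⟨3,[(0,1),(6,0),(15,1),(7,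
  2),(5,0),(16,0)]⟩,⟨4,[(3,2),(6,2),(3,0),(7,0),(4,0),(2,2),(3,2)]⟩⟩,⟨false,1,⟨1,[(14,0),(6,1),(31,
  0)]⟩,⟨2,[(23,1),(1,0),(11,0),(10,1),(5,1)]⟩⟩,⟨true,0,⟨0,[(0,0),(49,0)]⟩,⟨0,[(2,0),(16,0)]⟩⟩,⟨true,
  0,⟨3,[(5,0),(6,0),(8,2),(12,1)]⟩,⟨4,[(23,1),(12,2),(0,2),(16,3)]⟩⟩,⟨false,0,⟨0,[(0,0)]⟩,⟨0,[(2,0),
  (19,0)]⟩⟩,[]⟩)

theorem ok17 : chk K t17 l26 = true := by decide +kernel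

open Helper55.PC in
noncomputable def t18n : Helper55.PC.Ten :=
  (i 324399716250949120727220389543976 (r
  25172810207112252298346927324672631943500784847410531211937235318777763151267767870473146901873420883868981259588596269001206837565569219617964091841600972394066195178457232867316398005352887463681362323244023791210310491803052706650409416117318359240206783397296945806224280004171448124984590399718387716953849359950492286771044690493760738669402226209181044206732818120492748061389090396866916151131693089410606288761258413379275629343590501441920817316447731601444062044988504714084848607691067478699536082536063444173931895591117907220432572653760)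
  (q
  5076909841254787450156069197749101363210233401591684914438337000101301413475894061489217218435930448919677984710087087524544523
  (r
  674990772119939350119881550138358609144437761795561093088889932679431328363115758723430107883810856136615386332779741366429920074284056737263225283417079931305823942548715211388266546364669840469104454942529911477439093919641561150325274861025089534396820580693798904472170520349239249525321332918046454841707507562124595330714141143222855299106732508443537360098314923799730727730825418451435946422394870551758955383032708806988822414337066455028310862042612868028015033973222346959944079982919245356417565612192774036619226861469447823925156641970556447700558048)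
  (i 39628590137927041814190227463 (i 39609247324813207745247444999 (c
  28561792200473550834641390868103175) (c 221361491851647909892)) (c
  15111600415861929496543237))))

noncomputable def t18 : Tre := Helper55.PC.toT t18n

theorem ok18 : chk K t18 l27 = true :=
  Helper55.PC.chkN_sound K t18n l27 (by decide +kernel)

open Helper55.PC in
noncomputable def t19n : Helper55.PC.Ten :=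
  (q
  3728705245459439234032203744410365850842013072145800501723230132574722255974997248580254816218268388829818118110943311826496182217463230045585504838741767407041380364
  (r
  4255271232934139309362549119048787637181800224093668490796183340666522535114791885745839991946420911727708717766865197382533071236446061892569209990162620001077493415051957661556704608885018396919649684082747123836926694661785489638603664422007676019295842874916423439639138540729594115212647015618217131683179715688976865345956203028786679104125691074859988996874822135857330845889619518857206730135978202756227327756223013943752594098687632872195506686816038514184186110381034180119120168398981817649241463896524202857)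
  (q
  1335203616683220521613525799611506496741507787352200843804123018478079085299536385498186007686185610047054063826422129833408961388502518490819593866772568211468
  (q
  1335203616683220521613525799611549819705498598911554347195084796870881479537212472626905027822719018886196332901854470960180320095346306877878860558007252680748
  (i 324399716250949120709626056277992 (q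
  681023482462159039553045753336208083531151272755785766704798269971697709765319934369079162034642955833457735135824093321362443025060683125971172985012236
  (q
  681023482462159039553045796659172074342710626259176728483191072365935385852448653389215695443482098102509782023157492184038438067924993160807255688478700
  (r
  4386239402655748430654774658381323709058671204726904356293938928430886894932037055372668380090530543127202877007005188897668494433793444942304857975064043532639575989796642853042640083509638980225970940814502007982092217001191051526742837950735882812490876377144344215432227421968495791427421622323161254441515303811374440644516775058901611613297641365220962905177773720305351576571882136426969791801228035800095720919105988033546637385047555687851369)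
  (r
  173146562812313063677358425072583914759356657280567734748004464583070220093734816472858782078485578042632607745228580486721220928917532312976193667195874172723232092208117600227417951099667515563531874245257146347016845829461136039538253754912401301384853718444963499166905015171866251688137253830807479224197215100772682248820325051004956165662741221124858218172882518527176298070521473837390023611328402134214017892805190055335346512951855087695412813686729384280217828102181028351527289068573005434468274292925801))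
  (i 324478944413463385029625266700296 (q
  681023482462159039553045839982136065154269979395629188577621199436661131284318452731781591563260011838092937886854906976534344966715711644303363321757740
  (q 231611564738937012124535429402116619888031269359886897170630495885373363847179 (r
  6056470542358571772630217348257605883496768792852234143692772074631299322155880998072335902991214518020026851757366287988990161026734360260819539445655887111412684874265076281574587656708809126934622883648779250163000152354052367373343066373068111711624169284386031138369738136982918919721949192049365411556213081242028362821577610117086258995613347595648017449585967212793798899132579700688200731889281207904011998935150113540129009819377345458061861897567998708416308863359054563590836471076575283290120064773870273717238034054654553319279555759127019311504599049921744563099660541572670697)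
  (i 39628590137927041814190227463 (i 39609247324813207745247444999 (i
  2659429586859394802731763963695071241 (c 12931103791459381106373485729678102626312) (c
  422240382353411)) (c 118844057224689814069185609734)) (c 554601369458185785251119235078))) (i
  324478944413463385029625266700264 (i 324478944413463385047219599966152 (r
  1204563104559831216737709077542456159586672581744800025375156446968193423478080595997131750914049341656666889425724486324565324609404795558664003313599153892595197405927400890847347437971998285027839557783005856606601836905850331425190995149799805112483076452736124038526540274766294003069451996384569694696581950980309948665023970505441729587363261293336000327698280716850529256897117889471713662505942900727647671508182510142669091948308745615348964955216989686081793215427667975561085453999664790167799823287571662896760095788715646367249733773638686608685381881962962829638194499939061130627878211390686957008053871624940472973484323974365152781086156864535780635726249843472808652982992524518452668144708448525410379113)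
  (n
  776811064056904451484213257157444188656037201026827549133733135516069175683139482163260993229591294030846040879749))
  (n
  28859331646375079372557240028145493080872283866237430188053877264972671081234048262922309915927155000694016193157)))
  (i 324637400738491625544811389517864 (q
  231611564738937012124535429402116619888031269359807659339071001969777134403595 (r
  16861810264374513291361815675572354918737783435477265988159524206406931637155407918438839827941698563830574839657813507373677807130541318474483721867742171819376857766149246570741463372195548590809260282034114304419570178809366817957986626702838679986730942318198564474030928350393522246698677346999880158269495385201678995048284537119218166419566225930573216469862687722264619758419114757125972173163881502411409396412716684699842846276017231043611619380292698493542480698248111990392959204103746114192200378730180907933400334311196798754760041)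
  (q
  7282617564757951063922050459360409656614189027747866168770432054973340139736382682440627021898908169125313488375978743554482932317089505685469589250182976964263948
  (r
  40783106924041274078459055164052158646225018320849557893234009668589375114548496916287158498406140851753813103027963549867540664937254530960927820488225613035674478719731216758275812760205500956035352048396135342313307137693762339421284711815160194772017568024913705061070089167392615488864281861931116385281342965648972059453598867818740645544449696471412273908485547987238411372936698994458995252445164147994114367710097317876154678003980123643630219548102297687224204416564451905903652647462996038176975100331715396985813329498674536892822361158436548819688836192756552948493313624880992053148671168579129835870356795284404848193007449168883148943589398103207726465875539974024358343557313443170920753493148764484472630876605506377)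
  (i 39628590137927041814190227463 (i 39609247324813207745247444999 (i
  2659429586859394802731763963695071241 (c 12931103791459458477625941206682772176904) (c
  422242529837059)) (c 2654145257681148757800080375814)) (c 554640055084413594122198188038)))) (i
  324478944413463385029625266700328 (n
  10773986069613341560498579714090732305781967522033753826126019635226044962740707748250551018159007226504317308908163)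
  (n
  13147204221853970502369113589501235998577231309070192591988095294111555439071262008841592401666304660004335693768584112868985599577099539198597)))))
  (i 324399716250949120709626056278024 (n
  3703579251908102735814440965621377204803663064287831421617783967465454129307932913012006176133832690247165362196869)
  (i 324399716250948976629626647478344 (n
  102527377853507877204555186609998633037848001487986668875109892281723862734784136204119258163203973)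
  (n
  4008374868841474212338157282957436782001376805898715325353705420932553644048481374183726168063423743833165556368199792579836245635287198779886948229))))
  (r
  22348213789114246670155312833742776611476546773591367644074286952600092033283887492569575274867889216983265681444482530129136398474375961944984079966911199309818075678383613290703708901462824695095762517427684035737236245778937560134264004823620864882066256034277157043754599190791141055216979974095596804121261006826743432698415194443146589811662396757296809388541340170055318624500860474835677356188732119227947791919063876553485224042754854605271137725460848127590466793882282233039523349132042159745206734256486571381870951966658062992918959011565203109902847145755156837898956523558868361440))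
  (i 590511956749319274469 (i 324399716250949120709626056278024 (r
  56518123699936541435440515447104348194523280869919470311112132838913558839946492384698358746499503862632387359953313515933489747336801273182596950845534528180321142245740980902606457882114774737439506808742650108307269613969270554879762530410460546597124224400806002635774931058413947182434992783259152600962892568855124038929157571601582201056000579450927866766512233353307772185662561164509947784958198118465603213512897801496047827498317401764495945460263263373065331079362201235769638632358099526486650351188605980452577298057112831097434759971246501906777121079019446976)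
  (r
  5413360784266216352495729750123592557199457369418508849516846666905882579099173984006826991000135527519301816081714923146265812155362003578089409601219723625094464946497525070608598904688556321939241614876627817382308031491181961611091411499781467470513540591769250617162491576979377985240893407582687881786377530430477547889786137434401437731885961855647812415501342386317038198891389207359038996293088925025283883837542802591086296853821527567836524163508747394885512784567895151979797694830754718921061510196115739902570226841060579483467114479855676110032137774806411503454209879151651274459489844452388083187760768002302656))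
  (n
  139250506196129779012905751042316588264967204752207537606427255879820656481220831381426821))))

noncomputable def t19 : Tre := Helper55.PC.toT t19n

theorem ok19 : chk K t19 l28 = true :=
  Helper55.PC.chkN_sound K t19n l28 (by decide +kernel)

noncomputable def t20 : Tre :=
  (.Q [1,-1,0,0,1,0,-2,-2,1,0,-2,1] (.p false [0,0,1] [0,0,-1,0,1] (⟨0,[(45,0)]⟩,⟨0,[(44,0)]⟩) .k 2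
  (⟨0,[(13,0)]⟩,⟨0,[(37,0),(7,0)]⟩) .k (.r 0 ⟨0,[(26,1)]⟩ ⟨29,[(1,9),(5,8),(20,29),(1,0),(4,0),(6,
  29),(9,1),(5,14)]⟩)) (.Q [0,0,0,-1,1,0,-2,-2,0,2,-2] (.p false [0,0,1] [2,-1,-1] (⟨0,[(46,0)]⟩,⟨0,
  [(45,0)]⟩) .k 2 (⟨0,[(7,0),(31,0)]⟩,⟨0,[(34,0)]⟩) .k (.r 0 ⟨0,[(27,1)]⟩ ⟨36,[(0,15),(5,4),(22,36),
  (6,5),(6,36),(9,0),(5,12)]⟩)) (.Q [2,0,0,1,0,0,-2,-2,2,-1,-2,2] (.p true [0,0,-1,0,1] [1,0,1,0,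
  -1] (⟨0,[(15,0)]⟩,⟨0,[(39,0),(7,0)]⟩) .k 2 (⟨0,[(39,0),(7,0)]⟩,⟨0,[(15,0)]⟩) .k (.r (-1) ⟨36,[(1,
  15),(5,4),(22,36),(6,5),(6,36),(9,0),(5,12)]⟩ ⟨3,[(2,9),(1,7),(1,3),(0,7),(0,4),(3,15),(2,4),(33,
  24),(5,7),(5,35)]⟩)) (.R ⟨1,true,false,true,[1,0,1,0,-1],[0,0,-1,0,1],[2,1,0,0,0,0,0,-1],(⟨0,[(40,
  0),(7,0)]⟩,⟨0,[(16,0)]⟩),(⟨0,[(16,0)]⟩,⟨0,[(40,0),(7,0)]⟩),⟨0,[(3,0),(8,0)]⟩,.k,.k,(.r (-1) ⟨75,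
  [(4,14),(0,37),(16,3),(7,14),(12,29),(11,5),(4,14),(0,14)]⟩ ⟨0,[(33,0),(11,0)]⟩),.k,(.r 0 ⟨0,[(5,
  0)]⟩ ⟨1,[(2,0),(28,0),(1,0),(4,0),(6,2),(13,0)]⟩),.k,⟨true,0,⟨0,[]⟩,⟨1,[(45,0),(0,0)]⟩⟩,⟨false,0,
  ⟨0,[(0,0),(4,0)]⟩,⟨5,[(6,0),(1,0),(18,4),(4,11),(5,2),(22,2)]⟩⟩,⟨false,1,⟨36,[(2,15),(5,4),(22,
  36),(6,5),(6,36),(9,0),(5,12)]⟩,⟨0,[(5,0),(50,0)]⟩⟩,⟨true,0,⟨0,[(0,0),(57,0)]⟩,⟨2,[(3,0),(2,2),(2,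
  0),(24,2),(6,0),(11,2)]⟩⟩,⟨true,0,⟨0,[(31,0),(1,0),(11,0)]⟩,⟨1,[(5,1),(39,0),(0,0)]⟩⟩,⟨false,0,⟨0,
  [(0,0)]⟩,⟨1,[(1,0),(3,0),(0,1),(25,0),(1,1),(10,0),(15,0)]⟩⟩,[]⟩) (.Q [2,0,0,-1,0,0,1,1,2,-1,1,2]
  (.p true [0,0,1] [1,1,0,0,-2] (⟨0,[(48,0)]⟩,⟨0,[(47,0)]⟩) .k 2 (⟨0,[(12,0),(27,0)]⟩,⟨1,[(3,0),(12,
  1),(0,0),(23,0)]⟩) (.r 0 ⟨3,[(33,0),(9,0),(12,0),(2,1),(2,2)]⟩ ⟨37,[(4,4),(17,13),(7,4),(12,9),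
  (11,1),(4,4),(0,4)]⟩) (.r 0 ⟨0,[(29,0)]⟩ ⟨17,[(1,4),(29,7),(13,9),(9,1),(3,4),(0,0),(0,7),(1,
  7)]⟩)) (.R ⟨1,true,false,false,[1,-1,0,0,1],[2,0,-1,0,-1],[0,0,0,0,0,0,0,-1],(⟨2,[(4,0),(5,0),(31,
  3)]⟩,⟨0,[(13,0)]⟩),(⟨0,[(10,0),(43,0)]⟩,⟨0,[(18,0)]⟩),⟨0,[(4,0),(12,0)]⟩,(.r (-1) ⟨75,[(0,9),(4,
  4),(17,17),(7,24),(24,3),(4,19)]⟩ ⟨0,[(57,0),(6,0)]⟩),.k,(.r (-1) ⟨0,[(26,0)]⟩ ⟨0,[(57,1),(6,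
  1)]⟩),(.r (-1) ⟨7,[(0,1),(4,0),(0,3),(24,0),(7,3),(21,1)]⟩ ⟨2,[(32,1),(1,0),(11,0),(10,1),(5,
  1)]⟩),(.r (-1) ⟨151,[(0,9),(4,4),(0,75),(16,93),(7,24),(24,3),(4,19)]⟩ ⟨0,[(34,0),(11,0),(10,0),
  (6,0)]⟩),.k,⟨true,0,⟨0,[]⟩,⟨1,[(46,0),(0,0)]⟩⟩,⟨false,1,⟨3,[(7,1),(0,1),(0,1),(51,2),(0,0)]⟩,⟨0,
  [(24,0),(15,0),(5,0)]⟩⟩,⟨true,0,⟨2,[(32,0),(1,1),(11,1),(10,0),(5,0)]⟩,⟨4,[(6,2),(25,0),(22,0),(3,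
  1)]⟩⟩,⟨false,1,⟨0,[(9,0),(50,0),(1,0)]⟩,⟨0,[(0,0)]⟩⟩,⟨false,0,⟨7,[(4,9),(3,3),(0,7),(0,4),(3,15),
  (2,4),(33,24),(5,15),(5,27)]⟩,⟨44,[(0,10),(0,0),(4,15),(16,20),(7,19),(15,12),(8,1)]⟩⟩,⟨true,0,⟨6,
  [(1,0),(7,2),(1,5),(21,2),(9,2),(13,2),(2,5)]⟩,⟨0,[(0,0),(58,0)]⟩⟩,[]⟩) (.Q [0,0,0,0,0,0,0,0,0,1,
  -2] (.ed true [0,0,2] (.r 0 ⟨0,[(30,1)]⟩ ⟨40,[(0,4),(1,4),(0,12),(28,40),(6,2),(6,40),(9,2),(5,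
  13)]⟩)) (.R ⟨0,false,false,false,[0,0,1],[0,0,2],[1],(⟨0,[(50,0)]⟩,⟨0,[(49,0)]⟩),(⟨0,[(50,1)]⟩,⟨0,
  [(0,0)]⟩),⟨0,[(39,0)]⟩,.k,.k,.k,.k,.k,.k,⟨false,1,⟨81,[(1,4),(1,4),(0,12),(28,122),(6,2),(6,40),
  (9,2),(5,54)]⟩,⟨0,[(31,1)]⟩⟩,⟨true,0,⟨0,[(34,0)]⟩,⟨0,[(48,0)]⟩⟩,⟨false,1,⟨81,[(1,4),(1,4),(0,12),
  (28,40),(6,2),(6,40),(9,2),(5,54)]⟩,⟨0,[(31,0)]⟩⟩,⟨true,0,⟨0,[(36,0)]⟩,⟨0,[(46,0)]⟩⟩,⟨false,0,⟨0,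
  []⟩,⟨0,[]⟩⟩,⟨false,0,⟨0,[]⟩,⟨0,[]⟩⟩,[.o ⟨false,0,⟨5,[(2,0),(4,1),(9,1),(8,2),(18,2),(1,1)]⟩,⟨12,
  [(3,6),(0,1),(5,0),(17,4),(6,1),(21,1),(7,0)]⟩⟩,.o ⟨false,0,⟨9,[(2,5),(4,3),(7,2),(1,4),(23,3),
  (16,9)]⟩,⟨20,[(6,10),(13,8),(14,10),(4,1),(16,3),(7,11)]⟩⟩,.a ⟨true,0,⟨0,[(34,0)]⟩,⟨5,[(5,0),(5,
  0),(25,2),(5,0),(11,2)]⟩⟩ ⟨true,0,⟨0,[]⟩,⟨0,[(65,0)]⟩⟩ ⟨false,0,⟨4,[(2,1),(4,2),(7,0),(25,2),(16,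
  4)]⟩,⟨81,[(1,14),(1,14),(0,38),(28,40),(6,8),(6,40),(9,8),(5,0)]⟩⟩,.e ⟨false,1,⟨1,[(62,0),(0,0)]⟩,
  ⟨1,[(47,0),(0,0)]⟩⟩ ⟨false,0,⟨1,[(2,0),(4,0),(7,0),(25,0),(2,0),(13,1)]⟩,⟨29,[(3,17),(0,1),(5,0),
  (17,11),(4,0),(1,5),(11,28),(9,4),(6,1)]⟩⟩]⟩) (.I [0,0,0,0,0,1,1] (.C [(0,1),(0,0),(8,0),(41,1),
  (12,0)]) (.C [(0,0),(14,0),(3,0),(15,0)]))))) (.R ⟨1,true,false,false,[1,0,1,0,-1],[2,-1,-1],[1,0,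
  -1,-1,0,0,0,-1],(⟨0,[(39,0),(7,0)]⟩,⟨0,[(15,0)]⟩),(⟨0,[(8,0),(31,0)]⟩,⟨0,[(35,0)]⟩),⟨0,[(2,0),(8,
  0)]⟩,.k,.k,(.r (-1) ⟨75,[(3,14),(0,37),(16,3),(7,14),(12,29),(11,5),(4,14),(0,14)]⟩ ⟨0,[(32,0),
  (11,0)]⟩),(.r 1 ⟨4,[(0,4),(1,0),(5,0),(25,6),(5,0),(3,3),(7,2),(8,0)]⟩ ⟨11,[(3,6),(17,0),(7,2),(0,
  9),(0,13),(5,3),(16,1),(5,4)]⟩),.k,.k,⟨true,0,⟨0,[]⟩,⟨1,[(44,0),(0,0)]⟩⟩,⟨false,0,⟨0,[(34,0),(3,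
  0)]⟩,⟨31,[(5,9),(6,10),(17,9),(0,42),(5,22),(16,1),(5,4)]⟩⟩,⟨false,2,⟨45,[(1,3),(1,11),(3,7),(13,
  16),(8,51),(13,39),(9,3),(5,50)]⟩,⟨4,[(0,4),(1,0),(5,0),(25,6),(5,0),(3,3),(7,2),(8,0)]⟩⟩,⟨true,1,
  ⟨0,[(3,0)]⟩,⟨0,[(0,0),(25,0)]⟩⟩,⟨true,1,⟨73,[(1,15),(5,4),(22,110),(6,5),(6,36),(9,0),(5,49)]⟩,⟨5,
  [(0,5),(1,0),(5,0),(25,8),(5,0),(3,5),(7,2),(4,5)]⟩⟩,⟨false,1,⟨1,[(1,0),(1,0),(27,0),(9,0),(13,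
  0)]⟩,⟨61,[(0,15),(3,7),(0,30),(15,3),(11,44),(10,15),(9,5)]⟩⟩,[]⟩)) (.Q [0,0,0,0,0,-2,0,0,0,2,-1]
  (.p false [-1,1,1] [1] (⟨0,[(34,0)]⟩,⟨0,[(7,0),(31,0)]⟩) .k 1 (⟨0,[]⟩,⟨0,[]⟩) .k .k) (.R ⟨1,true,
  false,false,[2,-1,-1],[1,0,1,0,-1],[0,0,0,0,0,0,0,1],(⟨0,[(0,0),(51,0)]⟩,⟨0,[(35,0)]⟩),(⟨0,[(39,
  0),(7,0)]⟩,⟨0,[(15,0)]⟩),⟨0,[(0,0)]⟩,.k,.k,(.r (-2) ⟨3,[(3,1),(8,0),(8,2),(9,2),(5,2)]⟩ ⟨0,[(1,0),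
  (30,0),(5,0),(6,0),(9,0)]⟩),(.r (-2) ⟨11,[(3,6),(17,0),(7,2),(0,9),(0,13),(5,3),(16,1),(5,4)]⟩ ⟨0,
  [(1,0),(20,0),(11,0),(20,0)]⟩),(.r (-2) ⟨35,[(3,11),(3,6),(6,1),(6,29),(8,40),(13,28),(9,2),(5,
  23)]⟩ ⟨1,[(1,1),(25,0),(6,0),(3,0),(6,1),(9,1),(2,1)]⟩),.k,⟨true,0,⟨0,[]⟩,⟨1,[(44,0),(0,0)]⟩⟩,
  ⟨false,1,⟨3,[(5,1),(6,1),(17,1),(0,3),(5,1),(21,0),(0,0)]⟩,⟨1,[(34,1),(3,1),(5,0),(0,0)]⟩⟩,⟨true,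
  (-1),⟨0,[(1,0),(25,0),(6,0),(20,0)]⟩,⟨35,[(3,11),(3,6),(6,1),(6,11),(8,40),(13,28),(9,2),(5,5)]⟩⟩,
  ⟨false,0,⟨2,[(1,0),(8,1),(12,0),(18,0),(17,0)]⟩,⟨0,[(3,0)]⟩⟩,⟨false,(-1),⟨0,[(1,0),(4,0),(20,0),
  (27,1)]⟩,⟨23,[(3,11),(3,6),(6,1),(6,17),(8,16),(13,28),(9,2),(5,11)]⟩⟩,⟨true,(-1),⟨0,[(1,0),(21,
  0),(8,0)]⟩,⟨0,[(3,0),(53,0)]⟩⟩,[]⟩) (.I [0,0,0,0,0,1,1] (.C [(0,1),(0,0),(1,0),(3,0),(41,1),(12,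
  0)]) (.C [(0,0),(0,0),(7,0),(6,0),(15,0)]))))

theorem ok20 : chk K t20 l31 = true := by decide +kernel

noncomputable def t21 : Tre :=
  (.Q [0,0,0,0,0,-1,0,0,0,1,1,-1] (.p false [0,0,-1,0,1] [1] (⟨0,[(14,0)]⟩,⟨0,[(38,0),(7,0)]⟩) .k 1
  (⟨0,[]⟩,⟨0,[]⟩) .k (.r (-1) ⟨77,[(2,19),(26,17),(1,19),(4,19),(6,59),(9,3),(4,20),(0,8)]⟩ ⟨0,[(3,
  0),(1,2),(0,0),(4,1),(18,4),(23,0),(5,6)]⟩)) (.R ⟨1,true,false,true,[1,0,1,0,-1],[0,0,-1,0,1],[2,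
  1,0,0,0,0,0,-1],(⟨0,[(0,0),(51,0)]⟩,⟨0,[(15,0)]⟩),(⟨0,[(15,0)]⟩,⟨0,[(0,0),(51,0)]⟩),⟨0,[(0,0)]⟩,
  .k,.k,(.r (-1) ⟨75,[(3,14),(0,37),(16,3),(7,14),(12,29),(11,5),(4,14),(0,14)]⟩ ⟨0,[(32,0),(11,
  0)]⟩),.k,(.r 0 ⟨0,[(4,0)]⟩ ⟨77,[(3,19),(26,17),(1,97),(4,19),(6,137),(9,3),(4,20),(0,8)]⟩),.k,
  ⟨true,0,⟨0,[]⟩,⟨1,[(44,0),(0,0)]⟩⟩,⟨false,0,⟨0,[(6,0),(15,1)]⟩,⟨5,[(5,0),(1,0),(18,4),(4,11),(5,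
  2),(22,2)]⟩⟩,⟨false,1,⟨29,[(3,9),(5,8),(20,29),(1,0),(4,0),(6,29),(9,1),(5,14)]⟩,⟨0,[(4,0),(50,
  0)]⟩⟩,⟨true,0,⟨1,[(1,1),(10,0),(1,0),(30,1)]⟩,⟨1,[(5,1),(2,0),(24,1),(6,0),(6,0),(4,0)]⟩⟩,⟨true,0,
  ⟨0,[(30,0),(1,0),(11,0)]⟩,⟨1,[(4,1),(39,0),(0,0)]⟩⟩,⟨false,0,⟨0,[(1,0),(10,0),(32,0),(9,0)]⟩,⟨3,
  [(4,1),(0,2),(2,0),(20,1),(1,1),(1,0),(6,0),(3,1),(2,0),(4,0),(7,1)]⟩⟩,[]⟩) (.I [0,1,1,0,-1,0,0,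
  2] (.Q [0,0,2,0,0,0,-2,0,-1,3,-2,-1] (.p false [-1,1,1] [2,0,-1,0,-1] (⟨0,[(36,0)]⟩,⟨0,[(9,0),(31,
  0)]⟩) .k 2 (⟨0,[(9,0),(43,0)]⟩,⟨0,[(17,0)]⟩) .k (.r 0 ⟨0,[(29,1)]⟩ ⟨29,[(4,9),(5,8),(20,29),(1,0),
  (4,0),(6,29),(9,1),(5,14)]⟩)) (.Q [0,0,-1,0,0,0,2,0,1,-3,2,1] (.p true [-1,1,1] [2,0,-1,0,-1] (⟨0,
  [(37,0)]⟩,⟨0,[(10,0),(31,0)]⟩) .k 2 (⟨0,[(10,0),(43,0)]⟩,⟨0,[(18,0)]⟩) .k (.r 0 ⟨0,[(30,1)]⟩ ⟨29,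
  [(5,9),(5,8),(20,29),(1,0),(4,0),(6,29),(9,1),(5,14)]⟩)) (.Q [1,-1,0,2,-1,0,2,2,1,-3,2,1] (.p
  true [-1,1,1] [2,0,-1,0,-1] (⟨0,[(38,0)]⟩,⟨0,[(11,0),(31,0)]⟩) .k 2 (⟨0,[(11,0),(43,0)]⟩,⟨0,[(19,
  0)]⟩) .k (.r 0 ⟨0,[(31,1)]⟩ ⟨14,[(0,1),(5,5),(5,4),(20,11),(1,0),(4,2),(6,13),(15,5)]⟩)) (.I [1,0,
  1,1,-1,0,0,2] (.R ⟨1,true,false,false,[2,0,-1,0,-1],[-1,1,1],[-1,0,0,0,0,0,0,-1],(⟨0,[(13,0),(43,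
  0)]⟩,⟨0,[(21,0)]⟩),(⟨0,[(40,0)]⟩,⟨0,[(13,0),(31,0)]⟩),⟨0,[(13,0)]⟩,.k,.k,(.r (-1) ⟨17,[(2,3),(5,
  4),(3,1),(13,3),(7,4),(0,5),(0,3),(28,3)]⟩ ⟨73,[(0,21),(2,14),(39,14),(3,29),(11,8),(0,21),(2,29),
  (1,3)]⟩),(.r (-2) ⟨17,[(2,5),(5,10),(25,6),(0,13),(0,5),(5,9),(6,3),(14,0),(0,6)]⟩ ⟨0,[(0,0)]⟩),
  (.r (-2) ⟨8,[(2,3),(5,4),(3,1),(13,3),(7,4),(0,5),(0,3),(28,3)]⟩ ⟨78,[(0,86),(2,4),(2,4),(30,35),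
  (9,29),(1,25),(9,3),(0,34)]⟩),.k,⟨false,2,⟨11,[(2,3),(5,4),(25,6),(0,13),(0,1),(5,1),(21,2),(0,
  6)]⟩,⟨0,[(0,0)]⟩⟩,⟨true,0,⟨0,[(2,0)]⟩,⟨0,[(3,0)]⟩⟩,⟨false,1,⟨33,[(8,4),(33,4),(4,9),(11,0),(3,4),
  (1,21)]⟩,⟨0,[]⟩⟩,⟨true,(-1),⟨1,[(1,0),(0,0),(1,0)]⟩,⟨13,[(3,9),(4,4),(3,1),(13,1),(7,4),(0,15),(0,
  3),(28,1)]⟩⟩,⟨true,0,⟨0,[(63,0)]⟩,⟨0,[(62,0)]⟩⟩,⟨false,(-1),⟨0,[(1,0)]⟩,⟨6,[(3,2),(4,4),(3,1),(13,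
  1),(7,4),(0,1),(0,3),(28,1)]⟩⟩,[]⟩) (.I [0,0,0,0,0,1,1] (.I [0,0,-1,0,0,1,-1] (.C [(0,0),(0,0),(0,
  1),(0,0),(1,0),(0,0),(48,1)]) (.C [(0,0),(12,0),(4,0),(4,0),(14,0)])) (.C [(0,0),(5,0),(7,0),(2,
  0),(4,0),(14,0)]))) (.I [0,0,-1,-1,1,0,0,-2] (.N [0,1,2,0,1] 1 ⟨1,[(4,1),(2,0),(28,1),(3,0),(5,1),
  (6,2),(6,1)]⟩ ⟨0,[(0,0)]⟩ (.x 0 ⟨0,[(2,0),(10,0),(37,0)]⟩ ⟨33,[(3,33),(4,0),(12,33),(18,33),(1,0),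
  (4,1),(11,6),(3,0),(0,16),(0,0)]⟩)) (.I [1,0,-1,-1,1,0,0,-2] (.N [0,1,2] 1 ⟨0,[(1,0)]⟩ ⟨0,[(0,
  0)]⟩ (.x (-1) ⟨2,[(3,1),(10,2),(6,2),(15,0),(5,1),(6,0),(14,0)]⟩ ⟨14,[(1,1),(2,1),(4,1),(30,6),(0,
  14),(9,7),(1,14),(13,0)]⟩)) (.I [0,0,0,0,0,1,1] (.I [0,0,-1,0,0,1,-1] (.C [(0,0),(0,0),(0,0),(1,
  0),(0,0),(50,1),(6,0)]) (.C [(0,0),(13,0),(4,0),(4,0),(14,0)])) (.C [(0,0),(6,0),(7,0),(2,0),(4,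
  0),(14,0)]))))) (.I [1,-1,1,2,-1,0,0,2] (.Q [0,0,0,0,0,-2,0,0,0,2,-1] (.p false [-1,1,1] [1] (⟨0,
  [(39,0)]⟩,⟨0,[(12,0),(31,0)]⟩) .k 1 (⟨0,[]⟩,⟨0,[]⟩) .k .k) (.R ⟨1,true,false,false,[2,-1,-1],[1,0,
  1,0,-1],[-1,0,1,0,0,0,0,1],(⟨7,[(0,3),(1,0),(33,2),(6,0),(2,0),(4,3)]⟩,⟨0,[(40,0)]⟩),(⟨0,[(44,0),
  (7,0)]⟩,⟨0,[(20,0)]⟩),⟨0,[(0,0)]⟩,.k,.k,(.r (-2) ⟨3,[(8,1),(8,0),(8,2),(9,2),(5,2)]⟩ ⟨1,[(1,0),(2,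
  0),(32,1),(11,1)]⟩),(.x 0 ⟨12,[(1,1),(2,1),(3,3),(7,12),(10,8),(11,4),(10,7),(1,25),(13,0)]⟩ ⟨31,
  [(0,31),(4,31),(4,9),(6,10),(17,9),(0,42),(5,22),(16,1),(5,4)]⟩),(.r (-2) ⟨35,[(8,11),(3,6),(6,1),
  (6,29),(8,40),(13,28),(9,2),(5,23)]⟩ ⟨55,[(1,54),(1,4),(0,12),(1,10),(7,1),(16,3),(17,33),(9,5),
  (7,26)]⟩),.k,⟨true,0,⟨1,[(49,0),(0,0)]⟩,⟨0,[]⟩⟩,⟨false,1,⟨3,[(10,1),(6,1),(17,1),(0,3),(5,1),(21,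
  0),(0,0)]⟩,⟨11,[(1,5),(2,4),(1,0),(1,10),(0,0),(56,1)]⟩⟩,⟨true,(-1),⟨1,[(1,0),(2,0),(61,1)]⟩,⟨71,
  [(8,11),(3,6),(6,1),(6,29),(8,112),(13,28),(9,2),(5,23)]⟩⟩,⟨false,0,⟨0,[(15,0),(22,0)]⟩,⟨0,[(8,
  0)]⟩⟩,⟨false,(-1),⟨0,[(1,0),(64,0)]⟩,⟨35,[(8,11),(3,6),(6,1),(6,29),(8,40),(13,28),(9,2),(5,
  23)]⟩⟩,⟨true,(-1),⟨7,[(1,7),(8,5),(6,2),(1,0),(15,6),(11,0),(1,4)]⟩,⟨0,[(8,0),(53,0)]⟩⟩,[]⟩) (.I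
  [0,0,0,0,0,1,1] (.I [0,0,-1,0,0,1,-1] (.I [0,0,-2,0,0,-1,1,0,1] (.C [(0,1),(2,1),(1,1),(2,0),(15,
  0),(14,1),(16,2),(12,1)]) (.C [(0,0),(15,0),(3,0)])) (.C [(0,0),(1,0),(1,0),(10,0),(3,0),(3,0)]))
  (.C [(0,0),(0,0),(4,0),(7,1),(7,0),(14,0)]))) (.Q [2,-1,0,-1,1,0,-1,-1,2,0,-1,2] (.p false [0,0,
  1] [0,-1,0,0,2] (⟨0,[(51,0)]⟩,⟨0,[(50,0)]⟩) .k 2 (⟨0,[(19,0),(0,0),(34,0)]⟩,⟨0,[(15,0),(27,0)]⟩)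
  (.r (-1) ⟨37,[(7,4),(17,13),(7,4),(12,9),(11,1),(4,4),(0,4)]⟩ ⟨133,[(2,4),(0,7),(1,4),(30,5),(11,
  25),(9,3),(0,12),(2,114),(2,76)]⟩) (.r 0 ⟨0,[(8,0),(1,2),(0,0),(4,1),(18,4),(23,0),(5,6)]⟩ ⟨47,
  [(0,13),(6,9),(33,9),(6,19),(9,1),(3,37),(0,2),(0,6)]⟩)) (.Q [0,0,0,0,0,-2,0,0,0,1,0,1] (.p true
  [1,-1,0,0,1] [] (⟨0,[(45,0),(10,0)]⟩,⟨0,[(16,0)]⟩) (.r (-1) ⟨75,[(0,9),(25,22),(7,19),(12,9),(11,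
  3),(4,14)]⟩ ⟨22,[(3,0),(2,0),(23,3),(16,5),(1,1),(10,18),(6,11)]⟩) 0 (⟨0,[]⟩,⟨0,[]⟩) .k .k) (.R
  ⟨1,true,false,true,[1,-1,0,0,1],[1,0,1,0,-1],[0,1,0,0,0,0,0,1],(⟨7,[(0,3),(2,0),(33,2),(6,0),(1,
  3),(0,0)]⟩,⟨0,[(17,0)]⟩),(⟨0,[(45,0),(7,0)]⟩,⟨0,[(21,0)]⟩),⟨0,[(0,0)]⟩,(.r (-1) ⟨75,[(1,9),(25,
  22),(7,19),(12,9),(11,3),(4,14)]⟩ ⟨22,[(4,0),(2,0),(23,3),(16,5),(1,1),(10,18),(6,11)]⟩),.k,(.r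
  (-1) ⟨0,[(30,0)]⟩ ⟨22,[(4,2),(2,2),(23,11),(16,17),(1,5),(10,33),(6,12)]⟩),(.r (-1) ⟨3,[(2,1),(62,
  0),(0,0)]⟩ ⟨103,[(1,4),(2,9),(0,41),(42,24),(11,5),(0,11),(2,96),(1,24),(0,29)]⟩),(.r (-2) ⟨75,
  [(1,9),(0,37),(24,22),(7,19),(12,9),(11,3),(4,33),(0,18)]⟩ ⟨0,[(5,0),(6,2),(0,0),(4,1),(18,4),(23,
  1),(5,5)]⟩),.k,⟨true,0,⟨0,[]⟩,⟨1,[(50,0),(0,0)]⟩⟩,⟨false,1,⟨1,[(11,1),(24,1),(28,0),(0,0)]⟩,⟨3,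
  [(1,1),(3,1),(1,0),(20,0),(15,1),(16,0),(2,0),(2,0)]⟩⟩,⟨true,(-1),⟨0,[(5,0),(30,0),(24,0)]⟩,⟨3,
  [(2,1),(62,0),(0,0)]⟩⟩,⟨false,0,⟨0,[(11,0),(52,0)]⟩,⟨0,[(1,0)]⟩⟩,⟨false,(-1),⟨3,[(5,3),(9,0),(2,
  0),(17,2),(0,1),(9,1),(13,6)]⟩,⟨67,[(1,9),(0,29),(24,22),(7,19),(12,1),(1,7),(9,3),(5,44)]⟩⟩,
  ⟨true,(-1),⟨3,[(3,0),(1,3),(9,2),(0,3),(19,4),(0,5),(9,0),(13,0)]⟩,⟨0,[(1,0),(61,0)]⟩⟩,[]⟩) (.I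
  [0,0,0,0,0,1,1] (.I [0,0,-1,0,0,1,-1] (.I [0,0,-2,0,0,-1,1,0,1] (.C [(0,1),(2,1),(2,1),(2,0),(15,
  2),(14,1),(16,2),(12,1)]) (.C [(0,0),(16,0),(3,0)])) (.C [(0,0),(1,0),(2,0),(10,0),(3,0),(3,1)]))
  (.C [(0,2),(0,0),(2,0),(2,1),(7,0),(3,0),(18,3),(29,0)]))) (.I [0,-1,2,2,-1,0,0,2] (.Q [0,0,0,0,0,
  -2,0,0,0,2,-1] (.p false [-1,1,1] [1] (⟨0,[(41,0)]⟩,⟨0,[(14,0),(31,0)]⟩) .k 1 (⟨0,[]⟩,⟨0,[]⟩) .k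
  .k) (.R ⟨1,true,false,false,[2,-1,-1],[0,0,1],[1,1,-1,-2,0,0,0,-1],(⟨7,[(0,3),(3,0),(33,2),(6,0),
  (2,0),(4,3)]⟩,⟨0,[(42,0)]⟩),(⟨0,[(54,0)]⟩,⟨0,[(53,0)]⟩),⟨0,[(0,0)]⟩,.k,.k,(.r (-2) ⟨75,[(3,37),(6,
  9),(17,27),(7,9),(12,19),(11,3),(4,28),(0,28)]⟩ ⟨25,[(1,20),(0,4),(5,7),(12,1),(10,3),(6,0),(11,
  13),(8,3)]⟩),(.x 0 ⟨14,[(1,0),(3,1),(0,0),(3,1),(30,6),(0,14),(9,7),(1,14)]⟩ ⟨80,[(3,1),(11,80),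
  (1,3),(1,23),(2,80),(14,0),(0,132),(5,19),(4,0),(11,21),(4,14)]⟩),(.r (-2) ⟨1,[(3,1),(62,0),(0,
  0)]⟩ ⟨0,[(1,0),(67,0)]⟩),.k,⟨true,1,⟨0,[(3,0)]⟩,⟨0,[(1,0)]⟩⟩,⟨false,1,⟨0,[(19,0),(18,0),(5,0)]⟩,
  ⟨9,[(1,1),(2,4),(1,1),(3,3),(2,0),(31,0)]⟩⟩,⟨true,0,⟨0,[(64,0)]⟩,⟨0,[(65,0)]⟩⟩,⟨false,0,⟨22,[(6,
  1),(4,1),(5,7),(3,7),(8,16),(9,12),(20,0)]⟩,⟨1,[(3,0),(0,0),(3,0),(58,0)]⟩⟩,⟨false,0,⟨0,[]⟩,⟨33,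
  [(10,4),(33,4),(4,9),(11,0),(3,4),(1,21)]⟩⟩,⟨true,(-1),⟨10,[(1,5),(0,4),(16,6),(1,2),(8,1),(18,2),
  (1,1),(13,2)]⟩,⟨1,[(3,0),(0,0),(5,0),(53,0)]⟩⟩,[]⟩) (.I [0,0,0,0,0,1,1] (.I [0,0,-1,0,0,1,-1] (.I
  [0,0,-2,0,0,-1,1,0,1] (.C [(0,1),(2,1),(3,1),(2,0),(15,0),(14,1),(16,2),(12,1)]) (.C [(0,0),(17,
  0),(3,0)])) (.C [(0,0),(1,0),(3,0),(10,0),(3,0),(3,0)])) (.C [(0,3),(0,1),(3,0),(2,2),(7,2),(3,0),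
  (18,4),(29,0)]))) (.I [0,0,-1,-1,1,0,0,-2] (.N [0,1,2,0,1] 1 ⟨1,[(6,1),(2,0),(28,1),(3,0),(5,1),
  (6,2),(6,1)]⟩ ⟨0,[(0,0)]⟩ (.x 0 ⟨2,[(7,0),(1,0),(5,3),(3,2),(18,1),(12,0),(3,1),(12,1)]⟩ ⟨33,[(5,
  33),(4,0),(12,33),(18,33),(1,0),(4,1),(11,6),(3,0),(0,16),(0,0)]⟩)) (.N [0,1,2] 1 ⟨0,[(0,0)]⟩ ⟨0,
  [(1,0),(60,0)]⟩ (.x (-1) ⟨80,[(3,1),(11,80),(1,3),(1,23),(2,80),(14,0),(0,132),(5,19),(4,0),(11,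
  21),(4,14)]⟩ ⟨14,[(0,1),(4,1),(4,1),(30,6),(0,14),(9,7),(1,14),(13,0)]⟩))))))) (.I [2,0,2,2,-1]
  (.N [0,2,0,0,1] 1 ⟨0,[(0,0)]⟩ ⟨0,[(24,0)]⟩ (.x 0 ⟨0,[(1,0),(7,0),(1,0),(38,0),(0,0),(12,0)]⟩ ⟨3,
  [(0,2),(2,0),(1,1),(0,0),(25,4),(5,2),(4,2),(1,1),(1,0),(0,0),(14,0)]⟩)) (.R ⟨0,false,false,false,
  [0,0,1],[0,0,2],[1],(⟨0,[(50,0)]⟩,⟨0,[(49,0)]⟩),(⟨0,[(50,1)]⟩,⟨0,[(3,0),(7,0)]⟩),⟨0,[(39,0)]⟩,.k,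
  .k,.k,.k,.k,.k,⟨false,1,⟨59,[(6,9),(5,8),(20,89),(1,0),(4,0),(6,29),(9,1),(5,44)]⟩,⟨0,[(31,1)]⟩⟩,
  ⟨true,0,⟨0,[(34,0)]⟩,⟨0,[(48,0)]⟩⟩,⟨false,1,⟨59,[(6,9),(5,8),(20,29),(1,0),(4,0),(6,29),(9,1),(5,
  44)]⟩,⟨0,[(31,0)]⟩⟩,⟨true,0,⟨0,[(36,0)]⟩,⟨0,[(46,0)]⟩⟩,⟨false,0,⟨0,[]⟩,⟨0,[]⟩⟩,⟨false,0,⟨0,[]⟩,⟨0,
  []⟩⟩,[.o ⟨false,0,⟨22,[(2,1),(4,1),(0,2),(4,1),(3,7),(18,32),(20,0)]⟩,⟨6,[(6,3),(3,1),(17,0),(6,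
  2),(21,0),(5,0)]⟩⟩,.o ⟨false,0,⟨1,[(5,0),(1,1),(26,3),(3,0),(12,2),(6,1)]⟩,⟨86,[(4,44),(1,21),(3,
  17),(24,21),(4,30),(16,16),(7,23)]⟩⟩,.a ⟨true,0,⟨0,[(34,0)]⟩,⟨3,[(11,0),(25,1),(5,0),(6,0),(4,
  0)]⟩⟩ ⟨true,0,⟨0,[]⟩,⟨0,[(65,0)]⟩⟩ ⟨false,0,⟨0,[(7,0),(26,0),(23,0)]⟩,⟨19,[(6,9),(5,8),(20,9),(1,
  0),(4,0),(6,9),(9,1),(5,4)]⟩⟩,.e ⟨false,1,⟨1,[(62,0),(0,0)]⟩,⟨1,[(47,0),(0,0)]⟩⟩ ⟨false,0,⟨1,[(5,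
  0),(1,1),(26,3),(3,0),(5,1),(6,2),(6,1)]⟩,⟨71,[(6,43),(3,10),(1,21),(20,0),(1,21),(11,70),(9,10),
  (5,5),(0,1)]⟩⟩]⟩))) (.Q [1,0,0,1,-1,0,2,2,1,-2,2,1] (.p true [0,0,1] [2,0,-1,0,-1] (⟨0,[(48,0)]⟩,
  ⟨0,[(47,0)]⟩) .k 2 (⟨0,[(9,0),(43,0)]⟩,⟨0,[(17,0)]⟩) .k (.r 0 ⟨0,[(29,1)]⟩ ⟨83,[(0,60),(1,20),(5,
  3),(29,12),(6,45),(9,4),(6,14),(0,35)]⟩)) (.R ⟨1,true,false,true,[2,0,-1,0,-1],[0,0,1],[1,1,0,0,0,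
  0,0,1],(⟨0,[(10,0),(43,0)]⟩,⟨0,[(18,0)]⟩),(⟨0,[(49,0)]⟩,⟨0,[(48,0)]⟩),⟨0,[(10,0)]⟩,.k,.k,(.r (-1)
  ⟨193,[(1,83),(3,14),(17,67),(7,14),(12,3),(1,25),(9,5),(2,27),(4,51)]⟩ ⟨29,[(0,1),(11,1),(23,10),
  (7,23),(2,7),(8,0),(0,21),(2,3)]⟩),.k,(.x (-1) ⟨1,[(36,0),(0,0),(1,1),(2,1),(4,1),(1,2),(4,0)]⟩
  ⟨2,[(2,0),(1,0),(5,3),(3,2),(18,1),(12,0),(3,1),(12,1)]⟩),.k,⟨true,0,⟨0,[]⟩,⟨1,[(46,0),(0,0)]⟩⟩,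
  ⟨false,0,⟨0,[(14,0),(31,0)]⟩,⟨0,[(31,0),(4,0),(23,0)]⟩⟩,⟨false,0,⟨0,[(30,1)]⟩,⟨3,[(1,3),(44,0),(0,
  0),(15,1)]⟩⟩,⟨true,(-1),⟨0,[(0,0),(58,0)]⟩,⟨9,[(1,0),(3,3),(13,9),(8,3),(14,1),(13,2),(2,0),(1,
  4)]⟩⟩,⟨true,(-1),⟨0,[(0,0),(27,0),(7,0)]⟩,⟨1,[(1,1),(44,0),(0,0),(11,1)]⟩⟩,⟨false,(-1),⟨0,[(0,
  0)]⟩,⟨1,[(5,0),(13,1),(11,0),(30,1)]⟩⟩,[]⟩) (.Q [2,0,0,1,-1,0,2,2,2,-3,2,2] (.p true [-1,0,1,0,1]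
  [2,0,-1,0,-1] (⟨0,[(18,0)]⟩,⟨0,[(10,0),(43,0)]⟩) .k 2 (⟨0,[(10,0),(43,0)]⟩,⟨0,[(18,0)]⟩) .k (.r 0
  ⟨0,[(30,1)]⟩ ⟨61,[(0,3),(0,48),(1,6),(30,3),(4,2),(6,25),(9,2),(6,22),(0,41)]⟩)) (.R ⟨1,true,
  false,true,[2,0,-1,0,-1],[-1,0,1,0,1],[2,1,0,0,0,0,0,1],(⟨0,[(11,0),(43,0)]⟩,⟨0,[(19,0)]⟩),(⟨0,
  [(19,0)]⟩,⟨0,[(11,0),(43,0)]⟩),⟨0,[(11,0)]⟩,.k,.k,(.r (-1) ⟨193,[(2,83),(3,14),(17,67),(7,14),(12,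
  3),(1,25),(9,5),(2,27),(4,51)]⟩ ⟨41,[(0,1),(12,3),(23,14),(7,33),(2,11),(8,0),(0,29),(2,5)]⟩),.k,
  (.r (-1) ⟨1,[(1,0),(0,0),(12,0),(18,0),(25,0),(3,0)]⟩ ⟨29,[(0,1),(12,3),(17,23),(5,14),(7,27),(2,
  5),(8,0),(0,23)]⟩),.k,⟨true,0,⟨0,[]⟩,⟨1,[(47,0),(0,0)]⟩⟩,⟨false,0,⟨3,[(15,2),(1,2),(23,1),(5,1)]⟩,
  ⟨0,[(29,1),(7,0),(25,0)]⟩⟩,⟨false,0,⟨0,[(31,1)]⟩,⟨0,[(1,0),(13,0),(18,0),(23,0),(5,0)]⟩⟩,⟨true,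
  (-1),⟨0,[(0,0),(59,0)]⟩,⟨11,[(1,8),(0,2),(5,0),(1,0),(18,10),(14,5),(13,8)]⟩⟩,⟨true,(-1),⟨5,[(0,
  5),(7,1),(1,1),(0,2),(17,3),(7,5),(5,2),(6,2),(4,2)]⟩,⟨3,[(1,0),(0,2),(14,0),(29,0),(12,2),(3,
  1)]⟩⟩,⟨false,(-1),⟨0,[(0,0)]⟩,⟨0,[(1,0),(27,0),(33,0)]⟩⟩,[]⟩) (.Q [0,0,0,0,0,-2,0,0,0,2,-1] (.p
  false [-1,1,1] [1] (⟨0,[(38,0)]⟩,⟨0,[(11,0),(31,0)]⟩) .k 1 (⟨0,[]⟩,⟨0,[]⟩) .k .k) (.Q [2,0,0,-1,0,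
  0,1,1,2,-1,1,2] (.p true [0,0,1] [1,1,0,0,-2] (⟨0,[(51,0)]⟩,⟨0,[(50,0)]⟩) .k 2 (⟨0,[(15,0),(27,
  0)]⟩,⟨1,[(0,0),(18,0),(0,1),(23,0)]⟩) (.r 0 ⟨3,[(36,0),(9,0),(12,0),(2,1),(2,2)]⟩ ⟨37,[(7,4),(17,
  13),(7,4),(12,9),(11,1),(4,4),(0,4)]⟩) (.r 0 ⟨0,[(32,0)]⟩ ⟨151,[(3,50),(3,24),(33,24),(6,49),(9,
  4),(3,24),(1,40),(0,0),(0,132)]⟩)) (.R ⟨1,true,false,false,[1,-1,0,0,1],[2,0,-1,0,-1],[0,0,0,0,0,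
  0,0,-1],(⟨1,[(1,0),(43,1),(6,0)]⟩,⟨0,[(16,0)]⟩),(⟨0,[(13,0),(43,0)]⟩,⟨0,[(21,0)]⟩),⟨0,[(1,0),(19,
  0)]⟩,(.r (-1) ⟨75,[(0,9),(7,4),(17,17),(7,24),(24,3),(4,19)]⟩ ⟨0,[(60,0),(6,0)]⟩),.k,(.r (-1) ⟨0,
  [(29,0)]⟩ ⟨0,[(60,1),(6,1)]⟩),(.r (-1) ⟨7,[(0,1),(7,0),(0,3),(24,0),(7,3),(21,1)]⟩ ⟨2,[(35,1),(1,
  0),(11,0),(10,1),(5,1)]⟩),(.r (-1) ⟨151,[(0,9),(7,4),(0,75),(16,93),(7,24),(24,3),(4,19)]⟩ ⟨0,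
  [(37,0),(11,0),(10,0),(6,0)]⟩),.k,⟨true,0,⟨0,[]⟩,⟨1,[(49,0),(0,0)]⟩⟩,⟨false,1,⟨1,[(1,16),(0,1),(6,
  5),(1,2),(0,7),(3,16),(0,15),(3,16),(32,16),(5,7),(5,28)]⟩,⟨15,[(0,3),(5,1),(12,6),(23,14),(5,8),
  (10,3),(5,2),(0,1)]⟩⟩,⟨true,0,⟨2,[(35,0),(1,1),(11,1),(10,0),(5,0)]⟩,⟨4,[(9,2),(25,0),(22,0),(3,
  1)]⟩⟩,⟨false,1,⟨10,[(2,5),(12,6),(21,5),(4,2),(20,3),(1,1)]⟩,⟨0,[(0,0)]⟩⟩,⟨false,0,⟨1,[(1,4),(9,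
  0),(0,1),(3,4),(0,3),(3,4),(32,4),(5,3),(5,6)]⟩,⟨100,[(0,25),(8,35),(0,2),(15,46),(7,45),(15,28),
  (8,3)]⟩⟩,⟨true,0,⟨5,[(12,3),(1,2),(0,0),(20,2),(9,2),(13,2),(2,4)]⟩,⟨0,[(0,0),(61,0)]⟩⟩,[]⟩) (.I
  [1,-1,-1,-1,1,0,0,-1] (.Q [0,0,-1,0,0,0,2,0,1,-3,2,1] (.p true [-1,1,1] [2,0,-1,0,-1] (⟨0,[(41,
  0)]⟩,⟨0,[(14,0),(31,0)]⟩) .k 2 (⟨0,[(14,0),(43,0)]⟩,⟨0,[(22,0)]⟩) .k (.r 0 ⟨0,[(34,1)]⟩ ⟨18,[(3,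
  1),(1,12),(1,3),(42,11),(9,1),(0,0),(2,0),(3,9)]⟩)) (.Q [1,0,0,2,-1,0,2,2,1,-3,2,1] (.p true [-1,
  1,1] [2,0,-1,0,-1] (⟨0,[(42,0)]⟩,⟨0,[(15,0),(31,0)]⟩) .k 2 (⟨0,[(15,0),(43,0)]⟩,⟨0,[(23,0)]⟩) .k
  (.r 0 ⟨0,[(35,1)]⟩ ⟨18,[(4,1),(1,12),(1,3),(42,11),(9,1),(0,0),(2,0),(3,9)]⟩)) (.Q [0,0,2,0,0,0,
  -2,0,-1,3,-2,-1] (.p false [-1,1,1] [2,0,-1,0,-1] (⟨0,[(43,0)]⟩,⟨0,[(16,0),(31,0)]⟩) .k 2 (⟨0,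
  [(16,0),(43,0)]⟩,⟨0,[(24,0)]⟩) .k (.r 0 ⟨0,[(36,1)]⟩ ⟨18,[(5,1),(1,12),(1,3),(42,11),(9,1),(0,0),
  (2,0),(3,9)]⟩)) (.R ⟨1,true,false,false,[2,0,-1,0,-1],[-1,1,1],[0,0,1],(⟨0,[(17,0),(43,0)]⟩,⟨0,
  [(25,0)]⟩),(⟨0,[(44,0)]⟩,⟨9,[(0,0),(4,4),(34,3),(6,0),(2,1),(4,4)]⟩),⟨0,[(17,0)]⟩,.k,.k,(.r (-1)
  ⟨7,[(2,0),(5,2),(3,0),(17,1),(7,1),(27,0),(4,1)]⟩ ⟨55,[(0,27),(0,22),(10,4),(38,19),(11,3),(3,14),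
  (1,9)]⟩),(.r (-1) ⟨1,[(2,3),(0,1),(0,1),(0,6),(9,2),(4,6),(4,6),(32,6),(7,1),(3,6)]⟩ ⟨52,[(0,41),
  (0,31),(11,10),(33,9),(3,19),(11,5),(4,9),(0,9)]⟩),(.r (-2) ⟨4,[(2,1),(5,1),(3,1),(17,1),(7,3),(0,
  1)]⟩ ⟨0,[(0,0),(0,0)]⟩),.k,⟨false,1,⟨4,[(2,0),(5,0),(3,0),(17,0),(7,1),(0,0)]⟩,⟨1,[(0,0),(0,0),
  (66,0)]⟩⟩,⟨true,0,⟨0,[(2,0)]⟩,⟨0,[(0,0)]⟩⟩,⟨true,0,⟨23,[(0,8),(0,3),(11,7),(22,4),(16,11),(0,1),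
  (8,1)]⟩,⟨0,[(39,0)]⟩⟩,⟨false,0,⟨55,[(1,36),(11,17),(9,17),(12,0),(14,1),(1,17),(9,3),(5,28)]⟩,⟨0,
  [(6,0),(40,0)]⟩⟩,⟨false,0,⟨1,[(0,0),(0,0),(67,0)]⟩,⟨4,[(2,0),(5,0),(3,0),(17,0),(7,1),(0,0)]⟩⟩,
  ⟨true,(-1),⟨0,[(1,0)]⟩,⟨0,[(6,0),(40,0),(18,0)]⟩⟩,[]⟩) (.R ⟨0,false,false,true,[0,0,1],[0,0,2],[1,
  1],(⟨0,[(56,0)]⟩,⟨0,[(55,0)]⟩),(⟨0,[(56,1)]⟩,⟨0,[(9,0),(7,0)]⟩),⟨0,[(45,0)]⟩,.k,.k,.k,.k,.k,.k,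
  ⟨false,1,⟨41,[(8,34),(1,4),(28,3),(6,4),(6,9),(8,12),(0,0)]⟩,⟨0,[(37,1)]⟩⟩,⟨true,0,⟨0,[(40,0)]⟩,
  ⟨0,[(54,0)]⟩⟩,⟨true,0,⟨1,[(39,0),(12,0),(0,0)]⟩,⟨0,[(37,0)]⟩⟩,⟨false,0,⟨0,[(42,0)]⟩,⟨35,[(6,3),(5,
  7),(21,4),(6,6),(21,2),(5,17)]⟩⟩,⟨false,0,⟨0,[]⟩,⟨0,[]⟩⟩,⟨false,0,⟨0,[]⟩,⟨0,[]⟩⟩,[.o ⟨false,0,⟨44,
  [(1,5),(0,3),(10,11),(0,4),(27,3),(8,44),(1,15),(9,2)]⟩,⟨5,[(3,3),(3,0),(4,0),(21,3),(8,0),(10,1),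
  (9,1)]⟩⟩,.o ⟨false,0,⟨44,[(1,5),(0,3),(10,11),(0,4),(27,48),(10,15),(9,2)]⟩,⟨98,[(6,21),(5,43),
  (21,34),(6,30),(21,14),(5,2),(1,5)]⟩⟩,.e ⟨false,0,⟨0,[]⟩,⟨33,[(12,4),(33,4),(4,9),(11,0),(3,4),(1,
  21)]⟩⟩ ⟨false,0,⟨1,[(13,0),(28,0),(8,0),(12,0)]⟩,⟨0,[(8,0),(45,0)]⟩⟩,.a ⟨true,0,⟨0,[(53,0)]⟩,⟨0,
  [(50,0)]⟩⟩ ⟨true,0,⟨16,[(14,0),(6,1),(17,1),(10,3),(0,0),(10,6)]⟩,⟨1,[(53,0),(0,0)]⟩⟩ ⟨false,0,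
  ⟨13,[(1,1),(11,3),(0,0),(27,14),(7,5),(17,1)]⟩,⟨0,[(7,0),(15,0),(40,0)]⟩⟩]⟩)) (.R ⟨0,false,false,
  true,[0,0,1],[0,0,2],[1,1],(⟨0,[(55,0)]⟩,⟨0,[(54,0)]⟩),(⟨0,[(55,1)]⟩,⟨0,[(8,0),(7,0)]⟩),⟨0,[(44,
  0)]⟩,.k,.k,.k,.k,.k,.k,⟨false,1,⟨41,[(7,34),(1,4),(28,3),(6,4),(6,9),(8,12),(0,0)]⟩,⟨0,[(36,1)]⟩⟩,
  ⟨true,0,⟨0,[(39,0)]⟩,⟨0,[(53,0)]⟩⟩,⟨true,0,⟨1,[(38,0),(12,0),(0,0)]⟩,⟨0,[(36,0)]⟩⟩,⟨false,0,⟨0,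
  [(41,0)]⟩,⟨35,[(5,3),(5,7),(21,4),(6,6),(21,2),(5,17)]⟩⟩,⟨false,0,⟨0,[]⟩,⟨0,[]⟩⟩,⟨false,0,⟨0,[]⟩,
  ⟨0,[]⟩⟩,[.o ⟨false,0,⟨12,[(12,2),(0,0),(4,2),(3,4),(27,15),(1,1),(0,0)]⟩,⟨1,[(0,0),(32,1),(1,0),
  (32,0)]⟩⟩,.o ⟨false,0,⟨2,[(12,0),(5,0),(3,0),(18,1),(8,0),(1,0)]⟩,⟨98,[(5,21),(5,43),(21,34),(6,
  30),(21,14),(5,2),(1,5)]⟩⟩,.e ⟨false,0,⟨0,[]⟩,⟨33,[(11,4),(33,4),(4,9),(11,0),(3,4),(1,21)]⟩⟩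
  ⟨false,0,⟨1,[(12,0),(28,0),(8,0),(12,0)]⟩,⟨111,[(0,38),(6,40),(3,8),(10,29),(10,45),(28,3),(0,40),
  (4,14)]⟩⟩,.a ⟨true,0,⟨0,[(52,0)]⟩,⟨0,[(49,0)]⟩⟩ ⟨true,0,⟨16,[(13,0),(6,1),(17,1),(10,3),(0,0),(10,
  6)]⟩,⟨1,[(52,0),(0,0)]⟩⟩ ⟨false,0,⟨9,[(12,2),(5,0),(1,0),(10,1),(9,7),(7,4),(0,2)]⟩,⟨30,[(0,17),
  (6,3),(3,2),(10,14),(10,11),(18,7),(9,2),(0,26)]⟩⟩]⟩)) (.I [-2,-1,-1,-1,1,0,0,-1] (.Q [2,0,0,2,-1,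
  0,1,1,2,-3,1,2] (.p true [0,0,1] [3,-1,0,0,-2] (⟨0,[(55,0)]⟩,⟨0,[(54,0)]⟩) .k 2 (⟨0,[(16,0),(30,
  0),(7,0)]⟩,⟨0,[(8,0),(15,0)]⟩) (.r (-1) ⟨171,[(0,63),(10,24),(0,31),(16,12),(7,24),(12,49),(11,9),
  (4,24),(2,13)]⟩ ⟨0,[(63,0),(6,0)]⟩) (.r 0 ⟨0,[(36,0)]⟩ ⟨151,[(7,50),(3,24),(33,24),(6,49),(9,4),
  (3,24),(1,40),(0,0),(0,132)]⟩)) (.R ⟨1,true,false,true,[2,0,-1,0,-1],[-1,1,0,0,1],[2,1,1,1],(⟨0,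
  [(17,0),(43,0)]⟩,⟨0,[(25,0)]⟩),(⟨1,[(9,0),(34,0),(4,0)]⟩,⟨0,[(17,0),(38,0)]⟩),⟨0,[(17,0)]⟩,.k,(.r
  0 ⟨54,[(0,3),(9,6),(15,14),(24,24),(1,3),(0,3),(8,1),(0,46)]⟩ ⟨103,[(1,19),(10,14),(0,9),(19,21),
  (4,14),(12,29),(11,5),(4,14),(0,4)]⟩),(.r (-1) ⟨236,[(1,38),(6,98),(3,19),(17,42),(7,19),(12,39),
  (10,12),(0,7),(2,71)]⟩ ⟨9,[(0,1),(1,3),(29,0),(4,0),(13,5),(2,0),(8,0),(0,4)]⟩),(.r (-1) ⟨0,[(1,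
  0),(2,1),(0,4),(7,0),(1,0),(4,4),(0,3),(3,4),(32,4),(7,0),(3,9)]⟩ ⟨9,[(0,1),(1,3),(29,0),(4,0),
  (13,5),(2,0),(8,0),(0,4)]⟩),(.x (-1) ⟨0,[(2,0),(6,0),(15,0),(18,0),(1,0),(6,0)]⟩ ⟨1,[(17,3),(3,2),
  (1,0),(30,1),(1,1)]⟩),.k,⟨true,0,⟨0,[]⟩,⟨1,[(53,0),(0,0)]⟩⟩,⟨false,0,⟨0,[(21,0),(9,0)]⟩,⟨9,[(2,4),
  (3,4),(7,0),(31,2),(4,8),(12,4),(4,1)]⟩⟩,⟨false,0,⟨9,[(0,1),(1,3),(29,0),(4,0),(13,5),(2,0),(8,0),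
  (0,4)]⟩,⟨0,[(1,0)]⟩⟩,⟨true,(-1),⟨0,[(0,0),(65,0)]⟩,⟨0,[(6,0),(35,0)]⟩⟩,⟨true,(-1),⟨8,[(0,8),(1,5),
  (11,0),(1,0),(18,7),(17,2)]⟩,⟨0,[(1,0),(64,0)]⟩⟩,⟨false,(-1),⟨0,[(0,0)]⟩,⟨3,[(1,1),(0,0),(3,1),(6,
  0),(24,2),(14,1),(15,0)]⟩⟩,[]⟩) (.R ⟨0,false,false,true,[0,0,1],[0,0,2],[1,1],(⟨0,[(56,0)]⟩,⟨0,
  [(55,0)]⟩),(⟨0,[(56,1)]⟩,⟨0,[(9,0),(7,0)]⟩),⟨0,[(45,0)]⟩,.k,.k,.k,.k,.k,.k,⟨false,1,⟨41,[(8,34),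
  (1,4),(28,3),(6,4),(6,9),(8,12),(0,0)]⟩,⟨0,[(37,1)]⟩⟩,⟨true,0,⟨0,[(40,0)]⟩,⟨0,[(54,0)]⟩⟩,⟨true,0,
  ⟨1,[(39,0),(12,0),(0,0)]⟩,⟨0,[(37,0)]⟩⟩,⟨false,0,⟨0,[(42,0)]⟩,⟨35,[(6,3),(5,7),(21,4),(6,6),(21,
  2),(5,17)]⟩⟩,⟨false,0,⟨0,[]⟩,⟨0,[]⟩⟩,⟨false,0,⟨0,[]⟩,⟨0,[]⟩⟩,[.o ⟨false,0,⟨12,[(13,2),(0,0),(4,2),
  (3,4),(27,15),(1,1),(0,0)]⟩,⟨5,[(1,3),(5,0),(4,0),(21,3),(8,0),(10,1),(9,1)]⟩⟩,.o ⟨false,0,⟨2,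
  [(13,0),(5,0),(3,0),(18,1),(8,0),(1,0)]⟩,⟨222,[(1,1),(4,21),(3,67),(1,79),(5,103),(24,0),(19,42),
  (5,32),(0,1)]⟩⟩,.e ⟨false,0,⟨0,[]⟩,⟨33,[(12,4),(33,4),(4,9),(11,0),(3,4),(1,21)]⟩⟩ ⟨false,0,⟨1,
  [(13,0),(28,0),(8,0),(12,0)]⟩,⟨0,[(8,0),(45,0)]⟩⟩,.a ⟨true,0,⟨0,[(53,0)]⟩,⟨0,[(50,0)]⟩⟩ ⟨true,0,
  ⟨16,[(14,0),(6,1),(17,1),(10,3),(0,0),(10,6)]⟩,⟨1,[(53,0),(0,0)]⟩⟩ ⟨false,0,⟨9,[(13,2),(5,0),(1,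
  0),(10,1),(9,7),(7,4),(0,2)]⟩,⟨0,[(7,0),(15,0),(40,0)]⟩⟩]⟩)) (.I [1,0,-2,-2,1,0,0,-1] (.I [0,0,-2,
  -2,1,0,0,-1] (.I [2,0,2,2,-1,0,0,1] (.N [0,2,1,0,1] 1 ⟨0,[(0,0)]⟩ ⟨0,[(1,0)]⟩ (.x (-1) ⟨33,[(7,
  16),(2,3),(8,33),(3,23),(1,1),(23,7),(3,7),(4,16),(6,9),(4,7),(0,1)]⟩ ⟨0,[(4,0),(6,0),(30,0),(3,
  1),(12,0),(12,0)]⟩)) (.N [0,2,1,0,2] 1 ⟨0,[(3,0),(62,0)]⟩ ⟨0,[(0,0)]⟩ (.x 0 ⟨1,[(19,3),(3,2),(1,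
  0),(30,1),(1,1)]⟩ ⟨0,[(4,0),(6,0),(15,0),(18,0),(1,0),(6,0)]⟩))) (.N [0,2,1] 1 ⟨0,[(0,0)]⟩ ⟨0,[(1,
  0)]⟩ (.x (-1) ⟨0,[(6,0),(15,0),(24,0)]⟩ ⟨8,[(3,4),(8,2),(32,11),(2,4),(5,6),(0,5)]⟩))) (.N [0,2,1,
  0,-1] 1 ⟨0,[(0,0)]⟩ ⟨1,[(3,1),(7,0),(28,1),(3,0),(5,1),(6,2),(8,1)]⟩ (.x (-1) ⟨134,[(5,134),(2,
  27),(5,83),(1,17),(4,68),(17,9),(9,134),(13,29),(4,46)]⟩ ⟨2,[(2,0),(17,2),(23,2),(2,3),(5,1),(0,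
  2)]⟩))))) (.Q [0,-1,0,-1,1,0,-1,-1,0,2,-1] (.p false [-1,1,1] [1] (⟨0,[(41,0)]⟩,⟨0,[(14,0),(31,
  0)]⟩) .k 1 (⟨0,[]⟩,⟨0,[]⟩) .k .k) (.R ⟨1,true,true,true,[2,-1,-1],[],[0,1,1],(⟨5,[(0,0),(0,0),(1,
  2),(34,1),(9,0),(4,2)]⟩,⟨0,[(42,0)]⟩),(⟨0,[]⟩,⟨0,[]⟩),⟨0,[(3,0)]⟩,.k,.k,(.r (-2) ⟨71,[(0,1),(5,
  35),(3,17),(17,52),(7,17),(12,37),(11,7),(4,0)]⟩ ⟨0,[(1,0),(60,0)]⟩),.k,(.r (-2) ⟨71,[(0,1),(5,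
  35),(3,17),(17,52),(7,17),(12,37),(11,7),(4,0)]⟩ ⟨0,[(1,0),(60,0)]⟩),.k,⟨true,0,⟨1,[(51,0),(0,
  0)]⟩,⟨0,[]⟩⟩,⟨false,1,⟨0,[(19,0),(24,0)]⟩,⟨0,[(0,0),(0,0)]⟩⟩,⟨true,(-1),⟨1,[(1,1),(49,0),(0,0)]⟩,
  ⟨5,[(6,1),(21,2),(8,1),(28,0)]⟩⟩,⟨false,0,⟨5,[(1,1),(15,1),(1,0),(1,0),(8,0),(18,0),(11,0),(3,
  0)]⟩,⟨0,[(0,0)]⟩⟩,⟨false,(-1),⟨0,[(1,0),(60,0)]⟩,⟨107,[(0,29),(5,45),(21,92),(20,13),(1,15),(9,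
  11),(5,22)]⟩⟩,⟨true,(-1),⟨19,[(1,19),(15,11),(1,4),(1,6),(10,3),(4,7),(22,1),(4,3)]⟩,⟨0,[(0,0),
  (63,0)]⟩⟩,[]⟩) (.Q [1,-1,0,-1,1,0,-1,-1,1,1,-1,1] (.p false [-1,1,1] [0,0,0,0,1] (⟨0,[(42,0)]⟩,⟨0,
  [(15,0),(31,0)]⟩) .k 2 (⟨0,[(47,0)]⟩,⟨0,[(46,0)]⟩) .k (.r 0 ⟨51,[(1,13),(9,13),(29,4),(7,9),(11,
  0),(5,11)]⟩ ⟨32,[(6,10),(1,1),(1,7),(33,9),(4,8),(1,10),(9,1),(3,7)]⟩)) (.R ⟨1,true,false,true,[2,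
  -1,-1],[1,0,0,0,-1],[0,1],(⟨0,[(16,0),(31,0)]⟩,⟨0,[(43,0)]⟩),(⟨0,[(47,0)]⟩,⟨0,[(48,0)]⟩),⟨0,[(4,
  0)]⟩,.k,.k,(.r (-2) ⟨55,[(0,0),(6,27),(3,13),(17,40),(7,14),(12,28),(11,5),(4,0)]⟩ ⟨0,[(2,0),(60,
  0)]⟩),(.r (-1) ⟨55,[(7,27),(3,4),(17,13),(7,4),(12,9),(11,1),(2,17)]⟩ ⟨73,[(0,8),(1,51),(39,10),
  (2,8),(4,30),(11,3),(0,21),(2,8),(1,25)]⟩),(.r (-2) ⟨55,[(0,0),(6,27),(3,13),(17,40),(7,14),(12,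
  28),(11,5),(4,0)]⟩ ⟨1,[(1,1),(2,2),(9,0),(4,2),(4,2),(32,2),(5,1),(5,2)]⟩),.k,⟨true,0,⟨0,[]⟩,⟨1,
  [(52,0),(0,0)]⟩⟩,⟨false,1,⟨42,[(7,11),(5,23),(6,18),(24,13),(15,5),(0,0),(4,14)]⟩,⟨0,[(0,0),(1,
  0)]⟩⟩,⟨true,(-1),⟨0,[(2,0)]⟩,⟨55,[(7,27),(3,4),(17,13),(7,4),(12,9),(11,1),(2,17)]⟩⟩,⟨false,0,⟨14,
  [(1,1),(1,2),(14,8),(31,6),(11,0),(3,0)]⟩,⟨0,[(0,0)]⟩⟩,⟨false,(-1),⟨2,[(1,0),(0,1),(36,0),(9,1),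
  (13,2)]⟩,⟨11,[(0,3),(4,1),(1,1),(21,8),(22,7),(9,1),(5,2)]⟩⟩,⟨true,(-1),⟨2,[(1,0),(0,1),(0,1),(16,
  0),(10,0),(7,0),(10,0)]⟩,⟨0,[(0,0),(64,0)]⟩⟩,[]⟩) (.R ⟨0,false,false,true,[0,0,1],[0,0,2],[1,1],
  (⟨0,[(55,0)]⟩,⟨0,[(54,0)]⟩),(⟨0,[(55,1)]⟩,⟨0,[(8,0),(7,0)]⟩),⟨0,[(44,0)]⟩,.k,.k,.k,.k,.k,.k,
  ⟨false,1,⟨41,[(7,34),(1,4),(28,3),(6,4),(6,9),(8,12),(0,0)]⟩,⟨0,[(36,1)]⟩⟩,⟨true,0,⟨0,[(39,0)]⟩,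
  ⟨0,[(53,0)]⟩⟩,⟨true,0,⟨1,[(38,0),(12,0),(0,0)]⟩,⟨0,[(36,0)]⟩⟩,⟨false,0,⟨0,[(41,0)]⟩,⟨35,[(5,3),(5,
  7),(21,4),(6,6),(21,2),(5,17)]⟩⟩,⟨false,0,⟨0,[]⟩,⟨0,[]⟩⟩,⟨false,0,⟨0,[]⟩,⟨0,[]⟩⟩,[.o ⟨false,0,⟨12,
  [(1,1),(10,1),(0,0),(8,1),(18,7),(8,10),(1,1),(9,0)]⟩,⟨4,[(5,0),(1,3),(6,0),(5,1),(32,7),(9,0)]⟩⟩,
  .o ⟨false,0,⟨18,[(1,1),(10,3),(0,0),(4,1),(3,3),(18,24),(10,3),(9,0)]⟩,⟨98,[(5,21),(5,43),(21,34),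
  (6,30),(21,14),(5,2),(1,5)]⟩⟩,.e ⟨false,0,⟨0,[]⟩,⟨33,[(11,4),(33,4),(4,9),(11,0),(3,4),(1,21)]⟩⟩
  ⟨false,0,⟨1,[(12,0),(28,0),(8,0),(12,0)]⟩,⟨0,[(7,0),(45,0)]⟩⟩,.a ⟨true,0,⟨0,[(52,0)]⟩,⟨0,[(49,
  0)]⟩⟩ ⟨true,0,⟨16,[(13,0),(6,1),(17,1),(10,3),(0,0),(10,6)]⟩,⟨1,[(52,0),(0,0)]⟩⟩ ⟨false,0,⟨15,[(0,
  0),(11,4),(7,0),(10,3),(9,13),(7,6),(0,2),(16,0)]⟩,⟨0,[(6,0),(15,0),(40,0)]⟩⟩]⟩))))) (.R ⟨0,false,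
  false,false,[0,0,1],[0,0,2],[1],(⟨0,[(51,0)]⟩,⟨0,[(50,0)]⟩),(⟨0,[(51,1)]⟩,⟨0,[(4,0),(7,0)]⟩),⟨0,
  [(40,0)]⟩,.k,.k,.k,.k,.k,.k,⟨false,1,⟨41,[(3,34),(1,4),(28,3),(6,4),(6,9),(8,12),(0,0)]⟩,⟨0,[(32,
  1)]⟩⟩,⟨true,0,⟨0,[(35,0)]⟩,⟨0,[(49,0)]⟩⟩,⟨false,1,⟨33,[(3,12),(3,4),(33,4),(4,1),(1,7),(9,0),(0,
  4),(4,8)]⟩,⟨0,[(32,0)]⟩⟩,⟨true,0,⟨0,[(37,0)]⟩,⟨0,[(47,0)]⟩⟩,⟨false,0,⟨0,[]⟩,⟨0,[]⟩⟩,⟨false,0,⟨0,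
  []⟩,⟨0,[]⟩⟩,[.o ⟨false,0,⟨2,[(8,0),(5,0),(3,0),(18,1),(8,0),(1,0)]⟩,⟨98,[(1,21),(5,43),(21,34),(6,
  30),(21,14),(5,2),(1,5)]⟩⟩,.o ⟨false,0,⟨2,[(0,0),(5,0),(1,2),(26,5),(16,3),(6,2)]⟩,⟨72,[(1,13),(3,
  50),(15,1),(14,13),(4,20),(16,18),(7,19)]⟩⟩,.a ⟨true,0,⟨0,[(35,0)]⟩,⟨3,[(12,0),(25,1),(5,0),(6,0),
  (4,0)]⟩⟩ ⟨true,0,⟨0,[]⟩,⟨0,[(66,0)]⟩⟩ ⟨false,0,⟨0,[(8,0),(26,0),(23,0)]⟩,⟨18,[(1,3),(1,6),(1,7),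
  (42,4),(9,3),(0,1),(2,1),(3,0)]⟩⟩,.e ⟨false,1,⟨1,[(63,0),(0,0)]⟩,⟨1,[(48,0),(0,0)]⟩⟩ ⟨false,0,⟨2,
  [(0,0),(5,0),(1,2),(26,5),(9,2),(6,3),(6,2)]⟩,⟨166,[(1,43),(1,19),(1,60),(1,26),(21,29),(18,126),
  (9,37),(0,40),(5,18)]⟩⟩]⟩))))))

theorem ok21 : chk K t21 l32 = true := by decide +kernel

noncomputable def t22 : Tre :=
  (.Q [0,0,0,0,0,-2,0,0,0,2,-1] (.p false [-1,1,1] [1] (⟨0,[(34,0)]⟩,⟨0,[(7,0),(31,0)]⟩) .k 1 (⟨0,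
  []⟩,⟨0,[]⟩) .k .k) (.I [0,-1,1,2,-1,0,0,2] (.R ⟨1,true,false,false,[2,-1,-1],[1,0,1,0,-1],[0,0,0,
  0,0,0,0,1],(⟨0,[(1,0),(51,0)]⟩,⟨0,[(36,0)]⟩),(⟨0,[(40,0),(7,0)]⟩,⟨0,[(16,0)]⟩),⟨0,[(1,0)]⟩,.k,.k,
  (.r (-2) ⟨3,[(4,1),(8,0),(8,2),(9,2),(5,2)]⟩ ⟨0,[(0,0),(43,0),(0,0)]⟩),(.r (-2) ⟨11,[(4,6),(17,0),
  (7,2),(0,9),(0,13),(5,3),(16,1),(5,4)]⟩ ⟨0,[(0,0),(57,0)]⟩),(.r (-2) ⟨35,[(4,11),(3,6),(6,1),(6,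
  29),(8,40),(13,28),(9,2),(5,23)]⟩ ⟨1,[(0,1),(44,0),(0,0),(16,1)]⟩),.k,⟨true,0,⟨0,[]⟩,⟨1,[(45,0),
  (0,0)]⟩⟩,⟨false,1,⟨3,[(6,1),(6,1),(17,1),(0,3),(5,1),(21,0),(0,0)]⟩,⟨0,[(0,0),(3,0),(53,0)]⟩⟩,
  ⟨true,(-1),⟨0,[(0,0),(57,0)]⟩,⟨35,[(4,11),(3,6),(6,1),(6,11),(8,40),(13,28),(9,2),(5,5)]⟩⟩,⟨false,
  0,⟨0,[(11,0),(22,0)]⟩,⟨0,[(4,0)]⟩⟩,⟨false,(-1),⟨0,[(0,0)]⟩,⟨23,[(4,11),(3,6),(6,1),(6,17),(8,16),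
  (13,28),(9,2),(5,11)]⟩⟩,⟨true,(-1),⟨7,[(0,7),(5,5),(6,2),(1,0),(15,6),(11,0),(1,4)]⟩,⟨0,[(4,0),
  (53,0)]⟩⟩,[]⟩) (.Q [2,0,0,-1,0,0,1,1,2,-1,1,2] (.p true [0,0,1] [1,1,0,0,-2] (⟨0,[(48,0)]⟩,⟨0,
  [(47,0)]⟩) .k 2 (⟨0,[(12,0),(27,0)]⟩,⟨1,[(1,0),(14,0),(0,1),(23,0)]⟩) (.r 0 ⟨3,[(33,0),(9,0),(12,
  0),(2,1),(2,2)]⟩ ⟨37,[(4,4),(17,13),(7,4),(12,9),(11,1),(4,4),(0,4)]⟩) (.r 0 ⟨0,[(29,0)]⟩ ⟨43,[(0,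
  16),(3,4),(33,4),(6,9),(9,0),(3,38),(1,14),(0,6),(0,12)]⟩)) (.R ⟨1,true,false,false,[1,-1,0,0,1],
  [2,0,-1,0,-1],[0,0,0,0,0,0,0,-1],(⟨1,[(2,0),(39,1),(6,0)]⟩,⟨0,[(13,0)]⟩),(⟨0,[(10,0),(43,0)]⟩,⟨0,
  [(18,0)]⟩),⟨0,[(2,0),(15,0)]⟩,(.r (-1) ⟨75,[(0,9),(4,4),(17,17),(7,24),(24,3),(4,19)]⟩ ⟨0,[(57,0),
  (6,0)]⟩),.k,(.r (-1) ⟨0,[(26,0)]⟩ ⟨0,[(57,1),(6,1)]⟩),(.r (-1) ⟨7,[(0,1),(4,0),(0,3),(24,0),(7,3),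
  (21,1)]⟩ ⟨2,[(32,1),(1,0),(11,0),(10,1),(5,1)]⟩),(.r (-1) ⟨151,[(0,9),(4,4),(0,75),(16,93),(7,24),
  (24,3),(4,19)]⟩ ⟨0,[(34,0),(11,0),(10,0),(6,0)]⟩),.k,⟨true,0,⟨0,[]⟩,⟨1,[(46,0),(0,0)]⟩⟩,⟨false,1,
  ⟨3,[(7,1),(0,1),(0,1),(51,2),(0,0)]⟩,⟨0,[(24,0),(15,0),(5,0)]⟩⟩,⟨true,0,⟨2,[(32,0),(1,1),(11,1),
  (10,0),(5,0)]⟩,⟨4,[(6,2),(25,0),(22,0),(3,1)]⟩⟩,⟨false,1,⟨0,[(9,0),(50,0),(1,0)]⟩,⟨0,[(0,0)]⟩⟩,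
  ⟨false,0,⟨1,[(2,4),(5,0),(0,1),(3,4),(0,3),(3,4),(32,4),(5,3),(5,6)]⟩,⟨49,[(0,11),(2,0),(2,17),
  (16,22),(7,22),(15,13),(8,1),(2,0)]⟩⟩,⟨true,0,⟨5,[(9,3),(1,2),(0,0),(20,2),(9,2),(13,2),(2,4)]⟩,
  ⟨0,[(0,0),(58,0)]⟩⟩,[]⟩) (.Q [0,0,0,0,0,-1,0,0,0,1,1,-1] (.p false [0,0,-1,0,1] [1] (⟨0,[(17,0)]⟩,
  ⟨0,[(41,0),(7,0)]⟩) .k 1 (⟨0,[]⟩,⟨0,[]⟩) .k (.r (-1) ⟨47,[(1,13),(3,9),(33,9),(6,19),(9,1),(3,37),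
  (0,2),(0,6)]⟩ ⟨0,[(0,0),(1,3),(0,0),(4,1),(4,3),(0,2),(3,3),(32,3),(7,0),(3,7)]⟩)) (.Q [2,0,0,1,0,
  0,-2,-2,2,-1,-2,2] (.p true [0,0,-1,0,1] [1,0,1,0,-1] (⟨0,[(18,0)]⟩,⟨0,[(0,0),(54,0)]⟩) .k 2 (⟨0,
  [(0,0),(54,0)]⟩,⟨0,[(18,0)]⟩) .k (.r (-1) ⟨2,[(2,1),(32,1),(11,1),(13,1),(1,0)]⟩ ⟨0,[(0,1),(0,1),
  (1,3),(0,1),(4,3),(5,5),(3,1),(32,9),(7,1),(3,15)]⟩)) (.R ⟨1,true,false,true,[1,0,1,0,-1],[0,0,-1,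
  0,1],[2,1,0,0,0,0,0,-1],(⟨0,[(1,0),(54,0)]⟩,⟨0,[(19,0)]⟩),(⟨0,[(19,0)]⟩,⟨0,[(1,0),(54,0)]⟩),⟨0,
  [(1,0)]⟩,.k,.k,(.r (-1) ⟨75,[(7,14),(0,37),(16,3),(7,14),(12,29),(11,5),(4,14),(0,14)]⟩ ⟨0,[(36,
  0),(11,0)]⟩),.k,(.r 0 ⟨0,[(8,0)]⟩ ⟨15,[(0,2),(6,2),(26,7),(1,11),(4,8),(6,23),(13,3),(1,3)]⟩),.k,
  ⟨true,0,⟨0,[]⟩,⟨1,[(48,0),(0,0)]⟩⟩,⟨false,0,⟨0,[(0,0),(7,0)]⟩,⟨9,[(2,4),(6,0),(23,4),(1,19),(5,2),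
  (4,3),(17,1)]⟩⟩,⟨false,1,⟨13,[(0,0),(2,3),(3,0),(26,7),(1,7),(4,2),(6,11),(15,5)]⟩,⟨0,[(8,0),(50,
  0)]⟩⟩,⟨true,0,⟨0,[(0,0),(60,0)]⟩,⟨1,[(4,0),(4,1),(27,1),(13,0),(4,1)]⟩⟩,⟨true,0,⟨0,[(34,0),(1,0),
  (11,0)]⟩,⟨1,[(8,1),(39,0),(0,0)]⟩⟩,⟨false,0,⟨0,[(0,0)]⟩,⟨1,[(4,0),(0,1),(27,1),(17,0),(4,1)]⟩⟩,
  []⟩) (.R ⟨0,false,false,false,[0,0,1],[0,0,2],[1],(⟨0,[(51,0)]⟩,⟨0,[(50,0)]⟩),(⟨0,[(51,1)]⟩,⟨0,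
  [(4,0),(1,0)]⟩),⟨0,[(40,0)]⟩,.k,.k,.k,.k,.k,.k,⟨false,1,⟨2,[(3,0),(30,2),(1,0),(11,0),(13,0),(1,
  1)]⟩,⟨0,[(32,1)]⟩⟩,⟨true,0,⟨0,[(35,0)]⟩,⟨0,[(49,0)]⟩⟩,⟨false,1,⟨2,[(3,0),(32,0),(11,0),(13,0),(1,
  1)]⟩,⟨0,[(32,0)]⟩⟩,⟨true,0,⟨0,[(37,0)]⟩,⟨0,[(47,0)]⟩⟩,⟨false,0,⟨0,[]⟩,⟨0,[]⟩⟩,⟨false,0,⟨0,[]⟩,⟨0,
  []⟩⟩,[.o ⟨false,0,⟨1,[(5,0),(25,0),(5,0),(8,0)]⟩,⟨32,[(2,10),(4,21),(21,7),(6,2),(21,4),(5,0),(1,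
  1)]⟩⟩,.o ⟨false,0,⟨0,[(5,0),(36,0)]⟩,⟨20,[(7,10),(13,8),(14,10),(4,1),(16,3),(7,11)]⟩⟩,.a ⟨true,0,
  ⟨0,[(35,0)]⟩,⟨3,[(4,0),(33,1),(12,0),(4,1)]⟩⟩ ⟨true,0,⟨0,[]⟩,⟨0,[(66,0)]⟩⟩ ⟨false,0,⟨4,[(0,0),(4,
  1),(2,1),(33,3),(2,0),(13,2)]⟩,⟨71,[(2,2),(0,23),(3,16),(28,58),(4,10),(6,23),(9,3),(3,2),(1,
  11)]⟩⟩,.e ⟨false,1,⟨1,[(63,0),(0,0)]⟩,⟨1,[(48,0),(0,0)]⟩⟩ ⟨false,0,⟨0,[(5,0),(36,0),(2,0)]⟩,⟨47,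
  [(2,14),(0,1),(3,29),(21,4),(6,11),(11,43),(9,7),(0,1),(5,3)]⟩⟩]⟩)) (.R ⟨0,false,false,false,[0,0,
  1],[0,0,2],[1],(⟨0,[(50,0)]⟩,⟨0,[(49,0)]⟩),(⟨0,[(50,1)]⟩,⟨0,[(3,0),(1,0)]⟩),⟨0,[(39,0)]⟩,.k,.k,.k,
  .k,.k,.k,⟨false,1,⟨2,[(2,0),(30,2),(1,0),(11,0),(13,0),(1,1)]⟩,⟨0,[(31,1)]⟩⟩,⟨true,0,⟨0,[(34,0)]⟩,
  ⟨0,[(48,0)]⟩⟩,⟨false,1,⟨2,[(2,0),(32,0),(11,0),(13,0),(1,1)]⟩,⟨0,[(31,0)]⟩⟩,⟨true,0,⟨0,[(36,0)]⟩,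
  ⟨0,[(46,0)]⟩⟩,⟨false,0,⟨0,[]⟩,⟨0,[]⟩⟩,⟨false,0,⟨0,[]⟩,⟨0,[]⟩⟩,[.o ⟨false,0,⟨1,[(4,0),(25,0),(5,0),
  (8,0)]⟩,⟨32,[(1,10),(4,21),(21,7),(6,2),(21,4),(5,0),(1,1)]⟩⟩,.o ⟨false,0,⟨0,[(4,0),(36,0)]⟩,⟨20,
  [(6,10),(13,8),(14,10),(4,1),(16,3),(7,11)]⟩⟩,.a ⟨true,0,⟨0,[(34,0)]⟩,⟨3,[(3,0),(33,1),(12,0),(4,
  1)]⟩⟩ ⟨true,0,⟨0,[]⟩,⟨0,[(65,0)]⟩⟩ ⟨false,0,⟨3,[(3,0),(0,1),(2,1),(33,1),(8,0),(4,1),(2,1)]⟩,⟨71,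
  [(1,2),(0,23),(3,16),(28,58),(4,10),(6,23),(9,3),(3,2),(1,11)]⟩⟩,.e ⟨false,1,⟨1,[(62,0),(0,0)]⟩,
  ⟨1,[(47,0),(0,0)]⟩⟩ ⟨false,0,⟨0,[(4,0),(36,0),(2,0)]⟩,⟨47,[(1,14),(0,1),(3,29),(21,4),(6,11),(11,
  43),(9,7),(0,1),(5,3)]⟩⟩]⟩)))) (.Q [1,-1,0,2,-1,0,2,2,1,-3,2,1] (.p true [-1,1,1] [2,0,-1,0,-1]
  (⟨0,[(35,0)]⟩,⟨0,[(8,0),(31,0)]⟩) .k 2 (⟨0,[(8,0),(43,0)]⟩,⟨0,[(16,0)]⟩) .k (.r 0 ⟨0,[(28,1)]⟩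
  ⟨29,[(3,9),(5,8),(20,29),(1,0),(4,0),(6,29),(9,1),(5,14)]⟩)) (.Q [0,0,-1,0,0,0,2,0,1,-3,2,1] (.p
  true [-1,1,1] [2,0,-1,0,-1] (⟨0,[(36,0)]⟩,⟨0,[(9,0),(31,0)]⟩) .k 2 (⟨0,[(9,0),(43,0)]⟩,⟨0,[(17,
  0)]⟩) .k (.r 0 ⟨0,[(29,1)]⟩ ⟨29,[(4,9),(5,8),(20,29),(1,0),(4,0),(6,29),(9,1),(5,14)]⟩)) (.I [1,0,
  1,1,-1,0,0,2] (.Q [0,0,2,0,0,0,-2,0,-1,3,-2,-1] (.p false [-1,1,1] [2,0,-1,0,-1] (⟨0,[(38,0)]⟩,⟨0,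
  [(11,0),(31,0)]⟩) .k 2 (⟨0,[(11,0),(43,0)]⟩,⟨0,[(19,0)]⟩) .k (.r 0 ⟨67,[(0,38),(5,9),(0,28),(32,
  9),(4,19),(11,1),(4,4),(0,9)]⟩ ⟨14,[(1,1),(4,5),(5,4),(20,11),(1,0),(4,2),(6,13),(15,5)]⟩)) (.R
  ⟨1,true,false,false,[2,0,-1,0,-1],[-1,1,1],[0,1],(⟨0,[(12,0),(43,0)]⟩,⟨0,[(20,0)]⟩),(⟨0,[(39,0)]⟩,
  ⟨0,[(12,0),(31,0)]⟩),⟨0,[(12,0)]⟩,.k,.k,(.r (-1) ⟨17,[(2,3),(4,4),(3,1),(13,3),(7,4),(0,5),(0,3),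
  (28,3)]⟩ ⟨73,[(0,14),(0,21),(40,14),(3,29),(11,8),(0,21),(2,29),(1,3)]⟩),(.r (-2) ⟨17,[(2,5),(4,
  10),(25,6),(0,13),(0,5),(5,9),(6,3),(14,0),(0,6)]⟩ ⟨0,[(1,0)]⟩),(.r (-2) ⟨8,[(2,3),(4,4),(3,1),
  (13,3),(7,4),(0,5),(0,3),(28,3)]⟩ ⟨0,[(1,0),(57,0),(6,0)]⟩),.k,⟨false,1,⟨11,[(2,1),(4,1),(17,2),
  (7,3),(0,7),(22,1),(5,2)]⟩,⟨73,[(0,4),(0,31),(40,4),(3,9),(11,2),(0,31),(2,9),(1,25)]⟩⟩,⟨true,0,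
  ⟨0,[(2,0)]⟩,⟨0,[(0,0)]⟩⟩,⟨false,0,⟨73,[(0,4),(0,15),(6,15),(33,4),(3,9),(11,2),(4,4),(0,4)]⟩,⟨29,
  [(2,1),(4,5),(5,4),(20,11),(1,0),(4,2),(6,13),(15,20)]⟩⟩,⟨true,(-1),⟨0,[(1,0),(0,0)]⟩,⟨3,[(0,1),
  (6,1),(3,0),(21,1),(0,2),(0,1),(9,0)]⟩⟩,⟨true,(-1),⟨0,[(1,0),(32,0)]⟩,⟨53,[(2,11),(4,21),(3,9),
  (13,8),(7,13),(14,29),(9,1),(5,4)]⟩⟩,⟨false,(-1),⟨0,[(3,0)]⟩,⟨10,[(0,2),(6,8),(3,3),(13,1),(7,8),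
  (1,7),(9,1),(18,1)]⟩⟩,[]⟩) (.Q [0,0,0,0,0,0,0,0,0,1,-2] (.ed true [0,0,2] (.r 0 ⟨67,[(1,38),(5,9),
  (0,28),(32,9),(4,19),(11,1),(4,4),(0,9)]⟩ ⟨14,[(2,1),(4,5),(5,4),(20,11),(1,0),(4,2),(6,13),(15,
  5)]⟩)) (.R ⟨0,false,false,false,[0,0,1],[0,0,2],[1],(⟨0,[(52,0)]⟩,⟨0,[(51,0)]⟩),(⟨0,[(52,1)]⟩,⟨0,
  [(0,0)]⟩),⟨0,[(41,0)]⟩,.k,.k,.k,.k,.k,.k,⟨false,1,⟨29,[(3,1),(4,5),(5,4),(20,41),(1,0),(4,2),(6,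
  13),(15,20)]⟩,⟨67,[(2,38),(5,9),(0,28),(32,9),(4,19),(11,1),(4,4),(0,9)]⟩⟩,⟨true,0,⟨0,[(36,0)]⟩,
  ⟨0,[(50,0)]⟩⟩,⟨false,1,⟨29,[(3,1),(4,5),(5,4),(20,11),(1,0),(4,2),(6,13),(15,20)]⟩,⟨0,[(33,0)]⟩⟩,
  ⟨true,0,⟨0,[(38,0)]⟩,⟨0,[(48,0)]⟩⟩,⟨false,0,⟨0,[]⟩,⟨0,[]⟩⟩,⟨false,0,⟨0,[]⟩,⟨0,[]⟩⟩,[.o ⟨false,0,
  ⟨11,[(2,0),(3,3),(2,0),(9,3),(18,5),(8,5),(17,0)]⟩,⟨6,[(8,3),(3,1),(17,0),(6,2),(21,0),(5,0)]⟩⟩,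
  .o ⟨false,0,⟨0,[(6,0),(36,0)]⟩,⟨20,[(8,10),(13,8),(14,10),(4,1),(16,3),(7,11)]⟩⟩,.a ⟨true,0,⟨0,
  [(36,0)]⟩,⟨3,[(13,0),(25,1),(5,0),(6,0),(4,0)]⟩⟩ ⟨true,0,⟨0,[]⟩,⟨0,[(67,0)]⟩⟩ ⟨false,0,⟨1,[(2,0),
  (6,0),(26,1),(28,0)]⟩,⟨9,[(3,1),(4,5),(5,4),(20,1),(1,0),(4,2),(6,3),(15,0)]⟩⟩,.e ⟨false,1,⟨1,
  [(64,0),(0,0)]⟩,⟨1,[(49,0),(0,0)]⟩⟩ ⟨false,0,⟨0,[(6,0),(36,0),(2,0)]⟩,⟨71,[(8,43),(3,10),(1,21),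
  (20,0),(1,21),(11,70),(9,10),(5,5),(0,1)]⟩⟩]⟩) (.I [0,0,0,0,0,1,1] (.C [(0,1),(0,0),(10,0),(41,1),
  (12,0)]) (.C [(0,0),(0,0),(6,0),(5,0),(6,0),(15,0)])))) (.I [2,0,1,1,-1,0,0,2] (.N [0,1,2,0,1] 1
  ⟨0,[(0,0)]⟩ ⟨0,[(1,0)]⟩ (.x 0 ⟨0,[(2,0),(9,0),(37,0)]⟩ ⟨5,[(0,0),(3,2),(2,0),(22,0),(2,0),(4,2),
  (2,4),(2,5),(4,3),(1,8),(7,0)]⟩)) (.R ⟨1,true,false,true,[2,0,-1,0,-1],[0,0,1],[1,1,0,0,0,0,0,1],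
  (⟨0,[(12,0),(43,0)]⟩,⟨0,[(20,0)]⟩),(⟨0,[(51,0)]⟩,⟨0,[(50,0)]⟩),⟨0,[(12,0)]⟩,.k,.k,(.r (-1) ⟨75,
  [(0,15),(0,21),(5,4),(17,13),(7,4),(12,9),(11,1),(4,4),(0,4)]⟩ ⟨8,[(3,0),(34,2),(2,0),(4,6),(2,2),
  (9,5),(2,0)]⟩),.k,(.r (-1) ⟨0,[(0,0)]⟩ ⟨6,[(3,0),(28,5),(5,2),(2,0),(4,5),(2,1),(9,4)]⟩),.k,⟨true,
  0,⟨0,[]⟩,⟨1,[(48,0),(0,0)]⟩⟩,⟨false,0,⟨3,[(2,1),(13,0),(18,2),(6,0)]⟩,⟨0,[(33,0),(4,0),(23,0)]⟩⟩,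
  ⟨false,0,⟨0,[(32,1)]⟩,⟨0,[(0,0),(58,0)]⟩⟩,⟨true,(-1),⟨1,[(3,1),(8,0),(31,0),(6,0),(4,0),(4,3)]⟩,
  ⟨7,[(1,0),(5,2),(13,7),(8,2),(14,1),(13,2),(2,0),(1,3)]⟩⟩,⟨true,(-1),⟨1,[(3,1),(8,0),(17,1),(7,1),
  (5,0),(6,0),(4,0),(4,1)]⟩,⟨1,[(1,1),(46,0),(0,0)]⟩⟩,⟨false,(-1),⟨1,[(3,1),(8,0),(31,0),(6,0),(4,
  0),(4,1)]⟩,⟨1,[(7,0),(13,1),(11,0),(30,1)]⟩⟩,[]⟩))) (.I [0,0,0,0,0,1,1] (.I [0,0,-1,0,0,1,-1] (.I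
  [0,0,-2,0,0,-1,1,0,1] (.C [(0,0),(1,0),(0,0),(1,0),(15,0),(31,1),(12,0)]) (.C [(0,0),(12,0),(3,
  0)])) (.C [(0,0),(1,0),(1,0),(7,0),(3,0),(3,0)])) (.C [(0,0),(2,0),(7,0),(6,0),(15,0)]))) (.I [1,
  0,1,1,-1,0,0,2] (.I [1,0,-1,-1,1,0,0,-2] (.N [0,1,2] 1 ⟨0,[(1,0)]⟩ ⟨0,[(0,0)]⟩ (.x (-1) ⟨4,[(0,2),
  (10,4),(1,0),(1,0),(2,4),(7,1),(7,2),(10,2),(11,0)]⟩ ⟨13,[(1,3),(0,1),(0,6),(2,1),(30,5),(10,7),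
  (1,20),(7,1)]⟩)) (.I [0,0,0,0,0,1,1] (.I [0,0,-1,0,0,1,-1] (.I [0,0,-2,0,0,-1,1,0,1] (.C [(0,0),
  (1,0),(0,0),(1,0),(0,0),(15,0),(31,1),(6,0)]) (.C [(0,0),(13,0),(3,0)])) (.C [(0,0),(4,0),(5,0),
  (1,0),(7,0),(14,0)])) (.C [(0,0),(3,0),(7,0),(6,0),(15,0)]))) (.I [-1,0,-1,-1,1,0,0,-2] (.Q [0,0,
  -1,0,0,0,2,0,1,-3,2,1] (.p true [-1,1,1] [2,0,-1,0,-1] (⟨0,[(38,0)]⟩,⟨0,[(11,0),(31,0)]⟩) .k 2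
  (⟨0,[(11,0),(43,0)]⟩,⟨0,[(19,0)]⟩) .k (.r 0 ⟨0,[(31,1)]⟩ ⟨35,[(0,23),(5,4),(28,13),(4,4),(6,23),
  (9,0),(3,14)]⟩)) (.Q [-1,0,0,-1,1,0,-2,-2,-1,3,-2,-1] (.p false [-1,1,1] [2,0,-1,0,-1] (⟨0,[(39,
  0)]⟩,⟨0,[(12,0),(31,0)]⟩) .k 2 (⟨0,[(12,0),(43,0)]⟩,⟨0,[(20,0)]⟩) .k (.r 0 ⟨0,[(32,1)]⟩ ⟨35,[(1,
  23),(5,4),(28,13),(4,4),(6,23),(9,0),(3,14)]⟩)) (.Q [1,0,0,2,-1,0,2,2,1,-3,2,1] (.p true [-1,1,1]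
  [2,0,-1,0,-1] (⟨0,[(40,0)]⟩,⟨0,[(13,0),(31,0)]⟩) .k 2 (⟨0,[(13,0),(43,0)]⟩,⟨0,[(21,0)]⟩) .k (.r 0
  ⟨0,[(33,1)]⟩ ⟨35,[(2,23),(5,4),(28,13),(4,4),(6,23),(9,0),(3,14)]⟩)) (.Q [0,0,2,0,0,0,-2,0,-1,3,
  -2,-1] (.p false [-1,1,1] [2,0,-1,0,-1] (⟨0,[(41,0)]⟩,⟨0,[(14,0),(31,0)]⟩) .k 2 (⟨0,[(14,0),(43,
  0)]⟩,⟨0,[(22,0)]⟩) .k (.r 0 ⟨0,[(34,1)]⟩ ⟨35,[(3,23),(5,4),(28,13),(4,4),(6,23),(9,0),(3,14)]⟩))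
  (.R ⟨1,true,false,false,[2,0,-1,0,-1],[-1,1,1],[0,0,1],(⟨0,[(15,0),(43,0)]⟩,⟨0,[(23,0)]⟩),(⟨0,
  [(42,0)]⟩,⟨0,[(15,0),(31,0)]⟩),⟨0,[(15,0)]⟩,.k,.k,(.r (-1) ⟨75,[(4,37),(5,4),(17,13),(7,4),(12,9),
  (11,1),(4,4),(0,4)]⟩ ⟨55,[(0,27),(0,22),(8,4),(38,19),(11,3),(3,14),(1,9)]⟩),(.r (-1) ⟨0,[(4,0)]⟩
  ⟨52,[(0,41),(0,31),(9,10),(33,9),(3,19),(11,5),(4,9),(0,9)]⟩),(.r (-2) ⟨37,[(4,37),(5,4),(17,13),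
  (7,4),(12,9),(11,1),(4,4),(0,4)]⟩ ⟨0,[(0,0),(0,0)]⟩),.k,⟨false,1,⟨75,[(4,37),(5,4),(17,13),(7,4),
  (12,9),(11,1),(4,4),(0,4)]⟩,⟨1,[(0,0),(0,0),(64,0)]⟩⟩,⟨true,0,⟨0,[(3,0)]⟩,⟨0,[(0,0)]⟩⟩,⟨true,0,
  ⟨23,[(0,8),(0,3),(9,7),(22,4),(16,11),(0,1),(8,1)]⟩,⟨0,[(37,0)]⟩⟩,⟨false,0,⟨45,[(1,22),(6,17),(25,
  40),(14,9),(11,1),(5,18)]⟩,⟨0,[(2,0)]⟩⟩,⟨false,0,⟨1,[(0,0),(0,0),(65,0)]⟩,⟨75,[(4,37),(5,4),(17,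
  13),(7,4),(12,9),(11,1),(4,4),(0,4)]⟩⟩,⟨true,(-1),⟨0,[(1,0)]⟩,⟨0,[(6,0)]⟩⟩,[]⟩) (.Q [0,0,0,0,0,0,
  0,0,0,1,-2] (.ed true [0,0,2] (.r 0 ⟨0,[(35,1)]⟩ ⟨35,[(4,23),(5,4),(28,13),(4,4),(6,23),(9,0),(3,
  14)]⟩)) (.R ⟨0,false,false,true,[1,0,-2],[1,0,-1],[1,1,0,-1,0,0,0,-2],(⟨0,[(0,0)]⟩,⟨0,[(55,1)]⟩),
  (⟨0,[(54,0)]⟩,⟨0,[(55,0)]⟩),⟨1,[(8,0),(46,2)]⟩,.k,.k,(.r (-1) ⟨0,[(6,0)]⟩ ⟨7,[(2,0),(33,7),(5,2),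
  (2,0),(4,5),(2,1),(9,5)]⟩),.k,.k,.k,⟨false,1,⟨75,[(5,37),(5,4),(17,13),(7,4),(12,9),(11,1),(4,4),
  (0,4)]⟩,⟨1,[(31,0),(10,0),(7,0),(15,0)]⟩⟩,⟨true,0,⟨0,[(39,0)]⟩,⟨0,[(53,0)]⟩⟩,⟨true,0,⟨0,[(65,0)]⟩,
  ⟨0,[(66,0)]⟩⟩,⟨false,0,⟨0,[(41,0)]⟩,⟨11,[(3,1),(7,1),(21,2),(6,0),(21,0),(5,5)]⟩⟩,⟨false,0,⟨0,[]⟩,
  ⟨0,[]⟩⟩,⟨false,0,⟨0,[]⟩,⟨0,[]⟩⟩,[.o ⟨false,0,⟨0,[(51,0)]⟩,⟨22,[(9,3),(25,3),(14,14),(11,2),(5,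
  16)]⟩⟩,.o ⟨false,1,⟨29,[(3,2),(7,10),(28,1),(4,7),(16,3),(3,11)]⟩,⟨59,[(2,5),(6,12),(2,6),(9,6),
  (27,7),(1,6),(9,2),(2,4)]⟩⟩,.a ⟨true,0,⟨0,[(42,0)]⟩,⟨0,[(39,1)]⟩⟩ ⟨false,1,⟨1,[(5,1),(46,0),(0,
  0)]⟩,⟨1,[(12,0),(1,0),(16,0),(18,0),(12,1)]⟩⟩ ⟨true,0,⟨0,[(38,0),(13,0)]⟩,⟨20,[(2,1),(9,3),(0,0),
  (22,7),(5,10),(10,3),(8,0)]⟩⟩,.o ⟨false,0,⟨4,[(8,0),(1,0),(3,2),(38,3),(2,3),(12,3)]⟩,⟨0,[(5,0),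
  (25,0),(18,0)]⟩⟩]⟩) (.I [0,0,0,0,0,1,1] (.C [(0,1),(0,0),(13,0),(41,1),(12,0)]) (.C [(0,0),(0,0),
  (9,0),(5,0),(6,0),(15,0)])))) (.Q [0,0,0,0,0,0,0,0,0,1,-2] (.ed true [0,0,2] (.r 0 ⟨0,[(34,1)]⟩
  ⟨35,[(3,23),(5,4),(28,13),(4,4),(6,23),(9,0),(3,14)]⟩)) (.R ⟨0,false,false,true,[1,0,-2],[1,0,-1],
  [1,1,0,-1,0,0,0,-2],(⟨0,[(0,0)]⟩,⟨0,[(54,1)]⟩),(⟨0,[(53,0)]⟩,⟨0,[(54,0)]⟩),⟨1,[(7,0),(46,2)]⟩,.k,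
  .k,(.r (-1) ⟨0,[(5,0)]⟩ ⟨1,[(30,0),(4,0),(5,0),(7,1),(2,0),(9,0)]⟩),.k,.k,.k,⟨false,1,⟨75,[(4,37),
  (5,4),(17,13),(7,4),(12,9),(11,1),(4,4),(0,4)]⟩,⟨1,[(30,0),(10,0),(7,0),(15,0)]⟩⟩,⟨true,0,⟨0,[(38,
  0)]⟩,⟨0,[(52,0)]⟩⟩,⟨true,0,⟨0,[(64,0)]⟩,⟨0,[(65,0)]⟩⟩,⟨false,0,⟨0,[(40,0)]⟩,⟨11,[(2,1),(7,1),(21,
  2),(6,0),(21,0),(5,5)]⟩⟩,⟨false,0,⟨0,[]⟩,⟨0,[]⟩⟩,⟨false,0,⟨0,[]⟩,⟨0,[]⟩⟩,[.o ⟨false,0,⟨0,[(50,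
  0)]⟩,⟨22,[(8,3),(25,3),(14,14),(11,2),(5,16)]⟩⟩,.o ⟨false,1,⟨29,[(2,2),(7,10),(28,1),(4,7),(16,3),
  (3,11)]⟩,⟨9,[(3,0),(4,1),(2,0),(5,0),(3,1),(27,2),(2,1)]⟩⟩,.a ⟨true,0,⟨0,[(41,0)]⟩,⟨0,[(38,1)]⟩⟩
  ⟨false,1,⟨1,[(4,1),(46,0),(0,0)]⟩,⟨1,[(11,0),(1,0),(16,0),(18,0),(12,1)]⟩⟩ ⟨true,0,⟨0,[(37,0),(13,
  0)]⟩,⟨3,[(11,0),(20,0),(2,2),(5,0),(10,0)]⟩⟩,.o ⟨false,0,⟨4,[(7,0),(1,0),(3,2),(38,3),(2,3),(12,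
  3)]⟩,⟨0,[(4,0),(25,0),(18,0)]⟩⟩]⟩) (.I [0,0,0,0,0,1,1] (.C [(0,1),(0,0),(12,0),(41,1),(12,0)])
  (.C [(0,0),(0,0),(8,0),(5,0),(6,0),(15,0)])))) (.R ⟨1,true,false,true,[2,0,-1,0,-1],[0,0,1],[1,1,
  0,0,0,0,0,1],(⟨0,[(13,0),(43,0)]⟩,⟨0,[(21,0)]⟩),(⟨0,[(52,0)]⟩,⟨0,[(51,0)]⟩),⟨0,[(13,0)]⟩,.k,.k,
  (.r (-1) ⟨75,[(2,37),(5,4),(17,13),(7,4),(12,9),(11,1),(4,4),(0,4)]⟩ ⟨33,[(0,1),(14,1),(23,12),(7,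
  27),(2,7),(8,0),(0,25),(2,3)]⟩),.k,(.r (-1) ⟨0,[(2,0)]⟩ ⟨25,[(0,1),(14,1),(17,21),(5,12),(7,23),
  (2,3),(8,0),(0,21)]⟩),.k,⟨true,0,⟨0,[]⟩,⟨1,[(49,0),(0,0)]⟩⟩,⟨false,0,⟨3,[(1,1),(15,0),(18,2),(6,
  0)]⟩,⟨10,[(4,1),(29,1),(4,7),(2,6),(3,5),(0,3),(12,5)]⟩⟩,⟨false,0,⟨0,[(33,1)]⟩,⟨0,[(2,0),(57,
  0)]⟩⟩,⟨true,(-1),⟨1,[(0,1),(12,0),(31,0),(6,0),(4,0),(4,1)]⟩,⟨4,[(4,2),(7,0),(24,2),(25,2),(1,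
  1)]⟩⟩,⟨true,(-1),⟨1,[(0,1),(12,0),(17,1),(7,1),(5,0),(6,0),(4,0)]⟩,⟨1,[(2,1),(46,0),(0,0)]⟩⟩,
  ⟨false,(-1),⟨1,[(0,1),(12,0),(31,0),(6,0),(4,0)]⟩,⟨4,[(4,2),(3,0),(5,0),(22,0),(4,1),(22,3)]⟩⟩,
  []⟩)) (.I [0,0,0,0,0,1,1] (.I [0,0,-1,0,0,1,-1] (.I [0,0,-2,0,0,-1,1,0,1] (.C [(0,0),(1,0),(0,0),
  (3,0),(15,0),(31,1),(12,0)]) (.C [(0,0),(14,0),(3,0)])) (.C [(0,0),(1,0),(3,0),(7,0),(3,0),(3,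
  0)])) (.C [(0,0),(4,0),(7,0),(6,0),(15,0)]))) (.N [0,1,2,0,1] 1 ⟨0,[(0,0)]⟩ ⟨0,[(1,0)]⟩ (.x 0 ⟨3,
  [(5,1),(5,4),(3,3),(2,0),(15,2),(12,0),(3,2),(12,2)]⟩ ⟨2,[(0,1),(1,0),(0,0),(2,0),(12,2),(17,0),
  (2,2),(9,1),(1,0),(5,0)]⟩))))))

theorem ok22 : chk K t22 r32 = true := by decide +kernel

open Helper55.PC in
noncomputable def t25n : Helper55.PC.Ten :=
  (q
  495857541608106948955398154114351997383037133542229447462986303702726588854386389336179321176113909831603825612398807613452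
  (q 14228531928131779051040831533674162411948898155403719304422303456635396125775495179 (r
  951883221502128528962669545919729774545541793878534224003923377625598564765821673292750345020513355426454725713216200987343872033069811412835548652666237457345760276160084786460998536820112979845787823189570268345516809734378801183515989504340089740751525216279510664582724108660938347032129108432960504819904598496177371509310354970241627465301499920464871212466863937844757228595794249103678684291518430437788101341289257809536859504308123598928805690301383407423592618942476865510757300798334403286818556745986257224911823040)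
  (i 39628590137927041814190227463 (c 7254523372314594755215365) (c 138351002786761539588))) (q
  182914954154149448057153476929894580592021969667520266168560396909773008779181870146188183868741352491064144435261827763137864869677366843146252
  (q
  182914954154149491380117467741453934095412931445913068562798072996901727799318403555027326137793399378397543297937981262327203289091045039669260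
  (r
  249530474853371161970593888705638288098774071591902151585225517668878373249735192412165781614626491022673142947969170957335710602286546726957277620310065581082116634064705088110285562307252642415148371883173272197347817352835186742496686167646761666480337714381305137689114036278026906381731456073177078625214995555394094929571277547774675638860396635884476122025829887232772665520732439258755084534230895748511653068463714455503013643933786905217416092930510251509883560969271996541865874814170511719462462093052065853148573676086601)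
  (q 14228531928131785791027501459884978772043051828206099317541617142956238633695313931 (r
  1763528750897602896670066566586054605056897827225374400829401784596108558515712128975356083769417505747162568079377098599153323613121460086293691349979643974814848667769786326073677710104328149749033090084356291996137682043647188415287483966686198803612976365347461303183277627205700388642826280438021748749140134920130068197878936388456681211078666661665734739504172781463658277172707170631568683877646194370943610735136049976303450187108872611012760273012146643306377228638886975109044064135583076793510884603782555964738696877892684303173894467909797899631423842514056223290535262903952765437353267044544)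
  (i 39628590137927041814190227463 (c 7254523372596069731926021) (c
  594253531306786185631944933382)))) (i 39628590137927041814190227463 (i
  39609247324813207745247444999 (i 2659429586859394802731763963695071241 (c
  31157544535472037382381896686632967) (c 422231792418819)) (c 2654145257662701591513905758214))
  (c 554597137655191299065525567494))))

noncomputable def t25 : Tre := Helper55.PC.toT t25n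

theorem ok25 : chk K t25 r30 = true :=
  Helper55.PC.chkN_sound K t25n r30 (by decide +kernel)

noncomputable def t27 : Tre :=
  (.I [2,0,1,1,0,0,0,-2] (.I [-1,0,2,1,0,0,0,-2] (.Q [0,0,0,0,0,-2,0,0,0,1,0,1] (.p true [1,-1,0,0,
  1] [] (⟨0,[(39,0),(10,0)]⟩,⟨0,[(10,0)]⟩) (.r (-1) ⟨27,[(20,8),(7,9),(8,9),(15,1),(4,4)]⟩ ⟨6,[(0,
  0),(40,1),(2,1),(9,2),(2,2),(3,0)]⟩) 0 (⟨0,[]⟩,⟨0,[]⟩) .k .k) (.Q [2,-1,0,-1,1,0,-1,-1,2,0,-1,2]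
  (.p false [0,0,1] [0,-1,0,0,2] (⟨0,[(47,0)]⟩,⟨0,[(46,0)]⟩) .k 2 (⟨1,[(0,0),(14,0),(0,0),(23,0)]⟩,
  ⟨0,[(11,0),(27,0)]⟩) (.r (-1) ⟨27,[(21,8),(7,9),(8,9),(15,1),(4,4)]⟩ ⟨12,[(1,0),(40,1),(2,1),(9,
  1),(2,9),(2,6)]⟩) (.r 0 ⟨101,[(0,4),(4,5),(0,8),(1,4),(3,11),(15,95),(18,4),(1,14),(11,32)]⟩ ⟨13,
  [(1,6),(19,0),(7,4),(8,4),(15,0),(4,5)]⟩)) (.R ⟨1,true,false,true,[1,-1,0,0,1],[1,0,1,0,-1],[0,1,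
  0,0,0,0,0,1],(⟨0,[(1,0),(51,0)]⟩,⟨0,[(12,0)]⟩),(⟨0,[(40,0),(7,0)]⟩,⟨0,[(16,0)]⟩),⟨0,[(1,0)]⟩,(.r
  (-1) ⟨75,[(0,9),(21,22),(7,19),(12,9),(11,3),(4,14)]⟩ ⟨6,[(2,0),(40,1),(2,1),(9,2),(2,2),(3,0)]⟩),
  .k,(.r (-1) ⟨0,[(25,0)]⟩ ⟨2,[(2,0),(40,1),(2,1),(9,1),(2,2)]⟩),(.r (-1) ⟨151,[(0,9),(2,75),(18,
  98),(7,19),(12,9),(11,3),(4,14)]⟩ ⟨2,[(29,1),(13,0),(2,0),(9,0),(2,1),(2,0)]⟩),(.r (-2) ⟨151,[(0,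
  29),(2,75),(18,144),(7,59),(12,29),(11,11),(4,44)]⟩ ⟨14,[(1,3),(2,14),(1,14),(2,3),(25,17),(9,20),
  (2,3),(4,11),(8,8)]⟩),.k,⟨true,0,⟨0,[]⟩,⟨1,[(45,0),(0,0)]⟩⟩,⟨false,1,⟨1,[(6,1),(24,1),(28,0),(0,
  0)]⟩,⟨0,[(39,1),(6,0)]⟩⟩,⟨true,(-1),⟨2,[(1,0),(2,2),(1,2),(2,0),(25,2),(9,2),(2,0),(4,2),(4,2)]⟩,
  ⟨151,[(0,9),(2,75),(18,98),(7,19),(12,9),(11,3),(4,14)]⟩⟩,⟨false,0,⟨0,[(6,0),(52,0)]⟩,⟨0,[(0,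
  0)]⟩⟩,⟨false,(-1),⟨2,[(1,0),(2,2),(1,2),(2,0),(25,2),(9,2),(2,0),(4,2)]⟩,⟨30,[(0,4),(1,10),(0,1),
  (18,29),(7,9),(14,4),(9,1),(5,12)]⟩⟩,⟨true,(-1),⟨2,[(1,0),(2,2),(1,3),(1,0),(0,0),(17,1),(20,0),
  (4,2)]⟩,⟨0,[(0,0),(57,0)]⟩⟩,[]⟩) (.Q [0,-1,0,0,1,0,-1,-2,0,0,-1] (.p false [0,0,1] [] (⟨0,[(48,
  0)]⟩,⟨0,[(47,0)]⟩) .k 0 (⟨0,[]⟩,⟨0,[]⟩) .k .k) (.Q [0,0,0,0,0,0,0,0,0,1,-2] (.ed true [0,0,2] (.r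
  0 ⟨0,[(30,1)]⟩ ⟨1,[(3,1),(19,0),(37,0)]⟩)) (.R ⟨0,false,false,true,[0,0,1],[0,0,2],[1,1],(⟨0,[(50,
  0)]⟩,⟨0,[(49,0)]⟩),(⟨0,[(50,1)]⟩,⟨0,[(0,0)]⟩),⟨0,[(39,0)]⟩,.k,.k,.k,.k,.k,.k,⟨false,1,⟨1,[(5,1),
  (18,0),(37,0)]⟩,⟨0,[(31,1)]⟩⟩,⟨true,0,⟨0,[(34,0)]⟩,⟨0,[(48,0)]⟩⟩,⟨true,0,⟨4,[(5,1),(27,0),(22,0),
  (3,1)]⟩,⟨0,[(31,0)]⟩⟩,⟨false,0,⟨0,[(36,0)]⟩,⟨19,[(1,9),(35,4),(2,2),(0,2),(15,0),(5,4)]⟩⟩,⟨false,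
  0,⟨0,[]⟩,⟨0,[]⟩⟩,⟨false,0,⟨0,[]⟩,⟨0,[]⟩⟩,[.e ⟨false,0,⟨39,[(2,1),(12,3),(8,0),(8,3),(10,7),(0,1),
  (10,15),(5,0)]⟩,⟨1,[(40,0),(0,0),(21,0)]⟩⟩ ⟨false,0,⟨19,[(2,1),(6,7),(5,3),(8,0),(6,7),(4,11),(8,
  17),(16,0)]⟩,⟨0,[(1,0)]⟩⟩,.o ⟨false,0,⟨3,[(8,0),(8,1),(13,1),(4,4)]⟩,⟨38,[(1,27),(2,2),(27,2),(4,
  16),(3,2),(4,15),(9,5),(0,3)]⟩⟩,.e ⟨false,0,⟨0,[]⟩,⟨1,[(40,0),(0,0),(21,0)]⟩⟩ ⟨false,0,⟨0,[(31,0),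
  (4,0)]⟩,⟨0,[(1,0)]⟩⟩,.a ⟨true,0,⟨0,[(47,0)]⟩,⟨0,[(44,0)]⟩⟩ ⟨true,0,⟨39,[(2,1),(12,3),(8,0),(8,3),
  (10,7),(0,1),(10,15),(5,0)]⟩,⟨1,[(47,0),(0,0)]⟩⟩ ⟨false,0,⟨7,[(8,0),(0,3),(5,1),(15,1),(4,12)]⟩,
  ⟨2,[(1,1),(2,0),(43,0),(11,0),(2,0)]⟩⟩]⟩) (.I [0,0,0,0,0,1,1] (.C [(0,1),(0,0),(8,0),(41,1),(12,
  0)]) (.C [(0,0),(14,0),(3,0),(15,0)]))) (.I [0,0,0,0,0,1,1] (.C [(0,1),(0,1),(2,1),(4,1),(4,1),(4,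
  1),(4,0),(26,3),(11,0)]) (.C [(0,0),(13,0),(3,0),(15,0)])))) (.I [1,0,-1,-1,0,0,0,2] (.N [0,-1,2]
  0 ⟨0,[(0,0)]⟩ ⟨2,[(1,1),(0,2),(4,2),(8,0),(0,0),(14,5),(16,3)]⟩ (.x 0 ⟨1,[(1,1),(7,0),(6,2),(15,
  2),(12,0),(3,0),(12,0)]⟩ ⟨19,[(7,13),(27,5),(12,39),(3,19),(2,7),(4,2),(0,0),(1,1)]⟩)) (.Q [0,0,2,
  0,0,0,-2,0,-1,3,-2,-1] (.p false [-1,1,1] [2,0,-1,0,-1] (⟨0,[(36,0)]⟩,⟨0,[(9,0),(31,0)]⟩) .k 2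
  (⟨0,[(9,0),(43,0)]⟩,⟨0,[(17,0)]⟩) .k (.r 0 ⟨0,[(29,1)]⟩ ⟨1,[(2,1),(19,0),(37,0)]⟩)) (.I [-1,0,1,1,
  0,0,0,-2] (.Q [0,0,-1,0,0,0,2,0,1,-3,2,1] (.p true [-1,1,1] [2,0,-1,0,-1] (⟨0,[(38,0)]⟩,⟨0,[(11,
  0),(31,0)]⟩) .k 2 (⟨0,[(11,0),(43,0)]⟩,⟨0,[(19,0)]⟩) .k (.r 0 ⟨0,[(31,1)]⟩ ⟨1,[(4,1),(19,0),(37,
  0)]⟩)) (.Q [-1,0,0,-1,1,0,-2,-2,-1,3,-2,-1] (.p false [-1,1,1] [2,0,-1,0,-1] (⟨0,[(39,0)]⟩,⟨0,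
  [(12,0),(31,0)]⟩) .k 2 (⟨0,[(12,0),(43,0)]⟩,⟨0,[(20,0)]⟩) .k (.r 0 ⟨0,[(32,1)]⟩ ⟨1,[(5,1),(19,0),
  (37,0)]⟩)) (.R ⟨1,true,false,false,[2,0,-1,0,-1],[-1,1,1],[0,0,1],(⟨0,[(13,0),(43,0)]⟩,⟨0,[(21,
  0)]⟩),(⟨0,[(40,0)]⟩,⟨0,[(13,0),(31,0)]⟩),⟨0,[(13,0)]⟩,.k,.k,(.r (-1) ⟨3,[(6,1),(19,2),(37,0)]⟩
  ⟨27,[(3,13),(4,6),(19,12),(18,14),(11,2),(3,0),(1,0)]⟩),(.r (-1) ⟨0,[(0,0),(0,0)]⟩ ⟨73,[(3,37),(4,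
  18),(19,35),(4,71),(13,39),(11,7),(4,0),(0,1)]⟩),(.r (-2) ⟨1,[(6,1),(19,2),(37,0)]⟩ ⟨2,[(3,1),(4,
  2),(1,1),(27,3),(11,1)]⟩),.k,⟨false,1,⟨3,[(6,1),(19,2),(37,0)]⟩,⟨55,[(3,9),(4,4),(2,17),(16,27),
  (18,27),(11,1),(3,17),(0,0)]⟩⟩,⟨true,0,⟨0,[(1,0)]⟩,⟨0,[(3,0)]⟩⟩,⟨true,0,⟨0,[(38,0),(11,0)]⟩,⟨0,
  [(35,0)]⟩⟩,⟨false,0,⟨0,[(19,0),(8,0),(4,0)]⟩,⟨0,[(0,0)]⟩⟩,⟨false,0,⟨1,[(3,0),(24,1),(3,0)]⟩,⟨3,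
  [(6,1),(19,2),(37,0)]⟩⟩,⟨true,(-1),⟨3,[(8,3),(1,2),(8,1),(13,1),(4,2)]⟩,⟨0,[(0,0),(61,0)]⟩⟩,[]⟩)
  (.I [0,0,0,0,0,1,1] (.I [0,0,-1,0,0,1,-1] (.C [(0,0),(0,0),(0,0),(1,0),(0,0),(22,0),(26,1)]) (.C
  [(0,0),(6,0),(5,0),(1,0),(7,1),(14,0)])) (.C [(0,0),(5,0),(7,0),(6,0),(0,0),(14,0)]))) (.I [0,0,0,
  0,0,1,1] (.I [0,0,-1,0,0,1,-1] (.I [0,0,-2,0,0,-1,1,0,1] (.C [(0,0),(1,0),(0,0),(3,0),(15,1),(31,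
  1),(12,0)]) (.C [(0,0),(14,0),(3,0)])) (.C [(0,0),(1,0),(3,0),(7,0),(3,0),(3,1)])) (.C [(0,0),(4,
  0),(7,0),(6,0),(0,0),(14,0)]))) (.N [0,-1,2,0,1] 0 ⟨0,[(0,0)]⟩ ⟨0,[(2,0)]⟩ (.x 0 ⟨15,[(3,3),(7,
  11),(3,2),(1,6),(21,19),(1,5),(5,21)]⟩ ⟨72,[(8,7),(0,72),(0,7),(8,72),(20,40),(9,72),(0,10),(2,
  61),(2,13),(5,3)]⟩))) (.I [2,0,-1,-1,0,0,0,2] (.N [0,-1,2,0,1] 0 ⟨0,[(0,0)]⟩ ⟨0,[(2,0)]⟩ (.x 0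
  ⟨19,[(1,2),(1,4),(7,14),(5,7),(21,24),(1,8),(5,25)]⟩ ⟨72,[(8,7),(0,72),(0,7),(8,72),(20,40),(9,
  72),(0,10),(2,61),(2,13),(5,3)]⟩)) (.Q [1,-1,0,0,0,0,2,2,1,-1,2,1] (.p true [1,-1,1] [2,0,-1,0,
  -1] (⟨0,[(50,0),(3,0)]⟩,⟨0,[(39,0)]⟩) .k 2 (⟨0,[(11,0),(43,0)]⟩,⟨0,[(19,0)]⟩) .k (.r 0 ⟨0,[(31,
  1)]⟩ ⟨1,[(4,1),(19,0),(37,0)]⟩)) (.R ⟨1,true,false,false,[2,0,-1,0,-1],[1,-1,1],[1,0,-1,-1,0,0,0,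
  1],(⟨0,[(12,0),(43,0)]⟩,⟨0,[(20,0)]⟩),(⟨0,[(51,0),(3,0)]⟩,⟨0,[(40,0)]⟩),⟨0,[(12,0)]⟩,.k,.k,(.r
  (-1) ⟨3,[(5,1),(19,2),(37,0)]⟩ ⟨33,[(7,1),(6,3),(23,12),(7,29),(2,7),(8,0),(0,25)]⟩),(.r 0 ⟨0,[(1,
  0)]⟩ ⟨31,[(0,9),(24,10),(6,33),(0,9),(4,14),(7,9),(11,2),(4,4)]⟩),.k,.k,⟨true,0,⟨0,[]⟩,⟨1,[(48,0),
  (0,0)]⟩⟩,⟨false,0,⟨2,[(2,0),(32,1),(6,1),(5,1)]⟩,⟨0,[(10,0),(30,0)]⟩⟩,⟨false,1,⟨1,[(25,0),(6,3),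
  (31,0)]⟩,⟨0,[(1,0)]⟩⟩,⟨true,0,⟨0,[(0,0),(60,0)]⟩,⟨0,[(21,0),(14,0)]⟩⟩,⟨true,0,⟨22,[(0,9),(8,5),(0,
  13),(5,1),(15,19),(24,4)]⟩,⟨0,[(1,0),(59,0)]⟩⟩,⟨false,0,⟨0,[(0,0)]⟩,⟨8,[(6,4),(3,0),(10,7),(3,1),
  (7,0),(4,3),(19,0),(5,3)]⟩⟩,[]⟩) (.Q [0,0,0,0,0,0,0,0,0,1,-2] (.ed true [0,0,2] (.r 0 ⟨0,[(32,
  1)]⟩ ⟨1,[(5,1),(19,0),(37,0)]⟩)) (.R ⟨0,false,false,false,[0,0,1],[0,0,2],[1],(⟨0,[(52,0)]⟩,⟨0,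
  [(51,0)]⟩),(⟨0,[(52,1)]⟩,⟨0,[(0,0)]⟩),⟨0,[(41,0)]⟩,.k,.k,.k,.k,.k,.k,⟨false,1,⟨1,[(7,1),(18,0),
  (37,0)]⟩,⟨0,[(33,1)]⟩⟩,⟨true,0,⟨0,[(36,0)]⟩,⟨0,[(50,0)]⟩⟩,⟨false,1,⟨3,[(6,1),(19,0),(37,0),(0,
  1)]⟩,⟨0,[(33,0)]⟩⟩,⟨true,0,⟨0,[(38,0)]⟩,⟨0,[(48,0)]⟩⟩,⟨false,0,⟨0,[]⟩,⟨0,[]⟩⟩,⟨false,0,⟨0,[]⟩,⟨0,
  []⟩⟩,[.o ⟨false,0,⟨3,[(10,0),(8,1),(13,1),(4,4)]⟩,⟨9,[(1,7),(4,1),(19,0),(12,1),(3,7),(15,1),(4,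
  0),(0,3)]⟩⟩,.o ⟨false,1,⟨4,[(38,8),(8,0),(11,0),(5,2)]⟩,⟨0,[(1,0),(30,0)]⟩⟩,.e ⟨true,0,⟨0,[]⟩,⟨10,
  [(6,0),(40,1),(2,1),(7,3),(3,0)]⟩⟩ ⟨true,0,⟨0,[(33,0),(4,0)]⟩,⟨4,[(1,2),(5,1),(9,0),(14,0),(10,0),
  (18,1)]⟩⟩,.a ⟨true,0,⟨0,[(49,0)]⟩,⟨0,[(46,0)]⟩⟩ ⟨false,1,⟨1,[(64,0),(0,0)]⟩,⟨1,[(49,0),(0,0)]⟩⟩
  ⟨true,0,⟨7,[(10,0),(0,3),(5,1),(15,1),(4,12)]⟩,⟨1,[(1,0),(4,0),(25,0),(29,0)]⟩⟩]⟩) (.I [0,0,0,0,0,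
  1,1] (.C [(0,1),(0,0),(10,0),(41,1),(12,0)]) (.C [(0,0),(0,0),(4,0),(7,0),(6,1),(15,0)]))))))))
  (.N [0,-1,2,0,-1] 0 ⟨3,[(0,3),(42,0),(0,0),(15,1)]⟩ ⟨0,[(1,0)]⟩ (.x (-1) ⟨0,[(14,0),(15,0),(4,0),
  (0,0),(6,0)]⟩ ⟨0,[(5,0),(5,0),(26,0),(5,0),(1,1),(0,0),(12,0)]⟩))) (.N [0,-1,2,0,-2] 0 ⟨0,[(0,
  0)]⟩ ⟨0,[(2,0)]⟩ (.x (-1) ⟨17,[(2,4),(0,9),(9,35),(13,4),(1,12),(5,10),(6,12),(7,17),(1,0)]⟩ ⟨1,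
  [(4,0),(1,1),(3,2),(9,0),(16,1),(5,4),(1,5)]⟩)))

theorem ok27 : chk K t27 l33 = true := by decide +kernel


end Helper25.S1T.Ypp_2_P2_m0n0
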