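import Pool.Agent.Helper25.S1T.Ypp_2_P3_m1n1_p0
import Pool.Agent.Helper25.S1T.Ypp_2_P3_m1n1_p1

set_option autoImplicit false
set_option linter.all false

namespace Helper25.S1T.Ypp_2_P3_m1n1

open Helper25.KG Helper25.KW Helper55.KE Helper11.CT

noncomputable def t8 : Tre :=
  .Q [0,0,-1,-1,1,0,1,0,0,0,1] (.p true [0,0,1] [] (⟨0,[(22,0)]⟩,⟨0,[(21,0)]⟩) .k 0 (⟨0,[]⟩,⟨0,[]⟩)
  .k .k) t6 t7

theorem ok8 : chk K t8 r8 = true :=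
  chk_Q (e' := [0,0,1,1,-1,0,-1,0,0,0,-1]) (by decide +kernel) (by decide +kernel) ok6 ok7

noncomputable def t9 : Tre :=
  .Q [0,0,0,2,0,0,-1,-1,0,0,-1] (.p false [0,0,1] [] (⟨0,[(21,0)]⟩,⟨0,[(20,0)]⟩) .k 0 (⟨0,[]⟩,⟨0,
  []⟩) .k .k) t5 t8

theorem ok9 : chk K t9 r7 = true :=
  chk_Q (e' := [0,0,0,-2,0,0,1,1,0,0,1]) (by decide +kernel) (by decide +kernel) ok5 ok8

noncomputable def t10 : Tre :=
  .I [0,0,-2,-1,1] t4 t9

theorem ok10 : chk K t10 r6 = true :=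
  chk_I (e' := [1,0,2,1,-1]) (by decide +kernel) (by decide +kernel) ok4 ok9

noncomputable def t11 : Tre :=
  .I [0,0,-2,-2,1] t3 t10

theorem ok11 : chk K t11 l5 = true :=
  chk_I (e' := [1,0,2,2,-1]) (by decide +kernel) (by decide +kernel) ok3 ok10

noncomputable def t13 : Tre :=
  .Q [0,1,0,1,0,0,0,0,0,-1] (.pp true [-1,1]) t11 t12

theorem ok13 : chk K t13 r4 = true :=
  chk_Q (e' := [0,-1,0,-1,0,0,0,0,0,1]) (by decide +kernel) (by decide +kernel) ok11 ok12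

noncomputable def t14 : Tre :=
  .Q [0,-1,0,1,0,0,1,1,0,0,1] (.p true [0,0,1] [] (⟨0,[(17,0)]⟩,⟨0,[(16,0)]⟩) .k 0 (⟨0,[]⟩,⟨0,[]⟩)
  .k .k) t2 t13

theorem ok14 : chk K t14 r3 = true :=
  chk_Q (e' := [0,1,0,-1,0,0,-1,-1,0,0,-1]) (by decide +kernel) (by decide +kernel) ok2 ok13

noncomputable def t15 : Tre :=
  .I [0,-1,0,1,1,0,0,-1] t1 t14

theorem ok15 : chk K t15 r2 = true :=
  chk_I (e' := [1,1,0,-1,-1,0,0,1]) (by decide +kernel) (by decide +kernel) ok1 ok14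

noncomputable def t16 : Tre :=
  .I [1,-1,0,0,1,0,0,-1] t0 t15

theorem ok16 : chk K t16 l1 = true :=
  chk_I (e' := [0,1,0,0,-1,0,0,1]) (by decide +kernel) (by decide +kernel) ok0 ok15

noncomputable def t31 : Tre :=
  .I [0,0,-1,-1,1,0,0,-2] t29 t30

theorem ok31 : chk K t31 r27 = true :=
  chk_I (e' := [1,0,1,1,-1,0,0,2]) (by decide +kernel) (by decide +kernel) ok29 ok30

noncomputable def t32 : Tre :=
  .Q [0,0,-2,0,0,0,-1,0,0,1,-1] (.p false [0,0,1] [1] (⟨0,[(32,0)]⟩,⟨0,[(31,0)]⟩) .k 1 (⟨0,[]⟩,⟨0,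
  []⟩) .k .k) t28 t31

theorem ok32 : chk K t32 r26 = true :=
  chk_Q (e' := [0,0,2,0,0,0,1,0,0,-1,1]) (by decide +kernel) (by decide +kernel) ok28 ok31

noncomputable def t33 : Tre :=
  .Q [0,-1,0,2,1,0,1,1,0,-1,1] (.p true [0,0,1] [1] (⟨0,[(31,0)]⟩,⟨0,[(30,0)]⟩) .k 1 (⟨0,[]⟩,⟨0,
  []⟩) .k .k) t27 t32

theorem ok33 : chk K t33 r25 = true :=
  chk_Q (e' := [0,1,0,-2,-1,0,-1,-1,0,1,-1]) (by decide +kernel) (by decide +kernel) ok27 ok32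

noncomputable def t34 : Tre :=
  .Q [0,0,0,0,0,2,0,0,0,-1,1] (.p true [0,0,1] [1] (⟨0,[(30,0)]⟩,⟨0,[(29,0)]⟩) .k 1 (⟨0,[]⟩,⟨0,[]⟩)
  .k .k) t26 t33

theorem ok34 : chk K t34 l24 = true :=
  chk_Q (e' := [0,0,0,0,0,-2,0,0,0,1,-1]) (by decide +kernel) (by decide +kernel) ok26 ok33

noncomputable def t36 : Tre :=
  .Q [0,1,0,-1,-1,0,-1,-1,0,1,-1] (.p false [0,0,1] [1] (⟨0,[(29,0)]⟩,⟨0,[(28,0)]⟩) .k 1 (⟨0,[]⟩,⟨0,
  []⟩) .k .k) t34 t35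

theorem ok36 : chk K t36 r23 = true :=
  chk_Q (e' := [0,-1,0,1,1,0,1,1,0,-1,1]) (by decide +kernel) (by decide +kernel) ok34 ok35

noncomputable def t37 : Tre :=
  .Q [0,0,0,1,0,0,1,1,0,0,1] (.p true [0,0,1] [] (⟨0,[(28,0)]⟩,⟨0,[(27,0)]⟩) .k 0 (⟨0,[]⟩,⟨0,[]⟩)
  .k .k) t25 t36

theorem ok37 : chk K t37 r22 = true :=
  chk_Q (e' := [0,0,0,-1,0,0,-1,-1,0,0,-1]) (by decide +kernel) (by decide +kernel) ok25 ok36

noncomputable def t38 : Tre :=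
  .Q [0,-1,0,2,0,0,-1,-1,0,0,-1] (.p false [0,0,1] [] (⟨0,[(27,0)]⟩,⟨0,[(26,0)]⟩) .k 0 (⟨0,[]⟩,⟨0,
  []⟩) .k .k) t24 t37

theorem ok38 : chk K t38 r21 = true :=
  chk_Q (e' := [0,1,0,-2,0,0,1,1,0,0,1]) (by decide +kernel) (by decide +kernel) ok24 ok37

noncomputable def t39 : Tre :=
  .Q [0,0,-1,-1,1,0,1,0,0,0,1] (.p true [0,0,1] [] (⟨0,[(26,0)]⟩,⟨0,[(25,0)]⟩) .k 0 (⟨0,[]⟩,⟨0,[]⟩)
  .k .k) t23 t38

theorem ok39 : chk K t39 l20 = true :=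
  chk_Q (e' := [0,0,1,1,-1,0,-1,0,0,0,-1]) (by decide +kernel) (by decide +kernel) ok23 ok38

noncomputable def t41 : Tre :=
  .I [1,0,0,-1,0,0,0,1] t39 t40

theorem ok41 : chk K t41 r19 = true :=
  chk_I (e' := [0,0,0,1,0,0,0,-1]) (by decide +kernel) (by decide +kernel) ok39 ok40

noncomputable def t42 : Tre :=
  .Q [0,0,0,0,0,0,1,1,0,0,1] (.p true [0,0,1] [] (⟨0,[(24,0)]⟩,⟨0,[(23,0)]⟩) .k 0 (⟨0,[]⟩,⟨0,[]⟩)
  .k .k) t22 t41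

theorem ok42 : chk K t42 l18 = true :=
  chk_Q (e' := [0,0,0,0,0,0,-1,-1,0,0,-1]) (by decide +kernel) (by decide +kernel) ok22 ok41

noncomputable def t44 : Tre :=
  .I [0,0,0,0,0,0,0,1] t42 t43

theorem ok44 : chk K t44 r17 = true :=
  chk_I (e' := [1,0,0,0,0,0,0,-1]) (by decide +kernel) (by decide +kernel) ok42 ok43

noncomputable def t45 : Tre :=
  .Q [0,0,0,3,0,0,0,0,0,-1] (.pp true [-1,1]) t21 t44

theorem ok45 : chk K t45 l16 = true :=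
  chk_Q (e' := [0,0,0,-3,0,0,0,0,0,1]) (by decide +kernel) (by decide +kernel) ok21 ok44

noncomputable def t47 : Tre :=
  .I [0,0,-3,-3,2] t45 t46

theorem ok47 : chk K t47 r15 = true :=
  chk_I (e' := [1,0,3,3,-2]) (by decide +kernel) (by decide +kernel) ok45 ok46

noncomputable def t48 : Tre :=
  .I [0,0,-2,-1,1] t20 t47

theorem ok48 : chk K t48 l14 = true :=
  chk_I (e' := [1,0,2,1,-1]) (by decide +kernel) (by decide +kernel) ok20 ok47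

noncomputable def t50 : Tre :=
  .Q [0,1,0,1,0,0,0,0,0,-1] (.pp true [-1,1]) t48 t49

theorem ok50 : chk K t50 r13 = true :=
  chk_Q (e' := [0,-1,0,-1,0,0,0,0,0,1]) (by decide +kernel) (by decide +kernel) ok48 ok49

noncomputable def t51 : Tre :=
  .Q [0,0,0,2,0,0,0,0,0,-1] (.pp true [-1,1]) t19 t50

theorem ok51 : chk K t51 l12 = true :=
  chk_Q (e' := [0,0,0,-2,0,0,0,0,0,1]) (by decide +kernel) (by decide +kernel) ok19 ok50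

noncomputable def t53 : Tre :=
  .I [0,0,2,0,-1,2] t51 t52

theorem ok53 : chk K t53 r11 = true :=
  chk_I (e' := [1,0,-2,0,1,-2]) (by decide +kernel) (by decide +kernel) ok51 ok52

noncomputable def t54 : Tre :=
  .Q [0,-1,0,1,0,0,-1,-1,0,0,-1] (.p false [0,0,1] [] (⟨0,[(16,0)]⟩,⟨0,[(15,0)]⟩) .k 0 (⟨0,[]⟩,⟨0,
  []⟩) .k .k) t18 t53

theorem ok54 : chk K t54 r10 = true :=
  chk_Q (e' := [0,1,0,-1,0,0,1,1,0,0,1]) (by decide +kernel) (by decide +kernel) ok18 ok53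

noncomputable def t55 : Tre :=
  .I [1,-1,2,2,-1] t17 t54

theorem ok55 : chk K t55 r1 = true :=
  chk_I (e' := [0,1,-2,-2,1]) (by decide +kernel) (by decide +kernel) ok17 ok54

noncomputable def t56 : Tre :=
  .I [0,0,-1,0,0,0,0,1] t16 t55

theorem ok56 : chk K t56 l0 = true :=
  chk_I (e' := [1,0,1,0,0,0,0,-1]) (by decide +kernel) (by decide +kernel) ok16 ok55

noncomputable def t58 : Tre :=
  .Q [0,0,0,0,0,0,-1,0,0,0,-1] (.p false [0,0,1] [] (⟨0,[(13,0)]⟩,⟨0,[(12,0)]⟩) .k 0 (⟨0,[]⟩,⟨0,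
  []⟩) .k .k) t56 t57

theorem ok58 : chk K t58 base = true :=
  chk_Q (e' := [0,0,0,0,0,0,1,0,0,0,1]) (by decide +kernel) (by decide +kernel) ok56 ok57

theorem closed {p a b c J l q : ℤ} {D dl : ℝ} {Cl : ℤ → ℤ → ℤ → ℤ → ℝ → Prop}
    (W : World p a b c J 1 l q D dl Cl) (g : G0 p a b c J D)
    {N X R : ℤ} {I : ℝ} (hk : KCl p l Cl N X R I) (kz : KF a b D (X + (1 : ℤ) * I) (X + (1 : ℤ) * I + R) I)
    {Ne Xe : ℤ} {Ie : ℝ} (he : EFac p 1 D Cl 1 Ne Xe Ie)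
    (hkf : ∀ kf ∈ (kfY 1 [0,0,0,0,0,0,1,0,0,0,1]), KOk p l Cl 1
      (xv [1, a, b, c, p, J, X, R, Xe] [D, I, Ie]) N kf)
    (h0 : 1 ≤ (c : ℝ))
    (h1 : 1 ≤ (a : ℝ) - (b : ℝ))
    (h2 : 1 ≤ 1 - (a : ℝ) + (b : ℝ) + (c : ℝ))
    (h3 : 0 < -1 + (p : ℝ) - 2 * D)
    (h4 : 0 < 3 - (p : ℝ) + 2 * D)
    (h5 : 0 < 1 + 3 * (J : ℝ) - D)
    (h6 : 1 ≤ 2 * (a : ℝ) - (b : ℝ))
    (h7 : 1 ≤ -2 + (J : ℝ))
    (h8 : 0 < -(b : ℝ) - (X : ℝ) + D - I)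
    (h9 : 0 < -(J : ℝ) + I)
    (h10 : 0 < -(J : ℝ) + D - I)
    (h11 : 0 < -2 * (X : ℝ) + D - 2 * I) : False := by
  have g1 := g.a2
  have g2 := g.b2
  have g3 := g.pa
  have g4 := g.pb
  have g5 := g.J1
  have g6 := g.JD
  have g7 := g.D2
  have g8 := g.ca
  have g9 := g.ca'
  have k1 := kz.I0
  have k2 := kz.ID
  have k3 := kz.z1
  have k4 := kz.z2
  have k5 := kz.s1
  have k6 := kz.s2
  have e1 := he.I0
  have e2 := he.ID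
  have e3 := he.x0
  have e4 := he.xp
  push_cast at *
  refine (val_E W.toBase hk he (row := [1]) (by simp) (by simp) (kfY 1 [0,0,0,0,0,0,1,0,0,0,1])).sound W rfl (Nk := N)
    (fun kf _ _ => ⟨_, rfl⟩) hkf ?_ ok58
  · simp only [base, List.forall_mem_cons, List.not_mem_nil, false_imp_iff, implies_true,
      and_true, hld, xv, evg_cons, evg_nil, List.map_cons, List.map_nil, List.cons_append,
      List.nil_append, if_true, if_false, Bool.false_eq_true]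
    push_cast
    refine ⟨?_, ?_, ?_, ?_, ?_, ?_, ?_, ?_, ?_, ?_, ?_, ?_, ?_, ?_, ?_, ?_, ?_, ?_, ?_, ?_, ?_, ?_, ?_, ?_, ?_, ?_, ?_, ?_, ?_, ?_⟩ <;> linarith

end Helper25.S1T.Ypp_2_P3_m1n1
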