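import Pool.Agent.Helper81.PC.C3N
import Pool.Agent.Helper25.S1T.Zmm1A_q

set_option autoImplicit false
set_option linter.all false

namespace Helper25.S1T.Zmm1A

open Helper25.KG Helper11.CT

open Helper55.PC in
noncomputable def t49n : Helper55.PC.Ten :=
  (q 5055002858145178009329818299332507916104878259328198215189345206283 (r
  311948641438007123244565669042026163443615671855767522755080611206051650078118565835743570708050453548391411502591539867324123266369191499148508791827396978192774696368330159310136088495111973298025674917922095705728285824315193089695400327994403242973578008593564364386668610721198805020638290718730801103169630758074646399077391642169023588257828095210838330794680723876653958634190445625581069280873028362307175456567894824738978)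
  (r
  154438431706616145672049950703369052062308612682894532601533489084875585558138251374787125053084000000480099321833772059227328204098372704375723141043974298298349876667191623360760682595636645290501528468273419528200330))

noncomputable def t49 : Tre := Helper55.PC.toT t49n

theorem ok49 : chk3 K KFs t49 r1 = true :=
  Helper81.PC.chk3N_sound K KFs t49n r1 (by decide +kernel)

noncomputable def t51 : Tre :=
  (.R ⟨2,true,false,false,[0,1],[0,0,1],[0,0,1],(⟨0,[]⟩,⟨0,[]⟩),(⟨0,[(12,0)]⟩,⟨0,[(11,0)]⟩),⟨0,[]⟩,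
  .k,.k,.k,.k,.k,.k,⟨false,1,⟨1,[(8,1),(0,1),(11,0),(0,0)]⟩,⟨0,[(0,0),(1,0),(15,0)]⟩⟩,⟨true,0,⟨0,
  [(9,0)]⟩,⟨0,[(2,0)]⟩⟩,⟨true,0,⟨0,[(20,0)]⟩,⟨0,[(19,0)]⟩⟩,⟨false,0,⟨0,[(0,0)]⟩,⟨0,[(8,0),(10,0),(2,
  0)]⟩⟩,⟨false,1,⟨1,[(3,0),(0,0),(17,0)]⟩,⟨0,[]⟩⟩,⟨true,0,⟨0,[(0,0),(18,0)]⟩,⟨0,[(8,0)]⟩⟩,[]⟩)

theorem ok51 : chk3 K KFs t51 r0 = true := by decide +kernel


end Helper25.S1T.Zmm1A
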