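import Pool.Agent.Helper25.KG.C3
import Pool.Agent.Helper25.S1T.Zmm1Ag_p0
import Pool.Agent.Helper25.S1T.Zmm1Ag_p1

set_option autoImplicit false
set_option linter.all false

namespace Helper25.S1T.Zmm1Ag

open Helper25.KG Helper11.CT

noncomputable def t11 : Tre :=
  .I [0,0,-2,0,0,2,1] t9 t10

theorem ok11 : chk3 K KFs t11 r13 = true :=
  chk3_I (e' := [1,0,2,0,0,-2,-1]) (by decide +kernel) (by decide +kernel) ok9 ok10

noncomputable def t12 : Tre :=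
  .Q [0,-2,0,-1,1,0,0,0,-1,0,0,1] (.p true [0,0,0,0,1] [] (⟨0,[(17,0)]⟩,⟨0,[(16,0)]⟩) .k 0 (⟨0,[]⟩,
  ⟨0,[]⟩) .k .k) t8 t11

theorem ok12 : chk3 K KFs t12 r12 = true :=
  chk3_Q (e' := [0,2,0,1,-1,0,0,0,1,0,0,-1]) (by decide +kernel) (by decide +kernel) ok8 ok11

noncomputable def t13 : Tre :=
  .I [0,-1,-1,-2,1,0,0,1] t7 t12

theorem ok13 : chk3 K KFs t13 l11 = true :=
  chk3_I (e' := [1,1,1,2,-1,0,0,-1]) (by decide +kernel) (by decide +kernel) ok7 ok12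

noncomputable def t15 : Tre :=
  .Q [0,0,0,0,0,-2,0,0,0,0,1] (.p true [0,0,1] [] (⟨0,[(21,0)]⟩,⟨0,[(20,0)]⟩) .k 0 (⟨0,[]⟩,⟨0,[]⟩)
  .k .k) t13 t14

theorem ok15 : chk3 K KFs t15 r10 = true :=
  chk3_Q (e' := [0,0,0,0,0,2,0,0,0,0,-1]) (by decide +kernel) (by decide +kernel) ok13 ok14

noncomputable def t16 : Tre :=
  .I [0,0,-2,-2,0,0,0,-1] t6 t15

theorem ok16 : chk3 K KFs t16 r9 = true :=
  chk3_I (e' := [1,0,2,2,0,0,0,1]) (by decide +kernel) (by decide +kernel) ok6 ok15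

noncomputable def t17 : Tre :=
  .Q [0,-1,0,-1,1,0,0,0,-1,-1,0,1] (.p true [0,0,0,0,1] [1] (⟨0,[(13,0)]⟩,⟨0,[(12,0)]⟩) .k 1 (⟨0,
  []⟩,⟨0,[]⟩) .k .k) t5 t16

theorem ok17 : chk3 K KFs t17 r8 = true :=
  chk3_Q (e' := [0,1,0,1,-1,0,0,0,1,1,0,-1]) (by decide +kernel) (by decide +kernel) ok5 ok16

noncomputable def t18 : Tre :=
  .Q [0,0,0,-1,0,0,-1,-1,0,-1,1] (.p true [0,0,1] [1] (⟨0,[(18,0)]⟩,⟨0,[(17,0)]⟩) .k 1 (⟨0,[]⟩,⟨0,
  []⟩) .k .k) t4 t17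

theorem ok18 : chk3 K KFs t18 r7 = true :=
  chk3_Q (e' := [0,0,0,1,0,0,1,1,0,1,-1]) (by decide +kernel) (by decide +kernel) ok4 ok17

noncomputable def t19 : Tre :=
  .Q [0,0,0,0,0,1,0,0,0,-1,1] (.ed false [0,1,1] .k) t3 t18

theorem ok19 : chk3 K KFs t19 l6 = true :=
  chk3_Q (e' := [0,0,0,0,0,-1,0,0,0,1,-1]) (by decide +kernel) (by decide +kernel) ok3 ok18

noncomputable def t21 : Tre :=
  .Q [0,0,0,0,0,0,1,1,0,1,-1] (.p false [0,0,1] [1] (⟨0,[(16,0)]⟩,⟨0,[(15,0)]⟩) .k 1 (⟨0,[]⟩,⟨0,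
  []⟩) .k .k) t19 t20

theorem ok21 : chk3 K KFs t21 r5 = true :=
  chk3_Q (e' := [0,0,0,0,0,0,-1,-1,0,-1,1]) (by decide +kernel) (by decide +kernel) ok19 ok20

noncomputable def t22 : Tre :=
  .Q [0,-1,0,0,1,0,0,0,-1,-1,0,1] (.p true [0,0,0,0,1] [1] (⟨0,[(9,0)]⟩,⟨0,[(8,0)]⟩) .k 1 (⟨0,[]⟩,
  ⟨0,[]⟩) .k .k) t2 t21

theorem ok22 : chk3 K KFs t22 r4 = true :=
  chk3_Q (e' := [0,1,0,0,-1,0,0,0,1,1,0,-1]) (by decide +kernel) (by decide +kernel) ok2 ok21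

noncomputable def t23 : Tre :=
  .I [0,-1,-1,-1,1,0,0,1] t1 t22

theorem ok23 : chk3 K KFs t23 r3 = true :=
  chk3_I (e' := [1,1,1,1,-1,0,0,-1]) (by decide +kernel) (by decide +kernel) ok1 ok22

noncomputable def t24 : Tre :=
  .I [1,-1,-1,0,1,0,0,1] t0 t23

theorem ok24 : chk3 K KFs t24 l2 = true :=
  chk3_I (e' := [0,1,1,0,-1,0,0,-1]) (by decide +kernel) (by decide +kernel) ok0 ok23

noncomputable def t33 : Tre :=
  .Q [0,0,0,-1,0,0,1,1,0,0,-1] (.p false [0,0,1] [] (⟨0,[(21,0)]⟩,⟨0,[(20,0)]⟩) .k 0 (⟨0,[]⟩,⟨0,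
  []⟩) .k .k) t31 t32

theorem ok33 : chk3 K KFs t33 r22 = true :=
  chk3_Q (e' := [0,0,0,1,0,0,-1,-1,0,0,1]) (by decide +kernel) (by decide +kernel) ok31 ok32

noncomputable def t34 : Tre :=
  .I [0,0,-1,-2,0,0,0,1] t30 t33

theorem ok34 : chk3 K KFs t34 l21 = true :=
  chk3_I (e' := [1,0,1,2,0,0,0,-1]) (by decide +kernel) (by decide +kernel) ok30 ok33

noncomputable def t36 : Tre :=
  .Q [0,0,0,0,0,-2,0,0,0,0,1] (.p true [0,0,1] [] (⟨0,[(19,0)]⟩,⟨0,[(18,0)]⟩) .k 0 (⟨0,[]⟩,⟨0,[]⟩)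
  .k .k) t34 t35

theorem ok36 : chk3 K KFs t36 r20 = true :=
  chk3_Q (e' := [0,0,0,0,0,2,0,0,0,0,-1]) (by decide +kernel) (by decide +kernel) ok34 ok35

noncomputable def t37 : Tre :=
  .Q [0,-1,0,-1,1,0,0,0,-1,-1,0,1] (.p true [0,0,0,0,1] [1] (⟨0,[(12,0)]⟩,⟨0,[(11,0)]⟩) .k 1 (⟨0,
  []⟩,⟨0,[]⟩) .k .k) t29 t36

theorem ok37 : chk3 K KFs t37 r19 = true :=
  chk3_Q (e' := [0,1,0,1,-1,0,0,0,1,1,0,-1]) (by decide +kernel) (by decide +kernel) ok29 ok36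

noncomputable def t38 : Tre :=
  .I [1,0,-1,-1,0,0,0,1] t28 t37

theorem ok38 : chk3 K KFs t38 r18 = true :=
  chk3_I (e' := [0,0,1,1,0,0,0,-1]) (by decide +kernel) (by decide +kernel) ok28 ok37

noncomputable def t39 : Tre :=
  .I [1,0,0,0,0,0,0,-1] t27 t38

theorem ok39 : chk3 K KFs t39 r17 = true :=
  chk3_I (e' := [0,0,0,0,0,0,0,1]) (by decide +kernel) (by decide +kernel) ok27 ok38

noncomputable def t40 : Tre :=
  .Q [0,-1,0,0,1,0,0,0,-1,-1,0,1] (.p true [0,0,0,0,1] [1] (⟨0,[(9,0)]⟩,⟨0,[(8,0)]⟩) .k 1 (⟨0,[]⟩,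
  ⟨0,[]⟩) .k .k) t26 t39

theorem ok40 : chk3 K KFs t40 r16 = true :=
  chk3_Q (e' := [0,1,0,0,-1,0,0,0,1,1,0,-1]) (by decide +kernel) (by decide +kernel) ok26 ok39

noncomputable def t41 : Tre :=
  .I [0,0,-1,-1,0,0,0,1] t25 t40

theorem ok41 : chk3 K KFs t41 l15 = true :=
  chk3_I (e' := [1,0,1,1,0,0,0,-1]) (by decide +kernel) (by decide +kernel) ok25 ok40

noncomputable def t47 : Tre :=
  .Q [0,0,0,0,0,-1,0,0,0,1,-1] (.ed true [0,1,1] .k) t45 t46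

theorem ok47 : chk3 K KFs t47 r26 = true :=
  chk3_Q (e' := [0,0,0,0,0,1,0,0,0,-1,1]) (by decide +kernel) (by decide +kernel) ok45 ok46

noncomputable def t48 : Tre :=
  .Q [0,0,0,0,0,2,0,0,0,0,-1] (.p false [0,0,1] [] (⟨0,[(16,0)]⟩,⟨0,[(15,0)]⟩) .k 0 (⟨0,[]⟩,⟨0,[]⟩)
  .k .k) t44 t47

theorem ok48 : chk3 K KFs t48 r25 = true :=
  chk3_Q (e' := [0,0,0,0,0,-2,0,0,0,0,1]) (by decide +kernel) (by decide +kernel) ok44 ok47

noncomputable def t49 : Tre :=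
  .Q [0,-1,0,-2,0,0,1,1,0,0,-1] (.p false [0,0,1] [] (⟨0,[(15,0)]⟩,⟨0,[(14,0)]⟩) .k 0 (⟨0,[]⟩,⟨0,
  []⟩) .k .k) t43 t48

theorem ok49 : chk3 K KFs t49 r24 = true :=
  chk3_Q (e' := [0,1,0,2,0,0,-1,-1,0,0,1]) (by decide +kernel) (by decide +kernel) ok43 ok48

noncomputable def t50 : Tre :=
  .I [0,-1,0,0,1,0,0,-1] t42 t49

theorem ok50 : chk3 K KFs t50 r15 = true :=
  chk3_I (e' := [1,1,0,0,-1,0,0,1]) (by decide +kernel) (by decide +kernel) ok42 ok49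

noncomputable def t51 : Tre :=
  .I [1,1,0,1,0,0,0,-1] t41 t50

theorem ok51 : chk3 K KFs t51 r2 = true :=
  chk3_I (e' := [0,-1,0,-1,0,0,0,1]) (by decide +kernel) (by decide +kernel) ok41 ok50

noncomputable def t52 : Tre :=
  .I [0,0,0,0,0,0,0,-1] t24 t51

theorem ok52 : chk3 K KFs t52 l1 = true :=
  chk3_I (e' := [1,0,0,0,0,0,0,1]) (by decide +kernel) (by decide +kernel) ok24 ok51

noncomputable def t54 : Tre :=
  .Q [0,0,0,0,0,-1,0,0,0,0,1] (.ed false [1,-1,1] .k) t52 t53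

theorem ok54 : chk3 K KFs t54 l0 = true :=
  chk3_Q (e' := [0,0,0,0,0,1,0,0,0,0,-1]) (by decide +kernel) (by decide +kernel) ok52 ok53

noncomputable def t56 : Tre :=
  .Q [0,1,0,1,0,0,-1,-1,0,0,1] (.p true [0,0,1] [] (⟨0,[(10,0)]⟩,⟨0,[(9,0)]⟩) .k 0 (⟨0,[]⟩,⟨0,[]⟩)
  .k .k) t54 t55

theorem ok56 : chk3 K KFs t56 base = true :=
  chk3_Q (e' := [0,-1,0,-1,0,0,1,1,0,0,-1]) (by decide +kernel) (by decide +kernel) ok54 ok55

open Helper25.KW Helper55.KE in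
theorem closed {p a b c J l q : ℤ} {D dl : ℝ} {Cl : ℤ → ℤ → ℤ → ℤ → ℝ → Prop}
    (W : World p a b c J (-1) l q D dl Cl) (g : G0 p a b c J D)
    {N X R : ℤ} {I : ℝ} (hk : KCl p l Cl N X R I) (kz : KF a b D (X + (-1 : ℤ) * I) (X + (-1 : ℤ) * I + R) I)
    {Ne Xe : ℤ} {Ie : ℝ} (he : EFac p (-1) D Cl (a) Ne Xe Ie)
    (hE : KZ p a b l (-1) Cl (fun X R I => Zx (-1) X R I) N
      (fun X R I => (1 : ℤ) * (X + (-1 : ℤ) * I + R)) ((1 : ℤ) * (X + (-1 : ℤ) * I + R)))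
    (h0 : 1 ≤ -(c : ℝ))
    (h1 : 1 ≤ (a : ℝ) - (b : ℝ) + (c : ℝ))
    (h2 : 0 < -2 * (b : ℝ) + D)
    (h3 : 1 ≤ 2 * (a : ℝ) - (b : ℝ))
    (h4 : 0 < -(X : ℝ) + I) : False := by
  have g1 := g.a2
  have g2 := g.b2
  have g3 := g.pa
  have g4 := g.pb
  have g5 := g.J1
  have g6 := g.JD
  have g7 := g.D2
  have g8 := g.ca
  have g9 := g.ca'
  have k1 := kz.I0
  have k2 := kz.ID
  have k3 := kz.z1
  have k4 := kz.z2
  have k5 := kz.s1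
  have k6 := kz.s2
  have e1 := he.I0
  have e2 := he.ID
  have e3 := he.x0
  have e4 := he.xp
  have hkf : ∀ kf ∈ KFs, KOk3 p l Cl (-1) (xv [1, a, b, c, p, J, X, R, Xe] [D, I, Ie]) N kf := by
    have hA : evg (xv [1, a, b, c, p, J, X, R, Xe] [D, I, Ie]) [0, 1] = a := by
      simp only [evg_cons, evg_nil, xv, List.map_cons, List.map_nil, List.cons_append, List.nil_append]
      push_cast
      ring
    have hB : evg (xv [1, a, b, c, p, J, X, R, Xe] [D, I, Ie]) [0, 0, 1] = b := by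
      simp only [evg_cons, evg_nil, xv, List.map_cons, List.map_nil, List.cons_append, List.nil_append]
      push_cast
      ring
    simp only [KFs, List.forall_mem_cons]
    refine ⟨kok3_ex hA hB hE ?_ ?_, fun _ h => absurd h (by simp)⟩
    · intro X' R' I' hg
      simp only [evg_cons, evg_nil, xv, List.map_cons, List.map_nil, List.cons_append, List.nil_append] at hg ⊢
      push_cast at hg ⊢
      linarith
    · intro X' R' I' _ hg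
      simp only [List.forall_mem_cons, List.not_mem_nil, false_imp_iff, implies_true, and_true,
        evg_cons, evg_nil, xv, List.map_cons, List.map_nil, List.cons_append, List.nil_append] at hg
      push_cast at hg
      simp only [Zx, Zp, Zs, Zsp, Zi, ZiD, Zy]
      push_cast
      linarith
  push_cast at *
  refine sound3 (val_E W.toBase hk he (row := [0,1]) (by simp) (by simp) []) W rfl (Nk := N)
    (fun kf _ _ => ⟨_, rfl⟩) hkf ok56 ?_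
  · simp only [base, List.forall_mem_cons, List.not_mem_nil, false_imp_iff, implies_true,
      and_true, hld, xv, evg_cons, evg_nil, List.map_cons, List.map_nil, List.cons_append,
      List.nil_append, if_true, if_false, Bool.false_eq_true]
    push_cast
    refine ⟨?_, ?_, ?_, ?_, ?_, ?_, ?_, ?_, ?_, ?_, ?_, ?_, ?_, ?_, ?_, ?_, ?_, ?_, ?_, ?_, ?_, ?_, ?_⟩ <;> linarith

end Helper25.S1T.Zmm1Ag
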