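import Pool.Agent.Helper25.KG.C3
import Pool.Agent.Helper25.S1T.Zmm1B_p0
import Pool.Agent.Helper25.S1T.Zmm1B_p1

set_option autoImplicit false
set_option linter.all false

namespace Helper25.S1T.Zmm1B

open Helper25.KG Helper11.CT

noncomputable def t12 : Tre :=
  .I [1,-1,1,1,0,0,0,-1] t10 t11

theorem ok12 : chk3 K KFs t12 r15 = true :=
  chk3_I (e' := [0,1,-1,-1,0,0,0,1]) (by decide +kernel) (by decide +kernel) ok10 ok11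

noncomputable def t13 : Tre :=
  .I [1,1,-2,-2,0,0,0,-1] t9 t12

theorem ok13 : chk3 K KFs t13 r14 = true :=
  chk3_I (e' := [0,-1,2,2,0,0,0,1]) (by decide +kernel) (by decide +kernel) ok9 ok12

noncomputable def t14 : Tre :=
  .I [1,1,-2,-1,0,0,0,-1] t8 t13

theorem ok14 : chk3 K KFs t14 l13 = true :=
  chk3_I (e' := [0,-1,2,1,0,0,0,1]) (by decide +kernel) (by decide +kernel) ok8 ok13

noncomputable def t16 : Tre :=
  .Q [0,0,0,0,0,-2,0,0,0,1,-1] (.p false [0,0,1] [1] (⟨0,[(25,0)]⟩,⟨0,[(24,0)]⟩) .k 1 (⟨0,[]⟩,⟨0,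
  []⟩) .k .k) t14 t15

theorem ok16 : chk3 K KFs t16 l12 = true :=
  chk3_Q (e' := [0,0,0,0,0,2,0,0,0,-1,1]) (by decide +kernel) (by decide +kernel) ok14 ok15

noncomputable def t18 : Tre :=
  .Q [0,0,0,1,0,0,-1,-1,0,0,1] (.p true [0,0,1] [] (⟨0,[(24,0)]⟩,⟨0,[(23,0)]⟩) .k 0 (⟨0,[]⟩,⟨0,[]⟩)
  .k .k) t16 t17

theorem ok18 : chk3 K KFs t18 r11 = true :=
  chk3_Q (e' := [0,0,0,-1,0,0,1,1,0,0,-1]) (by decide +kernel) (by decide +kernel) ok16 ok17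

noncomputable def t19 : Tre :=
  .Q [0,0,0,0,0,0,1,1,0,0,-1] (.p false [0,0,1] [] (⟨0,[(23,0)]⟩,⟨0,[(22,0)]⟩) .k 0 (⟨0,[]⟩,⟨0,[]⟩)
  .k .k) t7 t18

theorem ok19 : chk3 K KFs t19 r10 = true :=
  chk3_Q (e' := [0,0,0,0,0,0,-1,-1,0,0,1]) (by decide +kernel) (by decide +kernel) ok7 ok18

noncomputable def t20 : Tre :=
  .I [1,0,0,0,0,0,0,1] t6 t19

theorem ok20 : chk3 K KFs t20 r9 = true :=
  chk3_I (e' := [0,0,0,0,0,0,0,-1]) (by decide +kernel) (by decide +kernel) ok6 ok19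

noncomputable def t21 : Tre :=
  .I [1,0,-1,-1,0,0,0,-1] t5 t20

theorem ok21 : chk3 K KFs t21 l8 = true :=
  chk3_I (e' := [0,0,1,1,0,0,0,1]) (by decide +kernel) (by decide +kernel) ok5 ok20

noncomputable def t23 : Tre :=
  .I [1,0,0,0,0,0,0,-1] t21 t22

theorem ok23 : chk3 K KFs t23 l7 = true :=
  chk3_I (e' := [0,0,0,0,0,0,0,1]) (by decide +kernel) (by decide +kernel) ok21 ok22

noncomputable def t35 : Tre :=
  .Q [0,1,-1,0,-1,0,2,1,0,1,-2] (.p false [0,0,1] [1,0,-1] (⟨0,[(35,0)]⟩,⟨0,[(34,0)]⟩) .k 2 (⟨0,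
  [(34,0)]⟩,⟨0,[(35,0)]⟩) .k (.r 0 ⟨1,[(2,0),(4,0),(7,0),(14,0),(12,0)]⟩ ⟨0,[(25,1),(5,1),(13,
  0)]⟩)) t33 t34

theorem ok35 : chk3 K KFs t35 l31 = true :=
  chk3_Q (e' := [0,-1,1,0,1,0,-2,-1,0,-1,2]) (by decide +kernel) (by decide +kernel) ok33 ok34

noncomputable def t37 : Tre :=
  .Q [0,-1,-1,0,0,0,2,1,0,1,-2] (.p false [0,0,1] [1,0,-1] (⟨0,[(34,0)]⟩,⟨0,[(33,0)]⟩) .k 2 (⟨0,
  [(33,0)]⟩,⟨0,[(34,0)]⟩) .k (.r 0 ⟨1,[(1,0),(4,0),(7,0),(14,0),(12,0)]⟩ ⟨0,[(24,1),(5,1),(13,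
  0)]⟩)) t35 t36

theorem ok37 : chk3 K KFs t37 r30 = true :=
  chk3_Q (e' := [0,1,1,0,0,0,-2,-1,0,-1,2]) (by decide +kernel) (by decide +kernel) ok35 ok36

noncomputable def t38 : Tre :=
  .Q [0,0,0,0,0,2,0,0,0,0,-1] (.p false [0,0,1] [] (⟨0,[(33,0)]⟩,⟨0,[(32,0)]⟩) .k 0 (⟨0,[]⟩,⟨0,[]⟩)
  .k .k) t32 t37

theorem ok38 : chk3 K KFs t38 l29 = true :=
  chk3_Q (e' := [0,0,0,0,0,-2,0,0,0,0,1]) (by decide +kernel) (by decide +kernel) ok32 ok37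

noncomputable def t40 : Tre :=
  .I [0,0,1,1,-1,0,0,2] t38 t39

theorem ok40 : chk3 K KFs t40 r28 = true :=
  chk3_I (e' := [1,0,-1,-1,1,0,0,-2]) (by decide +kernel) (by decide +kernel) ok38 ok39

noncomputable def t41 : Tre :=
  .I [0,0,1,0,0,0,0,-1] t31 t40

theorem ok41 : chk3 K KFs t41 l27 = true :=
  chk3_I (e' := [1,0,-1,0,0,0,0,1]) (by decide +kernel) (by decide +kernel) ok31 ok40

noncomputable def t43 : Tre :=
  .Q [0,0,-1,0,1,0,-1,0,0,-1,1] (.p true [0,0,1] [1] (⟨0,[(30,0)]⟩,⟨0,[(29,0)]⟩) .k 1 (⟨0,[]⟩,⟨0,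
  []⟩) .k .k) t41 t42

theorem ok43 : chk3 K KFs t43 l26 = true :=
  chk3_Q (e' := [0,0,1,0,-1,0,1,0,0,1,-1]) (by decide +kernel) (by decide +kernel) ok41 ok42

noncomputable def t45 : Tre :=
  .Q [0,0,0,0,0,-1,0,0,0,0,1] (.ed false [1,-1,1] .k) t43 t44

theorem ok45 : chk3 K KFs t45 r25 = true :=
  chk3_Q (e' := [0,0,0,0,0,1,0,0,0,0,-1]) (by decide +kernel) (by decide +kernel) ok43 ok44

noncomputable def t46 : Tre :=
  .Q [0,-1,0,-2,0,0,1,1,0,0,-1] (.p false [0,0,1] [] (⟨0,[(28,0)]⟩,⟨0,[(27,0)]⟩) .k 0 (⟨0,[]⟩,⟨0,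
  []⟩) .k .k) t30 t45

theorem ok46 : chk3 K KFs t46 l24 = true :=
  chk3_Q (e' := [0,1,0,2,0,0,-1,-1,0,0,1]) (by decide +kernel) (by decide +kernel) ok30 ok45

noncomputable def t48 : Tre :=
  .Q [0,0,-2,0,1,0,-1,0,0,0,1] (.p true [0,0,1] [] (⟨0,[(27,0)]⟩,⟨0,[(26,0)]⟩) .k 0 (⟨0,[]⟩,⟨0,[]⟩)
  .k .k) t46 t47

theorem ok48 : chk3 K KFs t48 r23 = true :=
  chk3_Q (e' := [0,0,2,0,-1,0,1,0,0,0,-1]) (by decide +kernel) (by decide +kernel) ok46 ok47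

noncomputable def t49 : Tre :=
  .Q [0,0,1,0,0,0,0,0,0,-1] (.pp true [-1,1]) t29 t48

theorem ok49 : chk3 K KFs t49 r22 = true :=
  chk3_Q (e' := [0,0,-1,0,0,0,0,0,0,1]) (by decide +kernel) (by decide +kernel) ok29 ok48

noncomputable def t50 : Tre :=
  .Q [0,0,0,0,0,2,0,0,0,-1] (.pp true [-1,1]) t28 t49

theorem ok50 : chk3 K KFs t50 r21 = true :=
  chk3_Q (e' := [0,0,0,0,0,-2,0,0,0,1]) (by decide +kernel) (by decide +kernel) ok28 ok49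

noncomputable def t51 : Tre :=
  .Q [0,0,-1,0,1,0,0,0,-1,-1,0,1] (.p true [0,0,0,0,1] [1] (⟨0,[(18,0)]⟩,⟨0,[(17,0)]⟩) .k 1 (⟨0,[]⟩,
  ⟨0,[]⟩) .k .k) t27 t50

theorem ok51 : chk3 K KFs t51 r20 = true :=
  chk3_Q (e' := [0,0,1,0,-1,0,0,0,1,1,0,-1]) (by decide +kernel) (by decide +kernel) ok27 ok50

noncomputable def t52 : Tre :=
  .I [0,0,-2,-1,1,0,0,-1] t26 t51

theorem ok52 : chk3 K KFs t52 l19 = true :=
  chk3_I (e' := [1,0,2,1,-1,0,0,1]) (by decide +kernel) (by decide +kernel) ok26 ok51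

noncomputable def t54 : Tre :=
  .Q [0,0,0,0,0,2,0,0,0,-1,1] (.p true [0,0,1] [1] (⟨0,[(22,0)]⟩,⟨0,[(21,0)]⟩) .k 1 (⟨0,[]⟩,⟨0,[]⟩)
  .k .k) t52 t53

theorem ok54 : chk3 K KFs t54 r18 = true :=
  chk3_Q (e' := [0,0,0,0,0,-2,0,0,0,1,-1]) (by decide +kernel) (by decide +kernel) ok52 ok53

noncomputable def t55 : Tre :=
  .Q [0,-1,0,-1,0,0,1,1,0,0,-1] (.p false [0,0,1] [] (⟨0,[(21,0)]⟩,⟨0,[(20,0)]⟩) .k 0 (⟨0,[]⟩,⟨0,
  []⟩) .k .k) t25 t54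

theorem ok55 : chk3 K KFs t55 r17 = true :=
  chk3_Q (e' := [0,1,0,1,0,0,-1,-1,0,0,1]) (by decide +kernel) (by decide +kernel) ok25 ok54

noncomputable def t56 : Tre :=
  .I [0,-1,-1,-1,1,0,0,-1] t24 t55

theorem ok56 : chk3 K KFs t56 r7 = true :=
  chk3_I (e' := [1,1,1,1,-1,0,0,1]) (by decide +kernel) (by decide +kernel) ok24 ok55

noncomputable def t57 : Tre :=
  .I [1,1,-1,0,0,0,0,-1] t23 t56

theorem ok57 : chk3 K KFs t57 l6 = true :=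
  chk3_I (e' := [0,-1,1,0,0,0,0,1]) (by decide +kernel) (by decide +kernel) ok23 ok56

noncomputable def t62 : Tre :=
  .Q [0,0,0,0,0,1,0,0,0,0,-1] (.ed true [1,-1,1] .k) t60 t61

theorem ok62 : chk3 K KFs t62 l35 = true :=
  chk3_Q (e' := [0,0,0,0,0,-1,0,0,0,0,1]) (by decide +kernel) (by decide +kernel) ok60 ok61

noncomputable def t64 : Tre :=
  .I [1,1,0,0,-1,0,0,-1] t62 t63

theorem ok64 : chk3 K KFs t64 r34 = true :=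
  chk3_I (e' := [0,-1,0,0,1,0,0,1]) (by decide +kernel) (by decide +kernel) ok62 ok63

noncomputable def t65 : Tre :=
  .I [0,0,-2,-2,0,0,0,-1] t59 t64

theorem ok65 : chk3 K KFs t65 r33 = true :=
  chk3_I (e' := [1,0,2,2,0,0,0,1]) (by decide +kernel) (by decide +kernel) ok59 ok64

noncomputable def t66 : Tre :=
  .I [1,-1,0,1,1,0,0,1] t58 t65

theorem ok66 : chk3 K KFs t66 r6 = true :=
  chk3_I (e' := [0,1,0,-1,-1,0,0,-1]) (by decide +kernel) (by decide +kernel) ok58 ok65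

noncomputable def t67 : Tre :=
  .I [1,0,1,1,0,0,0,1] t57 t66

theorem ok67 : chk3 K KFs t67 r5 = true :=
  chk3_I (e' := [0,0,-1,-1,0,0,0,-1]) (by decide +kernel) (by decide +kernel) ok57 ok66

noncomputable def t68 : Tre :=
  .Q [0,0,-1,0,-1,0,0,0,1,1,0,-1] (.p false [0,0,0,0,1] [1] (⟨0,[(11,0)]⟩,⟨0,[(10,0)]⟩) .k 1 (⟨0,
  []⟩,⟨0,[]⟩) .k .k) t4 t67

theorem ok68 : chk3 K KFs t68 r4 = true :=
  chk3_Q (e' := [0,0,1,0,1,0,0,0,-1,-1,0,1]) (by decide +kernel) (by decide +kernel) ok4 ok67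

noncomputable def t69 : Tre :=
  .Q [0,-1,0,-1,1,0,0,0,-1,-1,0,1] (.p true [0,0,0,0,1] [1] (⟨0,[(10,0)]⟩,⟨0,[(9,0)]⟩) .k 1 (⟨0,[]⟩,
  ⟨0,[]⟩) .k .k) t3 t68

theorem ok69 : chk3 K KFs t69 r3 = true :=
  chk3_Q (e' := [0,1,0,1,-1,0,0,0,1,1,0,-1]) (by decide +kernel) (by decide +kernel) ok3 ok68

noncomputable def t70 : Tre :=
  .Q [0,-1,0,0,1,0,0,0,-1,-1,0,1] (.p true [0,0,0,0,1] [1] (⟨0,[(9,0)]⟩,⟨0,[(8,0)]⟩) .k 1 (⟨0,[]⟩,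
  ⟨0,[]⟩) .k .k) t2 t69

theorem ok70 : chk3 K KFs t70 r2 = true :=
  chk3_Q (e' := [0,1,0,0,-1,0,0,0,1,1,0,-1]) (by decide +kernel) (by decide +kernel) ok2 ok69

noncomputable def t71 : Tre :=
  .Q [0,0,-2,0,0,0,1,0,0,1,-1] (.p false [0,0,1] [1] (⟨0,[(14,0)]⟩,⟨0,[(13,0)]⟩) .k 1 (⟨0,[]⟩,⟨0,
  []⟩) .k .k) t1 t70

theorem ok71 : chk3 K KFs t71 r1 = true :=
  chk3_Q (e' := [0,0,2,0,0,0,-1,0,0,-1,1]) (by decide +kernel) (by decide +kernel) ok1 ok70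

noncomputable def t72 : Tre :=
  .Q [0,0,0,-1,0,0,-1,-1,0,-1,1] (.p true [0,0,1] [1] (⟨0,[(13,0)]⟩,⟨0,[(12,0)]⟩) .k 1 (⟨0,[]⟩,⟨0,
  []⟩) .k .k) t0 t71

theorem ok72 : chk3 K KFs t72 l0 = true :=
  chk3_Q (e' := [0,0,0,1,0,0,1,1,0,1,-1]) (by decide +kernel) (by decide +kernel) ok0 ok71

noncomputable def t74 : Tre :=
  .Q [0,1,0,1,0,0,1,1,0,0,-1] (.p false [0,0,1] [] (⟨0,[(12,0)]⟩,⟨0,[(11,0)]⟩) .k 0 (⟨0,[]⟩,⟨0,[]⟩)
  .k .k) t72 t73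

theorem ok74 : chk3 K KFs t74 base = true :=
  chk3_Q (e' := [0,-1,0,-1,0,0,-1,-1,0,0,1]) (by decide +kernel) (by decide +kernel) ok72 ok73

open Helper25.KW Helper55.KE in
theorem closed {p a b c J l q : ℤ} {D dl : ℝ} {Cl : ℤ → ℤ → ℤ → ℤ → ℝ → Prop}
    (W : World p a b c J (-1) l q D dl Cl) (g : G0 p a b c J D)
    {N X R : ℤ} {I : ℝ} (hk : KCl p l Cl N X R I) (kz : KF a b D (X + (-1 : ℤ) * I) (X + (-1 : ℤ) * I + R) I)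
    {Ne Xe : ℤ} {Ie : ℝ} (he : EFac p (-1) D Cl (a) Ne Xe Ie)
    (hN0 : KNo p a b l (-1) Cl (fun X R I => Zx (-1) X R I ∧ Zy b (-1) D X R I))
    (h0 : 1 ≤ -(c : ℝ))
    (h1 : 1 ≤ (a : ℝ) - (b : ℝ) + (c : ℝ))
    (h2 : 0 < 2 * (b : ℝ) - D)
    (h3 : 1 ≤ 2 * (a : ℝ) - (b : ℝ))
    (h4 : 0 < (X : ℝ) - I)
    (h5 : 0 < -(b : ℝ) + (X : ℝ) + D - I)
    (h6 : 0 < -(J : ℝ) + D - I) : False := by
  have g1 := g.a2
  have g2 := g.b2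
  have g3 := g.pa
  have g4 := g.pb
  have g5 := g.J1
  have g6 := g.JD
  have g7 := g.D2
  have g8 := g.ca
  have g9 := g.ca'
  have k1 := kz.I0
  have k2 := kz.ID
  have k3 := kz.z1
  have k4 := kz.z2
  have k5 := kz.s1
  have k6 := kz.s2
  have e1 := he.I0
  have e2 := he.ID
  have e3 := he.x0
  have e4 := he.xp
  have hkf : ∀ kf ∈ KFs, KOk3 p l Cl (-1) (xv [1, a, b, c, p, J, X, R, Xe] [D, I, Ie]) N kf := by
    have hA : evg (xv [1, a, b, c, p, J, X, R, Xe] [D, I, Ie]) [0, 1] = a := by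
      simp only [evg_cons, evg_nil, xv, List.map_cons, List.map_nil, List.cons_append, List.nil_append]
      push_cast
      ring
    have hB : evg (xv [1, a, b, c, p, J, X, R, Xe] [D, I, Ie]) [0, 0, 1] = b := by
      simp only [evg_cons, evg_nil, xv, List.map_cons, List.map_nil, List.cons_append, List.nil_append]
      push_cast
      ring
    simp only [KFs, List.forall_mem_cons]
    refine ⟨kok3_no hA hB N hN0 ?_, fun _ h => absurd h (by simp)⟩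
    · intro X' R' I' _ hg
      simp only [List.forall_mem_cons, List.not_mem_nil, false_imp_iff, implies_true, and_true,
        evg_cons, evg_nil, xv, List.map_cons, List.map_nil, List.cons_append, List.nil_append] at hg
      push_cast at hg
      simp only [Zx, Zp, Zs, Zsp, Zi, ZiD, Zy]
      push_cast
      refine ⟨?_, ?_⟩ <;> linarith [hg.1, hg.2]
  push_cast at *
  refine sound3 (val_E W.toBase hk he (row := [0,1]) (by simp) (by simp) []) W rfl (Nk := N)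
    (fun kf _ _ => ⟨_, rfl⟩) hkf ok74 ?_
  · simp only [base, List.forall_mem_cons, List.not_mem_nil, false_imp_iff, implies_true,
      and_true, hld, xv, evg_cons, evg_nil, List.map_cons, List.map_nil, List.cons_append,
      List.nil_append, if_true, if_false, Bool.false_eq_true]
    push_cast
    refine ⟨?_, ?_, ?_, ?_, ?_, ?_, ?_, ?_, ?_, ?_, ?_, ?_, ?_, ?_, ?_, ?_, ?_, ?_, ?_, ?_, ?_, ?_, ?_, ?_, ?_⟩ <;> linarith

end Helper25.S1T.Zmm1B
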