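import Pool.Agent.Helper25.KG.C3
import Pool.Agent.Helper25.S1T.Zmm1C_p0
import Pool.Agent.Helper25.S1T.Zmm1C_p1

set_option autoImplicit false
set_option linter.all false

namespace Helper25.S1T.Zmm1C

open Helper25.KG Helper11.CT

noncomputable def t3 : Tre :=
  .Q [0,0,0,0,0,-1,0,0,0,1,0,-1] (.ed true [0,1,0,0,1] .k) t1 t2

theorem ok3 : chk3 K KFs t3 l3 = true :=
  chk3_Q (e' := [0,0,0,0,0,1,0,0,0,-1,0,1]) (by decide +kernel) (by decide +kernel) ok1 ok2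

noncomputable def t5 : Tre :=
  .Q [0,0,1,-1,0,0,0,0,0,-1] (.pp true [-1,1]) t3 t4

theorem ok5 : chk3 K KFs t5 l2 = true :=
  chk3_Q (e' := [0,0,-1,1,0,0,0,0,0,1]) (by decide +kernel) (by decide +kernel) ok3 ok4

noncomputable def t7 : Tre :=
  .Q [0,-1,0,2,1,0,0,0,0,1] (.pp false [-1,1]) t5 t6

theorem ok7 : chk3 K KFs t7 l1 = true :=
  chk3_Q (e' := [0,1,0,-2,-1,0,0,0,0,-1]) (by decide +kernel) (by decide +kernel) ok5 ok6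

noncomputable def t13 : Tre :=
  .Q [0,2,0,1,-1,0,0,0,1,0,0,-1] (.p false [0,0,0,0,1] [] (⟨0,[(18,0)]⟩,⟨0,[(17,0)]⟩) .k 0 (⟨0,[]⟩,
  ⟨0,[]⟩) .k .k) t11 t12

theorem ok13 : chk3 K KFs t13 l14 = true :=
  chk3_Q (e' := [0,-2,0,-1,1,0,0,0,-1,0,0,1]) (by decide +kernel) (by decide +kernel) ok11 ok12

noncomputable def t15 : Tre :=
  .Q [0,2,0,0,-1,0,0,0,1,0,0,-1] (.p false [0,0,0,0,1] [] (⟨0,[(17,0)]⟩,⟨0,[(16,0)]⟩) .k 0 (⟨0,[]⟩,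
  ⟨0,[]⟩) .k .k) t13 t14

theorem ok15 : chk3 K KFs t15 l13 = true :=
  chk3_Q (e' := [0,-2,0,0,1,0,0,0,-1,0,0,1]) (by decide +kernel) (by decide +kernel) ok13 ok14

noncomputable def t17 : Tre :=
  .Q [0,-3,0,-1,3,0,0,0,-2,-1,0,2] (.p true [0,0,0,0,1] [1,0,0,0,-1] (⟨0,[(16,0)]⟩,⟨0,[(15,0)]⟩) .k
  2 (⟨0,[(15,0)]⟩,⟨0,[(16,0)]⟩) .k (.r 0 ⟨0,[(34,1)]⟩ ⟨0,[(32,0)]⟩)) t15 t16

theorem ok17 : chk3 K KFs t17 l12 = true :=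
  chk3_Q (e' := [0,3,0,1,-3,0,0,0,2,1,0,-2]) (by decide +kernel) (by decide +kernel) ok15 ok16

noncomputable def t19 : Tre :=
  .Q [0,3,0,2,-2,0,0,0,2,1,0,-2] (.p false [0,0,0,0,1] [1,0,0,0,-1] (⟨0,[(15,0)]⟩,⟨0,[(14,0)]⟩) .k
  2 (⟨0,[(14,0)]⟩,⟨0,[(15,0)]⟩) .k (.r 0 ⟨0,[(33,1)]⟩ ⟨0,[(31,0)]⟩)) t17 t18

theorem ok19 : chk3 K KFs t19 l11 = true :=
  chk3_Q (e' := [0,-3,0,-2,2,0,0,0,-2,-1,0,2]) (by decide +kernel) (by decide +kernel) ok17 ok18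

noncomputable def t21 : Tre :=
  .Q [0,0,0,0,0,0,-1,0,1,0,1,-1] (.p false [1,0,-1,0,1] [1] (⟨0,[(14,0),(4,0)]⟩,⟨0,[(0,0),(7,0)]⟩)
  .k 1 (⟨0,[]⟩,⟨0,[]⟩) .k (.i 1 ⟨0,[(14,0),(4,0)]⟩ ⟨0,[(0,0),(7,0)]⟩)) t19 t20

theorem ok21 : chk3 K KFs t21 r10 = true :=
  chk3_Q (e' := [0,0,0,0,0,0,1,0,-1,0,-1,1]) (by decide +kernel) (by decide +kernel) ok19 ok20

noncomputable def t22 : Tre :=
  .Q [0,0,0,0,0,1,0,0,0,-1,0,1] (.ed false [0,1,0,0,1] .k) t10 t21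

theorem ok22 : chk3 K KFs t22 l9 = true :=
  chk3_Q (e' := [0,0,0,0,0,-1,0,0,0,1,0,-1]) (by decide +kernel) (by decide +kernel) ok10 ok21

noncomputable def t24 : Tre :=
  .Q [0,0,0,0,1,0,0,0,-1,-1,0,1] (.p true [0,0,0,0,1] [1] (⟨0,[(12,0)]⟩,⟨0,[(11,0)]⟩) .k 1 (⟨0,[]⟩,
  ⟨0,[]⟩) .k .k) t22 t23

theorem ok24 : chk3 K KFs t24 r8 = true :=
  chk3_Q (e' := [0,0,0,0,-1,0,0,0,1,1,0,-1]) (by decide +kernel) (by decide +kernel) ok22 ok23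

noncomputable def t25 : Tre :=
  .Q [0,-1,1,1,0,0,-1,-1,0,0,1] (.p true [0,0,1] [] (⟨0,[(17,0)]⟩,⟨0,[(16,0)]⟩) .k 0 (⟨0,[]⟩,⟨0,
  []⟩) .k .k) t9 t24

theorem ok25 : chk3 K KFs t25 l7 = true :=
  chk3_Q (e' := [0,1,-1,-1,0,0,1,1,0,0,-1]) (by decide +kernel) (by decide +kernel) ok9 ok24

noncomputable def t29 : Tre :=
  .Q [0,0,-1,0,1,0,0,0,-1,-1,0,1] (.p true [0,0,0,0,1] [1] (⟨0,[(14,0)]⟩,⟨0,[(13,0)]⟩) .k 1 (⟨0,[]⟩,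
  ⟨0,[]⟩) .k .k) t27 t28

theorem ok29 : chk3 K KFs t29 l18 = true :=
  chk3_Q (e' := [0,0,1,0,-1,0,0,0,1,1,0,-1]) (by decide +kernel) (by decide +kernel) ok27 ok28

noncomputable def t31 : Tre :=
  .Q [0,1,0,-1,0,0,-1,-1,0,-1,1] (.p true [0,0,1] [1] (⟨0,[(19,0)]⟩,⟨0,[(18,0)]⟩) .k 1 (⟨0,[]⟩,⟨0,
  []⟩) .k .k) t29 t30

theorem ok31 : chk3 K KFs t31 r17 = true :=
  chk3_Q (e' := [0,-1,0,1,0,0,1,1,0,1,-1]) (by decide +kernel) (by decide +kernel) ok29 ok30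

noncomputable def t32 : Tre :=
  .Q [0,0,-1,-1,-1,0,0,0,1,1,0,-1] (.p false [0,0,0,0,1] [1] (⟨0,[(12,0)]⟩,⟨0,[(11,0)]⟩) .k 1 (⟨0,
  []⟩,⟨0,[]⟩) .k .k) t26 t31

theorem ok32 : chk3 K KFs t32 l16 = true :=
  chk3_Q (e' := [0,0,1,1,1,0,0,0,-1,-1,0,1]) (by decide +kernel) (by decide +kernel) ok26 ok31

noncomputable def t34 : Tre :=
  .I [0,-1,0,0,1,0,0,1] t32 t33

theorem ok34 : chk3 K KFs t34 r7 = true :=
  chk3_I (e' := [1,1,0,0,-1,0,0,-1]) (by decide +kernel) (by decide +kernel) ok32 ok33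

noncomputable def t35 : Tre :=
  .Q [0,0,-1,-1,0,0,1,0,0,0,-1] (.p false [0,0,1] [] (⟨0,[(16,0)]⟩,⟨0,[(15,0)]⟩) .k 0 (⟨0,[]⟩,⟨0,
  []⟩) .k .k) t25 t34

theorem ok35 : chk3 K KFs t35 r6 = true :=
  chk3_Q (e' := [0,0,1,1,0,0,-1,0,0,0,1]) (by decide +kernel) (by decide +kernel) ok25 ok34

noncomputable def t36 : Tre :=
  .Q [0,0,-1,0,-1,0,0,0,1,1,0,-1] (.p false [0,0,0,0,1] [1] (⟨0,[(9,0)]⟩,⟨0,[(8,0)]⟩) .k 1 (⟨0,[]⟩,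
  ⟨0,[]⟩) .k .k) t8 t35

theorem ok36 : chk3 K KFs t36 l5 = true :=
  chk3_Q (e' := [0,0,1,0,1,0,0,0,-1,-1,0,1]) (by decide +kernel) (by decide +kernel) ok8 ok35

noncomputable def t38 : Tre :=
  .Q [0,1,0,1,-1,0,0,0,1,1,0,-1] (.p false [0,0,0,0,1] [1] (⟨0,[(8,0)]⟩,⟨0,[(7,0)]⟩) .k 1 (⟨0,[]⟩,
  ⟨0,[]⟩) .k .k) t36 t37

theorem ok38 : chk3 K KFs t38 r1 = true :=
  chk3_Q (e' := [0,-1,0,-1,1,0,0,0,-1,-1,0,1]) (by decide +kernel) (by decide +kernel) ok36 ok37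

noncomputable def t39 : Tre :=
  .Q [0,-1,0,0,1,0,0,0,-1,-1,0,1] (.p true [0,0,0,0,1] [1] (⟨0,[(7,0)]⟩,⟨0,[(6,0)]⟩) .k 1 (⟨0,[]⟩,
  ⟨0,[]⟩) .k .k) t7 t38

theorem ok39 : chk3 K KFs t39 r0 = true :=
  chk3_Q (e' := [0,1,0,0,-1,0,0,0,1,1,0,-1]) (by decide +kernel) (by decide +kernel) ok7 ok38

noncomputable def t40 : Tre :=
  .I [1,-1,1,1,0,0,0,1] t0 t39

theorem ok40 : chk3 K KFs t40 base = true :=
  chk3_I (e' := [0,1,-1,-1,0,0,0,-1]) (by decide +kernel) (by decide +kernel) ok0 ok39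

open Helper25.KW Helper55.KE in
theorem closed {p a b c J l q : ℤ} {D dl : ℝ} {Cl : ℤ → ℤ → ℤ → ℤ → ℝ → Prop}
    (W : World p a b c J (-1) l q D dl Cl) (g : G0 p a b c J D)
    {N X R : ℤ} {I : ℝ} (hk : KCl p l Cl N X R I) (kz : KF a b D (X + (-1 : ℤ) * I) (X + (-1 : ℤ) * I + R) I)
    {Ne Xe : ℤ} {Ie : ℝ} (he : EFac p (-1) D Cl (a) Ne Xe Ie)
    (hN0 : KNo p a b l (-1) Cl (fun X R I => Zx (-1) X R I ∧ Zy b (-1) D X R I))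
    (h0 : 1 ≤ -(c : ℝ))
    (h1 : 1 ≤ (a : ℝ) - (b : ℝ) + (c : ℝ))
    (h2 : 0 < 2 * (b : ℝ) - D)
    (h3 : 1 ≤ 2 * (a : ℝ) - (b : ℝ))
    (h4 : 0 < (X : ℝ) - I)
    (h5 : 0 < -(b : ℝ) + (X : ℝ) + D - I)
    (h6 : 0 < (J : ℝ) - D + I) : False := by
  have g1 := g.a2
  have g2 := g.b2
  have g3 := g.pa
  have g4 := g.pb
  have g5 := g.J1
  have g6 := g.JD
  have g7 := g.D2
  have g8 := g.ca
  have g9 := g.ca'
  have k1 := kz.I0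
  have k2 := kz.ID
  have k3 := kz.z1
  have k4 := kz.z2
  have k5 := kz.s1
  have k6 := kz.s2
  have e1 := he.I0
  have e2 := he.ID
  have e3 := he.x0
  have e4 := he.xp
  have hkf : ∀ kf ∈ KFs, KOk3 p l Cl (-1) (xv [1, a, b, c, p, J, X, R, Xe] [D, I, Ie]) N kf := by
    have hA : evg (xv [1, a, b, c, p, J, X, R, Xe] [D, I, Ie]) [0, 1] = a := by
      simp only [evg_cons, evg_nil, xv, List.map_cons, List.map_nil, List.cons_append, List.nil_append]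
      push_cast
      ring
    have hB : evg (xv [1, a, b, c, p, J, X, R, Xe] [D, I, Ie]) [0, 0, 1] = b := by
      simp only [evg_cons, evg_nil, xv, List.map_cons, List.map_nil, List.cons_append, List.nil_append]
      push_cast
      ring
    simp only [KFs, List.forall_mem_cons]
    refine ⟨kok3_no hA hB N hN0 ?_, fun _ h => absurd h (by simp)⟩
    · intro X' R' I' _ hg
      simp only [List.forall_mem_cons, List.not_mem_nil, false_imp_iff, implies_true, and_true,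
        evg_cons, evg_nil, xv, List.map_cons, List.map_nil, List.cons_append, List.nil_append] at hg
      push_cast at hg
      simp only [Zx, Zp, Zs, Zsp, Zi, ZiD, Zy]
      push_cast
      refine ⟨?_, ?_⟩ <;> linarith [hg.1, hg.2]
  push_cast at *
  refine sound3 (val_E W.toBase hk he (row := [0,1]) (by simp) (by simp) []) W rfl (Nk := N)
    (fun kf _ _ => ⟨_, rfl⟩) hkf ok40 ?_
  · simp only [base, List.forall_mem_cons, List.not_mem_nil, false_imp_iff, implies_true,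
      and_true, hld, xv, evg_cons, evg_nil, List.map_cons, List.map_nil, List.cons_append,
      List.nil_append, if_true, if_false, Bool.false_eq_true]
    push_cast
    refine ⟨?_, ?_, ?_, ?_, ?_, ?_, ?_, ?_, ?_, ?_, ?_, ?_, ?_, ?_, ?_, ?_, ?_, ?_, ?_, ?_, ?_, ?_, ?_, ?_, ?_⟩ <;> linarith

end Helper25.S1T.Zmm1C
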