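import Pool.Agent.Helper25.KG.C3
import Pool.Agent.Helper25.S1T.Zmp1A_p0
import Pool.Agent.Helper25.S1T.Zmp1A_p1
import Pool.Agent.Helper25.S1T.Zmp1A_p2
import Pool.Agent.Helper25.S1T.Zmp1A_p3
import Pool.Agent.Helper25.S1T.Zmp1A_p4

set_option autoImplicit false
set_option linter.all false

namespace Helper25.S1T.Zmp1A

open Helper25.KG Helper11.CT

noncomputable def t8 : Tre :=
  .I [0,-1,-1,-2,1,0,0,1] t6 t7

theorem ok8 : chk3 K KFs t8 l13 = true :=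
  chk3_I (e' := [1,1,1,2,-1,0,0,-1]) (by decide +kernel) (by decide +kernel) ok6 ok7

noncomputable def t13 : Tre :=
  .I [0,0,-2,-2,0,0,0,-1] t11 t12

theorem ok13 : chk3 K KFs t13 l17 = true :=
  chk3_I (e' := [1,0,2,2,0,0,0,1]) (by decide +kernel) (by decide +kernel) ok11 ok12

noncomputable def t15 : Tre :=
  .I [0,0,-1,0,0,-1,-2] t13 t14

theorem ok15 : chk3 K KFs t15 r16 = true :=
  chk3_I (e' := [1,0,1,0,0,1,2]) (by decide +kernel) (by decide +kernel) ok13 ok14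

noncomputable def t16 : Tre :=
  .Q [0,0,0,-1,0,0,1,1,1,-1,1,1] (.p true [0,0,1] [1,0,0,0,-1] (⟨0,[(26,0)]⟩,⟨0,[(25,0)]⟩) .k 2 (⟨0,
  [(19,0)]⟩,⟨0,[(20,0)]⟩) .k (.r 0 ⟨0,[(16,0),(4,0)]⟩ ⟨1,[(9,0),(12,0),(0,0),(11,0),(0,0)]⟩)) t10
  t15

theorem ok16 : chk3 K KFs t16 r15 = true :=
  chk3_Q (e' := [0,0,0,1,0,0,-1,-1,-1,1,-1,-1]) (by decide +kernel) (by decide +kernel) ok10 ok15

noncomputable def t17 : Tre :=
  .I [0,-1,2,1] t9 t16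

theorem ok17 : chk3 K KFs t17 r13 = true :=
  chk3_I (e' := [1,1,-2,-1]) (by decide +kernel) (by decide +kernel) ok9 ok16

noncomputable def t18 : Tre :=
  .Q [0,0,2,0,-1,0,-1,0,0,1,-1] (.p false [0,0,1] [1] (⟨0,[(24,0)]⟩,⟨0,[(23,0)]⟩) .k 1 (⟨0,[]⟩,⟨0,
  []⟩) .k .k) t8 t17

theorem ok18 : chk3 K KFs t18 l12 = true :=
  chk3_Q (e' := [0,0,-2,0,1,0,1,0,0,-1,1]) (by decide +kernel) (by decide +kernel) ok8 ok17

noncomputable def t25 : Tre :=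
  .Q [0,-1,0,2,1,0,0,0,0,-1] (.pp true [-1,1]) t23 t24

theorem ok25 : chk3 K KFs t25 r23 = true :=
  chk3_Q (e' := [0,1,0,-2,-1,0,0,0,0,1]) (by decide +kernel) (by decide +kernel) ok23 ok24

noncomputable def t26 : Tre :=
  .Q [0,0,-1,0,0,0,0,0,1,-1,0,1] (.p true [0,0,0,0,1] [1] (⟨0,[(22,0)]⟩,⟨0,[(21,0)]⟩) .k 1 (⟨0,[]⟩,
  ⟨0,[]⟩) .k .k) t22 t25

theorem ok26 : chk3 K KFs t26 r22 = true :=
  chk3_Q (e' := [0,0,1,0,0,0,0,0,-1,1,0,-1]) (by decide +kernel) (by decide +kernel) ok22 ok25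

noncomputable def t27 : Tre :=
  .I [1,-1,-2,-2,1] t21 t26

theorem ok27 : chk3 K KFs t27 r21 = true :=
  chk3_I (e' := [0,1,2,2,-1]) (by decide +kernel) (by decide +kernel) ok21 ok26

noncomputable def t28 : Tre :=
  .I [0,0,2,2,-1,0,0,-1] t20 t27

theorem ok28 : chk3 K KFs t28 r20 = true :=
  chk3_I (e' := [1,0,-2,-2,1,0,0,1]) (by decide +kernel) (by decide +kernel) ok20 ok27

noncomputable def t29 : Tre :=
  .Q [0,0,0,-2,-1,0,-1,-1,0,1,-1] (.p false [0,0,1] [1] (⟨0,[(25,0)]⟩,⟨0,[(24,0)]⟩) .k 1 (⟨0,[]⟩,⟨0,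
  []⟩) .k .k) t19 t28

theorem ok29 : chk3 K KFs t29 l19 = true :=
  chk3_Q (e' := [0,0,0,2,1,0,1,1,0,-1,1]) (by decide +kernel) (by decide +kernel) ok19 ok28

noncomputable def t31 : Tre :=
  .Q [0,0,0,1,1,0,1,1,0,-1,1] (.p true [0,0,1] [1] (⟨0,[(24,0)]⟩,⟨0,[(23,0)]⟩) .k 1 (⟨0,[]⟩,⟨0,[]⟩)
  .k .k) t29 t30

theorem ok31 : chk3 K KFs t31 r12 = true :=
  chk3_Q (e' := [0,0,0,-1,-1,0,-1,-1,0,1,-1]) (by decide +kernel) (by decide +kernel) ok29 ok30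

noncomputable def t32 : Tre :=
  .I [0,-1,-2,-2,1] t18 t31

theorem ok32 : chk3 K KFs t32 l11 = true :=
  chk3_I (e' := [1,1,2,2,-1]) (by decide +kernel) (by decide +kernel) ok18 ok31

noncomputable def t34 : Tre :=
  .I [1,0,-1,0,0,0,0,-1] t32 t33

theorem ok34 : chk3 K KFs t34 r10 = true :=
  chk3_I (e' := [0,0,1,0,0,0,0,1]) (by decide +kernel) (by decide +kernel) ok32 ok33

noncomputable def t35 : Tre :=
  .Q [0,0,0,0,0,0,1,1,1,-1,1,1] (.p true [0,0,1] [1,0,0,0,-1] (⟨0,[(21,0)]⟩,⟨0,[(20,0)]⟩) .k 2 (⟨0,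
  [(14,0)]⟩,⟨0,[(15,0)]⟩) .k (.r 0 ⟨0,[(11,0),(4,0)]⟩ ⟨1,[(4,0),(12,0),(0,0),(11,0),(0,0)]⟩)) t5 t34

theorem ok35 : chk3 K KFs t35 r9 = true :=
  chk3_Q (e' := [0,0,0,0,0,0,-1,-1,-1,1,-1,-1]) (by decide +kernel) (by decide +kernel) ok5 ok34

noncomputable def t36 : Tre :=
  .I [1,-1,-1,-1,1,0,0,1] t4 t35

theorem ok36 : chk3 K KFs t36 l8 = true :=
  chk3_I (e' := [0,1,1,1,-1,0,0,-1]) (by decide +kernel) (by decide +kernel) ok4 ok35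

noncomputable def t38 : Tre :=
  .I [0,0,-1,0,0,-1,-1,0,1] t36 t37

theorem ok38 : chk3 K KFs t38 r7 = true :=
  chk3_I (e' := [1,0,1,0,0,1,1,0,-1]) (by decide +kernel) (by decide +kernel) ok36 ok37

noncomputable def t39 : Tre :=
  .Q [0,0,0,-1,-1,0,0,0,1,0,0,1] (.p true [0,0,0,0,1] [] (⟨0,[(12,0)]⟩,⟨0,[(11,0)]⟩) .k 0 (⟨0,[]⟩,
  ⟨0,[]⟩) .k .k) t3 t38

theorem ok39 : chk3 K KFs t39 r6 = true :=
  chk3_Q (e' := [0,0,0,1,1,0,0,0,-1,0,0,-1]) (by decide +kernel) (by decide +kernel) ok3 ok38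

noncomputable def t40 : Tre :=
  .I [0,-1,-1,-1,1,0,0,1] t2 t39

theorem ok40 : chk3 K KFs t40 l5 = true :=
  chk3_I (e' := [1,1,1,1,-1,0,0,-1]) (by decide +kernel) (by decide +kernel) ok2 ok39

noncomputable def t42 : Tre :=
  .I [0,-1,1,0,0,0,0,-1] t40 t41

theorem ok42 : chk3 K KFs t42 r4 = true :=
  chk3_I (e' := [1,1,-1,0,0,0,0,1]) (by decide +kernel) (by decide +kernel) ok40 ok41

noncomputable def t43 : Tre :=
  .Q [0,0,0,0,0,1,0,0,0,0,-1] (.ed true [1,-1,1] .k) t1 t42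

theorem ok43 : chk3 K KFs t43 l3 = true :=
  chk3_Q (e' := [0,0,0,0,0,-1,0,0,0,0,1]) (by decide +kernel) (by decide +kernel) ok1 ok42

noncomputable def t45 : Tre :=
  .I [1,1,0,1,0,0,0,1] t43 t44

theorem ok45 : chk3 K KFs t45 r2 = true :=
  chk3_I (e' := [0,-1,0,-1,0,0,0,-1]) (by decide +kernel) (by decide +kernel) ok43 ok44

noncomputable def t46 : Tre :=
  .Q [0,0,0,0,0,1,0,0,0,-1,1] (.ed false [0,1,1] .k) t0 t45

theorem ok46 : chk3 K KFs t46 l1 = true :=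
  chk3_Q (e' := [0,0,0,0,0,-1,0,0,0,1,-1]) (by decide +kernel) (by decide +kernel) ok0 ok45

noncomputable def t58 : Tre :=
  .I [0,-1,-2,-2,1] t56 t57

theorem ok58 : chk3 K KFs t58 r43 = true :=
  chk3_I (e' := [1,1,2,2,-1]) (by decide +kernel) (by decide +kernel) ok56 ok57

noncomputable def t59 : Tre :=
  .Q [0,-1,0,-2,0,0,-1,-1,0,1,-1] (.p false [0,0,1] [1] (⟨0,[(31,0)]⟩,⟨0,[(30,0)]⟩) .k 1 (⟨0,[]⟩,⟨0,
  []⟩) .k .k) t55 t58

theorem ok59 : chk3 K KFs t59 r42 = true :=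
  chk3_Q (e' := [0,1,0,2,0,0,1,1,0,-1,1]) (by decide +kernel) (by decide +kernel) ok55 ok58

noncomputable def t60 : Tre :=
  .Q [0,-1,0,-1,0,0,-2,-1,0,1,-2] (.p false [0,0,1] [1,0,-1] (⟨0,[(30,0)]⟩,⟨0,[(29,0)]⟩) .k 2 (⟨0,
  [(29,0)]⟩,⟨0,[(30,0)]⟩) .k (.r 0 ⟨0,[(4,0),(12,0),(2,0)]⟩ ⟨2,[(5,0),(6,1),(0,2),(20,0)]⟩)) t54 t59

theorem ok60 : chk3 K KFs t60 r41 = true :=
  chk3_Q (e' := [0,1,0,1,0,0,2,1,0,-1,2]) (by decide +kernel) (by decide +kernel) ok54 ok59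

noncomputable def t61 : Tre :=
  .Q [0,-1,0,1,1,0,0,0,0,-1] (.pp true [-1,1]) t53 t60

theorem ok61 : chk3 K KFs t61 r40 = true :=
  chk3_Q (e' := [0,1,0,-1,-1,0,0,0,0,1]) (by decide +kernel) (by decide +kernel) ok53 ok60

noncomputable def t62 : Tre :=
  .Q [0,0,0,-1,-1,0,0,0,1,0,0,1] (.p true [0,0,0,0,1] [] (⟨0,[(22,0)]⟩,⟨0,[(21,0)]⟩) .k 0 (⟨0,[]⟩,
  ⟨0,[]⟩) .k .k) t52 t61

theorem ok62 : chk3 K KFs t62 r39 = true :=
  chk3_Q (e' := [0,0,0,1,1,0,0,0,-1,0,0,-1]) (by decide +kernel) (by decide +kernel) ok52 ok61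

noncomputable def t63 : Tre :=
  .Q [0,0,0,-1,0,0,1,1,-1,0,1,-1] (.p true [0,0,1] [0,0,0,0,1] (⟨0,[(27,0)]⟩,⟨0,[(26,0)]⟩) .k 2 (⟨0,
  [(21,0)]⟩,⟨0,[(20,0)]⟩) .k (.r (-1) ⟨5,[(4,1),(9,1),(1,1),(1,0),(0,0),(2,1),(2,1),(11,2)]⟩ ⟨2,[(2,
  0),(6,1),(21,0)]⟩)) t51 t62

theorem ok63 : chk3 K KFs t63 l38 = true :=
  chk3_Q (e' := [0,0,0,1,0,0,-1,-1,1,0,-1,1]) (by decide +kernel) (by decide +kernel) ok51 ok62

noncomputable def t65 : Tre :=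
  .Q [0,-1,0,1,1,0,1,1,0,-1,1] (.p true [0,0,1] [1] (⟨0,[(26,0)]⟩,⟨0,[(25,0)]⟩) .k 1 (⟨0,[]⟩,⟨0,
  []⟩) .k .k) t63 t64

theorem ok65 : chk3 K KFs t65 r37 = true :=
  chk3_Q (e' := [0,1,0,-1,-1,0,-1,-1,0,1,-1]) (by decide +kernel) (by decide +kernel) ok63 ok64

noncomputable def t66 : Tre :=
  .I [0,0,0,-1,0,0,0,-1] t50 t65

theorem ok66 : chk3 K KFs t66 l36 = true :=
  chk3_I (e' := [1,0,0,1,0,0,0,1]) (by decide +kernel) (by decide +kernel) ok50 ok65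

noncomputable def t68 : Tre :=
  .I [1,1,-1,0,0,0,0,-1] t66 t67

theorem ok68 : chk3 K KFs t68 r35 = true :=
  chk3_I (e' := [0,-1,1,0,0,0,0,1]) (by decide +kernel) (by decide +kernel) ok66 ok67

noncomputable def t69 : Tre :=
  .Q [0,0,0,0,0,1,0,0,0,-1,1] (.ed false [0,1,1] .k) t49 t68

theorem ok69 : chk3 K KFs t69 l34 = true :=
  chk3_Q (e' := [0,0,0,0,0,-1,0,0,0,1,-1]) (by decide +kernel) (by decide +kernel) ok49 ok68

noncomputable def t71 : Tre :=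
  .Q [0,-1,0,1,1,0,0,1,0,-1] (.pp true [-1,1]) t69 t70

theorem ok71 : chk3 K KFs t71 l33 = true :=
  chk3_Q (e' := [0,1,0,-1,-1,0,0,-1,0,1]) (by decide +kernel) (by decide +kernel) ok69 ok70

noncomputable def t74 : Tre :=
  .I [1,1,-2,-1,0,0,0,1] t72 t73

theorem ok74 : chk3 K KFs t74 r33 = true :=
  chk3_I (e' := [0,-1,2,1,0,0,0,-1]) (by decide +kernel) (by decide +kernel) ok72 ok73

noncomputable def t75 : Tre :=
  .I [0,0,-1,0,0,-1,-2] t71 t74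

theorem ok75 : chk3 K KFs t75 l32 = true :=
  chk3_I (e' := [1,0,1,0,0,1,2]) (by decide +kernel) (by decide +kernel) ok71 ok74

noncomputable def t83 : Tre :=
  .Q [0,-1,0,-2,0,0,-1,-1,0,1,-1] (.p false [0,0,1] [1] (⟨0,[(26,0)]⟩,⟨0,[(25,0)]⟩) .k 1 (⟨0,[]⟩,⟨0,
  []⟩) .k .k) t81 t82

theorem ok83 : chk3 K KFs t83 r50 = true :=
  chk3_Q (e' := [0,1,0,2,0,0,1,1,0,-1,1]) (by decide +kernel) (by decide +kernel) ok81 ok82

noncomputable def t84 : Tre :=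
  .Q [0,0,0,0,0,2,0,0,0,0,-1] (.p false [0,0,1] [] (⟨0,[(25,0)]⟩,⟨0,[(24,0)]⟩) .k 0 (⟨0,[]⟩,⟨0,[]⟩)
  .k .k) t80 t83

theorem ok84 : chk3 K KFs t84 r49 = true :=
  chk3_Q (e' := [0,0,0,0,0,-2,0,0,0,0,1]) (by decide +kernel) (by decide +kernel) ok80 ok83

noncomputable def t85 : Tre :=
  .I [1,-1,-1,-2,1,0,0,-1] t79 t84

theorem ok85 : chk3 K KFs t85 r48 = true :=
  chk3_I (e' := [0,1,1,2,-1,0,0,1]) (by decide +kernel) (by decide +kernel) ok79 ok84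

noncomputable def t86 : Tre :=
  .Q [0,0,0,0,0,1,0,0,0,-1,1] (.ed false [0,1,1] .k) t78 t85

theorem ok86 : chk3 K KFs t86 r47 = true :=
  chk3_Q (e' := [0,0,0,0,0,-1,0,0,0,1,-1]) (by decide +kernel) (by decide +kernel) ok78 ok85

noncomputable def t87 : Tre :=
  .Q [0,-1,0,1,1,0,0,0,0,-1] (.pp true [-1,1]) t77 t86

theorem ok87 : chk3 K KFs t87 r46 = true :=
  chk3_Q (e' := [0,1,0,-1,-1,0,0,0,0,1]) (by decide +kernel) (by decide +kernel) ok77 ok86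

noncomputable def t88 : Tre :=
  .Q [0,-1,0,-1,0,0,-1,-1,0,1,-1] (.p false [0,0,1] [1] (⟨0,[(21,0)]⟩,⟨0,[(20,0)]⟩) .k 1 (⟨0,[]⟩,⟨0,
  []⟩) .k .k) t76 t87

theorem ok88 : chk3 K KFs t88 r32 = true :=
  chk3_Q (e' := [0,1,0,1,0,0,1,1,0,-1,1]) (by decide +kernel) (by decide +kernel) ok76 ok87

noncomputable def t89 : Tre :=
  .Q [0,0,-1,0,1,0,1,0,0,-1,1] (.p true [0,0,1] [1] (⟨0,[(20,0)]⟩,⟨0,[(19,0)]⟩) .k 1 (⟨0,[]⟩,⟨0,
  []⟩) .k .k) t75 t88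

theorem ok89 : chk3 K KFs t89 r31 = true :=
  chk3_Q (e' := [0,0,1,0,-1,0,-1,0,0,1,-1]) (by decide +kernel) (by decide +kernel) ok75 ok88

noncomputable def t90 : Tre :=
  .I [1,0,-1,-1,0,0,0,1] t48 t89

theorem ok90 : chk3 K KFs t90 l30 = true :=
  chk3_I (e' := [0,0,1,1,0,0,0,-1]) (by decide +kernel) (by decide +kernel) ok48 ok89

noncomputable def t92 : Tre :=
  .I [1,0,1,1,0,0,0,-1] t90 t91

theorem ok92 : chk3 K KFs t92 r29 = true :=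
  chk3_I (e' := [0,0,-1,-1,0,0,0,1]) (by decide +kernel) (by decide +kernel) ok90 ok91

noncomputable def t93 : Tre :=
  .I [1,0,-1,0,0,0,0,1] t47 t92

theorem ok93 : chk3 K KFs t93 l28 = true :=
  chk3_I (e' := [0,0,1,0,0,0,0,-1]) (by decide +kernel) (by decide +kernel) ok47 ok92

noncomputable def t102 : Tre :=
  .I [1,-1,0,-1,1,0,0,-1] t100 t101

theorem ok102 : chk3 K KFs t102 r59 = true :=
  chk3_I (e' := [0,1,0,1,-1,0,0,1]) (by decide +kernel) (by decide +kernel) ok100 ok101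

noncomputable def t103 : Tre :=
  .I [0,0,-2,0,1,-2,1] t99 t102

theorem ok103 : chk3 K KFs t103 r58 = true :=
  chk3_I (e' := [1,0,2,0,-1,2,-1]) (by decide +kernel) (by decide +kernel) ok99 ok102

noncomputable def t104 : Tre :=
  .I [0,-1,0,-1,1,0,0,-1] t98 t103

theorem ok104 : chk3 K KFs t104 r57 = true :=
  chk3_I (e' := [1,1,0,1,-1,0,0,1]) (by decide +kernel) (by decide +kernel) ok98 ok103

noncomputable def t105 : Tre :=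
  .Q [0,0,1,0,-1,0,-1,0,0,1,-1] (.p false [0,0,1] [1] (⟨0,[(22,0)]⟩,⟨0,[(21,0)]⟩) .k 1 (⟨0,[]⟩,⟨0,
  []⟩) .k .k) t97 t104

theorem ok105 : chk3 K KFs t105 l56 = true :=
  chk3_Q (e' := [0,0,-1,0,1,0,1,0,0,-1,1]) (by decide +kernel) (by decide +kernel) ok97 ok104

noncomputable def t107 : Tre :=
  .Q [0,-1,0,1,1,0,0,0,0,-1] (.pp true [-1,1]) t105 t106

theorem ok107 : chk3 K KFs t107 r55 = true :=
  chk3_Q (e' := [0,1,0,-1,-1,0,0,0,0,1]) (by decide +kernel) (by decide +kernel) ok105 ok106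

noncomputable def t108 : Tre :=
  .Q [0,0,0,0,0,1,0,0,0,-1,1] (.ed false [0,1,1] .k) t96 t107

theorem ok108 : chk3 K KFs t108 l54 = true :=
  chk3_Q (e' := [0,0,0,0,0,-1,0,0,0,1,-1]) (by decide +kernel) (by decide +kernel) ok96 ok107

noncomputable def t110 : Tre :=
  .I [0,1,0,0,-1,0,0,1] t108 t109

theorem ok110 : chk3 K KFs t110 r53 = true :=
  chk3_I (e' := [1,-1,0,0,1,0,0,-1]) (by decide +kernel) (by decide +kernel) ok108 ok109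

noncomputable def t111 : Tre :=
  .Q [0,0,0,-1,0,0,1,1,0,-1,1] (.p true [0,0,1] [1] (⟨0,[(18,0)]⟩,⟨0,[(17,0)]⟩) .k 1 (⟨0,[]⟩,⟨0,
  []⟩) .k .k) t95 t110

theorem ok111 : chk3 K KFs t111 r52 = true :=
  chk3_Q (e' := [0,0,0,1,0,0,-1,-1,0,1,-1]) (by decide +kernel) (by decide +kernel) ok95 ok110

noncomputable def t112 : Tre :=
  .I [1,-1,-1,-2,0,0,0,1] t94 t111

theorem ok112 : chk3 K KFs t112 r28 = true :=
  chk3_I (e' := [0,1,1,2,0,0,0,-1]) (by decide +kernel) (by decide +kernel) ok94 ok111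

noncomputable def t113 : Tre :=
  .I [0,-1,0,0,1,0,0,-1] t93 t112

theorem ok113 : chk3 K KFs t113 l27 = true :=
  chk3_I (e' := [1,1,0,0,-1,0,0,1]) (by decide +kernel) (by decide +kernel) ok93 ok112

noncomputable def t115 : Tre :=
  .Q [0,1,0,0,0,0,1,1,0,-1,1] (.p true [0,0,1] [1] (⟨0,[(15,0)]⟩,⟨0,[(14,0)]⟩) .k 1 (⟨0,[]⟩,⟨0,[]⟩)
  .k .k) t113 t114

theorem ok115 : chk3 K KFs t115 l26 = true :=
  chk3_Q (e' := [0,-1,0,0,0,0,-1,-1,0,1,-1]) (by decide +kernel) (by decide +kernel) ok113 ok114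

noncomputable def t117 : Tre :=
  .Q [0,0,0,0,0,-1,0,0,0,0,1] (.ed false [1,-1,1] .k) t115 t116

theorem ok117 : chk3 K KFs t117 l25 = true :=
  chk3_Q (e' := [0,0,0,0,0,1,0,0,0,0,-1]) (by decide +kernel) (by decide +kernel) ok115 ok116

noncomputable def t119 : Tre :=
  .Q [0,0,0,0,0,0,1,1,0,0,1] (.p true [0,0,1] [] (⟨0,[(13,0)]⟩,⟨0,[(12,0)]⟩) .k 0 (⟨0,[]⟩,⟨0,[]⟩)
  .k .k) t117 t118

theorem ok119 : chk3 K KFs t119 r1 = true :=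
  chk3_Q (e' := [0,0,0,0,0,0,-1,-1,0,0,-1]) (by decide +kernel) (by decide +kernel) ok117 ok118

noncomputable def t120 : Tre :=
  .Q [0,0,0,1,0,0,-1,-1,0,0,-1] (.p false [0,0,1] [] (⟨0,[(12,0)]⟩,⟨0,[(11,0)]⟩) .k 0 (⟨0,[]⟩,⟨0,
  []⟩) .k .k) t46 t119

theorem ok120 : chk3 K KFs t120 l0 = true :=
  chk3_Q (e' := [0,0,0,-1,0,0,1,1,0,0,1]) (by decide +kernel) (by decide +kernel) ok46 ok119

noncomputable def t122 : Tre :=
  .Q [0,1,0,1,0,0,-1,-1,0,0,-1] (.p false [0,0,1] [] (⟨0,[(11,0)]⟩,⟨0,[(10,0)]⟩) .k 0 (⟨0,[]⟩,⟨0,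
  []⟩) .k .k) t120 t121

theorem ok122 : chk3 K KFs t122 base = true :=
  chk3_Q (e' := [0,-1,0,-1,0,0,1,1,0,0,1]) (by decide +kernel) (by decide +kernel) ok120 ok121

open Helper25.KW Helper55.KE in
theorem closed {p a b c J l q : ℤ} {D dl : ℝ} {Cl : ℤ → ℤ → ℤ → ℤ → ℝ → Prop}
    (W : World p a b c J 1 l q D dl Cl) (g : G0 p a b c J D)
    {N X R : ℤ} {I : ℝ} (hk : KCl p l Cl N X R I) (kz : KF a b D (X + (1 : ℤ) * I) (X + (1 : ℤ) * I + R) I)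
    {Ne Xe : ℤ} {Ie : ℝ} (he : EFac p 1 D Cl (a) Ne Xe Ie)
    (hE : KZ p a b l 1 Cl (fun X R I => Zx 1 X R I ∧ Zy b 1 D X R I) N
      (fun X R I => (1 : ℤ) * (X + (1 : ℤ) * I + R)) ((1 : ℤ) * (X + (1 : ℤ) * I + R)))
    (h0 : 1 ≤ -(c : ℝ))
    (h1 : 1 ≤ (a : ℝ) - (b : ℝ) + (c : ℝ))
    (h2 : 0 < 2 * (b : ℝ) - D)
    (h3 : 1 ≤ 2 * (a : ℝ) - (b : ℝ))
    (h4 : 0 < -(X : ℝ) - I)
    (h5 : 0 < -(b : ℝ) - (X : ℝ) + D - I) : False := by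
  have g1 := g.a2
  have g2 := g.b2
  have g3 := g.pa
  have g4 := g.pb
  have g5 := g.J1
  have g6 := g.JD
  have g7 := g.D2
  have g8 := g.ca
  have g9 := g.ca'
  have k1 := kz.I0
  have k2 := kz.ID
  have k3 := kz.z1
  have k4 := kz.z2
  have k5 := kz.s1
  have k6 := kz.s2
  have e1 := he.I0
  have e2 := he.ID
  have e3 := he.x0
  have e4 := he.xp
  have hkf : ∀ kf ∈ KFs, KOk3 p l Cl 1 (xv [1, a, b, c, p, J, X, R, Xe] [D, I, Ie]) N kf := by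
    have hA : evg (xv [1, a, b, c, p, J, X, R, Xe] [D, I, Ie]) [0, 1] = a := by
      simp only [evg_cons, evg_nil, xv, List.map_cons, List.map_nil, List.cons_append, List.nil_append]
      push_cast
      ring
    have hB : evg (xv [1, a, b, c, p, J, X, R, Xe] [D, I, Ie]) [0, 0, 1] = b := by
      simp only [evg_cons, evg_nil, xv, List.map_cons, List.map_nil, List.cons_append, List.nil_append]
      push_cast
      ring
    simp only [KFs, List.forall_mem_cons]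
    refine ⟨kok3_ex hA hB hE ?_ ?_, fun _ h => absurd h (by simp)⟩
    · intro X' R' I' hg
      simp only [evg_cons, evg_nil, xv, List.map_cons, List.map_nil, List.cons_append, List.nil_append] at hg ⊢
      push_cast at hg ⊢
      linarith
    · intro X' R' I' _ hg
      simp only [List.forall_mem_cons, List.not_mem_nil, false_imp_iff, implies_true, and_true,
        evg_cons, evg_nil, xv, List.map_cons, List.map_nil, List.cons_append, List.nil_append] at hg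
      push_cast at hg
      simp only [Zx, Zp, Zs, Zsp, Zi, ZiD, Zy]
      push_cast
      refine ⟨?_, ?_⟩ <;> linarith [hg.1, hg.2]
  push_cast at *
  refine sound3 (val_E W.toBase hk he (row := [0,1]) (by simp) (by simp) []) W rfl (Nk := N)
    (fun kf _ _ => ⟨_, rfl⟩) hkf ok122 ?_
  · simp only [base, List.forall_mem_cons, List.not_mem_nil, false_imp_iff, implies_true,
      and_true, hld, xv, evg_cons, evg_nil, List.map_cons, List.map_nil, List.cons_append,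
      List.nil_append, if_true, if_false, Bool.false_eq_true]
    push_cast
    refine ⟨?_, ?_, ?_, ?_, ?_, ?_, ?_, ?_, ?_, ?_, ?_, ?_, ?_, ?_, ?_, ?_, ?_, ?_, ?_, ?_, ?_, ?_, ?_, ?_⟩ <;> linarith

end Helper25.S1T.Zmp1A
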