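import Pool.Agent.Helper25.KG.C3
import Pool.Agent.Helper25.S1T.Zmp1Ag_p0
import Pool.Agent.Helper25.S1T.Zmp1Ag_p1

set_option autoImplicit false
set_option linter.all false

namespace Helper25.S1T.Zmp1Ag

open Helper25.KG Helper11.CT

noncomputable def t4 : Tre :=
  .I [0,0,1,0,0,0,0,1] t2 t3

theorem ok4 : chk3 K KFs t4 r4 = true :=
  chk3_I (e' := [1,0,-1,0,0,0,0,-1]) (by decide +kernel) (by decide +kernel) ok2 ok3

noncomputable def t5 : Tre :=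
  .Q [0,0,0,0,0,1,0,0,0,-1,1] (.ed false [0,1,1] .k) t1 t4

theorem ok5 : chk3 K KFs t5 l3 = true :=
  chk3_Q (e' := [0,0,0,0,0,-1,0,0,0,1,-1]) (by decide +kernel) (by decide +kernel) ok1 ok4

noncomputable def t7 : Tre :=
  .I [0,0,0,0,0,0,0,-1] t5 t6

theorem ok7 : chk3 K KFs t7 r2 = true :=
  chk3_I (e' := [1,0,0,0,0,0,0,1]) (by decide +kernel) (by decide +kernel) ok5 ok6

noncomputable def t8 : Tre :=
  .I [0,1,0,-1,-1,0,0,-1] t0 t7

theorem ok8 : chk3 K KFs t8 l1 = true :=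
  chk3_I (e' := [1,-1,0,1,1,0,0,1]) (by decide +kernel) (by decide +kernel) ok0 ok7

noncomputable def t14 : Tre :=
  .I [1,-1,0,1,1,0,0,-1] t12 t13

theorem ok14 : chk3 K KFs t14 l12 = true :=
  chk3_I (e' := [0,1,0,-1,-1,0,0,1]) (by decide +kernel) (by decide +kernel) ok12 ok13

noncomputable def t16 : Tre :=
  .Q [0,0,-1,0,1,0,0,1,-1,0,0,-1] (.p false [0,0,0,0,1] [] (⟨0,[(12,0)]⟩,⟨0,[(11,0)]⟩) .k 0 (⟨0,[]⟩,
  ⟨0,[]⟩) .k .k) t14 t15

theorem ok16 : chk3 K KFs t16 r11 = true :=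
  chk3_Q (e' := [0,0,1,0,-1,0,0,-1,1,0,0,1]) (by decide +kernel) (by decide +kernel) ok14 ok15

noncomputable def t17 : Tre :=
  .Q [0,-1,0,-1,0,0,0,0,-1,1,0,-1] (.p false [0,0,0,0,1] [1] (⟨0,[(11,0)]⟩,⟨0,[(10,0)]⟩) .k 1 (⟨0,
  []⟩,⟨0,[]⟩) .k .k) t11 t16

theorem ok17 : chk3 K KFs t17 r10 = true :=
  chk3_Q (e' := [0,1,0,1,0,0,0,0,1,-1,0,1]) (by decide +kernel) (by decide +kernel) ok11 ok16

noncomputable def t18 : Tre :=
  .Q [0,-1,0,0,0,0,0,0,-1,1,0,-1] (.p false [0,0,0,0,1] [1] (⟨0,[(10,0)]⟩,⟨0,[(9,0)]⟩) .k 1 (⟨0,[]⟩,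
  ⟨0,[]⟩) .k .k) t10 t17

theorem ok18 : chk3 K KFs t18 r9 = true :=
  chk3_Q (e' := [0,1,0,0,0,0,0,0,1,-1,0,1]) (by decide +kernel) (by decide +kernel) ok10 ok17

noncomputable def t19 : Tre :=
  .I [1,0,-2,-1] t9 t18

theorem ok19 : chk3 K KFs t19 l8 = true :=
  chk3_I (e' := [0,0,2,1]) (by decide +kernel) (by decide +kernel) ok9 ok18

noncomputable def t21 : Tre :=
  .Q [0,0,0,0,0,-1,0,0,0,0,1] (.ed false [1,-1,1] .k) t19 t20

theorem ok21 : chk3 K KFs t21 l7 = true :=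
  chk3_Q (e' := [0,0,0,0,0,1,0,0,0,0,-1]) (by decide +kernel) (by decide +kernel) ok19 ok20

noncomputable def t23 : Tre :=
  .Q [0,1,0,0,0,0,1,1,0,-1,1] (.p true [0,0,1] [1] (⟨0,[(13,0)]⟩,⟨0,[(12,0)]⟩) .k 1 (⟨0,[]⟩,⟨0,[]⟩)
  .k .k) t21 t22

theorem ok23 : chk3 K KFs t23 l6 = true :=
  chk3_Q (e' := [0,-1,0,0,0,0,-1,-1,0,1,-1]) (by decide +kernel) (by decide +kernel) ok21 ok22

noncomputable def t25 : Tre :=
  .Q [0,0,0,0,0,0,1,1,0,0,1] (.p true [0,0,1] [] (⟨0,[(12,0)]⟩,⟨0,[(11,0)]⟩) .k 0 (⟨0,[]⟩,⟨0,[]⟩)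
  .k .k) t23 t24

theorem ok25 : chk3 K KFs t25 r1 = true :=
  chk3_Q (e' := [0,0,0,0,0,0,-1,-1,0,0,-1]) (by decide +kernel) (by decide +kernel) ok23 ok24

noncomputable def t26 : Tre :=
  .Q [0,0,0,1,0,0,-1,-1,0,0,-1] (.p false [0,0,1] [] (⟨0,[(11,0)]⟩,⟨0,[(10,0)]⟩) .k 0 (⟨0,[]⟩,⟨0,
  []⟩) .k .k) t8 t25

theorem ok26 : chk3 K KFs t26 l0 = true :=
  chk3_Q (e' := [0,0,0,-1,0,0,1,1,0,0,1]) (by decide +kernel) (by decide +kernel) ok8 ok25

noncomputable def t28 : Tre :=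
  .Q [0,1,0,1,0,0,-1,-1,0,0,-1] (.p false [0,0,1] [] (⟨0,[(10,0)]⟩,⟨0,[(9,0)]⟩) .k 0 (⟨0,[]⟩,⟨0,
  []⟩) .k .k) t26 t27

theorem ok28 : chk3 K KFs t28 base = true :=
  chk3_Q (e' := [0,-1,0,-1,0,0,1,1,0,0,1]) (by decide +kernel) (by decide +kernel) ok26 ok27

open Helper25.KW Helper55.KE in
theorem closed {p a b c J l q : ℤ} {D dl : ℝ} {Cl : ℤ → ℤ → ℤ → ℤ → ℝ → Prop}
    (W : World p a b c J 1 l q D dl Cl) (g : G0 p a b c J D)
    {N X R : ℤ} {I : ℝ} (hk : KCl p l Cl N X R I) (kz : KF a b D (X + (1 : ℤ) * I) (X + (1 : ℤ) * I + R) I)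
    {Ne Xe : ℤ} {Ie : ℝ} (he : EFac p 1 D Cl (a) Ne Xe Ie)
    (hE : KZ p a b l 1 Cl (fun X R I => Zx 1 X R I) N
      (fun X R I => (1 : ℤ) * (X + (1 : ℤ) * I + R)) ((1 : ℤ) * (X + (1 : ℤ) * I + R)))
    (h0 : 1 ≤ -(c : ℝ))
    (h1 : 1 ≤ (a : ℝ) - (b : ℝ) + (c : ℝ))
    (h2 : 0 < -2 * (b : ℝ) + D)
    (h3 : 1 ≤ 2 * (a : ℝ) - (b : ℝ))
    (h4 : 0 < -(X : ℝ) - I) : False := by
  have g1 := g.a2
  have g2 := g.b2
  have g3 := g.pa
  have g4 := g.pb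
  have g5 := g.J1
  have g6 := g.JD
  have g7 := g.D2
  have g8 := g.ca
  have g9 := g.ca'
  have k1 := kz.I0
  have k2 := kz.ID
  have k3 := kz.z1
  have k4 := kz.z2
  have k5 := kz.s1
  have k6 := kz.s2
  have e1 := he.I0
  have e2 := he.ID
  have e3 := he.x0
  have e4 := he.xp
  have hkf : ∀ kf ∈ KFs, KOk3 p l Cl 1 (xv [1, a, b, c, p, J, X, R, Xe] [D, I, Ie]) N kf := by
    have hA : evg (xv [1, a, b, c, p, J, X, R, Xe] [D, I, Ie]) [0, 1] = a := by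
      simp only [evg_cons, evg_nil, xv, List.map_cons, List.map_nil, List.cons_append, List.nil_append]
      push_cast
      ring
    have hB : evg (xv [1, a, b, c, p, J, X, R, Xe] [D, I, Ie]) [0, 0, 1] = b := by
      simp only [evg_cons, evg_nil, xv, List.map_cons, List.map_nil, List.cons_append, List.nil_append]
      push_cast
      ring
    simp only [KFs, List.forall_mem_cons]
    refine ⟨kok3_ex hA hB hE ?_ ?_, fun _ h => absurd h (by simp)⟩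
    · intro X' R' I' hg
      simp only [evg_cons, evg_nil, xv, List.map_cons, List.map_nil, List.cons_append, List.nil_append] at hg ⊢
      push_cast at hg ⊢
      linarith
    · intro X' R' I' _ hg
      simp only [List.forall_mem_cons, List.not_mem_nil, false_imp_iff, implies_true, and_true,
        evg_cons, evg_nil, xv, List.map_cons, List.map_nil, List.cons_append, List.nil_append] at hg
      push_cast at hg
      simp only [Zx, Zp, Zs, Zsp, Zi, ZiD, Zy]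
      push_cast
      linarith
  push_cast at *
  refine sound3 (val_E W.toBase hk he (row := [0,1]) (by simp) (by simp) []) W rfl (Nk := N)
    (fun kf _ _ => ⟨_, rfl⟩) hkf ok28 ?_
  · simp only [base, List.forall_mem_cons, List.not_mem_nil, false_imp_iff, implies_true,
      and_true, hld, xv, evg_cons, evg_nil, List.map_cons, List.map_nil, List.cons_append,
      List.nil_append, if_true, if_false, Bool.false_eq_true]
    push_cast
    refine ⟨?_, ?_, ?_, ?_, ?_, ?_, ?_, ?_, ?_, ?_, ?_, ?_, ?_, ?_, ?_, ?_, ?_, ?_, ?_, ?_, ?_, ?_, ?_⟩ <;> linarith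

end Helper25.S1T.Zmp1Ag
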