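import Pool.Agent.Helper81.PC.C5N
import Pool.Agent.Helper25.S1T.Zmp1H_q

set_option autoImplicit false
set_option linter.all false

namespace Helper25.S1T.Zmp1H

open Helper25.KG Helper11.CT

open Helper55.PC in
noncomputable def t54n : Helper55.PC.Ten :=
  (q
  96206432425888000327694300725415615220974117621635832355189153107669983641545055668330788778437039899152239165452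
  (i 324637400738491769624812946063400 (r
  1132302922959968500958507287197759218547702156605160967859673181737241911026443274128588465424277052614594108162947793647776437819884800841298641549128559376829126575903851525171171281003978155850117011659004972424267552776541014769114173228437559246001138296555718109038481136779965527561077261458768035795058113527519512020817632365420548833407675007979131299939473080938973630061886321729381340738478508657497249964204489566273701096665815493089510499548574441153503968)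
  (r
  1679761826070211883206395487103140890524011980245904140645011883128584857559470591714451932764738423140583310302866580417103462239164761294318415626604942745254942962613579260837447178553166931878078377074764010649227208351368364338339908772630720074538284138926435561780289167238879487968482122069798839884568497890129532320637202804761029539122628773477175641673320536621529427712175748481323180552165043809688245903604226168988178602619221887681578828791770668504035674755719500372136857705590554895200))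
  (r
  787753480973587571515668749147659607991882394149718353186456420766323880721002027579873170492968109397879818028519178896821551491278094471026693346391956143372039556793330731308046882448148705500410574444811897527068334006658520995228409016232808342788376469943711857088604613119992551358285510939195775528440826925380560194849943201753903490854222183776644341002075659162376592551947866056737337501748825338831895200864966599623835642930736885549673265378868235668530185086996538963852534624))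

noncomputable def t54 : Tre := Helper55.PC.toT t54n

theorem ok54 : chk5 K KFs t54 r43 = true :=
  Helper81.PC.chk5N_sound K KFs t54n r43 (by decide +kernel)

noncomputable def t55 : Tre :=
  (.R ⟨0,false,false,false,[1,-1],[1,0,-1],[0,1,1],(⟨0,[(28,0)]⟩,⟨0,[(29,0)]⟩),(⟨0,[(25,0)]⟩,⟨0,
  [(26,0)]⟩),⟨0,[(15,0),(0,0)]⟩,.k,.k,(.r 0 ⟨0,[(2,0),(8,0)]⟩ ⟨0,[(0,1),(34,0)]⟩),.k,.k,.k,⟨true,0,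
  ⟨0,[(21,0),(2,0)]⟩,⟨0,[(0,0),(1,0)]⟩⟩,⟨false,1,⟨1,[(13,1),(13,0),(7,0)]⟩,⟨0,[(23,0)]⟩⟩,⟨false,0,
  ⟨0,[(0,0)]⟩,⟨3,[(4,1),(3,1),(26,0),(0,0)]⟩⟩,⟨true,0,⟨2,[(0,2),(1,1),(4,1),(2,0),(2,1)]⟩,⟨3,[(2,0),
  (8,2),(9,1),(1,1)]⟩⟩,⟨false,0,⟨0,[]⟩,⟨0,[]⟩⟩,⟨false,0,⟨0,[]⟩,⟨0,[]⟩⟩,[.o ⟨false,0,⟨0,[(10,0)]⟩,⟨1,
  [(21,1),(5,0),(8,0)]⟩⟩,.a ⟨true,0,⟨1,[(0,1),(1,1),(10,1),(9,0),(0,0)]⟩,⟨0,[(21,0)]⟩⟩ ⟨true,0,⟨1,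
  [(23,0),(0,0)]⟩,⟨0,[]⟩⟩ ⟨false,1,⟨5,[(2,1),(7,3),(2,1),(13,0),(4,1),(2,1),(0,2)]⟩,⟨2,[(0,0),(10,
  0),(9,1),(1,0)]⟩⟩,.o ⟨false,0,⟨1,[(23,0),(0,0)]⟩,⟨1,[(27,0),(7,0)]⟩⟩,.o ⟨false,0,⟨0,[(23,0),(0,
  0)]⟩,⟨5,[(2,1),(5,1),(18,2),(4,3),(2,0)]⟩⟩]⟩)

theorem ok55 : chk5 K KFs t55 r42 = true := by decide +kernel

open Helper55.PC in
noncomputable def t56n : Helper55.PC.Ten :=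
  (i 324478944413463240967220191428648 (i 324478944413463240967220191428616 (r
  2159696431749961803828799106962661652517825683680071290609386469168275434982681219629000200953761247360320031934472462606469564580147282198450194345112858831032970670267206104497758599954297283607792063976252591638432427215704312139676464299850487987431656177500849430478090593237298022482184235622035826868300470884715833380259926882581404581852394097222673248707977457739008590090533721624078889151891350934724456429208990815181514505697765586946821746640941753056)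
  (n 295156912378614001539)) (q
  1486175325236652030085291555812746454169158849314129815374529701625508990602165493686204087456770408537870742184964189334908327297035
  (r
  1043278487353026091271202697166921067358828066153463739446186819483317317152140212300815562078443457250344077285387076765756747411068589476685369134134982730188750708321771062949703321335051173109897832817242318477080141688041389597050074347233941287696486387403988003712281661978874523846018551447426235213302889564681533821641548841033620129692845532088319024228049840606343981141808504135209145346032012030652534972245674550876058465593462609383927208516031417828019776552745901974376521543906233041959283177635822574983413155724155324098912446082847945128425029922526539061778311011639466689885017325646736490673750136004495193940704)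
  (q
  7193289112137361409687975983039710386337157324654981840727474888150162697482586014782275143349289447747437944456921899057684601240981587326778343436
  (q
  7193289112137364248901742762754126594637978972338250370042966696406135320280479141754843319308416850906518407403495913258011338606178177429478440972
  (q 29645036412447841315304177463116549117908324539245834818661335422735604414545932 (r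
  10208662094395684398344230279888954040522759069314867710361319156182558878690571516358313389030733665495168985225424896517889025387028062563434348201072096614191567564685087119400536699338056663507844156010621201320272093064425820723419216118775303764215591383877743796946401325049332627568577547713292181244248131577673751363403463030989644029358331928543871277883447194472737941212130456345691399715226561442189817873344201151649175967637696)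
  (r
  512646484389659020558091136702290950269609436452627252243734123252400916246891094158224264664934936613103581423434263464969891540491543830118016388931176392472846118786084638875457657363838243531457326657157862600555284931920939688888489167550438007872101686151026696598842850886979603226619406232691610276765537015127442101497403452062318852267765984530381677458155258475319768002366821079683245572478971453589964097558801859459272277619367313985526696940576888341788501627188762656301601009733214400))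
  (q
  7193289112137367088115509542468542802938800620021518899358458504662107943078372268727411495267544265756898432263224926754110787933044273973724839948
  (r
  2286417068768869564545253807548801022871386245066935174503706122935775677911991576087693500934476030723367485325422003345878196289772759950455878049849168675950241226426067101582917594823100795077619160392095453697077220284712708389212924254432986098621611808306703564065548455274541535914254767057661441293332857629756959698816287107993652410334478956973429678109151941270281803538512852238795838002694969338616783226264105807957605959372791881501366360940115911204349291423330005651999375028718022839739293444152545147967522514885858810405056)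
  (r
  9589927667758985572955414968356175897965465751466161994072988441152330798860864626535028510055848836335264822773431869495735067148053211540863082054347750892055369492965827919864620795707424002414763233501792531148497752849207242203624758160259613670060536824331825747230123380907523461577837043905638025232314839401422504806521368333041602169698043010368116544335931705028094459554724405478213280926937013537661776741487393704335888979900189833905973842111599961523786620415789226561668193557903359296156163762052581054796057578156716481565879443648)))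
  (r
  32321150640252230742899821533126962526569679845972998474694488545761371463732848264244140032559167773310288626865330219578523886971419738392737871743442800724953453344082962519600576883716727835284415240369926571716535645475974048220838024141018084147580747089203772835037143667420893720772511050542579134252868484961828878497289528265028084243239951816958983696694883003065238171764026230952972342407220734648868482768938691162937139820284407190519341772432263394749748376867352635861918704120346443563237518783291616))))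

noncomputable def t56 : Tre := Helper55.PC.toT t56n

theorem ok56 : chk5 K KFs t56 r39 = true :=
  Helper81.PC.chk5N_sound K KFs t56n r39 (by decide +kernel)

open Helper55.PC in
noncomputable def t57n : Helper55.PC.Ten :=
  (q 3533977209408287976747406132120039510002070027214571805797124115019989003 (r
  13310156890933841125709955177543259740673024636554012344254346151428399279797090268635419488512814224309686635861303015984511624249969577707064554238101916503991931073188538135095143798299677219144935669924029645970495999679340505414428168186276958828601355698083004152299335950277453405755991284259547290452593871916173456170912879563699038229219141842409380891322903285892115706548190141529854327658893308167561821824547118909235904)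
  (i 72083985538351140 (r
  256895804528090971973791607419379191887173125810843333387739653762427319876310446405122970511812403303799675339108881391347942739885561827018992690397805422548305674628660474552070938207484204047322086368155032812310277494146700901670836928500647536112342898084095063093832073710738369785993598930742090646639997914566915037070669439603096133710728974430735695347462310487990209745603218792696892136904952826035964564052614550394041533145387629289664)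
  (r
  78829270371044367438776827846557207662277067996864253939376683458938470955759475146293831857978160440213127539497158566905608002822041028812557811124119688474201328406711216528107181605449701388427940719823777844813166227894791918255256685660514941329498282)))

noncomputable def t57 : Tre := Helper55.PC.toT t57n

theorem ok57 : chk5 K KFs t57 r38 = true :=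
  Helper81.PC.chk5N_sound K KFs t57n r38 (by decide +kernel)

noncomputable def t58 : Tre :=
  (.K ⟨1,[0,0,0,0,1],(-1),(-1),(⟨0,[(14,0)]⟩,⟨0,[(13,0)]⟩),.k,(.r 0 ⟨2,[(3,0),(20,0),(3,1)]⟩ ⟨1,
  [(17,0),(0,0),(8,1),(2,1)]⟩),(.r 0 ⟨1,[(17,0),(0,0),(8,1)]⟩ ⟨1,[(28,1),(0,0),(0,0)]⟩),.k,.k,[⟨1,
  [(11,1),(5,0),(0,0)]⟩,⟨0,[(0,0)]⟩,⟨0,[(11,0)]⟩,⟨0,[(0,0),(23,0)]⟩,⟨0,[(11,0)]⟩,⟨0,[(7,0),(0,0),(2,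
  0)]⟩]⟩)

theorem ok58 : chk5 K KFs t58 r36 = true := by decide +kernel

open Helper55.PC in
noncomputable def t59n : Helper55.PC.Ten :=
  (i 72101579871879172 (r
  29971808803138715810097753194416657243708149466016623178368308919210365273204475762310825346535270190688581155409039885979424046996811547278563905884418056040852811613608653296991982376921139713367459935880708644553155211220990500924357698868379213522792117503537240717069664223883038714893368188065789556579013049080816121290183496770642021424424318617673387516250227733194801132051022524899942845449148856932522169322411106399652673469080969945824)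
  (i 72083985538351140 (n 9232660711086428546) (r
  139915043775029899739196800553591497827444170248290048260717937591239458962742824689971786552331203333178764750835596052634695453213358851288450545943299468892363464647896741095605046921825039937536046073294891247504036435381578082389143541667657336937661840877430966521719692294795257471948770926699619174641350335491222570743309733861676333590712110827022814557559003354874758940857582354987196263793459424359690407286437570036165283005188622243120220069016489818134525918389855166653056)))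

noncomputable def t59 : Tre := Helper55.PC.toT t59n

theorem ok59 : chk5 K KFs t59 r3 = true :=
  Helper81.PC.chk5N_sound K KFs t59n r3 (by decide +kernel)

noncomputable def t60 : Tre :=
  (.I [1,-1,-2,-1,1] (.I [1,0,1,0,0,0,0,-1] (.Q [0,-1,0,-1,0,0,0,0,0,1] (.pp false [-1,1]) (.R ⟨0,
  false,false,true,[0,1,-1],[0,1],[0,0,1],(⟨0,[(14,0)]⟩,⟨0,[(24,0),(1,0)]⟩),(⟨0,[(27,0)]⟩,⟨0,[(26,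
  0)]⟩),⟨0,[(24,0)]⟩,.k,.k,.k,.k,.k,.k,⟨false,1,⟨2,[(1,0),(0,1),(6,0),(24,0)]⟩,⟨0,[(31,0)]⟩⟩,⟨true,
  0,⟨0,[(12,0)]⟩,⟨0,[(22,0)]⟩⟩,⟨true,0,⟨1,[(6,0),(25,0)]⟩,⟨0,[(1,0),(28,0)]⟩⟩,⟨false,0,⟨0,[(8,0)]⟩,
  ⟨0,[(20,0),(13,0)]⟩⟩,⟨false,0,⟨0,[]⟩,⟨0,[]⟩⟩,⟨false,0,⟨0,[]⟩,⟨0,[]⟩⟩,[.a ⟨true,0,⟨0,[(31,0)]⟩,⟨0,
  [(0,0)]⟩⟩ ⟨true,0,⟨1,[(21,0),(0,0)]⟩,⟨0,[]⟩⟩ ⟨false,0,⟨0,[(12,0),(18,0)]⟩,⟨0,[(2,0),(19,0)]⟩⟩,.o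
  ⟨false,1,⟨2,[(4,0),(0,1),(13,0),(14,0)]⟩,⟨0,[(32,0)]⟩⟩,.o ⟨false,1,⟨0,[(11,0),(13,0)]⟩,⟨0,[(21,
  0)]⟩⟩,.o ⟨false,1,⟨4,[(2,0),(2,2),(0,0),(2,0),(12,1),(2,0)]⟩,⟨0,[(12,0)]⟩⟩]⟩) (.I [0,0,0,-1,0,0,0,
  -1] (.I [1,0,1,1] (.R ⟨0,false,false,true,[1,0,-1],[0,1],[0,1,1],(⟨0,[(25,0)]⟩,⟨0,[(26,0)]⟩),(⟨0,
  [(29,0)]⟩,⟨0,[(28,0)]⟩),⟨0,[(15,0)]⟩,.k,.k,.k,.k,.k,.k,⟨true,0,⟨0,[(34,0)]⟩,⟨0,[(0,0)]⟩⟩,⟨false,1,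
  ⟨0,[(2,0),(1,0),(9,0)]⟩,⟨4,[(0,1),(4,3),(2,1),(4,0),(10,3)]⟩⟩,⟨false,0,⟨3,[(0,1),(7,1),(14,0),(0,
  0)]⟩,⟨0,[(1,0),(30,0),(3,0)]⟩⟩,⟨true,0,⟨0,[(6,0)]⟩,⟨5,[(1,4),(3,2),(2,0),(4,2),(10,2)]⟩⟩,⟨false,0,
  ⟨0,[]⟩,⟨0,[]⟩⟩,⟨false,0,⟨0,[]⟩,⟨0,[]⟩⟩,[.o ⟨false,0,⟨0,[(2,0)]⟩,⟨3,[(1,1),(9,1),(5,0),(0,0),(17,
  2)]⟩⟩,.o ⟨false,1,⟨2,[(6,0),(0,1),(13,0),(14,0)]⟩,⟨0,[(34,0)]⟩⟩,.a ⟨true,0,⟨4,[(0,0),(4,1),(2,0),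
  (4,2),(10,1)]⟩,⟨0,[(14,0)]⟩⟩ ⟨false,0,⟨1,[(23,0),(0,0)]⟩,⟨1,[(35,0),(0,0)]⟩⟩ ⟨true,0,⟨0,[(2,0),
  (11,0)]⟩,⟨1,[(1,0),(3,0),(2,0),(4,0),(10,0)]⟩⟩,.o ⟨false,0,⟨0,[(24,0)]⟩,⟨1,[(14,1),(12,0),(7,
  0)]⟩⟩]⟩) (.Q [0,1,0,0,-1,0,0,0,1,-1,0,1] (.p true [0,0,0,0,1] [1] (⟨0,[(20,0)]⟩,⟨0,[(19,0)]⟩) .k
  1 (⟨0,[]⟩,⟨0,[]⟩) .k .k) (.R ⟨0,false,false,false,[1,0,-1],[0,0,0,0,1],[0,1,1],(⟨0,[(26,0)]⟩,⟨0,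
  [(27,0)]⟩),(⟨0,[(21,0)]⟩,⟨0,[(20,0)]⟩),⟨0,[(16,0)]⟩,.k,.k,.k,.k,.k,.k,⟨true,0,⟨1,[(24,0),(0,0)]⟩,
  ⟨0,[]⟩⟩,⟨false,0,⟨1,[(0,1),(14,1),(20,0),(0,0)]⟩,⟨1,[(14,1),(3,1),(5,0),(0,0)]⟩⟩,⟨false,0,⟨0,[(11,
  0),(13,0)]⟩,⟨0,[(2,0),(30,0),(3,0)]⟩⟩,⟨true,(-1),⟨0,[(0,0),(10,0)]⟩,⟨0,[(4,0),(9,0),(3,0)]⟩⟩,
  ⟨false,0,⟨0,[]⟩,⟨0,[]⟩⟩,⟨false,0,⟨0,[]⟩,⟨0,[]⟩⟩,[.o ⟨false,(-1),⟨0,[(0,0)]⟩,⟨1,[(18,2),(0,0),(17,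
  0)]⟩⟩,.o ⟨false,0,⟨3,[(0,1),(18,1),(8,0),(8,0)]⟩,⟨0,[(18,0)]⟩⟩,.a ⟨true,0,⟨1,[(14,1),(9,0),(0,
  0)]⟩,⟨0,[(15,0)]⟩⟩ ⟨false,0,⟨1,[(24,0),(0,0)]⟩,⟨1,[(36,0),(0,0)]⟩⟩ ⟨true,(-1),⟨0,[(0,0),(14,0)]⟩,
  ⟨1,[(14,1),(3,1),(5,0),(0,0)]⟩⟩,.o ⟨false,0,⟨0,[(25,0)]⟩,⟨1,[(15,1),(12,0),(7,0)]⟩⟩]⟩) (.I [0,0,1,
  1,0,0,0,1] (.R ⟨0,false,false,true,[1,0,-1],[0,1],[0,1,2,1],(⟨0,[(27,0)]⟩,⟨0,[(28,0)]⟩),(⟨0,[(31,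
  0)]⟩,⟨0,[(30,0)]⟩),⟨0,[(17,0)]⟩,.k,.k,.k,.k,.k,.k,⟨true,0,⟨1,[(25,0),(0,0)]⟩,⟨0,[]⟩⟩,⟨false,1,⟨0,
  [(4,0),(1,0),(9,0)]⟩,⟨6,[(0,1),(6,5),(2,1),(4,0),(10,5)]⟩⟩,⟨false,0,⟨1,[(0,1),(24,0),(0,0)]⟩,⟨0,
  [(2,0),(0,0),(30,0),(3,0)]⟩⟩,⟨true,0,⟨0,[(8,0)]⟩,⟨5,[(3,4),(3,2),(2,0),(4,2),(10,2)]⟩⟩,⟨false,0,
  ⟨0,[]⟩,⟨0,[]⟩⟩,⟨false,0,⟨0,[]⟩,⟨0,[]⟩⟩,[.o ⟨false,0,⟨0,[(4,0)]⟩,⟨7,[(1,1),(1,3),(9,3),(6,1),(8,0),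
  (8,4)]⟩⟩,.o ⟨false,1,⟨2,[(8,0),(0,1),(13,0),(14,0)]⟩,⟨0,[(36,0)]⟩⟩,.a ⟨true,0,⟨6,[(0,0),(6,2),(2,
  0),(4,3),(10,2)]⟩,⟨0,[(16,0)]⟩⟩ ⟨false,0,⟨0,[(0,0),(4,0)]⟩,⟨0,[(6,0)]⟩⟩ ⟨true,0,⟨0,[(4,0),(11,
  0)]⟩,⟨1,[(3,0),(3,0),(2,0),(4,0),(10,0)]⟩⟩,.o ⟨false,0,⟨0,[(26,0)]⟩,⟨1,[(16,1),(12,0),(7,0)]⟩⟩]⟩)
  (.Q [0,-1,0,-1,0,0,-1,-1,-1,2,-1,-1] (.p false [-1,1,1] [1,0,0,0,-1] (⟨0,[(17,0)]⟩,⟨0,[(27,0),(2,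
  0)]⟩) .k 2 (⟨0,[(21,0)]⟩,⟨0,[(22,0)]⟩) .k (.r 0 ⟨2,[(10,0),(2,0),(21,1)]⟩ ⟨1,[(5,1),(31,0),(0,
  0)]⟩)) (.R ⟨0,false,false,true,[-1,1,1],[1,0,0,0,-1],[1],(⟨0,[(18,0)]⟩,⟨0,[(28,0),(2,0)]⟩),(⟨0,
  [(22,0)]⟩,⟨0,[(23,0)]⟩),⟨0,[(28,0)]⟩,.k,.k,.k,(.r 0 ⟨0,[(13,0),(13,0),(8,0)]⟩ ⟨3,[(4,1),(2,1),(0,
  1),(21,0),(8,0)]⟩),.k,.k,⟨true,0,⟨0,[]⟩,⟨1,[(26,0),(0,0)]⟩⟩,⟨false,0,⟨1,[(0,1),(8,0),(3,0),(2,0),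
  (10,0),(8,0)]⟩,⟨1,[(1,1),(7,1),(11,1),(8,0),(8,0)]⟩⟩,⟨true,0,⟨0,[(1,0)]⟩,⟨0,[(13,0),(13,0),(8,
  0)]⟩⟩,⟨false,0,⟨0,[(0,0)]⟩,⟨1,[(9,1),(11,1),(8,0),(8,0)]⟩⟩,⟨false,0,⟨0,[]⟩,⟨0,[]⟩⟩,⟨false,0,⟨0,
  []⟩,⟨0,[]⟩⟩,[.a ⟨true,0,⟨0,[(0,0),(8,0)]⟩,⟨0,[(21,0)]⟩⟩ ⟨true,0,⟨0,[]⟩,⟨1,[(26,0),(0,0)]⟩⟩ ⟨false,
  0,⟨1,[(0,1),(8,0),(3,0),(2,0),(10,0),(8,0)]⟩,⟨1,[(1,1),(7,1),(11,1),(8,0),(8,0)]⟩⟩,.o ⟨false,1,⟨1,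
  [(0,1),(8,1),(20,0),(8,0)]⟩,⟨8,[(1,3),(3,6),(5,0),(2,1),(6,8),(12,1)]⟩⟩,.o ⟨false,1,⟨1,[(1,1),(7,
  1),(20,0),(8,0)]⟩,⟨0,[(16,0),(9,0),(0,0)]⟩⟩,.o ⟨false,1,⟨0,[(17,0),(12,0)]⟩,⟨1,[(16,1),(9,0),(0,
  0)]⟩⟩]⟩) (.Q [0,-1,0,0,1,0,0,0,-1,0,0,-1] (.p false [0,0,0,0,1] [] (⟨0,[(23,0)]⟩,⟨0,[(22,0)]⟩) .k
  0 (⟨0,[]⟩,⟨0,[]⟩) .k .k) (.Q [0,0,0,0,0,0,0,0,1,-1,0,1] (.p true [0,0,0,0,1] [1] (⟨0,[(24,0)]⟩,⟨0,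
  [(23,0)]⟩) .k 1 (⟨0,[]⟩,⟨0,[]⟩) .k .k) (.R ⟨0,false,false,true,[1,0,-1],[1,0,0,0,-1],[0,0,1],(⟨0,
  [(30,0)]⟩,⟨0,[(31,0)]⟩),(⟨0,[(24,0)]⟩,⟨0,[(25,0)]⟩),⟨0,[(20,0)]⟩,.k,.k,.k,.k,.k,.k,⟨true,0,⟨1,
  [(28,0),(0,0)]⟩,⟨0,[]⟩⟩,⟨false,1,⟨0,[(14,0),(4,0)]⟩,⟨1,[(0,0),(17,0),(4,0),(5,0)]⟩⟩,⟨true,0,⟨0,
  [(15,0),(13,0)]⟩,⟨4,[(3,2),(4,1),(26,0),(1,2)]⟩⟩,⟨false,1,⟨0,[(1,0),(13,0)]⟩,⟨0,[(0,0),(7,0),(9,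
  0)]⟩⟩,⟨false,0,⟨0,[]⟩,⟨0,[]⟩⟩,⟨false,0,⟨0,[]⟩,⟨0,[]⟩⟩,[.o ⟨false,1,⟨0,[(22,0)]⟩,⟨0,[(0,0)]⟩⟩,.o
  ⟨false,1,⟨0,[(1,0)]⟩,⟨4,[(0,0),(1,1),(3,0),(9,0),(6,1),(3,1)]⟩⟩,.a ⟨true,0,⟨1,[(18,1),(9,0),(0,
  0)]⟩,⟨0,[(19,0)]⟩⟩ ⟨true,0,⟨1,[(28,0),(0,0)]⟩,⟨2,[(5,0),(29,0),(1,0)]⟩⟩ ⟨false,1,⟨0,[(1,0),(17,
  0)]⟩,⟨1,[(0,0),(17,0),(4,0),(5,0)]⟩⟩,.o ⟨false,0,⟨0,[(29,0)]⟩,⟨1,[(19,1),(12,0),(7,0)]⟩⟩]⟩) (.I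
  [0,0,2,1] (.R ⟨0,false,false,false,[1,-1],[0,0,0,0,1],[0,1,1],(⟨0,[(34,0)]⟩,⟨0,[(35,0)]⟩),(⟨0,
  [(26,0)]⟩,⟨0,[(25,0)]⟩),⟨0,[(21,0),(0,0)]⟩,.k,.k,(.r 0 ⟨0,[(6,1)]⟩ ⟨0,[(0,1),(40,0)]⟩),(.r (-1)
  ⟨15,[(5,1),(1,3),(2,7),(6,3),(6,1),(8,0),(8,4)]⟩ ⟨2,[(0,1),(35,0),(2,0)]⟩),.k,.k,⟨true,0,⟨3,[(0,
  0),(8,1),(4,0)]⟩,⟨0,[]⟩⟩,⟨false,1,⟨3,[(3,1),(0,0),(5,1),(2,0),(5,0),(4,1),(16,0)]⟩,⟨3,[(0,0),(0,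
  3),(7,1),(4,0)]⟩⟩,⟨false,0,⟨0,[(0,0)]⟩,⟨0,[(10,0)]⟩⟩,⟨true,0,⟨0,[(8,0),(15,0)]⟩,⟨2,[(1,2),(5,1),
  (6,0)]⟩⟩,⟨false,0,⟨0,[]⟩,⟨0,[]⟩⟩,⟨false,0,⟨0,[]⟩,⟨0,[]⟩⟩,[.o ⟨false,0,⟨15,[(3,6),(0,3),(9,0),(2,
  1),(6,8),(3,6),(8,1)]⟩,⟨0,[(2,0)]⟩⟩,.a ⟨true,0,⟨0,[(24,0)]⟩,⟨0,[(1,0)]⟩⟩ ⟨true,0,⟨3,[(0,0),(8,1),
  (4,0)]⟩,⟨0,[]⟩⟩ ⟨false,1,⟨3,[(3,1),(0,0),(5,1),(2,0),(5,0),(4,1),(16,0)]⟩,⟨3,[(0,0),(0,3),(7,1),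
  (4,0)]⟩⟩,.o ⟨false,0,⟨3,[(0,0),(8,1),(4,0)]⟩,⟨1,[(33,0),(7,0)]⟩⟩,.o ⟨false,0,⟨1,[(0,0),(8,1),(4,
  0)]⟩,⟨0,[(8,0),(1,0)]⟩⟩]⟩) (.Q [0,-2,0,0,1,0,1,1,-1,0,1,-1] (.p true [0,0,1] [0,0,0,0,1] (⟨0,[(32,
  0)]⟩,⟨0,[(31,0)]⟩) .k 2 (⟨0,[(26,0)]⟩,⟨0,[(25,0)]⟩) .k (.r (-1) ⟨7,[(3,0),(1,2),(7,0),(0,3),(9,1),
  (14,1),(2,3)]⟩ ⟨4,[(4,0),(4,3),(26,1),(1,0)]⟩)) (.Q [0,0,0,0,0,1,0,0,0,-2,1,1] (.p true [-1,1,1]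
  [1,0,0,0,-1] (⟨0,[(22,0)]⟩,⟨0,[(32,0),(2,0)]⟩) .k 2 (⟨0,[(26,0)]⟩,⟨0,[(27,0)]⟩) .k (.r 0 ⟨2,[(15,
  0),(2,0),(21,1)]⟩ ⟨1,[(10,1),(31,0),(0,0)]⟩)) (.Q [0,0,0,0,0,0,-1,0,-1,1,-1,-1] (.p false [-1,0,1,
  0,1] [] (⟨0,[(0,0),(35,0)]⟩,⟨0,[(27,0),(5,0)]⟩) .k 0 (⟨0,[]⟩,⟨0,[]⟩) .k (.r 0 ⟨2,[(16,0),(2,0),
  (21,1)]⟩ ⟨1,[(11,1),(31,0),(0,0)]⟩)) (.R ⟨0,false,false,true,[2,0,-1,0,-1],[1,0,0,0,-1],[0,0,1],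
  (⟨0,[(28,0),(5,0)]⟩,⟨0,[(1,0),(35,0)]⟩),(⟨0,[(28,0)]⟩,⟨0,[(29,0)]⟩),⟨0,[(1,0)]⟩,.k,.k,(.r (-1) ⟨3,
  [(10,1),(2,1),(0,1),(21,0),(8,0)]⟩ ⟨0,[(19,0),(13,0),(8,0)]⟩),.k,.k,.k,⟨true,0,⟨1,[(32,0),(0,0)]⟩,
  ⟨0,[]⟩⟩,⟨false,1,⟨1,[(23,1),(12,0),(7,0)]⟩,⟨1,[(22,1),(9,0),(0,0)]⟩⟩,⟨false,0,⟨0,[(19,0),(13,0)]⟩,
  ⟨7,[(7,3),(6,1),(1,1),(6,1),(17,1),(2,0),(0,4)]⟩⟩,⟨true,0,⟨12,[(7,5),(7,10),(1,2),(2,1),(11,1),(7,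
  1)]⟩,⟨0,[(12,0),(9,0)]⟩⟩,⟨false,0,⟨0,[]⟩,⟨0,[]⟩⟩,⟨false,0,⟨0,[]⟩,⟨0,[]⟩⟩,[.a ⟨true,0,⟨0,[(4,0)]⟩,
  ⟨0,[(27,0)]⟩⟩ ⟨true,0,⟨1,[(32,0),(0,0)]⟩,⟨0,[]⟩⟩ ⟨false,1,⟨1,[(23,1),(12,0),(7,0)]⟩,⟨1,[(22,1),(9,
  0),(0,0)]⟩⟩,.o ⟨false,1,⟨0,[(5,0)]⟩,⟨15,[(6,6),(0,3),(9,0),(2,1),(6,8),(3,6),(8,1)]⟩⟩,.o ⟨false,0,
  ⟨0,[(0,0)]⟩,⟨15,[(6,5),(0,3),(5,3),(2,1),(10,9),(4,11),(3,8),(8,0)]⟩⟩,.o ⟨false,0,⟨1,[(0,1),(31,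
  0),(0,0)]⟩,⟨7,[(6,5),(0,3),(5,3),(2,1),(10,1),(4,3),(3,0),(8,0)]⟩⟩]⟩) (.K ⟨0,[1,0,0,0,-1],0,0,(⟨0,
  [(28,0)]⟩,⟨0,[(29,0)]⟩),.k,(.r (-1) ⟨15,[(8,1),(1,3),(2,7),(6,3),(6,1),(8,0),(8,4)]⟩ ⟨1,[(32,0),
  (0,0),(8,1)]⟩),(.r (-1) ⟨1,[(32,0),(0,0),(8,1),(2,1)]⟩ ⟨6,[(3,0),(3,2),(12,2),(18,1)]⟩),.k,.k,[⟨0,
  [(1,0),(35,0)]⟩,⟨0,[(0,0),(32,0)]⟩,⟨1,[(4,1),(27,0),(0,0)]⟩,⟨3,[(0,0),(5,0),(13,0),(6,1),(3,1),(7,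
  1),(0,0)]⟩,⟨0,[(4,0)]⟩,⟨0,[(4,0)]⟩,⟨0,[(0,0),(21,0)]⟩,⟨0,[(1,1),(19,0),(15,1)]⟩]⟩)) (.Q [0,0,0,0,
  0,1,0,0,0,-1,0,1] (.ed false [0,1,0,0,1] .k) (.Q [0,-1,0,-1,0,0,1,1,-1,1,1,-1] (.p true [0,0,1]
  [-1,1,0,0,1] (⟨0,[(35,0)]⟩,⟨0,[(34,0)]⟩) .k 2 (⟨0,[(0,0)]⟩,⟨0,[(28,0),(8,0)]⟩) (.r 0 ⟨1,[(32,0),
  (0,0),(8,1)]⟩ ⟨15,[(8,1),(1,3),(2,7),(6,3),(6,1),(8,0),(8,4)]⟩) (.r (-1) ⟨7,[(6,0),(1,2),(7,0),(0,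
  3),(9,1),(14,1),(2,3)]⟩ ⟨4,[(7,0),(4,3),(26,1),(1,0)]⟩)) (.R ⟨0,false,false,true,[0,1,-1],[1,0,0,
  0,-1],[1],(⟨0,[(26,0)]⟩,⟨0,[(36,0),(1,0)]⟩),(⟨0,[(29,0)]⟩,⟨0,[(30,0)]⟩),⟨0,[(36,0)]⟩,.k,.k,.k,(.r
  0 ⟨0,[(13,0),(29,0)]⟩ ⟨5,[(14,1),(3,1),(2,1),(23,0),(0,2)]⟩),.k,.k,⟨true,0,⟨0,[]⟩,⟨1,[(33,0),(0,
  0)]⟩⟩,⟨false,0,⟨0,[(5,0),(18,0)]⟩,⟨0,[(23,0),(4,0),(8,0)]⟩⟩,⟨true,0,⟨1,[(4,0),(13,0)]⟩,⟨0,[(13,0),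
  (29,0)]⟩⟩,⟨false,0,⟨0,[(0,0)]⟩,⟨0,[(17,0),(10,0)]⟩⟩,⟨false,0,⟨0,[]⟩,⟨0,[]⟩⟩,⟨false,0,⟨0,[]⟩,⟨0,
  []⟩⟩,[.a ⟨true,0,⟨0,[(5,0)]⟩,⟨0,[(28,0)]⟩⟩ ⟨true,0,⟨0,[]⟩,⟨1,[(33,0),(0,0)]⟩⟩ ⟨false,0,⟨0,[(5,0),
  (18,0)]⟩,⟨0,[(23,0),(4,0),(8,0)]⟩⟩,.o ⟨false,1,⟨0,[(6,0)]⟩,⟨15,[(7,6),(0,3),(9,0),(2,1),(6,8),(3,
  6),(8,1)]⟩⟩,.o ⟨false,1,⟨0,[(23,0),(13,0)]⟩,⟨0,[(33,0)]⟩⟩,.o ⟨false,1,⟨4,[(14,0),(2,2),(0,0),(2,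
  0),(12,1),(2,0)]⟩,⟨0,[(24,0)]⟩⟩]⟩) (.Q [0,0,0,0,0,0,0,0,0,0,-1,1] (.ed false [1,0,-1,0,1] (.r 0
  ⟨4,[(8,0),(4,3),(26,1),(1,0)]⟩ ⟨7,[(7,0),(1,2),(7,0),(0,3),(9,1),(14,1),(2,3)]⟩)) (.Q [0,0,1,0,0,
  0,0,0,-1,0,0,-1] (.p false [0,0,0,0,1] [] (⟨0,[(31,0)]⟩,⟨0,[(30,0)]⟩) .k 0 (⟨0,[]⟩,⟨0,[]⟩) .k .k)
  (.R ⟨0,false,false,false,[1,0,0,0,-1],[1,0,1,0,-1],[1],(⟨0,[(31,0)]⟩,⟨0,[(32,0)]⟩),(⟨0,[(31,0),(6,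
  0)]⟩,⟨0,[(1,0)]⟩),⟨0,[(3,0)]⟩,.k,.k,(.r (-1) ⟨15,[(11,1),(1,3),(2,7),(6,3),(6,1),(8,0),(8,4)]⟩ ⟨1,
  [(35,0),(0,0),(8,1)]⟩),.k,.k,.k,⟨false,0,⟨4,[(10,2),(4,1),(26,0),(1,2)]⟩,⟨7,[(9,0),(1,2),(7,0),(0,
  3),(9,1),(14,1),(2,3)]⟩⟩,⟨true,0,⟨0,[(26,0)]⟩,⟨0,[(36,0)]⟩⟩,⟨false,0,⟨0,[]⟩,⟨3,[(11,1),(18,1),(8,
  0),(8,0)]⟩⟩,⟨true,0,⟨0,[(22,0)]⟩,⟨0,[(34,0)]⟩⟩,⟨false,0,⟨0,[]⟩,⟨0,[]⟩⟩,⟨false,0,⟨0,[]⟩,⟨0,[]⟩⟩,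
  [.o ⟨false,1,⟨2,[(5,1),(23,0),(3,0)]⟩,⟨2,[(2,2),(10,1),(6,0)]⟩⟩,.o ⟨false,1,⟨0,[(5,0)]⟩,⟨4,[(2,4),
  (10,1),(1,0),(7,2),(18,0)]⟩⟩,.a ⟨true,0,⟨0,[(7,0)]⟩,⟨0,[(30,0)]⟩⟩ ⟨true,0,⟨0,[]⟩,⟨0,[(50,0)]⟩⟩
  ⟨false,1,⟨0,[(5,0),(24,0)]⟩,⟨0,[(34,0)]⟩⟩,.o ⟨false,0,⟨0,[(0,0)]⟩,⟨1,[(30,1),(8,0),(7,0)]⟩⟩]⟩)
  (.R ⟨0,false,false,false,[1,0,0,0,-1],[1,0,1,0,-1],[1],(⟨0,[(31,0)]⟩,⟨0,[(32,0)]⟩),(⟨0,[(31,0),(6,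
  0)]⟩,⟨0,[(1,0)]⟩),⟨0,[(3,0)]⟩,.k,.k,(.r (-1) ⟨15,[(11,1),(1,3),(2,7),(6,3),(6,1),(8,0),(8,4)]⟩ ⟨1,
  [(35,0),(0,0),(8,1)]⟩),.k,.k,.k,⟨false,0,⟨4,[(10,2),(4,1),(26,0),(1,2)]⟩,⟨7,[(9,0),(1,2),(7,0),(0,
  3),(9,1),(14,1),(2,3)]⟩⟩,⟨true,0,⟨0,[(26,0)]⟩,⟨0,[(36,0)]⟩⟩,⟨false,0,⟨0,[]⟩,⟨3,[(11,1),(18,1),(8,
  0),(8,0)]⟩⟩,⟨true,0,⟨0,[(22,0)]⟩,⟨0,[(34,0)]⟩⟩,⟨false,0,⟨0,[]⟩,⟨0,[]⟩⟩,⟨false,0,⟨0,[]⟩,⟨0,[]⟩⟩,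
  [.o ⟨false,1,⟨2,[(5,1),(23,0),(3,0)]⟩,⟨2,[(2,2),(10,1),(6,0)]⟩⟩,.o ⟨false,1,⟨0,[(5,0)]⟩,⟨4,[(2,4),
  (10,1),(1,0),(7,2),(18,0)]⟩⟩,.a ⟨true,0,⟨0,[(7,0)]⟩,⟨0,[(30,0)]⟩⟩ ⟨true,0,⟨0,[]⟩,⟨0,[(50,0)]⟩⟩
  ⟨false,1,⟨0,[(5,0),(24,0)]⟩,⟨0,[(34,0)]⟩⟩,.e ⟨false,1,⟨1,[(47,0),(0,0)]⟩,⟨1,[(35,0),(0,0)]⟩⟩
  ⟨false,1,⟨0,[(0,0),(4,0)]⟩,⟨1,[(15,0),(18,0),(1,0),(13,0)]⟩⟩]⟩)) (.Q [0,0,0,0,0,0,1,1,-1,0,1,-1]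
  (.p false [1,0,-1,0,1] [1] (⟨0,[(31,0),(4,0)]⟩,⟨0,[(0,0)]⟩) .k 1 (⟨0,[]⟩,⟨0,[]⟩) .k (.r 0 ⟨4,[(9,
  0),(4,3),(26,1),(1,0)]⟩ ⟨7,[(8,0),(1,2),(7,0),(0,3),(9,1),(14,1),(2,3)]⟩)) (.Q [0,0,0,0,0,0,-1,0,
  1,0,-1,1] (.p true [1,0,-1,0,1] [1] (⟨0,[(32,0),(4,0)]⟩,⟨0,[(1,0)]⟩) .k 1 (⟨0,[]⟩,⟨0,[]⟩) .k (.r
  0 ⟨4,[(10,0),(4,3),(26,1),(1,0)]⟩ ⟨7,[(9,0),(1,2),(7,0),(0,3),(9,1),(14,1),(2,3)]⟩)) (.K ⟨1,[0,0,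
  1,0,-1],0,0,(⟨0,[(2,0)]⟩,⟨0,[(33,0),(4,0)]⟩),.k,(.r (-1) ⟨5,[(17,1),(3,1),(2,1),(23,0),(0,2)]⟩ ⟨0,
  [(16,0),(29,0)]⟩),(.r (-1) ⟨0,[(6,0),(24,0),(5,0),(8,0)]⟩ ⟨1,[(11,0),(2,0),(28,0)]⟩),.k,.k,[⟨0,
  [(31,0),(5,0)]⟩,⟨0,[(1,0),(14,0)]⟩,⟨0,[(31,0),(3,0),(15,0)]⟩,⟨0,[(1,0)]⟩,⟨0,[(0,0)]⟩,⟨0,[(26,0),
  (4,0)]⟩]⟩) (.K ⟨0,[0,0,1,0,-1],0,0,(⟨0,[(2,0)]⟩,⟨0,[(33,0),(4,0)]⟩),.k,(.r (-1) ⟨5,[(17,1),(3,1),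
  (2,1),(23,0),(0,2)]⟩ ⟨0,[(16,0),(29,0)]⟩),(.r (-1) ⟨0,[(6,0),(24,0),(5,0),(8,0)]⟩ ⟨1,[(11,0),(2,
  0),(28,0)]⟩),.k,.k,[⟨0,[(33,0)]⟩,⟨0,[(31,0),(5,0)]⟩,⟨2,[(0,1),(7,0),(27,0),(7,0)]⟩,⟨0,[(31,0),(3,
  0),(15,0)]⟩,⟨0,[(1,0)]⟩,⟨0,[(0,0)]⟩,⟨0,[(26,0),(4,0)]⟩,⟨0,[(25,0),(7,1)]⟩]⟩)) (.I [0,0,1,0,0,0,0,
  2] (.R ⟨0,false,false,true,[1,0,-1],[0,0,1,0,-1],[0,0,1,0,0,0,0,1],(⟨0,[(38,0)]⟩,⟨0,[(39,0)]⟩),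
  (⟨0,[(2,0)]⟩,⟨0,[(33,0),(4,0)]⟩),⟨0,[(28,0)]⟩,.k,.k,.k,.k,.k,.k,⟨true,0,⟨1,[(36,0),(0,0)]⟩,⟨0,
  []⟩⟩,⟨false,1,⟨1,[(6,0),(4,1),(4,0),(2,1),(2,0),(4,0)]⟩,⟨4,[(0,2),(0,4),(16,0),(7,3),(10,0)]⟩⟩,
  ⟨true,0,⟨0,[(0,0)]⟩,⟨0,[(11,0),(4,0),(28,0)]⟩⟩,⟨false,1,⟨12,[(6,12),(4,5),(7,10),(1,2),(2,1),(11,
  1),(7,1)]⟩,⟨0,[(1,0),(14,0),(9,0)]⟩⟩,⟨false,0,⟨0,[]⟩,⟨0,[]⟩⟩,⟨false,0,⟨0,[]⟩,⟨0,[]⟩⟩,[.o ⟨false,1,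
  ⟨6,[(6,2),(4,1),(7,3),(2,3),(1,1),(19,2)]⟩,⟨0,[(1,0)]⟩⟩,.o ⟨false,1,⟨2,[(6,1),(0,0),(0,0),(10,0),
  (20,0),(3,0)]⟩,⟨0,[(1,0),(49,0)]⟩⟩,.a ⟨true,0,⟨4,[(0,0),(17,1),(7,2),(10,1)]⟩,⟨0,[(27,0)]⟩⟩ ⟨true,
  0,⟨3,[(0,1),(35,0),(0,0)]⟩,⟨4,[(11,2),(4,1),(26,0),(1,2)]⟩⟩ ⟨false,1,⟨0,[(6,0),(7,0),(4,0)]⟩,⟨4,
  [(0,0),(0,4),(16,1),(7,2),(10,1)]⟩⟩,.o ⟨false,0,⟨0,[(37,0)]⟩,⟨1,[(27,1),(12,0),(7,0)]⟩⟩]⟩) (.R ⟨0,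
  false,false,true,[0,0,1],[0,0,1,0,-1],[1],(⟨0,[(39,0)]⟩,⟨0,[(38,0)]⟩),(⟨0,[(2,0)]⟩,⟨0,[(33,0),(4,
  0)]⟩),⟨0,[(29,0)]⟩,.k,.k,.k,.k,.k,.k,⟨true,0,⟨2,[(0,0),(15,0)]⟩,⟨0,[(23,0),(13,0)]⟩⟩,⟨false,1,⟨0,
  [(22,0)]⟩,⟨0,[(31,0)]⟩⟩,⟨true,0,⟨2,[(0,0),(15,0)]⟩,⟨2,[(21,0),(2,0),(21,1)]⟩⟩,⟨false,1,⟨0,[(9,
  0)]⟩,⟨0,[(31,0)]⟩⟩,⟨false,0,⟨0,[]⟩,⟨0,[]⟩⟩,⟨false,0,⟨0,[]⟩,⟨0,[]⟩⟩,[.o ⟨false,1,⟨6,[(6,2),(4,1),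
  (7,3),(2,3),(1,1),(19,2)]⟩,⟨0,[(1,0)]⟩⟩,.o ⟨false,1,⟨2,[(6,1),(0,0),(0,0),(10,0),(20,0),(3,0)]⟩,
  ⟨0,[(1,0),(49,0)]⟩⟩,.a ⟨true,0,⟨0,[(27,0)]⟩,⟨1,[(26,1),(9,0),(0,0)]⟩⟩ ⟨true,0,⟨0,[]⟩,⟨0,[(51,
  0)]⟩⟩ ⟨false,1,⟨3,[(6,0),(2,2),(9,0),(1,0),(4,0),(10,0)]⟩,⟨2,[(0,0),(0,0),(29,1),(4,0)]⟩⟩,.e
  ⟨false,1,⟨1,[(48,0),(0,0)]⟩,⟨1,[(36,0),(0,0)]⟩⟩ ⟨false,1,⟨3,[(6,1),(0,0),(1,1),(5,1),(5,0),(4,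
  1)]⟩,⟨0,[(1,0),(34,0)]⟩⟩]⟩))))) (.S ⟨1,0,[0,-1,0,-1],[1,0,0,0,-1],[1],(⟨0,[(28,0)]⟩,⟨0,[(29,0)]⟩),
  ⟨0,[(0,0)]⟩,.k,(.r (-1) ⟨15,[(8,1),(1,3),(2,7),(6,3),(6,1),(8,0),(8,4)]⟩ ⟨1,[(32,0),(0,0),(8,
  1)]⟩),⟨false,0,⟨0,[]⟩,⟨3,[(8,1),(18,1),(8,0),(8,0)]⟩⟩,⟨true,0,⟨0,[(43,0)]⟩,⟨0,[(42,0)]⟩⟩,⟨true,0,
  ⟨0,[(42,0)]⟩,⟨0,[(43,0)]⟩⟩,⟨false,1,⟨3,[(8,1),(18,1),(8,0),(8,0)]⟩,⟨0,[]⟩⟩,[.o ⟨false,1,⟨2,[(5,2),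
  (4,1),(6,0)]⟩,⟨0,[(11,0),(15,0)]⟩⟩,.o ⟨false,1,⟨0,[(2,0),(4,0),(25,0)]⟩,⟨6,[(6,2),(20,3),(3,2),(7,
  1),(0,0),(1,3)]⟩⟩,.a ⟨true,0,⟨0,[(4,0)]⟩,⟨0,[(27,0)]⟩⟩ ⟨true,0,⟨0,[]⟩,⟨0,[(47,0)]⟩⟩ ⟨false,1,⟨2,
  [(10,1),(6,0),(27,2)]⟩,⟨0,[(42,0)]⟩⟩,.e ⟨false,1,⟨1,[(44,0),(0,0)]⟩,⟨1,[(32,0),(0,0)]⟩⟩ ⟨false,1,
  ⟨3,[(3,0),(3,1),(9,0),(27,3)]⟩,⟨1,[(32,0),(0,0),(8,1)]⟩⟩]⟩))) (.Q [0,2,0,0,-1,0,-1,0,1,0,-1,1]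
  (.p false [0,0,1] [0,0,0,0,1] (⟨0,[(33,0)]⟩,⟨0,[(32,0)]⟩) .k 2 (⟨0,[(27,0)]⟩,⟨0,[(26,0)]⟩) .k (.r
  (-1) ⟨7,[(4,0),(1,2),(7,0),(0,3),(9,1),(14,1),(2,3)]⟩ ⟨4,[(5,0),(4,3),(26,1),(1,0)]⟩)) (.R ⟨0,
  false,false,false,[1,0,-1],[1,0,0,0,-1],[0,-1,1],(⟨0,[(33,0)]⟩,⟨0,[(34,0)]⟩),(⟨0,[(27,0)]⟩,⟨0,
  [(28,0)]⟩),⟨0,[(23,0)]⟩,.k,.k,.k,.k,.k,.k,⟨true,0,⟨1,[(31,0),(0,0)]⟩,⟨0,[]⟩⟩,⟨false,1,⟨0,[(17,0),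
  (4,0)]⟩,⟨0,[(0,0),(43,0)]⟩⟩,⟨false,1,⟨0,[(18,0),(13,0),(11,0)]⟩,⟨4,[(6,2),(4,1),(26,0),(1,2)]⟩⟩,
  ⟨true,1,⟨0,[(4,0),(13,0)]⟩,⟨0,[(1,0)]⟩⟩,⟨false,0,⟨0,[]⟩,⟨0,[]⟩⟩,⟨false,0,⟨0,[]⟩,⟨0,[]⟩⟩,[.o
  ⟨false,1,⟨0,[(4,0)]⟩,⟨21,[(1,5),(3,4),(3,1),(9,2),(6,10),(4,0),(3,5),(2,0)]⟩⟩,.e ⟨false,1,⟨0,[(44,
  0)]⟩,⟨0,[(38,0)]⟩⟩ ⟨false,2,⟨0,[(17,0),(4,0),(21,0)]⟩,⟨0,[(0,0)]⟩⟩,.a ⟨true,0,⟨1,[(21,1),(9,0),(0,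
  0)]⟩,⟨0,[(22,0)]⟩⟩ ⟨false,1,⟨1,[(31,0),(0,0),(11,1)]⟩,⟨4,[(2,0),(35,1),(1,0)]⟩⟩ ⟨true,1,⟨0,[(4,0),
  (17,0)]⟩,⟨0,[(0,0)]⟩⟩,.o ⟨false,0,⟨0,[(32,0)]⟩,⟨1,[(22,1),(12,0),(7,0)]⟩⟩]⟩) (.I [1,-2,0,0,1,0,0,
  1] (.R ⟨0,false,false,false,[1,0,-1],[1,0,0,0,-1],[0,-1,1],(⟨0,[(34,0)]⟩,⟨0,[(35,0)]⟩),(⟨0,[(28,
  0)]⟩,⟨0,[(29,0)]⟩),⟨0,[(24,0)]⟩,.k,.k,.k,.k,.k,.k,⟨true,0,⟨1,[(32,0),(0,0)]⟩,⟨0,[]⟩⟩,⟨false,1,⟨0,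
  [(18,0),(4,0)]⟩,⟨0,[(0,0),(1,0)]⟩⟩,⟨false,1,⟨1,[(0,1),(31,0),(0,0)]⟩,⟨4,[(7,2),(4,1),(26,0),(1,
  2)]⟩⟩,⟨true,1,⟨6,[(1,3),(6,1),(6,1),(1,1),(8,0),(3,0)]⟩,⟨0,[(2,0)]⟩⟩,⟨false,0,⟨0,[]⟩,⟨0,[]⟩⟩,
  ⟨false,0,⟨0,[]⟩,⟨0,[]⟩⟩,[.o ⟨false,1,⟨0,[(5,0)]⟩,⟨21,[(2,5),(3,4),(3,1),(9,2),(6,10),(4,0),(3,5),
  (2,0)]⟩⟩,.a ⟨true,1,⟨0,[(4,0),(40,0)]⟩,⟨0,[(2,0),(16,0)]⟩⟩ ⟨false,1,⟨0,[(45,0)]⟩,⟨0,[(39,0)]⟩⟩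
  ⟨true,1,⟨0,[(1,0)]⟩,⟨0,[(2,0),(16,0),(13,0)]⟩⟩,.e ⟨false,1,⟨0,[(45,0),(0,0)]⟩,⟨4,[(3,0),(35,1),(1,
  0)]⟩⟩ ⟨false,1,⟨0,[(1,0)]⟩,⟨11,[(2,2),(13,2),(0,0),(2,3),(1,2),(4,8),(5,2),(8,1)]⟩⟩,.o ⟨false,0,
  ⟨0,[(33,0)]⟩,⟨1,[(23,1),(12,0),(7,0)]⟩⟩]⟩) (.Q [0,0,0,0,0,0,0,0,0,0,-1,1] (.ed false [1,0,-1,0,1]
  (.r 0 ⟨3,[(0,0),(11,2),(26,0),(4,0)]⟩ ⟨7,[(6,0),(1,2),(7,0),(0,3),(9,1),(14,1),(2,3)]⟩)) (.R ⟨0,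
  false,false,true,[1,0,-1],[0,0,-1,0,1],[1,0,1],(⟨0,[(35,0)]⟩,⟨0,[(36,0)]⟩),(⟨0,[(0,0)]⟩,⟨0,[(29,
  0),(6,0)]⟩),⟨0,[(25,0)]⟩,.k,.k,.k,.k,.k,.k,⟨true,1,⟨0,[(20,0),(13,0),(11,0)]⟩,⟨0,[(1,0)]⟩⟩,⟨false,
  1,⟨1,[(28,1),(8,0),(7,0)]⟩,⟨0,[(5,0)]⟩⟩,⟨true,0,⟨0,[(20,0),(13,0)]⟩,⟨6,[(1,2),(6,1),(6,0),(1,0),
  (6,0),(17,0),(2,1)]⟩⟩,⟨false,0,⟨21,[(3,5),(3,4),(3,1),(9,2),(6,10),(4,0),(3,5),(2,0)]⟩,⟨0,[(5,0),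
  (40,0)]⟩⟩,⟨false,0,⟨0,[]⟩,⟨0,[]⟩⟩,⟨false,0,⟨0,[]⟩,⟨0,[]⟩⟩,[.e ⟨false,0,⟨0,[]⟩,⟨1,[(27,0),(0,0),
  (16,0)]⟩⟩ ⟨false,0,⟨3,[(3,1),(3,1),(0,0),(2,0),(1,1),(26,0),(4,1)]⟩,⟨0,[(2,0),(17,0),(2,0),(10,
  0)]⟩⟩,.o ⟨false,0,⟨1,[(3,1),(33,0),(8,0)]⟩,⟨6,[(2,3),(6,1),(6,1),(1,1),(8,0),(3,0)]⟩⟩,.a ⟨true,0,
  ⟨1,[(23,1),(9,0),(0,0)]⟩,⟨0,[(24,0)]⟩⟩ ⟨true,0,⟨1,[(33,0),(0,0)]⟩,⟨4,[(4,0),(35,1),(1,0)]⟩⟩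
  ⟨false,0,⟨6,[(3,1),(3,2),(0,0),(2,2),(1,2),(3,0),(10,1),(16,0)]⟩,⟨0,[(2,0),(17,0),(2,0),(10,0)]⟩⟩,
  .o ⟨false,0,⟨0,[(34,0)]⟩,⟨1,[(24,1),(12,0),(7,0)]⟩⟩]⟩) (.R ⟨0,false,false,true,[0,0,1],[0,0,1,0,
  -1],[1],(⟨0,[(36,0)]⟩,⟨0,[(35,0)]⟩),(⟨0,[(0,0)]⟩,⟨0,[(30,0),(4,0)]⟩),⟨0,[(26,0)]⟩,.k,.k,.k,.k,.k,
  .k,⟨true,0,⟨0,[(1,0),(44,0)]⟩,⟨0,[(20,0),(13,0)]⟩⟩,⟨false,1,⟨0,[(19,0)]⟩,⟨0,[(28,0)]⟩⟩,⟨true,0,⟨0,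
  [(1,0),(44,0)]⟩,⟨2,[(18,0),(2,0),(21,1)]⟩⟩,⟨false,1,⟨0,[(6,0)]⟩,⟨0,[(28,0)]⟩⟩,⟨false,0,⟨0,[]⟩,⟨0,
  []⟩⟩,⟨false,0,⟨0,[]⟩,⟨0,[]⟩⟩,[.o ⟨false,1,⟨20,[(1,2),(0,10),(13,9),(1,3),(0,9),(1,5),(15,2),(3,
  4)]⟩,⟨0,[(3,0),(42,0)]⟩⟩,.o ⟨false,1,⟨4,[(1,0),(0,4),(9,2),(5,2),(18,0)]⟩,⟨0,[(28,0),(3,0)]⟩⟩,.a
  ⟨true,0,⟨0,[(24,0)]⟩,⟨1,[(23,1),(9,0),(0,0)]⟩⟩ ⟨true,0,⟨0,[]⟩,⟨0,[(48,0)]⟩⟩ ⟨false,1,⟨2,[(2,0),(3,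
  1),(9,0),(1,0),(4,0),(10,0)]⟩,⟨0,[(1,0),(26,0),(17,0)]⟩⟩,.e ⟨false,1,⟨1,[(45,0),(0,0)]⟩,⟨1,[(33,
  0),(0,0)]⟩⟩ ⟨false,1,⟨5,[(2,3),(1,0),(1,1),(5,3),(5,2),(4,3)]⟩,⟨0,[(13,0),(14,0)]⟩⟩]⟩))))))) (.Q
  [0,0,0,0,0,0,0,0,0,1,-1,-1] (.ed true [0,0,1,0,1] (.r 0 ⟨2,[(12,0),(2,0),(21,1)]⟩ ⟨1,[(7,1),(31,
  0),(0,0)]⟩)) (.R ⟨0,false,false,false,[1,0,-1,0,-1],[1,0,0,0,-1],[0,0,1],(⟨0,[(0,0)]⟩,⟨0,[(25,0),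
  (5,0)]⟩),(⟨0,[(24,0)]⟩,⟨0,[(25,0)]⟩),⟨0,[(20,0),(4,0)]⟩,.k,.k,(.r (-1) ⟨3,[(6,1),(2,1),(0,1),(21,
  0),(8,0)]⟩ ⟨0,[(15,0),(13,0),(8,0)]⟩),.k,.k,.k,⟨false,0,⟨0,[(43,0)]⟩,⟨1,[(40,0),(0,0)]⟩⟩,⟨true,0,
  ⟨0,[(19,0)]⟩,⟨0,[(29,0)]⟩⟩,⟨false,0,⟨0,[(15,0),(13,0)]⟩,⟨7,[(3,3),(6,1),(1,1),(6,1),(17,1),(2,0),
  (0,4)]⟩⟩,⟨true,0,⟨0,[(15,0)]⟩,⟨0,[(27,0)]⟩⟩,⟨false,0,⟨0,[]⟩,⟨0,[]⟩⟩,⟨false,0,⟨0,[]⟩,⟨0,[]⟩⟩,[.a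
  ⟨true,1,⟨0,[(4,0)]⟩,⟨0,[(1,0)]⟩⟩ ⟨true,0,⟨1,[(28,0),(0,0)]⟩,⟨0,[]⟩⟩ ⟨false,1,⟨1,[(19,1),(20,0),(0,
  0)]⟩,⟨4,[(7,0),(5,0),(4,0),(8,1),(1,1),(5,0)]⟩⟩,.o ⟨false,2,⟨1,[(4,1),(27,0),(8,0)]⟩,⟨8,[(1,8),(1,
  3),(3,6),(5,0),(2,1),(19,1)]⟩⟩,.o ⟨false,1,⟨0,[(14,0),(14,0)]⟩,⟨1,[(1,0),(0,0),(0,0),(24,0),(12,
  0)]⟩⟩,.o ⟨false,1,⟨0,[(22,0),(6,0)]⟩,⟨0,[(1,0),(1,0),(7,0),(29,0)]⟩⟩]⟩) (.R ⟨0,false,false,false,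
  [0,0,-1,0,1],[0,0,0,0,1],[0,0,1],(⟨0,[(0,0),(16,0)]⟩,⟨0,[(24,0),(6,0)]⟩),(⟨0,[(25,0)]⟩,⟨0,[(24,
  0)]⟩),⟨0,[(20,0),(3,0)]⟩,.k,.k,(.r 0 ⟨1,[(3,0),(2,0),(28,0)]⟩ ⟨0,[(15,0),(13,0),(8,0),(2,0)]⟩),.k,
  .k,.k,⟨false,1,⟨3,[(4,1),(18,1),(8,0),(8,0)]⟩,⟨2,[(5,0),(29,0),(1,0)]⟩⟩,⟨true,0,⟨0,[(19,0)]⟩,⟨0,
  [(29,0)]⟩⟩,⟨false,1,⟨0,[(15,0),(13,0),(11,0)]⟩,⟨4,[(3,2),(4,1),(26,0),(1,2)]⟩⟩,⟨true,0,⟨0,[(15,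
  0)]⟩,⟨0,[(27,0)]⟩⟩,⟨false,0,⟨0,[]⟩,⟨0,[]⟩⟩,⟨false,0,⟨0,[]⟩,⟨0,[]⟩⟩,[.a ⟨true,(-1),⟨0,[(1,0)]⟩,⟨0,
  [(4,0)]⟩⟩ ⟨true,0,⟨1,[(28,0),(0,0)]⟩,⟨0,[]⟩⟩ ⟨false,0,⟨1,[(3,0),(15,0),(6,0),(10,0)]⟩,⟨2,[(12,0),
  (3,0),(1,0),(10,0),(11,1)]⟩⟩,.o ⟨false,0,⟨1,[(1,1),(30,0),(8,0)]⟩,⟨0,[(22,0)]⟩⟩,.o ⟨false,0,⟨0,
  [(1,0),(3,0),(1,0),(21,0),(11,0)]⟩,⟨0,[(14,0),(13,0)]⟩⟩,.o ⟨false,0,⟨1,[(1,1),(27,1),(2,0),(8,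
  0)]⟩,⟨0,[(14,0),(4,0)]⟩⟩]⟩))))))) (.R ⟨0,false,false,false,[0,0,1],[1,-1],[0,0,0,-1],(⟨0,[(25,
  0)]⟩,⟨0,[(24,0)]⟩),(⟨0,[(27,0)]⟩,⟨0,[(28,0)]⟩),⟨0,[(15,0)]⟩,.k,.k,.k,.k,.k,.k,⟨true,0,⟨1,[(22,0),
  (0,0)]⟩,⟨0,[]⟩⟩,⟨false,0,⟨5,[(0,0),(3,2),(2,0),(4,2),(10,2)]⟩,⟨1,[(13,1),(12,0),(7,0)]⟩⟩,⟨false,1,
  ⟨2,[(2,3),(0,1),(6,0),(24,0)]⟩,⟨0,[(0,0)]⟩⟩,⟨true,0,⟨0,[(2,0),(9,0),(20,0)]⟩,⟨0,[(5,0)]⟩⟩,⟨false,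
  0,⟨0,[]⟩,⟨0,[]⟩⟩,⟨false,0,⟨0,[]⟩,⟨0,[]⟩⟩,[.o ⟨false,0,⟨0,[(33,0)]⟩,⟨2,[(5,0),(0,1),(13,0),(14,
  0)]⟩⟩,.o ⟨false,1,⟨2,[(2,1),(0,0),(6,1),(24,1)]⟩,⟨0,[(1,0)]⟩⟩,.e ⟨true,0,⟨0,[(33,0)]⟩,⟨0,[(32,
  0)]⟩⟩ ⟨true,0,⟨3,[(4,1),(2,0),(4,1),(10,1),(9,2)]⟩,⟨0,[(1,0),(11,0)]⟩⟩,.a ⟨true,0,⟨0,[(22,0)]⟩,⟨0,
  [(12,0)]⟩⟩ ⟨false,1,⟨2,[(2,0),(0,1),(6,0),(24,0)]⟩,⟨0,[(0,0),(1,0)]⟩⟩ ⟨true,0,⟨0,[(12,0),(20,0)]⟩,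
  ⟨0,[(2,0),(2,0)]⟩⟩]⟩))) (.Q [0,-1,0,-1,0,0,0,0,0,1] (.pp false [-1,1]) (.R ⟨0,false,false,true,[0,
  1,-1],[0,1],[1],(⟨0,[(14,0)]⟩,⟨0,[(24,0),(1,0)]⟩),(⟨0,[(27,0)]⟩,⟨0,[(26,0)]⟩),⟨0,[(24,0)]⟩,.k,.k,
  .k,.k,.k,.k,⟨false,1,⟨0,[(2,0)]⟩,⟨1,[(21,0),(0,0),(8,1)]⟩⟩,⟨true,0,⟨0,[(12,0)]⟩,⟨0,[(22,0)]⟩⟩,
  ⟨true,0,⟨0,[(1,0),(30,0)]⟩,⟨0,[(3,0),(25,0),(0,0)]⟩⟩,⟨false,0,⟨0,[(8,0)]⟩,⟨0,[(20,0),(13,0)]⟩⟩,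
  ⟨false,0,⟨0,[]⟩,⟨0,[]⟩⟩,⟨false,0,⟨0,[]⟩,⟨0,[]⟩⟩,[.a ⟨true,0,⟨0,[(31,0)]⟩,⟨0,[(0,0)]⟩⟩ ⟨true,0,⟨0,
  []⟩,⟨1,[(21,0),(0,0)]⟩⟩ ⟨false,0,⟨0,[(12,0),(18,0)]⟩,⟨0,[(2,0),(19,0)]⟩⟩,.o ⟨false,1,⟨2,[(4,0),(0,
  1),(13,0),(14,0)]⟩,⟨0,[(32,0)]⟩⟩,.o ⟨false,1,⟨0,[(11,0),(13,0)]⟩,⟨0,[(21,0)]⟩⟩,.o ⟨false,1,⟨4,[(2,
  0),(2,2),(0,0),(2,0),(12,1),(2,0)]⟩,⟨0,[(12,0)]⟩⟩]⟩) (.I [1,1,-2,-1,0,0,0,-1] (.I [0,0,2,1] (.Q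
  [0,0,0,-1,0,0,-1,-1,0,1,-1] (.p false [0,0,1] [1] (⟨0,[(26,0)]⟩,⟨0,[(25,0)]⟩) .k 1 (⟨0,[]⟩,⟨0,
  []⟩) .k .k) (.R ⟨0,false,false,true,[1,0,-1],[0,1],[0,1,2,1],(⟨0,[(26,0)]⟩,⟨0,[(27,0)]⟩),(⟨0,[(30,
  0)]⟩,⟨0,[(29,0)]⟩),⟨0,[(16,0)]⟩,.k,.k,.k,.k,.k,.k,⟨true,0,⟨11,[(0,1),(0,2),(7,0),(14,1),(7,1)]⟩,
  ⟨0,[]⟩⟩,⟨false,1,⟨0,[(2,0),(4,0),(29,0)]⟩,⟨3,[(0,1),(0,2),(7,0),(4,1)]⟩⟩,⟨false,0,⟨3,[(1,4),(2,1),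
  (4,0)]⟩,⟨0,[(2,0),(34,0)]⟩⟩,⟨true,0,⟨0,[(7,0)]⟩,⟨0,[(0,0)]⟩⟩,⟨false,0,⟨0,[]⟩,⟨0,[]⟩⟩,⟨false,0,⟨0,
  []⟩,⟨0,[]⟩⟩,[.o ⟨false,0,⟨0,[(3,0)]⟩,⟨4,[(0,1),(4,0),(6,1),(11,1),(3,0),(8,2)]⟩⟩,.o ⟨false,1,⟨2,
  [(7,0),(0,1),(13,0),(14,0)]⟩,⟨0,[(35,0)]⟩⟩,.a ⟨true,0,⟨7,[(0,1),(0,2),(7,0),(4,5)]⟩,⟨0,[(15,0)]⟩⟩
  ⟨false,0,⟨0,[(1,0)]⟩,⟨0,[(5,0)]⟩⟩ ⟨true,0,⟨0,[(3,0),(11,0)]⟩,⟨7,[(0,5),(0,0),(7,2),(4,1)]⟩⟩,.o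
  ⟨false,0,⟨0,[(25,0)]⟩,⟨1,[(15,1),(12,0),(7,0)]⟩⟩]⟩) (.I [0,-1,2,1,0,0,0,2] (.R ⟨0,false,false,
  false,[1,0,-1],[-1,1,1],[0,0,2,1,0,0,0,1],(⟨0,[(27,0)]⟩,⟨0,[(28,0)]⟩),(⟨0,[(17,0)]⟩,⟨0,[(27,0),(2,
  0)]⟩),⟨0,[(17,0)]⟩,.k,.k,.k,(.r (-1) ⟨1,[(3,0),(2,0),(0,2),(21,0),(3,0)]⟩ ⟨4,[(0,3),(9,0),(21,0),
  (1,1)]⟩),.k,.k,⟨true,0,⟨1,[(25,0),(0,0)]⟩,⟨0,[]⟩⟩,⟨false,1,⟨1,[(1,1),(1,1),(12,1),(12,0),(8,0)]⟩,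
  ⟨7,[(0,2),(6,8),(5,2),(1,6),(10,8)]⟩⟩,⟨false,0,⟨0,[(0,0)]⟩,⟨1,[(3,1),(3,1),(21,0),(8,0)]⟩⟩,⟨true,
  0,⟨0,[(1,1),(34,0)]⟩,⟨4,[(7,6),(5,0),(1,2),(8,3),(1,2),(9,3)]⟩⟩,⟨false,0,⟨0,[]⟩,⟨0,[]⟩⟩,⟨false,0,
  ⟨0,[]⟩,⟨0,[]⟩⟩,[.e ⟨false,0,⟨1,[(0,0),(34,0)]⟩,⟨3,[(3,1),(2,1),(0,1),(11,0),(0,0),(8,0)]⟩⟩ ⟨false,
  1,⟨1,[(1,1),(14,1),(12,0),(7,0)]⟩,⟨0,[(7,0),(7,0),(10,0),(9,0)]⟩⟩,.o ⟨false,1,⟨1,[(1,1),(27,0),(8,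
  0)]⟩,⟨4,[(7,3),(5,1),(1,0),(8,2),(1,0),(9,2)]⟩⟩,.a ⟨true,0,⟨7,[(0,0),(6,2),(5,0),(1,4),(10,2)]⟩,
  ⟨0,[(16,0)]⟩⟩ ⟨true,0,⟨4,[(0,1),(1,2),(10,0),(21,0)]⟩,⟨0,[(3,0)]⟩⟩ ⟨false,1,⟨1,[(1,1),(14,1),(12,
  0),(8,0)]⟩,⟨0,[(7,0),(7,0),(10,0),(9,0)]⟩⟩,.o ⟨false,0,⟨0,[(26,0)]⟩,⟨1,[(16,1),(12,0),(7,0)]⟩⟩]⟩)
  (.Q [0,0,1,0,0,0,2,0,0,-1,2] (.p true [0,0,1] [1,0,-1] (⟨0,[(28,0)]⟩,⟨0,[(27,0)]⟩) .k 2 (⟨0,[(27,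
  0)]⟩,⟨0,[(28,0)]⟩) .k (.r 0 ⟨3,[(1,1),(0,0),(7,2),(4,1)]⟩ ⟨8,[(0,3),(6,5),(1,3),(9,2),(0,2),(4,3),
  (7,1),(4,1)]⟩)) (.R ⟨0,false,false,true,[0,0,1],[1,0,-1],[1],(⟨0,[(29,0)]⟩,⟨0,[(28,0)]⟩),(⟨0,[(28,
  0)]⟩,⟨0,[(29,0)]⟩),⟨0,[(19,0)]⟩,.k,.k,.k,.k,.k,.k,⟨false,1,⟨2,[(6,0),(4,0),(24,0),(1,0),(0,1)]⟩,
  ⟨3,[(1,0),(23,1),(0,1),(9,0)]⟩⟩,⟨true,0,⟨0,[(16,0),(10,0)]⟩,⟨0,[(0,0)]⟩⟩,⟨false,1,⟨17,[(1,3),(6,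
  5),(1,3),(9,2),(0,2),(4,3),(7,1),(4,10)]⟩,⟨7,[(2,1),(0,0),(7,2),(4,1)]⟩⟩,⟨true,0,⟨0,[(1,0),(1,0),
  (12,0),(10,0)]⟩,⟨2,[(0,1),(1,0),(3,1),(4,0),(1,0)]⟩⟩,⟨false,0,⟨0,[]⟩,⟨0,[]⟩⟩,⟨false,0,⟨0,[]⟩,⟨0,
  []⟩⟩,[.o ⟨false,0,⟨0,[(25,0)]⟩,⟨15,[(0,3),(6,1),(1,5),(1,3),(12,1),(5,2),(8,10)]⟩⟩,.o ⟨false,1,⟨1,
  [(20,0),(0,0),(3,1),(13,0)]⟩,⟨0,[(2,0),(34,0)]⟩⟩,.e ⟨true,0,⟨0,[]⟩,⟨0,[(41,0)]⟩⟩ ⟨true,0,⟨6,[(3,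
  0),(4,1),(5,0),(1,4),(8,5),(1,2)]⟩,⟨0,[(0,0),(5,0)]⟩⟩,.a ⟨true,0,⟨0,[(26,0)]⟩,⟨0,[(16,0)]⟩⟩
  ⟨false,1,⟨1,[(38,0),(0,0)]⟩,⟨1,[(26,0),(0,0)]⟩⟩ ⟨true,0,⟨0,[(16,0),(8,0)]⟩,⟨2,[(0,1),(1,0),(8,0),
  (14,0)]⟩⟩]⟩) (.Q [0,0,0,0,0,0,0,0,1,-1,0,1] (.p true [0,0,0,0,1] [1] (⟨0,[(23,0)]⟩,⟨0,[(22,0)]⟩)
  .k 1 (⟨0,[]⟩,⟨0,[]⟩) .k .k) (.Q [0,1,0,0,-1,0,0,0,1,-1,0,1] (.p true [0,0,0,0,1] [1] (⟨0,[(24,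
  0)]⟩,⟨0,[(23,0)]⟩) .k 1 (⟨0,[]⟩,⟨0,[]⟩) .k .k) (.R ⟨0,false,false,false,[1,0,-1],[0,0,0,0,1],[1,
  1],(⟨0,[(30,0)]⟩,⟨0,[(31,0)]⟩),(⟨0,[(25,0)]⟩,⟨0,[(24,0)]⟩),⟨0,[(20,0)]⟩,.k,.k,.k,.k,.k,.k,⟨true,0,
  ⟨0,[]⟩,⟨1,[(28,0),(0,0)]⟩⟩,⟨false,0,⟨3,[(0,1),(2,0),(0,1),(4,0),(9,1),(3,1),(17,0)]⟩,⟨3,[(2,1),(2,
  0),(4,1),(2,0),(8,3)]⟩⟩,⟨false,0,⟨7,[(4,1),(0,0),(7,2),(4,1)]⟩,⟨17,[(3,3),(6,5),(1,3),(9,2),(0,2),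
  (4,3),(7,1),(4,10)]⟩⟩,⟨true,(-1),⟨0,[(0,0),(14,0)]⟩,⟨0,[(10,0),(3,0),(14,0)]⟩⟩,⟨false,0,⟨0,[]⟩,⟨0,
  []⟩⟩,⟨false,0,⟨0,[]⟩,⟨0,[]⟩⟩,[.o ⟨false,(-1),⟨0,[(0,0)]⟩,⟨1,[(22,2),(0,0),(17,0)]⟩⟩,.o ⟨false,0,
  ⟨0,[(1,0)]⟩,⟨0,[(22,0)]⟩⟩,.a ⟨true,0,⟨3,[(2,1),(2,0),(4,1),(2,0)]⟩,⟨0,[(19,0)]⟩⟩ ⟨false,0,⟨0,[]⟩,
  ⟨1,[(22,0),(0,0),(17,0)]⟩⟩ ⟨true,(-1),⟨0,[(0,0),(18,0)]⟩,⟨3,[(2,1),(2,0),(4,1),(2,0),(8,3)]⟩⟩,.o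
  ⟨false,0,⟨0,[(29,0)]⟩,⟨1,[(19,1),(12,0),(7,0)]⟩⟩]⟩) (.Q [0,0,1,0,0,0,-1,0,-1,1,-1,-1] (.p false
  [0,0,1] [1,0,0,0,-1] (⟨0,[(31,0)]⟩,⟨0,[(30,0)]⟩) .k 2 (⟨0,[(24,0)]⟩,⟨0,[(25,0)]⟩) .k (.r 0 ⟨2,
  [(13,0),(2,0),(21,1)]⟩ ⟨17,[(3,3),(6,5),(1,3),(9,2),(0,2),(4,3),(7,1),(4,10)]⟩)) (.R ⟨0,false,
  false,false,[1,0,-1],[0,0,0,0,1],[1],(⟨0,[(31,0)]⟩,⟨0,[(32,0)]⟩),(⟨0,[(26,0)]⟩,⟨0,[(25,0)]⟩),⟨0,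
  [(21,0)]⟩,.k,.k,.k,.k,.k,.k,⟨false,1,⟨1,[(41,0),(0,0)]⟩,⟨0,[(44,0)]⟩⟩,⟨true,0,⟨0,[(2,0),(17,0)]⟩,
  ⟨0,[(0,0)]⟩⟩,⟨true,0,⟨7,[(5,1),(0,0),(7,2),(4,1)]⟩,⟨3,[(4,0),(23,1),(0,1),(9,0)]⟩⟩,⟨false,0,⟨0,
  [(2,0),(13,0)]⟩,⟨5,[(0,4),(0,0),(2,1),(6,0),(1,0),(24,0),(3,3)]⟩⟩,⟨false,0,⟨0,[]⟩,⟨0,[]⟩⟩,⟨false,
  0,⟨0,[]⟩,⟨0,[]⟩⟩,[.o ⟨false,0,⟨3,[(2,2),(21,0),(11,1),(0,0)]⟩,⟨6,[(0,3),(0,0),(2,1),(0,3),(9,1),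
  (21,0),(2,1),(1,3)]⟩⟩,.o ⟨false,0,⟨0,[(2,0)]⟩,⟨0,[(23,0)]⟩⟩,.a ⟨true,0,⟨1,[(0,0),(18,0),(4,0)]⟩,
  ⟨0,[(20,0)]⟩⟩ ⟨true,0,⟨0,[]⟩,⟨0,[(44,0)]⟩⟩ ⟨false,0,⟨0,[(2,0),(17,0)]⟩,⟨2,[(0,0),(0,0),(1,0),(19,
  0),(18,0)]⟩⟩,.o ⟨false,0,⟨0,[(30,0)]⟩,⟨1,[(20,1),(12,0),(7,0)]⟩⟩]⟩) (.Q [0,-1,0,0,1,0,1,0,-1,0,1,
  -1] (.p true [0,0,1] [0,0,0,0,1] (⟨0,[(32,0)]⟩,⟨0,[(31,0)]⟩) .k 2 (⟨0,[(26,0)]⟩,⟨0,[(25,0)]⟩) .k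
  (.r (-1) ⟨1,[(6,0),(7,0),(26,0),(0,0)]⟩ ⟨3,[(4,0),(23,1),(0,1),(9,0)]⟩)) (.R ⟨0,false,false,false,
  [0,0,1],[0,0,0,0,1],[1,1],(⟨0,[(33,0)]⟩,⟨0,[(32,0)]⟩),(⟨0,[(27,0)]⟩,⟨0,[(26,0)]⟩),⟨0,[(23,0)]⟩,.k,
  .k,.k,.k,.k,.k,⟨true,0,⟨0,[]⟩,⟨1,[(30,0),(0,0)]⟩⟩,⟨false,0,⟨2,[(1,0),(1,0),(0,1),(20,0)]⟩,⟨2,[(0,
  1),(23,0),(5,0),(6,0)]⟩⟩,⟨true,0,⟨3,[(5,0),(23,1),(0,1),(9,0)]⟩,⟨7,[(6,1),(0,0),(7,2),(4,1)]⟩⟩,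
  ⟨false,0,⟨0,[(1,0),(2,0),(7,0),(25,0)]⟩,⟨2,[(0,1),(1,0),(3,0),(8,0)]⟩⟩,⟨false,0,⟨0,[]⟩,⟨0,[]⟩⟩,
  ⟨false,0,⟨0,[]⟩,⟨0,[]⟩⟩,[.e ⟨false,0,⟨5,[(8,0),(1,0),(26,1),(1,0)]⟩,⟨1,[(24,0),(0,0),(17,0)]⟩⟩
  ⟨false,0,⟨1,[(3,0),(0,0),(20,0),(11,0)]⟩,⟨0,[(0,0)]⟩⟩,.o ⟨false,0,⟨0,[(3,0)]⟩,⟨0,[(24,0)]⟩⟩,.e
  ⟨false,0,⟨0,[]⟩,⟨1,[(24,0),(0,0),(17,0)]⟩⟩ ⟨false,0,⟨2,[(3,0),(0,0),(20,1),(5,0)]⟩,⟨0,[(0,0)]⟩⟩,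
  .a ⟨true,0,⟨0,[(30,0)]⟩,⟨0,[(20,0)]⟩⟩ ⟨true,0,⟨5,[(8,0),(1,0),(26,1),(1,0)]⟩,⟨1,[(30,0),(0,0)]⟩⟩
  ⟨false,0,⟨2,[(1,0),(1,0),(0,1),(20,0)]⟩,⟨2,[(0,1),(1,0),(27,0),(7,0)]⟩⟩]⟩) (.Q [0,0,0,0,0,1,0,0,0,
  0,0,-1] (.ed true [1,-1,0,0,1] .k) (.R ⟨0,false,false,false,[1,0,-1],[1,-1,0,0,1],[1,1],(⟨0,[(33,
  0)]⟩,⟨0,[(34,0)]⟩),(⟨0,[(28,0),(7,0)]⟩,⟨0,[(0,0)]⟩),⟨0,[(23,0)]⟩,.k,(.r 0 ⟨1,[(9,0),(9,0)]⟩ ⟨1,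
  [(8,1),(34,0),(0,0)]⟩),.k,(.r (-1) ⟨5,[(7,0),(0,1),(4,3),(1,2),(15,1),(12,2)]⟩ ⟨2,[(9,0),(6,1),
  (21,0)]⟩),.k,.k,⟨true,0,⟨2,[(5,0),(1,1),(0,0),(4,1),(25,0)]⟩,⟨0,[(42,0)]⟩⟩,⟨false,0,⟨0,[(22,0),(3,
  0)]⟩,⟨3,[(3,0),(1,2),(0,0),(0,1),(9,2),(21,1),(2,0)]⟩⟩,⟨false,0,⟨7,[(7,1),(0,0),(7,2),(4,1)]⟩,⟨17,
  [(6,3),(6,5),(1,3),(9,2),(0,2),(4,3),(7,1),(4,10)]⟩⟩,⟨true,(-1),⟨1,[(1,1),(14,0),(5,3),(19,0)]⟩,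
  ⟨2,[(3,2),(1,3),(0,2),(0,4),(0,0),(4,1),(25,3)]⟩⟩,⟨false,0,⟨0,[]⟩,⟨0,[]⟩⟩,⟨false,0,⟨0,[]⟩,⟨0,[]⟩⟩,
  [.o ⟨false,(-1),⟨0,[(1,0),(20,0),(19,0)]⟩,⟨1,[(7,0),(7,0),(9,1),(18,0)]⟩⟩,.o ⟨false,0,⟨0,[(26,0),
  (15,0)]⟩,⟨2,[(3,2),(1,1),(0,1),(0,3),(2,0),(28,2)]⟩⟩,.a ⟨true,0,⟨3,[(5,1),(2,0),(4,1),(2,0)]⟩,⟨0,
  [(22,0)]⟩⟩ ⟨false,0,⟨0,[]⟩,⟨1,[(25,0),(0,0),(17,0)]⟩⟩ ⟨true,(-1),⟨0,[(1,0),(20,1),(19,0)]⟩,⟨5,[(3,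
  5),(1,3),(0,0),(0,1),(2,4),(28,2)]⟩⟩,.o ⟨false,0,⟨0,[(32,0)]⟩,⟨3,[(2,1),(14,1),(13,1),(3,0),(7,
  0)]⟩⟩]⟩) (.S ⟨1,0,[0,-1,1],[1,1,0,0,-1],[1,0,1,1],(⟨0,[(27,0),(9,0)]⟩,⟨0,[(0,0)]⟩),⟨0,[(27,0)]⟩,
  (.r (-1) ⟨1,[(8,1),(34,0),(0,0)]⟩ ⟨1,[(9,0),(9,0)]⟩),.k,⟨false,0,⟨0,[]⟩,⟨1,[(25,0),(0,0),(17,
  0)]⟩⟩,⟨true,0,⟨0,[(42,0)]⟩,⟨0,[(41,0)]⟩⟩,⟨true,0,⟨0,[(41,0)]⟩,⟨0,[(42,0)]⟩⟩,⟨false,1,⟨1,[(25,0),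
  (0,0),(17,0)]⟩,⟨0,[]⟩⟩,[.a ⟨true,1,⟨0,[(3,0)]⟩,⟨0,[(1,0),(20,0)]⟩⟩ ⟨true,0,⟨2,[(5,0),(1,1),(0,0),
  (4,1),(25,0)]⟩,⟨0,[(42,0)]⟩⟩ ⟨false,1,⟨1,[(25,0),(0,0),(17,0)]⟩,⟨5,[(9,0),(1,0),(26,1),(1,0)]⟩⟩,
  .o ⟨false,2,⟨0,[(25,0),(18,0)]⟩,⟨5,[(1,5),(4,2),(0,0),(6,2),(1,0),(14,1),(7,1)]⟩⟩,.o ⟨false,1,⟨0,
  [(17,0)]⟩,⟨1,[(4,0),(21,0),(12,0)]⟩⟩,.o ⟨false,1,⟨0,[(25,0)]⟩,⟨0,[(4,0)]⟩⟩]⟩))))) (.R ⟨0,false,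
  false,false,[1,-1],[0,0,0,0,1],[0,1,1],(⟨0,[(32,0)]⟩,⟨0,[(33,0)]⟩),(⟨0,[(24,0)]⟩,⟨0,[(23,0)]⟩),⟨0,
  [(19,0),(0,0)]⟩,.k,.k,(.r (-1) ⟨1,[(2,0),(5,0),(6,1),(24,0)]⟩ ⟨2,[(1,1),(1,3),(0,1),(4,3),(25,
  1)]⟩),(.r (-1) ⟨3,[(2,0),(5,0),(6,1),(24,2)]⟩ ⟨2,[(4,1),(29,0),(2,0)]⟩),.k,.k,⟨true,0,⟨1,[(27,0),
  (0,0)]⟩,⟨0,[]⟩⟩,⟨false,1,⟨3,[(2,0),(0,0),(3,1),(0,0),(2,0),(10,3),(8,0),(7,0)]⟩,⟨1,[(0,1),(26,0),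
  (0,0)]⟩⟩,⟨false,0,⟨0,[(4,0)]⟩,⟨0,[(8,0)]⟩⟩,⟨true,0,⟨0,[(6,0),(15,0)]⟩,⟨0,[(0,0),(37,0)]⟩⟩,⟨false,
  0,⟨0,[]⟩,⟨0,[]⟩⟩,⟨false,0,⟨0,[]⟩,⟨0,[]⟩⟩,[.o ⟨false,0,⟨4,[(5,1),(0,2),(5,0),(9,4),(12,1)]⟩,⟨1,[(0,
  1),(30,0),(8,0)]⟩⟩,.a ⟨true,0,⟨0,[(22,0)]⟩,⟨0,[(0,0)]⟩⟩ ⟨true,0,⟨1,[(27,0),(0,0)]⟩,⟨0,[]⟩⟩ ⟨false,
  1,⟨3,[(2,0),(0,0),(3,1),(0,0),(2,0),(10,3),(8,0),(7,0)]⟩,⟨1,[(0,1),(26,0),(0,0)]⟩⟩,.o ⟨false,0,⟨1,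
  [(27,0),(0,0)]⟩,⟨1,[(31,0),(7,0)]⟩⟩,.o ⟨false,0,⟨0,[(27,0),(0,0)]⟩,⟨3,[(2,0),(0,0),(3,1),(0,0),(2,
  0),(19,0),(7,0)]⟩⟩]⟩))))) (.Q [0,1,0,0,-1,0,1,0,1,-1,1,1] (.p true [0,0,1] [1,0,0,0,-1] (⟨0,[(26,
  0)]⟩,⟨0,[(25,0)]⟩) .k 2 (⟨0,[(19,0)]⟩,⟨0,[(20,0)]⟩) .k (.r 0 ⟨2,[(8,0),(2,0),(21,1)]⟩ ⟨1,[(5,1),
  (21,0),(8,0)]⟩)) (.R ⟨0,false,false,true,[0,0,1],[1,0,0,0,-1],[1],(⟨0,[(27,0)]⟩,⟨0,[(26,0)]⟩),(⟨0,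
  [(20,0)]⟩,⟨0,[(21,0)]⟩),⟨0,[(17,0)]⟩,.k,.k,.k,.k,.k,.k,⟨true,0,⟨0,[]⟩,⟨1,[(24,0),(0,0)]⟩⟩,⟨false,
  1,⟨0,[(14,0),(3,0)]⟩,⟨5,[(0,3),(18,1),(4,1),(3,0),(7,0),(0,1)]⟩⟩,⟨false,1,⟨1,[(6,1),(21,0),(8,
  0)]⟩,⟨1,[(4,0),(6,0),(13,0)]⟩⟩,⟨true,1,⟨0,[(6,0),(3,0),(14,0)]⟩,⟨1,[(0,1),(3,0),(6,0),(13,0)]⟩⟩,
  ⟨false,0,⟨0,[]⟩,⟨0,[]⟩⟩,⟨false,0,⟨0,[]⟩,⟨0,[]⟩⟩,[.o ⟨false,1,⟨0,[(18,0)]⟩,⟨6,[(0,3),(0,0),(2,0),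
  (3,0),(10,2),(5,2),(2,0),(8,1)]⟩⟩,.e ⟨false,1,⟨1,[(36,0),(0,0)]⟩,⟨0,[(39,0)]⟩⟩ ⟨false,2,⟨1,[(14,
  1),(3,2),(0,0),(17,0)]⟩,⟨0,[(0,0)]⟩⟩,.e ⟨true,0,⟨0,[]⟩,⟨0,[(39,0)]⟩⟩ ⟨true,1,⟨1,[(14,1),(3,1),(5,
  0),(0,0)]⟩,⟨0,[(0,0)]⟩⟩,.a ⟨true,0,⟨0,[(24,0)]⟩,⟨0,[(14,0)]⟩⟩ ⟨false,1,⟨1,[(36,0),(0,0)]⟩,⟨1,[(24,
  0),(0,0)]⟩⟩ ⟨true,1,⟨0,[(14,0),(3,0)]⟩,⟨1,[(0,1),(23,0),(0,0)]⟩⟩]⟩) (.Q [0,-1,0,-1,0,0,1,1,-1,1,1,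
  -1] (.p true [1,-1,1] [0,0,0,0,1] (⟨0,[(27,0),(1,0)]⟩,⟨0,[(17,0)]⟩) .k 2 (⟨0,[(21,0)]⟩,⟨0,[(20,
  0)]⟩) .k (.r (-1) ⟨8,[(0,2),(6,1),(0,0),(0,2),(9,2),(2,1),(14,4)]⟩ ⟨3,[(2,0),(0,0),(2,0),(16,1),
  (0,1)]⟩)) (.Q [0,0,0,0,0,0,0,0,-1,1,0,-1] (.p false [0,0,0,0,1] [1] (⟨0,[(22,0)]⟩,⟨0,[(21,0)]⟩)
  .k 1 (⟨0,[]⟩,⟨0,[]⟩) .k .k) (.R ⟨0,false,false,true,[0,1,-1],[1,0,0,0,-1],[1],(⟨0,[(19,0)]⟩,⟨0,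
  [(29,0),(1,0)]⟩),(⟨0,[(22,0)]⟩,⟨0,[(23,0)]⟩),⟨0,[(29,0)]⟩,.k,.k,.k,(.r 0 ⟨1,[(5,0),(2,1),(25,0),
  (1,0)]⟩ ⟨5,[(7,1),(3,1),(2,1),(23,0),(0,2)]⟩),.k,.k,⟨true,0,⟨0,[]⟩,⟨1,[(26,0),(0,0)]⟩⟩,⟨false,0,
  ⟨0,[(0,0),(16,0)]⟩,⟨0,[(16,0),(4,0),(8,0)]⟩⟩,⟨true,0,⟨1,[(3,0),(7,0)]⟩,⟨1,[(5,0),(2,1),(25,0),(1,
  0)]⟩⟩,⟨false,0,⟨0,[(1,0)]⟩,⟨0,[(10,0),(10,0)]⟩⟩,⟨false,0,⟨0,[]⟩,⟨0,[]⟩⟩,⟨false,0,⟨0,[]⟩,⟨0,[]⟩⟩,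
  [.a ⟨true,0,⟨0,[(0,0)]⟩,⟨0,[(21,0)]⟩⟩ ⟨true,0,⟨0,[]⟩,⟨1,[(26,0),(0,0)]⟩⟩ ⟨false,0,⟨0,[(0,0),(16,
  0)]⟩,⟨0,[(16,0),(4,0),(8,0)]⟩⟩,.o ⟨false,1,⟨0,[(1,0),(8,0)]⟩,⟨4,[(4,1),(0,2),(5,0),(9,4),(12,
  1)]⟩⟩,.o ⟨false,1,⟨0,[(16,0),(13,0)]⟩,⟨0,[(26,0)]⟩⟩,.o ⟨false,1,⟨4,[(7,0),(2,2),(0,0),(2,0),(12,
  1),(2,0)]⟩,⟨0,[(17,0)]⟩⟩]⟩) (.R ⟨2,true,false,true,[0,1],[1,0,0,0,-1],[1,1,1,1],(⟨0,[]⟩,⟨0,[]⟩),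
  (⟨0,[(22,0)]⟩,⟨0,[(23,0)]⟩),⟨0,[]⟩,.k,.k,.k,(.r 0 ⟨1,[(26,0),(0,0),(8,1)]⟩ ⟨3,[(7,1),(12,0),(0,0),
  (15,1),(1,0)]⟩),.k,.k,⟨false,0,⟨0,[(36,0)]⟩,⟨3,[(7,1),(12,0),(0,0),(15,1),(1,0)]⟩⟩,⟨true,0,⟨0,[(1,
  0),(3,0),(2,0),(18,0)]⟩,⟨0,[(0,0)]⟩⟩,⟨false,0,⟨0,[]⟩,⟨1,[(20,0),(0,0),(17,0)]⟩⟩,⟨true,0,⟨0,[(1,0),
  (23,0)]⟩,⟨0,[(5,0),(15,0)]⟩⟩,⟨true,0,⟨0,[(36,0)]⟩,⟨0,[(37,0)]⟩⟩,⟨false,1,⟨3,[(1,0),(0,1),(5,0),(3,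
  0),(13,0),(9,0),(2,0)]⟩,⟨0,[(0,0)]⟩⟩,[]⟩)) (.I [1,0,0,1,0,0,0,2] (.Q [0,-1,0,1,1,0,1,1,0,-2,1]
  (.p true [-1,1,1] [1] (⟨0,[(18,0)]⟩,⟨0,[(28,0),(2,0)]⟩) .k 1 (⟨0,[]⟩,⟨0,[]⟩) .k .k) (.R ⟨0,false,
  false,false,[1,0,-1],[-1,1,1],[0,0,2,1,0,0,0,1],(⟨0,[(29,0)]⟩,⟨0,[(30,0)]⟩),(⟨0,[(19,0)]⟩,⟨0,[(29,
  0),(2,0)]⟩),⟨0,[(19,0)]⟩,.k,.k,.k,(.r (-1) ⟨1,[(5,0),(2,0),(0,2),(21,0),(3,0)]⟩ ⟨1,[(1,1),(25,0),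
  (0,0)]⟩),.k,.k,⟨true,0,⟨1,[(27,0),(0,0)]⟩,⟨0,[]⟩⟩,⟨false,1,⟨0,[(0,0),(4,0),(12,0)]⟩,⟨7,[(1,2),(7,
  11),(2,2),(4,3),(10,11)]⟩⟩,⟨true,0,⟨0,[(1,0),(25,0),(0,0)]⟩,⟨0,[(4,1),(1,0),(2,1),(25,0)]⟩⟩,
  ⟨false,1,⟨0,[(0,0),(13,0)]⟩,⟨0,[(4,0),(4,1),(18,1)]⟩⟩,⟨false,0,⟨0,[]⟩,⟨0,[]⟩⟩,⟨false,0,⟨0,[]⟩,⟨0,
  []⟩⟩,[.o ⟨false,1,⟨4,[(0,2),(9,0),(0,0),(13,1),(5,0)]⟩,⟨1,[(4,0),(4,1),(18,1),(9,0)]⟩⟩,.o ⟨false,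
  1,⟨0,[(0,0)]⟩,⟨4,[(9,3),(5,1),(1,0),(8,2),(1,0),(9,2)]⟩⟩,.a ⟨true,0,⟨7,[(1,0),(7,3),(2,0),(4,3),
  (10,3)]⟩,⟨0,[(18,0)]⟩⟩ ⟨true,0,⟨0,[(1,0),(7,0),(25,0)]⟩,⟨0,[(5,0)]⟩⟩ ⟨false,1,⟨0,[(0,0),(17,0)]⟩,
  ⟨0,[(9,0),(7,0),(10,0),(9,0)]⟩⟩,.o ⟨false,0,⟨0,[(28,0)]⟩,⟨5,[(0,1),(4,1),(21,3),(3,0),(7,2)]⟩⟩]⟩)
  (.I [1,0,-1,-1,0,0,0,-1] (.Q [0,-1,0,-1,0,0,-2,-1,0,2,-2] (.p false [0,0,1] [2,-1,-1] (⟨0,[(31,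
  0)]⟩,⟨0,[(30,0)]⟩) .k 2 (⟨0,[(30,0),(2,0)]⟩,⟨0,[(20,0)]⟩) .k (.r 0 ⟨0,[(1,1),(5,1),(0,3),(10,1),
  (16,1),(4,1)]⟩ ⟨0,[(10,1),(21,0)]⟩)) (.R ⟨0,false,false,false,[0,0,1],[2,-1,-1],[1,0,-1,-1,0,0,0,
  -1],(⟨0,[(32,0)]⟩,⟨0,[(31,0)]⟩),(⟨0,[(31,0),(2,0)]⟩,⟨0,[(21,0)]⟩),⟨0,[(22,0)]⟩,.k,.k,.k,(.r 0 ⟨1,
  [(3,1),(25,0),(0,0)]⟩ ⟨4,[(0,0),(0,0),(5,1),(2,0),(0,5),(17,1),(3,3)]⟩),.k,.k,⟨true,0,⟨0,[]⟩,⟨1,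
  [(29,0),(0,0)]⟩⟩,⟨false,0,⟨4,[(0,4),(2,1),(13,0),(21,3)]⟩,⟨1,[(1,1),(10,1),(7,1),(12,0),(8,0)]⟩⟩,
  ⟨false,1,⟨1,[(1,1),(9,1),(21,0),(8,0)]⟩,⟨1,[(3,1),(25,0),(0,0)]⟩⟩,⟨true,0,⟨5,[(0,4),(6,0),(3,1),
  (16,3),(0,1)]⟩,⟨0,[(8,0),(0,1),(10,1),(16,0)]⟩⟩,⟨false,0,⟨0,[]⟩,⟨0,[]⟩⟩,⟨false,0,⟨0,[]⟩,⟨0,[]⟩⟩,
  [.o ⟨false,0,⟨11,[(0,6),(6,3),(9,0),(10,1),(0,3),(7,1)]⟩,⟨1,[(12,1),(20,0),(8,0)]⟩⟩,.a ⟨true,0,⟨0,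
  [(2,0),(39,0)]⟩,⟨0,[(12,0)]⟩⟩ ⟨false,1,⟨0,[(7,0),(34,0)]⟩,⟨2,[(3,0),(23,0),(1,0),(0,1),(8,1)]⟩⟩
  ⟨true,0,⟨0,[(0,0)]⟩,⟨0,[(8,0),(0,0),(10,1),(16,0)]⟩⟩,.a ⟨true,0,⟨0,[(20,0)]⟩,⟨9,[(0,4),(2,1),(13,
  0),(21,3)]⟩⟩ ⟨true,0,⟨0,[(1,0)]⟩,⟨2,[(3,0),(23,0),(1,0),(0,1),(8,1)]⟩⟩ ⟨false,0,⟨0,[(0,0)]⟩,⟨1,
  [(12,1),(7,1),(12,0),(8,0)]⟩⟩,.a ⟨true,0,⟨0,[(29,0)]⟩,⟨0,[(19,0)]⟩⟩ ⟨false,1,⟨0,[(7,0),(34,0)]⟩,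
  ⟨0,[(3,0),(7,0),(25,0)]⟩⟩ ⟨true,0,⟨5,[(0,4),(6,0),(11,1),(16,1)]⟩,⟨0,[(8,0),(0,0),(10,1),(16,
  0)]⟩⟩]⟩) (.R ⟨0,false,false,false,[0,0,1],[2,-1,-1],[1,0,-1,-1,0,0,0,-1],(⟨0,[(32,0)]⟩,⟨0,[(31,
  0)]⟩),(⟨0,[(31,0),(2,0)]⟩,⟨0,[(21,0)]⟩),⟨0,[(22,0)]⟩,.k,.k,.k,(.r 0 ⟨1,[(3,1),(25,0),(0,0)]⟩ ⟨8,
  [(1,2),(0,1),(4,0),(2,2),(0,11),(17,1),(3,7)]⟩),.k,.k,⟨true,0,⟨0,[]⟩,⟨1,[(29,0),(0,0)]⟩⟩,⟨false,0,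
  ⟨3,[(2,2),(0,1),(0,0),(0,1),(13,0),(4,0),(5,0),(11,0)]⟩,⟨3,[(0,2),(6,2),(21,1),(3,0),(8,2)]⟩⟩,
  ⟨false,1,⟨1,[(1,1),(9,1),(21,0),(8,0)]⟩,⟨1,[(3,1),(25,0),(0,0)]⟩⟩,⟨true,0,⟨4,[(2,6),(7,0),(2,2),
  (23,0),(4,2)]⟩,⟨3,[(0,3),(2,0),(10,0)]⟩⟩,⟨false,0,⟨0,[]⟩,⟨0,[]⟩⟩,⟨false,0,⟨0,[]⟩,⟨0,[]⟩⟩,[.o
  ⟨false,0,⟨4,[(2,3),(7,1),(2,0),(23,1),(4,0)]⟩,⟨1,[(12,1),(20,0),(8,0)]⟩⟩,.e ⟨false,1,⟨0,[(7,0),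
  (34,0)]⟩,⟨2,[(3,0),(23,0),(1,0),(0,1),(8,1)]⟩⟩ ⟨false,1,⟨6,[(2,4),(1,1),(0,5),(4,3),(13,3),(5,0),
  (11,1)]⟩,⟨0,[(0,0)]⟩⟩,.e ⟨true,0,⟨0,[(1,0)]⟩,⟨2,[(3,0),(23,0),(1,0),(0,1),(8,1)]⟩⟩ ⟨true,0,⟨6,[(2,
  5),(1,0),(0,2),(4,1),(13,1),(5,3),(11,0)]⟩,⟨0,[(0,0)]⟩⟩,.a ⟨true,0,⟨0,[(29,0)]⟩,⟨0,[(19,0)]⟩⟩
  ⟨false,1,⟨0,[(7,0),(34,0)]⟩,⟨0,[(3,0),(7,0),(25,0)]⟩⟩ ⟨true,0,⟨4,[(2,3),(7,1),(2,0),(5,2),(10,1),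
  (11,0)]⟩,⟨2,[(0,1),(11,0),(16,0),(7,0)]⟩⟩]⟩)) (.Q [0,-1,0,-1,0,0,-2,-1,0,2,-2] (.p false [0,0,1]
  [2,-1,-1] (⟨0,[(31,0)]⟩,⟨0,[(30,0)]⟩) .k 2 (⟨0,[(30,0),(2,0)]⟩,⟨0,[(20,0)]⟩) .k (.r 0 ⟨0,[(1,1),
  (5,1),(0,3),(10,1),(16,1),(4,1)]⟩ ⟨0,[(10,1),(21,0)]⟩)) (.R ⟨0,false,false,false,[0,0,1],[2,-1,
  -1],[0,0,0,-1,0,0,0,-1],(⟨0,[(32,0)]⟩,⟨0,[(31,0)]⟩),(⟨0,[(31,0),(2,0)]⟩,⟨0,[(21,0)]⟩),⟨0,[(22,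
  0)]⟩,.k,.k,.k,(.r 0 ⟨3,[(1,3),(1,0),(10,0)]⟩ ⟨3,[(0,0),(6,2),(3,3),(17,1),(3,2),(8,0)]⟩),.k,.k,
  ⟨true,0,⟨1,[(29,0),(0,0)]⟩,⟨0,[]⟩⟩,⟨false,0,⟨4,[(0,4),(2,1),(13,0),(21,3)]⟩,⟨3,[(6,1),(1,1),(11,
  7),(12,2),(8,0)]⟩⟩,⟨false,1,⟨0,[(7,0),(3,0),(25,0),(4,0)]⟩,⟨0,[(3,0)]⟩⟩,⟨true,0,⟨5,[(0,4),(6,0),
  (3,1),(16,3),(0,1)]⟩,⟨0,[(8,0),(0,1),(10,1),(16,0)]⟩⟩,⟨false,0,⟨0,[]⟩,⟨0,[]⟩⟩,⟨false,0,⟨0,[]⟩,⟨0,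
  []⟩⟩,[.o ⟨false,0,⟨11,[(0,6),(6,3),(9,0),(10,1),(0,3),(7,1)]⟩,⟨1,[(12,1),(20,0),(8,0)]⟩⟩,.a ⟨true,
  0,⟨0,[(2,0),(39,0)]⟩,⟨0,[(12,0)]⟩⟩ ⟨false,1,⟨3,[(0,0),(6,2),(21,1),(3,0),(8,2)]⟩,⟨4,[(3,1),(13,0),
  (21,3)]⟩⟩ ⟨true,0,⟨0,[(0,0)]⟩,⟨0,[(8,0),(0,0),(10,1),(16,0)]⟩⟩,.a ⟨true,0,⟨0,[(20,0)]⟩,⟨9,[(0,4),
  (2,1),(13,0),(21,3)]⟩⟩ ⟨true,0,⟨0,[(6,0),(4,0),(25,0)]⟩,⟨4,[(3,1),(13,0),(21,3)]⟩⟩ ⟨false,0,⟨0,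
  [(0,0)]⟩,⟨1,[(12,1),(7,1),(12,0),(8,0)]⟩⟩,.a ⟨true,0,⟨0,[(29,0)]⟩,⟨0,[(19,0)]⟩⟩ ⟨false,1,⟨3,[(0,
  0),(6,2),(21,1),(3,0),(8,2)]⟩,⟨0,[(1,0)]⟩⟩ ⟨true,0,⟨5,[(0,4),(6,0),(11,1),(16,1)]⟩,⟨0,[(8,0),(0,
  0),(10,1),(16,0)]⟩⟩]⟩) (.R ⟨0,false,false,false,[0,0,1],[2,-1,-1],[0,0,0,-1,0,0,0,-1],(⟨0,[(32,
  0)]⟩,⟨0,[(31,0)]⟩),(⟨0,[(31,0),(2,0)]⟩,⟨0,[(21,0)]⟩),⟨0,[(22,0)]⟩,.k,.k,.k,(.r 0 ⟨3,[(1,3),(1,0),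
  (10,0)]⟩ ⟨1,[(7,0),(2,0),(0,2),(21,0),(3,0)]⟩),.k,.k,⟨true,0,⟨1,[(29,0),(0,0)]⟩,⟨0,[]⟩⟩,⟨false,0,
  ⟨4,[(1,1),(0,1),(2,1),(13,3),(4,1),(5,1)]⟩,⟨3,[(0,2),(6,2),(21,1),(3,0),(8,2)]⟩⟩,⟨false,1,⟨0,[(7,
  0),(3,0),(25,0),(4,0)]⟩,⟨0,[(3,0)]⟩⟩,⟨true,0,⟨4,[(2,6),(7,0),(2,2),(23,0),(4,2)]⟩,⟨3,[(0,3),(2,0),
  (10,0)]⟩⟩,⟨false,0,⟨0,[]⟩,⟨0,[]⟩⟩,⟨false,0,⟨0,[]⟩,⟨0,[]⟩⟩,[.o ⟨false,0,⟨4,[(2,3),(7,1),(2,0),(23,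
  1),(4,0)]⟩,⟨1,[(12,1),(20,0),(8,0)]⟩⟩,.e ⟨false,1,⟨1,[(7,0),(2,0),(0,0),(25,0),(4,0)]⟩,⟨4,[(3,1),
  (13,0),(21,3)]⟩⟩ ⟨false,1,⟨6,[(2,4),(1,1),(0,5),(4,3),(13,3),(5,0),(11,1)]⟩,⟨0,[(0,0)]⟩⟩,.e ⟨true,
  0,⟨0,[(6,0),(4,0),(25,0)]⟩,⟨4,[(3,1),(13,0),(21,3)]⟩⟩ ⟨true,0,⟨6,[(2,5),(1,0),(0,2),(4,1),(13,1),
  (5,3),(11,0)]⟩,⟨0,[(0,0)]⟩⟩,.a ⟨true,0,⟨0,[(29,0)]⟩,⟨0,[(19,0)]⟩⟩ ⟨false,1,⟨1,[(7,0),(2,0),(0,0),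
  (25,0),(4,0)]⟩,⟨0,[(1,0)]⟩⟩ ⟨true,0,⟨4,[(2,3),(7,1),(2,0),(5,2),(10,1),(11,0)]⟩,⟨2,[(0,1),(11,0),
  (16,0),(7,0)]⟩⟩]⟩)))) (.Q [0,0,0,0,0,0,0,0,1,-1,0,1] (.p true [0,0,0,0,1] [1] (⟨0,[(23,0)]⟩,⟨0,
  [(22,0)]⟩) .k 1 (⟨0,[]⟩,⟨0,[]⟩) .k .k) (.Q [0,1,1,0,-1,0,1,0,1,-1,1,1] (.p true [0,0,1] [1,0,0,0,
  -1] (⟨0,[(30,0)]⟩,⟨0,[(29,0)]⟩) .k 2 (⟨0,[(23,0)]⟩,⟨0,[(24,0)]⟩) .k (.r 0 ⟨2,[(12,0),(2,0),(21,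
  1)]⟩ ⟨7,[(1,1),(7,1),(1,1),(9,0),(0,0),(4,1),(11,0),(0,3)]⟩)) (.R ⟨0,false,false,true,[0,0,1],[1,
  0,0,0,-1],[1],(⟨0,[(31,0)]⟩,⟨0,[(30,0)]⟩),(⟨0,[(24,0)]⟩,⟨0,[(25,0)]⟩),⟨0,[(21,0)]⟩,.k,.k,.k,.k,.k,
  .k,⟨true,0,⟨0,[]⟩,⟨1,[(28,0),(0,0)]⟩⟩,⟨false,1,⟨2,[(4,1),(9,0),(3,0),(16,0)]⟩,⟨0,[(1,0),(17,0)]⟩⟩,
  ⟨false,1,⟨7,[(2,1),(7,1),(1,1),(9,0),(0,0),(4,1),(11,0),(0,3)]⟩,⟨1,[(8,0),(6,0),(13,0)]⟩⟩,⟨true,1,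
  ⟨1,[(4,0),(5,0),(11,0),(4,0)]⟩,⟨0,[(0,0),(7,0)]⟩⟩,⟨false,0,⟨0,[]⟩,⟨0,[]⟩⟩,⟨false,0,⟨0,[]⟩,⟨0,[]⟩⟩,
  [.o ⟨false,1,⟨0,[(22,0)]⟩,⟨0,[(1,0)]⟩⟩,.a ⟨true,1,⟨0,[(4,0),(14,0)]⟩,⟨0,[(0,0),(17,0)]⟩⟩ ⟨false,1,
  ⟨1,[(40,0),(0,0)]⟩,⟨0,[(43,0)]⟩⟩ ⟨true,1,⟨0,[(4,0)]⟩,⟨0,[(0,0)]⟩⟩,.a ⟨true,0,⟨0,[(19,0)]⟩,⟨1,[(18,
  1),(9,0),(0,0)]⟩⟩ ⟨true,0,⟨0,[]⟩,⟨0,[(43,0)]⟩⟩ ⟨false,1,⟨0,[(4,0)]⟩,⟨0,[(1,0),(17,0)]⟩⟩,.a ⟨true,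
  0,⟨0,[(28,0)]⟩,⟨0,[(18,0)]⟩⟩ ⟨false,1,⟨1,[(40,0),(0,0)]⟩,⟨1,[(28,0),(0,0)]⟩⟩ ⟨true,1,⟨2,[(4,1),(9,
  0),(3,0),(16,0)]⟩,⟨0,[(0,0)]⟩⟩]⟩) (.Q [0,0,-1,0,0,0,1,0,1,-1,1,1] (.p true [0,0,1] [1,0,0,0,-1]
  (⟨0,[(31,0)]⟩,⟨0,[(30,0)]⟩) .k 2 (⟨0,[(24,0)]⟩,⟨0,[(25,0)]⟩) .k (.r 0 ⟨2,[(13,0),(2,0),(21,1)]⟩
  ⟨7,[(2,1),(7,1),(1,1),(9,0),(0,0),(4,1),(11,0),(0,3)]⟩)) (.Q [0,-1,0,0,1,0,-1,-1,-1,1,-1,-1] (.p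
  false [0,0,1] [1,0,0,0,-1] (⟨0,[(32,0)]⟩,⟨0,[(31,0)]⟩) .k 2 (⟨0,[(25,0)]⟩,⟨0,[(26,0)]⟩) .k (.r 0
  ⟨2,[(14,0),(2,0),(21,1)]⟩ ⟨7,[(3,1),(7,1),(1,1),(9,0),(0,0),(4,1),(11,0),(0,3)]⟩)) (.Q [0,0,1,0,0,
  0,2,0,0,-1,2] (.p true [0,0,1] [1,0,-1] (⟨0,[(33,0)]⟩,⟨0,[(32,0)]⟩) .k 2 (⟨0,[(32,0)]⟩,⟨0,[(33,
  0)]⟩) .k (.r 0 ⟨0,[(10,0),(6,0),(13,0)]⟩ ⟨9,[(0,1),(3,4),(7,2),(1,4),(10,1),(4,6),(6,0),(4,2)]⟩))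
  (.R ⟨0,false,false,true,[0,0,1],[1,0,-1],[1],(⟨0,[(34,0)]⟩,⟨0,[(33,0)]⟩),(⟨0,[(33,0)]⟩,⟨0,[(34,
  0)]⟩),⟨0,[(24,0)]⟩,.k,.k,.k,.k,.k,.k,⟨false,1,⟨2,[(11,0),(4,0),(24,0),(1,0),(0,1)]⟩,⟨4,[(5,1),(24,
  0),(0,0),(6,0),(2,1)]⟩⟩,⟨true,0,⟨0,[(21,0),(10,0)]⟩,⟨0,[(0,0)]⟩⟩,⟨false,1,⟨15,[(1,1),(3,3),(7,1),
  (1,3),(10,1),(4,5),(11,2),(0,6)]⟩,⟨1,[(11,0),(6,0),(13,0)]⟩⟩,⟨true,0,⟨2,[(5,0),(4,0),(2,1),(7,1),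
  (8,1),(1,1)]⟩,⟨2,[(0,1),(10,3),(6,1),(20,0)]⟩⟩,⟨false,0,⟨0,[]⟩,⟨0,[]⟩⟩,⟨false,0,⟨0,[]⟩,⟨0,[]⟩⟩,
  [.o ⟨false,0,⟨0,[(30,0)]⟩,⟨15,[(0,3),(11,1),(1,5),(1,3),(12,1),(5,2),(8,10)]⟩⟩,.e ⟨false,1,⟨1,
  [(43,0),(0,0)]⟩,⟨0,[(46,0)]⟩⟩ ⟨false,1,⟨10,[(1,8),(4,4),(5,0),(6,3),(1,6),(4,3),(3,0),(12,0)]⟩,⟨0,
  [(0,0),(10,0)]⟩⟩,.e ⟨true,0,⟨0,[]⟩,⟨0,[(46,0)]⟩⟩ ⟨true,0,⟨7,[(13,2),(5,0),(1,4),(8,5),(1,4),(8,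
  0)]⟩,⟨0,[(0,0),(10,0)]⟩⟩,.a ⟨true,0,⟨0,[(31,0)]⟩,⟨0,[(21,0)]⟩⟩ ⟨false,1,⟨1,[(43,0),(0,0)]⟩,⟨1,
  [(31,0),(0,0)]⟩⟩ ⟨true,0,⟨0,[(21,0),(8,0)]⟩,⟨2,[(0,1),(10,0),(6,1),(20,0)]⟩⟩]⟩) (.Q [0,-1,0,0,1,0,
  0,0,-1,0,0,-1] (.p false [0,0,0,0,1] [] (⟨0,[(28,0)]⟩,⟨0,[(27,0)]⟩) .k 0 (⟨0,[]⟩,⟨0,[]⟩) .k .k)
  (.R ⟨0,false,false,true,[1,0,-1],[1,0,0,0,-1],[1],(⟨0,[(34,0)]⟩,⟨0,[(35,0)]⟩),(⟨0,[(28,0)]⟩,⟨0,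
  [(29,0)]⟩),⟨0,[(24,0)]⟩,.k,.k,.k,.k,.k,.k,⟨true,0,⟨0,[]⟩,⟨1,[(32,0),(0,0)]⟩⟩,⟨false,1,⟨0,[(18,0),
  (4,0)]⟩,⟨2,[(1,0),(3,0),(21,1),(5,0)]⟩⟩,⟨true,0,⟨1,[(12,0),(6,0),(13,0)]⟩,⟨4,[(6,1),(24,0),(0,0),
  (6,0),(2,1)]⟩⟩,⟨false,1,⟨0,[(0,0),(18,0)]⟩,⟨0,[(1,0),(1,0),(10,0),(25,0)]⟩⟩,⟨false,0,⟨0,[]⟩,⟨0,
  []⟩⟩,⟨false,0,⟨0,[]⟩,⟨0,[]⟩⟩,[.o ⟨false,1,⟨0,[(26,0)]⟩,⟨0,[(5,0)]⟩⟩,.o ⟨false,1,⟨0,[(0,0)]⟩,⟨3,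
  [(3,0),(1,0),(1,1),(12,1),(11,0)]⟩⟩,.a ⟨true,0,⟨1,[(22,1),(9,0),(0,0)]⟩,⟨0,[(23,0)]⟩⟩ ⟨true,0,⟨0,
  []⟩,⟨0,[(47,0)]⟩⟩ ⟨false,1,⟨0,[(0,0),(22,0)]⟩,⟨2,[(1,0),(3,0),(21,1),(5,0)]⟩⟩,.o ⟨false,0,⟨0,[(33,
  0)]⟩,⟨3,[(3,1),(14,1),(13,1),(3,0),(7,0)]⟩⟩]⟩) (.Q [0,0,0,0,0,-1,0,0,0,0,0,1] (.ed false [1,-1,0,
  0,1] .k) (.R ⟨2,true,false,true,[0,1],[1,1,0,0,-1],[0,0,2,1],(⟨0,[]⟩,⟨0,[]⟩),(⟨0,[(29,0),(9,0)]⟩,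
  ⟨0,[(0,0)]⟩),⟨0,[]⟩,.k,(.r (-1) ⟨1,[(33,0),(0,0),(8,1),(2,1)]⟩ ⟨1,[(11,0),(9,0)]⟩),.k,.k,(.r 0 ⟨1,
  [(11,0),(9,0)]⟩ ⟨1,[(33,0),(0,0),(8,1),(2,1)]⟩),.k,⟨true,0,⟨1,[(33,0),(0,0)]⟩,⟨0,[]⟩⟩,⟨false,1,⟨1,
  [(5,0),(9,0),(3,0),(11,0)]⟩,⟨0,[(6,0)]⟩⟩,⟨true,0,⟨1,[(33,0),(0,0)]⟩,⟨5,[(11,0),(1,0),(26,1),(1,
  0)]⟩⟩,⟨false,1,⟨0,[(9,0),(14,0)]⟩,⟨0,[(6,0)]⟩⟩,⟨false,1,⟨1,[(33,0),(0,0),(8,1),(2,1)]⟩,⟨3,[(7,0),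
  (2,1),(7,0)]⟩⟩,⟨true,1,⟨0,[(9,0),(14,0),(18,0)]⟩,⟨0,[(1,0),(8,0),(30,0)]⟩⟩,[]⟩) (.R ⟨0,false,
  false,false,[1,0,-1],[1,-1,0,0,1],[1,1,-1,-1],(⟨0,[(35,0)]⟩,⟨0,[(36,0)]⟩),(⟨0,[(30,0),(7,0)]⟩,⟨0,
  [(0,0)]⟩),⟨0,[(25,0)]⟩,.k,(.r 0 ⟨1,[(11,0),(9,0)]⟩ ⟨1,[(33,0),(0,0),(8,1),(2,1)]⟩),.k,(.r (-1) ⟨1,
  [(12,0),(2,1),(25,0),(1,0),(2,1)]⟩ ⟨2,[(11,0),(6,1),(21,0)]⟩),.k,.k,⟨true,0,⟨0,[]⟩,⟨1,[(33,0),(0,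
  0)]⟩⟩,⟨false,0,⟨0,[(24,0),(3,0)]⟩,⟨4,[(2,1),(2,0),(4,0),(1,0),(6,3),(21,1)]⟩⟩,⟨false,0,⟨1,[(10,0),
  (7,0)]⟩,⟨1,[(12,0),(2,1),(25,0),(1,0),(2,1)]⟩⟩,⟨true,(-1),⟨1,[(1,1),(8,0),(7,0),(14,1)]⟩,⟨0,[(3,
  0),(8,0)]⟩⟩,⟨false,0,⟨0,[]⟩,⟨0,[]⟩⟩,⟨false,0,⟨0,[]⟩,⟨0,[]⟩⟩,[.o ⟨false,(-1),⟨1,[(1,1),(5,0),(10,
  0)]⟩,⟨1,[(3,1),(12,1),(20,0),(8,0)]⟩⟩,.e ⟨false,0,⟨0,[(10,0)]⟩,⟨3,[(9,1),(7,0),(10,1),(2,0),(1,1),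
  (7,0),(1,2),(2,0)]⟩⟩ ⟨false,0,⟨0,[(1,0),(12,0),(18,0)]⟩,⟨0,[(9,0),(2,0)]⟩⟩,.a ⟨true,0,⟨1,[(23,1),
  (9,0),(0,0)]⟩,⟨0,[(24,0)]⟩⟩ ⟨false,0,⟨3,[(7,0),(2,1),(7,0)]⟩,⟨1,[(33,0),(0,0),(8,1),(2,1)]⟩⟩
  ⟨true,(-1),⟨3,[(1,3),(5,0),(2,1),(7,0),(14,3)]⟩,⟨0,[(9,0),(2,0)]⟩⟩,.o ⟨false,0,⟨0,[(34,0)]⟩,⟨3,
  [(4,1),(14,1),(13,1),(3,0),(7,0)]⟩⟩]⟩)))) (.R ⟨0,false,false,true,[0,0,1],[1,0,0,0,-1],[1],(⟨0,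
  [(33,0)]⟩,⟨0,[(32,0)]⟩),(⟨0,[(26,0)]⟩,⟨0,[(27,0)]⟩),⟨0,[(23,0)]⟩,.k,.k,.k,.k,.k,.k,⟨true,0,⟨0,[]⟩,
  ⟨1,[(30,0),(0,0)]⟩⟩,⟨false,1,⟨1,[(2,0),(3,0),(30,0)]⟩,⟨1,[(1,0),(1,0),(26,0)]⟩⟩,⟨false,1,⟨7,[(4,
  1),(7,1),(1,1),(9,0),(0,0),(4,1),(11,0),(0,3)]⟩,⟨1,[(10,0),(6,0),(13,0)]⟩⟩,⟨true,1,⟨1,[(6,0),(5,
  0),(11,0),(4,0)]⟩,⟨0,[(0,0)]⟩⟩,⟨false,0,⟨0,[]⟩,⟨0,[]⟩⟩,⟨false,0,⟨0,[]⟩,⟨0,[]⟩⟩,[.o ⟨false,1,⟨0,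
  [(24,0)]⟩,⟨0,[(3,0)]⟩⟩,.e ⟨false,1,⟨1,[(42,0),(0,0)]⟩,⟨0,[(45,0)]⟩⟩ ⟨false,1,⟨0,[(2,0)]⟩,⟨11,[(1,
  6),(2,0),(0,4),(12,3),(9,2),(1,6)]⟩⟩,.a ⟨true,0,⟨0,[(21,0)]⟩,⟨1,[(20,1),(9,0),(0,0)]⟩⟩ ⟨true,0,⟨0,
  []⟩,⟨0,[(45,0)]⟩⟩ ⟨false,1,⟨0,[(6,0)]⟩,⟨1,[(1,0),(1,0),(26,0)]⟩⟩,.e ⟨false,1,⟨1,[(42,0),(0,0)]⟩,
  ⟨1,[(30,0),(0,0)]⟩⟩ ⟨false,1,⟨0,[(2,0)]⟩,⟨0,[(3,0),(26,0)]⟩⟩]⟩)) (.R ⟨2,true,false,true,[0,1],[1,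
  0,0,0,-1],[1,1,1,1],(⟨0,[]⟩,⟨0,[]⟩),(⟨0,[(25,0)]⟩,⟨0,[(26,0)]⟩),⟨0,[]⟩,.k,.k,.k,(.r 0 ⟨3,[(0,0),
  (23,0),(4,0),(7,0),(1,3)]⟩ ⟨11,[(3,1),(6,5),(6,3),(5,0),(0,0),(17,4)]⟩),.k,.k,⟨false,0,⟨0,[(39,
  0)]⟩,⟨11,[(3,1),(6,5),(6,3),(5,0),(0,0),(17,4)]⟩⟩,⟨true,0,⟨0,[(0,0),(19,0)]⟩,⟨0,[(2,0)]⟩⟩,⟨false,
  0,⟨0,[]⟩,⟨1,[(23,0),(0,0),(17,0)]⟩⟩,⟨true,0,⟨0,[(0,0),(5,0),(22,0)]⟩,⟨1,[(4,0),(7,0),(11,0)]⟩⟩,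
  ⟨true,0,⟨0,[(39,0)]⟩,⟨0,[(40,0)]⟩⟩,⟨false,1,⟨0,[(1,0),(27,0)]⟩,⟨0,[(2,0)]⟩⟩,[]⟩))) (.Q [0,0,0,0,0,
  0,0,0,0,0,-1,1] (.ed false [1,0,-1,0,1] (.r 0 ⟨4,[(1,1),(24,0),(0,0),(6,0),(2,1)]⟩ ⟨8,[(3,2),(6,
  1),(0,0),(0,2),(9,2),(2,1),(14,4)]⟩)) (.R ⟨0,false,false,false,[1,0,0,0,-1],[1,0,1,0,-1],[1],(⟨0,
  [(24,0)]⟩,⟨0,[(25,0)]⟩),(⟨0,[(24,0),(6,0)]⟩,⟨0,[(0,0)]⟩),⟨0,[(0,0),(19,0)]⟩,.k,.k,(.r (-1) ⟨11,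
  [(2,1),(6,5),(6,3),(5,0),(0,0),(17,4)]⟩ ⟨1,[(28,0),(0,0),(8,1)]⟩),.k,.k,.k,⟨false,0,⟨2,[(2,0),(3,
  0),(30,0),(0,0)]⟩,⟨8,[(4,2),(6,1),(0,0),(0,2),(9,2),(2,1),(14,4)]⟩⟩,⟨true,0,⟨0,[(19,0)]⟩,⟨0,[(29,
  0)]⟩⟩,⟨false,0,⟨0,[]⟩,⟨1,[(22,0),(0,0),(17,0)]⟩⟩,⟨true,0,⟨0,[(15,0)]⟩,⟨0,[(27,0)]⟩⟩,⟨false,0,⟨0,
  []⟩,⟨0,[]⟩⟩,⟨false,0,⟨0,[]⟩,⟨0,[]⟩⟩,[.o ⟨false,1,⟨1,[(1,1),(13,1),(16,0),(8,0)]⟩,⟨1,[(2,0),(0,1),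
  (9,0)]⟩⟩,.e ⟨false,1,⟨1,[(40,0),(0,0)]⟩,⟨0,[(43,0)]⟩⟩ ⟨false,1,⟨0,[(8,0),(10,0),(21,0)]⟩,⟨0,[(27,
  0),(15,0)]⟩⟩,.a ⟨true,0,⟨0,[(1,0)]⟩,⟨0,[(23,0)]⟩⟩ ⟨true,0,⟨0,[]⟩,⟨0,[(43,0)]⟩⟩ ⟨false,1,⟨0,[(15,
  0),(25,0)]⟩,⟨0,[(27,0)]⟩⟩,.e ⟨false,1,⟨1,[(40,0),(0,0)]⟩,⟨1,[(28,0),(0,0)]⟩⟩ ⟨false,1,⟨0,[(8,0),
  (10,0),(21,0)]⟩,⟨1,[(27,1),(0,0),(0,0)]⟩⟩]⟩) (.R ⟨0,false,false,false,[0,0,0,0,1],[0,0,1,0,1],[1],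
  (⟨0,[(25,0)]⟩,⟨0,[(24,0)]⟩),(⟨0,[(25,0),(5,0)]⟩,⟨0,[(0,0),(16,0)]⟩),⟨0,[(0,0),(20,0)]⟩,.k,.k,(.r
  0 ⟨1,[(6,0),(9,0)]⟩ ⟨1,[(28,0),(0,0),(8,1),(2,1)]⟩),.k,.k,.k,⟨false,1,⟨3,[(2,1),(34,1),(2,0),(0,
  2)]⟩,⟨2,[(13,0),(2,0),(21,1)]⟩⟩,⟨true,0,⟨0,[(19,0)]⟩,⟨0,[(29,0)]⟩⟩,⟨false,1,⟨0,[(41,0)]⟩,⟨0,[(43,
  0)]⟩⟩,⟨true,0,⟨0,[(15,0)]⟩,⟨0,[(27,0)]⟩⟩,⟨false,0,⟨0,[]⟩,⟨0,[]⟩⟩,⟨false,0,⟨0,[]⟩,⟨0,[]⟩⟩,[.o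
  ⟨false,0,⟨6,[(5,0),(0,1),(4,4),(1,1),(9,6),(4,1),(7,1)]⟩,⟨1,[(1,1),(0,0),(2,0),(1,1),(21,1),(11,
  1)]⟩⟩,.e ⟨false,1,⟨1,[(40,0),(0,0)]⟩,⟨0,[(43,0)]⟩⟩ ⟨false,0,⟨0,[(8,0),(10,0)]⟩,⟨7,[(2,1),(1,2),(7,
  2),(3,0),(5,1),(0,4),(3,1)]⟩⟩,.a ⟨true,0,⟨0,[(23,0)]⟩,⟨0,[(1,0)]⟩⟩ ⟨true,0,⟨0,[]⟩,⟨0,[(43,0)]⟩⟩
  ⟨false,0,⟨0,[(15,0)]⟩,⟨9,[(2,2),(0,2),(0,3),(4,0),(2,0),(10,0),(5,1),(11,3)]⟩⟩,.e ⟨false,1,⟨1,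
  [(40,0),(0,0)]⟩,⟨1,[(28,0),(0,0)]⟩⟩ ⟨false,0,⟨0,[(8,0),(10,0)]⟩,⟨9,[(2,2),(0,2),(0,6),(5,0),(12,
  3),(12,4),(4,2)]⟩⟩]⟩))))))) (.Q [0,-1,0,-1,0,0,1,1,0,1,1] (.p true [1,-1,1] [] (⟨0,[(25,0),(1,
  0)]⟩,⟨0,[(15,0)]⟩) .k 0 (⟨0,[]⟩,⟨0,[]⟩) .k .k) (.Q [0,-1,0,-1,0,0,0,1,0,1] (.pp false [-1,1]) (.R
  ⟨0,false,false,true,[1,0,-1],[0,1,-1],[1,1,1,1,0,0,0,-1],(⟨0,[(26,0)]⟩,⟨0,[(27,0)]⟩),(⟨0,[(17,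
  0)]⟩,⟨0,[(27,0),(1,0)]⟩),⟨0,[(16,0)]⟩,.k,.k,.k,.k,.k,.k,⟨true,0,⟨0,[]⟩,⟨1,[(24,0),(0,0)]⟩⟩,⟨false,
  1,⟨0,[(3,0),(1,0)]⟩,⟨1,[(2,0),(3,1),(5,0)]⟩⟩,⟨false,0,⟨1,[(2,0),(0,0),(2,0)]⟩,⟨3,[(5,1),(12,0),(0,
  0),(15,1),(1,0)]⟩⟩,⟨true,0,⟨0,[(3,0)]⟩,⟨2,[(0,0),(5,1),(5,0),(22,0)]⟩⟩,⟨false,0,⟨0,[]⟩,⟨0,[]⟩⟩,
  ⟨false,0,⟨0,[]⟩,⟨0,[]⟩⟩,[.e ⟨false,0,⟨0,[(3,0),(2,0)]⟩,⟨5,[(5,1),(3,1),(2,1),(23,0),(0,2)]⟩⟩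
  ⟨false,1,⟨3,[(3,0),(1,0),(2,2),(6,3),(7,0),(7,0),(1,0)]⟩,⟨0,[(0,0)]⟩⟩,.o ⟨false,1,⟨0,[(8,0)]⟩,⟨1,
  [(9,0),(5,1),(19,0)]⟩⟩,.a ⟨true,0,⟨5,[(2,0),(3,1),(5,0),(1,3),(10,1)]⟩,⟨0,[(15,0)]⟩⟩ ⟨true,0,⟨1,
  [(3,0),(2,1),(25,0),(1,0)]⟩,⟨0,[(4,0),(30,0)]⟩⟩ ⟨false,1,⟨0,[(8,0),(6,0)]⟩,⟨0,[(0,0)]⟩⟩,.o ⟨false,
  0,⟨0,[(25,0)]⟩,⟨1,[(15,1),(12,0),(7,0)]⟩⟩]⟩) (.R ⟨0,false,false,true,[1,0,-1],[0,1,-1],[1,1,1,1,0,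
  0,0,-1],(⟨0,[(26,0)]⟩,⟨0,[(27,0)]⟩),(⟨0,[(17,0)]⟩,⟨0,[(27,0),(1,0)]⟩),⟨0,[(16,0)]⟩,.k,.k,.k,.k,.k,
  .k,⟨true,0,⟨0,[]⟩,⟨1,[(24,0),(0,0)]⟩⟩,⟨false,1,⟨3,[(0,1),(3,1),(0,1),(22,0),(7,0)]⟩,⟨1,[(2,0),(3,
  1),(5,0)]⟩⟩,⟨false,0,⟨3,[(0,0),(1,1),(3,0),(27,0)]⟩,⟨3,[(5,1),(12,0),(0,0),(15,1),(1,0)]⟩⟩,⟨true,
  0,⟨0,[(3,0)]⟩,⟨6,[(1,1),(4,3),(5,1),(1,0),(10,0),(9,2)]⟩⟩,⟨false,0,⟨0,[]⟩,⟨0,[]⟩⟩,⟨false,0,⟨0,[]⟩,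
  ⟨0,[]⟩⟩,[.a ⟨true,0,⟨7,[(0,4),(1,1),(3,0),(7,3),(8,3),(10,0)]⟩,⟨0,[(1,0)]⟩⟩ ⟨false,0,⟨1,[(0,0),(5,
  0),(27,0)]⟩,⟨5,[(5,1),(3,1),(2,1),(23,0),(0,2)]⟩⟩ ⟨true,0,⟨0,[(0,0)]⟩,⟨0,[(1,0),(23,0)]⟩⟩,.o
  ⟨false,1,⟨0,[(8,0)]⟩,⟨1,[(9,0),(5,1),(19,0)]⟩⟩,.e ⟨true,0,⟨3,[(0,0),(5,2),(25,1),(1,2)]⟩,⟨0,[(4,
  0),(30,0)]⟩⟩ ⟨true,0,⟨0,[(0,0)]⟩,⟨11,[(1,5),(0,0),(3,1),(5,6),(1,3),(10,1)]⟩⟩,.o ⟨false,0,⟨0,[(25,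
  0)]⟩,⟨1,[(15,1),(12,0),(7,0)]⟩⟩]⟩)) (.R ⟨0,false,false,true,[1,0,-1],[0,1,-1],[0,1,2,1,0,0,0,-1],
  (⟨0,[(25,0)]⟩,⟨0,[(26,0)]⟩),(⟨0,[(16,0)]⟩,⟨0,[(26,0),(1,0)]⟩),⟨0,[(15,0)]⟩,.k,.k,.k,.k,.k,.k,
  ⟨true,0,⟨1,[(23,0),(0,0)]⟩,⟨0,[]⟩⟩,⟨false,1,⟨1,[(0,0),(3,1),(1,0)]⟩,⟨1,[(1,0),(3,1),(5,0)]⟩⟩,
  ⟨false,0,⟨1,[(1,0),(3,0),(25,0),(1,0)]⟩,⟨0,[(4,0)]⟩⟩,⟨true,0,⟨0,[(2,0)]⟩,⟨1,[(5,1),(2,0),(25,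
  0)]⟩⟩,⟨false,0,⟨0,[]⟩,⟨0,[]⟩⟩,⟨false,0,⟨0,[]⟩,⟨0,[]⟩⟩,[.o ⟨false,0,⟨0,[(0,0)]⟩,⟨4,[(4,1),(3,0),(2,
  1),(9,0),(1,3),(12,2)]⟩⟩,.o ⟨false,1,⟨0,[(7,0)]⟩,⟨1,[(8,0),(5,1),(19,0)]⟩⟩,.a ⟨true,0,⟨5,[(1,0),
  (3,1),(5,0),(1,3),(10,1)]⟩,⟨0,[(14,0)]⟩⟩ ⟨false,0,⟨1,[(0,0),(0,0),(3,1),(8,0),(16,0)]⟩,⟨5,[(3,1),
  (0,3),(3,1),(26,0),(0,0)]⟩⟩ ⟨true,0,⟨0,[(0,0),(13,0)]⟩,⟨0,[(5,0),(2,0)]⟩⟩,.o ⟨false,0,⟨0,[(24,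
  0)]⟩,⟨1,[(14,1),(12,0),(7,0)]⟩⟩]⟩))))) (.Q [0,0,2,0,-1,0,0,0,0,1] (.pp false [-1,1]) (.Q [0,-1,0,
  -2,0,0,0,0,0,1] (.pp false [-1,1]) (.R ⟨0,false,false,true,[1,-1],[0,1],[],(⟨0,[(26,0)]⟩,⟨0,[(27,
  0)]⟩),(⟨0,[(27,0)]⟩,⟨0,[(26,0)]⟩),⟨0,[(13,0),(0,0)]⟩,.k,.k,(.r (-1) ⟨0,[(32,1),(0,0)]⟩ ⟨0,[(2,0),
  (28,0),(2,0)]⟩),(.r (-1) ⟨0,[(32,1),(0,0)]⟩ ⟨0,[(2,0),(28,0),(2,0)]⟩),.k,.k,⟨true,1,⟨3,[(0,1),(24,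
  0),(7,1),(0,0)]⟩,⟨0,[(2,0)]⟩⟩,⟨false,2,⟨1,[(25,0),(7,2)]⟩,⟨0,[(1,0)]⟩⟩,⟨true,0,⟨1,[(2,0),(28,0),
  (2,0)]⟩,⟨0,[(30,0),(1,1)]⟩⟩,⟨false,1,⟨3,[(2,0),(1,1),(0,1),(24,1),(0,0),(2,2)]⟩,⟨0,[(0,0)]⟩⟩,
  ⟨false,0,⟨0,[]⟩,⟨0,[]⟩⟩,⟨false,0,⟨0,[]⟩,⟨0,[]⟩⟩,[.e ⟨false,1,⟨1,[(15,0),(0,0),(16,0)]⟩,⟨0,[]⟩⟩
  ⟨false,1,⟨1,[(25,0),(4,1),(2,0)]⟩,⟨3,[(0,1),(0,1),(13,0),(0,0),(17,0)]⟩⟩,.o ⟨false,1,⟨2,[(4,0),(0,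
  1),(13,0),(14,0)]⟩,⟨0,[(32,0)]⟩⟩,.o ⟨false,0,⟨3,[(1,0),(13,0),(0,0),(12,0)]⟩,⟨1,[(25,0),(7,0)]⟩⟩,
  .a ⟨true,(-1),⟨0,[(1,0)]⟩,⟨0,[(33,0)]⟩⟩ ⟨false,1,⟨1,[(33,0),(0,0)]⟩,⟨3,[(1,0),(13,0),(0,0),(12,
  0)]⟩⟩ ⟨true,1,⟨1,[(25,0),(4,1),(2,0)]⟩,⟨0,[(1,0),(30,0)]⟩⟩]⟩) (.I [0,0,0,0,0,0,0,1] (.Q [0,-1,0,1,
  1,0,-1,-1,0,0,-1] (.p false [0,0,1] [] (⟨0,[(25,0)]⟩,⟨0,[(24,0)]⟩) .k 0 (⟨0,[]⟩,⟨0,[]⟩) .k .k)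
  (.R ⟨0,false,false,false,[0,0,1],[0,1],[1,1],(⟨0,[(26,0)]⟩,⟨0,[(25,0)]⟩),(⟨0,[(29,0)]⟩,⟨0,[(28,
  0)]⟩),⟨0,[(16,0)]⟩,.k,.k,.k,.k,.k,.k,⟨true,0,⟨0,[(32,0),(1,1)]⟩,⟨0,[(4,0),(31,0)]⟩⟩,⟨false,1,⟨1,
  [(13,1),(13,0),(7,0)]⟩,⟨0,[(23,0)]⟩⟩,⟨true,0,⟨0,[(14,0),(7,0)]⟩,⟨0,[(1,0)]⟩⟩,⟨false,1,⟨0,[(0,0)]⟩,
  ⟨1,[(8,0),(5,1),(19,0)]⟩⟩,⟨false,0,⟨0,[]⟩,⟨0,[]⟩⟩,⟨false,0,⟨0,[]⟩,⟨0,[]⟩⟩,[.o ⟨false,1,⟨2,[(6,0),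
  (0,1),(13,0),(14,0)]⟩,⟨0,[(34,0)]⟩⟩,.o ⟨false,1,⟨3,[(2,1),(24,0),(8,2)]⟩,⟨3,[(11,0),(10,0),(0,0),
  (6,0),(3,2)]⟩⟩,.e ⟨false,0,⟨0,[]⟩,⟨1,[(17,0),(0,0),(17,0)]⟩⟩ ⟨false,1,⟨0,[(0,0),(0,0)]⟩,⟨0,[(14,
  0),(19,0)]⟩⟩,.a ⟨true,0,⟨0,[(23,0)]⟩,⟨0,[(13,0)]⟩⟩ ⟨true,0,⟨0,[(32,0),(1,0)]⟩,⟨3,[(3,0),(13,0),(0,
  0),(12,0)]⟩⟩ ⟨false,1,⟨3,[(2,1),(10,3),(13,0),(8,2)]⟩,⟨0,[(23,0),(10,0)]⟩⟩]⟩) (.R ⟨0,false,false,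
  true,[1,0,-1],[1,-1],[0,1],(⟨0,[(25,0)]⟩,⟨0,[(26,0)]⟩),(⟨0,[(28,0)]⟩,⟨0,[(29,0)]⟩),⟨0,[(15,0)]⟩,
  .k,.k,.k,.k,.k,.k,⟨true,0,⟨1,[(4,0),(28,0),(2,0)]⟩,⟨0,[(34,0)]⟩⟩,⟨false,0,⟨0,[(14,0)]⟩,⟨3,[(7,1),
  (3,1),(1,1),(21,0),(0,0)]⟩⟩,⟨false,0,⟨0,[(1,0)]⟩,⟨1,[(5,1),(21,0),(8,0)]⟩⟩,⟨true,(-1),⟨0,[(0,0)]⟩,
  ⟨4,[(5,1),(1,2),(5,0),(3,0),(0,0),(5,0),(8,1),(2,0)]⟩⟩,⟨false,0,⟨0,[]⟩,⟨0,[]⟩⟩,⟨false,0,⟨0,[]⟩,⟨0,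
  []⟩⟩,[.o ⟨false,0,⟨3,[(11,0),(10,0),(0,0),(6,0),(3,2)]⟩,⟨3,[(2,1),(24,0),(8,2)]⟩⟩,.o ⟨false,0,⟨0,
  [(34,0)]⟩,⟨2,[(6,0),(0,1),(13,0),(14,0)]⟩⟩,.a ⟨true,0,⟨3,[(3,0),(9,2),(3,0),(0,0),(5,0)]⟩,⟨0,[(14,
  0)]⟩⟩ ⟨true,0,⟨0,[(38,0)]⟩,⟨0,[]⟩⟩ ⟨false,0,⟨0,[(14,0),(19,0)]⟩,⟨11,[(2,2),(4,1),(0,0),(4,4),(10,
  4),(8,4),(2,9)]⟩⟩,.o ⟨false,0,⟨0,[(24,0)]⟩,⟨1,[(14,1),(12,0),(7,0)]⟩⟩]⟩)) (.R ⟨0,false,false,true,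
  [0,1,-1],[1,0,-1],[1,1,0,0,0,0,0,-1],(⟨0,[(15,0)]⟩,⟨0,[(25,0),(1,0)]⟩),(⟨0,[(24,0)]⟩,⟨0,[(25,
  0)]⟩),⟨0,[(25,0)]⟩,.k,.k,.k,.k,.k,.k,⟨true,0,⟨0,[]⟩,⟨3,[(2,0),(13,0),(0,0),(12,0)]⟩⟩,⟨false,0,⟨4,
  [(2,0),(1,1),(7,1),(7,1),(14,0)]⟩,⟨1,[(26,0),(7,0)]⟩⟩,⟨true,0,⟨0,[(31,0),(1,1)]⟩,⟨1,[(3,0),(28,0),
  (2,0)]⟩⟩,⟨false,0,⟨1,[(4,1),(2,0),(25,0)]⟩,⟨3,[(1,1),(24,0),(8,2)]⟩⟩,⟨false,0,⟨0,[]⟩,⟨0,[]⟩⟩,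
  ⟨false,0,⟨0,[]⟩,⟨0,[]⟩⟩,[.o ⟨false,0,⟨0,[(21,0)]⟩,⟨1,[(9,1),(16,0),(8,0)]⟩⟩,.a ⟨true,0,⟨3,[(0,0),
  (1,0),(1,0),(7,1),(8,1),(13,0)]⟩,⟨0,[(9,0)]⟩⟩ ⟨true,0,⟨0,[(0,0)]⟩,⟨3,[(2,0),(4,1),(22,0),(1,1),(2,
  0)]⟩⟩ ⟨false,0,⟨0,[(4,0)]⟩,⟨7,[(1,1),(5,3),(18,2),(7,3),(0,0)]⟩⟩,.o ⟨false,1,⟨0,[(12,0),(13,0)]⟩,
  ⟨0,[(22,0)]⟩⟩,.o ⟨false,1,⟨5,[(6,1),(3,1),(1,1),(10,1),(2,2),(8,0)]⟩,⟨0,[(13,0)]⟩⟩]⟩))) (.I [0,0,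
  1,0,0,0,0,-1] (.R ⟨0,false,false,false,[0,0,1],[1,-1],[0,1,1],(⟨0,[(24,0)]⟩,⟨0,[(23,0)]⟩),(⟨0,
  [(26,0)]⟩,⟨0,[(27,0)]⟩),⟨0,[(14,0)]⟩,.k,.k,.k,.k,.k,.k,⟨true,(-1),⟨0,[(2,0)]⟩,⟨1,[(32,1),(0,0),(0,
  0)]⟩⟩,⟨false,0,⟨8,[(2,0),(0,2),(2,0),(4,5),(7,0),(2,3),(11,0)]⟩,⟨0,[(1,0),(19,0)]⟩⟩,⟨false,0,⟨0,
  [(0,0)]⟩,⟨2,[(4,0),(1,0),(4,0),(21,0),(0,1)]⟩⟩,⟨true,0,⟨0,[(0,0),(10,0),(20,0)]⟩,⟨0,[(4,0)]⟩⟩,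
  ⟨false,0,⟨0,[]⟩,⟨0,[]⟩⟩,⟨false,0,⟨0,[]⟩,⟨0,[]⟩⟩,[.o ⟨false,0,⟨0,[(32,0)]⟩,⟨2,[(4,0),(0,1),(13,0),
  (14,0)]⟩⟩,.o ⟨false,1,⟨1,[(15,0),(0,0),(15,1),(1,0)]⟩,⟨0,[(1,0),(0,0)]⟩⟩,.a ⟨true,0,⟨0,[(12,0)]⟩,
  ⟨8,[(2,0),(0,2),(2,0),(4,5),(7,0),(2,3),(11,0)]⟩⟩ ⟨false,0,⟨1,[(21,0),(0,0)]⟩,⟨1,[(33,0),(0,0)]⟩⟩
  ⟨true,0,⟨3,[(3,1),(2,0),(4,1),(10,1),(9,2)]⟩,⟨0,[(1,0),(0,0),(9,0)]⟩⟩,.e ⟨true,0,⟨0,[(36,0)]⟩,⟨0,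
  []⟩⟩ ⟨true,0,⟨0,[(11,0),(20,0)]⟩,⟨0,[(0,0),(3,0)]⟩⟩]⟩) (.R ⟨0,false,false,false,[1,0,-1],[0,1,-1],
  [],(⟨0,[(23,0)]⟩,⟨0,[(24,0)]⟩),(⟨0,[(14,0)]⟩,⟨0,[(24,0),(1,0)]⟩),⟨0,[(13,0)]⟩,.k,.k,.k,.k,.k,.k,
  ⟨true,0,⟨0,[(0,0),(31,0)]⟩,⟨2,[(2,1),(0,1),(1,0),(6,0),(16,0),(4,0)]⟩⟩,⟨false,1,⟨0,[(1,0)]⟩,⟨2,
  [(2,0),(0,2),(2,0),(12,0),(2,0),(11,0)]⟩⟩,⟨true,0,⟨5,[(0,0),(1,0),(1,0),(1,1),(4,0),(22,0)]⟩,⟨0,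
  [(12,0),(7,0)]⟩⟩,⟨false,1,⟨0,[(1,0),(0,0),(31,0)]⟩,⟨1,[(3,1),(2,0),(25,0)]⟩⟩,⟨false,0,⟨0,[]⟩,⟨0,
  []⟩⟩,⟨false,0,⟨0,[]⟩,⟨0,[]⟩⟩,[.o ⟨false,1,⟨0,[(5,0)]⟩,⟨1,[(6,0),(5,1),(19,0)]⟩⟩,.e ⟨false,1,⟨1,
  [(33,0),(0,0)]⟩,⟨0,[(36,0)]⟩⟩ ⟨false,2,⟨1,[(5,1),(6,1),(20,0),(0,0)]⟩,⟨0,[(0,0),(1,0),(8,0),(0,0),
  (19,1)]⟩⟩,.a ⟨true,0,⟨8,[(2,0),(0,2),(2,0),(4,5),(7,0),(2,3),(11,0)]⟩,⟨0,[(12,0)]⟩⟩ ⟨false,1,⟨1,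
  [(15,0),(0,0),(17,0)]⟩,⟨0,[]⟩⟩ ⟨true,1,⟨0,[(5,0),(6,0)]⟩,⟨0,[(0,0),(1,0),(8,0),(0,0),(19,1)]⟩⟩,.o
  ⟨false,0,⟨0,[(22,0)]⟩,⟨0,[(1,0),(19,0)]⟩⟩]⟩))))

theorem ok60 : chk5 K KFs t60 l64 = true := by decide +kernel

open Helper55.PC in
noncomputable def t61n : Helper55.PC.Ten :=
  (q 29644357943174650478846611805304477356392712830332799952583776557154775699947532 (q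
  85362172641205228471356310130047032510401690896518202114415327305226379556978650073435459701295586820916743169238038342059527082769308312535052
  (q
  5594307540544663944045674961004202211514579756783999670331821996642434879561033843629128515895719314525437697647726675779775040012700974942284546060
  (r
  694735862649850014237109163558712259916235393260137641958160154113176383910671400498329743630409450788448007511705666443004583895451453671908062698950436508539961334646322710458919262970815523839967879222976221209246710792565673379072374094970340059173317149362179902179786023320017935166491036962544378316550849060836691720390753677945967720475102624275164968250218905112889829780987178633631221698643202749654958844386841776832121171252275458031230048153805207473015790225858752)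
  (q 961165667274138682481733769110988360779802043753662632335028511887446900748 (r
  12146371889580742543958318231964083142172925244371000609620597968521805253435309390313219588186611222942172573690796009473351358121875125709054844151921135405233262460454325620033845422949766575824029676313635630420610421393367834733997183578992068423233406649781173875546314804450835315324184848286279384452425737017242850882843131282836165830821786209292580951956490069406742091309598415427040677005358659453216390622795084232219175685759714436148354124476860793637739086968537118913393265480200946978239224101257795132723596743867826155299648)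
  (r
  1491916822815105836690411458353872656299288942819972778824483680036994830758206486402827599399089585676943113691377186350416997557202891121724214616356591553827533833822434741480513800645298906927069754007545777380556035751859164166085284715781403729505634398352441772792300732145577870484346328940403921308451199338710599177004862945095321627133537860564072472526639001245298330195976552247222001310169047107513165731062681406476543972902250434352111354816155557314764365043865132881682752)))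
  (r
  4022748082142874575699794432954349842464407318650926751017580394658692774112380862738348929615023845256661102815367696403959704663864344712552139142463162911609653705941776646999946977303222779460980235441196607278491687861302043910348087071171413896928572155785036772336248425013420165671235311269455858091379415673084805377562315934130797290647631713914400363449850298640882656562729047506567985834117184401205022230086659996084283746680010299215923913440))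
  (q 53005519809466325059965178587707952965095861868664765318454213547344658444 (q
  85362358711918648146720290756941856536647650984916941994462179166365596603214007452286829695614794833001834370485882816588937477989373459955724
  (r
  18214357824031576534691423849229194053046522207260434322155563274084295126848001849644090018498301500422730113430271020370395265695579755264287359093619138550959672148576447838104109304098949052459236767227963518846214024985084528310131320157345455520454469258055282631042068324705344274623213514035890784886244248173282899250202434205638204411633387036480578214951129793907880368022240)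
  (q
  2418939149472026725447304543738324141884173329141235490580702199856686254668777316250391788682717169816755224113955108665054726580638711820
  (i 324637400738491769624815093022728 (r
  1513189646659833960263858438346075009367307120872625123514658283402976106803247533138130621588781241032753840255634906016633282869852826542102030952261315574139195045823466314331395427891597995256365391352073287689229112557382285413410004000522338612054048884121003534332626524678573644563699024627695189426050725210062260533301428135818108854391389328565000137406840532382693627736881632228899350129126033912001543807712)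
  (r
  1193696154435139620782106933244241926809716088993951313418904727694850915019323474535627612302506748380421726764440314685083471684692568604010078981181737235018016046067058610307733515502188118988917684400216619503616514377827082968145545212414680937834187896318291711937187139508636104468798135319012022047574948175512220498646694095541727692300770711472565108495844327389603622243194905280))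
  (q
  18899381734133541289371109917555225909807995539376007747009124257384511263355166792946017632351737900069856490272937205757616426563010571
  (r
  660501668306648099663463259607775182525212635710485639292053755453454176078239302360599432311280555778701948933011300892424673399517964629719416727616315866853911637495705839294791756497709522264352218772256207202470075795409582956251694256964896937594809325218987302780314059746160307941206681883321300273336881012759848206291142268753000878676631992446764510348948451165967836963161502841436868941371936851324656177074217485970907484758672538024895140385941823286166024881319836667124459521299712169067946176)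
  (q
  118626540180212975668995502417641840101497414227800842841157376556796828510310617946900960754419786049950448191587340048439376658292800734317903883
  (r
  15238457605460479108720745462133685086750954404093943937395012371242400201215396978166242117260022187048218709048463948948871459031240713908775843148146989665816258241748729493900200489457454816401195527459690543577634840082811399100015911313005423923532954185692435119305542952684729204380511115258185229140393639730219511541401228275992060387405777350170025739824596988199505222610105994544231543658477843001167612185456482206333696787567778713644729421404104071790159732928)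
  (q
  7774308937250439027120911132177120684125490412539687012989953706064641502570343371766132333322471246956584466668555442389081014777554963250785309294603
  (r
  832708114070827937127234173464654490899505984643831308168494932074587227559211213377498671120228515762835151978083312920847340382407479589280375796507704155583536265050415554328316774346697569624614959764818968152415322324213140057584359156097453095812592400086338869530702453090618971301841306782742359949159030290544629286365006274977850453979333946202592433658419585793582955818328365590606063334574961516888080148164256808027637404233116298467964417938564267137944185140764685387642761609214114113409334533665617377652308980866357480873222623073675465327828790835158190842978528)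
  (r
  1301576688897428518321870451666989157550471256222860098676685396483858554926194559297954005125635792231745983522400778904008090977268592838619355379228286854960480896484995147570044097106541559022913141620061853440149962709824203448795079593413982125186340235438213786040216792311327548340568000844379582354020966069543422443212412632603377497747500848582704299049738709584167537870869054668485148652506767167925517366996302046580805873806009692980754578567768137745275585730657146733752155869815520))))))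
  (q
  2418939149428703761476666811552714335091381435871114537858155417642844933621324875317439489790155767008961732251893921495642898497918074892
  (q
  2418939149472026725447304543738324141884173329141235490580702199856686254668777316250391800375443979411984955552164209540589528947364331532
  (q
  2418939149515349689417942275923933948676965222411356443303248982070527575716229757183344099268005382219778447334997234195881134624616873996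
  (r
  38565587312857996831847378025383539707443027909254199040890084565375326832701781967132131488377496574126021078466371714885802591725307478200667733358736750887755749311927702787444797775224091878183544149752473842789485625286054933674192534328558909721936581923549204067676884676320642255047682364315998973203634652212409946602901278415382178357686972734867722461117744236269474656980568584203372255052708882067384709795448226495283591532570695656000942358219464928)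
  (q 29644923334235642842561249853471459885386986801260597388388876988014921005269004 (r
  5956149629496769760553336322023866030480442615653747954637090820985146499501680941540688136706780969400398303569676070801682869635674320069630638968076908923771910327305120733765177532823066705806818658706335944453494986485465137176865859033150277040397184419505258127141236400298)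
  (q
  18899381734810462601412324482881988305105924175099435398368743391482277637258196370243218580924649897021662218711820295437060485041487883
  (r
  2346573311954639030314994534899251838876767270984695905341255006054549039891739198329587541055820388064900082398333652941530686685617883460959810901757806819207361886450421577106567409614827105344042053223517858875481377475178419848871205011020564925681512273228962237552507618274753591674972316544696625801757084740577289474971125393219497072055117643022044572895525960040994864924774715860844326364394544094837840930601163403109119338332125311122640638478872623558149288105528571142866834563264)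
  (q
  49949120324431777677176426782810830541087761145049392115774709087285625711839210611453634932969948548740563494742639550177532670787589408907198475
  (r
  24788625520089510267041494926835583098935834884579461582837795833094625593282829211851559988516577701051801517202484140074708079391889364938806365416200320230718559312385415934533166249410818855236781287878345503524721624558765144753792425732251655789691972553217423160995210051882371812858018374014176369417505277793063142519126344278993231702199150014934562073994908815102898545311936802288967994706749872223959911078443420108574708097746845314097440113851219450992624856417228611064287618647716168289183369998428155511840992)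
  (q 11794989528071388825689912453005310296355701403370425886952505868299 (r
  43682258845752004307124488041647184852605718022369662173043248169797430928633993645982392140162375587847707339182598065022595918291972852496040024972058829938798898586833092103051797735678776452645182084460750239868925122886801994325480501865132921079414759155226332270552699677729047455751396325371736354084295005105169466947360605716709066652248959999754318122973438481278625835417741954580756357182184788694351353741841674880270641958625823437386176225397229458679691033418102920958809305238647384731721083566878691261727106172020882591645563612027232788695268225283899221130773337524126888558551484388324198273661543104)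
  (r
  18452816934460266682824897380756758957415211738270014109699759019092244183109112807677631698698582690467713761192647688407058276187275479653305760599954317431052479739841436487104393795465767118775721699896373980572908699042819318274457989039407444515508870115858756363858491338353763379728927844277021771811730918233787578299626841627258475644457536704162395583793916502080648147175418471494598229551278683902189248410555614286155329707938098455507070377809703103307404124497542218229071867596667590758796815152748972755417061844876468916328271246795443125625024))))))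
  (r
  347373231981517780691718920138431181775825272390883033843048898814063251008191017730078107502155241570386702778026280429617088483291259128208568754323717802864554302104032706320244615542692034263094522462760277029308086892383126500793560458966966089508074296835247931309242849953081398230341058886575137656939521281016808946476869351820815777413385247369822977479289744962063890658870751510494276882256628237298345834368165960768758638953613350836054143658885188131699331361939680))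
  (r
  287102460976811783092577062803805388302078218746157246054455996819146509423101333161419554907377335246336896444776705043313200489576538243102551929723411129607936670077224883600381591897463086783628301943453920450607718093956867771837103220721092754114317327109817163092550286792141819820111232273356268524129869061996874099855814606410424485286854432028133039342197973367424488972354787072441954729073923199876095661203908385243858352218336))))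

noncomputable def t61 : Tre := Helper55.PC.toT t61n

theorem ok61 : chk5 K KFs t61 r64 = true :=
  Helper81.PC.chk5N_sound K KFs t61n r64 (by decide +kernel)

noncomputable def t63 : Tre :=
  (.R ⟨0,false,false,true,[0,1,-1],[0,1],[0,0,1],(⟨0,[(10,0)]⟩,⟨0,[(20,0),(1,0)]⟩),(⟨0,[(23,0)]⟩,⟨0,
  [(22,0)]⟩),⟨0,[(20,0)]⟩,.k,.k,.k,.k,.k,.k,⟨false,1,⟨1,[(28,1),(0,0),(0,0)]⟩,⟨0,[(27,0)]⟩⟩,⟨true,0,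
  ⟨0,[(8,0)]⟩,⟨0,[(18,0)]⟩⟩,⟨true,0,⟨1,[(2,0),(25,0)]⟩,⟨0,[(0,0),(7,0),(16,0),(0,1)]⟩⟩,⟨false,0,⟨0,
  [(4,0)]⟩,⟨3,[(0,1),(0,1),(9,0),(0,0),(17,0)]⟩⟩,⟨false,0,⟨0,[]⟩,⟨0,[]⟩⟩,⟨false,0,⟨0,[]⟩,⟨0,[]⟩⟩,
  [.a ⟨true,0,⟨0,[(27,0)]⟩,⟨0,[(0,0),(3,0)]⟩⟩ ⟨true,0,⟨1,[(17,0),(0,0)]⟩,⟨0,[]⟩⟩ ⟨false,0,⟨0,[(8,0),
  (18,0)]⟩,⟨5,[(0,3),(1,1),(4,1),(13,2),(7,1),(0,0)]⟩⟩,.o ⟨false,1,⟨1,[(21,0),(5,1),(2,0)]⟩,⟨0,[(28,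
  0)]⟩⟩,.o ⟨false,1,⟨0,[(7,0),(13,0)]⟩,⟨0,[(17,0)]⟩⟩,.o ⟨false,1,⟨4,[(0,0),(0,3),(0,1),(2,0),(15,
  0)]⟩,⟨0,[(8,0)]⟩⟩]⟩)

theorem ok63 : chk5 K KFs t63 r63 = true := by decide +kernel

open Helper55.PC in
noncomputable def t65n : Helper55.PC.Ten :=
  (i 72083985538351108 (r
  1477724264021343680770472151283463514872963143820412187655975231394681249417968471686251385923958714117413671509843394582814947266440350682891841830290533420237063335166658314892852497312910378606605805802353116645500483906002356813723676305989397450668633745860004906303994749501679362633673446332679693795171714842334838368206847249394193415971787798180741388422477427748607623790460149278111325943550779159924712128)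
  (i 324637400738491769607218612011016 (r
  573092019347028306137435051845297449190556607764864390266692869620791348757666460971800143656925481204934381472773179713531970303122409116241407106921495782094597712795853976816542852508316678614566680321836692843488543757784106544559182043259476912030209560675573981083088127581785697818368854524978286803237643254664378087619804245009303554449868828835378096298665845408718173259681313270755460016895090639987656129880165382357744185228016898978054267943992962607695334611949845288236868224)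
  (r
  205986262983588968038762722728729656012008559525054842770871077917157271873855076819392813773476769706761017381876564973779313232146994889109643369973375027470089868350894784152498381866880532960282487735368482072754418220101611550773637579871892147985259403906206367195587987644429820059823193063537909392368656619104439142249972698937329019513568789907572626482636625929596827739138609246730215616)))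

noncomputable def t65 : Tre := Helper55.PC.toT t65n

theorem ok65 : chk5 K KFs t65 r62 = true :=
  Helper81.PC.chk5N_sound K KFs t65n r62 (by decide +kernel)

open Helper55.PC in
noncomputable def t67n : Helper55.PC.Ten :=
  (q
  2381705131860575504555055060235527104922037190558095699877135314013043638238102904480235438722267330652048181509439398866484388137808502587403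
  (r
  1198850704807572652054341013105891385835185505637807209904601183419286186807228034828959132472242524195624299376693650682435752547169187796855004622868411459998231507318045369133827976084855961053658554774545188980188587158465028939739488519823289799256452776119385601949922894602001521740716904762262927586181918970190960974642267560560662904465779929624476241169501740760164195482499096575691842587218130907505354073893830041965342265935056892844174951458983701923937114452913884272186027096778249069379904625443286415613487955136461188346514514144)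
  (r
  35383694963668221275732912424198188523029555641869616731138196504327341926556238981233432288076708406883087771058014617046309100872476391463825963765899346149065378280089994885045552232537393846458472514927174315814479838840985069319245255639523021051158977546117774224206554581498513880717498636866543202877981565534381750838983157264027635930347319216867674572765201426228324670376352805037649987877614095595842973505406028487527125884326971730705754345870472947458240))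

noncomputable def t67 : Tre := Helper55.PC.toT t67n

theorem ok67 : chk5 K KFs t67 r61 = true :=
  Helper81.PC.chk5N_sound K KFs t67n r61 (by decide +kernel)

noncomputable def t69 : Tre :=
  (.K ⟨1,[0,0,0,0,1],(-1),(-1),(⟨0,[(11,0)]⟩,⟨0,[(10,0)]⟩),.k,(.r 0 ⟨0,[(23,0),(1,1)]⟩ ⟨1,[(14,0),
  (0,0),(8,1),(2,1)]⟩),(.r 0 ⟨1,[(14,0),(0,0),(8,1)]⟩ ⟨1,[(25,1),(0,0),(0,0)]⟩),.k,.k,[⟨1,[(8,1),(5,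
  0),(0,0)]⟩,⟨0,[(0,0)]⟩,⟨0,[(8,0)]⟩,⟨0,[(0,0),(20,0)]⟩,⟨0,[(8,0)]⟩,⟨0,[(4,0),(0,0),(2,0)]⟩]⟩)

theorem ok69 : chk5 K KFs t69 r60 = true := by decide +kernel


end Helper25.S1T.Zmp1H
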