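import Pool.Agent.Helper25.KG.C5
import Pool.Agent.Helper25.S1T.Zmp1H_p0
import Pool.Agent.Helper25.S1T.Zmp1H_p1

set_option autoImplicit false
set_option linter.all false

namespace Helper25.S1T.Zmp1H

open Helper25.KG Helper11.CT

theorem cl0 : Clo5 K KFs HH r30 :=
  .w [-3,0,0,0,0,-12,0,0,0,20,0,-8] (e' := [4,0,0,0,0,12,0,0,0,-20,0,8]) (by decide +kernel) (.t
  t20 ok20) (.t t21 ok21)

theorem cl1 : Clo5 K KFs HH l29 :=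
  .i [1,-2,3,3,1] (e' := [0,2,-3,-3,-1]) (by decide +kernel) (by decide +kernel) (.t t19 ok19) cl0

theorem cl2 : Clo5 K KFs HH l33 :=
  .w [-3,0,0,0,0,-12,0,0,0,20,0,-8] (e' := [4,0,0,0,0,12,0,0,0,-20,0,8]) (by decide +kernel) (.t
  t22 ok22) (.t t23 ok23)

theorem cl3 : Clo5 K KFs HH l32 :=
  .q [0,0,0,0,0,1,0,0,0,0,0,-1] (e' := [0,0,0,0,0,-1,0,0,0,0,0,1]) (.ed true [1,-1,0,0,1] .k)
  (by decide +kernel) (by decide +kernel) cl2 (.t t24 ok24)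

theorem cl4 : Clo5 K KFs HH r32 :=
  .w [-3,0,0,0,0,-12,0,0,0,20,0,-8] (e' := [4,0,0,0,0,12,0,0,0,-20,0,8]) (by decide +kernel) (.t
  t25 ok25) (.t t26 ok26)

theorem cl5 : Clo5 K KFs HH r29 :=
  .i [0,-2,1,0,1,0,0,2] (e' := [1,2,-1,0,-1,0,0,-2]) (by decide +kernel) (by decide +kernel) cl3 cl4

theorem cl6 : Clo5 K KFs HH r28 :=
  .q [0,-1,0,1,1,0,1,1,-1,-1,1,-1] (e' := [0,1,0,-1,-1,0,-1,-1,1,1,-1,1]) (.p true [-1,1,1] [0,0,0,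
  0,1] (⟨0,[(32,0)]⟩,⟨0,[(42,0),(2,0)]⟩) .k 2 (⟨0,[(37,0)]⟩,⟨0,[(36,0)]⟩) .k (.r (-1) ⟨28,[(3,2),(0,
  1),(0,6),(1,5),(3,0),(13,15),(15,8),(11,5)]⟩ ⟨7,[(3,0),(14,2),(20,4),(0,4),(6,1)]⟩))
  (by decide +kernel) (by decide +kernel) cl1 cl5

theorem cl7 : Clo5 K KFs HH l27 :=
  .i [0,0,-3,0,0,-3,0,0,2] (e' := [1,0,3,0,0,3,0,0,-2]) (by decide +kernel) (by decide +kernel) (.t
  t18 ok18) cl6

theorem cl8 : Clo5 K KFs HH r26 :=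
  .i [1,-2,-3,-3] (e' := [0,2,3,3]) (by decide +kernel) (by decide +kernel) cl7 (.t t27 ok27)

theorem cl9 : Clo5 K KFs HH l25 :=
  .q [0,0,0,0,0,-1,0,0,0,2,-1,-1] (e' := [0,0,0,0,0,1,0,0,0,-2,1,1]) (.p false [-1,0,1,0,1] [1] (⟨0,
  [(3,0)]⟩,⟨0,[(33,0),(5,0)]⟩) .k 1 (⟨0,[]⟩,⟨0,[]⟩) .k (.r 0 ⟨2,[(0,0),(16,0),(2,0),(4,0)]⟩ ⟨3,[(0,
  0),(18,2),(16,0),(0,0),(11,1),(0,1)]⟩)) (by decide +kernel) (by decide +kernel) (.t t17 ok17) cl8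

theorem cl10 : Clo5 K KFs HH r24 :=
  .i [1,2,3,3] (e' := [0,-2,-3,-3]) (by decide +kernel) (by decide +kernel) cl9 (.t t28 ok28)

theorem cl11 : Clo5 K KFs HH r23 :=
  .q [0,0,1,0,0,0,2,0,0,-1,2] (e' := [0,0,-1,0,0,0,-2,0,0,1,-2]) (.p true [0,0,1] [1,0,-1] (⟨0,[(38,
  0)]⟩,⟨0,[(37,0)]⟩) .k 2 (⟨0,[(37,0)]⟩,⟨0,[(38,0)]⟩) .k (.r (-1) ⟨2,[(0,1),(1,0),(9,0),(7,0),(2,1),
  (1,0),(10,1)]⟩ ⟨2,[(13,1),(8,3),(12,3),(9,1)]⟩)) (by decide +kernel) (by decide +kernel) (.t t16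
  ok16) cl10

theorem cl12 : Clo5 K KFs HH r22 :=
  .q [0,1,0,-1,-1,0,-1,-1,1,0,-1,1] (e' := [0,-1,0,1,1,0,1,1,-1,0,1,-1]) (.p true [0,0,-1,0,1] []
  (⟨0,[(0,0),(22,0)]⟩,⟨0,[(30,0),(6,0)]⟩) .k 0 (⟨0,[]⟩,⟨0,[]⟩) .k (.r 0 ⟨0,[(25,0),(7,0)]⟩ ⟨1,[(1,
  0),(7,0),(9,0),(15,0)]⟩)) (by decide +kernel) (by decide +kernel) (.t t15 ok15) cl11

theorem cl13 : Clo5 K KFs HH l21 :=
  .q [0,0,0,0,0,0,0,0,0,1,-1,-1] (e' := [0,0,0,0,0,0,0,0,0,-1,1,1]) (.ed true [0,0,1,0,1] (.r 0 ⟨2,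
  [(13,0),(17,1),(2,1),(8,0)]⟩ ⟨7,[(8,1),(2,1),(16,1),(3,5),(0,5),(11,0),(0,4)]⟩))
  (by decide +kernel) (by decide +kernel) (.t t14 ok14) cl12

theorem cl14 : Clo5 K KFs HH r20 :=
  .q [0,0,0,0,0,0,1,1,1,0,1,1] (e' := [0,0,0,0,0,0,-1,-1,-1,0,-1,-1]) (.p true [1,-1,1] [1,0,0,0,
  -1] (⟨0,[(35,0),(1,0)]⟩,⟨0,[(25,0)]⟩) .k 2 (⟨0,[(28,0)]⟩,⟨0,[(29,0)]⟩) .k (.r 0 ⟨2,[(12,0),(17,1),
  (2,1),(8,0)]⟩ ⟨7,[(7,1),(2,1),(16,1),(3,5),(0,5),(11,0),(0,4)]⟩)) (by decide +kernel)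
  (by decide +kernel) cl13 (.t t29 ok29)

theorem cl15 : Clo5 K KFs HH r19 :=
  .q [0,0,2,0,0,0,0,0,-1,2,0,-1] (e' := [0,0,-2,0,0,0,0,0,1,-2,0,1]) (.p false [-1,1,0,0,1] [1] (⟨0,
  [(4,0)]⟩,⟨0,[(27,0),(8,0)]⟩) (.r 0 ⟨1,[(31,0),(0,0),(8,1)]⟩ ⟨3,[(13,1),(2,1),(8,0),(0,0),(16,
  0)]⟩) 1 (⟨0,[]⟩,⟨0,[]⟩) .k .k) (by decide +kernel) (by decide +kernel) (.t t13 ok13) cl14

theorem cl16 : Clo5 K KFs HH r18 :=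
  .q [0,0,2,0,0,0,-1,0,-1,2,-1,-1] (e' := [0,0,-2,0,0,0,1,0,1,-2,1,1]) (.p false [0,0,1] [2,-1,0,0,
  -1] (⟨0,[(33,0)]⟩,⟨0,[(32,0)]⟩) .k 2 (⟨0,[(26,0),(8,0)]⟩,⟨0,[(3,0)]⟩) (.r (-1) ⟨3,[(12,1),(2,1),
  (8,0),(0,0),(16,0)]⟩ ⟨1,[(30,0),(0,0),(8,1)]⟩) (.r 0 ⟨2,[(10,0),(17,1),(2,1),(8,0)]⟩ ⟨7,[(5,1),(2,
  1),(16,1),(3,5),(0,5),(11,0),(0,4)]⟩)) (by decide +kernel) (by decide +kernel) (.t t12 ok12) cl15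

theorem cl17 : Clo5 K KFs HH r17 :=
  .q [0,0,1,0,0,0,-1,0,-1,2,-1,-1] (e' := [0,0,-1,0,0,0,1,0,1,-2,1,1]) (.p false [0,0,1] [2,-1,0,0,
  -1] (⟨0,[(32,0)]⟩,⟨0,[(31,0)]⟩) .k 2 (⟨0,[(25,0),(8,0)]⟩,⟨0,[(2,0)]⟩) (.r (-1) ⟨3,[(11,1),(2,1),
  (8,0),(0,0),(16,0)]⟩ ⟨1,[(29,0),(0,0),(8,1)]⟩) (.r 0 ⟨2,[(9,0),(17,1),(2,1),(8,0)]⟩ ⟨7,[(4,1),(2,
  1),(16,1),(3,5),(0,5),(11,0),(0,4)]⟩)) (by decide +kernel) (by decide +kernel) (.t t11 ok11) cl16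

theorem cl18 : Clo5 K KFs HH r16 :=
  .q [0,0,0,0,0,0,0,0,-1,2,0,-1] (e' := [0,0,0,0,0,0,0,0,1,-2,0,1]) (.p false [-1,1,0,0,1] [1] (⟨0,
  [(1,0)]⟩,⟨0,[(24,0),(8,0)]⟩) (.r 0 ⟨1,[(28,0),(0,0),(8,1)]⟩ ⟨3,[(10,1),(2,1),(8,0),(0,0),(16,
  0)]⟩) 1 (⟨0,[]⟩,⟨0,[]⟩) .k .k) (by decide +kernel) (by decide +kernel) (.t t10 ok10) cl17

theorem cl19 : Clo5 K KFs HH l15 :=
  .q [0,0,0,0,0,0,0,0,-1,1,0,-1] (e' := [0,0,0,0,0,0,0,0,1,-1,0,1]) (.p false [0,0,0,0,1] [1] (⟨0,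
  [(24,0)]⟩,⟨0,[(23,0)]⟩) .k 1 (⟨0,[]⟩,⟨0,[]⟩) .k .k) (by decide +kernel) (by decide +kernel) (.t
  t9 ok9) cl18

theorem cl20 : Clo5 K KFs HH l14 :=
  .q [0,0,0,0,0,1,0,0,0,-1,0,1] (e' := [0,0,0,0,0,-1,0,0,0,1,0,-1]) (.ed false [0,1,0,0,1] .k)
  (by decide +kernel) (by decide +kernel) cl19 (.t t30 ok30)

theorem cl21 : Clo5 K KFs HH r13 :=
  .q [0,0,0,0,0,0,-1,-1,-1,1,-1,-1] (e' := [0,0,0,0,0,0,1,1,1,-1,1,1]) (.p false [0,0,1] [1,0,0,0,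
  -1] (⟨0,[(28,0)]⟩,⟨0,[(27,0)]⟩) .k 2 (⟨0,[(21,0)]⟩,⟨0,[(22,0)]⟩) .k (.r 0 ⟨2,[(5,0),(17,1),(2,1),
  (8,0)]⟩ ⟨7,[(0,1),(2,1),(16,1),(3,5),(0,5),(11,0),(0,4)]⟩)) (by decide +kernel)
  (by decide +kernel) cl20 (.t t31 ok31)

theorem cl22 : Clo5 K KFs HH l12 :=
  .q [0,1,0,-1,-1,0,0,0,1,0,0,1] (e' := [0,-1,0,1,1,0,0,0,-1,0,0,-1]) (.p true [0,0,0,0,1] [] (⟨0,
  [(21,0)]⟩,⟨0,[(20,0)]⟩) .k 0 (⟨0,[]⟩,⟨0,[]⟩) .k .k) (by decide +kernel) (by decide +kernel) (.t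
  t8 ok8) cl21

theorem cl23 : Clo5 K KFs HH r11 :=
  .q [0,-1,0,0,1,0,0,0,-1,0,0,-1] (e' := [0,1,0,0,-1,0,0,0,1,0,0,1]) (.p false [0,0,0,0,1] [] (⟨0,
  [(20,0)]⟩,⟨0,[(19,0)]⟩) .k 0 (⟨0,[]⟩,⟨0,[]⟩) .k .k) (by decide +kernel) (by decide +kernel) cl22
  (.t t32 ok32)

theorem cl24 : Clo5 K KFs HH r10 :=
  .q [0,-1,0,-1,0,0,0,0,-1,1,0,-1] (e' := [0,1,0,1,0,0,0,0,1,-1,0,1]) (.p false [0,0,0,0,1] [1] (⟨0,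
  [(19,0)]⟩,⟨0,[(18,0)]⟩) .k 1 (⟨0,[]⟩,⟨0,[]⟩) .k .k) (by decide +kernel) (by decide +kernel) (.t
  t7 ok7) cl23

theorem cl25 : Clo5 K KFs HH l9 :=
  .i [0,1,2,1,0,0,0,1] (e' := [1,-1,-2,-1,0,0,0,-1]) (by decide +kernel) (by decide +kernel) (.t t6
  ok6) cl24

theorem cl26 : Clo5 K KFs HH r8 :=
  .q [0,0,0,1,1,0,0,0,-1,0,0,-1] (e' := [0,0,0,-1,-1,0,0,0,1,0,0,1]) (.p false [0,0,0,0,1] [] (⟨0,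
  [(17,0)]⟩,⟨0,[(16,0)]⟩) .k 0 (⟨0,[]⟩,⟨0,[]⟩) .k .k) (by decide +kernel) (by decide +kernel) cl25
  (.t t33 ok33)

theorem cl27 : Clo5 K KFs HH r7 :=
  .i [0,0,2,1,0,0,0,-1] (e' := [1,0,-2,-1,0,0,0,1]) (by decide +kernel) (by decide +kernel) (.t t5
  ok5) cl26

theorem cl28 : Clo5 K KFs HH r6 :=
  .i [1,1,1,1,0,0,0,1] (e' := [0,-1,-1,-1,0,0,0,-1]) (by decide +kernel) (by decide +kernel) (.t t4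
  ok4) cl27

theorem cl29 : Clo5 K KFs HH r5 :=
  .i [1,1,0,1,0,0,0,1] (e' := [0,-1,0,-1,0,0,0,-1]) (by decide +kernel) (by decide +kernel) (.t t3
  ok3) cl28

theorem cl30 : Clo5 K KFs HH l4 :=
  .i [0,0,1,1,0,0,0,-1] (e' := [1,0,-1,-1,0,0,0,1]) (by decide +kernel) (by decide +kernel) (.t t2
  ok2) cl29

theorem cl31 : Clo5 K KFs HH r56 :=
  .w [-1,0,0,0,0,4,0,0,0,0,4,-4] (e' := [2,0,0,0,0,-4,0,0,0,0,-4,4]) (by decide +kernel) (.t t45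
  ok45) (.t t46 ok46)

theorem cl32 : Clo5 K KFs HH r55 :=
  .i [0,0,-1,0,1,-1,1,0,-1] (e' := [1,0,1,0,-1,1,-1,0,1]) (by decide +kernel) (by decide +kernel)
  (.t t44 ok44) cl31

theorem cl33 : Clo5 K KFs HH l54 :=
  .q [0,0,0,-1,-1,0,-2,-2,0,2,-2] (e' := [0,0,0,1,1,0,2,2,0,-2,2]) (.p false [0,0,1] [2,-1,-1] (⟨0,
  [(38,0)]⟩,⟨0,[(37,0)]⟩) .k 2 (⟨0,[(37,0),(2,0)]⟩,⟨0,[(27,0)]⟩) .k (.r (-1) ⟨5,[(1,2),(1,1),(0,1),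
  (4,1),(10,0),(2,3)]⟩ ⟨8,[(0,1),(14,13),(1,1),(17,3),(7,3)]⟩)) (by decide +kernel)
  (by decide +kernel) (.t t43 ok43) cl32

theorem cl34 : Clo5 K KFs HH r58 :=
  .w [-1,0,0,0,0,4,0,0,0,0,4,-4] (e' := [2,0,0,0,0,-4,0,0,0,0,-4,4]) (by decide +kernel) (.t t48
  ok48) (.t t49 ok49)

theorem cl35 : Clo5 K KFs HH r54 :=
  .i [0,0,-1,0,1,-1,1,0,-1] (e' := [1,0,1,0,-1,1,-1,0,1]) (by decide +kernel) (by decide +kernel)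
  (.t t47 ok47) cl34

theorem cl36 : Clo5 K KFs HH l53 :=
  .q [0,0,0,-1,0,0,-2,-2,-1,3,-2,-1] (e' := [0,0,0,1,0,0,2,2,1,-3,2,1]) (.p false [-1,1,1] [2,0,-1,
  0,-1] (⟨0,[(26,0)]⟩,⟨0,[(36,0),(2,0)]⟩) .k 2 (⟨0,[(30,0),(5,0)]⟩,⟨0,[(6,0)]⟩) .k (.r (-1) ⟨5,[(0,
  4),(18,0),(2,5),(18,1),(1,1)]⟩ ⟨1,[(5,1),(1,1),(5,1),(20,0),(0,0)]⟩)) (by decide +kernel)
  (by decide +kernel) cl33 cl35

theorem cl37 : Clo5 K KFs HH l52 :=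
  .i [1,-1,1,1,1,0,0,1] (e' := [0,1,-1,-1,-1,0,0,-1]) (by decide +kernel) (by decide +kernel) cl36
  (.t t50 ok50)

theorem cl38 : Clo5 K KFs HH l51 :=
  .i [1,1,-1,-1,-1,0,0,-1] (e' := [0,-1,1,1,1,0,0,1]) (by decide +kernel) (by decide +kernel) cl37
  (.t t51 ok51)

theorem cl39 : Clo5 K KFs HH r50 :=
  .q [0,-1,0,1,2,0,1,1,-1,0,1,-1] (e' := [0,1,0,-1,-2,0,-1,-1,1,0,-1,1]) (.p false [0,0,-1,0,1] []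
  (⟨0,[(1,0),(22,0)]⟩,⟨0,[(27,0),(6,0)]⟩) .k 0 (⟨0,[]⟩,⟨0,[]⟩) .k (.r 0 ⟨4,[(11,1),(18,2),(0,2),(6,
  0)]⟩ ⟨5,[(0,2),(4,0),(8,0),(14,4),(9,1),(4,5)]⟩)) (by decide +kernel) (by decide +kernel) cl38
  (.t t52 ok52)

theorem cl40 : Clo5 K KFs HH r49 :=
  .q [0,0,1,0,0,0,2,0,0,-1,2] (e' := [0,0,-1,0,0,0,-2,0,0,1,-2]) (.p true [0,0,1] [1,0,-1] (⟨0,[(33,
  0)]⟩,⟨0,[(32,0)]⟩) .k 2 (⟨0,[(32,0)]⟩,⟨0,[(33,0)]⟩) .k (.r (-1) ⟨2,[(4,1),(8,1),(6,1),(7,3),(2,3),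
  (11,2)]⟩ ⟨0,[(10,0),(6,0),(12,0)]⟩)) (by decide +kernel) (by decide +kernel) (.t t42 ok42) cl39

theorem cl41 : Clo5 K KFs HH r48 :=
  .q [0,0,0,0,0,1,0,0,0,0,0,-1] (e' := [0,0,0,0,0,-1,0,0,0,0,0,1]) (.ed true [1,-1,0,0,1] .k)
  (by decide +kernel) (by decide +kernel) (.t t41 ok41) cl40

theorem cl42 : Clo5 K KFs HH r47 :=
  .q [0,0,0,-1,-1,0,1,1,1,0,1,1] (e' := [0,0,0,1,1,0,-1,-1,-1,0,-1,-1]) (.p true [1,-1,1] [1,0,0,0,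
  -1] (⟨0,[(31,0),(1,0)]⟩,⟨0,[(21,0)]⟩) .k 2 (⟨0,[(24,0)]⟩,⟨0,[(25,0)]⟩) .k (.r 0 ⟨2,[(2,0),(8,0),
  (6,0),(7,1),(2,1)]⟩ ⟨5,[(8,1),(18,3),(0,3),(11,0),(0,4)]⟩)) (by decide +kernel)
  (by decide +kernel) (.t t40 ok40) cl41

theorem cl43 : Clo5 K KFs HH l46 :=
  .q [0,0,0,0,0,0,0,0,0,1,-1,-1] (e' := [0,0,0,0,0,0,0,0,0,-1,1,1]) (.ed true [0,0,1,0,1] (.r 0 ⟨2,
  [(1,0),(8,0),(6,0),(7,1),(2,1)]⟩ ⟨5,[(7,1),(18,3),(0,3),(11,0),(0,4)]⟩)) (by decide +kernel)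
  (by decide +kernel) (.t t39 ok39) cl42

theorem cl44 : Clo5 K KFs HH r45 :=
  .q [0,0,1,0,-1,0,1,0,1,0,1,1] (e' := [0,0,-1,0,1,0,-1,0,-1,0,-1,-1]) (.p true [1,-1,1] [1,0,0,0,
  -1] (⟨0,[(29,0),(1,0)]⟩,⟨0,[(19,0)]⟩) .k 2 (⟨0,[(22,0)]⟩,⟨0,[(23,0)]⟩) .k (.r 0 ⟨2,[(0,0),(8,0),
  (6,0),(7,1),(2,1)]⟩ ⟨5,[(6,1),(18,3),(0,3),(11,0),(0,4)]⟩)) (by decide +kernel)
  (by decide +kernel) cl43 (.t t53 ok53)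

theorem cl45 : Clo5 K KFs HH r44 :=
  .q [0,-1,0,0,1,0,-1,-1,-1,1,-1,-1] (e' := [0,1,0,0,-1,0,1,1,1,-1,1,1]) (.p false [0,0,1] [1,0,0,0,
  -1] (⟨0,[(28,0)]⟩,⟨0,[(27,0)]⟩) .k 2 (⟨0,[(21,0)]⟩,⟨0,[(22,0)]⟩) .k (.x 0 ⟨11,[(3,9),(10,5),(5,1),
  (0,11),(3,1),(3,3),(7,0),(0,4)]⟩ ⟨0,[(8,0),(13,0),(3,0),(1,0)]⟩)) (by decide +kernel)
  (by decide +kernel) (.t t38 ok38) cl44

theorem cl46 : Clo5 K KFs HH l43 :=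
  .q [0,-1,0,-1,1,0,0,0,-1,1,0,-1] (e' := [0,1,0,1,-1,0,0,0,1,-1,0,1]) (.p false [0,0,0,0,1] [1]
  (⟨0,[(21,0)]⟩,⟨0,[(20,0)]⟩) .k 1 (⟨0,[]⟩,⟨0,[]⟩) .k .k) (by decide +kernel) (by decide +kernel)
  (.t t37 ok37) cl45

theorem cl47 : Clo5 K KFs HH l42 :=
  .q [0,1,0,0,-1,0,0,0,1,-1,0,1] (e' := [0,-1,0,0,1,0,0,0,-1,1,0,-1]) (.p true [0,0,0,0,1] [1] (⟨0,
  [(20,0)]⟩,⟨0,[(19,0)]⟩) .k 1 (⟨0,[]⟩,⟨0,[]⟩) .k .k) (by decide +kernel) (by decide +kernel) cl46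
  (.t t54 ok54)

theorem cl48 : Clo5 K KFs HH r41 :=
  .i [1,0,-2,-1] (e' := [0,0,2,1]) (by decide +kernel) (by decide +kernel) cl47 (.t t55 ok55)

theorem cl49 : Clo5 K KFs HH r40 :=
  .q [0,-1,0,0,1,0,-1,0,-1,1,-1,-1] (e' := [0,1,0,0,-1,0,1,0,1,-1,1,1]) (.p false [0,0,1] [1,0,0,0,
  -1] (⟨0,[(24,0)]⟩,⟨0,[(23,0)]⟩) .k 2 (⟨0,[(17,0)]⟩,⟨0,[(18,0)]⟩) .k (.x 0 ⟨1,[(0,1),(2,1),(6,0),
  (6,1),(1,1),(9,0)]⟩ ⟨0,[(4,0),(13,0),(3,0),(1,0)]⟩)) (by decide +kernel) (by decide +kernel) (.t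
  t36 ok36) cl48

theorem cl50 : Clo5 K KFs HH l39 :=
  .i [0,1,2,1,0,0,0,1] (e' := [1,-1,-2,-1,0,0,0,-1]) (by decide +kernel) (by decide +kernel) (.t
  t35 ok35) cl49

theorem cl51 : Clo5 K KFs HH l38 :=
  .i [0,0,-1,0,0,0,0,-1] (e' := [1,0,1,0,0,0,0,1]) (by decide +kernel) (by decide +kernel) cl50 (.t
  t56 ok56)

theorem cl52 : Clo5 K KFs HH r37 :=
  .i [1,0,-2,-1,0,0,0,-1] (e' := [0,0,2,1,0,0,0,1]) (by decide +kernel) (by decide +kernel) cl51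
  (.t t57 ok57)

theorem cl53 : Clo5 K KFs HH l36 :=
  .q [0,0,-1,-1,0,0,0,0,-1,1,0,-1] (e' := [0,0,1,1,0,0,0,0,1,-1,0,1]) (.p false [0,0,0,0,1] [1] (⟨0,
  [(14,0)]⟩,⟨0,[(13,0)]⟩) .k 1 (⟨0,[]⟩,⟨0,[]⟩) .k .k) (by decide +kernel) (by decide +kernel) (.t
  t34 ok34) cl52

theorem cl54 : Clo5 K KFs HH r4 :=
  .q [0,0,-1,0,1,0,0,0,-1,0,0,-1] (e' := [0,0,1,0,-1,0,0,0,1,0,0,1]) (.p false [0,0,0,0,1] [] (⟨0,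
  [(13,0)]⟩,⟨0,[(12,0)]⟩) .k 0 (⟨0,[]⟩,⟨0,[]⟩) .k .k) (by decide +kernel) (by decide +kernel) cl53
  (.t t58 ok58)

theorem cl55 : Clo5 K KFs HH l3 :=
  .q [0,-1,0,-1,0,0,0,0,0,1] (e' := [0,1,0,1,0,0,0,0,0,-1]) (.pp false [-1,1]) (by decide +kernel)
  (by decide +kernel) cl30 cl54

theorem cl56 : Clo5 K KFs HH r2 :=
  .i [0,-1,-1,-1,1,0,0,1] (e' := [1,1,1,1,-1,0,0,-1]) (by decide +kernel) (by decide +kernel) cl55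
  (.t t59 ok59)

theorem cl57 : Clo5 K KFs HH l1 :=
  .i [1,-1,2,1] (e' := [0,1,-2,-1]) (by decide +kernel) (by decide +kernel) (.t t1 ok1) cl56

noncomputable def t62 : Tre :=
  .Q [0,0,0,0,0,0,0,-1,0,1] (.pp false [-1,1]) t60 t61

theorem ok62 : chk5 K KFs t62 l63 = true :=
  chk5_Q (e' := [0,0,0,0,0,0,0,1,0,-1]) (by decide +kernel) (by decide +kernel) ok60 ok61

noncomputable def t64 : Tre :=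
  .Q [0,1,0,1,0,0,1,1,0,-1,1] (.p true [0,0,1] [1] (⟨0,[(19,0)]⟩,⟨0,[(18,0)]⟩) .k 1 (⟨0,[]⟩,⟨0,[]⟩)
  .k .k) t62 t63

theorem ok64 : chk5 K KFs t64 l62 = true :=
  chk5_Q (e' := [0,-1,0,-1,0,0,-1,-1,0,1,-1]) (by decide +kernel) (by decide +kernel) ok62 ok63

noncomputable def t66 : Tre :=
  .Q [0,0,0,1,1,0,-1,-1,0,-1,-1] (.p false [1,-1,1] [] (⟨0,[(18,0),(1,0)]⟩,⟨0,[(8,0)]⟩) .k 0 (⟨0,
  []⟩,⟨0,[]⟩) .k .k) t64 t65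

theorem ok66 : chk5 K KFs t66 l61 = true :=
  chk5_Q (e' := [0,0,0,-1,-1,0,1,1,0,1,1]) (by decide +kernel) (by decide +kernel) ok64 ok65

noncomputable def t68 : Tre :=
  .I [1,0,0,-1,0,0,0,2] t66 t67

theorem ok68 : chk5 K KFs t68 l60 = true :=
  chk5_I (e' := [0,0,0,1,0,0,0,-2]) (by decide +kernel) (by decide +kernel) ok66 ok67

noncomputable def t70 : Tre :=
  .Q [0,0,-1,0,1,0,0,0,-1,0,0,-1] (.p false [0,0,0,0,1] [] (⟨0,[(10,0)]⟩,⟨0,[(9,0)]⟩) .k 0 (⟨0,[]⟩,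
  ⟨0,[]⟩) .k .k) t68 t69

theorem ok70 : chk5 K KFs t70 r1 = true :=
  chk5_Q (e' := [0,0,1,0,-1,0,0,0,1,0,0,1]) (by decide +kernel) (by decide +kernel) ok68 ok69

theorem cl58 : Clo5 K KFs HH r0 :=
  .q [0,0,0,0,0,0,-1,-1,0,0,-1] (e' := [0,0,0,0,0,0,1,1,0,0,1]) (.p false [0,0,1] [] (⟨0,[(15,0)]⟩,
  ⟨0,[(14,0)]⟩) .k 0 (⟨0,[]⟩,⟨0,[]⟩) .k .k) (by decide +kernel) (by decide +kernel) cl57 (.t t70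
  ok70)

theorem cl59 : Clo5 K KFs HH base :=
  .i [1,-1,0,1,0,0,0,-1] (e' := [0,1,0,-1,0,0,0,1]) (by decide +kernel) (by decide +kernel) (.t t0
  ok0) cl58

open Helper25.KW Helper55.KE in
theorem closed {p a b c J l q : ℤ} {D dl : ℝ} {Cl : ℤ → ℤ → ℤ → ℤ → ℝ → Prop}
    (W : World p a b c J 1 l q D dl Cl) (hA : Aux p a b 1 D Cl) (g : G0 p a b c J D)
    {N X R : ℤ} {I : ℝ} (hk : KCl p l Cl N X R I) (kz : KF a b D (X + (1 : ℤ) * I) (X + (1 : ℤ) * I + R) I)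
    {Ne Xe : ℤ} {Ie : ℝ} (he : EFac p 1 D Cl (a) Ne Xe Ie)
    (hE : KZ p a b l 1 Cl (fun X R I => Zp 1 X R I ∧ Zy b 1 D X R I) N
      (fun _ _ I => I) I)
    (hN0 : KNo p a b l 1 Cl (fun X R I => Zx 1 X R I ∧ Zy b 1 D X R I))
    (hN1 : KNo p a b l 1 Cl (fun X R I => ZiD D J X R I ∧ Zy b 1 D X R I))
    (h0 : 1 ≤ -(c : ℝ))
    (h1 : 1 ≤ (a : ℝ) - (b : ℝ) + (c : ℝ))
    (h2 : 0 < 2 * (b : ℝ) - D)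
    (h3 : 1 ≤ 2 * (a : ℝ) - (b : ℝ))
    (h4 : 0 < (J : ℝ) - I)
    (h5 : 0 < (J : ℝ) - D + I)
    (h6 : 0 < (X : ℝ) + I)
    (h7 : 0 < -(b : ℝ) - (X : ℝ) + D - I)
    (h8 : 0 < D - 2 * I) : False := by
  have g1 := g.a2
  have g2 := g.b2
  have g3 := g.pa
  have g4 := g.pb
  have g5 := g.J1
  have g6 := g.JD
  have g7 := g.D2
  have g8 := g.ca
  have g9 := g.ca'
  have k1 := kz.I0
  have k2 := kz.ID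
  have k3 := kz.z1
  have k4 := kz.z2
  have k5 := kz.s1
  have k6 := kz.s2
  have e1 := he.I0
  have e2 := he.ID
  have e3 := he.x0
  have e4 := he.xp
  have hkf : ∀ M : ℤ, ∀ kf ∈ KFs, KOk4 p l Cl 1 (xv [1, a, b, c, p, J, X, R, Xe] [D, I, Ie]) N M kf := by
    intro M
    have hA1 : evg (xv [1, a, b, c, p, J, X, R, Xe] [D, I, Ie]) [0, 1] = a := by
      simp only [evg_cons, evg_nil, xv, List.map_cons, List.map_nil, List.cons_append, List.nil_append]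
      push_cast
      ring
    have hB1 : evg (xv [1, a, b, c, p, J, X, R, Xe] [D, I, Ie]) [0, 0, 1] = b := by
      simp only [evg_cons, evg_nil, xv, List.map_cons, List.map_nil, List.cons_append, List.nil_append]
      push_cast
      ring
    simp only [KFs, List.forall_mem_cons]
    refine ⟨kok4_ex hA1 hB1 M hE ?_ ?_, kok4_no hA1 hB1 N M hN0 ?_, kok4_no hA1 hB1 N M hN1 ?_, fun _ h => absurd h (by simp)⟩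
    · intro X' R' I' hg
      simp only [evg_cons, evg_nil, xv, List.map_cons, List.map_nil, List.cons_append, List.nil_append] at hg ⊢
      push_cast at hg ⊢
      linarith
    · intro X' R' I' _ hg
      simp only [List.forall_mem_cons, List.not_mem_nil, false_imp_iff, implies_true, and_true,
        evg_cons, evg_nil, xv, List.map_cons, List.map_nil, List.cons_append, List.nil_append] at hg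
      push_cast at hg
      simp only [Zx, Zp, Zs, Zsp, Zi, ZiD, Zy]
      push_cast
      refine ⟨?_, ?_⟩ <;> linarith [hg.1, hg.2.1, hg.2.2]
    · intro X' R' I' _ hg
      simp only [List.forall_mem_cons, List.not_mem_nil, false_imp_iff, implies_true, and_true,
        evg_cons, evg_nil, xv, List.map_cons, List.map_nil, List.cons_append, List.nil_append] at hg
      push_cast at hg
      simp only [Zx, Zp, Zs, Zsp, Zi, ZiD, Zy]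
      push_cast
      refine ⟨?_, ?_⟩ <;> linarith [hg.1, hg.2]
    · intro X' R' I' _ hg
      simp only [List.forall_mem_cons, List.not_mem_nil, false_imp_iff, implies_true, and_true,
        evg_cons, evg_nil, xv, List.map_cons, List.map_nil, List.cons_append, List.nil_append] at hg
      push_cast at hg
      simp only [Zx, Zp, Zs, Zsp, Zi, ZiD, Zy]
      push_cast
      refine ⟨?_, ?_⟩ <;> linarith [hg.1, hg.2]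
  push_cast at *
  refine closed5 (val_E W.toBase hk he (row := [0,1]) (by simp) (by simp) []) hA W rfl (Nk := N)
    (fun kf _ _ => ⟨_, rfl⟩) (fun _ _ _ => rfl) (hkf _) (H := HH) ?_ cl59 ?_
  · intro Q hQ
    exact absurd hQ (by simp [HH])
  · simp only [base, List.forall_mem_cons, List.not_mem_nil, false_imp_iff, implies_true,
      and_true, hld, xv, evg_cons, evg_nil, List.map_cons, List.map_nil, List.cons_append,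
      List.nil_append, if_true, if_false, Bool.false_eq_true]
    push_cast
    refine ⟨?_, ?_, ?_, ?_, ?_, ?_, ?_, ?_, ?_, ?_, ?_, ?_, ?_, ?_, ?_, ?_, ?_, ?_, ?_, ?_, ?_, ?_, ?_, ?_, ?_, ?_, ?_⟩ <;> linarith

end Helper25.S1T.Zmp1H
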