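import Pool.Agent.Helper81.PC.C3N
import Pool.Agent.Helper25.KG.C3
import Pool.Agent.Helper25.KG.Cfg3

set_option autoImplicit false
set_option linter.all false

namespace Helper25.S1T.Zmp1Hs_r1

open Helper25.KG Helper11.CT

noncomputable def K : Cls :=
  dK 1

noncomputable def KFs : List KF3 :=
  [(1, (0, 0, -1, [0,0,0,0,0,0,0,0,0,1]) :: (bx3 ++ [(1, 0, 0, []), (0, 0, -2, [0,0,0,0,0,0,0,0,1])])),
    (0, bx3 ++ [(-1, 0, 0, [])]),
    (0, bx3 ++ [(0, 0, -1, [0,0,0,0,0,-1,0,0,1])])]

noncomputable def base : List Con :=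
  [(false,[0,0,0,0,0,0,0,0,1,-2]),
  (false,[0,0,0,0,0,0,1,0,0,1]),
  (false,[0,0,0,0,0,1,0,0,-1,1]),
  (false,[0,0,0,0,0,1,0,0,0,-1]),
  (false,[0,1,0,0,0,0,1,1,0,1]),
  (false,[0,1,0,0,0,0,-1,-1,0,-1]),
  (false,[0,0,1,0,0,0,1,0,0,1]),
  (false,[0,0,1,0,0,0,-1,0,0,-1]),
  (false,[0,0,0,0,0,0,0,0,1,-1]),
  (false,[0,0,0,0,0,0,0,0,0,1]),
  (false,[0,0,0,0,1,0,0,0,-2]),
  (false,[0,0,0,0,0,-1,0,0,1]),
  (true,[0,0,0,0,0,1]),
  (true,[0,2,-1]),
  (false,[0,0,-2,0,0,0,0,0,1]),
  (true,[0,1,-1,1]),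
  (true,[0,1,0,1]),
  (true,[0,0,0,-1]),
  (true,[0,0,-2,0,1]),
  (true,[0,-2,0,0,1]),
  (true,[-1,0,1]),
  (true,[-1,1])]

noncomputable def l0 : List Con := (false, [0,0,0,2,1,0,0,0,-1]) :: base

noncomputable def r0 : List Con := (false, [0,0,0,-2,-1,0,0,0,1]) :: base

noncomputable def l1 : List Con := (false, [0,0,0,0,0,0,-1,-1,0,-1]) :: l0

noncomputable def r1 : List Con := (false, [0,0,0,0,0,0,1,1,0,1]) :: l0

noncomputable def l2 : List Con := (true, [0,1,0,-1,0,0,0,1]) :: l1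

noncomputable def r2 : List Con := (true, [1,-1,0,1,0,0,0,-1]) :: l1

noncomputable def l3 : List Con := (true, [1,0,0,1,0,0,0,-1]) :: l2

noncomputable def r3 : List Con := (true, [0,0,0,-1,0,0,0,1]) :: l2

noncomputable def l4 : List Con := (false, [0,-1,0,-1,0,0,0,0,1]) :: l3

noncomputable def r4 : List Con := (false, [0,1,0,1,0,0,0,0,-1]) :: l3

noncomputable def l5 : List Con := (false, [0,0,0,1,1,0,-1,-1,-1,-1]) :: r1

noncomputable def r5 : List Con := (false, [0,0,0,-1,-1,0,1,1,1,1]) :: r1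

noncomputable def l6 : List Con := (true, [0,0,0,-1,0,0,0,1]) :: l5

noncomputable def r6 : List Con := (true, [1,0,0,1,0,0,0,-1]) :: l5

noncomputable def l7 : List Con := (true, [0,0,-1,-1,0,0,0,1]) :: l6

noncomputable def r7 : List Con := (true, [1,0,1,1,0,0,0,-1]) :: l6

noncomputable def l8 : List Con := (true, [1,1,1,1,0,0,0,-1]) :: l7

noncomputable def r8 : List Con := (true, [0,-1,-1,-1,0,0,0,1]) :: l7

def HH (Q : List Con) : Prop := Q = r4 ∨ Q = r3 ∨ Q = l8 ∨ Q = r8

noncomputable def t0 : Tre :=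
  (.R ⟨0,false,false,true,[0,1,-1],[0,1],[0,0,1],(⟨0,[(8,0)]⟩,⟨0,[(14,0),(1,0)]⟩),(⟨0,[(17,0)]⟩,⟨0,
  [(16,0)]⟩),⟨0,[(14,0)]⟩,.k,.k,.k,.k,.k,.k,⟨false,1,⟨1,[(22,1),(0,0),(0,0)]⟩,⟨0,[(21,0)]⟩⟩,⟨true,0,
  ⟨0,[(6,0)]⟩,⟨0,[(12,0)]⟩⟩,⟨false,1,⟨0,[(2,0),(21,0)]⟩,⟨0,[(1,0)]⟩⟩,⟨true,0,⟨0,[(9,0)]⟩,⟨0,[(3,
  0)]⟩⟩,⟨false,0,⟨0,[]⟩,⟨0,[]⟩⟩,⟨false,0,⟨0,[]⟩,⟨0,[]⟩⟩,[.a ⟨true,0,⟨0,[(21,0)]⟩,⟨0,[(0,0)]⟩⟩ ⟨true,
  0,⟨1,[(11,0),(0,0)]⟩,⟨0,[]⟩⟩ ⟨false,0,⟨0,[(6,0),(14,0)]⟩,⟨1,[(12,1),(2,0),(3,1),(2,1),(1,0)]⟩⟩,.o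
  ⟨false,1,⟨13,[(2,1),(1,7),(5,1),(0,1),(3,2),(7,0),(0,1)]⟩,⟨0,[(22,0)]⟩⟩,.o ⟨false,1,⟨0,[(12,0),(2,
  0),(3,0)]⟩,⟨0,[(11,0)]⟩⟩,.o ⟨false,1,⟨1,[(12,1),(2,0),(7,0)]⟩,⟨0,[(6,0)]⟩⟩]⟩)

theorem ok0 : chk3 K KFs t0 l4 = true := by decide +kernel

noncomputable def t1 : Tre :=
  (.R ⟨0,false,false,true,[1,0,-1],[1,-1],[0,1],(⟨0,[(11,0)]⟩,⟨0,[(12,0)]⟩),(⟨0,[(14,0)]⟩,⟨0,[(15,
  0)]⟩),⟨0,[(5,0)]⟩,.k,.k,.k,.k,.k,.k,⟨true,0,⟨0,[(0,0),(6,0),(2,0)]⟩,⟨0,[(20,0)]⟩⟩,⟨false,0,⟨0,[(4,
  0)]⟩,⟨0,[(10,0),(10,0)]⟩⟩,⟨false,1,⟨1,[(7,1),(2,1),(10,0),(0,0)]⟩,⟨0,[(0,0),(19,0)]⟩⟩,⟨true,0,⟨0,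
  [(7,0),(12,0)]⟩,⟨1,[(0,0),(0,0),(8,0),(7,0)]⟩⟩,⟨false,0,⟨0,[]⟩,⟨0,[]⟩⟩,⟨false,0,⟨0,[]⟩,⟨0,[]⟩⟩,
  [.e ⟨false,0,⟨0,[(18,0),(1,0)]⟩,⟨0,[(22,0),(1,0)]⟩⟩ ⟨false,0,⟨0,[(4,0),(13,0),(1,1)]⟩,⟨1,[(2,0),
  (7,1),(6,0),(4,0)]⟩⟩,.o ⟨false,0,⟨0,[(20,0)]⟩,⟨3,[(2,1),(10,0),(8,0),(1,1)]⟩⟩,.a ⟨true,0,⟨1,[(10,
  1),(3,0),(0,0),(1,0)]⟩,⟨0,[(4,0)]⟩⟩ ⟨true,0,⟨0,[(24,0)]⟩,⟨0,[]⟩⟩ ⟨false,0,⟨0,[(4,0),(15,0)]⟩,⟨1,
  [(2,0),(7,1),(6,0),(4,0)]⟩⟩,.o ⟨false,0,⟨0,[(10,0)]⟩,⟨1,[(4,1),(8,0),(7,0)]⟩⟩]⟩)

theorem ok1 : chk3 K KFs t1 r2 = true := by decide +kernel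

open Helper55.PC in
noncomputable def t2n : Helper55.PC.Ten :=
  (q 190310890042104825079960630884517311021065 (r
  2331386975601113979468138621403903289209461350393520282365578953275891780603825918211256862027118755257945643667808076081991610244462530365179836145430971318313798746067640331735765180484055548016233153642377397135762503511080557461450031905823638550951793897904797878497853375297024038443411775088241492844233631086552768893394882625437126416914188574338000845594229866335614756441579744)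
  (i 72101579871879172 (r
  9969016295381302027412791864298882164623834218109932123057595556773384821379749295787869682555627057990429563378247567584495094373597899795639103583268540381798115641314778957675283479520051626836262145803414056779672588873700102560624922315263372342119580100041010045860454651551763250663885684070635982015336775230237063386820093365820848947891101491416494222127649387756207375107306793935693154862144694837388240543510659576001704239328)
  (r
  212017528804109679709901310916669115132459336218144473001732061591863634320630517274950815580636867491694836283114530902121346865402304976284235765684648254625978323950028820010009016738172946744911413058710956799272231575883879692273217111978887529160878791574334317606581567058753603042617607043565106789675130921656721889951724451789538712091709978532806459111694393279971136811861613165814106557787359758917292618671525147383460452077214823560996035326061974209785827696864)))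

noncomputable def t2 : Tre := Helper55.PC.toT t2n

theorem ok2 : chk3 K KFs t2 r7 = true :=
  Helper81.PC.chk3N_sound K KFs t2n r7 (by decide +kernel)

noncomputable def t3 : Tre :=
  (.R ⟨0,false,false,false,[1,0,-1],[1,-1],[],(⟨0,[(12,0)]⟩,⟨0,[(13,0)]⟩),(⟨0,[(15,0)]⟩,⟨0,[(16,
  0)]⟩),⟨0,[(6,0)]⟩,.k,.k,.k,.k,.k,.k,⟨true,0,⟨0,[(0,0),(1,0),(8,0)]⟩,⟨0,[(21,0)]⟩⟩,⟨false,0,⟨0,[(5,
  0)]⟩,⟨0,[(11,0),(10,0)]⟩⟩,⟨false,1,⟨1,[(2,1),(8,1),(10,0),(0,0)]⟩,⟨0,[(0,0),(20,0)]⟩⟩,⟨true,0,⟨0,
  [(2,0),(18,0)]⟩,⟨1,[(0,0),(8,0),(1,0),(7,0)]⟩⟩,⟨false,0,⟨0,[]⟩,⟨0,[]⟩⟩,⟨false,0,⟨0,[]⟩,⟨0,[]⟩⟩,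
  [.o ⟨false,0,⟨0,[(21,0)]⟩,⟨5,[(1,1),(1,1),(4,1),(5,0),(8,0)]⟩⟩,.e ⟨false,1,⟨1,[(22,0),(0,0)]⟩,⟨0,
  [(25,0)]⟩⟩ ⟨false,1,⟨1,[(5,1),(15,1),(0,0),(0,0)]⟩,⟨0,[(11,0),(7,0)]⟩⟩,.a ⟨true,0,⟨1,[(11,1),(3,
  0),(0,0),(1,0)]⟩,⟨0,[(5,0)]⟩⟩ ⟨false,1,⟨0,[(23,0),(1,0)]⟩,⟨0,[]⟩⟩ ⟨true,0,⟨0,[(5,0),(15,0)]⟩,⟨0,
  [(11,0),(7,0)]⟩⟩,.o ⟨false,0,⟨0,[(11,0)]⟩,⟨1,[(5,1),(8,0),(7,0)]⟩⟩]⟩)

theorem ok3 : chk3 K KFs t3 r6 = true := by decide +kernel

open Helper55.PC in
noncomputable def t4n : Helper55.PC.Ten :=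
  (i 324478944413463240967220191690760 (r
  135103508784919299759835781359760971808923785144187053623654126264339174973434356203885638619775147580066666946235868580174515869225524187903895752520748533775719611667757449779968922825531562658094487756811527832456122610530655474663914982980689132510249414238638844075777481885007487138973661867584556604899778675283368757741476294871726741017691881397309520027770483723315445873473853528718641871243081754291692396768)
  (r
  8742289255272955781368224381859581141069213027724793130664525430305754330030304451795433649440169577024983114176146397130742524241066117635578730432423451812978221659768348942080996586755614102244572065539436505148798296910146511097156062047801397929853311988788090888922197816099522187022896258979177429413428167238811895091364550683447532612566216273655056694558075446120135634546445197872488623098460602608001870747363994956987837810223491939822016611009545769777678610129167046140544))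

noncomputable def t4 : Tre := Helper55.PC.toT t4n

theorem ok4 : chk3 K KFs t4 r5 = true :=
  Helper81.PC.chk3N_sound K KFs t4n r5 (by decide +kernel)

open Helper55.PC in
noncomputable def t5n : Helper55.PC.Ten :=
  (i 72031204684988420 (r
  1405187104512308321733880939701345618634713575678488647793178292054388222002291647313974857326146158810619451141136147123765714210910241172452200809935164270732273451324673961221048473842466099927160105902484627151177757076723840436769183469717472721073810114328443543774798705624208823104367711027520102538)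
  (i 324637400738491769607220759756808 (q
  20220062845967375199649893105759730538139540501670138858987321425930 (i
  324637400738491769624812945801256 (r
  242631227363593143012673570486189165104099019187251439689044309670084482830803301354655197519501551290207168990359247907354673864840162186351710843012450242765810196790606896420946610384530481732258773966576501543180734713145497531819285134960803951671486614142355679035314679032936016769531216010044698724779860635789516307100503967062511220341089191850038454624228956569229724936506271304455140483230857363661061332932597812083612836842910149569874058226427523986383040)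
  (q 431380538283882953781047896803415618306230328906640558124010790060042 (r
  188134452677224525086144256648035742681009808231692721986212532646169615334272150753959258136577946013371112244492115970743221256932176919310013564870428515716898202905007737238195681261325570863552446447525200644508737820184380650062526768808678004967176830533885343378197519233655428854765535471556026320239242006284783822219903914943958318509577070753816032831043141189633951446432247196016693269974275881237691233131816658500762242193653390969333110644624442616841566965772028090821331357492488234083008)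
  (r
  175557644811694212487311440006745111261704703750281890066325287345782461846550986543647237270345719262308597054596326181164076898780774922790217228231591988829262400549031220593444935082296926748753827388343822114695768186639529705673506466669639302775648159374208047679809107416464114204463674676723081354)))
  (r
  194959565133694225809460658461432447527877905399953357279663056411116331625281590988078687992332919339339335555878014702364048786535716196123079805033967385082232126448423106170628598141178121745802967288305305401935669646084887760581957845682120923462891068293899997001436713449361286124969627315021819729043939211307252683288625875753117720972540117601859837010166899386754514934694470625818827299525420832111398247124022436024484233291617859395640535471106060303229043118440433049122606768194839911074373204708077006851271287424))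
  (r
  137011444286922073274028658960573326430347605935756758079923204845773352059734826071099267844311353728208107816264573472663709771993135796574747005366717840305407851720055641991848339229417616922604378223234947309067087246999601258605116975822467295089321645473239694933472082869116869156318318540461925113986859074481868227653424977015966066705757422743405960975352348501334374098633100159379202317599508785658441799239022061396102016131439282381024)))

noncomputable def t5 : Tre := Helper55.PC.toT t5n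

theorem ok5 : chk3 K KFs t5 r0 = true :=
  Helper81.PC.chk3N_sound K KFs t5n r0 (by decide +kernel)

theorem cl0 : Clo3 K KFs HH l3 :=
  .q [0,-1,0,-1,0,0,0,0,1] (e' := [0,1,0,1,0,0,0,0,-1]) (.pp false [-1,1]) (by decide +kernel)
  (by decide +kernel) (.t t0 ok0) (.h (Or.inl rfl))

theorem cl1 : Clo3 K KFs HH l2 :=
  .i [1,0,0,1,0,0,0,-1] (e' := [0,0,0,-1,0,0,0,1]) (by decide +kernel) (by decide +kernel) cl0 (.h
  (Or.inr (Or.inl rfl)))

theorem cl2 : Clo3 K KFs HH l1 :=
  .i [0,1,0,-1,0,0,0,1] (e' := [1,-1,0,1,0,0,0,-1]) (by decide +kernel) (by decide +kernel) cl1 (.t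
  t1 ok1)

theorem cl3 : Clo3 K KFs HH l7 :=
  .i [1,1,1,1,0,0,0,-1] (e' := [0,-1,-1,-1,0,0,0,1]) (by decide +kernel) (by decide +kernel) (.h
  (Or.inr (Or.inr (Or.inl rfl)))) (.h (Or.inr (Or.inr (Or.inr rfl))))

theorem cl4 : Clo3 K KFs HH l6 :=
  .i [0,0,-1,-1,0,0,0,1] (e' := [1,0,1,1,0,0,0,-1]) (by decide +kernel) (by decide +kernel) cl3 (.t
  t2 ok2)

theorem cl5 : Clo3 K KFs HH l5 :=
  .i [0,0,0,-1,0,0,0,1] (e' := [1,0,0,1,0,0,0,-1]) (by decide +kernel) (by decide +kernel) cl4 (.t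
  t3 ok3)

theorem cl6 : Clo3 K KFs HH r1 :=
  .q [0,0,0,1,1,0,-1,-1,-1,-1] (e' := [0,0,0,-1,-1,0,1,1,1,1]) (.p false [1,-1,1] [] (⟨0,[(11,0),(1,
  0)]⟩,⟨0,[(5,0)]⟩) .k 0 (⟨0,[]⟩,⟨0,[]⟩) .k .k) (by decide +kernel) (by decide +kernel) cl5 (.t t4
  ok4)

theorem cl7 : Clo3 K KFs HH l0 :=
  .q [0,0,0,0,0,0,-1,-1,0,-1] (e' := [0,0,0,0,0,0,1,1,0,1]) (.p false [0,0,1] [] (⟨0,[(10,0)]⟩,⟨0,
  [(9,0)]⟩) .k 0 (⟨0,[]⟩,⟨0,[]⟩) .k .k) (by decide +kernel) (by decide +kernel) cl2 cl6

theorem cl8 : Clo3 K KFs HH base :=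
  .q [0,0,0,2,1,0,0,0,-1] (e' := [0,0,0,-2,-1,0,0,0,1]) (.pp true [-1,1]) (by decide +kernel)
  (by decide +kernel) cl7 (.t t5 ok5)

open Helper25.KW Helper55.KE in
theorem closed {p a b c J l q : ℤ} {D dl : ℝ} {Cl : ℤ → ℤ → ℤ → ℤ → ℝ → Prop}
    (W : World p a b c J 1 l q D dl Cl) (g : G0 p a b c J D)
    {N X R : ℤ} {I : ℝ} (hk : KCl p l Cl N X R I) (kz : KF a b D (X + (1 : ℤ) * I) (X + (1 : ℤ) * I + R) I)
    (hE : KZ p a b l 1 Cl (fun X R I => Zp 1 X R I) N
      (fun _ _ I => I) I)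
    (hN0 : KNo p a b l 1 Cl (fun X R I => Zx 1 X R I))
    (hN1 : KNo p a b l 1 Cl (fun X R I => ZiD D J X R I))
    (h0 : 1 ≤ -(c : ℝ))
    (h1 : 1 ≤ (a : ℝ) - (b : ℝ) + (c : ℝ))
    (h2 : 0 < -2 * (b : ℝ) + D)
    (h3 : 1 ≤ 2 * (a : ℝ) - (b : ℝ))
    (h4 : 0 < (J : ℝ) - I)
    (h5 : 0 < (J : ℝ) - D + I)
    (h6 : 0 < (X : ℝ) + I)
    (h7 : 0 < D - 2 * I)
    (H0 : 0 < 2 * (c : ℝ) + (p : ℝ) - D → 0 < -(X : ℝ) - (R : ℝ) - I → 1 ≤ (a : ℝ) - (c : ℝ) + (R : ℝ) → 1 ≤ 1 + (c : ℝ) - (R : ℝ) → 0 < (a : ℝ) + (c : ℝ) - D → False)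
    (H1 : 0 < 2 * (c : ℝ) + (p : ℝ) - D → 0 < -(X : ℝ) - (R : ℝ) - I → 1 ≤ (a : ℝ) - (c : ℝ) + (R : ℝ) → 1 ≤ -(c : ℝ) + (R : ℝ) → False)
    (H2 : 0 < 2 * (c : ℝ) + (p : ℝ) - D → 0 < (X : ℝ) + (R : ℝ) + I → 0 < (c : ℝ) + (p : ℝ) - (X : ℝ) - (R : ℝ) - D - I → 1 ≤ -(c : ℝ) + (R : ℝ) → 1 ≤ -(b : ℝ) - (c : ℝ) + (R : ℝ) → 1 ≤ 1 + (a : ℝ) + (b : ℝ) + (c : ℝ) - (R : ℝ) → False)
    (H3 : 0 < 2 * (c : ℝ) + (p : ℝ) - D → 0 < (X : ℝ) + (R : ℝ) + I → 0 < (c : ℝ) + (p : ℝ) - (X : ℝ) - (R : ℝ) - D - I → 1 ≤ -(c : ℝ) + (R : ℝ) → 1 ≤ -(b : ℝ) - (c : ℝ) + (R : ℝ) → 1 ≤ -(a : ℝ) - (b : ℝ) - (c : ℝ) + (R : ℝ) → False) : False := by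
  have g1 := g.a2
  have g2 := g.b2
  have g3 := g.pa
  have g4 := g.pb
  have g5 := g.J1
  have g6 := g.JD
  have g7 := g.D2
  have g8 := g.ca
  have g9 := g.ca'
  have k1 := kz.I0
  have k2 := kz.ID
  have k3 := kz.z1
  have k4 := kz.z2
  have k5 := kz.s1
  have k6 := kz.s2
  have hkf : ∀ kf ∈ KFs, KOk3 p l Cl 1 (xv [1, a, b, c, p, J, X, R] [D, I]) N kf := by
    have hA1 : evg (xv [1, a, b, c, p, J, X, R] [D, I]) [0, 1] = a := by
      simp only [evg_cons, evg_nil, xv, List.map_cons, List.map_nil, List.cons_append, List.nil_append]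
      push_cast
      ring
    have hB1 : evg (xv [1, a, b, c, p, J, X, R] [D, I]) [0, 0, 1] = b := by
      simp only [evg_cons, evg_nil, xv, List.map_cons, List.map_nil, List.cons_append, List.nil_append]
      push_cast
      ring
    simp only [KFs, List.forall_mem_cons]
    refine ⟨kok3_ex hA1 hB1 hE ?_ ?_, kok3_no hA1 hB1 N hN0 ?_, kok3_no hA1 hB1 N hN1 ?_, fun _ h => absurd h (by simp)⟩
    · intro X' R' I' hg
      simp only [evg_cons, evg_nil, xv, List.map_cons, List.map_nil, List.cons_append, List.nil_append] at hg ⊢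
      push_cast at hg ⊢
      linarith
    · intro X' R' I' _ hg
      simp only [List.forall_mem_cons, List.not_mem_nil, false_imp_iff, implies_true, and_true,
        evg_cons, evg_nil, xv, List.map_cons, List.map_nil, List.cons_append, List.nil_append] at hg
      push_cast at hg
      simp only [Zx, Zp, Zs, Zsp, Zi, ZiD, Zy]
      push_cast
      linarith [hg.1, hg.2]
    · intro X' R' I' _ hg
      simp only [List.forall_mem_cons, List.not_mem_nil, false_imp_iff, implies_true, and_true,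
        evg_cons, evg_nil, xv, List.map_cons, List.map_nil, List.cons_append, List.nil_append] at hg
      push_cast at hg
      simp only [Zx, Zp, Zs, Zsp, Zi, ZiD, Zy]
      push_cast
      linarith
    · intro X' R' I' _ hg
      simp only [List.forall_mem_cons, List.not_mem_nil, false_imp_iff, implies_true, and_true,
        evg_cons, evg_nil, xv, List.map_cons, List.map_nil, List.cons_append, List.nil_append] at hg
      push_cast at hg
      simp only [Zx, Zp, Zs, Zsp, Zi, ZiD, Zy]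
      push_cast
      linarith
  push_cast at *
  refine closed3 (val_K W.toBase hk []) W rfl (Nk := N)
    (fun kf _ _ => ⟨_, rfl⟩) hkf (H := HH) ?_ cl8 ?_
  · rintro Q (rfl | rfl | rfl | rfl) hQ
    · simp only [r4, l3, l2, l1, l0, List.forall_mem_cons, hld, xv, evg_cons, evg_nil, List.map_cons,
        List.map_nil, List.cons_append, List.nil_append, if_true, if_false, Bool.false_eq_true] at hQ
      push_cast at hQ
      obtain ⟨p4, p3, p2, p1, p0, -⟩ := hQ
      exact H0 (by linarith) (by linarith) (by linarith) (by linarith) (by linarith)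
    · simp only [r3, l2, l1, l0, List.forall_mem_cons, hld, xv, evg_cons, evg_nil, List.map_cons,
        List.map_nil, List.cons_append, List.nil_append, if_true, if_false, Bool.false_eq_true] at hQ
      push_cast at hQ
      obtain ⟨p3, p2, p1, p0, -⟩ := hQ
      exact H1 (by linarith) (by linarith) (by linarith) (by linarith)
    · simp only [l8, l7, l6, l5, r1, l0, List.forall_mem_cons, hld, xv, evg_cons, evg_nil, List.map_cons,
        List.map_nil, List.cons_append, List.nil_append, if_true, if_false, Bool.false_eq_true] at hQ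
      push_cast at hQ
      obtain ⟨p5, p4, p3, p2, p1, p0, -⟩ := hQ
      exact H2 (by linarith) (by linarith) (by linarith) (by linarith) (by linarith) (by linarith)
    · simp only [r8, l7, l6, l5, r1, l0, List.forall_mem_cons, hld, xv, evg_cons, evg_nil, List.map_cons,
        List.map_nil, List.cons_append, List.nil_append, if_true, if_false, Bool.false_eq_true] at hQ
      push_cast at hQ
      obtain ⟨p5, p4, p3, p2, p1, p0, -⟩ := hQ
      exact H3 (by linarith) (by linarith) (by linarith) (by linarith) (by linarith) (by linarith)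
  · simp only [base, List.forall_mem_cons, List.not_mem_nil, false_imp_iff, implies_true,
      and_true, hld, xv, evg_cons, evg_nil, List.map_cons, List.map_nil, List.cons_append,
      List.nil_append, if_true, if_false, Bool.false_eq_true]
    push_cast
    refine ⟨?_, ?_, ?_, ?_, ?_, ?_, ?_, ?_, ?_, ?_, ?_, ?_, ?_, ?_, ?_, ?_, ?_, ?_, ?_, ?_, ?_, ?_⟩ <;> linarith

end Helper25.S1T.Zmp1Hs_r1
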