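import Pool.Agent.Helper81.PC.C4N
import Pool.Agent.Helper25.KG.C4
import Pool.Agent.Helper25.KG.C4s
import Pool.Agent.Helper25.KG.C4d

set_option autoImplicit false
set_option linter.all false

namespace Helper25.S1T.Zmp1aN1

open Helper25.KG Helper11.CT

noncomputable def K : Cls :=
  dV 1

noncomputable def KFs : List KF3 :=
  [(3, bx3 ++ []),
    (0, bx3 ++ [(-1, 0, 0, [])]),
    (0, bx3 ++ [(0, 0, -1, [0,0,0,0,0,-1,0,0,0,0,1])]),
    (4, (-1, 0, 0, [0, 0, 1]) :: (1, 0, 0, [0, 0, 1]) :: [(1, 0, 0, [])]),
    (4, (-1, 0, 0, [0, 0, 1]) :: (1, 0, 0, [0, 0, 1]) :: [(-1, 0, 0, []), (0, 0, -1, [0,0,0,0,0,0,0,0,0,0,0,0,1])])]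

noncomputable def base : List Con :=
  [(false,[0,0,0,0,0,0,0,0,0,0,0,1,-1]),
  (true,[0,0,1,1,0,0,0,1]),
  (false,[0,0,0,0,0,0,-1,-1,0,0,0,-1]),
  (false,[0,0,0,0,0,0,0,0,0,0,-1,2]),
  (false,[0,0,0,0,0,0,1,0,0,0,0,1]),
  (false,[0,-1,0,0,1,0,0,0,-1,-1,0,0,-1]),
  (false,[0,-1,0,0,0,0,0,0,1,1,0,0,1]),
  (false,[0,0,1,0,0,0,0,0,0,1,0,0,1]),
  (false,[0,0,0,0,0,0,0,0,0,-1,0,0,-1]),
  (false,[0,0,0,0,0,1,0,0,0,0,-1,1]),
  (false,[0,0,0,0,0,1,0,0,0,0,0,-1]),
  (false,[0,0,0,0,0,0,0,0,0,0,1,0,-1]),
  (false,[0,0,0,0,0,0,0,0,0,0,0,0,1]),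
  (false,[0,1,0,0,0,0,1,1,0,0,0,1]),
  (false,[0,1,0,0,0,0,-1,-1,0,0,0,-1]),
  (false,[0,0,1,0,0,0,1,0,0,0,0,1]),
  (false,[0,0,1,0,0,0,-1,0,0,0,0,-1]),
  (false,[0,0,0,0,0,0,0,0,0,0,1,-1]),
  (false,[0,0,0,0,0,0,0,0,0,0,0,1]),
  (false,[0,0,0,0,1,0,0,0,0,0,-2]),
  (false,[0,0,0,0,0,-1,0,0,0,0,1]),
  (true,[0,0,0,0,0,1]),
  (true,[0,2,-1]),
  (false,[0,0,-2,0,0,0,0,0,0,0,1]),
  (true,[0,1,-1,1]),
  (true,[0,1,0,1]),
  (true,[0,0,0,-1]),
  (true,[0,0,-2,0,1]),
  (true,[0,-2,0,0,1]),
  (true,[-1,0,1]),
  (true,[-1,1])]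

open Helper55.PC in
noncomputable def t0n : Helper55.PC.Ten :=
  (q 1897152065952624957120715671788448472979196922685829501132344323583586434193424396 (q
  12771547637554566980034867104563863551676233154571 (r
  2046293141972464782247756011632194227436175797715213602155641554480117008933148942769022094182241355507136368719157785819527845541781123854592339325385796593778397984476295072876455384571285648039092191740374820200795371418096019242962825242845380539057562817304663738256680411356133605362059013127734887295163089852702257189684613359877119171862264161022881563320147260280541066039016579296)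
  (q 28950120443589494963438720535069409480167278350042766887168309136416086818828 (r
  63800499560384369558542145245894071311937310951113014182219520489023744545877974601060887675605582518931922138559075305163681871840523517100123896107796197726527702202710650192308369899734428158134403670017095602821645427036114599535007261283111040593630036762152493881566495145022615453913278787103851800503608520656999688589543837404387988268351993899170196156502213328717118976746273924095585812460553743815440847175437949533849849176256)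
  (r
  69110587091260224510897137992504212678090541918787295780643533002919662828507610953184444910365294803026509303365200291044021516310079579239391240901934077683994172807240232977251335348356979596811862804025258024123122769074146847123395707283318975261324215339025205412088033212351457318377724103534160700775950859403234727949170212365983750925955898773332792866424809101143372201789828406814386483138824453409943549357503725327895674313907012090264227799717526643424)))
  (q 62115822463938617880288080748214753760780660805374265802041197877919756 (r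
  2322125699425547616337955440274226524144411954872530314843416485213377722540991878758046851479456147178040418186491279825017757176261938472903837068649736705102236009662509860939890942311320250249750785524878835998941019399085054593522124577225086849718990489903471595039198382815995261846635422785508247908384171643947064987997197391002687203823323027387980882733235575179413612697417487822626758249403760813828481728)
  (r
  401440526955605140623539232214982061369680731281075928339369298322980239257584297236601967354677412984494999223369733132493694958191719931500290740930029046623768115226545888639672737121633562184029204137070533928793842617519630125782565592592510756316280218545184451986134446685362565505138463071786827432937870558341430357021178821499216864598403163002750647119520465955373985800718569156536169900600370000767753988929704626327593269066557285024)))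

noncomputable def t0 : Tre := Helper55.PC.toT t0n

theorem ok0 : chk4 K KFs t0 base = true :=
  Helper81.PC.chk4N_sound K KFs t0n base (by decide +kernel)

open Helper25.KW Helper55.KE in
theorem closed {p a b c J l q : ℤ} {D dl : ℝ} {Cl : ℤ → ℤ → ℤ → ℤ → ℝ → Prop}
    (W : World p a b c J 1 l q D dl Cl) (g : G0 p a b c J D)
    {N X R : ℤ} {I : ℝ} (hk : KCl p l Cl N X R I) (kz : KF a b D (X + (1 : ℤ) * I) (X + (1 : ℤ) * I + R) I)
    {Nw Xw Rw : ℤ} {Iw : ℝ} (hw : KCl p l Cl Nw Xw Rw Iw) (hne : N ≠ Nw)
    (hU : KU p a b l 1 Cl (fun _ _ _ => True) N)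
    (hN0 : KNo p a b l 1 Cl (fun X R I => Zx 1 X R I))
    (hN1 : KNo p a b l 1 Cl (fun X R I => ZiD D J X R I))
    (hW0 : StN p b l 1 Cl (fun X' R' I' => 0 < ((X' : ℝ) + (1 : ℤ) * I')) N Nw)
    (hW1 : StN p b l 1 Cl (fun X' R' I' => 0 < (-1) * ((X' : ℝ) + (1 : ℤ) * I') ∧ 0 < (-1) * I' + (Iw)) N Nw)
    (h0 : 1 ≤ -(c : ℝ))
    (h1 : 1 ≤ (a : ℝ) - (b : ℝ) + (c : ℝ))
    (h2 : 0 < -2 * (b : ℝ) + D)
    (h3 : 1 ≤ 2 * (a : ℝ) - (b : ℝ))
    (h4 : 0 < Iw)
    (h5 : 0 < D - Iw)
    (h6 : 0 < (J : ℝ) - I)
    (h7 : 0 < (J : ℝ) - D + I)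
    (h8 : 0 < -(Xw : ℝ) - Iw)
    (h9 : 0 < (b : ℝ) + (Xw : ℝ) + Iw)
    (h10 : 0 < -(a : ℝ) + (Rw : ℝ) + (Xw : ℝ) + Iw)
    (h11 : 0 < -(a : ℝ) + (p : ℝ) - (Rw : ℝ) - (Xw : ℝ) - Iw)
    (h12 : 0 < (X : ℝ) + I)
    (h13 : 0 < -D + 2 * I)
    (h14 : 0 < -(X : ℝ) - (R : ℝ) - I)
    (h15 : 1 ≤ (b : ℝ) + (c : ℝ) + (R : ℝ))
    (h16 : 0 < I - Iw) : False := by
  have g1 := g.a2
  have g2 := g.b2
  have g3 := g.pa
  have g4 := g.pb
  have g5 := g.J1
  have g6 := g.JD
  have g7 := g.D2
  have g8 := g.ca
  have g9 := g.ca'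
  have k1 := kz.I0
  have k2 := kz.ID
  have k3 := kz.z1
  have k4 := kz.z2
  have k5 := kz.s1
  have k6 := kz.s2
  have hkf : ∀ kf ∈ KFs, KOk4 p l Cl 1 (xv [1, a, b, c, p, J, X, R, Rw, Xw] [D, I, Iw]) N Nw kf := by
    have hA1 : evg (xv [1, a, b, c, p, J, X, R, Rw, Xw] [D, I, Iw]) [0, 1] = a := by
      simp only [evg_cons, evg_nil, xv, List.map_cons, List.map_nil, List.cons_append, List.nil_append]
      push_cast
      ring
    have hB1 : evg (xv [1, a, b, c, p, J, X, R, Rw, Xw] [D, I, Iw]) [0, 0, 1] = b := by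
      simp only [evg_cons, evg_nil, xv, List.map_cons, List.map_nil, List.cons_append, List.nil_append]
      push_cast
      ring
    simp only [KFs, List.forall_mem_cons]
    refine ⟨kok4_u hA1 hB1 Nw hU ?_, kok4_no hA1 hB1 N Nw hN0 ?_, kok4_no hA1 hB1 N Nw hN1 ?_, kok4_st hB1 hW0 ?_, kok4_st hB1 hW1 ?_, fun _ h => absurd h (by simp)⟩
    · intro _ _ _ _ _
      trivial
    · intro X' R' I' _ hg
      simp only [List.forall_mem_cons, List.not_mem_nil, false_imp_iff, implies_true, and_true,
        evg_cons, evg_nil, xv, List.map_cons, List.map_nil, List.cons_append, List.nil_append] at hg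
      push_cast at hg
      simp only [Zx, Zp, Zs, Zsp, Zi, ZiD, Zy]
      push_cast
      linarith
    · intro X' R' I' _ hg
      simp only [List.forall_mem_cons, List.not_mem_nil, false_imp_iff, implies_true, and_true,
        evg_cons, evg_nil, xv, List.map_cons, List.map_nil, List.cons_append, List.nil_append] at hg
      push_cast at hg
      simp only [Zx, Zp, Zs, Zsp, Zi, ZiD, Zy]
      push_cast
      linarith
    · intro X' R' I' hg
      simp only [List.forall_mem_cons, List.not_mem_nil, false_imp_iff, implies_true, and_true,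
        evg_cons, evg_nil, xv, List.map_cons, List.map_nil, List.cons_append, List.nil_append] at hg
      push_cast at hg ⊢
      linarith [hg]
    · intro X' R' I' hg
      simp only [List.forall_mem_cons, List.not_mem_nil, false_imp_iff, implies_true, and_true,
        evg_cons, evg_nil, xv, List.map_cons, List.map_nil, List.cons_append, List.nil_append] at hg
      push_cast at hg ⊢
      refine ⟨?_, ?_⟩ <;> linarith [hg.1, hg.2]
  push_cast at *
  refine sound4 (val_V W.toBase hk hw hne []) W rfl (Nk := N)
    (fun kf _ _ => ⟨_, rfl⟩) (Nw := Nw) (fun _ _ _ => by simp [NN]) hkf ok0 ?_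
  · simp only [base, List.forall_mem_cons, List.not_mem_nil, false_imp_iff, implies_true,
      and_true, hld, xv, evg_cons, evg_nil, List.map_cons, List.map_nil, List.cons_append,
      List.nil_append, if_true, if_false, Bool.false_eq_true]
    push_cast
    refine ⟨?_, ?_, ?_, ?_, ?_, ?_, ?_, ?_, ?_, ?_, ?_, ?_, ?_, ?_, ?_, ?_, ?_, ?_, ?_, ?_, ?_, ?_, ?_, ?_, ?_, ?_, ?_, ?_, ?_, ?_, ?_⟩ <;> linarith

end Helper25.S1T.Zmp1aN1
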