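import Pool.Agent.Helper81.PC.C4N
import Pool.Agent.Helper25.KG.C4
import Pool.Agent.Helper25.KG.C4s
import Pool.Agent.Helper25.KG.C4d

set_option autoImplicit false
set_option linter.all false

namespace Helper25.S1T.Zmp1aN3

open Helper25.KG Helper11.CT

noncomputable def K : Cls :=
  dV 1

noncomputable def KFs : List KF3 :=
  [(3, bx3 ++ []),
    (0, bx3 ++ [(-1, 0, 0, [])]),
    (0, bx3 ++ [(0, 0, -1, [0,0,0,0,0,-1,0,0,0,0,1])]),
    (4, (-1, 0, 0, [0, 0, 1]) :: (1, 0, 0, [0, 0, 1]) :: [(1, 0, 0, [])]),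
    (4, (-1, 0, 0, [0, 0, 1]) :: (1, 0, 0, [0, 0, 1]) :: [(-1, 0, 0, []), (0, 0, -1, [0,0,0,0,0,0,0,0,0,0,0,0,1])])]

noncomputable def base : List Con :=
  [(false,[0,0,0,0,0,0,0,0,0,0,0,1,-1]),
  (true,[0,0,2,1,0,0,0,1]),
  (true,[0,0,-1,-1,0,0,0,-1]),
  (false,[0,0,0,0,0,0,-1,-1,0,0,0,-1]),
  (false,[0,0,0,0,0,0,0,0,0,0,-1,2]),
  (false,[0,0,0,0,0,0,1,0,0,0,0,1]),
  (false,[0,-1,0,0,1,0,0,0,-1,-1,0,0,-1]),
  (false,[0,-1,0,0,0,0,0,0,1,1,0,0,1]),
  (false,[0,0,1,0,0,0,0,0,0,1,0,0,1]),
  (false,[0,0,0,0,0,0,0,0,0,-1,0,0,-1]),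
  (false,[0,0,0,0,0,1,0,0,0,0,-1,1]),
  (false,[0,0,0,0,0,1,0,0,0,0,0,-1]),
  (false,[0,0,0,0,0,0,0,0,0,0,1,0,-1]),
  (false,[0,0,0,0,0,0,0,0,0,0,0,0,1]),
  (false,[0,1,0,0,0,0,1,1,0,0,0,1]),
  (false,[0,1,0,0,0,0,-1,-1,0,0,0,-1]),
  (false,[0,0,1,0,0,0,1,0,0,0,0,1]),
  (false,[0,0,1,0,0,0,-1,0,0,0,0,-1]),
  (false,[0,0,0,0,0,0,0,0,0,0,1,-1]),
  (false,[0,0,0,0,0,0,0,0,0,0,0,1]),
  (false,[0,0,0,0,1,0,0,0,0,0,-2]),
  (false,[0,0,0,0,0,-1,0,0,0,0,1]),
  (true,[0,0,0,0,0,1]),
  (true,[0,2,-1]),
  (false,[0,0,-2,0,0,0,0,0,0,0,1]),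
  (true,[0,1,-1,1]),
  (true,[0,1,0,1]),
  (true,[0,0,0,-1]),
  (true,[0,0,-2,0,1]),
  (true,[0,-2,0,0,1]),
  (true,[-1,0,1]),
  (true,[-1,1])]

open Helper55.PC in
noncomputable def t0n : Helper55.PC.Ten :=
  (q 62115822463938617880276388021492260184454932321901709170662312715091980 (r
  112995462975542429146649857237732399173431702769735125952785988030540531162518642792487231419685216019958449880427292440678108677513774655326460966288281595739450803327846059826075537951518176549756372584083229956794119005504564507373172540809012801425955157308354595899997626069302789422083262790398401192215817576194251707945640025102663505151757905151047362751160929468385341793579773314880402438493845903462518218262849590917379494538875264832924941092119200)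
  (q 28950120443589494963438720535069409480167278350042766887168165021228011487244 (q
  12771547637554566980034867104563719436488157822987 (r
  1274865312898695050009661464720052366394031271950839827954178020252724886883508765306620626548468394860785074336536784548514744951267175463491728736839561630527561981941018710670899395341302751056033704639499692092793430470728843378003394691447000237380750268742809915664832834831378064004378326832309851248792278457601794877205611934877124353418972610436168152375043517990770644685235799836618768483466119903955902139970733438342856321985077095747539941628591630641029902308884604527328)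
  (r
  14634736068083046628892343770106842303392039381641886933817774861398361339809098989406633966785468794306890115538406156866565256531827347520211528785326783470748959370785572260516748307467015207137496095920580866769348457653480342634002636615152593704964744276358180849934671863031788323630589364213122386493443865985706328788539705224392164497261339712304559240422153404115833919105780509878160255214540797664779471254457710479809755230511047360))
  (r
  793350631911993171150583998701365839695009790184969619936031393331220322722354040146479482746857714114133355324841315530432225496582371722371399608299897723088455550211370706373831097790838607903059008058047670384356035496442035573806538612287935195799368963700352734299152837364523688672889640785630839715905408334103830456275889026686048660937592621664025287828588474132617726004811360205992586759443960616771446168400700096)))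

noncomputable def t0 : Tre := Helper55.PC.toT t0n

theorem ok0 : chk4 K KFs t0 base = true :=
  Helper81.PC.chk4N_sound K KFs t0n base (by decide +kernel)

open Helper25.KW Helper55.KE in
theorem closed {p a b c J l q : ℤ} {D dl : ℝ} {Cl : ℤ → ℤ → ℤ → ℤ → ℝ → Prop}
    (W : World p a b c J 1 l q D dl Cl) (g : G0 p a b c J D)
    {N X R : ℤ} {I : ℝ} (hk : KCl p l Cl N X R I) (kz : KF a b D (X + (1 : ℤ) * I) (X + (1 : ℤ) * I + R) I)
    {Nw Xw Rw : ℤ} {Iw : ℝ} (hw : KCl p l Cl Nw Xw Rw Iw) (hne : N ≠ Nw)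
    (hU : KU p a b l 1 Cl (fun _ _ _ => True) N)
    (hN0 : KNo p a b l 1 Cl (fun X R I => Zx 1 X R I))
    (hN1 : KNo p a b l 1 Cl (fun X R I => ZiD D J X R I))
    (hW0 : StN p b l 1 Cl (fun X' R' I' => 0 < ((X' : ℝ) + (1 : ℤ) * I')) N Nw)
    (hW1 : StN p b l 1 Cl (fun X' R' I' => 0 < (-1) * ((X' : ℝ) + (1 : ℤ) * I') ∧ 0 < (-1) * I' + (Iw)) N Nw)
    (h0 : 1 ≤ -(c : ℝ))
    (h1 : 1 ≤ (a : ℝ) - (b : ℝ) + (c : ℝ))
    (h2 : 0 < -2 * (b : ℝ) + D)
    (h3 : 1 ≤ 2 * (a : ℝ) - (b : ℝ))
    (h4 : 0 < Iw)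
    (h5 : 0 < D - Iw)
    (h6 : 0 < (J : ℝ) - I)
    (h7 : 0 < (J : ℝ) - D + I)
    (h8 : 0 < -(Xw : ℝ) - Iw)
    (h9 : 0 < (b : ℝ) + (Xw : ℝ) + Iw)
    (h10 : 0 < -(a : ℝ) + (Rw : ℝ) + (Xw : ℝ) + Iw)
    (h11 : 0 < -(a : ℝ) + (p : ℝ) - (Rw : ℝ) - (Xw : ℝ) - Iw)
    (h12 : 0 < (X : ℝ) + I)
    (h13 : 0 < -D + 2 * I)
    (h14 : 0 < -(X : ℝ) - (R : ℝ) - I)
    (h15 : 1 ≤ -(b : ℝ) - (c : ℝ) - (R : ℝ))
    (h16 : 1 ≤ 2 * (b : ℝ) + (c : ℝ) + (R : ℝ))
    (h17 : 0 < I - Iw) : False := by
  have g1 := g.a2
  have g2 := g.b2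
  have g3 := g.pa
  have g4 := g.pb
  have g5 := g.J1
  have g6 := g.JD
  have g7 := g.D2
  have g8 := g.ca
  have g9 := g.ca'
  have k1 := kz.I0
  have k2 := kz.ID
  have k3 := kz.z1
  have k4 := kz.z2
  have k5 := kz.s1
  have k6 := kz.s2
  have hkf : ∀ kf ∈ KFs, KOk4 p l Cl 1 (xv [1, a, b, c, p, J, X, R, Rw, Xw] [D, I, Iw]) N Nw kf := by
    have hA1 : evg (xv [1, a, b, c, p, J, X, R, Rw, Xw] [D, I, Iw]) [0, 1] = a := by
      simp only [evg_cons, evg_nil, xv, List.map_cons, List.map_nil, List.cons_append, List.nil_append]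
      push_cast
      ring
    have hB1 : evg (xv [1, a, b, c, p, J, X, R, Rw, Xw] [D, I, Iw]) [0, 0, 1] = b := by
      simp only [evg_cons, evg_nil, xv, List.map_cons, List.map_nil, List.cons_append, List.nil_append]
      push_cast
      ring
    simp only [KFs, List.forall_mem_cons]
    refine ⟨kok4_u hA1 hB1 Nw hU ?_, kok4_no hA1 hB1 N Nw hN0 ?_, kok4_no hA1 hB1 N Nw hN1 ?_, kok4_st hB1 hW0 ?_, kok4_st hB1 hW1 ?_, fun _ h => absurd h (by simp)⟩
    · intro _ _ _ _ _
      trivial
    · intro X' R' I' _ hg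
      simp only [List.forall_mem_cons, List.not_mem_nil, false_imp_iff, implies_true, and_true,
        evg_cons, evg_nil, xv, List.map_cons, List.map_nil, List.cons_append, List.nil_append] at hg
      push_cast at hg
      simp only [Zx, Zp, Zs, Zsp, Zi, ZiD, Zy]
      push_cast
      linarith
    · intro X' R' I' _ hg
      simp only [List.forall_mem_cons, List.not_mem_nil, false_imp_iff, implies_true, and_true,
        evg_cons, evg_nil, xv, List.map_cons, List.map_nil, List.cons_append, List.nil_append] at hg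
      push_cast at hg
      simp only [Zx, Zp, Zs, Zsp, Zi, ZiD, Zy]
      push_cast
      linarith
    · intro X' R' I' hg
      simp only [List.forall_mem_cons, List.not_mem_nil, false_imp_iff, implies_true, and_true,
        evg_cons, evg_nil, xv, List.map_cons, List.map_nil, List.cons_append, List.nil_append] at hg
      push_cast at hg ⊢
      linarith [hg]
    · intro X' R' I' hg
      simp only [List.forall_mem_cons, List.not_mem_nil, false_imp_iff, implies_true, and_true,
        evg_cons, evg_nil, xv, List.map_cons, List.map_nil, List.cons_append, List.nil_append] at hg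
      push_cast at hg ⊢
      refine ⟨?_, ?_⟩ <;> linarith [hg.1, hg.2]
  push_cast at *
  refine sound4 (val_V W.toBase hk hw hne []) W rfl (Nk := N)
    (fun kf _ _ => ⟨_, rfl⟩) (Nw := Nw) (fun _ _ _ => by simp [NN]) hkf ok0 ?_
  · simp only [base, List.forall_mem_cons, List.not_mem_nil, false_imp_iff, implies_true,
      and_true, hld, xv, evg_cons, evg_nil, List.map_cons, List.map_nil, List.cons_append,
      List.nil_append, if_true, if_false, Bool.false_eq_true]
    push_cast
    refine ⟨?_, ?_, ?_, ?_, ?_, ?_, ?_, ?_, ?_, ?_, ?_, ?_, ?_, ?_, ?_, ?_, ?_, ?_, ?_, ?_, ?_, ?_, ?_, ?_, ?_, ?_, ?_, ?_, ?_, ?_, ?_, ?_⟩ <;> linarith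

end Helper25.S1T.Zmp1aN3
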