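import Pool.Agent.Helper81.PC.C4N
import Pool.Agent.Helper25.KG.C4
import Pool.Agent.Helper25.KG.C4s
import Pool.Agent.Helper25.KG.C4d

set_option autoImplicit false
set_option linter.all false

namespace Helper25.S1T.Zmp1aP1

open Helper25.KG Helper11.CT

noncomputable def K : Cls :=
  dV 1

noncomputable def KFs : List KF3 :=
  [(3, bx3 ++ []),
    (0, bx3 ++ [(-1, 0, 0, [])]),
    (0, bx3 ++ [(0, 0, -1, [0,0,0,0,0,-1,0,0,0,0,1])]),
    (4, (-1, 0, 0, [0, 0, 1]) :: (1, 0, 0, [0, 0, 1]) :: [(1, 0, 0, []), (0, 0, -1, [0,0,0,0,0,0,0,0,0,0,0,0,1])])]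

noncomputable def base : List Con :=
  [(true,[0,0,1,1,0,0,0,1]),
  (false,[0,0,0,0,0,0,-1,-1,0,0,0,-1]),
  (false,[0,0,0,0,0,0,0,0,0,0,-1,2]),
  (false,[0,0,0,0,0,0,1,0,0,0,0,1]),
  (false,[0,-1,0,0,1,0,0,0,-1,-1,0,0,-1]),
  (false,[0,-1,0,0,0,0,0,0,1,1,0,0,1]),
  (false,[0,0,1,0,0,0,0,0,0,-1,0,0,-1]),
  (false,[0,0,0,0,0,0,0,0,0,1,0,0,1]),
  (false,[0,0,0,0,0,1,0,0,0,0,-1,1]),
  (false,[0,0,0,0,0,1,0,0,0,0,0,-1]),
  (false,[0,0,0,0,0,0,0,0,0,0,1,0,-1]),
  (false,[0,0,0,0,0,0,0,0,0,0,0,0,1]),
  (false,[0,1,0,0,0,0,1,1,0,0,0,1]),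
  (false,[0,1,0,0,0,0,-1,-1,0,0,0,-1]),
  (false,[0,0,1,0,0,0,1,0,0,0,0,1]),
  (false,[0,0,1,0,0,0,-1,0,0,0,0,-1]),
  (false,[0,0,0,0,0,0,0,0,0,0,1,-1]),
  (false,[0,0,0,0,0,0,0,0,0,0,0,1]),
  (false,[0,0,0,0,1,0,0,0,0,0,-2]),
  (false,[0,0,0,0,0,-1,0,0,0,0,1]),
  (true,[0,0,0,0,0,1]),
  (true,[0,2,-1]),
  (false,[0,0,-2,0,0,0,0,0,0,0,1]),
  (true,[0,1,-1,1]),
  (true,[0,1,0,1]),
  (true,[0,0,0,-1]),
  (true,[0,0,-2,0,1]),
  (true,[0,-2,0,0,1]),
  (true,[-1,0,1]),
  (true,[-1,1])]

open Helper55.PC in
noncomputable def t0n : Helper55.PC.Ten :=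
  (q 1897152065842197015520644633773204690365421728491694554296907642899936675882991628 (q
  58664949288936397942311712541534278942213943716766869530677142930718732 (r
  22548381135130133689904278352918868025528455526438891255514771681802331550206079484843981408534148041247901953324442356533729847372046555520819199827660536518742826770168956142731059617904574867181069984560982259645962518320723525171247422166763177418189234455837093952415459716813079785011214167273644665307265360638364843938237212875769923478433072789250746307638397659143415054561567664268335727517916406227648)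
  (r
  112994888312278411791275788029774082544092662009080409685512412056877156969543883575397861361344586084360071522212816151535811928971476530495944126373074583237702860274238255621379752780136682337195134466921447355596166257520129588864051082500908573082198435695423977554237163026504556241522668058775982293356487424123107276728947900424396722344998972254729012763354132028152869323918308263877814811890005724927139986470463448052088196991830896913036027472110240))
  (q 58664949288936397942311712541534278942213943716766869530677142930718732 (r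
  2322122478326550130709982596619023154714174191669639492039573593298965500677501679329263373402883075300664709645690930157289007559824057085445942521414161212230436487999125177068202056154833767892045622224008670654133216931544517851306493181265656916163147542736294417046252932364055325794954488925139160877487239797546673431654502676391862261561243263762856021928785089345920012559587144536870174216378543454195294912)
  (r
  401438485341566362021395477305582071437913292332241644848211635323583681758719462974475296453194723100779382897275184488477648617431286945566308322039894472234253465239515251931625991881261205864628777127779977837949549832269204974554085401738157074785583186011297016592074220050720282372956849318509838271438539139209661705812585370081839637332166680649498938234550312863473877603338892351498427039203824306519645532004132397282731045108754145952)))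

noncomputable def t0 : Tre := Helper55.PC.toT t0n

theorem ok0 : chk4 K KFs t0 base = true :=
  Helper81.PC.chk4N_sound K KFs t0n base (by decide +kernel)

open Helper25.KW Helper55.KE in
theorem closed {p a b c J l q : ℤ} {D dl : ℝ} {Cl : ℤ → ℤ → ℤ → ℤ → ℝ → Prop}
    (W : World p a b c J 1 l q D dl Cl) (g : G0 p a b c J D)
    {N X R : ℤ} {I : ℝ} (hk : KCl p l Cl N X R I) (kz : KF a b D (X + (1 : ℤ) * I) (X + (1 : ℤ) * I + R) I)
    {Nw Xw Rw : ℤ} {Iw : ℝ} (hw : KCl p l Cl Nw Xw Rw Iw) (hne : N ≠ Nw)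
    (hU : KU p a b l 1 Cl (fun _ _ _ => True) N)
    (hN0 : KNo p a b l 1 Cl (fun X R I => Zx 1 X R I))
    (hN1 : KNo p a b l 1 Cl (fun X R I => ZiD D J X R I))
    (hW0 : StN p b l 1 Cl (fun X' R' I' => 0 < ((X' : ℝ) + (1 : ℤ) * I') ∧ 0 < (-1) * I' + (Iw)) N Nw)
    (h0 : 1 ≤ -(c : ℝ))
    (h1 : 1 ≤ (a : ℝ) - (b : ℝ) + (c : ℝ))
    (h2 : 0 < -2 * (b : ℝ) + D)
    (h3 : 1 ≤ 2 * (a : ℝ) - (b : ℝ))
    (h4 : 0 < Iw)
    (h5 : 0 < D - Iw)
    (h6 : 0 < (J : ℝ) - I)
    (h7 : 0 < (J : ℝ) - D + I)
    (h8 : 0 < (Xw : ℝ) + Iw)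
    (h9 : 0 < (b : ℝ) - (Xw : ℝ) - Iw)
    (h10 : 0 < -(a : ℝ) + (Rw : ℝ) + (Xw : ℝ) + Iw)
    (h11 : 0 < -(a : ℝ) + (p : ℝ) - (Rw : ℝ) - (Xw : ℝ) - Iw)
    (h12 : 0 < (X : ℝ) + I)
    (h13 : 0 < -D + 2 * I)
    (h14 : 0 < -(X : ℝ) - (R : ℝ) - I)
    (h15 : 1 ≤ (b : ℝ) + (c : ℝ) + (R : ℝ)) : False := by
  have g1 := g.a2
  have g2 := g.b2
  have g3 := g.pa
  have g4 := g.pb
  have g5 := g.J1
  have g6 := g.JD
  have g7 := g.D2
  have g8 := g.ca
  have g9 := g.ca'
  have k1 := kz.I0
  have k2 := kz.ID
  have k3 := kz.z1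
  have k4 := kz.z2
  have k5 := kz.s1
  have k6 := kz.s2
  have hkf : ∀ kf ∈ KFs, KOk4 p l Cl 1 (xv [1, a, b, c, p, J, X, R, Rw, Xw] [D, I, Iw]) N Nw kf := by
    have hA1 : evg (xv [1, a, b, c, p, J, X, R, Rw, Xw] [D, I, Iw]) [0, 1] = a := by
      simp only [evg_cons, evg_nil, xv, List.map_cons, List.map_nil, List.cons_append, List.nil_append]
      push_cast
      ring
    have hB1 : evg (xv [1, a, b, c, p, J, X, R, Rw, Xw] [D, I, Iw]) [0, 0, 1] = b := by
      simp only [evg_cons, evg_nil, xv, List.map_cons, List.map_nil, List.cons_append, List.nil_append]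
      push_cast
      ring
    simp only [KFs, List.forall_mem_cons]
    refine ⟨kok4_u hA1 hB1 Nw hU ?_, kok4_no hA1 hB1 N Nw hN0 ?_, kok4_no hA1 hB1 N Nw hN1 ?_, kok4_st hB1 hW0 ?_, fun _ h => absurd h (by simp)⟩
    · intro _ _ _ _ _
      trivial
    · intro X' R' I' _ hg
      simp only [List.forall_mem_cons, List.not_mem_nil, false_imp_iff, implies_true, and_true,
        evg_cons, evg_nil, xv, List.map_cons, List.map_nil, List.cons_append, List.nil_append] at hg
      push_cast at hg
      simp only [Zx, Zp, Zs, Zsp, Zi, ZiD, Zy]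
      push_cast
      linarith
    · intro X' R' I' _ hg
      simp only [List.forall_mem_cons, List.not_mem_nil, false_imp_iff, implies_true, and_true,
        evg_cons, evg_nil, xv, List.map_cons, List.map_nil, List.cons_append, List.nil_append] at hg
      push_cast at hg
      simp only [Zx, Zp, Zs, Zsp, Zi, ZiD, Zy]
      push_cast
      linarith
    · intro X' R' I' hg
      simp only [List.forall_mem_cons, List.not_mem_nil, false_imp_iff, implies_true, and_true,
        evg_cons, evg_nil, xv, List.map_cons, List.map_nil, List.cons_append, List.nil_append] at hg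
      push_cast at hg ⊢
      refine ⟨?_, ?_⟩ <;> linarith [hg.1, hg.2]
  push_cast at *
  refine sound4 (val_V W.toBase hk hw hne []) W rfl (Nk := N)
    (fun kf _ _ => ⟨_, rfl⟩) (Nw := Nw) (fun _ _ _ => by simp [NN]) hkf ok0 ?_
  · simp only [base, List.forall_mem_cons, List.not_mem_nil, false_imp_iff, implies_true,
      and_true, hld, xv, evg_cons, evg_nil, List.map_cons, List.map_nil, List.cons_append,
      List.nil_append, if_true, if_false, Bool.false_eq_true]
    push_cast
    refine ⟨?_, ?_, ?_, ?_, ?_, ?_, ?_, ?_, ?_, ?_, ?_, ?_, ?_, ?_, ?_, ?_, ?_, ?_, ?_, ?_, ?_, ?_, ?_, ?_, ?_, ?_, ?_, ?_, ?_, ?_⟩ <;> linarith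

end Helper25.S1T.Zmp1aP1
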