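import Pool.Agent.Helper25.KG.C3
import Pool.Agent.Helper25.S1T.Zpm1Ag_p0
import Pool.Agent.Helper25.S1T.Zpm1Ag_p1
import Pool.Agent.Helper25.S1T.Zpm1Ag_p2

set_option autoImplicit false
set_option linter.all false

namespace Helper25.S1T.Zpm1Ag

open Helper25.KG Helper11.CT

noncomputable def t9 : Tre :=
  .Q [0,-1,0,0,1,0,0,0,-1,0,0,1] (.p true [0,0,0,0,1] [] (⟨0,[(19,0)]⟩,⟨0,[(18,0)]⟩) .k 0 (⟨0,[]⟩,
  ⟨0,[]⟩) .k .k) t7 t8

theorem ok9 : chk3 K KFs t9 l14 = true :=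
  chk3_Q (e' := [0,1,0,0,-1,0,0,0,1,0,0,-1]) (by decide +kernel) (by decide +kernel) ok7 ok8

noncomputable def t11 : Tre :=
  .Q [0,0,0,0,1,0,0,0,-1,-1,0,1] (.p true [0,0,0,0,1] [1] (⟨0,[(18,0)]⟩,⟨0,[(17,0)]⟩) .k 1 (⟨0,[]⟩,
  ⟨0,[]⟩) .k .k) t9 t10

theorem ok11 : chk3 K KFs t11 l13 = true :=
  chk3_Q (e' := [0,0,0,0,-1,0,0,0,1,1,0,-1]) (by decide +kernel) (by decide +kernel) ok9 ok10

noncomputable def t14 : Tre :=
  .Q [0,0,0,0,0,2,0,0,0,0,-1] (.p false [0,0,1] [] (⟨0,[(24,0)]⟩,⟨0,[(23,0)]⟩) .k 0 (⟨0,[]⟩,⟨0,[]⟩)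
  .k .k) t12 t13

theorem ok14 : chk3 K KFs t14 r13 = true :=
  chk3_Q (e' := [0,0,0,0,0,-2,0,0,0,0,1]) (by decide +kernel) (by decide +kernel) ok12 ok13

noncomputable def t15 : Tre :=
  .Q [0,0,0,0,0,-1,0,0,0,0,1,-1] (.p true [0,0,1] [0,0,0,0,1] (⟨0,[(23,0)]⟩,⟨0,[(22,0)]⟩) .k 2 (⟨0,
  [(17,0)]⟩,⟨0,[(16,0)]⟩) .k (.r (-1) ⟨1,[(6,1),(7,0),(0,0),(17,0)]⟩ ⟨1,[(8,0),(10,0),(0,0)]⟩)) t11
  t14

theorem ok15 : chk3 K KFs t15 r12 = true :=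
  chk3_Q (e' := [0,0,0,0,0,1,0,0,0,0,-1,1]) (by decide +kernel) (by decide +kernel) ok11 ok14

noncomputable def t16 : Tre :=
  .Q [0,0,2,0,0,0,-1,0,0,-1,1] (.p true [0,0,1] [1] (⟨0,[(22,0)]⟩,⟨0,[(21,0)]⟩) .k 1 (⟨0,[]⟩,⟨0,
  []⟩) .k .k) t6 t15

theorem ok16 : chk3 K KFs t16 l11 = true :=
  chk3_Q (e' := [0,0,-2,0,0,0,1,0,0,1,-1]) (by decide +kernel) (by decide +kernel) ok6 ok15

noncomputable def t18 : Tre :=
  .Q [0,0,0,0,0,-1,0,0,0,1,-1] (.ed true [0,1,1] .k) t16 t17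

theorem ok18 : chk3 K KFs t18 r10 = true :=
  chk3_Q (e' := [0,0,0,0,0,1,0,0,0,-1,1]) (by decide +kernel) (by decide +kernel) ok16 ok17

noncomputable def t19 : Tre :=
  .Q [0,-1,0,0,1,0,0,0,-1,-1,0,1] (.p true [0,0,0,0,1] [1] (⟨0,[(14,0)]⟩,⟨0,[(13,0)]⟩) .k 1 (⟨0,[]⟩,
  ⟨0,[]⟩) .k .k) t5 t18

theorem ok19 : chk3 K KFs t19 r9 = true :=
  chk3_Q (e' := [0,1,0,0,-1,0,0,0,1,1,0,-1]) (by decide +kernel) (by decide +kernel) ok5 ok18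

noncomputable def t20 : Tre :=
  .Q [0,-1,0,1,0,0,1,1,0,1,-1] (.p false [0,0,1] [1] (⟨0,[(19,0)]⟩,⟨0,[(18,0)]⟩) .k 1 (⟨0,[]⟩,⟨0,
  []⟩) .k .k) t4 t19

theorem ok20 : chk3 K KFs t20 r8 = true :=
  chk3_Q (e' := [0,1,0,-1,0,0,-1,-1,0,-1,1]) (by decide +kernel) (by decide +kernel) ok4 ok19

noncomputable def t21 : Tre :=
  .I [0,0,0,1,0,0,0,-1] t3 t20

theorem ok21 : chk3 K KFs t21 l7 = true :=
  chk3_I (e' := [1,0,0,-1,0,0,0,1]) (by decide +kernel) (by decide +kernel) ok3 ok20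

noncomputable def t23 : Tre :=
  .Q [0,1,0,0,0,0,-1,-1,0,-1,1] (.p true [0,0,1] [1] (⟨0,[(17,0)]⟩,⟨0,[(16,0)]⟩) .k 1 (⟨0,[]⟩,⟨0,
  []⟩) .k .k) t21 t22

theorem ok23 : chk3 K KFs t23 r6 = true :=
  chk3_Q (e' := [0,-1,0,0,0,0,1,1,0,1,-1]) (by decide +kernel) (by decide +kernel) ok21 ok22

noncomputable def t24 : Tre :=
  .I [1,0,0,0,0,0,0,-1] t2 t23

theorem ok24 : chk3 K KFs t24 l5 = true :=
  chk3_I (e' := [0,0,0,0,0,0,0,1]) (by decide +kernel) (by decide +kernel) ok2 ok23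

noncomputable def t26 : Tre :=
  .Q [0,0,0,-1,0,0,1,1,0,1,-1] (.p false [0,0,1] [1] (⟨0,[(15,0)]⟩,⟨0,[(14,0)]⟩) .k 1 (⟨0,[]⟩,⟨0,
  []⟩) .k .k) t24 t25

theorem ok26 : chk3 K KFs t26 l4 = true :=
  chk3_Q (e' := [0,0,0,1,0,0,-1,-1,0,-1,1]) (by decide +kernel) (by decide +kernel) ok24 ok25

noncomputable def t28 : Tre :=
  .I [0,1,-1,0,0,0,0,-1] t26 t27

theorem ok28 : chk3 K KFs t28 l3 = true :=
  chk3_I (e' := [1,-1,1,0,0,0,0,1]) (by decide +kernel) (by decide +kernel) ok26 ok27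

noncomputable def t31 : Tre :=
  .Q [0,-1,0,1,0,0,1,1,0,1,-1] (.p false [0,0,1] [1] (⟨0,[(14,0)]⟩,⟨0,[(13,0)]⟩) .k 1 (⟨0,[]⟩,⟨0,
  []⟩) .k .k) t29 t30

theorem ok31 : chk3 K KFs t31 r3 = true :=
  chk3_Q (e' := [0,1,0,-1,0,0,-1,-1,0,-1,1]) (by decide +kernel) (by decide +kernel) ok29 ok30

noncomputable def t32 : Tre :=
  .Q [0,0,0,0,0,-1,0,0,0,0,1] (.ed false [1,-1,1] .k) t28 t31

theorem ok32 : chk3 K KFs t32 l2 = true :=
  chk3_Q (e' := [0,0,0,0,0,1,0,0,0,0,-1]) (by decide +kernel) (by decide +kernel) ok28 ok31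

noncomputable def t39 : Tre :=
  .I [1,-1,2,1] t37 t38

theorem ok39 : chk3 K KFs t39 l24 = true :=
  chk3_I (e' := [0,1,-2,-1]) (by decide +kernel) (by decide +kernel) ok37 ok38

noncomputable def t41 : Tre :=
  .I [0,-1,-2,-1,1] t39 t40

theorem ok41 : chk3 K KFs t41 r23 = true :=
  chk3_I (e' := [1,1,2,1,-1]) (by decide +kernel) (by decide +kernel) ok39 ok40

noncomputable def t42 : Tre :=
  .Q [0,0,0,0,0,2,0,0,0,-1] (.pp true [-1,1]) t36 t41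

theorem ok42 : chk3 K KFs t42 r22 = true :=
  chk3_Q (e' := [0,0,0,0,0,-2,0,0,0,1]) (by decide +kernel) (by decide +kernel) ok36 ok41

noncomputable def t43 : Tre :=
  .I [0,0,-1,0,0,0,0,1] t35 t42

theorem ok43 : chk3 K KFs t43 r21 = true :=
  chk3_I (e' := [1,0,1,0,0,0,0,-1]) (by decide +kernel) (by decide +kernel) ok35 ok42

noncomputable def t44 : Tre :=
  .Q [0,-1,0,1,1,0,-1,-1,0,-1,1] (.p true [0,0,1] [1] (⟨0,[(16,0)]⟩,⟨0,[(15,0)]⟩) .k 1 (⟨0,[]⟩,⟨0,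
  []⟩) .k .k) t34 t43

theorem ok44 : chk3 K KFs t44 r20 = true :=
  chk3_Q (e' := [0,1,0,-1,-1,0,1,1,0,1,-1]) (by decide +kernel) (by decide +kernel) ok34 ok43

noncomputable def t45 : Tre :=
  .I [0,-1,0,0,0,0,0,1] t33 t44

theorem ok45 : chk3 K KFs t45 l19 = true :=
  chk3_I (e' := [1,1,0,0,0,0,0,-1]) (by decide +kernel) (by decide +kernel) ok33 ok44

noncomputable def t48 : Tre :=
  .I [1,0,-1,0,0,0,0,1] t46 t47

theorem ok48 : chk3 K KFs t48 r19 = true :=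
  chk3_I (e' := [0,0,1,0,0,0,0,-1]) (by decide +kernel) (by decide +kernel) ok46 ok47

noncomputable def t49 : Tre :=
  .Q [0,0,0,0,0,-1,0,0,0,0,1] (.ed false [1,-1,1] .k) t45 t48

theorem ok49 : chk3 K KFs t49 l18 = true :=
  chk3_Q (e' := [0,0,0,0,0,1,0,0,0,0,-1]) (by decide +kernel) (by decide +kernel) ok45 ok48

noncomputable def t51 : Tre :=
  .Q [0,0,0,-1,0,0,1,1,0,0,-1] (.p false [0,0,1] [] (⟨0,[(13,0)]⟩,⟨0,[(12,0)]⟩) .k 0 (⟨0,[]⟩,⟨0,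
  []⟩) .k .k) t49 t50

theorem ok51 : chk3 K KFs t51 r2 = true :=
  chk3_Q (e' := [0,0,0,1,0,0,-1,-1,0,0,1]) (by decide +kernel) (by decide +kernel) ok49 ok50

noncomputable def t52 : Tre :=
  .Q [0,0,0,0,0,0,-1,-1,0,0,1] (.p true [0,0,1] [] (⟨0,[(12,0)]⟩,⟨0,[(11,0)]⟩) .k 0 (⟨0,[]⟩,⟨0,[]⟩)
  .k .k) t32 t51

theorem ok52 : chk3 K KFs t52 r1 = true :=
  chk3_Q (e' := [0,0,0,0,0,0,1,1,0,0,-1]) (by decide +kernel) (by decide +kernel) ok32 ok51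

noncomputable def t53 : Tre :=
  .Q [0,0,0,2,-1,0,0,0,0,1] (.pp false [-1,1]) t1 t52

theorem ok53 : chk3 K KFs t53 r0 = true :=
  chk3_Q (e' := [0,0,0,-2,1,0,0,0,0,-1]) (by decide +kernel) (by decide +kernel) ok1 ok52

noncomputable def t54 : Tre :=
  .Q [0,-1,0,1,0,0,-1,-1,0,0,1] (.p true [0,0,1] [] (⟨0,[(10,0)]⟩,⟨0,[(9,0)]⟩) .k 0 (⟨0,[]⟩,⟨0,[]⟩)
  .k .k) t0 t53

theorem ok54 : chk3 K KFs t54 base = true :=
  chk3_Q (e' := [0,1,0,-1,0,0,1,1,0,0,-1]) (by decide +kernel) (by decide +kernel) ok0 ok53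

open Helper25.KW Helper55.KE in
theorem closed {p a b c J l q : ℤ} {D dl : ℝ} {Cl : ℤ → ℤ → ℤ → ℤ → ℝ → Prop}
    (W : World p a b c J (-1) l q D dl Cl) (g : G0 p a b c J D)
    {N X R : ℤ} {I : ℝ} (hk : KCl p l Cl N X R I) (kz : KF a b D (X + (-1 : ℤ) * I) (X + (-1 : ℤ) * I + R) I)
    {Ne Xe : ℤ} {Ie : ℝ} (he : EFac p (-1) D Cl (a) Ne Xe Ie)
    (hE : KZ p a b l (-1) Cl (fun X R I => Zx (-1) X R I) N
      (fun X R I => (1 : ℤ) * (X + (-1 : ℤ) * I + R)) ((1 : ℤ) * (X + (-1 : ℤ) * I + R)))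
    (h0 : 1 ≤ (c : ℝ))
    (h1 : 1 ≤ (a : ℝ) - (b : ℝ) - (c : ℝ))
    (h2 : 0 < -2 * (b : ℝ) + D)
    (h3 : 1 ≤ 2 * (a : ℝ) - (b : ℝ))
    (h4 : 0 < -(X : ℝ) + I) : False := by
  have g1 := g.a2
  have g2 := g.b2
  have g3 := g.pa
  have g4 := g.pb
  have g5 := g.J1
  have g6 := g.JD
  have g7 := g.D2
  have g8 := g.ca
  have g9 := g.ca'
  have k1 := kz.I0
  have k2 := kz.ID
  have k3 := kz.z1
  have k4 := kz.z2
  have k5 := kz.s1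
  have k6 := kz.s2
  have e1 := he.I0
  have e2 := he.ID
  have e3 := he.x0
  have e4 := he.xp
  have hkf : ∀ kf ∈ KFs, KOk3 p l Cl (-1) (xv [1, a, b, c, p, J, X, R, Xe] [D, I, Ie]) N kf := by
    have hA : evg (xv [1, a, b, c, p, J, X, R, Xe] [D, I, Ie]) [0, 1] = a := by
      simp only [evg_cons, evg_nil, xv, List.map_cons, List.map_nil, List.cons_append, List.nil_append]
      push_cast
      ring
    have hB : evg (xv [1, a, b, c, p, J, X, R, Xe] [D, I, Ie]) [0, 0, 1] = b := by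
      simp only [evg_cons, evg_nil, xv, List.map_cons, List.map_nil, List.cons_append, List.nil_append]
      push_cast
      ring
    simp only [KFs, List.forall_mem_cons]
    refine ⟨kok3_ex hA hB hE ?_ ?_, fun _ h => absurd h (by simp)⟩
    · intro X' R' I' hg
      simp only [evg_cons, evg_nil, xv, List.map_cons, List.map_nil, List.cons_append, List.nil_append] at hg ⊢
      push_cast at hg ⊢
      linarith
    · intro X' R' I' _ hg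
      simp only [List.forall_mem_cons, List.not_mem_nil, false_imp_iff, implies_true, and_true,
        evg_cons, evg_nil, xv, List.map_cons, List.map_nil, List.cons_append, List.nil_append] at hg
      push_cast at hg
      simp only [Zx, Zp, Zs, Zsp, Zi, ZiD, Zy]
      push_cast
      linarith
  push_cast at *
  refine sound3 (val_E W.toBase hk he (row := [0,1]) (by simp) (by simp) []) W rfl (Nk := N)
    (fun kf _ _ => ⟨_, rfl⟩) hkf ok54 ?_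
  · simp only [base, List.forall_mem_cons, List.not_mem_nil, false_imp_iff, implies_true,
      and_true, hld, xv, evg_cons, evg_nil, List.map_cons, List.map_nil, List.cons_append,
      List.nil_append, if_true, if_false, Bool.false_eq_true]
    push_cast
    refine ⟨?_, ?_, ?_, ?_, ?_, ?_, ?_, ?_, ?_, ?_, ?_, ?_, ?_, ?_, ?_, ?_, ?_, ?_, ?_, ?_, ?_, ?_, ?_⟩ <;> linarith

end Helper25.S1T.Zpm1Ag
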