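import Pool.Agent.Helper81.PC.C3N
import Pool.Agent.Helper25.KG.C3
import Pool.Agent.Helper25.KG.Cfg3

set_option autoImplicit false
set_option linter.all false

namespace Helper25.S1T.Zpm1I1_r1

open Helper25.KG Helper11.CT

noncomputable def K : Cls :=
  dK (-1)

noncomputable def KFs : List KF3 :=
  [(1, (0, 0, -1, [0,0,0,0,0,0,0,0,0,1]) :: (bx3 ++ [(1, 0, 0, []), (1, 0, 0, [0,0,-1,0,0,0,0,0,1])])),
    (0, bx3 ++ [(-1, 0, 0, []), (1, 0, 0, [0,0,-1,0,0,0,0,0,1])]),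
    (0, bx3 ++ [(0, 0, -1, [0,0,0,0,0,-1,0,0,1]), (1, 0, 0, [0,0,-1,0,0,0,0,0,1])]),
    (0, bx3 ++ [(0, 0, -1, [0,0,0,0,0,1]), (1, 0, 0, [0,0,-1,0,0,0,0,0,1])])]

noncomputable def base : List Con :=
  [(false,[0,0,-1,0,0,0,1,0,1,-1]),
  (false,[0,0,0,0,0,0,1,0,0,-1]),
  (false,[0,0,0,0,0,1,0,0,-1,1]),
  (false,[0,0,0,0,0,-1,0,0,0,1]),
  (false,[0,1,0,0,0,0,1,1,0,-1]),
  (false,[0,1,0,0,0,0,-1,-1,0,1]),
  (false,[0,0,1,0,0,0,1,0,0,-1]),
  (false,[0,0,1,0,0,0,-1,0,0,1]),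
  (false,[0,0,0,0,0,0,0,0,1,-1]),
  (false,[0,0,0,0,0,0,0,0,0,1]),
  (false,[0,0,0,0,1,0,0,0,-2]),
  (false,[0,0,0,0,0,-1,0,0,1]),
  (true,[0,0,0,0,0,1]),
  (true,[0,2,-1]),
  (false,[0,0,2,0,0,0,0,0,-1]),
  (true,[0,1,-1,-1]),
  (true,[0,1,0,-1]),
  (true,[0,0,0,1]),
  (true,[0,0,-2,0,1]),
  (true,[0,-2,0,0,1]),
  (true,[-1,0,1]),
  (true,[-1,1])]

noncomputable def l0 : List Con := (false, [0,0,0,0,0,-2,0,0,1]) :: base

noncomputable def r0 : List Con := (false, [0,0,0,0,0,2,0,0,-1]) :: base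

noncomputable def l1 : List Con := (false, [0,-1,0,1,0,0,0,0,1]) :: r0

noncomputable def r1 : List Con := (false, [0,1,0,-1,0,0,0,0,-1]) :: r0

noncomputable def l2 : List Con := (true, [0,0,1,1,0,0,0,1]) :: l1

noncomputable def r2 : List Con := (true, [1,0,-1,-1,0,0,0,-1]) :: l1

noncomputable def l3 : List Con := (true, [0,1,-1,0,0,0,0,-1]) :: l2

noncomputable def r3 : List Con := (true, [1,-1,1,0,0,0,0,1]) :: l2

noncomputable def l4 : List Con := (false, [0,1,0,2,-1,0,0,0,1]) :: l3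

noncomputable def r4 : List Con := (false, [0,-1,0,-2,1,0,0,0,-1]) :: l3

noncomputable def l5 : List Con := (false, [0,-1,0,-1,1,0,0,0,-1]) :: l4

noncomputable def r5 : List Con := (false, [0,1,0,1,-1,0,0,0,1]) :: l4

noncomputable def l6 : List Con := (false, [0,0,0,0,-1,0,1,0,2,-1]) :: r5

noncomputable def r6 : List Con := (false, [0,0,0,0,1,0,-1,0,-2,1]) :: r5

noncomputable def l7 : List Con := (true, [1,0,0,-1,0,0,0,1]) :: r6

noncomputable def r7 : List Con := (true, [0,0,0,1,0,0,0,-1]) :: r6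

noncomputable def l8 : List Con := (false, [0,0,0,0,0,0,1,1,1,-1]) :: r7

noncomputable def r8 : List Con := (false, [0,0,0,0,0,0,-1,-1,-1,1]) :: r7

noncomputable def l9 : List Con := (false, [0,0,0,0,0,0,-1,-1,0,1]) :: l8

noncomputable def r9 : List Con := (false, [0,0,0,0,0,0,1,1,0,-1]) :: l8

noncomputable def l10 : List Con := (false, [0,0,2,0,0,0,-1,0,-1,1]) :: r9

noncomputable def r10 : List Con := (false, [0,0,-2,0,0,0,1,0,1,-1]) :: r9

noncomputable def l11 : List Con := (true, [1,0,0,0,0,0,0,1]) :: r10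

noncomputable def r11 : List Con := (true, [0,0,0,0,0,0,0,-1]) :: r10

noncomputable def l12 : List Con := (true, [1,1,1,1,-1,0,0,1]) :: l11

noncomputable def r12 : List Con := (true, [0,-1,-1,-1,1,0,0,-1]) :: l11

noncomputable def l13 : List Con := (false, [0,-1,0,0,0,0,1,1,1,-1]) :: l12

noncomputable def r13 : List Con := (false, [0,1,0,0,0,0,-1,-1,-1,1]) :: l12

noncomputable def l14 : List Con := (false, [0,-1,0,-2,1,0,1,1,0,-1]) :: r13

noncomputable def r14 : List Con := (false, [0,1,0,2,-1,0,-1,-1,0,1]) :: r13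

noncomputable def l15 : List Con := (true, [0,-1,1,0,0,0,0,-1]) :: r8

noncomputable def r15 : List Con := (true, [1,1,-1,0,0,0,0,1]) :: r8

noncomputable def l16 : List Con := (false, [0,0,0,-2,1,0,1,1,0,-1]) :: r15

noncomputable def r16 : List Con := (false, [0,0,0,2,-1,0,-1,-1,0,1]) :: r15

noncomputable def l17 : List Con := (true, [0,1,2,1,-1]) :: r4

noncomputable def r17 : List Con := (true, [1,-1,-2,-1,1]) :: r4

noncomputable def l18 : List Con := (true, [0,0,0,1,0,0,0,-1]) :: r17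

noncomputable def r18 : List Con := (true, [1,0,0,-1,0,0,0,1]) :: r17

noncomputable def l19 : List Con := (false, [0,0,0,0,1,0,-1,0,-2,1]) :: l18

noncomputable def r19 : List Con := (false, [0,0,0,0,-1,0,1,0,2,-1]) :: l18

noncomputable def l20 : List Con := (false, [0,0,0,0,0,0,1,1,1,-1]) :: l19

noncomputable def r20 : List Con := (false, [0,0,0,0,0,0,-1,-1,-1,1]) :: l19

noncomputable def l21 : List Con := (true, [0,0,0,0,0,0,0,-1]) :: l20

noncomputable def r21 : List Con := (true, [1,0,0,0,0,0,0,1]) :: l20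

noncomputable def l22 : List Con := (true, [0,1,-1,-1,0,0,0,-1]) :: r21

noncomputable def r22 : List Con := (true, [1,-1,1,1,0,0,0,1]) :: r21

noncomputable def l23 : List Con := (false, [0,-1,0,0,0,0,1,1,1,-1]) :: r22

noncomputable def r23 : List Con := (false, [0,1,0,0,0,0,-1,-1,-1,1]) :: r22

noncomputable def l24 : List Con := (false, [0,1,0,-2,0,0,1,1,0,-1]) :: r23

noncomputable def r24 : List Con := (false, [0,-1,0,2,0,0,-1,-1,0,1]) :: r23

noncomputable def l25 : List Con := (false, [0,0,2,0,0,0,-1,0,-1,1]) :: r20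

noncomputable def r25 : List Con := (false, [0,0,-2,0,0,0,1,0,1,-1]) :: r20

noncomputable def l26 : List Con := (false, [0,0,0,1,0,0,1,1,1,-1]) :: r1

noncomputable def r26 : List Con := (false, [0,0,0,-1,0,0,-1,-1,-1,1]) :: r1

noncomputable def l27 : List Con := (false, [0,0,1,0,0,0,0,0,-1]) :: l26

noncomputable def r27 : List Con := (false, [0,0,-1,0,0,0,0,0,1]) :: l26

noncomputable def l28 : List Con := (false, [0,-1,0,2,0,0,0,0,1]) :: r27

noncomputable def r28 : List Con := (false, [0,1,0,-2,0,0,0,0,-1]) :: r27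

noncomputable def l29 : List Con := (true, [1,1,-2,-1]) :: r28

noncomputable def r29 : List Con := (true, [0,-1,2,1]) :: r28

noncomputable def l30 : List Con := (false, [0,0,2,0,0,0,-1,0,-1,1]) :: r26

noncomputable def r30 : List Con := (false, [0,0,-2,0,0,0,1,0,1,-1]) :: r26

noncomputable def l31 : List Con := (false, [0,-1,0,2,0,0,0,0,1]) :: r30

noncomputable def r31 : List Con := (false, [0,1,0,-2,0,0,0,0,-1]) :: r30

noncomputable def l32 : List Con := (true, [1,1,-2,-1]) :: r31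

noncomputable def r32 : List Con := (true, [0,-1,2,1]) :: r31

noncomputable def l33 : List Con := (true, [0,0,0,0,-1,0,0,-2]) :: l32

noncomputable def r33 : List Con := (true, [1,0,0,0,1,0,0,2]) :: l32

noncomputable def l34 : List Con := (false, [0,1,0,1,-1,0,-2,-2,-1,2]) :: r33

noncomputable def r34 : List Con := (false, [0,-1,0,-1,1,0,2,2,1,-2]) :: r33

noncomputable def l35 : List Con := (true, [0,1,-2,-1]) :: r34

noncomputable def r35 : List Con := (true, [1,-1,2,1]) :: r34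

noncomputable def l36 : List Con := (true, [0,1,1,0,-1,0,0,-1]) :: l35

noncomputable def r36 : List Con := (true, [1,-1,-1,0,1,0,0,1]) :: l35

noncomputable def l37 : List Con := (true, [0,-1,-1,-1,0,0,0,-2]) :: r36

noncomputable def r37 : List Con := (true, [1,1,1,1,0,0,0,2]) :: r36

def HH (Q : List Con) : Prop := Q = r14 ∨ Q = r16 ∨ Q = r24 ∨ Q = r25 ∨ Q = l29 ∨ Q = l34 ∨ Q = l37 ∨ Q = r37

open Helper55.PC in
noncomputable def t0n : Helper55.PC.Ten :=
  (q 190310890042104825079960486804513607778313 (i 72101577724133380 (s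
  437133787590456363441357916138711589490990320416001674355415566517978313251482180620239396248184774278905103415142055963059187860634393696749441704142091394563304637903096180608178358487969350584731621463078095018390006583142162059258926226011929266291952802357395780761257402107294767335472955244368206788193844623048069876836741159638304491655747007133488042735396269153683383836999937)
  (i 324478944413463240932033671594024 (r
  9022080025238159091077697697607454583359647305611766558153642813302895040751163718388210931471152683851128710904733384349924102677564089002199806080489299625301740600205599322791849464287681900465501449647340351649116955135246012666852603092767173870409781672223133643937472489512855772239297573682542075004752025961955906529461462882260841728946819038572564644474601597679931484621766234256663048749602318020237756516351693475163183560242353256486041223218082333003258514908283175069614605490380874432)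
  (i 324716628901005889847218414157864 (q
  28269768737419146162618332424164718581517487597807305049576700023492706314 (r
  80876664503200457389048691235191567716337664135300452637486917204328077257255240534575104333048276082293570869996741090321500526893626922909975934147008331209882192336677281439269733680250884548619596731827304444579643127818472784332961766156904591187089803818029843100837082571042825379504360932876012835329081050953520537137784782857567140432287230220798313342682817169513266857659786843363290062292100898643632444658474891485663987792148557627286058644366022494936768)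
  (q 431382183788441041234860484542792150440757100648059470256545753595914 (i
  324637400738491769624815093022760 (r
  8820447844250942773421632295602107115543552313253852035989305369436804954878928432734134423458067244382195015403988828524929357447376918894538731602644619562040692350978664265210176638287473075155903808018757755360703471303037773359864028015577780890070506179553264602409069516852018876398670539030638600320991045559318184484197928083931140407834699285866085266557353512812579045950227521135388715204173710193820869402660753792234162082072670469972014254324808445037239822212800)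
  (s
  4137450962049079375161198982845889348058891728799704830554120241425488705039955288425854454386761291873348484625218609218244079038276900535505492259392671721192463584755258158583857260171018857367278377175928544682125106000175400923534882837905085181759462570495326734808324669948681353458644182051662342947549978139126799185513185835910308836654168822753597636817880722294268380320284403354731175655869132354495108892115236158507581953))
  (r
  7618689463227313370315752683084188927916983294886432144974858266869850502265439643293130328730127810642529381412500028407734850384566433455204109123548867358995980312807109639005022129565675945067503976189993982434439532709175450048536003269042626700642250107225156208121172484376214581657808138155876853313694769354792819364650899454934438130069362441103088819402294128171834646642745140492980049551501028362083347292603846967263268230007705786498462658715986233959929055914440450456623292817064463844151516468108992)))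
  (i 324637400738491769642407279329320 (q
  431382183788441041234860484542792150440836328810573734629323669635082 (i
  324478944413463240932031524634632 (i 324637400738491769642409426550824 (r
  137808983595109564239928703585377785720759253981592173947013271858811187024442314997784201496149951550089049417382528640891967142075913459407639945493928697524641028383315821206205134615570172884179585833240306490929180614841172829995497878585136081713395854481084040925045359319995869616987201641950256190775657051201211160079828408017475289516928111120368153178287123239857552996289669602754675707252175435831870462710197432203355582059147040720527995393441127708976075252448)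
  (i 324478944413463240932031524372520 (n 9007749016990083) (r
  973950735834024635249920086288573704753904465391017293575056129108533578903108527921837810529655028309815179659126916553757274027629020462123023880032339136520131819745068463192158503824628389894281297765023629082170116233144730463960544745984605931453690171687059624302887616505920599404469278164609913880154996658429892416203141875829871603827415020168406723585159564884752286857651123246488634138170808237847568330645553608001194504599540687363934921553672589731969288663136000694757922269183344829574800244876230383719942059399085529547520352992)))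
  (q 431385474797557216142485660370015623488794216428974212057800892350474 (r
  225451237550141255526573517202851977349328578758267950405471375135330313714138181875322962598260616943980645202962566196796471841805036550750776605446581990708525705739150297520163349867576623914939479587626695193110340815408685916300467331257556119978960225384721876544654805973182288446349160900771242621317919779462949257255565796077544278396557667378389336951603514931911190674287115643242998844084404783518053205940241884111856663685337758224102277821773235588062487440477461294006218318570808435733670158016)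
  (s
  216213770784388220062918235494859868611878102676757183812910931822601376308322845726134679383112645347158610223383299574482423706962779815796890218253211856617272546850426062442947981211920917065326724656596318222095839245781453695524775596739650307481050253854653030324385590120503066888094393992168805045820675631555082034331537482999208991931925983199649596870988942368217127952832743022152405535841211462517840151041)))
  (q 431383829292999128688673072630639091354188197182227921718423364698122 (k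
  1315036640841283725592410073718178400951617410834212255239407622988148961642395084862058937829418288963016196543309608169094781654847488287358684458621305477330696217946890903750043399328030023974969067114171352)
  (q
  61734564569285904229598360188734413442020070424928771125562716426365728297334880548389293243618319479598776062953760331916502796964174678327306
  (i 324478944413463096852032115834888 (s
  25166372045041716339557355192790673598357361085923547900596241030606660993323680965037176609350311962980563742586531054098184299509846941406922045162497826703701214918352857822730333162375875515345718053536961757787160077070080066358426368378104950708586074704044269465598468315833865002227721164049038426241639409354300866719367690664520339605307742410393885098439334894429182308978440462898665673868541166081)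
  (r
  179737277449095471018184264467426182252334134637967578168715481639051964283313085508181310924152752400445509329792548109890232691736234943923115355231394853065612921784570928538086529671040656338127862738615706674265501402494065479640660089391349590247700003404479946309349570424532282083892565606789521185737396273306392291861690121370511401228513725082432482238107695917370349731657923176023837555246050141269460378589254366715143602947994364966096286605277454203278245110271103274305220567051764352465420211934319221446203163417476945683168))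
  (r
  10797010381769452551869319642485338685137170206234658048516398764702893673194218962332747055812071364525098622008398894788583609232959121368168560613656414204319062802943703531772902471647306155872160343464019148935961456489631693877974716720444738317156875404725397250237376546232920015567471447163456520889583607071248211560118944812505783124254761736894772158105586108365232883016203513445565510794235761377148117709266728442011375477134514785716236811085590393407629293339843636951972924580217382421088611841374387524543236936698442011324931953133037859620266688))))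
  (r
  2003304194806024822485113543503120933396777895046434761676331632986639290803502111949853268102754335549698631361691820362452175791961325104166263079623522638954320193078294296430849624947410867908152527288043134144955647214533789251609024689471146137198315876496168646725782588013114317108182255584030206901102956652539097063136031706961767040441501680699950291481193674356888731072300368889440493592086074493953160954152687318522460006197123418797859422312704731668817746072595926360768)))))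
  (q 190310890042104825079960630902107349843977 (s
  2450219621019989118544918320491709468989089474982077922219187129052742734690719343642277311873511882821270252579668364500692552050939196507252626312497379925501865047357002963454393291910651188506953391182741644983056439707191431497324670467751532174263766271552076923262373967692724167562430780973313640883690057842572062596567103079766294785)
  (q 431377247274766778873422720801956940868780655139201405781050348666890 (i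
  324478944413463240932031524634664 (i 324478944413463240949623710416936 (r
  36110044128793354260140077651494451576349559382159296926552449410223710035457747463622405325469688802438204078524932189820776583575963539656047729716258590014328686842977736606281092175624589232078459971798801776454118862311663391286661154255332221692300351061915590201413269416606625492756063203241217777621869282257241858176631925962120743386507708963433812003136224)
  (q 431382183788441041234860484717027354830090411129256214413808899588106 (r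
  1183389338471155679650919912678088636815612084712007660064347310255880502991450381291143393512814778231618702315327722754595702737479816089594425263805315678240350069619784463760133136704803456501678429109553214827680672920204907172580283875886826939172404952962615522141253279143492693747979706432854686695968074316312342482125004295789727610447813327030514218776152253120)
  (r
  135706653230491232757811329943672406092830692067573182858059697687620202254513210061521500315274573976320291437651271314743104880937489251923487171174007386736151979457524022297677090388475629193397438115255958726144362099627059302446258622965123405071556960765505897057219911305421526705509221859711995694992670616798599104253397835633876113023139818109005811658256167894524608)))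
  (r
  2818516916816326742457664714830981997413185305937752286374553201356565782809273826163529139344127558470657397316831011458305664397889401292766161024679968754618051585031955657781496509583433973836165403945793273863806850304773398839268471436934386930622899581191498526364705913222153399157893502933515159582794877531692228388764094576769115703740842376691247507603112058116153566169877796555511170805442417533632))
  (r
  2366498824582475563325927990197446831402932574551230372733462276860729622084644955350616337575976164229973512703741063856633267785293685651360172581624279005134662784201317697517468582724727597069157070599411074842489281467174383443221067671988246958251150218663518488110666079585577447207232005758078168010836878178978574911731746187968282680158268402914395468719678300896))))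

noncomputable def t0 : Tre := Helper55.PC.toT t0n

theorem ok0 : chk3 K KFs t0 l0 = true :=
  Helper81.PC.chk3N_sound K KFs t0n l0 (by decide +kernel)

noncomputable def t1 : Tre :=
  (.R ⟨2,true,false,false,[0,1],[1,-1],[1,0,1],(⟨0,[]⟩,⟨0,[]⟩),(⟨0,[(17,0)]⟩,⟨0,[(18,0)]⟩),⟨0,[]⟩,
  .k,.k,.k,(.r 0 ⟨1,[(1,0),(1,0),(7,0),(0,0),(7,0),(2,0),(1,0)]⟩ ⟨0,[(21,1),(3,0)]⟩),.k,.k,⟨false,0,
  ⟨3,[(1,0),(1,0),(7,0),(0,0),(7,0),(2,0),(1,0)]⟩,⟨1,[(21,1),(2,0),(0,0)]⟩⟩,⟨true,0,⟨0,[(20,0)]⟩,⟨0,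
  [(4,0),(16,0)]⟩⟩,⟨false,1,⟨0,[(22,0),(2,0)]⟩,⟨0,[(23,0)]⟩⟩,⟨true,1,⟨0,[(0,0),(21,0)]⟩,⟨0,[(1,
  0)]⟩⟩,⟨true,0,⟨0,[]⟩,⟨0,[(27,0)]⟩⟩,⟨false,1,⟨0,[(0,0)]⟩,⟨0,[(4,0),(22,0)]⟩⟩,[]⟩)

theorem ok1 : chk3 K KFs t1 l5 = true := by decide +kernel

open Helper55.PC in
noncomputable def t2n : Helper55.PC.Ten :=
  (i 324478944413463240949623710416936 (r
  443452354694246937909419790972237602321218447366577045741997674448509860882104438671178527165686525862165774995042686664578299883557250173782154544292619744375315941091950774346998906857400706329164011299530178662676618375100059136798856380842487947677871047507330676722283823446126993283792807471887598842240200995098955637469547887979748301351428906909063570022720671301073902805306734492858930962685615325787334451815533766286131589325135570503666101669022333375440187781408678314160596212315651312475872)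
  (i 324637400738491769624812945801224 (r
  174697632334061583155934686111370929971204245185531200905602336768170697146206208158666738830816430771006335655923532924947719397212770216948174028303131809940198727561419160412528844288276057375330999025239143228818661107949678520482461225427416523744666989801780848671644437678200332769610897760714374766761866864453972607569221289966863202112167022551854780146590624155241518474552277719360651131489689855970390079372223372142884778116339090415852186263232)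
  (q 431387120302115303596298248457862564402146084800628687394862482194442 (i
  324478944413463240949625857900552 (r
  928425659371133139780916894721081973754294052626731589614683692799107483746307092483271344079483804460247548624802592663194014972779735729437447338366771451719336264457850206161802603449944074722274650904439036302211420749015996027607811100232988896141387689512472898916480750325547092592990973587812287618003205846234439600912230291604033322654381533796318579227609765982857933402756092284457071221911886377501370140131333005024)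
  (n 590304817557966827651)) (i 324637400738491769642409426550824 (r
  669002213193697017672770766604029399466956366261334696552600613205624231413378088151019452136552579454652360506041931425145716037873634613514450428967592920915531645432990819189101235290478574989319721328425872096741069674245266637092366687508114347740388111366147248816309918925241868551852763559132814256402432745976841217442456345316677435738603771857712048639433279340701495294620150468975139664060686397784114373827667261335247464833035805408)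
  (r
  4061554323533986950268330895014624378000473114279353921642945658232530114872387767490993656835144391951090727001777324586871440474180667606290376330731315984138961146154360769434817831356679438994668956604109354915352986681797361125431629000232009853309168200800991764399344068356677868259166785908203843664958243771355430896565173550910412421802512968204344507157034353652042344109575988197007280663527415787701997157119268366240750779394041317579337626046028915310098578888364774394060627595121197889331807537889446523590943424)))))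

noncomputable def t2 : Tre := Helper55.PC.toT t2n

theorem ok2 : chk3 K KFs t2 l6 = true :=
  Helper81.PC.chk3N_sound K KFs t2n l6 (by decide +kernel)

noncomputable def t3 : Tre :=
  (.S ⟨1,0,[0,0,0,0,0,0,0,1],[0,0,1],[1,1,0,-1,0,0,0,1],(⟨0,[(17,0)]⟩,⟨0,[(16,0)]⟩),⟨0,[(11,0)]⟩,.k,
  .k,⟨true,0,⟨0,[(24,0)]⟩,⟨0,[(25,0)]⟩⟩,⟨false,1,⟨0,[(27,0),(1,0)]⟩,⟨0,[]⟩⟩,⟨false,0,⟨0,[]⟩,⟨0,[(27,
  0),(1,0)]⟩⟩,⟨true,0,⟨0,[(25,0)]⟩,⟨0,[(24,0)]⟩⟩,[.o ⟨false,0,⟨0,[(0,0),(8,0),(15,0)]⟩,⟨1,[(13,1),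
  (4,0),(8,0)]⟩⟩,.a ⟨true,0,⟨0,[(0,0),(5,0),(2,0)]⟩,⟨0,[(13,0)]⟩⟩ ⟨true,0,⟨0,[(0,0)]⟩,⟨0,[(4,0),(1,
  0),(15,0)]⟩⟩ ⟨false,1,⟨1,[(0,1),(24,1),(0,0),(0,0)]⟩,⟨1,[(4,0),(8,0),(0,0)]⟩⟩,.o ⟨false,0,⟨0,[(9,
  0)]⟩,⟨3,[(1,1),(13,1),(10,0),(0,0),(1,1)]⟩⟩,.o ⟨false,0,⟨0,[(14,0)]⟩,⟨0,[(1,0),(4,0),(16,0)]⟩⟩]⟩)

theorem ok3 : chk3 K KFs t3 l7 = true := by decide +kernel

noncomputable def t4 : Tre :=
  (.R ⟨0,false,false,false,[-1,1,1],[0,1],[1,1],(⟨0,[(12,0)]⟩,⟨0,[(18,0),(2,0)]⟩),(⟨0,[(22,0)]⟩,⟨0,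
  [(21,0)]⟩),⟨0,[(18,0)]⟩,.k,.k,.k,.k,.k,.k,⟨true,0,⟨0,[(25,0)]⟩,⟨0,[(8,0),(15,0)]⟩⟩,⟨false,1,⟨0,
  [(3,0),(4,0),(16,0)]⟩,⟨1,[(10,0),(5,0),(4,0),(0,0)]⟩⟩,⟨true,0,⟨0,[(0,0),(10,0),(13,0)]⟩,⟨0,[(7,
  0)]⟩⟩,⟨false,1,⟨1,[(0,1),(19,0),(8,0)]⟩,⟨0,[(1,0)]⟩⟩,⟨false,0,⟨0,[]⟩,⟨0,[]⟩⟩,⟨false,0,⟨0,[]⟩,⟨0,
  []⟩⟩,[.o ⟨false,0,⟨0,[(27,0)]⟩,⟨1,[(20,0),(5,1),(2,0)]⟩⟩,.a ⟨true,0,⟨0,[(8,0)]⟩,⟨0,[(26,0)]⟩⟩
  ⟨true,0,⟨0,[]⟩,⟨1,[(16,0),(0,0)]⟩⟩ ⟨false,1,⟨0,[(3,0),(4,0)]⟩,⟨0,[(10,0),(15,0)]⟩⟩,.o ⟨false,0,⟨0,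
  [(10,0)]⟩,⟨4,[(3,3),(13,0),(6,1),(4,0),(1,1)]⟩⟩,.o ⟨false,0,⟨1,[(10,0),(5,0),(4,0),(0,0)]⟩,⟨0,[(3,
  0)]⟩⟩]⟩)

theorem ok4 : chk3 K KFs t4 l9 = true := by decide +kernel

noncomputable def t5 : Tre :=
  (.R ⟨0,false,false,false,[1,0,-1],[0,1],[1,0,1],(⟨0,[(19,0)]⟩,⟨0,[(20,0)]⟩),(⟨0,[(23,0)]⟩,⟨0,[(22,
  0)]⟩),⟨0,[(13,0)]⟩,.k,.k,.k,.k,.k,.k,⟨false,1,⟨1,[(27,1),(1,0),(0,0)]⟩,⟨0,[(28,0)]⟩⟩,⟨true,0,⟨0,
  [(11,0)]⟩,⟨0,[(0,0)]⟩⟩,⟨true,0,⟨0,[(1,0),(16,0)]⟩,⟨0,[(7,0)]⟩⟩,⟨false,0,⟨0,[(1,0),(7,0)]⟩,⟨0,[(0,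
  0),(6,0),(18,0),(3,0)]⟩⟩,⟨false,0,⟨0,[]⟩,⟨0,[]⟩⟩,⟨false,0,⟨0,[]⟩,⟨0,[]⟩⟩,[.o ⟨false,0,⟨0,[(28,
  0)]⟩,⟨1,[(21,0),(5,1),(2,0)]⟩⟩,.a ⟨true,0,⟨0,[(9,0)]⟩,⟨0,[(27,0)]⟩⟩ ⟨false,1,⟨0,[(30,0),(1,0)]⟩,
  ⟨5,[(6,1),(14,0),(4,3),(2,0)]⟩⟩ ⟨true,0,⟨0,[(9,0),(2,0)]⟩,⟨0,[(0,0),(25,0)]⟩⟩,.o ⟨false,1,⟨3,[(4,
  1),(13,1),(10,0),(0,0),(1,1)]⟩,⟨0,[(12,0)]⟩⟩,.e ⟨true,0,⟨0,[]⟩,⟨0,[(32,0)]⟩⟩ ⟨true,0,⟨3,[(6,1),(4,
  1),(0,1),(16,0),(0,0)]⟩,⟨0,[(0,0),(25,0)]⟩⟩]⟩)

theorem ok5 : chk3 K KFs t5 l10 = true := by decide +kernel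

noncomputable def t6 : Tre :=
  (.S ⟨1,0,[0,0,0,0,0,0,0,1],[0,0,1],[1,1],(⟨0,[(23,0)]⟩,⟨0,[(22,0)]⟩),⟨0,[(17,0)]⟩,.k,.k,⟨true,0,
  ⟨1,[(10,0),(8,0),(0,0)]⟩,⟨0,[(1,0),(27,0),(3,0)]⟩⟩,⟨false,1,⟨0,[(33,0),(1,0)]⟩,⟨0,[]⟩⟩,⟨false,0,
  ⟨0,[(6,0)]⟩,⟨0,[(2,0),(27,0),(2,0)]⟩⟩,⟨true,0,⟨0,[(31,0)]⟩,⟨0,[(30,0)]⟩⟩,[.o ⟨false,0,⟨0,[(4,0)]⟩,
  ⟨1,[(19,1),(4,0),(8,0)]⟩⟩,.a ⟨true,0,⟨0,[(0,0)]⟩,⟨0,[(19,0)]⟩⟩ ⟨true,0,⟨0,[]⟩,⟨1,[(20,0),(0,0)]⟩⟩
  ⟨false,1,⟨1,[(2,1),(29,0),(0,0)]⟩,⟨1,[(10,0),(8,0),(0,0)]⟩⟩,.o ⟨false,0,⟨0,[(15,0)]⟩,⟨3,[(7,1),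
  (13,1),(10,0),(0,0),(1,1)]⟩⟩,.o ⟨false,0,⟨0,[(20,0)]⟩,⟨0,[(3,0),(3,0),(13,0)]⟩⟩]⟩)

theorem ok6 : chk3 K KFs t6 l13 = true := by decide +kernel

noncomputable def t7 : Tre :=
  (.R ⟨1,false,false,true,[0,0,1],[0,1],[1],(⟨0,[(24,0)]⟩,⟨0,[(23,0)]⟩),(⟨0,[(27,0)]⟩,⟨0,[(26,0)]⟩),
  ⟨0,[(18,0)]⟩,.k,.k,.k,.k,(.r (-1) ⟨0,[(3,0),(26,1),(3,0)]⟩ ⟨3,[(7,5),(4,1),(8,2),(0,2)]⟩),.k,
  ⟨true,1,⟨0,[(30,0),(3,0)]⟩,⟨0,[(9,0),(19,0)]⟩⟩,⟨false,1,⟨0,[(4,1),(3,0),(13,1)]⟩,⟨0,[(21,0)]⟩⟩,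
  ⟨false,1,⟨1,[(11,0),(8,0),(0,0),(12,1)]⟩,⟨0,[(2,0),(27,0),(3,0)]⟩⟩,⟨false,0,⟨0,[(1,0),(11,0)]⟩,⟨3,
  [(0,1),(5,1),(18,0),(8,0)]⟩⟩,⟨true,0,⟨0,[(7,0)]⟩,⟨0,[(3,0),(27,0)]⟩⟩,⟨false,0,⟨2,[(1,1),(5,0),(0,
  0),(1,0),(2,2)]⟩,⟨0,[(0,0)]⟩⟩,[.a ⟨true,(-1),⟨0,[(9,0)]⟩,⟨1,[(0,0),(19,0),(13,0)]⟩⟩ ⟨true,0,⟨0,
  []⟩,⟨1,[(21,0),(0,0)]⟩⟩ ⟨false,0,⟨1,[(1,1),(1,1),(5,0),(3,0),(19,0)]⟩,⟨1,[(0,0),(10,0),(9,0),(12,
  0)]⟩⟩,.o ⟨false,0,⟨0,[(32,0)]⟩,⟨1,[(0,0),(19,0),(4,0)]⟩⟩,.o ⟨false,0,⟨0,[(16,0)]⟩,⟨7,[(0,0),(7,3),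
  (3,1),(7,2),(1,1),(10,1),(0,0)]⟩⟩,.o ⟨false,0,⟨0,[(21,0)]⟩,⟨0,[(4,0),(3,0),(13,0)]⟩⟩]⟩)

theorem ok7 : chk3 K KFs t7 l14 = true := by decide +kernel

open Helper55.PC in
noncomputable def t8n : Helper55.PC.Ten :=
  (q 431393702320347653411548600112309510498299544524972723512563749224458 (r
  1994493847822020662842274345716881192054929895745883923074564627957316464530388837098083125276572317575868386527369643866623029341663192011726202205571797366823765022718894175319687104140634640804912939002574472700585895818347717980541218874140745615987453558875741637336459319491196512225343620987896398337443379855622716785313323716787027027827448035341588648276871145912711290925808851705072121698228777928468063095728708210468107068128)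
  (r
  29608963460311780653995919815846773074591961333418110777230764453724225134836707447525229889976355312439093103500864518872278546081855328555303752657974312432169033869151148385937860816768139607069776167195201311061646658359770639949709203287893022220633323049529208250163223275825159779099189101158305533051015520366307284916988559989916879299214186939628695428695628574035721083845163655463109793778399394637949334928903621472030253569137190305139375605821769915012791357850925116341093912807349535871996979115205344))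

noncomputable def t8 : Tre := Helper55.PC.toT t8n

theorem ok8 : chk3 K KFs t8 r12 = true :=
  Helper81.PC.chk3N_sound K KFs t8n r12 (by decide +kernel)

noncomputable def t9 : Tre :=
  (.R ⟨0,false,false,false,[1,-1],[0,0,1],[],(⟨0,[(23,0)]⟩,⟨0,[(24,0)]⟩),(⟨0,[(21,0)]⟩,⟨0,[(20,
  0)]⟩),⟨0,[(11,0)]⟩,.k,.k,(.r (-1) ⟨0,[(27,1),(3,0)]⟩ ⟨1,[(4,1),(4,1),(8,0),(0,0)]⟩),.k,.k,.k,
  ⟨true,0,⟨0,[(0,0)]⟩,⟨0,[(2,0),(16,0)]⟩⟩,⟨false,0,⟨0,[(1,0)]⟩,⟨4,[(5,1),(13,2),(6,0),(4,2),(1,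
  5)]⟩⟩,⟨true,0,⟨3,[(4,1),(4,1),(8,0),(0,0)]⟩,⟨0,[(27,0)]⟩⟩,⟨false,0,⟨0,[(2,0),(7,0)]⟩,⟨1,[(0,1),(4,
  0),(13,0),(7,0),(0,0),(2,0)]⟩⟩,⟨false,0,⟨0,[]⟩,⟨0,[]⟩⟩,⟨false,0,⟨0,[]⟩,⟨0,[]⟩⟩,[.o ⟨false,0,⟨0,
  [(2,0)]⟩,⟨1,[(17,1),(4,0),(8,0)]⟩⟩,.e ⟨false,1,⟨1,[(30,0),(0,0)]⟩,⟨0,[(33,0)]⟩⟩ ⟨false,1,⟨0,[(1,
  0),(7,0),(17,0),(3,0)]⟩,⟨1,[(0,1),(4,0),(0,0),(12,0),(6,0),(0,0)]⟩⟩,.a ⟨true,0,⟨1,[(18,0),(0,0)]⟩,
  ⟨0,[(1,0),(17,0)]⟩⟩ ⟨false,1,⟨0,[(31,0),(1,0)]⟩,⟨0,[]⟩⟩ ⟨true,0,⟨0,[(1,0),(0,0),(16,0)]⟩,⟨1,[(0,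
  1),(4,0),(0,0),(12,0),(6,0),(0,0)]⟩⟩,.o ⟨false,0,⟨0,[(26,0)]⟩,⟨0,[(30,0)]⟩⟩]⟩)

theorem ok9 : chk3 K KFs t9 r11 = true := by decide +kernel

noncomputable def t10 : Tre :=
  (.R ⟨0,false,false,false,[-1,1,1],[0,1],[0,0,2,1],(⟨0,[(12,0)]⟩,⟨0,[(18,0),(2,0)]⟩),(⟨0,[(22,0)]⟩,
  ⟨0,[(21,0)]⟩),⟨0,[(18,0)]⟩,.k,.k,.k,.k,.k,.k,⟨true,0,⟨1,[(16,0),(0,0)]⟩,⟨0,[]⟩⟩,⟨false,1,⟨0,[(3,
  0),(4,0),(16,0)]⟩,⟨1,[(10,0),(5,0),(4,0),(0,0)]⟩⟩,⟨false,0,⟨0,[(0,0)]⟩,⟨1,[(7,1),(17,1),(2,0),(0,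
  0)]⟩⟩,⟨true,0,⟨0,[(1,0)]⟩,⟨0,[(14,0),(6,0),(0,0)]⟩⟩,⟨false,0,⟨0,[]⟩,⟨0,[]⟩⟩,⟨false,0,⟨0,[]⟩,⟨0,
  []⟩⟩,[.o ⟨false,0,⟨0,[(27,0)]⟩,⟨1,[(20,0),(5,1),(2,0)]⟩⟩,.a ⟨true,0,⟨0,[(8,0)]⟩,⟨0,[(26,0)]⟩⟩
  ⟨true,0,⟨0,[(8,0),(15,0)]⟩,⟨0,[(25,0)]⟩⟩ ⟨false,1,⟨0,[(3,0),(4,0)]⟩,⟨0,[(10,0),(15,0)]⟩⟩,.o
  ⟨false,0,⟨0,[(10,0)]⟩,⟨4,[(3,3),(13,0),(6,1),(4,0),(1,1)]⟩⟩,.o ⟨false,0,⟨1,[(10,0),(5,0),(4,0),(0,
  0)]⟩,⟨0,[(3,0)]⟩⟩]⟩)

theorem ok10 : chk3 K KFs t10 l15 = true := by decide +kernel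

noncomputable def t11 : Tre :=
  (.R ⟨1,false,false,false,[0,0,1],[0,1],[0,0,2,1],(⟨0,[(20,0)]⟩,⟨0,[(19,0)]⟩),(⟨0,[(23,0)]⟩,⟨0,
  [(22,0)]⟩),⟨0,[(14,0)]⟩,.k,.k,.k,.k,(.r (-2) ⟨5,[(0,3),(0,1),(16,3),(7,3),(2,4),(0,2)]⟩ ⟨0,[(2,0),
  (2,0),(3,0),(2,0),(12,0)]⟩),.k,⟨true,0,⟨1,[(17,0),(0,0)]⟩,⟨0,[]⟩⟩,⟨false,1,⟨3,[(1,1),(0,1),(6,1),
  (8,1),(7,1),(2,2),(0,0)]⟩,⟨0,[(17,0)]⟩⟩,⟨false,0,⟨1,[(2,1),(6,1),(7,2),(0,0)]⟩,⟨0,[(1,0),(24,0),
  (3,0)]⟩⟩,⟨false,0,⟨0,[(2,0),(6,0)]⟩,⟨2,[(0,1),(7,0),(8,0),(11,0)]⟩⟩,⟨true,(-1),⟨0,[(2,0),(2,0),(3,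
  0),(2,0),(12,0)]⟩,⟨5,[(0,1),(0,3),(16,1),(7,7),(2,0),(0,2)]⟩⟩,⟨false,0,⟨0,[(2,0),(3,0),(23,0)]⟩,
  ⟨0,[(0,0)]⟩⟩,[.o ⟨false,0,⟨0,[(28,0)]⟩,⟨7,[(0,3),(1,1),(13,1),(4,2),(8,0)]⟩⟩,.a ⟨true,0,⟨0,[(9,
  0)]⟩,⟨0,[(27,0)]⟩⟩ ⟨true,0,⟨0,[(9,0),(15,0)]⟩,⟨0,[(26,0)]⟩⟩ ⟨false,1,⟨5,[(1,1),(0,1),(1,1),(4,5),
  (8,1),(10,2),(0,0)]⟩,⟨0,[(12,0),(14,0)]⟩⟩,.o ⟨false,0,⟨0,[(12,0)]⟩,⟨19,[(0,1),(3,9),(3,3),(7,5),
  (1,5),(10,4),(0,2)]⟩⟩,.o ⟨false,0,⟨0,[(17,0)]⟩,⟨5,[(1,1),(0,1),(1,1),(13,1),(10,2),(0,0)]⟩⟩]⟩)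

theorem ok11 : chk3 K KFs t11 l16 = true := by decide +kernel

noncomputable def t12 : Tre :=
  (.R ⟨0,false,false,true,[1,-1],[0,1],[1],(⟨0,[(17,0)]⟩,⟨0,[(18,0)]⟩),(⟨0,[(18,0)]⟩,⟨0,[(17,0)]⟩),
  ⟨0,[(5,0)]⟩,.k,.k,(.r (-1) ⟨0,[(21,1),(3,0)]⟩ ⟨1,[(0,0),(2,0),(7,0),(0,0),(10,1),(1,0)]⟩),(.r
  (-1) ⟨0,[(21,1),(3,0)]⟩ ⟨1,[(0,0),(2,0),(7,0),(0,0),(10,1),(1,0)]⟩),.k,.k,⟨true,1,⟨0,[(21,0),(3,
  0)]⟩,⟨0,[(0,0)]⟩⟩,⟨false,1,⟨0,[(4,0),(16,0),(2,0)]⟩,⟨0,[(20,0)]⟩⟩,⟨true,0,⟨3,[(0,0),(2,0),(7,0),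
  (0,0),(10,1),(1,0)]⟩,⟨0,[(21,0)]⟩⟩,⟨false,0,⟨4,[(3,0),(0,4),(6,0),(0,0),(6,1),(3,3)]⟩,⟨0,[(1,
  0)]⟩⟩,⟨false,0,⟨0,[]⟩,⟨0,[]⟩⟩,⟨false,0,⟨0,[]⟩,⟨0,[]⟩⟩,[.o ⟨false,0,⟨4,[(3,0),(7,0),(0,0),(6,1),(3,
  3)]⟩,⟨3,[(1,1),(14,0),(8,0)]⟩⟩,.o ⟨false,0,⟨0,[(23,0)]⟩,⟨1,[(16,0),(5,1),(2,0)]⟩⟩,.a ⟨true,0,⟨1,
  [(12,0),(0,0)]⟩,⟨0,[(4,0),(16,0)]⟩⟩ ⟨true,0,⟨0,[]⟩,⟨0,[(27,0)]⟩⟩ ⟨false,0,⟨0,[(4,0),(16,0),(1,
  0)]⟩,⟨7,[(1,1),(14,0),(3,3),(1,3),(2,4)]⟩⟩,.o ⟨false,0,⟨0,[(20,0)]⟩,⟨0,[(24,0)]⟩⟩]⟩)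

theorem ok12 : chk3 K KFs t12 l17 = true := by decide +kernel

open Helper55.PC in
noncomputable def t13n : Helper55.PC.Ten :=
  (q 431388765806673391050110836371474300926164642691086130344286922604554 (r
  294903420794592618826107336724269525336697666367450164254772095706527367713455923766131037289282021344400534475297267309920954635645318679827830833976105246939810023674964097328052597562321236757344370322582477639370589553176186284349650013466496467748388169320953707991855054407991487052752423568397111533488714764924773849550950786143310074617490179755471905485584743362324492912226636220868586264110849728)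
  (r
  158719431298136334747206150400337248240067756372590146458354857047332962788315199943497293324611958268729130487410646869010920549862020976076096122975830351383053303056280845750000550708261730361580665940168705401224351277002326349294882917984935709045651719280802016277707152621745400496470173575512522498614037231405564248146697244141910126808957791324618377451116244525452676324051777883591979726787836754960251338765162056249552154068386251279062640796844472564726936563051998015140367710689232618534275930399456))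

noncomputable def t13 : Tre := Helper55.PC.toT t13n

theorem ok13 : chk3 K KFs t13 l21 = true :=
  Helper81.PC.chk3N_sound K KFs t13n l21 (by decide +kernel)

noncomputable def t14 : Tre :=
  (.R ⟨0,false,false,true,[1,0,-1],[2,-1,-1],[1,0,1],(⟨0,[(19,0)]⟩,⟨0,[(20,0)]⟩),(⟨0,[(19,0),(2,
  0)]⟩,⟨0,[(13,0)]⟩),⟨0,[(13,0)]⟩,.k,.k,.k,.k,.k,.k,⟨true,0,⟨0,[(1,0),(7,0),(15,0)]⟩,⟨0,[(0,0)]⟩⟩,
  ⟨false,1,⟨1,[(21,0),(8,0),(1,1)]⟩,⟨0,[(9,0),(16,0)]⟩⟩,⟨true,0,⟨2,[(1,1),(0,0),(15,0),(6,0)]⟩,⟨0,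
  [(7,0)]⟩⟩,⟨false,1,⟨1,[(21,0),(5,1),(2,0)]⟩,⟨0,[(9,0)]⟩⟩,⟨false,0,⟨0,[]⟩,⟨0,[]⟩⟩,⟨false,0,⟨0,[]⟩,
  ⟨0,[]⟩⟩,[.o ⟨false,1,⟨4,[(0,1),(2,1),(2,0),(9,2),(4,1),(3,0),(1,0)]⟩,⟨0,[(1,0),(7,0),(2,0)]⟩⟩,.e
  ⟨false,1,⟨0,[(30,0),(1,0)]⟩,⟨0,[(1,0),(5,0)]⟩⟩ ⟨false,1,⟨3,[(6,1),(0,3),(13,0),(8,0)]⟩,⟨4,[(1,2),
  (0,0),(5,0),(0,3),(8,0),(5,1)]⟩⟩,.o ⟨false,1,⟨3,[(3,1),(14,1),(10,0),(0,0),(1,1)]⟩,⟨0,[(12,0)]⟩⟩,
  .a ⟨true,0,⟨0,[(18,0)]⟩,⟨0,[(11,0)]⟩⟩ ⟨true,0,⟨0,[]⟩,⟨0,[(32,0)]⟩⟩ ⟨false,1,⟨3,[(6,1),(0,3),(13,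
  0),(8,0)]⟩,⟨2,[(1,1),(0,0),(6,2),(8,0),(6,0)]⟩⟩]⟩)

theorem ok14 : chk3 K KFs t14 l22 = true := by decide +kernel

noncomputable def t15 : Tre :=
  (.S ⟨1,0,[0,0,0,0,0,0,0,1],[0,0,1],[1,1],(⟨0,[(21,0)]⟩,⟨0,[(20,0)]⟩),⟨0,[(15,0)]⟩,.k,.k,⟨true,0,
  ⟨1,[(8,0),(8,0),(0,0)]⟩,⟨0,[(1,0),(25,0)]⟩⟩,⟨false,1,⟨0,[(31,0),(1,0)]⟩,⟨0,[]⟩⟩,⟨false,0,⟨0,[(5,
  0)]⟩,⟨1,[(3,0),(2,0),(0,0),(1,0),(9,0)]⟩⟩,⟨true,0,⟨0,[(29,0)]⟩,⟨0,[(28,0)]⟩⟩,[.o ⟨false,0,⟨0,[(2,
  0),(10,0)]⟩,⟨1,[(17,1),(4,0),(8,0)]⟩⟩,.a ⟨true,0,⟨0,[(0,0)]⟩,⟨0,[(17,0)]⟩⟩ ⟨true,0,⟨0,[]⟩,⟨1,[(18,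
  0),(0,0)]⟩⟩ ⟨false,1,⟨0,[(6,0),(2,0)]⟩,⟨1,[(8,0),(8,0),(0,0)]⟩⟩,.o ⟨false,0,⟨0,[(13,0)]⟩,⟨3,[(4,
  1),(14,1),(10,0),(0,0),(1,1)]⟩⟩,.o ⟨false,0,⟨0,[(18,0)]⟩,⟨1,[(2,0),(1,0),(1,0),(10,0),(11,0)]⟩⟩]⟩)

theorem ok15 : chk3 K KFs t15 l23 = true := by decide +kernel

noncomputable def t16 : Tre :=
  (.R ⟨1,false,false,false,[0,0,1],[0,1],[1,1],(⟨0,[(22,0)]⟩,⟨0,[(21,0)]⟩),(⟨0,[(25,0)]⟩,⟨0,[(24,
  0)]⟩),⟨0,[(16,0)]⟩,.k,.k,.k,.k,(.r (-1) ⟨4,[(0,1),(2,2),(3,4),(12,1),(5,0),(1,0)]⟩ ⟨3,[(6,5),(3,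
  1),(8,2),(0,2)]⟩),.k,⟨true,0,⟨0,[(28,0)]⟩,⟨0,[(11,0),(15,0)]⟩⟩,⟨false,1,⟨1,[(1,0),(1,1),(3,0),(3,
  0),(6,0),(12,0)]⟩,⟨0,[(19,0)]⟩⟩,⟨true,0,⟨1,[(9,0),(8,0),(0,0)]⟩,⟨0,[(2,0),(25,0)]⟩⟩,⟨true,0,⟨0,
  [(1,0),(9,0)]⟩,⟨1,[(0,0),(16,0)]⟩⟩,⟨false,0,⟨0,[(6,0)]⟩,⟨1,[(4,0),(2,0),(0,0),(1,0),(9,0)]⟩⟩,
  ⟨true,0,⟨0,[(1,0),(9,0),(18,0)]⟩,⟨0,[(0,0)]⟩⟩,[.o ⟨false,0,⟨0,[(30,0)]⟩,⟨1,[(23,0),(5,1),(2,0)]⟩⟩,
  .a ⟨true,0,⟨0,[(11,0)]⟩,⟨0,[(29,0)]⟩⟩ ⟨true,0,⟨0,[]⟩,⟨1,[(19,0),(0,0)]⟩⟩ ⟨false,1,⟨4,[(1,1),(1,1),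
  (1,1),(1,0),(3,5),(8,0),(10,1)]⟩,⟨1,[(0,0),(8,0),(9,0)]⟩⟩,.o ⟨false,0,⟨0,[(14,0)]⟩,⟨3,[(5,1),(14,
  1),(10,0),(0,0),(1,1)]⟩⟩,.o ⟨false,0,⟨0,[(19,0)]⟩,⟨4,[(1,1),(1,1),(1,1),(1,0),(3,0),(8,0),(10,
  1)]⟩⟩]⟩)

theorem ok16 : chk3 K KFs t16 l24 = true := by decide +kernel

noncomputable def t17 : Tre :=
  (.K ⟨0,[-1,1,1],0,0,(⟨0,[(12,0)]⟩,⟨0,[(18,0),(2,0)]⟩),.k,.k,(.r 0 ⟨3,[(3,1),(3,5),(8,0),(0,0)]⟩
  ⟨2,[(1,0),(2,0),(0,1),(4,2),(4,1),(9,0)]⟩),.k,.k,[⟨0,[(21,0)]⟩,⟨0,[(0,0)]⟩,⟨1,[(10,0),(5,0),(4,0),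
  (0,0)]⟩,⟨0,[(1,0),(24,0)]⟩,⟨0,[(8,0),(5,0),(16,0)]⟩,⟨0,[(10,0)]⟩,⟨0,[(8,0),(1,0),(14,0)]⟩]⟩)

theorem ok17 : chk3 K KFs t17 l25 = true := by decide +kernel

open Helper55.PC in
noncomputable def t18n : Helper55.PC.Ten :=
  (q 431385474797557216142485660370015623488873444591488620510580364410890 (i
  324478944413463240932033671856168 (r
  4489556750788875448059610706969213202193120827098057665342625187429816933553028789485161480177857849838420838673274896962989509001661263018349285007074368178334369212177704813296607652695087431241930545111666218291947154203723707049371325950652011354794565250548745510885277906478409643393433962328921925995555806065179556455313554515194096729801985269423300055054690760189505123096858007412683818987392341958253921726368093573417741328491583144428577504)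
  (i 324478944413463240932031524634632 (r
  22231208241782108643249321364895158265292848956612965331191147665002481854265529646265517604729970461340888113556349152979359715453779863550743953117180933294368398292240639989710970277056066676351265453090451139535771640979369167087329052375565177671607706124096119553031066700676561617661608838402240169276945160338303905304427424723017984009205739315211238161290208724169714274023439043730231170795313140500968743788468956428543896901747467241784228703914862149620707989066097376)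
  (q
  32492222983021823267410637821270320289719205717461002551826571177681970870665883289121199405645384853659877845567807716417470474
  (r
  18412117966602394124331214247359475078738909947166806875399348612620008571395982019416676609863623115758332668704464891804184134845170776420397018449865277385954219619802425403585220664225984459937799840191472466640500634187366170425036558956580400500309606007194078233358521649863445057619681938359111825346103209066628611602479739108200932318371111617867914997393783565812198372948177930533098005103673373250202086310258497259760653940089319830466380856901320749794339447459575266077072551424421413476396272372972305883271549739912999752182463649800864)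
  (s
  2728668399340499927011836467655949487709831381814651405813186623591102850753130106521401244301758119204563193507944983151508832516346579489036206009675838500117543763411076847850647878301446368432355970470001146168900421764292852885605319336629085486595434880307646897638161026461356062517128559705426504940787535360008234539835716959390890268149612273341127630497862627322695984011728126465))))
  (r
  17375856471890646890989636003122480859381279800342326937550512325653964635786023843930138072205680965543533232275581317155121257776538706942538116613638764008184444242680647202779502947258026201299189630236403810428873517979609681235342910493333130073451777037093835052558791842917326193534225202602724891979154155437794212118185377559737180996121408065627851350494869253554050514646273913214410478747839828861855853376827525214697392760830098922652442835317497126143673110022995776414347734183349994704957114250967164069309336279592219683003727572058083418784))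

noncomputable def t18 : Tre := Helper55.PC.toT t18n

theorem ok18 : chk3 K KFs t18 r19 = true :=
  Helper81.PC.chk3N_sound K KFs t18n r19 (by decide +kernel)

noncomputable def t19 : Tre :=
  (.Q [0,0,-1,0,1,0,-1,0,-1,1] (.p true [0,0,1] [1] (⟨0,[(16,0)]⟩,⟨0,[(15,0)]⟩) .k 1 (⟨0,[]⟩,⟨0,
  []⟩) .k .k) (.S ⟨1,0,[0,0,0,0,0,0,0,1],[0,0,1],[1,1,0,-1,0,0,0,1],(⟨0,[(17,0)]⟩,⟨0,[(16,0)]⟩),⟨0,
  [(11,0)]⟩,.k,.k,⟨true,0,⟨0,[(24,0)]⟩,⟨0,[(25,0)]⟩⟩,⟨false,1,⟨0,[(27,0),(1,0)]⟩,⟨0,[]⟩⟩,⟨false,0,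
  ⟨0,[]⟩,⟨0,[(27,0),(1,0)]⟩⟩,⟨true,0,⟨0,[(25,0)]⟩,⟨0,[(24,0)]⟩⟩,[.o ⟨false,0,⟨0,[(1,0),(7,0),(15,
  0)]⟩,⟨1,[(13,1),(4,0),(8,0)]⟩⟩,.a ⟨true,0,⟨0,[(1,0),(4,0),(2,0)]⟩,⟨0,[(13,0)]⟩⟩ ⟨true,0,⟨0,[(1,
  0)]⟩,⟨0,[(4,0),(1,0),(15,0)]⟩⟩ ⟨false,1,⟨0,[(2,0),(2,0)]⟩,⟨1,[(4,0),(8,0),(0,0)]⟩⟩,.o ⟨false,0,⟨0,
  [(9,0)]⟩,⟨3,[(0,2),(14,0),(6,0),(4,0),(1,1)]⟩⟩,.o ⟨false,0,⟨0,[(14,0)]⟩,⟨0,[(0,0)]⟩⟩]⟩) (.K ⟨1,[1,
  1,-1],1,1,(⟨0,[(16,0),(3,0)]⟩,⟨0,[(11,0)]⟩),.k,.k,(.r 0 ⟨1,[(4,0),(1,1),(6,0),(0,0),(7,1),(2,1)]⟩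
  ⟨1,[(1,1),(0,0),(21,0),(1,0)]⟩),.k,.k,[⟨1,[(0,1),(13,0),(0,0)]⟩,⟨1,[(15,1),(2,0),(7,0)]⟩,⟨0,[(0,
  0),(0,0),(21,0),(1,0)]⟩,⟨5,[(5,1),(7,7),(0,1),(3,2),(6,3),(0,1),(0,0)]⟩,⟨0,[(0,0)]⟩,⟨0,[(2,0),(12,
  0),(7,0),(1,1)]⟩]⟩))

theorem ok19 : chk3 K KFs t19 r18 = true := by decide +kernel

open Helper55.PC in
noncomputable def t20n : Helper55.PC.Ten :=
  (q 617065778582175049967018835367737782727647452626385095234813962 (r
  7095969202868094681646022077481109067827968742798235708346493276413827420712759047969479620010184177146803161971359618024670592293573690185081940965944192680155987204853870227544771261162310693574588285859014825866441865343281183509262447329731844329637416960964412884232568025018373291358810989456806746718664199646562152253484519972752840772228231134707104543303767723741284631191997644287862018083231646861471115818891291287402091766036961818716695919402803782304)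
  (r
  26501675509309716398861566200899282320367194602583858989472202810917698112711569401687089302837936627417862597124788965211810448515817465458870928265086019585929504193328032290255205929189496937406254690641963669541962341690063643588616388317694989165786036012131914464932762866880184304408278396712365136194563847504734682713232070507297427883718086583542007583808824852374885511339377274677400930094165423666068680769742743752895597389486580605215822039500458518470462299840))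

noncomputable def t20 : Tre := Helper55.PC.toT t20n

theorem ok20 : chk3 K KFs t20 r3 = true :=
  Helper81.PC.chk3N_sound K KFs t20n r3 (by decide +kernel)

open Helper55.PC in
noncomputable def t21n : Helper55.PC.Ten :=
  (i 324637400738491769642409426812936 (i 324478944413463240932031524372488 (q
  190332156391883940937705920327262023319561 (r
  21202141096298469117275995343776820610258993540244722403594826406991793149660345828237272675953512093341960318535088943444929253577920414752018586431552707640637449737976959755207629168899335757898685508621338877258669919972396951543813344950310171596063200106992183855151778419475848938212891621681709017373051368057932769816363457234176507470837493622178386844702090381861157031413579607066643466156674167659432398067597758740101320742785432887436917091824504879066709238496)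
  (q 431382183788441041234860484717027354830090411129256214413808899588106 (r
  11935653278006518588672822602333983624321973895545601801594643057043801134174189915748341032801124050252343361075085407583757904795524468270860854294243347317297216548832952335332278669409563612637993649349866216674078919378516300145759347879140224435021798250739891259312599724148513962670171756635563995371767787632318401055489909036751857646041644385913276392117095721528532817105517097384710854048508035515459487616028594489803823926244710453947032395268694830279528025703604587188724448)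
  (r
  1096116640755482847977010819816110057320753158993336775564195670641118407072255420928874499281164441149373480920296676869856882316110527250319830427329637783545849260302274043245515440061142698788098887615582853159212904148737358259119245689329278509863623495577406466407577205612551402300968409223177217428969016815081950854893814547832631381133451619014955515753542695707865184397394488020424926954928516989249428068853095102123667621491323984159456)))
  (n 590304817557966827907)) (r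
  1564441882108153967926939350231090963176539926963528620321505317797848676742539417919414485557205322483619007345812856357494091160725989320571146528933567239782329058450117771265392767543201070076531433994954974581375111160181273489135245083155162410759054692503872401415817982021407772411446860922155357783160070114792573399783020943572912703265002315950416160619574649112368198029917530530004408512809399806094886906241652554850757451676293902669185648858153097739686924440408673137573964292832))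

noncomputable def t21 : Tre := Helper55.PC.toT t21n

theorem ok21 : chk3 K KFs t21 r2 = true :=
  Helper81.PC.chk3N_sound K KFs t21n r2 (by decide +kernel)

open Helper55.PC in
noncomputable def t22n : Helper55.PC.Ten :=
  (q 431378892779324866327235308889803881782053295348341328514960018767882 (i
  324637400738491769624815093284904 (r
  1183389338333407843999833877147385868823642681841874583568985747837764565473652118844242612468528042158651336883120290708272606123898509124629716713089948812993703043727104843670994394148515290878977955055585794107972265324911340707790897113544733332037774053053561221942741188272337973743567050430764426959405312565822706792169980776928862221234315220704509948422535258816)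
  (r
  36110044128793386332057314688006626116581520582004626327403872447428670955347634536853845130806519204591265609544919195646275018801387556728423182886673350098083627694494009772637280425865651443294005391059234494405072996327266895909236570277462314389830765668011490484368480375863331855788032295698194657731856517785762884497221826899708438790832512912065186485772992))
  (i 324637400738491769624812945801256 (r
  41632046408388629431021738670268549409970220938930283844593588687762462876864014539333542222878801727767056311547622284760889108451091232735957756758712660911260475084128271886585338734920229954691181921354496375850876419978423369581314088063429311337888889795368614453315226251155888399955576026871838694021240172929195386132531174412479207835146177372079739524702363642246464267887296)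
  (r
  666112742534218070896347818724296770514024716002739855914046484630371926839468583558182909564424948686691065179149931011026716552615075924843137480315473344372755074777609826735451092173761291327690990997369133255664244084080464295334283363803313238273170731037778107508120185288161374231860035972996574589407609085800448414486305130348241165507836359569153997701881229514035129172632256)))

noncomputable def t22 : Tre := Helper55.PC.toT t22n

theorem ok22 : chk3 K KFs t22 l27 = true :=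
  Helper81.PC.chk3N_sound K KFs t22n l27 (by decide +kernel)

noncomputable def t23 : Tre :=
  (.R ⟨2,true,false,true,[0,1],[1,-1],[1,1,1],(⟨0,[]⟩,⟨0,[]⟩),(⟨0,[(16,0)]⟩,⟨0,[(17,0)]⟩),⟨0,[]⟩,.k,
  .k,.k,(.r 0 ⟨6,[(0,5),(1,1),(7,1),(7,1),(0,7)]⟩ ⟨0,[(20,1),(3,0)]⟩),.k,.k,⟨false,0,⟨6,[(0,2),(1,
  0),(7,0),(7,0),(0,3)]⟩,⟨1,[(20,1),(2,0),(0,0)]⟩⟩,⟨true,0,⟨0,[(19,0)]⟩,⟨0,[(1,0)]⟩⟩,⟨true,0,⟨0,
  [(21,0)]⟩,⟨0,[(22,0)]⟩⟩,⟨false,1,⟨0,[(3,0),(17,0),(2,0)]⟩,⟨0,[(0,0)]⟩⟩,⟨false,0,⟨0,[]⟩,⟨0,[(24,0),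
  (1,0)]⟩⟩,⟨true,0,⟨0,[(3,0)]⟩,⟨5,[(0,1),(0,1),(0,1),(7,1),(0,0),(0,0)]⟩⟩,[]⟩)

theorem ok23 : chk3 K KFs t23 l28 = true := by decide +kernel

noncomputable def t24 : Tre :=
  (.R ⟨0,false,false,false,[1,-1],[0,1],[1,1],(⟨0,[(17,0)]⟩,⟨0,[(18,0)]⟩),(⟨0,[(18,0)]⟩,⟨0,[(17,
  0)]⟩),⟨0,[(5,0)]⟩,.k,.k,(.r (-1) ⟨1,[(1,1),(0,1),(21,0),(0,0)]⟩ ⟨2,[(0,3),(18,1),(3,1)]⟩),(.r
  (-1) ⟨1,[(1,1),(0,1),(21,0),(0,0)]⟩ ⟨2,[(0,3),(18,1),(3,1)]⟩),.k,.k,⟨true,0,⟨0,[(21,0)]⟩,⟨0,[(0,
  0)]⟩⟩,⟨false,1,⟨0,[(2,0),(21,0)]⟩,⟨0,[(20,0)]⟩⟩,⟨false,0,⟨2,[(0,1),(18,0),(3,0)]⟩,⟨3,[(1,1),(0,1),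
  (21,0),(0,2)]⟩⟩,⟨true,0,⟨2,[(0,0),(1,1),(0,0),(7,0),(11,3)]⟩,⟨0,[(1,0)]⟩⟩,⟨false,0,⟨0,[]⟩,⟨0,[]⟩⟩,
  ⟨false,0,⟨0,[]⟩,⟨0,[]⟩⟩,[.o ⟨false,0,⟨0,[(23,0)]⟩,⟨1,[(16,0),(5,1),(2,0)]⟩⟩,.o ⟨false,1,⟨0,[(0,0),
  (23,0)]⟩,⟨0,[(4,0)]⟩⟩,.a ⟨true,0,⟨1,[(0,0),(21,0)]⟩,⟨0,[(2,0)]⟩⟩ ⟨false,0,⟨0,[]⟩,⟨0,[(25,0),(1,
  0)]⟩⟩ ⟨true,0,⟨0,[(2,0),(20,0)]⟩,⟨4,[(1,1),(17,0),(0,2),(1,0)]⟩⟩,.o ⟨false,0,⟨0,[(20,0)]⟩,⟨0,[(24,
  0)]⟩⟩]⟩)

theorem ok24 : chk3 K KFs t24 r29 = true := by decide +kernel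

noncomputable def t25 : Tre :=
  (.R ⟨0,false,false,false,[1,0,-1],[0,1],[1,1,1],(⟨0,[(12,0)]⟩,⟨0,[(13,0)]⟩),(⟨0,[(16,0)]⟩,⟨0,[(15,
  0)]⟩),⟨0,[(6,0)]⟩,.k,.k,.k,.k,.k,.k,⟨false,0,⟨0,[(19,0)]⟩,⟨0,[(21,0),(1,0),(1,0)]⟩⟩,⟨true,0,⟨0,
  [(4,0)]⟩,⟨0,[(0,0)]⟩⟩,⟨true,0,⟨0,[(8,0),(2,0)]⟩,⟨0,[(1,0),(2,0),(16,0)]⟩⟩,⟨false,1,⟨0,[(8,0),(6,
  0),(0,0),(4,0),(1,0)]⟩,⟨0,[(1,0)]⟩⟩,⟨false,0,⟨0,[]⟩,⟨0,[]⟩⟩,⟨false,0,⟨0,[]⟩,⟨0,[]⟩⟩,[.o ⟨false,0,
  ⟨0,[(21,0)]⟩,⟨1,[(14,0),(5,1),(2,0)]⟩⟩,.o ⟨false,1,⟨0,[(21,0),(1,0),(1,0)]⟩,⟨0,[(2,0)]⟩⟩,.o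
  ⟨false,1,⟨0,[(0,0),(21,0)]⟩,⟨0,[(5,0)]⟩⟩,.a ⟨true,0,⟨0,[(11,0)]⟩,⟨0,[(4,0)]⟩⟩ ⟨false,0,⟨0,[]⟩,⟨0,
  [(23,0),(1,0)]⟩⟩ ⟨true,0,⟨0,[(4,0),(16,0)]⟩,⟨0,[(0,0),(18,0)]⟩⟩]⟩)

theorem ok25 : chk3 K KFs t25 l30 = true := by decide +kernel

noncomputable def t26 : Tre :=
  (.R ⟨2,true,false,true,[0,1],[1,-1],[1,1,1],(⟨0,[]⟩,⟨0,[]⟩),(⟨0,[(16,0)]⟩,⟨0,[(17,0)]⟩),⟨0,[]⟩,.k,
  .k,.k,(.r 0 ⟨0,[(0,0),(18,0),(6,0)]⟩ ⟨0,[(20,1),(3,0)]⟩),.k,.k,⟨false,0,⟨1,[(0,0),(18,0),(6,0)]⟩,
  ⟨1,[(20,1),(2,0),(0,0)]⟩⟩,⟨true,0,⟨0,[(19,0)]⟩,⟨0,[(1,0),(10,0)]⟩⟩,⟨true,0,⟨0,[(21,0)]⟩,⟨0,[(22,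
  0)]⟩⟩,⟨false,1,⟨0,[(3,0),(17,0),(2,0)]⟩,⟨0,[(0,0)]⟩⟩,⟨false,0,⟨0,[]⟩,⟨0,[(24,0),(1,0)]⟩⟩,⟨true,0,
  ⟨0,[(3,0)]⟩,⟨1,[(0,0),(15,0),(0,0),(8,0)]⟩⟩,[]⟩)

theorem ok26 : chk3 K KFs t26 l31 = true := by decide +kernel

open Helper55.PC in
noncomputable def t27n : Helper55.PC.Ten :=
  (q
  1260864201220597214692566332948163064468536703274524064592932764384169208269588016465466153155463327348768172803489802
  (q
  41317258913591758031709467669966287745793207023008153314211466339931716767914382171812363717606141818239790819836323299338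
  (r
  349869457880880386031755503648382107580682175950451170404055594530617783068968472725391693417820702724606870192953984199873667259240131652086997815148136907405565936211305894937153195094204945466370776704536949664048034306467159377213811497342892450491280445986380882692283755210991408914359591685997589742774360056610714877260677876063168363828897191035687204474084853869090007276855546450793534225498627998669184889368942737706423507110992452067581040040353226595299686621920)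
  (r
  8896438513608011208235535295164624297885233550282228833259061661139343938155657295220219029204721649053208925414098585306928378223669280613904269763020845839292419180448948604252920485293442644146249687153663266001021372154376448423025871922997273299999847899395994667482284880014025313412593422006011799198618970548587071489893843542413008854510637720507539876574555416415169500020511718496902579310162689962379579913041861233081218132090075179265828286957674612615782051633788880413073768061729075123737137910454908058126778528847684907744048089503966305182336))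
  (i 324637400738491913740001021394984 (r
  181975271670884796847385781213349621148887798877411205465596561279925240827122611720174391181283131871749085344789852859068805022360418698649298515777724213055580296309518422325083697347479329879315550020605189961243587766436724842885990796005139082307066612574801100855096879413010697448955017510761504801061137818807512339766695005682045347326209993706316964997744353808062402278711362199164800889959647198446065664110696611165247676562746765858302900486173710830281408)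
  (r
  120569224547968970672754314556283094853741183364526051053683337735666747607654102960301018769444823331582741609381324519326222310332193928566778142882601690080035687327270578917383663682355535547097683570490796888260251798237815460750236192882552623037023740932377950111648512219579219293767829982178738652558971145737161922828515088641096269424373173507610627635812104358542084716668566619344374290239134386634451212196187804803430828638625171605276600919641287541518614018073113792064896210996743539101398941492867296473838151402082696684192)))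

noncomputable def t27 : Tre := Helper55.PC.toT t27n

theorem ok27 : chk3 K KFs t27 l33 = true :=
  Helper81.PC.chk3N_sound K KFs t27n l33 (by decide +kernel)

noncomputable def t28 : Tre :=
  (.R ⟨0,false,false,false,[1,0,-1],[0,0,1],[1,0,0,0,0,0,0,1],(⟨0,[(18,0)]⟩,⟨0,[(19,0)]⟩),(⟨0,[(19,
  0)]⟩,⟨0,[(18,0)]⟩),⟨0,[(12,0)]⟩,.k,.k,.k,.k,.k,.k,⟨true,0,⟨0,[]⟩,⟨1,[(16,0),(0,0)]⟩⟩,⟨false,0,⟨0,
  [(6,0),(9,0)]⟩,⟨1,[(3,0),(3,1),(9,1),(9,1),(0,0)]⟩⟩,⟨true,1,⟨0,[(3,0)]⟩,⟨11,[(0,15),(5,7),(0,5),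
  (7,1),(4,0),(6,5),(1,2)]⟩⟩,⟨false,1,⟨0,[(2,0),(24,0)]⟩,⟨3,[(0,0),(5,1),(0,5),(7,0),(1,2),(9,5),(1,
  0)]⟩⟩,⟨false,0,⟨0,[]⟩,⟨0,[]⟩⟩,⟨false,0,⟨0,[]⟩,⟨0,[]⟩⟩,[.o ⟨false,1,⟨1,[(3,0),(12,1),(11,0)]⟩,⟨0,
  [(7,0),(19,0)]⟩⟩,.o ⟨false,1,⟨3,[(2,1),(17,0),(6,1),(1,0)]⟩,⟨5,[(0,0),(6,3),(7,0),(1,0),(2,0),(2,
  1),(3,3)]⟩⟩,.o ⟨false,1,⟨1,[(17,1),(2,0),(7,0)]⟩,⟨0,[(11,0)]⟩⟩,.a ⟨true,0,⟨0,[(17,0)]⟩,⟨0,[(10,
  0)]⟩⟩ ⟨true,1,⟨1,[(3,0),(24,0)]⟩,⟨0,[(0,0)]⟩⟩ ⟨false,1,⟨3,[(2,1),(3,1),(9,1),(10,1),(0,0),(0,0)]⟩,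
  ⟨0,[(7,0),(9,0),(9,0)]⟩⟩]⟩)

theorem ok28 : chk3 K KFs t28 l36 = true := by decide +kernel

noncomputable def t29 : Tre :=
  (.R ⟨0,false,false,false,[1,-1],[2,-1,-1],[1,0,-1,-1,0,0,0,-1],(⟨0,[(20,0)]⟩,⟨0,[(21,0)]⟩),(⟨0,
  [(17,0),(2,0)]⟩,⟨0,[(11,0)]⟩),⟨0,[(8,0)]⟩,.k,.k,(.r (-1) ⟨0,[(3,0),(21,0),(2,0)]⟩ ⟨2,[(0,3),(21,
  1),(3,1)]⟩),.k,.k,.k,⟨true,0,⟨0,[]⟩,⟨1,[(0,0),(24,0)]⟩⟩,⟨false,1,⟨1,[(2,0),(3,1),(19,1),(0,0)]⟩,
  ⟨1,[(9,0),(5,0),(4,0),(0,0)]⟩⟩,⟨false,0,⟨0,[(0,0),(4,0),(0,0)]⟩,⟨9,[(0,1),(0,1),(0,4),(11,3),(4,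
  0),(7,1)]⟩⟩,⟨true,0,⟨0,[(6,0),(19,0)]⟩,⟨0,[(13,0),(6,0),(0,0)]⟩⟩,⟨false,0,⟨0,[]⟩,⟨0,[]⟩⟩,⟨false,0,
  ⟨0,[]⟩,⟨0,[]⟩⟩,[.e ⟨false,0,⟨0,[(5,0),(0,0)]⟩,⟨4,[(0,4),(1,2),(11,0),(0,0),(6,1),(4,1)]⟩⟩ ⟨false,
  1,⟨0,[(6,0),(20,0)]⟩,⟨0,[(0,0),(4,0),(7,0),(2,0)]⟩⟩,.o ⟨false,1,⟨1,[(6,1),(12,0),(8,0)]⟩,⟨0,[(13,
  0),(6,0),(0,0),(4,0)]⟩⟩,.a ⟨true,0,⟨1,[(0,0),(24,0)]⟩,⟨0,[(5,0),(10,0)]⟩⟩ ⟨true,0,⟨0,[(6,0),(2,
  0)]⟩,⟨0,[(13,0),(2,0),(9,0)]⟩⟩ ⟨false,1,⟨1,[(6,1),(20,0),(0,0)]⟩,⟨0,[(0,0),(4,0),(7,0),(2,0)]⟩⟩,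
  .o ⟨false,0,⟨0,[(23,0)]⟩,⟨0,[(27,0)]⟩⟩]⟩)

theorem ok29 : chk3 K KFs t29 r35 = true := by decide +kernel

noncomputable def t30 : Tre :=
  (.R ⟨0,false,false,false,[1,-1],[0,1],[1,1],(⟨0,[(17,0)]⟩,⟨0,[(18,0)]⟩),(⟨0,[(18,0)]⟩,⟨0,[(17,
  0)]⟩),⟨0,[(5,0)]⟩,.k,.k,(.r (-1) ⟨0,[(21,1),(3,0)]⟩ ⟨2,[(0,3),(18,1),(3,1)]⟩),(.r (-1) ⟨0,[(21,1),
  (3,0)]⟩ ⟨2,[(0,3),(18,1),(3,1)]⟩),.k,.k,⟨true,0,⟨0,[(21,0)]⟩,⟨0,[(0,0)]⟩⟩,⟨false,1,⟨0,[(2,0),(10,
  0),(10,0)]⟩,⟨0,[(20,0)]⟩⟩,⟨false,0,⟨2,[(0,1),(18,0),(3,0)]⟩,⟨0,[(21,0),(3,0)]⟩⟩,⟨true,0,⟨0,[(17,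
  0),(0,0),(4,1)]⟩,⟨0,[(1,0)]⟩⟩,⟨false,0,⟨0,[]⟩,⟨0,[]⟩⟩,⟨false,0,⟨0,[]⟩,⟨0,[]⟩⟩,[.o ⟨false,0,⟨0,
  [(23,0)]⟩,⟨1,[(16,0),(5,1),(2,0)]⟩⟩,.o ⟨false,1,⟨0,[(0,0),(23,0)]⟩,⟨0,[(4,0)]⟩⟩,.a ⟨true,0,⟨1,[(0,
  0),(21,0)]⟩,⟨0,[(2,0),(10,0)]⟩⟩ ⟨false,0,⟨0,[]⟩,⟨0,[(25,0),(1,0)]⟩⟩ ⟨true,0,⟨0,[(2,0),(10,0),(9,
  0)]⟩,⟨4,[(1,1),(17,0),(0,2),(1,0)]⟩⟩,.o ⟨false,0,⟨0,[(20,0)]⟩,⟨0,[(24,0)]⟩⟩]⟩)

theorem ok30 : chk3 K KFs t30 r32 = true := by decide +kernel

theorem cl0 : Clo3 K KFs HH r13 :=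
  .q [0,-1,0,-2,1,0,1,1,0,-1] (e' := [0,1,0,2,-1,0,-1,-1,0,1]) (.p false [0,0,1] [] (⟨0,[(23,0)]⟩,
  ⟨0,[(22,0)]⟩) .k 0 (⟨0,[]⟩,⟨0,[]⟩) .k .k) (by decide +kernel) (by decide +kernel) (.t t7 ok7) (.h
  (Or.inl rfl))

theorem cl1 : Clo3 K KFs HH l12 :=
  .q [0,-1,0,0,0,0,1,1,1,-1] (e' := [0,1,0,0,0,0,-1,-1,-1,1]) (.p false [0,0,1] [1] (⟨0,[(22,0)]⟩,
  ⟨0,[(21,0)]⟩) .k 1 (⟨0,[]⟩,⟨0,[]⟩) .k .k) (by decide +kernel) (by decide +kernel) (.t t6 ok6) cl0

theorem cl2 : Clo3 K KFs HH l11 :=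
  .i [1,1,1,1,-1,0,0,1] (e' := [0,-1,-1,-1,1,0,0,-1]) (by decide +kernel) (by decide +kernel) cl1
  (.t t8 ok8)

theorem cl3 : Clo3 K KFs HH r10 :=
  .i [1,0,0,0,0,0,0,1] (e' := [0,0,0,0,0,0,0,-1]) (by decide +kernel) (by decide +kernel) cl2 (.t
  t9 ok9)

theorem cl4 : Clo3 K KFs HH r9 :=
  .q [0,0,2,0,0,0,-1,0,-1,1] (e' := [0,0,-2,0,0,0,1,0,1,-1]) (.p true [0,0,1] [1] (⟨0,[(19,0)]⟩,⟨0,
  [(18,0)]⟩) .k 1 (⟨0,[]⟩,⟨0,[]⟩) .k .k) (by decide +kernel) (by decide +kernel) (.t t5 ok5) cl3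

theorem cl5 : Clo3 K KFs HH l8 :=
  .q [0,0,0,0,0,0,-1,-1,0,1] (e' := [0,0,0,0,0,0,1,1,0,-1]) (.p true [0,0,1] [] (⟨0,[(18,0)]⟩,⟨0,
  [(17,0)]⟩) .k 0 (⟨0,[]⟩,⟨0,[]⟩) .k .k) (by decide +kernel) (by decide +kernel) (.t t4 ok4) cl4

theorem cl6 : Clo3 K KFs HH r15 :=
  .q [0,0,0,-2,1,0,1,1,0,-1] (e' := [0,0,0,2,-1,0,-1,-1,0,1]) (.p false [0,0,1] [] (⟨0,[(19,0)]⟩,⟨0,
  [(18,0)]⟩) .k 0 (⟨0,[]⟩,⟨0,[]⟩) .k .k) (by decide +kernel) (by decide +kernel) (.t t11 ok11) (.h
  (Or.inr (Or.inl rfl)))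

theorem cl7 : Clo3 K KFs HH r8 :=
  .i [0,-1,1,0,0,0,0,-1] (e' := [1,1,-1,0,0,0,0,1]) (by decide +kernel) (by decide +kernel) (.t t10
  ok10) cl6

theorem cl8 : Clo3 K KFs HH r7 :=
  .q [0,0,0,0,0,0,1,1,1,-1] (e' := [0,0,0,0,0,0,-1,-1,-1,1]) (.p false [0,0,1] [1] (⟨0,[(17,0)]⟩,⟨0,
  [(16,0)]⟩) .k 1 (⟨0,[]⟩,⟨0,[]⟩) .k .k) (by decide +kernel) (by decide +kernel) cl5 cl7

theorem cl9 : Clo3 K KFs HH r6 :=
  .i [1,0,0,-1,0,0,0,1] (e' := [0,0,0,1,0,0,0,-1]) (by decide +kernel) (by decide +kernel) (.t t3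
  ok3) cl8

theorem cl10 : Clo3 K KFs HH r5 :=
  .q [0,0,0,0,-1,0,1,0,2,-1] (e' := [0,0,0,0,1,0,-1,0,-2,1]) (.p false [-1,1,1] [1] (⟨0,[(8,0)]⟩,⟨0,
  [(14,0),(2,0)]⟩) .k 1 (⟨0,[]⟩,⟨0,[]⟩) .k .k) (by decide +kernel) (by decide +kernel) (.t t2 ok2)
  cl9

theorem cl11 : Clo3 K KFs HH l4 :=
  .q [0,-1,0,-1,1,0,0,0,-1] (e' := [0,1,0,1,-1,0,0,0,1]) (.pp true [-1,1]) (by decide +kernel)
  (by decide +kernel) (.t t1 ok1) cl10

theorem cl12 : Clo3 K KFs HH r23 :=
  .q [0,1,0,-2,0,0,1,1,0,-1] (e' := [0,-1,0,2,0,0,-1,-1,0,1]) (.p false [0,0,1] [] (⟨0,[(21,0)]⟩,⟨0,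
  [(20,0)]⟩) .k 0 (⟨0,[]⟩,⟨0,[]⟩) .k .k) (by decide +kernel) (by decide +kernel) (.t t16 ok16) (.h
  (Or.inr (Or.inr (Or.inl rfl))))

theorem cl13 : Clo3 K KFs HH r22 :=
  .q [0,-1,0,0,0,0,1,1,1,-1] (e' := [0,1,0,0,0,0,-1,-1,-1,1]) (.p false [0,0,1] [1] (⟨0,[(20,0)]⟩,
  ⟨0,[(19,0)]⟩) .k 1 (⟨0,[]⟩,⟨0,[]⟩) .k .k) (by decide +kernel) (by decide +kernel) (.t t15 ok15)
  cl12

theorem cl14 : Clo3 K KFs HH r21 :=
  .i [0,1,-1,-1,0,0,0,-1] (e' := [1,-1,1,1,0,0,0,1]) (by decide +kernel) (by decide +kernel) (.t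
  t14 ok14) cl13

theorem cl15 : Clo3 K KFs HH l20 :=
  .i [0,0,0,0,0,0,0,-1] (e' := [1,0,0,0,0,0,0,1]) (by decide +kernel) (by decide +kernel) (.t t13
  ok13) cl14

theorem cl16 : Clo3 K KFs HH r20 :=
  .q [0,0,2,0,0,0,-1,0,-1,1] (e' := [0,0,-2,0,0,0,1,0,1,-1]) (.p true [0,0,1] [1] (⟨0,[(18,0)]⟩,⟨0,
  [(17,0)]⟩) .k 1 (⟨0,[]⟩,⟨0,[]⟩) .k .k) (by decide +kernel) (by decide +kernel) (.t t17 ok17) (.h
  (Or.inr (Or.inr (Or.inr (Or.inl rfl)))))

theorem cl17 : Clo3 K KFs HH l19 :=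
  .q [0,0,0,0,0,0,1,1,1,-1] (e' := [0,0,0,0,0,0,-1,-1,-1,1]) (.p false [0,0,1] [1] (⟨0,[(17,0)]⟩,⟨0,
  [(16,0)]⟩) .k 1 (⟨0,[]⟩,⟨0,[]⟩) .k .k) (by decide +kernel) (by decide +kernel) cl15 cl16

theorem cl18 : Clo3 K KFs HH l18 :=
  .q [0,0,0,0,1,0,-1,0,-2,1] (e' := [0,0,0,0,-1,0,1,0,2,-1]) (.p true [-1,1,1] [1] (⟨0,[(9,0)]⟩,⟨0,
  [(15,0),(2,0)]⟩) .k 1 (⟨0,[]⟩,⟨0,[]⟩) .k .k) (by decide +kernel) (by decide +kernel) cl17 (.t t18
  ok18)

theorem cl19 : Clo3 K KFs HH r17 :=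
  .i [0,0,0,1,0,0,0,-1] (e' := [1,0,0,-1,0,0,0,1]) (by decide +kernel) (by decide +kernel) cl18 (.t
  t19 ok19)

theorem cl20 : Clo3 K KFs HH r4 :=
  .i [0,1,2,1,-1] (e' := [1,-1,-2,-1,1]) (by decide +kernel) (by decide +kernel) (.t t12 ok12) cl19

theorem cl21 : Clo3 K KFs HH l3 :=
  .q [0,1,0,2,-1,0,0,0,1] (e' := [0,-1,0,-2,1,0,0,0,-1]) (.pp false [-1,1]) (by decide +kernel)
  (by decide +kernel) cl11 cl20

theorem cl22 : Clo3 K KFs HH l2 :=
  .i [0,1,-1,0,0,0,0,-1] (e' := [1,-1,1,0,0,0,0,1]) (by decide +kernel) (by decide +kernel) cl21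
  (.t t20 ok20)

theorem cl23 : Clo3 K KFs HH l1 :=
  .i [0,0,1,1,0,0,0,1] (e' := [1,0,-1,-1,0,0,0,-1]) (by decide +kernel) (by decide +kernel) cl22
  (.t t21 ok21)

theorem cl24 : Clo3 K KFs HH r28 :=
  .i [1,1,-2,-1] (e' := [0,-1,2,1]) (by decide +kernel) (by decide +kernel) (.h (Or.inr (Or.inr (Or.inr (Or.inr (Or.inl rfl)))))) (.t t24
  ok24)

theorem cl25 : Clo3 K KFs HH r27 :=
  .q [0,-1,0,2,0,0,0,0,1] (e' := [0,1,0,-2,0,0,0,0,-1]) (.pp false [-1,1]) (by decide +kernel)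
  (by decide +kernel) (.t t23 ok23) cl24

theorem cl26 : Clo3 K KFs HH l26 :=
  .q [0,0,1,0,0,0,0,0,-1] (e' := [0,0,-1,0,0,0,0,0,1]) (.pp true [-1,1]) (by decide +kernel)
  (by decide +kernel) (.t t22 ok22) cl25

theorem cl27 : Clo3 K KFs HH r36 :=
  .i [0,-1,-1,-1,0,0,0,-2] (e' := [1,1,1,1,0,0,0,2]) (by decide +kernel) (by decide +kernel) (.h
  (Or.inr (Or.inr (Or.inr (Or.inr (Or.inr (Or.inr (Or.inl rfl)))))))) (.h (Or.inr (Or.inr (Or.inr (Or.inr (Or.inr (Or.inr (Or.inr rfl))))))))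

theorem cl28 : Clo3 K KFs HH l35 :=
  .i [0,1,1,0,-1,0,0,-1] (e' := [1,-1,-1,0,1,0,0,1]) (by decide +kernel) (by decide +kernel) (.t
  t28 ok28) cl27

theorem cl29 : Clo3 K KFs HH r34 :=
  .i [0,1,-2,-1] (e' := [1,-1,2,1]) (by decide +kernel) (by decide +kernel) cl28 (.t t29 ok29)

theorem cl30 : Clo3 K KFs HH r33 :=
  .q [0,1,0,1,-1,0,-2,-2,-1,2] (e' := [0,-1,0,-1,1,0,2,2,1,-2]) (.p true [0,0,1] [1,0,-1] (⟨0,[(16,
  0)]⟩,⟨0,[(15,0)]⟩) .k 2 (⟨0,[(15,0)]⟩,⟨0,[(16,0)]⟩) .k (.x 0 ⟨0,[(8,1),(7,1)]⟩ ⟨0,[(0,0),(3,1),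
  (10,1),(8,1)]⟩)) (by decide +kernel) (by decide +kernel) (.h (Or.inr (Or.inr (Or.inr (Or.inr (Or.inr (Or.inl rfl))))))) cl29

theorem cl31 : Clo3 K KFs HH l32 :=
  .i [0,0,0,0,-1,0,0,-2] (e' := [1,0,0,0,1,0,0,2]) (by decide +kernel) (by decide +kernel) (.t t27
  ok27) cl30

theorem cl32 : Clo3 K KFs HH r31 :=
  .i [1,1,-2,-1] (e' := [0,-1,2,1]) (by decide +kernel) (by decide +kernel) cl31 (.t t30 ok30)

theorem cl33 : Clo3 K KFs HH r30 :=
  .q [0,-1,0,2,0,0,0,0,1] (e' := [0,1,0,-2,0,0,0,0,-1]) (.pp false [-1,1]) (by decide +kernel)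
  (by decide +kernel) (.t t26 ok26) cl32

theorem cl34 : Clo3 K KFs HH r26 :=
  .q [0,0,2,0,0,0,-1,0,-1,1] (e' := [0,0,-2,0,0,0,1,0,1,-1]) (.p true [0,0,1] [1] (⟨0,[(12,0)]⟩,⟨0,
  [(11,0)]⟩) .k 1 (⟨0,[]⟩,⟨0,[]⟩) .k .k) (by decide +kernel) (by decide +kernel) (.t t25 ok25) cl33

theorem cl35 : Clo3 K KFs HH r1 :=
  .q [0,0,0,1,0,0,1,1,1,-1] (e' := [0,0,0,-1,0,0,-1,-1,-1,1]) (.p false [0,0,1] [1] (⟨0,[(11,0)]⟩,
  ⟨0,[(10,0)]⟩) .k 1 (⟨0,[]⟩,⟨0,[]⟩) .k .k) (by decide +kernel) (by decide +kernel) cl26 cl34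

theorem cl36 : Clo3 K KFs HH r0 :=
  .q [0,-1,0,1,0,0,0,0,1] (e' := [0,1,0,-1,0,0,0,0,-1]) (.pp false [-1,1]) (by decide +kernel)
  (by decide +kernel) cl23 cl35

theorem cl37 : Clo3 K KFs HH base :=
  .q [0,0,0,0,0,-2,0,0,1] (e' := [0,0,0,0,0,2,0,0,-1]) (.pp false [-1,1]) (by decide +kernel)
  (by decide +kernel) (.t t0 ok0) cl36

open Helper25.KW Helper55.KE in
theorem closed {p a b c J l q : ℤ} {D dl : ℝ} {Cl : ℤ → ℤ → ℤ → ℤ → ℝ → Prop}
    (W : World p a b c J (-1) l q D dl Cl) (g : G0 p a b c J D)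
    {N X R : ℤ} {I : ℝ} (hk : KCl p l Cl N X R I) (kz : KF a b D (X + (-1 : ℤ) * I) (X + (-1 : ℤ) * I + R) I)
    (hE : KZ p a b l (-1) Cl (fun X R I => Zp (-1) X R I ∧ Zy b (-1) D X R I) N
      (fun _ _ I => I) I)
    (hN0 : KNo p a b l (-1) Cl (fun X R I => Zx (-1) X R I ∧ Zy b (-1) D X R I))
    (hN1 : KNo p a b l (-1) Cl (fun X R I => ZiD D J X R I ∧ Zy b (-1) D X R I))
    (hN2 : KNo p a b l (-1) Cl (fun X R I => Zi J X R I ∧ Zy b (-1) D X R I))
    (h0 : 1 ≤ (c : ℝ))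
    (h1 : 1 ≤ (a : ℝ) - (b : ℝ) - (c : ℝ))
    (h2 : 0 < 2 * (b : ℝ) - D)
    (h3 : 1 ≤ 2 * (a : ℝ) - (b : ℝ))
    (h4 : 0 < -(J : ℝ) + I)
    (h5 : 0 < (J : ℝ) - D + I)
    (h6 : 0 < (X : ℝ) - I)
    (h7 : 0 < -(b : ℝ) + (X : ℝ) + D - I)
    (H0 : 0 < 2 * (J : ℝ) - D → 0 < -(a : ℝ) + (c : ℝ) + D → 1 ≤ (b : ℝ) + (c : ℝ) + (R : ℝ) → 1 ≤ (a : ℝ) - (b : ℝ) - (R : ℝ) → 0 < (a : ℝ) + 2 * (c : ℝ) - (p : ℝ) + D → 0 < (a : ℝ) + (c : ℝ) - (p : ℝ) + D → 0 < (p : ℝ) - (X : ℝ) - 2 * D + I → 1 ≤ (c : ℝ) - (R : ℝ) → 0 < (X : ℝ) + (R : ℝ) + D - I → 0 < (X : ℝ) + (R : ℝ) - I → 0 < -2 * (b : ℝ) + (X : ℝ) + D - I → 1 ≤ 1 + (R : ℝ) → 1 ≤ 1 + (a : ℝ) + (b : ℝ) + (c : ℝ) - (p : ℝ) + (R : ℝ) → 0 < (a : ℝ) - (X : ℝ) - (R : ℝ) - D + I → 0 < (a : ℝ) + 2 * (c : ℝ) - (p : ℝ) - (X : ℝ) - (R : ℝ) + I → False)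
    (H1 : 0 < 2 * (J : ℝ) - D → 0 < -(a : ℝ) + (c : ℝ) + D → 1 ≤ (b : ℝ) + (c : ℝ) + (R : ℝ) → 1 ≤ (a : ℝ) - (b : ℝ) - (R : ℝ) → 0 < (a : ℝ) + 2 * (c : ℝ) - (p : ℝ) + D → 0 < (a : ℝ) + (c : ℝ) - (p : ℝ) + D → 0 < (p : ℝ) - (X : ℝ) - 2 * D + I → 1 ≤ (c : ℝ) - (R : ℝ) → 0 < -(X : ℝ) - (R : ℝ) - D + I → 1 ≤ 1 + (a : ℝ) - (b : ℝ) + (R : ℝ) → 0 < 2 * (c : ℝ) - (p : ℝ) - (X : ℝ) - (R : ℝ) + I → False)
    (H2 : 0 < 2 * (J : ℝ) - D → 0 < -(a : ℝ) + (c : ℝ) + D → 1 ≤ (b : ℝ) + (c : ℝ) + (R : ℝ) → 1 ≤ (a : ℝ) - (b : ℝ) - (R : ℝ) → 0 < -(a : ℝ) - 2 * (c : ℝ) + (p : ℝ) - D → 1 ≤ 1 - (a : ℝ) - 2 * (b : ℝ) - (c : ℝ) + (p : ℝ) → 1 ≤ (c : ℝ) - (R : ℝ) → 0 < (p : ℝ) - (X : ℝ) - 2 * D + I → 0 < (X : ℝ) + (R : ℝ) + D - I → 1 ≤ 1 + (R : ℝ) → 1 ≤ 1 - (a : ℝ) + (b : ℝ) + (c : ℝ) + (R : ℝ) → 0 < (a : ℝ) - (X : ℝ) - (R : ℝ) - D + I → 0 < -(a : ℝ) + 2 * (c : ℝ) - (X : ℝ) - (R : ℝ) + I → False)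
    (H3 : 0 < 2 * (J : ℝ) - D → 0 < -(a : ℝ) + (c : ℝ) + D → 1 ≤ (b : ℝ) + (c : ℝ) + (R : ℝ) → 1 ≤ (a : ℝ) - (b : ℝ) - (R : ℝ) → 0 < -(a : ℝ) - 2 * (c : ℝ) + (p : ℝ) - D → 1 ≤ 1 - (a : ℝ) - 2 * (b : ℝ) - (c : ℝ) + (p : ℝ) → 1 ≤ (c : ℝ) - (R : ℝ) → 0 < (p : ℝ) - (X : ℝ) - 2 * D + I → 0 < -(X : ℝ) - (R : ℝ) - D + I → 0 < -2 * (b : ℝ) + (X : ℝ) + D - I → False)
    (H4 : 0 < 2 * (J : ℝ) - D → 0 < (a : ℝ) - (c : ℝ) - D → 0 < (c : ℝ) + (X : ℝ) + (R : ℝ) + D - I → 0 < -(b : ℝ) + D → 0 < (a : ℝ) - 2 * (c : ℝ) - D → 1 ≤ 1 + (a : ℝ) - 2 * (b : ℝ) - (c : ℝ) → False)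
    (H5 : 0 < 2 * (J : ℝ) - D → 0 < (a : ℝ) - (c : ℝ) - D → 0 < -(c : ℝ) - (X : ℝ) - (R : ℝ) - D + I → 0 < -2 * (b : ℝ) + (X : ℝ) + D - I → 0 < (a : ℝ) - 2 * (c : ℝ) - D → 1 ≤ 1 + (a : ℝ) - 2 * (b : ℝ) - (c : ℝ) → 1 ≤ 1 + (p : ℝ) + 2 * (R : ℝ) → 0 < (a : ℝ) + (c : ℝ) - (p : ℝ) - 2 * (X : ℝ) - 2 * (R : ℝ) - D + 2 * I → False)
    (H6 : 0 < 2 * (J : ℝ) - D → 0 < (a : ℝ) - (c : ℝ) - D → 0 < -(c : ℝ) - (X : ℝ) - (R : ℝ) - D + I → 0 < -2 * (b : ℝ) + (X : ℝ) + D - I → 0 < (a : ℝ) - 2 * (c : ℝ) - D → 1 ≤ 1 + (a : ℝ) - 2 * (b : ℝ) - (c : ℝ) → 1 ≤ 1 + (p : ℝ) + 2 * (R : ℝ) → 0 < -(a : ℝ) - (c : ℝ) + (p : ℝ) + 2 * (X : ℝ) + 2 * (R : ℝ) + D - 2 * I → 1 ≤ (a : ℝ) - 2 * (b : ℝ) - (c : ℝ) → 1 ≤ 1 - (a : ℝ) - (b : ℝ) + (p : ℝ) + (R : ℝ) → 1 ≤ -(a : ℝ) - (b : ℝ) - (c : ℝ) - 2 * (R : ℝ) → False)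
    (H7 : 0 < 2 * (J : ℝ) - D → 0 < (a : ℝ) - (c : ℝ) - D → 0 < -(c : ℝ) - (X : ℝ) - (R : ℝ) - D + I → 0 < -2 * (b : ℝ) + (X : ℝ) + D - I → 0 < (a : ℝ) - 2 * (c : ℝ) - D → 1 ≤ 1 + (a : ℝ) - 2 * (b : ℝ) - (c : ℝ) → 1 ≤ 1 + (p : ℝ) + 2 * (R : ℝ) → 0 < -(a : ℝ) - (c : ℝ) + (p : ℝ) + 2 * (X : ℝ) + 2 * (R : ℝ) + D - 2 * I → 1 ≤ (a : ℝ) - 2 * (b : ℝ) - (c : ℝ) → 1 ≤ 1 - (a : ℝ) - (b : ℝ) + (p : ℝ) + (R : ℝ) → 1 ≤ 1 + (a : ℝ) + (b : ℝ) + (c : ℝ) + 2 * (R : ℝ) → False) : False := by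
  have g1 := g.a2
  have g2 := g.b2
  have g3 := g.pa
  have g4 := g.pb
  have g5 := g.J1
  have g6 := g.JD
  have g7 := g.D2
  have g8 := g.ca
  have g9 := g.ca'
  have k1 := kz.I0
  have k2 := kz.ID
  have k3 := kz.z1
  have k4 := kz.z2
  have k5 := kz.s1
  have k6 := kz.s2
  have hkf : ∀ kf ∈ KFs, KOk3 p l Cl (-1) (xv [1, a, b, c, p, J, X, R] [D, I]) N kf := by
    have hA : evg (xv [1, a, b, c, p, J, X, R] [D, I]) [0, 1] = a := by
      simp only [evg_cons, evg_nil, xv, List.map_cons, List.map_nil, List.cons_append, List.nil_append]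
      push_cast
      ring
    have hB : evg (xv [1, a, b, c, p, J, X, R] [D, I]) [0, 0, 1] = b := by
      simp only [evg_cons, evg_nil, xv, List.map_cons, List.map_nil, List.cons_append, List.nil_append]
      push_cast
      ring
    simp only [KFs, List.forall_mem_cons]
    refine ⟨kok3_ex hA hB hE ?_ ?_, kok3_no hA hB N hN0 ?_, kok3_no hA hB N hN1 ?_, kok3_no hA hB N hN2 ?_, fun _ h => absurd h (by simp)⟩
    · intro X' R' I' hg
      simp only [evg_cons, evg_nil, xv, List.map_cons, List.map_nil, List.cons_append, List.nil_append] at hg ⊢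
      push_cast at hg ⊢
      linarith
    · intro X' R' I' _ hg
      simp only [List.forall_mem_cons, List.not_mem_nil, false_imp_iff, implies_true, and_true,
        evg_cons, evg_nil, xv, List.map_cons, List.map_nil, List.cons_append, List.nil_append] at hg
      push_cast at hg
      simp only [Zx, Zp, Zs, Zsp, Zi, ZiD, Zy]
      push_cast
      refine ⟨?_, ?_⟩ <;> linarith [hg.1, hg.2]
    · intro X' R' I' _ hg
      simp only [List.forall_mem_cons, List.not_mem_nil, false_imp_iff, implies_true, and_true,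
        evg_cons, evg_nil, xv, List.map_cons, List.map_nil, List.cons_append, List.nil_append] at hg
      push_cast at hg
      simp only [Zx, Zp, Zs, Zsp, Zi, ZiD, Zy]
      push_cast
      refine ⟨?_, ?_⟩ <;> linarith [hg.1, hg.2]
    · intro X' R' I' _ hg
      simp only [List.forall_mem_cons, List.not_mem_nil, false_imp_iff, implies_true, and_true,
        evg_cons, evg_nil, xv, List.map_cons, List.map_nil, List.cons_append, List.nil_append] at hg
      push_cast at hg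
      simp only [Zx, Zp, Zs, Zsp, Zi, ZiD, Zy]
      push_cast
      refine ⟨?_, ?_⟩ <;> linarith [hg.1, hg.2]
    · intro X' R' I' _ hg
      simp only [List.forall_mem_cons, List.not_mem_nil, false_imp_iff, implies_true, and_true,
        evg_cons, evg_nil, xv, List.map_cons, List.map_nil, List.cons_append, List.nil_append] at hg
      push_cast at hg
      simp only [Zx, Zp, Zs, Zsp, Zi, ZiD, Zy]
      push_cast
      refine ⟨?_, ?_⟩ <;> linarith [hg.1, hg.2]
  push_cast at *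
  refine closed3 (val_K W.toBase hk []) W rfl (Nk := N)
    (fun kf _ _ => ⟨_, rfl⟩) hkf (H := HH) ?_ cl37 ?_
  · rintro Q (rfl | rfl | rfl | rfl | rfl | rfl | rfl | rfl) hQ
    · simp only [r14, r13, l12, l11, r10, r9, l8, r7, r6, r5, l4, l3, l2, l1, r0, List.forall_mem_cons, hld, xv, evg_cons, evg_nil, List.map_cons,
        List.map_nil, List.cons_append, List.nil_append, if_true, if_false, Bool.false_eq_true] at hQ
      push_cast at hQ
      obtain ⟨p14, p13, p12, p11, p10, p9, p8, p7, p6, p5, p4, p3, p2, p1, p0, -⟩ := hQ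
      exact H0 (by linarith) (by linarith) (by linarith) (by linarith) (by linarith) (by linarith) (by linarith) (by linarith) (by linarith) (by linarith) (by linarith) (by linarith) (by linarith) (by linarith) (by linarith)
    · simp only [r16, r15, r8, r7, r6, r5, l4, l3, l2, l1, r0, List.forall_mem_cons, hld, xv, evg_cons, evg_nil, List.map_cons,
        List.map_nil, List.cons_append, List.nil_append, if_true, if_false, Bool.false_eq_true] at hQ
      push_cast at hQ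
      obtain ⟨p10, p9, p8, p7, p6, p5, p4, p3, p2, p1, p0, -⟩ := hQ
      exact H1 (by linarith) (by linarith) (by linarith) (by linarith) (by linarith) (by linarith) (by linarith) (by linarith) (by linarith) (by linarith) (by linarith)
    · simp only [r24, r23, r22, r21, l20, l19, l18, r17, r4, l3, l2, l1, r0, List.forall_mem_cons, hld, xv, evg_cons, evg_nil, List.map_cons,
        List.map_nil, List.cons_append, List.nil_append, if_true, if_false, Bool.false_eq_true] at hQ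
      push_cast at hQ
      obtain ⟨p12, p11, p10, p9, p8, p7, p6, p5, p4, p3, p2, p1, p0, -⟩ := hQ
      exact H2 (by linarith) (by linarith) (by linarith) (by linarith) (by linarith) (by linarith) (by linarith) (by linarith) (by linarith) (by linarith) (by linarith) (by linarith) (by linarith)
    · simp only [r25, r20, l19, l18, r17, r4, l3, l2, l1, r0, List.forall_mem_cons, hld, xv, evg_cons, evg_nil, List.map_cons,
        List.map_nil, List.cons_append, List.nil_append, if_true, if_false, Bool.false_eq_true] at hQ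
      push_cast at hQ
      obtain ⟨p9, p8, p7, p6, p5, p4, p3, p2, p1, p0, -⟩ := hQ
      exact H3 (by linarith) (by linarith) (by linarith) (by linarith) (by linarith) (by linarith) (by linarith) (by linarith) (by linarith) (by linarith)
    · simp only [l29, r28, r27, l26, r1, r0, List.forall_mem_cons, hld, xv, evg_cons, evg_nil, List.map_cons,
        List.map_nil, List.cons_append, List.nil_append, if_true, if_false, Bool.false_eq_true] at hQ
      push_cast at hQ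
      obtain ⟨p5, p4, p3, p2, p1, p0, -⟩ := hQ
      exact H4 (by linarith) (by linarith) (by linarith) (by linarith) (by linarith) (by linarith)
    · simp only [l34, r33, l32, r31, r30, r26, r1, r0, List.forall_mem_cons, hld, xv, evg_cons, evg_nil, List.map_cons,
        List.map_nil, List.cons_append, List.nil_append, if_true, if_false, Bool.false_eq_true] at hQ
      push_cast at hQ
      obtain ⟨p7, p6, p5, p4, p3, p2, p1, p0, -⟩ := hQ
      exact H5 (by linarith) (by linarith) (by linarith) (by linarith) (by linarith) (by linarith) (by linarith) (by linarith)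
    · simp only [l37, r36, l35, r34, r33, l32, r31, r30, r26, r1, r0, List.forall_mem_cons, hld, xv, evg_cons, evg_nil, List.map_cons,
        List.map_nil, List.cons_append, List.nil_append, if_true, if_false, Bool.false_eq_true] at hQ
      push_cast at hQ
      obtain ⟨p10, p9, p8, p7, p6, p5, p4, p3, p2, p1, p0, -⟩ := hQ
      exact H6 (by linarith) (by linarith) (by linarith) (by linarith) (by linarith) (by linarith) (by linarith) (by linarith) (by linarith) (by linarith) (by linarith)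
    · simp only [r37, r36, l35, r34, r33, l32, r31, r30, r26, r1, r0, List.forall_mem_cons, hld, xv, evg_cons, evg_nil, List.map_cons,
        List.map_nil, List.cons_append, List.nil_append, if_true, if_false, Bool.false_eq_true] at hQ
      push_cast at hQ
      obtain ⟨p10, p9, p8, p7, p6, p5, p4, p3, p2, p1, p0, -⟩ := hQ
      exact H7 (by linarith) (by linarith) (by linarith) (by linarith) (by linarith) (by linarith) (by linarith) (by linarith) (by linarith) (by linarith) (by linarith)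
  · simp only [base, List.forall_mem_cons, List.not_mem_nil, false_imp_iff, implies_true,
      and_true, hld, xv, evg_cons, evg_nil, List.map_cons, List.map_nil, List.cons_append,
      List.nil_append, if_true, if_false, Bool.false_eq_true]
    push_cast
    refine ⟨?_, ?_, ?_, ?_, ?_, ?_, ?_, ?_, ?_, ?_, ?_, ?_, ?_, ?_, ?_, ?_, ?_, ?_, ?_, ?_, ?_, ?_⟩ <;> linarith

end Helper25.S1T.Zpm1I1_r1
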