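import Pool.Agent.Helper25.KG.C4
import Pool.Agent.Helper25.KG.C4s
import Pool.Agent.Helper25.KG.C4d

set_option autoImplicit false
set_option linter.all false

namespace Helper25.S1T.Zpm1SPp

open Helper25.KG Helper11.CT

noncomputable def K : Cls :=
  dV (-1)

noncomputable def KFs : List KF3 :=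
  [(3, bx3 ++ []),
    (0, bx3 ++ [(-1, 0, 0, [])]),
    (4, (-1, 0, 0, [0, 0, 1]) :: (1, 0, 0, [0, 0, 1]) :: [(1, 0, 0, []), (0, 0, -1, [0,0,0,0,0,0,0,0,0,0,0,0,1])])]

noncomputable def base : List Con :=
  [(true,[0,1,-1,0,0,0,0,-1]),
  (false,[0,0,0,0,0,0,1,1,0,0,0,-1]),
  (false,[0,0,0,0,0,0,1,0,0,0,0,-1]),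
  (false,[0,-1,0,0,1,0,0,0,-1,-1,0,0,1]),
  (false,[0,-1,0,0,0,0,0,0,1,1,0,0,-1]),
  (false,[0,0,1,0,0,0,0,0,0,-1,0,0,1]),
  (false,[0,0,0,0,0,0,0,0,0,1,0,0,-1]),
  (false,[0,0,0,0,0,1,0,0,0,0,-1,1]),
  (false,[0,0,0,0,0,-1,0,0,0,0,0,1]),
  (false,[0,0,0,0,0,0,0,0,0,0,1,0,-1]),
  (false,[0,0,0,0,0,0,0,0,0,0,0,0,1]),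
  (false,[0,1,0,0,0,0,1,1,0,0,0,-1]),
  (false,[0,1,0,0,0,0,-1,-1,0,0,0,1]),
  (false,[0,0,1,0,0,0,1,0,0,0,0,-1]),
  (false,[0,0,1,0,0,0,-1,0,0,0,0,1]),
  (false,[0,0,0,0,0,0,0,0,0,0,1,-1]),
  (false,[0,0,0,0,0,0,0,0,0,0,0,1]),
  (false,[0,0,0,0,1,0,0,0,0,0,-2]),
  (false,[0,0,0,0,0,-1,0,0,0,0,1]),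
  (true,[0,0,0,0,0,1]),
  (true,[0,2,-1]),
  (false,[0,0,-2,0,0,0,0,0,0,0,1]),
  (true,[0,1,-1,-1]),
  (true,[0,1,0,-1]),
  (true,[0,0,0,1]),
  (true,[0,0,-2,0,1]),
  (true,[0,-2,0,0,1]),
  (true,[-1,0,1]),
  (true,[-1,1])]

noncomputable def t0 : Tre :=
  (.I [0,1,-1,-1,0,0,0,1] (.I [1,-1,1,1,0,0,0,1] (.Q [0,0,0,1,-1,0,1,1,0,0,1,-1] (.p false [0,0,1]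
  [1] (⟨0,[(18,0)]⟩,⟨0,[(17,0)]⟩) .k 1 (⟨0,[]⟩,⟨0,[]⟩) .k .k) (.R ⟨2,true,false,true,[0,1],[1,0,-1],
  [1,1,0,0,0,0,0,-1],(⟨0,[]⟩,⟨0,[]⟩),(⟨0,[(18,0)]⟩,⟨0,[(19,0)]⟩),⟨0,[]⟩,.k,.k,.k,.k,.k,.k,⟨true,0,
  ⟨0,[]⟩,⟨1,[(16,0),(0,0)]⟩⟩,⟨false,1,⟨1,[(17,1),(2,0),(7,0)]⟩,⟨0,[(16,0),(7,0)]⟩⟩,⟨false,1,⟨0,[(3,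
  0),(22,0),(2,0)]⟩,⟨1,[(0,1),(16,1),(2,0),(8,0)]⟩⟩,⟨true,1,⟨1,[(15,1),(4,0),(5,1),(2,0)]⟩,⟨0,[(0,
  0)]⟩⟩,⟨true,0,⟨0,[(3,0)]⟩,⟨0,[(1,0),(24,0)]⟩⟩,⟨false,1,⟨1,[(15,1),(4,0),(8,0)]⟩,⟨0,[(0,0),(25,0),
  (2,0)]⟩⟩,[]⟩) (.I [1,0,1,0,0,0,0,-1] (.Q [0,-1,0,0,0,0,1,1,0,0,1,-1] (.p false [0,0,1] [1] (⟨0,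
  [(20,0)]⟩,⟨0,[(19,0)]⟩) .k 1 (⟨0,[]⟩,⟨0,[]⟩) .k .k) (.S ⟨1,0,[0,0,0,0,0,0,0,1],[0,0,1],[0,1,0,0,0,
  0,0,1],(⟨0,[(21,0)]⟩,⟨0,[(20,0)]⟩),⟨0,[(13,0)]⟩,.k,.k,⟨true,0,⟨0,[(33,0)]⟩,⟨0,[]⟩⟩,⟨false,1,⟨0,
  [(31,0),(1,0)]⟩,⟨0,[]⟩⟩,⟨false,0,⟨0,[(29,0)]⟩,⟨0,[(28,0),(2,0)]⟩⟩,⟨true,0,⟨0,[(29,0)]⟩,⟨0,[(28,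
  0)]⟩⟩,[.o ⟨false,0,⟨0,[(6,0)]⟩,⟨1,[(17,1),(4,0),(8,0)]⟩⟩,.a ⟨true,0,⟨0,[(0,0)]⟩,⟨0,[(17,0)]⟩⟩
  ⟨true,0,⟨1,[(3,0),(0,0)]⟩,⟨0,[(1,0)]⟩⟩ ⟨false,1,⟨1,[(3,0),(0,0),(25,0),(0,0)]⟩,⟨2,[(1,1),(3,0),
  (19,0)]⟩⟩,.o ⟨false,0,⟨0,[(7,0)]⟩,⟨1,[(19,1),(2,0),(7,0)]⟩⟩,.o ⟨false,0,⟨0,[(18,0)]⟩,⟨0,[(19,0),
  (2,0),(3,0)]⟩⟩]⟩) (.I [0,0,1,0,0,0,0,-1] (.R ⟨1,false,false,true,[0,0,1],[1,-1],[1,0,0,0,0,0,0,1],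
  (⟨0,[(22,0)]⟩,⟨0,[(21,0)]⟩),(⟨0,[(24,0)]⟩,⟨0,[(25,0)]⟩),⟨0,[(14,0)]⟩,.k,.k,.k,.k,.k,.k,⟨true,0,⟨0,
  [(4,0)]⟩,⟨0,[(2,0),(25,0)]⟩⟩,⟨false,1,⟨1,[(20,1),(2,0),(7,0)]⟩,⟨0,[(19,0),(7,0)]⟩⟩,⟨true,0,⟨0,[]⟩,
  ⟨0,[(34,0)]⟩⟩,⟨false,1,⟨0,[(3,0)]⟩,⟨0,[(4,0),(14,0),(7,0)]⟩⟩,⟨true,0,⟨0,[(30,0)]⟩,⟨0,[(29,0)]⟩⟩,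
  ⟨true,0,⟨0,[(1,0)]⟩,⟨0,[(7,0),(16,0),(0,0)]⟩⟩,[.a ⟨true,0,⟨0,[(29,0)]⟩,⟨0,[(2,0),(1,0),(22,0)]⟩⟩
  ⟨true,0,⟨1,[(4,0),(0,0)]⟩,⟨0,[(0,0)]⟩⟩ ⟨false,1,⟨13,[(1,1),(1,5),(1,7),(14,5),(2,2),(2,1),(4,4)]⟩,
  ⟨0,[(2,0),(1,0),(3,0),(18,0)]⟩⟩,.o ⟨false,1,⟨1,[(23,0),(5,1),(2,0)]⟩,⟨0,[(30,0)]⟩⟩,.o ⟨false,0,⟨0,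
  [(8,0)]⟩,⟨1,[(20,1),(2,0),(7,0)]⟩⟩,.o ⟨false,0,⟨0,[(19,0)]⟩,⟨0,[(20,0),(2,0),(3,0)]⟩⟩]⟩) (.Q [0,
  -1,0,0,0,0,2,2,0,0,1,-2] (.p false [0,0,1] [1,0,-1] (⟨0,[(22,0)]⟩,⟨0,[(21,0)]⟩) .k 2 (⟨0,[(21,
  0)]⟩,⟨0,[(22,0)]⟩) .k (.r 0 ⟨0,[(4,0),(0,0)]⟩ ⟨0,[(2,1),(28,0)]⟩)) (.R ⟨1,true,false,true,[0,0,1],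
  [1,0,-1],[0,1,1,0,0,0,0,-1],(⟨0,[(23,0)]⟩,⟨0,[(22,0)]⟩),(⟨0,[(22,0)]⟩,⟨0,[(23,0)]⟩),⟨0,[(15,0)]⟩,
  .k,.k,.k,.k,(.r (-1) ⟨3,[(5,0),(0,4),(11,1),(2,1),(10,0),(0,2)]⟩ ⟨0,[(2,0),(0,1),(1,0),(3,0),(18,
  0)]⟩),.k,⟨true,0,⟨1,[(20,0),(0,0)]⟩,⟨0,[]⟩⟩,⟨false,1,⟨1,[(1,1),(0,1),(18,1),(10,0),(0,0)]⟩,⟨0,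
  [(20,1),(7,0)]⟩⟩,⟨true,0,⟨2,[(3,4),(3,0),(19,0)]⟩,⟨1,[(1,1),(3,0),(0,0)]⟩⟩,⟨false,1,⟨0,[(2,0),(16,
  0),(13,0)]⟩,⟨0,[(0,0)]⟩⟩,⟨false,0,⟨0,[(2,0),(0,1),(1,0),(3,0),(18,0)]⟩,⟨1,[(5,0),(0,2),(26,1)]⟩⟩,
  ⟨true,0,⟨0,[(2,1),(0,0),(1,0),(22,0)]⟩,⟨0,[(0,0),(29,0)]⟩⟩,[]⟩) (.Q [0,0,0,-1,0,0,2,2,0,0,1,-2]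
  (.p false [0,0,1] [1,0,-1] (⟨0,[(23,0)]⟩,⟨0,[(22,0)]⟩) .k 2 (⟨0,[(22,0)]⟩,⟨0,[(23,0)]⟩) .k (.r 0
  ⟨0,[(5,0),(0,0)]⟩ ⟨0,[(3,1),(28,0)]⟩)) (.R ⟨1,true,false,false,[0,0,1],[1,1,-1],[0,0,2,1,0,0,0,
  -1],(⟨0,[(24,0)]⟩,⟨0,[(23,0)]⟩),(⟨0,[(23,0),(3,0)]⟩,⟨0,[(16,0)]⟩),⟨0,[(16,0)]⟩,.k,.k,.k,(.r (-1)
  ⟨5,[(0,1),(4,1),(0,3),(0,5),(14,1),(10,2),(0,0)]⟩ ⟨1,[(1,0),(2,2),(1,0),(3,1),(18,0),(2,0)]⟩),(.r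
  (-1) ⟨0,[(7,1),(26,0)]⟩ ⟨0,[(4,1),(27,1)]⟩),.k,⟨true,0,⟨1,[(21,0),(0,0)]⟩,⟨0,[]⟩⟩,⟨false,1,⟨3,[(1,
  2),(0,5),(2,0),(0,0),(15,0),(10,1),(0,0)]⟩,⟨1,[(21,3),(4,0),(0,0),(1,0)]⟩⟩,⟨true,0,⟨0,[(4,1),(27,
  0)]⟩,⟨0,[(2,0),(4,0)]⟩⟩,⟨false,1,⟨0,[(1,0),(30,0),(1,0)]⟩,⟨0,[(0,0)]⟩⟩,⟨false,0,⟨0,[(1,0),(2,1),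
  (1,1),(3,1),(18,0)]⟩,⟨0,[(7,1),(26,0)]⟩⟩,⟨true,0,⟨0,[(1,1),(4,1),(3,1),(18,0)]⟩,⟨0,[(0,0),(30,
  0)]⟩⟩,[]⟩) (.I [0,0,-2,-2,1,0,0,-2] (.Q [0,0,0,0,0,-2,0,0,0,0,1] (.pp false [-1,1]) (.S ⟨1,0,[0,0,
  -1,-1],[1,-1],[1],(⟨0,[(28,0)]⟩,⟨0,[(29,0)]⟩),⟨0,[(0,0)]⟩,.k,(.r (-1) ⟨1,[(1,0),(7,1),(26,0)]⟩ ⟨0,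
  [(6,0),(1,0),(25,0),(3,0)]⟩),⟨true,0,⟨1,[(6,0),(1,0),(25,0),(3,0)]⟩,⟨0,[(32,0)]⟩⟩,⟨false,1,⟨0,
  [(36,0),(1,0)]⟩,⟨0,[]⟩⟩,⟨false,0,⟨3,[(2,0),(3,1),(1,3),(3,1),(18,0),(2,2)]⟩,⟨3,[(1,0),(7,1),(23,
  3),(2,2)]⟩⟩,⟨true,0,⟨0,[(34,0)]⟩,⟨0,[(33,0)]⟩⟩,[.o ⟨false,1,⟨1,[(27,0),(5,1),(2,0)]⟩,⟨0,[(34,
  0)]⟩⟩,.e ⟨false,1,⟨1,[(35,0),(0,0)]⟩,⟨0,[(38,0)]⟩⟩ ⟨false,1,⟨1,[(1,0),(2,1),(31,0)]⟩,⟨1,[(6,0),(1,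
  0),(25,0),(3,2)]⟩⟩,.a ⟨true,0,⟨1,[(23,0),(0,0)]⟩,⟨1,[(28,0),(0,0),(1,0)]⟩⟩ ⟨true,0,⟨0,[]⟩,⟨0,[(38,
  0)]⟩⟩ ⟨false,1,⟨3,[(1,0),(7,1),(26,2)]⟩,⟨1,[(6,0),(1,0),(25,0),(3,0)]⟩⟩,.e ⟨false,1,⟨1,[(35,0),(0,
  0)]⟩,⟨1,[(23,0),(0,0)]⟩⟩ ⟨false,1,⟨1,[(1,0),(2,1),(31,0)]⟩,⟨0,[(6,0),(1,0),(29,0)]⟩⟩]⟩) (.Q [0,0,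
  0,0,0,0,0,0,0,0,0,1,-1] (.ed true [1,0,-1,0,1] .k) (.R ⟨0,false,false,true,[1,0,-1],[1,0,-1,0,1],
  [1,0,1],(⟨0,[(26,0)]⟩,⟨0,[(27,0)]⟩),(⟨0,[(21,0),(4,0)]⟩,⟨0,[(0,0)]⟩),⟨0,[(18,0)]⟩,.k,.k,.k,.k,.k,
  .k,⟨false,1,⟨1,[(9,0),(0,0),(3,1),(2,1)]⟩,⟨2,[(5,0),(5,3),(3,2),(0,2),(14,0)]⟩⟩,⟨true,0,⟨0,[(17,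
  0)]⟩,⟨0,[(16,0)]⟩⟩,⟨true,0,⟨0,[(9,0),(24,0)]⟩,⟨0,[(11,0)]⟩⟩,⟨false,0,⟨0,[(15,0),(23,0)]⟩,⟨0,[(14,
  0)]⟩⟩,⟨false,0,⟨0,[]⟩,⟨0,[]⟩⟩,⟨false,0,⟨0,[]⟩,⟨0,[]⟩⟩,[.o ⟨false,0,⟨0,[(4,0),(10,0),(6,0)]⟩,⟨0,
  [(12,0),(1,0)]⟩⟩,.o ⟨false,0,⟨0,[(6,0),(8,0)]⟩,⟨0,[(14,0),(7,0)]⟩⟩,.o ⟨false,1,⟨1,[(25,1),(2,0),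
  (7,0)]⟩,⟨0,[(13,0)]⟩⟩,.a ⟨true,0,⟨0,[(25,0)]⟩,⟨0,[(24,0),(7,0)]⟩⟩ ⟨true,0,⟨0,[]⟩,⟨0,[(39,0)]⟩⟩
  ⟨false,0,⟨0,[(11,0),(3,0)]⟩,⟨0,[(9,0),(4,0),(19,0)]⟩⟩]⟩) (.R ⟨0,false,false,false,[1,0,0,0,-1],[1,
  0,1,0,-1],[0,1],(⟨0,[(20,0)]⟩,⟨0,[(21,0)]⟩),(⟨0,[(20,0),(6,0)]⟩,⟨0,[(0,0)]⟩),⟨0,[(0,0),(17,0)]⟩,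
  .k,.k,.k,.k,.k,.k,⟨false,0,⟨2,[(5,0),(5,3),(3,2),(0,2),(14,0)]⟩,⟨1,[(9,0),(0,0),(3,1),(2,1)]⟩⟩,
  ⟨true,0,⟨0,[(13,0)]⟩,⟨0,[(25,0)]⟩⟩,⟨false,0,⟨2,[(5,0),(5,0),(3,2),(0,2),(14,0)]⟩,⟨0,[(14,0),(2,
  0)]⟩⟩,⟨true,0,⟨0,[(12,0)]⟩,⟨0,[(23,0)]⟩⟩,⟨false,0,⟨0,[]⟩,⟨0,[]⟩⟩,⟨false,0,⟨0,[]⟩,⟨0,[]⟩⟩,[.o
  ⟨false,1,⟨0,[(6,0),(5,1),(1,0)]⟩,⟨0,[(15,0),(7,0)]⟩⟩,.e ⟨false,1,⟨1,[(36,0),(0,0),(1,1)]⟩,⟨0,[]⟩⟩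
  ⟨false,1,⟨0,[(5,0),(7,0),(0,0),(2,0)]⟩,⟨4,[(4,0),(10,4),(0,4),(6,2),(7,2),(0,0)]⟩⟩,.o ⟨false,1,⟨1,
  [(16,1),(11,0),(7,0)]⟩,⟨0,[(17,0)]⟩⟩,.a ⟨true,0,⟨0,[(16,0)]⟩,⟨1,[(17,1),(11,0),(0,0),(1,0)]⟩⟩
  ⟨true,0,⟨2,[(5,0),(5,0),(19,0)]⟩,⟨1,[(24,0),(0,0)]⟩⟩ ⟨false,1,⟨0,[(5,0),(7,0),(0,0),(2,0)]⟩,⟨0,
  [(15,0),(0,0),(6,0)]⟩⟩]⟩))) (.Q [0,0,0,0,0,-2,0,0,0,0,2,-1] (.p false [-1,1,1] [1] (⟨0,[(16,0)]⟩,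
  ⟨0,[(24,0),(2,0)]⟩) .k 1 (⟨0,[]⟩,⟨0,[]⟩) .k .k) (.R ⟨1,false,false,true,[2,-1,-1],[1,-1],[1,1,-1,
  -1],(⟨0,[(25,0),(2,0)]⟩,⟨0,[(17,0)]⟩),(⟨0,[(28,0)]⟩,⟨0,[(29,0)]⟩),⟨0,[(0,0)]⟩,.k,.k,(.x (-1) ⟨1,
  [(0,1),(22,0),(0,2),(2,1)]⟩ ⟨0,[(12,0),(4,0),(11,0),(1,0)]⟩),.k,.k,.k,⟨true,0,⟨0,[]⟩,⟨1,[(23,0),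
  (0,0)]⟩⟩,⟨false,0,⟨0,[(23,0),(7,0)]⟩,⟨1,[(24,1),(2,0),(7,0)]⟩⟩,⟨false,0,⟨1,[(8,0),(0,0)]⟩,⟨1,[(6,
  1),(28,0),(0,0)]⟩⟩,⟨false,0,⟨0,[(11,0),(16,0),(0,0)]⟩,⟨5,[(2,1),(4,1),(19,0),(8,2)]⟩⟩,⟨false,0,⟨1,
  [(1,0),(33,0)]⟩,⟨0,[(6,0),(25,0),(3,0)]⟩⟩,⟨true,(-1),⟨0,[(1,0),(4,0),(5,0),(18,0),(0,0)]⟩,⟨0,[(7,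
  0)]⟩⟩,[.a ⟨true,0,⟨0,[(33,0)]⟩,⟨0,[(6,0),(1,0),(22,0)]⟩⟩ ⟨true,0,⟨0,[(32,0)]⟩,⟨1,[(1,0),(4,1),(29,
  0)]⟩⟩ ⟨false,0,⟨0,[(23,0),(7,0),(0,0)]⟩,⟨1,[(8,1),(13,1),(4,0),(8,0)]⟩⟩,.o ⟨false,1,⟨1,[(27,0),(5,
  1),(2,0)]⟩,⟨0,[(34,0)]⟩⟩,.o ⟨false,1,⟨0,[(24,0),(2,0)]⟩,⟨0,[(23,0),(7,0)]⟩⟩,.o ⟨false,1,⟨1,[(23,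
  0),(0,2),(2,1)]⟩,⟨0,[(12,0),(18,0)]⟩⟩]⟩) (.Q [0,0,0,2,-1,0,0,0,0,0,1] (.pp false [-1,1]) (.R ⟨2,
  true,false,true,[0,1],[1,-1],[1,0,1],(⟨0,[]⟩,⟨0,[]⟩),(⟨0,[(29,0)]⟩,⟨0,[(30,0)]⟩),⟨0,[]⟩,.k,.k,.k,
  (.r 0 ⟨0,[(7,0),(1,0),(25,0),(3,0)]⟩ ⟨0,[(33,1),(3,0)]⟩),.k,.k,⟨true,0,⟨0,[(7,0),(1,0)]⟩,⟨0,[(33,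
  0)]⟩⟩,⟨false,1,⟨3,[(8,1),(0,1),(14,1),(3,0),(8,0),(1,3)]⟩,⟨0,[(32,0)]⟩⟩,⟨false,1,⟨0,[(34,0),(2,
  0)]⟩,⟨0,[(35,0)]⟩⟩,⟨true,1,⟨1,[(28,0),(5,3),(2,0)]⟩,⟨0,[(0,0)]⟩⟩,⟨true,0,⟨0,[]⟩,⟨0,[(39,0)]⟩⟩,
  ⟨false,1,⟨1,[(28,0),(5,1),(2,0)]⟩,⟨1,[(0,0),(28,0),(0,0),(6,0)]⟩⟩,[]⟩) (.I [1,0,-2,-2,1,0,0,-2]
  (.N [0,2,2] 1 ⟨0,[(3,0)]⟩ ⟨0,[(0,0)]⟩ (.x 0 ⟨0,[(2,0),(22,1),(2,0),(4,1)]⟩ ⟨3,[(1,7),(1,4),(0,5),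
  (1,1),(7,3),(12,7),(1,0),(0,7)]⟩)) (.Q [0,1,1,-1,0,0,0,0,0,0,-1] (.pp true [-1,1]) (.R ⟨0,false,
  false,false,[1,-1],[0,1],[1],(⟨0,[(31,0)]⟩,⟨0,[(32,0)]⟩),(⟨0,[(32,0)]⟩,⟨0,[(31,0)]⟩),⟨0,[(3,0),
  (24,0)]⟩,.k,.k,(.r (-1) ⟨0,[(2,0),(31,0)]⟩ ⟨0,[(9,0),(1,0),(25,0),(3,0)]⟩),(.r (-1) ⟨0,[(2,0),(31,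
  0)]⟩ ⟨0,[(9,0),(1,0),(25,0),(3,0)]⟩),.k,.k,⟨false,1,⟨1,[(2,0),(31,0),(3,0)]⟩,⟨1,[(9,0),(1,0),(25,
  0),(3,0)]⟩⟩,⟨true,0,⟨0,[(34,0)]⟩,⟨0,[(0,0),(8,0),(1,0)]⟩⟩,⟨true,0,⟨1,[(9,0),(1,0),(25,0),(3,0)]⟩,
  ⟨0,[(35,0)]⟩⟩,⟨false,0,⟨0,[(9,0),(1,0),(22,0),(2,0)]⟩,⟨0,[(2,0)]⟩⟩,⟨false,0,⟨0,[]⟩,⟨0,[]⟩⟩,⟨false,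
  0,⟨0,[]⟩,⟨0,[]⟩⟩,[.o ⟨false,0,⟨0,[(37,0)]⟩,⟨5,[(2,1),(7,1),(13,1),(5,0),(8,0)]⟩⟩,.e ⟨false,1,⟨1,
  [(38,0),(0,0)]⟩,⟨0,[(41,0)]⟩⟩ ⟨false,1,⟨1,[(31,0),(0,0),(1,0),(2,1),(0,0),(0,0)]⟩,⟨0,[(0,0)]⟩⟩,.e
  ⟨true,0,⟨0,[]⟩,⟨0,[(41,0)]⟩⟩ ⟨true,0,⟨1,[(31,0),(0,0),(1,0),(2,1)]⟩,⟨0,[(0,0)]⟩⟩,.a ⟨true,0,⟨0,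
  [(26,0),(0,0)]⟩,⟨0,[(34,0)]⟩⟩ ⟨false,1,⟨1,[(38,0),(0,0)]⟩,⟨1,[(26,0),(0,0)]⟩⟩ ⟨true,0,⟨0,[(34,0),
  (2,0)]⟩,⟨1,[(0,1),(25,0),(0,0)]⟩⟩]⟩) (.Q [0,0,0,1,-1,0,0,0,1,1,1,0,-1] (.p false [0,0,0,0,1] [1]
  (⟨0,[(23,0)]⟩,⟨0,[(22,0)]⟩) .k 1 (⟨0,[]⟩,⟨0,[]⟩) .k .k) (.R ⟨2,true,false,false,[0,1],[1,0,0,0,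
  -1],[0,0,1,0,0,0,0,0,-1],(⟨0,[]⟩,⟨0,[]⟩),(⟨0,[(23,0)]⟩,⟨0,[(24,0)]⟩),⟨0,[]⟩,.k,.k,.k,.k,.k,.k,
  ⟨true,0,⟨1,[(27,0),(0,0)]⟩,⟨0,[]⟩⟩,⟨false,1,⟨1,[(19,1),(11,0),(7,0)]⟩,⟨1,[(20,1),(11,0),(0,0),(1,
  0)]⟩⟩,⟨true,1,⟨0,[(17,0),(2,0),(16,0)]⟩,⟨0,[(0,0),(7,0),(0,0),(6,0),(2,0)]⟩⟩,⟨false,2,⟨5,[(3,1),
  (7,1),(5,5),(7,1),(5,0),(8,0)]⟩,⟨0,[(0,0)]⟩⟩,⟨false,1,⟨0,[(17,0),(2,0)]⟩,⟨3,[(0,0),(17,2),(0,3),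
  (11,0),(2,0),(0,0),(0,0)]⟩⟩,⟨true,1,⟨0,[(9,0),(5,0),(1,0)]⟩,⟨0,[(0,0),(36,0)]⟩⟩,[]⟩) (.R ⟨0,false,
  false,false,[1,-1],[0,1],[1],(⟨0,[(32,0)]⟩,⟨0,[(33,0)]⟩),(⟨0,[(33,0)]⟩,⟨0,[(32,0)]⟩),⟨0,[(4,0),
  (24,0)]⟩,.k,.k,(.r (-1) ⟨0,[(3,0),(31,0)]⟩ ⟨0,[(10,0),(1,0),(25,0),(3,0)]⟩),(.r (-1) ⟨0,[(3,0),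
  (31,0)]⟩ ⟨0,[(10,0),(1,0),(25,0),(3,0)]⟩),.k,.k,⟨false,1,⟨1,[(3,0),(31,0),(3,0)]⟩,⟨1,[(10,0),(1,
  0),(25,0),(3,0)]⟩⟩,⟨true,0,⟨0,[(35,0)]⟩,⟨0,[(0,0),(1,0),(7,1),(7,0),(17,0)]⟩⟩,⟨true,0,⟨1,[(10,0),
  (1,0),(25,0),(3,0)]⟩,⟨0,[(36,0)]⟩⟩,⟨false,0,⟨1,[(1,1),(8,0),(1,0),(25,0),(3,0)]⟩,⟨0,[(3,0)]⟩⟩,
  ⟨false,0,⟨0,[]⟩,⟨0,[]⟩⟩,⟨false,0,⟨0,[]⟩,⟨0,[]⟩⟩,[.o ⟨false,0,⟨0,[(38,0)]⟩,⟨5,[(3,1),(7,1),(13,1),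
  (5,0),(8,0)]⟩⟩,.a ⟨true,0,⟨2,[(1,1),(8,0),(1,0),(19,0),(0,0)]⟩,⟨0,[(37,0)]⟩⟩ ⟨false,1,⟨1,[(39,0),
  (0,0)]⟩,⟨0,[(42,0)]⟩⟩ ⟨true,0,⟨0,[(1,0)]⟩,⟨0,[(0,0),(1,0),(7,1),(7,0),(17,1)]⟩⟩,.a ⟨true,0,⟨1,
  [(27,0),(0,0)]⟩,⟨1,[(32,0),(0,0),(1,0)]⟩⟩ ⟨true,0,⟨0,[]⟩,⟨0,[(42,0)]⟩⟩ ⟨false,0,⟨0,[(1,0)]⟩,⟨5,
  [(3,1),(7,3),(0,1),(12,1),(1,2),(0,0)]⟩⟩,.a ⟨true,0,⟨0,[(27,0),(0,0)]⟩,⟨0,[(35,0)]⟩⟩ ⟨false,1,⟨1,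
  [(39,0),(0,0)]⟩,⟨1,[(27,0),(0,0)]⟩⟩ ⟨true,0,⟨0,[(35,0),(2,0)]⟩,⟨0,[(0,0),(1,0),(7,1),(7,0),(17,
  1)]⟩⟩]⟩))))))))))) (.Q [0,0,0,0,1,0,-2,-2,0,0,-1,2] (.p true [0,0,1] [1,0,-1] (⟨0,[(20,0)]⟩,⟨0,
  [(19,0)]⟩) .k 2 (⟨0,[(19,0)]⟩,⟨0,[(20,0)]⟩) .k (.r 0 ⟨0,[(2,0),(0,0)]⟩ ⟨0,[(4,0),(11,0),(0,0),(12,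
  0)]⟩)) (.I [0,0,1,1,0,0,0,-1] (.Q [0,-1,0,0,0,0,1,1,0,0,1,-1] (.p false [0,0,1] [1] (⟨0,[(22,0)]⟩,
  ⟨0,[(21,0)]⟩) .k 1 (⟨0,[]⟩,⟨0,[]⟩) .k .k) (.S ⟨1,0,[0,0,0,0,0,0,0,1],[0,0,1],[0,1,1],(⟨0,[(23,
  0)]⟩,⟨0,[(22,0)]⟩),⟨0,[(15,0)]⟩,.k,.k,⟨true,0,⟨0,[(1,0),(28,0)]⟩,⟨0,[(3,0)]⟩⟩,⟨false,1,⟨0,[(33,0),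
  (1,0)]⟩,⟨0,[]⟩⟩,⟨false,0,⟨0,[(1,0)]⟩,⟨0,[(6,0),(26,0)]⟩⟩,⟨true,0,⟨0,[(31,0)]⟩,⟨0,[(30,0)]⟩⟩,[.o
  ⟨false,0,⟨0,[(8,0)]⟩,⟨5,[(2,3),(15,1),(5,0),(8,0)]⟩⟩,.a ⟨true,0,⟨0,[(0,0)]⟩,⟨0,[(19,0)]⟩⟩ ⟨true,0,
  ⟨1,[(20,0),(0,0)]⟩,⟨0,[]⟩⟩ ⟨false,1,⟨1,[(5,0),(0,0),(25,0),(0,0)]⟩,⟨1,[(1,0),(5,0),(22,0)]⟩⟩,.o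
  ⟨false,0,⟨0,[(9,0)]⟩,⟨1,[(21,1),(2,0),(7,0)]⟩⟩,.o ⟨false,0,⟨0,[(20,0)]⟩,⟨3,[(2,1),(0,1),(1,0),(0,
  0),(17,0),(7,0)]⟩⟩]⟩) (.Q [0,0,0,-2,1,0,0,0,0,0,-1] (.pp true [-1,1]) (.Q [0,1,0,1,0,0,-2,-2,0,0,
  -1,2] (.p true [0,0,1] [1,0,-1] (⟨0,[(24,0)]⟩,⟨0,[(23,0)]⟩) .k 2 (⟨0,[(23,0)]⟩,⟨0,[(24,0)]⟩) .k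
  (.r 0 ⟨0,[(6,0),(0,0)]⟩ ⟨0,[(3,0),(17,1),(7,0)]⟩)) (.I [1,-1,-2,-1,1] (.Q [0,0,0,0,0,-2,0,0,0,0,
  1] (.pp false [-1,1]) (.I [1,1,-2,-1] (.S ⟨1,0,[0,0,-1,-1],[1,-1],[0,0,1],(⟨0,[(30,0)]⟩,⟨0,[(31,
  0)]⟩),⟨0,[(1,0)]⟩,.k,(.r (-1) ⟨0,[(4,0),(28,0)]⟩ ⟨6,[(6,7),(3,5),(12,1),(2,1),(5,1)]⟩),⟨true,0,⟨2,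
  [(6,1),(3,0),(12,0),(1,0),(0,1)]⟩,⟨0,[(0,0)]⟩⟩,⟨false,1,⟨0,[(38,0),(1,0)]⟩,⟨0,[]⟩⟩,⟨false,0,⟨0,
  [(6,0),(3,0)]⟩,⟨0,[(4,0),(28,0)]⟩⟩,⟨true,0,⟨0,[(36,0)]⟩,⟨0,[(35,0)]⟩⟩,[.o ⟨false,1,⟨5,[(4,1),(4,
  1),(13,1),(5,0),(8,0)]⟩,⟨0,[(36,0)]⟩⟩,.e ⟨false,1,⟨0,[(38,0),(1,0)]⟩,⟨2,[(0,0),(31,0),(3,0)]⟩⟩
  ⟨false,1,⟨0,[(0,0),(37,0)]⟩,⟨6,[(6,4),(3,1),(12,2),(2,2),(5,2)]⟩⟩,.a ⟨true,0,⟨1,[(25,0),(0,0)]⟩,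
  ⟨1,[(30,0),(0,0),(1,0)]⟩⟩ ⟨true,0,⟨1,[(25,0),(0,0)]⟩,⟨2,[(0,0),(31,0),(3,0)]⟩⟩ ⟨false,1,⟨1,[(4,0),
  (28,0),(4,0)]⟩,⟨6,[(6,3),(3,2),(12,0),(2,0),(5,0)]⟩⟩,.e ⟨false,1,⟨0,[(38,0),(1,0)]⟩,⟨0,[]⟩⟩
  ⟨false,1,⟨0,[(0,0),(37,0)]⟩,⟨2,[(6,1),(3,0),(12,0),(1,0),(0,1)]⟩⟩]⟩) (.Q [0,-1,0,-1,1,0,0,0,0,0,
  -1] (.pp true [-1,1]) (.S ⟨1,0,[0,0,-1,-1],[1,-1],[1],(⟨0,[(31,0)]⟩,⟨0,[(32,0)]⟩),⟨0,[(2,0)]⟩,.k,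
  (.r (-1) ⟨0,[(5,0),(28,0)]⟩ ⟨2,[(1,3),(31,1),(3,1)]⟩),⟨true,0,⟨2,[(1,1),(31,0),(3,0)]⟩,⟨0,[(35,
  0)]⟩⟩,⟨false,1,⟨0,[(39,0),(1,0)]⟩,⟨0,[]⟩⟩,⟨false,0,⟨1,[(1,0),(2,0),(6,1),(3,1),(18,0)]⟩,⟨1,[(5,0),
  (28,0),(1,1),(2,0)]⟩⟩,⟨true,0,⟨0,[(37,0)]⟩,⟨0,[(36,0)]⟩⟩,[.o ⟨false,1,⟨5,[(5,1),(4,1),(13,1),(5,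
  0),(8,0)]⟩,⟨0,[(37,0)]⟩⟩,.o ⟨false,1,⟨0,[(0,0)]⟩,⟨2,[(1,0),(31,1),(3,1)]⟩⟩,.a ⟨true,0,⟨1,[(1,0),
  (34,0)]⟩,⟨1,[(31,0),(0,0),(1,0)]⟩⟩ ⟨true,0,⟨0,[]⟩,⟨0,[(41,0)]⟩⟩ ⟨false,1,⟨1,[(5,0),(28,0),(4,0)]⟩,
  ⟨2,[(1,1),(31,0),(3,0)]⟩⟩,.e ⟨false,1,⟨1,[(38,0),(0,0)]⟩,⟨1,[(1,0),(34,0)]⟩⟩ ⟨false,1,⟨0,[(0,0),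
  (33,0)]⟩,⟨0,[(1,0),(39,0)]⟩⟩]⟩) (.S ⟨1,0,[0,1,-1,-1],[1,-1],[0,1,1],(⟨0,[(31,0)]⟩,⟨0,[(32,0)]⟩),
  ⟨0,[(2,0)]⟩,.k,(.r (-1) ⟨0,[(5,0),(28,0)]⟩ ⟨2,[(1,3),(31,1),(3,1)]⟩),⟨false,0,⟨0,[(1,0),(39,0)]⟩,
  ⟨0,[(3,0)]⟩⟩,⟨true,0,⟨0,[(41,0)]⟩,⟨0,[]⟩⟩,⟨true,(-1),⟨0,[(0,0),(5,0),(4,0),(14,0)]⟩,⟨0,[(5,0),(28,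
  0)]⟩⟩,⟨false,0,⟨0,[(37,0)]⟩,⟨0,[(36,0),(2,0)]⟩⟩,[.a ⟨true,0,⟨0,[(36,0)]⟩,⟨0,[(1,0),(32,0)]⟩⟩
  ⟨false,0,⟨0,[(41,0)]⟩,⟨1,[(38,0),(0,0)]⟩⟩ ⟨true,0,⟨0,[(35,0)]⟩,⟨0,[(1,0)]⟩⟩,.o ⟨false,1,⟨5,[(5,1),
  (4,1),(13,1),(5,0),(8,0)]⟩,⟨0,[(37,0)]⟩⟩,.a ⟨true,0,⟨1,[(1,0),(34,0)]⟩,⟨1,[(31,0),(0,0),(1,0)]⟩⟩
  ⟨false,0,⟨1,[(1,0),(34,0)]⟩,⟨1,[(38,0),(0,0)]⟩⟩ ⟨true,0,⟨0,[(35,0)]⟩,⟨2,[(1,1),(31,0),(3,0)]⟩⟩,.a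
  ⟨true,0,⟨0,[(1,0),(34,0)]⟩,⟨0,[(34,0)]⟩⟩ ⟨true,0,⟨0,[(41,0)]⟩,⟨0,[]⟩⟩ ⟨false,1,⟨1,[(5,0),(28,0),
  (3,0)]⟩,⟨0,[(1,0)]⟩⟩]⟩))) (.Q [0,1,1,-1,0,0,0,0,0,0,-1] (.pp true [-1,1]) (.Q [0,0,3,0,0,0,0,0,0,
  0,-1] (.pp true [-1,1]) (.R ⟨0,false,false,false,[1,-1],[0,1],[1],(⟨0,[(31,0)]⟩,⟨0,[(32,0)]⟩),(⟨0,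
  [(32,0)]⟩,⟨0,[(31,0)]⟩),⟨0,[(2,0)]⟩,.k,.k,(.r (-1) ⟨0,[(5,0),(28,0)]⟩ ⟨6,[(7,7),(3,5),(12,1),(2,
  1),(5,1)]⟩),(.r (-1) ⟨0,[(5,0),(28,0)]⟩ ⟨6,[(7,7),(3,5),(12,1),(2,1),(5,1)]⟩),.k,.k,⟨false,1,⟨1,
  [(5,0),(28,0),(3,0)]⟩,⟨6,[(7,3),(3,2),(12,0),(2,0),(5,0)]⟩⟩,⟨true,0,⟨0,[(34,0)]⟩,⟨0,[(0,0)]⟩⟩,
  ⟨true,0,⟨6,[(7,3),(3,2),(12,0),(2,0),(5,0)]⟩,⟨0,[(35,0)]⟩⟩,⟨false,0,⟨0,[(7,0),(3,0),(22,0)]⟩,⟨0,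
  [(5,0)]⟩⟩,⟨false,0,⟨0,[]⟩,⟨0,[]⟩⟩,⟨false,0,⟨0,[]⟩,⟨0,[]⟩⟩,[.o ⟨false,0,⟨0,[(37,0)]⟩,⟨7,[(0,1),(4,
  3),(24,0),(7,2)]⟩⟩,.e ⟨false,1,⟨1,[(38,0),(0,0)]⟩,⟨0,[(41,0)]⟩⟩ ⟨false,1,⟨3,[(7,1),(3,1),(19,0),
  (0,0),(1,2),(3,2),(0,0)]⟩,⟨0,[(1,0)]⟩⟩,.e ⟨true,0,⟨0,[]⟩,⟨0,[(41,0)]⟩⟩ ⟨true,0,⟨7,[(7,3),(3,3),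
  (19,0),(0,0),(0,1),(0,6)]⟩,⟨0,[(1,0)]⟩⟩,.a ⟨true,0,⟨0,[(26,0),(0,0)]⟩,⟨0,[(34,0)]⟩⟩ ⟨false,1,⟨1,
  [(38,0),(0,0)]⟩,⟨1,[(26,0),(0,0)]⟩⟩ ⟨true,0,⟨0,[(34,0),(2,0)]⟩,⟨1,[(0,0),(0,0),(34,0)]⟩⟩]⟩) (.Q
  [0,0,0,0,0,0,0,0,0,0,0,1,-1] (.ed true [1,0,-1,0,1] .k) (.R ⟨0,false,false,true,[1,0,-1],[1,0,-1,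
  0,1],[1,0,1],(⟨0,[(29,0)]⟩,⟨0,[(30,0)]⟩),(⟨0,[(24,0),(4,0)]⟩,⟨0,[(0,0)]⟩),⟨0,[(21,0)]⟩,.k,.k,.k,
  .k,.k,.k,⟨false,1,⟨1,[(12,0),(0,0),(3,1),(2,1)]⟩,⟨3,[(1,0),(5,0),(6,3),(3,3),(0,3),(5,0),(8,0)]⟩⟩,
  ⟨true,0,⟨0,[(20,0)]⟩,⟨0,[(19,0)]⟩⟩,⟨true,0,⟨0,[(12,0),(24,0)]⟩,⟨0,[(14,0)]⟩⟩,⟨false,0,⟨0,[(18,0),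
  (23,0)]⟩,⟨0,[(17,0)]⟩⟩,⟨false,0,⟨0,[]⟩,⟨0,[]⟩⟩,⟨false,0,⟨0,[]⟩,⟨0,[]⟩⟩,[.o ⟨false,0,⟨1,[(2,0),(2,
  0),(12,1),(15,0)]⟩,⟨0,[(15,0),(1,0)]⟩⟩,.o ⟨false,0,⟨0,[(7,0),(10,0)]⟩,⟨0,[(17,0),(7,0)]⟩⟩,.o
  ⟨false,1,⟨1,[(28,1),(2,0),(7,0)]⟩,⟨0,[(16,0)]⟩⟩,.a ⟨true,0,⟨0,[(28,0)]⟩,⟨0,[(27,0),(7,0)]⟩⟩ ⟨true,
  0,⟨0,[]⟩,⟨0,[(42,0)]⟩⟩ ⟨false,0,⟨0,[(14,0),(3,0)]⟩,⟨0,[(12,0),(4,0),(19,0)]⟩⟩]⟩) (.R ⟨0,false,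
  false,false,[1,0,0,0,-1],[1,0,1,0,-1],[0,1],(⟨0,[(23,0)]⟩,⟨0,[(24,0)]⟩),(⟨0,[(23,0),(6,0)]⟩,⟨0,
  [(0,0)]⟩),⟨0,[(0,0),(20,0)]⟩,.k,.k,.k,.k,.k,.k,⟨false,0,⟨3,[(1,0),(5,0),(6,3),(3,3),(0,3),(5,0),
  (8,0)]⟩,⟨1,[(12,0),(0,0),(3,1),(2,1)]⟩⟩,⟨true,0,⟨0,[(16,0)]⟩,⟨0,[(28,0)]⟩⟩,⟨false,0,⟨3,[(1,0),(5,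
  0),(10,3),(0,3),(5,0),(8,0)]⟩,⟨0,[(17,0),(2,0)]⟩⟩,⟨true,0,⟨0,[(15,0)]⟩,⟨0,[(26,0)]⟩⟩,⟨false,0,⟨0,
  []⟩,⟨0,[]⟩⟩,⟨false,0,⟨0,[]⟩,⟨0,[]⟩⟩,[.o ⟨false,1,⟨0,[(7,0),(7,1),(1,0)]⟩,⟨0,[(18,0),(7,0)]⟩⟩,.e
  ⟨false,1,⟨1,[(39,0),(0,0),(1,1)]⟩,⟨0,[]⟩⟩ ⟨false,1,⟨0,[(10,0),(5,0),(0,0),(2,0)]⟩,⟨7,[(1,0),(3,0),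
  (12,7),(0,7),(6,5),(7,3),(1,0)]⟩⟩,.o ⟨false,1,⟨1,[(19,1),(11,0),(7,0)]⟩,⟨0,[(20,0)]⟩⟩,.a ⟨true,0,
  ⟨0,[(19,0)]⟩,⟨1,[(20,1),(11,0),(0,0),(1,0)]⟩⟩ ⟨true,0,⟨3,[(1,0),(5,0),(17,0),(8,0)]⟩,⟨1,[(27,0),
  (0,0)]⟩⟩ ⟨false,1,⟨0,[(10,0),(5,0),(0,0),(2,0)]⟩,⟨0,[(18,0),(0,0),(6,0)]⟩⟩]⟩))) (.Q [0,0,3,0,0,0,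
  0,0,0,0,-1] (.pp true [-1,1]) (.R ⟨0,false,false,false,[1,-1],[0,1],[1],(⟨0,[(31,0)]⟩,⟨0,[(32,
  0)]⟩),(⟨0,[(32,0)]⟩,⟨0,[(31,0)]⟩),⟨0,[(2,0)]⟩,.k,.k,(.r (-1) ⟨0,[(5,0),(28,0)]⟩ ⟨6,[(7,7),(3,5),
  (12,1),(2,1),(5,1)]⟩),(.r (-1) ⟨0,[(5,0),(28,0)]⟩ ⟨6,[(7,7),(3,5),(12,1),(2,1),(5,1)]⟩),.k,.k,
  ⟨false,1,⟨1,[(5,0),(28,0),(3,0)]⟩,⟨6,[(7,3),(3,2),(12,0),(2,0),(5,0)]⟩⟩,⟨true,0,⟨0,[(34,0)]⟩,⟨0,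
  [(0,0)]⟩⟩,⟨true,0,⟨6,[(7,3),(3,2),(12,0),(2,0),(5,0)]⟩,⟨0,[(35,0)]⟩⟩,⟨false,0,⟨6,[(1,6),(5,3),(3,
  2),(12,0),(2,0),(5,0)]⟩,⟨0,[(5,0)]⟩⟩,⟨false,0,⟨0,[]⟩,⟨0,[]⟩⟩,⟨false,0,⟨0,[]⟩,⟨0,[]⟩⟩,[.o ⟨false,0,
  ⟨0,[(37,0)]⟩,⟨7,[(0,1),(4,3),(24,0),(7,2)]⟩⟩,.a ⟨true,0,⟨1,[(1,1),(24,0),(0,0)]⟩,⟨0,[(36,0)]⟩⟩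
  ⟨false,1,⟨1,[(38,0),(0,0)]⟩,⟨0,[(41,0)]⟩⟩ ⟨true,0,⟨0,[(1,0)]⟩,⟨0,[(0,0),(34,0)]⟩⟩,.a ⟨true,0,⟨1,
  [(26,0),(0,0)]⟩,⟨1,[(31,0),(0,0),(1,0)]⟩⟩ ⟨true,0,⟨0,[]⟩,⟨0,[(41,0)]⟩⟩ ⟨false,0,⟨0,[(1,0)]⟩,⟨2,
  [(0,0),(4,0),(4,0),(13,0),(14,0),(1,0)]⟩⟩,.a ⟨true,0,⟨0,[(26,0),(0,0)]⟩,⟨0,[(34,0)]⟩⟩ ⟨false,1,⟨1,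
  [(38,0),(0,0)]⟩,⟨1,[(26,0),(0,0)]⟩⟩ ⟨true,0,⟨0,[(34,0),(2,0)]⟩,⟨0,[(0,0),(34,0)]⟩⟩]⟩) (.Q [0,-1,0,
  0,0,0,2,2,0,0,1,-2] (.p false [0,0,1] [1,0,-1] (⟨0,[(29,0)]⟩,⟨0,[(28,0)]⟩) .k 2 (⟨0,[(28,0)]⟩,⟨0,
  [(29,0)]⟩) .k (.r 0 ⟨0,[(11,0),(0,0)]⟩ ⟨0,[(8,0),(17,1),(7,0)]⟩)) (.I [0,0,1,1,0,0,0,-2] (.R ⟨1,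
  true,false,true,[0,0,1],[1,0,-1],[0,1,1,0,0,0,0,-1],(⟨0,[(31,0)]⟩,⟨0,[(30,0)]⟩),(⟨0,[(30,0)]⟩,⟨0,
  [(31,0)]⟩),⟨0,[(23,0)]⟩,.k,.k,.k,.k,(.r (-1) ⟨5,[(1,1),(5,1),(5,2),(0,4),(14,3),(10,3)]⟩ ⟨0,[(0,
  0)]⟩),.k,⟨true,0,⟨1,[(28,0),(0,0)]⟩,⟨0,[]⟩⟩,⟨false,1,⟨1,[(10,1),(0,1),(1,0),(0,0)]⟩,⟨0,[(28,1),(7,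
  0)]⟩⟩,⟨true,0,⟨0,[(0,0),(37,0)]⟩,⟨1,[(11,1),(1,0),(0,0)]⟩⟩,⟨false,1,⟨0,[(10,0)]⟩,⟨0,[(1,0)]⟩⟩,
  ⟨false,0,⟨0,[(0,0)]⟩,⟨1,[(13,0),(0,2),(26,1)]⟩⟩,⟨true,0,⟨0,[(6,0)]⟩,⟨0,[(1,0),(36,0)]⟩⟩,[]⟩) (.Q
  [0,0,0,0,0,0,0,0,0,0,0,1,-1] (.ed true [1,0,-1,0,1] .k) (.R ⟨0,false,false,true,[1,0,-1],[1,0,-1,
  0,1],[1,0,1],(⟨0,[(31,0)]⟩,⟨0,[(32,0)]⟩),(⟨0,[(26,0),(4,0)]⟩,⟨0,[(0,0)]⟩),⟨0,[(23,0)]⟩,.k,.k,.k,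
  .k,.k,.k,⟨false,1,⟨9,[(1,2),(12,2),(4,9),(2,9),(4,0),(2,0),(5,0)]⟩,⟨3,[(3,0),(5,0),(6,3),(3,3),(0,
  3),(5,0),(8,0)]⟩⟩,⟨true,0,⟨0,[(22,0)]⟩,⟨0,[(21,0)]⟩⟩,⟨true,0,⟨7,[(1,1),(12,1),(12,1),(1,2),(0,
  4)]⟩,⟨0,[(16,0)]⟩⟩,⟨false,0,⟨0,[(20,0),(23,0)]⟩,⟨0,[(19,0)]⟩⟩,⟨false,0,⟨0,[]⟩,⟨0,[]⟩⟩,⟨false,0,⟨0,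
  []⟩,⟨0,[]⟩⟩,[.o ⟨false,0,⟨0,[(9,0),(10,0),(23,0)]⟩,⟨0,[(17,0),(1,0)]⟩⟩,.o ⟨false,0,⟨0,[(9,0),(10,
  0)]⟩,⟨0,[(19,0),(7,0)]⟩⟩,.o ⟨false,1,⟨1,[(30,1),(2,0),(7,0)]⟩,⟨0,[(18,0)]⟩⟩,.a ⟨true,0,⟨0,[(30,
  0)]⟩,⟨0,[(29,0),(7,0)]⟩⟩ ⟨true,0,⟨0,[]⟩,⟨0,[(44,0)]⟩⟩ ⟨false,0,⟨0,[(16,0),(3,0)]⟩,⟨7,[(1,1),(12,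
  1),(4,7),(7,1),(1,2),(0,4)]⟩⟩]⟩) (.R ⟨0,false,false,false,[1,0,0,0,-1],[1,0,1,0,-1],[0,1],(⟨0,
  [(25,0)]⟩,⟨0,[(26,0)]⟩),(⟨0,[(25,0),(6,0)]⟩,⟨0,[(0,0)]⟩),⟨0,[(0,0),(22,0)]⟩,.k,.k,.k,.k,.k,.k,
  ⟨false,0,⟨3,[(3,0),(5,0),(6,3),(3,3),(0,3),(5,0),(8,0)]⟩,⟨9,[(1,2),(12,2),(4,9),(2,9),(4,0),(2,0),
  (5,0)]⟩⟩,⟨true,0,⟨0,[(18,0)]⟩,⟨0,[(30,0)]⟩⟩,⟨false,0,⟨3,[(3,0),(5,0),(10,3),(0,3),(5,0),(8,0)]⟩,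
  ⟨0,[(19,0),(2,0)]⟩⟩,⟨true,0,⟨0,[(17,0)]⟩,⟨0,[(28,0)]⟩⟩,⟨false,0,⟨0,[]⟩,⟨0,[]⟩⟩,⟨false,0,⟨0,[]⟩,⟨0,
  []⟩⟩,[.o ⟨false,1,⟨0,[(9,0),(7,1),(1,0)]⟩,⟨0,[(20,0),(7,0)]⟩⟩,.e ⟨false,1,⟨1,[(41,0),(0,0),(1,
  1)]⟩,⟨0,[]⟩⟩ ⟨false,1,⟨0,[(12,0),(5,0),(0,0),(2,0)]⟩,⟨7,[(3,0),(3,0),(12,7),(0,7),(6,5),(7,3),(1,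
  0)]⟩⟩,.o ⟨false,1,⟨1,[(21,1),(11,0),(7,0)]⟩,⟨0,[(22,0)]⟩⟩,.a ⟨true,0,⟨0,[(21,0)]⟩,⟨1,[(22,1),(11,
  0),(0,0),(1,0)]⟩⟩ ⟨true,0,⟨3,[(3,0),(5,0),(17,0),(8,0)]⟩,⟨1,[(29,0),(0,0)]⟩⟩ ⟨false,1,⟨0,[(12,0),
  (5,0),(0,0),(2,0)]⟩,⟨0,[(20,0),(0,0),(6,0)]⟩⟩]⟩))) (.Q [0,0,0,-1,0,0,2,2,0,0,1,-2] (.p false [0,0,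
  1] [1,0,-1] (⟨0,[(30,0)]⟩,⟨0,[(29,0)]⟩) .k 2 (⟨0,[(29,0)]⟩,⟨0,[(30,0)]⟩) .k (.r 0 ⟨0,[(12,0),(0,
  0)]⟩ ⟨0,[(9,0),(17,1),(7,0)]⟩)) (.I [0,-1,2,2,0,0,0,-2] (.R ⟨1,true,false,false,[0,0,1],[1,1,-1],
  [0,0,2,1,0,0,0,-1],(⟨0,[(32,0)]⟩,⟨0,[(31,0)]⟩),(⟨0,[(31,0),(3,0)]⟩,⟨0,[(24,0)]⟩),⟨0,[(24,0)]⟩,.k,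
  .k,.k,(.r (-1) ⟨7,[(1,1),(6,1),(5,4),(0,6),(14,3),(10,4),(0,0)]⟩ ⟨0,[(0,0),(37,0)]⟩),(.r (-1) ⟨0,
  [(15,1),(26,0)]⟩ ⟨0,[(0,0),(43,0)]⟩),.k,⟨true,0,⟨1,[(29,0),(0,0)]⟩,⟨0,[]⟩⟩,⟨false,1,⟨0,[(11,0),(0,
  1)]⟩,⟨1,[(0,0),(0,0),(27,1),(7,0),(1,0)]⟩⟩,⟨true,0,⟨0,[(0,0),(38,0)]⟩,⟨0,[(12,0),(2,0)]⟩⟩,⟨false,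
  1,⟨0,[(7,0),(34,0)]⟩,⟨0,[(1,0)]⟩⟩,⟨false,0,⟨0,[(0,0)]⟩,⟨0,[(15,1),(26,0)]⟩⟩,⟨true,0,⟨0,[(0,0),(1,
  0),(9,1)]⟩,⟨0,[(1,0),(37,0)]⟩⟩,[]⟩) (.Q [0,0,0,0,0,0,0,0,0,0,0,1,-1] (.ed true [1,0,-1,0,1] .k)
  (.R ⟨0,false,false,true,[1,0,-1],[1,0,-1,0,1],[1,0,1],(⟨0,[(32,0)]⟩,⟨0,[(33,0)]⟩),(⟨0,[(27,0),(4,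
  0)]⟩,⟨0,[(0,0)]⟩),⟨0,[(24,0)]⟩,.k,.k,.k,.k,.k,.k,⟨false,1,⟨12,[(1,2),(13,5),(4,12),(2,12),(4,0),
  (2,0),(5,0)]⟩,⟨3,[(4,0),(5,0),(6,3),(3,3),(0,3),(5,0),(8,0)]⟩⟩,⟨true,0,⟨0,[(23,0)]⟩,⟨0,[(22,0)]⟩⟩,
  ⟨true,0,⟨4,[(1,0),(13,1),(12,0),(1,1),(0,2)]⟩,⟨0,[(17,0)]⟩⟩,⟨false,0,⟨0,[(21,0),(23,0)]⟩,⟨0,[(20,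
  0)]⟩⟩,⟨false,0,⟨0,[]⟩,⟨0,[]⟩⟩,⟨false,0,⟨0,[]⟩,⟨0,[]⟩⟩,[.o ⟨false,0,⟨0,[(10,0),(10,0),(23,0)]⟩,⟨0,
  [(18,0),(1,0)]⟩⟩,.o ⟨false,0,⟨0,[(10,0),(10,0)]⟩,⟨0,[(20,0),(7,0)]⟩⟩,.o ⟨false,1,⟨1,[(31,1),(2,0),
  (7,0)]⟩,⟨0,[(19,0)]⟩⟩,.a ⟨true,0,⟨0,[(31,0)]⟩,⟨0,[(30,0),(7,0)]⟩⟩ ⟨true,0,⟨0,[]⟩,⟨0,[(45,0)]⟩⟩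
  ⟨false,0,⟨0,[(17,0),(3,0)]⟩,⟨4,[(1,0),(13,1),(4,4),(7,0),(1,1),(0,2)]⟩⟩]⟩) (.R ⟨0,false,false,
  false,[1,0,0,0,-1],[1,0,1,0,-1],[0,1],(⟨0,[(26,0)]⟩,⟨0,[(27,0)]⟩),(⟨0,[(26,0),(6,0)]⟩,⟨0,[(0,
  0)]⟩),⟨0,[(0,0),(23,0)]⟩,.k,.k,.k,.k,.k,.k,⟨false,0,⟨3,[(4,0),(5,0),(6,3),(3,3),(0,3),(5,0),(8,
  0)]⟩,⟨12,[(1,2),(13,5),(4,12),(2,12),(4,0),(2,0),(5,0)]⟩⟩,⟨true,0,⟨0,[(19,0)]⟩,⟨0,[(31,0)]⟩⟩,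
  ⟨false,0,⟨3,[(4,0),(5,0),(10,3),(0,3),(5,0),(8,0)]⟩,⟨0,[(20,0),(2,0)]⟩⟩,⟨true,0,⟨0,[(18,0)]⟩,⟨0,
  [(29,0)]⟩⟩,⟨false,0,⟨0,[]⟩,⟨0,[]⟩⟩,⟨false,0,⟨0,[]⟩,⟨0,[]⟩⟩,[.o ⟨false,1,⟨0,[(10,0),(7,1),(1,0)]⟩,
  ⟨0,[(21,0),(7,0)]⟩⟩,.e ⟨false,1,⟨9,[(2,1),(8,1),(0,1),(15,1),(2,1),(10,6),(0,0)]⟩,⟨0,[]⟩⟩ ⟨false,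
  1,⟨0,[(13,0),(5,0),(0,0),(2,0)]⟩,⟨6,[(3,0),(0,0),(16,6),(0,6),(6,4),(7,3)]⟩⟩,.o ⟨false,1,⟨1,[(22,
  1),(11,0),(7,0)]⟩,⟨0,[(23,0)]⟩⟩,.a ⟨true,0,⟨0,[(22,0)]⟩,⟨1,[(23,1),(11,0),(0,0),(1,0)]⟩⟩ ⟨true,0,
  ⟨3,[(4,0),(5,0),(17,0),(8,0)]⟩,⟨1,[(30,0),(0,0)]⟩⟩ ⟨false,1,⟨0,[(13,0),(5,0),(0,0),(2,0)]⟩,⟨0,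
  [(21,0),(0,0),(6,0)]⟩⟩]⟩))) (.Q [0,0,0,0,0,0,0,0,0,0,0,1,-1] (.ed true [1,0,-1,0,1] .k) (.R ⟨0,
  false,false,true,[1,0,-1],[1,0,-1,0,1],[1,0,1],(⟨0,[(31,0)]⟩,⟨0,[(32,0)]⟩),(⟨0,[(26,0),(4,0)]⟩,⟨0,
  [(0,0)]⟩),⟨0,[(23,0)]⟩,.k,.k,.k,.k,.k,.k,⟨false,1,⟨1,[(14,0),(0,0),(3,1),(2,1)]⟩,⟨3,[(3,0),(5,0),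
  (6,3),(3,3),(0,3),(5,0),(8,0)]⟩⟩,⟨true,0,⟨0,[(22,0)]⟩,⟨0,[(21,0)]⟩⟩,⟨true,0,⟨0,[(14,0),(24,0)]⟩,
  ⟨0,[(16,0)]⟩⟩,⟨false,0,⟨0,[(20,0),(23,0)]⟩,⟨0,[(19,0)]⟩⟩,⟨false,0,⟨0,[]⟩,⟨0,[]⟩⟩,⟨false,0,⟨0,[]⟩,
  ⟨0,[]⟩⟩,[.o ⟨false,0,⟨0,[(9,0),(10,0),(23,0)]⟩,⟨0,[(17,0),(1,0)]⟩⟩,.o ⟨false,0,⟨0,[(9,0),(10,0)]⟩,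
  ⟨0,[(19,0),(7,0)]⟩⟩,.o ⟨false,1,⟨1,[(30,1),(2,0),(7,0)]⟩,⟨0,[(18,0)]⟩⟩,.a ⟨true,0,⟨0,[(30,0)]⟩,⟨0,
  [(29,0),(7,0)]⟩⟩ ⟨true,0,⟨0,[]⟩,⟨0,[(44,0)]⟩⟩ ⟨false,0,⟨0,[(16,0),(3,0)]⟩,⟨0,[(14,0),(4,0),(19,
  0)]⟩⟩]⟩) (.R ⟨0,false,false,false,[1,0,0,0,-1],[1,0,1,0,-1],[0,1],(⟨0,[(25,0)]⟩,⟨0,[(26,0)]⟩),(⟨0,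
  [(25,0),(6,0)]⟩,⟨0,[(0,0)]⟩),⟨0,[(0,0),(22,0)]⟩,.k,.k,.k,.k,.k,.k,⟨false,0,⟨3,[(3,0),(5,0),(6,3),
  (3,3),(0,3),(5,0),(8,0)]⟩,⟨1,[(14,0),(0,0),(3,1),(2,1)]⟩⟩,⟨true,0,⟨0,[(18,0)]⟩,⟨0,[(30,0)]⟩⟩,
  ⟨false,0,⟨3,[(3,0),(5,0),(10,3),(0,3),(5,0),(8,0)]⟩,⟨0,[(19,0),(2,0)]⟩⟩,⟨true,0,⟨0,[(17,0)]⟩,⟨0,
  [(28,0)]⟩⟩,⟨false,0,⟨0,[]⟩,⟨0,[]⟩⟩,⟨false,0,⟨0,[]⟩,⟨0,[]⟩⟩,[.o ⟨false,1,⟨0,[(9,0),(7,1),(1,0)]⟩,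
  ⟨0,[(20,0),(7,0)]⟩⟩,.e ⟨false,1,⟨1,[(41,0),(0,0),(1,1)]⟩,⟨0,[]⟩⟩ ⟨false,1,⟨0,[(12,0),(5,0),(0,0),
  (2,0)]⟩,⟨6,[(2,0),(0,0),(16,6),(0,6),(6,4),(7,3)]⟩⟩,.o ⟨false,1,⟨1,[(21,1),(11,0),(7,0)]⟩,⟨0,[(22,
  0)]⟩⟩,.a ⟨true,0,⟨0,[(21,0)]⟩,⟨1,[(22,1),(11,0),(0,0),(1,0)]⟩⟩ ⟨true,0,⟨3,[(3,0),(5,0),(17,0),(8,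
  0)]⟩,⟨1,[(29,0),(0,0)]⟩⟩ ⟨false,1,⟨0,[(12,0),(5,0),(0,0),(2,0)]⟩,⟨0,[(20,0),(0,0),(6,
  0)]⟩⟩]⟩))))))) (.Q [0,0,0,0,0,-2,0,0,0,0,1] (.pp false [-1,1]) (.S ⟨1,0,[0,1,-1,-1],[1,-1],[0,0,
  -1,-1],(⟨0,[(29,0)]⟩,⟨0,[(30,0)]⟩),⟨0,[(0,0)]⟩,.k,(.r (-1) ⟨0,[(3,0),(28,0)]⟩ ⟨6,[(5,7),(3,5),(12,
  1),(2,1),(5,1)]⟩),⟨false,1,⟨0,[(37,0),(1,0)]⟩,⟨0,[]⟩⟩,⟨true,0,⟨0,[(39,0)]⟩,⟨0,[]⟩⟩,⟨true,0,⟨0,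
  [(35,0)]⟩,⟨0,[(34,0)]⟩⟩,⟨false,0,⟨0,[(35,0)]⟩,⟨0,[(34,0),(2,0)]⟩⟩,[.a ⟨true,0,⟨0,[(34,0)]⟩,⟨0,[(1,
  0),(30,0),(4,0)]⟩⟩ ⟨false,1,⟨1,[(3,0),(28,0),(3,0)]⟩,⟨6,[(5,3),(3,2),(12,0),(2,0),(5,0)]⟩⟩ ⟨true,
  0,⟨0,[(33,0)]⟩,⟨0,[(1,0),(35,0)]⟩⟩,.o ⟨false,1,⟨5,[(3,1),(4,1),(13,1),(5,0),(8,0)]⟩,⟨0,[(35,0)]⟩⟩,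
  .a ⟨true,0,⟨1,[(24,0),(0,0)]⟩,⟨1,[(29,0),(0,0),(1,0)]⟩⟩ ⟨false,1,⟨1,[(3,0),(28,0),(4,0)]⟩,⟨6,[(5,
  3),(3,2),(12,0),(2,0),(5,0)]⟩⟩ ⟨true,0,⟨0,[(33,0)]⟩,⟨6,[(5,3),(3,2),(12,0),(2,0),(5,0)]⟩⟩,.a
  ⟨true,0,⟨0,[(24,0),(0,0)]⟩,⟨0,[(32,0)]⟩⟩ ⟨true,1,⟨1,[(3,0),(28,0),(3,0)]⟩,⟨0,[(1,0)]⟩⟩ ⟨false,1,
  ⟨1,[(3,0),(28,0),(3,0)]⟩,⟨0,[(1,0),(35,0)]⟩⟩]⟩) (.Q [0,-1,1,-1,1,0,0,0,0,0,-1] (.pp true [-1,1])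
  (.R ⟨0,false,false,true,[1,-1],[0,1],[1,1],(⟨0,[(30,0)]⟩,⟨0,[(31,0)]⟩),(⟨0,[(31,0)]⟩,⟨0,[(30,
  0)]⟩),⟨0,[(1,0)]⟩,.k,.k,(.r (-1) ⟨0,[(4,0),(28,0)]⟩ ⟨6,[(6,7),(3,5),(12,1),(2,1),(5,1)]⟩),(.r
  (-1) ⟨0,[(4,0),(28,0)]⟩ ⟨6,[(6,7),(3,5),(12,1),(2,1),(5,1)]⟩),.k,.k,⟨false,1,⟨1,[(4,0),(28,0),(3,
  0)]⟩,⟨6,[(6,3),(3,2),(12,0),(2,0),(5,0)]⟩⟩,⟨true,0,⟨0,[(33,0)]⟩,⟨0,[(0,0),(1,0)]⟩⟩,⟨false,0,⟨6,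
  [(6,3),(3,2),(12,0),(2,0),(5,0)]⟩,⟨1,[(4,0),(28,0),(4,0)]⟩⟩,⟨true,(-1),⟨0,[(2,0),(30,0),(2,0)]⟩,
  ⟨0,[(4,0)]⟩⟩,⟨false,0,⟨0,[]⟩,⟨0,[]⟩⟩,⟨false,0,⟨0,[]⟩,⟨0,[]⟩⟩,[.e ⟨false,0,⟨2,[(8,0),(3,0),(19,
  0)]⟩,⟨0,[(38,0),(1,0)]⟩⟩ ⟨false,0,⟨2,[(6,0),(3,0),(21,1),(0,2),(2,0)]⟩,⟨0,[(0,0)]⟩⟩,.o ⟨false,0,
  ⟨0,[(36,0)]⟩,⟨7,[(0,1),(3,1),(4,1),(13,1),(5,0),(7,0)]⟩⟩,.e ⟨false,0,⟨0,[]⟩,⟨0,[(38,0),(1,0)]⟩⟩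
  ⟨false,0,⟨7,[(6,3),(3,3),(19,0),(0,0),(0,1),(0,6)]⟩,⟨0,[(0,0)]⟩⟩,.a ⟨true,0,⟨0,[(25,0),(0,0)]⟩,⟨0,
  [(33,0)]⟩⟩ ⟨true,0,⟨2,[(8,0),(3,0),(19,0)]⟩,⟨1,[(25,0),(0,0)]⟩⟩ ⟨false,0,⟨0,[(33,0),(2,0)]⟩,⟨1,
  [(0,1),(24,0),(0,0)]⟩⟩]⟩) (.Q [0,0,3,0,0,0,0,0,0,0,-1] (.pp true [-1,1]) (.R ⟨0,false,false,false,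
  [1,-1],[0,1],[1],(⟨0,[(31,0)]⟩,⟨0,[(32,0)]⟩),(⟨0,[(32,0)]⟩,⟨0,[(31,0)]⟩),⟨0,[(2,0)]⟩,.k,.k,(.r
  (-1) ⟨0,[(5,0),(28,0)]⟩ ⟨6,[(7,7),(3,5),(12,1),(2,1),(5,1)]⟩),(.r (-1) ⟨0,[(5,0),(28,0)]⟩ ⟨6,[(7,
  7),(3,5),(12,1),(2,1),(5,1)]⟩),.k,.k,⟨false,1,⟨1,[(5,0),(28,0),(3,0)]⟩,⟨6,[(7,3),(3,2),(12,0),(2,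
  0),(5,0)]⟩⟩,⟨true,0,⟨0,[(34,0)]⟩,⟨0,[(0,0)]⟩⟩,⟨true,0,⟨6,[(7,3),(3,2),(12,0),(2,0),(5,0)]⟩,⟨0,
  [(35,0)]⟩⟩,⟨false,0,⟨0,[(7,0),(3,0),(22,0)]⟩,⟨0,[(5,0)]⟩⟩,⟨false,0,⟨0,[]⟩,⟨0,[]⟩⟩,⟨false,0,⟨0,[]⟩,
  ⟨0,[]⟩⟩,[.o ⟨false,0,⟨0,[(37,0)]⟩,⟨7,[(0,1),(4,3),(24,0),(7,2)]⟩⟩,.a ⟨true,0,⟨2,[(1,1),(1,0),(27,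
  0),(0,0),(6,2)]⟩,⟨0,[(36,0)]⟩⟩ ⟨false,1,⟨1,[(38,0),(0,0)]⟩,⟨0,[(41,0)]⟩⟩ ⟨true,0,⟨0,[(1,0),(37,
  0)]⟩,⟨0,[(0,0),(34,0)]⟩⟩,.a ⟨true,0,⟨1,[(26,0),(0,0)]⟩,⟨1,[(31,0),(0,0),(1,0)]⟩⟩ ⟨true,0,⟨0,[]⟩,
  ⟨0,[(41,0)]⟩⟩ ⟨false,0,⟨0,[(1,0),(37,0)]⟩,⟨2,[(0,0),(4,0),(4,0),(13,0),(14,0),(1,0)]⟩⟩,.a ⟨true,0,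
  ⟨0,[(26,0),(0,0)]⟩,⟨0,[(34,0)]⟩⟩ ⟨false,1,⟨1,[(38,0),(0,0)]⟩,⟨1,[(26,0),(0,0)]⟩⟩ ⟨true,0,⟨1,[(1,
  1),(36,0),(0,0)]⟩,⟨0,[(0,0),(34,0)]⟩⟩]⟩) (.I [1,0,2,2,-1,0,0,1] (.I [1,-1,0,1,0,0,0,1] (.R ⟨2,
  true,false,false,[0,1],[1,0,0,0,-1],[0,0,1,0,0,0,0,0,-1],(⟨0,[]⟩,⟨0,[]⟩),(⟨0,[(24,0)]⟩,⟨0,[(25,
  0)]⟩),⟨0,[]⟩,.k,.k,.k,.k,.k,.k,⟨true,0,⟨1,[(28,0),(0,0)]⟩,⟨0,[]⟩⟩,⟨false,1,⟨1,[(20,1),(11,0),(7,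
  0)]⟩,⟨1,[(21,1),(11,0),(0,0),(1,0)]⟩⟩,⟨true,1,⟨0,[(18,0),(2,0),(16,0)]⟩,⟨0,[(3,0),(4,0),(7,0),(2,
  0),(0,0)]⟩⟩,⟨false,2,⟨5,[(7,1),(4,1),(5,5),(7,1),(5,0),(8,0)]⟩,⟨2,[(3,1),(1,0),(13,2),(13,0),(0,
  0)]⟩⟩,⟨false,1,⟨0,[(18,0),(2,0)]⟩,⟨7,[(2,0),(0,0),(15,7),(0,7),(11,0),(2,2),(1,0)]⟩⟩,⟨true,1,⟨0,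
  [(8,0),(7,0),(1,0)]⟩,⟨2,[(3,1),(1,0),(13,2),(13,0),(0,0),(3,2)]⟩⟩,[]⟩) (.Q [0,-1,0,0,0,0,2,2,0,0,
  1,-2] (.p false [0,0,1] [1,0,-1] (⟨0,[(31,0)]⟩,⟨0,[(30,0)]⟩) .k 2 (⟨0,[(30,0)]⟩,⟨0,[(31,0)]⟩) .k
  (.r 0 ⟨0,[(13,0),(0,0)]⟩ ⟨1,[(0,1),(8,1),(30,0),(0,0)]⟩)) (.R ⟨1,true,false,true,[0,0,1],[1,0,-1],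
  [0,1,1,0,0,0,0,-1],(⟨0,[(32,0)]⟩,⟨0,[(31,0)]⟩),(⟨0,[(31,0)]⟩,⟨0,[(32,0)]⟩),⟨0,[(24,0)]⟩,.k,.k,.k,
  .k,(.r (-1) ⟨5,[(0,1),(7,1),(5,2),(0,4),(14,3),(10,3)]⟩ ⟨0,[(1,0),(2,0),(1,0),(2,0),(8,0),(23,
  1)]⟩),.k,⟨true,0,⟨1,[(29,0),(0,0)]⟩,⟨0,[]⟩⟩,⟨false,1,⟨1,[(11,1),(0,1),(1,0),(0,0)]⟩,⟨0,[(29,1),(7,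
  0)]⟩⟩,⟨true,0,⟨0,[(1,0),(8,0)]⟩,⟨1,[(12,1),(1,0),(0,0)]⟩⟩,⟨false,1,⟨0,[(11,0)]⟩,⟨0,[(0,0)]⟩⟩,
  ⟨false,0,⟨0,[(1,0),(2,0),(1,0),(2,0),(8,0),(23,1)]⟩,⟨1,[(14,0),(0,2),(26,1)]⟩⟩,⟨true,0,⟨0,[(7,
  0)]⟩,⟨0,[(0,0),(38,0)]⟩⟩,[]⟩) (.Q [0,0,0,-1,0,0,2,2,0,0,1,-2] (.p false [0,0,1] [1,0,-1] (⟨0,[(32,
  0)]⟩,⟨0,[(31,0)]⟩) .k 2 (⟨0,[(31,0)]⟩,⟨0,[(32,0)]⟩) .k (.r 0 ⟨0,[(14,0),(0,0)]⟩ ⟨1,[(1,1),(8,1),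
  (30,0),(0,0)]⟩)) (.R ⟨1,true,false,true,[0,0,1],[1,1,-1],[1,1,1,1,0,0,0,-1],(⟨0,[(33,0)]⟩,⟨0,[(32,
  0)]⟩),(⟨0,[(32,0),(3,0)]⟩,⟨0,[(25,0)]⟩),⟨0,[(25,0)]⟩,.k,.k,.k,(.r (-1) ⟨7,[(0,1),(8,1),(5,4),(0,
  6),(14,3),(10,4),(0,0)]⟩ ⟨1,[(1,0),(0,0),(2,0),(1,0),(3,0),(7,1),(23,1)]⟩),(.r (-1) ⟨0,[(16,1),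
  (26,0)]⟩ ⟨0,[(11,1)]⟩),.k,⟨true,0,⟨0,[]⟩,⟨1,[(30,0),(0,0)]⟩⟩,⟨false,1,⟨0,[(12,0),(0,1)]⟩,⟨1,[(30,
  3),(4,0),(0,0),(1,0)]⟩⟩,⟨false,0,⟨1,[(1,0),(0,0),(2,0),(1,0),(3,0),(7,1),(23,1)]⟩,⟨1,[(15,0),(0,
  2),(26,1)]⟩⟩,⟨true,0,⟨0,[(8,0)]⟩,⟨0,[(0,0)]⟩⟩,⟨true,(-1),⟨0,[(1,0),(3,0),(1,0),(11,1),(23,0)]⟩,⟨7,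
  [(0,1),(8,1),(5,0),(0,10),(14,3),(10,0),(0,4)]⟩⟩,⟨false,0,⟨15,[(1,13),(1,11),(0,7),(3,7),(10,11),
  (14,0),(8,10)]⟩,⟨7,[(0,9),(1,1),(6,0),(4,1),(16,1),(6,0),(4,4)]⟩⟩,[]⟩) (.I [1,0,-2,-2,1,0,0,-1]
  (.N [0,2,1] 1 ⟨0,[(4,0)]⟩ ⟨0,[(0,0)]⟩ (.x 0 ⟨1,[(7,0),(17,1),(5,1),(7,2)]⟩ ⟨2,[(1,0),(2,2),(5,2),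
  (4,0),(17,2),(1,1),(0,5)]⟩)) (.R ⟨2,true,false,false,[0,1],[1,0,0,0,-1],[0,0,1,0,0,0,0,0,-1],(⟨0,
  []⟩,⟨0,[]⟩),(⟨0,[(27,0)]⟩,⟨0,[(28,0)]⟩),⟨0,[]⟩,.k,.k,.k,.k,.k,.k,⟨true,0,⟨1,[(31,0),(0,0)]⟩,⟨0,
  []⟩⟩,⟨false,1,⟨1,[(23,1),(11,0),(7,0)]⟩,⟨1,[(24,1),(11,0),(0,0),(1,0)]⟩⟩,⟨true,1,⟨0,[(21,0),(2,0),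
  (16,0)]⟩,⟨0,[(6,0),(4,0),(7,0),(2,0),(0,0)]⟩⟩,⟨false,2,⟨5,[(10,1),(4,1),(5,5),(7,1),(5,0),(8,0)]⟩,
  ⟨2,[(6,1),(1,0),(13,2),(13,0),(0,0)]⟩⟩,⟨false,1,⟨0,[(21,0),(2,0)]⟩,⟨7,[(5,0),(0,0),(15,7),(0,7),
  (11,0),(2,2),(1,0)]⟩⟩,⟨true,1,⟨0,[(11,0),(7,0),(1,0)]⟩,⟨2,[(6,1),(1,0),(13,2),(13,0),(0,0),(3,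
  2)]⟩⟩,[]⟩))))) (.Q [0,0,0,-1,0,0,2,2,0,0,1,-2] (.p false [0,0,1] [1,0,-1] (⟨0,[(30,0)]⟩,⟨0,[(29,
  0)]⟩) .k 2 (⟨0,[(29,0)]⟩,⟨0,[(30,0)]⟩) .k (.r 0 ⟨0,[(12,0),(0,0)]⟩ ⟨2,[(0,1),(7,3),(31,0),(1,
  1)]⟩)) (.Q [0,1,0,0,-1,0,2,2,0,0,1,-2] (.p false [0,0,1] [1,0,-1] (⟨0,[(31,0)]⟩,⟨0,[(30,0)]⟩) .k
  2 (⟨0,[(30,0)]⟩,⟨0,[(31,0)]⟩) .k (.r 0 ⟨0,[(13,0),(0,0)]⟩ ⟨6,[(0,1),(0,3),(7,9),(0,1),(29,0)]⟩))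
  (.R ⟨1,true,false,true,[0,0,1],[1,0,-1],[0,1,1,0,0,0,0,-1],(⟨0,[(32,0)]⟩,⟨0,[(31,0)]⟩),(⟨0,[(31,
  0)]⟩,⟨0,[(32,0)]⟩),⟨0,[(24,0)]⟩,.k,.k,.k,.k,(.r (-1) ⟨7,[(1,1),(6,1),(5,4),(0,6),(14,3),(10,4),(0,
  0)]⟩ ⟨0,[(2,0),(1,0),(1,1),(2,0),(8,0),(23,1)]⟩),.k,⟨true,0,⟨1,[(29,0),(0,0)]⟩,⟨0,[]⟩⟩,⟨false,1,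
  ⟨1,[(11,1),(0,1),(1,0),(0,0)]⟩,⟨0,[(29,1),(7,0)]⟩⟩,⟨true,0,⟨0,[(2,0),(3,0),(3,0)]⟩,⟨1,[(12,1),(1,
  0),(0,0)]⟩⟩,⟨false,1,⟨0,[(11,0)]⟩,⟨0,[(0,0),(41,0)]⟩⟩,⟨false,0,⟨0,[(2,0),(1,0),(1,1),(2,0),(8,0),
  (23,1)]⟩,⟨1,[(14,0),(0,2),(26,1)]⟩⟩,⟨true,0,⟨0,[(7,0)]⟩,⟨0,[(1,0)]⟩⟩,[]⟩) (.R ⟨1,true,false,true,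
  [0,0,1],[1,1,-1],[1,1,1,1,0,0,0,-1],(⟨0,[(32,0)]⟩,⟨0,[(31,0)]⟩),(⟨0,[(31,0),(3,0)]⟩,⟨0,[(24,0)]⟩),
  ⟨0,[(24,0)]⟩,.k,.k,.k,(.r (-1) ⟨7,[(1,1),(6,1),(5,4),(0,6),(14,3),(10,4),(0,0)]⟩ ⟨0,[(0,0),(3,0),
  (24,1)]⟩),(.r (-1) ⟨0,[(15,1),(26,0)]⟩ ⟨0,[(10,1)]⟩),.k,⟨true,0,⟨0,[]⟩,⟨1,[(29,0),(0,0)]⟩⟩,⟨false,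
  1,⟨0,[(11,0),(0,1)]⟩,⟨1,[(29,3),(4,0),(0,0),(1,0)]⟩⟩,⟨false,0,⟨0,[(0,0),(3,0),(24,1)]⟩,⟨1,[(14,0),
  (0,2),(26,1)]⟩⟩,⟨true,0,⟨0,[(7,0)]⟩,⟨0,[(1,0)]⟩⟩,⟨true,(-1),⟨0,[(0,0),(3,0),(1,0),(11,1)]⟩,⟨7,[(1,
  1),(6,1),(5,0),(0,10),(14,3),(10,0),(0,4)]⟩⟩,⟨false,0,⟨0,[(0,0),(3,0),(4,0),(4,0),(3,0)]⟩,⟨7,[(1,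
  9),(0,1),(10,1),(15,0),(0,2),(11,3)]⟩⟩,[]⟩)) (.R ⟨2,true,false,false,[0,1],[1,0,0,0,-1],[0,0,1,0,
  0,0,0,0,-1],(⟨0,[]⟩,⟨0,[]⟩),(⟨0,[(24,0)]⟩,⟨0,[(25,0)]⟩),⟨0,[]⟩,.k,.k,.k,.k,.k,.k,⟨true,0,⟨1,[(28,
  0),(0,0)]⟩,⟨0,[]⟩⟩,⟨false,1,⟨1,[(20,1),(11,0),(7,0)]⟩,⟨1,[(21,1),(11,0),(0,0),(1,0)]⟩⟩,⟨true,1,⟨0,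
  [(18,0),(2,0),(16,0)]⟩,⟨0,[(3,0),(4,0),(7,0),(2,0),(0,0)]⟩⟩,⟨false,2,⟨5,[(7,1),(4,1),(5,5),(7,1),
  (5,0),(8,0)]⟩,⟨2,[(3,1),(1,0),(13,2),(13,0),(0,0)]⟩⟩,⟨false,1,⟨0,[(18,0),(2,0)]⟩,⟨7,[(2,0),(0,0),
  (15,7),(0,7),(11,0),(2,2),(1,0)]⟩⟩,⟨true,1,⟨0,[(8,0),(7,0),(1,0)]⟩,⟨2,[(3,1),(1,0),(13,2),(13,0),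
  (0,0),(3,2)]⟩⟩,[]⟩))))))) (.I [0,0,-1,-1,0,0,0,2] (.R ⟨0,false,false,false,[1,0,-1],[0,-1,1],[1,0,
  -1,-1,0,0,0,1],(⟨0,[(25,0)]⟩,⟨0,[(26,0)]⟩),(⟨0,[(18,0)]⟩,⟨0,[(25,0),(3,0)]⟩),⟨0,[(17,0)]⟩,.k,.k,
  .k,(.r (-1) ⟨1,[(4,1),(0,0),(17,1),(4,0),(0,0),(5,0)]⟩ ⟨0,[(0,0)]⟩),.k,.k,⟨true,0,⟨0,[]⟩,⟨1,[(23,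
  0),(0,0)]⟩⟩,⟨false,0,⟨0,[(23,1),(7,0)]⟩,⟨4,[(0,1),(4,4),(0,3),(1,1),(21,0)]⟩⟩,⟨true,0,⟨0,[(0,0)]⟩,
  ⟨1,[(4,2),(5,0),(22,0)]⟩⟩,⟨false,0,⟨0,[(1,0)]⟩,⟨0,[(5,0),(28,0)]⟩⟩,⟨false,0,⟨0,[]⟩,⟨0,[]⟩⟩,⟨false,
  0,⟨0,[]⟩,⟨0,[]⟩⟩,[.o ⟨false,0,⟨0,[(1,0),(1,0)]⟩,⟨11,[(4,3),(0,5),(2,3),(18,2),(2,1),(3,3),(0,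
  2)]⟩⟩,.o ⟨false,1,⟨3,[(1,0),(0,0),(18,1),(11,0),(2,2)]⟩,⟨0,[(3,0),(30,0)]⟩⟩,.o ⟨false,1,⟨1,[(24,
  1),(2,0),(7,0)]⟩,⟨0,[(12,0)]⟩⟩,.a ⟨true,0,⟨0,[(24,0)]⟩,⟨0,[(23,0),(7,0)]⟩⟩ ⟨false,1,⟨3,[(0,1),(1,
  0),(24,0),(3,2),(4,1)]⟩,⟨1,[(4,1),(18,0),(0,0)]⟩⟩ ⟨true,0,⟨0,[(1,0),(8,0)]⟩,⟨0,[(3,0),(4,0),(13,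
  0)]⟩⟩]⟩) (.R ⟨0,false,false,false,[1,0,-1],[0,-1,1],[1,0,0,0,0,0,0,-1],(⟨0,[(25,0)]⟩,⟨0,[(26,
  0)]⟩),(⟨0,[(18,0)]⟩,⟨0,[(25,0),(3,0)]⟩),⟨0,[(17,0)]⟩,.k,.k,.k,(.x (-1) ⟨1,[(3,2),(2,2),(0,0),(0,
  0),(16,3),(3,1),(6,0)]⟩ ⟨0,[(12,0),(5,0),(4,0),(2,0)]⟩),.k,.k,⟨true,0,⟨0,[(0,0)]⟩,⟨0,[(1,0),(1,0),
  (2,0),(17,0)]⟩⟩,⟨false,0,⟨4,[(0,3),(0,3),(8,1),(10,1),(9,0)]⟩,⟨1,[(5,1),(0,1),(1,0),(0,0)]⟩⟩,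
  ⟨true,0,⟨0,[]⟩,⟨0,[(38,0)]⟩⟩,⟨false,0,⟨0,[(1,0)]⟩,⟨0,[(5,0),(28,0)]⟩⟩,⟨false,0,⟨0,[]⟩,⟨0,[]⟩⟩,
  ⟨false,0,⟨0,[]⟩,⟨0,[]⟩⟩,[.o ⟨false,0,⟨0,[(1,0),(1,0)]⟩,⟨11,[(4,3),(0,5),(2,3),(18,2),(2,1),(3,3),
  (0,2)]⟩⟩,.o ⟨false,1,⟨3,[(1,0),(0,0),(18,1),(11,0),(2,2)]⟩,⟨0,[(3,0),(30,0)]⟩⟩,.o ⟨false,1,⟨1,
  [(24,1),(2,0),(7,0)]⟩,⟨0,[(12,0)]⟩⟩,.a ⟨true,0,⟨0,[(24,0)]⟩,⟨4,[(0,1),(0,1),(8,0),(10,0),(9,2)]⟩⟩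
  ⟨false,1,⟨0,[(10,0),(25,0)]⟩,⟨0,[(8,0),(24,0)]⟩⟩ ⟨true,0,⟨0,[(1,0),(8,0)]⟩,⟨0,[(3,0),(4,0),(13,
  0)]⟩⟩]⟩))) (.R ⟨2,true,false,true,[0,1],[1,-1],[0,1,0,-1],(⟨0,[]⟩,⟨0,[]⟩),(⟨0,[(26,0)]⟩,⟨0,[(27,
  0)]⟩),⟨0,[]⟩,.k,.k,.k,(.r 0 ⟨6,[(2,7),(3,5),(12,1),(2,1),(5,1)]⟩ ⟨0,[(30,1),(3,0)]⟩),.k,.k,⟨true,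
  0,⟨1,[(21,0),(0,0)]⟩,⟨0,[]⟩⟩,⟨false,1,⟨11,[(3,3),(1,5),(0,5),(12,7),(1,5),(3,0),(8,0)]⟩,⟨0,[(29,
  0)]⟩⟩,⟨false,1,⟨0,[(30,0),(0,0),(2,0)]⟩,⟨3,[(0,1),(1,1),(3,1),(18,0),(8,0)]⟩⟩,⟨true,1,⟨1,[(25,0),
  (5,3),(2,0)]⟩,⟨0,[(0,0)]⟩⟩,⟨true,0,⟨0,[(30,0)]⟩,⟨6,[(2,3),(3,2),(12,0),(2,0),(5,0)]⟩⟩,⟨false,1,⟨1,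
  [(25,0),(5,1),(2,0)]⟩,⟨1,[(0,0),(25,0),(0,0),(6,0)]⟩⟩,[]⟩))) (.I [0,0,-1,-1,0,0,0,1] (.Q [0,0,0,0,
  0,0,0,0,0,0,0,1,-1] (.ed true [1,0,-1,0,1] .k) (.R ⟨0,false,false,true,[1,0,-1],[1,0,-1,0,1],[1,0,
  1],(⟨0,[(23,0)]⟩,⟨0,[(24,0)]⟩),(⟨0,[(18,0),(4,0)]⟩,⟨0,[(0,0)]⟩),⟨0,[(15,0)]⟩,.k,.k,.k,.k,.k,.k,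
  ⟨false,1,⟨1,[(6,0),(0,0),(3,1),(2,1)]⟩,⟨2,[(4,0),(3,3),(3,2),(0,2),(14,0)]⟩⟩,⟨true,0,⟨0,[(14,0)]⟩,
  ⟨0,[(13,0)]⟩⟩,⟨true,0,⟨0,[(6,0),(24,0)]⟩,⟨0,[(8,0)]⟩⟩,⟨false,0,⟨0,[(12,0),(23,0)]⟩,⟨0,[(11,0)]⟩⟩,
  ⟨false,0,⟨0,[]⟩,⟨0,[]⟩⟩,⟨false,0,⟨0,[]⟩,⟨0,[]⟩⟩,[.e ⟨false,0,⟨0,[]⟩,⟨1,[(33,0),(0,0),(1,1)]⟩⟩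
  ⟨false,0,⟨3,[(8,2),(3,3),(7,0),(0,0),(6,1)]⟩,⟨1,[(6,0),(0,0),(3,1)]⟩⟩,.e ⟨false,1,⟨0,[(34,0),(1,
  0)]⟩,⟨2,[(4,0),(3,0),(19,0)]⟩⟩ ⟨false,0,⟨0,[(8,0),(3,0)]⟩,⟨2,[(6,0),(0,0),(3,2),(7,0),(2,0),(5,
  0)]⟩⟩,.o ⟨false,1,⟨1,[(22,1),(2,0),(7,0)]⟩,⟨0,[(10,0)]⟩⟩,.a ⟨true,0,⟨0,[(22,0)]⟩,⟨0,[(21,0),(7,
  0)]⟩⟩ ⟨true,0,⟨0,[]⟩,⟨0,[(36,0)]⟩⟩ ⟨false,0,⟨0,[(8,0),(3,0)]⟩,⟨0,[(6,0),(4,0),(19,0)]⟩⟩]⟩) (.Q [0,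
  1,0,1,1,0,-1,-1,-1,-1,-1,1,1] (.p true [-1,0,1,0,1] [] (⟨0,[(0,0),(14,0),(0,0)]⟩,⟨0,[(17,0),(5,
  0)]⟩) .k 0 (⟨0,[]⟩,⟨0,[]⟩) .k (.r 0 ⟨3,[(4,1),(1,0),(0,0),(4,3),(0,3),(14,1)]⟩ ⟨1,[(8,0),(2,1),(2,
  1),(5,0),(0,0)]⟩)) (.Q [0,0,0,0,1,0,1,1,-1,-1,-1,-1,1] (.p true [0,0,-1,0,1] [1] (⟨0,[(1,0)]⟩,⟨0,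
  [(18,0),(6,0)]⟩) .k 1 (⟨0,[]⟩,⟨0,[]⟩) .k .k) (.R ⟨0,false,false,false,[1,0,0,0,-1],[1,0,1,0,-1],
  [0,1],(⟨0,[(19,0)]⟩,⟨0,[(20,0)]⟩),(⟨0,[(19,0),(6,0)]⟩,⟨0,[(2,0)]⟩),⟨0,[(2,0),(14,0)]⟩,.k,.k,.k,.k,
  .k,.k,⟨false,0,⟨2,[(6,0),(3,3),(3,2),(0,2),(14,0)]⟩,⟨1,[(8,0),(0,0),(3,1),(2,1)]⟩⟩,⟨true,0,⟨0,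
  [(12,0)]⟩,⟨0,[(24,0)]⟩⟩,⟨false,0,⟨2,[(6,0),(3,0),(3,2),(0,2),(14,0)]⟩,⟨0,[(13,0),(2,0)]⟩⟩,⟨true,0,
  ⟨0,[(11,0)]⟩,⟨0,[(22,0)]⟩⟩,⟨false,0,⟨0,[]⟩,⟨0,[]⟩⟩,⟨false,0,⟨0,[]⟩,⟨0,[]⟩⟩,[.o ⟨false,1,⟨0,[(0,
  0)]⟩,⟨0,[(14,0),(7,0)]⟩⟩,.e ⟨false,1,⟨1,[(35,0),(0,0),(1,1)]⟩,⟨0,[]⟩⟩ ⟨false,1,⟨0,[(6,0),(5,0),(0,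
  0),(2,0)]⟩,⟨2,[(6,0),(3,0),(3,2),(0,2),(6,2),(7,0)]⟩⟩,.o ⟨false,1,⟨1,[(15,1),(11,0),(7,0)]⟩,⟨0,
  [(16,0)]⟩⟩,.a ⟨true,0,⟨0,[(15,0)]⟩,⟨1,[(16,1),(11,0),(0,0),(1,0)]⟩⟩ ⟨true,0,⟨2,[(6,0),(3,0),(19,
  0)]⟩,⟨1,[(23,0),(0,0)]⟩⟩ ⟨false,1,⟨0,[(6,0),(5,0),(0,0),(2,0)]⟩,⟨0,[(14,0),(0,0),(6,0)]⟩⟩]⟩) (.R
  ⟨0,false,false,false,[1,0,0,0,-1],[1,0,1,0,-1],[0,1],(⟨0,[(19,0)]⟩,⟨0,[(20,0)]⟩),(⟨0,[(19,0),(6,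
  0)]⟩,⟨0,[(2,0)]⟩),⟨0,[(2,0),(14,0)]⟩,.k,.k,.k,.k,.k,.k,⟨false,0,⟨2,[(6,0),(3,3),(3,2),(0,2),(14,
  0)]⟩,⟨1,[(8,0),(0,0),(3,1),(2,1)]⟩⟩,⟨true,0,⟨0,[(12,0)]⟩,⟨0,[(24,0)]⟩⟩,⟨false,0,⟨2,[(6,0),(3,0),
  (3,2),(0,2),(14,0)]⟩,⟨0,[(13,0),(2,0)]⟩⟩,⟨true,0,⟨0,[(11,0)]⟩,⟨0,[(22,0)]⟩⟩,⟨false,0,⟨0,[]⟩,⟨0,
  []⟩⟩,⟨false,0,⟨0,[]⟩,⟨0,[]⟩⟩,[.e ⟨false,0,⟨2,[(6,0),(3,0),(19,0)]⟩,⟨0,[(36,0),(1,0)]⟩⟩ ⟨false,1,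
  ⟨2,[(1,0),(1,0),(7,1),(0,0),(0,1),(2,2),(4,0),(9,0)]⟩,⟨1,[(0,1),(14,1),(11,0),(7,0)]⟩⟩,.e ⟨false,
  1,⟨1,[(35,0),(0,0),(1,1)]⟩,⟨0,[]⟩⟩ ⟨false,1,⟨0,[(6,0),(5,0),(0,0),(2,0)]⟩,⟨7,[(0,3),(4,1),(8,3),
  (0,7),(11,0),(2,5),(4,0)]⟩⟩,.o ⟨false,1,⟨1,[(15,1),(11,0),(7,0)]⟩,⟨0,[(16,0)]⟩⟩,.a ⟨true,0,⟨0,
  [(15,0)]⟩,⟨1,[(16,1),(11,0),(0,0),(1,0)]⟩⟩ ⟨true,0,⟨2,[(6,0),(3,0),(19,0)]⟩,⟨1,[(23,0),(0,0)]⟩⟩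
  ⟨false,1,⟨0,[(6,0),(5,0),(0,0),(2,0)]⟩,⟨2,[(0,0),(4,0),(8,1),(0,2),(22,1)]⟩⟩]⟩)) (.R ⟨0,false,
  false,false,[1,0,0,0,-1],[1,0,1,0,-1],[0,1],(⟨0,[(18,0)]⟩,⟨0,[(19,0)]⟩),(⟨0,[(18,0),(6,0)]⟩,⟨0,
  [(1,0)]⟩),⟨0,[(1,0),(14,0)]⟩,.k,.k,.k,.k,.k,.k,⟨false,0,⟨2,[(5,0),(3,3),(3,2),(0,2),(14,0)]⟩,⟨1,
  [(7,0),(0,0),(3,1),(2,1)]⟩⟩,⟨true,0,⟨0,[(11,0)]⟩,⟨0,[(23,0)]⟩⟩,⟨false,0,⟨2,[(5,0),(3,0),(3,2),(0,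
  2),(14,0)]⟩,⟨0,[(12,0),(2,0)]⟩⟩,⟨true,0,⟨0,[(10,0)]⟩,⟨0,[(21,0)]⟩⟩,⟨false,0,⟨0,[]⟩,⟨0,[]⟩⟩,⟨false,
  0,⟨0,[]⟩,⟨0,[]⟩⟩,[.e ⟨false,0,⟨2,[(5,0),(3,0),(19,0)]⟩,⟨0,[(35,0),(1,0)]⟩⟩ ⟨false,1,⟨1,[(5,0),(3,
  0),(0,0),(1,1),(2,1),(4,0)]⟩,⟨1,[(0,0),(3,0),(0,0),(3,0),(3,0),(0,1),(6,0),(11,0)]⟩⟩,.e ⟨false,1,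
  ⟨1,[(34,0),(0,0),(1,1)]⟩,⟨0,[]⟩⟩ ⟨false,1,⟨0,[(5,0),(5,0),(0,0),(2,0)]⟩,⟨2,[(5,0),(3,0),(3,2),(0,
  2),(6,2),(7,0)]⟩⟩,.o ⟨false,1,⟨1,[(14,1),(11,0),(7,0)]⟩,⟨0,[(15,0)]⟩⟩,.a ⟨true,0,⟨0,[(14,0)]⟩,⟨1,
  [(15,1),(11,0),(0,0),(1,0)]⟩⟩ ⟨true,0,⟨2,[(5,0),(3,0),(19,0)]⟩,⟨1,[(22,0),(0,0)]⟩⟩ ⟨false,1,⟨0,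
  [(5,0),(5,0),(0,0),(2,0)]⟩,⟨0,[(13,0),(0,0),(6,0)]⟩⟩]⟩))) (.N [0,-1,1] 0 ⟨0,[(1,0)]⟩ ⟨0,[(0,0)]⟩
  .k))) (.I [1,-1,2,1] (.S ⟨1,0,[0,0,0,0,0,0,0,1],[0,0,1],[0,1,1],(⟨0,[(22,0)]⟩,⟨0,[(21,0)]⟩),⟨0,
  [(14,0)]⟩,.k,.k,⟨true,0,⟨0,[(18,0),(0,0)]⟩,⟨0,[(2,0)]⟩⟩,⟨false,1,⟨0,[(32,0),(1,0)]⟩,⟨0,[]⟩⟩,
  ⟨false,0,⟨0,[(0,0),(5,0)]⟩,⟨0,[(5,0),(26,0)]⟩⟩,⟨true,0,⟨0,[(30,0)]⟩,⟨0,[(29,0)]⟩⟩,[.o ⟨false,0,⟨0,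
  [(7,0)]⟩,⟨1,[(18,1),(4,0),(8,0)]⟩⟩,.a ⟨true,0,⟨1,[(1,0),(22,0),(0,0),(6,0)]⟩,⟨0,[(18,0)]⟩⟩ ⟨true,
  0,⟨1,[(19,0),(0,0)]⟩,⟨0,[]⟩⟩ ⟨false,1,⟨1,[(4,0),(0,0),(25,0),(0,0)]⟩,⟨1,[(6,0),(11,0),(0,0)]⟩⟩,.o
  ⟨false,0,⟨0,[(8,0)]⟩,⟨1,[(20,1),(2,0),(7,0)]⟩⟩,.o ⟨false,0,⟨0,[(19,0)]⟩,⟨1,[(2,0),(0,0),(0,0),(13,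
  0),(4,0),(3,0)]⟩⟩]⟩) (.I [1,-1,0,0,0,0,0,2] (.R ⟨0,false,false,false,[1,0,-1],[0,0,1],[1,0,0,0,0,
  0,0,1],(⟨0,[(22,0)]⟩,⟨0,[(23,0)]⟩),(⟨0,[(23,0)]⟩,⟨0,[(22,0)]⟩),⟨0,[(14,0)]⟩,.k,.k,.k,.k,.k,.k,
  ⟨true,0,⟨0,[]⟩,⟨1,[(20,0),(0,0)]⟩⟩,⟨false,0,⟨0,[(9,0),(10,0),(7,0)]⟩,⟨0,[(3,0),(0,0),(0,0),(13,
  0)]⟩⟩,⟨false,0,⟨0,[(0,0)]⟩,⟨0,[(7,0),(11,0),(0,0),(12,0)]⟩⟩,⟨true,(-1),⟨0,[(2,0)]⟩,⟨1,[(19,3),(4,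
  0),(8,0)]⟩⟩,⟨false,0,⟨0,[]⟩,⟨0,[]⟩⟩,⟨false,0,⟨0,[]⟩,⟨0,[]⟩⟩,[.o ⟨false,0,⟨0,[(8,0)]⟩,⟨1,[(19,1),
  (4,0),(8,0)]⟩⟩,.e ⟨false,1,⟨4,[(0,1),(17,0),(2,0),(10,2),(0,1)]⟩,⟨1,[(7,0),(11,0),(0,0)]⟩⟩ ⟨false,
  0,⟨1,[(2,0),(6,1),(18,0),(4,0)]⟩,⟨1,[(19,1),(1,1),(2,0),(7,0)]⟩⟩,.o ⟨false,1,⟨1,[(21,1),(2,0),(7,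
  0)]⟩,⟨0,[(9,0)]⟩⟩,.a ⟨true,0,⟨0,[(21,0)]⟩,⟨0,[(20,0),(7,0)]⟩⟩ ⟨true,0,⟨0,[(3,0)]⟩,⟨0,[(19,0),(0,
  0)]⟩⟩ ⟨false,0,⟨1,[(2,0),(6,1),(18,0),(4,0)]⟩,⟨0,[(4,0),(0,0),(13,0)]⟩⟩]⟩) (.S ⟨1,0,[0,0,0,0,0,0,
  0,1],[0,0,1],[0,1,1],(⟨0,[(23,0)]⟩,⟨0,[(22,0)]⟩),⟨0,[(15,0)]⟩,.k,.k,⟨true,0,⟨1,[(0,0),(19,0),(0,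
  0),(13,0)]⟩,⟨0,[(3,0)]⟩⟩,⟨false,1,⟨0,[(33,0),(1,0)]⟩,⟨0,[]⟩⟩,⟨false,0,⟨0,[(0,0),(4,0)]⟩,⟨0,[(6,0),
  (26,0)]⟩⟩,⟨true,0,⟨0,[(31,0)]⟩,⟨0,[(30,0)]⟩⟩,[.o ⟨false,0,⟨0,[(8,0)]⟩,⟨1,[(19,1),(4,0),(8,0)]⟩⟩,
  .a ⟨true,0,⟨1,[(2,0),(22,0),(0,0),(6,0)]⟩,⟨0,[(19,0)]⟩⟩ ⟨true,0,⟨1,[(20,0),(0,0)]⟩,⟨0,[]⟩⟩ ⟨false,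
  1,⟨1,[(5,0),(0,0),(25,0),(0,0)]⟩,⟨1,[(0,0),(34,0)]⟩⟩,.o ⟨false,0,⟨0,[(9,0)]⟩,⟨1,[(21,1),(2,0),(7,
  0)]⟩⟩,.o ⟨false,0,⟨0,[(20,0)]⟩,⟨1,[(3,0),(0,0),(0,0),(13,0),(4,0),(3,0)]⟩⟩]⟩)))))) (.Q [0,-1,-1,1,
  0,0,1,0,0,0,1,-1] (.p false [0,0,1] [1] (⟨0,[(18,0)]⟩,⟨0,[(17,0)]⟩) .k 1 (⟨0,[]⟩,⟨0,[]⟩) .k .k)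
  (.R ⟨0,false,false,false,[1,0,-1],[0,1],[1,0,1,1],(⟨0,[(18,0)]⟩,⟨0,[(19,0)]⟩),(⟨0,[(22,0)]⟩,⟨0,
  [(21,0)]⟩),⟨0,[(10,0)]⟩,.k,.k,.k,.k,.k,.k,⟨true,0,⟨0,[]⟩,⟨1,[(16,0),(0,0)]⟩⟩,⟨false,0,⟨1,[(0,0),
  (0,0),(2,0),(19,0)]⟩,⟨1,[(17,1),(2,0),(8,0),(1,1)]⟩⟩,⟨true,0,⟨0,[(4,0),(12,0),(9,0)]⟩,⟨0,[(1,
  0)]⟩⟩,⟨false,0,⟨0,[(0,0),(3,0),(12,0)]⟩,⟨1,[(1,1),(15,1),(2,0),(8,0)]⟩⟩,⟨false,0,⟨0,[]⟩,⟨0,[]⟩⟩,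
  ⟨false,0,⟨0,[]⟩,⟨0,[]⟩⟩,[.o ⟨false,0,⟨0,[(27,0)]⟩,⟨1,[(20,0),(5,1),(2,0)]⟩⟩,.e ⟨false,1,⟨0,[(27,
  0),(1,0),(1,0)]⟩,⟨0,[(25,0)]⟩⟩ ⟨false,0,⟨0,[(0,0)]⟩,⟨1,[(17,1),(2,0),(5,1),(1,0)]⟩⟩,.o ⟨false,1,
  ⟨1,[(17,1),(2,0),(7,0)]⟩,⟨0,[(5,0)]⟩⟩,.a ⟨true,0,⟨0,[(17,0)]⟩,⟨0,[(16,0),(7,0)]⟩⟩ ⟨true,0,⟨0,[(27,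
  0)]⟩,⟨0,[(26,0)]⟩⟩ ⟨false,0,⟨0,[(0,0)]⟩,⟨1,[(17,1),(2,0),(5,1),(2,0)]⟩⟩]⟩) (.Q [0,-1,0,1,0,0,0,0,
  0,0,1] (.pp false [-1,1]) (.R ⟨0,false,false,false,[1,0,-1],[0,1],[1,0,1,1],(⟨0,[(19,0)]⟩,⟨0,[(20,
  0)]⟩),(⟨0,[(23,0)]⟩,⟨0,[(22,0)]⟩),⟨0,[(11,0)]⟩,.k,.k,.k,.k,.k,.k,⟨true,0,⟨0,[]⟩,⟨1,[(17,0),(0,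
  0)]⟩⟩,⟨false,0,⟨0,[(6,0),(18,0)]⟩,⟨1,[(18,1),(2,0),(8,0),(1,1)]⟩⟩,⟨true,0,⟨0,[(5,0),(12,0),(9,
  0)]⟩,⟨0,[(2,0)]⟩⟩,⟨false,0,⟨0,[(0,0),(4,0)]⟩,⟨3,[(1,1),(0,1),(13,1),(4,0),(8,2)]⟩⟩,⟨false,0,⟨0,
  []⟩,⟨0,[]⟩⟩,⟨false,0,⟨0,[]⟩,⟨0,[]⟩⟩,[.o ⟨false,0,⟨0,[(28,0)]⟩,⟨1,[(21,0),(5,1),(2,0)]⟩⟩,.a ⟨true,
  0,⟨0,[(0,0)]⟩,⟨0,[(27,0)]⟩⟩ ⟨false,1,⟨1,[(0,1),(20,0),(8,0),(1,1)]⟩,⟨0,[(26,0)]⟩⟩ ⟨true,0,⟨0,[(0,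
  0),(5,0)]⟩,⟨0,[(1,0)]⟩⟩,.o ⟨false,1,⟨1,[(18,1),(2,0),(7,0)]⟩,⟨0,[(6,0)]⟩⟩,.e ⟨true,0,⟨0,[(28,0)]⟩,
  ⟨0,[(27,0)]⟩⟩ ⟨true,0,⟨2,[(0,1),(3,0),(1,1),(8,0),(9,0),(2,0)]⟩,⟨0,[(1,0)]⟩⟩]⟩) (.Q [0,0,0,0,0,0,
  0,0,0,0,0,1,-1] (.ed true [1,0,-1,0,1] .k) (.Q [0,0,0,0,0,0,-1,-1,1,1,-1,1,-1] (.p false [1,0,-1,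
  0,1] [] (⟨0,[(15,0),(4,0)]⟩,⟨0,[(0,0)]⟩) .k 0 (⟨0,[]⟩,⟨0,[]⟩) .k .k) (.R ⟨0,false,false,true,[1,0,
  -1],[1,0,-1,0,1],[0,1,0,0,0,0,0,-1],(⟨0,[(21,0)]⟩,⟨0,[(22,0)]⟩),(⟨0,[(16,0),(4,0)]⟩,⟨0,[(1,0)]⟩),
  ⟨0,[(13,0)]⟩,.k,.k,.k,.k,.k,.k,⟨false,1,⟨2,[(2,0),(6,2),(2,2),(13,0),(0,0),(2,0)]⟩,⟨1,[(0,0),(9,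
  0),(0,1),(5,0),(9,0)]⟩⟩,⟨true,0,⟨0,[(12,0)]⟩,⟨0,[(11,0)]⟩⟩,⟨true,0,⟨0,[(34,0)]⟩,⟨0,[]⟩⟩,⟨false,0,
  ⟨0,[(10,0),(23,0)]⟩,⟨0,[(9,0)]⟩⟩,⟨false,0,⟨0,[]⟩,⟨0,[]⟩⟩,⟨false,0,⟨0,[]⟩,⟨0,[]⟩⟩,[.o ⟨false,0,⟨0,
  [(0,0),(33,0)]⟩,⟨0,[(7,0),(1,0)]⟩⟩,.o ⟨false,0,⟨0,[(0,0)]⟩,⟨0,[(9,0),(7,0)]⟩⟩,.o ⟨false,1,⟨1,[(20,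
  1),(2,0),(7,0)]⟩,⟨0,[(8,0)]⟩⟩,.a ⟨true,0,⟨0,[(20,0)]⟩,⟨0,[(19,0),(7,0)]⟩⟩ ⟨true,0,⟨0,[(6,0)]⟩,⟨0,
  [(7,0),(12,0)]⟩⟩ ⟨false,0,⟨0,[(6,0),(3,0)]⟩,⟨0,[(7,0),(1,0),(10,0)]⟩⟩]⟩) (.I [0,0,-1,-1,0,0,0,-1,
  1] (.K ⟨0,[0,0,1,0,-1],0,0,(⟨0,[(2,0)]⟩,⟨0,[(17,0),(4,0)]⟩),.k,(.r (-1) ⟨0,[(6,0),(3,0),(2,0)]⟩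
  ⟨2,[(0,0),(10,1),(0,1),(6,1),(0,1),(10,3)]⟩),(.r (-1) ⟨0,[(10,0),(2,0),(4,0),(2,0),(9,0)]⟩ ⟨0,[(0,
  0)]⟩),.k,.k,[⟨0,[(13,0),(7,0)]⟩,⟨0,[(9,0),(2,0)]⟩,⟨0,[(11,0),(7,0),(15,0)]⟩,⟨0,[(1,0),(1,0),(27,
  0)]⟩]⟩) (.R ⟨0,false,false,true,[1,0,-1],[1,0,-1,0,1],[1,0,1],(⟨0,[(22,0)]⟩,⟨0,[(23,0)]⟩),(⟨0,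
  [(17,0),(4,0)]⟩,⟨0,[(2,0)]⟩),⟨0,[(14,0)]⟩,.k,.k,.k,.k,.k,.k,⟨false,1,⟨1,[(0,0),(5,0),(3,0),(2,0),
  (19,0)]⟩,⟨2,[(3,0),(3,2),(3,2),(0,2),(14,0),(0,0),(2,0)]⟩⟩,⟨true,0,⟨0,[(13,0)]⟩,⟨0,[(12,0)]⟩⟩,
  ⟨true,0,⟨0,[(8,0),(12,0)]⟩,⟨0,[(7,0)]⟩⟩,⟨false,0,⟨0,[(11,0),(23,0)]⟩,⟨0,[(10,0)]⟩⟩,⟨false,0,⟨0,
  []⟩,⟨0,[]⟩⟩,⟨false,0,⟨0,[]⟩,⟨0,[]⟩⟩,[.o ⟨false,0,⟨0,[(3,0),(7,0),(7,0),(11,0)]⟩,⟨0,[(8,0),(1,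
  0)]⟩⟩,.e ⟨false,1,⟨0,[(33,0),(1,0)]⟩,⟨2,[(3,0),(23,0),(0,0),(2,0)]⟩⟩ ⟨false,0,⟨0,[(7,0),(3,0)]⟩,
  ⟨2,[(0,0),(5,0),(3,1),(1,0),(5,0),(2,0),(10,0)]⟩⟩,.o ⟨false,1,⟨1,[(21,1),(2,0),(7,0)]⟩,⟨0,[(9,
  0)]⟩⟩,.a ⟨true,0,⟨0,[(21,0)]⟩,⟨0,[(20,0),(7,0)]⟩⟩ ⟨true,0,⟨0,[]⟩,⟨0,[(35,0)]⟩⟩ ⟨false,0,⟨0,[(7,0),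
  (3,0)]⟩,⟨4,[(0,1),(0,0),(2,0),(1,0),(3,1),(1,1),(5,0),(2,0),(11,2)]⟩⟩]⟩))) (.Q [0,-1,-1,0,1,0,1,1,
  -1,0,0,-1] (.p false [0,0,1] [] (⟨0,[(21,0)]⟩,⟨0,[(20,0)]⟩) .k 0 (⟨0,[]⟩,⟨0,[]⟩) .k .k) (.R ⟨0,
  false,false,false,[1,0,0,0,-1],[1,0,1,0,-1],[0,1],(⟨0,[(15,0)]⟩,⟨0,[(16,0)]⟩),(⟨0,[(15,0),(6,0)]⟩,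
  ⟨0,[(1,0)]⟩),⟨0,[(1,0),(11,0)]⟩,.k,.k,.k,.k,.k,.k,⟨false,0,⟨2,[(2,0),(3,2),(3,2),(0,2),(14,0),(0,
  0),(2,0)]⟩,⟨0,[(0,0),(19,0)]⟩⟩,⟨true,0,⟨0,[(8,0)]⟩,⟨0,[(20,0)]⟩⟩,⟨false,0,⟨2,[(2,0),(7,2),(0,2),
  (14,0),(0,0),(2,0)]⟩,⟨0,[(9,0),(2,0)]⟩⟩,⟨true,0,⟨0,[(7,0)]⟩,⟨0,[(18,0)]⟩⟩,⟨false,0,⟨0,[]⟩,⟨0,[]⟩⟩,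
  ⟨false,0,⟨0,[]⟩,⟨0,[]⟩⟩,[.o ⟨false,1,⟨0,[(2,0),(4,0),(1,0),(20,0)]⟩,⟨0,[(10,0),(7,0)]⟩⟩,.e ⟨false,
  1,⟨1,[(31,0),(0,0),(1,1)]⟩,⟨0,[]⟩⟩ ⟨false,1,⟨0,[(0,0)]⟩,⟨2,[(2,0),(7,2),(0,2),(6,2),(7,0),(0,0),
  (2,0)]⟩⟩,.o ⟨false,1,⟨1,[(11,1),(11,0),(7,0)]⟩,⟨0,[(12,0)]⟩⟩,.a ⟨true,0,⟨0,[(11,0)]⟩,⟨1,[(12,1),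
  (11,0),(0,0),(1,0)]⟩⟩ ⟨true,0,⟨2,[(2,0),(23,0),(0,0),(2,0)]⟩,⟨1,[(19,0),(0,0)]⟩⟩ ⟨false,1,⟨0,[(0,
  0)]⟩,⟨0,[(10,0),(0,0),(6,0)]⟩⟩]⟩) (.R ⟨0,false,false,false,[1,0,0,0,-1],[1,0,1,0,-1],[1,0,1],(⟨0,
  [(15,0)]⟩,⟨0,[(16,0)]⟩),(⟨0,[(15,0),(6,0)]⟩,⟨0,[(1,0)]⟩),⟨0,[(1,0),(11,0)]⟩,.k,.k,.k,.k,.k,.k,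
  ⟨false,0,⟨1,[(0,1),(7,1),(22,0),(0,0)]⟩,⟨0,[(5,0),(3,0),(2,0),(17,0)]⟩⟩,⟨true,0,⟨0,[(8,0)]⟩,⟨0,
  [(20,0)]⟩⟩,⟨false,0,⟨0,[(10,0),(0,0)]⟩,⟨2,[(2,0),(6,2),(2,2),(13,0),(0,0),(2,0)]⟩⟩,⟨true,0,⟨0,[(7,
  0)]⟩,⟨0,[(18,0)]⟩⟩,⟨false,0,⟨0,[]⟩,⟨0,[]⟩⟩,⟨false,0,⟨0,[]⟩,⟨0,[]⟩⟩,[.o ⟨false,1,⟨0,[(2,0),(4,0),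
  (1,0),(20,0)]⟩,⟨0,[(10,0),(7,0)]⟩⟩,.a ⟨true,1,⟨0,[(7,0),(1,0)]⟩,⟨1,[(0,1),(11,1),(11,0),(0,0),(1,
  0)]⟩⟩ ⟨false,1,⟨0,[(32,0),(1,0)]⟩,⟨2,[(2,0),(23,0),(0,0),(2,0)]⟩⟩ ⟨true,1,⟨0,[(7,0),(1,0),(2,0)]⟩,
  ⟨0,[(0,0)]⟩⟩,.o ⟨false,1,⟨1,[(11,1),(11,0),(7,0)]⟩,⟨0,[(12,0)]⟩⟩,.e ⟨true,0,⟨0,[]⟩,⟨0,[(34,0)]⟩⟩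
  ⟨true,1,⟨2,[(2,0),(4,2),(1,2),(2,2),(13,0),(0,0),(2,0)]⟩,⟨0,[(0,0)]⟩⟩]⟩)))))) (.R ⟨0,false,false,
  false,[1,0,-1],[0,1],[1,0,1,1],(⟨0,[(16,0)]⟩,⟨0,[(17,0)]⟩),(⟨0,[(20,0)]⟩,⟨0,[(19,0)]⟩),⟨0,[(8,
  0)]⟩,.k,.k,.k,.k,.k,.k,⟨true,0,⟨0,[]⟩,⟨1,[(14,0),(0,0)]⟩⟩,⟨false,0,⟨0,[(3,0),(18,0)]⟩,⟨1,[(15,1),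
  (2,0),(8,0),(1,1)]⟩⟩,⟨true,0,⟨0,[(2,0),(12,0),(9,0)]⟩,⟨0,[(0,0),(22,1)]⟩⟩,⟨false,0,⟨0,[(0,0),(1,
  1),(12,0),(6,0)]⟩,⟨1,[(0,1),(14,1),(2,0),(4,3),(3,0)]⟩⟩,⟨false,0,⟨0,[]⟩,⟨0,[]⟩⟩,⟨false,0,⟨0,[]⟩,
  ⟨0,[]⟩⟩,[.o ⟨false,0,⟨0,[(25,0)]⟩,⟨1,[(18,0),(5,1),(2,0)]⟩⟩,.e ⟨false,1,⟨0,[(25,0),(1,0),(1,0)]⟩,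
  ⟨0,[(23,0)]⟩⟩ ⟨false,0,⟨0,[(0,0),(1,0),(19,0)]⟩,⟨1,[(15,1),(2,0),(5,1),(1,0)]⟩⟩,.o ⟨false,1,⟨1,
  [(15,1),(2,0),(7,0)]⟩,⟨0,[(3,0)]⟩⟩,.a ⟨true,0,⟨0,[(15,0)]⟩,⟨0,[(14,0),(7,0)]⟩⟩ ⟨true,0,⟨0,[(25,
  0)]⟩,⟨0,[(24,0)]⟩⟩ ⟨false,0,⟨0,[(0,0),(1,0),(19,0)]⟩,⟨1,[(15,1),(2,0),(5,1),(2,0)]⟩⟩]⟩))

theorem ok0 : chk4 K KFs t0 base = true := by decide +kernel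

open Helper25.KW Helper55.KE in
theorem closed {p a b c J l q : ℤ} {D dl : ℝ} {Cl : ℤ → ℤ → ℤ → ℤ → ℝ → Prop}
    (W : World p a b c J (-1) l q D dl Cl) (g : G0 p a b c J D)
    {N X R : ℤ} {I : ℝ} (hk : KCl p l Cl N X R I) (kz : KF a b D (X + (-1 : ℤ) * I) (X + (-1 : ℤ) * I + R) I)
    {Nw Xw Rw : ℤ} {Iw : ℝ} (hw : KCl p l Cl Nw Xw Rw Iw) (hne : N ≠ Nw)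
    (hU : KU p a b l (-1) Cl (fun _ _ _ => True) N)
    (hN0 : KNo p a b l (-1) Cl (fun X R I => Zx (-1) X R I))
    (hW0 : StN p b l (-1) Cl (fun X' R' I' => 0 < ((X' : ℝ) + (-1 : ℤ) * I') ∧ 0 < (-1) * I' + (Iw)) N Nw)
    (h0 : 1 ≤ (c : ℝ))
    (h1 : 1 ≤ (a : ℝ) - (b : ℝ) - (c : ℝ))
    (h2 : 0 < -2 * (b : ℝ) + D)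
    (h3 : 1 ≤ 2 * (a : ℝ) - (b : ℝ))
    (h4 : 0 < Iw)
    (h5 : 0 < D - Iw)
    (h6 : 0 < -(J : ℝ) + I)
    (h7 : 0 < (J : ℝ) - D + I)
    (h8 : 0 < (Xw : ℝ) - Iw)
    (h9 : 0 < (b : ℝ) - (Xw : ℝ) + Iw)
    (h10 : 0 < -(a : ℝ) + (Rw : ℝ) + (Xw : ℝ) - Iw)
    (h11 : 0 < -(a : ℝ) + (p : ℝ) - (Rw : ℝ) - (Xw : ℝ) + Iw)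
    (h12 : 0 < (X : ℝ) - I)
    (h13 : 0 < (X : ℝ) + (R : ℝ) - I)
    (h14 : 1 ≤ (a : ℝ) - (b : ℝ) - (R : ℝ)) : False := by
  have g1 := g.a2
  have g2 := g.b2
  have g3 := g.pa
  have g4 := g.pb
  have g5 := g.J1
  have g6 := g.JD
  have g7 := g.D2
  have g8 := g.ca
  have g9 := g.ca'
  have k1 := kz.I0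
  have k2 := kz.ID
  have k3 := kz.z1
  have k4 := kz.z2
  have k5 := kz.s1
  have k6 := kz.s2
  have hkf : ∀ kf ∈ KFs, KOk4 p l Cl (-1) (xv [1, a, b, c, p, J, X, R, Rw, Xw] [D, I, Iw]) N Nw kf := by
    have hA1 : evg (xv [1, a, b, c, p, J, X, R, Rw, Xw] [D, I, Iw]) [0, 1] = a := by
      simp only [evg_cons, evg_nil, xv, List.map_cons, List.map_nil, List.cons_append, List.nil_append]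
      push_cast
      ring
    have hB1 : evg (xv [1, a, b, c, p, J, X, R, Rw, Xw] [D, I, Iw]) [0, 0, 1] = b := by
      simp only [evg_cons, evg_nil, xv, List.map_cons, List.map_nil, List.cons_append, List.nil_append]
      push_cast
      ring
    simp only [KFs, List.forall_mem_cons]
    refine ⟨kok4_u hA1 hB1 Nw hU ?_, kok4_no hA1 hB1 N Nw hN0 ?_, kok4_st hB1 hW0 ?_, fun _ h => absurd h (by simp)⟩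
    · intro _ _ _ _ _
      trivial
    · intro X' R' I' _ hg
      simp only [List.forall_mem_cons, List.not_mem_nil, false_imp_iff, implies_true, and_true,
        evg_cons, evg_nil, xv, List.map_cons, List.map_nil, List.cons_append, List.nil_append] at hg
      push_cast at hg
      simp only [Zx, Zp, Zs, Zsp, Zi, ZiD, Zy]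
      push_cast
      linarith
    · intro X' R' I' hg
      simp only [List.forall_mem_cons, List.not_mem_nil, false_imp_iff, implies_true, and_true,
        evg_cons, evg_nil, xv, List.map_cons, List.map_nil, List.cons_append, List.nil_append] at hg
      push_cast at hg ⊢
      refine ⟨?_, ?_⟩ <;> linarith [hg.1, hg.2]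
  push_cast at *
  refine sound4 (val_V W.toBase hk hw hne []) W rfl (Nk := N)
    (fun kf _ _ => ⟨_, rfl⟩) (Nw := Nw) (fun _ _ _ => by simp [NN]) hkf ok0 ?_
  · simp only [base, List.forall_mem_cons, List.not_mem_nil, false_imp_iff, implies_true,
      and_true, hld, xv, evg_cons, evg_nil, List.map_cons, List.map_nil, List.cons_append,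
      List.nil_append, if_true, if_false, Bool.false_eq_true]
    push_cast
    refine ⟨?_, ?_, ?_, ?_, ?_, ?_, ?_, ?_, ?_, ?_, ?_, ?_, ?_, ?_, ?_, ?_, ?_, ?_, ?_, ?_, ?_, ?_, ?_, ?_, ?_, ?_, ?_, ?_, ?_⟩ <;> linarith

end Helper25.S1T.Zpm1SPp
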