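import Pool.Agent.Helper25.KG.C3
import Pool.Agent.Helper25.S1T.Zpp1A_p0
import Pool.Agent.Helper25.S1T.Zpp1A_p1
import Pool.Agent.Helper25.S1T.Zpp1A_p2
import Pool.Agent.Helper25.S1T.Zpp1A_p3

set_option autoImplicit false
set_option linter.all false

namespace Helper25.S1T.Zpp1A

open Helper25.KG Helper11.CT

noncomputable def t6 : Tre :=
  .Q [0,-1,-1,0,2,0,2,1,0,-1,2] (.p true [0,0,1] [1,0,-1] (⟨0,[(20,0)]⟩,⟨0,[(19,0)]⟩) .k 2 (⟨0,[(19,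
  0)]⟩,⟨0,[(20,0)]⟩) .k (.r (-1) ⟨0,[(10,1),(4,1),(14,0)]⟩ ⟨0,[(5,1),(20,1)]⟩)) t4 t5

theorem ok6 : chk3 K KFs t6 l8 = true :=
  chk3_Q (e' := [0,1,1,0,-2,0,-2,-1,0,1,-2]) (by decide +kernel) (by decide +kernel) ok4 ok5

noncomputable def t10 : Tre :=
  .I [1,-1,0,0,1,0,0,2] t8 t9

theorem ok10 : chk3 K KFs t10 r13 = true :=
  chk3_I (e' := [0,1,0,0,-1,0,0,-2]) (by decide +kernel) (by decide +kernel) ok8 ok9

noncomputable def t11 : Tre :=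
  .I [0,0,-2,-2,1,0,0,1] t7 t10

theorem ok11 : chk3 K KFs t11 l12 = true :=
  chk3_I (e' := [1,0,2,2,-1,0,0,-1]) (by decide +kernel) (by decide +kernel) ok7 ok10

noncomputable def t13 : Tre :=
  .Q [0,-1,0,2,0,0,-1,-1,0,0,-1] (.p false [0,0,1] [] (⟨0,[(22,0)]⟩,⟨0,[(21,0)]⟩) .k 0 (⟨0,[]⟩,⟨0,
  []⟩) .k .k) t11 t12

theorem ok13 : chk3 K KFs t13 l11 = true :=
  chk3_Q (e' := [0,1,0,-2,0,0,1,1,0,0,1]) (by decide +kernel) (by decide +kernel) ok11 ok12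

noncomputable def t15 : Tre :=
  .I [1,-1,-1,-2,1] t13 t14

theorem ok15 : chk3 K KFs t15 l10 = true :=
  chk3_I (e' := [0,1,1,2,-1]) (by decide +kernel) (by decide +kernel) ok13 ok14

noncomputable def t17 : Tre :=
  .Q [0,2,0,0,-1,0,0,0,1,0,0,1] (.p true [0,0,0,0,1] [] (⟨0,[(14,0)]⟩,⟨0,[(13,0)]⟩) .k 0 (⟨0,[]⟩,⟨0,
  []⟩) .k .k) t15 t16

theorem ok17 : chk3 K KFs t17 r8 = true :=
  chk3_Q (e' := [0,-2,0,0,1,0,0,0,-1,0,0,-1]) (by decide +kernel) (by decide +kernel) ok15 ok16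

noncomputable def t18 : Tre :=
  .Q [0,0,0,0,0,2,0,0,0,-1,1] (.p true [0,0,1] [1] (⟨0,[(19,0)]⟩,⟨0,[(18,0)]⟩) .k 1 (⟨0,[]⟩,⟨0,[]⟩)
  .k .k) t6 t17

theorem ok18 : chk3 K KFs t18 r7 = true :=
  chk3_Q (e' := [0,0,0,0,0,-2,0,0,0,1,-1]) (by decide +kernel) (by decide +kernel) ok6 ok17

noncomputable def t19 : Tre :=
  .Q [0,0,0,0,0,1,0,0,0,-1,1] (.ed false [0,1,1] .k) t3 t18

theorem ok19 : chk3 K KFs t19 l6 = true :=
  chk3_Q (e' := [0,0,0,0,0,-1,0,0,0,1,-1]) (by decide +kernel) (by decide +kernel) ok3 ok18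

noncomputable def t28 : Tre :=
  .I [0,0,2,0,0,2,1] t26 t27

theorem ok28 : chk3 K KFs t28 l22 = true :=
  chk3_I (e' := [1,0,-2,0,0,-2,-1]) (by decide +kernel) (by decide +kernel) ok26 ok27

noncomputable def t30 : Tre :=
  .Q [0,-1,0,2,0,0,-1,-1,0,0,-1] (.p false [0,0,1] [] (⟨0,[(25,0)]⟩,⟨0,[(24,0)]⟩) .k 0 (⟨0,[]⟩,⟨0,
  []⟩) .k .k) t28 t29

theorem ok30 : chk3 K KFs t30 r21 = true :=
  chk3_Q (e' := [0,1,0,-2,0,0,1,1,0,0,1]) (by decide +kernel) (by decide +kernel) ok28 ok29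

noncomputable def t31 : Tre :=
  .Q [0,-1,0,-1,0,0,0,0,0,1] (.pp false [-1,1]) t25 t30

theorem ok31 : chk3 K KFs t31 l20 = true :=
  chk3_Q (e' := [0,1,0,1,0,0,0,0,0,-1]) (by decide +kernel) (by decide +kernel) ok25 ok30

noncomputable def t33 : Tre :=
  .Q [0,0,2,0,-1,0,0,0,0,1] (.pp false [-1,1]) t31 t32

theorem ok33 : chk3 K KFs t33 r19 = true :=
  chk3_Q (e' := [0,0,-2,0,1,0,0,0,0,-1]) (by decide +kernel) (by decide +kernel) ok31 ok32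

noncomputable def t34 : Tre :=
  .I [0,0,-2,-2,1,0,0,1] t24 t33

theorem ok34 : chk3 K KFs t34 r18 = true :=
  chk3_I (e' := [1,0,2,2,-1,0,0,-1]) (by decide +kernel) (by decide +kernel) ok24 ok33

noncomputable def t35 : Tre :=
  .Q [0,-2,0,0,1,0,0,0,-1,0,0,-1] (.p false [0,0,0,0,1] [] (⟨0,[(15,0)]⟩,⟨0,[(14,0)]⟩) .k 0 (⟨0,[]⟩,
  ⟨0,[]⟩) .k .k) t23 t34

theorem ok35 : chk3 K KFs t35 r17 = true :=
  chk3_Q (e' := [0,2,0,0,-1,0,0,0,1,0,0,1]) (by decide +kernel) (by decide +kernel) ok23 ok34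

noncomputable def t36 : Tre :=
  .I [1,0,1,1,0,0,0,1] t22 t35

theorem ok36 : chk3 K KFs t36 r16 = true :=
  chk3_I (e' := [0,0,-1,-1,0,0,0,-1]) (by decide +kernel) (by decide +kernel) ok22 ok35

noncomputable def t37 : Tre :=
  .I [0,0,1,1,0,0,0,1] t21 t36

theorem ok37 : chk3 K KFs t37 r15 = true :=
  chk3_I (e' := [1,0,-1,-1,0,0,0,-1]) (by decide +kernel) (by decide +kernel) ok21 ok36

noncomputable def t38 : Tre :=
  .Q [0,0,0,0,0,1,0,0,0,-1,1] (.ed false [0,1,1] .k) t20 t37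

theorem ok38 : chk3 K KFs t38 r6 = true :=
  chk3_Q (e' := [0,0,0,0,0,-1,0,0,0,1,-1]) (by decide +kernel) (by decide +kernel) ok20 ok37

noncomputable def t39 : Tre :=
  .Q [0,0,1,0,-1,0,-1,0,0,1,-1] (.p false [0,0,1] [1] (⟨0,[(17,0)]⟩,⟨0,[(16,0)]⟩) .k 1 (⟨0,[]⟩,⟨0,
  []⟩) .k .k) t19 t38

theorem ok39 : chk3 K KFs t39 r5 = true :=
  chk3_Q (e' := [0,0,-1,0,1,0,1,0,0,-1,1]) (by decide +kernel) (by decide +kernel) ok19 ok38

noncomputable def t40 : Tre :=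
  .Q [0,-1,0,0,0,0,0,0,-1,1,0,-1] (.p false [0,0,0,0,1] [1] (⟨0,[(10,0)]⟩,⟨0,[(9,0)]⟩) .k 1 (⟨0,[]⟩,
  ⟨0,[]⟩) .k .k) t2 t39

theorem ok40 : chk3 K KFs t40 r4 = true :=
  chk3_Q (e' := [0,1,0,0,0,0,0,0,1,-1,0,1]) (by decide +kernel) (by decide +kernel) ok2 ok39

noncomputable def t41 : Tre :=
  .I [0,-1,-1,0,1,0,0,1] t1 t40

theorem ok41 : chk3 K KFs t41 r3 = true :=
  chk3_I (e' := [1,1,1,0,-1,0,0,-1]) (by decide +kernel) (by decide +kernel) ok1 ok40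

noncomputable def t42 : Tre :=
  .I [1,1,-1,-1,0,0,0,1] t0 t41

theorem ok42 : chk3 K KFs t42 l2 = true :=
  chk3_I (e' := [0,-1,1,1,0,0,0,-1]) (by decide +kernel) (by decide +kernel) ok0 ok41

noncomputable def t44 : Tre :=
  .Q [0,0,0,0,0,-1,0,0,0,0,1] (.ed false [1,-1,1] .k) t42 t43

theorem ok44 : chk3 K KFs t44 l1 = true :=
  chk3_Q (e' := [0,0,0,0,0,1,0,0,0,0,-1]) (by decide +kernel) (by decide +kernel) ok42 ok43

noncomputable def t51 : Tre :=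
  .Q [0,-1,0,1,0,0,1,1,0,0,1] (.p true [0,0,1] [] (⟨0,[(21,0)]⟩,⟨0,[(20,0)]⟩) .k 0 (⟨0,[]⟩,⟨0,[]⟩)
  .k .k) t49 t50

theorem ok51 : chk3 K KFs t51 r31 = true :=
  chk3_Q (e' := [0,1,0,-1,0,0,-1,-1,0,0,-1]) (by decide +kernel) (by decide +kernel) ok49 ok50

noncomputable def t52 : Tre :=
  .I [0,0,-1,0,1,0,0,-1] t48 t51

theorem ok52 : chk3 K KFs t52 r30 = true :=
  chk3_I (e' := [1,0,1,0,-1,0,0,1]) (by decide +kernel) (by decide +kernel) ok48 ok51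

noncomputable def t53 : Tre :=
  .Q [0,0,0,0,0,1,0,0,0,-1,1] (.ed false [0,1,1] .k) t47 t52

theorem ok53 : chk3 K KFs t53 l29 = true :=
  chk3_Q (e' := [0,0,0,0,0,-1,0,0,0,1,-1]) (by decide +kernel) (by decide +kernel) ok47 ok52

noncomputable def t55 : Tre :=
  .Q [0,0,1,0,-1,0,-1,0,0,1,-1] (.p false [0,0,1] [1] (⟨0,[(18,0)]⟩,⟨0,[(17,0)]⟩) .k 1 (⟨0,[]⟩,⟨0,
  []⟩) .k .k) t53 t54

theorem ok55 : chk3 K KFs t55 r28 = true :=
  chk3_Q (e' := [0,0,-1,0,1,0,1,0,0,-1,1]) (by decide +kernel) (by decide +kernel) ok53 ok54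

noncomputable def t56 : Tre :=
  .Q [0,0,0,0,0,0,1,1,0,-1,1] (.p true [0,0,1] [1] (⟨0,[(17,0)]⟩,⟨0,[(16,0)]⟩) .k 1 (⟨0,[]⟩,⟨0,[]⟩)
  .k .k) t46 t55

theorem ok56 : chk3 K KFs t56 r27 = true :=
  chk3_Q (e' := [0,0,0,0,0,0,-1,-1,0,1,-1]) (by decide +kernel) (by decide +kernel) ok46 ok55

noncomputable def t57 : Tre :=
  .I [0,-1,0,1,1,0,0,-1] t45 t56

theorem ok57 : chk3 K KFs t57 l26 = true :=
  chk3_I (e' := [1,1,0,-1,-1,0,0,1]) (by decide +kernel) (by decide +kernel) ok45 ok56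

noncomputable def t67 : Tre :=
  .I [0,-1,2,2,0,0,0,1] t65 t66

theorem ok67 : chk3 K KFs t67 r41 = true :=
  chk3_I (e' := [1,1,-2,-2,0,0,0,-1]) (by decide +kernel) (by decide +kernel) ok65 ok66

noncomputable def t68 : Tre :=
  .Q [0,0,0,0,0,2,0,0,0,-1,1] (.p true [0,0,1] [1] (⟨0,[(24,0)]⟩,⟨0,[(23,0)]⟩) .k 1 (⟨0,[]⟩,⟨0,[]⟩)
  .k .k) t64 t67

theorem ok68 : chk3 K KFs t68 r40 = true :=
  chk3_Q (e' := [0,0,0,0,0,-2,0,0,0,1,-1]) (by decide +kernel) (by decide +kernel) ok64 ok67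

noncomputable def t69 : Tre :=
  .I [0,-1,2,2] t63 t68

theorem ok69 : chk3 K KFs t69 l39 = true :=
  chk3_I (e' := [1,1,-2,-2]) (by decide +kernel) (by decide +kernel) ok63 ok68

noncomputable def t71 : Tre :=
  .I [1,1,-2,-1] t69 t70

theorem ok71 : chk3 K KFs t71 r38 = true :=
  chk3_I (e' := [0,-1,2,1]) (by decide +kernel) (by decide +kernel) ok69 ok70

noncomputable def t72 : Tre :=
  .Q [0,0,2,0,-1,0,0,0,0,1] (.pp false [-1,1]) t62 t71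

theorem ok72 : chk3 K KFs t72 r37 = true :=
  chk3_Q (e' := [0,0,-2,0,1,0,0,0,0,-1]) (by decide +kernel) (by decide +kernel) ok62 ok71

noncomputable def t73 : Tre :=
  .I [0,-1,1,1,0,0,0,1] t61 t72

theorem ok73 : chk3 K KFs t73 l36 = true :=
  chk3_I (e' := [1,1,-1,-1,0,0,0,-1]) (by decide +kernel) (by decide +kernel) ok61 ok72

noncomputable def t75 : Tre :=
  .I [1,1,-1,-2] t73 t74

theorem ok75 : chk3 K KFs t75 r35 = true :=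
  chk3_I (e' := [0,-1,1,2]) (by decide +kernel) (by decide +kernel) ok73 ok74

noncomputable def t76 : Tre :=
  .Q [0,0,0,0,0,1,0,0,0,-1,1] (.ed false [0,1,1] .k) t60 t75

theorem ok76 : chk3 K KFs t76 r34 = true :=
  chk3_Q (e' := [0,0,0,0,0,-1,0,0,0,1,-1]) (by decide +kernel) (by decide +kernel) ok60 ok75

noncomputable def t77 : Tre :=
  .I [0,0,-1,0,0,0,0,1] t59 t76

theorem ok77 : chk3 K KFs t77 r33 = true :=
  chk3_I (e' := [1,0,1,0,0,0,0,-1]) (by decide +kernel) (by decide +kernel) ok59 ok76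

noncomputable def t78 : Tre :=
  .Q [0,-1,0,1,0,0,-1,-1,0,1,-1] (.p false [0,0,1] [1] (⟨0,[(16,0)]⟩,⟨0,[(15,0)]⟩) .k 1 (⟨0,[]⟩,⟨0,
  []⟩) .k .k) t58 t77

theorem ok78 : chk3 K KFs t78 r26 = true :=
  chk3_Q (e' := [0,1,0,-1,0,0,1,1,0,-1,1]) (by decide +kernel) (by decide +kernel) ok58 ok77

noncomputable def t79 : Tre :=
  .I [1,0,-1,-1,0,0,0,1] t57 t78

theorem ok79 : chk3 K KFs t79 l25 = true :=
  chk3_I (e' := [0,0,1,1,0,0,0,-1]) (by decide +kernel) (by decide +kernel) ok57 ok78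

noncomputable def t81 : Tre :=
  .Q [0,0,0,0,0,-1,0,0,0,0,1] (.ed false [1,-1,1] .k) t79 t80

theorem ok81 : chk3 K KFs t81 l24 = true :=
  chk3_Q (e' := [0,0,0,0,0,1,0,0,0,0,-1]) (by decide +kernel) (by decide +kernel) ok79 ok80

noncomputable def t83 : Tre :=
  .Q [0,0,0,-1,0,0,1,1,0,0,1] (.p true [0,0,1] [] (⟨0,[(13,0)]⟩,⟨0,[(12,0)]⟩) .k 0 (⟨0,[]⟩,⟨0,[]⟩)
  .k .k) t81 t82

theorem ok83 : chk3 K KFs t83 r1 = true :=
  chk3_Q (e' := [0,0,0,1,0,0,-1,-1,0,0,-1]) (by decide +kernel) (by decide +kernel) ok81 ok82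

noncomputable def t84 : Tre :=
  .Q [0,0,0,0,0,0,-1,-1,0,0,-1] (.p false [0,0,1] [] (⟨0,[(12,0)]⟩,⟨0,[(11,0)]⟩) .k 0 (⟨0,[]⟩,⟨0,
  []⟩) .k .k) t44 t83

theorem ok84 : chk3 K KFs t84 l0 = true :=
  chk3_Q (e' := [0,0,0,0,0,0,1,1,0,0,1]) (by decide +kernel) (by decide +kernel) ok44 ok83

noncomputable def t86 : Tre :=
  .Q [0,1,0,-1,0,0,1,1,0,0,1] (.p true [0,0,1] [] (⟨0,[(11,0)]⟩,⟨0,[(10,0)]⟩) .k 0 (⟨0,[]⟩,⟨0,[]⟩)
  .k .k) t84 t85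

theorem ok86 : chk3 K KFs t86 base = true :=
  chk3_Q (e' := [0,-1,0,1,0,0,-1,-1,0,0,-1]) (by decide +kernel) (by decide +kernel) ok84 ok85

open Helper25.KW Helper55.KE in
theorem closed {p a b c J l q : ℤ} {D dl : ℝ} {Cl : ℤ → ℤ → ℤ → ℤ → ℝ → Prop}
    (W : World p a b c J 1 l q D dl Cl) (g : G0 p a b c J D)
    {N X R : ℤ} {I : ℝ} (hk : KCl p l Cl N X R I) (kz : KF a b D (X + (1 : ℤ) * I) (X + (1 : ℤ) * I + R) I)
    {Ne Xe : ℤ} {Ie : ℝ} (he : EFac p 1 D Cl (a) Ne Xe Ie)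
    (hE : KZ p a b l 1 Cl (fun X R I => Zx 1 X R I ∧ Zy b 1 D X R I) N
      (fun X R I => (1 : ℤ) * (X + (1 : ℤ) * I + R)) ((1 : ℤ) * (X + (1 : ℤ) * I + R)))
    (h0 : 1 ≤ (c : ℝ))
    (h1 : 1 ≤ (a : ℝ) - (b : ℝ) - (c : ℝ))
    (h2 : 0 < 2 * (b : ℝ) - D)
    (h3 : 1 ≤ 2 * (a : ℝ) - (b : ℝ))
    (h4 : 0 < -(X : ℝ) - I)
    (h5 : 0 < -(b : ℝ) - (X : ℝ) + D - I) : False := by
  have g1 := g.a2
  have g2 := g.b2
  have g3 := g.pa
  have g4 := g.pb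
  have g5 := g.J1
  have g6 := g.JD
  have g7 := g.D2
  have g8 := g.ca
  have g9 := g.ca'
  have k1 := kz.I0
  have k2 := kz.ID
  have k3 := kz.z1
  have k4 := kz.z2
  have k5 := kz.s1
  have k6 := kz.s2
  have e1 := he.I0
  have e2 := he.ID
  have e3 := he.x0
  have e4 := he.xp
  have hkf : ∀ kf ∈ KFs, KOk3 p l Cl 1 (xv [1, a, b, c, p, J, X, R, Xe] [D, I, Ie]) N kf := by
    have hA : evg (xv [1, a, b, c, p, J, X, R, Xe] [D, I, Ie]) [0, 1] = a := by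
      simp only [evg_cons, evg_nil, xv, List.map_cons, List.map_nil, List.cons_append, List.nil_append]
      push_cast
      ring
    have hB : evg (xv [1, a, b, c, p, J, X, R, Xe] [D, I, Ie]) [0, 0, 1] = b := by
      simp only [evg_cons, evg_nil, xv, List.map_cons, List.map_nil, List.cons_append, List.nil_append]
      push_cast
      ring
    simp only [KFs, List.forall_mem_cons]
    refine ⟨kok3_ex hA hB hE ?_ ?_, fun _ h => absurd h (by simp)⟩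
    · intro X' R' I' hg
      simp only [evg_cons, evg_nil, xv, List.map_cons, List.map_nil, List.cons_append, List.nil_append] at hg ⊢
      push_cast at hg ⊢
      linarith
    · intro X' R' I' _ hg
      simp only [List.forall_mem_cons, List.not_mem_nil, false_imp_iff, implies_true, and_true,
        evg_cons, evg_nil, xv, List.map_cons, List.map_nil, List.cons_append, List.nil_append] at hg
      push_cast at hg
      simp only [Zx, Zp, Zs, Zsp, Zi, ZiD, Zy]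
      push_cast
      refine ⟨?_, ?_⟩ <;> linarith [hg.1, hg.2]
  push_cast at *
  refine sound3 (val_E W.toBase hk he (row := [0,1]) (by simp) (by simp) []) W rfl (Nk := N)
    (fun kf _ _ => ⟨_, rfl⟩) hkf ok86 ?_
  · simp only [base, List.forall_mem_cons, List.not_mem_nil, false_imp_iff, implies_true,
      and_true, hld, xv, evg_cons, evg_nil, List.map_cons, List.map_nil, List.cons_append,
      List.nil_append, if_true, if_false, Bool.false_eq_true]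
    push_cast
    refine ⟨?_, ?_, ?_, ?_, ?_, ?_, ?_, ?_, ?_, ?_, ?_, ?_, ?_, ?_, ?_, ?_, ?_, ?_, ?_, ?_, ?_, ?_, ?_, ?_⟩ <;> linarith

end Helper25.S1T.Zpp1A
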