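import Pool.Agent.Helper81.PC.C4N
import Pool.Agent.Helper25.KG.C4
import Pool.Agent.Helper25.KG.C4d

set_option autoImplicit false
set_option linter.all false

namespace Helper25.S1T.Zpp1Ca_r1

open Helper25.KG Helper11.CT

noncomputable def K : Cls :=
  dK 1

noncomputable def KFs : List KF3 :=
  [(3, bx3 ++ [(-1, 0, 0, [0,0,-1,0,0,0,0,0,1])]),
    (0, bx3 ++ [(-1, 0, 0, []), (-1, 0, 0, [0,0,-1,0,0,0,0,0,1])]),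
    (0, bx3 ++ [(0, 0, -1, [0,0,0,0,0,-1,0,0,1]), (-1, 0, 0, [0,0,-1,0,0,0,0,0,1])])]

noncomputable def base : List Con :=
  [(false,[0,0,0,0,0,0,0,0,-1,2]),
  (false,[0,0,-1,0,0,0,-1,0,1,-1]),
  (false,[0,0,0,0,0,0,1,0,0,1]),
  (false,[0,0,0,0,0,1,0,0,-1,1]),
  (false,[0,0,0,0,0,1,0,0,0,-1]),
  (false,[0,1,0,0,0,0,1,1,0,1]),
  (false,[0,1,0,0,0,0,-1,-1,0,-1]),
  (false,[0,0,1,0,0,0,1,0,0,1]),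
  (false,[0,0,1,0,0,0,-1,0,0,-1]),
  (false,[0,0,0,0,0,0,0,0,1,-1]),
  (false,[0,0,0,0,0,0,0,0,0,1]),
  (false,[0,0,0,0,1,0,0,0,-2]),
  (false,[0,0,0,0,0,-1,0,0,1]),
  (true,[0,0,0,0,0,1]),
  (true,[0,2,-1]),
  (false,[0,0,2,0,0,0,0,0,-1]),
  (true,[0,1,-1,-1]),
  (true,[0,1,0,-1]),
  (true,[0,0,0,1]),
  (true,[0,0,-2,0,1]),
  (true,[0,-2,0,0,1]),
  (true,[-1,0,1]),
  (true,[-1,1])]

noncomputable def l0 : List Con := (false, [0,0,0,0,0,0,-1,-1,0,-1]) :: base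

noncomputable def r0 : List Con := (false, [0,0,0,0,0,0,1,1,0,1]) :: base

noncomputable def l1 : List Con := (true, [1,-1,1,0,0,0,0,-1]) :: l0

noncomputable def r1 : List Con := (true, [0,1,-1,0,0,0,0,1]) :: l0

noncomputable def l2 : List Con := (false, [0,1,0,1,0,0,0,0,-1]) :: l1

noncomputable def r2 : List Con := (false, [0,-1,0,-1,0,0,0,0,1]) :: l1

noncomputable def l3 : List Con := (false, [0,1,-1,-1,0,0,0,1,1]) :: l2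

noncomputable def r3 : List Con := (false, [0,-1,1,1,0,0,0,-1,-1]) :: l2

noncomputable def l4 : List Con := (false, [0,0,0,-1,0,0,0,0,1]) :: r3

noncomputable def r4 : List Con := (false, [0,0,0,1,0,0,0,0,-1]) :: r3

noncomputable def l5 : List Con := (false, [0,1,0,0,0,0,2,1,-1,2]) :: r4

noncomputable def r5 : List Con := (false, [0,-1,0,0,0,0,-2,-1,1,-2]) :: r4

noncomputable def l6 : List Con := (true, [0,0,2,1,0,0,0,1]) :: r5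

noncomputable def r6 : List Con := (true, [1,0,-2,-1,0,0,0,-1]) :: r5

noncomputable def l7 : List Con := (false, [0,0,0,0,-1,0,-2,-2,1,-2]) :: r6

noncomputable def r7 : List Con := (false, [0,0,0,0,1,0,2,2,-1,2]) :: r6

noncomputable def l8 : List Con := (false, [0,1,1,0,0,0,2,1,-1,2]) :: l7

noncomputable def r8 : List Con := (false, [0,-1,-1,0,0,0,-2,-1,1,-2]) :: l7

noncomputable def l9 : List Con := (false, [0,0,1,0,0,0,2,0,-1,2]) :: r8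

noncomputable def r9 : List Con := (false, [0,0,-1,0,0,0,-2,0,1,-2]) :: r8

noncomputable def l10 : List Con := (false, [0,0,0,-1,-1,0,-2,-2,2,-2]) :: r9

noncomputable def r10 : List Con := (false, [0,0,0,1,1,0,2,2,-2,2]) :: r9

noncomputable def l11 : List Con := (true, [1,1,0,0,0,0,0,1]) :: r10

noncomputable def r11 : List Con := (true, [0,-1,0,0,0,0,0,-1]) :: r10

noncomputable def l12 : List Con := (false, [0,1,0,0,-1,0,-2,-1,1,-2]) :: r11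

noncomputable def r12 : List Con := (false, [0,-1,0,0,1,0,2,1,-1,2]) :: r11

noncomputable def l13 : List Con := (true, [1,1,0,0,-1,0,0,-1]) :: l12

noncomputable def r13 : List Con := (true, [0,-1,0,0,1,0,0,1]) :: l12

noncomputable def l14 : List Con := (false, [0,1,0,-1,0,0,2,2,0,2]) :: r1

noncomputable def r14 : List Con := (false, [0,-1,0,1,0,0,-2,-2,0,-2]) :: r1

noncomputable def l15 : List Con := (false, [0,0,-2,0,1,0,0,0,-1]) :: l14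

noncomputable def r15 : List Con := (false, [0,0,2,0,-1,0,0,0,1]) :: l14

noncomputable def l16 : List Con := (false, [0,0,0,-1,0,0,1,1,1,1]) :: l15

noncomputable def r16 : List Con := (false, [0,0,0,1,0,0,-1,-1,-1,-1]) :: l15

noncomputable def l17 : List Con := (true, [1,-1,1,1,0,0,0,-1]) :: r16

noncomputable def r17 : List Con := (true, [0,1,-1,-1,0,0,0,1]) :: r16

noncomputable def l18 : List Con := (true, [0,-1,2,1,0,0,0,-1]) :: r17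

noncomputable def r18 : List Con := (true, [1,1,-2,-1,0,0,0,1]) :: r17

noncomputable def l19 : List Con := (false, [0,0,1,0,0,0,2,0,-1,2]) :: r18

noncomputable def r19 : List Con := (false, [0,0,-1,0,0,0,-2,0,1,-2]) :: r18

noncomputable def l20 : List Con := (false, [0,1,0,1,0,0,2,1,-2,2]) :: r19

noncomputable def r20 : List Con := (false, [0,-1,0,-1,0,0,-2,-1,2,-2]) :: r19

noncomputable def l21 : List Con := (false, [0,0,1,0,0,0,2,0,-1,2]) :: r14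

noncomputable def r21 : List Con := (false, [0,0,-1,0,0,0,-2,0,1,-2]) :: r14

noncomputable def l22 : List Con := (false, [0,0,0,-1,0,0,0,0,1]) :: r21

noncomputable def r22 : List Con := (false, [0,0,0,1,0,0,0,0,-1]) :: r21

noncomputable def l23 : List Con := (true, [0,-1,1,1,0,0,0,-1]) :: l22

noncomputable def r23 : List Con := (true, [1,1,-1,-1,0,0,0,1]) :: l22

noncomputable def l24 : List Con := (false, [0,0,0,-1,0,0,1,1,1,1]) :: r23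

noncomputable def r24 : List Con := (false, [0,0,0,1,0,0,-1,-1,-1,-1]) :: r23

noncomputable def l25 : List Con := (true, [0,-1,2,1,0,0,0,-1]) :: r24

noncomputable def r25 : List Con := (true, [1,1,-2,-1,0,0,0,1]) :: r24

noncomputable def l26 : List Con := (true, [0,0,1,1,0,0,0,-1]) :: r0

noncomputable def r26 : List Con := (true, [1,0,-1,-1,0,0,0,1]) :: r0

noncomputable def l27 : List Con := (true, [0,0,0,1,0,0,0,1]) :: l26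

noncomputable def r27 : List Con := (true, [1,0,0,-1,0,0,0,-1]) :: l26

noncomputable def l28 : List Con := (false, [0,0,0,-1,0,0,0,0,1]) :: l27

noncomputable def r28 : List Con := (false, [0,0,0,1,0,0,0,0,-1]) :: l27

noncomputable def l29 : List Con := (true, [0,-1,2,1]) :: r28

noncomputable def r29 : List Con := (true, [1,1,-2,-1]) :: r28

noncomputable def l30 : List Con := (false, [0,0,0,1,0,0,-1,-1,0,-1]) :: l29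

noncomputable def r30 : List Con := (false, [0,0,0,-1,0,0,1,1,0,1]) :: l29

noncomputable def l31 : List Con := (true, [1,1,-2,-1,0,0,0,1]) :: l30

noncomputable def r31 : List Con := (true, [0,-1,2,1,0,0,0,-1]) :: l30

noncomputable def l32 : List Con := (false, [0,1,0,-1,0,0,-1,-1,1,-1]) :: l31

noncomputable def r32 : List Con := (false, [0,-1,0,1,0,0,1,1,-1,1]) :: l31

noncomputable def l33 : List Con := (false, [0,0,0,-1,0,0,1,1,1,1]) :: r32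

noncomputable def r33 : List Con := (false, [0,0,0,1,0,0,-1,-1,-1,-1]) :: r32

noncomputable def l34 : List Con := (false, [0,-1,0,0,1,0,-2,-2,1,-2]) :: r33

noncomputable def r34 : List Con := (false, [0,1,0,0,-1,0,2,2,-1,2]) :: r33

noncomputable def l35 : List Con := (false, [0,0,1,0,0,0,2,0,-1,2]) :: l34

noncomputable def r35 : List Con := (false, [0,0,-1,0,0,0,-2,0,1,-2]) :: l34

noncomputable def l36 : List Con := (false, [0,0,1,0,0,0,2,0,-1,2]) :: r34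

noncomputable def r36 : List Con := (false, [0,0,-1,0,0,0,-2,0,1,-2]) :: r34

noncomputable def l37 : List Con := (false, [0,0,0,0,0,0,2,1,-1,2]) :: r29

noncomputable def r37 : List Con := (false, [0,0,0,0,0,0,-2,-1,1,-2]) :: r29

noncomputable def l38 : List Con := (false, [0,-1,0,0,1,0,-2,-2,1,-2]) :: l37

noncomputable def r38 : List Con := (false, [0,1,0,0,-1,0,2,2,-1,2]) :: l37

noncomputable def l39 : List Con := (false, [0,0,1,0,0,0,2,0,-1,2]) :: l38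

noncomputable def r39 : List Con := (false, [0,0,-1,0,0,0,-2,0,1,-2]) :: l38

noncomputable def l40 : List Con := (false, [0,0,1,0,0,0,2,0,-1,2]) :: r38

noncomputable def r40 : List Con := (false, [0,0,-1,0,0,0,-2,0,1,-2]) :: r38

noncomputable def l41 : List Con := (false, [0,0,0,-1,0,0,-2,-1,2,-2]) :: r37

noncomputable def r41 : List Con := (false, [0,0,0,1,0,0,2,1,-2,2]) :: r37

noncomputable def l42 : List Con := (false, [0,0,0,-1,0,0,-2,-2,2,-2]) :: l41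

noncomputable def r42 : List Con := (false, [0,0,0,1,0,0,2,2,-2,2]) :: l41

noncomputable def l43 : List Con := (false, [0,0,0,0,0,0,-2,-2,1,-2]) :: r42

noncomputable def r43 : List Con := (false, [0,0,0,0,0,0,2,2,-1,2]) :: r42

noncomputable def l44 : List Con := (false, [0,0,1,0,0,0,2,0,-1,2]) :: r43

noncomputable def r44 : List Con := (false, [0,0,-1,0,0,0,-2,0,1,-2]) :: r43

noncomputable def l45 : List Con := (true, [1,-1,1,1,0,0,0,1]) :: r44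

noncomputable def r45 : List Con := (true, [0,1,-1,-1,0,0,0,-1]) :: r44

noncomputable def l46 : List Con := (true, [0,1,-1,-1,0,0,0,-1]) :: r41

noncomputable def r46 : List Con := (true, [1,-1,1,1,0,0,0,1]) :: r41

noncomputable def l47 : List Con := (false, [0,0,0,0,0,0,-2,-2,1,-2]) :: l46

noncomputable def r47 : List Con := (false, [0,0,0,0,0,0,2,2,-1,2]) :: l46

noncomputable def l48 : List Con := (true, [1,0,0,0,0,0,0,-1]) :: l47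

noncomputable def r48 : List Con := (true, [0,0,0,0,0,0,0,1]) :: l47

noncomputable def l49 : List Con := (false, [0,0,1,0,0,0,2,1,-1,2]) :: l48

noncomputable def r49 : List Con := (false, [0,0,-1,0,0,0,-2,-1,1,-2]) :: l48

noncomputable def l50 : List Con := (true, [1,0,0,0,0,0,0,1]) :: r49

noncomputable def r50 : List Con := (true, [0,0,0,0,0,0,0,-1]) :: r49

noncomputable def l51 : List Con := (false, [0,0,1,0,0,0,2,0,-1,2]) :: r50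

noncomputable def r51 : List Con := (false, [0,0,-1,0,0,0,-2,0,1,-2]) :: r50

noncomputable def l52 : List Con := (false, [0,0,1,0,0,0,2,0,-1,2]) :: r47

noncomputable def r52 : List Con := (false, [0,0,-1,0,0,0,-2,0,1,-2]) :: r47

noncomputable def l53 : List Con := (true, [0,0,-1,-1,0,0,0,1]) :: r26

noncomputable def r53 : List Con := (true, [1,0,1,1,0,0,0,-1]) :: r26

noncomputable def l54 : List Con := (false, [0,0,1,0,-1,0,-1,0,2,-1]) :: l53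

noncomputable def r54 : List Con := (false, [0,0,-1,0,1,0,1,0,-2,1]) :: l53

noncomputable def l55 : List Con := (false, [0,1,0,1,0,0,-1,-1,-1,-1]) :: r54

noncomputable def r55 : List Con := (false, [0,-1,0,-1,0,0,1,1,1,1]) :: r54

noncomputable def l56 : List Con := (false, [0,0,0,-1,0,0,-2,-1,2,-2]) :: l55

noncomputable def r56 : List Con := (false, [0,0,0,1,0,0,2,1,-2,2]) :: l55

noncomputable def l57 : List Con := (true, [0,0,2,1,0,0,0,-1]) :: l56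

noncomputable def r57 : List Con := (true, [1,0,-2,-1,0,0,0,1]) :: l56

noncomputable def l58 : List Con := (true, [0,-1,2,1,0,0,0,1]) :: r57

noncomputable def r58 : List Con := (true, [1,1,-2,-1,0,0,0,-1]) :: r57

noncomputable def l59 : List Con := (true, [0,-1,2,1,0,0,0,2]) :: r58

noncomputable def r59 : List Con := (true, [1,1,-2,-1,0,0,0,-2]) :: r58

noncomputable def l60 : List Con := (true, [1,-1,2,1]) :: r56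

noncomputable def r60 : List Con := (true, [0,1,-2,-1]) :: r56

noncomputable def l61 : List Con := (false, [0,-1,0,0,1,0,-2,-2,1,-2]) :: r60

noncomputable def r61 : List Con := (false, [0,1,0,0,-1,0,2,2,-1,2]) :: r60

noncomputable def l62 : List Con := (false, [0,0,1,0,0,0,2,0,-1,2]) :: l61

noncomputable def r62 : List Con := (false, [0,0,-1,0,0,0,-2,0,1,-2]) :: l61

noncomputable def l63 : List Con := (false, [0,1,0,-1,-1,0,2,2,0,2]) :: r62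

noncomputable def r63 : List Con := (false, [0,-1,0,1,1,0,-2,-2,0,-2]) :: r62

noncomputable def l64 : List Con := (true, [0,1,2,1,-1,0,0,1]) :: l63

noncomputable def r64 : List Con := (true, [1,-1,-2,-1,1,0,0,-1]) :: l63

noncomputable def l65 : List Con := (false, [0,0,0,1,0,0,1,1,-2,1]) :: r64

noncomputable def r65 : List Con := (false, [0,0,0,-1,0,0,-1,-1,2,-1]) :: r64

noncomputable def l66 : List Con := (true, [1,1,-1,-1,0,0,0,-1]) :: l65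

noncomputable def r66 : List Con := (true, [0,-1,1,1,0,0,0,1]) :: l65

noncomputable def l67 : List Con := (false, [0,0,0,-1,0,0,0,0,1]) :: r63

noncomputable def r67 : List Con := (false, [0,0,0,1,0,0,0,0,-1]) :: r63

noncomputable def l68 : List Con := (true, [0,0,2,1,0,0,0,-1]) :: l67

noncomputable def r68 : List Con := (true, [1,0,-2,-1,0,0,0,1]) :: l67

noncomputable def l69 : List Con := (false, [0,0,1,0,0,0,2,0,-1,2]) :: r61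

noncomputable def r69 : List Con := (false, [0,0,-1,0,0,0,-2,0,1,-2]) :: r61

noncomputable def l70 : List Con := (false, [0,0,0,-1,0,0,0,0,1]) :: r69

noncomputable def r70 : List Con := (false, [0,0,0,1,0,0,0,0,-1]) :: r69

noncomputable def l71 : List Con := (true, [0,-1,1,1,0,0,0,1]) :: l70

noncomputable def r71 : List Con := (true, [1,1,-1,-1,0,0,0,-1]) :: l70

def HH (Q : List Con) : Prop := Q = l13 ∨ Q = r7 ∨ Q = l20 ∨ Q = r25 ∨ Q = r22 ∨ Q = r35 ∨ Q = r36 ∨ Q = r39 ∨ Q = r40 ∨ Q = r45 ∨ Q = r51 ∨ Q = r52 ∨ Q = r59 ∨ Q = l66 ∨ Q = r68 ∨ Q = r67 ∨ Q = r71 ∨ Q = r70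

noncomputable def t0 : Tre :=
  (.R ⟨0,false,false,true,[0,1,-1],[0,1],[1,1],(⟨0,[(8,0)]⟩,⟨0,[(14,0),(1,0)]⟩),(⟨0,[(17,0)]⟩,⟨0,
  [(16,0)]⟩),⟨0,[(14,0)]⟩,.k,.k,.k,.k,.k,.k,⟨false,1,⟨1,[(20,1),(2,0),(0,0)]⟩,⟨1,[(11,0),(0,0),(9,
  1)]⟩⟩,⟨true,0,⟨0,[(6,0)]⟩,⟨0,[(12,0)]⟩⟩,⟨false,1,⟨1,[(0,1),(14,0),(8,0)]⟩,⟨0,[(2,0),(19,0)]⟩⟩,
  ⟨true,0,⟨0,[(9,0)]⟩,⟨0,[(3,0)]⟩⟩,⟨false,0,⟨0,[]⟩,⟨0,[]⟩⟩,⟨false,0,⟨0,[]⟩,⟨0,[]⟩⟩,[.o ⟨false,0,⟨0,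
  [(1,0)]⟩,⟨0,[(21,0),(2,0)]⟩⟩,.a ⟨true,0,⟨0,[(22,0)]⟩,⟨0,[(0,0),(1,0)]⟩⟩ ⟨true,0,⟨0,[]⟩,⟨1,[(11,0),
  (0,0)]⟩⟩ ⟨false,0,⟨0,[(6,0),(15,0)]⟩,⟨1,[(5,1),(9,0),(5,1),(2,0)]⟩⟩,.o ⟨false,1,⟨0,[(5,0),(9,0)]⟩,
  ⟨0,[(11,0)]⟩⟩,.o ⟨false,1,⟨1,[(12,1),(2,0),(7,0)]⟩,⟨0,[(6,0)]⟩⟩]⟩)

theorem ok0 : chk4 K KFs t0 l3 = true := by decide +kernel

noncomputable def t1 : Tre :=
  (.R ⟨0,false,false,true,[0,1,-1],[0,1],[0,1,1],(⟨0,[(9,0)]⟩,⟨0,[(15,0),(1,0)]⟩),(⟨0,[(18,0)]⟩,⟨0,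
  [(17,0)]⟩),⟨0,[(15,0)]⟩,.k,.k,.k,.k,.k,.k,⟨false,1,⟨1,[(22,1),(1,0),(0,0)]⟩,⟨0,[(23,0)]⟩⟩,⟨true,0,
  ⟨0,[(7,0)]⟩,⟨0,[(13,0)]⟩⟩,⟨false,1,⟨0,[(10,0),(2,0),(7,0),(3,0)]⟩,⟨0,[(1,0),(4,0),(0,0)]⟩⟩,⟨true,
  0,⟨0,[(10,0)]⟩,⟨0,[(4,0)]⟩⟩,⟨false,0,⟨0,[]⟩,⟨0,[]⟩⟩,⟨false,0,⟨0,[]⟩,⟨0,[]⟩⟩,[.o ⟨false,0,⟨0,[(2,
  0)]⟩,⟨0,[(22,0),(2,0)]⟩⟩,.a ⟨true,0,⟨0,[(23,0)]⟩,⟨0,[(0,0)]⟩⟩ ⟨true,0,⟨1,[(12,0),(0,0)]⟩,⟨0,[]⟩⟩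
  ⟨false,0,⟨0,[(7,0),(15,0)]⟩,⟨1,[(6,1),(9,0),(5,1),(2,0)]⟩⟩,.o ⟨false,1,⟨0,[(6,0),(9,0)]⟩,⟨0,[(12,
  0)]⟩⟩,.o ⟨false,1,⟨1,[(13,1),(2,0),(7,0)]⟩,⟨0,[(7,0)]⟩⟩]⟩)

theorem ok1 : chk4 K KFs t1 l4 = true := by decide +kernel

noncomputable def t2 : Tre :=
  (.R ⟨0,false,false,false,[0,0,1],[1,0,-1],[0,1,0,0,0,0,0,1],(⟨0,[(16,0)]⟩,⟨0,[(15,0)]⟩),(⟨0,[(15,
  0)]⟩,⟨0,[(16,0)]⟩),⟨0,[(10,0)]⟩,.k,.k,.k,.k,.k,.k,⟨false,1,⟨1,[(0,1),(6,3),(3,1),(2,1),(2,0),(8,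
  0)]⟩,⟨0,[(2,0),(1,0),(2,0),(0,0),(13,0)]⟩⟩,⟨true,0,⟨0,[(7,0),(6,0)]⟩,⟨0,[(0,0),(3,0)]⟩⟩,⟨true,0,
  ⟨0,[(28,0)]⟩,⟨0,[]⟩⟩,⟨false,0,⟨0,[(4,0),(0,0),(1,0)]⟩,⟨0,[(0,1),(6,0),(6,0),(11,0)]⟩⟩,⟨false,0,⟨0,
  []⟩,⟨0,[]⟩⟩,⟨false,0,⟨0,[]⟩,⟨0,[]⟩⟩,[.o ⟨false,0,⟨0,[(5,0)]⟩,⟨1,[(11,1),(5,0),(8,0)]⟩⟩,.e ⟨false,
  1,⟨1,[(7,1),(3,1),(5,0),(8,0)]⟩,⟨0,[(5,0),(2,0)]⟩⟩ ⟨false,1,⟨0,[(7,0),(4,0),(13,0)]⟩,⟨0,[(0,0)]⟩⟩,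
  .e ⟨true,0,⟨0,[(0,0),(6,0),(6,0)]⟩,⟨0,[(5,0),(2,0)]⟩⟩ ⟨true,0,⟨1,[(4,0),(2,1),(4,0),(1,0)]⟩,⟨0,
  [(0,0)]⟩⟩,.a ⟨true,0,⟨0,[(13,0)]⟩,⟨0,[(7,0)]⟩⟩ ⟨false,1,⟨1,[(7,1),(3,1),(5,0),(8,0)]⟩,⟨0,[(4,
  0)]⟩⟩ ⟨true,0,⟨0,[(5,0),(1,0)]⟩,⟨2,[(0,1),(10,0),(1,0),(7,0)]⟩⟩]⟩)

theorem ok2 : chk4 K KFs t2 l5 = true := by decide +kernel

open Helper55.PC in
noncomputable def t3n : Helper55.PC.Ten :=
  (i 72083987685572612 (r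
  4529172200226559642086503528260262446487250643609289016599371945479084791033497785293661545538492782979431753567580898677279021669388804939084807898015843402466503279173273102309927599955515012993814108378656533700922306649908536331236205490038808413522036215017753255523993946304360031253246951732890086241345447707346154389342719874853493554027141133739992169308936819817489194239883442718590648589108662865193566711809081355695232357762894262302608109275454436022166208)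
  (q 28269768744001164394968147674516198793260492254467351547724831048045821962 (q
  2267794491859932479119342246749306387687877875094438261933954599907428654555682658413497093781426404979460561179757783908614904991969312778
  (r
  89709497789627155879348533528806584310013729857922780518460281451799051517303825390281829343282732482887695982035882662242699406168990996338474874879874494974490761474802793619805195681747655862819673772352442149804500689047266180045620638414507102377050959940282538867456512421233800062741518700588020410740532020667265347738078202674153735267820904600988958936128462550309267830820766604479630528735781434936721825969039524727178408314895833822195056226475532845192489217444995301406840589326754528)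
  (q
  2267794491859932479119972678842577101001464748428746749418523746969207348982668120654800424488642425788624865321059257186588566441355771914
  (r
  163866688689972892225315123402714229668553848318382299995684054354263401908828452070051668832772518375816236304311902910206269256898879057968191048681381613321331569671622202737829400058093400833530822126235958710722294985689755932875774365562294031014920894111830504806560327552926587096078815489763996882242536081879082649208277901443138005437372631860733738746122400434676611856219060861577307913233598050549560673771875231594540352647393294061579450925340548631764848993113127902524671609194013683253460904018656660559328868669697884908942688105501295159211687271705679111000124397587912207635478490476029916813125740657432220137597115418026176)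
  (i 324478944413463240932031524372488 (q
  10136994781443187118055141943124663961904682183018850815699032409734793461866662526905611498472263628513320255715554006585564316880623731427002691629874294061474381834
  (r
  20179764857378393690436721246286186128678366227386838980898624343290147224723636754162046522373589906432355072881925645345590753394598357815241662118716591462684958644621615188302916545971991035948933054641153120301736946509338047652481646430239070447711574839922394669805119982949627810773409891177013055357841191166261720643029256136010684315867518011738279111414433112313936915050436156923509990789810229102631877308121814685304160274015290967108555862750908046032835957539851913989243893210058121697758373285944873254784550453727289929313900065207293337006370542693074902118943964671516079443913047452527923488551331547812995120373020685670734128873253642976)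
  (r
  16692310255902320846960122928937213524274978623581412090480775716636886996301419733479326501375350413060631835031281103006032033472539910840270772972389093886436715691889213106651124963865293629812195310372366801384709032656886102840567372166386564275141090735708415011920030394309920217806759187474999503221641477686343844525564859240863277858388922471897355024712124693957103401510022674857986573208146075415475862609695824406106583844448055260434501474065327834003841152918572304394499967066664269677518207083856547484158284777690248358177541261963927131848644131303469627532800129964115722324406888465572224174061730227840664991441632))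
  (n 96715246178805449903714691)))) (r
  93563634898069207897677915732608389277277174059541207168058188130668053674245903458198098061447770917288292334935062650271821451291801428918117171606578108832487226682358574167929279311209335112887676339390062153397618763461072260258574432371310821226808181325010306105742932592661448685902422326716675569807895614711453234135378990398865856166366753886666129463709760003453577001155788436267255808570192501985922150280042313625098010069072420452321194327172726716461841145404951632905258225065493285576906825579061191138005633990251587000726846674829977918170100568406026972088998818624578272)))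

noncomputable def t3 : Tre := Helper55.PC.toT t3n

theorem ok3 : chk4 K KFs t3 l6 = true :=
  Helper81.PC.chk4N_sound K KFs t3n l6 (by decide +kernel)

open Helper55.PC in
noncomputable def t4n : Helper55.PC.Ten :=
  (i 324478944413463240949625857638440 (r
  1761391536716695121585056136583834140700182796528491888763750348111903019166583141624541184296917594348529752521581385380236787150613561221138332355773663768445364244519142983229483526312629833605274417382066548665641040339649027983375313867249801886145764803320252545426053568684956536220008099954931279833207096383796390175779023840650351080733233611355060105008212988612566718106450035769464796435616204518826082634865563932690259952328960870869502444174557872923855893171703550648981459066272880268361343168)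
  (r
  4022713007614563359119524976962956015375673469498420077435950484565946354650302940866807891463663491109651394383181588326106984007997515056306748217329639928016610800830368892219271675497490977741514846930757121762614284011622222097570840032405150666112103169652317369583727827950396603970942442060676503830070511253571624036768221288939537510569466343892439635735129852091854302432586508612872258852843340658167839709588949086760962920354816755581409043168))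

noncomputable def t4 : Tre := Helper55.PC.toT t4n

theorem ok4 : chk4 K KFs t4 l8 = true :=
  Helper81.PC.chk4N_sound K KFs t4n l8 (by decide +kernel)

noncomputable def t5 : Tre :=
  (.R ⟨0,false,false,false,[0,0,1],[1,0,-1],[1],(⟨0,[(20,0)]⟩,⟨0,[(19,0)]⟩),(⟨0,[(19,0)]⟩,⟨0,[(20,
  0)]⟩),⟨0,[(14,0)]⟩,.k,.k,.k,.k,.k,.k,⟨false,1,⟨1,[(11,1),(3,1),(5,0),(8,0)]⟩,⟨5,[(0,1),(1,1),(5,
  0),(7,0),(0,0),(11,1)]⟩⟩,⟨true,0,⟨0,[(11,0),(6,0)]⟩,⟨0,[(0,0)]⟩⟩,⟨false,0,⟨0,[(0,0),(0,0)]⟩,⟨1,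
  [(15,1),(2,1),(10,0),(0,0)]⟩⟩,⟨true,(-1),⟨0,[(2,0)]⟩,⟨1,[(15,3),(5,0),(8,0)]⟩⟩,⟨false,0,⟨0,[]⟩,⟨0,
  []⟩⟩,⟨false,0,⟨0,[]⟩,⟨0,[]⟩⟩,[.o ⟨false,0,⟨0,[(9,0)]⟩,⟨1,[(15,1),(5,0),(8,0)]⟩⟩,.e ⟨false,1,⟨1,
  [(29,0),(0,0)]⟩,⟨0,[(32,0)]⟩⟩ ⟨false,0,⟨0,[(1,0)]⟩,⟨1,[(15,1),(1,1),(3,0),(7,0)]⟩⟩,.a ⟨true,0,⟨0,
  [(12,0)]⟩,⟨1,[(11,0),(6,0),(3,0),(0,0)]⟩⟩ ⟨true,0,⟨0,[]⟩,⟨0,[(32,0)]⟩⟩ ⟨false,0,⟨0,[(4,0)]⟩,⟨3,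
  [(0,1),(14,3),(5,0),(7,0),(0,1)]⟩⟩,.e ⟨false,1,⟨1,[(29,0),(0,0)]⟩,⟨1,[(17,0),(0,0)]⟩⟩ ⟨false,0,⟨0,
  [(1,0)]⟩,⟨1,[(15,1),(1,1),(3,0),(8,0)]⟩⟩]⟩)

theorem ok5 : chk4 K KFs t5 l9 = true := by decide +kernel

open Helper55.PC in
noncomputable def t6n : Helper55.PC.Ten :=
  (i 324637400738491913740001021394984 (r
  1043269390959194931873620624970398380542964119246278335950686967102644794360068641767661006785795602595958836133306399951639910121262514629329892464884582654109459563363328491006335440772825400343250171253239262434708273221729969298218924971844180977414566008526921000306903750194453322887022387039767969542485740621148473489707171131556661440146884321330074287796306499662037170371615419183380106623445052974479027690854383834248982746024145090337190746439288175115399427767675502897578210049642017943080311934921159272137401944853870987764434183125901400707679774393014720328164629059882959440623729396690192545768961193718229168300768)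
  (r
  39279219944063886014161440763782269957295583179738712117966599553291214004431880933709345640333713597254806716332193358509847402587964566744437299066300522341785010905116424337299833841000089691749063408454039935059194628354449092629863310771616661897770106314964274758611954411506680380208374079835415723914566474876449780182652904512090002908964681637115976997690490773598947110490622942973688990315458318932255810096245528613968574441636413539618551463141139338862716032736929704631265876232881343684407983277683139271372650800382917271782509243031232))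

noncomputable def t6 : Tre := Helper55.PC.toT t6n

theorem ok6 : chk4 K KFs t6 l10 = true :=
  Helper81.PC.chk4N_sound K KFs t6n l10 (by decide +kernel)

noncomputable def t7 : Tre :=
  (.R ⟨0,false,false,false,[1,0,-1],[0,0,1],[0,0,1,0,0,0,0,1],(⟨0,[(21,0)]⟩,⟨0,[(22,0)]⟩),(⟨0,[(22,
  0)]⟩,⟨0,[(21,0)]⟩),⟨0,[(15,0)]⟩,.k,.k,.k,.k,.k,.k,⟨true,0,⟨1,[(19,0),(0,0)]⟩,⟨0,[]⟩⟩,⟨false,1,⟨1,
  [(14,3),(8,0),(7,0)]⟩,⟨1,[(2,1),(16,0),(0,0)]⟩⟩,⟨true,1,⟨0,[(0,0),(16,0),(2,0),(11,0)]⟩,⟨3,[(4,3),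
  (0,2),(1,1),(1,0),(4,4),(2,2),(9,0)]⟩⟩,⟨false,2,⟨1,[(1,0),(15,1),(11,0),(2,2),(1,0)]⟩,⟨0,[(4,
  0)]⟩⟩,⟨false,0,⟨0,[]⟩,⟨0,[]⟩⟩,⟨false,0,⟨0,[]⟩,⟨0,[]⟩⟩,[.o ⟨false,1,⟨1,[(1,0),(27,0),(2,0),(1,0)]⟩,
  ⟨0,[(11,0)]⟩⟩,.e ⟨false,1,⟨0,[(0,0),(31,0)]⟩,⟨10,[(4,1),(0,1),(2,1),(5,6),(3,2),(7,4),(4,1)]⟩⟩
  ⟨false,2,⟨3,[(1,1),(12,1),(4,1),(9,1),(1,2),(0,2)]⟩,⟨0,[(0,0),(3,0)]⟩⟩,.a ⟨true,0,⟨0,[(2,0),(16,
  0)]⟩,⟨0,[(14,0)]⟩⟩ ⟨false,1,⟨0,[(17,0),(2,0),(11,0)]⟩,⟨6,[(4,1),(0,1),(2,0),(0,0),(4,3),(16,1)]⟩⟩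
  ⟨true,1,⟨3,[(1,1),(12,1),(4,1),(9,1),(1,0),(0,0)]⟩,⟨0,[(0,0),(3,0)]⟩⟩,.o ⟨false,0,⟨0,[(20,0)]⟩,⟨1,
  [(14,1),(8,0),(7,0)]⟩⟩]⟩)

theorem ok7 : chk4 K KFs t7 l11 = true := by decide +kernel

noncomputable def t8 : Tre :=
  (.R ⟨0,false,false,false,[1,0,-1],[0,0,1],[0,0,1,0,0,0,0,1],(⟨0,[(23,0)]⟩,⟨0,[(24,0)]⟩),(⟨0,[(24,
  0)]⟩,⟨0,[(23,0)]⟩),⟨0,[(17,0)]⟩,.k,.k,.k,.k,.k,.k,⟨true,0,⟨1,[(21,0),(0,0)]⟩,⟨0,[]⟩⟩,⟨false,1,⟨1,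
  [(16,3),(8,0),(7,0)]⟩,⟨1,[(4,1),(16,0),(0,0)]⟩⟩,⟨true,1,⟨0,[(0,0),(18,0),(2,0)]⟩,⟨3,[(1,2),(4,0),
  (0,2),(1,1),(1,0),(4,7),(12,0)]⟩⟩,⟨false,2,⟨3,[(0,1),(2,1),(15,1),(1,1),(9,1),(1,0),(0,2)]⟩,⟨0,
  [(6,0)]⟩⟩,⟨false,0,⟨0,[]⟩,⟨0,[]⟩⟩,⟨false,0,⟨0,[]⟩,⟨0,[]⟩⟩,[.o ⟨false,1,⟨5,[(0,1),(2,1),(17,1),(3,
  0),(5,1),(1,0)]⟩,⟨0,[(13,0)]⟩⟩,.e ⟨false,1,⟨0,[(0,0)]⟩,⟨10,[(6,1),(0,1),(2,1),(5,6),(3,2),(7,4),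
  (4,1)]⟩⟩ ⟨false,2,⟨3,[(3,1),(12,1),(4,1),(9,1),(1,2),(0,2)]⟩,⟨0,[(1,0)]⟩⟩,.a ⟨true,0,⟨0,[(4,0),
  (16,0)]⟩,⟨0,[(16,0)]⟩⟩ ⟨false,1,⟨1,[(0,1),(20,0),(0,0)]⟩,⟨6,[(6,1),(0,1),(2,0),(0,0),(4,3),(16,
  1)]⟩⟩ ⟨true,1,⟨3,[(3,1),(12,1),(4,1),(9,1),(1,0),(0,0)]⟩,⟨0,[(1,0)]⟩⟩,.o ⟨false,0,⟨0,[(22,0)]⟩,⟨1,
  [(16,1),(8,0),(7,0)]⟩⟩]⟩)

theorem ok8 : chk4 K KFs t8 r13 = true := by decide +kernel

noncomputable def t9 : Tre :=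
  (.R ⟨0,false,false,false,[1,0,-1],[0,0,1],[1,0,0,0,0,0,0,1],(⟨0,[(22,0)]⟩,⟨0,[(23,0)]⟩),(⟨0,[(23,
  0)]⟩,⟨0,[(22,0)]⟩),⟨0,[(16,0)]⟩,.k,.k,.k,.k,.k,.k,⟨true,0,⟨0,[]⟩,⟨1,[(20,0),(0,0)]⟩⟩,⟨false,1,⟨5,
  [(0,3),(5,1),(2,1),(5,0),(4,2),(6,2),(4,1)]⟩,⟨1,[(3,1),(16,0),(0,0)]⟩⟩,⟨true,1,⟨0,[(0,0),(2,0),
  (14,0),(2,0)]⟩,⟨1,[(5,1),(0,0),(3,0),(4,2),(2,0),(9,0)]⟩⟩,⟨false,2,⟨1,[(2,0),(15,1),(11,0),(2,2),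
  (1,0)]⟩,⟨0,[(5,0)]⟩⟩,⟨false,0,⟨0,[]⟩,⟨0,[]⟩⟩,⟨false,0,⟨0,[]⟩,⟨0,[]⟩⟩,[.o ⟨false,1,⟨1,[(2,0),(27,
  0),(2,0),(1,0)]⟩,⟨0,[(12,0)]⟩⟩,.a ⟨true,1,⟨0,[(18,0),(14,0)]⟩,⟨0,[(5,0),(12,0)]⟩⟩ ⟨false,1,⟨0,[(0,
  0),(2,0)]⟩,⟨0,[(15,0),(3,0)]⟩⟩ ⟨true,1,⟨0,[(0,0)]⟩,⟨0,[(5,0),(12,0),(2,0)]⟩⟩,.e ⟨false,1,⟨1,[(0,
  0),(2,0),(14,0),(2,0),(11,0)]⟩,⟨1,[(1,0),(13,0),(3,0)]⟩⟩ ⟨false,1,⟨0,[(0,0)]⟩,⟨1,[(3,0),(3,0),(11,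
  0),(0,0)]⟩⟩,.o ⟨false,0,⟨0,[(21,0)]⟩,⟨10,[(0,6),(5,1),(2,1),(9,2),(4,0),(2,2),(4,2)]⟩⟩]⟩)

theorem ok9 : chk4 K KFs t9 r12 = true := by decide +kernel

noncomputable def t10 : Tre :=
  (.R ⟨0,false,false,true,[0,1,-1],[0,1],[1,1],(⟨0,[(7,0)]⟩,⟨0,[(13,0),(1,0)]⟩),(⟨0,[(16,0)]⟩,⟨0,
  [(15,0)]⟩),⟨0,[(13,0)]⟩,.k,.k,.k,.k,.k,.k,⟨false,1,⟨3,[(0,1),(13,0),(4,1),(2,2)]⟩,⟨1,[(10,0),(0,
  0),(9,1)]⟩⟩,⟨true,0,⟨0,[(5,0)]⟩,⟨0,[(11,0)]⟩⟩,⟨false,1,⟨0,[(0,0),(3,0),(3,0),(5,0)]⟩,⟨0,[(1,0),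
  (19,0)]⟩⟩,⟨true,0,⟨0,[(8,0)]⟩,⟨0,[(2,0)]⟩⟩,⟨false,0,⟨0,[]⟩,⟨0,[]⟩⟩,⟨false,0,⟨0,[]⟩,⟨0,[]⟩⟩,[.e
  ⟨false,0,⟨0,[(19,0),(1,0)]⟩,⟨0,[(23,0),(1,0)]⟩⟩ ⟨false,0,⟨1,[(5,0),(4,0),(6,0),(3,1)]⟩,⟨0,[(0,0),
  (3,0),(9,0)]⟩⟩,.a ⟨true,0,⟨0,[(21,0)]⟩,⟨0,[(0,0),(24,0)]⟩⟩ ⟨true,0,⟨0,[]⟩,⟨1,[(10,0),(0,0)]⟩⟩
  ⟨false,0,⟨0,[(5,0),(15,0)]⟩,⟨1,[(4,1),(9,0),(5,1),(2,0)]⟩⟩,.o ⟨false,1,⟨0,[(4,0),(9,0)]⟩,⟨0,[(10,
  0)]⟩⟩,.o ⟨false,1,⟨1,[(11,1),(2,0),(7,0)]⟩,⟨0,[(5,0)]⟩⟩]⟩)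

theorem ok10 : chk4 K KFs t10 r2 = true := by decide +kernel

noncomputable def t11 : Tre :=
  (.R ⟨0,false,false,true,[1,-1],[1,-1,1],[1,1],(⟨0,[(17,0)]⟩,⟨0,[(18,0)]⟩),(⟨0,[(15,0),(1,0)]⟩,⟨0,
  [(9,0)]⟩),⟨0,[(8,0),(0,0)]⟩,.k,.k,(.r (-1) ⟨0,[(21,1),(3,0)]⟩ ⟨0,[(12,0),(0,0),(9,1)]⟩),.k,.k,.k,
  ⟨false,0,⟨0,[(4,0),(2,0),(15,0)]⟩,⟨0,[(3,0),(18,0),(2,0)]⟩⟩,⟨true,0,⟨0,[(7,0)]⟩,⟨0,[(13,0)]⟩⟩,
  ⟨false,0,⟨1,[(12,0),(0,0),(9,1)]⟩,⟨0,[(21,0),(3,0)]⟩⟩,⟨true,0,⟨0,[(10,0)]⟩,⟨0,[(4,0)]⟩⟩,⟨false,0,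
  ⟨0,[]⟩,⟨0,[]⟩⟩,⟨false,0,⟨0,[]⟩,⟨0,[]⟩⟩,[.o ⟨false,0,⟨1,[(2,0),(19,0)]⟩,⟨1,[(4,1),(11,0),(6,1),(1,
  0)]⟩⟩,.a ⟨true,0,⟨0,[(0,0)]⟩,⟨0,[(4,0),(18,0)]⟩⟩ ⟨true,0,⟨0,[]⟩,⟨1,[(12,0),(0,0)]⟩⟩ ⟨false,1,⟨0,
  [(0,0),(0,0)]⟩,⟨1,[(4,1),(7,0),(0,0),(9,1)]⟩⟩,.o ⟨false,0,⟨1,[(12,0),(0,0)]⟩,⟨1,[(16,0),(7,0)]⟩⟩,
  .o ⟨false,0,⟨0,[(12,0),(0,0)]⟩,⟨0,[(1,0)]⟩⟩]⟩)

theorem ok11 : chk4 K KFs t11 l16 = true := by decide +kernel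

open Helper55.PC in
noncomputable def t12n : Helper55.PC.Ten :=
  (i 324637400738491769607220760018952 (r
  11585324906942736067261382152249192447734197706240712117568460579700554220269828235569037607312340282945157770543079713834161905963054331548147323871074725695350673875435851650257467741724958840381648064583730583766415499109911341516073247242944922628483181298897653458743459177160103063336300147196767021987730814159171869939946155861233816036081480148538886005396852019586688838479628222692358641957446949162008177364799329470494525992756711171310186680553637638055285829387420756042538901404987467368946691895562395964630466289165052986056924524339153084608)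
  (r
  24549578020043095918959055585996409397349782418430806319366670983951521707639946885055990518592168158999602024176042237812795547365823179070792719530790709625174320269629183070520621337131948306956320761821966438998654939643541088165677902519758912113911535195573293650628689768731362223494606731222692143783927495599783490266919853459922830713438234941423945830684965728278759214963265061550720130526659436772524971208985515874346851934322559792222054648147790195685671570407170479097293462188047743730723715540263053351611364015553469787124418163253984))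

noncomputable def t12 : Tre := Helper55.PC.toT t12n

theorem ok12 : chk4 K KFs t12 l17 = true :=
  Helper81.PC.chk4N_sound K KFs t12n l17 (by decide +kernel)

noncomputable def t13 : Tre :=
  (.R ⟨0,false,false,false,[0,0,1],[0,1,-1],[1,1],(⟨0,[(17,0)]⟩,⟨0,[(16,0)]⟩),(⟨0,[(11,0)]⟩,⟨0,[(17,
  0),(1,0)]⟩),⟨0,[(11,0)]⟩,.k,.k,.k,(.r (-1) ⟨5,[(1,3),(2,1),(0,3),(9,3),(10,0),(0,4)]⟩ ⟨2,[(0,1),
  (1,0),(3,0),(1,0),(0,4),(3,1)]⟩),.k,.k,⟨true,0,⟨0,[(1,0)]⟩,⟨0,[(0,0)]⟩⟩,⟨false,1,⟨0,[(3,0),(4,0),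
  (6,0)]⟩,⟨0,[(9,0),(4,0)]⟩⟩,⟨false,0,⟨0,[(6,0),(2,0)]⟩,⟨1,[(5,0),(6,0),(2,0),(11,1)]⟩⟩,⟨true,0,⟨2,
  [(0,0),(1,1),(3,1),(1,1),(0,0),(3,0)]⟩,⟨0,[(4,0)]⟩⟩,⟨false,0,⟨0,[]⟩,⟨0,[]⟩⟩,⟨false,0,⟨0,[]⟩,⟨0,
  []⟩⟩,[.o ⟨false,0,⟨0,[(2,0)]⟩,⟨1,[(4,0),(19,0),(2,1),(1,1)]⟩⟩,.o ⟨false,1,⟨5,[(0,1),(1,3),(12,1),
  (2,0),(7,2),(0,1)]⟩,⟨1,[(4,0),(19,0)]⟩⟩,.a ⟨true,0,⟨0,[(9,0)]⟩,⟨1,[(8,0),(6,0),(3,0),(0,0)]⟩⟩
  ⟨false,0,⟨0,[]⟩,⟨0,[(27,0),(1,0)]⟩⟩ ⟨true,0,⟨6,[(0,0),(1,4),(5,4),(4,0),(1,2),(9,0)]⟩,⟨1,[(4,0),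
  (4,1),(14,0)]⟩⟩,.e ⟨true,0,⟨3,[(2,0),(2,0),(2,0),(0,1),(11,0),(1,0)]⟩,⟨1,[(14,0),(0,0)]⟩⟩ ⟨true,0,
  ⟨0,[(2,0),(5,0)]⟩,⟨1,[(4,0),(9,1),(9,0)]⟩⟩]⟩)

theorem ok13 : chk4 K KFs t13 l18 = true := by decide +kernel

open Helper55.PC in
noncomputable def t14n : Helper55.PC.Ten :=
  (q
  178710159817264092003448453944812760628231577701816097970560072152920536121871610136355475824925931292733934866772962663238860810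
  (r
  372978138483660340946194728325407071618563789947906917581024191660655579701911580007555743730845123193954085880674337955684811001020452531865336995294348634737363338551936951307526459436067391033007965032039505368966025054210368650052921456016433476912243182243154342717695908756931277169485266743526944593367209542816635623297744519931043947674012699470882700456714424007177700777703235068530750682182700309473389245723499673479344026943999063724757611151968067535106272083798438307438784)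
  (r
  110020799813232681576699538523824231674431299361595128499170608178635033021722443249568009652858651652642442232985367213529337434086525840844830075881614831884365789515202074419525030083803271979968892224562595423438073661679693161979358912414271023855003002364539160115948179924829891482259821627261960315639024972312919790856128379550469219814528400028809645588505470409224457514264378815197799645945408794964148283698737582771066889720339413122190091371920729301393702360827822570258899411136))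

noncomputable def t14 : Tre := Helper55.PC.toT t14n

theorem ok14 : chk4 K KFs t14 l19 = true :=
  Helper81.PC.chk4N_sound K KFs t14n l19 (by decide +kernel)

open Helper55.PC in
noncomputable def t15n : Helper55.PC.Ten :=
  (i 324637400738491769642409426812936 (r
  31120429769175215586327745187218305930055105390018774048480450847110858192219733473836943151473539210312405052684885934989059460924506014260965218057990704964688409843113319792815130117890730880232198561631173381323829871226811678297545765286835411398061531331546851760746327136174366319516624884154189567987631801548210337461572252924086000041081930656309609042616428430691615402509255973839404006165908911309244925602795946960201335428668023140518555369136162475212266873632835110647731917862305165459343386954523100845947694859091402033473117631114632125108529445273277805285352128)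
  (r
  33236417269622710339312810250658134738655342530687442931400376031449955759410830165803573700603101350014807114548454246030637481089651118238425425490081888467024657673661129505702086171101373868149380156289979570216141830427233423945718975984312881446073012880087479409552805146114843298238070710830855496566518327995497566609238420522050602524147014324153481470133201099653157845974195472686908612619419788785921965029429976780715755388535386138917662952538668870117803321210352235933066863838381330554768146529177768727208021786597440383158520591480597325896189376958634643750745300877734875834765020100701382496899984536223462621698376330514163576596098727873371780403634643680))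

noncomputable def t15 : Tre := Helper55.PC.toT t15n

theorem ok15 : chk4 K KFs t15 r20 = true :=
  Helper81.PC.chk4N_sound K KFs t15n r20 (by decide +kernel)

noncomputable def t16 : Tre :=
  (.R ⟨0,false,false,true,[1,-1],[1,-1,1],[0,1],(⟨0,[(16,0)]⟩,⟨0,[(17,0)]⟩),(⟨0,[(14,0),(1,0)]⟩,⟨0,
  [(8,0)]⟩),⟨0,[(7,0),(0,0)]⟩,.k,.k,(.r (-1) ⟨0,[(20,1),(3,0)]⟩ ⟨0,[(11,0),(0,0),(9,1)]⟩),.k,.k,.k,
  ⟨false,0,⟨0,[(3,0),(2,0),(15,0)]⟩,⟨0,[(2,0),(18,0),(2,0)]⟩⟩,⟨true,0,⟨0,[(6,0)]⟩,⟨0,[(12,0)]⟩⟩,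
  ⟨false,0,⟨1,[(11,0),(0,0),(9,1)]⟩,⟨0,[(20,0),(3,0)]⟩⟩,⟨true,0,⟨0,[(9,0)]⟩,⟨0,[(3,0)]⟩⟩,⟨false,0,
  ⟨0,[]⟩,⟨0,[]⟩⟩,⟨false,0,⟨0,[]⟩,⟨0,[]⟩⟩,[.o ⟨false,0,⟨1,[(1,0),(19,0)]⟩,⟨1,[(3,1),(11,0),(6,1),(1,
  0)]⟩⟩,.e ⟨false,1,⟨1,[(23,0),(0,0),(1,1)]⟩,⟨0,[]⟩⟩ ⟨false,1,⟨0,[(2,0),(3,0),(13,0),(3,0)]⟩,⟨3,[(0,
  0),(2,1),(6,1),(8,0),(2,3),(1,0)]⟩⟩,.o ⟨false,0,⟨1,[(11,0),(0,0)]⟩,⟨1,[(15,0),(7,0)]⟩⟩,.a ⟨true,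
  (-1),⟨0,[(0,0)]⟩,⟨0,[(23,0)]⟩⟩ ⟨true,0,⟨0,[(20,0),(1,0)]⟩,⟨1,[(11,0),(0,0)]⟩⟩ ⟨false,1,⟨0,[(2,0),
  (3,0),(13,0),(3,0)]⟩,⟨1,[(0,0),(2,1),(15,0),(2,1),(1,0)]⟩⟩]⟩)

theorem ok16 : chk4 K KFs t16 r15 = true := by decide +kernel

open Helper55.PC in
noncomputable def t17n : Helper55.PC.Ten :=
  (q
  2484496168570445105397645835745056262379603432378153802221245754330314100471999954334986359341796389241051391324830990820567202791434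
  (r
  1234087031336832169120430543537100135569855432259380837875355041434602868961063259432175283560986344850848166488244071119539530910667767131431267039366869236666481561225986237485990329080075069119473099724507448718686759431646178128228111217698119774832629877278119704922961435056406336290394307305710721483775550723007231373439019553113070993183331848126634508853137110148961280651768159058031284361679813320447983342380597671384460821810744207280071142152810012896)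
  (q 431382183788441041234860484717027354830248886797098001055843044163594 (r
  28923749125297426350035950871212578253971876027413370895024908164105045048028601710924208186590069719400766454588069625003975103317557448305679499234344778516551178936633079546343044578711961718057724369838523340952995260444533921643389213708535804690384226027361856852186339155560243917813968612947443569994747539115418192989856946065961169609107394532758740331248626578453491103867297816004647650195119772432991955136285373232356869217984622879162237592705704160)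
  (r
  100289633661712500344485711601397440227991592093547089979717429903845526173857623657516030651498303505336200997162574726527663045869268269648810090311187177920891572508096588108323105865750897930868105893206693480867900633526520895142895657530238233640417299611574403693866863572396458301140647636039049747369666781961938015706773130687305452693395377748778992959891123201553770914652021711960302359841236416763993480219691547314245834469742757871382343548485240710580289657044946155169601971331701419006851193587840705061608721386661749782243471130578464750312264533053175354892512)))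

noncomputable def t17 : Tre := Helper55.PC.toT t17n

theorem ok17 : chk4 K KFs t17 l21 = true :=
  Helper81.PC.chk4N_sound K KFs t17n l21 (by decide +kernel)

noncomputable def t18 : Tre :=
  (.R ⟨0,false,false,true,[0,1,-1],[0,1],[1,1],(⟨0,[(10,0)]⟩,⟨0,[(16,0),(1,0)]⟩),(⟨0,[(19,0)]⟩,⟨0,
  [(18,0)]⟩),⟨0,[(16,0)]⟩,.k,.k,.k,.k,.k,.k,⟨false,1,⟨1,[(22,1),(2,0),(0,0)]⟩,⟨1,[(13,0),(0,0),(9,
  1)]⟩⟩,⟨true,0,⟨0,[(8,0)]⟩,⟨0,[(14,0)]⟩⟩,⟨false,1,⟨0,[(4,0),(18,0),(2,0)]⟩,⟨0,[(0,0)]⟩⟩,⟨true,0,⟨0,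
  [(11,0)]⟩,⟨0,[(5,0)]⟩⟩,⟨false,0,⟨0,[]⟩,⟨0,[]⟩⟩,⟨false,0,⟨0,[]⟩,⟨0,[]⟩⟩,[.o ⟨false,0,⟨0,[(3,0),(0,
  1),(3,1),(12,0)]⟩,⟨0,[(23,0),(2,0)]⟩⟩,.a ⟨true,0,⟨0,[(24,0)]⟩,⟨0,[(1,0)]⟩⟩ ⟨true,0,⟨0,[]⟩,⟨1,[(13,
  0),(0,0)]⟩⟩ ⟨false,0,⟨0,[(8,0),(15,0)]⟩,⟨3,[(2,1),(14,0),(5,3),(1,0),(0,1)]⟩⟩,.o ⟨false,1,⟨3,[(2,
  1),(14,2),(7,0)]⟩,⟨0,[(13,0)]⟩⟩,.o ⟨false,1,⟨1,[(14,1),(2,0),(7,0)]⟩,⟨0,[(8,0)]⟩⟩]⟩)

theorem ok18 : chk4 K KFs t18 l23 = true := by decide +kernel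

noncomputable def t19 : Tre :=
  (.R ⟨0,false,false,false,[1,-1],[1,-1,1],[1],(⟨0,[(19,0)]⟩,⟨0,[(20,0)]⟩),(⟨0,[(17,0),(1,0)]⟩,⟨0,
  [(11,0)]⟩),⟨0,[(10,0),(0,0)]⟩,.k,.k,(.r (-1) ⟨0,[(23,1),(3,0)]⟩ ⟨0,[(14,0),(0,0),(9,1)]⟩),.k,.k,
  .k,⟨false,0,⟨3,[(4,1),(4,2),(4,0),(6,0),(3,1)]⟩,⟨3,[(0,3),(2,1),(14,2),(7,0)]⟩⟩,⟨true,0,⟨0,[(9,
  0)]⟩,⟨0,[(15,0)]⟩⟩,⟨true,0,⟨1,[(14,0),(0,0),(9,1)]⟩,⟨0,[(23,0)]⟩⟩,⟨false,1,⟨0,[(12,0),(14,0)]⟩,⟨0,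
  [(6,0)]⟩⟩,⟨false,0,⟨0,[]⟩,⟨0,[]⟩⟩,⟨false,0,⟨0,[]⟩,⟨0,[]⟩⟩,[.a ⟨true,0,⟨0,[(0,0)]⟩,⟨2,[(4,0),(8,0),
  (11,1)]⟩⟩ ⟨true,0,⟨0,[]⟩,⟨1,[(14,0),(0,0)]⟩⟩ ⟨false,1,⟨1,[(1,1),(7,1),(16,0),(0,0)]⟩,⟨5,[(4,1),(8,
  1),(0,2),(0,2),(9,3)]⟩⟩,.o ⟨false,1,⟨1,[(0,1),(17,0),(8,0)]⟩,⟨3,[(4,4),(0,5),(3,5),(11,0),(0,3),
  (0,0)]⟩⟩,.o ⟨false,0,⟨1,[(14,0),(0,0)]⟩,⟨1,[(18,0),(7,0)]⟩⟩,.o ⟨false,0,⟨0,[(14,0),(0,0)]⟩,⟨1,[(1,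
  1),(2,1),(0,1),(3,3),(8,0),(8,0)]⟩⟩]⟩)

theorem ok19 : chk4 K KFs t19 l24 = true := by decide +kernel

noncomputable def t20 : Tre :=
  (.R ⟨0,false,false,false,[1,0,-1],[0,1,-1],[1,1],(⟨0,[(17,0)]⟩,⟨0,[(18,0)]⟩),(⟨0,[(12,0)]⟩,⟨0,
  [(18,0),(1,0)]⟩),⟨0,[(11,0)]⟩,.k,.k,.k,.k,.k,.k,⟨true,0,⟨0,[(2,0)]⟩,⟨0,[(0,0)]⟩⟩,⟨false,1,⟨1,[(1,
  1),(0,1),(7,1),(16,0),(0,0)]⟩,⟨2,[(0,1),(2,1),(0,0),(8,1)]⟩⟩,⟨true,0,⟨1,[(6,0),(6,0),(2,0)]⟩,⟨1,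
  [(5,0),(4,1),(14,0)]⟩⟩,⟨false,1,⟨1,[(19,0),(6,1),(1,0)]⟩,⟨0,[(3,0)]⟩⟩,⟨false,0,⟨0,[]⟩,⟨0,[]⟩⟩,
  ⟨false,0,⟨0,[]⟩,⟨0,[]⟩⟩,[.o ⟨false,0,⟨0,[(1,0)]⟩,⟨0,[(13,0),(11,0),(2,0)]⟩⟩,.o ⟨false,1,⟨11,[(0,
  3),(3,1),(0,3),(13,6),(6,3),(0,2),(0,1)]⟩,⟨0,[(2,0),(12,0)]⟩⟩,.a ⟨true,0,⟨2,[(0,0),(2,0),(0,1),(8,
  0)]⟩,⟨0,[(10,0)]⟩⟩ ⟨false,0,⟨0,[]⟩,⟨0,[(28,0),(1,0)]⟩⟩ ⟨true,0,⟨0,[(1,0),(8,0)]⟩,⟨4,[(2,0),(0,3),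
  (0,0),(8,3),(2,1)]⟩⟩,.o ⟨false,0,⟨0,[(16,0)]⟩,⟨1,[(10,1),(8,0),(7,0)]⟩⟩]⟩)

theorem ok20 : chk4 K KFs t20 l25 = true := by decide +kernel

open Helper55.PC in
noncomputable def t21n : Helper55.PC.Ten :=
  (i 324637400738491913704812354600968 (i 324637400738491913722406687866920 (r
  2256869149466691320268974331698286959096157598379922454812874116433605550187193938376651567796814594691942406861303296396765330773661232783800393741827260917655790940799111203650828013908688649630808206470705999792158851145153073644769762999015434462393960784730485410545516940194140628583603810923472348751814648335322155737773777206761882107987819470719558608511168)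
  (r
  666110201729001670003150134136232564458868450419954455501442382258942190205688972769486673781161677272202387359074461965276165818325946641262192008203256075972702914901975701970495219564597642847367829292351472239229779878214828432570615058091537669514614427782531356396424236911104807245095477339212992195663724626949858828965755459074912591795716699962678473664984239451244643407913152))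
  (r
  533679574915368582081033311230532798507008606960894492716263062748428888724040564186189311094341417568834140866497941809564765399337617255858405132000651956215557160643542549526720167449749780879473683911388185726821901222119497866))

noncomputable def t21 : Tre := Helper55.PC.toT t21n

theorem ok21 : chk4 K KFs t21 l28 = true :=
  Helper81.PC.chk4N_sound K KFs t21n l28 (by decide +kernel)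

noncomputable def t22 : Tre :=
  (.R ⟨0,false,false,false,[1,0,-1],[0,1],[1,1],(⟨0,[(17,0)]⟩,⟨0,[(18,0)]⟩),(⟨0,[(21,0)]⟩,⟨0,[(20,
  0)]⟩),⟨0,[(11,0)]⟩,.k,.k,.k,.k,.k,.k,⟨true,0,⟨0,[(24,0)]⟩,⟨0,[(3,0)]⟩⟩,⟨false,1,⟨1,[(4,1),(5,1),
  (13,1),(2,0),(0,0)]⟩,⟨1,[(0,0),(2,0),(3,0),(1,0),(6,0)]⟩⟩,⟨false,0,⟨0,[(1,0),(1,0)]⟩,⟨3,[(0,1),(1,
  1),(7,3),(8,0),(8,2)]⟩⟩,⟨true,0,⟨0,[(4,0),(2,0)]⟩,⟨0,[(0,0)]⟩⟩,⟨false,0,⟨0,[]⟩,⟨0,[]⟩⟩,⟨false,0,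
  ⟨0,[]⟩,⟨0,[]⟩⟩,[.o ⟨false,0,⟨0,[(4,0)]⟩,⟨3,[(0,1),(12,1),(5,0),(5,1),(2,2)]⟩⟩,.o ⟨false,1,⟨5,[(4,
  1),(0,1),(0,1),(12,1),(7,0),(0,2)]⟩,⟨0,[(25,0)]⟩⟩,.a ⟨true,0,⟨3,[(0,0),(2,0),(3,0),(1,2),(6,0)]⟩,
  ⟨0,[(10,0)]⟩⟩ ⟨false,0,⟨0,[]⟩,⟨7,[(0,1),(2,1),(9,1),(5,0),(7,1),(0,4)]⟩⟩ ⟨true,0,⟨0,[(4,0),(5,
  0)]⟩,⟨4,[(0,3),(0,0),(5,2),(1,0),(6,2)]⟩⟩,.o ⟨false,0,⟨0,[(16,0)]⟩,⟨1,[(10,1),(8,0),(7,0)]⟩⟩]⟩)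

theorem ok22 : chk4 K KFs t22 l32 = true := by decide +kernel

noncomputable def t23 : Tre :=
  (.R ⟨0,false,false,false,[1,-1],[1,-1,1],[0,0,1],(⟨0,[(21,0)]⟩,⟨0,[(22,0)]⟩),(⟨0,[(19,0),(1,0)]⟩,
  ⟨0,[(13,0)]⟩),⟨0,[(12,0),(0,0)]⟩,.k,.k,(.r (-1) ⟨0,[(25,1),(3,0)]⟩ ⟨1,[(4,1),(1,0),(0,0),(15,
  0)]⟩),.k,.k,.k,⟨false,0,⟨0,[(7,0)]⟩,⟨5,[(0,1),(1,3),(14,1),(2,0),(7,2),(0,1)]⟩⟩,⟨true,0,⟨0,[(11,
  0)]⟩,⟨0,[(17,0)]⟩⟩,⟨false,0,⟨0,[(4,0)]⟩,⟨1,[(25,1),(2,0),(0,0)]⟩⟩,⟨true,0,⟨0,[(8,0)]⟩,⟨0,[(15,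
  0)]⟩⟩,⟨false,0,⟨0,[]⟩,⟨0,[]⟩⟩,⟨false,0,⟨0,[]⟩,⟨0,[]⟩⟩,[.a ⟨true,0,⟨0,[(0,0)]⟩,⟨0,[(3,0)]⟩⟩ ⟨true,
  0,⟨1,[(4,0),(21,0)]⟩,⟨0,[]⟩⟩ ⟨false,1,⟨3,[(0,1),(1,1),(8,1),(8,0),(7,1),(0,0)]⟩,⟨1,[(3,0),(3,0),
  (9,0)]⟩⟩,.o ⟨false,1,⟨1,[(0,1),(19,0),(8,0)]⟩,⟨0,[(5,0),(9,0)]⟩⟩,.o ⟨false,0,⟨1,[(4,0),(21,0)]⟩,
  ⟨1,[(20,0),(7,0)]⟩⟩,.o ⟨false,0,⟨0,[(4,0),(21,0)]⟩,⟨3,[(1,1),(1,1),(16,0),(4,3),(2,1),(0,0)]⟩⟩]⟩)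

theorem ok23 : chk4 K KFs t23 l33 = true := by decide +kernel

noncomputable def t24 : Tre :=
  (.R ⟨0,false,false,false,[0,0,1],[1,0,-1],[1,1],(⟨0,[(21,0)]⟩,⟨0,[(20,0)]⟩),(⟨0,[(20,0)]⟩,⟨0,[(21,
  0)]⟩),⟨0,[(15,0)]⟩,.k,.k,.k,.k,.k,.k,⟨false,0,⟨8,[(4,3),(3,3),(7,0),(2,0),(5,1)]⟩,⟨3,[(0,1),(0,1),
  (28,0),(0,0)]⟩⟩,⟨true,0,⟨0,[(12,0),(6,0)]⟩,⟨0,[(0,0)]⟩⟩,⟨true,0,⟨0,[(13,0),(3,0)]⟩,⟨4,[(3,0),(0,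
  0),(5,2),(1,0),(6,2)]⟩⟩,⟨false,1,⟨0,[(1,0)]⟩,⟨8,[(0,1),(2,3),(0,3),(5,9),(15,2)]⟩⟩,⟨false,0,⟨0,
  []⟩,⟨0,[]⟩⟩,⟨false,0,⟨0,[]⟩,⟨0,[]⟩⟩,[.o ⟨false,1,⟨12,[(1,8),(14,4),(5,3),(2,1),(0,0)]⟩,⟨8,[(0,1),
  (2,3),(0,3),(5,0),(15,2)]⟩⟩,.o ⟨false,1,⟨3,[(1,1),(20,0),(8,0)]⟩,⟨10,[(0,1),(2,3),(0,3),(11,2),(8,
  3),(0,4)]⟩⟩,.e ⟨false,0,⟨0,[]⟩,⟨7,[(1,1),(14,3),(5,0),(8,4)]⟩⟩ ⟨false,1,⟨9,[(1,6),(2,0),(3,0),(3,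
  2),(3,1),(2,4),(11,2)]⟩,⟨2,[(0,1),(2,0),(0,0),(5,0)]⟩⟩,.a ⟨true,0,⟨0,[(18,0)]⟩,⟨0,[(12,0)]⟩⟩
  ⟨true,0,⟨2,[(4,0),(0,0),(7,0),(11,0)]⟩,⟨1,[(6,0),(21,0)]⟩⟩ ⟨false,1,⟨3,[(1,1),(10,3),(9,0),(8,
  0)]⟩,⟨8,[(0,4),(2,0),(0,0),(5,6),(15,2)]⟩⟩]⟩)

theorem ok24 : chk4 K KFs t24 l35 = true := by decide +kernel

noncomputable def t25 : Tre :=
  (.R ⟨0,false,false,false,[0,0,1],[1,0,-1],[1],(⟨0,[(21,0)]⟩,⟨0,[(20,0)]⟩),(⟨0,[(20,0)]⟩,⟨0,[(21,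
  0)]⟩),⟨0,[(15,0)]⟩,.k,.k,.k,.k,.k,.k,⟨false,0,⟨7,[(1,0),(1,1),(0,2),(3,0),(3,2),(6,0),(11,0)]⟩,⟨1,
  [(9,1),(18,1),(1,0),(0,0)]⟩⟩,⟨true,0,⟨0,[(12,0),(6,0)]⟩,⟨0,[(0,0)]⟩⟩,⟨false,1,⟨0,[(13,0),(3,0),
  (13,0)]⟩,⟨5,[(1,0),(2,0),(3,0),(1,1),(1,0),(6,2),(11,0)]⟩⟩,⟨true,1,⟨0,[(17,1),(5,0),(0,0),(6,0)]⟩,
  ⟨0,[(1,0)]⟩⟩,⟨false,0,⟨0,[]⟩,⟨0,[]⟩⟩,⟨false,0,⟨0,[]⟩,⟨0,[]⟩⟩,[.o ⟨false,1,⟨0,[(17,0),(13,0),(1,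
  0)]⟩,⟨3,[(1,1),(20,0),(8,0)]⟩⟩,.o ⟨false,1,⟨0,[(17,0),(13,0)]⟩,⟨12,[(1,3),(14,4),(5,3),(2,1),(0,
  0)]⟩⟩,.a ⟨true,0,⟨0,[(13,0)]⟩,⟨1,[(12,0),(6,0),(3,0),(0,0)]⟩⟩ ⟨true,0,⟨0,[]⟩,⟨0,[(33,0)]⟩⟩ ⟨false,
  1,⟨1,[(12,0),(4,1),(1,0),(3,0),(0,0),(6,1)]⟩,⟨3,[(0,1),(0,1),(28,0),(0,0)]⟩⟩,.e ⟨false,1,⟨1,[(30,
  0),(0,0)]⟩,⟨1,[(6,0),(21,0)]⟩⟩ ⟨false,1,⟨0,[(12,0),(4,0),(13,0)]⟩,⟨8,[(0,3),(0,2),(14,2),(1,0),(7,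
  1),(4,2)]⟩⟩]⟩)

theorem ok25 : chk4 K KFs t25 l36 = true := by decide +kernel

noncomputable def t26 : Tre :=
  (.R ⟨0,false,false,false,[0,0,1],[0,1],[0,0,2,1],(⟨0,[(17,0)]⟩,⟨0,[(16,0)]⟩),(⟨0,[(20,0)]⟩,⟨0,
  [(19,0)]⟩),⟨0,[(11,0)]⟩,.k,.k,.k,.k,.k,.k,⟨true,0,⟨1,[(2,0),(21,0)]⟩,⟨0,[]⟩⟩,⟨false,1,⟨1,[(8,1),
  (9,0),(7,0)]⟩,⟨0,[(14,0)]⟩⟩,⟨false,0,⟨0,[(0,0)]⟩,⟨0,[(4,0),(18,1),(3,0)]⟩⟩,⟨true,0,⟨0,[(1,0)]⟩,⟨0,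
  [(6,0),(17,0)]⟩⟩,⟨false,0,⟨0,[]⟩,⟨0,[]⟩⟩,⟨false,0,⟨0,[]⟩,⟨0,[]⟩⟩,[.o ⟨false,0,⟨0,[(3,0)]⟩,⟨0,[(24,
  0),(2,0),(1,0)]⟩⟩,.o ⟨false,1,⟨5,[(3,1),(0,1),(0,1),(12,1),(7,0),(0,2)]⟩,⟨0,[(24,0)]⟩⟩,.a ⟨true,0,
  ⟨0,[(9,0)]⟩,⟨1,[(8,0),(6,0),(3,0),(0,0)]⟩⟩ ⟨false,0,⟨0,[(2,0)]⟩,⟨1,[(23,1),(2,0),(0,0)]⟩⟩ ⟨true,0,
  ⟨2,[(1,0),(1,0),(0,0),(3,0),(6,0)]⟩,⟨0,[(9,0),(14,0)]⟩⟩,.e ⟨true,0,⟨3,[(2,1),(1,0),(0,0),(15,0)]⟩,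
  ⟨0,[(23,0)]⟩⟩ ⟨true,0,⟨0,[(3,0),(4,0)]⟩,⟨0,[(14,0),(9,0)]⟩⟩]⟩)

theorem ok26 : chk4 K KFs t26 r31 = true := by decide +kernel

noncomputable def t27 : Tre :=
  (.R ⟨0,false,false,false,[0,0,1],[0,1],[1,1],(⟨0,[(16,0)]⟩,⟨0,[(15,0)]⟩),(⟨0,[(19,0)]⟩,⟨0,[(18,
  0)]⟩),⟨0,[(10,0)]⟩,.k,.k,.k,.k,.k,.k,⟨true,0,⟨0,[(22,0)]⟩,⟨0,[(1,0)]⟩⟩,⟨false,1,⟨1,[(7,1),(9,0),
  (7,0)]⟩,⟨0,[(13,0)]⟩⟩,⟨true,0,⟨0,[(8,0),(3,0)]⟩,⟨2,[(0,1),(1,0),(0,0),(3,0),(6,0)]⟩⟩,⟨false,1,⟨0,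
  [(12,0),(11,0),(1,0)]⟩,⟨0,[(0,0)]⟩⟩,⟨false,0,⟨0,[]⟩,⟨0,[]⟩⟩,⟨false,0,⟨0,[]⟩,⟨0,[]⟩⟩,[.o ⟨false,0,
  ⟨0,[(2,0)]⟩,⟨0,[(23,0),(2,0),(1,0)]⟩⟩,.o ⟨false,1,⟨5,[(2,1),(0,1),(0,1),(12,1),(7,0),(0,2)]⟩,⟨0,
  [(23,0)]⟩⟩,.a ⟨true,0,⟨0,[(8,0)]⟩,⟨1,[(7,0),(6,0),(3,0),(0,0)]⟩⟩ ⟨false,0,⟨0,[]⟩,⟨0,[(26,0),(1,
  0)]⟩⟩ ⟨true,0,⟨4,[(2,2),(0,0),(0,0),(2,2),(6,1)]⟩,⟨0,[(8,0),(14,0)]⟩⟩,.e ⟨true,0,⟨2,[(2,0),(4,0),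
  (0,0),(11,0),(1,0)]⟩,⟨1,[(1,0),(21,0)]⟩⟩ ⟨true,0,⟨0,[(2,0),(4,0)]⟩,⟨0,[(13,0),(9,0)]⟩⟩]⟩)

theorem ok27 : chk4 K KFs t27 r30 = true := by decide +kernel

noncomputable def t28 : Tre :=
  (.R ⟨0,false,false,false,[0,0,1],[1,0,-1],[1,1],(⟨0,[(18,0)]⟩,⟨0,[(17,0)]⟩),(⟨0,[(17,0)]⟩,⟨0,[(18,
  0)]⟩),⟨0,[(12,0)]⟩,.k,.k,.k,.k,.k,.k,⟨false,0,⟨1,[(3,0),(1,1),(19,0)]⟩,⟨3,[(0,1),(0,1),(25,0),(0,
  0)]⟩⟩,⟨true,0,⟨0,[(9,0),(6,0)]⟩,⟨0,[(0,0)]⟩⟩,⟨true,0,⟨0,[(10,0),(3,0)]⟩,⟨0,[(2,0),(6,0),(6,0)]⟩⟩,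
  ⟨false,1,⟨0,[(1,0)]⟩,⟨0,[(2,1),(6,0),(6,0)]⟩⟩,⟨false,0,⟨0,[]⟩,⟨0,[]⟩⟩,⟨false,0,⟨0,[]⟩,⟨0,[]⟩⟩,[.e
  ⟨false,0,⟨2,[(3,0),(18,0),(3,0)]⟩,⟨7,[(1,1),(11,3),(5,0),(8,4)]⟩⟩ ⟨false,1,⟨8,[(1,4),(7,3),(3,0),
  (2,4),(5,1),(4,3)]⟩,⟨0,[(2,0)]⟩⟩,.o ⟨false,1,⟨3,[(1,1),(17,0),(8,0)]⟩,⟨3,[(2,0),(0,1),(0,0),(0,0),
  (7,1),(9,1)]⟩⟩,.e ⟨false,0,⟨0,[]⟩,⟨7,[(1,1),(11,3),(5,0),(8,4)]⟩⟩ ⟨false,1,⟨9,[(1,5),(7,3),(3,1),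
  (2,5),(10,0),(0,2)]⟩,⟨0,[(2,0)]⟩⟩,.a ⟨true,0,⟨0,[(15,0)]⟩,⟨0,[(9,0)]⟩⟩ ⟨true,0,⟨2,[(3,0),(18,0),
  (3,0)]⟩,⟨1,[(15,0),(0,0)]⟩⟩ ⟨false,1,⟨3,[(1,1),(7,3),(9,0),(8,0)]⟩,⟨2,[(2,1),(4,0),(7,0),(7,
  0)]⟩⟩]⟩)

theorem ok28 : chk4 K KFs t28 l39 = true := by decide +kernel

noncomputable def t29 : Tre :=
  (.R ⟨0,false,false,false,[0,0,1],[1,0,-1],[1],(⟨0,[(18,0)]⟩,⟨0,[(17,0)]⟩),(⟨0,[(17,0)]⟩,⟨0,[(18,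
  0)]⟩),⟨0,[(12,0)]⟩,.k,.k,.k,.k,.k,.k,⟨false,0,⟨3,[(1,1),(7,3),(9,0),(8,0)]⟩,⟨1,[(6,1),(18,1),(1,
  0),(0,0)]⟩⟩,⟨true,0,⟨0,[(9,0),(6,0)]⟩,⟨0,[(0,0)]⟩⟩,⟨false,1,⟨0,[(10,0),(3,0),(13,0)]⟩,⟨2,[(1,0),
  (3,0),(3,0),(6,0),(8,0),(2,0)]⟩⟩,⟨true,1,⟨0,[(14,1),(5,0),(0,0),(6,0)]⟩,⟨0,[(1,0)]⟩⟩,⟨false,0,⟨0,
  []⟩,⟨0,[]⟩⟩,⟨false,0,⟨0,[]⟩,⟨0,[]⟩⟩,[.o ⟨false,1,⟨0,[(14,0),(13,0),(1,0)]⟩,⟨3,[(1,1),(17,0),(8,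
  0)]⟩⟩,.o ⟨false,1,⟨0,[(14,0),(13,0)]⟩,⟨12,[(1,3),(11,4),(5,3),(2,1),(0,0)]⟩⟩,.a ⟨true,0,⟨0,[(10,
  0)]⟩,⟨1,[(9,0),(6,0),(3,0),(0,0)]⟩⟩ ⟨true,0,⟨0,[]⟩,⟨0,[(30,0)]⟩⟩ ⟨false,1,⟨1,[(9,0),(4,1),(1,0),
  (3,0),(0,0),(6,1)]⟩,⟨0,[(2,0)]⟩⟩,.e ⟨false,1,⟨1,[(27,0),(0,0)]⟩,⟨1,[(15,0),(0,0)]⟩⟩ ⟨false,1,⟨0,
  [(9,0),(4,0),(13,0)]⟩,⟨8,[(0,3),(0,2),(11,2),(1,0),(7,1),(4,2)]⟩⟩]⟩)

theorem ok29 : chk4 K KFs t29 l40 = true := by decide +kernel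

open Helper55.PC in
noncomputable def t30n : Helper55.PC.Ten :=
  (i 324399716250948976594435833200680 (r
  713833884415200865918563199864240672141409921163675362257433600452882535593184368657184801500768775477108346115344118012864174372655586319043874864285928806761387742050196624608724716084751881870462272628590456693236942262028526035221759414784600413278530758200676335481632342039850780856628540507618007176510973563177209520062539218118529573000060987134282876039372238602206167201951772019597770266170515703311262123306745408020741990614376369376216976816390287738490789517947329009532852318184614810356489702144342383446558227862023921337227806968757607737588663978360465311020930048704)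
  (r
  318712159904931033400595267076057225946210641012874286654306616847295342980087953368622550622040428030776773453145357313901605839178765810705119334293463963094811797243017731737071666046489614137887837022664314367223160150809326830427174659016435374569794425129984603582496374064905123368896697701421956978687365755173786630645533129818476654912289967837202413338544455533498634244499345554085360393066754345006374829908621284086079386625310609096580358391592434721693799374490674406080))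

noncomputable def t30 : Tre := Helper55.PC.toT t30n

theorem ok30 : chk4 K KFs t30 l42 = true :=
  Helper81.PC.chk4N_sound K KFs t30n l42 (by decide +kernel)

noncomputable def t31 : Tre :=
  (.R ⟨0,false,false,false,[1,0,-1],[0,0,1],[1,0,1],(⟨0,[(18,0)]⟩,⟨0,[(19,0)]⟩),(⟨0,[(19,0)]⟩,⟨0,
  [(18,0)]⟩),⟨0,[(12,0)]⟩,.k,.k,.k,.k,.k,.k,⟨true,0,⟨1,[(0,0),(10,1),(12,0)]⟩,⟨0,[(1,0),(0,0)]⟩⟩,
  ⟨false,1,⟨1,[(11,3),(8,0),(7,0)]⟩,⟨0,[(10,0),(6,0)]⟩⟩,⟨true,0,⟨0,[(8,0),(8,0)]⟩,⟨0,[(4,0),(2,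
  0)]⟩⟩,⟨false,1,⟨1,[(1,0),(6,0),(5,0),(11,0),(2,1)]⟩,⟨0,[(0,0)]⟩⟩,⟨false,0,⟨0,[]⟩,⟨0,[]⟩⟩,⟨false,0,
  ⟨0,[]⟩,⟨0,[]⟩⟩,[.e ⟨false,0,⟨0,[]⟩,⟨4,[(2,0),(4,0),(6,1),(5,0),(7,2),(0,0)]⟩⟩ ⟨false,1,⟨5,[(1,1),
  (9,5),(2,1),(5,0),(5,1),(1,2),(0,1)]⟩,⟨0,[(3,0)]⟩⟩,.o ⟨false,1,⟨5,[(1,1),(12,1),(5,0),(5,1),(2,
  4)]⟩,⟨0,[(15,0)]⟩⟩,.a ⟨true,0,⟨1,[(2,0),(3,0)]⟩,⟨0,[(11,0)]⟩⟩ ⟨true,0,⟨5,[(2,0),(3,0),(9,1),(7,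
  1)]⟩,⟨2,[(4,0),(18,0),(3,0)]⟩⟩ ⟨false,1,⟨5,[(1,1),(9,5),(2,1),(5,0),(5,1),(2,4)]⟩,⟨0,[(3,0)]⟩⟩,.o
  ⟨false,0,⟨0,[(17,0)]⟩,⟨1,[(11,1),(8,0),(7,0)]⟩⟩]⟩)

theorem ok31 : chk4 K KFs t31 l43 = true := by decide +kernel

noncomputable def t32 : Tre :=
  (.R ⟨0,false,false,true,[0,0,1],[1,0,-1],[1],(⟨0,[(20,0)]⟩,⟨0,[(19,0)]⟩),(⟨0,[(19,0)]⟩,⟨0,[(20,
  0)]⟩),⟨0,[(14,0)]⟩,.k,.k,.k,.k,.k,.k,⟨false,1,⟨3,[(1,1),(1,0),(3,0),(3,1),(9,0),(7,0),(0,1)]⟩,⟨5,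
  [(0,1),(2,0),(1,1),(2,2),(7,1),(7,0)]⟩⟩,⟨true,0,⟨0,[(11,0),(6,0)]⟩,⟨0,[(0,0)]⟩⟩,⟨false,1,⟨4,[(0,
  1),(2,0),(1,0),(2,1),(7,1),(12,0),(0,3)]⟩,⟨1,[(1,0),(9,0),(6,0)]⟩⟩,⟨true,0,⟨2,[(3,0),(0,0),(0,0),
  (2,1),(7,1)]⟩,⟨0,[(1,0)]⟩⟩,⟨false,0,⟨0,[]⟩,⟨0,[]⟩⟩,⟨false,0,⟨0,[]⟩,⟨0,[]⟩⟩,[.o ⟨false,0,⟨0,[(16,
  0)]⟩,⟨2,[(1,0),(13,0),(5,0),(8,1)]⟩⟩,.a ⟨true,0,⟨0,[(4,0),(7,0)]⟩,⟨0,[(9,0)]⟩⟩ ⟨false,1,⟨1,[(29,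
  0),(0,0)]⟩,⟨0,[(32,0)]⟩⟩ ⟨true,0,⟨0,[(4,0)]⟩,⟨5,[(0,1),(0,2),(15,1),(7,0)]⟩⟩,.a ⟨true,0,⟨0,[(12,
  0)]⟩,⟨1,[(3,0),(3,0)]⟩⟩ ⟨true,0,⟨0,[]⟩,⟨0,[(32,0)]⟩⟩ ⟨false,0,⟨0,[(4,0)]⟩,⟨11,[(0,5),(0,3),(13,3),
  (5,0),(7,2),(0,7)]⟩⟩,.a ⟨true,0,⟨0,[(17,0)]⟩,⟨0,[(11,0)]⟩⟩ ⟨false,1,⟨1,[(29,0),(0,0)]⟩,⟨5,[(3,0),
  (3,0),(9,1),(7,1)]⟩⟩ ⟨true,0,⟨0,[(11,0),(4,0)]⟩,⟨5,[(0,1),(0,2),(15,1),(7,0)]⟩⟩]⟩)

theorem ok32 : chk4 K KFs t32 l44 = true := by decide +kernel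

noncomputable def t33 : Tre :=
  (.R ⟨0,false,false,true,[0,0,1],[2,-1,-1],[1],(⟨0,[(21,0)]⟩,⟨0,[(20,0)]⟩),(⟨0,[(20,0),(2,0)]⟩,⟨0,
  [(14,0)]⟩),⟨0,[(15,0)]⟩,.k,.k,.k,(.r 0 ⟨4,[(0,2),(0,0),(0,0),(5,1),(7,2),(2,2)]⟩ ⟨0,[(5,0),(0,1),
  (2,0),(3,1),(12,0),(4,0)]⟩),.k,.k,⟨true,0,⟨0,[(0,0)]⟩,⟨0,[(5,0),(0,0),(6,1),(12,0)]⟩⟩,⟨false,0,⟨0,
  [(4,0),(3,0)]⟩,⟨3,[(6,1),(0,1),(5,7),(8,2),(8,0)]⟩⟩,⟨false,1,⟨0,[(13,0),(3,0),(13,0)]⟩,⟨12,[(0,0),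
  (0,3),(0,5),(1,0),(11,0),(2,2)]⟩⟩,⟨true,0,⟨0,[(4,0),(8,0),(3,0)]⟩,⟨0,[(3,0)]⟩⟩,⟨false,0,⟨0,[]⟩,⟨0,
  []⟩⟩,⟨false,0,⟨0,[]⟩,⟨0,[]⟩⟩,[.o ⟨false,0,⟨1,[(4,0),(8,0),(3,0),(10,0)]⟩,⟨11,[(3,5),(3,1),(0,1),
  (0,1),(12,4),(7,0),(0,5)]⟩⟩,.a ⟨true,0,⟨0,[(4,0),(8,0)]⟩,⟨1,[(3,0),(25,0)]⟩⟩ ⟨false,1,⟨1,[(30,0),
  (0,0)]⟩,⟨0,[(33,0)]⟩⟩ ⟨true,0,⟨0,[(4,0)]⟩,⟨1,[(3,0),(3,0),(5,1),(12,0)]⟩⟩,.a ⟨true,0,⟨0,[(13,0)]⟩,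
  ⟨1,[(4,0),(3,0)]⟩⟩ ⟨true,0,⟨0,[]⟩,⟨0,[(33,0)]⟩⟩ ⟨false,0,⟨0,[(4,0)]⟩,⟨5,[(3,3),(5,1),(3,3),(8,1),
  (7,0),(0,2)]⟩⟩,.a ⟨true,0,⟨0,[(18,0)]⟩,⟨0,[(12,0)]⟩⟩ ⟨false,1,⟨1,[(30,0),(0,0)]⟩,⟨18,[(0,1),(3,2),
  (4,0),(6,1),(1,3),(7,5)]⟩⟩ ⟨true,0,⟨7,[(4,6),(1,1),(2,0),(2,1),(12,2)]⟩,⟨1,[(3,0),(3,0),(5,1),(12,
  0)]⟩⟩]⟩)

theorem ok33 : chk4 K KFs t33 l45 = true := by decide +kernel

noncomputable def t34 : Tre :=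
  (.R ⟨0,false,false,true,[0,0,1],[1,0,-1],[1],(⟨0,[(21,0)]⟩,⟨0,[(20,0)]⟩),(⟨0,[(20,0)]⟩,⟨0,[(21,
  0)]⟩),⟨0,[(15,0)]⟩,.k,.k,.k,.k,.k,.k,⟨false,1,⟨1,[(6,0),(1,1),(19,0),(2,1)]⟩,⟨4,[(3,1),(5,2),(15,
  0),(2,0)]⟩⟩,⟨true,0,⟨0,[(12,0),(6,0)]⟩,⟨0,[(0,0),(0,0)]⟩⟩,⟨true,0,⟨0,[(1,0)]⟩,⟨0,[(8,0),(19,0)]⟩⟩,
  ⟨false,0,⟨0,[(2,0)]⟩,⟨1,[(10,3),(11,0),(8,0)]⟩⟩,⟨false,0,⟨0,[]⟩,⟨0,[]⟩⟩,⟨false,0,⟨0,[]⟩,⟨0,[]⟩⟩,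
  [.o ⟨false,0,⟨0,[(17,0)]⟩,⟨1,[(10,1),(11,0),(8,0)]⟩⟩,.a ⟨true,0,⟨1,[(2,0),(20,0),(0,0)]⟩,⟨0,[(10,
  0)]⟩⟩ ⟨false,1,⟨1,[(30,0),(0,0)]⟩,⟨0,[(33,0)]⟩⟩ ⟨true,0,⟨0,[(5,0)]⟩,⟨0,[(0,0)]⟩⟩,.a ⟨true,0,⟨0,
  [(13,0)]⟩,⟨1,[(12,0),(6,0),(3,0),(0,0)]⟩⟩ ⟨true,0,⟨0,[]⟩,⟨0,[(33,0)]⟩⟩ ⟨false,0,⟨0,[(5,0)]⟩,⟨1,
  [(0,1),(29,0),(0,0)]⟩⟩,.a ⟨true,0,⟨0,[(18,0)]⟩,⟨0,[(12,0)]⟩⟩ ⟨false,1,⟨1,[(30,0),(0,0)]⟩,⟨1,[(18,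
  0),(0,0)]⟩⟩ ⟨true,0,⟨6,[(2,0),(2,4),(0,0),(0,0),(4,1),(12,2)]⟩,⟨0,[(0,0)]⟩⟩]⟩)

theorem ok34 : chk4 K KFs t34 l49 = true := by decide +kernel

noncomputable def t35 : Tre :=
  (.N [0,0,1] 0 ⟨0,[(0,0)]⟩ ⟨0,[(2,0)]⟩ .k)

theorem ok35 : chk4 K KFs t35 l50 = true := by decide +kernel

noncomputable def t36 : Tre :=
  (.R ⟨0,false,false,true,[0,0,1],[1,0,-1],[1],(⟨0,[(23,0)]⟩,⟨0,[(22,0)]⟩),(⟨0,[(22,0)]⟩,⟨0,[(23,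
  0)]⟩),⟨0,[(17,0)]⟩,.k,.k,.k,.k,.k,.k,⟨false,1,⟨1,[(8,0),(1,1),(19,0),(2,1)]⟩,⟨4,[(5,1),(5,2),(15,
  0),(2,0)]⟩⟩,⟨true,0,⟨0,[(14,0),(6,0)]⟩,⟨0,[(0,0)]⟩⟩,⟨true,0,⟨0,[(3,0)]⟩,⟨0,[(10,0),(19,0)]⟩⟩,
  ⟨false,0,⟨0,[(4,0)]⟩,⟨1,[(12,3),(11,0),(8,0)]⟩⟩,⟨false,0,⟨0,[]⟩,⟨0,[]⟩⟩,⟨false,0,⟨0,[]⟩,⟨0,[]⟩⟩,
  [.o ⟨false,0,⟨0,[(19,0)]⟩,⟨1,[(12,1),(11,0),(8,0)]⟩⟩,.e ⟨false,1,⟨1,[(32,0),(0,0)]⟩,⟨0,[(35,0)]⟩⟩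
  ⟨false,0,⟨0,[(2,0)]⟩,⟨3,[(0,1),(17,3),(5,0),(7,0),(0,1)]⟩⟩,.a ⟨true,0,⟨0,[(15,0)]⟩,⟨1,[(14,0),(6,
  0),(3,0),(0,0)]⟩⟩ ⟨true,0,⟨0,[]⟩,⟨0,[(35,0)]⟩⟩ ⟨false,0,⟨0,[(7,0)]⟩,⟨9,[(0,3),(5,1),(1,1),(3,1),
  (5,5),(5,0),(8,8)]⟩⟩,.e ⟨false,1,⟨1,[(32,0),(0,0)]⟩,⟨1,[(20,0),(0,0)]⟩⟩ ⟨false,0,⟨0,[(2,0)]⟩,⟨7,
  [(0,3),(11,1),(5,5),(5,0),(3,1),(4,6)]⟩⟩]⟩)

theorem ok36 : chk4 K KFs t36 l51 = true := by decide +kernel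

noncomputable def t37 : Tre :=
  (.R ⟨0,false,false,false,[1,0,-1],[0,0,1],[1,0,1],(⟨0,[(19,0)]⟩,⟨0,[(20,0)]⟩),(⟨0,[(20,0)]⟩,⟨0,
  [(19,0)]⟩),⟨0,[(13,0)]⟩,.k,.k,.k,.k,.k,.k,⟨true,0,⟨1,[(1,0),(10,1),(12,0)]⟩,⟨0,[(0,0)]⟩⟩,⟨false,1,
  ⟨1,[(12,3),(8,0),(7,0)]⟩,⟨0,[(11,0),(6,0)]⟩⟩,⟨true,0,⟨1,[(0,1),(16,0),(0,0)]⟩,⟨0,[(2,0),(25,0)]⟩⟩,
  ⟨false,1,⟨1,[(9,3),(11,0),(8,0)]⟩,⟨0,[(1,0)]⟩⟩,⟨false,0,⟨0,[]⟩,⟨0,[]⟩⟩,⟨false,0,⟨0,[]⟩,⟨0,[]⟩⟩,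
  [.e ⟨false,0,⟨0,[]⟩,⟨1,[(29,0),(0,0),(1,1)]⟩⟩ ⟨false,1,⟨3,[(3,0),(1,0),(6,2),(2,2),(5,0),(7,0),(0,
  1)]⟩,⟨0,[(4,0)]⟩⟩,.o ⟨false,1,⟨1,[(9,1),(11,0),(8,0)]⟩,⟨0,[(16,0)]⟩⟩,.a ⟨true,0,⟨1,[(11,0),(6,0),
  (3,0),(0,0)]⟩,⟨0,[(12,0)]⟩⟩ ⟨true,0,⟨1,[(17,0),(0,0)]⟩,⟨2,[(5,0),(18,0),(3,0)]⟩⟩ ⟨false,1,⟨1,[(3,
  0),(8,0),(2,0),(11,0),(2,1)]⟩,⟨0,[(4,0)]⟩⟩,.o ⟨false,0,⟨0,[(18,0)]⟩,⟨1,[(12,1),(8,0),(7,0)]⟩⟩]⟩)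

theorem ok37 : chk4 K KFs t37 r48 = true := by decide +kernel

noncomputable def t38 : Tre :=
  (.R ⟨0,false,false,true,[0,0,1],[1,0,-1],[1],(⟨0,[(20,0)]⟩,⟨0,[(19,0)]⟩),(⟨0,[(19,0)]⟩,⟨0,[(20,
  0)]⟩),⟨0,[(14,0)]⟩,.k,.k,.k,.k,.k,.k,⟨false,1,⟨1,[(1,0),(9,0),(6,0),(10,0),(0,0)]⟩,⟨4,[(2,1),(5,
  2),(15,0),(2,0)]⟩⟩,⟨true,0,⟨0,[(11,0),(6,0)]⟩,⟨0,[(0,0)]⟩⟩,⟨false,1,⟨5,[(2,1),(5,3),(18,1),(1,0),
  (0,4)]⟩,⟨1,[(1,0),(9,0),(6,0)]⟩⟩,⟨true,0,⟨4,[(2,1),(1,4),(3,2),(15,0),(2,0)]⟩,⟨0,[(1,0)]⟩⟩,⟨false,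
  0,⟨0,[]⟩,⟨0,[]⟩⟩,⟨false,0,⟨0,[]⟩,⟨0,[]⟩⟩,[.o ⟨false,0,⟨0,[(16,0)]⟩,⟨2,[(1,0),(13,0),(5,0),(8,
  1)]⟩⟩,.a ⟨true,0,⟨0,[(4,0),(7,0)]⟩,⟨0,[(9,0)]⟩⟩ ⟨false,1,⟨1,[(29,0),(0,0)]⟩,⟨0,[(32,0)]⟩⟩ ⟨true,0,
  ⟨0,[(4,0)]⟩,⟨5,[(0,1),(0,2),(15,1),(7,0)]⟩⟩,.a ⟨true,0,⟨0,[(12,0)]⟩,⟨1,[(11,0),(6,0),(3,0),(0,
  0)]⟩⟩ ⟨true,0,⟨0,[]⟩,⟨0,[(32,0)]⟩⟩ ⟨false,0,⟨0,[(4,0)]⟩,⟨11,[(0,5),(0,3),(13,3),(5,0),(7,2),(0,
  7)]⟩⟩,.a ⟨true,0,⟨0,[(17,0)]⟩,⟨0,[(11,0)]⟩⟩ ⟨false,1,⟨1,[(29,0),(0,0)]⟩,⟨1,[(17,0),(0,0)]⟩⟩ ⟨true,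
  0,⟨0,[(11,0),(4,0)]⟩,⟨5,[(0,1),(0,2),(15,1),(7,0)]⟩⟩]⟩)

theorem ok38 : chk4 K KFs t38 l52 = true := by decide +kernel

noncomputable def t39 : Tre :=
  (.R ⟨0,false,false,true,[0,0,1],[2,-1,-1],[1],(⟨0,[(18,0)]⟩,⟨0,[(17,0)]⟩),(⟨0,[(17,0),(2,0)]⟩,⟨0,
  [(11,0)]⟩),⟨0,[(12,0)]⟩,.k,.k,.k,(.r 0 ⟨0,[(0,0),(4,0),(19,0)]⟩ ⟨0,[(2,0),(0,1),(2,0),(3,1),(12,
  0),(4,0)]⟩),.k,.k,⟨true,0,⟨0,[(0,0)]⟩,⟨0,[(2,0),(0,0),(6,1),(12,0)]⟩⟩,⟨false,0,⟨2,[(0,1),(1,1),(6,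
  1),(10,1),(0,1),(3,1)]⟩,⟨2,[(1,0),(1,1),(2,0),(3,3),(8,1),(8,0)]⟩⟩,⟨false,1,⟨0,[(10,0),(3,0),(13,
  0)]⟩,⟨1,[(0,1),(2,0),(21,0)]⟩⟩,⟨true,0,⟨0,[(2,1),(7,1),(14,0)]⟩,⟨1,[(0,1),(0,1),(1,0),(21,0)]⟩⟩,
  ⟨false,0,⟨0,[]⟩,⟨0,[]⟩⟩,⟨false,0,⟨0,[]⟩,⟨0,[]⟩⟩,[.o ⟨false,0,⟨0,[(2,0),(7,0),(14,0)]⟩,⟨1,[(1,0),
  (3,0),(13,0),(8,0)]⟩⟩,.e ⟨false,1,⟨1,[(27,0),(0,0)]⟩,⟨0,[(30,0)]⟩⟩ ⟨false,1,⟨1,[(2,1),(17,1),(0,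
  1),(3,1),(1,0),(0,0)]⟩,⟨0,[(1,0)]⟩⟩,.e ⟨true,0,⟨0,[]⟩,⟨0,[(30,0)]⟩⟩ ⟨true,0,⟨0,[(2,0),(17,0),(0,
  0),(3,0)]⟩,⟨0,[(1,0)]⟩⟩,.a ⟨true,0,⟨0,[(15,0)]⟩,⟨0,[(9,0)]⟩⟩ ⟨false,1,⟨1,[(27,0),(0,0)]⟩,⟨1,[(15,
  0),(0,0)]⟩⟩ ⟨true,0,⟨1,[(2,1),(0,0),(16,1),(0,1),(3,0)]⟩,⟨18,[(0,1),(0,15),(4,0),(6,1),(1,3),(7,
  5)]⟩⟩]⟩)

theorem ok39 : chk4 K KFs t39 r46 = true := by decide +kernel

noncomputable def t40 : Tre :=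
  (.R ⟨0,false,false,false,[0,1,-1],[0,1],[0,0,1],(⟨0,[(7,0)]⟩,⟨0,[(13,0),(1,0)]⟩),(⟨0,[(16,0)]⟩,⟨0,
  [(15,0)]⟩),⟨0,[(13,0)]⟩,.k,.k,.k,.k,.k,.k,⟨false,1,⟨1,[(20,1),(1,0),(0,0)]⟩,⟨0,[(21,0)]⟩⟩,⟨true,0,
  ⟨0,[(5,0)]⟩,⟨0,[(11,0)]⟩⟩,⟨false,1,⟨0,[(2,0),(8,0),(7,0),(3,0)]⟩,⟨0,[(0,0),(20,1)]⟩⟩,⟨true,0,⟨0,
  [(2,0)]⟩,⟨0,[(9,0)]⟩⟩,⟨false,0,⟨0,[]⟩,⟨0,[]⟩⟩,⟨false,0,⟨0,[]⟩,⟨0,[]⟩⟩,[.a ⟨true,0,⟨0,[(21,0)]⟩,⟨1,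
  [(0,1),(1,1),(1,0),(6,0),(3,0),(0,0)]⟩⟩ ⟨true,0,⟨1,[(10,0),(0,0)]⟩,⟨0,[]⟩⟩ ⟨false,0,⟨0,[(5,0),(15,
  0)]⟩,⟨1,[(4,1),(9,0),(5,1),(2,0)]⟩⟩,.o ⟨false,1,⟨1,[(14,0),(6,1),(1,0)]⟩,⟨0,[(20,0)]⟩⟩,.o ⟨false,
  1,⟨0,[(4,0),(9,0)]⟩,⟨0,[(10,0)]⟩⟩,.o ⟨false,1,⟨1,[(11,1),(2,0),(7,0)]⟩,⟨0,[(5,0)]⟩⟩]⟩)

theorem ok40 : chk4 K KFs t40 r27 = true := by decide +kernel

open Helper55.PC in
noncomputable def t41n : Helper55.PC.Ten :=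
  (q 26960049512755083038802299110776668890533659813732296582728738013194 (k
  15594585426556040269613375290045820054491844342536839043245550604390160726434655552040759172385334748698485053135192690026080736219589582961177116286135366549810798780128649922529543488371800)
  (r
  63603996969216613761191761539880422954634766065980692920446429652764316326549382546357193080263301287984432507535168677023510362291541175116825562374346298695988188117664630854617056486009512231111864860965094354545728514459264571233798189126042777755429863008541502015461618980752322406173844794784628246632357626874292856672749520660147543707671606137817628811414198109039220942525929204881988600803274099939334247603671806273212272589474400672622039521649644670419998597760))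

noncomputable def t41 : Tre := Helper55.PC.toT t41n

theorem ok41 : chk4 K KFs t41 l54 = true :=
  Helper81.PC.chk4N_sound K KFs t41n l54 (by decide +kernel)

noncomputable def t42 : Tre :=
  (.R ⟨0,false,false,true,[1,0,-1],[0,1,-1],[1,1],(⟨0,[(16,0)]⟩,⟨0,[(17,0)]⟩),(⟨0,[(11,0)]⟩,⟨0,[(17,
  0),(1,0)]⟩),⟨0,[(10,0)]⟩,.k,.k,.k,.k,.k,.k,⟨true,0,⟨0,[(5,0)]⟩,⟨0,[(0,0)]⟩⟩,⟨false,1,⟨0,[(3,0),(4,
  0)]⟩,⟨1,[(0,0),(0,0),(4,1)]⟩⟩,⟨false,0,⟨1,[(4,0),(1,0),(8,0),(9,0)]⟩,⟨0,[(9,0),(3,0),(13,0)]⟩⟩,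
  ⟨true,0,⟨0,[(2,0),(3,0)]⟩,⟨1,[(1,0),(2,0),(4,0),(4,0)]⟩⟩,⟨false,0,⟨0,[]⟩,⟨0,[]⟩⟩,⟨false,0,⟨0,[]⟩,
  ⟨0,[]⟩⟩,[.o ⟨false,0,⟨0,[(2,0)]⟩,⟨1,[(4,0),(7,0),(1,0),(9,0),(2,1)]⟩⟩,.o ⟨false,1,⟨5,[(0,1),(1,3),
  (12,1),(2,0),(7,2),(0,1)]⟩,⟨0,[(4,0),(9,0)]⟩⟩,.a ⟨true,0,⟨5,[(0,0),(0,0),(4,1),(1,3),(6,1)]⟩,⟨0,
  [(9,0)]⟩⟩ ⟨false,0,⟨0,[]⟩,⟨5,[(0,0),(0,0),(10,1),(5,0),(7,0),(0,3)]⟩⟩ ⟨true,0,⟨0,[(2,0),(6,0)]⟩,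
  ⟨4,[(1,2),(2,1),(1,5),(15,0)]⟩⟩,.o ⟨false,0,⟨0,[(15,0)]⟩,⟨1,[(3,0),(10,0),(11,0)]⟩⟩]⟩)

theorem ok42 : chk4 K KFs t42 l57 = true := by decide +kernel

noncomputable def t43 : Tre :=
  (.R ⟨0,false,false,false,[1,0,-1],[0,1],[0,0,2,1],(⟨0,[(17,0)]⟩,⟨0,[(18,0)]⟩),(⟨0,[(21,0)]⟩,⟨0,
  [(20,0)]⟩),⟨0,[(11,0)]⟩,.k,.k,.k,.k,.k,.k,⟨true,0,⟨7,[(0,0),(1,0),(12,1),(7,1),(6,0)]⟩,⟨0,[]⟩⟩,
  ⟨false,1,⟨5,[(1,1),(1,1),(0,1),(5,5),(16,2),(0,0)]⟩,⟨1,[(0,0),(1,0),(27,0)]⟩⟩,⟨false,0,⟨0,[(0,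
  0)]⟩,⟨2,[(1,1),(0,2),(0,1),(0,1),(5,5),(17,0)]⟩⟩,⟨true,0,⟨0,[(0,0),(0,0),(1,0),(6,1)]⟩,⟨1,[(2,0),
  (7,0),(3,0),(10,0)]⟩⟩,⟨false,0,⟨0,[]⟩,⟨0,[]⟩⟩,⟨false,0,⟨0,[]⟩,⟨0,[]⟩⟩,[.e ⟨false,0,⟨18,[(0,5),(1,
  1),(0,3),(11,7),(6,0),(3,10)]⟩,⟨1,[(24,1),(2,0),(0,0)]⟩⟩ ⟨false,1,⟨1,[(4,0),(10,0),(10,1),(0,0)]⟩,
  ⟨10,[(0,0),(1,5),(2,4),(9,0),(7,0),(1,0)]⟩⟩,.o ⟨false,1,⟨5,[(0,1),(2,1),(0,1),(21,1),(0,0),(0,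
  2)]⟩,⟨0,[(25,0)]⟩⟩,.a ⟨true,0,⟨6,[(0,1),(1,1),(6,2),(12,0)]⟩,⟨0,[(10,0)]⟩⟩ ⟨true,0,⟨18,[(0,11),(1,
  3),(0,7),(11,15),(6,1),(3,2)]⟩,⟨3,[(1,2),(0,0),(0,1),(6,3),(13,1)]⟩⟩ ⟨false,1,⟨1,[(4,0),(10,0),
  (10,1),(1,0)]⟩,⟨10,[(0,0),(1,5),(2,4),(9,0),(7,0),(1,0)]⟩⟩,.o ⟨false,0,⟨0,[(16,0)]⟩,⟨1,[(4,0),(10,
  0),(11,0)]⟩⟩]⟩)

theorem ok43 : chk4 K KFs t43 l58 = true := by decide +kernel

noncomputable def t44 : Tre :=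
  (.R ⟨0,false,false,false,[1,0,-1],[-1,1,1],[0,0,2,1,0,0,0,1],(⟨0,[(18,0)]⟩,⟨0,[(19,0)]⟩),(⟨0,[(12,
  0)]⟩,⟨0,[(18,0),(2,0)]⟩),⟨0,[(12,0)]⟩,.k,.k,.k,(.r (-1) ⟨0,[(1,0),(13,0),(0,0),(12,0)]⟩ ⟨10,[(0,
  9),(1,1),(20,4),(3,2)]⟩),.k,.k,⟨true,0,⟨8,[(0,0),(2,0),(11,0),(0,2),(7,1)]⟩,⟨0,[]⟩⟩,⟨false,1,⟨2,
  [(2,1),(1,1),(0,1),(5,5),(17,0)]⟩,⟨1,[(0,0),(2,1),(23,0),(3,0)]⟩⟩,⟨false,0,⟨0,[(0,0)]⟩,⟨7,[(1,9),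
  (1,1),(0,3),(6,1),(4,5),(11,0),(0,6)]⟩⟩,⟨true,0,⟨0,[(2,1),(8,1),(12,1),(2,2)]⟩,⟨2,[(1,0),(1,2),
  (11,1),(0,1),(10,0)]⟩⟩,⟨false,0,⟨0,[]⟩,⟨0,[]⟩⟩,⟨false,0,⟨0,[]⟩,⟨0,[]⟩⟩,[.e ⟨false,0,⟨1,[(0,0),(26,
  0),(3,0)]⟩,⟨2,[(1,1),(1,0),(1,0),(10,0),(11,0),(0,0)]⟩⟩ ⟨false,1,⟨0,[(5,0),(2,0),(18,0)]⟩,⟨0,[(3,
  0)]⟩⟩,.o ⟨false,1,⟨6,[(0,0),(1,4),(2,3),(5,2),(12,5),(2,10),(1,2)]⟩,⟨13,[(1,1),(1,6),(11,4),(0,4),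
  (6,0),(2,4)]⟩⟩,.a ⟨true,0,⟨10,[(0,1),(2,3),(6,2),(12,0),(3,1)]⟩,⟨0,[(11,0)]⟩⟩ ⟨true,0,⟨6,[(0,4),
  (2,0),(0,1),(11,3),(10,0),(3,2)]⟩,⟨0,[(1,0)]⟩⟩ ⟨false,1,⟨6,[(0,0),(1,4),(2,3),(5,9),(12,5),(2,10),
  (1,2)]⟩,⟨0,[(3,0)]⟩⟩,.o ⟨false,0,⟨0,[(17,0)]⟩,⟨1,[(5,0),(10,0),(11,0)]⟩⟩]⟩)

theorem ok44 : chk4 K KFs t44 l59 = true := by decide +kernel

noncomputable def t45 : Tre :=
  (.R ⟨0,false,false,true,[0,0,1],[0,1,-1],[1,1],(⟨0,[(17,0)]⟩,⟨0,[(16,0)]⟩),(⟨0,[(11,0)]⟩,⟨0,[(17,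
  0),(1,0)]⟩),⟨0,[(11,0)]⟩,.k,.k,.k,(.r 0 ⟨3,[(0,0),(3,6),(7,0),(2,0),(9,1)]⟩ ⟨0,[(9,0),(3,1),(0,0),
  (10,0),(1,0)]⟩),.k,.k,⟨true,0,⟨0,[(5,0)]⟩,⟨0,[(0,0),(8,0),(3,0)]⟩⟩,⟨false,1,⟨0,[(8,1),(9,0)]⟩,⟨0,
  [(9,0),(4,0)]⟩⟩,⟨true,0,⟨0,[(9,0),(3,0)]⟩,⟨3,[(0,0),(3,2),(7,0),(2,0),(9,1)]⟩⟩,⟨false,1,⟨0,[(13,
  1),(11,0),(1,0)]⟩,⟨0,[(0,0),(3,1),(4,1)]⟩⟩,⟨false,0,⟨0,[]⟩,⟨0,[]⟩⟩,⟨false,0,⟨0,[]⟩,⟨0,[]⟩⟩,[.o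
  ⟨false,0,⟨0,[(2,0)]⟩,⟨1,[(4,0),(7,0),(1,0),(9,0),(2,1)]⟩⟩,.o ⟨false,1,⟨3,[(0,1),(1,1),(10,1),(4,
  0),(7,1),(0,0)]⟩,⟨0,[(4,0),(9,0)]⟩⟩,.a ⟨true,0,⟨0,[(9,0)]⟩,⟨1,[(8,0),(6,0),(3,0),(0,0)]⟩⟩ ⟨false,
  0,⟨0,[]⟩,⟨0,[(27,0),(1,0)]⟩⟩ ⟨true,0,⟨6,[(0,1),(1,4),(5,4),(4,1),(1,1),(5,0)]⟩,⟨0,[(4,0),(4,0),(4,
  0)]⟩⟩,.e ⟨true,0,⟨6,[(1,0),(0,0),(5,2),(0,1),(11,1),(1,1)]⟩,⟨1,[(14,0),(0,0)]⟩⟩ ⟨true,0,⟨0,[(2,0),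
  (5,0)]⟩,⟨0,[(4,0),(9,1)]⟩⟩]⟩)

theorem ok45 : chk4 K KFs t45 l60 = true := by decide +kernel

noncomputable def t46 : Tre :=
  (.R ⟨0,false,false,false,[0,0,1],[1,0,-1],[1,1],(⟨0,[(19,0)]⟩,⟨0,[(18,0)]⟩),(⟨0,[(18,0)]⟩,⟨0,[(19,
  0)]⟩),⟨0,[(13,0)]⟩,.k,.k,.k,.k,.k,.k,⟨false,0,⟨2,[(4,0),(1,1),(3,0),(3,1),(12,0)]⟩,⟨3,[(0,1),(0,
  1),(26,0),(0,0)]⟩⟩,⟨true,0,⟨0,[(10,0),(6,0)]⟩,⟨0,[(0,0)]⟩⟩,⟨true,0,⟨0,[(11,0),(3,0)]⟩,⟨1,[(6,0),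
  (1,0),(8,0),(9,0)]⟩⟩,⟨false,1,⟨0,[(1,0)]⟩,⟨4,[(3,1),(2,1),(1,5),(15,0)]⟩⟩,⟨false,0,⟨0,[]⟩,⟨0,[]⟩⟩,
  ⟨false,0,⟨0,[]⟩,⟨0,[]⟩⟩,[.o ⟨false,1,⟨12,[(1,8),(12,4),(5,3),(2,1),(0,0)]⟩,⟨4,[(3,1),(2,1),(1,0),
  (15,0)]⟩⟩,.o ⟨false,1,⟨3,[(1,1),(18,0),(8,0)]⟩,⟨2,[(3,0),(2,0),(7,0),(8,0),(0,0)]⟩⟩,.e ⟨false,0,
  ⟨0,[]⟩,⟨7,[(1,1),(12,3),(5,0),(8,4)]⟩⟩ ⟨false,1,⟨9,[(1,5),(8,3),(3,1),(2,5),(10,0),(0,2)]⟩,⟨2,[(0,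
  0),(2,0),(2,0),(1,0),(2,0)]⟩⟩,.a ⟨true,0,⟨0,[(16,0)]⟩,⟨0,[(10,0)]⟩⟩ ⟨true,0,⟨2,[(2,0),(20,0),(3,
  0)]⟩,⟨1,[(16,0),(0,0)]⟩⟩ ⟨false,1,⟨3,[(1,1),(8,3),(9,0),(8,0)]⟩,⟨9,[(0,4),(2,0),(2,0),(1,7),(15,
  2)]⟩⟩]⟩)

theorem ok46 : chk4 K KFs t46 l62 = true := by decide +kernel

open Helper55.PC in
noncomputable def t47n : Helper55.PC.Ten :=
  (i 324478944413463385047219599966248 (r
  11261606415669798119887208382851267807965618096900540346003728775154975804098246999519206969241871951071806381954523779117354759477282778263469277405107292381836411170597615746531090997758849235079369968351605736983614800638047925670749123595868357875962578343867131533540316983616313072332164519615692155874435846313703800218701782683535504447327259491932610425685641626764876068154498316698834082182144034538035677126713856650332040958462777615747763910882231836198423679231559191466678611374072365308937500780982923816006375334994836932186489162957186500635460117083718852807294829010071981136756413929826213489925880647452556147172333075000385586982559968)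
  (r
  6253881366616989219860426892108001074919418803808938150880264254098611167298630291334551962364358171316453801030857521467549783646511794311167332947728264695462609686725023541740119970147836636645120805284896225067014773425701938881991016881751089885031869473136292212142675320848437896784757584307956857169697347217582838335417063074237501890570664452394033806021854495466474461588204452836107163989061927513774698381923859908623430989128333964092699610681944055250742751022807660084495710680896855206982444780155676842951655133154139899181107923244204027364746339523924110269364613091749041585739297152710777926523467173199618752))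

noncomputable def t47 : Tre := Helper55.PC.toT t47n

theorem ok47 : chk4 K KFs t47 l64 = true :=
  Helper81.PC.chk4N_sound K KFs t47n l64 (by decide +kernel)

noncomputable def t48 : Tre :=
  (.R ⟨0,false,false,true,[1,0,-1],[2,-1,-1],[1,1,-1,-1,0,0,0,-1],(⟨0,[(22,0)]⟩,⟨0,[(23,0)]⟩),(⟨0,
  [(22,0),(2,0)]⟩,⟨0,[(16,0)]⟩),⟨0,[(16,0)]⟩,.k,.k,.k,.k,.k,.k,⟨true,0,⟨0,[]⟩,⟨1,[(20,0),(0,0)]⟩⟩,
  ⟨false,0,⟨0,[(25,0),(0,0)]⟩,⟨1,[(24,0),(7,0)]⟩⟩,⟨true,0,⟨1,[(6,0),(23,0)]⟩,⟨1,[(0,0),(18,0),(0,0),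
  (10,0)]⟩⟩,⟨false,0,⟨0,[(3,0),(1,0)]⟩,⟨2,[(0,1),(4,0),(3,1),(21,0)]⟩⟩,⟨false,0,⟨0,[]⟩,⟨0,[]⟩⟩,
  ⟨false,0,⟨0,[]⟩,⟨0,[]⟩⟩,[.o ⟨false,0,⟨0,[(3,0),(1,0),(13,0)]⟩,⟨0,[(0,0),(8,0)]⟩⟩,.o ⟨false,1,⟨3,
  [(3,0),(1,3),(12,1),(11,2),(2,0)]⟩,⟨0,[(1,0)]⟩⟩,.a ⟨true,0,⟨0,[(4,0),(15,0)]⟩,⟨0,[(15,0)]⟩⟩
  ⟨false,1,⟨21,[(2,9),(2,5),(3,2),(10,8),(6,1),(2,11),(1,2)]⟩,⟨0,[(0,0)]⟩⟩ ⟨true,0,⟨0,[(3,0),(1,0),
  (9,0),(3,0)]⟩,⟨20,[(0,5),(0,12),(2,6),(3,1),(9,3),(2,0)]⟩⟩,.o ⟨false,0,⟨0,[(21,0)]⟩,⟨1,[(9,0),(10,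
  0),(11,0)]⟩⟩]⟩)

theorem ok48 : chk4 K KFs t48 r66 = true := by decide +kernel

noncomputable def t49 : Tre :=
  (.R ⟨0,false,false,true,[1,0,-1],[-1,1,1],[1,1,1,1,0,0,0,1],(⟨0,[(21,0)]⟩,⟨0,[(22,0)]⟩),(⟨0,[(15,
  0)]⟩,⟨0,[(21,0),(2,0)]⟩),⟨0,[(15,0)]⟩,.k,.k,.k,(.r (-1) ⟨0,[(1,0),(16,0),(0,0)]⟩ ⟨4,[(3,1),(2,0),
  (4,8),(8,6),(9,3)]⟩),.k,.k,⟨true,0,⟨0,[]⟩,⟨1,[(19,0),(0,0)]⟩⟩,⟨false,1,⟨2,[(1,1),(4,1),(1,0),(5,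
  0),(11,0)]⟩,⟨5,[(0,4),(2,1),(7,4),(8,7),(9,4)]⟩⟩,⟨true,(-1),⟨0,[(2,0),(0,0),(23,0),(2,1)]⟩,⟨0,[(1,
  0),(16,0),(0,0)]⟩⟩,⟨false,0,⟨6,[(3,1),(2,7),(2,0),(1,4),(8,2)]⟩,⟨2,[(0,1),(3,1),(24,0),(2,0)]⟩⟩,
  ⟨false,0,⟨0,[]⟩,⟨0,[]⟩⟩,⟨false,0,⟨0,[]⟩,⟨0,[]⟩⟩,[.o ⟨false,0,⟨28,[(2,4),(0,6),(2,20),(0,12),(9,
  10),(2,6),(2,4)]⟩,⟨2,[(0,0),(3,0),(24,1),(2,1)]⟩⟩,.a ⟨true,0,⟨4,[(3,0),(2,2),(4,1),(8,0),(9,1)]⟩,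
  ⟨0,[(0,0)]⟩⟩ ⟨false,0,⟨4,[(3,1),(2,0),(4,3),(8,1),(9,3)]⟩,⟨21,[(1,9),(2,5),(3,2),(10,8),(6,1),(2,
  11),(1,2)]⟩⟩ ⟨true,0,⟨0,[(6,0)]⟩,⟨0,[(0,0),(19,0)]⟩⟩,.e ⟨false,0,⟨0,[(11,0),(8,0),(9,0)]⟩,⟨14,[(0,
  0),(0,11),(2,0),(14,2),(7,2),(1,1),(2,1)]⟩⟩ ⟨false,0,⟨0,[(6,0)]⟩,⟨8,[(0,5),(2,0),(0,4),(4,2),(7,
  3),(2,3),(11,3)]⟩⟩,.o ⟨false,0,⟨0,[(20,0)]⟩,⟨1,[(8,0),(10,0),(11,0)]⟩⟩]⟩)

theorem ok49 : chk4 K KFs t49 r65 = true := by decide +kernel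

noncomputable def t50 : Tre :=
  (.R ⟨0,false,false,true,[1,0,-1],[0,1,-1],[1,1],(⟨0,[(21,0)]⟩,⟨0,[(22,0)]⟩),(⟨0,[(16,0)]⟩,⟨0,[(22,
  0),(1,0)]⟩),⟨0,[(15,0)]⟩,.k,.k,.k,.k,.k,.k,⟨true,0,⟨0,[(10,0)]⟩,⟨0,[(0,0)]⟩⟩,⟨false,1,⟨11,[(2,0),
  (0,3),(1,2),(0,1),(1,5),(22,3),(0,0)]⟩,⟨2,[(0,1),(0,1),(1,0),(7,1)]⟩⟩,⟨false,0,⟨6,[(3,1),(2,0),(2,
  0),(1,4),(8,2)]⟩,⟨3,[(4,1),(3,0),(5,1),(4,0),(12,0)]⟩⟩,⟨true,0,⟨12,[(3,0),(2,2),(0,7),(9,4),(2,0),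
  (9,1)]⟩,⟨0,[(1,0)]⟩⟩,⟨false,0,⟨0,[]⟩,⟨0,[]⟩⟩,⟨false,0,⟨0,[]⟩,⟨0,[]⟩⟩,[.o ⟨false,0,⟨0,[(7,0)]⟩,⟨1,
  [(9,0),(7,0),(1,0),(9,0),(2,1)]⟩⟩,.o ⟨false,1,⟨4,[(2,2),(4,0),(9,1),(5,1),(6,0)]⟩,⟨0,[(9,0),(9,
  0)]⟩⟩,.a ⟨true,0,⟨2,[(0,0),(0,0),(1,1),(7,0)]⟩,⟨0,[(14,0)]⟩⟩ ⟨false,0,⟨0,[]⟩,⟨7,[(4,1),(12,3),(5,
  0),(8,4)]⟩⟩ ⟨true,0,⟨0,[(7,0),(6,0)]⟩,⟨4,[(1,3),(1,0),(5,0),(1,3),(8,1)]⟩⟩,.o ⟨false,0,⟨0,[(20,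
  0)]⟩,⟨1,[(8,0),(10,0),(11,0)]⟩⟩]⟩)

theorem ok50 : chk4 K KFs t50 l68 = true := by decide +kernel

noncomputable def t51 : Tre :=
  (.R ⟨0,false,false,false,[0,0,1],[1,0,-1],[1],(⟨0,[(19,0)]⟩,⟨0,[(18,0)]⟩),(⟨0,[(18,0)]⟩,⟨0,[(19,
  0)]⟩),⟨0,[(13,0)]⟩,.k,.k,.k,.k,.k,.k,⟨false,0,⟨0,[(6,0),(20,0)]⟩,⟨1,[(15,1),(0,1),(11,0),(0,0)]⟩⟩,
  ⟨true,0,⟨0,[(10,0),(6,0)]⟩,⟨0,[(0,0)]⟩⟩,⟨false,1,⟨0,[(11,0),(3,0),(13,0)]⟩,⟨3,[(1,0),(4,0),(3,0),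
  (3,0),(2,1),(9,0),(1,0)]⟩⟩,⟨true,1,⟨0,[(15,1),(5,0),(0,0),(6,0)]⟩,⟨0,[(1,0)]⟩⟩,⟨false,0,⟨0,[]⟩,⟨0,
  []⟩⟩,⟨false,0,⟨0,[]⟩,⟨0,[]⟩⟩,[.o ⟨false,1,⟨0,[(15,0),(13,0),(1,0)]⟩,⟨3,[(1,1),(18,0),(8,0)]⟩⟩,.o
  ⟨false,1,⟨0,[(15,0),(13,0)]⟩,⟨12,[(1,3),(12,4),(5,3),(2,1),(0,0)]⟩⟩,.a ⟨true,0,⟨0,[(11,0)]⟩,⟨1,
  [(10,0),(6,0),(3,0),(0,0)]⟩⟩ ⟨true,0,⟨0,[]⟩,⟨0,[(31,0)]⟩⟩ ⟨false,1,⟨1,[(10,0),(4,1),(1,0),(3,0),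
  (0,0),(6,1)]⟩,⟨3,[(0,1),(0,1),(26,0),(0,0)]⟩⟩,.e ⟨false,1,⟨1,[(28,0),(0,0)]⟩,⟨1,[(16,0),(0,0)]⟩⟩
  ⟨false,1,⟨0,[(10,0),(4,0),(13,0)]⟩,⟨8,[(0,3),(0,2),(12,2),(1,0),(7,1),(4,2)]⟩⟩]⟩)

theorem ok51 : chk4 K KFs t51 l69 = true := by decide +kernel

noncomputable def t52 : Tre :=
  (.R ⟨0,false,false,true,[1,0,-1],[2,-1,-1],[1,1,-1,-1,0,0,0,-1],(⟨0,[(20,0)]⟩,⟨0,[(21,0)]⟩),(⟨0,
  [(20,0),(2,0)]⟩,⟨0,[(14,0)]⟩),⟨0,[(14,0)]⟩,.k,.k,.k,.k,.k,.k,⟨true,0,⟨0,[]⟩,⟨1,[(18,0),(0,0)]⟩⟩,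
  ⟨false,0,⟨0,[(23,0),(0,0)]⟩,⟨1,[(22,0),(7,0)]⟩⟩,⟨true,0,⟨1,[(4,0),(23,0)]⟩,⟨1,[(18,0),(0,0),(9,
  1)]⟩⟩,⟨false,0,⟨0,[(1,0)]⟩,⟨1,[(22,0),(6,1),(1,0)]⟩⟩,⟨false,0,⟨0,[]⟩,⟨0,[]⟩⟩,⟨false,0,⟨0,[]⟩,⟨0,
  []⟩⟩,[.o ⟨false,0,⟨0,[(1,0),(15,0)]⟩,⟨3,[(0,1),(4,1),(16,1),(7,0),(0,0)]⟩⟩,.o ⟨false,1,⟨0,[(1,0),
  (15,0),(13,0),(1,0)]⟩,⟨0,[(3,0),(2,0),(24,0)]⟩⟩,.a ⟨true,0,⟨0,[(2,0),(15,0)]⟩,⟨0,[(13,0)]⟩⟩
  ⟨false,1,⟨2,[(1,1),(2,0),(2,0),(5,1),(3,2),(13,1)]⟩,⟨0,[(0,0)]⟩⟩ ⟨true,0,⟨0,[(1,0),(11,0),(3,0)]⟩,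
  ⟨37,[(0,16),(1,16),(0,6),(1,12),(0,7),(9,1),(5,6)]⟩⟩,.o ⟨false,0,⟨0,[(19,0)]⟩,⟨1,[(7,0),(10,0),
  (11,0)]⟩⟩]⟩)

theorem ok52 : chk4 K KFs t52 l71 = true := by decide +kernel

noncomputable def t53 : Tre :=
  (.R ⟨0,false,false,false,[1,-1],[1,-1,1],[1,1],(⟨0,[(17,0)]⟩,⟨0,[(18,0)]⟩),(⟨0,[(15,0),(1,0)]⟩,⟨0,
  [(9,0)]⟩),⟨0,[(8,0),(0,0)]⟩,.k,.k,(.r (-1) ⟨0,[(21,1),(3,0)]⟩ ⟨0,[(12,0),(0,0),(9,1)]⟩),.k,.k,.k,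
  ⟨false,0,⟨0,[(7,0),(3,0),(11,0)]⟩,⟨3,[(2,2),(7,0),(2,0),(8,0),(1,0),(0,2)]⟩⟩,⟨true,0,⟨0,[(7,0)]⟩,
  ⟨0,[(13,0)]⟩⟩,⟨false,0,⟨1,[(12,0),(0,0),(9,1)]⟩,⟨0,[(21,0),(3,0)]⟩⟩,⟨true,0,⟨0,[(4,0)]⟩,⟨0,[(11,
  0)]⟩⟩,⟨false,0,⟨0,[]⟩,⟨0,[]⟩⟩,⟨false,0,⟨0,[]⟩,⟨0,[]⟩⟩,[.o ⟨false,0,⟨0,[(2,0),(9,0)]⟩,⟨1,[(11,1),
  (4,0),(6,1),(1,0)]⟩⟩,.a ⟨true,0,⟨0,[(0,0)]⟩,⟨0,[(11,0),(11,0)]⟩⟩ ⟨true,0,⟨0,[]⟩,⟨1,[(12,0),(0,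
  0)]⟩⟩ ⟨false,1,⟨1,[(2,1),(4,1),(16,0),(0,0)]⟩,⟨1,[(11,1),(0,0),(0,0),(9,1)]⟩⟩,.o ⟨false,0,⟨1,[(12,
  0),(0,0)]⟩,⟨1,[(16,0),(7,0)]⟩⟩,.o ⟨false,0,⟨0,[(12,0),(0,0)]⟩,⟨0,[(1,0),(4,0)]⟩⟩]⟩)

theorem ok53 : chk4 K KFs t53 r55 = true := by decide +kernel

noncomputable def t54 : Tre :=
  (.N [0,-1,1] 0 ⟨0,[(1,0)]⟩ ⟨0,[(0,0)]⟩ .k)

theorem ok54 : chk4 K KFs t54 r53 = true := by decide +kernel

theorem cl0 : Clo4 K KFs HH l12 :=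
  .i [1,1,0,0,-1,0,0,-1] (e' := [0,-1,0,0,1,0,0,1]) (by decide +kernel) (by decide +kernel) (.h
  (Or.inl rfl)) (.t t8 ok8)

theorem cl1 : Clo4 K KFs HH r11 :=
  .q [0,1,0,0,-1,0,-2,-1,1,-2] (e' := [0,-1,0,0,1,0,2,1,-1,2]) (.p false [0,0,1] [1,0,-1] (⟨0,[(22,
  0)]⟩,⟨0,[(21,0)]⟩) .k 2 (⟨0,[(21,0)]⟩,⟨0,[(22,0)]⟩) .k (.x (-1) ⟨0,[(14,1),(6,1),(1,0)]⟩ ⟨2,[(2,
  1),(9,1),(7,1),(1,1)]⟩)) (by decide +kernel) (by decide +kernel) cl0 (.t t9 ok9)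

theorem cl2 : Clo4 K KFs HH r10 :=
  .i [1,1,0,0,0,0,0,1] (e' := [0,-1,0,0,0,0,0,-1]) (by decide +kernel) (by decide +kernel) (.t t7
  ok7) cl1

theorem cl3 : Clo4 K KFs HH r9 :=
  .q [0,0,0,-1,-1,0,-2,-2,2,-2] (e' := [0,0,0,1,1,0,2,2,-2,2]) (.p false [0,0,1] [2,-1,-1] (⟨0,[(20,
  0)]⟩,⟨0,[(19,0)]⟩) .k 2 (⟨0,[(19,0),(2,0)]⟩,⟨0,[(13,0)]⟩) .k (.x (-1) ⟨0,[(12,1),(6,1),(1,0)]⟩ ⟨2,
  [(0,1),(9,1),(7,1),(1,1)]⟩)) (by decide +kernel) (by decide +kernel) (.t t6 ok6) cl2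

theorem cl4 : Clo4 K KFs HH r8 :=
  .q [0,0,1,0,0,0,2,0,-1,2] (e' := [0,0,-1,0,0,0,-2,0,1,-2]) (.p true [0,0,1] [1,0,-1] (⟨0,[(19,
  0)]⟩,⟨0,[(18,0)]⟩) .k 2 (⟨0,[(18,0)]⟩,⟨0,[(19,0)]⟩) .k (.x (-1) ⟨0,[(11,1),(6,1),(1,0)]⟩ ⟨0,[(9,
  0),(0,0),(6,0)]⟩)) (by decide +kernel) (by decide +kernel) (.t t5 ok5) cl3

theorem cl5 : Clo4 K KFs HH l7 :=
  .q [0,1,1,0,0,0,2,1,-1,2] (e' := [0,-1,-1,0,0,0,-2,-1,1,-2]) (.p true [0,0,1] [1,0,-1] (⟨0,[(18,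
  0)]⟩,⟨0,[(17,0)]⟩) .k 2 (⟨0,[(17,0)]⟩,⟨0,[(18,0)]⟩) .k (.x (-1) ⟨0,[(10,1),(6,1),(1,0)]⟩ ⟨0,[(8,
  0),(0,0),(6,0)]⟩)) (by decide +kernel) (by decide +kernel) (.t t4 ok4) cl4

theorem cl6 : Clo4 K KFs HH r6 :=
  .q [0,0,0,0,-1,0,-2,-2,1,-2] (e' := [0,0,0,0,1,0,2,2,-1,2]) (.p false [0,0,1] [1,0,-1] (⟨0,[(17,
  0)]⟩,⟨0,[(16,0)]⟩) .k 2 (⟨0,[(16,0)]⟩,⟨0,[(17,0)]⟩) .k (.x (-1) ⟨0,[(9,1),(6,1),(1,0)]⟩ ⟨0,[(7,0),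
  (0,0),(6,0)]⟩)) (by decide +kernel) (by decide +kernel) cl5 (.h (Or.inr (Or.inl rfl)))

theorem cl7 : Clo4 K KFs HH r5 :=
  .i [0,0,2,1,0,0,0,1] (e' := [1,0,-2,-1,0,0,0,-1]) (by decide +kernel) (by decide +kernel) (.t t3
  ok3) cl6

theorem cl8 : Clo4 K KFs HH r4 :=
  .q [0,1,0,0,0,0,2,1,-1,2] (e' := [0,-1,0,0,0,0,-2,-1,1,-2]) (.p true [0,0,1] [1,0,-1] (⟨0,[(15,
  0)]⟩,⟨0,[(14,0)]⟩) .k 2 (⟨0,[(14,0)]⟩,⟨0,[(15,0)]⟩) .k (.x (-1) ⟨0,[(7,1),(6,1),(1,0)]⟩ ⟨0,[(5,0),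
  (0,0),(6,0)]⟩)) (by decide +kernel) (by decide +kernel) (.t t2 ok2) cl7

theorem cl9 : Clo4 K KFs HH r3 :=
  .q [0,0,0,-1,0,0,0,0,1] (e' := [0,0,0,1,0,0,0,0,-1]) (.pp false [-1,1]) (by decide +kernel)
  (by decide +kernel) (.t t1 ok1) cl8

theorem cl10 : Clo4 K KFs HH l2 :=
  .q [0,1,-1,-1,0,0,0,1,1] (e' := [0,-1,1,1,0,0,0,-1,-1]) (.pp false [-1,1]) (by decide +kernel)
  (by decide +kernel) (.t t0 ok0) cl9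

theorem cl11 : Clo4 K KFs HH l1 :=
  .q [0,1,0,1,0,0,0,0,-1] (e' := [0,-1,0,-1,0,0,0,0,1]) (.pp true [-1,1]) (by decide +kernel)
  (by decide +kernel) cl10 (.t t10 ok10)

theorem cl12 : Clo4 K KFs HH r19 :=
  .q [0,1,0,1,0,0,2,1,-2,2] (e' := [0,-1,0,-1,0,0,-2,-1,2,-2]) (.p true [0,0,1] [2,-1,-1] (⟨0,[(18,
  0)]⟩,⟨0,[(17,0)]⟩) .k 2 (⟨0,[(17,0),(2,0)]⟩,⟨0,[(11,0)]⟩) .k (.r (-1) ⟨0,[(6,0),(6,0),(2,0),(11,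
  0)]⟩ ⟨0,[(7,1),(2,1)]⟩)) (by decide +kernel) (by decide +kernel) (.h (Or.inr (Or.inr (Or.inl rfl)))) (.t t15 ok15)

theorem cl13 : Clo4 K KFs HH r18 :=
  .q [0,0,1,0,0,0,2,0,-1,2] (e' := [0,0,-1,0,0,0,-2,0,1,-2]) (.p true [0,0,1] [1,0,-1] (⟨0,[(17,
  0)]⟩,⟨0,[(16,0)]⟩) .k 2 (⟨0,[(16,0)]⟩,⟨0,[(17,0)]⟩) .k (.r (-1) ⟨0,[(5,0),(6,0),(2,0),(11,0)]⟩ ⟨0,
  [(6,1),(2,1)]⟩)) (by decide +kernel) (by decide +kernel) (.t t14 ok14) cl12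

theorem cl14 : Clo4 K KFs HH r17 :=
  .i [0,-1,2,1,0,0,0,-1] (e' := [1,1,-2,-1,0,0,0,1]) (by decide +kernel) (by decide +kernel) (.t
  t13 ok13) cl13

theorem cl15 : Clo4 K KFs HH r16 :=
  .i [1,-1,1,1,0,0,0,-1] (e' := [0,1,-1,-1,0,0,0,1]) (by decide +kernel) (by decide +kernel) (.t
  t12 ok12) cl14

theorem cl16 : Clo4 K KFs HH l15 :=
  .q [0,0,0,-1,0,0,1,1,1,1] (e' := [0,0,0,1,0,0,-1,-1,-1,-1]) (.p true [1,-1,1] [] (⟨0,[(14,0),(1,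
  0)]⟩,⟨0,[(8,0)]⟩) .k 0 (⟨0,[]⟩,⟨0,[]⟩) .k .k) (by decide +kernel) (by decide +kernel) (.t t11
  ok11) cl15

theorem cl17 : Clo4 K KFs HH l14 :=
  .q [0,0,-2,0,1,0,0,0,-1] (e' := [0,0,2,0,-1,0,0,0,1]) (.pp true [-1,1]) (by decide +kernel)
  (by decide +kernel) cl16 (.t t16 ok16)

theorem cl18 : Clo4 K KFs HH r24 :=
  .i [0,-1,2,1,0,0,0,-1] (e' := [1,1,-2,-1,0,0,0,1]) (by decide +kernel) (by decide +kernel) (.t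
  t20 ok20) (.h (Or.inr (Or.inr (Or.inr (Or.inl rfl)))))

theorem cl19 : Clo4 K KFs HH r23 :=
  .q [0,0,0,-1,0,0,1,1,1,1] (e' := [0,0,0,1,0,0,-1,-1,-1,-1]) (.p true [1,-1,1] [] (⟨0,[(16,0),(1,
  0)]⟩,⟨0,[(10,0)]⟩) .k 0 (⟨0,[]⟩,⟨0,[]⟩) .k .k) (by decide +kernel) (by decide +kernel) (.t t19
  ok19) cl18

theorem cl20 : Clo4 K KFs HH l22 :=
  .i [0,-1,1,1,0,0,0,-1] (e' := [1,1,-1,-1,0,0,0,1]) (by decide +kernel) (by decide +kernel) (.t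
  t18 ok18) cl19

theorem cl21 : Clo4 K KFs HH r21 :=
  .q [0,0,0,-1,0,0,0,0,1] (e' := [0,0,0,1,0,0,0,0,-1]) (.pp false [-1,1]) (by decide +kernel)
  (by decide +kernel) cl20 (.h (Or.inr (Or.inr (Or.inr (Or.inr (Or.inl rfl))))))

theorem cl22 : Clo4 K KFs HH r14 :=
  .q [0,0,1,0,0,0,2,0,-1,2] (e' := [0,0,-1,0,0,0,-2,0,1,-2]) (.p true [0,0,1] [1,0,-1] (⟨0,[(13,
  0)]⟩,⟨0,[(12,0)]⟩) .k 2 (⟨0,[(12,0)]⟩,⟨0,[(13,0)]⟩) .k (.r (-1) ⟨0,[(1,0),(6,0),(2,0),(11,0)]⟩ ⟨0,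
  [(0,0),(4,1),(14,0)]⟩)) (by decide +kernel) (by decide +kernel) (.t t17 ok17) cl21

theorem cl23 : Clo4 K KFs HH r1 :=
  .q [0,1,0,-1,0,0,2,2,0,2] (e' := [0,-1,0,1,0,0,-2,-2,0,-2]) (.p true [0,0,1] [0,1,-1] (⟨0,[(12,
  0)]⟩,⟨0,[(11,0)]⟩) .k 2 (⟨0,[(6,0)]⟩,⟨0,[(12,0),(1,0)]⟩) .k (.r (-1) ⟨0,[(0,0),(6,0),(2,0),(11,
  0)]⟩ ⟨0,[(1,1),(2,1)]⟩)) (by decide +kernel) (by decide +kernel) cl17 cl22

theorem cl24 : Clo4 K KFs HH l0 :=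
  .i [1,-1,1,0,0,0,0,-1] (e' := [0,1,-1,0,0,0,0,1]) (by decide +kernel) (by decide +kernel) cl11
  cl23

theorem cl25 : Clo4 K KFs HH l34 :=
  .q [0,0,1,0,0,0,2,0,-1,2] (e' := [0,0,-1,0,0,0,-2,0,1,-2]) (.p true [0,0,1] [1,0,-1] (⟨0,[(20,
  0)]⟩,⟨0,[(19,0)]⟩) .k 2 (⟨0,[(19,0)]⟩,⟨0,[(20,0)]⟩) .k (.r 0 ⟨4,[(2,1),(0,1),(5,5),(1,1),(6,5)]⟩
  ⟨2,[(0,1),(11,5),(3,1),(4,0)]⟩)) (by decide +kernel) (by decide +kernel) (.t t24 ok24) (.h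
  (Or.inr (Or.inr (Or.inr (Or.inr (Or.inr (Or.inl rfl)))))))

theorem cl26 : Clo4 K KFs HH r34 :=
  .q [0,0,1,0,0,0,2,0,-1,2] (e' := [0,0,-1,0,0,0,-2,0,1,-2]) (.p true [0,0,1] [1,0,-1] (⟨0,[(20,
  0)]⟩,⟨0,[(19,0)]⟩) .k 2 (⟨0,[(19,0)]⟩,⟨0,[(20,0)]⟩) .k (.r 0 ⟨2,[(0,0),(2,0),(3,0),(1,1),(1,0),(6,
  2),(11,0)]⟩ ⟨0,[(12,1),(3,1),(13,0)]⟩)) (by decide +kernel) (by decide +kernel) (.t t25 ok25) (.h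
  (Or.inr (Or.inr (Or.inr (Or.inr (Or.inr (Or.inr (Or.inl rfl))))))))

theorem cl27 : Clo4 K KFs HH r33 :=
  .q [0,-1,0,0,1,0,-2,-2,1,-2] (e' := [0,1,0,0,-1,0,2,2,-1,2]) (.p false [0,0,1] [1,0,-1] (⟨0,[(19,
  0)]⟩,⟨0,[(18,0)]⟩) .k 2 (⟨0,[(18,0)]⟩,⟨0,[(19,0)]⟩) .k (.r 0 ⟨4,[(1,1),(0,1),(5,5),(1,1),(6,5)]⟩
  ⟨0,[(11,1),(3,1),(13,0)]⟩)) (by decide +kernel) (by decide +kernel) cl25 cl26

theorem cl28 : Clo4 K KFs HH r32 :=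
  .q [0,0,0,-1,0,0,1,1,1,1] (e' := [0,0,0,1,0,0,-1,-1,-1,-1]) (.p true [1,-1,1] [] (⟨0,[(18,0),(1,
  0)]⟩,⟨0,[(12,0)]⟩) .k 0 (⟨0,[]⟩,⟨0,[]⟩) .k .k) (by decide +kernel) (by decide +kernel) (.t t23
  ok23) cl27

theorem cl29 : Clo4 K KFs HH l31 :=
  .q [0,1,0,-1,0,0,-1,-1,1,-1] (e' := [0,-1,0,1,0,0,1,1,-1,1]) (.p false [0,0,1] [1] (⟨0,[(17,0)]⟩,
  ⟨0,[(16,0)]⟩) .k 1 (⟨0,[]⟩,⟨0,[]⟩) .k .k) (by decide +kernel) (by decide +kernel) (.t t22 ok22)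
  cl28

theorem cl30 : Clo4 K KFs HH l30 :=
  .i [1,1,-2,-1,0,0,0,1] (e' := [0,-1,2,1,0,0,0,-1]) (by decide +kernel) (by decide +kernel) cl29
  (.t t26 ok26)

theorem cl31 : Clo4 K KFs HH l29 :=
  .q [0,0,0,1,0,0,-1,-1,0,-1] (e' := [0,0,0,-1,0,0,1,1,0,1]) (.p false [0,0,1] [] (⟨0,[(15,0)]⟩,⟨0,
  [(14,0)]⟩) .k 0 (⟨0,[]⟩,⟨0,[]⟩) .k .k) (by decide +kernel) (by decide +kernel) cl30 (.t t27 ok27)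

theorem cl32 : Clo4 K KFs HH l38 :=
  .q [0,0,1,0,0,0,2,0,-1,2] (e' := [0,0,-1,0,0,0,-2,0,1,-2]) (.p true [0,0,1] [1,0,-1] (⟨0,[(17,
  0)]⟩,⟨0,[(16,0)]⟩) .k 2 (⟨0,[(16,0)]⟩,⟨0,[(17,0)]⟩) .k (.r 0 ⟨0,[(1,1),(6,1),(6,1)]⟩ ⟨2,[(0,1),(8,
  5),(3,1),(4,0)]⟩)) (by decide +kernel) (by decide +kernel) (.t t28 ok28) (.h (Or.inr (Or.inr (Or.inr (Or.inr (Or.inr (Or.inr (Or.inr (Or.inl rfl)))))))))

theorem cl33 : Clo4 K KFs HH r38 :=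
  .q [0,0,1,0,0,0,2,0,-1,2] (e' := [0,0,-1,0,0,0,-2,0,1,-2]) (.p true [0,0,1] [1,0,-1] (⟨0,[(17,
  0)]⟩,⟨0,[(16,0)]⟩) .k 2 (⟨0,[(16,0)]⟩,⟨0,[(17,0)]⟩) .k (.r 0 ⟨2,[(0,1),(3,1),(3,1),(6,1),(8,1),(2,
  1)]⟩ ⟨0,[(9,1),(3,1),(13,0)]⟩)) (by decide +kernel) (by decide +kernel) (.t t29 ok29) (.h (Or.inr (Or.inr (Or.inr (Or.inr (Or.inr (Or.inr (Or.inr (Or.inr (Or.inl rfl))))))))))

theorem cl34 : Clo4 K KFs HH l37 :=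
  .q [0,-1,0,0,1,0,-2,-2,1,-2] (e' := [0,1,0,0,-1,0,2,2,-1,2]) (.p false [0,0,1] [1,0,-1] (⟨0,[(16,
  0)]⟩,⟨0,[(15,0)]⟩) .k 2 (⟨0,[(15,0)]⟩,⟨0,[(16,0)]⟩) .k (.r 0 ⟨0,[(0,1),(6,1),(6,1)]⟩ ⟨0,[(8,1),(3,
  1),(13,0)]⟩)) (by decide +kernel) (by decide +kernel) cl32 cl33

theorem cl35 : Clo4 K KFs HH r44 :=
  .i [1,-1,1,1,0,0,0,1] (e' := [0,1,-1,-1,0,0,0,-1]) (by decide +kernel) (by decide +kernel) (.t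
  t33 ok33) (.h (Or.inr (Or.inr (Or.inr (Or.inr (Or.inr (Or.inr (Or.inr (Or.inr (Or.inr (Or.inl rfl)))))))))))

theorem cl36 : Clo4 K KFs HH r43 :=
  .q [0,0,1,0,0,0,2,0,-1,2] (e' := [0,0,-1,0,0,0,-2,0,1,-2]) (.p true [0,0,1] [1,0,-1] (⟨0,[(19,
  0)]⟩,⟨0,[(18,0)]⟩) .k 2 (⟨0,[(18,0)]⟩,⟨0,[(19,0)]⟩) .k (.r 0 ⟨0,[(0,0),(9,0),(6,0)]⟩ ⟨0,[(11,1),
  (3,1),(13,0)]⟩)) (by decide +kernel) (by decide +kernel) (.t t32 ok32) cl35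

theorem cl37 : Clo4 K KFs HH r42 :=
  .q [0,0,0,0,0,0,-2,-2,1,-2] (e' := [0,0,0,0,0,0,2,2,-1,2]) (.p false [0,0,1] [1,0,-1] (⟨0,[(18,
  0)]⟩,⟨0,[(17,0)]⟩) .k 2 (⟨0,[(17,0)]⟩,⟨0,[(18,0)]⟩) .k (.r 0 ⟨0,[(0,1),(0,1)]⟩ ⟨0,[(10,1),(3,1),
  (13,0)]⟩)) (by decide +kernel) (by decide +kernel) (.t t31 ok31) cl36

theorem cl38 : Clo4 K KFs HH l41 :=
  .q [0,0,0,-1,0,0,-2,-2,2,-2] (e' := [0,0,0,1,0,0,2,2,-2,2]) (.p false [0,0,1] [2,-1,-1] (⟨0,[(17,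
  0)]⟩,⟨0,[(16,0)]⟩) .k 2 (⟨0,[(16,0),(2,0)]⟩,⟨0,[(10,0)]⟩) .k (.x (-1) ⟨0,[(9,1),(6,1),(1,0)]⟩ ⟨0,
  [(7,0),(0,0),(6,0)]⟩)) (by decide +kernel) (by decide +kernel) (.t t30 ok30) cl37

theorem cl39 : Clo4 K KFs HH r50 :=
  .q [0,0,1,0,0,0,2,0,-1,2] (e' := [0,0,-1,0,0,0,-2,0,1,-2]) (.p true [0,0,1] [1,0,-1] (⟨0,[(22,
  0)]⟩,⟨0,[(21,0)]⟩) .k 2 (⟨0,[(21,0)]⟩,⟨0,[(22,0)]⟩) .k (.r (-1) ⟨0,[(9,1),(19,1),(2,0)]⟩ ⟨0,[(0,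
  1)]⟩)) (by decide +kernel) (by decide +kernel) (.t t36 ok36) (.h (Or.inr (Or.inr (Or.inr (Or.inr (Or.inr (Or.inr (Or.inr (Or.inr (Or.inr (Or.inr (Or.inl rfl))))))))))))

theorem cl40 : Clo4 K KFs HH r49 :=
  .i [1,0,0,0,0,0,0,1] (e' := [0,0,0,0,0,0,0,-1]) (by decide +kernel) (by decide +kernel) (.t t35
  ok35) cl39

theorem cl41 : Clo4 K KFs HH l48 :=
  .q [0,0,1,0,0,0,2,1,-1,2] (e' := [0,0,-1,0,0,0,-2,-1,1,-2]) (.p true [0,0,1] [1,0,-1] (⟨0,[(20,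
  0)]⟩,⟨0,[(19,0)]⟩) .k 2 (⟨0,[(19,0)]⟩,⟨0,[(20,0)]⟩) .k (.x (-1) ⟨0,[(12,1),(6,1),(1,0)]⟩ ⟨0,[(10,
  0),(0,0),(6,0)]⟩)) (by decide +kernel) (by decide +kernel) (.t t34 ok34) cl40

theorem cl42 : Clo4 K KFs HH l47 :=
  .i [1,0,0,0,0,0,0,-1] (e' := [0,0,0,0,0,0,0,1]) (by decide +kernel) (by decide +kernel) cl41 (.t
  t37 ok37)

theorem cl43 : Clo4 K KFs HH r47 :=
  .q [0,0,1,0,0,0,2,0,-1,2] (e' := [0,0,-1,0,0,0,-2,0,1,-2]) (.p true [0,0,1] [1,0,-1] (⟨0,[(19,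
  0)]⟩,⟨0,[(18,0)]⟩) .k 2 (⟨0,[(18,0)]⟩,⟨0,[(19,0)]⟩) .k (.r 0 ⟨0,[(0,0),(9,0),(6,0)]⟩ ⟨2,[(1,1),(5,
  3),(18,1),(1,0),(0,1)]⟩)) (by decide +kernel) (by decide +kernel) (.t t38 ok38) (.h (Or.inr (Or.inr (Or.inr (Or.inr (Or.inr (Or.inr (Or.inr (Or.inr (Or.inr (Or.inr (Or.inr (Or.inl rfl)))))))))))))

theorem cl44 : Clo4 K KFs HH l46 :=
  .q [0,0,0,0,0,0,-2,-2,1,-2] (e' := [0,0,0,0,0,0,2,2,-1,2]) (.p false [0,0,1] [1,0,-1] (⟨0,[(18,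
  0)]⟩,⟨0,[(17,0)]⟩) .k 2 (⟨0,[(17,0)]⟩,⟨0,[(18,0)]⟩) .k (.x (-1) ⟨0,[(10,1),(6,1),(1,0)]⟩ ⟨0,[(8,
  0),(0,0),(6,0)]⟩)) (by decide +kernel) (by decide +kernel) cl42 cl43

theorem cl45 : Clo4 K KFs HH r41 :=
  .i [0,1,-1,-1,0,0,0,-1] (e' := [1,-1,1,1,0,0,0,1]) (by decide +kernel) (by decide +kernel) cl44
  (.t t39 ok39)

theorem cl46 : Clo4 K KFs HH r37 :=
  .q [0,0,0,-1,0,0,-2,-1,2,-2] (e' := [0,0,0,1,0,0,2,1,-2,2]) (.p false [0,0,1] [2,-1,-1] (⟨0,[(16,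
  0)]⟩,⟨0,[(15,0)]⟩) .k 2 (⟨0,[(15,0),(2,0)]⟩,⟨0,[(9,0)]⟩) .k (.x (-1) ⟨0,[(8,1),(6,1),(1,0)]⟩ ⟨0,
  [(6,0),(0,0),(6,0)]⟩)) (by decide +kernel) (by decide +kernel) cl38 cl45

theorem cl47 : Clo4 K KFs HH r29 :=
  .q [0,0,0,0,0,0,2,1,-1,2] (e' := [0,0,0,0,0,0,-2,-1,1,-2]) (.p true [0,0,1] [1,0,-1] (⟨0,[(15,
  0)]⟩,⟨0,[(14,0)]⟩) .k 2 (⟨0,[(14,0)]⟩,⟨0,[(15,0)]⟩) .k (.x (-1) ⟨0,[(7,1),(6,1),(1,0)]⟩ ⟨0,[(5,0),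
  (0,0),(6,0)]⟩)) (by decide +kernel) (by decide +kernel) cl34 cl46

theorem cl48 : Clo4 K KFs HH r28 :=
  .i [0,-1,2,1] (e' := [1,1,-2,-1]) (by decide +kernel) (by decide +kernel) cl31 cl47

theorem cl49 : Clo4 K KFs HH l27 :=
  .q [0,0,0,-1,0,0,0,0,1] (e' := [0,0,0,1,0,0,0,0,-1]) (.pp false [-1,1]) (by decide +kernel)
  (by decide +kernel) (.t t21 ok21) cl48

theorem cl50 : Clo4 K KFs HH l26 :=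
  .i [0,0,0,1,0,0,0,1] (e' := [1,0,0,-1,0,0,0,-1]) (by decide +kernel) (by decide +kernel) cl49 (.t
  t40 ok40)

theorem cl51 : Clo4 K KFs HH r58 :=
  .i [0,-1,2,1,0,0,0,2] (e' := [1,1,-2,-1,0,0,0,-2]) (by decide +kernel) (by decide +kernel) (.t
  t44 ok44) (.h (Or.inr (Or.inr (Or.inr (Or.inr (Or.inr (Or.inr (Or.inr (Or.inr (Or.inr (Or.inr (Or.inr (Or.inr (Or.inl rfl))))))))))))))

theorem cl52 : Clo4 K KFs HH r57 :=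
  .i [0,-1,2,1,0,0,0,1] (e' := [1,1,-2,-1,0,0,0,-1]) (by decide +kernel) (by decide +kernel) (.t
  t43 ok43) cl51

theorem cl53 : Clo4 K KFs HH l56 :=
  .i [0,0,2,1,0,0,0,-1] (e' := [1,0,-2,-1,0,0,0,1]) (by decide +kernel) (by decide +kernel) (.t t42
  ok42) cl52

theorem cl54 : Clo4 K KFs HH l65 :=
  .i [1,1,-1,-1,0,0,0,-1] (e' := [0,-1,1,1,0,0,0,1]) (by decide +kernel) (by decide +kernel) (.h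
  (Or.inr (Or.inr (Or.inr (Or.inr (Or.inr (Or.inr (Or.inr (Or.inr (Or.inr (Or.inr (Or.inr (Or.inr (Or.inr (Or.inl rfl))))))))))))))) (.t t48 ok48)

theorem cl55 : Clo4 K KFs HH r64 :=
  .q [0,0,0,1,0,0,1,1,-2,1] (e' := [0,0,0,-1,0,0,-1,-1,2,-1]) (.p true [-1,1,1] [1] (⟨0,[(14,0)]⟩,
  ⟨0,[(20,0),(2,0)]⟩) .k 1 (⟨0,[]⟩,⟨0,[]⟩) .k .k) (by decide +kernel) (by decide +kernel) cl54 (.t
  t49 ok49)

theorem cl56 : Clo4 K KFs HH l63 :=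
  .i [0,1,2,1,-1,0,0,1] (e' := [1,-1,-2,-1,1,0,0,-1]) (by decide +kernel) (by decide +kernel) (.t
  t47 ok47) cl55

theorem cl57 : Clo4 K KFs HH l67 :=
  .i [0,0,2,1,0,0,0,-1] (e' := [1,0,-2,-1,0,0,0,1]) (by decide +kernel) (by decide +kernel) (.t t50
  ok50) (.h (Or.inr (Or.inr (Or.inr (Or.inr (Or.inr (Or.inr (Or.inr (Or.inr (Or.inr (Or.inr (Or.inr (Or.inr (Or.inr (Or.inr (Or.inl rfl))))))))))))))))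

theorem cl58 : Clo4 K KFs HH r63 :=
  .q [0,0,0,-1,0,0,0,0,1] (e' := [0,0,0,1,0,0,0,0,-1]) (.pp false [-1,1]) (by decide +kernel)
  (by decide +kernel) cl57 (.h (Or.inr (Or.inr (Or.inr (Or.inr (Or.inr (Or.inr (Or.inr (Or.inr (Or.inr (Or.inr (Or.inr (Or.inr (Or.inr (Or.inr (Or.inr (Or.inl rfl)))))))))))))))))

theorem cl59 : Clo4 K KFs HH r62 :=
  .q [0,1,0,-1,-1,0,2,2,0,2] (e' := [0,-1,0,1,1,0,-2,-2,0,-2]) (.p true [0,0,1] [0,1,-1] (⟨0,[(19,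
  0)]⟩,⟨0,[(18,0)]⟩) .k 2 (⟨0,[(13,0)]⟩,⟨0,[(19,0),(1,0)]⟩) .k (.r 0 ⟨6,[(0,3),(2,1),(2,1),(1,9),(8,
  5)]⟩ ⟨2,[(1,1),(3,0),(5,3),(3,1),(0,0)]⟩)) (by decide +kernel) (by decide +kernel) cl56 cl58

theorem cl60 : Clo4 K KFs HH l61 :=
  .q [0,0,1,0,0,0,2,0,-1,2] (e' := [0,0,-1,0,0,0,-2,0,1,-2]) (.p true [0,0,1] [1,0,-1] (⟨0,[(18,
  0)]⟩,⟨0,[(17,0)]⟩) .k 2 (⟨0,[(17,0)]⟩,⟨0,[(18,0)]⟩) .k (.r 0 ⟨0,[(5,0),(1,0),(8,0),(9,0)]⟩ ⟨2,[(0,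
  1),(3,0),(5,3),(3,1),(0,0)]⟩)) (by decide +kernel) (by decide +kernel) (.t t46 ok46) cl59

theorem cl61 : Clo4 K KFs HH l70 :=
  .i [0,-1,1,1,0,0,0,1] (e' := [1,1,-1,-1,0,0,0,-1]) (by decide +kernel) (by decide +kernel) (.t
  t52 ok52) (.h (Or.inr (Or.inr (Or.inr (Or.inr (Or.inr (Or.inr (Or.inr (Or.inr (Or.inr (Or.inr (Or.inr (Or.inr (Or.inr (Or.inr (Or.inr (Or.inr (Or.inl rfl))))))))))))))))))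

theorem cl62 : Clo4 K KFs HH r69 :=
  .q [0,0,0,-1,0,0,0,0,1] (e' := [0,0,0,1,0,0,0,0,-1]) (.pp false [-1,1]) (by decide +kernel)
  (by decide +kernel) cl61 (.h (Or.inr (Or.inr (Or.inr (Or.inr (Or.inr (Or.inr (Or.inr (Or.inr (Or.inr (Or.inr (Or.inr (Or.inr (Or.inr (Or.inr (Or.inr (Or.inr (Or.inr rfl))))))))))))))))))

theorem cl63 : Clo4 K KFs HH r61 :=
  .q [0,0,1,0,0,0,2,0,-1,2] (e' := [0,0,-1,0,0,0,-2,0,1,-2]) (.p true [0,0,1] [1,0,-1] (⟨0,[(18,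
  0)]⟩,⟨0,[(17,0)]⟩) .k 2 (⟨0,[(17,0)]⟩,⟨0,[(18,0)]⟩) .k (.r 0 ⟨1,[(0,0),(4,0),(3,0),(3,0),(2,1),(9,
  0),(1,0)]⟩ ⟨0,[(10,1),(3,1),(13,0)]⟩)) (by decide +kernel) (by decide +kernel) (.t t51 ok51) cl62

theorem cl64 : Clo4 K KFs HH r60 :=
  .q [0,-1,0,0,1,0,-2,-2,1,-2] (e' := [0,1,0,0,-1,0,2,2,-1,2]) (.p false [0,0,1] [1,0,-1] (⟨0,[(17,
  0)]⟩,⟨0,[(16,0)]⟩) .k 2 (⟨0,[(16,0)]⟩,⟨0,[(17,0)]⟩) .k (.r 0 ⟨0,[(4,0),(1,0),(8,0),(9,0)]⟩ ⟨0,[(9,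
  1),(3,1),(13,0)]⟩)) (by decide +kernel) (by decide +kernel) cl60 cl63

theorem cl65 : Clo4 K KFs HH r56 :=
  .i [1,-1,2,1] (e' := [0,1,-2,-1]) (by decide +kernel) (by decide +kernel) (.t t45 ok45) cl64

theorem cl66 : Clo4 K KFs HH l55 :=
  .q [0,0,0,-1,0,0,-2,-1,2,-2] (e' := [0,0,0,1,0,0,2,1,-2,2]) (.p false [0,0,1] [2,-1,-1] (⟨0,[(15,
  0)]⟩,⟨0,[(14,0)]⟩) .k 2 (⟨0,[(14,0),(2,0)]⟩,⟨0,[(8,0)]⟩) .k (.r 0 ⟨0,[(2,0),(1,0),(8,0),(9,0)]⟩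
  ⟨0,[(7,1),(3,1),(13,0)]⟩)) (by decide +kernel) (by decide +kernel) cl53 cl65

theorem cl67 : Clo4 K KFs HH r54 :=
  .q [0,1,0,1,0,0,-1,-1,-1,-1] (e' := [0,-1,0,-1,0,0,1,1,1,1]) (.p false [1,-1,1] [] (⟨0,[(14,0),(1,
  0)]⟩,⟨0,[(8,0)]⟩) .k 0 (⟨0,[]⟩,⟨0,[]⟩) .k .k) (by decide +kernel) (by decide +kernel) cl66 (.t
  t53 ok53)

theorem cl68 : Clo4 K KFs HH l53 :=
  .q [0,0,1,0,-1,0,-1,0,2,-1] (e' := [0,0,-1,0,1,0,1,0,-2,1]) (.p false [-1,1,1] [1] (⟨0,[(6,0)]⟩,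
  ⟨0,[(12,0),(2,0)]⟩) .k 1 (⟨0,[]⟩,⟨0,[]⟩) .k .k) (by decide +kernel) (by decide +kernel) (.t t41
  ok41) cl67

theorem cl69 : Clo4 K KFs HH r26 :=
  .i [0,0,-1,-1,0,0,0,1] (e' := [1,0,1,1,0,0,0,-1]) (by decide +kernel) (by decide +kernel) cl68
  (.t t54 ok54)

theorem cl70 : Clo4 K KFs HH r0 :=
  .i [0,0,1,1,0,0,0,-1] (e' := [1,0,-1,-1,0,0,0,1]) (by decide +kernel) (by decide +kernel) cl50
  cl69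

theorem cl71 : Clo4 K KFs HH base :=
  .q [0,0,0,0,0,0,-1,-1,0,-1] (e' := [0,0,0,0,0,0,1,1,0,1]) (.p false [0,0,1] [] (⟨0,[(10,0)]⟩,⟨0,
  [(9,0)]⟩) .k 0 (⟨0,[]⟩,⟨0,[]⟩) .k .k) (by decide +kernel) (by decide +kernel) cl24 cl70

open Helper25.KW Helper55.KE in
theorem closed {p a b c J l q : ℤ} {D dl : ℝ} {Cl : ℤ → ℤ → ℤ → ℤ → ℝ → Prop}
    (W : World p a b c J 1 l q D dl Cl) (g : G0 p a b c J D)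
    {N X R : ℤ} {I : ℝ} (hk : KCl p l Cl N X R I) (kz : KF a b D (X + (1 : ℤ) * I) (X + (1 : ℤ) * I + R) I)
    (hU : KU p a b l 1 Cl (fun X R I => Zy b 1 D X R I) N)
    (hN0 : KNo p a b l 1 Cl (fun X R I => Zx 1 X R I ∧ Zy b 1 D X R I))
    (hN1 : KNo p a b l 1 Cl (fun X R I => ZiD D J X R I ∧ Zy b 1 D X R I))
    (h0 : 1 ≤ (c : ℝ))
    (h1 : 1 ≤ (a : ℝ) - (b : ℝ) - (c : ℝ))
    (h2 : 0 < 2 * (b : ℝ) - D)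
    (h3 : 1 ≤ 2 * (a : ℝ) - (b : ℝ))
    (h4 : 0 < (J : ℝ) - I)
    (h5 : 0 < (J : ℝ) - D + I)
    (h6 : 0 < (X : ℝ) + I)
    (h7 : 0 < -(b : ℝ) - (X : ℝ) + D - I)
    (h8 : 0 < -D + 2 * I)
    (H0 : 0 < -(X : ℝ) - (R : ℝ) - I → 1 ≤ 1 - (a : ℝ) + (b : ℝ) - (R : ℝ) → 0 < (a : ℝ) + (c : ℝ) - D → 0 < -(a : ℝ) + (b : ℝ) + (c : ℝ) - (R : ℝ) - D → 0 < (c : ℝ) - D → 0 < -(a : ℝ) - 2 * (X : ℝ) - (R : ℝ) + D - 2 * I → 1 ≤ 1 - 2 * (b : ℝ) - (c : ℝ) - (R : ℝ) → 0 < -(p : ℝ) - 2 * (X : ℝ) - 2 * (R : ℝ) + D - 2 * I → 0 < -(a : ℝ) - (b : ℝ) - 2 * (X : ℝ) - (R : ℝ) + D - 2 * I → 0 < -(b : ℝ) - 2 * (X : ℝ) + D - 2 * I → 0 < (c : ℝ) + (p : ℝ) + 2 * (X : ℝ) + 2 * (R : ℝ) - 2 * D + 2 * I → 1 ≤ -(a : ℝ) - (R : ℝ) → 0 < (a : ℝ) - (p : ℝ) - 2 * (X : ℝ) - (R : ℝ) + D - 2 * I → 1 ≤ 1 + (a : ℝ) - (p : ℝ)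 - (R : ℝ) → False)
    (H1 : 0 < -(X : ℝ) - (R : ℝ) - I → 1 ≤ 1 - (a : ℝ) + (b : ℝ) - (R : ℝ) → 0 < (a : ℝ) + (c : ℝ) - D → 0 < -(a : ℝ) + (b : ℝ) + (c : ℝ) - (R : ℝ) - D → 0 < (c : ℝ) - D → 0 < -(a : ℝ) - 2 * (X : ℝ) - (R : ℝ) + D - 2 * I → 1 ≤ 1 - 2 * (b : ℝ) - (c : ℝ) - (R : ℝ) → 0 < (p : ℝ) + 2 * (X : ℝ) + 2 * (R : ℝ) - D + 2 * I → False)
    (H2 : 0 < -(X : ℝ) - (R : ℝ) - I → 1 ≤ (a : ℝ) - (b : ℝ) + (R : ℝ) → 0 < (a : ℝ) - (c : ℝ) + 2 * (X : ℝ) + 2 * (R : ℝ) + 2 * I → 0 < -2 * (b : ℝ) + (p : ℝ) - D → 0 < (c : ℝ) - (X : ℝ) - (R : ℝ) - D - I → 1 ≤ (a : ℝ) - (b : ℝ) - (c : ℝ) + (R : ℝ) → 1 ≤ 1 + (a : ℝ) - 2 * (b : ℝ) - (c : ℝ) + (R : ℝ) → 0 < -(b : ℝ) - 2 * (X : ℝ) + D - 2 * I → 0 < (a : ℝ) + (c : ℝ) + 2 * (X : ℝ) + (R : ℝ) - 2 * D + 2 * I → False)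
    (H3 : 0 < -(X : ℝ) - (R : ℝ) - I → 1 ≤ (a : ℝ) - (b : ℝ) + (R : ℝ) → 0 < -(a : ℝ) + (c : ℝ) - 2 * (X : ℝ) - 2 * (R : ℝ) - 2 * I → 0 < -(b : ℝ) - 2 * (X : ℝ) + D - 2 * I → 0 < -(c : ℝ) + D → 1 ≤ 1 + (a : ℝ) - (b : ℝ) - (c : ℝ) + (R : ℝ) → 0 < (c : ℝ) - (X : ℝ) - (R : ℝ) - D - I → 1 ≤ 1 + (a : ℝ) - 2 * (b : ℝ) - (c : ℝ) + (R : ℝ) → False)
    (H4 : 0 < -(X : ℝ) - (R : ℝ) - I → 1 ≤ (a : ℝ) - (b : ℝ) + (R : ℝ) → 0 < -(a : ℝ) + (c : ℝ) - 2 * (X : ℝ) - 2 * (R : ℝ) - 2 * I → 0 < -(b : ℝ) - 2 * (X : ℝ) + D - 2 * I → 0 < (c : ℝ) - D → False)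
    (H5 : 0 < (X : ℝ) + (R : ℝ) + I → 1 ≤ (b : ℝ) + (c : ℝ) - (R : ℝ) → 1 ≤ (c : ℝ) + (R : ℝ) → 0 < (c : ℝ) - D → 1 ≤ -(a : ℝ) + 2 * (b : ℝ) + (c : ℝ) → 0 < (c : ℝ) - (X : ℝ) - (R : ℝ) - I → 1 ≤ 1 + (a : ℝ) - 2 * (b : ℝ) - (c : ℝ) + (R : ℝ) → 0 < -(a : ℝ) + (c : ℝ) + (X : ℝ) + (R : ℝ) - D + I → 0 < (c : ℝ) - (X : ℝ) - (R : ℝ) - D - I → 0 < -(a : ℝ) + (p : ℝ) - 2 * (X : ℝ) - 2 * (R : ℝ) + D - 2 * I → 0 < -(b : ℝ) - 2 * (X : ℝ) + D - 2 * I → False)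
    (H6 : 0 < (X : ℝ) + (R : ℝ) + I → 1 ≤ (b : ℝ) + (c : ℝ) - (R : ℝ) → 1 ≤ (c : ℝ) + (R : ℝ) → 0 < (c : ℝ) - D → 1 ≤ -(a : ℝ) + 2 * (b : ℝ) + (c : ℝ) → 0 < (c : ℝ) - (X : ℝ) - (R : ℝ) - I → 1 ≤ 1 + (a : ℝ) - 2 * (b : ℝ) - (c : ℝ) + (R : ℝ) → 0 < -(a : ℝ) + (c : ℝ) + (X : ℝ) + (R : ℝ) - D + I → 0 < (c : ℝ) - (X : ℝ) - (R : ℝ) - D - I → 0 < (a : ℝ) - (p : ℝ) + 2 * (X : ℝ) + 2 * (R : ℝ) - D + 2 * I → 0 < -(b : ℝ) - 2 * (X : ℝ) + D - 2 * I → False)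
    (H7 : 0 < (X : ℝ) + (R : ℝ) + I → 1 ≤ (b : ℝ) + (c : ℝ) - (R : ℝ) → 1 ≤ (c : ℝ) + (R : ℝ) → 0 < (c : ℝ) - D → 1 ≤ 1 + (a : ℝ) - 2 * (b : ℝ) - (c : ℝ) → 0 < 2 * (X : ℝ) + (R : ℝ) - D + 2 * I → 0 < -(a : ℝ) + (p : ℝ) - 2 * (X : ℝ) - 2 * (R : ℝ) + D - 2 * I → 0 < -(b : ℝ) - 2 * (X : ℝ) + D - 2 * I → False)
    (H8 : 0 < (X : ℝ) + (R : ℝ) + I → 1 ≤ (b : ℝ) + (c : ℝ) - (R : ℝ) → 1 ≤ (c : ℝ) + (R : ℝ) → 0 < (c : ℝ) - D → 1 ≤ 1 + (a : ℝ) - 2 * (b : ℝ) - (c : ℝ) → 0 < 2 * (X : ℝ) + (R : ℝ) - D + 2 * I → 0 < (a : ℝ) - (p : ℝ) + 2 * (X : ℝ) + 2 * (R : ℝ) - D + 2 * I → 0 < -(b : ℝ) - 2 * (X : ℝ) + D - 2 * I → False)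
    (H9 : 0 < (X : ℝ) + (R : ℝ) + I → 1 ≤ (b : ℝ) + (c : ℝ) - (R : ℝ) → 1 ≤ (c : ℝ) + (R : ℝ) → 0 < (c : ℝ) - D → 1 ≤ 1 + (a : ℝ) - 2 * (b : ℝ) - (c : ℝ) → 0 < -2 * (X : ℝ) - (R : ℝ) + D - 2 * I → 0 < -(c : ℝ) - 2 * (X : ℝ) - (R : ℝ) + 2 * D - 2 * I → 0 < (c : ℝ) + 2 * (X : ℝ) + 2 * (R : ℝ) - 2 * D + 2 * I → 0 < 2 * (X : ℝ) + 2 * (R : ℝ) - D + 2 * I → 0 < -(b : ℝ) - 2 * (X : ℝ) + D - 2 * I → 1 ≤ (a : ℝ) - (b : ℝ) - (c : ℝ) - (R : ℝ) → False)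
    (H10 : 0 < (X : ℝ) + (R : ℝ) + I → 1 ≤ (b : ℝ) + (c : ℝ) - (R : ℝ) → 1 ≤ (c : ℝ) + (R : ℝ) → 0 < (c : ℝ) - D → 1 ≤ 1 + (a : ℝ) - 2 * (b : ℝ) - (c : ℝ) → 0 < -2 * (X : ℝ) - (R : ℝ) + D - 2 * I → 0 < (c : ℝ) + 2 * (X : ℝ) + (R : ℝ) - 2 * D + 2 * I → 1 ≤ (a : ℝ) - (b : ℝ) - (c : ℝ) - (R : ℝ) → 0 < -2 * (X : ℝ) - 2 * (R : ℝ) + D - 2 * I → 1 ≤ 1 - (R : ℝ) → 0 < -(b : ℝ) - 2 * (X : ℝ) - (R : ℝ) + D - 2 * I → 1 ≤ -(R : ℝ) → 0 < -(b : ℝ) - 2 * (X : ℝ) + D - 2 * I → False)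
    (H11 : 0 < (X : ℝ) + (R : ℝ) + I → 1 ≤ (b : ℝ) + (c : ℝ) - (R : ℝ) → 1 ≤ (c : ℝ) + (R : ℝ) → 0 < (c : ℝ) - D → 1 ≤ 1 + (a : ℝ) - 2 * (b : ℝ) - (c : ℝ) → 0 < -2 * (X : ℝ) - (R : ℝ) + D - 2 * I → 0 < (c : ℝ) + 2 * (X : ℝ) + (R : ℝ) - 2 * D + 2 * I → 1 ≤ (a : ℝ) - (b : ℝ) - (c : ℝ) - (R : ℝ) → 0 < 2 * (X : ℝ) + 2 * (R : ℝ) - D + 2 * I → 0 < -(b : ℝ) - 2 * (X : ℝ) + D - 2 * I → False)
    (H12 : 0 < (X : ℝ) + (R : ℝ) + I → 1 ≤ 1 - (b : ℝ) - (c : ℝ) + (R : ℝ) → 1 ≤ -(b : ℝ) - (c : ℝ) + (R : ℝ) → 0 < -(b : ℝ) + (p : ℝ) + (X : ℝ) - 2 * D + I → 0 < (a : ℝ) + (c : ℝ) - (X : ℝ) - (R : ℝ) - D - I → 0 < -(c : ℝ) - 2 * (X : ℝ) - (R : ℝ) + 2 * D - 2 * I → 1 ≤ 1 - 2 * (b : ℝ) - (c : ℝ) + (R : ℝ) → 1 ≤ 1 + (a : ℝ) - 2 * (b : ℝ) - (c : ℝ) - (R : ℝ) → 1 ≤ 1 + (a : ℝ) - 2 * (b : ℝ) - (c : ℝ) -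 2 * (R : ℝ) → False)
    (H13 : 0 < (X : ℝ) + (R : ℝ) + I → 1 ≤ 1 - (b : ℝ) - (c : ℝ) + (R : ℝ) → 1 ≤ -(b : ℝ) - (c : ℝ) + (R : ℝ) → 0 < -(b : ℝ) + (p : ℝ) + (X : ℝ) - 2 * D + I → 0 < (a : ℝ) + (c : ℝ) - (X : ℝ) - (R : ℝ) - D - I → 0 < (c : ℝ) + 2 * (X : ℝ) + (R : ℝ) - 2 * D + 2 * I → 1 ≤ (a : ℝ) - 2 * (b : ℝ) - (c : ℝ) → 0 < -(a : ℝ) + (p : ℝ) - 2 * (X : ℝ) - 2 * (R : ℝ) + D - 2 * I → 0 < -(b : ℝ) - 2 * (X : ℝ) + D - 2 * I → 0 < (a : ℝ) - (c : ℝ) - (p : ℝ) + 2 * (X : ℝ) + 2 * (R : ℝ) + 2 * I → 1 ≤ 1 - (a : ℝ) - 2 * (b : ℝ) - (c : ℝ) + (p : ℝ) - (R : ℝ) → 0 < (c : ℝ) + (X : ℝ) + (R : ℝ) - 2 * D + I → 1 ≤ 1 + (a : ℝ) - (b : ℝ) - (c : ℝ) - (R : ℝ) → False)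
    (H14 : 0 < (X : ℝ) + (R : ℝ) + I → 1 ≤ 1 - (b : ℝ) - (c : ℝ) + (R : ℝ) → 1 ≤ -(b : ℝ) - (c : ℝ) + (R : ℝ) → 0 < -(b : ℝ) + (p : ℝ) + (X : ℝ) - 2 * D + I → 0 < (a : ℝ) + (c : ℝ) - (X : ℝ) - (R : ℝ) - D - I → 0 < (c : ℝ) + 2 * (X : ℝ) + (R : ℝ) - 2 * D + 2 * I → 1 ≤ (a : ℝ) - 2 * (b : ℝ) - (c : ℝ) → 0 < -(a : ℝ) + (p : ℝ) - 2 * (X : ℝ) - 2 * (R : ℝ) + D - 2 * I → 0 < -(b : ℝ) - 2 * (X : ℝ) + D - 2 * I → 0 < -(a : ℝ) + (c : ℝ) + (p : ℝ) - 2 * (X : ℝ) - 2 * (R : ℝ) - 2 * I → 0 < -(c : ℝ) + D → 1 ≤ 1 - 2 * (b : ℝ) - (c : ℝ) + (R : ℝ) → False)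
    (H15 : 0 < (X : ℝ) + (R : ℝ) + I → 1 ≤ 1 - (b : ℝ) - (c : ℝ) + (R : ℝ) → 1 ≤ -(b : ℝ) - (c : ℝ) + (R : ℝ) → 0 < -(b : ℝ) + (p : ℝ) + (X : ℝ) - 2 * D + I → 0 < (a : ℝ) + (c : ℝ) - (X : ℝ) - (R : ℝ) - D - I → 0 < (c : ℝ) + 2 * (X : ℝ) + (R : ℝ) - 2 * D + 2 * I → 1 ≤ (a : ℝ) - 2 * (b : ℝ) - (c : ℝ) → 0 < -(a : ℝ) + (p : ℝ) - 2 * (X : ℝ) - 2 * (R : ℝ) + D - 2 * I → 0 < -(b : ℝ) - 2 * (X : ℝ) + D - 2 * I → 0 < -(a : ℝ) + (c : ℝ) + (p : ℝ) - 2 * (X : ℝ) - 2 * (R : ℝ) - 2 * I → 0 < (c : ℝ) - D → False)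
    (H16 : 0 < (X : ℝ) + (R : ℝ) + I → 1 ≤ 1 - (b : ℝ) - (c : ℝ) + (R : ℝ) → 1 ≤ -(b : ℝ) - (c : ℝ) + (R : ℝ) → 0 < -(b : ℝ) + (p : ℝ) + (X : ℝ) - 2 * D + I → 0 < (a : ℝ) + (c : ℝ) - (X : ℝ) - (R : ℝ) - D - I → 0 < (c : ℝ) + 2 * (X : ℝ) + (R : ℝ) - 2 * D + 2 * I → 1 ≤ (a : ℝ) - 2 * (b : ℝ) - (c : ℝ) → 0 < (a : ℝ) - (p : ℝ) + 2 * (X : ℝ) + 2 * (R : ℝ) - D + 2 * I → 0 < -(b : ℝ) - 2 * (X : ℝ) + D - 2 * I → 0 < -(c : ℝ) + D → 1 ≤ 1 + (a : ℝ) - (b : ℝ) - (c : ℝ) - (R : ℝ) → False)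
    (H17 : 0 < (X : ℝ) + (R : ℝ) + I → 1 ≤ 1 - (b : ℝ) - (c : ℝ) + (R : ℝ) → 1 ≤ -(b : ℝ) - (c : ℝ) + (R : ℝ) → 0 < -(b : ℝ) + (p : ℝ) + (X : ℝ) - 2 * D + I → 0 < (a : ℝ) + (c : ℝ) - (X : ℝ) - (R : ℝ) - D - I → 0 < (c : ℝ) + 2 * (X : ℝ) + (R : ℝ) - 2 * D + 2 * I → 1 ≤ (a : ℝ) - 2 * (b : ℝ) - (c : ℝ) → 0 < (a : ℝ) - (p : ℝ) + 2 * (X : ℝ) + 2 * (R : ℝ) - D + 2 * I → 0 < -(b : ℝ) - 2 * (X : ℝ) + D - 2 * I → 0 < (c : ℝ) - D → False) : False := by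
  have g1 := g.a2
  have g2 := g.b2
  have g3 := g.pa
  have g4 := g.pb
  have g5 := g.J1
  have g6 := g.JD
  have g7 := g.D2
  have g8 := g.ca
  have g9 := g.ca'
  have k1 := kz.I0
  have k2 := kz.ID
  have k3 := kz.z1
  have k4 := kz.z2
  have k5 := kz.s1
  have k6 := kz.s2
  have hkf : ∀ M : ℤ, ∀ kf ∈ KFs, KOk4 p l Cl 1 (xv [1, a, b, c, p, J, X, R] [D, I]) N M kf := by
    intro M
    have hA1 : evg (xv [1, a, b, c, p, J, X, R] [D, I]) [0, 1] = a := by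
      simp only [evg_cons, evg_nil, xv, List.map_cons, List.map_nil, List.cons_append, List.nil_append]
      push_cast
      ring
    have hB1 : evg (xv [1, a, b, c, p, J, X, R] [D, I]) [0, 0, 1] = b := by
      simp only [evg_cons, evg_nil, xv, List.map_cons, List.map_nil, List.cons_append, List.nil_append]
      push_cast
      ring
    simp only [KFs, List.forall_mem_cons]
    refine ⟨kok4_u hA1 hB1 M hU ?_, kok4_no hA1 hB1 N M hN0 ?_, kok4_no hA1 hB1 N M hN1 ?_, fun _ h => absurd h (by simp)⟩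
    · intro X' R' I' _ hg
      simp only [List.forall_mem_cons, List.not_mem_nil, false_imp_iff, implies_true, and_true,
        evg_cons, evg_nil, xv, List.map_cons, List.map_nil, List.cons_append, List.nil_append] at hg
      push_cast at hg
      simp only [Zx, Zp, Zs, Zsp, Zi, ZiD, Zy]
      push_cast
      linarith
    · intro X' R' I' _ hg
      simp only [List.forall_mem_cons, List.not_mem_nil, false_imp_iff, implies_true, and_true,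
        evg_cons, evg_nil, xv, List.map_cons, List.map_nil, List.cons_append, List.nil_append] at hg
      push_cast at hg
      simp only [Zx, Zp, Zs, Zsp, Zi, ZiD, Zy]
      push_cast
      refine ⟨?_, ?_⟩ <;> linarith [hg.1, hg.2]
    · intro X' R' I' _ hg
      simp only [List.forall_mem_cons, List.not_mem_nil, false_imp_iff, implies_true, and_true,
        evg_cons, evg_nil, xv, List.map_cons, List.map_nil, List.cons_append, List.nil_append] at hg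
      push_cast at hg
      simp only [Zx, Zp, Zs, Zsp, Zi, ZiD, Zy]
      push_cast
      refine ⟨?_, ?_⟩ <;> linarith [hg.1, hg.2]
  push_cast at *
  refine closed4 (val_K W.toBase hk []) W rfl (Nk := N)
    (fun kf _ _ => ⟨_, rfl⟩) (fun _ _ _ => rfl) (hkf _) (H := HH) ?_ cl71 ?_
  · rintro Q (rfl | rfl | rfl | rfl | rfl | rfl | rfl | rfl | rfl | rfl | rfl | rfl | rfl | rfl | rfl | rfl | rfl | rfl) hQ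
    · simp only [l13, l12, r11, r10, r9, r8, l7, r6, r5, r4, r3, l2, l1, l0, List.forall_mem_cons, hld, xv, evg_cons, evg_nil, List.map_cons,
        List.map_nil, List.cons_append, List.nil_append, if_true, if_false, Bool.false_eq_true] at hQ
      push_cast at hQ
      obtain ⟨p13, p12, p11, p10, p9, p8, p7, p6, p5, p4, p3, p2, p1, p0, -⟩ := hQ
      exact H0 (by linarith) (by linarith) (by linarith) (by linarith) (by linarith) (by linarith) (by linarith) (by linarith) (by linarith) (by linarith) (by linarith) (by linarith) (by linarith) (by linarith)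
    · simp only [r7, r6, r5, r4, r3, l2, l1, l0, List.forall_mem_cons, hld, xv, evg_cons, evg_nil, List.map_cons,
        List.map_nil, List.cons_append, List.nil_append, if_true, if_false, Bool.false_eq_true] at hQ
      push_cast at hQ
      obtain ⟨p7, p6, p5, p4, p3, p2, p1, p0, -⟩ := hQ
      exact H1 (by linarith) (by linarith) (by linarith) (by linarith) (by linarith) (by linarith) (by linarith) (by linarith)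
    · simp only [l20, r19, r18, r17, r16, l15, l14, r1, l0, List.forall_mem_cons, hld, xv, evg_cons, evg_nil, List.map_cons,
        List.map_nil, List.cons_append, List.nil_append, if_true, if_false, Bool.false_eq_true] at hQ
      push_cast at hQ
      obtain ⟨p8, p7, p6, p5, p4, p3, p2, p1, p0, -⟩ := hQ
      exact H2 (by linarith) (by linarith) (by linarith) (by linarith) (by linarith) (by linarith) (by linarith) (by linarith) (by linarith)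
    · simp only [r25, r24, r23, l22, r21, r14, r1, l0, List.forall_mem_cons, hld, xv, evg_cons, evg_nil, List.map_cons,
        List.map_nil, List.cons_append, List.nil_append, if_true, if_false, Bool.false_eq_true] at hQ
      push_cast at hQ
      obtain ⟨p7, p6, p5, p4, p3, p2, p1, p0, -⟩ := hQ
      exact H3 (by linarith) (by linarith) (by linarith) (by linarith) (by linarith) (by linarith) (by linarith) (by linarith)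
    · simp only [r22, r21, r14, r1, l0, List.forall_mem_cons, hld, xv, evg_cons, evg_nil, List.map_cons,
        List.map_nil, List.cons_append, List.nil_append, if_true, if_false, Bool.false_eq_true] at hQ
      push_cast at hQ
      obtain ⟨p4, p3, p2, p1, p0, -⟩ := hQ
      exact H4 (by linarith) (by linarith) (by linarith) (by linarith) (by linarith)
    · simp only [r35, l34, r33, r32, l31, l30, l29, r28, l27, l26, r0, List.forall_mem_cons, hld, xv, evg_cons, evg_nil, List.map_cons,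
        List.map_nil, List.cons_append, List.nil_append, if_true, if_false, Bool.false_eq_true] at hQ
      push_cast at hQ
      obtain ⟨p10, p9, p8, p7, p6, p5, p4, p3, p2, p1, p0, -⟩ := hQ
      exact H5 (by linarith) (by linarith) (by linarith) (by linarith) (by linarith) (by linarith) (by linarith) (by linarith) (by linarith) (by linarith) (by linarith)
    · simp only [r36, r34, r33, r32, l31, l30, l29, r28, l27, l26, r0, List.forall_mem_cons, hld, xv, evg_cons, evg_nil, List.map_cons,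
        List.map_nil, List.cons_append, List.nil_append, if_true, if_false, Bool.false_eq_true] at hQ
      push_cast at hQ
      obtain ⟨p10, p9, p8, p7, p6, p5, p4, p3, p2, p1, p0, -⟩ := hQ
      exact H6 (by linarith) (by linarith) (by linarith) (by linarith) (by linarith) (by linarith) (by linarith) (by linarith) (by linarith) (by linarith) (by linarith)
    · simp only [r39, l38, l37, r29, r28, l27, l26, r0, List.forall_mem_cons, hld, xv, evg_cons, evg_nil, List.map_cons,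
        List.map_nil, List.cons_append, List.nil_append, if_true, if_false, Bool.false_eq_true] at hQ
      push_cast at hQ
      obtain ⟨p7, p6, p5, p4, p3, p2, p1, p0, -⟩ := hQ
      exact H7 (by linarith) (by linarith) (by linarith) (by linarith) (by linarith) (by linarith) (by linarith) (by linarith)
    · simp only [r40, r38, l37, r29, r28, l27, l26, r0, List.forall_mem_cons, hld, xv, evg_cons, evg_nil, List.map_cons,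
        List.map_nil, List.cons_append, List.nil_append, if_true, if_false, Bool.false_eq_true] at hQ
      push_cast at hQ
      obtain ⟨p7, p6, p5, p4, p3, p2, p1, p0, -⟩ := hQ
      exact H8 (by linarith) (by linarith) (by linarith) (by linarith) (by linarith) (by linarith) (by linarith) (by linarith)
    · simp only [r45, r44, r43, r42, l41, r37, r29, r28, l27, l26, r0, List.forall_mem_cons, hld, xv, evg_cons, evg_nil, List.map_cons,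
        List.map_nil, List.cons_append, List.nil_append, if_true, if_false, Bool.false_eq_true] at hQ
      push_cast at hQ
      obtain ⟨p10, p9, p8, p7, p6, p5, p4, p3, p2, p1, p0, -⟩ := hQ
      exact H9 (by linarith) (by linarith) (by linarith) (by linarith) (by linarith) (by linarith) (by linarith) (by linarith) (by linarith) (by linarith) (by linarith)
    · simp only [r51, r50, r49, l48, l47, l46, r41, r37, r29, r28, l27, l26, r0, List.forall_mem_cons, hld, xv, evg_cons, evg_nil, List.map_cons,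
        List.map_nil, List.cons_append, List.nil_append, if_true, if_false, Bool.false_eq_true] at hQ
      push_cast at hQ
      obtain ⟨p12, p11, p10, p9, p8, p7, p6, p5, p4, p3, p2, p1, p0, -⟩ := hQ
      exact H10 (by linarith) (by linarith) (by linarith) (by linarith) (by linarith) (by linarith) (by linarith) (by linarith) (by linarith) (by linarith) (by linarith) (by linarith) (by linarith)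
    · simp only [r52, r47, l46, r41, r37, r29, r28, l27, l26, r0, List.forall_mem_cons, hld, xv, evg_cons, evg_nil, List.map_cons,
        List.map_nil, List.cons_append, List.nil_append, if_true, if_false, Bool.false_eq_true] at hQ
      push_cast at hQ
      obtain ⟨p9, p8, p7, p6, p5, p4, p3, p2, p1, p0, -⟩ := hQ
      exact H11 (by linarith) (by linarith) (by linarith) (by linarith) (by linarith) (by linarith) (by linarith) (by linarith) (by linarith) (by linarith)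
    · simp only [r59, r58, r57, l56, l55, r54, l53, r26, r0, List.forall_mem_cons, hld, xv, evg_cons, evg_nil, List.map_cons,
        List.map_nil, List.cons_append, List.nil_append, if_true, if_false, Bool.false_eq_true] at hQ
      push_cast at hQ
      obtain ⟨p8, p7, p6, p5, p4, p3, p2, p1, p0, -⟩ := hQ
      exact H12 (by linarith) (by linarith) (by linarith) (by linarith) (by linarith) (by linarith) (by linarith) (by linarith) (by linarith)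
    · simp only [l66, l65, r64, l63, r62, l61, r60, r56, l55, r54, l53, r26, r0, List.forall_mem_cons, hld, xv, evg_cons, evg_nil, List.map_cons,
        List.map_nil, List.cons_append, List.nil_append, if_true, if_false, Bool.false_eq_true] at hQ
      push_cast at hQ
      obtain ⟨p12, p11, p10, p9, p8, p7, p6, p5, p4, p3, p2, p1, p0, -⟩ := hQ
      exact H13 (by linarith) (by linarith) (by linarith) (by linarith) (by linarith) (by linarith) (by linarith) (by linarith) (by linarith) (by linarith) (by linarith) (by linarith) (by linarith)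
    · simp only [r68, l67, r63, r62, l61, r60, r56, l55, r54, l53, r26, r0, List.forall_mem_cons, hld, xv, evg_cons, evg_nil, List.map_cons,
        List.map_nil, List.cons_append, List.nil_append, if_true, if_false, Bool.false_eq_true] at hQ
      push_cast at hQ
      obtain ⟨p11, p10, p9, p8, p7, p6, p5, p4, p3, p2, p1, p0, -⟩ := hQ
      exact H14 (by linarith) (by linarith) (by linarith) (by linarith) (by linarith) (by linarith) (by linarith) (by linarith) (by linarith) (by linarith) (by linarith) (by linarith)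
    · simp only [r67, r63, r62, l61, r60, r56, l55, r54, l53, r26, r0, List.forall_mem_cons, hld, xv, evg_cons, evg_nil, List.map_cons,
        List.map_nil, List.cons_append, List.nil_append, if_true, if_false, Bool.false_eq_true] at hQ
      push_cast at hQ
      obtain ⟨p10, p9, p8, p7, p6, p5, p4, p3, p2, p1, p0, -⟩ := hQ
      exact H15 (by linarith) (by linarith) (by linarith) (by linarith) (by linarith) (by linarith) (by linarith) (by linarith) (by linarith) (by linarith) (by linarith)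
    · simp only [r71, l70, r69, r61, r60, r56, l55, r54, l53, r26, r0, List.forall_mem_cons, hld, xv, evg_cons, evg_nil, List.map_cons,
        List.map_nil, List.cons_append, List.nil_append, if_true, if_false, Bool.false_eq_true] at hQ
      push_cast at hQ
      obtain ⟨p10, p9, p8, p7, p6, p5, p4, p3, p2, p1, p0, -⟩ := hQ
      exact H16 (by linarith) (by linarith) (by linarith) (by linarith) (by linarith) (by linarith) (by linarith) (by linarith) (by linarith) (by linarith) (by linarith)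
    · simp only [r70, r69, r61, r60, r56, l55, r54, l53, r26, r0, List.forall_mem_cons, hld, xv, evg_cons, evg_nil, List.map_cons,
        List.map_nil, List.cons_append, List.nil_append, if_true, if_false, Bool.false_eq_true] at hQ
      push_cast at hQ
      obtain ⟨p9, p8, p7, p6, p5, p4, p3, p2, p1, p0, -⟩ := hQ
      exact H17 (by linarith) (by linarith) (by linarith) (by linarith) (by linarith) (by linarith) (by linarith) (by linarith) (by linarith) (by linarith)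
  · simp only [base, List.forall_mem_cons, List.not_mem_nil, false_imp_iff, implies_true,
      and_true, hld, xv, evg_cons, evg_nil, List.map_cons, List.map_nil, List.cons_append,
      List.nil_append, if_true, if_false, Bool.false_eq_true]
    push_cast
    refine ⟨?_, ?_, ?_, ?_, ?_, ?_, ?_, ?_, ?_, ?_, ?_, ?_, ?_, ?_, ?_, ?_, ?_, ?_, ?_, ?_, ?_, ?_, ?_⟩ <;> linarith

end Helper25.S1T.Zpp1Ca_r1
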